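import Mathlib
import Pool.Agent.Lib.H1M.RC.D_CFT_D0

/-! # Definitions for MP_32ceeb (Sato-Tate in even degree)

Om: an algebraic closure of the rational numbers (a field of type Type with IsAlgClosure ℚ Om). Its Galois group Om ≃ₐ[ℚ] Om carries the Krull topology of
Mathlib. 𝓞 Om: the ring of all algebraic integers of Om. Inertia groups and Frobenius elements at the prime ideals of 𝓞 Om; the known properties
(Deligne) of the l-adic representations on the cohomology of a smooth projective variety over ℚ, twisted to weight 0. -/

open NumberField Polynomial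

namespace ST32

section general

variable {K : Type} [Field K] {Om : Type} [Field Om] [Algebra K Om]

/-- g is in the inertia group of the prime P of the ring of all algebraic integers: g x - x is in P for all x. -/
def Inert (P : Ideal (𝓞 Om)) (g : Om ≃ₐ[K] Om) : Prop := ∀ x : 𝓞 Om, g • x - x ∈ P

/-- g x = x ^ q modulo P for all x. -/
def FrobAt (q : ℕ) (P : Ideal (𝓞 Om)) (g : Om ≃ₐ[K] Om) : Prop := ∀ x : 𝓞 Om, g • x - x ^ q ∈ P

end general

section rationals

variable {Om : Type} [Field Om] [CharZero Om]




end rationals

section numberfield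

variable {K : Type} [Field K] [NumberField K] {Om : Type} [Field Om] [Algebra K Om]

/-- The prime ideal P of the ring of all algebraic integers lies above the prime v of the number field K. -/
def Above (v : CFT.Pr K) (P : Ideal (𝓞 Om)) : Prop := P.IsPrime ∧ P.comap (algebraMap (𝓞 K) (𝓞 Om)) = v.asIdeal

/-- g is a Frobenius element at the prime v of K. -/
def IsFrv (v : CFT.Pr K) (g : Om ≃ₐ[K] Om) : Prop := ∃ P : Ideal (𝓞 Om), Above v P ∧ FrobAt (CFT.Nm v) P g

/-- The homomorphism f is trivial on all inertia groups above the prime v of K. -/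
def UnrV {G : Type} [Monoid G] (f : (Om ≃ₐ[K] Om) →* G) (v : CFT.Pr K) : Prop :=
  ∀ P : Ideal (𝓞 Om), Above v P → ∀ g : Om ≃ₐ[K] Om, Inert P g → f g = 1

end numberfield

end ST32
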