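import Mathlib.Analysis.Normed.Unbundled.SpectralNorm
import Pool.Agent.Lib.H1M.RC.D_CFT_D_32
import Pool.Agent.Lib.H1M.RC.D_H76Q_Q1

/-!
# Q5: definitions for the final theorem over a number field
-/

set_option autoImplicit false
set_option linter.unusedSectionVars false
namespace Pool.Agent.H76Q
open Module Matrix Polynomial Pool.Agent.H53Toric NumberField
open Pool.Agent.H76P (properProj EigOn)
open Pool.Agent.H76U (IsSplitting)
open Pool.Agent.H76RM (spanK similD)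

/-- `v` is the `p`-adic valuation of the closure of `ℚ_p`, normalised by `v p = 1`. -/
def IsPVal (p : ℕ) [Fact p.Prime] (v : AlgebraicClosure ℚ_[p] → ℚ) : Prop :=
  ∀ x : AlgebraicClosure ℚ_[p], x ≠ 0 →
    spectralNorm ℚ_[p] (AlgebraicClosure ℚ_[p]) x = (p : ℝ) ^ (-(v x : ℝ))

/-- The inertia group of `ℚ_p`. -/
def inertia (p : ℕ) [Fact p.Prime] (v : AlgebraicClosure ℚ_[p] → ℚ) :
    Set (AlgebraicClosure ℚ_[p] ≃+* AlgebraicClosure ℚ_[p]) :=
  {δ | (∀ c : ℚ_[p], δ (algebraMap ℚ_[p] _ c) = algebraMap ℚ_[p] _ c) ∧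
    ∀ x, x ≠ 0 → 0 ≤ v x → δ x = x ∨ 0 < v (δ x - x)}


end Pool.Agent.H76Q
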