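import Pool.Agent.Lib.H1M.RC.D_H76Q_Q5

/-!
# Q7: Mumford type data over a number field
-/

set_option autoImplicit false
set_option linter.unusedSectionVars false
namespace Pool.Agent.H76Q
open Module Matrix
open Pool.Agent.H76P (properProj)


/-- The class of the Hodge-Tate cocharacter at a place of degree one above `l` is defined over
`ℚ_l`: for almost all `l` such that `F` has an embedding into `ℚ_l` there is a projector `h` of the
monodromy group which commutes with the image of `σ` and whose conjugates over `ℚ_l` are conjugate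
to `h` under the group. -/
def HTRat {ι : Type*} [Fintype ι] [DecidableEq ι] (F : Type*) [Field F] {G : Type*} [Group G]
    (ρ : ∀ (l : ℕ) [Fact l.Prime], G →* Matrix.GeneralLinearGroup ι ℚ_[l]) (σ : G) : Prop :=
  ∃ N : Set ℕ, N.Finite ∧ ∀ (l : ℕ) [Fact l.Prime], l ∉ N → Nonempty (F →+* ℚ_[l]) →
    ∃ h ∈ properProj (AlgebraicClosure ℚ_[l]) (ρ l),
      h * (ρ l σ).1.map (algebraMap ℚ_[l] (AlgebraicClosure ℚ_[l])) =
        (ρ l σ).1.map (algebraMap ℚ_[l] (AlgebraicClosure ℚ_[l])) * h ∧
      ∀ t : AlgebraicClosure ℚ_[l] ≃ₐ[ℚ_[l]] AlgebraicClosure ℚ_[l],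
        ∃ g g' : Matrix ι ι (AlgebraicClosure ℚ_[l]), g ∈ tgen (AlgebraicClosure ℚ_[l]) (ρ l) ∧
          g * g' = 1 ∧ h.map t = g * h * g'

end Pool.Agent.H76Q
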