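import Mathlib
import Pool.Agent.Lib.H1M.RC.D_CFT_D0
import Pool.Agent.Lib.H1M.RC.D_CFT_D_32

/-! Merged copies (to shorten the build) of Lib.CFT.N01, Lib.CFT.N06, Lib.H59.PrimeIdealSums, Lib.H25G.Defs, Lib.H25G.TwD, Lib.H84L.D0, Lib.H84L.N1, Lib.H84L.U1, Lib.H84L.U2, Lib.H84L.S0, Lib.H84L.S1, Lib.H84L.S2, Lib.H45K.K1, Lib.H45K.K70, Lib.H45K.K7, Lib.H45P.P7, Lib.H45K.K9, Lib.H45P.P13. -/

-- from Lib.CFT.N01
section

/-! # CFT module N (levels), N01: the absolute Galois group acts on the ring of all algebraic integers -/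

open NumberField IsDedekindDomain

namespace ST32

section

variable (K : Type) [Field K] (Om : Type) [Field Om] [Algebra K Om]

instance n01_smulcomm : SMulCommClass (Om ≃ₐ[K] Om) (𝓞 K) (𝓞 Om) where
  smul_comm g a x := by
    apply RingOfIntegers.ext
    show g ((a • x : 𝓞 Om) : Om) = ((a • (g • x) : 𝓞 Om) : Om)
    rw [Algebra.smul_def, Algebra.smul_def]
    show g (algebraMap K Om (a : K) * (x : Om)) = algebraMap K Om (a : K) * g (x : Om)
    rw [map_mul, AlgEquiv.commutes]

instance n01_inv [IsGalois K Om] : Algebra.IsInvariant (𝓞 K) (𝓞 Om) (Om ≃ₐ[K] Om) where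
  isInvariant x hx := by
    have h1 : (x : Om) ∈ Set.range (algebraMap K Om) := by
      rw [InfiniteGalois.mem_range_algebraMap_iff_fixed]
      intro g
      exact congrArg (fun y : 𝓞 Om => (y : Om)) (hx g)
    obtain ⟨a, ha⟩ := h1
    have h2 : IsIntegral ℤ a := by
      have h3 : IsIntegral ℤ (algebraMap K Om a) := by
        rw [ha]
        exact RingOfIntegers.isIntegral_coe x
      exact (isIntegral_algebraMap_iff (algebraMap K Om).injective).1 h3
    exact ⟨⟨a, h2⟩, RingOfIntegers.ext ha⟩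

theorem n01_cont [Algebra.IsIntegral K Om] [TopologicalSpace (𝓞 Om)] [DiscreteTopology (𝓞 Om)] :
    ContinuousSMul (Om ≃ₐ[K] Om) (𝓞 Om) := by
  rw [continuousSMul_iff_stabilizer_isOpen]
  intro x
  have h := stabilizer_isOpen_of_isIntegral (K := K) (L := Om) (x : Om)
  have e : (MulAction.stabilizer (Om ≃ₐ[K] Om) x : Set (Om ≃ₐ[K] Om)) = (MulAction.stabilizer (Om ≃ₐ[K] Om) (x : Om) : Set (Om ≃ₐ[K] Om)) := by
    ext g
    simp only [SetLike.mem_coe, MulAction.mem_stabilizer_iff]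
    constructor
    · intro h
      exact congrArg (fun y : 𝓞 Om => (y : Om)) h
    · intro h
      exact RingOfIntegers.ext h
  rw [e]
  exact h

/-- Transitivity on the primes above. -/
theorem exists_smul_eq [IsGalois K Om] (P Q : Ideal (𝓞 Om)) (hP : P.IsPrime) (hQ : Q.IsPrime)
    (h : P.comap (algebraMap (𝓞 K) (𝓞 Om)) = Q.comap (algebraMap (𝓞 K) (𝓞 Om))) :
    ∃ g : Om ≃ₐ[K] Om, ∀ x : 𝓞 Om, x ∈ P ↔ g • x ∈ Q := by
  let _ : TopologicalSpace (𝓞 Om) := ⊥
  have : DiscreteTopology (𝓞 Om) := ⟨rfl⟩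
  have := n01_cont K Om
  have := hP
  have := hQ
  obtain ⟨g, hg⟩ := Algebra.IsInvariant.exists_smul_of_under_eq_of_profinite (A := 𝓞 K) (G := Om ≃ₐ[K] Om) P Q h
  refine ⟨g, fun x => ?_⟩
  open scoped Pointwise in
  rw [hg, Ideal.smul_mem_pointwise_smul_iff]

/-- Every automorphism of the residue ring over the residue field of K is induced by an element of the decomposition group. -/
theorem exists_smul_of_aut [IsGalois K Om] (P : Ideal (𝓞 Om)) (hP : P.IsPrime) (p : Ideal (𝓞 K)) (hp : P.comap (algebraMap (𝓞 K) (𝓞 Om)) = p)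
    (f : (𝓞 Om ⧸ P) ≃+* (𝓞 Om ⧸ P))
    (hf : ∀ a : 𝓞 K, f (Ideal.Quotient.mk P (algebraMap (𝓞 K) (𝓞 Om) a)) = Ideal.Quotient.mk P (algebraMap (𝓞 K) (𝓞 Om) a)) :
    ∃ g : Om ≃ₐ[K] Om, ∀ x : 𝓞 Om, Ideal.Quotient.mk P (g • x) = f (Ideal.Quotient.mk P x) := by
  let _ : TopologicalSpace (𝓞 Om) := ⊥
  have : DiscreteTopology (𝓞 Om) := ⟨rfl⟩
  have := n01_cont K Om
  have := hP
  have : P.LiesOver p := ⟨hp.symm⟩
  let f' : (𝓞 Om ⧸ P) ≃ₐ[𝓞 K ⧸ p] (𝓞 Om ⧸ P) := AlgEquiv.ofRingEquiv (f := f) (by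
    intro a
    obtain ⟨a, rfl⟩ := Ideal.Quotient.mk_surjective a
    exact hf a)
  obtain ⟨g, hg⟩ := Ideal.Quotient.stabilizerHom_surjective_of_profinite (G := Om ≃ₐ[K] Om) p P f'
  refine ⟨g.1, fun x => ?_⟩
  have h1 := Ideal.Quotient.stabilizerHom_apply P p (Om ≃ₐ[K] Om) g x
  rw [hg] at h1
  exact h1.symm

end

end ST32
end

-- from Lib.CFT.N06
section

/-! # CFT module N, N06: algebraic numbers (pure): degrees of products, conjugates -/

set_option autoImplicit false

open Polynomial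

namespace ST32

section

variable {Ω : Type*} [Field Ω] [CharZero Ω]

/-- y is algebraic of degree at most B. -/
def DegLe (B : ℕ) (y : Ω) : Prop := IsIntegral ℚ y ∧ (minpoly ℚ y).natDegree ≤ B

open IntermediateField in
theorem degLe_of_mem {y : Ω} {L : IntermediateField ℚ Ω} [FiniteDimensional ℚ L] {B : ℕ} (hB : Module.finrank ℚ L ≤ B) (hy : y ∈ L) :
    DegLe B y := by
  have h1 : IsIntegral ℚ (⟨y, hy⟩ : L) := IsIntegral.of_finite ℚ _
  have h2 : IsIntegral ℚ y := h1.map L.val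
  refine ⟨h2, ?_⟩
  have h3 : minpoly ℚ y = minpoly ℚ (⟨y, hy⟩ : L) := minpoly.algHom_eq L.val L.val.injective (⟨y, hy⟩ : L)
  rw [h3]
  exact (minpoly.natDegree_le _).trans hB

open IntermediateField in
theorem DegLe.mul {A B : ℕ} {x y : Ω} (hx : DegLe A x) (hy : DegLe B y) : DegLe (A * B) (x * y) := by
  have hfx := adjoin.finiteDimensional hx.1
  have hfy := adjoin.finiteDimensional hy.1
  have h1 : Module.finrank ℚ ↥(ℚ⟮x⟯ ⊔ ℚ⟮y⟯) ≤ A * B := by
    refine (IntermediateField.finrank_sup_le ℚ⟮x⟯ ℚ⟮y⟯).trans ?_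
    rw [adjoin.finrank hx.1, adjoin.finrank hy.1]
    exact Nat.mul_le_mul hx.2 hy.2
  have h2 : x ∈ ℚ⟮x⟯ ⊔ ℚ⟮y⟯ := (le_sup_left : ℚ⟮x⟯ ≤ ℚ⟮x⟯ ⊔ ℚ⟮y⟯) (mem_adjoin_simple_self ℚ x)
  have h3 : y ∈ ℚ⟮x⟯ ⊔ ℚ⟮y⟯ := (le_sup_right : ℚ⟮y⟯ ≤ ℚ⟮x⟯ ⊔ ℚ⟮y⟯) (mem_adjoin_simple_self ℚ y)
  exact degLe_of_mem h1 (mul_mem h2 h3)

open IntermediateField in
theorem DegLe.pow {A : ℕ} {x : Ω} (hx : DegLe A x) (f : ℕ) : DegLe A (x ^ f) := by
  have hfx := adjoin.finiteDimensional hx.1
  refine degLe_of_mem (L := ℚ⟮x⟯) ?_ (pow_mem (mem_adjoin_simple_self ℚ x) f)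
  rw [adjoin.finrank hx.1]
  exact hx.2

open IntermediateField in
theorem DegLe.inv {A : ℕ} {x : Ω} (hx : DegLe A x) : DegLe A x⁻¹ := by
  have hfx := adjoin.finiteDimensional hx.1
  refine degLe_of_mem (L := ℚ⟮x⟯) ?_ (inv_mem (mem_adjoin_simple_self ℚ x))
  rw [adjoin.finrank hx.1]
  exact hx.2

theorem degLe_root {f : ℚ[X]} (hf : f ≠ 0) {x : Ω} (hx : aeval x f = 0) : DegLe f.natDegree x :=
  ⟨(show IsAlgebraic ℚ x from ⟨f, hf, hx⟩).isIntegral, natDegree_le_of_dvd (minpoly.dvd ℚ x hx) hf⟩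


theorem degLe_one : DegLe 1 (1 : Ω) := by
  refine ⟨isIntegral_one, ?_⟩
  rw [minpoly.one, ← C_1, natDegree_X_sub_C]

theorem DegLe.prod {ι : Type*} (s : Finset ι) {A : ℕ} (y : ι → Ω) (h : ∀ i ∈ s, DegLe A (y i)) : DegLe (A ^ s.card) (∏ i ∈ s, y i) := by
  classical
  induction s using Finset.induction_on with
  | empty =>
    rw [Finset.card_empty, pow_zero, Finset.prod_empty]
    exact degLe_one
  | insert i s hi ih =>
    rw [Finset.card_insert_of_notMem hi, Finset.prod_insert hi, pow_succ, mul_comm (A ^ _)]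
    exact (h i (Finset.mem_insert_self i s)).mul (ih fun k hk => h k (Finset.mem_insert_of_mem hk))


end

end ST32
end

-- from Lib.H59.PrimeIdealSums
section

/-!
# The Dedekind zeta function and sums over prime ideals of degree one

-/

open Set Module Filter Topology NumberField IsDedekindDomain
open scoped NNReal nonZeroDivisors ENNReal
open Ideal (absNorm)

noncomputable section

namespace Pool.Agent.Lib.H59

variable {K : Type*} [Field K] [NumberField K]

/-- The rational prime below a prime ideal. -/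
def below (P : HeightOneSpectrum (𝓞 K)) : ℕ := absNorm (Ideal.under ℤ P.asIdeal)

theorem below_prime (P : HeightOneSpectrum (𝓞 K)) : (below P).Prime := by
  have : NeZero P.asIdeal := ⟨P.ne_bot⟩
  exact Nat.absNorm_under_prime P.asIdeal

theorem liesOver_below (P : HeightOneSpectrum (𝓞 K)) :
    P.asIdeal.LiesOver (Ideal.span {((below P : ℕ) : ℤ)}) := by
  have := Int.liesOver_span_absNorm P.asIdeal
  exact this

theorem absNorm_eq_below_pow (P : HeightOneSpectrum (𝓞 K)) :
    ∃ f : ℕ, 1 ≤ f ∧ absNorm P.asIdeal = below P ^ f := by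
  have h1 := liesOver_below P
  refine ⟨_, ?_, Ideal.absNorm_eq_pow_inertiaDeg' (p := below P) P.asIdeal (below_prime P)⟩
  have : (Ideal.span {((below P : ℕ) : ℤ)}).IsMaximal := by
    have hp := (Nat.prime_iff_prime_int.mp (below_prime P))
    exact PrincipalIdealRing.isMaximal_of_irreducible hp.irreducible
  exact Ideal.inertiaDeg'_pos _ _


instance finite_heightOne_norm (n : ℕ) :
    Finite {P : HeightOneSpectrum (𝓞 K) // absNorm P.asIdeal = n} := by
  have h := Ideal.finite_setOfPred_absNorm_eq (S := 𝓞 K) n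
  have := h.to_subtype
  refine Finite.of_injective (β := {I : Ideal (𝓞 K) | absNorm I = n})
    (fun P => ⟨P.1.asIdeal, P.2⟩) ?_
  intro P Q hPQ
  have := congrArg Subtype.val hPQ
  exact Subtype.ext (HeightOneSpectrum.ext this)













end Pool.Agent.Lib.H59
end
end

-- from Lib.H25G.Defs
section

/-!
# H25G: definitions

Groups: ind (induced function), Gs (the subgroup generated by U and one element), Cst (constituents of a restriction).
Matrices: mM g = 1 + g + transpose of the inverse of g (block diagonal), tT a g its Kronecker power (matrix coefficients of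
tT a are the polynomials of degree at most a in the entries of g and of its inverse). rg f g: value of the regular function f, Zar A: Zariski
closure in GL_n. Galois side: IsFrP M P g: g is a Frobenius element at the prime P of M; GoodChar: the characters which occur.
-/

set_option autoImplicit false

open NumberField Module

namespace H25G

section grp

variable {Γ k : Type*} [Group Γ] [Field k]




/-- The invariants of the subgroup U. -/
def inv {W : Type*} [AddCommGroup W] [Module k W] (R : Γ →* Module.End k W) (U : Subgroup Γ) : Submodule k W where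
  carrier := {w | ∀ u ∈ U, R u w = w}
  zero_mem' := fun u _ => map_zero _
  add_mem' := fun {a b} ha hb u hu => by rw [map_add, ha u hu, hb u hu]
  smul_mem' := fun c w hw u hu => by rw [map_smul, hw u hu]

end grp

section mat

variable {k : Type*} [Field k] {n : ℕ}














end mat

section gal

/-- The algebraic closure of the rationals. -/
abbrev Om := AlgebraicClosure ℚ

/-- g is a Frobenius element at the prime P of M. -/
def IsFrP (M : IntermediateField ℚ Om) [NumberField M] (P : CFT.Pr M) (g : Gal(Om/ℚ)) : Prop :=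
  g ∈ M.fixingSubgroup ∧ ∃ Q : Ideal (𝓞 Om), Q.IsPrime ∧ Q.comap (algebraMap (𝓞 M) (𝓞 Om)) = P.asIdeal ∧
    ∀ x : 𝓞 Om, g • x - x ^ CFT.Nm P ∈ Q

variable {l : ℕ} [Fact l.Prime] {n : ℕ}





end gal

end H25G
end

-- from Lib.H25G.TwD
section

/-! # H25G: the translate of a prime -/

set_option autoImplicit false

open NumberField

namespace H25G

/-- The prime ideal {x : t x in Q}. -/
noncomputable def tw (Q : Ideal (𝓞 Om)) (t : Gal(Om/ℚ)) : Ideal (𝓞 Om) := Q.comap (MulSemiringAction.toRingHom Gal(Om/ℚ) (𝓞 Om) t)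


end H25G
end

-- from Lib.H84L.D0
section

/-!
# H84L (local algebraicity, client MP_32ceeb): definitions for the ultrametric part

`Ω` is an ultrametric field containing the rational numbers with `‖l‖ = 1/l`. `Sm r c f`: the
differences of order `j` of `f : ℤ → Ω` are bounded by `c * r ^ j`. Think of `r = l ^ (-k)`: `f` is
analytic on the disc of radius `1/r`.
-/

set_option autoImplicit false

namespace Pool.Agent.Lib.H84L

variable {Ω : Type} [NormedField Ω]

/-- The differences of order `j` are at most `c * r ^ j`. -/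
def Sm (r c : ℝ) (f : ℤ → Ω) : Prop := ∀ (j : ℕ) (z : ℤ), ‖((fwdDiff (1 : ℤ))^[j] f) z‖ ≤ c * r ^ j

/-- The same for `j ≤ J`. -/
def SmJ (r c : ℝ) (J : ℕ) (f : ℤ → Ω) : Prop :=
  ∀ j ≤ J, ∀ z : ℤ, ‖((fwdDiff (1 : ℤ))^[j] f) z‖ ≤ c * r ^ j

theorem sm_iff {r c : ℝ} {f : ℤ → Ω} : Sm r c f ↔ ∀ J, SmJ r c J f :=
  ⟨fun h _ j _ z => h j z, fun h j z => h j j le_rfl z⟩

end Pool.Agent.Lib.H84L
end

-- from Lib.H84L.N1
section

/-! # H84L chunk N1: Newton's interpolation formula, one variable -/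

set_option autoImplicit false

namespace Pool.Agent.Lib.H84L

variable {Ω : Type} [NormedField Ω] [IsUltrametricDist Ω]

theorem n1_neg (f : ℤ → Ω) (j : ℕ) (z : ℤ) :
    ((fwdDiff (1 : ℤ))^[j] (fun z => f (-z))) z = (-1) ^ j * ((fwdDiff (1 : ℤ))^[j] f) (-z - j) := by
  induction j generalizing z with
  | zero => simp
  | succ j ih =>
    rw [Function.iterate_succ_apply', Function.iterate_succ_apply']
    show ((fwdDiff (1 : ℤ))^[j] (fun z => f (-z))) (z + 1) - ((fwdDiff (1 : ℤ))^[j] (fun z => f (-z))) z =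
      (-1) ^ (j + 1) * (((fwdDiff (1 : ℤ))^[j] f) (-z - ((j + 1 : ℕ) : ℤ) + 1) - ((fwdDiff (1 : ℤ))^[j] f) (-z - ((j + 1 : ℕ) : ℤ)))
    rw [ih, ih]
    have h1 : -(z + 1) - (j : ℤ) = -z - ((j + 1 : ℕ) : ℤ) := by push_cast; ring
    have h2 : -z - ((j + 1 : ℕ) : ℤ) + 1 = -z - (j : ℤ) := by push_cast; ring
    rw [h1, h2]
    ring

/-- PROOF. By induction on `j` (or by `fwdDiff_iter_eq_sum_shift`): the `j`-th difference of `z ↦ f (-z)` at `z`
is `(-1) ^ j` times the `j`-th difference of `f` at `-z - j`. -/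
theorem Sm.neg_arg {r c : ℝ} {f : ℤ → Ω} (h : Sm r c f) : Sm r c (fun z => f (-z)) := by
  intro j z
  rw [n1_neg, norm_mul, norm_pow, norm_neg, norm_one, one_pow, one_mul]
  exact h j _

/-- PROOF. `f (a + n) = ∑ k ≤ n, C(n,k) (Δ^k f) a` (`shift_eq_sum_fwdDiff_iter`), `‖C(n,k)‖ ≤ 1`. For `k < t`:
`(Δ^k f) a` is an integral combination of the `f (a + i)`, `i ≤ k` (`fwdDiff_iter_eq_sum_shift`), so its
norm is at most `ε`; for `k ≥ t` its norm is at most `c r ^ k ≤ c r ^ t ≤ ε`. The norm of a finite sum is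
at most `ε` if all terms are (`IsUltrametricDist.norm_sum_le_of_forall_le_of_nonneg`). -/
theorem newton_ge {r c ε : ℝ} (hr : 0 ≤ r) (hr1 : r ≤ 1) (hc : 0 ≤ c) (hε : 0 ≤ ε) {f : ℤ → Ω}
    (hf : Sm r c f) (a : ℤ) (t : ℕ) (ht : c * r ^ t ≤ ε) (h : ∀ i : ℕ, i < t → ‖f (a + i)‖ ≤ ε)
    (n : ℕ) : ‖f (a + n)‖ ≤ ε := by
  have h1 := shift_eq_sum_fwdDiff_iter (1 : ℤ) f n a
  rw [nsmul_eq_mul, mul_one] at h1
  rw [h1]
  refine IsUltrametricDist.norm_sum_le_of_forall_le_of_nonneg hε fun k _ => ?_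
  rw [nsmul_eq_mul, norm_mul]
  have h2 : ‖((n.choose k : ℕ) : Ω)‖ ≤ 1 := IsUltrametricDist.norm_natCast_le_one Ω _
  have h3 : ‖((fwdDiff (1 : ℤ))^[k] f) a‖ ≤ ε := by
    rcases lt_or_ge k t with hk | hk
    · rw [fwdDiff_iter_eq_sum_shift]
      refine IsUltrametricDist.norm_sum_le_of_forall_le_of_nonneg hε fun i hi => ?_
      rw [zsmul_eq_mul, norm_mul]
      have h4 : ‖((((-1 : ℤ) ^ (k - i) * (k.choose i : ℤ)) : ℤ) : Ω)‖ ≤ 1 := IsUltrametricDist.norm_intCast_le_one Ω _
      have h5 : ‖f (a + i • (1 : ℤ))‖ ≤ ε := by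
        rw [nsmul_eq_mul, mul_one]
        exact h i (by have := Finset.mem_range.1 hi; omega)
      calc _ ≤ 1 * ε := mul_le_mul h4 h5 (norm_nonneg _) zero_le_one
        _ = ε := one_mul ε
    · refine (hf k a).trans (le_trans ?_ ht)
      exact mul_le_mul_of_nonneg_left (pow_le_pow_of_le_one hr hr1 hk) hc
  calc _ ≤ 1 * ε := mul_le_mul h2 h3 (norm_nonneg _) zero_le_one
    _ = ε := one_mul ε

/-- PROOF. If `z = a + n` with `n ≥ 0` use `newton_ge`. Otherwise apply `newton_ge` to `g w = f (-w)`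
(`Sm.neg_arg`) with the starting point `-(a + t - 1)` instead of `a`:
`g (-(a + t - 1) + i) = f (a + (t - 1 - i))`. If `t = 0` use `newton_ge` with `a := z`, `n := 0`. -/
theorem newton {r c ε : ℝ} (hr : 0 ≤ r) (hr1 : r ≤ 1) (hc : 0 ≤ c) (hε : 0 ≤ ε) {f : ℤ → Ω}
    (hf : Sm r c f) (a : ℤ) (t : ℕ) (ht : c * r ^ t ≤ ε) (h : ∀ i : ℕ, i < t → ‖f (a + i)‖ ≤ ε)
    (z : ℤ) : ‖f z‖ ≤ ε := by
  rcases Nat.eq_zero_or_pos t with rfl | htp
  · have h1 := newton_ge hr hr1 hc hε hf z 0 ht (fun i hi => absurd hi (by omega)) 0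
    simpa using h1
  · rcases le_or_gt a z with haz | haz
    · have h1 := newton_ge hr hr1 hc hε hf a t ht h (z - a).toNat
      have h2 : a + ((z - a).toNat : ℤ) = z := by
        rw [Int.toNat_of_nonneg (by omega)]
        ring
      rwa [h2] at h1
    · have h1 := newton_ge hr hr1 hc hε hf.neg_arg (-(a + t - 1)) t ht (fun i hi => by
        have h3 : -(-(a + (t : ℤ) - 1) + (i : ℤ)) = a + ((t - 1 - i : ℕ) : ℤ) := by
          have : ((t - 1 - i : ℕ) : ℤ) = (t : ℤ) - 1 - i := by omega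
          rw [this]
          ring
        rw [h3]
        exact h _ (by omega)) (-z + (a + t - 1)).toNat
      have h2 : -(-(a + (t : ℤ) - 1) + ((-z + (a + t - 1)).toNat : ℤ)) = z := by
        rw [Int.toNat_of_nonneg (by omega)]
        ring
      rwa [h2] at h1

end Pool.Agent.Lib.H84L
end

-- from Lib.H84L.U1
section

/-! # H84L chunk U1: products of smooth functions -/

set_option autoImplicit false

namespace Pool.Agent.Lib.H84L

variable {Ω : Type} [NormedField Ω] [IsUltrametricDist Ω]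

/-- PROOF. The iterated difference of the shifted function is the shifted iterated difference. -/
theorem SmJ.shift {r c : ℝ} {J : ℕ} {f : ℤ → Ω} (h : SmJ r c J f) (a : ℤ) :
    SmJ r c J (fun z => f (z + a)) := by
  intro j hj z
  have key : ∀ (j : ℕ) (f : ℤ → Ω) (z : ℤ),
      ((fwdDiff (1 : ℤ))^[j] (fun z => f (z + a))) z = ((fwdDiff (1 : ℤ))^[j] f) (z + a) := by
    intro j
    induction j with
    | zero => intro f z; rfl
    | succ j ih =>
      intro f z
      rw [Function.iterate_succ_apply, Function.iterate_succ_apply, ← ih]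
      have e : fwdDiff (1 : ℤ) (fun z => f (z + a)) = fun z => (fwdDiff (1 : ℤ) f) (z + a) := by
        funext w
        simp only [fwdDiff]
        rw [add_right_comm]
      rw [e]
  rw [key]
  exact h j hj _

theorem SmJ.add {r c : ℝ} {J : ℕ} {f g : ℤ → Ω} (hf : SmJ r c J f) (hg : SmJ r c J g) :
    SmJ r c J (fun z => f z + g z) := by
  intro j hj z
  have e : (fun z => f z + g z) = f + g := rfl
  rw [e, fwdDiff_iter_add, Pi.add_apply]
  exact (IsUltrametricDist.norm_add_le_max _ _).trans (max_le (hf j hj z) (hg j hj z))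

/-- PROOF. Induction on `J`, for all `f, g, c, c'`. `J = 0`: norms multiply. Step: for `h = f g`:
`h (z + 1) - h z = (Δ f) z * g (z + 1) + f z * (Δ g) z`; `Δ f` is `SmJ r (c r) J`, `Δ g` is
`SmJ r (c' r) J`, `g (· + 1)` is `SmJ r c' (J + 1)` (`SmJ.shift`). By induction (and `SmJ.add`) `Δ h` is
`SmJ r (c c' r) J`; so `h` is `SmJ r (c c') (J + 1)` (`Function.iterate_succ_apply`). -/
theorem SmJ.mul {r c c' : ℝ} (hr : 0 ≤ r) (hc : 0 ≤ c) (hc' : 0 ≤ c') {J : ℕ} {f g : ℤ → Ω}
    (hf : SmJ r c J f) (hg : SmJ r c' J g) : SmJ r (c * c') J (fun z => f z * g z) := by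
  induction J generalizing f g c c' with
  | zero =>
    intro j hj z
    obtain rfl : j = 0 := by omega
    have h1 := hf 0 le_rfl z
    have h2 := hg 0 le_rfl z
    simp only [Function.iterate_zero, id_eq, pow_zero, mul_one] at h1 h2 ⊢
    rw [norm_mul]
    exact mul_le_mul h1 h2 (norm_nonneg _) hc
  | succ J ih =>
    have step : ∀ {c : ℝ} {f : ℤ → Ω}, SmJ r c (J + 1) f → SmJ r (c * r) J (fwdDiff (1 : ℤ) f) := by
      intro c f h j hj z
      have h1 := h (j + 1) (by omega) z
      rw [Function.iterate_succ_apply] at h1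
      calc _ ≤ _ := h1
        _ = _ := by ring
    have mono : ∀ {c : ℝ} {f : ℤ → Ω}, SmJ r c (J + 1) f → SmJ r c J f :=
      fun h j hj z => h j (by omega) z
    have hd : SmJ r (c * c' * r) J (fwdDiff (1 : ℤ) (fun z => f z * g z)) := by
      have h1 := ih (mul_nonneg hc hr) hc' (step hf) (mono (hg.shift 1))
      have h2 := ih hc (mul_nonneg hc' hr) (mono hf) (step hg)
      have e1 : c * r * c' = c * c' * r := by ring
      have e2 : c * (c' * r) = c * c' * r := by ring
      rw [e1] at h1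
      rw [e2] at h2
      have h3 := h1.add h2
      have e3 : fwdDiff (1 : ℤ) (fun z => f z * g z) =
          fun z => (fwdDiff (1 : ℤ) f z) * g (z + 1) + f z * (fwdDiff (1 : ℤ) g) z := by
        funext z
        simp only [fwdDiff]
        ring
      rw [e3]
      exact h3
    intro j hj z
    rcases j with _ | j
    · have h1 := hf 0 (Nat.zero_le _) z
      have h2 := hg 0 (Nat.zero_le _) z
      simp only [Function.iterate_zero, id_eq, pow_zero, mul_one] at h1 h2 ⊢
      rw [norm_mul]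
      exact mul_le_mul h1 h2 (norm_nonneg _) hc
    · have h1 := hd j (by omega) z
      rw [Function.iterate_succ_apply]
      calc _ ≤ _ := h1
        _ = _ := by ring

end Pool.Agent.Lib.H84L
end

-- from Lib.H84L.U2
section

/-! # H84L chunk U2: constants, sums, products, linear functions -/

set_option autoImplicit false

namespace Pool.Agent.Lib.H84L

variable {Ω : Type} [NormedField Ω] [IsUltrametricDist Ω]

omit [IsUltrametricDist Ω] in
theorem u2_const (a : Ω) (j : ℕ) : (fwdDiff (1 : ℤ))^[j + 1] (fun _ : ℤ => a) = fun _ => 0 := by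
  induction j with
  | zero =>
    funext z
    show fwdDiff (1 : ℤ) (fun _ : ℤ => a) z = 0
    simp only [fwdDiff, sub_self]
  | succ j ih =>
    rw [Function.iterate_succ_apply', ih]
    funext z
    simp only [fwdDiff, sub_self]

theorem u2_int (z : ℤ) : ‖(z : Ω)‖ ≤ 1 := IsUltrametricDist.norm_intCast_le_one Ω z

omit [IsUltrametricDist Ω] in
theorem u2_lin (a b : Ω) : fwdDiff (1 : ℤ) (fun z : ℤ => a + z * b) = fun _ => b := by
  funext z
  simp only [fwdDiff]
  push_cast
  ring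


/-- PROOF. The first difference is the constant `b`, the higher ones are 0. -/
theorem Sm.lin {r : ℝ} (hr : 0 ≤ r) (hr1 : r ≤ 1) {a b : Ω} (ha : ‖a‖ ≤ 1) (hb : ‖b‖ ≤ r) :
    Sm r 1 (fun z : ℤ => a + z * b) := by
  intro j z
  rcases j with _ | _ | j
  · simp only [Function.iterate_zero, id_eq, pow_zero, mul_one]
    refine (IsUltrametricDist.norm_add_le_max _ _).trans (max_le ha ?_)
    rw [norm_mul]
    calc ‖(z : Ω)‖ * ‖b‖ ≤ 1 * 1 := mul_le_mul (u2_int z) (hb.trans hr1) (norm_nonneg _) zero_le_one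
      _ = 1 := one_mul 1
  · rw [zero_add, Function.iterate_one, u2_lin, pow_one, one_mul]
    exact hb
  · rw [Function.iterate_succ_apply, u2_lin, u2_const, norm_zero]
    positivity

theorem Sm.mul {r : ℝ} (hr : 0 ≤ r) {f g : ℤ → Ω} (hf : Sm r 1 f) (hg : Sm r 1 g) :
    Sm r 1 (fun z => f z * g z) := by
  rw [sm_iff] at hf hg ⊢
  intro J
  have h := (hf J).mul hr zero_le_one zero_le_one (hg J)
  rwa [mul_one] at h




end Pool.Agent.Lib.H84L
end

-- from Lib.H84L.S0
section

/-!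
# H84L: algebraic integers with bounded degree and bounded conjugates

`Bd B Q w`: `w` is an algebraic integer of degree at most `B`, and its complex conjugates (the complex roots of its
minimal polynomial) have absolute value at most `Q`.
-/

set_option autoImplicit false

namespace Pool.Agent.Lib.H84L

open Polynomial

/-- An algebraic integer of degree at most `B` whose complex conjugates have absolute value at most `Q`. -/
def Bd {Ω : Type} [Field Ω] (B : ℕ) (Q : ℝ) (w : Ω) : Prop :=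
  IsIntegral ℤ w ∧ (minpoly ℤ w).natDegree ≤ B ∧ ∀ z : ℂ, aeval z (minpoly ℤ w) = 0 → ‖z‖ ≤ Q


end Pool.Agent.Lib.H84L
end

-- from Lib.H84L.S1
section

/-! # H84L chunk S1: `Bd` through embeddings of a finite extension of `ℚ` -/

set_option autoImplicit false

namespace Pool.Agent.Lib.H84L

open Polynomial

variable {Ω : Type} [Field Ω] [CharZero Ω]

/-- PROOF. Let `g = minpoly ℤ (y : Ω)`. `ℤ` is integrally closed, so `g.map (algebraMap ℤ ℚ) = minpoly ℚ (y : Ω)
= minpoly ℚ y` (`minpoly.isIntegrallyClosed_eq_field_fractions'`, `IntermediateField.minpoly_eq` or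
`minpoly.algebraMap_eq`). Degree: `minpoly.natDegree_le`. A complex root `z` of `g` is a root of `minpoly ℚ y`, so
`z = φ y` for some `φ : E →ₐ[ℚ] ℂ` (`Algebra.IsAlgebraic.range_eval_eq_rootSet_minpoly`). -/
theorem Bd.of_field (E : IntermediateField ℚ Ω) [FiniteDimensional ℚ E] {B : ℕ} {Q : ℝ} (hE : Module.finrank ℚ E ≤ B)
    (y : E) (hy : IsIntegral ℤ (y : Ω)) (h : ∀ φ : E →ₐ[ℚ] ℂ, ‖φ y‖ ≤ Q) : Bd B Q (y : Ω) := by
  have hmap : (minpoly ℤ (y : Ω)).map (algebraMap ℤ ℚ) = minpoly ℚ y := by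
    rw [← minpoly.isIntegrallyClosed_eq_field_fractions' ℚ hy]
    exact minpoly.algebraMap_eq (algebraMap E Ω).injective y
  refine ⟨hy, ?_, ?_⟩
  · have h1 : (minpoly ℤ (y : Ω)).natDegree = (minpoly ℚ y).natDegree := by
      rw [← hmap]
      exact ((minpoly.monic hy).natDegree_map _).symm
    rw [h1]
    exact (minpoly.natDegree_le y).trans hE
  · intro z hz
    have h2 : aeval z (minpoly ℚ y) = 0 := by
      rw [← hmap, aeval_map_algebraMap]
      exact hz
    have h3 : z ∈ (minpoly ℚ y).rootSet ℂ := by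
      rw [mem_rootSet]
      exact ⟨minpoly.ne_zero (Algebra.IsIntegral.isIntegral y), h2⟩
    rw [← Algebra.IsAlgebraic.range_eval_eq_rootSet_minpoly (F := ℚ) (K := E) ℂ y] at h3
    obtain ⟨φ, hφ⟩ := h3
    rw [← hφ]
    exact h φ

/-- PROOF. `φ y` is a root of `minpoly ℤ (y : Ω)`: `aeval y (minpoly ℤ (y : Ω)) = 0` holds in `E` (the inclusion
`E → Ω` is injective), apply `φ`. -/
theorem Bd.norm_le {E : IntermediateField ℚ Ω} {B : ℕ} {Q : ℝ} {y : E} (h : Bd B Q (y : Ω)) (φ : E →ₐ[ℚ] ℂ) :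
    ‖φ y‖ ≤ Q := by
  apply h.2.2
  have h1 : aeval y (minpoly ℤ (y : Ω)) = 0 := by
    have h2 : (algebraMap E Ω) (aeval y (minpoly ℤ (y : Ω))) = 0 := by
      rw [← aeval_algebraMap_apply]
      exact minpoly.aeval ℤ (y : Ω)
    exact (map_eq_zero_iff _ (algebraMap E Ω).injective).mp h2
  have h3 : aeval (φ y) (minpoly ℤ (y : Ω)) = φ (aeval y (minpoly ℤ (y : Ω))) := by
    exact aeval_algHom_apply (φ.restrictScalars ℤ) y (minpoly ℤ (y : Ω))
  rw [h3, h1, map_zero]



end Pool.Agent.Lib.H84L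
end

-- from Lib.H84L.S2
section

/-! # H84L chunk S2: sums, powers and products of algebraic integers -/

set_option autoImplicit false

namespace Pool.Agent.Lib.H84L

open Polynomial

variable {Ω : Type} [Field Ω] [CharZero Ω]

/-- The degree over `ℚ` of the field generated by `w`. -/
theorem s2_finrank {B : ℕ} {Q : ℝ} {w : Ω} (h : Bd B Q w) :
    FiniteDimensional ℚ (IntermediateField.adjoin ℚ {w}) ∧ Module.finrank ℚ (IntermediateField.adjoin ℚ {w}) ≤ B := by
  have hi : IsIntegral ℚ w := h.1.tower_top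
  refine ⟨IntermediateField.adjoin.finiteDimensional hi, ?_⟩
  rw [IntermediateField.adjoin.finrank hi, minpoly.isIntegrallyClosed_eq_field_fractions' ℚ h.1,
    (minpoly.monic h.1).natDegree_map]
  exact h.2.1

/-- PROOF. `Bd.of_field` with `E = ℚ(w)` (`IntermediateField.adjoin ℚ {w}`): finite dimensional because `w` is integral over `ℚ`,
`finrank = natDegree (minpoly ℚ w) = natDegree (minpoly ℤ w) ≤ B` (`IntermediateField.adjoin.finrank`). For an
embedding `φ`: `‖φ (∑ R b w ^ b)‖ ≤ ∑ |R b| ‖φ w‖ ^ b ≤ ∑ |R b| Q ^ b` (`Bd.norm_le`). -/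
theorem Bd.lin {B : ℕ} {Q : ℝ} {w : Ω} (h : Bd B Q w) {L : ℕ} (R : Fin L → ℤ) :
    Bd B (∑ b : Fin L, |(R b : ℝ)| * Q ^ (b : ℕ)) (∑ b : Fin L, (R b : Ω) * w ^ (b : ℕ)) := by
  obtain ⟨hfd, hfr⟩ := s2_finrank h
  set E := IntermediateField.adjoin ℚ {w} with hE
  have hw : w ∈ E := IntermediateField.mem_adjoin_simple_self ℚ w
  have h1 : (∑ b : Fin L, (R b : Ω) * w ^ (b : ℕ)) =
      ((∑ b : Fin L, (R b : E) * (⟨w, hw⟩ : E) ^ (b : ℕ) : E) : Ω) := by
    push_cast
    rfl
  rw [h1]
  refine Bd.of_field E hfr _ ?_ fun φ => ?_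
  · rw [← h1]
    refine IsIntegral.sum _ fun b _ => ?_
    refine IsIntegral.mul ?_ (h.1.pow _)
    have := isIntegral_algebraMap (R := ℤ) (A := Ω) (x := R b)
    simpa using this
  · rw [map_sum]
    refine (norm_sum_le _ _).trans (Finset.sum_le_sum fun b _ => ?_)
    rw [map_mul, map_pow, norm_mul, norm_pow]
    have h2 : ‖φ (R b : E)‖ = |(R b : ℝ)| := by
      rw [map_intCast]
      exact Complex.norm_intCast _
    rw [h2]
    exact mul_le_mul_of_nonneg_left (pow_le_pow_left₀ (norm_nonneg _) (Bd.norm_le (y := ⟨w, hw⟩) h φ) _) (abs_nonneg _)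


/-- The bound for the conjugates is not negative. -/
theorem s2_nonneg {B : ℕ} {Q : ℝ} {w : Ω} (h : Bd B Q w) : 0 ≤ Q := by
  have hd : 0 < ((minpoly ℤ w).map (algebraMap ℤ ℂ)).degree := by
    rw [(minpoly.monic h.1).degree_map]
    exact minpoly.degree_pos h.1
  obtain ⟨z, hz⟩ := Complex.exists_root hd
  have h1 : aeval z (minpoly ℤ w) = 0 := by
    rw [IsRoot.def, eval_map_algebraMap] at hz
    exact hz
  exact (norm_nonneg z).trans (h.2.2 z h1)

/-- PROOF. `E = ℚ(w) ⊔ ℚ(w')`, `IntermediateField.finrank_sup_le`. -/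
theorem Bd.mul {B B' : ℕ} {Q Q' : ℝ} {w w' : Ω} (h : Bd B Q w) (h' : Bd B' Q' w') :
    Bd (B * B') (Q * Q') (w * w') := by
  obtain ⟨hfd, hfr⟩ := s2_finrank h
  obtain ⟨hfd', hfr'⟩ := s2_finrank h'
  set E := IntermediateField.adjoin ℚ {w} with hE
  set E' := IntermediateField.adjoin ℚ {w'} with hE'
  have hw : w ∈ E ⊔ E' := (le_sup_left : E ≤ E ⊔ E') (IntermediateField.mem_adjoin_simple_self ℚ w)
  have hw' : w' ∈ E ⊔ E' := (le_sup_right : E' ≤ E ⊔ E') (IntermediateField.mem_adjoin_simple_self ℚ w')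
  have h1 : w * w' = (((⟨w, hw⟩ : (E ⊔ E' : IntermediateField ℚ Ω)) * ⟨w', hw'⟩ : (E ⊔ E' : IntermediateField ℚ Ω)) : Ω) := rfl
  rw [h1]
  refine Bd.of_field (E ⊔ E') ((IntermediateField.finrank_sup_le E E').trans (Nat.mul_le_mul hfr hfr')) _ ?_ fun φ => ?_
  · rw [← h1]
    exact h.1.mul h'.1
  · rw [map_mul, norm_mul]
    exact mul_le_mul (Bd.norm_le (y := ⟨w, hw⟩) h φ) (Bd.norm_le (y := ⟨w', hw'⟩) h' φ) (norm_nonneg _) (s2_nonneg h)


end Pool.Agent.Lib.H84L
end

-- from Lib.H45K.K1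
section

/-! # H45K, K1: for odd `l` the subgroup generated by the squares in the image of a compact group in `GL_n(ℚ_l)` is open

If all entries of `ρ g - 1` are divisible by `l` then `ρ g` is the square of an element of the image: `(ρ g) ^ (l ^ k)` converges to 1 and a limit
point `h` of `g ^ ((l ^ k + 1) / 2)` satisfies `ρ h ^ 2 = ρ g`. -/

set_option autoImplicit false
set_option linter.unusedSectionVars false

namespace H45K

open Filter Topology

theorem pow_step {R : Type*} [Ring R] {l : ℕ} (hl : l.Prime) (k : ℕ) (X : R) :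
    ∃ Y : R, (1 + (l : R) ^ (k + 1) * X) ^ l = 1 + (l : R) ^ (k + 2) * Y := by
  have hcl : ∀ z : R, Commute (l : R) z := fun z => Nat.cast_commute l z
  obtain ⟨r, hr⟩ := Commute.exists_add_pow_prime_eq hl (Commute.one_left ((l : R) ^ (k + 1) * X))
  have h2 : (k + 1) * l = (k + 2) + ((k + 1) * l - (k + 2)) := by
    have : k + 2 ≤ (k + 1) * l := by nlinarith [hl.two_le]
    omega
  have h3 : ((l : R) ^ (k + 1) * X) ^ l = (l : R) ^ (k + 2) * ((l : R) ^ ((k + 1) * l - (k + 2)) * X ^ l) := by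
    rw [((hcl X).pow_left (k + 1)).mul_pow, ← pow_mul, ← mul_assoc, ← pow_add, ← h2]
  refine ⟨(l : R) ^ ((k + 1) * l - (k + 2)) * X ^ l + X * r, ?_⟩
  rw [hr, one_pow, h3, mul_one, mul_add, ← add_assoc]
  congr 1
  rw [pow_succ' (l : R) (k + 1)]
  simp only [mul_assoc]

theorem pow_form {R : Type*} [Ring R] {l : ℕ} (hl : l.Prime) (X : R) (k : ℕ) :
    ∃ Y : R, (1 + (l : R) * X) ^ (l ^ k) = 1 + (l : R) ^ (k + 1) * Y := by
  induction k with
  | zero => exact ⟨X, by rw [pow_zero, pow_one, zero_add, pow_one]⟩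
  | succ k ih =>
    obtain ⟨Y, hY⟩ := ih
    obtain ⟨Z, hZ⟩ := pow_step hl k Y
    exact ⟨Z, by rw [pow_succ, pow_mul, hY, hZ]⟩

section

variable {l : ℕ} [hlp : Fact l.Prime] {ι : Type*} [Fintype ι] [DecidableEq ι]

theorem tendsto_one (A : Matrix ι ι ℚ_[l]) (hA : ∀ i j, ‖(A - 1) i j‖ < 1) : Tendsto (fun k : ℕ => A ^ (l ^ k)) atTop (𝓝 1) := by
  have h1 : ∀ i j, ∃ z : ℤ_[l], (A - 1) i j = (l : ℚ_[l]) * (z : ℚ_[l]) := by
    intro i j
    obtain ⟨a, ha⟩ : ∃ a : ℤ_[l], (a : ℚ_[l]) = (A - 1) i j := ⟨⟨(A - 1) i j, (hA i j).le⟩, rfl⟩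
    have h2 : ‖a‖ < 1 := by
      rw [PadicInt.norm_def, ha]
      exact hA i j
    rw [PadicInt.norm_lt_one_iff_dvd] at h2
    obtain ⟨z, hz⟩ := h2
    refine ⟨z, ?_⟩
    rw [← ha, hz, PadicInt.coe_mul, PadicInt.coe_natCast]
  choose X hX using h1
  let f : Matrix ι ι ℤ_[l] →+* Matrix ι ι ℚ_[l] := (PadicInt.Coe.ringHom (p := l)).mapMatrix
  have hA' : A = f (1 + (l : Matrix ι ι ℤ_[l]) * Matrix.of X) := by
    rw [map_add, map_one, map_mul, map_natCast, ← sub_eq_iff_eq_add']
    ext i j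
    have h2 : ((l : Matrix ι ι ℚ_[l]) * f (Matrix.of X)) i j = (l : ℚ_[l]) * f (Matrix.of X) i j := by
      rw [← nsmul_eq_mul, Matrix.smul_apply, nsmul_eq_mul]
    rw [h2, hX i j]
    rfl
  refine tendsto_pi_nhds.2 fun i => tendsto_pi_nhds.2 fun j => ?_
  have h4 : ∀ k : ℕ, ‖(A ^ (l ^ k)) i j - (1 : Matrix ι ι ℚ_[l]) i j‖ ≤ ((l : ℝ)⁻¹) ^ (k + 1) := by
    intro k
    obtain ⟨Y, hY⟩ := pow_form hlp.out (Matrix.of X : Matrix ι ι ℤ_[l]) k
    rw [hA', ← map_pow, hY, map_add, map_one, map_mul, map_pow, map_natCast]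
    have h5 : ((1 : Matrix ι ι ℚ_[l]) + (l : Matrix ι ι ℚ_[l]) ^ (k + 1) * f Y) i j - (1 : Matrix ι ι ℚ_[l]) i j = (l : ℚ_[l]) ^ (k + 1) * ((Y i j : ℤ_[l]) : ℚ_[l]) := by
      rw [Matrix.add_apply, add_sub_cancel_left, ← Nat.cast_pow, ← nsmul_eq_mul, Matrix.smul_apply, nsmul_eq_mul, Nat.cast_pow]
      rfl
    rw [h5, norm_mul, norm_pow, Padic.norm_p]
    exact mul_le_of_le_one_right (by positivity) (PadicInt.norm_le_one _)
  rw [tendsto_iff_norm_sub_tendsto_zero]
  refine squeeze_zero (fun _ => norm_nonneg _) h4 ?_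
  have h6 : Tendsto (fun k : ℕ => ((l : ℝ)⁻¹) ^ k) atTop (𝓝 0) := by
    refine tendsto_pow_atTop_nhds_zero_of_lt_one (by positivity) ?_
    exact inv_lt_one_of_one_lt₀ (by exact_mod_cast hlp.out.one_lt)
  exact (tendsto_add_atTop_iff_nat 1).2 h6

variable {G : Type*} [Group G] [TopologicalSpace G] [IsTopologicalGroup G] [CompactSpace G]



end


end H45K
end

-- from Lib.H45K.K70
section

/-! # H45K: rational valued valuations, elementary facts

`NN v x`: `x = 0` or `0 ≤ v x`. `PV v x`: `x = 0` or `0 < v x`. -/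

set_option autoImplicit false

namespace H45K

/-- `v` is a valuation with values in `ℚ` (its value at `0` is not used). -/
structure IsV {K : Type*} [Field K] (v : K → ℚ) : Prop where
  mul : ∀ x y : K, x ≠ 0 → y ≠ 0 → v (x * y) = v x + v y
  add : ∀ x y : K, x ≠ 0 → y ≠ 0 → x + y ≠ 0 → min (v x) (v y) ≤ v (x + y)

section

variable {K : Type*} [Field K] {v : K → ℚ}

/-- Integral. -/
def NN (v : K → ℚ) (x : K) : Prop := x = 0 ∨ 0 ≤ v x

/-- In the maximal ideal. -/
def PV (v : K → ℚ) (x : K) : Prop := x = 0 ∨ 0 < v x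

theorem PV.nn {x : K} (h : PV v x) : NN v x := h.imp id le_of_lt

theorem IsV.one (hv : IsV v) : v 1 = 0 := by
  have h := hv.mul 1 1 one_ne_zero one_ne_zero
  rw [mul_one] at h
  linarith

theorem IsV.neg_one (hv : IsV v) : v (-1) = 0 := by
  have h := hv.mul (-1) (-1) (neg_ne_zero.2 one_ne_zero) (neg_ne_zero.2 one_ne_zero)
  rw [neg_mul_neg, mul_one, hv.one] at h
  linarith

theorem IsV.neg (hv : IsV v) {x : K} (hx : x ≠ 0) : v (-x) = v x := by
  have h := hv.mul (-1) x (neg_ne_zero.2 one_ne_zero) hx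
  rw [neg_one_mul, hv.neg_one, zero_add] at h
  exact h

theorem IsV.inv (hv : IsV v) {x : K} (hx : x ≠ 0) : v x⁻¹ = -v x := by
  have h := hv.mul x x⁻¹ hx (inv_ne_zero hx)
  rw [mul_inv_cancel₀ hx, hv.one] at h
  linarith

theorem IsV.div (hv : IsV v) {x y : K} (hx : x ≠ 0) (hy : y ≠ 0) : v (x / y) = v x - v y := by
  rw [div_eq_mul_inv, hv.mul x y⁻¹ hx (inv_ne_zero hy), hv.inv hy]
  ring

theorem IsV.pow (hv : IsV v) {x : K} (hx : x ≠ 0) (n : ℕ) : v (x ^ n) = n * v x := by
  induction n with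
  | zero => rw [pow_zero, hv.one, Nat.cast_zero, zero_mul]
  | succ n ih =>
    rw [pow_succ, hv.mul _ _ (pow_ne_zero n hx) hx, ih]
    push_cast
    ring

theorem nn_zero : NN v (0 : K) := Or.inl rfl

theorem pv_zero : PV v (0 : K) := Or.inl rfl

theorem IsV.nn_one (hv : IsV v) : NN v (1 : K) := Or.inr hv.one.ge

theorem IsV.nn_neg (hv : IsV v) {x : K} (h : NN v x) : NN v (-x) := by
  by_cases hx : x = 0
  · rw [hx, neg_zero]
    exact nn_zero
  · exact Or.inr (by rw [hv.neg hx]; exact h.resolve_left hx)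

theorem IsV.pv_neg (hv : IsV v) {x : K} (h : PV v x) : PV v (-x) := by
  by_cases hx : x = 0
  · rw [hx, neg_zero]
    exact pv_zero
  · exact Or.inr (by rw [hv.neg hx]; exact h.resolve_left hx)

theorem IsV.nn_add (hv : IsV v) {x y : K} (hx : NN v x) (hy : NN v y) : NN v (x + y) := by
  by_cases hx0 : x = 0
  · rw [hx0, zero_add]
    exact hy
  by_cases hy0 : y = 0
  · rw [hy0, add_zero]
    exact hx
  by_cases hxy : x + y = 0
  · exact Or.inl hxy
  · exact Or.inr ((le_min (hx.resolve_left hx0) (hy.resolve_left hy0)).trans (hv.add x y hx0 hy0 hxy))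

theorem IsV.pv_add (hv : IsV v) {x y : K} (hx : PV v x) (hy : PV v y) : PV v (x + y) := by
  by_cases hx0 : x = 0
  · rw [hx0, zero_add]
    exact hy
  by_cases hy0 : y = 0
  · rw [hy0, add_zero]
    exact hx
  by_cases hxy : x + y = 0
  · exact Or.inl hxy
  · exact Or.inr ((lt_min (hx.resolve_left hx0) (hy.resolve_left hy0)).trans_le (hv.add x y hx0 hy0 hxy))

theorem IsV.nn_mul (hv : IsV v) {x y : K} (hx : NN v x) (hy : NN v y) : NN v (x * y) := by
  by_cases hx0 : x = 0
  · exact Or.inl (by rw [hx0, zero_mul])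
  by_cases hy0 : y = 0
  · exact Or.inl (by rw [hy0, mul_zero])
  exact Or.inr (by rw [hv.mul x y hx0 hy0]; exact add_nonneg (hx.resolve_left hx0) (hy.resolve_left hy0))

theorem IsV.pv_mul (hv : IsV v) {x y : K} (hx : PV v x) (hy : NN v y) : PV v (x * y) := by
  by_cases hx0 : x = 0
  · exact Or.inl (by rw [hx0, zero_mul])
  by_cases hy0 : y = 0
  · exact Or.inl (by rw [hy0, mul_zero])
  exact Or.inr (by rw [hv.mul x y hx0 hy0]; exact add_pos_of_pos_of_nonneg (hx.resolve_left hx0) (hy.resolve_left hy0))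

theorem IsV.not_pv_one (hv : IsV v) : ¬ PV v (1 : K) := by
  rintro (h | h)
  · exact one_ne_zero h
  · rw [hv.one] at h
    exact lt_irrefl _ h

theorem IsV.nn_sum (hv : IsV v) {ι : Type*} (s : Finset ι) (f : ι → K) (h : ∀ i ∈ s, NN v (f i)) : NN v (∑ i ∈ s, f i) := by
  classical
  induction s using Finset.induction_on with
  | empty => exact nn_zero
  | insert a s ha ih =>
    rw [Finset.sum_insert ha]
    exact hv.nn_add (h a (Finset.mem_insert_self a s)) (ih fun i hi => h i (Finset.mem_insert_of_mem hi))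

theorem IsV.pv_sum (hv : IsV v) {ι : Type*} (s : Finset ι) (f : ι → K) (h : ∀ i ∈ s, PV v (f i)) : PV v (∑ i ∈ s, f i) := by
  classical
  induction s using Finset.induction_on with
  | empty => exact pv_zero
  | insert a s ha ih =>
    rw [Finset.sum_insert ha]
    exact hv.pv_add (h a (Finset.mem_insert_self a s)) (ih fun i hi => h i (Finset.mem_insert_of_mem hi))

theorem IsV.nn_prod (hv : IsV v) {ι : Type*} (s : Finset ι) (f : ι → K) (h : ∀ i ∈ s, NN v (f i)) : NN v (∏ i ∈ s, f i) := by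
  classical
  induction s using Finset.induction_on with
  | empty => exact hv.nn_one
  | insert a s ha ih =>
    rw [Finset.prod_insert ha]
    exact hv.nn_mul (h a (Finset.mem_insert_self a s)) (ih fun i hi => h i (Finset.mem_insert_of_mem hi))

theorem IsV.nn_nat (hv : IsV v) (n : ℕ) : NN v (n : K) := by
  induction n with
  | zero => exact Or.inl Nat.cast_zero
  | succ n ih =>
    rw [Nat.cast_succ]
    exact hv.nn_add ih hv.nn_one

theorem IsV.nn_int (hv : IsV v) (n : ℤ) : NN v (n : K) := by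
  obtain ⟨m, rfl | rfl⟩ := n.eq_nat_or_neg
  · rw [Int.cast_natCast]
    exact hv.nn_nat m
  · rw [Int.cast_neg, Int.cast_natCast]
    exact hv.nn_neg (hv.nn_nat m)

/-- Integers prime to `p` are units. -/
theorem IsV.int_unit (hv : IsV v) [CharZero K] {p : ℕ} (hp : p.Prime) (h1 : v (p : K) = 1) {n : ℤ} (hn : ¬ (p : ℤ) ∣ n) :
    v (n : K) = 0 := by
  have hn0 : (n : K) ≠ 0 := by
    intro h
    rw [Int.cast_eq_zero] at h
    exact hn (h ▸ dvd_zero _)
  have h2 : 0 ≤ v (n : K) := (hv.nn_int n).resolve_left hn0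
  by_contra hne
  have h3 : PV v (n : K) := Or.inr (lt_of_le_of_ne h2 (Ne.symm hne))
  have hcop : IsCoprime n (p : ℤ) := by
    rw [isCoprime_comm]
    exact (Prime.coprime_iff_not_dvd (Nat.prime_iff_prime_int.1 hp)).2 hn
  obtain ⟨a, b, hab⟩ := hcop
  have h4 : (1 : K) = (n : K) * (a : K) + (p : K) * (b : K) := by
    have := congrArg (fun z : ℤ => (z : K)) hab
    push_cast at this
    rw [← this]
    ring
  have h5 : PV v (p : K) := Or.inr (by rw [h1]; exact one_pos)
  exact hv.not_pv_one (by rw [h4]; exact hv.pv_add (hv.pv_mul h3 (hv.nn_int a)) (hv.pv_mul h5 (hv.nn_int b)))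

/-- Algebraic integers are integral. -/
theorem IsV.nn_integral (hv : IsV v) {x : K} (hx : IsIntegral ℤ x) : NN v x := by
  by_cases hx0 : x = 0
  · exact Or.inl hx0
  by_contra hcon
  unfold NN at hcon
  push Not at hcon
  have hneg : v x < 0 := hcon.2
  obtain ⟨f, hf, hfx⟩ := hx
  have hinv : PV v x⁻¹ := Or.inr (by rw [hv.inv hx0]; linarith)
  have hn : f.natDegree ≠ 0 := by
    intro h0
    have h1 := Polynomial.eq_one_of_monic_natDegree_zero hf h0
    rw [h1, Polynomial.eval₂_one] at hfx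
    exact one_ne_zero hfx
  rw [Polynomial.eval₂_eq_sum_range, Finset.sum_range_succ, hf.coeff_natDegree, map_one, one_mul] at hfx
  have h2 : (1 : K) = -∑ i ∈ Finset.range f.natDegree, (algebraMap ℤ K (f.coeff i)) * x⁻¹ ^ (f.natDegree - i) := by
    have h3 : x ^ f.natDegree ≠ 0 := pow_ne_zero _ hx0
    have h4 : (∑ i ∈ Finset.range f.natDegree, (algebraMap ℤ K (f.coeff i)) * x ^ i) * (x ^ f.natDegree)⁻¹ =
        ∑ i ∈ Finset.range f.natDegree, (algebraMap ℤ K (f.coeff i)) * x⁻¹ ^ (f.natDegree - i) := by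
      rw [Finset.sum_mul]
      refine Finset.sum_congr rfl fun i hi => ?_
      have hi' : i < f.natDegree := Finset.mem_range.1 hi
      rw [mul_assoc]
      congr 1
      rw [inv_pow, ← div_eq_mul_inv, div_eq_iff h3, ← div_eq_inv_mul]
      rw [eq_div_iff (pow_ne_zero _ hx0), ← pow_add]
      congr 1
      omega
    rw [← h4]
    have h5 : (∑ i ∈ Finset.range f.natDegree, (algebraMap ℤ K (f.coeff i)) * x ^ i) = -x ^ f.natDegree :=
      eq_neg_of_add_eq_zero_left hfx
    rw [h5, neg_mul, mul_inv_cancel₀ h3, neg_neg]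
  refine hv.not_pv_one ?_
  rw [h2]
  refine hv.pv_neg (hv.pv_sum _ _ fun i hi => ?_)
  have hi' : i < f.natDegree := Finset.mem_range.1 hi
  rw [mul_comm]
  refine hv.pv_mul ?_ (hv.nn_int _)
  refine Or.inr ?_
  rw [hv.pow (inv_ne_zero hx0)]
  have h6 : 0 < v x⁻¹ := hinv.resolve_left (inv_ne_zero hx0)
  have h7 : (0 : ℚ) < ((f.natDegree - i : ℕ) : ℚ) := by
    rw [Nat.cast_pos]
    omega
  exact mul_pos h7 h6

end

end H45K
end

-- from Lib.H45K.K7
section

/-! # H45K, K7: automorphisms which act trivially on residue classes fix the number fields unramified at `p` -/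

set_option autoImplicit false

namespace H45K

open NumberField

theorem IsV.pv_det {K : Type*} [Field K] {v : K → ℚ} (hv : IsV v) {n : Type*} [Fintype n] [DecidableEq n] (A : Matrix n n K) (c : n)
    (h1 : ∀ i j, NN v (A i j)) (h2 : ∀ i, PV v (A i c)) : PV v A.det := by
  rw [Matrix.det_apply]
  refine hv.pv_sum _ _ fun σ _ => ?_
  have h3 : PV v (∏ i, A (σ i) i) := by
    rw [← Finset.mul_prod_erase Finset.univ (fun i => A (σ i) i) (Finset.mem_univ c)]
    exact hv.pv_mul (h2 _) (hv.nn_prod _ _ fun i _ => h1 _ _)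
  rcases Int.units_eq_one_or (Equiv.Perm.sign σ) with h | h
  · rw [h, one_smul]
    exact h3
  · rw [h, Units.neg_smul, one_smul]
    exact hv.pv_neg h3

theorem disc_eq (F : Type*) [Field F] [NumberField F] (K : Type*) [Field K] [CharZero K] [IsAlgClosed K]
    (e : Module.Free.ChooseBasisIndex ℤ (𝓞 F) ≃ (F →ₐ[ℚ] K)) :
    ((NumberField.discr F : ℤ) : K) = (Algebra.embeddingsMatrixReindex ℚ K (integralBasis F) e).det ^ 2 := by
  rw [← Algebra.discr_eq_det_embeddingsMatrixReindex_pow_two, ← NumberField.coe_discr]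
  simp

/-- K7. If `p` does not divide the discriminant then an automorphism `δ` with `δ x ≡ x` for all integral `x` fixes all images of `F`. -/
theorem rfix {K : Type*} [Field K] [CharZero K] [IsAlgClosed K] {v : K → ℚ} (hv : IsV v) {p : ℕ} (hp : p.Prime) (h1 : v (p : K) = 1)
    (F : Type*) [Field F] [NumberField F] (hd : ¬ (p : ℤ) ∣ NumberField.discr F) (δ : K ≃+* K)
    (dres : ∀ x : K, x ≠ 0 → 0 ≤ v x → δ x = x ∨ 0 < v (δ x - x)) (φ : F →+* K) (c : F) : δ (φ c) = φ c := by
  classical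
  let a : F →ₐ[ℚ] K := φ.toRatAlgHom
  let b : F →ₐ[ℚ] K := ((δ : K →+* K).comp φ).toRatAlgHom
  by_contra hcon
  have hab : a ≠ b := by
    intro h
    have := DFunLike.congr_fun h c
    exact hcon this.symm
  have hcard : Fintype.card (Module.Free.ChooseBasisIndex ℤ (𝓞 F)) = Fintype.card (F →ₐ[ℚ] K) := by
    rw [AlgHom.card ℚ F K, ← Module.finrank_eq_card_basis (integralBasis F)]
  let e : Module.Free.ChooseBasisIndex ℤ (𝓞 F) ≃ (F →ₐ[ℚ] K) := Fintype.equivOfCardEq hcard
  have hdisc := disc_eq F K e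
  obtain ⟨A, hA⟩ : ∃ A, A = Algebra.embeddingsMatrixReindex ℚ K (integralBasis F) e := ⟨_, rfl⟩
  rw [← hA] at hdisc
  have hent : ∀ i j, A i j = (e j) (integralBasis F i) := by
    intro i j
    rw [hA]
    rfl
  have hint : ∀ i, IsIntegral ℤ (integralBasis F i) := by
    intro i
    rw [integralBasis_apply]
    exact RingOfIntegers.isIntegral_coe _
  have hnn : ∀ i j, NN v (A i j) := by
    intro i j
    rw [hent]
    exact hv.nn_integral ((hint i).map ((e j).restrictScalars ℤ))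
  have hne : e.symm b ≠ e.symm a := fun h => hab (e.symm.injective h).symm
  have hdet := Matrix.det_updateCol_add_smul_self A hne (-1)
  have hpv : PV v A.det := by
    rw [← hdet]
    refine hv.pv_det _ (e.symm b) (fun i j => ?_) fun i => ?_
    · rw [Matrix.updateCol_apply]
      split_ifs
      · show NN v (A i (e.symm b) + (-1 : K) • A i (e.symm a))
        rw [neg_smul, one_smul]
        exact hv.nn_add (hnn _ _) (hv.nn_neg (hnn _ _))
      · exact hnn _ _
    · rw [Matrix.updateCol_self]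
      show PV v (A i (e.symm b) + (-1 : K) • A i (e.symm a))
      rw [hent, hent, Equiv.apply_symm_apply, Equiv.apply_symm_apply, neg_smul, one_smul, ← sub_eq_add_neg]
      show PV v (δ (φ (integralBasis F i)) - φ (integralBasis F i))
      have h3 : NN v (φ (integralBasis F i)) := hv.nn_integral ((hint i).map (φ.toIntAlgHom))
      rcases h3 with h3 | h3
      · rw [h3, map_zero, sub_self]
        exact pv_zero
      · by_cases h4 : φ (integralBasis F i) = 0
        · rw [h4, map_zero, sub_self]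
          exact pv_zero
        · rcases dres _ h4 h3 with h5 | h5
          · rw [h5, sub_self]
            exact pv_zero
          · exact Or.inr h5
  have h6 : PV v (A.det ^ 2) := by
    rw [sq]
    exact hv.pv_mul hpv hpv.nn
  rw [← hdisc] at h6
  rcases h6 with h6 | h6
  · rw [Int.cast_eq_zero] at h6
    exact hd (h6 ▸ dvd_zero _)
  · rw [hv.int_unit hp h1 hd] at h6
    exact lt_irrefl _ h6

end H45K
end

-- from Lib.H45P.P7
section

/-! # H45P, P7: automorphisms which act trivially on the residue field fix the m-th roots of unity, `p` prime to `m` -/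

set_option autoImplicit false
set_option linter.unusedSectionVars false

namespace H45P

open H45K

theorem mu_fix {K : Type*} [Field K] {v : K → ℚ} (hv : IsV v) {p : ℕ} (hp : p.Prime) (h1 : v (p : K) = 1) {m : ℕ}
    (hm : ¬ p ∣ m) (δ : K ≃+* K) (dres : ∀ x : K, x ≠ 0 → 0 ≤ v x → δ x = x ∨ 0 < v (δ x - x)) (z : K) (hz : z ^ m = 1) : δ z = z := by
  have hm0 : m ≠ 0 := fun h => hm (h ▸ dvd_zero p)
  have hz0 : z ≠ 0 := by
    rintro rfl
    rw [zero_pow hm0] at hz
    exact zero_ne_one hz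
  have hvz : v z = 0 := by
    have h2 := hv.pow hz0 m
    rw [hz, hv.one] at h2
    have h3 : (m : ℚ) ≠ 0 := Nat.cast_ne_zero.2 hm0
    exact (mul_eq_zero.1 h2.symm).resolve_left h3
  rcases dres z hz0 hvz.ge with h | h
  · exact h
  by_contra hne
  obtain ⟨t, ht⟩ : ∃ t, t = δ z / z := ⟨_, rfl⟩
  have htz : δ z = t * z := by rw [ht, div_mul_cancel₀ _ hz0]
  have ht1 : t ≠ 1 := fun h2 => hne (by rw [htz, h2, one_mul])
  have htm : t ^ m = 1 := by rw [ht, div_pow, ← map_pow, hz, map_one, div_one]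
  have hpv : PV v (t - 1) := by
    right
    have h2 : δ z - z = (t - 1) * z := by rw [htz]; ring
    rw [h2, hv.mul _ _ (sub_ne_zero.2 ht1) hz0, hvz, add_zero] at h
    exact h
  have hnt : NN v t := by
    have h2 : t = (t - 1) + 1 := by ring
    rw [h2]
    exact hv.nn_add hpv.nn hv.nn_one
  have hntk : ∀ k : ℕ, NN v (t ^ k) := by
    intro k
    induction k with
    | zero => rw [pow_zero]; exact hv.nn_one
    | succ k ih => rw [pow_succ]; exact hv.nn_mul ih hnt
  have hsum : ∑ k ∈ Finset.range m, t ^ k = 0 := by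
    have h2 := mul_neg_geom_sum t m
    rw [htm, sub_self] at h2
    exact (mul_eq_zero.1 h2).resolve_left (sub_ne_zero.2 fun h3 => ht1 h3.symm)
  have hmv : PV v (m : K) := by
    have h2 : (m : K) = -∑ k ∈ Finset.range m, (t ^ k - 1) := by
      rw [Finset.sum_sub_distrib, hsum, Finset.sum_const, Finset.card_range, nsmul_eq_mul]
      ring
    rw [h2]
    refine hv.pv_neg (hv.pv_sum _ _ fun k _ => ?_)
    rw [← mul_geom_sum]
    exact hv.pv_mul hpv (hv.nn_sum _ _ fun j _ => hntk j)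
  have hpp : PV v (p : K) := Or.inr (by rw [h1]; exact one_pos)
  have hnn : ∀ k : ℕ, NN v (k : K) := by
    intro k
    induction k with
    | zero => rw [Nat.cast_zero]; exact nn_zero
    | succ k ih => rw [Nat.cast_succ]; exact hv.nn_add ih hv.nn_one
  have hnz : ∀ k : ℤ, NN v (k : K) := by
    intro k
    obtain ⟨k, rfl | rfl⟩ := k.eq_nat_or_neg
    · rw [Int.cast_natCast]
      exact hnn k
    · rw [Int.cast_neg, Int.cast_natCast]
      exact hv.nn_neg (hnn k)
  have hcop : IsCoprime (p : ℤ) (m : ℤ) := Nat.isCoprime_iff_coprime.2 ((Nat.Prime.coprime_iff_not_dvd hp).2 hm)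
  obtain ⟨a, b, hab⟩ := hcop
  apply hv.not_pv_one
  have h3 : (1 : K) = (p : K) * (a : K) + (m : K) * (b : K) := by
    have := congrArg (fun t : ℤ => (t : K)) hab
    push_cast at this
    rw [← this]
    ring
  rw [h3]
  exact hv.pv_add (hv.pv_mul hpp (hnz a)) (hv.pv_mul hmv (hnz b))

end H45P
end

-- from Lib.H45K.K9
section

/-! # H45K, K9: two eigenvalues of Frobenius with the same valuations at all places above `p` differ by a root of unity -/

set_option autoImplicit false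
set_option linter.unusedSectionVars false

namespace H45K

open Polynomial

section

variable {Om : Type*} [Field Om] [CharZero Om] [IsAlgClosed Om] [Algebra.IsAlgebraic ℚ Om]
variable {K : Type*} [Field K] [CharZero K] [IsAlgClosed K] {v : K → ℚ}

/-- A rational number `c` with `p ^ k * c` an integer and `0 ≤ v c` is an integer. -/
theorem rat_int (hv : IsV v) {p : ℕ} (hp : p.Prime) (h1 : v (p : K) = 1) (c : ℚ) (k : ℕ) (m : ℤ) (hm : (p : ℚ) ^ k * c = m)
    (hc : NN v ((c : ℚ) : K)) : ∃ n : ℤ, c = n := by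
  by_cases hc0 : c = 0
  · exact ⟨0, by rw [hc0, Int.cast_zero]⟩
  have hpq : (p : ℚ) ≠ 0 := Nat.cast_ne_zero.2 hp.ne_zero
  have hm0 : m ≠ 0 := by
    rintro rfl
    rw [Int.cast_zero, mul_eq_zero] at hm
    rcases hm with h | h
    · exact pow_ne_zero k hpq h
    · exact hc0 h
  obtain ⟨j, m', hm', hmm⟩ : ∃ (j : ℕ) (m' : ℤ), ¬ (p : ℤ) ∣ m' ∧ m = (p : ℤ) ^ j * m' := by
    have hfin : FiniteMultiplicity (p : ℤ) m := Int.finiteMultiplicity_iff.2 ⟨by
      rw [Int.natAbs_natCast]
      exact hp.ne_one, hm0⟩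
    obtain ⟨m', h2, h3⟩ := hfin.exists_eq_pow_mul_and_not_dvd
    exact ⟨_, m', h3, h2⟩
  have hcK : ((c : ℚ) : K) ≠ 0 := by
    rw [Ne, Rat.cast_eq_zero]
    exact hc0
  have hpK : (p : K) ≠ 0 := Nat.cast_ne_zero.2 hp.ne_zero
  have hv1 : v ((p : K) ^ k * ((c : ℚ) : K)) = v ((p : K) ^ j * (m' : K)) := by
    congr 1
    have h4 := congrArg (fun z : ℚ => (z : K)) hm
    simp only [Rat.cast_mul, Rat.cast_pow, Rat.cast_natCast, Rat.cast_intCast] at h4
    rw [h4, hmm]
    push_cast
    rfl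
  have hm'0 : (m' : K) ≠ 0 := by
    intro h
    rw [Int.cast_eq_zero] at h
    exact hm' (h ▸ dvd_zero _)
  rw [hv.mul _ _ (pow_ne_zero k hpK) hcK, hv.mul _ _ (pow_ne_zero j hpK) hm'0, hv.pow hpK, hv.pow hpK, h1, hv.int_unit hp h1 hm'] at hv1
  have h5 : 0 ≤ v ((c : ℚ) : K) := hc.resolve_left hcK
  have h6 : (k : ℚ) ≤ j := by linarith
  have h7 : k ≤ j := by exact_mod_cast h6
  refine ⟨(p : ℤ) ^ (j - k) * m', ?_⟩
  have h8 : (p : ℚ) ^ k * c = (p : ℚ) ^ k * (((p : ℤ) ^ (j - k) * m' : ℤ) : ℚ) := by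
    rw [hm, hmm]
    push_cast
    rw [← mul_assoc, ← pow_add]
    congr 2
    omega
  exact mul_left_cancel₀ (pow_ne_zero k hpq) h8

theorem coeff_ms (hv : IsV v) (i : Om →+* K) (p : ℕ) (s : Multiset Om) (h1 : ∀ z ∈ s, NN v (i z)) (h2 : ∀ z ∈ s, IsIntegral ℤ ((p : Om) * z))
    (k : ℕ) : NN v (i ((s.map fun z => X - C z).prod.coeff k)) ∧
      IsIntegral ℤ ((p : Om) ^ s.card * (s.map fun z => X - C z).prod.coeff k) := by
  induction s using Multiset.induction_on generalizing k with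
  | empty =>
    rw [Multiset.map_zero, Multiset.prod_zero, Multiset.card_zero, pow_zero, one_mul, coeff_one]
    split_ifs
    · rw [map_one]
      exact ⟨hv.nn_one, isIntegral_one⟩
    · rw [map_zero]
      exact ⟨nn_zero, isIntegral_zero⟩
  | cons z s ih =>
    have ih' := ih (fun w hw => h1 w (Multiset.mem_cons_of_mem hw)) fun w hw => h2 w (Multiset.mem_cons_of_mem hw)
    have hz1 := h1 z (Multiset.mem_cons_self z s)
    have hz2 := h2 z (Multiset.mem_cons_self z s)
    rw [Multiset.map_cons, Multiset.prod_cons, Multiset.card_cons]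
    have hpi : IsIntegral ℤ (p : Om) := by
      have := isIntegral_algebraMap (R := ℤ) (A := Om) (x := (p : ℤ))
      rwa [eq_intCast, Int.cast_natCast] at this
    cases k with
    | zero =>
      rw [mul_coeff_zero, coeff_sub, coeff_X_zero, coeff_C_zero, zero_sub, neg_mul]
      refine ⟨?_, ?_⟩
      · rw [map_neg, map_mul]
        exact hv.nn_neg (hv.nn_mul hz1 (ih' 0).1)
      · have e : (p : Om) ^ (s.card + 1) * -(z * (s.map fun z => X - C z).prod.coeff 0) =
            -(((p : Om) * z) * ((p : Om) ^ s.card * (s.map fun z => X - C z).prod.coeff 0)) := by ring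
        rw [e]
        exact (hz2.mul (ih' 0).2).neg
    | succ k =>
      rw [sub_mul, coeff_sub, coeff_X_mul, coeff_C_mul]
      refine ⟨?_, ?_⟩
      · rw [map_sub, map_mul, sub_eq_add_neg]
        exact hv.nn_add (ih' k).1 (hv.nn_neg (hv.nn_mul hz1 (ih' (k + 1)).1))
      · have e : (p : Om) ^ (s.card + 1) * ((s.map fun z => X - C z).prod.coeff k - z * (s.map fun z => X - C z).prod.coeff (k + 1)) =
            (p : Om) * ((p : Om) ^ s.card * (s.map fun z => X - C z).prod.coeff k) -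
              ((p : Om) * z) * ((p : Om) ^ s.card * (s.map fun z => X - C z).prod.coeff (k + 1)) := by ring
        rw [e]
        exact (hpi.mul (ih' k).2).sub (hz2.mul (ih' (k + 1)).2)

/-- The coefficients of the minimal polynomial. -/
theorem int_of_val (hv : IsV v) {p : ℕ} (hp : p.Prime) (h1 : v (p : K) = 1) (ζ : Om) (hζ : IsIntegral ℤ ((p : Om) * ζ))
    (h : ∀ i : Om →+* K, NN v (i ζ)) : IsIntegral ℤ ζ := by
  classical
  obtain ⟨g, hg⟩ : ∃ g, g = minpoly ℚ ζ := ⟨_, rfl⟩
  have hgm : g.Monic := by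
    rw [hg]
    exact minpoly.monic (Algebra.IsAlgebraic.isAlgebraic ζ).isIntegral
  have hspl : (g.map (algebraMap ℚ Om)).Splits := IsAlgClosed.splits _
  have i₀ : Om →+* K := (IsAlgClosed.lift : Om →ₐ[ℚ] K).toRingHom
  have hroot : ∀ z ∈ (g.map (algebraMap ℚ Om)).roots, ∃ s : Om →+* Om, s ζ = z := by
    intro z hz
    rw [mem_roots', IsRoot.def, eval_map_algebraMap] at hz
    have h2 : minpoly ℚ ζ = minpoly ℚ z := by
      rw [← hg]
      exact minpoly.eq_of_irreducible_of_monic (hg ▸ minpoly.irreducible (Algebra.IsAlgebraic.isAlgebraic ζ).isIntegral) hz.2 hgm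
    obtain ⟨s, hs⟩ := IntermediateField.exists_algHom_of_splits_of_aeval (K := Om) (F := ℚ) (E := Om)
      (fun x => ⟨(Algebra.IsAlgebraic.isAlgebraic x).isIntegral, IsAlgClosed.splits _⟩) (x := ζ) (y := z) (by
        rw [h2]
        exact minpoly.aeval ℚ z)
    exact ⟨s.toRingHom, hs⟩
  have hint : ∀ z ∈ (g.map (algebraMap ℚ Om)).roots, IsIntegral ℤ ((p : Om) * z) := by
    intro z hz
    obtain ⟨s, rfl⟩ := hroot z hz
    have h3 := hζ.map s.toIntAlgHom
    have h4 : s.toIntAlgHom ((p : Om) * ζ) = (p : Om) * s ζ := by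
      show s ((p : Om) * ζ) = _
      rw [map_mul, map_natCast]
    rwa [h4] at h3
  have hnn : ∀ z ∈ (g.map (algebraMap ℚ Om)).roots, NN v (i₀ z) := by
    intro z hz
    obtain ⟨s, rfl⟩ := hroot z hz
    exact h (i₀.comp s)
  have hcoef : ∀ k, ∃ n : ℤ, g.coeff k = n := by
    intro k
    obtain ⟨h3, h4⟩ := coeff_ms hv i₀ p (g.map (algebraMap ℚ Om)).roots hnn hint k
    have hprod : ((g.map (algebraMap ℚ Om)).roots.map fun z => X - C z).prod = g.map (algebraMap ℚ Om) := by
      have h5 := hspl.eq_prod_roots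
      rw [(hgm.map (algebraMap ℚ Om)).leadingCoeff, C_1, one_mul] at h5
      exact h5.symm
    rw [hprod, coeff_map] at h3 h4
    have h6 : IsIntegral ℤ ((p : ℚ) ^ (Multiset.card (g.map (algebraMap ℚ Om)).roots) * g.coeff k) := by
      have h7 : (p : Om) ^ (Multiset.card (g.map (algebraMap ℚ Om)).roots) * algebraMap ℚ Om (g.coeff k) =
          algebraMap ℚ Om ((p : ℚ) ^ (Multiset.card (g.map (algebraMap ℚ Om)).roots) * g.coeff k) := by
        rw [map_mul, map_pow, map_natCast]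
      rw [h7] at h4
      exact (isIntegral_algebraMap_iff (algebraMap ℚ Om).injective).1 h4
    obtain ⟨m, hm⟩ := IsIntegrallyClosed.isIntegral_iff.1 h6
    refine rat_int hv hp h1 (g.coeff k) _ m hm.symm ?_
    have h8 : i₀ (algebraMap ℚ Om (g.coeff k)) = ((g.coeff k : ℚ) : K) := by
      rw [eq_ratCast, map_ratCast]
    rwa [h8] at h3
  have hlift : g ∈ Polynomial.lifts (Int.castRingHom ℚ) := by
    rw [lifts_iff_coeff_lifts]
    intro k
    obtain ⟨n, hn⟩ := hcoef k
    exact ⟨n, by rw [hn]; rfl⟩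
  obtain ⟨G, hG1, hG2, hG3⟩ := lifts_and_natDegree_eq_and_monic hlift hgm
  refine ⟨G, hG3, ?_⟩
  have h9 : aeval ζ g = 0 := by
    rw [hg]
    exact minpoly.aeval ℚ ζ
  rw [← hG1, aeval_def, eval₂_map] at h9
  rw [show algebraMap ℤ Om = (algebraMap ℚ Om).comp (Int.castRingHom ℚ) from RingHom.ext_int _ _]
  exact h9

/-- K9. The valuations at the places above `p` separate the eigenvalues of Frobenius, up to roots of unity. -/
theorem gal (hv : IsV v) {p : ℕ} (hp : p.Prime) (h1 : v (p : K) = 1) (f : ℤ[X]) (hf : f.Monic)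
    (hW : ∀ z : ℂ, aeval z f = 0 → ‖z‖ ^ 2 = p) {a a' : Om} (ha : aeval a f = 0) (ha' : aeval a' f = 0)
    (hne : ∀ n : ℕ, n ≠ 0 → (a / a') ^ n ≠ 1) : ∃ i : Om →+* K, v (i a) ≠ v (i a') := by
  by_contra hcon
  push Not at hcon
  have hroot : ∀ (x : Om), aeval x f = 0 → ∀ c : Om →+* ℂ, ‖c x‖ ^ 2 = p := by
    intro x hx c
    refine hW _ ?_
    have h2 := congrArg c hx
    rw [map_zero, aeval_def, hom_eval₂] at h2
    rw [aeval_def, show algebraMap ℤ ℂ = c.comp (algebraMap ℤ Om) from RingHom.ext_int _ _]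
    exact h2
  have c₀ : Om →+* ℂ := (IsAlgClosed.lift : Om →ₐ[ℚ] ℂ).toRingHom
  have hpR : (p : ℝ) ≠ 0 := Nat.cast_ne_zero.2 hp.ne_zero
  have h0 : ∀ (x : Om), aeval x f = 0 → x ≠ 0 := by
    rintro x hx rfl
    have h2 := hroot 0 hx c₀
    rw [map_zero, norm_zero, zero_pow two_ne_zero] at h2
    exact hpR h2.symm
  have hinv : aeval ((p : Om) / a') f = 0 := by
    apply c₀.injective
    rw [map_zero, aeval_def, hom_eval₂]
    have h2 := hroot a' ha' c₀
    have h3 : c₀ ((p : Om) / a') = (starRingEnd ℂ) (c₀ a') := by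
      rw [map_div₀, map_natCast, div_eq_iff ((map_ne_zero c₀).2 (h0 a' ha')), mul_comm, Complex.mul_conj, Complex.normSq_eq_norm_sq, h2]
      simp
    rw [h3]
    have h4 : eval₂ (c₀.comp (algebraMap ℤ Om)) ((starRingEnd ℂ) (c₀ a')) f = (starRingEnd ℂ) (c₀ (aeval a' f)) := by
      rw [aeval_def, hom_eval₂, hom_eval₂]
      congr 1
      exact RingHom.ext_int _ _
    rw [h4, ha', map_zero, map_zero]
  have hia : IsIntegral ℤ a := ⟨f, hf, ha⟩
  have hia' : IsIntegral ℤ ((p : Om) / a') := ⟨f, hf, hinv⟩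
  have hpz : IsIntegral ℤ ((p : Om) * (a / a')) := by
    have e : (p : Om) * (a / a') = a * ((p : Om) / a') := by ring
    rw [e]
    exact hia.mul hia'
  have hz0 : a / a' ≠ 0 := div_ne_zero (h0 a ha) (h0 a' ha')
  have hzi : IsIntegral ℤ (a / a') := by
    refine int_of_val hv hp h1 _ hpz fun i => Or.inr ?_
    rw [map_div₀, hv.div ((map_ne_zero i).2 (h0 a ha)) ((map_ne_zero i).2 (h0 a' ha')), hcon i, sub_self]
  have hfd : FiniteDimensional ℚ (IntermediateField.adjoin ℚ {a / a'}) :=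
    IntermediateField.adjoin.finiteDimensional (Algebra.IsAlgebraic.isAlgebraic (a / a')).isIntegral
  have hNF : NumberField (IntermediateField.adjoin ℚ {a / a'}) := {}
  have hgi : IsIntegral ℤ (IntermediateField.AdjoinSimple.gen ℚ (a / a')) := by
    have h2 : IsIntegral ℤ (algebraMap (IntermediateField.adjoin ℚ {a / a'}) Om (IntermediateField.AdjoinSimple.gen ℚ (a / a'))) := by
      rw [IntermediateField.AdjoinSimple.algebraMap_gen]
      exact hzi
    exact (isIntegral_algebraMap_iff (algebraMap (IntermediateField.adjoin ℚ {a / a'}) Om).injective).1 h2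
  obtain ⟨n, hn, hn1⟩ := NumberField.Embeddings.pow_eq_one_of_norm_eq_one (IntermediateField.adjoin ℚ {a / a'}) ℂ hgi fun φ => by
    obtain ⟨s, hs⟩ := IntermediateField.exists_algHom_of_splits_of_aeval (K := ℂ) (F := ℚ) (E := Om)
      (fun x => ⟨(Algebra.IsAlgebraic.isAlgebraic x).isIntegral, IsAlgClosed.splits _⟩) (x := a / a')
      (y := φ (IntermediateField.AdjoinSimple.gen ℚ (a / a'))) (by
        have h2 := aeval_algHom_apply φ.toRatAlgHom (IntermediateField.AdjoinSimple.gen ℚ (a / a')) (minpoly ℚ (a / a'))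
        have h3 : aeval (IntermediateField.AdjoinSimple.gen ℚ (a / a')) (minpoly ℚ (a / a')) = 0 := by
          apply (algebraMap (IntermediateField.adjoin ℚ {a / a'}) Om).injective
          rw [map_zero, ← aeval_algebraMap_apply, IntermediateField.AdjoinSimple.algebraMap_gen]
          exact minpoly.aeval ℚ _
        rw [h3, map_zero] at h2
        exact h2)
    rw [← hs]
    have h4 := hroot a ha s.toRingHom
    have h5 := hroot a' ha' s.toRingHom
    rw [← h4] at h5
    have h6 : ‖s a‖ = ‖s a'‖ := by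
      have h7 : ‖s a'‖ ^ 2 = ‖s a‖ ^ 2 := h5
      exact ((sq_eq_sq₀ (norm_nonneg _) (norm_nonneg _)).1 h7).symm
    rw [map_div₀, norm_div, h6, div_self]
    rw [norm_ne_zero_iff]
    exact (map_ne_zero s).2 (h0 a' ha')
  refine hne n (by omega) ?_
  have h8 := congrArg (algebraMap (IntermediateField.adjoin ℚ {a / a'}) Om) hn1
  rwa [map_pow, IntermediateField.AdjoinSimple.algebraMap_gen, map_one] at h8

end

end H45K
end

-- from Lib.H45P.P13
section

/-! # H45P, P13: an integer congruent to 1 modulo m^2 v is an m-th power in F_v (Newton iteration) -/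

set_option autoImplicit false
set_option linter.unusedSectionVars false

namespace H45P
open NumberField IsDedekindDomain WithZero

variable {F : Type} [Field F] [NumberField F]

theorem pow_of_cong (v : HeightOneSpectrum (𝓞 F)) {m : ℕ} (hm : m ≠ 0) (π : 𝓞 F) (h : π - 1 ∈ Ideal.span {(m : 𝓞 F) ^ 2} * v.asIdeal) :
    ∀ N : ℕ, ∃ y : F, v.valuation F ((π : F) - y ^ m) < exp (-(N : ℤ)) := by
  set val := v.valuation F with hval
  have hmF : (m : F) ≠ 0 := Nat.cast_ne_zero.2 hm
  have hv2 : val (m : F) ≤ 1 := by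
    have := v.valuation_le_one (K := F) (m : 𝓞 F)
    have h0 : ((m : 𝓞 F) : F) = m := map_natCast (algebraMap (𝓞 F) F) m
    exact h0 ▸ this
  have hv20 : val (m : F) ≠ 0 := (Valuation.ne_zero_iff _).2 hmF
  have hv41 : val (m : F) ^ 2 ≤ 1 := pow_le_one' hv2 2
  have key : ∀ n : ℕ, ∃ y : F, val y = 1 ∧ val (y ^ m - π) ≤ val (m : F) ^ 2 * exp (-((n : ℤ) + 1)) := by
    intro n
    induction n with
    | zero =>
      refine ⟨1, map_one _, ?_⟩
      rw [Ideal.mem_span_singleton_mul] at h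
      obtain ⟨z, hz, hz2⟩ := h
      have h3 : ((1 : F) ^ m - π) = -((m : F) ^ 2 * (z : F)) := by
        have := congrArg (fun t : 𝓞 F => (t : F)) hz2
        simp only [map_mul, map_sub, map_one, map_pow, map_natCast] at this
        rw [this, one_pow]; ring
      rw [h3, Valuation.map_neg, map_mul, map_pow]
      refine mul_le_mul_right (α := ℤᵐ⁰) ?_ _
      have h5 : val (z : F) < 1 := (v.valuation_lt_one_iff_mem z).2 hz
      have h6 : val (z : F) ≤ exp (-1 : ℤ) := by
        by_contra hc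
        push Not at hc
        have hne : val (z : F) ≠ 0 := fun h0 => by rw [h0] at hc; exact absurd hc (by simp)
        obtain ⟨k, hk⟩ : ∃ k : ℤ, val (z : F) = exp k := ⟨log (val (z : F)), (exp_log hne).symm⟩
        rw [hk] at hc h5
        rw [exp_lt_exp] at hc
        rw [← exp_zero, exp_lt_exp] at h5
        omega
      simpa using h6
    | succ n ih =>
      obtain ⟨y, hy, hy2⟩ := ih
      have hy0 : y ≠ 0 := by
        rintro rfl
        rw [map_zero] at hy
        exact zero_ne_one hy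
      set e := y ^ m - (π : F) with he
      obtain ⟨s, hs⟩ : ∃ s : F, s = -(e / (m * y ^ (m - 1))) := ⟨_, rfl⟩
      have he2 : val s ≤ val (m : F) * exp (-((n : ℤ) + 1)) := by
        rw [hs, Valuation.map_neg, map_div₀, map_mul, map_pow, hy, one_pow, mul_one]
        rw [div_le_iff₀ (zero_lt_iff.2 hv20)]
        calc val e ≤ val (m : F) ^ 2 * exp (-((n : ℤ) + 1)) := hy2
          _ = val (m : F) * exp (-((n : ℤ) + 1)) * val (m : F) := by rw [pow_two, mul_assoc, mul_assoc, mul_comm (val (m : F)) (exp _)]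
      have he3 : val s < 1 := by
        refine lt_of_le_of_lt he2 ?_
        calc val (m : F) * exp (-((n : ℤ) + 1)) ≤ 1 * exp (-((n : ℤ) + 1)) := mul_le_mul_left (α := ℤᵐ⁰) hv2 _
          _ < 1 := by
            rw [one_mul, ← exp_zero, exp_lt_exp]
            omega
      obtain ⟨c, hc1, hc2⟩ : ∃ c : F, val c ≤ 1 ∧ (y + s) ^ m = y ^ m + m * y ^ (m - 1) * s + c * s ^ 2 := by
        let y' : val.integer := ⟨y, hy.le⟩
        let s' : val.integer := ⟨s, he3.le⟩
        obtain ⟨k, hk⟩ := Polynomial.powAddExpansion y' s' m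
        refine ⟨k, k.2, ?_⟩
        have := congrArg (fun t : val.integer => (t : F)) hk
        simpa [y', s'] using this
      refine ⟨y + s, ?_, ?_⟩
      · rw [Valuation.map_add_eq_of_lt_left, hy]
        rw [hy]
        exact he3
      · have h3 : (y + s) ^ m - π = c * s ^ 2 := by
          have h4 : (m : F) * y ^ (m - 1) * s = -e := by
            rw [hs]
            field_simp
          rw [hc2, h4, he]
          ring
        rw [h3, map_mul, map_pow]
        calc val c * val s ^ 2 ≤ 1 * (val (m : F) * exp (-((n : ℤ) + 1))) ^ 2 := mul_le_mul' hc1 (pow_le_pow_left' he2 2)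
          _ = val (m : F) ^ 2 * exp (-((n : ℤ) + 1) + -((n : ℤ) + 1)) := by
            rw [one_mul, exp_add, mul_pow, pow_two (exp _)]
          _ ≤ val (m : F) ^ 2 * exp (-(((n + 1 : ℕ) : ℤ) + 1)) := by
            refine mul_le_mul_right (α := ℤᵐ⁰) ?_ _
            rw [exp_le_exp]
            push_cast
            omega
  intro N
  obtain ⟨y, -, hy⟩ := key N
  refine ⟨y, ?_⟩
  rw [← Valuation.map_neg, neg_sub]
  refine lt_of_le_of_lt hy ?_
  calc val (m : F) ^ 2 * exp (-((N : ℤ) + 1)) ≤ 1 * exp (-((N : ℤ) + 1)) := mul_le_mul_left (α := ℤᵐ⁰) hv41 _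
    _ < exp (-(N : ℤ)) := by
      rw [one_mul, exp_lt_exp]
      omega

end H45P
end
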