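import Mathlib

/-! Merged copies (to shorten the build) of Lib.CFT.L3, Lib.H34Z.GD, Lib.H86N.Q6, Lib.H76P.C0, Lib.H76P.C1, Lib.H76P.C2, Lib.H76P.C3, Lib.H76P.C4, Lib.H76P.C5, Lib.H76P.C6, Lib.H76P.C7. -/

-- from Lib.CFT.L3
section

/-! # CFT, module ZL, part 3: a smooth partition of unity for the action of a group of units

part_smooth: for a subgroup E of finite index in the units there is w : mixedSpace K → ℝ, smooth on the nonzero vectors, homogeneous of degree 0, with support
in a region ‖x‖^d ≤ A norm x, such that the sum of the w (u x), u in E, is 1 for all x with norm x ≠ 0. -/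

open NumberField NumberField.InfinitePlace NumberField.mixedEmbedding
open scoped ContDiff

namespace CFTL

open scoped Classical

variable {K : Type} [Field K] [NumberField K]

/-- The sum of the squares of the coordinates. -/
noncomputable def Qf (x : mixedSpace K) : ℝ := ∑ w : InfinitePlace K, normAtPlace w x ^ 2

/-- The square of the norm. -/
noncomputable def Pf (x : mixedSpace K) : ℝ := ∏ w : InfinitePlace K, (normAtPlace w x ^ 2) ^ w.mult

theorem Pf_eq (x : mixedSpace K) : Pf x = mixedEmbedding.norm x ^ 2 := by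
  unfold Pf
  rw [mixedEmbedding.norm_apply, ← Finset.prod_pow]
  refine Finset.prod_congr rfl fun w _ => ?_
  rw [← pow_mul, ← pow_mul, mul_comm]

theorem cd_sq (w : InfinitePlace K) : ContDiff ℝ ∞ fun x : mixedSpace K => normAtPlace w x ^ 2 := by
  rcases w.isReal_or_isComplex with h | h
  · have h1 : (fun x : mixedSpace K => normAtPlace w x ^ 2) = fun x => (x.1 ⟨w, h⟩) ^ 2 := by
      funext x
      rw [normAtPlace_apply_of_isReal h, Real.norm_eq_abs, sq_abs]
    rw [h1]
    exact ((contDiff_apply ℝ ℝ (⟨w, h⟩ : {w : InfinitePlace K // IsReal w})).comp contDiff_fst).pow 2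
  · have h1 : (fun x : mixedSpace K => normAtPlace w x ^ 2) = fun x => ‖x.2 ⟨w, h⟩‖ ^ 2 := by
      funext x
      rw [normAtPlace_apply_of_isComplex h]
    rw [h1]
    exact ((contDiff_apply ℝ ℂ (⟨w, h⟩ : {w : InfinitePlace K // IsComplex w})).comp contDiff_snd).norm_sq ℝ

theorem cd_Qf : ContDiff ℝ ∞ (Qf : mixedSpace K → ℝ) := by
  unfold Qf
  exact ContDiff.sum fun w _ => cd_sq w

theorem cd_Pf : ContDiff ℝ ∞ (Pf : mixedSpace K → ℝ) := by
  unfold Pf
  exact contDiff_prod fun w _ => (cd_sq w).pow _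

theorem place_le (x : mixedSpace K) (w : InfinitePlace K) : normAtPlace w x ≤ ‖x‖ := by
  rw [norm_eq_sup'_normAtPlace]
  exact Finset.le_sup' (fun w => normAtPlace w x) (Finset.mem_univ w)

theorem norm_sq_le (x : mixedSpace K) : ‖x‖ ^ 2 ≤ Qf x := by
  obtain ⟨w, -, hw⟩ := Finset.exists_mem_eq_sup' (Finset.univ_nonempty (α := InfinitePlace K)) (fun w => normAtPlace w x)
  rw [norm_eq_sup'_normAtPlace, hw]
  exact Finset.single_le_sum (f := fun w => normAtPlace w x ^ 2) (fun w _ => sq_nonneg _) (Finset.mem_univ w)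

theorem Qf_le (x : mixedSpace K) : Qf x ≤ Fintype.card (InfinitePlace K) * ‖x‖ ^ 2 := by
  unfold Qf
  calc ∑ w : InfinitePlace K, normAtPlace w x ^ 2 ≤ ∑ _w : InfinitePlace K, ‖x‖ ^ 2 :=
        Finset.sum_le_sum fun w _ => pow_le_pow_left₀ (normAtPlace_nonneg w x) (place_le x w) 2
    _ = Fintype.card (InfinitePlace K) * ‖x‖ ^ 2 := by
        rw [Finset.sum_const, Finset.card_univ, nsmul_eq_mul]

theorem Qf_pos {x : mixedSpace K} (hx : x ≠ 0) : 0 < Qf x :=
  lt_of_lt_of_le (by positivity) (norm_sq_le x)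

theorem Qf_smul (t : ℝ) (x : mixedSpace K) : Qf (t • x) = t ^ 2 * Qf x := by
  unfold Qf
  rw [Finset.mul_sum]
  refine Finset.sum_congr rfl fun w _ => ?_
  rw [normAtPlace_smul, mul_pow, sq_abs]

theorem Pf_smul (t : ℝ) (x : mixedSpace K) : Pf (t • x) = (t ^ 2) ^ Module.finrank ℚ K * Pf x := by
  rw [Pf_eq, Pf_eq, mixedEmbedding.norm_smul, mul_pow, ← pow_mul, ← pow_mul, mul_comm 2, pow_mul |t|, pow_mul t]
  congr 1
  rw [← pow_mul, ← pow_mul, mul_comm, pow_mul, pow_mul, sq_abs]

/-- The ratio. -/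
noncomputable def rat (x : mixedSpace K) : ℝ := Pf x / Qf x ^ Module.finrank ℚ K

/-- The cut-off function. -/
noncomputable def cut (δ : ℝ) (x : mixedSpace K) : ℝ := Real.smoothTransition (rat x / δ - 1)

theorem rat_smul {t : ℝ} (ht : t ≠ 0) (x : mixedSpace K) : rat (t • x) = rat x := by
  unfold rat
  rw [Pf_smul, Qf_smul, mul_pow]
  exact mul_div_mul_left _ _ (pow_ne_zero _ (pow_ne_zero _ ht))

theorem cd_rat : ContDiffOn ℝ ∞ (rat : mixedSpace K → ℝ) {0}ᶜ := by
  unfold rat
  refine cd_Pf.contDiffOn.div (cd_Qf.contDiffOn.pow _) fun x hx => ?_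
  exact pow_ne_zero _ (Qf_pos hx).ne'

theorem cd_cut (δ : ℝ) : ContDiffOn ℝ ∞ (cut δ : mixedSpace K → ℝ) {0}ᶜ := by
  unfold cut
  exact (Real.smoothTransition.contDiff (n := ⊤)).comp_contDiffOn ((cd_rat.div_const δ).sub contDiffOn_const)

theorem cut_nonneg (δ : ℝ) (x : mixedSpace K) : 0 ≤ cut δ x := Real.smoothTransition.nonneg _

theorem cut_zero {δ : ℝ} (hδ : 0 < δ) {x : mixedSpace K} (h : rat x ≤ δ) : cut δ x = 0 := by
  unfold cut
  refine Real.smoothTransition.zero_of_nonpos ?_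
  have h1 : rat x / δ ≤ 1 := (div_le_one hδ).2 h
  linarith

theorem cut_one {δ : ℝ} (hδ : 0 < δ) {x : mixedSpace K} (h : 2 * δ ≤ rat x) : cut δ x = 1 := by
  unfold cut
  refine Real.smoothTransition.one_of_one_le ?_
  have h1 : 2 ≤ rat x / δ := (le_div_iff₀ hδ).2 h
  linarith

/-- In the support of the cut-off function the coordinates are comparable. -/
theorem cut_supp {δ : ℝ} (hδ : 0 < δ) {x : mixedSpace K} (h : cut δ x ≠ 0) :
    ‖x‖ ^ Module.finrank ℚ K ≤ (Real.sqrt δ)⁻¹ * mixedEmbedding.norm x := by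
  have h1 : δ < rat x := by
    by_contra h2
    exact h (cut_zero hδ (not_lt.1 h2))
  have hx : x ≠ 0 := by
    rintro rfl
    have h3 : rat (0 : mixedSpace K) = 0 := by
      unfold rat
      rw [Pf_eq, map_zero]
      simp
    rw [h3] at h1
    linarith
  have h2 : δ * Qf x ^ Module.finrank ℚ K < Pf x := (lt_div_iff₀ (pow_pos (Qf_pos hx) _)).1 h1
  rw [Pf_eq] at h2
  have h3 : δ * (‖x‖ ^ Module.finrank ℚ K) ^ 2 ≤ mixedEmbedding.norm x ^ 2 := by
    refine le_trans (mul_le_mul_of_nonneg_left ?_ hδ.le) h2.le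
    rw [← pow_mul, mul_comm, pow_mul]
    exact pow_le_pow_left₀ (by positivity) (norm_sq_le x) _
  have h4 : (Real.sqrt δ * ‖x‖ ^ Module.finrank ℚ K) ^ 2 ≤ mixedEmbedding.norm x ^ 2 := by
    rw [mul_pow, Real.sq_sqrt hδ.le]
    exact h3
  have h5 := le_of_sq_le_sq h4 (mixedEmbedding.norm_nonneg x)
  have h6 : 0 < Real.sqrt δ := Real.sqrt_pos.2 hδ
  rw [inv_mul_eq_div, le_div_iff₀ h6, mul_comm]
  exact h5

/-- Balanced vectors are in the support. -/
theorem cut_bal {C : ℝ} (hC : 0 < C) : ∃ δ : ℝ, 0 < δ ∧ ∀ x : mixedSpace K, mixedEmbedding.norm x ≠ 0 →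
    ‖x‖ ^ Module.finrank ℚ K ≤ C * mixedEmbedding.norm x → cut δ x = 1 := by
  obtain ⟨r, hr⟩ : ∃ r : ℝ, r = (Fintype.card (InfinitePlace K) : ℝ) := ⟨_, rfl⟩
  have hr0 : 0 < r := by
    rw [hr]
    exact_mod_cast Fintype.card_pos
  refine ⟨(2 * (r ^ Module.finrank ℚ K * C ^ 2))⁻¹, by positivity, fun x hx h => cut_one (by positivity) ?_⟩
  have hx0 : x ≠ 0 := by
    rintro rfl
    exact hx (map_zero _)
  have h1 : Qf x ^ Module.finrank ℚ K ≤ r ^ Module.finrank ℚ K * C ^ 2 * Pf x := by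
    calc Qf x ^ Module.finrank ℚ K ≤ (r * ‖x‖ ^ 2) ^ Module.finrank ℚ K :=
          pow_le_pow_left₀ (Qf_pos hx0).le (by rw [hr]; exact Qf_le x) _
      _ = r ^ Module.finrank ℚ K * (‖x‖ ^ Module.finrank ℚ K) ^ 2 := by
        rw [mul_pow, ← pow_mul, ← pow_mul, mul_comm 2]
      _ ≤ r ^ Module.finrank ℚ K * (C * mixedEmbedding.norm x) ^ 2 := by
        refine mul_le_mul_of_nonneg_left (pow_le_pow_left₀ (by positivity) h 2) (by positivity)
      _ = r ^ Module.finrank ℚ K * C ^ 2 * Pf x := by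
        rw [Pf_eq, mul_pow]
        ring
  unfold rat
  rw [le_div_iff₀ (pow_pos (Qf_pos hx0) _)]
  have h2 : 2 * (2 * (r ^ Module.finrank ℚ K * C ^ 2))⁻¹ = (r ^ Module.finrank ℚ K * C ^ 2)⁻¹ := by
    rw [mul_inv]
    ring
  rw [h2, inv_mul_le_iff₀ (by positivity)]
  exact h1

theorem place_unit_smul (w : InfinitePlace K) (u : (𝓞 K)ˣ) (x : mixedSpace K) :
    normAtPlace w (u • x) = w ((u : 𝓞 K) : K) * normAtPlace w x := by
  rw [unitSMul_smul, map_mul, normAtPlace_apply]

/-- Every vector can be balanced by a unit. -/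
theorem cocomp_all (K : Type) [Field K] [NumberField K] : ∃ C : ℝ, 0 < C ∧ ∀ x : mixedSpace K, mixedEmbedding.norm x ≠ 0 →
    ∃ u : (𝓞 K)ˣ, ‖u • x‖ ^ Module.finrank ℚ K ≤ C * mixedEmbedding.norm x := by
  obtain ⟨B, hB⟩ := isBounded_iff_forall_norm_le.1 (fundamentalCone.isBounded_normLeOne (K := K))
  have hd : (Module.finrank ℚ K : ℝ) ≠ 0 := by
    exact_mod_cast (Module.finrank_pos (R := ℚ) (M := K)).ne'
  refine ⟨(|B| + 1) ^ Module.finrank ℚ K, by positivity, fun x hx => ?_⟩
  obtain ⟨u, hu⟩ := fundamentalCone.exists_unit_smul_mem hx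
  refine ⟨u, ?_⟩
  have hn : 0 < mixedEmbedding.norm x := lt_of_le_of_ne (mixedEmbedding.norm_nonneg x) (Ne.symm hx)
  set n := mixedEmbedding.norm x with hn'
  set c : ℝ := n ^ (-(1 / (Module.finrank ℚ K : ℝ))) with hc
  have hc0 : 0 < c := Real.rpow_pos_of_pos hn _
  have hcd : c ^ Module.finrank ℚ K = n⁻¹ := by
    rw [hc, ← Real.rpow_natCast, ← Real.rpow_mul hn.le]
    rw [neg_mul, one_div, inv_mul_cancel₀ hd, Real.rpow_neg_one]
  have h1 : c • (u • x) ∈ fundamentalCone.normLeOne K := by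
    refine ⟨fundamentalCone.smul_mem_of_mem hu hc0.ne', ?_⟩
    show mixedEmbedding.norm (c • (u • x)) ≤ 1
    rw [mixedEmbedding.norm_smul, mixedEmbedding.norm_unit_smul, abs_of_pos hc0, hcd, ← hn', inv_mul_cancel₀ hn.ne']
  have h2 := hB _ h1
  rw [_root_.norm_smul, Real.norm_of_nonneg hc0.le] at h2
  have h3 : (c * ‖u • x‖) ^ Module.finrank ℚ K ≤ (|B| + 1) ^ Module.finrank ℚ K :=
    pow_le_pow_left₀ (by positivity) (h2.trans (by linarith [le_abs_self B])) _
  rw [mul_pow, hcd, inv_mul_le_iff₀ hn, mul_comm n] at h3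
  exact h3

theorem cocomp_sub (E : Subgroup (𝓞 K)ˣ) [E.FiniteIndex] : ∃ C : ℝ, 0 < C ∧ ∀ x : mixedSpace K, mixedEmbedding.norm x ≠ 0 →
    ∃ u ∈ E, ‖u • x‖ ^ Module.finrank ℚ K ≤ C * mixedEmbedding.norm x := by

  obtain ⟨C, hC, h⟩ := cocomp_all K
  have hfin : Finite ((𝓞 K)ˣ ⧸ E) := Subgroup.finite_quotient_of_finiteIndex
  have := Fintype.ofFinite ((𝓞 K)ˣ ⧸ E)
  set M : ℝ := ∑ q : (𝓞 K)ˣ ⧸ E, ‖mixedEmbedding K (((q.out⁻¹ : (𝓞 K)ˣ) : 𝓞 K) : K)‖ with hM
  have hM0 : 0 ≤ M := Finset.sum_nonneg fun _ _ => norm_nonneg _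
  refine ⟨(M + 1) ^ Module.finrank ℚ K * C, by positivity, fun x hx => ?_⟩
  obtain ⟨u, hu⟩ := h x hx
  set q : (𝓞 K)ˣ ⧸ E := QuotientGroup.mk u with hq
  have h1 : q.out⁻¹ * u ∈ E := by
    rw [← QuotientGroup.eq]
    exact QuotientGroup.out_eq' q
  refine ⟨q.out⁻¹ * u, h1, ?_⟩
  have h2 : ‖(q.out⁻¹ * u) • x‖ ≤ M * ‖u • x‖ := by
    rw [mul_smul]
    have h3 : ‖q.out⁻¹ • (u • x)‖ ≤ ‖mixedEmbedding K (((q.out⁻¹ : (𝓞 K)ˣ) : 𝓞 K) : K)‖ * ‖u • x‖ := by
      rw [norm_eq_sup'_normAtPlace]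
      refine Finset.sup'_le _ _ fun w _ => ?_
      rw [place_unit_smul, ← normAtPlace_apply]
      exact mul_le_mul (place_le _ w) (place_le _ w) (normAtPlace_nonneg _ _) (norm_nonneg _)
    refine h3.trans (mul_le_mul_of_nonneg_right ?_ (norm_nonneg _))
    exact Finset.single_le_sum (f := fun q : (𝓞 K)ˣ ⧸ E => ‖mixedEmbedding K (((q.out⁻¹ : (𝓞 K)ˣ) : 𝓞 K) : K)‖)
      (fun _ _ => norm_nonneg _) (Finset.mem_univ q)
  calc ‖(q.out⁻¹ * u) • x‖ ^ Module.finrank ℚ K ≤ ((M + 1) * ‖u • x‖) ^ Module.finrank ℚ K := by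
        refine pow_le_pow_left₀ (norm_nonneg _) (h2.trans ?_) _
        exact mul_le_mul_of_nonneg_right (by linarith) (norm_nonneg _)
    _ = (M + 1) ^ Module.finrank ℚ K * ‖u • x‖ ^ Module.finrank ℚ K := mul_pow _ _ _
    _ ≤ (M + 1) ^ Module.finrank ℚ K * (C * mixedEmbedding.norm x) := mul_le_mul_of_nonneg_left hu (by positivity)
    _ = (M + 1) ^ Module.finrank ℚ K * C * mixedEmbedding.norm x := by ring

/-- Units with bounded absolute values. -/
theorem units_fin (B : ℝ) : {u : (𝓞 K)ˣ | ∀ w : InfinitePlace K, w ((u : 𝓞 K) : K) ≤ B}.Finite := by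
  have h1 := NumberField.Embeddings.finite_of_norm_le K ℂ B
  refine Set.Finite.of_finite_image (f := fun u : (𝓞 K)ˣ => ((u : 𝓞 K) : K)) (h1.subset ?_) ?_
  · rintro _ ⟨u, hu, rfl⟩
    refine ⟨(u : 𝓞 K).isIntegral_coe, fun φ => ?_⟩
    have h2 := hu (InfinitePlace.mk φ)
    rwa [InfinitePlace.apply] at h2
  · intro u _ v _ h
    exact Units.ext (RingOfIntegers.ext h)

/-- Local finiteness. -/
theorem loc_fin {A : ℝ} {φ : mixedSpace K → ℝ} (hφ : ∀ x, φ x ≠ 0 → ‖x‖ ^ Module.finrank ℚ K ≤ A * mixedEmbedding.norm x)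
    {x₀ : mixedSpace K} (hx₀ : mixedEmbedding.norm x₀ ≠ 0) : ∃ F : Finset (𝓞 K)ˣ, ∀ᶠ x in nhds x₀,
      ∀ u : (𝓞 K)ˣ, u ∉ F → φ (u • x) = 0 := by
  have hp : ∀ w : InfinitePlace K, 0 < normAtPlace w x₀ := fun w =>
    lt_of_le_of_ne (normAtPlace_nonneg w x₀) (Ne.symm (mixedEmbedding.norm_ne_zero_iff.1 hx₀ w))
  obtain ⟨c, hc0, hc⟩ : ∃ c : ℝ, 0 < c ∧ ∀ w : InfinitePlace K, c < normAtPlace w x₀ := by
    obtain ⟨w₁, -, h1⟩ := Finset.exists_min_image Finset.univ (fun w : InfinitePlace K => normAtPlace w x₀) Finset.univ_nonempty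
    exact ⟨normAtPlace w₁ x₀ / 2, by linarith [hp w₁], fun w => by
      have := h1 w (Finset.mem_univ w)
      linarith [hp w₁]⟩
  set N₁ : ℝ := mixedEmbedding.norm x₀ + 1 with hN₁
  have hN : 0 ≤ mixedEmbedding.norm x₀ := mixedEmbedding.norm_nonneg x₀
  set B : ℝ := (|A| * N₁ + 1) / c with hB
  refine ⟨(units_fin (K := K) B).toFinset, ?_⟩
  have hev1 : ∀ᶠ x in nhds x₀, ∀ w : InfinitePlace K, c < normAtPlace w x := by
    rw [Filter.eventually_all]
    intro w
    exact (continuous_normAtPlace w).continuousAt.eventually_const_lt (hc w)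
  have hev2 : ∀ᶠ x in nhds x₀, mixedEmbedding.norm x < N₁ :=
    (mixedEmbedding.continuous_norm K).continuousAt.eventually_lt_const (by rw [hN₁]; linarith)
  filter_upwards [hev1, hev2] with x hx1 hx2 u hu
  by_contra hne
  apply hu
  rw [Set.Finite.mem_toFinset]
  intro w
  have h1 := hφ _ hne
  rw [mixedEmbedding.norm_unit_smul] at h1
  have h2 : A * mixedEmbedding.norm x ≤ |A| * N₁ :=
    mul_le_mul (le_abs_self A) hx2.le (mixedEmbedding.norm_nonneg x) (abs_nonneg A)
  have h3 : ‖u • x‖ ≤ |A| * N₁ + 1 := by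
    by_contra h4
    push Not at h4
    have h5 : 0 ≤ |A| * N₁ := by positivity
    have h6 : 1 ≤ ‖u • x‖ := by linarith
    have h7 : ‖u • x‖ ≤ ‖u • x‖ ^ Module.finrank ℚ K := le_self_pow₀ h6 (Module.finrank_pos (R := ℚ) (M := K)).ne'
    linarith
  have h4 : w ((u : 𝓞 K) : K) * normAtPlace w x ≤ |A| * N₁ + 1 := by
    rw [← place_unit_smul]
    exact (place_le _ w).trans h3
  rw [hB, le_div_iff₀ hc0]
  refine le_trans (mul_le_mul_of_nonneg_left (hx1 w).le (apply_nonneg w _)) h4

/-- THE SMOOTH PARTITION OF UNITY. -/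
theorem part_smooth (E : Subgroup (𝓞 K)ˣ) [E.FiniteIndex] : ∃ (w : mixedSpace K → ℝ) (A : ℝ), 0 < A ∧
    ContDiffOn ℝ ∞ w {0}ᶜ ∧ (∀ (t : ℝ) (x : mixedSpace K), 0 < t → w (t • x) = w x) ∧ (∀ x, 0 ≤ w x ∧ w x ≤ 1) ∧
    (∀ x, w x ≠ 0 → ‖x‖ ^ Module.finrank ℚ K ≤ A * mixedEmbedding.norm x) ∧
    (∀ x, x ≠ 0 → mixedEmbedding.norm x = 0 → ∀ᶠ y in nhds x, w y = 0) ∧ w 0 = 0 ∧
    ∀ x, mixedEmbedding.norm x ≠ 0 → HasSum (fun u : E => w ((u : (𝓞 K)ˣ) • x)) 1 := by

  obtain ⟨C, hC, hcc⟩ := cocomp_sub E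
  obtain ⟨δ, hδ, hbal⟩ := cut_bal (K := K) hC
  set W : mixedSpace K → ℝ := fun x => ∑' u : E, cut δ ((u : (𝓞 K)ˣ) • x) with hW
  have hlf : ∀ x₀ : mixedSpace K, mixedEmbedding.norm x₀ ≠ 0 → ∃ F : Finset E, ∀ᶠ x in nhds x₀,
      ∀ u : E, u ∉ F → cut δ ((u : (𝓞 K)ˣ) • x) = 0 := by
    intro x₀ hx₀
    obtain ⟨F, hF⟩ := loc_fin (φ := cut δ) (fun x hx => cut_supp hδ hx) hx₀
    refine ⟨F.subtype (· ∈ E), ?_⟩
    filter_upwards [hF] with x hx u hu
    exact hx u fun h => hu (Finset.mem_subtype.2 h)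
  have hsumm : ∀ x : mixedSpace K, mixedEmbedding.norm x ≠ 0 → Summable fun u : E => cut δ ((u : (𝓞 K)ˣ) • x) := by
    intro x hx
    obtain ⟨F, hF⟩ := hlf x hx
    exact summable_of_ne_finset_zero (s := F) fun u hu => hF.self_of_nhds u hu
  have hge : ∀ x : mixedSpace K, mixedEmbedding.norm x ≠ 0 → 1 ≤ W x := by
    intro x hx
    obtain ⟨u, hu, h1⟩ := hcc x hx
    have h2 : cut δ (u • x) = 1 := hbal (u • x) (by rwa [mixedEmbedding.norm_unit_smul])
      (by rwa [mixedEmbedding.norm_unit_smul])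
    have h3 := (hsumm x hx).le_tsum (⟨u, hu⟩ : E) fun v _ => cut_nonneg δ _
    rw [← h2]
    exact h3
  have hWinv : ∀ (v : (𝓞 K)ˣ) (_ : v ∈ E) (x : mixedSpace K), W (v • x) = W x := by
    intro v hv x
    rw [hW]
    simp only
    rw [← (Equiv.mulRight (⟨v, hv⟩ : E)).tsum_eq (fun u : E => cut δ ((u : (𝓞 K)ˣ) • x))]
    refine tsum_congr fun u => ?_
    simp [mul_smul]
  have hcW : ∀ x₀ : mixedSpace K, mixedEmbedding.norm x₀ ≠ 0 → ContDiffAt ℝ ∞ W x₀ := by
    intro x₀ hx₀
    obtain ⟨F, hF⟩ := hlf x₀ hx₀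
    have h1 : W =ᶠ[nhds x₀] fun x => ∑ u ∈ F, cut δ ((u : (𝓞 K)ˣ) • x) := by
      filter_upwards [hF] with x hx
      exact tsum_eq_sum fun u hu => hx u hu
    refine ContDiffAt.congr_of_eventuallyEq ?_ h1
    refine ContDiffAt.sum fun u _ => ?_
    have hx0 : ((u : (𝓞 K)ˣ) • x₀) ≠ 0 := by
      intro h
      have h2 := mixedEmbedding.norm_unit_smul (u : (𝓞 K)ˣ) x₀
      rw [h, map_zero] at h2
      exact hx₀ h2.symm
    have h3 : ContDiffAt ℝ ∞ (cut δ : mixedSpace K → ℝ) ((u : (𝓞 K)ˣ) • x₀) :=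
      (cd_cut δ).contDiffAt (isOpen_compl_singleton.mem_nhds hx0)
    have h4 : ContDiff ℝ ∞ fun x : mixedSpace K => (u : (𝓞 K)ˣ) • x := by
      exact (contDiff_const (c := mixedEmbedding K (((u : (𝓞 K)ˣ) : 𝓞 K) : K))).mul contDiff_id
    exact h3.comp x₀ h4.contDiffAt
  -- near a vector of norm 0
  have hzero : ∀ x : mixedSpace K, x ≠ 0 → mixedEmbedding.norm x = 0 → ∀ᶠ y in nhds x, cut δ y = 0 := by
    intro x hx h0
    have h1 : rat x = 0 := by
      unfold rat
      rw [Pf_eq, h0]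
      simp
    have h2 : ContinuousAt (rat : mixedSpace K → ℝ) x :=
      (cd_rat.contDiffAt (isOpen_compl_singleton.mem_nhds hx)).continuousAt
    have h3 : ∀ᶠ y in nhds x, rat y < δ := h2.eventually_lt_const (by rw [h1]; exact hδ)
    filter_upwards [h3] with y hy
    exact cut_zero hδ hy.le
  obtain ⟨w, hw⟩ : ∃ w : mixedSpace K → ℝ, w = fun x => if mixedEmbedding.norm x = 0 then 0 else cut δ x / W x := ⟨_, rfl⟩
  have hw1 : ∀ x, mixedEmbedding.norm x ≠ 0 → w x = cut δ x / W x := fun x hx => by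
    rw [hw]
    exact if_neg hx
  have hw0 : ∀ x, mixedEmbedding.norm x = 0 → w x = 0 := fun x hx => by
    rw [hw]
    exact if_pos hx
  have hcn : Continuous (mixedEmbedding.norm : mixedSpace K → ℝ) := mixedEmbedding.continuous_norm K
  have hwz : ∀ x : mixedSpace K, x ≠ 0 → mixedEmbedding.norm x = 0 → ∀ᶠ y in nhds x, w y = 0 := by
    intro x hx h0
    filter_upwards [hzero x hx h0] with y hy
    by_cases h1 : mixedEmbedding.norm y = 0
    · exact hw0 y h1
    · rw [hw1 y h1, hy, zero_div]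
  refine ⟨w, (Real.sqrt δ)⁻¹, inv_pos.2 (Real.sqrt_pos.2 hδ), ?_, ?_, ?_, ?_, hwz, ?_, ?_⟩
  · intro x hx
    refine ContDiffAt.contDiffWithinAt ?_
    by_cases h0 : mixedEmbedding.norm x = 0
    · exact (contDiffAt_const (c := (0 : ℝ))).congr_of_eventuallyEq (hwz x hx h0)
    · have h1 : w =ᶠ[nhds x] fun y => cut δ y / W y := by
        have h2 : ∀ᶠ y in nhds x, mixedEmbedding.norm y ≠ 0 := hcn.continuousAt.eventually_ne h0
        filter_upwards [h2] with y hy
        exact hw1 y hy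
      refine ContDiffAt.congr_of_eventuallyEq ?_ h1
      refine ((cd_cut δ).contDiffAt (isOpen_compl_singleton.mem_nhds hx)).div (hcW x h0) ?_
      linarith [hge x h0]
  · intro t x ht
    have hnt : mixedEmbedding.norm (t • x) = |t| ^ Module.finrank ℚ K * mixedEmbedding.norm x := mixedEmbedding.norm_smul t x
    by_cases h0 : mixedEmbedding.norm x = 0
    · rw [hw0 x h0, hw0 (t • x) (by rw [hnt, h0, mul_zero])]
    · have h1 : mixedEmbedding.norm (t • x) ≠ 0 := by
        rw [hnt]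
        exact mul_ne_zero (pow_ne_zero _ (abs_ne_zero.2 ht.ne')) h0
      have hcs : ∀ y : mixedSpace K, cut δ (t • y) = cut δ y := fun y => by
        unfold cut
        rw [rat_smul ht.ne']
      rw [hw1 x h0, hw1 _ h1, hcs]
      congr 1
      rw [hW]
      refine tsum_congr fun u => ?_
      have h2 : (u : (𝓞 K)ˣ) • (t • x) = t • ((u : (𝓞 K)ˣ) • x) := by
        show mixedEmbedding K (((u : (𝓞 K)ˣ) : 𝓞 K) : K) * (t • x) = t • (mixedEmbedding K (((u : (𝓞 K)ˣ) : 𝓞 K) : K) * x)
        exact mul_smul_comm _ _ _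
      rw [h2, hcs]
  · intro x
    by_cases h0 : mixedEmbedding.norm x = 0
    · rw [hw0 x h0]
      exact ⟨le_rfl, zero_le_one⟩
    · rw [hw1 x h0]
      have h1 := hge x h0
      have h2 : cut δ x ≤ 1 := Real.smoothTransition.le_one _
      exact ⟨div_nonneg (cut_nonneg _ _) (by linarith), (div_le_one (by linarith)).2 (by linarith)⟩
  · intro x hx
    have h0 : mixedEmbedding.norm x ≠ 0 := fun h => hx (hw0 x h)
    refine cut_supp hδ fun h => hx ?_
    rw [hw1 x h0, h, zero_div]
  · exact hw0 0 (map_zero _)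
  · intro x hx
    have h1 : ∀ u : E, w ((u : (𝓞 K)ˣ) • x) = cut δ ((u : (𝓞 K)ˣ) • x) / W x := by
      intro u
      rw [hw1 _ (by rwa [mixedEmbedding.norm_unit_smul]), hWinv _ u.2]
    have h2 := ((hsumm x hx).hasSum).div_const (W x)
    have h3 : W x ≠ 0 := by linarith [hge x hx]
    have h4 : (∑' u : E, cut δ ((u : (𝓞 K)ˣ) • x)) / W x = 1 := div_self h3
    rw [h4] at h2
    exact h2.congr_fun h1

end CFTL
end

-- from Lib.H34Z.GD
section

/-!
# GD: definitions for the generation of the classical groups by the elements 1 + N, N of square zero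
-/

set_option autoImplicit false
set_option linter.unusedSectionVars false
namespace Pool.Agent.H34Z
open Matrix

/-- A set of matrices closed under products, which contains `1 + N` for all `N` of square zero which are skew for `J`. -/
structure Zs {κ : Type*} [Fintype κ] [DecidableEq κ] {K : Type*} [Field K] (J : Matrix κ κ K) (Z : Set (Matrix κ κ K)) : Prop where
  one : (1 : Matrix κ κ K) ∈ Z
  mul : ∀ a ∈ Z, ∀ b ∈ Z, a * b ∈ Z
  exp : ∀ N : Matrix κ κ K, N * N = 0 → Nᵀ * J + J * N = 0 → 1 + N ∈ Z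

variable (m : Type*) [Fintype m] [DecidableEq m] (K : Type*) [Field K]

/-- The standard symmetric form on `K ^ (m ⊕ m)`. -/
def J0 : Matrix (m ⊕ m) (m ⊕ m) K := Matrix.fromBlocks 0 1 1 0

variable {m K}

/-- The element of the Levi subgroup. -/
noncomputable def lv (a : Matrix m m K) : Matrix (m ⊕ m) (m ⊕ m) K := Matrix.fromBlocks a 0 0 (a⁻¹)ᵀ

/-- upper unipotent element -/
def up (b : Matrix m m K) : Matrix (m ⊕ m) (m ⊕ m) K := Matrix.fromBlocks 1 b 0 1

/-- lower unipotent element -/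
def lo (c : Matrix m m K) : Matrix (m ⊕ m) (m ⊕ m) K := Matrix.fromBlocks 1 0 c 1

/-- The element which exchanges the basis vectors `inl k` and `inr k` for `k ∈ T`. -/
def sw (K : Type*) [Field K] (T : Finset m) : Matrix (m ⊕ m) (m ⊕ m) K :=
  Matrix.fromBlocks (Matrix.diagonal fun k => if k ∈ T then 0 else 1) (Matrix.diagonal fun k => if k ∈ T then 1 else 0)
    (Matrix.diagonal fun k => if k ∈ T then 1 else 0) (Matrix.diagonal fun k => if k ∈ T then 0 else 1)

end Pool.Agent.H34Z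
end

-- from Lib.H86N.Q6
section

/-!
# Q6: a linear family of pairs with scalar products
-/

set_option autoImplicit false
namespace Pool.Agent.H86N
open Module

variable {K : Type*} [Field K] {U : Type*} [AddCommGroup U] [Module K U]

theorem q6_nonscalar [FiniteDimensional K U] (h2 : 2 ≤ finrank K U) :
    ∃ a : Module.End K U, ∀ t : K, a ≠ t • 1 := by
  set b := Module.finBasis K U with hb
  let i0 : Fin (finrank K U) := ⟨0, by omega⟩
  let i1 : Fin (finrank K U) := ⟨1, by omega⟩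
  have h01 : i0 ≠ i1 := by
    intro h
    exact absurd (Fin.mk.inj_iff.1 h) (by norm_num)
  refine ⟨b.constr K fun i => if i = i0 then b i0 else 0, fun t ht => ?_⟩
  have e0 := LinearMap.congr_fun ht (b i0)
  have e1 := LinearMap.congr_fun ht (b i1)
  rw [b.constr_basis, if_pos rfl, LinearMap.smul_apply, Module.End.one_apply] at e0
  rw [b.constr_basis, if_neg (Ne.symm h01), LinearMap.smul_apply, Module.End.one_apply] at e1
  have ht0 : t = 0 := by
    rcases smul_eq_zero.1 e1.symm with h | h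
    · exact h
    · exact absurd h (b.ne_zero i1)
  rw [ht0, zero_smul] at e0
  exact b.ne_zero i0 e0

/-- A linear family of pairs of operators with scalar products, which contains all first operators and the pair
`(1, -1)`: the space has dimension at most two. -/
theorem q6_quad [CharZero K] [FiniteDimensional K U] (h2 : 2 ≤ finrank K U)
    (W : Submodule K (Module.End K U × Module.End K U)) (h1 : ∀ w ∈ W, ∃ c : K, w.1 * w.2 = c • 1)
    (honto : ∀ a, ∃ b, (a, b) ∈ W) (h0 : (1, -1) ∈ W) :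
    finrank K U = 2 ∧ ∀ w ∈ W, w.2 = w.1 - LinearMap.trace K U w.1 • 1 := by
  obtain ⟨a₀, ha₀⟩ := q6_nonscalar (K := K) h2
  -- the second operator differs from the first by a scalar
  have hpol : ∀ w ∈ W, ∃ t : K, w.2 = w.1 + t • 1 := by
    rintro ⟨a, b⟩ hw
    obtain ⟨c, hc⟩ := h1 _ hw
    obtain ⟨c', hc'⟩ := h1 _ (W.add_mem hw h0)
    simp only [Prod.fst_add, Prod.snd_add] at hc hc' ⊢
    refine ⟨c' - c + 1, ?_⟩
    have e1 : (a + 1) * (b + -1) = a * b - a + b - 1 := by noncomm_ring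
    rw [e1, hc] at hc'
    have e2 : b = c' • (1 : Module.End K U) - c • 1 + a + 1 := by rw [← hc']; abel
    rw [e2, add_smul, sub_smul, one_smul]
    abel
  -- every operator satisfies a quadratic equation
  have hquad : ∀ w ∈ W, ∃ t c : K, w.2 = w.1 + t • 1 ∧ w.1 * w.1 + t • w.1 = c • 1 := by
    intro w hw
    obtain ⟨t, ht⟩ := hpol w hw
    obtain ⟨c, hc⟩ := h1 w hw
    refine ⟨t, c, ht, ?_⟩
    rw [ht, mul_add, mul_smul_comm, mul_one] at hc
    exact hc
  have hdim : finrank K U = 2 := by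
    by_contra hne
    have h3 : 3 ≤ finrank K U := by omega
    set b := Module.finBasis K U with hb
    let i0 : Fin (finrank K U) := ⟨0, by omega⟩
    let i1 : Fin (finrank K U) := ⟨1, by omega⟩
    let i2 : Fin (finrank K U) := ⟨2, by omega⟩
    let a : Module.End K U := b.constr K fun i => ((i.1 : ℕ) : K) • b i
    have ha : ∀ i, a (b i) = ((i.1 : ℕ) : K) • b i := fun i => b.constr_basis K _ i
    obtain ⟨b', hb'⟩ := honto a
    obtain ⟨t, c, -, hq⟩ := hquad _ hb'
    have key : ∀ i : Fin (finrank K U), ((i.1 : ℕ) : K) * ((i.1 : ℕ) : K) + t * ((i.1 : ℕ) : K) - c = 0 := by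
      intro i
      have e1 := LinearMap.congr_fun hq (b i)
      simp only [LinearMap.add_apply, Module.End.mul_apply, LinearMap.smul_apply, Module.End.one_apply, ha,
        map_smul, smul_smul] at e1
      have e2 : (((i.1 : ℕ) : K) * ((i.1 : ℕ) : K) + t * ((i.1 : ℕ) : K) - c) • b i = 0 := by
        rw [sub_smul, add_smul, e1, sub_self]
      exact (smul_eq_zero.1 e2).resolve_right (b.ne_zero i)
    have k0 := key i0
    have k1 := key i1
    have k2 := key i2
    simp only [i0, i1, i2] at k0 k1 k2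
    push_cast at k0 k1 k2
    have hc : c = 0 := by linear_combination -k0
    have ht1 : t = -1 := by linear_combination k1 + hc
    have h4 : (2 : K) = 0 := by
      rw [hc, ht1] at k2
      linear_combination k2
    exact two_ne_zero h4
  refine ⟨hdim, ?_⟩
  -- Cayley-Hamilton
  have hCH : ∀ a : Module.End K U, ∃ d : K, a * a - LinearMap.trace K U a • a = d • 1 := by
    intro a
    have b := Module.finBasisOfFinrankEq K U hdim
    refine ⟨-(LinearMap.toMatrix b b a).det, ?_⟩
    apply (LinearMap.toMatrix b b).injective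
    rw [map_sub, map_smul, map_smul, LinearMap.toMatrix_mul, LinearMap.toMatrix_one, LinearMap.trace_eq_matrix_trace K b]
    ext i j
    rw [Matrix.det_fin_two, Matrix.trace_fin_two]
    fin_cases i <;> fin_cases j <;>
      simp [Matrix.mul_apply, Fin.sum_univ_two] <;> ring
  have hns : ∀ w ∈ W, (∀ t : K, w.1 ≠ t • 1) → w.2 = w.1 - LinearMap.trace K U w.1 • 1 := by
    intro w hw hn
    obtain ⟨t, c, ht, hq⟩ := hquad w hw
    obtain ⟨d, hd⟩ := hCH w.1
    have e1 : (t + LinearMap.trace K U w.1) • w.1 = (c - d) • 1 := by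
      rw [add_smul, sub_smul, ← hq, ← hd]
      abel
    have e2 : t + LinearMap.trace K U w.1 = 0 := by
      by_contra hne
      apply hn ((t + LinearMap.trace K U w.1)⁻¹ * (c - d))
      rw [← smul_smul, ← e1, smul_smul, inv_mul_cancel₀ hne, one_smul]
    have e3 : t = -LinearMap.trace K U w.1 := by linear_combination e2
    rw [ht, e3, neg_smul, sub_eq_add_neg]
  rintro ⟨a, b⟩ hw
  by_cases hn : ∀ t : K, a ≠ t • 1
  · exact hns _ hw hn
  · push Not at hn
    obtain ⟨s, hs⟩ := hn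
    obtain ⟨b₀, hb₀⟩ := honto a₀
    have e1 := hns _ hb₀ ha₀
    have e2 := hns _ (W.add_mem hw hb₀) (by
      intro t ht
      apply ha₀ (t - s)
      simp only [Prod.fst_add] at ht
      rw [sub_smul, ← ht, ← hs]
      abel)
    simp only [Prod.fst_add, Prod.snd_add, map_add, add_smul] at e1 e2 ⊢
    rw [e1] at e2
    have e3 : b = a + a₀ - (LinearMap.trace K U a • (1 : Module.End K U) + LinearMap.trace K U a₀ • 1) -
        (a₀ - LinearMap.trace K U a₀ • 1) := by rw [← e2]; abel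
    rw [e3]
    abel

end Pool.Agent.H86N
end

-- from Lib.H76P.C0
section

/-!
# Product decompositions of a finite configuration of points

`pt : κ → V` is a finite family of points of a rational vector space.  A linear idempotent `p` is
a splitting (`Spl pt p`) if for all points `a`, `b` there is a point with the coordinate `p` of `b`
and the other coordinate of `a`.
-/

set_option autoImplicit false
namespace Pool.Agent.H76P

variable {κ : Type*} {V : Type*} [AddCommGroup V] [Module ℚ V]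

/-- The idempotent `p` is a splitting of the configuration `pt`. -/
def Spl (pt : κ → V) (p : Module.End ℚ V) : Prop :=
  p * p = p ∧ ∀ a b, ∃ c, pt c = pt a + p (pt b - pt a)

/-- The differences span. -/
def Spans (pt : κ → V) : Prop := Submodule.span ℚ {u | ∃ a b, u = pt b - pt a} = ⊤

/-- A minimal splitting. -/
def Atom (pt : κ → V) (q : Module.End ℚ V) : Prop :=
  Spl pt q ∧ q ≠ 0 ∧ ∀ p, Spl pt p → p * q = p → p = 0 ∨ p = q

open Classical in
/-- The number of different coordinates `p`. -/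
noncomputable def cnt [Fintype κ] (pt : κ → V) (p : Module.End ℚ V) : ℕ :=
  (Finset.univ.image fun a => p (pt a)).card

/-- two linear maps agree if they agree on the differences -/
theorem Spans.ext {pt : κ → V} (h : Spans pt) {W : Type*} [AddCommGroup W] [Module ℚ W]
    {f g : V →ₗ[ℚ] W} (hfg : ∀ a b, f (pt b - pt a) = g (pt b - pt a)) : f = g := by
  have h1 : Submodule.span ℚ {u | ∃ a b, u = pt b - pt a} ≤ LinearMap.eqLocus f g := by
    rw [Submodule.span_le]
    rintro _ ⟨a, b, rfl⟩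
    exact hfg a b
  rw [h] at h1
  ext u
  exact h1 (Submodule.mem_top (x := u))

theorem Spl.zero (pt : κ → V) : Spl pt 0 := ⟨by simp, fun a b => ⟨a, by simp⟩⟩

theorem Spl.one (pt : κ → V) : Spl pt 1 := ⟨by simp, fun a b => ⟨b, by simp⟩⟩

theorem Spl.compl {pt : κ → V} {p : Module.End ℚ V} (h : Spl pt p) : Spl pt (1 - p) := by
  refine ⟨by rw [mul_sub, mul_one, sub_mul, one_mul, h.1, sub_self, sub_zero], fun a b => ?_⟩
  obtain ⟨c, hc⟩ := h.2 b a
  refine ⟨c, ?_⟩
  rw [hc, LinearMap.sub_apply, Module.End.one_apply]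
  have : p (pt a - pt b) = - p (pt b - pt a) := by rw [← map_neg, neg_sub]
  rw [this]
  abel

end Pool.Agent.H76P
end

-- from Lib.H76P.C1
section

/-!
# C1: splittings commute
-/

set_option autoImplicit false
namespace Pool.Agent.H76P

variable {κ : Type*} {V : Type*} [AddCommGroup V] [Module ℚ V]

/-- PROOF. A vector space over an infinite field is not a finite union of proper subspaces; apply this to the dual space and to the
subspaces of the functionals which vanish at `u ∈ s` (proper because `u ≠ 0`).  In Mathlib there is something like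
`Module.Dual.exists_forall_mem_ne_zero_of_forall_exists` / `Subspace.biUnion_ne_univ_of_top_nmem`. -/
theorem generic (s : Finset V) (hs : (0 : V) ∉ s) : ∃ l : Module.Dual ℚ V, ∀ u ∈ s, l u ≠ 0 := by
  obtain ⟨f, hf⟩ := Module.exists_dual_forall_apply_ne_zero (K := ℚ) (M := V)
    (fun u : s => (u : V)) (fun u h => hs (h ▸ u.2))
  exact ⟨f, fun u hu => hf ⟨u, hu⟩⟩

theorem c1_key [Finite κ] {pt : κ → V} (hs : Spans pt) {p q : Module.End ℚ V} (hp : Spl pt p)
    (hq : Spl pt q) : (1 - p) * q * p = 0 := by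
  cases isEmpty_or_nonempty κ with
  | inl h =>
    apply hs.ext
    intro a
    exact h.elim a
  | inr h =>
    have hfin := Fintype.ofFinite κ
    obtain ⟨l, hl⟩ : ∃ l : Module.Dual ℚ V, ∀ a b, pt b - pt a ≠ 0 → l (pt b - pt a) ≠ 0 := by
      classical
      obtain ⟨l, hl⟩ := generic
        ((Finset.univ.image (fun x : κ × κ => pt x.2 - pt x.1)).erase 0) (by simp)
      refine ⟨l, fun a b hab => hl _ ?_⟩
      rw [Finset.mem_erase]
      exact ⟨hab, Finset.mem_image_of_mem (fun x : κ × κ => pt x.2 - pt x.1)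
        (Finset.mem_univ (a, b))⟩
    obtain ⟨a₀, ha₀⟩ := Finite.exists_max (fun a => l (pt a))
    have hle : ∀ a, l (pt a - pt a₀) ≤ 0 := fun a => by
      rw [map_sub]
      linarith [ha₀ a]
    have heq : ∀ a, l (pt a - pt a₀) = 0 → pt a - pt a₀ = 0 := fun a h => by
      by_contra h0
      exact hl a₀ a h0 h
    have hD : ∀ {r : Module.End ℚ V}, Spl pt r → ∀ a, ∃ c, r (pt a - pt a₀) = pt c - pt a₀ := by
      intro r hr a
      obtain ⟨c, hc⟩ := hr.2 a₀ a
      exact ⟨c, by rw [hc, add_sub_cancel_left]⟩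
    have main : ∀ a, ((1 - p) * q * p) (pt a - pt a₀) = 0 := by
      intro a
      obtain ⟨c, hc⟩ := hD hp a
      obtain ⟨d, hd⟩ := hD hq c
      obtain ⟨e, he⟩ := hD hq.compl c
      obtain ⟨f, hf⟩ := hD hp.compl d
      obtain ⟨g, hg⟩ := hD hp.compl e
      have h1 : (1 - p) (q (p (pt a - pt a₀))) + (1 - p) ((1 - q) (p (pt a - pt a₀))) = 0 := by
        rw [← map_add]
        have h8 : q (p (pt a - pt a₀)) + (1 - q) (p (pt a - pt a₀)) = p (pt a - pt a₀) := by
          rw [LinearMap.sub_apply, Module.End.one_apply]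
          abel
        rw [h8]
        have h2 : (1 - p) * p = 0 := by rw [sub_mul, one_mul, hp.1, sub_self]
        exact LinearMap.congr_fun h2 _
      rw [hc, hd, he, hf, hg] at h1
      have h3 := congrArg l h1
      rw [map_add, map_zero] at h3
      have h4 := hle f
      have h5 := hle g
      have h6 : l (pt f - pt a₀) = 0 := by linarith
      have h7 := heq f h6
      change (1 - p) (q (p (pt a - pt a₀))) = 0
      rw [hc, hd, hf, h7]
    apply hs.ext
    intro a b
    have h9 : pt b - pt a = (pt b - pt a₀) - (pt a - pt a₀) := by abel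
    rw [h9, map_sub, main, main]
    simp

/-- PROOF. By `generic` (for the finite set of the nonzero differences of points) there is a functional `l` with `l (pt a) ≠ l (pt b)`
whenever `pt a ≠ pt b`.  Let `a₀` be a point where `l (pt a₀)` is maximal (`κ` is finite; if it is empty, `V = 0` and there is nothing to
prove).  Put `Δ = {pt a - pt a₀}`.  Then `l u ≤ 0` for `u ∈ Δ`, with equality only for `u = 0`, `Δ` spans `V` (differences of elements of
`Δ`), and every splitting maps `Δ` to `Δ` (take `a = a₀` in the definition).  Claim: `(1 - p) * q * p = 0` for any two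
splittings `p`, `q`.  For `u ∈ Δ` put `u' = p u ∈ Δ`, `w = q u' ∈ Δ`, `w' = (1 - q) u' ∈ Δ` (`Spl.compl`), `u' = w + w'`.  Then
`(1 - p) w` and `(1 - p) w'` are in `Δ`, and their sum is `(1 - p) u' = 0`.  So `l` of both is `≤ 0` and the sum is `0`, hence both are `0`.
So `(1 - p) q p u = 0` for all `u ∈ Δ`, hence for all `u`.  Apply the claim to `p, q` and to `1 - p, q`: `q p = p q p` and
`q (1 - p) = (1 - p) q (1 - p)`, i.e. `p q (1 - p) = 0`, `p q = p q p`.  Hence `p q = q p`. -/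
theorem Spl.comm [Finite κ] {pt : κ → V} (hs : Spans pt) {p q : Module.End ℚ V} (hp : Spl pt p)
    (hq : Spl pt q) : p * q = q * p := by
  have h1 := c1_key hs hp hq
  have h2 := c1_key hs hp.compl hq
  rw [sub_sub_cancel] at h2
  rw [sub_mul, sub_mul, one_mul, sub_eq_zero] at h1
  rw [mul_sub, mul_one, sub_eq_zero] at h2
  exact h2.trans h1.symm

/-- PROOF. Idempotent since `p`, `q` commute.  For `a`, `b` choose `c` with `pt c = pt a + q (pt b - pt a)` and then `c'` with
`pt c' = pt a + p (pt c - pt a) = pt a + p (q (pt b - pt a))`. -/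
theorem Spl.mul [Finite κ] {pt : κ → V} (hs : Spans pt) {p q : Module.End ℚ V} (hp : Spl pt p)
    (hq : Spl pt q) : Spl pt (p * q) := by
  refine ⟨?_, fun a b => ?_⟩
  · have hc := Spl.comm hs hp hq
    calc p * q * (p * q) = p * (q * p) * q := by simp only [mul_assoc]
      _ = p * (p * q) * q := by rw [hc]
      _ = (p * p) * (q * q) := by simp only [mul_assoc]
      _ = p * q := by rw [hp.1, hq.1]
  · obtain ⟨c, hc⟩ := hq.2 a b
    obtain ⟨c', hc'⟩ := hp.2 a c
    refine ⟨c', ?_⟩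
    rw [hc', hc, add_sub_cancel_left]
    rfl

/-- PROOF. For `p * q = 0`: `1 - (p + q) = (1 - p) * (1 - q)` (`q * p = 0` too by `Spl.comm`), `Spl.compl`, `Spl.mul`. -/
theorem Spl.add [Finite κ] {pt : κ → V} (hs : Spans pt) {p q : Module.End ℚ V} (hp : Spl pt p)
    (hq : Spl pt q) (hpq : p * q = 0) : Spl pt (p + q) := by
  have h1 := (Spl.mul hs hp.compl hq.compl).compl
  have h2 : 1 - (1 - p) * (1 - q) = p + q := by
    rw [sub_mul, one_mul, mul_sub, mul_one, hpq, sub_zero]
    abel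
  rwa [h2] at h1

end Pool.Agent.H76P
end

-- from Lib.H76P.C2
section

/-!
# C2: atoms
-/

set_option autoImplicit false
namespace Pool.Agent.H76P

variable {κ : Type*} {V : Type*} [AddCommGroup V] [Module ℚ V]

/-- PROOF. A splitting `p` is determined by the map `(a, b) ↦ c` (choose `c` with `pt c = pt a + p (pt b - pt a)`), because `p` is
determined by the vectors `p (pt b - pt a)` (`Spans.ext`).  So there is an injective map from the set of splittings to the finite set of
functions `κ × κ → κ`. -/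
theorem Spl.finite [Finite κ] {pt : κ → V} (hs : Spans pt) : {p | Spl pt p}.Finite := by
  classical
  have h : ∀ p : {p | Spl pt p}, ∃ f : κ × κ → κ,
      ∀ x, pt (f x) = pt x.1 + p.1 (pt x.2 - pt x.1) := by
    intro p
    choose f hf using p.2.2
    exact ⟨fun x => f x.1 x.2, fun x => hf x.1 x.2⟩
  choose F hF using h
  have hinj : Function.Injective F := by
    intro p q hpq
    apply Subtype.ext
    apply hs.ext
    intro a b
    have h1 := hF p (a, b)
    have h2 := hF q (a, b)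
    rw [hpq] at h1
    rw [h1] at h2
    exact add_left_cancel h2
  have : Finite {p | Spl pt p} := Finite.of_injective F hinj
  exact Set.toFinite _

/-- PROOF. Among the finitely many splittings `q ≠ 0` with `q * p = q` (for instance `p`) choose one with the smallest number of
splittings `q'` with `q' * q = q'`.  If `q'` is a splitting with `q' * q = q'`, `q' ≠ 0`, `q' ≠ q`, then `q' * p = q' * q * p = q'`, and every
splitting below `q'` is below `q`, but `q` itself is not below `q'` (`q * q' = q` and `q' * q = q'`, so by `Spl.comm` `q = q'`):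
contradiction. -/
theorem exists_atom [Finite κ] {pt : κ → V} (hs : Spans pt) {p : Module.End ℚ V} (hp : Spl pt p)
    (h0 : p ≠ 0) : ∃ q, Atom pt q ∧ q * p = q := by
  have hf := Spl.finite hs
  obtain ⟨q, ⟨hq, hq0, hqp⟩, hmin⟩ := Set.exists_min_image
    {q | Spl pt q ∧ q ≠ 0 ∧ q * p = q} (fun q => {r | Spl pt r ∧ r * q = r}.ncard)
    (hf.subset fun q hq => hq.1) ⟨p, hp, h0, hp.1⟩
  refine ⟨q, ⟨hq, hq0, fun r hr hrq => ?_⟩, hqp⟩
  by_contra hcon
  rw [not_or] at hcon
  have h1 := hmin r ⟨hr, hcon.1, by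
    calc r * p = r * q * p := by rw [hrq]
      _ = r * (q * p) := mul_assoc _ _ _
      _ = r := by rw [hqp, hrq]⟩
  have h2 : {x | Spl pt x ∧ x * r = x}.ncard < {x | Spl pt x ∧ x * q = x}.ncard := by
    apply Set.ncard_lt_ncard _ (hf.subset fun x hx => hx.1)
    refine ⟨fun x hx => ⟨hx.1, ?_⟩, fun hsub => ?_⟩
    · calc x * q = x * r * q := by rw [hx.2]
        _ = x * (r * q) := mul_assoc _ _ _
        _ = x := by rw [hrq, hx.2]
    · have h3 : q ∈ {x | Spl pt x ∧ x * r = x} := hsub ⟨hq, hq.1⟩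
      apply hcon.2
      rw [← hrq, Spl.comm hs hr hq]
      exact h3.2
  exact absurd h1 (not_le.2 h2)

/-- PROOF. `q * q'` is a splitting (`Spl.mul`) below `q` and below `q'`, so it is `0`, or it is equal to `q` and to `q'`. -/
theorem Atom.orth [Finite κ] {pt : κ → V} (hs : Spans pt) {q q' : Module.End ℚ V}
    (hq : Atom pt q) (hq' : Atom pt q') (hne : q ≠ q') : q * q' = 0 := by
  have hm := Spl.mul hs hq.1 hq'.1
  have h1 := hq'.2.2 _ hm (by rw [mul_assoc, hq'.1.1])
  have h2 := hq.2.2 _ hm (by rw [mul_assoc, ← Spl.comm hs hq.1 hq'.1, ← mul_assoc, hq.1.1])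
  rcases h1 with h1 | h1
  · exact h1
  · rcases h2 with h2 | h2
    · exact h2
    · exact absurd (h2.symm.trans h1) hne

theorem c2_mul_sum [Finite κ] {pt : κ → V} (hs : Spans pt) {q : Module.End ℚ V} (hq : Atom pt q)
    (t : Finset (Module.End ℚ V)) (ht : ∀ r ∈ t, Atom pt r) (hqt : q ∉ t) :
    q * ∑ r ∈ t, r = 0 := by
  rw [Finset.mul_sum]
  refine Finset.sum_eq_zero fun r hr => ?_
  exact Atom.orth hs hq (ht r hr) fun h => hqt (h ▸ hr)

theorem c2_sum [Finite κ] {pt : κ → V} (hs : Spans pt)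
    (t : Finset (Module.End ℚ V)) (ht : ∀ r ∈ t, Atom pt r) : Spl pt (∑ r ∈ t, r) := by
  classical
  induction t using Finset.induction_on with
  | empty =>
    rw [Finset.sum_empty]
    exact Spl.zero pt
  | insert a t hat ih =>
    rw [Finset.sum_insert hat]
    have h1 : ∀ r ∈ t, Atom pt r := fun r hr => ht r (Finset.mem_insert_of_mem hr)
    have h2 := ht a (Finset.mem_insert_self a t)
    exact Spl.add hs h2.1 (ih h1) (c2_mul_sum hs h2 t h1 hat)

/-- PROOF. The set `s` of all atoms is finite (`Spl.finite`).  The sum `σ` of the atoms is a splitting (induction over finite sets of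
atoms with `Spl.add` and `Atom.orth`).  If `1 - σ ≠ 0` there is an atom `q` with `q * (1 - σ) = q` (`exists_atom`), but `q * σ = q`, so
`q = 0`, contradiction. -/
theorem atoms_sum [Finite κ] {pt : κ → V} (hs : Spans pt) : ∃ s : Finset (Module.End ℚ V),
    (∀ q, q ∈ s ↔ Atom pt q) ∧ ∑ q ∈ s, q = 1 := by
  classical
  have hf : {q | Atom pt q}.Finite := (Spl.finite hs).subset fun q hq => hq.1
  have hm : ∀ q, q ∈ hf.toFinset ↔ Atom pt q := fun q => by
    rw [Set.Finite.mem_toFinset]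
    rfl
  refine ⟨hf.toFinset, hm, ?_⟩
  have hS := c2_sum hs hf.toFinset fun r hr => (hm r).1 hr
  by_contra hne
  have h0 : (1 : Module.End ℚ V) - ∑ q ∈ hf.toFinset, q ≠ 0 := fun h => hne (sub_eq_zero.1 h).symm
  obtain ⟨q, hq, hq1⟩ := exists_atom hs hS.compl h0
  rw [mul_sub, mul_one] at hq1
  have h1 : q * ∑ r ∈ hf.toFinset, r = q := by
    rw [← Finset.insert_erase ((hm q).2 hq), Finset.sum_insert (Finset.notMem_erase _ _), mul_add,
      hq.1.1, c2_mul_sum hs hq _ (fun r hr => (hm r).1 (Finset.mem_of_mem_erase hr))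
        (Finset.notMem_erase _ _), add_zero]
  rw [h1, sub_self] at hq1
  exact hq.2.1 hq1.symm

/-- PROOF. By linearity `q * p` is an atom or zero: `q * p` is a splitting below `q`. -/
theorem Atom.le_or [Finite κ] {pt : κ → V} (hs : Spans pt) {q p : Module.End ℚ V}
    (hq : Atom pt q) (hp : Spl pt p) : q * p = q ∨ q * p = 0 := by
  have hm := Spl.mul hs hq.1 hp
  have h2 := hq.2.2 _ hm (by rw [mul_assoc, ← Spl.comm hs hq.1 hp, ← mul_assoc, hq.1.1])
  exact h2.symm

end Pool.Agent.H76P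
end

-- from Lib.H76P.C3
section

/-!
# C3: the number of points is the product of the numbers of coordinates
-/

set_option autoImplicit false
namespace Pool.Agent.H76P

variable {κ : Type*} [Fintype κ] {V : Type*} [AddCommGroup V] [Module ℚ V]

theorem cnt_zero [Nonempty κ] (pt : κ → V) : cnt pt 0 = 1 := by
  classical
  have h : cnt pt 0 = (Finset.univ.image fun _ : κ => (0 : V)).card := by
    unfold cnt
    congr 1
  rw [h, Finset.image_const Finset.univ_nonempty, Finset.card_singleton]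

theorem cnt_one {pt : κ → V} (hinj : Function.Injective pt) : cnt pt 1 = Fintype.card κ := by
  classical
  unfold cnt
  have h := Finset.card_image_of_injective (Finset.univ : Finset κ) hinj
  rw [Finset.card_univ] at h
  rw [← h]
  congr 1

/-- PROOF. The map `u ↦ (p u, q u)` from `{(p + q) (pt a)}` to `{p (pt a)} × {q (pt a)}` is well defined and injective
(`p (p + q) = p`, `q (p + q) = q` because `q * p = 0` by `Spl.comm`), and surjective: for `a`, `b` choose `c` with
`pt c = pt a + q (pt b - pt a)`: `p (pt c) = p (pt a)`, `q (pt c) = q (pt b)`. -/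
theorem cnt_add {pt : κ → V} (hs : Spans pt) {p q : Module.End ℚ V} (hp : Spl pt p)
    (hq : Spl pt q) (hpq : p * q = 0) : cnt pt (p + q) = cnt pt p * cnt pt q := by
  classical
  have hqp : q * p = 0 := by rw [← Spl.comm hs hp hq]; exact hpq
  have e1 : ∀ v, p (q v) = 0 := fun v => by
    have := LinearMap.congr_fun hpq v
    simpa using this
  have e2 : ∀ v, q (p v) = 0 := fun v => by
    have := LinearMap.congr_fun hqp v
    simpa using this
  have e3 : ∀ v, p (p v) = p v := fun v => by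
    have := LinearMap.congr_fun hp.1 v
    simpa using this
  have e4 : ∀ v, q (q v) = q v := fun v => by
    have := LinearMap.congr_fun hq.1 v
    simpa using this
  have c1 : cnt pt (p + q) = (Finset.univ.image fun a => (p + q) (pt a)).card := by
    unfold cnt
    congr
  have c2 : cnt pt p = (Finset.univ.image fun a => p (pt a)).card := by
    unfold cnt
    congr
  have c3 : cnt pt q = (Finset.univ.image fun a => q (pt a)).card := by
    unfold cnt
    congr
  rw [c1, c2, c3, ← Finset.card_product]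
  have h1 : Set.InjOn (fun u : V => (p u, q u)) (Finset.univ.image fun a => (p + q) (pt a)) := by
    intro u hu u' hu' he
    rw [Finset.mem_coe, Finset.mem_image] at hu hu'
    obtain ⟨a, -, rfl⟩ := hu
    obtain ⟨b, -, rfl⟩ := hu'
    have h2 := congrArg Prod.fst he
    have h3 := congrArg Prod.snd he
    simp only [LinearMap.add_apply, map_add, e1, e2, e3, e4, add_zero, zero_add] at h2 h3
    show (p + q) (pt a) = (p + q) (pt b)
    rw [LinearMap.add_apply, LinearMap.add_apply, h2, h3]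
  rw [← Finset.card_image_of_injOn h1, Finset.image_image]
  congr 1
  ext ⟨x, y⟩
  rw [Finset.mem_image, Finset.mem_product, Finset.mem_image, Finset.mem_image]
  constructor
  · rintro ⟨a, -, ha⟩
    have h2 := congrArg Prod.fst ha
    have h3 := congrArg Prod.snd ha
    simp only [Function.comp_apply, LinearMap.add_apply, map_add, e1, e2, e3, e4, add_zero,
      zero_add] at h2 h3
    exact ⟨⟨a, Finset.mem_univ _, h2⟩, ⟨a, Finset.mem_univ _, h3⟩⟩
  · rintro ⟨⟨a, -, ha⟩, ⟨b, -, hb⟩⟩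
    obtain ⟨c, hc⟩ := hq.2 a b
    refine ⟨c, Finset.mem_univ _, ?_⟩
    simp only [Function.comp_apply, LinearMap.add_apply, map_add, e1, e2, e3, e4, add_zero,
      zero_add, hc, map_sub, sub_self]
    refine Prod.ext ?_ ?_
    · exact ha
    · show q (pt a) + (q (pt b) - q (pt a)) = y
      rw [add_sub_cancel]
      exact hb

/-- PROOF. Induction over subsets of the set `s` of atoms: the sum over a subset `t` is a splitting (`Spl.add`), and
`cnt pt (∑ q ∈ t, q) = ∏ q ∈ t, cnt pt q` (`cnt_add`, `Atom.orth`, `cnt_zero`). For `t = s` use `cnt_one`. -/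
theorem card_prod [Nonempty κ] {pt : κ → V} (hs : Spans pt) (hinj : Function.Injective pt)
    {s : Finset (Module.End ℚ V)} (h1 : ∀ q ∈ s, Atom pt q) (h2 : ∑ q ∈ s, q = 1) :
    Fintype.card κ = ∏ q ∈ s, cnt pt q := by
  classical
  have key : ∀ t : Finset (Module.End ℚ V), t ⊆ s → Spl pt (∑ q ∈ t, q) ∧
      cnt pt (∑ q ∈ t, q) = ∏ q ∈ t, cnt pt q := by
    intro t
    induction t using Finset.induction_on with
    | empty =>
      intro _
      rw [Finset.sum_empty, Finset.prod_empty]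
      exact ⟨Spl.zero pt, cnt_zero pt⟩
    | insert a t ha ih =>
      intro hsub
      obtain ⟨i1, i2⟩ := ih ((Finset.subset_insert _ _).trans hsub)
      have hA := h1 a (hsub (Finset.mem_insert_self _ _))
      have h0 : a * ∑ q ∈ t, q = 0 := by
        rw [Finset.mul_sum]
        refine Finset.sum_eq_zero fun q hq => ?_
        refine Atom.orth hs hA (h1 q (hsub (Finset.mem_insert_of_mem hq))) ?_
        rintro rfl
        exact ha hq
      rw [Finset.sum_insert ha, Finset.prod_insert ha]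
      exact ⟨Spl.add hs hA.1 i1 h0, by rw [cnt_add hs hA.1 i1 h0, i2]⟩
  have h3 := (key s (Finset.Subset.refl _)).2
  rw [h2, cnt_one hinj] at h3
  exact h3

/-- PROOF. `pt a` in the image of `q`: if all points have the same coordinate `q`, then `q (pt b - pt a) = 0` for all `a`, `b`, so `q = 0`
(`Spans.ext`). -/
theorem cnt_ne_one {pt : κ → V} (hs : Spans pt) {q : Module.End ℚ V} (h0 : q ≠ 0) :
    ∃ a b, q (pt a) ≠ q (pt b) := by
  by_contra hcon
  push Not at hcon
  apply h0
  refine Spans.ext hs fun a b => ?_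
  rw [map_sub, hcon b a, sub_self, LinearMap.zero_apply]

end Pool.Agent.H76P
end

-- from Lib.H76P.C4
section

/-!
# C4: automorphisms
-/

set_option autoImplicit false
namespace Pool.Agent.H76P

variable {κ : Type*} {V : Type*} [AddCommGroup V] [Module ℚ V]

/-- The permutation `σ` of the points is induced by the linear automorphism `s`. -/
def Aff (pt : κ → V) (σ : Equiv.Perm κ) (s : V ≃ₗ[ℚ] V) : Prop :=
  ∀ a b, s (pt b - pt a) = pt (σ b) - pt (σ a)

/-- The conjugate of `p`. -/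
def conj (s : V ≃ₗ[ℚ] V) (p : Module.End ℚ V) : Module.End ℚ V :=
  s.toLinearMap ∘ₗ p ∘ₗ s.symm.toLinearMap

theorem conj_apply (s : V ≃ₗ[ℚ] V) (p : Module.End ℚ V) (u : V) :
    conj s p (s u) = s (p u) := by
  simp [conj]

theorem c4_inv (σ : Equiv.Perm κ) (a : κ) : σ (σ⁻¹ a) = a := by simp

theorem c4_symm {pt : κ → V} {σ : Equiv.Perm κ} {s : V ≃ₗ[ℚ] V} (h : Aff pt σ s) :
    Aff pt σ⁻¹ s.symm := by
  intro a b
  rw [LinearEquiv.symm_apply_eq, h, c4_inv, c4_inv]

theorem c4_mul (s : V ≃ₗ[ℚ] V) (p q : Module.End ℚ V) :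
    conj s (p * q) = conj s p * conj s q := by
  ext u
  simp [conj]

theorem c4_conj_symm (s : V ≃ₗ[ℚ] V) (p : Module.End ℚ V) :
    conj s.symm (conj s p) = p := by
  ext u
  simp [conj]

theorem c4_symm_conj (s : V ≃ₗ[ℚ] V) (p : Module.End ℚ V) :
    conj s (conj s.symm p) = p := by
  ext u
  simp [conj]

theorem c4_zero (s : V ≃ₗ[ℚ] V) : conj s (0 : Module.End ℚ V) = 0 := by
  ext u
  simp [conj]

/-- PROOF. Apply `s` to `pt c = pt a' + p (pt b' - pt a')`, `a' = σ⁻¹ a`, `b' = σ⁻¹ b`: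
`pt (σ c) - pt a = s (pt c - pt a') = s (p (pt b' - pt a')) = conj s p (pt b - pt a)`. -/
theorem Spl.conj {pt : κ → V} {σ : Equiv.Perm κ} {s : V ≃ₗ[ℚ] V} (h : Aff pt σ s)
    {p : Module.End ℚ V} (hp : Spl pt p) : Spl pt (conj s p) := by
  refine ⟨by rw [← c4_mul, hp.1], fun a b => ?_⟩
  obtain ⟨c, hc⟩ := hp.2 (σ⁻¹ a) (σ⁻¹ b)
  refine ⟨σ c, ?_⟩
  have h1 := h (σ⁻¹ a) c
  have h2 := h (σ⁻¹ a) (σ⁻¹ b)
  rw [c4_inv] at h1
  rw [c4_inv, c4_inv] at h2
  rw [← h2, conj_apply, ← sub_eq_iff_eq_add', ← h1, hc, add_sub_cancel_left]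

/-- PROOF. `Spl.conj` for `s` and for `s.symm`, `σ⁻¹` (`Aff` holds for them). -/
theorem Atom.conj {pt : κ → V} {σ : Equiv.Perm κ} {s : V ≃ₗ[ℚ] V} (h : Aff pt σ s)
    {q : Module.End ℚ V} (hq : Atom pt q) : Atom pt (conj s q) := by
  refine ⟨hq.1.conj h, fun h0 => hq.2.1 ?_, fun p hp hpq => ?_⟩
  · rw [← c4_conj_symm s q, h0, c4_zero]
  · have h1 : Spl pt (H76P.conj s.symm p) := hp.conj (c4_symm h)
    have h2 : H76P.conj s.symm p * q = H76P.conj s.symm p := by
      rw [← c4_conj_symm s q, ← c4_mul, hpq]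
    rcases hq.2.2 _ h1 h2 with h3 | h3
    · left
      rw [← c4_symm_conj s p, h3, c4_zero]
    · right
      rw [← c4_symm_conj s p, h3]

/-- PROOF. `κ` may be assumed nonempty; fix `a₀`.  `conj s p (pt (σ a) - pt (σ a₀)) = s (p (pt a - pt a₀))`.  So
`conj s p (pt (σ a)) = s (p (pt a)) + w` with `w = conj s p (pt (σ a₀)) - s (p (pt a₀))`, and `u ↦ s u + w` is a bijection between the two
sets of coordinates (`σ` is a bijection of `κ`). -/
theorem cnt_conj [Fintype κ] {pt : κ → V} {σ : Equiv.Perm κ} {s : V ≃ₗ[ℚ] V} (h : Aff pt σ s)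
    (p : Module.End ℚ V) : cnt pt (H76P.conj s p) = cnt pt p := by
  classical
  rcases isEmpty_or_nonempty κ with he | ⟨⟨a₀⟩⟩
  · unfold cnt
    rw [Finset.univ_eq_empty, Finset.image_empty, Finset.image_empty]
  obtain ⟨w, hw⟩ : ∃ w, w = H76P.conj s p (pt (σ a₀)) - s (p (pt a₀)) := ⟨_, rfl⟩
  have key : ∀ a, H76P.conj s p (pt (σ a)) = s (p (pt a)) + w := by
    intro a
    have h1 := conj_apply s p (pt a - pt a₀)
    rw [h, map_sub, map_sub, map_sub] at h1
    rw [hw, sub_eq_iff_eq_add.1 h1]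
    abel
  unfold cnt
  have e : (Finset.univ.image fun a => H76P.conj s p (pt a)) =
      (Finset.univ.image fun a => p (pt a)).image (fun u => s u + w) := by
    rw [Finset.image_image]
    ext u
    simp only [Finset.mem_image, Finset.mem_univ, true_and, Function.comp_apply]
    constructor
    · rintro ⟨a, rfl⟩
      refine ⟨σ⁻¹ a, ?_⟩
      rw [← key, c4_inv]
    · rintro ⟨a, rfl⟩
      exact ⟨σ a, key a⟩
  convert Finset.card_image_of_injective _ (f := fun u : V => s u + w) ?_ using 2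
  · convert e
  · intro u v huv
    exact s.injective (add_right_cancel huv)

end Pool.Agent.H76P
end

-- from Lib.H76P.C5
section

/-!
# C5: the number of points is a perfect power
-/

set_option autoImplicit false
namespace Pool.Agent.H76P

variable {κ : Type*} [Fintype κ] {V : Type*} [AddCommGroup V] [Module ℚ V]

/-- PROOF. `v ∘ q = 0` is impossible for the conjugate of an atom: let `q` be an atom and `a`, `b` with `q (pt a) ≠ q (pt b)` (`cnt_ne_one`).
Choose `c` with `pt c = pt a + q (pt b - pt a)`, then `a ≠ c` and `δ = pt c - pt a = q δ`.  By `gal` there are `σ`, `s` with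
`v (s δ) ≠ 0`.  Put `q' = conj s q`, an atom (`Atom.conj`), `q' (s δ) = s (q δ) = s δ`.  So `v (q' (s δ)) ≠ 0`, and as `v ∘ π = v`, `π * q' ≠ 0`;
by `Atom.le_or` and `Spl.comm`, `q' * π = q'`. -/
theorem atom_conj_le {pt : κ → V} (hs : Spans pt) {π : Module.End ℚ V} (hπ : Spl pt π)
    {v : Module.Dual ℚ V} (hv : ∀ u, v (π u) = v u)
    (gal : ∀ a b, a ≠ b → ∃ σ s, Aff pt σ s ∧ v (s (pt b - pt a)) ≠ 0)
    {q : Module.End ℚ V} (hq : Atom pt q) :
    ∃ q', Atom pt q' ∧ q' * π = q' ∧ cnt pt q' = cnt pt q := by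
  obtain ⟨a, b, hab⟩ := cnt_ne_one hs hq.2.1
  obtain ⟨c, hc⟩ := hq.1.2 a b
  have hd : pt c - pt a = q (pt b - pt a) := by rw [hc]; abel
  have hne : pt c - pt a ≠ 0 := by
    rw [hd, map_sub]
    exact sub_ne_zero.mpr (Ne.symm hab)
  have hac : a ≠ c := by
    rintro rfl
    exact hne (sub_self _)
  obtain ⟨σ, s, hσ, hv0⟩ := gal a c hac
  have hqd : q (pt c - pt a) = pt c - pt a := by
    rw [hd, ← Module.End.mul_apply, hq.1.1]
  have hat : Atom pt (conj s q) := Atom.conj hσ hq
  have h1 : conj s q (s (pt c - pt a)) = s (pt c - pt a) := by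
    rw [conj_apply, hqd]
  refine ⟨conj s q, hat, ?_, cnt_conj hσ q⟩
  rcases hat.le_or hs hπ with h | h
  · exact h
  · exfalso
    apply hv0
    rw [← h1, ← hv, ← Module.End.mul_apply, Spl.comm hs hπ hat.1, h]
    simp

/-- PROOF. Let `s` be the set of all atoms (`atoms_sum`), `k` its number.  `k ≥ 2`: `π ≠ 0` (if `π = 0` then `v = 0`, but
`1 - π ≠ 0`, so there are `a`, `b` with `pt a ≠ pt b` and `gal` gives a contradiction) and `1 - π ≠ 0`, so there are atoms below `π` and below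
`1 - π` (`exists_atom`, `Spl.compl`), and they are different.  Case 1: `π` is an atom.  Then the `q'` of `atom_conj_le` is equal to `π`
(it is an atom below `π`), so all atoms `q` have `cnt pt q = cnt pt π =: a` and `card κ = a ^ k` (`card_prod`).  Case 2: `π` is not an
atom.  Then every atom `q'` below `π` is different from `π`, so `cnt pt q' = 2` by `hcase`, so by `atom_conj_le` all atoms have
`cnt pt q = 2` and `card κ = 2 ^ k`. -/
theorem card_power {pt : κ → V} (hs : Spans pt) (hinj : Function.Injective pt)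
    {π : Module.End ℚ V} (hπ : Spl pt π) (hπ1 : π ≠ 1)
    {v : Module.Dual ℚ V} (hv : ∀ u, v (π u) = v u)
    (gal : ∀ a b, a ≠ b → ∃ σ s, Aff pt σ s ∧ v (s (pt b - pt a)) ≠ 0)
    (hcase : ∀ q, Atom pt q → q * π = q → q = π ∨ cnt pt q = 2) :
    ∃ a k : ℕ, 2 ≤ k ∧ Fintype.card κ = a ^ k := by
  classical
  rcases isEmpty_or_nonempty κ with hE | hN
  · exact ⟨0, 2, le_refl _, by simp⟩
  have hc0 : (1 : Module.End ℚ V) - π ≠ 0 := sub_ne_zero.mpr (Ne.symm hπ1)
  have hπ0 : π ≠ 0 := by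
    intro h0
    obtain ⟨a, b, hab⟩ := cnt_ne_one hs hc0
    have hne : a ≠ b := by
      rintro rfl
      exact hab rfl
    obtain ⟨σ, s, -, h⟩ := gal a b hne
    apply h
    rw [← hv, h0]
    simp
  obtain ⟨S, hS, hsum⟩ := atoms_sum hs
  obtain ⟨q1, hq1, hq1π⟩ := exists_atom hs hπ hπ0
  obtain ⟨q2, hq2, hq2π⟩ := exists_atom hs hπ.compl hc0
  have h12 : q1 ≠ q2 := by
    rintro rfl
    apply hq1.2.1
    have h3 : q1 * π + q1 * (1 - π) = q1 := by
      rw [← mul_add, add_sub_cancel, mul_one]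
    rw [hq1π, hq2π] at h3
    simpa using h3
  have hcard : 2 ≤ S.card := by
    have : ({q1, q2} : Finset (Module.End ℚ V)) ⊆ S := by
      intro x hx
      rw [Finset.mem_insert, Finset.mem_singleton] at hx
      rcases hx with rfl | rfl
      · exact (hS _).2 hq1
      · exact (hS _).2 hq2
    have h4 := Finset.card_le_card this
    rwa [Finset.card_pair h12] at h4
  have hprod := card_prod hs hinj (s := S) (fun q hq => (hS q).1 hq) hsum
  by_cases hA : Atom pt π
  · refine ⟨cnt pt π, S.card, hcard, ?_⟩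
    rw [hprod]
    apply Finset.prod_eq_pow_card
    intro q hq
    obtain ⟨q', hq', hle, hcnt⟩ := atom_conj_le hs hπ hv gal ((hS q).1 hq)
    rcases hA.2.2 q' hq'.1 hle with h | h
    · exact absurd h hq'.2.1
    · rw [← hcnt, h]
  · refine ⟨2, S.card, hcard, ?_⟩
    rw [hprod]
    apply Finset.prod_eq_pow_card
    intro q hq
    obtain ⟨q', hq', hle, hcnt⟩ := atom_conj_le hs hπ hv gal ((hS q).1 hq)
    rcases hcase q' hq' hle with h | h
    · exact absurd (h ▸ hq') hA
    · rw [← hcnt, h]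

end Pool.Agent.H76P
end

-- from Lib.H76P.C6
section

/-!
# C6: a functional with two values
-/

set_option autoImplicit false
namespace Pool.Agent.H76P

variable {κ : Type*} [Fintype κ] {V : Type*} [AddCommGroup V] [Module ℚ V]

/-- PROOF. If not, there are `a`, `b` with `ε (q (pt b - pt a)) ≠ 0` and `a'`, `b'` with `ε ((1 - q) (pt b' - pt a')) ≠ 0`
(`Spans.ext`).  Let `c = ` the point with the coordinate `q` of `a` and the coordinate `1 - q` of `a'`; `c₁` (`c₂`, `c₁₂`) the
points where the coordinate `q` is replaced by that of `b` (the coordinate `1 - q` by that of `b'`, both).  All these exist (`Spl`).  Then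
`e c₁ - e c = x ≠ 0`, `e c₂ - e c = y ≠ 0`, `e c₁₂ - e c = x + y`; as all values are `1` or `-1`, `x = y = -2 e c` and `e c₁₂ = -3 e c`,
contradiction. -/
theorem two_values {pt : κ → V} (hs : Spans pt) {q : Module.End ℚ V} (hq : Spl pt q)
    {ε : Module.Dual ℚ V} {e : κ → ℚ} (he : ∀ a b, ε (pt b - pt a) = e b - e a)
    (h1 : ∀ a, e a = 1 ∨ e a = -1) : (∀ u, ε (q u) = ε u) ∨ ∀ u, ε (q u) = 0 := by
  by_contra hcon
  push Not at hcon
  obtain ⟨hA, hB⟩ := hcon
  have hA' : ∃ a b, ε ((1 - q) (pt b - pt a)) ≠ 0 := by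
    by_contra h
    push Not at h
    obtain ⟨u, hu⟩ := hA
    apply hu
    have h2 : ε ∘ₗ (1 - q) = 0 := hs.ext (fun a b => by simpa using h a b)
    have h3 := LinearMap.congr_fun h2 u
    simp only [LinearMap.comp_apply, LinearMap.sub_apply, Module.End.one_apply, map_sub,
      LinearMap.zero_apply] at h3
    linarith
  have hB' : ∃ a b, ε (q (pt b - pt a)) ≠ 0 := by
    by_contra h
    push Not at h
    obtain ⟨u, hu⟩ := hB
    apply hu
    have h2 : ε ∘ₗ q = 0 := hs.ext (fun a b => by simpa using h a b)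
    have h3 := LinearMap.congr_fun h2 u
    simpa using h3
  obtain ⟨a', b', hab'⟩ := hA'
  obtain ⟨a, b, hab⟩ := hB'
  have hqq : ∀ u, q (q u) = q u := fun u => by rw [← Module.End.mul_apply, hq.1]
  obtain ⟨c, hc⟩ := hq.2 a' a
  obtain ⟨c1, hc1⟩ := hq.2 a' b
  obtain ⟨c2, hc2⟩ := hq.2 b' a
  obtain ⟨c3, hc3⟩ := hq.2 b' b
  have e1 := he c c1
  have e2 := he c c2
  have e3 := he c c3
  rw [hc, hc1] at e1
  rw [hc, hc2] at e2
  rw [hc, hc3] at e3
  simp only [map_sub, map_add, LinearMap.sub_apply, Module.End.one_apply] at e1 e2 e3 hab hab'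
  rcases h1 c with k0 | k0 <;> rcases h1 c1 with k1 | k1 <;> rcases h1 c2 with k2 | k2 <;>
    rcases h1 c3 with k3 | k3 <;> rw [k0, k1] at e1 <;> rw [k0, k2] at e2 <;>
    rw [k0, k3] at e3 <;>
    first
      | exact hab (by linarith)
      | exact hab' (by linarith)

end Pool.Agent.H76P
end

-- from Lib.H76P.C7
section

/-!
# C7: a functional with three values
-/

set_option autoImplicit false
namespace Pool.Agent.H76P

variable {κ : Type*} [Fintype κ] {V : Type*} [AddCommGroup V] [Module ℚ V]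

/-- no finite nonempty family is stable under a nonzero translation -/
theorem c7_trans [Nonempty κ] (g : κ → V) {w : V} (hw : w ≠ 0) (h : ∀ b, ∃ c, g c = g b + w) : False := by
  choose nx hnx using h
  obtain ⟨b₀⟩ : Nonempty κ := inferInstance
  have h1 : ∀ n : ℕ, g (nx^[n] b₀) = g b₀ + (n : ℚ) • w := by
    intro n
    induction n with
    | zero => simp
    | succ n ih =>
      rw [Function.iterate_succ_apply', hnx, ih]
      push_cast
      rw [add_smul, one_smul, add_assoc]
  have h2 : Function.Injective fun n : ℕ => nx^[n] b₀ := by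
    intro m n hmn
    have h3 := congrArg g hmn
    simp only at h3
    rw [h1, h1, add_right_inj] at h3
    have h4 := smul_left_injective ℚ hw h3
    exact_mod_cast h4
  exact not_injective_infinite_finite _ h2

omit [Fintype κ] in
/-- the mixed point -/
theorem c7_mix {pt : κ → V} {p : Module.End ℚ V} (hp : Spl pt p) {f : Module.Dual ℚ V} {fv : κ → ℚ}
    (hf : ∀ a b, f (pt b - pt a) = fv b - fv a) (a b : κ) :
    ∃ c, pt c = pt a + p (pt b - pt a) ∧ fv c = fv a + f (p (pt b - pt a)) := by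
  obtain ⟨c, hc⟩ := hp.2 a b
  refine ⟨c, hc, ?_⟩
  have h1 := hf a c
  rw [hc, add_sub_cancel_left] at h1
  linarith

theorem c7_contra {pt : κ → V} {p : Module.End ℚ V} (hp : Spl pt p) {δ : V}
    {f : Module.Dual ℚ V} {fv : κ → ℚ} (hf : ∀ a b, f (pt b - pt a) = fv b - fv a)
    (h3 : ∀ a, fv a = -1 ∨ fv a = 0 ∨ fv a = 1) {a₀ a₁ : κ} (ha₀ : fv a₀ = -1)
    (ha₁ : pt a₁ = pt a₀ + δ) (ha₁' : fv a₁ = 1)
    (hminus : ∀ a, fv a = -1 → ∃ c, pt c = pt a + δ ∧ fv c = 1)
    (hδ : p δ ≠ 0) (h0 : f (p δ) = 0) : False := by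
  have : Nonempty κ := ⟨a₀⟩
  have hpp : ∀ u, p (p u) = p u := fun u => by
    have := congrArg (fun g : Module.End ℚ V => g u) hp.1
    simpa [Module.End.mul_apply] using this
  refine c7_trans (fun b => p (pt b)) hδ fun b => ?_
  obtain ⟨c, hc, hc'⟩ := c7_mix hp hf a₀ b
  obtain ⟨m, hm, hm'⟩ := c7_mix hp hf a₁ b
  have e1 : f (p (pt b - pt a₁)) = f (p (pt b - pt a₀)) := by
    rw [ha₁, show pt b - (pt a₀ + δ) = (pt b - pt a₀) - δ by abel, map_sub, map_sub, h0, sub_zero]
  rw [e1, ha₁'] at hm'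
  rw [ha₀] at hc'
  have hfc : fv c = -1 := by
    rcases h3 c with h | h | h
    · exact h
    · rcases h3 m with h' | h' | h' <;> linarith
    · rcases h3 m with h' | h' | h' <;> linarith
  obtain ⟨d, hd, -⟩ := hminus c hfc
  refine ⟨d, ?_⟩
  rw [hd, hc, map_add, map_add, hpp, map_sub]
  abel

/-- PROOF. Let `a₀` be a point with `fv a₀ = -1`.  `f δ = 2` (`hminus`).  Notation: for a point `b` let `b_q` be the point with
`pt b_q = pt a₀ + q (pt b - pt a₀)`.  `a₁ := ` the point `a₀ + (1 - q) δ` exists: `pt a₀ + δ` is a point by `hminus`, and so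
`pt a₀ + (1 - q) δ` is a point, in the same way `pt a₀ + q δ`.
`f (q δ) + f ((1 - q) δ) = 2`, and `f (q δ)`, `f ((1 - q) δ)` are in `{0, 1, 2}` because `-1 + f (q δ)` and `-1 + f ((1 - q) δ)` are values
of `fv`.  Let `t b = f (q (pt b - pt a₀))`, so `fv b_q = -1 + t b`, `t b ∈ {0, 1, 2}`.
(1) `f (q δ) = 0`, `f ((1 - q) δ) = 2` is impossible: the point with coordinate `q` of `b` and coordinate `1 - q` of `a₀ + δ` has
`fv = -1 + t b + 2`, so `t b = 0` for all `b`, so `fv b_q = -1` and `pt b_q + δ` is a point for all `b`.  Hence the finite set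
`{q (pt b)}` is mapped to itself by the translation by `q δ ≠ 0` (the coordinate `q` of `pt b_q + δ` is `q (pt b) + q δ`), contradiction (a finite
set stable under a nonzero translation is empty: `b, b + q δ, b + 2 q δ, ...` are pairwise different).
(2) `f (q δ) = 2`, `f ((1 - q) δ) = 0` is impossible for the same reason with `1 - q` instead of `q`.
(3) So `f (q δ) = 1 = f ((1 - q) δ)`.  The point with coordinate `q` of `b` and coordinate `1 - q` of `a₀ + δ` has `fv = -1 + t b + 1 = t b`,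
so `t b ∈ {0, 1}`.  If `t b = 0` then `fv b_q = -1`, `pt b_q + δ` is a point, so there is a point `c` with `q (pt c) = q (pt b) + q δ`.  If
`t b = 1`, the point `pt b_q + (1 - q) δ` has `fv = 1`, so `hplus` gives a point `c` with `q (pt c) = q (pt b) - q δ`.
Let `p₁ u = f (q u) • q δ`, a linear map; `p₁ * p₁ = p₁`, `p₁ * q = p₁`, `p₁ δ ≠ 0`.  It is a splitting: for points `a`, `b`,
`p₁ (pt b - pt a) = (t b - t a) • q δ` with `t b - t a ∈ {-1, 0, 1}`; if it is `1` then `t a = 0`, there is `c` with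
`q (pt c) = q (pt a) + q δ`, and `pt a + q (pt c - pt a) = pt a + q δ` is a point; the same for `-1`.  As `q` is an atom, `p₁ = q`.  So
`q (pt b) = q (pt a₀) + t b • q δ` has exactly the two values `q (pt a₀)`, `q (pt a₀) + q δ` (the second one for `b = a₀ + δ`). -/
theorem root_two {pt : κ → V} (hs : Spans pt) {q : Module.End ℚ V} (hq : Atom pt q) {δ : V}
    {f : Module.Dual ℚ V} {fv : κ → ℚ} (hf : ∀ a b, f (pt b - pt a) = fv b - fv a)
    (h3 : ∀ a, fv a = -1 ∨ fv a = 0 ∨ fv a = 1) (hex : ∃ a, fv a = -1)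
    (hminus : ∀ a, fv a = -1 → ∃ c, pt c = pt a + δ ∧ fv c = 1)
    (hplus : ∀ a, fv a = 1 → ∃ c, pt c = pt a - δ ∧ fv c = -1)
    (hδ : q δ ≠ 0) (hδ' : (1 - q) δ ≠ 0) : cnt pt q = 2 := by
  obtain ⟨a₀, ha₀⟩ := hex
  obtain ⟨a₁, ha₁, ha₁'⟩ := hminus a₀ ha₀
  obtain ⟨hqs, hq0, hqmin⟩ := hq
  have hqq : ∀ u, q (q u) = q u := fun u => by
    have := congrArg (fun g : Module.End ℚ V => g u) hqs.1
    simpa [Module.End.mul_apply] using this
  have hfδ : f δ = 2 := by
    have h1 := hf a₀ a₁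
    rw [ha₁, add_sub_cancel_left, ha₁', ha₀] at h1
    rw [h1]; norm_num
  have hsum : f (q δ) + f ((1 - q) δ) = 2 := by
    rw [← map_add, LinearMap.sub_apply, Module.End.one_apply, add_sub_cancel, hfδ]
  -- the value `t b`
  have ht : ∀ b, ∃ c, pt c = pt a₀ + q (pt b - pt a₀) ∧ fv c = -1 + f (q (pt b - pt a₀)) := by
    intro b
    obtain ⟨c, hc, hc'⟩ := c7_mix hqs hf a₀ b
    exact ⟨c, hc, by rw [hc', ha₀]⟩
  have hx : f (q δ) = 1 := by
    obtain ⟨c, hc, hc'⟩ := ht a₁
    rw [ha₁, add_sub_cancel_left] at hc'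
    rcases h3 c with h | h | h
    · exact (c7_contra hqs hf h3 ha₀ ha₁ ha₁' hminus hδ (by linarith)).elim
    · linarith
    · exact (c7_contra hqs.compl hf h3 ha₀ ha₁ ha₁' hminus hδ' (by linarith)).elim
  -- the mixed point over `a₁`
  have hm : ∀ b, ∃ m, pt m = pt a₀ + δ + q (pt b - pt a₀) - q δ ∧ fv m = f (q (pt b - pt a₀)) := by
    intro b
    obtain ⟨m, hm, hm'⟩ := c7_mix hqs hf a₁ b
    have e1 : q (pt b - pt a₁) = q (pt b - pt a₀) - q δ := by
      rw [ha₁, show pt b - (pt a₀ + δ) = (pt b - pt a₀) - δ by abel, map_sub]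
    refine ⟨m, ?_, ?_⟩
    · rw [hm, e1, ha₁]; abel
    · rw [hm', e1, map_sub, hx, ha₁']; ring
  have ht01 : ∀ b, f (q (pt b - pt a₀)) = 0 ∨ f (q (pt b - pt a₀)) = 1 := by
    intro b
    obtain ⟨c, -, hc'⟩ := ht b
    obtain ⟨m, -, hm'⟩ := hm b
    rcases h3 c with h | h | h <;> rcases h3 m with h' | h' | h' <;>
      first
        | (left; linarith)
        | (right; linarith)
  have hup : ∀ b, f (q (pt b - pt a₀)) = 0 → ∃ c, q (pt c) = q (pt b) + q δ := by
    intro b hb
    obtain ⟨c, hc, hc'⟩ := ht b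
    obtain ⟨d, hd, -⟩ := hminus c (by rw [hc', hb]; norm_num)
    refine ⟨d, ?_⟩
    rw [hd, hc, map_add, map_add, hqq, map_sub]
    abel
  have hdown : ∀ b, f (q (pt b - pt a₀)) = 1 → ∃ c, q (pt c) = q (pt b) - q δ := by
    intro b hb
    obtain ⟨m, hm1, hm'⟩ := hm b
    obtain ⟨d, hd, -⟩ := hplus m (by rw [hm', hb])
    refine ⟨d, ?_⟩
    rw [hd, hm1]
    simp only [map_sub, map_add, hqq]
    abel
  set p₁ : Module.End ℚ V := (f ∘ₗ q).smulRight (q δ) with hp₁
  have hp₁a : ∀ u, p₁ u = f (q u) • q δ := fun u => by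
    simp [hp₁]
  have hp₁q : p₁ * q = p₁ := by
    ext u
    rw [Module.End.mul_apply, hp₁a, hp₁a, hqq]
  have hdiff : ∀ a b, q (pt b - pt a) = q (pt b - pt a₀) - q (pt a - pt a₀) := by
    intro a b
    rw [← map_sub]; congr 1; abel
  have hspl : Spl pt p₁ := by
    refine ⟨?_, fun a b => ?_⟩
    · ext u
      rw [Module.End.mul_apply, hp₁a, hp₁a, map_smul, hqq, map_smul, hx, smul_eq_mul, mul_one]
    · have h1 : p₁ (pt b - pt a) = (f (q (pt b - pt a₀)) - f (q (pt a - pt a₀))) • q δ := by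
        rw [hp₁a, hdiff, map_sub]
      rw [h1]
      rcases ht01 a with h | h <;> rcases ht01 b with h' | h'
      · exact ⟨a, by rw [h, h']; simp⟩
      · obtain ⟨c, hc⟩ := hup a h
        obtain ⟨d, hd⟩ := hqs.2 a c
        refine ⟨d, ?_⟩
        rw [hd, h, h', map_sub, hc]
        simp
      · obtain ⟨c, hc⟩ := hdown a h
        obtain ⟨d, hd⟩ := hqs.2 a c
        refine ⟨d, ?_⟩
        rw [hd, h, h', map_sub, hc]
        simp
      · exact ⟨a, by rw [h, h']; simp⟩
  have hp₁0 : p₁ ≠ 0 := by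
    intro h
    have h1 := hp₁a δ
    rw [h, hx, one_smul] at h1
    exact hδ (by simpa using h1.symm)
  have hpq : p₁ = q := (hqmin p₁ hspl hp₁q).resolve_left hp₁0
  have hval : ∀ b, q (pt b) = q (pt a₀) + f (q (pt b - pt a₀)) • q δ := by
    intro b
    have h1 : q (pt b - pt a₀) = f (q (pt b - pt a₀)) • q δ := by
      conv_lhs => rw [← hpq, hp₁a]
    rw [← h1, map_sub]
    abel
  classical
  have himg : (Finset.univ.image fun a => q (pt a)) = {q (pt a₀), q (pt a₀) + q δ} := by
    ext u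
    simp only [Finset.mem_image, Finset.mem_univ, true_and, Finset.mem_insert, Finset.mem_singleton]
    constructor
    · rintro ⟨b, rfl⟩
      rw [hval b]
      rcases ht01 b with h | h
      · left; rw [h]; simp
      · right; rw [h]; simp
    · rintro (rfl | rfl)
      · exact ⟨a₀, rfl⟩
      · exact ⟨a₁, by rw [ha₁, map_add]⟩
  have hne : q (pt a₀) ≠ q (pt a₀) + q δ := by
    intro h
    exact hδ (by simpa using h.symm)
  unfold cnt
  convert Finset.card_pair hne

end Pool.Agent.H76P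
end
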