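import Mathlib
import Pool.Agent.Lib.H1M.RC.D_CFT_D0
import Pool.Agent.Lib.H1M.RC.M002

/-! Merged copies (to shorten the build) of Lib.CFT.D1, Lib.CFT.D2, Lib.CFT.B01, Lib.CFT.B02, Lib.CFT.B04, Lib.CFT.B06, Lib.CFT.B03, Lib.H69H.A1, Lib.H69H.Defs, Lib.H69H.U1, Lib.H86E.Blocks, Lib.CFT.B07, Lib.H69H.D2, Lib.H69H.C1, Lib.H69H.D1, Lib.H69H.D3, Lib.H69H.D4, Lib.H69H.D5, Lib.H55R.Defs, Lib.CFT.ZA, Lib.CFT.YDefs, Lib.CFT.Y01, Lib.CFT.Y02, Lib.H69H.U2. -/

-- from Lib.CFT.D1
section

/-! # CFT: further definitions (primes above a set, restriction of automorphisms) -/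

open NumberField IsDedekindDomain

namespace CFT

section

variable (K : Type) [Field K] [NumberField K] (L : Type) [Field L] [NumberField L] [Algebra K L]

theorem below_fin (v : Pr K) : {w : Pr L | below K w = v}.Finite := by
  have h := IsDedekindDomain.primesOver_finite v.asIdeal (𝓞 L)
  refine Set.Finite.of_finite_image (f := fun w : Pr L => w.asIdeal) (h.subset ?_) ?_
  · rintro _ ⟨w, hw, rfl⟩
    refine ⟨w.isPrime, ⟨?_⟩⟩
    rw [← (show below K w = v from hw)]
    rfl
  · intro a _ b _ hab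
    exact HeightOneSpectrum.ext hab

theorem up_fin (S : Finset (Pr K)) : {w : Pr L | below K w ∈ S}.Finite := by
  have h : {w : Pr L | below K w ∈ S} = ⋃ v ∈ S, {w : Pr L | below K w = v} := by
    ext w
    simp
  rw [h]
  exact Set.Finite.biUnion S.finite_toSet fun v _ => below_fin K L v

variable {K} in
/-- The primes of L above S. -/
noncomputable def up (S : Finset (Pr K)) : Finset (Pr L) := (up_fin K L S).toFinset

variable {K L} in
theorem mem_up (S : Finset (Pr K)) (w : Pr L) : w ∈ up L S ↔ below K w ∈ S := by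
  unfold up
  rw [Set.Finite.mem_toFinset]
  rfl

end

section

variable (K : Type) [Field K] (L : Type) [Field L] [Algebra K L] (E : Type) [Field E] [Algebra K E]
  (M : Type) [Field M] [Algebra K M] [Algebra L M] [Algebra E M] [IsScalarTower K L M] [IsScalarTower K E M]

/-- The restriction of the automorphisms of M over E to the normal extension L of K (E and L are subfields of M). -/
noncomputable def resE [Normal K L] : (M ≃ₐ[E] M) →* (L ≃ₐ[K] L) where
  toFun s := AlgEquiv.restrictNormalHom L (s.restrictScalars K)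
  map_one' := by
    have h : (1 : M ≃ₐ[E] M).restrictScalars K = 1 := rfl
    rw [h, map_one]
  map_mul' s t := by
    have h : (s * t).restrictScalars K = s.restrictScalars K * t.restrictScalars K := rfl
    rw [h, map_mul]

variable {K L E M} in
theorem resE_spec [Normal K L] (s : M ≃ₐ[E] M) (x : L) : algebraMap L M (resE K L E M s x) = s (algebraMap L M x) :=
  AlgEquiv.restrictNormal_commutes (s.restrictScalars K) L x

end

end CFT
end

-- from Lib.CFT.D2
section

/-! # CFT: ideal of a divisor, absolute norm of a divisor, conorm -/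

open NumberField IsDedekindDomain

namespace CFT

section

variable {K : Type} [Field K] [NumberField K]

/-- The ideal of a divisor (negative coefficients are ignored). -/
noncomputable def idl (D : Dv K) : Ideal (𝓞 K) := D.prod fun v n => v.asIdeal ^ n.toNat

/-- The absolute norm of a divisor. -/
noncomputable def nD (D : Dv K) : ℚ := D.prod fun v n => (Nm v : ℚ) ^ n

theorem Nm_pos (v : Pr K) : 0 < Nm v := by
  unfold Nm
  exact Nat.pos_of_ne_zero (fun h => v.ne_bot (Ideal.absNorm_eq_zero_iff.1 h))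



theorem nD_add (D E : Dv K) : nD (D + E) = nD D * nD E := by
  classical
  unfold nD
  rw [Finsupp.prod_add_index]
  · intro v _
    exact zpow_zero _
  · intro v _ a b
    exact zpow_add₀ (Nat.cast_ne_zero.2 (Nm_pos v).ne') a b

end

section

variable (K : Type) [Field K] [NumberField K] (L : Type) [Field L] [NumberField L] [Algebra K L]

variable {K} in
/-- The primes of L above v. -/
noncomputable def abv (v : Pr K) : Finset (Pr L) := (below_fin K L v).toFinset

variable {K L} in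
theorem mem_abv (v : Pr K) (w : Pr L) : w ∈ abv L v ↔ below K w = v := by
  unfold abv
  rw [Set.Finite.mem_toFinset]
  rfl

/-- The conorm (the divisor of K as a divisor of L). -/
noncomputable def Cn : Dv K →+ Dv L :=
  Finsupp.liftAddHom fun v => ∑ w ∈ abv L v, ((Finsupp.singleAddHom w).comp
    (AddMonoidHom.mulLeft ((w.asIdeal.ramificationIdx (𝓞 K) : ℕ) : ℤ)))

theorem Nd_single (w : Pr L) (n : ℤ) :
    Nd K L (Finsupp.single w n) = Finsupp.single (below K w) ((w.asIdeal.inertiaDeg (𝓞 K) : ℕ) * n) := by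
  unfold Nd
  rw [Finsupp.liftAddHom_apply_single]
  rfl

theorem Cn_single (v : Pr K) (n : ℤ) :
    Cn K L (Finsupp.single v n) = ∑ w ∈ abv L v, Finsupp.single w ((w.asIdeal.ramificationIdx (𝓞 K) : ℕ) * n) := by
  unfold Cn
  rw [Finsupp.liftAddHom_apply_single, AddMonoidHom.finsetSum_apply]
  rfl

variable {K L}

open Classical in
theorem art_single (S : Finset (Pr K)) {A : Type} [CommGroup A] (χ : (L ≃ₐ[K] L) →* A) (v : Pr K) (n : ℤ) :
    art S χ (Finsupp.single v n) = n • (if v ∈ S then 0 else Additive.ofMul (χ (frob K L v))) := by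
  unfold art
  rw [Finsupp.liftAddHom_apply_single]
  rfl

theorem art_single_of_notMem {S : Finset (Pr K)} {A : Type} [CommGroup A] (χ : (L ≃ₐ[K] L) →* A) {v : Pr K} (hv : v ∉ S) (n : ℤ) :
    art S χ (Finsupp.single v n) = n • Additive.ofMul (χ (frob K L v)) := by
  classical
  rw [art_single, if_neg hv]

theorem art_single_of_mem {S : Finset (Pr K)} {A : Type} [CommGroup A] (χ : (L ≃ₐ[K] L) →* A) {v : Pr K} (hv : v ∈ S) (n : ℤ) :
    art S χ (Finsupp.single v n) = 0 := by
  classical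
  rw [art_single, if_pos hv, smul_zero]

theorem art_comp (S : Finset (Pr K)) {A B : Type} [CommGroup A] [CommGroup B] (f : A →* B) (χ : (L ≃ₐ[K] L) →* A) (D : Dv K) :
    art S (f.comp χ) D = (MonoidHom.toAdditive f) (art S χ D) := by
  have h : art S (f.comp χ) = (MonoidHom.toAdditive f).comp (art S χ) := by
    refine Finsupp.addHom_ext fun v n => ?_
    rw [AddMonoidHom.comp_apply]
    by_cases hv : v ∈ S
    · rw [art_single_of_mem _ hv, art_single_of_mem _ hv, map_zero]
    · rw [art_single_of_notMem _ hv, art_single_of_notMem _ hv, map_zsmul]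
      rfl
  rw [h]
  rfl

/-- The Artin symbol depends only on the coefficients outside S. -/
theorem art_congr (S : Finset (Pr K)) {A : Type} [CommGroup A] (χ : (L ≃ₐ[K] L) →* A) {D E : Dv K} (h : ∀ v ∉ S, D v = E v) :
    art S χ D = art S χ E := by
  classical
  have h0 : ∀ F : Dv K, (∀ v ∉ S, F v = 0) → art S χ F = 0 := by
    intro F hF
    have e : F = ∑ v ∈ F.support, Finsupp.single v (F v) := (Finsupp.sum_single F).symm
    rw [e, map_sum]
    refine Finset.sum_eq_zero fun v hv => ?_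
    by_cases hS : v ∈ S
    · exact art_single_of_mem χ hS _
    · rw [hF v hS, Finsupp.single_zero, map_zero]
  have h1 := h0 (D - E) fun v hv => by rw [Finsupp.sub_apply, h v hv, sub_self]
  rw [map_sub, sub_eq_zero] at h1
  exact h1


/-- The ray conditions. -/
theorem Ray.mono {S T : Finset (Pr K)} (hST : S ⊆ T) {N M : ℕ} (hNM : N ≤ M) {x : K} (h : Ray T M x) : Ray S N x := by
  refine ⟨h.ne, fun v hv => (h.cong v (hST hv)).trans_le ?_, h.pos⟩
  rw [WithZero.exp_le_exp]
  omega

theorem Ray.od_eq {S : Finset (Pr K)} {N : ℕ} {x : K} (h : Ray S N x) {v : Pr K} (hv : v ∈ S) : od v x = 0 := by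
  unfold od
  rw [h.unit hv, WithZero.log_one, neg_zero]

theorem dv_mem_Pray {S : Finset (Pr K)} {N : ℕ} {x : K} (h : Ray S N x) : dv x ∈ Pray S N := ⟨x, h, fun _ _ => rfl⟩


/-- Divisors supported on S are in Pray S N. -/
theorem supp_mem_Pray {S : Finset (Pr K)} (N : ℕ) {D : Dv K} (h : ∀ v ∉ S, D v = 0) : D ∈ Pray S N :=
  ⟨1, ray_one S N, fun v hv => by rw [h v hv, od_one]⟩


end

end CFT
end

-- from Lib.CFT.B01
section

/-! # CFT module B, chunk B01: orders of algebraic integers -/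

open NumberField IsDedekindDomain

namespace CFT

variable {K : Type} [Field K] [NumberField K]


/-- PROOF. od v r = -log (v.valuation K r), v.valuation_le_one r; WithZero.log is monotone on nonzero elements (r = 0: od = 0). -/
theorem od_nonneg (v : Pr K) (r : 𝓞 K) : 0 ≤ od v (r : K) := by
  by_cases hr : r = 0
  · subst hr
    have e : ((0 : 𝓞 K) : K) = 0 := map_zero _
    rw [e, od_zero]
  · have hr' : (r : K) ≠ 0 := fun h => hr (RingOfIntegers.coe_eq_zero_iff.1 h)
    have h1 : v.valuation K (r : K) ≤ 1 := v.valuation_le_one r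
    rw [val_eq v hr', ← WithZero.exp_zero, WithZero.exp_le_exp] at h1
    omega

/-- PROOF. HeightOneSpectrum.valuation_lt_one_iff_dvd / valuation_le_pow_iff_dvd (or intValuation_le_pow_iff_mem) and valuation_of_algebraMap; val_eq in D0. -/
theorem od_le_iff (v : Pr K) {r : 𝓞 K} (hr : r ≠ 0) (n : ℕ) : (n : ℤ) ≤ od v (r : K) ↔ r ∈ v.asIdeal ^ n := by
  have hr' : (r : K) ≠ 0 := fun h => hr (RingOfIntegers.coe_eq_zero_iff.1 h)
  rw [← v.intValuation_le_pow_iff_mem r n, ← v.valuation_of_algebraMap (K := K) r]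
  have h1 : v.valuation K (algebraMap (𝓞 K) K r) = WithZero.exp (-od v (r : K)) := val_eq v hr'
  rw [h1, WithZero.exp_le_exp]
  omega

/-- PROOF. From od_le_iff with n = 1. -/
theorem od_pos_iff (v : Pr K) {r : 𝓞 K} (hr : r ≠ 0) : 0 < od v (r : K) ↔ r ∈ v.asIdeal := by
  have h := od_le_iff v hr 1
  rw [pow_one] at h
  rw [← h]
  norm_cast


/-- PROOF. val_eq and WithZero.exp_lt_exp. -/
theorem val_lt_iff (v : Pr K) {x : K} (hx : x ≠ 0) (N : ℤ) : v.valuation K x < WithZero.exp (-N) ↔ N < od v x := by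
  rw [val_eq v hx, WithZero.exp_lt_exp]
  omega

end CFT
end

-- from Lib.CFT.B02
section

/-! # CFT module B, chunk B02: elements with divisor >= 0 are integral, divisor 0 are units -/

open NumberField IsDedekindDomain

namespace CFT

variable {K : Type} [Field K] [NumberField K]


/-- PROOF. If x = 0 take r = 0. Otherwise v.valuation K x <= 1 for all v by val_eq (D0), and
HeightOneSpectrum.mem_integers_of_valuation_le_one. -/
theorem int_of_od {x : K} (h : ∀ v : Pr K, 0 ≤ od v x) : ∃ r : 𝓞 K, (r : K) = x := by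
  have h1 : ∀ v : Pr K, v.valuation K x ≤ 1 := by
    intro v
    by_cases hx : x = 0
    · rw [hx, map_zero]
      exact zero_le
    · rw [val_eq v hx, ← WithZero.exp_zero, WithZero.exp_le_exp]
      have := h v
      omega
  obtain ⟨r, hr⟩ := HeightOneSpectrum.mem_integers_of_valuation_le_one (R := 𝓞 K) K x h1
  exact ⟨r, hr⟩

/-- PROOF. int_of_od for x and for its inverse (od_inv). -/
theorem unit_of_dv {x : K} (hx : x ≠ 0) (h : dv x = 0) : ∃ u : (𝓞 K)ˣ, ((u : 𝓞 K) : K) = x := by
  have h1 : ∀ v : Pr K, od v x = 0 := fun v => by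
    rw [← dv_apply, h]
    rfl
  obtain ⟨r, hr⟩ := int_of_od (x := x) fun v => (h1 v).ge
  obtain ⟨t, ht⟩ := int_of_od (x := x⁻¹) fun v => by rw [od_inv, h1 v, neg_zero]
  have h2 : r * t = 1 := by
    apply RingOfIntegers.coe_injective
    rw [map_mul, map_one]
    have e1 : algebraMap (𝓞 K) K r = x := hr
    have e2 : algebraMap (𝓞 K) K t = x⁻¹ := ht
    rw [e1, e2, mul_inv_cancel₀ hx]
  exact ⟨Units.mkOfMulEqOne r t h2, hr⟩

/-- PROOF. u and its inverse are algebraic integers: od_nonneg (B01) twice and od_inv. -/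
theorem dv_unit (u : (𝓞 K)ˣ) : dv ((u : 𝓞 K) : K) = 0 := by
  ext v
  rw [dv_apply]
  have h1 := od_nonneg v (u : 𝓞 K)
  have h2 := od_nonneg v ((u⁻¹ : (𝓞 K)ˣ) : 𝓞 K)
  have h3 : (((u⁻¹ : (𝓞 K)ˣ) : 𝓞 K) : K) = ((u : 𝓞 K) : K)⁻¹ := by
    apply eq_inv_of_mul_eq_one_left
    have e : ((u⁻¹ : (𝓞 K)ˣ) : 𝓞 K) * (u : 𝓞 K) = 1 := u.inv_mul
    have e2 := congrArg (fun z : 𝓞 K => (z : K)) e
    simpa using e2
  rw [h3, od_inv] at h2
  show od v ((u : 𝓞 K) : K) = 0
  omega


end CFT
end

-- from Lib.CFT.B04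
section

/-! # CFT module B, chunk B04: divisors and ideals -/

open NumberField IsDedekindDomain

namespace CFT

variable {K : Type} [Field K] [NumberField K]


theorem b04_idl (D : Dv K) (T : Finset (Pr K)) (h : D.support ⊆ T) :
    idl D = ∏ v ∈ T, v.asIdeal ^ (D v).toNat := by
  unfold idl
  rw [Finsupp.prod_of_support_subset D h]
  intro v _
  simp

theorem b04_idl_single (v : Pr K) (k : ℤ) : idl (Finsupp.single v k) = v.asIdeal ^ k.toNat := by
  unfold idl
  rw [Finsupp.prod_single_index]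
  simp

theorem b04_single (v : Pr K) {k : ℤ} (hk : 0 ≤ k) (w : Pr K) : 0 ≤ (Finsupp.single v k : Dv K) w := by
  classical
  rw [Finsupp.single_apply]
  split_ifs
  · exact hk
  · exact le_rfl

/-- PROOF. Finsupp.prod_add_index' needs v^(a+b).toNat = v^a.toNat v^b.toNat, true for a, b >= 0; write both sides as products over the union of the supports
(Finsupp.prod_of_support_subset). -/
theorem idl_add {D E : Dv K} (hD : ∀ v, 0 ≤ D v) (hE : ∀ v, 0 ≤ E v) : idl (D + E) = idl D * idl E := by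
  classical
  rw [b04_idl (D + E) (D.support ∪ E.support) Finsupp.support_add,
    b04_idl D (D.support ∪ E.support) Finset.subset_union_left,
    b04_idl E (D.support ∪ E.support) Finset.subset_union_right, ← Finset.prod_mul_distrib]
  refine Finset.prod_congr rfl fun v _ => ?_
  rw [← pow_add, Finsupp.add_apply, Int.toNat_add (hD v) (hE v)]

/-- PROOF. Product of nonzero ideals. -/
theorem idl_ne_zero (D : Dv K) : idl D ≠ ⊥ := by
  unfold idl Finsupp.prod
  rw [← Ideal.zero_eq_bot, Finset.prod_ne_zero_iff]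
  intro v _
  exact pow_ne_zero _ v.ne_bot

/-- PROOF. Ideal.finprod_heightOneSpectrum_factorization: a nonzero ideal is the finite product of v^(count). Take D v = the count. -/
theorem exists_idl {I : Ideal (𝓞 K)} (hI : I ≠ ⊥) : ∃ D : Dv K, (∀ v, 0 ≤ D v) ∧ idl D = I := by
  revert hI
  refine UniqueFactorizationMonoid.induction_on_prime (P := fun I : Ideal (𝓞 K) => I ≠ ⊥ →
    ∃ D : Dv K, (∀ v, 0 ≤ D v) ∧ idl D = I) I ?_ ?_ ?_
  · intro h
    exact absurd rfl h
  · intro J hJ _
    refine ⟨0, fun v => le_rfl, ?_⟩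
    have h1 : J = 1 := (Ideal.isUnit_iff.1 hJ).trans Ideal.one_eq_top.symm
    rw [h1]
    exact Finsupp.prod_zero_index
  · intro J p hJ hp ih _
    obtain ⟨D, hD, hDJ⟩ := ih hJ
    have hp0 : p ≠ ⊥ := hp.ne_zero
    let v : Pr K := ⟨p, Ideal.isPrime_of_prime hp, hp0⟩
    refine ⟨Finsupp.single v 1 + D, fun w => ?_, ?_⟩
    · rw [Finsupp.add_apply]
      have h1 := hD w
      have h2 := b04_single v (k := 1) (by norm_num) w
      omega
    · rw [idl_add (b04_single v (by norm_num)) hD, hDJ, b04_idl_single]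
      show p ^ _ * J = p * J
      simp

/-- PROOF. The count of v in the factorization of idl D is (D v).toNat: the v are pairwise different primes. E.g. v^n divides idl D iff n <= (D v).toNat:
Associates.count / normalizedFactors of a product of prime powers, or Ideal.iInf / multiplicity. -/
theorem le_idl_iff {D : Dv K} (hD : ∀ v, 0 ≤ D v) (v : Pr K) (n : ℕ) : v.asIdeal ^ n ∣ idl D ↔ (n : ℤ) ≤ D v := by
  have h1 : D = D.erase v + Finsupp.single v (D v) := (Finsupp.erase_add_single v D).symm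
  have h2 : ∀ w, 0 ≤ D.erase v w := by
    intro w
    by_cases hw : w = v
    · rw [hw, Finsupp.erase_same]
    · rw [Finsupp.erase_ne hw]
      exact hD w
  have h3 : idl D = v.asIdeal ^ (D v).toNat * idl (D.erase v) := by
    conv_lhs => rw [h1]
    rw [idl_add h2 (b04_single v (hD v)), b04_idl_single, mul_comm]
  have h4 : ¬ v.asIdeal ∣ idl (D.erase v) := by
    classical
    intro h
    unfold idl Finsupp.prod at h
    obtain ⟨w, hw, hw2⟩ := v.prime.exists_mem_finset_dvd h
    have h5 : v.asIdeal ∣ w.asIdeal := v.prime.dvd_of_dvd_pow hw2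
    have h6 : w.asIdeal ≤ v.asIdeal := Ideal.dvd_iff_le.1 h5
    have h7 : w.asIdeal = v.asIdeal := w.isMaximal.eq_of_le v.isPrime.ne_top h6
    have h8 : w = v := HeightOneSpectrum.ext h7
    rw [h8, Finsupp.support_erase] at hw
    exact (Finset.notMem_erase v _) hw
  have hv0 : v.asIdeal ≠ 0 := v.ne_bot
  have h0 := hD v
  rw [h3]
  constructor
  · intro h
    by_contra hlt
    have h5 : (D v).toNat < n := by omega
    obtain ⟨k, hk⟩ := Nat.exists_eq_add_of_lt h5
    have h6 : v.asIdeal ^ n = v.asIdeal ^ (D v).toNat * (v.asIdeal * v.asIdeal ^ k) := by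
      rw [hk, ← pow_succ', ← pow_add, add_assoc]
    rw [h6] at h
    have h7 := (mul_dvd_mul_iff_left (pow_ne_zero _ hv0)).1 h
    exact h4 ((dvd_mul_right _ _).trans h7)
  · intro h
    have h5 : n ≤ (D v).toNat := by omega
    exact (pow_dvd_pow _ h5).trans (dvd_mul_right _ _)

/-- PROOF. From le_idl_iff. -/
theorem idl_inj {D E : Dv K} (hD : ∀ v, 0 ≤ D v) (hE : ∀ v, 0 ≤ E v) (h : idl D = idl E) : D = E := by
  ext v
  have h1 := hD v
  have h2 := hE v
  have h3 := (le_idl_iff hD v (D v).toNat).2 (by omega)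
  have h4 := (le_idl_iff hE v (E v).toNat).2 (by omega)
  rw [h] at h3
  rw [← h] at h4
  have h5 := (le_idl_iff hE v (D v).toNat).1 h3
  have h6 := (le_idl_iff hD v (E v).toNat).1 h4
  omega

/-- PROOF. Both sides are nonzero ideals and v^n divides span {r} iff r in v^n iff n <= od v r (od_le_iff, B01) iff v^n divides idl (dv r) (le_idl_iff). With exists_idl and
le_idl_iff they are equal. -/
theorem idl_dv {r : 𝓞 K} (hr : r ≠ 0) : idl (dv (r : K)) = Ideal.span {r} := by
  obtain ⟨E, hE, hE2⟩ := exists_idl (K := K) (I := Ideal.span {r}) (fun h => hr (Ideal.span_singleton_eq_bot.1 h))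
  have h1 : dv (r : K) = E := by
    ext v
    rw [dv_apply]
    have h2 := od_nonneg v r
    have h3 := hE v
    have h4 : ∀ n : ℕ, (n : ℤ) ≤ od v (r : K) ↔ (n : ℤ) ≤ E v := by
      intro n
      rw [od_le_iff v hr n, ← le_idl_iff hE v n, hE2, Ideal.dvd_span_singleton]
    have h5 := (h4 (od v (r : K)).toNat).1 (by omega)
    have h6 := (h4 (E v).toNat).2 (by omega)
    omega
  rw [h1, hE2]

/-- PROOF. absNorm is multiplicative (map_finsuppProd), Nm v = absNorm v.asIdeal. -/
theorem nD_idl {D : Dv K} (hD : ∀ v, 0 ≤ D v) : (Ideal.absNorm (idl D) : ℚ) = nD D := by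
  unfold idl nD Finsupp.prod
  rw [map_prod, Nat.cast_prod]
  refine Finset.prod_congr rfl fun v _ => ?_
  have h1 : D v = ((D v).toNat : ℤ) := (Int.toNat_of_nonneg (hD v)).symm
  rw [map_pow, Nat.cast_pow]
  conv_rhs => rw [h1]
  exact (zpow_natCast _ _).symm

end CFT
end

-- from Lib.CFT.B06
section

/-! # CFT module B, chunk B06: below: surjective, order of an element of K at a prime of L, norm of a prime -/

open NumberField IsDedekindDomain

namespace CFT

variable {K : Type} [Field K] [NumberField K] {L : Type} [Field L] [NumberField L] [Algebra K L]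


/-- PROOF. There is a prime of O_L over v (Ideal.exists_ideal_over_prime_of_isIntegral or primesOver_nonempty), it is not 0. -/
theorem below_surj : Function.Surjective (below K : Pr L → Pr K) := by
  intro v
  have hinj : Function.Injective (algebraMap (𝓞 K) (𝓞 L)) := FaithfulSMul.algebraMap_injective _ _
  obtain ⟨Q, hQ, hQv⟩ := Ideal.exists_ideal_over_prime_of_isIntegral_of_isDomain (S := 𝓞 L) v.asIdeal
    (by rw [(RingHom.injective_iff_ker_eq_bot _).1 hinj]; exact bot_le)
  have hne : Q ≠ ⊥ := by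
    rintro rfl
    apply v.ne_bot
    rw [← hQv]
    exact Ideal.comap_bot_of_injective _ hinj
  refine ⟨⟨Q, hQ, hne⟩, ?_⟩
  apply HeightOneSpectrum.ext
  exact hQv

/-- PROOF. ramificationIdx (O_K) is positive: Ideal.ramificationIdx_ne_zero (or via ramificationIdx' and ramificationIdx'_ne_zero_of_liesOver). -/
theorem e_pos (w : Pr L) : 0 < w.asIdeal.ramificationIdx (𝓞 K) := by
  haveI := w.isPrime
  exact w.asIdeal.ramificationIdx_pos (𝓞 K)

/-- PROOF. Finite residue field extension. -/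
theorem f_pos (w : Pr L) : 0 < w.asIdeal.inertiaDeg (𝓞 K) := by
  haveI := w.isPrime
  exact w.asIdeal.inertiaDeg_pos (𝓞 K)

/-- PROOF. HeightOneSpectrum.valuation of the algebraMap: Mathlib NumberTheory/RamificationInertia/Valuation.lean (valuation_comap or similar: w.valuation (algebraMap x) = v.valuation x ^ e). -/
theorem od_alg (x : K) (w : Pr L) : od w (algebraMap K L x) = (w.asIdeal.ramificationIdx (𝓞 K) : ℤ) * od (below K w) x := by
  haveI : w.asIdeal.LiesOver (below K w).asIdeal := ⟨rfl⟩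
  haveI := w.isPrime
  have h1 := HeightOneSpectrum.valuation_liesOver L (below K w) w x
  rw [Ideal.ramificationIdx'_eq_ramificationIdx (below K w).asIdeal w.asIdeal (below K w).ne_bot] at h1
  unfold od
  rw [← h1, WithZero.log_pow, nsmul_eq_mul]
  ring

/-- PROOF. Nm w = card (O_L / w) = card (O_K / v)^f, Module.card_eq_pow_finrank (or Ideal.absNorm_eq_pow_inertiaDeg' for general base; relNorm_eq_pow_of_isMaximal with absNorm_relNorm). -/
theorem Nm_below (w : Pr L) : Nm w = Nm (below K w) ^ w.asIdeal.inertiaDeg (𝓞 K) := by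
  haveI : w.asIdeal.LiesOver (below K w).asIdeal := ⟨rfl⟩
  haveI := w.isPrime
  haveI : w.asIdeal.IsMaximal := w.isMaximal
  haveI : (below K w).asIdeal.IsMaximal := (below K w).isMaximal
  have h1 := Ideal.absNorm_eq_pow_inertiaDeg'_of_liesOver w.asIdeal (below K w).asIdeal
    (below K w).isPrime (below K w).ne_bot
  rw [Ideal.inertiaDeg'_eq_inertiaDeg] at h1
  exact h1

end CFT
end

-- from Lib.CFT.B03
section

/-! # CFT module B, chunk B03: fractions with denominator prime to S -/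

open NumberField IsDedekindDomain

namespace CFT

variable {K : Type} [Field K] [NumberField K]


/-- PROOF. x = a0 / b0 with a0, b0 in O_K. Let I = {b in O_K : b x in O_K} (an ideal, contains b0). For every v in S there is an element of I outside v.asIdeal:
otherwise ... simplest way: the ideal I is not contained in v.asIdeal: let n = od v b0 and choose c in O_K with c in w^(od w b0) for all w other than v in the support of
dv b0 and c not in v (Chinese remainder theorem IsDedekindDomain.exists_forall_sub_mem_ideal or Ideal.exists.. ) then od w (c x) >= 0 for all w (at v because od v x >= 0), so c x is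
integral (HeightOneSpectrum.mem_integers_of_valuation_le_one; same as int_of_od of B02) and c in I, c not in v. Then prime avoidance
(Ideal.subset_union_prime) gives b in I outside all v in S. Alternative in one step: Chinese remainder theorem with the primes of the support of dv b0 outside S
(c = 0 mod w^(od w b0)) and the primes of S (c = 1 mod v): b = c. That is the shortest way: od w (c x) >= 0 for w outside S because od w c >= od w b0 and od w x >= -od w b0; for
w in S because od w x >= 0. -/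
theorem frac_prime {x : K} (S : Finset (Pr K)) (hS : ∀ v ∈ S, 0 ≤ od v x) :
    ∃ a b : 𝓞 K, b ≠ 0 ∧ x = (a : K) / (b : K) ∧ ∀ v ∈ S, b ∉ v.asIdeal := by
  classical
  by_cases hx : x = 0
  · refine ⟨0, 1, one_ne_zero, ?_, fun v _ h => v.isPrime.ne_top ((Ideal.eq_top_iff_one _).2 h)⟩
    rw [hx]
    simp
  obtain ⟨a, b, hb, hxab⟩ := IsFractionRing.div_surjective (A := 𝓞 K) x
  have hb0 : b ≠ 0 := nonZeroDivisors.ne_zero hb
  have hb' : (b : K) ≠ 0 := fun h => hb0 (RingOfIntegers.coe_eq_zero_iff.1 h)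
  have hxab' : x = (a : K) / (b : K) := hxab.symm
  by_cases hSe : S = ∅
  · refine ⟨a, b, hb0, hxab', ?_⟩
    rw [hSe]
    simp
  obtain ⟨v0, hv0⟩ := Finset.nonempty_iff_ne_empty.2 hSe
  obtain ⟨c, hc⟩ := IsDedekindDomain.exists_forall_sub_mem_ideal
    (s := (dv (b : K)).support ∪ S) (fun v : Pr K => v.asIdeal)
    (fun w => if w ∈ S then 1 else (od w (b : K)).toNat) (fun v _ => v.prime)
    (fun v _ w _ hvw h => hvw (HeightOneSpectrum.ext h)) (fun w => if (w : Pr K) ∈ S then 1 else 0)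
  have hcS : ∀ v ∈ S, c ∉ v.asIdeal := by
    intro v hv hcv
    have h1 := hc v (Finset.mem_union_right _ hv)
    simp only [hv, if_true, pow_one] at h1
    have h2 : (1 : 𝓞 K) ∈ v.asIdeal := by
      have e : (1 : 𝓞 K) = c - (c - 1) := by ring
      rw [e]
      exact v.asIdeal.sub_mem hcv h1
    exact v.isPrime.ne_top ((Ideal.eq_top_iff_one _).2 h2)
  have hc0 : c ≠ 0 := fun h => hcS v0 hv0 (h ▸ v0.asIdeal.zero_mem)
  have hc' : (c : K) ≠ 0 := fun h => hc0 (RingOfIntegers.coe_eq_zero_iff.1 h)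
  have ha0 : a ≠ 0 := by
    rintro rfl
    apply hx
    rw [hxab']
    simp
  have ha' : (a : K) ≠ 0 := fun h => ha0 (RingOfIntegers.coe_eq_zero_iff.1 h)
  have hod : ∀ w : Pr K, 0 ≤ od w ((c : K) * x) := by
    intro w
    rw [od_mul w hc' hx]
    by_cases hw : w ∈ S
    · have h1 := hS w hw
      have h2 := od_nonneg w c
      omega
    · have h1 : od w (b : K) ≤ od w (c : K) := by
        by_cases hw2 : w ∈ (dv (b : K)).support
        · have h2 := hc w (Finset.mem_union_left _ hw2)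
          simp only [hw, if_false, sub_zero] at h2
          have h3 := (od_le_iff w hc0 _).2 h2
          have h4 := od_nonneg w b
          omega
        · have h2 : od w (b : K) = 0 := by
            have := Finsupp.notMem_support_iff.1 hw2
            rwa [dv_apply] at this
          rw [h2]
          exact od_nonneg w c
      have h2 : od w x = od w (a : K) - od w (b : K) := by
        rw [hxab', div_eq_mul_inv, od_mul w ha' (inv_ne_zero hb'), od_inv]
        ring
      have h3 := od_nonneg w a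
      omega
  have h1 : ∀ v : Pr K, v.valuation K ((c : K) * x) ≤ 1 := by
    intro v
    rw [val_eq v (mul_ne_zero hc' hx), ← WithZero.exp_zero, WithZero.exp_le_exp]
    have := hod v
    omega
  obtain ⟨r, hr⟩ := HeightOneSpectrum.mem_integers_of_valuation_le_one (R := 𝓞 K) K ((c : K) * x) h1
  refine ⟨r, c, hc0, ?_, hcS⟩
  have hr' : (r : K) = (c : K) * x := hr
  rw [hr']
  field_simp

end CFT
end

-- from Lib.H69H.A1
section

set_option autoImplicit false

/-! Herbrand quotients as subgroup indices (for the first inequality of class field theory). -/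

namespace Pool.Agent.H69H

variable {X : Type*} [CommGroup X]

/-- Two endomorphisms of a commutative group with `f g = g f = 1`. In the applications
`f x = σ x / x` and `g x = x * σ x * ... * σ ^ (n - 1) x`. -/
structure IsPair (f g : X →* X) : Prop where
  fg : ∀ x, f (g x) = 1
  gf : ∀ x, g (f x) = 1

/-- `A` is mapped into itself by `f` and `g`. -/
structure IsStable (f g : X →* X) (A : Subgroup X) : Prop where
  left : ∀ x ∈ A, f x ∈ A
  right : ∀ x ∈ A, g x ∈ A

/-- The order of `ker f / im g` on the quotient `B / A` (`0` if infinite). -/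
noncomputable def tate (f g : X →* X) (A B : Subgroup X) : ℕ :=
  (B.map g ⊔ A).relIndex (B ⊓ A.comap f)

/-- The Herbrand quotient of `B / A` is defined and equals `q`. -/
structure Her (f g : X →* X) (A B : Subgroup X) (q : ℚ) : Prop where
  left : tate f g A B ≠ 0
  right : tate g f A B ≠ 0
  eq : (tate f g A B : ℚ) = q * tate g f A B

theorem IsPair.symm {f g : X →* X} (h : IsPair f g) : IsPair g f := ⟨h.gf, h.fg⟩

theorem IsStable.symm {f g : X →* X} {A : Subgroup X} (h : IsStable f g A) : IsStable g f A :=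
  ⟨h.right, h.left⟩

theorem Her.pos {f g : X →* X} {A B : Subgroup X} {q : ℚ} (h : Her f g A B q) : 0 < q := by
  have h1 : (0 : ℚ) < tate f g A B := by exact_mod_cast Nat.pos_of_ne_zero h.left
  have h2 : (0 : ℚ) < tate g f A B := by exact_mod_cast Nat.pos_of_ne_zero h.right
  rw [h.eq] at h1
  exact pos_of_mul_pos_left h1 h2.le

theorem exists_her {f g : X →* X} {A B : Subgroup X} (h1 : tate f g A B ≠ 0)
    (h2 : tate g f A B ≠ 0) : ∃ q, Her f g A B q :=
  ⟨tate f g A B / tate g f A B, h1, h2, by field_simp⟩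

/-- Index formula for a homomorphism. -/
theorem relIndex_eq_map_mul_ker {Y : Type*} [CommGroup Y] (φ : X →* Y) {P Q : Subgroup X}
    (h : P ≤ Q) :
    P.relIndex Q = (P.map φ).relIndex (Q.map φ) * (P ⊓ φ.ker).relIndex (Q ⊓ φ.ker) := by
  have e1 : P ⊔ Q ⊓ φ.ker = Q ⊓ (P ⊔ φ.ker) := by
    rw [inf_comm Q, inf_comm Q]
    exact sup_inf_assoc_of_le φ.ker h |>.symm
  have e2 : P ⊔ Q ⊓ φ.ker ≤ Q := sup_le h inf_le_left
  have e3 : (P ⊔ φ.ker) ⊔ Q = Q ⊔ φ.ker := by
    rw [sup_assoc, sup_comm φ.ker, ← sup_assoc, sup_eq_right.2 h]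
  rw [Subgroup.relIndex_map_map, ← Subgroup.relIndex_mul_relIndex P (P ⊔ Q ⊓ φ.ker) Q le_sup_left e2,
    Subgroup.relIndex_sup_left, e1, Subgroup.inf_relIndex_left, ← e3, Subgroup.relIndex_sup_left,
    mul_comm, ← Subgroup.inf_relIndex_right P]
  congr 2
  rw [← inf_assoc, inf_eq_left.2 h]

section six

variable {f g : X →* X} {A B C : Subgroup X}

/-- `X`: the index `[B ∩ (f C A) : f B A]`. -/
noncomputable def nX (f : X →* X) (A B C : Subgroup X) : ℕ :=
  (B.map f ⊔ A).relIndex (B ⊓ (C.map f ⊔ A))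

/-- `Y`: the index `[C ∩ f⁻¹ A : g C (B ∩ f⁻¹ A)]`. -/
noncomputable def nY (f g : X →* X) (A B C : Subgroup X) : ℕ :=
  (C.map g ⊔ (B ⊓ A.comap f)).relIndex (C ⊓ A.comap f)

/-- `Z`: the index `[B ∩ f⁻¹ A : B ∩ (g C A)]`. -/
noncomputable def nZ (f g : X →* X) (A B C : Subgroup X) : ℕ :=
  (B ⊓ (C.map g ⊔ A)).relIndex (B ⊓ A.comap f)

theorem tate_low (hp : IsPair f g) (hA : IsStable f g A) (hB : IsStable f g B)
    (hC : IsStable f g C) (hAB : A ≤ B) (hBC : B ≤ C) :
    tate f g A B = nX g A B C * nZ f g A B C := by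
  unfold tate nX nZ
  refine (Subgroup.relIndex_mul_relIndex _ _ _ ?_ ?_).symm
  · refine le_inf (sup_le ?_ hAB) (sup_le_sup_right (Subgroup.map_mono hBC) _)
    rintro _ ⟨x, hx, rfl⟩
    exact hB.right x hx
  · refine le_inf inf_le_left (inf_le_right.trans (sup_le ?_ ?_))
    · rintro _ ⟨x, hx, rfl⟩
      show f (g x) ∈ A
      rw [hp.fg]
      exact A.one_mem
    · intro x hx
      exact hA.left x hx

theorem tate_mid (hp : IsPair f g) (hA : IsStable f g A) (hB : IsStable f g B)
    (hC : IsStable f g C) (hAB : A ≤ B) (hBC : B ≤ C) :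
    tate f g A C = nZ f g A B C * nY f g A B C := by
  unfold tate nZ nY
  have hgA : C.map g ≤ A.comap f := by
    rintro _ ⟨x, hx, rfl⟩
    show f (g x) ∈ A
    rw [hp.fg]
    exact A.one_mem
  have hAA : A ≤ A.comap f := fun x hx => hA.left x hx
  have hgC : C.map g ≤ C := by
    rintro _ ⟨x, hx, rfl⟩
    exact hC.right x hx
  rw [← Subgroup.relIndex_mul_relIndex (C.map g ⊔ A) (C.map g ⊔ (B ⊓ A.comap f))
    (C ⊓ A.comap f) (sup_le_sup_left (le_inf hAB hAA) _)
    (sup_le (le_inf hgC hgA) (inf_le_inf_right _ hBC))]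
  congr 1
  have e : C.map g ⊔ (B ⊓ A.comap f) = (C.map g ⊔ A) ⊔ (B ⊓ A.comap f) := by
    rw [sup_assoc, sup_eq_right.2 (le_inf hAB hAA)]
  rw [e, Subgroup.relIndex_sup_left, ← Subgroup.inf_relIndex_right]
  congr 1
  rw [← inf_assoc, inf_comm _ B, inf_assoc, inf_eq_left.2 (sup_le hgA hAA)]

theorem tate_high (hp : IsPair f g) (hA : IsStable f g A) (hB : IsStable f g B)
    (hC : IsStable f g C) (hAB : A ≤ B) (hBC : B ≤ C) :
    tate f g B C = nX f A B C * nY f g A B C := by
  unfold tate nX nY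
  have hgA : C.map g ≤ A.comap f := by
    rintro _ ⟨x, hx, rfl⟩
    show f (g x) ∈ A
    rw [hp.fg]
    exact A.one_mem
  have hAA : A ≤ A.comap f := fun x hx => hA.left x hx
  have hBB : B ≤ B.comap f := fun x hx => hB.left x hx
  have hgC : C.map g ≤ C := by
    rintro _ ⟨x, hx, rfl⟩
    exact hC.right x hx
  have hle : C.map g ⊔ B ≤ C ⊓ B.comap f :=
    sup_le (le_inf hgC (hgA.trans (Subgroup.comap_mono hAB))) (le_inf hBC hBB)
  rw [relIndex_eq_map_mul_ker ((QuotientGroup.mk' A).comp f) hle]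
  have hker : ((QuotientGroup.mk' A).comp f).ker = A.comap f := by
    ext x
    simp [MonoidHom.mem_ker]
  rw [hker]
  congr 1
  · rw [← Subgroup.map_map, ← Subgroup.map_map, Subgroup.relIndex_map_map, QuotientGroup.ker_mk']
    congr 1
    · rw [Subgroup.map_sup]
      have : (C.map g).map f = ⊥ := by
        rw [eq_bot_iff]
        rintro _ ⟨_, ⟨x, hx, rfl⟩, rfl⟩
        exact hp.fg x
      rw [this, bot_sup_eq]
    · ext y
      constructor
      · intro hy
        obtain ⟨z, ⟨x, ⟨hx1, hx2⟩, rfl⟩, a, ha, rfl⟩ := Subgroup.mem_sup.1 hy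
        exact ⟨B.mul_mem hx2 (hAB ha),
          Subgroup.mem_sup.2 ⟨f x, ⟨x, hx1, rfl⟩, a, ha, rfl⟩⟩
      · rintro ⟨h1, h2⟩
        obtain ⟨z, ⟨x, hx1, rfl⟩, a, ha, rfl⟩ := Subgroup.mem_sup.1 h2
        refine Subgroup.mem_sup.2 ⟨f x, ⟨x, ⟨hx1, ?_⟩, rfl⟩, a, ha, rfl⟩
        show f x ∈ B
        have := B.mul_mem h1 (B.inv_mem (hAB ha))
        simpa using this
  · congr 1
    · rw [sup_inf_assoc_of_le B hgA]
    · rw [inf_assoc, inf_eq_right.2 (Subgroup.comap_mono hAB)]

/-- Herbrand's lemma: `q (C / A) = q (B / A) q (C / B)`. -/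
theorem her_mid (hp : IsPair f g) (hA : IsStable f g A) (hB : IsStable f g B)
    (hC : IsStable f g C) (hAB : A ≤ B) (hBC : B ≤ C) {p q : ℚ} (h1 : Her f g A B p)
    (h2 : Her f g B C q) : Her f g A C (p * q) := by
  obtain ⟨l1, r1, e1⟩ := h1
  obtain ⟨l2, r2, e2⟩ := h2
  rw [tate_low hp hA hB hC hAB hBC] at l1 e1
  rw [tate_low hp.symm hA.symm hB.symm hC.symm hAB hBC] at r1 e1
  rw [tate_high hp hA hB hC hAB hBC] at l2 e2
  rw [tate_high hp.symm hA.symm hB.symm hC.symm hAB hBC] at r2 e2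
  have hm := tate_mid hp hA hB hC hAB hBC
  have hm' := tate_mid hp.symm hA.symm hB.symm hC.symm hAB hBC
  simp only [ne_eq, mul_eq_zero, not_or] at l1 r1 l2 r2
  refine ⟨by rw [hm]; simp [l1, l2], by rw [hm']; simp [r1, r2], ?_⟩
  rw [hm, hm']
  push_cast at e1 e2 ⊢
  have a1 : (nX g A B C : ℚ) ≠ 0 := by exact_mod_cast l1.1
  have a2 : (nX f A B C : ℚ) ≠ 0 := by exact_mod_cast l2.1
  have key : (nX g A B C : ℚ) * nX f A B C * (nZ f g A B C * nY f g A B C) =
      (nX g A B C : ℚ) * nX f A B C * (p * q * (nZ g f A B C * nY g f A B C)) := by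
    linear_combination (nX f A B C * nY f g A B C : ℚ) * e1 +
      p * nX f A B C * nZ g f A B C * e2
  exact mul_left_cancel₀ (mul_ne_zero a1 a2) key

theorem her_low (hp : IsPair f g) (hA : IsStable f g A) (hB : IsStable f g B)
    (hC : IsStable f g C) (hAB : A ≤ B) (hBC : B ≤ C) {p q : ℚ} (h1 : Her f g A C p)
    (h2 : Her f g B C q) : Her f g A B (p / q) := by
  have hq := h2.pos
  have h1' := h1
  have h2' := h2
  obtain ⟨l1, r1, e1⟩ := h1'
  obtain ⟨l2, r2, e2⟩ := h2'
  rw [tate_mid hp hA hB hC hAB hBC] at l1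
  rw [tate_mid hp.symm hA.symm hB.symm hC.symm hAB hBC] at r1
  rw [tate_high hp hA hB hC hAB hBC] at l2
  rw [tate_high hp.symm hA.symm hB.symm hC.symm hAB hBC] at r2
  simp only [ne_eq, mul_eq_zero, not_or] at l1 r1 l2 r2
  obtain ⟨r, hr⟩ := exists_her (f := f) (g := g) (A := A) (B := B)
    (by rw [tate_low hp hA hB hC hAB hBC]; simp [l1, r2])
    (by rw [tate_low hp.symm hA.symm hB.symm hC.symm hAB hBC]; simp [r1, l2])
  have := her_mid hp hA hB hC hAB hBC hr h2
  have e : p = r * q := by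
    have a := this.eq
    have b : (tate g f A C : ℚ) ≠ 0 := by exact_mod_cast h1.right
    rw [h1.eq] at a
    exact mul_right_cancel₀ b a
  rw [e, mul_div_cancel_right₀ _ hq.ne']
  exact hr

theorem her_high (hp : IsPair f g) (hA : IsStable f g A) (hB : IsStable f g B)
    (hC : IsStable f g C) (hAB : A ≤ B) (hBC : B ≤ C) {p q : ℚ} (h1 : Her f g A C p)
    (h2 : Her f g A B q) : Her f g B C (p / q) := by
  have hq := h2.pos
  have h1' := h1
  have h2' := h2
  obtain ⟨l1, r1, e1⟩ := h1'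
  obtain ⟨l2, r2, e2⟩ := h2'
  rw [tate_mid hp hA hB hC hAB hBC] at l1
  rw [tate_mid hp.symm hA.symm hB.symm hC.symm hAB hBC] at r1
  rw [tate_low hp hA hB hC hAB hBC] at l2
  rw [tate_low hp.symm hA.symm hB.symm hC.symm hAB hBC] at r2
  simp only [ne_eq, mul_eq_zero, not_or] at l1 r1 l2 r2
  obtain ⟨r, hr⟩ := exists_her (f := f) (g := g) (A := B) (B := C)
    (by rw [tate_high hp hA hB hC hAB hBC]; simp [l1, r2])
    (by rw [tate_high hp.symm hA.symm hB.symm hC.symm hAB hBC]; simp [r1, l2])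
  have := her_mid hp hA hB hC hAB hBC h2 hr
  have e : p = q * r := by
    have a := this.eq
    have b : (tate g f A C : ℚ) ≠ 0 := by exact_mod_cast h1.right
    rw [h1.eq] at a
    exact mul_right_cancel₀ b a
  rw [e, mul_div_cancel_left₀ _ hq.ne']
  exact hr

end six

/-- Finite quotients have Herbrand quotient `1`. -/
theorem her_finite {f g : X →* X} (hp : IsPair f g) {A B : Subgroup X} (hA : IsStable f g A)
    (hB : IsStable f g B) (hAB : A ≤ B) (hfin : A.relIndex B ≠ 0) : Her f g A B 1 := by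
  have main : ∀ f g : X →* X, IsPair f g → IsStable f g A → IsStable f g B →
      A.relIndex B = A.relIndex (B.map f ⊔ A) * (A.relIndex (B.map g ⊔ A) * tate f g A B) := by
    intro f g hp hA hB
    have hAA : A ≤ A.comap f := fun x hx => hA.left x hx
    have hgA : B.map g ≤ A.comap f := by
      rintro _ ⟨x, hx, rfl⟩
      show f (g x) ∈ A
      rw [hp.fg]
      exact A.one_mem
    have hgB : B.map g ≤ B := by
      rintro _ ⟨x, hx, rfl⟩
      exact hB.right x hx
    have hker : ((QuotientGroup.mk' A).comp f).ker = A.comap f := by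
      ext x
      simp [MonoidHom.mem_ker]
    have e := relIndex_eq_map_mul_ker ((QuotientGroup.mk' A).comp f) hAB
    rw [hker, inf_eq_left.2 hAA, ← Subgroup.map_map, ← Subgroup.map_map,
      Subgroup.relIndex_map_map, QuotientGroup.ker_mk'] at e
    have e2 : A.map f ⊔ A = A := sup_eq_right.2 (by
      rintro _ ⟨x, hx, rfl⟩
      exact hA.left x hx)
    rw [e2] at e
    rw [e]
    congr 1
    exact (Subgroup.relIndex_mul_relIndex _ _ _ le_sup_right
      (sup_le (le_inf hgB hgA) (le_inf hAB hAA))).symm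
  have m1 := main f g hp hA hB
  have m2 := main g f hp.symm hA.symm hB.symm
  have n1 := hfin
  rw [m1] at n1
  have n2 := hfin
  rw [m2] at n2
  simp only [ne_eq, mul_eq_zero, not_or] at n1 n2
  refine ⟨n1.2.2, n2.2.2, ?_⟩
  have : A.relIndex (B.map f ⊔ A) * A.relIndex (B.map g ⊔ A) * tate f g A B =
      A.relIndex (B.map f ⊔ A) * A.relIndex (B.map g ⊔ A) * tate g f A B := by
    rw [mul_assoc, ← m1, m2]
    ring
  have := Nat.eq_of_mul_eq_mul_left (Nat.pos_of_ne_zero (mul_ne_zero n1.1 n1.2.1)) this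
  rw [this, one_mul]

end Pool.Agent.H69H
end

-- from Lib.H69H.Defs
section

set_option autoImplicit false
set_option linter.unusedSectionVars false

/-! # H69H: the first inequality of class field theory. Definitions.

`dif s x = s x / x`, `nrm n s x = x * s x * ... * s^(n-1) x` on a commutative group `X` with an endomorphism `s`;
`tate (dif s) (nrm n s) A B` is the order of the Tate group `H^0` of `B / A`, `tate (nrm n s) (dif s) A B` the order of `H^(-1)`
(file A1). `sU σ` : the action of `σ` on `Lˣ`; `gp σ`: on the primes of `L`; `sM σ`: on the divisors of `L` (multiplicative notation);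
`dvU`: the divisor, as a homomorphism from `Lˣ`. `con`: the conorm `Dv K → Dv L`. `DTK T`, `DTL T`: divisors supported above `T`.
`UL`: the units of the ring of integers. `RamInf`: the ramified infinite places of `K`, `PosR x`: `x` is positive there.
`IsV S V`: the properties of the group `V` at the primes of `S`. `ET V T`: the elements of `V` supported above `T`. -/

namespace Pool.Agent.H69H

open NumberField IsDedekindDomain CFT
open scoped Pointwise

section gen

variable {X : Type*} [CommGroup X]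

/-- `x ↦ s x / x`. -/
def dif (s : X →* X) : X →* X := s / MonoidHom.id X

theorem dif_apply (s : X →* X) (x : X) : dif s x = s x / x := rfl

/-- `x ↦ x * s x * ... * s ^ (n - 1) x`. -/
def nrm (n : ℕ) (s : X →* X) : X →* X where
  toFun x := ∏ i ∈ Finset.range n, s^[i] x
  map_one' := by simp
  map_mul' x y := by simp [iterate_map_mul, Finset.prod_mul_distrib]

theorem nrm_apply (n : ℕ) (s : X →* X) (x : X) : nrm n s x = ∏ i ∈ Finset.range n, s^[i] x := rfl

end gen

variable {K : Type} [Field K] [NumberField K] {L : Type} [Field L] [NumberField L] [Algebra K L]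

/-- The action on `Lˣ`. -/
def sU (σ : L ≃ₐ[K] L) : Lˣ →* Lˣ := Units.map ((σ : L →+* L) : L →* L)

@[simp] theorem sU_coe (σ : L ≃ₐ[K] L) (x : Lˣ) : ((sU σ x : Lˣ) : L) = σ x := rfl

/-- The action on the primes. -/
def gp (σ : L ≃ₐ[K] L) (w : Pr L) : Pr L :=
  ⟨σ • w.asIdeal, inferInstance, by
    rw [Ne, ← Ideal.zero_eq_bot, smul_eq_zero_iff_eq, Ideal.zero_eq_bot]
    exact w.ne_bot⟩

theorem gp_asIdeal (σ : L ≃ₐ[K] L) (w : Pr L) : (gp σ w).asIdeal = σ • w.asIdeal := rfl

theorem gp_one (w : Pr L) : gp (1 : L ≃ₐ[K] L) w = w := by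
  ext1
  rw [gp_asIdeal, one_smul]

theorem gp_mul (σ τ : L ≃ₐ[K] L) (w : Pr L) : gp (σ * τ) w = gp σ (gp τ w) := by
  ext1
  rw [gp_asIdeal, gp_asIdeal, gp_asIdeal, mul_smul]

theorem gp_inv_gp (σ : L ≃ₐ[K] L) (w : Pr L) : gp σ⁻¹ (gp σ w) = w := by
  rw [← gp_mul, inv_mul_cancel, gp_one]

theorem gp_gp_inv (σ : L ≃ₐ[K] L) (w : Pr L) : gp σ (gp σ⁻¹ w) = w := by
  rw [← gp_mul, mul_inv_cancel, gp_one]

/-- The action on the primes, as an equivalence. -/
def gpE (σ : L ≃ₐ[K] L) : Pr L ≃ Pr L where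
  toFun := gp σ
  invFun := gp σ⁻¹
  left_inv := gp_inv_gp σ
  right_inv := gp_gp_inv σ

/-- The action on the divisors. -/
noncomputable def sD (σ : L ≃ₐ[K] L) : Dv L →+ Dv L :=
  (Finsupp.domCongr (gpE σ) : Dv L ≃+ Dv L).toAddMonoidHom

theorem sD_apply (σ : L ≃ₐ[K] L) (D : Dv L) (w : Pr L) : sD σ D w = D (gp σ⁻¹ w) := rfl

/-- The action on the divisors, multiplicative notation. -/
noncomputable def sM (σ : L ≃ₐ[K] L) : Multiplicative (Dv L) →* Multiplicative (Dv L) :=
  AddMonoidHom.toMultiplicative (sD σ)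

/-- The divisor as a homomorphism. -/
noncomputable def dvU (L : Type) [Field L] [NumberField L] : Lˣ →* Multiplicative (Dv L) where
  toFun x := Multiplicative.ofAdd (dv (x : L))
  map_one' := by
    rw [Units.val_one, dv_one, ofAdd_zero]
  map_mul' x y := by
    rw [Units.val_mul, dv_mul x.ne_zero y.ne_zero, ofAdd_add]

theorem dvU_apply (x : Lˣ) : dvU L x = Multiplicative.ofAdd (dv (x : L)) := rfl

theorem fib_fin (K : Type) [Field K] [NumberField K] [Algebra K L] (v : Pr K) : {w : Pr L | below K w = v}.Finite := by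
  have h : (v.asIdeal.primesOver (𝓞 L)).Finite := IsDedekindDomain.primesOver_finite v.asIdeal (𝓞 L)
  refine Set.Finite.of_finite_image (f := fun w : Pr L => w.asIdeal) (h.subset ?_)
    HeightOneSpectrum.asIdeal_injective.injOn
  rintro _ ⟨w, hw, rfl⟩
  refine ⟨w.isPrime, ⟨?_⟩⟩
  have : (below K w).asIdeal = v.asIdeal := by rw [hw]
  exact this.symm

/-- The conorm of a divisor of `K`. -/
noncomputable def con (K L : Type) [Field K] [NumberField K] [Field L] [NumberField L] [Algebra K L] : Dv K →+ Dv L where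
  toFun D := Finsupp.ofSupportFinite (fun w => (w.asIdeal.ramificationIdx (𝓞 K) : ℤ) * D (below K w)) (by
    refine ((D.support.finite_toSet).biUnion fun v _ => fib_fin (L := L) K v).subset fun w hw => ?_
    rw [Function.mem_support] at hw
    refine Set.mem_biUnion (x := below K w) ?_ rfl
    rw [Finset.mem_coe, Finsupp.mem_support_iff]
    exact right_ne_zero_of_mul hw)
  map_zero' := by
    ext w
    exact mul_zero _
  map_add' D E := by
    ext w
    exact mul_add _ _ _

theorem con_apply (D : Dv K) (w : Pr L) : con K L D w = (w.asIdeal.ramificationIdx (𝓞 K) : ℤ) * D (below K w) := rfl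

/-- The divisors of `K` supported on `T`. -/
noncomputable def DTK (T : Finset (Pr K)) : AddSubgroup (Dv K) where
  carrier := {D | ∀ v, v ∉ T → D v = 0}
  zero_mem' := fun _ _ => rfl
  add_mem' := fun {D E} h1 h2 v hv => by rw [Finsupp.add_apply, h1 v hv, h2 v hv, add_zero]
  neg_mem' := fun {D} h1 v hv => by rw [Finsupp.neg_apply, h1 v hv, neg_zero]

/-- The divisors of `L` supported above `T`. -/
noncomputable def DTL (L : Type) [Field L] [NumberField L] [Algebra K L] (T : Finset (Pr K)) : AddSubgroup (Dv L) where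
  carrier := {D | ∀ w, below K w ∉ T → D w = 0}
  zero_mem' := fun _ _ => rfl
  add_mem' := fun {D E} h1 h2 v hv => by rw [Finsupp.add_apply, h1 v hv, h2 v hv, add_zero]
  neg_mem' := fun {D} h1 v hv => by rw [Finsupp.neg_apply, h1 v hv, neg_zero]

/-- The group `DTL`, multiplicative notation. -/
noncomputable def MT (L : Type) [Field L] [NumberField L] [Algebra K L] (T : Finset (Pr K)) : Subgroup (Multiplicative (Dv L)) :=
  AddSubgroup.toSubgroup (DTL L T)

theorem mem_MT (T : Finset (Pr K)) (D : Multiplicative (Dv L)) :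
    D ∈ MT L T ↔ ∀ w, below K w ∉ T → Multiplicative.toAdd D w = 0 := Iff.rfl

/-- The units of the ring of integers. -/
noncomputable def UL (L : Type) [Field L] [NumberField L] : Subgroup Lˣ := (dvU L).ker

/-- The ramified infinite places of `K`. -/
noncomputable def RamInf (K L : Type) [Field K] [NumberField K] [Field L] [NumberField L] [Algebra K L] :
    Finset (InfinitePlace K) := by
  classical exact Finset.univ.filter fun v => ¬ v.IsUnramifiedIn L

/-- `x` is positive at the ramified infinite places. -/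
def PosR (L : Type) [Field L] [NumberField L] [Algebra K L] (x : K) : Prop :=
  ∀ φ : K →+* ℝ, InfinitePlace.mk ((algebraMap ℝ ℂ).comp φ) ∈ RamInf K L → 0 < φ x

/-- The embedding of `Kˣ` in `Lˣ`. -/
def kU (K L : Type) [Field K] [Field L] [Algebra K L] : Kˣ →* Lˣ := Units.map (algebraMap K L : K →* L)

@[simp] theorem kU_coe (κ : Kˣ) : ((kU K L κ : Lˣ) : L) = algebraMap K L (κ : K) := rfl

/-- The properties of the group `V` at the primes of `S`: stable; units at the primes of `S`; if `σ y / y` is in `V` then `y` is in `Kˣ V`;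
the elements sufficiently near to `1` at all primes above `S` are in `V`. -/
structure IsV (σ : L ≃ₐ[K] L) (S : Finset (Pr K)) (V : Subgroup Lˣ) : Prop where
  stable : ∀ x ∈ V, sU σ x ∈ V
  unit : ∀ x ∈ V, ∀ w : Pr L, below K w ∈ S → od w (x : L) = 0
  crit : ∀ y : Lˣ, dif (sU σ) y ∈ V → ∃ κ : Kˣ, ∃ x ∈ V, y = kU K L κ * x
  ray : ∃ N : ℕ, ∀ y : Lˣ, (∀ w : Pr L, below K w ∈ S → w.valuation L ((y : L) - 1) < WithZero.exp (-(N : ℤ))) → y ∈ V

/-- The elements of `V` supported above `T`. -/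
noncomputable def ET (V : Subgroup Lˣ) (T : Finset (Pr K)) : Subgroup Lˣ := V ⊓ (MT L T).comap (dvU L)

theorem mem_ET (V : Subgroup Lˣ) (T : Finset (Pr K)) (x : Lˣ) :
    x ∈ ET V T ↔ x ∈ V ∧ ∀ w, below K w ∉ T → od w (x : L) = 0 := Iff.rfl

/-- The properties of the finite set `T` of primes outside `S` (and of `N`): (ray) rays are in `V`; (a) `Dv K = DTK T + Pray S N`;
(b) every divisor of `L` is, outside `S`, the sum of an element of `DTL T` and of the divisor of an element of `V`; (c) for every ramified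
infinite place `v` there is an element of `K` in `V`, supported on `T`, negative at `v` and positive at the other ramified infinite places. -/
structure IsT (σ : L ≃ₐ[K] L) (S : Finset (Pr K)) (V : Subgroup Lˣ) (N : ℕ) (T : Finset (Pr K)) : Prop where
  disj : ∀ v ∈ T, v ∉ S
  ray : ∀ κ : Kˣ, Ray S N (κ : K) → kU K L κ ∈ V
  a : ∀ D : Dv K, ∃ E ∈ DTK T, D - E ∈ Pray S N
  b : ∀ D : Dv L, ∃ E ∈ DTL L T, ∃ y ∈ V, ∀ w, below K w ∉ S → D w = E w + od w (y : L)
  c : ∀ v ∈ RamInf K L, ∃ κ : Kˣ, kU K L κ ∈ ET V T ∧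
    ∀ φ : K →+* ℝ, (InfinitePlace.mk ((algebraMap ℝ ℂ).comp φ) = v → φ (κ : K) < 0) ∧
      (InfinitePlace.mk ((algebraMap ℝ ℂ).comp φ) ∈ RamInf K L → InfinitePlace.mk ((algebraMap ℝ ℂ).comp φ) ≠ v → 0 < φ (κ : K))

/-- The elements of `ET V T` which are in `K` and positive at the ramified infinite places. -/
def PP (V : Subgroup Lˣ) (T : Finset (Pr K)) : Subgroup Lˣ where
  carrier := {x | x ∈ ET V T ∧ ∃ κ : Kˣ, x = kU K L κ ∧ PosR L (κ : K)}
  one_mem' := ⟨one_mem _, 1, by simp, fun φ _ => by simp⟩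
  mul_mem' := by
    rintro x y ⟨hx, κ, rfl, h1⟩ ⟨hy, μ, rfl, h2⟩
    exact ⟨mul_mem hx hy, κ * μ, by simp, fun φ hφ => by
      rw [Units.val_mul, map_mul]
      exact mul_pos (h1 φ hφ) (h2 φ hφ)⟩
  inv_mem' := by
    rintro x ⟨hx, κ, rfl, h1⟩
    exact ⟨inv_mem hx, κ⁻¹, by simp, fun φ hφ => by
      rw [Units.val_inv_eq_inv_val, map_inv₀]
      exact inv_pos.2 (h1 φ hφ)⟩

/-- The divisors `dv κ + Nd E`, with `κ` as in `PP` and `E` supported above `T`. -/
def QQ (V : Subgroup Lˣ) (T : Finset (Pr K)) : AddSubgroup (Dv K) where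
  carrier := {D | ∃ κ : Kˣ, kU K L κ ∈ ET V T ∧ PosR L (κ : K) ∧ ∃ E ∈ DTL L T, D = dv (κ : K) + Nd K L E}
  zero_mem' := ⟨1, by simp [one_mem], fun φ _ => by simp, 0, zero_mem _, by rw [Units.val_one, dv_one, map_zero, add_zero]⟩
  add_mem' := by
    rintro D D' ⟨κ, h1, h2, E, h3, rfl⟩ ⟨κ', h1', h2', E', h3', rfl⟩
    refine ⟨κ * κ', by rw [map_mul]; exact mul_mem h1 h1', fun φ hφ => ?_, E + E', add_mem h3 h3', ?_⟩
    · rw [Units.val_mul, map_mul]
      exact mul_pos (h2 φ hφ) (h2' φ hφ)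
    · rw [Units.val_mul, dv_mul κ.ne_zero κ'.ne_zero, map_add]
      abel
  neg_mem' := by
    rintro D ⟨κ, h1, h2, E, h3, rfl⟩
    refine ⟨κ⁻¹, by rw [map_inv]; exact inv_mem h1, fun φ hφ => ?_, -E, neg_mem h3, ?_⟩
    · rw [Units.val_inv_eq_inv_val, map_inv₀]
      exact inv_pos.2 (h2 φ hφ)
    · rw [Units.val_inv_eq_inv_val, dv_inv, map_neg]
      abel

/-- The action of a permutation on integer valued functions. -/
def sW {W : Type*} (s : W ≃ W) : Multiplicative (W → ℤ) →* Multiplicative (W → ℤ) :=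
  AddMonoidHom.toMultiplicative
    { toFun := fun x w => x (s.symm w)
      map_zero' := rfl
      map_add' := fun _ _ => rfl }

theorem sW_apply {W : Type*} (s : W ≃ W) (x : Multiplicative (W → ℤ)) (w : W) :
    Multiplicative.toAdd (sW s x) w = Multiplicative.toAdd x (s.symm w) := rfl

/-- The homomorphism from functions on the infinite places to the units. -/
noncomputable def phi (ε : InfinitePlace L → Lˣ) : Multiplicative (InfinitePlace L → ℤ) →* Lˣ where
  toFun x := ∏ w, ε w ^ (Multiplicative.toAdd x w)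
  map_one' := by simp
  map_mul' x y := by simp [zpow_add, Finset.prod_mul_distrib]

theorem phi_apply (ε : InfinitePlace L → Lˣ) (x : Multiplicative (InfinitePlace L → ℤ)) :
    phi ε x = ∏ w, ε w ^ (Multiplicative.toAdd x w) := rfl

end Pool.Agent.H69H
end

-- from Lib.H69H.U1
section

set_option autoImplicit false
set_option linter.unusedSectionVars false

namespace Pool.Agent.H69H

open NumberField IsDedekindDomain CFT

theorem u1_mem {L : Type} [Field L] [NumberField L] {x : Lˣ} (h1 : IsIntegral ℤ (x : L)) (h2 : IsIntegral ℤ ((x⁻¹ : Lˣ) : L)) :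
    x ∈ UL L := by
  have h3 : ∀ v : Pr L, od v (x : L) = 0 := by
    intro v
    have a1 : v.valuation L (x : L) ≤ 1 := v.valuation_le_one (⟨(x : L), h1⟩ : 𝓞 L)
    have a2 : v.valuation L ((x⁻¹ : Lˣ) : L) ≤ 1 := v.valuation_le_one (⟨((x⁻¹ : Lˣ) : L), h2⟩ : 𝓞 L)
    have a3 : v.valuation L (x : L) * v.valuation L ((x⁻¹ : Lˣ) : L) = 1 := by
      rw [← map_mul, Units.mul_inv, map_one]
    have a4 : v.valuation L (x : L) = 1 := by
      refine le_antisymm a1 ?_
      rw [← a3]
      exact mul_le_of_le_one_right' a2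
    unfold od
    rw [a4, WithZero.log_one, neg_zero]
  show dvU L x = 1
  rw [dvU_apply]
  have h4 : dv (x : L) = 0 := by
    ext v
    exact h3 v
  rw [h4, ofAdd_zero]

/-- PROOF. Choose a representative `o w` of each orbit of the Galois group on the infinite places (`Quotient.out` for `MulAction.orbitRel`) and a unit
`u w0` of the ring of integers with `w' u < 1` for all `w' ≠ w0` (Mathlib `NumberField.Units.dirichletUnitTheorem.exists_unit`: `log (w' u) < 0`). Let
`ε w = ∏_{g : g • o w = w} g (u (o w))` (finite product over the filtered Finset of `L ≃ₐ[K] L`). It is a unit of the ring of integers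
(`UL L = (dvU L).ker`: all `od` are `0`; a unit of `𝓞 L` has valuation one at all primes). EQUIVARIANCE: `σ (ε w) = ∏_{g : g • o w = w} (σ g) (u (o w)) = ε (σ • w)`,
as `o (σ • w) = o w` (bijection `g ↦ σ * g`). For `w' ≠ w`: `w' (g u) = (g⁻¹ • w') u < 1`, because `g⁻¹ • w' = o w` would give `w' = g • o w = w`; the
product is not empty (`w` is in the orbit of `o w`), so `w' (ε w) < 1`. -/
theorem exists_eps (K L : Type) [Field K] [NumberField K] [Field L] [NumberField L] [Algebra K L] [IsGalois K L] :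
    ∃ ε : InfinitePlace L → Lˣ, (∀ w, ε w ∈ UL L) ∧ (∀ (σ : L ≃ₐ[K] L) w, sU σ (ε w) = ε (σ • w)) ∧
      ∀ w w' : InfinitePlace L, w' ≠ w → w' (ε w : L) < 1 := by
  classical
  choose u hu using fun w : InfinitePlace L => NumberField.Units.dirichletUnitTheorem.exists_unit L w
  let r := MulAction.orbitRel (L ≃ₐ[K] L) (InfinitePlace L)
  let o : InfinitePlace L → InfinitePlace L := fun w => (Quotient.mk r w).out
  have ho : ∀ (σ : L ≃ₐ[K] L) (w : InfinitePlace L), o (σ • w) = o w := by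
    intro σ w
    have : (Quotient.mk r (σ • w)) = Quotient.mk r w := Quotient.sound ⟨σ, rfl⟩
    show (Quotient.mk r (σ • w)).out = (Quotient.mk r w).out
    rw [this]
  have hw : ∀ w : InfinitePlace L, ∃ g : L ≃ₐ[K] L, g • o w = w := by
    intro w
    have h1 : r w (o w) := Quotient.exact (Quotient.out_eq (Quotient.mk r w)).symm
    obtain ⟨g, hg⟩ := h1
    exact ⟨g, hg⟩
  let U : InfinitePlace L → Lˣ := fun w => Units.map (algebraMap (𝓞 L) L : 𝓞 L →* L) (u w)
  have hU1 : ∀ w, IsIntegral ℤ ((U w : Lˣ) : L) := fun w => (u w : 𝓞 L).isIntegral_coe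
  have hU2 : ∀ w, IsIntegral ℤ (((U w)⁻¹ : Lˣ) : L) := fun w => by
    have : ((U w)⁻¹ : Lˣ) = Units.map (algebraMap (𝓞 L) L : 𝓞 L →* L) (u w)⁻¹ := by
      rw [map_inv]
    rw [this]
    exact ((u w)⁻¹ : (𝓞 L)ˣ).1.isIntegral_coe
  let F : InfinitePlace L → Finset (L ≃ₐ[K] L) := fun w => Finset.univ.filter fun g => g • o w = w
  let ε : InfinitePlace L → Lˣ := fun w => ∏ g ∈ F w, sU g (U (o w))
  refine ⟨ε, ?_, ?_, ?_⟩
  · intro w
    refine Subgroup.prod_mem _ fun g _ => u1_mem ?_ ?_
    · rw [sU_coe]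
      exact (hU1 _).map ((g : L →+* L).toIntAlgHom)
    · rw [← map_inv, sU_coe]
      exact (hU2 _).map ((g : L →+* L).toIntAlgHom)
  · intro σ w
    show sU σ (∏ g ∈ F w, sU g (U (o w))) = ∏ g ∈ F (σ • w), sU g (U (o (σ • w)))
    rw [map_prod, ho]
    refine Finset.prod_nbij' (fun g => σ * g) (fun g => σ⁻¹ * g) ?_ ?_ ?_ ?_ ?_
    · intro g hg
      rw [Finset.mem_filter] at hg ⊢
      refine ⟨Finset.mem_univ _, ?_⟩
      rw [ho, mul_smul, hg.2]
    · intro g hg
      rw [Finset.mem_filter] at hg ⊢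
      refine ⟨Finset.mem_univ _, ?_⟩
      rw [ho] at hg
      rw [mul_smul, hg.2, inv_smul_smul]
    · intro g _
      exact inv_mul_cancel_left σ g
    · intro g _
      exact mul_inv_cancel_left σ g
    · intro g _
      ext
      rfl
  · intro w w' hne
    obtain ⟨g0, hg0⟩ := hw w
    have hlt : ∀ g ∈ F w, w' ((sU g (U (o w)) : Lˣ) : L) < 1 := by
      intro g hg
      have hg' : g • o w = w := (Finset.mem_filter.1 hg).2
      have h1 : g⁻¹ • w' ≠ o w := by
        intro h2
        apply hne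
        rw [← hg', ← h2, smul_inv_smul]
      have h3 := hu (o w) (g⁻¹ • w') h1
      have h4 : (g⁻¹ • w') ((U (o w) : Lˣ) : L) = w' ((sU g (U (o w)) : Lˣ) : L) := by
        rw [InfinitePlace.smul_apply]
        rfl
      have h5 : 0 < (g⁻¹ • w') ((U (o w) : Lˣ) : L) := InfinitePlace.pos_iff.2 (U (o w)).ne_zero
      rw [← h4]
      exact (Real.log_neg_iff h5).1 h3
    have h0 : ∀ g : L ≃ₐ[K] L, 0 ≤ w' ((sU g (U (o w)) : Lˣ) : L) := fun g => apply_nonneg _ _
    have hmem : g0 ∈ F w := Finset.mem_filter.2 ⟨Finset.mem_univ _, hg0⟩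
    have e : w' ((ε w : Lˣ) : L) = ∏ g ∈ F w, w' ((sU g (U (o w)) : Lˣ) : L) := by
      show w' ((∏ g ∈ F w, sU g (U (o w)) : Lˣ) : L) = _
      rw [Units.coe_prod, map_prod]
    rw [e, ← Finset.mul_prod_erase _ _ hmem]
    have h6 : ∏ g ∈ (F w).erase g0, w' ((sU g (U (o w)) : Lˣ) : L) ≤ 1 :=
      Finset.prod_le_one (fun g _ => h0 g) fun g hg => (hlt g (Finset.mem_of_mem_erase hg)).le
    calc _ ≤ w' ((sU g0 (U (o w)) : Lˣ) : L) * 1 := mul_le_mul_of_nonneg_left h6 (h0 g0)
      _ < 1 := by rw [mul_one]; exact hlt g0 hmem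

end Pool.Agent.H69H
end

-- from Lib.H86E.Blocks
section

/-!
# H86E: blocks of a configuration permuted transitively

`FF` is a finite set of orthogonal splittings with sum `1` (blocks).  If the affine symmetries of the configuration permute the
blocks transitively, the number of points is a power `a ^ FF.card`.  An equivariant map of a finite transitive set `R` onto `FF` has
fibres of equal size.
-/

set_option autoImplicit false
namespace Pool.Agent.Lib.H86E
open Pool.Agent.H76P

variable {κ : Type*} [Fintype κ] {V : Type*} [AddCommGroup V] [Module ℚ V]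

/-- The number of points is the product of the numbers of coordinates. -/
theorem card_prod_spl [Nonempty κ] {pt : κ → V} (hs : Spans pt) (hinj : Function.Injective pt)
    {FF : Finset (Module.End ℚ V)} (h1 : ∀ q ∈ FF, Spl pt q) (horth : ∀ q ∈ FF, ∀ r ∈ FF, q ≠ r → q * r = 0)
    (h2 : ∑ q ∈ FF, q = 1) : Fintype.card κ = ∏ q ∈ FF, cnt pt q := by
  classical
  have key : ∀ t : Finset (Module.End ℚ V), t ⊆ FF → Spl pt (∑ q ∈ t, q) ∧
      cnt pt (∑ q ∈ t, q) = ∏ q ∈ t, cnt pt q := by
    intro t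
    induction t using Finset.induction_on with
    | empty =>
      intro _
      rw [Finset.sum_empty, Finset.prod_empty]
      exact ⟨Spl.zero pt, cnt_zero pt⟩
    | insert a t ha ih =>
      intro hsub
      obtain ⟨i1, i2⟩ := ih ((Finset.subset_insert _ _).trans hsub)
      have haF := hsub (Finset.mem_insert_self _ _)
      have h0 : a * ∑ q ∈ t, q = 0 := by
        rw [Finset.mul_sum]
        refine Finset.sum_eq_zero fun q hq => ?_
        refine horth a haF q (hsub (Finset.mem_insert_of_mem hq)) ?_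
        rintro rfl
        exact ha hq
      rw [Finset.sum_insert ha, Finset.prod_insert ha]
      exact ⟨Spl.add hs (h1 a haF) i1 h0, by rw [cnt_add hs (h1 a haF) i1 h0, i2]⟩
  have h3 := (key FF (Finset.Subset.refl _)).2
  rw [h2, cnt_one hinj] at h3
  exact h3

/-- Transitively permuted blocks: the number of points is a power. -/
theorem blocks_power [Nonempty κ] {pt : κ → V} (hs : Spans pt) (hinj : Function.Injective pt)
    {FF : Finset (Module.End ℚ V)} (h1 : ∀ q ∈ FF, Spl pt q) (horth : ∀ q ∈ FF, ∀ r ∈ FF, q ≠ r → q * r = 0)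
    (h2 : ∑ q ∈ FF, q = 1)
    (htr : ∀ q ∈ FF, ∀ r ∈ FF, ∃ (σ : Equiv.Perm κ) (s : V ≃ₗ[ℚ] V), Aff pt σ s ∧ conj s q = r) :
    ∃ a : ℕ, Fintype.card κ = a ^ FF.card := by
  rcases FF.eq_empty_or_nonempty with h0 | ⟨q, hq⟩
  · refine ⟨1, ?_⟩
    rw [card_prod_spl hs hinj h1 horth h2, h0, Finset.prod_empty, one_pow]
  · refine ⟨cnt pt q, ?_⟩
    rw [card_prod_spl hs hinj h1 horth h2, ← Finset.prod_const]
    refine Finset.prod_congr rfl fun r hr => ?_
    obtain ⟨σ, s, hA, rfl⟩ := htr q hq r hr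
    exact cnt_conj hA q


end Pool.Agent.Lib.H86E
end

-- from Lib.CFT.B07
section

/-! # CFT module B, chunk B07: norm of a principal divisor -/

open NumberField IsDedekindDomain

namespace CFT

variable {K : Type} [Field K] [NumberField K] {L : Type} [Field L] [NumberField L] [Algebra K L]


theorem b07_sum {ι : Type} (T : Finset ι) (g : ι → Dv K) (hg : ∀ i ∈ T, ∀ v, 0 ≤ g i v) :
    (∀ v, 0 ≤ (∑ i ∈ T, g i) v) ∧ idl (∑ i ∈ T, g i) = ∏ i ∈ T, idl (g i) := by
  classical
  induction T using Finset.induction_on with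
  | empty =>
    refine ⟨fun v => ?_, ?_⟩
    · rw [Finset.sum_empty]
      exact le_rfl
    · rw [Finset.sum_empty, Finset.prod_empty]
      exact Finsupp.prod_zero_index
  | insert i T hi ih =>
    obtain ⟨h1, h2⟩ := ih fun j hj => hg j (Finset.mem_insert_of_mem hj)
    have h3 := hg i (Finset.mem_insert_self i T)
    refine ⟨fun v => ?_, ?_⟩
    · rw [Finset.sum_insert hi, Finsupp.add_apply]
      exact add_nonneg (h3 v) (h1 v)
    · rw [Finset.sum_insert hi, Finset.prod_insert hi, idl_add h3 h1, h2]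

/-- PROOF. The relative norm of ideals (Ideal.relNorm): relNorm w = v^f (relNorm_eq_pow_of_isMaximal), multiplicative. -/
theorem relNorm_idl {D : Dv L} (hD : ∀ w, 0 ≤ D w) : Ideal.relNorm (𝓞 K) (idl D) = idl (Nd K L D) := by
  classical
  have e1 : idl (Nd K L D) = ∏ w ∈ D.support, (below K w).asIdeal ^ (w.asIdeal.inertiaDeg (𝓞 K) * (D w).toNat) := by
    have h1 : Nd K L D = ∑ w ∈ D.support, Finsupp.single (below K w) ((w.asIdeal.inertiaDeg (𝓞 K) : ℤ) * D w) := by
      conv_lhs => rw [← Finsupp.sum_single D]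
      unfold Finsupp.sum
      rw [map_sum]
      exact Finset.sum_congr rfl fun w _ => Nd_single K L w (D w)
    have h2 : ∀ w ∈ D.support, ∀ v, 0 ≤ (Finsupp.single (below K w) ((w.asIdeal.inertiaDeg (𝓞 K) : ℤ) * D w) : Dv K) v :=
      fun w _ => b04_single _ (mul_nonneg (Int.natCast_nonneg _) (hD w))
    rw [h1, (b07_sum D.support _ h2).2]
    refine Finset.prod_congr rfl fun w _ => ?_
    rw [b04_idl_single]
    congr 1
    have h3 := hD w
    obtain ⟨k, hk⟩ := Int.eq_ofNat_of_zero_le h3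
    rw [hk]
    have h4 : ((w.asIdeal.inertiaDeg (𝓞 K) : ℤ) * (k : ℤ)) = ((w.asIdeal.inertiaDeg (𝓞 K) * k : ℕ) : ℤ) := by
      push_cast
      ring
    rw [h4, Int.toNat_natCast, Int.toNat_natCast]
  rw [e1]
  unfold idl Finsupp.prod
  rw [map_prod]
  refine Finset.prod_congr rfl fun w _ => ?_
  haveI : w.asIdeal.LiesOver (below K w).asIdeal := ⟨rfl⟩
  haveI : w.asIdeal.IsMaximal := w.isMaximal
  haveI : (below K w).asIdeal.IsMaximal := (below K w).isMaximal
  rw [map_pow, Ideal.relNorm_eq_pow_of_isMaximal w.asIdeal (below K w).asIdeal, pow_mul]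

theorem b07_int {r : 𝓞 L} (hr : r ≠ 0) :
    Nd K L (dv (algebraMap (𝓞 L) L r)) = dv (Algebra.norm K (algebraMap (𝓞 L) L r)) := by
  have hr' : (algebraMap (𝓞 L) L r) ≠ 0 := fun h => hr (RingOfIntegers.coe_eq_zero_iff.1 h)
  have h1 : algebraMap (𝓞 K) K (Algebra.intNorm (𝓞 K) (𝓞 L) r) = Algebra.norm K (algebraMap (𝓞 L) L r) :=
    Algebra.algebraMap_intNorm r
  have h2 : Algebra.intNorm (𝓞 K) (𝓞 L) r ≠ 0 := by
    intro h
    rw [h, map_zero] at h1
    exact Algebra.norm_ne_zero_iff.2 hr' h1.symm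
  rw [← h1]
  have h3 : ∀ w, 0 ≤ dv (algebraMap (𝓞 L) L r) w := fun w => od_nonneg w r
  refine idl_inj ?_ (fun v => od_nonneg v _) ?_
  · intro v
    have e1 : Nd K L (dv (algebraMap (𝓞 L) L r)) = ∑ w ∈ (dv (algebraMap (𝓞 L) L r)).support,
        Finsupp.single (below K w) ((w.asIdeal.inertiaDeg (𝓞 K) : ℤ) * dv (algebraMap (𝓞 L) L r) w) := by
      conv_lhs => rw [← Finsupp.sum_single (dv (algebraMap (𝓞 L) L r))]
      unfold Finsupp.sum
      rw [map_sum]
      exact Finset.sum_congr rfl fun w _ => Nd_single K L w _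
    rw [e1]
    exact (b07_sum _ _ fun w _ => b04_single _ (mul_nonneg (Int.natCast_nonneg _) (h3 w))).1 v
  · rw [← relNorm_idl h3]
    have h4 : idl (dv (algebraMap (𝓞 L) L r)) = Ideal.span {r} := idl_dv hr
    have h5 : idl (dv (algebraMap (𝓞 K) K (Algebra.intNorm (𝓞 K) (𝓞 L) r))) =
        Ideal.span {Algebra.intNorm (𝓞 K) (𝓞 L) r} := idl_dv h2
    rw [h4, h5, Ideal.relNorm_singleton]

/-- PROOF. For y = r in O_L, r <> 0: relNorm (span {r}) = span {intNorm r} (Ideal.relNorm_singleton), relNorm_idl, idl_dv and idl_inj (B04); the coefficients of Nd K L (dv r) are >= 0.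
In general y = a / b. Algebra.algebraMap_intNorm relates intNorm and norm. -/
theorem Nd_dv {y : L} (hy : y ≠ 0) : Nd K L (dv y) = dv (Algebra.norm K y) := by
  obtain ⟨a, b, hb, rfl⟩ := IsFractionRing.div_surjective (A := 𝓞 L) y
  have hb0 : b ≠ 0 := nonZeroDivisors.ne_zero hb
  have ha0 : a ≠ 0 := by
    rintro rfl
    rw [map_zero, zero_div] at hy
    exact hy rfl
  have ha' : (algebraMap (𝓞 L) L a) ≠ 0 := fun h => ha0 (RingOfIntegers.coe_eq_zero_iff.1 h)
  have hb' : (algebraMap (𝓞 L) L b) ≠ 0 := fun h => hb0 (RingOfIntegers.coe_eq_zero_iff.1 h)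
  have ha2 : Algebra.norm K (algebraMap (𝓞 L) L a) ≠ 0 := Algebra.norm_ne_zero_iff.2 ha'
  have hb2 : Algebra.norm K (algebraMap (𝓞 L) L b) ≠ 0 := Algebra.norm_ne_zero_iff.2 hb'
  have hinv : Algebra.norm K (algebraMap (𝓞 L) L b)⁻¹ = (Algebra.norm K (algebraMap (𝓞 L) L b))⁻¹ := by
    apply eq_inv_of_mul_eq_one_left
    rw [← map_mul, inv_mul_cancel₀ hb', map_one]
  rw [div_eq_mul_inv, dv_mul ha' (inv_ne_zero hb'), dv_inv, map_add, map_neg, map_mul, hinv,
    dv_mul ha2 (inv_ne_zero hb2), dv_inv, b07_int ha0, b07_int hb0]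

end CFT
end

-- from Lib.H69H.D2
section

set_option autoImplicit false
set_option linter.unusedSectionVars false

namespace Pool.Agent.H69H

open NumberField IsDedekindDomain CFT

variable {K : Type} [Field K] [NumberField K] {L : Type} [Field L] [NumberField L] [Algebra K L]

/-- The order at `w` of an element of `K`. -/
theorem od_algebraMap (w : Pr L) (x : K) :
    od w (algebraMap K L x) = (w.asIdeal.ramificationIdx (𝓞 K) : ℤ) * od (below K w) x := CFT.od_alg x w


/-- There is a prime above. -/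
theorem below_surj (L : Type) [Field L] [NumberField L] [Algebra K L] (v : Pr K) : ∃ w : Pr L, below K w = v :=
  CFT.below_surj v

theorem ram_ne (w : Pr L) : (w.asIdeal.ramificationIdx (𝓞 K) : ℤ) ≠ 0 := by
  exact_mod_cast (CFT.e_pos w).ne'

/-- The conorm is injective. -/
theorem con_injective : Function.Injective (con K L) := by
  rw [injective_iff_map_eq_zero]
  intro D hD
  ext v
  obtain ⟨w, rfl⟩ := below_surj L v
  have h := DFunLike.congr_fun hD w
  rw [con_apply, Finsupp.zero_apply] at h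
  exact (mul_eq_zero.1 h).resolve_left (ram_ne w)

end Pool.Agent.H69H
end

-- from Lib.H69H.C1
section

set_option autoImplicit false
set_option linter.unusedSectionVars false

namespace Pool.Agent.H69H

open NumberField IsDedekindDomain CFT

variable {K : Type} [Field K] [NumberField K] {L : Type} [Field L] [NumberField L] [Algebra K L]

theorem c1_iter (σ : L ≃ₐ[K] L) (i : ℕ) (x : Lˣ) : (((sU σ)^[i] x : Lˣ) : L) = (σ ^ i) (x : L) := by
  induction i with
  | zero => rfl
  | succ i ih => rw [Function.iterate_succ_apply', sU_coe, ih, pow_succ']; rfl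

/-- `σ ^ card G = 1`, `card G = finrank K L` (`IsGalois.card_aut_eq_finrank`). -/
theorem sU_iter [IsGalois K L] (σ : L ≃ₐ[K] L) (x : Lˣ) : (sU σ)^[Module.finrank K L] x = x := by
  apply Units.ext
  rw [c1_iter, ← IsGalois.card_aut_eq_finrank, pow_card_eq_one']
  rfl

/-- An element fixed by the generator is fixed by all of `G`, so it is in `K` (`IsGalois.mem_bot_iff_fixed`, or `IsGalois.mem_range_algebraMap_iff_fixed`). -/
theorem dif_eq_one [IsGalois K L] (σ : L ≃ₐ[K] L) (hσ : ∀ x, x ∈ Subgroup.zpowers σ) (x : Lˣ) :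
    dif (sU σ) x = 1 ↔ ∃ κ : Kˣ, x = kU K L κ := by
  constructor
  · intro h
    rw [dif_apply, div_eq_one] at h
    have h1 : σ (x : L) = x := congrArg Units.val h
    have h2 : (x : L) ∈ Set.range (algebraMap K L) := by
      rw [IsGalois.mem_range_algebraMap_iff_fixed]
      intro f
      obtain ⟨i, rfl⟩ := hσ f
      have h3 : σ ∈ MulAction.stabilizer (L ≃ₐ[K] L) (x : L) := h1
      exact (MulAction.stabilizer (L ≃ₐ[K] L) (x : L)).zpow_mem h3 i
    obtain ⟨κ, hκ⟩ := h2
    have hκ0 : κ ≠ 0 := by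
      rintro rfl
      rw [map_zero] at hκ
      exact x.ne_zero hκ.symm
    exact ⟨Units.mk0 κ hκ0, Units.ext hκ.symm⟩
  · rintro ⟨κ, rfl⟩
    rw [dif_apply, div_eq_one]
    apply Units.ext
    rw [sU_coe, kU_coe, σ.commutes]

/-- `Algebra.norm_eq_prod_automorphisms` and the bijection `i ↦ σ^i` from `range n` to `G`. -/
theorem nrm_eq [IsGalois K L] (σ : L ≃ₐ[K] L) (hσ : ∀ x, x ∈ Subgroup.zpowers σ) (x : Lˣ) :
    nrm (Module.finrank K L) (sU σ) x = kU K L (Units.map (Algebra.norm K : L →* K) x) := by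
  apply Units.ext
  rw [nrm_apply, Units.coe_prod]
  simp only [c1_iter]
  rw [kU_coe, Units.coe_map]
  show _ = algebraMap K L (Algebra.norm K (x : L))
  rw [Algebra.norm_eq_prod_automorphisms, ← IsGalois.card_aut_eq_finrank]
  classical
  rw [← IsCyclic.image_range_card hσ, Finset.prod_image]
  rw [← orderOf_eq_card_of_forall_mem_zpowers hσ, Finset.coe_range]
  exact pow_injOn_Iio_orderOf

/-- Hilbert 90, Mathlib `groupCohomology.exists_div_of_norm_eq_one` (take the inverse of `y`). -/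
theorem hilbert90 [IsGalois K L] (σ : L ≃ₐ[K] L) (hσ : ∀ x, x ∈ Subgroup.zpowers σ) (x : Lˣ)
    (hx : nrm (Module.finrank K L) (sU σ) x = 1) : ∃ y : Lˣ, x = dif (sU σ) y := by
  rw [nrm_eq σ hσ] at hx
  have h1 : Algebra.norm K (x : L) = 1 := by
    have h2 := congrArg Units.val hx
    rw [kU_coe, Units.val_one, ← map_one (algebraMap K L)] at h2
    exact (algebraMap K L).injective h2
  have : IsCyclic (L ≃ₐ[K] L) := ⟨σ, hσ⟩
  obtain ⟨y, hy⟩ := groupCohomology.exists_div_of_norm_eq_one hσ h1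
  refine ⟨y⁻¹, Units.ext ?_⟩
  rw [map_inv, dif_apply, ← hy]
  rw [Units.val_inv_eq_inv_val, Units.val_div_eq_div_val, sU_coe, inv_div]

end Pool.Agent.H69H
end

-- from Lib.H69H.D1
section

set_option autoImplicit false
set_option linter.unusedSectionVars false

namespace Pool.Agent.H69H

open NumberField IsDedekindDomain CFT

variable {K : Type} [Field K] [NumberField K] {L : Type} [Field L] [NumberField L] [Algebra K L]

theorem d1_comm : SMulCommClass (L ≃ₐ[K] L) (𝓞 K) (𝓞 L) := by
  refine ⟨fun s a x => ?_⟩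
  apply RingOfIntegers.ext
  show s ((a • x : 𝓞 L) : L) = ((a • (s • x : 𝓞 L) : 𝓞 L) : L)
  rw [Algebra.smul_def, Algebra.smul_def]
  show s (algebraMap K L (a : K) * (x : L)) = algebraMap K L (a : K) * s (x : L)
  rw [map_mul, AlgEquiv.commutes]

open scoped Pointwise in
/-- PROOF: the valuation at `σ w` of `σ x` is the valuation at `w` of `x`; for `x` in the ring of integers from the definition of `intValuation` (`HeightOneSpectrum.intValuation_le_pow_iff_mem`
or `intValuation_eq_exp_neg_multiplicity`; `σ x ∈ (σ w)^n` iff `x ∈ w^n`), then quotients. -/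
theorem od_gp (σ : L ≃ₐ[K] L) (w : Pr L) (x : L) : od (gp σ w) (σ x) = od w x := by
  have h1 : ∀ r : 𝓞 L, (gp σ w).intValuation (σ • r) = w.intValuation r := by
    intro r
    by_cases hr : r = 0
    · subst hr
      rw [smul_zero, map_zero, map_zero]
    have hr' : σ • r ≠ 0 := by
      rw [Ne, smul_eq_zero_iff_eq]
      exact hr
    have hmem : ∀ n : ℕ, σ • r ∈ (gp σ w).asIdeal ^ n ↔ r ∈ w.asIdeal ^ n := by
      intro n
      rw [gp_asIdeal, ← smul_pow', Ideal.smul_mem_pointwise_smul_iff]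
    refine le_antisymm ?_ ?_
    · rw [w.intValuation_if_neg hr, HeightOneSpectrum.intValuation_le_pow_iff_mem, hmem,
        ← HeightOneSpectrum.intValuation_le_pow_iff_mem]
      exact (w.intValuation_if_neg hr).le
    · rw [(gp σ w).intValuation_if_neg hr', HeightOneSpectrum.intValuation_le_pow_iff_mem, ← hmem,
        ← HeightOneSpectrum.intValuation_le_pow_iff_mem]
      exact ((gp σ w).intValuation_if_neg hr').le
  have h2 : ∀ r : 𝓞 L, (gp σ w).valuation L (σ (algebraMap (𝓞 L) L r)) = w.valuation L (algebraMap (𝓞 L) L r) := by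
    intro r
    rw [HeightOneSpectrum.valuation_of_algebraMap, ← h1, ← HeightOneSpectrum.valuation_of_algebraMap (K := L)]
    rfl
  obtain ⟨a, b, hb, rfl⟩ := IsFractionRing.div_surjective (A := 𝓞 L) x
  unfold od
  rw [map_div₀, map_div₀, map_div₀, h2, h2]

theorem dvU_sU (σ : L ≃ₐ[K] L) (x : Lˣ) : dvU L (sU σ x) = sM σ (dvU L x) := by
  show Multiplicative.ofAdd (dv (σ (x : L))) = Multiplicative.ofAdd (sD σ (dv (x : L)))
  congr 1
  ext w
  rw [sD_apply, dv_apply, dv_apply, ← od_gp σ (gp σ⁻¹ w) (x : L), gp_gp_inv]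

/-- Mathlib `Ideal.under_smul`. -/
theorem below_gp (σ : L ≃ₐ[K] L) (w : Pr L) : below K (gp σ w) = below K w := by
  ext1
  show (gp σ w).asIdeal.under (𝓞 K) = w.asIdeal.under (𝓞 K)
  have hc : SMulCommClass (L ≃ₐ[K] L) (𝓞 K) (𝓞 L) := d1_comm
  rw [gp_asIdeal]
  exact Ideal.under_smul _ _ _

/-- Mathlib `Ideal.exists_smul_eq_of_isGaloisGroup` (or `Algebra.IsInvariant.exists_smul_of_under_eq`). -/
theorem exists_gp [IsGalois K L] (w w' : Pr L) (h : below K w = below K w') : ∃ τ : L ≃ₐ[K] L, gp τ w = w' := by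
  have h1 : w.asIdeal.under (𝓞 K) = w'.asIdeal.under (𝓞 K) := congrArg HeightOneSpectrum.asIdeal h
  obtain ⟨g, hg⟩ := Algebra.IsInvariant.exists_smul_of_under_eq (𝓞 K) (𝓞 L) (L ≃ₐ[K] L) w.asIdeal w'.asIdeal h1
  exact ⟨g, HeightOneSpectrum.ext hg.symm⟩

theorem sM_iter [IsGalois K L] (σ : L ≃ₐ[K] L) (D : Multiplicative (Dv L)) : (sM σ)^[Module.finrank K L] D = D := by
  have h1 : ∀ i : ℕ, (sM σ)^[i] D = sM (σ ^ i) D := by
    intro i
    induction i with
    | zero =>
      apply Multiplicative.toAdd.injective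
      ext w
      show _ = Multiplicative.toAdd D (gp (σ ^ 0)⁻¹ w)
      rw [pow_zero, inv_one, gp_one]
      rfl
    | succ i ih =>
      rw [Function.iterate_succ_apply', ih]
      apply Multiplicative.toAdd.injective
      ext w
      show Multiplicative.toAdd D (gp (σ ^ i)⁻¹ (gp σ⁻¹ w)) = Multiplicative.toAdd D (gp (σ ^ (i + 1))⁻¹ w)
      rw [← gp_mul, pow_succ', mul_inv_rev]
  rw [h1, ← IsGalois.card_aut_eq_finrank, pow_card_eq_one']
  apply Multiplicative.toAdd.injective
  ext w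
  show Multiplicative.toAdd D (gp (1 : L ≃ₐ[K] L)⁻¹ w) = _
  rw [inv_one, gp_one]

end Pool.Agent.H69H
end

-- from Lib.H69H.D3
section

set_option autoImplicit false
set_option linter.unusedSectionVars false

namespace Pool.Agent.H69H

open NumberField IsDedekindDomain CFT

variable {K : Type} [Field K] [NumberField K] {L : Type} [Field L] [NumberField L] [Algebra K L]

open scoped Pointwise in
/-- PROOF. As in U6: `i ↦ σ^i` is a bijection from `range (finrank K L)` to `G = Gal(L/K)`, `(gp σ)^[i] w = gp (σ^i) w`, so the number is `#{g ∈ G | g • w = w'}`, a coset of the stabilizer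
(`w'` is in the orbit: `Ideal.exists_smul_eq_of_isGaloisGroup`), of order `e f`: Mathlib `Ideal.card_stabilizer_eq`, `Ideal.ramificationIdxIn_eq_ramificationIdx`, `Ideal.inertiaDegIn_eq_inertiaDeg`
(`IsGaloisGroup (L ≃ₐ[K] L) (𝓞 K) (𝓞 L)` : see how NumberTheory/RamificationInertia/HilbertTheory.lean or NumberField files get it, `IsGaloisGroup.of_isFractionRing`). -/
theorem gp_count [IsGalois K L] (σ : L ≃ₐ[K] L) (hσ : ∀ x, x ∈ Subgroup.zpowers σ) (w w' : Pr L)
    (h : below K w = below K w') [DecidableEq (Pr L)] :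
    ((Finset.range (Module.finrank K L)).filter fun i => (gp σ)^[i] w = w').card =
      w.asIdeal.ramificationIdx (𝓞 K) * w.asIdeal.inertiaDeg (𝓞 K) := by
  have hG : IsGaloisGroup (L ≃ₐ[K] L) (𝓞 K) (𝓞 L) := inferInstance
  have hp := w.isPrime
  have hv := (below K w).isMaximal
  have hl : w.asIdeal.LiesOver (below K w).asIdeal := ⟨rfl⟩
  have hfin : Finite (𝓞 K ⧸ (below K w).asIdeal) := Ring.HasFiniteQuotients.finiteQuotient (below K w).ne_bot
  have hperf : PerfectField (below K w).asIdeal.ResidueField := by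
    have : Finite (below K w).asIdeal.ResidueField :=
      Finite.of_surjective _ (Ideal.bijective_algebraMap_quotient_residueField (below K w).asIdeal).surjective
    infer_instance
  have hst : Nat.card (MulAction.stabilizer (L ≃ₐ[K] L) w.asIdeal) = w.asIdeal.ramificationIdx (𝓞 K) * w.asIdeal.inertiaDeg (𝓞 K) := by
    rw [Ideal.card_stabilizer_eq (G := L ≃ₐ[K] L) (below K w).asIdeal w.asIdeal,
      Ideal.ramificationIdxIn_eq_ramificationIdx (below K w).asIdeal w.asIdeal (L ≃ₐ[K] L),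
      Ideal.inertiaDegIn_eq_inertiaDeg (below K w).asIdeal w.asIdeal (L ≃ₐ[K] L)]
  rw [← hst]
  have hit : ∀ i : ℕ, (gp σ)^[i] w = gp (σ ^ i) w := by
    intro i
    induction i with
    | zero => rw [pow_zero, gp_one]; rfl
    | succ i ih => rw [Function.iterate_succ_apply', ih, ← gp_mul, pow_succ']
  have h1 : w.asIdeal.under (𝓞 K) = w'.asIdeal.under (𝓞 K) := congrArg HeightOneSpectrum.asIdeal h
  obtain ⟨g, hg⟩ := Algebra.IsInvariant.exists_smul_of_under_eq (𝓞 K) (𝓞 L) (L ≃ₐ[K] L) w.asIdeal w'.asIdeal h1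
  have hg' : gp g w = w' := HeightOneSpectrum.ext hg.symm
  classical
  have e1 : ((Finset.range (Module.finrank K L)).filter fun i => (gp σ)^[i] w = w').card =
      (Finset.univ.filter fun τ : L ≃ₐ[K] L => gp τ w = w').card := by
    rw [← IsGalois.card_aut_eq_finrank]
    simp only [hit]
    rw [← IsCyclic.image_range_card hσ, Finset.filter_image, Finset.card_image_of_injOn]
    rw [← orderOf_eq_card_of_forall_mem_zpowers hσ]
    refine (pow_injOn_Iio_orderOf (x := σ)).mono fun i hi => ?_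
    exact Finset.mem_range.1 (Finset.mem_filter.1 hi).1
  rw [e1]
  have e2 : Nat.card (MulAction.stabilizer (L ≃ₐ[K] L) w.asIdeal) = (Finset.univ.filter fun τ : L ≃ₐ[K] L => gp τ w = w).card := by
    rw [Nat.card_eq_fintype_card, Fintype.card_subtype]
    congr 1
    ext τ
    simp only [Finset.mem_filter, Finset.mem_univ, true_and, MulAction.mem_stabilizer_iff]
    constructor
    · intro h2
      exact HeightOneSpectrum.ext h2
    · intro h2
      exact congrArg HeightOneSpectrum.asIdeal h2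
  rw [e2]
  refine Finset.card_bij' (fun τ _ => g⁻¹ * τ) (fun τ _ => g * τ) ?_ ?_ ?_ ?_
  · intro τ hτ
    rw [Finset.mem_filter] at hτ ⊢
    refine ⟨Finset.mem_univ _, ?_⟩
    rw [gp_mul, hτ.2, ← hg', gp_inv_gp]
  · intro τ hτ
    rw [Finset.mem_filter] at hτ ⊢
    refine ⟨Finset.mem_univ _, ?_⟩
    rw [gp_mul, hτ.2, hg']
  · intro τ _
    rw [mul_inv_cancel_left]
  · intro τ _
    rw [inv_mul_cancel_left]

end Pool.Agent.H69H
end

-- from Lib.H69H.D4
section

set_option autoImplicit false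
set_option linter.unusedSectionVars false

namespace Pool.Agent.H69H

open NumberField IsDedekindDomain CFT

variable {K : Type} [Field K] [NumberField K] {L : Type} [Field L] [NumberField L] [Algebra K L]

theorem d4_sD_single (σ : L ≃ₐ[K] L) (w : Pr L) (a : ℤ) :
    sD σ (Finsupp.single w a) = Finsupp.single (gp σ w) a := by
  classical
  ext w'
  rw [sD_apply, Finsupp.single_apply, Finsupp.single_apply]
  by_cases h : gp σ w = w'
  · rw [if_pos h, if_pos]
    rw [← h, gp_inv_gp]
  · rw [if_neg h, if_neg]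
    intro h'
    apply h
    rw [h', gp_gp_inv]

theorem d4_sM_iter (σ : L ≃ₐ[K] L) (w : Pr L) (a : ℤ) (i : ℕ) :
    (sM σ)^[i] (Multiplicative.ofAdd (Finsupp.single w a)) =
      Multiplicative.ofAdd (Finsupp.single ((gp σ)^[i] w) a) := by
  induction i with
  | zero => rfl
  | succ i ih =>
    rw [Function.iterate_succ_apply', ih, Function.iterate_succ_apply']
    show Multiplicative.ofAdd (sD σ (Finsupp.single ((gp σ)^[i] w) a)) = _
    rw [d4_sD_single]

theorem d4_below_iter (σ : L ≃ₐ[K] L) (w : Pr L) (i : ℕ) :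
    below K ((gp σ)^[i] w) = below K w := by
  induction i with
  | zero => rfl
  | succ i ih => rw [Function.iterate_succ_apply', below_gp, ih]

theorem d4_comm : SMulCommClass (L ≃ₐ[K] L) (𝓞 K) (𝓞 L) := by
  refine ⟨fun g a x => ?_⟩
  apply RingOfIntegers.ext
  show g (((a • x : 𝓞 L)) : L) = ((a • (g • x) : 𝓞 L) : L)
  rw [Algebra.smul_def, Algebra.smul_def]
  show g (algebraMap (𝓞 L) L (algebraMap (𝓞 K) (𝓞 L) a * x)) =
    algebraMap (𝓞 L) L (algebraMap (𝓞 K) (𝓞 L) a * (g • x))
  rw [map_mul, map_mul, map_mul]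
  have h : algebraMap (𝓞 L) L (algebraMap (𝓞 K) (𝓞 L) a) = algebraMap K L (algebraMap (𝓞 K) K a) := by
    rw [← IsScalarTower.algebraMap_apply, ← IsScalarTower.algebraMap_apply]
  rw [h, AlgEquiv.commutes]
  rfl

theorem d4_ram_gp (τ : L ≃ₐ[K] L) (w : Pr L) :
    (gp τ w).asIdeal.ramificationIdx (𝓞 K) = w.asIdeal.ramificationIdx (𝓞 K) := by
  rw [gp_asIdeal]
  have := d4_comm (K := K) (L := L)
  exact Ideal.ramificationIdx_smul (R := 𝓞 K) (S := 𝓞 L) (G := L ≃ₐ[K] L) w.asIdeal τ

/-- PROOF. Both sides are additive in `D`; `D = single w a`. The coefficient at `w'` is on the left `e(w') * f(w) * a` if `below K w' = below K w` and `0` otherwise (`con_apply`, definition of `Nd`), on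
the right `∑_{i<n} ((sD σ)^[i] (single w a)) w' = a * #{i < n | (gp σ)^[i] w = w'}`: `gp_count` (D3) if `below K w = below K w'`, and `0` otherwise (`below_gp`, D1). The ramification index is the same for `w` and `w'`
(they are conjugate: `Ideal.ramificationIdx_smul`, `exists_gp`). -/
theorem con_Nd [IsGalois K L] (σ : L ≃ₐ[K] L) (hσ : ∀ x, x ∈ Subgroup.zpowers σ) (D : Dv L) :
    con K L (Nd K L D) = Multiplicative.toAdd (nrm (Module.finrank K L) (sM σ) (Multiplicative.ofAdd D)) := by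
  classical
  let φ1 : Dv L →+ Dv L := (con K L).comp (Nd K L)
  let φ2 : Dv L →+ Dv L :=
    { toFun := fun D => Multiplicative.toAdd (nrm (Module.finrank K L) (sM σ) (Multiplicative.ofAdd D))
      map_zero' := by rw [ofAdd_zero, map_one, toAdd_one]
      map_add' := fun D E => by rw [ofAdd_add, map_mul, toAdd_mul] }
  have key : φ1 = φ2 := by
    refine Finsupp.addHom_ext fun w a => ?_
    ext w'
    show con K L (Nd K L (Finsupp.single w a)) w' =
      (Multiplicative.toAdd (nrm (Module.finrank K L) (sM σ) (Multiplicative.ofAdd (Finsupp.single w a)))) w'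
    rw [nrm_apply, toAdd_prod, con_apply]
    have h1 : Nd K L (Finsupp.single w a) =
        Finsupp.single (below K w) (((w.asIdeal.inertiaDeg (𝓞 K) : ℕ) : ℤ) * a) := by
      unfold Nd
      rw [Finsupp.liftAddHom_apply_single]
      rfl
    rw [h1, Finsupp.single_apply]
    have h2 : (∑ i ∈ Finset.range (Module.finrank K L), Multiplicative.toAdd
        ((sM σ)^[i] (Multiplicative.ofAdd (Finsupp.single w a)))) w' =
        ∑ i ∈ Finset.range (Module.finrank K L), if (gp σ)^[i] w = w' then a else 0 := by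
      rw [Finsupp.finsetSum_apply]
      refine Finset.sum_congr rfl fun i _ => ?_
      rw [d4_sM_iter, toAdd_ofAdd, Finsupp.single_apply]
    rw [h2, ← Finset.sum_filter, Finset.sum_const, nsmul_eq_mul]
    by_cases hb : below K w = below K w'
    · rw [if_pos hb, gp_count σ hσ w w' hb]
      obtain ⟨τ, hτ⟩ := exists_gp (K := K) w w' hb
      rw [← hτ, d4_ram_gp]
      push_cast
      ring
    · rw [if_neg hb, mul_zero]
      have h3 : (Finset.range (Module.finrank K L)).filter (fun i => (gp σ)^[i] w = w') = ∅ := by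
        rw [Finset.filter_eq_empty_iff]
        intro i _ hi
        apply hb
        rw [← hi, d4_below_iter]
      rw [h3, Finset.card_empty, Nat.cast_zero, zero_mul]
  exact DFunLike.congr_fun key D

theorem Nd_dv (y : Lˣ) : Nd K L (dv (y : L)) = dv (Algebra.norm K (y : L)) := CFT.Nd_dv y.ne_zero

end Pool.Agent.H69H
end

-- from Lib.H69H.D5
section

set_option autoImplicit false
set_option linter.unusedSectionVars false

namespace Pool.Agent.H69H

open NumberField IsDedekindDomain CFT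

variable {K : Type} [Field K] [NumberField K] {L : Type} [Field L] [NumberField L] [Algebra K L]

/-- PROOF. `D` is constant on the orbits (`sD σ D = D` gives `D (gp τ w) = D w` for all `τ ∈ zpowers σ = G`), the orbits are the sets of the primes above one `v` (`exists_gp`, D1). Let `E v = D w` for `v ∈ T`, `w` above `v`
(`below_surj`, D2), `0` for `v ∉ T`. `con E w = e(w) * E (below w) = D w`: `e(w) = 1` for `v ∈ T` (`hT`), both are `0` otherwise. -/
theorem inv_con [IsGalois K L] (σ : L ≃ₐ[K] L) (hσ : ∀ x, x ∈ Subgroup.zpowers σ) (T : Finset (Pr K))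
    (hT : ∀ v ∈ T, Unr K L v) (D : Dv L) (hD : D ∈ DTL L T) (h : sD σ D = D) : ∃ E ∈ DTK T, D = con K L E := by
  classical
  have h1 : ∀ w, D (gp σ w) = D w := by
    intro w
    have := DFunLike.congr_fun h (gp σ w)
    rw [sD_apply, gp_inv_gp] at this
    exact this.symm
  let H : Subgroup (L ≃ₐ[K] L) :=
    { carrier := {τ | ∀ w, D (gp τ w) = D w}
      one_mem' := fun w => by rw [gp_one]
      mul_mem' := fun {a b} ha hb w => by
        rw [gp_mul]
        exact (ha _).trans (hb w)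
      inv_mem' := fun {a} ha w => by
        have := ha (gp a⁻¹ w)
        rw [gp_gp_inv] at this
        exact this.symm }
  have hσH : σ ∈ H := h1
  have h2 : ∀ τ ∈ Subgroup.zpowers σ, ∀ w, D (gp τ w) = D w := by
    intro τ hτ
    have h2' : Subgroup.zpowers σ ≤ H := by
      rw [Subgroup.zpowers_le]
      exact hσH
    exact h2' hτ
  have h3 : ∀ w w' : Pr L, below K w = below K w' → D w = D w' := by
    intro w w' hb
    obtain ⟨τ, hτ⟩ := exists_gp (K := K) w w' hb
    rw [← hτ, h2 τ (hσ τ)]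
  choose up hup using fun v : Pr K => below_surj L v
  let E : Dv K := Finsupp.onFinset T (fun v => if v ∈ T then D (up v) else 0) (by
    intro v hv
    by_contra hcon
    exact hv (if_neg hcon))
  have hE : ∀ v, E v = if v ∈ T then D (up v) else 0 := fun v => rfl
  refine ⟨E, fun v hv => ?_, ?_⟩
  · rw [hE, if_neg hv]
  · ext w
    rw [con_apply, hE]
    by_cases hw : below K w ∈ T
    · rw [if_pos hw, hT _ hw w rfl, Nat.cast_one, one_mul]
      exact h3 w (up (below K w)) (hup (below K w)).symm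
    · rw [if_neg hw, mul_zero]
      exact hD w hw

/-- Generated by the `single w 1`, `w` above `T` (finitely many, `fib_fin`). -/
theorem MT_fg (T : Finset (Pr K)) : (MT L T).FG := by
  classical
  have hfin : {w : Pr L | below K w ∈ T}.Finite := by
    have h1 : {w : Pr L | below K w ∈ T} = ⋃ v ∈ T, {w : Pr L | below K w = v} := by
      ext w
      simp
    rw [h1]
    exact Set.Finite.biUnion T.finite_toSet fun v _ => fib_fin (L := L) K v
  obtain ⟨g, hg⟩ : ∃ g : Pr L → Multiplicative (Dv L),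
      ∀ w, g w = Multiplicative.ofAdd (Finsupp.single w (1 : ℤ)) := ⟨_, fun _ => rfl⟩
  rw [Subgroup.fg_iff]
  refine ⟨g '' {w : Pr L | below K w ∈ T}, ?_, hfin.image _⟩
  apply le_antisymm
  · rw [Subgroup.closure_le]
    rintro _ ⟨w, hw, rfl⟩
    rw [SetLike.mem_coe, mem_MT]
    intro w' hw'
    rw [hg, toAdd_ofAdd, Finsupp.single_apply, if_neg]
    rintro rfl
    exact hw' hw
  · intro D hD
    rw [mem_MT] at hD
    have key : ∀ (E : Dv L), (∀ w, below K w ∉ T → E w = 0) →
        Multiplicative.ofAdd E ∈ Subgroup.closure (g '' {w : Pr L | below K w ∈ T}) := by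
      intro E
      induction E using Finsupp.induction with
      | zero =>
        intro _
        rw [ofAdd_zero]
        exact one_mem _
      | single_add w a f hwf ha ih =>
        intro hE
        have hw : below K w ∈ T := by
          by_contra hcon
          have h1 := hE w hcon
          rw [Finsupp.add_apply, Finsupp.single_eq_same, Finsupp.notMem_support_iff.1 hwf, add_zero] at h1
          exact ha h1
        rw [ofAdd_add]
        refine mul_mem ?_ (ih ?_)
        · have h2 : Multiplicative.ofAdd (Finsupp.single w a) = g w ^ a := by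
            rw [hg, ← ofAdd_zsmul]
            congr 1
            rw [Finsupp.smul_single, smul_eq_mul, mul_one]
          rw [h2]
          have h3 : g w ∈ g '' {w : Pr L | below K w ∈ T} := Set.mem_image_of_mem g hw
          exact zpow_mem (Subgroup.subset_closure h3) a
        · intro w' hw'
          have h1 := hE w' hw'
          rw [Finsupp.add_apply, Finsupp.single_apply, if_neg, zero_add] at h1
          · exact h1
          · rintro rfl
            exact hw' hw
    exact key (Multiplicative.toAdd D) hD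


end Pool.Agent.H69H
end

-- from Lib.H55R.Defs
section

/-!
# H55R: reciprocity for cyclic extensions of prime degree (definitions)

K is a totally complex number field, L/K cyclic of prime degree, tame. There is a ray class character
of K whose modulus is the product of the ramified primes and whose value at a prime v prime to the
modulus is 1 if and only if v splits in L. See PROOF.md.
-/

open NumberField IsDedekindDomain
open scoped Pointwise

namespace H55R

/-- The primes of K. -/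
abbrev Pl (K : Type) [Field K] [NumberField K] := HeightOneSpectrum (𝓞 K)

section chars

variable {K : Type} [Field K] [NumberField K]






open Classical in
/-- The value at a nonzero ideal of the character with values φ at the primes. -/
noncomputable def pv (φ : Pl K → ℂˣ) (a : Ideal (𝓞 K)) : ℂˣ :=
  ((UniqueFactorizationMonoid.normalizedFactors a).map fun P =>
    if h : P.IsPrime ∧ P ≠ ⊥ then φ ⟨P, h.1, h.2⟩ else 1).prod

theorem pv_one (φ : Pl K → ℂˣ) : pv φ 1 = 1 := by
  unfold pv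
  rw [UniqueFactorizationMonoid.normalizedFactors_one]
  simp

theorem pv_mul (φ : Pl K → ℂˣ) {a b : Ideal (𝓞 K)} (ha : a ≠ ⊥) (hb : b ≠ ⊥) :
    pv φ (a * b) = pv φ a * pv φ b := by
  unfold pv
  rw [UniqueFactorizationMonoid.normalizedFactors_mul ha hb, Multiset.map_add, Multiset.prod_add]

theorem pv_prime (φ : Pl K → ℂˣ) (v : Pl K) : pv φ v.asIdeal = φ v := by
  unfold pv
  rw [UniqueFactorizationMonoid.normalizedFactors_irreducible v.irreducible]
  simp only [normalize_eq, Multiset.map_singleton, Multiset.prod_singleton]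
  rw [dif_pos ⟨v.isPrime, v.ne_bot⟩]


theorem pv_one_fun (a : Ideal (𝓞 K)) : pv (1 : Pl K → ℂˣ) a = 1 := by
  unfold pv
  refine Multiset.prod_eq_one fun x hx => ?_
  rw [Multiset.mem_map] at hx
  obtain ⟨P, -, rfl⟩ := hx
  by_cases h : P.IsPrime ∧ P ≠ ⊥
  · rw [dif_pos h, Pi.one_apply]
  · rw [dif_neg h]


open Classical in
/-- The character on ideals with values φ, 0 for the ideals not prime to f. -/
noncomputable def tI (f : Ideal (𝓞 K)) (φ : Pl K → ℂˣ) : Ideal (𝓞 K) →*₀ ℂ where
  toFun a := if a ≠ ⊥ ∧ IsCoprime a f then (pv φ a : ℂ) else 0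
  map_zero' := if_neg fun h => h.1 rfl
  map_one' := by
    rw [if_pos ⟨one_ne_zero, isCoprime_one_left⟩, pv_one, Units.val_one]
  map_mul' a b := by
    by_cases ha : a ≠ ⊥ ∧ IsCoprime a f
    · by_cases hb : b ≠ ⊥ ∧ IsCoprime b f
      · rw [if_pos ⟨mul_ne_zero ha.1 hb.1, ha.2.mul_left hb.2⟩, if_pos ha, if_pos hb,
          pv_mul φ ha.1 hb.1, Units.val_mul]
      · rw [if_neg hb, mul_zero, if_neg]
        rintro ⟨h1, h2⟩
        exact hb ⟨right_ne_zero_of_mul h1, h2.of_mul_left_right⟩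
    · rw [if_neg ha, zero_mul, if_neg]
      rintro ⟨h1, h2⟩
      exact ha ⟨left_ne_zero_of_mul h1, h2.of_mul_left_left⟩

theorem tI_apply (f : Ideal (𝓞 K)) (φ : Pl K → ℂˣ) {a : Ideal (𝓞 K)} (ha : a ≠ ⊥)
    (h : IsCoprime a f) : tI f φ a = (pv φ a : ℂ) := if_pos ⟨ha, h⟩

theorem tI_zero (f : Ideal (𝓞 K)) (φ : Pl K → ℂˣ) {a : Ideal (𝓞 K)} (h : ¬ IsCoprime a f) :
    tI f φ a = 0 := if_neg fun h' => h h'.2


open Classical in
/-- The sum of Nv^(-s) over the primes in A. -/
noncomputable def PS (A : Set (Pl K)) (s : ℝ) : ℝ :=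
  ∑' v : Pl K, A.indicator (fun v => (Ideal.absNorm v.asIdeal : ℝ) ^ (-s)) v


end chars

section ext

variable (K L : Type) [Field K] [NumberField K] [Field L] [NumberField L] [Algebra K L]

/-- The ramification index of v in L/K (Galois). -/
noncomputable def es (v : Pl K) : ℕ := v.asIdeal.ramificationIdxIn (𝓞 L)

/-- The residue degree of v in L/K (Galois). -/
noncomputable def fs (v : Pl K) : ℕ := v.asIdeal.inertiaDegIn (𝓞 L)

/-- v splits completely in L/K (Galois). -/
def Spl (v : Pl K) : Prop := es K L v = 1 ∧ fs K L v = 1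

variable {K L}



end ext

/-! ### Herbrand quotients -/

section herb

variable {A : Type} [AddCommGroup A]

/-- 1 - σ. -/
def Dm (σ : AddMonoid.End A) : A →+ A := (1 - σ : AddMonoid.End A)

/-- 1 + σ + ... + σ^(n-1). -/
def Nm (n : ℕ) (σ : AddMonoid.End A) : A →+ A := (∑ i ∈ Finset.range n, σ ^ i : AddMonoid.End A)

/-- The order of the 0th Tate cohomology of the subgroup B. -/
noncomputable def h0 (n : ℕ) (σ : AddMonoid.End A) (B : AddSubgroup A) : ℕ :=
  (B.map (Nm n σ)).relIndex (B ⊓ (Dm σ).ker)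

/-- The order of the -1st Tate cohomology of the subgroup B. -/
noncomputable def h1 (n : ℕ) (σ : AddMonoid.End A) (B : AddSubgroup A) : ℕ :=
  (B.map (Dm σ)).relIndex (B ⊓ (Nm n σ).ker)



end herb

end H55R
end

-- from Lib.CFT.ZA
section

/-! # CFT, module Z, part A: Dirichlet series over the ideals of a number field

A port of Lib/H55N/H3, H4 and Lib/H55R/DD, D1, D2, D3 without their other imports. Ls h s: the Dirichlet series of h at the real
number s. ideal_summable; euler (Euler product, logarithm of the absolute value); log_cmp (comparison of log |L| with the sum over the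
primes); zeta_log, zeta_pole (the pole of the zeta function). -/

open NumberField IsDedekindDomain

namespace CFTZ

open H55R

section base

variable {K : Type} [Field K] [NumberField K]

/-- The general term of a Dirichlet series over the ideals. -/
noncomputable def tm (h : Ideal (𝓞 K) → ℂ) (s : ℂ) (a : Ideal (𝓞 K)) : ℂ :=
  h a * (Ideal.absNorm a : ℂ) ^ (-s)

/-- The general term of a Dirichlet series with completely multiplicative coefficients. -/
noncomputable def tmH (h : Ideal (𝓞 K) →*₀ ℂ) (s : ℂ) : Ideal (𝓞 K) →*₀ ℂ where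
  toFun := tm h s
  map_zero' := by
    unfold tm
    rw [map_zero, zero_mul]
  map_one' := by
    unfold tm
    rw [map_one, map_one, Nat.cast_one, Complex.one_cpow, one_mul]
  map_mul' a b := by
    unfold tm
    rw [map_mul, map_mul, Nat.cast_mul, Complex.natCast_mul_natCast_cpow]
    ring

theorem H3_tendsto : Filter.Tendsto (fun n : ℕ => (∑ k ∈ Finset.Icc 1 n,
    (Nat.card {I : Ideal (𝓞 K) // Ideal.absNorm I = k} : ℝ)) / (n : ℝ)) Filter.atTop
    (nhds (NumberField.dedekindZeta_residue K)) := by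
  refine ((Ideal.tendsto_norm_le_div_atTop₀ K).comp tendsto_natCast_atTop_atTop).congr fun n ↦ ?_
  simp only [Function.comp_apply, Nat.cast_le, ← Nat.cast_sum]
  congr
  rw [← add_left_inj 1, ← Ideal.card_norm_le_eq_card_norm_le_add_one,
    show Finset.Icc 1 n = Finset.Ioc 0 n from Finset.Icc_succ_left_eq_Ioc _ _,
    show 1 = Nat.card {I : Ideal (𝓞 K) // Ideal.absNorm I = 0} by simp [Ideal.absNorm_eq_zero_iff],
    Finset.sum_Ioc_add_eq_sum_Icc (n.zero_le),
    ← Finset.card_preimage_eq_sum_card_image_eq (fun k _ ↦ Ideal.finite_setOfPred_absNorm_eq k)]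
  simp [Set.coe_eq_subtype]

theorem ideal_summable (σ : ℝ) (hσ : 1 < σ) :
    Summable (fun a : Ideal (𝓞 K) => (Ideal.absNorm a : ℝ) ^ (-σ)) := by
  have h0 : LSeriesSummable (fun n => (((Nat.card {I : Ideal (𝓞 K) // Ideal.absNorm I = n} : ℕ) : ℝ) : ℂ))
      (σ : ℂ) := by
    have h1 : 1 < (σ : ℂ).re := by simpa using hσ
    refine LSeriesSummable_of_sum_norm_bigO_and_nonneg (r := 1) ?_ (fun _ => Nat.cast_nonneg _)
      zero_le_one h1
    exact Asymptotics.isBigO_atTop_natCast_rpow_of_tendsto_div_rpow (𝕜 := ℝ) (a := NumberField.dedekindZeta_residue K)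
      (by simpa using (H3_tendsto (K := K)))
  have h2 : Summable (fun n : ℕ =>
      ((Nat.card {I : Ideal (𝓞 K) // Ideal.absNorm I = n} : ℕ) : ℝ) * (n : ℝ) ^ (-σ)) := by
    refine (summable_norm_iff.2 h0).congr fun n => ?_
    rcases Nat.eq_zero_or_pos n with rfl | hn
    · rw [LSeries.term_zero, norm_zero, Nat.cast_zero, Real.zero_rpow (by linarith), mul_zero]
    · rw [LSeries.term_of_ne_zero (by omega), norm_div, Complex.norm_natCast_cpow_of_pos hn,
        Complex.norm_real, Real.norm_of_nonneg (Nat.cast_nonneg _), Complex.ofReal_re,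
        Real.rpow_neg (Nat.cast_nonneg _), div_eq_mul_inv]
  rw [← (Equiv.sigmaFiberEquiv (fun a : Ideal (𝓞 K) => Ideal.absNorm a)).summable_iff]
  have h3 : ∀ n : ℕ, Finite {I : Ideal (𝓞 K) // Ideal.absNorm I = n} := fun n =>
    (Ideal.finite_setOfPred_absNorm_eq n).to_subtype
  rw [summable_sigma_of_nonneg]
  · refine ⟨fun n => Summable.of_finite, h2.congr fun n => ?_⟩
    have := Fintype.ofFinite {I : Ideal (𝓞 K) // Ideal.absNorm I = n}
    rw [tsum_fintype]
    rw [Finset.sum_congr rfl (g := fun _ => (n : ℝ) ^ (-σ))]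
    · rw [Finset.sum_const, Finset.card_univ, Nat.card_eq_fintype_card, nsmul_eq_mul]
    · rintro ⟨I, hI⟩ -
      simp only [Function.comp_apply, Equiv.sigmaFiberEquiv_apply]
      rw [hI]
  · rintro ⟨n, I⟩
    simp only [Function.comp_apply]
    positivity

end base


open Classical in
theorem H4_aux {K : Type} [Field K] [NumberField K] {ι : Type}
    (k : Ideal (𝓞 K) →*₀ ℂ) (hk : Summable fun a => ‖k a‖) (c : ι → Ideal (𝓞 K))
    (hc : ∀ i, (c i).IsPrime) (hc0 : ∀ i, c i ≠ ⊥) (inj : Function.Injective c) (p : ι → ℂ)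
    (S : Finset ι) :
    HasSum (fun a => k a * ∏ i ∈ S, (if a ≤ c i then 1 - p i else 1))
      ((∏ i ∈ S, (1 - p i * k (c i))) * ∑' a, k a) := by
  induction S using Finset.induction_on with
  | empty => simpa using hk.of_norm.hasSum
  | insert j S hj ih =>
    set f : Ideal (𝓞 K) → ℂ := fun a => k a * ∏ i ∈ S, (if a ≤ c i then 1 - p i else 1) with hf
    set g : Ideal (𝓞 K) → ℂ := fun a => if a ≤ c j then f a else 0 with hg
    have hinj : Function.Injective (fun b : Ideal (𝓞 K) => c j * b) :=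
      fun a b h => mul_left_cancel₀ (by simpa using hc0 j) h
    have h1 : ∀ b, g (c j * b) = k (c j) * f b := by
      intro b
      have h2 : c j * b ≤ c j := Ideal.mul_le_left
      simp only [hg, hf]
      rw [if_pos h2, map_mul, mul_assoc]
      congr 2
      refine Finset.prod_congr rfl fun i hi => ?_
      have hij : i ≠ j := fun h => hj (h ▸ hi)
      have h3 : c j * b ≤ c i ↔ b ≤ c i := by
        constructor
        · intro h
          rcases (hc i).mul_le.1 h with h | h
          · exfalso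
            have hmax : (c j).IsMaximal := (hc j).isMaximal (hc0 j)
            have := hmax.eq_of_le (hc i).ne_top h
            exact hij (inj this.symm)
          · exact h
        · intro h
          exact Ideal.mul_le_right.trans h
      simp only [h3]
    have h4 : HasSum g (k (c j) * ((∏ i ∈ S, (1 - p i * k (c i))) * ∑' a, k a)) := by
      rw [← hinj.hasSum_iff]
      · refine (ih.mul_left (k (c j))).congr_fun ?_
        intro b
        exact h1 b
      · intro a ha
        simp only [hg]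
        rw [if_neg]
        intro h
        obtain ⟨b, rfl⟩ := Ideal.dvd_iff_le.2 h
        exact ha ⟨b, rfl⟩
    have h5 := ih.sub (h4.mul_left (p j))
    rw [Finset.prod_insert hj]
    have h6 : (∏ i ∈ S, (1 - p i * k (c i))) * ∑' a, k a -
        p j * (k (c j) * ((∏ i ∈ S, (1 - p i * k (c i))) * ∑' a, k a)) =
        (1 - p j * k (c j)) * (∏ i ∈ S, (1 - p i * k (c i))) * ∑' a, k a := by ring
    rw [h6] at h5
    refine h5.congr_fun ?_
    intro a
    rw [Finset.prod_insert hj]
    simp only [hg, hf]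
    split_ifs <;> ring

section one

variable {K : Type} [Field K] [NumberField K]

/-- The value of the Dirichlet series of h at the real number s. -/
noncomputable def Ls (h : Ideal (𝓞 K) → ℂ) (s : ℝ) : ℂ := ∑' a, tm h s a

theorem dd_two_le (v : Pl K) : 2 ≤ Ideal.absNorm v.asIdeal := by
  have h0 : Ideal.absNorm v.asIdeal ≠ 0 := fun h => v.ne_bot (Ideal.absNorm_eq_zero_iff.1 h)
  have h1 : Ideal.absNorm v.asIdeal ≠ 1 := fun h => v.isPrime.ne_top (Ideal.absNorm_eq_one_iff.1 h)
  omega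

theorem dd_half (v : Pl K) (s : ℝ) (hs : 1 ≤ s) : (Ideal.absNorm v.asIdeal : ℝ) ^ (-s) ≤ 1 / 2 := by
  have h2 : (2 : ℝ) ≤ (Ideal.absNorm v.asIdeal : ℝ) := by exact_mod_cast dd_two_le v
  calc (Ideal.absNorm v.asIdeal : ℝ) ^ (-s) ≤ (Ideal.absNorm v.asIdeal : ℝ) ^ (-1 : ℝ) :=
        Real.rpow_le_rpow_of_exponent_le (by linarith) (by linarith)
    _ = (Ideal.absNorm v.asIdeal : ℝ)⁻¹ := Real.rpow_neg_one _
    _ ≤ 1 / 2 := by
        rw [one_div]
        exact inv_anti₀ (by norm_num) h2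

theorem dd_inj : Function.Injective fun v : Pl K => v.asIdeal := fun _ _ h =>
  HeightOneSpectrum.ext h

theorem dd_summable (s : ℝ) (hs : 1 < s) :
    Summable fun v : Pl K => (Ideal.absNorm v.asIdeal : ℝ) ^ (-s) :=
  (ideal_summable (K := K) s hs).comp_injective dd_inj

theorem dd_norm_tm (h : Ideal (𝓞 K) → ℂ) (s : ℝ) (hs : s ≠ 0) (a : Ideal (𝓞 K)) :
    ‖tm h s a‖ = ‖h a‖ * (Ideal.absNorm a : ℝ) ^ (-s) := by
  unfold tm
  rw [norm_mul, Complex.norm_natCast_cpow_of_re_ne_zero _ (by simpa using hs)]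
  simp

theorem dd_tm_summable (h : Ideal (𝓞 K) → ℂ) (hh : ∀ a, ‖h a‖ ≤ 1) (s : ℝ) (hs : 1 < s) :
    Summable fun a => ‖tm h s a‖ := by
  refine Summable.of_nonneg_of_le (fun _ => norm_nonneg _) (fun a => ?_)
    (ideal_summable (K := K) s hs)
  rw [dd_norm_tm h s (by linarith) a]
  exact mul_le_of_le_one_left (by positivity) (hh a)

theorem dd_norm_pv (φ : Pl K → ℂˣ) (h : ∀ v, ‖(φ v : ℂ)‖ = 1) (a : Ideal (𝓞 K)) :
    ‖(pv φ a : ℂ)‖ = 1 := by
  unfold pv
  have h1 : ∀ s : Multiset ℂˣ, (∀ x ∈ s, ‖(x : ℂ)‖ = 1) → ‖((s.prod : ℂˣ) : ℂ)‖ = 1 := by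
    intro s
    induction s using Multiset.induction_on with
    | empty => simp
    | cons x s ih =>
      intro hx
      rw [Multiset.prod_cons, Units.val_mul, norm_mul, hx x (Multiset.mem_cons_self x s),
        ih fun y hy => hx y (Multiset.mem_cons_of_mem hy), one_mul]
  apply h1
  intro x hx
  rw [Multiset.mem_map] at hx
  obtain ⟨P, -, rfl⟩ := hx
  split_ifs with h2
  · exact h _
  · simp

theorem dd_norm_tI (f : Ideal (𝓞 K)) (φ : Pl K → ℂˣ) (h : ∀ v, ‖(φ v : ℂ)‖ = 1)
    (a : Ideal (𝓞 K)) : ‖tI f φ a‖ ≤ 1 := by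
  by_cases h0 : a ≠ ⊥ ∧ IsCoprime a f
  · rw [tI_apply f φ h0.1 h0.2, dd_norm_pv φ h a]
  · have : tI f φ a = 0 := if_neg h0
    rw [this, norm_zero]
    exact zero_le_one


/-- The value at an ideal all of whose primes have value 1. -/
theorem dd_pv_eq_one (φ : Pl K → ℂˣ) (a : Ideal (𝓞 K))
    (h : ∀ v : Pl K, a ≤ v.asIdeal → φ v = 1) : pv φ a = 1 := by
  unfold pv
  refine Multiset.prod_eq_one fun x hx => ?_
  rw [Multiset.mem_map] at hx
  obtain ⟨P, hP, rfl⟩ := hx
  split_ifs with h2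
  · exact h _ (Ideal.dvd_iff_le.1 (UniqueFactorizationMonoid.dvd_of_mem_normalizedFactors hP))
  · rfl

end one

theorem RD1_le {K : Type} [Field K] [NumberField K] (h : Ideal (𝓞 K) →*₀ ℂ)
    (hh : ∀ a, ‖h a‖ ≤ 1) (s : ℝ) (hs : 1 < s) (v : Pl K) : ‖tm h s v.asIdeal‖ ≤ 1 / 2 := by
  rw [dd_norm_tm h s (by linarith)]
  calc ‖h v.asIdeal‖ * (Ideal.absNorm v.asIdeal : ℝ) ^ (-s) ≤
      1 * (Ideal.absNorm v.asIdeal : ℝ) ^ (-s) := by
        gcongr
        exact hh _
    _ ≤ 1 / 2 := by
        rw [one_mul]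
        exact dd_half v s hs.le

theorem RD1_ne {K : Type} [Field K] [NumberField K] (h : Ideal (𝓞 K) →*₀ ℂ)
    (hh : ∀ a, ‖h a‖ ≤ 1) (s : ℝ) (hs : 1 < s) (v : Pl K) : 1 - tm h s v.asIdeal ≠ 0 := by
  intro h0
  have h1 := RD1_le h hh s hs v
  rw [← sub_eq_zero.1 h0, NormOneClass.norm_one] at h1
  norm_num at h1

open Filter Topology Classical in
theorem RD1_lim {K : Type} [Field K] [NumberField K] (h : Ideal (𝓞 K) →*₀ ℂ)
    (hh : ∀ a, ‖h a‖ ≤ 1) (s : ℝ) (hs : 1 < s) :
    Tendsto (fun S : Finset (Pl K) => (∏ v ∈ S, (1 - tm h s v.asIdeal)) * Ls h s) atTop (𝓝 1) := by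
  set k : Ideal (𝓞 K) →*₀ ℂ := tmH h s with hk
  have hkv : ∀ a, k a = tm h s a := fun _ => rfl
  have hsum : Summable fun a => ‖k a‖ := dd_tm_summable h hh s hs
  have h1 : ∀ S : Finset (Pl K), ∑' a, k a * ∏ v ∈ S, (if a ≤ v.asIdeal then (1 : ℂ) - 1 else 1) =
      (∏ v ∈ S, (1 - tm h s v.asIdeal)) * Ls h s := by
    intro S
    have h2 := H4_aux k hsum (fun v : Pl K => v.asIdeal) (fun v => v.isPrime) (fun v => v.ne_bot)
      dd_inj (fun _ => 1) S
    rw [h2.tsum_eq]
    simp only [one_mul]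
    rfl
  have h3 : Tendsto (fun S : Finset (Pl K) =>
      ∑' a, k a * ∏ v ∈ S, (if a ≤ v.asIdeal then (1 : ℂ) - 1 else 1)) atTop
      (𝓝 (∑' a : Ideal (𝓞 K), if a = 1 then (1 : ℂ) else 0)) := by
    refine tendsto_tsum_of_dominated_convergence hsum ?_ ?_
    · intro a
      by_cases ha : a = 1
      · subst ha
        rw [if_pos rfl]
        refine tendsto_const_nhds.congr fun S => ?_
        rw [map_one, one_mul]
        refine (Finset.prod_eq_one fun v _ => ?_).symm
        rw [if_neg]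
        intro h4
        rw [Ideal.one_eq_top, top_le_iff] at h4
        exact v.isPrime.ne_top h4
      · rw [if_neg ha]
        by_cases ha0 : a = ⊥
        · refine tendsto_const_nhds.congr fun S => ?_
          have h5 : k a = 0 := by
            rw [ha0]
            exact map_zero k
          rw [h5, zero_mul]
        · have h6 : a ≠ ⊤ := by
            rw [← Ideal.one_eq_top]
            exact ha
          obtain ⟨m, hm, ham⟩ := Ideal.exists_le_maximal a h6
          have hm0 : m ≠ ⊥ := by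
            rintro rfl
            exact ha0 (le_bot_iff.1 ham)
          refine tendsto_const_nhds.congr' ?_
          filter_upwards [eventually_ge_atTop {(⟨m, hm.isPrime, hm0⟩ : Pl K)}] with S hS
          have h7 : (⟨m, hm.isPrime, hm0⟩ : Pl K) ∈ S := hS (Finset.mem_singleton_self _)
          rw [Finset.prod_eq_zero h7, mul_zero]
          rw [if_pos ham, sub_self]
    · refine Eventually.of_forall fun S a => ?_
      rw [norm_mul, norm_prod]
      refine mul_le_of_le_one_right (norm_nonneg _) ?_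
      refine Finset.prod_le_one (fun _ _ => norm_nonneg _) fun v _ => ?_
      split_ifs
      · rw [sub_self, norm_zero]
        exact zero_le_one
      · rw [NormOneClass.norm_one]
  rw [tsum_ite_eq] at h3
  exact h3.congr h1

/-- Chunk RD1 (M), the Euler product. k = tmH h s (multiplicative, norm summable: dd_tm_summable). For a finset S of primes, H4_aux (or smooth_sum) with
index type Pl K, c v = v.asIdeal, p = 1 gives: the sum over a of k a * prod over v in S of (if a <= v then 0 else 1) is (prod over S of (1 - k v)) * L. When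
S runs over the finsets (atTop) the left side tends to k 1 = 1: tendsto_tsum_of_dominated_convergence with the bound |k a|; for a = 1 = top all factors are
1 (a prime is not top); for a = bot k a = 0; any other a is contained in a maximal ideal v (Ideal.exists_le_maximal), nonzero since a <> bot, so the term is 0 as soon
as v is in S (Filter.eventually_ge_atTop {v}). So (prod over S of (1 - k v)) * L tends to 1; hence L <> 0 and |prod over S of (1 - k v)| tends to 1 / |L| and
the sum over S of -log |1 - k v| = -log |prod| tends to log |L| (Real.log_prod needs 1 - k v <> 0: |k v| <= 1/2 by dd_norm_tm, dd_half; continuity of log at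
1/|L| > 0). HasSum is the convergence along the finsets. -/
theorem euler {K : Type} [Field K] [NumberField K] (h : Ideal (𝓞 K) →*₀ ℂ)
    (hh : ∀ a, ‖h a‖ ≤ 1) (s : ℝ) (hs : 1 < s) :
    Ls h s ≠ 0 ∧
      HasSum (fun v : Pl K => -Real.log ‖1 - tm h s v.asIdeal‖) (Real.log ‖Ls h s‖) := by
  have h1 := RD1_lim h hh s hs
  have hL : Ls h s ≠ 0 := by
    intro h0
    rw [h0] at h1
    simp only [mul_zero] at h1
    exact zero_ne_one (tendsto_nhds_unique tendsto_const_nhds h1)
  refine ⟨hL, ?_⟩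
  have h2 : Filter.Tendsto (fun S : Finset (Pl K) => ∏ v ∈ S, (1 - tm h s v.asIdeal))
      Filter.atTop (nhds (Ls h s)⁻¹) := by
    have h3 := h1.mul_const (Ls h s)⁻¹
    rw [one_mul] at h3
    refine h3.congr fun S => ?_
    rw [mul_assoc, mul_inv_cancel₀ hL, mul_one]
  have h4 := (h2.norm.log (norm_ne_zero_iff.2 (inv_ne_zero hL))).neg
  rw [norm_inv, Real.log_inv, neg_neg] at h4
  unfold HasSum
  rw [SummationFilter.unconditional_filter]
  refine h4.congr fun S => ?_
  rw [norm_prod, Real.log_prod fun v _ => norm_ne_zero_iff.2 (RD1_ne h hh s hs v),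
    Finset.sum_neg_distrib]

theorem RD2_re {K : Type} [Field K] [NumberField K] (h : Ideal (𝓞 K) →*₀ ℂ) (s : ℝ)
    (a : Ideal (𝓞 K)) : (tm h s a).re = (h a).re * (Ideal.absNorm a : ℝ) ^ (-s) := by
  unfold tm
  have h1 : ((Ideal.absNorm a : ℂ) ^ (-(s : ℂ))) = (((Ideal.absNorm a : ℝ) ^ (-s) : ℝ) : ℂ) := by
    rw [Complex.ofReal_cpow (Nat.cast_nonneg _)]
    push_cast
    rfl
  rw [h1, Complex.re_mul_ofReal]

theorem RD2_term {K : Type} [Field K] [NumberField K] (h : Ideal (𝓞 K) →*₀ ℂ)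
    (hh : ∀ a, ‖h a‖ ≤ 1) (s : ℝ) (hs : 1 < s) (v : Pl K) :
    |(h v.asIdeal).re * (Ideal.absNorm v.asIdeal : ℝ) ^ (-s) -
      (-Real.log ‖1 - tm h s v.asIdeal‖)| ≤ (Ideal.absNorm v.asIdeal : ℝ) ^ (-2 : ℝ) := by
  have h0 := RD1_le h hh s hs v
  set z := tm h s v.asIdeal with hz
  have h1 : ‖Complex.log (1 + -z) - -z‖ ≤ ‖z‖ ^ 2 := by
    have h2 := Complex.norm_log_one_add_sub_self_le (z := -z) (by rw [norm_neg]; linarith)
    rw [norm_neg] at h2
    refine h2.trans ?_
    have h3 : (1 - ‖z‖)⁻¹ ≤ 2 := by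
      rw [inv_le_comm₀ (by linarith) (by norm_num)]
      linarith
    have h4 : 0 ≤ ‖z‖ ^ 2 := sq_nonneg _
    nlinarith
  have h5 : (h v.asIdeal).re * (Ideal.absNorm v.asIdeal : ℝ) ^ (-s) -
      (-Real.log ‖1 - z‖) = (Complex.log (1 + -z) - -z).re := by
    rw [← RD2_re, Complex.sub_re, Complex.log_re, ← sub_eq_add_neg, Complex.neg_re]
    ring
  rw [h5]
  refine (Complex.abs_re_le_norm _).trans (h1.trans ?_)
  have h6 : (0 : ℝ) ≤ (Ideal.absNorm v.asIdeal : ℝ) := Nat.cast_nonneg _
  have h2 : (2 : ℝ) ≤ (Ideal.absNorm v.asIdeal : ℝ) := by exact_mod_cast dd_two_le v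
  have h7 : ‖z‖ ≤ (Ideal.absNorm v.asIdeal : ℝ) ^ (-s) := by
    rw [hz, dd_norm_tm h s (by linarith)]
    exact mul_le_of_le_one_left (by positivity) (hh _)
  calc ‖z‖ ^ 2 ≤ ((Ideal.absNorm v.asIdeal : ℝ) ^ (-s)) ^ 2 :=
        pow_le_pow_left₀ (norm_nonneg _) h7 2
    _ = (Ideal.absNorm v.asIdeal : ℝ) ^ (-s * 2) := by
        rw [Real.rpow_mul h6]
        norm_num
    _ ≤ (Ideal.absNorm v.asIdeal : ℝ) ^ (-2 : ℝ) :=
        Real.rpow_le_rpow_of_exponent_le (by linarith) (by linarith)

/-- Chunk RD2 (S), logarithms. With z = tm h s v, |z| <= Nv^(-s) <= 1/2 (dd_norm_tm, dd_half): |-log |1 - z| - Re z| <= |log(1 - z) + z| <= |z|^2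
(real part of the complex logarithm, Complex.log_re; Complex.norm_log_one_add_sub_self_le with z replaced by -z) and |z|^2 <= Nv^(-2s) <= Nv^(-2).
Re z = Re (h v) * Nv^(-s) (the power is a positive real number). Sum over v: euler, dd_summable; C is the sum of Nv^(-2) (tsum of a difference,
norm of a tsum <= tsum of the bounds). Both series converge: Re (h v) Nv^(-s) is bounded by Nv^(-s). -/
theorem log_cmp (K : Type) [Field K] [NumberField K] : ∃ C : ℝ, ∀ h : Ideal (𝓞 K) →*₀ ℂ,
    (∀ a, ‖h a‖ ≤ 1) → ∀ s ∈ Set.Ioc (1 : ℝ) 2,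
      |∑' v : Pl K, (h v.asIdeal).re * (Ideal.absNorm v.asIdeal : ℝ) ^ (-s) -
        Real.log ‖Ls h s‖| ≤ C := by
  refine ⟨∑' v : Pl K, (Ideal.absNorm v.asIdeal : ℝ) ^ (-2 : ℝ), fun h hh s hs => ?_⟩
  have h2 : Summable fun v : Pl K => (Ideal.absNorm v.asIdeal : ℝ) ^ (-2 : ℝ) :=
    dd_summable 2 (by norm_num)
  have h3 := (euler h hh s hs.1).2
  have h4 : Summable fun v : Pl K => (h v.asIdeal).re * (Ideal.absNorm v.asIdeal : ℝ) ^ (-s) := by
    refine Summable.of_norm_bounded (dd_summable (K := K) s hs.1) fun v => ?_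
    rw [norm_mul, Real.norm_eq_abs, Real.norm_of_nonneg (by positivity)]
    exact mul_le_of_le_one_left (by positivity) ((Complex.abs_re_le_norm _).trans (hh _))
  rw [← h3.tsum_eq, ← h4.tsum_sub h3.summable, ← Real.norm_eq_abs]
  exact tsum_of_norm_bounded h2.hasSum fun v => RD2_term h hh s hs.1 v

theorem RD3_zeta {K : Type} [Field K] [NumberField K] (s : ℝ) (hs : 1 < s) :
    dedekindZeta K s = ((∑' a : Ideal (𝓞 K), (Ideal.absNorm a : ℝ) ^ (-s) : ℝ) : ℂ) := by
  have h0 := ideal_summable (K := K) s hs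
  have h1 : HasSum (fun p : Σ n : ℕ, {a : Ideal (𝓞 K) // Ideal.absNorm a = n} =>
      (((Ideal.absNorm p.2.1 : ℝ) ^ (-s) : ℝ) : ℂ))
      ((∑' a : Ideal (𝓞 K), (Ideal.absNorm a : ℝ) ^ (-s) : ℝ) : ℂ) := by
    have h2 := (Equiv.sigmaFiberEquiv (fun a : Ideal (𝓞 K) => Ideal.absNorm a)).hasSum_iff
      (f := fun a : Ideal (𝓞 K) => (((Ideal.absNorm a : ℝ) ^ (-s) : ℝ) : ℂ))
      (a := ((∑' a : Ideal (𝓞 K), (Ideal.absNorm a : ℝ) ^ (-s) : ℝ) : ℂ))
    exact h2.2 (Complex.hasSum_ofReal.2 h0.hasSum)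
  have h2 : HasSum (LSeries.term (fun n => (Nat.card {I : Ideal (𝓞 K) // Ideal.absNorm I = n} : ℂ)) s)
      ((∑' a : Ideal (𝓞 K), (Ideal.absNorm a : ℝ) ^ (-s) : ℝ) : ℂ) := by
    refine h1.sigma fun n => ?_
    have hfin : Finite {a : Ideal (𝓞 K) // Ideal.absNorm a = n} :=
      Ideal.finite_setOfPred_absNorm_eq n
    let _ : Fintype {a : Ideal (𝓞 K) // Ideal.absNorm a = n} := Fintype.ofFinite _
    have h3 : LSeries.term (fun n => (Nat.card {I : Ideal (𝓞 K) // Ideal.absNorm I = n} : ℂ)) s n =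
        ∑ a : {a : Ideal (𝓞 K) // Ideal.absNorm a = n},
          (((Ideal.absNorm a.1 : ℝ) ^ (-s) : ℝ) : ℂ) := by
      rw [Finset.sum_congr rfl (g := fun _ => (((n : ℝ) ^ (-s) : ℝ) : ℂ))
        (fun a _ => by rw [a.2]), Finset.sum_const, Finset.card_univ, ← Nat.card_eq_fintype_card,
        nsmul_eq_mul]
      rcases Nat.eq_zero_or_pos n with rfl | hn
      · rw [LSeries.term_zero, Nat.cast_zero, Real.zero_rpow (by linarith), Complex.ofReal_zero,
          mul_zero]
      · rw [LSeries.term_of_ne_zero (by omega), div_eq_mul_inv, ← Complex.cpow_neg,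
          Complex.ofReal_cpow (Nat.cast_nonneg _)]
        push_cast
        rfl
    rw [h3]
    exact hasSum_fintype _
  exact h2.tsum_eq

theorem RD3_one {K : Type} [Field K] [NumberField K] (s : ℝ) (hs : 1 < s) :
    1 ≤ ∑' a : Ideal (𝓞 K), (Ideal.absNorm a : ℝ) ^ (-s) := by
  have h1 := (ideal_summable (K := K) s hs).le_tsum (1 : Ideal (𝓞 K)) fun _ _ => by positivity
  rw [map_one, Nat.cast_one, Real.one_rpow] at h1
  exact h1

theorem RD3_anti {K : Type} [Field K] [NumberField K] {s t : ℝ} (hs : 1 < s) (hst : s ≤ t) :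
    ∑' a : Ideal (𝓞 K), (Ideal.absNorm a : ℝ) ^ (-t) ≤
      ∑' a : Ideal (𝓞 K), (Ideal.absNorm a : ℝ) ^ (-s) := by
  refine Summable.tsum_le_tsum (fun a => ?_) (ideal_summable (K := K) t (by linarith))
    (ideal_summable (K := K) s hs)
  rcases Nat.eq_zero_or_pos (Ideal.absNorm a) with h0 | h0
  · rw [h0, Nat.cast_zero, Real.zero_rpow (by linarith), Real.zero_rpow (by linarith)]
  · have h1 : (1 : ℝ) ≤ (Ideal.absNorm a : ℝ) := by exact_mod_cast h0
    exact Real.rpow_le_rpow_of_exponent_le h1 (by linarith)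

open Filter Topology in
theorem RD3_bd (K : Type) [Field K] [NumberField K] : ∃ A B : ℝ, 0 < A ∧
    ∀ s ∈ Set.Ioc (1 : ℝ) 2,
      A ≤ (s - 1) * ∑' a : Ideal (𝓞 K), (Ideal.absNorm a : ℝ) ^ (-s) ∧
      (s - 1) * ∑' a : Ideal (𝓞 K), (Ideal.absNorm a : ℝ) ^ (-s) ≤ B := by
  have hκ := dedekindZeta_residue_pos K
  set κ := dedekindZeta_residue K with hk
  have h1 : Tendsto (fun s : ℝ => (s - 1) * ∑' a : Ideal (𝓞 K), (Ideal.absNorm a : ℝ) ^ (-s))
      (𝓝[>] 1) (𝓝 κ) := by
    have h2 := (Complex.continuous_re.tendsto _).comp (tendsto_sub_one_mul_dedekindZeta_nhdsGT K)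
    rw [Complex.ofReal_re] at h2
    refine h2.congr' ?_
    filter_upwards [self_mem_nhdsWithin] with s hs
    show ((s - 1 : ℂ) * dedekindZeta K s).re = _
    rw [RD3_zeta s hs]
    rw [show ((s : ℂ) - 1) = ((s - 1 : ℝ) : ℂ) by push_cast; rfl, ← Complex.ofReal_mul,
      Complex.ofReal_re]
  have h3 : ∀ᶠ s in 𝓝[>] (1 : ℝ),
      (s - 1) * ∑' a : Ideal (𝓞 K), (Ideal.absNorm a : ℝ) ^ (-s) ∈ Set.Icc (κ / 2) (2 * κ) :=
    h1 (Icc_mem_nhds (by linarith) (by linarith))
  obtain ⟨u, hu, hu2⟩ := (mem_nhdsGT_iff_exists_Ioo_subset).1 h3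
  have hu1 : (1 : ℝ) < u := hu
  obtain ⟨d, hd⟩ : ∃ d, d = min ((u - 1) / 2) 1 := ⟨_, rfl⟩
  have hd0 : 0 < d := by rw [hd]; exact lt_min (by linarith) one_pos
  have hdu : d < u - 1 := by rw [hd]; exact (min_le_left _ _).trans_lt (by linarith)
  refine ⟨min (κ / 2) d, max (2 * κ)
    (∑' a : Ideal (𝓞 K), (Ideal.absNorm a : ℝ) ^ (-(1 + d))), lt_min (by linarith) hd0,
    fun s hs => ?_⟩
  have hs1 : 1 < s := hs.1
  have hs2 : s ≤ 2 := hs.2
  by_cases hsd : s < 1 + d
  · have h4 : s ∈ Set.Ioo 1 u := ⟨hs1, by linarith⟩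
    have h5 := hu2 h4
    exact ⟨(min_le_left _ _).trans h5.1, h5.2.trans (le_max_left _ _)⟩
  · push Not at hsd
    have h6 := RD3_one (K := K) s hs1
    have h7 := RD3_anti (K := K) (s := 1 + d) (t := s) (by linarith) hsd
    constructor
    · refine (min_le_right _ _).trans ?_
      nlinarith
    · refine le_trans ?_ (le_max_right _ _)
      nlinarith

/-- Chunk RD3 (M), the pole of the zeta function. Z s = sum over the ideals of Na^(-s) (the zero ideal contributes 0). For s > 1, Z s (as a complex number) is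
dedekindZeta K s, the L-series of the numbers of ideals of norm n (sum over the fibres of the norm; see the proof of ideal_summable in H55N/H3.lean, or AI_LSeries
in H55N/H6.lean for the pattern), and (s - 1) * dedekindZeta K s tends to the residue, which is positive (NumberField.tendsto_sub_one_mul_dedekindZeta_nhdsGT,
NumberField.dedekindZeta_residue_pos). Z is antitone on s > 1 (each term is, Na >= 1 or Na = 0; Summable.tsum_le_tsum) and Z s >= 1 (the term of the unit ideal). Near 1: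
there is d in (0,1) with residue/2 <= (s-1) Z s <= 2 residue for s in (1, 1 + d); for s in [1 + d, 2]: d * 1 <= (s - 1) Z s <= Z (1 + d). So
(s - 1) Z s lies in a fixed interval [A, B], 0 < A, and log Z s - log (1/(s-1)) = log ((s - 1) Z s) lies in [log A, log B]. -/
theorem zeta_log (K : Type) [Field K] [NumberField K] : ∃ C : ℝ, ∀ s ∈ Set.Ioc (1 : ℝ) 2,
    0 < ∑' a : Ideal (𝓞 K), (Ideal.absNorm a : ℝ) ^ (-s) ∧
    |Real.log (∑' a : Ideal (𝓞 K), (Ideal.absNorm a : ℝ) ^ (-s)) - Real.log (1 / (s - 1))| ≤ C := by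
  obtain ⟨A, B, hA, hAB⟩ := RD3_bd K
  refine ⟨|Real.log A| + |Real.log B|, fun s hs => ?_⟩
  have h1 := RD3_one (K := K) s hs.1
  have hs1 : 0 < s - 1 := sub_pos.2 hs.1
  refine ⟨by linarith, ?_⟩
  obtain ⟨h2, h3⟩ := hAB s hs
  rw [one_div, Real.log_inv, sub_neg_eq_add, add_comm, ← Real.log_mul hs1.ne' (by linarith)]
  have h4 := Real.log_le_log hA h2
  have h5 := Real.log_le_log (hA.trans_le h2) h3
  rw [abs_le]
  constructor
  · linarith [neg_abs_le (Real.log A), abs_nonneg (Real.log B)]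
  · linarith [le_abs_self (Real.log B), abs_nonneg (Real.log A)]

/-- The pole of the zeta function. -/
theorem zeta_pole (K : Type) [Field K] [NumberField K] : ∃ B : ℝ, ∀ s ∈ Set.Ioc (1 : ℝ) 2,
    (s - 1) * ∑' a : Ideal (𝓞 K), (Ideal.absNorm a : ℝ) ^ (-s) ≤ B := by
  obtain ⟨A, B, hA, hAB⟩ := RD3_bd K
  exact ⟨B, fun s hs => (hAB s hs).2⟩

end CFTZ
end

-- from Lib.CFT.YDefs
section

/-! # CFT, module Y: L-series of Hecke characters beyond the abscissa of convergence (definitions)

`dg K`: the degree. `house x`: the largest absolute value of a conjugate (Mathlib). `nm x`: the absolute value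
of the norm. `Cl δ x y`: `y` is close to `x` in every embedding, with relative error `δ`. `LL G`: `G` is
Lipschitz for this relation. `Bd G`: `G` is bounded. `Rg A x`: `x ≠ 0` and the absolute values of all conjugates of
`x` are comparable. `TP x`: `x ≠ 0` is positive at all real embeddings. `RU m`: the totally positive units
`≡ 1` modulo `m`. `Fs g s x = g x * nm x ^ (-s)`. `HCh m ψ χ`: `χ` is a (unitary) Hecke character modulo `m` with
values `ψ x` at the principal ideals `(x)`, `x ≡ 1` modulo `m` totally positive. `Lc χ s`: its L-series. -/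

open NumberField

namespace CFTY

variable {K : Type} [Field K] [NumberField K]

variable (K) in
/-- the degree of K -/
noncomputable def dg : ℕ := Module.finrank ℚ K

/-- the absolute value of the norm -/
noncomputable def nm (x : K) : ℝ := |((Algebra.norm ℚ x : ℚ) : ℝ)|

/-- relative closeness in all embeddings -/
def Cl (δ : ℝ) (x y : K) : Prop := ∀ σ : K →+* ℂ, ‖σ y - σ x‖ ≤ δ * ‖σ x‖

/-- Lipschitz with respect to relative closeness -/
def LL (G : K → ℂ) : Prop := ∃ L : ℝ, 0 ≤ L ∧ ∀ (δ : ℝ) (x y : K), 0 ≤ δ → δ ≤ 1 / 2 → x ≠ 0 →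
  Cl δ x y → ‖G y - G x‖ ≤ L * δ

/-- bounded -/
def Bd (G : K → ℂ) : Prop := ∃ B : ℝ, 0 ≤ B ∧ ∀ x, ‖G x‖ ≤ B

/-- the region where all conjugates are comparable -/
def Rg (A : ℝ) (x : K) : Prop := x ≠ 0 ∧ house x ^ dg K ≤ A * nm x

/-- nonzero and totally positive -/
def TP (x : K) : Prop := x ≠ 0 ∧ ∀ φ : K →+* ℝ, 0 < φ x

theorem TP.mul {x y : K} (hx : TP x) (hy : TP y) : TP (x * y) :=
  ⟨mul_ne_zero hx.1 hy.1, fun φ => by rw [map_mul]; exact mul_pos (hx.2 φ) (hy.2 φ)⟩

theorem TP.inv {x : K} (hx : TP x) : TP x⁻¹ :=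
  ⟨inv_ne_zero hx.1, fun φ => by rw [map_inv₀]; exact inv_pos.2 (hx.2 φ)⟩

theorem TP_one : TP (1 : K) := ⟨one_ne_zero, fun φ => by rw [map_one]; exact one_pos⟩

/-- the totally positive units which are 1 modulo m -/
def RU (m : Ideal (𝓞 K)) : Subgroup (𝓞 K)ˣ where
  carrier := {u | (u : 𝓞 K) - 1 ∈ m ∧ TP ((u : 𝓞 K) : K)}
  mul_mem' := by
    rintro u v ⟨h1, h2⟩ ⟨h3, h4⟩
    refine ⟨?_, ?_⟩
    · have e : ((u * v : (𝓞 K)ˣ) : 𝓞 K) - 1 = ((u : 𝓞 K) - 1) * v + ((v : 𝓞 K) - 1) := by
        rw [Units.val_mul]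
        ring
      rw [e]
      exact m.add_mem (m.mul_mem_right _ h1) h3
    · have e : (((u * v : (𝓞 K)ˣ) : 𝓞 K) : K) = ((u : 𝓞 K) : K) * ((v : 𝓞 K) : K) := rfl
      rw [e]
      exact h2.mul h4
  one_mem' := by
    refine ⟨?_, ?_⟩
    · rw [Units.val_one, sub_self]
      exact m.zero_mem
    · exact TP_one
  inv_mem' := by
    rintro u ⟨h1, h2⟩
    refine ⟨?_, ?_⟩
    · have e : ((u⁻¹ : (𝓞 K)ˣ) : 𝓞 K) - 1 = -(((u : 𝓞 K) - 1) * ((u⁻¹ : (𝓞 K)ˣ) : 𝓞 K)) := by
        have h : (u : 𝓞 K) * ((u⁻¹ : (𝓞 K)ˣ) : 𝓞 K) = 1 := Units.mul_inv u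
        linear_combination h
      rw [e]
      exact m.neg_mem (m.mul_mem_right _ h1)
    · have h : ((u : 𝓞 K) : K) * (((u⁻¹ : (𝓞 K)ˣ) : 𝓞 K) : K) = 1 :=
        congrArg (algebraMap (𝓞 K) K) (Units.mul_inv u)
      have e : (((u⁻¹ : (𝓞 K)ˣ) : 𝓞 K) : K) = ((u : 𝓞 K) : K)⁻¹ := (inv_eq_of_mul_eq_one_right h).symm
      rw [e]
      exact h2.inv

theorem mem_RU {m : Ideal (𝓞 K)} {u : (𝓞 K)ˣ} : u ∈ RU m ↔ (u : 𝓞 K) - 1 ∈ m ∧ TP ((u : 𝓞 K) : K) := Iff.rfl

/-- the function which is summed over the lattice -/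
noncomputable def Fs (g : K → ℂ) (s : ℂ) (x : K) : ℂ := g x * (nm x : ℂ) ^ (-s)

/-- the principal ideals (x), x = 1 mod m totally positive -/
def PrI (m a : Ideal (𝓞 K)) : Prop := ∃ x : 𝓞 K, x - 1 ∈ m ∧ TP (x : K) ∧ a = Ideal.span {x}

/-- unitary Hecke characters modulo m with infinity type ψ -/
structure HCh (m : Ideal (𝓞 K)) (ψ : K → ℂ) (χ : Ideal (𝓞 K) →*₀ ℂ) : Prop where
  zero : ∀ a, ¬ IsCoprime a m → χ a = 0
  norm : ∀ a, a ≠ ⊥ → IsCoprime a m → ‖χ a‖ = 1
  ray : ∀ x : 𝓞 K, x - 1 ∈ m → TP (x : K) → χ (Ideal.span {x}) = ψ x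

/-- the L-series -/
noncomputable def Lc (χ : Ideal (𝓞 K) →*₀ ℂ) (s : ℂ) : ℂ := ∑' a, CFTZ.tm χ s a

/-- a system of representatives of the ray classes: every ideal prime to m becomes PrI after multiplication with
exactly one member of T -/
def Reps (m : Ideal (𝓞 K)) (T : Finset (Ideal (𝓞 K))) : Prop :=
  (∀ c ∈ T, c ≠ ⊥ ∧ IsCoprime c m) ∧
    ∀ a : Ideal (𝓞 K), a ≠ ⊥ → IsCoprime a m → ∃! c, c ∈ T ∧ PrI m (a * c)

variable (K) in
/-- the half plane of analyticity -/
def HP : Set ℂ := {s | 1 - 1 / (dg K : ℝ) < s.re}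

/-- the infinity types -/
noncomputable def typ (n : (K →+* ℂ) → ℤ) (x : K) : ℂ := ∏ σ : K →+* ℂ, (σ x / (‖σ x‖ : ℂ)) ^ n σ

open Classical in
/-- the cut-off function -/
noncomputable def ph (C : ℝ) (x : K) : ℝ := if x = 0 then 0 else max 0 (2 * C - house x ^ dg K / nm x)

/-- the sum of the cut-off function over a group of units -/
noncomputable def Wt (C : ℝ) (E : Subgroup (𝓞 K)ˣ) (x : K) : ℝ :=
  ∑' u : E, ph C (((u : (𝓞 K)ˣ) : 𝓞 K) * x)

end CFTY
end

-- from Lib.CFT.Y01
section

/-! # CFT module Y, chunk Y01: norm and house -/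

open NumberField

namespace CFTY

variable {K : Type} [Field K] [NumberField K]

/-- PROOF. `Algebra.norm_eq_prod_embeddings` (over `K →ₐ[ℚ] ℂ`; `RingHom.equivRatAlgHom`), `norm_prod`. -/
theorem nm_eq (x : K) : nm x = ∏ σ : K →+* ℂ, ‖σ x‖ := by
  classical
  unfold nm
  have h := congr_arg (‖·‖) (Algebra.norm_eq_prod_embeddings ℚ ℂ x)
  rw [norm_prod, ← Fintype.prod_equiv (RingHom.equivRatAlgHom K ℂ) (fun f => ‖f x‖)
      (fun φ => ‖φ x‖) fun _ => by simp [RingHom.equivRatAlgHom_apply]] at h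
  rw [← h, eq_ratCast, Complex.norm_ratCast]

theorem nm_mul (x y : K) : nm (x * y) = nm x * nm y := by
  unfold nm
  rw [map_mul, Rat.cast_mul, abs_mul]

theorem nm_nonneg (x : K) : 0 ≤ nm x := abs_nonneg _

theorem nm_pos {x : K} (hx : x ≠ 0) : 0 < nm x := by
  unfold nm
  rw [abs_pos]
  exact_mod_cast Algebra.norm_ne_zero_iff.2 hx


/-- Mathlib: `NumberField.norm_norm_le_norm_mul_house_pow`. -/
theorem nm_le (x : K) (σ : K →+* ℂ) : nm x ≤ ‖σ x‖ * house x ^ (dg K - 1) := by
  have h := NumberField.norm_norm_le_norm_mul_house_pow x σ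
  rw [← Rat.norm_cast_real, Real.norm_eq_abs] at h
  exact h

theorem y01_dg_pos : 1 ≤ dg K := by
  unfold dg
  exact Module.finrank_pos

/-- From `nm_le` and `norm_embedding_le_house` (`1 ≤ dg K`). -/
theorem nm_le_house (x : K) : nm x ≤ house x ^ dg K := by
  obtain ⟨σ⟩ : Nonempty (K →+* ℂ) := inferInstance
  have h1 := nm_le x σ
  have h2 := NumberField.norm_embedding_le_house x σ
  have h3 : (1 : ℕ) ≤ dg K := y01_dg_pos
  calc nm x ≤ ‖σ x‖ * house x ^ (dg K - 1) := h1
    _ ≤ house x * house x ^ (dg K - 1) :=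
        mul_le_mul_of_nonneg_right h2 (pow_nonneg (NumberField.house_nonneg x) _)
    _ = house x ^ dg K := by
        rw [← pow_succ', Nat.sub_add_cancel h3]

/-- The norm of a unit is 1 or -1 (`NumberField.isUnit_iff_norm`). -/
theorem nm_unit (u : (𝓞 K)ˣ) : nm (((u : (𝓞 K)ˣ) : 𝓞 K) : K) = 1 := by
  have h := NumberField.isUnit_iff_norm.1 u.isUnit
  unfold nm
  rw [RingOfIntegers.coe_norm] at h
  have h2 : |((Algebra.norm ℚ (((u : (𝓞 K)ˣ) : 𝓞 K) : K) : ℚ) : ℝ)| =
      ((|Algebra.norm ℚ (((u : (𝓞 K)ˣ) : 𝓞 K) : K)| : ℚ) : ℝ) := by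
    rw [Rat.cast_abs]
  rw [h2, h, Rat.cast_one]

theorem y01_nm_int (x : 𝓞 K) : nm (x : K) = |((Algebra.norm ℤ x : ℤ) : ℝ)| := by
  unfold nm
  have h : (Algebra.norm ℚ (x : K) : ℚ) = ((Algebra.norm ℤ x : ℤ) : ℚ) :=
    (Algebra.coe_norm_int x).symm
  rw [h, Rat.cast_intCast]

/-- The norm of an algebraic integer is an integer, not 0. -/
theorem one_le_nm {x : 𝓞 K} (hx : x ≠ 0) : 1 ≤ nm (x : K) := by
  rw [y01_nm_int]
  have h := Int.one_le_abs (Algebra.norm_ne_zero_iff.mpr hx : Algebra.norm ℤ x ≠ 0)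
  exact_mod_cast h

/-- `Ideal.absNorm_span_singleton`. -/
theorem absNorm_span (x : 𝓞 K) : ((Ideal.absNorm (Ideal.span {x}) : ℕ) : ℝ) = nm (x : K) := by
  rw [Ideal.absNorm_span_singleton, y01_nm_int, Nat.cast_natAbs, Int.cast_abs]

theorem dg_pos : 1 ≤ dg K := y01_dg_pos

theorem house_pos {x : K} (hx : x ≠ 0) : 0 < house x := by
  obtain ⟨σ⟩ : Nonempty (K →+* ℂ) := inferInstance
  have h1 : 0 < ‖σ x‖ := norm_pos_iff.2 ((map_ne_zero σ).2 hx)
  exact h1.trans_le (NumberField.norm_embedding_le_house x σ)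

end CFTY
end

-- from Lib.CFT.Y02
section

/-! # CFT module Y, chunk Y02: closeness -/

open NumberField

namespace CFTY

variable {K : Type} [Field K] [NumberField K]

theorem cl_lower {δ : ℝ} {x y : K} (h : Cl δ x y) (σ : K →+* ℂ) : (1 - δ) * ‖σ x‖ ≤ ‖σ y‖ := by
  have h1 := h σ
  have h2 : ‖σ x‖ ≤ ‖σ y‖ + ‖σ y - σ x‖ := by
    have := norm_sub_le (σ y) (σ y - σ x)
    rwa [sub_sub_cancel] at this
  linarith

theorem cl_upper {δ : ℝ} {x y : K} (h : Cl δ x y) (σ : K →+* ℂ) : ‖σ y‖ ≤ (1 + δ) * ‖σ x‖ := by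
  have h1 := h σ
  have h2 : ‖σ y‖ ≤ ‖σ y - σ x‖ + ‖σ x‖ := by
    have := norm_add_le (σ y - σ x) (σ x)
    rwa [sub_add_cancel] at this
  linarith

theorem cl_ne {δ : ℝ} {x y : K} (hδ : δ ≤ 1 / 2) (hx : x ≠ 0) (h : Cl δ x y) : y ≠ 0 := by
  obtain ⟨σ⟩ : Nonempty (K →+* ℂ) := inferInstance
  have h1 : 0 < ‖σ x‖ := norm_pos_iff.2 ((map_ne_zero σ).2 hx)
  have h2 := cl_lower h σ
  intro hy
  rw [hy, map_zero, norm_zero] at h2
  have h3 : 0 < (1 - δ) * ‖σ x‖ := mul_pos (by linarith) h1
  linarith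

theorem cl_mul {δ : ℝ} {x y : K} (h : Cl δ x y) (a : K) : Cl δ (a * x) (a * y) := by
  intro σ
  rw [map_mul, map_mul, ← mul_sub, norm_mul, norm_mul]
  calc ‖σ a‖ * ‖σ y - σ x‖ ≤ ‖σ a‖ * (δ * ‖σ x‖) :=
        mul_le_mul_of_nonneg_left (h σ) (norm_nonneg _)
    _ = δ * (‖σ a‖ * ‖σ x‖) := by ring

theorem y02_house_le {x : K} {c : ℝ} (h : ∀ σ : K →+* ℂ, ‖σ x‖ ≤ c) : house x ≤ c := by
  rw [NumberField.house_eq_sup']
  have h1 : ∀ σ : K →+* ℂ, (‖σ x‖₊ : ℝ) ≤ c := h
  have hc : 0 ≤ c := by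
    obtain ⟨σ⟩ : Nonempty (K →+* ℂ) := inferInstance
    exact (norm_nonneg _).trans (h σ)
  have h2 : Finset.univ.sup' Finset.univ_nonempty (fun φ : K →+* ℂ => ‖φ x‖₊) ≤
      (⟨c, hc⟩ : NNReal) := by
    refine Finset.sup'_le _ _ (fun σ _ => ?_)
    exact h σ
  exact h2

/-- `‖σ x‖ ≤ ‖σ y‖ / (1 - δ) ≤ house y / (1 - δ)`. -/
theorem cl_house_lower {δ : ℝ} {x y : K} (hδ : δ ≤ 1 / 2) (h : Cl δ x y) :
    (1 - δ) * house x ≤ house y := by
  have h0 : 0 < 1 - δ := by linarith
  have h1 : house x ≤ house y / (1 - δ) := by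
    refine y02_house_le (fun σ => ?_)
    rw [le_div_iff₀ h0, mul_comm]
    exact (cl_lower h σ).trans (NumberField.norm_embedding_le_house y σ)
  rw [le_div_iff₀ h0] at h1
  linarith

theorem cl_house_upper {δ : ℝ} {x y : K} (h0 : 0 ≤ δ) (h : Cl δ x y) :
    house y ≤ (1 + δ) * house x := by
  refine y02_house_le (fun σ => ?_)
  exact (cl_upper h σ).trans (mul_le_mul_of_nonneg_left (NumberField.norm_embedding_le_house x σ)
    (by linarith))

theorem y02_card : (Finset.univ : Finset (K →+* ℂ)).card = dg K := by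
  rw [Finset.card_univ]
  exact NumberField.Embeddings.card K ℂ

/-- `nm_eq`, `Finset.prod_le_prod`; the number of embeddings is `dg K` (`Embeddings.card`). -/
theorem cl_nm_lower {δ : ℝ} {x y : K} (hδ : δ ≤ 1 / 2) (h : Cl δ x y) :
    (1 - δ) ^ dg K * nm x ≤ nm y := by
  rw [nm_eq, nm_eq, ← y02_card (K := K), ← Finset.prod_const, ← Finset.prod_mul_distrib]
  refine Finset.prod_le_prod (fun σ _ => mul_nonneg (by linarith) (norm_nonneg _))
    (fun σ _ => cl_lower h σ)

theorem cl_nm_upper {δ : ℝ} {x y : K} (h0 : 0 ≤ δ) (h : Cl δ x y) :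
    nm y ≤ (1 + δ) ^ dg K * nm x := by
  rw [nm_eq, nm_eq, ← y02_card (K := K), ← Finset.prod_const, ← Finset.prod_mul_distrib]
  refine Finset.prod_le_prod (fun σ _ => norm_nonneg _)
    (fun σ _ => cl_upper h σ)

/-- PROOF. `house x ^ d ≤ A nm x ≤ A ‖σ x‖ house x ^ (d - 1)` (`nm_le`), divide by `house x ^ (d - 1)`. -/
theorem rg_house {A : ℝ} {x : K} (hA : 0 ≤ A) (h : Rg A x) (σ : K →+* ℂ) : house x ≤ A * ‖σ x‖ := by
  obtain ⟨hx, h1⟩ := h
  have hp := house_pos hx
  have h2 := nm_le x σ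
  have h3 : (1 : ℕ) ≤ dg K := dg_pos
  have h4 : house x * house x ^ (dg K - 1) ≤ (A * ‖σ x‖) * house x ^ (dg K - 1) := by
    calc house x * house x ^ (dg K - 1) = house x ^ dg K := by
          rw [← pow_succ', Nat.sub_add_cancel h3]
      _ ≤ A * nm x := h1
      _ ≤ A * (‖σ x‖ * house x ^ (dg K - 1)) := mul_le_mul_of_nonneg_left h2 hA
      _ = (A * ‖σ x‖) * house x ^ (dg K - 1) := by ring
  exact le_of_mul_le_mul_right h4 (pow_pos hp _)

/-- PROOF. `A > 0` (otherwise `house x ^ d ≤ 0`). `A ‖σ h‖ ≤ A house h ≤ δ house x ≤ δ A ‖σ x‖`. -/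
theorem cl_add {A δ : ℝ} {x h : K} (hA : 0 ≤ A) (hδ : 0 ≤ δ) (hx : Rg A x) (hh : A * house h ≤ δ * house x) :
    Cl δ x (x + h) := by
  intro σ
  have hA0 : 0 < A := by
    rcases hA.lt_or_eq with h0 | h0
    · exact h0
    · exfalso
      have h1 := hx.2
      rw [← h0, zero_mul] at h1
      have h2 := pow_pos (house_pos hx.1) (dg K)
      linarith
  rw [map_add, add_sub_cancel_left]
  have h1 := NumberField.norm_embedding_le_house h σ
  have h2 := rg_house hA hx σ
  have h3 : A * ‖σ h‖ ≤ A * (δ * ‖σ x‖) := by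
    calc A * ‖σ h‖ ≤ A * house h := mul_le_mul_of_nonneg_left h1 hA
      _ ≤ δ * house x := hh
      _ ≤ δ * (A * ‖σ x‖) := mul_le_mul_of_nonneg_left h2 hδ
      _ = A * (δ * ‖σ x‖) := by ring
  exact le_of_mul_le_mul_left h3 hA0

end CFTY
end

-- from Lib.H69H.U2
section

set_option autoImplicit false
set_option linter.unusedSectionVars false

namespace Pool.Agent.H69H

open NumberField IsDedekindDomain CFT

theorem u2_claim {ι : Type*} [Fintype ι] (C : ι → ι → ℝ) (m : ι → ℝ) (hm : ∀ i, 0 < m i)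
    (hoff : ∀ i j, i ≠ j → C i j < 0) (hsum : ∀ j, ∑ i, m i * C i j = 0) (x : ι → ℤ)
    (hx : ∀ i, ∑ j, C i j * x j = 0) (j0 : ι) (hj0 : 0 < x j0) : ∀ j, 0 < x j := by
  classical
  by_contra hcon
  push Not at hcon
  obtain ⟨q0, hq0⟩ := hcon
  let P : Finset ι := Finset.univ.filter fun j => 0 < x j
  let Q : Finset ι := Finset.univ.filter fun j => ¬ 0 < x j
  have hP : j0 ∈ P := Finset.mem_filter.2 ⟨Finset.mem_univ _, hj0⟩
  have hQ : q0 ∈ Q := Finset.mem_filter.2 ⟨Finset.mem_univ _, not_lt.2 hq0⟩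
  have h0 : ∑ j, (x j : ℝ) * ∑ i ∈ Q, m i * C i j = 0 := by
    have h1 : ∑ i ∈ Q, m i * ∑ j, C i j * x j = 0 :=
      Finset.sum_eq_zero fun i _ => by rw [hx i, mul_zero]
    rw [← h1]
    simp_rw [Finset.mul_sum]
    rw [Finset.sum_comm]
    refine Finset.sum_congr rfl fun i _ => Finset.sum_congr rfl fun j _ => by ring
  have hcP : ∀ j ∈ P, ∑ i ∈ Q, m i * C i j < 0 := by
    intro j hj
    refine Finset.sum_neg (fun i hi => ?_) ⟨q0, hQ⟩
    have hij : i ≠ j := by
      rintro rfl
      exact (Finset.mem_filter.1 hi).2 (Finset.mem_filter.1 hj).2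
    exact mul_neg_of_pos_of_neg (hm i) (hoff i j hij)
  have hcQ : ∀ j ∈ Q, 0 < ∑ i ∈ Q, m i * C i j := by
    intro j hj
    have h1 : ∑ i ∈ P, m i * C i j + ∑ i ∈ Q, m i * C i j = 0 := by
      rw [← hsum j]
      exact Finset.sum_filter_add_sum_filter_not _ _ _
    have h2 : ∑ i ∈ P, m i * C i j < 0 := by
      refine Finset.sum_neg (fun i hi => ?_) ⟨j0, hP⟩
      have hij : i ≠ j := by
        rintro rfl
        exact (Finset.mem_filter.1 hj).2 (Finset.mem_filter.1 hi).2
      exact mul_neg_of_pos_of_neg (hm i) (hoff i j hij)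
    linarith
  have hle : ∀ j ∈ (Finset.univ : Finset ι), (x j : ℝ) * ∑ i ∈ Q, m i * C i j ≤ 0 := by
    intro j _
    by_cases hj : 0 < x j
    · have h1 := hcP j (Finset.mem_filter.2 ⟨Finset.mem_univ _, hj⟩)
      have h2 : (0 : ℝ) < x j := by exact_mod_cast hj
      exact (mul_neg_of_pos_of_neg h2 h1).le
    · have h1 := hcQ j (Finset.mem_filter.2 ⟨Finset.mem_univ _, hj⟩)
      have h2 : (x j : ℝ) ≤ 0 := by exact_mod_cast not_lt.1 hj
      exact mul_nonpos_of_nonpos_of_nonneg h2 h1.le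
  have hlt : (x j0 : ℝ) * ∑ i ∈ Q, m i * C i j0 < 0 := by
    have h2 : (0 : ℝ) < x j0 := by exact_mod_cast hj0
    exact mul_neg_of_pos_of_neg h2 (hcP j0 hP)
  have := Finset.sum_lt_sum hle ⟨j0, Finset.mem_univ _, hlt⟩
  rw [h0, Finset.sum_const_zero] at this
  exact lt_irrefl _ this

/-- PROOF. Claim: if some `x j > 0` then all are. Let `P = {j | 0 < x j}`, nonempty, `Q` its complement, suppose `Q` is nonempty. Then
`0 = ∑_{i ∈ Q} m i * ∑_j C i j * x j = ∑_j x j * c j`, `c j = ∑_{i ∈ Q} m i * C i j`. For `j ∈ P`: `c j < 0` (`Q` is nonempty and does not contain `j`).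
For `j ∈ Q`: `c j = - ∑_{i ∈ P} m i * C i j > 0`. So all terms of `∑_j x j * c j` are `≤ 0` and those with `j ∈ P` are `< 0`: contradiction. Apply the
claim to `x` and to `-x`. -/
theorem sign_lemma {ι : Type*} [Fintype ι] (C : ι → ι → ℝ) (m : ι → ℝ) (hm : ∀ i, 0 < m i)
    (hoff : ∀ i j, i ≠ j → C i j < 0) (hsum : ∀ j, ∑ i, m i * C i j = 0) (x : ι → ℤ)
    (hx : ∀ i, ∑ j, C i j * x j = 0) : (∀ j, x j = 0) ∨ (∀ j, 0 < x j) ∨ (∀ j, x j < 0) := by
  classical
  by_cases h1 : ∃ j, 0 < x j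
  · obtain ⟨j0, hj0⟩ := h1
    exact Or.inr (Or.inl (u2_claim C m hm hoff hsum x hx j0 hj0))
  by_cases h2 : ∃ j, x j < 0
  · obtain ⟨j0, hj0⟩ := h2
    refine Or.inr (Or.inr fun j => ?_)
    have := u2_claim C m hm hoff hsum (fun j => -x j) (fun i => by
      have e : ∑ j, C i j * ((-x j : ℤ) : ℝ) = -∑ j, C i j * (x j : ℝ) := by
        rw [← Finset.sum_neg_distrib]
        refine Finset.sum_congr rfl fun j _ => ?_
        push_cast
        ring
      rw [e, hx i, neg_zero]) j0 (by simpa using hj0) j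
    simpa using this
  · push Not at h1 h2
    exact Or.inl fun j => le_antisymm (h1 j) (h2 j)

end Pool.Agent.H69H
end
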