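import Mathlib
import Pool.Agent.Lib.H1M.RC.M008

/-! Merged copies (to shorten the build) of Lib.CFT.Y05, Lib.CFT.Y07, Lib.CFT.Y09, Lib.CFT.Y13, Lib.CFT.Y06, Lib.CFT.Y21, Lib.H55R.BF2, Lib.CFT.ZB, Lib.CFT.Y14, Lib.CFT.Y15, Lib.CFT.Y15B. -/

-- from Lib.CFT.Y05
section

/-! # CFT module Y, chunk Y05: the cut-off function -/

open NumberField

namespace CFTY

variable {K : Type} [Field K] [NumberField K]

/-- PROOF. Induction on `d` for the stronger bound `(1 + 4 δ) ^ d ≤ 1 + 2 δ (3 ^ d - 1)`; in the step the difference of the two sides is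
at least `4 δ (3 ^ d - 1) (1 - 2 δ) ≥ 0`. -/
theorem y05_pow (d : ℕ) {δ : ℝ} (h0 : 0 ≤ δ) (h1 : δ ≤ 1 / 2) : (1 + 4 * δ) ^ d ≤ 1 + 2 * δ * 3 ^ d := by
  suffices h : (1 + 4 * δ) ^ d ≤ 1 + 2 * δ * (3 ^ d - 1) by linarith
  induction d with
  | zero => simp
  | succ d ih =>
    have h3 : (1 : ℝ) ≤ 3 ^ d := one_le_pow₀ (by norm_num)
    have h4 : 0 ≤ 1 + 4 * δ := by linarith
    have h5 : 0 ≤ 4 * δ * (3 ^ d - 1) * (1 - 2 * δ) :=
      mul_nonneg (mul_nonneg (by linarith) (by linarith)) (by linarith)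
    calc (1 + 4 * δ) ^ (d + 1) = (1 + 4 * δ) ^ d * (1 + 4 * δ) := pow_succ _ _
      _ ≤ (1 + 2 * δ * (3 ^ d - 1)) * (1 + 4 * δ) := by gcongr
      _ ≤ 1 + 2 * δ * (3 ^ (d + 1) - 1) := by
          rw [pow_succ]
          nlinarith

/-- `r x = house x ^ d / nm x`. PROOF. `house y ≤ (1 + δ) house x`, `nm y ≥ (1 - δ)^d nm x`, `(1 + δ)/(1 - δ) ≤ 1 + 4 δ`. -/
theorem y05_upper {δ : ℝ} {x y : K} (h0 : 0 ≤ δ) (h1 : δ ≤ 1 / 2) (hx : x ≠ 0) (h : Cl δ x y) :
    house y ^ dg K / nm y ≤ (1 + 2 * δ * 3 ^ dg K) * (house x ^ dg K / nm x) := by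
  have hy : y ≠ 0 := cl_ne h1 hx h
  have hnx := nm_pos hx
  have hny := nm_pos hy
  have hh := cl_house_upper h0 h
  have hn := cl_nm_lower h1 h
  have hd : 0 < 1 - δ := by linarith
  have hhx : 0 < house x := house_pos hx
  have hhy : 0 < house y := house_pos hy
  have hq : (1 + δ) / (1 - δ) ≤ 1 + 4 * δ := by
    rw [div_le_iff₀ hd]
    nlinarith [mul_nonneg h0 (show (0 : ℝ) ≤ 1 - 2 * δ by linarith)]
  calc house y ^ dg K / nm y ≤ ((1 + δ) * house x) ^ dg K / ((1 - δ) ^ dg K * nm x) := by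
        gcongr
    _ = ((1 + δ) / (1 - δ)) ^ dg K * (house x ^ dg K / nm x) := by
        rw [mul_pow, div_pow]
        field_simp
    _ ≤ (1 + 4 * δ) ^ dg K * (house x ^ dg K / nm x) := by
        gcongr
    _ ≤ _ := by
        gcongr
        exact y05_pow _ h0 h1

theorem y05_lower {δ : ℝ} {x y : K} (h0 : 0 ≤ δ) (h1 : δ ≤ 1 / 2) (hx : x ≠ 0) (h : Cl δ x y) :
    house x ^ dg K / nm x ≤ (1 + 2 * δ * 3 ^ dg K) * (house y ^ dg K / nm y) := by
  have hy : y ≠ 0 := cl_ne h1 hx h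
  have hnx := nm_pos hx
  have hny := nm_pos hy
  have hh := cl_house_lower h1 h
  have hn := cl_nm_upper h0 h
  have hd : 0 < 1 - δ := by linarith
  have hhx : 0 < house x := house_pos hx
  have hhy : 0 < house y := house_pos hy
  have hq : (1 + δ) / (1 - δ) ≤ 1 + 4 * δ := by
    rw [div_le_iff₀ hd]
    nlinarith [mul_nonneg h0 (show (0 : ℝ) ≤ 1 - 2 * δ by linarith)]
  have hh' : house x ≤ house y / (1 - δ) := by
    rw [le_div_iff₀ hd]
    linarith
  have hn' : nm y / (1 + δ) ^ dg K ≤ nm x := by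
    rw [div_le_iff₀ (by positivity)]
    linarith
  calc house x ^ dg K / nm x ≤ (house y / (1 - δ)) ^ dg K / (nm y / (1 + δ) ^ dg K) := by
        gcongr
    _ = ((1 + δ) / (1 - δ)) ^ dg K * (house y ^ dg K / nm y) := by
        rw [div_pow, div_pow]
        field_simp
    _ ≤ (1 + 4 * δ) ^ dg K * (house y ^ dg K / nm y) := by
        gcongr
    _ ≤ _ := by
        gcongr
        exact y05_pow _ h0 h1

/-- PROOF. If both quotients are `≥ 2 C` both values are 0. Otherwise the smaller of the two quotients is `≤ 2 C`, and their difference is at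
most `2 δ 3^d 2 C` by `y05_upper` / `y05_lower`; `t ↦ max 0 (2 C - t)` is 1-Lipschitz. `L = 4 C 3^d`. -/
theorem ph_LL (C : ℝ) (hC : 0 < C) : ∃ L : ℝ, 0 ≤ L ∧ ∀ (δ : ℝ) (x y : K), 0 ≤ δ → δ ≤ 1 / 2 → x ≠ 0 →
    Cl δ x y → |ph C y - ph C x| ≤ L * δ := by
  refine ⟨4 * C * 3 ^ dg K, by positivity, fun δ x y h0 h1 hx h => ?_⟩
  have hy : y ≠ 0 := cl_ne h1 hx h
  have u := y05_upper h0 h1 hx h
  have l := y05_lower h0 h1 hx h
  have hax : 0 ≤ house x ^ dg K / nm x := by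
    have := nm_pos hx
    have := house_pos hx
    positivity
  have hay : 0 ≤ house y ^ dg K / nm y := by
    have := nm_pos hy
    have := house_pos hy
    positivity
  unfold ph
  rw [if_neg hx, if_neg hy]
  set a := house x ^ dg K / nm x with ha
  set b := house y ^ dg K / nm y with hb
  set t : ℝ := 3 ^ dg K with ht
  have ht0 : 0 < t := by positivity
  have hδt : 0 ≤ 2 * δ * t := by positivity
  rcases le_total (2 * C) a with h2 | h2
  · rcases le_total (2 * C) b with h3 | h3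
    · rw [max_eq_left (by linarith), max_eq_left (by linarith), sub_self, abs_zero]
      positivity
    · rw [max_eq_left (b := 2 * C - a) (by linarith), max_eq_right (by linarith), sub_zero,
        abs_of_nonneg (by linarith)]
      have : 2 * δ * t * b ≤ 2 * δ * t * (2 * C) := by gcongr
      nlinarith
  · have hm : |max 0 (2 * C - b) - max 0 (2 * C - a)| ≤ |(2 * C - b) - (2 * C - a)| := by
      rw [max_comm 0 (2 * C - b), max_comm 0 (2 * C - a)]
      exact abs_max_sub_max_le_abs _ _ _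
    refine hm.trans ?_
    rw [abs_le]
    have h4 : 2 * δ * t * a ≤ 2 * δ * t * (2 * C) := by gcongr
    rcases le_total b a with h5 | h5
    · have h6 : 2 * δ * t * b ≤ 2 * δ * t * (2 * C) := by
        have := h5.trans h2
        gcongr
      constructor
      · nlinarith
      · nlinarith
    · constructor
      · nlinarith
      · have : 0 ≤ 4 * C * t * δ := by positivity
        linarith

theorem ph_nonneg (C : ℝ) (x : K) : 0 ≤ ph C x := by
  unfold ph
  split_ifs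
  · exact le_rfl
  · exact le_max_left _ _

theorem ph_le (C : ℝ) (hC : 0 ≤ C) (x : K) : ph C x ≤ 2 * C := by
  unfold ph
  split_ifs with h
  · linarith
  · have hx := nm_pos h
    have hh := house_pos h
    have : 0 ≤ house x ^ dg K / nm x := by positivity
    exact max_le (by linarith) (by linarith)

theorem ph_rg {C : ℝ} {x : K} (h : ph C x ≠ 0) : Rg (2 * C) x := by
  unfold ph at h
  split_ifs at h with hx
  · exact absurd rfl h
  · have hn := nm_pos hx
    refine ⟨hx, ?_⟩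
    by_contra hcon
    push Not at hcon
    apply h
    refine max_eq_left ?_
    have : 2 * C ≤ house x ^ dg K / nm x := by
      rw [le_div_iff₀ hn]
      exact hcon.le
    linarith

theorem ph_ge {C : ℝ} {x : K} (h : Rg C x) : C ≤ ph C x := by
  have hn := nm_pos h.1
  unfold ph
  rw [if_neg h.1]
  refine le_max_of_le_right ?_
  have : house x ^ dg K / nm x ≤ C := by
    rw [div_le_iff₀ hn]
    exact h.2
  linarith

end CFTY
end

-- from Lib.CFT.Y07
section

/-! # CFT module Y, chunk Y07: elements of bounded norm modulo the ray units -/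

open NumberField

namespace CFTY

variable {K : Type} [Field K] [NumberField K]

/-- PROOF. We may assume `B ≥ 0`. Let `q = (⌊B⌋₊)!` (a natural number `≥ 1`); every `a ≠ 0` with `nm a ≤ B` divides `q` in `𝓞 K`
(`a` divides its norm: `(Ideal.absNorm (span {a}) : 𝓞 K) ∈ span {a}` is `Ideal.absNorm_mem`; and the norm divides `q`).
Consider the map `κ a = (Ideal.span {a}, a mod (q m), signs of φ a for φ : K →+* ℝ)`. Its range on `{a ≠ 0, nm a ≤ B}` is finite
(`Ideal.finite_setOfPred_absNorm_le` or similar; `𝓞 K ⧸ (q m)` finite; finitely many real embeddings, each gives an embedding to ℂ).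
If `κ a = κ r` then `a = u r` with a unit `u`; `a - r ∈ span {q} * m ≤ span {r} * m`, so `(u - 1) r = r t` with `t ∈ m`, `u - 1 ∈ m`;
equal signs: `φ u > 0`. `R`: one element for every value of `κ` (`Set.Finite`, e.g. `Set.Finite.exists_finset..`/ `Finite.exists..`, choose a section). -/
theorem fin_cls (m : Ideal (𝓞 K)) (hm : m ≠ ⊥) (B : ℝ) : ∃ R : Finset (𝓞 K), (∀ r ∈ R, r ≠ 0) ∧
    ∀ a : 𝓞 K, a ≠ 0 → nm (a : K) ≤ B → ∃ r ∈ R, ∃ u ∈ RU m, a = ((u : (𝓞 K)ˣ) : 𝓞 K) * r := by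
  classical
  set q : ℕ := (⌊B⌋₊).factorial with hq
  have hq0 : (q : 𝓞 K) ≠ 0 := by
    rw [Nat.cast_ne_zero]
    exact Nat.factorial_ne_zero _
  set I : Ideal (𝓞 K) := Ideal.span {(q : 𝓞 K)} * m with hI
  have hI0 : I ≠ ⊥ := by
    rw [hI]
    refine mul_ne_zero ?_ hm
    rw [Ne, Ideal.zero_eq_bot, Ideal.span_singleton_eq_bot]
    exact hq0
  have hfq : Finite (𝓞 K ⧸ I) := Ideal.finiteQuotientOfFreeOfNeBot I hI0
  have hfe : Finite (K →+* ℝ) := by
    refine Finite.of_injective (fun φ : K →+* ℝ => (Complex.ofRealHom.comp φ : K →+* ℂ)) ?_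
    intro φ ψ h
    ext x
    have h1 := congrArg (fun f : K →+* ℂ => f x) h
    exact Complex.ofReal_injective h1
  set S : Set (𝓞 K) := {a | a ≠ 0 ∧ nm (a : K) ≤ B} with hS
  set κ : 𝓞 K → (Ideal (𝓞 K) × (𝓞 K ⧸ I)) × ((K →+* ℝ) → Prop) :=
    fun a => ((Ideal.span {a}, Ideal.Quotient.mk I a), fun φ => 0 < φ (a : K)) with hκ
  have hfin : (κ '' S).Finite := by
    have h1 : {J : Ideal (𝓞 K) | Ideal.absNorm J ≤ ⌊B⌋₊}.Finite := Ideal.finite_setOfPred_absNorm_le _
    refine Set.Finite.subset ((h1.prod (Set.finite_univ (α := 𝓞 K ⧸ I))).prod (Set.finite_univ (α := (K →+* ℝ) → Prop))) ?_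
    rintro _ ⟨a, ha, rfl⟩
    refine ⟨⟨?_, Set.mem_univ _⟩, Set.mem_univ _⟩
    show Ideal.absNorm (Ideal.span {a}) ≤ ⌊B⌋₊
    apply Nat.le_floor
    rw [absNorm_span]
    exact ha.2
  obtain ⟨R, hRS, hbij⟩ := Set.exists_subset_bijOn S κ
  have hRfin : R.Finite := by
    refine Set.Finite.of_finite_image ?_ hbij.injOn
    rw [hbij.image_eq]
    exact hfin
  refine ⟨hRfin.toFinset, fun r hr => (hRS (hRfin.mem_toFinset.1 hr)).1, ?_⟩
  intro a ha haB
  obtain ⟨r, hr, hκr⟩ := hbij.surjOn (Set.mem_image_of_mem κ (show a ∈ S from ⟨ha, haB⟩))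
  refine ⟨r, hRfin.mem_toFinset.2 hr, ?_⟩
  obtain ⟨hr0, hrB⟩ := hRS hr
  have e1 : Ideal.span {r} = Ideal.span {a} := (Prod.ext_iff.1 (Prod.ext_iff.1 hκr).1).1
  have e2 : Ideal.Quotient.mk I r = Ideal.Quotient.mk I a := (Prod.ext_iff.1 (Prod.ext_iff.1 hκr).1).2
  have e3 : (fun φ : K →+* ℝ => 0 < φ (r : K)) = fun φ : K →+* ℝ => 0 < φ (a : K) := (Prod.ext_iff.1 hκr).2
  obtain ⟨u, hu⟩ := Ideal.span_singleton_eq_span_singleton.1 e1
  have hua : a = (u : 𝓞 K) * r := by rw [← hu, mul_comm]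
  have hrq : r ∣ (q : 𝓞 K) := by
    have h1 : ((Ideal.absNorm (Ideal.span {r}) : ℕ) : 𝓞 K) ∈ Ideal.span {r} := Ideal.absNorm_mem _
    rw [Ideal.mem_span_singleton] at h1
    refine h1.trans ?_
    apply Nat.cast_dvd_cast
    rw [hq]
    refine Nat.dvd_factorial ?_ ?_
    · rw [Nat.pos_iff_ne_zero, Ne, Ideal.absNorm_eq_zero_iff, Ideal.span_singleton_eq_bot]
      exact hr0
    · apply Nat.le_floor
      rw [absNorm_span]
      exact hrB
  have hu1 : (u : 𝓞 K) - 1 ∈ m := by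
    have h1 : r - a ∈ I := Ideal.Quotient.eq.1 e2
    have h2 : a - r ∈ Ideal.span {(q : 𝓞 K)} * m := by
      rw [← neg_sub]
      exact I.neg_mem h1
    have h3 : a - r ∈ Ideal.span {r} * m := by
      refine Ideal.mul_mono_left ?_ h2
      rw [Ideal.span_singleton_le_span_singleton]
      exact hrq
    obtain ⟨t, ht, ht'⟩ := Ideal.mem_span_singleton_mul.1 h3
    have h4 : r * ((u : 𝓞 K) - 1) = r * t := by
      rw [ht', hua]
      ring
    rw [mul_left_cancel₀ hr0 h4]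
    exact ht
  refine ⟨u, mem_RU.2 ⟨hu1, ?_, ?_⟩, hua⟩
  · exact RingOfIntegers.coe_ne_zero_iff.2 (Units.ne_zero u)
  · intro φ
    have h1 : (0 < φ (r : K)) = (0 < φ (a : K)) := congrFun e3 φ
    have h2 : φ (a : K) = φ ((u : 𝓞 K) : K) * φ (r : K) := by
      have h9 : ((((u : 𝓞 K) * r : 𝓞 K)) : K) = ((u : 𝓞 K) : K) * (r : K) := map_mul (algebraMap (𝓞 K) K) _ _
      rw [hua, h9, map_mul]
    have h3 : φ ((u : 𝓞 K) : K) ≠ 0 := by
      rw [Ne, map_eq_zero]
      exact RingOfIntegers.coe_ne_zero_iff.2 (Units.ne_zero u)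
    have h4 : φ (r : K) ≠ 0 := by
      rw [Ne, map_eq_zero]
      exact RingOfIntegers.coe_ne_zero_iff.2 hr0
    rcases lt_or_gt_of_ne h4 with h5 | h5
    · have h6 : ¬ 0 < φ (a : K) := by
        rw [← h1]
        exact not_lt.2 h5.le
      rw [h2] at h6
      by_contra h7
      have h8 : φ ((u : 𝓞 K) : K) < 0 := lt_of_le_of_ne (not_lt.1 h7) h3
      exact h6 (mul_pos_of_neg_of_neg h8 h5)
    · have h6 : 0 < φ (a : K) := by
        rw [← h1]
        exact h5
      rw [h2] at h6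
      by_contra h7
      have h8 := mul_nonpos_of_nonpos_of_nonneg (not_lt.1 h7) h5.le
      linarith


end CFTY
end

-- from Lib.CFT.Y09
section

/-! # CFT module Y, chunk Y09: finitely many units -/

open NumberField

namespace CFTY

variable {K : Type} [Field K] [NumberField K]

/-- PROOF. `NumberField.Embeddings.finite_of_norm_le`, `norm_embedding_le_house`. -/
theorem fin_units (A : ℝ) : {u : (𝓞 K)ˣ | house (((u : (𝓞 K)ˣ) : 𝓞 K) : K) ≤ A}.Finite := by
  have h1 := Embeddings.finite_of_norm_le K ℂ A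
  refine Set.Finite.subset (h1.preimage (f := fun u : (𝓞 K)ˣ => (((u : (𝓞 K)ˣ) : 𝓞 K) : K)) ?_) ?_
  · intro u _ v _ h
    exact Units.ext (RingOfIntegers.ext h)
  · intro u hu
    exact ⟨RingOfIntegers.isIntegral_coe _, fun φ => (norm_embedding_le_house _ φ).trans hu⟩


/-- PROOF. Let `M = max (house x) (house (u x))`. `‖σ u‖ = ‖σ (u x)‖ / ‖σ x‖`, `nm x ≤ ‖σ x‖ house x ^ (d - 1)` (`nm_le`), so
`‖σ u‖ nm x ≤ house (u x) house x ^ (d - 1) ≤ M ^ d ≤ max A B * nm x` (`nm (u x) = nm x`). -/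
theorem house_unit {A B : ℝ} {x : K} (u : (𝓞 K)ˣ) (h1 : Rg A x)
    (h2 : Rg B ((((u : (𝓞 K)ˣ) : 𝓞 K) : K) * x)) : house (((u : (𝓞 K)ˣ) : 𝓞 K) : K) ≤ max A B := by
  have hd : 1 ≤ dg K := dg_pos
  obtain ⟨hx, hA⟩ := h1
  obtain ⟨hux, hB⟩ := h2
  rw [nm_mul, nm_unit, one_mul] at hB
  have hn := nm_pos hx
  set M : ℝ := max (house x) (house ((((u : (𝓞 K)ˣ) : 𝓞 K) : K) * x)) with hM
  have hM0 : 0 ≤ M := (house_nonneg x).trans (le_max_left _ _)
  have hMd : M ^ dg K ≤ max A B * nm x := by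
    rcases le_total (house x) (house ((((u : (𝓞 K)ˣ) : 𝓞 K) : K) * x)) with h | h
    · rw [hM, max_eq_right h]
      exact hB.trans (mul_le_mul_of_nonneg_right (le_max_right _ _) hn.le)
    · rw [hM, max_eq_left h]
      exact hA.trans (mul_le_mul_of_nonneg_right (le_max_left _ _) hn.le)
  have key : ∀ σ : K →+* ℂ, ‖σ (((u : (𝓞 K)ˣ) : 𝓞 K) : K)‖ ≤ max A B := by
    intro σ
    have h3 := nm_le x σ
    have h4 := norm_embedding_le_house ((((u : (𝓞 K)ˣ) : 𝓞 K) : K) * x) σ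
    rw [map_mul, norm_mul] at h4
    have h5 : ‖σ (((u : (𝓞 K)ˣ) : 𝓞 K) : K)‖ * nm x ≤ max A B * nm x := by
      calc ‖σ (((u : (𝓞 K)ˣ) : 𝓞 K) : K)‖ * nm x
          ≤ ‖σ (((u : (𝓞 K)ˣ) : 𝓞 K) : K)‖ * (‖σ x‖ * house x ^ (dg K - 1)) :=
            mul_le_mul_of_nonneg_left h3 (norm_nonneg _)
        _ = (‖σ (((u : (𝓞 K)ˣ) : 𝓞 K) : K)‖ * ‖σ x‖) * house x ^ (dg K - 1) := by ring
        _ ≤ M * M ^ (dg K - 1) := by
            refine mul_le_mul (h4.trans (le_max_right _ _)) (pow_le_pow_left₀ (house_nonneg x) (le_max_left _ _) _)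
              (pow_nonneg (house_nonneg x) _) hM0
        _ = M ^ dg K := by
            rw [← pow_succ']
            congr 1
            omega
        _ ≤ max A B * nm x := hMd
    exact le_of_mul_le_mul_right h5 hn
  unfold house
  rw [pi_norm_le_iff_of_nonempty]
  exact key


end CFTY
end

-- from Lib.CFT.Y13
section

/-! # CFT module Y, chunk Y13: summation over the ring of integers -/

open NumberField

namespace CFTY

variable {K : Type} [Field K] [NumberField K]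

open scoped Classical in
theorem y13_norm_le (x : K) : ‖mixedEmbedding K x‖ ≤ house x := by
  rw [Prod.norm_def]
  refine max_le ?_ ?_
  · refine (pi_norm_le_iff_of_nonneg (house_nonneg x)).2 fun w => ?_
    rw [mixedEmbedding.mixedEmbedding_apply_isReal, InfinitePlace.norm_embedding_of_isReal]
    rw [← InfinitePlace.norm_embedding_eq]
    exact norm_embedding_le_house x _
  · refine (pi_norm_le_iff_of_nonneg (house_nonneg x)).2 fun w => ?_
    rw [mixedEmbedding.mixedEmbedding_apply_isComplex]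
    exact norm_embedding_le_house x _

/-- PROOF. `ZLattice.summable_norm_rpow` for the lattice `L` = image of `𝓞 K` in `(K →+* ℂ) → ℂ` under `canonicalEmbedding K` (discrete:
`canonicalEmbedding.integerLattice.inter_ball_finite`; its `ℤ`-rank is `dg K`: `L` is isomorphic to `𝓞 K`, `RingOfIntegers.rank`), composed with the bijection `𝓞 K ≃ L`:
`∑ house x ^ (-β) < ∞` (`house x = ‖canonicalEmbedding K x‖`), and `(1 + house x) ^ (-β) ≤ house x ^ (-β)` for `x ≠ 0`
(at the one point `x = 0` the value does not matter). -/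
theorem summ_house {β : ℝ} (hβ : (dg K : ℝ) < β) : Summable fun x : 𝓞 K => (1 + house (x : K)) ^ (-β) := by
  classical
  have hinj : Function.Injective (((mixedEmbedding K).comp (algebraMap (𝓞 K) K)).toIntAlgHom.toLinearMap) :=
    (mixedEmbedding_injective K).comp RingOfIntegers.coe_injective
  let e : 𝓞 K ≃ₗ[ℤ] mixedEmbedding.integerLattice K := LinearEquiv.ofInjective _ hinj
  have hr : Module.finrank ℤ (mixedEmbedding.integerLattice K) = dg K := by
    rw [← e.finrank_eq, RingOfIntegers.rank]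
    rfl
  have h := ZLattice.summable_norm_rpow (mixedEmbedding.integerLattice K) (-β) (by rw [hr]; linarith)
  have h2 : Summable fun x : 𝓞 K => ‖e x‖ ^ (-β) := e.toEquiv.summable_iff.2 h
  have h3 : Summable fun x : 𝓞 K => if x = 0 then (1 : ℝ) else 0 := by
    refine summable_of_ne_finset_zero (s := {0}) fun x hx => ?_
    rw [if_neg]
    rwa [Finset.mem_singleton] at hx
  have hβ0 : 0 < β := lt_of_le_of_lt (Nat.cast_nonneg _) hβ
  refine Summable.of_nonneg_of_le (fun x => Real.rpow_nonneg (by have := house_nonneg (x : K); linarith) _) (fun x => ?_) (h2.add h3)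
  have hh := house_nonneg (x : K)
  by_cases hx : x = 0
  · rw [if_pos hx]
    have h4 : (1 + house (x : K)) ^ (-β) ≤ 1 := Real.rpow_le_one_of_one_le_of_nonpos (by linarith) (by linarith)
    have h5 : 0 ≤ ‖e x‖ ^ (-β) := Real.rpow_nonneg (norm_nonneg _) _
    linarith
  · rw [if_neg hx, add_zero]
    have h6 : 0 < ‖e x‖ := norm_pos_iff.2 fun h0 => hx (e.map_eq_zero_iff.1 h0)
    refine Real.rpow_le_rpow_of_nonpos h6 ?_ (by linarith)
    have h7 : ‖e x‖ ≤ house (x : K) := y13_norm_le (x : K)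
    linarith

end CFTY
end

-- from Lib.CFT.Y06
section

/-! # CFT module Y, chunk Y06: an application of Minkowski's theorem -/

open NumberField

namespace CFTY

variable {K : Type} [Field K] [NumberField K]

/-- PROOF. `NumberField.mixedEmbedding.exists_ne_zero_mem_ringOfIntegers_lt` with `f w = t * (w x)⁻¹ * (nm x)^(1/d)`, where `t` (independent of `x`) is so
large that `t ^ d > minkowskiBound K 1` (`minkowskiBound_lt_top`; `convexBodyLT_volume`, `convexBodyLTFactor ≥ 1`,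
`InfinitePlace.prod_eq_abs_norm`: `∏ w, w x ^ mult w = |norm x|`, `∑ w, mult w = d`: `InfinitePlace.sum_mult_eq`; so `∏ w, f w ^ mult w = t ^ d`).
We get `a ≠ 0` with `w a < f w`, so `w (a x) < t (nm x)^(1/d)` for all `w`, `house (a x) ≤ t (nm x)^(1/d)`. `c = t ^ d`. -/
theorem mink (K : Type) [Field K] [NumberField K] : ∃ c : ℝ, 0 < c ∧ ∀ x : K, x ≠ 0 →
    ∃ a : 𝓞 K, a ≠ 0 ∧ house ((a : K) * x) ^ dg K ≤ c * nm x := by
  classical
  obtain ⟨B, hB⟩ : ∃ B : NNReal, B = (NumberField.mixedEmbedding.minkowskiBound K ↑1).toNNReal + 1 := ⟨_, rfl⟩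
  have hB0 : 0 < B := by rw [hB]; positivity
  have hB1 : NumberField.mixedEmbedding.minkowskiBound K ↑1 < (B : ENNReal) := by
    have h1 := (NumberField.mixedEmbedding.minkowskiBound_lt_top K ↑1).ne
    rw [hB, ENNReal.coe_add, ENNReal.coe_toNNReal h1, ENNReal.coe_one]
    exact ENNReal.lt_add_right h1 one_ne_zero
  refine ⟨(B : ℝ), by exact_mod_cast hB0, fun x hx => ?_⟩
  have hN : 0 < nm x := nm_pos hx
  have hd : dg K ≠ 0 := by have := dg_pos (K := K); omega
  obtain ⟨r, hr⟩ : ∃ r : ℝ, r = ((B : ℝ) * nm x) ^ ((dg K : ℝ)⁻¹) := ⟨_, rfl⟩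
  have hBN : 0 < (B : ℝ) * nm x := mul_pos (by exact_mod_cast hB0) hN
  have hr0 : 0 < r := by
    rw [hr]
    exact Real.rpow_pos_of_pos hBN _
  have hrd : r ^ dg K = B * nm x := by
    rw [hr]
    exact Real.rpow_inv_natCast_pow hBN.le hd
  have hw : ∀ w : InfinitePlace K, 0 < w x := fun w => InfinitePlace.pos_iff.2 hx
  obtain ⟨f, hf⟩ : ∃ f : InfinitePlace K → NNReal, ∀ w, (f w : ℝ) = r / w x :=
    ⟨fun w => ⟨r / w x, (div_pos hr0 (hw w)).le⟩, fun w => rfl⟩
  have hprod : ∏ w, (f w) ^ w.mult = B := by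
    apply NNReal.coe_injective
    rw [NNReal.coe_prod]
    have h1 : ∀ w : InfinitePlace K, ((f w ^ w.mult : NNReal) : ℝ) = r ^ w.mult / (w x) ^ w.mult := fun w => by
      rw [NNReal.coe_pow, hf, div_pow]
    rw [Finset.prod_congr rfl fun w _ => h1 w, Finset.prod_div_distrib, InfinitePlace.prod_eq_abs_norm, Finset.prod_pow_eq_pow_sum,
      InfinitePlace.sum_mult_eq]
    have h2 : ((|Algebra.norm ℚ x| : ℚ) : ℝ) = nm x := by
      unfold nm
      rw [Rat.cast_abs]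
    have h3 : r ^ Module.finrank ℚ K = B * nm x := hrd
    rw [h2, h3, mul_div_cancel_right₀ _ hN.ne']
  have hvol : NumberField.mixedEmbedding.minkowskiBound K ↑1 < MeasureTheory.volume (NumberField.mixedEmbedding.convexBodyLT K f) := by
    rw [NumberField.mixedEmbedding.convexBodyLT_volume]
    refine hB1.trans_le ?_
    rw [hprod]
    have h2 : (1 : ENNReal) ≤ (NumberField.mixedEmbedding.convexBodyLTFactor K : ENNReal) := by
      exact_mod_cast NumberField.mixedEmbedding.one_le_convexBodyLTFactor K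
    calc (B : ENNReal) = 1 * B := (one_mul _).symm
      _ ≤ _ := mul_le_mul_left h2 _
  obtain ⟨a, ha, hlt⟩ := NumberField.mixedEmbedding.exists_ne_zero_mem_ringOfIntegers_lt K hvol
  refine ⟨a, ha, ?_⟩
  rw [← hrd]
  refine pow_le_pow_left₀ (norm_nonneg _) ?_ _
  show ‖canonicalEmbedding K ((a : K) * x)‖ ≤ r
  rw [pi_norm_le_iff_of_nonneg hr0.le]
  intro σ
  have h1 := hlt (InfinitePlace.mk σ)
  rw [hf, lt_div_iff₀ (hw _), ← map_mul, InfinitePlace.apply] at h1
  exact h1.le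

end CFTY
end

-- from Lib.CFT.Y21
section

/-! # CFT module Y, chunk Y21: unfolding: the sum over one fibre -/

open NumberField

namespace CFTY

variable {K : Type} [Field K] [NumberField K]

/-- PROOF. `span {x} = span {y}`: `x = u y` with a unit `u` (`Ideal.span_singleton_eq_span_singleton`); `(u - 1) y = (x - 1) - (y - 1) ∈ m` and `y` is prime to `m`
(`y - 1 ∈ m`): `u - 1 = (u - 1) y - (u - 1)(y - 1) ∈ m`. `u = x / y` is totally positive. -/
theorem fibre {m : Ideal (𝓞 K)} {x y : 𝓞 K} (hx : x - 1 ∈ m) (hy : y - 1 ∈ m) (hx' : TP (x : K)) (hy' : TP (y : K))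
    (h : Ideal.span {x} = Ideal.span {y}) : ∃ u ∈ RU m, x = ((u : (𝓞 K)ˣ) : 𝓞 K) * y := by
  have h1 : Associated y x := (Ideal.span_singleton_eq_span_singleton.1 h).symm
  obtain ⟨u, hu⟩ := h1
  have hux : x = (u : 𝓞 K) * y := by rw [← hu, mul_comm]
  have hy0 : ((y : 𝓞 K) : K) ≠ 0 := hy'.1
  refine ⟨u, ⟨?_, ?_⟩, hux⟩
  · have e : (u : 𝓞 K) - 1 = ((x - 1) - (y - 1)) - ((u : 𝓞 K) - 1) * (y - 1) := by
      rw [hux]
      ring
    rw [e]
    exact m.sub_mem (m.sub_mem hx hy) (m.mul_mem_left _ hy)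
  · have e : ((u : 𝓞 K) : K) = (x : K) * (y : K)⁻¹ := by
      rw [eq_mul_inv_iff_mul_eq₀ hy0, ← map_mul, ← hux]
    rw [e]
    exact hx'.mul hy'.inv


open Classical in
/-- `tm χ s (span {x}) = ψ x * nm x ^ (-s)` (`HCh.ray`, `absNorm_span`). PROOF of the theorem. Let `f x` be the term. If `f x ≠ 0` then `x - 1 ∈ m`, `x ∈ j`, `TP x`, so `PrI m I`, `I ≤ j`
for `I = span {x}`: so both sides are 0 if not `PrI m I ∧ I ≤ j`. Otherwise `I = span {y}`, `y - 1 ∈ m`, `TP y`; the map `u ↦ u y` from `RU m` to the fibre is injective and its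
image contains the support of `f` (`fibre`); `f (u y) = w (u y) * tm χ s I`; the sum of `w (u y)` is 1. (`Function.Injective.hasSum_iff`, `HasSum.mul_right`.) -/
theorem fibre_sum {m : Ideal (𝓞 K)} {ψ : K → ℂ} {χ : Ideal (𝓞 K) →*₀ ℂ} (hχ : HCh m ψ χ) {w : K → ℝ}
    (hw : ∀ x : K, x ≠ 0 → HasSum (fun u : RU m => w ((((u : (𝓞 K)ˣ) : 𝓞 K) : K) * x)) 1) (j I : Ideal (𝓞 K)) (s : ℂ) :
    HasSum (fun x : {x : 𝓞 K // Ideal.span {x} = I} => if (x : 𝓞 K) - 1 ∈ m ∧ (x : 𝓞 K) ∈ j then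
      Fs (fun z => (if TP z then 1 else 0) * (w z : ℂ) * ψ z) s ((x : 𝓞 K) : K) else 0)
      (if PrI m I ∧ I ≤ j then CFTZ.tm χ s I else 0) := by
  have hterm : ∀ x : {x : 𝓞 K // Ideal.span {x} = I}, (x : 𝓞 K) - 1 ∈ m → TP (((x : 𝓞 K)) : K) →
      Fs (fun z => (if TP z then 1 else 0) * (w z : ℂ) * ψ z) s ((x : 𝓞 K) : K) = (w ((x : 𝓞 K) : K) : ℂ) * CFTZ.tm χ s I := by
    rintro ⟨x, hx⟩ h1 h2
    change Fs (fun z => (if TP z then 1 else 0) * (w z : ℂ) * ψ z) s (x : K) = (w (x : K) : ℂ) * CFTZ.tm χ s I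
    have h3 : χ I = ψ x := by rw [← hx, hχ.ray x h1 h2]
    have h4 : ((Ideal.absNorm I : ℕ) : ℂ) = ((nm (x : K) : ℝ) : ℂ) := by
      rw [← absNorm_span x, hx]
      norm_cast
    unfold Fs CFTZ.tm
    change (if TP (x : K) then (1 : ℂ) else 0) * (w (x : K) : ℂ) * ψ (x : K) * _ = _
    rw [if_pos h2, h3, h4]
    ring
  by_cases hP : PrI m I ∧ I ≤ j
  · rw [if_pos hP]
    obtain ⟨⟨y, hy1, hy2, hy3⟩, hIj⟩ := hP
    have hmem : ∀ u : RU m, Ideal.span {(((u : (𝓞 K)ˣ) : 𝓞 K) * y)} = I := by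
      intro u
      rw [hy3, Ideal.span_singleton_eq_span_singleton]
      exact (associated_mul_unit_right y u.1 u.1.isUnit).symm.trans (Associated.refl _) |> fun h => by
        rw [mul_comm]
        exact h
    let φ : RU m → {x : 𝓞 K // Ideal.span {x} = I} := fun u => ⟨((u : (𝓞 K)ˣ) : 𝓞 K) * y, hmem u⟩
    have hy0 : y ≠ 0 := by
      rintro rfl
      exact hy2.1 (map_zero _)
    have hφ : Function.Injective φ := by
      intro u v huv
      have h1 : ((u : (𝓞 K)ˣ) : 𝓞 K) * y = ((v : (𝓞 K)ˣ) : 𝓞 K) * y := congrArg Subtype.val huv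
      exact Subtype.ext (Units.ext (mul_right_cancel₀ hy0 h1))
    rw [← hφ.hasSum_iff]
    · have h1 := (Complex.hasSum_ofReal.2 (hw (y : K) hy2.1)).mul_right (CFTZ.tm χ s I)
      rw [Complex.ofReal_one, one_mul] at h1
      have hfun : ((fun x : {x : 𝓞 K // Ideal.span {x} = I} => if (x : 𝓞 K) - 1 ∈ m ∧ (x : 𝓞 K) ∈ j then
        Fs (fun z => (if TP z then 1 else 0) * (w z : ℂ) * ψ z) s ((x : 𝓞 K) : K) else 0) ∘ φ) =
          fun u : RU m => (w ((((u : (𝓞 K)ˣ) : 𝓞 K) : K) * (y : K)) : ℂ) * CFTZ.tm χ s I := ?_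
      · rw [hfun]
        exact h1
      funext u
      have h2 : ((φ u : 𝓞 K)) - 1 ∈ m := by
        change ((u : (𝓞 K)ˣ) : 𝓞 K) * y - 1 ∈ m
        have e : ((u : (𝓞 K)ˣ) : 𝓞 K) * y - 1 = (((u : (𝓞 K)ˣ) : 𝓞 K) - 1) * y + (y - 1) := by ring
        rw [e]
        exact m.add_mem (m.mul_mem_right _ u.2.1) hy1
      have h3 : (φ u : 𝓞 K) ∈ j := by
        apply hIj
        exact (φ u).2.le (Ideal.mem_span_singleton_self _)
      have h4 : TP (((φ u : 𝓞 K)) : K) := by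
        change TP (algebraMap (𝓞 K) K (((u : (𝓞 K)ˣ) : 𝓞 K) * y))
        rw [map_mul]
        exact u.2.2.mul hy2
      change (if ((φ u : 𝓞 K)) - 1 ∈ m ∧ ((φ u : 𝓞 K)) ∈ j then
        Fs (fun z => (if TP z then 1 else 0) * (w z : ℂ) * ψ z) s (((φ u : 𝓞 K)) : K) else 0) = _
      rw [if_pos ⟨h2, h3⟩, hterm (φ u) h2 h4]
      change (w (algebraMap (𝓞 K) K (((u : (𝓞 K)ˣ) : 𝓞 K) * y)) : ℂ) * _ = _
      rw [map_mul]
    · intro x hx
      by_cases h1 : (x : 𝓞 K) - 1 ∈ m ∧ (x : 𝓞 K) ∈ j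
      · rw [if_pos h1]
        by_cases h2 : TP (((x : 𝓞 K)) : K)
        · exfalso
          apply hx
          obtain ⟨u, hu, hu2⟩ := fibre h1.1 hy1 h2 hy2 (by rw [x.2, hy3])
          exact ⟨⟨u, hu⟩, Subtype.ext hu2.symm⟩
        · unfold Fs
          change (if TP ((x : 𝓞 K) : K) then (1 : ℂ) else 0) * (w ((x : 𝓞 K) : K) : ℂ) * ψ ((x : 𝓞 K) : K) * _ = _
          rw [if_neg h2, zero_mul, zero_mul, zero_mul]
      · rw [if_neg h1]
  · rw [if_neg hP]
    have h0 : (fun x : {x : 𝓞 K // Ideal.span {x} = I} => if (x : 𝓞 K) - 1 ∈ m ∧ (x : 𝓞 K) ∈ j then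
        Fs (fun z => (if TP z then 1 else 0) * (w z : ℂ) * ψ z) s ((x : 𝓞 K) : K) else 0) = fun _ => 0 := by
      funext x
      by_cases h1 : (x : 𝓞 K) - 1 ∈ m ∧ (x : 𝓞 K) ∈ j
      · rw [if_pos h1]
        by_cases h2 : TP (((x : 𝓞 K)) : K)
        · exfalso
          apply hP
          refine ⟨⟨x, h1.1, h2, x.2.symm⟩, ?_⟩
          rw [← x.2, Ideal.span_singleton_le_iff_mem]
          exact h1.2
        · unfold Fs
          change (if TP ((x : 𝓞 K) : K) then (1 : ℂ) else 0) * (w ((x : 𝓞 K) : K) : ℂ) * ψ ((x : 𝓞 K) : K) * _ = _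
          rw [if_neg h2, zero_mul, zero_mul, zero_mul]
      · rw [if_neg h1]
    rw [h0]
    exact hasSum_zero


end CFTY
end

-- from Lib.H55R.BF2
section

open NumberField IsDedekindDomain
open scoped Pointwise

namespace H55R

variable {K L : Type} [Field K] [NumberField K] [Field L] [NumberField L] [Algebra K L] [IsGalois K L]

/-! Chunk BF2 (M): ramification, degrees, norms; L/K Galois of degree n, v a prime of K.
es_pos, fs_pos: Ideal.ramificationIdxIn_ne_zero, inertiaDegIn_ne_zero. card_above: number of primes above v times e f is n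
(Ideal.ncard_primesOver_mul_ramificationIdxIn_mul_inertiaDegIn; the primes W with W.under = v correspond to
v.asIdeal.primesOver (𝓞 L)). card_stab: Ideal.card_stabilizer_eq.
ord_map: ord W (x) = e ord v (x) for x in Kˣ: v O_L = product of the W'^e over the primes W' above v (Ideal.ramificationIdx is the multiplicity
of W in v O_L), so for integral x with (x) = v^a b, b prime to v, the multiplicity of W in x O_L is e a; quotients.
under_exists: every v has a prime above it. -/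

theorem es_pos (v : Pl K) : 0 < es K L v := by
  have h := v.isPrime
  exact Nat.pos_of_ne_zero (Ideal.ramificationIdxIn_ne_zero (A := 𝓞 K) (B := 𝓞 L) Gal(L/K)
    (p := v.asIdeal))

theorem fs_pos (v : Pl K) : 0 < fs K L v := by
  have h := v.isPrime
  exact Nat.pos_of_ne_zero (Ideal.inertiaDegIn_ne_zero (A := 𝓞 K) (B := 𝓞 L) Gal(L/K)
    (p := v.asIdeal))

omit [IsGalois K L] in
theorem under_exists (v : Pl K) : ∃ W : Pl L, W.under (𝓞 K) = v := by
  have hm := v.isMaximal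
  obtain ⟨Q, hQ1, hQ2⟩ := Ideal.exists_maximal_ideal_liesOver_of_isIntegral (S := 𝓞 L) v.asIdeal
  refine ⟨⟨Q, hQ1.isPrime, Ideal.ne_bot_of_liesOver_of_ne_bot v.ne_bot Q⟩, ?_⟩
  apply HeightOneSpectrum.ext
  exact hQ2.over.symm

omit [IsGalois K L] in
theorem BF2_mem (v : Pl K) (W : Pl L) (h : W.under (𝓞 K) = v) :
    W.asIdeal ∈ v.asIdeal.primesOver (𝓞 L) :=
  ⟨W.isPrime, ⟨(congrArg HeightOneSpectrum.asIdeal h).symm⟩⟩

omit [IsGalois K L] in
theorem above_finite (v : Pl K) : {W : Pl L | W.under (𝓞 K) = v}.Finite := by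
  have hm := v.isMaximal
  have h1 : (v.asIdeal.primesOver (𝓞 L)).Finite := IsDedekindDomain.primesOver_finite v.asIdeal (𝓞 L)
  refine Set.Finite.of_finite_image (f := HeightOneSpectrum.asIdeal) (h1.subset ?_) ?_
  · rintro _ ⟨W, hW, rfl⟩
    exact BF2_mem v W hW
  · intro W _ W' _ h
    exact HeightOneSpectrum.ext h

theorem card_above (v : Pl K) (T : Finset (Pl L)) (hT : ∀ W, W ∈ T ↔ W.under (𝓞 K) = v) :
    T.card * (es K L v * fs K L v) = Module.finrank K L := by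
  classical
  have hp := v.isPrime
  have h1 := Ideal.ncard_primesOver_mul_ramificationIdxIn_mul_inertiaDegIn v.asIdeal (𝓞 L) Gal(L/K)
  rw [IsGalois.card_aut_eq_finrank] at h1
  have h2 : ((T.image HeightOneSpectrum.asIdeal : Finset (Ideal (𝓞 L))) : Set (Ideal (𝓞 L))) =
      v.asIdeal.primesOver (𝓞 L) := by
    ext P
    rw [Finset.coe_image]
    constructor
    · rintro ⟨W, hW, rfl⟩
      exact BF2_mem v W ((hT W).1 (Finset.mem_coe.1 hW))
    · rintro ⟨hP, hP2⟩
      refine ⟨⟨P, hP, Ideal.ne_bot_of_liesOver_of_ne_bot v.ne_bot P⟩, ?_, rfl⟩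
      rw [Finset.mem_coe, hT]
      apply HeightOneSpectrum.ext
      exact hP2.over.symm
  rw [← h2, Set.ncard_coe_finset, Finset.card_image_of_injective] at h1
  · exact h1
  · intro W W' h
    exact HeightOneSpectrum.ext h



end H55R
end

-- from Lib.CFT.ZB
section

/-! # CFT, module Z, part B: completely split primes have density 1/[L:K] (port of Lib/H55R/D4, D5, Den without their other imports) -/

open NumberField IsDedekindDomain

namespace CFTZ

open H55R

/-- Chunk RD4 (S/M), finiteness of the ramified primes. If e(v) <> 1 then a prime W of L above v is ramified, so W divides the different ideal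
differentIdeal (𝓞 K) (𝓞 L), which is nonzero (differentIdeal_ne_bot; not_dvd_differentIdeal_iff, Ideal.ramificationIdx_eq_one_iff,
Ideal.ramificationIdxIn_eq_ramificationIdx; see Mathlib/NumberTheory/NumberField/ExistsRamified.lean lines 80-100 for the pattern). A nonzero ideal has only finitely
many prime divisors (Ideal.finite_factors or UniqueFactorizationMonoid.normalizedFactors), and v is W.under. Alternative: for each sigma <> 1 in Gal(L/K) choose x with
sigma x <> x; the inertia group of W is nontrivial if e <> 1, so W contains the nonzero product of all sigma x - x. -/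
theorem ram_finite (K L : Type) [Field K] [NumberField K] [Field L] [NumberField L]
    [Algebra K L] [IsGalois K L] : {v : Pl K | es K L v ≠ 1}.Finite := by
  have h1 : differentIdeal (𝓞 K) (𝓞 L) ≠ ⊥ := differentIdeal_ne_bot
  have h2 : {W : Pl L | W.asIdeal ∣ differentIdeal (𝓞 K) (𝓞 L)}.Finite :=
    Ideal.finite_factors h1
  refine (h2.image fun W => W.under (𝓞 K)).subset ?_
  intro v hv
  obtain ⟨P, hP⟩ : ∃ P : Ideal (𝓞 L), P.IsPrime ∧ P.LiesOver v.asIdeal := by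
    obtain ⟨⟨P, h3, h4⟩⟩ := v.asIdeal.nonempty_primesOver (S := 𝓞 L)
    exact ⟨P, h3, h4⟩
  obtain ⟨hP1, hP2⟩ := hP
  have hP0 : P ≠ ⊥ := Ideal.ne_bot_of_liesOver_of_ne_bot v.ne_bot P
  have h3 : es K L v = P.ramificationIdx (𝓞 K) :=
    Ideal.ramificationIdxIn_eq_ramificationIdx v.asIdeal P Gal(L/K)
  refine ⟨⟨P, hP1, hP0⟩, ?_, ?_⟩
  · show P ∣ differentIdeal (𝓞 K) (𝓞 L)
    by_contra h4
    rw [not_dvd_differentIdeal_iff] at h4
    apply hv
    rw [h3]
    exact Ideal.ramificationIdx_eq_one P (𝓞 K)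
  · apply HeightOneSpectrum.ext
    exact hP2.over.symm

section

variable {K L : Type} [Field K] [NumberField K] [Field L] [NumberField L] [Algebra K L]
  [IsGalois K L]

theorem D5_norm (v : Pl K) (W : Pl L) (h : W.under (𝓞 K) = v) :
    Ideal.absNorm W.asIdeal = Ideal.absNorm v.asIdeal ^ fs K L v := by
  have hp := v.isPrime
  have hW := W.isPrime
  have hvm := v.isMaximal
  have hWm := W.isMaximal
  have hl : W.asIdeal.LiesOver v.asIdeal := (BF2_mem v W h).2
  have h1 := Ideal.absNorm_relNorm (𝓞 K) (𝓞 L) W.asIdeal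
  rw [← h1, Ideal.relNorm_eq_pow_of_isMaximal W.asIdeal v.asIdeal, map_pow]
  congr 1
  exact (Ideal.inertiaDegIn_eq_inertiaDeg v.asIdeal W.asIdeal Gal(L/K)).symm

/-- The primes above v. -/
noncomputable def D5_T (v : Pl K) : Finset (Pl L) := (above_finite (L := L) v).toFinset

omit [IsGalois K L] in
theorem D5_mem (v : Pl K) (W : Pl L) : W ∈ D5_T v ↔ W.under (𝓞 K) = v := by
  unfold D5_T
  rw [Set.Finite.mem_toFinset]
  exact Iff.rfl

theorem D5_card (v : Pl K) : (D5_T (L := L) v).card * (es K L v * fs K L v) = Module.finrank K L :=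
  card_above v _ fun W => D5_mem v W

theorem D5_card_le (v : Pl K) : (D5_T (L := L) v).card ≤ Module.finrank K L := by
  rw [← D5_card (L := L) v]
  exact Nat.le_mul_of_pos_right _ (Nat.mul_pos (es_pos v) (fs_pos v))

theorem D5_fibre (v : Pl K) (s : ℝ) :
    ∑ W ∈ D5_T (L := L) v, (Ideal.absNorm W.asIdeal : ℝ) ^ (-s) =
      (D5_T (L := L) v).card * (Ideal.absNorm v.asIdeal : ℝ) ^ (-(fs K L v * s)) := by
  rw [← nsmul_eq_mul, ← Finset.sum_const]
  refine Finset.sum_congr rfl fun W hW => ?_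
  rw [D5_norm v W ((D5_mem v W).1 hW)]
  push_cast
  rw [← Real.rpow_natCast, ← Real.rpow_mul (Nat.cast_nonneg _)]
  congr 1
  ring

end

/-- Chunk RD5 (M/L), primes of L and completely split primes of K. n = [L : K]. Sum over the primes W of L = sum over the v of the finite sums over the fibre {W : W.under = v}
(Equiv.sigmaFiberEquiv for W -> W.under (𝓞 K), Summable.tsum_sigma'; dd_summable for L). The fibre over v is in bijection with v.asIdeal.primesOver (𝓞 L), has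
n / (e f) elements (Ideal.ncard_primesOver_mul_ramificationIdxIn_mul_inertiaDegIn), at most n, and absNorm W = (absNorm v)^f (Ideal.absNorm_eq_pow_inertiaDeg or the cardinality of the residue field:
Ideal.absNorm_relNorm and Ideal.relNorm_eq_pow_of_isMaximal). If v splits (Spl: e = f = 1) the fibre sum is n * Nv^(-s). If f >= 2 it is between 0 and n * Nv^(-2s) <= n * Nv^(-2). If
f = 1 and e <> 1 it is between 0 and n, and these v form a finite set (ram_finite). So |sum over W - n * PS (Spl) s| <= n * (sum of Nv^(-2)) + n * #(ramified). -/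
theorem split_cmp (K L : Type) [Field K] [NumberField K] [Field L] [NumberField L]
    [Algebra K L] [IsGalois K L] : ∃ C : ℝ, ∀ s ∈ Set.Ioc (1 : ℝ) 2,
      |∑' W : Pl L, (Ideal.absNorm W.asIdeal : ℝ) ^ (-s) -
        Module.finrank K L * PS {v : Pl K | Spl K L v} s| ≤ C := by
  classical
  have hB1 : Summable fun v : Pl K => (Module.finrank K L : ℝ) * (Ideal.absNorm v.asIdeal : ℝ) ^ (-2 : ℝ) :=
    (dd_summable 2 (by norm_num)).mul_left _
  have hB2 : Summable fun v : Pl K => if es K L v ≠ 1 then (Module.finrank K L : ℝ) else 0 := by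
    refine summable_of_finite_support ((ram_finite K L).subset ?_)
    intro v hv
    rw [Function.mem_support] at hv
    by_contra hne
    exact hv (if_neg hne)
  have hB := hB1.add hB2
  refine ⟨∑' v : Pl K, ((Module.finrank K L : ℝ) * (Ideal.absNorm v.asIdeal : ℝ) ^ (-2 : ℝ) +
      if es K L v ≠ 1 then (Module.finrank K L : ℝ) else 0), fun s hs => ?_⟩
  obtain ⟨hs1, hs2⟩ := hs
  have hg : Summable fun W : Pl L => (Ideal.absNorm W.asIdeal : ℝ) ^ (-s) := dd_summable s hs1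
  let E : (Σ v : Pl K, {W : Pl L // W.under (𝓞 K) = v}) ≃ Pl L :=
    Equiv.sigmaFiberEquiv fun W : Pl L => W.under (𝓞 K)
  have hgE : Summable fun p : (Σ v : Pl K, {W : Pl L // W.under (𝓞 K) = v}) =>
      (Ideal.absNorm (E p).asIdeal : ℝ) ^ (-s) := (Equiv.summable_iff E).2 hg
  have hin : ∀ v : Pl K, ∑' W : {W : Pl L // W.under (𝓞 K) = v},
      (Ideal.absNorm (E ⟨v, W⟩).asIdeal : ℝ) ^ (-s) =
        ∑ W ∈ D5_T (L := L) v, (Ideal.absNorm W.asIdeal : ℝ) ^ (-s) := by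
    intro v
    rw [← Finset.tsum_subtype (D5_T (L := L) v) fun W : Pl L => (Ideal.absNorm W.asIdeal : ℝ) ^ (-s)]
    let e : {W : Pl L // W.under (𝓞 K) = v} ≃ {W : Pl L // W ∈ D5_T (L := L) v} :=
      Equiv.subtypeEquivRight fun W => (D5_mem v W).symm
    rw [← Equiv.tsum_eq e]
    rfl
  have hsum : ∑' W : Pl L, (Ideal.absNorm W.asIdeal : ℝ) ^ (-s) =
      ∑' v : Pl K, ∑ W ∈ D5_T (L := L) v, (Ideal.absNorm W.asIdeal : ℝ) ^ (-s) := by
    rw [← Equiv.tsum_eq E, hgE.tsum_sigma]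
    exact tsum_congr hin
  have hF : Summable fun v : Pl K => ∑ W ∈ D5_T (L := L) v, (Ideal.absNorm W.asIdeal : ℝ) ^ (-s) :=
    hgE.sigma.congr hin
  have hP : Summable fun v : Pl K => (Module.finrank K L : ℝ) *
      {v : Pl K | Spl K L v}.indicator (fun v => (Ideal.absNorm v.asIdeal : ℝ) ^ (-s)) v :=
    ((dd_summable s hs1).indicator _).mul_left _
  unfold PS
  rw [hsum, ← tsum_mul_left, ← hF.tsum_sub hP, ← Real.norm_eq_abs]
  refine tsum_of_norm_bounded hB.hasSum fun v => ?_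
  rw [Real.norm_eq_abs, D5_fibre]
  have hN1 : (1 : ℝ) ≤ Ideal.absNorm v.asIdeal := by
    have := dd_two_le v
    exact_mod_cast (by omega : 1 ≤ Ideal.absNorm v.asIdeal)
  have hc : ((D5_T (L := L) v).card : ℝ) ≤ Module.finrank K L := by exact_mod_cast D5_card_le v
  have hn0 : (0 : ℝ) ≤ Module.finrank K L := Nat.cast_nonneg _
  have hf1 := fs_pos (K := K) (L := L) v
  have h20 : 0 ≤ (Ideal.absNorm v.asIdeal : ℝ) ^ (-2 : ℝ) := by positivity
  have hite : (0 : ℝ) ≤ if es K L v ≠ 1 then (Module.finrank K L : ℝ) else 0 := by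
    split_ifs
    · exact hn0
    · exact le_rfl
  by_cases hv : Spl K L v
  · have h1 : v ∈ {v : Pl K | Spl K L v} := hv
    rw [Set.indicator_of_mem h1]
    obtain ⟨h2, h3⟩ := hv
    have h4 := D5_card (L := L) v
    rw [h2, h3, mul_one, mul_one] at h4
    rw [h4, h3, Nat.cast_one, one_mul, sub_self, abs_zero]
    positivity
  · have h1 : v ∉ {v : Pl K | Spl K L v} := hv
    rw [Set.indicator_of_notMem h1, mul_zero, sub_zero]
    have h5 : 0 ≤ (Ideal.absNorm v.asIdeal : ℝ) ^ (-(fs K L v * s)) := by positivity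
    rw [abs_of_nonneg (mul_nonneg (Nat.cast_nonneg _) h5)]
    have hfs : (1 : ℝ) ≤ fs K L v := by exact_mod_cast hf1
    by_cases he : es K L v = 1
    · have hf2 : fs K L v ≠ 1 := fun h => hv ⟨he, h⟩
      have hf3 : (2 : ℝ) ≤ fs K L v := by exact_mod_cast (by omega : 2 ≤ fs K L v)
      have h6 : (Ideal.absNorm v.asIdeal : ℝ) ^ (-(fs K L v * s)) ≤
          (Ideal.absNorm v.asIdeal : ℝ) ^ (-2 : ℝ) := by
        refine Real.rpow_le_rpow_of_exponent_le hN1 ?_
        nlinarith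
      exact (mul_le_mul hc h6 h5 hn0).trans (le_add_of_nonneg_right hite)
    · rw [if_pos he]
      have h6 : (Ideal.absNorm v.asIdeal : ℝ) ^ (-(fs K L v * s)) ≤ 1 := by
        refine Real.rpow_le_one_of_one_le_of_nonpos hN1 ?_
        have : 0 ≤ (fs K L v : ℝ) * s := by positivity
        linarith
      have h7 := mul_le_mul hc h6 h5 hn0
      rw [mul_one] at h7
      exact h7.trans (le_add_of_nonneg_left (by positivity))

theorem den_trivial {K : Type} [Field K] [NumberField K] (f : Ideal (𝓞 K)) (s : ℝ) (hs : 1 < s) :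
    ‖Ls (tI f (1 : Pl K → ℂˣ)) s‖ ≤ ∑' a : Ideal (𝓞 K), (Ideal.absNorm a : ℝ) ^ (-s) := by
  have h1 : ∀ a, ‖tI f (1 : Pl K → ℂˣ) a‖ ≤ 1 :=
    dd_norm_tI f 1 fun v => by rw [Pi.one_apply, Units.val_one, norm_one]
  have h2 := dd_tm_summable (tI f (1 : Pl K → ℂˣ)) h1 s hs
  refine (norm_tsum_le_tsum_norm h2).trans ?_
  refine h2.tsum_le_tsum (fun a => ?_) (ideal_summable (K := K) s hs)
  rw [dd_norm_tm _ s (by linarith) a]
  exact mul_le_of_le_one_left (by positivity) (h1 a)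

/-- Completely split primes. -/
theorem density_split (K L : Type) [Field K] [NumberField K] [Field L] [NumberField L]
    [Algebra K L] [IsGalois K L] :
    ∃ C : ℝ, ∀ s ∈ Set.Ioc (1 : ℝ) 2,
      |PS {v : Pl K | Spl K L v} s - (1 / Module.finrank K L : ℝ) * Real.log (1 / (s - 1))| ≤ C := by
  obtain ⟨C₁, hC₁⟩ := split_cmp K L
  obtain ⟨C₂, hC₂⟩ := log_cmp L
  obtain ⟨C₃, hC₃⟩ := zeta_log L
  have hfr : (0 : ℝ) < Module.finrank K L := by exact_mod_cast Module.finrank_pos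
  refine ⟨(1 / Module.finrank K L : ℝ) * (C₁ + C₂ + C₃), fun s hs => ?_⟩
  -- the trivial character of L
  have hn : ∀ v : Pl L, ‖((1 : Pl L → ℂˣ) v : ℂ)‖ = 1 := fun v => by
    rw [Pi.one_apply, Units.val_one, norm_one]
  have hh := dd_norm_tI ⊤ (1 : Pl L → ℂˣ) hn
  have hval : ∀ a : Ideal (𝓞 L), a ≠ ⊥ → tI ⊤ (1 : Pl L → ℂˣ) a = 1 := by
    intro a ha
    rw [tI_apply ⊤ 1 ha (by rw [← Ideal.one_eq_top]; exact isCoprime_one_right), pv_one_fun,
      Units.val_one]
  have e1 := hC₂ (tI ⊤ (1 : Pl L → ℂˣ)) hh s hs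
  have e2 : ∑' v : Pl L, (tI ⊤ (1 : Pl L → ℂˣ) v.asIdeal).re *
      (Ideal.absNorm v.asIdeal : ℝ) ^ (-s) =
      ∑' W : Pl L, (Ideal.absNorm W.asIdeal : ℝ) ^ (-s) := by
    refine tsum_congr fun W => ?_
    rw [hval _ W.ne_bot, Complex.one_re, one_mul]
  have e3 : Ls (tI ⊤ (1 : Pl L → ℂˣ)) s =
      ((∑' a : Ideal (𝓞 L), (Ideal.absNorm a : ℝ) ^ (-s) : ℝ) : ℂ) := by
    unfold Ls
    rw [Complex.ofReal_tsum]
    refine tsum_congr fun a => ?_
    unfold tm
    rw [Complex.ofReal_cpow (Nat.cast_nonneg _)]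
    by_cases ha : a = ⊥
    · subst ha
      have : tI ⊤ (1 : Pl L → ℂˣ) ⊥ = 0 := map_zero _
      rw [this, zero_mul, Ideal.absNorm_bot]
      have hs0 : (-(s : ℂ)) ≠ 0 := by
        rw [neg_ne_zero, Complex.ofReal_ne_zero]
        linarith [hs.1]
      simp [Complex.zero_cpow hs0]
    · rw [hval a ha, one_mul]
      push_cast
      rfl
  obtain ⟨e4, e5⟩ := hC₃ s hs
  rw [e2, e3, Complex.norm_real, Real.norm_of_nonneg e4.le] at e1
  have e6 := hC₁ s hs
  rw [abs_le] at *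
  obtain ⟨a1, a2⟩ := e1
  obtain ⟨b1, b2⟩ := e5
  obtain ⟨c1, c2⟩ := e6
  have key : PS {v : Pl K | Spl K L v} s - (1 / Module.finrank K L : ℝ) * Real.log (1 / (s - 1)) =
      (1 / Module.finrank K L : ℝ) * (Module.finrank K L * PS {v : Pl K | Spl K L v} s -
        Real.log (1 / (s - 1))) := by
    field_simp
  rw [key, ← mul_neg]
  have hp : (0 : ℝ) ≤ 1 / Module.finrank K L := by positivity
  constructor
  · exact mul_le_mul_of_nonneg_left (by linarith) hp
  · exact mul_le_mul_of_nonneg_left (by linarith) hp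

end CFTZ
end

-- from Lib.CFT.Y14
section

/-! # CFT module Y, chunk Y14: difference of two values of Fs -/

open NumberField

namespace CFTY

variable {K : Type} [Field K] [NumberField K]

/-- bounds for the logarithm -/
theorem y14_log (d : ℕ) {δ t : ℝ} (h0 : 0 ≤ δ) (h1 : δ ≤ 1 / 2) (ht1 : (1 - δ) ^ d ≤ t) (ht2 : t ≤ (1 + δ) ^ d) :
    0 < t ∧ |Real.log t| ≤ 2 * d * δ := by
  have hp : (0 : ℝ) < 1 - δ := by linarith
  have ht : 0 < t := lt_of_lt_of_le (pow_pos hp d) ht1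
  refine ⟨ht, ?_⟩
  have hl1 : d * Real.log (1 - δ) ≤ Real.log t := by
    rw [← Real.log_pow]
    exact Real.log_le_log (pow_pos hp d) ht1
  have hl2 : Real.log t ≤ d * Real.log (1 + δ) := by
    rw [← Real.log_pow]
    exact Real.log_le_log ht ht2
  have h3 : Real.log (1 + δ) ≤ δ := by
    have := Real.log_le_sub_one_of_pos (show (0 : ℝ) < 1 + δ by linarith)
    linarith
  have h4 : -(2 * δ) ≤ Real.log (1 - δ) := by
    have h5 := Real.one_sub_inv_le_log_of_pos hp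
    have h6 : (1 - δ)⁻¹ ≤ 1 + 2 * δ := by
      rw [inv_le_comm₀ hp (by linarith)]
      rw [inv_le_iff_one_le_mul₀ (by linarith)]
      nlinarith
    linarith
  have hd : (0 : ℝ) ≤ d := Nat.cast_nonneg d
  rw [abs_le]
  constructor
  · nlinarith
  · nlinarith

/-- PROOF. `t = e^u`, `|u| = |log t| ≤ 2 d δ` (`|log (1 ± δ)| ≤ 2 δ` for `δ ≤ 1/2`); `t ^ (-s) - 1 = exp (- s u) - 1`, `|exp z - 1| ≤ |z| e^|z|`
(`Complex.norm_exp_sub_one_le` or the power series), `|z| ≤ R 2 d δ ≤ R d`. -/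
theorem y14_pow (d : ℕ) {δ R t : ℝ} (h0 : 0 ≤ δ) (h1 : δ ≤ 1 / 2) (hR : 0 ≤ R) (ht1 : (1 - δ) ^ d ≤ t) (ht2 : t ≤ (1 + δ) ^ d)
    {s : ℂ} (hs : ‖s‖ ≤ R) : ‖(t : ℂ) ^ (-s) - 1‖ ≤ 2 * R * d * Real.exp (R * d) * δ := by
  obtain ⟨ht, hl⟩ := y14_log d h0 h1 ht1 ht2
  have htc : (t : ℂ) ≠ 0 := by exact_mod_cast ht.ne'
  rw [Complex.cpow_def_of_ne_zero htc, ← Complex.ofReal_log ht.le]
  set z : ℂ := (Real.log t : ℂ) * (-s) with hz
  have hzn : ‖z‖ ≤ 2 * R * d * δ := by
    rw [hz, norm_mul, norm_neg, Complex.norm_real, Real.norm_eq_abs]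
    calc |Real.log t| * ‖s‖ ≤ (2 * d * δ) * R := mul_le_mul hl hs (norm_nonneg _) (by positivity)
      _ = 2 * R * d * δ := by ring
  have hzn2 : ‖z‖ ≤ R * d := by
    refine hzn.trans ?_
    have : 0 ≤ R * d := by positivity
    nlinarith
  have hexp : ‖Complex.exp z - 1‖ ≤ ‖z‖ * Real.exp ‖z‖ := by
    have h2 := Complex.norm_exp_sub_sum_le_norm_mul_exp z 1
    simpa using h2
  calc ‖Complex.exp z - 1‖ ≤ ‖z‖ * Real.exp ‖z‖ := hexp
    _ ≤ (2 * R * d * δ) * Real.exp (R * d) :=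
        mul_le_mul hzn (Real.exp_le_exp.2 hzn2) (Real.exp_pos _).le (by positivity)
    _ = 2 * R * d * Real.exp (R * d) * δ := by ring

/-- PROOF. `‖t ^ (-s)‖ = t ^ (- re s)`, `t ≥ 2^(-d)`, `t ≤ 2^d`. -/
theorem y14_norm (d : ℕ) {δ R t : ℝ} (h0 : 0 ≤ δ) (h1 : δ ≤ 1 / 2) (hR : 0 ≤ R) (ht1 : (1 - δ) ^ d ≤ t) (ht2 : t ≤ (1 + δ) ^ d)
    {s : ℂ} (hs : ‖s‖ ≤ R) : ‖(t : ℂ) ^ (-s)‖ ≤ (2 : ℝ) ^ (R * d) := by
  obtain ⟨ht, -⟩ := y14_log d h0 h1 ht1 ht2
  rw [Complex.norm_cpow_eq_rpow_re_of_pos ht]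
  have hsr : |s.re| ≤ R := (Complex.abs_re_le_norm s).trans hs
  have hd : (0 : ℝ) ≤ d := Nat.cast_nonneg d
  have h2 : |Real.log t| ≤ d * Real.log 2 := by
    have hl2 : Real.log t ≤ d * Real.log 2 := by
      rw [← Real.log_pow]
      refine Real.log_le_log ht (ht2.trans ?_)
      exact pow_le_pow_left₀ (by linarith) (by linarith) d
    have hl1 : -(d * Real.log 2) ≤ Real.log t := by
      have h3 : ((2 : ℝ) ^ d)⁻¹ ≤ t := by
        refine le_trans ?_ ht1
        rw [← inv_pow]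
        exact pow_le_pow_left₀ (by norm_num) (by linarith) d
      have h4 := Real.log_le_log (by positivity) h3
      rw [Real.log_inv, Real.log_pow] at h4
      exact h4
    rw [abs_le]
    exact ⟨hl1, hl2⟩
  rw [Real.rpow_def_of_pos ht, Real.rpow_def_of_pos (by norm_num : (0 : ℝ) < 2)]
  refine Real.exp_le_exp.2 ?_
  have h5 : Real.log t * (-s).re ≤ |Real.log t| * |s.re| := by
    rw [← abs_mul, Complex.neg_re, mul_neg]
    exact (neg_le_abs _)
  have h6 : |Real.log t| * |s.re| ≤ (d * Real.log 2) * R :=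
    mul_le_mul h2 hsr (abs_nonneg _) (by positivity)
  calc Real.log t * (-s).re ≤ (d * Real.log 2) * R := h5.trans h6
    _ = Real.log 2 * (R * d) := by ring

/-- PROOF. `t = nm y / nm x` (`cl_nm_lower`, `cl_nm_upper`), `nm y ^ (-s) = nm x ^ (-s) t ^ (-s)`.
`Fs g s y - Fs g s x = nm x ^ (-s) ((g y - g x) t ^ (-s) + g x (t ^ (-s) - 1))`. -/
theorem fs_cl {g : K → ℂ} {B L R δ : ℝ} (hB : ∀ x, ‖g x‖ ≤ B)
    (hL : ∀ (δ : ℝ) (x y : K), 0 ≤ δ → δ ≤ 1 / 2 → x ≠ 0 → Cl δ x y → ‖g y - g x‖ ≤ L * δ)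
    (h0 : 0 ≤ δ) (h1 : δ ≤ 1 / 2) (hR : 0 ≤ R) {s : ℂ} (hs : ‖s‖ ≤ R) {x y : K} (hx : x ≠ 0) (hc : Cl δ x y) :
    ‖Fs g s y - Fs g s x‖ ≤
      (L * (2 : ℝ) ^ (R * dg K) + B * (2 * R * dg K * Real.exp (R * dg K))) * δ * nm x ^ (-s.re) := by
  have hnx : 0 < nm x := nm_pos hx
  have hB0 : 0 ≤ B := (norm_nonneg _).trans (hB x)
  set t : ℝ := nm y / nm x with ht
  have ht1 : (1 - δ) ^ dg K ≤ t := by
    rw [ht, le_div_iff₀ hnx]
    exact cl_nm_lower h1 hc
  have ht2 : t ≤ (1 + δ) ^ dg K := by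
    rw [ht, div_le_iff₀ hnx]
    exact cl_nm_upper h0 hc
  obtain ⟨htp, -⟩ := y14_log (dg K) h0 h1 ht1 ht2
  have hny : nm y = nm x * t := by
    rw [ht]
    field_simp
  have e1 : (nm y : ℂ) ^ (-s) = (nm x : ℂ) ^ (-s) * (t : ℂ) ^ (-s) := by
    rw [hny, Complex.ofReal_mul, Complex.mul_cpow_ofReal_nonneg hnx.le htp.le]
  have e2 : Fs g s y - Fs g s x = (nm x : ℂ) ^ (-s) * ((g y - g x) * (t : ℂ) ^ (-s) + g x * ((t : ℂ) ^ (-s) - 1)) := by
    unfold Fs
    rw [e1]
    ring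
  have e3 : ‖(nm x : ℂ) ^ (-s)‖ = nm x ^ (-s.re) := by
    rw [Complex.norm_cpow_eq_rpow_re_of_pos hnx, Complex.neg_re]
  rw [e2, norm_mul, e3, mul_comm]
  refine mul_le_mul_of_nonneg_right ?_ (Real.rpow_nonneg hnx.le _)
  calc ‖(g y - g x) * (t : ℂ) ^ (-s) + g x * ((t : ℂ) ^ (-s) - 1)‖
      ≤ ‖g y - g x‖ * ‖(t : ℂ) ^ (-s)‖ + ‖g x‖ * ‖(t : ℂ) ^ (-s) - 1‖ := by
        refine (norm_add_le _ _).trans ?_
        rw [norm_mul, norm_mul]
    _ ≤ (L * δ) * (2 : ℝ) ^ (R * dg K) + B * (2 * R * dg K * Real.exp (R * dg K) * δ) := by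
        have h3 := hL δ x y h0 h1 hx hc
        have hLδ : 0 ≤ L * δ := (norm_nonneg _).trans h3
        refine add_le_add ?_ ?_
        · exact mul_le_mul h3 (y14_norm (dg K) h0 h1 hR ht1 ht2 hs) (norm_nonneg _) hLδ
        · exact mul_le_mul (hB x) (y14_pow (dg K) h0 h1 hR ht1 ht2 hs) (norm_nonneg _) hB0
    _ = (L * (2 : ℝ) ^ (R * dg K) + B * (2 * R * dg K * Real.exp (R * dg K))) * δ := by ring

end CFTY
end

-- from Lib.CFT.Y15
section

/-! # CFT module Y, chunk Y15: difference of Fs at x + h and at x -/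

open NumberField

namespace CFTY

variable {K : Type} [Field K] [NumberField K]

/-- PROOF. For `x ∈ Rg A`, `A ≥ 1`, `1 ≤ house x`, `σ₀ ≤ re s ≤ R`: `nm x ≥ house x ^ d / A`, so `nm x ^ (- re s) ≤ A ^ R house x ^ (- d re s) ≤
A ^ R house x ^ (- d σ₀)`. -/
theorem nm_rpow {A R σ₀ : ℝ} {x : K} (hA : 1 ≤ A) (hx : Rg A x) (h1 : 1 ≤ house x) (h0 : 0 ≤ σ₀) {σ : ℝ} (h2 : σ₀ ≤ σ)
    (h3 : σ ≤ R) : nm x ^ (-σ) ≤ A ^ R * house x ^ (-((dg K : ℝ) * σ₀)) := by
  have hh : 0 < house x := by linarith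
  have hA0 : 0 < A := by linarith
  have h4 : house x ^ dg K / A ≤ nm x := by
    rw [div_le_iff₀ hA0, mul_comm]
    exact hx.2
  have h5 : 0 < house x ^ dg K / A := by positivity
  calc nm x ^ (-σ) ≤ (house x ^ dg K / A) ^ (-σ) := Real.rpow_le_rpow_of_nonpos h5 h4 (by linarith)
    _ = A ^ σ * house x ^ (-((dg K : ℝ) * σ)) := by
        rw [Real.div_rpow (by positivity) hA0.le, ← Real.rpow_natCast, ← Real.rpow_mul hh.le, Real.rpow_neg hA0.le, div_inv_eq_mul,
          mul_comm, mul_neg]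
    _ ≤ A ^ R * house x ^ (-((dg K : ℝ) * σ₀)) := by
        refine mul_le_mul (Real.rpow_le_rpow_of_exponent_le hA h3) (Real.rpow_le_rpow_of_exponent_le h1 ?_) (by positivity)
          (by positivity)
        have : (dg K : ℝ) * σ₀ ≤ (dg K : ℝ) * σ := mul_le_mul_of_nonneg_left h2 (Nat.cast_nonneg _)
        linarith

/-- PROOF. As before (easier): `0` at `x = 0`; for `x ≠ 0`, `g x ≠ 0`: `‖Fs g s x‖ = ‖g x‖ nm x ^ (- re s) ≤ B A ^ (re s) house x ^ (- d re s)`, `house x ≥ (1 + house x) / 2`. -/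
theorem fs_norm {g : K → ℂ} {A : ℝ} (hB : Bd g) (hA : ∀ x, g x ≠ 0 → Rg A x) (s : ℂ) (hs : 0 ≤ s.re) :
    ∃ C : ℝ, ∀ x : 𝓞 K, ‖Fs g s (x : K)‖ ≤ C * (1 + house (x : K)) ^ (-((dg K : ℝ) * s.re)) := by
  obtain ⟨B, hB0, hB⟩ := hB
  obtain ⟨A', hA1, hAA⟩ : ∃ A' : ℝ, 1 ≤ A' ∧ A ≤ A' := ⟨max A 1, le_max_right _ _, le_max_left _ _⟩
  have hA0 : 0 < A' := by linarith
  refine ⟨B * A' ^ s.re * 2 ^ ((dg K : ℝ) * s.re), fun x => ?_⟩
  have hh := house_nonneg (x : K)
  by_cases hg : g (x : K) = 0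
  · unfold Fs
    rw [hg, zero_mul, norm_zero]
    positivity
  · have hx := hA _ hg
    have hx' : Rg A' (x : K) := ⟨hx.1, hx.2.trans (mul_le_mul_of_nonneg_right hAA (nm_nonneg _))⟩
    have h1 : 1 ≤ house (x : K) := one_le_house_of_isIntegral x.isIntegral_coe hx.1
    have h2 := nm_rpow hA1 hx' h1 hs (le_refl s.re) (le_refl s.re)
    have h3 : house (x : K) ^ (-((dg K : ℝ) * s.re)) ≤
        2 ^ ((dg K : ℝ) * s.re) * (1 + house (x : K)) ^ (-((dg K : ℝ) * s.re)) := by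
      have e : (2 : ℝ) ^ ((dg K : ℝ) * s.re) * (1 + house (x : K)) ^ (-((dg K : ℝ) * s.re)) =
          ((1 + house (x : K)) / 2) ^ (-((dg K : ℝ) * s.re)) := by
        rw [Real.div_rpow (by linarith) (by norm_num), Real.rpow_neg (by norm_num : (0 : ℝ) ≤ 2), div_inv_eq_mul, mul_comm]
      rw [e]
      refine Real.rpow_le_rpow_of_nonpos (by linarith) (by linarith) ?_
      have : 0 ≤ (dg K : ℝ) * s.re := mul_nonneg (Nat.cast_nonneg _) hs
      linarith
    unfold Fs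
    rw [norm_mul, Complex.norm_cpow_eq_rpow_re_of_pos (nm_pos hx.1), Complex.neg_re]
    calc ‖g (x : K)‖ * nm (x : K) ^ (-s.re) ≤ B * (A' ^ s.re * (2 ^ ((dg K : ℝ) * s.re) *
          (1 + house (x : K)) ^ (-((dg K : ℝ) * s.re)))) := by
          refine mul_le_mul (hB _) (h2.trans (mul_le_mul_of_nonneg_left h3 (by positivity))) (Real.rpow_nonneg (nm_nonneg _) _) hB0
      _ = B * A' ^ s.re * 2 ^ ((dg K : ℝ) * s.re) * (1 + house (x : K)) ^ (-((dg K : ℝ) * s.re)) := by ring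

end CFTY
end

-- from Lib.CFT.Y15B
section

/-! # CFT module Y, chunk Y15B: difference of Fs at x + h and at x -/

open NumberField

namespace CFTY

variable {K : Type} [Field K] [NumberField K]

theorem y15b_neg (x : K) : house (-x) = house x := by
  unfold house
  rw [map_neg, norm_neg]

theorem y15b_mono {A A' : ℝ} (h : A ≤ A') {x : K} (hx : Rg A x) : Rg A' x :=
  ⟨hx.1, hx.2.trans (mul_le_mul_of_nonneg_right h (nm_nonneg x))⟩


/-- the estimate near a point of the region -/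
theorem y15b_near {g : K → ℂ} {A B L R σ₀ : ℝ} (hA1 : 1 ≤ A) (hB : ∀ x, ‖g x‖ ≤ B)
    (hL : ∀ (δ : ℝ) (x y : K), 0 ≤ δ → δ ≤ 1 / 2 → x ≠ 0 → Cl δ x y → ‖g y - g x‖ ≤ L * δ) (hL0 : 0 ≤ L) (hB0 : 0 ≤ B)
    (hR : 0 ≤ R) (h0 : 0 ≤ σ₀) {s : ℂ} (hs : ‖s‖ ≤ R) (hs' : σ₀ ≤ s.re) {z k : K} (hz : Rg A z) (hz1 : 1 ≤ house z)
    (hk : A * house k ≤ 1 / 2 * house z) :
    ‖Fs g s (z + k) - Fs g s z‖ ≤ (L * (2 : ℝ) ^ (R * dg K) + B * (2 * R * dg K * Real.exp (R * dg K))) *
      (A * house k) * A ^ R * house z ^ (-((dg K : ℝ) * σ₀ + 1)) := by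
  have hz0 : 0 < house z := by linarith
  have hδ0 : 0 ≤ A * house k / house z := by
    have := house_nonneg k
    positivity
  have hδ1 : A * house k / house z ≤ 1 / 2 := by
    rw [div_le_iff₀ hz0]
    exact hk
  have hc : Cl (A * house k / house z) z (z + k) := by
    refine cl_add (by linarith) hδ0 hz ?_
    rw [div_mul_cancel₀ _ hz0.ne']
  have h1 := fs_cl hB hL hδ0 hδ1 hR hs hz.1 hc
  have h2 : nm z ^ (-s.re) ≤ A ^ R * house z ^ (-((dg K : ℝ) * σ₀)) :=
    nm_rpow hA1 hz hz1 h0 hs' ((Complex.re_le_norm s).trans hs)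
  have hM : 0 ≤ L * (2 : ℝ) ^ (R * dg K) + B * (2 * R * dg K * Real.exp (R * dg K)) := by positivity
  refine h1.trans ?_
  calc (L * (2 : ℝ) ^ (R * dg K) + B * (2 * R * dg K * Real.exp (R * dg K))) * (A * house k / house z) * nm z ^ (-s.re)
      ≤ (L * (2 : ℝ) ^ (R * dg K) + B * (2 * R * dg K * Real.exp (R * dg K))) * (A * house k / house z) *
        (A ^ R * house z ^ (-((dg K : ℝ) * σ₀))) := mul_le_mul_of_nonneg_left h2 (mul_nonneg hM hδ0)
    _ = (L * (2 : ℝ) ^ (R * dg K) + B * (2 * R * dg K * Real.exp (R * dg K))) *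
      (A * house k) * A ^ R * house z ^ (-((dg K : ℝ) * σ₀ + 1)) := by
        have e : -((dg K : ℝ) * σ₀ + 1) = -((dg K : ℝ) * σ₀) - 1 := by ring
        rw [e, Real.rpow_sub_one hz0.ne']
        ring

/-- trivial bound at the integers -/
theorem y15b_triv {g : K → ℂ} {B : ℝ} (hB : ∀ x, ‖g x‖ ≤ B) (hg : g 0 = 0) {s : ℂ} (hs : 0 ≤ s.re)
    (x : 𝓞 K) : ‖Fs g s (x : K)‖ ≤ B := by
  unfold Fs
  by_cases hx : x = 0
  · rw [hx]
    have e : ((0 : 𝓞 K) : K) = 0 := rfl
    rw [e, hg, zero_mul, norm_zero]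
    exact (norm_nonneg _).trans (hB 0)
  · have h1 : 1 ≤ nm (x : K) := one_le_nm hx
    rw [norm_mul, Complex.norm_cpow_eq_rpow_re_of_pos (by linarith)]
    have h2 : nm (x : K) ^ (-s).re ≤ 1 := by
      rw [Complex.neg_re]
      exact Real.rpow_le_one_of_one_le_of_nonpos h1 (by linarith)
    calc ‖g (x : K)‖ * nm (x : K) ^ (-s).re ≤ B * 1 :=
          mul_le_mul (hB _) h2 (Real.rpow_nonneg (by linarith) _) ((norm_nonneg _).trans (hB 0))
      _ = B := mul_one B

/-- comparison of powers -/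
theorem y15b_cmp {a b c E : ℝ} (hb : 0 < b) (hE : 0 ≤ E) (ha : 0 < a) (hc : 0 < c) (h : b ≤ c * a) :
    a ^ (-E) ≤ c ^ E * b ^ (-E) := by
  have h1 : b ^ E ≤ (c * a) ^ E := Real.rpow_le_rpow hb.le h hE
  rw [Real.mul_rpow hc.le ha.le] at h1
  rw [Real.rpow_neg ha.le, Real.rpow_neg hb.le, ← div_eq_mul_inv, inv_le_comm₀ (by positivity) (by positivity), inv_div,
    div_le_iff₀ (by positivity), mul_comm]
  exact h1

/-- The main estimate. `g` is bounded, `LL`, and 0 outside `Rg A`. -/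
theorem fs_diff {g : K → ℂ} {A : ℝ} (hB : Bd g) (hL : LL g) (hA : ∀ x, g x ≠ 0 → Rg A x) (h : 𝓞 K) {R σ₀ : ℝ}
    (hR : 0 ≤ R) (h0 : 0 ≤ σ₀) : ∃ C : ℝ, ∀ s : ℂ, ‖s‖ ≤ R → σ₀ ≤ s.re → ∀ x : 𝓞 K,
      ‖Fs g s ((x : K) + (h : K)) - Fs g s (x : K)‖ ≤ C * (1 + house (x : K)) ^ (-((dg K : ℝ) * σ₀ + 1)) := by
  obtain ⟨B, hB0, hB⟩ := hB
  obtain ⟨L, hL0, hL⟩ := hL
  have hg : g 0 = 0 := by
    by_contra hne
    exact (hA 0 hne).1 rfl
  obtain ⟨A', hA1, hAA⟩ : ∃ A' : ℝ, 1 ≤ A' ∧ A ≤ A' := ⟨max A 1, le_max_right _ _, le_max_left _ _⟩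
  have hA' : ∀ x, g x ≠ 0 → Rg A' x := fun x hx => y15b_mono hAA (hA x hx)
  have hh : 0 ≤ house (h : K) := house_nonneg _
  set M : ℝ := L * (2 : ℝ) ^ (R * dg K) + B * (2 * R * dg K * Real.exp (R * dg K)) with hM
  have hM0 : 0 ≤ M := by positivity
  set E : ℝ := (dg K : ℝ) * σ₀ + 1 with hE
  have hE0 : 0 ≤ E := by positivity
  set T : ℝ := 4 * A' * (house (h : K) + 1) with hT
  have hT4 : 4 ≤ T := by nlinarith
  set C1 : ℝ := M * (A' * house (h : K)) * A' ^ R with hC1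
  have hC10 : 0 ≤ C1 := by positivity
  refine ⟨C1 * 4 ^ E + 2 * B * (1 + T) ^ E, fun s hs hs' x => ?_⟩
  have hx0 : 0 ≤ house (x : K) := house_nonneg _
  have hp : 0 < (1 + house (x : K)) ^ (-E) := by positivity
  by_cases hc : T ≤ house (x : K)
  · have hmain : ‖Fs g s ((x : K) + (h : K)) - Fs g s (x : K)‖ ≤ C1 * 4 ^ E * (1 + house (x : K)) ^ (-E) := by
      have hx1 : 1 ≤ house (x : K) := by linarith
      have hAh : A' * house (h : K) ≤ 1 / 4 * house (x : K) := by nlinarith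
      by_cases hgx : g (x : K) = 0
      · by_cases hgy : g ((x : K) + (h : K)) = 0
        · unfold Fs
          rw [hgx, hgy, zero_mul, zero_mul, sub_zero, norm_zero]
          positivity
        · have hhx : house (h : K) ≤ 1 / 4 * house (x : K) := by nlinarith
          have h3 : house (x : K) ≤ house ((x : K) + (h : K)) + house (h : K) := by
            have h4 := house_add_le ((x : K) + (h : K)) (-(h : K))
            rw [y15b_neg, add_neg_cancel_right] at h4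
            exact h4
          have h5 := y15b_near (z := (x : K) + (h : K)) (k := -(h : K)) hA1 hB hL hL0 hB0 hR h0 hs hs' (hA' _ hgy)
            (by linarith) (by rw [y15b_neg]; linarith)
          rw [y15b_neg, add_neg_cancel_right, norm_sub_rev] at h5
          refine h5.trans ?_
          have h6 : house ((x : K) + (h : K)) ^ (-E) ≤ 4 ^ E * (1 + house (x : K)) ^ (-E) :=
            y15b_cmp (by linarith) hE0 (by linarith) (by norm_num) (by linarith)
          calc M * (A' * house (h : K)) * A' ^ R * house ((x : K) + (h : K)) ^ (-E)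
              ≤ C1 * (4 ^ E * (1 + house (x : K)) ^ (-E)) := mul_le_mul_of_nonneg_left h6 hC10
            _ = C1 * 4 ^ E * (1 + house (x : K)) ^ (-E) := by ring
      · have h5 := y15b_near (z := (x : K)) (k := (h : K)) hA1 hB hL hL0 hB0 hR h0 hs hs' (hA' _ hgx) hx1 (by linarith)
        refine h5.trans ?_
        have h6 : house (x : K) ^ (-E) ≤ 4 ^ E * (1 + house (x : K)) ^ (-E) :=
          y15b_cmp (by linarith) hE0 (by linarith) (by norm_num) (by linarith)
        calc M * (A' * house (h : K)) * A' ^ R * house (x : K) ^ (-E)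
            ≤ C1 * (4 ^ E * (1 + house (x : K)) ^ (-E)) := mul_le_mul_of_nonneg_left h6 hC10
          _ = C1 * 4 ^ E * (1 + house (x : K)) ^ (-E) := by ring
    have h7 : 0 ≤ 2 * B * (1 + T) ^ E * (1 + house (x : K)) ^ (-E) := by positivity
    rw [add_mul]
    linarith
  · rw [not_le] at hc
    have h1 : ‖Fs g s ((x : K) + (h : K)) - Fs g s (x : K)‖ ≤ 2 * B := by
      have h2 := y15b_triv hB hg (h0.trans hs') x
      have h3 := y15b_triv hB hg (h0.trans hs') (x + h)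
      have e : ((x + h : 𝓞 K) : K) = (x : K) + (h : K) := rfl
      rw [e] at h3
      have h4 := norm_sub_le (Fs g s ((x : K) + (h : K))) (Fs g s (x : K))
      linarith
    have h2 : 1 ≤ (1 + T) ^ E * (1 + house (x : K)) ^ (-E) := by
      rw [Real.rpow_neg (by linarith), ← div_eq_mul_inv, one_le_div (by positivity)]
      exact Real.rpow_le_rpow (by linarith) (by linarith) hE0
    have h3 : 2 * B ≤ 2 * B * ((1 + T) ^ E * (1 + house (x : K)) ^ (-E)) := le_mul_of_one_le_right (by positivity) h2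
    have h4 : 0 ≤ C1 * 4 ^ E * (1 + house (x : K)) ^ (-E) := by positivity
    rw [add_mul]
    linarith

end CFTY
end
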