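import Mathlib
import Pool.Agent.Lib.H1M.RC.M008

/-! Merged copies (to shorten the build) of Lib.CFT.B09, Lib.H69H.G3, Lib.H69H.G5, Lib.H69H.G1, Lib.H69H.G4, Lib.H69H.G6, Lib.H69H.U3, Lib.H69H.U4, Lib.H69H.U5, Lib.CFT.B12, Lib.CFT.B16, Lib.CFT.B17, Lib.H69H.G2, Lib.H69H.U6, Lib.H69H.T1, Lib.CFT.X00, Lib.CFT.X12, Lib.CFT.Y19, Lib.CFT.Y23. -/

-- from Lib.CFT.B09
section

/-! # CFT module B, chunk B09: norm of the conorm -/

open NumberField IsDedekindDomain

namespace CFT

variable {K : Type} [Field K] [NumberField K] {L : Type} [Field L] [NumberField L] [Algebra K L]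


theorem b09_sum (v : Pr K) : ∑ w ∈ abv L v, w.asIdeal.ramificationIdx (𝓞 K) * w.asIdeal.inertiaDeg (𝓞 K) =
    Module.finrank K L := by
  classical
  have hfin : (v.asIdeal.primesOver (𝓞 L)).Finite := IsDedekindDomain.primesOver_finite v.asIdeal (𝓞 L)
  haveI : Fintype (v.asIdeal.primesOver (𝓞 L)) := hfin.fintype
  haveI := v.isPrime
  have h1 := Ideal.sum_ramification_inertia_eq_finrank v.asIdeal (𝓞 L)
  have h2 : Module.finrank K L = Module.finrank (𝓞 K) (𝓞 L) := IsFractionRing.finrank_eq (𝓞 K) K (𝓞 L) L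
  rw [h2, ← h1]
  refine Finset.sum_bij (fun w hw => ⟨w.asIdeal, w.isPrime, ⟨?_⟩⟩) ?_ ?_ ?_ ?_
  · have h3 : below K w = v := (mem_abv v w).1 hw
    rw [← h3]
    rfl
  · intro w hw
    exact Finset.mem_univ _
  · intro a ha b hb hab
    exact HeightOneSpectrum.ext (congrArg Subtype.val hab)
  · rintro ⟨Q, hQ, hQv⟩ _
    have hne : Q ≠ ⊥ := Ideal.ne_bot_of_mem_primesOver v.ne_bot ⟨hQ, hQv⟩
    refine ⟨⟨Q, hQ, hne⟩, (mem_abv v _).2 ?_, rfl⟩
    apply HeightOneSpectrum.ext
    exact hQv.over.symm
  · intro w hw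
    rfl

/-- PROOF. Finsupp.addHom_ext; Cn_single, Nd_single (D2): the coefficient is the sum over the primes w above v of f(w) e(w) = [L : K] (Ideal.sum_ramification_inertia, over
primesOverFinset: change the index set by the injection w to w.asIdeal). -/
theorem Nd_Cn (D : Dv K) : Nd K L (Cn K L D) = Module.finrank K L • D := by
  have h : (Nd K L).comp (Cn K L) = Module.finrank K L • AddMonoidHom.id (Dv K) := by
    refine Finsupp.addHom_ext fun v n => ?_
    rw [AddMonoidHom.comp_apply, Cn_single, map_sum, AddMonoidHom.smul_apply, AddMonoidHom.id_apply,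
      Finsupp.smul_single, ← b09_sum (L := L) v]
    have h1 : ∀ w ∈ abv L v, Nd K L (Finsupp.single w ((w.asIdeal.ramificationIdx (𝓞 K) : ℤ) * n)) =
        Finsupp.single v (((w.asIdeal.ramificationIdx (𝓞 K) * w.asIdeal.inertiaDeg (𝓞 K) : ℕ) : ℤ) * n) := by
      intro w hw
      rw [Nd_single, (mem_abv v w).1 hw]
      congr 1
      push_cast
      ring
    rw [Finset.sum_congr rfl h1, ← Finsupp.single_finsetSum, ← Finset.sum_mul, ← Nat.cast_sum, nsmul_eq_mul]
  exact DFunLike.congr_fun h D



/-- PROOF. Nd_Cn. -/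
theorem n_mem_Nd (D : Dv K) : Module.finrank K L • D ∈ (Nd K L).range := by
 exact ⟨Cn K L D, Nd_Cn D⟩

/-- PROOF. Write D as the sum of D w single w and use Nd_single; the coefficient at v is the sum over the w above v. -/
theorem Nd_apply (D : Dv L) (v : Pr K) : Nd K L D v = ∑ w ∈ abv L v, (w.asIdeal.inertiaDeg (𝓞 K) : ℤ) * D w := by
  have h : (Finsupp.applyAddHom v).comp (Nd K L) =
      ∑ w ∈ abv L v, (AddMonoidHom.mulLeft (w.asIdeal.inertiaDeg (𝓞 K) : ℤ)).comp (Finsupp.applyAddHom w) := by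
    classical
    refine Finsupp.addHom_ext fun u n => ?_
    rw [AddMonoidHom.comp_apply, Nd_single, AddMonoidHom.finsetSum_apply]
    have h1 : ∀ w ∈ abv L v, ((AddMonoidHom.mulLeft (w.asIdeal.inertiaDeg (𝓞 K) : ℤ)).comp (Finsupp.applyAddHom w))
        (Finsupp.single u n) = if u = w then (u.asIdeal.inertiaDeg (𝓞 K) : ℤ) * n else 0 := by
      intro w _
      show (w.asIdeal.inertiaDeg (𝓞 K) : ℤ) * (Finsupp.single u n : Dv L) w = _
      rw [Finsupp.single_apply]
      by_cases huw : u = w
      · rw [huw]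
        simp
      · rw [if_neg huw, if_neg huw, mul_zero]
    rw [Finset.sum_congr rfl h1, Finset.sum_ite_eq]
    show (Finsupp.single (below K u) ((u.asIdeal.inertiaDeg (𝓞 K) : ℤ) * n) : Dv K) v = _
    rw [Finsupp.single_apply]
    by_cases hv : below K u = v
    · rw [if_pos hv, if_pos ((mem_abv v u).2 hv)]
    · rw [if_neg hv, if_neg (fun h2 => hv ((mem_abv v u).1 h2))]
  have h2 := DFunLike.congr_fun h D
  rw [AddMonoidHom.finsetSum_apply] at h2
  exact h2

end CFT
end

-- from Lib.H69H.G3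
section

set_option autoImplicit false
set_option linter.unusedSectionVars false

namespace Pool.Agent.H69H

open NumberField IsDedekindDomain CFT

variable {X : Type*} [CommGroup X]

/-- `dif s (nrm n s x) = s^n x / x = 1` and `nrm n s (dif s x) = s^n x / x = 1`. PROOF: both products telescope
(`Finset.prod_range_div`, or `Finset.prod_range_succ'` and `Finset.prod_range_succ`); `s (∏ i, s^[i] x) = ∏ i, s^[i+1] x` by `map_prod`
and `Function.iterate_succ_apply'`; `s^[i] (s x / x) = s^[i+1] x / s^[i] x` (`iterate_map_div`). -/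
theorem isPair_dif_nrm (s : X →* X) {n : ℕ} (hn : ∀ x, s^[n] x = x) : IsPair (dif s) (nrm n s) := by
  have h1 : ∀ x, s (nrm n s x) = ∏ i ∈ Finset.range n, s^[i + 1] x := by
    intro x
    rw [nrm_apply, map_prod]
    refine Finset.prod_congr rfl fun i _ => ?_
    rw [Function.iterate_succ_apply']
  have h2 : ∀ x, (∏ i ∈ Finset.range n, s^[i + 1] x) / (∏ i ∈ Finset.range n, s^[i] x) = 1 := by
    intro x
    rw [← Finset.prod_div_distrib, Finset.prod_range_div (fun i => s^[i] x), hn]
    simp
  refine ⟨fun x => ?_, fun x => ?_⟩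
  · rw [dif_apply, h1, nrm_apply, h2]
  · rw [dif_apply, nrm_apply, ← h2 x, ← Finset.prod_div_distrib]
    refine Finset.prod_congr rfl fun i _ => ?_
    rw [iterate_map_div, Function.iterate_succ_apply]

/-- A subgroup stable under `s` is stable under `dif s` and `nrm n s`. -/
theorem isStable_of (s : X →* X) (n : ℕ) {A : Subgroup X} (h : ∀ x ∈ A, s x ∈ A) : IsStable (dif s) (nrm n s) A := by
  have h1 : ∀ i : ℕ, ∀ x ∈ A, s^[i] x ∈ A := by
    intro i
    induction i with
    | zero => intro x hx; exact hx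
    | succ i ih =>
      intro x hx
      rw [Function.iterate_succ_apply]
      exact ih _ (h x hx)
  refine ⟨fun x hx => ?_, fun x hx => ?_⟩
  · rw [dif_apply]
    exact A.div_mem (h x hx) hx
  · rw [nrm_apply]
    exact A.prod_mem fun i _ => h1 i x hx

/-- If `s x = x` then `nrm n s x = x ^ n`. -/
theorem nrm_of_fixed (s : X →* X) (n : ℕ) {x : X} (h : s x = x) : nrm n s x = x ^ n := by
  rw [nrm_apply]
  have h1 : ∀ i : ℕ, s^[i] x = x := by
    intro i
    exact Function.iterate_fixed h i
  simp [h1]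

/-- `x ^ n / nrm n s x` is of the form `dif s y`, with `y` a product of elements `s^[i] x` and inverses: `x / s^[i] x` is the inverse of
`dif s (∏ j in range i, s^[j] x)`. So `y ∈ A` if `A` is stable under `s` and `x ∈ A`. -/
theorem exists_dif (s : X →* X) (n : ℕ) {A : Subgroup X} (h : ∀ x ∈ A, s x ∈ A) {x : X} (hx : x ∈ A) :
    ∃ y ∈ A, x ^ n / nrm n s x = dif s y := by
  have hA := isStable_of s n h
  have h1 : ∀ i : ℕ, ∃ y ∈ A, x / s^[i] x = dif s y := by
    intro i
    refine ⟨(nrm i s x)⁻¹, A.inv_mem ((isStable_of s i h).right x hx), ?_⟩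
    rw [map_inv, dif_apply, nrm_apply, map_prod, ← Finset.prod_div_distrib, ← Finset.prod_inv_distrib]
    have h2 := Finset.prod_range_div (fun j => (s^[j] x)⁻¹) i
    simp only [Function.iterate_zero, id] at h2
    rw [← inv_div, div_eq_mul_inv, ← inv_inv x]
    rw [inv_inv, ← div_eq_mul_inv]
    calc (s^[i] x / x)⁻¹ = (s^[i] x)⁻¹ / x⁻¹ := by
          rw [inv_div, div_eq_mul_inv, div_eq_mul_inv, inv_inv, mul_comm]
      _ = _ := h2.symm
      _ = _ := by
          refine Finset.prod_congr rfl fun j _ => ?_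
          rw [← Function.iterate_succ_apply' s j x, div_eq_mul_inv, div_eq_mul_inv, mul_inv]
  choose y hy h2 using h1
  refine ⟨∏ i ∈ Finset.range n, y i, A.prod_mem fun i _ => hy i, ?_⟩
  rw [map_prod, nrm_apply]
  rw [← Finset.prod_congr rfl fun i _ => h2 i, Finset.prod_div_distrib, Finset.prod_const, Finset.card_range]

end Pool.Agent.H69H
end

-- from Lib.H69H.G5
section

set_option autoImplicit false
set_option linter.unusedSectionVars false

namespace Pool.Agent.H69H

open NumberField IsDedekindDomain CFT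

variable {X : Type*} [CommGroup X]

/-- PROOF. On `B = zpowers c` the map `dif s` is trivial and `nrm n s` is `x ↦ x ^ n`. So `tate (dif s) (nrm n s) ⊥ B` is the index of the group
of n-th powers in `zpowers c`, that is `n` (`zpowers (c ^ n)`; c has infinite order; for example `Subgroup.relIndex` computed through
`zmultiples`/`Int.index_zmultiples` and the isomorphism `ℤ ≅ zpowers c`, or by an explicit count: the classes of `c ^ i`, `0 ≤ i < n`), and
`tate (nrm n s) (dif s) ⊥ B` is the index of the trivial group in `{x ∈ zpowers c | x ^ n = 1}`, the trivial group: `1`. -/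
theorem her_zpowers (s : X →* X) {n : ℕ} (hn0 : n ≠ 0) {c : X} (hc : s c = c) (hinf : ∀ i : ℤ, c ^ i = 1 → i = 0) :
    Her (dif s) (nrm n s) ⊥ (Subgroup.zpowers c) n := by
  have hfix : ∀ x ∈ Subgroup.zpowers c, s x = x := by
    rintro _ ⟨i, rfl⟩
    show s (c ^ i) = c ^ i
    rw [map_zpow, hc]
  have e1 : Subgroup.zpowers c ⊓ (⊥ : Subgroup X).comap (dif s) = Subgroup.zpowers c := by
    refine inf_eq_left.2 fun x hx => ?_
    rw [Subgroup.mem_comap, Subgroup.mem_bot, dif_apply, hfix x hx, div_self']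
  have hφ : Function.Injective (zpowersHom X c) := by
    rw [injective_iff_map_eq_one]
    intro i hi
    rw [zpowersHom_apply] at hi
    exact hinf _ hi
  have e2 : (Subgroup.zpowers c).map (nrm n s) ⊔ ⊥ =
      ((AddSubgroup.zmultiples (n : ℤ)).toSubgroup).map (zpowersHom X c) := by
    rw [sup_bot_eq]
    ext x
    constructor
    · rintro ⟨y, hy, rfl⟩
      obtain ⟨i, rfl⟩ := hy
      refine ⟨Multiplicative.ofAdd (i * n), ⟨i, by simp [mul_comm]⟩, ?_⟩
      rw [zpowersHom_apply, toAdd_ofAdd, nrm_of_fixed s n (hfix _ ⟨i, rfl⟩)]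
      show c ^ (i * (n : ℤ)) = (c ^ i) ^ n
      rw [zpow_mul, zpow_natCast]
    · rintro ⟨y, ⟨i, hi⟩, rfl⟩
      refine ⟨c ^ i, ⟨i, rfl⟩, ?_⟩
      have hi : i * (n : ℤ) = Multiplicative.toAdd y := by simpa using hi
      rw [zpowersHom_apply, ← hi, nrm_of_fixed s n (hfix _ ⟨i, rfl⟩), zpow_mul, zpow_natCast]
  have e3 : Subgroup.zpowers c = (⊤ : Subgroup (Multiplicative ℤ)).map (zpowersHom X c) := by
    ext x
    constructor
    · rintro ⟨i, rfl⟩
      exact ⟨Multiplicative.ofAdd i, trivial, rfl⟩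
    · rintro ⟨y, _, rfl⟩
      exact ⟨Multiplicative.toAdd y, rfl⟩
  have t1 : tate (dif s) (nrm n s) ⊥ (Subgroup.zpowers c) = n := by
    unfold tate
    rw [e1, e2, e3, Subgroup.relIndex_map_map_of_injective _ _ hφ, Subgroup.relIndex_top_right, AddSubgroup.index_toSubgroup,
      Int.index_zmultiples, Int.natAbs_natCast]
  have t2 : tate (nrm n s) (dif s) ⊥ (Subgroup.zpowers c) = 1 := by
    unfold tate
    rw [Subgroup.relIndex_eq_one]
    rintro x ⟨hx, h2⟩
    have h2 : nrm n s x = 1 := h2
    rw [nrm_of_fixed s n (hfix x hx)] at h2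
    obtain ⟨i, rfl⟩ := hx
    have h3 : c ^ (i * (n : ℤ)) = 1 := by
      rw [zpow_mul, zpow_natCast]
      exact h2
    have h4 := hinf _ h3
    have h5 : i = 0 := by
      rcases mul_eq_zero.1 h4 with h | h
      · exact h
      · exact absurd (by exact_mod_cast h) hn0
    subst h5
    show c ^ (0 : ℤ) ∈ _
    rw [zpow_zero]
    exact Subgroup.one_mem _
  refine ⟨by rw [t1]; exact hn0, by rw [t2]; exact one_ne_zero, by rw [t1, t2]; simp⟩

end Pool.Agent.H69H
end

-- from Lib.H69H.G1
section

set_option autoImplicit false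
set_option linter.unusedSectionVars false

namespace Pool.Agent.H69H

open NumberField IsDedekindDomain CFT

variable {X : Type*} [CommGroup X]

/-- `Q` finitely generated, `P ≤ Q`, `x ^ n ∈ P` for all `x ∈ Q`: the index of `P` in `Q` is finite. PROOF: the quotient `Q / P` (for example
`Q ⧸ P.subgroupOf Q`) is a finitely generated commutative torsion group, so finite: Mathlib `CommGroup.finite_of_fg_torsion`. -/
theorem relIndex_ne_zero_of_fg {P Q : Subgroup X} (hPQ : P ≤ Q) (hfg : Q.FG) {n : ℕ} (hn : n ≠ 0)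
    (h : ∀ x ∈ Q, x ^ n ∈ P) : P.relIndex Q ≠ 0 := by
  haveI : Group.FG Q := (Group.fg_iff_subgroup_fg Q).2 hfg
  have ht : Monoid.IsTorsion (Q ⧸ P.subgroupOf Q) := by
    intro x
    obtain ⟨x, rfl⟩ := QuotientGroup.mk_surjective x
    rw [isOfFinOrder_iff_pow_eq_one]
    refine ⟨n, Nat.pos_of_ne_zero hn, ?_⟩
    rw [← QuotientGroup.mk_pow, QuotientGroup.eq_one_iff, Subgroup.mem_subgroupOf]
    exact h x x.2
  haveI : Finite (Q ⧸ P.subgroupOf Q) := CommGroup.finite_of_fg_torsion _ ht
  exact Subgroup.index_ne_zero_of_finite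

end Pool.Agent.H69H
end

-- from Lib.H69H.G4
section

set_option autoImplicit false
set_option linter.unusedSectionVars false

namespace Pool.Agent.H69H

open NumberField IsDedekindDomain CFT

variable {X : Type*} [CommGroup X]

theorem g4_fg_of_le {P Q : Subgroup X} (h : P ≤ Q) (hQ : Q.FG) : P.FG := by
  rw [Subgroup.fg_iff_add_fg] at hQ ⊢
  have hQ' : (AddSubgroup.toIntSubmodule Q.toAddSubgroup).FG := (Submodule.fg_iff_addSubgroup_fg _).2 hQ
  have := isNoetherian_of_fg_of_noetherian _ hQ'
  exact (Submodule.fg_iff_addSubgroup_fg (AddSubgroup.toIntSubmodule P.toAddSubgroup)).1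
    (isNoetherian_submodule.1 this _ (fun x hx => h hx))

/-- PROOF. `tate f g A B = (B.map g ⊔ A).relIndex (B ⊓ A.comap f)`. By `relIndex_ne_zero_of_fg` (G1) it is enough: the inclusion; `B ⊓ A.comap f` is
finitely generated (a subgroup of a finitely generated commutative group: ℤ is Noetherian; Mathlib: `Subgroup.fg_of_le`-like statement or
`AddSubgroup`/`Submodule ℤ` version with `IsNoetherian ℤ`), and `x ^ n` is in `B.map g ⊔ A` for `x ∈ B ⊓ A.comap f`. First group (`f = dif s`,
`g = nrm n s`): `s x = x a`, `a ∈ A`, so `s^[i] x = x a_i`, `a_i ∈ A` (induction, `A` stable) and `nrm n s x = x ^ n a'`, `a' ∈ A`. Second group (`f = nrm`, `g = dif`):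
`x ^ n = (x ^ n / nrm n s x) * nrm n s x`, the first factor is `dif s y`, `y ∈ B` (`exists_dif`, G3), the second is in `A`. -/
theorem tate_fg (s : X →* X) {n : ℕ} (hn0 : n ≠ 0) (hn : ∀ x, s^[n] x = x) {A B : Subgroup X}
    (hA : ∀ x ∈ A, s x ∈ A) (hB : ∀ x ∈ B, s x ∈ B) (hAB : A ≤ B) (hfg : B.FG) :
    tate (dif s) (nrm n s) A B ≠ 0 ∧ tate (nrm n s) (dif s) A B ≠ 0 := by
  have hB' := isStable_of s n hB
  have key : ∀ x, dif s x ∈ A → ∀ i : ℕ, s^[i] x / x ∈ A := by
    intro x hx i
    induction i with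
    | zero => simp
    | succ i ih =>
      have h1 := A.mul_mem (hA _ ih) hx
      rw [map_div, ← Function.iterate_succ_apply' s i x, dif_apply, div_mul_div_cancel] at h1
      exact h1
  have hp := isPair_dif_nrm s hn
  constructor
  · refine relIndex_ne_zero_of_fg ?_ (g4_fg_of_le inf_le_left hfg) hn0 ?_
    · refine sup_le (le_inf ?_ ?_) (le_inf hAB fun x hx => ((isStable_of s n hA).left x hx))
      · rintro _ ⟨x, hx, rfl⟩
        exact hB'.right x hx
      · rintro _ ⟨x, hx, rfl⟩
        show dif s (nrm n s x) ∈ A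
        rw [hp.fg]
        exact A.one_mem
    · rintro x ⟨h1, h2⟩
      have h3 : nrm n s x / x ^ n ∈ A := by
        have h4 : nrm n s x / x ^ n = ∏ i ∈ Finset.range n, (s^[i] x / x) := by
          rw [nrm_apply, Finset.prod_div_distrib, Finset.prod_const, Finset.card_range]
        rw [h4]
        exact A.prod_mem fun i _ => key x h2 i
      have h5 : x ^ n = nrm n s x * (nrm n s x / x ^ n)⁻¹ := by
        rw [inv_div, mul_div_cancel]
      rw [h5]
      exact Subgroup.mul_mem_sup ⟨x, h1, rfl⟩ (A.inv_mem h3)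
  · refine relIndex_ne_zero_of_fg ?_ (g4_fg_of_le inf_le_left hfg) hn0 ?_
    · refine sup_le (le_inf ?_ ?_) (le_inf hAB fun x hx => ((isStable_of s n hA).right x hx))
      · rintro _ ⟨x, hx, rfl⟩
        exact hB'.left x hx
      · rintro _ ⟨x, hx, rfl⟩
        show nrm n s (dif s x) ∈ A
        rw [hp.gf]
        exact A.one_mem
    · rintro x ⟨h1, h2⟩
      obtain ⟨y, hy, h3⟩ := exists_dif s n hB h1
      have h5 : x ^ n = dif s y * nrm n s x := by
        rw [← h3, div_mul_cancel]
      rw [h5]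
      exact Subgroup.mul_mem_sup ⟨y, hy, rfl⟩ h2

end Pool.Agent.H69H
end

-- from Lib.H69H.G6
section

set_option autoImplicit false
set_option linter.unusedSectionVars false

namespace Pool.Agent.H69H

open NumberField IsDedekindDomain CFT

theorem g6_bound {X Y : Type*} [CommGroup X] [CommGroup Y] [Finite Y] (p : X →* Y) {P Q : Subgroup X} (h : Q ⊓ p.ker ≤ P) :
    P.relIndex Q ≤ Nat.card Y := by
  have h1 : (Q ⊓ p.ker).relIndex Q = Nat.card (Q.map p) := by
    rw [Subgroup.inf_relIndex_left, Subgroup.relIndex_ker]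
  have h2 : (Q ⊓ p.ker).relIndex Q ≠ 0 := by
    rw [h1]
    exact Nat.card_pos.ne'
  refine (Subgroup.relIndex_le_of_le_left h h2).trans ?_
  rw [h1]
  exact Nat.card_le_card_of_injective _ Subtype.val_injective

/-- `W` is a finite set with a permutation `s`, `s^n = 1`, whose orbits are the fibres of `q`; for `w, w'` in the same fibre the number of `i < n`
with `s^i w = w'` is `2` if `q w ∈ R` and `1` otherwise. CLAIM: the Herbrand quotient of the group `W → ℤ` exists and is at most `2 ^ R.card`.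
PROOF. Existence: `exists_her` (A1) and `tate_fg` (G4) (`⊤` is finitely generated; `sW s` iterated `n` times is the identity). The quotient is
`tate (dif) (nrm) / tate (nrm) (dif)`, the second is at least `1`, so it is at most `H := tate (dif (sW s)) (nrm n (sW s)) ⊥ ⊤`, which is
`(range nrm).relIndex (ker dif)`. BOUND of `H`: choose `c v ∈ W` with `q (c v) = v` (`hq`). The homomorphism `p : ker dif → (R → ZMod 2)`,
`x ↦ (x (c v) mod 2)`. Its kernel is contained in the range of `nrm`: `x ∈ ker dif` is constant on the fibres of `q` (`hc` gives transitivity: the number is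
not `0`); let `y w = x w` if `w = c (q w)` and `q w ∉ R`, `y w = x w / 2` if `w = c (q w)` and `q w ∈ R`, and `0` otherwise. Then
`(nrm y) w' = ∑_{i<n} y (s^{-i} w') = ∑_w y w * #{i < n | s^i w = w'} = y (c (q w')) * (2 or 1) = x w'`. So the index is at most the number
`2 ^ R.card` of elements of `R → ZMod 2` (for example `Subgroup.index_ker`, `Subgroup.relIndex_le_of_le_left`, `Nat.card_le_card_of_injective`). -/
theorem tate_perm {W V : Type*} [Fintype W] [DecidableEq W] [DecidableEq V] (q : W → V) (hq : Function.Surjective q)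
    (s : W ≃ W) {n : ℕ} (hn0 : n ≠ 0) (hn : ∀ w, s^[n] w = w) (R : Finset V) (hs : ∀ w, q (s w) = q w)
    (hc : ∀ w w', q w = q w' → ((Finset.range n).filter fun i => s^[i] w = w').card = if q w ∈ R then 2 else 1) :
    ∃ t : ℚ, Her (dif (sW s)) (nrm n (sW s)) ⊥ ⊤ t ∧ t ≤ 2 ^ R.card := by
  have hit : ∀ (i : ℕ) (x : Multiplicative (W → ℤ)) (w : W),
      Multiplicative.toAdd ((sW s)^[i] x) w = Multiplicative.toAdd x (s.symm^[i] w) := by
    intro i
    induction i with
    | zero => intro x w; rfl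
    | succ i ih =>
      intro x w
      rw [Function.iterate_succ_apply', sW_apply, ih, Function.iterate_succ_apply]
  have hss : ∀ (i : ℕ) (w w' : W), s.symm^[i] w' = w ↔ s^[i] w = w' := by
    intro i w w'
    have h1 : Function.LeftInverse s.symm^[i] s^[i] := Function.LeftInverse.iterate s.symm_apply_apply i
    have h2 : Function.LeftInverse s^[i] s.symm^[i] := Function.LeftInverse.iterate s.apply_symm_apply i
    constructor
    · rintro rfl
      exact h2 w'
    · rintro rfl
      exact h1 w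
  have hnn : ∀ x : Multiplicative (W → ℤ), (sW s)^[n] x = x := by
    intro x
    apply Multiplicative.toAdd.injective
    funext w
    rw [hit, (hss n w w).2 (hn w)]
  haveI : AddGroup.FG (W → ℤ) := Module.Finite.iff_addGroup_fg.1 inferInstance
  have hfg : (⊤ : Subgroup (Multiplicative (W → ℤ))).FG := Group.fg_def.1 (AddGroup.fg_iff_mul_fg.1 inferInstance)
  obtain ⟨t1, t2⟩ := tate_fg (sW s) hn0 hnn (A := ⊥) (B := ⊤) (fun x hx => by
    rw [Subgroup.mem_bot] at hx ⊢
    rw [hx, map_one]) (fun _ _ => trivial) bot_le hfg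
  obtain ⟨t, ht⟩ := exists_her t1 t2
  refine ⟨t, ht, ?_⟩
  have hb : tate (dif (sW s)) (nrm n (sW s)) ⊥ ⊤ ≤ 2 ^ R.card := by
    unfold tate
    obtain ⟨c, hcq⟩ := hq.hasRightInverse
    let p : Multiplicative (W → ℤ) →* Multiplicative (R → ZMod 2) := AddMonoidHom.toMultiplicative
      { toFun := fun x v => ((x (c v) : ℤ) : ZMod 2)
        map_zero' := by
          funext v
          simp
        map_add' := fun x y => by
          funext v
          simp }
    have hcard : Nat.card (Multiplicative (R → ZMod 2)) = 2 ^ R.card := by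
      rw [show Nat.card (Multiplicative (R → ZMod 2)) = Nat.card (R → ZMod 2) from rfl, Nat.card_pi]
      simp
    refine (g6_bound p ?_).trans_eq hcard
    rintro x ⟨⟨_, h1⟩, h2⟩
    have h1 : dif (sW s) x = 1 := h1
    have h2 : p x = 1 := h2
    rw [dif_apply, div_eq_one] at h1
    have h3 : ∀ w, Multiplicative.toAdd x (s w) = Multiplicative.toAdd x w := by
      intro w
      have h4 := sW_apply s x (s w)
      rw [h1, s.symm_apply_apply] at h4
      exact h4
    have h4 : ∀ (i : ℕ) (w : W), Multiplicative.toAdd x (s^[i] w) = Multiplicative.toAdd x w := by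
      intro i
      induction i with
      | zero => intro w; rfl
      | succ i ih =>
        intro w
        rw [Function.iterate_succ_apply', h3, ih]
    have h5 : ∀ w w', q w = q w' → Multiplicative.toAdd x w = Multiplicative.toAdd x w' := by
      intro w w' hw
      have h6 := hc w w' hw
      have h7 : ((Finset.range n).filter fun i => s^[i] w = w').Nonempty := by
        rw [← Finset.card_pos, h6]
        split_ifs <;> norm_num
      obtain ⟨i, hi⟩ := h7
      rw [← (Finset.mem_filter.1 hi).2, h4]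
    have h6 : ∀ v ∈ R, ∃ k : ℤ, Multiplicative.toAdd x (c v) = 2 * k := by
      intro v hv
      have h7 : ((Multiplicative.toAdd x (c v) : ℤ) : ZMod 2) = 0 := congrFun (congrArg Multiplicative.toAdd h2) ⟨v, hv⟩
      rw [ZMod.intCast_zmod_eq_zero_iff_dvd] at h7
      exact h7
    have hqs : ∀ (i : ℕ) (w : W), q (s^[i] w) = q w := by
      intro i
      induction i with
      | zero => intro w; rfl
      | succ i ih =>
        intro w
        rw [Function.iterate_succ_apply', hs, ih]
    refine Subgroup.mem_sup_left ⟨Multiplicative.ofAdd fun w => if w = c (q w) then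
      (if q w ∈ R then Multiplicative.toAdd x w / 2 else Multiplicative.toAdd x w) else 0, trivial, ?_⟩
    apply Multiplicative.toAdd.injective
    funext w'
    rw [nrm_apply, toAdd_prod, Finset.sum_apply]
    have h8 : ∀ i ∈ Finset.range n, Multiplicative.toAdd ((sW s)^[i] (Multiplicative.ofAdd fun w => if w = c (q w) then
      (if q w ∈ R then Multiplicative.toAdd x w / 2 else Multiplicative.toAdd x w) else 0)) w' =
        if s^[i] (c (q w')) = w' then (if q w' ∈ R then Multiplicative.toAdd x w' / 2 else Multiplicative.toAdd x w') else 0 := by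
      intro i _
      rw [hit, toAdd_ofAdd]
      have h9 : q (s.symm^[i] w') = q w' := by
        have h10 := hqs i (s.symm^[i] w')
        rw [(hss i (s.symm^[i] w') w').1 rfl] at h10
        exact h10.symm
      show (if s.symm^[i] w' = c (q (s.symm^[i] w')) then
        (if q (s.symm^[i] w') ∈ R then Multiplicative.toAdd x (s.symm^[i] w') / 2 else Multiplicative.toAdd x (s.symm^[i] w')) else 0) = _
      rw [h9, h5 _ _ h9]
      simp only [hss]
    rw [Finset.sum_congr rfl h8, ← Finset.sum_filter, Finset.sum_const, hc _ _ (hcq (q w')), hcq (q w')]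
    split_ifs with h9
    · obtain ⟨k, hk⟩ := h6 _ h9
      rw [h5 _ _ (hcq (q w'))] at hk
      rw [hk]
      simp
    · simp
  have h1 : (1 : ℚ) ≤ tate (nrm n (sW s)) (dif (sW s)) ⊥ ⊤ := by
    exact_mod_cast Nat.one_le_iff_ne_zero.2 t2
  have h2 : (tate (dif (sW s)) (nrm n (sW s)) ⊥ ⊤ : ℚ) ≤ 2 ^ R.card := by exact_mod_cast hb
  have h3 := ht.eq
  have h4 := ht.pos
  nlinarith

end Pool.Agent.H69H
end

-- from Lib.H69H.U3
section

set_option autoImplicit false
set_option linter.unusedSectionVars false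

namespace Pool.Agent.H69H

open NumberField IsDedekindDomain CFT

variable {K : Type} [Field K] [NumberField K] {L : Type} [Field L] [NumberField L] [Algebra K L]

theorem u3_UL_eq (L : Type) [Field L] [NumberField L] : UL L = (Units.map (algebraMap (𝓞 L) L : 𝓞 L →* L)).range := by
  ext x
  constructor
  · intro hx
    have h1 : dvU L x = 1 := hx
    have h2 : dv (x : L) = 0 := by
      rw [dvU_apply] at h1
      exact h1
    obtain ⟨u, hu⟩ := unit_of_dv x.ne_zero h2
    exact ⟨u, Units.ext hu⟩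
  · rintro ⟨u, rfl⟩
    show dvU L _ = 1
    rw [dvU_apply]
    exact dv_unit u

/-- The units. -/
noncomputable def u3_equiv (L : Type) [Field L] [NumberField L] : (𝓞 L)ˣ ≃* UL L :=
  (MonoidHom.ofInjective (f := Units.map (algebraMap (𝓞 L) L : 𝓞 L →* L))
    (Units.map_injective (FaithfulSMul.algebraMap_injective (𝓞 L) L))).trans
    (MulEquiv.subgroupCongr (u3_UL_eq L).symm)

theorem u3_finrank (L : Type) [Field L] [NumberField L] : Module.finrank ℤ (Additive (UL L)) = NumberField.Units.rank L := by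
  rw [← NumberField.Units.finrank_eq]
  exact (LinearEquiv.finrank_eq (AddEquiv.toIntLinearEquiv (MulEquiv.toAdditive (u3_equiv L)))).symm

theorem u3_finite (L : Type) [Field L] [NumberField L] : Module.Finite ℤ (Additive (UL L)) :=
  Module.Finite.equiv (AddEquiv.toIntLinearEquiv (MulEquiv.toAdditive (u3_equiv L)))

/-- The linear map. -/
noncomputable def u3_f (ε : InfinitePlace L → Lˣ) (h : ∀ x, phi ε x ∈ UL L) : (InfinitePlace L → ℤ) →ₗ[ℤ] Additive (UL L) :=
  AddMonoidHom.toIntLinearMap
    { toFun := fun x => Additive.ofMul ⟨phi ε (Multiplicative.ofAdd x), h _⟩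
      map_zero' := by
        rw [← ofMul_one]
        congr 1
        exact Subtype.ext (map_one (phi ε))
      map_add' := fun x y => by
        rw [← ofMul_mul]
        congr 1
        exact Subtype.ext (map_mul (phi ε) (Multiplicative.ofAdd x) (Multiplicative.ofAdd y)) }

theorem u3_f_apply (ε : InfinitePlace L → Lˣ) (h : ∀ x, phi ε x ∈ UL L) (x : InfinitePlace L → ℤ) :
    u3_f ε h x = Additive.ofMul ⟨phi ε (Multiplicative.ofAdd x), h _⟩ := rfl

/-- The kernel is not trivial. PROOF: otherwise `phi ε` would be an injective homomorphism from a group of rank `card (InfinitePlace L)` to the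
units (`UL L`, isomorphic to `(𝓞 L)ˣ`), whose rank is `card - 1` (Mathlib `NumberField.Units.rank`, `NumberField.Units.finrank_eq :
finrank ℤ (Additive (𝓞 K)ˣ) = rank K`; `LinearMap.finrank_le_finrank_of_injective` or `LinearMap.rank_le_of_injective`). -/
theorem phi_ker_ne (ε : InfinitePlace L → Lˣ) (h1 : ∀ w, ε w ∈ UL L) :
    ∃ x : Multiplicative (InfinitePlace L → ℤ), x ≠ 1 ∧ phi ε x = 1 := by
  have hmem : ∀ x, phi ε x ∈ UL L := fun x => by
    rw [phi_apply]
    exact Subgroup.prod_mem _ fun w _ => Subgroup.zpow_mem _ (h1 w) _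
  by_contra hcon
  have hcon' : ∀ x : Multiplicative (InfinitePlace L → ℤ), phi ε x = 1 → x = 1 := by
    intro x hx
    by_contra h
    exact hcon ⟨x, h, hx⟩
  have hinj : Function.Injective (u3_f ε hmem) := by
    rw [injective_iff_map_eq_zero]
    intro x hx
    rw [u3_f_apply] at hx
    have h2 : phi ε (Multiplicative.ofAdd x) = 1 := congrArg (fun z : Additive (UL L) => ((Additive.toMul z : UL L) : Lˣ)) hx
    exact hcon' _ h2
  have := u3_finite L
  have h2 := LinearMap.finrank_le_finrank_of_injective hinj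
  rw [u3_finrank, NumberField.Units.rank, Module.finrank_fintype_fun_eq_card] at h2
  have h3 : 0 < Fintype.card (InfinitePlace L) := Fintype.card_pos
  omega

/-- The coordinates of an element of the kernel are all zero, all positive or all negative. PROOF: `sign_lemma` (U2) with
`C w' w = Real.log (w' (ε w))` and `m w' = mult w'`: `∑ w', mult w' * log (w' u) = 0` for a unit `u` (Mathlib `NumberField.Units.sum_mult_mul_log`),
`C w' w < 0` for `w' ≠ w`, and `∑_w C w' w * x w = log (w' (∏_w ε_w ^ x_w)) = 0`. -/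
theorem phi_ker_sign (ε : InfinitePlace L → Lˣ) (h1 : ∀ w, ε w ∈ UL L) (h3 : ∀ w w' : InfinitePlace L, w' ≠ w → w' (ε w : L) < 1)
    (x : Multiplicative (InfinitePlace L → ℤ)) (hx : phi ε x = 1) :
    (∀ w, Multiplicative.toAdd x w = 0) ∨ (∀ w, 0 < Multiplicative.toAdd x w) ∨ (∀ w, Multiplicative.toAdd x w < 0) := by
  have hpos : ∀ w w' : InfinitePlace L, 0 < w' (ε w : L) := fun w w' => InfinitePlace.pos_iff.2 (ε w).ne_zero
  refine sign_lemma (fun w' w => Real.log (w' (ε w : L))) (fun w => (w.mult : ℝ)) (fun w => ?_) ?_ ?_ _ ?_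
  · exact_mod_cast InfinitePlace.mult_pos
  · intro i j hij
    exact Real.log_neg (hpos j i) (h3 j i hij)
  · intro j
    have h4 := h1 j
    rw [u3_UL_eq] at h4
    obtain ⟨u, hu⟩ := h4
    have h5 := NumberField.Units.sum_mult_mul_log u
    have h6 : ((ε j : Lˣ) : L) = algebraMap (𝓞 L) L (u : 𝓞 L) := by
      rw [← hu]
      rfl
    rw [h6]
    exact h5
  · intro i
    have h4 : i ((phi ε x : Lˣ) : L) = ∏ w, i (ε w : L) ^ (Multiplicative.toAdd x w) := by
      rw [phi_apply, Units.coe_prod, map_prod]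
      exact Finset.prod_congr rfl fun w _ => by rw [Units.val_zpow_eq_zpow_val, map_zpow₀]
    rw [hx, Units.val_one, map_one] at h4
    have h5 := congrArg Real.log h4
    rw [Real.log_one, Real.log_prod (fun w _ => (zpow_pos (hpos w i) _).ne')] at h5
    rw [h5]
    refine Finset.sum_congr rfl fun w _ => ?_
    rw [Real.log_zpow, mul_comm]

end Pool.Agent.H69H
end

-- from Lib.H69H.U4
section

set_option autoImplicit false
set_option linter.unusedSectionVars false

namespace Pool.Agent.H69H

open NumberField IsDedekindDomain CFT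

variable {K : Type} [Field K] [NumberField K] {L : Type} [Field L] [NumberField L] [Algebra K L]

/-- PROOF. `phi_ker_ne`, `phi_ker_sign` (U3). Fix a place `w0`. By `phi_ker_ne` and `phi_ker_sign` (and inverses) there are elements of the kernel with
positive coordinate at `w0`; let `c` be one with the smallest such coordinate `m` (`Nat.find` or well founded minimum). If `x` is in the kernel, `x w0 = k m + r`, `0 ≤ r < m`, then
`x * c^(-k)` is in the kernel with `w0` coordinate `r`: so `r = 0` by minimality, and then all its coordinates are `0` by `phi_ker_sign`; `x = c ^ k`. `c ^ i = 1` gives `i * m = 0`.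
INVARIANCE: let `c' w = c (σ • w)`. `phi ε c' = ∏_w ε_w ^ c (σ • w) = ∏_w ε_(σ⁻¹ • w) ^ c w = σ⁻¹ (∏ ε_w ^ c w) = 1` (`h2`), so `c' = c ^ k`, and the sum of the coordinates
of `c'` and `c` is the same and positive: `k = 1`. -/
theorem phi_ker (ε : InfinitePlace L → Lˣ) (h1 : ∀ w, ε w ∈ UL L) (h2 : ∀ (σ : L ≃ₐ[K] L) w, sU σ (ε w) = ε (σ • w))
    (h3 : ∀ w w' : InfinitePlace L, w' ≠ w → w' (ε w : L) < 1) :
    ∃ c : Multiplicative (InfinitePlace L → ℤ), (phi ε).ker = Subgroup.zpowers c ∧ (∀ i : ℤ, c ^ i = 1 → i = 0) ∧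
      ∀ (σ : L ≃ₐ[K] L) w, Multiplicative.toAdd c (σ • w) = Multiplicative.toAdd c w := by
  classical
  obtain ⟨w0⟩ := (inferInstance : Nonempty (InfinitePlace L))
  let co : Multiplicative (InfinitePlace L → ℤ) → InfinitePlace L → ℤ := fun x => Multiplicative.toAdd x
  have co_mul : ∀ x y w, co (x * y) w = co x w + co y w := fun x y w => rfl
  have co_zpow : ∀ x (i : ℤ) w, co (x ^ i) w = i * co x w := fun x i w => by
    show Multiplicative.toAdd (x ^ i) w = _
    rw [toAdd_zpow, Pi.smul_apply, smul_eq_mul]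
  have co_one : ∀ w, co 1 w = 0 := fun w => rfl
  have co_ext : ∀ x y, (∀ w, co x w = co y w) → x = y := fun x y h => by
    apply Multiplicative.toAdd.injective
    funext w
    exact h w
  have sgn : ∀ x, phi ε x = 1 → (∀ w, co x w = 0) ∨ (∀ w, 0 < co x w) ∨ (∀ w, co x w < 0) :=
    fun x hx => phi_ker_sign ε h1 h3 x hx
  have hne : ∃ n : ℕ, 0 < n ∧ ∃ x, phi ε x = 1 ∧ co x w0 = n := by
    obtain ⟨x, hx1, hx2⟩ := phi_ker_ne ε h1
    rcases sgn x hx2 with h | h | h
    · exact absurd (co_ext x 1 fun w => by rw [h w, co_one]) hx1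
    · exact ⟨(co x w0).toNat, by have := h w0; omega, x, hx2, by have := h w0; omega⟩
    · refine ⟨(-co x w0).toNat, by have := h w0; omega, x ^ (-1 : ℤ), ?_, ?_⟩
      · rw [map_zpow, hx2, one_zpow]
      · rw [co_zpow]
        have := h w0
        omega
  set m := Nat.find hne with hm
  obtain ⟨hm0, c, hc1, hc2⟩ := Nat.find_spec hne
  rw [← hm] at hm0 hc2
  have hmin : ∀ k : ℕ, 0 < k → k < m → ∀ x, phi ε x = 1 → co x w0 ≠ k := by
    intro k hk hkm x hx hxk
    exact Nat.find_min hne hkm ⟨hk, x, hx, hxk⟩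
  have hker : ∀ x, phi ε x = 1 → ∃ k : ℤ, c ^ k = x := by
    intro x hx
    refine ⟨co x w0 / m, ?_⟩
    set q := co x w0 / (m : ℤ) with hq
    have hy : phi ε (x * c ^ (-q)) = 1 := by
      rw [map_mul, map_zpow, hx, hc1, one_zpow, mul_one]
    have hyw : co (x * c ^ (-q)) w0 = co x w0 % (m : ℤ) := by
      rw [co_mul, co_zpow, hc2, Int.emod_def, hq]
      ring
    have hr0 := Int.emod_nonneg (co x w0) (b := (m : ℤ)) (by omega)
    have hr1 := Int.emod_lt_of_pos (co x w0) (b := (m : ℤ)) (by omega)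
    have hr : co x w0 % (m : ℤ) = 0 := by
      by_contra hne'
      exact hmin (co x w0 % (m : ℤ)).toNat (by omega) (by omega) _ hy (by rw [hyw]; omega)
    rw [hr] at hyw
    have hy1 : x * c ^ (-q) = 1 := by
      rcases sgn _ hy with h | h | h
      · exact co_ext _ 1 fun w => by rw [h w, co_one]
      · have := h w0
        omega
      · have := h w0
        omega
    have : x = x * c ^ (-q) * c ^ q := by
      rw [mul_assoc, ← zpow_add, neg_add_cancel, zpow_zero, mul_one]
    rw [this, hy1, one_mul]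
  have hpos : ∀ w, 0 < co c w := by
    rcases sgn c hc1 with h | h | h
    · have := h w0
      omega
    · exact h
    · have := h w0
      omega
  refine ⟨c, ?_, ?_, ?_⟩
  · ext x
    rw [MonoidHom.mem_ker, Subgroup.mem_zpowers_iff]
    constructor
    · exact hker x
    · rintro ⟨k, rfl⟩
      rw [map_zpow, hc1, one_zpow]
  · intro i hi
    have h4 : co (c ^ i) w0 = 0 := by rw [hi, co_one]
    rw [co_zpow, hc2] at h4
    rcases mul_eq_zero.1 h4 with h | h
    · exact h
    · omega
  · intro σ w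
    let c' : Multiplicative (InfinitePlace L → ℤ) := Multiplicative.ofAdd fun w => co c (σ • w)
    have hc' : ∀ w, co c' w = co c (σ • w) := fun w => rfl
    have hphi : phi ε c' = 1 := by
      rw [phi_apply]
      have e1 : ∏ w, ε w ^ (Multiplicative.toAdd c' w) = ∏ w, ε (σ⁻¹ • w) ^ (co c w) := by
        rw [← Equiv.prod_comp (MulAction.toPerm (σ : L ≃ₐ[K] L)) fun w => ε (σ⁻¹ • w) ^ (co c w)]
        refine Finset.prod_congr rfl fun w _ => ?_
        show ε w ^ co c (σ • w) = ε (σ⁻¹ • σ • w) ^ co c (σ • w)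
        rw [inv_smul_smul]
      rw [e1]
      have e2 : ∏ w, ε (σ⁻¹ • w) ^ (co c w) = sU σ⁻¹ (phi ε c) := by
        rw [phi_apply, map_prod]
        refine Finset.prod_congr rfl fun w _ => ?_
        rw [← h2, map_zpow]
      rw [e2, hc1, map_one]
    obtain ⟨k, hk⟩ := hker c' hphi
    have hsum : ∑ w, co c' w = ∑ w, co c w := by
      rw [← Equiv.sum_comp (MulAction.toPerm (σ : L ≃ₐ[K] L)) fun w => co c w]
      rfl
    have hsum2 : ∑ w, co c' w = k * ∑ w, co c w := by
      rw [← hk, Finset.mul_sum]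
      exact Finset.sum_congr rfl fun w _ => co_zpow c k w
    have hS : 0 < ∑ w, co c w := Finset.sum_pos (fun w _ => hpos w) ⟨w0, Finset.mem_univ _⟩
    have hk1 : k = 1 := by
      rw [hsum] at hsum2
      have : (k - 1) * ∑ w, co c w = 0 := by linarith
      rcases mul_eq_zero.1 this with h | h
      · omega
      · omega
    rw [hk1, zpow_one] at hk
    have := hc' w
    rw [← hk] at this
    exact this.symm

end Pool.Agent.H69H
end

-- from Lib.H69H.U5
section

set_option autoImplicit false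
set_option linter.unusedSectionVars false

namespace Pool.Agent.H69H

open NumberField IsDedekindDomain CFT

variable {K : Type} [Field K] [NumberField K] {L : Type} [Field L] [NumberField L] [Algebra K L]

/-- `UL L` is the group of units of the ring of integers. PROOF: `od w x = 0` for all `w` iff all valuations of `x` are `1` (`val_eq` in CFT/D0), and then
`x` and `x⁻¹` are integral (`IsDedekindDomain.HeightOneSpectrum.mem_integers_of_valuation_le_one`). -/
theorem UL_eq (L : Type) [Field L] [NumberField L] : UL L = (Units.map (algebraMap (𝓞 L) L : 𝓞 L →* L)).range := by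
  ext x
  constructor
  · intro hx
    have h1 : dvU L x = 1 := hx
    have h2 : dv (x : L) = 0 := by
      rw [dvU_apply] at h1
      exact h1
    obtain ⟨u, hu⟩ := unit_of_dv x.ne_zero h2
    exact ⟨u, Units.ext hu⟩
  · rintro ⟨u, rfl⟩
    show dvU L _ = 1
    rw [dvU_apply]
    exact dv_unit u

theorem UL_fg (L : Type) [Field L] [NumberField L] : (UL L).FG := by
  rw [UL_eq]
  have : Group.FG (𝓞 L)ˣ := Group.fg_iff_monoid_fg.2 inferInstance
  rw [← Group.fg_iff_subgroup_fg]
  exact Group.fg_range _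

/-- The units. -/
noncomputable def u5_equiv (L : Type) [Field L] [NumberField L] : (𝓞 L)ˣ ≃* UL L :=
  (MonoidHom.ofInjective (f := Units.map (algebraMap (𝓞 L) L : 𝓞 L →* L))
    (Units.map_injective (FaithfulSMul.algebraMap_injective (𝓞 L) L))).trans
    (MulEquiv.subgroupCongr (UL_eq L).symm)

theorem u5_finrank (L : Type) [Field L] [NumberField L] : Module.finrank ℤ (Additive (UL L)) = NumberField.Units.rank L := by
  rw [← NumberField.Units.finrank_eq]
  exact (LinearEquiv.finrank_eq (AddEquiv.toIntLinearEquiv (MulEquiv.toAdditive (u5_equiv L)))).symm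

/-- The linear map. -/
noncomputable def u5_f (ε : InfinitePlace L → Lˣ) (h : ∀ x, phi ε x ∈ UL L) : (InfinitePlace L → ℤ) →ₗ[ℤ] Additive (UL L) :=
  AddMonoidHom.toIntLinearMap
    { toFun := fun x => Additive.ofMul ⟨phi ε (Multiplicative.ofAdd x), h _⟩
      map_zero' := by
        rw [← ofMul_one]
        congr 1
        exact Subtype.ext (map_one (phi ε))
      map_add' := fun x y => by
        rw [← ofMul_mul]
        congr 1
        exact Subtype.ext (map_mul (phi ε) (Multiplicative.ofAdd x) (Multiplicative.ofAdd y)) }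

theorem u5_f_apply (ε : InfinitePlace L → Lˣ) (h : ∀ x, phi ε x ∈ UL L) (x : InfinitePlace L → ℤ) :
    u5_f ε h x = Additive.ofMul ⟨phi ε (Multiplicative.ofAdd x), h _⟩ := rfl

theorem u5_ker (ε : InfinitePlace L → Lˣ) (h : ∀ x, phi ε x ∈ UL L) (c : Multiplicative (InfinitePlace L → ℤ))
    (hc : (phi ε).ker = Subgroup.zpowers c) : Module.finrank ℤ (LinearMap.ker (u5_f ε h)) ≤ 1 := by
  have h1 : LinearMap.ker (u5_f ε h) ≤ Submodule.span ℤ {Multiplicative.toAdd c} := by
    intro x hx
    rw [LinearMap.mem_ker, u5_f_apply] at hx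
    have h2 : phi ε (Multiplicative.ofAdd x) = 1 := congrArg (fun z : Additive (UL L) => ((Additive.toMul z : UL L) : Lˣ)) hx
    have h3 : Multiplicative.ofAdd x ∈ (phi ε).ker := h2
    rw [hc] at h3
    obtain ⟨k, hk⟩ := Subgroup.mem_zpowers_iff.1 h3
    rw [Submodule.mem_span_singleton]
    exact ⟨k, hk⟩
  have h2 : Submodule.span ℤ {Multiplicative.toAdd c} ≤ LinearMap.ker (u5_f ε h) := by
    rw [Submodule.span_singleton_le_iff_mem, LinearMap.mem_ker, u5_f_apply]
    have h3 : c ∈ (phi ε).ker := by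
      rw [hc]
      exact Subgroup.mem_zpowers c
    rw [← ofMul_one]
    congr 1
    exact Subtype.ext h3
  rw [le_antisymm h1 h2]
  refine (finrank_span_le_card (R := ℤ) {Multiplicative.toAdd c}).trans ?_
  rw [Set.toFinset_singleton, Finset.card_singleton]

/-- PROOF. The rank of `W → ℤ` is `card W`, the kernel has rank `1` (`phi_ker`, U4; only `phi_ker_ne` and the sign property, U3, are used if more convenient: here
`h2` is among the hypotheses), so the range has rank `card W - 1 = Units.rank L =` the rank of the units (`NumberField.Units.finrank_eq`), and a subgroup of the same finite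
rank of a finitely generated commutative group has finite index (the quotient has rank `0`, so it is torsion and finitely generated: finite).
Mathlib: `LinearMap.finrank_range_add_finrank_ker`, `Submodule.finrank_quotient_add_finrank`, `Module.finrank_eq_zero_iff_isTorsion`, `CommGroup.finite_of_fg_torsion`
or G1 with a common exponent. -/
theorem phi_range (ε : InfinitePlace L → Lˣ) (h1 : ∀ w, ε w ∈ UL L) (h2 : ∀ (σ : L ≃ₐ[K] L) w, sU σ (ε w) = ε (σ • w))
    (h3 : ∀ w w' : InfinitePlace L, w' ≠ w → w' (ε w : L) < 1) :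
    (phi ε).range ≤ UL L ∧ (phi ε).range.relIndex (UL L) ≠ 0 := by
  have hmem : ∀ x, phi ε x ∈ UL L := fun x => by
    rw [phi_apply]
    exact Subgroup.prod_mem _ fun w _ => Subgroup.zpow_mem _ (h1 w) _
  refine ⟨?_, ?_⟩
  · rintro _ ⟨x, rfl⟩
    exact hmem x
  obtain ⟨c, hc, -, -⟩ := phi_ker (K := K) ε h1 h2 h3
  have hk := u5_ker ε hmem c hc
  have : Group.FG (UL L) := (Group.fg_iff_subgroup_fg _).2 (UL_fg L)
  have hfin : Module.Finite ℤ (Additive (UL L)) := by
    exact Module.Finite.equiv (AddEquiv.toIntLinearEquiv (MulEquiv.toAdditive (u5_equiv L)))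
  have e1 := Submodule.finrank_quotient_add_finrank (LinearMap.ker (u5_f ε hmem))
  rw [(u5_f ε hmem).quotKerEquivRange.finrank_eq, Module.finrank_fintype_fun_eq_card] at e1
  have e2 := Submodule.finrank_quotient_add_finrank (LinearMap.range (u5_f ε hmem))
  rw [u5_finrank, NumberField.Units.rank] at e2
  have e3 : 0 < Fintype.card (InfinitePlace L) := Fintype.card_pos
  have e4 : Module.finrank ℤ (Additive (UL L) ⧸ LinearMap.range (u5_f ε hmem)) = 0 := by omega
  rw [Module.finrank_eq_zero_iff_isTorsion] at e4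
  have htor : IsMulTorsion (UL L ⧸ (phi ε).range.subgroupOf (UL L)) := by
    intro g
    obtain ⟨u, rfl⟩ := QuotientGroup.mk_surjective g
    obtain ⟨a, ha⟩ := @e4 (Submodule.Quotient.mk (Additive.ofMul u))
    have ha0 : (a : ℤ) ≠ 0 := nonZeroDivisors.ne_zero a.2
    have h4 : (Submodule.Quotient.mk ((a : ℤ) • Additive.ofMul u) :
        Additive (UL L) ⧸ LinearMap.range (u5_f ε hmem)) = 0 := ha
    rw [Submodule.Quotient.mk_eq_zero] at h4
    obtain ⟨x, hx⟩ := h4
    rw [u5_f_apply] at hx
    have h5 : phi ε (Multiplicative.ofAdd x) = (u : Lˣ) ^ (a : ℤ) :=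
      congrArg (fun z : Additive (UL L) => ((Additive.toMul z : UL L) : Lˣ)) hx
    refine (isOfFinOrder_iff_zpow_eq_one (G := UL L ⧸ (phi ε).range.subgroupOf (UL L))).2 ⟨(a : ℤ), ha0, ?_⟩
    have h6 : ((u ^ (a : ℤ) : UL L) : UL L ⧸ (phi ε).range.subgroupOf (UL L)) = 1 := by
      rw [QuotientGroup.eq_one_iff, Subgroup.mem_subgroupOf]
      exact ⟨_, h5⟩
    exact h6
  have : Finite (UL L ⧸ (phi ε).range.subgroupOf (UL L)) := CommGroup.finite_of_fg_isMulTorsion _ htor
  exact Subgroup.index_ne_zero_of_finite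

end Pool.Agent.H69H
end

-- from Lib.CFT.B12
section

/-! # CFT module B, chunk B12: the norm of a totally positive element -/

open NumberField IsDedekindDomain

namespace CFT

variable {K : Type} [Field K] [NumberField K] {L : Type} [Field L] [NumberField L] [Algebra K L]


/-- PROOF. Extend phi to i : K -> C. phi (norm y) (in C) = product over the ring homomorphisms s : L -> C with s o algebraMap = i of s y
(Algebra.norm_eq_prod_embeddings with the algebra structure i.toAlgebra on C: L ->A[K] C). Complex conjugation is an involution on this set (i is real valued); the fixed points are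
real valued s, so s y > 0 (s factors through a real embedding: NumberField.ComplexEmbedding.IsReal.embedding), the other ones come in pairs with product |s y|^2 > 0.
(Alternative: the product is real, positive because Finset.prod_involution-like argument; or sort: prod over all = prod over fixed * prod over non fixed,
the second is a product of squares of absolute values; or connectedness: y_t ...). -/
theorem norm_pos {y : L} (hy : y ≠ 0) (hpos : ∀ ψ : L →+* ℝ, 0 < ψ y) (φ : K →+* ℝ) : 0 < φ (Algebra.norm K y) := by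
  classical
  letI alg : Algebra K ℂ := (Complex.ofRealHom.comp φ).toAlgebra
  have halg : ∀ r : K, algebraMap K ℂ r = ((φ r : ℝ) : ℂ) := fun r => rfl
  have h := Algebra.norm_eq_prod_embeddings K ℂ y
  rw [halg] at h
  -- the conjugate embedding
  let g : (L →ₐ[K] ℂ) → (L →ₐ[K] ℂ) := fun s =>
    { toRingHom := (starRingEnd ℂ).comp s.toRingHom
      commutes' := fun r => by
        show (starRingEnd ℂ) (s (algebraMap K L r)) = algebraMap K ℂ r
        rw [s.commutes, halg, Complex.conj_ofReal] }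
  have hg : ∀ (s : L →ₐ[K] ℂ) (z : L), g s z = (starRingEnd ℂ) (s z) := fun s z => rfl
  have hne : ∀ s : L →ₐ[K] ℂ, s y ≠ 0 := fun s h0 => hy (s.toRingHom.injective (by
    rw [map_zero]
    exact h0))
  have hfix : ∀ s : L →ₐ[K] ℂ, g s = s → s y = (‖s y‖ : ℂ) := by
    intro s hs
    have hreal : NumberField.ComplexEmbedding.IsReal (s : L →+* ℂ) := by
      rw [NumberField.ComplexEmbedding.isReal_iff]
      ext z
      have := congrArg (fun t : L →ₐ[K] ℂ => t z) hs
      exact this
    have h1 := NumberField.ComplexEmbedding.IsReal.coe_embedding_apply hreal y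
    have h2 := hpos hreal.embedding
    have h3 : s y = ((hreal.embedding y : ℝ) : ℂ) := h1.symm
    rw [h3, Complex.norm_real, Real.norm_of_nonneg h2.le]
  have hprod : ∏ s : L →ₐ[K] ℂ, (s y / (‖s y‖ : ℂ)) = 1 := by
    refine Finset.prod_involution (fun s _ => g s) ?_ ?_ (fun s _ => Finset.mem_univ _) ?_
    · intro s _
      have h1 : (‖s y‖ : ℂ) ≠ 0 := by
        rw [Complex.ofReal_ne_zero]
        exact norm_ne_zero_iff.2 (hne s)
      have h2 : s y * (starRingEnd ℂ) (s y) = (‖s y‖ : ℂ) * (‖s y‖ : ℂ) := by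
        rw [Complex.mul_conj, Complex.normSq_eq_norm_sq]
        push_cast
        ring
      rw [hg, RCLike.norm_conj, div_mul_div_comm, h2]
      exact div_self (mul_ne_zero h1 h1)
    · intro s _ h1 h2
      apply h1
      have h3 := hfix s h2
      have h4 : (‖s y‖ : ℂ) ≠ 0 := by
        rw [Complex.ofReal_ne_zero]
        exact norm_ne_zero_iff.2 (hne s)
      rw [h3]
      simp only [Complex.norm_real, norm_norm]
      exact div_self h4
    · intro s _
      ext z
      rw [hg, hg, Complex.conj_conj]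
  rw [Finset.prod_div_distrib, div_eq_one_iff_eq] at hprod
  · rw [hprod, ← Complex.ofReal_prod, Complex.ofReal_inj] at h
    rw [h]
    exact Finset.prod_pos fun s _ => norm_pos_iff.2 (hne s)
  · rw [Finset.prod_ne_zero_iff]
    intro s _
    rw [Complex.ofReal_ne_zero]
    exact norm_ne_zero_iff.2 (hne s)

end CFT
end

-- from Lib.CFT.B16
section

/-! # CFT module B, chunk B16: inertia is trivial at unramified primes -/

open NumberField IsDedekindDomain

namespace CFT

variable {K : Type} [Field K] [NumberField K] {L : Type} [Field L] [NumberField L] [Algebra K L]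

theorem b16_gal [IsGalois K L] : IsGaloisGroup (L ≃ₐ[K] L) (𝓞 K) (𝓞 L) := inferInstance

theorem b16_card [IsGalois K L] (w : Pr L) : Nat.card (w.asIdeal.inertia (L ≃ₐ[K] L)) = w.asIdeal.ramificationIdx (𝓞 K) := by
  have hG : IsGaloisGroup (L ≃ₐ[K] L) (𝓞 K) (𝓞 L) := b16_gal
  have hp := w.isPrime
  have hv := (below K w).isMaximal
  have hl : w.asIdeal.LiesOver (below K w).asIdeal := ⟨rfl⟩
  have hfin : Finite (𝓞 K ⧸ (below K w).asIdeal) := Ring.HasFiniteQuotients.finiteQuotient (below K w).ne_bot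
  have hperf : PerfectField (below K w).asIdeal.ResidueField := by
    have : Finite (below K w).asIdeal.ResidueField :=
      Finite.of_surjective _ (Ideal.bijective_algebraMap_quotient_residueField (below K w).asIdeal).surjective
    infer_instance
  rw [Ideal.card_inertia_eq_ramificationIdxIn (G := L ≃ₐ[K] L) (below K w).asIdeal w.asIdeal,
    Ideal.ramificationIdxIn_eq_ramificationIdx (below K w).asIdeal w.asIdeal (L ≃ₐ[K] L)]

/-- PROOF. L/K Galois, G = L equiv L acts on O_L with invariants O_K. The inertia group of w has order ramificationIdx (Mathlib: Ideal.card_inertia_eq_ramificationIdxIn in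
NumberTheory/RamificationInertia/Galois.lean; ramificationIdxIn_eq_ramificationIdx), so it is trivial; s^-1 t is in the inertia group: for all x, s x - t x in w gives
t^-1 s x - x in t^-1 w ... Let a = s t^-1: a y - y in w for all y in O_L (y = t x). So a is in the inertia group of w (definition of Ideal.inertia: all y: a y - y in w), so a = 1. -/
theorem eq_of_cong [IsGalois K L] (w : Pr L) (h : w.asIdeal.ramificationIdx (𝓞 K) = 1) {s t : L ≃ₐ[K] L}
    (hst : ∀ x : 𝓞 L, s • x - t • x ∈ w.asIdeal) : s = t := by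
  have h1 : s * t⁻¹ ∈ w.asIdeal.inertia (L ≃ₐ[K] L) := by
    intro y
    have h2 := hst (t⁻¹ • y)
    rw [smul_inv_smul] at h2
    rw [mul_smul]
    exact h2
  have h3 := b16_card (K := K) w
  rw [h] at h3
  have h4 : w.asIdeal.inertia (L ≃ₐ[K] L) = ⊥ := Subgroup.eq_bot_of_card_eq _ h3
  rw [h4, Subgroup.mem_bot] at h1
  exact mul_inv_eq_one.1 h1

/-- PROOF. Conversely: if the only s with s x - x in w for all x is 1 then the inertia group is trivial and e = 1 by the same formula. -/
theorem unr_of_inertia [IsGalois K L] (w : Pr L) (h : ∀ s : L ≃ₐ[K] L, (∀ x : 𝓞 L, s • x - x ∈ w.asIdeal) → s = 1) :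
    w.asIdeal.ramificationIdx (𝓞 K) = 1 := by
  rw [← b16_card (K := K) w]
  have h4 : w.asIdeal.inertia (L ≃ₐ[K] L) = ⊥ := by
    rw [Subgroup.eq_bot_iff_forall]
    intro s hs
    exact h s hs
  rw [h4, Subgroup.card_bot]

end CFT
end

-- from Lib.CFT.B17
section

/-! # CFT module B, chunk B17: existence of the Frobenius element (abelian case) -/

open NumberField IsDedekindDomain

namespace CFT

variable {K : Type} [Field K] [NumberField K] {L : Type} [Field L] [NumberField L] [Algebra K L]


instance b17_comm : SMulCommClass (L ≃ₐ[K] L) (𝓞 K) (𝓞 L) := by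
  refine ⟨fun s a x => ?_⟩
  apply RingOfIntegers.ext
  show s ((a • x : 𝓞 L) : L) = ((a • (s • x : 𝓞 L) : 𝓞 L) : L)
  rw [Algebra.smul_def, Algebra.smul_def]
  show s (algebraMap K L (a : K) * (x : L)) = algebraMap K L (a : K) * s (x : L)
  rw [map_mul, AlgEquiv.commutes]

theorem b17_card (w : Pr L) : Nat.card (𝓞 K ⧸ w.asIdeal.under (𝓞 K)) = Nm (below K w) := by
  unfold Nm
  rw [Ideal.absNorm_apply, Submodule.cardQuot_apply]
  rfl

theorem b17_fin (w : Pr L) : Finite (𝓞 L ⧸ w.asIdeal) := Ideal.finiteQuotientOfFreeOfNeBot _ w.ne_bot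

/-- PROOF. One prime: IsArithFrobAt.exists_of_isInvariant (Mathlib RingTheory/Frobenius.lean) for G = L equiv L acting on O_L (IsInvariant (O_K) (O_L) G; the instance
SMulCommClass G (O_K) (O_L) may have to be supplied by hand: s (a x) = a s x); card (O_K / w.under) = Nm (below w) (Ideal.absNorm is the cardinality of the quotient, Submodule.cardQuot_apply / Nat.card). -/
theorem fr_one [IsGalois K L] (w : Pr L) : ∃ s : L ≃ₐ[K] L, ∀ x : 𝓞 L, s • x - x ^ Nm (below K w) ∈ w.asIdeal := by
  haveI := b17_fin w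
  obtain ⟨s, hs⟩ := IsArithFrobAt.exists_of_isInvariant (𝓞 K) (L ≃ₐ[K] L) w.asIdeal
  refine ⟨s, fun x => ?_⟩
  have h := hs x
  rw [b17_card] at h
  exact h

theorem b17_trans [IsGalois K L] (w w' : Pr L) (h : below K w = below K w') : ∃ g : L ≃ₐ[K] L, ∀ x : 𝓞 L, x ∈ w'.asIdeal ↔ g⁻¹ • x ∈ w.asIdeal := by
  have h1 : w.asIdeal.under (𝓞 K) = w'.asIdeal.under (𝓞 K) := congrArg HeightOneSpectrum.asIdeal h
  obtain ⟨g, hg⟩ := Algebra.IsInvariant.exists_smul_of_under_eq (𝓞 K) (𝓞 L) (L ≃ₐ[K] L) w.asIdeal w'.asIdeal h1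
  refine ⟨g, fun x => ?_⟩
  rw [hg, Ideal.pointwise_smul_eq_comap, Ideal.mem_comap]
  rfl

/-- PROOF. G acts transitively on the primes above v (Ideal.exists_smul_eq_of_isGaloisGroup, or exists_comap_galRestrict_eq; primesOver). If w' = g w then g s g^-1 = s is a Frobenius element for w'
(apply g to s x - x^q in w, with x = g^-1 y). -/
theorem fr_exists [IsGalois K L] (hab : ∀ a b : L ≃ₐ[K] L, a * b = b * a) (v : Pr K) : ∃ s, IsFr K L v s := by
  obtain ⟨w, rfl⟩ := below_surj (K := K) (L := L) v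
  obtain ⟨s, hs⟩ := fr_one (K := K) w
  refine ⟨s, fun w' hw' x => ?_⟩
  obtain ⟨g, hg⟩ := b17_trans (K := K) w w' hw'.symm
  rw [hg]
  have h := hs (g⁻¹ • x)
  have e : g⁻¹ • (s • x - x ^ Nm (below K w)) = s • (g⁻¹ • x) - (g⁻¹ • x) ^ Nm (below K w) := by
    rw [smul_sub, smul_pow', ← mul_smul, ← mul_smul, hab]
  rw [e]
  exact h

/-- PROOF. Take one prime w above v (below_surj, B06): s x - t x in w; eq_of_cong (B16). -/
theorem fr_unique [IsGalois K L] {v : Pr K} (hv : Unr K L v) {s t : L ≃ₐ[K] L} (hs : IsFr K L v s) (ht : IsFr K L v t) : s = t := by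
  obtain ⟨w, rfl⟩ := below_surj (K := K) (L := L) v
  refine eq_of_cong w (hv w rfl) fun x => ?_
  have h := w.asIdeal.sub_mem (hs w rfl x) (ht w rfl x)
  rwa [sub_sub_sub_cancel_right] at h

/-- PROOF. Unfold frob: dif_pos, Exists.choose_spec. -/
theorem frob_spec [IsGalois K L] (hab : ∀ a b : L ≃ₐ[K] L, a * b = b * a) {v : Pr K} (hv : Unr K L v) : IsFr K L v (frob K L v) := by
  have h : Unr K L v ∧ ∃ s, IsFr K L v s := ⟨hv, fr_exists hab v⟩
  unfold frob
  rw [dif_pos h]
  exact h.2.choose_spec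

/-- PROOF. fr_unique and dif_pos. -/
theorem frob_eq [IsGalois K L] {v : Pr K} (hv : Unr K L v) {s : L ≃ₐ[K] L} (hs : IsFr K L v s) : frob K L v = s := by
  have h : Unr K L v ∧ ∃ s, IsFr K L v s := ⟨hv, s, hs⟩
  unfold frob
  rw [dif_pos h]
  exact fr_unique hv h.2.choose_spec hs

/-- PROOF. One prime w is enough in the abelian case: fr_exists gives t with IsFr, s and t agree mod w, eq_of_cong, frob_eq. -/
theorem frob_eq_of_one [IsGalois K L] (hab : ∀ a b : L ≃ₐ[K] L, a * b = b * a) {v : Pr K} (hv : Unr K L v) (w : Pr L) (hw : below K w = v)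
    {s : L ≃ₐ[K] L} (hs : ∀ x : 𝓞 L, s • x - x ^ Nm v ∈ w.asIdeal) : frob K L v = s := by
  refine eq_of_cong w (hv w hw) fun x => ?_
  have h := w.asIdeal.sub_mem (frob_spec hab hv w hw x) (hs x)
  rwa [sub_sub_sub_cancel_right] at h

end CFT
end

-- from Lib.H69H.G2
section

set_option autoImplicit false
set_option linter.unusedSectionVars false

namespace Pool.Agent.H69H

open NumberField IsDedekindDomain CFT

variable {X : Type*} [CommGroup X]

/-- Transport of `tate` along a homomorphism. PROOF: use `relIndex_eq_map_mul_ker φ` (file A1) for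
`B.map g ⊔ A ≤ B ⊓ A.comap f` (this inclusion needs `A ≤ B`, stability of `B` and `f (g x) = 1`; the hypothesis `hp`). The second factor is
`1` (Subgroup.relIndex_eq_one), because `B ⊓ φ.ker ≤ A ⊓ φ.ker`. The first factor: `(B.map g ⊔ A).map φ = (B.map φ).map g' ⊔ A.map φ`,
and `(B ⊓ A.comap f).map φ = B.map φ ⊓ (A.map φ).comap f'`: if `b ∈ B` and `f' (φ b) = φ a`, `a ∈ A`, then `φ (f b) = φ a`, so `f b / a` is in
`B ⊓ φ.ker ≤ A`, and `f b ∈ A`. -/
theorem tate_map {Y : Type*} [CommGroup Y] (φ : X →* Y) {f g : X →* X} {f' g' : Y →* Y}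
    (hf : ∀ x, φ (f x) = f' (φ x)) (hg : ∀ x, φ (g x) = g' (φ x)) (hp : IsPair f g) {A B : Subgroup X} (hAB : A ≤ B)
    (hA : IsStable f g A) (hB : IsStable f g B) (hk : B ⊓ φ.ker ≤ A) :
    tate f g A B = tate f' g' (A.map φ) (B.map φ) := by
  unfold tate
  have hle : B.map g ⊔ A ≤ B ⊓ A.comap f := by
    refine sup_le (le_inf ?_ ?_) (le_inf hAB fun x hx => hA.left x hx)
    · rintro _ ⟨x, hx, rfl⟩
      exact hB.right x hx
    · rintro _ ⟨x, hx, rfl⟩
      show f (g x) ∈ A
      rw [hp.fg]
      exact A.one_mem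
  rw [relIndex_eq_map_mul_ker φ hle]
  have h2 : ((B.map g ⊔ A) ⊓ φ.ker).relIndex (B ⊓ A.comap f ⊓ φ.ker) = 1 := by
    rw [Subgroup.relIndex_eq_one]
    rintro x ⟨⟨h1, _⟩, h3⟩
    exact ⟨Subgroup.mem_sup_right (hk ⟨h1, h3⟩), h3⟩
  rw [h2, mul_one]
  congr 1
  · rw [Subgroup.map_sup, Subgroup.map_map, Subgroup.map_map]
    congr 2
    ext x
    exact hg x
  · ext y
    constructor
    · rintro ⟨x, ⟨h1, h3⟩, rfl⟩
      refine ⟨⟨x, h1, rfl⟩, ?_⟩
      show f' (φ x) ∈ A.map φ
      rw [← hf]
      exact ⟨f x, h3, rfl⟩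
    · rintro ⟨⟨x, h1, rfl⟩, h3⟩
      refine ⟨x, ⟨h1, ?_⟩, rfl⟩
      have h3 : f' (φ x) ∈ A.map φ := h3
      rw [← hf] at h3
      obtain ⟨a, ha, h4⟩ := h3
      have h6 : f x * a⁻¹ ∈ φ.ker := by
        rw [MonoidHom.mem_ker, map_mul, map_inv, h4, mul_inv_cancel]
      have h5 : f x * a⁻¹ ∈ A := hk ⟨B.mul_mem (hB.left x h1) (B.inv_mem (hAB ha)), h6⟩
      have := A.mul_mem h5 ha
      simpa using this

end Pool.Agent.H69H
end

-- from Lib.H69H.U6
section

set_option autoImplicit false
set_option linter.unusedSectionVars false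

namespace Pool.Agent.H69H

open NumberField IsDedekindDomain CFT

variable {K : Type} [Field K] [NumberField K] {L : Type} [Field L] [NumberField L] [Algebra K L]

/-- PROOF. `i ↦ σ^i` is a bijection from `range n`, `n = finrank K L = card G`, to `G = Gal(L/K)` (σ is a generator: `hσ`; `orderOf σ = Nat.card G`), and
`(fun w => σ • w)^[i] w = σ^i • w`, so the number is `#{g ∈ G | g • w = w'}`, which is the order of the stabilizer of `w` (`w'` is in the orbit of `w`: Mathlib
`InfinitePlace.exists_smul_eq_of_comap_eq` or `mem_orbit_iff`; the set is a coset). The order of the stabilizer is `2` if `w` is ramified and `1` otherwise (Mathlib `InfinitePlace.card_stabilizer`,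
`InfinitePlace.isUnramifiedIn_comap`). -/
theorem infPlace_count [IsGalois K L] (σ : L ≃ₐ[K] L) (hσ : ∀ x, x ∈ Subgroup.zpowers σ) (w w' : InfinitePlace L)
    (h : w.comap (algebraMap K L) = w'.comap (algebraMap K L)) [DecidableEq (InfinitePlace L)] [DecidableEq (InfinitePlace K)] :
    ((Finset.range (Module.finrank K L)).filter fun i => (fun w => σ • w)^[i] w = w').card =
      if w.comap (algebraMap K L) ∈ RamInf K L then 2 else 1 := by
  classical
  obtain ⟨g₀, hg₀⟩ := InfinitePlace.exists_smul_eq_of_comap_eq h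
  have hn : orderOf σ = Module.finrank K L := by
    rw [orderOf_eq_card_of_forall_mem_zpowers hσ, IsGalois.card_aut_eq_finrank]
  have hit : ∀ i : ℕ, (fun w => σ • w)^[i] w = σ ^ i • w := by
    intro i
    induction i with
    | zero => rw [Function.iterate_zero, id_eq, pow_zero, one_smul]
    | succ i ih => rw [Function.iterate_succ_apply', ih, pow_succ', mul_smul]
  have h1 : ((Finset.range (Module.finrank K L)).filter fun i => (fun w => σ • w)^[i] w = w').card =
      (Finset.univ.filter fun g : L ≃ₐ[K] L => g • w = w).card := by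
    refine Finset.card_bij (fun i _ => g₀⁻¹ * σ ^ i) ?_ ?_ ?_
    · intro i hi
      have h2 := (Finset.mem_filter.1 hi).2
      rw [hit] at h2
      refine Finset.mem_filter.2 ⟨Finset.mem_univ _, ?_⟩
      rw [mul_smul, h2, ← hg₀, inv_smul_smul]
    · intro i hi j hj hij
      have h2 : σ ^ i = σ ^ j := mul_left_cancel hij
      have hi' := Finset.mem_range.1 (Finset.mem_filter.1 hi).1
      have hj' := Finset.mem_range.1 (Finset.mem_filter.1 hj).1
      rw [← hn] at hi' hj'
      exact pow_injOn_Iio_orderOf hi' hj' h2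
    · intro g hg
      have h2 := (Finset.mem_filter.1 hg).2
      have h3 : g₀ * g ∈ Subgroup.zpowers σ := hσ _
      rw [(isOfFinOrder_of_finite σ).mem_zpowers_iff_mem_range_orderOf] at h3
      obtain ⟨i, hi, h4⟩ := Finset.mem_image.1 h3
      have h4' : σ ^ i = g₀ * g := h4
      refine ⟨i, Finset.mem_filter.2 ⟨?_, ?_⟩, ?_⟩
      · rw [← hn]
        exact hi
      · rw [hit, h4', mul_smul, h2, hg₀]
      · rw [h4', inv_mul_cancel_left]
  have h5 : (Finset.univ.filter fun g : L ≃ₐ[K] L => g • w = w).card = Nat.card (MulAction.stabilizer (L ≃ₐ[K] L) w) := by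
    rw [Nat.card_eq_fintype_card, Fintype.card_subtype]
    rfl
  rw [h1, h5]
  unfold RamInf
  have h6 : w.comap (algebraMap K L) ∈ Finset.univ.filter (fun v : InfinitePlace K => ¬ v.IsUnramifiedIn L) ↔
      ¬ InfinitePlace.IsUnramified K w := by
    rw [Finset.mem_filter, InfinitePlace.isUnramifiedIn_comap]
    exact ⟨fun h => h.2, fun h => ⟨Finset.mem_univ _, h⟩⟩
  by_cases h7 : InfinitePlace.IsUnramified K w
  · rw [if_neg (fun h8 => h6.1 h8 h7)]
    exact InfinitePlace.isUnramified_iff_card_stabilizer_eq_one.1 h7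
  · rw [if_pos (h6.2 h7)]
    exact InfinitePlace.not_isUnramified_iff_card_stabilizer_eq_two.1 h7

end Pool.Agent.H69H
end

-- from Lib.H69H.T1
section

set_option autoImplicit false
set_option linter.unusedSectionVars false

namespace Pool.Agent.H69H

open NumberField IsDedekindDomain CFT

/-- PROOF. If `od w y = 0` then there is `a : 𝓞 L` with `w.valuation (y - a) < exp (-N)` (Mathlib `HeightOneSpectrum.exists_valuation_sub_lt_of_integer`), `a ∉ w`. The ring `𝓞 L ⧸ w^(N+1)` is finite (`Ideal.finiteQuotientOfFreeOfNeBot` or `Ideal.fintypeQuotientOfFreeOfNeBot`), `a` is a unit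
in it, so `a^m - 1 ∈ w^(N+1)`, `m` the order of the unit group, i.e. `w.valuation (a^m - 1) ≤ exp (-(N+1)) < exp (-N)` (`intValuation_le_pow_iff_mem`), and `y^m - a^m` is divisible by `y - a` (`sub_dvd_pow_sub_pow`), the cofactor is integral at `w`. -/
theorem pow_near {L : Type} [Field L] [NumberField L] (w : Pr L) (N : ℕ) : ∃ m : ℕ, m ≠ 0 ∧ ∀ y : Lˣ, od w (y : L) = 0 →
    w.valuation L ((y : L) ^ m - 1) < WithZero.exp (-(N : ℤ)) := by
  have hfin : Finite (𝓞 L ⧸ w.asIdeal ^ (N + 1)) :=
    Ideal.finiteQuotientOfFreeOfNeBot _ (pow_ne_zero _ w.ne_bot)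
  refine ⟨Nat.card (𝓞 L ⧸ w.asIdeal ^ (N + 1))ˣ, Nat.card_pos.ne', fun y hy => ?_⟩
  generalize hm : Nat.card (𝓞 L ⧸ w.asIdeal ^ (N + 1))ˣ = m
  have hy1 : w.valuation L (y : L) = 1 := by
    rw [val_eq w y.ne_zero, hy, neg_zero, WithZero.exp_zero]
  obtain ⟨a, ha⟩ := w.exists_valuation_sub_lt_of_integer (K := L) hy1.le (Units.mk0 (WithZero.exp (-(N : ℤ))) WithZero.coe_ne_zero)
  have ha : w.valuation L (algebraMap (𝓞 L) L a - y) < WithZero.exp (-(N : ℤ)) := ha
  have ha1 : w.valuation L (algebraMap (𝓞 L) L a) = 1 := by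
    have h1 : algebraMap (𝓞 L) L a = (y : L) + (algebraMap (𝓞 L) L a - y) := by ring
    rw [h1, Valuation.map_add_eq_of_lt_left _ (by rw [hy1]; exact ha.trans_le (exp_le_one N)), hy1]
  have ha2 : a ∉ w.asIdeal := by
    intro h
    have h1 := (w.valuation_lt_one_iff_mem (K := L) a).2 h
    rw [ha1] at h1
    exact lt_irrefl _ h1
  have ha3 : IsUnit (Ideal.Quotient.mk (w.asIdeal ^ (N + 1)) a) := by
    have hmax := w.isMaximal
    have h1 : IsCoprime (Ideal.span {a}) (w.asIdeal ^ (N + 1)) := by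
      refine IsCoprime.pow_right ?_
      rw [Ideal.isCoprime_iff_exists]
      obtain ⟨b, i, hi, hb⟩ := hmax.exists_inv ha2
      exact ⟨b * a, Ideal.mem_span_singleton'.2 ⟨b, rfl⟩, i, hi, hb⟩
    rw [Ideal.isCoprime_iff_exists] at h1
    obtain ⟨x, hx, z, hz, h2⟩ := h1
    obtain ⟨b, rfl⟩ := Ideal.mem_span_singleton'.1 hx
    refine IsUnit.of_mul_eq_one (Ideal.Quotient.mk _ b) ?_
    rw [← map_mul, mul_comm a b, ← map_one (Ideal.Quotient.mk (w.asIdeal ^ (N + 1))), ← h2, Ideal.Quotient.mk_eq_mk_iff_sub_mem]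
    have h3 : b * a - (b * a + z) = -z := by ring
    rw [h3]
    exact neg_mem hz
  obtain ⟨u, hu⟩ := ha3
  have hum : u ^ m = 1 := by
    rw [← hm]
    exact pow_card_eq_one'
  have ham : a ^ m - 1 ∈ w.asIdeal ^ (N + 1) := by
    rw [← Ideal.Quotient.mk_eq_mk_iff_sub_mem, map_pow, ← hu, map_one, ← Units.val_pow_eq_pow_val, hum, Units.val_one]
  have ham' : w.valuation L (algebraMap (𝓞 L) L a ^ m - 1) < WithZero.exp (-(N : ℤ)) := by
    rw [← map_pow, ← map_one (algebraMap (𝓞 L) L), ← map_sub, HeightOneSpectrum.valuation_of_algebraMap]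
    refine ((w.intValuation_le_pow_iff_mem _ _).2 ham).trans_lt ?_
    rw [WithZero.exp_lt_exp]
    push_cast
    omega
  have hind : ∀ k : ℕ, w.valuation L ((y : L) ^ k - algebraMap (𝓞 L) L a ^ k) < WithZero.exp (-(N : ℤ)) := by
    intro k
    induction k with
    | zero =>
      rw [pow_zero, pow_zero, sub_self, map_zero]
      exact WithZero.zero_lt_coe _
    | succ k ih =>
      have h1 : (y : L) ^ (k + 1) - algebraMap (𝓞 L) L a ^ (k + 1) =
          y * ((y : L) ^ k - algebraMap (𝓞 L) L a ^ k) - (algebraMap (𝓞 L) L a - y) * algebraMap (𝓞 L) L a ^ k := by ring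
      rw [h1]
      refine (Valuation.map_sub _ _ _).trans_lt (max_lt ?_ ?_)
      · rw [map_mul, hy1, one_mul]
        exact ih
      · rw [map_mul, map_pow, ha1, one_pow, mul_one]
        exact ha
  have h1 : (y : L) ^ m - 1 = ((y : L) ^ m - algebraMap (𝓞 L) L a ^ m) + (algebraMap (𝓞 L) L a ^ m - 1) := by ring
  rw [h1]
  exact (Valuation.map_add _ _ _).trans_lt (max_lt (hind m) ham')

variable {K : Type} [Field K] [NumberField K] {L : Type} [Field L] [NumberField L] [Algebra K L]

/-- PROOF. `hV.ray` gives `N`; take the product of the `m` of `pow_near` over the finitely many `w` above `S` (`fib_fin`); if `w.valuation (x - 1) < exp (-N) ≤ 1` then the same for the powers of `x`. -/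
theorem pow_mem_V {σ : L ≃ₐ[K] L} {S : Finset (Pr K)} {V : Subgroup Lˣ} (hV : IsV σ S V) :
    ∃ m : ℕ, m ≠ 0 ∧ ∀ y : Lˣ, (∀ w : Pr L, below K w ∈ S → od w (y : L) = 0) → y ^ m ∈ V := by
  obtain ⟨N, hN⟩ := hV.ray
  choose m hm0 hm using fun w : Pr L => pow_near w N
  have hfin : {w : Pr L | below K w ∈ S}.Finite := by
    refine (S.finite_toSet.biUnion fun v _ => fib_fin (L := L) K v).subset fun w hw => ?_
    exact Set.mem_biUnion (x := below K w) hw rfl
  refine ⟨∏ w ∈ hfin.toFinset, m w, Finset.prod_ne_zero_iff.2 fun w _ => hm0 w, fun y hy => ?_⟩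
  refine hN _ fun w hw => ?_
  have hmem : w ∈ hfin.toFinset := hfin.mem_toFinset.2 hw
  have hdvd : m w ∣ ∏ w ∈ hfin.toFinset, m w := Finset.dvd_prod_of_mem m hmem
  obtain ⟨k, hk⟩ := hdvd
  rw [hk, Units.val_pow_eq_pow_val, pow_mul]
  have h1 := hm w y (hy w hw)
  generalize (y : L) ^ m w = z at h1
  have hz : w.valuation L z = 1 := by
    have h2 : z = 1 + (z - 1) := by ring
    rw [h2]
    exact Valuation.map_one_add_of_lt _ (h1.trans_le (exp_le_one N))
  clear hk
  induction k with
  | zero =>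
    rw [pow_zero, sub_self, map_zero]
    exact WithZero.zero_lt_coe _
  | succ k ih =>
    have h2 : z ^ (k + 1) - 1 = z * (z ^ k - 1) + (z - 1) := by ring
    rw [h2]
    refine (Valuation.map_add _ _ _).trans_lt (max_lt ?_ h1)
    rw [map_mul, hz, one_mul]
    exact ih

end Pool.Agent.H69H
end

-- from Lib.CFT.X00
section

/-! # CFT module X (Artin crossing): definitions. Tm K E S m: the primes of E above S or above m. -/

open NumberField IsDedekindDomain

namespace CFT

section

variable (K : Type) [Field K] [NumberField K] (E : Type) [Field E] [NumberField E] [Algebra K E]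

theorem m_fin (m : ℕ) [NeZero m] : {w : Pr E | (m : 𝓞 E) ∈ w.asIdeal}.Finite := by
  have h := Ideal.finite_factors (I := Ideal.span {(m : 𝓞 E)})
    (fun h => (NeZero.ne m) (by exact_mod_cast (Ideal.span_singleton_eq_bot.1 h)))
  refine h.subset fun v hv => ?_
  show v.asIdeal ∣ Ideal.span {(m : 𝓞 E)}
  rw [Ideal.dvd_span_singleton]
  exact hv

theorem Tm_fin (S : Finset (Pr K)) (m : ℕ) [NeZero m] : {w : Pr E | below K w ∈ S ∨ (m : 𝓞 E) ∈ w.asIdeal}.Finite :=
  (up_fin K E S).union (m_fin E m)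

/-- The primes of E above S or above m. -/
noncomputable def Tm (S : Finset (Pr K)) (m : ℕ) [NeZero m] : Finset (Pr E) := (Tm_fin K E S m).toFinset

variable {K E}

theorem mem_Tm {S : Finset (Pr K)} {m : ℕ} [NeZero m] {w : Pr E} : w ∈ Tm K E S m ↔ below K w ∈ S ∨ (m : 𝓞 E) ∈ w.asIdeal := by
  unfold Tm
  rw [Set.Finite.mem_toFinset]
  rfl

theorem up_subset_Tm (S : Finset (Pr K)) (m : ℕ) [NeZero m] : up E S ⊆ Tm K E S m := by
  intro w hw
  rw [mem_up] at hw
  exact mem_Tm.2 (Or.inl hw)

/-- m is in w if and only if it is in the prime below. -/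
theorem m_mem_below (m : ℕ) (w : Pr E) : (m : 𝓞 K) ∈ (below K w).asIdeal ↔ (m : 𝓞 E) ∈ w.asIdeal := by
  show algebraMap (𝓞 K) (𝓞 E) (m : 𝓞 K) ∈ w.asIdeal ↔ _
  rw [map_natCast]

end

end CFT
end

-- from Lib.CFT.X12
section

/-! # CFT X12 (M, 4 small): the Galois group of L(zeta_m)/K -/

open NumberField IsDedekindDomain

namespace CFT

section

variable (K : Type) [Field K] [NumberField K] (L : Type) [Field L] [NumberField L] [Algebra K L]
  (M : Type) [Field M] [NumberField M] [Algebra K M] [Algebra L M] [IsScalarTower K L M] (m : ℕ) [NeZero m] [IsCyclotomicExtension {m} L M]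

include K in
theorem x12_ind (P : M → Prop) (hL : ∀ x : L, P (algebraMap L M x)) (hz : ∀ b : M, b ^ m = 1 → P b) (hadd : ∀ a b, P a → P b → P (a + b))
    (hmul : ∀ a b, P a → P b → P (a * b)) (x : M) : P x := by
  have h := (inferInstance : IsCyclotomicExtension {m} L M).adjoin_roots x
  induction h using Algebra.adjoin_induction with
  | mem b hb =>
    obtain ⟨n, hn, _, hb⟩ := hb
    rw [Set.mem_singleton_iff] at hn
    subst hn
    exact hz b hb
  | algebraMap r => exact hL r
  | add a b _ _ ha hb => exact hadd a b ha hb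
  | mul a b _ _ ha hb => exact hmul a b ha hb

include m in
/-- PROOF. Separable (characteristic 0). Normal: M is generated over K by the image of L (normal over K) and a primitive m-th root of unity zeta, K(zeta)/K is normal; IntermediateField.normal_sup. Or: M is the
splitting field of f (X^m - 1), f in K[X] with splitting field L (IsGalois.of_separable_splitting_field). Or directly: an algebra homomorphism s : M -> algebraic closure over K maps L to L
and zeta to a power of zeta. -/
theorem x_gal [IsGalois K L] : IsGalois K M := by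
  have hζ := IsCyclotomicExtension.zeta_spec m L M
  haveI : Normal K (IsScalarTower.toAlgHom K L M).fieldRange :=
    Normal.of_algEquiv (AlgEquiv.ofInjectiveField (IsScalarTower.toAlgHom K L M))
  haveI : IsCyclotomicExtension {m} K (IntermediateField.adjoin K {IsCyclotomicExtension.zeta m L M}) :=
    hζ.intermediateField_adjoin_isCyclotomicExtension K
  haveI : IsGalois K (IntermediateField.adjoin K {IsCyclotomicExtension.zeta m L M}) := IsCyclotomicExtension.isGalois {m} K _
  haveI : Normal K (IntermediateField.adjoin K {IsCyclotomicExtension.zeta m L M}) := IsGalois.to_normal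
  have htop : (IsScalarTower.toAlgHom K L M).fieldRange ⊔ IntermediateField.adjoin K {IsCyclotomicExtension.zeta m L M} = ⊤ := by
    rw [eq_top_iff]
    intro x _
    refine x12_ind K L M m (fun x => x ∈ (IsScalarTower.toAlgHom K L M).fieldRange ⊔ IntermediateField.adjoin K {IsCyclotomicExtension.zeta m L M}) ?_ ?_ ?_ ?_ x
    · intro y
      exact (le_sup_left : (IsScalarTower.toAlgHom K L M).fieldRange ≤ _) ⟨y, rfl⟩
    · intro b hb
      obtain ⟨i, _, hi⟩ := hζ.eq_pow_of_pow_eq_one hb
      rw [← hi]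
      exact pow_mem ((le_sup_right : IntermediateField.adjoin K {IsCyclotomicExtension.zeta m L M} ≤ _) (IntermediateField.subset_adjoin K _ rfl)) i
    · intro a b ha hb
      exact add_mem ha hb
    · intro a b ha hb
      exact mul_mem ha hb
  have hN : Normal K (⊤ : IntermediateField K M) := by
    rw [← htop]
    infer_instance
  haveI : Normal K M := Normal.of_algEquiv (IntermediateField.topEquiv (F := K) (E := M))
  exact ⟨⟩


variable {K L M m} {ζ : M} (hζ : IsPrimitiveRoot ζ m)

/-- PROOF. s fixes L (AlgEquiv.restrictNormal_commutes) and zeta (IsPrimitiveRoot.autToPow_spec), and M = L(zeta) (IsCyclotomicExtension.adjoin_primitive_root_eq_top or algHom_ext for the power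
basis IsPrimitiveRoot.powerBasis). -/
theorem x_inj [IsGalois K L] (s : M ≃ₐ[K] M) (h1 : AlgEquiv.restrictNormalHom L s = 1) (h2 : hζ.autToPow K s = 1) : s = 1 := by
  apply AlgEquiv.ext
  intro x
  refine x12_ind K L M m (fun x => s x = x) ?_ ?_ ?_ ?_ x
  · intro y
    have h3 := AlgEquiv.restrictNormal_commutes s L y
    have h4 : s.restrictNormal L = 1 := h1
    rw [h4, AlgEquiv.one_apply] at h3
    exact h3.symm
  · intro b hb
    obtain ⟨i, _, hi⟩ := hζ.eq_pow_of_pow_eq_one hb
    have h5 : s ζ = ζ := by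
      rw [← hζ.autToPow_spec K s, h2]
      by_cases hm1 : m = 1
      · subst hm1
        have h6 : ζ = 1 := by
          have := hζ.pow_eq_one
          rwa [pow_one] at this
        rw [h6, one_pow]
      · haveI : Fact (1 < m) := ⟨by
          have := NeZero.ne m
          omega⟩
        rw [Units.val_one, ZMod.val_one, pow_one]
    rw [← hi, map_pow, h5]
  · intro a b ha hb
    rw [map_add, ha, hb]
  · intro a b ha hb
    rw [map_mul, ha, hb]


include hζ in
/-- PROOF. a b a^-1 b^-1 is trivial under both homomorphisms: x_inj. -/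
theorem x_comm [IsGalois K L] (hab : ∀ a b : L ≃ₐ[K] L, a * b = b * a) (a b : M ≃ₐ[K] M) : a * b = b * a := by
  have h := x_inj hζ (a * b * a⁻¹ * b⁻¹) (by
    rw [map_mul, map_mul, map_mul, map_inv, map_inv, hab (AlgEquiv.restrictNormalHom L a), mul_inv_cancel_right, mul_inv_cancel]) (by
    rw [map_mul, map_mul, map_mul, map_inv, map_inv]
    rw [mul_comm (hζ.autToPow K a), mul_inv_cancel_right, mul_inv_cancel])
  have h2 : a * b * a⁻¹ = b := by
    rw [mul_inv_eq_one] at h
    exact h
  rw [mul_inv_eq_iff_eq_mul] at h2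
  exact h2


/-- PROOF. Let s₀ be a lift of g (AlgEquiv.restrictNormalHom_surjective, M/K normal by x_gal). By IsCyclotomicExtension.autEquivPow (with hirr) there is t in Gal(M/L) with autToPow t = u (autToPow s₀)^-1
(same zeta or compare two primitive roots: s zeta = zeta^k for one primitive root gives it for all); s = (t restricted to K) s₀; t restricts to 1 on L. -/
theorem x_surj [IsGalois K L] (hirr : Irreducible (Polynomial.cyclotomic m L)) (g : L ≃ₐ[K] L) (u : (ZMod m)ˣ) :
    ∃ s : M ≃ₐ[K] M, AlgEquiv.restrictNormalHom L s = g ∧ hζ.autToPow K s = u := by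
  haveI : IsGalois K M := x_gal K L M m
  have hz := IsCyclotomicExtension.zeta_spec m L M
  obtain ⟨s₀, hs₀⟩ := AlgEquiv.restrictNormalHom_surjective (F := K) (K₁ := L) M g
  obtain ⟨t, ht⟩ := (IsCyclotomicExtension.autEquivPow M hirr).surjective (u * (hζ.autToPow K s₀)⁻¹)
  have ht2 : hz.autToPow L t = u * (hζ.autToPow K s₀)⁻¹ := ht
  have ht3 : hζ.autToPow K (t.restrictScalars K) = u * (hζ.autToPow K s₀)⁻¹ := by
    rw [← ht2, IsPrimitiveRoot.autToPow_eq_modularCyclotomicCharacter, IsPrimitiveRoot.autToPow_eq_modularCyclotomicCharacter]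
    rfl
  refine ⟨t.restrictScalars K * s₀, ?_, ?_⟩
  · rw [map_mul, hs₀]
    have h1 : AlgEquiv.restrictNormalHom L (t.restrictScalars K) = (1 : L ≃ₐ[K] L) := by
      apply AlgEquiv.ext
      intro y
      apply (algebraMap L M).injective
      have h2 := AlgEquiv.restrictNormal_commutes (t.restrictScalars K) L y
      have h3 : (t.restrictScalars K) (algebraMap L M y) = algebraMap L M y := t.commutes y
      rw [h3] at h2
      exact h2
    rw [h1, one_mul]
  · rw [map_mul, ht3, inv_mul_cancel_right]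


end

end CFT
end

-- from Lib.CFT.Y19
section

/-! # CFT module Y, chunk Y19: counting residue classes -/

open NumberField

namespace CFTY

variable {K : Type} [Field K] [NumberField K]

/-- PROOF. The map `Ideal.Quotient.factor : 𝓞 K ⧸ J → 𝓞 K ⧸ h` is surjective, its fibres have the same number of elements (translates of the kernel;
`AddMonoidHom.card_fiber_eq_of_mem_range`), there are `absNorm h` fibres and `absNorm J` elements (`Ideal.absNorm_apply`, `Submodule.cardQuot_apply`). -/
theorem card_fiber {J h : Ideal (𝓞 K)} (hJ : J ≠ ⊥) (hJh : J ≤ h) (z : 𝓞 K) :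
    Nat.card {q : 𝓞 K ⧸ J // Ideal.Quotient.factor hJh q = Ideal.Quotient.mk h z} * Ideal.absNorm h = Ideal.absNorm J := by
  classical
  have hh : h ≠ ⊥ := fun e => hJ (le_bot_iff.1 (e ▸ hJh))
  haveI : Finite (𝓞 K ⧸ J) := Ideal.finiteQuotientOfFreeOfNeBot J hJ
  haveI : Finite (𝓞 K ⧸ h) := Ideal.finiteQuotientOfFreeOfNeBot h hh
  letI : Fintype (𝓞 K ⧸ J) := Fintype.ofFinite _
  letI : Fintype (𝓞 K ⧸ h) := Fintype.ofFinite _
  have hsurj := Ideal.Quotient.factor_surjective hJh
  have hfib : ∀ y : 𝓞 K ⧸ h, Nat.card {q : 𝓞 K ⧸ J // Ideal.Quotient.factor hJh q = y}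
      = Nat.card {q : 𝓞 K ⧸ J // Ideal.Quotient.factor hJh q = Ideal.Quotient.mk h z} := by
    intro y
    have h1 := AddMonoidHom.card_fiber_eq_of_mem_range (Ideal.Quotient.factor hJh).toAddMonoidHom
      (x := y) (y := Ideal.Quotient.mk h z) (hsurj y) (hsurj _)
    rw [Nat.card_eq_fintype_card, Nat.card_eq_fintype_card, Fintype.card_subtype, Fintype.card_subtype]
    exact h1
  rw [Ideal.absNorm_apply, Ideal.absNorm_apply, Submodule.cardQuot_apply, Submodule.cardQuot_apply]
  have h2 : Nat.card (𝓞 K ⧸ J) = Nat.card (Σ y : 𝓞 K ⧸ h, {q : 𝓞 K ⧸ J // Ideal.Quotient.factor hJh q = y}) :=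
    Nat.card_congr (Equiv.sigmaFiberEquiv (Ideal.Quotient.factor hJh)).symm
  rw [h2, Nat.card_sigma]
  rw [Finset.sum_congr rfl (fun y _ => hfib y), Finset.sum_const, smul_eq_mul, Finset.card_univ,
    Nat.card_eq_fintype_card (α := 𝓞 K ⧸ h), mul_comm]

/-- PROOF. `b` and `c` are coprime to `m`, so is `b * c`; `z = 1 mod m`, `z ∈ b c`: `Ideal.IsCoprime` gives `1 = u + v`, `u ∈ m`, `v ∈ d`; `z = v`. Then
`x - 1 ∈ m ∧ x ∈ d ↔ x - z ∈ m ⊓ d = m * d`. -/
theorem coset_eq {m d : Ideal (𝓞 K)} (h : IsCoprime d m) : ∃ z : 𝓞 K, ∀ x : 𝓞 K, (x - 1 ∈ m ∧ x ∈ d) ↔ x - z ∈ m * d := by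
  obtain ⟨v, hv, u, hu, huv⟩ := Ideal.isCoprime_iff_exists.1 h
  refine ⟨v, ?_⟩
  intro x
  rw [Ideal.mul_eq_inf_of_isCoprime h.symm, Ideal.mem_inf]
  have e : x - v = (x - 1) + u := by
    rw [← huv]
    ring
  constructor
  · rintro ⟨h1, h2⟩
    refine ⟨?_, d.sub_mem h2 hv⟩
    rw [e]
    exact m.add_mem h1 hu
  · rintro ⟨h1, h2⟩
    constructor
    · have : x - 1 = (x - v) - u := by
        rw [e]
        ring
      rw [this]
      exact m.sub_mem h1 hu
    · have : x = (x - v) + v := by ring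
      rw [this]
      exact d.add_mem h2 hv

open Classical in
/-- PROOF. `coset_eq`: the condition is `x - z ∈ m * d`, which contains `J`; so it defines a function on the quotient (`a q = 1` if `factor q = mk z`), and the number of
`q` with value 1 is `absNorm J / absNorm (m * d)` (`card_fiber`). -/
theorem weight {m d J : Ideal (𝓞 K)} (hJ : J ≠ ⊥) (h : IsCoprime d m) (hJd : J ≤ m * d) : ∃ a : 𝓞 K ⧸ J → ℂ,
    (∀ x : 𝓞 K, a (Ideal.Quotient.mk J x) = if x - 1 ∈ m ∧ x ∈ d then 1 else 0) ∧
      (∑ᶠ q, a q) * (Ideal.absNorm (m * d) : ℂ) = Ideal.absNorm J := by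
  obtain ⟨z, hz⟩ := coset_eq h
  haveI : Finite (𝓞 K ⧸ J) := Ideal.finiteQuotientOfFreeOfNeBot J hJ
  letI : Fintype (𝓞 K ⧸ J) := Fintype.ofFinite _
  refine ⟨fun q => if Ideal.Quotient.factor hJd q = Ideal.Quotient.mk (m * d) z then 1 else 0, ?_, ?_⟩
  · intro x
    show (if Ideal.Quotient.factor hJd (Ideal.Quotient.mk J x) = Ideal.Quotient.mk (m * d) z then (1 : ℂ) else 0) = _
    rw [Ideal.Quotient.factor_mk, Ideal.Quotient.eq]
    simp only [hz x]
  · rw [finsum_eq_sum_of_fintype, Finset.sum_boole, ← card_fiber hJ hJd z, Nat.card_eq_fintype_card,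
      Fintype.card_subtype]
    push_cast
    rfl

end CFTY
end

-- from Lib.CFT.Y23
section

/-! # CFT module Y, chunk Y23: sums over ideals -/

open NumberField

namespace CFTY

variable {K : Type} [Field K] [NumberField K]

theorem tm_mul (χ : Ideal (𝓞 K) →*₀ ℂ) (s : ℂ) (a b : Ideal (𝓞 K)) :
    CFTZ.tm χ s (a * b) = CFTZ.tm χ s a * CFTZ.tm χ s b := by
  exact map_mul (CFTZ.tmH χ s) a b


/-- PROOF. `‖tm χ s a‖ ≤ (absNorm a) ^ (- re s)` for `a ≠ ⊥` (and 0 for `a = ⊥`), `CFTZ.ideal_summable`. -/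
theorem tm_summable {m : Ideal (𝓞 K)} {ψ : K → ℂ} {χ : Ideal (𝓞 K) →*₀ ℂ} (hχ : HCh m ψ χ) {s : ℂ} (hs : 1 < s.re) :
    Summable (CFTZ.tm χ s) := by
  have h1 : ∀ a, ‖χ a‖ ≤ 1 := by
    intro a
    by_cases ha : a = ⊥
    · subst ha
      have h2 : χ ⊥ = 0 := map_zero χ
      rw [h2, norm_zero]
      exact zero_le_one
    · by_cases hc : IsCoprime a m
      · exact (hχ.norm a ha hc).le
      · rw [hχ.zero a hc, norm_zero]
        exact zero_le_one
  refine Summable.of_norm_bounded (CFTZ.ideal_summable (K := K) s.re hs) fun a => ?_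
  unfold CFTZ.tm
  have h3 : (-s).re ≠ 0 := by
    rw [Complex.neg_re]
    linarith
  rw [norm_mul, Complex.norm_natCast_cpow_of_re_ne_zero _ h3, Complex.neg_re]
  exact mul_le_of_le_one_left (Real.rpow_nonneg (Nat.cast_nonneg _) _) (h1 a)


open Classical in
/-- PROOF. The ideals `I ≤ j` are the `a * j`; `a ↦ a * j` is injective (`j ≠ ⊥`). -/
theorem sum_multiples {j : Ideal (𝓞 K)} (hj : j ≠ ⊥) (F : Ideal (𝓞 K) → ℂ) :
    ∑' I : Ideal (𝓞 K), (if I ≤ j then F I else 0) = ∑' a : Ideal (𝓞 K), F (a * j) := by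
  have hinj : Function.Injective fun a : Ideal (𝓞 K) => a * j := fun a b h => mul_right_cancel₀ hj h
  have h1 : ∀ a : Ideal (𝓞 K), F (a * j) = (fun I => if I ≤ j then F I else 0) (a * j) := by
    intro a
    change _ = if a * j ≤ j then F (a * j) else 0
    rw [if_pos Ideal.mul_le_right]
  rw [tsum_congr h1]
  refine (hinj.tsum_eq ?_).symm
  intro I hI
  rw [Function.mem_support] at hI
  have h2 : I ≤ j := by
    by_contra h
    exact hI (if_neg h)
  obtain ⟨c, hc⟩ := Ideal.dvd_iff_le.2 h2
  exact ⟨c, by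
    change c * j = I
    rw [hc, mul_comm]⟩


open Classical in
/-- PROOF. For `c ∈ T`: `∑' I, [PrI m I ∧ I ≤ b c] tm I = tm c * ∑' a, [PrI m (a c) ∧ a ≤ b] tm a` (`sum_multiples` with `j = c`: `I ≤ b c ≤ c`, `a c ≤ b c ↔ a ≤ b`; `tm_mul`),
and `tm c ≠ 0`. Sum over `T`: for every `a` with `tm a ≠ 0` exactly one `c ∈ T` has `PrI m (a c)` (`HCh.zero`, `Reps`). Then `sum_multiples` with `j = b`, `tm_mul`, `tsum_mul_left`. -/
theorem sum_reps {m : Ideal (𝓞 K)} {ψ : K → ℂ} {χ : Ideal (𝓞 K) →*₀ ℂ} (hχ : HCh m ψ χ) {T : Finset (Ideal (𝓞 K))}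
    (hT : Reps m T) {b : Ideal (𝓞 K)} (hb : b ≠ ⊥) {s : ℂ} (hs : 1 < s.re) :
    ∑ c ∈ T, (CFTZ.tm χ s c)⁻¹ * ∑' I : Ideal (𝓞 K), (if PrI m I ∧ I ≤ b * c then CFTZ.tm χ s I else 0) =
      CFTZ.tm χ s b * Lc χ s := by
  have hsumm := tm_summable hχ hs
  have hne : ∀ c ∈ T, CFTZ.tm χ s c ≠ 0 := by
    intro c hc
    obtain ⟨h1, h2⟩ := hT.1 c hc
    unfold CFTZ.tm
    refine mul_ne_zero ?_ ?_
    · intro h0
      have h3 := hχ.norm c h1 h2
      rw [h0, norm_zero] at h3
      exact zero_ne_one h3
    · intro h0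
      rw [Complex.cpow_eq_zero_iff] at h0
      exact h1 (Ideal.absNorm_eq_zero_iff.1 (Nat.cast_eq_zero.1 h0.1))
  have hstep : ∀ c ∈ T, (CFTZ.tm χ s c)⁻¹ * ∑' I : Ideal (𝓞 K), (if PrI m I ∧ I ≤ b * c then CFTZ.tm χ s I else 0) =
      ∑' a : Ideal (𝓞 K), if PrI m (a * c) ∧ a ≤ b then CFTZ.tm χ s a else 0 := by
    intro c hc
    obtain ⟨h1, h2⟩ := hT.1 c hc
    have h3 : ∑' I : Ideal (𝓞 K), (if PrI m I ∧ I ≤ b * c then CFTZ.tm χ s I else 0) =
        ∑' I : Ideal (𝓞 K), if I ≤ c then (fun I => if PrI m I ∧ I ≤ b * c then CFTZ.tm χ s I else 0) I else 0 := by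
      refine tsum_congr fun I => ?_
      by_cases h4 : I ≤ c
      · rw [if_pos h4]
      · rw [if_neg h4, if_neg]
        rintro ⟨_, h5⟩
        exact h4 (h5.trans Ideal.mul_le_right)
    rw [h3, sum_multiples h1, ← tsum_mul_left]
    refine tsum_congr fun a => ?_
    have h6 : a * c ≤ b * c ↔ a ≤ b := by
      rw [← Ideal.dvd_iff_le, ← Ideal.dvd_iff_le, mul_dvd_mul_iff_right h1]
    by_cases h7 : PrI m (a * c) ∧ a ≤ b
    · rw [if_pos h7]
      change _ * (if PrI m (a * c) ∧ a * c ≤ b * c then CFTZ.tm χ s (a * c) else 0) = _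
      rw [if_pos ⟨h7.1, h6.2 h7.2⟩, tm_mul, mul_comm (CFTZ.tm χ s a), inv_mul_cancel_left₀ (hne c hc)]
    · rw [if_neg h7]
      change _ * (if PrI m (a * c) ∧ a * c ≤ b * c then CFTZ.tm χ s (a * c) else 0) = _
      rw [if_neg (fun h => h7 ⟨h.1, h6.1 h.2⟩), mul_zero]
  rw [Finset.sum_congr rfl hstep]
  have hS : ∀ c ∈ T, Summable fun a : Ideal (𝓞 K) => if PrI m (a * c) ∧ a ≤ b then CFTZ.tm χ s a else 0 := by
    intro c _
    refine Summable.of_norm_bounded hsumm.norm fun a => ?_
    split_ifs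
    · exact le_rfl
    · rw [norm_zero]
      exact norm_nonneg _
  rw [← Summable.tsum_finsetSum hS]
  have h8 : ∀ a : Ideal (𝓞 K), ∑ c ∈ T, (if PrI m (a * c) ∧ a ≤ b then CFTZ.tm χ s a else 0) = if a ≤ b then CFTZ.tm χ s a else 0 := by
    intro a
    by_cases hab : a ≤ b
    · rw [if_pos hab]
      by_cases ha : a ≠ ⊥ ∧ IsCoprime a m
      · obtain ⟨c, ⟨hc1, hc2⟩, hc3⟩ := hT.2 a ha.1 ha.2
        rw [Finset.sum_eq_single c]
        · rw [if_pos ⟨hc2, hab⟩]
        · intro c' hc' hne'
          rw [if_neg]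
          rintro ⟨h9, _⟩
          exact hne' (hc3 c' ⟨hc', h9⟩)
        · intro h
          exact absurd hc1 h
      · have h0 : CFTZ.tm χ s a = 0 := by
          unfold CFTZ.tm
          by_cases h10 : a = ⊥
          · have h11 : χ a = 0 := by
              rw [h10]
              exact map_zero χ
            rw [h11, zero_mul]
          · have h12 : ¬ IsCoprime a m := fun h => ha ⟨h10, h⟩
            rw [hχ.zero a h12, zero_mul]
        simp only [h0, ite_self, Finset.sum_const_zero]
    · rw [if_neg hab]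
      refine Finset.sum_eq_zero fun c _ => ?_
      rw [if_neg (fun h => hab h.2)]
  rw [tsum_congr h8, sum_multiples hb]
  unfold Lc
  rw [← tsum_mul_left]
  refine tsum_congr fun a => ?_
  rw [tm_mul, mul_comm]


end CFTY
end
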