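import Mathlib
import Pool.Agent.Lib.H1M.RC.M008
import Pool.Agent.Lib.H1M.RC.M013

/-! Merged copies (to shorten the build) of Lib.CFT.B14, Lib.H69H.P2, Lib.H69H.E1, Lib.CFT.ZF, Lib.H69H.Z1, Lib.H69H.T2, Lib.H69H.E3, Lib.H69H.P1, Lib.H69H.P3, Lib.H69H.E4, Lib.H69H.E5, Lib.H69H.U7. -/

-- from Lib.CFT.B14
section

/-! # CFT module B, chunk B14: weak approximation with signs -/

open NumberField IsDedekindDomain

namespace CFT

variable {K : Type} [Field K] [NumberField K]

theorem b14_sep : ∀ φ : K →+* ℝ, ∃ a : K, 1 < |φ a| ∧ ∀ ψ : K →+* ℝ, ψ ≠ φ → |ψ a| < 1 := by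
  have hfin : Finite (K →+* ℝ) := by
    refine Finite.of_injective (fun φ : K →+* ℝ => Complex.ofRealHom.comp φ) fun φ ψ h => ?_
    ext x
    have := congrArg (fun f : K →+* ℂ => f x) h
    simpa using this
  have key := AbsoluteValue.exists_one_lt_lt_one_pi_of_not_isEquiv
    (v := fun φ : K →+* ℝ => (InfinitePlace.mk (Complex.ofRealHom.comp φ)).1)
    (fun φ => InfinitePlace.isNontrivial _) (fun φ ψ hne h => by
      have h1 := InfinitePlace.eq_iff_isEquiv.2 h
      rw [InfinitePlace.mk_eq_iff] at h1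
      apply hne
      ext x
      rcases h1 with h1 | h1
      · have := congrArg (fun f : K →+* ℂ => f x) h1
        simpa using this
      · have := congrArg (fun f : K →+* ℂ => f x) h1
        simpa using this)
  intro φ
  obtain ⟨a, h1, h2⟩ := key φ
  have e : ∀ ψ : K →+* ℝ, (InfinitePlace.mk (Complex.ofRealHom.comp ψ)).1 a = |ψ a| := by
    intro ψ
    have h3 : (InfinitePlace.mk (Complex.ofRealHom.comp ψ)) a = ‖(Complex.ofRealHom.comp ψ) a‖ := InfinitePlace.apply _ _
    have h4 : ‖(Complex.ofRealHom.comp ψ) a‖ = |ψ a| := by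
      simp
    rw [← h4, ← h3]
    rfl
  refine ⟨a, ?_, fun ψ hψ => ?_⟩
  · rw [← e]
    exact h1
  · rw [← e]
    exact h2 ψ hψ

theorem b14_sign (ε : (K →+* ℝ) → ℝ) (hε : ∀ φ, ε φ ≠ 0) : ∃ x : 𝓞 K, (x : K) ≠ 0 ∧ ∀ φ : K →+* ℝ, 0 < φ (x : K) * ε φ := by
  classical
  have hfin : Finite (K →+* ℝ) := by
    refine Finite.of_injective (fun φ : K →+* ℝ => Complex.ofRealHom.comp φ) fun φ ψ h => ?_
    ext x
    have := congrArg (fun f : K →+* ℂ => f x) h
    simpa using this
  have := Fintype.ofFinite (K →+* ℝ)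
  choose a ha1 ha2 using b14_sep (K := K)
  set y : K := ∏ φ ∈ Finset.univ.filter (fun φ : K →+* ℝ => ε φ < 0), (1 - a φ ^ 2) with hy
  have hne : ∀ ψ : K →+* ℝ, ∀ φ : K →+* ℝ, ψ ≠ φ → 0 < ψ (1 - a φ ^ 2) := by
    intro ψ φ h
    rw [map_sub, map_one, map_pow, sub_pos, sq_lt_one_iff_abs_lt_one]
    exact ha2 φ ψ h
  have heq : ∀ φ : K →+* ℝ, φ (1 - a φ ^ 2) < 0 := by
    intro φ
    rw [map_sub, map_one, map_pow, sub_neg, one_lt_sq_iff_one_lt_abs]
    exact ha1 φ
  have hya : ∀ ψ : K →+* ℝ, 0 < ψ y * ε ψ := by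
    intro ψ
    rw [hy, map_prod]
    by_cases h : ε ψ < 0
    · have hm : ψ ∈ Finset.univ.filter (fun φ : K →+* ℝ => ε φ < 0) := by simpa using h
      rw [← Finset.mul_prod_erase _ _ hm]
      have h1 : 0 < ∏ φ ∈ (Finset.univ.filter (fun φ : K →+* ℝ => ε φ < 0)).erase ψ, ψ (1 - a φ ^ 2) := by
        refine Finset.prod_pos fun φ hφ => hne ψ φ ?_
        exact fun h => (Finset.ne_of_mem_erase hφ) h.symm
      have h2 := heq ψ
      have h3 : 0 < ψ (1 - a ψ ^ 2) * ε ψ := mul_pos_of_neg_of_neg h2 h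
      calc 0 < (ψ (1 - a ψ ^ 2) * ε ψ) * ∏ φ ∈ (Finset.univ.filter (fun φ : K →+* ℝ => ε φ < 0)).erase ψ, ψ (1 - a φ ^ 2) := mul_pos h3 h1
        _ = _ := by ring
    · have h0 : 0 < ε ψ := lt_of_le_of_ne (not_lt.1 h) (hε ψ).symm
      refine mul_pos (Finset.prod_pos fun φ hφ => hne ψ φ ?_) h0
      rintro rfl
      exact h (by simpa using hφ)
  have hy0 : y ≠ 0 := by
    rw [hy, Finset.prod_ne_zero_iff]
    intro φ _ h0
    have := heq φ
    rw [h0, map_zero] at this
    exact lt_irrefl _ this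
  obtain ⟨p, q, hq, hpq⟩ := IsFractionRing.div_surjective (A := 𝓞 K) y
  have hq0 : (algebraMap (𝓞 K) K q) ≠ 0 := by
    intro h
    have := nonZeroDivisors.ne_zero hq
    exact this ((FaithfulSMul.algebraMap_eq_zero_iff (𝓞 K) K).1 h)
  have hpe : (algebraMap (𝓞 K) K p) = y * algebraMap (𝓞 K) K q := by
    rw [← hpq]
    field_simp
  refine ⟨p * q, ?_, fun φ => ?_⟩
  · have : ((p * q : 𝓞 K) : K) = y * (algebraMap (𝓞 K) K q) ^ 2 := by
      show algebraMap (𝓞 K) K (p * q) = _
      rw [map_mul, hpe]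
      ring
    rw [this]
    exact mul_ne_zero hy0 (pow_ne_zero 2 hq0)
  · have : ((p * q : 𝓞 K) : K) = y * (algebraMap (𝓞 K) K q) ^ 2 := by
      show algebraMap (𝓞 K) K (p * q) = _
      rw [map_mul, hpe]
      ring
    rw [this, map_mul, map_pow]
    have h1 : 0 < (φ (algebraMap (𝓞 K) K q)) ^ 2 :=
      lt_of_le_of_ne (sq_nonneg _) (Ne.symm (pow_ne_zero 2 ((map_ne_zero φ).2 hq0)))
    calc 0 < (φ y * ε φ) * (φ (algebraMap (𝓞 K) K q)) ^ 2 := mul_pos (hya φ) h1
      _ = _ := by ring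

theorem b14_cong (S : Finset (Pr K)) (N : ℕ) (a : Pr K → K) :
    ∃ x : K, ∀ v ∈ S, v.valuation K (x - a v) < WithZero.exp (-(N : ℤ)) := by
  classical
  obtain ⟨⟨b, hb⟩, hint⟩ := IsLocalization.exist_integer_multiples (nonZeroDivisors (𝓞 K)) S a
  have hb0 : b ≠ 0 := nonZeroDivisors.ne_zero hb
  have hbK : (algebraMap (𝓞 K) K b) ≠ 0 := fun h => hb0 ((FaithfulSMul.algebraMap_eq_zero_iff (𝓞 K) K).1 h)
  choose! c hc using hint
  have hc' : ∀ v ∈ S, algebraMap (𝓞 K) K (c v) = algebraMap (𝓞 K) K b * a v := by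
    intro v hv
    rw [hc v hv, Algebra.smul_def]
  obtain ⟨y, hy⟩ := IsDedekindDomain.exists_forall_sub_mem_ideal (s := S) (fun v : Pr K => v.asIdeal)
    (fun v => N + 1 + (od v (b : K)).toNat) (fun v _ => v.prime) (fun v _ w _ hvw h => hvw (HeightOneSpectrum.ext h))
    (fun v => c v.1)
  refine ⟨(algebraMap (𝓞 K) K y) / algebraMap (𝓞 K) K b, fun v hv => ?_⟩
  have e : (algebraMap (𝓞 K) K y) / algebraMap (𝓞 K) K b - a v = algebraMap (𝓞 K) K (y - c v) / algebraMap (𝓞 K) K b := by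
    rw [map_sub, hc' v hv]
    field_simp
  have h1 : v.valuation K (algebraMap (𝓞 K) K (y - c v)) ≤ WithZero.exp (-((N + 1 + (od v (b : K)).toNat : ℕ) : ℤ)) := by
    rw [HeightOneSpectrum.valuation_of_algebraMap, HeightOneSpectrum.intValuation_le_pow_iff_mem]
    exact hy v hv
  have h2 : v.valuation K (algebraMap (𝓞 K) K b) = WithZero.exp (-od v (algebraMap (𝓞 K) K b)) := val_eq v hbK
  have h3 : od v (algebraMap (𝓞 K) K b) ≤ (od v (b : K)).toNat := Int.self_le_toNat _
  rw [e, map_div₀, h2]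
  have h4 : v.valuation K (algebraMap (𝓞 K) K (y - c v)) / WithZero.exp (-od v (algebraMap (𝓞 K) K b)) ≤
      WithZero.exp (-((N + 1 + (od v (b : K)).toNat : ℕ) : ℤ)) / WithZero.exp (-od v (algebraMap (𝓞 K) K b)) := by
    gcongr
    exact (WithZero.exp_pos).le
  refine h4.trans_lt ?_
  rw [← WithZero.exp_sub, WithZero.exp_lt_exp]
  push_cast
  omega

theorem b14_t (S : Finset (Pr K)) (N : ℕ) : ∃ t : ℕ, 0 < t ∧ ∀ v ∈ S, v.valuation K (t : K) < WithZero.exp (-(N : ℤ)) := by
  classical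
  refine ⟨(∏ v ∈ S, Nm v) ^ (N + 1), ?_, fun v hv => ?_⟩
  · exact pow_pos (Finset.prod_pos fun v _ => Nm_pos v) _
  · have h1 : v.valuation K (((∏ v ∈ S, Nm v) : ℕ) : K) ≤ WithZero.exp (-1 : ℤ) := by
      have e : (((∏ v ∈ S, Nm v) : ℕ) : K) = algebraMap (𝓞 K) K ((((∏ v ∈ S, Nm v) : ℕ) : 𝓞 K)) := by
        rw [map_natCast]
      have h2 := HeightOneSpectrum.intValuation_le_pow_iff_mem v ((((∏ v ∈ S, Nm v) : ℕ) : 𝓞 K)) 1
      rw [e, HeightOneSpectrum.valuation_of_algebraMap]
      refine h2.2 ?_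
      rw [pow_one, Nat.cast_prod, ← Finset.mul_prod_erase _ _ hv]
      exact Ideal.mul_mem_right _ _ (Ideal.absNorm_mem _)
    rw [Nat.cast_pow, map_pow]
    calc (v.valuation K (((∏ v ∈ S, Nm v) : ℕ) : K)) ^ (N + 1) ≤ (WithZero.exp (-1 : ℤ)) ^ (N + 1) := pow_le_pow_left' h1 _
      _ = WithZero.exp (-((N + 1 : ℕ) : ℤ)) := by
          rw [← WithZero.exp_nsmul]
          congr 1
          simp
      _ < _ := by
          rw [WithZero.exp_lt_exp]
          push_cast
          omega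

/-- PROOF. See the docstring in PLAN: congruences by the Chinese remainder theorem, then signs by adding a large multiple. -/
theorem approx (S : Finset (Pr K)) (N : ℕ) (a : Pr K → K) (ε : (K →+* ℝ) → ℝ) (hε : ∀ φ, ε φ ≠ 0) :
    ∃ x : K, x ≠ 0 ∧ (∀ v ∈ S, v.valuation K (x - a v) < WithZero.exp (-(N : ℤ))) ∧ ∀ φ : K →+* ℝ, 0 < φ x * ε φ := by
  classical
  obtain ⟨x₁, hx₁⟩ := b14_cong S N a
  obtain ⟨t, ht0, ht⟩ := b14_t S N
  obtain ⟨y, hy0, hy⟩ := b14_sign ε hε
  have hfin : Finite (K →+* ℝ) := by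
    refine Finite.of_injective (fun φ : K →+* ℝ => Complex.ofRealHom.comp φ) fun φ ψ h => ?_
    ext x
    have := congrArg (fun f : K →+* ℂ => f x) h
    simpa using this
  have hev : ∀ φ : K →+* ℝ, ∀ᶠ m : ℕ in Filter.atTop, 0 < φ (x₁ + t * m * (y : K)) * ε φ := by
    intro φ
    have h1 : 0 < (t : ℝ) * (φ (y : K) * ε φ) := mul_pos (by exact_mod_cast ht0) (hy φ)
    have h2 : Filter.Tendsto (fun m : ℕ => (φ x₁ * ε φ) + (m : ℝ) * ((t : ℝ) * (φ (y : K) * ε φ))) Filter.atTop Filter.atTop := by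
      refine Filter.tendsto_atTop_add_const_left _ _ ?_
      exact Filter.Tendsto.atTop_mul_const h1 tendsto_natCast_atTop_atTop
    filter_upwards [h2.eventually_gt_atTop 0] with m hm
    have e : φ (x₁ + t * m * (y : K)) * ε φ = (φ x₁ * ε φ) + (m : ℝ) * ((t : ℝ) * (φ (y : K) * ε φ)) := by
      rw [map_add, map_mul, map_mul, map_natCast, map_natCast]
      ring
    rw [e]
    exact hm
  have hall : ∀ᶠ m : ℕ in Filter.atTop, ∀ φ : K →+* ℝ, 0 < φ (x₁ + t * m * (y : K)) * ε φ := Filter.eventually_all.2 hev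
  obtain ⟨M, hM⟩ := Filter.eventually_atTop.1 hall
  have hval : ∀ m : ℕ, ∀ v ∈ S, v.valuation K ((x₁ + t * m * (y : K)) - a v) < WithZero.exp (-(N : ℤ)) := by
    intro m v hv
    have e : (x₁ + t * m * (y : K)) - a v = (x₁ - a v) + t * (algebraMap (𝓞 K) K ((m : 𝓞 K) * y)) := by
      rw [map_mul, map_natCast]
      ring
    rw [e]
    refine Valuation.map_add_lt _ (hx₁ v hv) ?_
    rw [map_mul]
    calc v.valuation K (t : K) * v.valuation K (algebraMap (𝓞 K) K ((m : 𝓞 K) * y)) ≤ v.valuation K (t : K) * 1 :=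
          mul_le_mul_right (v.valuation_le_one _) _
      _ < _ := by
          rw [mul_one]
          exact ht v hv
  by_cases h0 : x₁ + t * M * (y : K) = 0
  · refine ⟨x₁ + t * (M + 1 : ℕ) * (y : K), ?_, hval (M + 1), hM (M + 1) (Nat.le_succ M)⟩
    have e : x₁ + t * (M + 1 : ℕ) * (y : K) = (x₁ + t * M * (y : K)) + t * (y : K) := by
      push_cast
      ring
    rw [e, h0, zero_add]
    exact mul_ne_zero (Nat.cast_ne_zero.2 ht0.ne') hy0
  · exact ⟨x₁ + t * M * (y : K), h0, hval M, hM M le_rfl⟩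

end CFT
end

-- from Lib.H69H.P2
section

set_option autoImplicit false
set_option linter.unusedSectionVars false

namespace Pool.Agent.H69H

open NumberField IsDedekindDomain CFT

variable {K : Type} [Field K] [NumberField K] {L : Type} [Field L] [NumberField L] [Algebra K L]

/-- Elements near `1` at `S`, negative at `v` and positive at the other real places. -/
theorem exists_sign (S : Finset (Pr K)) (N : ℕ) (v : InfinitePlace K) :
    ∃ κ : Kˣ, (∀ u ∈ S, u.valuation K ((κ : K) - 1) < WithZero.exp (-(N : ℤ))) ∧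
      ∀ φ : K →+* ℝ, (InfinitePlace.mk ((algebraMap ℝ ℂ).comp φ) = v → φ (κ : K) < 0) ∧
        (InfinitePlace.mk ((algebraMap ℝ ℂ).comp φ) ≠ v → 0 < φ (κ : K)) := by
  classical
  obtain ⟨x, hx, h1, h2⟩ := CFT.approx S N (fun _ => (1 : K))
    (fun φ => if InfinitePlace.mk ((algebraMap ℝ ℂ).comp φ) = v then (-1 : ℝ) else 1) (fun φ => by
      split_ifs <;> norm_num)
  refine ⟨Units.mk0 x hx, h1, fun φ => ⟨fun h => ?_, fun h => ?_⟩⟩
  · have := h2 φ
    rw [if_pos h] at this
    rw [Units.val_mk0]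
    linarith
  · have := h2 φ
    rw [if_neg h] at this
    rw [Units.val_mk0]
    linarith

end Pool.Agent.H69H
end

-- from Lib.H69H.E1
section

set_option autoImplicit false
set_option linter.unusedSectionVars false

namespace Pool.Agent.H69H

open NumberField IsDedekindDomain CFT

variable {K : Type} [Field K] [NumberField K] {L : Type} [Field L] [NumberField L] [Algebra K L]

theorem e1_mem_UL (x : Lˣ) : x ∈ UL L ↔ ∀ w : Pr L, od w (x : L) = 0 := by
  unfold UL
  rw [MonoidHom.mem_ker, dvU_apply]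
  constructor
  · intro h w
    have h1 : dv (x : L) = 0 := h
    rw [← dv_apply, h1]
    rfl
  · intro h
    have h1 : dv (x : L) = 0 := by
      ext w
      exact h w
    rw [h1]
    rfl

theorem e1_od_pow (w : Pr L) (x : Lˣ) (m : ℕ) : od w ((x ^ m : Lˣ) : L) = m * od w (x : L) := by
  induction m with
  | zero => rw [pow_zero, Units.val_one, od_one]; simp
  | succ m ih =>
    rw [pow_succ, Units.val_mul, od_mul w (x ^ m).ne_zero x.ne_zero, ih]
    push_cast
    ring

theorem e1_princ (L : Type) [Field L] [NumberField L] : ∃ h : ℕ, h ≠ 0 ∧ ∀ w : Pr L, ∃ y : Lˣ, dv (y : L) = Finsupp.single w (h : ℤ) := by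
  classical
  have : Finite (ClassGroup (𝓞 L)) := inferInstance
  refine ⟨Nat.card (ClassGroup (𝓞 L)), Nat.card_pos.ne', fun w => ?_⟩
  set h := Nat.card (ClassGroup (𝓞 L)) with hh
  let I : nonZeroDivisors (Ideal (𝓞 L)) := ⟨w.asIdeal, mem_nonZeroDivisors_of_ne_zero w.ne_bot⟩
  have h1 : ClassGroup.mk0 (I ^ h) = 1 := by
    rw [map_pow, hh]
    exact pow_card_eq_one'
  have h2 : ((I ^ h : nonZeroDivisors (Ideal (𝓞 L))) : Ideal (𝓞 L)).IsPrincipal := ClassGroup.mk0_eq_one_iff (I ^ h).2 |>.1 h1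
  obtain ⟨a, ha⟩ := h2
  have h3 : ((I ^ h : nonZeroDivisors (Ideal (𝓞 L))) : Ideal (𝓞 L)) = w.asIdeal ^ h := by
    rw [SubmonoidClass.coe_pow]
  rw [h3] at ha
  have ha0 : a ≠ 0 := by
    rintro rfl
    have h4 : w.asIdeal ^ h = ⊥ := by
      rw [ha]
      simp
    exact (pow_ne_zero h w.ne_bot) h4
  have ha1 : (algebraMap (𝓞 L) L a) ≠ 0 := by
    intro h5
    exact ha0 ((FaithfulSMul.algebraMap_injective (𝓞 L) L) (by rw [h5, map_zero]))
  refine ⟨Units.mk0 _ ha1, ?_⟩
  rw [Units.val_mk0]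
  refine idl_inj ?_ ?_ ?_
  · intro v
    rw [dv_apply]
    unfold od
    have h6 : v.valuation L (algebraMap (𝓞 L) L a) ≤ 1 := v.valuation_le_one a
    have h7 : v.valuation L (algebraMap (𝓞 L) L a) ≠ 0 := (Valuation.ne_zero_iff _).2 ha1
    have h8 := (WithZero.log_le_log h7 one_ne_zero).2 h6
    rw [WithZero.log_one] at h8
    omega
  · exact b04_single w (by positivity)
  · rw [b04_idl_single, Int.toNat_natCast, ha]
    exact idl_dv ha0

variable [IsGalois K L] {σ : L ≃ₐ[K] L} (hσ : ∀ x, x ∈ Subgroup.zpowers σ) {S T : Finset (Pr K)} {V : Subgroup Lˣ} {N : ℕ}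

/-- PROOF. `relIndex_ne_zero_of_fg` (G1) with `UL_fg` (U5) and `pow_mem_V` (T1). -/
theorem E0_index (hV : IsV σ S V) : (V ⊓ UL L).relIndex (UL L) ≠ 0 := by
  obtain ⟨m, hm, h⟩ := pow_mem_V hV
  refine relIndex_ne_zero_of_fg inf_le_right (UL_fg L) hm fun x hx => ?_
  exact Subgroup.mem_inf.2 ⟨h x fun w _ => (e1_mem_UL x).1 hx w, pow_mem hx m⟩

/-- PROOF. `MT L T` is finitely generated (`MT_fg`, D5): by the lemma G1 it is enough to find `m ≠ 0` with `x ^ m ∈ (ET V T).map (dvU L)` for all `x ∈ MT L T`. Let `h` be the class number of `L`: for `D ∈ DTL L T` the divisor `h D` is principal, `h • D = dv y`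
(the ideal class group is a finite group: Mathlib `ClassGroup`, `NumberField.classNumber`; for a prime ideal `w`, `w^h` is principal, generated by `y ∈ 𝓞 L`, and `dv y = h • single w 1`; it is enough to do it for the generators `single w 1`), `y` is a unit at the primes above `S`
(`hT.disj`), so `y^m ∈ V` with the `m` of `pow_mem_V` (T1), and `y^m ∈ ET V T`, `dv (y^m) = (h m) D`. -/
theorem ET_index (hV : IsV σ S V) (hT : IsT σ S V N T) : ((ET V T).map (dvU L)).relIndex (MT L T) ≠ 0 := by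
  classical
  obtain ⟨m, hm, hmV⟩ := pow_mem_V hV
  obtain ⟨h, hh, hpr⟩ := e1_princ L
  have hle : (ET V T).map (dvU L) ≤ MT L T := by
    rintro _ ⟨x, hx, rfl⟩
    exact (Subgroup.mem_inf.1 hx).2
  have hone : ∀ w : Pr L, below K w ∈ T →
      (Multiplicative.ofAdd (Finsupp.single w (1 : ℤ)) : Multiplicative (Dv L)) ^ (h * m) ∈ (ET V T).map (dvU L) := by
    intro w hw
    obtain ⟨y, hy⟩ := hpr w
    have hod : ∀ w' : Pr L, w' ≠ w → od w' (y : L) = 0 := by
      intro w' hw'
      rw [← dv_apply, hy, Finsupp.single_apply, if_neg (fun h => hw' h.symm)]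
    refine ⟨y ^ m, (mem_ET V T _).2 ⟨hmV y fun w' hw' => hod w' ?_, fun w' hw' => ?_⟩, ?_⟩
    · rintro rfl
      exact hT.disj _ hw hw'
    · rw [e1_od_pow, hod w', mul_zero]
      rintro rfl
      exact hw' hw
    · have h1 : dvU L (y ^ m) = (dvU L y) ^ m := map_pow _ _ _
      rw [h1, dvU_apply, hy, pow_mul]
      congr 1
      rw [← ofAdd_nsmul]
      congr 1
      rw [Finsupp.smul_single, nsmul_eq_mul, mul_one]
  have hle2 : ∀ (E : Dv L), (∀ w, below K w ∉ T → E w = 0) →
      (Multiplicative.ofAdd E : Multiplicative (Dv L)) ^ (h * m) ∈ (ET V T).map (dvU L) := by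
    intro E
    induction E using Finsupp.induction with
    | zero =>
      intro _
      rw [ofAdd_zero, one_pow]
      exact one_mem _
    | single_add w a f hwf ha ih =>
      intro hE
      have hw : below K w ∈ T := by
        by_contra hcon
        have h1 := hE w hcon
        rw [Finsupp.add_apply, Finsupp.single_eq_same, Finsupp.notMem_support_iff.1 hwf, add_zero] at h1
        exact ha h1
      rw [ofAdd_add, mul_pow]
      refine mul_mem ?_ (ih ?_)
      · have h2 : (Multiplicative.ofAdd (Finsupp.single w a) : Multiplicative (Dv L)) =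
            (Multiplicative.ofAdd (Finsupp.single w (1 : ℤ))) ^ a := by
          rw [← ofAdd_zsmul]
          congr 1
          rw [Finsupp.smul_single, smul_eq_mul, mul_one]
        rw [h2, ← zpow_natCast, ← zpow_mul, mul_comm a, zpow_mul, zpow_natCast]
        exact zpow_mem (hone w hw) a
      · intro w' hw'
        have h1 := hE w' hw'
        rw [Finsupp.add_apply, Finsupp.single_apply, if_neg, zero_add] at h1
        · exact h1
        · rintro rfl
          exact hw' hw
  exact relIndex_ne_zero_of_fg hle (MT_fg T) (mul_ne_zero hh hm) fun x hx => hle2 _ hx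

end Pool.Agent.H69H
end

-- from Lib.CFT.ZF
section

/-! # CFT, module Z, part F: the ray class group is finite (Z1) -/

open NumberField IsDedekindDomain nonZeroDivisors

namespace CFTZ

open CFT

variable {K : Type} [Field K] [NumberField K]

/-- A prime as a nonzero ideal. -/
noncomputable def pz (v : Pr K) : (Ideal (𝓞 K))⁰ := ⟨v.asIdeal, mem_nonZeroDivisors_of_ne_zero v.ne_bot⟩

/-- The class of a divisor. -/
noncomputable def cl : Dv K →+ Additive (ClassGroup (𝓞 K)) :=
  Finsupp.liftAddHom fun v => zmultiplesHom _ (Additive.ofMul (ClassGroup.mk0 (pz v)))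

theorem cl_idl {D : Dv K} (hD : ∀ v, 0 ≤ D v) :
    cl D = Additive.ofMul (ClassGroup.mk0 ⟨idl D, mem_nonZeroDivisors_of_ne_zero (idl_ne_zero D)⟩) := by
  have h1 : (⟨idl D, mem_nonZeroDivisors_of_ne_zero (idl_ne_zero D)⟩ : (Ideal (𝓞 K))⁰) =
      ∏ v ∈ D.support, pz v ^ (D v).toNat := by
    apply Subtype.ext
    rw [Submonoid.coe_finset_prod]
    rfl
  rw [h1, map_prod, ofMul_prod]
  unfold cl
  rw [Finsupp.liftAddHom_apply]
  unfold Finsupp.sum
  refine Finset.sum_congr rfl fun v _ => ?_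
  rw [map_pow, ofMul_pow]
  show D v • Additive.ofMul (ClassGroup.mk0 (pz v)) = _
  conv_lhs => rw [← Int.toNat_of_nonneg (hD v)]
  rw [natCast_zsmul]

/-- Divisors of class 0 are principal. -/
theorem cl_ker {D : Dv K} (h : cl D = 0) : ∃ x : K, x ≠ 0 ∧ D = dv x := by
  obtain ⟨P, hP⟩ : ∃ P : Dv K, P = D.mapRange (fun n => max n 0) (by simp) := ⟨_, rfl⟩
  obtain ⟨M, hM⟩ : ∃ M : Dv K, M = D.mapRange (fun n => max (-n) 0) (by simp) := ⟨_, rfl⟩
  have hP0 : ∀ v, 0 ≤ P v := fun v => by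
    rw [hP, Finsupp.mapRange_apply]
    exact le_max_right _ _
  have hM0 : ∀ v, 0 ≤ M v := fun v => by
    rw [hM, Finsupp.mapRange_apply]
    exact le_max_right _ _
  have hD : D + M = P := by
    ext v
    rw [Finsupp.add_apply, hP, hM, Finsupp.mapRange_apply, Finsupp.mapRange_apply]
    rcases le_total 0 (D v) with h1 | h1
    · rw [max_eq_left h1, max_eq_right (by omega), add_zero]
    · rw [max_eq_right h1, max_eq_left (by omega)]
      ring
  have h1 : cl P = cl M := by
    rw [← hD, map_add, h, zero_add]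
  rw [cl_idl hP0, cl_idl hM0] at h1
  have h2 := Additive.ofMul.injective h1
  rw [ClassGroup.mk0_eq_mk0_iff] at h2
  obtain ⟨x, y, hx, hy, h3⟩ := h2
  have hxK : (x : K) ≠ 0 := fun h => hx (RingOfIntegers.ext h)
  have hyK : (y : K) ≠ 0 := fun h => hy (RingOfIntegers.ext h)
  have hx0 : ∀ v, 0 ≤ dv (x : K) v := fun v => od_nonneg v x
  have hy0 : ∀ v, 0 ≤ dv (y : K) v := fun v => od_nonneg v y
  have h4 : idl (dv (x : K) + P) = idl (dv (y : K) + M) := by
    rw [idl_add hx0 hP0, idl_add hy0 hM0, idl_dv hx, idl_dv hy]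
    exact h3
  have h5 := idl_inj (fun v => add_nonneg (hx0 v) (hP0 v)) (fun v => add_nonneg (hy0 v) (hM0 v)) h4
  refine ⟨(y : K) * (x : K)⁻¹, mul_ne_zero hyK (inv_ne_zero hxK), ?_⟩
  rw [dv_mul hyK (inv_ne_zero hxK), dv_inv]
  rw [← hD] at h5
  have h6 : dv (x : K) + D + M = dv (y : K) + M := by rw [add_assoc]; exact h5
  have h7 := add_right_cancel h6
  rw [← h7]
  abel

/-- A map to a finite type whose fibres lie in cosets. -/
theorem finiteIndex_of_map {G T : Type} [AddCommGroup G] [Finite T] (P : AddSubgroup G) (f : G → T)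
    (h : ∀ a b, f a = f b → a - b ∈ P) : P.FiniteIndex := by
  have h1 : Function.Injective fun q : G ⧸ P => f q.out := by
    intro q q' hq
    have h2 := h _ _ hq
    rw [← QuotientAddGroup.out_eq' q, ← QuotientAddGroup.out_eq' q']
    rw [eq_comm, QuotientAddGroup.eq_iff_sub_mem]
    have h3 := neg_mem h2
    rwa [neg_sub] at h3
  have h2 : Finite (G ⧸ P) := Finite.of_injective _ h1
  exact AddSubgroup.finiteIndex_of_finite_quotient

theorem finite_real : Finite (K →+* ℝ) := by
  refine Finite.of_injective (fun φ : K →+* ℝ => Complex.ofRealHom.comp φ) fun φ ψ h => ?_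
  refine RingHom.ext fun x => ?_
  exact Complex.ofReal_injective (RingHom.congr_fun h x)

theorem val_unit (v : Pr K) {a : 𝓞 K} (h : a ∉ v.asIdeal) : v.valuation K (a : K) = 1 := by
  refine le_antisymm (v.valuation_le_one a) (not_lt.1 fun hlt => h ?_)
  have h1 : v.valuation K (algebraMap (𝓞 K) K a) < 1 := hlt
  rw [HeightOneSpectrum.valuation_lt_one_iff_dvd] at h1
  exact Ideal.dvd_span_singleton.1 h1

theorem val_pow (v : Pr K) {a : 𝓞 K} {N : ℕ} (h : a ∈ v.asIdeal ^ (N + 1)) :
    v.valuation K (a : K) < WithZero.exp (-(N : ℤ)) := by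
  have h1 : v.valuation K (algebraMap (𝓞 K) K a) ≤ WithZero.exp (-((N + 1 : ℕ) : ℤ)) := by
    rw [HeightOneSpectrum.valuation_of_algebraMap, v.intValuation_le_pow_iff_mem]
    exact h
  refine lt_of_le_of_lt h1 ?_
  rw [WithZero.exp_lt_exp]
  push_cast
  omega

open Classical in
/-- Z1. The ray class group is finite. -/
theorem pray_fin (S : Finset (Pr K)) (N : ℕ) : (Pray S N).FiniteIndex := by
  have hfr : Finite (K →+* ℝ) := finite_real
  obtain ⟨m, hm⟩ : ∃ m : Ideal (𝓞 K), m = ∏ v ∈ S, v.asIdeal ^ (N + 1) := ⟨_, rfl⟩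
  have hm0 : m ≠ ⊥ := by
    rw [hm]
    exact Finset.prod_ne_zero_iff.2 fun v _ => pow_ne_zero _ v.ne_bot
  have hmv : ∀ v ∈ S, m ≤ v.asIdeal ^ (N + 1) := fun v hv => by
    rw [hm]
    exact Ideal.le_of_dvd (Finset.dvd_prod_of_mem (fun v : Pr K => v.asIdeal ^ (N + 1)) hv)
  have hfq : Finite (𝓞 K ⧸ m) := Ideal.finiteQuotientOfFreeOfNeBot m hm0
  have hfc : Finite (Additive (ClassGroup (𝓞 K))) := inferInstanceAs (Finite (ClassGroup (𝓞 K)))
  have ff : ∀ (D : Dv K) (v : Pr K), v ∈ S → (D.filter (· ∉ S)) v = 0 := fun D v hv =>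
    Finsupp.filter_apply_neg (fun v => v ∉ S) D (not_not.2 hv)
  have ft : ∀ (D : Dv K) (v : Pr K), v ∉ S → (D.filter (· ∉ S)) v = D v := fun D v hv =>
    Finsupp.filter_apply_pos (fun v => v ∉ S) D hv
  -- representatives of the classes
  obtain ⟨r, hr⟩ : ∃ r : Additive (ClassGroup (𝓞 K)) → Dv K, ∀ D : Dv K,
      cl ((r (cl (D.filter (· ∉ S)))).filter (· ∉ S)) = cl (D.filter (· ∉ S)) := by
    refine ⟨fun c => if h : ∃ D : Dv K, cl (D.filter (· ∉ S)) = c then h.choose else 0, fun D => ?_⟩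
    have h : ∃ E : Dv K, cl (E.filter (· ∉ S)) = cl (D.filter (· ∉ S)) := ⟨D, rfl⟩
    simp only
    rw [dif_pos h]
    exact h.choose_spec
  have key : ∀ D : Dv K, ∃ a b : 𝓞 K, a ≠ 0 ∧ b ≠ 0 ∧ (∀ v ∈ S, a ∉ v.asIdeal) ∧ (∀ v ∈ S, b ∉ v.asIdeal) ∧
      D.filter (· ∉ S) - (r (cl (D.filter (· ∉ S)))).filter (· ∉ S) = dv ((a : K) / (b : K)) := by
    intro D
    obtain ⟨x, hx, h1⟩ := cl_ker (D := D.filter (· ∉ S) - (r (cl (D.filter (· ∉ S)))).filter (· ∉ S))
      (by rw [map_sub, hr D, sub_self])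
    have h2 : ∀ v ∈ S, od v x = 0 := by
      intro v hv
      rw [← dv_apply, ← h1, Finsupp.sub_apply, ff _ v hv, ff _ v hv, sub_zero]
    obtain ⟨a, b, hb, hab, h3⟩ := frac_prime S fun v hv => (h2 v hv).ge
    have hbK : (b : K) ≠ 0 := fun h => hb (RingOfIntegers.ext h)
    have haK : (a : K) ≠ 0 := by
      intro h
      rw [h, zero_div] at hab
      exact hx hab
    have ha : a ≠ 0 := by
      rintro rfl
      exact haK rfl
    refine ⟨a, b, ha, hb, fun v hv hav => ?_, h3, by rw [h1, hab]⟩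
    have h4 : 0 < od v (a : K) := (od_pos_iff v ha).2 hav
    have h5 : ¬ 0 < od v (b : K) := fun h => h3 v hv ((od_pos_iff v hb).1 h)
    have h6 := od_nonneg v b
    have h7 : od v (a : K) = od v x + od v (b : K) := by
      rw [← od_mul v hx hbK, hab, div_mul_cancel₀ _ hbK]
    rw [h2 v hv] at h7
    omega
  choose a b ha hb hav hbv hab using key
  refine finiteIndex_of_map (T := Additive (ClassGroup (𝓞 K)) × (𝓞 K ⧸ m) × (𝓞 K ⧸ m) × ((K →+* ℝ) → Bool)) (Pray S N)
    (fun D => (cl (D.filter (· ∉ S)), Ideal.Quotient.mk m (a D), Ideal.Quotient.mk m (b D),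
      fun φ => decide (0 < φ ((a D : K) / (b D : K))))) fun D E hDE => ?_
  rw [Prod.mk.injEq, Prod.mk.injEq, Prod.mk.injEq] at hDE
  obtain ⟨e1, e2, e3, e4⟩ := hDE
  have e2' : a D - a E ∈ m := Ideal.Quotient.eq.1 e2
  have e3' : b D - b E ∈ m := Ideal.Quotient.eq.1 e3
  have nz : ∀ {z : 𝓞 K}, z ≠ 0 → (z : K) ≠ 0 := fun {z} hz h => hz (RingOfIntegers.ext h)
  have hx0 : ((a D : K) / (b D : K)) ≠ 0 := div_ne_zero (nz (ha D)) (nz (hb D))
  have hy0 : ((a E : K) / (b E : K)) ≠ 0 := div_ne_zero (nz (ha E)) (nz (hb E))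
  refine ⟨((a D : K) / (b D : K)) * ((a E : K) / (b E : K))⁻¹, ⟨mul_ne_zero hx0 (inv_ne_zero hy0), fun v hv => ?_,
    fun φ => ?_⟩, fun v hv => ?_⟩
  · have h1 : ((a D : K) / (b D : K)) * ((a E : K) / (b E : K))⁻¹ - 1 =
        ((a D * b E - a E * b D : 𝓞 K) : K) / (((b D * a E : 𝓞 K)) : K) := by
      have n1 := nz (ha D)
      have n2 := nz (hb D)
      have n3 := nz (ha E)
      have n4 := nz (hb E)
      push_cast
      field_simp
    rw [h1, map_div₀]
    have h2 : v.valuation K (((b D * a E : 𝓞 K)) : K) = 1 := by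
      refine val_unit v fun h => ?_
      rcases v.isPrime.mem_or_mem h with h | h
      · exact hbv D v hv h
      · exact hav E v hv h
    rw [h2, div_one]
    refine val_pow v (hmv v hv ?_)
    have h3 : a D * b E - a E * b D = (a D - a E) * b E - a E * (b D - b E) := by ring
    rw [h3]
    exact m.sub_mem (m.mul_mem_right _ e2') (m.mul_mem_left _ e3')
  · have h1 := congrFun e4 φ
    have h2 : φ ((a D : K) / (b D : K)) ≠ 0 := (map_ne_zero φ).2 hx0
    have h3 : φ ((a E : K) / (b E : K)) ≠ 0 := (map_ne_zero φ).2 hy0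
    rw [map_mul, map_inv₀, ← div_eq_mul_inv]
    have h4 := decide_eq_decide.1 h1
    rcases lt_or_gt_of_ne h2 with h5 | h5
    · have h6 : φ ((a E : K) / (b E : K)) < 0 := by
        refine lt_of_le_of_ne (not_lt.1 fun h => ?_) h3
        exact absurd (h4.2 h) (not_lt.2 h5.le)
      exact div_pos_of_neg_of_neg h5 h6
    · exact div_pos h5 (h4.1 h5)
  · have h1 := hab D
    have h2 := hab E
    rw [← e1] at h2
    have h3 := DFunLike.congr_fun h1 v
    have h4 := DFunLike.congr_fun h2 v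
    rw [Finsupp.sub_apply, ft _ v hv, ft _ v hv, dv_apply] at h3 h4
    rw [Finsupp.sub_apply, od_mul v hx0 (inv_ne_zero hy0), od_inv]
    linarith

end CFTZ
end

-- from Lib.H69H.Z1
section

set_option autoImplicit false

namespace Pool.Agent.H69H

open NumberField IsDedekindDomain CFT

/-- Finiteness of the ray class group (helper33, CFT/ZF.lean). -/
theorem Pray_index {K : Type} [Field K] [NumberField K] (S : Finset (Pr K)) (N : ℕ) : (Pray S N).index ≠ 0 :=
  (CFTZ.pray_fin S N).index_ne_zero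

end Pool.Agent.H69H
end

-- from Lib.H69H.T2
section

set_option autoImplicit false
set_option linter.unusedSectionVars false

namespace Pool.Agent.H69H

open NumberField IsDedekindDomain CFT

variable {K : Type} [Field K] [NumberField K] {L : Type} [Field L] [NumberField L] [Algebra K L]

theorem t2_rep {A : Type*} [AddCommGroup A] (H : AddSubgroup A) (h : H.index ≠ 0) : ∃ F : Finset A, ∀ D, ∃ E ∈ F, D - E ∈ H := by
  classical
  have hfi : H.FiniteIndex := ⟨h⟩
  have hf : Finite (A ⧸ H) := AddSubgroup.finite_quotient_of_finiteIndex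
  have := Fintype.ofFinite (A ⧸ H)
  refine ⟨Finset.univ.image fun q : A ⧸ H => q.out, fun D => ⟨_, Finset.mem_image.2 ⟨(D : A ⧸ H), Finset.mem_univ _, rfl⟩, ?_⟩⟩
  rw [sub_eq_neg_add]
  exact QuotientAddGroup.eq.1 (QuotientAddGroup.out_eq' _)

theorem t2_near (w : Pr L) (N : ℕ) (x : K) (h : (below K w).valuation K (x - 1) < WithZero.exp (-(N : ℤ))) :
    w.valuation L (algebraMap K L x - 1) < WithZero.exp (-(N : ℤ)) := by
  have h1 : algebraMap K L x - 1 = algebraMap K L (x - 1) := by rw [map_sub, map_one]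
  rw [h1]
  generalize x - 1 = z at h
  by_cases hz : z = 0
  · subst hz
    rw [map_zero, map_zero]
    exact WithZero.zero_lt_coe _
  · have hz' : algebraMap K L z ≠ 0 := by
      rw [Ne, map_eq_zero]
      exact hz
    rw [val_eq _ hz, WithZero.exp_lt_exp] at h
    rw [val_eq _ hz', WithZero.exp_lt_exp, od_algebraMap]
    have h2 : (1 : ℤ) ≤ (w.asIdeal.ramificationIdx (𝓞 K) : ℤ) := by
      have h3 := ram_ne (K := K) w
      have h4 : (0 : ℤ) ≤ (w.asIdeal.ramificationIdx (𝓞 K) : ℤ) := Int.natCast_nonneg _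
      omega
    have h3 : (0 : ℤ) ≤ N := Int.natCast_nonneg _
    nlinarith

/-- PROOF. Let `N0` be the number of `hV.ray`. `N := N0`: if `Ray S N κ` (or only the congruences) then for `w` above `v ∈ S`: `w.valuation (κ - 1) = v.valuation (κ - 1) ^ e`, `e ≥ 1` (`HeightOneSpectrum.valuation_liesOver`), `< exp (-N)`: so `kU κ ∈ V`. Let `SL` be the set of the primes above `S` (`fib_fin`).
`Pray_index` (Z1) for `K, S, N`: finitely many `D_i` (representatives: a finite quotient has finitely many classes; `AddSubgroup.index ≠ 0` gives a finite quotient) such that each `D` is `D_i +` an element of `Pray S N`. `Pray_index` for `L, SL, N`: finitely many `D'_j` with `D = D'_j + P`, `P ∈ Pray SL N`, i.e.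
`P w = od w y` for `w ∉ SL`, `Ray SL N y`, so `y ∈ V` by `hV.ray`. For each `v ∈ RamInf K L` (a real place) take `κ_v` of `exists_sign S N v` (P2, no hypothesis on v). `T :=` the set of the primes `v ∉ S` which are in the support of some `D_i`, or below a prime in the support of some `D'_j`, or in the support of some `dv κ_v`.
(a) `D - D_i ∈ Pray S N`; replace `D_i` by `E` = its part outside `S`, which is in `DTK T`: the difference is supported in `S`, so it is in `Pray S N` (with `x = 1`). (b) the same: `E` = the part of `D'_j` above the complement of `S`. (c) `κ_v` is a unit at `S` (congruent to `1`), so `kU κ_v ∈ ET V T` (`od_algebraMap`, D2). -/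
theorem exists_T [IsGalois K L] {σ : L ≃ₐ[K] L} {S : Finset (Pr K)} {V : Subgroup Lˣ} (hV : IsV σ S V) :
    ∃ N T, IsT σ S V N T := by
  classical
  obtain ⟨N, hN⟩ := hV.ray
  have hfin : {w : Pr L | below K w ∈ S}.Finite := by
    refine (S.finite_toSet.biUnion fun v _ => fib_fin (L := L) K v).subset fun w hw => ?_
    exact Set.mem_biUnion (x := below K w) hw rfl
  have hSL : ∀ w : Pr L, w ∈ hfin.toFinset ↔ below K w ∈ S := fun w => hfin.mem_toFinset
  obtain ⟨F, hF⟩ := t2_rep (Pray S N) (Pray_index S N)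
  obtain ⟨F', hF'⟩ := t2_rep (Pray hfin.toFinset N) (Pray_index hfin.toFinset N)
  choose k hk1 hk2 using exists_sign S N
  refine ⟨N, (F.biUnion (fun D => D.support) ∪ F'.biUnion (fun D => D.support.image (below K)) ∪
    Finset.univ.biUnion (fun v => (dv (k v : K)).support)) \ S, ?_, ?_, ?_, ?_, ?_⟩
  · intro v hv
    exact (Finset.mem_sdiff.1 hv).2
  · intro κ hκ
    refine hN _ fun w hw => ?_
    exact t2_near w N _ (hκ.cong _ hw)
  · intro D
    obtain ⟨D0, h1, h2⟩ := hF D
    refine ⟨D0.filter (fun v => v ∉ S), ?_, ?_⟩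
    · intro v hv
      rw [Finsupp.filter_apply]
      split_ifs with hvS
      · rfl
      · by_contra h3
        apply hv
        rw [Finset.mem_sdiff, Finset.mem_union, Finset.mem_union, Finset.mem_biUnion]
        exact ⟨Or.inl (Or.inl ⟨D0, h1, Finsupp.mem_support_iff.2 h3⟩), hvS⟩
    · have h3 : D - D0.filter (fun v => v ∉ S) = (D - D0) + (D0 - D0.filter (fun v => v ∉ S)) := by abel
      rw [h3]
      refine (Pray S N).add_mem h2 ⟨1, ray_one S N, fun v hv => ?_⟩
      rw [Finsupp.sub_apply, Finsupp.filter_apply, if_pos hv, sub_self, od_one]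
  · intro D
    obtain ⟨D0, h1, y, hy, h2⟩ := hF' D
    refine ⟨D0.filter (fun w => below K w ∉ S), ?_, Units.mk0 y hy.ne, ?_, ?_⟩
    · intro w hw
      rw [Finsupp.filter_apply]
      split_ifs with hvS
      · rfl
      · by_contra h3
        apply hw
        rw [Finset.mem_sdiff, Finset.mem_union, Finset.mem_union, Finset.mem_biUnion, Finset.mem_biUnion]
        exact ⟨Or.inl (Or.inr ⟨D0, h1, Finset.mem_image.2 ⟨w, Finsupp.mem_support_iff.2 h3, rfl⟩⟩), hvS⟩
    · refine hN _ fun w hw => ?_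
      exact hy.cong w ((hSL w).2 hw)
    · intro w hw
      have h3 := h2 w (fun h => hw ((hSL w).1 h))
      rw [Finsupp.sub_apply] at h3
      rw [Finsupp.filter_apply, if_pos hw, Units.val_mk0, ← h3]
      ring
  · intro v _
    refine ⟨k v, ⟨hN _ fun w hw => t2_near w N _ (hk1 v _ hw), fun w hw => ?_⟩, fun φ => ⟨(hk2 v φ).1, fun _ h => (hk2 v φ).2 h⟩⟩
    show od w (algebraMap K L (k v : K)) = 0
    rw [od_algebraMap]
    by_cases hwS : below K w ∈ S
    · have h1 := hk1 v _ hwS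
      have h2 : (below K w).valuation K (k v : K) = 1 := by
        have h3 : (k v : K) = 1 + ((k v : K) - 1) := by ring
        rw [h3]
        exact Valuation.map_one_add_of_lt _ (h1.trans_le (exp_le_one N))
      unfold od
      rw [h2, WithZero.log_one, neg_zero, mul_zero]
    · have h1 : dv (k v : K) (below K w) = 0 := by
        by_contra h3
        apply hw
        rw [Finset.mem_sdiff, Finset.mem_union]
        exact ⟨Or.inr (Finset.mem_biUnion.2 ⟨v, Finset.mem_univ _, Finsupp.mem_support_iff.2 h3⟩), hwS⟩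
      rw [dv_apply] at h1
      rw [h1, mul_zero]

end Pool.Agent.H69H
end

-- from Lib.H69H.E3
section

set_option autoImplicit false
set_option linter.unusedSectionVars false

namespace Pool.Agent.H69H

open NumberField IsDedekindDomain CFT

variable {K : Type} [Field K] [NumberField K] {L : Type} [Field L] [NumberField L] [Algebra K L]

/-- The stabilizer of the function `od _ y` outside `T`. -/
def e3_st (T : Finset (Pr K)) (y : L) : Subgroup (L ≃ₐ[K] L) where
  carrier := {g | ∀ w : Pr L, below K w ∉ T → od (gp g w) y = od w y}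
  one_mem' := fun w _ => by rw [gp_one]
  mul_mem' := fun {g h} h1 h2 w hw => by
    rw [gp_mul, h1 _ (by rw [below_gp]; exact hw), h2 w hw]
  inv_mem' := fun {g} h1 w hw => by
    have := h1 (gp g⁻¹ w) (by rw [below_gp]; exact hw)
    rw [gp_gp_inv] at this
    exact this.symm

variable [IsGalois K L] {σ : L ≃ₐ[K] L} (hσ : ∀ x, x ∈ Subgroup.zpowers σ) {S T : Finset (Pr K)} {V : Subgroup Lˣ} {N : ℕ}

include hσ in
theorem e3_const {y : Lˣ} (h : ∀ w : Pr L, below K w ∉ T → od w ((dif (sU σ) y : Lˣ) : L) = 0)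
    {w w' : Pr L} (hw : below K w ∉ T) (hww : below K w = below K w') : od w' (y : L) = od w (y : L) := by
  have h1 : σ ∈ e3_st T (y : L) := by
    rw [← inv_mem_iff]
    intro w hw
    have h2 : ((dif (sU σ) y : Lˣ) : L) = σ (y : L) * ((y : L))⁻¹ := by
      rw [dif_apply, Units.val_div_eq_div_val, sU_coe, div_eq_mul_inv]
    have h3 := h w hw
    rw [h2, od_mul w ((map_ne_zero σ).2 y.ne_zero) (inv_ne_zero y.ne_zero), od_inv] at h3
    have h4 := od_gp σ (gp σ⁻¹ w) (y : L)
    rw [gp_gp_inv] at h4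
    rw [← h4]
    omega
  obtain ⟨τ, rfl⟩ := exists_gp w w' hww
  exact (Subgroup.zpowers_le.2 h1) (hσ τ) w hw

include hσ in
theorem e3_main (hS : ∀ v, v ∉ S → Unr K L v) (hV : IsV σ S V) (hT : IsT σ S V N T) {x : Lˣ} (hx : x ∈ ET V T)
    (hx1 : nrm (Module.finrank K L) (sU σ) x = 1) : ∃ y ∈ ET V T, dif (sU σ) y = x := by
  obtain ⟨y, hy⟩ := hilbert90 σ hσ x hx1
  obtain ⟨κ, y1, hy1, hy2⟩ := hV.crit y (by rw [← hy]; exact hx.1)
  have hfix : ∀ κ : Kˣ, dif (sU σ) (kU K L κ) = 1 := fun κ => (dif_eq_one σ hσ _).2 ⟨κ, rfl⟩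
  have hd1 : dif (sU σ) y1 = x := by
    rw [hy, hy2, map_mul, hfix, one_mul]
  have hconst : ∀ {w w' : Pr L}, below K w ∉ T → below K w = below K w' → od w' (y1 : L) = od w (y1 : L) := by
    intro w w' hw hww
    refine e3_const hσ (T := T) (fun w hw => ?_) hw hww
    rw [hd1]
    exact ((mem_ET V T x).1 hx).2 w hw
  -- the divisor `D`
  classical
  choose ab hab using fun v : Pr K => below_surj L v
  obtain ⟨D, hD⟩ : ∃ D : Dv K, ∀ v, D v = if v ∈ T then 0 else od (ab v) (y1 : L) := by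
    have hfin : (Function.support fun v : Pr K => if v ∈ T then 0 else od (ab v) (y1 : L)).Finite := by
      refine Set.Finite.subset ((od_fin (y1 : L)).image (below K)) fun v hv => ?_
      rw [Function.mem_support] at hv
      refine ⟨ab v, ?_, hab v⟩
      by_contra h0
      apply hv
      have h0' : od (ab v) (y1 : L) = 0 := by
        by_contra h1
        exact h0 h1
      rw [h0', ite_self]
    exact ⟨Finsupp.ofSupportFinite _ hfin, fun v => rfl⟩
  obtain ⟨E, hE, κ', hκ', hP⟩ := hT.a D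
  obtain ⟨u, hu⟩ : ∃ u : Kˣ, (u : K) = κ' := ⟨Units.mk0 _ hκ'.ne, rfl⟩
  have huV : kU K L u ∈ V := hT.ray u (by rw [hu]; exact hκ')
  refine ⟨y1 * (kU K L u)⁻¹, ?_, ?_⟩
  · have hV2 : y1 * (kU K L u)⁻¹ ∈ V := mul_mem hy1 (inv_mem huV)
    rw [mem_ET]
    refine ⟨hV2, fun w hw => ?_⟩
    by_cases hwS : below K w ∈ S
    · exact hV.unit _ hV2 w hwS
    · have h1 := hP (below K w) hwS
      rw [Finsupp.sub_apply, hE _ hw, sub_zero, hD, if_neg hw, hconst (w := w) (w' := ab (below K w)) hw (hab _).symm] at h1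
      rw [Units.val_mul, Units.val_inv_eq_inv_val, od_mul w y1.ne_zero (inv_ne_zero (kU K L u).ne_zero), od_inv, kU_coe, hu,
        od_algebraMap, hS _ hwS w rfl, ← h1]
      push_cast
      ring
  · rw [map_mul, map_inv, hfix, inv_one, mul_one, hd1]

include hσ in
/-- `H^(-1)` of `ET V T` is trivial. -/
theorem tate_ET (hS : ∀ v, v ∉ S → Unr K L v) (hV : IsV σ S V) (hT : IsT σ S V N T) :
    tate (nrm (Module.finrank K L) (sU σ)) (dif (sU σ)) ⊥ (ET V T) = 1 := by
  unfold tate
  rw [Subgroup.relIndex_eq_one, sup_bot_eq]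
  rintro x ⟨hx1, hx2⟩
  obtain ⟨y, hy, h⟩ := e3_main hσ hS hV hT hx1 hx2
  exact ⟨y, hy, h⟩

end Pool.Agent.H69H
end

-- from Lib.H69H.P1
section

set_option autoImplicit false
set_option linter.unusedSectionVars false

namespace Pool.Agent.H69H

open NumberField IsDedekindDomain CFT

theorem p1_prod {G : Type*} [Fintype G] (f : G → ℂ) (ι : G → G) (h1 : ∀ g, ι (ι g) = g) (h2 : ∀ g, ι g ≠ g)
    (h3 : ∀ g, f g ≠ 0) (h4 : ∀ g, f (ι g) = (starRingEnd ℂ) (f g)) : ∃ r : ℝ, 0 < r ∧ ∏ g, f g = (r : ℂ) := by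
  classical
  let e := Fintype.equivFin G
  let A := Finset.univ.filter fun g : G => e g < e (ι g)
  have hB : (Finset.univ.filter fun g : G => ¬ e g < e (ι g)) = A.image ι := by
    ext g
    simp only [A, Finset.mem_filter, Finset.mem_univ, true_and, Finset.mem_image]
    constructor
    · intro h
      refine ⟨ι g, ?_, h1 g⟩
      rw [h1]
      refine lt_of_le_of_ne (not_lt.1 h) fun he => h2 g (e.injective he)
    · rintro ⟨k, hk, rfl⟩
      rw [h1]
      exact not_lt.2 hk.le
  refine ⟨∏ g ∈ A, Complex.normSq (f g), Finset.prod_pos fun g _ => Complex.normSq_pos.2 (h3 g), ?_⟩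
  rw [← Finset.prod_filter_mul_prod_filter_not Finset.univ (fun g : G => e g < e (ι g)), hB,
    Finset.prod_image fun a _ b _ h => by rw [← h1 a, h, h1], ← Finset.prod_mul_distrib, Complex.ofReal_prod]
  refine Finset.prod_congr rfl fun g _ => ?_
  rw [h4, Complex.mul_conj]

variable {K : Type} [Field K] [NumberField K] {L : Type} [Field L] [NumberField L] [Algebra K L]

/-- PROOF. Let `φ : K → ℝ` with place `v` ramified in `L`. Extend `φ` (into `ℂ`) to `ψ : L → ℂ` (`InfinitePlace.comap_mk_lift` or `IsAlgClosed.lift`, Mathlib `ComplexEmbedding.lift`), `w = mk ψ`, `w.comap = v`, `w` is ramified, so there is `τ ∈ Gal(L/K)` with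
`ψ ∘ τ = conj ∘ ψ` (Mathlib `InfinitePlace.exists_isConj_of_isRamified`; `ComplexEmbedding.IsConj`), `τ ≠ 1` (w is complex), `τ^2 = 1`. `φ (norm y) = ∏_{g ∈ G} ψ (g y)` (`Algebra.norm_eq_prod_automorphisms`). The involution `g ↦ τ * g` of `G` has no fixed
point and `ψ (τ g y) = conj (ψ (g y))`, so the product is a product of `|ψ (g y)|^2 > 0` over the pairs. In Lean: for example `Finset.prod_involution`-like argument, or: `∏_{g ∈ G} ψ (g y)`, choose a set of representatives of the cosets of `{1, τ}` in `G`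
(`G ≃ (G ⧸ H) × H`, Mathlib `Subgroup.groupEquivQuotientProdSubgroup`), the product over each coset is `z * conj z`, `z ≠ 0`. -/
theorem posR_norm [IsGalois K L] (y : Lˣ) : PosR L (Algebra.norm K (y : L)) := by
  intro φ hφ
  have h1 : ¬ (InfinitePlace.mk ((algebraMap ℝ ℂ).comp φ)).IsUnramifiedIn L := by
    classical
    have h2 := hφ
    unfold RamInf at h2
    rw [Finset.mem_filter] at h2
    exact h2.2
  unfold InfinitePlace.IsUnramifiedIn at h1
  push Not at h1
  obtain ⟨w, hw, hram⟩ := h1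
  have hram : w.IsRamified K := hram
  have h3 : ∀ x : K, w.embedding (algebraMap K L x) = ((φ x : ℝ) : ℂ) := by
    intro x
    have h4 : InfinitePlace.mk (w.embedding.comp (algebraMap K L)) = InfinitePlace.mk ((algebraMap ℝ ℂ).comp φ) := by
      rw [← hw, ← InfinitePlace.comap_mk, InfinitePlace.mk_embedding]
    rw [InfinitePlace.mk_eq_iff] at h4
    rcases h4 with h4 | h4
    · exact DFunLike.congr_fun h4 x
    · have h5 := DFunLike.congr_fun h4 x
      have h6 : (starRingEnd ℂ) (w.embedding (algebraMap K L x)) = ((φ x : ℝ) : ℂ) := h5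
      rw [← Complex.conj_conj (w.embedding (algebraMap K L x)), h6, Complex.conj_ofReal]
  have hram' : (InfinitePlace.mk w.embedding).IsRamified K := by
    rw [InfinitePlace.mk_embedding]
    exact hram
  obtain ⟨τ, hτ⟩ := InfinitePlace.exists_isConj_of_isRamified hram'
  have hτ' : ∀ x : L, w.embedding (τ x) = (starRingEnd ℂ) (w.embedding x) := by
    intro x
    have h4 := DFunLike.congr_fun hτ x
    exact h4.symm
  have hτ1 : τ ≠ 1 := by
    rintro rfl
    have h4 := hram.isComplex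
    rw [InfinitePlace.isComplex_iff] at h4
    apply h4
    rw [NumberField.ComplexEmbedding.isReal_iff]
    ext x
    exact (hτ' x).symm
  have hτ2 : τ * τ = 1 := by
    ext x
    apply w.embedding.injective
    show w.embedding (τ (τ x)) = w.embedding x
    rw [hτ', hτ', Complex.conj_conj]
  have h5 : ((φ (Algebra.norm K (y : L)) : ℝ) : ℂ) = ∏ g : L ≃ₐ[K] L, w.embedding (g (y : L)) := by
    rw [← h3, Algebra.norm_eq_prod_automorphisms, map_prod]
  obtain ⟨r, hr, h6⟩ := p1_prod (fun g : L ≃ₐ[K] L => w.embedding (g (y : L))) (fun g => τ * g)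
    (fun g => by rw [← mul_assoc, hτ2, one_mul]) (fun g h => hτ1 (by simpa using h))
    (fun g => by
      show w.embedding (g (y : L)) ≠ 0
      rw [Ne, map_eq_zero, map_eq_zero]
      exact y.ne_zero) (fun g => hτ' _)
  rw [h6] at h5
  have h7 : φ (Algebra.norm K (y : L)) = r := by exact_mod_cast h5
  rw [h7]
  exact hr

end Pool.Agent.H69H
end

-- from Lib.H69H.P3
section

set_option autoImplicit false
set_option linter.unusedSectionVars false

namespace Pool.Agent.H69H

open NumberField IsDedekindDomain CFT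

variable {K : Type} [Field K] [NumberField K] {L : Type} [Field L] [NumberField L] [Algebra K L]

/-- PROOF. `B := ET V T ⊓ (dif (sU σ)).ker` is the group of the `kU κ` in `ET V T` (`dif_eq_one`, C1). For each `v ∈ RamInf K L` there is exactly one `φ_v : K →+* ℝ` with `mk φ_v = v` (ramified places are real, Mathlib `InfinitePlace.IsRamified.isReal`, `InfinitePlace.IsReal`,
`InfinitePlace.embedding_of_isReal`). The homomorphism `sgn : B → (RamInf K L → ℤˣ)` (signs of `φ_v κ`), or equivalently work with the subgroups, has kernel `PP V T` and is surjective: the elements `κ_v` of `hT.c` are sent to the vectors with one entry `-1`, which generate. So the index of `PP V T` in `B` is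
`2 ^ (RamInf K L).card`. -/
theorem PP_relIndex [IsGalois K L] {σ : L ≃ₐ[K] L} (hσ : ∀ x, x ∈ Subgroup.zpowers σ) {S T : Finset (Pr K)} {V : Subgroup Lˣ} {N : ℕ}
    (hT : IsT σ S V N T) : (PP V T).relIndex (ET V T ⊓ (dif (sU σ)).ker) = 2 ^ (RamInf K L).card := by
  classical
  have hreal : ∀ v : {v // v ∈ RamInf K L}, ∃ φ : K →+* ℝ, InfinitePlace.mk ((algebraMap ℝ ℂ).comp φ) = v.1 := by
    rintro ⟨v, hv⟩
    have h1 : ¬ v.IsUnramifiedIn L := by
      have h2 := hv
      unfold RamInf at h2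
      rw [Finset.mem_filter] at h2
      exact h2.2
    unfold InfinitePlace.IsUnramifiedIn at h1
    push Not at h1
    obtain ⟨w, hw, hram⟩ := h1
    have hram : w.IsRamified K := hram
    have hr : v.IsReal := by
      rw [← hw]
      exact hram.isReal
    refine ⟨v.embedding_of_isReal hr, ?_⟩
    have h3 : (algebraMap ℝ ℂ).comp (v.embedding_of_isReal hr) = v.embedding := by
      ext x
      exact InfinitePlace.embedding_of_isReal_apply hr x
    rw [h3, InfinitePlace.mk_embedding]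
  choose Φ hΦ using hreal
  have huniq : ∀ φ ψ : K →+* ℝ, InfinitePlace.mk ((algebraMap ℝ ℂ).comp φ) = InfinitePlace.mk ((algebraMap ℝ ℂ).comp ψ) → φ = ψ := by
    intro φ ψ h
    rw [InfinitePlace.mk_eq_iff] at h
    ext x
    rcases h with h | h
    · exact Complex.ofReal_injective (DFunLike.congr_fun h x)
    · have h1 : (starRingEnd ℂ) ((φ x : ℝ) : ℂ) = ((ψ x : ℝ) : ℂ) := DFunLike.congr_fun h x
      rw [Complex.conj_ofReal] at h1
      exact Complex.ofReal_injective h1
  let s : Kˣ →* ({v // v ∈ RamInf K L} → SignTypeˣ) := Pi.monoidHom fun v =>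
    (Units.map (signHom : ℝ →*₀ SignType).toMonoidHom).comp (Units.map (Φ v : K →* ℝ))
  have hs : ∀ (κ : Kˣ) (v : {v // v ∈ RamInf K L}), ((s κ v : SignTypeˣ) : SignType) = SignType.sign (Φ v (κ : K)) := fun κ v => rfl
  have hs1 : ∀ (κ : Kˣ) (v : {v // v ∈ RamInf K L}), s κ v = 1 ↔ 0 < Φ v (κ : K) := by
    intro κ v
    rw [← Units.val_inj, hs, Units.val_one, sign_eq_one_iff]
  have hsn : ∀ (κ : Kˣ) (v : {v // v ∈ RamInf K L}), s κ v = -1 ↔ Φ v (κ : K) < 0 := by
    intro κ v
    rw [← Units.val_inj, hs, Units.val_neg, Units.val_one, sign_eq_neg_one_iff]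
  have hpos : ∀ κ : Kˣ, PosR L (κ : K) ↔ κ ∈ s.ker := by
    intro κ
    rw [MonoidHom.mem_ker]
    constructor
    · intro h
      funext v
      rw [Pi.one_apply, hs1]
      exact h (Φ v) (by rw [hΦ]; exact v.2)
    · intro h φ hφ
      have h1 : φ = Φ ⟨_, hφ⟩ := huniq _ _ (hΦ ⟨_, hφ⟩).symm
      rw [h1, ← hs1, h]
      rfl
  have hinj : Function.Injective (kU K L) := by
    intro a b h
    apply Units.ext
    have h1 := congrArg Units.val h
    rw [kU_coe, kU_coe] at h1
    exact (algebraMap K L).injective h1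
  have e1 : ET V T ⊓ (dif (sU σ)).ker = ((ET V T).comap (kU K L)).map (kU K L) := by
    ext x
    constructor
    · rintro ⟨h1, h2⟩
      obtain ⟨κ, rfl⟩ := (dif_eq_one σ hσ x).1 h2
      exact ⟨κ, h1, rfl⟩
    · rintro ⟨κ, h1, rfl⟩
      exact ⟨h1, (dif_eq_one σ hσ _).2 ⟨κ, rfl⟩⟩
  have e2 : PP V T = ((ET V T).comap (kU K L) ⊓ s.ker).map (kU K L) := by
    ext x
    constructor
    · rintro ⟨h1, κ, rfl, h2⟩
      exact ⟨κ, ⟨h1, (hpos κ).1 h2⟩, rfl⟩
    · rintro ⟨κ, ⟨h1, h2⟩, rfl⟩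
      exact ⟨h1, κ, rfl, (hpos κ).2 h2⟩
  rw [e1, e2, Subgroup.relIndex_map_map_of_injective _ _ hinj, Subgroup.inf_relIndex_left, Subgroup.relIndex_ker]
  have e3 : ((ET V T).comap (kU K L)).map s = ⊤ := by
    rw [eq_top_iff]
    intro x _
    rw [← Finset.univ_prod_mulSingle x]
    refine Subgroup.prod_mem _ fun v _ => ?_
    have h1 : x v = 1 ∨ x v = -1 := by
      generalize x v = z
      revert z
      decide
    rcases h1 with h1 | h1
    · rw [h1, Pi.mulSingle_one]
      exact Subgroup.one_mem _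
    · obtain ⟨κ, h2, h3⟩ := hT.c v.1 v.2
      refine ⟨κ, h2, ?_⟩
      funext u
      by_cases huv : u = v
      · subst huv
        rw [h1, Pi.mulSingle_eq_same, hsn]
        exact (h3 (Φ u)).1 (hΦ u)
      · rw [Pi.mulSingle_eq_of_ne huv, hs1]
        refine (h3 (Φ u)).2 (by rw [hΦ]; exact u.2) ?_
        rw [hΦ]
        exact fun h => huv (Subtype.ext h)
  rw [e3]
  have e4 : Nat.card (⊤ : Subgroup ({v // v ∈ RamInf K L} → SignTypeˣ)) = Nat.card ({v // v ∈ RamInf K L} → SignTypeˣ) :=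
    Nat.card_congr Subgroup.topEquiv.toEquiv
  rw [e4, Nat.card_eq_fintype_card, Fintype.card_fun, Fintype.card_coe]
  rfl

end Pool.Agent.H69H
end

-- from Lib.H69H.E4
section

set_option autoImplicit false
set_option linter.unusedSectionVars false

namespace Pool.Agent.H69H

open NumberField IsDedekindDomain CFT

variable {K : Type} [Field K] [NumberField K] {L : Type} [Field L] [NumberField L] [Algebra K L]

variable [IsGalois K L] {σ : L ≃ₐ[K] L} (hσ : ∀ x, x ∈ Subgroup.zpowers σ) {S T : Finset (Pr K)} {V : Subgroup Lˣ} {N : ℕ}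

include hσ in
/-- PROOF. The inclusion: `nrm x = kU (norm x)` (C1), `ET V T` is stable (`hV.stable`, `dvU_sU`, `below_gp`), positivity: `posR_norm` (P1). `tate (dif) (nrm) ⊥ (ET V T) = (map nrm).relIndex (ET V T ⊓ ker dif)` is the product of the two indices (`Subgroup.relIndex_mul_relIndex`), the second is `PP_relIndex` (P3). -/
theorem PP_index (hV : IsV σ S V) (hT : IsT σ S V N T) :
    (ET V T).map (nrm (Module.finrank K L) (sU σ)) ≤ PP V T ∧
    ((ET V T).map (nrm (Module.finrank K L) (sU σ))).relIndex (PP V T) * 2 ^ (RamInf K L).card =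
      tate (dif (sU σ)) (nrm (Module.finrank K L) (sU σ)) ⊥ (ET V T) := by
  have hst : ∀ x ∈ ET V T, sU σ x ∈ ET V T := by
    rintro x ⟨h1, h2⟩
    refine ⟨hV.stable x h1, fun w hw => ?_⟩
    show od w (σ (x : L)) = 0
    rw [← gp_gp_inv σ w, od_gp]
    refine h2 _ ?_
    rw [below_gp]
    exact hw
  have h1 : (ET V T).map (nrm (Module.finrank K L) (sU σ)) ≤ PP V T := by
    rintro _ ⟨x, hx, rfl⟩
    refine ⟨(isStable_of (sU σ) _ hst).right x hx, _, nrm_eq σ hσ x, ?_⟩
    exact posR_norm x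
  refine ⟨h1, ?_⟩
  rw [← PP_relIndex hσ hT]
  have h2 : PP V T ≤ ET V T ⊓ (dif (sU σ)).ker := by
    rintro x ⟨h3, κ, rfl, _⟩
    exact ⟨h3, (dif_eq_one σ hσ _).2 ⟨κ, rfl⟩⟩
  rw [Subgroup.relIndex_mul_relIndex _ _ _ h1 h2]
  unfold tate
  rw [sup_bot_eq]
  rfl

end Pool.Agent.H69H
end

-- from Lib.H69H.E5
section

set_option autoImplicit false
set_option linter.unusedSectionVars false

namespace Pool.Agent.H69H

open NumberField IsDedekindDomain CFT

variable {K : Type} [Field K] [NumberField K] {L : Type} [Field L] [NumberField L] [Algebra K L]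

/-- The norm at `v` depends only on the primes above `v`. -/
theorem e5_Nd_congr (D E : Dv L) (v : Pr K) (h : ∀ w : Pr L, below K w = v → D w = E w) : Nd K L D v = Nd K L E v := by
  rw [CFT.Nd_apply, CFT.Nd_apply]
  refine Finset.sum_congr rfl fun w hw => ?_
  rw [h w ((CFT.mem_abv v w).1 hw)]

/-- An element of `K` whose image is a unit above `v`. -/
theorem e5_od (κ : K) (v : Pr K) (h : ∀ w : Pr L, below K w = v → od w (algebraMap K L κ) = 0) : od v κ = 0 := by
  obtain ⟨w, rfl⟩ := below_surj L v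
  have := h w rfl
  rw [od_algebraMap] at this
  exact (mul_eq_zero.1 this).resolve_left (ram_ne w)

theorem e5_nrm_mem {σ : L ≃ₐ[K] L} {V : Subgroup Lˣ} (hV : ∀ x ∈ V, sU σ x ∈ V) (n : ℕ) {y : Lˣ} (hy : y ∈ V) :
    nrm n (sU σ) y ∈ V := by
  rw [nrm_apply]
  refine prod_mem fun i hi => ?_
  clear hi
  induction i with
  | zero => exact hy
  | succ i ih =>
    rw [Function.iterate_succ_apply']
    exact hV _ ih

variable [IsGalois K L] {σ : L ≃ₐ[K] L} (hσ : ∀ x, x ∈ Subgroup.zpowers σ) {S T : Finset (Pr K)} {V : Subgroup Lˣ} {N : ℕ}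

include hσ in
theorem inter_le_QQ (hV : IsV σ S V) (hT : IsT σ S V N T) :
    (Pray S N ⊔ (Nd K L).range) ⊓ DTK T ≤ QQ (L := L) V T := by
  rintro D ⟨hD, hDT⟩
  obtain ⟨P, ⟨x, hx, hP⟩, F, ⟨D', rfl⟩, hPF⟩ := AddSubgroup.mem_sup.1 hD
  obtain ⟨E, hE, y, hy, hDy⟩ := hT.b D'
  obtain ⟨u, hu⟩ : ∃ u : Kˣ, (u : K) = x := ⟨Units.mk0 _ hx.ne, rfl⟩
  obtain ⟨κ, hκ⟩ : ∃ κ : Kˣ, κ = u * Units.map (Algebra.norm K : L →* K) y := ⟨_, rfl⟩
  have hκ' : (κ : K) = x * Algebra.norm K (y : L) := by
    rw [hκ, Units.val_mul, hu]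
    rfl
  have hκV : kU K L κ ∈ V := by
    rw [hκ, map_mul, ← nrm_eq σ hσ]
    exact mul_mem (hT.ray u (by rw [hu]; exact hx)) (e5_nrm_mem hV.stable _ hy)
  have hyn : Algebra.norm K (y : L) ≠ 0 := by
    have := (Units.map (Algebra.norm K : L →* K) y).ne_zero
    exact this
  have h1 : ∀ v, v ∉ S → D v = od v (κ : K) + Nd K L E v := by
    intro v hv
    have e1 : Nd K L D' v = Nd K L (E + dv (y : L)) v := by
      refine e5_Nd_congr _ _ _ fun w hw => ?_
      rw [hDy w (by rw [hw]; exact hv)]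
      rfl
    have e2 : Nd K L (E + dv (y : L)) v = Nd K L E v + od v (Algebra.norm K (y : L)) := by
      rw [map_add, Nd_dv, Finsupp.add_apply, dv_apply]
    rw [← hPF, Finsupp.add_apply, hP v hv, e1, e2, hκ', od_mul v hx.ne hyn]
    ring
  have hNE : ∀ v, v ∉ T → Nd K L E v = 0 := by
    intro v hv
    have : Nd K L E v = Nd K L (0 : Dv L) v := e5_Nd_congr _ _ _ fun w hw => by
      rw [hE w (by rw [hw]; exact hv)]
      rfl
    rw [this, map_zero]
    rfl
  have hκ0 : ∀ v, v ∉ T → od v (κ : K) = 0 := by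
    intro v hv
    by_cases hvS : v ∈ S
    · refine e5_od (L := L) _ _ fun w hw => ?_
      exact hV.unit _ hκV w (by rw [hw]; exact hvS)
    · have := h1 v hvS
      rw [hDT v hv, hNE v hv, add_zero] at this
      exact this.symm
  refine ⟨κ, ?_, ?_, E, hE, ?_⟩
  · rw [mem_ET]
    refine ⟨hκV, fun w hw => ?_⟩
    rw [kU_coe, od_algebraMap, hκ0 _ hw, mul_zero]
  · intro φ hφ
    rw [hκ', map_mul]
    exact mul_pos (hx.pos φ) (posR_norm y φ hφ)
  · ext v
    rw [Finsupp.add_apply, dv_apply]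
    by_cases hv : v ∈ S
    · have hvT : v ∉ T := fun h => hT.disj v h hv
      rw [hDT v hvT, hκ0 v hvT, hNE v hvT, add_zero]
    · exact h1 v hv

end Pool.Agent.H69H
end

-- from Lib.H69H.U7
section

set_option autoImplicit false
set_option linter.unusedSectionVars false

namespace Pool.Agent.H69H

open NumberField IsDedekindDomain CFT

variable {K : Type} [Field K] [NumberField K] {L : Type} [Field L] [NumberField L] [Algebra K L]

theorem u7_dif {X Y : Type*} [CommGroup X] [CommGroup Y] (φ : X →* Y) {s : X →* X} {s' : Y →* Y}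
    (h : ∀ x, φ (s x) = s' (φ x)) (x : X) : φ (dif s x) = dif s' (φ x) := by
  rw [dif_apply, dif_apply, map_div, h]

theorem u7_iter {X Y : Type*} [CommGroup X] [CommGroup Y] (φ : X →* Y) {s : X →* X} {s' : Y →* Y}
    (h : ∀ x, φ (s x) = s' (φ x)) (i : ℕ) (x : X) : φ (s^[i] x) = s'^[i] (φ x) := by
  induction i with
  | zero => rfl
  | succ i ih => rw [Function.iterate_succ_apply', Function.iterate_succ_apply', h, ih]

theorem u7_nrm {X Y : Type*} [CommGroup X] [CommGroup Y] (φ : X →* Y) {s : X →* X} {s' : Y →* Y}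
    (h : ∀ x, φ (s x) = s' (φ x)) (n : ℕ) (x : X) : φ (nrm n s x) = nrm n s' (φ x) := by
  rw [nrm_apply, nrm_apply, map_prod]
  exact Finset.prod_congr rfl fun i _ => u7_iter φ h i x

theorem u7_smul_iter (σ : L ≃ₐ[K] L) (i : ℕ) (w : InfinitePlace L) : (fun w => σ • w)^[i] w = σ ^ i • w := by
  induction i with
  | zero => simp
  | succ i ih => rw [Function.iterate_succ_apply', ih, pow_succ', mul_smul]

theorem u7_sW_iter {W : Type*} (p : W ≃ W) (i : ℕ) (x : Multiplicative (W → ℤ)) (w : W) :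
    Multiplicative.toAdd ((sW p)^[i] x) w = Multiplicative.toAdd x (p.symm^[i] w) := by
  induction i generalizing w with
  | zero => rfl
  | succ i ih =>
    rw [Function.iterate_succ_apply', sW_apply, ih, ← Function.iterate_succ_apply]

/-- PROOF. `ε` from `exists_eps` (U1), `φ = phi ε`, `s = sW (MulAction.toPerm σ)` on `M = Multiplicative (InfinitePlace L → ℤ)`; `φ (s x) = sU σ (φ x)` (reindex the product), so
`φ` commutes with `dif` and `nrm`. `tate_perm` (G6), with `q w = w.comap (algebraMap K L)` (surjective: `InfinitePlace.comap_surjective`), `R = RamInf K L`, `hc` = `infPlace_count` (U6): `Her ⊥ ⊤ t0`, `t0 ≤ 2 ^ r`.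
Kernel of `φ`: `zpowers c`, `s c = c` (`phi_ker`, U4), so `Her ⊥ (ker φ) n` (`her_zpowers`, G5), and `Her (ker φ) ⊤ (t0 / n)` (`her_high`, A1). By `tate_map` (G2, `A = ker φ`, `B = ⊤`, both `tate f g` and `tate g f`):
`Her ⊥ (range φ) (t0 / n)` for `sU σ`. `range φ` has finite index in `UL L` (`phi_range`, U5), so `Her (range φ) (UL L) 1` (`her_finite`) and `her_mid` give `Her ⊥ (UL L) (t0 / n * 1)`.
`UL L` is stable under `sU σ` (the divisor of `σ x`: D1 `dvU_sU`, or through `UL_eq`); `isPair_dif_nrm`, `isStable_of` (G3), `sU_iter` (C1). -/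
theorem her_units [IsGalois K L] (σ : L ≃ₐ[K] L) (hσ : ∀ x, x ∈ Subgroup.zpowers σ) :
    ∃ t : ℚ, Her (dif (sU σ)) (nrm (Module.finrank K L) (sU σ)) ⊥ (UL L) t ∧
      t ≤ 2 ^ (RamInf K L).card / Module.finrank K L := by
  classical
  obtain ⟨ε, e1, e2, e3⟩ := exists_eps K L
  set n := Module.finrank K L with hn
  have hn0 : n ≠ 0 := Module.finrank_pos.ne'
  have hσn : σ ^ n = 1 := by
    rw [hn, ← IsGalois.card_aut_eq_finrank, pow_card_eq_one']
  let p : InfinitePlace L ≃ InfinitePlace L := MulAction.toPerm σ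
  have hp : ∀ w, p w = σ • w := fun w => rfl
  have hps : ∀ w, p.symm w = σ⁻¹ • w := fun w => rfl
  let s := sW p
  let φ := phi ε
  have hφ : ∀ x, φ (s x) = sU σ (φ x) := by
    intro x
    show phi ε (sW p x) = sU σ (phi ε x)
    rw [phi_apply, phi_apply, map_prod]
    rw [← Equiv.prod_comp p]
    refine Finset.prod_congr rfl fun w _ => ?_
    rw [sW_apply, Equiv.symm_apply_apply, map_zpow, e2, hp]
  have hpn : ∀ w, p^[n] w = w := by
    intro w
    have := u7_smul_iter σ n w
    rw [hσn, one_smul] at this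
    exact this
  have hpsn : ∀ w, p.symm^[n] w = w := by
    intro w
    have := u7_smul_iter σ⁻¹ n w
    rw [inv_pow, hσn, inv_one, one_smul] at this
    exact this
  have hsn : ∀ x, s^[n] x = x := by
    intro x
    apply Multiplicative.toAdd.injective
    funext w
    show Multiplicative.toAdd ((sW p)^[n] x) w = _
    rw [u7_sW_iter, hpsn]
  obtain ⟨t0, ht0, ht1⟩ := tate_perm (fun w : InfinitePlace L => w.comap (algebraMap K L)) InfinitePlace.comap_surjective
    p hn0 hpn (RamInf K L) (fun w => by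
      show (σ • w).comap (algebraMap K L) = w.comap (algebraMap K L)
      rw [InfinitePlace.comap_smul]
      congr 1
      ext z
      exact σ.symm.commutes z) (fun w w' h => infPlace_count σ hσ w w' h)
  obtain ⟨c, c1, c2, c3⟩ := phi_ker ε e1 e2 e3
  have hsc : s c = c := by
    apply Multiplicative.toAdd.injective
    funext w
    show Multiplicative.toAdd (sW p c) w = _
    rw [sW_apply, hps]
    exact c3 σ⁻¹ w
  have hP : IsPair (dif s) (nrm n s) := isPair_dif_nrm s hsn
  have hP' : IsPair (dif (sU σ)) (nrm n (sU σ)) := isPair_dif_nrm (sU σ) fun x => sU_iter σ x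
  have sbot : IsStable (dif s) (nrm n s) ⊥ := isStable_of s n fun x hx => by
    rw [Subgroup.mem_bot] at hx ⊢
    rw [hx, map_one]
  have stop : IsStable (dif s) (nrm n s) ⊤ := isStable_of s n fun x _ => Subgroup.mem_top _
  have sker : IsStable (dif s) (nrm n s) φ.ker := isStable_of s n fun x hx => by
    rw [MonoidHom.mem_ker] at hx ⊢
    rw [hφ, hx, map_one]
  have hz : Her (dif s) (nrm n s) ⊥ φ.ker n := by
    have := her_zpowers s hn0 hsc c2
    rw [← c1] at this
    exact this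
  have hh := her_high hP sbot sker stop bot_le le_top ht0 hz
  have hrange : (⊤ : Subgroup _).map φ = φ.range := by
    rw [MonoidHom.range_eq_map]
  have hkm : φ.ker.map φ = ⊥ := by
    rw [eq_bot_iff]
    rintro _ ⟨x, hx, rfl⟩
    exact hx
  have m1 := tate_map φ (f' := dif (sU σ)) (g' := nrm n (sU σ)) (fun x => u7_dif φ hφ x) (fun x => u7_nrm φ hφ n x) hP
    (A := φ.ker) (B := ⊤) le_top sker stop inf_le_right
  have m2 := tate_map φ (f' := nrm n (sU σ)) (g' := dif (sU σ)) (fun x => u7_nrm φ hφ n x) (fun x => u7_dif φ hφ x) hP.symm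
    (A := φ.ker) (B := ⊤) le_top sker.symm stop.symm inf_le_right
  rw [hrange, hkm] at m1 m2
  have hr : Her (dif (sU σ)) (nrm n (sU σ)) ⊥ φ.range (t0 / n) := by
    refine ⟨?_, ?_, ?_⟩
    · rw [← m1]
      exact hh.left
    · rw [← m2]
      exact hh.right
    · rw [← m1, ← m2]
      exact hh.eq
  obtain ⟨r1, r2⟩ := phi_range ε e1 e2 e3
  have tbot : IsStable (dif (sU σ)) (nrm n (sU σ)) ⊥ := isStable_of _ n fun x hx => by
    rw [Subgroup.mem_bot] at hx ⊢
    rw [hx, map_one]
  have trange : IsStable (dif (sU σ)) (nrm n (sU σ)) φ.range := isStable_of _ n fun x hx => by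
    obtain ⟨y, rfl⟩ := hx
    exact ⟨s y, hφ y⟩
  have tUL : IsStable (dif (sU σ)) (nrm n (sU σ)) (UL L) := isStable_of _ n fun x hx => by
    rw [UL_eq] at hx
    obtain ⟨u, rfl⟩ := hx
    have i1 : IsIntegral ℤ ((Units.map (algebraMap (𝓞 L) L : 𝓞 L →* L) u : Lˣ) : L) := (u : 𝓞 L).isIntegral_coe
    have i2 : IsIntegral ℤ (((Units.map (algebraMap (𝓞 L) L : 𝓞 L →* L) u)⁻¹ : Lˣ) : L) := by
      rw [← map_inv]
      exact ((u⁻¹ : (𝓞 L)ˣ) : 𝓞 L).isIntegral_coe
    refine u1_mem ?_ ?_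
    · rw [sU_coe]
      exact i1.map ((σ : L →+* L).toIntAlgHom)
    · rw [← map_inv, sU_coe]
      exact i2.map ((σ : L →+* L).toIntAlgHom)
  have hf := her_finite hP' trange tUL r1 r2
  have hfin := her_mid hP' tbot trange tUL bot_le r1 hr hf
  refine ⟨t0 / n * 1, hfin, ?_⟩
  rw [mul_one]
  have : (0 : ℚ) < n := by exact_mod_cast Nat.pos_of_ne_zero hn0
  gcongr

end Pool.Agent.H69H
end
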