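import Mathlib

/-! Merged copies (to shorten the build) of Lib.CFT.L1, Lib.CFT.L2, Lib.CFT.Y29, Lib.CFT.Y31, Lib.CFT.Y29B, Lib.H34Z.A05. -/

-- from Lib.CFT.L1
section

/-! # CFT, module ZL, part 1: homogeneous smooth families

HF d m F: F s is smooth on the nonzero vectors, jointly in s, and homogeneous of degree -(d s + m). DF r F: the derivative in the direction r.
Bop R G x: G x minus the mean value of the G (x + r), r in R. Main estimate: bop_bound. -/

open scoped ContDiff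

namespace CFTL

variable {V : Type} [NormedAddCommGroup V] [NormedSpace ℝ V]

/-- Homogeneous smooth families. -/
structure HF (d m : ℝ) (F : ℂ → V → ℂ) : Prop where
  smooth : ContDiffOn ℝ ∞ (fun p : ℂ × V => F p.1 p.2) {p | p.2 ≠ 0}
  hom : ∀ (s : ℂ) (t : ℝ) (x : V), 0 < t → x ≠ 0 → F s (t • x) = (t : ℂ) ^ (-(d * s + m)) * F s x

/-- The derivative in the direction r. -/
noncomputable def DF (r : V) (F : ℂ → V → ℂ) (s : ℂ) (x : V) : ℂ := fderiv ℝ (F s) x r

theorem isOpen_nz : IsOpen {p : ℂ × V | p.2 ≠ 0} := (isOpen_ne (x := (0 : V))).preimage continuous_snd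

theorem HF.diffAt {d m : ℝ} {F : ℂ → V → ℂ} (h : HF d m F) (s : ℂ) {x : V} (hx : x ≠ 0) :
    HasFDerivAt (F s) ((fderiv ℝ (fun p : ℂ × V => F p.1 p.2) (s, x)).comp (ContinuousLinearMap.inr ℝ ℂ V)) x := by
  have h1 : DifferentiableAt ℝ (fun p : ℂ × V => F p.1 p.2) (s, x) :=
    (h.smooth.contDiffAt (isOpen_nz.mem_nhds hx)).differentiableAt (by simp)
  have h2 : HasFDerivAt (fun y : V => (s, y)) (ContinuousLinearMap.inr ℝ ℂ V) x := hasFDerivAt_prodMk_right s x
  exact h1.hasFDerivAt.comp x h2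

theorem HF.differentiableAt {d m : ℝ} {F : ℂ → V → ℂ} (h : HF d m F) (s : ℂ) {x : V} (hx : x ≠ 0) :
    DifferentiableAt ℝ (F s) x := (h.diffAt s hx).differentiableAt

theorem HF.deriv {d m : ℝ} {F : ℂ → V → ℂ} (h : HF d m F) (r : V) : HF d (m + 1) (DF r F) := by
  constructor
  · have h1 : ContDiffOn ℝ ∞ (fun p : ℂ × V => fderiv ℝ (fun p : ℂ × V => F p.1 p.2) p (0, r)) {p | p.2 ≠ 0} :=
      (h.smooth.fderiv_of_isOpen isOpen_nz (by simp)).clm_apply contDiffOn_const
    refine h1.congr fun p hp => ?_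
    unfold DF
    rw [(h.diffAt p.1 hp).fderiv]
    simp
  · intro s t x ht hx
    have htx : t • x ≠ 0 := smul_ne_zero ht.ne' hx
    have h1 : HasFDerivAt (fun y : V => F s (t • y)) ((fderiv ℝ (F s) (t • x)).comp (t • ContinuousLinearMap.id ℝ V)) x := by
      have h2 : HasFDerivAt (fun y : V => t • y) (t • ContinuousLinearMap.id ℝ V) x :=
        (hasFDerivAt_id x).const_smul t
      exact (h.differentiableAt s htx).hasFDerivAt.comp x h2
    have h3 : HasFDerivAt (fun y : V => (t : ℂ) ^ (-(d * s + m)) * F s y) ((t : ℂ) ^ (-(d * s + m)) • fderiv ℝ (F s) x) x :=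
      (h.differentiableAt s hx).hasFDerivAt.const_mul _
    have h4 : HasFDerivAt (fun y : V => F s (t • y)) ((t : ℂ) ^ (-(d * s + m)) • fderiv ℝ (F s) x) x := by
      refine h3.congr_of_eventuallyEq ?_
      filter_upwards [(isOpen_ne (x := (0 : V))).mem_nhds hx] with y hy
      exact h.hom s t y ht hy
    have h5 := congrArg (fun L => L r) (h1.unique h4)
    simp only [ContinuousLinearMap.comp_apply, ContinuousLinearMap.smul_apply, ContinuousLinearMap.id_apply, map_smul] at h5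
    unfold DF
    have ht0 : (t : ℂ) ≠ 0 := Complex.ofReal_ne_zero.2 ht.ne'
    have h6 : (t : ℂ) * fderiv ℝ (F s) (t • x) r = (t : ℂ) ^ (-(d * s + m)) * fderiv ℝ (F s) x r := by
      rw [← smul_eq_mul (a := (t : ℂ) ^ (-(d * s + m))), ← h5, Complex.real_smul]
    have h7 : (t : ℂ) ^ (-(d * s + ((m + 1 : ℝ) : ℂ))) = (t : ℂ) ^ (-(d * s + m)) * (t : ℂ)⁻¹ := by
      rw [← Complex.cpow_neg_one, ← Complex.cpow_add _ _ ht0]
      congr 1
      push_cast
      ring
    rw [h7]
    field_simp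
    rw [mul_comm, h6]

variable [ProperSpace V]

/-- The basic bound. -/
theorem HF.bound {d m : ℝ} {F : ℂ → V → ℂ} (h : HF d m F) (b : ℝ) : ∃ C : ℝ, 0 ≤ C ∧ ∀ s : ℂ, ‖s‖ ≤ b → ∀ x : V, x ≠ 0 →
    ‖F s x‖ ≤ C * ‖x‖ ^ (-(d * s.re + m)) := by
  have hK : IsCompact (Metric.closedBall (0 : ℂ) b ×ˢ Metric.sphere (0 : V) 1) :=
    (isCompact_closedBall _ _).prod (isCompact_sphere _ _)
  have hc : ContinuousOn (fun p : ℂ × V => F p.1 p.2) (Metric.closedBall (0 : ℂ) b ×ˢ Metric.sphere (0 : V) 1) := by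
    refine h.smooth.continuousOn.mono fun p hp => ?_
    have h1 : ‖p.2‖ = 1 := mem_sphere_zero_iff_norm.1 hp.2
    intro h2
    rw [h2, norm_zero] at h1
    exact zero_ne_one h1
  obtain ⟨C, hC⟩ := hK.exists_bound_of_continuousOn hc
  refine ⟨max C 0, le_max_right _ _, fun s hs x hx => ?_⟩
  have hx0 : 0 < ‖x‖ := norm_pos_iff.2 hx
  have h1 : x = ‖x‖ • (‖x‖⁻¹ • x) := by
    rw [smul_smul, mul_inv_cancel₀ hx0.ne', one_smul]
  have h2 : ‖(‖x‖⁻¹ • x)‖ = 1 := by
    rw [norm_smul, norm_inv, norm_norm, inv_mul_cancel₀ hx0.ne']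
  have h3 : (‖x‖⁻¹ • x) ≠ 0 := by
    intro h4
    rw [h4, norm_zero] at h2
    exact zero_ne_one h2
  have h4 := h.hom s ‖x‖ (‖x‖⁻¹ • x) hx0 h3
  rw [← h1] at h4
  rw [h4, norm_mul, Complex.norm_cpow_eq_rpow_re_of_pos hx0, mul_comm]
  have h5 : (-(d * s + m : ℂ)).re = -(d * s.re + m) := by simp
  rw [h5]
  refine mul_le_mul_of_nonneg_right ?_ (by positivity)
  exact (hC (s, ‖x‖⁻¹ • x) ⟨mem_closedBall_zero_iff.2 hs, mem_sphere_zero_iff_norm.2 h2⟩).trans (le_max_left _ _)

omit [ProperSpace V]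

/-- The operator B. -/
noncomputable def Bop (R : Finset V) (G : V → ℂ) (x : V) : ℂ := G x - (R.card : ℂ)⁻¹ * ∑ r ∈ R, G (x + r)

theorem Bop_eq (R : Finset V) (hR : R.Nonempty) (G : V → ℂ) (x : V) :
    Bop R G x = (R.card : ℂ)⁻¹ * ∑ r ∈ R, (G x - G (x + r)) := by
  have h : (R.card : ℂ) ≠ 0 := Nat.cast_ne_zero.2 (Finset.card_pos.2 hR).ne'
  unfold Bop
  rw [Finset.sum_sub_distrib, Finset.sum_const, nsmul_eq_mul, mul_sub, inv_mul_cancel_left₀ h]

/-- Line derivatives of the iterates. -/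
theorem bop_deriv {R : Finset V} {M : ℝ} (hM0 : 0 ≤ M) (hM : ∀ r ∈ R, ‖r‖ ≤ M) (k : ℕ) (v : V) {G G' : V → ℂ} {ρ : ℝ}
    (h : ∀ y : V, ρ < ‖y‖ → HasDerivAt (fun t : ℝ => G (y + t • v)) (G' y) 0) :
    ∀ y : V, ρ + k * M < ‖y‖ → HasDerivAt (fun t : ℝ => (Bop R)^[k] G (y + t • v)) ((Bop R)^[k] G' y) 0 := by
  induction k generalizing G G' ρ with
  | zero =>
    intro y hy
    have h1 : ρ < ‖y‖ := by simpa using hy
    exact h y h1
  | succ k ih =>
    intro y hy
    rw [Function.iterate_succ_apply, Function.iterate_succ_apply]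
    refine ih (G := Bop R G) (G' := Bop R G') (ρ := ρ + M) (fun z hz => ?_) y ?_
    · unfold Bop
      refine (h z (by linarith)).sub (HasDerivAt.const_mul _ ?_)
      have h1 : ∀ r ∈ R, HasDerivAt (fun t : ℝ => G (z + t • v + r)) (G' (z + r)) 0 := by
        intro r hr
        have h2 : ρ < ‖z + r‖ := by
          have h3 : ‖z‖ ≤ ‖z + r‖ + ‖r‖ := by
            have h4 := norm_sub_le (z + r) r
            rwa [add_sub_cancel_right] at h4
          have h5 := hM r hr
          linarith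
        refine (h (z + r) h2).congr_of_eventuallyEq (Filter.Eventually.of_forall fun t => ?_)
        show G (z + t • v + r) = G (z + r + t • v)
        rw [add_right_comm]
      exact HasDerivAt.fun_sum h1
    · push_cast at hy
      linarith

/-- Comparison of powers of comparable numbers. -/
theorem rpow_cmp {a b e E : ℝ} (ha : 0 < a) (hb : 0 < b) (h1 : a ≤ 2 * b) (h2 : b ≤ 2 * a) (he : |e| ≤ E) :
    b ^ e ≤ 2 ^ E * a ^ e := by
  have h3 : 0 < b / a := div_pos hb ha
  have h4 : b ^ e = (b / a) ^ e * a ^ e := by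
    rw [← Real.mul_rpow h3.le ha.le, div_mul_cancel₀ _ ha.ne']
  rw [h4]
  refine mul_le_mul_of_nonneg_right ?_ (by positivity)
  have h5 : b / a ≤ 2 := (div_le_iff₀ ha).2 h2
  have h6 : 1 / 2 ≤ b / a := (le_div_iff₀ ha).2 (by linarith)
  obtain ⟨he1, he2⟩ := abs_le.1 he
  rcases le_total 0 e with h0 | h0
  · calc (b / a) ^ e ≤ 2 ^ e := Real.rpow_le_rpow h3.le h5 h0
      _ ≤ 2 ^ E := Real.rpow_le_rpow_of_exponent_le (by norm_num) he2
  · calc (b / a) ^ e ≤ (1 / 2) ^ e := Real.rpow_le_rpow_of_nonpos (by norm_num) h6 h0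
      _ = 2 ^ (-e) := by
        rw [one_div, Real.inv_rpow (by norm_num), Real.rpow_neg (by norm_num)]
      _ ≤ 2 ^ E := Real.rpow_le_rpow_of_exponent_le (by norm_num) (by linarith)

/-- MAIN ESTIMATE. -/
theorem bop_bound [ProperSpace V] {d : ℝ} {R : Finset V} (hR : R.Nonempty) (k : ℕ) {m : ℝ} {F : ℂ → V → ℂ} (h : HF d m F)
    (b : ℝ) : ∃ C ρ : ℝ, 0 ≤ C ∧ 0 < ρ ∧ ∀ s : ℂ, ‖s‖ ≤ b → ∀ x : V, ρ ≤ ‖x‖ →
      ‖(Bop R)^[k] (F s) x‖ ≤ C * ‖x‖ ^ (-(d * s.re + m) - k) := by
  induction k generalizing m F with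
  | zero =>
    obtain ⟨C, hC, h1⟩ := h.bound b
    refine ⟨C, 1, hC, one_pos, fun s hs x hx => ?_⟩
    have h2 : x ≠ 0 := by
      rintro rfl
      rw [norm_zero] at hx
      linarith
    simpa using h1 s hs x h2
  | succ k ih =>
    obtain ⟨M, hM0, hM⟩ : ∃ M : ℝ, 0 ≤ M ∧ ∀ r ∈ R, ‖r‖ ≤ M := by
      refine ⟨∑ r ∈ R, ‖r‖, Finset.sum_nonneg fun _ _ => norm_nonneg _, fun r hr => ?_⟩
      exact Finset.single_le_sum (f := fun r => ‖r‖) (fun _ _ => norm_nonneg _) hr
    have h1 : ∀ r ∈ R, ∃ C ρ : ℝ, 0 ≤ C ∧ 0 < ρ ∧ ∀ s : ℂ, ‖s‖ ≤ b → ∀ x : V, ρ ≤ ‖x‖ →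
        ‖(Bop R)^[k] (DF r F s) x‖ ≤ C * ‖x‖ ^ (-(d * s.re + (m + 1)) - k) := fun r _ => ih (h.deriv r)
    choose! C ρ hC hρ hb using h1
    set ρ₀ : ℝ := ∑ r ∈ R, ρ r + (k + 3) * (M + 1) with hρ₀
    set E : ℝ := |d| * b + |m + 1| + k with hE
    have hρsum : ∀ r ∈ R, ρ r ≤ ∑ r ∈ R, ρ r := fun r hr =>
      Finset.single_le_sum (f := ρ) (fun r hr => (hρ r hr).le) hr
    have hρpos : 0 ≤ ∑ r ∈ R, ρ r := Finset.sum_nonneg fun r hr => (hρ r hr).le
    refine ⟨∑ r ∈ R, 2 ^ E * C r, 2 * ρ₀, Finset.sum_nonneg fun r hr => mul_nonneg (by positivity) (hC r hr), by positivity,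
      fun s hs x hx => ?_⟩
    have hx0 : 0 < ‖x‖ := by
      have : 0 < ρ₀ := by positivity
      linarith
    rw [Function.iterate_succ_apply', Bop_eq R hR, norm_mul]
    have hcard : (1 : ℝ) ≤ R.card := by exact_mod_cast Finset.card_pos.2 hR
    have h2 : ‖(R.card : ℂ)⁻¹‖ ≤ 1 := by
      rw [norm_inv, Complex.norm_natCast]
      exact inv_le_one_of_one_le₀ hcard
    refine (mul_le_of_le_one_left (norm_nonneg _) h2).trans ((norm_sum_le _ _).trans ?_)
    rw [Finset.sum_mul]
    refine Finset.sum_le_sum fun r hr => ?_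
    -- the segment
    have hseg : ∀ t ∈ Set.Icc (0 : ℝ) 1, ‖x‖ / 2 ≤ ‖x + t • r‖ ∧ ‖x + t • r‖ ≤ 2 * ‖x‖ := by
      intro t ht
      have h3 : ‖t • r‖ ≤ M := by
        rw [norm_smul, Real.norm_of_nonneg ht.1]
        calc t * ‖r‖ ≤ 1 * M := mul_le_mul ht.2 (hM r hr) (norm_nonneg _) zero_le_one
          _ = M := one_mul M
      have h4 : M ≤ ‖x‖ / 2 := by
        have : M ≤ ρ₀ := by
          have h5 : (k + 3) * (M + 1) = M + (k * (M + 1) + 2 * M + 3) := by ring
          have h6 : (0 : ℝ) ≤ k * (M + 1) + 2 * M + 3 := by positivity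
          linarith
        linarith
      have h5 := norm_add_le x (t • r)
      have h6 : ‖x‖ ≤ ‖x + t • r‖ + ‖t • r‖ := by
        have h7 := norm_sub_le (x + t • r) (t • r)
        rwa [add_sub_cancel_right] at h7
      constructor <;> linarith
    have hder : ∀ t ∈ Set.Icc (0 : ℝ) 1, HasDerivAt (fun t : ℝ => (Bop R)^[k] (F s) (x + t • r))
        ((Bop R)^[k] (DF r F s) (x + t • r)) t := by
      intro t ht
      have h3 : ∀ y : V, 0 < ‖y‖ → HasDerivAt (fun t : ℝ => F s (y + t • r)) (DF r F s y) 0 := by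
        intro y hy
        have h4 := (h.differentiableAt s (norm_pos_iff.1 hy)).hasFDerivAt
        have h5 : HasDerivAt (fun t : ℝ => y + t • r) r 0 := by
          have h6 := ((hasDerivAt_id (0 : ℝ)).smul_const r).const_add y
          simpa using h6
        have h7 : HasFDerivAt (F s) (fderiv ℝ (F s) y) (y + (0 : ℝ) • r) := by simpa using h4
        exact h7.comp_hasDerivAt (0 : ℝ) h5
      have h4 : 0 + (k : ℝ) * M < ‖x + t • r‖ := by
        have h5 := (hseg t ht).1
        have h6 : (k : ℝ) * M < ρ₀ := by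
          have h7 : (k + 3) * (M + 1) = k * M + (k + 3 * M + 3) := by ring
          have h8 : (0 : ℝ) < k + 3 * M + 3 := by positivity
          linarith
        linarith
      have h5 := bop_deriv hM0 hM k r h3 (x + t • r) h4
      have h6 : HasDerivAt (fun u : ℝ => u - t) 1 t := (hasDerivAt_id t).sub_const t
      have h7 : HasDerivAt (fun u : ℝ => (Bop R)^[k] (F s) (x + t • r + u • r)) ((Bop R)^[k] (DF r F s) (x + t • r)) (t - t) := by
        rw [sub_self]
        exact h5
      have h8 := HasDerivAt.scomp (h := fun u : ℝ => u - t) t h7 h6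
      rw [one_smul] at h8
      refine h8.congr_of_eventuallyEq (Filter.Eventually.of_forall fun u => ?_)
      show (Bop R)^[k] (F s) (x + u • r) = (Bop R)^[k] (F s) (x + t • r + (u - t) • r)
      rw [add_assoc, ← add_smul, add_sub_cancel]
    have hbd : ∀ t ∈ Set.Icc (0 : ℝ) 1, ‖(Bop R)^[k] (DF r F s) (x + t • r)‖ ≤
        2 ^ E * C r * ‖x‖ ^ (-(d * s.re + m) - (k + 1 : ℕ)) := by
      intro t ht
      obtain ⟨g1, g2⟩ := hseg t ht
      have h3 : ρ r ≤ ‖x + t • r‖ := by
        have h4 := hρsum r hr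
        have h5 : 0 ≤ (k + 3) * (M + 1) := by positivity
        linarith
      have h4 := hb r hr s hs (x + t • r) h3
      refine h4.trans ?_
      have h5 : (-(d * s.re + (m + 1)) - k : ℝ) = -(d * s.re + m) - (k + 1 : ℕ) := by
        push_cast
        ring
      rw [h5, mul_comm (2 ^ E) (C r), mul_assoc]
      refine mul_le_mul_of_nonneg_left ?_ (hC r hr)
      refine rpow_cmp hx0 (by linarith) (by linarith) (by linarith) ?_
      rw [← h5]
      have h6 : |d * s.re| ≤ |d| * b := by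
        rw [abs_mul]
        exact mul_le_mul_of_nonneg_left ((Complex.abs_re_le_norm s).trans hs) (abs_nonneg _)
      have h7 : -(d * s.re + (m + 1)) - (k : ℝ) = -(d * s.re) + -(m + 1) + -(k : ℝ) := by ring
      rw [h7]
      refine (abs_add_three _ _ _).trans ?_
      rw [abs_neg, abs_neg, abs_neg, Nat.abs_cast]
      linarith
    have hmv := (convex_Icc (0 : ℝ) 1).norm_image_sub_le_of_norm_hasDerivWithin_le
      (f := fun t : ℝ => (Bop R)^[k] (F s) (x + t • r)) (fun t ht => (hder t ht).hasDerivWithinAt) hbd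
      (Set.left_mem_Icc.2 zero_le_one) (Set.right_mem_Icc.2 zero_le_one)
    simp only [one_smul, zero_smul, add_zero, sub_zero, norm_one, mul_one] at hmv
    rw [norm_sub_rev]
    exact hmv

end CFTL
end

-- from Lib.CFT.L2
section

/-! # CFT, module ZL, part 2: sums of homogeneous families over a lattice with periodic coefficients of mean zero

A: the lattice (an abstract group), e : A → V its embedding, J a subgroup of finite index, R representatives of A/J in V. For periodic coefficients a with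
sum 0, the sum of a(x) G(x) is the sum of a(x) (B^k G)(x); for a homogeneous family this is analytic for Re s > 1 - k/d (periodicK). -/

open scoped ContDiff

namespace CFTL

variable {V : Type} [NormedAddCommGroup V] [NormedSpace ℝ V]

section sums

variable {A : Type} [AddCommGroup A] (e : A →+ V) (he : Function.Injective e) (J : AddSubgroup A)

/-- Representatives of A / J. -/
def IsRep (R : Finset A) : Prop := Function.Bijective fun r : R => (QuotientAddGroup.mk (r : A) : A ⧸ J)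

theorem exists_rep [Finite (A ⧸ J)] : ∃ R : Finset A, IsRep J R := by
  classical
  have := Fintype.ofFinite (A ⧸ J)
  refine ⟨Finset.univ.image fun q : A ⧸ J => q.out, ?_⟩
  constructor
  · rintro ⟨r, hr⟩ ⟨r', hr'⟩ h
    rw [Finset.mem_image] at hr hr'
    obtain ⟨q, -, rfl⟩ := hr
    obtain ⟨q', -, rfl⟩ := hr'
    have h1 : (QuotientAddGroup.mk q.out : A ⧸ J) = QuotientAddGroup.mk q'.out := h
    rw [QuotientAddGroup.out_eq', QuotientAddGroup.out_eq'] at h1
    subst h1
    rfl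
  · intro q
    exact ⟨⟨q.out, Finset.mem_image_of_mem _ (Finset.mem_univ q)⟩, QuotientAddGroup.out_eq' q⟩

variable {J}

theorem rep_sum [Finite (A ⧸ J)] {R : Finset A} (hR : IsRep J R) {a : A ⧸ J → ℂ} (ha : ∑ᶠ q, a q = 0) (y : A) :
    ∑ r ∈ R, a (QuotientAddGroup.mk (y - r)) = 0 := by
  classical
  have := Fintype.ofFinite (A ⧸ J)
  rw [finsum_eq_sum_of_fintype] at ha
  rw [← Finset.sum_coe_sort R (fun r => a (QuotientAddGroup.mk (y - r))), ← ha]
  let f : R ≃ A ⧸ J := Equiv.ofBijective _ hR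
  refine Fintype.sum_equiv (f.trans (Equiv.subLeft (QuotientAddGroup.mk y))) _ _ fun r => ?_
  rfl

variable {e}

theorem sum_bop [Finite (A ⧸ J)] {R : Finset A} (hR : IsRep J R) {a : A ⧸ J → ℂ} (ha : ∑ᶠ q, a q = 0) {G : V → ℂ}
    (hG : Summable fun x : A => G (e x)) :
    (Summable fun x : A => Bop (R.map ⟨e, he⟩) G (e x)) ∧
      ∑' x : A, a (QuotientAddGroup.mk x) * Bop (R.map ⟨e, he⟩) G (e x) = ∑' x : A, a (QuotientAddGroup.mk x) * G (e x) := by
  classical
  have := Fintype.ofFinite (A ⧸ J)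
  have hbd : ∃ M : ℝ, ∀ q, ‖a q‖ ≤ M :=
    ⟨∑ q, ‖a q‖, fun q => Finset.single_le_sum (f := fun q => ‖a q‖) (fun _ _ => norm_nonneg _) (Finset.mem_univ q)⟩
  obtain ⟨M, hM⟩ := hbd
  have hmul : ∀ {g : A → ℂ} (f : A → A ⧸ J), Summable g → Summable fun x => a (f x) * g x := by
    intro g f hg
    refine Summable.of_norm_bounded (hg.norm.mul_left M) fun x => ?_
    rw [norm_mul]
    exact mul_le_mul_of_nonneg_right (hM _) (norm_nonneg _)
  have hsh : ∀ r : A, Summable fun x : A => G (e (x + r)) := fun r =>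
    (Equiv.addRight r).summable_iff.2 hG
  have e1 : ∀ x : A, Bop (R.map ⟨e, he⟩) G (e x) = G (e x) - (R.card : ℂ)⁻¹ * ∑ r ∈ R, G (e (x + r)) := by
    intro x
    unfold Bop
    rw [Finset.card_map, Finset.sum_map]
    congr 2
    refine Finset.sum_congr rfl fun r _ => ?_
    show G (e x + e r) = G (e (x + r))
    rw [map_add]
  have hs2 : Summable fun x : A => (R.card : ℂ)⁻¹ * ∑ r ∈ R, G (e (x + r)) :=
    (summable_sum fun r _ => hsh r).mul_left _
  constructor
  · exact (hG.sub hs2).congr fun x => (e1 x).symm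
  · have e2 : ∀ x : A, a (QuotientAddGroup.mk x) * Bop (R.map ⟨e, he⟩) G (e x) =
        a (QuotientAddGroup.mk x) * G (e x) - (R.card : ℂ)⁻¹ * ∑ r ∈ R, a (QuotientAddGroup.mk x) * G (e (x + r)) := by
      intro x
      rw [e1, mul_sub, ← Finset.mul_sum]
      ring
    have hs3 : ∀ r ∈ R, Summable fun x : A => a (QuotientAddGroup.mk x) * G (e (x + r)) := fun r _ =>
      hmul (fun x => QuotientAddGroup.mk x) (hsh r)
    rw [tsum_congr e2, (hmul (fun x => QuotientAddGroup.mk x) hG).tsum_sub ((summable_sum hs3).mul_left _), tsum_mul_left,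
      Summable.tsum_finsetSum hs3]
    have e3 : ∀ r ∈ R, ∑' x : A, a (QuotientAddGroup.mk x) * G (e (x + r)) =
        ∑' y : A, a (QuotientAddGroup.mk (y - r)) * G (e y) := by
      intro r _
      rw [← (Equiv.addRight r).tsum_eq (fun y : A => a (QuotientAddGroup.mk (y - r)) * G (e y))]
      refine tsum_congr fun x => ?_
      simp
    have hs4 : ∀ r ∈ R, Summable fun y : A => a (QuotientAddGroup.mk (y - r)) * G (e y) := fun r _ =>
      hmul (fun y => QuotientAddGroup.mk (y - r)) hG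
    rw [Finset.sum_congr rfl e3, ← Summable.tsum_finsetSum hs4]
    have e4 : ∀ y : A, ∑ r ∈ R, a (QuotientAddGroup.mk (y - r)) * G (e y) = 0 := by
      intro y
      rw [← Finset.sum_mul, rep_sum hR ha, zero_mul]
    rw [tsum_congr e4, tsum_zero, mul_zero, sub_zero]

theorem sum_bop_iter [Finite (A ⧸ J)] {R : Finset A} (hR : IsRep J R) {a : A ⧸ J → ℂ} (ha : ∑ᶠ q, a q = 0) (k : ℕ) {G : V → ℂ}
    (hG : Summable fun x : A => G (e x)) :
    ∑' x : A, a (QuotientAddGroup.mk x) * (Bop (R.map ⟨e, he⟩))^[k] G (e x) = ∑' x : A, a (QuotientAddGroup.mk x) * G (e x) := by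
  induction k generalizing G with
  | zero => rfl
  | succ k ih =>
    obtain ⟨h1, h2⟩ := sum_bop he hR ha hG
    rw [← h2, ← ih h1]
    rfl

end sums

theorem bop_diff (R : Finset V) (k : ℕ) {F : ℂ → V → ℂ} (h : ∀ y, Differentiable ℂ fun s => F s y) (y : V) :
    Differentiable ℂ fun s => (Bop R)^[k] (F s) y := by
  induction k generalizing F y with
  | zero => exact h y
  | succ k ih =>
    have h1 : ∀ y, Differentiable ℂ fun s => Bop R (F s) y := by
      intro y
      unfold Bop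
      exact (h y).sub ((Differentiable.fun_sum fun r _ => h (y + r)).const_mul _)
    exact ih h1 y

/-- MAIN LEMMA. -/
theorem periodicK [ProperSpace V] {A : Type} [AddCommGroup A] {e : A →+ V} (he : Function.Injective e) {J : AddSubgroup A}
    [Finite (A ⧸ J)] {d : ℝ} (hd : 0 < d) (hsum : ∀ β : ℝ, d < β → Summable fun x : A => ‖e x‖ ^ (-β))
    (hfin : ∀ ρ : ℝ, {x : A | ‖e x‖ < ρ}.Finite) {F : ℂ → V → ℂ} (h : HF d 0 F) (h0 : ∀ s, F s 0 = 0)
    (hs : ∀ y, Differentiable ℂ fun s => F s y) {a : A ⧸ J → ℂ} (ha : ∑ᶠ q, a q = 0) (k : ℕ) :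
    ∃ H : ℂ → ℂ, DifferentiableOn ℂ H {s | 1 - k / d < s.re} ∧
      ∀ s : ℂ, 1 < s.re → H s = ∑' x : A, a (QuotientAddGroup.mk x) * F s (e x) := by
  classical
  obtain ⟨R, hR⟩ := exists_rep J
  have hRne : (R.map ⟨e, he⟩).Nonempty := by
    obtain ⟨r, -⟩ := hR.2 (QuotientAddGroup.mk 0)
    exact ⟨e r, Finset.mem_map_of_mem ⟨e, he⟩ r.2⟩
  have := Fintype.ofFinite (A ⧸ J)
  obtain ⟨M, hM0, hM⟩ : ∃ M : ℝ, 0 ≤ M ∧ ∀ q, ‖a q‖ ≤ M :=
    ⟨∑ q, ‖a q‖, Finset.sum_nonneg fun _ _ => norm_nonneg _, fun q =>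
      Finset.single_le_sum (f := fun q => ‖a q‖) (fun _ _ => norm_nonneg _) (Finset.mem_univ q)⟩
  refine ⟨fun s => ∑' x : A, a (QuotientAddGroup.mk x) * (Bop (R.map ⟨e, he⟩))^[k] (F s) (e x), ?_, ?_⟩
  · intro s₀ hs₀
    have hs₀' : 1 - k / d < s₀.re := hs₀
    obtain ⟨σ, hσ1, hσ2⟩ := exists_between hs₀'
    obtain ⟨C, ρ, hC, hρ, hb⟩ := bop_bound hRne k h (‖s₀‖ + 1)
    set U : Set ℂ := {s | ‖s‖ < ‖s₀‖ + 1} ∩ {s | σ < s.re} with hU
    have hUo : IsOpen U := (isOpen_lt continuous_norm continuous_const).inter (isOpen_lt continuous_const Complex.continuous_re)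
    have hmem : s₀ ∈ U := ⟨by show ‖s₀‖ < ‖s₀‖ + 1; linarith, hσ2⟩
    have hdf : ∀ y : V, Differentiable ℂ fun s => (Bop (R.map ⟨e, he⟩))^[k] (F s) y := fun y => bop_diff _ k hs y
    -- bounds for the finitely many small x
    have hsmall : ∀ x : A, ∃ B : ℝ, ∀ s : ℂ, ‖s‖ ≤ ‖s₀‖ + 1 → ‖(Bop (R.map ⟨e, he⟩))^[k] (F s) (e x)‖ ≤ B := by
      intro x
      obtain ⟨B, hB⟩ := (isCompact_closedBall (0 : ℂ) (‖s₀‖ + 1)).exists_bound_of_continuousOn
        (hdf (e x)).continuous.continuousOn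
      exact ⟨B, fun s hs => hB s (mem_closedBall_zero_iff.2 hs)⟩
    choose B hB using hsmall
    have hβ : d < d * σ + k := by
      have h1 : (1 - k / d) * d < σ * d := mul_lt_mul_of_pos_right hσ1 hd
      have h2 : (1 - k / d) * d = d - k := by field_simp
      linarith
    set u : A → ℝ := fun x => M * C * ‖e x‖ ^ (-(d * σ + k)) + (if ‖e x‖ < max ρ 1 then M * |B x| else 0) with hu
    have husum : Summable u := by
      refine ((hsum _ hβ).mul_left _).add (summable_of_hasFiniteSupport ((hfin (max ρ 1)).subset fun x hx => ?_))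
      by_contra hne
      exact hx (if_neg hne)
    have hdo : DifferentiableOn ℂ (fun s => ∑' x : A, a (QuotientAddGroup.mk x) * (Bop (R.map ⟨e, he⟩))^[k] (F s) (e x)) U := by
      refine Complex.differentiableOn_tsum_of_summable_norm husum (fun x => ((hdf (e x)).const_mul _).differentiableOn) hUo ?_
      rintro x s ⟨hs1, hs2⟩
      have hs1' : ‖s‖ ≤ ‖s₀‖ + 1 := le_of_lt hs1
      have hs2' : σ < s.re := hs2
      rw [norm_mul]
      have hnn : 0 ≤ M * C * ‖e x‖ ^ (-(d * σ + k)) := by positivity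
      by_cases hx : ‖e x‖ < max ρ 1
      · rw [hu]
        simp only
        rw [if_pos hx]
        have h1 : ‖a (QuotientAddGroup.mk x)‖ * ‖(Bop (R.map ⟨e, he⟩))^[k] (F s) (e x)‖ ≤ M * |B x| :=
          mul_le_mul (hM _) ((hB x s hs1').trans (le_abs_self _)) (norm_nonneg _) hM0
        linarith
      · rw [hu]
        simp only
        rw [if_neg hx, add_zero, mul_assoc]
        push Not at hx
        have h1 : ρ ≤ ‖e x‖ := (le_max_left _ _).trans hx
        have h2 : 1 ≤ ‖e x‖ := (le_max_right _ _).trans hx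
        refine mul_le_mul (hM _) ((hb s hs1' (e x) h1).trans ?_) (norm_nonneg _) hM0
        refine mul_le_mul_of_nonneg_left (Real.rpow_le_rpow_of_exponent_le h2 ?_) hC
        have h3 : d * σ ≤ d * s.re := mul_le_mul_of_nonneg_left hs2'.le hd.le
        linarith
    exact (hdo.differentiableAt (hUo.mem_nhds hmem)).differentiableWithinAt
  · intro s hs1
    refine sum_bop_iter he hR ha k ?_
    obtain ⟨C, hC, hb⟩ := h.bound ‖s‖
    refine Summable.of_norm_bounded ((hsum (d * s.re) (by nlinarith)).mul_left C) fun x => ?_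
    by_cases hx : e x = 0
    · rw [hx, h0, norm_zero]
      positivity
    · have h1 := hb s le_rfl (e x) hx
      rwa [add_zero] at h1

end CFTL
end

-- from Lib.CFT.Y29
section

/-! # CFT module Y, chunk Y29: gluing of quotients of analytic functions (pure complex analysis) -/

namespace CFTY

/-- PROOF. `M z = H i z / D i z` for some `i` with `D i z ≠ 0` (choice; 0 if there is none). `H i * D j = H j * D i` on `V` (both are `D i D j L`), so on `U` by the identity theorem
(`DifferentiableOn.analyticOnNhd`, `AnalyticOnNhd.eqOn_of_preconnected_of_eventuallyEq`). So `M z = H j z / D j z` for EVERY `j` with `D j z ≠ 0`; near `z` this is one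
differentiable function. -/
theorem glue {ι : Type*} {U V : Set ℂ} (hU : IsOpen U) (hUc : IsPreconnected U) (hV : IsOpen V) (hVne : V.Nonempty)
    (hVU : V ⊆ U) (L : ℂ → ℂ) (D H : ι → ℂ → ℂ) (hD : ∀ i, DifferentiableOn ℂ (D i) U)
    (hH : ∀ i, DifferentiableOn ℂ (H i) U) (hDH : ∀ i, ∀ z ∈ V, H i z = D i z * L z)
    (hne : ∀ z ∈ U, ∃ i, D i z ≠ 0) :
    ∃ M : ℂ → ℂ, DifferentiableOn ℂ M U ∧ ∀ z ∈ V, M z = L z := by
  classical
  have key : ∀ i j, ∀ z ∈ U, H i z * D j z = H j z * D i z := by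
    intro i j
    have h1 : AnalyticOnNhd ℂ (fun z => H i z * D j z) U := ((hH i).mul (hD j)).analyticOnNhd hU
    have h2 : AnalyticOnNhd ℂ (fun z => H j z * D i z) U := ((hH j).mul (hD i)).analyticOnNhd hU
    obtain ⟨z0, hz0⟩ := hVne
    have h3 := h1.eqOn_of_preconnected_of_eventuallyEq h2 hUc (hVU hz0) (by
      filter_upwards [hV.mem_nhds hz0] with z hz
      rw [hDH i z hz, hDH j z hz]
      ring)
    intro z hz
    exact h3 hz
  let M : ℂ → ℂ := fun z => if h : ∃ i, D i z ≠ 0 then H h.choose z / D h.choose z else 0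
  have hM : ∀ z ∈ U, ∀ j, D j z ≠ 0 → M z = H j z / D j z := by
    intro z hz j hj
    have h : ∃ i, D i z ≠ 0 := ⟨j, hj⟩
    show (if h : ∃ i, D i z ≠ 0 then H h.choose z / D h.choose z else 0) = _
    rw [dif_pos h, div_eq_div_iff h.choose_spec hj]
    exact key _ _ z hz
  refine ⟨M, ?_, ?_⟩
  · intro z hz
    obtain ⟨j, hj⟩ := hne z hz
    have hc : ContinuousAt (D j) z := ((hD j).differentiableAt (hU.mem_nhds hz)).continuousAt
    have hev : ∀ᶠ w in nhds z, D j w ≠ 0 := hc.eventually_ne hj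
    have h1 : DifferentiableAt ℂ (fun w => H j w / D j w) z :=
      ((hH j).differentiableAt (hU.mem_nhds hz)).div ((hD j).differentiableAt (hU.mem_nhds hz)) hj
    have h2 : M =ᶠ[nhds z] fun w => H j w / D j w := by
      filter_upwards [hev, hU.mem_nhds hz] with w hw hwU
      exact hM w hwU j hw
    exact (h1.congr_of_eventuallyEq h2).differentiableWithinAt
  · intro z hz
    obtain ⟨j, hj⟩ := hne z (hVU hz)
    rw [hM z (hVU hz) j hj, hDH j z hz]
    field_simp

end CFTY
end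

-- from Lib.CFT.Y31
section

/-! # CFT module Y, chunk Y31: a quotient is bounded near 1 (pure) -/

namespace CFTY

/-- PROOF. `H` is continuous on the compact set `[1, 2]` of the half plane, so bounded; `D s = z * N ^ (1 - s) - 1` is continuous and has no zero on `[1, 2]`: `‖z‖ = 1` and `N > 1`
give `|z N^(1 - s)| < 1` for `s > 1`, and `z ≠ 1` for `s = 1`. So `|D|` is bounded below. -/
theorem y31_bdd {H L : ℂ → ℂ} {U : Set ℂ} (hH : DifferentiableOn ℂ H U) (hU : ∀ s : ℝ, 1 ≤ s → (s : ℂ) ∈ U) {z : ℂ} (hz : ‖z‖ = 1)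
    (hz1 : z ≠ 1) {N : ℕ} (hN : 1 < N) (h : ∀ s : ℝ, 1 < s → H s = (z * (N : ℂ) ^ (1 - (s : ℂ)) - 1) * L s) :
    ∃ C : ℝ, ∀ s ∈ Set.Ioc (1 : ℝ) 2, ‖L s‖ ≤ C := by
  have hN0 : (N : ℂ) ≠ 0 := by
    have : N ≠ 0 := by omega
    exact_mod_cast this
  -- continuity
  have hHc : ContinuousOn (fun s : ℝ => H s) (Set.Icc 1 2) := by
    refine hH.continuousOn.comp Complex.continuous_ofReal.continuousOn ?_
    intro s hs
    exact hU s hs.1
  have hDc : Continuous (fun s : ℝ => z * (N : ℂ) ^ (1 - (s : ℂ)) - 1) := by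
    refine (continuous_const.mul ?_).sub continuous_const
    refine Continuous.const_cpow ?_ (Or.inl hN0)
    exact continuous_const.sub Complex.continuous_ofReal
  have hDne : ∀ s ∈ Set.Icc (1 : ℝ) 2, z * (N : ℂ) ^ (1 - (s : ℂ)) - 1 ≠ 0 := by
    intro s hs h0
    rw [sub_eq_zero] at h0
    rcases eq_or_lt_of_le hs.1 with h1 | h1
    · rw [← h1] at h0
      simp at h0
      exact hz1 h0
    · have h2 := congrArg norm h0
      rw [norm_mul, hz, one_mul, norm_one, Complex.norm_natCast_cpow_of_pos (by omega)] at h2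
      have h3 : (1 - (s : ℂ)).re = 1 - s := by simp
      rw [h3] at h2
      have h4 : ((N : ℕ) : ℝ) ^ (1 - s) < 1 :=
        Real.rpow_lt_one_of_one_lt_of_neg (by exact_mod_cast hN) (by linarith)
      linarith
  have hq : ContinuousOn (fun s : ℝ => H s / (z * (N : ℂ) ^ (1 - (s : ℂ)) - 1)) (Set.Icc 1 2) :=
    hHc.div hDc.continuousOn hDne
  obtain ⟨C, hC⟩ := isCompact_Icc.exists_bound_of_continuousOn hq
  refine ⟨C, ?_⟩
  intro s hs
  have hs' : s ∈ Set.Icc (1 : ℝ) 2 := ⟨hs.1.le, hs.2⟩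
  have h1 := hC s hs'
  rw [h s hs.1, mul_comm, mul_div_assoc, div_self (hDne s hs'), mul_one] at h1
  exact h1

end CFTY
end

-- from Lib.CFT.Y29B
section

/-! # CFT module Y, chunk Y29B: powers which are all 1 (pure complex analysis) -/

namespace CFTY

/-- PROOF. `|1 + M| ^ (re z) = 1` gives `re z = 0`. Then `exp (i t log (1 + k M)) = 1`, `t = im z`, so `t * log ((1 + (k + 1) M) / (1 + k M))` is in `2 π ℤ` for all `k`;
it tends to 0, so it is 0 for some `k`, and the logarithm is not 0: `t = 0`. -/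
theorem cpow_eq_one {M : ℕ} (hM : 1 ≤ M) {z : ℂ} (h : ∀ k : ℕ, ((1 + k * M : ℕ) : ℂ) ^ z = 1) : z = 0 := by
  have hpos : ∀ k : ℕ, (0 : ℝ) < ((1 + k * M : ℕ) : ℝ) := fun k => by
    have : 0 < 1 + k * M := by omega
    exact_mod_cast this
  have hne : ∀ k : ℕ, ((1 + k * M : ℕ) : ℂ) ≠ 0 := fun k => by
    have := (hpos k).ne'
    exact_mod_cast this
  -- real part
  have hre : z.re = 0 := by
    have h1 := congrArg norm (h 1)
    rw [Complex.norm_natCast_cpow_of_pos (by omega), norm_one] at h1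
    have h2 : (1 : ℝ) < ((1 + 1 * M : ℕ) : ℝ) := by
      have : 1 < 1 + 1 * M := by omega
      exact_mod_cast this
    by_contra hz
    rcases lt_or_gt_of_ne hz with h3 | h3
    · have := Real.rpow_lt_one_of_one_lt_of_neg h2 h3
      linarith
    · have := Real.one_lt_rpow h2 h3
      linarith
  -- logarithms
  have hlog : ∀ k : ℕ, ∃ n : ℤ, z.im * Real.log ((1 + k * M : ℕ) : ℝ) = n * (2 * Real.pi) := by
    intro k
    have h1 := h k
    rw [Complex.cpow_def_of_ne_zero (hne k), Complex.exp_eq_one_iff] at h1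
    obtain ⟨n, hn⟩ := h1
    refine ⟨n, ?_⟩
    have h2 : Complex.log ((1 + k * M : ℕ) : ℂ) = ((Real.log ((1 + k * M : ℕ) : ℝ) : ℝ) : ℂ) := by
      rw [Complex.ofReal_log (hpos k).le, Complex.ofReal_natCast]
    rw [h2] at hn
    have h3 := congrArg Complex.im hn
    simp only [Complex.mul_im, Complex.ofReal_re, Complex.ofReal_im, Complex.mul_re, Complex.intCast_re,
      Complex.intCast_im, Complex.I_re, Complex.I_im, Complex.re_ofNat, Complex.im_ofNat] at h3
    linarith
  have hdiff : ∀ k : ℕ, ∃ n : ℤ, z.im * (Real.log ((1 + (k + 1) * M : ℕ) : ℝ) - Real.log ((1 + k * M : ℕ) : ℝ))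
      = n * (2 * Real.pi) := by
    intro k
    obtain ⟨n1, h1⟩ := hlog (k + 1)
    obtain ⟨n2, h2⟩ := hlog k
    refine ⟨n1 - n2, ?_⟩
    push_cast at h1 h2 ⊢
    linarith
  have hsmall : ∀ k : ℕ, 0 < Real.log ((1 + (k + 1) * M : ℕ) : ℝ) - Real.log ((1 + k * M : ℕ) : ℝ) ∧
      Real.log ((1 + (k + 1) * M : ℕ) : ℝ) - Real.log ((1 + k * M : ℕ) : ℝ) ≤ M / ((1 + k * M : ℕ) : ℝ) := by
    intro k
    have hM0 : (0 : ℝ) < M := by exact_mod_cast hM
    constructor
    · have : ((1 + k * M : ℕ) : ℝ) < ((1 + (k + 1) * M : ℕ) : ℝ) := by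
        push_cast
        nlinarith
      have := Real.log_lt_log (hpos k) this
      linarith
    · rw [← Real.log_div (hpos (k + 1)).ne' (hpos k).ne']
      have h1 := Real.log_le_sub_one_of_pos (div_pos (hpos (k + 1)) (hpos k))
      refine h1.trans (le_of_eq ?_)
      have := (hpos k).ne'
      field_simp
      push_cast
      ring
  -- find k with |z.im| * M / (1 + k M) < 2 pi
  have him : z.im = 0 := by
    by_contra hz
    obtain ⟨k, hk⟩ := exists_nat_gt (|z.im|)
    have hM0 : (1 : ℝ) ≤ M := by exact_mod_cast hM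
    obtain ⟨n, hn⟩ := hdiff k
    obtain ⟨h1, h2⟩ := hsmall k
    have h3 : |z.im| * (Real.log ((1 + (k + 1) * M : ℕ) : ℝ) - Real.log ((1 + k * M : ℕ) : ℝ)) < 2 * Real.pi := by
      have h4 : |z.im| * (M / ((1 + k * M : ℕ) : ℝ)) ≤ 1 := by
        rw [← mul_div_assoc, div_le_one (hpos k)]
        push_cast
        have : |z.im| * M ≤ k * M := mul_le_mul_of_nonneg_right hk.le (by linarith)
        linarith
      have h5 := mul_le_mul_of_nonneg_left h2 (abs_nonneg z.im)
      have := Real.pi_gt_three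
      linarith
    have h6 : |(n : ℝ)| * (2 * Real.pi) < 2 * Real.pi := by
      have h7 : |(n : ℝ) * (2 * Real.pi)| = |(n : ℝ)| * (2 * Real.pi) := by
        rw [abs_mul, abs_of_pos (by positivity : (0 : ℝ) < 2 * Real.pi)]
      rw [← h7, ← hn, abs_mul, abs_of_pos h1]
      exact h3
    have h8 : |(n : ℝ)| < 1 := by
      have := Real.pi_pos
      by_contra hcon
      rw [not_lt] at hcon
      nlinarith
    have h9 : n = 0 := by
      have : |n| < 1 := by exact_mod_cast h8
      exact Int.abs_lt_one_iff.mp this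
    rw [h9] at hn
    simp only [Int.cast_zero, zero_mul, mul_eq_zero] at hn
    rcases hn with h10 | h10
    · exact hz h10
    · exact h1.ne' h10
  exact Complex.ext hre him

end CFTY
end

-- from Lib.H34Z.A05
section

/-!
# A05: three combinatorial lemmas
-/

set_option autoImplicit false
set_option linter.unusedSectionVars false
namespace Pool.Agent.H34Z
open Finset

variable {κ : Type*} [DecidableEq κ] {K : Type*} [Field K] [CharZero K]

/-- PROOF. The sum is the number of `i ∈ T` with `lam i = 1` (`Finset.sum_boole` after rewriting `lam i = if lam i = 1 then 1 else 0`), so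
this number is `1` (`Nat.cast_eq_one`, `Finset.card_eq_one`). -/
theorem comb_s {T : Finset κ} {lam : κ → K} (h : ∀ i ∈ T, lam i = 0 ∨ lam i = 1) (hs : ∑ i ∈ T, lam i = 1) :
    ∃ i₀ ∈ T, lam i₀ = 1 ∧ ∀ i ∈ T, i ≠ i₀ → lam i = 0 := by
  classical
  have h1 : ∑ i ∈ T, lam i = ((T.filter fun i => lam i = 1).card : K) := by
    rw [← Finset.sum_boole]
    refine sum_congr rfl fun i hi => ?_
    rcases h i hi with h0 | h0
    · rw [h0, if_neg zero_ne_one]
    · rw [h0, if_pos rfl]
  rw [h1] at hs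
  have h2 : (T.filter fun i => lam i = 1).card = 1 := by exact_mod_cast hs
  obtain ⟨i₀, hi₀⟩ := card_eq_one.1 h2
  have h3 : i₀ ∈ T.filter fun i => lam i = 1 := by rw [hi₀]; exact mem_singleton_self _
  rw [mem_filter] at h3
  refine ⟨i₀, h3.1, h3.2, fun i hi hne => ?_⟩
  rcases h i hi with h0 | h0
  · exact h0
  · exfalso
    have h4 : i ∈ T.filter fun i => lam i = 1 := mem_filter.2 ⟨hi, h0⟩
    rw [hi₀, mem_singleton] at h4
    exact hne h4

/-- PROOF. For different `i, j, k ∈ T`: `2 lam i = (lam i + lam j) + (lam i + lam k) - (lam j + lam k)` is in `{-1, 0, 1, 2}` (cases).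
(a) Suppose `lam i = 0` or `lam i = 1` for some `i ∈ T`.  Then for `j ≠ i` in `T`: `lam j = (lam i + lam j) - lam i` is in `{-1, 0, 1}`, and with
`2 lam j ∈ {-1, 0, 1, 2}` (third index: `T` has at least three elements) `lam j ∈ {0, 1}` (`2 * (-1) = -2` is not in the set, char zero).
So all `lam j ∈ {0, 1}` and `comb_s` applies.
(b) Otherwise `2 lam i ∈ {-1, 1}` for all `i ∈ T`.  There is at most one `i` with `2 lam i = -1` (for two such `lam i + lam j = -1` is
not in `{0, 1}`).  So with `n = T.card`: `2 = ∑ 2 lam i = n` or `= n - 2`, i.e. `n = 2` or `n = 4` (in `K`, char zero, so in `ℕ`), excluded. -/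
theorem comb_o {T : Finset κ} {lam : κ → K} (h : ∀ i ∈ T, ∀ j ∈ T, i ≠ j → lam i + lam j = 0 ∨ lam i + lam j = 1)
    (hs : ∑ i ∈ T, lam i = 1) (h3 : 3 ≤ T.card) (h4 : T.card ≠ 4) :
    ∃ i₀ ∈ T, lam i₀ = 1 ∧ ∀ i ∈ T, i ≠ i₀ → lam i = 0 := by
  classical
  have hA : ∀ i ∈ T, 2 * lam i = -1 ∨ 2 * lam i = 0 ∨ 2 * lam i = 1 ∨ 2 * lam i = 2 := by
    intro i hi
    have h5 : 0 < (T.erase i).card := by
      rw [card_erase_of_mem hi]
      omega
    obtain ⟨j, hj⟩ := card_pos.1 h5
    have h6 : 0 < ((T.erase i).erase j).card := by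
      rw [card_erase_of_mem hj, card_erase_of_mem hi]
      omega
    obtain ⟨k, hk⟩ := card_pos.1 h6
    rw [mem_erase] at hj
    rw [mem_erase, mem_erase] at hk
    have e1 := h i hi j hj.2 (Ne.symm hj.1)
    have e2 := h i hi k hk.2.2 (Ne.symm hk.2.1)
    have e3 := h j hj.2 k hk.2.2 (Ne.symm hk.1)
    have e : 2 * lam i = (lam i + lam j) + (lam i + lam k) - (lam j + lam k) := by ring
    rcases e1 with e1 | e1 <;> rcases e2 with e2 | e2 <;> rcases e3 with e3 | e3 <;>
      rw [e1, e2, e3] at e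
    · right; left; rw [e]; ring
    · left; rw [e]; ring
    · right; right; left; rw [e]; ring
    · right; left; rw [e]; ring
    · right; right; left; rw [e]; ring
    · right; left; rw [e]; ring
    · right; right; right; rw [e]; ring
    · right; right; left; rw [e]; ring
  by_cases ha : ∃ i ∈ T, lam i = 0 ∨ lam i = 1
  · obtain ⟨i, hi, hi01⟩ := ha
    refine comb_s (fun j hj => ?_) hs
    by_cases hij : j = i
    · rw [hij]
      exact hi01
    · have e1 := h i hi j hj (Ne.symm hij)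
      have e2 := hA j hj
      have hneg : lam j ≠ -1 := by
        intro h0
        rw [h0] at e2
        rcases e2 with e2 | e2 | e2 | e2 <;> norm_num at e2
      rcases hi01 with h0 | h0 <;> rcases e1 with e1 | e1 <;> rw [h0] at e1
      · left; rwa [zero_add] at e1
      · right; rwa [zero_add] at e1
      · exfalso
        exact hneg (by linear_combination e1)
      · left; linear_combination e1
  · exfalso
    push Not at ha
    have hB : ∀ i ∈ T, 2 * lam i = -1 ∨ 2 * lam i = 1 := by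
      intro i hi
      have h01 := ha i hi
      rcases hA i hi with e | e | e | e
      · exact Or.inl e
      · exfalso
        apply h01.1
        linear_combination (1 / 2) * e
      · exact Or.inr e
      · exfalso
        apply h01.2
        linear_combination (1 / 2) * e
    have hsum : ∑ i ∈ T, 2 * lam i = 2 := by rw [← mul_sum, hs, mul_one]
    by_cases hc : ∃ i ∈ T, 2 * lam i = -1
    · obtain ⟨i, hi, hi1⟩ := hc
      have hother : ∀ j ∈ T.erase i, 2 * lam j = 1 := by
        intro j hj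
        rw [mem_erase] at hj
        rcases hB j hj.2 with e | e
        · exfalso
          rcases h i hi j hj.2 (Ne.symm hj.1) with e1 | e1
          · have : (2 : K) = 0 := by linear_combination hi1 + e - 2 * e1
            norm_num at this
          · have : (4 : K) = 0 := by linear_combination hi1 + e - 2 * e1
            norm_num at this
        · exact e
      rw [← add_sum_erase T (fun i => 2 * lam i) hi, sum_congr rfl hother, hi1] at hsum
      rw [sum_const, nsmul_eq_mul, mul_one, card_erase_of_mem hi] at hsum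
      have h5 : ((T.card - 1 : ℕ) : K) = ((3 : ℕ) : K) := by
        push_cast
        linear_combination hsum
      have h6 : T.card - 1 = 3 := by exact_mod_cast h5
      omega
    · push Not at hc
      have hall : ∀ j ∈ T, 2 * lam j = 1 := fun j hj => (hB j hj).resolve_left (hc j hj)
      rw [sum_congr rfl hall, sum_const, nsmul_eq_mul, mul_one] at hsum
      have h6 : T.card = 2 := by exact_mod_cast hsum
      omega

/-- Here `T'` is the second index set, `p` a bijection from `T` to `T'`.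
PROOF. `comb_s` for `lam i = a i (p i)` gives `i₀ ∈ T` with `a i₀ (p i₀) = 1` and `a i (p i) = 0` for `i ≠ i₀`.  Let `j₀ = p i₀`.
For `i ≠ i₀` in `T`, by `hadd`: `a i₀ (p i₀) + a i (p i) = a i₀ (p i) + a i (p i₀)`, so `a i₀ (p i) + a i j₀ = 1`, i.e. one of them is `1`, the
other `0`.
If `T = {i₀}` then `T' = {j₀}` and the first alternative holds.
Case A: `a i₀ (p i) = 1` for all `i ∈ T`, `i ≠ i₀`.  Then `a i₀ j = 1` for all `j ∈ T'`, `a i j₀ = 0` for all `i ≠ i₀`, and for `i ≠ i₀`, `j ∈ T'`: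
`a i j = a i j₀ + a i₀ j - a i₀ j₀ = 0 + 1 - 1 = 0`: the first alternative.
Case B: there is `k ≠ i₀` with `a i₀ (p k) = 0`, so `a k j₀ = 1`.  Then for all `i`: `a i (p k) = a i j₀ + a i₀ (p k) - a i₀ j₀ = a i j₀ - 1`, which must be
in `{0, 1}`, so `a i j₀ = 1` for all `i ∈ T`; so `a i₀ (p i) = 0` for `i ≠ i₀`, i.e. `a i₀ j = 0` for `j ≠ j₀`, and for all `i` and `j ≠ j₀`:
`a i j = a i j₀ + a i₀ j - a i₀ j₀ = 1 + 0 - 1 = 0`: the second alternative. -/
theorem comb_n {T T' : Finset κ} {a : κ → κ → K} (h : ∀ i ∈ T, ∀ j ∈ T', a i j = 0 ∨ a i j = 1)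
    (hadd : ∀ i ∈ T, ∀ k ∈ T, ∀ j ∈ T', ∀ l ∈ T', a i j + a k l = a i l + a k j)
    {p : κ → κ} (hp : ∀ i ∈ T, p i ∈ T') (hinj : ∀ i ∈ T, ∀ j ∈ T, p i = p j → i = j)
    (hsurj : ∀ j ∈ T', ∃ i ∈ T, p i = j) (hs : ∑ i ∈ T, a i (p i) = 1) :
    (∃ i₀ ∈ T, ∀ i ∈ T, ∀ j ∈ T', a i j = if i = i₀ then 1 else 0) ∨
    (∃ j₀ ∈ T', ∀ i ∈ T, ∀ j ∈ T', a i j = if j = j₀ then 1 else 0) := by
  classical
  obtain ⟨i₀, hi₀, h1, h0⟩ := comb_s (lam := fun i => a i (p i)) (fun i hi => h i hi _ (hp i hi)) hs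
  have hsum : ∀ i ∈ T, i ≠ i₀ → a i₀ (p i) + a i (p i₀) = 1 := by
    intro i hi hne
    have e := hadd i₀ hi₀ i hi (p i₀) (hp i₀ hi₀) (p i) (hp i hi)
    have e1 : a i (p i) = 0 := h0 i hi hne
    have e2 : a i₀ (p i₀) = 1 := h1
    linear_combination e2 + e1 - e
  have hgen : ∀ i ∈ T, ∀ j ∈ T', a i j = a i (p i₀) + a i₀ j - 1 := by
    intro i hi j hj
    have e := hadd i hi i₀ hi₀ j hj (p i₀) (hp i₀ hi₀)
    have e2 : a i₀ (p i₀) = 1 := h1
    linear_combination e - e2
  by_cases hA : ∀ i ∈ T, i ≠ i₀ → a i₀ (p i) = 1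
  · left
    refine ⟨i₀, hi₀, fun i hi j hj => ?_⟩
    have hrow : a i₀ j = 1 := by
      obtain ⟨k, hk, rfl⟩ := hsurj j hj
      by_cases hki : k = i₀
      · rw [hki]; exact h1
      · exact hA k hk hki
    by_cases hii : i = i₀
    · rw [if_pos hii, hii]
      exact hrow
    · rw [if_neg hii, hgen i hi j hj, hrow]
      have e1 := hsum i hi hii
      have e2 := hA i hi hii
      linear_combination e1 - e2
  · right
    push Not at hA
    obtain ⟨k, hk, hki, hk1⟩ := hA
    have hk0 : a i₀ (p k) = 0 := (h i₀ hi₀ _ (hp k hk)).resolve_right hk1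
    have hcol : ∀ i ∈ T, a i (p i₀) = 1 := by
      intro i hi
      have e1 := hgen i hi (p k) (hp k hk)
      rw [hk0] at e1
      rcases h i hi (p i₀) (hp i₀ hi₀) with e2 | e2
      · exfalso
        rw [e2] at e1
        rcases h i hi (p k) (hp k hk) with e3 | e3
        · rw [e3] at e1
          norm_num at e1
        · rw [e3] at e1
          norm_num at e1
      · exact e2
    refine ⟨p i₀, hp i₀ hi₀, fun i hi j hj => ?_⟩
    by_cases hjj : j = p i₀
    · rw [if_pos hjj, hjj]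
      exact hcol i hi
    · rw [if_neg hjj, hgen i hi j hj, hcol i hi]
      obtain ⟨m, hm, rfl⟩ := hsurj j hj
      have hmi : m ≠ i₀ := fun h => hjj (by rw [h])
      have e1 := hsum m hm hmi
      have e2 := hcol m hm
      linear_combination e1 - e2

end Pool.Agent.H34Z
end
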