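import Mathlib
import Pool.Agent.Lib.H1M.RC.M001
import Pool.Agent.Lib.H1M.RC.M002
import Pool.Agent.Lib.H1M.RC.M008
import Pool.Agent.Lib.H1M.RC.M013
import Pool.Agent.Lib.H1M.RC.M015

/-! Merged copies (to shorten the build) of Lib.CFT.B05, Lib.CFT.B23, Lib.CFT.B22, Lib.CFT.B24, Lib.CFT.B08, Lib.CFT.B11, Lib.CFT.B18, Lib.CFT.B21, Lib.CFT.B20, Lib.CFT.X16, Lib.CFT.Y16, Lib.CFT.L4, Lib.H69H.D6, Lib.H69H.E6, Lib.CFT.Y17, Lib.CFT.Y18, Lib.CFT.Y22. -/

-- from Lib.CFT.B05
section

/-! # CFT module B, chunk B05: absolute norm of a principal divisor -/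

open NumberField IsDedekindDomain

namespace CFT

variable {K : Type} [Field K] [NumberField K]


/-- PROOF. For x = r in O_K: nD (dv r) = absNorm (span {r}) (idl_dv, nD_idl, B04) = |Norm r| (Ideal.absNorm_span_singleton, Algebra.coe_norm_int). In general x = a / b,
dv x = dv a - dv b (dv_mul, dv_inv), nD_add, Algebra.norm is multiplicative. -/
theorem nD_dv {x : K} (hx : x ≠ 0) : nD (dv x) = |Algebra.norm ℚ x| := by
  have key : ∀ r : 𝓞 K, r ≠ 0 → nD (dv (r : K)) = |Algebra.norm ℚ (r : K)| := by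
    intro r hr
    have h1 : ∀ v, 0 ≤ dv (r : K) v := fun v => od_nonneg v r
    rw [← nD_idl h1, idl_dv hr, Ideal.absNorm_span_singleton, ← Algebra.coe_norm_int, Nat.cast_natAbs,
      Int.cast_abs]
  obtain ⟨a, b, hb, hxab⟩ := IsFractionRing.div_surjective (A := 𝓞 K) x
  have hb0 : b ≠ 0 := nonZeroDivisors.ne_zero hb
  have hb' : (b : K) ≠ 0 := fun h => hb0 (RingOfIntegers.coe_eq_zero_iff.1 h)
  have hxab' : x * (b : K) = (a : K) := by
    have e : x = (a : K) / (b : K) := hxab.symm
    rw [e, div_mul_cancel₀ _ hb']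
  have ha0 : a ≠ 0 := by
    rintro rfl
    have e : ((0 : 𝓞 K) : K) = 0 := map_zero _
    rw [e] at hxab'
    exact (mul_ne_zero hx hb') hxab'
  have h1 := key a ha0
  have h2 := key b hb0
  rw [← hxab', dv_mul hx hb', nD_add, map_mul, abs_mul, h2] at h1
  have h3 : |Algebra.norm ℚ (b : K)| ≠ 0 := abs_ne_zero.2 (Algebra.norm_ne_zero_iff.2 hb')
  exact mul_right_cancel₀ h3 h1

end CFT
end

-- from Lib.CFT.B23
section

/-! # CFT module B, chunk B23: norms and congruences: x = 1 mod high powers of the primes dividing m, totally positive -/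

open NumberField IsDedekindDomain

namespace CFT

variable {K : Type} [Field K] [NumberField K]


theorem b23_norm_congr (m : ℕ) (a b r : 𝓞 K) (h : a - b = (m : 𝓞 K) * r) :
    Algebra.norm ℤ a ≡ Algebra.norm ℤ b [ZMOD m] := by
  classical
  rw [← ZMod.intCast_eq_intCast_iff]
  rw [Algebra.norm_eq_matrix_det (RingOfIntegers.basis K), Algebra.norm_eq_matrix_det (RingOfIntegers.basis K)]
  have e1 : ∀ A : Matrix (Module.Free.ChooseBasisIndex ℤ (𝓞 K)) (Module.Free.ChooseBasisIndex ℤ (𝓞 K)) ℤ,
      ((A.det : ℤ) : ZMod m) = (A.map (Int.castRingHom (ZMod m))).det := by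
    intro A
    have := RingHom.map_det (Int.castRingHom (ZMod m)) A
    simpa using this
  rw [e1, e1]
  congr 1
  have h2 : a = b + (m : ℤ) • r := by
    have : a = b + (m : 𝓞 K) * r := by rw [← h]; ring
    rw [this]
    simp
  rw [h2, map_add, map_zsmul]
  ext i j
  simp only [Matrix.map_apply, Matrix.add_apply, Matrix.smul_apply, map_add, smul_eq_mul, map_mul]
  simp

/-- PROOF. Let N = the sum of the m-orders: choose N with: for all v, od v m <= N (e.g. the maximum of od v (m) over the finitely many v containing m). x is a unit at S, so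
frac_prime (B03) gives x = a / b, b outside all v in S; then a also. a - b = b (x - 1) has order > N >= od v m at the primes v dividing m (they are in S), so a - b in m O_K. Hence
norm a = norm b mod m (the norm of a mod m is the determinant of the multiplication by a on O_K/m: Algebra.norm_eq_matrix_det with the integral basis, the entries of the matrices of a and b are congruent mod m, det is a
polynomial: Matrix.map_det / RingHom.map_det to ZMod m). norm a and norm b have the same sign because norm x > 0 (B12 with K = Q: norm_pos; the only real embedding of Q). So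
A = |norm a|, B = |norm b| are natural numbers, congruent mod m, B is prime to m (b is outside every prime containing m... b a unit mod m), and nD (dv x) = A / B (nD_dv, B05). -/
theorem norm_mod (m : ℕ) [NeZero m] (S : Finset (Pr K)) (hS : ∀ v : Pr K, (m : 𝓞 K) ∈ v.asIdeal → v ∈ S) :
    ∃ N : ℕ, ∀ x : K, Ray S N x → ∃ a b : 𝓞 K, a ≠ 0 ∧ b ≠ 0 ∧ x = (a : K) / (b : K) ∧ (∀ v ∈ S, a ∉ v.asIdeal) ∧ (∀ v ∈ S, b ∉ v.asIdeal) ∧
      Ideal.absNorm (Ideal.span {a}) ≡ Ideal.absNorm (Ideal.span {b}) [MOD m] := by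
  classical
  have hm0 : (m : 𝓞 K) ≠ 0 := by exact_mod_cast NeZero.ne m
  have hm' : ((m : 𝓞 K) : K) ≠ 0 := fun h => hm0 (RingOfIntegers.coe_eq_zero_iff.1 h)
  refine ⟨(dv ((m : 𝓞 K) : K)).support.sup fun v => (od v ((m : 𝓞 K) : K)).toNat, fun x hx => ?_⟩
  set N := (dv ((m : 𝓞 K) : K)).support.sup fun v => (od v ((m : 𝓞 K) : K)).toNat with hN
  have hNm : ∀ v : Pr K, od v ((m : 𝓞 K) : K) ≤ N := by
    intro v
    by_cases hv : v ∈ (dv ((m : 𝓞 K) : K)).support
    · have h1 := Finset.le_sup (f := fun v => (od v ((m : 𝓞 K) : K)).toNat) hv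
      rw [← hN] at h1
      have h2 := od_nonneg v (m : 𝓞 K)
      omega
    · have h2 : od v ((m : 𝓞 K) : K) = 0 := by
        have := Finsupp.notMem_support_iff.1 hv
        rwa [dv_apply] at this
      rw [h2]
      positivity
  obtain ⟨a, b, hb0, hxab, hbS⟩ := frac_prime S (x := x) (fun v hv => by rw [hx.od_eq hv])
  have hb' : (b : K) ≠ 0 := fun h => hb0 (RingOfIntegers.coe_eq_zero_iff.1 h)
  have ha0 : a ≠ 0 := by
    rintro rfl
    apply hx.ne
    rw [hxab]
    simp
  have ha' : (a : K) ≠ 0 := fun h => ha0 (RingOfIntegers.coe_eq_zero_iff.1 h)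
  have hab : (a : K) = x * (b : K) := by
    rw [hxab, div_mul_cancel₀ _ hb']
  have hod0 : ∀ v : Pr K, ∀ r : 𝓞 K, r ≠ 0 → (od v (r : K) = 0 ↔ r ∉ v.asIdeal) := by
    intro v r hr
    have h1 := od_pos_iff v hr
    have h2 := od_nonneg v r
    rw [← h1]
    omega
  have hbod : ∀ v ∈ S, od v (b : K) = 0 := fun v hv => (hod0 v b hb0).2 (hbS v hv)
  have haS : ∀ v ∈ S, a ∉ v.asIdeal := by
    intro v hv
    rw [← hod0 v a ha0, hab, od_mul v hx.ne hb', hx.od_eq hv, hbod v hv, add_zero]
  refine ⟨a, b, ha0, hb0, hxab, haS, hbS, ?_⟩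
  -- a - b is divisible by m
  have hdiv : ∃ r : 𝓞 K, a - b = (m : 𝓞 K) * r := by
    by_cases hab0 : a - b = 0
    · exact ⟨0, by rw [hab0, mul_zero]⟩
    have habK : ((a - b : 𝓞 K) : K) ≠ 0 := fun h => hab0 (RingOfIntegers.coe_eq_zero_iff.1 h)
    have hcoe : ((a - b : 𝓞 K) : K) = (a : K) - (b : K) := rfl
    have hx1 : x - 1 = ((a - b : 𝓞 K) : K) * (b : K)⁻¹ := by
      rw [hcoe, hab]
      field_simp
    have hx1' : x - 1 ≠ 0 := by
      rw [hx1]
      exact mul_ne_zero habK (inv_ne_zero hb')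
    have hodm : ∀ v : Pr K, od v ((m : 𝓞 K) : K) ≤ od v ((a - b : 𝓞 K) : K) := by
      intro v
      by_cases hv : (m : 𝓞 K) ∈ v.asIdeal
      · have hvS := hS v hv
        have h1 := (val_lt_iff v hx1' N).1 (hx.cong v hvS)
        rw [hx1, od_mul v habK (inv_ne_zero hb'), od_inv, hbod v hvS] at h1
        have h2 := hNm v
        omega
      · rw [(hod0 v _ hm0).2 hv]
        exact od_nonneg v _
    have h1 : ∀ v : Pr K, v.valuation K (((a - b : 𝓞 K) : K) * ((m : 𝓞 K) : K)⁻¹) ≤ 1 := by
      intro v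
      rw [val_eq v (mul_ne_zero habK (inv_ne_zero hm')), ← WithZero.exp_zero, WithZero.exp_le_exp,
        od_mul v habK (inv_ne_zero hm'), od_inv]
      have := hodm v
      omega
    obtain ⟨r, hr⟩ := HeightOneSpectrum.mem_integers_of_valuation_le_one (R := 𝓞 K) K _ h1
    refine ⟨r, ?_⟩
    apply RingOfIntegers.coe_injective
    have hr' : (r : K) = ((a - b : 𝓞 K) : K) * ((m : 𝓞 K) : K)⁻¹ := hr
    rw [map_mul]
    change ((a - b : 𝓞 K) : K) = ((m : 𝓞 K) : K) * (r : K)
    rw [hr', mul_comm, mul_assoc, inv_mul_cancel₀ hm', mul_one]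
  obtain ⟨r, hr⟩ := hdiv
  have hcong := b23_norm_congr m a b r hr
  -- signs
  have hpos : 0 < Algebra.norm ℚ x := by
    have := norm_pos (K := ℚ) hx.ne hx.pos (Rat.castHom ℝ)
    simpa using this
  have hnb : Algebra.norm ℚ (b : K) ≠ 0 := Algebra.norm_ne_zero_iff.2 hb'
  have hsign : 0 < Algebra.norm ℤ a * Algebra.norm ℤ b := by
    have h1 : (0 : ℚ) < ((Algebra.norm ℤ a * Algebra.norm ℤ b : ℤ) : ℚ) := by
      rw [Int.cast_mul, Algebra.coe_norm_int, Algebra.coe_norm_int, hab, map_mul, mul_assoc]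
      exact mul_pos hpos (mul_self_pos.2 hnb)
    exact_mod_cast h1
  rw [Ideal.absNorm_span_singleton, Ideal.absNorm_span_singleton]
  rw [← Int.natCast_modEq_iff]
  rcases lt_trichotomy (Algebra.norm ℤ b) 0 with hs | hs | hs
  · have ha : Algebra.norm ℤ a < 0 := by nlinarith
    rw [Int.ofNat_natAbs_of_nonpos ha.le, Int.ofNat_natAbs_of_nonpos hs.le]
    exact hcong.neg
  · rw [hs, mul_zero] at hsign
    exact absurd hsign (lt_irrefl _)
  · have ha : 0 < Algebra.norm ℤ a := by nlinarith
    rw [Int.natAbs_of_nonneg ha.le, Int.natAbs_of_nonneg hs.le]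
    exact hcong

end CFT
end

-- from Lib.CFT.B22
section

/-! # CFT module B, chunk B22: Frobenius elements and roots of unity -/

open NumberField IsDedekindDomain

namespace CFT

variable {K : Type} [Field K] [NumberField K] {L : Type} [Field L] [NumberField L] [Algebra K L]


/-- The m-th roots of unity are distinct modulo w when m is not in w. -/
theorem b22_distinct (w : Pr L) (m : ℕ) (hm : (m : 𝓞 L) ∉ w.asIdeal) {z z' : 𝓞 L} (hz : z ^ m = 1) (hz' : z' ^ m = 1)
    (h : z - z' ∈ w.asIdeal) : z = z' := by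
  have hm0 : m ≠ 0 := by
    rintro rfl
    apply hm
    rw [Nat.cast_zero]
    exact zero_mem _
  obtain ⟨k, rfl⟩ := Nat.exists_eq_succ_of_ne_zero hm0
  have hinv : z' * z' ^ k = 1 := by rw [← pow_succ']; exact hz'
  set u : 𝓞 L := z * z' ^ k with hu
  have hum : u ^ (k + 1) = 1 := by
    rw [hu, mul_pow, hz, one_mul, ← pow_mul, mul_comm k (k + 1), pow_mul, hz', one_pow]
  have hu1 : u - 1 ∈ w.asIdeal := by
    have e : u - 1 = (z - z') * z' ^ k := by
      rw [sub_mul, hinv]
    rw [e]
    exact Ideal.mul_mem_right _ _ h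
  have hu2 : u = 1 := by
    by_contra hne
    have h1 : (∑ i ∈ Finset.range (k + 1), u ^ i) * (u - 1) = 0 := by
      rw [geom_sum_mul, hum, sub_self]
    have h2 : ∑ i ∈ Finset.range (k + 1), u ^ i = 0 := by
      rcases mul_eq_zero.1 h1 with h3 | h3
      · exact h3
      · exact absurd (sub_eq_zero.1 h3) hne
    apply hm
    have h4 : ((k + 1 : ℕ) : 𝓞 L) = -∑ i ∈ Finset.range (k + 1), (u ^ i - 1) := by
      rw [Finset.sum_sub_distrib, h2]
      simp
    rw [h4]
    refine neg_mem (Ideal.sum_mem _ fun i _ => ?_)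
    exact Ideal.mem_of_dvd _ (sub_one_dvd_pow_sub_one u i) hu1
  have h5 : z * (z' ^ k * z') = z' := by
    rw [← mul_assoc, ← hu, hu2, one_mul]
  rw [mul_comm (z' ^ k) z', hinv, mul_one] at h5
  exact h5

/-- PROOF. Work in O_L/w, w above v: m is not in w, so the m-th roots of unity are distinct mod w (X^m - 1 is separable; Mathlib: AlgHom.IsArithFrobAt.apply_of_pow_eq_one in RingTheory/Frobenius.lean does exactly this).
zeta is an algebraic integer. -/
theorem fr_zeta (m : ℕ) (v : Pr K) (hm : (m : 𝓞 K) ∉ v.asIdeal) {s : L ≃ₐ[K] L} (hs : IsFr K L v s) {ζ : L} (hζ : ζ ^ m = 1) :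
    s ζ = ζ ^ Nm v := by
  obtain ⟨w, hw⟩ := below_surj (L := L) v
  have hmw : (m : 𝓞 L) ∉ w.asIdeal := by
    intro h
    apply hm
    rw [← hw]
    show (m : 𝓞 K) ∈ w.asIdeal.under (𝓞 K)
    rw [Ideal.under_def, Ideal.mem_comap, map_natCast]
    exact h
  have hm0 : m ≠ 0 := by
    rintro rfl
    apply hm
    rw [Nat.cast_zero]
    exact zero_mem _
  have hint : IsIntegral ℤ ζ := by
    refine IsIntegral.of_pow (Nat.pos_of_ne_zero hm0) ?_
    rw [hζ]
    exact isIntegral_one
  set z : 𝓞 L := ⟨ζ, hint⟩ with hz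
  have hzm : z ^ m = 1 := by
    apply RingOfIntegers.ext
    exact hζ
  have h1 := hs w hw z
  have h2 : (s • z) ^ m = 1 := by
    rw [← smul_pow', hzm, smul_one]
  have h3 : (z ^ Nm v) ^ m = 1 := by
    rw [← pow_mul, mul_comm, pow_mul, hzm, one_pow]
  have h4 := b22_distinct w m hmw h2 h3 h1
  have h5 := congrArg (fun x : 𝓞 L => (x : L)) h4
  exact h5

/-- PROOF. L/K is Galois (IsCyclotomicExtension.isGalois). Let w be above v, s with s x - x in w for all x in O_L, zeta a primitive m-th root of unity in L: s zeta is a root of unity congruent to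
zeta mod w, so s zeta = zeta (distinct mod w as in fr_zeta), so s = 1 (L is generated by zeta). unr_of_inertia (B16). -/
theorem unr_cyc (m : ℕ) [NeZero m] [IsCyclotomicExtension {m} K L] (v : Pr K) (hm : (m : 𝓞 K) ∉ v.asIdeal) : Unr K L v := by
  have hG : IsGalois K L := IsCyclotomicExtension.isGalois {m} K L
  intro w hw
  refine unr_of_inertia w fun s hs => ?_
  have hmw : (m : 𝓞 L) ∉ w.asIdeal := by
    intro h
    apply hm
    rw [← hw]
    show (m : 𝓞 K) ∈ w.asIdeal.under (𝓞 K)
    rw [Ideal.under_def, Ideal.mem_comap, map_natCast]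
    exact h
  have hζ := IsCyclotomicExtension.zeta_spec m K L
  set ζ := IsCyclotomicExtension.zeta m K L with hζd
  have hint : IsIntegral ℤ ζ := by
    refine IsIntegral.of_pow (Nat.pos_of_ne_zero (NeZero.ne m)) ?_
    rw [hζ.pow_eq_one]
    exact isIntegral_one
  set z : 𝓞 L := ⟨ζ, hint⟩ with hz
  have hzm : z ^ m = 1 := by
    apply RingOfIntegers.ext
    exact hζ.pow_eq_one
  have h2 : (s • z) ^ m = 1 := by
    rw [← smul_pow', hzm, smul_one]
  have h4 := b22_distinct w m hmw h2 hzm (hs z)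
  have h5 : s ζ = ζ := congrArg (fun x : 𝓞 L => (x : L)) h4
  have h6 : (s : L →ₐ[K] L) = ((1 : L ≃ₐ[K] L) : L →ₐ[K] L) := by
    refine (hζ.powerBasis K).algHom_ext ?_
    rw [IsPrimitiveRoot.powerBasis_gen]
    exact h5
  ext x
  exact congrArg (fun f : L →ₐ[K] L => f x) h6

/-- PROOF. Gal(L/K) embeds in (Z/m)^* (IsPrimitiveRoot.autToPow_injective), so it is abelian. -/
theorem cyc_comm (m : ℕ) [NeZero m] [IsCyclotomicExtension {m} K L] (a b : L ≃ₐ[K] L) : a * b = b * a := by
  have hζ := IsCyclotomicExtension.zeta_spec m K L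
  apply IsPrimitiveRoot.autToPow_injective K hζ
  rw [map_mul, map_mul, mul_comm]

end CFT
end

-- from Lib.CFT.B24
section

/-! # CFT module B, chunk B24: reciprocity for cyclotomic extensions -/

open NumberField IsDedekindDomain

namespace CFT

variable {K : Type} [Field K] [NumberField K] {L : Type} [Field L] [NumberField L] [Algebra K L]


theorem b24_pow {s : L ≃ₐ[K] L} {q : ℕ} {ζ : L} (h : s ζ = ζ ^ q) (n : ℕ) : (s ^ n) ζ = ζ ^ (q ^ n) := by
  induction n with
  | zero => simp
  | succ n ih =>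
    rw [pow_succ' s n, AlgEquiv.mul_apply, ih, map_pow, h, ← pow_mul, ← pow_succ']

theorem b24_prod (m : ℕ) [NeZero m] [IsCyclotomicExtension {m} K L] (S : Finset (Pr K))
    (hS : ∀ v : Pr K, (m : 𝓞 K) ∈ v.asIdeal → v ∈ S) {ζ : L} (hζ : ζ ^ m = 1) (n : Pr K → ℕ) (T : Finset (Pr K))
    (hT : ∀ v ∈ T, v ∉ S) :
    ∃ g : L ≃ₐ[K] L, g ζ = ζ ^ (∏ v ∈ T, Nm v ^ n v) ∧
      ∀ (A : Type) [CommGroup A] (χ : (L ≃ₐ[K] L) →* A),
        art S χ (∑ v ∈ T, Finsupp.single v (n v : ℤ)) = Additive.ofMul (χ g) := by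
  classical
  haveI : IsGalois K L := IsCyclotomicExtension.isGalois {m} K L
  induction T using Finset.induction_on with
  | empty =>
    refine ⟨1, by simp, fun A _ χ => ?_⟩
    rw [Finset.sum_empty, map_zero, map_one, ofMul_one]
  | insert v T hv ih =>
    obtain ⟨g, hg1, hg2⟩ := ih fun w hw => hT w (Finset.mem_insert_of_mem hw)
    have hvS : v ∉ S := hT v (Finset.mem_insert_self v T)
    have hm : (m : 𝓞 K) ∉ v.asIdeal := fun h => hvS (hS v h)
    have hfr := frob_spec (K := K) (L := L) (cyc_comm m) (unr_cyc m v hm)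
    have hz : frob K L v ζ = ζ ^ Nm v := fr_zeta m v hm hfr hζ
    refine ⟨g * frob K L v ^ n v, ?_, fun A _ χ => ?_⟩
    · rw [AlgEquiv.mul_apply, b24_pow hz, map_pow, hg1, ← pow_mul, Finset.prod_insert hv]
      congr 1
      ring
    · rw [Finset.sum_insert hv, map_add, hg2, art_single_of_notMem χ hvS, map_mul, map_pow, ofMul_mul, ofMul_pow,
        natCast_zsmul, add_comm]

/-- PROOF. D >= 0 supported outside S: g(D) = the product of the frob v^(D v) satisfies g(D) zeta = zeta^(N D), N D = absNorm (idl D) (induction on D with fr_zeta, B22; idl_add, nD_idl in B04). Stated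
with the abelian group A = Gal(L/K) itself and the identity. -/
theorem art_zeta (m : ℕ) [NeZero m] [IsCyclotomicExtension {m} K L] (S : Finset (Pr K))
    (hS : ∀ v : Pr K, (m : 𝓞 K) ∈ v.asIdeal → v ∈ S) {ζ : L} (hζ : ζ ^ m = 1) (a : 𝓞 K) (ha : a ≠ 0) (haS : ∀ v ∈ S, a ∉ v.asIdeal) :
    ∃ g : L ≃ₐ[K] L, g ζ = ζ ^ Ideal.absNorm (Ideal.span {a}) ∧
      ∀ (A : Type) [CommGroup A] (χ : (L ≃ₐ[K] L) →* A), art S χ (dv (a : K)) = Additive.ofMul (χ g) := by
  classical
  have hT : ∀ v ∈ (dv (a : K)).support, v ∉ S := by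
    intro v hv hvS
    have h1 : od v (a : K) ≠ 0 := by
      have := Finsupp.mem_support_iff.1 hv
      rwa [dv_apply] at this
    have h2 := od_nonneg v a
    exact haS v hvS ((od_pos_iff v ha).1 (lt_of_le_of_ne h2 h1.symm))
  obtain ⟨g, hg1, hg2⟩ := b24_prod (K := K) (L := L) m S hS hζ (fun v => (od v (a : K)).toNat) (dv (a : K)).support hT
  refine ⟨g, ?_, fun A _ χ => ?_⟩
  · rw [hg1, ← idl_dv ha]
    congr 1
    unfold idl Finsupp.prod
    rw [map_prod]
    refine Finset.prod_congr rfl fun v _ => ?_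
    rw [map_pow]
    rfl
  · rw [← hg2 A χ]
    congr 1
    have h1 : ∀ v : Pr K, ((od v (a : K)).toNat : ℤ) = dv (a : K) v := fun v => by
      rw [dv_apply]
      exact Int.toNat_of_nonneg (od_nonneg v a)
    simp only [h1]
    exact (Finsupp.sum_single (dv (a : K))).symm

/-- PROOF. N and a, b from norm_mod (B23); g_a, g_b from art_zeta with zeta primitive: g_a zeta = zeta^(Na) = zeta^(Nb) = g_b zeta, so g_a = g_b (L generated by zeta), art (dv x) = art (dv a) - art (dv b) = 0
(dv_mul, dv_inv). -/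
theorem cyc_rec' (m : ℕ) [NeZero m] [IsCyclotomicExtension {m} K L] (S : Finset (Pr K))
    (hS : ∀ v : Pr K, (m : 𝓞 K) ∈ v.asIdeal → v ∈ S) :
    ∃ N : ℕ, ∀ (A : Type) [CommGroup A] (χ : (L ≃ₐ[K] L) →* A) (x : K), Ray S N x → art S χ (dv x) = 0 := by
  classical
  obtain ⟨N, hN⟩ := norm_mod (K := K) m S hS
  refine ⟨N, fun A _ χ x hx => ?_⟩
  obtain ⟨a, b, ha, hb, hxab, haS, hbS, hmod⟩ := hN x hx
  have hζ := IsCyclotomicExtension.zeta_spec m K L
  set ζ := IsCyclotomicExtension.zeta m K L with hζdef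
  have hζ1 : ζ ^ m = 1 := hζ.pow_eq_one
  obtain ⟨g, hg1, hg2⟩ := art_zeta (K := K) (L := L) m S hS hζ1 a ha haS
  obtain ⟨g', hg1', hg2'⟩ := art_zeta (K := K) (L := L) m S hS hζ1 b hb hbS
  have hgg : g = g' := by
    have h1 : g ζ = g' ζ := by
      rw [hg1, hg1', pow_eq_pow_mod _ hζ1, pow_eq_pow_mod (Ideal.absNorm (Ideal.span {b})) hζ1]
      congr 1
    apply AlgEquiv.coe_toAlgHom_injective
    refine (hζ.powerBasis K).algHom_ext ?_
    rw [IsPrimitiveRoot.powerBasis_gen]
    exact h1
  have hb' : (b : K) ≠ 0 := fun h => hb (RingOfIntegers.coe_eq_zero_iff.1 h)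
  have ha' : (a : K) ≠ 0 := fun h => ha (RingOfIntegers.coe_eq_zero_iff.1 h)
  rw [hxab, div_eq_mul_inv, dv_mul ha' (inv_ne_zero hb'), dv_inv, map_add, map_neg, hg2 A χ, hg2' A χ, hgg]
  exact add_neg_cancel _

end CFT
end

-- from Lib.CFT.B08
section

/-! # CFT module B, chunk B08: towers -/

open NumberField IsDedekindDomain

namespace CFT

variable (K : Type) [Field K] [NumberField K] (E : Type) [Field E] [NumberField E] [Algebra K E]
  (M : Type) [Field M] [NumberField M] [Algebra K M] [Algebra E M] [IsScalarTower K E M]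


/-- PROOF. Ideal.under_under. -/
theorem below_below (w : Pr M) : below K (below E w) = below K w := by
  apply HeightOneSpectrum.ext
  show (w.asIdeal.under (𝓞 E)).under (𝓞 K) = w.asIdeal.under (𝓞 K)
  exact Ideal.under_under w.asIdeal

/-- PROOF. Ideal.inertiaDeg_algebra_tower (the version for Ideal.inertiaDeg; there is inertiaDeg'_algebra_tower and a lemma comparing the two), with
(below E w).asIdeal = w.asIdeal.under (O_E). -/
theorem f_tower (w : Pr M) : w.asIdeal.inertiaDeg (𝓞 K) = (below E w).asIdeal.inertiaDeg (𝓞 K) * w.asIdeal.inertiaDeg (𝓞 E) := by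
  haveI : w.asIdeal.LiesOver (below E w).asIdeal := ⟨rfl⟩
  exact Ideal.inertiaDeg_tower (R := 𝓞 K) (S := 𝓞 E) (T := 𝓞 M) (below E w).asIdeal w.asIdeal

/-- PROOF. Ideal.ramificationIdx_algebra_tower. -/
theorem e_tower (w : Pr M) : w.asIdeal.ramificationIdx (𝓞 K) = (below E w).asIdeal.ramificationIdx (𝓞 K) * w.asIdeal.ramificationIdx (𝓞 E) := by
  haveI : w.asIdeal.LiesOver (below E w).asIdeal := ⟨rfl⟩
  exact Ideal.ramificationIdx_tower (R := 𝓞 K) (S := 𝓞 E) (T := 𝓞 M) (below E w).asIdeal w.asIdeal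

/-- PROOF. Both sides are additive: Finsupp.addHom_ext, Nd_single (D2), below_below, f_tower. -/
theorem Nd_Nd (D : Dv M) : Nd K E (Nd E M D) = Nd K M D := by
  have h : (Nd K E).comp (Nd E M) = Nd K M := by
    refine Finsupp.addHom_ext fun w n => ?_
    rw [AddMonoidHom.comp_apply, Nd_single, Nd_single, Nd_single, below_below, f_tower K E M w]
    congr 1
    push_cast
    ring
  exact DFunLike.congr_fun h D

/-- PROOF. e_tower and below_below; e >= 1, so the product is 1 iff both factors are 1; every prime of E is below some prime of M (below_surj, B06). -/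
theorem unr_tower {v : Pr K} (h : Unr K M v) : Unr K E v ∧ ∀ w : Pr E, below K w = v → Unr E M w := by
  constructor
  · intro w hw
    obtain ⟨u, rfl⟩ := below_surj (K := E) (L := M) w
    have h1 := h u (by rw [← hw, below_below])
    rw [e_tower K E M u] at h1
    exact Nat.eq_one_of_mul_eq_one_right h1
  · intro w hw u hu
    have h1 := h u (by rw [← hw, ← hu, below_below])
    rw [e_tower K E M u] at h1
    exact Nat.eq_one_of_mul_eq_one_left h1

/-- PROOF. e_tower. -/
theorem unr_of_tower {v : Pr K} (h : Unr K E v) (h2 : ∀ w : Pr E, below K w = v → Unr E M w) : Unr K M v := by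
  intro u hu
  have h3 := h (below E u) (by rw [below_below, hu])
  have h4 := h2 (below E u) (by rw [below_below, hu]) u rfl
  rw [e_tower K E M u, h3, h4]

end CFT
end

-- from Lib.CFT.B11
section

/-! # CFT module B, chunk B11: the norm of a ray element (congruences) -/

open NumberField IsDedekindDomain

namespace CFT

variable {K : Type} [Field K] [NumberField K] {L : Type} [Field L] [NumberField L] [Algebra K L]


theorem b11_lt_iff {F : Type} [Field F] [NumberField F] (v : Pr F) {x : F} (hx : x ≠ 0) (N : ℕ) :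
    v.valuation F x < WithZero.exp (-(N : ℤ)) ↔ (N : ℤ) < od v x := by
  rw [val_eq v hx, WithZero.exp_lt_exp, neg_lt_neg_iff]

theorem b11_emb {M : Type} [Field M] [NumberField M] [Algebra K M] (σ : L →ₐ[K] M) (W : Pr M) (N : ℕ) (y : L)
    (hy : ∀ w : Pr L, below K w = below K W → w.valuation L (y - 1) < WithZero.exp (-(N : ℤ))) :
    W.valuation M (σ y - 1) < WithZero.exp (-(N : ℤ)) := by
  by_cases h0 : y - 1 = 0
  · have h1 : σ y - 1 = 0 := by rw [← map_one σ, ← map_sub, h0, map_zero]
    rw [h1, map_zero]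
    exact WithZero.zero_lt_coe _
  let _ : Algebra L M := σ.toRingHom.toAlgebra
  have : IsScalarTower K L M := IsScalarTower.of_algebraMap_eq fun x => (σ.commutes x).symm
  have h1 := hy (below L W) (below_below K L M W)
  have h2 : σ y - 1 = algebraMap L M (y - 1) := by
    rw [map_sub, map_one]
    rfl
  have h3 : algebraMap L M (y - 1) ≠ 0 := fun h => h0 ((map_eq_zero _).1 h)
  rw [b11_lt_iff _ h0] at h1
  rw [h2, b11_lt_iff _ h3, od_alg]
  have h4 : (1 : ℤ) ≤ (W.asIdeal.ramificationIdx (𝓞 L) : ℤ) := by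
    have := e_pos (K := L) W
    omega
  nlinarith

theorem b11_prod {M : Type} [Field M] [NumberField M] (W : Pr M) (N : ℕ) {ι : Type} (s : Finset ι) (f : ι → M)
    (h : ∀ i ∈ s, W.valuation M (f i - 1) < WithZero.exp (-(N : ℤ))) :
    W.valuation M (∏ i ∈ s, f i - 1) < WithZero.exp (-(N : ℤ)) := by
  classical
  have hlt : WithZero.exp (-(N : ℤ)) ≤ 1 := exp_le_one N
  induction s using Finset.induction_on with
  | empty =>
    rw [Finset.prod_empty, sub_self, map_zero]
    exact WithZero.zero_lt_coe _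
  | insert i s hi ih =>
    rw [Finset.prod_insert hi]
    have h1 := h i (Finset.mem_insert_self i s)
    have h2 := ih fun j hj => h j (Finset.mem_insert_of_mem hj)
    have h3 : W.valuation M (f i) = 1 := by
      have e : f i = 1 + (f i - 1) := by ring
      rw [e]
      exact Valuation.map_one_add_of_lt _ (h1.trans_le hlt)
    have e : f i * ∏ j ∈ s, f j - 1 = f i * (∏ j ∈ s, f j - 1) + (f i - 1) := by ring
    rw [e]
    refine Valuation.map_add_lt _ ?_ h1
    rw [map_mul, h3, one_mul]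
    exact h2

/-- PROOF. Let v in S, pi in v.asIdeal with pi not in v^2 ... EASIEST: reduce to matrices over the local ring R = localization of O_K at v (a discrete valuation ring, so a principal ideal ring)
and R' = the localization of O_L at the complement of v: a finite torsion free, hence free R-module of rank n. If y - 1 has order > N' >= e_w N at all w above v then
y - 1 in pi^N R' and N(y) = det (1 + pi^N A) with A a matrix over R, so N(y) = 1 mod pi^N; take N + 1 instead of N.
ALTERNATIVE without localization (recommended): M = a Galois closure of L / K (number field, normalClosure K L (AlgebraicClosure K)); norm y = product over the K-embeddings sigma of L in M of sigma y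
(Algebra.norm_eq_prod_embeddings, into M: or into the algebraic closure); for every prime W of M above v and every sigma, sigma induces from W a prime w of L above v
(w = the comap), and od W (sigma y - 1) = e(W|w) od w (y - 1) > N' ; so all sigma y are = 1 modulo W to the order N', so is the product (Ray.mul argument), so
od W (norm y - 1) > N' and od W (norm y - 1) = e(W|v) od v (norm y - 1), e(W|v) <= [M:K]; N' = [M:K] (N+1) is enough. -/
theorem norm_cong (S : Finset (Pr K)) (N : ℕ) : ∃ N' : ℕ, ∀ y : L, y ≠ 0 →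
    (∀ w ∈ up L S, w.valuation L (y - 1) < WithZero.exp (-(N' : ℤ))) →
    ∀ v ∈ S, v.valuation K (Algebra.norm K y - 1) < WithZero.exp (-(N : ℤ)) := by
  classical
  let M := IntermediateField.normalClosure K L (AlgebraicClosure K)
  have : NumberField M := NumberField.of_module_finite K M
  have hprod : ∀ y : L, algebraMap K M (Algebra.norm K y) = ∏ σ : L →ₐ[K] M, σ y := by
    intro y
    apply (algebraMap M (AlgebraicClosure K)).injective
    rw [← IsScalarTower.algebraMap_apply, Algebra.norm_eq_prod_embeddings K (AlgebraicClosure K) y, map_prod]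
    exact (Fintype.prod_equiv (_root_.normalClosure.algHomEquiv K L (AlgebraicClosure K)) _ _ fun σ => rfl).symm
  have hs := below_surj (K := K) (L := M)
  choose W hW using hs
  refine ⟨N * ∑ v ∈ S, (W v).asIdeal.ramificationIdx (𝓞 K), fun y hy h v hv => ?_⟩
  by_cases h0 : Algebra.norm K y - 1 = 0
  · rw [h0, map_zero]
    exact WithZero.zero_lt_coe _
  have h1 : (W v).valuation M (∏ σ : L →ₐ[K] M, σ y - 1) <
      WithZero.exp (-((N * ∑ v ∈ S, (W v).asIdeal.ramificationIdx (𝓞 K) : ℕ) : ℤ)) := by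
    refine b11_prod (W v) _ _ _ fun σ _ => b11_emb σ (W v) _ y fun w hw => h w ?_
    rw [mem_up, hw, hW]
    exact hv
  rw [← hprod] at h1
  have h2 : algebraMap K M (Algebra.norm K y) - 1 = algebraMap K M (Algebra.norm K y - 1) := by
    rw [map_sub, map_one]
  have h3 : algebraMap K M (Algebra.norm K y - 1) ≠ 0 := fun h => h0 ((map_eq_zero _).1 h)
  rw [h2, b11_lt_iff _ h3, od_alg, hW] at h1
  rw [b11_lt_iff _ h0]
  have h4 : (W v).asIdeal.ramificationIdx (𝓞 K) ≤ ∑ v ∈ S, (W v).asIdeal.ramificationIdx (𝓞 K) :=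
    Finset.single_le_sum (f := fun v => (W v).asIdeal.ramificationIdx (𝓞 K)) (fun _ _ => Nat.zero_le _) hv
  have h5 : N * (W v).asIdeal.ramificationIdx (𝓞 K) ≤ N * ∑ v ∈ S, (W v).asIdeal.ramificationIdx (𝓞 K) :=
    Nat.mul_le_mul_left _ h4
  have h6 : ((N * (W v).asIdeal.ramificationIdx (𝓞 K) : ℕ) : ℤ) <
      ((W v).asIdeal.ramificationIdx (𝓞 K) : ℤ) * od v (Algebra.norm K y - 1) :=
    lt_of_le_of_lt (Int.ofNat_le.2 h5) h1
  rw [Nat.cast_mul, mul_comm] at h6
  exact lt_of_mul_lt_mul_left h6 (Int.natCast_nonneg _)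

end CFT
end

-- from Lib.CFT.B18
section

/-! # CFT module B, chunk B18: order of the Frobenius element, Artin symbol of a norm -/

open NumberField IsDedekindDomain

namespace CFT

variable {K : Type} [Field K] [NumberField K] {L : Type} [Field L] [NumberField L] [Algebra K L]


/-- PROOF. Induction: s x = x^q mod w for all x gives s^k x = x^(q^k) mod w. -/
theorem fr_pow {v : Pr K} {s : L ≃ₐ[K] L} (hs : IsFr K L v s) (k : ℕ) (w : Pr L) (hw : below K w = v) (x : 𝓞 L) :
    (s ^ k) • x - x ^ (Nm v ^ k) ∈ w.asIdeal := by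
  induction k with
  | zero =>
    rw [pow_zero, pow_zero, one_smul, pow_one, sub_self]
    exact w.asIdeal.zero_mem
  | succ k ih =>
    have h1 := hs w hw ((s ^ k) • x)
    have h2 : ((s ^ k) • x) ^ Nm v - (x ^ (Nm v ^ k)) ^ Nm v ∈ w.asIdeal :=
      Ideal.mem_of_dvd _ (sub_dvd_pow_sub_pow _ _ _) ih
    have h3 := w.asIdeal.add_mem h1 h2
    rw [sub_add_sub_cancel, ← mul_smul, ← pow_succ', ← pow_mul, ← pow_succ] at h3
    exact h3

/-- PROOF. s^k = 1 iff x = x^(q^k) mod w for all x (fr_pow, eq_of_cong) iff every element of the finite field O_L/w (with q^f elements, Nm_below in B06) satisfies x = x^(q^k)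
iff f divides k (cyclic multiplicative group of order q^f - 1; or: only s^f = 1 and the order is at least f because a polynomial X^(q^k) - X has at most q^k roots). -/
theorem order_frob [IsGalois K L] (hab : ∀ a b : L ≃ₐ[K] L, a * b = b * a) {v : Pr K} (hv : Unr K L v) (w : Pr L) (hw : below K w = v) :
    orderOf (frob K L v) = w.asIdeal.inertiaDeg (𝓞 K) := by
  have hfr := frob_spec hab hv
  have hq : 2 ≤ Nm v := by
    have h1 := Nm_pos v
    have h2 : Nm v ≠ 1 := fun h => v.isPrime.ne_top (Ideal.absNorm_eq_one_iff.1 h)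
    omega
  haveI hfin : Finite (𝓞 L ⧸ w.asIdeal) := b17_fin w
  haveI : w.asIdeal.IsMaximal := w.isMaximal
  letI : Field (𝓞 L ⧸ w.asIdeal) := Ideal.Quotient.field w.asIdeal
  letI : Fintype (𝓞 L ⧸ w.asIdeal) := Fintype.ofFinite _
  have hcard : Fintype.card (𝓞 L ⧸ w.asIdeal) = Nm v ^ w.asIdeal.inertiaDeg (𝓞 K) := by
    rw [← hw, ← Nm_below w, ← Nat.card_eq_fintype_card]
    unfold Nm
    rw [Ideal.absNorm_apply, Submodule.cardQuot_apply]
  have h1 : (frob K L v) ^ w.asIdeal.inertiaDeg (𝓞 K) = 1 := by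
    refine eq_of_cong w (hv w hw) fun x => ?_
    have h2 := fr_pow hfr (w.asIdeal.inertiaDeg (𝓞 K)) w hw x
    have h3 : x ^ (Nm v ^ w.asIdeal.inertiaDeg (𝓞 K)) - x ∈ w.asIdeal := by
      rw [← Ideal.Quotient.eq_zero_iff_mem, map_sub, map_pow, ← hcard, FiniteField.pow_card, sub_self]
    have h4 := w.asIdeal.add_mem h2 h3
    rwa [sub_add_sub_cancel] at h4
  have h2 : 0 < orderOf (frob K L v) := orderOf_pos _
  have h3 : ∀ x : 𝓞 L ⧸ w.asIdeal, x ^ (Nm v ^ orderOf (frob K L v)) = x := by
    intro x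
    obtain ⟨x, rfl⟩ := Ideal.Quotient.mk_surjective x
    have h4 := fr_pow hfr (orderOf (frob K L v)) w hw x
    rw [pow_orderOf_eq_one, one_smul, ← Ideal.Quotient.eq_zero_iff_mem, map_sub, map_pow, sub_eq_zero] at h4
    exact h4.symm
  have h4 : 1 < Nm v ^ orderOf (frob K L v) := Nat.one_lt_pow h2.ne' (by omega)
  have h5 : Fintype.card (𝓞 L ⧸ w.asIdeal) - 1 ∣ Nm v ^ orderOf (frob K L v) - 1 := by
    rw [← FiniteField.forall_pow_eq_one_iff]
    intro x
    apply Units.ext
    rw [Units.val_pow_eq_pow_val, Units.val_one]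
    have h6 := h3 x.1
    have h7 : Nm v ^ orderOf (frob K L v) = (Nm v ^ orderOf (frob K L v) - 1) + 1 := by omega
    rw [h7, pow_succ] at h6
    exact mul_eq_right₀ x.ne_zero |>.1 h6
  have h6 := Nat.le_of_dvd (by omega) h5
  rw [hcard] at h6
  have h7 : Nm v ^ w.asIdeal.inertiaDeg (𝓞 K) ≤ Nm v ^ orderOf (frob K L v) := by omega
  have h8 := (Nat.pow_le_pow_iff_right (by omega)).1 h7
  have h9 := Nat.le_of_dvd (f_pos (K := K) w) (orderOf_dvd_of_pow_eq_one h1)
  omega

/-- PROOF. Additive in D: Finsupp.addHom_ext / induction. For D = single w n: Nd_single, art_single_of_mem / _of_notMem (D2): f n times chi (frob) = chi (frob^f)^n = 1. -/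
theorem art_Nd [IsGalois K L] (hab : ∀ a b : L ≃ₐ[K] L, a * b = b * a) (S : Finset (Pr K)) (hS : ∀ v : Pr K, ¬ Unr K L v → v ∈ S)
    {A : Type} [CommGroup A] (χ : (L ≃ₐ[K] L) →* A) (D : Dv L) : art S χ (Nd K L D) = 0 := by
  have h : (art S χ).comp (Nd K L) = 0 := by
    refine Finsupp.addHom_ext fun w n => ?_
    rw [AddMonoidHom.comp_apply, Nd_single, AddMonoidHom.zero_apply]
    by_cases hw : below K w ∈ S
    · exact art_single_of_mem χ hw _
    · have hu : Unr K L (below K w) := by
        by_contra h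
        exact hw (hS _ h)
      rw [art_single_of_notMem χ hw, mul_comm, mul_smul, natCast_zsmul]
      have h1 : w.asIdeal.inertiaDeg (𝓞 K) • Additive.ofMul (χ (frob K L (below K w))) = 0 := by
        rw [← ofMul_pow, ← map_pow, ← order_frob hab hu w rfl, pow_orderOf_eq_one, map_one, ofMul_one]
      rw [h1, smul_zero]
  exact DFunLike.congr_fun h D

end CFT
end

-- from Lib.CFT.B21
section

/-! # CFT module B, chunk B21: base change of the Frobenius element -/

open NumberField IsDedekindDomain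

namespace CFT

variable (K : Type) [Field K] [NumberField K] (L : Type) [Field L] [NumberField L] [Algebra K L]
  (E : Type) [Field E] [NumberField E] [Algebra K E]
  (M : Type) [Field M] [NumberField M] [Algebra K M] [Algebra L M] [Algebra E M] [IsScalarTower K L M] [IsScalarTower K E M]


theorem b21_mem_below {F : Type} [Field F] [NumberField F] [Algebra F M] (W : Pr M) (x : 𝓞 F) :
    x ∈ (below F W).asIdeal ↔ algebraMap (𝓞 F) (𝓞 M) x ∈ W.asIdeal := Iff.rfl

theorem b21_res [IsGalois K L] (s : M ≃ₐ[E] M) (x : 𝓞 L) :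
    algebraMap (𝓞 L) (𝓞 M) (resE K L E M s • x) = s • algebraMap (𝓞 L) (𝓞 M) x := by
  apply RingOfIntegers.ext
  exact resE_spec s (x : L)


/-- PROOF. Let t be a Frobenius element of w in M/E, W above w, u = below L W. For x in O_L: resE t x = t x = x^(Nm w) mod W, so mod u; Nm w = Nm v^f (Nm_below, B06). On the other hand
(frob v)^f x = x^(Nm v^f) mod u (fr_pow, B18). eq_of_cong (B16) for the prime u. -/
theorem frob_base [IsGalois K L] [IsGalois E M] (habL : ∀ a b : L ≃ₐ[K] L, a * b = b * a) (habM : ∀ a b : M ≃ₐ[E] M, a * b = b * a)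
    (w : Pr E) (hv : Unr K L (below K w)) (hw : Unr E M w) :
    resE K L E M (frob E M w) = frob K L (below K w) ^ w.asIdeal.inertiaDeg (𝓞 K) := by
  obtain ⟨W, hW⟩ := below_surj (K := E) (L := M) w
  have h0 : below K (below L W) = below K w := by
    rw [← hW]
    exact (below_below K L M W).trans (below_below K E M W).symm
  refine eq_of_cong (below L W) (hv _ h0) fun x => ?_
  have h1 := frob_spec habM hw W hW (algebraMap (𝓞 L) (𝓞 M) x)
  have h2 := fr_pow (frob_spec habL hv) (w.asIdeal.inertiaDeg (𝓞 K)) (below L W) h0 x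
  rw [← Nm_below (K := K) w] at h2
  rw [b21_mem_below] at h2 ⊢
  rw [map_sub, b21_res]
  rw [map_sub, map_pow] at h2
  have h3 := W.asIdeal.sub_mem h1 h2
  rwa [sub_sub_sub_cancel_right] at h3

/-- PROOF. Additive in D (write D as the sum of its single parts; those with w in T have D w = 0): frob_base. For w outside T: below K w is outside S. -/
theorem art_base [IsGalois K L] [IsGalois E M] (habL : ∀ a b : L ≃ₐ[K] L, a * b = b * a) (habM : ∀ a b : M ≃ₐ[E] M, a * b = b * a)
    (S : Finset (Pr K)) (hS : ∀ v : Pr K, ¬ Unr K L v → v ∈ S) (T : Finset (Pr E)) (hT : ∀ w : Pr E, ¬ Unr E M w → w ∈ T) (hST : up E S ⊆ T)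
    {A : Type} [CommGroup A] (χ : (L ≃ₐ[K] L) →* A) (D : Dv E) (hD : ∀ w ∈ T, D w = 0) :
    art S χ (Nd K E D) = art T (χ.comp (resE K L E M)) D := by
  classical
  have e : D = ∑ w ∈ D.support, Finsupp.single w (D w) := (Finsupp.sum_single D).symm
  rw [e, map_sum, map_sum, map_sum]
  refine Finset.sum_congr rfl fun w hw => ?_
  have hwT : w ∉ T := fun h => Finsupp.mem_support_iff.1 hw (hD w h)
  have hvS : below K w ∉ S := fun h => hwT (hST ((mem_up S w).2 h))
  have hv : Unr K L (below K w) := by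
    by_contra h
    exact hvS (hS _ h)
  have hw' : Unr E M w := by
    by_contra h
    exact hwT (hT _ h)
  rw [Nd_single, art_single_of_notMem _ hvS, art_single_of_notMem _ hwT, MonoidHom.comp_apply,
    frob_base K L E M habL habM w hv hw', map_pow, ofMul_pow, mul_comm, mul_smul, natCast_zsmul]

end CFT
end

-- from Lib.CFT.B20
section

/-! # CFT module B, chunk B20: restriction of the Frobenius element -/

open NumberField IsDedekindDomain

namespace CFT

variable (K : Type) [Field K] [NumberField K] (E : Type) [Field E] [NumberField E] [Algebra K E]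
  (M : Type) [Field M] [NumberField M] [Algebra K M] [Algebra E M] [IsScalarTower K E M]


/-- PROOF. w a prime of M above v, u = below E w. t = restrictNormalHom E s satisfies algebraMap (t x) = s (algebraMap x) (AlgEquiv.restrictNormal_commutes). For x in O_E:
t x - x^q in u because its image s x - x^q is in w (u = w.under (O_E): Ideal.mem_comap). Every prime of E above v is below a prime of M (below_surj, B06). -/
theorem fr_res [Normal K E] {v : Pr K} {s : M ≃ₐ[K] M} (hs : IsFr K M v s) : IsFr K E v (AlgEquiv.restrictNormalHom E s) := by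
  intro w' hw' x
  obtain ⟨w, rfl⟩ := below_surj (K := E) (L := M) w'
  have hw : below K w = v := by rw [← below_below K E M w, hw']
  have h1 := hs w hw (algebraMap (𝓞 E) (𝓞 M) x)
  show (AlgEquiv.restrictNormalHom E s) • x - x ^ Nm v ∈ w.asIdeal.comap (algebraMap (𝓞 E) (𝓞 M))
  rw [Ideal.mem_comap, map_sub, map_pow]
  have h2 : algebraMap (𝓞 E) (𝓞 M) ((AlgEquiv.restrictNormalHom E s) • x) = s • (algebraMap (𝓞 E) (𝓞 M) x) := by
    apply RingOfIntegers.ext
    exact AlgEquiv.restrictNormal_commutes s E (x : E)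
  rw [h2]
  exact h1

/-- PROOF. unr_tower (B08), fr_res, frob_eq (B17). E/K is Galois abelian. -/
theorem frob_res [IsGalois K M] [IsGalois K E] (hab : ∀ a b : M ≃ₐ[K] M, a * b = b * a) {v : Pr K} (hv : Unr K M v) :
    AlgEquiv.restrictNormalHom E (frob K M v) = frob K E v := by
  have h1 := frob_spec hab hv
  have h2 := fr_res K E M h1
  have h3 := (unr_tower K E M hv).1
  exact (frob_eq h3 h2).symm

/-- PROOF. Additive in D; frob_res for the primes outside S. -/
theorem art_res [IsGalois K M] [IsGalois K E] (hab : ∀ a b : M ≃ₐ[K] M, a * b = b * a) (S : Finset (Pr K)) (hS : ∀ v : Pr K, ¬ Unr K M v → v ∈ S)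
    {A : Type} [CommGroup A] (χ : (E ≃ₐ[K] E) →* A) (D : Dv K) :
    art S (χ.comp (AlgEquiv.restrictNormalHom E : (M ≃ₐ[K] M) →* (E ≃ₐ[K] E))) D = art S χ D := by
  have h : art S (χ.comp (AlgEquiv.restrictNormalHom E : (M ≃ₐ[K] M) →* (E ≃ₐ[K] E))) = art S χ := by
    refine Finsupp.addHom_ext fun v n => ?_
    by_cases hv : v ∈ S
    · rw [art_single_of_mem _ hv, art_single_of_mem _ hv]
    · have hu : Unr K M v := by
        by_contra h
        exact hv (hS _ h)
      rw [art_single_of_notMem _ hv, art_single_of_notMem _ hv, MonoidHom.comp_apply, frob_res K E M hab hu]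
  rw [h]

end CFT
end

-- from Lib.CFT.X16
section

/-! # CFT X16 (S/M): places of degree one

PROOF. E/K is normal (all subgroups of the abelian group Gal(M/K) are normal: IsGalois.of_fixedField_normal_subgroup or IntermediateField.normal via fixingSubgroup normal). frob_res (B20):
restrictNormalHom E (frob K M v) = frob K E v, and it is 1 since frob K M v fixes E (AlgEquiv.restrictNormal_commutes). v is unramified in E (unr_tower, B08). order_frob (B18):
the inertia degree is the order of 1. -/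

open NumberField IsDedekindDomain

namespace CFT

theorem x_split {K : Type} [Field K] [NumberField K] {M : Type} [Field M] [NumberField M] [Algebra K M] [IsGalois K M]
    (hab : ∀ a b : M ≃ₐ[K] M, a * b = b * a) (E : IntermediateField K M) {v : Pr K} (hv : Unr K M v) (hy : ∀ x : E, frob K M v (x : M) = x)
    (w : Pr E) (hw : below K w = v) : w.asIdeal.inertiaDeg (𝓞 K) = 1 := by
  have hN : E.fixingSubgroup.Normal := ⟨fun a ha b => by rwa [hab b a, mul_assoc, mul_inv_cancel, mul_one]⟩
  have hEg : IsGalois K E := by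
    have h1 : IsGalois K (IntermediateField.fixedField E.fixingSubgroup) := IsGalois.of_fixedField_normal_subgroup E.fixingSubgroup
    rwa [IsGalois.fixedField_fixingSubgroup] at h1
  have hsur : Function.Surjective (AlgEquiv.restrictNormalHom E : (M ≃ₐ[K] M) →* (E ≃ₐ[K] E)) := AlgEquiv.restrictNormalHom_surjective M
  have habE : ∀ a b : E ≃ₐ[K] E, a * b = b * a := by
    intro a b
    obtain ⟨a', rfl⟩ := hsur a
    obtain ⟨b', rfl⟩ := hsur b
    rw [← map_mul, hab, map_mul]
  have h1 := frob_res K E M hab hv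
  have h2 : AlgEquiv.restrictNormalHom E (frob K M v) = 1 := by
    ext x
    have h3 : algebraMap E M (AlgEquiv.restrictNormalHom E (frob K M v) x) = frob K M v (algebraMap E M x) :=
      AlgEquiv.restrictNormal_commutes (frob K M v) E x
    exact h3.trans (hy x)
  have h3 := order_frob habE (unr_tower K E M hv).1 w hw
  rw [← h1, h2, orderOf_one] at h3
  exact h3.symm

end CFT
end

-- from Lib.CFT.Y16
section

/-! # CFT module Y, chunk Y16: sums over cosets -/

open NumberField

namespace CFTY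

variable {K : Type} [Field K] [NumberField K]

/-- PROOF. `fs_norm`, `summ_house` with `β = d re s`. -/
theorem fs_summable {g : K → ℂ} {A : ℝ} (hB : Bd g) (hA : ∀ x, g x ≠ 0 → Rg A x) {s : ℂ} (hs : 1 < s.re) :
    Summable fun x : 𝓞 K => Fs g s (x : K) := by
  obtain ⟨C, hC⟩ := fs_norm hB hA s (by linarith)
  have hd : (1 : ℝ) ≤ dg K := by exact_mod_cast (dg_pos (K := K))
  refine Summable.of_norm_bounded ((summ_house (K := K) (β := (dg K : ℝ) * s.re) ?_).mul_left C) hC
  nlinarith

/-- PROOF. Injective image in `𝓞 K` of a summable family. -/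
theorem fs_summable_coset {g : K → ℂ} {A : ℝ} (hB : Bd g) (hA : ∀ x, g x ≠ 0 → Rg A x) {s : ℂ} (hs : 1 < s.re)
    (J : Ideal (𝓞 K)) (h : 𝓞 K) : Summable fun j : J => Fs g s (((j : 𝓞 K) : K) + (h : K)) := by
  have hi : Function.Injective fun j : J => (j : 𝓞 K) + h := fun a b hab => Subtype.ext (add_right_cancel hab)
  have h2 : Summable fun j : J => Fs g s (((j : 𝓞 K) + h : 𝓞 K) : K) := (fs_summable hB hA hs).comp_injective hi
  refine h2.congr fun j => ?_
  have e : (((j : 𝓞 K) + h : 𝓞 K) : K) = ((j : 𝓞 K) : K) + (h : K) := rfl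
  rw [e]

end CFTY
end

-- from Lib.CFT.L4
section

/-! # CFT, module ZL, part 4: the family over the lattice of integers

Fam w s x = [x totally positive] w(x) norm(x)^(-s). It is a homogeneous smooth family (fam_HF). gK w: its angular part as a function on K. periodic_k: sums with
periodic coefficients of mean 0 continue to Re s > 1 - k/d. -/

open NumberField NumberField.InfinitePlace NumberField.mixedEmbedding CFTY
open scoped ContDiff

namespace CFTL

open scoped Classical

variable {K : Type} [Field K] [NumberField K]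

/-- The totally positive vectors. -/
def TPs (K : Type) [Field K] : Set (mixedSpace K) := {x | ∀ w : {w : InfinitePlace K // IsReal w}, 0 < x.1 w}

theorem tp_iff {z : K} (hz : z ≠ 0) : TP z ↔ mixedEmbedding K z ∈ TPs K := by
  constructor
  · rintro ⟨-, h⟩ w
    rw [mixedEmbedding_apply_isReal]
    exact h _
  · intro h
    refine ⟨hz, fun φ => ?_⟩
    have hr : ComplexEmbedding.IsReal (Complex.ofRealHom.comp φ) := by
      rw [ComplexEmbedding.isReal_iff]
      refine RingHom.ext fun x => ?_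
      rw [ComplexEmbedding.conjugate_coe_eq]
      exact Complex.conj_ofReal _
    have h1 : IsReal (InfinitePlace.mk (Complex.ofRealHom.comp φ)) := ⟨_, hr, rfl⟩
    have h2 := h ⟨_, h1⟩
    rw [mixedEmbedding_apply_isReal] at h2
    have h3 : ((embedding_of_isReal h1 z : ℝ) : ℂ) = ((φ z : ℝ) : ℂ) := by
      rw [embedding_of_isReal_apply, embedding_mk_eq_of_isReal hr]
      rfl
    rw [Complex.ofReal_inj.1 h3] at h2
    exact h2

/-- The family. -/
noncomputable def Fam (w : mixedSpace K → ℝ) (s : ℂ) (x : mixedSpace K) : ℂ :=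
  (if x ∈ TPs K then (w x : ℂ) else 0) * (mixedEmbedding.norm x : ℂ) ^ (-s)

/-- The angular part on K. -/
noncomputable def gK (w : mixedSpace K → ℝ) (z : K) : ℂ :=
  (if TP z then 1 else 0) * (w (mixedEmbedding K z) : ℂ) * 1

theorem fs_eq (w : mixedSpace K → ℝ) (h0 : w 0 = 0) (s : ℂ) (z : K) : Fs (gK w) s z = Fam w s (mixedEmbedding K z) := by
  unfold Fs gK Fam
  have h1 : nm z = mixedEmbedding.norm (mixedEmbedding K z) := by
    rw [mixedEmbedding.norm_eq_norm]
    unfold nm
    rw [Rat.cast_abs]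
  rw [h1, mul_one]
  congr 1
  by_cases hz : z = 0
  · subst hz
    rw [map_zero, h0]
    simp
  · by_cases h2 : TP z
    · rw [if_pos h2, if_pos ((tp_iff hz).1 h2), one_mul]
    · rw [if_neg h2, if_neg fun h => h2 ((tp_iff hz).2 h), zero_mul]

theorem tps_loc {x : mixedSpace K} (hx : mixedEmbedding.norm x ≠ 0) :
    (∀ᶠ y in nhds x, y ∈ TPs K) ∨ (∀ᶠ y in nhds x, y ∉ TPs K) := by
  have hc : ∀ w : {w : InfinitePlace K // IsReal w}, Continuous fun y : mixedSpace K => y.1 w := fun w =>
    (continuous_apply w).comp continuous_fst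
  have hne : ∀ w : {w : InfinitePlace K // IsReal w}, x.1 w ≠ 0 := by
    intro w h
    have h1 := mixedEmbedding.norm_ne_zero_iff.1 hx w.1
    rw [normAtPlace_apply_of_isReal w.2] at h1
    exact h1 (by rw [show x.1 ⟨w.1, w.2⟩ = x.1 w from rfl, h, norm_zero])
  by_cases h : x ∈ TPs K
  · left
    rw [TPs]
    simp only [Set.mem_ofPred_eq]
    rw [Filter.eventually_all]
    exact fun w => (hc w).continuousAt.eventually_const_lt (h w)
  · right
    have h1 : ∃ w : {w : InfinitePlace K // IsReal w}, x.1 w < 0 := by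
      by_contra h2
      push Not at h2
      exact h fun w => lt_of_le_of_ne (h2 w) (Ne.symm (hne w))
    obtain ⟨w, hw⟩ := h1
    filter_upwards [(hc w).continuousAt.eventually_lt_const hw] with y hy h2
    exact lt_asymm hy (h2 w)

theorem fam_HF {w : mixedSpace K → ℝ} (h1 : ContDiffOn ℝ ∞ w {0}ᶜ) (h2 : ∀ (t : ℝ) (x : mixedSpace K), 0 < t → w (t • x) = w x)
    (h3 : ∀ x, x ≠ 0 → mixedEmbedding.norm x = 0 → ∀ᶠ y in nhds x, w y = 0) : HF (dg K) 0 (Fam w) := by
  constructor
  · rintro ⟨s, x⟩ hx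
    have hx' : x ≠ 0 := hx
    refine ContDiffAt.contDiffWithinAt ?_
    have hsnd : Filter.Tendsto (fun p : ℂ × mixedSpace K => p.2) (nhds (s, x)) (nhds x) := continuous_snd.continuousAt
    by_cases h0 : mixedEmbedding.norm x = 0
    · refine (contDiffAt_const (c := (0 : ℂ))).congr_of_eventuallyEq ?_
      filter_upwards [hsnd.eventually (h3 x hx' h0)] with p hp
      unfold Fam
      rw [hp]
      simp
    · -- the smooth formula
      have hP : Pf x ≠ 0 := by
        rw [Pf_eq]
        exact pow_ne_zero _ h0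
      have hlog : ContDiffAt ℝ ∞ (fun p : ℂ × mixedSpace K => Real.log (Pf p.2)) (s, x) := by
        have e1 : ContDiffAt ℝ ∞ (fun p : ℂ × mixedSpace K => Pf p.2) (s, x) := (cd_Pf.comp contDiff_snd).contDiffAt
        exact e1.log hP
      have hexp : ContDiffAt ℝ ∞ (fun p : ℂ × mixedSpace K => Complex.exp (-p.1 * ((1 / 2 : ℝ) * Real.log (Pf p.2) : ℝ))) (s, x) := by
        refine ContDiffAt.cexp ?_
        refine (contDiff_fst.neg.contDiffAt).mul ?_
        exact Complex.ofRealCLM.contDiff.contDiffAt.comp (s, x) (contDiffAt_const.mul hlog)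
      have hw : ContDiffAt ℝ ∞ (fun p : ℂ × mixedSpace K => ((w p.2 : ℝ) : ℂ)) (s, x) := by
        have e1 : ContDiffAt ℝ ∞ w x := h1.contDiffAt (isOpen_compl_singleton.mem_nhds hx')
        have e2 : ContDiffAt ℝ ∞ (fun p : ℂ × mixedSpace K => w p.2) (s, x) := e1.comp (s, x) contDiff_snd.contDiffAt
        exact Complex.ofRealCLM.contDiff.contDiffAt.comp (s, x) e2
      have hcn : Continuous (mixedEmbedding.norm : mixedSpace K → ℝ) := mixedEmbedding.continuous_norm K
      have hpow : ∀ᶠ p : ℂ × mixedSpace K in nhds (s, x), (mixedEmbedding.norm p.2 : ℂ) ^ (-p.1) =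
          Complex.exp (-p.1 * ((1 / 2 : ℝ) * Real.log (Pf p.2) : ℝ)) := by
        have e1 : ∀ᶠ y in nhds x, mixedEmbedding.norm y ≠ 0 := hcn.continuousAt.eventually_ne h0
        filter_upwards [hsnd.eventually e1] with p hp
        rw [Complex.cpow_def_of_ne_zero (Complex.ofReal_ne_zero.2 hp), Pf_eq, Real.log_pow,
          ← Complex.ofReal_log (mixedEmbedding.norm_nonneg _)]
        congr 1
        push_cast
        ring
      rcases tps_loc h0 with h4 | h4
      · refine (hw.mul hexp).congr_of_eventuallyEq ?_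
        filter_upwards [hsnd.eventually h4, hpow] with p hp1 hp2
        show Fam w p.1 p.2 = _
        unfold Fam
        rw [if_pos hp1, hp2]
      · refine (contDiffAt_const (c := (0 : ℂ))).congr_of_eventuallyEq ?_
        filter_upwards [hsnd.eventually h4] with p hp1
        unfold Fam
        rw [if_neg hp1, zero_mul]
  · intro s t x ht hx
    unfold Fam
    have e1 : t • x ∈ TPs K ↔ x ∈ TPs K := by
      constructor
      · intro h w
        have h5 := h w
        have h6 : (t • x).1 w = t * x.1 w := rfl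
        rw [h6] at h5
        exact (mul_pos_iff_of_pos_left ht).1 h5
      · intro h w
        exact mul_pos ht (h w)
    rw [h2 t x ht]
    simp only [e1]
    rw [mixedEmbedding.norm_smul, abs_of_pos ht]
    have e2 : ((t ^ Module.finrank ℚ K * mixedEmbedding.norm x : ℝ) : ℂ) ^ (-s) =
        (t : ℂ) ^ (-((dg K : ℝ) * s + (0 : ℝ))) * (mixedEmbedding.norm x : ℂ) ^ (-s) := by
      rw [Complex.ofReal_mul, Complex.mul_cpow_ofReal_nonneg (by positivity) (mixedEmbedding.norm_nonneg x)]
      congr 1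
      have htn : 0 < t ^ Module.finrank ℚ K := pow_pos ht _
      rw [Complex.cpow_def_of_ne_zero (Complex.ofReal_ne_zero.2 htn.ne'), Complex.cpow_def_of_ne_zero (Complex.ofReal_ne_zero.2 ht.ne'),
        ← Complex.ofReal_log htn.le, ← Complex.ofReal_log ht.le, Real.log_pow]
      congr 1
      unfold dg
      push_cast
      ring
    rw [e2]
    ring

/-- The embedding of the integers. -/
noncomputable def emb (K : Type) [Field K] [NumberField K] : 𝓞 K →+ mixedSpace K :=
  ((mixedEmbedding K).comp (algebraMap (𝓞 K) K)).toAddMonoidHom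

theorem emb_apply (x : 𝓞 K) : emb K x = mixedEmbedding K (x : K) := rfl

theorem emb_inj : Function.Injective (emb K) := (mixedEmbedding_injective K).comp RingOfIntegers.coe_injective

theorem emb_sum {β : ℝ} (hβ : (dg K : ℝ) < β) : Summable fun x : 𝓞 K => ‖emb K x‖ ^ (-β) := by
  have hinj : Function.Injective (((mixedEmbedding K).comp (algebraMap (𝓞 K) K)).toIntAlgHom.toLinearMap) :=
    (mixedEmbedding_injective K).comp RingOfIntegers.coe_injective
  let e : 𝓞 K ≃ₗ[ℤ] mixedEmbedding.integerLattice K := LinearEquiv.ofInjective _ hinj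
  have hr : Module.finrank ℤ (mixedEmbedding.integerLattice K) = dg K := by
    rw [← e.finrank_eq, RingOfIntegers.rank]
    rfl
  have h := ZLattice.summable_norm_rpow (mixedEmbedding.integerLattice K) (-β) (by rw [hr]; linarith)
  exact e.toEquiv.summable_iff.2 h

theorem emb_fin (ρ : ℝ) : {x : 𝓞 K | ‖emb K x‖ < ρ}.Finite := by
  have h1 := NumberField.Embeddings.finite_of_norm_le K ℂ ρ
  refine Set.Finite.of_finite_image (f := fun u : 𝓞 K => (u : K)) (h1.subset ?_) ?_
  · rintro _ ⟨u, hu, rfl⟩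
    refine ⟨u.isIntegral_coe, fun φ => ?_⟩
    have h2 := place_le (emb K u) (InfinitePlace.mk φ)
    rw [emb_apply, normAtPlace_apply, InfinitePlace.apply] at h2
    exact h2.trans (le_of_lt hu)
  · intro u _ v _ h
    exact RingOfIntegers.ext h

/-- Periodic coefficients of mean 0. -/
theorem periodic_k {w : mixedSpace K → ℝ} (h1 : ContDiffOn ℝ ∞ w {0}ᶜ) (h2 : ∀ (t : ℝ) (x : mixedSpace K), 0 < t → w (t • x) = w x)
    (h3 : ∀ x, x ≠ 0 → mixedEmbedding.norm x = 0 → ∀ᶠ y in nhds x, w y = 0) (h4 : w 0 = 0) (J : Ideal (𝓞 K)) (hJ : J ≠ ⊥)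
    (a : 𝓞 K ⧸ J → ℂ) (ha : ∑ᶠ q, a q = 0) (k : ℕ) : ∃ H : ℂ → ℂ, DifferentiableOn ℂ H {s | 1 - k / (dg K : ℝ) < s.re} ∧
      ∀ s : ℂ, 1 < s.re → H s = ∑' x : 𝓞 K, a (Ideal.Quotient.mk J x) * Fs (gK w) s (x : K) := by
  have hfin : Finite (𝓞 K ⧸ J) := Ideal.finiteQuotientOfFreeOfNeBot J hJ
  have hfin' : Finite (𝓞 K ⧸ J.toAddSubgroup) := hfin
  have hd : (0 : ℝ) < dg K := by exact_mod_cast dg_pos (K := K)
  have hF0 : ∀ s, Fam w s 0 = 0 := by
    intro s
    unfold Fam
    rw [h4]
    simp
  have hFd : ∀ y, Differentiable ℂ fun s => Fam w s y := by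
    intro y
    unfold Fam
    by_cases h0 : mixedEmbedding.norm y = 0
    · by_cases hy : y = 0
      · subst hy
        simp [h4]
      · have h5 : w y = 0 := (h3 y hy h0).self_of_nhds
        rw [h5]
        simp
    · exact (differentiable_id.neg.const_cpow (Or.inl (Complex.ofReal_ne_zero.2 h0))).const_mul _
  have hrep : ∀ x : 𝓞 K, (QuotientAddGroup.mk x : 𝓞 K ⧸ J.toAddSubgroup) = Ideal.Quotient.mk J x := fun x => rfl
  obtain ⟨H, hH1, hH2⟩ := periodicK (emb_inj (K := K)) (J := J.toAddSubgroup) hd (fun β hβ => emb_sum hβ) emb_fin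
    (fam_HF h1 h2 h3) hF0 hFd (a := a) ha k
  refine ⟨H, hH1, fun s hs => ?_⟩
  rw [hH2 s hs]
  refine tsum_congr fun x => ?_
  rw [fs_eq w h4]
  rfl

end CFTL
end

-- from Lib.H69H.D6
section

set_option autoImplicit false
set_option linter.unusedSectionVars false

namespace Pool.Agent.H69H

open NumberField IsDedekindDomain CFT

variable {K : Type} [Field K] [NumberField K] {L : Type} [Field L] [NumberField L] [Algebra K L]

/-- The conorm, multiplicative notation. -/
noncomputable def d6_con (K L : Type) [Field K] [NumberField K] [Field L] [NumberField L] [Algebra K L] :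
    Multiplicative (Dv K) →* Multiplicative (Dv L) := AddMonoidHom.toMultiplicative (con K L)

theorem d6_con_apply (D : Dv K) : d6_con K L (Multiplicative.ofAdd D) = Multiplicative.ofAdd (con K L D) := rfl

theorem d6_inj : Function.Injective (d6_con K L) := fun a b h => con_injective (K := K) (L := L) h

theorem d6_mem_dif (σ : L ≃ₐ[K] L) (D : Multiplicative (Dv L)) :
    dif (sM σ) D = 1 ↔ sD σ (Multiplicative.toAdd D) = Multiplicative.toAdd D := by
  rw [dif_apply, div_eq_one]
  exact Iff.rfl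

theorem d6_sD_con (σ : L ≃ₐ[K] L) (D : Dv K) : sD σ (con K L D) = con K L D := by
  ext w
  rw [sD_apply, con_apply, con_apply, below_gp, d4_ram_gp]

theorem d6_relIndex {A : Type*} [AddGroup A] (H J : AddSubgroup A) :
    (AddSubgroup.toSubgroup H).relIndex (AddSubgroup.toSubgroup J) = H.relIndex J := rfl

/-- PROOF. `H := tate (dif (sM σ)) (nrm n (sM σ)) ⊥ (MT L T)` and `H' := tate (nrm) (dif) ⊥ (MT L T)` are not `0` (`tate_fg`, G4, `MT_fg`, D5, `sM_iter`, D1; `MT L T` is stable: `below_gp`). `exists_her`: `Her ⊥ (MT L T) t`, and `t = H / H' ≤ H`.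
`H = ((DTL L T).map (Nd K L)).relIndex (DTK T)`: the injective homomorphism `con` (D2) maps `DTK T` onto the invariants of `DTL L T` (`inv_con`, D5; `con E` is invariant by `below_gp` and the ramification index of `gp σ w`, or because
`T` is unramified: only primes above `T` count) and `(DTL L T).map Nd` onto the image of `nrm` (`con_Nd`, D4). Index under injective maps: `AddSubgroup.relIndex_map_map_of_injective`; `Subgroup.relIndex` and `AddSubgroup.relIndex` are compared by
`AddSubgroup.toSubgroup`/`Subgroup.toAddSubgroup` (the same quotient; if there is no lemma, unfold `relIndex`, `index` and `Nat.card_congr`). -/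
theorem her_MT [IsGalois K L] (σ : L ≃ₐ[K] L) (hσ : ∀ x, x ∈ Subgroup.zpowers σ) (T : Finset (Pr K))
    (hT : ∀ v ∈ T, Unr K L v) :
    ∃ t : ℚ, Her (dif (sM σ)) (nrm (Module.finrank K L) (sM σ)) ⊥ (MT L T) t ∧
      t ≤ ((DTL L T).map (Nd K L)).relIndex (DTK T) ∧ ((DTL L T).map (Nd K L)).relIndex (DTK T) ≠ 0 := by
  classical
  have hstab : ∀ x ∈ MT L T, sM σ x ∈ MT L T := by
    intro x hx
    rw [mem_MT] at hx ⊢
    intro w hw
    show sD σ (Multiplicative.toAdd x) w = 0
    rw [sD_apply]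
    exact hx _ (by rwa [below_gp])
  obtain ⟨h1, h2⟩ := tate_fg (sM σ) (n := Module.finrank K L) Module.finrank_pos.ne'
    (fun x => sM_iter σ x) (A := ⊥) (B := MT L T)
    (fun x hx => by
      rw [Subgroup.mem_bot] at hx ⊢
      rw [hx, map_one]) hstab bot_le (MT_fg T)
  have hkey : ((DTL L T).map (Nd K L)).relIndex (DTK T) =
      tate (dif (sM σ)) (nrm (Module.finrank K L) (sM σ)) ⊥ (MT L T) := by
    rw [← d6_relIndex, ← Subgroup.relIndex_map_map_of_injective _ _ (d6_inj (K := K) (L := L))]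
    unfold tate
    congr 1
    · rw [sup_bot_eq]
      ext D
      constructor
      · rintro ⟨E, ⟨F, hF, hE⟩, rfl⟩
        refine ⟨Multiplicative.ofAdd F, hF, ?_⟩
        have h3 := con_Nd (K := K) (L := L) σ hσ F
        have h4 : Nd K L F = Multiplicative.toAdd E := hE
        rw [h4] at h3
        show nrm (Module.finrank K L) (sM σ) (Multiplicative.ofAdd F) =
          Multiplicative.ofAdd (con K L (Multiplicative.toAdd E))
        rw [h3]
        rfl
      · rintro ⟨F, hF, rfl⟩
        refine ⟨Multiplicative.ofAdd (Nd K L (Multiplicative.toAdd F)), ⟨Multiplicative.toAdd F, hF, rfl⟩, ?_⟩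
        rw [d6_con_apply, con_Nd σ hσ]
        rfl
    · ext D
      rw [Subgroup.mem_inf, Subgroup.mem_comap, Subgroup.mem_bot, d6_mem_dif]
      constructor
      · rintro ⟨E, hE, rfl⟩
        refine ⟨?_, d6_sD_con σ _⟩
        rw [mem_MT]
        intro w hw
        show con K L (Multiplicative.toAdd E) w = 0
        rw [con_apply]
        have h3 : (Multiplicative.toAdd E) (below K w) = 0 := hE (below K w) hw
        rw [h3, mul_zero]
      · rintro ⟨hD, hs⟩
        obtain ⟨E, hE, h3⟩ := inv_con σ hσ T hT (Multiplicative.toAdd D) hD hs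
        refine ⟨Multiplicative.ofAdd E, hE, ?_⟩
        rw [d6_con_apply, ← h3]
        rfl
  obtain ⟨t, ht⟩ := exists_her h1 h2
  refine ⟨t, ht, ?_, ?_⟩
  · rw [hkey, ht.eq]
    have h3 : (1 : ℚ) ≤ tate (nrm (Module.finrank K L) (sM σ)) (dif (sM σ)) ⊥ (MT L T) := by
      exact_mod_cast Nat.one_le_iff_ne_zero.2 h2
    exact le_mul_of_one_le_right ht.pos.le h3
  · rw [hkey]
    exact h1

end Pool.Agent.H69H
end

-- from Lib.H69H.E6
section

set_option autoImplicit false
set_option linter.unusedSectionVars false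

namespace Pool.Agent.H69H

open NumberField IsDedekindDomain CFT

variable {K : Type} [Field K] [NumberField K] {L : Type} [Field L] [NumberField L] [Algebra K L]

theorem e6_Nd (T : Finset (Pr K)) (E : Dv L) (hE : E ∈ DTL L T) (v : Pr K) (hv : v ∉ T) : Nd K L E v = 0 := by
  unfold Nd
  rw [Finsupp.liftAddHom_apply, Finsupp.sum, Finsupp.finsetSum_apply]
  refine Finset.sum_eq_zero fun w hw => ?_
  show (Finsupp.single (below K w) (((w.asIdeal.inertiaDeg (𝓞 K) : ℕ) : ℤ) * E w)) v = 0
  rw [Finsupp.single_eq_of_ne]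
  rintro rfl
  exact (Finsupp.mem_support_iff.1 hw) (hE w hv)

variable [IsGalois K L] {σ : L ≃ₐ[K] L} (hσ : ∀ x, x ∈ Subgroup.zpowers σ) {S T : Finset (Pr K)} {V : Subgroup Lˣ} {N : ℕ}

include hσ in
/-- PROOF. `(DTL L T).map Nd ≤ QQ ≤ DTK T` (`κ` is supported on `T`: `od_algebraMap`, `e ≠ 0`, `below_surj`), so the left side is `((DTL L T).map Nd).relIndex QQ * QQ.relIndex (DTK T)`. The first factor is at most the index of `(ET V T).map nrm` in `PP V T`: the map `PP V T → QQ / (DTL L T).map Nd`, `kU κ ↦ dv κ`, is onto and `nrm y ↦ Nd (dv y)`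
(`nrm_eq`, C1, `Nd_dv`, D4) is trivial. (In Lean: an injection from representatives, or a homomorphism `PP V T →* Multiplicative (Dv K)`; `kU` is injective, or work in `Kˣ` with the comap of `PP V T` under `kU`.) -/
theorem QQ_index (hV : IsV σ S V) (hT : IsT σ S V N T)
    (h0 : ((ET V T).map (nrm (Module.finrank K L) (sU σ))).relIndex (PP V T) ≠ 0) :
    ((DTL L T).map (Nd K L)).relIndex (DTK T) ≤ (QQ (L := L) V T).relIndex (DTK T) *
      ((ET V T).map (nrm (Module.finrank K L) (sU σ))).relIndex (PP V T) := by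
  have hinj : Function.Injective (kU K L) := by
    intro a b h
    apply Units.ext
    have h1 := congrArg Units.val h
    rw [kU_coe, kU_coe] at h1
    exact (algebraMap K L).injective h1
  have hle1 : (DTL L T).map (Nd K L) ≤ QQ (L := L) V T := by
    rintro _ ⟨E, hE, rfl⟩
    refine ⟨1, by rw [map_one]; exact one_mem _, fun φ _ => by simp, E, hE, ?_⟩
    rw [Units.val_one, dv_one, zero_add]
  have hle2 : QQ (L := L) V T ≤ DTK T := by
    rintro _ ⟨κ, h1, _, E, hE, rfl⟩ v hv
    rw [Finsupp.add_apply, e6_Nd T E hE v hv, add_zero, dv_apply]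
    obtain ⟨w, rfl⟩ := below_surj L v
    have h2 := h1.2 w hv
    have h3 : od w (algebraMap K L (κ : K)) = 0 := h2
    rw [od_algebraMap] at h3
    exact (mul_eq_zero.1 h3).resolve_left (ram_ne w)
  rw [← AddSubgroup.relIndex_mul_relIndex _ _ _ hle1 hle2, mul_comm]
  refine Nat.mul_le_mul_left _ ?_
  have e1 : ((ET V T).map (nrm (Module.finrank K L) (sU σ))).relIndex (PP V T) =
      (((ET V T).map (nrm (Module.finrank K L) (sU σ))).comap (kU K L)).relIndex ((PP V T).comap (kU K L)) := by
    rw [Subgroup.relIndex_comap, Subgroup.map_comap_eq, inf_eq_right.2]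
    rintro _ ⟨_, κ, rfl, _⟩
    exact ⟨κ, rfl⟩
  have e2 : AddSubgroup.toSubgroup (QQ (L := L) V T) =
      ((PP V T).comap (kU K L)).map (dvU K) ⊔ AddSubgroup.toSubgroup ((DTL L T).map (Nd K L)) := by
    ext D
    rw [Subgroup.mem_sup]
    constructor
    · rintro ⟨κ, h1, h2, E, hE, h3⟩
      refine ⟨dvU K κ, ⟨κ, ⟨h1, κ, rfl, h2⟩, rfl⟩, Multiplicative.ofAdd (Nd K L E), ⟨E, hE, rfl⟩, ?_⟩
      exact h3.symm
    · rintro ⟨_, ⟨κ, h1, rfl⟩, _, ⟨E, hE, rfl⟩, rfl⟩
      obtain ⟨h1, μ, h2, h3⟩ := h1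
      rw [hinj h2] at h1 ⊢
      exact ⟨μ, h1, h3, E, hE, rfl⟩
  rw [← AddSubgroup.relIndex_toSubgroup, e2, Subgroup.relIndex_sup_right, ← Subgroup.relIndex_comap, e1]
  refine Subgroup.relIndex_le_of_le_left ?_ (by rw [← e1]; exact h0)
  rintro κ ⟨y, hy, h1⟩
  rw [nrm_eq σ hσ] at h1
  have h2 := hinj h1
  refine ⟨dv (y : L), fun w hw => hy.2 w hw, ?_⟩
  rw [← h2]
  exact Nd_dv y

end Pool.Agent.H69H
end

-- from Lib.CFT.Y17
section

/-! # CFT module Y, chunk Y17: translation of a coset -/

open NumberField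

namespace CFTY

variable {K : Type} [Field K] [NumberField K]

/-- for fixed `x` the function `Fs g s x` is analytic in `s` (if `nm x ≠ 0`; for `x = 0` it is 0 because `g 0 = 0`) -/
theorem fs_diffble {g : K → ℂ} (hg : g 0 = 0) (x : K) : Differentiable ℂ fun s => Fs g s x := by
  unfold Fs
  by_cases hx : x = 0
  · have e : (fun s : ℂ => g x * (nm x : ℂ) ^ (-s)) = fun _ => 0 := by
      funext s
      rw [hx, hg, zero_mul]
    rw [e]
    exact differentiable_const _
  · have h1 : (nm x : ℂ) ≠ 0 := by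
      exact_mod_cast (nm_pos hx).ne'
    exact (differentiable_id.neg.const_cpow (Or.inl h1)).const_mul _

/-- PROOF. `HP K` is open, it is the union of the open sets `{s | σ₀ < re s, ‖s‖ < R}`, `σ₀ > 1 - 1/d`, `σ₀ ≥ 0`. There `differentiableOn_tsum_of_summable_norm` with
the bound of `fs_diff`, summable by `summ_house` (`β = d σ₀ + 1 > d`; restricted to `J`). -/
theorem trans_diff {g : K → ℂ} {A : ℝ} (hB : Bd g) (hL : LL g) (hA : ∀ x, g x ≠ 0 → Rg A x) (J : Ideal (𝓞 K)) (h : 𝓞 K) :
    DifferentiableOn ℂ (fun s => ∑' j : J, (Fs g s (((j : 𝓞 K) : K) + (h : K)) - Fs g s ((j : 𝓞 K) : K))) (HP K) := by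
  have hg : g 0 = 0 := by
    by_contra hne
    exact (hA 0 hne).1 rfl
  have hd : (1 : ℝ) ≤ dg K := by exact_mod_cast (dg_pos (K := K))
  have hd1 : 1 / (dg K : ℝ) ≤ 1 := (div_le_one (by linarith)).2 hd
  intro s₀ hs₀
  have hs1 : 1 - 1 / (dg K : ℝ) < s₀.re := hs₀
  obtain ⟨σ, hσ1, hσ2⟩ := exists_between hs1
  have hσ0 : 0 ≤ σ := by linarith
  have hσd : (dg K : ℝ) < (dg K : ℝ) * σ + 1 := by
    have h3 : (dg K : ℝ) * (1 - 1 / (dg K : ℝ)) < (dg K : ℝ) * σ := mul_lt_mul_of_pos_left hσ1 (by linarith)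
    have h4 : (dg K : ℝ) * (1 - 1 / (dg K : ℝ)) = (dg K : ℝ) - 1 := by
      have : (dg K : ℝ) ≠ 0 := by linarith
      field_simp
    linarith
  obtain ⟨C, hC⟩ := fs_diff hB hL hA h (R := ‖s₀‖ + 1) (σ₀ := σ) (by positivity) hσ0
  let U : Set ℂ := {s | σ < s.re ∧ ‖s‖ < ‖s₀‖ + 1}
  have hU : IsOpen U := (isOpen_lt continuous_const Complex.continuous_re).inter (isOpen_lt continuous_norm continuous_const)
  have hsU : s₀ ∈ U := ⟨hσ2, by linarith⟩
  have hsum : Summable fun j : J => C * (1 + house (((j : 𝓞 K)) : K)) ^ (-((dg K : ℝ) * σ + 1)) :=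
    ((summ_house (K := K) hσd).comp_injective (Subtype.val_injective (p := fun x => x ∈ J))).mul_left C
  have hdiff : DifferentiableOn ℂ (fun s => ∑' j : J, (Fs g s (((j : 𝓞 K) : K) + (h : K)) - Fs g s ((j : 𝓞 K) : K))) U := by
    refine Complex.differentiableOn_tsum_of_summable_norm hsum (fun j => ?_) hU (fun j s hs => ?_)
    · exact ((fs_diffble hg _).sub (fs_diffble hg _)).differentiableOn
    · exact hC s hs.2.le hs.1.le j
  exact (hdiff.differentiableAt (hU.mem_nhds hsU)).differentiableWithinAt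

end CFTY
end

-- from Lib.CFT.Y18
section

/-! # CFT module Y, chunk Y18: periodic weights with mean value zero -/

open NumberField

namespace CFTY

variable {K : Type} [Field K] [NumberField K]

/-- PROOF. `H s = ∑ q : 𝓞 K ⧸ J, a q * ∑' j : J, (Fs g s (j + r q) - Fs g s j)` where `r q` is a representative of `q` (`Quotient.out` or
`Ideal.Quotient.mk_surjective`). Analytic: `trans_diff`. For `re s > 1`: `𝓞 K` is the disjoint union of the cosets `r q + J` (`Equiv.sigmaFiberEquiv`,
or the bijection `(𝓞 K ⧸ J) × J ≃ 𝓞 K`, `(q, j) ↦ j + r q`, e.g. `AddSubgroup.addGroupEquivQuotientProdAddSubgroup`), everything is summable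
(`fs_summable`, `fs_summable_coset`): `∑' x, a x Fs x = ∑ q, a q ∑' j, Fs (j + r q)`, and `∑ q, a q * ∑' j, Fs j = 0`. -/
theorem periodic {g : K → ℂ} {A : ℝ} (hB : Bd g) (hL : LL g) (hA : ∀ x, g x ≠ 0 → Rg A x) (J : Ideal (𝓞 K)) (hJ : J ≠ ⊥)
    (a : 𝓞 K ⧸ J → ℂ) (ha : ∑ᶠ q, a q = 0) : ∃ H : ℂ → ℂ, DifferentiableOn ℂ H (HP K) ∧
      ∀ s : ℂ, 1 < s.re → H s = ∑' x : 𝓞 K, a (Ideal.Quotient.mk J x) * Fs g s (x : K) := by
  classical
  haveI : Finite (𝓞 K ⧸ J) := Ideal.finiteQuotientOfFreeOfNeBot _ hJ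
  haveI : Fintype (𝓞 K ⧸ J) := Fintype.ofFinite _
  rw [finsum_eq_sum_of_fintype] at ha
  obtain ⟨r, hr⟩ : ∃ r : 𝓞 K ⧸ J → 𝓞 K, ∀ q, Ideal.Quotient.mk J (r q) = q :=
    ⟨Function.surjInv Ideal.Quotient.mk_surjective, Function.surjInv_eq Ideal.Quotient.mk_surjective⟩
  refine ⟨fun s => ∑ q, a q * ∑' j : J, (Fs g s (((j : 𝓞 K) : K) + (r q : K)) - Fs g s ((j : 𝓞 K) : K)), ?_, ?_⟩
  · exact DifferentiableOn.fun_sum fun q _ => (trans_diff hB hL hA J (r q)).const_mul (a q)
  · intro s hs
    have hS0 : Summable fun j : J => Fs g s ((j : 𝓞 K) : K) := by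
      have h := fs_summable_coset hB hA hs J 0
      refine h.congr fun j => ?_
      have h0 : ((0 : 𝓞 K) : K) = 0 := map_zero (algebraMap (𝓞 K) K)
      rw [h0, add_zero]
    have hSq : ∀ q, Summable fun j : J => Fs g s (((j : 𝓞 K) : K) + (r q : K)) := fun q => fs_summable_coset hB hA hs J (r q)
    have h1 : ∀ q, ∑' j : J, (Fs g s (((j : 𝓞 K) : K) + (r q : K)) - Fs g s ((j : 𝓞 K) : K)) =
        (∑' j : J, Fs g s (((j : 𝓞 K) : K) + (r q : K))) - ∑' j : J, Fs g s ((j : 𝓞 K) : K) := fun q => (hSq q).tsum_sub hS0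
    have hF := fs_summable hB hA hs (K := K)
    have hsum : Summable fun x : 𝓞 K => a (Ideal.Quotient.mk J x) * Fs g s (x : K) := by
      refine Summable.of_norm_bounded (g := fun x : 𝓞 K => (∑ q, ‖a q‖) * ‖Fs g s (x : K)‖) (hF.norm.mul_left _) fun x => ?_
      rw [norm_mul]
      refine mul_le_mul_of_nonneg_right ?_ (norm_nonneg _)
      exact Finset.single_le_sum (f := fun q => ‖a q‖) (fun q _ => norm_nonneg _) (Finset.mem_univ _)
    let e : (𝓞 K ⧸ J) × J ≃ 𝓞 K :=
      { toFun := fun p => (p.2 : 𝓞 K) + r p.1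
        invFun := fun x => (Ideal.Quotient.mk J x, ⟨x - r (Ideal.Quotient.mk J x), by
          rw [← Ideal.Quotient.eq_zero_iff_mem, map_sub, hr, sub_self]⟩)
        left_inv := by
          rintro ⟨q, j⟩
          have h2 : Ideal.Quotient.mk J ((j : 𝓞 K) + r q) = q := by
            rw [map_add, hr, Ideal.Quotient.eq_zero_iff_mem.2 j.2, zero_add]
          refine Prod.ext h2 ?_
          apply Subtype.ext
          change (j : 𝓞 K) + r q - r (Ideal.Quotient.mk J ((j : 𝓞 K) + r q)) = j
          rw [h2, add_sub_cancel_right]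
        right_inv := by
          intro x
          change x - r (Ideal.Quotient.mk J x) + r (Ideal.Quotient.mk J x) = x
          rw [sub_add_cancel] }
    have he : ∀ q j, Ideal.Quotient.mk J (e (q, j)) = q := by
      intro q j
      change Ideal.Quotient.mk J ((j : 𝓞 K) + r q) = q
      rw [map_add, hr, Ideal.Quotient.eq_zero_iff_mem.2 j.2, zero_add]
    have h3 : ∑' x : 𝓞 K, a (Ideal.Quotient.mk J x) * Fs g s (x : K) = ∑ q, a q * ∑' j : J, Fs g s (((j : 𝓞 K) : K) + (r q : K)) := by
      have h4 := ((e.summable_iff).2 hsum).tsum_prod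
      rw [← e.tsum_eq]
      refine h4.trans ((tsum_fintype _).trans (Finset.sum_congr rfl fun q _ => ?_))
      rw [← tsum_mul_left]
      refine tsum_congr fun j => ?_
      change a (Ideal.Quotient.mk J (e (q, j))) * Fs g s (algebraMap (𝓞 K) K ((j : 𝓞 K) + r q)) = _
      rw [he, map_add]
    rw [h3]
    simp only [h1, mul_sub, Finset.sum_sub_distrib, ← Finset.sum_mul, ha, zero_mul, sub_zero]


end CFTY
end

-- from Lib.CFT.Y22
section

/-! # CFT module Y, chunk Y22: unfolding: the whole sum -/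

open NumberField

namespace CFTY

variable {K : Type} [Field K] [NumberField K]

open Classical in
/-- PROOF. The family over `𝓞 K` is summable (`fs_summable` and `Summable.of_norm_bounded`, or `Summable.indicator`); `HasSum.tsum_fiberwise` (or `HasSum.sigma` with
`Equiv.sigmaFiberEquiv`) for the map `x ↦ span {x}`, with `fibre_sum`. -/
theorem unfold_sum {m : Ideal (𝓞 K)} {ψ : K → ℂ} {χ : Ideal (𝓞 K) →*₀ ℂ} (hχ : HCh m ψ χ) {w : K → ℝ} {A : ℝ}
    (hw : ∀ x : K, x ≠ 0 → HasSum (fun u : RU m => w ((((u : (𝓞 K)ˣ) : 𝓞 K) : K) * x)) 1)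
    (hB : Bd fun z => (if TP z then 1 else 0) * (w z : ℂ) * ψ z) (hA : ∀ x, w x ≠ 0 → Rg A x) (j : Ideal (𝓞 K))
    {s : ℂ} (hs : 1 < s.re) :
    ∑' x : 𝓞 K, (if x - 1 ∈ m ∧ x ∈ j then Fs (fun z => (if TP z then 1 else 0) * (w z : ℂ) * ψ z) s (x : K) else 0) =
      ∑' I : Ideal (𝓞 K), if PrI m I ∧ I ≤ j then CFTZ.tm χ s I else 0 := by
  have hA' : ∀ x, (fun z => (if TP z then 1 else 0) * (w z : ℂ) * ψ z) x ≠ 0 → Rg A x := by
    intro x hx
    apply hA
    rintro h0
    apply hx
    change (if TP x then 1 else 0) * (w x : ℂ) * ψ x = 0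
    rw [h0, Complex.ofReal_zero, mul_zero, zero_mul]
  have hF := fs_summable hB hA' hs (K := K)
  have hS : Summable fun x : 𝓞 K => if x - 1 ∈ m ∧ x ∈ j then
      Fs (fun z => (if TP z then 1 else 0) * (w z : ℂ) * ψ z) s (x : K) else 0 := by
    refine Summable.of_norm_bounded (g := fun x : 𝓞 K => ‖Fs (fun z => (if TP z then 1 else 0) * (w z : ℂ) * ψ z) s (x : K)‖) hF.norm fun x => ?_
    split_ifs
    · exact le_rfl
    · rw [norm_zero]
      exact norm_nonneg _
  have h1 := ((Equiv.sigmaFiberEquiv fun x : 𝓞 K => (Ideal.span {x} : Ideal (𝓞 K))).hasSum_iff).2 hS.hasSum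
  have h2 := h1.sigma fun I => fibre_sum hχ hw j I s
  exact h2.tsum_eq.symm


end CFTY
end
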