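import Mathlib

/-! Merged copies (to shorten the build) of Lib.H49M.P7, Lib.H76U.SL, Lib.H76U.Chars, Lib.H76U.Factor, Lib.H49M.P7s. -/

-- from Lib.H49M.P7
section

/-!
# P7: irreducible Clifford modules
-/

set_option autoImplicit false
set_option linter.unusedSectionVars false
namespace Pool.Agent.H49M
open Module

variable {K : Type*} [Field K]

/-- A square zero operator anticommuting with everything vanishes. -/
theorem P7_zero [CharZero K] {W : Type*} [AddCommGroup W] [Module K W] [Nontrivial W]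
    {J : Submodule K (Module.End K W)}
    (hirr : ∀ U : Submodule K W, (∀ w ∈ J, ∀ u ∈ U, w u ∈ U) → U = ⊥ ∨ U = ⊤)
    {w₀ : Module.End K W} (h0 : w₀ * w₀ = 0) (ha : ∀ w ∈ J, ∃ T : Module.End K W, w * w₀ = w₀ * T) :
    w₀ = 0 := by
  rcases hirr (LinearMap.range w₀) (by
    rintro w hw _ ⟨v, rfl⟩
    obtain ⟨T, hT⟩ := ha w hw
    rw [← Module.End.mul_apply, hT]
    exact ⟨T v, rfl⟩) with h1 | h1
  · exact LinearMap.range_eq_bot.mp h1
  · exfalso
    obtain ⟨v, hv⟩ := exists_ne (0 : W)
    have hv1 : v ∈ LinearMap.range w₀ := by rw [h1]; trivial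
    obtain ⟨x, rfl⟩ := hv1
    have hx1 : x ∈ LinearMap.range w₀ := by rw [h1]; trivial
    obtain ⟨y, rfl⟩ := hx1
    apply hv
    rw [← Module.End.mul_apply, h0, LinearMap.zero_apply]

/-- The case without two anticommuting involutions. -/
theorem P7_line [IsAlgClosed K] {W : Type*} [AddCommGroup W] [Module K W]
    [FiniteDimensional K W] [Nontrivial W] {J : Submodule K (Module.End K W)}
    (hirr : ∀ U : Submodule K W, (∀ w ∈ J, ∀ u ∈ U, w u ∈ U) → U = ⊥ ∨ U = ⊤)
    {w₁ : Module.End K W} (hJ : ∀ w ∈ J, ∃ c : K, w = c • w₁) : finrank K W = 1 := by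
  obtain ⟨l, hl⟩ := Module.End.exists_eigenvalue w₁
  obtain ⟨v, hv⟩ := hl.exists_hasEigenvector
  have h1 : Submodule.span K {v} = ⊤ := by
    refine (hirr _ ?_).resolve_left ?_
    · intro w hw u hu
      obtain ⟨c, rfl⟩ := hJ w hw
      rw [Submodule.mem_span_singleton] at hu ⊢
      obtain ⟨a, rfl⟩ := hu
      refine ⟨a * c * l, ?_⟩
      rw [LinearMap.smul_apply, map_smul, Module.End.mem_eigenspace_iff.mp hv.1, smul_smul,
        smul_smul]
      ring_nf
    · rw [Submodule.span_singleton_eq_bot]; exact hv.2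
  have h2 := finrank_span_singleton (K := K) hv.2
  rw [h1, finrank_top] at h2
  exact h2

theorem P7_polar [CharZero K] {W : Type*} [AddCommGroup W] [Module K W]
    {J : Submodule K (Module.End K W)} (hJ : ∀ w ∈ J, ∃ c : K, w * w = c • 1)
    {a b : Module.End K W} (ha : a ∈ J) (hb : b ∈ J) : ∃ c : K, a * b + b * a = c • 1 := by
  obtain ⟨x, hx⟩ := hJ a ha
  obtain ⟨y, hy⟩ := hJ b hb
  obtain ⟨z, hz⟩ := hJ (a + b) (J.add_mem ha hb)
  refine ⟨z - x - y, ?_⟩
  rw [sub_smul, sub_smul, ← hz, ← hx, ← hy]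
  noncomm_ring

/-- An operator with nonzero scalar square can be scaled to an involution. -/
theorem P7_scale [IsAlgClosed K] {W : Type*} [AddCommGroup W] [Module K W]
    {a : Module.End K W} {c : K} (hc : a * a = c • 1) (hc0 : c ≠ 0) :
    ∃ t : K, t ≠ 0 ∧ (t • a) * (t • a) = 1 := by
  obtain ⟨z, hz⟩ := IsAlgClosed.exists_pow_nat_eq c (n := 2) (by norm_num)
  have hz0 : z ≠ 0 := by
    rintro rfl
    apply hc0
    rw [← hz]; norm_num
  refine ⟨z⁻¹, inv_ne_zero hz0, ?_⟩
  rw [smul_mul_smul_comm, hc, smul_smul, ← hz]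
  field_simp
  simp

/-- Chunk P7. An irreducible space `J` of operators all of whose squares are scalar acts on a space
whose dimension is a power of two. Strong induction on `dim W`. Polarising, `w w' + w' w` is scalar,
`= 2 β(w, w')`. `β` is nondegenerate: if `β(w₀, ·) = 0`, the range of `w₀` is `J`-stable and
proper (`w₀² = 0`), so `w₀ = 0`. If `dim J ≤ 1` the algebra generated is commutative and
`dim W = 1` (an eigenvector of the generator spans a stable line). Otherwise choose
`w₁, w₂ ∈ J` with `w₁² = w₂² = 1`, `w₁ w₂ = - w₂ w₁` (algebraically closed, char ≠ 2), `θ = w₁ w₂`,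
`θ² = -1`, `i² = -1`, `W₁ = ker (θ - i)`; `w₁` maps `W₁` isomorphically onto `ker (θ + i)`, so
`dim W = 2 dim W₁`. Let `J' = {w ∈ J : β(w, w₁) = β(w, w₂) = 0}`; its elements anticommute with
`w₁, w₂`, commute with `θ`, act on `W₁`; `J = K w₁ + K w₂ + J'`. `W₁` is irreducible under `J'`:
for `0 ≠ Y ≤ W₁` stable, `Y + w₁ Y` is stable under `J'`, `w₁` and `w₂ = w₁ θ`, so it is `W` and
`Y = W₁`. Apply the induction hypothesis to the restrictions of `J'` to `W₁`. -/
theorem P7_cliff [CharZero K] [IsAlgClosed K] (n : ℕ) : ∀ (W : Type*) [AddCommGroup W]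
    [Module K W] [FiniteDimensional K W] [Nontrivial W] (J : Submodule K (Module.End K W)),
    finrank K W = n → (∀ w ∈ J, ∃ c : K, w * w = c • 1) →
    (∀ U : Submodule K W, (∀ w ∈ J, ∀ u ∈ U, w u ∈ U) → U = ⊥ ∨ U = ⊤) →
    ∃ t : ℕ, finrank K W = 2 ^ t := by
  induction n using Nat.strong_induction_on with
  | _ n ih =>
  intro W _ _ _ _ J hn hJ hirr
  by_cases hA : ∃ w₁ ∈ J, ∃ w₂ ∈ J, w₁ * w₁ = 1 ∧ w₂ * w₂ = 1 ∧ w₁ * w₂ = -(w₂ * w₁)
  · obtain ⟨w₁, hw₁, w₂, hw₂, h11, h22, h12⟩ := hA
    obtain ⟨i, hi⟩ := IsAlgClosed.exists_pow_nat_eq (-1 : K) (n := 2) (by norm_num)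
    have hi0 : i ≠ 0 := by rintro rfl; norm_num at hi
    obtain ⟨θ, hθ⟩ : ∃ θ, θ = w₁ * w₂ := ⟨_, rfl⟩
    have h21 : w₂ * w₁ = -(w₁ * w₂) := by rw [h12, neg_neg]
    have hθθ : θ * θ = -1 := by
      rw [hθ]
      calc w₁ * w₂ * (w₁ * w₂) = w₁ * (w₂ * w₁) * w₂ := by noncomm_ring
        _ = -((w₁ * w₁) * (w₂ * w₂)) := by rw [h21]; noncomm_ring
        _ = -1 := by rw [h11, h22, one_mul]
    have hw1θ : w₁ * θ = w₂ := by rw [hθ, ← mul_assoc, h11, one_mul]
    have hθw1 : θ * w₁ = -w₂ := by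
      rw [hθ, mul_assoc, h21, mul_neg, ← mul_assoc, h11, one_mul]
    obtain ⟨W₁, hW₁⟩ : ∃ W₁ : Submodule K W, W₁ = LinearMap.ker (θ - i • 1) := ⟨_, rfl⟩
    obtain ⟨W₂, hW₂⟩ : ∃ W₂ : Submodule K W, W₂ = LinearMap.ker (θ + i • 1) := ⟨_, rfl⟩
    have m1 : ∀ {v : W}, v ∈ W₁ ↔ θ v = i • v := by
      intro v
      rw [hW₁, LinearMap.mem_ker, LinearMap.sub_apply, LinearMap.smul_apply,
        Module.End.one_apply, sub_eq_zero]
    have m2 : ∀ {v : W}, v ∈ W₂ ↔ θ v = -(i • v) := by
      intro v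
      rw [hW₂, LinearMap.mem_ker, LinearMap.add_apply, LinearMap.smul_apply,
        Module.End.one_apply]
      constructor
      · intro h; exact eq_neg_of_add_eq_zero_left h
      · intro h; rw [h]; simp
    have hθv : ∀ v, θ (θ v) = -v := by
      intro v
      rw [← Module.End.mul_apply, hθθ]; rfl
    have h1v : ∀ v, w₁ (w₁ v) = v := by
      intro v
      rw [← Module.End.mul_apply, h11]; rfl
    have hθ1 : ∀ v, θ (w₁ v) = -(w₁ (θ v)) := by
      intro v
      rw [← Module.End.mul_apply, hθw1, ← Module.End.mul_apply, hw1θ]; rfl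
    have hinj : Function.Injective w₁ := by
      intro a b hab
      rw [← h1v a, hab, h1v]
    have hmap : W₁.map w₁ = W₂ := by
      ext v
      constructor
      · rintro ⟨u, hu, rfl⟩
        rw [m2, hθ1, m1.mp hu, map_smul]
      · intro hv
        refine ⟨w₁ v, ?_, h1v v⟩
        rw [SetLike.mem_coe, m1, hθ1, m2.mp hv, map_neg, neg_neg, map_smul]
    have hfin : finrank K W₁ = finrank K W₂ := by
      rw [← hmap]
      exact (Submodule.equivMapOfInjective w₁ hinj W₁).finrank_eq
    have hinf : W₁ ⊓ W₂ = ⊥ := by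
      rw [eq_bot_iff]
      rintro v ⟨hv1, hv2⟩
      have e1 := m1.mp hv1
      have e2 := m2.mp hv2
      rw [e1] at e2
      have e3 : (2 * i) • v = 0 := by
        rw [two_mul, add_smul]
        nth_rewrite 1 [e2]
        exact neg_add_cancel _
      rw [Submodule.mem_bot]
      exact (smul_eq_zero.mp e3).resolve_left (mul_ne_zero two_ne_zero hi0)
    have hsup : W₁ ⊔ W₂ = ⊤ := by
      rw [eq_top_iff]
      intro v _
      rw [Submodule.mem_sup]
      have hii : i * i = -1 := by rw [← hi]; ring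
      refine ⟨(1 / 2 : K) • (v - i • θ v), ?_, (1 / 2 : K) • (v + i • θ v), ?_, ?_⟩
      · have e1 : i • (v - i • θ v) = i • v + θ v := by
          rw [smul_sub, smul_smul, hii, neg_one_smul, sub_neg_eq_add]
        rw [m1, map_smul, map_sub, map_smul, hθv, smul_comm i, e1, smul_neg, sub_neg_eq_add,
          add_comm]
      · have e1 : i • (v + i • θ v) = i • v - θ v := by
          rw [smul_add, smul_smul, hii, neg_one_smul, ← sub_eq_add_neg]
        rw [m2, map_smul, map_add, map_smul, hθv, smul_comm i, e1]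
        module
      · rw [← smul_add]
        have : v - i • θ v + (v + i • θ v) = (2 : K) • v := by rw [two_smul]; abel
        rw [this, smul_smul]; norm_num
    have hdim : finrank K W = 2 * finrank K W₁ := by
      have := Submodule.finrank_sup_add_finrank_inf_eq W₁ W₂
      rw [hinf, hsup, finrank_bot, finrank_top, ← hfin] at this
      omega
    have hpos : 0 < finrank K W := finrank_pos
    have hW₁pos : 0 < finrank K W₁ := by omega
    have : Nontrivial W₁ := finrank_pos_iff.mp hW₁pos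
    -- the smaller space of operators
    let J' : Submodule K (Module.End K W₁) :=
      { carrier := {T | ∃ w ∈ J, w * w₁ = -(w₁ * w) ∧ w * w₂ = -(w₂ * w) ∧
          ∀ u : W₁, ((T u : W₁) : W) = w u}
        add_mem' := by
          rintro S T ⟨a, ha, a1, a2, a3⟩ ⟨b, hb, b1, b2, b3⟩
          refine ⟨a + b, J.add_mem ha hb, ?_, ?_, ?_⟩
          · rw [add_mul, a1, b1, mul_add]; abel
          · rw [add_mul, a2, b2, mul_add]; abel
          · intro u
            rw [LinearMap.add_apply, LinearMap.add_apply, Submodule.coe_add, a3, b3]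
        zero_mem' := ⟨0, J.zero_mem, by simp, by simp, by simp⟩
        smul_mem' := by
          rintro c T ⟨a, ha, a1, a2, a3⟩
          refine ⟨c • a, J.smul_mem c ha, ?_, ?_, ?_⟩
          · rw [smul_mul_assoc, a1, mul_smul_comm, smul_neg]
          · rw [smul_mul_assoc, a2, mul_smul_comm, smul_neg]
          · intro u
            rw [LinearMap.smul_apply, LinearMap.smul_apply, Submodule.coe_smul, a3] }
    have hstab : ∀ w : Module.End K W, w * w₁ = -(w₁ * w) → w * w₂ = -(w₂ * w) →
        ∀ u ∈ W₁, w u ∈ W₁ := by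
      intro w a1 a2 u hu
      have : w * θ = θ * w := by
        rw [hθ, ← mul_assoc, a1, neg_mul, mul_assoc w₁ w, a2, mul_neg, neg_neg, mul_assoc]
      rw [m1] at hu ⊢
      rw [← Module.End.mul_apply, ← this, Module.End.mul_apply, hu, map_smul]
    have hsq : ∀ w ∈ J', ∃ c : K, w * w = c • 1 := by
      rintro T ⟨w, hw, a1, a2, a3⟩
      obtain ⟨c, hc⟩ := hJ w hw
      refine ⟨c, ?_⟩
      ext u
      have : w (w u) = c • (u : W) := by
        rw [← Module.End.mul_apply, hc]; rfl
      rw [Module.End.mul_apply, a3, a3, this]; rfl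
    have hirr' : ∀ U : Submodule K W₁, (∀ w ∈ J', ∀ u ∈ U, w u ∈ U) → U = ⊥ ∨ U = ⊤ := by
      intro Y hY
      by_cases hY0 : Y = ⊥
      · exact Or.inl hY0
      right
      obtain ⟨Z, hZ⟩ : ∃ Z : Submodule K W, Z = Y.map W₁.subtype := ⟨_, rfl⟩
      have hZW : ∀ z ∈ Z, z ∈ W₁ := by
        rw [hZ]; rintro _ ⟨y, _, rfl⟩; exact y.2
      have hZst : ∀ w ∈ J, w * w₁ = -(w₁ * w) → w * w₂ = -(w₂ * w) → ∀ z ∈ Z, w z ∈ Z := by
        intro w hw a1 a2
        rw [hZ]
        rintro _ ⟨y, hy, rfl⟩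
        refine ⟨_, hY (w.restrict (hstab w a1 a2)) ⟨w, hw, a1, a2, fun u => rfl⟩ y hy, rfl⟩
      have htop : Z ⊔ Z.map w₁ = ⊤ := by
        refine (hirr _ ?_).resolve_left ?_
        · intro w hw u hu
          obtain ⟨c1, hc1⟩ := P7_polar hJ hw hw₁
          obtain ⟨c2, hc2⟩ := P7_polar hJ hw hw₂
          obtain ⟨w', hw'⟩ : ∃ w', w' = w - (c1 / 2) • w₁ - (c2 / 2) • w₂ := ⟨_, rfl⟩
          have hw'J : w' ∈ J := by
            rw [hw']
            exact J.sub_mem (J.sub_mem hw (J.smul_mem _ hw₁)) (J.smul_mem _ hw₂)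
          have a1 : w' * w₁ = -(w₁ * w') := by
            rw [eq_neg_iff_add_eq_zero, hw']
            have : (w - (c1 / 2) • w₁ - (c2 / 2) • w₂) * w₁ +
                w₁ * (w - (c1 / 2) • w₁ - (c2 / 2) • w₂) = (w * w₁ + w₁ * w) -
                (c1 / 2) • (w₁ * w₁ + w₁ * w₁) - (c2 / 2) • (w₂ * w₁ + w₁ * w₂) := by
              simp only [sub_mul, mul_sub, smul_mul_assoc, mul_smul_comm, smul_add]
              abel
            rw [this, hc1, h11, h21, neg_add_cancel, smul_zero, sub_zero, ← two_smul K, smul_smul,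
              ← sub_smul]
            rw [div_mul_cancel₀ c1 two_ne_zero, sub_self, zero_smul]
          have a2 : w' * w₂ = -(w₂ * w') := by
            rw [eq_neg_iff_add_eq_zero, hw']
            have : (w - (c1 / 2) • w₁ - (c2 / 2) • w₂) * w₂ +
                w₂ * (w - (c1 / 2) • w₁ - (c2 / 2) • w₂) = (w * w₂ + w₂ * w) -
                (c2 / 2) • (w₂ * w₂ + w₂ * w₂) - (c1 / 2) • (w₂ * w₁ + w₁ * w₂) := by
              simp only [sub_mul, mul_sub, smul_mul_assoc, mul_smul_comm, smul_add]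
              abel
            rw [this, hc2, h22, h21, neg_add_cancel, smul_zero, sub_zero, ← two_smul K, smul_smul,
              ← sub_smul]
            rw [div_mul_cancel₀ c2 two_ne_zero, sub_self, zero_smul]
          have hwe : w = w' + (c1 / 2) • w₁ + (c2 / 2) • w₂ := by rw [hw']; abel
          have s1 : ∀ z ∈ Z ⊔ Z.map w₁, w₁ z ∈ Z ⊔ Z.map w₁ := by
            intro z hz
            rw [Submodule.mem_sup] at hz
            obtain ⟨y, hy, _, ⟨x, hx, rfl⟩, rfl⟩ := hz
            rw [map_add, h1v]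
            exact add_mem (Submodule.mem_sup_right ⟨y, hy, rfl⟩) (Submodule.mem_sup_left hx)
          have s2 : ∀ z ∈ Z ⊔ Z.map w₁, θ z ∈ Z ⊔ Z.map w₁ := by
            intro z hz
            rw [Submodule.mem_sup] at hz
            obtain ⟨y, hy, _, ⟨x, hx, rfl⟩, rfl⟩ := hz
            rw [map_add, hθ1, m1.mp (hZW y hy), m1.mp (hZW x hx), map_smul]
            exact add_mem (Submodule.mem_sup_left (Z.smul_mem _ hy))
              (neg_mem (Submodule.smul_mem _ _ (Submodule.mem_sup_right ⟨x, hx, rfl⟩)))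
          have s3 : ∀ z ∈ Z ⊔ Z.map w₁, w' z ∈ Z ⊔ Z.map w₁ := by
            intro z hz
            rw [Submodule.mem_sup] at hz
            obtain ⟨y, hy, _, ⟨x, hx, rfl⟩, rfl⟩ := hz
            have e1 : w' (w₁ x) = -(w₁ (w' x)) := by
              rw [← Module.End.mul_apply, a1]; rfl
            rw [map_add, e1]
            exact add_mem (Submodule.mem_sup_left (hZst w' hw'J a1 a2 y hy))
              (neg_mem (Submodule.mem_sup_right ⟨_, hZst w' hw'J a1 a2 x hx, rfl⟩))
          rw [hwe]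
          have e2 : (w' + (c1 / 2) • w₁ + (c2 / 2) • w₂) u =
              w' u + (c1 / 2) • w₁ u + (c2 / 2) • w₁ (θ u) := by
            rw [← Module.End.mul_apply w₁ θ, hw1θ]; rfl
          rw [e2]
          exact add_mem (add_mem (s3 u hu) (Submodule.smul_mem _ _ (s1 u hu)))
            (Submodule.smul_mem _ _ (s1 _ (s2 u hu)))
        · intro h0
          apply hY0
          rw [eq_bot_iff]
          intro y hy
          have h4 : (y : W) ∈ Z ⊔ Z.map w₁ := Submodule.mem_sup_left (by rw [hZ]; exact ⟨y, hy, rfl⟩)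
          rw [h0, Submodule.mem_bot] at h4
          exact Subtype.ext h4
      rw [eq_top_iff]
      rintro ⟨u, hu⟩ -
      have hu1 : u ∈ Z ⊔ Z.map w₁ := by rw [htop]; trivial
      rw [Submodule.mem_sup] at hu1
      obtain ⟨y, hy, _, ⟨x, hx, rfl⟩, hyx⟩ := hu1
      have hx2 : w₁ x ∈ W₁ ⊓ W₂ := by
        constructor
        · have : w₁ x = u - y := by rw [← hyx]; abel
          rw [SetLike.mem_coe, this]
          exact W₁.sub_mem hu (hZW y hy)
        · rw [SetLike.mem_coe, m2, hθ1, m1.mp (hZW x hx), map_smul]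
      rw [hinf, Submodule.mem_bot] at hx2
      rw [hx2, add_zero] at hyx
      rw [hZ] at hy
      obtain ⟨y', hy', hyy⟩ := hy
      have : y' = ⟨u, hu⟩ := Subtype.ext (hyy.trans hyx)
      rwa [← this]
    obtain ⟨t, ht⟩ := ih (finrank K W₁) (by omega) W₁ J' rfl hsq hirr'
    exact ⟨t + 1, by rw [hdim, ht, pow_succ]; ring⟩
  · -- no pair
    refine ⟨0, ?_⟩
    rw [pow_zero]
    push Not at hA
    by_cases hB : ∃ w₁ ∈ J, w₁ * w₁ = 1
    · obtain ⟨w₁, hw₁, h11⟩ := hB
      refine P7_line (w₁ := w₁) hirr fun w hw => ?_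
      obtain ⟨c1, hc1⟩ := P7_polar hJ hw hw₁
      refine ⟨c1 / 2, ?_⟩
      rw [← sub_eq_zero]
      obtain ⟨w₀, hw₀⟩ : ∃ w₀, w₀ = w - (c1 / 2) • w₁ := ⟨_, rfl⟩
      have hJ₁ : ∀ v ∈ J, v * w₁ + w₁ * v = 0 → v * v = 0 := by
        intro v hv h1
        obtain ⟨c, hc⟩ := hJ v hv
        by_cases hc0 : c = 0
        · rw [hc, hc0, zero_smul]
        · exfalso
          obtain ⟨t, ht, htt⟩ := P7_scale hc hc0
          apply hA w₁ hw₁ (t • v) (J.smul_mem t hv) h11 htt
          rw [mul_smul_comm, smul_mul_assoc, ← smul_neg]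
          congr 1
          exact eq_neg_of_add_eq_zero_right h1
      have hw₀J : w₀ ∈ J := by rw [hw₀]; exact J.sub_mem hw (J.smul_mem _ hw₁)
      have hw₀1 : w₀ * w₁ + w₁ * w₀ = 0 := by
        rw [hw₀]
        have : (w - (c1 / 2) • w₁) * w₁ + w₁ * (w - (c1 / 2) • w₁) = (w * w₁ + w₁ * w) -
            (c1 / 2) • (w₁ * w₁ + w₁ * w₁) := by
          simp only [sub_mul, mul_sub, smul_mul_assoc, mul_smul_comm, smul_add]
          abel
        rw [this, hc1, h11, ← two_smul K, smul_smul, ← sub_smul, div_mul_cancel₀ c1 two_ne_zero,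
          sub_self, zero_smul]
      rw [← hw₀]
      refine P7_zero hirr (hJ₁ w₀ hw₀J hw₀1) fun v hv => ?_
      obtain ⟨c2, hc2⟩ := P7_polar hJ hv hw₁
      obtain ⟨v', hv'⟩ : ∃ v', v' = v - (c2 / 2) • w₁ := ⟨_, rfl⟩
      have hv'J : v' ∈ J := by rw [hv']; exact J.sub_mem hv (J.smul_mem _ hw₁)
      have hv'1 : v' * w₁ + w₁ * v' = 0 := by
        rw [hv']
        have : (v - (c2 / 2) • w₁) * w₁ + w₁ * (v - (c2 / 2) • w₁) = (v * w₁ + w₁ * v) -
            (c2 / 2) • (w₁ * w₁ + w₁ * w₁) := by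
          simp only [sub_mul, mul_sub, smul_mul_assoc, mul_smul_comm, smul_add]
          abel
        rw [this, hc2, h11, ← two_smul K, smul_smul, ← sub_smul, div_mul_cancel₀ c2 two_ne_zero,
          sub_self, zero_smul]
      have h3 := hJ₁ v' hv'J hv'1
      have h4 := hJ₁ w₀ hw₀J hw₀1
      have h5 := hJ₁ (v' + w₀) (J.add_mem hv'J hw₀J) (by
        rw [add_mul, mul_add]
        calc v' * w₁ + w₀ * w₁ + (w₁ * v' + w₁ * w₀) = (v' * w₁ + w₁ * v') +
              (w₀ * w₁ + w₁ * w₀) := by abel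
          _ = 0 := by rw [hv'1, hw₀1, add_zero])
      have h6 : v' * w₀ = -(w₀ * v') := by
        have : (v' + w₀) * (v' + w₀) = v' * v' + w₀ * w₀ + (v' * w₀ + w₀ * v') := by noncomm_ring
        rw [this, h3, h4, zero_add, zero_add] at h5
        exact eq_neg_of_add_eq_zero_left h5
      refine ⟨-v' - (c2 / 2) • w₁, ?_⟩
      have h7 : v = v' + (c2 / 2) • w₁ := by rw [hv']; abel
      rw [h7, add_mul, h6, smul_mul_assoc, eq_neg_of_add_eq_zero_right hw₀1, mul_sub, mul_neg,
        mul_smul_comm, smul_neg, sub_eq_add_neg]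
    · push Not at hB
      have h0 : ∀ v ∈ J, v * v = 0 := by
        intro v hv
        obtain ⟨c, hc⟩ := hJ v hv
        by_cases hc0 : c = 0
        · rw [hc, hc0, zero_smul]
        · exfalso
          obtain ⟨t, ht, htt⟩ := P7_scale hc hc0
          exact hB _ (J.smul_mem t hv) htt
      refine P7_line (w₁ := 0) hirr fun w hw => ⟨0, ?_⟩
      rw [smul_zero]
      refine P7_zero hirr (h0 w hw) fun v hv => ⟨-v, ?_⟩
      have h5 := h0 _ (J.add_mem hv hw)
      have : (v + w) * (v + w) = v * v + w * w + (v * w + w * v) := by noncomm_ring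
      rw [this, h0 v hv, h0 w hw, zero_add, zero_add] at h5
      rw [mul_neg]
      exact eq_neg_of_add_eq_zero_left h5

end Pool.Agent.H49M
end

-- from Lib.H76U.SL
section

/-!
# The special linear group is generated by transvections
-/

set_option autoImplicit false
namespace Pool.Agent.H76U
open Matrix

variable {n : Type*} [Fintype n] [DecidableEq n] {K : Type*} [Field K]

/-- `diag(a, 1/a)` in the plane of two basis vectors -/
theorem plane_diag {i j : n} (hij : i ≠ j) {a : K} (ha : a ≠ 0) :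
    (transvection i j a * transvection j i (-a⁻¹) * transvection i j a) *
      (transvection i j (-1) * transvection j i 1 * transvection i j (-1)) =
    diagonal (fun k => if k = i then a else if k = j then a⁻¹ else 1) := by
  set E : Matrix n n K := single i j 1 with hE
  set F : Matrix n n K := single j i 1 with hF
  have hEE : E * E = 0 := by rw [hE, single_mul_single_of_ne _ _ _ _ (Ne.symm hij)]
  have hFF : F * F = 0 := by rw [hF, single_mul_single_of_ne _ _ _ _ hij]
  have t1 : ∀ c : K, transvection i j c = 1 + c • E := by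
    intro c
    rw [transvection, hE, smul_single, smul_eq_mul, mul_one]
  have t2 : ∀ c : K, transvection j i c = 1 + c • F := by
    intro c
    rw [transvection, hF, smul_single, smul_eq_mul, mul_one]
  have hEFE : E * F * E = E := by
    rw [hE, hF, single_mul_single_same, single_mul_single_same]; simp
  have hFEF : F * E * F = F := by
    rw [hE, hF, single_mul_single_same, single_mul_single_same]; simp
  have hw : ∀ c : K, c ≠ 0 → (1 + c • E) * (1 + (-c⁻¹) • F) * (1 + c • E) =
      1 - E * F - F * E + c • E - c⁻¹ • F := by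
    intro c hc
    have e1 : (1 + c • E) * (1 + (-c⁻¹) • F) * (1 + c • E) =
        1 + (c + c) • E + (-c⁻¹) • F + (c * -c⁻¹) • (E * F) + (-c⁻¹ * c) • (F * E) +
        (c * -c⁻¹ * c) • (E * F * E) + (c * c) • (E * E) := by
      simp only [add_mul, mul_add, one_mul, mul_one, smul_mul_assoc, mul_smul_comm, smul_smul]
      module
    rw [e1, hEE, hEFE]
    have e2 : c * -c⁻¹ = -1 := by field_simp
    have e3 : -c⁻¹ * c = -1 := by field_simp
    rw [e2, e3]
    module
  have hw1 : (1 + (-1 : K) • E) * (1 + (1 : K) • F) * (1 + (-1 : K) • E) =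
      1 - E * F - F * E - E + F := by
    have := hw (-1) (by norm_num)
    have e1 : -((-1 : K))⁻¹ = 1 := by norm_num
    have e2 : ((-1 : K))⁻¹ = -1 := by norm_num
    rw [e1, e2] at this
    rw [this]
    module
  rw [t1, t2, t1, t2, hw a ha, hw1]
  have hprod : (1 - E * F - F * E + a • E - a⁻¹ • F) * (1 - E * F - F * E - E + F) =
      1 - E * F - F * E + a • (E * F) + a⁻¹ • (F * E) := by
    have r1 : E * F * (E * F) = E * F := by rw [← mul_assoc, hEFE]
    have r2 : F * E * (F * E) = F * E := by rw [← mul_assoc, hFEF]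
    have r3 : E * F * (F * E) = 0 := by rw [mul_assoc, ← mul_assoc F F E, hFF]; simp
    have r4 : F * E * (E * F) = 0 := by rw [mul_assoc, ← mul_assoc E E F, hEE]; simp
    have r5 : E * (E * F) = 0 := by rw [← mul_assoc, hEE, zero_mul]
    have r6 : E * (F * E) = E := by rw [← mul_assoc, hEFE]
    have r7 : F * (E * F) = F := by rw [← mul_assoc, hFEF]
    have r8 : F * (F * E) = 0 := by rw [← mul_assoc, hFF, zero_mul]
    have r9 : E * F * E = E := hEFE
    have r10 : F * E * F = F := hFEF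
    have r11 : E * F * F = 0 := by rw [mul_assoc, hFF, mul_zero]
    have r12 : F * E * E = 0 := by rw [mul_assoc, hEE, mul_zero]
    simp only [sub_mul, add_mul, mul_sub, mul_add, one_mul, mul_one, smul_mul_assoc,
      r1, r2, r3, r4, r5, r6, r7, r8, r9, r10, r11, r12, hEE, hFF]
    module
  rw [hprod]
  have hEF : E * F = single i i 1 := by rw [hE, hF, single_mul_single_same, mul_one]
  have hFE : F * E = single j j 1 := by rw [hE, hF, single_mul_single_same, mul_one]
  rw [hEF, hFE]
  ext x y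
  by_cases hxy : x = y
  · subst hxy
    rw [diagonal_apply_eq]
    simp only [Matrix.add_apply, Matrix.sub_apply, Matrix.smul_apply, Matrix.one_apply_eq,
      single_apply, smul_eq_mul]
    by_cases h1 : x = i
    · subst h1
      simp [Ne.symm hij]
    · by_cases h2 : x = j
      · subst h2
        simp [Ne.symm hij, h1, hij]
      · simp [h1, h2, Ne.symm h1, Ne.symm h2]
  · rw [diagonal_apply_ne _ hxy]
    simp only [Matrix.add_apply, Matrix.sub_apply, Matrix.smul_apply, Matrix.one_apply_ne hxy,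
      single_apply, smul_eq_mul]
    have h1 : ¬ (i = x ∧ i = y) := fun h => hxy (h.1.symm.trans h.2)
    have h2 : ¬ (j = x ∧ j = y) := fun h => hxy (h.1.symm.trans h.2)
    simp [h1, h2]

open scoped Classical in
theorem diag_mem {Z : Set (Matrix n n K)} (h1 : (1 : Matrix n n K) ∈ Z)
    (hmul : ∀ a ∈ Z, ∀ b ∈ Z, a * b ∈ Z)
    (htr : ∀ i j, i ≠ j → ∀ c : K, transvection i j c ∈ Z) (k : ℕ) :
    ∀ D : n → K, ∏ i, D i = 1 → (Finset.univ.filter fun i => D i ≠ 1).card ≤ k →
      diagonal D ∈ Z := by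
  induction k with
  | zero =>
    intro D _ hk
    have hD1 : D = fun _ => 1 := by
      funext i
      by_contra hne
      have : i ∈ Finset.univ.filter fun i => D i ≠ 1 :=
        Finset.mem_filter.2 ⟨Finset.mem_univ i, hne⟩
      have h2 := Finset.card_pos.2 ⟨i, this⟩
      omega
    rw [hD1, diagonal_one]; exact h1
  | succ k ih =>
    intro D hD hk
    by_cases hall : ∀ i, D i = 1
    · have hD1 : D = fun _ => 1 := funext hall
      rw [hD1, diagonal_one]; exact h1
    push Not at hall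
    obtain ⟨i, hi⟩ := hall
    obtain ⟨j, hji, hj⟩ : ∃ j, j ≠ i ∧ D j ≠ 1 := by
      by_contra hcon
      push Not at hcon
      apply hi
      rw [Finset.prod_eq_single i (fun j _ hji => hcon j hji) (fun h => absurd
        (Finset.mem_univ i) h)] at hD
      exact hD
    have hi0 : D i ≠ 0 := by
      intro h0
      rw [Finset.prod_eq_zero (Finset.mem_univ i) h0] at hD
      exact zero_ne_one hD
    set D₁ : n → K := fun k => if k = i then D i else if k = j then (D i)⁻¹ else 1 with hD₁
    set D₂ : n → K := fun k => if k = i then 1 else if k = j then D j * D i else D k with hD₂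
    have hprod : diagonal D = diagonal D₁ * diagonal D₂ := by
      rw [diagonal_mul_diagonal]
      congr 1
      funext k
      simp only [hD₁, hD₂]
      by_cases h2 : k = i
      · simp [h2]
      · by_cases h3 : k = j
        · simp only [h3, hji, if_false, if_true]
          field_simp
        · simp [h2, h3]
    have hZ₁ : diagonal D₁ ∈ Z := by
      rw [hD₁, ← plane_diag (Ne.symm hji) hi0]
      refine hmul _ (hmul _ (hmul _ (htr _ _ (Ne.symm hji) _) _ (htr _ _ hji _)) _
        (htr _ _ (Ne.symm hji) _)) _ (hmul _ (hmul _ (htr _ _ (Ne.symm hji) _) _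
        (htr _ _ hji _)) _ (htr _ _ (Ne.symm hji) _))
    have hdet : ∏ k, D₂ k = 1 := by
      have h4 := congrArg Matrix.det hprod
      rw [Matrix.det_mul, Matrix.det_diagonal, Matrix.det_diagonal, Matrix.det_diagonal,
        hD] at h4
      have h5 : ∏ k, D₁ k = 1 := by
        have h6 : ∀ k, D₁ k = (if k = i then D i else 1) * (if k = j then (D i)⁻¹ else 1) := by
          intro k
          simp only [hD₁]
          by_cases h7 : k = i
          · subst h7
            simp [Ne.symm hji]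
          · simp [h7]
        simp only [h6]
        rw [Finset.prod_mul_distrib, Finset.prod_ite_eq', Finset.prod_ite_eq']
        simp [hi0]
      rw [h5, one_mul] at h4
      exact h4.symm
    rw [hprod]
    apply hmul _ hZ₁
    apply ih D₂ hdet
    have hlt : (Finset.univ.filter fun k => D₂ k ≠ 1) ⊂ Finset.univ.filter fun k => D k ≠ 1 := by
      refine Finset.ssubset_iff_subset_ne.2 ⟨?_, ?_⟩
      · intro k hk
        rw [Finset.mem_filter] at hk ⊢
        refine ⟨hk.1, ?_⟩
        have h8 := hk.2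
        simp only [hD₂] at h8
        by_cases h9 : k = i
        · rw [h9]; exact hi
        · by_cases h10 : k = j
          · rw [h10]; exact hj
          · simpa [h9, h10] using h8
      · intro heq
        have h8 : i ∈ Finset.univ.filter fun k => D k ≠ 1 :=
          Finset.mem_filter.2 ⟨Finset.mem_univ i, hi⟩
        rw [← heq, Finset.mem_filter] at h8
        apply h8.2
        simp [hD₂]
    have := Finset.card_lt_card hlt
    omega

/-- The special linear group is generated by transvections. -/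
theorem sl_gen {Z : Set (Matrix n n K)} (h1 : (1 : Matrix n n K) ∈ Z)
    (hmul : ∀ a ∈ Z, ∀ b ∈ Z, a * b ∈ Z)
    (htr : ∀ i j, i ≠ j → ∀ c : K, transvection i j c ∈ Z) {M : Matrix n n K}
    (hM : M.det = 1) : M ∈ Z := by
  obtain ⟨L, L', D, hLD⟩ := Matrix.Pivot.exists_list_transvec_mul_diagonal_mul_list_transvec M
  have hL : ∀ L : List (TransvectionStruct n K), (L.map TransvectionStruct.toMatrix).prod ∈ Z := by
    intro L
    induction L with
    | nil => simpa using h1
    | cons t L ih =>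
      rw [List.map_cons, List.prod_cons]
      exact hmul _ (htr _ _ t.hij _) _ ih
  rw [hLD]
  refine hmul _ (hmul _ (hL L) _ ?_) _ (hL L')
  apply diag_mem h1 hmul htr _ D ?_ le_rfl
  have h2 := congrArg Matrix.det hLD
  rw [hM, Matrix.det_mul, Matrix.det_mul, TransvectionStruct.det_toMatrix_prod,
    TransvectionStruct.det_toMatrix_prod, one_mul, mul_one, Matrix.det_diagonal] at h2
  exact h2.symm

end Pool.Agent.H76U
end

-- from Lib.H76U.Chars
section

/-!
# Points of a subtorus: divisibility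
-/

set_option autoImplicit false
set_option linter.unusedSectionVars false
namespace Pool.Agent.H76U

theorem baer_units (K : Type*) [Field K] [IsAlgClosed K] : Module.Baer ℤ (Additive Kˣ) := by
  letI : DivisibleBy (Additive Kˣ) ℤ := by
    apply divisibleByOfSMulRightSurj
    intro n hn a
    obtain ⟨a, rfl⟩ := Additive.ofMul.surjective a
    have hroot : ∀ n : ℕ, n ≠ 0 → ∃ z : Kˣ, z ^ n = a := by
      intro n hn
      obtain ⟨z, hz⟩ := IsAlgClosed.exists_pow_nat_eq (a : K) (Nat.pos_of_ne_zero hn)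
      have hz0 : z ≠ 0 := by
        rintro rfl
        rw [zero_pow hn] at hz
        exact a.ne_zero hz.symm
      exact ⟨Units.mk0 z hz0, Units.ext (by rw [Units.val_pow_eq_pow_val]; exact hz)⟩
    obtain ⟨z, hz⟩ := hroot n.natAbs (Int.natAbs_ne_zero.2 hn)
    rcases Int.natAbs_eq n with h | h
    · refine ⟨Additive.ofMul z, ?_⟩
      change n • Additive.ofMul z = _
      rw [h, ← ofMul_zpow, zpow_natCast, hz]
    · refine ⟨Additive.ofMul z⁻¹, ?_⟩
      change n • Additive.ofMul z⁻¹ = _
      rw [h, ← ofMul_zpow, zpow_neg, inv_zpow, inv_inv, zpow_natCast, hz]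
  exact Module.Baer.of_divisible _

theorem solve_chars {K : Type*} [Field K] [IsAlgClosed K] {B : Type*} [Fintype B] [DecidableEq B]
    {σ : Type*} [Fintype σ] [DecidableEq σ] (n : σ → B → ℤ) (δ : B → Kˣ)
    (h : ∀ a : B → ℤ, (∀ s, ∑ b, a b * n s b = 0) → ∏ b, δ b ^ a b = 1) :
    ∃ t : σ → Kˣ, ∀ b, δ b = ∏ s, t s ^ n s b := by
  let Φ : (B → ℤ) →+ (σ → ℤ) :=
    { toFun := fun a s => ∑ b, a b * n s b
      map_zero' := by
        funext s
        simp
      map_add' := by
        intro a a'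
        funext s
        simp only [Pi.add_apply, add_mul, Finset.sum_add_distrib] }
  let g : (B → ℤ) →+ Additive Kˣ :=
    { toFun := fun a => Additive.ofMul (∏ b, δ b ^ a b)
      map_zero' := by simp
      map_add' := by
        intro a a'
        rw [← ofMul_mul, ← Finset.prod_mul_distrib]
        simp only [Pi.add_apply, zpow_add] }
  have hker : Φ.rangeRestrict.ker ≤ g.ker := by
    intro a ha
    rw [AddMonoidHom.mem_ker] at ha ⊢
    have h1 : Φ a = 0 := congrArg Subtype.val ha
    change Additive.ofMul (∏ b, δ b ^ a b) = 0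
    rw [h a (fun s => congrFun h1 s)]
    rfl
  set g' := Φ.rangeRestrict.liftOfSurjective Φ.rangeRestrict_surjective ⟨g, hker⟩ with hg'
  have hg'a : ∀ a, g' (Φ.rangeRestrict a) = g a := fun a =>
    Φ.rangeRestrict.liftOfRightInverse_comp_apply _ _ ⟨g, hker⟩ a
  obtain ⟨E, hE⟩ := (baer_units K).extension_property_addMonoidHom Φ.range.subtype
    Subtype.val_injective g'
  refine ⟨fun s => (E (Pi.single s 1)).toMul, fun b => ?_⟩
  have h1 : g (Pi.single b 1) = Additive.ofMul (δ b) := by
    change Additive.ofMul (∏ c, δ c ^ (Pi.single b 1 : B → ℤ) c) = _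
    rw [Finset.prod_eq_single b]
    · rw [Pi.single_eq_same, zpow_one]
    · intro c _ hc
      rw [Pi.single_eq_of_ne hc, zpow_zero]
    · intro hb
      exact absurd (Finset.mem_univ b) hb
  have h2 : g (Pi.single b 1) = E (Φ (Pi.single b 1)) := by
    rw [← hg'a, ← hE]; rfl
  have h3 : Φ (Pi.single b 1) = fun s => n s b := by
    funext s
    change ∑ c, (Pi.single b 1 : B → ℤ) c * n s c = n s b
    rw [Finset.sum_eq_single b]
    · rw [Pi.single_eq_same, one_mul]
    · intro c _ hc
      rw [Pi.single_eq_of_ne hc, zero_mul]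
    · intro hb
      exact absurd (Finset.mem_univ b) hb
  have h4 : (fun s => n s b) = ∑ s, n s b • (Pi.single s 1 : σ → ℤ) := by
    funext s
    rw [Finset.sum_apply, Finset.sum_eq_single s]
    · simp
    · intro c _ hc
      rw [Pi.smul_apply, Pi.single_eq_of_ne (Ne.symm hc), smul_zero]
    · intro hb
      exact absurd (Finset.mem_univ s) hb
  rw [h3, h4, map_sum] at h2
  simp only [map_zsmul] at h2
  rw [h1] at h2
  apply Additive.ofMul.injective
  rw [h2, ofMul_prod]
  apply Finset.sum_congr rfl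
  intro s _
  rw [ofMul_zpow]
  rfl

end Pool.Agent.H76U
end

-- from Lib.H76U.Factor
section

/-!
# Factorisation of idempotent matrices
-/

set_option autoImplicit false
namespace Pool.Agent.H76U
open Matrix Module

variable {ι : Type*} [Fintype ι] [DecidableEq ι] {K : Type*} [Field K]

theorem idem_factor {p : Matrix ι ι K} (hp : p * p = p) :
    ∃ (P : Matrix ι (Fin p.rank) K) (Q : Matrix (Fin p.rank) ι K), p = P * Q ∧ Q * P = 1 := by
  set W := LinearMap.range p.mulVecLin with hW
  have hfin : finrank K W = p.rank := rfl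
  set bs : Basis (Fin p.rank) K W := Module.finBasisOfFinrankEq K W hfin with hbs
  set P : Matrix ι (Fin p.rank) K := Matrix.of fun i j => (bs j).1 i with hP
  set Q : Matrix (Fin p.rank) ι K :=
    Matrix.of fun j i => bs.repr ⟨p *ᵥ Pi.single i 1, ⟨Pi.single i 1, rfl⟩⟩ j with hQ
  have hpb : ∀ j, p *ᵥ (bs j).1 = (bs j).1 := by
    intro j
    obtain ⟨z, hz⟩ := (bs j).2
    rw [← hz, Matrix.mulVecLin_apply, Matrix.mulVec_mulVec, hp]
  have hPQ : p = P * Q := by
    ext i k
    rw [Matrix.mul_apply]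
    have h1 := congrArg Subtype.val (bs.sum_repr ⟨p *ᵥ Pi.single k 1, ⟨Pi.single k 1, rfl⟩⟩)
    rw [Submodule.coe_sum] at h1
    have h2 := congrFun h1 i
    rw [Finset.sum_apply] at h2
    have h3 : (p *ᵥ Pi.single k 1) i = p i k := by
      rw [Matrix.mulVec_single_one]; rfl
    rw [← h3]
    change (p *ᵥ Pi.single k 1) i = _
    have h4 : (⟨p *ᵥ Pi.single k 1, ⟨Pi.single k 1, rfl⟩⟩ : W).1 = p *ᵥ Pi.single k 1 := rfl
    rw [← h4, ← h2]
    apply Finset.sum_congr rfl
    intro j _
    simp only [hP, hQ, Matrix.of_apply, Submodule.coe_smul, Pi.smul_apply, smul_eq_mul]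
    rw [mul_comm]
  refine ⟨P, Q, hPQ, ?_⟩
  -- `P` is injective
  have hinj : ∀ v : Fin p.rank → K, P *ᵥ v = 0 → v = 0 := by
    intro v hv
    have h1 : ∑ j, v j • bs j = 0 := by
      apply Subtype.ext
      rw [Submodule.coe_sum]
      funext i
      have h2 := congrFun hv i
      rw [Matrix.mulVec, dotProduct] at h2
      rw [Finset.sum_apply]
      simp only [Submodule.coe_smul, Pi.smul_apply, smul_eq_mul]
      have h5 : ((0 : W) : ι → K) i = (0 : ι → K) i := rfl
      rw [h5, ← h2]
      apply Finset.sum_congr rfl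
      intro j _
      simp only [hP, Matrix.of_apply]
      ring
    have h2 := Fintype.linearIndependent_iff.1 bs.linearIndependent v h1
    funext j
    exact h2 j
  have hpP : p * P = P := by
    ext i j
    have := congrFun (hpb j) i
    rw [Matrix.mul_apply]
    rw [Matrix.mulVec, dotProduct] at this
    exact this
  set R : Matrix (Fin p.rank) (Fin p.rank) K := Q * P - 1 with hR
  have h3 : P * R = 0 := by
    rw [hR, Matrix.mul_sub, ← Matrix.mul_assoc, ← hPQ, hpP, Matrix.mul_one, sub_self]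
  rw [← sub_eq_zero, ← hR]
  ext i j
  have h4 := hinj (fun k => R k j) (by
    funext k
    have := congrFun (congrFun h3 k) j
    rw [Matrix.mul_apply] at this
    rw [Matrix.mulVec, dotProduct]
    exact this)
  exact congrFun h4 i

/-- determinant of `1 + (t - 1) p` -/
theorem det_one_add_idem {p : Matrix ι ι K} (hp : p * p = p) (t : K) :
    (1 + (t - 1) • p).det = t ^ p.rank := by
  obtain ⟨P, Q, hPQ, hQP⟩ := idem_factor hp
  have h1 : 1 + (t - 1) • p = 1 + ((t - 1) • P) * Q := by
    rw [Matrix.smul_mul, ← hPQ]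
  rw [h1, Matrix.det_one_add_mul_comm, Matrix.mul_smul, hQP]
  have h2 : (1 : Matrix (Fin p.rank) (Fin p.rank) K) + (t - 1) • 1 = t • 1 := by
    rw [sub_smul, one_smul]; abel
  rw [h2, Matrix.det_smul, Matrix.det_one, mul_one, Fintype.card_fin]

/-- determinant on the range of an idempotent -/
theorem det_on {p : Matrix ι ι K} {n : ℕ} {P : Matrix ι (Fin n) K} {Q : Matrix (Fin n) ι K}
    (hPQ : p = P * Q) (hQP : Q * P = 1) {x : Matrix ι ι K} (hx : x * p = p * x) :
    (1 - p + x * p).det = (Q * x * P).det := by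
  have h1 : x * p = P * (Q * x * P) * Q := by
    have h2 : P * (Q * x * P) * Q = (P * Q) * x * (P * Q) := by
      simp only [Matrix.mul_assoc]
    have hp : p * p = p := by
      rw [hPQ, Matrix.mul_assoc, ← Matrix.mul_assoc Q, hQP, Matrix.one_mul]
    rw [h2, ← hPQ, ← hx, mul_assoc, hp]
  have h3 : 1 - p + x * p = 1 + (P * (Q * x * P - 1)) * Q := by
    rw [h1, Matrix.mul_sub, Matrix.sub_mul, Matrix.mul_one, ← hPQ]
    abel
  rw [h3, Matrix.det_one_add_mul_comm, ← Matrix.mul_assoc, hQP, Matrix.one_mul]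
  congr 1
  abel

end Pool.Agent.H76U
end

-- from Lib.H49M.P7s
section

/-!
# P7s: irreducible Clifford modules with a form
-/

set_option autoImplicit false
set_option linter.unusedSectionVars false
namespace Pool.Agent.H49M
open Module

variable {K : Type*} [Field K]

/-- On a line a nonzero form is symmetric. -/
theorem P7s_line {W : Type*} [AddCommGroup W] [Module K W] (h1 : finrank K W = 1)
    {b : W →ₗ[K] W →ₗ[K] K} (hb : b ≠ 0) {ε : K} (hε : ∀ v w, b v w = ε * b w v) : ε = 1 := by
  obtain ⟨v, hv, hspan⟩ := finrank_eq_one_iff'.1 h1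
  have h2 : b v v ≠ 0 := by
    intro h0
    apply hb
    ext x y
    obtain ⟨c, rfl⟩ := hspan x
    obtain ⟨d, rfl⟩ := hspan y
    simp [h0]
  have h3 := hε v v
  have h4 : (ε - 1) * b v v = 0 := by rw [sub_mul, one_mul, ← h3, sub_self]
  exact sub_eq_zero.1 ((mul_eq_zero.1 h4).resolve_right h2)

/-- The radical is trivial. -/
theorem P7s_rad {W : Type*} [AddCommGroup W] [Module K W] {J : Submodule K (Module.End K W)}
    (hirr : ∀ U : Submodule K W, (∀ w ∈ J, ∀ u ∈ U, w u ∈ U) → U = ⊥ ∨ U = ⊤)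
    {b : W →ₗ[K] W →ₗ[K] K} (hb : b ≠ 0) {δ : K}
    (hδ : ∀ c ∈ J, ∀ v w, b (c v) w = δ * b v (c w)) {v : W} (hv : ∀ w, b v w = 0) : v = 0 := by
  rcases hirr (LinearMap.ker b) (by
    intro c hc u hu
    rw [LinearMap.mem_ker] at hu ⊢
    ext w
    rw [hδ c hc, hu, LinearMap.zero_apply, mul_zero, LinearMap.zero_apply]) with h1 | h1
  · have h2 : v ∈ LinearMap.ker b := by
      rw [LinearMap.mem_ker]
      ext w
      exact hv w
    rw [h1, Submodule.mem_bot] at h2
    exact h2
  · exact absurd (LinearMap.ker_eq_top.1 h1) hb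

/-- Chunk P7s. As `P7_cliff`, with a form for which the operators are self-adjoint or skew. Step:
`b₁ (v, w) = b (v, w₁ w)` on `W₁`; `W₁` is isotropic for `b` because `b (θ v, w) = - b (v, θ w)`. -/
theorem P7_sign [CharZero K] [IsAlgClosed K] (n : ℕ) : ∀ (W : Type*) [AddCommGroup W]
    [Module K W] [FiniteDimensional K W] [Nontrivial W] (J : Submodule K (Module.End K W)),
    finrank K W = n → (∀ w ∈ J, ∃ c : K, w * w = c • 1) →
    (∀ U : Submodule K W, (∀ w ∈ J, ∀ u ∈ U, w u ∈ U) → U = ⊥ ∨ U = ⊤) →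
    ∀ (b : W →ₗ[K] W →ₗ[K] K) (ε δ : K), b ≠ 0 → (∀ v w, b v w = ε * b w v) →
    (∀ c ∈ J, ∀ v w, b (c v) w = δ * b v (c w)) → δ * δ = 1 →
    ∃ t : ℕ, finrank K W = 2 ^ t ∧ ε * δ ^ t * (-1) ^ (t.choose 2) = 1 := by
  induction n using Nat.strong_induction_on with
  | _ n ih =>
  intro W _ _ _ _ J hn hJ hirr b ε δ hb hε hδ hδδ
  by_cases hA : ∃ w₁ ∈ J, ∃ w₂ ∈ J, w₁ * w₁ = 1 ∧ w₂ * w₂ = 1 ∧ w₁ * w₂ = -(w₂ * w₁)
  · obtain ⟨w₁, hw₁, w₂, hw₂, h11, h22, h12⟩ := hA
    obtain ⟨i, hi⟩ := IsAlgClosed.exists_pow_nat_eq (-1 : K) (n := 2) (by norm_num)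
    have hi0 : i ≠ 0 := by rintro rfl; norm_num at hi
    obtain ⟨θ, hθ⟩ : ∃ θ, θ = w₁ * w₂ := ⟨_, rfl⟩
    have h21 : w₂ * w₁ = -(w₁ * w₂) := by rw [h12, neg_neg]
    have hθθ : θ * θ = -1 := by
      rw [hθ]
      calc w₁ * w₂ * (w₁ * w₂) = w₁ * (w₂ * w₁) * w₂ := by noncomm_ring
        _ = -((w₁ * w₁) * (w₂ * w₂)) := by rw [h21]; noncomm_ring
        _ = -1 := by rw [h11, h22, one_mul]
    have hw1θ : w₁ * θ = w₂ := by rw [hθ, ← mul_assoc, h11, one_mul]
    have hθw1 : θ * w₁ = -w₂ := by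
      rw [hθ, mul_assoc, h21, mul_neg, ← mul_assoc, h11, one_mul]
    obtain ⟨W₁, hW₁⟩ : ∃ W₁ : Submodule K W, W₁ = LinearMap.ker (θ - i • 1) := ⟨_, rfl⟩
    obtain ⟨W₂, hW₂⟩ : ∃ W₂ : Submodule K W, W₂ = LinearMap.ker (θ + i • 1) := ⟨_, rfl⟩
    have m1 : ∀ {v : W}, v ∈ W₁ ↔ θ v = i • v := by
      intro v
      rw [hW₁, LinearMap.mem_ker, LinearMap.sub_apply, LinearMap.smul_apply,
        Module.End.one_apply, sub_eq_zero]
    have m2 : ∀ {v : W}, v ∈ W₂ ↔ θ v = -(i • v) := by
      intro v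
      rw [hW₂, LinearMap.mem_ker, LinearMap.add_apply, LinearMap.smul_apply,
        Module.End.one_apply]
      constructor
      · intro h; exact eq_neg_of_add_eq_zero_left h
      · intro h; rw [h]; simp
    have hθv : ∀ v, θ (θ v) = -v := by
      intro v
      rw [← Module.End.mul_apply, hθθ]; rfl
    have h1v : ∀ v, w₁ (w₁ v) = v := by
      intro v
      rw [← Module.End.mul_apply, h11]; rfl
    have hθ1 : ∀ v, θ (w₁ v) = -(w₁ (θ v)) := by
      intro v
      rw [← Module.End.mul_apply, hθw1, ← Module.End.mul_apply, hw1θ]; rfl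
    have hinj : Function.Injective w₁ := by
      intro a b hab
      rw [← h1v a, hab, h1v]
    have hmap : W₁.map w₁ = W₂ := by
      ext v
      constructor
      · rintro ⟨u, hu, rfl⟩
        rw [m2, hθ1, m1.mp hu, map_smul]
      · intro hv
        refine ⟨w₁ v, ?_, h1v v⟩
        rw [SetLike.mem_coe, m1, hθ1, m2.mp hv, map_neg, neg_neg, map_smul]
    have hfin : finrank K W₁ = finrank K W₂ := by
      rw [← hmap]
      exact (Submodule.equivMapOfInjective w₁ hinj W₁).finrank_eq
    have hinf : W₁ ⊓ W₂ = ⊥ := by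
      rw [eq_bot_iff]
      rintro v ⟨hv1, hv2⟩
      have e1 := m1.mp hv1
      have e2 := m2.mp hv2
      rw [e1] at e2
      have e3 : (2 * i) • v = 0 := by
        rw [two_mul, add_smul]
        nth_rewrite 1 [e2]
        exact neg_add_cancel _
      rw [Submodule.mem_bot]
      exact (smul_eq_zero.mp e3).resolve_left (mul_ne_zero two_ne_zero hi0)
    have hsup : W₁ ⊔ W₂ = ⊤ := by
      rw [eq_top_iff]
      intro v _
      rw [Submodule.mem_sup]
      have hii : i * i = -1 := by rw [← hi]; ring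
      refine ⟨(1 / 2 : K) • (v - i • θ v), ?_, (1 / 2 : K) • (v + i • θ v), ?_, ?_⟩
      · have e1 : i • (v - i • θ v) = i • v + θ v := by
          rw [smul_sub, smul_smul, hii, neg_one_smul, sub_neg_eq_add]
        rw [m1, map_smul, map_sub, map_smul, hθv, smul_comm i, e1, smul_neg, sub_neg_eq_add,
          add_comm]
      · have e1 : i • (v + i • θ v) = i • v - θ v := by
          rw [smul_add, smul_smul, hii, neg_one_smul, ← sub_eq_add_neg]
        rw [m2, map_smul, map_add, map_smul, hθv, smul_comm i, e1]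
        module
      · rw [← smul_add]
        have : v - i • θ v + (v + i • θ v) = (2 : K) • v := by rw [two_smul]; abel
        rw [this, smul_smul]; norm_num
    have hdim : finrank K W = 2 * finrank K W₁ := by
      have := Submodule.finrank_sup_add_finrank_inf_eq W₁ W₂
      rw [hinf, hsup, finrank_bot, finrank_top, ← hfin] at this
      omega
    have hpos : 0 < finrank K W := finrank_pos
    have hW₁pos : 0 < finrank K W₁ := by omega
    have : Nontrivial W₁ := finrank_pos_iff.mp hW₁pos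
    -- the smaller space of operators
    let J' : Submodule K (Module.End K W₁) :=
      { carrier := {T | ∃ w ∈ J, w * w₁ = -(w₁ * w) ∧ w * w₂ = -(w₂ * w) ∧
          ∀ u : W₁, ((T u : W₁) : W) = w u}
        add_mem' := by
          rintro S T ⟨a, ha, a1, a2, a3⟩ ⟨b, hb, b1, b2, b3⟩
          refine ⟨a + b, J.add_mem ha hb, ?_, ?_, ?_⟩
          · rw [add_mul, a1, b1, mul_add]; abel
          · rw [add_mul, a2, b2, mul_add]; abel
          · intro u
            rw [LinearMap.add_apply, LinearMap.add_apply, Submodule.coe_add, a3, b3]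
        zero_mem' := ⟨0, J.zero_mem, by simp, by simp, by simp⟩
        smul_mem' := by
          rintro c T ⟨a, ha, a1, a2, a3⟩
          refine ⟨c • a, J.smul_mem c ha, ?_, ?_, ?_⟩
          · rw [smul_mul_assoc, a1, mul_smul_comm, smul_neg]
          · rw [smul_mul_assoc, a2, mul_smul_comm, smul_neg]
          · intro u
            rw [LinearMap.smul_apply, LinearMap.smul_apply, Submodule.coe_smul, a3] }
    have hstab : ∀ w : Module.End K W, w * w₁ = -(w₁ * w) → w * w₂ = -(w₂ * w) →
        ∀ u ∈ W₁, w u ∈ W₁ := by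
      intro w a1 a2 u hu
      have : w * θ = θ * w := by
        rw [hθ, ← mul_assoc, a1, neg_mul, mul_assoc w₁ w, a2, mul_neg, neg_neg, mul_assoc]
      rw [m1] at hu ⊢
      rw [← Module.End.mul_apply, ← this, Module.End.mul_apply, hu, map_smul]
    have hsq : ∀ w ∈ J', ∃ c : K, w * w = c • 1 := by
      rintro T ⟨w, hw, a1, a2, a3⟩
      obtain ⟨c, hc⟩ := hJ w hw
      refine ⟨c, ?_⟩
      ext u
      have : w (w u) = c • (u : W) := by
        rw [← Module.End.mul_apply, hc]; rfl
      rw [Module.End.mul_apply, a3, a3, this]; rfl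
    have hirr' : ∀ U : Submodule K W₁, (∀ w ∈ J', ∀ u ∈ U, w u ∈ U) → U = ⊥ ∨ U = ⊤ := by
      intro Y hY
      by_cases hY0 : Y = ⊥
      · exact Or.inl hY0
      right
      obtain ⟨Z, hZ⟩ : ∃ Z : Submodule K W, Z = Y.map W₁.subtype := ⟨_, rfl⟩
      have hZW : ∀ z ∈ Z, z ∈ W₁ := by
        rw [hZ]; rintro _ ⟨y, _, rfl⟩; exact y.2
      have hZst : ∀ w ∈ J, w * w₁ = -(w₁ * w) → w * w₂ = -(w₂ * w) → ∀ z ∈ Z, w z ∈ Z := by
        intro w hw a1 a2
        rw [hZ]
        rintro _ ⟨y, hy, rfl⟩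
        refine ⟨_, hY (w.restrict (hstab w a1 a2)) ⟨w, hw, a1, a2, fun u => rfl⟩ y hy, rfl⟩
      have htop : Z ⊔ Z.map w₁ = ⊤ := by
        refine (hirr _ ?_).resolve_left ?_
        · intro w hw u hu
          obtain ⟨c1, hc1⟩ := P7_polar hJ hw hw₁
          obtain ⟨c2, hc2⟩ := P7_polar hJ hw hw₂
          obtain ⟨w', hw'⟩ : ∃ w', w' = w - (c1 / 2) • w₁ - (c2 / 2) • w₂ := ⟨_, rfl⟩
          have hw'J : w' ∈ J := by
            rw [hw']
            exact J.sub_mem (J.sub_mem hw (J.smul_mem _ hw₁)) (J.smul_mem _ hw₂)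
          have a1 : w' * w₁ = -(w₁ * w') := by
            rw [eq_neg_iff_add_eq_zero, hw']
            have : (w - (c1 / 2) • w₁ - (c2 / 2) • w₂) * w₁ +
                w₁ * (w - (c1 / 2) • w₁ - (c2 / 2) • w₂) = (w * w₁ + w₁ * w) -
                (c1 / 2) • (w₁ * w₁ + w₁ * w₁) - (c2 / 2) • (w₂ * w₁ + w₁ * w₂) := by
              simp only [sub_mul, mul_sub, smul_mul_assoc, mul_smul_comm, smul_add]
              abel
            rw [this, hc1, h11, h21, neg_add_cancel, smul_zero, sub_zero, ← two_smul K, smul_smul,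
              ← sub_smul]
            rw [div_mul_cancel₀ c1 two_ne_zero, sub_self, zero_smul]
          have a2 : w' * w₂ = -(w₂ * w') := by
            rw [eq_neg_iff_add_eq_zero, hw']
            have : (w - (c1 / 2) • w₁ - (c2 / 2) • w₂) * w₂ +
                w₂ * (w - (c1 / 2) • w₁ - (c2 / 2) • w₂) = (w * w₂ + w₂ * w) -
                (c2 / 2) • (w₂ * w₂ + w₂ * w₂) - (c1 / 2) • (w₂ * w₁ + w₁ * w₂) := by
              simp only [sub_mul, mul_sub, smul_mul_assoc, mul_smul_comm, smul_add]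
              abel
            rw [this, hc2, h22, h21, neg_add_cancel, smul_zero, sub_zero, ← two_smul K, smul_smul,
              ← sub_smul]
            rw [div_mul_cancel₀ c2 two_ne_zero, sub_self, zero_smul]
          have hwe : w = w' + (c1 / 2) • w₁ + (c2 / 2) • w₂ := by rw [hw']; abel
          have s1 : ∀ z ∈ Z ⊔ Z.map w₁, w₁ z ∈ Z ⊔ Z.map w₁ := by
            intro z hz
            rw [Submodule.mem_sup] at hz
            obtain ⟨y, hy, _, ⟨x, hx, rfl⟩, rfl⟩ := hz
            rw [map_add, h1v]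
            exact add_mem (Submodule.mem_sup_right ⟨y, hy, rfl⟩) (Submodule.mem_sup_left hx)
          have s2 : ∀ z ∈ Z ⊔ Z.map w₁, θ z ∈ Z ⊔ Z.map w₁ := by
            intro z hz
            rw [Submodule.mem_sup] at hz
            obtain ⟨y, hy, _, ⟨x, hx, rfl⟩, rfl⟩ := hz
            rw [map_add, hθ1, m1.mp (hZW y hy), m1.mp (hZW x hx), map_smul]
            exact add_mem (Submodule.mem_sup_left (Z.smul_mem _ hy))
              (neg_mem (Submodule.smul_mem _ _ (Submodule.mem_sup_right ⟨x, hx, rfl⟩)))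
          have s3 : ∀ z ∈ Z ⊔ Z.map w₁, w' z ∈ Z ⊔ Z.map w₁ := by
            intro z hz
            rw [Submodule.mem_sup] at hz
            obtain ⟨y, hy, _, ⟨x, hx, rfl⟩, rfl⟩ := hz
            have e1 : w' (w₁ x) = -(w₁ (w' x)) := by
              rw [← Module.End.mul_apply, a1]; rfl
            rw [map_add, e1]
            exact add_mem (Submodule.mem_sup_left (hZst w' hw'J a1 a2 y hy))
              (neg_mem (Submodule.mem_sup_right ⟨_, hZst w' hw'J a1 a2 x hx, rfl⟩))
          rw [hwe]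
          have e2 : (w' + (c1 / 2) • w₁ + (c2 / 2) • w₂) u =
              w' u + (c1 / 2) • w₁ u + (c2 / 2) • w₁ (θ u) := by
            rw [← Module.End.mul_apply w₁ θ, hw1θ]; rfl
          rw [e2]
          exact add_mem (add_mem (s3 u hu) (Submodule.smul_mem _ _ (s1 u hu)))
            (Submodule.smul_mem _ _ (s1 _ (s2 u hu)))
        · intro h0
          apply hY0
          rw [eq_bot_iff]
          intro y hy
          have h4 : (y : W) ∈ Z ⊔ Z.map w₁ := Submodule.mem_sup_left (by rw [hZ]; exact ⟨y, hy, rfl⟩)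
          rw [h0, Submodule.mem_bot] at h4
          exact Subtype.ext h4
      rw [eq_top_iff]
      rintro ⟨u, hu⟩ -
      have hu1 : u ∈ Z ⊔ Z.map w₁ := by rw [htop]; trivial
      rw [Submodule.mem_sup] at hu1
      obtain ⟨y, hy, _, ⟨x, hx, rfl⟩, hyx⟩ := hu1
      have hx2 : w₁ x ∈ W₁ ⊓ W₂ := by
        constructor
        · have : w₁ x = u - y := by rw [← hyx]; abel
          rw [SetLike.mem_coe, this]
          exact W₁.sub_mem hu (hZW y hy)
        · rw [SetLike.mem_coe, m2, hθ1, m1.mp (hZW x hx), map_smul]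
      rw [hinf, Submodule.mem_bot] at hx2
      rw [hx2, add_zero] at hyx
      rw [hZ] at hy
      obtain ⟨y', hy', hyy⟩ := hy
      have : y' = ⟨u, hu⟩ := Subtype.ext (hyy.trans hyx)
      rwa [← this]
    -- the form on `W₁`
    have hbw : ∀ v w, b v (w₁ w) = δ * b (w₁ v) w := by
      intro v w
      rw [hδ w₁ hw₁, ← mul_assoc, hδδ, one_mul]
    have hiso : ∀ v ∈ W₁, ∀ w ∈ W₁, b v w = 0 := by
      intro v hv w hw
      have e1 : b (θ v) w = -(b v (θ w)) := by
        have e2 : θ v = w₁ (w₂ v) := by rw [hθ]; rfl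
        have e3 : θ w = -(w₂ (w₁ w)) := by
          rw [hθ, h12]; rfl
        rw [e2, hδ w₁ hw₁, hδ w₂ hw₂, ← mul_assoc, hδδ, one_mul, e3, map_neg, neg_neg]
      rw [m1.mp hv, m1.mp hw, map_smul, map_smul, LinearMap.smul_apply, smul_eq_mul] at e1
      have e4 : (2 * i) * b v w = 0 := by
        rw [two_mul, add_mul]
        nth_rewrite 1 [e1]
        exact neg_add_cancel _
      exact (mul_eq_zero.1 e4).resolve_left (mul_ne_zero two_ne_zero hi0)
    let b₁ : W₁ →ₗ[K] W₁ →ₗ[K] K := LinearMap.mk₂ K (fun v w => b v (w₁ w))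
      (fun v v' w => by rw [Submodule.coe_add, map_add, LinearMap.add_apply])
      (fun c v w => by rw [Submodule.coe_smul, map_smul, LinearMap.smul_apply])
      (fun v w w' => by rw [Submodule.coe_add, map_add, map_add])
      (fun c v w => by rw [Submodule.coe_smul, map_smul, map_smul])
    have hb₁ : ∀ v w : W₁, b₁ v w = b v (w₁ w) := fun v w => rfl
    have hb₁0 : b₁ ≠ 0 := by
      intro h0
      obtain ⟨v, hv⟩ := exists_ne (0 : W₁)
      apply hv
      apply Subtype.ext
      refine P7s_rad hirr hb hδ fun w => ?_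
      have hw : w ∈ W₁ ⊔ W₂ := by rw [hsup]; trivial
      rw [← hmap, Submodule.mem_sup] at hw
      obtain ⟨y, hy, _, ⟨x, hx, rfl⟩, rfl⟩ := hw
      have e1 : b v (w₁ x) = 0 := by
        have := hb₁ v ⟨x, hx⟩
        rw [h0] at this
        exact this.symm
      rw [map_add, hiso v v.2 y hy, e1, add_zero]
    have hε₁ : ∀ v w : W₁, b₁ v w = (δ * ε) * b₁ w v := by
      intro v w
      rw [hb₁, hb₁, hbw, hε, mul_assoc]
    have hδ₁ : ∀ c ∈ J', ∀ v w : W₁, b₁ (c v) w = (-δ) * b₁ v (c w) := by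
      rintro T ⟨c, hc, a1, a2, a3⟩ v w
      rw [hb₁, hb₁, a3, a3, hδ c hc, neg_mul, ← mul_neg]
      congr 1
      have e1 : c (w₁ w) = -(w₁ (c w)) := by
        rw [← Module.End.mul_apply, a1]; rfl
      rw [e1, map_neg]
    obtain ⟨t, ht, hts⟩ := ih (finrank K W₁) (by omega) W₁ J' rfl hsq hirr' b₁ (δ * ε) (-δ) hb₁0 hε₁
      hδ₁ (by rw [neg_mul_neg, hδδ])
    refine ⟨t + 1, by rw [hdim, ht, pow_succ]; ring, ?_⟩
    have e1 : (t + 1).choose 2 = t + t.choose 2 := by
      rw [Nat.choose_succ_succ, Nat.choose_one_right]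
    calc ε * δ ^ (t + 1) * (-1) ^ (t + 1).choose 2
        = δ * ε * ((-1) ^ t * δ ^ t) * (-1) ^ t.choose 2 := by rw [e1, pow_add, pow_succ]; ring
      _ = δ * ε * (-δ) ^ t * (-1) ^ t.choose 2 := by rw [neg_pow δ t]
      _ = 1 := hts
  · -- no pair
    suffices hline : finrank K W = 1 by
      have := P7s_line hline hb hε
      exact ⟨0, by rw [hline, pow_zero], by rw [this]; simp⟩
    push Not at hA
    by_cases hB : ∃ w₁ ∈ J, w₁ * w₁ = 1
    · obtain ⟨w₁, hw₁, h11⟩ := hB
      refine P7_line (w₁ := w₁) hirr fun w hw => ?_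
      obtain ⟨c1, hc1⟩ := P7_polar hJ hw hw₁
      refine ⟨c1 / 2, ?_⟩
      rw [← sub_eq_zero]
      obtain ⟨w₀, hw₀⟩ : ∃ w₀, w₀ = w - (c1 / 2) • w₁ := ⟨_, rfl⟩
      have hJ₁ : ∀ v ∈ J, v * w₁ + w₁ * v = 0 → v * v = 0 := by
        intro v hv h1
        obtain ⟨c, hc⟩ := hJ v hv
        by_cases hc0 : c = 0
        · rw [hc, hc0, zero_smul]
        · exfalso
          obtain ⟨t, ht, htt⟩ := P7_scale hc hc0
          apply hA w₁ hw₁ (t • v) (J.smul_mem t hv) h11 htt
          rw [mul_smul_comm, smul_mul_assoc, ← smul_neg]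
          congr 1
          exact eq_neg_of_add_eq_zero_right h1
      have hw₀J : w₀ ∈ J := by rw [hw₀]; exact J.sub_mem hw (J.smul_mem _ hw₁)
      have hw₀1 : w₀ * w₁ + w₁ * w₀ = 0 := by
        rw [hw₀]
        have : (w - (c1 / 2) • w₁) * w₁ + w₁ * (w - (c1 / 2) • w₁) = (w * w₁ + w₁ * w) -
            (c1 / 2) • (w₁ * w₁ + w₁ * w₁) := by
          simp only [sub_mul, mul_sub, smul_mul_assoc, mul_smul_comm, smul_add]
          abel
        rw [this, hc1, h11, ← two_smul K, smul_smul, ← sub_smul, div_mul_cancel₀ c1 two_ne_zero,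
          sub_self, zero_smul]
      rw [← hw₀]
      refine P7_zero hirr (hJ₁ w₀ hw₀J hw₀1) fun v hv => ?_
      obtain ⟨c2, hc2⟩ := P7_polar hJ hv hw₁
      obtain ⟨v', hv'⟩ : ∃ v', v' = v - (c2 / 2) • w₁ := ⟨_, rfl⟩
      have hv'J : v' ∈ J := by rw [hv']; exact J.sub_mem hv (J.smul_mem _ hw₁)
      have hv'1 : v' * w₁ + w₁ * v' = 0 := by
        rw [hv']
        have : (v - (c2 / 2) • w₁) * w₁ + w₁ * (v - (c2 / 2) • w₁) = (v * w₁ + w₁ * v) -
            (c2 / 2) • (w₁ * w₁ + w₁ * w₁) := by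
          simp only [sub_mul, mul_sub, smul_mul_assoc, mul_smul_comm, smul_add]
          abel
        rw [this, hc2, h11, ← two_smul K, smul_smul, ← sub_smul, div_mul_cancel₀ c2 two_ne_zero,
          sub_self, zero_smul]
      have h3 := hJ₁ v' hv'J hv'1
      have h4 := hJ₁ w₀ hw₀J hw₀1
      have h5 := hJ₁ (v' + w₀) (J.add_mem hv'J hw₀J) (by
        rw [add_mul, mul_add]
        calc v' * w₁ + w₀ * w₁ + (w₁ * v' + w₁ * w₀) = (v' * w₁ + w₁ * v') +
              (w₀ * w₁ + w₁ * w₀) := by abel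
          _ = 0 := by rw [hv'1, hw₀1, add_zero])
      have h6 : v' * w₀ = -(w₀ * v') := by
        have : (v' + w₀) * (v' + w₀) = v' * v' + w₀ * w₀ + (v' * w₀ + w₀ * v') := by noncomm_ring
        rw [this, h3, h4, zero_add, zero_add] at h5
        exact eq_neg_of_add_eq_zero_left h5
      refine ⟨-v' - (c2 / 2) • w₁, ?_⟩
      have h7 : v = v' + (c2 / 2) • w₁ := by rw [hv']; abel
      rw [h7, add_mul, h6, smul_mul_assoc, eq_neg_of_add_eq_zero_right hw₀1, mul_sub, mul_neg,
        mul_smul_comm, smul_neg, sub_eq_add_neg]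
    · push Not at hB
      have h0 : ∀ v ∈ J, v * v = 0 := by
        intro v hv
        obtain ⟨c, hc⟩ := hJ v hv
        by_cases hc0 : c = 0
        · rw [hc, hc0, zero_smul]
        · exfalso
          obtain ⟨t, ht, htt⟩ := P7_scale hc hc0
          exact hB _ (J.smul_mem t hv) htt
      refine P7_line (w₁ := 0) hirr fun w hw => ⟨0, ?_⟩
      rw [smul_zero]
      refine P7_zero hirr (h0 w hw) fun v hv => ⟨-v, ?_⟩
      have h5 := h0 _ (J.add_mem hv hw)
      have : (v + w) * (v + w) = v * v + w * w + (v * w + w * v) := by noncomm_ring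
      rw [this, h0 v hv, h0 w hw, zero_add, zero_add] at h5
      rw [mul_neg]
      exact eq_neg_of_add_eq_zero_left h5

end Pool.Agent.H49M
end
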