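import Mathlib

/-! Merged copies (to shorten the build) of Lib.H53Toric.Symp, Lib.H76RM.Core, Lib.H76RM.Core2, Lib.H76RM.Core3, Lib.H76U.Base, Lib.H76U.PP, Lib.H76U.Coef. -/

-- from Lib.H53Toric.Symp
section

/-!
# The symplectic group is generated by transvections
-/

set_option autoImplicit false
set_option linter.unusedSectionVars false
namespace Pool.Agent.H53Toric
open Module

variable {K : Type*} [Field K] {V : Type*} [AddCommGroup V] [Module K V]

/-- The nilpotent part of a transvection. -/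
def trv (ω : V →ₗ[K] V →ₗ[K] K) (d : V) : Module.End K V :=
  (ω.flip d).smulRight d

theorem trv_apply (ω : V →ₗ[K] V →ₗ[K] K) (d x : V) : trv ω d x = ω x d • d := rfl

theorem trv_sq {ω : V →ₗ[K] V →ₗ[K] K} (halt : ∀ v, ω v v = 0) (d : V) :
    trv ω d * trv ω d = 0 := by
  ext x
  change trv ω d (trv ω d x) = 0
  rw [trv_apply, trv_apply, map_smul, LinearMap.smul_apply, halt, smul_zero, zero_smul]

/-- The fixed space. -/
def fixsp (x : Module.End K V) : Submodule K V := LinearMap.ker (x - 1)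

theorem mem_fixsp {x : Module.End K V} {v : V} : v ∈ fixsp x ↔ x v = v := by
  rw [fixsp, LinearMap.mem_ker, LinearMap.sub_apply, sub_eq_zero]; rfl

section

variable [FiniteDimensional K V] {ω : V →ₗ[K] V →ₗ[K] K} (halt : ∀ v, ω v v = 0)
  (hnd : ∀ v, (∀ w, ω w v = 0) → v = 0) {Z : Set (Module.End K V)} (h1 : (1 : Module.End K V) ∈ Z)
  (hmul : ∀ a ∈ Z, ∀ b ∈ Z, a * b ∈ Z) (htrv : ∀ (a : K) (d : V), 1 + a • trv ω d ∈ Z)

include halt in
theorem omega_antisymm (v w : V) : ω v w = -ω w v := by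
  have h := halt (v + w)
  simp only [map_add, LinearMap.add_apply, halt, zero_add, add_zero] at h
  linear_combination h

include halt in
theorem trv_isom (a : K) (d v w : V) :
    ω ((1 + a • trv ω d) v) ((1 + a • trv ω d) w) = ω v w := by
  simp only [LinearMap.add_apply, LinearMap.smul_apply, Module.End.one_apply, trv_apply, map_add,
    map_smul, halt, smul_eq_mul]
  rw [omega_antisymm halt d w]
  ring

include halt in
theorem trv_inv (a : K) (d : V) : (1 + (-a) • trv ω d) * (1 + a • trv ω d) = 1 := by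
  have e : (1 + (-a) • trv ω d) * (1 + a • trv ω d) = 1 - (a * a) • (trv ω d * trv ω d) := by
    rw [add_mul, mul_add, mul_add, smul_mul_smul_comm]
    simp only [one_mul, mul_one]
    module
  rw [e, trv_sq halt, smul_zero, sub_zero]

include halt in
/-- One step: the fixed space grows. -/
theorem step_a {x : Module.End K V} (hx : ∀ v w, ω (x v) (x w) = ω v w) {v : V}
    (hv : ω v (x v) ≠ 0) : ∃ (a : K) (d : V), fixsp x < fixsp ((1 + a • trv ω d) * x) := by
  refine ⟨-(ω v (x v))⁻¹, x v - v, ?_⟩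
  have hfix : ∀ z ∈ fixsp x, ω z (x v - v) = 0 := by
    intro z hz
    rw [mem_fixsp] at hz
    rw [map_sub, sub_eq_zero]
    nth_rw 1 [← hz]
    rw [hx]
  refine lt_of_le_of_ne ?_ ?_
  · intro z hz
    have hz' := hz
    rw [mem_fixsp] at hz ⊢
    change (1 + -(ω v (x v))⁻¹ • trv ω (x v - v)) (x z) = z
    rw [hz, LinearMap.add_apply, LinearMap.smul_apply, trv_apply, hfix z hz', zero_smul,
      smul_zero, add_zero]
    rfl
  · intro heq
    have hvf : v ∈ fixsp ((1 + -(ω v (x v))⁻¹ • trv ω (x v - v)) * x) := by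
      rw [mem_fixsp]
      change (1 + -(ω v (x v))⁻¹ • trv ω (x v - v)) (x v) = v
      have e : ω (x v) (x v - v) = ω v (x v) := by
        rw [map_sub, halt, zero_sub, ← omega_antisymm halt]
      rw [LinearMap.add_apply, LinearMap.smul_apply, trv_apply, e, smul_smul, neg_mul,
        inv_mul_cancel₀ hv, Module.End.one_apply]
      module
    rw [← heq, mem_fixsp] at hvf
    rw [hvf, halt] at hv
    exact hv rfl

include halt hnd in
/-- If all `ω v (x v)` vanish, a transvection changes this without shrinking the fixed space. -/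
theorem step_b {x : Module.End K V} (hx : ∀ v w, ω (x v) (x w) = ω v w)
    (hall : ∀ v, ω v (x v) = 0) (hne : x ≠ 1) : ∃ (d : V), fixsp x ≤
      fixsp ((1 + (1 : K) • trv ω d) * x) ∧ ∃ v, ω v (((1 + (1 : K) • trv ω d) * x) v) ≠ 0 := by
  obtain ⟨v₀, hv₀⟩ : ∃ v, x v ≠ v := by
    by_contra hcon
    push Not at hcon
    exact hne (LinearMap.ext hcon)
  have hd0 : x v₀ - v₀ ≠ 0 := sub_ne_zero.2 hv₀
  have hinj : Function.Injective x := by
    rw [injective_iff_map_eq_zero]
    intro v hv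
    apply hnd
    intro w
    rw [← hx, hv, map_zero]
  have hsurj : Function.Surjective x := LinearMap.injective_iff_surjective.1 hinj
  refine ⟨x v₀ - v₀, ?_, ?_⟩
  · intro z hz
    have hz' := hz
    rw [mem_fixsp] at hz ⊢
    change (1 + (1 : K) • trv ω (x v₀ - v₀)) (x z) = z
    have : ω z (x v₀ - v₀) = 0 := by
      rw [map_sub, sub_eq_zero]
      nth_rw 1 [← hz]
      rw [hx]
    rw [hz, LinearMap.add_apply, LinearMap.smul_apply, trv_apply, this, zero_smul,
      smul_zero, add_zero]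
    rfl
  · set d := x v₀ - v₀ with hd
    obtain ⟨a, ha⟩ : ∃ a, ω a d ≠ 0 := by
      by_contra hcon
      push Not at hcon
      exact hd0 (hnd d hcon)
    obtain ⟨b, hb⟩ := hsurj a
    have hb' : ω (x b) d ≠ 0 := by rw [hb]; exact ha
    have key : ∃ v, ω v d ≠ 0 ∧ ω (x v) d ≠ 0 := by
      by_cases h2 : ω (x a) d = 0
      · by_cases h3 : ω b d = 0
        · refine ⟨a + b, ?_, ?_⟩
          · rw [map_add, LinearMap.add_apply, h3, add_zero]; exact ha
          · rw [map_add, map_add, LinearMap.add_apply, h2, zero_add]; exact hb'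
        · exact ⟨b, h3, hb'⟩
      · exact ⟨a, ha, h2⟩
    obtain ⟨v, hv1, hv2⟩ := key
    refine ⟨v, ?_⟩
    change ω v ((1 + (1 : K) • trv ω d) (x v)) ≠ 0
    rw [LinearMap.add_apply, LinearMap.smul_apply, trv_apply, map_add, Module.End.one_apply,
      hall, zero_add, map_smul, map_smul, smul_eq_mul, smul_eq_mul, one_mul]
    exact mul_ne_zero hv2 hv1

include halt hnd h1 hmul htrv in
/-- The symplectic group is generated by transvections. -/
theorem sp_mem (n : ℕ) : ∀ x : Module.End K V, (∀ v w, ω (x v) (x w) = ω v w) →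
    finrank K V ≤ finrank K (fixsp x) + n → x ∈ Z := by
  induction n with
  | zero =>
    intro x _ hn
    rw [add_zero] at hn
    have : fixsp x = ⊤ := Submodule.eq_top_of_finrank_eq (le_antisymm (Submodule.finrank_le _) hn)
    have hx1 : x = 1 := by
      ext v
      have : v ∈ fixsp x := by rw [this]; trivial
      exact mem_fixsp.1 this
    rw [hx1]; exact h1
  | succ n ih =>
    intro x hx hn
    by_cases hne : x = 1
    · rw [hne]; exact h1
    -- from a larger fixed space
    have hback : ∀ (a : K) (d : V) (y : Module.End K V), (1 + a • trv ω d) * y ∈ Z → y ∈ Z := by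
      intro a d y hy
      have := hmul _ (htrv (-a) d) _ hy
      rwa [← mul_assoc, trv_inv halt, one_mul] at this
    have hpres : ∀ (a : K) (d : V) (y : Module.End K V), (∀ v w, ω (y v) (y w) = ω v w) →
        ∀ v w, ω (((1 + a • trv ω d) * y) v) (((1 + a • trv ω d) * y) w) = ω v w := by
      intro a d y hy v w
      change ω ((1 + a • trv ω d) (y v)) ((1 + a • trv ω d) (y w)) = _
      rw [trv_isom halt, hy]
    by_cases hall : ∀ v, ω v (x v) = 0
    · obtain ⟨d, hd, v, hv⟩ := step_b halt hnd hx hall hne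
      obtain ⟨a, d', hlt⟩ := step_a halt (hpres 1 d x hx) hv
      apply hback 1 d x
      apply hback a d'
      apply ih _ (hpres a d' _ (hpres 1 d x hx))
      have := Submodule.finrank_lt_finrank_of_lt (lt_of_le_of_lt hd hlt)
      omega
    · push Not at hall
      obtain ⟨v, hv⟩ := hall
      obtain ⟨a, d', hlt⟩ := step_a halt hx hv
      apply hback a d'
      apply ih _ (hpres a d' _ hx)
      have := Submodule.finrank_lt_finrank_of_lt hlt
      omega

end

end Pool.Agent.H53Toric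
end

-- from Lib.H76RM.Core
section

/-!
# Lie algebras of skew operators: components of small rank and independence

Setting: `⊕ V_b ⊆ V` (self adjoint orthogonal projectors `e b` for an alternating form `ω`), a Lie
algebra `g` of skew operators commuting with the `e b`, a group acting by similitudes `r x` and
normalising `g`; `falt`: in `⊕ V_b` the only invariant subspaces are sums of `V_b`s.
-/

set_option autoImplicit false
set_option linter.unusedSectionVars false
namespace Pool.Agent.H76RM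
open Module Pool.Agent.H53Toric

variable {K : Type*} [Field K] {V : Type*} [AddCommGroup V] [Module K V]
variable {B : Type*} [Fintype B] [DecidableEq B] {Γ : Type*} [Group Γ]

structure Setup (ω : V →ₗ[K] V →ₗ[K] K) (e : B → Module.End K V)
    (g : Submodule K (Module.End K V)) (r : Γ →* Module.End K V) : Prop where
  alt : ∀ v, ω v v = 0
  lie : ∀ A ∈ g, ∀ C ∈ g, A * C - C * A ∈ g
  skew : ∀ A ∈ g, ∀ v w, ω (A v) w = - ω v (A w)
  sim : ∀ x, ∃ c : K, c ≠ 0 ∧ ∀ v w, ω (r x v) (r x w) = c * ω v w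
  conj : ∀ x, ∀ A ∈ g, r x * A * r x⁻¹ ∈ g
  idem : ∀ b, e b * e b = e b
  orth : ∀ b c, b ≠ c → e b * e c = 0
  nd : ∀ u, (∀ w, ω u w = 0) → u = 0
  self : ∀ b v w, ω (e b v) w = ω v (e b w)
  gcomm : ∀ b, ∀ A ∈ g, e b * A = A * e b
  rcomm : ∀ b x, e b * r x = r x * e b
  gen : ∀ u₁ v₁ u₂ v₂ u₃ v₃ : V, (∃ x, ω u₁ (r x v₁) ≠ 0) → (∃ x, ω u₂ (r x v₂) ≠ 0) →
    (∃ x, ω u₃ (r x v₃) ≠ 0) →
    ∃ x, ω u₁ (r x v₁) ≠ 0 ∧ ω u₂ (r x v₂) ≠ 0 ∧ ω u₃ (r x v₃) ≠ 0
  falt : ∀ u v : V, (∑ b, e b) u = u → (∑ b, e b) v = v → (∀ x, ω u (r x v) = 0) →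
    ∀ b, e b v = 0 ∨ e b u = 0

variable {ω : V →ₗ[K] V →ₗ[K] K} {e : B → Module.End K V}
    {g : Submodule K (Module.End K V)} {r : Γ →* Module.End K V}

theorem anti0 (halt : ∀ v, ω v v = 0) (v w : V) : ω v w = -ω w v := by
  have h := halt (v + w)
  simp only [map_add, LinearMap.add_apply, halt, zero_add, add_zero] at h
  linear_combination h

namespace Setup

variable (h : Setup ω e g r)
include h

theorem anti (v w : V) : ω v w = - ω w v := anti0 h.alt v w

theorem idem' (b : B) (v : V) : e b (e b v) = e b v := by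
  have := congrArg (fun f : Module.End K V => f v) (h.idem b)
  exact this

theorem orth' {b c : B} (hbc : b ≠ c) (v : V) : e b (e c v) = 0 := by
  have := congrArg (fun f : Module.End K V => f v) (h.orth b c hbc)
  exact this

theorem orthf {b c : B} (hbc : b ≠ c) {v : V} (hv : e c v = v) : e b v = 0 := by
  rw [← hv]; exact h.orth' hbc v

theorem ecomm {A : Module.End K V} (hA : A ∈ g) (b : B) (v : V) : e b (A v) = A (e b v) := by
  have := congrArg (fun f : Module.End K V => f v) (h.gcomm b A hA)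
  exact this

theorem ercomm (x : Γ) (b : B) (v : V) : e b (r x v) = r x (e b v) := by
  have := congrArg (fun f : Module.End K V => f v) (h.rcomm b x)
  exact this

theorem fixA {A : Module.End K V} (hA : A ∈ g) {b : B} {v : V} (hv : e b v = v) :
    e b (A v) = A v := by
  rw [h.ecomm hA, hv]

theorem fixr (x : Γ) {b : B} {v : V} (hv : e b v = v) : e b (r x v) = r x v := by
  rw [h.ercomm, hv]

/-- different components are orthogonal -/
theorem perp {b c : B} (hbc : b ≠ c) {v w : V} (hv : e b v = v) (hw : e c w = w) : ω v w = 0 := by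
  rw [← hv, h.self, h.orthf hbc hw, map_zero]

theorem fsum {b : B} {v : V} (hv : e b v = v) : (∑ c, e c) v = v := by
  rw [LinearMap.sum_apply, Finset.sum_eq_single b]
  · exact hv
  · intro c _ hcb
    exact h.orthf hcb hv
  · intro hb
    exact absurd (Finset.mem_univ b) hb

theorem nd' {b : B} {u : V} (hb : e b u = u) (hu : ∀ w, e b w = w → ω u w = 0) : u = 0 := by
  apply h.nd
  intro w
  rw [← hb, h.self]
  exact hu _ (h.idem' b w)

/-- `ω(u, Γ v) ≠ 0` for nonzero vectors of one component -/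
theorem ex {b : B} {u v : V} (hu : e b u = u) (hv : e b v = v) (hu0 : u ≠ 0) (hv0 : v ≠ 0) :
    ∃ x, ω u (r x v) ≠ 0 := by
  by_contra hcon
  push Not at hcon
  rcases h.falt u v (h.fsum hu) (h.fsum hv) hcon b with h1 | h1
  · exact hv0 (by rw [← hv, h1])
  · exact hu0 (by rw [← hu, h1])

/-- double bracket -/
theorem dbl {A C : Module.End K V} (hA : A ∈ g) (hC : C ∈ g) :
    A * (A * C - C * A) - (A * C - C * A) * A ∈ g := h.lie A hA _ (h.lie A hA C hC)



theorem rr (x : Γ) (v : V) : r x (r x⁻¹ v) = v := by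
  have h1 : r x * r x⁻¹ = 1 := by rw [← map_mul, mul_inv_cancel, map_one]
  have := congrArg (fun f : Module.End K V => f v) h1
  exact this

theorem conj_trv (x : Γ) : ∃ c : K, c ≠ 0 ∧ (∀ v w, ω (r x v) (r x w) = c * ω v w) ∧
    ∀ d, r x * trv ω d * r x⁻¹ = c⁻¹ • trv ω (r x d) := by
  obtain ⟨c, hc, hsim⟩ := h.sim x
  refine ⟨c, hc, hsim, fun d => ?_⟩
  ext v
  change r x (trv ω d (r x⁻¹ v)) = c⁻¹ • trv ω (r x d) v
  rw [trv_apply, trv_apply, map_smul, smul_smul]
  congr 1
  have h1 := hsim (r x⁻¹ v) d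
  rw [h.rr] at h1
  rw [h1]
  field_simp

end Setup

/-- the vectors `d` of `V_b` such that some element of `g` induces `trv d` on `V_b` -/
def D (ω : V →ₗ[K] V →ₗ[K] K) (e : B → Module.End K V)
    (g : Submodule K (Module.End K V)) (b : B) : Set V :=
  {d | e b d = d ∧ ∃ A ∈ g, A * e b = trv ω d}

namespace Setup

variable (h : Setup ω e g r)
include h

theorem D_smul {b : B} {d : V} (hd : d ∈ D ω e g b) (c : K) : c • d ∈ D ω e g b := by
  obtain ⟨hd1, A, hA, hAd⟩ := hd
  refine ⟨by rw [map_smul, hd1], (c * c) • A, g.smul_mem _ hA, ?_⟩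
  rw [smul_mul_assoc, hAd]
  ext v
  change (c * c) • trv ω d v = trv ω (c • d) v
  rw [trv_apply, trv_apply, map_smul, smul_smul, smul_smul, smul_eq_mul]
  congr 1
  ring

theorem D_r {b : B} {d : V} (hd : d ∈ D ω e g b) (x : Γ) : r x d ∈ D ω e g b := by
  obtain ⟨hd1, A, hA, hAd⟩ := hd
  obtain ⟨c, hc, -, h2⟩ := h.conj_trv x
  refine ⟨h.fixr x hd1, c • (r x * A * r x⁻¹), g.smul_mem _ (h.conj x A hA), ?_⟩
  have h3 : r x * A * r x⁻¹ * e b = r x * (A * e b) * r x⁻¹ := by
    rw [mul_assoc, mul_assoc, ← h.rcomm, mul_assoc, mul_assoc]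
  rw [smul_mul_assoc, h3, hAd, h2, smul_smul, mul_inv_cancel₀ hc, one_smul]

end Setup

/-- the transvection formula for the operators `trv` -/
theorem trv_trans (halt : ∀ v, ω v v = 0) (u w : V) (t : K) :
    trv ω (u + (t * ω u w) • w) = trv ω u + t • (trv ω w * trv ω u - trv ω u * trv ω w) -
      (t * t) • (trv ω w * trv ω u * trv ω w) := by
  ext v
  change trv ω (u + (t * ω u w) • w) v = trv ω u v +
    t • (trv ω w (trv ω u v) - trv ω u (trv ω w v)) - (t * t) • (trv ω w (trv ω u (trv ω w v)))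
  simp only [trv_apply, map_add, map_smul, LinearMap.add_apply, LinearMap.smul_apply, smul_eq_mul,
    smul_add, smul_smul, smul_sub, add_smul]
  rw [anti0 halt w u]
  module

/-- `trv w * A * trv w` for a skew operator -/
theorem trv_mid (w : V) (A : Module.End K V) :
    trv ω w * A * trv ω w = ω (A w) w • trv ω w := by
  ext v
  change trv ω w (A (trv ω w v)) = ω (A w) w • trv ω w v
  simp only [trv_apply, map_smul, LinearMap.smul_apply, smul_eq_mul, smul_smul]
  congr 1
  ring

namespace Setup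

variable (h : Setup ω e g r)
include h

/-- compatibility of products with the projector -/
theorem mul_e {A C : Module.End K V} (_hA : A ∈ g) (hC : C ∈ g) (b : B) :
    A * C * e b = (A * e b) * (C * e b) := by
  have h1 : A * e b * (C * e b) = A * (e b * C) * e b := by simp only [mul_assoc]
  rw [h1, h.gcomm b C hC, ← mul_assoc A C (e b), mul_assoc (A * C), h.idem]

theorem mul_e' {A C : Module.End K V} (hA : A ∈ g) (hC : C ∈ g) (b : B) :
    (A * C - C * A) * e b = (A * e b) * (C * e b) - (C * e b) * (A * e b) := by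
  rw [sub_mul, h.mul_e hA hC, h.mul_e hC hA]

theorem dbl_e {A C : Module.End K V} (hA : A ∈ g) (hC : C ∈ g) (b : B)
    (h2 : (A * e b) * (A * e b) = 0) :
    (A * (A * C - C * A) - (A * C - C * A) * A) * e b =
      (-2 : K) • ((A * e b) * (C * e b) * (A * e b)) := by
  rw [h.mul_e' hA (h.lie A hA C hC), h.mul_e' hA hC]
  have e1 : A * e b * (A * e b * (C * e b) - C * e b * (A * e b)) -
      (A * e b * (C * e b) - C * e b * (A * e b)) * (A * e b) =
      (A * e b) * (A * e b) * (C * e b) - (2 : K) • ((A * e b) * (C * e b) * (A * e b)) +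
      (C * e b) * ((A * e b) * (A * e b)) := by
    simp only [mul_sub, sub_mul, mul_assoc, two_smul]
    abel
  rw [e1, h2, zero_mul, mul_zero, add_zero, zero_sub, neg_smul]

theorem D_trans {b : B} {u w : V} (hu : u ∈ D ω e g b) (hw : w ∈ D ω e g b) [CharZero K]
    (t : K) : u + (t * ω u w) • w ∈ D ω e g b := by
  obtain ⟨hu1, A, hA, hAu⟩ := hu
  obtain ⟨hw1, C, hC, hCw⟩ := hw
  refine ⟨by rw [map_add, map_smul, hu1, hw1], A + t • (C * A - A * C) + (t * t / 2) •
    (C * (C * A - A * C) - (C * A - A * C) * C), ?_, ?_⟩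
  · exact g.add_mem (g.add_mem hA (g.smul_mem _ (h.lie C hC A hA)))
      (g.smul_mem _ (h.dbl hC hA))
  · rw [add_mul, add_mul, smul_mul_assoc, smul_mul_assoc, h.mul_e' hC hA,
      h.dbl_e hC hA b (by rw [hCw, trv_sq h.alt]), hAu, hCw, trv_trans h.alt, smul_smul]
    have e1 : t * t / 2 * (-2 : K) = -(t * t) := by ring
    rw [e1, neg_smul, ← sub_eq_add_neg]

theorem D_add0 {b : B} {u w : V} [CharZero K] (hu : u ∈ D ω e g b) (hw : w ∈ D ω e g b)
    (huw : ω u w ≠ 0) : u + w ∈ D ω e g b := by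
  have h1 := h.D_trans hu hw (ω u w)⁻¹
  rwa [inv_mul_cancel₀ huw, one_smul] at h1

theorem D_zero {b : B} : (0 : V) ∈ D ω e g b := by
  refine ⟨map_zero _, 0, g.zero_mem, ?_⟩
  ext v
  change (0 : Module.End K V) _ = trv ω 0 v
  rw [trv_apply, smul_zero]; rfl

theorem D_neg {b : B} {d : V} (hd : d ∈ D ω e g b) : -d ∈ D ω e g b := by
  rw [← neg_one_smul K d]; exact h.D_smul hd _

theorem D_add {b : B} {u w d : V} [CharZero K] (hu : u ∈ D ω e g b) (hw : w ∈ D ω e g b)
    (hd : d ∈ D ω e g b) (hd0 : d ≠ 0) : u + w ∈ D ω e g b := by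
  by_cases hu0 : u = 0
  · rw [hu0, zero_add]; exact hw
  by_cases hw0 : w = 0
  · rw [hw0, add_zero]; exact hu
  by_cases huw : ω u w = 0
  swap
  · exact h.D_add0 hu hw huw
  by_cases hs : u + w = 0
  · rw [hs]; exact h.D_zero
  have hs1 : e b (u + w) = u + w := by rw [map_add, hu.1, hw.1]
  obtain ⟨x, hx1, hx2, hx3⟩ := h.gen u d w d (u + w) d (h.ex hu.1 hd.1 hu0 hd0)
    (h.ex hw.1 hd.1 hw0 hd0) (h.ex hs1 hd.1 hs hd0)
  set z := r x d with hz
  have hzD : z ∈ D ω e g b := h.D_r hd x
  have h1 : u + z ∈ D ω e g b := h.D_add0 hu hzD hx1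
  have h2 : w + -z ∈ D ω e g b := by
    apply h.D_add0 hw (h.D_neg hzD)
    rw [map_neg]; exact neg_ne_zero.2 hx2
  have h3 : u + z + (w + -z) ∈ D ω e g b := by
    apply h.D_add0 h1 h2
    have e1 : ω (u + z) (w + -z) = - ω (u + w) z := by
      simp only [map_add, map_neg, LinearMap.add_apply]
      rw [huw, h.alt z, h.anti z w]
      ring
    rw [e1]; exact neg_ne_zero.2 hx3
  have e2 : u + z + (w + -z) = u + w := by abel
  rwa [e2] at h3

/-- If one nonzero `d` occurs, all vectors of the component do. -/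
theorem full [CharZero K] [FiniteDimensional K V] {b : B} {d : V} (hd : d ∈ D ω e g b)
    (hd0 : d ≠ 0) {w : V} (hw : e b w = w) : w ∈ D ω e g b := by
  set W : Submodule K V :=
    { carrier := D ω e g b
      add_mem' := fun {_ _} ha hb => h.D_add ha hb hd hd0
      zero_mem' := h.D_zero
      smul_mem' := fun c _ ha => h.D_smul ha c } with hW
  by_contra hcon
  have hcon' : w ∉ W := hcon
  obtain ⟨f, hf0, hfW⟩ := Submodule.exists_le_ker_of_notMem hcon'
  -- `f = ω u`
  have hinj : Function.Injective ω := by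
    rw [← LinearMap.ker_eq_bot, LinearMap.ker_eq_bot']
    intro u hu
    apply h.nd
    intro w
    rw [hu]; rfl
  have hfin : finrank K V = finrank K (V →ₗ[K] K) := by
    rw [← Subspace.dual_finrank_eq (K := K) (V := V)]
  obtain ⟨u, hu⟩ := (LinearMap.injective_iff_surjective_of_finrank_eq_finrank hfin).1 hinj f
  have h1 : ∀ x, ω (e b u) (r x d) = 0 := by
    intro x
    rw [h.self, h.fixr x hd.1, hu]
    exact hfW (show r x d ∈ W from h.D_r hd x)
  rcases h.falt (e b u) d (h.fsum (h.idem' b u)) (h.fsum hd.1) h1 b with h2 | h2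
  · exact hd0 (by rw [← hd.1, h2])
  · rw [h.idem'] at h2
    apply hf0
    rw [← hu, ← hw, ← h.self, h2]
    simp

end Setup

end Pool.Agent.H76RM
end

-- from Lib.H76RM.Core2
section

/-!
# Components of rank at most two, and independence of the components
-/

set_option autoImplicit false
set_option linter.unusedSectionVars false
namespace Pool.Agent.H76RM
open Module Pool.Agent.H53Toric

variable {K : Type*} [Field K] {V : Type*} [AddCommGroup V] [Module K V]

theorem trv_ne {ω : V →ₗ[K] V →ₗ[K] K} (hnd : ∀ u, (∀ w, ω u w = 0) → u = 0)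
    (halt : ∀ v, ω v v = 0) {d : V} (hd : d ≠ 0) : trv ω d ≠ 0 := by
  intro h0
  apply hd
  apply hnd
  intro w
  have h1 : trv ω d w = 0 := by rw [h0]; rfl
  rw [trv_apply] at h1
  rcases smul_eq_zero.1 h1 with h2 | h2
  · rw [anti0 halt, h2, neg_zero]
  · rw [h2]; simp

/-- Peeling off a square from a skew operator. -/
theorem peel [IsAlgClosed K] [CharZero K] [FiniteDimensional K V] {ω : V →ₗ[K] V →ₗ[K] K}
    (halt : ∀ v, ω v v = 0) (hnd : ∀ u, (∀ w, ω u w = 0) → u = 0) {T : Module.End K V}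
    (hT : ∀ v w, ω (T v) w = - ω v (T w)) (h0 : T ≠ 0) :
    ∃ (x : V) (T' : Module.End K V), T = trv ω x + T' ∧ (∃ y, T y = x) ∧
      (∀ v w, ω (T' v) w = - ω v (T' w)) ∧
      finrank K (LinearMap.range T') < finrank K (LinearMap.range T) := by
  obtain ⟨v, hv⟩ : ∃ v, ω (T v) v ≠ 0 := by
    by_contra hcon
    push Not at hcon
    apply h0
    ext v
    apply hnd
    intro w
    have h1 := hcon (v + w)
    simp only [map_add, LinearMap.add_apply, hcon, zero_add, add_zero] at h1
    have h2 : ω (T w) v = ω (T v) w := by rw [hT, anti0 halt w, neg_neg]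
    rw [h2] at h1
    have h3 : (2 : K) * ω (T v) w = 0 := by linear_combination h1
    exact (mul_eq_zero.1 h3).resolve_left two_ne_zero
  have hv' : ω v (T v) ≠ 0 := by
    rw [anti0 halt]; exact neg_ne_zero.2 hv
  obtain ⟨a, ha⟩ := IsAlgClosed.exists_pow_nat_eq (ω v (T v))⁻¹ (n := 2) (by norm_num)
  have hskew : ∀ x v w, ω (trv ω x v) w = - ω v (trv ω x w) := by
    intro x v w
    simp only [trv_apply, map_smul, LinearMap.smul_apply, smul_eq_mul]
    rw [anti0 halt x w]; ring
  refine ⟨a • T v, T - trv ω (a • T v), by abel, ⟨a • v, by rw [map_smul]⟩, ?_, ?_⟩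
  · intro v' w
    change ω (T v' - trv ω (a • T v) v') w = - ω v' (T w - trv ω (a • T v) w)
    rw [map_sub, LinearMap.sub_apply, map_sub, hT, hskew]; ring
  · have hker : LinearMap.ker T < LinearMap.ker (T - trv ω (a • T v)) := by
      refine lt_of_le_of_ne ?_ ?_
      · intro u hu
        rw [LinearMap.mem_ker] at hu ⊢
        change T u - trv ω (a • T v) u = 0
        have h1 : ω u (T v) = 0 := by
          have := hT u v
          rw [hu] at this
          simp only [map_zero, LinearMap.zero_apply] at this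
          linear_combination this
        rw [hu, trv_apply, map_smul, h1]; simp
      · intro heq
        have h1 : v ∈ LinearMap.ker (T - trv ω (a • T v)) := by
          rw [LinearMap.mem_ker]
          change T v - trv ω (a • T v) v = 0
          rw [trv_apply, map_smul, smul_smul, smul_eq_mul]
          have h2 : a * ω v (T v) * a = 1 := by
            have : a * ω v (T v) * a = a ^ 2 * ω v (T v) := by ring
            rw [this, ha, inv_mul_cancel₀ hv']
          rw [h2, one_smul, sub_self]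
        rw [← heq, LinearMap.mem_ker] at h1
        apply hv
        rw [h1]; simp
    have h1 := Submodule.finrank_lt_finrank_of_lt hker
    have h2 := LinearMap.finrank_range_add_finrank_ker T
    have h3 := LinearMap.finrank_range_add_finrank_ker (T - trv ω (a • T v))
    omega

theorem zero_of_rank [FiniteDimensional K V] {T : Module.End K V}
    (h : finrank K (LinearMap.range T) = 0) : T = 0 := by
  rw [Submodule.finrank_eq_zero, LinearMap.range_eq_bot] at h
  exact h

/-- A square zero skew operator of rank one or two. -/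
theorem rank_two [IsAlgClosed K] [CharZero K] [FiniteDimensional K V] {ω : V →ₗ[K] V →ₗ[K] K}
    (halt : ∀ v, ω v v = 0) (hnd : ∀ u, (∀ w, ω u w = 0) → u = 0) {T : Module.End K V}
    (hT : ∀ v w, ω (T v) w = - ω v (T w)) (h0 : T ≠ 0)
    (hr : finrank K (LinearMap.range T) ≤ 2) :
    (∃ d, d ∈ LinearMap.range T ∧ T = trv ω d) ∨
    (∃ p q, p ∈ LinearMap.range T ∧ q ∈ LinearMap.range T ∧ (∀ a c : K, a • p + c • q = 0 →
      a = 0 ∧ c = 0) ∧ ∀ v, T v = ω v p • q + ω v q • p) := by
  obtain ⟨x, T1, e1, ⟨x0, hx0⟩, hT1, hr1⟩ := peel halt hnd hT h0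
  by_cases h1 : T1 = 0
  · left
    exact ⟨x, ⟨x0, hx0⟩, by rw [e1, h1, add_zero]⟩
  obtain ⟨y, T2, e2, ⟨y0, hy0⟩, -, hr2⟩ := peel halt hnd hT1 h1
  have hT2 : T2 = 0 := zero_of_rank (by omega)
  rw [hT2, add_zero] at e2
  have eT : ∀ v, T v = ω v x • x + ω v y • y := by
    intro v
    rw [e1, e2]; rfl
  have hxr : x ∈ LinearMap.range T := ⟨x0, hx0⟩
  have hyr : y ∈ LinearMap.range T := by
    refine ⟨y0 - ω y0 x • x0, ?_⟩
    rw [map_sub, map_smul, hx0, ← hy0, e1]
    change ω y0 x • x + T1 y0 - ω y0 x • x = T1 y0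
    abel
  obtain ⟨i, hi⟩ := IsAlgClosed.exists_pow_nat_eq (-1 : K) (n := 2) (by norm_num)
  set p : V := (1 / 2 : K) • (x + i • y) with hp
  set q : V := x - i • y with hq
  have hpr : p ∈ LinearMap.range T :=
    Submodule.smul_mem _ _ (Submodule.add_mem _ hxr (Submodule.smul_mem _ _ hyr))
  have hqr : q ∈ LinearMap.range T :=
    Submodule.sub_mem _ hxr (Submodule.smul_mem _ _ hyr)
  have epq : ∀ v, T v = ω v p • q + ω v q • p := by
    intro v
    rw [eT, hp, hq]
    simp only [map_smul, map_add, map_sub, smul_eq_mul, smul_add, smul_sub, smul_smul]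
    have h3 : i * i = -1 := by rw [← hi]; ring
    have h4 : ω v x • x + ω v y • y = ω v x • x + (-(i * i) * ω v y) • y := by
      rw [h3]; simp
    rw [h4]
    module
  clear_value p q
  have key : ∀ (d : V) (μ : K), d ∈ LinearMap.range T → (∀ v, T v = (μ * ω v d) • d) →
      ∃ d, d ∈ LinearMap.range T ∧ T = trv ω d := by
    intro d μ hd hd2
    obtain ⟨a, ha⟩ := IsAlgClosed.exists_pow_nat_eq μ (n := 2) (by norm_num)
    refine ⟨a • d, Submodule.smul_mem _ _ hd, ?_⟩
    ext v
    rw [hd2, trv_apply, map_smul, smul_smul, smul_eq_mul, ← ha]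
    congr 1
    ring
  by_cases hdep : ∀ a c : K, a • p + c • q = 0 → a = 0 ∧ c = 0
  · right
    exact ⟨p, q, hpr, hqr, hdep, epq⟩
  · left
    push Not at hdep
    obtain ⟨a, c, hac, hne⟩ := hdep
    by_cases hc : c = 0
    · have ha : a ≠ 0 := fun ha => hne ha hc
      have hp0 : p = 0 := by
        rw [hc, zero_smul, add_zero] at hac
        exact (smul_eq_zero.1 hac).resolve_left ha
      apply key p 0 hpr
      intro v
      rw [epq, hp0]; simp
    · have hq0 : q = (-(a / c)) • p := by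
        have h5 : c • q = c • ((-(a / c)) • p) := by
          rw [smul_smul]
          have h6 : c * -(a / c) = -a := by field_simp
          rw [h6, neg_smul]
          rw [add_comm] at hac
          exact eq_neg_of_add_eq_zero_left hac
        exact smul_right_injective V hc h5
      apply key p (2 * (-(a / c))) hpr
      intro v
      rw [epq, hq0, map_smul, smul_eq_mul]
      module

end Pool.Agent.H76RM
end

-- from Lib.H76RM.Core3
section

/-!
# The Lie algebra contains all transvections of all components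
-/

set_option autoImplicit false
set_option linter.unusedSectionVars false
namespace Pool.Agent.H76RM
open Module Pool.Agent.H53Toric

variable {K : Type*} [Field K] [IsAlgClosed K] [CharZero K] {V : Type*} [AddCommGroup V]
  [Module K V] [FiniteDimensional K V]
variable {B : Type*} [Fintype B] [DecidableEq B] {Γ : Type*} [Group Γ]
variable {ω : V →ₗ[K] V →ₗ[K] K} {e : B → Module.End K V}
    {g : Submodule K (Module.End K V)} {r : Γ →* Module.End K V}

/-- seed for the component `b`: a square zero element of `g` inducing `trv d` on `V_b` -/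
def Seed (ω : V →ₗ[K] V →ₗ[K] K) (e : B → Module.End K V)
    (g : Submodule K (Module.End K V)) (b : B) : Prop :=
  ∃ M ∈ g, M * M = 0 ∧ ∃ d, e b d = d ∧ d ≠ 0 ∧ M * e b = trv ω d

namespace Setup

variable (h : Setup ω e g r)
include h

theorem skew_e {A : Module.End K V} (hA : A ∈ g) (b : B) (v w : V) :
    ω ((A * e b) v) w = - ω v ((A * e b) w) := by
  change ω (A (e b v)) w = - ω v (A (e b w))
  rw [h.skew A hA, h.self, h.ecomm hA]

theorem range_e {A : Module.End K V} (hA : A ∈ g) {b : B} {v : V}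
    (hv : v ∈ LinearMap.range (A * e b)) : e b v = v := by
  obtain ⟨w, rfl⟩ := hv
  change e b (A (e b w)) = A (e b w)
  rw [h.ecomm hA, h.idem']

/-- `M Z M ∈ g` for square zero `M` -/
theorem mid {M Z : Module.End K V} (hM : M ∈ g) (hM2 : M * M = 0) (hZ : Z ∈ g) :
    M * Z * M ∈ g := by
  have h1 := h.dbl hM hZ
  have e1 : M * (M * Z - Z * M) - (M * Z - Z * M) * M = (-2 : K) • (M * Z * M) := by
    have : M * (M * Z - Z * M) - (M * Z - Z * M) * M =
        (M * M) * Z - (2 : K) • (M * Z * M) + Z * (M * M) := by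
      simp only [mul_sub, sub_mul, mul_assoc, two_smul]
      abel
    rw [this, hM2, zero_mul, mul_zero, add_zero, zero_sub, neg_smul]
  rw [e1] at h1
  have h2 := g.smul_mem (-1 / 2 : K) h1
  rw [smul_smul] at h2
  have e2 : (-1 / 2 : K) * (-2) = 1 := by norm_num
  rwa [e2, one_smul] at h2

theorem mid_e {M Z : Module.End K V} (hM : M ∈ g) (hZ : Z ∈ g) (b : B) (v : V) :
    (M * Z * M * e b) v = (M * e b) (Z ((M * e b) v)) := by
  change M (Z (M (e b v))) = M (e b (Z (M (e b v))))
  rw [h.ecomm hZ, h.ecomm hM, h.idem']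

theorem seed_of_small {b : B} {N : Module.End K V} (hN : N ∈ g) (hN2 : N * N = 0)
    (h0 : N * e b ≠ 0) (hr : finrank K (LinearMap.range (N * e b)) ≤ 2) :
    Seed ω e g b := by
  rcases rank_two h.alt (h.nd) (h.skew_e hN b) h0 hr with
    ⟨d, hd, hT⟩ | ⟨p, q, hp, hq, hpq, hT⟩
  · refine ⟨N, hN, hN2, d, h.range_e hN hd, ?_, hT⟩
    rintro rfl
    apply h0
    rw [hT]
    ext v
    rw [trv_apply, smul_zero]; rfl
  have hpb := h.range_e hN hp
  have hqb := h.range_e hN hq
  have hp0 : p ≠ 0 := by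
    rintro rfl
    have := hpq 1 0 (by simp)
    exact one_ne_zero this.1
  have hq0 : q ≠ 0 := by
    rintro rfl
    have := hpq 0 1 (by simp)
    exact one_ne_zero this.2
  by_cases hall : ∀ Z ∈ g, ω (Z p) p = 0
  · -- impossible
    exfalso
    obtain ⟨x, hx1, hx2, -⟩ := h.gen p p p q p p (h.ex hpb hpb hp0 hp0) (h.ex hpb hqb hp0 hq0)
      (h.ex hpb hpb hp0 hp0)
    obtain ⟨c, hc, hsim⟩ := h.sim x
    have h1 := hall _ (h.conj x N hN)
    have h2 : N (r x⁻¹ p) = ω (r x⁻¹ p) p • q + ω (r x⁻¹ p) q • p := by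
      rw [← hT]
      change _ = N (e b (r x⁻¹ p))
      rw [h.fixr _ hpb]
    have h3 : (r x * N * r x⁻¹) p = ω (r x⁻¹ p) p • r x q + ω (r x⁻¹ p) q • r x p := by
      change r x (N (r x⁻¹ p)) = _
      rw [h2, map_add, map_smul, map_smul]
    have h4 : ∀ w, ω (r x⁻¹ p) w = c⁻¹ * ω p (r x w) := by
      intro w
      have := hsim (r x⁻¹ p) w
      rw [h.rr] at this
      rw [this]; field_simp
    rw [h3, h4, h4] at h1
    simp only [map_add, map_smul, LinearMap.add_apply, LinearMap.smul_apply, smul_eq_mul] at h1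
    rw [h.anti (r x q) p, h.anti (r x p) p] at h1
    have h5 : (2 * c⁻¹) * (ω p (r x p) * ω p (r x q)) = 0 := by linear_combination -h1
    rcases mul_eq_zero.1 h5 with h6 | h6
    · rcases mul_eq_zero.1 h6 with h7 | h7
      · exact two_ne_zero h7
      · exact hc (inv_eq_zero.1 h7)
    · rcases mul_eq_zero.1 h6 with h7 | h7
      · exact hx1 h7
      · exact hx2 h7
  push Not at hall
  obtain ⟨Z, hZ, hZp⟩ := hall
  obtain ⟨a, ha⟩ := IsAlgClosed.exists_pow_nat_eq (ω (Z q) q) (n := 2) (by norm_num)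
  obtain ⟨c, hc⟩ := IsAlgClosed.exists_pow_nat_eq (ω (Z p) p) (n := 2) (by norm_num)
  have hc0 : c ≠ 0 := by
    rintro rfl
    apply hZp
    rw [← hc]; norm_num
  refine ⟨N * Z * N + (a * c - ω (Z p) q) • N, g.add_mem (h.mid hN hN2 hZ) (g.smul_mem _ hN), ?_,
    a • p + c • q, by rw [map_add, map_smul, map_smul, hpb, hqb], fun h0 => hc0 (hpq a c h0).2, ?_⟩
  · simp only [add_mul, mul_add, smul_mul_assoc, mul_smul_comm]
    have e1 : N * Z * N * (N * Z * N) = 0 := by
      rw [← mul_assoc, ← mul_assoc, mul_assoc (N * Z) N N, hN2]; simp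
    have e2 : N * Z * N * N = 0 := by rw [mul_assoc, hN2, mul_zero]
    have e3 : N * (N * Z * N) = 0 := by rw [← mul_assoc, ← mul_assoc, hN2]; simp
    rw [e1, e2, e3, hN2]; simp
  · ext v
    rw [add_mul, smul_mul_assoc]
    change (N * Z * N * e b) v + (a * c - ω (Z p) q) • (N * e b) v = trv ω (a • p + c • q) v
    rw [h.mid_e hN hZ, hT, hT, trv_apply]
    have e1 : ω (Z q) p = ω (Z p) q := by rw [h.skew Z hZ, h.anti q, neg_neg]
    simp only [map_add, map_smul, LinearMap.add_apply, LinearMap.smul_apply, smul_eq_mul]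
    rw [e1, ← ha, ← hc]
    module

end Setup

end Pool.Agent.H76RM
end

-- from Lib.H76U.Base
section

/-!
# Lie algebras and groups of similitudes with components of symplectic and unitary type

`e b` are orthogonal projectors of `V`, permuted by the involution `bar` under taking adjoints:
`bar b = b` for symplectic components, `bar b ≠ b` for unitary ones.
-/

set_option autoImplicit false
set_option linter.unusedSectionVars false
namespace Pool.Agent.H76U
open Module Pool.Agent.H53Toric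

variable {K : Type*} [Field K] {V : Type*} [AddCommGroup V] [Module K V]
variable {B : Type*} [Fintype B] [DecidableEq B] {Γ : Type*} [Group Γ]

/-- `v ↦ ω(v, w) u` -/
def tw (ω : V →ₗ[K] V →ₗ[K] K) (u w : V) : Module.End K V := (ω.flip w).smulRight u

theorem tw_apply (ω : V →ₗ[K] V →ₗ[K] K) (u w v : V) : tw ω u w v = ω v w • u := rfl

/-- the algebra generated by the matrix coefficients -/
def coef (ω : V →ₗ[K] V →ₗ[K] K) (r : Γ →* Module.End K V) : Subalgebra K (Γ → K) :=
  Algebra.adjoin K (Set.range fun p : V × V => fun x => ω (r x p.1) p.2)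

/-- the monoid generated by the one parameter groups `t ^ h` -/
def hmon (𝓗 : Set (Module.End K V)) : Submonoid (Module.End K V) :=
  Submonoid.closure {m | ∃ h ∈ 𝓗, ∃ t : K, t ≠ 0 ∧ m = 1 + (t - 1) • h}

structure Big (ω : V →ₗ[K] V →ₗ[K] K) (e : B → Module.End K V) (bar : B → B)
    (g : Submodule K (Module.End K V)) (r : Γ →* Module.End K V)
    (𝓗 : Set (Module.End K V)) : Prop where
  alt : ∀ v, ω v v = 0
  nd : ∀ u, (∀ w, ω u w = 0) → u = 0
  lie : ∀ A ∈ g, ∀ C ∈ g, A * C - C * A ∈ g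
  skew : ∀ A ∈ g, ∀ v w, ω (A v) w = - ω v (A w)
  sim : ∀ x, ∃ c : K, c ≠ 0 ∧ ∀ v w, ω (r x v) (r x w) = c * ω v w
  conj : ∀ x, ∀ A ∈ g, r x * A * r x⁻¹ ∈ g
  idem : ∀ b, e b * e b = e b
  orth : ∀ b c, b ≠ c → e b * e c = 0
  barbar : ∀ b, bar (bar b) = b
  self : ∀ b v w, ω (e b v) w = ω v (e (bar b) w)
  gcomm : ∀ b, ∀ A ∈ g, e b * A = A * e b
  rcomm : ∀ b x, e b * r x = r x * e b
  prime : ∀ p ∈ coef ω r, ∀ q ∈ coef ω r, (∀ x, p x * q x = 0) → (∀ x, p x = 0) ∨ ∀ x, q x = 0
  exp : ∀ A ∈ g, A * A = 0 → ∀ a : K, ∃ x, r x = 1 + a • A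
  hidem : ∀ h ∈ 𝓗, h * h = h
  hcomm : ∀ h ∈ 𝓗, ∀ b, e b * h = h * e b
  hadj : ∀ h ∈ 𝓗, ∀ v w, ω (h v) w + ω v (h w) = ω v w
  hexp : ∀ h ∈ 𝓗, ∀ t : K, t ≠ 0 → ∃ x, r x = 1 + (t - 1) • h
  hnon : ∀ h ∈ 𝓗, ∀ b, bar b ≠ b →
    (∃ u w, e b u = u ∧ e (bar b) w = w ∧ u ≠ 0 ∧ w ≠ 0 ∧ ω u w = 0) →
    h * e b ≠ 0 ∧ h * e b ≠ e b
  falt : ∀ u v : V, (∑ b, e b) u = u → (∑ b, e b) v = v → (∀ m ∈ hmon 𝓗, ω (m v) u = 0) →
    ∀ b, e b v = 0 ∨ e (bar b) u = 0

variable {ω : V →ₗ[K] V →ₗ[K] K} {e : B → Module.End K V} {bar : B → B}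
    {g : Submodule K (Module.End K V)} {r : Γ →* Module.End K V} {𝓗 : Set (Module.End K V)}

namespace Big

variable (h : Big ω e bar g r 𝓗)
include h

theorem anti (v w : V) : ω v w = - ω w v := H76RM.anti0 h.alt v w

theorem nd2 {u : V} (hu : ∀ w, ω w u = 0) : u = 0 :=
  h.nd u fun w => by rw [h.anti, hu, neg_zero]

theorem idem' (b : B) (v : V) : e b (e b v) = e b v := by
  have := congrArg (fun f : Module.End K V => f v) (h.idem b)
  exact this

theorem orth' {b c : B} (hbc : b ≠ c) (v : V) : e b (e c v) = 0 := by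
  have := congrArg (fun f : Module.End K V => f v) (h.orth b c hbc)
  exact this

theorem orthf {b c : B} (hbc : b ≠ c) {v : V} (hv : e c v = v) : e b v = 0 := by
  rw [← hv]; exact h.orth' hbc v

theorem bar_inj {b c : B} (hbc : bar b = bar c) : b = c := by
  rw [← h.barbar b, hbc, h.barbar]


theorem self' (b : B) (v w : V) : ω (e (bar b) v) w = ω v (e b w) := by
  rw [h.self, h.barbar]

theorem ecomm {A : Module.End K V} (hA : A ∈ g) (b : B) (v : V) : e b (A v) = A (e b v) := by
  have := congrArg (fun f : Module.End K V => f v) (h.gcomm b A hA)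
  exact this

theorem ercomm (x : Γ) (b : B) (v : V) : e b (r x v) = r x (e b v) := by
  have := congrArg (fun f : Module.End K V => f v) (h.rcomm b x)
  exact this

theorem ehcomm {k : Module.End K V} (hk : k ∈ 𝓗) (b : B) (v : V) : e b (k v) = k (e b v) := by
  have := congrArg (fun f : Module.End K V => f v) (h.hcomm k hk b)
  exact this

theorem fixA {A : Module.End K V} (hA : A ∈ g) {b : B} {v : V} (hv : e b v = v) :
    e b (A v) = A v := by
  rw [h.ecomm hA, hv]

theorem fixr (x : Γ) {b : B} {v : V} (hv : e b v = v) : e b (r x v) = r x v := by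
  rw [h.ercomm, hv]

theorem fixh {k : Module.End K V} (hk : k ∈ 𝓗) {b : B} {v : V} (hv : e b v = v) :
    e b (k v) = k v := by
  rw [h.ehcomm hk, hv]

/-- `V_b` is orthogonal to `V_c` unless `c = bar b` -/
theorem perp {b c : B} (hbc : c ≠ bar b) {v w : V} (hv : e b v = v) (hw : e c w = w) :
    ω v w = 0 := by
  rw [← hv, h.self, h.orthf (Ne.symm hbc) hw, map_zero]

theorem fsum {b : B} {v : V} (hv : e b v = v) : (∑ c, e c) v = v := by
  rw [LinearMap.sum_apply, Finset.sum_eq_single b]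
  · exact hv
  · intro c _ hcb
    exact h.orthf hcb hv
  · intro hb
    exact absurd (Finset.mem_univ b) hb

theorem nd' {b : B} {u : V} (hb : e b u = u) (hu : ∀ w, e (bar b) w = w → ω u w = 0) :
    u = 0 := by
  apply h.nd
  intro w
  rw [← hb, h.self]
  exact hu _ (h.idem' _ w)

theorem rr (x : Γ) (v : V) : r x (r x⁻¹ v) = v := by
  have h1 : r x * r x⁻¹ = 1 := by rw [← map_mul, mul_inv_cancel, map_one]
  have := congrArg (fun f : Module.End K V => f v) h1
  exact this

theorem rr' (x : Γ) (v : V) : r x⁻¹ (r x v) = v := by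
  have h1 : r x⁻¹ * r x = 1 := by rw [← map_mul, inv_mul_cancel, map_one]
  have := congrArg (fun f : Module.End K V => f v) h1
  exact this

theorem rmul (x y : Γ) (v : V) : r (x * y) v = r x (r y v) := by
  rw [map_mul]; rfl

/-- elements of the monoid come from the group -/
theorem hmon_mem {m : Module.End K V} (hm : m ∈ hmon 𝓗) : ∃ x, r x = m := by
  induction hm using Submonoid.closure_induction with
  | mem m hm =>
    obtain ⟨k, hk, t, ht, rfl⟩ := hm
    exact h.hexp k hk t ht
  | one => exact ⟨1, map_one r⟩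
  | mul a b _ _ ha hb =>
    obtain ⟨x, hx⟩ := ha
    obtain ⟨y, hy⟩ := hb
    exact ⟨x * y, by rw [map_mul, hx, hy]⟩

/-- `falt` for the group -/
theorem faltr {u v : V} (hu : (∑ b, e b) u = u) (hv : (∑ b, e b) v = v)
    (hx : ∀ x, ω (r x v) u = 0) (b : B) : e b v = 0 ∨ e (bar b) u = 0 := by
  apply h.falt u v hu hv
  intro m hm
  obtain ⟨x, rfl⟩ := h.hmon_mem hm
  exact hx x

/-- nonvanishing of matrix coefficients -/
theorem ex {b : B} {u w : V} (hu : e b u = u) (hw : e (bar b) w = w) (hu0 : u ≠ 0)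
    (hw0 : w ≠ 0) : ∃ x, ω (r x u) w ≠ 0 := by
  by_contra hcon
  push Not at hcon
  rcases h.faltr (h.fsum hw) (h.fsum hu) hcon b with h1 | h1
  · exact hu0 (by rw [← hu, h1])
  · exact hw0 (by rw [← hw, h1])

theorem ex' {b : B} {u w : V} (hu : e b u = u) (hw : e (bar b) w = w) (hu0 : u ≠ 0)
    (hw0 : w ≠ 0) : ∃ x, ω u (r x w) ≠ 0 := by
  obtain ⟨x, hx⟩ := h.ex (b := bar b) (u := w) (w := u) hw (by rw [h.barbar]; exact hu) hw0 hu0
  refine ⟨x, ?_⟩
  rw [h.anti]
  exact neg_ne_zero.2 hx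

/-- double bracket -/
theorem dbl {A C : Module.End K V} (hA : A ∈ g) (hC : C ∈ g) :
    A * (A * C - C * A) - (A * C - C * A) * A ∈ g := h.lie A hA _ (h.lie A hA C hC)

theorem cf (u w : V) : (fun x => ω (r x u) w) ∈ coef ω r :=
  Algebra.subset_adjoin ⟨(u, w), rfl⟩

theorem cf' (u w : V) : (fun x => ω u (r x w)) ∈ coef ω r := by
  have h1 : (fun x => ω u (r x w)) = -(fun x => ω (r x w) u) := by
    funext x
    exact h.anti _ _
  rw [h1]
  exact neg_mem (Algebra.subset_adjoin ⟨(w, u), rfl⟩)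

theorem prime2 {p q : Γ → K} (hp : p ∈ coef ω r) (hq : q ∈ coef ω r) (hp0 : ∃ x, p x ≠ 0)
    (hq0 : ∃ x, q x ≠ 0) : ∃ x, p x ≠ 0 ∧ q x ≠ 0 := by
  by_contra hcon
  push Not at hcon
  rcases h.prime p hp q hq (fun x => by
    by_cases hx : p x = 0
    · rw [hx, zero_mul]
    · rw [hcon x hx, mul_zero]) with h1 | h1
  · obtain ⟨x, hx⟩ := hp0
    exact hx (h1 x)
  · obtain ⟨x, hx⟩ := hq0
    exact hx (h1 x)

theorem prime3 {p q s : Γ → K} (hp : p ∈ coef ω r) (hq : q ∈ coef ω r) (hs : s ∈ coef ω r)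
    (hp0 : ∃ x, p x ≠ 0) (hq0 : ∃ x, q x ≠ 0) (hs0 : ∃ x, s x ≠ 0) :
    ∃ x, p x ≠ 0 ∧ q x ≠ 0 ∧ s x ≠ 0 := by
  obtain ⟨x, hx1, hx2⟩ := h.prime2 hq hs hq0 hs0
  obtain ⟨y, hy1, hy2⟩ := h.prime2 hp (mul_mem hq hs) hp0 ⟨x, mul_ne_zero hx1 hx2⟩
  exact ⟨y, hy1, left_ne_zero_of_mul hy2, right_ne_zero_of_mul hy2⟩

theorem prime4 {p q s t : Γ → K} (hp : p ∈ coef ω r) (hq : q ∈ coef ω r) (hs : s ∈ coef ω r)
    (ht : t ∈ coef ω r) (hp0 : ∃ x, p x ≠ 0) (hq0 : ∃ x, q x ≠ 0) (hs0 : ∃ x, s x ≠ 0)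
    (ht0 : ∃ x, t x ≠ 0) : ∃ x, p x ≠ 0 ∧ q x ≠ 0 ∧ s x ≠ 0 ∧ t x ≠ 0 := by
  obtain ⟨x, hx1, hx2⟩ := h.prime2 hs ht hs0 ht0
  obtain ⟨y, hy1, hy2, hy3⟩ := h.prime3 hp hq (mul_mem hs ht) hp0 hq0
    ⟨x, mul_ne_zero hx1 hx2⟩
  exact ⟨y, hy1, hy2, left_ne_zero_of_mul hy3, right_ne_zero_of_mul hy3⟩

end Big

end Pool.Agent.H76U
end

-- from Lib.H76U.PP
section

/-!
# Elements of rank one of a component
-/

set_option autoImplicit false
set_option linter.unusedSectionVars false
namespace Pool.Agent.H76U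
open Module Pool.Agent.H53Toric

variable {K : Type*} [Field K] {V : Type*} [AddCommGroup V] [Module K V]
variable {B : Type*} [Fintype B] [DecidableEq B] {Γ : Type*} [Group Γ]
variable {ω : V →ₗ[K] V →ₗ[K] K} {e : B → Module.End K V} {bar : B → B}
    {g : Submodule K (Module.End K V)} {r : Γ →* Module.End K V} {𝓗 : Set (Module.End K V)}

/-- `u ∈ V_b`, `w ∈ V_(bar b)`, `ω(u, w) = 0`, and some element of `g` induces `tw u w` on `V_b` -/
def PP (ω : V →ₗ[K] V →ₗ[K] K) (e : B → Module.End K V) (bar : B → B)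
    (g : Submodule K (Module.End K V)) (b : B) (u w : V) : Prop :=
  e b u = u ∧ e (bar b) w = w ∧ ω u w = 0 ∧ ∃ A ∈ g, A * e b = tw ω u w

theorem tw_zero_left (ω : V →ₗ[K] V →ₗ[K] K) (w : V) : tw ω 0 w = 0 := by
  ext v; rw [tw_apply, smul_zero]; rfl

theorem tw_zero_right (ω : V →ₗ[K] V →ₗ[K] K) (u : V) : tw ω u 0 = 0 := by
  ext v; rw [tw_apply, map_zero, zero_smul]; rfl

theorem tw_add_left (ω : V →ₗ[K] V →ₗ[K] K) (u u' w : V) :
    tw ω (u + u') w = tw ω u w + tw ω u' w := by
  ext v; rw [tw_apply, smul_add]; rfl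

theorem tw_add_right (ω : V →ₗ[K] V →ₗ[K] K) (u w w' : V) :
    tw ω u (w + w') = tw ω u w + tw ω u w' := by
  ext v; rw [tw_apply, map_add, add_smul]; rfl

theorem tw_smul_left (ω : V →ₗ[K] V →ₗ[K] K) (a : K) (u w : V) :
    tw ω (a • u) w = a • tw ω u w := by
  ext v
  change ω v w • a • u = a • ω v w • u
  rw [smul_comm]

theorem tw_smul_right (ω : V →ₗ[K] V →ₗ[K] K) (a : K) (u w : V) :
    tw ω u (a • w) = a • tw ω u w := by
  ext v
  change ω v (a • w) • u = a • ω v w • u
  rw [map_smul, smul_smul, smul_eq_mul]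

theorem tw_mul (ω : V →ₗ[K] V →ₗ[K] K) (u w u' w' : V) :
    tw ω u w * tw ω u' w' = ω u' w • tw ω u w' := by
  ext v
  change tw ω u w (tw ω u' w' v) = ω u' w • tw ω u w' v
  rw [tw_apply, tw_apply, tw_apply, map_smul, LinearMap.smul_apply, smul_eq_mul, smul_smul,
    mul_comm]

/-- a product with an operator in the middle -/
theorem tw_mid (ω : V →ₗ[K] V →ₗ[K] K) (u w : V) (X : Module.End K V) :
    tw ω u w * X * tw ω u w = ω (X u) w • tw ω u w := by
  ext v
  change tw ω u w (X (tw ω u w v)) = ω (X u) w • tw ω u w v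
  rw [tw_apply, tw_apply, map_smul, map_smul, LinearMap.smul_apply, smul_eq_mul, smul_smul,
    mul_comm]

theorem tw_sq {ω : V →ₗ[K] V →ₗ[K] K} {u w : V} (huw : ω u w = 0) :
    tw ω u w * tw ω u w = 0 := by
  rw [tw_mul, huw, zero_smul]

namespace Big

variable (h : Big ω e bar g r 𝓗)
include h



theorem tw_ne {u w : V} (hu : u ≠ 0) (hw : w ≠ 0) : tw ω u w ≠ 0 := by
  intro h0
  apply hw
  apply h.nd2
  intro v
  have h1 : tw ω u w v = 0 := by rw [h0]; rfl
  rw [tw_apply] at h1
  exact (smul_eq_zero.1 h1).resolve_right hu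

/-- products with the projector -/
theorem mul_e {A C : Module.End K V} (_hA : A ∈ g) (hC : C ∈ g) (b : B) :
    A * C * e b = (A * e b) * (C * e b) := by
  have h1 : A * e b * (C * e b) = A * (e b * C) * e b := by simp only [mul_assoc]
  rw [h1, h.gcomm b C hC, ← mul_assoc A C (e b), mul_assoc (A * C), h.idem]

theorem mul_e' {A C : Module.End K V} (hA : A ∈ g) (hC : C ∈ g) (b : B) :
    (A * C - C * A) * e b = (A * e b) * (C * e b) - (C * e b) * (A * e b) := by
  rw [sub_mul, h.mul_e hA hC, h.mul_e hC hA]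

theorem dbl_e {A C : Module.End K V} (hA : A ∈ g) (hC : C ∈ g) (b : B)
    (h2 : (A * e b) * (A * e b) = 0) :
    (A * (A * C - C * A) - (A * C - C * A) * A) * e b =
      (-2 : K) • ((A * e b) * (C * e b) * (A * e b)) := by
  rw [h.mul_e' hA (h.lie A hA C hC), h.mul_e' hA hC]
  have e1 : A * e b * (A * e b * (C * e b) - C * e b * (A * e b)) -
      (A * e b * (C * e b) - C * e b * (A * e b)) * (A * e b) =
      (A * e b) * (A * e b) * (C * e b) - (2 : K) • ((A * e b) * (C * e b) * (A * e b)) +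
      (C * e b) * ((A * e b) * (A * e b)) := by
    simp only [mul_sub, sub_mul, mul_assoc, two_smul]
    abel
  rw [e1, h2, zero_mul, mul_zero, add_zero, zero_sub, neg_smul]

/-- the partner of `A * e b` on the dual component -/
theorem skew_bar {A : Module.End K V} (hA : A ∈ g) {b : B} {u w : V} (hu : e b u = u)
    (hAb : A * e b = tw ω u w) : A * e (bar b) = tw ω w u := by
  ext v
  change A (e (bar b) v) = tw ω w u v
  rw [← sub_eq_zero]
  apply h.nd
  intro y
  rw [map_sub, LinearMap.sub_apply, h.skew A hA, h.self', h.ecomm hA]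
  have h1 : A (e b y) = tw ω u w y := by
    rw [← hAb]; rfl
  rw [h1, tw_apply, tw_apply, map_smul, map_smul, LinearMap.smul_apply, smul_eq_mul, smul_eq_mul,
    h.anti w y]
  ring

/-- action of `A` on vectors of the component -/
theorem app_e {A : Module.End K V} {b : B} {u w v : V} (hAb : A * e b = tw ω u w)
    (hv : e b v = v) : A v = ω v w • u := by
  rw [← tw_apply, ← hAb]
  change A v = A (e b v)
  rw [hv]



theorem PP_smul_right {b : B} {u w : V} (hp : PP ω e bar g b u w) (a : K) :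
    PP ω e bar g b u (a • w) := by
  obtain ⟨hu, hw, huw, A, hA, hAb⟩ := hp
  refine ⟨hu, by rw [map_smul, hw], by rw [map_smul, huw, smul_zero],
    a • A, g.smul_mem _ hA, ?_⟩
  rw [smul_mul_assoc, hAb, tw_smul_right]

theorem PP_add_right {b : B} {u w w' : V} (hp : PP ω e bar g b u w)
    (hp' : PP ω e bar g b u w') : PP ω e bar g b u (w + w') := by
  obtain ⟨hu, hw, huw, A, hA, hAb⟩ := hp
  obtain ⟨-, hw', huw', A', hA', hAb'⟩ := hp'
  refine ⟨hu, by rw [map_add, hw, hw'], by rw [map_add, huw, huw', add_zero],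
    A + A', g.add_mem hA hA', ?_⟩
  rw [add_mul, hAb, hAb', tw_add_right]


theorem PP_zero_right {b : B} {u : V} (hu : e b u = u) : PP ω e bar g b u 0 :=
  ⟨hu, map_zero _, map_zero _, 0, g.zero_mem, by rw [zero_mul, tw_zero_right]⟩

/-- conjugates of `tw` -/
theorem conj_tw (x : Γ) : ∃ c : K, c ≠ 0 ∧ (∀ v w, ω (r x v) (r x w) = c * ω v w) ∧
    ∀ u w, r x * tw ω u w * r x⁻¹ = c⁻¹ • tw ω (r x u) (r x w) := by
  obtain ⟨c, hc, hsim⟩ := h.sim x
  refine ⟨c, hc, hsim, fun u w => ?_⟩
  ext v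
  change r x (tw ω u w (r x⁻¹ v)) = c⁻¹ • tw ω (r x u) (r x w) v
  rw [tw_apply, tw_apply, map_smul, smul_smul]
  congr 1
  have h1 := hsim (r x⁻¹ v) w
  rw [h.rr] at h1
  rw [h1]
  field_simp




end Big

end Pool.Agent.H76U
end

-- from Lib.H76U.Coef
section

/-!
# Functions in the algebra generated by the matrix coefficients
-/

set_option autoImplicit false
set_option linter.unusedSectionVars false
namespace Pool.Agent.H76U
open Module Pool.Agent.H53Toric

variable {K : Type*} [Field K] {V : Type*} [AddCommGroup V] [Module K V]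
variable {B : Type*} [Fintype B] [DecidableEq B] {Γ : Type*} [Group Γ]
variable {ω : V →ₗ[K] V →ₗ[K] K} {e : B → Module.End K V} {bar : B → B}
    {g : Submodule K (Module.End K V)} {r : Γ →* Module.End K V} {𝓗 : Set (Module.End K V)}

namespace Big

variable (h : Big ω e bar g r 𝓗)
include h

theorem move (x : Γ) : ∃ c : K, c ≠ 0 ∧ (∀ a w, ω (r x a) (r x w) = c * ω a w) ∧
    (∀ a w, ω (r x a) w = c * ω a (r x⁻¹ w)) ∧ (∀ a w, ω (r x⁻¹ a) w = c⁻¹ * ω a (r x w)) := by
  obtain ⟨c, hc, hs⟩ := h.sim x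
  refine ⟨c, hc, hs, ?_, ?_⟩
  · intro a w
    rw [← hs, h.rr]
  · intro a w
    have := hs (r x⁻¹ a) w
    rw [h.rr] at this
    rw [this]
    field_simp

theorem surj [FiniteDimensional K V] (f : V →ₗ[K] K) : ∃ a, ∀ v, f v = ω v a := by
  have hinj : Function.Injective ω := by
    rw [← LinearMap.ker_eq_bot, LinearMap.ker_eq_bot']
    intro u hu
    apply h.nd
    intro w
    rw [hu]; rfl
  have hfin : finrank K V = finrank K (V →ₗ[K] K) := by
    rw [← Subspace.dual_finrank_eq (K := K) (V := V)]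
  obtain ⟨u, hu⟩ := (LinearMap.injective_iff_surjective_of_finrank_eq_finrank hfin).1 hinj f
  refine ⟨-u, fun v => ?_⟩
  rw [map_neg, ← hu, h.anti u v]

theorem cf_dual [FiniteDimensional K V] (f : V →ₗ[K] K) (u : V) :
    (fun x => f (r x u)) ∈ coef ω r := by
  obtain ⟨a, ha⟩ := h.surj f
  have h1 : (fun x => f (r x u)) = fun x => ω (r x u) a := by
    funext x
    exact ha _
  rw [h1]
  exact h.cf u a

theorem cf2 [FiniteDimensional K V] (X Y : Module.End K V) (u w : V) :
    (fun x => ω (X (r x u)) (Y (r x w))) ∈ coef ω r := by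
  set bs := Module.finBasis K V with hbs
  have h1 : (fun x => ω (X (r x u)) (Y (r x w))) =
      ∑ i, (fun x => (bs.coord i ∘ₗ Y) (r x w)) * (fun x => (ω.flip (bs i) ∘ₗ X) (r x u)) := by
    funext x
    rw [Finset.sum_apply]
    simp only [Pi.mul_apply, LinearMap.comp_apply, LinearMap.flip_apply, Basis.coord_apply]
    conv_lhs => rw [← bs.sum_repr (Y (r x w))]
    rw [map_sum]
    apply Finset.sum_congr rfl
    intro i _
    rw [map_smul, smul_eq_mul]
  rw [h1]
  exact sum_mem fun i _ => mul_mem (h.cf_dual _ _) (h.cf_dual _ _)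

theorem cfL [FiniteDimensional K V] (x : Γ) (u w : V) :
    (fun y => ω (r (x * y) u) w) ∈ coef ω r := by
  have h1 : (fun y => ω (r (x * y) u) w) = fun y => (ω.flip w ∘ₗ r x) (r y u) := by
    funext y
    rw [h.rmul]; rfl
  rw [h1]
  exact h.cf_dual _ _

theorem cfL' [FiniteDimensional K V] (x : Γ) (u w : V) :
    (fun y => ω u (r (x * y) w)) ∈ coef ω r := by
  have h1 : (fun y => ω u (r (x * y) w)) = fun y => (ω u ∘ₗ r x) (r y w) := by
    funext y
    rw [h.rmul]; rfl
  rw [h1]
  exact h.cf_dual _ _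

/-- From the relations of types two and three to multiplicativity. -/
theorem mult_of [FiniteDimensional K V] {u w u' w' : V}
    (h2 : ∀ x, ω (r x u) w * ω u (r x w) = ω (r x u') w' * ω u' (r x w'))
    (h3 : ∀ x y, ω (r x u) w * ω (r y u) w * ω u (r (x * y) w) =
      ω (r x u') w' * ω (r y u') w' * ω u' (r (x * y) w'))
    (hne : ∃ x, ω u (r x w) ≠ 0) (x y : Γ) :
    ω (r x u) w * ω (r y u) w * ω (r (x * y) u') w' =
      ω (r x u') w' * ω (r y u') w' * ω (r (x * y) u) w := by
  rw [← sub_eq_zero]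
  have key : ∀ y, ω u (r (x * y) w) * (ω (r x u) w * ω (r y u) w * ω (r (x * y) u') w' -
      ω (r x u') w' * ω (r y u') w' * ω (r (x * y) u) w) = 0 := by
    intro y
    linear_combination ω (r (x * y) u') w' * h3 x y -
      ω (r x u') w' * ω (r y u') w' * h2 (x * y)
  rcases h.prime (fun y => ω u (r (x * y) w)) (h.cfL' x u w)
    (fun y => ω (r x u) w * ω (r y u) w * ω (r (x * y) u') w' -
      ω (r x u') w' * ω (r y u') w' * ω (r (x * y) u) w) (by
      refine sub_mem (mul_mem (mul_mem ?_ (h.cf u w)) (h.cfL x u' w'))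
        (mul_mem (mul_mem ?_ (h.cf u' w')) (h.cfL x u w))
      · exact (coef ω r).algebraMap_mem (ω (r x u) w)
      · exact (coef ω r).algebraMap_mem (ω (r x u') w')) key with h4 | h4
  · exfalso
    obtain ⟨z, hz⟩ := hne
    apply hz
    have := h4 (x⁻¹ * z)
    simp only [mul_inv_cancel_left] at this
    exact this
  · exact h4 y

end Big

end Pool.Agent.H76U
end
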