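import Pool.Agent.Lib.H1M.RC.M007

/-! Merged copies (to shorten the build) of Lib.H76U.Twist, Lib.H76U.Thin, Lib.H76U.Hodge, Lib.H76U.Full, Lib.H76U.CorePair, Lib.H76U.Span, Lib.H76U.Indep, Lib.H76U.Indep2, Lib.H76U.All. -/

-- from Lib.H76U.Twist
section

/-!
# The twist lemma
-/

set_option autoImplicit false
set_option linter.unusedSectionVars false
namespace Pool.Agent.H76U
open Module Pool.Agent.H53Toric

variable {K : Type*} [Field K] {V : Type*} [AddCommGroup V] [Module K V]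
variable {B : Type*} [Fintype B] [DecidableEq B] {Γ : Type*} [Group Γ]
variable {ω : V →ₗ[K] V →ₗ[K] K} {e : B → Module.End K V} {bar : B → B}
    {g : Submodule K (Module.End K V)} {r : Γ →* Module.End K V} {𝓗 : Set (Module.End K V)}

namespace Big

variable (h : Big ω e bar g r 𝓗)
include h

theorem conj_mem {k : Module.End K V} (hk : k ∈ 𝓗) {t : K} (ht : t ≠ 0) (z : Γ) :
    ∃ y, r y = 1 + (t - 1) • (r z⁻¹ * k * r z) ∧
      ∃ μ, r μ = 1 + (t - 1) • k ∧ y = z⁻¹ * μ * z := by
  obtain ⟨μ, hμ⟩ := h.hexp k hk t ht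
  refine ⟨z⁻¹ * μ * z, ?_, μ, hμ, rfl⟩
  have h1 : r z⁻¹ * r z = 1 := by rw [← map_mul, inv_mul_cancel, map_one]
  rw [map_mul, map_mul, hμ, mul_add, add_mul, mul_one, h1, mul_smul_comm, smul_mul_assoc]

/-- one conjugate -/
theorem twist1 [CharZero K] [FiniteDimensional K V] {u w u' w' : V} (huw : ω u w = 0)
    (hu'w' : ω u' w' = 0)
    (mult : ∀ x y, ω (r x u) w * ω (r y u) w * ω (r (x * y) u') w' =
      ω (r x u') w' * ω (r y u') w' * ω (r (x * y) u) w)
    (hF : ∃ x, ω (r x u) w ≠ 0) (hF' : ∃ x, ω (r x u') w' ≠ 0)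
    {k : Module.End K V} (hk : k ∈ 𝓗) (z : Γ)
    (hz : ω (k (r z u)) (r z w) ≠ 0) {t : K} (ht : t ≠ 0) {y : Γ} (hy : r y =
      1 + (t - 1) • (r z⁻¹ * k * r z)) (x : Γ) :
    ω (r (y * x) u) w * ω (r x u') w' = ω (r (y * x) u') w' * ω (r x u) w := by
  set kz := r z⁻¹ * k * r z with hkz
  -- linear functions
  have hFk : ω (kz u) w ≠ 0 := by
    obtain ⟨c, hc, -, -, h1⟩ := h.move z
    have : ω (kz u) w = c⁻¹ * ω (k (r z u)) (r z w) := h1 _ _
    rw [this]
    exact mul_ne_zero (inv_ne_zero hc) hz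
  have hlin : ∀ t : K, t ≠ 0 → ∀ x, (t - 1) * ω (kz u) w * ω (r x u) w *
      (ω (r x u') w' + (t - 1) * ω (kz (r x u')) w') =
      (t - 1) * ω (kz u') w' * ω (r x u') w' *
      (ω (r x u) w + (t - 1) * ω (kz (r x u)) w) := by
    intro t ht x
    obtain ⟨y, hy, -⟩ := h.conj_mem hk ht z
    have h1 := mult y x
    rw [h.rmul, h.rmul, hy] at h1
    simp only [LinearMap.add_apply, LinearMap.smul_apply, Module.End.one_apply, map_add,
      map_smul, smul_eq_mul, huw, hu'w', zero_add] at h1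
    exact h1
  have h2 := hlin 2 (by norm_num)
  have h3 := hlin 3 (by norm_num)
  have hlin2 : ∀ x, ω (kz u) w * ω (r x u) w * ω (kz (r x u')) w' =
      ω (kz u') w' * ω (r x u') w' * ω (kz (r x u)) w := by
    intro x
    linear_combination (1 / 2 : K) * h3 x - h2 x
  have hlin1 : ∀ x, ω (kz u) w * ω (r x u) w * ω (r x u') w' =
      ω (kz u') w' * ω (r x u') w' * ω (r x u) w := by
    intro x
    linear_combination h2 x - hlin2 x
  have heq : ω (kz u) w = ω (kz u') w' := by
    obtain ⟨x, hx1, hx2⟩ := h.prime2 (h.cf u w) (h.cf u' w') hF hF'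
    have h4 := hlin1 x
    have h5 : (ω (kz u) w - ω (kz u') w') * (ω (r x u) w * ω (r x u') w') = 0 := by
      linear_combination h4
    rcases mul_eq_zero.1 h5 with h6 | h6
    · exact sub_eq_zero.1 h6
    · exact absurd h6 (mul_ne_zero hx1 hx2)
  have hS1 : ω (r x u) w * ω (kz (r x u')) w' = ω (r x u') w' * ω (kz (r x u)) w := by
    have h4 := hlin2 x
    rw [← heq] at h4
    have h5 : ω (kz u) w * (ω (r x u) w * ω (kz (r x u')) w' -
        ω (r x u') w' * ω (kz (r x u)) w) = 0 := by linear_combination h4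
    exact sub_eq_zero.1 ((mul_eq_zero.1 h5).resolve_left hFk)
  rw [h.rmul, h.rmul, hy]
  simp only [LinearMap.add_apply, LinearMap.smul_apply, Module.End.one_apply, map_add,
    map_smul, smul_eq_mul]
  linear_combination (-(t - 1)) * hS1

/-- one generator of the monoid -/
theorem twist2 [CharZero K] [FiniteDimensional K V] {u w u' w' : V} (huw : ω u w = 0)
    (hu'w' : ω u' w' = 0)
    (mult : ∀ x y, ω (r x u) w * ω (r y u) w * ω (r (x * y) u') w' =
      ω (r x u') w' * ω (r y u') w' * ω (r (x * y) u) w)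
    (hF : ∃ x, ω (r x u) w ≠ 0) (hF' : ∃ x, ω (r x u') w' ≠ 0)
    (hG' : ∃ x, ω u' (r x w') ≠ 0)
    {k : Module.End K V} (hk : k ∈ 𝓗) (hz : ∃ z, ω (k (r z u)) (r z w) ≠ 0) {t : K}
    (ht : t ≠ 0) {μ : Γ} (hμ : r μ = 1 + (t - 1) • k) (y : Γ) :
    ω (r (μ * y) u) w * ω (r y u') w' = ω (r (μ * y) u') w' * ω (r y u) w := by
  obtain ⟨z, hz1, hz2⟩ := h.prime2 (p := fun z => ω (k (r z u)) (r z w))
    (q := fun z => ω u' (r z w')) (by
      have := h.cf2 k 1 u w
      exact this) (h.cf' u' w') hz hG'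
  have hE' : ω (r z⁻¹ u') w' ≠ 0 := by
    obtain ⟨c, hc, -, -, h1⟩ := h.move z
    rw [h1]
    exact mul_ne_zero (inv_ne_zero hc) hz2
  have hk1 : r (z⁻¹ * μ * z) = 1 + (t - 1) • (r z⁻¹ * k * r z) := by
    have h1 : r z⁻¹ * r z = 1 := by rw [← map_mul, inv_mul_cancel, map_one]
    rw [map_mul, map_mul, hμ, mul_add, add_mul, mul_one, h1, mul_smul_comm, smul_mul_assoc]
  have key : ∀ y, (ω (r (z⁻¹ * μ * y) u') w' * ω (r (z⁻¹ * y) u) w) *
      (ω (r (μ * y) u) w * ω (r y u') w' - ω (r (μ * y) u') w' * ω (r y u) w) = 0 := by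
    intro y
    have hP := h.twist1 huw hu'w' mult hF hF' hk z hz1 ht hk1 (z⁻¹ * y)
    have e1 : z⁻¹ * μ * z * (z⁻¹ * y) = z⁻¹ * μ * y := by group
    rw [e1] at hP
    have hM1 := mult z⁻¹ (μ * y)
    have hM2 := mult z⁻¹ y
    rw [← mul_assoc] at hM1
    have h5 : ω (r z⁻¹ u') w' * ((ω (r (z⁻¹ * μ * y) u') w' * ω (r (z⁻¹ * y) u) w) *
        (ω (r (μ * y) u) w * ω (r y u') w' - ω (r (μ * y) u') w' * ω (r y u) w)) = 0 := by
      linear_combination (-ω (r (z⁻¹ * μ * y) u') w' * ω (r (μ * y) u) w) * hM2 +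
        (ω (r y u) w * ω (r (z⁻¹ * y) u') w') * hM1 +
        (ω (r z⁻¹ u') w' * ω (r (μ * y) u') w' * ω (r y u) w) * hP
    exact (mul_eq_zero.1 h5).resolve_left hE'
  rcases h.prime (fun y => ω (r (z⁻¹ * μ * y) u') w' * ω (r (z⁻¹ * y) u) w)
    (mul_mem (h.cfL _ _ _) (h.cfL _ _ _))
    (fun y => ω (r (μ * y) u) w * ω (r y u') w' - ω (r (μ * y) u') w' * ω (r y u) w)
    (sub_mem (mul_mem (h.cfL _ _ _) (h.cf _ _)) (mul_mem (h.cfL _ _ _) (h.cf _ _))) key
    with h6 | h6
  · exfalso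
    obtain ⟨x1, hx1⟩ := hF'
    obtain ⟨x2, hx2⟩ := hF
    obtain ⟨y, hy1, hy2⟩ := h.prime2 (h.cfL (z⁻¹ * μ) u' w') (h.cfL z⁻¹ u w)
      ⟨(z⁻¹ * μ)⁻¹ * x1, by simpa using hx1⟩ ⟨z * x2, by simpa using hx2⟩
    exact mul_ne_zero hy1 hy2 (h6 y)
  · exact sub_eq_zero.1 (h6 y)

/-- **The twist lemma.** -/
theorem twist [CharZero K] [FiniteDimensional K V] {b c : B} (hbc : b ≠ c) {u w u' w' : V}
    (hu : e b u = u) (hw : e (bar b) w = w) (hu' : e c u' = u') (hw' : e (bar c) w' = w')
    (hu0 : u ≠ 0) (hw0 : w ≠ 0) (hu'0 : u' ≠ 0) (hw'0 : w' ≠ 0)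
    (huw : ω u w = 0) (hu'w' : ω u' w' = 0)
    (mult : ∀ x y, ω (r x u) w * ω (r y u) w * ω (r (x * y) u') w' =
      ω (r x u') w' * ω (r y u') w' * ω (r (x * y) u) w)
    (hh : ∀ k ∈ 𝓗, ∃ z, ω (k (r z u)) (r z w) ≠ 0) : False := by
  have hF := h.ex hu hw hu0 hw0
  have hF' := h.ex hu' hw' hu'0 hw'0
  have hG' := h.ex' hu' hw' hu'0 hw'0
  have hP : ∀ m ∈ hmon 𝓗, ∀ μ, r μ = m → ∀ y,
      ω (r (μ * y) u) w * ω (r y u') w' = ω (r (μ * y) u') w' * ω (r y u) w := by
    intro m hm
    induction hm using Submonoid.closure_induction with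
    | mem m hm =>
      obtain ⟨k, hk, t, ht, rfl⟩ := hm
      intro μ hμ y
      exact h.twist2 huw hu'w' mult hF hF' hG' hk (hh k hk) ht hμ y
    | one =>
      intro μ hμ y
      rw [h.rmul, h.rmul, hμ]
      simp only [Module.End.one_apply]
      ring
    | mul a b ha hb iha ihb =>
      intro μ hμ
      obtain ⟨α, hα⟩ := h.hmon_mem ha
      obtain ⟨β, hβ⟩ := h.hmon_mem hb
      have hab : ∀ y v, r (μ * y) v = r (α * (β * y)) v := by
        intro y v
        rw [h.rmul, h.rmul, h.rmul, hμ, hα, hβ]; rfl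
      have key : ∀ y, ω (r (β * y) u') w' *
          (ω (r (μ * y) u) w * ω (r y u') w' - ω (r (μ * y) u') w' * ω (r y u) w) = 0 := by
        intro y
        rw [hab, hab]
        have h1 := iha α hα (β * y)
        have h2 := ihb β hβ y
        linear_combination ω (r y u') w' * h1 + ω (r (α * (β * y)) u') w' * h2
      intro y
      rcases h.prime (fun y => ω (r (β * y) u') w') (h.cfL _ _ _)
        (fun y => ω (r (μ * y) u) w * ω (r y u') w' - ω (r (μ * y) u') w' * ω (r y u) w)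
        (sub_mem (mul_mem (h.cfL _ _ _) (h.cf _ _)) (mul_mem (h.cfL _ _ _) (h.cf _ _))) key
        with h6 | h6
      · exfalso
        obtain ⟨x1, hx1⟩ := hF'
        exact hx1 (by simpa using h6 (β⁻¹ * x1))
      · exact sub_eq_zero.1 (h6 y)
  obtain ⟨y, hy1, hy2⟩ := h.prime2 (h.cf u w) (h.cf u' w') hF hF'
  set v := r y u + r y u' with hv
  set q := ω (r y u') w' • w - ω (r y u) w • w' with hq
  have hbb : bar b ≠ bar c := fun hcon => hbc (h.bar_inj hcon)
  have hyu : e b (r y u) = r y u := h.fixr y hu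
  have hyu' : e c (r y u') = r y u' := h.fixr y hu'
  have hfal := h.falt q v
    (by rw [hq, map_sub, map_smul, map_smul, h.fsum hw, h.fsum hw'])
    (by rw [hv, map_add, h.fsum hyu, h.fsum hyu']) (by
      intro m hm
      obtain ⟨μ, rfl⟩ := h.hmon_mem hm
      have h1 := hP _ hm μ rfl y
      rw [h.rmul, h.rmul] at h1
      have h2 : ω (r μ (r y u)) w' = 0 := h.perp (b := b) (c := bar c) (Ne.symm hbb)
        (h.fixr μ hyu) hw'
      have h3 : ω (r μ (r y u')) w = 0 := h.perp (b := c) (c := bar b) hbb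
        (h.fixr μ hyu') hw
      rw [hv, hq]
      simp only [map_add, map_sub, map_smul, LinearMap.add_apply, smul_eq_mul, h2, h3]
      linear_combination h1) b
  rcases hfal with h4 | h4
  · rw [hv, map_add, hyu, h.orthf hbc hyu', add_zero] at h4
    apply hy1
    change ω (r y u) w = 0
    rw [h4, map_zero]; rfl
  · rw [hq, map_sub, map_smul, map_smul, hw, h.orthf hbb hw', smul_zero, sub_zero] at h4
    rcases smul_eq_zero.1 h4 with h5 | h5
    · exact hy2 h5
    · exact hw0 h5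

end Big

end Pool.Agent.H76U
end

-- from Lib.H76U.Thin
section

/-!
# Thin components
-/

set_option autoImplicit false
set_option linter.unusedSectionVars false
namespace Pool.Agent.H76U
open Module Pool.Agent.H53Toric

variable {K : Type*} [Field K] {V : Type*} [AddCommGroup V] [Module K V]
variable {B : Type*} [Fintype B] [DecidableEq B] {Γ : Type*} [Group Γ]
variable {ω : V →ₗ[K] V →ₗ[K] K} {e : B → Module.End K V} {bar : B → B}
    {g : Submodule K (Module.End K V)} {r : Γ →* Module.End K V} {𝓗 : Set (Module.End K V)}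

/-- the vector determines the functional -/
def Thin (ω : V →ₗ[K] V →ₗ[K] K) (e : B → Module.End K V) (bar : B → B)
    (g : Submodule K (Module.End K V)) (b : B) : Prop :=
  ∀ u w w', u ≠ 0 → w ≠ 0 → PP ω e bar g b u w → PP ω e bar g b u w' → ∃ a : K, w' = a • w

namespace Big

variable (h : Big ω e bar g r 𝓗)
include h



end Big

end Pool.Agent.H76U
end

-- from Lib.H76U.Hodge
section

/-!
# Hodge projectors are not orthogonal to the orbit of an element of rank one
-/

set_option autoImplicit false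
set_option linter.unusedSectionVars false
namespace Pool.Agent.H76U
open Module Pool.Agent.H53Toric

variable {K : Type*} [Field K] {V : Type*} [AddCommGroup V] [Module K V]
variable {B : Type*} [Fintype B] [DecidableEq B] {Γ : Type*} [Group Γ]
variable {ω : V →ₗ[K] V →ₗ[K] K} {e : B → Module.End K V} {bar : B → B}
    {g : Submodule K (Module.End K V)} {r : Γ →* Module.End K V} {𝓗 : Set (Module.End K V)}

namespace Big

variable (h : Big ω e bar g r 𝓗)
include h

/-- conjugates of an element of square zero and rank one -/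
theorem seed_conj {M : Module.End K V} (hM : M ∈ g) (hM2 : M * M = 0) {b : B} {u w : V}
    (hMb : M * e b = tw ω u w) (x : Γ) :
    ∃ M' ∈ g, M' * M' = 0 ∧ M' * e b = tw ω (r x u) (r x w) := by
  obtain ⟨c, hc, hsim, h2⟩ := h.conj_tw x
  have h1 : r x⁻¹ * r x = 1 := by rw [← map_mul, inv_mul_cancel, map_one]
  refine ⟨c • (r x * M * r x⁻¹), g.smul_mem _ (h.conj x M hM), ?_, ?_⟩
  · rw [smul_mul_smul_comm]
    have : r x * M * r x⁻¹ * (r x * M * r x⁻¹) = r x * (M * (r x⁻¹ * r x) * M) * r x⁻¹ := by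
      simp only [mul_assoc]
    rw [this, h1, mul_one, hM2, mul_zero, zero_mul, smul_zero]
  · have h3 : r x * M * r x⁻¹ * e b = r x * (M * e b) * r x⁻¹ := by
      rw [mul_assoc, mul_assoc, ← h.rcomm, mul_assoc, mul_assoc]
    rw [smul_mul_assoc, h3, hMb, h2, smul_smul, mul_inv_cancel₀ hc, one_smul]

theorem hadj' {k : Module.End K V} (hk : k ∈ 𝓗) (v w : V) : ω (k v) w = ω v (w - k w) := by
  rw [map_sub, ← h.hadj k hk v w]; ring

/-- a Hodge projector is nontrivial on every component -/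
theorem hnon' [CharZero K] {k : Module.End K V} (hk : k ∈ 𝓗) {b : B} {u w : V}
    (hu : e b u = u) (hw : e (bar b) w = w) (hu0 : u ≠ 0) (hw0 : w ≠ 0) (huw : ω u w = 0) :
    k * e b ≠ 0 ∧ k * e b ≠ e b := by
  by_cases hb : bar b = b
  swap
  · exact h.hnon k hk b hb ⟨u, w, hu, hw, hu0, hw0, huw⟩
  constructor
  · intro h0
    apply hu0
    have hz : ∀ v, e b v = v → k v = 0 := by
      intro v hv
      have := congrArg (fun f : Module.End K V => f v) h0
      simp only [Module.End.mul_apply, hv] at this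
      exact this
    apply h.nd' hu
    rw [hb]
    intro w hw
    rw [← h.hadj k hk u w, hz u hu, hz w hw, map_zero, map_zero, LinearMap.zero_apply, add_zero]
  · intro h0
    apply hu0
    have hz : ∀ v, e b v = v → k v = v := by
      intro v hv
      have := congrArg (fun f : Module.End K V => f v) h0
      simp only [Module.End.mul_apply, hv] at this
      exact this
    apply h.nd' hu
    rw [hb]
    intro w hw
    have h1 := h.hadj k hk u w
    rw [hz u hu, hz w hw] at h1
    linear_combination h1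

theorem isotropic {M : Module.End K V} (hM : M ∈ g) (hM2 : M * M = 0) {b : B} {u w : V}
    (hu0 : u ≠ 0) (hw0 : w ≠ 0) (hMb : M * e b = tw ω u w) : ω u w = 0 := by
  have h1 : tw ω u w * tw ω u w = 0 := by
    rw [← hMb, ← h.mul_e hM hM, hM2, zero_mul]
  rw [tw_mul] at h1
  exact (smul_eq_zero.1 h1).resolve_right (h.tw_ne hu0 hw0)

theorem hodge_ne [CharZero K] [FiniteDimensional K V] {M : Module.End K V} (hM : M ∈ g)
    (hM2 : M * M = 0) {b : B} {u w : V} (hu : e b u = u) (hw : e (bar b) w = w) (hu0 : u ≠ 0)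
    (hw0 : w ≠ 0) (hMb : M * e b = tw ω u w) {k : Module.End K V} (hk : k ∈ 𝓗) :
    ∃ z, ω (k (r z u)) (r z w) ≠ 0 := by
  by_contra hcon
  push Not at hcon
  have hru : ∀ x, e b (r x u) = r x u := fun x => h.fixr x hu
  have hrw : ∀ x, e (bar b) (r x w) = r x w := fun x => h.fixr x hw
  -- first variation
  have h1 : ∀ x₁ x₂, ω (r x₂ u) (r x₁ w) * ω (k (r x₁ u)) (r x₂ w) =
      ω (r x₁ u) (r x₂ w) * ω (k (r x₂ u)) (r x₁ w) := by
    intro x₁ x₂
    obtain ⟨M', hM', hM'2, hM'b⟩ := h.seed_conj hM hM2 hMb x₂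
    obtain ⟨y, hy⟩ := h.exp M' hM' hM'2 1
    have h2 := hcon (y * x₁)
    rw [h.rmul, h.rmul, hy] at h2
    have h3 := h.app_e hM'b (hru x₁)
    have h4 := h.app_e (h.skew_bar hM' (hru x₂) hM'b) (hrw x₁)
    simp only [LinearMap.add_apply, LinearMap.smul_apply, Module.End.one_apply, one_smul, h3, h4,
      map_add, map_smul, smul_eq_mul, hcon x₁, hcon x₂] at h2
    rw [h.anti (r x₁ w) (r x₂ u)] at h2
    linear_combination -h2
  have hsplit : ∀ x₁ x₂, ω (r x₂ u) (k (r x₁ w)) * ω (k (r x₁ u)) (r x₂ w) =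
      ω (r x₁ u - k (r x₁ u)) (r x₂ w) * ω (r x₂ u) (r x₁ w - k (r x₁ w)) := by
    intro x₁ x₂
    have h2 := h1 x₁ x₂
    have h3 := h.hadj k hk (r x₂ u) (r x₁ w)
    simp only [map_sub, LinearMap.sub_apply]
    linear_combination h2 + ω (r x₁ u) (r x₂ w) * h3
  have hzero : ∀ x₁ x₂, ω (r x₂ u) (k (r x₁ w)) * ω (k (r x₁ u)) (r x₂ w) = 0 := by
    intro x₁ x₂
    obtain ⟨μ, hμ⟩ := h.hexp k hk 2 (by norm_num)
    have h2 := hsplit x₁ x₂
    have h3 := hsplit (μ * x₁) x₂
    have hkk : ∀ v, k (k v) = k v := by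
      intro v
      have := congrArg (fun f : Module.End K V => f v) (h.hidem k hk)
      exact this
    have e1 : (2 : K) - 1 = 1 := by norm_num
    rw [h.rmul, h.rmul, hμ] at h3
    simp only [e1, LinearMap.add_apply, one_smul, Module.End.one_apply, map_add, map_sub,
      LinearMap.sub_apply, LinearMap.add_apply, hkk] at h3
    simp only [map_sub, LinearMap.sub_apply] at h2
    have h4 : (3 : K) * (ω (r x₂ u) (k (r x₁ w)) * ω (k (r x₁ u)) (r x₂ w)) = 0 := by
      linear_combination h3 - h2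
    exact (mul_eq_zero.1 h4).resolve_left (by norm_num)
  have hzero' : ∀ x₁ x₂, ω (r x₁ u - k (r x₁ u)) (r x₂ w) *
      ω (r x₂ u) (r x₁ w - k (r x₁ w)) = 0 := by
    intro x₁ x₂
    rw [← hsplit, hzero]
  have hrne : ∀ x (v : V), v ≠ 0 → r x v ≠ 0 := by
    intro x v hv h0
    apply hv
    rw [← h.rr' x v, h0, map_zero]
  -- dichotomy at each point
  have hdich : ∀ x, k (r x u) = r x u ∨ k (r x u) = 0 := by
    intro x
    by_cases hkw : k (r x w) = 0
    · left
      have hw1 : r x w - k (r x w) ≠ 0 := by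
        rw [hkw, sub_zero]; exact hrne x w hw0
      have hw2 : e (bar b) (r x w - k (r x w)) = r x w - k (r x w) := by
        rw [map_sub, hrw, h.fixh hk (hrw x)]
      by_contra hne
      have hu1 : r x u - k (r x u) ≠ 0 := sub_ne_zero.2 (Ne.symm hne)
      have hu2 : e b (r x u - k (r x u)) = r x u - k (r x u) := by
        rw [map_sub, hru, h.fixh hk (hru x)]
      obtain ⟨y, hy1, hy2⟩ := h.prime2 (h.cf' (r x u - k (r x u)) w)
        (h.cf u (r x w - k (r x w))) (h.ex' hu2 hw hu1 hw0) (h.ex hu hw2 hu0 hw1)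
      exact mul_ne_zero hy1 hy2 (hzero' x y)
    · right
      by_contra hne
      obtain ⟨y, hy1, hy2⟩ := h.prime2 (h.cf u (k (r x w))) (h.cf' (k (r x u)) w)
        (h.ex hu (h.fixh hk (hrw x)) hu0 hkw) (h.ex' (h.fixh hk (hru x)) hw hne hw0)
      exact mul_ne_zero hy1 hy2 (hzero x y)
  have hkdual : ∀ a : V, (fun x => ω (k (r x u)) a) ∈ coef ω r := by
    intro a
    exact h.cf_dual (ω.flip a ∘ₗ k) u
  have hkdual' : ∀ a : V, (fun x => ω (r x u - k (r x u)) a) ∈ coef ω r := by
    intro a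
    exact h.cf_dual (ω.flip a ∘ₗ (1 - k)) u
  obtain ⟨hn1, hn2⟩ := h.hnon' hk hu hw hu0 hw0 (h.isotropic hM hM2 hu0 hw0 hMb)
  by_cases hall : ∀ x, k (r x u) = 0
  · apply hn1
    ext v
    change k (e b v) = 0
    by_contra hne
    have hkv : e b (k (e b v)) = k (e b v) := h.fixh hk (h.idem' b v)
    obtain ⟨w', hw', hne'⟩ : ∃ w', e (bar b) w' = w' ∧ ω (k (e b v)) w' ≠ 0 := by
      by_contra hcon2
      push Not at hcon2
      exact hne (h.nd' hkv hcon2)
    rw [h.hadj' hk] at hne'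
    have hy0 : w' - k w' ≠ 0 := by
      intro h0
      rw [h0, map_zero] at hne'
      exact hne' rfl
    obtain ⟨x, hx⟩ := h.ex hu (show e (bar b) (w' - k w') = w' - k w' by
      rw [map_sub, hw', h.fixh hk hw']) hu0 hy0
    rw [← h.hadj' hk, hall x, map_zero] at hx
    exact hx rfl
  · push Not at hall
    obtain ⟨x₀, hx₀⟩ := hall
    obtain ⟨a, ha⟩ : ∃ a, ω (k (r x₀ u)) a ≠ 0 := by
      by_contra hcon2
      push Not at hcon2
      exact hx₀ (h.nd _ hcon2)
    have hall' : ∀ x, k (r x u) = r x u := by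
      intro x
      by_contra hne
      have hne1 : r x u - k (r x u) ≠ 0 := sub_ne_zero.2 (Ne.symm hne)
      obtain ⟨a', ha'⟩ : ∃ a', ω (r x u - k (r x u)) a' ≠ 0 := by
        by_contra hcon2
        push Not at hcon2
        exact hne1 (h.nd _ hcon2)
      obtain ⟨y, hy1, hy2⟩ := h.prime2 (hkdual a) (hkdual' a') ⟨x₀, ha⟩ ⟨x, ha'⟩
      rcases hdich y with h5 | h5
      · apply hy2
        change ω (r y u - k (r y u)) a' = 0
        rw [h5, sub_self, map_zero]; rfl
      · apply hy1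
        change ω (k (r y u)) a = 0
        rw [h5, map_zero]; rfl
    apply hn2
    ext v
    change k (e b v) = e b v
    by_contra hne
    have hkv : e b (k (e b v) - e b v) = k (e b v) - e b v := by
      rw [map_sub, h.fixh hk (h.idem' b v), h.idem']
    obtain ⟨w', hw', hne'⟩ : ∃ w', e (bar b) w' = w' ∧ ω (k (e b v) - e b v) w' ≠ 0 := by
      by_contra hcon2
      push Not at hcon2
      exact sub_ne_zero.2 hne (h.nd' hkv hcon2)
    have h6 : ω (k (e b v) - e b v) w' = - ω (e b v) (k w') := by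
      rw [map_sub, LinearMap.sub_apply, ← h.hadj k hk (e b v) w']; ring
    rw [h6] at hne'
    have hy0 : k w' ≠ 0 := by
      intro h0
      rw [h0, map_zero, neg_zero] at hne'
      exact hne' rfl
    obtain ⟨x, hx⟩ := h.ex hu (h.fixh hk hw') hu0 hy0
    have h7 := h.hadj k hk (r x u) w'
    rw [hall' x] at h7
    exact hx (by linear_combination h7)

end Big

end Pool.Agent.H76U
end

-- from Lib.H76U.Full
section

/-!
# Components of unitary type are full
-/

set_option autoImplicit false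
set_option linter.unusedSectionVars false
namespace Pool.Agent.H76U
open Module Pool.Agent.H53Toric

variable {K : Type*} [Field K] {V : Type*} [AddCommGroup V] [Module K V]
variable {B : Type*} [Fintype B] [DecidableEq B] {Γ : Type*} [Group Γ]
variable {ω : V →ₗ[K] V →ₗ[K] K} {e : B → Module.End K V} {bar : B → B}
    {g : Submodule K (Module.End K V)} {r : Γ →* Module.End K V} {𝓗 : Set (Module.End K V)}


namespace Big

variable (h : Big ω e bar g r 𝓗)
include h


/-- the functionals occurring with `u` -/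
def FF {b : B} {u : V} (hu : e b u = u) : Submodule K V where
  carrier := {w | PP ω e bar g b u w}
  add_mem' := fun {_ _} ha hb => h.PP_add_right ha hb
  zero_mem' := h.PP_zero_right hu
  smul_mem' := fun c _ ha => h.PP_smul_right ha c










end Big

end Pool.Agent.H76U
end

-- from Lib.H76U.CorePair
section

/-!
# Core pairs, ideals
-/

set_option autoImplicit false
set_option linter.unusedSectionVars false
namespace Pool.Agent.H76U
open Module Pool.Agent.H53Toric

variable {K : Type*} [Field K] {V : Type*} [AddCommGroup V] [Module K V]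
variable {B : Type*} [Fintype B] [DecidableEq B] {Γ : Type*} [Group Γ]
variable {ω : V →ₗ[K] V →ₗ[K] K} {e : B → Module.End K V} {bar : B → B}
    {g : Submodule K (Module.End K V)} {r : Γ →* Module.End K V} {𝓗 : Set (Module.End K V)}

/-- pairs `(u, w)` such that `tw u w` is the operator of rank one which should be in the Lie
algebra -/
def Core (ω : V →ₗ[K] V →ₗ[K] K) (e : B → Module.End K V) (bar : B → B) (b : B) (u w : V) :
    Prop :=
  e b u = u ∧ e (bar b) w = w ∧ ω u w = 0 ∧ (bar b = b → ∃ a : K, w = a • u)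

/-- all core pairs are induced by elements of `k` -/
def Fu (ω : V →ₗ[K] V →ₗ[K] K) (e : B → Module.End K V) (bar : B → B)
    (k : Submodule K (Module.End K V)) (b : B) : Prop :=
  ∀ u w, Core ω e bar b u w → ∃ A ∈ k, A * e b = tw ω u w

namespace Big

variable (h : Big ω e bar g r 𝓗)
include h


theorem core_r {b : B} {u w : V} (hc : Core ω e bar b u w) (x : Γ) :
    Core ω e bar b (r x u) (r x w) := by
  obtain ⟨c, hc0, hs, -, -⟩ := h.move x
  refine ⟨h.fixr x hc.1, h.fixr x hc.2.1, by rw [hs, hc.2.2.1, mul_zero], ?_⟩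
  intro hb
  obtain ⟨a, ha⟩ := hc.2.2.2 hb
  exact ⟨a, by rw [ha, map_smul]⟩

theorem core_self {b : B} (hb : bar b = b) {d : V} (hd : e b d = d) : Core ω e bar b d d :=
  ⟨hd, by rw [hb]; exact hd, h.alt d, fun _ => ⟨1, (one_smul K d).symm⟩⟩

theorem core_isot {b : B} (hb : bar b ≠ b) {u w : V} (hu : e b u = u) (hw : e (bar b) w = w)
    (huw : ω u w = 0) : Core ω e bar b u w := ⟨hu, hw, huw, fun hcon => absurd hcon hb⟩

/-- test for scalars -/
theorem core_test [CharZero K] {b : B} {Z : Module.End K V} (hZ : Z ∈ g)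
    (hall : ∀ u w, Core ω e bar b u w → ω (Z u) w = 0) : ∃ a : K, Z * e b = a • e b := by
  by_cases hb : bar b = b
  · refine ⟨0, ?_⟩
    rw [zero_smul]
    have h1 : ∀ d, e b d = d → ω (Z d) d = 0 := fun d hd => hall d d (h.core_self hb hd)
    ext v
    change Z (e b v) = 0
    apply h.nd' (b := b) (h.fixA hZ (h.idem' b v))
    intro w hw
    rw [hb] at hw
    have hv := h.idem' b v
    have h2 := h1 (e b v + w) (by rw [map_add, hv, hw])
    have h3 := h1 (e b v) hv
    have h4 := h1 w hw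
    have h5 : ω (Z w) (e b v) = ω (Z (e b v)) w := by
      rw [h.skew Z hZ, h.anti w]; ring
    simp only [map_add, LinearMap.add_apply, h3, h4, h5] at h2
    have h6 : (2 : K) * ω (Z (e b v)) w = 0 := by linear_combination h2
    exact (mul_eq_zero.1 h6).resolve_left (by norm_num)
  · -- `Z u` is a multiple of `u` for all `u`
    have h1 : ∀ u, e b u = u → u ≠ 0 → ∃ a : K, Z u = a • u := by
      intro u hu hu0
      obtain ⟨w0, hw0, hne⟩ : ∃ w0, e (bar b) w0 = w0 ∧ ω u w0 ≠ 0 := by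
        by_contra hcon
        push Not at hcon
        exact hu0 (h.nd' hu hcon)
      refine ⟨ω (Z u) w0 * (ω u w0)⁻¹, ?_⟩
      rw [← sub_eq_zero]
      apply h.nd' (b := b) (by rw [map_sub, map_smul, h.fixA hZ hu, hu])
      intro w hw
      have h2 := hall u (w - (ω u w * (ω u w0)⁻¹) • w0) (h.core_isot hb hu
        (by rw [map_sub, map_smul, hw, hw0])
        (by rw [map_sub, map_smul, smul_eq_mul, mul_assoc, inv_mul_cancel₀ hne, mul_one,
          sub_self]))
      rw [map_sub, map_smul, smul_eq_mul] at h2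
      rw [map_sub, map_smul, LinearMap.sub_apply, LinearMap.smul_apply, smul_eq_mul]
      linear_combination h2
    by_cases hz : ∀ u, e b u = u → u = 0
    · refine ⟨0, ?_⟩
      ext v
      rw [zero_smul]
      change Z (e b v) = 0
      rw [hz _ (h.idem' b v), map_zero]
    · push Not at hz
      obtain ⟨u₀, hu₀, hu₀0⟩ := hz
      obtain ⟨a, ha⟩ := h1 u₀ hu₀ hu₀0
      refine ⟨a, ?_⟩
      have key : ∀ v, e b v = v → Z v = a • v := by
        intro v hv
        by_cases hv0 : v = 0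
        · rw [hv0, map_zero, smul_zero]
        obtain ⟨a', ha'⟩ := h1 v hv hv0
        by_cases hs : u₀ + v = 0
        · have hv' : v = -u₀ := by
            rw [eq_neg_iff_add_eq_zero, add_comm]; exact hs
          rw [hv', map_neg, ha, smul_neg]
        obtain ⟨a'', ha''⟩ := h1 (u₀ + v) (by rw [map_add, hu₀, hv]) hs
        rw [map_add, ha, ha', smul_add] at ha''
        have h2 : (a - a'') • u₀ + (a' - a'') • v = 0 := by
          rw [sub_smul, sub_smul]
          have h3 : a • u₀ + a' • v - (a'' • u₀ + a'' • v) = 0 := sub_eq_zero.2 ha''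
          rw [← h3]; abel
        by_cases h3 : a' - a'' = 0
        · rw [h3, zero_smul, add_zero] at h2
          have h4 := (smul_eq_zero.1 h2).resolve_right hu₀0
          have : a' = a := by linear_combination h3 - h4
          rw [ha', this]
        · have h4 : v = (-((a' - a'')⁻¹ * (a - a''))) • u₀ := by
            have h5 : (a' - a'') • v = -((a - a'') • u₀) := by
              rw [eq_neg_iff_add_eq_zero, add_comm]; exact h2
            rw [neg_smul, mul_smul, ← smul_neg, ← h5, smul_smul, inv_mul_cancel₀ h3, one_smul]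
          rw [h4, map_smul, ha, smul_comm]
      ext v
      change Z (e b v) = a • e b v
      exact key _ (h.idem' b v)

/-- elements of an ideal with a nonvanishing coefficient -/
theorem ideal_mid [CharZero K] {k : Submodule K (Module.End K V)} (hk : k ≤ g)
    (hid : ∀ X ∈ g, ∀ Z ∈ k, X * Z - Z * X ∈ k) {b : B} (hfu : Fu ω e bar g b) {u w : V}
    (hc : Core ω e bar b u w) {Z : Module.End K V} (hZ : Z ∈ k) (hne : ω (Z u) w ≠ 0) :
    ∃ Z' ∈ k, Z' * e b = tw ω u w := by
  obtain ⟨X, hX, hXb⟩ := hfu u w hc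
  have h1 := h.dbl_e hX (hk hZ) b (by rw [hXb, tw_sq hc.2.2.1])
  rw [hXb, tw_mid] at h1
  have h2 : (Z * e b) u = Z u := by
    change Z (e b u) = Z u
    rw [hc.1]
  rw [h2, smul_smul] at h1
  refine ⟨(-2 * ω (Z u) w)⁻¹ • (X * (X * Z - Z * X) - (X * Z - Z * X) * X),
    k.smul_mem _ (hid X hX _ (hid X hX Z hZ)), ?_⟩
  have h3 : (-2 * ω (Z u) w) ≠ 0 := mul_ne_zero (by norm_num) hne
  rw [smul_mul_assoc, h1, smul_smul, inv_mul_cancel₀ h3, one_smul]

/-- An ideal which acts on a component by non scalars induces all core pairs. -/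
theorem ideal_full [CharZero K] [FiniteDimensional K V] {k : Submodule K (Module.End K V)}
    (hk : k ≤ g) (hid : ∀ X ∈ g, ∀ Z ∈ k, X * Z - Z * X ∈ k) {b : B} (hfu : Fu ω e bar g b)
    {Z : Module.End K V} (hZ : Z ∈ k) (hns : ∀ a : K, Z * e b ≠ a • e b) :
    Fu ω e bar k b := by
  obtain ⟨u₁, w₁, hc₁, hne⟩ : ∃ u w, Core ω e bar b u w ∧ ω (Z u) w ≠ 0 := by
    by_contra hcon
    push Not at hcon
    obtain ⟨a, ha⟩ := h.core_test (hk hZ) hcon
    exact hns a ha
  obtain ⟨Z₁, hZ₁, hZ₁b⟩ := h.ideal_mid hk hid hfu hc₁ hZ hne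
  have hu₁0 : u₁ ≠ 0 := by
    rintro rfl
    exact hne (by rw [map_zero, map_zero]; rfl)
  have hw₁0 : w₁ ≠ 0 := by
    rintro rfl
    exact hne (map_zero _)
  intro u w hc
  by_cases hu0 : u = 0
  · exact ⟨0, k.zero_mem, by rw [zero_mul, hu0, tw_zero_left]⟩
  by_cases hw0 : w = 0
  · exact ⟨0, k.zero_mem, by rw [zero_mul, hw0, tw_zero_right]⟩
  obtain ⟨x, hx1, hx2, hx3, hx4⟩ := h.prime4 (h.cf u₁ w₁) (h.cf' u₁ w₁) (h.cf' u w₁)
    (h.cf u₁ w) (h.ex hc₁.1 hc₁.2.1 hu₁0 hw₁0) (h.ex' hc₁.1 hc₁.2.1 hu₁0 hw₁0)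
    (h.ex' hc.1 hc₁.2.1 hu0 hw₁0) (h.ex hc₁.1 hc.2.1 hu₁0 hw0)
  have hc₂ := h.core_r hc₁ x
  obtain ⟨Z₂, hZ₂, hZ₂b⟩ := h.ideal_mid hk hid hfu hc₂ hZ₁ (by
    rw [h.app_e hZ₁b hc₂.1, map_smul, LinearMap.smul_apply, smul_eq_mul]
    exact mul_ne_zero hx1 hx2)
  exact h.ideal_mid hk hid hfu hc hZ₂ (by
    rw [h.app_e hZ₂b hc.1, map_smul, LinearMap.smul_apply, smul_eq_mul]
    exact mul_ne_zero hx3 hx4)

end Big

end Pool.Agent.H76U
end

-- from Lib.H76U.Span
section

/-!
# Operators of square zero are sums of core operators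
-/

set_option autoImplicit false
set_option linter.unusedSectionVars false
namespace Pool.Agent.H76U
open Module Pool.Agent.H53Toric

variable {K : Type*} [Field K] {V : Type*} [AddCommGroup V] [Module K V]
variable {B : Type*} [Fintype B] [DecidableEq B] {Γ : Type*} [Group Γ]
variable {ω : V →ₗ[K] V →ₗ[K] K} {e : B → Module.End K V} {bar : B → B}
    {g : Submodule K (Module.End K V)} {r : Γ →* Module.End K V} {𝓗 : Set (Module.End K V)}

namespace Big

variable (h : Big ω e bar g r 𝓗)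
include h

theorem span_self [CharZero K] [FiniteDimensional K V] {k : Submodule K (Module.End K V)}
    {c : B} (hc : bar c = c) (hfu : Fu ω e bar k c) {T : Module.End K V} (hT : T ∈ g) :
    ∃ Z ∈ k, Z * e c = T * e c := by
  set bs := Module.finBasis K V with hbs
  have ha : ∀ i, ∃ a, ∀ v, bs.coord i v = ω v a := fun i => h.surj (bs.coord i)
  choose a ha using ha
  set p := fun i => T (e c (bs i)) with hp
  set q := fun i => e c (a i) with hq
  have hpc : ∀ i, e c (p i) = p i := fun i => h.fixA hT (h.idem' c _)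
  have hqc : ∀ i, e c (q i) = q i := fun i => h.idem' c _
  have h1 : ∀ v, T (e c v) = ∑ i, ω v (q i) • p i := by
    intro v
    have e1 : e c v = ∑ i, ω (e c v) (a i) • bs i := by
      conv_lhs => rw [← bs.sum_repr (e c v)]
      apply Finset.sum_congr rfl
      intro i _
      rw [← ha i]; rfl
    have e2 : T (e c (e c v)) = ∑ i, ω (e c v) (a i) • p i := by
      conv_lhs => rw [e1]
      rw [map_sum, map_sum]
      apply Finset.sum_congr rfl
      intro i _
      rw [map_smul, map_smul]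
    rw [h.idem'] at e2
    rw [e2]
    apply Finset.sum_congr rfl
    intro i _
    rw [h.self, hc]
  have h2 : ∀ v, T (e c v) = ∑ i, ω v (p i) • q i := by
    intro v
    rw [← sub_eq_zero]
    apply h.nd
    intro y
    have e1 : ω (T (e c v)) y = - ω (e c v) (T (e c y)) := by
      rw [h.skew T hT]
      congr 1
      have : T (e c y) = e c (T y) := (h.ecomm hT c y).symm
      rw [this]
      have h3 := h.self c v (e c (T y))
      rw [hc, h.idem'] at h3
      rw [h3]
      have h4 := h.self c v (T y)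
      rw [hc] at h4
      exact h4
    rw [map_sub, LinearMap.sub_apply, e1, h1 y, map_sum, map_sum, LinearMap.sum_apply,
      sub_eq_zero, ← Finset.sum_neg_distrib]
    apply Finset.sum_congr rfl
    intro i _
    have h3 : ω (e c v) (p i) = ω v (p i) := by
      rw [h.self, hc, hpc]
    rw [map_smul, map_smul, LinearMap.smul_apply, smul_eq_mul, smul_eq_mul, h3,
      h.anti y (q i)]
    ring
  have hcore : ∀ d, e c d = d → ∃ A ∈ k, A * e c = tw ω d d := fun d hd =>
    hfu d d (h.core_self hc hd)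
  have hP : ∀ i, ∃ A ∈ k, A * e c = tw ω (p i + q i) (p i + q i) := fun i =>
    hcore _ (by rw [map_add, hpc, hqc])
  have hQ : ∀ i, ∃ A ∈ k, A * e c = tw ω (p i) (p i) := fun i => hcore _ (hpc i)
  have hR : ∀ i, ∃ A ∈ k, A * e c = tw ω (q i) (q i) := fun i => hcore _ (hqc i)
  choose P hPk hPc using hP
  choose Q hQk hQc using hQ
  choose R hRk hRc using hR
  refine ⟨(1 / 2 : K) • ∑ i, (P i - Q i - R i), k.smul_mem _ (k.sum_mem fun i _ =>
    k.sub_mem (k.sub_mem (hPk i) (hQk i)) (hRk i)), ?_⟩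
  have h5 : ∀ i, (P i - Q i - R i) * e c = tw ω (p i) (q i) + tw ω (q i) (p i) := by
    intro i
    rw [sub_mul, sub_mul, hPc, hQc, hRc, tw_add_left, tw_add_right, tw_add_right]
    abel
  rw [smul_mul_assoc, Finset.sum_mul]
  simp only [h5]
  ext v
  change (1 / 2 : K) • (∑ i, (tw ω (p i) (q i) + tw ω (q i) (p i))) v = T (e c v)
  rw [LinearMap.sum_apply]
  simp only [LinearMap.add_apply, tw_apply]
  rw [Finset.sum_add_distrib, ← h1, ← h2, ← two_smul K, smul_smul]
  norm_num

theorem span_unit [CharZero K] [FiniteDimensional K V] {k : Submodule K (Module.End K V)}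
    {c : B} (hc : bar c ≠ c) (hfu : Fu ω e bar k c) {M : Module.End K V} (hM : M ∈ g)
    (hM2 : M * M = 0) : ∃ Z ∈ k, Z * e c = M * e c := by
  set W := LinearMap.range (M * e c) with hW
  set bs := Module.finBasis K W with hbs
  have ha : ∀ i, ∃ a, ∀ v, (bs.coord i ∘ₗ (M * e c).rangeRestrict) v = ω v a := fun i =>
    h.surj _
  choose a ha using ha
  have hMe : ∀ v, (M * e c) v = M (e c v) := fun _ => rfl
  have hyc : ∀ i, e c (bs i).1 = (bs i).1 := by
    intro i
    obtain ⟨z, hz⟩ := (bs i).2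
    rw [← hz, hMe]
    exact h.fixA hM (h.idem' c z)
  have hy0 : ∀ i, (M * e c) (bs i).1 = 0 := by
    intro i
    obtain ⟨z, hz⟩ := (bs i).2
    rw [← hz, hMe, hMe, h.fixA hM (h.idem' c z)]
    have := congrArg (fun f : Module.End K V => f (e c z)) hM2
    exact this
  have h1 : ∀ v, M (e c v) = ∑ i, ω v (e (bar c) (a i)) • (bs i).1 := by
    intro v
    have e1 := congrArg Subtype.val (bs.sum_repr ((M * e c).rangeRestrict (e c v)))
    rw [Submodule.coe_sum] at e1
    have e2 : ((M * e c).rangeRestrict (e c v)).1 = M (e c v) := by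
      change M (e c (e c v)) = _
      rw [h.idem']
    rw [← e2, ← e1]
    apply Finset.sum_congr rfl
    intro i _
    rw [← h.self, ← ha i (e c v)]
    rfl
  have hcore : ∀ i, Core ω e bar c (bs i).1 (e (bar c) (a i)) := by
    intro i
    refine h.core_isot hc (hyc i) (h.idem' _ _) ?_
    rw [← h.self, hyc, ← ha]
    have : (M * e c).rangeRestrict (bs i).1 = 0 := Subtype.ext (hy0 i)
    rw [LinearMap.comp_apply, this, map_zero]
  have hP : ∀ i, ∃ A ∈ k, A * e c = tw ω (bs i).1 (e (bar c) (a i)) := fun i =>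
    hfu _ _ (hcore i)
  choose P hPk hPc using hP
  refine ⟨∑ i, P i, k.sum_mem fun i _ => hPk i, ?_⟩
  rw [Finset.sum_mul]
  simp only [hPc]
  ext v
  rw [LinearMap.sum_apply]
  simp only [tw_apply]
  rw [← h1]; rfl

theorem sq_span [CharZero K] [FiniteDimensional K V] {k : Submodule K (Module.End K V)}
    {c : B} (hfu : Fu ω e bar k c) {M : Module.End K V} (hM : M ∈ g)
    (hM2 : M * M = 0) : ∃ Z ∈ k, Z * e c = M * e c := by
  by_cases hc : bar c = c
  · exact h.span_self hc hfu hM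
  · exact h.span_unit hc hfu hM hM2

end Big

end Pool.Agent.H76U
end

-- from Lib.H76U.Indep
section

/-!
# Independence of components
-/

set_option autoImplicit false
set_option linter.unusedSectionVars false
namespace Pool.Agent.H76U
open Module Pool.Agent.H53Toric

variable {K : Type*} [Field K] {V : Type*} [AddCommGroup V] [Module K V]
variable {B : Type*} [Fintype B] [DecidableEq B] {Γ : Type*} [Group Γ]
variable {ω : V →ₗ[K] V →ₗ[K] K} {e : B → Module.End K V} {bar : B → B}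
    {g : Submodule K (Module.End K V)} {r : Γ →* Module.End K V} {𝓗 : Set (Module.End K V)}

namespace Big

variable (h : Big ω e bar g r 𝓗)
include h

/-- the ideal of the elements vanishing on a component -/
def kill (_h : Big ω e bar g r 𝓗) (b : B) : Submodule K (Module.End K V) where
  carrier := {A | A ∈ g ∧ A * e b = 0}
  add_mem' := fun {_ _} ha hb => ⟨g.add_mem ha.1 hb.1, by rw [add_mul, ha.2, hb.2, add_zero]⟩
  zero_mem' := ⟨g.zero_mem, zero_mul _⟩
  smul_mem' := fun c _ ha => ⟨g.smul_mem c ha.1, by rw [smul_mul_assoc, ha.2, smul_zero]⟩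


theorem kill_le (b : B) : h.kill b ≤ g := fun _ hA => hA.1

theorem kill_ideal (b : B) : ∀ X ∈ g, ∀ Z ∈ h.kill b, X * Z - Z * X ∈ h.kill b := by
  intro X hX Z hZ
  refine ⟨h.lie X hX Z hZ.1, ?_⟩
  rw [h.mul_e' hX hZ.1, hZ.2, mul_zero, zero_mul, sub_zero]

theorem sq_scalar {M : Module.End K V} (hM : M ∈ g) (hM2 : M * M = 0) {b : B} {a : K}
    (ha : M * e b = a • e b) : M * e b = 0 := by
  have h1 : (a • e b) * (a • e b) = 0 := by
    rw [← ha, ← h.mul_e hM hM, hM2, zero_mul]
  rw [smul_mul_smul_comm, h.idem] at h1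
  rcases smul_eq_zero.1 h1 with h2 | h2
  · rw [ha, (mul_self_eq_zero.1 h2), zero_smul]
  · rw [ha, h2, smul_zero]

/-- simultaneous conjugates -/
theorem seed_conj' {M : Module.End K V} (hM : M ∈ g) (x : Γ) :
    ∃ M' ∈ g, ∀ b u w, M * e b = tw ω u w → M' * e b = tw ω (r x u) (r x w) := by
  obtain ⟨c, hc, hsim, h2⟩ := h.conj_tw x
  refine ⟨c • (r x * M * r x⁻¹), g.smul_mem _ (h.conj x M hM), ?_⟩
  intro b u w hMb
  have h3 : r x * M * r x⁻¹ * e b = r x * (M * e b) * r x⁻¹ := by
    rw [mul_assoc, mul_assoc, ← h.rcomm, mul_assoc, mul_assoc]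
  rw [smul_mul_assoc, h3, hMb, h2, smul_smul, mul_inv_cancel₀ hc, one_smul]

/-- the relations imply the twist situation -/
theorem no_relation [CharZero K] [FiniteDimensional K V] {b c : B} (hbc : b ≠ c)
    (hbc' : b ≠ bar c) {M : Module.End K V} (hM : M ∈ g) (hM2 : M * M = 0) {u w u' w' : V}
    (hu : e b u = u) (hw : e (bar b) w = w) (hu' : e c u' = u') (hw' : e (bar c) w' = w')
    (hu0 : u ≠ 0) (hw0 : w ≠ 0) (hu'0 : u' ≠ 0) (hw'0 : w' ≠ 0)
    (hMb : M * e b = tw ω u w) (hMc : M * e c = tw ω u' w')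
    (hrel : ∀ X ∈ g, ω (X u') w' = ω (X u) w) : False := by
  have huw := h.isotropic hM hM2 hu0 hw0 hMb
  have hu'w' := h.isotropic hM hM2 hu'0 hw'0 hMc
  have hru : ∀ x, e b (r x u) = r x u := fun x => h.fixr x hu
  have hru' : ∀ x, e c (r x u') = r x u' := fun x => h.fixr x hu'
  -- relation two
  have hE2 : ∀ x, ω (r x u) w * ω u (r x w) = ω (r x u') w' * ω u' (r x w') := by
    intro x
    obtain ⟨X, hX, hXe⟩ := h.seed_conj' hM x
    have h1 := hrel X hX
    rw [h.app_e (hXe b u w hMb) hu, h.app_e (hXe c u' w' hMc) hu'] at h1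
    simp only [map_smul, LinearMap.smul_apply, smul_eq_mul] at h1
    linear_combination -h1
  -- relation three
  have hE3 : ∀ y z, ω (r y u) w * ω (r z u) (r y w) * ω u (r z w) -
      ω (r z u) w * ω (r y u) (r z w) * ω u (r y w) =
      ω (r y u') w' * ω (r z u') (r y w') * ω u' (r z w') -
      ω (r z u') w' * ω (r y u') (r z w') * ω u' (r y w') := by
    intro y z
    obtain ⟨Y, hY, hYe⟩ := h.seed_conj' hM y
    obtain ⟨Z, hZ, hZe⟩ := h.seed_conj' hM z
    have h1 := hrel _ (h.lie Y hY Z hZ)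
    have e1 : ∀ v, (Y * Z - Z * Y) v = Y (Z v) - Z (Y v) := fun _ => rfl
    rw [e1, e1, h.app_e (hYe b u w hMb) hu, h.app_e (hYe c u' w' hMc) hu',
      h.app_e (hZe b u w hMb) hu, h.app_e (hZe c u' w' hMc) hu', map_smul, map_smul, map_smul,
      map_smul, h.app_e (hYe b u w hMb) (hru z), h.app_e (hYe c u' w' hMc) (hru' z),
      h.app_e (hZe b u w hMb) (hru y), h.app_e (hZe c u' w' hMc) (hru' y)] at h1
    simp only [map_sub, map_smul, LinearMap.sub_apply, LinearMap.smul_apply, smul_eq_mul] at h1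
    linear_combination -h1
  have hE4 : ∀ y z, ω (r z u) (r y w) * ω (r y u) (r z w) =
      ω (r z u') (r y w') * ω (r y u') (r z w') := by
    intro y z
    obtain ⟨c₀, hc₀, hs, -, -⟩ := h.move y
    have h1 := hE2 (y⁻¹ * z)
    have e1 : ∀ v, r z v = r y (r (y⁻¹ * z) v) := by
      intro v
      rw [← h.rmul]; simp
    rw [e1 u, e1 w, e1 u', e1 w', hs, hs, hs, hs]
    linear_combination c₀ * c₀ * h1
  have hE5 : ∀ y z, (ω (r y u) w * ω (r z u) (r y w) * ω u (r z w) -
      ω (r y u') w' * ω (r z u') (r y w') * ω u' (r z w')) *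
      (ω (r y u) w * ω (r z u) (r y w) * ω u (r z w) +
      ω (r z u') w' * ω (r y u') (r z w') * ω u' (r y w')) = 0 := by
    intro y z
    have h1 := hE3 y z
    have h2 := hE4 y z
    have h3 := hE2 y
    have h4 := hE2 z
    have hprod : ω (r y u) w * ω (r z u) (r y w) * ω u (r z w) *
        (ω (r z u) w * ω (r y u) (r z w) * ω u (r y w)) =
        ω (r y u') w' * ω (r z u') (r y w') * ω u' (r z w') *
        (ω (r z u') w' * ω (r y u') (r z w') * ω u' (r y w')) := by
      calc _ = (ω (r y u) w * ω u (r y w)) * (ω (r z u) w * ω u (r z w)) *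
            (ω (r z u) (r y w) * ω (r y u) (r z w)) := by ring
        _ = (ω (r y u') w' * ω u' (r y w')) * (ω (r z u') w' * ω u' (r z w')) *
            (ω (r z u') (r y w') * ω (r y u') (r z w')) := by rw [h2, h3, h4]
        _ = _ := by ring
    linear_combination (ω (r y u) w * ω (r z u) (r y w) * ω u (r z w)) * h1 + hprod
  -- membership
  have hm1 : ∀ z, (fun y => ω (r y u) w * ω (r z u) (r y w) * ω u (r z w)) ∈ coef ω r := by
    intro z
    refine mul_mem (mul_mem (h.cf u w) (h.cf' _ w)) ?_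
    exact (coef ω r).algebraMap_mem (ω u (r z w))
  have hm1' : ∀ z, (fun y => ω (r y u') w' * ω (r z u') (r y w') * ω u' (r z w')) ∈
      coef ω r := by
    intro z
    refine mul_mem (mul_mem (h.cf u' w') (h.cf' _ w')) ?_
    exact (coef ω r).algebraMap_mem (ω u' (r z w'))
  have hm2 : ∀ y, (fun z => ω (r y u) w * ω (r z u) (r y w) * ω u (r z w)) ∈ coef ω r := by
    intro y
    refine mul_mem (mul_mem ?_ (h.cf u _)) (h.cf' u w)
    exact (coef ω r).algebraMap_mem (ω (r y u) w)
  have hm2' : ∀ y, (fun z => ω (r y u') w' * ω (r z u') (r y w') * ω u' (r z w')) ∈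
      coef ω r := by
    intro y
    refine mul_mem (mul_mem ?_ (h.cf u' _)) (h.cf' u' w')
    exact (coef ω r).algebraMap_mem (ω (r y u') w')
  have hdich : ∀ z, (∀ y, ω (r y u) w * ω (r z u) (r y w) * ω u (r z w) =
      ω (r y u') w' * ω (r z u') (r y w') * ω u' (r z w')) ∨
      (∀ y, ω (r y u) w * ω (r z u) (r y w) * ω u (r z w) =
      -(ω (r z u') w' * ω (r y u') (r z w') * ω u' (r y w'))) := by
    intro z
    rcases h.prime _ (sub_mem (hm1 z) (hm1' z)) _ (add_mem (hm1 z) (hm2' z))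
      (fun y => hE5 y z) with h1 | h1
    · left
      intro y
      exact sub_eq_zero.1 (h1 y)
    · right
      intro y
      exact eq_neg_of_add_eq_zero_left (h1 y)
  by_cases hall : ∀ y z, ω (r y u) w * ω (r z u) (r y w) * ω u (r z w) =
      ω (r y u') w' * ω (r z u') (r y w') * ω u' (r z w')
  · -- first type
    refine h.twist hbc hu hw hu' hw' hu0 hw0 hu'0 hw'0 huw hu'w'
      (h.mult_of hE2 ?_ (h.ex' hu hw hu0 hw0))
      (fun k hk => h.hodge_ne hM hM2 hu hw hu0 hw0 hMb hk)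
    intro x y
    obtain ⟨c₀, hc₀, hs, -, -⟩ := h.move x
    have h1 := hall x (x * y)
    rw [h.rmul x y u, h.rmul x y u', hs, hs] at h1
    have h2 : c₀ * (ω (r x u) w * ω (r y u) w * ω u (r (x * y) w) -
        ω (r x u') w' * ω (r y u') w' * ω u' (r (x * y) w')) = 0 := by
      linear_combination h1
    exact sub_eq_zero.1 ((mul_eq_zero.1 h2).resolve_left hc₀)
  · -- second type
    push Not at hall
    obtain ⟨y₁, z₁, hyz⟩ := hall
    have hall2 : ∀ y z, ω (r y u) w * ω (r z u) (r y w) * ω u (r z w) =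
        -(ω (r z u') w' * ω (r y u') (r z w') * ω u' (r y w')) := by
      intro y z
      by_contra hne
      obtain ⟨z₂, hz1, hz2⟩ := h.prime2 (sub_mem (hm2 y₁) (hm2' y₁))
        (add_mem (hm2 y) (hm1' y)) ⟨z₁, sub_ne_zero.2 hyz⟩
        ⟨z, fun h0 => hne (eq_neg_of_add_eq_zero_left h0)⟩
      rcases hdich z₂ with h1 | h1
      · exact hz1 (sub_eq_zero.2 (h1 y₁))
      · apply hz2
        change ω (r y u) w * ω (r z₂ u) (r y w) * ω u (r z₂ w) +
          ω (r z₂ u') w' * ω (r y u') (r z₂ w') * ω u' (r y w') = 0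
        rw [h1 y]; ring
    refine h.twist hbc' hu hw hw' (by rw [h.barbar]; exact hu') hu0 hw0 hw'0 hu'0 huw
      (by rw [h.anti, hu'w', neg_zero])
      (h.mult_of ?_ ?_ (h.ex' hu hw hu0 hw0))
      (fun k hk => h.hodge_ne hM hM2 hu hw hu0 hw0 hMb hk)
    · intro x
      rw [hE2, h.anti (r x w') u', h.anti w' (r x u')]
      ring
    · intro x y
      obtain ⟨c₀, hc₀, hs, -, -⟩ := h.move x
      have h1 := hall2 x (x * y)
      rw [h.rmul x y u, h.rmul x y w', hs, hs] at h1
      rw [h.anti (r x w') u', h.anti (r y w') u', h.anti w' (r (x * y) u')]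
      have h2 : c₀ * (ω (r x u) w * ω (r y u) w * ω u (r (x * y) w) -
          -ω u' (r x w') * -ω u' (r y w') * -ω (r (x * y) u') w') = 0 := by
        linear_combination h1
      exact sub_eq_zero.1 ((mul_eq_zero.1 h2).resolve_left hc₀)

end Big

end Pool.Agent.H76U
end

-- from Lib.H76U.Indep2
section

/-!
# Independence of components, conclusion
-/

set_option autoImplicit false
set_option linter.unusedSectionVars false
namespace Pool.Agent.H76U
open Module Pool.Agent.H53Toric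

variable {K : Type*} [Field K] {V : Type*} [AddCommGroup V] [Module K V]
variable {B : Type*} [Fintype B] [DecidableEq B] {Γ : Type*} [Group Γ]
variable {ω : V →ₗ[K] V →ₗ[K] K} {e : B → Module.End K V} {bar : B → B}
    {g : Submodule K (Module.End K V)} {r : Γ →* Module.End K V} {𝓗 : Set (Module.End K V)}

/-- An element of square zero inducing an operator of rank one on the component `b`. -/
def Seed (ω : V →ₗ[K] V →ₗ[K] K) (e : B → Module.End K V) (bar : B → B)
    (g : Submodule K (Module.End K V)) (b : B) : Prop :=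
  ∃ M ∈ g, M * M = 0 ∧ ∃ u w, e b u = u ∧ e (bar b) w = w ∧ u ≠ 0 ∧ w ≠ 0 ∧ M * e b = tw ω u w

namespace Big

variable (h : Big ω e bar g r 𝓗)
include h

theorem mul_e0 {A C : Module.End K V} (hC : C ∈ g) (b : B) :
    A * C * e b = (A * e b) * (C * e b) := by
  have h1 : A * e b * (C * e b) = A * (e b * C) * e b := by simp only [mul_assoc]
  rw [h1, h.gcomm b C hC, ← mul_assoc A C (e b), mul_assoc (A * C), h.idem]

/-- `M X M` -/
theorem mid_mem [CharZero K] {M X : Module.End K V} (hM : M ∈ g) (hM2 : M * M = 0)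
    (hX : X ∈ g) : M * X * M ∈ g := by
  have h1 := h.dbl hM hX
  have h2 : M * (M * X - X * M) - (M * X - X * M) * M =
      (M * M) * X - (2 : K) • (M * X * M) + X * (M * M) := by
    rw [two_smul]; noncomm_ring
  rw [h2, hM2, zero_mul, mul_zero, add_zero, zero_sub, ← neg_smul] at h1
  have h3 := g.smul_mem (-2 : K)⁻¹ h1
  rwa [smul_smul, inv_mul_cancel₀ (by norm_num), one_smul] at h3

/-- `M X M` for an operator of rank one on the component -/
theorem mid_core {M X : Module.End K V} (hM : M ∈ g) {c : B} {a β : V}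
    (hβ : e (bar c) β = β) (hX : X * e c = tw ω a β) :
    M * X * M * e c = -tw ω (M a) (M β) := by
  ext v
  change M (X (M (e c v))) = -tw ω (M a) (M β) v
  have h1 : M (e c v) = e c (M (e c v)) := by
    rw [h.ecomm hM, h.idem']
  have h2 : X (e c (M (e c v))) = ω (M (e c v)) β • a :=
    congrArg (fun f : Module.End K V => f (M (e c v))) hX
  rw [← h1] at h2
  rw [h2, map_smul, h.skew M hM, tw_apply, neg_smul]
  have h3 : ω (e c v) (M β) = ω v (M β) := by
    rw [h.self, h.fixA hM hβ]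
  rw [h3]

/-- existence of a suitable core pair, or rank one directly -/
theorem rank_one_or {M : Module.End K V} (hM : M ∈ g) {c : B} (hMc : M * e c ≠ 0) :
    (∃ a β, Core ω e bar c a β ∧ M a ≠ 0 ∧ M β ≠ 0) ∨
    (∃ u w, e c u = u ∧ e (bar c) w = w ∧ u ≠ 0 ∧ w ≠ 0 ∧ M * e c = tw ω u w) := by
  obtain ⟨v, hv⟩ : ∃ v, M (e c v) ≠ 0 := by
    by_contra hcon
    push Not at hcon
    apply hMc
    ext v
    exact hcon v
  set a := e c v with ha
  have hac : e c a = a := h.idem' c v
  by_cases hc : bar c = c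
  · exact Or.inl ⟨a, a, h.core_self hc hac, hv, hv⟩
  by_cases hex : ∃ β, e (bar c) β = β ∧ ω a β = 0 ∧ M β ≠ 0
  · obtain ⟨β, hβ, haβ, hMβ⟩ := hex
    exact Or.inl ⟨a, β, h.core_isot hc hac hβ haβ, hv, hMβ⟩
  · right
    push Not at hex
    have ha0 : a ≠ 0 := by
      intro h0
      exact hv (by rw [h0, map_zero])
    obtain ⟨β₀, hβ₀, hne⟩ : ∃ β, e (bar c) β = β ∧ ω a β ≠ 0 := by
      by_contra hcon
      push Not at hcon
      exact ha0 (h.nd' hac hcon)
    have h1 : ∀ β, e (bar c) β = β → M β = (ω a β * (ω a β₀)⁻¹) • M β₀ := by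
      intro β hβ
      have h2 := hex (β - (ω a β * (ω a β₀)⁻¹) • β₀) (by rw [map_sub, map_smul, hβ, hβ₀]) (by
        rw [map_sub, map_smul, smul_eq_mul, mul_assoc, inv_mul_cancel₀ hne, mul_one, sub_self])
      rw [map_sub, map_smul, sub_eq_zero] at h2
      exact h2
    have h3 : M * e c = tw ω ((-(ω a β₀)⁻¹) • a) (M β₀) := by
      ext y
      change M (e c y) = tw ω ((-(ω a β₀)⁻¹) • a) (M β₀) y
      rw [← sub_eq_zero]
      apply h.nd' (b := c)
      · rw [map_sub, tw_apply, map_smul, map_smul, hac, h.fixA hM (h.idem' c y)]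
      · intro β hβ
        have h4 : ω (e c y) (M β₀) = ω y (M β₀) := by rw [h.self, h.fixA hM hβ₀]
        rw [map_sub, LinearMap.sub_apply, h.skew M hM, h1 β hβ, tw_apply]
        simp only [map_smul, LinearMap.smul_apply, smul_eq_mul, h4]
        ring
    refine ⟨(-(ω a β₀)⁻¹) • a, M β₀, by rw [map_smul, hac], h.fixA hM hβ₀,
      smul_ne_zero (neg_ne_zero.2 (inv_ne_zero hne)) ha0, ?_, h3⟩
    intro h0
    rw [h0, tw_zero_right] at h3
    exact hMc h3

/-- **Independence of two components.** -/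
theorem indep [CharZero K] [FiniteDimensional K V] {b c : B} (hbc : b ≠ c)
    (hbc' : b ≠ bar c) (hseed : Seed ω e bar g b) (hfc : Fu ω e bar g c) :
    ∃ A ∈ g, A * e c = 0 ∧ ∀ a : K, A * e b ≠ a • e b := by
  obtain ⟨M, hM, hM2, u, w, hu, hw, hu0, hw0, hMb⟩ := hseed
  by_contra hcon
  push Not at hcon
  have hMb0 : M * e b ≠ 0 := by rw [hMb]; exact h.tw_ne hu0 hw0
  have hMns : ∀ a : K, M * e b ≠ a • e b := fun a ha => hMb0 (h.sq_scalar hM hM2 ha)
  -- second half
  have hH2 : ∀ A ∈ g, A * e b = 0 → ∃ a : K, A * e c = a • e c := by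
    intro A hA hAb
    by_contra hns
    push Not at hns
    have h1 : Fu ω e bar (h.kill b) c :=
      h.ideal_full (h.kill_le b) (h.kill_ideal b) hfc ⟨hA, hAb⟩ hns
    obtain ⟨Z, hZ, hZc⟩ := h.sq_span h1 hM hM2
    obtain ⟨a, ha⟩ := hcon (M - Z) (g.sub_mem hM hZ.1) (by rw [sub_mul, hZc, sub_self])
    rw [sub_mul, hZ.2, sub_zero] at ha
    exact hMns a ha
  have hMc0 : M * e c ≠ 0 := by
    intro h0
    obtain ⟨a, ha⟩ := hcon M hM h0
    exact hMns a ha
  have hC1 : ∀ X ∈ g, M * X * M * e c = ω (X u) w • (M * e c) := by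
    intro X hX
    have hmid := h.mid_mem hM hM2 hX
    have h1 : M * X * M * e b = ω (X u) w • (M * e b) := by
      rw [h.mul_e0 hM, h.mul_e0 hX, hMb]
      have h2 := tw_mid ω u w (X * e b)
      have h3 : (X * e b) u = X u := by
        change X (e b u) = X u
        rw [hu]
      rw [h3] at h2
      exact h2
    obtain ⟨a, ha⟩ := hH2 (M * X * M - ω (X u) w • M) (g.sub_mem hmid (g.smul_mem _ hM)) (by
      rw [sub_mul, smul_mul_assoc, h1, sub_self])
    have h2 : M * ((M * X * M - ω (X u) w • M) * e c) = 0 := by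
      have : M * ((M * X * M - ω (X u) w • M) * e c) =
          (M * M) * (X * M * e c) - ω (X u) w • ((M * M) * e c) := by
        rw [sub_mul, mul_sub, smul_mul_assoc, mul_smul_comm]
        simp only [mul_assoc]
      rw [this, hM2, zero_mul, zero_mul, smul_zero, sub_zero]
    rw [ha, mul_smul_comm] at h2
    have h3 := (smul_eq_zero.1 h2).resolve_right hMc0
    rw [h3, zero_smul, sub_mul, smul_mul_assoc, sub_eq_zero] at ha
    exact ha
  -- rank one
  obtain ⟨u', w', hu', hw', hu'0, hw'0, hMc⟩ : ∃ u w, e c u = u ∧ e (bar c) w = w ∧ u ≠ 0 ∧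
      w ≠ 0 ∧ M * e c = tw ω u w := by
    rcases h.rank_one_or hM hMc0 with ⟨a, β, hcore, ha0, hβ0⟩ | h1
    · obtain ⟨X, hX, hXc⟩ := hfc a β hcore
      have h1 := hC1 X hX
      rw [h.mid_core hM hcore.2.1 hXc] at h1
      have hne : ω (X u) w ≠ 0 := by
        intro h0
        rw [h0, zero_smul, neg_eq_zero] at h1
        exact h.tw_ne ha0 hβ0 h1
      refine ⟨(-(ω (X u) w)⁻¹) • M a, M β, ?_, h.fixA hM hcore.2.1,
        smul_ne_zero (neg_ne_zero.2 (inv_ne_zero hne)) ha0, hβ0, ?_⟩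
      · rw [map_smul, h.fixA hM hcore.1]
      · rw [tw_smul_left, neg_smul, ← smul_neg, h1, smul_smul, inv_mul_cancel₀ hne, one_smul]
    · exact h1
  refine h.no_relation hbc hbc' hM hM2 hu hw hu' hw' hu0 hw0 hu'0 hw'0 hMb hMc ?_
  intro X hX
  have h1 := hC1 X hX
  have hmid := h.mid_mem hM hM2 hX
  have h2 : M * X * M * e c = ω (X u') w' • (M * e c) := by
    rw [h.mul_e0 hM, h.mul_e0 hX, hMc]
    have h2 := tw_mid ω u' w' (X * e c)
    have h3 : (X * e c) u' = X u' := by
      change X (e c u') = X u'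
      rw [hu']
    rw [h3] at h2
    exact h2
  rw [h2] at h1
  have h3 : (ω (X u') w' - ω (X u) w) • (M * e c) = 0 := by
    rw [sub_smul, h1, sub_self]
  exact sub_eq_zero.1 ((smul_eq_zero.1 h3).resolve_right hMc0)

end Big

end Pool.Agent.H76U
end

-- from Lib.H76U.All
section

/-!
# The Lie algebra contains the core operators of all components
-/

set_option autoImplicit false
set_option linter.unusedSectionVars false
namespace Pool.Agent.H76U
open Module Pool.Agent.H53Toric

variable {K : Type*} [Field K] {V : Type*} [AddCommGroup V] [Module K V]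
variable {B : Type*} [Fintype B] [DecidableEq B] {Γ : Type*} [Group Γ]
variable {ω : V →ₗ[K] V →ₗ[K] K} {e : B → Module.End K V} {bar : B → B}
    {g : Submodule K (Module.End K V)} {r : Γ →* Module.End K V} {𝓗 : Set (Module.End K V)}

namespace Big

variable (h : Big ω e bar g r 𝓗)
include h

/-- the ideal of the elements vanishing on several components -/
def killT (_h : Big ω e bar g r 𝓗) (T : Finset B) : Submodule K (Module.End K V) where
  carrier := {A | A ∈ g ∧ ∀ c ∈ T, A * e c = 0}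
  add_mem' := fun {_ _} ha hb => ⟨g.add_mem ha.1 hb.1, fun c hc => by
    rw [add_mul, ha.2 c hc, hb.2 c hc, add_zero]⟩
  zero_mem' := ⟨g.zero_mem, fun c _ => zero_mul _⟩
  smul_mem' := fun a _ ha => ⟨g.smul_mem a ha.1, fun c hc => by
    rw [smul_mul_assoc, ha.2 c hc, smul_zero]⟩

theorem killT_le (T : Finset B) : h.killT T ≤ g := fun _ hA => hA.1

theorem killT_ideal (T : Finset B) : ∀ X ∈ g, ∀ Z ∈ h.killT T, X * Z - Z * X ∈ h.killT T := by
  intro X hX Z hZ
  refine ⟨h.lie X hX Z hZ.1, fun c hc => ?_⟩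
  rw [h.mul_e' hX hZ.1, hZ.2 c hc, mul_zero, zero_mul, sub_zero]

/-- the pair of a seed is a core pair -/
theorem seed_core {b : B} (hs : Seed ω e bar g b) :
    ∃ u w, Core ω e bar b u w ∧ u ≠ 0 ∧ w ≠ 0 := by
  obtain ⟨M, hM, hM2, u, w, hu, hw, hu0, hw0, hMb⟩ := hs
  by_cases hb : bar b = b
  · exact ⟨u, u, h.core_self hb hu, hu0, hu0⟩
  · exact ⟨u, w, h.core_isot hb hu hw (h.isotropic hM hM2 hu0 hw0 hMb), hu0, hw0⟩

theorem tw_nonscalar {b : B} {u w : V} (huw : ω u w = 0) (hu0 : u ≠ 0) (hw0 : w ≠ 0) {s : K}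
    (hs : s ≠ 0) (a : K) : s • tw ω u w ≠ a • e b := by
  intro h0
  have h1 : (s • tw ω u w) * (s • tw ω u w) = 0 := by
    rw [smul_mul_smul_comm, tw_sq huw, smul_zero]
  have h2 : a • e b = 0 := by
    rw [h0, smul_mul_smul_comm, h.idem] at h1
    rcases smul_eq_zero.1 h1 with h3 | h3
    · rw [mul_self_eq_zero.1 h3, zero_smul]
    · rw [h3, smul_zero]
  rw [← h0] at h2
  rcases smul_eq_zero.1 h2 with h3 | h3
  · exact hs h3
  · exact h.tw_ne hu0 hw0 h3

/-- the Lie algebra acts by scalars -/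
def Thin (_h : Big ω e bar g r 𝓗) (b : B) : Prop := ∀ A ∈ g, ∃ s : K, A * e b = s • e b

theorem thin_comm {b : B} (hb : h.Thin b) {A C : Module.End K V} (hA : A ∈ g) (hC : C ∈ g) :
    (A * C - C * A) * e b = 0 := by
  obtain ⟨s, hs⟩ := hb A hA
  obtain ⟨t, ht⟩ := hb C hC
  rw [h.mul_e' hA hC, hs, ht, smul_mul_smul_comm, smul_mul_smul_comm, mul_comm s t, sub_self]

theorem fu_killT [CharZero K] [FiniteDimensional K V]
    (hall : ∀ b, (Seed ω e bar g b ∧ Fu ω e bar g b) ∨ h.Thin b)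
    (b : B) (hb : Seed ω e bar g b ∧ Fu ω e bar g b)
    (T : Finset B) (hT : ∀ c ∈ T, c ≠ b ∧ c ≠ bar b) :
    Fu ω e bar (h.killT T) b := by
  induction T using Finset.induction_on with
  | empty =>
    intro u w hc
    obtain ⟨A, hA, hAb⟩ := hb.2 u w hc
    exact ⟨A, ⟨hA, fun c hc => absurd hc (Finset.notMem_empty c)⟩, hAb⟩
  | insert c T hcT ih =>
    have ih' := ih fun c' hc' => hT c' (Finset.mem_insert_of_mem hc')
    obtain ⟨hcb, hcb'⟩ := hT c (Finset.mem_insert_self c T)
    have hbc' : b ≠ bar c := by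
      intro h0
      exact hcb' (by rw [h0, h.barbar])
    obtain ⟨u, w, hcore, hu0, hw0⟩ := h.seed_core hb.1
    obtain ⟨x, hx1, hx2⟩ := h.prime2 (h.cf u w) (h.cf' u w) (h.ex hcore.1 hcore.2.1 hu0 hw0)
      (h.ex' hcore.1 hcore.2.1 hu0 hw0)
    obtain ⟨A₁, hA₁, hA₁b⟩ := ih' u w hcore
    obtain ⟨A₂, hA₂, hA₂b, hA₂c⟩ : ∃ A₂ ∈ g, A₂ * e b = tw ω (r x u) (r x w) ∧
        (A₁ * A₂ - A₂ * A₁) * e c = 0 := by
      rcases hall c with hc | hc
      · obtain ⟨A₀, hA₀, hA₀c, hA₀b⟩ := h.indep (Ne.symm hcb) hbc' hb.1 hc.2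
        have hfc : Fu ω e bar (h.kill c) b :=
          h.ideal_full (h.kill_le c) (h.kill_ideal c) hb.2 ⟨hA₀, hA₀c⟩ hA₀b
        obtain ⟨A₂, hA₂, hA₂b⟩ := hfc _ _ (h.core_r hcore x)
        refine ⟨A₂, hA₂.1, hA₂b, ?_⟩
        rw [h.mul_e' hA₁.1 hA₂.1, hA₂.2, mul_zero, zero_mul, sub_zero]
      · obtain ⟨A₂, hA₂, hA₂b⟩ := hb.2 _ _ (h.core_r hcore x)
        exact ⟨A₂, hA₂, hA₂b, h.thin_comm hc hA₁.1 hA₂⟩
    have hZb := h.dbl_e hA₁.1 hA₂ b (by rw [hA₁b, tw_sq hcore.2.2.1])
    rw [hA₁b, hA₂b, tw_mid, tw_apply, map_smul, LinearMap.smul_apply, smul_eq_mul,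
      smul_smul] at hZb
    refine h.ideal_full (h.killT_le _) (h.killT_ideal _) hb.2
      (Z := A₁ * (A₁ * A₂ - A₂ * A₁) - (A₁ * A₂ - A₂ * A₁) * A₁) ?_ ?_
    · refine ⟨h.dbl hA₁.1 hA₂, ?_⟩
      intro c' hc'
      rw [Finset.mem_insert] at hc'
      have hcomm : (A₁ * A₂ - A₂ * A₁) * e c' = 0 := by
        rcases hc' with rfl | hc'
        · exact hA₂c
        · rw [h.mul_e' hA₁.1 hA₂, hA₁.2 c' hc', mul_zero, zero_mul, sub_zero]
      rw [h.mul_e' hA₁.1 (h.lie A₁ hA₁.1 A₂ hA₂), hcomm, mul_zero, zero_mul, sub_zero]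
    · intro a
      rw [hZb]
      exact h.tw_nonscalar hcore.2.2.1 hu0 hw0
        (mul_ne_zero (by norm_num) (mul_ne_zero hx2 hx1)) a

/-- **The Lie algebra contains the core operators of all components.** -/
theorem main [CharZero K] [FiniteDimensional K V]
    (hall : ∀ b, (Seed ω e bar g b ∧ Fu ω e bar g b) ∨ h.Thin b) {b : B}
    (hb : Seed ω e bar g b ∧ Fu ω e bar g b) {u w : V} (hc : Core ω e bar b u w) :
    ∃ A ∈ g, A * e b = tw ω u w ∧ A * e (bar b) = tw ω w u ∧
      ∀ c, c ≠ b → c ≠ bar b → A * e c = 0 := by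
  obtain ⟨A, hA, hAb⟩ := h.fu_killT hall b hb
    (Finset.univ.filter fun c => c ≠ b ∧ c ≠ bar b) (by
      intro c hc
      exact (Finset.mem_filter.1 hc).2) u w hc
  refine ⟨A, hA.1, hAb, h.skew_bar hA.1 hc.1 hAb, ?_⟩
  intro c h1 h2
  exact hA.2 c (Finset.mem_filter.2 ⟨Finset.mem_univ c, h1, h2⟩)

end Big

end Pool.Agent.H76U
end
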