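import Pool.Agent.Lib.H1M.RC.M010

/-! Merged copies (to shorten the build) of Lib.H53Toric.Core8, Lib.H53Toric.Core9, Lib.H53Toric.Core10, Lib.H49M.Defs, Lib.H49M.A0, Lib.H49M.A1, Lib.H49M.A2, Lib.H49M.K0. -/

-- from Lib.H53Toric.Core8
section

/-!
# The Lie algebra is the full symplectic one
-/

set_option autoImplicit false
set_option linter.unusedSectionVars false
namespace Pool.Agent.H53Toric
open Module
variable {K : Type*} [Field K] {V : Type*} [AddCommGroup V] [Module K V]
variable [IsAlgClosed K] [CharZero K] [FiniteDimensional K V] [Nontrivial V]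
variable {g : Submodule K (Module.End K V)} {adj : Module.End K V →ₗ[K] Module.End K V}
  {E : Fin 4 → Module.End K V} {N M : Module.End K V} (h : Setup g adj)
  (P : Peirce g adj E N M) {X X' : Module.End K V}

include P h

/-- The middle space is filled by `g u`. -/
theorem Peirce.fill {u : V} (hu0 : u ≠ 0) (hu : E 0 u = u) (hline : ∀ v, ∃ c : K, E 0 v = c • u)
    (v : V) : ∃ X ∈ g, (E 1 + E 2) (X u) = (E 1 + E 2) v := by
  have hM0 : ∀ w : V, (E 1 + E 2) (M w) = 0 := by
    intro w
    change ((E 1 + E 2) * M) w = 0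
    rw [add_mul, P.EM, P.EM]; simp
  have hu12 : (E 1 + E 2) u = 0 := by
    rw [← hu]
    change ((E 1 + E 2) * E 0) u = 0
    rw [add_mul, P.mul, P.mul]; simp
  have h1212 : ∀ w : V, (E 1 + E 2) ((E 1 + E 2) w) = (E 1 + E 2) w := by
    intro w
    change ((E 1 + E 2) * (E 1 + E 2)) w = _
    congr 1
    simp [mul_add, add_mul, P.mul]
  have h3 : ∀ w : V, ∃ c : K, E 3 w = c • M u := by
    intro w
    obtain ⟨c, hc⟩ := hline (N w)
    refine ⟨c, ?_⟩
    rw [← P.MN]
    have e0 := P.EN 0
    rw [if_pos rfl] at e0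
    change M (N w) = _
    rw [← e0]
    change M (E 0 (N w)) = _
    rw [hc, map_smul]
  have hsumv : ∀ w : V, w = E 0 w + (E 1 + E 2) w + E 3 w := by
    intro w
    have := LinearMap.congr_fun P.sum w
    simp only [LinearMap.add_apply, Module.End.one_apply] at this ⊢
    rw [← this]
    have h2 := LinearMap.congr_fun P.sum w
    simp only [LinearMap.add_apply, Module.End.one_apply] at h2
    rw [h2]
    nth_rw 1 [← h2]
    abel
  let W : Submodule K V :=
    { carrier := {v | ∃ a b : K, ∃ X ∈ g, v = a • u + (E 1 + E 2) (X u) + b • M u}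
      add_mem' := by
        rintro _ _ ⟨a, b, X, hX, rfl⟩ ⟨a', b', X', hX', rfl⟩
        refine ⟨a + a', b + b', X + X', g.add_mem hX hX', ?_⟩
        rw [LinearMap.add_apply X, map_add]
        module
      zero_mem' := ⟨0, 0, 0, g.zero_mem, by simp⟩
      smul_mem' := by
        rintro c _ ⟨a, b, X, hX, rfl⟩
        refine ⟨c * a, c * b, c • X, g.smul_mem c hX, ?_⟩
        rw [LinearMap.smul_apply c X, map_smul]
        module }
  have hmemW : ∀ w : V, (∃ X ∈ g, (E 1 + E 2) w = (E 1 + E 2) (X u)) → w ∈ W := by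
    rintro w ⟨X, hX, hw⟩
    obtain ⟨a, ha⟩ := hline w
    obtain ⟨b, hb⟩ := h3 w
    refine ⟨a, b, X, hX, ?_⟩
    rw [← ha, ← hb, ← hw]
    exact hsumv w
  have hst : ∀ X ∈ g, ∀ w ∈ W, X w ∈ W := by
    rintro X hX _ ⟨a, b, X', hX', rfl⟩
    rw [map_add, map_add, map_smul, map_smul]
    apply W.add_mem
    · apply W.add_mem
      · apply W.smul_mem
        exact hmemW _ ⟨X, hX, rfl⟩
      · -- the middle term
        apply hmemW
        obtain ⟨c, hc⟩ := hline (X u)
        set X0 := E 0 * X * E 0 + E 1 * X * E 1 + E 2 * X * E 2 + E 3 * X * E 3 +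
          E 1 * X * E 2 + E 2 * X * E 1 with hX0
        have hX0g : X0 ∈ g := g.add_mem (g.add_mem (P.mC X hX) (P.mC1 X hX)) (P.mC2 X hX)
        set Xm := (E 1 * X' * E 0 + E 3 * X' * E 2) + (E 2 * X' * E 0 + E 3 * X' * E 1) with hXm
        have hXmg : Xm ∈ g := g.add_mem (P.mB' X' hX') (P.mB X' hX')
        refine ⟨X0 * Xm - Xm * X0 + c • X', g.add_mem (h.lie _ hX0g _ hXmg)
          (g.smul_mem c hX'), ?_⟩
        have e1 : (E 1 + E 2) * (X0 * Xm - Xm * X0) * E 0 =
            (E 1 + E 2) * X * (E 1 + E 2) * X' * E 0 -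
            (E 1 + E 2) * X' * (E 0 * X * E 0) := by
          rw [hX0, hXm]
          simp [mul_add, add_mul, mul_sub, sub_mul, mul_assoc, P.mul, P.mul']
          abel
        have e2 := LinearMap.congr_fun e1 u
        simp only [LinearMap.sub_apply, Module.End.mul_apply] at e2
        rw [hu, hc, map_smul, map_smul] at e2
        rw [LinearMap.add_apply (X0 * Xm - Xm * X0), map_add, LinearMap.smul_apply, map_smul,
          LinearMap.sub_apply]
        simp only [Module.End.mul_apply]
        rw [e2]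
        abel
    · apply W.smul_mem
      apply hmemW
      set Xp := (E 0 * X * E 2 + E 1 * X * E 3) + (E 0 * X * E 1 + E 2 * X * E 3) with hXp
      have hXpg : Xp ∈ g := g.add_mem (P.mA X hX) (P.mA' X hX)
      refine ⟨Xp * M - M * Xp, h.lie _ hXpg _ P.memM, ?_⟩
      have e1 : (E 1 + E 2) * (Xp * M - M * Xp) * E 0 = (E 1 + E 2) * X * M := by
        rw [hXp]
        simp [mul_add, add_mul, mul_sub, mul_assoc, P.mul, P.mul', P.ME, P.EM,
          P.EM']
      have e2 := LinearMap.congr_fun e1 u
      simp only [Module.End.mul_apply] at e2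
      rw [hu] at e2
      exact e2.symm
  have huW : u ∈ W := hmemW u ⟨0, g.zero_mem, by simp [hu12]⟩
  have hW : W = ⊤ := by
    rcases h.irr W hst with hW | hW
    · rw [hW] at huW
      exact absurd ((Submodule.mem_bot K).1 huW) hu0
    · exact hW
  have hv : v ∈ W := by rw [hW]; trivial
  obtain ⟨a, b, X, hX, rfl⟩ := hv
  refine ⟨X, hX, ?_⟩
  rw [map_add, map_add, map_smul, map_smul, hu12, hM0, h1212]
  simp

end Pool.Agent.H53Toric
end

-- from Lib.H53Toric.Core9
section

/-!
# All skew operators belong to the Lie algebra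
-/

set_option autoImplicit false
set_option linter.unusedSectionVars false
namespace Pool.Agent.H53Toric
open Module
variable {K : Type*} [Field K] {V : Type*} [AddCommGroup V] [Module K V]
variable [IsAlgClosed K] [CharZero K] [FiniteDimensional K V] [Nontrivial V]
variable {g : Submodule K (Module.End K V)} {adj : Module.End K V →ₗ[K] Module.End K V}
  {E : Fin 4 → Module.End K V} {N M : Module.End K V} (h : Setup g adj)
  (P : Peirce g adj E N M) {X X' : Module.End K V}

include P h

theorem Peirce.skew_mem {u : V} (hu0 : u ≠ 0) (hu : E 0 u = u)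
    (hline : ∀ v, ∃ c : K, E 0 v = c • u) {X : Module.End K V} (hX : adj X = -X) : X ∈ g := by
  -- adj of h0
  have adjh : adj (E 1 + E 2) = E 1 + E 2 := by rw [map_add, P.adj1, P.adj2, add_comm]
  have hEE : ∀ Y : Module.End K V, ∃ c : K, E 0 * Y * E 0 = c • E 0 := by
    intro Y
    obtain ⟨c, hc⟩ := hline (Y u)
    refine ⟨c, ?_⟩
    ext v
    obtain ⟨a, ha⟩ := hline v
    change E 0 (Y (E 0 v)) = c • E 0 v
    rw [ha, map_smul, map_smul, hc, smul_comm]
  have heq : ∀ Y Y' : Module.End K V, (E 1 + E 2) (Y u) = (E 1 + E 2) (Y' u) →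
      (E 1 + E 2) * Y * E 0 = (E 1 + E 2) * Y' * E 0 := by
    intro Y Y' hY
    ext v
    obtain ⟨a, ha⟩ := hline v
    change (E 1 + E 2) (Y (E 0 v)) = (E 1 + E 2) (Y' (E 0 v))
    rw [ha, map_smul, map_smul, map_smul, map_smul, hY]
  have hH : E 0 - E 3 ∈ g := by
    have := h.lie N P.memN M P.memM
    rwa [P.NM, P.MN] at this
  -- lower part
  have hlow : ∀ Y : Module.End K V,
      (E 1 + E 2) * Y * E 0 - E 3 * adj Y * (E 1 + E 2) ∈ g := by
    intro Y
    obtain ⟨X', hX', hX'u⟩ := P.fill h hu0 hu hline (Y u)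
    have e1 := heq X' Y hX'u
    have e2 := congrArg adj e1
    rw [h.adj_mul, h.adj_mul, h.adj_mul, h.adj_mul, adjh, P.adj0, h.skew X' hX'] at e2
    have e3 : E 3 * adj Y * (E 1 + E 2) = -(E 3 * X' * (E 1 + E 2)) := by
      rw [mul_assoc, ← e2]; noncomm_ring
    rw [← e1, e3, sub_neg_eq_add]
    have h1 := g.add_mem (P.mB' X' hX') (P.mB X' hX')
    convert h1 using 1
    noncomm_ring
  -- upper part
  have hupp : ∀ Y : Module.End K V,
      (E 1 + E 2) * Y * E 3 - E 0 * adj Y * (E 1 + E 2) ∈ g := by
    intro Y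
    have h1 := h.lie _ (hlow (Y * M)) N P.memN
    have adjN := h.skew N P.memN
    have adjM := h.skew M P.memM
    have e1 : ((E 1 + E 2) * (Y * M) * E 0 - E 3 * adj (Y * M) * (E 1 + E 2)) * N -
        N * ((E 1 + E 2) * (Y * M) * E 0 - E 3 * adj (Y * M) * (E 1 + E 2)) =
        (E 1 + E 2) * Y * E 3 - E 0 * adj Y * (E 1 + E 2) := by
      rw [h.adj_mul, adjM]
      simp [mul_add, add_mul, mul_sub, sub_mul, mul_assoc, P.EN, P.NE', P.MN, P.ME, P.NM',
        P.EM']
      abel
    rwa [e1] at h1
  -- the pieces of X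
  have p1 : (E 1 + E 2) * X * E 0 + E 3 * X * (E 1 + E 2) ∈ g := by
    have := hlow X
    rw [hX] at this
    convert this using 1
    noncomm_ring
  have p2 : (E 1 + E 2) * X * E 3 + E 0 * X * (E 1 + E 2) ∈ g := by
    have := hupp X
    rw [hX] at this
    convert this using 1
    noncomm_ring
  have p3 : E 0 * X * E 3 ∈ g := by
    obtain ⟨c, hc⟩ := hEE (X * M)
    have : E 0 * X * E 3 = c • N := by
      calc E 0 * X * E 3 = (E 0 * (X * M) * E 0) * N := by
            simp [mul_assoc, P.EN, P.MN]
        _ = c • N := by rw [hc, smul_mul_assoc, P.EN 0, if_pos rfl]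
    rw [this]; exact g.smul_mem _ P.memN
  have p4 : E 3 * X * E 0 ∈ g := by
    obtain ⟨c, hc⟩ := hEE (N * X)
    have : E 3 * X * E 0 = c • M := by
      calc E 3 * X * E 0 = M * (E 0 * (N * X) * E 0) := by
            simp [mul_assoc, P.ME', P.MN']
        _ = c • M := by rw [hc, mul_smul_comm, P.ME 0, if_pos rfl]
    rw [this]; exact g.smul_mem _ P.memM
  have p5 : E 0 * X * E 0 + E 3 * X * E 3 ∈ g := by
    obtain ⟨c, hc⟩ := hEE X
    have e1 := congrArg adj hc
    rw [h.adj_mul, h.adj_mul, map_smul, P.adj0, hX] at e1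
    have e2 : E 3 * X * E 3 = -(c • E 3) := by rw [← e1]; noncomm_ring
    have : E 0 * X * E 0 + E 3 * X * E 3 = c • (E 0 - E 3) := by
      rw [hc, e2, smul_sub, sub_eq_add_neg]
    rw [this]; exact g.smul_mem _ hH
  -- the middle block
  have hmid : ∀ Y Y' : Module.End K V, (E 1 + E 2) * (Y * E 0 * Y') * (E 1 + E 2) -
      adj ((E 1 + E 2) * (Y * E 0 * Y') * (E 1 + E 2)) ∈ g := by
    intro Y Y'
    obtain ⟨c, hc⟩ := hEE (Y' * (E 1 + E 2) * Y)
    have e1 := congrArg adj hc
    simp only [h.adj_mul, map_smul, P.adj0, adjh] at e1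
    have h1 := h.lie _ (hlow Y) _ (hupp (adj Y'))
    have e2 : ((E 1 + E 2) * Y * E 0 - E 3 * adj Y * (E 1 + E 2)) *
          ((E 1 + E 2) * adj Y' * E 3 - E 0 * adj (adj Y') * (E 1 + E 2)) -
        ((E 1 + E 2) * adj Y' * E 3 - E 0 * adj (adj Y') * (E 1 + E 2)) *
          ((E 1 + E 2) * Y * E 0 - E 3 * adj Y * (E 1 + E 2)) =
        (E 0 * (Y' * (E 1 + E 2) * Y) * E 0 -
          E 3 * (adj Y * ((E 1 + E 2) * adj Y')) * E 3) -
        ((E 1 + E 2) * (Y * E 0 * Y') * (E 1 + E 2) -
          adj ((E 1 + E 2) * (Y * E 0 * Y') * (E 1 + E 2))) := by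
      simp only [h.adj_mul, h.adj_adj, P.adj0, adjh]
      have k1 : (E 1 + E 2) * (E 1 + E 2) = E 1 + E 2 := by
        simp [mul_add, add_mul, P.mul]
      have k2 : (E 1 + E 2) * E 0 = 0 := by simp [add_mul, P.mul]
      have k3 : (E 1 + E 2) * E 3 = 0 := by simp [add_mul, P.mul]
      have k4 : E 0 * (E 1 + E 2) = 0 := by simp [mul_add, P.mul]
      have k5 : E 3 * (E 1 + E 2) = 0 := by simp [mul_add, P.mul]
      have k1' : ∀ Z, (E 1 + E 2) * ((E 1 + E 2) * Z) = (E 1 + E 2) * Z := by
        intro Z; rw [← mul_assoc, k1]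
      have k2' : ∀ Z, (E 1 + E 2) * (E 0 * Z) = 0 := by
        intro Z; rw [← mul_assoc, k2, zero_mul]
      have k3' : ∀ Z, (E 1 + E 2) * (E 3 * Z) = 0 := by
        intro Z; rw [← mul_assoc, k3, zero_mul]
      have k4' : ∀ Z, E 0 * ((E 1 + E 2) * Z) = 0 := by
        intro Z; rw [← mul_assoc, k4, zero_mul]
      have k5' : ∀ Z, E 3 * ((E 1 + E 2) * Z) = 0 := by
        intro Z; rw [← mul_assoc, k5, zero_mul]
      generalize E 1 + E 2 = H at *
      simp [mul_sub, sub_mul, mul_assoc, k1', k2', k3', k4', k5', P.mul']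
      abel
    rw [e2] at h1
    have e3 : E 3 * (adj Y * ((E 1 + E 2) * adj Y')) * E 3 = c • E 3 := by
      rw [← e1]; noncomm_ring
    rw [hc, e3, ← smul_sub] at h1
    have h2 := g.sub_mem (g.smul_mem c hH) h1
    rwa [sub_sub_cancel] at h2
  have hmid' : ∀ Y : Module.End K V, (E 1 + E 2) * Y * (E 1 + E 2) -
      adj ((E 1 + E 2) * Y * (E 1 + E 2)) ∈ g := by
    obtain ⟨f, hf0, -⟩ := Submodule.exists_le_ker_of_notMem (p := (⊥ : Submodule K V))
      (v := u) (by rw [Submodule.mem_bot]; exact hu0)
    intro Y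
    let b := Module.finBasis K V
    have hY : Y = ∑ i, ((f.smulRight ((f u)⁻¹ • Y (b i)) : Module.End K V) * E 0 *
        ((b.coord i).smulRight u : Module.End K V)) := by
      ext v
      rw [LinearMap.sum_apply]
      have hv : v = ∑ i, b.coord i v • b i := (b.sum_repr v).symm
      nth_rw 1 [hv]
      rw [map_sum]
      apply Finset.sum_congr rfl
      intro i _
      simp only [Module.End.mul_apply, LinearMap.smulRight_apply, map_smul, hu]
      rw [smul_smul (f u), mul_inv_cancel₀ hf0, one_smul]
    rw [hY, Finset.mul_sum, Finset.sum_mul, map_sum, ← Finset.sum_sub_distrib]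
    exact g.sum_mem fun i _ => hmid _ _
  have p6 : (E 1 + E 2) * X * (E 1 + E 2) ∈ g := by
    have h1 := hmid' X
    rw [h.adj_mul, h.adj_mul, adjh, hX] at h1
    have h2 := g.smul_mem (2 : K)⁻¹ h1
    have : (2 : K)⁻¹ • ((E 1 + E 2) * X * (E 1 + E 2) - (E 1 + E 2) * (-X * (E 1 + E 2))) =
        (E 1 + E 2) * X * (E 1 + E 2) := by
      have e : (E 1 + E 2) * X * (E 1 + E 2) - (E 1 + E 2) * (-X * (E 1 + E 2)) =
          (2 : K) • ((E 1 + E 2) * X * (E 1 + E 2)) := by
        rw [two_smul]; noncomm_ring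
      rw [e, smul_smul, inv_mul_cancel₀ (by norm_num), one_smul]
    rwa [this] at h2
  have hall := g.add_mem (g.add_mem (g.add_mem (g.add_mem (g.add_mem p1 p2) p3) p4) p5) p6
  have e : X = (E 0 + E 1 + E 2 + E 3) * X * (E 0 + E 1 + E 2 + E 3) := by
    rw [P.sum, one_mul, mul_one]
  rw [e]
  convert hall using 1
  noncomm_ring

omit P in
/-- **Main theorem on Lie algebras.** An irreducible Lie algebra of skew operators which is
spanned by involutions and contains a square zero element of odd rank consists of all skew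
operators. -/
theorem Setup.full {N : Module.End K V} (hN : N ∈ g) (hN2 : N * N = 0)
    (hodd : Odd (finrank K (LinearMap.range N))) {X : Module.End K V} (hX : adj X = -X) :
    X ∈ g := by
  obtain ⟨E, N, M, P⟩ := exists_peirce h hN hN2 hodd
  obtain ⟨u, hu0, hu, hline⟩ := P.line h
  exact P.skew_mem h hu0 hu hline hX

end Pool.Agent.H53Toric
end

-- from Lib.H53Toric.Core10
section

/-!
# From the Lie algebra of a group to the span of the involutions
-/

set_option autoImplicit false
set_option linter.unusedSectionVars false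
namespace Pool.Agent.H53Toric
open Module
attribute [local instance 100] LieRing.ofAssociativeRing
variable {K : Type*} [Field K] {V : Type*} [AddCommGroup V] [Module K V]
variable [IsAlgClosed K] [CharZero K] [FiniteDimensional K V] [Nontrivial V]

/-- The involutions in a space of operators, skew for `adj`. -/
def invol (L : Submodule K (Module.End K V)) (adj : Module.End K V →ₗ[K] Module.End K V) :
    Set (Module.End K V) :=
  {y | y ∈ L ∧ y * y = 1 ∧ adj y = -y}

/-- The hypotheses on the ambient Lie algebra. -/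
structure Amb (L : Submodule K (Module.End K V))
    (adj : Module.End K V →ₗ[K] Module.End K V) : Prop where
  lie : IsLie L
  adj_mul : ∀ X Y, adj (X * Y) = adj Y * adj X
  adj_adj : ∀ X, adj (adj X) = X
  adj_tr : ∀ X, LinearMap.trace K V (adj X) = LinearMap.trace K V X
  irr : ∀ W : Submodule K V, (∀ y ∈ invol L adj, ∀ w ∈ W, y w ∈ W) → W = ⊥ ∨ W = ⊤

section

variable {L : Submodule K (Module.End K V)} {adj : Module.End K V →ₗ[K] Module.End K V}
  (h : Amb L adj)

include h

theorem Amb.adj_one : adj 1 = 1 := by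
  have h1 := h.adj_mul (adj 1) 1
  rw [mul_one, h.adj_adj, mul_one] at h1
  exact h1.symm

/-- Perturbation of an involution. -/
theorem Amb.pert {y X : Module.End K V} (hy : y ∈ invol L adj) (hX : X ∈ L) (hXs : adj X = -X)
    (h1 : y * X + X * y = 0) (h2 : X * X = 0) : X ∈ Submodule.span K (invol L adj) := by
  have h3 : y - X ∈ invol L adj := by
    refine ⟨L.sub_mem hy.1 hX, ?_, ?_⟩
    · have e : (y - X) * (y - X) = y * y - (y * X + X * y) + X * X := by noncomm_ring
      rw [e, hy.2.1, h1, h2, sub_zero, add_zero]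
    · rw [map_sub, hy.2.2, hXs]; abel
  have e : X = y - (y - X) := by abel
  rw [e]
  exact Submodule.sub_mem _ (Submodule.subset_span hy) (Submodule.subset_span h3)

theorem Amb.bracket {y y' : Module.End K V} (hy : y ∈ invol L adj) (hy' : y' ∈ invol L adj) :
    y' * y - y * y' ∈ Submodule.span K (invol L adj) := by
  have hp : (1 + y') * y * (1 - y') ∈ Submodule.span K (invol L adj) := by
    apply h.pert hy' (h.lie.plus hy'.1 hy'.2.1 hy.1)
    · rw [h.adj_mul, h.adj_mul, map_sub, map_add, h.adj_one, hy.2.2, hy'.2.2]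
      noncomm_ring
    · have e : y' * ((1 + y') * y * (1 - y')) + (1 + y') * y * (1 - y') * y' =
          (y' + y' * y') * y * (1 - y') + (1 + y') * y * (y' - y' * y') := by noncomm_ring
      rw [e, hy'.2.1]; noncomm_ring
    · have e : (1 + y') * y * (1 - y') * ((1 + y') * y * (1 - y')) =
          (1 + y') * y * (1 - y' * y') * y * (1 - y') := by noncomm_ring
      rw [e, hy'.2.1]; simp
  have hm : (1 - y') * y * (1 + y') ∈ Submodule.span K (invol L adj) := by
    apply h.pert hy' (h.lie.minus hy'.1 hy'.2.1 hy.1)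
    · rw [h.adj_mul, h.adj_mul, map_sub, map_add, h.adj_one, hy.2.2, hy'.2.2]
      noncomm_ring
    · have e : y' * ((1 - y') * y * (1 + y')) + (1 - y') * y * (1 + y') * y' =
          (y' - y' * y') * y * (1 + y') + (1 - y') * y * (y' + y' * y') := by noncomm_ring
      rw [e, hy'.2.1]; noncomm_ring
    · have e : (1 - y') * y * (1 + y') * ((1 - y') * y * (1 + y')) =
          (1 - y') * y * (1 - y' * y') * y * (1 + y') := by noncomm_ring
      rw [e, hy'.2.1]; simp
  have e : y' * y - y * y' = (1 / 2 : K) • ((1 + y') * y * (1 - y') -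
      (1 - y') * y * (1 + y')) := by
    have : (1 + y') * y * (1 - y') - (1 - y') * y * (1 + y') =
        (2 : K) • (y' * y - y * y') := by
      rw [two_smul]; noncomm_ring
    rw [this, smul_smul]
    norm_num
  rw [e]
  exact Submodule.smul_mem _ _ (Submodule.sub_mem _ hp hm)

/-- The span of the involutions satisfies the standing assumptions. -/
theorem Amb.setup : Setup (Submodule.span K (invol L adj)) adj where
  lie := by
    intro X hX Y hY
    induction hX using Submodule.span_induction with
    | mem y' hy' =>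
      induction hY using Submodule.span_induction with
      | mem y hy => exact h.bracket hy hy'
      | zero => simp
      | add a b _ _ ha hb =>
        have e : y' * (a + b) - (a + b) * y' = (y' * a - a * y') + (y' * b - b * y') := by
          noncomm_ring
        rw [e]; exact Submodule.add_mem _ ha hb
      | smul c a _ ha =>
        rw [mul_smul_comm, smul_mul_assoc, ← smul_sub]
        exact Submodule.smul_mem _ _ ha
    | zero => simp
    | add a b _ _ ha hb =>
      have e : (a + b) * Y - Y * (a + b) = (a * Y - Y * a) + (b * Y - Y * b) := by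
        noncomm_ring
      rw [e]; exact Submodule.add_mem _ ha hb
    | smul c a _ ha =>
      rw [mul_smul_comm, smul_mul_assoc, ← smul_sub]
      exact Submodule.smul_mem _ _ ha
  irr := fun W hW => h.irr W fun y hy => hW y (Submodule.subset_span hy)
  adj_mul := h.adj_mul
  adj_adj := h.adj_adj
  adj_tr := h.adj_tr
  skew := by
    intro X hX
    induction hX using Submodule.span_induction with
    | mem y hy => exact hy.2.2
    | zero => simp
    | add a b _ _ ha hb => rw [map_add, ha, hb]; abel
    | smul c a _ ha => rw [map_smul, ha, smul_neg]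
  span := by
    apply Submodule.span_le.2
    intro y hy
    exact Submodule.subset_span ⟨Submodule.subset_span hy, hy.2.1⟩

/-- Brackets with a square zero element of `L` preserve the span. -/
theorem Amb.stable {N X : Module.End K V} (hN : N ∈ L) (hN2 : N * N = 0) (hNs : adj N = -N)
    (hX : X ∈ Submodule.span K (invol L adj)) :
    N * X - X * N ∈ Submodule.span K (invol L adj) := by
  induction hX using Submodule.span_induction with
  | mem y hy =>
    have key : ∀ N : Module.End K V, N ∈ L → N * N = 0 → adj N = -N →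
        (1 + N) * y * (1 - N) ∈ invol L adj := by
      intro N hN hN2 hNs
      refine ⟨?_, ?_, ?_⟩
      · have h1 := L.sub_mem (L.add_mem hy.1 (h.lie N hN y hy.1)) (h.lie.sandwich hN hN2 hy.1)
        convert h1 using 1
        noncomm_ring
      · calc ((1 + N) * y * (1 - N)) * ((1 + N) * y * (1 - N)) =
            (1 + N) * y * (1 - N * N) * y * (1 - N) := by noncomm_ring
          _ = (1 + N) * (y * y) * (1 - N) := by rw [hN2]; noncomm_ring
          _ = 1 - N * N := by rw [hy.2.1]; noncomm_ring
          _ = 1 := by rw [hN2, sub_zero]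
      · rw [h.adj_mul, h.adj_mul, map_sub, map_add, h.adj_one, hy.2.2, hNs]
        noncomm_ring
    have h1 := key N hN hN2 hNs
    have h2 := key (-N) (L.neg_mem hN) (by rw [neg_mul_neg, hN2]) (by rw [map_neg, hNs])
    have e : N * y - y * N = (1 / 2 : K) • ((1 + N) * y * (1 - N) -
        (1 + -N) * y * (1 - -N)) := by
      have : (1 + N) * y * (1 - N) - (1 + -N) * y * (1 - -N) =
          (2 : K) • (N * y - y * N) := by
        rw [two_smul]; noncomm_ring
      rw [this, smul_smul]
      norm_num
    rw [e]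
    exact Submodule.smul_mem _ _ (Submodule.sub_mem _ (Submodule.subset_span h1)
      (Submodule.subset_span h2))
  | zero => simp
  | add a b _ _ ha hb =>
    have e : N * (a + b) - (a + b) * N = (N * a - a * N) + (N * b - b * N) := by
      noncomm_ring
    rw [e]; exact Submodule.add_mem _ ha hb
  | smul c a _ ha =>
    rw [mul_smul_comm, smul_mul_assoc, ← smul_sub]
    exact Submodule.smul_mem _ _ ha

omit h in
/-- An operator normalising an irreducible traceless Lie algebra is an element plus a scalar. -/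
theorem exists_inner {g : Submodule K (Module.End K V)} (hg : IsLie g) (hirr : Irr g)
    (htr : ∀ X ∈ g, LinearMap.trace K V X = 0) {N : Module.End K V}
    (hN : ∀ X ∈ g, N * X - X * N ∈ g) : ∃ X ∈ g, ∃ c : K, N = X + c • 1 := by
  have hR := lieSub_trivialRadical g hg hirr htr
  have hK : LieAlgebra.IsKilling K (lieSub g hg) :=
    LieAlgebra.HasTrivialRadical.instIsKilling K (lieSub g hg)
  let D : LieDerivation K (lieSub g hg) (lieSub g hg) :=
    { toFun := fun X => ⟨N * X.1 - X.1 * N, hN X.1 X.2⟩
      map_add' := by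
        intro a b
        apply Subtype.ext
        change N * (a.1 + b.1) - (a.1 + b.1) * N = (N * a.1 - a.1 * N) + (N * b.1 - b.1 * N)
        noncomm_ring
      map_smul' := by
        intro c a
        apply Subtype.ext
        change N * (c • a.1) - (c • a.1) * N = c • (N * a.1 - a.1 * N)
        rw [mul_smul_comm, smul_mul_assoc, ← smul_sub]
      leibniz' := by
        intro a b
        apply Subtype.ext
        change N * (a.1 * b.1 - b.1 * a.1) - (a.1 * b.1 - b.1 * a.1) * N =
          (a.1 * (N * b.1 - b.1 * N) - (N * b.1 - b.1 * N) * a.1) -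
          (b.1 * (N * a.1 - a.1 * N) - (N * a.1 - a.1 * N) * b.1)
        noncomm_ring }
  obtain ⟨x, hx⟩ := LieDerivation.IsKilling.exists_eq_ad D
  have hcomm : ∀ X ∈ g, (N - x.1) * X = X * (N - x.1) := by
    intro X hX
    have h1 := congrArg (fun D : LieDerivation K (lieSub g hg) (lieSub g hg) =>
      (D ⟨X, hX⟩).1) hx
    simp only [LieDerivation.ad_apply_apply] at h1
    change x.1 * X - X * x.1 = N * X - X * N at h1
    have : (N - x.1) * X - X * (N - x.1) = (N * X - X * N) - (x.1 * X - X * x.1) := by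
      noncomm_ring
    rw [← sub_eq_zero, this, h1, sub_self]
  obtain ⟨c, hc⟩ := Module.End.exists_eigenvalue (N - x.1)
  refine ⟨x.1, x.2, c, ?_⟩
  have hW := hirr (Module.End.eigenspace (N - x.1) c) (by
    intro X hX w hw
    rw [Module.End.mem_eigenspace_iff] at hw ⊢
    have := LinearMap.congr_fun (hcomm X hX) w
    change (N - x.1) (X w) = X ((N - x.1) w) at this
    rw [this, hw, map_smul])
  rcases hW with hW | hW
  · exact absurd hW hc
  · rw [← sub_eq_iff_eq_add']
    ext v
    have : v ∈ Module.End.eigenspace (N - x.1) c := by rw [hW]; trivial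
    rw [Module.End.mem_eigenspace_iff] at this
    rw [this]; rfl

/-- **Main theorem.** A Lie algebra of operators containing enough skew involutions to act
irreducibly, and a skew square zero element of odd rank, contains all skew operators. -/
theorem Amb.full {N : Module.End K V} (hN : N ∈ L) (hN2 : N * N = 0) (hNs : adj N = -N)
    (hodd : Odd (finrank K (LinearMap.range N))) {X : Module.End K V} (hX : adj X = -X) :
    X ∈ Submodule.span K (invol L adj) := by
  have hS := h.setup
  have hNg : N ∈ Submodule.span K (invol L adj) := by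
    obtain ⟨Z, hZ, c, hc⟩ := exists_inner hS.lie hS.irr hS.tr (N := N)
      (fun X hX => h.stable hN hN2 hNs hX)
    have h1 := (LinearMap.isNilpotent_trace_of_isNilpotent (⟨2, by
      rw [pow_two, hN2]⟩ : IsNilpotent N)).eq_zero
    rw [hc, map_add, hS.tr Z hZ, zero_add, map_smul, LinearMap.trace_one, smul_eq_mul,
      mul_eq_zero] at h1
    rcases h1 with h1 | h1
    · rw [hc, h1, zero_smul, add_zero]; exact hZ
    · exact absurd h1 (Nat.cast_ne_zero.2 (finrank_pos).ne')
  exact hS.full hNg hN2 hodd hX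

end

end Pool.Agent.H53Toric
end

-- from Lib.H49M.Defs
section

/-!
# Project H49M, part A: simple Lie algebras containing an involution (definitions)
-/

set_option autoImplicit false
set_option linter.unusedSectionVars false
namespace Pool.Agent.H49M
open Module Pool.Agent.H53Toric

variable {K : Type*} [Field K] {V : Type*} [AddCommGroup V] [Module K V]

/-- The standing assumptions: `L` is an irreducible simple Lie algebra of operators, skew for the
nondegenerate alternating form `ω`, and `adj` is the adjoint with respect to `ω`. -/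
structure Core (L : Submodule K (Module.End K V)) (ω : V →ₗ[K] V →ₗ[K] K)
    (adj : Module.End K V →ₗ[K] Module.End K V) : Prop where
  lie : IsLie L
  irr : Irr L
  simple : ∀ I : Submodule K (Module.End K V), I ≤ L →
    (∀ X ∈ L, ∀ Y ∈ I, X * Y - Y * X ∈ I) → I = ⊥ ∨ I = L
  alt : ∀ v, ω v v = 0
  nd : ∀ v, (∀ w, ω v w = 0) → v = 0
  spec : ∀ X v w, ω (X v) w = ω v (adj X w)
  skew : ∀ X ∈ L, adj X = -X

/-- The part of weight `1` with respect to an involution `s`. -/
def Lp (L : Submodule K (Module.End K V)) (s : Module.End K V) :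
    Submodule K (Module.End K V) where
  carrier := {X | X ∈ L ∧ s * X = X ∧ X * s = -X}
  add_mem' := by
    rintro a b ⟨h1, h2, h3⟩ ⟨h4, h5, h6⟩
    exact ⟨L.add_mem h1 h4, by rw [mul_add, h2, h5], by rw [add_mul, h3, h6]; abel⟩
  zero_mem' := by simp
  smul_mem' := by
    rintro c a ⟨h1, h2, h3⟩
    exact ⟨L.smul_mem c h1, by rw [mul_smul_comm, h2], by rw [smul_mul_assoc, h3, smul_neg]⟩

/-- The part of weight `-1` with respect to an involution `s`. -/
def Lm (L : Submodule K (Module.End K V)) (s : Module.End K V) :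
    Submodule K (Module.End K V) where
  carrier := {X | X ∈ L ∧ s * X = -X ∧ X * s = X}
  add_mem' := by
    rintro a b ⟨h1, h2, h3⟩ ⟨h4, h5, h6⟩
    exact ⟨L.add_mem h1 h4, by rw [mul_add, h2, h5]; abel, by rw [add_mul, h3, h6]⟩
  zero_mem' := by simp
  smul_mem' := by
    rintro c a ⟨h1, h2, h3⟩
    exact ⟨L.smul_mem c h1, by rw [mul_smul_comm, h2, smul_neg], by rw [smul_mul_assoc, h3]⟩

/-- The part of weight `0` with respect to an involution `s`. -/
def L0 (L : Submodule K (Module.End K V)) (s : Module.End K V) :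
    Submodule K (Module.End K V) where
  carrier := {X | X ∈ L ∧ s * X = X * s}
  add_mem' := by
    rintro a b ⟨h1, h2⟩ ⟨h4, h5⟩
    exact ⟨L.add_mem h1 h4, by rw [mul_add, add_mul, h2, h5]⟩
  zero_mem' := by simp
  smul_mem' := by
    rintro c a ⟨h1, h2⟩
    exact ⟨L.smul_mem c h1, by rw [mul_smul_comm, smul_mul_assoc, h2]⟩

/-- A frame: an involution `s` of `L` and an extremal pair `e`, `f` of weights `1` and `-1`. -/
structure Frame (L : Submodule K (Module.End K V)) (s e f : Module.End K V) : Prop where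
  s_mem : s ∈ L
  s_sq : s * s = 1
  e_mem : e ∈ Lp L s
  f_mem : f ∈ Lm L s
  e_ne : e ≠ 0
  efe : e * f * e = e
  fef : f * e * f = f
  ext : ∀ X ∈ L, ∃ c : K, e * X * e = c • e

/-- The Peirce one space of weight one: `u = p u + u q`, where `p = e f` and `q = f e`. -/
def J1 (L : Submodule K (Module.End K V)) (s e f : Module.End K V) :
    Submodule K (Module.End K V) where
  carrier := {u | u ∈ Lp L s ∧ e * f * u + u * (f * e) = u}
  add_mem' := by
    rintro a b ⟨h1, h2⟩ ⟨h4, h5⟩
    refine ⟨(Lp L s).add_mem h1 h4, ?_⟩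
    calc e * f * (a + b) + (a + b) * (f * e) = (e * f * a + a * (f * e)) +
          (e * f * b + b * (f * e)) := by noncomm_ring
      _ = a + b := by rw [h2, h5]
  zero_mem' := by simp
  smul_mem' := by
    rintro c a ⟨h1, h2⟩
    refine ⟨(Lp L s).smul_mem c h1, ?_⟩
    rw [mul_smul_comm, smul_mul_assoc, ← smul_add, h2]

/-- A Kemmer system. -/
structure Kemmer (s : Module.End K V) {n : ℕ} (x y : Fin n → Module.End K V) : Prop where
  s_sq : s * s = 1
  sx : ∀ i, s * x i = x i
  xs : ∀ i, x i * s = -x i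
  sy : ∀ i, s * y i = -y i
  ys : ∀ i, y i * s = y i
  r1 : ∀ i j k, x i * y j * x k + x k * y j * x i =
    (if i = j then x k else 0) + (if k = j then x i else 0)
  r2 : ∀ i j k, y i * x j * y k + y k * x j * y i =
    (if i = j then y k else 0) + (if k = j then y i else 0)
  irr : ∀ W : Submodule K V, (∀ i, ∀ w ∈ W, x i w ∈ W) → (∀ i, ∀ w ∈ W, y i w ∈ W) →
    (∀ w ∈ W, s w ∈ W) → W = ⊥ ∨ W = ⊤

/-- Two orthogonal connected frames for the same involution. -/
structure Grid (L : Submodule K (Module.End K V)) (s e f e' f' u : Module.End K V) : Prop where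
  F : Frame L s e f
  F' : Frame L s e' f'
  o1 : e * f' = 0
  o2 : f' * e = 0
  o3 : e' * f = 0
  o4 : f * e' = 0
  u_mem : u ∈ Lp L s
  ufu : u * f * u = e'
  ufu' : u * f' * u = e
  u1 : e * f * u + u * (f * e) = u
  u2 : e' * f' * u + u * (f' * e') = u

/-- The idempotents of `V₊`. -/
noncomputable def pp (s e f e' f' : Module.End K V) : Fin 3 → Module.End K V :=
  ![(1 / 2 : K) • (1 + s) - e * f - e' * f', e * f, e' * f']

/-- The idempotents of `V₋`. -/
noncomputable def qq (s e f e' f' : Module.End K V) : Fin 3 → Module.End K V :=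
  ![(1 / 2 : K) • (1 - s) - f * e - f' * e', f * e, f' * e']

/-- A system of idempotents compatible with `L`. -/
structure Blocks (L : Submodule K (Module.End K V))
    (adj : Module.End K V →ₗ[K] Module.End K V) (p q : Fin 3 → Module.End K V) : Prop where
  pp : ∀ i j, p i * p j = if i = j then p i else 0
  qq : ∀ i j, q i * q j = if i = j then q i else 0
  pq : ∀ i j, p i * q j = 0
  qp : ∀ i j, q i * p j = 0
  sum : p 0 + p 1 + p 2 + (q 0 + q 1 + q 2) = 1
  adjp : ∀ i, adj (p i) = q i
  adjq : ∀ i, adj (q i) = p i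
  mem : ∀ i, p i - q i ∈ L
  m0 : ∀ X ∈ L, ∀ i j, i ≠ j → p i * X * p j + q j * X * q i ∈ L
  mp : ∀ X ∈ L, ∀ i j, i ≠ j → p i * X * q j + p j * X * q i ∈ L
  mm : ∀ X ∈ L, ∀ i j, i ≠ j → q i * X * p j + q j * X * p i ∈ L
  mpp : ∀ X ∈ L, ∀ i, p i * X * q i ∈ L
  mmm : ∀ X ∈ L, ∀ i, q i * X * p i ∈ L
  md : ∀ X ∈ L, p 0 * X * p 0 + p 1 * X * p 1 + p 2 * X * p 2 +
    (q 0 * X * q 0 + q 1 * X * q 1 + q 2 * X * q 2) ∈ L

/-- The space of all `a X b`, `X ∈ L`. -/
def LL (L : Submodule K (Module.End K V)) (a b : Module.End K V) :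
    Submodule K (Module.End K V) where
  carrier := {T | ∃ X ∈ L, T = a * X * b}
  add_mem' := by
    rintro S T ⟨X, hX, rfl⟩ ⟨Y, hY, rfl⟩
    exact ⟨X + Y, L.add_mem hX hY, by noncomm_ring⟩
  zero_mem' := ⟨0, L.zero_mem, by simp⟩
  smul_mem' := by
    rintro c T ⟨X, hX, rfl⟩
    exact ⟨c • X, L.smul_mem c hX, by rw [mul_smul_comm, smul_mul_assoc]⟩

theorem mem_Lp {L : Submodule K (Module.End K V)} {s X : Module.End K V} :
    X ∈ Lp L s ↔ X ∈ L ∧ s * X = X ∧ X * s = -X := Iff.rfl

theorem mem_Lm {L : Submodule K (Module.End K V)} {s X : Module.End K V} :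
    X ∈ Lm L s ↔ X ∈ L ∧ s * X = -X ∧ X * s = X := Iff.rfl

theorem mem_L0 {L : Submodule K (Module.End K V)} {s X : Module.End K V} :
    X ∈ L0 L s ↔ X ∈ L ∧ s * X = X * s := Iff.rfl



end Pool.Agent.H49M
end

-- from Lib.H49M.A0
section

/-!
# A0: the adjoint
-/

set_option autoImplicit false
set_option linter.unusedSectionVars false
namespace Pool.Agent.H49M
open Module Pool.Agent.H53Toric

variable {K : Type*} [Field K] {V : Type*} [AddCommGroup V] [Module K V]

variable {L : Submodule K (Module.End K V)} {ω : V →ₗ[K] V →ₗ[K] K}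
  {adj : Module.End K V →ₗ[K] Module.End K V}

theorem A0_flip (h : Core L ω adj) (v w : V) : ω v w = - ω w v := by
  have h1 := h.alt (v + w)
  simp only [map_add, LinearMap.add_apply, h.alt, zero_add, add_zero] at h1
  rw [add_comm] at h1
  exact eq_neg_of_add_eq_zero_left h1

theorem A0_nd' (h : Core L ω adj) {w : V} (hw : ∀ v, ω v w = 0) : w = 0 := by
  apply h.nd
  intro v
  rw [A0_flip h, hw, neg_zero]

theorem A0_ext (h : Core L ω adj) {X Y : Module.End K V} (hXY : ∀ v w, ω v (X w) = ω v (Y w)) :
    X = Y := by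
  ext w
  rw [← sub_eq_zero]
  apply A0_nd' h
  intro v
  rw [map_sub, hXY, sub_self]

/-- Chunk A0. Direct from `spec` and `nd`. For the trace: `Φ : V → Dual V`, `Φ w = ω · w` (flip)
is injective (from `alt`, `nd`: `ω v w = - ω w v`), hence bijective, and
`X.dualMap (Φ w) = Φ (adj X w)`, so `adj X` is conjugate to `X.dualMap`, whose trace is the trace
of `X` (`LinearMap.trace_transpose'` or similar). -/
theorem A0_mul (h : Core L ω adj) (X Y : Module.End K V) : adj (X * Y) = adj Y * adj X := by
  apply A0_ext h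
  intro v w
  rw [← h.spec, Module.End.mul_apply, Module.End.mul_apply, ← h.spec, ← h.spec]

theorem A0_adj (h : Core L ω adj) (X : Module.End K V) : adj (adj X) = X := by
  apply A0_ext h
  intro v w
  rw [← h.spec, A0_flip h, ← h.spec, A0_flip h, neg_neg]

/-- The isomorphism of the space with its dual. -/
noncomputable def A0_equiv [FiniteDimensional K V] (h : Core L ω adj) : V ≃ₗ[K] Module.Dual K V :=
  LinearEquiv.ofInjectiveOfFinrankEq ω.flip (by
    rw [injective_iff_map_eq_zero]
    intro w hw
    apply A0_nd' h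
    intro v
    have := LinearMap.congr_fun hw v
    rwa [LinearMap.flip_apply] at this) (Subspace.dual_finrank_eq (K := K) (V := V)).symm

theorem A0_equiv_apply [FiniteDimensional K V] (h : Core L ω adj) (v w : V) :
    A0_equiv h w v = ω v w := rfl

theorem A0_conj [FiniteDimensional K V] (h : Core L ω adj) (X : Module.End K V) :
    X.dualMap = (A0_equiv h).conj (adj X) := by
  ext φ v
  obtain ⟨w, rfl⟩ := (A0_equiv h).surjective φ
  rw [LinearEquiv.conj_apply_apply, LinearEquiv.symm_apply_apply, LinearMap.dualMap_apply,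
    A0_equiv_apply, A0_equiv_apply, h.spec]

theorem A0_trace [FiniteDimensional K V] (h : Core L ω adj) (X : Module.End K V) :
    LinearMap.trace K V (adj X) = LinearMap.trace K V X := by
  rw [← LinearMap.trace_conj' (adj X) (A0_equiv h), ← A0_conj h]
  exact LinearMap.trace_transpose' X

theorem A0_rank [FiniteDimensional K V] (h : Core L ω adj) (X : Module.End K V) :
    finrank K (LinearMap.range (adj X)) = finrank K (LinearMap.range X) := by
  rw [← LinearMap.finrank_range_dualMap_eq_finrank_range X, A0_conj h]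
  have e : LinearMap.range ((A0_equiv h).conj (adj X)) =
      (LinearMap.range (adj X)).map (A0_equiv h).toLinearMap := by
    rw [LinearEquiv.conj_apply, LinearMap.range_comp, LinearEquiv.range, Submodule.map_top,
      LinearMap.range_comp]
  rw [e]
  exact (LinearEquiv.finrank_map_eq (A0_equiv h) _).symm

end Pool.Agent.H49M
end

-- from Lib.H49M.A1
section

/-!
# A1: the Lie algebra is spanned by involutions
-/

set_option autoImplicit false
set_option linter.unusedSectionVars false
namespace Pool.Agent.H49M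
open Module Pool.Agent.H53Toric

variable {K : Type*} [Field K] {V : Type*} [AddCommGroup V] [Module K V]

variable {L : Submodule K (Module.End K V)} {ω : V →ₗ[K] V →ₗ[K] K}
  {adj : Module.End K V →ₗ[K] Module.End K V}

theorem A1_pert [CharZero K] (h : Core L ω adj) {y N : Module.End K V} (hy : y ∈ L)
    (hy2 : y * y = 1) (hN : N ∈ L) (hNN : N * N = 0) (hyN : y * N = -(N * y)) :
    N ∈ Submodule.span K {y | y ∈ L ∧ y * y = 1} := by
  have h1 : y ∈ Submodule.span K {y | y ∈ L ∧ y * y = 1} := Submodule.subset_span ⟨hy, hy2⟩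
  have h2 : y - N ∈ Submodule.span K {y | y ∈ L ∧ y * y = 1} := by
    refine Submodule.subset_span ⟨L.sub_mem hy hN, ?_⟩
    have e : (y - N) * (y - N) = y * y - y * N - N * y + N * N := by noncomm_ring
    rw [e, hy2, hyN, hNN]
    simp
  have h3 := (Submodule.span K {y | y ∈ L ∧ y * y = 1}).sub_mem h1 h2
  rwa [sub_sub_cancel] at h3

/-- Chunk A1. Let `I` be the span of the involutions `y` of `L`; `I ≤ L`. It is an ideal: for
`X ∈ L` and an involution `y ∈ L` the elements `N₊ = (1 + y) X (1 - y)` and
`N₋ = (1 - y) X (1 + y)` are in `L` (`IsLie.plus`, `IsLie.minus`), have square zero and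
anticommute with `y`, so `y - N₊`, `y - N₋` are involutions of `L` and `N₊, N₋ ∈ I`; and
`X y - y X = (1 / 2) (N₋ - N₊)`. As `s ∈ I` and `s ≠ 0` (`s s = 1`, `V ≠ 0`), `I = L` because
`L` is simple. (Compare `Amb.pert`, `Amb.bracket` in H53Toric.Core10.) -/
theorem A1_span [CharZero K] [Nontrivial V] (h : Core L ω adj) {s : Module.End K V} (hs : s ∈ L)
    (hs2 : s * s = 1) : L ≤ Submodule.span K {y | y ∈ L ∧ y * y = 1} := by
  set I := Submodule.span K {y | y ∈ L ∧ y * y = 1} with hI
  have hIL : I ≤ L := Submodule.span_le.2 fun y hy => hy.1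
  have hid : ∀ X ∈ L, ∀ Y ∈ I, X * Y - Y * X ∈ I := by
    intro X hX Y hY
    induction hY using Submodule.span_induction with
    | mem y hy =>
      obtain ⟨hy, hy2⟩ := hy
      have p1 : (1 + y) * X * (1 - y) ∈ I := by
        refine A1_pert h hy hy2 (h.lie.plus hy hy2 hX) ?_ ?_
        · calc (1 + y) * X * (1 - y) * ((1 + y) * X * (1 - y)) =
              (1 + y) * X * (1 - y * y) * X * (1 - y) := by noncomm_ring
            _ = 0 := by rw [hy2, sub_self]; simp
        · have e1 : y * ((1 + y) * X * (1 - y)) = (y + y * y) * X * (1 - y) := by noncomm_ring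
          have e2 : (1 + y) * X * (1 - y) * y = (1 + y) * X * (y - y * y) := by noncomm_ring
          rw [e1, e2, hy2]
          noncomm_ring
      have p2 : (1 - y) * X * (1 + y) ∈ I := by
        refine A1_pert h hy hy2 (h.lie.minus hy hy2 hX) ?_ ?_
        · calc (1 - y) * X * (1 + y) * ((1 - y) * X * (1 + y)) =
              (1 - y) * X * (1 - y * y) * X * (1 + y) := by noncomm_ring
            _ = 0 := by rw [hy2, sub_self]; simp
        · have e1 : y * ((1 - y) * X * (1 + y)) = (y - y * y) * X * (1 + y) := by noncomm_ring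
          have e2 : (1 - y) * X * (1 + y) * y = (1 - y) * X * (y + y * y) := by noncomm_ring
          rw [e1, e2, hy2]
          noncomm_ring
      have p3 := I.smul_mem (1 / 2 : K) (I.sub_mem p2 p1)
      have e : (1 - y) * X * (1 + y) - (1 + y) * X * (1 - y) = (2 : K) • (X * y - y * X) := by
        have : (1 - y) * X * (1 + y) - (1 + y) * X * (1 - y) =
            (X * y - y * X) + (X * y - y * X) := by noncomm_ring
        rw [this, two_smul]
      rw [e, smul_smul] at p3
      norm_num at p3
      exact p3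
    | zero => simp
    | add a b _ _ ha hb =>
      have e : X * (a + b) - (a + b) * X = (X * a - a * X) + (X * b - b * X) := by noncomm_ring
      rw [e]
      exact I.add_mem ha hb
    | smul c a _ ha =>
      rw [mul_smul_comm, smul_mul_assoc, ← smul_sub]
      exact I.smul_mem c ha
  rcases h.simple I hIL hid with h0 | h0
  · exfalso
    have h1 : s ∈ I := Submodule.subset_span ⟨hs, hs2⟩
    rw [h0, Submodule.mem_bot] at h1
    rw [h1, mul_zero] at hs2
    exact zero_ne_one hs2
  · exact h0.ge

/-- The standing assumptions of H53Toric (assembled from A0 and `A1_span`). -/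
theorem A1_setup [CharZero K] [FiniteDimensional K V] [Nontrivial V] (h : Core L ω adj)
    {s : Module.End K V} (hs : s ∈ L) (hs2 : s * s = 1) : Setup L adj where
  lie := h.lie
  irr := h.irr
  adj_mul := A0_mul h
  adj_adj := A0_adj h
  adj_tr := A0_trace h
  skew := h.skew
  span := A1_span h hs hs2

end Pool.Agent.H49M
end

-- from Lib.H49M.A2
section

/-!
# A2: the grading given by an involution
-/

set_option autoImplicit false
set_option linter.unusedSectionVars false
namespace Pool.Agent.H49M
open Module Pool.Agent.H53Toric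

variable {K : Type*} [Field K] {V : Type*} [AddCommGroup V] [Module K V]

variable {L : Submodule K (Module.End K V)} {ω : V →ₗ[K] V →ₗ[K] K}
  {adj : Module.End K V →ₗ[K] Module.End K V}

/-- Chunk A2. `X = (1/4)(1+s)X(1-s) + (1/4)(1-s)X(1+s) + rest`, the first two are in `L` by
`IsLie.plus`, `IsLie.minus`, and the rest `(1/4)(1+s)X(1+s) + (1/4)(1-s)X(1-s)` commutes with
`s`. -/
theorem A2_decomp [CharZero K] (h : Core L ω adj) {s : Module.End K V} (hs : s ∈ L)
    (hs2 : s * s = 1) {X : Module.End K V} (hX : X ∈ L) :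
    ∃ a ∈ Lp L s, ∃ b ∈ L0 L s, ∃ c ∈ Lm L s, X = a + b + c := by
  have hp := h.lie.plus hs hs2 hX
  have hm := h.lie.minus hs hs2 hX
  have e1 : s * ((1 + s) * X * (1 - s)) = (1 + s) * X * (1 - s) := by
    have : s * ((1 + s) * X * (1 - s)) = (s + s * s) * X * (1 - s) := by noncomm_ring
    rw [this, hs2, add_comm s 1]
  have e2 : (1 + s) * X * (1 - s) * s = -((1 + s) * X * (1 - s)) := by
    have : (1 + s) * X * (1 - s) * s = (1 + s) * X * (s - s * s) := by noncomm_ring
    rw [this, hs2]; noncomm_ring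
  have e3 : s * ((1 - s) * X * (1 + s)) = -((1 - s) * X * (1 + s)) := by
    have : s * ((1 - s) * X * (1 + s)) = (s - s * s) * X * (1 + s) := by noncomm_ring
    rw [this, hs2]; noncomm_ring
  have e4 : (1 - s) * X * (1 + s) * s = (1 - s) * X * (1 + s) := by
    have : (1 - s) * X * (1 + s) * s = (1 - s) * X * (s + s * s) := by noncomm_ring
    rw [this, hs2, add_comm s 1]
  have ha : (1 / 4 : K) • ((1 + s) * X * (1 - s)) ∈ Lp L s :=
    (Lp L s).smul_mem _ ⟨hp, e1, e2⟩
  have hc : (1 / 4 : K) • ((1 - s) * X * (1 + s)) ∈ Lm L s :=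
    (Lm L s).smul_mem _ ⟨hm, e3, e4⟩
  refine ⟨_, ha, X - (1 / 4 : K) • ((1 + s) * X * (1 - s)) -
    (1 / 4 : K) • ((1 - s) * X * (1 + s)), ⟨L.sub_mem (L.sub_mem hX ha.1) hc.1, ?_⟩, _, hc, ?_⟩
  · have e5 : (1 + s) * X * (1 - s) = X - X * s + s * X - s * X * s := by noncomm_ring
    have e6 : (1 - s) * X * (1 + s) = X + X * s - s * X - s * X * s := by noncomm_ring
    generalize (1 + s) * X * (1 - s) = P at *
    generalize (1 - s) * X * (1 + s) = Q at *
    rw [mul_sub, mul_sub, sub_mul, sub_mul, mul_smul_comm, mul_smul_comm, smul_mul_assoc,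
      smul_mul_assoc, e1, e2, e3, e4, e5, e6]
    module
  · abel

/-- `X Y = X (s Y) = (X s) Y = - X Y`. -/
theorem A2_pp [CharZero K] {s X Y : Module.End K V} (hX : X ∈ Lp L s) (hY : Y ∈ Lp L s) :
    X * Y = 0 := by
  have h1 : X * (s * Y) = (X * s) * Y := by rw [mul_assoc]
  rw [hY.2.1, hX.2.2, neg_mul] at h1
  have h2 : (2 : K) • (X * Y) = 0 := by
    rw [two_smul]
    nth_rw 1 [h1]
    exact neg_add_cancel _
  exact (smul_eq_zero.1 h2).resolve_left (by norm_num)

theorem A2_mm [CharZero K] {s X Y : Module.End K V} (hX : X ∈ Lm L s) (hY : Y ∈ Lm L s) :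
    X * Y = 0 := by
  have h1 : X * (s * Y) = (X * s) * Y := by rw [mul_assoc]
  rw [hY.2.1, hX.2.2, mul_neg] at h1
  have h2 : (2 : K) • (X * Y) = 0 := by
    rw [two_smul]
    nth_rw 1 [← h1]
    exact neg_add_cancel _
  exact (smul_eq_zero.1 h2).resolve_left (by norm_num)

/-- The trace form pairs weight `1` with weight `-1`: if `X` has weight one and
`tr (X Y) = 0` for all `Y` of weight `-1`, then `X = 0`. Proof: for `Z = a + b + c ∈ L`
(`A2_decomp`), `X a = 0`, `tr (X b) = tr (s X b) = tr (X b s) = tr (X s b) = - tr (X b)`, so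
`tr (X Z) = tr (X c) = 0`; use `trace_nondeg` of H53Toric.Core1 (the traces vanish by
`(A1_setup ..).tr`). -/
theorem A2_nondeg [CharZero K] [IsAlgClosed K] [FiniteDimensional K V] [Nontrivial V]
    (h : Core L ω adj) {s : Module.End K V} (hs : s ∈ L) (hs2 : s * s = 1) {X : Module.End K V}
    (hX : X ∈ Lp L s) (h0 : ∀ Y ∈ Lm L s, LinearMap.trace K V (X * Y) = 0) : X = 0 := by
  apply trace_nondeg h.lie h.irr (A1_setup h hs hs2).tr hX.1
  intro Z hZ
  obtain ⟨a, ha, b, hb, c, hc, rfl⟩ := A2_decomp h hs hs2 hZ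
  rw [mul_add, mul_add, A2_pp hX ha, zero_add, map_add, h0 c hc, add_zero]
  have h1 : LinearMap.trace K V (X * b) = -LinearMap.trace K V (X * b) := by
    calc LinearMap.trace K V (X * b) = LinearMap.trace K V (s * (X * b)) := by
          rw [← mul_assoc, hX.2.1]
      _ = LinearMap.trace K V ((X * b) * s) := LinearMap.trace_mul_comm K s (X * b)
      _ = LinearMap.trace K V ((X * s) * b) := by rw [mul_assoc, ← hb.2, ← mul_assoc]
      _ = _ := by rw [hX.2.2, neg_mul, map_neg]
  have h2 : (2 : K) * LinearMap.trace K V (X * b) = 0 := by linear_combination h1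
  exact (mul_eq_zero.1 h2).resolve_left (by norm_num)

theorem A2_nondeg' [CharZero K] [IsAlgClosed K] [FiniteDimensional K V] [Nontrivial V]
    (h : Core L ω adj) {s : Module.End K V} (hs : s ∈ L) (hs2 : s * s = 1) {Y : Module.End K V}
    (hY : Y ∈ Lm L s) (h0 : ∀ X ∈ Lp L s, LinearMap.trace K V (X * Y) = 0) : Y = 0 := by
  apply trace_nondeg h.lie h.irr (A1_setup h hs hs2).tr hY.1
  intro Z hZ
  obtain ⟨a, ha, b, hb, c, hc, rfl⟩ := A2_decomp h hs hs2 hZ
  have h3 : LinearMap.trace K V (Y * a) = 0 := by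
    rw [LinearMap.trace_mul_comm]; exact h0 a ha
  rw [mul_add, mul_add, A2_mm hY hc, add_zero, map_add, h3, zero_add]
  have h1 : LinearMap.trace K V (Y * b) = -LinearMap.trace K V (Y * b) := by
    calc LinearMap.trace K V (Y * b) = LinearMap.trace K V ((Y * s) * b) := by
          rw [hY.2.2]
      _ = LinearMap.trace K V ((Y * b) * s) := by rw [mul_assoc, hb.2, ← mul_assoc]
      _ = LinearMap.trace K V (s * (Y * b)) := LinearMap.trace_mul_comm K (Y * b) s
      _ = _ := by rw [← mul_assoc, hY.2.1, neg_mul, map_neg]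
  have h2 : (2 : K) * LinearMap.trace K V (Y * b) = 0 := by linear_combination h1
  exact (mul_eq_zero.1 h2).resolve_left (by norm_num)

/-- If `Lp L s = 0`, then `Lm L s = 0` by `A2_nondeg'`, hence `L = L0 L s` by `A2_decomp`, so
the range of `1 + s` is stable under `L` and `s = 1` or `s = -1` by irreducibility; but
`tr s = 0` (`(A1_setup ..).tr`) and `V ≠ 0`, characteristic zero. -/
theorem A2_ne [CharZero K] [IsAlgClosed K] [FiniteDimensional K V] [Nontrivial V]
    (h : Core L ω adj) {s : Module.End K V} (hs : s ∈ L) (hs2 : s * s = 1) : Lp L s ≠ ⊥ := by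
  intro hp
  have hm : ∀ Y ∈ Lm L s, Y = 0 := by
    intro Y hY
    apply A2_nondeg' h hs hs2 hY
    intro X hX
    rw [hp, Submodule.mem_bot] at hX
    rw [hX, zero_mul, map_zero]
  have hcomm : ∀ Z ∈ L, s * Z = Z * s := by
    intro Z hZ
    obtain ⟨a, ha, b, hb, c, hc, rfl⟩ := A2_decomp h hs hs2 hZ
    rw [hp, Submodule.mem_bot] at ha
    rw [ha, hm c hc, zero_add, add_zero]
    exact hb.2
  have hst := h.irr (LinearMap.range (1 + s)) (by
    rintro X hX _ ⟨v, rfl⟩
    refine ⟨X v, ?_⟩
    have h1 : (1 + s) * X = X * (1 + s) := by rw [add_mul, mul_add, hcomm X hX, one_mul, mul_one]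
    exact LinearMap.congr_fun h1 v)
  have htr := (A1_setup h hs hs2).tr s hs
  have hV : (finrank K V : K) ≠ 0 := by
    exact_mod_cast (finrank_pos (R := K) (M := V)).ne'
  rcases hst with h1 | h1
  · have h2 : s = -1 := by
      rw [LinearMap.range_eq_bot] at h1
      exact eq_neg_of_add_eq_zero_right h1
    rw [h2, map_neg, LinearMap.trace_one, neg_eq_zero] at htr
    exact hV htr
  · have h2 : s = 1 := by
      ext v
      obtain ⟨w, rfl⟩ := LinearMap.range_eq_top.1 h1 v
      have h3 : s * (1 + s) = 1 * (1 + s) := by rw [mul_add, hs2, one_mul, mul_one, add_comm]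
      exact LinearMap.congr_fun h3 w
    rw [h2, LinearMap.trace_one] at htr
    exact hV htr

end Pool.Agent.H49M
end

-- from Lib.H49M.K0
section

/-!
# K0: elementary facts on frames
-/

set_option autoImplicit false
set_option linter.unusedSectionVars false
namespace Pool.Agent.H49M
open Module Pool.Agent.H53Toric

variable {K : Type*} [Field K] {V : Type*} [AddCommGroup V] [Module K V]

variable {L : Submodule K (Module.End K V)} {ω : V →ₗ[K] V →ₗ[K] K}
  {adj : Module.End K V →ₗ[K] Module.End K V}

theorem K0_ee [CharZero K] {s e f : Module.End K V} (F : Frame L s e f) : e * e = 0 :=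
  A2_pp F.e_mem F.e_mem

theorem K0_ff [CharZero K] {s e f : Module.End K V} (F : Frame L s e f) : f * f = 0 :=
  A2_mm F.f_mem F.f_mem

/-- Chunk K0. `X (s X') ` computations: `e e = 0`, `f f = 0` by `A2_pp`, `A2_mm`. The extremality
of `f`: `f X f = f e f X f e f = f (e (f X f) e) f = c f e f = c f` with `f X f ∈ L`
(`IsLie.sandwich`). -/
theorem K0_swap [CharZero K] {s e f : Module.End K V} (hl : IsLie L) (F : Frame L s e f) :
    Frame L (-s) f e := by
  have hLp : Lp L (-s) = Lm L s := by
    ext X
    rw [mem_Lp, mem_Lm, neg_mul, mul_neg, neg_eq_iff_eq_neg, neg_inj]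
  have hLm : Lm L (-s) = Lp L s := by
    ext X
    rw [mem_Lp, mem_Lm, neg_mul, mul_neg, neg_inj, neg_eq_iff_eq_neg]
  refine ⟨L.neg_mem F.s_mem, by rw [neg_mul_neg, F.s_sq], by rw [hLp]; exact F.f_mem,
    by rw [hLm]; exact F.e_mem, ?_, F.fef, F.efe, ?_⟩
  · intro h0
    have := F.efe
    rw [h0, mul_zero, zero_mul] at this
    exact F.e_ne this.symm
  · intro X hX
    obtain ⟨c, hc⟩ := F.ext _ (hl.sandwich F.f_mem.1 (K0_ff F) hX)
    refine ⟨c, ?_⟩
    have e1 : f * X * f = f * (e * (f * X * f) * e) * f := by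
      calc f * X * f = (f * e * f) * X * (f * e * f) := by rw [F.fef]
        _ = _ := by noncomm_ring
    rw [e1, hc, mul_smul_comm, smul_mul_assoc, F.fef]

theorem K0_Lp (s : Module.End K V) : Lp L (-s) = Lm L s := by
  ext X
  rw [mem_Lp, mem_Lm, neg_mul, mul_neg, neg_eq_iff_eq_neg, neg_inj]

theorem K0_Lm (s : Module.End K V) : Lm L (-s) = Lp L s := by
  ext X
  rw [mem_Lp, mem_Lm, neg_mul, mul_neg, neg_inj, neg_eq_iff_eq_neg]

theorem K0_L0 (s : Module.End K V) : L0 L (-s) = L0 L s := by
  ext X
  rw [mem_L0, mem_L0, neg_mul, mul_neg, neg_inj]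

/-- `e f X f e = e (f X f) e` and `f X f ∈ L`. -/
theorem K0_ext [CharZero K] {s e f : Module.End K V} (hl : IsLie L) (F : Frame L s e f)
    {X : Module.End K V} (hX : X ∈ L) : ∃ c : K, e * f * X * (f * e) = c • e := by
  obtain ⟨c, hc⟩ := F.ext _ (hl.sandwich F.f_mem.1 (K0_ff F) hX)
  refine ⟨c, ?_⟩
  rw [← hc]
  noncomm_ring

/-- The rank of `e` is the rank of the idempotent `e f`, its trace. -/
theorem K0_rank [CharZero K] [FiniteDimensional K V] {s e f : Module.End K V}
    (F : Frame L s e f) :
    finrank K (LinearMap.range (e * f)) = finrank K (LinearMap.range e) ∧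
    finrank K (LinearMap.range f) = finrank K (LinearMap.range e) ∧
    LinearMap.trace K V (e * f) = (finrank K (LinearMap.range e) : K) := by
  have h1 : finrank K (LinearMap.range (e * f)) = finrank K (LinearMap.range e) :=
    rank_eq_of_dvd (c := f) (d := e) rfl F.efe.symm
  have h2 : finrank K (LinearMap.range (f * e)) = finrank K (LinearMap.range f) :=
    rank_eq_of_dvd (c := e) (d := f) rfl F.fef.symm
  have i1 : (e * f) * (e * f) = e * f := by
    calc (e * f) * (e * f) = (e * f * e) * f := by noncomm_ring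
      _ = e * f := by rw [F.efe]
  have i2 : (f * e) * (f * e) = f * e := by
    calc (f * e) * (f * e) = (f * e * f) * e := by noncomm_ring
      _ = f * e := by rw [F.fef]
  have t1 := trace_idem i1
  have t2 := trace_idem i2
  rw [LinearMap.trace_mul_comm] at t2
  refine ⟨h1, ?_, by rw [t1, h1]⟩
  rw [t1, h1, h2] at t2
  exact_mod_cast t2.symm

/-- An element `H = e f - f e` of `L` and the elements `[H, e] = 2 e`, `[H, f] = -2 f`. -/
theorem K0_H [CharZero K] {s e f : Module.End K V} (hl : IsLie L) (F : Frame L s e f) :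
    e * f - f * e ∈ L := by
  exact hl e F.e_mem.1 f F.f_mem.1

end Pool.Agent.H49M
end
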