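import Pool.Agent.Lib.H1M.RC.D_H53Toric_Zar
import Pool.Agent.Lib.H1M.RC.D_H76RM_Defs
import Pool.Agent.Lib.H1M.RC.M005
import Pool.Agent.Lib.H1M.RC.M007
import Pool.Agent.Lib.H1M.RC.M011
import Pool.Agent.Lib.H1M.RC.M016
import Pool.Agent.Lib.H1M.RC.M017

/-! Merged copies (to shorten the build) of Lib.H49M.K4, Lib.H53Toric.Three, Lib.H53Toric.Assemble, Lib.H53Toric.Monodromy, Lib.H53Toric.Assemble2, Lib.H53Toric.Indep2, Lib.H76RM.Prime, Lib.H76RM.Alg, Lib.H76RM.Grp, Lib.H76RM.Mk, Lib.H76U.Gam, Lib.H76U.Grp4, Lib.H76U.Det4, Lib.H76U.Odd4. -/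

-- from Lib.H49M.K4
section

/-!
# K4: the dimension of an irreducible Kemmer module
-/

set_option autoImplicit false
set_option linter.unusedSectionVars false
namespace Pool.Agent.H49M
open Module Pool.Agent.H53Toric

variable {K : Type*} [Field K] {V : Type*} [AddCommGroup V] [Module K V]

/-- The eigenspace of `s` for `c`. -/
def eig (s : Module.End K V) (c : K) : Submodule K V := LinearMap.ker (s - c • 1)

/-- The counting operator. -/
noncomputable def cnt (s : Module.End K V) {m : ℕ} (x y : Fin m → Module.End K V) : Module.End K V :=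
  (1 / 2 : K) • (1 - s) + ∑ i, (x i * y i + (1 / 2 : K) • (1 - s) - y i * x i)

/-- Auxiliary identities of K4a. -/
theorem K4a_xx [CharZero K] {s : Module.End K V} {m : ℕ} {x y : Fin m → Module.End K V}
    (h : Kemmer s x y) (i j : Fin m) : x i * x j = 0 := by
  have h1 : x i * x j = -(x i * x j) := by
    calc x i * x j = x i * (s * x j) := by rw [h.sx]
      _ = (x i * s) * x j := by rw [mul_assoc]
      _ = -(x i * x j) := by rw [h.xs, neg_mul]
  have h2 : (2 : K) • (x i * x j) = 0 := by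
    rw [two_smul]
    nth_rewrite 1 [h1]
    exact neg_add_cancel _
  exact (smul_eq_zero.mp h2).resolve_left two_ne_zero

/-- Exchange of the two families. -/
theorem K4a_swap {s : Module.End K V} {m : ℕ} {x y : Fin m → Module.End K V}
    (h : Kemmer s x y) : Kemmer (-s) y x where
  s_sq := by rw [neg_mul_neg, h.s_sq]
  sx := fun i => by rw [neg_mul, h.sy, neg_neg]
  xs := fun i => by rw [mul_neg, h.ys]
  sy := fun i => by rw [neg_mul, h.sx]
  ys := fun i => by rw [mul_neg, h.xs, neg_neg]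
  r1 := h.r2
  r2 := h.r1
  irr := fun W h1 h2 h3 => h.irr W h2 h1 fun w hw => by
    have := W.neg_mem (h3 w hw)
    simpa using this

theorem K4a_yy [CharZero K] {s : Module.End K V} {m : ℕ} {x y : Fin m → Module.End K V}
    (h : Kemmer s x y) (i j : Fin m) : y i * y j = 0 :=
  K4a_xx (K4a_swap h) i j

theorem K4a_xQ [CharZero K] {s : Module.End K V} {m : ℕ} {x y : Fin m → Module.End K V}
    (h : Kemmer s x y) (i : Fin m) : x i * ((1 / 2 : K) • (1 - s)) = x i := by
  rw [mul_smul_comm, mul_sub, mul_one, h.xs, sub_neg_eq_add, ← two_smul K, smul_smul]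
  norm_num

theorem K4a_Qx [CharZero K] {s : Module.End K V} {m : ℕ} {x y : Fin m → Module.End K V}
    (h : Kemmer s x y) (i : Fin m) : ((1 / 2 : K) • (1 - s)) * x i = 0 := by
  rw [smul_mul_assoc, sub_mul, one_mul, h.sx, sub_self, smul_zero]

theorem K4a_Qy [CharZero K] {s : Module.End K V} {m : ℕ} {x y : Fin m → Module.End K V}
    (h : Kemmer s x y) (i : Fin m) : ((1 / 2 : K) • (1 - s)) * y i = y i := by
  rw [smul_mul_assoc, sub_mul, one_mul, h.sy, sub_neg_eq_add, ← two_smul K, smul_smul]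
  norm_num

theorem K4a_yQ [CharZero K] {s : Module.End K V} {m : ℕ} {x y : Fin m → Module.End K V}
    (h : Kemmer s x y) (i : Fin m) : y i * ((1 / 2 : K) • (1 - s)) = 0 := by
  rw [mul_smul_comm, mul_sub, mul_one, h.ys, sub_self, smul_zero]

theorem K4a_xyx [CharZero K] {s : Module.End K V} {m : ℕ} {x y : Fin m → Module.End K V}
    (h : Kemmer s x y) (i : Fin m) : x i * y i * x i = x i := by
  have h1 := h.r1 i i i
  simp only [if_true] at h1
  have h2 : (2 : K) • (x i * y i * x i) = (2 : K) • x i := by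
    rw [two_smul, two_smul]; exact h1
  exact smul_right_injective _ (two_ne_zero : (2 : K) ≠ 0) h2

theorem K4a_yxy [CharZero K] {s : Module.End K V} {m : ℕ} {x y : Fin m → Module.End K V}
    (h : Kemmer s x y) (i : Fin m) : y i * x i * y i = y i :=
  K4a_xyx (K4a_swap h) i

/-- For different indices. -/
theorem K4a_ne1 [CharZero K] {s : Module.End K V} {m : ℕ} {x y : Fin m → Module.End K V}
    (h : Kemmer s x y) {i j : Fin m} (hij : i ≠ j) : x i * y i * x j + x j * y i * x i = x j := by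
  have h1 := h.r1 i i j
  rw [if_pos rfl, if_neg (Ne.symm hij), add_zero] at h1
  exact h1

theorem K4a_ne2 [CharZero K] {s : Module.End K V} {m : ℕ} {x y : Fin m → Module.End K V}
    (h : Kemmer s x y) {i j : Fin m} (hij : i ≠ j) : y i * x i * y j + y j * x i * y i = y j :=
  K4a_ne1 (K4a_swap h) hij

/-- `x i y j x i = 0` for `i ≠ j`. -/
theorem K4a_zero [CharZero K] {s : Module.End K V} {m : ℕ} {x y : Fin m → Module.End K V}
    (h : Kemmer s x y) {i j : Fin m} (hij : i ≠ j) : x i * y j * x i = 0 := by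
  have h1 := h.r1 i j i
  rw [if_neg hij, add_zero, ← two_smul K] at h1
  exact (smul_eq_zero.mp h1).resolve_left two_ne_zero

/-- The idempotents `c i`. -/
noncomputable def K4c (s : Module.End K V) {m : ℕ} (x y : Fin m → Module.End K V) (i : Fin m) :
    Module.End K V := x i * y i + (1 / 2 : K) • (1 - s) - y i * x i

theorem K4a_cx [CharZero K] {s : Module.End K V} {m : ℕ} {x y : Fin m → Module.End K V}
    (h : Kemmer s x y) (i : Fin m) : K4c s x y i * x i = x i := by
  rw [K4c, sub_mul, add_mul, K4a_xyx h, K4a_Qx h, mul_assoc, K4a_xx h]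
  simp

theorem K4a_xc [CharZero K] {s : Module.End K V} {m : ℕ} {x y : Fin m → Module.End K V}
    (h : Kemmer s x y) (i : Fin m) : x i * K4c s x y i = 0 := by
  rw [K4c, mul_sub, mul_add, K4a_xQ h, ← mul_assoc, ← mul_assoc, K4a_xx h, K4a_xyx h]
  simp

theorem K4a_cy [CharZero K] {s : Module.End K V} {m : ℕ} {x y : Fin m → Module.End K V}
    (h : Kemmer s x y) (i : Fin m) : K4c s x y i * y i = 0 := by
  rw [K4c, sub_mul, add_mul, K4a_yxy h, K4a_Qy h, mul_assoc, K4a_yy h]
  simp

theorem K4a_yc [CharZero K] {s : Module.End K V} {m : ℕ} {x y : Fin m → Module.End K V}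
    (h : Kemmer s x y) (i : Fin m) : y i * K4c s x y i = y i := by
  rw [K4c, mul_sub, mul_add, K4a_yQ h, ← mul_assoc, ← mul_assoc, K4a_yy h, K4a_yxy h]
  simp

theorem K4a_comx [CharZero K] {s : Module.End K V} {m : ℕ} {x y : Fin m → Module.End K V}
    (h : Kemmer s x y) {i j : Fin m} (hij : i ≠ j) : K4c s x y i * x j = x j * K4c s x y i := by
  have h1 := K4a_ne1 h hij
  have h2 : K4c s x y i * x j = x i * y i * x j := by
    rw [K4c, sub_mul, add_mul, K4a_Qx h, mul_assoc (y i), K4a_xx h]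
    simp
  have h3 : x j * K4c s x y i = x j - x j * y i * x i := by
    rw [K4c, mul_sub, mul_add, K4a_xQ h, ← mul_assoc, ← mul_assoc, K4a_xx h]
    simp
  rw [h2, h3, eq_sub_iff_add_eq, h1]

theorem K4a_comy [CharZero K] {s : Module.End K V} {m : ℕ} {x y : Fin m → Module.End K V}
    (h : Kemmer s x y) {i j : Fin m} (hij : i ≠ j) : K4c s x y i * y j = y j * K4c s x y i := by
  have h1 := K4a_ne2 h hij
  have h2 : K4c s x y i * y j = y j - y i * x i * y j := by
    rw [K4c, sub_mul, add_mul, K4a_Qy h, mul_assoc (x i), K4a_yy h]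
    simp
  have h3 : y j * K4c s x y i = y j * x i * y i := by
    rw [K4c, mul_sub, mul_add, K4a_yQ h, ← mul_assoc, ← mul_assoc, K4a_yy h]
    simp
  rw [h2, h3, sub_eq_iff_eq_add', h1]

theorem K4a_coms [CharZero K] {s : Module.End K V} {m : ℕ} {x y : Fin m → Module.End K V}
    (h : Kemmer s x y) (i : Fin m) : K4c s x y i * s = s * K4c s x y i := by
  have h1 : s * (1 - s) = (1 - s) * s := by noncomm_ring
  have h2 : x i * y i * s = s * (x i * y i) := by
    rw [mul_assoc, h.ys, ← mul_assoc, h.sx]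
  have h3 : y i * x i * s = s * (y i * x i) := by
    rw [mul_assoc, h.xs, ← mul_assoc, h.sy]; simp
  rw [K4c, sub_mul, add_mul, mul_sub, mul_add, h2, h3, smul_mul_assoc, mul_smul_comm, h1]

theorem K4a_idem [CharZero K] {s : Module.End K V} {m : ℕ} {x y : Fin m → Module.End K V}
    (h : Kemmer s x y) (i : Fin m) : K4c s x y i * K4c s x y i = K4c s x y i := by
  have hQ : ((1 / 2 : K) • (1 - s)) * ((1 / 2 : K) • (1 - s)) = (1 / 2 : K) • (1 - s) := by
    rw [smul_mul_smul_comm]
    have : (1 - s) * (1 - s) = (2 : K) • (1 - s) := by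
      have e1 : (1 - s) * (1 - s) = 1 - s - s + s * s := by noncomm_ring
      rw [e1, h.s_sq, two_smul]; abel
    rw [this, smul_smul]; norm_num
  nth_rewrite 2 [K4c]
  rw [mul_sub, mul_add, ← mul_assoc, K4a_cx h, ← mul_assoc, K4a_cy h, zero_mul, sub_zero, K4c,
    sub_mul, add_mul, hQ, mul_assoc (x i), K4a_yQ h, mul_assoc (y i), K4a_xQ h, mul_zero]
  abel

/-- The case `b = 0` of K4a. -/
theorem K4a_zero_case [CharZero K] {s : Module.End K V} {m : ℕ}
    {x y : Fin (m + 1) → Module.End K V}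
    (h : Kemmer s x y) {W : Submodule K V}
    (hW : ∀ w ∈ W, K4c s x y 0 w = 0) (hW0 : W ≠ ⊥)
    (h1 : ∀ i, i ≠ 0 → ∀ w ∈ W, x i w ∈ W) (h2 : ∀ i, i ≠ 0 → ∀ w ∈ W, y i w ∈ W)
    (h3 : ∀ w ∈ W, s w ∈ W) {v : V}
    (hv : K4c s x y 0 v = 0) : v ∈ W := by
  have ap : ∀ {A B : Module.End K V} (w : V), A = B → A w = B w := by
    intro A B w hAB; rw [hAB]
  set S : Set V := {u | u ∈ W ∨ (∃ w ∈ W, u = x 0 w) ∨
    (∃ j, j ≠ 0 ∧ ∃ w ∈ W, u = y j (x 0 w))} with hS
  set W' := Submodule.span K S with hW'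
  have hWW : ∀ w ∈ W, w ∈ W' := fun w hw => Submodule.subset_span (Or.inl hw)
  have hX : ∀ w ∈ W, x 0 w ∈ W' := fun w hw =>
    Submodule.subset_span (Or.inr (Or.inl ⟨w, hw, rfl⟩))
  have hY : ∀ j, j ≠ 0 → ∀ w ∈ W, y j (x 0 w) ∈ W' := fun j hj w hw =>
    Submodule.subset_span (Or.inr (Or.inr ⟨j, hj, w, hw, rfl⟩))
  have key : ∀ T : Module.End K V, (∀ u ∈ S, T u ∈ W') → ∀ u ∈ W', T u ∈ W' := by
    intro T hT u hu
    have : W' ≤ W'.comap T := Submodule.span_le.mpr hT
    exact this hu
  have sx : ∀ i, ∀ u ∈ W', x i u ∈ W' := by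
    intro i
    apply key
    rintro u (hu | ⟨w, hw, rfl⟩ | ⟨j, hj, w, hw, rfl⟩)
    · by_cases hi : i = 0
      · rw [hi]; exact hX u hu
      · exact hWW _ (h1 i hi u hu)
    · have e := ap w (K4a_xx h i 0)
      rw [Module.End.mul_apply] at e
      rw [e]; exact W'.zero_mem
    · by_cases hi : i = 0
      · rw [hi]
        have e := ap w (K4a_zero h (Ne.symm hj))
        rw [Module.End.mul_apply, Module.End.mul_apply] at e
        rw [e]; exact W'.zero_mem
      · have e := ap w (h.r1 i j 0)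
        rw [if_neg (Ne.symm hj), add_zero] at e
        rw [LinearMap.add_apply, Module.End.mul_apply, Module.End.mul_apply,
          Module.End.mul_apply, Module.End.mul_apply] at e
        rw [eq_sub_of_add_eq e]
        refine W'.sub_mem ?_ (hX _ (h2 j hj _ (h1 i hi w hw)))
        split
        · exact hX w hw
        · exact W'.zero_mem
  have sy : ∀ i, ∀ u ∈ W', y i u ∈ W' := by
    intro i
    apply key
    rintro u (hu | ⟨w, hw, rfl⟩ | ⟨j, hj, w, hw, rfl⟩)
    · by_cases hi : i = 0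
      · rw [hi]
        have e := ap u (K4a_yc h 0)
        rw [Module.End.mul_apply, hW u hu, map_zero] at e
        rw [← e]; exact W'.zero_mem
      · exact hWW _ (h2 i hi u hu)
    · by_cases hi : i = 0
      · rw [hi]
        have e1 : x 0 (y 0 w) = 0 := by
          have e := ap w (K4a_yc h 0)
          rw [Module.End.mul_apply, hW w hw, map_zero] at e
          rw [← e, map_zero]
        have e2 := hW w hw
        rw [K4c, LinearMap.sub_apply, LinearMap.add_apply, Module.End.mul_apply,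
          Module.End.mul_apply, e1, zero_add, sub_eq_zero] at e2
        rw [← e2, LinearMap.smul_apply, LinearMap.sub_apply, Module.End.one_apply]
        exact W'.smul_mem _ (W'.sub_mem (hWW w hw) (hWW _ (h3 w hw)))
      · exact hY i hi w hw
    · have e := ap (x 0 w) (K4a_yy h i j)
      rw [Module.End.mul_apply] at e
      rw [e]; exact W'.zero_mem
  have ss : ∀ u ∈ W', s u ∈ W' := by
    apply key
    rintro u (hu | ⟨w, hw, rfl⟩ | ⟨j, hj, w, hw, rfl⟩)
    · exact hWW _ (h3 u hu)
    · have e := ap w (h.sx 0)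
      rw [Module.End.mul_apply] at e
      rw [e]; exact hX w hw
    · have e := ap (x 0 w) (h.sy j)
      rw [Module.End.mul_apply] at e
      rw [e]; exact W'.neg_mem (hY j hj w hw)
  have top : W' = ⊤ := by
    refine (h.irr W' sx sy ss).resolve_left ?_
    intro hb
    obtain ⟨w, hw, hw0⟩ := Submodule.exists_mem_ne_zero_of_ne_bot hW0
    have := hWW w hw
    rw [hb, Submodule.mem_bot] at this
    exact hw0 this
  have last : ∀ u ∈ W', u - K4c s x y 0 u ∈ W := by
    have : W' ≤ W.comap (1 - K4c s x y 0) := by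
      refine Submodule.span_le.mpr ?_
      rintro u (hu | ⟨w, hw, rfl⟩ | ⟨j, hj, w, hw, rfl⟩)
      · show (1 - K4c s x y 0) u ∈ W
        rw [LinearMap.sub_apply, hW u hu, sub_zero]; exact hu
      · show (1 - K4c s x y 0) (x 0 w) ∈ W
        have e := ap w (K4a_cx h 0)
        rw [Module.End.mul_apply] at e
        rw [LinearMap.sub_apply, e, Module.End.one_apply, sub_self]; exact W.zero_mem
      · show (1 - K4c s x y 0) (y j (x 0 w)) ∈ W
        have e := ap w (K4a_cx h 0)
        have e2 := ap (x 0 w) (K4a_comy h (Ne.symm hj))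
        rw [Module.End.mul_apply] at e e2
        rw [Module.End.mul_apply, e] at e2
        rw [LinearMap.sub_apply, e2, Module.End.one_apply, sub_self]; exact W.zero_mem
    intro u hu
    have := this hu
    exact this
  have := last v (by rw [top]; trivial)
  rwa [hv, sub_zero] at this

theorem K4a_csum (s : Module.End K V) {m : ℕ} (x y : Fin m → Module.End K V) [CharZero K]
    (i : Fin m) : K4c (-s) y x i = 1 - K4c s x y i := by
  have e : (1 / 2 : K) • (1 - -s) = 1 - (1 / 2 : K) • (1 - s) := by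
    rw [sub_neg_eq_add, eq_sub_iff_add_eq, ← smul_add]
    have : (1 + s + (1 - s)) = (2 : K) • (1 : Module.End K V) := by rw [two_smul]; abel
    rw [this, smul_smul]; norm_num
  rw [K4c, K4c, e]; abel

/-- Chunk K4a: one step of the induction. Let `c₀ = x 0 y 0 + Q - y 0 x 0`, `Q = (1 - s)/2`. It is an
idempotent commuting with `s` and with `x i, y i`, `i ≥ 1` (by r1, r2: `x 0 y 0 x i = x i - x i y 0 x 0`,
etc.), `c₀ x 0 = x 0`, `x 0 c₀ = 0`, `c₀ y 0 = 0`, `y 0 c₀ = y 0`. Let `b` be `0` or `1` and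
`U = ker (c₀ - b)`. If `U ≠ 0` then `U` is irreducible under `s, x i, y i`, `i ≥ 1`: let
`0 ≠ W ≤ U` be stable under these. Case `b = 0`: `W' = W + x 0 W + Σ_{j ≥ 1} y j x 0 W` is stable
under everything: `y 0 W = y 0 c₀ W = 0`; `y 0 x 0 w = w` for `w ∈ W ∩ V₋` and `x 0 w = 0` for
`w ∈ W ∩ V₊` (`W` is the sum of these two as `s W ⊆ W`), since `y 0 x 0 = 1 - c₀` on `V₋`;
`x i x 0 = 0`, `x i y j x 0 = - x 0 y j x i + δ_ij x 0` (`i, j ≥ 1`), `x 0 y j x 0 = 0`
(`2 x 0 y j x 0 = 0` by r1), `y i y j = 0` (`y y' = y s y' = - y y'`). So `W' = V`, and applying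
`1 - c₀` (which kills `x 0 W` and `y j x 0 W`, `j ≥ 1`) gives `W = U`. Case `b = 1`: symmetric
with `x 0` and `y 0` exchanged: `W' = W + y 0 W + Σ_{j ≥ 1} x j y 0 W`. -/
theorem K4_step [CharZero K] {s : Module.End K V} {m : ℕ} {x y : Fin (m + 1) → Module.End K V}
    (h : Kemmer s x y) {b : K} (hb : b = 0 ∨ b = 1) {W : Submodule K V}
    (hW : ∀ w ∈ W, (x 0 * y 0 + (1 / 2 : K) • (1 - s) - y 0 * x 0) w = b • w) (hW0 : W ≠ ⊥)
    (h1 : ∀ i, i ≠ 0 → ∀ w ∈ W, x i w ∈ W) (h2 : ∀ i, i ≠ 0 → ∀ w ∈ W, y i w ∈ W)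
    (h3 : ∀ w ∈ W, s w ∈ W) {v : V}
    (hv : (x 0 * y 0 + (1 / 2 : K) • (1 - s) - y 0 * x 0) v = b • v) : v ∈ W := by
  rcases hb with rfl | rfl
  · refine K4a_zero_case h (fun w hw => ?_) hW0 h1 h2 h3 ?_
    · have := hW w hw
      rw [zero_smul] at this; exact this
    · rw [zero_smul] at hv; exact hv
  · refine K4a_zero_case (K4a_swap h) (fun w hw => ?_) hW0 h2 h1 (fun w hw => ?_) ?_
    · rw [K4a_csum, LinearMap.sub_apply, Module.End.one_apply, sub_eq_zero]
      have := hW w hw
      rw [one_smul] at this; exact this.symm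
    · exact W.neg_mem (h3 w hw)
    · rw [K4a_csum, LinearMap.sub_apply, Module.End.one_apply, sub_eq_zero]
      rw [one_smul] at hv; exact hv.symm

/-- The two eigenspaces of the idempotent `c 0`. -/
noncomputable def K4U (s : Module.End K V) {m : ℕ} (x y : Fin (m + 1) → Module.End K V) (b : K) :
    Submodule K V := LinearMap.ker (K4c s x y 0 - b • 1)

theorem K4b_memU {s : Module.End K V} {m : ℕ} {x y : Fin (m + 1) → Module.End K V} {b : K} {v : V} :
    v ∈ K4U s x y b ↔ K4c s x y 0 v = b • v := by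
  rw [K4U, LinearMap.mem_ker, LinearMap.sub_apply, LinearMap.smul_apply, Module.End.one_apply,
    sub_eq_zero]

theorem K4b_stab {s : Module.End K V} {m : ℕ} {x y : Fin (m + 1) → Module.End K V} {b : K}
    {T : Module.End K V} (hT : K4c s x y 0 * T = T * K4c s x y 0) {v : V}
    (hv : v ∈ K4U s x y b) : T v ∈ K4U s x y b := by
  rw [K4b_memU] at hv ⊢
  have e : K4c s x y 0 (T v) = T (K4c s x y 0 v) := by
    rw [← Module.End.mul_apply, hT, Module.End.mul_apply]
  rw [e, hv, map_smul]

theorem K4b_us [CharZero K] {s : Module.End K V} {m : ℕ} {x y : Fin (m + 1) → Module.End K V}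
    (h : Kemmer s x y) (b : K) : ∀ v ∈ K4U s x y b, s v ∈ K4U s x y b :=
  fun _ hv => K4b_stab (K4a_coms h 0) hv

theorem K4b_ux [CharZero K] {s : Module.End K V} {m : ℕ} {x y : Fin (m + 1) → Module.End K V}
    (h : Kemmer s x y) (b : K) (i : Fin m) : ∀ v ∈ K4U s x y b, x i.succ v ∈ K4U s x y b :=
  fun _ hv => K4b_stab (K4a_comx h (Fin.succ_ne_zero i).symm) hv

theorem K4b_uy [CharZero K] {s : Module.End K V} {m : ℕ} {x y : Fin (m + 1) → Module.End K V}
    (h : Kemmer s x y) (b : K) (i : Fin m) : ∀ v ∈ K4U s x y b, y i.succ v ∈ K4U s x y b :=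
  fun _ hv => K4b_stab (K4a_comy h (Fin.succ_ne_zero i).symm) hv

/-- The restriction of a Kemmer system to an eigenspace of `c 0`. -/
theorem K4b_kemmer [CharZero K] {s : Module.End K V} {m : ℕ}
    {x y : Fin (m + 1) → Module.End K V} (h : Kemmer s x y) {b : K} (hb : b = 0 ∨ b = 1) :
    Kemmer (LinearMap.restrict s (K4b_us h b))
      (fun i : Fin m => LinearMap.restrict (x i.succ) (K4b_ux h b i))
      (fun i : Fin m => LinearMap.restrict (y i.succ) (K4b_uy h b i)) where
  s_sq := by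
    ext v
    have := congrArg (fun T : Module.End K V => T (v : V)) h.s_sq
    exact this
  sx := fun i => by
    ext v
    exact congrArg (fun T : Module.End K V => T (v : V)) (h.sx i.succ)
  xs := fun i => by
    ext v
    exact congrArg (fun T : Module.End K V => T (v : V)) (h.xs i.succ)
  sy := fun i => by
    ext v
    exact congrArg (fun T : Module.End K V => T (v : V)) (h.sy i.succ)
  ys := fun i => by
    ext v
    exact congrArg (fun T : Module.End K V => T (v : V)) (h.ys i.succ)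
  r1 := fun i j k => by
    ext v
    have := congrArg (fun T : Module.End K V => T (v : V)) (h.r1 i.succ j.succ k.succ)
    simp only [Fin.succ_inj] at this
    by_cases h1 : i = j <;> by_cases h2 : k = j <;> simp [h1, h2] at this ⊢ <;> exact this
  r2 := fun i j k => by
    ext v
    have := congrArg (fun T : Module.End K V => T (v : V)) (h.r2 i.succ j.succ k.succ)
    simp only [Fin.succ_inj] at this
    by_cases h1 : i = j <;> by_cases h2 : k = j <;> simp [h1, h2] at this ⊢ <;> exact this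
  irr := fun W h1 h2 h3 => by
    by_cases hW : W = ⊥
    · exact Or.inl hW
    · right
      rw [eq_top_iff]
      rintro ⟨v, hv⟩ -
      have hv' := K4b_memU.mp hv
      have : v ∈ W.map (K4U s x y b).subtype := by
        refine K4_step h hb (W := W.map (K4U s x y b).subtype) ?_ ?_ ?_ ?_ ?_ hv'
        · rintro _ ⟨w, -, rfl⟩
          exact K4b_memU.mp w.2
        · intro h0
          apply hW
          rw [eq_bot_iff]
          intro w hw
          have h4 : (w : V) ∈ W.map (K4U s x y b).subtype := ⟨w, hw, rfl⟩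
          rw [h0, Submodule.mem_bot] at h4
          exact Subtype.ext h4
        · intro i hi
          obtain ⟨j, rfl⟩ := Fin.exists_succ_eq.mpr hi
          rintro _ ⟨w, hw, rfl⟩
          exact ⟨_, h1 j w hw, rfl⟩
        · intro i hi
          obtain ⟨j, rfl⟩ := Fin.exists_succ_eq.mpr hi
          rintro _ ⟨w, hw, rfl⟩
          exact ⟨_, h2 j w hw, rfl⟩
        · rintro _ ⟨w, hw, rfl⟩
          exact ⟨_, h3 w hw, rfl⟩
      obtain ⟨w, hw, hwv⟩ := this
      have : w = ⟨v, hv⟩ := Subtype.ext hwv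
      rwa [← this]

/-- Dimensions of eigenspaces of `s` in the two parts. -/
theorem K4b_eig [CharZero K] [FiniteDimensional K V] {s : Module.End K V} {m : ℕ}
    {x y : Fin (m + 1) → Module.End K V} (h : Kemmer s x y) (t : K) :
    finrank K (eig s t) = finrank K (eig (LinearMap.restrict s (K4b_us h 0)) t) +
      finrank K (eig (LinearMap.restrict s (K4b_us h 1)) t) := by
  have hc : ∀ b : K, finrank K (eig (LinearMap.restrict s (K4b_us h b)) t) =
      finrank K ((eig s t ⊓ K4U s x y b : Submodule K V)) := by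
    intro b
    have e : eig (LinearMap.restrict s (K4b_us h b)) t =
        (eig s t ⊓ K4U s x y b).comap (K4U s x y b).subtype := by
      ext v
      rw [Submodule.mem_comap, Submodule.mem_inf, eig, eig, LinearMap.mem_ker, LinearMap.mem_ker]
      constructor
      · intro h1
        exact ⟨congrArg Subtype.val h1, v.2⟩
      · rintro ⟨h1, -⟩
        exact Subtype.ext h1
    rw [e]
    exact LinearEquiv.finrank_eq (Submodule.comapSubtypeEquivOfLe inf_le_right)
  rw [hc, hc, ← Submodule.finrank_sup_add_finrank_inf_eq]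
  have h1 : (eig s t ⊓ K4U s x y 0) ⊓ (eig s t ⊓ K4U s x y 1) = ⊥ := by
    rw [eq_bot_iff]
    rintro v ⟨⟨-, h1⟩, ⟨-, h2⟩⟩
    have h1' := K4b_memU.mp h1
    have h2' := K4b_memU.mp h2
    rw [h1', zero_smul, one_smul] at h2'
    exact h2'.symm
  have h2 : (eig s t ⊓ K4U s x y 0) ⊔ (eig s t ⊓ K4U s x y 1) = eig s t := by
    apply le_antisymm (sup_le inf_le_left inf_le_left)
    intro v hv
    have hst : K4c s x y 0 v ∈ eig s t := by
      rw [eig, LinearMap.mem_ker, LinearMap.sub_apply, sub_eq_zero] at hv ⊢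
      rw [← Module.End.mul_apply, ← K4a_coms h 0, Module.End.mul_apply, hv, LinearMap.smul_apply,
        LinearMap.smul_apply, map_smul, Module.End.one_apply, Module.End.one_apply]
    have hi : K4c s x y 0 (K4c s x y 0 v) = K4c s x y 0 v := by
      rw [← Module.End.mul_apply, K4a_idem h 0]
    rw [Submodule.mem_sup]
    refine ⟨v - K4c s x y 0 v, ⟨(eig s t).sub_mem hv hst, ?_⟩, K4c s x y 0 v, ⟨hst, ?_⟩, by simp⟩
    · rw [SetLike.mem_coe, K4b_memU, map_sub, hi, sub_self, zero_smul]
    · rw [SetLike.mem_coe, K4b_memU, hi, one_smul]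
  rw [h1, h2, finrank_bot, add_zero]

theorem K4b_line [FiniteDimensional K V] [Nontrivial V] {s : Module.End K V} {m : ℕ}
    {x y : Fin m → Module.End K V} (h : Kemmer s x y) {t : K} (hs : s = t • 1)
    (hx : ∀ i, x i = 0) (hy : ∀ i, y i = 0) : finrank K V = 1 := by
  obtain ⟨v, hv⟩ := exists_ne (0 : V)
  have h1 : Submodule.span K {v} = ⊤ := by
    refine (h.irr _ ?_ ?_ ?_).resolve_left ?_
    · intro i w _; rw [hx i]; exact Submodule.zero_mem _
    · intro i w _; rw [hy i]; exact Submodule.zero_mem _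
    · intro w hw; rw [hs]; exact Submodule.smul_mem _ _ hw
    · rw [Submodule.span_singleton_eq_bot]; exact hv
  have h2 := finrank_span_singleton (K := K) hv
  rw [h1, finrank_top] at h2
  exact h2

theorem K4b_eq (t : K) : finrank K (eig (t • (1 : Module.End K V)) t) = finrank K V := by
  rw [eig, sub_self, LinearMap.ker_zero, finrank_top]

theorem K4b_ne {t t' : K} (h : t ≠ t') : finrank K (eig (t • (1 : Module.End K V)) t') = 0 := by
  have : eig (t • (1 : Module.End K V)) t' = ⊥ := by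
    rw [eq_bot_iff]
    intro v hv
    rw [eig, LinearMap.mem_ker, ← sub_smul, LinearMap.smul_apply, Module.End.one_apply,
      smul_eq_zero] at hv
    exact hv.resolve_left (sub_ne_zero.mpr h)
  rw [this, finrank_bot]

/-- The counting operator commutes with the `x j`. -/
theorem K4b_cntx [CharZero K] {s : Module.End K V} {m : ℕ} {x y : Fin m → Module.End K V}
    (h : Kemmer s x y) (j : Fin m) : cnt s x y * x j = x j * cnt s x y := by
  have e : cnt s x y = (1 / 2 : K) • (1 - s) + ∑ i, K4c s x y i := rfl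
  rw [e, add_mul, mul_add, K4a_Qx h, K4a_xQ h, Finset.sum_mul, Finset.mul_sum,
    ← Finset.add_sum_erase _ _ (Finset.mem_univ j), K4a_cx h,
    ← Finset.add_sum_erase (Finset.univ) (fun i => x j * K4c s x y i) (Finset.mem_univ j),
    K4a_xc h, zero_add, zero_add]
  congr 1
  refine Finset.sum_congr rfl fun i hi => ?_
  exact K4a_comx h (Finset.ne_of_mem_erase hi)

theorem K4b_cnty [CharZero K] {s : Module.End K V} {m : ℕ} {x y : Fin m → Module.End K V}
    (h : Kemmer s x y) (j : Fin m) : cnt s x y * y j = y j * cnt s x y := by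
  have e : cnt s x y = (1 / 2 : K) • (1 - s) + ∑ i, K4c s x y i := rfl
  rw [e, add_mul, mul_add, K4a_Qy h, K4a_yQ h, Finset.sum_mul, Finset.mul_sum,
    ← Finset.add_sum_erase _ _ (Finset.mem_univ j), K4a_cy h,
    ← Finset.add_sum_erase (Finset.univ) (fun i => y j * K4c s x y i) (Finset.mem_univ j),
    K4a_yc h, zero_add, zero_add]
  congr 1
  refine Finset.sum_congr rfl fun i hi => ?_
  exact K4a_comy h (Finset.ne_of_mem_erase hi)

theorem K4b_cnts [CharZero K] {s : Module.End K V} {m : ℕ} {x y : Fin m → Module.End K V}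
    (h : Kemmer s x y) : cnt s x y * s = s * cnt s x y := by
  have e : cnt s x y = (1 / 2 : K) • (1 - s) + ∑ i, K4c s x y i := rfl
  have h1 : s * (1 - s) = (1 - s) * s := by noncomm_ring
  rw [e, add_mul, mul_add, Finset.sum_mul, Finset.mul_sum, smul_mul_assoc, mul_smul_comm, h1]
  congr 1
  exact Finset.sum_congr rfl fun i _ => K4a_coms h i

/-- The counting operator is a scalar. -/
theorem K4b_scalar [CharZero K] [IsAlgClosed K] [FiniteDimensional K V] [Nontrivial V]
    {s : Module.End K V} {m : ℕ} {x y : Fin m → Module.End K V}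
    (h : Kemmer s x y) : ∃ l : K, ∀ v, cnt s x y v = l • v := by
  obtain ⟨l, hl⟩ := Module.End.exists_eigenvalue (cnt s x y)
  refine ⟨l, ?_⟩
  have key : ∀ T : Module.End K V, cnt s x y * T = T * cnt s x y →
      ∀ w ∈ Module.End.eigenspace (cnt s x y) l, T w ∈ Module.End.eigenspace (cnt s x y) l := by
    intro T hT w hw
    rw [Module.End.mem_eigenspace_iff] at hw ⊢
    rw [← Module.End.mul_apply, hT, Module.End.mul_apply, hw, map_smul]
  have h1 := (h.irr (Module.End.eigenspace (cnt s x y) l) (fun i => key _ (K4b_cntx h i))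
    (fun i => key _ (K4b_cnty h i)) (key _ (K4b_cnts h))).resolve_left hl
  intro v
  have : v ∈ Module.End.eigenspace (cnt s x y) l := by rw [h1]; trivial
  exact Module.End.mem_eigenspace_iff.mp this

theorem K4b_split {s : Module.End K V} {m : ℕ} (x y : Fin (m + 1) → Module.End K V) :
    cnt s x y = K4c s x y 0 + cnt s (fun i => x i.succ) (fun i => y i.succ) := by
  have e : cnt s x y = (1 / 2 : K) • (1 - s) + ∑ i, K4c s x y i := rfl
  have e' : cnt s (fun i => x i.succ) (fun i => y i.succ) =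
    (1 / 2 : K) • (1 - s) + ∑ i : Fin m, K4c s x y i.succ := rfl
  rw [e, e', Fin.sum_univ_succ]; abel

theorem K4b_cntU [CharZero K] {s : Module.End K V} {m : ℕ} {x y : Fin (m + 1) → Module.End K V}
    (h : Kemmer s x y) (b : K) (u : K4U s x y b) :
    ((cnt (LinearMap.restrict s (K4b_us h b))
      (fun i : Fin m => LinearMap.restrict (x i.succ) (K4b_ux h b i))
      (fun i : Fin m => LinearMap.restrict (y i.succ) (K4b_uy h b i)) u : K4U s x y b) : V) =
    cnt s (fun i => x i.succ) (fun i => y i.succ) (u : V) := by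
  rw [cnt, cnt]
  simp [LinearMap.sum_apply]

/-- The scalars on the two parts. -/
theorem K4b_parts [CharZero K] {s : Module.End K V} {m : ℕ} {x y : Fin (m + 1) → Module.End K V}
    (h : Kemmer s x y) {l : K} (hl : ∀ v, cnt s x y v = l • v) {b : K} (hU : K4U s x y b ≠ ⊥)
    {k : ℕ}
    (hk : ∀ v, cnt (LinearMap.restrict s (K4b_us h b))
      (fun i : Fin m => LinearMap.restrict (x i.succ) (K4b_ux h b i))
      (fun i : Fin m => LinearMap.restrict (y i.succ) (K4b_uy h b i)) v = (k : K) • v) :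
    l = b + k := by
  obtain ⟨u, hu, hu0⟩ := Submodule.exists_mem_ne_zero_of_ne_bot hU
  have h1 := congrArg (Subtype.val) (hk ⟨u, hu⟩)
  rw [K4b_cntU h] at h1
  have h2 := hl u
  rw [K4b_split, LinearMap.add_apply, h1, K4b_memU.mp hu] at h2
  have h3 : (b + k) • u = l • u := by
    rw [add_smul]; exact h2
  have h4 : (l - (b + k)) • u = 0 := by rw [sub_smul, h3, sub_self]
  exact sub_eq_zero.mp ((smul_eq_zero.mp h4).resolve_right hu0)

theorem K4b_zero0 [CharZero K] {s : Module.End K V} {m : ℕ} {x y : Fin (m + 1) → Module.End K V}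
    (h : Kemmer s x y) (hU : K4U s x y 0 = ⊥) : K4c s x y 0 = 1 := by
  ext v
  have : v - K4c s x y 0 v ∈ K4U s x y 0 := by
    rw [K4b_memU, map_sub, ← Module.End.mul_apply, K4a_idem h 0, sub_self, zero_smul]
  rw [hU, Submodule.mem_bot, sub_eq_zero] at this
  exact this.symm

theorem K4b_zero1 [CharZero K] {s : Module.End K V} {m : ℕ} {x y : Fin (m + 1) → Module.End K V}
    (h : Kemmer s x y) (hU : K4U s x y 1 = ⊥) : K4c s x y 0 = 0 := by
  ext v
  have : K4c s x y 0 v ∈ K4U s x y 1 := by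
    rw [K4b_memU, one_smul, ← Module.End.mul_apply, K4a_idem h 0]
  rw [hU, Submodule.mem_bot] at this
  exact this

/-- Chunk K4b. Induction on `m` over all `V` (universe of `V` fixed): `V` is `Λ^k` of a space of
dimension `m + 1`. `m = 0`: `V` is irreducible under `s` alone, `s ² = 1`, so `V` is a line and
`s = 1` (`k = 0`) or `s = -1` (`k = 1`). Step `m → m + 1`: the counting operator commutes with
all `x i, y i, s` (each `c_i = x i y i + Q - y i x i` commutes with `x j, y j`, `j ≠ i`,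
`c_i x i = x i`, `x i c_i = 0`, `Q x i = 0`, `x i Q = x i`, ...), so it is a scalar (eigenspace of an
eigenvalue is stable, `K` algebraically closed). Let `U₀ = ker c₀`, `U₁ = ker (c₀ - 1)`,
`V = U₀ ⊕ U₁`, both stable under `s, x i, y i`, `i ≥ 1` (`Fin.succ`), and by `K4_step` Kemmer systems
of size `m` when nonzero, with scalars `k₀ = k`, `k₁ = k - 1` (the counting operator of `V` is
`c₀` plus the one of the restriction). If both are nonzero: `dim V₊ = C(m,k) + C(m,k-1) = C(m+1,k)`,
same for `V₋`. If `U₁ = 0`: then `x 0 = c₀ x 0 = 0`, `y 0 = y 0 c₀ = 0`, so `c₀ = Q = 0`,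
`s = 1`, hence all `x i = x i Q = 0`, `y i = 0`, `k = 0`, `V` is a line (irreducible) and the formula
holds. If `U₀ = 0`: `x 0 = x 0 (1 - c₀) = 0`, `y 0 = 0`, `c₀ = Q = 1`, `s = -1`, all `x i, y i = 0`,
`V` is a line, `k = m + 2`, `dim V₊ = 0 = C(m+1,m+2)`, `dim V₋ = 1 = C(m+1,m+1)`. -/
theorem K4_dim [CharZero K] [IsAlgClosed K] (m : ℕ) : ∀ (V : Type*) [AddCommGroup V] [Module K V]
    [FiniteDimensional K V] [Nontrivial V] {s : Module.End K V} {x y : Fin m → Module.End K V},
    Kemmer s x y → ∃ k : ℕ, (∀ v, cnt s x y v = (k : K) • v) ∧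
      finrank K (eig s 1) = m.choose k ∧ (k = 0 → finrank K (eig s (-1)) = 0) ∧
      (∀ j, k = j + 1 → finrank K (eig s (-1)) = m.choose j) := by
  induction m with
  | zero =>
    intro V _ _ _ _ s x y h
    have hcase : s = (1 : K) • 1 ∨ s = (-1 : K) • 1 := by
      rcases h.irr (eig s 1) (fun i => i.elim0) (fun i => i.elim0) (by
        intro w hw
        rw [eig, LinearMap.mem_ker, LinearMap.sub_apply, sub_eq_zero, one_smul,
          Module.End.one_apply] at hw
        rw [eig, LinearMap.mem_ker, LinearMap.sub_apply, sub_eq_zero, one_smul,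
          Module.End.one_apply, hw, hw]) with h1 | h1
      · right
        ext v
        have h2 : v + s v ∈ eig s 1 := by
          rw [eig, LinearMap.mem_ker, LinearMap.sub_apply, sub_eq_zero, one_smul,
            Module.End.one_apply, map_add, ← Module.End.mul_apply, h.s_sq, Module.End.one_apply,
            add_comm]
        rw [h1, Submodule.mem_bot] at h2
        rw [neg_one_smul, LinearMap.neg_apply, Module.End.one_apply]
        exact eq_neg_of_add_eq_zero_right h2
      · left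
        ext v
        have h2 : v ∈ eig s 1 := by rw [h1]; trivial
        rw [eig, LinearMap.mem_ker, LinearMap.sub_apply, sub_eq_zero] at h2
        exact h2
    have hline : ∀ t : K, s = t • 1 → finrank K V = 1 := fun t ht =>
      K4b_line h ht (fun i => i.elim0) (fun i => i.elim0)
    rcases hcase with hs | hs
    · refine ⟨0, fun v => ?_, ?_, fun _ => ?_, fun j hj => ?_⟩
      · rw [cnt, hs]; simp
      · rw [hs, K4b_eq, hline 1 hs]; rfl
      · rw [hs]; exact K4b_ne (by norm_num)
      · omega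
    · refine ⟨1, fun v => ?_, ?_, fun h1 => ?_, fun j hj => ?_⟩
      · rw [cnt, hs]
        simp only [Finset.univ_eq_empty, Finset.sum_empty, add_zero]
        have := congrArg (fun T : Module.End K V => T v)
          (show (1 / 2 : K) • (1 - (-1 : K) • (1 : Module.End K V)) = 1 by
            rw [neg_one_smul, sub_neg_eq_add, ← two_smul K, smul_smul]; norm_num)
        simp only [Module.End.one_apply] at this
        rw [this]; simp
      · rw [hs]; exact K4b_ne (by norm_num)
      · omega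
      · have : j = 0 := by omega
        rw [this, hs, K4b_eq, hline _ hs]; rfl
  | succ m ih =>
    intro V _ _ _ _ s x y h
    obtain ⟨l, hl⟩ := K4b_scalar h
    by_cases hU1 : K4U s x y 1 = ⊥
    · -- the operator is trivial
      have hc := K4b_zero1 h hU1
      have hx0 : x 0 = 0 := by rw [← K4a_cx h 0, hc, zero_mul]
      have hy0 : y 0 = 0 := by rw [← K4a_yc h 0, hc, mul_zero]
      have hQ : (1 / 2 : K) • (1 - s) = 0 := by
        rw [K4c, hx0, hy0, zero_mul, zero_add, sub_zero] at hc; exact hc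
      have hs : s = (1 : K) • 1 := by
        have := (smul_eq_zero.mp hQ).resolve_left (by norm_num)
        rw [one_smul]; exact (sub_eq_zero.mp this).symm
      have hx : ∀ i, x i = 0 := fun i => by rw [← K4a_xQ h i, hQ, mul_zero]
      have hy : ∀ i, y i = 0 := fun i => by rw [← K4a_Qy h i, hQ, zero_mul]
      refine ⟨0, fun v => ?_, ?_, fun _ => ?_, fun j hj => ?_⟩
      · rw [cnt, hQ]; simp [hx]
      · rw [hs, K4b_eq, K4b_line h hs hx hy, Nat.choose_zero_right]
      · rw [hs]; exact K4b_ne (by norm_num)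
      · omega
    by_cases hU0 : K4U s x y 0 = ⊥
    · have hc := K4b_zero0 h hU0
      have hx0 : x 0 = 0 := by rw [← mul_one (x 0), ← hc, K4a_xc h 0]
      have hy0 : y 0 = 0 := by rw [← one_mul (y 0), ← hc, K4a_cy h 0]
      have hQ : (1 / 2 : K) • (1 - s) = 1 := by
        rw [K4c, hx0, hy0, zero_mul, zero_add, sub_zero] at hc; exact hc
      have hs : s = (-1 : K) • 1 := by
        have h2 : (2 : K) • ((1 / 2 : K) • (1 - s)) = (2 : K) • 1 := by rw [hQ]
        rw [smul_smul] at h2
        norm_num at h2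
        rw [two_smul] at h2
        rw [neg_one_smul]
        have h3 : s = 1 - (1 - s) := by abel
        rw [h3, h2]; abel
      have hx : ∀ i, x i = 0 := fun i => by
        rw [← one_mul (x i), ← hQ, K4a_Qx h i]
      have hy : ∀ i, y i = 0 := fun i => by
        rw [← mul_one (y i), ← hQ, K4a_yQ h i]
      refine ⟨m + 2, fun v => ?_, ?_, fun h1 => ?_, fun j hj => ?_⟩
      · rw [cnt, hQ]
        simp only [hx, hy, mul_zero, zero_add, sub_zero, Finset.sum_const, Finset.card_univ,
          Fintype.card_fin, LinearMap.add_apply, Module.End.one_apply, LinearMap.smul_apply]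
        push_cast
        rw [← Nat.cast_smul_eq_nsmul K]
        push_cast
        rw [add_smul, add_smul, one_smul, two_smul]
        abel
      · rw [hs, Nat.choose_eq_zero_of_lt (by omega)]; exact K4b_ne (by norm_num)
      · omega
      · have : j = m + 1 := by omega
        rw [this, hs, K4b_eq, K4b_line h hs hx hy, Nat.choose_self]
    have : Nontrivial (K4U s x y 0) := (Submodule.nontrivial_iff_ne_bot).mpr hU0
    have : Nontrivial (K4U s x y 1) := (Submodule.nontrivial_iff_ne_bot).mpr hU1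
    obtain ⟨k0, a1, a2, a3, a4⟩ := ih (K4U s x y 0) (K4b_kemmer h (Or.inl rfl))
    obtain ⟨k1, b1, b2, b3, b4⟩ := ih (K4U s x y 1) (K4b_kemmer h (Or.inr rfl))
    have e0 := K4b_parts h hl hU0 a1
    have e1 := K4b_parts h hl hU1 b1
    have e2 : (k0 : K) = ((k1 + 1 : ℕ) : K) := by
      rw [zero_add] at e0
      rw [← e0, e1]; push_cast; ring
    have e3 : k0 = k1 + 1 := Nat.cast_injective e2
    refine ⟨k0, fun v => ?_, ?_, fun h1 => ?_, fun j hj => ?_⟩
    · rw [hl v, e0, zero_add]
    · rw [K4b_eig h, a2, b2, e3, Nat.choose_succ_succ, add_comm]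
    · omega
    · have hj' : j = k1 := by omega
      rw [K4b_eig h, a4 j hj, hj']
      rcases Nat.eq_zero_or_pos k1 with h0 | h0
      · rw [b3 h0, h0, Nat.choose_zero_right, Nat.choose_zero_right]
      · obtain ⟨j', hj'⟩ : ∃ j', k1 = j' + 1 := ⟨k1 - 1, by omega⟩
        rw [b4 j' hj', hj', Nat.choose_succ_succ, add_comm]

/-- Chunk K4c. From `K4_dim` and `K4_step`. Let `k` be as in `K4_dim` for the whole system. Since
`x 0 ≠ 0`, `U₁ = ker (c₀ - 1) ≠ 0` and `U₀ = ker c₀ ≠ 0` (see the proof of `K4_dim`), with scalars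
`k₁ = k - 1` and `k₀ = k`. `x 0` vanishes on `V₊` and on `U₁`, and is injective on `U₀ ∩ V₋`
(`y 0 x 0 = 1 - c₀` on `V₋`), so `rank (x 0) = dim (U₀ ∩ V₋) = C(n, k - 1)`, the value of `K4_dim`
for the restriction to `U₀` (size `n`, scalar `k`). Here `1 ≤ k` because `k - 1 = k₁ ≥ 0`, and
`k ≤ n + 1` because this rank is not zero. -/
theorem K4_rank [CharZero K] [IsAlgClosed K] [FiniteDimensional K V] [Nontrivial V]
    {s : Module.End K V} {n : ℕ} {x y : Fin (n + 1) → Module.End K V} (h : Kemmer s x y)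
    (hx : x 0 ≠ 0) : ∃ k : ℕ, 1 ≤ k ∧ k ≤ n + 1 ∧ finrank K (eig s 1) = (n + 1).choose k ∧
      finrank K (eig s (-1)) = (n + 1).choose (k - 1) ∧
      finrank K (LinearMap.range (x 0)) = n.choose (k - 1) := by
  have hU1 : K4U s x y 1 ≠ ⊥ := by
    intro h0
    apply hx
    rw [← K4a_cx h 0, K4b_zero1 h h0, zero_mul]
  have hU0 : K4U s x y 0 ≠ ⊥ := by
    intro h0
    apply hx
    rw [← mul_one (x 0), ← K4b_zero0 h h0, K4a_xc h 0]
  have : Nontrivial (K4U s x y 0) := (Submodule.nontrivial_iff_ne_bot).mpr hU0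
  have : Nontrivial (K4U s x y 1) := (Submodule.nontrivial_iff_ne_bot).mpr hU1
  obtain ⟨k, hk1, hk2, hk3, hk4⟩ := K4_dim (n + 1) V h
  obtain ⟨k0, a1, a2, a3, a4⟩ := K4_dim n (K4U s x y 0) (K4b_kemmer h (Or.inl rfl))
  obtain ⟨k1, b1, b2, b3, b4⟩ := K4_dim n (K4U s x y 1) (K4b_kemmer h (Or.inr rfl))
  have e0 := K4b_parts h hk1 hU0 a1
  have e1 := K4b_parts h hk1 hU1 b1
  have e2 : k = k0 := by
    rw [zero_add] at e0
    exact Nat.cast_injective e0
  have e3 : k = k1 + 1 := by
    have : (k : K) = ((k1 + 1 : ℕ) : K) := by rw [e1]; push_cast; ring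
    exact Nat.cast_injective this
  -- the rank of `x 0`
  have hr : finrank K (LinearMap.range (x 0)) =
      finrank K (eig (LinearMap.restrict s (K4b_us h 0)) (-1)) := by
    have e : eig (LinearMap.restrict s (K4b_us h 0)) (-1) =
        (eig s (-1) ⊓ K4U s x y 0).comap (K4U s x y 0).subtype := by
      ext v
      rw [Submodule.mem_comap, Submodule.mem_inf, eig, eig, LinearMap.mem_ker, LinearMap.mem_ker]
      constructor
      · intro h1
        exact ⟨congrArg Subtype.val h1, v.2⟩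
      · rintro ⟨h1, -⟩
        exact Subtype.ext h1
    rw [e, LinearEquiv.finrank_eq (Submodule.comapSubtypeEquivOfLe
      (inf_le_right : eig s (-1) ⊓ K4U s x y 0 ≤ K4U s x y 0))]
    set E := eig s (-1) ⊓ K4U s x y 0 with hE
    have hinj : Function.Injective ((x 0).domRestrict E) := by
      rw [injective_iff_map_eq_zero]
      rintro ⟨w, hw1, hw2⟩ hw
      have hw3 : x 0 w = 0 := hw
      have hw4 : K4c s x y 0 w = 0 := by rw [K4b_memU.mp hw2, zero_smul]
      have hw5 : y 0 w = 0 := by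
        rw [← K4a_yc h 0, Module.End.mul_apply, hw4, map_zero]
      have hw6 : s w = -w := by
        rw [eig, SetLike.mem_coe, LinearMap.mem_ker, LinearMap.sub_apply, sub_eq_zero] at hw1
        rw [hw1, LinearMap.smul_apply, neg_one_smul, Module.End.one_apply]
      rw [K4c, LinearMap.sub_apply, LinearMap.add_apply, Module.End.mul_apply,
        Module.End.mul_apply, hw3, hw5, map_zero, map_zero, zero_add, sub_zero,
        LinearMap.smul_apply, LinearMap.sub_apply, hw6, Module.End.one_apply, sub_neg_eq_add,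
        ← two_smul K, smul_smul] at hw4
      have : w = 0 := by
        refine (smul_eq_zero.mp hw4).resolve_left ?_
        norm_num
      exact Subtype.ext this
    have hrange : LinearMap.range (x 0) = LinearMap.range ((x 0).domRestrict E) := by
      apply le_antisymm
      · rintro _ ⟨v, rfl⟩
        refine ⟨⟨((1 / 2 : K) • (1 - s)) (v - K4c s x y 0 v), ?_, ?_⟩, ?_⟩
        · rw [eig, SetLike.mem_coe, LinearMap.mem_ker, LinearMap.sub_apply, sub_eq_zero,
            LinearMap.smul_apply, LinearMap.smul_apply, neg_one_smul, Module.End.one_apply,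
            map_smul, ← smul_neg]
          congr 1
          rw [LinearMap.sub_apply, map_sub, ← Module.End.mul_apply s s, h.s_sq,
            Module.End.one_apply]
          abel
        · have hcom : K4c s x y 0 * ((1 / 2 : K) • (1 - s)) =
              ((1 / 2 : K) • (1 - s)) * K4c s x y 0 := by
            rw [mul_smul_comm, smul_mul_assoc, mul_sub, sub_mul, K4a_coms h 0, mul_one, one_mul]
          rw [SetLike.mem_coe, K4b_memU, ← Module.End.mul_apply, hcom, Module.End.mul_apply, map_sub,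
            ← Module.End.mul_apply (K4c s x y 0) (K4c s x y 0), K4a_idem h 0, sub_self, map_zero,
            zero_smul]
        · show x 0 (((1 / 2 : K) • (1 - s)) (v - K4c s x y 0 v)) = x 0 v
          rw [← Module.End.mul_apply, K4a_xQ h 0, map_sub, ← Module.End.mul_apply, K4a_xc h 0,
            LinearMap.zero_apply, sub_zero]
      · rintro _ ⟨v, rfl⟩
        exact ⟨v, rfl⟩
    rw [← LinearMap.finrank_range_of_inj hinj, hrange]
  have hk0 : k0 = (k - 1) + 1 := by omega
  have hr2 : finrank K (LinearMap.range (x 0)) = n.choose (k - 1) := by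
    rw [hr, a4 (k - 1) hk0]
  refine ⟨k, by omega, ?_, hk2, hk4 (k - 1) (by omega), hr2⟩
  by_contra hlt
  rw [Nat.choose_eq_zero_of_lt (by omega)] at hr2
  have : LinearMap.range (x 0) = ⊥ := Submodule.finrank_eq_zero.mp hr2
  exact hx (LinearMap.range_eq_bot.mp this)

end Pool.Agent.H49M
end

-- from Lib.H53Toric.Three
section

/-!
# Lie algebras containing a semisimple element of rank two
-/

set_option autoImplicit false
set_option linter.unusedSectionVars false
namespace Pool.Agent.H53Toric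
open Module
variable {K : Type*} [Field K] {V : Type*} [AddCommGroup V] [Module K V]

/-- An irreducible Lie algebra of skew operators. -/
structure Base (g : Submodule K (Module.End K V))
    (adj : Module.End K V →ₗ[K] Module.End K V) : Prop where
  lie : IsLie g
  irr : Irr g
  adj_mul : ∀ X Y, adj (X * Y) = adj Y * adj X
  adj_adj : ∀ X, adj (adj X) = X
  adj_tr : ∀ X, LinearMap.trace K V (adj X) = LinearMap.trace K V X
  skew : ∀ X ∈ g, adj X = -X

theorem Base.tr [CharZero K] {g : Submodule K (Module.End K V)}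
    {adj : Module.End K V →ₗ[K] Module.End K V} (h : Base g adj) :
    ∀ X ∈ g, LinearMap.trace K V X = 0 := by
  intro X hX
  have h1 := h.adj_tr X
  rw [h.skew X hX, map_neg] at h1
  have h2 : (2 : K) * LinearMap.trace K V X = 0 := by linear_combination -h1
  exact (mul_eq_zero.1 h2).resolve_left (by norm_num)

/-- The grading defined by `E 0 - E 2`. -/
theorem three_mem [CharZero K] {g : Submodule K (Module.End K V)} (hg : IsLie g)
    {E : Fin 3 → Module.End K V} (hsum : E 0 + E 1 + E 2 = 1)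
    (hmul : ∀ i j, E i * E j = if i = j then E i else 0) (hH : E 0 - E 2 ∈ g)
    {X : Module.End K V} (hX : X ∈ g) :
    (E 0 * X * E 2 ∈ g) ∧ (E 2 * X * E 0 ∈ g) ∧
    (E 0 * X * E 1 + E 1 * X * E 2 ∈ g) ∧ (E 1 * X * E 0 + E 2 * X * E 1 ∈ g) ∧
    (E 0 * X * E 0 + E 1 * X * E 1 + E 2 * X * E 2 ∈ g) := by
  have hmul' : ∀ i j (Z : Module.End K V), E i * (E j * Z) = if i = j then E i * Z else 0 := by
    intro i j Z
    rw [← mul_assoc, hmul]
    split_ifs <;> simp
  have a2 : (E 0 - E 2) * (E 0 * X * E 2) - (E 0 * X * E 2) * (E 0 - E 2) =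
      (2 : K) • (E 0 * X * E 2) := by
    simp [mul_sub, sub_mul, mul_assoc, hmul, hmul']
    module
  have a1 : (E 0 - E 2) * (E 0 * X * E 1 + E 1 * X * E 2) -
      (E 0 * X * E 1 + E 1 * X * E 2) * (E 0 - E 2) = E 0 * X * E 1 + E 1 * X * E 2 := by
    simp [mul_add, add_mul, mul_sub, sub_mul, mul_assoc, hmul, hmul']
  have b1 : (E 0 - E 2) * (E 1 * X * E 0 + E 2 * X * E 1) -
      (E 1 * X * E 0 + E 2 * X * E 1) * (E 0 - E 2) = -(E 1 * X * E 0 + E 2 * X * E 1) := by
    simp [mul_add, add_mul, mul_sub, sub_mul, mul_assoc, hmul, hmul']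
    abel
  have b2 : (E 0 - E 2) * (E 2 * X * E 0) - (E 2 * X * E 0) * (E 0 - E 2) =
      (-2 : K) • (E 2 * X * E 0) := by
    simp [mul_sub, sub_mul, mul_assoc, hmul, hmul']
    module
  have e0 : X = E 0 * X * E 2 + (E 0 * X * E 1 + E 1 * X * E 2) +
      (E 0 * X * E 0 + E 1 * X * E 1 + E 2 * X * E 2) +
      (E 1 * X * E 0 + E 2 * X * E 1) + E 2 * X * E 0 := by
    have : X = (E 0 + E 1 + E 2) * X * (E 0 + E 1 + E 2) := by rw [hsum, mul_one, one_mul]
    rw [this]
    simp [mul_add, add_mul, mul_assoc, hmul, hmul']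
    abel
  have c0 : (E 0 - E 2) * (E 0 * X * E 0 + E 1 * X * E 1 + E 2 * X * E 2) -
      (E 0 * X * E 0 + E 1 * X * E 1 + E 2 * X * E 2) * (E 0 - E 2) = 0 := by
    simp [mul_add, add_mul, mul_sub, sub_mul, mul_assoc, hmul, hmul']
  generalize E 0 * X * E 0 + E 1 * X * E 1 + E 2 * X * E 2 = x0 at *
  generalize E 0 * X * E 1 + E 1 * X * E 2 = x1 at *
  generalize E 1 * X * E 0 + E 2 * X * E 1 = y1 at *
  generalize E 0 * X * E 2 = x2 at *
  generalize E 2 * X * E 0 = y2 at *
  generalize E 0 - E 2 = D at *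
  have hbr : ∀ a b c d e : K, a • x2 + b • x1 + c • x0 + d • y1 + e • y2 ∈ g →
      (2 * a) • x2 + b • x1 + (0 : K) • x0 + (-d) • y1 + (-2 * e) • y2 ∈ g := by
    intro a b c d e hm
    have h1 := hg D hH _ hm
    have h2 : D * (a • x2 + b • x1 + c • x0 + d • y1 + e • y2) -
        (a • x2 + b • x1 + c • x0 + d • y1 + e • y2) * D =
        a • (D * x2 - x2 * D) + b • (D * x1 - x1 * D) + c • (D * x0 - x0 * D) +
        d • (D * y1 - y1 * D) + e • (D * y2 - y2 * D) := by
      simp only [mul_add, add_mul, mul_smul_comm, smul_mul_assoc, smul_sub]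
      abel
    rw [h2, a2, a1, b1, b2, c0] at h1
    convert h1 using 1
    module
  have d0 : (1 : K) • x2 + (1 : K) • x1 + (1 : K) • x0 + (1 : K) • y1 + (1 : K) • y2 ∈ g := by
    rw [e0] at hX
    simpa using hX
  have d1 := hbr _ _ _ _ _ d0
  have d2 := hbr _ _ _ _ _ d1
  have d3 := hbr _ _ _ _ _ d2
  have d4 := hbr _ _ _ _ _ d3
  have m2 : x2 ∈ g := by
    have := g.add_mem (g.smul_mem (1 / 24 : K) (g.sub_mem d4 d2))
      (g.smul_mem (1 / 12 : K) (g.sub_mem d3 d1))
    convert this using 1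
    module
  have n2 : y2 ∈ g := by
    have := g.sub_mem (g.smul_mem (1 / 24 : K) (g.sub_mem d4 d2))
      (g.smul_mem (1 / 12 : K) (g.sub_mem d3 d1))
    convert this using 1
    module
  have m1 : x1 ∈ g := by
    have := g.sub_mem (g.sub_mem (g.smul_mem (1 / 2 : K) (g.add_mem d1 d2))
      (g.smul_mem (3 : K) m2)) n2
    convert this using 1
    module
  have n1 : y1 ∈ g := by
    have := g.sub_mem (g.sub_mem (g.smul_mem (1 / 2 : K) (g.sub_mem d2 d1))
      (g.smul_mem (3 : K) n2)) m2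
    convert this using 1
    module
  have m0 : x0 ∈ g := by
    have := g.sub_mem (g.sub_mem (g.sub_mem (g.sub_mem d0 m2) m1) n1) n2
    convert this using 1
    module
  exact ⟨m2, n2, m1, n1, m0⟩

end Pool.Agent.H53Toric
end

-- from Lib.H53Toric.Assemble
section

/-!
# Zariski density in the group of symplectic similitudes
-/

set_option autoImplicit false
set_option linter.unusedSectionVars false
namespace Pool.Agent.H53Toric
open Module Matrix

variable {ι : Type*} [Fintype ι] [DecidableEq ι] {K : Type*} [Field K]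

/-- Matrices as operators. -/
noncomputable def phi : Matrix ι ι K ≃ₐ[K] Module.End K (ι → K) := Matrix.toLinAlgEquiv'

theorem phi_apply (X : Matrix ι ι K) (v : ι → K) : phi X v = X *ᵥ v :=
  Matrix.toLinAlgEquiv'_apply X v

/-- The adjoint on matrices. -/
noncomputable def adjL (J : Matrix ι ι K) : Matrix ι ι K →ₗ[K] Matrix ι ι K where
  toFun X := J⁻¹ * Xᵀ * J
  map_add' := by
    intro X Y
    rw [Matrix.transpose_add, mul_add, add_mul]
  map_smul' := by
    intro c X
    rw [Matrix.transpose_smul, mul_smul_comm, smul_mul_assoc]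
    rfl

theorem adjL_apply (J X : Matrix ι ι K) : adjL J X = J⁻¹ * Xᵀ * J := rfl

/-- The adjoint on operators. -/
noncomputable def adjE (J : Matrix ι ι K) :
    Module.End K (ι → K) →ₗ[K] Module.End K (ι → K) :=
  (phi (ι := ι) (K := K)).toLinearMap ∘ₗ adjL J ∘ₗ (phi (ι := ι) (K := K)).symm.toLinearMap

theorem adjE_phi (J X : Matrix ι ι K) : adjE J (phi X) = phi (J⁻¹ * Xᵀ * J) := by
  simp [adjE, adjL_apply]

section J

variable {J : Matrix ι ι K} (hJ : Jᵀ = -J) (hdet : IsUnit J.det)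

include hdet

theorem skew_iff (X : Matrix ι ι K) : adjE J (phi X) = -phi X ↔ Xᵀ * J + J * X = 0 := by
  rw [adjE_phi, ← map_neg, (phi (ι := ι) (K := K)).injective.eq_iff]
  constructor
  · intro h
    have h1 : J * (J⁻¹ * Xᵀ * J) = Xᵀ * J := by
      rw [← mul_assoc, ← mul_assoc, Matrix.mul_nonsing_inv _ hdet, one_mul]
    rw [← h1, h, mul_neg, neg_add_cancel]
  · intro h
    have h1 : Xᵀ * J = -(J * X) := eq_neg_of_add_eq_zero_left h
    rw [mul_assoc, h1, mul_neg, ← mul_assoc, Matrix.nonsing_inv_mul _ hdet, one_mul]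

theorem adjE_mul (X Y : Module.End K (ι → K)) : adjE J (X * Y) = adjE J Y * adjE J X := by
  obtain ⟨x, rfl⟩ := (phi (ι := ι) (K := K)).surjective X
  obtain ⟨y, rfl⟩ := (phi (ι := ι) (K := K)).surjective Y
  rw [← map_mul, adjE_phi, adjE_phi, adjE_phi, ← map_mul]
  congr 1
  rw [Matrix.transpose_mul]
  calc J⁻¹ * (yᵀ * xᵀ) * J = J⁻¹ * yᵀ * 1 * xᵀ * J := by noncomm_ring
    _ = J⁻¹ * yᵀ * (J * J⁻¹) * xᵀ * J := by rw [Matrix.mul_nonsing_inv _ hdet]
    _ = _ := by noncomm_ring

include hJ in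
theorem adjE_adjE (X : Module.End K (ι → K)) : adjE J (adjE J X) = X := by
  obtain ⟨x, rfl⟩ := (phi (ι := ι) (K := K)).surjective X
  rw [adjE_phi, adjE_phi]
  congr 1
  have h1 : (J⁻¹)ᵀ = -J⁻¹ := by
    rw [Matrix.transpose_nonsing_inv, hJ]
    apply Matrix.inv_eq_left_inv
    rw [neg_mul_neg, Matrix.nonsing_inv_mul _ hdet]
  rw [Matrix.transpose_mul, Matrix.transpose_mul, Matrix.transpose_transpose, hJ, h1]
  calc J⁻¹ * (-J * (x * -J⁻¹)) * J = (J⁻¹ * J) * x * (J⁻¹ * J) := by noncomm_ring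
    _ = x := by rw [Matrix.nonsing_inv_mul _ hdet]; simp

theorem adjE_tr (X : Module.End K (ι → K)) :
    LinearMap.trace K (ι → K) (adjE J X) = LinearMap.trace K (ι → K) X := by
  obtain ⟨x, rfl⟩ := (phi (ι := ι) (K := K)).surjective X
  rw [adjE_phi]
  have h1 : ∀ y : Matrix ι ι K, LinearMap.trace K (ι → K) (phi y) = y.trace := by
    intro y
    exact Matrix.trace_toLin'_eq y
  rw [h1, h1, Matrix.trace_mul_comm, ← mul_assoc, Matrix.mul_nonsing_inv _ hdet, one_mul,
    Matrix.trace_transpose]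

end J

/-- The symplectic form. -/
noncomputable def om (J : Matrix ι ι K) : (ι → K) →ₗ[K] (ι → K) →ₗ[K] K :=
  Matrix.toLinearMap₂' K J

theorem om_apply (J : Matrix ι ι K) (v w : ι → K) : om J v w = v ⬝ᵥ (J *ᵥ w) := by
  rw [om, Matrix.toLinearMap₂'_apply']

theorem om_mul (J X : Matrix ι ι K) (v w : ι → K) :
    om J (X *ᵥ v) (X *ᵥ w) = om (Xᵀ * J * X) v w := by
  rw [om_apply, om_apply]
  rw [Matrix.mulVec_mulVec, ← Matrix.mulVec_mulVec, ← Matrix.mulVec_mulVec,
    ← Matrix.mulVec_mulVec, Matrix.dotProduct_mulVec v, Matrix.vecMul_transpose]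

/-! ### Similitudes -/

theorem zar_sim {J : Matrix ι ι K} {k l : ι} (hkl : J k l ≠ 0) {S : Set (Matrix ι ι K)}
    (hsim : ∀ s ∈ S, ∃ c : K, sᵀ * J * s = c • J) {x : Matrix ι ι K} (hx : x ∈ zar S) :
    ∃ c : K, xᵀ * J * x = c • J := by
  let F : ι → ι → MvPolynomial (ι × ι) K := fun i j =>
    ∑ b, (∑ a, MvPolynomial.X (a, i) * MvPolynomial.C (J a b)) * MvPolynomial.X (b, j)
  have hF : ∀ (y : Matrix ι ι K) (i j : ι), ev y (F i j) = (yᵀ * J * y) i j := by
    intro y i j
    simp only [F, map_sum, map_mul, ev_X, ev_C, Matrix.mul_apply, Matrix.transpose_apply]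
  refine ⟨(xᵀ * J * x) k l / J k l, ?_⟩
  ext i j
  have h1 := hx (F i j * MvPolynomial.C (J k l) - F k l * MvPolynomial.C (J i j)) (by
    intro s hs
    obtain ⟨c, hc⟩ := hsim s hs
    rw [map_sub, map_mul, map_mul, ev_C, ev_C, hF, hF, hc, Matrix.smul_apply,
      Matrix.smul_apply, smul_eq_mul, smul_eq_mul]
    ring)
  rw [map_sub, map_mul, map_mul, ev_C, ev_C, hF, hF, sub_eq_zero] at h1
  rw [Matrix.smul_apply, smul_eq_mul, div_mul_eq_mul_div, ← h1, mul_div_cancel_right₀ _ hkl]

theorem line_sim [CharZero K] {J A : Matrix ι ι K} {c1 c2 : K}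
    (h1 : (1 + (1 : K) • A)ᵀ * J * (1 + (1 : K) • A) = c1 • J)
    (h2 : (1 + (2 : K) • A)ᵀ * J * (1 + (2 : K) • A) = c2 • J) :
    ∃ a b : K, Aᵀ * J * A = a • J ∧ Aᵀ * J + J * A = b • J := by
  have e : ∀ t : K, (1 + t • A)ᵀ * J * (1 + t • A) =
      J + t • (Aᵀ * J + J * A) + (t * t) • (Aᵀ * J * A) := by
    intro t
    rw [Matrix.transpose_add, Matrix.transpose_one, Matrix.transpose_smul]
    simp only [add_mul, mul_add, mul_one, one_mul, smul_mul_assoc, mul_smul_comm]
    module
  rw [e] at h1 h2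
  set P := Aᵀ * J + J * A with hP
  set Q := Aᵀ * J * A with hQ
  have hQ' : Q = ((c2 - 1) / 2 - (c1 - 1)) • J := by
    have : Q = (1 / 2 : K) • ((J + (2 : K) • P + (2 * 2 : K) • Q) - J) -
        ((J + (1 : K) • P + (1 * 1 : K) • Q) - J) := by module
    rw [this, h1, h2]
    module
  have hP' : P = (c1 - 1 - ((c2 - 1) / 2 - (c1 - 1))) • J := by
    have : P = ((J + (1 : K) • P + (1 * 1 : K) • Q) - J) - Q := by module
    rw [this, h1, hQ']
    module
  exact ⟨_, _, hQ', hP'⟩

theorem mul_left_cancel_J {J A : Matrix ι ι K} (hdet : IsUnit J.det) {c : K}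
    (h : c • (J * A) = 0) : c = 0 ∨ A = 0 := by
  rcases smul_eq_zero.1 h with h | h
  · exact Or.inl h
  · right
    have : J⁻¹ * (J * A) = 0 := by rw [h, mul_zero]
    rwa [← mul_assoc, Matrix.nonsing_inv_mul _ hdet, one_mul] at this

theorem nil_sim {J A : Matrix ι ι K} (hdet : IsUnit J.det) {a b : K}
    (h1 : Aᵀ * J * A = a • J) (h2 : Aᵀ * J + J * A = b • J) (hA : A * A = 0) (hA0 : A ≠ 0) :
    Aᵀ * J + J * A = 0 := by
  have h3 : a • (J * A) = 0 := by
    rw [← smul_mul_assoc, ← h1, mul_assoc, hA, mul_zero]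
  have ha : a = 0 := (mul_left_cancel_J hdet h3).resolve_right hA0
  have h4 : b • (J * A) = 0 := by
    rw [← smul_mul_assoc, ← h2, add_mul, h1, ha, zero_smul, mul_assoc, hA, mul_zero, add_zero]
  have hb : b = 0 := (mul_left_cancel_J hdet h4).resolve_right hA0
  rw [h2, hb, zero_smul]

theorem proj_sim {J A : Matrix ι ι K} (hdet : IsUnit J.det) {a b : K}
    (h1 : Aᵀ * J * A = a • J) (h2 : Aᵀ * J + J * A = b • J) (hA : A * A = A) (hA0 : A ≠ 0)
    (hA1 : A ≠ 1) : Aᵀ * J * A = 0 ∧ Aᵀ * J + J * A = J := by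
  have h3 : a • (J * (A - 1)) = 0 := by
    rw [mul_sub, mul_one, smul_sub, ← smul_mul_assoc, ← h1, mul_assoc, hA, sub_self]
  have ha : a = 0 := (mul_left_cancel_J hdet h3).resolve_right (sub_ne_zero.2 hA1)
  have h4 : (b - 1) • (J * A) = 0 := by
    have h5 : (Aᵀ * J + J * A) * A = J * A := by
      rw [add_mul, h1, ha, zero_smul, zero_add, mul_assoc, hA]
    rw [h2, smul_mul_assoc] at h5
    rw [sub_smul, one_smul, h5, sub_self]
  have hb : b - 1 = 0 := (mul_left_cancel_J hdet h4).resolve_right hA0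
  refine ⟨by rw [h1, ha, zero_smul], ?_⟩
  rw [h2, sub_eq_zero.1 hb, one_smul]

theorem proj_sim' [CharZero K] {J : Matrix ι ι K} (hdet : IsUnit J.det) {k l : ι}
    (hkl : J k l ≠ 0) {S : Set (Matrix ι ι K)}
    (hsim : ∀ s ∈ S, ∃ c : K, sᵀ * J * s = c • J) {h : Matrix ι ι K} (hh : h ∈ hodgeProj S)
    (h0 : h ≠ 0) (h1 : h ≠ 1) : hᵀ * J * h = 0 ∧ hᵀ * J + J * h = J := by
  obtain ⟨c1, hc1⟩ := zar_sim hkl hsim (hh.2 2 (by norm_num))
  obtain ⟨c2, hc2⟩ := zar_sim hkl hsim (hh.2 3 (by norm_num))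
  have e1 : (2 : K) - 1 = 1 := by norm_num
  have e2 : (3 : K) - 1 = 2 := by norm_num
  rw [e1] at hc1
  rw [e2] at hc2
  obtain ⟨a, b, ha, hb⟩ := line_sim hc1 hc2
  exact proj_sim hdet ha hb hh.1 h0 h1





/-! ### The main group theoretic statement -/

section main

variable [IsAlgClosed K] [CharZero K] {J : Matrix ι ι K} (hJ : Jᵀ = -J)
  (hdet : IsUnit J.det) {k l : ι} (hkl : J k l ≠ 0) {S : Set (Matrix ι ι K)}
  (hS1 : (1 : Matrix ι ι K) ∈ S) (hS : ∀ a ∈ S, ∀ b ∈ S, a * b ∈ S)
  (hsim : ∀ s ∈ S, ∃ c : K, sᵀ * J * s = c • J)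
  (hodge : ∀ W : Submodule K (ι → K), (∀ h ∈ hodgeProj S, ∀ w ∈ W, h *ᵥ w ∈ W) → W = ⊥ ∨ W = ⊤)

include hS in
theorem hodgeProj_zlie {h : Matrix ι ι K} (hh : h ∈ hodgeProj S) : h ∈ zlie S := by
  refine mem_zlie_of_infinite hS (T := {t : K | t ≠ -1}) ?_ ?_
  · exact (Set.finite_singleton (-1 : K)).infinite_compl
  · intro t ht
    have := hh.2 (t + 1) (by
      intro h0
      exact ht (eq_neg_of_add_eq_zero_left h0))
    rwa [add_sub_cancel_right] at this




/-! ### Transvections -/

omit [IsAlgClosed K] [CharZero K] in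
theorem phi_trv (J : Matrix ι ι K) (d : ι → K) :
    phi (Matrix.vecMulVec d (J *ᵥ d)) = trv (om J) d := by
  refine LinearMap.ext fun x => ?_
  rw [phi_apply, trv_apply, om_apply, Matrix.vecMulVec_mulVec, dotProduct_comm]
  exact op_smul_eq_smul _ _

omit [IsAlgClosed K] [CharZero K] in
include hJ in
theorem trv_skew (d : ι → K) : (Matrix.vecMulVec d (J *ᵥ d))ᵀ * J +
    J * Matrix.vecMulVec d (J *ᵥ d) = 0 := by
  have h1 : Matrix.vecMul d J = -(J *ᵥ d) := by
    rw [← Matrix.mulVec_transpose, hJ, Matrix.neg_mulVec]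
  rw [Matrix.transpose_vecMulVec, Matrix.vecMulVec_mul, Matrix.mul_vecMulVec, h1]
  ext i j
  simp [Matrix.vecMulVec_apply]

omit [IsAlgClosed K] in
include hJ in
theorem om_alt (v : ι → K) : om J v v = 0 := by
  have h1 : om J v v = -om J v v := by
    nth_rw 1 [om_apply]
    rw [Matrix.dotProduct_mulVec, dotProduct_comm, ← Matrix.mulVec_transpose, hJ,
      Matrix.neg_mulVec, dotProduct_neg, ← om_apply]
  have h2 : (2 : K) * om J v v = 0 := by linear_combination h1
  exact (mul_eq_zero.1 h2).resolve_left (by norm_num)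

omit [IsAlgClosed K] [CharZero K] in
include hdet in
theorem om_nd (v : ι → K) (h : ∀ w, om J w v = 0) : v = 0 := by
  have h1 : J *ᵥ v = 0 := by
    ext i
    have := h (Pi.single i 1)
    rw [om_apply, single_one_dotProduct] at this
    exact this
  have : J⁻¹ *ᵥ (J *ᵥ v) = 0 := by rw [h1, Matrix.mulVec_zero]
  rwa [Matrix.mulVec_mulVec, Matrix.nonsing_inv_mul _ hdet, Matrix.one_mulVec] at this

omit [IsAlgClosed K] in
include hS1 hS in
theorem pow_line {N : Matrix ι ι K} (hN2 : N * N = 0) (hu : 1 + N ∈ zar S) (n : ℕ) :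
    1 + (n : K) • N ∈ zar S := by
  induction n with
  | zero =>
    have := subset_zar S hS1
    simpa using this
  | succ n ih =>
    have := zar_mul hS ih hu
    have e : (1 + (n : K) • N) * (1 + N) = 1 + ((n + 1 : ℕ) : K) • N := by
      rw [mul_add, add_mul, add_mul, smul_mul_assoc, smul_mul_assoc, hN2]
      push_cast
      simp only [one_mul, mul_one, smul_zero, add_zero]
      module
    rwa [e] at this


end main

end Pool.Agent.H53Toric
end

-- from Lib.H53Toric.Monodromy
section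

/-!
# Monodromy groups of representations of a group
-/

set_option autoImplicit false
set_option linter.unusedSectionVars false
namespace Pool.Agent.H53Toric
open Module Matrix

variable {ι : Type*} [Fintype ι] [DecidableEq ι] {L : Type*} [Field L] {K : Type*} [Field K]
  [Algebra L K] {G : Type*} [Group G]

theorem img_one (ρ : G →* Matrix.GeneralLinearGroup ι L) (H : Subgroup G) :
    (1 : Matrix ι ι K) ∈ img K ρ H := by
  refine ⟨1, H.one_mem, ?_⟩
  rw [map_one]
  simp

theorem img_mul (ρ : G →* Matrix.GeneralLinearGroup ι L) (H : Subgroup G) :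
    ∀ a ∈ img K ρ H, ∀ b ∈ img K ρ H, a * b ∈ img K ρ H := by
  rintro _ ⟨σ, hσ, rfl⟩ _ ⟨τ, hτ, rfl⟩
  refine ⟨σ * τ, H.mul_mem hσ hτ, ?_⟩
  rw [map_mul, Units.val_mul, Matrix.map_mul]

theorem img_pow (ρ : G →* Matrix.GeneralLinearGroup ι L) (σ : G) (n : ℕ) :
    ((ρ (σ ^ n)).1.map (algebraMap L K)) = ((ρ σ).1.map (algebraMap L K)) ^ n := by
  rw [map_pow, Units.val_pow_eq_pow_val]
  exact map_pow ((algebraMap L K).mapMatrix) (ρ σ).1 n

theorem img_inv (ρ : G →* Matrix.GeneralLinearGroup ι L) (σ : G) :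
    ((ρ σ).1.map (algebraMap L K)) * ((ρ σ⁻¹).1.map (algebraMap L K)) = 1 := by
  rw [← Matrix.map_mul, ← Units.val_mul, ← map_mul, mul_inv_cancel, map_one]
  simp


/-- The closure is covered by cosets of the closure of a finite index subgroup. -/
theorem zar_cover (ρ : G →* Matrix.GeneralLinearGroup ι L) (H : Subgroup G) [H.FiniteIndex]
    {x : Matrix ι ι K} (hx : x ∈ zar (img K ρ ⊤)) :
    ∃ q : G ⧸ H, ((ρ q.out⁻¹).1.map (algebraMap L K)) * x ∈ zar (img K ρ H) := by
  classical
  have : Fintype (G ⧸ H) := Fintype.ofFinite _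
  by_contra hcon
  push Not at hcon
  have h1 : ∀ q : G ⧸ H, ∃ f : MvPolynomial (ι × ι) K, (∀ s ∈ img K ρ H, ev s f = 0) ∧
      ev (((ρ q.out⁻¹).1.map (algebraMap L K)) * x) f ≠ 0 := by
    intro q
    have := hcon q
    simp only [zar, Set.mem_ofPred_eq, not_forall] at this
    obtain ⟨f, hf, hf'⟩ := this
    exact ⟨f, hf, hf'⟩
  choose f hf hf' using h1
  have h2 := hx (∏ q : G ⧸ H, subL ((ρ q.out⁻¹).1.map (algebraMap L K)) (f q)) (by
    rintro _ ⟨τ, -, rfl⟩
    rw [map_prod]
    apply Finset.prod_eq_zero (Finset.mem_univ (τ : G ⧸ H))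
    rw [ev_subL]
    apply hf
    refine ⟨(τ : G ⧸ H).out⁻¹ * τ, ?_, ?_⟩
    · rw [← QuotientGroup.eq, QuotientGroup.out_eq']
    · rw [map_mul, Units.val_mul, Matrix.map_mul])
  rw [map_prod, Finset.prod_eq_zero_iff] at h2
  obtain ⟨q, -, hq⟩ := h2
  rw [ev_subL] at hq
  exact hf' q hq

/-- Lines through `1` with infinitely many points in the closure live in the closure of every
subgroup of finite index. -/
theorem line_finite [CharZero K] (ρ : G →* Matrix.GeneralLinearGroup ι L) (H : Subgroup G)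
    [H.FiniteIndex] {h : Matrix ι ι K} {T : Set K} (hT : T.Infinite)
    (hh : ∀ t ∈ T, 1 + t • h ∈ zar (img K ρ ⊤)) (t : K) : 1 + t • h ∈ zar (img K ρ H) := by
  obtain ⟨q, hq⟩ : ∃ q : G ⧸ H, {t : K | ((ρ q.out⁻¹).1.map (algebraMap L K)) +
      t • (((ρ q.out⁻¹).1.map (algebraMap L K)) * h) ∈ zar (img K ρ H)}.Infinite := by
    by_contra hcon
    have hcon : ∀ q : G ⧸ H, {t : K | ((ρ q.out⁻¹).1.map (algebraMap L K)) +
        t • (((ρ q.out⁻¹).1.map (algebraMap L K)) * h) ∈ zar (img K ρ H)}.Finite := by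
      intro q
      by_contra h1
      exact hcon ⟨q, h1⟩
    have hfin : (⋃ q : G ⧸ H, {t : K | ((ρ q.out⁻¹).1.map (algebraMap L K)) +
      t • (((ρ q.out⁻¹).1.map (algebraMap L K)) * h) ∈ zar (img K ρ H)}).Finite :=
      Set.finite_iUnion hcon
    apply hT
    apply hfin.subset
    intro t ht
    obtain ⟨q, hq⟩ := zar_cover ρ H (hh t ht)
    rw [Set.mem_iUnion]
    refine ⟨q, ?_⟩
    rw [mul_add, mul_one, mul_smul_comm] at hq
    exact hq
  have hline := line_subset_zar hq (fun t ht => ht)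
  set g := (ρ q.out).1.map (algebraMap L K) with hg
  set g' := (ρ q.out⁻¹).1.map (algebraMap L K) with hg'
  have hgg' : g * g' = 1 := img_inv ρ q.out
  have hg'0 : g' ∈ zar (img K ρ H) := by
    have := hline 0
    rwa [zero_smul, add_zero] at this
  obtain ⟨m, hm0, -, hm⟩ := Subgroup.exists_pow_mem_of_index_ne_zero
    (H := H) (Subgroup.FiniteIndex.index_ne_zero) q.out
  have hgm : g ^ m ∈ zar (img K ρ H) :=
    subset_zar _ ⟨q.out ^ m, hm, (img_pow ρ q.out m).symm⟩
  have hpow : ∀ n : ℕ, g' ^ n ∈ zar (img K ρ H) := by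
    intro n
    induction n with
    | zero => rw [pow_zero]; exact subset_zar _ (img_one ρ H)
    | succ n ih => rw [pow_succ]; exact zar_mul (img_mul ρ H) ih hg'0
  have hcancel : ∀ n : ℕ, g ^ (n + 1) * g' ^ n = g := by
    intro n
    induction n with
    | zero => simp
    | succ n ih =>
      calc g ^ (n + 1 + 1) * g' ^ (n + 1) = g ^ (n + 1) * (g * g') * g' ^ n := by
            rw [pow_succ g (n + 1), pow_succ' g' n]; noncomm_ring
        _ = g := by rw [hgg', mul_one, ih]
  have hgz : g ∈ zar (img K ρ H) := by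
    obtain ⟨n, rfl⟩ : ∃ n, m = n + 1 := ⟨m - 1, by omega⟩
    rw [← hcancel n]
    exact zar_mul (img_mul ρ H) hgm (hpow n)
  have h1 := zar_mul (img_mul ρ H) hgz (hline t)
  have e : g * (g' + t • (g' * h)) = 1 + t • h := by
    rw [mul_add, mul_smul_comm, ← mul_assoc, hgg', one_mul]
  rwa [e] at h1

/-- One parameter groups of projectors live in the closure of every subgroup of finite
index. -/
theorem hodgeProj_finite [CharZero K] (ρ : G →* Matrix.GeneralLinearGroup ι L) (H : Subgroup G)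
    [H.FiniteIndex] {h : Matrix ι ι K} (hh : h ∈ hodgeProj (img K ρ ⊤)) :
    h ∈ hodgeProj (img K ρ H) := by
  refine ⟨hh.1, fun t _ => ?_⟩
  refine line_finite ρ H (T := {t : K | t ≠ -1})
    ((Set.finite_singleton (-1 : K)).infinite_compl) ?_ (t - 1)
  intro t ht
  have h1 := hh.2 (t + 1) (by
    intro h0
    exact ht (eq_neg_of_add_eq_zero_left h0))
  rwa [add_sub_cancel_right] at h1

/-- Stability of a subspace passes to the Zariski closure. -/
theorem zar_stable {S : Set (Matrix ι ι K)} {W : Submodule K (ι → K)}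
    (hW : ∀ s ∈ S, ∀ w ∈ W, s *ᵥ w ∈ W) {x : Matrix ι ι K} (hx : x ∈ zar S) :
    ∀ w ∈ W, x *ᵥ w ∈ W := by
  intro w hw
  by_contra hcon
  obtain ⟨f, hf, hfW⟩ := Submodule.exists_le_ker_of_notMem hcon
  let F : MvPolynomial (ι × ι) K :=
    ∑ i, ∑ j, MvPolynomial.X (i, j) * MvPolynomial.C (w j * f (Pi.single i 1))
  have hF : ∀ y : Matrix ι ι K, ev y F = f (y *ᵥ w) := by
    intro y
    have h1 : y *ᵥ w = ∑ i, (∑ j, y i j * w j) • (Pi.single i 1 : ι → K) := by
      ext k
      simp [Matrix.mulVec, dotProduct, Pi.single_apply]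
    rw [h1, map_sum]
    simp only [F, map_sum, map_mul, ev_X, ev_C, map_smul, smul_eq_mul, Finset.sum_mul, mul_assoc]
  apply hf
  rw [← hF]
  apply hx
  intro s hs
  rw [hF]
  exact hfW (hW s hs w hw)


end Pool.Agent.H53Toric
end

-- from Lib.H53Toric.Assemble2
section

/-!
# Zariski density from an independent eigenvalue
-/

set_option autoImplicit false
set_option linter.unusedSectionVars false
namespace Pool.Agent.H53Toric
open Module Matrix

variable {ι : Type*} [Fintype ι] [DecidableEq ι] {K : Type*} [Field K]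

/-- The Lie algebra is stable under conjugation. -/
theorem zlie_conj [CharZero K] {S : Set (Matrix ι ι K)} (hS : ∀ a ∈ S, ∀ b ∈ S, a * b ∈ S)
    {s s' X : Matrix ι ι K} (hs : s ∈ S) (hs' : s' ∈ S) (hss : s * s' = 1) (hX : X ∈ zlie S) :
    s * X * s' ∈ zlie S := by
  intro f hf x hx
  have h1 := hX (subR s' f) (by
    intro y hy
    rw [ev_subR]
    exact hf _ (hS _ hy _ hs')) (x * s) (hS _ hx _ hs)
  rw [← eval_derivative_lin] at h1 ⊢
  have h2 : lin (x * s) (x * s * X) (subR s' f) = lin x (x * (s * X * s')) f := by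
    apply Polynomial.funext
    intro t
    rw [eval_lin, eval_lin, ev_subR]
    congr 1
    rw [add_mul, smul_mul_assoc, mul_assoc, hss, mul_one]
    congr 2
    noncomm_ring
  rw [← h2]
  exact h1

/-- The skew operators. -/
noncomputable def skewE (J : Matrix ι ι K) : Submodule K (Module.End K (ι → K)) :=
  LinearMap.ker (adjE J + LinearMap.id)

theorem mem_skewE {J : Matrix ι ι K} {X : Module.End K (ι → K)} :
    X ∈ skewE J ↔ adjE J X = -X := by
  rw [skewE, LinearMap.mem_ker, LinearMap.add_apply, LinearMap.id_apply,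
    ← eq_neg_iff_add_eq_zero]

/-- The skew part of the Lie algebra. -/
noncomputable def lieE (J : Matrix ι ι K) (S : Set (Matrix ι ι K)) :
    Submodule K (Module.End K (ι → K)) :=
  (zlie S).map (phi (ι := ι) (K := K)).toLinearMap ⊓ skewE J

theorem mem_lieE {J : Matrix ι ι K} {S : Set (Matrix ι ι K)} {X : Matrix ι ι K} :
    phi X ∈ lieE J S ↔ X ∈ zlie S ∧ adjE J (phi X) = -phi X := by
  rw [lieE, Submodule.mem_inf, mem_skewE]
  constructor
  · rintro ⟨⟨Y, hY, hYX⟩, h2⟩
    have hYX' : Y = X := (phi (ι := ι) (K := K)).injective hYX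
    exact ⟨hYX' ▸ hY, h2⟩
  · rintro ⟨h1, h2⟩
    exact ⟨⟨X, h1, rfl⟩, h2⟩

theorem br_neg {R : Type*} [Ring R] (a b : R) :
    (-b) * (-a) - (-a) * (-b) = -(a * b - b * a) := by
  rw [neg_mul_neg, neg_mul_neg, neg_sub]

theorem lieE_lie {J : Matrix ι ι K} (hdet : IsUnit J.det) (S : Set (Matrix ι ι K)) :
    IsLie (lieE J S) := by
  intro X hX Y hY
  obtain ⟨x, rfl⟩ := (phi (ι := ι) (K := K)).surjective X
  obtain ⟨y, rfl⟩ := (phi (ι := ι) (K := K)).surjective Y
  have h1 := mem_lieE.1 hX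
  have h2 := mem_lieE.1 hY
  rw [← map_mul, ← map_mul, ← map_sub, mem_lieE]
  refine ⟨zlie_comm h1.1 h2.1, ?_⟩
  have e : phi (x * y - y * x) = phi x * phi y - phi y * phi x := by
    rw [map_sub, map_mul (phi (ι := ι) (K := K)), map_mul (phi (ι := ι) (K := K))]
  rw [e, map_sub, adjE_mul hdet, adjE_mul hdet, h1.2, h2.2]
  exact br_neg _ _

theorem lieE_conj [CharZero K] {J : Matrix ι ι K} (hdet : IsUnit J.det)
    {S : Set (Matrix ι ι K)} (hS : ∀ a ∈ S, ∀ b ∈ S, a * b ∈ S)
    {s s' : Matrix ι ι K} (hs : s ∈ S) (hs' : s' ∈ S) (hss : s * s' = 1) {c : K}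
    (hc : sᵀ * J * s = c • J) {X : Module.End K (ι → K)} (hX : X ∈ lieE J S) :
    phi s * X * phi s' ∈ lieE J S := by
  obtain ⟨x, rfl⟩ := (phi (ι := ι) (K := K)).surjective X
  have h1 := mem_lieE.1 hX
  rw [← map_mul, ← map_mul, mem_lieE]
  refine ⟨zlie_conj hS hs hs' hss h1.1, ?_⟩
  rw [skew_iff hdet] at h1 ⊢
  have hss' : s'ᵀ * sᵀ = 1 := by rw [← Matrix.transpose_mul, hss, Matrix.transpose_one]
  have h2 : sᵀ * J = c • (J * s') := by
    calc sᵀ * J = sᵀ * J * (s * s') := by rw [hss, mul_one]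
      _ = (sᵀ * J * s) * s' := by noncomm_ring
      _ = _ := by rw [hc, smul_mul_assoc]
  have h3 : J * s = c • (s'ᵀ * J) := by
    calc J * s = (s'ᵀ * sᵀ) * J * s := by rw [hss', one_mul]
      _ = s'ᵀ * (sᵀ * J * s) := by noncomm_ring
      _ = _ := by rw [hc, mul_smul_comm]
  rw [Matrix.transpose_mul, Matrix.transpose_mul]
  calc s'ᵀ * (xᵀ * sᵀ) * J + J * (s * x * s') =
      s'ᵀ * xᵀ * (sᵀ * J) + (J * s) * x * s' := by noncomm_ring
    _ = c • (s'ᵀ * (xᵀ * J + J * x) * s') := by
        rw [h2, h3]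
        simp only [mul_smul_comm, smul_mul_assoc, ← smul_add]
        congr 1
        noncomm_ring
    _ = 0 := by rw [h1.2]; simp


end Pool.Agent.H53Toric
end

-- from Lib.H53Toric.Indep2
section

/-!
# The monodromy group of a representation with an independent eigenvalue
-/

set_option autoImplicit false
set_option linter.unusedSectionVars false
namespace Pool.Agent.H53Toric
open Module Matrix

/-- A representation as matrices over an extension field. -/
def rep {ι : Type*} [Fintype ι] [DecidableEq ι] {L : Type*} [Field L] (K : Type*) [Field K]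
    [Algebra L K] {G : Type*} [Group G] (ρ : G →* Matrix.GeneralLinearGroup ι L)
    (H : Subgroup G) : H →* Matrix ι ι K where
  toFun x := (ρ x.1).1.map (algebraMap L K)
  map_one' := by
    rw [OneMemClass.coe_one, map_one]
    simp
  map_mul' := by
    intro x y
    rw [Subgroup.coe_mul, map_mul, Units.val_mul, Matrix.map_mul]

theorem range_rep {ι : Type*} [Fintype ι] [DecidableEq ι] {L : Type*} [Field L] (K : Type*)
    [Field K] [Algebra L K] {G : Type*} [Group G] (ρ : G →* Matrix.GeneralLinearGroup ι L)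
    (H : Subgroup G) : Set.range (rep K ρ H) = img K ρ H := by
  ext m
  constructor
  · rintro ⟨x, rfl⟩
    exact ⟨x.1, x.2, rfl⟩
  · rintro ⟨σ, hσ, rfl⟩
    exact ⟨⟨σ, hσ⟩, rfl⟩

theorem gram_basic {ι : Type*} [Fintype ι] [DecidableEq ι] {ψ : Matrix ι ι ℚ}
    (hψ : ψᵀ = -ψ) (hψ0 : ψ.det ≠ 0) (K : Type*) [Field K] [CharZero K] :
    (ψ.map (algebraMap ℚ K))ᵀ = -ψ.map (algebraMap ℚ K) ∧
      IsUnit (ψ.map (algebraMap ℚ K)).det := by
  constructor
  · rw [← Matrix.transpose_map, hψ]
    ext i j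
    simp
  · have h1 : (ψ.map (algebraMap ℚ K)).det = algebraMap ℚ K ψ.det :=
      (RingHom.map_det (algebraMap ℚ K) ψ).symm
    rw [h1, isUnit_iff_ne_zero]
    exact (map_ne_zero _).2 hψ0

theorem sim_map {ι : Type*} [Fintype ι] [DecidableEq ι] {ψ : Matrix ι ι ℚ} {L : Type*} [Field L]
    [CharZero L] {K : Type*} [Field K] [CharZero K] [Algebra L K] {x : Matrix ι ι L} {c : L}
    (hc : xᵀ * ψ.map (algebraMap ℚ L) * x = c • ψ.map (algebraMap ℚ L)) :
    (x.map (algebraMap L K))ᵀ * ψ.map (algebraMap ℚ K) * x.map (algebraMap L K) =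
      algebraMap L K c • ψ.map (algebraMap ℚ K) := by
  have h1 := congrArg (fun m : Matrix ι ι L => m.map (algebraMap L K)) hc
  have h2 : (ψ.map (algebraMap ℚ L)).map (algebraMap L K) = ψ.map (algebraMap ℚ K) := by
    ext i j
    simp
  have h3 : (c • ψ.map (algebraMap ℚ L)).map (algebraMap L K) =
      algebraMap L K c • ψ.map (algebraMap ℚ K) := by
    rw [← h2]
    ext i j
    simp
  simp only [Matrix.map_mul, Matrix.transpose_map] at h1
  rw [h3, h2] at h1
  exact h1


end Pool.Agent.H53Toric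
end

-- from Lib.H76RM.Prime
section

/-!
# Subgroups of finite index with irreducible Zariski closure
-/

set_option autoImplicit false
set_option linter.unusedSectionVars false
namespace Pool.Agent.H76RM
open Module Matrix Pool.Agent.H53Toric MvPolynomial

variable {ι : Type*} [Fintype ι] [DecidableEq ι] {L : Type*} [Field L] {K : Type*} [Field K]
  [Algebra L K] {G : Type*} [Group G]

/-- vanishing ideal -/
noncomputable def van (S : Set (Matrix ι ι K)) : Ideal (MvPolynomial (ι × ι) K) where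
  carrier := {f | ∀ s ∈ S, ev s f = 0}
  add_mem' := by
    intro f g hf hg s hs
    rw [map_add, hf s hs, hg s hs, add_zero]
  zero_mem' := by
    intro s _
    rw [map_zero]
  smul_mem' := by
    intro c f hf s hs
    rw [smul_eq_mul, map_mul, hf s hs, mul_zero]

theorem mem_van {S : Set (Matrix ι ι K)} {f : MvPolynomial (ι × ι) K} :
    f ∈ van S ↔ ∀ s ∈ S, ev s f = 0 := Iff.rfl

theorem ev_ext [Infinite K] {f g : MvPolynomial (ι × ι) K} (h : ∀ x, ev x f = ev x g) :
    f = g := by
  apply MvPolynomial.funext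
  intro y
  have := h (Matrix.of fun i j => y (i, j))
  simp only [ev, MvPolynomial.aeval_eq_eval] at this
  exact this

theorem subL_subL [Infinite K] (a b : Matrix ι ι K) (f : MvPolynomial (ι × ι) K) :
    subL b (subL a f) = subL (a * b) f := by
  apply ev_ext
  intro x
  rw [ev_subL, ev_subL, ev_subL, mul_assoc]

theorem subL_one [Infinite K] (f : MvPolynomial (ι × ι) K) : subL 1 f = f := by
  apply ev_ext
  intro x
  rw [ev_subL, one_mul]

/-- translation of ideals -/
@[instance_reducible]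
noncomputable def act (K' : Type*) [Field K'] [Algebra L K'] [Infinite K']
    (ρ : G →* Matrix.GeneralLinearGroup ι L) :
    MulAction G (Ideal (MvPolynomial (ι × ι) K')) where
  smul s P := Ideal.comap (subL ((ρ s).1.map (algebraMap L K'))).toRingHom P
  one_smul := by
    intro P
    ext f
    change subL ((ρ 1).1.map (algebraMap L K')) f ∈ P ↔ f ∈ P
    have : (ρ (1 : G)).1.map (algebraMap L K') = 1 := by rw [map_one]; simp
    rw [this, subL_one]
  mul_smul := by
    intro s t P
    ext f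
    change subL ((ρ (s * t)).1.map (algebraMap L K')) f ∈ P ↔
      subL ((ρ t).1.map (algebraMap L K')) (subL ((ρ s).1.map (algebraMap L K')) f) ∈ P
    rw [subL_subL, map_mul, Units.val_mul, Matrix.map_mul]

theorem van_anti (ρ : G →* Matrix.GeneralLinearGroup ι L) {H H' : Subgroup G} (h : H' ≤ H) :
    van (img K ρ H) ≤ van (img K ρ H') := by
  rintro f hf _ ⟨σ, hσ, rfl⟩
  exact hf _ ⟨σ, h hσ, rfl⟩

/-- Every subgroup of finite index contains one whose image has an irreducible Zariski closure. -/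
theorem exists_prime [Infinite K] (ρ : G →* Matrix.GeneralLinearGroup ι L) (H : Subgroup G)
    (hH : H.FiniteIndex) : ∃ H₀ ≤ H, H₀.FiniteIndex ∧ (van (img K ρ H₀)).IsPrime := by
  classical
  -- minimal closure
  obtain ⟨I, ⟨H₀, ⟨hle, hfin⟩, rfl⟩, hmax⟩ := set_has_maximal_iff_noetherian.2
    (inferInstance : IsNoetherian (MvPolynomial (ι × ι) K) (MvPolynomial (ι × ι) K))
    ((fun H' => van (img K ρ H')) '' {H' | H' ≤ H ∧ H'.FiniteIndex})
    ⟨_, H, ⟨le_rfl, hH⟩, rfl⟩
  refine ⟨H₀, hle, hfin, ?_⟩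
  have hmin : ∀ H' ≤ H₀, H'.FiniteIndex → van (img K ρ H') = van (img K ρ H₀) := by
    intro H' h1 h2
    by_contra hne
    exact hmax _ ⟨H', ⟨h1.trans hle, h2⟩, rfl⟩
      (lt_of_le_of_ne (van_anti ρ h1) (Ne.symm hne))
  -- the component of `1`
  set m : Ideal (MvPolynomial (ι × ι) K) := RingHom.ker (ev (1 : Matrix ι ι K)).toRingHom with hm
  have hmp : m.IsPrime := RingHom.ker_isPrime _
  have hIm : van (img K ρ H₀) ≤ m := by
    intro f hf
    exact hf 1 (img_one ρ H₀)
  obtain ⟨P, hP, hPm⟩ := Ideal.exists_minimalPrimes_le hIm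
  letI := act K ρ
  have hsmul : ∀ (s : G) (Q : Ideal (MvPolynomial (ι × ι) K)) (f : MvPolynomial (ι × ι) K),
      f ∈ s • Q ↔ subL ((ρ s).1.map (algebraMap L K)) f ∈ Q := fun _ _ _ => Iff.rfl
  have hI : ∀ s ∈ H₀, s • van (img K ρ H₀) = van (img K ρ H₀) := by
    intro s hs
    ext f
    rw [hsmul]
    constructor
    · intro h1 x hx
      obtain ⟨τ, hτ, rfl⟩ := hx
      have := h1 _ ⟨s⁻¹ * τ, H₀.mul_mem (H₀.inv_mem hs) hτ, rfl⟩
      rw [ev_subL] at this
      rw [← this]
      congr 2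
      rw [← Matrix.map_mul, ← Units.val_mul, ← map_mul, mul_inv_cancel_left]
    · intro h1 x hx
      rw [ev_subL]
      exact h1 _ (img_mul ρ H₀ _ ⟨s, hs, rfl⟩ _ hx)
  have hmono : ∀ (s : G) {Q Q' : Ideal (MvPolynomial (ι × ι) K)}, Q ≤ Q' → s • Q ≤ s • Q' := by
    intro s Q Q' h f hf
    exact h hf
  have hprime : ∀ (s : G) {Q : Ideal (MvPolynomial (ι × ι) K)}, Q.IsPrime → (s • Q).IsPrime := by
    intro s Q hQ
    exact Ideal.comap_isPrime _ _
  have hmem : ∀ s ∈ H₀, s • P ∈ (van (img K ρ H₀)).minimalPrimes := by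
    intro s hs
    refine ⟨⟨hprime s hP.1.1, ?_⟩, ?_⟩
    · have := hmono s hP.1.2
      rwa [hI s hs] at this
    · rintro Q ⟨hQ1, hQ2⟩ hQP
      have h1 : s⁻¹ • Q ≤ P := by
        have := hmono s⁻¹ hQP
        rwa [inv_smul_smul] at this
      have h2 : van (img K ρ H₀) ≤ s⁻¹ • Q := by
        have := hmono s⁻¹ hQ2
        rwa [hI _ (H₀.inv_mem hs)] at this
      have h3 := hP.2 ⟨hprime s⁻¹ hQ1, h2⟩ h1
      have := hmono s h3
      rwa [smul_inv_smul] at this
  -- its stabiliser
  have hfinorb : (MulAction.orbit H₀ P).Finite := by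
    apply ((van (img K ρ H₀)).finite_minimalPrimes_of_isNoetherianRing).subset
    rintro _ ⟨s, rfl⟩
    exact hmem s.1 s.2
  set T : Subgroup G := H₀ ⊓ MulAction.stabilizer G P with hT
  have hTfin : T.FiniteIndex := by
    rw [Subgroup.finiteIndex_iff]
    have h1 : T ≤ H₀ := inf_le_left
    rw [← Subgroup.relIndex_mul_index h1]
    apply mul_ne_zero _ hfin.index_ne_zero
    have h2 : T.subgroupOf H₀ = MulAction.stabilizer H₀ P := by
      ext x
      rw [Subgroup.mem_subgroupOf, hT, Subgroup.mem_inf, MulAction.mem_stabilizer_iff,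
        MulAction.mem_stabilizer_iff]
      exact ⟨fun h => h.2, fun h => ⟨x.2, h⟩⟩
    rw [Subgroup.relIndex, h2, MulAction.index_stabilizer]
    exact ((Set.ncard_pos hfinorb).2 (MulAction.nonempty_orbit P)).ne'
  have h3 : P ≤ van (img K ρ T) := by
    rintro f hf _ ⟨s, hs, rfl⟩
    have h4 : s • P = P := hs.2
    rw [← h4, hsmul] at hf
    have h5 : ev (1 : Matrix ι ι K) (subL ((ρ s).1.map (algebraMap L K)) f) = 0 := hPm hf
    rwa [ev_subL, mul_one] at h5
  rw [hmin T inf_le_left hTfin] at h3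
  have h6 : van (img K ρ H₀) = P := le_antisymm hP.1.2 h3
  rw [h6]
  exact hP.1.1

end Pool.Agent.H76RM
end

-- from Lib.H76RM.Alg
section

/-!
# Commutants, matrix coefficients
-/

set_option autoImplicit false
set_option linter.unusedSectionVars false
namespace Pool.Agent.H76RM
open Module Matrix Pool.Agent.H53Toric MvPolynomial

variable {ι : Type*} [Fintype ι] [DecidableEq ι] {K : Type*} [Field K]

/-- the polynomial `(x d - d x)_{ij}` -/
noncomputable def commP (d : Matrix ι ι K) (i j : ι) : MvPolynomial (ι × ι) K :=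
  ∑ k, (X (i, k) * C (d k j) - C (d i k) * X (k, j))

theorem ev_commP (d x : Matrix ι ι K) (i j : ι) : ev x (commP d i j) = (x * d - d * x) i j := by
  rw [commP, map_sum, Matrix.sub_apply, Matrix.mul_apply, Matrix.mul_apply,
    ← Finset.sum_sub_distrib]
  apply Finset.sum_congr rfl
  intro k _
  rw [map_sub, map_mul, map_mul, ev_X, ev_C, ev_C, ev_X]

theorem zar_commute {S : Set (Matrix ι ι K)} {d : Matrix ι ι K} (h : ∀ s ∈ S, s * d = d * s)
    {x : Matrix ι ι K} (hx : x ∈ zar S) : x * d = d * x := by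
  have h1 : x * d - d * x = 0 := by
    ext i j
    rw [← ev_commP]
    apply hx
    intro s hs
    rw [ev_commP, h s hs, sub_self]; rfl
  exact sub_eq_zero.1 h1

theorem zlie_commute [Infinite K] {S : Set (Matrix ι ι K)} (hS1 : (1 : Matrix ι ι K) ∈ S) {d : Matrix ι ι K}
    (h : ∀ s ∈ S, s * d = d * s) {A : Matrix ι ι K} (hA : A ∈ zlie S) : A * d = d * A := by
  have h1 : A * d - d * A = 0 := by
    ext i j
    have h2 := hA (commP d i j) (by
      intro s hs
      rw [ev_commP, h s hs, sub_self]; rfl) 1 hS1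
    rw [← eval_derivative_lin] at h2
    have h3 : lin 1 (1 * A) (commP d i j) = Polynomial.X * Polynomial.C ((A * d - d * A) i j) := by
      apply Polynomial.funext
      intro t
      rw [eval_lin, ev_commP, one_mul]
      have e1 : (1 + t • A) * d - d * (1 + t • A) = t • (A * d - d * A) := by
        rw [add_mul, mul_add, one_mul, mul_one, smul_mul_assoc, mul_smul_comm]
        module
      rw [e1, Matrix.smul_apply, smul_eq_mul]
      simp
    rw [h3] at h2
    simpa using h2
  exact sub_eq_zero.1 h1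

/-- matrix coefficient -/
noncomputable def coeP (J : Matrix ι ι K) (u v : ι → K) : MvPolynomial (ι × ι) K :=
  ∑ k, ∑ j, C ((Matrix.vecMul u J) k * v j) * X (k, j)

theorem ev_coeP (J x : Matrix ι ι K) (u v : ι → K) :
    ev x (coeP J u v) = om J u (x *ᵥ v) := by
  rw [coeP, map_sum, om_apply, Matrix.dotProduct_mulVec]
  rw [dotProduct]
  apply Finset.sum_congr rfl
  intro k _
  rw [map_sum, Matrix.mulVec, dotProduct, Finset.mul_sum]
  apply Finset.sum_congr rfl
  intro j _
  rw [map_mul, ev_C, ev_X]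
  ring

theorem gen_of_prime {J : Matrix ι ι K} {S : Set (Matrix ι ι K)} (hp : (van S).IsPrime)
    {u₁ v₁ u₂ v₂ u₃ v₃ : ι → K} (h1 : ∃ s ∈ S, om J u₁ (s *ᵥ v₁) ≠ 0)
    (h2 : ∃ s ∈ S, om J u₂ (s *ᵥ v₂) ≠ 0) (h3 : ∃ s ∈ S, om J u₃ (s *ᵥ v₃) ≠ 0) :
    ∃ s ∈ S, om J u₁ (s *ᵥ v₁) ≠ 0 ∧ om J u₂ (s *ᵥ v₂) ≠ 0 ∧ om J u₃ (s *ᵥ v₃) ≠ 0 := by
  by_contra hcon
  push Not at hcon
  have key : coeP J u₁ v₁ * (coeP J u₂ v₂ * coeP J u₃ v₃) ∈ van S := by
    intro s hs
    rw [map_mul, map_mul, ev_coeP, ev_coeP, ev_coeP]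
    by_cases a1 : om J u₁ (s *ᵥ v₁) = 0
    · rw [a1, zero_mul]
    by_cases a2 : om J u₂ (s *ᵥ v₂) = 0
    · rw [a2, zero_mul, mul_zero]
    rw [hcon s hs a1 a2, mul_zero, mul_zero]
  have hnot : ∀ u v : ι → K, (∃ s ∈ S, om J u (s *ᵥ v) ≠ 0) → coeP J u v ∉ van S := by
    rintro u v ⟨s, hs, hne⟩ hmem
    apply hne
    rw [← ev_coeP]
    exact hmem s hs
  rcases hp.mem_or_mem key with h | h
  · exact hnot _ _ h1 h
  · rcases hp.mem_or_mem h with h | h
    · exact hnot _ _ h2 h
    · exact hnot _ _ h3 h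

end Pool.Agent.H76RM
end

-- from Lib.H76RM.Grp
section

/-!
# From the Lie algebra to the group, with endomorphisms
-/

set_option autoImplicit false
set_option linter.unusedSectionVars false
namespace Pool.Agent.H76RM
open Module Matrix Pool.Agent.H53Toric

variable {ι : Type*} [Fintype ι] [DecidableEq ι] {K : Type*} [Field K]
variable {B : Type*} [Fintype B] [DecidableEq B]

/-- self adjoint primitive idempotents, one for each simple factor -/
structure Split (J : Matrix ι ι K) (DD : Submodule K (Matrix ι ι K)) (e : B → Matrix ι ι K) :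
    Prop where
  one : (1 : Matrix ι ι K) ∈ DD
  mem : ∀ b, e b ∈ DD
  idem : ∀ b, e b * e b = e b
  adj : ∀ b, (e b)ᵀ * J = J * e b
  corner : ∀ b, ∀ x ∈ DD, ∃ c : K, e b * x * e b = c • e b
  orth : ∀ b c, b ≠ c → ∀ x ∈ DD, e b * x * e c = 0
  full : ∀ v : ι → K, v ∈ Submodule.span K {w | ∃ x ∈ DD, ∃ b, ∃ u : ι → K,
    w = x *ᵥ (e b *ᵥ u)}

namespace Split

variable {J : Matrix ι ι K} {DD : Submodule K (Matrix ι ι K)} {e : B → Matrix ι ι K}
  (h : Split J DD e)
include h

theorem orth1 {b c : B} (hbc : b ≠ c) : e b * e c = 0 := by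
  have := h.orth b c hbc 1 h.one
  rwa [mul_one] at this

theorem ext_comm {x y : Matrix ι ι K} (hx : ∀ d ∈ DD, x * d = d * x)
    (hy : ∀ d ∈ DD, y * d = d * y) (hxy : ∀ b, x * e b = y * e b) : x = y := by
  have key : ∀ v : ι → K, x *ᵥ v = y *ᵥ v := by
    intro v
    refine Submodule.span_induction (p := fun v _ => x *ᵥ v = y *ᵥ v) ?_ ?_ ?_ ?_ (h.full v)
    · rintro _ ⟨d, hd, b, u, rfl⟩
      rw [Matrix.mulVec_mulVec, Matrix.mulVec_mulVec, Matrix.mulVec_mulVec,
        Matrix.mulVec_mulVec]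
      congr 1
      rw [hx d hd, hy d hd, mul_assoc, mul_assoc, hxy b]
    · rw [Matrix.mulVec_zero, Matrix.mulVec_zero]
    · intro a b _ _ ha hb
      rw [Matrix.mulVec_add, Matrix.mulVec_add, ha, hb]
    · intro a v _ hv
      rw [Matrix.mulVec_smul, Matrix.mulVec_smul, hv]
  apply (phi (ι := ι) (K := K)).injective
  apply LinearMap.ext
  intro v
  rw [phi_apply, phi_apply]
  exact key v

theorem self (b : B) (v w : ι → K) : om J (e b *ᵥ v) w = om J v (e b *ᵥ w) := by
  rw [om_apply, om_apply, Matrix.mulVec_mulVec, ← h.adj b, ← Matrix.mulVec_mulVec,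
    Matrix.dotProduct_mulVec v, Matrix.vecMul_transpose]

end Split

/-- the subspace `V_b` -/
noncomputable def Vb (e : B → Matrix ι ι K) (b : B) : Submodule K (ι → K) :=
  LinearMap.range (phi (e b))

theorem mem_Vb {e : B → Matrix ι ι K} {b : B} (hb : e b * e b = e b) {v : ι → K} :
    v ∈ Vb e b ↔ e b *ᵥ v = v := by
  constructor
  · rintro ⟨u, rfl⟩
    rw [phi_apply, Matrix.mulVec_mulVec, hb]
  · intro hv
    exact ⟨v, by rw [phi_apply, hv]⟩

/-- the restricted form -/
noncomputable def omb (J : Matrix ι ι K) (e : B → Matrix ι ι K) (b : B) :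
    Vb e b →ₗ[K] Vb e b →ₗ[K] K :=
  (om J).compl₁₂ (Vb e b).subtype (Vb e b).subtype

theorem omb_apply (J : Matrix ι ι K) (e : B → Matrix ι ι K) (b : B) (v w : Vb e b) :
    omb J e b v w = om J v.1 w.1 := rfl

section
variable {J : Matrix ι ι K} {DD : Submodule K (Matrix ι ι K)} {e : B → Matrix ι ι K}
  (h : Split J DD e) {S : Set (Matrix ι ι K)} (hS1 : (1 : Matrix ι ι K) ∈ S)
  (hS : ∀ a ∈ S, ∀ b ∈ S, a * b ∈ S) (hSD : ∀ s ∈ S, ∀ d ∈ DD, s * d = d * s)
  (hA : ∀ b w, e b *ᵥ w = w → ∃ A ∈ zlie S, phi A * phi (e b) = trv (om J) w ∧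
    ∀ c, c ≠ b → phi A * phi (e c) = 0)
  (hJ : Jᵀ = -J) (hdet : IsUnit J.det)

include h hS1 hSD hA hJ in
theorem one_add_mem [CharZero K] {b : B} {w : ι → K} (hw : e b *ᵥ w = w) (a : K) :
    ∃ y ∈ zar S, (∀ v, e b *ᵥ v = v → y *ᵥ v = v + a • trv (om J) w v) ∧
      ∀ c, c ≠ b → y * e c = e c := by
  obtain ⟨A, hAz, hAb, hAc⟩ := hA b w hw
  have hcomm : ∀ d ∈ DD, A * d = d * A := fun d hd =>
    zlie_commute hS1 (fun s hs => hSD s hs d hd) hAz
  have hAc' : ∀ c, c ≠ b → A * e c = 0 := by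
    intro c hc
    apply (phi (ι := ι) (K := K)).injective
    rw [map_mul, hAc c hc, map_zero]
  have hAA : A * A = 0 := by
    apply h.ext_comm
    · intro d hd
      rw [mul_assoc, hcomm d hd, ← mul_assoc, hcomm d hd, mul_assoc]
    · intro d _
      rw [zero_mul, mul_zero]
    · intro c
      rw [zero_mul]
      by_cases hc : c = b
      · subst hc
        have e1 : A * A * e c = (A * e c) * (A * e c) := by
          calc A * A * e c = A * A * (e c * e c) := by rw [h.idem]
            _ = A * (A * e c) * e c := by noncomm_ring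
            _ = A * (e c * A) * e c := by rw [hcomm _ (h.mem c)]
            _ = _ := by noncomm_ring
        rw [e1]
        apply (phi (ι := ι) (K := K)).injective
        rw [map_mul, map_mul, hAb, trv_sq (om_alt hJ), map_zero]
      · rw [mul_assoc, hAc' c hc, mul_zero]
  refine ⟨1 + a • A, ?_, ?_, ?_⟩
  · have := zlie_exp hAz hAA 1 hS1 a
    rwa [one_mul] at this
  · intro v hv
    have e1 : A *ᵥ v = trv (om J) w v := by
      rw [← hAb]
      change _ = phi A (phi (e b) v)
      rw [phi_apply (e b), hv, phi_apply]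
    rw [Matrix.add_mulVec, Matrix.one_mulVec, Matrix.smul_mulVec, e1]
  · intro c hc
    rw [add_mul, one_mul, smul_mul_assoc, hAc' c hc, smul_zero, add_zero]

include h hS1 hS hSD hA hJ hdet in
/-- isometries of one component -/
theorem comp_mem [CharZero K] (b : B) (x : Module.End K (Vb e b))
    (hx : ∀ v w, omb J e b (x v) (x w) = omb J e b v w) :
    ∃ y ∈ zar S, (∀ v : Vb e b, y *ᵥ v.1 = (x v).1) ∧ ∀ c, c ≠ b → y * e c = e c := by
  have h1 := sp_mem (ω := omb J e b)
    (Z := {x | ∃ y ∈ zar S, (∀ v : Vb e b, y *ᵥ v.1 = (x v).1) ∧ ∀ c, c ≠ b → y * e c = e c})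
    (by
      intro v
      rw [omb_apply]
      exact om_alt hJ _) (by
      intro v hv
      apply Subtype.ext
      apply om_nd hdet
      intro w
      have hvb := (mem_Vb (h.idem b)).1 v.2
      rw [← hvb, ← h.self]
      have := hv ⟨e b *ᵥ w, (mem_Vb (h.idem b)).2 (by rw [Matrix.mulVec_mulVec, h.idem])⟩
      rw [omb_apply] at this
      exact this)
    ⟨1, subset_zar S hS1, by intro v; rw [Matrix.one_mulVec]; rfl, by intro c _; rw [one_mul]⟩
    (by
      rintro a ⟨ya, hya, h2, h3⟩ c ⟨yc, hyc, h4, h5⟩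
      refine ⟨ya * yc, zar_mul hS hya hyc, ?_, ?_⟩
      · intro v
        rw [← Matrix.mulVec_mulVec, h4, h2]; rfl
      · intro k hk
        rw [mul_assoc, h5 k hk, h3 k hk])
    (by
      intro a d
      obtain ⟨y, hy, h2, h3⟩ := one_add_mem h hS1 hSD hA hJ
        (w := d.1) ((mem_Vb (h.idem b)).1 d.2) a
      refine ⟨y, hy, ?_, h3⟩
      intro v
      rw [h2 v.1 ((mem_Vb (h.idem b)).1 v.2)]
      rw [LinearMap.add_apply, LinearMap.smul_apply, trv_apply, trv_apply, omb_apply]
      rfl)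
    (finrank K (Vb e b)) x hx (Nat.le_add_left _ _)
  exact h1

include h hS1 hS hSD hA hJ hdet in
/-- isometries commuting with `DD` -/
theorem iso_mem [CharZero K] {y : Matrix ι ι K} (hy : yᵀ * J * y = J)
    (hyD : ∀ d ∈ DD, y * d = d * y) : y ∈ zar S := by
  have hfac : ∀ b, ∃ z ∈ zar S, z * e b = y * e b ∧ ∀ c, c ≠ b → z * e c = e c := by
    intro b
    have hmaps : ∀ v ∈ Vb e b, phi y v ∈ Vb e b := by
      intro v hv
      rw [mem_Vb (h.idem b)] at hv ⊢
      rw [phi_apply, Matrix.mulVec_mulVec, ← hyD _ (h.mem b), ← Matrix.mulVec_mulVec, hv]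
    obtain ⟨z, hz, h1, h2⟩ := comp_mem h hS1 hS hSD hA hJ hdet b
      ((phi y).restrict hmaps) (by
        intro v w
        rw [omb_apply, omb_apply, LinearMap.coe_restrict_apply, LinearMap.coe_restrict_apply,
          phi_apply, phi_apply, om_mul, hy])
    refine ⟨z, hz, ?_, h2⟩
    apply (phi (ι := ι) (K := K)).injective
    apply LinearMap.ext
    intro v
    rw [phi_apply, phi_apply, ← Matrix.mulVec_mulVec, ← Matrix.mulVec_mulVec]
    have := h1 ⟨e b *ᵥ v, (mem_Vb (h.idem b)).2 (by rw [Matrix.mulVec_mulVec, h.idem])⟩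
    rw [LinearMap.coe_restrict_apply, phi_apply] at this
    exact this
  have key : ∀ T : Finset B, ∃ z ∈ zar S, (∀ b ∈ T, z * e b = y * e b) ∧
      ∀ c, c ∉ T → z * e c = e c := by
    intro T
    induction T using Finset.induction_on with
    | empty =>
      refine ⟨1, subset_zar S hS1, ?_, ?_⟩
      · intro b hb
        simp at hb
      · intro c _
        rw [one_mul]
    | insert b T hb ih =>
      obtain ⟨z, hz, h1, h2⟩ := ih
      obtain ⟨x, hx, h3, h4⟩ := hfac b
      refine ⟨x * z, zar_mul hS hx hz, ?_, ?_⟩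
      · intro c hc
        rw [Finset.mem_insert] at hc
        rcases hc with rfl | hc
        · rw [mul_assoc, h2 c hb, h3]
        · have hcb : c ≠ b := by
            rintro rfl
            exact hb hc
          rw [mul_assoc, h1 c hc]
          calc x * (y * e c) = x * (y * (e c * e c)) := by rw [h.idem]
            _ = x * ((y * e c) * e c) := by noncomm_ring
            _ = x * ((e c * y) * e c) := by rw [hyD _ (h.mem c)]
            _ = (x * e c) * (y * e c) := by noncomm_ring
            _ = e c * y * e c := by rw [h4 c hcb]; noncomm_ring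
            _ = y * e c * e c := by rw [hyD _ (h.mem c)]
            _ = _ := by rw [mul_assoc, h.idem]
      · intro c hc
        rw [Finset.mem_insert, not_or] at hc
        rw [mul_assoc, h2 c hc.2, h4 c hc.1]
  obtain ⟨z, hz, h1, -⟩ := key Finset.univ
  have hzy : z = y := by
    apply h.ext_comm
    · intro d hd
      exact zar_commute (fun s hs => hSD s hs d hd) hz
    · exact hyD
    · intro b
      exact h1 b (Finset.mem_univ b)
  rw [← hzy]
  exact hz

include h hS1 hS hSD hA hJ hdet in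
/-- similitudes commuting with `DD` -/
theorem sim_mem [IsAlgClosed K] [CharZero K] (hne : J ≠ 0)
    {s s' : Matrix ι ι K} (hs : s ∈ S) (hs' : s' ∈ S) (hss : s * s' = 1) {c₀ : K}
    (hc₀ : sᵀ * J * s = c₀ • J) (hroot : ∀ n : ℕ, n ≠ 0 → c₀ ^ n ≠ 1)
    {x : Matrix ι ι K} (hx : IsUnit x.det) (hxD : ∀ d ∈ DD, x * d = d * x)
    {c : K} (hc : xᵀ * J * x = c • J) : x ∈ zar S := by
  have hiso : ∀ y : Matrix ι ι K, yᵀ * J * y = J → (∀ d ∈ DD, y * d = d * y) → y ∈ zar S :=
    fun y hy hyD => iso_mem h hS1 hS hSD hA hJ hdet hy hyD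
  have hJ0 : J ≠ 0 := hne
  have hc00 : c₀ ≠ 0 := by
    rintro rfl
    rw [zero_smul] at hc₀
    have hss' : s'ᵀ * sᵀ = 1 := by rw [← Matrix.transpose_mul, hss, Matrix.transpose_one]
    apply hJ0
    calc J = (s'ᵀ * sᵀ) * J * (s * s') := by rw [hss', hss, one_mul, mul_one]
      _ = s'ᵀ * (sᵀ * J * s) * s' := by noncomm_ring
      _ = 0 := by rw [hc₀]; simp
  -- infinitely many scalars
  have hpow : ∀ n : ℕ, s ^ n ∈ S ∧ s' ^ n ∈ S ∧ s ^ n * s' ^ n = 1 ∧
      (s ^ n)ᵀ * J * s ^ n = c₀ ^ n • J := by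
    intro n
    induction n with
    | zero => exact ⟨by simpa using hS1, by simpa using hS1, by simp, by simp⟩
    | succ n ih =>
      obtain ⟨h1, h2, h3, h4⟩ := ih
      refine ⟨?_, ?_, ?_, ?_⟩
      · rw [pow_succ]; exact hS _ h1 _ hs
      · rw [pow_succ']; exact hS _ hs' _ h2
      · calc s ^ (n + 1) * s' ^ (n + 1) = s ^ n * (s * s') * s' ^ n := by
              rw [pow_succ s n, pow_succ' s' n]; noncomm_ring
          _ = 1 := by rw [hss, mul_one, h3]
      · rw [pow_succ, Matrix.transpose_mul]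
        calc sᵀ * (s ^ n)ᵀ * J * (s ^ n * s) = sᵀ * ((s ^ n)ᵀ * J * s ^ n) * s := by
              noncomm_ring
          _ = c₀ ^ n • (sᵀ * J * s) := by rw [h4, mul_smul_comm, smul_mul_assoc]
          _ = _ := by rw [hc₀, smul_smul, pow_succ]
  have hroots : ∀ n : ℕ, ∃ a : K, a * a = (c₀ ^ n)⁻¹ := by
    intro n
    obtain ⟨a, ha⟩ := IsAlgClosed.exists_pow_nat_eq (c₀ ^ n)⁻¹ (n := 2) (by norm_num)
    exact ⟨a, by rw [← ha, pow_two]⟩
  choose a ha using hroots
  have hainj : Function.Injective a := by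
    have key : ∀ m n : ℕ, m < n → a m ≠ a n := by
      intro m n hmn h
      have h1 : (c₀ ^ m)⁻¹ = (c₀ ^ n)⁻¹ := by rw [← ha, ← ha, h]
      have h2 : c₀ ^ m = c₀ ^ n := inv_injective h1
      obtain ⟨k, rfl⟩ := Nat.exists_eq_add_of_lt hmn
      have h3 : c₀ ^ (k + 1) = 1 := by
        have h4 : c₀ ^ m * c₀ ^ (k + 1) = c₀ ^ m * 1 := by
          rw [mul_one, ← pow_add, h2]
          congr 1
        exact mul_left_cancel₀ (pow_ne_zero m hc00) h4
      exact hroot _ (Nat.succ_ne_zero k) h3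
    intro m n h
    by_contra hne
    rcases lt_or_gt_of_ne hne with h1 | h1
    · exact key m n h1 h
    · exact key n m h1 h.symm
  have hmem : ∀ n : ℕ, a n • (1 : Matrix ι ι K) ∈ zar S := by
    intro n
    obtain ⟨h1, h2, h3, h4⟩ := hpow n
    have h5 : a n • s ^ n ∈ zar S := by
      apply hiso
      · rw [Matrix.transpose_smul]
        simp only [smul_mul_assoc, mul_smul_comm, h4, smul_smul]
        have h6 : a n * (a n * c₀ ^ n) = 1 := by
          rw [← mul_assoc, ha, inv_mul_cancel₀ (pow_ne_zero n hc00)]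
        rw [h6, one_smul]
      · intro d hd
        rw [smul_mul_assoc, mul_smul_comm, hSD _ h1 d hd]
    have h7 := zar_mul hS h5 (subset_zar S h2)
    rwa [smul_mul_assoc, h3] at h7
  have hscal : ∀ t : K, t • (1 : Matrix ι ι K) ∈ zar S := by
    intro t
    have := line_subset_zar (S := S) (x := 0) (y := 1) (T := Set.range a)
      (Set.infinite_range_of_injective hainj) (by
        rintro _ ⟨n, rfl⟩
        rw [zero_add]
        exact hmem n) t
    rwa [zero_add] at this
  have hc0 : c ≠ 0 := by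
    rintro rfl
    rw [zero_smul] at hc
    have h3 := congrArg Matrix.det hc
    rw [Matrix.det_mul, Matrix.det_mul, Matrix.det_transpose] at h3
    have hne : Nonempty ι := by
      by_contra hemp
      rw [not_nonempty_iff] at hemp
      apply hJ0
      ext i
      exact (hemp.false i).elim
    rw [Matrix.det_zero] at h3
    exact (mul_ne_zero (mul_ne_zero hx.ne_zero hdet.ne_zero) hx.ne_zero) h3
  obtain ⟨b, hb⟩ := IsAlgClosed.exists_pow_nat_eq c⁻¹ (n := 2) (by norm_num)
  have hb0 : b ≠ 0 := by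
    rintro rfl
    rw [zero_pow (by norm_num)] at hb
    exact inv_ne_zero hc0 hb.symm
  have h8 : b • x ∈ zar S := by
    apply hiso
    · rw [Matrix.transpose_smul]
      simp only [smul_mul_assoc, mul_smul_comm, hc, smul_smul]
      have h6 : b * (b * c) = 1 := by
        rw [← mul_assoc, ← pow_two, hb, inv_mul_cancel₀ hc0]
      rw [h6, one_smul]
    · intro d hd
      rw [smul_mul_assoc, mul_smul_comm, hxD d hd]
  have h9 := zar_mul hS h8 (hscal b⁻¹)
  rwa [smul_mul_smul_comm, mul_inv_cancel₀ hb0, mul_one, one_smul] at h9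

end

end Pool.Agent.H76RM
end

-- from Lib.H76RM.Mk
section

/-!
# The setup given by a representation
-/

set_option autoImplicit false
set_option linter.unusedSectionVars false
namespace Pool.Agent.H76RM
open Module Matrix Pool.Agent.H53Toric

variable {ι : Type*} [Fintype ι] [DecidableEq ι] {K : Type*} [Field K]
variable {B : Type*} [Fintype B] [DecidableEq B]

theorem skew_om {J : Matrix ι ι K} (hdet : IsUnit J.det) {A : Module.End K (ι → K)}
    (hA : adjE J A = -A) (v w : ι → K) : om J (A v) w = - om J v (A w) := by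
  obtain ⟨X, rfl⟩ := (phi (ι := ι) (K := K)).surjective A
  rw [skew_iff hdet] at hA
  rw [phi_apply, phi_apply, om_apply, om_apply]
  have h1 : (X *ᵥ v) ⬝ᵥ (J *ᵥ w) = v ⬝ᵥ ((Xᵀ * J) *ᵥ w) := by
    rw [← Matrix.mulVec_mulVec, Matrix.dotProduct_mulVec v, Matrix.vecMul_transpose]
  rw [h1, eq_neg_of_add_eq_zero_left hA, Matrix.neg_mulVec, ← Matrix.mulVec_mulVec,
    dotProduct_neg]

/-- representation as operators -/
noncomputable def opr {Γ : Type*} [Group Γ] (R : Γ →* Matrix ι ι K) :
    Γ →* Module.End K (ι → K) where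
  toFun x := phi (R x)
  map_one' := by rw [map_one, map_one]
  map_mul' := by
    intro x y
    rw [map_mul, map_mul]

theorem opr_apply {Γ : Type*} [Group Γ] (R : Γ →* Matrix ι ι K) (x : Γ) (v : ι → K) :
    opr R x v = R x *ᵥ v := phi_apply _ _

theorem R_inv {Γ : Type*} [Group Γ] (R : Γ →* Matrix ι ι K) (x : Γ) : R x * R x⁻¹ = 1 := by
  rw [← map_mul, mul_inv_cancel, map_one]


theorem exists_falt [CharZero K] {J : Matrix ι ι K} {DD : Submodule K (Matrix ι ι K)} {e : B → Matrix ι ι K}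
    (h : Split J DD e) (hJ : Jᵀ = -J) (hdet : IsUnit J.det) {Γ : Type*} [Group Γ]
    (R : Γ →* Matrix ι ι K)
    (semis : ∀ W : Submodule K (ι → K), (∀ x, ∀ w ∈ W, R x *ᵥ w ∈ W) →
      ∃ W' : Submodule K (ι → K), (∀ x, ∀ w ∈ W', R x *ᵥ w ∈ W') ∧ IsCompl W W')
    (commt : ∀ y : Matrix ι ι K, (∀ x, y * R x = R x * y) → y ∈ DD)
    (u v : ι → K) (hu : (∑ b, phi (e b)) u = u) (hv : (∑ b, phi (e b)) v = v)
    (huv : ∀ x, om J u (opr R x v) = 0) (b : B) : phi (e b) v = 0 ∨ phi (e b) u = 0 := by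
  set W : Submodule K (ι → K) := Submodule.span K (Set.range fun x => R x *ᵥ v) with hW
  have hst : ∀ x, ∀ w ∈ W, R x *ᵥ w ∈ W := by
    intro x w hw
    refine Submodule.span_induction (p := fun w _ => R x *ᵥ w ∈ W) ?_ ?_ ?_ ?_ hw
    · rintro _ ⟨y, rfl⟩
      apply Submodule.subset_span
      exact ⟨x * y, by
        change R (x * y) *ᵥ v = R x *ᵥ (R y *ᵥ v)
        rw [map_mul, Matrix.mulVec_mulVec]⟩
    · rw [Matrix.mulVec_zero]; exact W.zero_mem
    · intro a c _ _ ha hc
      rw [Matrix.mulVec_add]; exact W.add_mem ha hc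
    · intro a w _ hw
      rw [Matrix.mulVec_smul]; exact W.smul_mem _ hw
  obtain ⟨W', hst', hcompl⟩ := semis W hst
  set π : Module.End K (ι → K) := W.subtype ∘ₗ W.projectionOnto W' hcompl with hπ
  have hπW : ∀ w ∈ W, π w = w := by
    intro w hw
    change ((W.projectionOnto W' hcompl w : W) : ι → K) = w
    rw [Submodule.projectionOnto_apply_left hcompl ⟨w, hw⟩]
  have hπW' : ∀ w ∈ W', π w = 0 := by
    intro w hw
    change ((W.projectionOnto W' hcompl w : W) : ι → K) = 0
    rw [(Submodule.projectionOnto_apply_eq_zero_iff hcompl).2 hw]; rfl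
  have hπm : ∀ w, π w ∈ W := fun w => (W.projectionOnto W' hcompl w).2
  obtain ⟨p, hp⟩ := (phi (ι := ι) (K := K)).surjective π
  have hpD : p ∈ DD := by
    apply commt
    intro x
    apply (phi (ι := ι) (K := K)).injective
    rw [map_mul, map_mul, hp]
    apply LinearMap.ext
    intro w
    obtain ⟨w1, hw1, w2, hw2, rfl⟩ := Submodule.mem_sup.1
      (show w ∈ W ⊔ W' by rw [hcompl.sup_eq_top]; trivial)
    change π (phi (R x) (w1 + w2)) = phi (R x) (π (w1 + w2))
    rw [map_add, map_add, map_add, hπW w1 hw1, hπW' w2 hw2, add_zero, phi_apply, phi_apply,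
      hπW _ (hst x w1 hw1), hπW' _ (hst' x w2 hw2), add_zero]
  have hvW : v ∈ W := by
    apply Submodule.subset_span
    exact ⟨1, by
      change R 1 *ᵥ v = v
      rw [map_one, Matrix.one_mulVec]⟩
  have huW : ∀ w ∈ W, om J u w = 0 := by
    intro w hw
    refine Submodule.span_induction (p := fun w _ => om J u w = 0) ?_ ?_ ?_ ?_ hw
    · rintro _ ⟨y, rfl⟩
      have := huv y
      rwa [opr_apply] at this
    · rw [map_zero]
    · intro a c _ _ ha hc
      rw [map_add, ha, hc, add_zero]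
    · intro a w _ hw
      rw [map_smul, hw, smul_zero]
  obtain ⟨c, hc⟩ := h.corner b p hpD
  have hcor : ∀ w, phi (e b) (π (phi (e b) w)) = c • phi (e b) w := by
    intro w
    have := congrArg (fun m => phi m w) hc
    simp only [map_mul, map_smul, hp] at this
    exact this
  have horth : ∀ b' c', b' ≠ c' → ∀ w, phi (e b') (π (phi (e c') w)) = 0 := by
    intro b' c' hbc w
    have := congrArg (fun m => phi m w) (h.orth b' c' hbc p hpD)
    simp only [map_mul, map_zero, hp] at this
    exact this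
  by_cases hv0 : phi (e b) v = 0
  · exact Or.inl hv0
  right
  -- `c = 1`
  have hc1 : c = 1 := by
    have h1 : phi (e b) (π v) = c • phi (e b) v := by
      conv_lhs => rw [← hv]
      rw [LinearMap.sum_apply, map_sum, map_sum, Finset.sum_eq_single b]
      · exact hcor v
      · intro b' _ hb'
        exact horth b b' (Ne.symm hb') v
      · intro hb
        exact absurd (Finset.mem_univ b) hb
    rw [hπW v hvW] at h1
    have h2 : (c - 1) • phi (e b) v = 0 := by
      rw [sub_smul, one_smul, ← h1, sub_self]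
    rcases smul_eq_zero.1 h2 with h3 | h3
    · exact sub_eq_zero.1 h3
    · exact absurd h3 hv0
  have hself : ∀ b' v w, om J (phi (e b') v) w = om J v (phi (e b') w) := by
    intro b' v w
    rw [phi_apply, phi_apply]
    exact h.self b' v w
  apply om_nd hdet
  intro w
  have hanti : ∀ v w, om J v w = - om J w v := omega_antisymm (om_alt hJ)
  rw [hanti, hself]
  rw [neg_eq_zero]
  have h1 := huW _ (hπm (phi (e b) w))
  rw [← hu, LinearMap.sum_apply, map_sum, LinearMap.sum_apply] at h1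
  rw [Finset.sum_eq_single b] at h1
  · rw [hself, hcor, hc1, one_smul] at h1
    exact h1
  · intro b' _ hb'
    rw [hself, horth b' b hb' w, map_zero]
  · intro hb
    exact absurd (Finset.mem_univ b) hb

/-- The setup. -/
theorem mk_setup [CharZero K] {J : Matrix ι ι K} {DD : Submodule K (Matrix ι ι K)}
    {e : B → Matrix ι ι K}
    (h : Split J DD e) (hJ : Jᵀ = -J) (hdet : IsUnit J.det) (hne : J ≠ 0) {Γ : Type*} [Group Γ]
    (R : Γ →* Matrix ι ι K)
    (sim : ∀ x, ∃ c : K, (R x)ᵀ * J * R x = c • J)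
    (lin : ∀ x, ∀ d ∈ DD, R x * d = d * R x)
    (prime : (van (Set.range R)).IsPrime)
    (semis : ∀ W : Submodule K (ι → K), (∀ x, ∀ w ∈ W, R x *ᵥ w ∈ W) →
      ∃ W' : Submodule K (ι → K), (∀ x, ∀ w ∈ W', R x *ᵥ w ∈ W') ∧ IsCompl W W')
    (commt : ∀ y : Matrix ι ι K, (∀ x, y * R x = R x * y) → y ∈ DD) :
    Setup (om J) (fun b => phi (e b)) (lieE J (Set.range R)) (opr R) where
  alt := om_alt hJ
  lie := fun A hA C hC => lieE_lie hdet _ A hA C hC
  skew := by
    intro A hA
    exact skew_om hdet (mem_skewE.1 hA.2)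
  sim := by
    intro x
    obtain ⟨c, hc⟩ := sim x
    refine ⟨c, ?_, ?_⟩
    · rintro rfl
      rw [zero_smul] at hc
      apply hne
      have hss' : (R x⁻¹)ᵀ * (R x)ᵀ = 1 := by
        rw [← Matrix.transpose_mul, R_inv, Matrix.transpose_one]
      calc J = ((R x⁻¹)ᵀ * (R x)ᵀ) * J * (R x * R x⁻¹) := by
            rw [hss', R_inv, one_mul, mul_one]
        _ = (R x⁻¹)ᵀ * ((R x)ᵀ * J * R x) * R x⁻¹ := by noncomm_ring
        _ = 0 := by rw [hc]; simp
    · intro v w
      rw [opr_apply, opr_apply, om_mul, hc, om_apply, om_apply, Matrix.smul_mulVec,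
        dotProduct_smul, smul_eq_mul]
  conj := by
    intro x A hA
    obtain ⟨c, hc⟩ := sim x
    refine lieE_conj hdet ?_ (Set.mem_range_self x) (Set.mem_range_self x⁻¹) (R_inv R x) hc hA
    rintro _ ⟨y, rfl⟩ _ ⟨z, rfl⟩
    exact ⟨y * z, map_mul _ _ _⟩
  idem := by
    intro b
    rw [← map_mul, h.idem]
  orth := by
    intro b c hbc
    rw [← map_mul, h.orth1 hbc, map_zero]
  nd := by
    intro u hu
    apply om_nd hdet
    intro w
    rw [omega_antisymm (om_alt hJ), hu, neg_zero]
  self := by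
    intro b v w
    rw [phi_apply, phi_apply]
    exact h.self b v w
  gcomm := by
    intro b A hA
    obtain ⟨X, rfl⟩ := (phi (ι := ι) (K := K)).surjective A
    have h1 := (mem_lieE.1 hA).1
    have h2 : X * e b = e b * X := zlie_commute (S := Set.range R) ⟨1, map_one R⟩ (by
      rintro _ ⟨y, rfl⟩
      exact lin y _ (h.mem b)) h1
    rw [← map_mul, ← map_mul, h2]
  rcomm := by
    intro b x
    change phi (e b) * phi (R x) = phi (R x) * phi (e b)
    rw [← map_mul, ← map_mul, lin x _ (h.mem b)]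
  gen := by
    intro u₁ v₁ u₂ v₂ u₃ v₃ h1 h2 h3
    have hc : ∀ u v : ι → K, (∃ x, om J u (opr R x v) ≠ 0) →
        ∃ s ∈ Set.range R, om J u (s *ᵥ v) ≠ 0 := by
      rintro u v ⟨x, hx⟩
      exact ⟨_, ⟨x, rfl⟩, hx⟩
    obtain ⟨_, ⟨x, rfl⟩, h4⟩ := gen_of_prime prime (hc _ _ h1) (hc _ _ h2) (hc _ _ h3)
    exact ⟨x, h4⟩
  falt := exists_falt h hJ hdet R semis commt

end Pool.Agent.H76RM
end

-- from Lib.H76U.Gam
section

/-!
# The group of invertible matrices in a Zariski closure
-/

set_option autoImplicit false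
set_option linter.unusedSectionVars false
namespace Pool.Agent.H76U
open Module Matrix Pool.Agent.H53Toric MvPolynomial
open Pool.Agent.H76RM (van mem_van subL_subL subL_one ev_ext)

variable {ι : Type*} [Fintype ι] [DecidableEq ι] {K : Type*} [Field K]

theorem zar_inv [Infinite K] {S : Set (Matrix ι ι K)} (hS1 : (1 : Matrix ι ι K) ∈ S)
    (hS : ∀ a ∈ S, ∀ b ∈ S, a * b ∈ S) {x y : Matrix ι ι K} (hx : x ∈ zar S) (hyx : y * x = 1) :
    y ∈ zar S := by
  have hxy : x * y = 1 := mul_eq_one_comm.1 hyx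
  have hpow : ∀ n : ℕ, x ^ n ∈ zar S := by
    intro n
    induction n with
    | zero => rw [pow_zero]; exact subset_zar S hS1
    | succ n ih => rw [pow_succ]; exact zar_mul hS ih hx
  set a : ℕ → Ideal (MvPolynomial (ι × ι) K) := fun n =>
    Ideal.comap (subL (x ^ n)).toRingHom (van S) with ha
  have hmem : ∀ n f, f ∈ a n ↔ ∀ s ∈ S, ev (x ^ n * s) f = 0 := by
    intro n f
    constructor
    · intro h1 s hs
      rw [← ev_subL]
      exact h1 s hs
    · intro h1 s hs
      have := h1 s hs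
      rw [← ev_subL] at this
      exact this
  have hmono : Monotone a := by
    apply monotone_nat_of_le_succ
    intro n f hf
    rw [hmem] at hf ⊢
    intro s hs
    -- `f (x ^ n ·)` vanishes on `S`, hence at `x s`
    have h1 := zar_mul hS hx (subset_zar S hs)
    have h2 := h1 (subL (x ^ n) f) (by
      intro t ht
      rw [ev_subL]
      exact hf t ht)
    rw [ev_subL] at h2
    rw [pow_succ, mul_assoc]
    exact h2
  obtain ⟨n, hn⟩ := monotone_stabilizes_iff_noetherian.2
    (inferInstance : IsNoetherian (MvPolynomial (ι × ι) K) (MvPolynomial (ι × ι) K))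
    ⟨a, hmono⟩
  have hyxn : ∀ k : ℕ, y ^ k * x ^ k = 1 := by
    intro k
    induction k with
    | zero => simp
    | succ k ih =>
      calc y ^ (k + 1) * x ^ (k + 1) = y ^ k * (y * x) * x ^ k := by
            rw [pow_succ y k, pow_succ' x k]; noncomm_ring
        _ = 1 := by rw [hyx, mul_one, ih]
  intro f hf
  have h1 : subL (y ^ (n + 1)) f ∈ a (n + 1) := by
    rw [hmem]
    intro s hs
    rw [ev_subL, ← mul_assoc, hyxn, one_mul]
    exact hf s hs
  have h2 : a n = a (n + 1) := hn (n + 1) (Nat.le_succ n)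
  rw [← h2, hmem] at h1
  have h3 := h1 1 hS1
  rw [ev_subL, mul_one, pow_succ', mul_assoc, hyxn, mul_one] at h3
  exact h3


variable [Infinite K] {S : Set (Matrix ι ι K)} {hS1 : (1 : Matrix ι ι K) ∈ S}
    {hS : ∀ a ∈ S, ∀ b ∈ S, a * b ∈ S}











end Pool.Agent.H76U
end

-- from Lib.H76U.Grp4
section

/-!
# From the Lie algebra to the group: symplectic and unitary components
-/

set_option autoImplicit false
set_option linter.unusedSectionVars false
namespace Pool.Agent.H76U
open Module Matrix Pool.Agent.H53Toric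
open Pool.Agent.H76RM (zar_commute zlie_commute Vb mem_Vb omb omb_apply)

variable {ι : Type*} [Fintype ι] [DecidableEq ι] {K : Type*} [Field K]
variable {B : Type*} [Fintype B] [DecidableEq B]

/-- primitive idempotents, one for each simple factor; `bar` gives the adjoints -/
structure Split4 (J : Matrix ι ι K) (DD : Submodule K (Matrix ι ι K)) (bar : B → B)
    (e : B → Matrix ι ι K) : Prop where
  one : (1 : Matrix ι ι K) ∈ DD
  mem : ∀ b, e b ∈ DD
  idem : ∀ b, e b * e b = e b
  barbar : ∀ b, bar (bar b) = b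
  adj : ∀ b, (e b)ᵀ * J = J * e (bar b)
  corner : ∀ b, ∀ x ∈ DD, ∃ c : K, e b * x * e b = c • e b
  orth : ∀ b c, b ≠ c → ∀ x ∈ DD, e b * x * e c = 0
  full : ∀ v : ι → K, v ∈ Submodule.span K {w | ∃ x ∈ DD, ∃ b, ∃ u : ι → K,
    w = x *ᵥ (e b *ᵥ u)}

namespace Split4

variable {J : Matrix ι ι K} {DD : Submodule K (Matrix ι ι K)} {bar : B → B}
  {e : B → Matrix ι ι K} (h : Split4 J DD bar e)
include h


theorem ext_comm {x y : Matrix ι ι K} (hx : ∀ d ∈ DD, x * d = d * x)
    (hy : ∀ d ∈ DD, y * d = d * y) (hxy : ∀ b, x * e b = y * e b) : x = y := by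
  have key : ∀ v : ι → K, x *ᵥ v = y *ᵥ v := by
    intro v
    refine Submodule.span_induction (p := fun v _ => x *ᵥ v = y *ᵥ v) ?_ ?_ ?_ ?_ (h.full v)
    · rintro _ ⟨d, hd, b, u, rfl⟩
      rw [Matrix.mulVec_mulVec, Matrix.mulVec_mulVec, Matrix.mulVec_mulVec,
        Matrix.mulVec_mulVec]
      congr 1
      rw [hx d hd, hy d hd, mul_assoc, mul_assoc, hxy b]
    · rw [Matrix.mulVec_zero, Matrix.mulVec_zero]
    · intro a b _ _ ha hb
      rw [Matrix.mulVec_add, Matrix.mulVec_add, ha, hb]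
    · intro a v _ hv
      rw [Matrix.mulVec_smul, Matrix.mulVec_smul, hv]
  apply (phi (ι := ι) (K := K)).injective
  apply LinearMap.ext
  intro v
  rw [phi_apply, phi_apply]
  exact key v

theorem self (b : B) (v w : ι → K) : om J (e b *ᵥ v) w = om J v (e (bar b) *ᵥ w) := by
  rw [om_apply, om_apply, Matrix.mulVec_mulVec, ← h.adj b, ← Matrix.mulVec_mulVec,
    Matrix.dotProduct_mulVec v, Matrix.vecMul_transpose]

end Split4

section
variable {J : Matrix ι ι K} {DD : Submodule K (Matrix ι ι K)} {bar : B → B}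
  {e : B → Matrix ι ι K}
  (h : Split4 J DD bar e) {S : Set (Matrix ι ι K)} (hS1 : (1 : Matrix ι ι K) ∈ S)
  (hS : ∀ a ∈ S, ∀ b ∈ S, a * b ∈ S) (hSD : ∀ s ∈ S, ∀ d ∈ DD, s * d = d * s)
  (hA : ∀ b u w, Core (om J) (fun b => phi (e b)) bar b u w → ∃ X ∈ zlie S,
    (∀ v w, om J (X *ᵥ v) w = - om J v (X *ᵥ w)) ∧ phi X * phi (e b) = tw (om J) u w ∧
    phi X * phi (e (bar b)) = tw (om J) w u ∧ ∀ c, c ≠ b → c ≠ bar b → phi X * phi (e c) = 0)
  (hJ : Jᵀ = -J) (hdet : IsUnit J.det)

include h hS1 hSD hA hJ in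
theorem one_add_core [CharZero K] {b : B} {u w : ι → K}
    (hc : Core (om J) (fun b => phi (e b)) bar b u w) (a : K) :
    ∃ y ∈ zar S, (∀ v w, om J (y *ᵥ v) (y *ᵥ w) = om J v w) ∧
      (∀ v, e b *ᵥ v = v → y *ᵥ v = v + (a * om J v w) • u) ∧
      ∀ c, c ≠ b → c ≠ bar b → y * e c = e c := by
  obtain ⟨X, hXz, hXs, hXb, hXb', hXc⟩ := hA b u w hc
  have hcomm : ∀ d ∈ DD, X * d = d * X := fun d hd =>
    zlie_commute hS1 (fun s hs => hSD s hs d hd) hXz
  have hXc' : ∀ c, c ≠ b → c ≠ bar b → X * e c = 0 := by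
    intro c h1 h2
    apply (phi (ι := ι) (K := K)).injective
    rw [map_mul, hXc c h1 h2, map_zero]
  have hsq : ∀ c, X * X * e c = (X * e c) * (X * e c) := by
    intro c
    calc X * X * e c = X * X * (e c * e c) := by rw [h.idem]
      _ = X * (X * e c) * e c := by noncomm_ring
      _ = X * (e c * X) * e c := by rw [hcomm _ (h.mem c)]
      _ = _ := by noncomm_ring
  have hXX : X * X = 0 := by
    apply h.ext_comm
    · intro d hd
      rw [mul_assoc, hcomm d hd, ← mul_assoc, hcomm d hd, mul_assoc]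
    · intro d _
      rw [zero_mul, mul_zero]
    · intro c
      rw [zero_mul, hsq]
      apply (phi (ι := ι) (K := K)).injective
      rw [map_mul, map_mul, map_zero]
      by_cases h1 : c = b
      · subst h1
        rw [hXb, tw_sq hc.2.2.1]
      by_cases h2 : c = bar b
      · subst h2
        rw [hXb', tw_sq]
        rw [H76RM.anti0 (om_alt hJ), hc.2.2.1, neg_zero]
      · rw [hXc c h1 h2, mul_zero]
  have hXXv : ∀ v, X *ᵥ (X *ᵥ v) = 0 := by
    intro v
    rw [Matrix.mulVec_mulVec, hXX, Matrix.zero_mulVec]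
  refine ⟨1 + a • X, ?_, ?_, ?_, ?_⟩
  · have := zlie_exp hXz hXX 1 hS1 a
    rwa [one_mul] at this
  · intro v w
    simp only [Matrix.add_mulVec, Matrix.one_mulVec, Matrix.smul_mulVec, map_add, map_smul,
      LinearMap.add_apply, LinearMap.smul_apply, smul_eq_mul, hXs]
    rw [hXXv, map_zero]
    ring
  · intro v hv
    have e1 : X *ᵥ v = om J v w • u := by
      rw [← tw_apply, ← hXb]
      change _ = phi X (phi (e b) v)
      rw [phi_apply (e b), hv, phi_apply]
    rw [Matrix.add_mulVec, Matrix.one_mulVec, Matrix.smul_mulVec, e1, smul_smul]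
  · intro c h1 h2
    rw [add_mul, one_mul, smul_mul_assoc, hXc' c h1 h2, smul_zero, add_zero]

include h hS1 hS hSD hA hJ hdet in
/-- isometries of one symplectic component -/
theorem comp_self [CharZero K] {b : B} (hb : bar b = b) (x : Module.End K (Vb e b))
    (hx : ∀ v w, omb J e b (x v) (x w) = omb J e b v w) :
    ∃ y ∈ zar S, (∀ v w, om J (y *ᵥ v) (y *ᵥ w) = om J v w) ∧
      (∀ v : Vb e b, y *ᵥ v.1 = (x v).1) ∧ ∀ c, c ≠ b → c ≠ bar b → y * e c = e c := by
  have h1 := sp_mem (ω := omb J e b)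
    (Z := {x | ∃ y ∈ zar S, (∀ v w, om J (y *ᵥ v) (y *ᵥ w) = om J v w) ∧
      (∀ v : Vb e b, y *ᵥ v.1 = (x v).1) ∧ ∀ c, c ≠ b → c ≠ bar b → y * e c = e c})
    (by
      intro v
      rw [omb_apply]
      exact om_alt hJ _) (by
      intro v hv
      apply Subtype.ext
      apply om_nd hdet
      intro w
      have hvb := (mem_Vb (h.idem b)).1 v.2
      have h2 := h.self b w v.1
      rw [hb, hvb] at h2
      rw [← h2]
      have := hv ⟨e b *ᵥ w, (mem_Vb (h.idem b)).2 (by rw [Matrix.mulVec_mulVec, h.idem])⟩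
      rw [omb_apply] at this
      exact this)
    ⟨1, subset_zar S hS1, by intro v w; rw [Matrix.one_mulVec, Matrix.one_mulVec],
      by intro v; rw [Matrix.one_mulVec]; rfl, by intro c _ _; rw [one_mul]⟩
    (by
      rintro a ⟨ya, hya, hia, h2, h3⟩ c ⟨yc, hyc, hic, h4, h5⟩
      refine ⟨ya * yc, zar_mul hS hya hyc, ?_, ?_, ?_⟩
      · intro v w
        rw [← Matrix.mulVec_mulVec, ← Matrix.mulVec_mulVec, hia, hic]
      · intro v
        rw [← Matrix.mulVec_mulVec, h4, h2]; rfl
      · intro k hk hk'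
        rw [mul_assoc, h5 k hk hk', h3 k hk hk'])
    (by
      intro a d
      have hd := (mem_Vb (h.idem b)).1 d.2
      have hcd : Core (om J) (fun b => phi (e b)) bar b d.1 d.1 := by
        refine ⟨by rw [phi_apply]; exact hd, by rw [hb, phi_apply]; exact hd, om_alt hJ _,
          fun _ => ⟨1, (one_smul K d.1).symm⟩⟩
      obtain ⟨y, hy, hi, h2, h3⟩ := one_add_core h hS1 hSD hA hJ hcd a
      refine ⟨y, hy, hi, ?_, h3⟩
      intro v
      rw [h2 v.1 ((mem_Vb (h.idem b)).1 v.2)]
      rw [LinearMap.add_apply, LinearMap.smul_apply, trv_apply, omb_apply, smul_smul]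
      rfl)
    (finrank K (Vb e b)) x hx (Nat.le_add_left _ _)
  exact h1

include h hS1 hS hSD hA hJ hdet in
/-- operators of determinant one of a unitary component -/
theorem comp_unit [CharZero K] {b : B} (hb : bar b ≠ b) {n : ℕ} {P : Matrix ι (Fin n) K}
    {Q : Matrix (Fin n) ι K} (hPQ : e b = P * Q) (hQP : Q * P = 1)
    {M : Matrix (Fin n) (Fin n) K} (hM : M.det = 1) :
    ∃ y ∈ zar S, (∀ v w, om J (y *ᵥ v) (y *ᵥ w) = om J v w) ∧
      y * P = P * M ∧ ∀ c, c ≠ b → c ≠ bar b → y * e c = e c := by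
  refine sl_gen (Z := {M | ∃ y ∈ zar S, (∀ v w, om J (y *ᵥ v) (y *ᵥ w) = om J v w) ∧
      y * P = P * M ∧ ∀ c, c ≠ b → c ≠ bar b → y * e c = e c}) ?_ ?_ ?_ hM
  · exact ⟨1, subset_zar S hS1, by intro v w; rw [Matrix.one_mulVec, Matrix.one_mulVec],
      by rw [Matrix.one_mul, Matrix.mul_one], by intro c _ _; rw [one_mul]⟩
  · rintro a ⟨ya, hya, hia, h2, h3⟩ c ⟨yc, hyc, hic, h4, h5⟩
    refine ⟨ya * yc, zar_mul hS hya hyc, ?_, ?_, ?_⟩
    · intro v w
      rw [← Matrix.mulVec_mulVec, ← Matrix.mulVec_mulVec, hia, hic]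
    · rw [Matrix.mul_assoc, h4, ← Matrix.mul_assoc, h2, Matrix.mul_assoc]
    · intro k hk hk'
      rw [mul_assoc, h5 k hk hk', h3 k hk hk']
  · intro i j hij a
    have heP : e b * P = P := by rw [hPQ, Matrix.mul_assoc, hQP, Matrix.mul_one]
    -- the functional
    have hsurj : ∃ w, ∀ v, (Q *ᵥ v) j = om J v w := by
      refine ⟨J⁻¹ *ᵥ (fun k => Q j k), fun v => ?_⟩
      rw [om_apply, Matrix.mulVec_mulVec, Matrix.mul_nonsing_inv _ hdet, Matrix.one_mulVec,
        dotProduct_comm]
      rfl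
    obtain ⟨w₀, hw₀⟩ := hsurj
    set u := P *ᵥ Pi.single i 1 with hu
    set w := e (bar b) *ᵥ w₀ with hw
    have hub : e b *ᵥ u = u := by rw [hu, Matrix.mulVec_mulVec, heP]
    have hwb : e (bar b) *ᵥ w = w := by rw [hw, Matrix.mulVec_mulVec, h.idem]
    have hvw : ∀ v, e b *ᵥ v = v → om J v w = (Q *ᵥ v) j := by
      intro v hv
      rw [hw, ← h.self, hv, hw₀]
    have huw : om J u w = 0 := by
      rw [hvw u hub, hu, Matrix.mulVec_mulVec, hQP, Matrix.one_mulVec]
      simp [Ne.symm hij]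
    have hcore : Core (om J) (fun b => phi (e b)) bar b u w :=
      ⟨by rw [phi_apply]; exact hub, by rw [phi_apply]; exact hwb, huw,
        fun hcon => absurd hcon hb⟩
    obtain ⟨y, hy, hi, h2, h3⟩ := one_add_core h hS1 hSD hA hJ hcore a
    refine ⟨y, hy, hi, ?_, h3⟩
    have hcol : ∀ k, y *ᵥ (P *ᵥ Pi.single k 1) =
        (P * Matrix.transvection i j a) *ᵥ Pi.single k 1 := by
      intro k
      have hpk : e b *ᵥ (P *ᵥ Pi.single k 1) = P *ᵥ Pi.single k 1 := by
        rw [Matrix.mulVec_mulVec, heP]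
      have hq : Q *ᵥ (P *ᵥ Pi.single k 1) = Pi.single k 1 := by
        rw [Matrix.mulVec_mulVec, hQP, Matrix.one_mulVec]
      rw [h2 _ hpk, hvw _ hpk, hq,
        ← Matrix.mulVec_mulVec, Matrix.transvection, Matrix.add_mulVec, Matrix.one_mulVec,
        Matrix.mulVec_add]
      congr 1
      rw [hu, ← Matrix.mulVec_smul]
      congr 1
      funext l
      by_cases hjk : j = k
      · subst hjk
        by_cases hil : l = i
        · subst hil
          simp
        · simp [Ne.symm hil, hil]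
      · by_cases hil : l = i
        · subst hil
          simp [hjk]
        · simp [hjk, Ne.symm hil, hil]
    ext l k
    have := congrFun (hcol k) l
    rw [Matrix.mulVec_mulVec, Matrix.mulVec_single_one, Matrix.mulVec_single_one] at this
    exact this

include h hS1 hS hSD hA hJ hdet in
/-- one component at a time -/
theorem comp_fac [CharZero K] {Y : Matrix ι ι K}
    (hY : ∀ v w, om J (Y *ᵥ v) (Y *ᵥ w) = om J v w) (hYD : ∀ d ∈ DD, Y * d = d * Y)
    (hYdet : ∀ b, bar b ≠ b → (1 - e b + Y * e b).det = 1) (b : B) :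
    ∃ z ∈ zar S, z * e b = Y * e b ∧ z * e (bar b) = Y * e (bar b) ∧
      ∀ c, c ≠ b → c ≠ bar b → z * e c = e c := by
  by_cases hb : bar b = b
  · have hmem : ∀ v : Vb e b, Y *ᵥ v.1 ∈ Vb e b := by
      intro v
      rw [mem_Vb (h.idem b), Matrix.mulVec_mulVec, ← hYD _ (h.mem b), ← Matrix.mulVec_mulVec,
        (mem_Vb (h.idem b)).1 v.2]
    set x : Module.End K (Vb e b) :=
      { toFun := fun v => ⟨Y *ᵥ v.1, hmem v⟩
        map_add' := by
          intro v w
          apply Subtype.ext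
          change Y *ᵥ (v.1 + w.1) = Y *ᵥ v.1 + Y *ᵥ w.1
          rw [Matrix.mulVec_add]
        map_smul' := by
          intro a v
          apply Subtype.ext
          change Y *ᵥ (a • v.1) = a • (Y *ᵥ v.1)
          rw [Matrix.mulVec_smul] } with hx
    obtain ⟨y, hy, _, h2, h3⟩ := comp_self h hS1 hS hSD hA hJ hdet hb x (by
      intro v w
      rw [omb_apply, omb_apply]
      exact hY v.1 w.1)
    have h4 : y * e b = Y * e b := by
      apply (phi (ι := ι) (K := K)).injective
      apply LinearMap.ext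
      intro v
      rw [phi_apply, phi_apply, ← Matrix.mulVec_mulVec, ← Matrix.mulVec_mulVec]
      exact h2 ⟨e b *ᵥ v, (mem_Vb (h.idem b)).2 (by rw [Matrix.mulVec_mulVec, h.idem])⟩
    exact ⟨y, hy, h4, by rw [hb]; exact h4, h3⟩
  · obtain ⟨n, P, Q, hPQ, hQP⟩ : ∃ n, ∃ (P : Matrix ι (Fin n) K) (Q : Matrix (Fin n) ι K),
        e b = P * Q ∧ Q * P = 1 := ⟨_, idem_factor (h.idem b)⟩
    have hM : (Q * Y * P).det = 1 := by
      rw [← det_on hPQ hQP (hYD _ (h.mem b))]
      exact hYdet b hb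
    obtain ⟨y, hy, hi, h2, h3⟩ := comp_unit h hS1 hS hSD hA hJ hdet hb hPQ hQP hM
    have hyD : ∀ d ∈ DD, y * d = d * y := fun d hd =>
      zar_commute (fun s hs => hSD s hs d hd) hy
    have h4 : y * e b = Y * e b := by
      have e1 : P * (Q * Y * P) = Y * P := by
        calc P * (Q * Y * P) = (P * Q) * Y * P := by simp only [Matrix.mul_assoc]
          _ = e b * Y * P := by rw [hPQ]
          _ = Y * e b * P := by rw [hYD _ (h.mem b)]
          _ = Y * (P * (Q * P)) := by rw [hPQ]; simp only [Matrix.mul_assoc]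
          _ = Y * P := by rw [hQP, Matrix.mul_one]
      rw [e1] at h2
      rw [hPQ, ← Matrix.mul_assoc, h2, Matrix.mul_assoc]
    refine ⟨y, hy, h4, ?_, h3⟩
    apply (phi (ι := ι) (K := K)).injective
    apply LinearMap.ext
    intro v₀
    rw [phi_apply, phi_apply, ← Matrix.mulVec_mulVec, ← Matrix.mulVec_mulVec]
    set v := e (bar b) *ᵥ v₀ with hv
    have hvb : e (bar b) *ᵥ v = v := by rw [hv, Matrix.mulVec_mulVec, h.idem]
    rw [← sub_eq_zero]
    apply om_nd hdet
    intro w
    have hYi : IsUnit Y.det := by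
      rw [isUnit_iff_ne_zero]
      intro h0
      obtain ⟨a, ha, ha'⟩ := Matrix.exists_mulVec_eq_zero_iff.2 h0
      apply ha
      apply om_nd hdet
      intro c
      rw [← hY, ha', map_zero]
    set w' := Y⁻¹ *ᵥ (e b *ᵥ w) with hw'
    have e2 : Y *ᵥ w' = e b *ᵥ w := by
      rw [hw', Matrix.mulVec_mulVec, Matrix.mul_nonsing_inv _ hYi, Matrix.one_mulVec]
    have e3 : e b *ᵥ w' = w' := by
      have e4 : Y *ᵥ (e b *ᵥ w') = Y *ᵥ w' := by
        rw [Matrix.mulVec_mulVec, hYD _ (h.mem b), ← Matrix.mulVec_mulVec, e2,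
          Matrix.mulVec_mulVec, h.idem]
      have e5 := congrArg (fun t => Y⁻¹ *ᵥ t) e4
      simp only [Matrix.mulVec_mulVec] at e5
      rw [← Matrix.mul_assoc, Matrix.nonsing_inv_mul _ hYi, Matrix.one_mul,
        Matrix.one_mulVec] at e5
      exact e5
    have e6 : y *ᵥ w' = Y *ᵥ w' := by
      have e8 : (y * e b) *ᵥ w' = (Y * e b) *ᵥ w' := by rw [h4]
      rw [← Matrix.mulVec_mulVec, ← Matrix.mulVec_mulVec, e3] at e8
      exact e8
    have e9 : ∀ x : Matrix ι ι K, x * e (bar b) = e (bar b) * x →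
        x *ᵥ v = e (bar b) *ᵥ (x *ᵥ v) := by
      intro x hx
      have e10 : (x * e (bar b)) *ᵥ v = (e (bar b) * x) *ᵥ v := by rw [hx]
      rw [← Matrix.mulVec_mulVec v x, ← Matrix.mulVec_mulVec v (e (bar b)) x, hvb] at e10
      exact e10
    have e7 : y *ᵥ v - Y *ᵥ v = e (bar b) *ᵥ (y *ᵥ v - Y *ᵥ v) := by
      rw [Matrix.mulVec_sub, ← e9 y (hyD _ (h.mem _)), ← e9 Y (hYD _ (h.mem _))]
    rw [e7, ← h.self, ← e2, map_sub, hY, ← e6, hi, sub_self]

include h hS1 hS hSD hA hJ hdet in
/-- the closure contains every isometry with trivial determinants at the unitary places -/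
theorem iso_mem4 [CharZero K] {Y : Matrix ι ι K}
    (hY : ∀ v w, om J (Y *ᵥ v) (Y *ᵥ w) = om J v w) (hYD : ∀ d ∈ DD, Y * d = d * Y)
    (hYdet : ∀ b, bar b ≠ b → (1 - e b + Y * e b).det = 1) : Y ∈ zar S := by
  have key : ∀ T : Finset B, ∃ z ∈ zar S, ∀ c,
      ((c ∈ T ∨ bar c ∈ T) → z * e c = Y * e c) ∧
      (¬ (c ∈ T ∨ bar c ∈ T) → z * e c = e c) := by
    intro T
    induction T using Finset.induction_on with
    | empty =>
      refine ⟨1, subset_zar S hS1, fun c => ⟨fun hc => ?_, fun _ => one_mul _⟩⟩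
      rcases hc with hc | hc <;> exact absurd hc (Finset.notMem_empty _)
    | insert b T hbT ih =>
      obtain ⟨z, hz, hzc⟩ := ih
      have hzD : ∀ d ∈ DD, z * d = d * z := fun d hd =>
        zar_commute (fun s hs => hSD s hs d hd) hz
      by_cases hbb : bar b ∈ T
      · refine ⟨z, hz, fun c => ⟨fun hc => ?_, fun hc => ?_⟩⟩
        · apply (hzc c).1
          rcases hc with hc | hc
          · rcases Finset.mem_insert.1 hc with rfl | hc
            · exact Or.inr hbb
            · exact Or.inl hc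
          · rcases Finset.mem_insert.1 hc with hc | hc
            · left
              rw [← hc, h.barbar] at hbb
              exact hbb
            · exact Or.inr hc
        · apply (hzc c).2
          rintro (hc' | hc')
          · exact hc (Or.inl (Finset.mem_insert_of_mem hc'))
          · exact hc (Or.inr (Finset.mem_insert_of_mem hc'))
      · obtain ⟨z', hz', h1, h2, h3⟩ := comp_fac h hS1 hS hSD hA hJ hdet hY hYD hYdet b
        have hz'D : ∀ d ∈ DD, z' * d = d * z' := fun d hd =>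
          zar_commute (fun s hs => hSD s hs d hd) hz'
        have hprod : ∀ c, z * e c = e c → z * z' * e c = z' * e c := by
          intro c hc
          rw [mul_assoc, hz'D _ (h.mem c), ← mul_assoc, hc]
        have hb1 : z * e b = e b := (hzc b).2 (by
          rintro (hc | hc)
          · exact hbT hc
          · exact hbb hc)
        have hb2 : z * e (bar b) = e (bar b) := (hzc (bar b)).2 (by
          rintro (hc | hc)
          · exact hbb hc
          · rw [h.barbar] at hc
            exact hbT hc)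
        refine ⟨z * z', zar_mul hS hz hz', fun c => ⟨fun hc => ?_, fun hc => ?_⟩⟩
        · by_cases hcb : c = b
          · subst hcb
            rw [hprod _ hb1, h1]
          by_cases hcb' : c = bar b
          · subst hcb'
            rw [hprod _ hb2, h2]
          rw [mul_assoc, h3 c hcb hcb']
          apply (hzc c).1
          rcases hc with hc | hc
          · rcases Finset.mem_insert.1 hc with hc | hc
            · exact absurd hc hcb
            · exact Or.inl hc
          · rcases Finset.mem_insert.1 hc with hc | hc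
            · exact absurd (by rw [← hc, h.barbar]) hcb'
            · exact Or.inr hc
        · have hcb : c ≠ b := by
            rintro rfl
            exact hc (Or.inl (Finset.mem_insert_self _ _))
          have hcb' : c ≠ bar b := by
            rintro rfl
            rw [h.barbar] at hc
            exact hc (Or.inr (Finset.mem_insert_self _ _))
          rw [mul_assoc, h3 c hcb hcb']
          apply (hzc c).2
          rintro (hc' | hc')
          · exact hc (Or.inl (Finset.mem_insert_of_mem hc'))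
          · exact hc (Or.inr (Finset.mem_insert_of_mem hc'))
  obtain ⟨z, hz, hzc⟩ := key Finset.univ
  have : z = Y := by
    apply h.ext_comm (fun d hd => zar_commute (fun s hs => hSD s hs d hd) hz) hYD
    intro b
    exact (hzc b).1 (Or.inl (Finset.mem_univ b))
  rw [← this]
  exact hz

end

end Pool.Agent.H76U
end

-- from Lib.H76U.Det4
section

/-!
# Determinants on the ranges of idempotents
-/

set_option autoImplicit false
set_option linter.unusedSectionVars false
namespace Pool.Agent.H76U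
open Module Matrix Pool.Agent.H53Toric

variable {ι : Type*} [Fintype ι] [DecidableEq ι] {K : Type*} [Field K]

/-- determinant of `x` on the range of the idempotent `p` (if `x` commutes with `p`) -/
noncomputable def detb (p x : Matrix ι ι K) : K := (1 - p + x * p).det

theorem detb_one (p : Matrix ι ι K) : detb p 1 = 1 := by
  rw [detb, one_mul, sub_add_cancel, Matrix.det_one]

theorem detb_mul {p x y : Matrix ι ι K} (hp : p * p = p) (hy : y * p = p * y) :
    detb p (x * y) = detb p x * detb p y := by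
  rw [detb, detb, detb, ← Matrix.det_mul]
  congr 1
  have h1 : (1 - p + x * p) * (1 - p + y * p) =
      1 - p - p + p * p + (y * p - p * (y * p)) + x * p - x * (p * p) + x * (p * y) * p := by
    noncomm_ring
  rw [h1, ← hy, hp, ← mul_assoc p y p, ← hy]
  have h2 : y * p * p = y * p := by rw [mul_assoc, hp]
  have h3 : x * (y * p) * p = x * y * p := by
    rw [mul_assoc, h2, ← mul_assoc]
  rw [h2, h3]
  abel

theorem detb_inv {p x y : Matrix ι ι K} (hp : p * p = p) (hy : y * p = p * y)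
    (hxy : x * y = 1) : detb p x * detb p y = 1 := by
  rw [← detb_mul hp hy, hxy, detb_one]

theorem detb_hodge {p h : Matrix ι ι K} (hp : p * p = p) (hh : h * h = h) (hhp : h * p = p * h)
    (t : K) : detb p (1 + (t - 1) • h) = t ^ (h * p).rank := by
  rw [detb]
  have h1 : 1 - p + (1 + (t - 1) • h) * p = 1 + (t - 1) • (h * p) := by
    rw [add_mul, one_mul, smul_mul_assoc]
    abel
  rw [h1]
  apply det_one_add_idem
  calc h * p * (h * p) = h * (p * h) * p := by noncomm_ring
    _ = h * h * (p * p) := by rw [← hhp]; noncomm_ring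
    _ = h * p := by rw [hh, hp]

/-- the determinant on the range as a polynomial in the entries -/
noncomputable def pdet (p : Matrix ι ι K) : MvPolynomial (ι × ι) K :=
  (Matrix.of fun i j => MvPolynomial.C ((1 - p) i j) +
    ∑ k, MvPolynomial.X (i, k) * MvPolynomial.C (p k j) : Matrix ι ι (MvPolynomial (ι × ι) K)).det

theorem ev_pdet (p x : Matrix ι ι K) : ev x (pdet p) = detb p x := by
  rw [pdet, detb, ← AlgHom.coe_toRingHom, RingHom.map_det]
  congr 1
  ext i j
  change ev x (MvPolynomial.C ((1 - p) i j) +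
    ∑ k, MvPolynomial.X (i, k) * MvPolynomial.C (p k j)) = _
  rw [map_add, ev_C, map_sum, Matrix.add_apply, Matrix.mul_apply]
  congr 1
  apply Finset.sum_congr rfl
  intro k _
  rw [map_mul, ev_X, ev_C]

/-- the multiplier as a polynomial in the entries -/
noncomputable def pmul (J : Matrix ι ι K) (k l : ι) : MvPolynomial (ι × ι) K :=
  ∑ j, (∑ i, MvPolynomial.X (i, k) * MvPolynomial.C (J i j)) * MvPolynomial.X (j, l)

theorem ev_pmul (J x : Matrix ι ι K) (k l : ι) : ev x (pmul J k l) = (xᵀ * J * x) k l := by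
  rw [pmul, map_sum, Matrix.mul_apply]
  apply Finset.sum_congr rfl
  intro j _
  rw [map_mul, map_sum, ev_X, Matrix.mul_apply]
  congr 1
  apply Finset.sum_congr rfl
  intro i _
  rw [map_mul, ev_X, ev_C, Matrix.transpose_apply]

theorem hodge_mult {J h : Matrix ι ι K} (h1 : hᵀ * J * h = 0) (h2 : hᵀ * J + J * h = J) (t : K) :
    (1 + (t - 1) • h)ᵀ * J * (1 + (t - 1) • h) = t • J := by
  have e : (1 + (t - 1) • h)ᵀ * J * (1 + (t - 1) • h) =
      J + (t - 1) • (hᵀ * J + J * h) + ((t - 1) * (t - 1)) • (hᵀ * J * h) := by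
    rw [Matrix.transpose_add, Matrix.transpose_one, Matrix.transpose_smul]
    simp only [add_mul, mul_add, mul_one, one_mul, smul_mul_assoc, mul_smul_comm]
    module
  rw [e, h1, h2, smul_zero, add_zero]
  module

end Pool.Agent.H76U
end

-- from Lib.H76U.Odd4
section

/-!
# Components of symplectic type with an element of odd rank
-/

set_option autoImplicit false
set_option linter.unusedSectionVars false
namespace Pool.Agent.H76U
open Module Matrix Pool.Agent.H53Toric
open Pool.Agent.H76RM (zar_commute zlie_commute)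

variable {ι : Type*} [Fintype ι] [DecidableEq ι] {K : Type*} [Field K]

/-- elements of the Lie algebra with scalars that are infinitesimal similitudes -/
noncomputable def preL (J : Matrix ι ι K) (S : Set (Matrix ι ι K)) :
    Submodule K (Matrix ι ι K) where
  carrier := {A | (∃ c : K, ∃ C ∈ zlie S, A = C + c • 1) ∧ ∃ c : K, Aᵀ * J + J * A = c • J}
  add_mem' := by
    rintro A A' ⟨⟨c, C, hC, rfl⟩, d, hd⟩ ⟨⟨c', C', hC', rfl⟩, d', hd'⟩
    refine ⟨⟨c + c', C + C', (zlie S).add_mem hC hC', by rw [add_smul]; abel⟩, d + d', ?_⟩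
    rw [add_smul, ← hd, ← hd', Matrix.transpose_add (C + c • 1), add_mul, mul_add]
    abel
  zero_mem' := ⟨⟨0, 0, (zlie S).zero_mem, by simp⟩, 0, by simp⟩
  smul_mem' := by
    rintro a A ⟨⟨c, C, hC, rfl⟩, d, hd⟩
    refine ⟨⟨a * c, a • C, (zlie S).smul_mem _ hC, by rw [smul_add, smul_smul]⟩, a * d, ?_⟩
    rw [Matrix.transpose_smul, smul_mul_assoc, mul_smul_comm, ← smul_add, hd, smul_smul]

theorem preL_bracket {J : Matrix ι ι K} {S : Set (Matrix ι ι K)} {A A' : Matrix ι ι K}
    (hA : A ∈ preL J S) (hA' : A' ∈ preL J S) :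
    A * A' - A' * A ∈ zlie S ∧ (A * A' - A' * A)ᵀ * J + J * (A * A' - A' * A) = 0 := by
  obtain ⟨⟨c, C, hC, hAC⟩, d, hd⟩ := hA
  obtain ⟨⟨c', C', hC', hAC'⟩, d', hd'⟩ := hA'
  constructor
  · have e : A * A' - A' * A = C * C' - C' * C := by
      rw [hAC, hAC']
      simp only [mul_add, add_mul, smul_mul_assoc, mul_smul_comm, mul_one, one_mul]
      module
    rw [e]
    exact zlie_comm hC hC'
  · have h1 : Aᵀ * J = d • J - J * A := eq_sub_of_add_eq hd
    have h2 : A'ᵀ * J = d' • J - J * A' := eq_sub_of_add_eq hd'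
    rw [Matrix.transpose_sub, Matrix.transpose_mul, Matrix.transpose_mul]
    calc (A'ᵀ * Aᵀ - Aᵀ * A'ᵀ) * J + J * (A * A' - A' * A) =
        A'ᵀ * (Aᵀ * J) - Aᵀ * (A'ᵀ * J) + J * (A * A' - A' * A) := by noncomm_ring
      _ = A'ᵀ * (d • J - J * A) - Aᵀ * (d' • J - J * A') + J * (A * A' - A' * A) := by
          rw [h1, h2]
      _ = d • (A'ᵀ * J) - (A'ᵀ * J) * A - d' • (Aᵀ * J) + (Aᵀ * J) * A' +
          J * (A * A' - A' * A) := by
          rw [mul_sub, mul_sub, mul_smul_comm, mul_smul_comm]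
          noncomm_ring
      _ = 0 := by
          rw [h1, h2]
          simp only [sub_mul, smul_sub, smul_mul_assoc, smul_smul, mul_sub, mul_assoc]
          rw [mul_comm d d']
          abel

theorem preL_commute [CharZero K] {J : Matrix ι ι K} {S : Set (Matrix ι ι K)}
    (hS1 : (1 : Matrix ι ι K) ∈ S) {p : Matrix ι ι K} (hSp : ∀ s ∈ S, s * p = p * s)
    {A : Matrix ι ι K} (hA : A ∈ preL J S) : A * p = p * A := by
  obtain ⟨⟨c, C, hC, rfl⟩, -⟩ := hA
  have := zlie_commute hS1 hSp hC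
  rw [add_mul, mul_add, this, smul_mul_assoc, mul_smul_comm, one_mul, mul_one]

/-- compression -/
noncomputable def cmp {n : ℕ} (P : Matrix ι (Fin n) K) (Q : Matrix (Fin n) ι K) :
    Matrix ι ι K →ₗ[K] Matrix (Fin n) (Fin n) K where
  toFun A := Q * A * P
  map_add' := by
    intro A C
    rw [Matrix.mul_add, Matrix.add_mul]
  map_smul' := by
    intro c A
    rw [Matrix.mul_smul, Matrix.smul_mul]
    rfl

theorem cmp_apply {n : ℕ} (P : Matrix ι (Fin n) K) (Q : Matrix (Fin n) ι K)
    (A : Matrix ι ι K) : cmp P Q A = Q * A * P := rfl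

section
variable {n : ℕ} {P : Matrix ι (Fin n) K} {Q : Matrix (Fin n) ι K} {p : Matrix ι ι K}
  (hPQ : p = P * Q) (hQP : Q * P = 1)
include hPQ hQP

theorem p_P : p * P = P := by rw [hPQ, Matrix.mul_assoc, hQP, Matrix.mul_one]

theorem Q_p : Q * p = Q := by rw [hPQ, ← Matrix.mul_assoc, hQP, Matrix.one_mul]

theorem cmp_mul {A C : Matrix ι ι K} (hC : C * p = p * C) :
    cmp P Q (A * C) = cmp P Q A * cmp P Q C := by
  rw [cmp_apply, cmp_apply, cmp_apply]
  calc Q * (A * C) * P = Q * A * (C * P) := by simp only [Matrix.mul_assoc]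
    _ = Q * A * (C * (p * P)) := by rw [p_P hPQ hQP]
    _ = Q * A * (C * p) * P := by simp only [Matrix.mul_assoc]
    _ = Q * A * (p * C) * P := by rw [hC]
    _ = Q * A * (P * Q * C) * P := by rw [hPQ]
    _ = Q * A * P * (Q * C * P) := by simp only [Matrix.mul_assoc]

theorem cmp_one : cmp P Q 1 = 1 := by
  rw [cmp_apply, Matrix.mul_one, hQP]

theorem P_cmp {A : Matrix ι ι K} (hA : A * p = p * A) : P * cmp P Q A = A * P := by
  rw [cmp_apply]
  calc P * (Q * A * P) = (P * Q) * A * P := by simp only [Matrix.mul_assoc]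
    _ = A * p * P := by rw [← hPQ, ← hA]
    _ = A * P := by rw [Matrix.mul_assoc, p_P hPQ hQP]

theorem cmp_Q {A : Matrix ι ι K} (hA : A * p = p * A) : cmp P Q A * Q = Q * A := by
  rw [cmp_apply]
  calc Q * A * P * Q = Q * (A * (P * Q)) := by simp only [Matrix.mul_assoc]
    _ = Q * p * A := by rw [← hPQ, hA, Matrix.mul_assoc]
    _ = Q * A := by rw [Q_p hPQ hQP]

/-- rank of the compression -/
theorem rank_cmp {A : Matrix ι ι K} (hA : A * p = p * A) : (cmp P Q A).rank = (A * p).rank := by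
  apply le_antisymm
  · have h1 : cmp P Q A = Q * ((A * p) * P) := by
      rw [cmp_apply, Matrix.mul_assoc A p, p_P hPQ hQP, Matrix.mul_assoc]
    rw [h1]
    exact (Matrix.rank_mul_le_right _ _).trans (Matrix.rank_mul_le_left _ _)
  · have h1 : A * p = (P * cmp P Q A) * Q := by
      rw [P_cmp hPQ hQP hA, Matrix.mul_assoc, ← hPQ]
    rw [h1]
    exact (Matrix.rank_mul_le_left _ _).trans (Matrix.rank_mul_le_right _ _)

variable {J : Matrix ι ι K} (hpJ : pᵀ * J = J * p)
include hpJ

omit [DecidableEq ι] in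
theorem cmp_form : Qᵀ * (Pᵀ * J * P) = J * P := by
  have h1 : Qᵀ * Pᵀ = pᵀ := by rw [hPQ, Matrix.transpose_mul]
  calc Qᵀ * (Pᵀ * J * P) = (Qᵀ * Pᵀ) * J * P := by simp only [Matrix.mul_assoc]
    _ = J * (p * P) := by rw [h1, hpJ, Matrix.mul_assoc]
    _ = J * P := by rw [hPQ, Matrix.mul_assoc, hQP, Matrix.mul_one]

theorem cmp_sim {A : Matrix ι ι K} (hA : A * p = p * A) :
    (cmp P Q A)ᵀ * (Pᵀ * J * P) + (Pᵀ * J * P) * cmp P Q A = Pᵀ * (Aᵀ * J + J * A) * P := by
  rw [Matrix.mul_add, Matrix.add_mul]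
  congr 1
  · rw [cmp_apply, Matrix.transpose_mul, Matrix.transpose_mul]
    calc Pᵀ * (Aᵀ * Qᵀ) * (Pᵀ * J * P) = Pᵀ * Aᵀ * (Qᵀ * (Pᵀ * J * P)) := by
          simp only [Matrix.mul_assoc]
      _ = Pᵀ * Aᵀ * (J * P) := by rw [cmp_form hPQ hQP hpJ]
      _ = _ := by simp only [Matrix.mul_assoc]
  · calc (Pᵀ * J * P) * cmp P Q A = Pᵀ * J * (P * cmp P Q A) := by
          simp only [Matrix.mul_assoc]
      _ = Pᵀ * J * (A * P) := by rw [P_cmp hPQ hQP hA]
      _ = _ := by simp only [Matrix.mul_assoc]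

theorem om_cmp (v w : Fin n → K) : om (Pᵀ * J * P) v w = om J (P *ᵥ v) (P *ᵥ w) := by
  rw [om_apply, om_apply, Matrix.mulVec_mulVec, ← Matrix.mulVec_mulVec w (Pᵀ * J) P,
    ← Matrix.mulVec_mulVec _ Pᵀ J, Matrix.dotProduct_mulVec v, Matrix.vecMul_transpose,
    Matrix.mulVec_mulVec]

theorem det_cmp (hdet : IsUnit J.det) : IsUnit (Pᵀ * J * P).det := by
  rw [isUnit_iff_ne_zero]
  intro h0
  obtain ⟨v, hv, hv'⟩ := Matrix.exists_mulVec_eq_zero_iff.2 h0
  apply hv
  have h1 : P *ᵥ v = 0 := by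
    apply om_nd hdet
    intro w
    have h5 : ∀ u, om J (p *ᵥ w) u = om J w (p *ᵥ u) := by
      intro u
      rw [om_apply, om_apply, Matrix.mulVec_mulVec _ J p, ← hpJ, ← Matrix.mulVec_mulVec _ pᵀ J,
        Matrix.dotProduct_mulVec w, Matrix.vecMul_transpose]
    have h2 : om J w (P *ᵥ v) = om J (P *ᵥ (Q *ᵥ w)) (P *ᵥ v) := by
      rw [Matrix.mulVec_mulVec _ P Q, ← hPQ, h5, Matrix.mulVec_mulVec _ p P, p_P hPQ hQP]
    rw [h2, ← om_cmp hPQ hQP hpJ, om_apply, hv', dotProduct_zero]
  have h4 : v = Q *ᵥ (P *ᵥ v) := by rw [Matrix.mulVec_mulVec, hQP, Matrix.one_mulVec]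
  rw [h4, h1, Matrix.mulVec_zero]

end

end Pool.Agent.H76U
end
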