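import Mathlib
import Pool.Agent.Lib.H1M.RC.M008
import Pool.Agent.Lib.H1M.RC.M012
import Pool.Agent.Lib.H1M.RC.M013
import Pool.Agent.Lib.H1M.RC.M019

/-! Merged copies (to shorten the build) of Lib.CFT.N02, Lib.CFT.N03, Lib.H45K.K8. -/

-- from Lib.CFT.N02
section

/-! # CFT module N (levels), N02: primes above, Frobenius elements exist, inertia elements lift -/

open NumberField IsDedekindDomain

namespace ST32

section

variable {K : Type} [Field K] [NumberField K] {Om : Type} [Field Om] [Algebra K Om]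

theorem n02_int [Algebra.IsIntegral K Om] : Algebra.IsIntegral (𝓞 K) (𝓞 Om) := by
  constructor
  intro x
  have h1 : IsIntegral ℤ (x : 𝓞 Om) := RingOfIntegers.isIntegral x
  exact h1.tower_top

/-- There is a prime above v. -/
theorem exists_above [Algebra.IsIntegral K Om] (v : CFT.Pr K) : ∃ P : Ideal (𝓞 Om), Above v P := by
  have := n02_int (K := K) (Om := Om)
  have := v.isPrime
  have hinj : Function.Injective (algebraMap (𝓞 K) (𝓞 Om)) := RingOfIntegers.algebraMap.injective K Om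
  obtain ⟨Q, h1, h2⟩ := Ideal.exists_ideal_over_prime_of_isIntegral_of_isDomain (S := 𝓞 Om) v.asIdeal (by
    rw [(RingHom.injective_iff_ker_eq_bot _).1 hinj]
    exact bot_le)
  exact ⟨Q, h1, h2⟩

theorem Above.maximal [Algebra.IsIntegral K Om] {v : CFT.Pr K} {P : Ideal (𝓞 Om)} (h : Above v P) : P.IsMaximal := by
  have := n02_int (K := K) (Om := Om)
  have := h.1
  refine Ideal.isMaximal_of_isIntegral_of_isMaximal_comap (R := 𝓞 K) P ?_
  rw [h.2]
  exact v.isMaximal

/-- There is a Frobenius element at every prime above v. -/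
theorem exists_frobAt [IsGalois K Om] (v : CFT.Pr K) (P : Ideal (𝓞 Om)) (hP : Above v P) :
    ∃ g : Om ≃ₐ[K] Om, FrobAt (CFT.Nm v) P g := by
  have := n02_int (K := K) (Om := Om)
  have hPp := hP.1
  have hPm := hP.maximal
  have := v.isMaximal
  letI : Field (𝓞 K ⧸ v.asIdeal) := Ideal.Quotient.field v.asIdeal
  letI : Field (𝓞 Om ⧸ P) := Ideal.Quotient.field P
  have : Finite (𝓞 K ⧸ v.asIdeal) := Ideal.finiteQuotientOfFreeOfNeBot v.asIdeal v.ne_bot
  letI : Fintype (𝓞 K ⧸ v.asIdeal) := Fintype.ofFinite _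
  haveI : P.LiesOver v.asIdeal := ⟨hP.2.symm⟩
  haveI : Algebra.IsAlgebraic (𝓞 K ⧸ v.asIdeal) (𝓞 Om ⧸ P) := Algebra.IsIntegral.isAlgebraic
  let e := FiniteField.frobeniusAlgEquivOfAlgebraic (𝓞 K ⧸ v.asIdeal) (𝓞 Om ⧸ P)
  have hcard : Fintype.card (𝓞 K ⧸ v.asIdeal) = CFT.Nm v := by
    unfold CFT.Nm
    rw [Ideal.absNorm_apply, Submodule.cardQuot_apply, Nat.card_eq_fintype_card]
  obtain ⟨g, hg⟩ := exists_smul_of_aut K Om P hPp v.asIdeal hP.2 e.toRingEquiv (by
    intro a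
    exact e.commutes (Ideal.Quotient.mk v.asIdeal a))
  refine ⟨g, fun x => ?_⟩
  rw [← Ideal.Quotient.eq_zero_iff_mem, map_sub, sub_eq_zero, hg, map_pow, ← hcard]
  rfl

theorem exists_frv [IsGalois K Om] (v : CFT.Pr K) : ∃ g : Om ≃ₐ[K] Om, IsFrv v g := by
  obtain ⟨P, hP⟩ := exists_above (Om := Om) v
  obtain ⟨g, hg⟩ := exists_frobAt v P hP
  exact ⟨g, P, hP, hg⟩

end

section

variable {K : Type} [Field K] {Om : Type} [Field Om] [Algebra K Om]

/-- Inertia elements lift. -/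
theorem exists_inert_lift [IsGalois K Om] (L : IntermediateField K Om) [Normal K L] (P : Ideal (𝓞 Om)) (hP : P.IsPrime)
    (s : L ≃ₐ[K] L) (hs : ∀ x : 𝓞 L, s • x - x ∈ P.comap (algebraMap (𝓞 L) (𝓞 Om))) :
    ∃ g : Om ≃ₐ[K] Om, Inert P g ∧ AlgEquiv.restrictNormalHom L g = s := by
  obtain ⟨g0, hg0⟩ := AlgEquiv.restrictNormalHom_surjective (F := K) (K₁ := L) Om s
  have hres : ∀ x : 𝓞 L, g0 • (algebraMap (𝓞 L) (𝓞 Om) x) = algebraMap (𝓞 L) (𝓞 Om) (s • x) := by
    intro x
    apply RingOfIntegers.ext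
    have h := AlgEquiv.restrictNormal_commutes g0 L (x : L)
    have h2 : AlgEquiv.restrictNormal g0 L = s := hg0
    rw [h2] at h
    exact h.symm
  -- g0 P and P have the same trace on L
  let Q : Ideal (𝓞 Om) := P.comap (MulSemiringAction.toRingHom (Om ≃ₐ[K] Om) (𝓞 Om) g0)
  have hQmem : ∀ x : 𝓞 Om, x ∈ Q ↔ g0 • x ∈ P := fun x => Iff.rfl
  have hQ : Q.IsPrime := Ideal.IsPrime.comap _
  have htr : Q.comap (algebraMap (𝓞 L) (𝓞 Om)) = P.comap (algebraMap (𝓞 L) (𝓞 Om)) := by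
    ext x
    rw [Ideal.mem_comap, hQmem, hres, ← Ideal.mem_comap]
    have h1 := hs x
    constructor
    · intro h
      have h2 := Ideal.sub_mem _ h h1
      rwa [sub_sub_cancel] at h2
    · intro h
      have h2 := Ideal.add_mem _ h h1
      rwa [add_sub_cancel] at h2
  obtain ⟨n, hn⟩ := exists_smul_eq L Om P Q hP hQ htr.symm
  -- g1 = g0 n stabilises P
  let n' : Om ≃ₐ[K] Om := n.restrictScalars K
  have hn' : ∀ x : 𝓞 Om, n' • x = n • x := fun x => rfl
  have hstab : ∀ x : 𝓞 Om, x ∈ P ↔ (g0 * n') • x ∈ P := by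
    intro x
    rw [hn x, hQmem, mul_smul, hn']
  let f : (𝓞 Om ⧸ P) ≃+* (𝓞 Om ⧸ P) := Ideal.quotientEquiv P P (MulSemiringAction.toRingEquiv (Om ≃ₐ[K] Om) (𝓞 Om) (g0 * n')) (by
    ext x
    constructor
    · intro hx
      refine (Ideal.mem_map_of_equiv _ _).2 ⟨(g0 * n')⁻¹ • x, ?_, ?_⟩
      · rw [hstab, smul_inv_smul]
        exact hx
      · exact smul_inv_smul (g0 * n') x
    · intro hx
      obtain ⟨y, hy, rfl⟩ := (Ideal.mem_map_of_equiv _ _).1 hx
      exact (hstab y).1 hy)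
  have hf : ∀ x : 𝓞 Om, f (Ideal.Quotient.mk P x) = Ideal.Quotient.mk P ((g0 * n') • x) := fun x => Ideal.quotientEquiv_mk _ _ _ _ x
  have hnL : ∀ x : 𝓞 L, n • (algebraMap (𝓞 L) (𝓞 Om) x) = algebraMap (𝓞 L) (𝓞 Om) x := by
    intro x
    apply RingOfIntegers.ext
    exact n.commutes (x : L)
  obtain ⟨h, hh⟩ := exists_smul_of_aut L Om P hP _ rfl f (by
    intro a
    rw [hf, mul_smul, hn', hnL, hres, ← sub_eq_zero, ← map_sub, Ideal.Quotient.eq_zero_iff_mem, ← map_sub]
    exact hs a)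
  let h' : Om ≃ₐ[K] Om := h.restrictScalars K
  have hh' : ∀ x : 𝓞 Om, h' • x = h • x := fun x => rfl
  refine ⟨(g0 * n') * h'⁻¹, ?_, ?_⟩
  · intro x
    have e1 := hh (h⁻¹ • x)
    rw [smul_inv_smul, hf] at e1
    rw [← Ideal.Quotient.eq_zero_iff_mem, map_sub, sub_eq_zero, e1, mul_smul]
    rfl
  · have e1 : ∀ t : Om ≃ₐ[L] Om, AlgEquiv.restrictNormalHom L (t.restrictScalars K) = (1 : L ≃ₐ[K] L) := by
      intro t
      refine AlgEquiv.ext fun x => ?_
      have h := AlgEquiv.restrictNormal_commutes (t.restrictScalars K) L x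
      apply (algebraMap L Om).injective
      refine h.trans ?_
      exact t.commutes x
    rw [map_mul, map_mul, map_inv, e1, e1, mul_one, inv_one, mul_one, hg0]

end

end ST32
end

-- from Lib.CFT.N03
section

/-! # CFT module N (levels), N03: the finite abelian layer cut out by a character with open kernel -/

open NumberField IsDedekindDomain

namespace ST32

section

variable {K : Type} [Field K] {Om : Type} [Field Om] [Algebra K Om]

theorem layer [IsGalois K Om] {A : Type} [CommGroup A] (χ : (Om ≃ₐ[K] Om) →* A) (hχ : IsOpen (χ.ker : Set (Om ≃ₐ[K] Om))) :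
    ∃ (L : IntermediateField K Om) (_ : FiniteDimensional K L) (_ : IsGalois K L) (χL : (L ≃ₐ[K] L) →* A),
      Function.Injective χL ∧ ∀ g : Om ≃ₐ[K] Om, χL (AlgEquiv.restrictNormalHom L g) = χ g := by
  let H : ClosedSubgroup (Om ≃ₐ[K] Om) := ⟨χ.ker, Subgroup.isClosed_of_isOpen _ hχ⟩
  let L : IntermediateField K Om := IntermediateField.fixedField χ.ker
  have hfix : L.fixingSubgroup = χ.ker := InfiniteGalois.fixingSubgroup_fixedField H
  have h2 : IsOpen L.fixingSubgroup.carrier ∧ L.fixingSubgroup.Normal := by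
    rw [hfix]
    exact ⟨hχ, MonoidHom.normal_ker χ⟩
  obtain ⟨hfd, hgal⟩ := (InfiniteGalois.isOpen_and_normal_iff_finite_and_isGalois L).1 h2
  have hsurj : Function.Surjective (AlgEquiv.restrictNormalHom L : (Om ≃ₐ[K] Om) →* (L ≃ₐ[K] L)) :=
    AlgEquiv.restrictNormalHom_surjective Om
  have hker : (AlgEquiv.restrictNormalHom L : (Om ≃ₐ[K] Om) →* (L ≃ₐ[K] L)).ker = χ.ker := by
    rw [IntermediateField.restrictNormalHom_ker, hfix]
  let e := QuotientGroup.quotientKerEquivOfSurjective (AlgEquiv.restrictNormalHom L : (Om ≃ₐ[K] Om) →* (L ≃ₐ[K] L)) hsurj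
  let χL : (L ≃ₐ[K] L) →* A := (QuotientGroup.lift _ χ hker.le).comp e.symm.toMonoidHom
  have hcomp : ∀ g : Om ≃ₐ[K] Om, χL (AlgEquiv.restrictNormalHom L g) = χ g := by
    intro g
    have h3 : e.symm (AlgEquiv.restrictNormalHom L g) = (g : (Om ≃ₐ[K] Om) ⧸ _) := by
      rw [MulEquiv.symm_apply_eq]
      rfl
    show QuotientGroup.lift _ χ hker.le (e.symm (AlgEquiv.restrictNormalHom L g)) = χ g
    rw [h3]
    rfl
  refine ⟨L, hfd, hgal, χL, ?_, hcomp⟩
  rw [injective_iff_map_eq_one]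
  intro s hs
  obtain ⟨g, rfl⟩ := hsurj s
  rw [hcomp] at hs
  have h4 : g ∈ (AlgEquiv.restrictNormalHom L : (Om ≃ₐ[K] Om) →* (L ≃ₐ[K] L)).ker := by
    rw [hker]
    exact hs
  exact h4

end

section

variable {K : Type} [Field K] [NumberField K] {Om : Type} [Field Om] [Algebra K Om]

omit [NumberField K] in
/-- The prime of a layer below a prime of the ring of all algebraic integers. -/
theorem exists_mid (L : IntermediateField K Om) [NumberField L] {v : CFT.Pr K} {P : Ideal (𝓞 Om)} (hP : Above v P) :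
    ∃ w : CFT.Pr L, CFT.below K w = v ∧ w.asIdeal = P.comap (algebraMap (𝓞 L) (𝓞 Om)) := by
  have hPp := hP.1
  have htow : (algebraMap (𝓞 L) (𝓞 Om)).comp (algebraMap (𝓞 K) (𝓞 L)) = algebraMap (𝓞 K) (𝓞 Om) := rfl
  have hcm : (P.comap (algebraMap (𝓞 L) (𝓞 Om))).comap (algebraMap (𝓞 K) (𝓞 L)) = v.asIdeal := by
    rw [Ideal.comap_comap, htow, hP.2]
  refine ⟨⟨P.comap (algebraMap (𝓞 L) (𝓞 Om)), Ideal.IsPrime.comap _, ?_⟩, ?_, rfl⟩
  · intro h
    rw [h] at hcm
    apply v.ne_bot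
    rw [← hcm, ← RingHom.ker_eq_comap_bot]
    exact (RingHom.injective_iff_ker_eq_bot _).1 (RingOfIntegers.algebraMap.injective K L)
  · exact HeightOneSpectrum.ext hcm

theorem unr_layer [IsGalois K Om] (L : IntermediateField K Om) [NumberField L] [IsGalois K L] {A : Type} [CommGroup A]
    (χ : (Om ≃ₐ[K] Om) →* A) (χL : (L ≃ₐ[K] L) →* A) (hinj : Function.Injective χL)
    (hcomp : ∀ g : Om ≃ₐ[K] Om, χL (AlgEquiv.restrictNormalHom L g) = χ g) (v : CFT.Pr K) (hv : UnrV χ v) : CFT.Unr K L v := by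
  intro w hw
  apply CFT.unr_of_inertia w
  intro s hs
  obtain ⟨P, hP⟩ := exists_above (Om := Om) w
  have hPv : Above v P := by
    refine ⟨hP.1, ?_⟩
    have htow : (algebraMap (𝓞 L) (𝓞 Om)).comp (algebraMap (𝓞 K) (𝓞 L)) = algebraMap (𝓞 K) (𝓞 Om) := rfl
    rw [← htow, ← Ideal.comap_comap, hP.2, ← hw]
    rfl
  obtain ⟨g, hg1, hg2⟩ := exists_inert_lift L P hP.1 s (by
    intro x
    rw [hP.2]
    exact hs x)
  have h1 := hv P hPv g hg1
  rw [← hcomp, hg2] at h1
  exact hinj (h1.trans (map_one χL).symm)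

theorem frob_layer [IsGalois K Om] (L : IntermediateField K Om) [NumberField L] [IsGalois K L] (hab : ∀ a b : L ≃ₐ[K] L, a * b = b * a)
    {v : CFT.Pr K} (hv : CFT.Unr K L v) {g : Om ≃ₐ[K] Om} (hg : IsFrv v g) :
    CFT.frob K L v = AlgEquiv.restrictNormalHom L g := by
  obtain ⟨P, hP, hg⟩ := hg
  obtain ⟨w, hw, hwP⟩ := exists_mid L hP
  refine CFT.frob_eq_of_one hab hv w hw fun x => ?_
  rw [hwP, Ideal.mem_comap, map_sub, map_pow]
  have h1 := hg (algebraMap (𝓞 L) (𝓞 Om) x)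
  have h2 : g • (algebraMap (𝓞 L) (𝓞 Om) x) = algebraMap (𝓞 L) (𝓞 Om) ((AlgEquiv.restrictNormalHom L g) • x) := by
    apply RingOfIntegers.ext
    exact (AlgEquiv.restrictNormal_commutes g L (x : L)).symm
  rw [← h2]
  exact h1

end

end ST32
end

-- from Lib.H45K.K8
section

/-! # H45K, K8: the conjugates of a generator of a prime ideal of degree one -/

set_option autoImplicit false
set_option linter.unusedSectionVars false

namespace H45K

open NumberField CFT

variable {F : Type} [Field F] [NumberField F] {w : Pr F} {π : F} {p : ℕ}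

theorem pi_ne (hπ : dv π = Finsupp.single w 1) : π ≠ 0 := by
  rintro rfl
  have h3 := congrArg (fun f : Dv F => f w) hπ
  simp only [dv_apply, od_zero, Finsupp.single_eq_same] at h3
  exact zero_ne_one h3

theorem norm_pi (hπ : dv π = Finsupp.single w 1) (hw : Nm w = p) : |Algebra.norm ℚ π| = p := by
  rw [← nD_dv (pi_ne hπ), hπ]
  unfold nD
  rw [Finsupp.prod_single_index (by simp)]
  rw [hw]
  simp

theorem pi_int (hπ : dv π = Finsupp.single w 1) : IsIntegral ℤ π := by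
  classical
  obtain ⟨r, hr⟩ := int_of_od (x := π) fun v => by
    rw [← dv_apply, hπ, Finsupp.single_apply]
    split_ifs
    · exact zero_le_one
    · exact le_refl _
  rw [← hr]
  exact RingOfIntegers.isIntegral_coe r

theorem adj_top (hπ : dv π = Finsupp.single w 1) (hp : p.Prime) (hw : Nm w = p) : IntermediateField.adjoin ℚ {π} = ⊤ := by
  have h1 := Algebra.norm_eq_norm_adjoin ℚ π
  have hint : IsIntegral ℤ (IntermediateField.AdjoinSimple.gen ℚ π) := by
    have h2 : IsIntegral ℤ (algebraMap (IntermediateField.adjoin ℚ {π}) F (IntermediateField.AdjoinSimple.gen ℚ π)) := by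
      rw [IntermediateField.AdjoinSimple.algebraMap_gen]
      exact pi_int hπ
    exact (isIntegral_algebraMap_iff (algebraMap (IntermediateField.adjoin ℚ {π}) F).injective).1 h2
  obtain ⟨m, hm⟩ := IsIntegrallyClosed.isIntegral_iff.1 (Algebra.isIntegral_norm ℚ hint)
  have hpow : (m.natAbs) ^ Module.finrank (IntermediateField.adjoin ℚ {π}) F = p := by
    have h3 : |(algebraMap ℤ ℚ m)| ^ Module.finrank (IntermediateField.adjoin ℚ {π}) F = p := by
      have h8 := norm_pi hπ hw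
      rw [h1, abs_pow] at h8
      rw [hm]
      exact h8
    have h4 : |(algebraMap ℤ ℚ m)| = ((m.natAbs : ℕ) : ℚ) := by
      rw [Nat.cast_natAbs]
      simp
    rw [h4] at h3
    exact_mod_cast h3
  have hk : Module.finrank (IntermediateField.adjoin ℚ {π}) F = 1 := by
    have h5 : Prime p := hp.prime
    by_contra hne
    have h6 : ¬ (Module.finrank (IntermediateField.adjoin ℚ {π}) F = 0) := by
      have : 0 < Module.finrank (IntermediateField.adjoin ℚ {π}) F := Module.finrank_pos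
      omega
    have h7 : 2 ≤ Module.finrank (IntermediateField.adjoin ℚ {π}) F := by omega
    exact (Nat.Prime.not_prime_pow h7) (hpow ▸ hp)
  exact IntermediateField.finrank_eq_one_iff_eq_top.1 hk

variable {Om : Type*} [Field Om] [CharZero Om] [IsAlgClosed Om] {R : Finset Om}

theorem inj_pi (hπ : dv π = Finsupp.single w 1) (hp : p.Prime) (hw : Nm w = p) :
    Function.Injective fun τ : F →ₐ[ℚ] Om => τ π := by
  intro τ τ' h
  have h1 : Algebra.adjoin ℚ {π} = ⊤ := by
    rw [← IntermediateField.adjoin_simple_toSubalgebra_of_isAlgebraic (IsAlgebraic.of_finite ℚ π), adj_top hπ hp hw,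
      IntermediateField.top_toSubalgebra]
  refine AlgHom.ext_of_adjoin_eq_top h1 fun x hx => ?_
  rw [Set.mem_singleton_iff.1 hx]
  exact h


/-- K8b. Their product is the norm. -/
theorem prod_R (hπ : dv π = Finsupp.single w 1) (hp : p.Prime) (hw : Nm w = p) (hR : ∀ x, x ∈ R ↔ ∃ τ : F →+* Om, τ π = x) :
    ∏ r ∈ R, r = (p : Om) ∨ ∏ r ∈ R, r = -(p : Om) := by
  classical
  have h1 : ∏ r ∈ R, r = ∏ τ : F →ₐ[ℚ] Om, τ π := by
    symm
    refine Finset.prod_bij (fun τ _ => τ π) (fun τ _ => (hR _).2 ⟨τ, rfl⟩) (fun a _ b _ h => inj_pi hπ hp hw h) (fun x hx => ?_)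
      fun _ _ => rfl
    obtain ⟨τ, hτ⟩ := (hR x).1 hx
    exact ⟨τ.toRatAlgHom, Finset.mem_univ _, hτ⟩
  rw [h1, ← Algebra.norm_eq_prod_embeddings ℚ Om π]
  have h2 := norm_pi hπ hw
  rcases abs_eq (Nat.cast_nonneg p) |>.1 h2 with h3 | h3
  · left
    rw [h3, map_natCast]
  · right
    rw [h3, map_neg, map_natCast]

/-- K8c. If the values of the conjugates are integers, exactly one is 1 and the others are 0. -/
theorem rval {K : Type*} [Field K] [CharZero K] {v : K → ℚ} (hv : IsV v) (h1 : v (p : K) = 1) (hπ : dv π = Finsupp.single w 1)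
    (hp : p.Prime) (hw : Nm w = p) (hR : ∀ x, x ∈ R ↔ ∃ τ : F →+* Om, τ π = x) (i : Om →+* K)
    (hZ : ∀ r ∈ R, ∃ n : ℤ, v (i r) = n) : ∃ r ∈ R, v (i r) = 1 ∧ ∀ r' ∈ R, r' ≠ r → v (i r') = 0 := by
  classical
  have hint : ∀ r ∈ R, IsIntegral ℤ (i r) := by
    intro r hr
    obtain ⟨τ, rfl⟩ := (hR r).1 hr
    exact (pi_int hπ).map (i.comp τ).toIntAlgHom
  have hne : ∀ r ∈ R, i r ≠ 0 := by
    intro r hr
    obtain ⟨τ, rfl⟩ := (hR r).1 hr
    exact (map_ne_zero i).2 ((map_ne_zero τ).2 (pi_ne hπ))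
  have hnn : ∀ r ∈ R, 0 ≤ v (i r) := fun r hr => (hv.nn_integral (hint r hr)).resolve_left (hne r hr)
  have hprod : ∀ T : Finset Om, T ⊆ R → v (i (∏ r ∈ T, r)) = ∑ r ∈ T, v (i r) := by
    intro T
    induction T using Finset.induction_on with
    | empty =>
      intro _
      rw [Finset.prod_empty, map_one, hv.one, Finset.sum_empty]
    | insert a T ha ih =>
      intro hT
      rw [Finset.prod_insert ha, map_mul, Finset.sum_insert ha, ← ih fun x hx => hT (Finset.mem_insert_of_mem hx)]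
      refine hv.mul _ _ (hne a (hT (Finset.mem_insert_self a T))) ?_
      rw [map_prod]
      exact Finset.prod_ne_zero_iff.2 fun x hx => hne x (hT (Finset.mem_insert_of_mem hx))
  have hp0 : (p : K) ≠ 0 := Nat.cast_ne_zero.2 hp.ne_zero
  have hsum : ∑ r ∈ R, v (i r) = 1 := by
    rw [← hprod R (Finset.Subset.refl R)]
    rcases prod_R hπ hp hw hR with h | h
    · rw [h, map_natCast, h1]
    · rw [h, map_neg, map_natCast, hv.neg hp0, h1]
  choose! n hn using hZ
  have hn0 : ∀ r ∈ R, 0 ≤ n r := by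
    intro r hr
    have h2 := hnn r hr
    rw [hn r hr] at h2
    exact_mod_cast h2
  have hnsum : ∑ r ∈ R, n r = 1 := by
    have h2 : ∑ r ∈ R, v (i r) = ∑ r ∈ R, ((n r : ℤ) : ℚ) := Finset.sum_congr rfl hn
    rw [hsum] at h2
    exact_mod_cast h2.symm
  obtain ⟨r, hr, hr1⟩ : ∃ r ∈ R, n r ≠ 0 := by
    by_contra hcon
    push Not at hcon
    rw [Finset.sum_eq_zero hcon] at hnsum
    exact zero_ne_one hnsum
  have h3 : n r + ∑ r' ∈ R.erase r, n r' = 1 := by
    rw [Finset.add_sum_erase R n hr]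
    exact hnsum
  have h4 : 0 ≤ ∑ r' ∈ R.erase r, n r' := Finset.sum_nonneg fun x hx => hn0 x (Finset.mem_of_mem_erase hx)
  have h5 : 1 ≤ n r := by
    have := hn0 r hr
    omega
  have h6 : n r = 1 := by omega
  have h7 : ∑ r' ∈ R.erase r, n r' = 0 := by omega
  refine ⟨r, hr, ?_, fun r' hr' hne' => ?_⟩
  · rw [hn r hr, h6, Int.cast_one]
  · have h8 := (Finset.sum_eq_zero_iff_of_nonneg fun x hx => hn0 x (Finset.mem_of_mem_erase hx)).1 h7 r'
      (Finset.mem_erase.2 ⟨hne', hr'⟩)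
    rw [hn r' hr', h8, Int.cast_zero]

/-- The set `R` is stable under the automorphisms of `Om`. -/
theorem R_stab (hR : ∀ x, x ∈ R ↔ ∃ τ : F →+* Om, τ π = x) (s : Om ≃+* Om) {r : Om} (hr : r ∈ R) : s r ∈ R := by
  obtain ⟨τ, rfl⟩ := (hR r).1 hr
  exact (hR _).2 ⟨(s : Om →+* Om).comp τ, rfl⟩

end H45K
end
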