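import Pool.Agent.Lib.H1M.RC.M016

/-! Merged copies (to shorten the build) of Lib.H49M.A3, Lib.H49M.A3s, Lib.H49M.A3v, Lib.H49M.K1, Lib.H49M.K2, Lib.H49M.K3, Lib.H49M.P0, Lib.H49M.P2. -/

-- from Lib.H49M.A3
section

/-!
# A3: the graded pieces are irreducible
-/

set_option autoImplicit false
set_option linter.unusedSectionVars false
namespace Pool.Agent.H49M
open Module Pool.Agent.H53Toric

variable {K : Type*} [Field K] {V : Type*} [AddCommGroup V] [Module K V]

variable {L : Submodule K (Module.End K V)} {ω : V →ₗ[K] V →ₗ[K] K}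
  {adj : Module.End K V →ₗ[K] Module.End K V}

theorem A3_pm [CharZero K] (h : Core L ω adj) {s X Y : Module.End K V} (hX : X ∈ Lp L s)
    (hY : Y ∈ Lm L s) : X * Y - Y * X ∈ L0 L s := by
  refine ⟨h.lie X hX.1 Y hY.1, ?_⟩
  rw [mul_sub, sub_mul, ← mul_assoc, ← mul_assoc, hX.2.1, hY.2.1, mul_assoc X Y s, hY.2.2,
    mul_assoc Y X s, hX.2.2]
  noncomm_ring

theorem A3_0m (h : Core L ω adj) {s Z Y : Module.End K V} (hZ : Z ∈ L0 L s)
    (hY : Y ∈ Lm L s) : Z * Y - Y * Z ∈ Lm L s := by
  refine ⟨h.lie Z hZ.1 Y hY.1, ?_, ?_⟩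
  · rw [mul_sub, ← mul_assoc, ← mul_assoc, hZ.2, hY.2.1, mul_assoc, hY.2.1]
    noncomm_ring
  · rw [sub_mul, mul_assoc, mul_assoc, ← hZ.2, hY.2.2, ← mul_assoc, hY.2.2]

theorem A3_0p (h : Core L ω adj) {s Z X : Module.End K V} (hZ : Z ∈ L0 L s)
    (hX : X ∈ Lp L s) : Z * X - X * Z ∈ Lp L s := by
  refine ⟨h.lie Z hZ.1 X hX.1, ?_, ?_⟩
  · rw [mul_sub, ← mul_assoc, ← mul_assoc, hZ.2, hX.2.1, mul_assoc, hX.2.1]
  · rw [sub_mul, mul_assoc, mul_assoc, ← hZ.2, hX.2.2, ← mul_assoc, hX.2.2]
    noncomm_ring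

/-- Chunk A3. Write `[X, Y] = X Y - Y X`. Let `I` be the span of `𝒳`, of all `[X, Y]` and of all
`[[X, Y], Y']` with `X ∈ 𝒳`, `Y, Y' ∈ Lm`. It is an ideal of `L`: by `A2_decomp` it is enough
to bracket with `Z ∈ Lp, L0, Lm`.
`Z ∈ L0`: Jacobi, `[L0, 𝒳] ⊆ 𝒳`, `[L0, Lm] ⊆ Lm`.
`Z ∈ Lm`: clear, and `[[[X, Y], Y'], Z] = 0` because `[[X,Y],Y'] ∈ Lm` and `Lm Lm = 0`.
`Z ∈ Lp`: `[Z, X] = 0`; `[Z, [X, Y]] = [X, [Z, Y]]` (as `[Z, X] = 0`) and `[Z, Y] ∈ L0`, so this
is in `𝒳`; `[Z, [[X, Y], Y']] = [[Z, [X, Y]], Y'] + [[X, Y], [Z, Y']]`, the first is in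
`[𝒳, Lm]`, the second is `[[X,Y],W]`, `W = [Z, Y'] ∈ L0`, which is in `[𝒳, Lm]` by Jacobi.
`I ≠ 0`, so `I = L` by simplicity. Every element of `I` is `x + b + c` with `x ∈ 𝒳`, `b ∈ L0`,
`c ∈ Lm`; an element `a` of `Lp` of this form equals `x`: apply `T ↦ (1 + s) T (1 - s)`, which is
multiplication by `4` on `Lp` and zero on `L0` and `Lm`. -/
theorem A3_irr [CharZero K] [IsAlgClosed K] [FiniteDimensional K V] [Nontrivial V]
    (h : Core L ω adj) {s : Module.End K V} (hs : s ∈ L) (hs2 : s * s = 1)
    {X₀ : Submodule K (Module.End K V)} (hle : X₀ ≤ Lp L s) (h0 : X₀ ≠ ⊥)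
    (hst : ∀ Z ∈ L0 L s, ∀ X ∈ X₀, Z * X - X * Z ∈ X₀) : X₀ = Lp L s := by
  let S : Set (Module.End K V) := {T | T ∈ X₀ ∨ (∃ X ∈ X₀, ∃ Y ∈ Lm L s, T = X * Y - Y * X) ∨
    ∃ X ∈ X₀, ∃ Y ∈ Lm L s, ∃ Y' ∈ Lm L s,
      T = (X * Y - Y * X) * Y' - Y' * (X * Y - Y * X)}
  have hS1 : ∀ X ∈ X₀, X ∈ Submodule.span K S := fun X hX =>
    Submodule.subset_span (Or.inl hX)
  have hS2 : ∀ X ∈ X₀, ∀ Y ∈ Lm L s, X * Y - Y * X ∈ Submodule.span K S := fun X hX Y hY =>
    Submodule.subset_span (Or.inr (Or.inl ⟨X, hX, Y, hY, rfl⟩))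
  have hS3 : ∀ X ∈ X₀, ∀ Y ∈ Lm L s, ∀ Y' ∈ Lm L s,
      (X * Y - Y * X) * Y' - Y' * (X * Y - Y * X) ∈ Submodule.span K S :=
    fun X hX Y hY Y' hY' => Submodule.subset_span (Or.inr (Or.inr ⟨X, hX, Y, hY, Y', hY', rfl⟩))
  have hSL : Submodule.span K S ≤ L := by
    refine Submodule.span_le.2 ?_
    rintro T (hT | ⟨X, hX, Y, hY, rfl⟩ | ⟨X, hX, Y, hY, Y', hY', rfl⟩)
    · exact (hle hT).1
    · exact h.lie X (hle hX).1 Y hY.1
    · exact h.lie _ (h.lie X (hle hX).1 Y hY.1) Y' hY'.1
  -- brackets with the three parts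
  have b0 : ∀ Z ∈ L0 L s, ∀ T ∈ S, Z * T - T * Z ∈ Submodule.span K S := by
    rintro Z hZ T (hT | ⟨X, hX, Y, hY, rfl⟩ | ⟨X, hX, Y, hY, Y', hY', rfl⟩)
    · exact hS1 _ (hst Z hZ T hT)
    · have e : Z * (X * Y - Y * X) - (X * Y - Y * X) * Z =
          ((Z * X - X * Z) * Y - Y * (Z * X - X * Z)) +
          (X * (Z * Y - Y * Z) - (Z * Y - Y * Z) * X) := by noncomm_ring
      rw [e]
      exact Submodule.add_mem _ (hS2 _ (hst Z hZ X hX) Y hY) (hS2 X hX _ (A3_0m h hZ hY))
    · have e : Z * ((X * Y - Y * X) * Y' - Y' * (X * Y - Y * X)) -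
          ((X * Y - Y * X) * Y' - Y' * (X * Y - Y * X)) * Z =
          (((Z * X - X * Z) * Y - Y * (Z * X - X * Z)) * Y' -
            Y' * ((Z * X - X * Z) * Y - Y * (Z * X - X * Z))) +
          ((X * (Z * Y - Y * Z) - (Z * Y - Y * Z) * X) * Y' -
            Y' * (X * (Z * Y - Y * Z) - (Z * Y - Y * Z) * X)) +
          ((X * Y - Y * X) * (Z * Y' - Y' * Z) - (Z * Y' - Y' * Z) * (X * Y - Y * X)) := by
        noncomm_ring
      rw [e]
      exact Submodule.add_mem _ (Submodule.add_mem _ (hS3 _ (hst Z hZ X hX) Y hY Y' hY')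
        (hS3 X hX _ (A3_0m h hZ hY) Y' hY')) (hS3 X hX Y hY _ (A3_0m h hZ hY'))
  have bm : ∀ Z ∈ Lm L s, ∀ T ∈ S, Z * T - T * Z ∈ Submodule.span K S := by
    rintro Z hZ T (hT | ⟨X, hX, Y, hY, rfl⟩ | ⟨X, hX, Y, hY, Y', hY', rfl⟩)
    · have := Submodule.neg_mem _ (hS2 T hT Z hZ)
      rwa [neg_sub] at this
    · have := Submodule.neg_mem _ (hS3 X hX Y hY Z hZ)
      rwa [neg_sub] at this
    · have h1 := A3_0m h (A3_pm h (hle hX) hY) hY'
      rw [A2_mm hZ h1, A2_mm h1 hZ, sub_self]
      exact Submodule.zero_mem _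
  have bp : ∀ Z ∈ Lp L s, ∀ T ∈ S, Z * T - T * Z ∈ Submodule.span K S := by
    have key : ∀ Z ∈ Lp L s, ∀ X ∈ X₀, ∀ Y ∈ Lm L s,
        Z * (X * Y - Y * X) - (X * Y - Y * X) * Z =
          -((Z * Y - Y * Z) * X - X * (Z * Y - Y * Z)) := by
      intro Z hZ X hX Y hY
      have e : Z * (X * Y - Y * X) - (X * Y - Y * X) * Z =
          ((Z * X - X * Z) * Y - Y * (Z * X - X * Z)) -
          ((Z * Y - Y * Z) * X - X * (Z * Y - Y * Z)) := by noncomm_ring
      rw [e, A2_pp hZ (hle hX), A2_pp (hle hX) hZ]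
      noncomm_ring
    rintro Z hZ T (hT | ⟨X, hX, Y, hY, rfl⟩ | ⟨X, hX, Y, hY, Y', hY', rfl⟩)
    · rw [A2_pp hZ (hle hT), A2_pp (hle hT) hZ, sub_self]
      exact Submodule.zero_mem _
    · rw [key Z hZ X hX Y hY]
      exact Submodule.neg_mem _ (hS1 _ (hst _ (A3_pm h hZ hY) X hX))
    · have e : Z * ((X * Y - Y * X) * Y' - Y' * (X * Y - Y * X)) -
          ((X * Y - Y * X) * Y' - Y' * (X * Y - Y * X)) * Z =
          ((Z * (X * Y - Y * X) - (X * Y - Y * X) * Z) * Y' -
            Y' * (Z * (X * Y - Y * X) - (X * Y - Y * X) * Z)) -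
          (((Z * Y' - Y' * Z) * X - X * (Z * Y' - Y' * Z)) * Y -
            Y * ((Z * Y' - Y' * Z) * X - X * (Z * Y' - Y' * Z))) -
          (X * ((Z * Y' - Y' * Z) * Y - Y * (Z * Y' - Y' * Z)) -
            ((Z * Y' - Y' * Z) * Y - Y * (Z * Y' - Y' * Z)) * X) := by noncomm_ring
      rw [e, key Z hZ X hX Y hY]
      have hW := A3_pm h hZ hY'
      have e2 : -((Z * Y - Y * Z) * X - X * (Z * Y - Y * Z)) * Y' -
          Y' * -((Z * Y - Y * Z) * X - X * (Z * Y - Y * Z)) =
          -(((Z * Y - Y * Z) * X - X * (Z * Y - Y * Z)) * Y' -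
          Y' * ((Z * Y - Y * Z) * X - X * (Z * Y - Y * Z))) := by noncomm_ring
      rw [e2]
      exact Submodule.sub_mem _ (Submodule.sub_mem _ (Submodule.neg_mem _
        (hS2 _ (hst _ (A3_pm h hZ hY) X hX) Y' hY')) (hS2 _ (hst _ hW X hX) Y hY))
        (hS2 X hX _ (A3_0m h hW hY))
  have hid : ∀ Z ∈ L, ∀ T ∈ Submodule.span K S, Z * T - T * Z ∈ Submodule.span K S := by
    intro Z hZ T hT
    obtain ⟨a, ha, b, hb, c, hc, rfl⟩ := A2_decomp h hs hs2 hZ
    induction hT using Submodule.span_induction with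
    | mem T hT =>
      have e : (a + b + c) * T - T * (a + b + c) = (a * T - T * a) + (b * T - T * b) +
          (c * T - T * c) := by noncomm_ring
      rw [e]
      exact Submodule.add_mem _ (Submodule.add_mem _ (bp a ha T hT) (b0 b hb T hT))
        (bm c hc T hT)
    | zero => simp
    | add x y _ _ hx hy =>
      have e : (a + b + c) * (x + y) - (x + y) * (a + b + c) =
          ((a + b + c) * x - x * (a + b + c)) + ((a + b + c) * y - y * (a + b + c)) := by
        noncomm_ring
      rw [e]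
      exact Submodule.add_mem _ hx hy
    | smul r x _ hx =>
      rw [mul_smul_comm, smul_mul_assoc, ← smul_sub]
      exact Submodule.smul_mem _ r hx
  have hL : L ≤ Submodule.span K S := by
    rcases h.simple _ hSL hid with h1 | h1
    · exfalso
      apply h0
      rw [eq_bot_iff, ← h1]
      exact hS1
    · exact h1.ge
  have hφ : ∀ T ∈ Submodule.span K S, (1 + s) * T * (1 - s) ∈ X₀ := by
    intro T hT
    induction hT using Submodule.span_induction with
    | mem T hT =>
      rcases hT with hT | ⟨X, hX, Y, hY, rfl⟩ | ⟨X, hX, Y, hY, Y', hY', rfl⟩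
      · have e : (1 + s) * T * (1 - s) = (4 : K) • T := by
          have : (1 + s) * T * (1 - s) = T + s * T - T * s - (s * T) * s := by noncomm_ring
          rw [this, (hle hT).2.1, (hle hT).2.2]
          module
        rw [e]
        exact X₀.smul_mem _ hT
      · have h1 := A3_pm h (hle hX) hY
        have e : (1 + s) * (X * Y - Y * X) * (1 - s) = 0 := by
          generalize X * Y - Y * X = Z at h1
          have : (1 + s) * Z * (1 - s) = Z - Z * s + s * Z - (s * Z) * s := by noncomm_ring
          rw [this, h1.2, mul_assoc, hs2]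
          noncomm_ring
        rw [e]
        exact X₀.zero_mem
      · have h1 := A3_0m h (A3_pm h (hle hX) hY) hY'
        have e : (1 + s) * ((X * Y - Y * X) * Y' - Y' * (X * Y - Y * X)) * (1 - s) = 0 := by
          generalize (X * Y - Y * X) * Y' - Y' * (X * Y - Y * X) = Z at h1
          have : (1 + s) * Z * (1 - s) = (Z + s * Z) * (1 - s) := by noncomm_ring
          rw [this, h1.2.1]
          simp
        rw [e]
        exact X₀.zero_mem
    | zero => simp
    | add x y _ _ hx hy =>
      rw [mul_add, add_mul]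
      exact X₀.add_mem hx hy
    | smul r x _ hx =>
      rw [mul_smul_comm, smul_mul_assoc]
      exact X₀.smul_mem r hx
  apply le_antisymm hle
  intro a ha
  have h1 := hφ a (hL ha.1)
  have e : (1 + s) * a * (1 - s) = (4 : K) • a := by
    have : (1 + s) * a * (1 - s) = a + s * a - a * s - (s * a) * s := by noncomm_ring
    rw [this, ha.2.1, ha.2.2]
    module
  rw [e] at h1
  have h2 := X₀.smul_mem (1 / 4 : K) h1
  rw [smul_smul] at h2
  norm_num at h2
  exact h2

/-- The same for the negative part: apply `A3_irr` to the involution `-s`;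
`Lp L (-s) = Lm L s` and `L0 L (-s) = L0 L s`. -/
theorem A3_irr' [CharZero K] [IsAlgClosed K] [FiniteDimensional K V] [Nontrivial V]
    (h : Core L ω adj) {s : Module.End K V} (hs : s ∈ L) (hs2 : s * s = 1)
    {X₀ : Submodule K (Module.End K V)} (hle : X₀ ≤ Lm L s) (h0 : X₀ ≠ ⊥)
    (hst : ∀ Z ∈ L0 L s, ∀ X ∈ X₀, Z * X - X * Z ∈ X₀) : X₀ = Lm L s := by
  have hp : Lp L (-s) = Lm L s := by
    ext X
    rw [mem_Lp, mem_Lm, neg_mul, mul_neg, neg_eq_iff_eq_neg, neg_inj]
  have h00 : L0 L (-s) = L0 L s := by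
    ext X
    rw [mem_L0, mem_L0, neg_mul, mul_neg, neg_inj]
  have := A3_irr h (L.neg_mem hs) (s := -s) (by rw [neg_mul_neg, hs2]) (X₀ := X₀)
    (by rw [hp]; exact hle) h0 (by rw [h00]; exact hst)
  rw [this, hp]

end Pool.Agent.H49M
end

-- from Lib.H49M.A3s
section

/-!
# A3s: `L0` is spanned by brackets
-/

set_option autoImplicit false
set_option linter.unusedSectionVars false
namespace Pool.Agent.H49M
open Module Pool.Agent.H53Toric

variable {K : Type*} [Field K] {V : Type*} [AddCommGroup V] [Module K V]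

variable {L : Submodule K (Module.End K V)} {ω : V →ₗ[K] V →ₗ[K] K}
  {adj : Module.End K V →ₗ[K] Module.End K V}

/-- Chunk A3s. The span `I` of `Lp`, `Lm` and all `[X, Y]`, `X ∈ Lp`, `Y ∈ Lm`, is a nonzero ideal
(`[Lp, Lp] = 0`, `[Lm, Lm] = 0`, `[L0, Lp] ⊆ Lp`, `[[X, Y], Lp] ⊆ Lp`, Jacobi), hence `I = L`;
compare the components commuting with `s`: for `Z = a + b + c ∈ I` with `Z ∈ L0` apply
`T ↦ T - (1/4)(1+s)T(1-s) - (1/4)(1-s)T(1+s)`, which kills `Lp` and `Lm` and is the identity on
operators commuting with `s`. -/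
theorem A3_span [CharZero K] [IsAlgClosed K] [FiniteDimensional K V] [Nontrivial V]
    (h : Core L ω adj) {s : Module.End K V} (hs : s ∈ L) (hs2 : s * s = 1)
    {Z : Module.End K V} (hZ : Z ∈ L0 L s) :
    Z ∈ Submodule.span K {W | ∃ X ∈ Lp L s, ∃ Y ∈ Lm L s, W = X * Y - Y * X} := by
  set B := Submodule.span K {W | ∃ X ∈ Lp L s, ∃ Y ∈ Lm L s, W = X * Y - Y * X} with hB
  let I : Submodule K (Module.End K V) := Lp L s ⊔ B ⊔ Lm L s
  have hBm : ∀ X ∈ Lp L s, ∀ Y ∈ Lm L s, X * Y - Y * X ∈ B := fun X hX Y hY =>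
    Submodule.subset_span ⟨X, hX, Y, hY, rfl⟩
  have hI1 : Lp L s ≤ I := le_sup_left.trans le_sup_left
  have hI2 : B ≤ I := le_sup_right.trans le_sup_left
  have hI3 : Lm L s ≤ I := le_sup_right
  have hBL0 : B ≤ L0 L s := by
    refine Submodule.span_le.2 ?_
    rintro _ ⟨X, hX, Y, hY, rfl⟩
    exact A3_pm h hX hY
  have hIL : I ≤ L := by
    refine sup_le (sup_le (fun X hX => hX.1) fun X hX => (hBL0 hX).1) fun X hX => hX.1
  have h0B : ∀ Z ∈ L0 L s, ∀ T ∈ B, Z * T - T * Z ∈ B := by
    intro Z hZ T hT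
    induction hT using Submodule.span_induction with
    | mem T hT =>
      obtain ⟨X, hX, Y, hY, rfl⟩ := hT
      have e : Z * (X * Y - Y * X) - (X * Y - Y * X) * Z =
          ((Z * X - X * Z) * Y - Y * (Z * X - X * Z)) +
          (X * (Z * Y - Y * Z) - (Z * Y - Y * Z) * X) := by noncomm_ring
      rw [e]
      exact B.add_mem (hBm _ (A3_0p h hZ hX) Y hY) (hBm X hX _ (A3_0m h hZ hY))
    | zero => simp
    | add x y _ _ hx hy =>
      have e : Z * (x + y) - (x + y) * Z = (Z * x - x * Z) + (Z * y - y * Z) := by noncomm_ring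
      rw [e]
      exact B.add_mem hx hy
    | smul r x _ hx =>
      rw [mul_smul_comm, smul_mul_assoc, ← smul_sub]
      exact B.smul_mem r hx
  have hid : ∀ Z ∈ L, ∀ T ∈ I, Z * T - T * Z ∈ I := by
    intro Z hZ T hT
    obtain ⟨a, ha, b, hb, c, hc, rfl⟩ := A2_decomp h hs hs2 hZ
    obtain ⟨T', hT', x3, hx3, rfl⟩ := Submodule.mem_sup.1 hT
    obtain ⟨x1, hx1, x2, hx2, rfl⟩ := Submodule.mem_sup.1 hT'
    have e : (a + b + c) * (x1 + x2 + x3) - (x1 + x2 + x3) * (a + b + c) =
        (a * x1 - x1 * a) + -(x2 * a - a * x2) + (a * x3 - x3 * a) +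
        (b * x1 - x1 * b) + (b * x2 - x2 * b) + (b * x3 - x3 * b) +
        -(x1 * c - c * x1) + -(x2 * c - c * x2) + (c * x3 - x3 * c) := by noncomm_ring
    rw [e, A2_pp ha hx1, A2_pp hx1 ha, A2_mm hc hx3, A2_mm hx3 hc, sub_self, zero_add, add_zero]
    have hx2' := hBL0 hx2
    exact I.add_mem (I.add_mem (I.add_mem (I.add_mem (I.add_mem (I.add_mem
      (I.neg_mem (hI1 (A3_0p h hx2' ha))) (hI2 (hBm a ha x3 hx3))) (hI1 (A3_0p h hb hx1)))
      (hI2 (h0B b hb x2 hx2))) (hI3 (A3_0m h hb hx3))) (I.neg_mem (hI2 (hBm x1 hx1 c hc))))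
      (I.neg_mem (hI3 (A3_0m h hx2' hc)))
  have hL : L ≤ I := by
    rcases h.simple I hIL hid with h1 | h1
    · exfalso
      apply A2_ne h hs hs2
      rw [eq_bot_iff, ← h1]
      exact hI1
    · exact h1.ge
  obtain ⟨T', hT', c, hc, hZe⟩ := Submodule.mem_sup.1 (hL hZ.1)
  obtain ⟨a, ha, b, hb, rfl⟩ := Submodule.mem_sup.1 hT'
  have hb' := hBL0 hb
  -- compare the weights
  have h1 : s * Z = Z * s := hZ.2
  rw [← hZe] at h1
  have h2 : a - c = 0 := by
    have e : s * (a + b + c) - (a + b + c) * s = (s * a - a * s) + (s * b - b * s) +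
        (s * c - c * s) := by noncomm_ring
    rw [← sub_eq_zero, e, ha.2.1, ha.2.2, hb'.2, hc.2.1, hc.2.2] at h1
    have e2 : a - -a + (b * s - b * s) + (-c - c) = (2 : K) • (a - c) := by module
    rw [e2] at h1
    exact (smul_eq_zero.1 h1).resolve_left (by norm_num)
  have h3 : a = 0 := by
    have h4 : s * a = s * c := by rw [sub_eq_zero.1 h2]
    rw [ha.2.1, hc.2.1, ← sub_eq_zero.1 h2] at h4
    have h5 : (2 : K) • a = 0 := by
      rw [two_smul]
      nth_rw 1 [h4]
      exact neg_add_cancel _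
    exact (smul_eq_zero.1 h5).resolve_left (by norm_num)
  have h4 : c = 0 := by rw [← sub_eq_zero.1 h2, h3]
  rw [← hZe, h3, h4, zero_add, add_zero]
  exact hb

end Pool.Agent.H49M
end

-- from Lib.H49M.A3v
section

/-!
# A3v: the plus space is irreducible
-/

set_option autoImplicit false
set_option linter.unusedSectionVars false
namespace Pool.Agent.H49M
open Module Pool.Agent.H53Toric

variable {K : Type*} [Field K] {V : Type*} [AddCommGroup V] [Module K V]

variable {L : Submodule K (Module.End K V)} {ω : V →ₗ[K] V →ₗ[K] K}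
  {adj : Module.End K V →ₗ[K] Module.End K V}

/-- Chunk A3v. `V₊` is irreducible under `L0`. Let `U = W + span {Y w : Y ∈ Lm, w ∈ W}`. It is stable under
`L = Lp + L0 + Lm`: `Lp W = 0` (`X w = X s w = - X w`), `X Y w = (X Y - Y X) w ∈ W` for
`X ∈ Lp` as `X w = 0` and `X Y - Y X ∈ L0`; `Z Y w = (Z Y - Y Z) w + Y (Z w)` for `Z ∈ L0`;
`Y' Y = 0`. So `U = V` by irreducibility; if `s v = v`, `v = w + Σ Y w`, apply `1 + s`:
`(1 + s) Y w = 0`, hence `2 v = 2 w`. -/
theorem A3_vec [CharZero K] [IsAlgClosed K] [FiniteDimensional K V] [Nontrivial V]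
    (h : Core L ω adj) {s : Module.End K V} (hs : s ∈ L) (hs2 : s * s = 1)
    {W : Submodule K V} (hW : ∀ w ∈ W, s w = w) (hW0 : W ≠ ⊥)
    (hst : ∀ Z ∈ L0 L s, ∀ w ∈ W, Z w ∈ W) {v : V} (hv : s v = v) : v ∈ W := by
  let B := Submodule.span K {u | ∃ Y ∈ Lm L s, ∃ w ∈ W, u = Y w}
  have hB : ∀ Y ∈ Lm L s, ∀ w ∈ W, Y w ∈ B := fun Y hY w hw =>
    Submodule.subset_span ⟨Y, hY, w, hw, rfl⟩
  let U := W ⊔ B
  have hU1 : W ≤ U := le_sup_left
  have hU2 : B ≤ U := le_sup_right
  have hp0 : ∀ X ∈ Lp L s, ∀ w ∈ W, X w = 0 := by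
    intro X hX w hw
    have h1 : X (s w) = -(X w) := by
      change (X * s) w = _
      rw [hX.2.2]; rfl
    rw [hW w hw] at h1
    have h2 : (2 : K) • X w = 0 := by
      rw [two_smul]
      nth_rw 1 [h1]
      exact neg_add_cancel _
    exact (smul_eq_zero.1 h2).resolve_left (by norm_num)
  have hWst : ∀ X ∈ L, ∀ w ∈ W, X w ∈ U := by
    intro X hX w hw
    obtain ⟨a, ha, b, hb, c, hc, rfl⟩ := A2_decomp h hs hs2 hX
    rw [LinearMap.add_apply, LinearMap.add_apply, hp0 a ha w hw, zero_add]
    exact U.add_mem (hU1 (hst b hb w hw)) (hU2 (hB c hc w hw))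
  have hBst : ∀ X ∈ L, ∀ t ∈ B, X t ∈ U := by
    intro X hX t ht
    obtain ⟨a, ha, b, hb, c, hc, rfl⟩ := A2_decomp h hs hs2 hX
    induction ht using Submodule.span_induction with
    | mem t ht =>
      obtain ⟨Y, hY, w', hw', rfl⟩ := ht
      rw [LinearMap.add_apply, LinearMap.add_apply]
      have e1 : a (Y w') = (a * Y - Y * a) w' := by
        rw [LinearMap.sub_apply, Module.End.mul_apply, Module.End.mul_apply, hp0 a ha w' hw',
          map_zero, sub_zero]
      have e2 : b (Y w') = (b * Y - Y * b) w' + Y (b w') := by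
        rw [LinearMap.sub_apply, Module.End.mul_apply, Module.End.mul_apply, sub_add_cancel]
      have e3 : c (Y w') = 0 := by
        change (c * Y) w' = 0
        rw [A2_mm hc hY]; rfl
      rw [e1, e2, e3, add_zero]
      exact U.add_mem (hU1 (hst _ (A3_pm h ha hY) w' hw')) (U.add_mem
        (hU2 (hB _ (A3_0m h hb hY) w' hw')) (hU2 (hB Y hY _ (hst b hb w' hw'))))
    | zero => simp
    | add x y _ _ hx hy =>
      rw [map_add]
      exact U.add_mem hx hy
    | smul r x _ hx =>
      rw [map_smul]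
      exact U.smul_mem r hx
  have hst' : ∀ X ∈ L, ∀ u ∈ U, X u ∈ U := by
    intro X hX u hu
    obtain ⟨w, hw, t, ht, rfl⟩ := Submodule.mem_sup.1 hu
    rw [map_add]
    exact U.add_mem (hWst X hX w hw) (hBst X hX t ht)
  have hUtop : U = ⊤ := by
    rcases h.irr U hst' with h1 | h1
    · exfalso
      apply hW0
      rw [eq_bot_iff, ← h1]
      exact hU1
    · exact h1
  have hst0 : ∀ t ∈ B, s t = -t := by
    intro t ht
    induction ht using Submodule.span_induction with
    | mem t ht =>
      obtain ⟨Y, hY, w', hw', rfl⟩ := ht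
      change (s * Y) w' = _
      rw [hY.2.1]; rfl
    | zero => simp
    | add x y _ _ hx hy => rw [map_add, hx, hy, neg_add]
    | smul r x _ hx => rw [map_smul, hx, smul_neg]
  have hvU : v ∈ U := by rw [hUtop]; trivial
  obtain ⟨w, hw, t, ht, rfl⟩ := Submodule.mem_sup.1 hvU
  rw [map_add, hW w hw, hst0 t ht] at hv
  have h1 : (2 : K) • t = 0 := by
    rw [two_smul]
    have := add_left_cancel hv
    nth_rw 1 [← this]
    exact neg_add_cancel _
  have h2 : t = 0 := (smul_eq_zero.1 h1).resolve_left (by norm_num)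
  rw [h2, add_zero]
  exact hw

end Pool.Agent.H49M
end

-- from Lib.H49M.K1
section

/-!
# K1: rank one Jordan pairs, first step
-/

set_option autoImplicit false
set_option linter.unusedSectionVars false
namespace Pool.Agent.H49M
open Module Pool.Agent.H53Toric

variable {K : Type*} [Field K] {V : Type*} [AddCommGroup V] [Module K V]

variable {L : Submodule K (Module.End K V)} {ω : V →ₗ[K] V →ₗ[K] K}
  {adj : Module.End K V →ₗ[K] Module.End K V}

/-- The Peirce one component. -/
theorem K1_comp [CharZero K] (hl : IsLie L) {s e f : Module.End K V} (F : Frame L s e f)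
    {W : Module.End K V} (hW : W ∈ Lp L s) :
    e * f * W + W * (f * e) - (2 : K) • (e * f * W * (f * e)) ∈ J1 L s e f := by
  have eW : e * W = 0 := A2_pp F.e_mem hW
  have We : W * e = 0 := A2_pp hW F.e_mem
  obtain ⟨c, hc⟩ := K0_ext hl F hW.1
  have h1 : e * f * W + W * (f * e) ∈ L := by
    have h2 := hl _ (K0_H hl F) W hW.1
    have e1 : (e * f - f * e) * W - W * (e * f - f * e) =
        e * f * W - f * (e * W) - (W * e) * f + W * (f * e) := by noncomm_ring
    rw [e1, eW, We, mul_zero, zero_mul, sub_zero, sub_zero] at h2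
    exact h2
  have hL : e * f * W + W * (f * e) - (2 : K) • (e * f * W * (f * e)) ∈ L := by
    refine L.sub_mem h1 (L.smul_mem _ ?_)
    rw [hc]
    exact L.smul_mem _ F.e_mem.1
  have s1 : s * (e * f * W) = e * f * W := by
    rw [← mul_assoc, ← mul_assoc, F.e_mem.2.1]
  have s2 : s * (W * (f * e)) = W * (f * e) := by
    rw [← mul_assoc, hW.2.1]
  have s3 : s * (e * f * W * (f * e)) = e * f * W * (f * e) := by
    rw [← mul_assoc, s1]
  have r1 : e * f * W * s = -(e * f * W) := by
    rw [mul_assoc, hW.2.2, mul_neg]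
  have r2 : W * (f * e) * s = -(W * (f * e)) := by
    rw [mul_assoc, mul_assoc, F.e_mem.2.2, mul_neg, mul_neg]
  have r3 : e * f * W * (f * e) * s = -(e * f * W * (f * e)) := by
    calc e * f * W * (f * e) * s = e * f * W * (f * (e * s)) := by noncomm_ring
      _ = _ := by rw [F.e_mem.2.2]; noncomm_ring
  refine ⟨⟨hL, ?_, ?_⟩, ?_⟩
  · rw [mul_sub, mul_add, mul_smul_comm, s1, s2, s3]
  · rw [sub_mul, add_mul, smul_mul_assoc, r1, r2, r3]
    module
  · have pp : (e * f) * (e * f * W) = e * f * W := by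
      calc (e * f) * (e * f * W) = (e * f * e) * (f * W) := by noncomm_ring
        _ = e * f * W := by rw [F.efe, mul_assoc]
    have qq : (W * (f * e)) * (f * e) = W * (f * e) := by
      calc (W * (f * e)) * (f * e) = W * (f * (e * f * e)) := by noncomm_ring
        _ = W * (f * e) := by rw [F.efe]
    have p3 : (e * f) * (e * f * W * (f * e)) = e * f * W * (f * e) := by
      rw [← mul_assoc, pp]
    have q3 : (e * f * W * (f * e)) * (f * e) = e * f * W * (f * e) := by
      calc (e * f * W * (f * e)) * (f * e) = e * f * ((W * (f * e)) * (f * e)) := by noncomm_ring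
        _ = _ := by rw [qq]; noncomm_ring
    have q1 : (e * f * W) * (f * e) = e * f * W * (f * e) := rfl
    have p2 : (e * f) * (W * (f * e)) = e * f * W * (f * e) := by rw [← mul_assoc]
    rw [mul_sub, mul_add, sub_mul, add_mul, mul_smul_comm, smul_mul_assoc, pp, p2, p3, qq, q3]
    module

/-- Chunk K1. Notation: `p = e f`, `q = f e` (idempotents: `e f e = e`, `f e f = f`),
`P = (1 + s)/2`, `Q = (1 - s)/2`, `p' = P - p`, `q' = Q - q`, `[X, Y] = X Y - Y X`,
`H = p - q = [e, f] ∈ L`. Facts: `e = p e = e q`, `f = q f = f p`, `p' e = 0`, `e q' = 0`,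
`f p' = 0`, `q' f = 0`, `e p = 0`, `q e = 0`...; elements of `Lp` are `X = P X Q`, of `L0` are
`P Z P + Q Z Q`; `Lp Lp = 0` (`A2_pp`); `u ∈ J1` means `u = p u q' + p' u q`.
(1) For `Z ∈ L0` put `Z₁ = (1/2)([H,[H,Z]] + [H,Z]) = p Z p' + q' Z q`,
`Z₂ = (1/2)([H,[H,Z]] - [H,Z]) = p' Z p + q Z q'` and `Z₀ = Z - [H,[H,Z]]` (block diagonal); all
are in `L`, and `Z = Z₀ + Z₁ + Z₂`.
(2) The space `X₀ = K e + J1` is stable under `L0`: by extremality `p X q ∈ K e` for `X ∈ L`
(`K0_ext`). `[Z₁, e] = 0`; `[Z₀, e] = p [Z₀, e] q ∈ K e`; `u' := [Z₂, e] = p' Z p e - e q Z q' ∈ J1`.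
For `A ∈ J1`: `[Z₀, A] ∈ J1`, `[Z₁, A] = p [Z₁, A] q ∈ K e`, and `[Z₂, A] = 0`: indeed
`Z₂ = u' f - f u' ` (as `u' f = p' Z p`, `f u' = - q Z q'`), so
`[Z₂, A] = u' f A - f u' A - A u' f + A f u' = u' f A + A f u' = 0` by polarising the hypothesis
(`u' + A, u', A ∈ J1`; `u' A = A u' = 0` by `A2_pp`).
(3) `X₀ ≠ 0` contains `e`, so `X₀ = Lp L s` by `A3_irr`.
(4) For `x = t e + u`, `u ∈ J1`: `p x q = t e` and
`x f x = t² e + t (e f u + u f e) + u f u = t² e + t u = t x`; and `t = c`. -/
theorem K1_quad [CharZero K] [IsAlgClosed K] [FiniteDimensional K V] [Nontrivial V]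
    (h : Core L ω adj) {s e f : Module.End K V} (F : Frame L s e f)
    (ha : ∀ u ∈ J1 L s e f, u * f * u = 0) {x : Module.End K V} (hx : x ∈ Lp L s) {c : K}
    (hc : e * f * x * (f * e) = c • e) : x * f * x = c • x := by
  have eK : ∀ W ∈ Lp L s, e * W = 0 := fun W hW => A2_pp F.e_mem hW
  have Ke : ∀ W ∈ Lp L s, W * e = 0 := fun W hW => A2_pp hW F.e_mem
  have hpol : ∀ u ∈ J1 L s e f, ∀ u' ∈ J1 L s e f, u' * f * u + u * f * u' = 0 := by
    intro u hu u' hu'
    have h1 := ha _ ((J1 L s e f).add_mem hu hu')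
    have e1 : (u + u') * f * (u + u') = u * f * u + u' * f * u' + (u' * f * u + u * f * u') := by
      noncomm_ring
    rwa [e1, ha u hu, ha u' hu', zero_add, zero_add] at h1
  have pe : (1 - e * f) * e = 0 := by rw [sub_mul, one_mul, F.efe, sub_self]
  have eq : e * (1 - f * e) = 0 := by rw [mul_sub, mul_one, ← mul_assoc, F.efe, sub_self]
  let X₀ : Submodule K (Module.End K V) :=
    { carrier := {x | x ∈ Lp L s ∧ (1 - e * f) * x * (1 - f * e) = 0}
      add_mem' := by
        rintro a b ⟨h1, h2⟩ ⟨h3, h4⟩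
        refine ⟨(Lp L s).add_mem h1 h3, ?_⟩
        rw [mul_add, add_mul, h2, h4, add_zero]
      zero_mem' := ⟨(Lp L s).zero_mem, by simp⟩
      smul_mem' := by
        rintro c a ⟨h1, h2⟩
        refine ⟨(Lp L s).smul_mem c h1, ?_⟩
        rw [mul_smul_comm, smul_mul_assoc, h2, smul_zero] }
  have hsplit : ∀ x ∈ X₀, ∀ c : K, e * f * x * (f * e) = c • e → x - c • e ∈ J1 L s e f := by
    intro x hx c hc
    have h1 := K1_comp h.lie F hx.1
    have h2 := hx.2
    have e1 : (1 - e * f) * x * (1 - f * e) =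
        x - (e * f * x + x * (f * e) - e * f * x * (f * e)) := by noncomm_ring
    rw [e1, hc, sub_eq_zero] at h2
    rw [hc] at h1
    have e2 : x - c • e = e * f * x + x * (f * e) - (2 : K) • c • e := by
      nth_rw 1 [h2]
      module
    rw [e2]
    exact h1
  have hst : ∀ Z ∈ L0 L s, ∀ X ∈ X₀, Z * X - X * Z ∈ X₀ := by
    intro Z hZ x hx
    refine ⟨A3_0p h hZ hx.1, ?_⟩
    obtain ⟨c, hc⟩ := K0_ext h.lie F hx.1.1
    have hu := hsplit x hx c hc
    set u := x - c • e with hud
    have hW := A3_0p h hZ F.e_mem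
    obtain ⟨W, hWd⟩ : ∃ W, W = Z * e - e * Z := ⟨_, rfl⟩
    rw [← hWd] at hW
    have hu' := K1_comp h.lie F hW
    obtain ⟨u', hu'd⟩ : ∃ u', u' = e * f * W + W * (f * e) - (2 : K) • (e * f * W * (f * e)) :=
      ⟨_, rfl⟩
    rw [← hu'd] at hu'
    have k1 : u' * f = (1 - e * f) * Z * (e * f) := by
      have e1 : e * f * W * (f * e) * f = e * f * W * f := by
        calc e * f * W * (f * e) * f = e * f * W * (f * e * f) := by noncomm_ring
          _ = _ := by rw [F.fef]
      have e2 : W * (f * e) * f = W * f := by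
        calc W * (f * e) * f = W * (f * e * f) := by noncomm_ring
          _ = _ := by rw [F.fef]
      have e3 : u' * f = (1 - e * f) * W * f := by
        have e4 : (1 - e * f) * W * f = W * f - e * f * W * f := by noncomm_ring
        rw [hu'd, sub_mul, add_mul, smul_mul_assoc, e1, e2, e4]
        module
      rw [e3, hWd]
      calc (1 - e * f) * (Z * e - e * Z) * f =
          (1 - e * f) * Z * (e * f) - ((1 - e * f) * e) * Z * f := by noncomm_ring
        _ = _ := by rw [pe, zero_mul, zero_mul, sub_zero]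
    have k2 : f * u' = -((f * e) * Z * (1 - f * e)) := by
      have e1 : f * (e * f * W * (f * e)) = f * W * (f * e) := by
        calc f * (e * f * W * (f * e)) = (f * e * f) * W * (f * e) := by noncomm_ring
          _ = _ := by rw [F.fef]
      have e2 : f * (e * f * W) = f * W := by
        calc f * (e * f * W) = (f * e * f) * W := by noncomm_ring
          _ = _ := by rw [F.fef]
      have e3 : f * u' = f * W * (1 - f * e) := by
        have e4 : f * W * (1 - f * e) = f * W - f * W * (f * e) := by noncomm_ring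
        rw [hu'd, mul_sub, mul_add, mul_smul_comm, e1, e2, e4, ← mul_assoc]
        module
      rw [e3, hWd]
      calc f * (Z * e - e * Z) * (1 - f * e) =
          f * Z * (e * (1 - f * e)) - (f * e) * Z * (1 - f * e) := by noncomm_ring
        _ = _ := by rw [eq, mul_zero, zero_sub]
    have k3 : (1 - e * f) * u = u * (f * e) := by
      rw [sub_mul, one_mul]
      nth_rw 1 [← hu.2]
      abel
    have k4 : u * (1 - f * e) = e * f * u := by
      rw [mul_sub, mul_one]
      nth_rw 1 [← hu.2]
      abel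
    have hx' : x = c • e + u := by rw [hud]; abel
    have e5 : (1 - e * f) * (Z * x - x * Z) * (1 - f * e) =
        (1 - e * f) * Z * (x * (1 - f * e)) - ((1 - e * f) * x) * Z * (1 - f * e) := by
      noncomm_ring
    have e6 : x * (1 - f * e) = e * f * u := by
      rw [hx', add_mul, smul_mul_assoc, eq, smul_zero, zero_add, k4]
    have e7 : (1 - e * f) * x = u * (f * e) := by
      rw [hx', mul_add, mul_smul_comm, pe, smul_zero, zero_add, k3]
    rw [e5, e6, e7]
    have h1 := hpol u hu u' hu'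
    calc (1 - e * f) * Z * (e * f * u) - u * (f * e) * Z * (1 - f * e) =
        ((1 - e * f) * Z * (e * f)) * u + u * -((f * e) * Z * (1 - f * e)) := by noncomm_ring
      _ = u' * f * u + u * f * u' := by rw [← k1, ← k2]; noncomm_ring
      _ = 0 := h1
  have heX : e ∈ X₀ := ⟨F.e_mem, by rw [pe, zero_mul]⟩
  have hX : X₀ = Lp L s := by
    refine A3_irr h F.s_mem F.s_sq (fun x hx => hx.1) ?_ hst
    intro h0
    rw [h0, Submodule.mem_bot] at heX
    exact F.e_ne heX
  have hxX : x ∈ X₀ := by rw [hX]; exact hx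
  have hu := hsplit x hxX c hc
  set u := x - c • e with hud
  have hx' : x = c • e + u := by rw [hud]; abel
  have e1 : x * f * x = (c * c) • (e * f * e) + c • (e * f * u + u * (f * e)) + u * f * u := by
    rw [hx']
    simp only [add_mul, mul_add, smul_mul_assoc, mul_smul_comm, smul_smul, mul_assoc, smul_add]
    abel
  rw [e1, F.efe, hu.2, ha u hu, hx']
  module

end Pool.Agent.H49M
end

-- from Lib.H49M.K2
section

/-!
# K2: rank one Jordan pairs, all products
-/

set_option autoImplicit false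
set_option linter.unusedSectionVars false
namespace Pool.Agent.H49M
open Module Pool.Agent.H53Toric

variable {K : Type*} [Field K] {V : Type*} [AddCommGroup V] [Module K V]

variable {L : Submodule K (Module.End K V)} {ω : V →ₗ[K] V →ₗ[K] K}
  {adj : Module.End K V →ₗ[K] Module.End K V}

/-- Chunk K2a. Let `S` be the set of `y ∈ Lm` for which there is a linear form
`λ : End V → K` with `x y x = λ(x) x` for all `x ∈ Lp`. It is a subspace. `f ∈ S`: choose a
linear form `φ` on `End V` with `φ e = 1` and put `λ X = φ (e f X f e)`; by `K0_ext`,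
`e f x f e = c e`, `c = λ x`, and the hypothesis gives `x f x = λ(x) x`. `S` is stable under
`L0`: for `Z ∈ L0`, `y ∈ S`, put `x' = Z x - x Z ∈ Lp`; polarising,
`x y x' + x' y x = λ(x) x' + λ(x') x`, and the left side is `- x (Z y - y Z) x + Z (x y x) -
(x y x) Z = - x (Z y - y Z) x + λ(x) x'`, so `x (Z y - y Z) x = - λ(Z x - x Z) x`. By `A3_irr'`
(`f ≠ 0`) `S = Lm`. -/
theorem K2_form [CharZero K] [IsAlgClosed K] [FiniteDimensional K V] [Nontrivial V]
    (h : Core L ω adj) {s e f : Module.End K V} (F : Frame L s e f)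
    (hq : ∀ x ∈ Lp L s, ∀ c : K, e * f * x * (f * e) = c • e → x * f * x = c • x)
    {y : Module.End K V} (hy : y ∈ Lm L s) :
    ∃ l : Module.End K V →ₗ[K] K, ∀ x ∈ Lp L s, x * y * x = l x • x := by
  let S : Submodule K (Module.End K V) :=
    { carrier := {y | y ∈ Lm L s ∧ ∃ l : Module.End K V →ₗ[K] K, ∀ x ∈ Lp L s,
        x * y * x = l x • x}
      add_mem' := by
        rintro a b ⟨h1, l, h2⟩ ⟨h3, m, h4⟩
        refine ⟨(Lm L s).add_mem h1 h3, l + m, fun x hx => ?_⟩
        rw [mul_add, add_mul, h2 x hx, h4 x hx, LinearMap.add_apply, add_smul]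
      zero_mem' := ⟨(Lm L s).zero_mem, 0, fun x hx => by simp⟩
      smul_mem' := by
        rintro c a ⟨h1, l, h2⟩
        refine ⟨(Lm L s).smul_mem c h1, c • l, fun x hx => ?_⟩
        rw [mul_smul_comm, smul_mul_assoc, h2 x hx, LinearMap.smul_apply, smul_smul, smul_eq_mul] }
  have hfS : f ∈ S := by
    refine ⟨F.f_mem, ?_⟩
    have h1 : ∃ φ : Module.Dual K (Module.End K V), φ e ≠ 0 := by
      by_contra hcon
      push Not at hcon
      exact F.e_ne ((Module.forall_dual_apply_eq_zero_iff K e).1 hcon)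
    obtain ⟨φ, hφ⟩ := h1
    refine ⟨((φ e)⁻¹ • φ) ∘ₗ (LinearMap.mulRight K (f * e)) ∘ₗ (LinearMap.mulLeft K (e * f)),
      fun x hx => ?_⟩
    obtain ⟨c, hc⟩ := K0_ext h.lie F hx.1
    have h2 := hq x hx c hc
    rw [h2]
    congr 1
    change c = (φ e)⁻¹ * φ (e * f * x * (f * e))
    rw [hc, map_smul, smul_eq_mul, mul_comm c, ← mul_assoc, inv_mul_cancel₀ hφ, one_mul]
  have hst : ∀ Z ∈ L0 L s, ∀ Y ∈ S, Z * Y - Y * Z ∈ S := by
    rintro Z hZ y ⟨hy, l, hl⟩
    refine ⟨A3_0m h hZ hy, -(l ∘ₗ (LinearMap.mulLeft K Z - LinearMap.mulRight K Z)),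
      fun x hx => ?_⟩
    have hx' := A3_0p h hZ hx
    have h1 : x * y * (Z * x - x * Z) + (Z * x - x * Z) * y * x =
        l x • (Z * x - x * Z) + l (Z * x - x * Z) • x := by
      have h2 := hl _ ((Lp L s).add_mem hx hx')
      generalize Z * x - x * Z = x' at hx' h2
      have e1 : (x + x') * y * (x + x') = x * y * x + x' * y * x' + (x * y * x' + x' * y * x) := by
        noncomm_ring
      rw [e1, hl x hx, hl x' hx', map_add] at h2
      have e2 : x * y * x' + x' * y * x = (l x • x + l x' • x' + (x * y * x' + x' * y * x)) -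
          (l x • x + l x' • x') := by abel
      rw [e2, h2]
      module
    have h3 : x * (Z * y - y * Z) * x = Z * (x * y * x) - (x * y * x) * Z -
        (x * y * (Z * x - x * Z) + (Z * x - x * Z) * y * x) := by noncomm_ring
    rw [h3, h1, hl x hx, mul_smul_comm, smul_mul_assoc]
    change _ = (-(l (Z * x - x * Z))) • x
    module
  have hS : S = Lm L s := by
    refine A3_irr' h F.s_mem F.s_sq (fun x hx => hx.1) ?_ hst
    intro h0
    rw [h0, Submodule.mem_bot] at hfS
    have := F.efe
    rw [hfS, mul_zero, zero_mul] at this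
    exact F.e_ne this.symm
  have hyS : y ∈ S := by rw [hS]; exact hy
  exact hyS.2

/-- Chunk K2. By `K1_quad` and `K2_form`, `x y x = λ_y(x) x` for all `x ∈ Lp`, `y ∈ Lm`, hence
(polarise) (*) `x y x' + x' y x = λ_y(x) x' + λ_y(x') x`.
Claim: `b e b = 0` for `b ∈ J1 L (-s) f e` (i.e. `b ∈ Lm`, `f e b + b (e f) = b`). Multiply by
`f e` on the left and `e f` on the right: `f e b e f = 0`, so `e b e = e (f e b e f) e = 0` and
`λ_b(e) = 0` (`e ≠ 0`). By (*) with `x' = e`: `x b e + e b x = λ_b(x) e`. Multiply on the right by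
`b` and take traces: `tr (x b e b) + tr (e b x b) = 2 tr (x (b e b)) = λ_b(x) tr (e b)` and
`tr (e b) = tr (e f e b) = tr (f e b e) = 0`. So `tr (x (b e b)) = 0` for all `x ∈ Lp` and
`b e b = 0` by `A2_nondeg'` (`b e b ∈ Lm`, `IsLie.sandwich`).
Hence `K1_quad` and `K2_form` apply to the frame `(-s, f, e)` (`K0_swap`, `K0_Lp`, `K0_Lm`):
`y x y = μ_x(y) y`. Finally `λ_y(x) = μ_x(y)` if `x, y ≠ 0`:
`(y x)(y x) = y (x y x) = λ_y(x) y x = (y x y) x = μ_x(y) y x`, so they are equal if `y x ≠ 0`; if
`y x = 0`, then `λ_y(x) x = x y x = 0` and `μ_x(y) y = 0`, both scalars vanish. If `x = 0` or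
`y = 0` choose the other scalar. -/
theorem K2_all [CharZero K] [IsAlgClosed K] [FiniteDimensional K V] [Nontrivial V]
    (h : Core L ω adj) {s e f : Module.End K V} (F : Frame L s e f)
    (ha : ∀ u ∈ J1 L s e f, u * f * u = 0) {x y : Module.End K V} (hx : x ∈ Lp L s)
    (hy : y ∈ Lm L s) : ∃ c : K, x * y * x = c • x ∧ y * x * y = c • y := by
  have hq := fun (x : Module.End K V) (hx : x ∈ Lp L s) (c : K)
    (hc : e * f * x * (f * e) = c • e) => K1_quad h F ha hx hc
  have hb : ∀ b ∈ J1 L (-s) f e, b * e * b = 0 := by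
    rintro b ⟨hb, hbe⟩
    rw [K0_Lp] at hb
    obtain ⟨l, hl⟩ := K2_form h F hq hb
    have h1 : f * e * b * (e * f) = 0 := by
      have i1 : (f * e) * (f * e) = f * e := by
        calc (f * e) * (f * e) = (f * e * f) * e := by noncomm_ring
          _ = f * e := by rw [F.fef]
      have i2 : (e * f) * (e * f) = e * f := by
        calc (e * f) * (e * f) = (e * f * e) * f := by noncomm_ring
          _ = e * f := by rw [F.efe]
      have h2 : f * e * b * (e * f) = f * e * b * (e * f) + f * e * b * (e * f) := by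
        nth_rw 1 [← hbe]
        calc f * e * (f * e * b + b * (e * f)) * (e * f) =
            ((f * e) * (f * e)) * b * (e * f) + f * e * b * ((e * f) * (e * f)) := by noncomm_ring
          _ = _ := by rw [i1, i2]
      exact left_eq_add.1 h2
    have h2 : e * b * e = 0 := by
      calc e * b * e = (e * f * e) * b * (e * f * e) := by rw [F.efe]
        _ = e * (f * e * b * (e * f)) * e := by noncomm_ring
        _ = 0 := by rw [h1, mul_zero, zero_mul]
    have h3 : l e = 0 := by
      have h4 := hl e F.e_mem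
      rw [h2] at h4
      exact (smul_eq_zero.1 h4.symm).resolve_right F.e_ne
    have htr : LinearMap.trace K V (e * b) = 0 := by
      calc LinearMap.trace K V (e * b) = LinearMap.trace K V (e * (f * e * b)) := by
            congr 1
            calc e * b = (e * f * e) * b := by rw [F.efe]
              _ = _ := by noncomm_ring
        _ = LinearMap.trace K V ((f * e * b) * e) := LinearMap.trace_mul_comm K _ _
        _ = LinearMap.trace K V (f * (e * b * e)) := by congr 1
        _ = 0 := by rw [h2, mul_zero, map_zero]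
    apply A2_nondeg' h F.s_mem F.s_sq
    · refine ⟨h.lie.sandwich hb.1 (A2_mm hb hb) F.e_mem.1, ?_, ?_⟩
      · rw [← mul_assoc, ← mul_assoc, hb.2.1, neg_mul, neg_mul]
      · rw [mul_assoc, hb.2.2]
    · intro x hx
      have h4 : x * b * e + e * b * x = l x • e := by
        have h5 := hl _ ((Lp L s).add_mem hx F.e_mem)
        have e1 : (x + e) * b * (x + e) = x * b * x + e * b * e + (x * b * e + e * b * x) := by
          noncomm_ring
        rw [e1, hl x hx, h2, map_add, h3, add_zero, add_zero, smul_add] at h5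
        exact add_left_cancel h5
      have h5 : LinearMap.trace K V (x * b * e * b + e * b * x * b) = 0 := by
        have e1 : x * b * e * b + e * b * x * b = (x * b * e + e * b * x) * b := by noncomm_ring
        rw [e1, h4, smul_mul_assoc, map_smul, htr, smul_zero]
      have h6 : LinearMap.trace K V (e * b * x * b) = LinearMap.trace K V (x * (b * e * b)) := by
        calc LinearMap.trace K V (e * b * x * b) = LinearMap.trace K V ((e * b) * (x * b)) := by
              congr 1
          _ = LinearMap.trace K V ((x * b) * (e * b)) := LinearMap.trace_mul_comm K _ _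
          _ = _ := by congr 1
      have h7 : LinearMap.trace K V (x * b * e * b) = LinearMap.trace K V (x * (b * e * b)) := by
        congr 1
      rw [map_add, h6, h7] at h5
      have h8 : (2 : K) * LinearMap.trace K V (x * (b * e * b)) = 0 := by rw [two_mul]; exact h5
      exact (mul_eq_zero.1 h8).resolve_left (by norm_num)
  have F' := K0_swap h.lie F
  have hq' := fun (x : Module.End K V) (hx : x ∈ Lp L (-s)) (c : K)
    (hc : f * e * x * (e * f) = c • f) => K1_quad h F' hb hx hc
  obtain ⟨l, hl⟩ := K2_form h F hq hy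
  obtain ⟨m, hm⟩ := K2_form h F' hq' (y := x) (by rw [K0_Lm]; exact hx)
  have h1 := hl x hx
  have h2 := hm y (by rw [K0_Lp]; exact hy)
  by_cases hx0 : x = 0
  · exact ⟨m y, by rw [hx0]; simp, h2⟩
  by_cases hy0 : y = 0
  · exact ⟨l x, h1, by rw [hy0]; simp⟩
  refine ⟨l x, h1, ?_⟩
  by_cases hyx : y * x = 0
  · have h3 : l x = 0 := by
      rw [mul_assoc, hyx, mul_zero] at h1
      exact (smul_eq_zero.1 h1.symm).resolve_right hx0
    rw [h3, hyx]
    simp
  · have h3 : (l x - m y) • (y * x) = 0 := by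
      have h4 : y * (x * y * x) = (y * x * y) * x := by noncomm_ring
      rw [h1, h2, mul_smul_comm, smul_mul_assoc] at h4
      rw [sub_smul, h4, sub_self]
    have h4 := (smul_eq_zero.1 h3).resolve_right hyx
    rw [h2, sub_eq_zero.1 h4]

end Pool.Agent.H49M
end

-- from Lib.H49M.K3
section

/-!
# K3: the Kemmer system of a rank one Jordan pair
-/

set_option autoImplicit false
set_option linter.unusedSectionVars false
namespace Pool.Agent.H49M
open Module Pool.Agent.H53Toric

variable {K : Type*} [Field K] {V : Type*} [AddCommGroup V] [Module K V]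

variable {L : Submodule K (Module.End K V)} {ω : V →ₗ[K] V →ₗ[K] K}
  {adj : Module.End K V →ₗ[K] Module.End K V}

theorem K3a_partner [CharZero K] [IsAlgClosed K] [FiniteDimensional K V] [Nontrivial V]
    (h : Core L ω adj) {s : Module.End K V} (hs : s ∈ L) (hs2 : s * s = 1)
    {x : Module.End K V} (hx : x ∈ Lp L s) (hx0 : x ≠ 0) : ∃ y ∈ Lm L s, x * y * x ≠ 0 := by
  by_contra hcon
  push Not at hcon
  apply hx0
  apply A2_nondeg h hs hs2 hx
  intro y hy
  have h1 : IsNilpotent (x * y) := ⟨2, by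
    rw [pow_two]
    calc x * y * (x * y) = (x * y * x) * y := by noncomm_ring
      _ = 0 := by rw [hcon y hy, zero_mul]⟩
  exact (LinearMap.isNilpotent_trace_of_isNilpotent h1).eq_zero

theorem K3a_rank [FiniteDimensional K V] {x y : Module.End K V} {c : K}
    (h1 : x * y * x = c • x) (h2 : y * x * y = c • y) (h0 : x * y * x ≠ 0) :
    finrank K (LinearMap.range x) = finrank K (LinearMap.range y) := by
  have hc : c ≠ 0 := by
    rintro rfl
    rw [zero_smul] at h1
    exact h0 h1
  apply le_antisymm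
  · have e : x = x * y * (c⁻¹ • x) := by
      rw [mul_smul_comm, h1, smul_smul, inv_mul_cancel₀ hc, one_smul]
    calc finrank K (LinearMap.range x) = finrank K (LinearMap.range (x * y * (c⁻¹ • x))) := by
          rw [← e]
      _ ≤ finrank K (LinearMap.range (x * y)) := finrank_range_mul_le_left _ _
      _ ≤ _ := finrank_range_mul_le_right _ _
  · have e : y = y * x * (c⁻¹ • y) := by
      rw [mul_smul_comm, h2, smul_smul, inv_mul_cancel₀ hc, one_smul]
    calc finrank K (LinearMap.range y) = finrank K (LinearMap.range (y * x * (c⁻¹ • y))) := by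
          rw [← e]
      _ ≤ finrank K (LinearMap.range (y * x)) := finrank_range_mul_le_left _ _
      _ ≤ _ := finrank_range_mul_le_right _ _

theorem K3a_rank_eq [CharZero K] [IsAlgClosed K] [FiniteDimensional K V] [Nontrivial V]
    (h : Core L ω adj) {s e f : Module.End K V} (F : Frame L s e f)
    (hall : ∀ x ∈ Lp L s, ∀ y ∈ Lm L s, ∃ c : K, x * y * x = c • x ∧ y * x * y = c • y)
    {x : Module.End K V} (hx : x ∈ Lp L s) (hx0 : x ≠ 0) :
    finrank K (LinearMap.range x) = finrank K (LinearMap.range e) := by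
  have key : ∃ y ∈ Lm L s, x * y * x ≠ 0 ∧ e * y * e ≠ 0 := by
    obtain ⟨y1, hy1, h1⟩ := K3a_partner h F.s_mem F.s_sq hx hx0
    have h2 : e * f * e ≠ 0 := by rw [F.efe]; exact F.e_ne
    by_cases h3 : e * y1 * e = 0
    · by_cases h4 : x * f * x = 0
      · refine ⟨y1 + f, (Lm L s).add_mem hy1 F.f_mem, ?_, ?_⟩
        · rw [mul_add, add_mul, h4, add_zero]; exact h1
        · rw [mul_add, add_mul, h3, zero_add]; exact h2
      · exact ⟨f, F.f_mem, h4, h2⟩
    · exact ⟨y1, hy1, h1, h3⟩
  obtain ⟨y, hy, h1, h2⟩ := key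
  obtain ⟨c, hc1, hc2⟩ := hall x hx y hy
  obtain ⟨d, hd1, hd2⟩ := hall e F.e_mem y hy
  rw [K3a_rank hc1 hc2 h1, K3a_rank hd1 hd2 h2]

/-- Chunk K3a. All nonzero elements have the rank of `e`, and the scalar is a multiple of the
trace. For `x ∈ Lp`, `x ≠ 0`, the set of `y ∈ Lm` with `x y x = 0` is a proper subspace of `Lm`
(it is the kernel of the linear form `y ↦ c`, and if it is everything then `x X x = 0` for all
`X ∈ L` by `A2_decomp` (`x a = 0`, `x b x = x b s x = - x b x`...), contradicting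
`exists_partner` of H53Toric.Core1). A space over an infinite field is not the union of two proper
subspaces, so there is `y ∈ Lm` with `x y x = c x`, `c ≠ 0` and `e y e = c' e`, `c' ≠ 0`; from
`x y x = c x`, `y x y = c y` the ranks of `x` and `y` are equal, and likewise for `e`, `y`. So
`rank x = rank e =: r`. Now for `x ∈ Lp`, `y ∈ Lm`, `x y x = c x`: if `c ≠ 0`, `c⁻¹ x y` is an
idempotent of rank `rank x = r` and `tr (x y) = c r` (`trace_idem`); if `c = 0` (or `x = 0`) then
`(x y)² = 0` and `tr (x y) = 0`. Similarly for `y x y` (the same `c`; if `y = 0` trivial). -/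
theorem K3_trace [CharZero K] [IsAlgClosed K] [FiniteDimensional K V] [Nontrivial V]
    (h : Core L ω adj) {s e f : Module.End K V} (F : Frame L s e f)
    (hall : ∀ x ∈ Lp L s, ∀ y ∈ Lm L s, ∃ c : K, x * y * x = c • x ∧ y * x * y = c • y)
    {x y : Module.End K V} (hx : x ∈ Lp L s) (hy : y ∈ Lm L s) :
    (finrank K (LinearMap.range e) : K) • (x * y * x) = LinearMap.trace K V (x * y) • x ∧
    (finrank K (LinearMap.range e) : K) • (y * x * y) = LinearMap.trace K V (x * y) • y := by
  obtain ⟨c, hc1, hc2⟩ := hall x hx y hy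
  by_cases hx0 : x = 0
  · rw [hx0]; simp
  by_cases hy0 : y = 0
  · rw [hy0]; simp
  have htr : LinearMap.trace K V (x * y) = c * (finrank K (LinearMap.range e) : K) := by
    by_cases hc : c = 0
    · have h1 : IsNilpotent (x * y) := ⟨2, by
        rw [pow_two]
        calc x * y * (x * y) = (x * y * x) * y := by noncomm_ring
          _ = 0 := by rw [hc1, hc, zero_smul, zero_mul]⟩
      rw [(LinearMap.isNilpotent_trace_of_isNilpotent h1).eq_zero, hc, zero_mul]
    · have hi : (c⁻¹ • (x * y)) * (c⁻¹ • (x * y)) = c⁻¹ • (x * y) := by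
        rw [smul_mul_smul_comm]
        have e1 : x * y * (x * y) = c • (x * y) := by
          calc x * y * (x * y) = (x * y * x) * y := by noncomm_ring
            _ = _ := by rw [hc1, smul_mul_assoc]
        rw [e1, smul_smul]
        congr 1
        field_simp
      have h1 := trace_idem hi
      have h2 : finrank K (LinearMap.range (c⁻¹ • (x * y))) = finrank K (LinearMap.range x) := by
        apply rank_eq_of_dvd (c := c⁻¹ • y) (d := x)
        · rw [mul_smul_comm]
        · rw [smul_mul_assoc, hc1, smul_smul, inv_mul_cancel₀ hc, one_smul]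
      rw [h2, K3a_rank_eq h F hall hx hx0, map_smul, smul_eq_mul] at h1
      rw [← h1, ← mul_assoc, mul_inv_cancel₀ hc, one_mul]
  rw [hc1, hc2, htr, smul_smul, smul_smul, mul_comm c]
  exact ⟨rfl, rfl⟩

/-- Chunk K3. Let `r = rank e ≠ 0`, `B (x, y) = tr (x y) / r` on `Lp × Lm`: bilinear, perfect
(`A2_nondeg`, `A2_nondeg'`), `B (e, f) = 1` (`K0_rank`), and by `K3_trace` `x y x = B (x, y) x`,
`y x y = B (x, y) y`. Choose a basis `x 0 = e`, `x 1, ..., x n` of `Lp` with `B (x i, f) = 0` for
`i ≥ 1`, and the dual basis `y j` of `Lm`: `B (x i, y j) = δ`; then `y 0 = f`. Polarising gives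
`r1`, `r2`. `irr`: a subspace stable under all `x i`, `y i` (and `s`) is stable under `Lp`, `Lm`,
hence under `L0` (`A3_span`) and `L` (`A2_decomp`). -/
theorem K3_system [CharZero K] [IsAlgClosed K] [FiniteDimensional K V] [Nontrivial V]
    (h : Core L ω adj) {s e f : Module.End K V} (F : Frame L s e f)
    (hall : ∀ x ∈ Lp L s, ∀ y ∈ Lm L s, ∃ c : K, x * y * x = c • x ∧ y * x * y = c • y) :
    ∃ (n : ℕ) (x y : Fin (n + 1) → Module.End K V), Kemmer s x y ∧ x 0 = e ∧ y 0 = f := by
  have hr0 : (finrank K (LinearMap.range e) : K) ≠ 0 := by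
    rw [Nat.cast_ne_zero]
    intro h0
    exact F.e_ne (LinearMap.range_eq_bot.1 (Submodule.finrank_eq_zero.1 h0))
  obtain ⟨r, hr⟩ : ∃ r : K, r = (finrank K (LinearMap.range e) : K) := ⟨_, rfl⟩
  rw [← hr] at hr0
  have htef : LinearMap.trace K V (e * f) = r := by rw [(K0_rank F).2.2, hr]
  -- the pairing
  let T : Lm L s →ₗ[K] Module.Dual K (Lp L s) :=
    { toFun := fun y =>
        { toFun := fun x => LinearMap.trace K V (x.1 * y.1)
          map_add' := fun a b => by
            change LinearMap.trace K V ((a.1 + b.1) * y.1) = _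
            rw [add_mul, map_add]
          map_smul' := fun c a => by
            change LinearMap.trace K V ((c • a.1) * y.1) = _
            rw [smul_mul_assoc, map_smul]; rfl }
      map_add' := fun a b => by
        ext x
        change LinearMap.trace K V (x.1 * (a.1 + b.1)) = _
        rw [mul_add, map_add]; rfl
      map_smul' := fun c a => by
        ext x
        change LinearMap.trace K V (x.1 * (c • a.1)) = _
        rw [mul_smul_comm, map_smul]; rfl }
  have hT : ∀ (y : Lm L s) (x : Lp L s), T y x = LinearMap.trace K V (x.1 * y.1) := fun _ _ => rfl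
  let T' : Lp L s →ₗ[K] Module.Dual K (Lm L s) := T.flip
  have hTi : Function.Injective T := by
    rw [injective_iff_map_eq_zero]
    intro y hy
    apply Subtype.ext
    apply A2_nondeg' h F.s_mem F.s_sq y.2
    intro x hx
    exact LinearMap.congr_fun hy ⟨x, hx⟩
  have hTi' : Function.Injective T' := by
    rw [injective_iff_map_eq_zero]
    intro x hx
    apply Subtype.ext
    apply A2_nondeg h F.s_mem F.s_sq x.2
    intro y hy
    exact LinearMap.congr_fun hx ⟨y, hy⟩
  have hdim : finrank K (Lm L s) = finrank K (Module.Dual K (Lp L s)) := by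
    apply le_antisymm
    · exact LinearMap.finrank_le_finrank_of_injective hTi
    · rw [Subspace.dual_finrank_eq]
      have := LinearMap.finrank_le_finrank_of_injective hTi'
      rwa [Subspace.dual_finrank_eq] at this
  let E := LinearEquiv.ofInjectiveOfFinrankEq T hTi hdim
  have hE : ∀ y, E y = T y := fun _ => rfl
  -- the basis
  let φ : Lp L s →ₗ[K] K := T ⟨f, F.f_mem⟩
  have hφe : φ ⟨e, F.e_mem⟩ = r := htef
  have hfree : Module.Free K (LinearMap.ker φ) :=
    @Module.Free.of_divisionRing K (LinearMap.ker φ) _ (LinearMap.ker φ).addCommGroup _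
  let b := Module.finBasis K (LinearMap.ker φ)
  have hli : ∀ c : K, ∀ x ∈ LinearMap.ker φ, c • (⟨e, F.e_mem⟩ : Lp L s) + x = 0 → c = 0 := by
    intro c x hx hcx
    have h1 := congrArg φ hcx
    rw [map_add, map_smul, hφe, LinearMap.mem_ker.1 hx, add_zero, map_zero, smul_eq_mul] at h1
    exact (mul_eq_zero.1 h1).resolve_right hr0
  have hsp : ∀ z : Lp L s, ∃ c : K, z + c • (⟨e, F.e_mem⟩ : Lp L s) ∈ LinearMap.ker φ := by
    intro z
    refine ⟨-(φ z / r), ?_⟩
    rw [LinearMap.mem_ker, map_add, map_smul, hφe, smul_eq_mul, neg_mul,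
      div_mul_cancel₀ _ hr0, add_neg_cancel]
  let B := Module.Basis.mkFinCons (⟨e, F.e_mem⟩ : Lp L s) b hli hsp
  have hB0 : B 0 = ⟨e, F.e_mem⟩ := by
    change (Module.Basis.mkFinCons _ b hli hsp) 0 = _
    rw [Module.Basis.coe_mkFinCons]; rfl
  have hBs : ∀ i : Fin (finrank K (LinearMap.ker φ)), φ (B i.succ) = 0 := by
    intro i
    change φ ((Module.Basis.mkFinCons _ b hli hsp) i.succ) = _
    rw [Module.Basis.coe_mkFinCons]
    exact LinearMap.mem_ker.1 (b i).2
  let C := B.dualBasis.map E.symm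
  have hTC : ∀ i j, T (C j) (B i) = if i = j then 1 else 0 := by
    intro i j
    have h1 : T (C j) = B.dualBasis j := by
      rw [← hE]
      change E (E.symm (B.dualBasis j)) = _
      rw [LinearEquiv.apply_symm_apply]
    rw [h1, Module.Basis.dualBasis_apply_self]
  let x : Fin (finrank K (LinearMap.ker φ) + 1) → Module.End K V := fun i => (B i).1
  let y : Fin (finrank K (LinearMap.ker φ) + 1) → Module.End K V := fun i => r • (C i).1
  have hx : ∀ i, x i ∈ Lp L s := fun i => (B i).2
  have hy : ∀ i, y i ∈ Lm L s := fun i => (Lm L s).smul_mem r (C i).2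
  have htr : ∀ i j, LinearMap.trace K V (x i * y j) = if i = j then r else 0 := by
    intro i j
    change LinearMap.trace K V ((B i).1 * (r • (C j).1)) = _
    rw [mul_smul_comm, map_smul, ← hT, hTC]
    split_ifs <;> simp
  have hpol1 : ∀ a ∈ Lp L s, ∀ a' ∈ Lp L s, ∀ d ∈ Lm L s, r • (a * d * a' + a' * d * a) =
      LinearMap.trace K V (a * d) • a' + LinearMap.trace K V (a' * d) • a := by
    intro a ha a' ha' d hd
    have h1 := (K3_trace h F hall ha hd).1
    have h2 := (K3_trace h F hall ha' hd).1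
    have h3 := (K3_trace h F hall ((Lp L s).add_mem ha ha') hd).1
    rw [← hr] at h1 h2 h3
    have e1 : (a + a') * d * (a + a') = a * d * a + a' * d * a' + (a * d * a' + a' * d * a) := by
      noncomm_ring
    rw [e1, smul_add, smul_add, h1, h2, add_mul, map_add] at h3
    have e2 : r • (a * d * a' + a' * d * a) = (LinearMap.trace K V (a * d) • a +
        LinearMap.trace K V (a' * d) • a' + r • (a * d * a' + a' * d * a)) -
        (LinearMap.trace K V (a * d) • a + LinearMap.trace K V (a' * d) • a') := by abel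
    rw [e2, h3]
    module
  have hpol2 : ∀ a ∈ Lp L s, ∀ d ∈ Lm L s, ∀ d' ∈ Lm L s, r • (d * a * d' + d' * a * d) =
      LinearMap.trace K V (a * d) • d' + LinearMap.trace K V (a * d') • d := by
    intro a ha d hd d' hd'
    have h1 := (K3_trace h F hall ha hd).2
    have h2 := (K3_trace h F hall ha hd').2
    have h3 := (K3_trace h F hall ha ((Lm L s).add_mem hd hd')).2
    rw [← hr] at h1 h2 h3
    have e1 : (d + d') * a * (d + d') = d * a * d + d' * a * d' + (d * a * d' + d' * a * d) := by
      noncomm_ring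
    rw [e1, smul_add, smul_add, h1, h2, mul_add, map_add] at h3
    have e2 : r • (d * a * d' + d' * a * d) = (LinearMap.trace K V (a * d) • d +
        LinearMap.trace K V (a * d') • d' + r • (d * a * d' + d' * a * d)) -
        (LinearMap.trace K V (a * d) • d + LinearMap.trace K V (a * d') • d') := by abel
    rw [e2, h3]
    module
  have hcancel : ∀ S T : Module.End K V, r • S = r • T → S = T := fun S T hST =>
    smul_right_injective _ hr0 hST
  refine ⟨finrank K (LinearMap.ker φ), x, y, ⟨F.s_sq, fun i => (hx i).2.1, fun i => (hx i).2.2,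
    fun i => (hy i).2.1, fun i => (hy i).2.2, ?_, ?_, ?_⟩, ?_, ?_⟩
  · intro i j k
    apply hcancel
    rw [hpol1 _ (hx i) _ (hx k) _ (hy j), htr, htr]
    split_ifs <;> simp [smul_add]
  · intro i j k
    apply hcancel
    rw [hpol2 _ (hx j) _ (hy i) _ (hy k), htr, htr]
    simp only [eq_comm (a := j)]
    split_ifs <;> simp [smul_add]
  · intro W hWx hWy hWs
    have hp : ∀ X ∈ Lp L s, ∀ w ∈ W, X w ∈ W := by
      intro X hX w hw
      have h1 := B.sum_repr ⟨X, hX⟩
      have h2 : X = ∑ i, (B.repr ⟨X, hX⟩ i) • x i := by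
        have := congrArg Subtype.val h1
        rw [AddSubmonoidClass.coe_finsetSum] at this
        exact this.symm
      rw [h2, LinearMap.sum_apply]
      exact W.sum_mem fun i _ => W.smul_mem _ (hWx i w hw)
    have hm : ∀ Y ∈ Lm L s, ∀ w ∈ W, Y w ∈ W := by
      intro Y hY w hw
      have h1 := C.sum_repr ⟨Y, hY⟩
      have h2 : Y = ∑ i, (C.repr ⟨Y, hY⟩ i) • (C i).1 := by
        have := congrArg Subtype.val h1
        rw [AddSubmonoidClass.coe_finsetSum] at this
        exact this.symm
      rw [h2, LinearMap.sum_apply]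
      refine W.sum_mem fun i _ => W.smul_mem _ ?_
      have h3 := W.smul_mem r⁻¹ (hWy i w hw)
      change r⁻¹ • (r • (C i).1) w ∈ W at h3
      rwa [LinearMap.smul_apply, smul_smul, inv_mul_cancel₀ hr0, one_smul] at h3
    have h00 : ∀ Z ∈ L0 L s, ∀ w ∈ W, Z w ∈ W := by
      intro Z hZ w hw
      have h1 := A3_span h F.s_mem F.s_sq hZ
      clear hZ
      induction h1 using Submodule.span_induction with
      | mem Z hZ =>
        obtain ⟨X, hX, Y, hY, rfl⟩ := hZ
        rw [LinearMap.sub_apply]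
        exact W.sub_mem (hp X hX _ (hm Y hY w hw)) (hm Y hY _ (hp X hX w hw))
      | zero => simp
      | add a b _ _ ha hb =>
        rw [LinearMap.add_apply]
        exact W.add_mem ha hb
      | smul c a _ ha =>
        rw [LinearMap.smul_apply]
        exact W.smul_mem c ha
    apply h.irr W
    intro X hX w hw
    obtain ⟨a, ha, b, hb, c, hc, rfl⟩ := A2_decomp h F.s_mem F.s_sq hX
    rw [LinearMap.add_apply, LinearMap.add_apply]
    exact W.add_mem (W.add_mem (hp a ha w hw) (h00 b hb w hw)) (hm c hc w hw)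
  · change (B 0).1 = e
    rw [hB0]
  · change r • (C 0).1 = f
    have h1 : r • C 0 = ⟨f, F.f_mem⟩ := by
      apply hTi
      apply B.ext
      intro i
      rw [map_smul, LinearMap.smul_apply, hTC]
      change _ = φ (B i)
      refine Fin.cases ?_ (fun i => ?_) i
      · rw [if_pos rfl, hB0, hφe, smul_eq_mul, mul_one]
      · rw [if_neg (Fin.succ_ne_zero i), hBs, smul_zero]
    exact congrArg Subtype.val h1

end Pool.Agent.H49M
end

-- from Lib.H49M.P0
section

/-!
# P0: components with respect to an integral torus element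
-/

set_option autoImplicit false
set_option linter.unusedSectionVars false
namespace Pool.Agent.H49M
open Module Pool.Agent.H53Toric

variable {K : Type*} [Field K] {V : Type*} [AddCommGroup V] [Module K V]

theorem P0_elim [CharZero K] {M : Type*} [AddCommGroup M] [Module K M] (L : Submodule K M)
    (T : M →ₗ[K] M) (hT : ∀ x ∈ L, T x ∈ L) (S : Finset ℤ) : ∀ (F : ℤ → M),
    (∀ n ∈ S, T (F n) = (n : K) • F n) → ∑ n ∈ S, F n ∈ L → ∀ n ∈ S, F n ∈ L := by
  induction S using Finset.induction_on with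
  | empty => intro F _ _ n hn; simp at hn
  | insert a S ha ih =>
    intro F hF hsum
    have h1 : ∑ n ∈ S, ((n : K) - a) • F n ∈ L := by
      have h2 := L.sub_mem (hT _ hsum) (L.smul_mem (a : K) hsum)
      rw [Finset.sum_insert ha, map_add, map_sum, hF a (Finset.mem_insert_self a S), smul_add,
        add_sub_add_left_eq_sub, Finset.smul_sum, ← Finset.sum_sub_distrib] at h2
      convert h2 using 1
      refine Finset.sum_congr rfl fun n hn => ?_
      rw [hF n (Finset.mem_insert_of_mem hn), sub_smul]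
    have h3 : ∀ n ∈ S, F n ∈ L := by
      intro n hn
      have h4 := ih (fun n => ((n : K) - a) • F n) (fun k hk => by
        rw [map_smul, hF k (Finset.mem_insert_of_mem hk), smul_comm]) h1 n hn
      have h5 : (n : K) - a ≠ 0 := by
        rw [sub_ne_zero]
        intro h
        apply ha
        have : n = a := Int.cast_injective h
        rwa [← this]
      have h6 := L.smul_mem ((n : K) - a)⁻¹ h4
      rwa [smul_smul, inv_mul_cancel₀ h5, one_smul] at h6
    intro n hn
    rcases Finset.mem_insert.mp hn with rfl | hn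
    · rw [Finset.sum_insert ha] at hsum
      have := L.sub_mem hsum (L.sum_mem h3)
      rwa [add_sub_cancel_right] at this
    · exact h3 n hn

/-- Chunk P0. Let `D = ∑ w i • c i` and `T X = D X - X D`; `T` preserves `L`. The operator
`X_n = ∑_{w i - w j = n} c i X c j` satisfies `T X_n = n X_n`, and `X = ∑_n X_n` (finite sum over the
differences `w i - w j`). Elimination: if a finite sum `∑_{n ∈ S} X_n` with `T X_n = n X_n`
(distinct scalars, characteristic zero) is in the `T`-stable space `L`, then each `X_n` is in `L`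
(induction on `S`: apply `T - n₀` and use the induction hypothesis for the terms `(n - n₀) X_n`). If
`n` is not a difference, the sum is zero. -/
theorem P0_block [CharZero K] {L : Submodule K (Module.End K V)} (hl : IsLie L) {m : ℕ}
    {c : Fin m → Module.End K V} (hc : ∀ i j, c i * c j = if i = j then c i else 0)
    (hsum : ∑ i, c i = 1) {w : Fin m → ℤ} (hD : ∑ i, (w i : K) • c i ∈ L)
    {X : Module.End K V} (hX : X ∈ L) (n : ℤ) :
    ∑ i, ∑ j, (if w i - w j = n then c i * X * c j else 0) ∈ L := by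
  classical
  set D := ∑ i, (w i : K) • c i with hDdef
  have hDc : ∀ i, D * c i = (w i : K) • c i := by
    intro i
    rw [hDdef, Finset.sum_mul]
    simp [hc]
  have hcD : ∀ i, c i * D = (w i : K) • c i := by
    intro i
    rw [hDdef, Finset.mul_sum]
    simp [hc]
  set F : ℤ → Module.End K V := fun n =>
    ∑ i, ∑ j, (if w i - w j = n then c i * X * c j else 0) with hF
  set T : Module.End K V →ₗ[K] Module.End K V :=
    LinearMap.mulLeft K D - LinearMap.mulRight K D with hT
  have hTapp : ∀ Y, T Y = D * Y - Y * D := fun Y => rfl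
  set S : Finset ℤ := (Finset.univ ×ˢ Finset.univ : Finset (Fin m × Fin m)).image
    (fun q => w q.1 - w q.2) with hS
  have hTL : ∀ Y ∈ L, T Y ∈ L := fun Y hY => hl D hD Y hY
  have hTF : ∀ n ∈ S, T (F n) = (n : K) • F n := by
    intro k _
    rw [hF]
    simp only
    rw [map_sum, Finset.smul_sum]
    refine Finset.sum_congr rfl fun i _ => ?_
    rw [map_sum, Finset.smul_sum]
    refine Finset.sum_congr rfl fun j _ => ?_
    split
    · rename_i hk
      rw [hTapp, ← mul_assoc, ← mul_assoc, hDc, mul_assoc _ (c j) D, hcD, smul_mul_assoc,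
        smul_mul_assoc, mul_smul_comm, ← sub_smul, ← hk]
      push_cast; rfl
    · rw [map_zero, smul_zero]
  have hsumF : ∑ k ∈ S, F k = X := by
    rw [hF]
    simp only
    rw [Finset.sum_comm]
    have : ∀ i ∈ (Finset.univ : Finset (Fin m)), ∑ k ∈ S, ∑ j, (if w i - w j = k then
        c i * X * c j else 0) = ∑ j, c i * X * c j := by
      intro i _
      rw [Finset.sum_comm]
      refine Finset.sum_congr rfl fun j _ => ?_
      rw [Finset.sum_ite_eq, if_pos]
      rw [hS, Finset.mem_image]
      exact ⟨(i, j), by simp, rfl⟩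
    rw [Finset.sum_congr rfl this]
    simp_rw [← Finset.mul_sum, hsum, mul_one, ← Finset.sum_mul, hsum, one_mul]
  by_cases hn : n ∈ S
  · exact P0_elim L T hTL S F hTF (by rw [hsumF]; exact hX) n hn
  · have : F n = 0 := by
      rw [hF]
      simp only
      refine Finset.sum_eq_zero fun i _ => Finset.sum_eq_zero fun j _ => ?_
      rw [if_neg]
      intro h
      apply hn
      rw [hS, Finset.mem_image]
      exact ⟨(i, j), by simp, h⟩
    change F n ∈ L
    rw [this]; exact L.zero_mem

end Pool.Agent.H49M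
end

-- from Lib.H49M.P2
section

/-!
# P2: the block decomposition of a grid
-/

set_option autoImplicit false
set_option linter.unusedSectionVars false
namespace Pool.Agent.H49M
open Module Pool.Agent.H53Toric

variable {K : Type*} [Field K] {V : Type*} [AddCommGroup V] [Module K V]

variable {L : Submodule K (Module.End K V)} {ω : V →ₗ[K] V →ₗ[K] K}
  {adj : Module.End K V →ₗ[K] Module.End K V}

/-- The block components of `L`. -/
theorem P2_aux [CharZero K] (hl : IsLie L) {p q : Fin 3 → Module.End K V}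
    (hpp : ∀ i j, p i * p j = if i = j then p i else 0)
    (hqq : ∀ i j, q i * q j = if i = j then q i else 0)
    (hpq : ∀ i j, p i * q j = 0) (hqp : ∀ i j, q i * p j = 0)
    (hsum : p 0 + p 1 + p 2 + (q 0 + q 1 + q 2) = 1)
    (hmem : ∀ i, p i - q i ∈ L) {X : Module.End K V} (hX : X ∈ L) (n : ℤ) :
    ∑ i, ∑ j, (if (![1, 10, 100, -1, -10, -100] : Fin 6 → ℤ) i -
      (![1, 10, 100, -1, -10, -100] : Fin 6 → ℤ) j = n then
      (![p 0, p 1, p 2, q 0, q 1, q 2] : Fin 6 → Module.End K V) i * X *
      (![p 0, p 1, p 2, q 0, q 1, q 2] : Fin 6 → Module.End K V) j else 0) ∈ L := by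
  refine P0_block hl (c := ![p 0, p 1, p 2, q 0, q 1, q 2]) ?_ ?_
    (w := ![1, 10, 100, -1, -10, -100]) ?_ hX n
  · intro i j
    fin_cases i <;> fin_cases j <;> simp [hpp, hqq, hpq, hqp]
  · rw [← hsum]
    simp [Fin.sum_univ_succ]
    abel
  · have h1 : ∑ i, (((![1, 10, 100, -1, -10, -100] : Fin 6 → ℤ) i : ℤ) : K) •
        (![p 0, p 1, p 2, q 0, q 1, q 2] : Fin 6 → Module.End K V) i =
        (p 0 - q 0) + (10 : K) • (p 1 - q 1) + (100 : K) • (p 2 - q 2) := by
      simp [Fin.sum_univ_succ]
      module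
    rw [h1]
    exact L.add_mem (L.add_mem (hmem 0) (L.smul_mem _ (hmem 1))) (L.smul_mem _ (hmem 2))

/-- Chunk P2. The idempotents: `e f`, `e' f'` are idempotent, orthogonal (`e f e' = 0`), absorbed
by `(1+s)/2`; same on the other side. `adj s = -s`, `adj (e f) = adj f adj e = f e` (`A0_mul`,
`Core.skew`). `mem`: `p 1 - q 1 = e f - f e`, `p 2 - q 2 = e' f' - f' e'` (`K0_H`) and
`p 0 - q 0 = s - (p 1 - q 1) - (p 2 - q 2)`. The other fields follow from `P0_block` with
`c = (p 0, p 1, p 2, q 0, q 1, q 2)` (`Fin 6`) and weights `(1, 10, 100, -1, -10, -100)`: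
`D = (p 0 - q 0) + 10 (p 1 - q 1) + 100 (p 2 - q 2)`; the difference `w (p i) - w (p j)`, `i ≠ j`,
occurs only for `p i X p j` and `q j X q i`, the difference `w (p i) + w (p j)` only for
`p i X q j`, `p j X q i`, and `0` only for the diagonal blocks. -/
theorem P2_blocks [CharZero K] (h : Core L ω adj) {s e f e' f' u : Module.End K V}
    (G : Grid L s e f e' f' u) : Blocks L adj (pp s e f e' f') (qq s e f e' f') := by
  obtain ⟨P, hP⟩ : ∃ P : Module.End K V, P = (1 / 2 : K) • (1 + s) := ⟨_, rfl⟩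
  obtain ⟨Q, hQ⟩ : ∃ Q : Module.End K V, Q = (1 / 2 : K) • (1 - s) := ⟨_, rfl⟩
  have hs2 := G.F.s_sq
  have hPP : P * P = P := by
    rw [hP, smul_mul_smul_comm]
    have : (1 + s) * (1 + s) = (2 : K) • (1 + s) := by
      have e1 : (1 + s) * (1 + s) = 1 + s + s + s * s := by noncomm_ring
      rw [e1, hs2, two_smul]; abel
    rw [this, smul_smul]; norm_num
  have hQQ : Q * Q = Q := by
    rw [hQ, smul_mul_smul_comm]
    have : (1 - s) * (1 - s) = (2 : K) • (1 - s) := by
      have e1 : (1 - s) * (1 - s) = 1 - s - s + s * s := by noncomm_ring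
      rw [e1, hs2, two_smul]; abel
    rw [this, smul_smul]; norm_num
  have hPQ : P * Q = 0 := by
    rw [hP, hQ, smul_mul_smul_comm]
    have e1 : (1 + s) * (1 - s) = 1 - s * s := by noncomm_ring
    rw [e1, hs2, sub_self, smul_zero]
  have hQP : Q * P = 0 := by
    rw [hP, hQ, smul_mul_smul_comm]
    have e1 : (1 - s) * (1 + s) = 1 - s * s := by noncomm_ring
    rw [e1, hs2, sub_self, smul_zero]
  have hPpQ : P + Q = 1 := by
    rw [hP, hQ, ← smul_add]
    have : (1 + s + (1 - s)) = (2 : K) • (1 : Module.End K V) := by rw [two_smul]; abel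
    rw [this, smul_smul]; norm_num
  -- absorption
  have aP : ∀ {X : Module.End K V}, s * X = X → P * X = X := by
    intro X hX
    rw [hP, smul_mul_assoc, add_mul, one_mul, hX, ← two_smul K, smul_smul]; norm_num
  have aP' : ∀ {X : Module.End K V}, X * s = X → X * P = X := by
    intro X hX
    rw [hP, mul_smul_comm, mul_add, mul_one, hX, ← two_smul K, smul_smul]; norm_num
  have aQ : ∀ {X : Module.End K V}, s * X = -X → Q * X = X := by
    intro X hX
    rw [hQ, smul_mul_assoc, sub_mul, one_mul, hX, sub_neg_eq_add, ← two_smul K, smul_smul]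
    norm_num
  have aQ' : ∀ {X : Module.End K V}, X * s = -X → X * Q = X := by
    intro X hX
    rw [hQ, mul_smul_comm, mul_sub, mul_one, hX, sub_neg_eq_add, ← two_smul K, smul_smul]
    norm_num
  have ePe : P * e = e := aP G.F.e_mem.2.1
  have eQe : e * Q = e := aQ' G.F.e_mem.2.2
  have fQf : Q * f = f := aQ G.F.f_mem.2.1
  have fPf : f * P = f := aP' G.F.f_mem.2.2
  have ePe' : P * e' = e' := aP G.F'.e_mem.2.1
  have eQe' : e' * Q = e' := aQ' G.F'.e_mem.2.2
  have fQf' : Q * f' = f' := aQ G.F'.f_mem.2.1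
  have fPf' : f' * P = f' := aP' G.F'.f_mem.2.2
  -- idempotents
  have t1 : e * f * (e * f) = e * f := by rw [← mul_assoc, G.F.efe]
  have t2 : e' * f' * (e' * f') = e' * f' := by rw [← mul_assoc, G.F'.efe]
  have t3 : e * f * (e' * f') = 0 := by
    rw [mul_assoc, ← mul_assoc f, G.o4, zero_mul, mul_zero]
  have t4 : e' * f' * (e * f) = 0 := by
    rw [mul_assoc, ← mul_assoc f', G.o2, zero_mul, mul_zero]
  have t5 : P * (e * f) = e * f := by rw [← mul_assoc, ePe]
  have t6 : e * f * P = e * f := by rw [mul_assoc, fPf]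
  have t7 : P * (e' * f') = e' * f' := by rw [← mul_assoc, ePe']
  have t8 : e' * f' * P = e' * f' := by rw [mul_assoc, fPf']
  have r1 : f * e * (f * e) = f * e := by rw [← mul_assoc, G.F.fef]
  have r2 : f' * e' * (f' * e') = f' * e' := by rw [← mul_assoc, G.F'.fef]
  have r3 : f * e * (f' * e') = 0 := by
    rw [mul_assoc, ← mul_assoc e, G.o1, zero_mul, mul_zero]
  have r4 : f' * e' * (f * e) = 0 := by
    rw [mul_assoc, ← mul_assoc e', G.o3, zero_mul, mul_zero]
  have r5 : Q * (f * e) = f * e := by rw [← mul_assoc, fQf]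
  have r6 : f * e * Q = f * e := by rw [mul_assoc, eQe]
  have r7 : Q * (f' * e') = f' * e' := by rw [← mul_assoc, fQf']
  have r8 : f' * e' * Q = f' * e' := by rw [mul_assoc, eQe']
  have epp : pp s e f e' f' = ![P - e * f - e' * f', e * f, e' * f'] := by rw [pp, hP]
  have eqq : qq s e f e' f' = ![Q - f * e - f' * e', f * e, f' * e'] := by rw [qq, hQ]
  obtain ⟨p, hp⟩ : ∃ p, p = pp s e f e' f' := ⟨_, rfl⟩
  obtain ⟨q, hq⟩ : ∃ q, q = qq s e f e' f' := ⟨_, rfl⟩
  have p0 : p 0 = P - e * f - e' * f' := by rw [hp, epp]; rfl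
  have p1 : p 1 = e * f := by rw [hp, epp]; rfl
  have p2 : p 2 = e' * f' := by rw [hp, epp]; rfl
  have q0 : q 0 = Q - f * e - f' * e' := by rw [hq, eqq]; rfl
  have q1 : q 1 = f * e := by rw [hq, eqq]; rfl
  have q2 : q 2 = f' * e' := by rw [hq, eqq]; rfl
  rw [← hp, ← hq]
  have hpp : ∀ i j, p i * p j = if i = j then p i else 0 := by
    intro i j
    fin_cases i <;> fin_cases j <;>
      simp [p0, p1, p2, sub_mul, mul_sub, hPP, t1, t2, t3, t4, t5, t6, t7, t8]
  have hqq : ∀ i j, q i * q j = if i = j then q i else 0 := by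
    intro i j
    fin_cases i <;> fin_cases j <;>
      simp [q0, q1, q2, sub_mul, mul_sub, hQQ, r1, r2, r3, r4, r5, r6, r7, r8]
  have hpP : ∀ i, p i * P = p i ∧ P * p i = p i := by
    intro i
    fin_cases i <;> simp [p0, p1, p2, sub_mul, mul_sub, hPP, t5, t6, t7, t8]
  have hqQ : ∀ i, q i * Q = q i ∧ Q * q i = q i := by
    intro i
    fin_cases i <;> simp [q0, q1, q2, sub_mul, mul_sub, hQQ, r5, r6, r7, r8]
  have hpq : ∀ i j, p i * q j = 0 := by
    intro i j
    rw [← (hpP i).1, ← (hqQ j).2, mul_assoc, ← mul_assoc P, hPQ, zero_mul, mul_zero]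
  have hqp : ∀ i j, q i * p j = 0 := by
    intro i j
    rw [← (hqQ i).1, ← (hpP j).2, mul_assoc, ← mul_assoc Q, hQP, zero_mul, mul_zero]
  have hsum : p 0 + p 1 + p 2 + (q 0 + q 1 + q 2) = 1 := by
    rw [p0, p1, p2, q0, q1, q2, ← hPpQ]; abel
  have hl := h.lie
  have H1 : e * f - f * e ∈ L := K0_H hl G.F
  have H2 : e' * f' - f' * e' ∈ L := K0_H hl G.F'
  have hmem : ∀ i, p i - q i ∈ L := by
    have h0 : p 0 - q 0 = s - (e * f - f * e) - (e' * f' - f' * e') := by
      have : s = P - Q := by
        rw [hP, hQ, ← smul_sub]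
        have : (1 + s - (1 - s)) = (2 : K) • s := by rw [two_smul]; abel
        rw [this, smul_smul]; norm_num
      rw [this, p0, q0]; abel
    intro i
    fin_cases i
    · change p 0 - q 0 ∈ L
      rw [h0]
      exact L.sub_mem (L.sub_mem G.F.s_mem H1) H2
    · change p 1 - q 1 ∈ L
      rw [p1, q1]; exact H1
    · change p 2 - q 2 ∈ L
      rw [p2, q2]; exact H2
  -- the adjoint
  have as : adj s = -s := h.skew s G.F.s_mem
  have ae : adj e = -e := h.skew e G.F.e_mem.1
  have af : adj f = -f := h.skew f G.F.f_mem.1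
  have ae' : adj e' = -e' := h.skew e' G.F'.e_mem.1
  have af' : adj f' = -f' := h.skew f' G.F'.f_mem.1
  have a1 : adj 1 = 1 := by
    rw [← hs2, A0_mul h, as, neg_mul_neg]
  have aPQ : adj P = Q := by rw [hP, hQ, map_smul, map_add, a1, as, sub_eq_add_neg]
  have aef : adj (e * f) = f * e := by rw [A0_mul h, ae, af, neg_mul_neg]
  have aef' : adj (e' * f') = f' * e' := by rw [A0_mul h, ae', af', neg_mul_neg]
  have hadjp : ∀ i, adj (p i) = q i := by
    intro i
    fin_cases i
    · change adj (p 0) = q 0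
      rw [p0, q0, map_sub, map_sub, aPQ, aef, aef']
    · change adj (p 1) = q 1
      rw [p1, q1, aef]
    · change adj (p 2) = q 2
      rw [p2, q2, aef']
  have hadjq : ∀ i, adj (q i) = p i := by
    intro i
    rw [← hadjp, A0_adj h]
  have key := fun {X : Module.End K V} (hX : X ∈ L) (n : ℤ) =>
    P2_aux hl hpp hqq hpq hqp hsum hmem hX n
  refine ⟨hpp, hqq, hpq, hqp, hsum, hadjp, hadjq, hmem, ?_, ?_, ?_, ?_, ?_, ?_⟩
  · intro X hX i j hij
    fin_cases i <;> fin_cases j
    · exact absurd rfl hij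
    · have := key hX (-9)
      simp [Fin.sum_univ_succ] at this
      first | (simpa using this) | (rw [add_comm]; simpa using this)
    · have := key hX (-99)
      simp [Fin.sum_univ_succ] at this
      first | (simpa using this) | (rw [add_comm]; simpa using this)
    · have := key hX 9
      simp [Fin.sum_univ_succ] at this
      first | (simpa using this) | (rw [add_comm]; simpa using this)
    · exact absurd rfl hij
    · have := key hX (-90)
      simp [Fin.sum_univ_succ] at this
      first | (simpa using this) | (rw [add_comm]; simpa using this)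
    · have := key hX 99
      simp [Fin.sum_univ_succ] at this
      first | (simpa using this) | (rw [add_comm]; simpa using this)
    · have := key hX 90
      simp [Fin.sum_univ_succ] at this
      first | (simpa using this) | (rw [add_comm]; simpa using this)
    · exact absurd rfl hij
  · intro X hX i j hij
    fin_cases i <;> fin_cases j
    · exact absurd rfl hij
    · have := key hX 11
      simp [Fin.sum_univ_succ] at this
      first | (simpa using this) | (rw [add_comm]; simpa using this)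
    · have := key hX 101
      simp [Fin.sum_univ_succ] at this
      first | (simpa using this) | (rw [add_comm]; simpa using this)
    · have := key hX 11
      simp [Fin.sum_univ_succ] at this
      first | (simpa using this) | (rw [add_comm]; simpa using this)
    · exact absurd rfl hij
    · have := key hX 110
      simp [Fin.sum_univ_succ] at this
      first | (simpa using this) | (rw [add_comm]; simpa using this)
    · have := key hX 101
      simp [Fin.sum_univ_succ] at this
      first | (simpa using this) | (rw [add_comm]; simpa using this)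
    · have := key hX 110
      simp [Fin.sum_univ_succ] at this
      first | (simpa using this) | (rw [add_comm]; simpa using this)
    · exact absurd rfl hij
  · intro X hX i j hij
    fin_cases i <;> fin_cases j
    · exact absurd rfl hij
    · have := key hX (-11)
      simp [Fin.sum_univ_succ] at this
      first | (simpa using this) | (rw [add_comm]; simpa using this)
    · have := key hX (-101)
      simp [Fin.sum_univ_succ] at this
      first | (simpa using this) | (rw [add_comm]; simpa using this)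
    · have := key hX (-11)
      simp [Fin.sum_univ_succ] at this
      first | (simpa using this) | (rw [add_comm]; simpa using this)
    · exact absurd rfl hij
    · have := key hX (-110)
      simp [Fin.sum_univ_succ] at this
      first | (simpa using this) | (rw [add_comm]; simpa using this)
    · have := key hX (-101)
      simp [Fin.sum_univ_succ] at this
      first | (simpa using this) | (rw [add_comm]; simpa using this)
    · have := key hX (-110)
      simp [Fin.sum_univ_succ] at this
      first | (simpa using this) | (rw [add_comm]; simpa using this)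
    · exact absurd rfl hij
  · intro X hX i
    fin_cases i
    · have := key hX 2
      simp [Fin.sum_univ_succ] at this
      simpa using this
    · have := key hX 20
      simp [Fin.sum_univ_succ] at this
      simpa using this
    · have := key hX 200
      simp [Fin.sum_univ_succ] at this
      simpa using this
  · intro X hX i
    fin_cases i
    · have := key hX (-2)
      simp [Fin.sum_univ_succ] at this
      simpa using this
    · have := key hX (-20)
      simp [Fin.sum_univ_succ] at this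
      simpa using this
    · have := key hX (-200)
      simp [Fin.sum_univ_succ] at this
      simpa using this
  · intro X hX
    have := key hX 0
    simp [Fin.sum_univ_succ] at this
    simpa [add_assoc] using this

end Pool.Agent.H49M
end
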