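import Pool.Agent.Lib.H1M.RC.M016

/-! Merged copies (to shorten the build) of Lib.H86N.Defs, Lib.H86N.A1, Lib.H86N.A2, Lib.H86N.K0, Lib.H86N.A3, Lib.H86N.A3s, Lib.H86N.A3v, Lib.H86N.K3. -/

-- from Lib.H86N.Defs
section

/-!
# H86N: simple Lie algebras containing an involution, without a form
-/

set_option autoImplicit false
set_option linter.unusedSectionVars false
namespace Pool.Agent.H86N
open Module Pool.Agent.H53Toric Pool.Agent.H49M

variable {K : Type*} [Field K] {V : Type*} [AddCommGroup V] [Module K V]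

/-- The standing assumptions: `L` is an irreducible simple Lie algebra of operators of trace zero. -/
structure CoreN (L : Submodule K (Module.End K V)) : Prop where
  lie : IsLie L
  irr : Irr L
  simple : ∀ I : Submodule K (Module.End K V), I ≤ L →
    (∀ X ∈ L, ∀ Y ∈ I, X * Y - Y * X ∈ I) → I = ⊥ ∨ I = L
  tr : ∀ X ∈ L, LinearMap.trace K V X = 0

/-- The form-free version of `Setup`. -/
structure SetupN (g : Submodule K (Module.End K V)) : Prop where
  lie : IsLie g
  irr : Irr g
  tr : ∀ X ∈ g, LinearMap.trace K V X = 0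
  span : g ≤ Submodule.span K {y | y ∈ g ∧ y * y = 1}

/-- A system of idempotents compatible with `L`. -/
structure BlocksN (L : Submodule K (Module.End K V)) (p q : Fin 3 → Module.End K V) : Prop where
  pp : ∀ i j, p i * p j = if i = j then p i else 0
  qq : ∀ i j, q i * q j = if i = j then q i else 0
  pq : ∀ i j, p i * q j = 0
  qp : ∀ i j, q i * p j = 0
  sum : p 0 + p 1 + p 2 + (q 0 + q 1 + q 2) = 1
  mem : ∀ i, p i - q i ∈ L
  m0 : ∀ X ∈ L, ∀ i j, i ≠ j → p i * X * p j + q j * X * q i ∈ L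
  mp : ∀ X ∈ L, ∀ i j, i ≠ j → p i * X * q j + p j * X * q i ∈ L
  mm : ∀ X ∈ L, ∀ i j, i ≠ j → q i * X * p j + q j * X * p i ∈ L
  mpp : ∀ X ∈ L, ∀ i, p i * X * q i ∈ L
  mmm : ∀ X ∈ L, ∀ i, q i * X * p i ∈ L
  md : ∀ X ∈ L, p 0 * X * p 0 + p 1 * X * p 1 + p 2 * X * p 2 +
    (q 0 * X * q 0 + q 1 * X * q 1 + q 2 * X * q 2) ∈ L

end Pool.Agent.H86N
end

-- from Lib.H86N.A1
section

/-!
# A1: the Lie algebra is spanned by involutions
-/

set_option autoImplicit false
set_option linter.unusedSectionVars false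
namespace Pool.Agent.H86N
open Module Pool.Agent.H53Toric Pool.Agent.H49M

variable {K : Type*} [Field K] {V : Type*} [AddCommGroup V] [Module K V]

variable {L : Submodule K (Module.End K V)}

theorem A1_pert [CharZero K] (h : CoreN L) {y N : Module.End K V} (hy : y ∈ L)
    (hy2 : y * y = 1) (hN : N ∈ L) (hNN : N * N = 0) (hyN : y * N = -(N * y)) :
    N ∈ Submodule.span K {y | y ∈ L ∧ y * y = 1} := by
  have h1 : y ∈ Submodule.span K {y | y ∈ L ∧ y * y = 1} := Submodule.subset_span ⟨hy, hy2⟩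
  have h2 : y - N ∈ Submodule.span K {y | y ∈ L ∧ y * y = 1} := by
    refine Submodule.subset_span ⟨L.sub_mem hy hN, ?_⟩
    have e : (y - N) * (y - N) = y * y - y * N - N * y + N * N := by noncomm_ring
    rw [e, hy2, hyN, hNN]
    simp
  have h3 := (Submodule.span K {y | y ∈ L ∧ y * y = 1}).sub_mem h1 h2
  rwa [sub_sub_cancel] at h3

/-- Chunk A1. Let `I` be the span of the involutions `y` of `L`; `I ≤ L`. It is an ideal: for
`X ∈ L` and an involution `y ∈ L` the elements `N₊ = (1 + y) X (1 - y)` and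
`N₋ = (1 - y) X (1 + y)` are in `L` (`IsLie.plus`, `IsLie.minus`), have square zero and
anticommute with `y`, so `y - N₊`, `y - N₋` are involutions of `L` and `N₊, N₋ ∈ I`; and
`X y - y X = (1 / 2) (N₋ - N₊)`. As `s ∈ I` and `s ≠ 0` (`s s = 1`, `V ≠ 0`), `I = L` because
`L` is simple. (Compare `Amb.pert`, `Amb.bracket` in H53Toric.Core10.) -/
theorem A1_span [CharZero K] [Nontrivial V] (h : CoreN L) {s : Module.End K V} (hs : s ∈ L)
    (hs2 : s * s = 1) : L ≤ Submodule.span K {y | y ∈ L ∧ y * y = 1} := by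
  set I := Submodule.span K {y | y ∈ L ∧ y * y = 1} with hI
  have hIL : I ≤ L := Submodule.span_le.2 fun y hy => hy.1
  have hid : ∀ X ∈ L, ∀ Y ∈ I, X * Y - Y * X ∈ I := by
    intro X hX Y hY
    induction hY using Submodule.span_induction with
    | mem y hy =>
      obtain ⟨hy, hy2⟩ := hy
      have p1 : (1 + y) * X * (1 - y) ∈ I := by
        refine A1_pert h hy hy2 (h.lie.plus hy hy2 hX) ?_ ?_
        · calc (1 + y) * X * (1 - y) * ((1 + y) * X * (1 - y)) =
              (1 + y) * X * (1 - y * y) * X * (1 - y) := by noncomm_ring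
            _ = 0 := by rw [hy2, sub_self]; simp
        · have e1 : y * ((1 + y) * X * (1 - y)) = (y + y * y) * X * (1 - y) := by noncomm_ring
          have e2 : (1 + y) * X * (1 - y) * y = (1 + y) * X * (y - y * y) := by noncomm_ring
          rw [e1, e2, hy2]
          noncomm_ring
      have p2 : (1 - y) * X * (1 + y) ∈ I := by
        refine A1_pert h hy hy2 (h.lie.minus hy hy2 hX) ?_ ?_
        · calc (1 - y) * X * (1 + y) * ((1 - y) * X * (1 + y)) =
              (1 - y) * X * (1 - y * y) * X * (1 + y) := by noncomm_ring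
            _ = 0 := by rw [hy2, sub_self]; simp
        · have e1 : y * ((1 - y) * X * (1 + y)) = (y - y * y) * X * (1 + y) := by noncomm_ring
          have e2 : (1 - y) * X * (1 + y) * y = (1 - y) * X * (y + y * y) := by noncomm_ring
          rw [e1, e2, hy2]
          noncomm_ring
      have p3 := I.smul_mem (1 / 2 : K) (I.sub_mem p2 p1)
      have e : (1 - y) * X * (1 + y) - (1 + y) * X * (1 - y) = (2 : K) • (X * y - y * X) := by
        have : (1 - y) * X * (1 + y) - (1 + y) * X * (1 - y) =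
            (X * y - y * X) + (X * y - y * X) := by noncomm_ring
        rw [this, two_smul]
      rw [e, smul_smul] at p3
      norm_num at p3
      exact p3
    | zero => simp
    | add a b _ _ ha hb =>
      have e : X * (a + b) - (a + b) * X = (X * a - a * X) + (X * b - b * X) := by noncomm_ring
      rw [e]
      exact I.add_mem ha hb
    | smul c a _ ha =>
      rw [mul_smul_comm, smul_mul_assoc, ← smul_sub]
      exact I.smul_mem c ha
  rcases h.simple I hIL hid with h0 | h0
  · exfalso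
    have h1 : s ∈ I := Submodule.subset_span ⟨hs, hs2⟩
    rw [h0, Submodule.mem_bot] at h1
    rw [h1, mul_zero] at hs2
    exact zero_ne_one hs2
  · exact h0.ge

theorem A1_setup [CharZero K] [FiniteDimensional K V] [Nontrivial V] (h : CoreN L)
    {s : Module.End K V} (hs : s ∈ L) (hs2 : s * s = 1) : SetupN L where
  lie := h.lie
  irr := h.irr
  tr := h.tr
  span := A1_span h hs hs2

end Pool.Agent.H86N
end

-- from Lib.H86N.A2
section

/-!
# A2: the grading given by an involution
-/

set_option autoImplicit false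
set_option linter.unusedSectionVars false
namespace Pool.Agent.H86N
open Module Pool.Agent.H53Toric Pool.Agent.H49M

variable {K : Type*} [Field K] {V : Type*} [AddCommGroup V] [Module K V]

variable {L : Submodule K (Module.End K V)}

/-- Chunk A2. `X = (1/4)(1+s)X(1-s) + (1/4)(1-s)X(1+s) + rest`, the first two are in `L` by
`IsLie.plus`, `IsLie.minus`, and the rest `(1/4)(1+s)X(1+s) + (1/4)(1-s)X(1-s)` commutes with
`s`. -/
theorem A2_decomp [CharZero K] (h : CoreN L) {s : Module.End K V} (hs : s ∈ L)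
    (hs2 : s * s = 1) {X : Module.End K V} (hX : X ∈ L) :
    ∃ a ∈ Lp L s, ∃ b ∈ L0 L s, ∃ c ∈ Lm L s, X = a + b + c := by
  have hp := h.lie.plus hs hs2 hX
  have hm := h.lie.minus hs hs2 hX
  have e1 : s * ((1 + s) * X * (1 - s)) = (1 + s) * X * (1 - s) := by
    have : s * ((1 + s) * X * (1 - s)) = (s + s * s) * X * (1 - s) := by noncomm_ring
    rw [this, hs2, add_comm s 1]
  have e2 : (1 + s) * X * (1 - s) * s = -((1 + s) * X * (1 - s)) := by
    have : (1 + s) * X * (1 - s) * s = (1 + s) * X * (s - s * s) := by noncomm_ring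
    rw [this, hs2]; noncomm_ring
  have e3 : s * ((1 - s) * X * (1 + s)) = -((1 - s) * X * (1 + s)) := by
    have : s * ((1 - s) * X * (1 + s)) = (s - s * s) * X * (1 + s) := by noncomm_ring
    rw [this, hs2]; noncomm_ring
  have e4 : (1 - s) * X * (1 + s) * s = (1 - s) * X * (1 + s) := by
    have : (1 - s) * X * (1 + s) * s = (1 - s) * X * (s + s * s) := by noncomm_ring
    rw [this, hs2, add_comm s 1]
  have ha : (1 / 4 : K) • ((1 + s) * X * (1 - s)) ∈ Lp L s :=
    (Lp L s).smul_mem _ ⟨hp, e1, e2⟩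
  have hc : (1 / 4 : K) • ((1 - s) * X * (1 + s)) ∈ Lm L s :=
    (Lm L s).smul_mem _ ⟨hm, e3, e4⟩
  refine ⟨_, ha, X - (1 / 4 : K) • ((1 + s) * X * (1 - s)) -
    (1 / 4 : K) • ((1 - s) * X * (1 + s)), ⟨L.sub_mem (L.sub_mem hX ha.1) hc.1, ?_⟩, _, hc, ?_⟩
  · have e5 : (1 + s) * X * (1 - s) = X - X * s + s * X - s * X * s := by noncomm_ring
    have e6 : (1 - s) * X * (1 + s) = X + X * s - s * X - s * X * s := by noncomm_ring
    generalize (1 + s) * X * (1 - s) = P at *
    generalize (1 - s) * X * (1 + s) = Q at *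
    rw [mul_sub, mul_sub, sub_mul, sub_mul, mul_smul_comm, mul_smul_comm, smul_mul_assoc,
      smul_mul_assoc, e1, e2, e3, e4, e5, e6]
    module
  · abel

/-- `X Y = X (s Y) = (X s) Y = - X Y`. -/
theorem A2_pp [CharZero K] {s X Y : Module.End K V} (hX : X ∈ Lp L s) (hY : Y ∈ Lp L s) :
    X * Y = 0 := by
  have h1 : X * (s * Y) = (X * s) * Y := by rw [mul_assoc]
  rw [hY.2.1, hX.2.2, neg_mul] at h1
  have h2 : (2 : K) • (X * Y) = 0 := by
    rw [two_smul]
    nth_rw 1 [h1]
    exact neg_add_cancel _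
  exact (smul_eq_zero.1 h2).resolve_left (by norm_num)

theorem A2_mm [CharZero K] {s X Y : Module.End K V} (hX : X ∈ Lm L s) (hY : Y ∈ Lm L s) :
    X * Y = 0 := by
  have h1 : X * (s * Y) = (X * s) * Y := by rw [mul_assoc]
  rw [hY.2.1, hX.2.2, mul_neg] at h1
  have h2 : (2 : K) • (X * Y) = 0 := by
    rw [two_smul]
    nth_rw 1 [← h1]
    exact neg_add_cancel _
  exact (smul_eq_zero.1 h2).resolve_left (by norm_num)

/-- The trace form pairs weight `1` with weight `-1`: if `X` has weight one and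
`tr (X Y) = 0` for all `Y` of weight `-1`, then `X = 0`. Proof: for `Z = a + b + c ∈ L`
(`A2_decomp`), `X a = 0`, `tr (X b) = tr (s X b) = tr (X b s) = tr (X s b) = - tr (X b)`, so
`tr (X Z) = tr (X c) = 0`; use `trace_nondeg` of H53Toric.Core1 (the traces vanish by
`(A1_setup ..).tr`). -/
theorem A2_nondeg [CharZero K] [IsAlgClosed K] [FiniteDimensional K V] [Nontrivial V]
    (h : CoreN L) {s : Module.End K V} (hs : s ∈ L) (hs2 : s * s = 1) {X : Module.End K V}
    (hX : X ∈ Lp L s) (h0 : ∀ Y ∈ Lm L s, LinearMap.trace K V (X * Y) = 0) : X = 0 := by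
  apply trace_nondeg h.lie h.irr h.tr hX.1
  intro Z hZ
  obtain ⟨a, ha, b, hb, c, hc, rfl⟩ := A2_decomp h hs hs2 hZ
  rw [mul_add, mul_add, A2_pp hX ha, zero_add, map_add, h0 c hc, add_zero]
  have h1 : LinearMap.trace K V (X * b) = -LinearMap.trace K V (X * b) := by
    calc LinearMap.trace K V (X * b) = LinearMap.trace K V (s * (X * b)) := by
          rw [← mul_assoc, hX.2.1]
      _ = LinearMap.trace K V ((X * b) * s) := LinearMap.trace_mul_comm K s (X * b)
      _ = LinearMap.trace K V ((X * s) * b) := by rw [mul_assoc, ← hb.2, ← mul_assoc]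
      _ = _ := by rw [hX.2.2, neg_mul, map_neg]
  have h2 : (2 : K) * LinearMap.trace K V (X * b) = 0 := by linear_combination h1
  exact (mul_eq_zero.1 h2).resolve_left (by norm_num)

theorem A2_nondeg' [CharZero K] [IsAlgClosed K] [FiniteDimensional K V] [Nontrivial V]
    (h : CoreN L) {s : Module.End K V} (hs : s ∈ L) (hs2 : s * s = 1) {Y : Module.End K V}
    (hY : Y ∈ Lm L s) (h0 : ∀ X ∈ Lp L s, LinearMap.trace K V (X * Y) = 0) : Y = 0 := by
  apply trace_nondeg h.lie h.irr h.tr hY.1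
  intro Z hZ
  obtain ⟨a, ha, b, hb, c, hc, rfl⟩ := A2_decomp h hs hs2 hZ
  have h3 : LinearMap.trace K V (Y * a) = 0 := by
    rw [LinearMap.trace_mul_comm]; exact h0 a ha
  rw [mul_add, mul_add, A2_mm hY hc, add_zero, map_add, h3, zero_add]
  have h1 : LinearMap.trace K V (Y * b) = -LinearMap.trace K V (Y * b) := by
    calc LinearMap.trace K V (Y * b) = LinearMap.trace K V ((Y * s) * b) := by
          rw [hY.2.2]
      _ = LinearMap.trace K V ((Y * b) * s) := by rw [mul_assoc, hb.2, ← mul_assoc]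
      _ = LinearMap.trace K V (s * (Y * b)) := LinearMap.trace_mul_comm K (Y * b) s
      _ = _ := by rw [← mul_assoc, hY.2.1, neg_mul, map_neg]
  have h2 : (2 : K) * LinearMap.trace K V (Y * b) = 0 := by linear_combination h1
  exact (mul_eq_zero.1 h2).resolve_left (by norm_num)

/-- If `Lp L s = 0`, then `Lm L s = 0` by `A2_nondeg'`, hence `L = L0 L s` by `A2_decomp`, so
the range of `1 + s` is stable under `L` and `s = 1` or `s = -1` by irreducibility; but
`tr s = 0` (`(A1_setup ..).tr`) and `V ≠ 0`, characteristic zero. -/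
theorem A2_ne [CharZero K] [IsAlgClosed K] [FiniteDimensional K V] [Nontrivial V]
    (h : CoreN L) {s : Module.End K V} (hs : s ∈ L) (hs2 : s * s = 1) : Lp L s ≠ ⊥ := by
  intro hp
  have hm : ∀ Y ∈ Lm L s, Y = 0 := by
    intro Y hY
    apply A2_nondeg' h hs hs2 hY
    intro X hX
    rw [hp, Submodule.mem_bot] at hX
    rw [hX, zero_mul, map_zero]
  have hcomm : ∀ Z ∈ L, s * Z = Z * s := by
    intro Z hZ
    obtain ⟨a, ha, b, hb, c, hc, rfl⟩ := A2_decomp h hs hs2 hZ
    rw [hp, Submodule.mem_bot] at ha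
    rw [ha, hm c hc, zero_add, add_zero]
    exact hb.2
  have hst := h.irr (LinearMap.range (1 + s)) (by
    rintro X hX _ ⟨v, rfl⟩
    refine ⟨X v, ?_⟩
    have h1 : (1 + s) * X = X * (1 + s) := by rw [add_mul, mul_add, hcomm X hX, one_mul, mul_one]
    exact LinearMap.congr_fun h1 v)
  have htr := h.tr s hs
  have hV : (finrank K V : K) ≠ 0 := by
    exact_mod_cast (finrank_pos (R := K) (M := V)).ne'
  rcases hst with h1 | h1
  · have h2 : s = -1 := by
      rw [LinearMap.range_eq_bot] at h1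
      exact eq_neg_of_add_eq_zero_right h1
    rw [h2, map_neg, LinearMap.trace_one, neg_eq_zero] at htr
    exact hV htr
  · have h2 : s = 1 := by
      ext v
      obtain ⟨w, rfl⟩ := LinearMap.range_eq_top.1 h1 v
      have h3 : s * (1 + s) = 1 * (1 + s) := by rw [mul_add, hs2, one_mul, mul_one, add_comm]
      exact LinearMap.congr_fun h3 w
    rw [h2, LinearMap.trace_one] at htr
    exact hV htr

end Pool.Agent.H86N
end

-- from Lib.H86N.K0
section

/-!
# K0: elementary facts on frames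
-/

set_option autoImplicit false
set_option linter.unusedSectionVars false
namespace Pool.Agent.H86N
open Module Pool.Agent.H53Toric Pool.Agent.H49M

variable {K : Type*} [Field K] {V : Type*} [AddCommGroup V] [Module K V]

variable {L : Submodule K (Module.End K V)}

theorem K0_ee [CharZero K] {s e f : Module.End K V} (F : Frame L s e f) : e * e = 0 :=
  A2_pp F.e_mem F.e_mem

theorem K0_ff [CharZero K] {s e f : Module.End K V} (F : Frame L s e f) : f * f = 0 :=
  A2_mm F.f_mem F.f_mem

/-- Chunk K0. `X (s X') ` computations: `e e = 0`, `f f = 0` by `A2_pp`, `A2_mm`. The extremality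
of `f`: `f X f = f e f X f e f = f (e (f X f) e) f = c f e f = c f` with `f X f ∈ L`
(`IsLie.sandwich`). -/
theorem K0_swap [CharZero K] {s e f : Module.End K V} (hl : IsLie L) (F : Frame L s e f) :
    Frame L (-s) f e := by
  have hLp : Lp L (-s) = Lm L s := by
    ext X
    rw [mem_Lp, mem_Lm, neg_mul, mul_neg, neg_eq_iff_eq_neg, neg_inj]
  have hLm : Lm L (-s) = Lp L s := by
    ext X
    rw [mem_Lp, mem_Lm, neg_mul, mul_neg, neg_inj, neg_eq_iff_eq_neg]
  refine ⟨L.neg_mem F.s_mem, by rw [neg_mul_neg, F.s_sq], by rw [hLp]; exact F.f_mem,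
    by rw [hLm]; exact F.e_mem, ?_, F.fef, F.efe, ?_⟩
  · intro h0
    have := F.efe
    rw [h0, mul_zero, zero_mul] at this
    exact F.e_ne this.symm
  · intro X hX
    obtain ⟨c, hc⟩ := F.ext _ (hl.sandwich F.f_mem.1 (K0_ff F) hX)
    refine ⟨c, ?_⟩
    have e1 : f * X * f = f * (e * (f * X * f) * e) * f := by
      calc f * X * f = (f * e * f) * X * (f * e * f) := by rw [F.fef]
        _ = _ := by noncomm_ring
    rw [e1, hc, mul_smul_comm, smul_mul_assoc, F.fef]

theorem K0_Lp (s : Module.End K V) : Lp L (-s) = Lm L s := by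
  ext X
  rw [mem_Lp, mem_Lm, neg_mul, mul_neg, neg_eq_iff_eq_neg, neg_inj]

theorem K0_Lm (s : Module.End K V) : Lm L (-s) = Lp L s := by
  ext X
  rw [mem_Lp, mem_Lm, neg_mul, mul_neg, neg_inj, neg_eq_iff_eq_neg]

theorem K0_L0 (s : Module.End K V) : L0 L (-s) = L0 L s := by
  ext X
  rw [mem_L0, mem_L0, neg_mul, mul_neg, neg_inj]

/-- `e f X f e = e (f X f) e` and `f X f ∈ L`. -/
theorem K0_ext [CharZero K] {s e f : Module.End K V} (hl : IsLie L) (F : Frame L s e f)
    {X : Module.End K V} (hX : X ∈ L) : ∃ c : K, e * f * X * (f * e) = c • e := by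
  obtain ⟨c, hc⟩ := F.ext _ (hl.sandwich F.f_mem.1 (K0_ff F) hX)
  refine ⟨c, ?_⟩
  rw [← hc]
  noncomm_ring

/-- The rank of `e` is the rank of the idempotent `e f`, its trace. -/
theorem K0_rank [CharZero K] [FiniteDimensional K V] {s e f : Module.End K V}
    (F : Frame L s e f) :
    finrank K (LinearMap.range (e * f)) = finrank K (LinearMap.range e) ∧
    finrank K (LinearMap.range f) = finrank K (LinearMap.range e) ∧
    LinearMap.trace K V (e * f) = (finrank K (LinearMap.range e) : K) := by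
  have h1 : finrank K (LinearMap.range (e * f)) = finrank K (LinearMap.range e) :=
    rank_eq_of_dvd (c := f) (d := e) rfl F.efe.symm
  have h2 : finrank K (LinearMap.range (f * e)) = finrank K (LinearMap.range f) :=
    rank_eq_of_dvd (c := e) (d := f) rfl F.fef.symm
  have i1 : (e * f) * (e * f) = e * f := by
    calc (e * f) * (e * f) = (e * f * e) * f := by noncomm_ring
      _ = e * f := by rw [F.efe]
  have i2 : (f * e) * (f * e) = f * e := by
    calc (f * e) * (f * e) = (f * e * f) * e := by noncomm_ring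
      _ = f * e := by rw [F.fef]
  have t1 := trace_idem i1
  have t2 := trace_idem i2
  rw [LinearMap.trace_mul_comm] at t2
  refine ⟨h1, ?_, by rw [t1, h1]⟩
  rw [t1, h1, h2] at t2
  exact_mod_cast t2.symm

/-- An element `H = e f - f e` of `L` and the elements `[H, e] = 2 e`, `[H, f] = -2 f`. -/
theorem K0_H [CharZero K] {s e f : Module.End K V} (hl : IsLie L) (F : Frame L s e f) :
    e * f - f * e ∈ L := by
  exact hl e F.e_mem.1 f F.f_mem.1

end Pool.Agent.H86N
end

-- from Lib.H86N.A3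
section

/-!
# A3: the graded pieces are irreducible
-/

set_option autoImplicit false
set_option linter.unusedSectionVars false
namespace Pool.Agent.H86N
open Module Pool.Agent.H53Toric Pool.Agent.H49M

variable {K : Type*} [Field K] {V : Type*} [AddCommGroup V] [Module K V]

variable {L : Submodule K (Module.End K V)}

theorem A3_pm [CharZero K] (h : CoreN L) {s X Y : Module.End K V} (hX : X ∈ Lp L s)
    (hY : Y ∈ Lm L s) : X * Y - Y * X ∈ L0 L s := by
  refine ⟨h.lie X hX.1 Y hY.1, ?_⟩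
  rw [mul_sub, sub_mul, ← mul_assoc, ← mul_assoc, hX.2.1, hY.2.1, mul_assoc X Y s, hY.2.2,
    mul_assoc Y X s, hX.2.2]
  noncomm_ring

theorem A3_0m (h : CoreN L) {s Z Y : Module.End K V} (hZ : Z ∈ L0 L s)
    (hY : Y ∈ Lm L s) : Z * Y - Y * Z ∈ Lm L s := by
  refine ⟨h.lie Z hZ.1 Y hY.1, ?_, ?_⟩
  · rw [mul_sub, ← mul_assoc, ← mul_assoc, hZ.2, hY.2.1, mul_assoc, hY.2.1]
    noncomm_ring
  · rw [sub_mul, mul_assoc, mul_assoc, ← hZ.2, hY.2.2, ← mul_assoc, hY.2.2]

theorem A3_0p (h : CoreN L) {s Z X : Module.End K V} (hZ : Z ∈ L0 L s)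
    (hX : X ∈ Lp L s) : Z * X - X * Z ∈ Lp L s := by
  refine ⟨h.lie Z hZ.1 X hX.1, ?_, ?_⟩
  · rw [mul_sub, ← mul_assoc, ← mul_assoc, hZ.2, hX.2.1, mul_assoc, hX.2.1]
  · rw [sub_mul, mul_assoc, mul_assoc, ← hZ.2, hX.2.2, ← mul_assoc, hX.2.2]
    noncomm_ring

/-- Chunk A3. Write `[X, Y] = X Y - Y X`. Let `I` be the span of `𝒳`, of all `[X, Y]` and of all
`[[X, Y], Y']` with `X ∈ 𝒳`, `Y, Y' ∈ Lm`. It is an ideal of `L`: by `A2_decomp` it is enough
to bracket with `Z ∈ Lp, L0, Lm`.
`Z ∈ L0`: Jacobi, `[L0, 𝒳] ⊆ 𝒳`, `[L0, Lm] ⊆ Lm`.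
`Z ∈ Lm`: clear, and `[[[X, Y], Y'], Z] = 0` because `[[X,Y],Y'] ∈ Lm` and `Lm Lm = 0`.
`Z ∈ Lp`: `[Z, X] = 0`; `[Z, [X, Y]] = [X, [Z, Y]]` (as `[Z, X] = 0`) and `[Z, Y] ∈ L0`, so this
is in `𝒳`; `[Z, [[X, Y], Y']] = [[Z, [X, Y]], Y'] + [[X, Y], [Z, Y']]`, the first is in
`[𝒳, Lm]`, the second is `[[X,Y],W]`, `W = [Z, Y'] ∈ L0`, which is in `[𝒳, Lm]` by Jacobi.
`I ≠ 0`, so `I = L` by simplicity. Every element of `I` is `x + b + c` with `x ∈ 𝒳`, `b ∈ L0`,
`c ∈ Lm`; an element `a` of `Lp` of this form equals `x`: apply `T ↦ (1 + s) T (1 - s)`, which is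
multiplication by `4` on `Lp` and zero on `L0` and `Lm`. -/
theorem A3_irr [CharZero K] [IsAlgClosed K] [FiniteDimensional K V] [Nontrivial V]
    (h : CoreN L) {s : Module.End K V} (hs : s ∈ L) (hs2 : s * s = 1)
    {X₀ : Submodule K (Module.End K V)} (hle : X₀ ≤ Lp L s) (h0 : X₀ ≠ ⊥)
    (hst : ∀ Z ∈ L0 L s, ∀ X ∈ X₀, Z * X - X * Z ∈ X₀) : X₀ = Lp L s := by
  let S : Set (Module.End K V) := {T | T ∈ X₀ ∨ (∃ X ∈ X₀, ∃ Y ∈ Lm L s, T = X * Y - Y * X) ∨
    ∃ X ∈ X₀, ∃ Y ∈ Lm L s, ∃ Y' ∈ Lm L s,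
      T = (X * Y - Y * X) * Y' - Y' * (X * Y - Y * X)}
  have hS1 : ∀ X ∈ X₀, X ∈ Submodule.span K S := fun X hX =>
    Submodule.subset_span (Or.inl hX)
  have hS2 : ∀ X ∈ X₀, ∀ Y ∈ Lm L s, X * Y - Y * X ∈ Submodule.span K S := fun X hX Y hY =>
    Submodule.subset_span (Or.inr (Or.inl ⟨X, hX, Y, hY, rfl⟩))
  have hS3 : ∀ X ∈ X₀, ∀ Y ∈ Lm L s, ∀ Y' ∈ Lm L s,
      (X * Y - Y * X) * Y' - Y' * (X * Y - Y * X) ∈ Submodule.span K S :=
    fun X hX Y hY Y' hY' => Submodule.subset_span (Or.inr (Or.inr ⟨X, hX, Y, hY, Y', hY', rfl⟩))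
  have hSL : Submodule.span K S ≤ L := by
    refine Submodule.span_le.2 ?_
    rintro T (hT | ⟨X, hX, Y, hY, rfl⟩ | ⟨X, hX, Y, hY, Y', hY', rfl⟩)
    · exact (hle hT).1
    · exact h.lie X (hle hX).1 Y hY.1
    · exact h.lie _ (h.lie X (hle hX).1 Y hY.1) Y' hY'.1
  -- brackets with the three parts
  have b0 : ∀ Z ∈ L0 L s, ∀ T ∈ S, Z * T - T * Z ∈ Submodule.span K S := by
    rintro Z hZ T (hT | ⟨X, hX, Y, hY, rfl⟩ | ⟨X, hX, Y, hY, Y', hY', rfl⟩)
    · exact hS1 _ (hst Z hZ T hT)
    · have e : Z * (X * Y - Y * X) - (X * Y - Y * X) * Z =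
          ((Z * X - X * Z) * Y - Y * (Z * X - X * Z)) +
          (X * (Z * Y - Y * Z) - (Z * Y - Y * Z) * X) := by noncomm_ring
      rw [e]
      exact Submodule.add_mem _ (hS2 _ (hst Z hZ X hX) Y hY) (hS2 X hX _ (A3_0m h hZ hY))
    · have e : Z * ((X * Y - Y * X) * Y' - Y' * (X * Y - Y * X)) -
          ((X * Y - Y * X) * Y' - Y' * (X * Y - Y * X)) * Z =
          (((Z * X - X * Z) * Y - Y * (Z * X - X * Z)) * Y' -
            Y' * ((Z * X - X * Z) * Y - Y * (Z * X - X * Z))) +
          ((X * (Z * Y - Y * Z) - (Z * Y - Y * Z) * X) * Y' -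
            Y' * (X * (Z * Y - Y * Z) - (Z * Y - Y * Z) * X)) +
          ((X * Y - Y * X) * (Z * Y' - Y' * Z) - (Z * Y' - Y' * Z) * (X * Y - Y * X)) := by
        noncomm_ring
      rw [e]
      exact Submodule.add_mem _ (Submodule.add_mem _ (hS3 _ (hst Z hZ X hX) Y hY Y' hY')
        (hS3 X hX _ (A3_0m h hZ hY) Y' hY')) (hS3 X hX Y hY _ (A3_0m h hZ hY'))
  have bm : ∀ Z ∈ Lm L s, ∀ T ∈ S, Z * T - T * Z ∈ Submodule.span K S := by
    rintro Z hZ T (hT | ⟨X, hX, Y, hY, rfl⟩ | ⟨X, hX, Y, hY, Y', hY', rfl⟩)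
    · have := Submodule.neg_mem _ (hS2 T hT Z hZ)
      rwa [neg_sub] at this
    · have := Submodule.neg_mem _ (hS3 X hX Y hY Z hZ)
      rwa [neg_sub] at this
    · have h1 := A3_0m h (A3_pm h (hle hX) hY) hY'
      rw [A2_mm hZ h1, A2_mm h1 hZ, sub_self]
      exact Submodule.zero_mem _
  have bp : ∀ Z ∈ Lp L s, ∀ T ∈ S, Z * T - T * Z ∈ Submodule.span K S := by
    have key : ∀ Z ∈ Lp L s, ∀ X ∈ X₀, ∀ Y ∈ Lm L s,
        Z * (X * Y - Y * X) - (X * Y - Y * X) * Z =
          -((Z * Y - Y * Z) * X - X * (Z * Y - Y * Z)) := by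
      intro Z hZ X hX Y hY
      have e : Z * (X * Y - Y * X) - (X * Y - Y * X) * Z =
          ((Z * X - X * Z) * Y - Y * (Z * X - X * Z)) -
          ((Z * Y - Y * Z) * X - X * (Z * Y - Y * Z)) := by noncomm_ring
      rw [e, A2_pp hZ (hle hX), A2_pp (hle hX) hZ]
      noncomm_ring
    rintro Z hZ T (hT | ⟨X, hX, Y, hY, rfl⟩ | ⟨X, hX, Y, hY, Y', hY', rfl⟩)
    · rw [A2_pp hZ (hle hT), A2_pp (hle hT) hZ, sub_self]
      exact Submodule.zero_mem _
    · rw [key Z hZ X hX Y hY]
      exact Submodule.neg_mem _ (hS1 _ (hst _ (A3_pm h hZ hY) X hX))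
    · have e : Z * ((X * Y - Y * X) * Y' - Y' * (X * Y - Y * X)) -
          ((X * Y - Y * X) * Y' - Y' * (X * Y - Y * X)) * Z =
          ((Z * (X * Y - Y * X) - (X * Y - Y * X) * Z) * Y' -
            Y' * (Z * (X * Y - Y * X) - (X * Y - Y * X) * Z)) -
          (((Z * Y' - Y' * Z) * X - X * (Z * Y' - Y' * Z)) * Y -
            Y * ((Z * Y' - Y' * Z) * X - X * (Z * Y' - Y' * Z))) -
          (X * ((Z * Y' - Y' * Z) * Y - Y * (Z * Y' - Y' * Z)) -
            ((Z * Y' - Y' * Z) * Y - Y * (Z * Y' - Y' * Z)) * X) := by noncomm_ring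
      rw [e, key Z hZ X hX Y hY]
      have hW := A3_pm h hZ hY'
      have e2 : -((Z * Y - Y * Z) * X - X * (Z * Y - Y * Z)) * Y' -
          Y' * -((Z * Y - Y * Z) * X - X * (Z * Y - Y * Z)) =
          -(((Z * Y - Y * Z) * X - X * (Z * Y - Y * Z)) * Y' -
          Y' * ((Z * Y - Y * Z) * X - X * (Z * Y - Y * Z))) := by noncomm_ring
      rw [e2]
      exact Submodule.sub_mem _ (Submodule.sub_mem _ (Submodule.neg_mem _
        (hS2 _ (hst _ (A3_pm h hZ hY) X hX) Y' hY')) (hS2 _ (hst _ hW X hX) Y hY))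
        (hS2 X hX _ (A3_0m h hW hY))
  have hid : ∀ Z ∈ L, ∀ T ∈ Submodule.span K S, Z * T - T * Z ∈ Submodule.span K S := by
    intro Z hZ T hT
    obtain ⟨a, ha, b, hb, c, hc, rfl⟩ := A2_decomp h hs hs2 hZ
    induction hT using Submodule.span_induction with
    | mem T hT =>
      have e : (a + b + c) * T - T * (a + b + c) = (a * T - T * a) + (b * T - T * b) +
          (c * T - T * c) := by noncomm_ring
      rw [e]
      exact Submodule.add_mem _ (Submodule.add_mem _ (bp a ha T hT) (b0 b hb T hT))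
        (bm c hc T hT)
    | zero => simp
    | add x y _ _ hx hy =>
      have e : (a + b + c) * (x + y) - (x + y) * (a + b + c) =
          ((a + b + c) * x - x * (a + b + c)) + ((a + b + c) * y - y * (a + b + c)) := by
        noncomm_ring
      rw [e]
      exact Submodule.add_mem _ hx hy
    | smul r x _ hx =>
      rw [mul_smul_comm, smul_mul_assoc, ← smul_sub]
      exact Submodule.smul_mem _ r hx
  have hL : L ≤ Submodule.span K S := by
    rcases h.simple _ hSL hid with h1 | h1
    · exfalso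
      apply h0
      rw [eq_bot_iff, ← h1]
      exact hS1
    · exact h1.ge
  have hφ : ∀ T ∈ Submodule.span K S, (1 + s) * T * (1 - s) ∈ X₀ := by
    intro T hT
    induction hT using Submodule.span_induction with
    | mem T hT =>
      rcases hT with hT | ⟨X, hX, Y, hY, rfl⟩ | ⟨X, hX, Y, hY, Y', hY', rfl⟩
      · have e : (1 + s) * T * (1 - s) = (4 : K) • T := by
          have : (1 + s) * T * (1 - s) = T + s * T - T * s - (s * T) * s := by noncomm_ring
          rw [this, (hle hT).2.1, (hle hT).2.2]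
          module
        rw [e]
        exact X₀.smul_mem _ hT
      · have h1 := A3_pm h (hle hX) hY
        have e : (1 + s) * (X * Y - Y * X) * (1 - s) = 0 := by
          generalize X * Y - Y * X = Z at h1
          have : (1 + s) * Z * (1 - s) = Z - Z * s + s * Z - (s * Z) * s := by noncomm_ring
          rw [this, h1.2, mul_assoc, hs2]
          noncomm_ring
        rw [e]
        exact X₀.zero_mem
      · have h1 := A3_0m h (A3_pm h (hle hX) hY) hY'
        have e : (1 + s) * ((X * Y - Y * X) * Y' - Y' * (X * Y - Y * X)) * (1 - s) = 0 := by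
          generalize (X * Y - Y * X) * Y' - Y' * (X * Y - Y * X) = Z at h1
          have : (1 + s) * Z * (1 - s) = (Z + s * Z) * (1 - s) := by noncomm_ring
          rw [this, h1.2.1]
          simp
        rw [e]
        exact X₀.zero_mem
    | zero => simp
    | add x y _ _ hx hy =>
      rw [mul_add, add_mul]
      exact X₀.add_mem hx hy
    | smul r x _ hx =>
      rw [mul_smul_comm, smul_mul_assoc]
      exact X₀.smul_mem r hx
  apply le_antisymm hle
  intro a ha
  have h1 := hφ a (hL ha.1)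
  have e : (1 + s) * a * (1 - s) = (4 : K) • a := by
    have : (1 + s) * a * (1 - s) = a + s * a - a * s - (s * a) * s := by noncomm_ring
    rw [this, ha.2.1, ha.2.2]
    module
  rw [e] at h1
  have h2 := X₀.smul_mem (1 / 4 : K) h1
  rw [smul_smul] at h2
  norm_num at h2
  exact h2

/-- The same for the negative part: apply `A3_irr` to the involution `-s`;
`Lp L (-s) = Lm L s` and `L0 L (-s) = L0 L s`. -/
theorem A3_irr' [CharZero K] [IsAlgClosed K] [FiniteDimensional K V] [Nontrivial V]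
    (h : CoreN L) {s : Module.End K V} (hs : s ∈ L) (hs2 : s * s = 1)
    {X₀ : Submodule K (Module.End K V)} (hle : X₀ ≤ Lm L s) (h0 : X₀ ≠ ⊥)
    (hst : ∀ Z ∈ L0 L s, ∀ X ∈ X₀, Z * X - X * Z ∈ X₀) : X₀ = Lm L s := by
  have hp : Lp L (-s) = Lm L s := by
    ext X
    rw [mem_Lp, mem_Lm, neg_mul, mul_neg, neg_eq_iff_eq_neg, neg_inj]
  have h00 : L0 L (-s) = L0 L s := by
    ext X
    rw [mem_L0, mem_L0, neg_mul, mul_neg, neg_inj]
  have := A3_irr h (L.neg_mem hs) (s := -s) (by rw [neg_mul_neg, hs2]) (X₀ := X₀)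
    (by rw [hp]; exact hle) h0 (by rw [h00]; exact hst)
  rw [this, hp]

end Pool.Agent.H86N
end

-- from Lib.H86N.A3s
section

/-!
# A3s: `L0` is spanned by brackets
-/

set_option autoImplicit false
set_option linter.unusedSectionVars false
namespace Pool.Agent.H86N
open Module Pool.Agent.H53Toric Pool.Agent.H49M

variable {K : Type*} [Field K] {V : Type*} [AddCommGroup V] [Module K V]

variable {L : Submodule K (Module.End K V)}

/-- Chunk A3s. The span `I` of `Lp`, `Lm` and all `[X, Y]`, `X ∈ Lp`, `Y ∈ Lm`, is a nonzero ideal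
(`[Lp, Lp] = 0`, `[Lm, Lm] = 0`, `[L0, Lp] ⊆ Lp`, `[[X, Y], Lp] ⊆ Lp`, Jacobi), hence `I = L`;
compare the components commuting with `s`: for `Z = a + b + c ∈ I` with `Z ∈ L0` apply
`T ↦ T - (1/4)(1+s)T(1-s) - (1/4)(1-s)T(1+s)`, which kills `Lp` and `Lm` and is the identity on
operators commuting with `s`. -/
theorem A3_span [CharZero K] [IsAlgClosed K] [FiniteDimensional K V] [Nontrivial V]
    (h : CoreN L) {s : Module.End K V} (hs : s ∈ L) (hs2 : s * s = 1)
    {Z : Module.End K V} (hZ : Z ∈ L0 L s) :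
    Z ∈ Submodule.span K {W | ∃ X ∈ Lp L s, ∃ Y ∈ Lm L s, W = X * Y - Y * X} := by
  set B := Submodule.span K {W | ∃ X ∈ Lp L s, ∃ Y ∈ Lm L s, W = X * Y - Y * X} with hB
  let I : Submodule K (Module.End K V) := Lp L s ⊔ B ⊔ Lm L s
  have hBm : ∀ X ∈ Lp L s, ∀ Y ∈ Lm L s, X * Y - Y * X ∈ B := fun X hX Y hY =>
    Submodule.subset_span ⟨X, hX, Y, hY, rfl⟩
  have hI1 : Lp L s ≤ I := le_sup_left.trans le_sup_left
  have hI2 : B ≤ I := le_sup_right.trans le_sup_left
  have hI3 : Lm L s ≤ I := le_sup_right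
  have hBL0 : B ≤ L0 L s := by
    refine Submodule.span_le.2 ?_
    rintro _ ⟨X, hX, Y, hY, rfl⟩
    exact A3_pm h hX hY
  have hIL : I ≤ L := by
    refine sup_le (sup_le (fun X hX => hX.1) fun X hX => (hBL0 hX).1) fun X hX => hX.1
  have h0B : ∀ Z ∈ L0 L s, ∀ T ∈ B, Z * T - T * Z ∈ B := by
    intro Z hZ T hT
    induction hT using Submodule.span_induction with
    | mem T hT =>
      obtain ⟨X, hX, Y, hY, rfl⟩ := hT
      have e : Z * (X * Y - Y * X) - (X * Y - Y * X) * Z =
          ((Z * X - X * Z) * Y - Y * (Z * X - X * Z)) +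
          (X * (Z * Y - Y * Z) - (Z * Y - Y * Z) * X) := by noncomm_ring
      rw [e]
      exact B.add_mem (hBm _ (A3_0p h hZ hX) Y hY) (hBm X hX _ (A3_0m h hZ hY))
    | zero => simp
    | add x y _ _ hx hy =>
      have e : Z * (x + y) - (x + y) * Z = (Z * x - x * Z) + (Z * y - y * Z) := by noncomm_ring
      rw [e]
      exact B.add_mem hx hy
    | smul r x _ hx =>
      rw [mul_smul_comm, smul_mul_assoc, ← smul_sub]
      exact B.smul_mem r hx
  have hid : ∀ Z ∈ L, ∀ T ∈ I, Z * T - T * Z ∈ I := by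
    intro Z hZ T hT
    obtain ⟨a, ha, b, hb, c, hc, rfl⟩ := A2_decomp h hs hs2 hZ
    obtain ⟨T', hT', x3, hx3, rfl⟩ := Submodule.mem_sup.1 hT
    obtain ⟨x1, hx1, x2, hx2, rfl⟩ := Submodule.mem_sup.1 hT'
    have e : (a + b + c) * (x1 + x2 + x3) - (x1 + x2 + x3) * (a + b + c) =
        (a * x1 - x1 * a) + -(x2 * a - a * x2) + (a * x3 - x3 * a) +
        (b * x1 - x1 * b) + (b * x2 - x2 * b) + (b * x3 - x3 * b) +
        -(x1 * c - c * x1) + -(x2 * c - c * x2) + (c * x3 - x3 * c) := by noncomm_ring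
    rw [e, A2_pp ha hx1, A2_pp hx1 ha, A2_mm hc hx3, A2_mm hx3 hc, sub_self, zero_add, add_zero]
    have hx2' := hBL0 hx2
    exact I.add_mem (I.add_mem (I.add_mem (I.add_mem (I.add_mem (I.add_mem
      (I.neg_mem (hI1 (A3_0p h hx2' ha))) (hI2 (hBm a ha x3 hx3))) (hI1 (A3_0p h hb hx1)))
      (hI2 (h0B b hb x2 hx2))) (hI3 (A3_0m h hb hx3))) (I.neg_mem (hI2 (hBm x1 hx1 c hc))))
      (I.neg_mem (hI3 (A3_0m h hx2' hc)))
  have hL : L ≤ I := by
    rcases h.simple I hIL hid with h1 | h1
    · exfalso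
      apply A2_ne h hs hs2
      rw [eq_bot_iff, ← h1]
      exact hI1
    · exact h1.ge
  obtain ⟨T', hT', c, hc, hZe⟩ := Submodule.mem_sup.1 (hL hZ.1)
  obtain ⟨a, ha, b, hb, rfl⟩ := Submodule.mem_sup.1 hT'
  have hb' := hBL0 hb
  -- compare the weights
  have h1 : s * Z = Z * s := hZ.2
  rw [← hZe] at h1
  have h2 : a - c = 0 := by
    have e : s * (a + b + c) - (a + b + c) * s = (s * a - a * s) + (s * b - b * s) +
        (s * c - c * s) := by noncomm_ring
    rw [← sub_eq_zero, e, ha.2.1, ha.2.2, hb'.2, hc.2.1, hc.2.2] at h1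
    have e2 : a - -a + (b * s - b * s) + (-c - c) = (2 : K) • (a - c) := by module
    rw [e2] at h1
    exact (smul_eq_zero.1 h1).resolve_left (by norm_num)
  have h3 : a = 0 := by
    have h4 : s * a = s * c := by rw [sub_eq_zero.1 h2]
    rw [ha.2.1, hc.2.1, ← sub_eq_zero.1 h2] at h4
    have h5 : (2 : K) • a = 0 := by
      rw [two_smul]
      nth_rw 1 [h4]
      exact neg_add_cancel _
    exact (smul_eq_zero.1 h5).resolve_left (by norm_num)
  have h4 : c = 0 := by rw [← sub_eq_zero.1 h2, h3]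
  rw [← hZe, h3, h4, zero_add, add_zero]
  exact hb

end Pool.Agent.H86N
end

-- from Lib.H86N.A3v
section

/-!
# A3v: the plus space is irreducible
-/

set_option autoImplicit false
set_option linter.unusedSectionVars false
namespace Pool.Agent.H86N
open Module Pool.Agent.H53Toric Pool.Agent.H49M

variable {K : Type*} [Field K] {V : Type*} [AddCommGroup V] [Module K V]

variable {L : Submodule K (Module.End K V)}

/-- Chunk A3v. `V₊` is irreducible under `L0`. Let `U = W + span {Y w : Y ∈ Lm, w ∈ W}`. It is stable under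
`L = Lp + L0 + Lm`: `Lp W = 0` (`X w = X s w = - X w`), `X Y w = (X Y - Y X) w ∈ W` for
`X ∈ Lp` as `X w = 0` and `X Y - Y X ∈ L0`; `Z Y w = (Z Y - Y Z) w + Y (Z w)` for `Z ∈ L0`;
`Y' Y = 0`. So `U = V` by irreducibility; if `s v = v`, `v = w + Σ Y w`, apply `1 + s`:
`(1 + s) Y w = 0`, hence `2 v = 2 w`. -/
theorem A3_vec [CharZero K] [IsAlgClosed K] [FiniteDimensional K V] [Nontrivial V]
    (h : CoreN L) {s : Module.End K V} (hs : s ∈ L) (hs2 : s * s = 1)
    {W : Submodule K V} (hW : ∀ w ∈ W, s w = w) (hW0 : W ≠ ⊥)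
    (hst : ∀ Z ∈ L0 L s, ∀ w ∈ W, Z w ∈ W) {v : V} (hv : s v = v) : v ∈ W := by
  let B := Submodule.span K {u | ∃ Y ∈ Lm L s, ∃ w ∈ W, u = Y w}
  have hB : ∀ Y ∈ Lm L s, ∀ w ∈ W, Y w ∈ B := fun Y hY w hw =>
    Submodule.subset_span ⟨Y, hY, w, hw, rfl⟩
  let U := W ⊔ B
  have hU1 : W ≤ U := le_sup_left
  have hU2 : B ≤ U := le_sup_right
  have hp0 : ∀ X ∈ Lp L s, ∀ w ∈ W, X w = 0 := by
    intro X hX w hw
    have h1 : X (s w) = -(X w) := by
      change (X * s) w = _
      rw [hX.2.2]; rfl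
    rw [hW w hw] at h1
    have h2 : (2 : K) • X w = 0 := by
      rw [two_smul]
      nth_rw 1 [h1]
      exact neg_add_cancel _
    exact (smul_eq_zero.1 h2).resolve_left (by norm_num)
  have hWst : ∀ X ∈ L, ∀ w ∈ W, X w ∈ U := by
    intro X hX w hw
    obtain ⟨a, ha, b, hb, c, hc, rfl⟩ := A2_decomp h hs hs2 hX
    rw [LinearMap.add_apply, LinearMap.add_apply, hp0 a ha w hw, zero_add]
    exact U.add_mem (hU1 (hst b hb w hw)) (hU2 (hB c hc w hw))
  have hBst : ∀ X ∈ L, ∀ t ∈ B, X t ∈ U := by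
    intro X hX t ht
    obtain ⟨a, ha, b, hb, c, hc, rfl⟩ := A2_decomp h hs hs2 hX
    induction ht using Submodule.span_induction with
    | mem t ht =>
      obtain ⟨Y, hY, w', hw', rfl⟩ := ht
      rw [LinearMap.add_apply, LinearMap.add_apply]
      have e1 : a (Y w') = (a * Y - Y * a) w' := by
        rw [LinearMap.sub_apply, Module.End.mul_apply, Module.End.mul_apply, hp0 a ha w' hw',
          map_zero, sub_zero]
      have e2 : b (Y w') = (b * Y - Y * b) w' + Y (b w') := by
        rw [LinearMap.sub_apply, Module.End.mul_apply, Module.End.mul_apply, sub_add_cancel]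
      have e3 : c (Y w') = 0 := by
        change (c * Y) w' = 0
        rw [A2_mm hc hY]; rfl
      rw [e1, e2, e3, add_zero]
      exact U.add_mem (hU1 (hst _ (A3_pm h ha hY) w' hw')) (U.add_mem
        (hU2 (hB _ (A3_0m h hb hY) w' hw')) (hU2 (hB Y hY _ (hst b hb w' hw'))))
    | zero => simp
    | add x y _ _ hx hy =>
      rw [map_add]
      exact U.add_mem hx hy
    | smul r x _ hx =>
      rw [map_smul]
      exact U.smul_mem r hx
  have hst' : ∀ X ∈ L, ∀ u ∈ U, X u ∈ U := by
    intro X hX u hu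
    obtain ⟨w, hw, t, ht, rfl⟩ := Submodule.mem_sup.1 hu
    rw [map_add]
    exact U.add_mem (hWst X hX w hw) (hBst X hX t ht)
  have hUtop : U = ⊤ := by
    rcases h.irr U hst' with h1 | h1
    · exfalso
      apply hW0
      rw [eq_bot_iff, ← h1]
      exact hU1
    · exact h1
  have hst0 : ∀ t ∈ B, s t = -t := by
    intro t ht
    induction ht using Submodule.span_induction with
    | mem t ht =>
      obtain ⟨Y, hY, w', hw', rfl⟩ := ht
      change (s * Y) w' = _
      rw [hY.2.1]; rfl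
    | zero => simp
    | add x y _ _ hx hy => rw [map_add, hx, hy, neg_add]
    | smul r x _ hx => rw [map_smul, hx, smul_neg]
  have hvU : v ∈ U := by rw [hUtop]; trivial
  obtain ⟨w, hw, t, ht, rfl⟩ := Submodule.mem_sup.1 hvU
  rw [map_add, hW w hw, hst0 t ht] at hv
  have h1 : (2 : K) • t = 0 := by
    rw [two_smul]
    have := add_left_cancel hv
    nth_rw 1 [← this]
    exact neg_add_cancel _
  have h2 : t = 0 := (smul_eq_zero.1 h1).resolve_left (by norm_num)
  rw [h2, add_zero]
  exact hw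

end Pool.Agent.H86N
end

-- from Lib.H86N.K3
section

/-!
# K3: the Kemmer system of a rank one Jordan pair
-/

set_option autoImplicit false
set_option linter.unusedSectionVars false
namespace Pool.Agent.H86N
open Module Pool.Agent.H53Toric Pool.Agent.H49M

variable {K : Type*} [Field K] {V : Type*} [AddCommGroup V] [Module K V]

variable {L : Submodule K (Module.End K V)}

theorem K3a_partner [CharZero K] [IsAlgClosed K] [FiniteDimensional K V] [Nontrivial V]
    (h : CoreN L) {s : Module.End K V} (hs : s ∈ L) (hs2 : s * s = 1)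
    {x : Module.End K V} (hx : x ∈ Lp L s) (hx0 : x ≠ 0) : ∃ y ∈ Lm L s, x * y * x ≠ 0 := by
  by_contra hcon
  push Not at hcon
  apply hx0
  apply A2_nondeg h hs hs2 hx
  intro y hy
  have h1 : IsNilpotent (x * y) := ⟨2, by
    rw [pow_two]
    calc x * y * (x * y) = (x * y * x) * y := by noncomm_ring
      _ = 0 := by rw [hcon y hy, zero_mul]⟩
  exact (LinearMap.isNilpotent_trace_of_isNilpotent h1).eq_zero

theorem K3a_rank [FiniteDimensional K V] {x y : Module.End K V} {c : K}
    (h1 : x * y * x = c • x) (h2 : y * x * y = c • y) (h0 : x * y * x ≠ 0) :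
    finrank K (LinearMap.range x) = finrank K (LinearMap.range y) := by
  have hc : c ≠ 0 := by
    rintro rfl
    rw [zero_smul] at h1
    exact h0 h1
  apply le_antisymm
  · have e : x = x * y * (c⁻¹ • x) := by
      rw [mul_smul_comm, h1, smul_smul, inv_mul_cancel₀ hc, one_smul]
    calc finrank K (LinearMap.range x) = finrank K (LinearMap.range (x * y * (c⁻¹ • x))) := by
          rw [← e]
      _ ≤ finrank K (LinearMap.range (x * y)) := finrank_range_mul_le_left _ _
      _ ≤ _ := finrank_range_mul_le_right _ _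
  · have e : y = y * x * (c⁻¹ • y) := by
      rw [mul_smul_comm, h2, smul_smul, inv_mul_cancel₀ hc, one_smul]
    calc finrank K (LinearMap.range y) = finrank K (LinearMap.range (y * x * (c⁻¹ • y))) := by
          rw [← e]
      _ ≤ finrank K (LinearMap.range (y * x)) := finrank_range_mul_le_left _ _
      _ ≤ _ := finrank_range_mul_le_right _ _

theorem K3a_rank_eq [CharZero K] [IsAlgClosed K] [FiniteDimensional K V] [Nontrivial V]
    (h : CoreN L) {s e f : Module.End K V} (F : Frame L s e f)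
    (hall : ∀ x ∈ Lp L s, ∀ y ∈ Lm L s, ∃ c : K, x * y * x = c • x ∧ y * x * y = c • y)
    {x : Module.End K V} (hx : x ∈ Lp L s) (hx0 : x ≠ 0) :
    finrank K (LinearMap.range x) = finrank K (LinearMap.range e) := by
  have key : ∃ y ∈ Lm L s, x * y * x ≠ 0 ∧ e * y * e ≠ 0 := by
    obtain ⟨y1, hy1, h1⟩ := K3a_partner h F.s_mem F.s_sq hx hx0
    have h2 : e * f * e ≠ 0 := by rw [F.efe]; exact F.e_ne
    by_cases h3 : e * y1 * e = 0
    · by_cases h4 : x * f * x = 0
      · refine ⟨y1 + f, (Lm L s).add_mem hy1 F.f_mem, ?_, ?_⟩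
        · rw [mul_add, add_mul, h4, add_zero]; exact h1
        · rw [mul_add, add_mul, h3, zero_add]; exact h2
      · exact ⟨f, F.f_mem, h4, h2⟩
    · exact ⟨y1, hy1, h1, h3⟩
  obtain ⟨y, hy, h1, h2⟩ := key
  obtain ⟨c, hc1, hc2⟩ := hall x hx y hy
  obtain ⟨d, hd1, hd2⟩ := hall e F.e_mem y hy
  rw [K3a_rank hc1 hc2 h1, K3a_rank hd1 hd2 h2]

/-- Chunk K3a. All nonzero elements have the rank of `e`, and the scalar is a multiple of the
trace. For `x ∈ Lp`, `x ≠ 0`, the set of `y ∈ Lm` with `x y x = 0` is a proper subspace of `Lm`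
(it is the kernel of the linear form `y ↦ c`, and if it is everything then `x X x = 0` for all
`X ∈ L` by `A2_decomp` (`x a = 0`, `x b x = x b s x = - x b x`...), contradicting
`exists_partner` of H53Toric.Core1). A space over an infinite field is not the union of two proper
subspaces, so there is `y ∈ Lm` with `x y x = c x`, `c ≠ 0` and `e y e = c' e`, `c' ≠ 0`; from
`x y x = c x`, `y x y = c y` the ranks of `x` and `y` are equal, and likewise for `e`, `y`. So
`rank x = rank e =: r`. Now for `x ∈ Lp`, `y ∈ Lm`, `x y x = c x`: if `c ≠ 0`, `c⁻¹ x y` is an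
idempotent of rank `rank x = r` and `tr (x y) = c r` (`trace_idem`); if `c = 0` (or `x = 0`) then
`(x y)² = 0` and `tr (x y) = 0`. Similarly for `y x y` (the same `c`; if `y = 0` trivial). -/
theorem K3_trace [CharZero K] [IsAlgClosed K] [FiniteDimensional K V] [Nontrivial V]
    (h : CoreN L) {s e f : Module.End K V} (F : Frame L s e f)
    (hall : ∀ x ∈ Lp L s, ∀ y ∈ Lm L s, ∃ c : K, x * y * x = c • x ∧ y * x * y = c • y)
    {x y : Module.End K V} (hx : x ∈ Lp L s) (hy : y ∈ Lm L s) :
    (finrank K (LinearMap.range e) : K) • (x * y * x) = LinearMap.trace K V (x * y) • x ∧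
    (finrank K (LinearMap.range e) : K) • (y * x * y) = LinearMap.trace K V (x * y) • y := by
  obtain ⟨c, hc1, hc2⟩ := hall x hx y hy
  by_cases hx0 : x = 0
  · rw [hx0]; simp
  by_cases hy0 : y = 0
  · rw [hy0]; simp
  have htr : LinearMap.trace K V (x * y) = c * (finrank K (LinearMap.range e) : K) := by
    by_cases hc : c = 0
    · have h1 : IsNilpotent (x * y) := ⟨2, by
        rw [pow_two]
        calc x * y * (x * y) = (x * y * x) * y := by noncomm_ring
          _ = 0 := by rw [hc1, hc, zero_smul, zero_mul]⟩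
      rw [(LinearMap.isNilpotent_trace_of_isNilpotent h1).eq_zero, hc, zero_mul]
    · have hi : (c⁻¹ • (x * y)) * (c⁻¹ • (x * y)) = c⁻¹ • (x * y) := by
        rw [smul_mul_smul_comm]
        have e1 : x * y * (x * y) = c • (x * y) := by
          calc x * y * (x * y) = (x * y * x) * y := by noncomm_ring
            _ = _ := by rw [hc1, smul_mul_assoc]
        rw [e1, smul_smul]
        congr 1
        field_simp
      have h1 := trace_idem hi
      have h2 : finrank K (LinearMap.range (c⁻¹ • (x * y))) = finrank K (LinearMap.range x) := by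
        apply rank_eq_of_dvd (c := c⁻¹ • y) (d := x)
        · rw [mul_smul_comm]
        · rw [smul_mul_assoc, hc1, smul_smul, inv_mul_cancel₀ hc, one_smul]
      rw [h2, K3a_rank_eq h F hall hx hx0, map_smul, smul_eq_mul] at h1
      rw [← h1, ← mul_assoc, mul_inv_cancel₀ hc, one_mul]
  rw [hc1, hc2, htr, smul_smul, smul_smul, mul_comm c]
  exact ⟨rfl, rfl⟩

/-- Chunk K3. Let `r = rank e ≠ 0`, `B (x, y) = tr (x y) / r` on `Lp × Lm`: bilinear, perfect
(`A2_nondeg`, `A2_nondeg'`), `B (e, f) = 1` (`K0_rank`), and by `K3_trace` `x y x = B (x, y) x`,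
`y x y = B (x, y) y`. Choose a basis `x 0 = e`, `x 1, ..., x n` of `Lp` with `B (x i, f) = 0` for
`i ≥ 1`, and the dual basis `y j` of `Lm`: `B (x i, y j) = δ`; then `y 0 = f`. Polarising gives
`r1`, `r2`. `irr`: a subspace stable under all `x i`, `y i` (and `s`) is stable under `Lp`, `Lm`,
hence under `L0` (`A3_span`) and `L` (`A2_decomp`). -/
theorem K3_system [CharZero K] [IsAlgClosed K] [FiniteDimensional K V] [Nontrivial V]
    (h : CoreN L) {s e f : Module.End K V} (F : Frame L s e f)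
    (hall : ∀ x ∈ Lp L s, ∀ y ∈ Lm L s, ∃ c : K, x * y * x = c • x ∧ y * x * y = c • y) :
    ∃ (n : ℕ) (x y : Fin (n + 1) → Module.End K V), Kemmer s x y ∧ x 0 = e ∧ y 0 = f ∧
      (∀ i, x i ∈ L) ∧ (∀ i, y i ∈ L) ∧
      Lp L s ≤ Submodule.span K (Set.range x) ∧ Lm L s ≤ Submodule.span K (Set.range y) := by
  have hr0 : (finrank K (LinearMap.range e) : K) ≠ 0 := by
    rw [Nat.cast_ne_zero]
    intro h0
    exact F.e_ne (LinearMap.range_eq_bot.1 (Submodule.finrank_eq_zero.1 h0))
  obtain ⟨r, hr⟩ : ∃ r : K, r = (finrank K (LinearMap.range e) : K) := ⟨_, rfl⟩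
  rw [← hr] at hr0
  have htef : LinearMap.trace K V (e * f) = r := by rw [(K0_rank F).2.2, hr]
  -- the pairing
  let T : Lm L s →ₗ[K] Module.Dual K (Lp L s) :=
    { toFun := fun y =>
        { toFun := fun x => LinearMap.trace K V (x.1 * y.1)
          map_add' := fun a b => by
            change LinearMap.trace K V ((a.1 + b.1) * y.1) = _
            rw [add_mul, map_add]
          map_smul' := fun c a => by
            change LinearMap.trace K V ((c • a.1) * y.1) = _
            rw [smul_mul_assoc, map_smul]; rfl }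
      map_add' := fun a b => by
        ext x
        change LinearMap.trace K V (x.1 * (a.1 + b.1)) = _
        rw [mul_add, map_add]; rfl
      map_smul' := fun c a => by
        ext x
        change LinearMap.trace K V (x.1 * (c • a.1)) = _
        rw [mul_smul_comm, map_smul]; rfl }
  have hT : ∀ (y : Lm L s) (x : Lp L s), T y x = LinearMap.trace K V (x.1 * y.1) := fun _ _ => rfl
  let T' : Lp L s →ₗ[K] Module.Dual K (Lm L s) := T.flip
  have hTi : Function.Injective T := by
    rw [injective_iff_map_eq_zero]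
    intro y hy
    apply Subtype.ext
    apply A2_nondeg' h F.s_mem F.s_sq y.2
    intro x hx
    exact LinearMap.congr_fun hy ⟨x, hx⟩
  have hTi' : Function.Injective T' := by
    rw [injective_iff_map_eq_zero]
    intro x hx
    apply Subtype.ext
    apply A2_nondeg h F.s_mem F.s_sq x.2
    intro y hy
    exact LinearMap.congr_fun hx ⟨y, hy⟩
  have hdim : finrank K (Lm L s) = finrank K (Module.Dual K (Lp L s)) := by
    apply le_antisymm
    · exact LinearMap.finrank_le_finrank_of_injective hTi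
    · rw [Subspace.dual_finrank_eq]
      have := LinearMap.finrank_le_finrank_of_injective hTi'
      rwa [Subspace.dual_finrank_eq] at this
  let E := LinearEquiv.ofInjectiveOfFinrankEq T hTi hdim
  have hE : ∀ y, E y = T y := fun _ => rfl
  -- the basis
  let φ : Lp L s →ₗ[K] K := T ⟨f, F.f_mem⟩
  have hφe : φ ⟨e, F.e_mem⟩ = r := htef
  have hfree : Module.Free K (LinearMap.ker φ) :=
    @Module.Free.of_divisionRing K (LinearMap.ker φ) _ (LinearMap.ker φ).addCommGroup _
  let b := Module.finBasis K (LinearMap.ker φ)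
  have hli : ∀ c : K, ∀ x ∈ LinearMap.ker φ, c • (⟨e, F.e_mem⟩ : Lp L s) + x = 0 → c = 0 := by
    intro c x hx hcx
    have h1 := congrArg φ hcx
    rw [map_add, map_smul, hφe, LinearMap.mem_ker.1 hx, add_zero, map_zero, smul_eq_mul] at h1
    exact (mul_eq_zero.1 h1).resolve_right hr0
  have hsp : ∀ z : Lp L s, ∃ c : K, z + c • (⟨e, F.e_mem⟩ : Lp L s) ∈ LinearMap.ker φ := by
    intro z
    refine ⟨-(φ z / r), ?_⟩
    rw [LinearMap.mem_ker, map_add, map_smul, hφe, smul_eq_mul, neg_mul,
      div_mul_cancel₀ _ hr0, add_neg_cancel]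
  let B := Module.Basis.mkFinCons (⟨e, F.e_mem⟩ : Lp L s) b hli hsp
  have hB0 : B 0 = ⟨e, F.e_mem⟩ := by
    change (Module.Basis.mkFinCons _ b hli hsp) 0 = _
    rw [Module.Basis.coe_mkFinCons]; rfl
  have hBs : ∀ i : Fin (finrank K (LinearMap.ker φ)), φ (B i.succ) = 0 := by
    intro i
    change φ ((Module.Basis.mkFinCons _ b hli hsp) i.succ) = _
    rw [Module.Basis.coe_mkFinCons]
    exact LinearMap.mem_ker.1 (b i).2
  let C := B.dualBasis.map E.symm
  have hTC : ∀ i j, T (C j) (B i) = if i = j then 1 else 0 := by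
    intro i j
    have h1 : T (C j) = B.dualBasis j := by
      rw [← hE]
      change E (E.symm (B.dualBasis j)) = _
      rw [LinearEquiv.apply_symm_apply]
    rw [h1, Module.Basis.dualBasis_apply_self]
  let x : Fin (finrank K (LinearMap.ker φ) + 1) → Module.End K V := fun i => (B i).1
  let y : Fin (finrank K (LinearMap.ker φ) + 1) → Module.End K V := fun i => r • (C i).1
  have hx : ∀ i, x i ∈ Lp L s := fun i => (B i).2
  have hy : ∀ i, y i ∈ Lm L s := fun i => (Lm L s).smul_mem r (C i).2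
  have htr : ∀ i j, LinearMap.trace K V (x i * y j) = if i = j then r else 0 := by
    intro i j
    change LinearMap.trace K V ((B i).1 * (r • (C j).1)) = _
    rw [mul_smul_comm, map_smul, ← hT, hTC]
    split_ifs <;> simp
  have hpol1 : ∀ a ∈ Lp L s, ∀ a' ∈ Lp L s, ∀ d ∈ Lm L s, r • (a * d * a' + a' * d * a) =
      LinearMap.trace K V (a * d) • a' + LinearMap.trace K V (a' * d) • a := by
    intro a ha a' ha' d hd
    have h1 := (K3_trace h F hall ha hd).1
    have h2 := (K3_trace h F hall ha' hd).1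
    have h3 := (K3_trace h F hall ((Lp L s).add_mem ha ha') hd).1
    rw [← hr] at h1 h2 h3
    have e1 : (a + a') * d * (a + a') = a * d * a + a' * d * a' + (a * d * a' + a' * d * a) := by
      noncomm_ring
    rw [e1, smul_add, smul_add, h1, h2, add_mul, map_add] at h3
    have e2 : r • (a * d * a' + a' * d * a) = (LinearMap.trace K V (a * d) • a +
        LinearMap.trace K V (a' * d) • a' + r • (a * d * a' + a' * d * a)) -
        (LinearMap.trace K V (a * d) • a + LinearMap.trace K V (a' * d) • a') := by abel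
    rw [e2, h3]
    module
  have hpol2 : ∀ a ∈ Lp L s, ∀ d ∈ Lm L s, ∀ d' ∈ Lm L s, r • (d * a * d' + d' * a * d) =
      LinearMap.trace K V (a * d) • d' + LinearMap.trace K V (a * d') • d := by
    intro a ha d hd d' hd'
    have h1 := (K3_trace h F hall ha hd).2
    have h2 := (K3_trace h F hall ha hd').2
    have h3 := (K3_trace h F hall ha ((Lm L s).add_mem hd hd')).2
    rw [← hr] at h1 h2 h3
    have e1 : (d + d') * a * (d + d') = d * a * d + d' * a * d' + (d * a * d' + d' * a * d) := by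
      noncomm_ring
    rw [e1, smul_add, smul_add, h1, h2, mul_add, map_add] at h3
    have e2 : r • (d * a * d' + d' * a * d) = (LinearMap.trace K V (a * d) • d +
        LinearMap.trace K V (a * d') • d' + r • (d * a * d' + d' * a * d)) -
        (LinearMap.trace K V (a * d) • d + LinearMap.trace K V (a * d') • d') := by abel
    rw [e2, h3]
    module
  have hcancel : ∀ S T : Module.End K V, r • S = r • T → S = T := fun S T hST =>
    smul_right_injective _ hr0 hST
  refine ⟨finrank K (LinearMap.ker φ), x, y, ⟨F.s_sq, fun i => (hx i).2.1, fun i => (hx i).2.2,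
    fun i => (hy i).2.1, fun i => (hy i).2.2, ?_, ?_, ?_⟩, ?_, ?_, fun i => (hx i).1, fun i => (hy i).1, ?_, ?_⟩
  · intro i j k
    apply hcancel
    rw [hpol1 _ (hx i) _ (hx k) _ (hy j), htr, htr]
    split_ifs <;> simp [smul_add]
  · intro i j k
    apply hcancel
    rw [hpol2 _ (hx j) _ (hy i) _ (hy k), htr, htr]
    simp only [eq_comm (a := j)]
    split_ifs <;> simp [smul_add]
  · intro W hWx hWy hWs
    have hp : ∀ X ∈ Lp L s, ∀ w ∈ W, X w ∈ W := by
      intro X hX w hw
      have h1 := B.sum_repr ⟨X, hX⟩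
      have h2 : X = ∑ i, (B.repr ⟨X, hX⟩ i) • x i := by
        have := congrArg Subtype.val h1
        rw [AddSubmonoidClass.coe_finsetSum] at this
        exact this.symm
      rw [h2, LinearMap.sum_apply]
      exact W.sum_mem fun i _ => W.smul_mem _ (hWx i w hw)
    have hm : ∀ Y ∈ Lm L s, ∀ w ∈ W, Y w ∈ W := by
      intro Y hY w hw
      have h1 := C.sum_repr ⟨Y, hY⟩
      have h2 : Y = ∑ i, (C.repr ⟨Y, hY⟩ i) • (C i).1 := by
        have := congrArg Subtype.val h1
        rw [AddSubmonoidClass.coe_finsetSum] at this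
        exact this.symm
      rw [h2, LinearMap.sum_apply]
      refine W.sum_mem fun i _ => W.smul_mem _ ?_
      have h3 := W.smul_mem r⁻¹ (hWy i w hw)
      change r⁻¹ • (r • (C i).1) w ∈ W at h3
      rwa [LinearMap.smul_apply, smul_smul, inv_mul_cancel₀ hr0, one_smul] at h3
    have h00 : ∀ Z ∈ L0 L s, ∀ w ∈ W, Z w ∈ W := by
      intro Z hZ w hw
      have h1 := A3_span h F.s_mem F.s_sq hZ
      clear hZ
      induction h1 using Submodule.span_induction with
      | mem Z hZ =>
        obtain ⟨X, hX, Y, hY, rfl⟩ := hZ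
        rw [LinearMap.sub_apply]
        exact W.sub_mem (hp X hX _ (hm Y hY w hw)) (hm Y hY _ (hp X hX w hw))
      | zero => simp
      | add a b _ _ ha hb =>
        rw [LinearMap.add_apply]
        exact W.add_mem ha hb
      | smul c a _ ha =>
        rw [LinearMap.smul_apply]
        exact W.smul_mem c ha
    apply h.irr W
    intro X hX w hw
    obtain ⟨a, ha, b, hb, c, hc, rfl⟩ := A2_decomp h F.s_mem F.s_sq hX
    rw [LinearMap.add_apply, LinearMap.add_apply]
    exact W.add_mem (W.add_mem (hp a ha w hw) (h00 b hb w hw)) (hm c hc w hw)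
  · change (B 0).1 = e
    rw [hB0]
  · change r • (C 0).1 = f
    have h1 : r • C 0 = ⟨f, F.f_mem⟩ := by
      apply hTi
      apply B.ext
      intro i
      rw [map_smul, LinearMap.smul_apply, hTC]
      change _ = φ (B i)
      refine Fin.cases ?_ (fun i => ?_) i
      · rw [if_pos rfl, hB0, hφe, smul_eq_mul, mul_one]
      · rw [if_neg (Fin.succ_ne_zero i), hBs, smul_zero]
    exact congrArg Subtype.val h1
  · intro X hX
    have h1 := B.sum_repr ⟨X, hX⟩
    have h2 : X = ∑ i, (B.repr ⟨X, hX⟩ i) • x i := by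
      have := congrArg Subtype.val h1
      rw [AddSubmonoidClass.coe_finsetSum] at this
      exact this.symm
    rw [h2]
    exact Submodule.sum_mem _ fun i _ => Submodule.smul_mem _ _ (Submodule.subset_span ⟨i, rfl⟩)
  · intro Y hY
    have h1 := C.sum_repr ⟨Y, hY⟩
    have h2 : Y = ∑ i, (C.repr ⟨Y, hY⟩ i) • (C i).1 := by
      have := congrArg Subtype.val h1
      rw [AddSubmonoidClass.coe_finsetSum] at this
      exact this.symm
    rw [h2]
    refine Submodule.sum_mem _ fun i _ => Submodule.smul_mem _ _ ?_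
    have h3 : (C i).1 = r⁻¹ • y i := by
      change (C i).1 = r⁻¹ • (r • (C i).1)
      rw [smul_smul, inv_mul_cancel₀ hr0, one_smul]
    rw [h3]
    exact Submodule.smul_mem _ _ (Submodule.subset_span ⟨i, rfl⟩)

end Pool.Agent.H86N
end
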