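import Mathlib
import Pool.Agent.Lib.H1M.RC.M008
import Pool.Agent.Lib.H1M.RC.M013
import Pool.Agent.Lib.H1M.RC.M015
import Pool.Agent.Lib.H1M.RC.M020
import Pool.Agent.Lib.H1M.RC.M021

/-! Merged copies (to shorten the build) of Lib.CFT.Y08, Lib.CFT.Y10, Lib.CFT.Y11, Lib.CFT.Y12, Lib.CFT.ZD, Lib.CFT.ZC, Lib.CFT.ZE, Lib.CFT.YMod, Lib.CFT.Y25, Lib.CFT.Y26, Lib.CFT.Y27, Lib.CFT.Y27B, Lib.CFT.Y28, Lib.H86N.A4, Lib.H86N.P1. -/

-- from Lib.CFT.Y08
section

/-! # CFT module Y, chunk Y08: the ray units are cocompact -/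

open NumberField

namespace CFTY

variable {K : Type} [Field K] [NumberField K]

/-- PROOF. `c` from `mink`. Given `x ≠ 0` take `a`; `nm a * nm x = nm (a x) ≤ house (a x) ^ d ≤ c nm x`, so `nm a ≤ c`. `fin_cls` (`B = c`): `a = u r`.
`u x = r⁻¹ (a x)`, so `house (u x) ^ d ≤ house r⁻¹ ^ d * c * nm x`. `C = 1 + sum over R of house r⁻¹ ^ d * c`. -/
theorem cocomp (m : Ideal (𝓞 K)) (hm : m ≠ ⊥) : ∃ C : ℝ, 0 < C ∧ ∀ x : K, x ≠ 0 →
    ∃ u ∈ RU m, Rg C ((((u : (𝓞 K)ˣ) : 𝓞 K) : K) * x) := by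
  classical
  obtain ⟨c, hc0, hc⟩ := mink K
  obtain ⟨R, hR0, hR⟩ := fin_cls m hm c
  have hterm : ∀ r ∈ R, 0 ≤ house ((r : K)⁻¹) ^ dg K * c := fun r _ =>
    mul_nonneg (pow_nonneg (house_nonneg _) _) hc0.le
  refine ⟨1 + ∑ r ∈ R, house ((r : K)⁻¹) ^ dg K * c, ?_, ?_⟩
  · have h1 := Finset.sum_nonneg hterm
    linarith
  · intro x hx
    obtain ⟨a, ha0, ha⟩ := hc x hx
    have hn := nm_pos hx
    have h1 : nm (a : K) ≤ c := by
      have h2 := nm_le_house ((a : K) * x)
      rw [nm_mul] at h2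
      exact le_of_mul_le_mul_right (h2.trans ha) hn
    obtain ⟨r, hr, u, hu, hau⟩ := hR a ha0 h1
    have hrK : (r : K) ≠ 0 := RingOfIntegers.coe_ne_zero_iff.2 (hR0 r hr)
    refine ⟨u, hu, mul_ne_zero (RingOfIntegers.coe_ne_zero_iff.2 (Units.ne_zero u)) hx, ?_⟩
    rw [nm_mul, nm_unit, one_mul]
    have h2 : (a : K) = (((u : (𝓞 K)ˣ) : 𝓞 K) : K) * (r : K) := by
      rw [hau]
      exact map_mul (algebraMap (𝓞 K) K) _ _
    have h3 : (((u : (𝓞 K)ˣ) : 𝓞 K) : K) * x = (r : K)⁻¹ * ((a : K) * x) := by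
      rw [h2]
      field_simp
    rw [h3]
    calc house ((r : K)⁻¹ * ((a : K) * x)) ^ dg K
        ≤ (house ((r : K)⁻¹) * house ((a : K) * x)) ^ dg K :=
          pow_le_pow_left₀ (house_nonneg _) (house_mul_le _ _) _
      _ = house ((r : K)⁻¹) ^ dg K * house ((a : K) * x) ^ dg K := mul_pow _ _ _
      _ ≤ house ((r : K)⁻¹) ^ dg K * (c * nm x) := mul_le_mul_of_nonneg_left ha (pow_nonneg (house_nonneg _) _)
      _ = (house ((r : K)⁻¹) ^ dg K * c) * nm x := by ring
      _ ≤ (1 + ∑ r ∈ R, house ((r : K)⁻¹) ^ dg K * c) * nm x := by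
          refine mul_le_mul_of_nonneg_right ?_ hn.le
          have h4 := Finset.single_le_sum hterm hr
          linarith


end CFTY
end

-- from Lib.CFT.Y10
section

/-! # CFT module Y, chunk Y10: the sum of the cut-off functions -/

open NumberField

namespace CFTY

variable {K : Type} [Field K] [NumberField K]

variable (E : Subgroup (𝓞 K)ˣ)

/-- PROOF. `ph C (u x) ≠ 0` gives `Rg (2 C) (u x)` (`ph_rg`), `Rg A x` for `A = house x ^ d / nm x`, so `house u ≤ max A (2 C)` (`house_unit`), finitely many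
(`fin_units`). For `x = 0` all values are 0. -/
theorem wt_fin (C : ℝ) (x : K) :
    (Function.support fun u : E => ph C ((((u : (𝓞 K)ˣ) : 𝓞 K) : K) * x)).Finite := by
  by_cases hx : x = 0
  · have h : (Function.support fun u : E => ph C ((((u : (𝓞 K)ˣ) : 𝓞 K) : K) * x)) = ∅ := by
      rw [Function.support_eq_empty_iff]
      funext u
      rw [hx, mul_zero]
      unfold ph
      rw [if_pos rfl]
      rfl
    rw [h]
    exact Set.finite_empty
  · have hn := nm_pos hx
    have hA : Rg (house x ^ dg K / nm x) x := ⟨hx, by rw [div_mul_cancel₀ _ hn.ne']⟩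
    refine Set.Finite.subset ((fin_units (K := K) (max (house x ^ dg K / nm x) (2 * C))).preimage
      (f := fun u : E => (u : (𝓞 K)ˣ)) Subtype.val_injective.injOn) ?_
    intro u hu
    exact house_unit (u : (𝓞 K)ˣ) hA (ph_rg hu)


/-- PROOF. Reindex by `u ↦ u v` (`Equiv.mulRight`). -/
theorem wt_inv (C : ℝ) (x : K) {v : (𝓞 K)ˣ} (hv : v ∈ E) : Wt C E ((((v : (𝓞 K)ˣ) : 𝓞 K) : K) * x) = Wt C E x := by
  unfold Wt
  rw [← (Equiv.mulRight (⟨v, hv⟩ : E)).tsum_eq (fun u : E => ph C ((((u : (𝓞 K)ˣ) : 𝓞 K) : K) * x))]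
  refine tsum_congr fun u => ?_
  congr 1
  simp only [Equiv.coe_mulRight, Subgroup.coe_mul, Units.val_mul, map_mul]
  ring


/-- PROOF. One of the terms is `≥ C` (`ph_ge`), all are `≥ 0`, the support is finite. -/
theorem wt_ge {C : ℝ} {x : K} (u : (𝓞 K)ˣ) (hu : u ∈ E) (h : Rg C ((((u : (𝓞 K)ˣ) : 𝓞 K) : K) * x)) :
    C ≤ Wt C E x := by
  have h1 : Summable fun u : E => ph C ((((u : (𝓞 K)ˣ) : 𝓞 K) : K) * x) := summable_of_hasFiniteSupport (wt_fin E C x)
  have h2 := h1.le_tsum (⟨u, hu⟩ : E) (fun j _ => ph_nonneg C _)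
  exact (ph_ge h).trans h2


/-- For `x` in `Rg A` the sum is over a fixed finite set of units. PROOF. `{u ∈ E : house u ≤ max A (2 C)}`, `house_unit`. -/
theorem wt_finset (C A : ℝ) : ∃ U : Finset E, ∀ x : K, Rg A x →
    Wt C E x = ∑ u ∈ U, ph C (((((u : E) : (𝓞 K)ˣ) : 𝓞 K) : K) * x) := by
  classical
  have hfin : {u : E | house ((((u : (𝓞 K)ˣ) : 𝓞 K) : K)) ≤ max A (2 * C)}.Finite :=
    (fin_units (K := K) (max A (2 * C))).preimage (f := fun u : E => (u : (𝓞 K)ˣ)) Subtype.val_injective.injOn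
  refine ⟨hfin.toFinset, fun x hx => ?_⟩
  unfold Wt
  refine tsum_eq_sum fun u hu => ?_
  by_contra h
  exact hu (hfin.mem_toFinset.2 (house_unit (u : (𝓞 K)ˣ) hx (ph_rg h)))


end CFTY
end

-- from Lib.CFT.Y11
section

/-! # CFT module Y, chunk Y11: the sum of the cut-off functions is Lipschitz -/

open NumberField

namespace CFTY

variable {K : Type} [Field K] [NumberField K]

variable (E : Subgroup (𝓞 K)ˣ)

/-- PROOF. If `Rg C x`, `Cl δ x y`, `δ ≤ 1/2` then `Rg (3^d C) y` (`cl_house_upper`, `cl_nm_lower`). -/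
theorem rg_cl {C δ : ℝ} {x y : K} (hC : 0 ≤ C) (h0 : 0 ≤ δ) (h1 : δ ≤ 1 / 2) (h : Rg C x) (hc : Cl δ x y) :
    Rg (3 ^ dg K * C) y := by
  obtain ⟨hx, hR⟩ := h
  refine ⟨cl_ne h1 hx hc, ?_⟩
  have h2 := cl_house_upper h0 hc
  have h3 := cl_nm_lower h1 hc
  have hn := nm_nonneg x
  have h4 : (1 + δ) ^ dg K ≤ 3 ^ dg K * (1 - δ) ^ dg K := by
    rw [← mul_pow]
    exact pow_le_pow_left₀ (by linarith) (by linarith) _
  calc house y ^ dg K ≤ ((1 + δ) * house x) ^ dg K := pow_le_pow_left₀ (house_nonneg y) h2 _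
    _ = (1 + δ) ^ dg K * house x ^ dg K := mul_pow _ _ _
    _ ≤ (1 + δ) ^ dg K * (C * nm x) := mul_le_mul_of_nonneg_left hR (pow_nonneg (by linarith) _)
    _ ≤ (3 ^ dg K * (1 - δ) ^ dg K) * (C * nm x) := mul_le_mul_of_nonneg_right h4 (mul_nonneg hC hn)
    _ = (3 ^ dg K * C) * ((1 - δ) ^ dg K * nm x) := by ring
    _ ≤ (3 ^ dg K * C) * nm y := mul_le_mul_of_nonneg_left h3 (mul_nonneg (by positivity) hC)


/-- PROOF. `U` from `wt_finset` with `A = 3^d C`. Let `u ∈ E` with `Rg C (u x)`; replace `x, y` by `u x, u y` (`wt_inv`, `cl_mul`). Then `x` and `y` are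
in `Rg A` (`rg_cl`; `C ≤ 3^d C`), so both values are sums over `U`; `ph_LL`. -/
theorem wt_LL {C : ℝ} (hC : 0 < C) (hE : ∀ x : K, x ≠ 0 → ∃ u ∈ E, Rg C ((((u : (𝓞 K)ˣ) : 𝓞 K) : K) * x)) :
    ∃ L : ℝ, 0 ≤ L ∧ ∀ (δ : ℝ) (x y : K), 0 ≤ δ → δ ≤ 1 / 2 → x ≠ 0 → Cl δ x y →
      |Wt C E y - Wt C E x| ≤ L * δ := by
  classical
  obtain ⟨U, hU⟩ := wt_finset E C (3 ^ dg K * C)
  obtain ⟨L, hL0, hL⟩ := ph_LL (K := K) C hC
  refine ⟨(U.card : ℝ) * L, mul_nonneg (Nat.cast_nonneg _) hL0, ?_⟩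
  intro δ x y h0 h1 hx hc
  obtain ⟨u, hu, hR⟩ := hE x hx
  rw [← wt_inv E C x hu, ← wt_inv E C y hu]
  have hc' := cl_mul hc (((u : (𝓞 K)ˣ) : 𝓞 K) : K)
  have hRy := rg_cl hC.le h0 h1 hR hc'
  have hRx : Rg (3 ^ dg K * C) ((((u : (𝓞 K)ˣ) : 𝓞 K) : K) * x) := by
    refine rg_cl hC.le le_rfl (by norm_num) hR ?_
    intro σ
    rw [sub_self, norm_zero, zero_mul]
  rw [hU _ hRy, hU _ hRx, ← Finset.sum_sub_distrib]
  refine (Finset.abs_sum_le_sum_abs _ _).trans ?_
  have h2 : ∀ w ∈ U, |ph C (((((w : E) : (𝓞 K)ˣ) : 𝓞 K) : K) * ((((u : (𝓞 K)ˣ) : 𝓞 K) : K) * y)) -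
      ph C (((((w : E) : (𝓞 K)ˣ) : 𝓞 K) : K) * ((((u : (𝓞 K)ˣ) : 𝓞 K) : K) * x))| ≤ L * δ := by
    intro w _
    refine hL δ _ _ h0 h1 ?_ (cl_mul hc' _)
    refine mul_ne_zero ?_ hR.1
    have h3 : ((w : (𝓞 K)ˣ) : 𝓞 K) ≠ 0 := Units.ne_zero _
    exact RingOfIntegers.coe_ne_zero_iff.2 h3
  refine (Finset.sum_le_sum h2).trans ?_
  rw [Finset.sum_const, nsmul_eq_mul, mul_assoc]


end CFTY
end

-- from Lib.CFT.Y12
section

/-! # CFT module Y, chunk Y12: partition of unity -/

open NumberField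

namespace CFTY

variable {K : Type} [Field K] [NumberField K]

/-- difference of quotients -/
theorem y12_quot {p q P Q C Lp Lw δ : ℝ} (hC : 0 < C) (hP : C ≤ P) (hQ : C ≤ Q) (hp0 : 0 ≤ p) (hp : p ≤ 2 * C)
    (h1 : |q - p| ≤ Lp * δ) (h2 : |Q - P| ≤ Lw * δ) : |q / Q - p / P| ≤ (Lp / C + 2 * Lw / C) * δ := by
  have hP0 : 0 < P := lt_of_lt_of_le hC hP
  have hQ0 : 0 < Q := lt_of_lt_of_le hC hQ
  have hLp : 0 ≤ Lp * δ := (abs_nonneg _).trans h1
  have hLw : 0 ≤ Lw * δ := (abs_nonneg _).trans h2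
  have e : q / Q - p / P = (q - p) / Q - p * (Q - P) / (P * Q) := by
    field_simp
    ring
  rw [e]
  refine (abs_sub _ _).trans ?_
  rw [abs_div, abs_div, abs_mul, abs_of_pos hQ0, abs_of_pos (mul_pos hP0 hQ0), abs_of_nonneg hp0]
  have h3 : |q - p| / Q ≤ (Lp * δ) / C := div_le_div₀ hLp h1 hC hQ
  have h4 : p * |Q - P| / (P * Q) ≤ (2 * C * (Lw * δ)) / (C * C) := by
    refine div_le_div₀ (by positivity) ?_ (by positivity) ?_
    · exact mul_le_mul hp h2 (abs_nonneg _) (by positivity)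
    · exact mul_le_mul hP hQ hC.le hP0.le
  have h5 : (2 * C * (Lw * δ)) / (C * C) = 2 * Lw / C * δ := by
    field_simp
  have h6 : (Lp * δ) / C = Lp / C * δ := by ring
  rw [h5] at h4
  rw [h6] at h3
  linarith

/-- PROOF. `C` from `cocomp`, `E = RU m`, `w x = ph C x / Wt C E x` (0 at 0 because `ph C 0 = 0`), `A = 2 C`. For `x ≠ 0`: `Wt ≥ C` (`wt_ge`), so `w` is between 0
and 2. LL: `|ph y / Wt y - ph x / Wt x| ≤ |ph y - ph x| / Wt y + ph x |Wt x - Wt y| / (Wt x Wt y)`, `ph_LL`, `wt_LL`, `ph_le`.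
Sum: `w (u x) = ph C (u x) / Wt C E x` (`wt_inv`), finite support. -/
theorem part_unity (m : Ideal (𝓞 K)) (hm : m ≠ ⊥) : ∃ (w : K → ℝ) (A : ℝ), 0 < A ∧
    Bd (fun x => (w x : ℂ)) ∧ LL (fun x => (w x : ℂ)) ∧ (∀ x, w x ≠ 0 → Rg A x) ∧
    ∀ x : K, x ≠ 0 → HasSum (fun u : RU m => w ((((u : (𝓞 K)ˣ) : 𝓞 K) : K) * x)) 1 := by
  obtain ⟨C, hC, hcc⟩ := cocomp m hm
  have hph0 : ph C (0 : K) = 0 := by
    by_contra h
    exact (ph_rg h).1 rfl
  have hWt : ∀ x : K, x ≠ 0 → C ≤ Wt C (RU m) x := by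
    intro x hx
    obtain ⟨u, hu, hr⟩ := hcc x hx
    exact wt_ge (RU m) u hu hr
  refine ⟨fun x => ph C x / Wt C (RU m) x, 2 * C, by linarith, ?_, ?_, ?_, ?_⟩
  · refine ⟨2, by norm_num, ?_⟩
    intro x
    by_cases hx : x = 0
    · subst hx
      simp [hph0]
    · have h1 := hWt x hx
      have h0 : 0 < Wt C (RU m) x := lt_of_lt_of_le hC h1
      have h2 := ph_nonneg C x
      have h3 := ph_le C hC.le x
      rw [Complex.norm_real, Real.norm_eq_abs, abs_of_nonneg (div_nonneg h2 h0.le), div_le_iff₀ h0]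
      nlinarith
  · obtain ⟨Lp, hLp, hp⟩ := ph_LL (K := K) C hC
    obtain ⟨Lw, hLw, hw⟩ := wt_LL (RU m) hC hcc
    refine ⟨Lp / C + 2 * Lw / C, by positivity, ?_⟩
    intro δ x y h0 h1 hx hc
    have hy : y ≠ 0 := cl_ne h1 hx hc
    have h2 := y12_quot hC (hWt x hx) (hWt y hy) (ph_nonneg C x) (ph_le C hC.le x) (hp δ x y h0 h1 hx hc)
      (hw δ x y h0 h1 hx hc)
    rw [← Complex.ofReal_sub, Complex.norm_real, Real.norm_eq_abs]
    exact h2
  · intro x hx
    have h1 : ph C x ≠ 0 := by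
      intro h
      apply hx
      show ph C x / Wt C (RU m) x = 0
      rw [h, zero_div]
    exact ph_rg h1
  · intro x hx
    have h0 : Wt C (RU m) x ≠ 0 := (lt_of_lt_of_le hC (hWt x hx)).ne'
    have e : (fun u : RU m => ph C ((((u : (𝓞 K)ˣ) : 𝓞 K) : K) * x) / Wt C (RU m) ((((u : (𝓞 K)ˣ) : 𝓞 K) : K) * x))
        = fun u : RU m => ph C ((((u : (𝓞 K)ˣ) : 𝓞 K) : K) * x) / Wt C (RU m) x := by
      funext u
      rw [wt_inv (RU m) C x u.2]
    show HasSum (fun u : RU m => ph C ((((u : (𝓞 K)ˣ) : 𝓞 K) : K) * x) / Wt C (RU m) ((((u : (𝓞 K)ˣ) : 𝓞 K) : K) * x)) 1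
    rw [e]
    have hs : Summable (fun u : RU m => ph C ((((u : (𝓞 K)ˣ) : 𝓞 K) : K) * x)) :=
      summable_of_finite_support (wt_fin (RU m) C x)
    have h1 := hs.hasSum.div_const (Wt C (RU m) x)
    have h2 : (∑' u : RU m, ph C ((((u : (𝓞 K)ˣ) : 𝓞 K) : K) * x)) / Wt C (RU m) x = 1 := by
      have : (∑' u : RU m, ph C ((((u : (𝓞 K)ˣ) : 𝓞 K) : K) * x)) = Wt C (RU m) x := rfl
      rw [this, div_self h0]
    rw [h2] at h1
    exact h1

end CFTY
end

-- from Lib.CFT.ZD
section

/-! # CFT, module Z: ray class characters and their Dirichlet series (definitions, first lemmas)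

cphi χ v: the value of the character χ of Dv K at the prime v. chI S χ: the character on the ideals (0 at the ideals which are 0 or divisible by
a prime in S, otherwise the product of the values at the prime factors). Its Dirichlet series is Ls (chI S χ) s. -/

open NumberField IsDedekindDomain

namespace CFTZ

open H55R CFT

variable {K : Type} [Field K] [NumberField K]

/-- The product of the primes in S. -/
noncomputable def SI (S : Finset (Pr K)) : Ideal (𝓞 K) := ∏ v ∈ S, v.asIdeal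

/-- The values of a character of the group of divisors at the primes. -/
noncomputable def cphi (χ : Dv K →+ Additive ℂˣ) (v : Pr K) : ℂˣ := (χ (Finsupp.single v 1)).toMul

/-- The character on the ideals, 0 for the ideals divisible by a prime in S. -/
noncomputable def chI (S : Finset (Pr K)) (χ : Dv K →+ Additive ℂˣ) : Ideal (𝓞 K) →*₀ ℂ := tI (SI S) (cphi χ)


/-- The primes containing the product of the primes in S are the primes in S. -/
theorem SI_le (S : Finset (Pr K)) (v : Pr K) : SI S ≤ v.asIdeal ↔ v ∈ S := by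
  have hp := v.isPrime
  unfold SI
  rw [hp.prod_le]
  constructor
  · rintro ⟨w, hw, h⟩
    have h1 := w.isMaximal.eq_of_le hp.ne_top h
    have h2 : w = v := HeightOneSpectrum.ext h1
    rwa [← h2]
  · intro h
    exact ⟨v, h, le_rfl⟩

/-- A prime is coprime to the product of the primes in S iff it is not in S. -/
theorem cop_iff (S : Finset (Pr K)) (v : Pr K) : IsCoprime v.asIdeal (SI S) ↔ v ∉ S := by
  rw [Ideal.isCoprime_iff_sup_eq, ← SI_le]
  constructor
  · intro h hf
    rw [sup_eq_left.2 hf] at h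
    exact v.isPrime.ne_top h
  · intro h
    by_contra hne
    apply h
    have h1 := v.isMaximal.eq_of_le hne le_sup_left
    rw [h1]
    exact le_sup_right

theorem chI_prime (S : Finset (Pr K)) (χ : Dv K →+ Additive ℂˣ) {v : Pr K} (h : v ∉ S) :
    chI S χ v.asIdeal = (cphi χ v : ℂ) := by
  unfold chI
  rw [tI_apply _ _ v.ne_bot ((cop_iff S v).2 h), pv_prime]

theorem chI_prime_mem (S : Finset (Pr K)) (χ : Dv K →+ Additive ℂˣ) {v : Pr K} (h : v ∈ S) :
    chI S χ v.asIdeal = 0 := by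
  unfold chI
  exact tI_zero _ _ fun h' => (cop_iff S v).1 h' h

/-- A character is the product of the values at the primes. -/
theorem chi_apply (χ : Dv K →+ Additive ℂˣ) (D : Dv K) : (χ D).toMul = D.prod fun v n => cphi χ v ^ n := by
  induction D using Finsupp.induction_linear with
  | zero => rw [map_zero, toMul_zero, Finsupp.prod_zero_index]
  | add D E hD hE =>
    rw [map_add, toMul_add, hD, hE, Finsupp.prod_add_index']
    · intro v
      exact zpow_zero _
    · intro v a b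
      exact zpow_add _ _ _
  | single v n =>
    rw [Finsupp.prod_single_index (zpow_zero _)]
    have h : (Finsupp.single v n : Dv K) = n • Finsupp.single v 1 := by
      rw [Finsupp.smul_single, smul_eq_mul, mul_one]
    rw [h, map_zsmul, toMul_zsmul]
    rfl

/-- Characters with the same values at the primes are equal. -/
theorem chi_ext {χ ψ : Dv K →+ Additive ℂˣ} (h : ∀ v, cphi χ v = cphi ψ v) : χ = ψ := by
  refine AddMonoidHom.ext fun D => ?_
  apply Additive.toMul.injective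
  rw [chi_apply, chi_apply]
  exact Finsupp.prod_congr fun v _ => by rw [h]

end CFTZ
end

-- from Lib.CFT.ZC
section

/-! # CFT, module Z, part C: the second inequality

Z0S K: the statement Z0 (the L-series of the nontrivial ray class characters are bounded near 1). second_ineq_of: for every Galois extension L/K, the
divisors in Pray S N + norms have index at most [L : K] (from Z0S K and the finiteness of the ray class group). -/

open NumberField IsDedekindDomain

namespace CFTZ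

open H55R CFT

/-- The statement Z0. -/
def Z0S (K : Type) [Field K] [NumberField K] : Prop :=
  ∀ (S : Finset (Pr K)) (N : ℕ) (χ : Dv K →+ Additive ℂˣ), (∀ D ∈ Pray S N, χ D = 0) →
    (∀ v, ‖(cphi χ v : ℂ)‖ = 1) → χ ≠ 0 → ∃ C : ℝ, ∀ s ∈ Set.Ioc (1 : ℝ) 2, ‖Ls (chI S χ) s‖ ≤ C

section one

variable {K : Type} [Field K] [NumberField K]

/-- The character of Dv K belonging to a character of a quotient. -/
noncomputable def chq (H : AddSubgroup (Dv K)) (ψ : AddChar (Dv K ⧸ H) ℂ) : Dv K →+ Additive ℂˣ where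
  toFun D := Additive.ofMul (ψ.toMonoidHom.toHomUnits (Multiplicative.ofAdd (QuotientAddGroup.mk D)))
  map_zero' := by
    rw [QuotientAddGroup.mk_zero, ofAdd_zero, map_one, ofMul_one]
  map_add' a b := by
    rw [QuotientAddGroup.mk_add, ofAdd_add, map_mul, ofMul_mul]

theorem chq_apply (H : AddSubgroup (Dv K)) (ψ : AddChar (Dv K ⧸ H) ℂ) (D : Dv K) :
    (((chq H ψ D).toMul : ℂˣ) : ℂ) = ψ (QuotientAddGroup.mk D) := rfl

theorem chq_cphi (H : AddSubgroup (Dv K)) (ψ : AddChar (Dv K ⧸ H) ℂ) (v : Pr K) :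
    (cphi (chq H ψ) v : ℂ) = ψ (QuotientAddGroup.mk (Finsupp.single v 1)) := rfl

theorem chq_ker (H : AddSubgroup (Dv K)) (ψ : AddChar (Dv K ⧸ H) ℂ) {D : Dv K} (hD : D ∈ H) : chq H ψ D = 0 := by
  apply Additive.toMul.injective
  apply Units.ext
  rw [chq_apply, (QuotientAddGroup.eq_zero_iff D).2 hD, AddChar.map_zero_eq_one, toMul_zero, Units.val_one]

theorem chq_ne (H : AddSubgroup (Dv K)) {ψ : AddChar (Dv K ⧸ H) ℂ} (h : ψ ≠ 0) : chq H ψ ≠ 0 := by
  intro h0
  apply h
  ext x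
  obtain ⟨D, rfl⟩ := QuotientAddGroup.mk_surjective x
  rw [← chq_apply, h0, AddMonoidHom.zero_apply, toMul_zero, Units.val_one, AddChar.zero_apply]

theorem chq_norm (H : AddSubgroup (Dv K)) [Finite (Dv K ⧸ H)] (ψ : AddChar (Dv K ⧸ H) ℂ) (v : Pr K) :
    ‖(cphi (chq H ψ) v : ℂ)‖ = 1 := by
  rw [chq_cphi]
  exact ψ.norm_apply _

/-- The sum over the primes is bounded below by the sum over a smaller set, up to finitely many primes. -/
theorem PS_le {A B : Set (Pl K)} (F : Finset (Pl K)) (h : ∀ v ∈ A, v ∉ F → v ∈ B) {s : ℝ} (hs : 1 < s) :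
    PS A s ≤ PS B s + F.card := by
  classical
  have hA : Summable fun v : Pl K => A.indicator (fun v => (Ideal.absNorm v.asIdeal : ℝ) ^ (-s)) v :=
    (dd_summable s hs).indicator _
  have hB : Summable fun v : Pl K => B.indicator (fun v => (Ideal.absNorm v.asIdeal : ℝ) ^ (-s)) v :=
    (dd_summable s hs).indicator _
  have hF : HasSum (fun v : Pl K => if v ∈ F then (1 : ℝ) else 0) F.card := by
    have h1 : HasSum (fun v : Pl K => if v ∈ F then (1 : ℝ) else 0) (∑ v ∈ F, if v ∈ F then (1 : ℝ) else 0) :=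
      hasSum_sum_of_ne_finset_zero fun v hv => if_neg hv
    rw [Finset.sum_congr rfl (g := fun _ => (1 : ℝ)) (fun v hv => if_pos hv), Finset.sum_const, nsmul_eq_mul,
      mul_one] at h1
    exact h1
  unfold PS
  rw [← hF.tsum_eq, ← hB.tsum_add hF.summable]
  refine hA.tsum_le_tsum (fun v => ?_) (hB.add hF.summable)
  have h0 : ∀ v : Pl K, 0 ≤ (Ideal.absNorm v.asIdeal : ℝ) ^ (-s) := fun v => by positivity
  have hB0 : 0 ≤ B.indicator (fun v : Pl K => (Ideal.absNorm v.asIdeal : ℝ) ^ (-s)) v :=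
    Set.indicator_nonneg (fun v _ => h0 v) v
  by_cases hv : v ∈ A
  · rw [Set.indicator_of_mem hv]
    by_cases hF' : v ∈ F
    · rw [if_pos hF']
      have h2 := dd_half v s hs.le
      linarith
    · rw [if_neg hF', Set.indicator_of_mem (h v hv hF'), add_zero]
  · rw [Set.indicator_of_notMem hv]
    split_ifs
    · linarith
    · linarith

open Classical in
theorem orth_point (S : Finset (Pr K)) (H : AddSubgroup (Dv K)) [Fintype (Dv K ⧸ H)] (v : Pl K) :
    ∑ ψ : AddChar (Dv K ⧸ H) ℂ, (chI S (chq H ψ) v.asIdeal).re =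
      if v ∉ S ∧ (Finsupp.single v 1 : Dv K) ∈ H then (Nat.card (Dv K ⧸ H) : ℝ) else 0 := by
  by_cases hS : v ∈ S
  · rw [if_neg fun h => h.1 hS]
    refine Finset.sum_eq_zero fun ψ _ => ?_
    rw [chI_prime_mem S _ hS, Complex.zero_re]
  · have h1 : ∀ ψ : AddChar (Dv K ⧸ H) ℂ, chI S (chq H ψ) v.asIdeal = ψ (QuotientAddGroup.mk (Finsupp.single v 1)) := by
      intro ψ
      rw [chI_prime S _ hS, chq_cphi]
    rw [← Complex.re_sum, Finset.sum_congr rfl fun ψ _ => h1 ψ, AddChar.sum_apply_eq_ite]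
    by_cases h : (Finsupp.single v 1 : Dv K) ∈ H
    · rw [if_pos ((QuotientAddGroup.eq_zero_iff _).2 h), if_pos ⟨hS, h⟩, Nat.card_eq_fintype_card, Complex.natCast_re]
    · rw [if_neg fun h' => h ((QuotientAddGroup.eq_zero_iff _).1 h'), if_neg fun h' => h h'.2, Complex.zero_re]

/-- Orthogonality. -/
theorem orth (S : Finset (Pr K)) (H : AddSubgroup (Dv K)) [Fintype (Dv K ⧸ H)] (s : ℝ) (hs : 1 < s) :
    (Nat.card (Dv K ⧸ H) : ℝ) * PS {v : Pl K | v ∉ S ∧ (Finsupp.single v 1 : Dv K) ∈ H} s =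
      ∑ ψ : AddChar (Dv K ⧸ H) ℂ, ∑' v : Pl K, (chI S (chq H ψ) v.asIdeal).re *
        (Ideal.absNorm v.asIdeal : ℝ) ^ (-s) := by
  classical
  have hsum : ∀ ψ : AddChar (Dv K ⧸ H) ℂ, Summable fun v : Pl K => (chI S (chq H ψ) v.asIdeal).re *
      (Ideal.absNorm v.asIdeal : ℝ) ^ (-s) := by
    intro ψ
    refine Summable.of_norm_bounded (dd_summable (K := K) s hs) fun v => ?_
    rw [norm_mul, Real.norm_eq_abs, Real.norm_eq_abs]
    have h1 : |(chI S (chq H ψ) v.asIdeal).re| ≤ 1 :=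
      (Complex.abs_re_le_norm _).trans (dd_norm_tI _ _ (chq_norm H ψ) _)
    have h2 : |(Ideal.absNorm v.asIdeal : ℝ) ^ (-s)| = (Ideal.absNorm v.asIdeal : ℝ) ^ (-s) :=
      abs_of_nonneg (by positivity)
    rw [h2]
    exact mul_le_of_le_one_left (by positivity) h1
  rw [← Summable.tsum_finsetSum fun ψ _ => hsum ψ]
  unfold PS
  rw [← tsum_mul_left]
  refine tsum_congr fun v => ?_
  rw [← Finset.sum_mul, orth_point S H v]
  by_cases h : v ∉ S ∧ (Finsupp.single v 1 : Dv K) ∈ H
  · rw [if_pos h, Set.indicator_of_mem (by exact h)]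
  · rw [if_neg h, Set.indicator_of_notMem (by exact h), mul_zero, zero_mul]

/-- The primes in a subgroup of finite index containing a ray: upper bound. -/
theorem density_sub (hz : Z0S K) (S : Finset (Pr K)) (N : ℕ) (H : AddSubgroup (Dv K)) (hH : Pray S N ≤ H)
    [H.FiniteIndex] : ∃ C : ℝ, ∀ s ∈ Set.Ioc (1 : ℝ) 2, PS {v : Pl K | v ∉ S ∧ (Finsupp.single v 1 : Dv K) ∈ H} s ≤
      (1 / H.index : ℝ) * Real.log (1 / (s - 1)) + C := by
  classical
  have := AddSubgroup.finite_quotient_of_finiteIndex (H := H)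
  have := Fintype.ofFinite (Dv K ⧸ H)
  obtain ⟨C₂, hC₂⟩ := log_cmp K
  obtain ⟨C₃, hC₃⟩ := zeta_log K
  have hb : ∀ ψ : AddChar (Dv K ⧸ H) ℂ, ∃ B : ℝ, ∀ s ∈ Set.Ioc (1 : ℝ) 2,
      ∑' v : Pl K, (chI S (chq H ψ) v.asIdeal).re * (Ideal.absNorm v.asIdeal : ℝ) ^ (-s) ≤
        (if ψ = 0 then Real.log (1 / (s - 1)) else 0) + B := by
    intro ψ
    have hn := chq_norm H ψ
    have hh : ∀ a, ‖chI S (chq H ψ) a‖ ≤ 1 := dd_norm_tI _ _ hn
    by_cases h1 : ψ = 0
    · subst h1
      refine ⟨C₂ + C₃, fun s hs => ?_⟩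
      have e1 := (abs_le.1 (hC₂ (chI S (chq H 0)) hh s hs)).2
      obtain ⟨e2, e3⟩ := hC₃ s hs
      have e4 := (abs_le.1 e3).2
      have e5 := (euler (chI S (chq H 0)) hh s hs.1).1
      have e7 : chI S (chq H 0) = tI (SI S) (1 : Pl K → ℂˣ) := by
        unfold chI
        congr 1
      have e8 : ‖Ls (chI S (chq H 0)) s‖ ≤ ∑' a : Ideal (𝓞 K), (Ideal.absNorm a : ℝ) ^ (-s) := by
        rw [e7]
        exact den_trivial (SI S) s hs.1
      have e6 := Real.log_le_log (norm_pos_iff.2 e5) e8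
      rw [if_pos rfl]
      linarith
    · obtain ⟨B, hB⟩ := hz S N (chq H ψ) (fun D hD => chq_ker H ψ (hH hD)) hn (chq_ne H h1)
      refine ⟨C₂ + Real.log B, fun s hs => ?_⟩
      have e1 := (abs_le.1 (hC₂ (chI S (chq H ψ)) hh s hs)).2
      have e5 := (euler (chI S (chq H ψ)) hh s hs.1).1
      have e6 := Real.log_le_log (norm_pos_iff.2 e5) (hB s hs)
      rw [if_neg h1]
      linarith
  choose B hB using hb
  refine ⟨(1 / Nat.card (Dv K ⧸ H) : ℝ) * ∑ ψ, B ψ, fun s hs => ?_⟩
  have hc : (0 : ℝ) < Nat.card (Dv K ⧸ H) := by exact_mod_cast Nat.card_pos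
  have h1 := orth S H s hs.1
  have h2 : (Nat.card (Dv K ⧸ H) : ℝ) * PS {v : Pl K | v ∉ S ∧ (Finsupp.single v 1 : Dv K) ∈ H} s ≤
      Real.log (1 / (s - 1)) + ∑ ψ, B ψ := by
    rw [h1]
    refine (Finset.sum_le_sum fun ψ _ => hB ψ s hs).trans (le_of_eq ?_)
    rw [Finset.sum_add_distrib, Finset.sum_ite_eq' Finset.univ (0 : AddChar (Dv K ⧸ H) ℂ)]
    simp
  have h3 : PS {v : Pl K | v ∉ S ∧ (Finsupp.single v 1 : Dv K) ∈ H} s =
      (1 / Nat.card (Dv K ⧸ H) : ℝ) *
        ((Nat.card (Dv K ⧸ H) : ℝ) * PS {v : Pl K | v ∉ S ∧ (Finsupp.single v 1 : Dv K) ∈ H} s) := by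
    field_simp
  have h4 : H.index = Nat.card (Dv K ⧸ H) := rfl
  rw [h4, h3, ← mul_add]
  exact mul_le_mul_of_nonneg_left h2 (by positivity)

end one

/-- Comparison of leading terms. -/
theorem lead_le {a b C : ℝ} (h : ∀ s ∈ Set.Ioc (1 : ℝ) 2, a * Real.log (1 / (s - 1)) ≤ b * Real.log (1 / (s - 1)) + C) :
    a ≤ b := by
  by_contra hab
  push Not at hab
  have hd : 0 < a - b := by linarith
  set M : ℝ := |C| / (a - b) + 1 with hM
  have hM0 : 0 < M := by positivity
  have h1 : Real.exp (-M) ≤ 1 := Real.exp_le_one_iff.2 (by linarith)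
  have h2 := h (1 + Real.exp (-M)) ⟨by linarith [Real.exp_pos (-M)], by linarith⟩
  have h3 : Real.log (1 / (1 + Real.exp (-M) - 1)) = M := by
    rw [add_sub_cancel_left, one_div, Real.log_inv, Real.log_exp, neg_neg]
  rw [h3] at h2
  have h4 : (a - b) * M = |C| + (a - b) := by
    rw [hM]
    field_simp
  have h5 : (a - b) * M ≤ C := by linarith
  rw [h4] at h5
  linarith [le_abs_self C]

section two

variable {K L : Type} [Field K] [NumberField K] [Field L] [NumberField L] [Algebra K L]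

theorem Nd_single (w : Pr L) (n : ℤ) :
    Nd K L (Finsupp.single w n) = Finsupp.single (below K w) ((w.asIdeal.inertiaDeg (𝓞 K) : ℤ) * n) := by
  unfold Nd
  rw [Finsupp.liftAddHom_apply_single]
  rfl

/-- Completely split primes are norms. -/
theorem split_norm [IsGalois K L] {v : Pl K} (h : Spl K L v) : (Finsupp.single v 1 : Dv K) ∈ (Nd K L).range := by
  obtain ⟨w, hw⟩ := under_exists (L := L) v
  refine ⟨Finsupp.single w 1, ?_⟩
  have hp := v.isPrime
  have hwp := w.isPrime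
  have hl : w.asIdeal.LiesOver v.asIdeal := (BF2_mem v w hw).2
  have h1 : w.asIdeal.inertiaDeg (𝓞 K) = 1 := by
    rw [← Ideal.inertiaDegIn_eq_inertiaDeg v.asIdeal w.asIdeal Gal(L/K)]
    exact h.2
  have h2 : below K w = v := HeightOneSpectrum.ext (congrArg HeightOneSpectrum.asIdeal hw)
  rw [Nd_single, h1, h2]
  simp

/-- The second inequality, for every Galois extension. -/
theorem second_ineq_of (hz : Z0S K) [IsGalois K L] (S : Finset (Pr K)) (N : ℕ) (hp : (Pray S N).FiniteIndex) :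
    (Pray S N ⊔ (Nd K L).range).index ≤ Module.finrank K L := by
  have hle : Pray S N ≤ Pray S N ⊔ (Nd K L).range := le_sup_left
  have hfi : (Pray S N ⊔ (Nd K L).range).FiniteIndex := AddSubgroup.finiteIndex_of_le hle
  obtain ⟨C₁, hC₁⟩ := density_sub hz S N _ hle
  obtain ⟨C₂, hC₂⟩ := density_split K L
  have hfr : (0 : ℝ) < Module.finrank K L := by exact_mod_cast Module.finrank_pos
  have hidx : (0 : ℝ) < (Pray S N ⊔ (Nd K L).range).index := by
    exact_mod_cast Nat.pos_of_ne_zero AddSubgroup.FiniteIndex.index_ne_zero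
  have h1 : (1 / Module.finrank K L : ℝ) ≤ 1 / (Pray S N ⊔ (Nd K L).range).index := by
    refine lead_le (C := C₁ + C₂ + S.card) fun s hs => ?_
    have e1 := hC₁ s hs
    have e2 := (abs_le.1 (hC₂ s hs)).1
    have e3 : PS {v : Pl K | Spl K L v} s ≤
        PS {v : Pl K | v ∉ S ∧ (Finsupp.single v 1 : Dv K) ∈ Pray S N ⊔ (Nd K L).range} s + S.card := by
      refine PS_le S (fun v hv hvS => ?_) hs.1
      refine ⟨hvS, ?_⟩
      exact (le_sup_right : (Nd K L).range ≤ Pray S N ⊔ (Nd K L).range) (split_norm hv)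
    linarith
  have h2 := (one_div_le_one_div hfr hidx).1 h1
  exact_mod_cast h2

end two

end CFTZ
end

-- from Lib.CFT.ZE
section

/-! # CFT, module Z, part E: the prime zeta function (Z4) and the generation of the Galois group by Frobenius elements (Z3)

prime_zeta: the sum of Nv^(-s) over all primes is log (1/(s-1)) + O(1). frob_gen: for L/K abelian the Frobenius elements at the unramified primes outside a
finite set generate the Galois group. -/

open NumberField IsDedekindDomain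

namespace CFTZ

open H55R CFT

/-- Z4. The sum over all primes. -/
theorem prime_zeta (L : Type) [Field L] [NumberField L] : ∃ C : ℝ, ∀ s ∈ Set.Ioc (1 : ℝ) 2,
    |∑' W : Pl L, (Ideal.absNorm W.asIdeal : ℝ) ^ (-s) - Real.log (1 / (s - 1))| ≤ C := by
  obtain ⟨C₂, hC₂⟩ := log_cmp L
  obtain ⟨C₃, hC₃⟩ := zeta_log L
  refine ⟨C₂ + C₃, fun s hs => ?_⟩
  have hn : ∀ v : Pl L, ‖((1 : Pl L → ℂˣ) v : ℂ)‖ = 1 := fun v => by
    rw [Pi.one_apply, Units.val_one, norm_one]
  have hh := dd_norm_tI ⊤ (1 : Pl L → ℂˣ) hn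
  have hval : ∀ a : Ideal (𝓞 L), a ≠ ⊥ → tI ⊤ (1 : Pl L → ℂˣ) a = 1 := by
    intro a ha
    rw [tI_apply ⊤ 1 ha (by rw [← Ideal.one_eq_top]; exact isCoprime_one_right), pv_one_fun,
      Units.val_one]
  have e1 := hC₂ (tI ⊤ (1 : Pl L → ℂˣ)) hh s hs
  have e2 : ∑' v : Pl L, (tI ⊤ (1 : Pl L → ℂˣ) v.asIdeal).re *
      (Ideal.absNorm v.asIdeal : ℝ) ^ (-s) =
      ∑' W : Pl L, (Ideal.absNorm W.asIdeal : ℝ) ^ (-s) := by
    refine tsum_congr fun W => ?_
    rw [hval _ W.ne_bot, Complex.one_re, one_mul]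
  have e3 : Ls (tI ⊤ (1 : Pl L → ℂˣ)) s =
      ((∑' a : Ideal (𝓞 L), (Ideal.absNorm a : ℝ) ^ (-s) : ℝ) : ℂ) := by
    unfold Ls
    rw [Complex.ofReal_tsum]
    refine tsum_congr fun a => ?_
    unfold tm
    rw [Complex.ofReal_cpow (Nat.cast_nonneg _)]
    by_cases ha : a = ⊥
    · subst ha
      have : tI ⊤ (1 : Pl L → ℂˣ) ⊥ = 0 := map_zero _
      rw [this, zero_mul, Ideal.absNorm_bot]
      have hs0 : (-(s : ℂ)) ≠ 0 := by
        rw [neg_ne_zero, Complex.ofReal_ne_zero]
        linarith [hs.1]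
      simp [Complex.zero_cpow hs0]
    · rw [hval a ha, one_mul]
      push_cast
      rfl
  obtain ⟨e4, e5⟩ := hC₃ s hs
  rw [e2, e3, Complex.norm_real, Real.norm_of_nonneg e4.le] at e1
  rw [abs_le] at *
  obtain ⟨a1, a2⟩ := e1
  obtain ⟨b1, b2⟩ := e5
  constructor
  · linarith
  · linarith

theorem PS_univ (K : Type) [Field K] [NumberField K] (s : ℝ) :
    PS (Set.univ : Set (Pl K)) s = ∑' W : Pl K, (Ideal.absNorm W.asIdeal : ℝ) ^ (-s) := by
  unfold PS
  refine tsum_congr fun v => ?_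
  rw [Set.indicator_of_mem (Set.mem_univ v)]

/-- A finite field in which x^q = x for all x has at most q elements. -/
theorem card_le_of_pow (k : Type) [Field k] [Fintype k] {q : ℕ} (hq : 2 ≤ q) (h : ∀ x : k, x ^ q = x) :
    Fintype.card k ≤ q := by
  classical
  have h1 : (Polynomial.X ^ q - Polynomial.X : Polynomial k).natDegree = q :=
    FiniteField.X_pow_card_sub_X_natDegree_eq k (by omega)
  have h0 : (Polynomial.X ^ q - Polynomial.X : Polynomial k) ≠ 0 := FiniteField.X_pow_card_sub_X_ne_zero k (by omega)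
  rw [← h1, ← Finset.card_univ]
  refine Polynomial.card_le_degree_of_subset_roots fun x _ => ?_
  rw [Polynomial.mem_roots h0, Polynomial.IsRoot.def]
  simp [h x]

section tower

variable {K : Type} [Field K] [NumberField K] {E : Type} [Field E] [NumberField E] {L : Type} [Field L] [NumberField L]
  [Algebra K E] [Algebra K L] [Algebra E L] [IsScalarTower K E L]

/-- If the Frobenius element acts trivially on E then v has degree one primes in E. -/
theorem deg_one [IsGalois K E] {v : Pl K} {s : L ≃ₐ[K] L} (hs : IsFr K L v s)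
    (hE : ∀ x : E, s (algebraMap E L x) = algebraMap E L x) : fs K E v = 1 := by
  obtain ⟨w, hw⟩ := under_exists (L := E) v
  obtain ⟨W, hW⟩ := under_exists (L := L) w
  have hWv : below K W = v := by
    apply HeightOneSpectrum.ext
    rw [← hw, ← hW]
    exact (Ideal.under_under W.asIdeal).symm
  have hq : 2 ≤ Nm v := dd_two_le v
  have h1 : ∀ x : 𝓞 E, x ^ Nm v - x ∈ w.asIdeal := by
    intro x
    have h2 := hs W hWv (algebraMap (𝓞 E) (𝓞 L) x)
    have h3 : s • (algebraMap (𝓞 E) (𝓞 L) x) = algebraMap (𝓞 E) (𝓞 L) x := by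
      apply RingOfIntegers.ext
      exact hE (x : E)
    rw [h3, ← map_pow, ← map_sub] at h2
    have h4 : w.asIdeal = W.asIdeal.under (𝓞 E) := (congrArg HeightOneSpectrum.asIdeal hW).symm
    rw [h4, Ideal.under_def, Ideal.mem_comap, ← neg_sub, map_neg]
    exact neg_mem h2
  have hm := w.isMaximal
  let _ : Field (𝓞 E ⧸ w.asIdeal) := Ideal.Quotient.field w.asIdeal
  have hfin : Finite (𝓞 E ⧸ w.asIdeal) := Ideal.finiteQuotientOfFreeOfNeBot w.asIdeal w.ne_bot
  let _ : Fintype (𝓞 E ⧸ w.asIdeal) := Fintype.ofFinite _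
  have h5 : Fintype.card (𝓞 E ⧸ w.asIdeal) ≤ Nm v := by
    refine card_le_of_pow _ hq fun x => ?_
    obtain ⟨y, rfl⟩ := Ideal.Quotient.mk_surjective x
    rw [← map_pow]
    exact Ideal.Quotient.eq.2 (h1 y)
  have h6 : Ideal.absNorm w.asIdeal ≤ Nm v := by
    rw [Ideal.absNorm_apply, Submodule.cardQuot_apply, Nat.card_eq_fintype_card]
    exact h5
  rw [D5_norm v w hw] at h6
  have h7 := fs_pos (K := K) (L := E) v
  by_contra hne
  have h8 : 2 ≤ fs K E v := by omega
  have h9 : Nm v < Ideal.absNorm v.asIdeal ^ fs K E v := by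
    calc Nm v = Nm v ^ 1 := (pow_one _).symm
      _ < Nm v ^ fs K E v := Nat.pow_lt_pow_right (by omega) (by omega)
  omega

end tower

/-- A Galois extension in which almost all primes split completely is trivial. -/
theorem triv_of_split {K E : Type} [Field K] [NumberField K] [Field E] [NumberField E] [Algebra K E] [IsGalois K E]
    (F : Finset (Pl K)) (h : ∀ v ∉ F, Spl K E v) : Module.finrank K E = 1 := by
  obtain ⟨C₁, hC₁⟩ := density_split K E
  obtain ⟨C₂, hC₂⟩ := prime_zeta K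
  have hfr : (0 : ℝ) < Module.finrank K E := by exact_mod_cast Module.finrank_pos
  have h1 : (1 : ℝ) ≤ 1 / Module.finrank K E := by
    refine lead_le (C := C₁ + C₂ + F.card) fun s hs => ?_
    have e1 := (abs_le.1 (hC₁ s hs)).2
    have e2 := (abs_le.1 (hC₂ s hs)).1
    have e3 : PS (Set.univ : Set (Pl K)) s ≤ PS {v : Pl K | Spl K E v} s + F.card :=
      PS_le F (fun v _ hv => h v hv) hs.1
    rw [PS_univ] at e3
    linarith
  rw [le_div_iff₀ hfr, one_mul] at h1
  have h2 : Module.finrank K E ≤ 1 := by exact_mod_cast h1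
  have h3 : 0 < Module.finrank K E := Module.finrank_pos
  omega

theorem unr_of_es {K L : Type} [Field K] [NumberField K] [Field L] [NumberField L] [Algebra K L] [IsGalois K L]
    {v : Pl K} (h : es K L v = 1) : Unr K L v := by
  intro w hw
  have hp := v.isPrime
  have hwp := w.isPrime
  have hl : w.asIdeal.LiesOver v.asIdeal := (BF2_mem v w hw).2
  rw [← Ideal.ramificationIdxIn_eq_ramificationIdx v.asIdeal w.asIdeal Gal(L/K)]
  exact h

/-- Z3. The Frobenius elements outside a finite set generate the group (abelian extension). -/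
theorem frob_gen (K : Type) [Field K] [NumberField K] (L : Type) [Field L] [NumberField L] [Algebra K L]
    [IsGalois K L] (hab : ∀ a b : L ≃ₐ[K] L, a * b = b * a) (S : Finset (Pr K)) :
    Subgroup.closure {s : L ≃ₐ[K] L | ∃ v : Pr K, v ∉ S ∧ Unr K L v ∧ frob K L v = s} = ⊤ := by
  classical
  set H := Subgroup.closure {s : L ≃ₐ[K] L | ∃ v : Pr K, v ∉ S ∧ Unr K L v ∧ frob K L v = s} with hH
  let E : IntermediateField K L := IntermediateField.fixedField H
  have hN : H.Normal := ⟨fun a ha g => by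
    rw [hab g a, mul_assoc, mul_inv_cancel, mul_one]
    exact ha⟩
  have hE : IsGalois K E := IsGalois.of_fixedField_normal_subgroup H
  have hnE : NumberField E := inferInstance
  have h1 : Module.finrank K E = 1 := by
    refine triv_of_split (S ∪ (ram_finite K L).toFinset ∪ (ram_finite K E).toFinset) fun v hv => ?_
    rw [Finset.mem_union, Finset.mem_union, not_or, not_or, Set.Finite.mem_toFinset, Set.Finite.mem_toFinset,
      Set.mem_ofPred_eq, Set.mem_ofPred_eq, not_not, not_not] at hv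
    obtain ⟨⟨hvS, h2⟩, h3⟩ := hv
    refine ⟨h3, ?_⟩
    have h4 := unr_of_es h2
    refine deg_one (L := L) (frob_spec hab h4) fun x => ?_
    have h5 : frob K L v ∈ H := Subgroup.subset_closure ⟨v, hvS, h4, rfl⟩
    exact x.2 ⟨_, h5⟩
  have h2 : E = ⊥ := IntermediateField.finrank_eq_one_iff.1 h1
  have h3 : IntermediateField.fixingSubgroup E = H := IntermediateField.fixingSubgroup_fixedField H
  rw [← h3, h2]
  exact IntermediateField.fixingSubgroup_bot
end CFTZ
end

-- from Lib.CFT.YMod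
section

/-! # CFT, module Y: the modulus of the ray Ray S N (definition) -/

open NumberField IsDedekindDomain

namespace CFTY

open CFT

variable {K : Type} [Field K] [NumberField K]

/-- the product of the v^(N+1), v in S -/
noncomputable def mI (S : Finset (Pr K)) (N : ℕ) : Ideal (𝓞 K) := ∏ v ∈ S, v.asIdeal ^ (N + 1)

theorem mI_ne (S : Finset (Pr K)) (N : ℕ) : mI S N ≠ ⊥ := by
  unfold mI
  exact Finset.prod_ne_zero_iff.2 fun v _ => pow_ne_zero _ v.ne_bot

end CFTY
end

-- from Lib.CFT.Y25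
section

/-! # CFT module Y, chunk Y25: the modulus -/

open NumberField IsDedekindDomain

namespace CFTY

open CFT

variable {K : Type} [Field K] [NumberField K]

theorem y25_max (v : Pr K) (a : Ideal (𝓞 K)) : IsCoprime a v.asIdeal ↔ ¬ a ≤ v.asIdeal := by
  have hv : v.asIdeal.IsMaximal := v.isMaximal
  rw [Ideal.isCoprime_iff_sup_eq]
  constructor
  · intro h h1
    rw [sup_eq_right.2 h1] at h
    exact hv.ne_top h
  · intro h
    by_contra hcon
    exact h (le_sup_left.trans (hv.eq_of_le hcon le_sup_right).ge)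

/-- PROOF. `IsCoprime.prod_right_iff`, `IsCoprime.pow_right_iff`; for a maximal ideal `v`: `IsCoprime a v ↔ ¬ a ≤ v`. -/
theorem cop_mI (S : Finset (Pr K)) (N : ℕ) (a : Ideal (𝓞 K)) : IsCoprime a (mI S N) ↔ ∀ v ∈ S, ¬ a ≤ v.asIdeal := by
  unfold mI
  rw [IsCoprime.prod_right_iff]
  refine forall₂_congr fun v _ => ?_
  rw [IsCoprime.pow_right_iff (Nat.succ_pos N), y25_max]

/-- the same for the product `SI S` -/
theorem cop_SI (S : Finset (Pr K)) (a : Ideal (𝓞 K)) : IsCoprime a (CFTZ.SI S) ↔ ∀ v ∈ S, ¬ a ≤ v.asIdeal := by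
  unfold CFTZ.SI
  rw [IsCoprime.prod_right_iff]
  exact forall₂_congr fun v _ => y25_max v a

/-- PROOF. The `v^(N+1)` are pairwise coprime, so their product is their intersection. -/
theorem mem_mI (S : Finset (Pr K)) (N : ℕ) (x : 𝓞 K) : x ∈ mI S N ↔ ∀ v ∈ S, x ∈ v.asIdeal ^ (N + 1) := by
  classical
  induction S using Finset.induction_on with
  | empty => simp [mI]
  | insert v S hv ih =>
    have hcop : IsCoprime (v.asIdeal ^ (N + 1)) (mI S N) := by
      refine IsCoprime.pow_left ?_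
      rw [cop_mI]
      intro w hw hle
      have hvm : v.asIdeal.IsMaximal := v.isMaximal
      have : v.asIdeal = w.asIdeal := hvm.eq_of_le w.isPrime.ne_top hle
      exact hv (HeightOneSpectrum.ext this ▸ hw)
    have e : mI (insert v S) N = v.asIdeal ^ (N + 1) * mI S N := by
      unfold mI
      rw [Finset.prod_insert hv]
    rw [e, Ideal.mul_eq_inf_of_coprime (Ideal.isCoprime_iff_sup_eq.1 hcop), Ideal.mem_inf, ih]
    simp

/-- PROOF. `mem_mI`; `x ∈ v^(N+1)` iff `v.valuation K x ≤ exp (-(N+1))` (`HeightOneSpectrum.intValuation_le_pow_iff_mem`, `valuation_of_algebraMap`) iff `< exp (-N)`. -/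
theorem ray_iff (S : Finset (Pr K)) (N : ℕ) (x : 𝓞 K) : (x - 1 ∈ mI S N ∧ TP (x : K)) ↔ Ray S N (x : K) := by
  have key : ∀ v : Pr K, x - 1 ∈ v.asIdeal ^ (N + 1) ↔
      v.valuation K ((x : K) - 1) < WithZero.exp (-(N : ℤ)) := by
    intro v
    have e : ((x : K) - 1) = ((x - 1 : 𝓞 K) : K) := rfl
    rw [e]
    by_cases h0 : x - 1 = 0
    · rw [h0]
      refine ⟨fun _ => ?_, fun _ => Ideal.zero_mem _⟩
      have e0 : ((0 : 𝓞 K) : K) = 0 := map_zero _
      rw [e0, map_zero]
      exact WithZero.zero_lt_coe _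
    · have h1 := od_le_iff v h0 (N + 1)
      rw [← h1, val_lt_iff v (fun h => h0 (RingOfIntegers.coe_eq_zero_iff.1 h))]
      push_cast
      omega
  rw [mem_mI]
  constructor
  · rintro ⟨h1, h2, h3⟩
    exact ⟨h2, fun v hv => (key v).1 (h1 v hv), h3⟩
  · rintro ⟨h1, h2, h3⟩
    exact ⟨fun v hv => (key v).2 (h2 v hv), h1, h3⟩

end CFTY
end

-- from Lib.CFT.Y26
section

/-! # CFT module Y, chunk Y26: principal ideals of the ray and Pray -/

open NumberField IsDedekindDomain

namespace CFTY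

open CFT

variable {K : Type} [Field K] [NumberField K]

/-- PROOF. `v ∣ idl D ↔ 1 ≤ D v` (`le_idl_iff` with `n = 1`), `cop_mI`, `Ideal.dvd_iff_le`. -/
theorem cop_idl {S : Finset (Pr K)} (N : ℕ) {D : Dv K} (hD : ∀ v, 0 ≤ D v) :
    IsCoprime (idl D) (mI S N) ↔ ∀ v ∈ S, D v = 0 := by
  rw [cop_mI]
  refine forall₂_congr fun v _ => ?_
  have h1 := le_idl_iff hD v 1
  rw [pow_one, Ideal.dvd_iff_le] at h1
  rw [h1]
  have h2 := hD v
  constructor
  · intro h
    push_cast at h
    omega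
  · intro h
    push_cast
    omega

/-- PROOF. Left to right: `idl D = span {x} = idl (dv x)` (`idl_dv`), so `D = dv x` (`idl_inj`, `od_nonneg`), `ray_iff`, `dv_mem_Pray`. Right to left: `x` with `Ray S N x`, `D v = od v x` outside
`S`; in `S`: `od v x = 0 = D v` (`Ray.od_eq`). So all `od v x ≥ 0`, `x` is integral (`int_of_od`), `D = dv x`, `idl D = span {x}` (`idl_dv`), `ray_iff`. -/
theorem prI_idl {S : Finset (Pr K)} {N : ℕ} {D : Dv K} (hD : ∀ v, 0 ≤ D v) (hS : ∀ v ∈ S, D v = 0) :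
    PrI (mI S N) (idl D) ↔ D ∈ Pray S N := by
  constructor
  · rintro ⟨x, hx, hpos, h⟩
    have hR := (ray_iff S N x).1 ⟨hx, hpos⟩
    have hx0 : x ≠ 0 := by
      rintro rfl
      exact hR.ne rfl
    have h1 : idl D = idl (dv (x : K)) := by rw [h, idl_dv hx0]
    have h2 : D = dv (x : K) := idl_inj hD (fun v => od_nonneg v x) h1
    rw [h2]
    exact dv_mem_Pray hR
  · rintro ⟨x, hx, h⟩
    have h1 : D = dv x := by
      ext v
      by_cases hv : v ∈ S
      · rw [hS v hv, dv_apply, hx.od_eq hv]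
      · rw [h v hv, dv_apply]
    obtain ⟨r, rfl⟩ := int_of_od (x := x) fun v => by
      rw [← dv_apply, ← h1]
      exact hD v
    have hr0 : r ≠ 0 := by
      rintro rfl
      exact hx.ne rfl
    obtain ⟨h2, h3⟩ := (ray_iff S N r).2 hx
    exact ⟨r, h2, h3, by rw [h1, idl_dv hr0]⟩

end CFTY
end

-- from Lib.CFT.Y27
section

/-! # CFT module Y, chunk Y27: representatives of the ray classes -/

open NumberField IsDedekindDomain

namespace CFTY

open CFT

variable {K : Type} [Field K] [NumberField K]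

/-- divisors which are nonnegative and vanish on S -/
def y27P (S : Finset (Pr K)) (D : Dv K) : Prop := (∀ v, 0 ≤ D v) ∧ ∀ v ∈ S, D v = 0

theorem y27P_add {S : Finset (Pr K)} {D E : Dv K} (hD : y27P S D) (hE : y27P S E) : y27P S (D + E) :=
  ⟨fun v => by rw [Finsupp.add_apply]; exact add_nonneg (hD.1 v) (hE.1 v),
    fun v hv => by rw [Finsupp.add_apply, hD.2 v hv, hE.2 v hv, add_zero]⟩

theorem y27P_nsmul {S : Finset (Pr K)} {D : Dv K} (hD : y27P S D) (n : ℕ) : y27P S (n • D) :=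
  ⟨fun v => by rw [Finsupp.smul_apply]; exact nsmul_nonneg (hD.1 v) n,
    fun v hv => by rw [Finsupp.smul_apply, hD.2 v hv, smul_zero]⟩

theorem exists_reps (S : Finset (Pr K)) (N : ℕ) (hf : (Pray S N).FiniteIndex) : ∃ T : Finset (Ideal (𝓞 K)), Reps (mI S N) T := by
  classical
  haveI : Finite (Dv K ⧸ Pray S N) := AddSubgroup.finite_quotient_of_finiteIndex
  haveI : Fintype (Dv K ⧸ Pray S N) := Fintype.ofFinite _
  set n : ℕ := Nat.card (Dv K ⧸ Pray S N) with hn
  have hn1 : 1 ≤ n := Nat.card_pos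
  have hnq : ∀ q : Dv K ⧸ Pray S N, n • q = 0 := fun q => card_nsmul_eq_zero'
  -- the representatives
  have hex : ∀ q : Dv K ⧸ Pray S N, ∃ D : Dv K, y27P S D ∧
      ((∃ D' : Dv K, y27P S D' ∧ (QuotientAddGroup.mk D' : Dv K ⧸ Pray S N) = q) →
        (QuotientAddGroup.mk D : Dv K ⧸ Pray S N) = q) := by
    intro q
    by_cases h : ∃ D' : Dv K, y27P S D' ∧ (QuotientAddGroup.mk D' : Dv K ⧸ Pray S N) = q
    · obtain ⟨D', h1, h2⟩ := h
      exact ⟨D', h1, fun _ => h2⟩
    · exact ⟨0, ⟨fun v => le_rfl, fun v _ => rfl⟩, fun h' => absurd h' h⟩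
  choose Dq hP hq using hex
  set Q : Finset (Dv K ⧸ Pray S N) := Finset.univ.filter fun q =>
    ∃ D' : Dv K, y27P S D' ∧ (QuotientAddGroup.mk D' : Dv K ⧸ Pray S N) = q with hQ
  have hmem : ∀ q ∈ Q, (QuotientAddGroup.mk (Dq q) : Dv K ⧸ Pray S N) = q := fun q h =>
    hq q (Finset.mem_filter.1 h).2
  -- the key equivalence
  have key : ∀ D : Dv K, y27P S D → ∀ q ∈ Q, (PrI (mI S N) (idl D * idl ((n - 1) • Dq q)) ↔
      q = (QuotientAddGroup.mk D : Dv K ⧸ Pray S N)) := by
    intro D hD q hqQ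
    have h2 := y27P_nsmul (hP q) (n - 1)
    have h3 := y27P_add hD h2
    rw [← idl_add hD.1 h2.1, prI_idl h3.1 h3.2, ← QuotientAddGroup.eq_zero_iff]
    have e : (QuotientAddGroup.mk (D + (n - 1) • Dq q) : Dv K ⧸ Pray S N) =
        QuotientAddGroup.mk D + (n - 1) • q := by
      rw [QuotientAddGroup.mk_add, QuotientAddGroup.mk_nsmul, hmem q hqQ]
    have e2 : (n - 1) • q = -q := by
      have h4 : (n - 1) • q + q = 0 := by
        rw [← succ_nsmul, Nat.sub_add_cancel hn1, hnq]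
      exact eq_neg_of_add_eq_zero_left h4
    have e3 : ((D + (n - 1) • Dq q : Dv K) : Dv K ⧸ Pray S N) = QuotientAddGroup.mk D - q := by
      rw [sub_eq_add_neg, ← e2]
      exact e
    rw [e3, sub_eq_zero, eq_comm]
  refine ⟨Q.image fun q => idl ((n - 1) • Dq q), ?_, ?_⟩
  · intro c hc
    obtain ⟨q, -, rfl⟩ := Finset.mem_image.1 hc
    have h2 := y27P_nsmul (hP q) (n - 1)
    exact ⟨idl_ne_zero _, (cop_idl N h2.1).2 h2.2⟩
  · intro a ha hc
    obtain ⟨D, hD, rfl⟩ := exists_idl ha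
    have hD2 : y27P S D := ⟨hD, (cop_idl N hD).1 hc⟩
    have hqQ : (QuotientAddGroup.mk D : Dv K ⧸ Pray S N) ∈ Q :=
      Finset.mem_filter.2 ⟨Finset.mem_univ _, D, hD2, rfl⟩
    refine ⟨idl ((n - 1) • Dq (QuotientAddGroup.mk D)), ⟨Finset.mem_image.2 ⟨_, hqQ, rfl⟩, (key D hD2 _ hqQ).2 rfl⟩, ?_⟩
    rintro c ⟨hcT, hcP⟩
    obtain ⟨q, hq', rfl⟩ := Finset.mem_image.1 hcT
    rw [(key D hD2 q hq').1 hcP]

end CFTY
end

-- from Lib.CFT.Y27B
section

/-! # CFT module Y, chunk Y27B: change of the modulus -/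

open NumberField IsDedekindDomain

namespace CFTY

open CFT

variable {K : Type} [Field K] [NumberField K]

/-- PROOF. `S` = the primes containing `m` (finite), `N` large: `v^(N+1)` divides `m` at most.. i.e. `m ∣ mI S N`, `mI S N ≤ m`; both have the same prime divisors.
(`m = ∏ v^(count)`, `Ideal.finprod_heightOneSpectrum_factorization`, or `exists_idl` and `le_idl_iff`.) -/
theorem exists_mI {m : Ideal (𝓞 K)} (hm : m ≠ ⊥) : ∃ (S : Finset (Pr K)) (N : ℕ), mI S N ≤ m ∧ ∀ a : Ideal (𝓞 K),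
    IsCoprime a m ↔ IsCoprime a (mI S N) := by
  classical
  obtain ⟨D, hD, rfl⟩ := exists_idl (K := K) hm
  have hle : ∀ v ∈ D.support, (D v).toNat ≤ D.support.sup fun v => (D v).toNat := fun v hv =>
    Finset.le_sup (f := fun v => (D v).toNat) hv
  have hpos : ∀ v ∈ D.support, 0 < (D v).toNat := by
    intro v hv
    have h1 := Finsupp.mem_support_iff.1 hv
    have h2 := hD v
    omega
  refine ⟨D.support, D.support.sup fun v => (D v).toNat, ?_, fun a => ?_⟩
  · apply Ideal.le_of_dvd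
    unfold idl mI Finsupp.prod
    exact Finset.prod_dvd_prod_of_dvd _ _ fun v hv => pow_dvd_pow _ ((hle v hv).trans (Nat.le_succ _))
  · unfold idl mI Finsupp.prod
    rw [IsCoprime.prod_right_iff, IsCoprime.prod_right_iff]
    refine forall₂_congr fun v hv => ?_
    rw [IsCoprime.pow_right_iff (hpos v hv), IsCoprime.pow_right_iff (Nat.succ_pos _)]

/-- PROOF. Immediate. -/
theorem HCh.mono {m m' : Ideal (𝓞 K)} {ψ : K → ℂ} {χ : Ideal (𝓞 K) →*₀ ℂ} (h : HCh m ψ χ) (h1 : m' ≤ m)
    (h2 : ∀ a : Ideal (𝓞 K), IsCoprime a m ↔ IsCoprime a m') : HCh m' ψ χ := by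
  exact ⟨fun a ha => h.zero a fun hc => ha ((h2 a).1 hc), fun a ha hc => h.norm a ha ((h2 a).2 hc),
    fun x hx hp => h.ray x (h1 hx) hp⟩

end CFTY
end

-- from Lib.CFT.Y28
section

/-! # CFT module Y, chunk Y28: characters of the group of divisors -/

open NumberField IsDedekindDomain

namespace CFTY

open CFT

variable {K : Type} [Field K] [NumberField K]

/-- PROOF. `chI S χ (idl D) = pv (cphi χ) (idl D)` (`H55R.tI_apply`, `cop_SI`); `pv` is multiplicative (`pv_mul`, `pv_prime`); `CFTZ.chi_apply`. (Induction on `D` or product over the support.) -/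
theorem chI_idl {S : Finset (Pr K)} (χ : Dv K →+ Additive ℂˣ) {D : Dv K} (hD : ∀ v, 0 ≤ D v) (hS : ∀ v ∈ S, D v = 0) :
    CFTZ.chI S χ (idl D) = (((χ D).toMul : ℂˣ) : ℂ) := by
  have h1 : CFTZ.chI S χ (idl D) = D.prod fun v n => CFTZ.chI S χ v.asIdeal ^ n.toNat := by
    unfold idl
    rw [map_finsuppProd]
    exact Finsupp.prod_congr fun v _ => map_pow _ _ _
  rw [h1, CFTZ.chi_apply, Finsupp.prod, Finsupp.prod, Units.coe_prod]
  refine Finset.prod_congr rfl fun v hv => ?_
  have hvS : v ∉ S := fun h => (Finsupp.mem_support_iff.1 hv) (hS v h)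
  rw [CFTZ.chI_prime S χ hvS]
  have h2 : (CFTZ.cphi χ v ^ D v : ℂˣ) = CFTZ.cphi χ v ^ (D v).toNat := by
    rw [← zpow_natCast, Int.toNat_of_nonneg (hD v)]
  rw [h2, Units.val_pow_eq_pow_val]

/-- PROOF. `zero`: `cop_mI`, `cop_SI`, `H55R.tI_zero`. `norm`: `CFTZ.dd_norm_pv`. `ray`: `ray_iff`, `chI_idl` with `D = dv x` (`idl_dv`, `Ray.od_eq`). -/
theorem hch_of {S : Finset (Pr K)} {N : ℕ} {ψ : K → ℂ} (χ : Dv K →+ Additive ℂˣ) (hn : ∀ v, ‖(CFTZ.cphi χ v : ℂ)‖ = 1)
    (hχ : ∀ x : K, Ray S N x → (((χ (dv x)).toMul : ℂˣ) : ℂ) = ψ x) : HCh (mI S N) ψ (CFTZ.chI S χ) := by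
  refine ⟨fun a ha => ?_, fun a ha hc => ?_, fun x hx hp => ?_⟩
  · unfold CFTZ.chI
    refine H55R.tI_zero _ _ fun h => ha ?_
    rw [cop_mI]
    exact (cop_SI S a).1 h
  · have hc' : IsCoprime a (CFTZ.SI S) := (cop_SI S a).2 ((cop_mI S N a).1 hc)
    unfold CFTZ.chI
    rw [H55R.tI_apply _ _ ha hc']
    exact CFTZ.dd_norm_pv _ hn a
  · have hr : Ray S N (x : K) := (ray_iff S N x).1 ⟨hx, hp⟩
    have hx0 : x ≠ 0 := by
      rintro rfl
      exact hr.ne (map_zero _)
    rw [← idl_dv hx0, chI_idl χ (D := dv (x : K)) (fun v => od_nonneg v x) (fun v hv => ?_)]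
    · exact hχ _ hr
    · rw [dv_apply]
      unfold od
      rw [hr.unit hv, WithZero.log_one, neg_zero]

end CFTY
end

-- from Lib.H86N.A4
section

/-!
# A4: existence of frames
-/

set_option autoImplicit false
set_option linter.unusedSectionVars false
namespace Pool.Agent.H86N
open Module Pool.Agent.H53Toric Polynomial Pool.Agent.H49M

variable {K : Type*} [Field K] {V : Type*} [AddCommGroup V] [Module K V]

variable {L : Submodule K (Module.End K V)}

theorem A4_ext_aux [IsAlgClosed K] [CharZero K] [FiniteDimensional K V] [Nontrivial V]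
    {g : Submodule K (Module.End K V)} (hg : IsLie g) (hirr : Irr g)
    (htr : ∀ X ∈ g, LinearMap.trace K V X = 0) (n : ℕ) :
    ∀ N ∈ g, N * N = 0 → finrank K (LinearMap.range N) = n → N ≠ 0 →
    ∃ N' ∈ g, N' * N' = 0 ∧ N' ≠ 0 ∧ finrank K (LinearMap.range N') ≤ n ∧
      ∀ X ∈ g, ∃ c : K, N' * X * N' = c • N' := by
  induction n using Nat.strong_induction_on with
  | _ n ih =>
  intro N hN hN2 hrk hN0
  obtain ⟨M, hM, hNMN⟩ := exists_partner hg hirr htr hN hN2
  have hee : (N * M) * (N * M) = N * M := by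
    calc (N * M) * (N * M) = (N * M * N) * M := by noncomm_ring
      _ = N * M := by rw [hNMN]
  have heJ : N * M ∈ JJ g N (N * M) := ⟨hee, hee, by rw [hNMN]; exact hN⟩
  have he0 : N * M ≠ 0 := by
    intro h
    rw [h, zero_mul] at hNMN
    exact hN0 hNMN.symm
  have hrkN : finrank K (LinearMap.range (N * M)) = n := by
    rw [← hrk]
    exact rank_eq_of_dvd (a := N * M) (b := N) rfl hNMN.symm
  by_cases hf : ∃ f ∈ JJ g N (N * M), f * f = f ∧ f ≠ 0 ∧ f ≠ N * M
  · obtain ⟨f, hfJ, hff, hf0, hfe⟩ := hf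
    -- both parts
    have hpart : ∀ f ∈ JJ g N (N * M), f * f = f →
        (f * N) * (f * N) = 0 ∧ (finrank K (LinearMap.range (f * N)) : K) =
          LinearMap.trace K V f := by
      intro f hfJ hff
      refine ⟨?_, ?_⟩
      · calc (f * N) * (f * N) = f * (N * f) * N := by noncomm_ring
          _ = 0 := by rw [JJ_N_mul hN2 hfJ, mul_zero, zero_mul]
      · rw [trace_idem hff]
        congr 1
        apply rank_eq_of_dvd (c := N) (d := M) rfl
        rw [mul_assoc, hfJ.2.1]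
    have hf'J : N * M - f ∈ JJ g N (N * M) := (JJ g N (N * M)).sub_mem heJ hfJ
    have hff' : (N * M - f) * (N * M - f) = N * M - f := by
      have : (N * M - f) * (N * M - f) = (N * M) * (N * M) - (N * M) * f - f * (N * M) + f * f := by
        noncomm_ring
      rw [this, hee, hfJ.1, hfJ.2.1, hff]
      abel
    obtain ⟨h1, h2⟩ := hpart f hfJ hff
    obtain ⟨h3, h4⟩ := hpart _ hf'J hff'
    have hsum : (finrank K (LinearMap.range (f * N)) : K) +
        (finrank K (LinearMap.range ((N * M - f) * N)) : K) = (n : K) := by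
      rw [h2, h4, ← map_add, add_sub_cancel, trace_idem hee, hrkN]
    have hsum' : finrank K (LinearMap.range (f * N)) +
        finrank K (LinearMap.range ((N * M - f) * N)) = n := by
      exact_mod_cast hsum
    have hne : ∀ f ∈ JJ g N (N * M), f ≠ 0 → 0 < finrank K (LinearMap.range (f * N)) := by
      intro f hfJ hf0
      rw [Nat.pos_iff_ne_zero]
      intro h
      have h0 := LinearMap.range_eq_bot.1 (Submodule.finrank_eq_zero.1 h)
      apply hf0
      rw [← hfJ.2.1, ← mul_assoc, h0, zero_mul]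
    have hp1 := hne f hfJ hf0
    have hp2 := hne _ hf'J (by
      intro h
      exact hfe (sub_eq_zero.1 h).symm)
    have hfN : f * N ≠ 0 := by
      intro h0
      rw [h0, LinearMap.range_zero, finrank_bot] at hp1
      exact lt_irrefl 0 hp1
    obtain ⟨N', a1, a2, a3, a4, a5⟩ := ih _ (by omega) _ hfJ.2.2 h1 rfl hfN
    exact ⟨N', a1, a2, a3, a4.trans (by omega), a5⟩
  · -- extremal case
    refine ⟨N, hN, hN2, hN0, hrk.le, ?_⟩
    have hall : ∀ a ∈ JJ g N (N * M), ∃ t : K, IsNilpotent (a - t • (N * M)) := by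
      intro a ha
      -- an eigenvalue on the range of e
      let W : Submodule K V := LinearMap.range (N * M)
      have hW : W ≠ ⊥ := by
        intro h
        exact he0 (LinearMap.range_eq_bot.1 h)
      have haW : ∀ x ∈ W, a x ∈ W := by
        intro x _
        refine ⟨a x, ?_⟩
        change (N * M * a) x = a x
        rw [ha.1]
      have : Nontrivial W := Submodule.nontrivial_iff_ne_bot.2 hW
      obtain ⟨t, ht⟩ := Module.End.exists_eigenvalue (a.restrict haW)
      obtain ⟨u, hu⟩ := ht.exists_hasEigenvector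
      have hu1 : a u.1 = t • u.1 := by
        have := hu.apply_eq_smul
        exact congrArg Subtype.val this
      have hu0 : u.1 ≠ 0 := by
        intro h
        exact hu.2 (Subtype.ext h)
      have heu : (N * M) u.1 = u.1 := by
        obtain ⟨v, hv⟩ := u.2
        rw [← hv]
        change (N * M * (N * M)) v = (N * M) v
        rw [hee]
      refine ⟨t, ?_⟩
      by_contra hnn
      have hb : a - t • (N * M) ∈ JJ g N (N * M) :=
        (JJ g N (N * M)).sub_mem ha ((JJ g N (N * M)).smul_mem t heJ)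
      set b := a - t • (N * M) with hbdef
      have hbu : b u.1 = 0 := by
        rw [hbdef, LinearMap.sub_apply, LinearMap.smul_apply, heu, hu1, sub_self]
      obtain ⟨p, k, hp1, hp2⟩ := fitting b
      apply hf
      refine ⟨aeval b (X * p), JJ_aeval hg hM hN2 hb p, hp1, ?_, ?_⟩
      · intro h
        apply hnn
        refine ⟨k, ?_⟩
        rw [← hp2, h, mul_zero]
      · intro h
        have h1 : (aeval b (X * p)) u.1 = 0 := by
          rw [mul_comm, map_mul, aeval_X]
          change (aeval b p) (b u.1) = 0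
          rw [hbu, map_zero]
        rw [h, heu] at h1
        exact hu0 h1
    intro X hX
    obtain ⟨t, ht⟩ := JJ_scalar hirr htr hN0 hg hN hM hN2 hNMN hall _
      (JJ_of_mem hg hN hN2 hNMN hX)
    refine ⟨t, ?_⟩
    calc N * X * N = N * X * (N * M * N) := by rw [hNMN]
      _ = (N * X * N * M) * N := by noncomm_ring
      _ = t • N := by rw [ht, smul_mul_assoc, hNMN]

/-- Chunk A4. Reduction to an extremal element, not increasing the rank. Copy the proof of
`exists_extremal` (H53Toric.Core2), dropping the parity: strong induction on the rank; in the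
first case one of the two nonzero parts `f N`, `(e - f) N` has smaller rank (both ranks are
positive and add up to the rank of `N`). -/
theorem A4_extremal [IsAlgClosed K] [CharZero K] [FiniteDimensional K V] [Nontrivial V]
    {g : Submodule K (Module.End K V)} (hg : IsLie g) (hirr : Irr g)
    (htr : ∀ X ∈ g, LinearMap.trace K V X = 0) {N : Module.End K V} (hN : N ∈ g)
    (hN2 : N * N = 0) (hN0 : N ≠ 0) :
    ∃ N' ∈ g, N' * N' = 0 ∧ N' ≠ 0 ∧
      finrank K (LinearMap.range N') ≤ finrank K (LinearMap.range N) ∧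
      ∀ X ∈ g, ∃ c : K, N' * X * N' = c • N' := by
  exact A4_ext_aux hg hirr htr _ N hN hN2 rfl hN0

theorem A4_frame_aux [IsAlgClosed K] [CharZero K] [FiniteDimensional K V] [Nontrivial V]
    {g : Submodule K (Module.End K V)} (h : SetupN g) {N : Module.End K V}
    (hN : N ∈ g) (hN2 : N * N = 0) (hN0 : N ≠ 0)
    (hext : ∀ X ∈ g, ∃ c : K, N * X * N = c • N) :
    ∃ y N' M : Module.End K V, y ∈ g ∧ y * y = 1 ∧ N' ∈ g ∧ M ∈ g ∧ y * N' = N' ∧ N' * y = -N' ∧
      y * M = -M ∧ M * y = M ∧ N' * N' = 0 ∧ M * M = 0 ∧ N' * M * N' = N' ∧ M * N' * M = M ∧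
      finrank K (LinearMap.range N') = finrank K (LinearMap.range N) ∧
      (∀ X ∈ g, ∃ c : K, N' * X * N' = c • N') := by
  -- an involution which does not commute with N
  have hy : ∃ y ∈ g, y * y = 1 ∧ ∃ c : K, c ≠ 0 ∧ N * y * N = c • N := by
    by_contra hcon
    push Not at hcon
    obtain ⟨X, hX, hNX⟩ := exists_partner h.lie h.irr h.tr hN hN2
    have key : ∀ X ∈ Submodule.span K {y | y ∈ g ∧ y * y = 1}, N * X * N = 0 := by
      intro X hX
      induction hX using Submodule.span_induction with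
      | mem y hy =>
        obtain ⟨c, hc⟩ := hext y hy.1
        by_cases h0 : c = 0
        · rw [hc, h0, zero_smul]
        · exact absurd hc (hcon y hy.1 hy.2 c h0)
      | zero => simp
      | add a b _ _ ha hb => rw [mul_add, add_mul, ha, hb, add_zero]
      | smul c a _ ha => rw [mul_smul_comm, smul_mul_assoc, ha, smul_zero]
    have := key X (h.span hX)
    rw [this] at hNX
    exact hN0 hNX.symm
  obtain ⟨y, hyg, hy2, c, hc0, hNy⟩ := hy
  set N₁ := (1 + y) * N * (1 - y) with hN₁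
  have hN₁g : N₁ ∈ g := h.lie.plus hyg hy2 hN
  have hyN : y * N₁ = N₁ := by
    calc y * N₁ = (y + y * y) * N * (1 - y) := by rw [hN₁]; noncomm_ring
      _ = N₁ := by rw [hy2, hN₁, add_comm]
  have hNy' : N₁ * y = -N₁ := by
    calc N₁ * y = (1 + y) * N * (y - y * y) := by rw [hN₁]; noncomm_ring
      _ = -N₁ := by rw [hy2, hN₁]; noncomm_ring
  have hN₁2 : N₁ * N₁ = 0 := by
    calc N₁ * N₁ = (1 + y) * N * (1 - y * y) * N * (1 - y) := by rw [hN₁]; noncomm_ring
      _ = 0 := by rw [hy2, sub_self, mul_zero, zero_mul, zero_mul]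
  have hext₁ : ∀ X ∈ g, ∃ c : K, N₁ * X * N₁ = c • N₁ := by
    intro X hX
    obtain ⟨d, hd⟩ := hext _ (h.lie.minus hyg hy2 hX)
    refine ⟨d, ?_⟩
    calc N₁ * X * N₁ = (1 + y) * (N * ((1 - y) * X * (1 + y)) * N) * (1 - y) := by
          rw [hN₁]; noncomm_ring
      _ = d • N₁ := by rw [hd, mul_smul_comm, smul_mul_assoc, hN₁]
  have hNNN : N * N₁ * N = (-(c * c)) • N := by
    calc N * N₁ * N = (N * N + N * y * N) * (N - y * N) := by rw [hN₁]; noncomm_ring
      _ = (c • N) * (N - y * N) := by rw [hN2, zero_add, hNy]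
      _ = c • (N * N - N * y * N) := by rw [smul_mul_assoc]; congr 1; noncomm_ring
      _ = (-(c * c)) • N := by rw [hN2, hNy, zero_sub, smul_neg, smul_smul, neg_smul]
  have hrk : finrank K (LinearMap.range N₁) = finrank K (LinearMap.range N) := by
    apply le_antisymm
    · calc finrank K (LinearMap.range N₁) ≤ finrank K (LinearMap.range ((1 + y) * N)) :=
            finrank_range_mul_le_left _ _
        _ ≤ _ := finrank_range_mul_le_right _ _
    · have e : N = N * N₁ * ((-(c * c))⁻¹ • N) := by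
        rw [mul_smul_comm, hNNN, smul_smul, inv_mul_cancel₀, one_smul]
        exact neg_ne_zero.2 (mul_ne_zero hc0 hc0)
      calc finrank K (LinearMap.range N) = finrank K (LinearMap.range
            (N * N₁ * ((-(c * c))⁻¹ • N))) := by rw [← e]
        _ ≤ finrank K (LinearMap.range (N * N₁)) := finrank_range_mul_le_left _ _
        _ ≤ _ := finrank_range_mul_le_right _ _
  obtain ⟨X, hX, hNX⟩ := exists_partner h.lie h.irr h.tr hN₁g hN₁2
  set M₁ := (1 / 4 : K) • ((1 - y) * X * (1 + y)) with hM₁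
  have hM₁g : M₁ ∈ g := g.smul_mem _ (h.lie.minus hyg hy2 hX)
  have hyM : y * M₁ = -M₁ := by
    rw [hM₁, mul_smul_comm, ← smul_neg]
    congr 1
    calc y * ((1 - y) * X * (1 + y)) = (y - y * y) * X * (1 + y) := by noncomm_ring
      _ = _ := by rw [hy2]; noncomm_ring
  have hMy : M₁ * y = M₁ := by
    rw [hM₁, smul_mul_assoc]
    congr 1
    calc (1 - y) * X * (1 + y) * y = (1 - y) * X * (y + y * y) := by noncomm_ring
      _ = _ := by rw [hy2, add_comm]
  have hM₁2 : M₁ * M₁ = 0 := by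
    have h1 : M₁ * (y * M₁) = M₁ * M₁ := by rw [← mul_assoc, hMy]
    rw [hyM, mul_neg] at h1
    have h2 : (2 : K) • (M₁ * M₁) = 0 := by
      rw [two_smul]
      nth_rw 1 [← h1]
      simp
    exact (smul_eq_zero.1 h2).resolve_left (by norm_num)
  have hNMN : N₁ * M₁ * N₁ = N₁ := by
    have h1 : N₁ * (1 - y) = (2 : K) • N₁ := by
      rw [mul_sub, hNy', mul_one, two_smul]; abel
    have h2 : (1 + y) * N₁ = (2 : K) • N₁ := by
      rw [add_mul, hyN, one_mul, two_smul]
    calc N₁ * M₁ * N₁ = (1 / 4 : K) • ((N₁ * (1 - y)) * X * ((1 + y) * N₁)) := by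
          rw [hM₁, mul_smul_comm, smul_mul_assoc]; congr 1
      _ = N₁ := by
          rw [h1, h2, smul_mul_assoc, smul_mul_assoc, mul_smul_comm, smul_smul, smul_smul, hNX]
          norm_num
  refine ⟨y, N₁, M₁ * N₁ * M₁, hyg, hy2, hN₁g, h.lie.sandwich hM₁g hM₁2 hN₁g, hyN, hNy',
    ?_, ?_, hN₁2, ?_, ?_, ?_, hrk, hext₁⟩
  · rw [← mul_assoc, ← mul_assoc, hyM]; noncomm_ring
  · rw [mul_assoc, hMy]
  · calc M₁ * N₁ * M₁ * (M₁ * N₁ * M₁) = M₁ * N₁ * (M₁ * M₁) * N₁ * M₁ := by noncomm_ring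
      _ = 0 := by rw [hM₁2]; simp
  · calc N₁ * (M₁ * N₁ * M₁) * N₁ = (N₁ * M₁ * N₁) * M₁ * N₁ := by noncomm_ring
      _ = N₁ := by rw [hNMN, hNMN]
  · calc M₁ * N₁ * M₁ * N₁ * (M₁ * N₁ * M₁) = M₁ * ((N₁ * M₁ * N₁) * M₁ * N₁) * M₁ := by
          noncomm_ring
      _ = _ := by rw [hNMN, hNMN]

/-- A frame with `rank e ≤ rank N`. Take `N'` from `A4_extremal` and copy the proof of
`exists_frame` (H53Toric.Core3), dropping the parity (there `Setup` is used: `A1_setup h hs hs2`);
it produces an involution `y ∈ L`, `N₁ = (1 + y) N' (1 - y)` of the same rank as `N'`, extremal, and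
its partner. -/
theorem A4_frame [IsAlgClosed K] [CharZero K] [FiniteDimensional K V] [Nontrivial V]
    (h : CoreN L) {s : Module.End K V} (hs : s ∈ L) (hs2 : s * s = 1) {N : Module.End K V}
    (hN : N ∈ L) (hN2 : N * N = 0) (hN0 : N ≠ 0) :
    ∃ s' e f : Module.End K V, Frame L s' e f ∧
      finrank K (LinearMap.range e) ≤ finrank K (LinearMap.range N) := by
  have hS := A1_setup h hs hs2
  obtain ⟨N', a1, a2, a3, a4, a5⟩ := A4_extremal h.lie h.irr hS.tr hN hN2 hN0
  obtain ⟨y, e, f, hy, hy2, he, hf, ye, ey, yf, fy, ee, ff, efe, fef, hrk, hext⟩ :=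
    A4_frame_aux hS a1 a2 a3 a5
  have he0 : e ≠ 0 := by
    intro h0
    rw [h0, LinearMap.range_zero, finrank_bot] at hrk
    exact a3 (LinearMap.range_eq_bot.1 (Submodule.finrank_eq_zero.1 hrk.symm))
  exact ⟨y, e, f, ⟨hy, hy2, ⟨he, ye, ey⟩, ⟨hf, yf, fy⟩, he0, efe, fef, hext⟩, hrk.le.trans a4⟩

end Pool.Agent.H86N
end

-- from Lib.H86N.P1
section

/-!
# P1: a second frame
-/

set_option autoImplicit false
set_option linter.unusedSectionVars false
namespace Pool.Agent.H86N
open Module Pool.Agent.H53Toric Pool.Agent.H49M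

variable {K : Type*} [Field K] {V : Type*} [AddCommGroup V] [Module K V]

variable {L : Submodule K (Module.End K V)}

/-- Chunk P1. Put `e' = u f u ∈ L` (`IsLie.sandwich`), `p = e f`, `q = f e`, `p' = (1+s)/2 - p`,
`q' = (1-s)/2 - q`. From `u = p u + u q` and `u ∈ Lp`: `u = p u q' + p' u q`, so
`e' = p' u q f p u q' = p' e' q'`. By `exists_partner` (H53Toric.Core1; traces vanish by
`(A1_setup h F.s_mem F.s_sq).tr`) there is `X ∈ L` with `e' X e' = e'`; `X' = q' X p' ∈ L`
(block component: `peirce_mem` in H53Toric.Core3 or `P0_block` with `c = (p, p', q', q)`,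
`w = (3, 1, -1, -3)` : `D = s + 2 (p - q) ∈ L`; the difference `-2` occurs for `q' X p'`,
`p' X p` and `q X q'`, so first pass to the part of weight `-1` for `s`), `e' X' e' = e'`, and
`f' = X' e' X'` satisfies `e' f' e' = e'`, `f' e' f' = f'`, `f' = q' f' p'`.
`u f' u ∈ L` equals `p (u f' u) q`, so it is `c e` (`K0_ext`), and
`e' = e' f' e' = u f (u f' u) f u = c u f e f u = c e'`, so `c = 1`: `u f' u = e`.
Extremality of `e'`: `e' X e' = u (f (u X u) f) u = c u f u`, as `f` is extremal (`K0_swap`).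
Orthogonality: `e f' = e q' f' = 0` etc. `u2`: `e' f' u = u f (u f' u) = u f e = u q` and
`u f' e' = (u f' u) f u = e f u = p u`, sum `= u`. -/
theorem P1_grid [CharZero K] [IsAlgClosed K] [FiniteDimensional K V] [Nontrivial V]
    (h : CoreN L) {s e f u : Module.End K V} (F : Frame L s e f) (hu : u ∈ J1 L s e f)
    (hu0 : u * f * u ≠ 0) : ∃ e' f' : Module.End K V, Grid L s e f e' f' u := by
  have hl := h.lie
  obtain ⟨huP, hu1⟩ := hu
  have huu : u * u = 0 := A2_pp huP huP
  have hff : f * f = 0 := A2_mm F.f_mem F.f_mem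
  have hee : e * e = 0 := A2_pp F.e_mem F.e_mem
  have hset := A1_setup h F.s_mem F.s_sq
  have hFs := K0_swap hl F
  -- `p u q = 0`
  have hpuq : e * f * u * (f * e) = 0 := by
    have h1 : e * f * u * (f * e) = e * f * u * (f * e) + e * f * u * (f * e) := by
      calc e * f * u * (f * e) = e * f * (e * f * u + u * (f * e)) * (f * e) := by rw [hu1]
        _ = (e * f * e) * f * u * (f * e) + e * f * u * ((f * e * f) * e) := by noncomm_ring
        _ = _ := by rw [F.efe, F.fef]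
    have h2 : e * f * u * (f * e) + 0 = e * f * u * (f * e) + e * f * u * (f * e) := by
      rw [add_zero]; exact h1
    exact (add_left_cancel h2).symm
  have hfuf : f * u * f = 0 := by
    calc f * u * f = (f * e * f) * u * (f * e * f) := by rw [F.fef]
      _ = f * (e * f * u * (f * e)) * f := by noncomm_ring
      _ = 0 := by rw [hpuq]; simp
  -- the element `e'`
  obtain ⟨e', he'⟩ : ∃ e', e' = u * f * u := ⟨_, rfl⟩
  have he'L : e' ∈ L := by rw [he']; exact hl.sandwich huP.1 huu F.f_mem.1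
  have he's : s * e' = e' := by rw [he', ← mul_assoc, ← mul_assoc, huP.2.1]
  have hse' : e' * s = -e' := by rw [he', mul_assoc (u * f), huP.2.2, mul_neg]
  have he'P : e' ∈ Lp L s := ⟨he'L, he's, hse'⟩
  have he'e' : e' * e' = 0 := A2_pp he'P he'P
  have o3 : e' * f = 0 := by
    rw [he']
    calc u * f * u * f = u * (f * u * f) := by noncomm_ring
      _ = 0 := by rw [hfuf, mul_zero]
  have o4 : f * e' = 0 := by
    rw [he']
    calc f * (u * f * u) = (f * u * f) * u := by noncomm_ring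
      _ = 0 := by rw [hfuf, zero_mul]
  -- a partner
  obtain ⟨X, hX, hXe⟩ := exists_partner hl h.irr hset.tr he'L he'e'
  obtain ⟨a, ha, b, hb, c, hc, hXabc⟩ := A2_decomp h F.s_mem F.s_sq hX
  have hcc : c * c = 0 := A2_mm hc hc
  have hebe : e' * b * e' = 0 := by
    have h1 : e' * b * e' = -(e' * b * e') := by
      calc e' * b * e' = e' * b * (s * e') := by rw [he's]
        _ = e' * (b * s) * e' := by noncomm_ring
        _ = e' * (s * b) * e' := by rw [hb.2]
        _ = (e' * s) * b * e' := by noncomm_ring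
        _ = _ := by rw [hse']; noncomm_ring
    have h2 : (2 : K) • (e' * b * e') = 0 := by
      rw [two_smul]
      nth_rewrite 1 [h1]
      exact neg_add_cancel _
    exact (smul_eq_zero.mp h2).resolve_left two_ne_zero
  have hece : e' * c * e' = e' := by
    have h1 : e' * X * e' = e' * a * e' + e' * b * e' + e' * c * e' := by
      rw [hXabc]; noncomm_ring
    rw [hXe, A2_pp he'P ha, zero_mul, hebe, zero_add, zero_add] at h1
    exact h1.symm
  have hfc : f * c = 0 := A2_mm F.f_mem hc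
  have hcf : c * f = 0 := A2_mm hc F.f_mem
  obtain ⟨l, hlc⟩ := F.ext c hc.1
  -- the corrected partner
  obtain ⟨Y, hY⟩ : ∃ Y, Y = c - f * e * c - c * e * f + l • f := ⟨_, rfl⟩
  have hYL : Y ∈ L := by
    have h1 : Y = c + ((e * f - f * e) * c - c * (e * f - f * e)) + l • f := by
      rw [hY]
      have : (e * f - f * e) * c - c * (e * f - f * e) =
          e * (f * c) - f * e * c - c * e * f + (c * f) * e := by noncomm_ring
      rw [this, hfc, hcf]
      noncomm_ring
    rw [h1]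
    exact L.add_mem (L.add_mem hc.1 (hl _ (K0_H hl F) _ hc.1)) (L.smul_mem _ F.f_mem.1)
  have hY2 : Y = (1 - f * e) * c * (1 - e * f) := by
    have : (1 - f * e) * c * (1 - e * f) = c - f * e * c - c * e * f + f * (e * c * e) * f := by
      noncomm_ring
    rw [this, hlc, hY]
    rw [mul_smul_comm, smul_mul_assoc, F.fef]
  have hYs : s * Y = -Y := by
    rw [hY2, ← mul_assoc, ← mul_assoc]
    have : s * (1 - f * e) = (1 - f * e) * s := by
      rw [mul_sub, sub_mul, mul_one, one_mul, ← mul_assoc, F.f_mem.2.1, mul_assoc f e s,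
        F.e_mem.2.2]
      noncomm_ring
    rw [this, mul_assoc (1 - f * e) s c, hc.2.1]
    noncomm_ring
  have hsY : Y * s = Y := by
    rw [hY2, mul_assoc]
    have : (1 - e * f) * s = s * (1 - e * f) := by
      rw [mul_sub, sub_mul, mul_one, one_mul, ← mul_assoc, F.e_mem.2.1, mul_assoc e f s,
        F.f_mem.2.2]
    rw [this, ← mul_assoc, mul_assoc _ c s, hc.2.2]
  have hYm : Y ∈ Lm L s := ⟨hYL, hYs, hsY⟩
  have hYY : Y * Y = 0 := A2_mm hYm hYm
  have heYe : e' * Y * e' = e' := by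
    rw [hY2]
    have : e' * ((1 - f * e) * c * (1 - e * f)) * e' = (e' - (e' * f) * e) * c *
        (e' - e * (f * e')) := by noncomm_ring
    rw [this, o3, o4, zero_mul, mul_zero, sub_zero, hece]
  obtain ⟨f', hf'⟩ : ∃ f', f' = Y * e' * Y := ⟨_, rfl⟩
  have hf'L : f' ∈ L := by rw [hf']; exact hl.sandwich hYL hYY he'L
  have o1 : e * f' = 0 := by
    have : e * Y = 0 := by
      rw [hY2]
      calc e * ((1 - f * e) * c * (1 - e * f)) = (e - e * f * e) * c * (1 - e * f) := by
            noncomm_ring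
        _ = 0 := by rw [F.efe, sub_self, zero_mul, zero_mul]
    rw [hf', ← mul_assoc, ← mul_assoc, this, zero_mul, zero_mul]
  have o2 : f' * e = 0 := by
    have : Y * e = 0 := by
      rw [hY2]
      calc ((1 - f * e) * c * (1 - e * f)) * e = (1 - f * e) * c * (e - e * f * e) := by
            noncomm_ring
        _ = 0 := by rw [F.efe, sub_self, mul_zero]
    rw [hf', mul_assoc, this, mul_zero]
  have hf'm : f' ∈ Lm L s := ⟨hf'L, by rw [hf', ← mul_assoc, ← mul_assoc, hYs]; noncomm_ring,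
    by rw [hf', mul_assoc, hsY]⟩
  have hefe' : e' * f' * e' = e' := by
    rw [hf']
    calc e' * (Y * e' * Y) * e' = (e' * Y * e') * Y * e' := by noncomm_ring
      _ = e' := by rw [heYe, heYe]
  have hfef' : f' * e' * f' = f' := by
    rw [hf']
    calc Y * e' * Y * e' * (Y * e' * Y) = Y * ((e' * Y * e') * Y * e') * Y := by noncomm_ring
      _ = _ := by rw [heYe, heYe]
  -- `u f' u = e`
  have hufu : u * f' * u = e := by
    have hf'f : f' * f = 0 := A2_mm hf'm F.f_mem
    have hff' : f * f' = 0 := A2_mm F.f_mem hf'm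
    have h1 : u * f' = e * f * u * f' := by
      calc u * f' = (e * f * u + u * (f * e)) * f' := by rw [hu1]
        _ = e * f * u * f' + u * f * (e * f') := by noncomm_ring
        _ = _ := by rw [o1, mul_zero, add_zero]
    have h2 : f' * u = f' * u * (f * e) := by
      calc f' * u = f' * (e * f * u + u * (f * e)) := by rw [hu1]
        _ = (f' * e) * f * u + f' * u * (f * e) := by noncomm_ring
        _ = _ := by rw [o2, zero_mul, zero_mul, zero_add]
    obtain ⟨k, hk⟩ := K0_ext hl F (hl.sandwich huP.1 huu hf'L)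
    have h3 : u * f' * u = k • e := by
      rw [← hk]
      calc u * f' * u = (e * f * u * f') * u := by rw [← h1]
        _ = e * f * u * (f' * u) := by noncomm_ring
        _ = e * f * u * (f' * u * (f * e)) := by rw [← h2]
        _ = _ := by noncomm_ring
    have h4 : e' = k • e' := by
      calc e' = e' * f' * e' := hefe'.symm
        _ = u * f * (u * f' * u) * f * u := by rw [he']; noncomm_ring
        _ = k • (u * (f * e * f) * u) := by
          rw [h3]
          simp only [mul_smul_comm, smul_mul_assoc, mul_assoc]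
        _ = k • e' := by rw [F.fef, ← he']
    have h5 : (k - 1) • e' = 0 := by rw [sub_smul, one_smul, ← h4, sub_self]
    have h6 : e' ≠ 0 := by rw [he']; exact hu0
    have h7 : k = 1 := sub_eq_zero.mp ((smul_eq_zero.mp h5).resolve_right h6)
    rw [h3, h7, one_smul]
  refine ⟨e', f', F, ⟨F.s_mem, F.s_sq, he'P, hf'm, by rw [he']; exact hu0, hefe', hfef', ?_⟩,
    o1, o2, o3, o4, huP, he'.symm, hufu, hu1, ?_⟩
  · intro X hX
    obtain ⟨k, hk⟩ := hFs.ext _ (hl.sandwich huP.1 huu hX)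
    refine ⟨k, ?_⟩
    rw [he']
    calc u * f * u * X * (u * f * u) = u * (f * (u * X * u) * f) * u := by noncomm_ring
      _ = k • (u * f * u) := by rw [hk, mul_smul_comm, smul_mul_assoc]
  · calc e' * f' * u + u * (f' * e') = u * f * (u * f' * u) + (u * f' * u) * f * u := by
          rw [he']; noncomm_ring
      _ = e * f * u + u * (f * e) := by rw [hufu]; noncomm_ring
      _ = u := hu1

end Pool.Agent.H86N
end
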