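import Mathlib

/-! Merged copies (to shorten the build) of Lib.CFT.L6, Lib.H76Y.EN0, Lib.PNT.Fejer, Lib.PNT.WienerIkehara, Lib.PNT.Dirichlet, Lib.PNT.PNT, Lib.CFTC.C6, Lib.CFT.X04, Lib.CFT.X05, Lib.CFT.X06, Lib.CFT.X15, Lib.H34Z.A10, Lib.CFT.X07, Lib.CFT.X08, Lib.CFT.X09, Lib.CFT.X10. -/

-- from Lib.CFT.L6
section

/-! # CFT, module ZL, L6: Landau lemma (Dirichlet series with nonnegative coefficients) -/

open Filter Topology

namespace CFTL

noncomputable section

/-- The coefficient of the double series. -/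
def lt {ι : Type*} (c l : ι → ℝ) (t : ℝ) (p : ι × ℕ) : ℝ :=
  c p.1 * Real.exp (-2 * l p.1) * ((t * l p.1) ^ p.2 / (p.2.factorial : ℝ))

theorem lt_hasSum {ι : Type*} (c l : ι → ℝ) (t : ℝ) (i : ι) :
    HasSum (fun n => lt c l t (i, n)) (c i * Real.exp (-(2 - t) * l i)) := by
  have h1 : HasSum (fun n : ℕ => (t * l i) ^ n / (n.factorial : ℝ)) (Real.exp (t * l i)) := by
    have := NormedSpace.exp_series_hasSum_exp' (𝕂 := ℝ) (t * l i)
    rw [← Real.exp_eq_exp_ℝ] at this
    refine this.congr_fun ?_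
    intro n
    rw [smul_eq_mul]
    ring
  have h2 := h1.mul_left (c i * Real.exp (-2 * l i))
  have h3 : c i * Real.exp (-(2 - t) * l i) = c i * Real.exp (-2 * l i) * Real.exp (t * l i) := by
    rw [mul_assoc, ← Real.exp_add]
    ring_nf
  rw [h3]
  exact h2

theorem lt_nonneg {ι : Type*} {c l : ι → ℝ} (hc : ∀ i, 0 ≤ c i) (hl : ∀ i, 0 ≤ l i) {t : ℝ} (ht : 0 ≤ t) (p : ι × ℕ) :
    0 ≤ lt c l t p := by
  unfold lt
  have := hc p.1
  have := hl p.1
  positivity

theorem lt_sum_iff {ι : Type*} {c l : ι → ℝ} (hc : ∀ i, 0 ≤ c i) (hl : ∀ i, 0 ≤ l i) {t : ℝ} (ht : 0 ≤ t) :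
    Summable (lt c l t) ↔ Summable fun i => c i * Real.exp (-(2 - t) * l i) := by
  rw [summable_prod_of_nonneg (fun p => lt_nonneg hc hl ht p)]
  have h1 : (fun i => ∑' n, lt c l t (i, n)) = fun i => c i * Real.exp (-(2 - t) * l i) :=
    funext fun i => (lt_hasSum c l t i).tsum_eq
  rw [h1]
  exact ⟨fun h => h.2, fun h => ⟨fun i => (lt_hasSum c l t i).summable, h⟩⟩

/-- The Taylor coefficients. -/
def ta {ι : Type*} (c l : ι → ℝ) (n : ℕ) : ℝ := ∑' i, lt c l 1 (i, n)

theorem lt_scale {ι : Type*} (c l : ι → ℝ) (t : ℝ) (p : ι × ℕ) : lt c l t p = t ^ p.2 * lt c l 1 p := by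
  unfold lt
  rw [mul_pow, mul_pow, one_pow]
  ring

theorem landau {ι : Type*} (c l : ι → ℝ) (hc : ∀ i, 0 ≤ c i) (hl : ∀ i, 0 ≤ l i)
    (hs : ∀ x : ℝ, 1 < x → Summable fun i => c i * Real.exp (-x * l i))
    (f : ℂ → ℂ) (hf : DifferentiableOn ℂ f {s | 0 < s.re})
    (hfe : ∀ x : ℝ, 1 < x → f x = ((∑' i, c i * Real.exp (-x * l i) : ℝ) : ℂ)) {y : ℝ} (hy : 0 < y) (hy2 : y < 2) :
    Summable fun i => c i * Real.exp (-y * l i) := by
  have hsum : ∀ t : ℝ, 0 ≤ t → t < 1 → Summable (lt c l t) := by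
    intro t h0 h1
    rw [lt_sum_iff hc hl h0]
    exact hs (2 - t) (by linarith)
  -- each coefficient is summable
  have hcoef : ∀ n, Summable fun i => lt c l 1 (i, n) := by
    intro n
    have h1 := (hsum (1 / 2) (by norm_num) (by norm_num)).prod_symm
    have h2 := h1.prod_factor n
    have h3 := h2.mul_left ((2 : ℝ) ^ n)
    refine h3.congr fun i => ?_
    show (2 : ℝ) ^ n * lt c l (1 / 2) (i, n) = lt c l 1 (i, n)
    rw [lt_scale, ← mul_assoc, ← mul_pow]
    norm_num
  have hta0 : ∀ n, 0 ≤ ta c l n := fun n => tsum_nonneg fun i => lt_nonneg hc hl zero_le_one _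
  -- the real power series
  have hreal : ∀ t : ℝ, 0 ≤ t → t < 1 → HasSum (fun n => ta c l n * t ^ n) (∑' i, c i * Real.exp (-(2 - t) * l i)) := by
    intro t h0 h1
    have h2 := hsum t h0 h1
    have h3 : HasSum (fun i => c i * Real.exp (-(2 - t) * l i)) (∑' p, lt c l t p) :=
      h2.hasSum.prod_fiberwise fun i => lt_hasSum c l t i
    rw [h3.tsum_eq]
    have h4 := h2.prod_symm
    have h5 : HasSum (fun n => ta c l n * t ^ n) (∑' p : ℕ × ι, lt c l t p.swap) := by
      refine h4.hasSum.prod_fiberwise fun n => ?_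
      have h6 := (hcoef n).hasSum.mul_right (t ^ n)
      refine h6.congr_fun fun i => ?_
      show lt c l t (i, n) = lt c l 1 (i, n) * t ^ n
      rw [lt_scale]
      ring
    have h7 : ∑' p : ℕ × ι, lt c l t p.swap = ∑' p, lt c l t p :=
      (Equiv.prodComm ℕ ι).tsum_eq (lt c l t)
    rwa [h7] at h5
  -- the complex function near zero
  set p : FormalMultilinearSeries ℂ ℂ ℂ := FormalMultilinearSeries.ofScalars ℂ (fun n => (ta c l n : ℂ)) with hp
  have hpn : ∀ n, ‖p n‖ = ta c l n := by
    intro n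
    rw [hp, FormalMultilinearSeries.ofScalars_norm, Complex.norm_real, Real.norm_of_nonneg (hta0 n)]
  have hrad : ((1 / 2 : NNReal) : ENNReal) ≤ p.radius := by
    refine p.le_radius_of_summable_norm ?_
    refine (hreal (1 / 2) (by norm_num) (by norm_num)).summable.congr fun n => ?_
    rw [hpn]
    norm_num
  have hG : HasFPowerSeriesOnBall p.sum p 0 p.radius := by
    refine p.hasFPowerSeriesOnBall (lt_of_lt_of_le ?_ hrad)
    norm_num
  have hF : DifferentiableOn ℂ (fun z => f (2 - z)) (Metric.ball 0 2) := by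
    intro z hz
    have hz' : ‖z‖ < 2 := by simpa using hz
    have h1 : 0 < (2 - z).re := by
      have := Complex.re_le_norm z
      rw [Complex.sub_re]
      norm_num
      linarith
    have h2 : DifferentiableAt ℂ f (2 - z) :=
      (hf _ h1).differentiableAt ((isOpen_lt continuous_const Complex.continuous_re).mem_nhds h1)
    exact (h2.comp z ((differentiableAt_const _).sub differentiableAt_id)).differentiableWithinAt
  set R : NNReal := ⟨2 - y / 2, by linarith⟩ with hR
  have hR0 : 0 < R := by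
    show (0 : ℝ) < 2 - y / 2
    linarith
  have hF2 := (hF.mono (s := Metric.closedBall 0 R) (Metric.closedBall_subset_ball (by
    show 2 - y / 2 < 2
    linarith))).hasFPowerSeriesOnBall hR0
  have hfreq : ∃ᶠ z in 𝓝[≠] (0 : ℂ), (fun z => f (2 - z)) z = p.sum z := by
    have h1 : Tendsto (fun t : ℝ => (t : ℂ)) (𝓝[>] 0) (𝓝[≠] 0) := by
      refine tendsto_nhdsWithin_iff.2 ⟨?_, ?_⟩
      · exact (Complex.continuous_ofReal.tendsto' 0 0 Complex.ofReal_zero).mono_left nhdsWithin_le_nhds
      · filter_upwards [self_mem_nhdsWithin] with t ht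
        exact Complex.ofReal_ne_zero.2 (ne_of_gt ht)
    refine h1.frequently (Eventually.frequently ?_)
    filter_upwards [Ioo_mem_nhdsGT (show (0 : ℝ) < 1 by norm_num)] with t ht
    have h2 := (hreal t ht.1.le ht.2)
    have h3 : p.sum (t : ℂ) = ∑' n, (ta c l n : ℂ) * (t : ℂ) ^ n := by
      rw [hp]
      show (∑' n, (FormalMultilinearSeries.ofScalars ℂ (fun n => (ta c l n : ℂ)) n) fun _ => (t : ℂ)) = _
      refine tsum_congr fun n => ?_
      rw [FormalMultilinearSeries.ofScalars_apply_eq, smul_eq_mul]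
    rw [h3]
    have h4 : f (2 - (t : ℂ)) = ((∑' i, c i * Real.exp (-(2 - t) * l i) : ℝ) : ℂ) := by
      rw [← hfe (2 - t) (by linarith [ht.2])]
      push_cast
      rfl
    show f (2 - (t : ℂ)) = _
    rw [h4, ← h2.tsum_eq, Complex.ofReal_tsum]
    push_cast
    rfl
  have hev := (AnalyticAt.frequently_eq_iff_eventually_eq hF2.analyticAt hG.analyticAt).1 hfreq
  have hpq := HasFPowerSeriesAt.eq_formalMultilinearSeries_of_eventually hF2.hasFPowerSeriesAt hG.hasFPowerSeriesAt hev
  have hR2 : (R : ENNReal) ≤ p.radius := by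
    rw [← hpq]
    exact hF2.r_le
  have ht0 : 0 ≤ 2 - y := by linarith
  have hfin : Summable fun n => ta c l n * (2 - y) ^ n := by
    set r : NNReal := ⟨2 - y, ht0⟩ with hr
    have h1 : (r : ENNReal) < p.radius := by
      refine lt_of_lt_of_le ?_ hR2
      rw [ENNReal.coe_lt_coe]
      show 2 - y < 2 - y / 2
      linarith
    refine (p.summable_norm_mul_pow h1).congr fun n => ?_
    rw [hpn]
    rfl
  have hdouble : Summable (lt c l (2 - y)) := by
    have h1 : Summable fun q : ℕ × ι => lt c l (2 - y) q.swap := by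
      rw [summable_prod_of_nonneg (fun q => lt_nonneg hc hl ht0 _)]
      have h2 : ∀ n, HasSum (fun i => lt c l (2 - y) (i, n)) (ta c l n * (2 - y) ^ n) := by
        intro n
        have h6 := (hcoef n).hasSum.mul_right ((2 - y) ^ n)
        refine h6.congr_fun fun i => ?_
        rw [lt_scale]
        ring
      refine ⟨fun n => (h2 n).summable, ?_⟩
      refine hfin.congr fun n => ?_
      exact (h2 n).tsum_eq.symm
    exact (Equiv.prodComm ℕ ι).summable_iff.1 h1
  have h9 := (lt_sum_iff hc hl ht0).1 hdouble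
  refine h9.congr fun i => ?_
  ring_nf

end

end CFTL
end

-- from Lib.H76Y.EN0
section

/-!
# EN0: pure tensors in two commuting algebras, semilinear automorphisms, powers and commutators
-/

set_option autoImplicit false
set_option linter.unusedSectionVars false
namespace Pool.Agent.H76Y.EN
open Module

variable {K : Type*} [Field K] {V : Type*} [AddCommGroup V] [Module K V] [FiniteDimensional K V]

/-- An invertible element of a subalgebra has its inverse in the subalgebra. -/
theorem exists_inv {A : Subalgebra K (Module.End K V)} {u : Module.End K V} (hu : u ∈ A) (h0 : LinearMap.det u ≠ 0) :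
    ∃ w ∈ A, u * w = 1 ∧ w * u = 1 := by
  have h1 : IsUnit u := by
    rw [LinearMap.isUnit_iff_isUnit_det]
    exact isUnit_iff_ne_zero.2 h0
  let f : A →ₗ[K] A := LinearMap.mulLeft K (⟨u, hu⟩ : A)
  have hf : Function.Injective f := by
    rw [← LinearMap.ker_eq_bot, LinearMap.ker_eq_bot']
    intro w hw
    have h2 : u * (w : Module.End K V) = 0 := congrArg Subtype.val hw
    have h3 : (w : Module.End K V) = 0 := h1.mul_right_eq_zero.1 h2
    exact Subtype.ext h3
  have hs := LinearMap.injective_iff_surjective.1 hf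
  obtain ⟨w, hw⟩ := hs 1
  have h2 : u * (w : Module.End K V) = 1 := congrArg Subtype.val hw
  exact ⟨w, w.2, h2, mul_eq_one_comm.1 h2⟩

/-- `X` is the product of invertible elements `u` of `A` and `r` of `A'`. -/
def PU (A A' : Subalgebra K (Module.End K V)) (X u r : Module.End K V) : Prop :=
  u ∈ A ∧ r ∈ A' ∧ X = u * r ∧ LinearMap.det u ≠ 0 ∧ LinearMap.det r ≠ 0

variable {A A' : Subalgebra K (Module.End K V)}

theorem PU.one : PU A A' 1 1 1 := by
  refine ⟨one_mem _, one_mem _, (mul_one 1).symm, ?_, ?_⟩ <;> rw [map_one] <;> exact one_ne_zero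

theorem PU.mul (hc : ∀ X ∈ A, ∀ X' ∈ A', X * X' = X' * X) {X u r X' u' r' : Module.End K V}
    (h : PU A A' X u r) (h' : PU A A' X' u' r') : PU A A' (X * X') (u * u') (r * r') := by
  obtain ⟨hu, hr, hX, h1, h2⟩ := h
  obtain ⟨hu', hr', hX', h1', h2'⟩ := h'
  refine ⟨mul_mem hu hu', mul_mem hr hr', ?_, ?_, ?_⟩
  · rw [hX, hX', mul_assoc, mul_assoc, ← mul_assoc r u' r', ← hc u' hu' r hr, mul_assoc u' r r']
  · rw [map_mul]
    exact mul_ne_zero h1 h1'
  · rw [map_mul]
    exact mul_ne_zero h2 h2'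

theorem PU.pow (hc : ∀ X ∈ A, ∀ X' ∈ A', X * X' = X' * X) {X u r : Module.End K V}
    (h : PU A A' X u r) (m : ℕ) : PU A A' (X ^ m) (u ^ m) (r ^ m) := by
  induction m with
  | zero =>
    rw [pow_zero, pow_zero, pow_zero]
    exact PU.one
  | succ m ih =>
    rw [pow_succ, pow_succ, pow_succ]
    exact ih.mul hc h

theorem PU.inv (hc : ∀ X ∈ A, ∀ X' ∈ A', X * X' = X' * X) {X u r X' w : Module.End K V}
    (h : PU A A' X u r) (hX : X * X' = 1) (hw : w ∈ A) (huw : u * w = 1) : ∃ r', PU A A' X' w r' := by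
  obtain ⟨hu, hr, hXe, h1, h2⟩ := h
  obtain ⟨s, hs, hrs, hsr⟩ := exists_inv hr h2
  have h3 : X' = w * s := by
    have h4 : X * (w * s) = 1 := by
      rw [hXe, hc w hw s hs]
      calc u * r * (s * w) = u * (r * s) * w := by simp only [mul_assoc]
        _ = 1 := by rw [hrs, mul_one, huw]
    have h5 : X' * X = 1 := mul_eq_one_comm.1 hX
    calc X' = X' * (X * (w * s)) := by rw [h4, mul_one]
      _ = w * s := by rw [← mul_assoc, h5, one_mul]
  refine ⟨s, hw, hs, h3, fun h0 => ?_, fun h0 => ?_⟩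
  · have h4 := congrArg LinearMap.det huw
    rw [map_mul, h0, mul_zero, map_one] at h4
    exact zero_ne_one h4
  · have h4 := congrArg LinearMap.det hrs
    rw [map_mul, h0, mul_zero, map_one] at h4
    exact zero_ne_one h4

/-- Uniqueness up to scalars. -/
theorem PU.unique (hc : ∀ X ∈ A, ∀ X' ∈ A', X * X' = X' * X) (hs : ∀ X ∈ A, X ∈ A' → ∃ c : K, X = c • 1)
    [Nontrivial V] {X u r u' r' : Module.End K V} (h : PU A A' X u r) (h' : PU A A' X u' r') :
    ∃ c : K, c ≠ 0 ∧ u' = c • u := by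
  obtain ⟨hu, hr, hX, h1, h2⟩ := h
  obtain ⟨hu', hr', hX', h1', h2'⟩ := h'
  obtain ⟨w, hw, huw, hwu⟩ := exists_inv hu h1
  obtain ⟨s, hs', hrs, hsr⟩ := exists_inv hr' h2'
  have h3 : w * u' = r * s := by
    have h4 : u * r = u' * r' := by rw [← hX, ← hX']
    calc w * u' = w * (u' * r') * s := by rw [mul_assoc w, mul_assoc u', hrs, mul_one]
      _ = w * (u * r) * s := by rw [h4]
      _ = (w * u) * r * s := by simp only [mul_assoc]
      _ = r * s := by rw [hwu, one_mul]
  obtain ⟨c, hc1⟩ := hs (w * u') (mul_mem hw hu') (h3 ▸ mul_mem hr hs')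
  have h5 : u' = c • u := by
    calc u' = u * w * u' := by rw [huw, one_mul]
      _ = u * (w * u') := mul_assoc _ _ _
      _ = c • u := by rw [hc1, mul_smul_comm, mul_one]
  refine ⟨c, ?_, h5⟩
  rintro rfl
  rw [zero_smul] at h5
  apply h1'
  rw [h5]
  exact LinearMap.det_zero'' 

/-- The conditions on a set of semilinear automorphisms. -/
structure TS0 (A A' : Subalgebra K (Module.End K V)) (T : Set ((Module.End K V ≃+* Module.End K V) × (K ≃+* K)))
    (W : Set (Module.End K V →ₗ[K] K)) : Prop where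
  smul : ∀ x ∈ T, ∀ (c : K) X, x.1 (c • X) = x.2 c • x.1 X
  left : ∀ x ∈ T, ∀ X ∈ A, x.1 X ∈ A
  right : ∀ x ∈ T, ∀ X ∈ A', x.1 X ∈ A'
  det : ∀ x ∈ T, ∀ X, LinearMap.det (x.1 X) = x.2 (LinearMap.det X)
  form : ∀ x ∈ T, ∀ w ∈ W, ∀ X, w (x.1 X) = x.2 (w X)
  sep : ∀ X, X ≠ 0 → ∃ w ∈ W, w X ≠ 0

variable {T : Set ((Module.End K V ≃+* Module.End K V) × (K ≃+* K))} {W : Set (Module.End K V →ₗ[K] K)}

theorem PU.map (hT : TS0 A A' T W) {x : (Module.End K V ≃+* Module.End K V) × (K ≃+* K)} (hx : x ∈ T)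
    {X u r : Module.End K V} (h : PU A A' X u r) : PU A A' (x.1 X) (x.1 u) (x.1 r) := by
  obtain ⟨hu, hr, hX, h1, h2⟩ := h
  refine ⟨hT.left x hx _ hu, hT.right x hx _ hr, by rw [hX, map_mul], ?_, ?_⟩
  · rw [hT.det x hx]
    exact (map_ne_zero_iff _ x.2.injective).2 h1
  · rw [hT.det x hx]
    exact (map_ne_zero_iff _ x.2.injective).2 h2

theorem PU.smul {X u r : Module.End K V} (h : PU A A' X u r) {c : K} (hc : c ≠ 0) : PU A A' X (c • u) (c⁻¹ • r) := by
  obtain ⟨hu, hr, hX, h1, h2⟩ := h
  refine ⟨A.smul_mem hu _, A'.smul_mem hr _, ?_, ?_, ?_⟩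
  · rw [smul_mul_smul_comm, mul_inv_cancel₀ hc, one_smul, hX]
  · rw [LinearMap.det_smul]
    exact mul_ne_zero (pow_ne_zero _ hc) h1
  · rw [LinearMap.det_smul]
    exact mul_ne_zero (pow_ne_zero _ (inv_ne_zero hc)) h2

/-- Normalisation. -/
theorem exists_normN (hc : ∀ X ∈ A, ∀ X' ∈ A', X * X' = X' * X) (hs : ∀ X ∈ A, X ∈ A' → ∃ c : K, X = c • 1)
    [Nontrivial V] (hT : TS0 A A' T W) {X u r : Module.End K V} (h1 : PU A A' X u r)
    (hX : ∀ x ∈ T, x.1 X = X) : ∃ u r, PU A A' X u r ∧ ∀ x ∈ T, x.1 u = u := by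
  have hu0 : u ≠ 0 := by
    rintro rfl
    exact h1.2.2.2.1 LinearMap.det_zero''
  obtain ⟨w, hw, hwu⟩ := hT.sep u hu0
  refine ⟨_, _, h1.smul (inv_ne_zero hwu), fun x hx => ?_⟩
  have h2 := h1.map hT hx
  rw [hX x hx] at h2
  obtain ⟨c, hc0, hcu⟩ := PU.unique hc hs h1 h2
  have h3 : c * w u = x.2 (w u) := by
    rw [← hT.form x hx w hw u, hcu, map_smul, smul_eq_mul]
  rw [hT.smul x hx, map_inv₀, ← h3, hcu, smul_smul, mul_inv, mul_assoc, mul_comm (w u)⁻¹ c,
      ← mul_assoc, inv_mul_cancel₀ hc0, one_mul]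

/-- Products of `m`-th powers and commutators have rational `u` whose determinant is an `m`-th power. -/
theorem powers (hc : ∀ X ∈ A, ∀ X' ∈ A', X * X' = X' * X) (hs : ∀ X ∈ A, X ∈ A' → ∃ c : K, X = c • 1)
    [Nontrivial V] (hT : TS0 A A' T W) {B : Set (Module.End K V)}
    (hB : ∀ X ∈ B, (∃ u r, PU A A' X u r) ∧ ∀ x ∈ T, x.1 X = X) (m : ℕ) {X : Module.End K V}
    (hX : X ∈ Submonoid.closure ({Z | ∃ X ∈ B, Z = X ^ m} ∪
      {Z | ∃ X ∈ B, ∃ Y ∈ B, ∃ X' Y', X * X' = 1 ∧ Y * Y' = 1 ∧ Z = X * Y * X' * Y'})) :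
    ∃ u r c, PU A A' X u r ∧ LinearMap.det u = c ^ m ∧ c ≠ 0 ∧ ∀ x ∈ T, x.1 u = u ∧ x.2 c = c := by
  induction hX using Submonoid.closure_induction with
  | mem Z hZ =>
    rcases hZ with ⟨X, hXB, rfl⟩ | ⟨X, hXB, Y, hYB, X', Y', hXX, hYY, rfl⟩
    · obtain ⟨⟨u, r, h1⟩, hfix⟩ := hB X hXB
      obtain ⟨u, r, h1, hfu⟩ := exists_normN hc hs hT h1 hfix
      refine ⟨u ^ m, r ^ m, LinearMap.det u, h1.pow hc m, map_pow _ _ _, h1.2.2.2.1, fun x hx => ⟨?_, ?_⟩⟩
      · rw [map_pow, hfu x hx]
      · rw [← hT.det x hx, hfu x hx]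
    · obtain ⟨⟨u, r, h1⟩, hfix⟩ := hB X hXB
      obtain ⟨u, r, h1, hfu⟩ := exists_normN hc hs hT h1 hfix
      obtain ⟨⟨u', r', h1'⟩, hfix'⟩ := hB Y hYB
      obtain ⟨u', r', h1', hfu'⟩ := exists_normN hc hs hT h1' hfix'
      obtain ⟨w, hw, huw, hwu⟩ := exists_inv h1.1 h1.2.2.2.1
      obtain ⟨w', hw', huw', hwu'⟩ := exists_inv h1'.1 h1'.2.2.2.1
      obtain ⟨s, h2⟩ := h1.inv hc hXX hw huw
      obtain ⟨s', h2'⟩ := h1'.inv hc hYY hw' huw'
      have hfw : ∀ x ∈ T, x.1 w = w := by
        intro x hx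
        have h3 : u * x.1 w = 1 := by
          nth_rw 1 [← hfu x hx]
          rw [← map_mul, huw, map_one]
        calc x.1 w = (w * u) * x.1 w := by rw [hwu, one_mul]
          _ = w := by rw [mul_assoc, h3, mul_one]
      have hfw' : ∀ x ∈ T, x.1 w' = w' := by
        intro x hx
        have h3 : u' * x.1 w' = 1 := by
          nth_rw 1 [← hfu' x hx]
          rw [← map_mul, huw', map_one]
        calc x.1 w' = (w' * u') * x.1 w' := by rw [hwu', one_mul]
          _ = w' := by rw [mul_assoc, h3, mul_one]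
      refine ⟨_, _, 1, ((h1.mul hc h1').mul hc h2).mul hc h2', ?_, one_ne_zero, fun x hx => ⟨?_, map_one _⟩⟩
      · rw [map_mul, map_mul, map_mul, one_pow]
        have h3 : LinearMap.det u * LinearMap.det w = 1 := by rw [← map_mul, huw, map_one]
        have h4 : LinearMap.det u' * LinearMap.det w' = 1 := by rw [← map_mul, huw', map_one]
        linear_combination (LinearMap.det u' * LinearMap.det w') * h3 + h4
      · rw [map_mul, map_mul, map_mul, hfu x hx, hfu' x hx, hfw x hx, hfw' x hx]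
  | one =>
    refine ⟨1, 1, 1, PU.one, ?_, one_ne_zero, fun x _ => ⟨map_one _, map_one _⟩⟩
    rw [one_pow, map_one]
  | mul X X' _ _ ih ih' =>
    obtain ⟨u, r, c, h1, hd, hc0, hfix⟩ := ih
    obtain ⟨u', r', c', h1', hd', hc0', hfix'⟩ := ih'
    refine ⟨_, _, c * c', h1.mul hc h1', ?_, mul_ne_zero hc0 hc0', fun x hx => ⟨?_, ?_⟩⟩
    · rw [map_mul, hd, hd', mul_pow]
    · rw [map_mul, (hfix x hx).1, (hfix' x hx).1]
    · rw [map_mul, (hfix x hx).2, (hfix' x hx).2]

end Pool.Agent.H76Y.EN
end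

-- from Lib.PNT.Fejer
section

/-!
# The Fejer kernel and its Fourier transform
-/

open Complex MeasureTheory Filter Topology Set FourierTransform

namespace Pool.Agent.Lib.PNT

/-- The tent function. -/
noncomputable def tent (t : ℝ) : ℝ := max 0 (1 - |t|)

/-- The Fejer kernel, normalised to have integral one. -/
noncomputable def fejer (u : ℝ) : ℝ := (Real.sinc (u / 2)) ^ 2 / (2 * Real.pi)

theorem continuous_tent : Continuous tent := by
  unfold tent; fun_prop

theorem tent_nonneg (t : ℝ) : 0 ≤ tent t := le_max_left _ _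

theorem tent_eq_zero {t : ℝ} (ht : 1 ≤ |t|) : tent t = 0 :=
  max_eq_left (by linarith)

theorem tent_zero : tent 0 = 1 := by simp [tent]

theorem hasCompactSupport_tent : HasCompactSupport tent := by
  refine HasCompactSupport.intro (K := Icc (-1) 1) isCompact_Icc ?_
  intro t ht
  apply tent_eq_zero
  by_contra h
  push Not at h
  exact ht (abs_le.mp h.le)

theorem integrable_tent : Integrable tent :=
  continuous_tent.integrable_of_hasCompactSupport hasCompactSupport_tent

theorem continuous_fejer : Continuous fejer := by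
  unfold fejer
  have := Real.continuous_sinc
  fun_prop

theorem fejer_nonneg (u : ℝ) : 0 ≤ fejer u := by
  unfold fejer
  have := Real.pi_pos
  positivity

theorem fejer_le_one (u : ℝ) : fejer u ≤ 1 := by
  unfold fejer
  have h3 := Real.pi_gt_three
  have h1 : (Real.sinc (u / 2)) ^ 2 ≤ 1 := by
    have := Real.abs_sinc_le_one (u / 2)
    rw [← sq_abs]
    exact pow_le_one₀ (abs_nonneg _) this
  rw [div_le_one (by positivity)]
  linarith

theorem tent_fourier (u : ℝ) :
    ∫ t : ℝ, (tent t : ℂ) * cexp (-(t * u) * I) = ((Real.sinc (u / 2)) ^ 2 : ℝ) := by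
  have h1 : ∫ t : ℝ, (tent t : ℂ) * cexp (-(t * u) * I)
      = ∫ t in (-1 : ℝ)..1, (tent t : ℂ) * cexp (-(t * u) * I) := by
    rw [intervalIntegral.integral_of_le (by norm_num)]
    symm
    apply setIntegral_eq_integral_of_forall_compl_eq_zero
    intro t ht
    have : tent t = 0 := by
      apply tent_eq_zero
      by_contra h
      push Not at h
      rw [abs_lt] at h
      exact ht ⟨h.1, h.2.le⟩
    simp [this]
  have hc : Continuous fun t : ℝ => (tent t : ℂ) * cexp (-(t * u) * I) := by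
    have := continuous_tent
    fun_prop
  have h2 : ∫ t in (-1 : ℝ)..1, (tent t : ℂ) * cexp (-(t * u) * I)
      = (∫ t in (-1 : ℝ)..0, (tent t : ℂ) * cexp (-(t * u) * I))
        + ∫ t in (0 : ℝ)..1, (tent t : ℂ) * cexp (-(t * u) * I) :=
    (intervalIntegral.integral_add_adjacent_intervals (hc.intervalIntegrable _ _)
      (hc.intervalIntegrable _ _)).symm
  have h3 : ∫ t in (-1 : ℝ)..0, (tent t : ℂ) * cexp (-(t * u) * I)
      = ∫ t in (-1 : ℝ)..0, ((1 + t : ℝ) : ℂ) * cexp (-(t * u) * I) := by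
    apply intervalIntegral.integral_congr
    intro t ht
    rw [uIcc_of_le (by norm_num)] at ht
    have : tent t = 1 + t := by
      unfold tent
      rw [abs_of_nonpos ht.2, max_eq_right (by linarith [ht.1])]; ring
    simp only [this]
  have h4 : ∫ t in (0 : ℝ)..1, (tent t : ℂ) * cexp (-(t * u) * I)
      = ∫ t in (0 : ℝ)..1, ((1 - t : ℝ) : ℂ) * cexp (-(t * u) * I) := by
    apply intervalIntegral.integral_congr
    intro t ht
    rw [uIcc_of_le (by norm_num)] at ht
    have : tent t = 1 - t := by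
      unfold tent
      rw [abs_of_nonneg ht.1, max_eq_right (by linarith [ht.2])]
    simp only [this]
  rw [h1, h2, h3, h4]
  rcases eq_or_ne u 0 with rfl | hu
  · simp only [ofReal_zero, mul_zero, neg_zero, zero_mul, Complex.exp_zero, mul_one, zero_div,
      Real.sinc_zero, one_pow, ofReal_one]
    rw [intervalIntegral.integral_ofReal, intervalIntegral.integral_ofReal]
    have e1 : ∫ t in (-1 : ℝ)..0, (1 + t) = 1 / 2 := by
      rw [intervalIntegral.integral_add (by simp) (by simp)]
      simp; norm_num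
    have e2 : ∫ t in (0 : ℝ)..1, (1 - t) = 1 / 2 := by
      rw [intervalIntegral.integral_sub (by simp) (by simp)]
      simp; norm_num
    rw [e1, e2]; norm_num
  · set c : ℂ := -(u * I) with hcdef
    have hc0 : c ≠ 0 := by
      rw [hcdef, neg_ne_zero]
      exact mul_ne_zero (by exact_mod_cast hu) I_ne_zero
    have hexp : ∀ t : ℝ, cexp (-(t * u) * I) = cexp (c * t) := by
      intro t; rw [hcdef]; congr 1; ring
    have hd : ∀ t : ℝ, HasDerivAt (fun t : ℝ => cexp (c * t)) (c * cexp (c * t)) t := by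
      intro t
      have h := ((hasDerivAt_id (t : ℂ)).const_mul c).cexp.comp_ofReal
      simpa [mul_comm] using h
    have hid : ∀ t : ℝ, HasDerivAt (fun t : ℝ => (t : ℂ)) 1 t := fun t =>
      (hasDerivAt_id (t : ℂ)).comp_ofReal
    have e1 : ∫ t in (-1 : ℝ)..0, ((1 + t : ℝ) : ℂ) * cexp (-(t * u) * I)
        = 1 / c - 1 / c ^ 2 + cexp (-c) / c ^ 2 := by
      have hder : ∀ t ∈ uIcc (-1 : ℝ) 0, HasDerivAt
          (fun t : ℝ => (1 + (t : ℂ)) * cexp (c * t) / c - cexp (c * t) / c ^ 2)
          (((1 + t : ℝ) : ℂ) * cexp (-(t * u) * I)) t := by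
        intro t _
        rw [hexp]
        have h := ((((hid t).const_add 1).mul (hd t)).div_const c).sub ((hd t).div_const (c ^ 2))
        convert! h using 1
        push_cast
        field_simp
        ring
      rw [intervalIntegral.integral_eq_sub_of_hasDerivAt hder
        (Continuous.intervalIntegrable (by fun_prop) _ _)]
      simp
    have e2 : ∫ t in (0 : ℝ)..1, ((1 - t : ℝ) : ℂ) * cexp (-(t * u) * I)
        = cexp c / c ^ 2 - 1 / c - 1 / c ^ 2 := by
      have hder : ∀ t ∈ uIcc (0 : ℝ) 1, HasDerivAt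
          (fun t : ℝ => (1 - (t : ℂ)) * cexp (c * t) / c + cexp (c * t) / c ^ 2)
          (((1 - t : ℝ) : ℂ) * cexp (-(t * u) * I)) t := by
        intro t _
        rw [hexp]
        have h := ((((hid t).const_sub 1).mul (hd t)).div_const c).add ((hd t).div_const (c ^ 2))
        convert! h using 1
        push_cast
        field_simp
        ring
      rw [intervalIntegral.integral_eq_sub_of_hasDerivAt hder
        (Continuous.intervalIntegrable (by fun_prop) _ _)]
      simp
      ring
    rw [e1, e2]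
    have hsum : cexp (-c) + cexp c = 2 * (Real.cos u : ℂ) := by
      rw [hcdef, neg_neg]
      rw [ofReal_cos, Complex.cos]
      ring_nf
    have hc2 : c ^ 2 = -((u : ℂ) ^ 2) := by
      rw [hcdef, neg_sq, mul_pow, I_sq]; ring
    have hu' : (u : ℂ) ≠ 0 := by exact_mod_cast hu
    have hs : (Real.sinc (u / 2)) ^ 2 = 2 * (1 - Real.cos u) / u ^ 2 := by
      rw [Real.sinc_of_ne_zero (by simpa using hu), div_pow]
      have : Real.cos u = 1 - 2 * Real.sin (u / 2) ^ 2 := by
        have h := Real.cos_two_mul (u / 2)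
        rw [Real.cos_sq', show 2 * (u / 2) = u by ring] at h
        linarith
      rw [this]
      field_simp
      ring
    have : 1 / c - 1 / c ^ 2 + cexp (-c) / c ^ 2 + (cexp c / c ^ 2 - 1 / c - 1 / c ^ 2)
        = ((cexp (-c) + cexp c) - 2) / c ^ 2 := by ring
    rw [this, hsum, hc2, hs]
    push_cast
    field_simp
    ring

theorem sinc_sq_le (x : ℝ) : (Real.sinc x) ^ 2 ≤ 2 * (1 + x ^ 2)⁻¹ := by
  have h1 : (Real.sinc x) ^ 2 ≤ 1 := by
    have := Real.abs_sinc_le_one x
    rw [← sq_abs]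
    exact pow_le_one₀ (abs_nonneg _) this
  have h2 : x ^ 2 * (Real.sinc x) ^ 2 ≤ 1 := by
    rcases eq_or_ne x 0 with rfl | hx
    · simp
    · rw [Real.sinc_of_ne_zero hx, div_pow]
      have : x ^ 2 * (Real.sin x ^ 2 / x ^ 2) = Real.sin x ^ 2 := by field_simp
      rw [this]
      exact Real.sin_sq_le_one x
  rw [← div_eq_mul_inv, le_div_iff₀ (by positivity)]
  nlinarith

theorem integrable_fejer : Integrable fejer := by
  have h1 : Integrable fun x : ℝ => (1 + x ^ 2)⁻¹ := integrable_inv_one_add_sq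
  have h2 : Integrable fun x : ℝ => (1 + (x / 2) ^ 2)⁻¹ := h1.comp_div (by norm_num)
  refine Integrable.mono' (g := fun x : ℝ => (2 * (1 + (x / 2) ^ 2)⁻¹) / (2 * Real.pi))
    ((h2.const_mul 2).div_const _) continuous_fejer.aestronglyMeasurable ?_
  refine Eventually.of_forall fun x => ?_
  rw [Real.norm_of_nonneg (fejer_nonneg x), fejer]
  exact div_le_div_of_nonneg_right (sinc_sq_le _) (by positivity)

theorem fourier_tent (w : ℝ) : 𝓕 (fun t : ℝ => (tent t : ℂ)) w = ((2 * Real.pi * fejer (2 * Real.pi * w) : ℝ) : ℂ) := by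
  rw [Real.fourier_eq']
  have := tent_fourier (2 * Real.pi * w)
  have hpi := Real.pi_pos
  rw [fejer, mul_div_cancel₀ _ (by positivity), ← this]
  apply integral_congr_ae
  refine Eventually.of_forall fun t => ?_
  simp only [smul_eq_mul]
  rw [mul_comm]
  congr 1
  simp
  ring_nf

theorem integral_fejer : ∫ u, fejer u = 1 := by
  have hpi := Real.pi_pos
  have hF : (𝓕 (fun t : ℝ => (tent t : ℂ)))
      = fun w : ℝ => ((2 * Real.pi * fejer (2 * Real.pi * w) : ℝ) : ℂ) := by
    ext w; exact fourier_tent w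
  have hint : Integrable (𝓕 (fun t : ℝ => (tent t : ℂ))) := by
    rw [hF]
    apply Integrable.ofReal
    exact (integrable_fejer.comp_mul_left' (by positivity : 2 * Real.pi ≠ 0)).const_mul _
  have hinv := Continuous.fourierInv_fourier_eq (f := fun t : ℝ => (tent t : ℂ))
    (by have := continuous_tent; fun_prop) integrable_tent.ofReal hint
  have h0 := congrFun hinv 0
  rw [Real.fourierInv_eq'] at h0
  simp only [inner_zero_right, mul_zero, ofReal_zero, zero_mul, Complex.exp_zero, one_smul,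
    tent_zero, ofReal_one] at h0
  rw [hF] at h0
  beta_reduce at h0
  rw [integral_complex_ofReal] at h0
  have h1 : ∫ w : ℝ, 2 * Real.pi * fejer (2 * Real.pi * w) = 1 := by exact_mod_cast h0
  rw [integral_const_mul, Measure.integral_comp_mul_left] at h1
  rw [abs_of_pos (by positivity), smul_eq_mul, ← mul_assoc, mul_inv_cancel₀ (by positivity),
    one_mul] at h1
  exact h1

/-- Scaled Fejer kernel. -/
noncomputable def fejerS (l u : ℝ) : ℝ := l * fejer (l * u)

/-- Scaled tent. -/
noncomputable def tentS (l t : ℝ) : ℝ := tent (t / l)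

theorem continuous_fejerS (l : ℝ) : Continuous (fejerS l) := by
  unfold fejerS
  have := continuous_fejer
  fun_prop

theorem continuous_tentS (l : ℝ) : Continuous (tentS l) := by
  unfold tentS
  have := continuous_tent
  fun_prop

theorem fejerS_nonneg {l : ℝ} (hl : 0 < l) (u : ℝ) : 0 ≤ fejerS l u :=
  mul_nonneg hl.le (fejer_nonneg _)

theorem fejerS_le {l : ℝ} (hl : 0 < l) (u : ℝ) : fejerS l u ≤ l := by
  unfold fejerS
  have := fejer_le_one (l * u)
  nlinarith

theorem tentS_nonneg (l t : ℝ) : 0 ≤ tentS l t := tent_nonneg _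

theorem tentS_eq_zero {l t : ℝ} (hl : 0 < l) (ht : l ≤ |t|) : tentS l t = 0 := by
  apply tent_eq_zero
  rwa [abs_div, abs_of_pos hl, le_div_iff₀ hl, one_mul]

theorem integrable_tentS {l : ℝ} (hl : 0 < l) : Integrable (tentS l) := by
  unfold tentS
  exact integrable_tent.comp_div hl.ne'

theorem integrable_fejerS {l : ℝ} (hl : 0 < l) : Integrable (fejerS l) := by
  unfold fejerS
  exact (integrable_fejer.comp_mul_left' hl.ne').const_mul _

theorem integral_fejerS {l : ℝ} (hl : 0 < l) : ∫ u, fejerS l u = 1 := by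
  unfold fejerS
  rw [integral_const_mul, Measure.integral_comp_mul_left, integral_fejer, abs_of_pos
    (by positivity), smul_eq_mul, mul_one, mul_inv_cancel₀ hl.ne']

theorem tentS_fourier {l : ℝ} (hl : 0 < l) (u : ℝ) :
    ∫ t : ℝ, (tentS l t : ℂ) * cexp (-(t * u) * I) = ((2 * Real.pi * fejerS l u : ℝ) : ℂ) := by
  have h := tent_fourier (l * u)
  have h2 := Measure.integral_comp_div (fun t : ℝ => (tent t : ℂ) * cexp (-(t * (l * u : ℝ)) * I)) l
  rw [h, abs_of_pos hl] at h2
  have h3 : ∫ t : ℝ, (tentS l t : ℂ) * cexp (-(t * u) * I)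
      = ∫ x : ℝ, (tent (x / l) : ℂ) * cexp (-(((x / l : ℝ) : ℂ) * (l * u : ℝ)) * I) := by
    apply integral_congr_ae
    refine Eventually.of_forall fun t => ?_
    simp only [tentS]
    congr 2
    push_cast
    have : (l : ℂ) ≠ 0 := by exact_mod_cast hl.ne'
    field_simp
  rw [h3, h2, fejerS, fejer]
  have hpi := Real.pi_pos
  rw [real_smul, ← ofReal_mul]
  congr 1
  field_simp

end Pool.Agent.Lib.PNT
end

-- from Lib.PNT.WienerIkehara
section

/-!
# The Wiener-Ikehara theorem, Laplace transform form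
-/

open Complex MeasureTheory Filter Topology Set

namespace Pool.Agent.Lib.PNT

/-- Hypotheses of the Wiener-Ikehara theorem in Laplace form. -/
structure WIData (α : ℝ → ℝ) (A : ℝ) (H : ℂ → ℂ) : Prop where
  mono : MonotoneOn α (Ici 0)
  nonneg : ∀ u, 0 ≤ u → 0 ≤ α u
  int : ∀ σ : ℝ, 1 < σ → IntegrableOn (fun u => α u * Real.exp (-(σ * u))) (Ioi 0)
  cont : ContinuousOn H {s | 1 ≤ s.re}
  lap : ∀ s : ℂ, 1 < s.re →
    ∫ u in Ioi (0 : ℝ), (α u : ℂ) * cexp (-(s * u)) = H s + A / (s - 1)

/-- The damped difference. -/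
noncomputable def wiG (α : ℝ → ℝ) (A δ u : ℝ) : ℝ :=
  (α u * Real.exp (-u) - A) * Real.exp (-(δ * u))

variable {α : ℝ → ℝ} {A : ℝ} {H : ℂ → ℂ}

theorem WIData.integrable_exp {δ : ℝ} (hδ : 0 < δ) :
    IntegrableOn (fun u : ℝ => Real.exp (-(δ * u))) (Ioi 0) := by
  have := integrableOn_exp_mul_Ioi (a := -δ) (by linarith) 0
  refine this.congr_fun (fun u _ => ?_) measurableSet_Ioi
  simp

theorem WIData.integrable_damped (h : WIData α A H) {δ : ℝ} (hδ : 0 < δ) :
    IntegrableOn (fun u : ℝ => α u * Real.exp (-u) * Real.exp (-(δ * u))) (Ioi 0) := by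
  refine (h.int (1 + δ) (by linarith)).congr_fun (fun u _ => ?_) measurableSet_Ioi
  simp only []
  rw [mul_assoc, ← Real.exp_add]
  ring_nf

theorem WIData.integrable_g (h : WIData α A H) {δ : ℝ} (hδ : 0 < δ) :
    IntegrableOn (wiG α A δ) (Ioi 0) := by
  have h1 := h.integrable_damped hδ
  have h2 := (WIData.integrable_exp hδ).const_mul A
  refine (h1.sub h2).congr (Eventually.of_forall fun u => ?_)
  simp only [wiG, Pi.sub_apply]
  ring

theorem WIData.lap' (h : WIData α A H) {δ : ℝ} (hδ : 0 < δ) (t : ℝ) :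
    ∫ u in Ioi (0 : ℝ), (wiG α A δ u : ℂ) * cexp (-(t * u) * I) = H (1 + δ + t * I) := by
  have hs : 1 < (1 + δ + t * I : ℂ).re := by simp [hδ]
  have h1 := h.lap _ hs
  have hre : (-(δ + t * I) : ℂ).re < 0 := by simp [hδ]
  have hint1 : IntegrableOn (fun u : ℝ => (α u : ℂ) * cexp (-((1 + δ + t * I) * u))) (Ioi 0) := by
    have hi := (h.int (1 + δ) (by linarith)).ofReal (𝕜 := ℂ)
    have := hi.mul_bdd (g := fun u : ℝ => cexp (-(t * u) * I)) (c := 1)
      (by fun_prop) (Eventually.of_forall fun u => by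
        rw [show (-(t * u : ℂ) * I) = ((-(t * u) : ℝ) : ℂ) * I by push_cast; ring]
        rw [Complex.norm_exp_ofReal_mul_I])
    refine Integrable.congr this (Eventually.of_forall fun u => ?_)
    simp only [coe_algebraMap]
    push_cast
    rw [mul_assoc, ← Complex.exp_add]
    congr 2
    ring
  have hint2 : IntegrableOn (fun u : ℝ => cexp (-(δ + t * I) * u)) (Ioi 0) :=
    integrableOn_exp_mul_complex_Ioi hre 0
  have h2 := integral_exp_mul_complex_Ioi hre 0
  have h3 : ∫ u in Ioi (0 : ℝ), (wiG α A δ u : ℂ) * cexp (-(t * u) * I)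
      = ∫ u in Ioi (0 : ℝ), ((α u : ℂ) * cexp (-((1 + δ + t * I) * u))
        - A * cexp (-(δ + t * I) * u)) := by
    apply integral_congr_ae
    refine Eventually.of_forall fun u => ?_
    simp only [wiG]
    push_cast
    have e1 : cexp (-((1 + δ + t * I) * u)) = cexp (-(u : ℂ)) * cexp (-(δ * u)) * cexp (-(t * u) * I) := by
      rw [← Complex.exp_add, ← Complex.exp_add]; congr 1; ring
    have e2 : cexp (-(δ + t * I) * u) = cexp (-(δ * u)) * cexp (-(t * u) * I) := by
      rw [← Complex.exp_add]; congr 1; ring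
    rw [e1, e2]
    ring
  rw [h3, integral_sub hint1 (hint2.const_mul _), h1, integral_const_mul, h2]
  have hne : (δ + t * I : ℂ) ≠ 0 := by
    intro h0
    rw [h0] at hre
    simp at hre
  rw [show (1 + δ + t * I - 1 : ℂ) = δ + t * I by ring]
  simp only [ofReal_zero, mul_zero, Complex.exp_zero]
  field_simp
  ring

theorem WIData.fub (h : WIData α A H) {l : ℝ} (hl : 0 < l) {δ : ℝ} (hδ : 0 < δ) (y : ℝ) :
    ∫ t : ℝ, (tentS l t : ℂ) * cexp (t * y * I) * H (1 + δ + t * I)
      = ((∫ u in Ioi (0 : ℝ), wiG α A δ u * (2 * Real.pi * fejerS l (u - y)) : ℝ) : ℂ) := by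
  have hint : Integrable (Function.uncurry fun (t : ℝ) (u : ℝ) =>
      ((tentS l t : ℂ) * (wiG α A δ u : ℂ)) * cexp (-(t * (u - y)) * I))
      ((volume : Measure ℝ).prod (volume.restrict (Ioi (0 : ℝ)))) := by
    have h1 := Integrable.mul_prod ((integrable_tentS hl).ofReal (𝕜 := ℂ))
      ((h.integrable_g hδ).ofReal (𝕜 := ℂ))
    have := h1.mul_bdd (g := fun z : ℝ × ℝ => cexp (-(z.1 * (z.2 - y)) * I)) (c := 1)
      (by fun_prop) (Eventually.of_forall fun z => by
        rw [show (-(z.1 * (z.2 - y) : ℂ) * I) = ((-(z.1 * (z.2 - y)) : ℝ) : ℂ) * I by push_cast; ring]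
        rw [Complex.norm_exp_ofReal_mul_I])
    exact this
  have key := integral_integral_swap hint
  have e1 : ∫ t : ℝ, (tentS l t : ℂ) * cexp (t * y * I) * H (1 + δ + t * I)
      = ∫ t : ℝ, ∫ u in Ioi (0 : ℝ),
        ((tentS l t : ℂ) * (wiG α A δ u : ℂ)) * cexp (-(t * (u - y)) * I) := by
    apply integral_congr_ae
    refine Eventually.of_forall fun t => ?_
    simp only []
    rw [← h.lap' hδ t, ← integral_const_mul]
    apply integral_congr_ae
    refine Eventually.of_forall fun u => ?_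
    simp only []
    have : cexp (-(t * (u - y)) * I) = cexp (t * y * I) * cexp (-(t * u) * I) := by
      rw [← Complex.exp_add]; congr 1; ring
    rw [this]; ring
  have e2 : ∫ u in Ioi (0 : ℝ), ∫ t : ℝ,
        ((tentS l t : ℂ) * (wiG α A δ u : ℂ)) * cexp (-(t * (u - y)) * I)
      = ((∫ u in Ioi (0 : ℝ), wiG α A δ u * (2 * Real.pi * fejerS l (u - y)) : ℝ) : ℂ) := by
    rw [← integral_complex_ofReal]
    apply integral_congr_ae
    refine Eventually.of_forall fun u => ?_
    simp only []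
    rw [ofReal_mul, ← tentS_fourier hl, ← integral_const_mul]
    apply integral_congr_ae
    refine Eventually.of_forall fun t => ?_
    simp only []
    push_cast
    ring
  rw [e1, key, e2]

/-- The smoothed damped function. -/
noncomputable def wiJ (α : ℝ → ℝ) (l δ y : ℝ) : ℝ :=
  ∫ u in Ioi (0 : ℝ), α u * Real.exp (-u) * Real.exp (-(δ * u)) * fejerS l (u - y)

/-- The limit of the smoothed damped function. -/
noncomputable def wiL (A : ℝ) (H : ℂ → ℂ) (l y : ℝ) : ℝ :=
  A * (∫ u in Ioi (0 : ℝ), fejerS l (u - y))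
    + (1 / (2 * Real.pi)) * (∫ t : ℝ, (tentS l t : ℂ) * cexp (t * y * I) * H (1 + t * I)).re

theorem integrable_shift {l : ℝ} (hl : 0 < l) (y : ℝ) :
    Integrable fun u : ℝ => fejerS l (u - y) :=
  (integrable_fejerS hl).comp_sub_right y

theorem WIData.integrable_J (h : WIData α A H) {l : ℝ} (hl : 0 < l) {δ : ℝ} (hδ : 0 < δ) (y : ℝ) :
    IntegrableOn (fun u : ℝ => α u * Real.exp (-u) * Real.exp (-(δ * u)) * fejerS l (u - y))
      (Ioi 0) := by
  refine (h.integrable_damped hδ).mul_bdd (c := l) ?_ (Eventually.of_forall fun u => ?_)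
  · have := continuous_fejerS l
    fun_prop
  · rw [Real.norm_of_nonneg (fejerS_nonneg hl _)]
    exact fejerS_le hl _

theorem WIData.J_eq (h : WIData α A H) {l : ℝ} (hl : 0 < l) {δ : ℝ} (hδ : 0 < δ) (y : ℝ) :
    wiJ α l δ y = A * (∫ u in Ioi (0 : ℝ), Real.exp (-(δ * u)) * fejerS l (u - y))
      + (1 / (2 * Real.pi)) *
        (∫ t : ℝ, (tentS l t : ℂ) * cexp (t * y * I) * H (1 + δ + t * I)).re := by
  have hpi := Real.pi_pos
  rw [h.fub hl hδ y, ofReal_re]
  have h1 := h.integrable_J hl hδ y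
  have h2 : IntegrableOn (fun u : ℝ => Real.exp (-(δ * u)) * fejerS l (u - y)) (Ioi 0) := by
    refine (WIData.integrable_exp hδ).mul_bdd (c := l) ?_ (Eventually.of_forall fun u => ?_)
    · have := continuous_fejerS l
      fun_prop
    · rw [Real.norm_of_nonneg (fejerS_nonneg hl _)]
      exact fejerS_le hl _
  have h3 : ∫ u in Ioi (0 : ℝ), wiG α A δ u * (2 * Real.pi * fejerS l (u - y))
      = 2 * Real.pi * (wiJ α l δ y
        - A * (∫ u in Ioi (0 : ℝ), Real.exp (-(δ * u)) * fejerS l (u - y))) := by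
    unfold wiJ
    rw [← integral_const_mul, ← integral_sub h1 (h2.const_mul A), ← integral_const_mul]
    apply integral_congr_ae
    refine Eventually.of_forall fun u => ?_
    simp only [wiG]
    ring
  rw [h3]
  field_simp
  ring

theorem WIData.tendsto_J (h : WIData α A H) {l : ℝ} (hl : 0 < l) (y : ℝ) :
    Tendsto (fun δ => wiJ α l δ y) (𝓝[>] 0) (𝓝 (wiL A H l y)) := by
  have hpi := Real.pi_pos
  have hA : Tendsto (fun δ : ℝ => ∫ u in Ioi (0 : ℝ), Real.exp (-(δ * u)) * fejerS l (u - y))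
      (𝓝[>] 0) (𝓝 (∫ u in Ioi (0 : ℝ), fejerS l (u - y))) := by
    apply tendsto_integral_filter_of_dominated_convergence (fun u => fejerS l (u - y))
    · refine Eventually.of_forall fun δ => ?_
      have := continuous_fejerS l
      exact Continuous.aestronglyMeasurable (by fun_prop)
    · filter_upwards [self_mem_nhdsWithin] with δ hδ
      filter_upwards [ae_restrict_mem measurableSet_Ioi] with u hu
      have hδ' : 0 < δ := hδ
      have hu' : 0 < u := hu
      rw [norm_mul, Real.norm_of_nonneg (fejerS_nonneg hl _), Real.norm_of_nonneg (Real.exp_pos _).le]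
      have : Real.exp (-(δ * u)) ≤ 1 := by
        rw [Real.exp_le_one_iff]
        have := mul_pos hδ' hu'
        linarith
      exact mul_le_of_le_one_left (fejerS_nonneg hl _) this
    · exact (integrable_shift hl y).integrableOn
    · refine Eventually.of_forall fun u => ?_
      have : Continuous fun δ : ℝ => Real.exp (-(δ * u)) * fejerS l (u - y) := by fun_prop
      have h0 := (this.tendsto 0).mono_left (nhdsWithin_le_nhds (s := Ioi (0 : ℝ)))
      simpa using h0
  have hB : Tendsto (fun δ : ℝ => ∫ t : ℝ, (tentS l t : ℂ) * cexp (t * y * I) * H (1 + δ + t * I))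
      (𝓝[>] 0) (𝓝 (∫ t : ℝ, (tentS l t : ℂ) * cexp (t * y * I) * H (1 + t * I))) := by
    have hcomp : IsCompact (Icc (1 : ℝ) 2 ×ℂ Icc (-l) l) := isCompact_Icc.reProdIm isCompact_Icc
    have hsub : (Icc (1 : ℝ) 2 ×ℂ Icc (-l) l) ⊆ {s : ℂ | 1 ≤ s.re} := by
      intro s hs
      exact (Complex.mem_reProdIm.mp hs).1.1
    obtain ⟨C, hC⟩ := hcomp.exists_bound_of_continuousOn (h.cont.mono hsub)
    have hcont : ∀ δ : ℝ, 0 ≤ δ → Continuous fun t : ℝ => H (1 + δ + t * I) := by
      intro δ hδ
      apply h.cont.comp_continuous (by fun_prop)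
      intro t
      simp [hδ]
    apply tendsto_integral_filter_of_dominated_convergence (fun t => C * tentS l t)
    · filter_upwards [self_mem_nhdsWithin] with δ hδ
      have h1 := hcont δ (le_of_lt hδ)
      have h2 := continuous_tentS l
      refine Continuous.aestronglyMeasurable (Continuous.mul ?_ h1)
      fun_prop
    · have hmem : Ioo (0 : ℝ) 1 ∈ 𝓝[>] (0 : ℝ) := Ioo_mem_nhdsGT one_pos
      filter_upwards [hmem] with δ hδ
      refine Eventually.of_forall fun t => ?_
      rw [norm_mul, norm_mul, show ((t : ℂ) * y * I) = ((t * y : ℝ) : ℂ) * I by push_cast; ring,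
        Complex.norm_exp_ofReal_mul_I, mul_one, Complex.norm_real,
        Real.norm_of_nonneg (tentS_nonneg _ _), mul_comm]
      rcases le_or_gt l |t| with ht | ht
      · rw [tentS_eq_zero hl ht]; simp
      · apply mul_le_mul_of_nonneg_right _ (tentS_nonneg _ _)
        apply hC
        rw [Complex.mem_reProdIm]
        rw [abs_lt] at ht
        simp only [add_re, one_re, ofReal_re, mul_re, I_re, mul_zero, ofReal_im, I_im, mul_one,
          sub_self, add_zero, add_im, one_im, mul_im, zero_add, mem_Icc]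
        exact ⟨⟨by linarith [hδ.1], by linarith [hδ.2]⟩, ht.1.le, ht.2.le⟩
    · exact (integrable_tentS hl).const_mul C
    · refine Eventually.of_forall fun t => ?_
      apply Tendsto.const_mul
      have hc := h.cont (1 + t * I) (by simp)
      refine Tendsto.comp hc ?_
      rw [tendsto_nhdsWithin_iff]
      constructor
      · have : Continuous fun δ : ℝ => (1 + δ + t * I : ℂ) := by fun_prop
        have h0 := (this.tendsto 0).mono_left (nhdsWithin_le_nhds (s := Ioi (0 : ℝ)))
        simpa using h0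
      · filter_upwards [self_mem_nhdsWithin] with δ hδ
        have hδ' : 0 < δ := hδ
        simp [hδ'.le]
  have hsum := (hA.const_mul A).add (((continuous_re.tendsto _).comp hB).const_mul (1 / (2 * Real.pi)))
  refine Tendsto.congr' ?_ hsum
  filter_upwards [self_mem_nhdsWithin] with δ hδ
  rw [h.J_eq hl hδ y]
  rfl

theorem WIData.tendsto_L (_h : WIData α A H) {l : ℝ} (hl : 0 < l) :
    Tendsto (wiL A H l) atTop (𝓝 A) := by
  have hA : Tendsto (fun y : ℝ => ∫ u in Ioi (0 : ℝ), fejerS l (u - y)) atTop (𝓝 1) := by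
    have h1 : ∀ y : ℝ, ∫ u in Ioi (0 : ℝ), fejerS l (u - y) = ∫ v in Ioi (-y), fejerS l v := by
      intro y
      rw [← integral_indicator measurableSet_Ioi, ← integral_indicator measurableSet_Ioi,
        ← integral_sub_right_eq_self (fun v => (Ioi (-y)).indicator (fejerS l) v) y]
      apply integral_congr_ae
      refine Eventually.of_forall fun u => ?_
      simp only [indicator, mem_Ioi]
      by_cases hu : 0 < u
      · rw [if_pos hu, if_pos (by linarith)]
      · rw [if_neg hu, if_neg (by intro h; exact hu (by linarith))]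
    simp_rw [h1]
    have hc : AECover (volume : Measure ℝ) atTop (fun y : ℝ => Ioi (-y)) :=
      aecover_Ioi tendsto_neg_atTop_atBot
    have := hc.integral_tendsto_of_countably_generated (integrable_fejerS hl)
    rwa [integral_fejerS hl] at this
  have hB : Tendsto (fun y : ℝ => ∫ t : ℝ, (tentS l t : ℂ) * cexp (t * y * I) * H (1 + t * I))
      atTop (𝓝 0) := by
    have hRL := Real.tendsto_integral_exp_smul_cocompact
      (fun t : ℝ => (tentS l t : ℂ) * H (1 + t * I))
    have hy : Tendsto (fun y : ℝ => -(y / (2 * Real.pi))) atTop (cocompact ℝ) := by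
      have h1 : Tendsto (fun y : ℝ => -(y / (2 * Real.pi))) atTop atBot :=
        tendsto_neg_atTop_atBot.comp (tendsto_id.atTop_div_const (by positivity))
      exact h1.mono_right atBot_le_cocompact
    refine (hRL.comp hy).congr fun y => ?_
    simp only [Function.comp]
    apply integral_congr_ae
    refine Eventually.of_forall fun t => ?_
    simp only [Real.fourierChar_apply, Circle.smul_def, smul_eq_mul]
    have hpi := Real.pi_pos
    have : ((2 * Real.pi * (-(t * -(y / (2 * Real.pi)))) : ℝ) : ℂ) * I = t * y * I := by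
      push_cast
      have : (Real.pi : ℂ) ≠ 0 := by exact_mod_cast hpi.ne'
      field_simp
    rw [this]
    ring
  have hsum := (hA.const_mul A).add (((continuous_re.tendsto _).comp hB).const_mul (1 / (2 * Real.pi)))
  simp only [zero_re, mul_zero, add_zero, mul_one] at hsum
  exact hsum

/-- Mass of the kernel on `[-η, η]`. -/
noncomputable def wiP (l η : ℝ) : ℝ := ∫ u in (-η)..η, fejerS l u

theorem tendsto_P {η : ℝ} (hη : 0 < η) : Tendsto (fun l => wiP l η) atTop (𝓝 1) := by
  have h1 : ∀ l, wiP l η = ∫ u in (l * (-η))..(l * η), fejer u := by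
    intro l
    unfold wiP fejerS
    rw [intervalIntegral.integral_const_mul, intervalIntegral.mul_integral_comp_mul_left]
  simp_rw [h1]
  rw [← integral_fejer]
  apply intervalIntegral_tendsto_integral integrable_fejer
  · exact tendsto_id.atTop_mul_const_of_neg (by linarith)
  · exact tendsto_id.atTop_mul_const hη

theorem wiP_le_one {l η : ℝ} (hl : 0 < l) (hη : 0 < η) : wiP l η ≤ 1 := by
  unfold wiP
  rw [intervalIntegral.integral_of_le (by linarith), ← integral_fejerS hl]
  exact setIntegral_le_integral (integrable_fejerS hl)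
    (Eventually.of_forall fun u => fejerS_nonneg hl u)

theorem wiP_shift (l η y : ℝ) (hη : 0 < η) :
    ∫ u in Ioc (y - η) (y + η), fejerS l (u - y) = wiP l η := by
  rw [← intervalIntegral.integral_of_le (by linarith), intervalIntegral.integral_comp_sub_right]
  unfold wiP
  congr 1 <;> ring

theorem WIData.upper (h : WIData α A H) {l η y : ℝ} (hl : 0 < l) (hη : 0 < η) (hy : η ≤ y) :
    α (y - η) * Real.exp (-(y + η)) * wiP l η ≤ wiL A H l y := by
  have h0 : 0 ≤ α (y - η) := h.nonneg _ (by linarith)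
  have h1 : ∀ δ > 0, α (y - η) * Real.exp (-(y + η)) * Real.exp (-(δ * (y + η))) * wiP l η
      ≤ wiJ α l δ y := by
    intro δ hδ
    have hint := h.integrable_J hl hδ y
    have hsub : Ioc (y - η) (y + η) ⊆ Ioi 0 := fun u hu => lt_of_le_of_lt (by linarith) hu.1
    have h2 : ∫ u in Ioc (y - η) (y + η),
        α u * Real.exp (-u) * Real.exp (-(δ * u)) * fejerS l (u - y) ≤ wiJ α l δ y := by
      unfold wiJ
      apply setIntegral_mono_set hint
      · filter_upwards [ae_restrict_mem measurableSet_Ioi] with u hu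
        have hu' : (0 : ℝ) < u := hu
        have h3 := h.nonneg u hu'.le
        have h4 := fejerS_nonneg hl (u - y)
        simp only [Pi.zero_apply]
        positivity
      · exact hsub.eventuallyLE
    refine le_trans ?_ h2
    rw [← wiP_shift l η y hη, ← integral_const_mul]
    apply setIntegral_mono_on ((integrable_shift hl y).integrableOn.const_mul _)
      (hint.mono_set hsub) measurableSet_Ioc
    intro u hu
    have hu0 : 0 < u := hsub hu
    apply mul_le_mul_of_nonneg_right _ (fejerS_nonneg hl _)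
    have hm : α (y - η) ≤ α u := h.mono (by simp only [mem_Ici]; linarith) hu0.le hu.1.le
    have he : Real.exp (-(y + η)) ≤ Real.exp (-u) := Real.exp_le_exp.mpr (by linarith [hu.2])
    have he2 : Real.exp (-(δ * (y + η))) ≤ Real.exp (-(δ * u)) := by
      apply Real.exp_le_exp.mpr
      have := mul_le_mul_of_nonneg_left hu.2 hδ.le
      linarith
    have h3 := h.nonneg u hu0.le
    gcongr
  have h2 : Tendsto (fun δ : ℝ => α (y - η) * Real.exp (-(y + η)) * Real.exp (-(δ * (y + η)))
      * wiP l η) (𝓝[>] 0) (𝓝 (α (y - η) * Real.exp (-(y + η)) * wiP l η)) := by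
    have : Continuous fun δ : ℝ => α (y - η) * Real.exp (-(y + η)) * Real.exp (-(δ * (y + η)))
      * wiP l η := by fun_prop
    have h0 := (this.tendsto 0).mono_left (nhdsWithin_le_nhds (s := Ioi (0 : ℝ)))
    simpa using h0
  refine le_of_tendsto_of_tendsto h2 (h.tendsto_J hl y) ?_
  filter_upwards [self_mem_nhdsWithin] with δ hδ
  exact h1 δ hδ

theorem WIData.lower (h : WIData α A H) {l η y M : ℝ} (hl : 0 < l) (hη : 0 < η) (hy : η ≤ y)
    (hM : ∀ u, 0 ≤ u → α u * Real.exp (-u) ≤ M) :
    wiL A H l y ≤ α (y + η) * Real.exp (-(y - η)) * wiP l η + M * (1 - wiP l η) := by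
  have h0 : 0 ≤ α (y + η) := h.nonneg _ (by linarith)
  have hM0 : 0 ≤ M := le_trans (mul_nonneg (h.nonneg 0 le_rfl) (Real.exp_pos _).le) (hM 0 le_rfl)
  set c : ℝ := α (y + η) * Real.exp (-(y - η)) with hc
  have hc0 : 0 ≤ c := mul_nonneg h0 (Real.exp_pos _).le
  have h1 : ∀ δ > 0, wiJ α l δ y ≤ c * wiP l η + M * (1 - wiP l η) := by
    intro δ hδ
    have hint := h.integrable_J hl hδ y
    set Bd : ℝ → ℝ := fun u => M * fejerS l (u - y)
      + (Ioc (y - η) (y + η)).indicator (fun u => (c - M) * fejerS l (u - y)) u with hBd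
    have hi1 : Integrable fun u => M * fejerS l (u - y) := (integrable_shift hl y).const_mul M
    have hi2 : Integrable ((Ioc (y - η) (y + η)).indicator
        (fun u => (c - M) * fejerS l (u - y))) :=
      ((integrable_shift hl y).const_mul _).indicator measurableSet_Ioc
    have hBdi : Integrable Bd := hi1.add hi2
    have hBd_eq : ∀ u, Bd u = (if u ∈ Ioc (y - η) (y + η) then c else M) * fejerS l (u - y) := by
      intro u
      simp only [hBd, indicator]
      split_ifs
      · ring
      · ring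
    have hBd0 : ∀ u, 0 ≤ Bd u := by
      intro u
      rw [hBd_eq]
      apply mul_nonneg _ (fejerS_nonneg hl _)
      split_ifs
      · exact hc0
      · exact hM0
    have h2 : wiJ α l δ y ≤ ∫ u in Ioi (0 : ℝ), Bd u := by
      unfold wiJ
      apply setIntegral_mono_on hint hBdi.integrableOn measurableSet_Ioi
      intro u hu
      have hu0 : (0 : ℝ) < u := hu
      have h3 := h.nonneg u hu0.le
      rw [hBd_eq]
      apply mul_le_mul_of_nonneg_right _ (fejerS_nonneg hl _)
      have he : Real.exp (-(δ * u)) ≤ 1 := by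
        rw [Real.exp_le_one_iff]
        have := mul_pos hδ hu0
        linarith
      have hle : α u * Real.exp (-u) * Real.exp (-(δ * u)) ≤ α u * Real.exp (-u) :=
        mul_le_of_le_one_right (by positivity) he
      refine hle.trans ?_
      split_ifs with hu1
      · rw [hc]
        have hm : α u ≤ α (y + η) := h.mono hu0.le (by simp only [mem_Ici]; linarith) hu1.2
        have he : Real.exp (-u) ≤ Real.exp (-(y - η)) := Real.exp_le_exp.mpr (by linarith [hu1.1])
        gcongr
      · exact hM u hu0.le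
    have h3 : ∫ u in Ioi (0 : ℝ), Bd u ≤ ∫ u, Bd u :=
      setIntegral_le_integral hBdi (Eventually.of_forall hBd0)
    have h4 : ∫ u, Bd u = c * wiP l η + M * (1 - wiP l η) := by
      rw [hBd, integral_add hi1 hi2, integral_indicator measurableSet_Ioc, integral_const_mul,
        integral_const_mul, wiP_shift l η y hη,
        integral_sub_right_eq_self (fun v => fejerS l v) y, integral_fejerS hl]
      ring
    linarith
  refine le_of_tendsto (h.tendsto_J hl y) ?_
  filter_upwards [self_mem_nhdsWithin] with δ hδ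
  exact h1 δ hδ

theorem WIData.A_nonneg (h : WIData α A H) : 0 ≤ A := by
  have hP : ∃ l : ℝ, 0 < l ∧ 0 < wiP l 1 := by
    have h1 := (tendsto_P one_pos).eventually (lt_mem_nhds (show (0 : ℝ) < 1 by norm_num))
    obtain ⟨l, hl, hl2⟩ := (h1.and (eventually_gt_atTop 0)).exists
    exact ⟨l, hl2, hl⟩
  obtain ⟨l, hl, hP⟩ := hP
  refine ge_of_tendsto (h.tendsto_L hl) ?_
  filter_upwards [eventually_ge_atTop (1 : ℝ)] with y hy
  refine le_trans ?_ (h.upper hl one_pos hy)
  have := h.nonneg (y - 1) (by linarith)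
  positivity

theorem WIData.exists_bound (h : WIData α A H) :
    ∃ M, ∀ u, 0 ≤ u → α u * Real.exp (-u) ≤ M := by
  have hP : ∃ l : ℝ, 0 < l ∧ 1 / 2 < wiP l 1 := by
    have h1 := (tendsto_P one_pos).eventually (lt_mem_nhds (show (1 / 2 : ℝ) < 1 by norm_num))
    obtain ⟨l, hl, hl2⟩ := (h1.and (eventually_gt_atTop 0)).exists
    exact ⟨l, hl2, hl⟩
  obtain ⟨l, hl, hP⟩ := hP
  have hL := (h.tendsto_L hl).eventually (gt_mem_nhds (show A < A + 1 by linarith))
  obtain ⟨Y, hY⟩ := eventually_atTop.mp hL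
  set U := max Y 0 with hU
  refine ⟨max (α U) (2 * Real.exp 2 * (A + 1)), fun u hu => ?_⟩
  rcases le_or_gt u U with h1 | h1
  · apply le_max_of_le_left
    have h2 : α u ≤ α U := h.mono hu (by simp [hU]) h1
    have h3 : Real.exp (-u) ≤ 1 := by rw [Real.exp_le_one_iff]; linarith
    calc α u * Real.exp (-u) ≤ α u := mul_le_of_le_one_right (h.nonneg u hu) h3
      _ ≤ α U := h2
  · apply le_max_of_le_right
    have hyY : Y ≤ u + 1 := by
      have := le_max_left Y 0
      linarith
    have h2 := h.upper hl one_pos (y := u + 1) (by linarith)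
    have h3 := hY (u + 1) hyY
    rw [show u + 1 - 1 = u by ring, show -(u + 1 + 1) = -u + -2 by ring, Real.exp_add] at h2
    have h4 := h.nonneg u hu
    have h5 : 0 ≤ α u * (Real.exp (-u) * Real.exp (-2)) := by positivity
    have h6 : α u * (Real.exp (-u) * Real.exp (-2)) * (1 / 2) ≤ A + 1 := by
      calc α u * (Real.exp (-u) * Real.exp (-2)) * (1 / 2)
          ≤ α u * (Real.exp (-u) * Real.exp (-2)) * wiP l 1 := by gcongr
        _ ≤ A + 1 := by linarith
    have h7 : Real.exp 2 * Real.exp (-2) = 1 := by rw [← Real.exp_add]; simp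
    calc α u * Real.exp (-u) = 2 * Real.exp 2 * (α u * (Real.exp (-u) * Real.exp (-2)) * (1 / 2)) := by
          linear_combination (-(α u * Real.exp (-u))) * h7
      _ ≤ 2 * Real.exp 2 * (A + 1) := by gcongr

/-- **Wiener-Ikehara theorem**, Laplace transform form. -/
theorem WIData.tendsto (h : WIData α A H) :
    Tendsto (fun u => α u * Real.exp (-u)) atTop (𝓝 A) := by
  have hA := h.A_nonneg
  obtain ⟨M, hM⟩ := h.exists_bound
  have hM0 : 0 ≤ M := le_trans (mul_nonneg (h.nonneg 0 le_rfl) (Real.exp_pos _).le) (hM 0 le_rfl)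
  rw [tendsto_order]
  constructor
  · intro a ha
    have hc : Continuous fun η : ℝ => Real.exp (-(2 * η)) * (A - η - M * η) := by fun_prop
    have h1 : ∀ᶠ η in 𝓝[>] (0 : ℝ), a < Real.exp (-(2 * η)) * (A - η - M * η) := by
      have := (hc.tendsto 0).mono_left (nhdsWithin_le_nhds (s := Ioi (0 : ℝ)))
      simp only [mul_zero, neg_zero, Real.exp_zero, sub_zero, one_mul] at this
      exact this.eventually (lt_mem_nhds ha)
    obtain ⟨η, hη1, hη2⟩ := (h1.and (Ioo_mem_nhdsGT (show (0 : ℝ) < 1 by norm_num))).exists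
    have hP := (tendsto_P hη2.1).eventually (lt_mem_nhds (show 1 - η < 1 by linarith [hη2.1]))
    obtain ⟨l, hPl, hl⟩ := (hP.and (eventually_gt_atTop 0)).exists
    have hL := (h.tendsto_L hl).eventually (lt_mem_nhds (show A - η < A by linarith [hη2.1]))
    obtain ⟨Y, hY⟩ := eventually_atTop.mp hL
    filter_upwards [eventually_ge_atTop (max Y 0 + 2)] with u hu
    have hY0 := le_max_left Y 0
    have hY1 := le_max_right Y 0
    have h2 := hY (u - η) (by linarith [hη2.2])
    have h3 := h.lower hl hη2.1 (y := u - η) (by linarith [hη2.2]) hM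
    rw [show u - η + η = u by ring, show -(u - η - η) = -u + 2 * η by ring, Real.exp_add] at h3
    have hP1 := wiP_le_one hl hη2.1
    have hu0 : 0 ≤ α u := h.nonneg u (by linarith)
    have h4 : α u * (Real.exp (-u) * Real.exp (2 * η)) * wiP l η
        ≤ α u * Real.exp (-u) * Real.exp (2 * η) := by
      rw [← mul_assoc]
      exact mul_le_of_le_one_right (by positivity) hP1
    have h5 : M * (1 - wiP l η) ≤ M * η := by
      apply mul_le_mul_of_nonneg_left _ hM0
      linarith
    have h6 : A - η - M * η ≤ α u * Real.exp (-u) * Real.exp (2 * η) := by linarith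
    have h7 : Real.exp (-(2 * η)) * Real.exp (2 * η) = 1 := by rw [← Real.exp_add]; simp
    calc a < Real.exp (-(2 * η)) * (A - η - M * η) := hη1
      _ ≤ Real.exp (-(2 * η)) * (α u * Real.exp (-u) * Real.exp (2 * η)) := by gcongr
      _ = α u * Real.exp (-u) := by linear_combination (α u * Real.exp (-u)) * h7
  · intro a ha
    have hc : ContinuousAt (fun η : ℝ => Real.exp (2 * η) * (A + η) / (1 - η)) 0 := by
      apply ContinuousAt.div (by fun_prop) (by fun_prop) (by norm_num)
    have h1 : ∀ᶠ η in 𝓝[>] (0 : ℝ), Real.exp (2 * η) * (A + η) / (1 - η) < a := by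
      have := hc.tendsto.mono_left (nhdsWithin_le_nhds (s := Ioi (0 : ℝ)))
      simp only [mul_zero, Real.exp_zero, sub_zero, one_mul, add_zero, div_one] at this
      exact this.eventually (gt_mem_nhds ha)
    obtain ⟨η, hη1, hη2⟩ := (h1.and (Ioo_mem_nhdsGT (show (0 : ℝ) < 1 by norm_num))).exists
    have hP := (tendsto_P hη2.1).eventually (lt_mem_nhds (show 1 - η < 1 by linarith [hη2.1]))
    obtain ⟨l, hPl, hl⟩ := (hP.and (eventually_gt_atTop 0)).exists
    have hL := (h.tendsto_L hl).eventually (gt_mem_nhds (show A < A + η by linarith [hη2.1]))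
    obtain ⟨Y, hY⟩ := eventually_atTop.mp hL
    filter_upwards [eventually_ge_atTop (max Y 0)] with u hu
    have hY0 := le_max_left Y 0
    have hY1 := le_max_right Y 0
    have h2 := hY (u + η) (by linarith [hη2.1])
    have h3 := h.upper hl hη2.1 (y := u + η) (by linarith)
    rw [show u + η - η = u by ring, show -(u + η + η) = -u + -(2 * η) by ring, Real.exp_add] at h3
    have hu0 : 0 ≤ α u := h.nonneg u (by linarith)
    have h4 : α u * (Real.exp (-u) * Real.exp (-(2 * η))) * (1 - η)
        ≤ α u * (Real.exp (-u) * Real.exp (-(2 * η))) * wiP l η := by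
      apply mul_le_mul_of_nonneg_left hPl.le
      positivity
    have h6 : α u * (Real.exp (-u) * Real.exp (-(2 * η))) * (1 - η) ≤ A + η := by linarith
    have h7 : Real.exp (2 * η) * Real.exp (-(2 * η)) = 1 := by rw [← Real.exp_add]; simp
    have h8 : 0 < 1 - η := by linarith [hη2.2]
    calc α u * Real.exp (-u)
        = Real.exp (2 * η) * (α u * (Real.exp (-u) * Real.exp (-(2 * η))) * (1 - η)) / (1 - η) := by
          rw [eq_div_iff h8.ne']
          linear_combination (-(α u * Real.exp (-u) * (1 - η))) * h7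
      _ ≤ Real.exp (2 * η) * (A + η) / (1 - η) := by gcongr
      _ < a := hη1

end Pool.Agent.Lib.PNT
end

-- from Lib.PNT.Dirichlet
section

/-!
# The Wiener-Ikehara theorem for Dirichlet series
-/

open Complex MeasureTheory Filter Topology Set

namespace Pool.Agent.Lib.PNT

/-- The summatory function. -/
noncomputable def summ (a : ℕ → ℝ) (x : ℝ) : ℝ := ∑ k ∈ Finset.Icc 1 ⌊x⌋₊, a k

theorem summ_mono {a : ℕ → ℝ} (ha : ∀ n, 0 ≤ a n) : Monotone (summ a) := by
  intro x y hxy
  unfold summ
  apply Finset.sum_le_sum_of_subset_of_nonneg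
  · exact Finset.Icc_subset_Icc_right (Nat.floor_le_floor hxy)
  · intro i _ _
    exact ha i

theorem summ_nonneg {a : ℕ → ℝ} (ha : ∀ n, 0 ≤ a n) (x : ℝ) : 0 ≤ summ a x :=
  Finset.sum_nonneg fun i _ => ha i

theorem summ_le_rpow {a : ℕ → ℝ} (ha : ∀ n, 0 ≤ a n) {r : ℝ} (hr : 0 ≤ r)
    (hS : LSeriesSummable (fun n => (a n : ℂ)) r) :
    ∃ C, 0 ≤ C ∧ ∀ x : ℝ, 1 ≤ x → summ a x ≤ C * x ^ r := by
  have h1 : Summable fun n : ℕ => ‖LSeries.term (fun n => (a n : ℂ)) r n‖ := hS.norm
  refine ⟨∑' n : ℕ, ‖LSeries.term (fun n => (a n : ℂ)) r n‖, tsum_nonneg fun n => norm_nonneg _,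
    fun x hx => ?_⟩
  have h2 : ∀ k ∈ Finset.Icc 1 ⌊x⌋₊, a k ≤ x ^ r * ‖LSeries.term (fun n => (a n : ℂ)) r k‖ := by
    intro k hk
    rw [Finset.mem_Icc] at hk
    have hk0 : k ≠ 0 := by omega
    have hkpos : (0 : ℝ) < k := by exact_mod_cast hk.1
    have hkx : (k : ℝ) ≤ x := (Nat.le_floor_iff (by linarith)).mp hk.2
    rw [LSeries.norm_term_eq, if_neg hk0, Complex.norm_real, Real.norm_of_nonneg (ha k), ofReal_re]
    rw [mul_div_assoc', le_div_iff₀ (Real.rpow_pos_of_pos hkpos _), mul_comm]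
    exact mul_le_mul_of_nonneg_right (Real.rpow_le_rpow hkpos.le hkx hr) (ha k)
  calc summ a x ≤ ∑ k ∈ Finset.Icc 1 ⌊x⌋₊, x ^ r * ‖LSeries.term (fun n => (a n : ℂ)) r k‖ :=
        Finset.sum_le_sum h2
    _ = x ^ r * ∑ k ∈ Finset.Icc 1 ⌊x⌋₊, ‖LSeries.term (fun n => (a n : ℂ)) r k‖ := by
        rw [Finset.mul_sum]
    _ ≤ x ^ r * ∑' n : ℕ, ‖LSeries.term (fun n => (a n : ℂ)) r n‖ := by
        apply mul_le_mul_of_nonneg_left _ (by positivity)
        exact h1.sum_le_tsum _ fun i _ => norm_nonneg _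
    _ = _ := mul_comm _ _

theorem wiData_of_dirichlet (a : ℕ → ℝ) (ha : ∀ n, 0 ≤ a n) (A : ℝ) (G : ℂ → ℂ)
    (hS : ∀ σ : ℝ, 1 < σ → LSeriesSummable (fun n => (a n : ℂ)) σ)
    (hG : ContinuousOn G {s | 1 ≤ s.re})
    (hE : ∀ s : ℂ, 1 < s.re → LSeries (fun n => (a n : ℂ)) s = G s + A / (s - 1)) :
    WIData (fun u => summ a (Real.exp u)) A (fun s => (G s - A) / s) where
  mono := by
    intro u _ v _ huv
    exact summ_mono ha (Real.exp_le_exp.mpr huv)
  nonneg := fun u _ => summ_nonneg ha _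
  int := by
    intro σ hσ
    obtain ⟨C, hC0, hC⟩ := summ_le_rpow ha (r := (1 + σ) / 2) (by linarith)
      (hS _ (by linarith))
    have hm : Measurable fun u => summ a (Real.exp u) :=
      Monotone.measurable fun u v huv => summ_mono ha (Real.exp_le_exp.mpr huv)
    refine Integrable.mono' (g := fun u => C * Real.exp (-((σ - 1) / 2) * u))
      ((integrableOn_exp_mul_Ioi (by linarith) 0).const_mul C) ?_ ?_
    · exact Measurable.aestronglyMeasurable (by fun_prop)
    · filter_upwards [ae_restrict_mem measurableSet_Ioi] with u hu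
      have hu0 : (0 : ℝ) < u := hu
      rw [Real.norm_of_nonneg (mul_nonneg (summ_nonneg ha _) (Real.exp_pos _).le)]
      have h1 := hC (Real.exp u) (by rw [Real.one_le_exp_iff]; exact hu0.le)
      rw [← Real.exp_mul] at h1
      calc summ a (Real.exp u) * Real.exp (-(σ * u))
          ≤ C * Real.exp (u * ((1 + σ) / 2)) * Real.exp (-(σ * u)) := by gcongr
        _ = C * Real.exp (-((σ - 1) / 2) * u) := by
            rw [mul_assoc, ← Real.exp_add]; ring_nf
  cont := by
    apply ContinuousOn.div (hG.sub continuousOn_const) continuousOn_id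
    intro s hs h0
    have : (1 : ℝ) ≤ s.re := hs
    rw [id] at h0
    rw [h0] at this
    simp at this
    linarith
  lap := by
    intro s hs
    have hs0 : s ≠ 0 := by
      intro h0; rw [h0] at hs; simp at hs; linarith
    have hs1 : s - 1 ≠ 0 := by
      intro h0
      have : s = 1 := by linear_combination h0
      rw [this] at hs; simp at hs
    obtain ⟨C, hC0, hC⟩ := summ_le_rpow ha (r := (1 + s.re) / 2) (by linarith)
      (hS _ (by linarith))
    have hO : (fun n : ℕ => ∑ k ∈ Finset.Icc 1 n, a k) =O[atTop]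
        fun n : ℕ => (n : ℝ) ^ ((1 + s.re) / 2) := by
      apply Asymptotics.IsBigO.of_bound C
      filter_upwards [eventually_ge_atTop 1] with n hn
      have h1 := hC n (by exact_mod_cast hn)
      unfold summ at h1
      rw [Nat.floor_natCast] at h1
      rw [Real.norm_of_nonneg (Finset.sum_nonneg fun i _ => ha i),
        Real.norm_of_nonneg (by positivity)]
      exact h1
    have h1 := LSeries_eq_mul_integral_of_nonneg a (r := (1 + s.re) / 2) (by linarith)
      (s := s) (by linarith) hO ha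
    have h2 := integral_comp_exp_Ioi
      (fun t : ℝ => (∑ k ∈ Finset.Icc 1 ⌊t⌋₊, (a k : ℂ)) * (t : ℂ) ^ (-(s + 1))) 0
    rw [Real.exp_zero] at h2
    rw [← h2] at h1
    have h3 : ∫ x in Ioi (0 : ℝ), Real.exp x • ((∑ k ∈ Finset.Icc 1 ⌊Real.exp x⌋₊, (a k : ℂ)) *
        ((Real.exp x : ℝ) : ℂ) ^ (-(s + 1)))
        = ∫ u in Ioi (0 : ℝ), ((summ a (Real.exp u) : ℝ) : ℂ) * cexp (-(s * u)) := by
      apply integral_congr_ae
      refine Eventually.of_forall fun u => ?_
      simp only [summ, real_smul]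
      push_cast
      have h4 : (cexp u) ^ (-(s + 1)) = cexp (-(s + 1) * u) := by
        rw [← ofReal_exp, Complex.cpow_def_of_ne_zero (by exact_mod_cast (Real.exp_pos u).ne'),
          ← Complex.ofReal_log (Real.exp_pos u).le, Real.log_exp, mul_comm]
      rw [h4]
      have h5 : cexp (-(s * u)) = cexp u * cexp (-(s + 1) * u) := by
        rw [← Complex.exp_add]; ring_nf
      rw [h5]
      ring
    rw [h3, hE s hs] at h1
    have h6 : ∫ u in Ioi (0 : ℝ), ((summ a (Real.exp u) : ℝ) : ℂ) * cexp (-(s * u))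
        = (G s + A / (s - 1)) / s := by
      rw [h1]; field_simp
    rw [h6]
    field_simp
    ring

/-- **Wiener-Ikehara theorem** for Dirichlet series with nonnegative coefficients. -/
theorem wiener_ikehara (a : ℕ → ℝ) (ha : ∀ n, 0 ≤ a n) (A : ℝ) (G : ℂ → ℂ)
    (hS : ∀ σ : ℝ, 1 < σ → LSeriesSummable (fun n => (a n : ℂ)) σ)
    (hG : ContinuousOn G {s | 1 ≤ s.re})
    (hE : ∀ s : ℂ, 1 < s.re → LSeries (fun n => (a n : ℂ)) s = G s + A / (s - 1)) :
    Tendsto (fun x : ℝ => summ a x / x) atTop (𝓝 A) := by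
  have h := (wiData_of_dirichlet a ha A G hS hG hE).tendsto
  refine (h.comp Real.tendsto_log_atTop).congr' ?_
  filter_upwards [eventually_gt_atTop 0] with x hx
  simp only [Function.comp]
  rw [Real.exp_neg, Real.exp_log hx, div_eq_mul_inv]

/-- Wiener-Ikehara over the natural numbers. -/
theorem wiener_ikehara_nat (a : ℕ → ℝ) (ha : ∀ n, 0 ≤ a n) (A : ℝ) (G : ℂ → ℂ)
    (hS : ∀ σ : ℝ, 1 < σ → LSeriesSummable (fun n => (a n : ℂ)) σ)
    (hG : ContinuousOn G {s | 1 ≤ s.re})
    (hE : ∀ s : ℂ, 1 < s.re → LSeries (fun n => (a n : ℂ)) s = G s + A / (s - 1)) :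
    Tendsto (fun n : ℕ => (∑ k ∈ Finset.Icc 1 n, a k) / n) atTop (𝓝 A) := by
  have h := (wiener_ikehara a ha A G hS hG hE).comp tendsto_natCast_atTop_atTop
  refine h.congr fun n => ?_
  simp [summ]

end Pool.Agent.Lib.PNT
end

-- from Lib.PNT.PNT
section

/-!
# The prime number theorem, also in arithmetic progressions
-/

open Complex MeasureTheory Filter Topology Set

namespace Pool.Agent.Lib.PNT

/-- Chebyshev's theta function for the primes with property `P`. -/
noncomputable def thetaP (P : ℕ → Prop) [DecidablePred P] (x : ℝ) : ℝ :=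
  ∑ p ∈ Finset.Ioc 0 ⌊x⌋₊ with p.Prime ∧ P p, Real.log p

/-- The number of primes up to `x` with property `P`. -/
noncomputable def piP (P : ℕ → Prop) [DecidablePred P] (x : ℝ) : ℕ :=
  (Finset.filter (fun p => p.Prime ∧ P p) (Finset.Ioc 0 ⌊x⌋₊)).card

variable {P : ℕ → Prop} [DecidablePred P]




theorem thetaP_le (x : ℝ) : thetaP P x ≤ piP P x * Real.log x := by
  unfold thetaP piP
  rw [← nsmul_eq_mul, ← Finset.sum_const]
  apply Finset.sum_le_sum
  intro p hp
  rw [Finset.mem_filter, Finset.mem_Ioc] at hp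
  have h0 : 0 < p := hp.1.1
  have hx : (p : ℝ) ≤ x := by
    have h1 : 0 < ⌊x⌋₊ := lt_of_lt_of_le h0 hp.1.2
    have h2 : 0 ≤ x := by
      by_contra h
      rw [Nat.floor_of_nonpos (by linarith)] at h1
      exact lt_irrefl _ h1
    exact (Nat.le_floor_iff h2).mp hp.1.2
  exact Real.log_le_log (by exact_mod_cast h0) hx

theorem piP_le {x δ : ℝ} (hx : 1 < x) (hδ : δ < 1) :
    (piP P x : ℝ) ≤ x ^ (1 - δ) + thetaP P x / ((1 - δ) * Real.log x) := by
  have hlog : 0 < Real.log x := Real.log_pos hx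
  have h1δ : 0 < 1 - δ := by linarith
  have hden : 0 < (1 - δ) * Real.log x := mul_pos h1δ hlog
  have h1 : (piP P x : ℝ) ≤ ∑ p ∈ Finset.Ioc 0 ⌊x⌋₊ with p.Prime ∧ P p,
      ((if p ≤ ⌊x ^ (1 - δ)⌋₊ then (1 : ℝ) else 0) + Real.log p / ((1 - δ) * Real.log x)) := by
    unfold piP
    rw [Finset.card_eq_sum_ones, Nat.cast_sum]
    apply Finset.sum_le_sum
    intro p hp
    rw [Finset.mem_filter] at hp
    have hp1 : (0 : ℝ) < p := by exact_mod_cast hp.2.1.pos
    have hlp : 0 ≤ Real.log p / ((1 - δ) * Real.log x) :=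
      div_nonneg (Real.log_natCast_nonneg p) hden.le
    split_ifs with h
    · push_cast; linarith
    · push Not at h
      have h2 : x ^ (1 - δ) < p := by
        exact (Nat.floor_lt (by positivity)).mp h
      have h3 : (1 - δ) * Real.log x ≤ Real.log p := by
        rw [← Real.log_rpow (by linarith)]
        exact Real.log_le_log (by positivity) h2.le
      rw [zero_add, Nat.cast_one, le_div_iff₀ hden, one_mul]
      exact h3
  refine h1.trans ?_
  rw [Finset.sum_add_distrib]
  apply add_le_add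
  · calc (∑ p ∈ Finset.Ioc 0 ⌊x⌋₊ with p.Prime ∧ P p, if p ≤ ⌊x ^ (1 - δ)⌋₊ then (1 : ℝ) else 0)
        ≤ ∑ p ∈ Finset.Ioc 0 ⌊x⌋₊, if p ≤ ⌊x ^ (1 - δ)⌋₊ then (1 : ℝ) else 0 := by
          apply Finset.sum_le_sum_of_subset_of_nonneg (Finset.filter_subset _ _)
          intro i _ _
          split_ifs <;> norm_num
      _ = ((Finset.Ioc 0 ⌊x⌋₊).filter (fun p => p ≤ ⌊x ^ (1 - δ)⌋₊)).card := by
          rw [← Finset.sum_filter, Finset.sum_const, nsmul_eq_mul, mul_one]
      _ ≤ (Finset.Ioc 0 ⌊x ^ (1 - δ)⌋₊).card := by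
          exact_mod_cast Finset.card_le_card (fun p hp => by
            rw [Finset.mem_filter, Finset.mem_Ioc] at hp
            rw [Finset.mem_Ioc]
            exact ⟨hp.1.1, hp.2⟩)
      _ = (⌊x ^ (1 - δ)⌋₊ : ℝ) := by simp
      _ ≤ x ^ (1 - δ) := Nat.floor_le (by positivity)
  · rw [thetaP, Finset.sum_div]

theorem tendsto_piP {c : ℝ} (h : Tendsto (fun x : ℝ => thetaP P x / x) atTop (𝓝 c)) :
    Tendsto (fun x : ℝ => (piP P x : ℝ) * Real.log x / x) atTop (𝓝 c) := by
  rw [tendsto_order]
  constructor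
  · intro a ha
    filter_upwards [h.eventually (lt_mem_nhds ha), eventually_gt_atTop 0] with x hx hx0
    refine hx.trans_le ?_
    exact div_le_div_of_nonneg_right (thetaP_le x) hx0.le
  · intro a ha
    have hc : ContinuousAt (fun δ : ℝ => c / (1 - δ)) 0 :=
      ContinuousAt.div (by fun_prop) (by fun_prop) (by norm_num)
    have h1 : ∀ᶠ δ in 𝓝[>] (0 : ℝ), c / (1 - δ) < a := by
      have := hc.tendsto.mono_left (nhdsWithin_le_nhds (s := Ioi (0 : ℝ)))
      simp only [sub_zero, div_one] at this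
      exact this.eventually (gt_mem_nhds ha)
    obtain ⟨δ, hδ1, hδ2⟩ := (h1.and (Ioo_mem_nhdsGT (show (0 : ℝ) < 1 by norm_num))).exists
    have h2 : Tendsto (fun x : ℝ => Real.log x / x ^ δ + thetaP P x / x / (1 - δ)) atTop
        (𝓝 (0 + c / (1 - δ))) :=
      ((isLittleO_log_rpow_atTop hδ2.1).tendsto_div_nhds_zero).add (h.div_const _)
    rw [zero_add] at h2
    filter_upwards [h2.eventually (gt_mem_nhds hδ1), eventually_gt_atTop 1] with x hx hx1
    refine lt_of_le_of_lt ?_ hx
    have hlog : 0 < Real.log x := Real.log_pos hx1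
    have hx0 : 0 < x := by linarith
    have h3 := piP_le (P := P) hx1 hδ2.2
    have h1δ : 0 < 1 - δ := by linarith [hδ2.2]
    have h4 : (piP P x : ℝ) * Real.log x / x
        ≤ (x ^ (1 - δ) + thetaP P x / ((1 - δ) * Real.log x)) * Real.log x / x := by gcongr
    refine h4.trans (le_of_eq ?_)
    rw [Real.rpow_sub hx0, Real.rpow_one]
    have : x ^ δ ≠ 0 := (Real.rpow_pos_of_pos hx0 _).ne'
    field_simp






section AP

variable {q : ℕ} [NeZero q] {a : ZMod q}

open ArithmeticFunction ArithmeticFunction.vonMangoldt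

theorem summ_residueClass_tendsto (ha : IsUnit a) :
    Tendsto (fun x : ℝ => summ (residueClass a) x / x) atTop (𝓝 (q.totient : ℝ)⁻¹) := by
  apply wiener_ikehara _ (fun n => residueClass_nonneg a n) _ (LFunctionResidueClassAux a)
  · intro σ hσ
    apply LSeriesSummable_of_abscissaOfAbsConv_lt_re
    refine (abscissaOfAbsConv_residueClass_le_one a).trans_lt ?_
    rw [ofReal_re]
    exact_mod_cast hσ
  · exact continuousOn_LFunctionResidueClassAux a
  · intro s hs
    have h := eqOn_LFunctionResidueClassAux ha hs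
    rw [h]
    push_cast
    ring

theorem summ_residueClass_sub_thetaP (x : ℝ) :
    |summ (residueClass a) x - thetaP (fun p => (p : ZMod q) = a) x|
      ≤ Chebyshev.psi x - Chebyshev.theta x := by
  have h1 : summ (residueClass a) x - thetaP (fun p => (p : ZMod q) = a) x
      = ∑ n ∈ Finset.Ioc 0 ⌊x⌋₊ with ¬ n.Prime, residueClass a n := by
    unfold summ thetaP
    rw [show Finset.Icc 1 ⌊x⌋₊ = Finset.Ioc 0 ⌊x⌋₊ from rfl,
      ← Finset.sum_filter_add_sum_filter_not (Finset.Ioc 0 ⌊x⌋₊) (fun p => p.Prime)]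
    have : ∑ n ∈ Finset.Ioc 0 ⌊x⌋₊ with n.Prime, residueClass a n
        = ∑ p ∈ Finset.filter (fun p : ℕ => p.Prime ∧ (p : ZMod q) = a) (Finset.Ioc 0 ⌊x⌋₊),
          Real.log p := by
      rw [Finset.sum_filter, Finset.sum_filter]
      apply Finset.sum_congr rfl
      intro p _
      by_cases hp : p.Prime
      · by_cases h2 : (p : ZMod q) = a
        · rw [if_pos hp, if_pos ⟨hp, h2⟩]
          simp only [residueClass]
          rw [Set.indicator_of_mem (by exact h2), vonMangoldt_apply_prime hp]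
        · rw [if_pos hp, if_neg (fun h => h2 h.2)]
          simp only [residueClass]
          rw [Set.indicator_of_notMem (by exact h2)]
      · rw [if_neg hp, if_neg (fun h => hp h.1)]
    rw [this]
    ring
  rw [h1, Chebyshev.psi_sub_theta_eq_sum_not_prime, abs_of_nonneg
    (Finset.sum_nonneg fun n _ => residueClass_nonneg a n)]
  exact Finset.sum_le_sum fun n _ => residueClass_le a n

theorem psi_sub_theta_div_tendsto :
    Tendsto (fun x : ℝ => (Chebyshev.psi x - Chebyshev.theta x) / x) atTop (𝓝 0) := by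
  obtain ⟨C, hC⟩ := Chebyshev.psi_sub_theta_le_mul_sqrt
  have h1 : Tendsto (fun x : ℝ => C * (x ^ (1 / 2 : ℝ))⁻¹) atTop (𝓝 (C * 0)) :=
    ((tendsto_rpow_atTop (by norm_num)).inv_tendsto_atTop).const_mul C
  rw [mul_zero] at h1
  refine squeeze_zero' ?_ ?_ h1
  · filter_upwards [eventually_gt_atTop 0] with x hx
    have := Chebyshev.theta_le_psi x
    exact div_nonneg (by linarith) hx.le
  · filter_upwards [eventually_gt_atTop 0] with x hx
    rw [← Real.sqrt_eq_rpow, div_le_iff₀ hx]
    refine (hC x).trans (le_of_eq ?_)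
    have h2 : √x ≠ 0 := (Real.sqrt_pos.mpr hx).ne'
    have h3 : √x * √x = x := Real.mul_self_sqrt hx.le
    field_simp
    linear_combination C * h3

/-- **Prime number theorem in arithmetic progressions**, theta form. -/
theorem thetaAP_tendsto (ha : IsUnit a) :
    Tendsto (fun x : ℝ => thetaP (fun p => (p : ZMod q) = a) x / x) atTop
      (𝓝 (q.totient : ℝ)⁻¹) := by
  have h1 := summ_residueClass_tendsto ha
  have h2 : Tendsto (fun x : ℝ => (summ (residueClass a) x
      - thetaP (fun p => (p : ZMod q) = a) x) / x) atTop (𝓝 0) := by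
    rw [tendsto_zero_iff_abs_tendsto_zero]
    refine squeeze_zero' (Eventually.of_forall fun x => abs_nonneg _) ?_ psi_sub_theta_div_tendsto
    filter_upwards [eventually_gt_atTop 0] with x hx
    simp only [Function.comp]
    rw [abs_div, abs_of_pos hx]
    exact div_le_div_of_nonneg_right (summ_residueClass_sub_thetaP x) hx.le
  have h3 := h1.sub h2
  rw [sub_zero] at h3
  refine h3.congr fun x => ?_
  ring



end AP

/-- **Prime number theorem**, theta form. -/
theorem theta_tendsto : Tendsto (fun x : ℝ => Chebyshev.theta x / x) atTop (𝓝 1) := by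
  have h := thetaAP_tendsto (q := 1) (a := 0) (by rw [isUnit_iff_eq_one]; rfl)
  simp only [Nat.totient_one, Nat.cast_one, inv_one] at h
  refine h.congr fun x => ?_
  congr 1
  unfold thetaP Chebyshev.theta
  apply Finset.sum_congr _ fun _ _ => rfl
  ext p
  rw [Finset.mem_filter, Finset.mem_filter]
  constructor
  · rintro ⟨h1, h2, _⟩; exact ⟨h1, h2⟩
  · rintro ⟨h1, h2⟩; exact ⟨h1, h2, Subsingleton.elim _ _⟩


theorem piP_true (x : ℝ) : piP (fun _ => True) x = Nat.primeCounting ⌊x⌋₊ := by
  unfold piP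
  rw [Nat.primeCounting, Nat.primeCounting', Nat.count_eq_card_filter_range]
  congr 1
  ext p
  rw [Finset.mem_filter, Finset.mem_filter, Finset.mem_Ioc, Finset.mem_range]
  constructor
  · rintro ⟨h1, h2, _⟩; exact ⟨by omega, h2⟩
  · rintro ⟨h1, h2⟩; exact ⟨⟨h2.pos, by omega⟩, h2, trivial⟩

theorem thetaP_true (x : ℝ) : thetaP (fun _ => True) x = Chebyshev.theta x := by
  unfold thetaP Chebyshev.theta
  apply Finset.sum_congr _ fun _ _ => rfl
  ext p
  rw [Finset.mem_filter, Finset.mem_filter]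
  constructor
  · rintro ⟨h1, h2, _⟩; exact ⟨h1, h2⟩
  · rintro ⟨h1, h2⟩; exact ⟨h1, h2, trivial⟩

theorem thetaP_true_tendsto :
    Tendsto (fun x : ℝ => thetaP (fun _ => True) x / x) atTop (𝓝 1) := by
  simp_rw [thetaP_true]
  exact theta_tendsto

/-- **Prime number theorem**, counting form. -/
theorem primeCounting_tendsto :
    Tendsto (fun x : ℝ => (Nat.primeCounting ⌊x⌋₊ : ℝ) * Real.log x / x) atTop (𝓝 1) := by
  have h := tendsto_piP thetaP_true_tendsto
  simp_rw [piP_true] at h
  exact h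

/-- **Prime number theorem**, counting form, along the natural numbers. -/
theorem primeCounting_nat_tendsto :
    Tendsto (fun n : ℕ => (Nat.primeCounting n : ℝ) * Real.log n / n) atTop (𝓝 1) := by
  have h := primeCounting_tendsto.comp tendsto_natCast_atTop_atTop
  refine h.congr fun n => ?_
  simp



end Pool.Agent.Lib.PNT
end

-- from Lib.CFTC.C6
section

/-! # CFT module C, chunk C6: from weights log n to the counting function (pure) -/

open Filter Topology

namespace CFTC

/-- PROOF. Put `B n = ∑ k ≤ n, b k`, `W n = ∑ k ≤ n, b k log k`. Then `W n ≤ B n log n`, and for `0 < δ < 1`: `B n ≤ B ⌊n^(1-δ)⌋ + W n / ((1 - δ) log n)`, and `B m ≤ W m / log 2 ≤ C m` (because `b 1 = 0`),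
so `B n log n / n ≤ C n^(-δ) log n + (W n / n) / (1 - δ)`. Hence `B n log n / n → 1` (compare `Pool.Agent.Lib.PNT.tendsto_piP`, `piP_le` in Lib/PNT/PNT.lean); divide by
`Pool.Agent.Lib.PNT.primeCounting_nat_tendsto`. -/
theorem transfer {b : ℕ → ℝ} (hb : ∀ n, 0 ≤ b n) (h1 : b 1 = 0)
    (h : Tendsto (fun n : ℕ => (∑ k ∈ Finset.Icc 1 n, b k * Real.log k) / (n : ℝ)) atTop (𝓝 1)) :
    Tendsto (fun n : ℕ => (∑ k ∈ Finset.Icc 1 n, b k) / (Nat.primeCounting n : ℝ)) atTop (𝓝 1) := by
  have hlog2 : 0 < Real.log 2 := Real.log_pos (by norm_num)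
  have hlogk : ∀ k : ℕ, 0 ≤ Real.log (k : ℝ) := fun k => Real.log_natCast_nonneg k
  obtain ⟨C, hC⟩ := h.bddAbove_range
  have hC' : ∀ n : ℕ, (∑ k ∈ Finset.Icc 1 n, b k * Real.log k) ≤ |C| * n := by
    intro n
    rcases Nat.eq_zero_or_pos n with rfl | hn
    · simp
    · have h2 : (∑ k ∈ Finset.Icc 1 n, b k * Real.log k) / (n : ℝ) ≤ C := hC ⟨n, rfl⟩
      have hn' : (0 : ℝ) < n := Nat.cast_pos.2 hn
      rw [div_le_iff₀ hn'] at h2
      exact h2.trans (mul_le_mul_of_nonneg_right (le_abs_self C) hn'.le)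
  have hB : ∀ m : ℕ, (∑ k ∈ Finset.Icc 1 m, b k) ≤ |C| / Real.log 2 * m := by
    intro m
    have h3 : (∑ k ∈ Finset.Icc 1 m, b k) ≤ (∑ k ∈ Finset.Icc 1 m, b k * Real.log k) / Real.log 2 := by
      rw [Finset.sum_div]
      refine Finset.sum_le_sum fun k hk => ?_
      rw [le_div_iff₀ hlog2]
      rcases Nat.lt_or_ge k 2 with hk2 | hk2
      · have hk1 : k = 1 := by
          have := (Finset.mem_Icc.1 hk).1
          omega
        rw [hk1, h1, zero_mul, zero_mul]
      · refine mul_le_mul_of_nonneg_left (Real.log_le_log (by norm_num) ?_) (hb k)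
        exact_mod_cast hk2
    refine h3.trans ?_
    have h4 := hC' m
    rw [div_mul_eq_mul_div]
    exact div_le_div_of_nonneg_right h4 hlog2.le
  have hkey : ∀ (n : ℕ) (δ : ℝ), 2 ≤ n → 0 < δ → δ < 1 → (∑ k ∈ Finset.Icc 1 n, b k) ≤
      |C| / Real.log 2 * (n : ℝ) ^ (1 - δ) + (∑ k ∈ Finset.Icc 1 n, b k * Real.log k) / ((1 - δ) * Real.log n) := by
    intro n δ hn hδ0 hδ1
    have hn1 : (1 : ℝ) < n := by exact_mod_cast hn
    have hn0 : (0 : ℝ) < n := by linarith
    have hlogn : 0 < Real.log n := Real.log_pos hn1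
    have hden : 0 < (1 - δ) * Real.log n := mul_pos (by linarith) hlogn
    rw [← Finset.sum_filter_add_sum_filter_not (Finset.Icc 1 n) (fun k => k ≤ ⌊(n : ℝ) ^ (1 - δ)⌋₊)]
    refine add_le_add ?_ ?_
    · have h5 : (∑ k ∈ Finset.Icc 1 n with k ≤ ⌊(n : ℝ) ^ (1 - δ)⌋₊, b k) ≤ ∑ k ∈ Finset.Icc 1 ⌊(n : ℝ) ^ (1 - δ)⌋₊, b k := by
        refine Finset.sum_le_sum_of_subset_of_nonneg ?_ fun k _ _ => hb k
        intro k hk
        rw [Finset.mem_filter, Finset.mem_Icc] at hk
        exact Finset.mem_Icc.2 ⟨hk.1.1, hk.2⟩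
      refine h5.trans ((hB _).trans ?_)
      exact mul_le_mul_of_nonneg_left (Nat.floor_le (Real.rpow_nonneg hn0.le _)) (by positivity)
    · have h6 : (∑ k ∈ Finset.Icc 1 n with ¬ k ≤ ⌊(n : ℝ) ^ (1 - δ)⌋₊, b k) ≤
          ∑ k ∈ Finset.Icc 1 n with ¬ k ≤ ⌊(n : ℝ) ^ (1 - δ)⌋₊, (b k * Real.log k) / ((1 - δ) * Real.log n) := by
        refine Finset.sum_le_sum fun k hk => ?_
        rw [Finset.mem_filter, not_le] at hk
        have h7 : (n : ℝ) ^ (1 - δ) < k := Nat.lt_of_floor_lt hk.2
        have h8 : (1 - δ) * Real.log n ≤ Real.log k := by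
          rw [← Real.log_rpow hn0]
          exact Real.log_le_log (Real.rpow_pos_of_pos hn0 _) h7.le
        rw [le_div_iff₀ hden]
        exact mul_le_mul_of_nonneg_left h8 (hb k)
      refine h6.trans ?_
      rw [Finset.sum_div]
      refine Finset.sum_le_sum_of_subset_of_nonneg (Finset.filter_subset _ _) fun k _ _ => ?_
      exact div_nonneg (mul_nonneg (hb k) (hlogk k)) hden.le
  have hmain : Tendsto (fun n : ℕ => (∑ k ∈ Finset.Icc 1 n, b k) * Real.log n / n) atTop (𝓝 1) := by
    rw [tendsto_order]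
    constructor
    · intro a ha
      filter_upwards [h.eventually (lt_mem_nhds ha), eventually_gt_atTop 0] with n hn hn0
      refine hn.trans_le (div_le_div_of_nonneg_right ?_ (Nat.cast_nonneg n))
      rw [Finset.sum_mul]
      refine Finset.sum_le_sum fun k hk => ?_
      refine mul_le_mul_of_nonneg_left ?_ (hb k)
      have hk1 := Finset.mem_Icc.1 hk
      exact Real.log_le_log (by exact_mod_cast hk1.1) (by exact_mod_cast hk1.2)
    · intro a ha
      have hc : ContinuousAt (fun δ : ℝ => 1 / (1 - δ)) 0 :=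
        ContinuousAt.div (by fun_prop) (by fun_prop) (by norm_num)
      have h9 : ∀ᶠ δ in 𝓝[>] (0 : ℝ), 1 / (1 - δ) < a := by
        have := hc.tendsto.mono_left (nhdsWithin_le_nhds (s := Set.Ioi (0 : ℝ)))
        simp only [sub_zero, div_one] at this
        exact this.eventually (gt_mem_nhds ha)
      obtain ⟨δ, hδ1, hδ2⟩ := (h9.and (Ioo_mem_nhdsGT (show (0 : ℝ) < 1 by norm_num))).exists
      have h10 : Tendsto (fun n : ℕ => |C| / Real.log 2 * (Real.log n / (n : ℝ) ^ δ) +
          (∑ k ∈ Finset.Icc 1 n, b k * Real.log k) / (n : ℝ) / (1 - δ)) atTop (𝓝 (|C| / Real.log 2 * 0 + 1 / (1 - δ))) := by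
        refine Tendsto.add (Tendsto.const_mul _ ?_) (h.div_const _)
        exact ((isLittleO_log_rpow_atTop hδ2.1).tendsto_div_nhds_zero).comp tendsto_natCast_atTop_atTop
      rw [mul_zero, zero_add] at h10
      filter_upwards [h10.eventually (gt_mem_nhds hδ1), eventually_ge_atTop 2] with n hn hn2
      refine lt_of_le_of_lt ?_ hn
      have hn1 : (1 : ℝ) < n := by exact_mod_cast hn2
      have hn0 : (0 : ℝ) < n := by linarith
      have hlogn : 0 < Real.log n := Real.log_pos hn1
      have h11 := hkey n δ hn2 hδ2.1 hδ2.2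
      have h1δ : 0 < 1 - δ := by linarith [hδ2.2]
      have h12 : (∑ k ∈ Finset.Icc 1 n, b k) * Real.log n / n ≤ (|C| / Real.log 2 * (n : ℝ) ^ (1 - δ) +
          (∑ k ∈ Finset.Icc 1 n, b k * Real.log k) / ((1 - δ) * Real.log n)) * Real.log n / n := by gcongr
      refine h12.trans (le_of_eq ?_)
      rw [Real.rpow_sub hn0, Real.rpow_one]
      have h13 : (n : ℝ) ^ δ ≠ 0 := (Real.rpow_pos_of_pos hn0 _).ne'
      field_simp
  have hdiv := hmain.div Pool.Agent.Lib.PNT.primeCounting_nat_tendsto one_ne_zero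
  rw [div_one] at hdiv
  refine hdiv.congr' ?_
  filter_upwards [eventually_ge_atTop 2] with n hn
  have hn1 : (1 : ℝ) < n := by exact_mod_cast hn
  have hn0 : (n : ℝ) ≠ 0 := by linarith
  have hlogn : Real.log n ≠ 0 := (Real.log_pos hn1).ne'
  rw [Pi.div_apply, div_div_div_cancel_right₀ hn0, mul_div_mul_right _ _ hlogn]


end CFTC
end

-- from Lib.CFT.X04
section

/-! # CFT X04 (S): orders modulo q and modulo m -/

namespace CFT

/-- PROOF. The ring homomorphism ZMod.castHom hq (ZMod q) maps the unit a of ZMod m to a; so orderOf (a : ZMod q) divides orderOf (a : (ZMod m)ˣ) (orderOf_map_dvd; orderOf_units). -/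
theorem x_order {m q a n : ℕ} (hq : q ∣ m) (ha : a.Coprime m) (h : n ∣ orderOf (a : ZMod q)) : n ∣ orderOf (ZMod.unitOfCoprime a ha) := by
  have h1 : orderOf (ZMod.unitsMap hq (ZMod.unitOfCoprime a ha)) ∣ orderOf (ZMod.unitOfCoprime a ha) :=
    orderOf_map_dvd _ _
  have h2 : ((ZMod.unitsMap hq (ZMod.unitOfCoprime a ha) : (ZMod q)ˣ) : ZMod q) = (a : ZMod q) := by
    rw [ZMod.unitsMap_val, ZMod.coe_unitOfCoprime]
    exact ZMod.cast_natCast hq a
  rw [← h2, orderOf_units] at h
  exact h.trans h1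

/-- PROOF. a^(q-1) = 1 in ZMod q (ZMod.pow_card_sub_one_eq_one), orderOf_dvd_of_pow_eq_one. -/
theorem x_pred {q a n : ℕ} (hq : q.Prime) (ha : ¬ q ∣ a) (h : n ∣ orderOf (a : ZMod q)) : n ∣ q - 1 := by
  haveI : Fact q.Prime := ⟨hq⟩
  have h1 : (a : ZMod q) ≠ 0 := fun h0 => ha ((ZMod.natCast_eq_zero_iff a q).1 h0)
  exact h.trans (orderOf_dvd_of_pow_eq_one (ZMod.pow_card_sub_one_eq_one h1))

end CFT
end

-- from Lib.CFT.X05
section

/-! # CFT X05 (M): primes q with a of order exactly l^k modulo q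

PROOF. Let A = a^(l^(k-1)) >= 2 and s = 1 + A + ... + A^(l-1) (sum over Finset.range l), so s (A - 1) = A^l - 1. CLAIM: s has a prime divisor q ≠ l. Otherwise s is a power of l
(s >= 2, Nat.eq_prime_pow_of_unique_prime_dvd), so l | s and A^l = 1 mod l, hence A = 1 mod l (Fermat: A^l = A mod l). Then l^2 does not divide s: for l odd write A = 1 + l t,
A^i = 1 + i l t mod l^2, s = l + l t l (l-1)/2 = l mod l^2; for l = 2 s = 1 + A and A = (a^(2^(k-2)))^2 is an odd square, so s = 2 mod 4 (here k >= 2 is used). So s = l; but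
s >= 1 + A > l for l = 2 (A >= 4), and for l >= 3 s >= 1 + A + A^2 + ... > l as A >= 2 (in general s >= 1 + A (l-1) > l). Contradiction.
Let q be a prime divisor of s, q ≠ l. Then A^l = 1 mod q. If A = 1 mod q, then s = l mod q, so q | l, q = l, contradiction. So a^(l^k) = 1 and a^(l^(k-1)) ≠ 1 in ZMod q:
orderOf_eq_prime_pow. -/

namespace CFT

theorem x_prime {a l k : ℕ} (ha : 2 ≤ a) (hl : l.Prime) (hk : 2 ≤ k) : ∃ q : ℕ, q.Prime ∧ orderOf (a : ZMod q) = l ^ k := by
  haveI : Fact l.Prime := ⟨hl⟩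
  obtain ⟨A, hA⟩ : ∃ A : ℕ, A = a ^ l ^ (k - 1) := ⟨_, rfl⟩
  have hA2 : 2 ≤ A := by
    rw [hA]
    calc 2 ≤ a := ha
      _ = a ^ 1 := (pow_one a).symm
      _ ≤ a ^ l ^ (k - 1) := Nat.pow_le_pow_right (by omega) (Nat.one_le_pow _ _ hl.pos)
  obtain ⟨s, hs⟩ : ∃ s : ℕ, s = ∑ i ∈ Finset.range l, A ^ i := ⟨_, rfl⟩
  have hsA : s * (A - 1) = A ^ l - 1 := by
    rw [hs]
    have h := Nat.geomSum_eq hA2 l
    rw [h]
    exact Nat.div_mul_cancel (by simpa using Nat.sub_dvd_pow_sub_pow A 1 l)
  have hs0 : s ≠ 0 := by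
    intro h0
    rw [h0, zero_mul] at hsA
    have h2 : 1 < A ^ l := Nat.one_lt_pow hl.ne_zero (by omega)
    omega
  have hsl : l < s := by
    have h1 : ∑ i ∈ Finset.range l, 1 < ∑ i ∈ Finset.range l, A ^ i := by
      apply Finset.sum_lt_sum
      · intro i _
        exact Nat.one_le_pow _ _ (by omega)
      · refine ⟨1, Finset.mem_range.2 hl.one_lt, ?_⟩
        rw [pow_one]
        omega
    rw [Finset.sum_const, Finset.card_range, smul_eq_mul, mul_one] at h1
    rw [hs]
    exact h1
  obtain ⟨q, hq, hqs, hql⟩ : ∃ q : ℕ, q.Prime ∧ q ∣ s ∧ q ≠ l := by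
    by_contra hcon
    push Not at hcon
    have e1 := Nat.eq_prime_pow_of_unique_prime_dvd hs0 (fun {d} hd hds => hcon d hd hds)
    obtain ⟨m, hm⟩ : ∃ m : ℕ, s = l ^ m := ⟨_, e1⟩
    have hm2 : 2 ≤ m := by
      by_contra h
      have h3 : m = 0 ∨ m = 1 := by omega
      rcases h3 with h3 | h3
      · rw [h3, pow_zero] at hm
        have := hl.pos
        omega
      · rw [h3, pow_one] at hm
        omega
    have hll : l ^ 2 ∣ s := by
      rw [hm]
      exact pow_dvd_pow l hm2
    have hl1 : l ∣ s := (dvd_pow_self l (by norm_num)).trans hll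
    have hAl : l ∣ A - 1 := by
      have h3 : l ∣ A ^ l - 1 := by
        rw [← hsA]
        exact hl1.mul_right _
      have h4 : ((A ^ l - 1 : ℕ) : ZMod l) = 0 := (ZMod.natCast_eq_zero_iff _ _).2 h3
      rw [Nat.cast_sub (Nat.one_le_pow _ _ (by omega)), Nat.cast_pow, ZMod.pow_card] at h4
      rw [← ZMod.natCast_eq_zero_iff, Nat.cast_sub (by omega)]
      exact h4
    have hnA : ¬ l ∣ A := by
      intro h
      have h3 : l ∣ A - (A - 1) := Nat.dvd_sub h hAl
      have h4 : A - (A - 1) = 1 := by omega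
      rw [h4] at h3
      exact hl.one_lt.ne' (Nat.dvd_one.1 h3)
    rcases hl.eq_two_or_odd' with h2 | hodd
    · subst h2
      have h3 : s = 1 + A := by
        rw [hs, Finset.sum_range_succ, Finset.sum_range_one, pow_zero, pow_one]
      obtain ⟨k', rfl⟩ := Nat.exists_eq_add_of_le hk
      have h4 : A = (a ^ 2 ^ k') ^ 2 := by
        rw [hA, ← pow_mul]
        congr 1
        have h5 : 2 + k' - 1 = k' + 1 := by omega
        rw [h5, pow_succ]
      obtain ⟨b, hb⟩ : ∃ b : ℕ, b = a ^ 2 ^ k' := ⟨_, rfl⟩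
      rw [← hb] at h4
      have h5 : b % 2 = 1 := by
        by_contra h6
        apply hnA
        have h7 : 2 ∣ b := by omega
        rw [h4]
        exact h7.trans (dvd_pow_self b (by norm_num))
      obtain ⟨c, hc⟩ : ∃ c, b = 2 * c + 1 := ⟨b / 2, by omega⟩
      rw [h3, h4, hc] at hll
      have h8 : 1 + (2 * c + 1) ^ 2 = 4 * (c ^ 2 + c) + 2 := by ring
      rw [h8] at hll
      obtain ⟨d, hd⟩ := hll
      omega
    · have h3 := padicValNat.pow_sub_pow (p := l) (x := A) (y := 1) hodd (by omega) (by simpa using hAl) hnA hl.ne_zero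
      rw [one_pow, padicValNat_self, ← hsA, padicValNat.mul hs0 (by omega)] at h3
      have h4 : padicValNat l s = 1 := by omega
      have h5 := (padicValNat_dvd_iff_le hs0).1 hll
      omega
  haveI : Fact q.Prime := ⟨hq⟩
  refine ⟨q, hq, ?_⟩
  have hz : ((s : ℕ) : ZMod q) = 0 := (ZMod.natCast_eq_zero_iff _ _).2 hqs
  have hA1 : (A : ZMod q) ^ l = 1 := by
    have h3 : ((s * (A - 1) : ℕ) : ZMod q) = 0 := by rw [Nat.cast_mul, hz, zero_mul]
    rw [hsA, Nat.cast_sub (Nat.one_le_pow _ _ (by omega)), Nat.cast_pow, Nat.cast_one] at h3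
    exact sub_eq_zero.1 h3
  have hne : (A : ZMod q) ≠ 1 := by
    intro h1
    rw [hs, Nat.cast_sum] at hz
    have h4 : ∑ i ∈ Finset.range l, ((A ^ i : ℕ) : ZMod q) = (l : ZMod q) := by
      have h5 : ∀ i ∈ Finset.range l, ((A ^ i : ℕ) : ZMod q) = 1 := by
        intro i _
        rw [Nat.cast_pow, h1, one_pow]
      rw [Finset.sum_congr rfl h5, Finset.sum_const, Finset.card_range, nsmul_eq_mul, mul_one]
    rw [h4, ZMod.natCast_eq_zero_iff] at hz
    exact hql ((Nat.prime_dvd_prime_iff_eq hq hl).1 hz)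
  obtain ⟨j, rfl⟩ : ∃ j, k = j + 1 := ⟨k - 1, by omega⟩
  rw [Nat.add_sub_cancel] at hA
  have hA' : (A : ZMod q) = (a : ZMod q) ^ l ^ j := by rw [hA, Nat.cast_pow]
  apply orderOf_eq_prime_pow
  · rw [← hA']
    exact hne
  · rw [pow_succ, pow_mul, ← hA']
    exact hA1

end CFT
end

-- from Lib.CFT.X06
section

/-! # CFT X06 (S/M): such primes outside a finite set

PROOF. For k : ℕ let q k be the prime of x_prime (X05) for the exponent k + r + 2: orderOf (a : ZMod (q k)) = l^(k+r+2). q is injective (the orders are different), so some q k is outside the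
finite set B (Set.infinite_range_of_injective). l^r divides l^(k+r+2). q ∤ a: otherwise (a : ZMod q) = 0, whose order is 0 (orderOf of 0 in a nontrivial ring: orderOf_eq_zero_iff', or 0^n ≠ 1 for
n > 0). The last statement is x_pred (X04). -/

namespace CFT

theorem x_primes {a l : ℕ} (ha : 2 ≤ a) (hl : l.Prime) (r : ℕ) (B : Set ℕ) (hB : B.Finite) :
    ∃ q : ℕ, q.Prime ∧ q ∉ B ∧ ¬ q ∣ a ∧ l ^ r ∣ orderOf (a : ZMod q) ∧ l ^ r ∣ q - 1 := by
  choose q hq ho using fun k : ℕ => x_prime (a := a) (l := l) (k := k + r + 2) ha hl (by omega)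
  have hinj : Function.Injective q := by
    intro i j hij
    have h1 := ho i
    rw [hij, ho j] at h1
    have h2 := Nat.pow_right_injective hl.two_le h1
    omega
  obtain ⟨k, hk⟩ : ∃ k, q k ∉ B := by
    by_contra hcon
    push Not at hcon
    exact Set.infinite_range_of_injective hinj (hB.subset (by rintro _ ⟨i, rfl⟩; exact hcon i))
  have hd : l ^ r ∣ orderOf (a : ZMod (q k)) := by
    rw [ho k]
    exact pow_dvd_pow l (by omega)
  have hna : ¬ q k ∣ a := by
    intro h
    haveI : Fact (q k).Prime := ⟨hq k⟩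
    have h1 : (a : ZMod (q k)) = 0 := (ZMod.natCast_eq_zero_iff _ _).2 h
    have h2 := pow_orderOf_eq_one (a : ZMod (q k))
    rw [h1] at h2
    have h3 : orderOf (0 : ZMod (q k)) ≠ 0 := by
      rw [← h1, ho k]
      exact pow_ne_zero _ hl.ne_zero
    rw [zero_pow h3] at h2
    exact zero_ne_one h2
  exact ⟨q k, hq k, hk, hna, hd, x_pred (hq k) hna hd⟩

end CFT
end

-- from Lib.CFT.X15
section

/-! # CFT X15 (M): M is cyclotomic over the fixed field of H

PROOF. E = fixedField H. Let Z = adjoin E {zeta} (IntermediateField E M). An element t of Gal(M/E) fixing zeta is, as a K-automorphism, in H (IntermediateField.fixingSubgroup_fixedField: H = fixingSubgroup (fixedField H), M/K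
finite dimensional) and autToPow t = 1, so t = 1. So the fixing subgroup of Z is trivial and Z = ⊤ (Galois correspondence for M/E: IsGalois.fixedField_fixingSubgroup). Then M is a cyclotomic extension of E
(IsPrimitiveRoot.intermediateField_adjoin_isCyclotomicExtension, or the definition: primitive root exists, and Algebra.adjoin E {x | x^m = 1} = ⊤ from the integrality of zeta:
IntermediateField.adjoin_simple_toSubalgebra_of_integral). -/

open NumberField

namespace CFT

theorem x_fix {K : Type} [Field K] [NumberField K] {M : Type} [Field M] [NumberField M] [Algebra K M] [IsGalois K M] {m : ℕ} [NeZero m] {ζ : M}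
    (hζ : IsPrimitiveRoot ζ m) (H : Subgroup (M ≃ₐ[K] M)) (hH : ∀ z ∈ H, hζ.autToPow K z = 1 → z = 1) :
    IsCyclotomicExtension {m} (IntermediateField.fixedField H) M := by
  let E : IntermediateField K M := IntermediateField.fixedField H
  show IsCyclotomicExtension {m} E M
  have hEM : IsGalois E M := IsGalois.tower_top_of_isGalois K E M
  have hfd : FiniteDimensional E M := inferInstance
  let Z : IntermediateField E M := IntermediateField.adjoin E {ζ}
  have h1 : Z.fixingSubgroup = ⊥ := by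
    rw [Subgroup.eq_bot_iff_forall]
    intro t ht
    rw [IntermediateField.mem_fixingSubgroup_iff] at ht
    have h2 : t ζ = ζ := ht ζ (IntermediateField.mem_adjoin_simple_self E ζ)
    let t' : M ≃ₐ[K] M := t.restrictScalars K
    have h3 : t' ∈ H := by
      rw [← IntermediateField.fixingSubgroup_fixedField H, IntermediateField.mem_fixingSubgroup_iff]
      intro x hx
      exact t.commutes ⟨x, hx⟩
    have h4 : hζ.autToPow K t' = 1 := by
      have h5 : ζ ^ (hζ.autToPow K t' : ZMod m).val = ζ ^ 1 := by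
        rw [hζ.autToPow_spec K t', pow_one]
        exact h2
      rcases Nat.lt_or_ge 1 m with hm | hm
      · have h6 := hζ.pow_inj (ZMod.val_lt _) hm h5
        apply Units.ext
        rw [← ZMod.natCast_zmod_val (hζ.autToPow K t' : ZMod m), h6, Nat.cast_one]
        rfl
      · have hm1 : m = 1 := le_antisymm hm (Nat.one_le_iff_ne_zero.2 (NeZero.ne m))
        subst hm1
        apply Units.ext
        exact Subsingleton.elim _ _
    have h5 : t' = 1 := hH t' h3 h4
    ext y
    exact DFunLike.congr_fun h5 y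
  have h2 : Z = ⊤ := by
    rw [← IsGalois.fixedField_fixingSubgroup Z, h1, IntermediateField.fixedField_bot]
  have h3 : IsCyclotomicExtension {m} E Z := hζ.intermediateField_adjoin_isCyclotomicExtension E
  rw [h2] at h3
  exact IsCyclotomicExtension.equiv {m} E (⊤ : IntermediateField E M) IntermediateField.topEquiv

end CFT
end

-- from Lib.H34Z.A10
section

/-!
# A10: generic rational functions
-/

set_option autoImplicit false
set_option linter.unusedSectionVars false
namespace Pool.Agent.H34Z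
open Finset

variable {κ : Type*} [Fintype κ] [DecidableEq κ]

/-- PROOF. Let `r k = (Fintype.equivFin κ k : ℕ) + 1`, `N = Fintype.card κ + 1`.  Define `T = {k | k = i₀ ∨ (k ≠ π i₀ ∧ r k < r (π k))}`: for each `k` exactly
one of `k`, `π k` is in `T` (cases; `r` is injective and `π k ≠ k`).  Let `s k = N` if `k = i₀`, `s k = r k` if `k ∈ T`, `k ≠ i₀`, and `f k = s k` for
`k ∈ T`, `f k = -s (π k)` for `k ∉ T`.  `s` is positive, injective on `T`, with maximum at `i₀`. -/
theorem gen_so {π : κ → κ} (hinv : ∀ i, π (π i) = i) (hne : ∀ i, π i ≠ i) (i₀ : κ) :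
    ∃ f : κ → ℚ, Function.Injective f ∧ (∀ i, f (π i) = -f i) ∧ ∀ i, f i ≤ f i₀ := by
  classical
  obtain ⟨r, hr0, hr1, hrN⟩ : ∃ r : κ → ℚ, Function.Injective r ∧ (∀ k, 1 ≤ r k) ∧
      ∀ k, r k < (Fintype.card κ : ℚ) + 1 := by
    refine ⟨fun k => ((Fintype.equivFin κ k : ℕ) : ℚ) + 1, ?_, ?_, ?_⟩
    · intro k l h
      have h1 : (((Fintype.equivFin κ k : ℕ) : ℚ)) = ((Fintype.equivFin κ l : ℕ) : ℚ) := by
        simp only at h
        linarith
      exact (Fintype.equivFin κ).injective (Fin.ext (by exact_mod_cast h1))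
    · intro k
      have : (0 : ℚ) ≤ ((Fintype.equivFin κ k : ℕ) : ℚ) := Nat.cast_nonneg _
      simp only
      linarith
    · intro k
      have : ((Fintype.equivFin κ k : ℕ) : ℚ) < (Fintype.card κ : ℚ) := by
        exact_mod_cast (Fintype.equivFin κ k).2
      simp only
      linarith
  set N : ℚ := (Fintype.card κ : ℚ) + 1 with hN
  have hN0 : 0 < N := lt_of_lt_of_le (by linarith [hr1 i₀]) (hrN i₀).le
  have hπ : ∀ k l, π k = l → k = π l := fun k l h => by rw [← h, hinv]
  let f : κ → ℚ := fun k => if k = i₀ then N else if k = π i₀ then -N else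
    if r k < r (π k) then r k else -r (π k)
  have f0 : f i₀ = N := if_pos rfl
  have f1 : f (π i₀) = -N := by
    change (if π i₀ = i₀ then N else if π i₀ = π i₀ then -N else _) = -N
    rw [if_neg (hne i₀), if_pos rfl]
  have f2 : ∀ k, k ≠ i₀ → k ≠ π i₀ → f k = if r k < r (π k) then r k else -r (π k) := by
    intro k h1 h2
    change (if k = i₀ then N else if k = π i₀ then -N else _) = _
    rw [if_neg h1, if_neg h2]
  have f3 : ∀ k, k ≠ i₀ → k ≠ π i₀ → f k < N ∧ -N < f k ∧
      ((r k < r (π k) ∧ f k = r k) ∨ (r (π k) < r k ∧ f k = -r (π k))) := by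
    intro k h1 h2
    have e := f2 k h1 h2
    have a1 := hr1 k
    have a2 := hrN k
    have a3 := hr1 (π k)
    have a4 := hrN (π k)
    by_cases h : r k < r (π k)
    · rw [if_pos h] at e
      exact ⟨by rw [e]; linarith, by rw [e]; linarith, Or.inl ⟨h, e⟩⟩
    · rw [if_neg h] at e
      have h' : r (π k) < r k :=
        lt_of_le_of_ne (not_lt.1 h) fun h3 => hne k (hr0 h3)
      exact ⟨by rw [e]; linarith, by rw [e]; linarith, Or.inr ⟨h', e⟩⟩
  refine ⟨f, ?_, ?_, ?_⟩
  · intro k l hkl
    by_cases hk0 : k = i₀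
    · by_cases hl0 : l = i₀
      · rw [hk0, hl0]
      · exfalso
        rw [hk0, f0] at hkl
        by_cases hl1 : l = π i₀
        · rw [hl1, f1] at hkl
          linarith
        · have := (f3 l hl0 hl1).1
          linarith
    · by_cases hk1 : k = π i₀
      · by_cases hl0 : l = i₀
        · exfalso
          rw [hk1, hl0, f0, f1] at hkl
          linarith
        · by_cases hl1 : l = π i₀
          · rw [hk1, hl1]
          · exfalso
            rw [hk1, f1] at hkl
            have := (f3 l hl0 hl1).2.1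
            linarith
      · obtain ⟨b1, b2, b3⟩ := f3 k hk0 hk1
        by_cases hl0 : l = i₀
        · exfalso
          rw [hl0, f0] at hkl
          linarith
        · by_cases hl1 : l = π i₀
          · exfalso
            rw [hl1, f1] at hkl
            linarith
          · obtain ⟨c1, c2, c3⟩ := f3 l hl0 hl1
            have a1 := hr1 k
            have a2 := hr1 (π k)
            have a3 := hr1 l
            have a4 := hr1 (π l)
            rcases b3 with ⟨_, b3⟩ | ⟨_, b3⟩
            · rcases c3 with ⟨_, c3⟩ | ⟨_, c3⟩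
              · exact hr0 (by rw [← b3, ← c3, hkl])
              · exfalso
                linarith
            · rcases c3 with ⟨_, c3⟩ | ⟨_, c3⟩
              · exfalso
                linarith
              · have h5 : π k = π l := hr0 (by linarith)
                rw [← hinv k, h5, hinv]
  · intro k
    by_cases hk0 : k = i₀
    · rw [hk0, f0, f1]
    · by_cases hk1 : k = π i₀
      · rw [hk1, hinv, f0, f1, neg_neg]
      · have h1 : π k ≠ i₀ := fun h => hk1 (hπ k i₀ h)
        have h2 : π k ≠ π i₀ := fun h => hk0 (by rw [← hinv k, h, hinv])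
        obtain ⟨-, -, b3⟩ := f3 k hk0 hk1
        obtain ⟨-, -, c3⟩ := f3 (π k) h1 h2
        rw [hinv] at c3
        rcases b3 with ⟨b4, b3⟩ | ⟨b4, b3⟩
        · rcases c3 with ⟨c4, c3⟩ | ⟨c4, c3⟩
          · exact absurd b4 (not_lt.2 c4.le)
          · rw [c3, b3]
        · rcases c3 with ⟨c4, c3⟩ | ⟨c4, c3⟩
          · rw [c3, b3, neg_neg]
          · exact absurd b4 (not_lt.2 c4.le)
  · intro k
    rw [f0]
    by_cases hk0 : k = i₀
    · rw [hk0, f0]
    · by_cases hk1 : k = π i₀
      · rw [hk1, f1]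
        linarith
      · exact (f3 k hk0 hk1).1.le

/-- PROOF. Let `r k = (Fintype.equivFin κ k : ℕ)`, `N = Fintype.card κ`; `f k = -(N + r k)` for `k ≠ i₀`, `f i₀ = ∑ k ≠ i₀, (N + r k)`.
The numbers `N + r k`, `k ≠ i₀`, are positive and different, there are at least two of them, so `f i₀` is greater than each of them. -/
theorem gen_n (h3 : 3 ≤ Fintype.card κ) (i₀ : κ) :
    ∃ f : κ → ℚ, ∑ i, f i = 0 ∧ (∀ i j, |f i| = |f j| → i = j) ∧ (∀ i, f i ≠ 0) ∧ ∀ i, |f i| ≤ f i₀ := by
  classical
  obtain ⟨r, hr0, hr1⟩ : ∃ r : κ → ℚ, Function.Injective r ∧ ∀ k, 1 ≤ r k := by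
    refine ⟨fun k => ((Fintype.equivFin κ k : ℕ) : ℚ) + 1, ?_, ?_⟩
    · intro k l h
      have h1 : (((Fintype.equivFin κ k : ℕ) : ℚ)) = ((Fintype.equivFin κ l : ℕ) : ℚ) := by
        simp only at h
        linarith
      exact (Fintype.equivFin κ).injective (Fin.ext (by exact_mod_cast h1))
    · intro k
      have : (0 : ℚ) ≤ ((Fintype.equivFin κ k : ℕ) : ℚ) := Nat.cast_nonneg _
      simp only
      linarith
  set S : ℚ := ∑ k ∈ univ.erase i₀, r k with hS
  have hlt : ∀ k, k ≠ i₀ → r k < S := by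
    intro k hk
    have hcard : 0 < ((univ.erase i₀).erase k).card := by
      rw [card_erase_of_mem (mem_erase.2 ⟨hk, mem_univ k⟩), card_erase_of_mem (mem_univ i₀),
        card_univ]
      omega
    obtain ⟨j, hj⟩ := card_pos.1 hcard
    have h1 : S = r k + ∑ l ∈ (univ.erase i₀).erase k, r l :=
      (add_sum_erase _ r (mem_erase.2 ⟨hk, mem_univ k⟩)).symm
    have h2 : r j ≤ ∑ l ∈ (univ.erase i₀).erase k, r l :=
      single_le_sum (f := r) (fun l _ => by linarith [hr1 l]) hj
    linarith [hr1 j]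
  have hS0 : 0 < S := by
    have hcard : 0 < (univ.erase i₀).card := by
      rw [card_erase_of_mem (mem_univ i₀), card_univ]
      omega
    obtain ⟨j, hj⟩ := card_pos.1 hcard
    linarith [hlt j (ne_of_mem_erase hj), hr1 j]
  let f : κ → ℚ := fun k => if k = i₀ then S else -r k
  have f0 : f i₀ = S := if_pos rfl
  have f1 : ∀ k, k ≠ i₀ → f k = -r k := fun k hk => if_neg hk
  have g0 : |f i₀| = S := by rw [f0, abs_of_pos hS0]
  have g1 : ∀ k, k ≠ i₀ → |f k| = r k := fun k hk => by
    rw [f1 k hk, abs_neg, abs_of_pos (by linarith [hr1 k])]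
  refine ⟨f, ?_, ?_, ?_, ?_⟩
  · rw [← add_sum_erase _ f (mem_univ i₀), f0]
    have h1 : ∑ k ∈ univ.erase i₀, f k = -S := by
      rw [hS, ← sum_neg_distrib]
      exact sum_congr rfl fun k hk => f1 k (ne_of_mem_erase hk)
    rw [h1, add_neg_cancel]
  · intro i j hij
    by_cases hi : i = i₀
    · by_cases hj : j = i₀
      · rw [hi, hj]
      · exfalso
        rw [hi, g0, g1 j hj] at hij
        linarith [hlt j hj]
    · by_cases hj : j = i₀
      · exfalso
        rw [hj, g0, g1 i hi] at hij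
        linarith [hlt i hi]
      · rw [g1 i hi, g1 j hj] at hij
        exact hr0 hij
  · intro i hi
    by_cases h : i = i₀
    · rw [h, f0] at hi
      linarith
    · rw [f1 i h] at hi
      linarith [hr1 i]
  · intro i
    rw [f0]
    by_cases h : i = i₀
    · rw [h, g0]
    · rw [g1 i h]
      exact (hlt i h).le

/-- PROOF. Let `j₀` be the other element (`Fintype.card_eq_two` or `Finset.card_eq_two` for `univ`); `f i₀ = 1`, `f j₀ = -1`. -/
theorem gen_two (h2 : Fintype.card κ = 2) (i₀ : κ) :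
    ∃ f : κ → ℚ, ∑ i, f i = 0 ∧ Function.Injective f ∧ ∀ i, f i ≤ f i₀ := by
  classical
  have hcard : (univ.erase i₀).card = 1 := by
    rw [card_erase_of_mem (mem_univ i₀), card_univ]
    omega
  obtain ⟨j₀, hj₀⟩ := card_eq_one.1 hcard
  have hj : ∀ k, k ≠ i₀ → k = j₀ := by
    intro k hk
    have h1 : k ∈ univ.erase i₀ := mem_erase.2 ⟨hk, mem_univ k⟩
    rw [hj₀, mem_singleton] at h1
    exact h1
  refine ⟨fun k => if k = i₀ then 1 else -1, ?_, ?_, ?_⟩
  · rw [← add_sum_erase _ _ (mem_univ i₀), hj₀, sum_singleton, if_pos rfl, if_neg]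
    · ring
    · have h1 : j₀ ∈ univ.erase i₀ := by
        rw [hj₀]
        exact mem_singleton_self j₀
      exact ne_of_mem_erase h1
  · intro k l h
    simp only at h
    by_cases hk : k = i₀
    · by_cases hl : l = i₀
      · rw [hk, hl]
      · rw [if_pos hk, if_neg hl] at h
        norm_num at h
    · by_cases hl : l = i₀
      · rw [if_neg hk, if_pos hl] at h
        norm_num at h
      · rw [hj k hk, hj l hl]
  · intro k
    by_cases hk : k = i₀
    · rw [hk]
    · simp only
      rw [if_neg hk, if_pos trivial]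
      norm_num

end Pool.Agent.H34Z
end

-- from Lib.CFT.X07
section

/-! # CFT X07 (M): cyclotomic fields of different prime conductors are disjoint

PROOF. Let Z = adjoin ℚ {x | x^q = 1}, Z' the same for q'. They are cyclotomic extensions of ℚ ({q}, {q'}); e.g. Z = adjoin ℚ {ζ} for a primitive root ζ
(IsPrimitiveRoot.intermediateField_adjoin_isCyclotomicExtension; all roots are powers of ζ) and the same for Z ⊔ Z' = adjoin ℚ {ζ ζ'}-like field with {q q'}
(IntermediateField.isCyclotomicExtension_lcm_sup, used in Mathlib/NumberTheory/NumberField/Cyclotomic/Basic.lean, line 700). Degrees: IsCyclotomicExtension.finrank with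
Polynomial.cyclotomic.irreducible_rat: q - 1, q' - 1, (q-1)(q'-1) (Nat.totient_mul, Nat.totient_prime). Then IntermediateField.LinearDisjoint.of_finrank_sup and
IntermediateField.LinearDisjoint.inf_eq_bot. (Other way: NumberField discriminants, linearDisjoint_of_isGalois_isCoprime_discr, same file.) -/

namespace CFT

theorem X07_root {Ω : Type} [Field Ω] [CharZero Ω] [IsAlgClosed Ω] (n : ℕ) (hn : n ≠ 0) : ∃ r : Ω, IsPrimitiveRoot r n := by
  have : NeZero n := ⟨hn⟩
  have : NeZero (n : Ω) := ⟨Nat.cast_ne_zero.2 hn⟩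
  obtain ⟨x, hx⟩ := IsAlgClosed.exists_root (Polynomial.cyclotomic n Ω) (by
    rw [Polynomial.degree_cyclotomic]
    have := Nat.totient_pos.2 (Nat.pos_of_ne_zero hn)
    exact_mod_cast this.ne')
  exact ⟨x, (Polynomial.isRoot_cyclotomic_iff).1 hx⟩

theorem X07_cyc {K Ω : Type} [Field K] [Field Ω] [Algebra K Ω] [CharZero Ω] [IsAlgClosed Ω] (n : ℕ) (hn : n ≠ 0) :
    IsCyclotomicExtension {n} K (IntermediateField.adjoin K {x : Ω | x ^ n = 1}) := by
  have h := IntermediateField.isCyclotomicExtension_adjoin_of_exists_isPrimitiveRoot {n} K Ω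
    (fun m _ hm => X07_root m hm)
  have e : {b : Ω | ∃ m ∈ ({n} : Set ℕ), m ≠ 0 ∧ b ^ m = 1} = {x : Ω | x ^ n = 1} := by
    ext b
    constructor
    · rintro ⟨m, hm, _, hb⟩
      rw [Set.mem_singleton_iff] at hm
      subst hm
      exact hb
    · intro hb
      exact ⟨n, rfl, hn, hb⟩
  rw [e] at h
  exact h

theorem X07_gen {K Ω : Type} [Field K] [Field Ω] [Algebra K Ω] [CharZero Ω] [IsAlgClosed Ω] {q q' : ℕ} (hq : q ≠ 0) (hq' : q' ≠ 0)
    (hc : q.Coprime q') (hirr : ∀ n : ℕ, n ≠ 0 → Irreducible (Polynomial.cyclotomic n K)) :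
    IntermediateField.adjoin K {x : Ω | x ^ q = 1} ⊓ IntermediateField.adjoin K {x : Ω | x ^ q' = 1} = ⊥ := by
  have : NeZero q := ⟨hq⟩
  have : NeZero q' := ⟨hq'⟩
  have h1 := X07_cyc (K := K) (Ω := Ω) q hq
  have h2 := X07_cyc (K := K) (Ω := Ω) q' hq'
  have f1 : FiniteDimensional K (IntermediateField.adjoin K {x : Ω | x ^ q = 1}) :=
    IsCyclotomicExtension.finite_of_singleton q K _
  have f2 : FiniteDimensional K (IntermediateField.adjoin K {x : Ω | x ^ q' = 1}) :=
    IsCyclotomicExtension.finite_of_singleton q' K _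
  have h3 := IntermediateField.isCyclotomicExtension_lcm_sup K Ω q q'
    (IntermediateField.adjoin K {x : Ω | x ^ q = 1}) (IntermediateField.adjoin K {x : Ω | x ^ q' = 1})
  have : NeZero (q.lcm q') := ⟨Nat.lcm_ne_zero hq hq'⟩
  apply IntermediateField.LinearDisjoint.inf_eq_bot
  apply IntermediateField.LinearDisjoint.of_finrank_sup
  rw [IsCyclotomicExtension.finrank (n := q.lcm q') _ (hirr _ (NeZero.ne _)),
    IsCyclotomicExtension.finrank (n := q) _ (hirr _ hq),
    IsCyclotomicExtension.finrank (n := q') _ (hirr _ hq')]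
  rw [hc.lcm_eq_mul, Nat.totient_mul hc]

theorem x_disj {Ω : Type} [Field Ω] [CharZero Ω] [IsAlgClosed Ω] {q q' : ℕ} (hq : q.Prime) (hq' : q'.Prime) (hne : q ≠ q') :
    IntermediateField.adjoin ℚ {x : Ω | x ^ q = 1} ⊓ IntermediateField.adjoin ℚ {x : Ω | x ^ q' = 1} = ⊥ :=
  X07_gen hq.ne_zero hq'.ne_zero ((Nat.coprime_primes hq hq').2 hne)
    (fun _ hn => Polynomial.cyclotomic.irreducible_rat (Nat.pos_of_ne_zero hn))

end CFT
end

-- from Lib.CFT.X08
section

/-! # CFT X08 (M): a reducible cyclotomic polynomial gives a common element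

PROOF. Ω = AlgebraicClosure L, ζ a primitive q-th root of unity in Ω, f = minpoly L ζ, Z = adjoin ℚ {x | x^q = 1}. Suppose that every c in L whose image is in Z is in ⊥ (rational). f divides cyclotomic q L,
so all roots of f in Ω are roots of unity, in Z; f.map = product of the (X - root), so its coefficients are in Z (Polynomial.Splits, coeff of a product of linear factors over the
subfield Z: e.g. lift the multiset of roots to Z). So all coefficients of f are rational: f = g.map (algebraMap ℚ L) with g in ℚ[X] monic, g(ζ) = 0, so cyclotomic q ℚ = minpoly ℚ ζ divides g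
(Polynomial.cyclotomic_eq_minpoly_rat), so q - 1 = natDegree (cyclotomic q L) <= natDegree f and f = cyclotomic q L, which is irreducible (minpoly.irreducible). Contradiction.
Other way: [Ω ⊇ L(ζ) : L] etc. by Galois theory of Z/ℚ. -/

namespace CFT

open Polynomial in
theorem X08_coeff {Ω : Type} [Field Ω] (Z : Subfield Ω) (f : Polynomial Ω) (hm : f.Monic) (hs : f.Splits)
    (hr : ∀ x : Ω, f.IsRoot x → x ∈ Z) (n : ℕ) : f.coeff n ∈ Z := by
  have h1 : f ∈ Polynomial.lifts (algebraMap Z Ω) := by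
    rw [hs.eq_prod_roots_of_monic hm]
    refine Subsemiring.multiset_prod_mem _ _ ?_
    intro p hp
    obtain ⟨a, ha, rfl⟩ := Multiset.mem_map.1 hp
    have ha' : a ∈ Z := hr a (Polynomial.isRoot_of_mem_roots ha)
    rw [Polynomial.mem_lifts]
    refine ⟨X - C ⟨a, ha'⟩, ?_⟩
    rw [Polynomial.map_sub, Polynomial.map_X, Polynomial.map_C]
    rfl
  rw [Polynomial.lifts_iff_coeff_lifts] at h1
  obtain ⟨z, hz⟩ := h1 n
  rw [← hz]
  exact z.2

theorem x_coef {L : Type} [Field L] [CharZero L] {q : ℕ} (hq : q.Prime) (h : ¬ Irreducible (Polynomial.cyclotomic q L)) :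
    ∃ c : L, algebraMap L (AlgebraicClosure L) c ∈ IntermediateField.adjoin ℚ {x : AlgebraicClosure L | x ^ q = 1} ∧
      c ∉ (⊥ : IntermediateField ℚ L) := by
  by_contra hcon
  push Not at hcon
  apply h
  have : NeZero q := ⟨hq.ne_zero⟩
  have : CharZero (AlgebraicClosure L) := charZero_of_injective_algebraMap (algebraMap L (AlgebraicClosure L)).injective
  have : NeZero (q : AlgebraicClosure L) := ⟨Nat.cast_ne_zero.2 hq.ne_zero⟩
  obtain ⟨ζ, hζ⟩ : ∃ ζ : AlgebraicClosure L, IsPrimitiveRoot ζ q := by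
    obtain ⟨x, hx⟩ := IsAlgClosed.exists_root (Polynomial.cyclotomic q (AlgebraicClosure L)) (by
      rw [Polynomial.degree_cyclotomic]
      have := Nat.totient_pos.2 hq.pos
      exact_mod_cast this.ne')
    exact ⟨x, (Polynomial.isRoot_cyclotomic_iff).1 hx⟩
  have hint : IsIntegral L ζ := Algebra.IsIntegral.isIntegral ζ
  set f := minpoly L ζ with hf
  have hroot : Polynomial.aeval ζ (Polynomial.cyclotomic q L) = 0 := by
    rw [Polynomial.aeval_def, Polynomial.eval₂_eq_eval_map, Polynomial.map_cyclotomic]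
    exact (Polynomial.isRoot_cyclotomic_iff).2 hζ
  have hdvd : f ∣ Polynomial.cyclotomic q L := minpoly.dvd L ζ hroot
  have hfm : f.Monic := minpoly.monic hint
  have hcoef : ∀ n, algebraMap L (AlgebraicClosure L) (f.coeff n) ∈
      IntermediateField.adjoin ℚ {x : AlgebraicClosure L | x ^ q = 1} := by
    intro n
    rw [← Polynomial.coeff_map]
    apply X08_coeff (IntermediateField.adjoin ℚ {x : AlgebraicClosure L | x ^ q = 1}).toSubfield
    · exact hfm.map _
    · exact IsAlgClosed.splits _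
    · intro x hx
      apply IntermediateField.subset_adjoin
      show x ^ q = 1
      have h1 : f.map (algebraMap L (AlgebraicClosure L)) ∣ Polynomial.cyclotomic q (AlgebraicClosure L) := by
        rw [← Polynomial.map_cyclotomic q (algebraMap L (AlgebraicClosure L))]
        exact Polynomial.map_dvd _ hdvd
      have h2 := hx.dvd h1
      exact ((Polynomial.isRoot_cyclotomic_iff).1 h2).pow_eq_one
  have hrat : ∀ n, f.coeff n ∈ Set.range (algebraMap ℚ L) := fun n =>
    IntermediateField.mem_bot.1 (hcon _ (hcoef n))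
  have hlift : f ∈ Polynomial.lifts (algebraMap ℚ L) := by
    rw [Polynomial.lifts_iff_coeff_lifts]
    exact hrat
  obtain ⟨g, hg⟩ := (Polynomial.mem_lifts _).1 hlift
  have hgd : g.natDegree = f.natDegree := by
    rw [← hg, Polynomial.natDegree_map]
  have hg0 : g ≠ 0 := by
    rintro rfl
    rw [Polynomial.map_zero] at hg
    exact hfm.ne_zero hg.symm
  have hgz : Polynomial.aeval ζ g = 0 := by
    have h1 : Polynomial.aeval ζ f = 0 := minpoly.aeval L ζ
    rw [← hg, Polynomial.aeval_map_algebraMap] at h1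
    exact h1
  have hd2 : Polynomial.cyclotomic q ℚ ∣ g := by
    rw [Polynomial.cyclotomic_eq_minpoly_rat hζ hq.pos]
    exact minpoly.dvd ℚ ζ hgz
  have hle : (Polynomial.cyclotomic q L).natDegree ≤ f.natDegree := by
    rw [← hgd, Polynomial.natDegree_cyclotomic, ← Polynomial.natDegree_cyclotomic q ℚ]
    exact Polynomial.natDegree_le_of_dvd hd2 hg0
  have heq : f = Polynomial.cyclotomic q L :=
    (Polynomial.eq_of_monic_of_dvd_of_natDegree_le hfm (Polynomial.cyclotomic.monic q L) hdvd hle).symm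
  rw [← heq]
  exact minpoly.irreducible hint

end CFT
end

-- from Lib.CFT.X09
section

/-! # CFT X09 (M): only finitely many cyclotomic polynomials of prime conductor are reducible over a number field (no ramification theory)

PROOF. Ω = AlgebraicClosure L, j : L →ₐ[ℚ] Ω, Z q = adjoin ℚ {x | x^q = 1}, B q = (Z q).comap j : IntermediateField ℚ L. For a bad prime q, B q ≠ ⊥ (x_coef, X08). For two different bad primes
B q ≠ B q': an element c of B q = B q' has image in Z q ⊓ Z q' = ⊥ (x_disj, X07), so it is rational (j is injective and j (r) = r), so B q = ⊥, contradiction. IntermediateField ℚ L is finite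
(Field.exists_primitive_element_iff_finite_intermediateField, Field.exists_primitive_element; there may be an instance), so the set of bad primes is finite (Set.Finite.of_injOn or
Set.Finite.of_finite_image, with injectivity of B on the bad primes). -/

open NumberField

namespace CFT

theorem x_bad (L : Type) [Field L] [NumberField L] : {q : ℕ | q.Prime ∧ ¬ Irreducible (Polynomial.cyclotomic q L)}.Finite := by
  classical
  let j : L →ₐ[ℚ] AlgebraicClosure L := IsScalarTower.toAlgHom ℚ L (AlgebraicClosure L)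
  let B : ℕ → IntermediateField ℚ L := fun q => (IntermediateField.adjoin ℚ {x : AlgebraicClosure L | x ^ q = 1}).comap j
  haveI : Finite (IntermediateField ℚ L) := (Field.exists_primitive_element_iff_finite_intermediateField ℚ L).1
    ⟨inferInstance, Field.exists_primitive_element ℚ L⟩
  refine Set.Finite.of_finite_image (f := B) (Set.toFinite _) ?_
  rintro q ⟨hq, hqi⟩ q' ⟨hq', hqi'⟩ hBB
  by_contra hne
  obtain ⟨c, hc, hcb⟩ := x_coef hq hqi
  apply hcb
  have h1 : c ∈ B q := hc
  rw [show B q = B q' from hBB] at h1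
  have h2 : algebraMap L (AlgebraicClosure L) c ∈ IntermediateField.adjoin ℚ {x : AlgebraicClosure L | x ^ q' = 1} := h1
  have h3 : algebraMap L (AlgebraicClosure L) c ∈ IntermediateField.adjoin ℚ {x : AlgebraicClosure L | x ^ q = 1} ⊓
      IntermediateField.adjoin ℚ {x : AlgebraicClosure L | x ^ q' = 1} := ⟨hc, h2⟩
  have h4 := x_disj (Ω := AlgebraicClosure L) hq hq' hne
  rw [h4, IntermediateField.mem_bot] at h3
  obtain ⟨r, hr⟩ := h3
  rw [IntermediateField.mem_bot]
  refine ⟨r, (algebraMap L (AlgebraicClosure L)).injective ?_⟩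
  rw [← hr, eq_ratCast, map_ratCast, eq_ratCast]


end CFT
end

-- from Lib.CFT.X10
section

/-! # CFT X10 (M): cyclotomic polynomials of conductor q₁ q₂

PROOF. B = the bad set of L (x_bad, X09). For a prime q₁ not in B let L₁ = CyclotomicField q₁ L (a number field) and B' = the bad set of L₁ together with q₁. Let q₂ be a prime not in B'. Let
M = CyclotomicField q₂ L₁ (or an algebraic closure of L₁). [L₁ : L] = q₁ - 1, [M : L₁] = q₂ - 1 (IsCyclotomicExtension.finrank), so [M : L] = (q₁ - 1)(q₂ - 1). M is generated over L by a primitive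
q₁ q₂-th root of unity ζ (ζ₁ ζ₂; it is a cyclotomic extension of L: IsCyclotomicExtension.trans gives {q₁} ∪ {q₂}; IsCyclotomicExtension of lcm), so minpoly L ζ has degree
(q₁-1)(q₂-1) = natDegree (cyclotomic (q₁ q₂) L), divides it and both are monic: equal; irreducible. -/

open NumberField

namespace CFT

/-- Towers of cyclotomic extensions. -/
theorem x10_tower {L L₁ M : Type} [Field L] [Field L₁] [Field M] [CharZero L] [Algebra L L₁] [Algebra L M] [Algebra L₁ M] [IsScalarTower L L₁ M]
    {q₁ q₂ : ℕ} [NeZero q₁] [NeZero q₂] [IsCyclotomicExtension {q₁} L L₁] [IsCyclotomicExtension {q₂} L₁ M] (hc : q₁.Coprime q₂)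
    (h1 : Irreducible (Polynomial.cyclotomic q₁ L)) (h2 : Irreducible (Polynomial.cyclotomic q₂ L₁)) :
    Irreducible (Polynomial.cyclotomic (q₁ * q₂) L) := by
  have hT : IsCyclotomicExtension ({q₁} ∪ {q₂}) L M := IsCyclotomicExtension.trans {q₁} {q₂} L L₁ M (algebraMap L₁ M).injective
  have hd1 : Module.finrank L L₁ = q₁.totient := IsCyclotomicExtension.finrank L₁ h1
  have hd2 : Module.finrank L₁ M = q₂.totient := IsCyclotomicExtension.finrank M h2
  haveI : FiniteDimensional L L₁ := IsCyclotomicExtension.finiteDimensional {q₁} L L₁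
  haveI : FiniteDimensional L₁ M := IsCyclotomicExtension.finiteDimensional {q₂} L₁ M
  haveI : FiniteDimensional L M := FiniteDimensional.trans L L₁ M
  have hd : Module.finrank L M = (q₁ * q₂).totient := by
    rw [← Module.finrank_mul_finrank L L₁ M, hd1, hd2, Nat.totient_mul hc]
  obtain ⟨z1, hz1⟩ := IsCyclotomicExtension.exists_isPrimitiveRoot (S := {q₁} ∪ {q₂}) (A := L) (B := M) (n := q₁) (Or.inl rfl) (NeZero.ne q₁)
  obtain ⟨z2, hz2⟩ := IsCyclotomicExtension.exists_isPrimitiveRoot (S := {q₁} ∪ {q₂}) (A := L) (B := M) (n := q₂) (Or.inr rfl) (NeZero.ne q₂)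
  have hord : orderOf (z1 * z2) = q₁ * q₂ := by
    have h3 : (orderOf z1).Coprime (orderOf z2) := by
      rw [← hz1.eq_orderOf, ← hz2.eq_orderOf]
      exact hc
    rw [(Commute.all z1 z2).orderOf_mul_eq_mul_orderOf_of_coprime h3, ← hz1.eq_orderOf, ← hz2.eq_orderOf]
  have hz : IsPrimitiveRoot (z1 * z2) (q₁ * q₂) := by
    rw [← hord]
    exact IsPrimitiveRoot.orderOf _
  haveI : NeZero (q₁ * q₂) := ⟨mul_ne_zero (NeZero.ne q₁) (NeZero.ne q₂)⟩
  have hint : IsIntegral L (z1 * z2) := Algebra.IsIntegral.isIntegral _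
  have htop : IntermediateField.adjoin L {z1 * z2} = ⊤ := by
    rw [eq_top_iff]
    intro x _
    have h3 : x ∈ Algebra.adjoin L {b : M | ∃ n : ℕ, n ∈ ({q₁} ∪ {q₂} : Set ℕ) ∧ n ≠ 0 ∧ b ^ n = 1} := hT.adjoin_roots x
    have h4 : Algebra.adjoin L {b : M | ∃ n : ℕ, n ∈ ({q₁} ∪ {q₂} : Set ℕ) ∧ n ≠ 0 ∧ b ^ n = 1} ≤ (IntermediateField.adjoin L {z1 * z2}).toSubalgebra := by
      rw [Algebra.adjoin_le_iff]
      rintro b ⟨n, hn, _, hb⟩
      have h5 : b ^ (q₁ * q₂) = 1 := by
        rcases hn with hn | hn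
        · rw [Set.mem_singleton_iff] at hn
          subst hn
          rw [pow_mul, hb, one_pow]
        · rw [Set.mem_singleton_iff] at hn
          subst hn
          rw [mul_comm, pow_mul, hb, one_pow]
      obtain ⟨i, _, hi⟩ := hz.eq_pow_of_pow_eq_one h5
      rw [← hi]
      exact pow_mem (IntermediateField.subset_adjoin L {z1 * z2} rfl) i
    exact h4 h3
  have hdeg : (minpoly L (z1 * z2)).natDegree = (q₁ * q₂).totient := by
    rw [← IntermediateField.adjoin.finrank hint, htop, IntermediateField.finrank_top', hd]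
  have hdvd : minpoly L (z1 * z2) ∣ Polynomial.cyclotomic (q₁ * q₂) L := by
    apply minpoly.dvd
    rw [← Polynomial.eval_map_algebraMap, Polynomial.map_cyclotomic]
    exact (hz.isRoot_cyclotomic (Nat.pos_of_ne_zero (NeZero.ne _)))
  have heq : Polynomial.cyclotomic (q₁ * q₂) L = minpoly L (z1 * z2) := by
    refine Polynomial.eq_of_monic_of_dvd_of_natDegree_le (minpoly.monic hint) (Polynomial.cyclotomic.monic _ _) hdvd ?_
    rw [hdeg, Polynomial.natDegree_cyclotomic]
  rw [heq]
  exact minpoly.irreducible hint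

theorem x_irr2 (L : Type) [Field L] [NumberField L] :
    ∃ B : Set ℕ, B.Finite ∧ ∀ q₁ : ℕ, q₁.Prime → q₁ ∉ B → ∃ B' : Set ℕ, B'.Finite ∧ q₁ ∈ B' ∧
      ∀ q₂ : ℕ, q₂.Prime → q₂ ∉ B' → Irreducible (Polynomial.cyclotomic (q₁ * q₂) L) := by
  refine ⟨{q : ℕ | q.Prime ∧ ¬ Irreducible (Polynomial.cyclotomic q L)}, x_bad L, fun q₁ hq₁ hb₁ => ?_⟩
  haveI : NeZero q₁ := ⟨hq₁.ne_zero⟩
  have h1 : Irreducible (Polynomial.cyclotomic q₁ L) := by
    by_contra h
    exact hb₁ ⟨hq₁, h⟩
  refine ⟨{q : ℕ | q.Prime ∧ ¬ Irreducible (Polynomial.cyclotomic q (CyclotomicField q₁ L))} ∪ {q₁}, (x_bad _).union (Set.finite_singleton _), Or.inr rfl, ?_⟩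
  intro q₂ hq₂ hb₂
  haveI : NeZero q₂ := ⟨hq₂.ne_zero⟩
  have h2 : Irreducible (Polynomial.cyclotomic q₂ (CyclotomicField q₁ L)) := by
    by_contra h
    exact hb₂ (Or.inl ⟨hq₂, h⟩)
  have hne : q₁ ≠ q₂ := fun h => hb₂ (Or.inr h.symm)
  exact x10_tower (L₁ := CyclotomicField q₁ L) (M := CyclotomicField q₂ (CyclotomicField q₁ L)) ((Nat.coprime_primes hq₁ hq₂).2 hne) h1 h2


end CFT
end
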