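import Mathlib

/-! Merged copies (to shorten the build) of Lib.CFT.X01, Lib.CFT.X02, Lib.CFT.X03, Lib.CFT.X14, Lib.H60.UDef.Dio, Lib.H60.UDef.Params, Lib.H60.UDef.ParamRel, Lib.H60.UDef.Defs, Lib.H60.UDef.Formulas, Lib.H60.UDef.Chain, Lib.H60.UDef.PadicEmb, Lib.H60.UDef.SplitPrime, Lib.H60.UDef.Tern, Lib.H60.UDef.TernComplete, Lib.H60.UDef.Subfield, Lib.H34V.V05, Lib.SZ.Defs, Lib.SZ.B3, Lib.SZ.E00, Lib.SZ.E27. -/

-- from Lib.CFT.X01
section

/-! # CFT X01 (S/M): a cyclic group has one subgroup of order l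

PROOF. Take c₁ ≠ 1 in zpowers t₁ and zpowers a; its order divides l^r, so it is l^j with j >= 1; replace c₁ by c₁^(l^(j-1)): order exactly l. The same for
c₂ in zpowers t₂ and zpowers a. In the cyclic group zpowers a there are at most l elements x with x^l = 1 (IsCyclic.card_pow_eq_one_le), and zpowers c₁ consists of l
such elements; so c₂ is in zpowers c₁ (for instance: zpowers c₁ and zpowers c₂ are subgroups of zpowers a with the same number l of elements, so they are equal).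
So c₂ ≠ 1 is in zpowers t₁ and in zpowers t₂. -/

namespace CFT

theorem x1_ord {Γ : Type} [CommGroup Γ] [Finite Γ] {l r : ℕ} (hl : l.Prime) {a t : Γ} (h1 : t ^ l ^ r = 1)
    (n1 : ¬ Disjoint (Subgroup.zpowers t) (Subgroup.zpowers a)) :
    ∃ c : Γ, orderOf c = l ∧ c ∈ Subgroup.zpowers t ∧ c ∈ Subgroup.zpowers a := by
  rw [Subgroup.disjoint_def] at n1
  push Not at n1
  obtain ⟨c, hct, hca, hc1⟩ := n1
  have h2 : c ^ l ^ r = 1 := by
    obtain ⟨i, hi⟩ := Subgroup.mem_zpowers_iff.1 hct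
    rw [← hi, ← zpow_natCast, ← zpow_mul, mul_comm, zpow_mul, zpow_natCast, h1, one_zpow]
  obtain ⟨j, _, hj⟩ := (Nat.dvd_prime_pow hl).1 (orderOf_dvd_of_pow_eq_one h2)
  have hj0 : j ≠ 0 := by
    rintro rfl
    rw [pow_zero, orderOf_eq_one_iff] at hj
    exact hc1 hj
  obtain ⟨i, rfl⟩ := Nat.exists_eq_succ_of_ne_zero hj0
  refine ⟨c ^ l ^ i, ?_, Subgroup.pow_mem _ hct _, Subgroup.pow_mem _ hca _⟩
  rw [orderOf_pow_of_dvd (pow_ne_zero _ hl.ne_zero) (by rw [hj]; exact pow_dvd_pow _ (Nat.le_succ i)), hj,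
    Nat.pow_div (Nat.le_succ i) hl.pos, Nat.succ_sub (le_refl i), Nat.sub_self, pow_one]

theorem x_cyc {Γ : Type} [CommGroup Γ] [Finite Γ] {l r : ℕ} (hl : l.Prime) {a t₁ t₂ : Γ} (h1 : t₁ ^ l ^ r = 1) (h2 : t₂ ^ l ^ r = 1)
    (n1 : ¬ Disjoint (Subgroup.zpowers t₁) (Subgroup.zpowers a)) (n2 : ¬ Disjoint (Subgroup.zpowers t₂) (Subgroup.zpowers a)) :
    ¬ Disjoint (Subgroup.zpowers t₁) (Subgroup.zpowers t₂) := by
  obtain ⟨c₁, hc₁, m1, m1'⟩ := x1_ord hl h1 n1
  obtain ⟨c₂, hc₂, m2, m2'⟩ := x1_ord hl h2 n2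
  intro hd
  rw [Subgroup.disjoint_def] at hd
  have h3 : c₂ ∈ Subgroup.zpowers c₁ := by
    classical
    haveI : Fintype Γ := Fintype.ofFinite Γ
    have h4 : (Finset.univ.filter fun x : Subgroup.zpowers a => x ^ l = 1).card ≤ l :=
      IsCyclic.card_pow_eq_one_le hl.pos
    let f : Subgroup.zpowers c₁ → Subgroup.zpowers a := fun x =>
      ⟨x.1, (Subgroup.zpowers_le.2 m1') x.2⟩
    have h5 : (Finset.univ.image f).card = l := by
      rw [Finset.card_image_of_injective]
      · rw [Finset.card_univ, ← Nat.card_eq_fintype_card, Nat.card_zpowers, hc₁]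
      · intro x y hxy
        exact Subtype.ext (congrArg (fun z : Subgroup.zpowers a => (z : Γ)) hxy)
    have h6 : Finset.univ.image f ⊆ Finset.univ.filter fun x : Subgroup.zpowers a => x ^ l = 1 := by
      intro x hx
      obtain ⟨y, _, rfl⟩ := Finset.mem_image.1 hx
      rw [Finset.mem_filter]
      refine ⟨Finset.mem_univ _, Subtype.ext ?_⟩
      show (y : Γ) ^ l = 1
      obtain ⟨i, hi⟩ := Subgroup.mem_zpowers_iff.1 y.2
      rw [← hi, ← zpow_natCast, ← zpow_mul, mul_comm, zpow_mul, zpow_natCast, ← hc₁, pow_orderOf_eq_one, one_zpow]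
    have h7 := Finset.eq_of_subset_of_card_le h6 (by rw [h5]; exact h4)
    have h8 : (⟨c₂, m2'⟩ : Subgroup.zpowers a) ∈ Finset.univ.image f := by
      rw [h7, Finset.mem_filter]
      refine ⟨Finset.mem_univ _, Subtype.ext ?_⟩
      show c₂ ^ l = 1
      rw [← hc₂, pow_orderOf_eq_one]
    obtain ⟨y, _, hy⟩ := Finset.mem_image.1 h8
    have h9 : (y : Γ) = c₂ := congrArg (fun z : Subgroup.zpowers a => (z : Γ)) hy
    rw [← h9]
    exact y.2
  have h4 := hd ((Subgroup.zpowers_le.2 m1) h3) m2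
  rw [h4, orderOf_one] at hc₂
  exact hl.one_lt.ne hc₂

end CFT
end

-- from Lib.CFT.X02
section

/-! # CFT X02 (M): the element tau

PROOF. u₁, u₂ and u₁ u₂ have order l^r and the three groups zpowers u₁, zpowers u₂, zpowers (u₁ u₂) are pairwise disjoint: if (u₁ u₂)^j = u₁^i then
u₂^j = u₁^(i-j) is in both zpowers u₁, zpowers u₂, so u₂^j = 1, l^r divides j, u₁^j = 1 and (u₁ u₂)^j = 1; the same for u₂. ((u₁ u₂)^j = 1 gives u₂^j = u₁^(-j) = 1, so
l^r divides j: the order.) By x_cyc (X01) zpowers a is not disjoint from at most one of the three groups, the same for zpowers b; so one of the three elements is good. -/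

namespace CFT

theorem x_tau {Γ : Type} [CommGroup Γ] [Finite Γ] {l r : ℕ} (hl : l.Prime) {u₁ u₂ : Γ} (h1 : orderOf u₁ = l ^ r) (h2 : orderOf u₂ = l ^ r)
    (hd : Disjoint (Subgroup.zpowers u₁) (Subgroup.zpowers u₂)) (a b : Γ) :
    ∃ τ : Γ, orderOf τ = l ^ r ∧ Disjoint (Subgroup.zpowers τ) (Subgroup.zpowers a) ∧ Disjoint (Subgroup.zpowers τ) (Subgroup.zpowers b) := by
  have key : ∀ {s t : Γ}, orderOf s = l ^ r → orderOf t = l ^ r → Disjoint (Subgroup.zpowers s) (Subgroup.zpowers t) →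
      ∀ c : Γ, Disjoint (Subgroup.zpowers s) (Subgroup.zpowers c) ∨ Disjoint (Subgroup.zpowers t) (Subgroup.zpowers c) := by
    intro s t hs ht hst c
    by_contra hcon
    rw [not_or] at hcon
    exact x_cyc hl (by rw [← hs, pow_orderOf_eq_one]) (by rw [← ht, pow_orderOf_eq_one]) hcon.1 hcon.2 hst
  have h3 : ∀ i j : ℤ, (u₁ * u₂) ^ j = u₁ ^ i → u₂ ^ j = 1 ∧ u₁ ^ j = 1 := by
    intro i j hij
    have e1 : u₂ ^ j = u₁ ^ (i - j) := by
      rw [mul_zpow] at hij
      rw [zpow_sub, ← hij, mul_comm (u₁ ^ j) (u₂ ^ j), mul_assoc, mul_inv_cancel, mul_one]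
    rw [Subgroup.disjoint_def] at hd
    have e2 : u₂ ^ j = 1 := by
      apply hd
      · rw [e1]
        exact Subgroup.zpow_mem_zpowers _ _
      · exact Subgroup.zpow_mem_zpowers _ _
    refine ⟨e2, ?_⟩
    rw [← orderOf_dvd_iff_zpow_eq_one, h1, ← h2, orderOf_dvd_iff_zpow_eq_one]
    exact e2
  have h4 : ∀ i j : ℤ, (u₁ * u₂) ^ j = u₂ ^ i → u₂ ^ j = 1 ∧ u₁ ^ j = 1 := by
    intro i j hij
    have e1 : u₁ ^ j = u₂ ^ (i - j) := by
      rw [mul_zpow] at hij
      rw [zpow_sub, ← hij]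
      group
    rw [Subgroup.disjoint_def] at hd
    have e2 : u₁ ^ j = 1 := by
      apply hd
      · exact Subgroup.zpow_mem_zpowers _ _
      · rw [e1]
        exact Subgroup.zpow_mem_zpowers _ _
    refine ⟨?_, e2⟩
    rw [← orderOf_dvd_iff_zpow_eq_one, h2, ← h1, orderOf_dvd_iff_zpow_eq_one]
    exact e2
  have h5 : orderOf (u₁ * u₂) = l ^ r := by
    apply Nat.dvd_antisymm
    · apply orderOf_dvd_of_pow_eq_one
      rw [mul_pow]
      nth_rewrite 1 [← h1]
      rw [← h2, pow_orderOf_eq_one, pow_orderOf_eq_one, mul_one]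
    · have e1 : (u₁ * u₂) ^ (orderOf (u₁ * u₂) : ℤ) = u₁ ^ (0 : ℤ) := by
        rw [zpow_natCast, pow_orderOf_eq_one, zpow_zero]
      have e2 := (h3 _ _ e1).1
      rw [← h2]
      rw [zpow_natCast] at e2
      exact orderOf_dvd_of_pow_eq_one e2
  have d1 : Disjoint (Subgroup.zpowers u₁) (Subgroup.zpowers (u₁ * u₂)) := by
    rw [Subgroup.disjoint_def]
    intro x hx1 hx2
    obtain ⟨i, hi⟩ := Subgroup.mem_zpowers_iff.1 hx1
    obtain ⟨j, hj⟩ := Subgroup.mem_zpowers_iff.1 hx2
    obtain ⟨e1, e2⟩ := h3 i j (hj.trans hi.symm)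
    rw [← hj, mul_zpow, e1, e2, one_mul]
  have d2 : Disjoint (Subgroup.zpowers u₂) (Subgroup.zpowers (u₁ * u₂)) := by
    rw [Subgroup.disjoint_def]
    intro x hx1 hx2
    obtain ⟨i, hi⟩ := Subgroup.mem_zpowers_iff.1 hx1
    obtain ⟨j, hj⟩ := Subgroup.mem_zpowers_iff.1 hx2
    obtain ⟨e1, e2⟩ := h4 i j (hj.trans hi.symm)
    rw [← hj, mul_zpow, e1, e2, one_mul]
  by_contra hcon
  push Not at hcon
  have g1 := hcon u₁ h1
  have g2 := hcon u₂ h2
  have g3 := hcon (u₁ * u₂) h5
  have k12a := key h1 h2 hd a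
  have k12b := key h1 h2 hd b
  have k13a := key h1 h5 d1 a
  have k13b := key h1 h5 d1 b
  have k23a := key h2 h5 d2 a
  have k23b := key h2 h5 d2 b
  tauto

end CFT
end

-- from Lib.CFT.X03
section

/-! # CFT X03 (M): two independent units modulo q₁ q₂

PROOF. e : (ZMod (q₁ q₂))ˣ ≃* (ZMod q₁)ˣ × (ZMod q₂)ˣ (Units.mapEquiv of ZMod.chineseRemainder, MulEquiv.prodUnits). (ZMod q_i)ˣ is cyclic of order q_i - 1
(ZMod.isCyclic_units_prime, ZMod.card_units), so it has an element w_i of order l^r (orderOf_pow of a generator, exponent (q_i - 1) / l^r). u₁ = e.symm (w₁, 1), u₂ = e.symm (1, w₂). -/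

namespace CFT

theorem x3_elt {q l r : ℕ} (h1 : q.Prime) (d1 : l ^ r ∣ q - 1) : ∃ w : (ZMod q)ˣ, orderOf w = l ^ r := by
  haveI : Fact q.Prime := ⟨h1⟩
  obtain ⟨g, hg⟩ := IsCyclic.exists_generator (α := (ZMod q)ˣ)
  have h2 : orderOf g = q - 1 := by
    rw [orderOf_eq_card_of_forall_mem_zpowers hg, Nat.card_eq_fintype_card, ZMod.card_units]
  have hq1 : 0 < q - 1 := Nat.sub_pos_of_lt h1.one_lt
  refine ⟨g ^ ((q - 1) / l ^ r), ?_⟩
  have h3 : (q - 1) / l ^ r ∣ orderOf g := by
    rw [h2]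
    exact Nat.div_dvd_of_dvd d1
  have h4 : (q - 1) / l ^ r ≠ 0 := (Nat.div_pos (Nat.le_of_dvd hq1 d1) (Nat.pos_of_dvd_of_pos d1 hq1)).ne'
  rw [orderOf_pow_of_dvd h4 h3, h2, Nat.div_div_self d1 hq1.ne']

theorem x_units {q₁ q₂ l r : ℕ} (h1 : q₁.Prime) (h2 : q₂.Prime) (hne : q₁ ≠ q₂) (d1 : l ^ r ∣ q₁ - 1) (d2 : l ^ r ∣ q₂ - 1) :
    ∃ u₁ u₂ : (ZMod (q₁ * q₂))ˣ, orderOf u₁ = l ^ r ∧ orderOf u₂ = l ^ r ∧
      Disjoint (Subgroup.zpowers u₁) (Subgroup.zpowers u₂) := by
  haveI : Fact q₁.Prime := ⟨h1⟩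
  haveI : Fact q₂.Prime := ⟨h2⟩
  have hc : Nat.Coprime q₁ q₂ := (Nat.coprime_primes h1 h2).2 hne
  obtain ⟨w₁, hw₁⟩ := x3_elt h1 d1
  obtain ⟨w₂, hw₂⟩ := x3_elt h2 d2
  let e : (ZMod (q₁ * q₂))ˣ ≃* (ZMod q₁)ˣ × (ZMod q₂)ˣ :=
    (Units.mapEquiv (ZMod.chineseRemainder hc).toMulEquiv).trans MulEquiv.prodUnits
  refine ⟨e.symm (w₁, 1), e.symm (1, w₂), ?_, ?_, ?_⟩
  · rw [MulEquiv.orderOf_eq, Prod.orderOf_mk, orderOf_one, Nat.lcm_one_right, hw₁]
  · rw [MulEquiv.orderOf_eq, Prod.orderOf_mk, orderOf_one, Nat.lcm_one_left, hw₂]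
  · rw [Subgroup.disjoint_def]
    intro x hx1 hx2
    obtain ⟨i, hi⟩ := Subgroup.mem_zpowers_iff.1 hx1
    obtain ⟨j, hj⟩ := Subgroup.mem_zpowers_iff.1 hx2
    have e1 : e x = (w₁ ^ i, 1) := by
      rw [← hi, map_zpow, MulEquiv.apply_symm_apply]
      exact Prod.ext rfl (one_zpow i)
    have e2 : e x = (1, w₂ ^ j) := by
      rw [← hj, map_zpow, MulEquiv.apply_symm_apply]
      exact Prod.ext (one_zpow j) rfl
    have e3 : e x = 1 := by
      refine Prod.ext ?_ ?_
      · rw [e2]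
        rfl
      · rw [e1]
        rfl
    exact (MulEquiv.map_eq_one_iff e).1 e3

end CFT
end

-- from Lib.CFT.X14
section

/-! # CFT X14 (S/M): the group theory of the crossing

PROOF. z = x^i y^j with integers i, j (the set of these products is a subgroup because of hab; or make A a CommGroup and use Subgroup.mem_closure_pair). β x^i = β y^(-j) is in both zpowers, so it is 1:
β x^i = 1 and β y^j = 1, so n divides i and j (orderOf_dvd_iff_zpow_eq_one), α x^i = 1, α y^j = 1. -/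

namespace CFT

theorem x14_pair {A : Type} [Group A] (hab : ∀ a b : A, a * b = b * a) {x y z : A} (hz : z ∈ Subgroup.closure {x, y}) :
    ∃ i j : ℤ, z = x ^ i * y ^ j := by
  refine Subgroup.closure_induction (p := fun z _ => ∃ i j : ℤ, z = x ^ i * y ^ j) ?_ ?_ ?_ ?_ hz
  · intro w hw
    rcases hw with rfl | hw
    · exact ⟨1, 0, by simp⟩
    · rw [Set.mem_singleton_iff] at hw
      subst hw
      exact ⟨0, 1, by simp⟩
  · exact ⟨0, 0, by simp⟩
  · rintro a b _ _ ⟨i, j, rfl⟩ ⟨k, l, rfl⟩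
    refine ⟨i + k, j + l, ?_⟩
    rw [zpow_add, zpow_add, mul_assoc, mul_assoc, ← mul_assoc (y ^ j), hab (y ^ j) (x ^ k), mul_assoc]
  · rintro a _ ⟨i, j, rfl⟩
    refine ⟨-i, -j, ?_⟩
    rw [mul_inv_rev, zpow_neg, zpow_neg]
    exact hab _ _

theorem x_core {A G Δ : Type} [Group A] [Group G] [Group Δ] (hab : ∀ a b : A, a * b = b * a) (α : A →* G) (β : A →* Δ) {n : ℕ}
    (hG : ∀ g : G, g ^ n = 1) {x y : A} (hx : n ∣ orderOf (β x)) (hy : n ∣ orderOf (β y))
    (hd : Disjoint (Subgroup.zpowers (β x)) (Subgroup.zpowers (β y))) {z : A} (hz : z ∈ Subgroup.closure {x, y}) (h1 : β z = 1) :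
    α z = 1 := by
  obtain ⟨i, j, rfl⟩ := x14_pair hab hz
  rw [map_mul, map_zpow, map_zpow] at h1
  have h2 : β x ^ i = (β y ^ j)⁻¹ := eq_inv_of_mul_eq_one_left h1
  have h3 : β x ^ i = 1 := by
    refine (Subgroup.disjoint_def.1 hd) (Subgroup.zpow_mem_zpowers _ _) ?_
    rw [h2]
    exact inv_mem (Subgroup.zpow_mem_zpowers _ _)
  have h4 : β y ^ j = 1 := by
    rw [h3] at h2
    exact inv_eq_one.1 h2.symm
  have hk : ∀ (g : G) (k : ℤ), (n : ℤ) ∣ k → g ^ k = 1 := by
    rintro g k ⟨l, rfl⟩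
    rw [zpow_mul, zpow_natCast, hG, one_zpow]
  have h5 : (n : ℤ) ∣ i := (Int.natCast_dvd_natCast.2 hx).trans (orderOf_dvd_iff_zpow_eq_one.2 h3)
  have h6 : (n : ℤ) ∣ j := (Int.natCast_dvd_natCast.2 hy).trans (orderOf_dvd_iff_zpow_eq_one.2 h4)
  rw [map_mul, map_zpow, map_zpow, hk _ _ h5, hk _ _ h6, one_mul]

end CFT
end

-- from Lib.H60.UDef.Dio
section

/-!
Diophantine predicates (existentially definable, no parameters) over a field, in the form of a
finite system of polynomial equations with integer coefficients, their closure properties, and the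
universal first-order formula defining the complement.
-/

set_option autoImplicit false

open FirstOrder FirstOrder.Ring

namespace Pool.Agent.H60.UDef

/-- `P` is Diophantine: `P v` iff a finite system of integer polynomial equations in `v` and
finitely many further unknowns is solvable. -/
def Dio (K : Type) [CommRing K] {α : Type} (P : (α → K) → Prop) : Prop :=
  ∃ (m : ℕ) (L : List (FreeCommRing (α ⊕ Fin m))),
    ∀ v : α → K, P v ↔ ∃ y : Fin m → K, ∀ p ∈ L, FreeCommRing.lift (Sum.elim v y) p = 0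

section basic

variable {K : Type} [CommRing K] {α β : Type}

theorem lift_lift (v : β → K) (q : α → FreeCommRing β) (p : FreeCommRing α) :
    FreeCommRing.lift v (FreeCommRing.lift q p)
      = FreeCommRing.lift (fun a => FreeCommRing.lift v (q a)) p := by
  have : (FreeCommRing.lift v).comp (FreeCommRing.lift q)
      = FreeCommRing.lift (fun a => FreeCommRing.lift v (q a)) := by
    apply FreeCommRing.hom_ext
    intro a
    simp
  exact RingHom.congr_fun this p

theorem lift_map (v : β → K) (f : α → β) (p : FreeCommRing α) :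
    FreeCommRing.lift v (FreeCommRing.map f p) = FreeCommRing.lift (v ∘ f) p := by
  have : (FreeCommRing.lift v).comp (FreeCommRing.map f) = FreeCommRing.lift (v ∘ f) := by
    apply FreeCommRing.hom_ext
    intro a
    simp
  exact RingHom.congr_fun this p

theorem Dio.congr {P Q : (α → K) → Prop} (h : Dio K P) (hPQ : ∀ v, P v ↔ Q v) : Dio K Q := by
  obtain ⟨m, L, hL⟩ := h
  exact ⟨m, L, fun v => (hPQ v).symm.trans (hL v)⟩

theorem Dio.eq0 (p : FreeCommRing α) : Dio K (fun v : α → K => FreeCommRing.lift v p = 0) := by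
  refine ⟨0, [FreeCommRing.map Sum.inl p], fun v => ?_⟩
  constructor
  · intro h
    refine ⟨Fin.elim0, ?_⟩
    intro q hq
    rw [List.mem_singleton] at hq
    subst hq
    rw [lift_map]
    simpa using! h
  · rintro ⟨y, hy⟩
    have := hy _ (List.mem_singleton.2 rfl)
    rw [lift_map] at this
    simpa using! this

theorem Dio.eq (p q : FreeCommRing α) :
    Dio K (fun v : α → K => FreeCommRing.lift v p = FreeCommRing.lift v q) :=
  (Dio.eq0 (p - q)).congr fun v => by rw [map_sub, sub_eq_zero]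

/-- Diophantine predicates are invariant under ring automorphisms. -/
theorem Dio.map_equiv {P : (α → K) → Prop} (h : Dio K P) (σ : K ≃+* K) {v : α → K} (hv : P v) :
    P (fun a => σ (v a)) := by
  obtain ⟨m, L, hL⟩ := h
  obtain ⟨y, hy⟩ := (hL v).1 hv
  refine (hL _).2 ⟨fun i => σ (y i), fun p hp => ?_⟩
  have h1 : FreeCommRing.lift (Sum.elim (fun a => σ (v a)) (fun i => σ (y i))) p
      = σ (FreeCommRing.lift (Sum.elim v y) p) := by
    have : FreeCommRing.lift (Sum.elim (fun a => σ (v a)) (fun i => σ (y i)))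
        = (σ : K →+* K).comp (FreeCommRing.lift (Sum.elim v y)) := by
      apply FreeCommRing.hom_ext
      rintro (a | i) <;> simp
    rw [this]; rfl
  rw [h1, hy p hp, map_zero]

theorem Dio.and {P Q : (α → K) → Prop} (hP : Dio K P) (hQ : Dio K Q) :
    Dio K (fun v => P v ∧ Q v) := by
  obtain ⟨m, L, hL⟩ := hP
  obtain ⟨n, M, hM⟩ := hQ
  refine ⟨m + n, L.map (FreeCommRing.map (Sum.map id (Fin.castAdd n))) ++
    M.map (FreeCommRing.map (Sum.map id (Fin.natAdd m))), fun v => ?_⟩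
  beta_reduce
  rw [hL v, hM v]
  constructor
  · rintro ⟨⟨y, hy⟩, ⟨z, hz⟩⟩
    refine ⟨Fin.append y z, ?_⟩
    intro p hp
    rw [List.mem_append, List.mem_map, List.mem_map] at hp
    rcases hp with ⟨q, hq, rfl⟩ | ⟨q, hq, rfl⟩
    · rw [lift_map]
      convert hy q hq using 3
      ext (a | i) <;> simp
    · rw [lift_map]
      convert hz q hq using 3
      ext (a | i) <;> simp
  · rintro ⟨w, hw⟩
    refine ⟨⟨fun i => w (Fin.castAdd n i), fun q hq => ?_⟩,
      ⟨fun i => w (Fin.natAdd m i), fun q hq => ?_⟩⟩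
    · have := hw (FreeCommRing.map (Sum.map id (Fin.castAdd n)) q)
        (List.mem_append.2 (Or.inl (List.mem_map.2 ⟨q, hq, rfl⟩)))
      rw [lift_map] at this
      convert this using 3
      ext (a | i) <;> simp
    · have := hw (FreeCommRing.map (Sum.map id (Fin.natAdd m)) q)
        (List.mem_append.2 (Or.inr (List.mem_map.2 ⟨q, hq, rfl⟩)))
      rw [lift_map] at this
      convert this using 3
      ext (a | i) <;> simp

theorem Dio.exFin {k : ℕ} {P : (α ⊕ Fin k → K) → Prop} (hP : Dio K P) :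
    Dio K (fun v : α → K => ∃ w : Fin k → K, P (Sum.elim v w)) := by
  obtain ⟨m, L, hL⟩ := hP
  refine ⟨k + m, L.map (FreeCommRing.map
    (Sum.elim (Sum.map id (Fin.castAdd m)) (fun i => Sum.inr (Fin.natAdd k i)))), fun v => ?_⟩
  constructor
  · rintro ⟨w, hw⟩
    obtain ⟨y, hy⟩ := (hL _).1 hw
    refine ⟨Fin.append w y, ?_⟩
    intro p hp
    rw [List.mem_map] at hp
    obtain ⟨q, hq, rfl⟩ := hp
    rw [lift_map]
    convert hy q hq using 3
    ext ((a | i) | i) <;> simp
  · rintro ⟨z, hz⟩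
    refine ⟨fun i => z (Fin.castAdd m i), (hL _).2 ⟨fun i => z (Fin.natAdd k i), fun q hq => ?_⟩⟩
    have := hz _ (List.mem_map.2 ⟨q, hq, rfl⟩)
    rw [lift_map] at this
    convert this using 3
    ext ((a | i) | i) <;> simp

theorem Dio.ex {γ : Type} [Finite γ] {P : (α ⊕ γ → K) → Prop} (hP : Dio K P) :
    Dio K (fun v : α → K => ∃ w : γ → K, P (Sum.elim v w)) := by
  obtain ⟨k, ⟨e⟩⟩ := Finite.exists_equiv_fin γ
  obtain ⟨m, L, hL⟩ := hP
  have h1 : Dio K (fun v : α ⊕ Fin k → K => P (Sum.elim (v ∘ Sum.inl) (fun c => v (Sum.inr (e c)))))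
      := by
    refine ⟨m, L.map (FreeCommRing.map (Sum.map (Sum.map id e) id)), fun v => ?_⟩
    beta_reduce
    rw [hL]
    refine exists_congr fun y => ?_
    simp only [List.mem_map, forall_exists_index, and_imp, forall_apply_eq_imp_iff₂]
    refine forall_congr' fun p => forall_congr' fun _ => ?_
    rw [lift_map]
    have : (Sum.elim (Sum.elim (v ∘ Sum.inl) fun c => v (Sum.inr (e c))) y)
        = (Sum.elim v y ∘ Sum.map (Sum.map id e) id) := by
      ext ((a | i) | i) <;> simp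
    rw [this]
  refine h1.exFin.congr fun v => ?_
  constructor
  · rintro ⟨w, hw⟩
    exact ⟨fun c => w (e c), by simpa using! hw⟩
  · rintro ⟨w, hw⟩
    refine ⟨fun i => w (e.symm i), ?_⟩
    simpa using! hw

theorem Dio.subst {P : (α → K) → Prop} (hP : Dio K P) (q : α → FreeCommRing β) :
    Dio K (fun v : β → K => P (fun a => FreeCommRing.lift v (q a))) := by
  obtain ⟨m, L, hL⟩ := hP
  refine ⟨m, L.map (FreeCommRing.lift
    (Sum.elim (fun a => FreeCommRing.map Sum.inl (q a)) (fun i => FreeCommRing.of (Sum.inr i)))),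
    fun v => ?_⟩
  beta_reduce
  rw [hL]
  refine exists_congr fun y => ?_
  simp only [List.mem_map, forall_exists_index, and_imp, forall_apply_eq_imp_iff₂]
  refine forall_congr' fun p => forall_congr' fun _ => ?_
  rw [lift_lift]
  have : (Sum.elim (fun a => FreeCommRing.lift v (q a)) y)
      = (fun a => FreeCommRing.lift (Sum.elim v y)
        (Sum.elim (fun a => FreeCommRing.map Sum.inl (q a)) (fun i => FreeCommRing.of (Sum.inr i)) a))
      := by
    ext (a | i)
    · simp only [Sum.elim_inl]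
      rw [lift_map]
      rfl
    · simp
  rw [this]

theorem Dio.comp {P : (α → K) → Prop} (hP : Dio K P) (f : α → β) :
    Dio K (fun v : β → K => P (v ∘ f)) :=
  (hP.subst (fun a => FreeCommRing.of (f a))).congr fun v => by
    simp only [FreeCommRing.lift_of]; rfl

theorem Dio.true : Dio K (fun _ : α → K => True) :=
  (Dio.eq (K := K) (α := α) 0 0).congr fun v => by simp

end basic

section domain

variable {K : Type} [Field K] {α : Type}


theorem Dio.false : Dio K (fun _ : α → K => False) :=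
  (Dio.eq (K := K) (α := α) 0 1).congr fun v => by simp




end domain

section formula

variable {K : Type} [Field K] [CompatibleRing K]






end formula

end Pool.Agent.H60.UDef
end

-- from Lib.H60.UDef.Params
section

/-!
Diophantine sets with parameters in a number field; elimination of the parameters for sets that
are invariant under automorphisms.
-/

set_option autoImplicit false

namespace Pool.Agent.H60.UDef

section basic

variable {K : Type} [Field K] {α : Type}

theorem Dio.forall_mem {ι : Type} (s : Finset ι) {P : ι → (α → K) → Prop}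
    (h : ∀ i ∈ s, Dio K (P i)) : Dio K (fun v => ∀ i ∈ s, P i v) := by
  classical
  induction s using Finset.induction_on with
  | empty => exact Dio.true.congr fun v => by simp
  | insert a s ha ih =>
    have h1 := (h a (Finset.mem_insert_self a s)).and
      (ih fun i hi => h i (Finset.mem_insert_of_mem hi))
    refine h1.congr fun v => ?_
    simp

theorem Dio.forall_fintype {ι : Type} [Finite ι] {P : ι → (α → K) → Prop}
    (h : ∀ i, Dio K (P i)) : Dio K (fun v => ∀ i, P i v) := by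
  classical
  have := Fintype.ofFinite ι
  exact (Dio.forall_mem Finset.univ fun i _ => h i).congr fun v => by simp

/-- Diophantine with parameters. -/
def DioP (K : Type) [Field K] (X : K → Prop) : Prop :=
  ∃ (γ : Type) (_ : Finite γ) (D : (Fin 1 ⊕ γ → K) → Prop) (c : γ → K),
    Dio K D ∧ ∀ x, X x ↔ D (Sum.elim (fun _ => x) c)

theorem DioP.congr {X Y : K → Prop} (h : DioP K X) (hXY : ∀ x, X x ↔ Y x) : DioP K Y := by
  obtain ⟨γ, hγ, D, c, hD, hX⟩ := h
  exact ⟨γ, hγ, D, c, hD, fun x => (hXY x).symm.trans (hX x)⟩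


end basic

section elim

variable {K : Type} [Field K] [NumberField K]

open Polynomial

theorem exists_int_poly (f : ℚ[X]) :
    ∃ (N : ℤ) (G : ℤ[X]), N ≠ 0 ∧ G.map (algebraMap ℤ ℚ) = (N : ℚ) • f := by
  obtain ⟨b, hb, hG⟩ := IsLocalization.integerNormalization_spec (nonZeroDivisors ℤ) f
  refine ⟨b, IsLocalization.integerNormalization (nonZeroDivisors ℤ) f,
    nonZeroDivisors.ne_zero hb, ?_⟩
  rw [hG]
  simp only [Algebra.smul_def, eq_intCast]
  simp

theorem aeval_int_poly {f : ℚ[X]} {N : ℤ} {G : ℤ[X]} (h : G.map (algebraMap ℤ ℚ) = (N : ℚ) • f)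
    (θ : K) : aeval θ G = (N : K) * aeval θ f := by
  have h1 : aeval θ G = aeval θ (G.map (algebraMap ℤ ℚ)) := (aeval_map_algebraMap ℚ θ G).symm
  rw [h1, h, map_smul, Algebra.smul_def]
  simp

omit [NumberField K] in
theorem lift_aeval {β : Type} (v : β → K) (j : β) (G : ℤ[X]) :
    FreeCommRing.lift v (aeval (FreeCommRing.of j) G) = aeval (v j) G := by
  have := Polynomial.aeval_algHom_apply (FreeCommRing.lift v).toIntAlgHom (FreeCommRing.of j) G
  simpa using this.symm

theorem DioP.elim {X : K → Prop} (hX : DioP K X) (hinv : ∀ (σ : K ≃+* K) (x : K), X x → X (σ x)) :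
    Dio K (fun v : Fin 1 → K => X (v 0)) := by
  classical
  obtain ⟨γ, hγ, D, c, hD, hXD⟩ := hX
  set pb := Field.powerBasisOfFiniteOfSeparable ℚ K with hpb
  have hc : ∀ g, ∃ f : ℚ[X], c g = aeval pb.gen f := fun g => pb.exists_eq_aeval' (c g)
  choose f hf using hc
  choose N G hN hG using fun g => exists_int_poly (f g)
  obtain ⟨Nm, M, hNm, hM⟩ := exists_int_poly (minpoly ℚ pb.gen)
  -- the parameter free definition
  have h1 : Dio K (fun v : Fin 1 ⊕ (Unit ⊕ γ) → K => aeval (v (Sum.inr (Sum.inl ()))) M = 0) :=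
    (Dio.eq0 (K := K) (aeval (FreeCommRing.of (Sum.inr (Sum.inl ()))) M)).congr
      fun v => by rw [lift_aeval]
  have h2 : Dio K (fun v : Fin 1 ⊕ (Unit ⊕ γ) → K => ∀ g : γ,
      (N g : K) * v (Sum.inr (Sum.inr g)) = aeval (v (Sum.inr (Sum.inl ()))) (G g)) :=
    Dio.forall_fintype fun g => (Dio.eq (K := K) ((N g : FreeCommRing _) *
      FreeCommRing.of (Sum.inr (Sum.inr g)))
      (aeval (FreeCommRing.of (Sum.inr (Sum.inl ()))) (G g))).congr
      fun v => by rw [lift_aeval, map_mul, map_intCast, FreeCommRing.lift_of]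
  have h3 : Dio K (fun v : Fin 1 ⊕ (Unit ⊕ γ) → K =>
      D (v ∘ (Sum.map id Sum.inr : Fin 1 ⊕ γ → Fin 1 ⊕ (Unit ⊕ γ)))) := hD.comp _
  refine (h1.and (h2.and h3)).ex.congr fun v => ?_
  constructor
  · rintro ⟨w, hw1, hw2, hw3⟩
    simp only [Sum.elim_inr] at hw1 hw2
    set θ' := w (Sum.inl ()) with hθ'
    have hroot : aeval θ' (minpoly ℚ pb.gen) = 0 := by
      rw [aeval_int_poly hM] at hw1
      rcases mul_eq_zero.1 hw1 with h | h
      · exact absurd (by exact_mod_cast h) hNm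
      · exact h
    let σ₀ : K →ₐ[ℚ] K := pb.lift θ' hroot
    have hσ₀ : σ₀ pb.gen = θ' := pb.lift_gen θ' hroot
    have hbij : Function.Bijective σ₀ := Algebra.IsAlgebraic.algHom_bijective σ₀
    let σ : K ≃ₐ[ℚ] K := AlgEquiv.ofBijective σ₀ hbij
    have hσ : ∀ x, σ x = σ₀ x := fun x => rfl
    have hcw : ∀ g, w (Sum.inr g) = σ (c g) := by
      intro g
      have e1 := hw2 g
      have e2 : aeval θ' (G g) = (N g : K) * σ (c g) := by
        rw [aeval_int_poly (hG g), hf g, hσ, ← hσ₀, Polynomial.aeval_algHom_apply]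
      rw [e2] at e1
      exact mul_left_cancel₀ (by exact_mod_cast hN g) e1
    have h4 := hD.map_equiv (σ.symm : K ≃+* K) hw3
    have h5 : (fun a => (σ.symm : K ≃+* K)
        (((Sum.elim v w : Fin 1 ⊕ (Unit ⊕ γ) → K) ∘
          (Sum.map id Sum.inr : Fin 1 ⊕ γ → Fin 1 ⊕ (Unit ⊕ γ))) a))
        = Sum.elim (fun _ => σ.symm (v 0)) c := by
      ext (j | g)
      · have : j = 0 := Subsingleton.elim _ _
        subst this
        simp
      · simp [hcw g]
    rw [h5] at h4
    have h6 := (hXD _).2 h4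
    have h7 := hinv (σ : K ≃+* K) _ h6
    simpa using h7
  · intro hx
    refine ⟨Sum.elim (fun _ => pb.gen) c, ?_, ?_, ?_⟩
    · simp only [Sum.elim_inr, Sum.elim_inl]
      rw [aeval_int_poly hM, minpoly.aeval, mul_zero]
    · intro g
      simp only [Sum.elim_inr, Sum.elim_inl]
      rw [aeval_int_poly (hG g), ← hf g]
    · have h4 := (hXD _).1 hx
      have h5 : ((Sum.elim v (Sum.elim (fun _ => pb.gen) c) : Fin 1 ⊕ (Unit ⊕ γ) → K) ∘
          (Sum.map id Sum.inr : Fin 1 ⊕ γ → Fin 1 ⊕ (Unit ⊕ γ)))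
          = Sum.elim (fun _ => v 0) c := by
        ext (j | g)
        · have : j = 0 := Subsingleton.elim _ _
          subst this
          simp
        · simp
      rw [h5]
      exact h4

end elim

end Pool.Agent.H60.UDef
end

-- from Lib.H60.UDef.ParamRel
section

/-!
Polynomial functions and Diophantine relations with parameters.
-/

set_option autoImplicit false

namespace Pool.Agent.H60.UDef

section

variable {K : Type} [Field K] {α β : Type}

/-- Polynomial functions with coefficients in `K`. -/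
def PF (φ : (α → K) → K) : Prop :=
  ∃ (γ : Type) (_ : Finite γ) (c : γ → K) (g : FreeCommRing (α ⊕ γ)),
    ∀ v, φ v = FreeCommRing.lift (Sum.elim v c) g

theorem PF.congr {φ ψ : (α → K) → K} (h : PF φ) (hφ : ∀ v, φ v = ψ v) : PF ψ := by
  obtain ⟨γ, hγ, c, g, hg⟩ := h
  exact ⟨γ, hγ, c, g, fun v => (hφ v).symm.trans (hg v)⟩



theorem PF.add {φ ψ : (α → K) → K} (h : PF φ) (h' : PF ψ) : PF (fun v => φ v + ψ v) := by
  obtain ⟨γ, hγ, c, g, hg⟩ := h
  obtain ⟨γ', hγ', c', g', hg'⟩ := h'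
  refine ⟨γ ⊕ γ', inferInstance, Sum.elim c c', FreeCommRing.map (Sum.map id Sum.inl) g +
    FreeCommRing.map (Sum.map id Sum.inr) g', fun v => ?_⟩
  beta_reduce
  rw [map_add, lift_map, lift_map, hg, hg']
  congr 3
  · ext (a | i) <;> simp
  · ext (a | i) <;> simp

theorem PF.mul {φ ψ : (α → K) → K} (h : PF φ) (h' : PF ψ) : PF (fun v => φ v * ψ v) := by
  obtain ⟨γ, hγ, c, g, hg⟩ := h
  obtain ⟨γ', hγ', c', g', hg'⟩ := h'
  refine ⟨γ ⊕ γ', inferInstance, Sum.elim c c', FreeCommRing.map (Sum.map id Sum.inl) g *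
    FreeCommRing.map (Sum.map id Sum.inr) g', fun v => ?_⟩
  beta_reduce
  rw [map_mul, lift_map, lift_map, hg, hg']
  congr 3
  · ext (a | i) <;> simp
  · ext (a | i) <;> simp





theorem PF.comp {φ : (α → K) → K} (h : PF φ) (f : α → β) : PF (fun v : β → K => φ (v ∘ f)) := by
  obtain ⟨γ, hγ, c, g, hg⟩ := h
  refine ⟨γ, hγ, c, FreeCommRing.map (Sum.map f id) g, fun v => ?_⟩
  beta_reduce
  rw [lift_map, hg]
  congr 2
  ext (a | i) <;> simp

/-- Diophantine relations with parameters. -/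
def DioR (K : Type) [Field K] {α : Type} (P : (α → K) → Prop) : Prop :=
  ∃ (γ : Type) (_ : Finite γ) (D : (α ⊕ γ → K) → Prop) (c : γ → K),
    Dio K D ∧ ∀ v, P v ↔ D (Sum.elim v c)

theorem DioR.congr {P Q : (α → K) → Prop} (h : DioR K P) (hPQ : ∀ v, P v ↔ Q v) : DioR K Q := by
  obtain ⟨γ, hγ, D, c, hD, hP⟩ := h
  exact ⟨γ, hγ, D, c, hD, fun v => (hPQ v).symm.trans (hP v)⟩

theorem Dio.dioR {P : (α → K) → Prop} (h : Dio K P) : DioR K P :=
  ⟨Empty, inferInstance, fun v => P (v ∘ Sum.inl), Empty.elim, h.comp _, fun v => by simp⟩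


theorem DioP.dioR {X : K → Prop} (h : DioP K X) : DioR K (fun v : Fin 1 → K => X (v 0)) := by
  obtain ⟨γ, hγ, D, c, hD, hX⟩ := h
  refine ⟨γ, hγ, D, c, hD, fun v => ?_⟩
  beta_reduce
  rw [hX]
  have : (fun _ => v 0 : Fin 1 → K) = v := by
    ext i; rw [Subsingleton.elim i 0]
  rw [this]




theorem DioR.false : DioR K (fun _ : α → K => False) := Dio.false.dioR

theorem DioR.ex {δ : Type} [Finite δ] {P : (α ⊕ δ → K) → Prop} (hP : DioR K P) :
    DioR K (fun v : α → K => ∃ w : δ → K, P (Sum.elim v w)) := by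
  obtain ⟨γ, hγ, D, c, hD, hP⟩ := hP
  let r : (α ⊕ δ) ⊕ γ → (α ⊕ γ) ⊕ δ :=
    Sum.elim (Sum.elim (fun a => Sum.inl (Sum.inl a)) Sum.inr) (fun g => Sum.inl (Sum.inr g))
  refine ⟨γ, hγ, fun v => ∃ w : δ → K, D (Sum.elim v w ∘ r), c, (hD.comp r).ex, fun v => ?_⟩
  refine exists_congr fun w => ?_
  rw [hP]
  have : (Sum.elim (Sum.elim v c) w : (α ⊕ γ) ⊕ δ → K) ∘ r = Sum.elim (Sum.elim v w) c := by
    ext ((a | d) | g) <;> simp [r]
  rw [this]

theorem DioR.comp {P : (α → K) → Prop} (hP : DioR K P) (f : α → β) :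
    DioR K (fun v : β → K => P (v ∘ f)) := by
  obtain ⟨γ, hγ, D, c, hD, hP⟩ := hP
  refine ⟨γ, hγ, fun v => D (v ∘ (Sum.map f id : α ⊕ γ → β ⊕ γ)), c, hD.comp _, fun v => ?_⟩
  beta_reduce
  rw [hP]
  have : (Sum.elim v c : β ⊕ γ → K) ∘ (Sum.map f id : α ⊕ γ → β ⊕ γ) = Sum.elim (v ∘ f) c := by
    ext (a | g) <;> simp
  rw [this]

theorem DioR.subst [Finite β] {P : (β → K) → Prop} (hP : DioR K P) {φ : β → (α → K) → K}
    (hφ : ∀ b, PF (φ b)) : DioR K (fun v : α → K => P (fun b => φ b v)) := by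
  obtain ⟨γ, hγ, D, c, hD, hP⟩ := hP
  choose δ hδ d g hg using hφ
  refine ⟨γ ⊕ (Σ b, δ b), inferInstance, fun v => D (fun j => FreeCommRing.lift v
    ((Sum.elim (fun b => FreeCommRing.map (Sum.map id (fun i => Sum.inr ⟨b, i⟩)) (g b))
      (fun i => FreeCommRing.of (Sum.inr (Sum.inl i))) :
        β ⊕ γ → FreeCommRing (α ⊕ (γ ⊕ (Σ b, δ b)))) j)),
    Sum.elim c (fun i => d i.1 i.2), hD.subst _, fun v => ?_⟩
  beta_reduce
  rw [hP]
  refine iff_of_eq (congrArg D ?_)
  ext (b | i)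
  · simp only [Sum.elim_inl]
    rw [lift_map, hg b v]
    congr 2
    ext (a | i) <;> simp
  · simp

theorem DioR.eq {φ ψ : (α → K) → K} (hφ : PF φ) (hψ : PF ψ) : DioR K (fun v => φ v = ψ v) := by
  have h : DioR K (fun v : Fin 2 → K => v 0 = v 1) :=
    ((Dio.eq (K := K) (FreeCommRing.of (0 : Fin 2)) (FreeCommRing.of 1)).congr
      fun v => by simp).dioR
  refine (h.subst (φ := ![φ, ψ]) ?_).congr fun v => ?_
  · intro b
    fin_cases b
    · exact hφ
    · exact hψ
  · simp







end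

end Pool.Agent.H60.UDef
end

-- from Lib.H60.UDef.Defs
section

/-!
Definitions for MP_12fa5c_lc: fields separated by real embeddings over a subfield, rank-stable
elliptic curves.
-/

set_option autoImplicit false

open WeierstrassCurve WeierstrassCurve.Affine

namespace Pool.Agent.H60.UDef

/-- The Weierstrass curve `y² = x³ + a x + b`. -/
def shortW {F : Type} [Field F] (a b : F) : WeierstrassCurve F := ⟨0, 0, 0, a, b⟩



end Pool.Agent.H60.UDef
end

-- from Lib.H60.UDef.Formulas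
section

/-!
Explicit coordinates for the group law on `y² = x³ + a x + b`.
-/

set_option autoImplicit false

open WeierstrassCurve WeierstrassCurve.Affine

namespace Pool.Agent.H60.UDef

section coords

variable {F K : Type} [Field F] [Field K] [Algebra F K] {a b : F}

theorem shortW_a₁ : ((shortW a b)⁄K).a₁ = 0 := by simp [shortW]
theorem shortW_a₂ : ((shortW a b)⁄K).a₂ = 0 := by simp [shortW]
theorem shortW_a₃ : ((shortW a b)⁄K).a₃ = 0 := by simp [shortW]
theorem shortW_a₄ : ((shortW a b)⁄K).a₄ = algebraMap F K a := by simp [shortW]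
theorem shortW_a₆ : ((shortW a b)⁄K).a₆ = algebraMap F K b := by simp [shortW]

theorem shortW_eqn (x y : K) : ((shortW a b)⁄K).Equation x y ↔
    y ^ 2 = x ^ 3 + algebraMap F K a * x + algebraMap F K b := by
  rw [equation_iff, shortW_a₁, shortW_a₂, shortW_a₃, shortW_a₄, shortW_a₆]
  constructor <;> intro h <;> linear_combination h

theorem shortW_Δ : ((shortW a b)⁄K).Δ
    = -16 * algebraMap F K (4 * a ^ 3 + 27 * b ^ 2) := by
  rw [WeierstrassCurve.Δ, b₂, b₄, b₆, b₈, shortW_a₁, shortW_a₂, shortW_a₃, shortW_a₄, shortW_a₆]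
  simp only [map_add, map_mul, map_pow, map_ofNat]
  ring

/-- `P` is the affine point `(x, y)`. -/
def IsAt (P : ((shortW a b)⁄K).Point) (x y : K) : Prop :=
  ∃ h, P = Point.some x y h

variable {P Q : ((shortW a b)⁄K).Point} {x y x₁ y₁ x₂ y₂ : K}

theorem isAt_some {x y x' y' : K} (h : ((shortW a b)⁄K).Nonsingular x y) (hx : x = x')
    (hy : y = y') : IsAt (Point.some x y h) x' y' := by
  subst hx hy
  exact ⟨h, rfl⟩


theorem IsAt.ne_zero (h : IsAt P x y) : P ≠ 0 := by
  obtain ⟨h, rfl⟩ := h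
  exact Point.some_ne_zero h



theorem IsAt.ext (h : IsAt P x y) (h' : IsAt Q x y) : P = Q := by
  obtain ⟨h, rfl⟩ := h
  obtain ⟨h', rfl⟩ := h'
  rfl


theorem isAt_of_eqn (hab : 4 * a ^ 3 + 27 * b ^ 2 ≠ 0) [CharZero K]
    (h : y ^ 2 = x ^ 3 + algebraMap F K a * x + algebraMap F K b) :
    ∃ P : ((shortW a b)⁄K).Point, IsAt P x y := by
  have h1 : ((shortW a b)⁄K).Nonsingular x y := by
    rw [← equation_iff_nonsingular_of_Δ_ne_zero]
    · exact (shortW_eqn x y).2 h
    · rw [shortW_Δ]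
      refine mul_ne_zero (by norm_num) ?_
      exact (map_ne_zero (algebraMap F K)).2 hab
  exact ⟨.some x y h1, h1, rfl⟩

variable [DecidableEq K]

theorem IsAt.add (h₁ : IsAt P x₁ y₁) (h₂ : IsAt Q x₂ y₂) (hx : x₁ ≠ x₂) :
    IsAt (P + Q) (((y₁ - y₂) / (x₁ - x₂)) ^ 2 - x₁ - x₂)
      ((y₁ - y₂) / (x₁ - x₂) * (x₁ - (((y₁ - y₂) / (x₁ - x₂)) ^ 2 - x₁ - x₂)) - y₁) := by
  obtain ⟨h₁, rfl⟩ := h₁
  obtain ⟨h₂, rfl⟩ := h₂
  have e := Point.add_of_X_ne (h₁ := h₁) (h₂ := h₂) hx
  have hs : ((shortW a b)⁄K).slope x₁ x₂ y₁ y₂ = (y₁ - y₂) / (x₁ - x₂) := slope_of_X_ne hx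
  have hX : ((shortW a b)⁄K).addX x₁ x₂ (((shortW a b)⁄K).slope x₁ x₂ y₁ y₂)
      = ((y₁ - y₂) / (x₁ - x₂)) ^ 2 - x₁ - x₂ := by
    rw [addX, hs, shortW_a₁, shortW_a₂]; ring
  have hY : ((shortW a b)⁄K).addY x₁ x₂ y₁ (((shortW a b)⁄K).slope x₁ x₂ y₁ y₂)
      = (y₁ - y₂) / (x₁ - x₂) * (x₁ - (((y₁ - y₂) / (x₁ - x₂)) ^ 2 - x₁ - x₂)) - y₁ := by
    rw [addY, negAddY, negY, hX, hs, shortW_a₁, shortW_a₃]; ring
  rw [e]
  exact isAt_some _ hX hY

theorem IsAt.dbl [CharZero K] (h₁ : IsAt P x y) (hy : y ≠ 0) :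
    IsAt (P + P) (((3 * x ^ 2 + algebraMap F K a) / (2 * y)) ^ 2 - x - x)
      ((3 * x ^ 2 + algebraMap F K a) / (2 * y) *
        (x - (((3 * x ^ 2 + algebraMap F K a) / (2 * y)) ^ 2 - x - x)) - y) := by
  obtain ⟨h₁, rfl⟩ := h₁
  have hn : ((shortW a b)⁄K).negY x y = -y := by
    rw [negY, shortW_a₁, shortW_a₃]; ring
  have hy' : y ≠ ((shortW a b)⁄K).negY x y := by
    rw [hn]
    intro h
    apply hy
    have : 2 * y = 0 := by linear_combination h
    simpa using this
  have e := Point.add_self_of_Y_ne (h₁ := h₁) hy'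
  have hs : ((shortW a b)⁄K).slope x x y y = (3 * x ^ 2 + algebraMap F K a) / (2 * y) := by
    rw [slope_of_Y_ne rfl hy', hn, shortW_a₁, shortW_a₂, shortW_a₄]
    congr 1 <;> ring
  have hX : ((shortW a b)⁄K).addX x x (((shortW a b)⁄K).slope x x y y)
      = ((3 * x ^ 2 + algebraMap F K a) / (2 * y)) ^ 2 - x - x := by
    rw [addX, hs, shortW_a₁, shortW_a₂]; ring
  have hY : ((shortW a b)⁄K).addY x x y (((shortW a b)⁄K).slope x x y y)
      = (3 * x ^ 2 + algebraMap F K a) / (2 * y) *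
        (x - (((3 * x ^ 2 + algebraMap F K a) / (2 * y)) ^ 2 - x - x)) - y := by
    rw [addY, negAddY, negY, hX, hs, shortW_a₁, shortW_a₃]; ring
  rw [e]
  exact isAt_some _ hX hY


end coords

end Pool.Agent.H60.UDef
end

-- from Lib.H60.UDef.Chain
section

/-!
The graph of multiplication by `n + 1` on `y² = x³ + A x + B`, restricted to generic steps, is
Diophantine.
-/

set_option autoImplicit false

open WeierstrassCurve WeierstrassCurve.Affine

namespace Pool.Agent.H60.UDef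

/-- `(x', y')` is obtained from `(x, y)` by `n` generic addition steps. -/
def MulRel {K : Type} [Field K] (A : K) : ℕ → K → K → K → K → Prop
  | 0, x, y, x', y' => x' = x ∧ y' = y
  | n + 1, x, y, x', y' => ∃ u w l : K, MulRel A n x y u w ∧
      ((u ≠ x ∧ l * (u - x) = w - y) ∨ (u = x ∧ w = y ∧ y ≠ 0 ∧ l * (2 * y) = 3 * x ^ 2 + A)) ∧
      x' = l ^ 2 - u - x ∧ y' = l * (u - x') - w

section

variable {F K : Type} [Field F] [Field K] [Algebra F K] [CharZero K] [DecidableEq K] {a b : F}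
  {P : ((shortW a b)⁄K).Point} {x y : K}

theorem MulRel.sound (h : IsAt P x y) : ∀ (n : ℕ) {x' y' : K},
    MulRel (algebraMap F K a) n x y x' y' → IsAt ((n + 1) • P) x' y'
  | 0, x', y', hr => by
    obtain ⟨rfl, rfl⟩ := hr
    simpa using h
  | n + 1, x', y', hr => by
    obtain ⟨u, w, l, h1, h2, hx', hy'⟩ := hr
    have ih := MulRel.sound h n h1
    rcases h2 with ⟨hne, hl⟩ | ⟨hu, hw, hy, hl⟩
    · have h3 := ih.add h hne
      rw [← succ_nsmul] at h3
      have hl' : (w - y) / (u - x) = l := by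
        rw [div_eq_iff (sub_ne_zero.2 hne), hl]
      rw [hl'] at h3
      rw [hx'] at hy'
      rw [hx', hy']
      exact h3
    · rw [hu, hw] at ih
      have h4 : (n + 1) • P = P := ih.ext h
      have h3 := h.dbl hy
      have hl' : (3 * x ^ 2 + algebraMap F K a) / (2 * y) = l := by
        rw [div_eq_iff (mul_ne_zero two_ne_zero hy), hl]
      rw [hl'] at h3
      rw [hu, hw] at hy'
      rw [hu] at hx'
      rw [hx'] at hy'
      rw [succ_nsmul, h4, hx', hy']
      exact h3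


end

section dio

variable {K : Type} [Field K]


end dio

end Pool.Agent.H60.UDef
end

-- from Lib.H60.UDef.PadicEmb
section

/-!
Number fields with the maximal number of embeddings in `ℚ_p`: approximation, bounded coordinates,
separation over subfields.
-/

set_option autoImplicit false

open Module

namespace Pool.Agent.H60.UDef

section

variable (p : ℕ) [hp : Fact p.Prime] (K : Type) [Field K] [NumberField K]

/-- `p` splits completely in `K`: there are `[K : ℚ]` embeddings of `K` in `ℚ_p`. -/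
def Splits : Prop := Nat.card (K →+* ℚ_[p]) = finrank ℚ K

instance : Finite (K →+* ℚ_[p]) := Finite.of_equiv _ (RingHom.equivRatAlgHom K ℚ_[p]).symm


variable {p K}

theorem emb_expand {ι : Type} [Fintype ι] (b : Basis ι ℚ K) (σ : K →+* ℚ_[p]) (y : K) :
    σ y = ∑ j, ((b.repr y j : ℚ) : ℚ_[p]) * σ (b j) := by
  conv_lhs => rw [← b.sum_repr y]
  rw [map_sum]
  refine Finset.sum_congr rfl fun j _ => ?_
  rw [Algebra.smul_def, map_mul]
  congr 1
  simp

/-- The matrix of the embeddings on a basis is invertible. -/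
theorem Splits.isUnit {n : ℕ} (e : (K →+* ℚ_[p]) ≃ Fin n) (b : Basis (Fin n) ℚ K) :
    IsUnit (Matrix.of fun i j : Fin n => (e.symm i) (b j) : Matrix (Fin n) (Fin n) ℚ_[p]) := by
  rw [← Matrix.vecMul_injective_iff_isUnit]
  rw [← Matrix.coe_vecMulLinear, ← LinearMap.ker_eq_bot, LinearMap.ker_eq_bot']
  intro c hc
  have h1 : ∀ j, ∑ i, c i * (e.symm i) (b j) = 0 := by
    intro j
    have := congrFun hc j
    simpa [Matrix.vecMul, dotProduct] using this
  have h2 : ∀ y : K, ∑ i, c i * (e.symm i) y = 0 := by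
    intro y
    simp_rw [emb_expand b _ y, Finset.mul_sum]
    rw [Finset.sum_comm]
    refine Finset.sum_eq_zero fun j _ => ?_
    have : ∀ i, c i * (((b.repr y j : ℚ) : ℚ_[p]) * (e.symm i) (b j))
        = ((b.repr y j : ℚ) : ℚ_[p]) * (c i * (e.symm i) (b j)) := fun i => by ring
    simp_rw [this]
    rw [← Finset.mul_sum, h1 j, mul_zero]
  have hli := linearIndependent_monoidHom K ℚ_[p]
  have hinj : Function.Injective (fun i : Fin n => ((e.symm i : K →+* ℚ_[p]) : K →* ℚ_[p])) := by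
    intro i j hij
    apply e.symm.injective
    ext y
    exact DFunLike.congr_fun hij y
  have hli2 := hli.comp _ hinj
  rw [Fintype.linearIndependent_iff] at hli2
  ext i
  refine hli2 c ?_ i
  ext y
  simpa using h2 y





end

end Pool.Agent.H60.UDef
end

-- from Lib.H60.UDef.SplitPrime
section

/-!
Every number field has infinitely many completely split primes.
-/

set_option autoImplicit false

open Module Polynomial

namespace Pool.Agent.H60.UDef


theorem exists_bezout (f : ℚ[X]) (hf : f.Separable) {N : ℤ} (hN : N ≠ 0) {G : ℤ[X]}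
    (hG : G.map (algebraMap ℤ ℚ) = (N : ℚ) • f) :
    ∃ (U V : ℤ[X]) (R : ℤ), R ≠ 0 ∧ U * G + V * derivative G = C R := by
  obtain ⟨a, b, hab⟩ := hf
  obtain ⟨Na, A, hNa, hA⟩ := exists_int_poly a
  obtain ⟨Nb, B, hNb, hB⟩ := exists_int_poly b
  refine ⟨C Nb * A, C Na * B, Na * Nb * N, mul_ne_zero (mul_ne_zero hNa hNb) hN, ?_⟩
  apply Polynomial.map_injective (algebraMap ℤ ℚ) (algebraMap ℤ ℚ).injective_int
  have hG' : (derivative G).map (algebraMap ℤ ℚ) = (N : ℚ) • derivative f := by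
    rw [← derivative_map, hG, derivative_smul]
  rw [Polynomial.map_add, Polynomial.map_mul, Polynomial.map_mul, Polynomial.map_mul,
    Polynomial.map_mul, hA, hB, hG, hG', map_C, map_C, map_C]
  have e : C ((algebraMap ℤ ℚ) Nb) * (Na : ℚ) • a * (N : ℚ) • f
      + C ((algebraMap ℤ ℚ) Na) * (Nb : ℚ) • b * (N : ℚ) • derivative f
      = C ((Na : ℚ) * Nb * N) * (a * f + b * derivative f) := by
    simp only [smul_eq_C_mul, C_mul, algebraMap_int_eq, eq_intCast]
    ring
  rw [e, hab, mul_one]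
  simp



end Pool.Agent.H60.UDef
end

-- from Lib.H60.UDef.Tern
section

/-!
The ternary form attached to a quaternion algebra ramified at `p`: local obstruction at `p`.
-/

set_option autoImplicit false

namespace Pool.Agent.H60.UDef

/-- `x² + p l` is represented by `⟨p, l, -p l⟩`. -/
def Tern {K : Type} [Field K] (p l : ℕ) (x : K) : Prop :=
  ∃ α β γ : K, x ^ 2 + p * l = p * α ^ 2 + l * β ^ 2 - p * l * γ ^ 2

theorem Tern.map {K L : Type} [Field K] [Field L] (f : K →+* L) {p l : ℕ} {x : K}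
    (h : Tern p l x) : Tern p l (f x) := by
  obtain ⟨α, β, γ, h⟩ := h
  refine ⟨f α, f β, f γ, ?_⟩
  have := congrArg f h
  simpa using this

section

variable {p : ℕ} [hp : Fact p.Prime]




end


end Pool.Agent.H60.UDef
end

-- from Lib.H60.UDef.TernComplete
section

/-!
The `p`-adically small rationals are sums of two elements of the ternary sets.
-/

set_option autoImplicit false

namespace Pool.Agent.H60.UDef

/-- Solvability of the auxiliary quaternary equations. -/
def AuxPrime (p l : ℕ) : Prop :=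
  ∀ m n : ℤ, IsCoprime n ((p : ℤ) * l) →
    ∃ α β γ : ℚ, (n : ℚ) ^ 2 + p * l * (m : ℚ) ^ 2 + γ ^ 2 = l * α ^ 2 + p * β ^ 2

theorem AuxPrime.tern {p l : ℕ} (hp : p.Prime) (h : AuxPrime p l) (m n : ℤ)
    (hn : IsCoprime n ((p : ℤ) * l)) : Tern p l ((p * l * m / n : ℚ)) := by
  have hn0 : (n : ℚ) ≠ 0 := by
    intro h0
    have h1 : n = 0 := by exact_mod_cast h0
    rw [h1, isCoprime_zero_left] at hn
    have h2 : IsUnit (p : ℤ) := isUnit_of_mul_isUnit_left hn
    rw [Int.isUnit_iff] at h2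
    have := hp.one_lt
    omega
  obtain ⟨α, β, γ, h⟩ := h m n hn
  refine ⟨l * α / n, p * β / n, γ / n, ?_⟩
  field_simp
  linear_combination (p : ℚ) * l * h

theorem AuxPrime.add {p l₁ l₂ : ℕ} (hp : Fact p.Prime) (h₁ : AuxPrime p l₁) (h₂ : AuxPrime p l₂)
    (hl₁ : l₁.Prime) (hl₂ : l₂.Prime) (hne : l₁ ≠ l₂) (q : ℚ) (hq : ‖(q : ℚ_[p])‖ < 1) :
    ∃ u v : ℚ, Tern p l₁ u ∧ Tern p l₂ v ∧ q = u + v := by
  have hpp := hp.out
  -- numerator divisible by `p`, denominator prime to `p`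
  have hpd : ¬ p ∣ q.den := by
    intro h
    have h1 : ¬ (p : ℤ) ∣ q.num := by
      intro h2
      have h3 : p ∣ q.num.natAbs := Int.natCast_dvd.1 h2
      have h4 := Nat.dvd_gcd h3 h
      have h5 : Nat.gcd q.num.natAbs q.den = 1 := q.reduced
      rw [h5] at h4
      exact hpp.one_lt.ne' (Nat.dvd_one.1 h4)
    have h2 : ‖((q.num : ℤ) : ℚ_[p])‖ = 1 := by
      have h3 : ¬ ‖((q.num : ℤ) : ℚ_[p])‖ < 1 := by
        rw [Padic.norm_intCast_lt_one_iff]; exact h1
      exact le_antisymm (Padic.norm_int_le_one _) (not_lt.1 h3)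
    have h3 : ‖((q.den : ℤ) : ℚ_[p])‖ < 1 := by
      rw [Padic.norm_intCast_lt_one_iff]; exact_mod_cast h
    have h4 : (q : ℚ_[p]) * (q.den : ℚ_[p]) = (q.num : ℚ_[p]) := by
      exact_mod_cast congrArg (fun z : ℚ => (z : ℚ_[p])) (Rat.mul_den_eq_num q)
    have h5 := congrArg norm h4
    rw [norm_mul, h2] at h5
    rw [Int.cast_natCast] at h3
    have h6 : ‖(q : ℚ_[p])‖ * ‖(q.den : ℚ_[p])‖ < 1 := by
      have := norm_nonneg (q : ℚ_[p])
      have := norm_nonneg (q.den : ℚ_[p])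
      nlinarith
    linarith
  have hpn : (p : ℤ) ∣ q.num := by
    have h4 : (q : ℚ_[p]) * (q.den : ℚ_[p]) = (q.num : ℚ_[p]) := by
      exact_mod_cast congrArg (fun z : ℚ => (z : ℚ_[p])) (Rat.mul_den_eq_num q)
    rw [← Padic.norm_intCast_lt_one_iff, ← h4, norm_mul]
    have h5 : ‖((q.den : ℤ) : ℚ_[p])‖ ≤ 1 := Padic.norm_int_le_one _
    rw [Int.cast_natCast] at h5
    have := norm_nonneg (q : ℚ_[p])
    have := norm_nonneg (q.den : ℚ_[p])
    nlinarith
  obtain ⟨a, ha⟩ := hpn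
  have hden : q.den ≠ 0 := q.den_ne_zero
  obtain ⟨i, c, hc, hic⟩ := Nat.exists_eq_pow_mul_and_not_dvd hden l₁ hl₁.ne_one
  obtain ⟨j, d, hd, hjd⟩ := Nat.exists_eq_pow_mul_and_not_dvd hden l₂ hl₂.ne_one
  have hcop : IsCoprime ((l₁ : ℤ) ^ (i + 1)) ((l₂ : ℤ) ^ (j + 1)) := by
    apply IsCoprime.pow
    rw [Nat.isCoprime_iff_coprime]
    exact (Nat.coprime_primes hl₁ hl₂).2 hne
  obtain ⟨x, y, hxy⟩ := hcop
  have hpc : ¬ p ∣ c := fun h => hpd (hic ▸ h.mul_left _)
  have hpd' : ¬ p ∣ d := fun h => hpd (hjd ▸ h.mul_left _)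
  have hc0 : c ≠ 0 := by rintro rfl; exact hpc (dvd_zero p)
  have hd0 : d ≠ 0 := by rintro rfl; exact hpd' (dvd_zero p)
  have hcc : IsCoprime (c : ℤ) ((p : ℤ) * l₁) := by
    refine IsCoprime.mul_right ?_ ?_
    · rw [Nat.isCoprime_iff_coprime, Nat.coprime_comm]
      exact (Nat.Prime.coprime_iff_not_dvd hpp).2 hpc
    · rw [Nat.isCoprime_iff_coprime, Nat.coprime_comm]
      exact (Nat.Prime.coprime_iff_not_dvd hl₁).2 hc
  have hdd : IsCoprime (d : ℤ) ((p : ℤ) * l₂) := by
    refine IsCoprime.mul_right ?_ ?_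
    · rw [Nat.isCoprime_iff_coprime, Nat.coprime_comm]
      exact (Nat.Prime.coprime_iff_not_dvd hpp).2 hpd'
    · rw [Nat.isCoprime_iff_coprime, Nat.coprime_comm]
      exact (Nat.Prime.coprime_iff_not_dvd hl₂).2 hd
  refine ⟨_, _, h₁.tern hpp (a * x) c hcc, h₂.tern hpp (a * y) d hdd, ?_⟩
  have hq1 : q * (q.den : ℚ) = p * a := by
    rw [Rat.mul_den_eq_num]; exact_mod_cast ha
  have hxy' : (x : ℚ) * (l₁ : ℚ) ^ (i + 1) + y * (l₂ : ℚ) ^ (j + 1) = 1 := by exact_mod_cast hxy
  have hic' : (q.den : ℚ) = (l₁ : ℚ) ^ i * c := by exact_mod_cast hic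
  have hjd' : (q.den : ℚ) = (l₂ : ℚ) ^ j * d := by exact_mod_cast hjd
  have hc1 : (c : ℚ) ≠ 0 := by exact_mod_cast hc0
  have hd1 : (d : ℚ) ≠ 0 := by exact_mod_cast hd0
  have hden1 : (q.den : ℚ) ≠ 0 := by exact_mod_cast hden
  have hl1 : (l₁ : ℚ) ≠ 0 := by exact_mod_cast hl₁.ne_zero
  have hl2 : (l₂ : ℚ) ≠ 0 := by exact_mod_cast hl₂.ne_zero
  push_cast
  have e1 : (p : ℚ) * l₁ * (a * x) / c = q * (x * (l₁ : ℚ) ^ (i + 1)) := by
    rw [div_eq_iff hc1]
    have : q * (x * (l₁ : ℚ) ^ (i + 1)) * c = q * ((l₁ : ℚ) ^ i * c) * (x * l₁) := by ring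
    rw [this, ← hic', hq1]; ring
  have e2 : (p : ℚ) * l₂ * (a * y) / d = q * (y * (l₂ : ℚ) ^ (j + 1)) := by
    rw [div_eq_iff hd1]
    have : q * (y * (l₂ : ℚ) ^ (j + 1)) * d = q * ((l₂ : ℚ) ^ j * d) * (y * l₂) := by ring
    rw [this, ← hjd', hq1]; ring
  rw [e1, e2, ← mul_add, hxy', mul_one]






end Pool.Agent.H60.UDef
end

-- from Lib.H60.UDef.Subfield
section

/-!
The complement of a rank-stable subfield is Diophantine (given a good split prime).
-/

set_option autoImplicit false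

open WeierstrassCurve WeierstrassCurve.Affine Module

namespace Pool.Agent.H60.UDef

/-- x-coordinates of `(k + 1)`-multiples (generic chains). -/
def XSet {K : Type} [Field K] (A B : K) (k : ℕ) (s : K) : Prop :=
  ∃ x₁ y₁ y' : K, y₁ ^ 2 = x₁ ^ 3 + A * x₁ + B ∧ MulRel A k x₁ y₁ s y'

/-- Differences of two ratios. -/
def RSet {K : Type} [Field K] (X : K → Prop) (r : K) : Prop :=
  ∃ s₁ t₁ s₂ t₂ : K, X s₁ ∧ X t₁ ∧ X s₂ ∧ X t₂ ∧ t₁ ≠ 0 ∧ t₂ ≠ 0 ∧
    r * (t₁ * t₂) = s₁ * t₂ - s₂ * t₁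



section

variable {F K : Type} [Field F] [Field K] [Algebra F K]

theorem RSet.mem {X : K → Prop} (hX : ∀ s, X s → ∃ c : F, algebraMap F K c = s) {r : K}
    (h : RSet X r) : ∃ c : F, algebraMap F K c = r := by
  obtain ⟨s₁, t₁, s₂, t₂, h1, h2, h3, h4, h5, h6, h7⟩ := h
  obtain ⟨a, rfl⟩ := hX _ h1
  obtain ⟨b, rfl⟩ := hX _ h2
  obtain ⟨c, rfl⟩ := hX _ h3
  obtain ⟨d, rfl⟩ := hX _ h4
  refine ⟨(a * d - c * b) / (b * d), ?_⟩
  rw [map_div₀, map_mul, map_sub, map_mul, map_mul, ← h7, mul_div_cancel_right₀]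
  exact mul_ne_zero h5 h6

open scoped Classical in
theorem XSet.mem [CharZero K] {a b : F} (hab : 4 * a ^ 3 + 27 * b ^ 2 ≠ 0) {k : ℕ}
    (hm : ∀ P : ((shortW a b)⁄K).Point, ∃ Q : ((shortW a b)⁄F).Point,
      (k + 1) • P = Point.baseChange F K Q) {s : K}
    (h : XSet (algebraMap F K a) (algebraMap F K b) k s) : ∃ c : F, algebraMap F K c = s := by
  obtain ⟨x₁, y₁, y', h1, h2⟩ := h
  obtain ⟨P, hP⟩ := isAt_of_eqn hab h1
  have h3 := MulRel.sound hP k h2
  obtain ⟨Q, hQ⟩ := hm P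
  rw [hQ] at h3
  cases Q with
  | zero => exact absurd rfl h3.ne_zero
  | some c d hcd =>
    rw [Point.baseChange, Point.map_some] at h3
    obtain ⟨h4, h5⟩ := h3
    have h6 := Point.some.inj h5
    exact ⟨c, h6.1⟩


variable [NumberField K] {p l₁ l₂ : ℕ} [hp : Fact p.Prime]


end

end Pool.Agent.H60.UDef
end

-- from Lib.H34V.V05
section

/-!
# V05: combinatorics for an orthogonal block and a linear block
-/

set_option autoImplicit false
set_option linter.unusedSectionVars false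
namespace Pool.Agent.H34V
open Finset

variable {κ : Type*} [DecidableEq κ] {K : Type*} [Field K] [CharZero K]

/-- PROOF. As `H34Z.comb_o` (H34Z/A05.lean).  For different `i, j, k ∈ T`: `2 lam i = (lam i + lam j) + (lam i + lam k) - (lam j + lam k)` is in `{-1, 0, 1, 2}`.
(a) If `lam i ∈ {0, 1}` for some `i ∈ T` then for `j ≠ i`: `lam j ∈ {-1, 0, 1}` and `2 lam j ∈ {-1, 0, 1, 2}`, so `lam j ∈ {0, 1}`; two of them are not both `1`
(`lam i + lam j = 2`): first alternative (all zero) or second alternative (exactly one is `1`).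
(b) Otherwise all `lam i ∈ {1/2, -1/2}`, at most one is `-1/2`: third (all `1/2`) or fourth alternative (exactly one `-1/2`). -/
theorem comb_four {T : Finset κ} {lam : κ → K} (h : ∀ i ∈ T, ∀ j ∈ T, i ≠ j → lam i + lam j = 0 ∨ lam i + lam j = 1)
    (h3 : 3 ≤ T.card) :
    (∀ i ∈ T, lam i = 0) ∨ (∃ i₀ ∈ T, lam i₀ = 1 ∧ ∀ i ∈ T, i ≠ i₀ → lam i = 0) ∨
    (∀ i ∈ T, lam i = 1 / 2) ∨ ∃ i₀ ∈ T, lam i₀ = -1 / 2 ∧ ∀ i ∈ T, i ≠ i₀ → lam i = 1 / 2 := by
  classical
  have hA : ∀ i ∈ T, 2 * lam i = -1 ∨ 2 * lam i = 0 ∨ 2 * lam i = 1 ∨ 2 * lam i = 2 := by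
    intro i hi
    have h5 : 0 < (T.erase i).card := by
      rw [card_erase_of_mem hi]
      omega
    obtain ⟨j, hj⟩ := card_pos.1 h5
    have h6 : 0 < ((T.erase i).erase j).card := by
      rw [card_erase_of_mem hj, card_erase_of_mem hi]
      omega
    obtain ⟨k, hk⟩ := card_pos.1 h6
    rw [mem_erase] at hj
    rw [mem_erase, mem_erase] at hk
    have e1 := h i hi j hj.2 (Ne.symm hj.1)
    have e2 := h i hi k hk.2.2 (Ne.symm hk.2.1)
    have e3 := h j hj.2 k hk.2.2 (Ne.symm hk.1)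
    have e : 2 * lam i = (lam i + lam j) + (lam i + lam k) - (lam j + lam k) := by ring
    rcases e1 with e1 | e1 <;> rcases e2 with e2 | e2 <;> rcases e3 with e3 | e3 <;>
      rw [e1, e2, e3] at e
    · right; left; rw [e]; ring
    · left; rw [e]; ring
    · right; right; left; rw [e]; ring
    · right; left; rw [e]; ring
    · right; right; left; rw [e]; ring
    · right; left; rw [e]; ring
    · right; right; right; rw [e]; ring
    · right; right; left; rw [e]; ring
  by_cases ha : ∃ i ∈ T, lam i = 0 ∨ lam i = 1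
  · obtain ⟨i, hi, hi01⟩ := ha
    have hall : ∀ j ∈ T, lam j = 0 ∨ lam j = 1 := by
      intro j hj
      by_cases hij : j = i
      · rw [hij]
        exact hi01
      · have e1 := h i hi j hj (Ne.symm hij)
        have e2 := hA j hj
        have hneg : lam j ≠ -1 := by
          intro h0
          rw [h0] at e2
          rcases e2 with e2 | e2 | e2 | e2 <;> norm_num at e2
        rcases hi01 with h0 | h0 <;> rcases e1 with e1 | e1 <;> rw [h0] at e1
        · left; rwa [zero_add] at e1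
        · right; rwa [zero_add] at e1
        · exfalso
          exact hneg (by linear_combination e1)
        · left; linear_combination e1
    by_cases hc : ∃ i₀ ∈ T, lam i₀ = 1
    · right; left
      obtain ⟨i₀, hi₀, h1⟩ := hc
      refine ⟨i₀, hi₀, h1, fun j hj hne => ?_⟩
      rcases hall j hj with e | e
      · exact e
      · exfalso
        rcases h i₀ hi₀ j hj (Ne.symm hne) with e1 | e1
        · rw [h1, e] at e1
          norm_num at e1
        · rw [h1, e] at e1
          norm_num at e1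
    · left
      push Not at hc
      exact fun j hj => (hall j hj).resolve_right (hc j hj)
  · right; right
    push Not at ha
    have hB : ∀ i ∈ T, lam i = -1 / 2 ∨ lam i = 1 / 2 := by
      intro i hi
      have h01 := ha i hi
      rcases hA i hi with e | e | e | e
      · left
        linear_combination (1 / 2) * e
      · exfalso
        apply h01.1
        linear_combination (1 / 2) * e
      · right
        linear_combination (1 / 2) * e
      · exfalso
        apply h01.2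
        linear_combination (1 / 2) * e
    by_cases hc : ∃ i ∈ T, lam i = -1 / 2
    · right
      obtain ⟨i, hi, hi1⟩ := hc
      refine ⟨i, hi, hi1, fun j hj hne => ?_⟩
      rcases hB j hj with e | e
      · exfalso
        rcases h i hi j hj (Ne.symm hne) with e1 | e1
        · rw [hi1, e] at e1
          norm_num at e1
        · rw [hi1, e] at e1
          norm_num at e1
      · exact e
    · left
      push Not at hc
      exact fun j hj => (hB j hj).resolve_left (hc j hj)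

end Pool.Agent.H34V
end

-- from Lib.SZ.Defs
section

/-!
# Module SZ of S14399 (Saerkoezy theorem for rough elements of a number field): common definitions.

`T F` is the group of characters of `𝓞 F` with values in the circle `ℝ / ℤ` (written additively), `nT` is the size of a
character on the integral basis, `ev τ x = exp (2 π i τ x)`, `box F Y` the box `0 ≤ x_i < Y`, `grid F P` the `P ^ n`
characters of `𝓞 F / P`, `FA A τ = ∑ a ∈ A, ev τ a`.  `Weyl`, `Energy` and `ThmB` are the three statements of the module.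
-/

namespace Pool.Agent.SZ

open NumberField

/-- Index type of the integral basis. -/
abbrev Ix (F : Type*) [Field F] [NumberField F] : Type _ := Module.Free.ChooseBasisIndex ℤ (𝓞 F)

/-- The integral basis. -/
noncomputable abbrev bas (F : Type*) [Field F] [NumberField F] : Module.Basis (Ix F) ℤ (𝓞 F) := RingOfIntegers.basis F

/-- The degree, as the number of basis elements. -/
noncomputable abbrev dg (F : Type*) [Field F] [NumberField F] : ℕ := Fintype.card (Ix F)

/-- The group of characters of the ring of integers. -/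
abbrev T (F : Type*) [Field F] [NumberField F] : Type _ := (𝓞 F) →+ UnitAddCircle

section

variable {F : Type*} [Field F] [NumberField F]

/-- The coordinates of `x` are at most `R` in absolute value. -/
def InB (R : ℕ) (x : 𝓞 F) : Prop := ∀ i, |(bas F).repr x i| ≤ (R : ℤ)


/-- The twist of a character by a ring element: `(g τ) x = τ (g x)`. -/
noncomputable def tw (g : 𝓞 F) (τ : T F) : T F := τ.comp (AddMonoidHom.mulLeft g)







end




end Pool.Agent.SZ
end

-- from Lib.SZ.B3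
section

/-!
# SZ, assembly of Theorem B: metric lemmas (sizes of characters and coordinates, torsion points).
-/

namespace Pool.Agent.SZ.Asm

open NumberField Finset

variable {F : Type*} [Field F] [NumberField F]










theorem _root_.Pool.Agent.SZ.InB.add {a b : ℕ} {x y : 𝓞 F} (hx : InB a x) (hy : InB b y) : InB (a + b) (x + y) := by
  intro i
  rw [map_add, Finsupp.add_apply]
  push_cast
  exact (abs_add_le _ _).trans (add_le_add (hx i) (hy i))

theorem _root_.Pool.Agent.SZ.InB.neg {a : ℕ} {x : 𝓞 F} (hx : InB a x) : InB a (-x) := by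
  intro i
  rw [map_neg, Finsupp.neg_apply, abs_neg]
  exact hx i

theorem _root_.Pool.Agent.SZ.InB.sub {a b : ℕ} {x y : 𝓞 F} (hx : InB a x) (hy : InB b y) : InB (a + b) (x - y) := by
  rw [sub_eq_add_neg]
  exact hx.add hy.neg










end Pool.Agent.SZ.Asm
end

-- from Lib.SZ.E00
section

/-!
# Module SZ2 (energy for fat arcs), E00: definitions and elementary lemmas.
-/

namespace Pool.Agent.SZ

open NumberField Finset
open scoped Classical

section

variable {F : Type*} [Field F] [NumberField F]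




















/-! ## Annihilators and torsion characters -/

/-- `σ` vanishes on the ideal `𝔞`. -/
def Kills (𝔞 : Ideal (𝓞 F)) (σ : T F) : Prop := ∀ g ∈ 𝔞, σ g = 0

/-- The finite set of the characters vanishing on `𝔞` (empty if there are infinitely many of them). -/
noncomputable def KF (𝔞 : Ideal (𝓞 F)) : Finset (T F) :=
  if h : {σ : T F | Kills 𝔞 σ}.Finite then h.toFinset else ∅

/-- The annihilator of a character. -/
def annI (σ : T F) : Ideal (𝓞 F) where
  carrier := {g | ∀ x, σ (g * x) = 0}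
  zero_mem' := by intro x; simp
  add_mem' := by
    intro a b ha hb x
    rw [add_mul, map_add, ha x, hb x, add_zero]
  smul_mem' := by
    intro c g hg x
    rw [smul_eq_mul, mul_comm c g, mul_assoc]
    exact hg _


/-- The characters with annihilator exactly `𝔞`. -/
noncomputable def TS (𝔞 : Ideal (𝓞 F)) : Finset (T F) := (KF 𝔞).filter fun σ => annI σ = 𝔞







/-- `h(J) = ∏ 1 / (N 𝔭 - 1)`. -/
noncomputable def hJ (J : Finset (Ideal (𝓞 F))) : ℝ := ∏ p ∈ J, 1 / ((Ideal.absNorm p : ℝ) - 1)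



theorem absNorm_pos {I : Ideal (𝓞 F)} (hI : I ≠ ⊥) : 0 < Ideal.absNorm I := by
  rw [Nat.pos_iff_ne_zero]
  exact fun h => hI (Ideal.absNorm_eq_zero_iff.mp h)

theorem one_lt_absNorm {I : Ideal (𝓞 F)} (h0 : I ≠ ⊥) (hI : I.IsPrime) : 1 < Ideal.absNorm I := by
  have h1 := absNorm_pos h0
  have h2 : Ideal.absNorm I ≠ 1 := fun h => hI.ne_top (Ideal.absNorm_eq_one_iff.mp h)
  omega

end


/-- `1 / max(k, 1) ^ 2`. -/
noncomputable def hh (k : ℕ) : ℝ := 1 / (max (k : ℝ) 1) ^ 2

/-- `e(t)` for `t` in the circle. -/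
noncomputable def ec (t : UnitAddCircle) : ℂ := (AddCircle.toCircle t : ℂ)

end Pool.Agent.SZ
end

-- from Lib.SZ.E27
section

/-!
# Module SZ2 (energy for fat arcs), E27: the product over the small primes
-/

namespace Pool.Agent.SZ

open NumberField Finset
open scoped Classical

section

variable {F : Type*} [Field F] [NumberField F]

/-- For every prime number `ℓ` at most `n` nonzero prime ideals have a norm with smallest prime factor `ℓ`. Proof: if `𝔭` is a nonzero
prime ideal, `𝔭 ∩ ℤ = (q)` for a prime number `q` and `N 𝔭 = q ^ f`, `f ≥ 1` (`Ideal.absNorm_eq_pow_inertiaDeg`, or: `q ∈ 𝔭` gives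
`N 𝔭 ∣ N (q) = q ^ n`), so `minFac (N 𝔭) = q`. The primes above `ℓ` are at most `n = [F : ℚ]`
(`Ideal.card_primesOverFinset_le_finrank` or, by hand: the product of the primes above `ℓ` divides `(ℓ)`, of norm `ℓ ^ n`, and every norm is
`≥ ℓ`; `dg F = Module.finrank ℚ F`: `NumberField.RingOfIntegers.rank`, `Module.finrank_eq_card_chooseBasisIndex`). -/
theorem e27_card (Q : Finset (Ideal (𝓞 F))) (hQ : ∀ p ∈ Q, p.IsPrime ∧ p ≠ ⊥) (ℓ : ℕ)
    (h : ∀ p ∈ Q, (Ideal.absNorm p).minFac = ℓ) : Q.card ≤ dg F := by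
  rcases Q.eq_empty_or_nonempty with hQe | ⟨p0, hp0⟩
  · rw [hQe, Finset.card_empty]
    exact Nat.zero_le _
  have hfin : Module.finrank ℤ (𝓞 F) = dg F := Module.finrank_eq_card_chooseBasisIndex ℤ (𝓞 F)
  have hl : ℓ.Prime := by
    rw [← h p0 hp0]
    apply Nat.minFac_prime
    have := one_lt_absNorm (hQ p0 hp0).2 (hQ p0 hp0).1
    omega
  -- every prime of `Q` contains `ℓ`
  have hmem : ∀ p ∈ Q, ((ℓ : ℕ) : 𝓞 F) ∈ p := by
    intro p hp
    have hpp := (hQ p hp).1
    have hN := one_lt_absNorm (hQ p hp).2 hpp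
    have h1 := Ideal.absNorm_mem p
    obtain ⟨q, hq, hqp⟩ : ∃ q : ℕ, q.Prime ∧ ((q : ℕ) : 𝓞 F) ∈ p := by
      by_contra hcon
      push Not at hcon
      have h2 : ∀ m : ℕ, m ≠ 0 → (∀ q : ℕ, q.Prime → q ∣ m → ((q : ℕ) : 𝓞 F) ∉ p) → ((m : ℕ) : 𝓞 F) ∉ p := by
        intro m
        induction m using Nat.recOnMul with
        | zero => intro h; exact absurd rfl h
        | one =>
          intro _ _ h
          rw [Nat.cast_one] at h
          exact hpp.ne_top ((Ideal.eq_top_iff_one p).2 h)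
        | prime q hq =>
          intro _ h
          exact h q hq dvd_rfl
        | mul a b iha ihb =>
          intro h0 h h'
          rw [Nat.cast_mul] at h'
          rcases hpp.mem_or_mem h' with h3 | h3
          · exact iha (left_ne_zero_of_mul h0) (fun q hq hqa => h q hq (hqa.mul_right b)) h3
          · exact ihb (right_ne_zero_of_mul h0) (fun q hq hqb => h q hq (hqb.mul_left a)) h3
      exact h2 _ (by omega) (fun q hq _ => hcon q hq) h1
    have h4 : Ideal.absNorm p ∣ q ^ dg F := by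
      rw [← hfin, ← Ideal.absNorm_span_natCast]
      exact Ideal.absNorm_dvd_absNorm_of_le ((Ideal.span_singleton_le_iff_mem _).2 hqp)
    have h5 : (Ideal.absNorm p).minFac = q := by
      have h6 : (Ideal.absNorm p).minFac ∣ q ^ dg F := (Nat.minFac_dvd _).trans h4
      have h7 : (Ideal.absNorm p).minFac.Prime := Nat.minFac_prime (by omega)
      exact (Nat.prime_dvd_prime_iff_eq h7 hq).1 (h7.dvd_of_dvd_pow h6)
    rw [h p hp] at h5
    rw [h5]
    exact hqp
  have hdvd : ∏ p ∈ Q, p ∣ Ideal.span {((ℓ : ℕ) : 𝓞 F)} := by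
    apply Finset.prod_primes_dvd
    · intro p hp
      exact (Ideal.prime_iff_isPrime (hQ p hp).2).2 (hQ p hp).1
    · intro p hp
      rw [Ideal.dvd_iff_le, Ideal.span_singleton_le_iff_mem]
      exact hmem p hp
  have h8 : ∏ p ∈ Q, Ideal.absNorm p ∣ ℓ ^ dg F := by
    rw [← hfin, ← Ideal.absNorm_span_natCast, ← map_prod]
    exact Ideal.absNorm_dvd_absNorm_of_le (Ideal.le_of_dvd hdvd)
  have h9 : ℓ ^ Q.card ≤ ∏ p ∈ Q, Ideal.absNorm p := by
    apply Finset.pow_card_le_prod
    intro p hp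
    rw [← h p hp]
    exact Nat.minFac_le (by have := one_lt_absNorm (hQ p hp).2 (hQ p hp).1; omega)
  have h10 : ℓ ^ Q.card ≤ ℓ ^ dg F := h9.trans (Nat.le_of_dvd (pow_pos hl.pos _) h8)
  exact (Nat.pow_le_pow_iff_right hl.one_lt).1 h10

end

end Pool.Agent.SZ
end
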