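import Mathlib
import Pool.Agent.Lib.H1M.RC.M003
import Pool.Agent.Lib.H1M.RC.M008

/-! Merged copies (to shorten the build) of Lib.CFT.B19, Lib.CFT.B25, Lib.CFT.X11, Lib.CFT.L7, Lib.CFT.Y03, Lib.CFT.Y04, Lib.H69H.V1a, Lib.H69H.V1b, Lib.H69H.V1. -/

-- from Lib.CFT.B19
section

/-! # CFT module B, chunk B19: finitely many ramified primes -/

open NumberField IsDedekindDomain

namespace CFT

variable {K : Type} [Field K] [NumberField K] {L : Type} [Field L] [NumberField L] [Algebra K L]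


/-- PROOF. Mathlib: the different ideal is not 0 and a prime with ramification index > 1 divides it (differentIdeal, dvd_differentIdeal_iff / not_dvd_differentIdeal_iff with Algebra.IsUnramifiedAt and
Algebra.isUnramifiedAt_iff_ramificationIdx_eq_one or similar, see NumberTheory/RamificationInertia/Unramified.lean and NumberTheory/NumberField/Discriminant/Different.lean);
finitely many primes of O_L divide a nonzero ideal (Ideal.finite_factors); map them to K by below. -/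
theorem unr_fin : {v : Pr K | ¬ Unr K L v}.Finite := by
  have hd : differentIdeal (𝓞 K) (𝓞 L) ≠ ⊥ := differentIdeal_ne_bot
  have hfin := Ideal.finite_factors (I := differentIdeal (𝓞 K) (𝓞 L)) hd
  refine (hfin.image (below K)).subset ?_
  intro v hv
  have hv' : ¬ ∀ w : Pr L, below K w = v → w.asIdeal.ramificationIdx (𝓞 K) = 1 := hv
  push Not at hv'
  obtain ⟨w, hw, he⟩ := hv'
  refine ⟨w, ?_, hw⟩
  haveI : w.asIdeal.LiesOver (below K w).asIdeal := ⟨rfl⟩
  haveI := w.isPrime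
  haveI : (below K w).asIdeal.IsMaximal := (below K w).isMaximal
  have h1 := e_pos (K := K) w
  have h2 : w.asIdeal ^ (w.asIdeal.ramificationIdx (𝓞 K)) ∣ (below K w).asIdeal.map (algebraMap (𝓞 K) (𝓞 L)) := by
    rw [Ideal.dvd_iff_le, ← Ideal.ramificationIdx'_eq_ramificationIdx (below K w).asIdeal w.asIdeal (below K w).ne_bot]
    exact Ideal.le_pow_ramificationIdx'
  have h3 := pow_sub_one_dvd_differentIdeal (𝓞 K) w.asIdeal _ (below K w).ne_bot h2
  refine (dvd_pow_self _ ?_).trans h3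
  omega

end CFT
end

-- from Lib.CFT.B25
section

/-! # CFT module B, chunk B25: group lemmas for the end -/

open NumberField IsDedekindDomain

namespace CFT

/-- PROOF. A cyclic group of order l^r, l prime: the subgroups form a chain; if r = 0 any element of T (nonempty) or ... (T is not empty is assumed). If no element of T generates G then all elements of T lie in the unique
subgroup of index l (the l-th powers), so the closure is not everything. -/
theorem gen_mem {G : Type} [Group G] [Finite G] (hc : IsCyclic G) (l r : ℕ) (hl : l.Prime) (hn : Nat.card G = l ^ r) (T : Set G) (hne : T.Nonempty)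
    (hT : Subgroup.closure T = ⊤) : ∃ g ∈ T, Subgroup.zpowers g = ⊤ := by
  classical
  by_contra hcon
  push Not at hcon
  obtain ⟨g0, hg0⟩ := hc.exists_generator
  have hord : orderOf g0 = l ^ r := by
    rw [← hn]
    exact orderOf_eq_card_of_forall_mem_zpowers hg0
  rcases r with _ | r
  · rw [pow_zero] at hn
    obtain ⟨t, ht⟩ := hne
    refine hcon t ht ?_
    have hs : Subsingleton G := (Nat.card_eq_one_iff_unique.1 hn).1
    exact Subsingleton.elim _ _
  · have hkey : ∀ t ∈ T, t ^ (l ^ r) = 1 := by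
      intro t ht
      have h1 : orderOf t ∣ l ^ (r + 1) := by
        rw [← hn]
        exact orderOf_dvd_natCard t
      obtain ⟨m, hm, hm2⟩ := (Nat.dvd_prime_pow hl).1 h1
      have h2 : m ≠ r + 1 := by
        rintro rfl
        refine hcon t ht ?_
        rw [← Subgroup.card_eq_iff_eq_top, Nat.card_zpowers, hm2, hn]
      have h3 : m ≤ r := by omega
      rw [← orderOf_dvd_iff_pow_eq_one, hm2]
      exact pow_dvd_pow l h3
    letI : CommGroup G := hc.commGroup
    have h4 : Subgroup.closure T ≤ (powMonoidHom (l ^ r) : G →* G).ker := by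
      rw [Subgroup.closure_le]
      intro t ht
      exact hkey t ht
    have h5 : g0 ∈ (powMonoidHom (l ^ r) : G →* G).ker := h4 (hT ▸ Subgroup.mem_top g0)
    have h6 : g0 ^ (l ^ r) = 1 := h5
    rw [← orderOf_dvd_iff_pow_eq_one, hord] at h6
    have h7 := Nat.le_of_dvd (pow_pos hl.pos r) h6
    have h8 : l ^ r < l ^ (r + 1) := Nat.pow_lt_pow_right hl.one_lt (Nat.lt_succ_self r)
    omega


/-- PROOF. Character chi : G -> C^* with chi g <> 1 (CommGroup.exists_apply_ne_one_of_hasEnoughRootsOfUnity); the image of chi is cyclic of order n; let d = order of chi g, l a prime divisor of d, n = l^r n', l not dividing n';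
chi' = chi^n' has image of order l^r (cyclic) and chi'(g) <> 1 since d does not divide n'. H = ker chi'. G/H is isomorphic to the image. (Or: H maximal among the subgroups not containing g.) -/
theorem ker_pp {G : Type} [Group G] [Finite G] (hab : ∀ a b : G, a * b = b * a) (g : G) (hg : g ≠ 1) :
    ∃ H : Subgroup G, ∃ _ : H.Normal, g ∉ H ∧ IsCyclic (G ⧸ H) ∧ ∃ l r : ℕ, l.Prime ∧ Nat.card (G ⧸ H) = l ^ r := by
  classical
  letI : CommGroup G := { (inferInstance : Group G) with mul_comm := hab }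
  obtain ⟨χ, hχ⟩ := CommGroup.exists_apply_ne_one_of_hasEnoughRootsOfUnity G ℂ hg
  have hcard : Nat.card G ≠ 0 := Nat.card_pos.ne'
  have hc1 : (χ g) ^ Nat.card G = 1 := by rw [← map_pow, pow_card_eq_one', map_one]
  have hd : orderOf (χ g) ≠ 1 := fun h => hχ (orderOf_eq_one_iff.1 h)
  obtain ⟨l, hl, hld⟩ := Nat.exists_prime_and_dvd hd
  obtain ⟨r, n', hn', hrn⟩ := Nat.exists_eq_pow_mul_and_not_dvd hcard l hl.ne_one
  have hker : ∀ x : G, ((χ ^ n') x) ^ (l ^ r) = 1 := by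
    intro x
    rw [MonoidHom.pow_apply, ← pow_mul, mul_comm n', ← hrn, ← map_pow, pow_card_eq_one', map_one]
  have hrange : ∀ y : (χ ^ n').range, y ^ (l ^ r) = 1 := by
    rintro ⟨y, x, rfl⟩
    exact Subtype.ext (hker x)
  haveI : Finite (χ ^ n').range := Set.finite_range _ |>.to_subtype
  have hp : IsPGroup l (χ ^ n').range := fun y => ⟨r, hrange y⟩
  haveI : Fact l.Prime := ⟨hl⟩
  obtain ⟨r', hr'⟩ := IsPGroup.iff_card.1 hp
  have e := QuotientGroup.quotientKerEquivRange (χ ^ n')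
  refine ⟨(χ ^ n').ker, inferInstance, ?_, ?_, l, r', hl, ?_⟩
  · intro h
    have h1 : (χ g) ^ n' = 1 := h
    exact hn' (hld.trans (orderOf_dvd_iff_pow_eq_one.2 h1))
  · haveI : IsCyclic (χ ^ n').range := inferInstance
    exact isCyclic_of_surjective e.symm e.symm.surjective
  · rw [Nat.card_congr e.toEquiv, hr']


end CFT
end

-- from Lib.CFT.X11
section

/-! # CFT X11 (M): the choice of m = q₁ q₂

PROOF. Nm v >= 2 (Nm_pos, and absNorm = 1 iff the ideal is the whole ring). A prime number q with (q : O_K) in v divides Nm v (Ideal.absNorm_mem: Nm v in v; if q does not divide Nm v then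
1 = q x + Nm v y is in v), and only one prime number is in v. So {q | q.Prime and (q : O_K) in v} is finite (a subset of the divisors of Nm v, or a subsingleton). Let B be from x_irr2 (X10), q₁ from
x_primes (X06) with a = Nm v, avoiding B and the primes in v, v₀; B' from x_irr2, q₂ from x_primes with a = Nm v₀, avoiding B' and the primes in v, v₀. If (q₁ q₂ : O_K) is in v, then q₁ or q₂
is in v (prime ideal), a contradiction. -/

open NumberField IsDedekindDomain

namespace CFT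

/-- Only one prime number is in a prime ideal. -/
theorem x11_fin (K : Type) [Field K] [NumberField K] (v : Pr K) : {q : ℕ | q.Prime ∧ (q : 𝓞 K) ∈ v.asIdeal}.Finite := by
  refine Set.Subsingleton.finite ?_
  rintro q ⟨hq, hqv⟩ q' ⟨hq', hqv'⟩
  by_contra hne
  have h1 : IsCoprime (q : ℤ) (q' : ℤ) := Nat.isCoprime_iff_coprime.2 ((Nat.coprime_primes hq hq').2 hne)
  obtain ⟨a, b, hab⟩ := h1
  have h2 : (a : 𝓞 K) * (q : 𝓞 K) + (b : 𝓞 K) * (q' : 𝓞 K) = 1 := by exact_mod_cast hab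
  apply v.isPrime.ne_top
  rw [Ideal.eq_top_iff_one, ← h2]
  exact v.asIdeal.add_mem (v.asIdeal.mul_mem_left _ hqv) (v.asIdeal.mul_mem_left _ hqv')

theorem x11_two (K : Type) [Field K] [NumberField K] (v : Pr K) : 2 ≤ Nm v := by
  have h1 := Nm_pos v
  have h2 : Nm v ≠ 1 := by
    intro h
    unfold Nm at h
    exact v.isPrime.ne_top (Ideal.absNorm_eq_one_iff.1 h)
  omega

theorem x_choose (K : Type) [Field K] [NumberField K] (L : Type) [Field L] [NumberField L] {l : ℕ} (hl : l.Prime) (r : ℕ) (v v₀ : Pr K) :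
    ∃ q₁ q₂ : ℕ, q₁.Prime ∧ q₂.Prime ∧ q₁ ≠ q₂ ∧ Irreducible (Polynomial.cyclotomic (q₁ * q₂) L) ∧
      ((q₁ * q₂ : ℕ) : 𝓞 K) ∉ v.asIdeal ∧ ((q₁ * q₂ : ℕ) : 𝓞 K) ∉ v₀.asIdeal ∧
      l ^ r ∣ orderOf (Nm v : ZMod q₁) ∧ l ^ r ∣ orderOf (Nm v₀ : ZMod q₂) ∧ l ^ r ∣ q₁ - 1 ∧ l ^ r ∣ q₂ - 1 := by
  obtain ⟨B, hB, hB2⟩ := x_irr2 L
  obtain ⟨q₁, hq₁, hn₁, -, ho₁, hd₁⟩ := x_primes (x11_two K v) hl r (B ∪ ({q : ℕ | q.Prime ∧ (q : 𝓞 K) ∈ v.asIdeal} ∪ {q : ℕ | q.Prime ∧ (q : 𝓞 K) ∈ v₀.asIdeal}))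
    (hB.union ((x11_fin K v).union (x11_fin K v₀)))
  rw [Set.mem_union, Set.mem_union, not_or, not_or] at hn₁
  obtain ⟨hn1, hn2, hn3⟩ := hn₁
  obtain ⟨B', hB', hqB', hirr⟩ := hB2 q₁ hq₁ hn1
  obtain ⟨q₂, hq₂, hn₂, -, ho₂, hd₂⟩ := x_primes (x11_two K v₀) hl r (B' ∪ ({q : ℕ | q.Prime ∧ (q : 𝓞 K) ∈ v.asIdeal} ∪ {q : ℕ | q.Prime ∧ (q : 𝓞 K) ∈ v₀.asIdeal}))
    (hB'.union ((x11_fin K v).union (x11_fin K v₀)))
  rw [Set.mem_union, Set.mem_union, not_or, not_or] at hn₂
  obtain ⟨hm1, hm2, hm3⟩ := hn₂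
  refine ⟨q₁, q₂, hq₁, hq₂, ?_, hirr q₂ hq₂ hm1, ?_, ?_, ho₁, ho₂, hd₁, hd₂⟩
  · rintro rfl
    exact hm1 hqB'
  · intro h
    rw [Nat.cast_mul] at h
    rcases v.isPrime.mem_or_mem h with h | h
    · exact hn2 ⟨hq₁, h⟩
    · exact hm2 ⟨hq₂, h⟩
  · intro h
    rw [Nat.cast_mul] at h
    rcases v₀.isPrime.mem_or_mem h with h | h
    · exact hn3 ⟨hq₁, h⟩
    · exact hm3 ⟨hq₂, h⟩


end CFT
end

-- from Lib.CFT.L7
section

/-! # CFT, module ZL, L7: Landau lemma for the exponential of a Dirichlet series -/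

open Filter Topology

namespace CFTL

theorem pow_hasSum {J : Type*} {g : J → ℝ} (hg : ∀ j, 0 ≤ g j) {s : ℝ} (h : HasSum g s) (k : ℕ) :
    HasSum (fun i : Fin k → J => ∏ j, g (i j)) (s ^ k) := by
  induction k with
  | zero =>
    have h1 := hasSum_unique (fun i : Fin 0 → J => ∏ j, g (i j))
    simpa using h1
  | succ k ih =>
    rw [← (Fin.consEquiv fun _ : Fin (k + 1) => J).hasSum_iff]
    have h0 : ∀ i : Fin k → J, 0 ≤ ∏ j, g (i j) := fun i => Finset.prod_nonneg fun j _ => hg _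
    have h1 : Summable fun x : J × (Fin k → J) => g x.1 * ∏ j, g (x.2 j) :=
      h.summable.mul_of_nonneg ih.summable hg h0
    have h2 := h.mul ih h1
    rw [pow_succ']
    refine h2.congr_fun ?_
    rintro ⟨a, b⟩
    show ∏ j, g ((Fin.consEquiv fun _ : Fin (k + 1) => J) (a, b) j) = g a * ∏ j, g (b j)
    rw [Fin.prod_univ_succ]
    rfl

theorem exp_hasSum {J : Type*} {g : J → ℝ} (hg : ∀ j, 0 ≤ g j) {s : ℝ} (h : HasSum g s) :
    HasSum (fun i : Σ k, (Fin k → J) => ((i.1.factorial : ℝ))⁻¹ * ∏ j, g (i.2 j)) (Real.exp s) := by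
  have h0 : ∀ i : Σ k, (Fin k → J), 0 ≤ ((i.1.factorial : ℝ))⁻¹ * ∏ j, g (i.2 j) := fun i =>
    mul_nonneg (by positivity) (Finset.prod_nonneg fun j _ => hg _)
  have h1 : ∀ k, HasSum (fun i : Fin k → J => ((k.factorial : ℝ))⁻¹ * ∏ j, g (i j)) (((k.factorial : ℝ))⁻¹ * s ^ k) :=
    fun k => (pow_hasSum hg h k).mul_left _
  have h2 : HasSum (fun k : ℕ => ((k.factorial : ℝ))⁻¹ * s ^ k) (Real.exp s) := by
    have := NormedSpace.exp_series_hasSum_exp' (𝕂 := ℝ) s
    rw [← Real.exp_eq_exp_ℝ] at this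
    exact this
  have h3 : Summable fun i : Σ k, (Fin k → J) => ((i.1.factorial : ℝ))⁻¹ * ∏ j, g (i.2 j) := by
    rw [summable_sigma_of_nonneg h0]
    refine ⟨fun k => (h1 k).summable, ?_⟩
    refine h2.summable.congr fun k => ?_
    exact (h1 k).tsum_eq.symm
  have h4 := h3.hasSum.sigma h1
  have h5 := h3.hasSum
  rwa [h4.unique h2] at h5

theorem landau_exp {J : Type*} (c l : J → ℝ) (hc : ∀ i, 0 ≤ c i) (hl : ∀ i, 0 ≤ l i)
    (hs : ∀ x : ℝ, 1 < x → Summable fun i => c i * Real.exp (-x * l i))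
    (f : ℂ → ℂ) (hf : DifferentiableOn ℂ f {s | 0 < s.re})
    (hfe : ∀ x : ℝ, 1 < x → f x = ((Real.exp (∑' i, c i * Real.exp (-x * l i)) : ℝ) : ℂ)) {y : ℝ} (hy : 0 < y) (hy2 : y < 2) :
    Summable fun i => c i * Real.exp (-y * l i) := by
  have key : ∀ (x : ℝ) (i : Σ k, (Fin k → J)), (((i.1.factorial : ℝ))⁻¹ * ∏ j, c (i.2 j)) * Real.exp (-x * ∑ j, l (i.2 j)) =
      ((i.1.factorial : ℝ))⁻¹ * ∏ j, (c (i.2 j) * Real.exp (-x * l (i.2 j))) := by
    intro x i
    rw [Finset.prod_mul_distrib, ← Real.exp_sum, ← Finset.mul_sum, mul_assoc]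
  have hg : ∀ (x : ℝ) (j : J), 0 ≤ c j * Real.exp (-x * l j) := fun x j => mul_nonneg (hc j) (Real.exp_pos _).le
  have h1 := landau (fun i : Σ k, (Fin k → J) => ((i.1.factorial : ℝ))⁻¹ * ∏ j, c (i.2 j))
    (fun i => ∑ j, l (i.2 j)) (fun i => mul_nonneg (by positivity) (Finset.prod_nonneg fun j _ => hc _))
    (fun i => Finset.sum_nonneg fun j _ => hl _) (fun x hx => ?_) f hf (fun x hx => ?_) hy hy2
  · have h2 := h1.comp_injective (i := fun j : J => (⟨1, fun _ => j⟩ : Σ k, (Fin k → J))) ?_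
    · refine h2.congr fun j => ?_
      simp
    · intro a b hab
      have h3 := congrFun (eq_of_heq (Sigma.mk.inj hab).2) 0
      exact h3
  · have h2 := (exp_hasSum (hg x) (hs x hx).hasSum).summable
    exact h2.congr fun i => (key x i).symm
  · have h2 := exp_hasSum (hg x) (hs x hx).hasSum
    rw [hfe x hx, ← h2.tsum_eq]
    congr 1
    exact tsum_congr fun i => (key x i).symm

end CFTL
end

-- from Lib.CFT.Y03
section

/-! # CFT module Y, chunk Y03: calculus of LL -/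

open NumberField

namespace CFTY

variable {K : Type} [Field K] [NumberField K]

/-- `F y G y - F x G x = (F y - F x) G y + F x (G y - G x)`. -/
theorem LL.mul {F G : K → ℂ} (hF : LL F) (hG : LL G) (bF : Bd F) (bG : Bd G) : LL fun x => F x * G x := by
  obtain ⟨L1, hL1, h1⟩ := hF
  obtain ⟨L2, hL2, h2⟩ := hG
  obtain ⟨B1, hB1, h3⟩ := bF
  obtain ⟨B2, hB2, h4⟩ := bG
  refine ⟨L1 * B2 + B1 * L2, by positivity, ?_⟩
  intro δ x y h0 h05 hx hxy
  have e : F y * G y - F x * G x = (F y - F x) * G y + F x * (G y - G x) := by ring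
  rw [e]
  calc ‖(F y - F x) * G y + F x * (G y - G x)‖
      ≤ ‖(F y - F x) * G y‖ + ‖F x * (G y - G x)‖ := norm_add_le _ _
    _ = ‖F y - F x‖ * ‖G y‖ + ‖F x‖ * ‖G y - G x‖ := by rw [norm_mul, norm_mul]
    _ ≤ (L1 * δ) * B2 + B1 * (L2 * δ) :=
        add_le_add (mul_le_mul (h1 δ x y h0 h05 hx hxy) (h4 y) (norm_nonneg _) (by positivity))
          (mul_le_mul (h3 x) (h2 δ x y h0 h05 hx hxy) (norm_nonneg _) hB1)
    _ = (L1 * B2 + B1 * L2) * δ := by ring

theorem Bd.mul {F G : K → ℂ} (bF : Bd F) (bG : Bd G) : Bd fun x => F x * G x := by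
  obtain ⟨B1, hB1, h3⟩ := bF
  obtain ⟨B2, hB2, h4⟩ := bG
  refine ⟨B1 * B2, by positivity, fun x => ?_⟩
  rw [norm_mul]
  exact mul_le_mul (h3 x) (h4 x) (norm_nonneg _) hB1

theorem LL_const (c : ℂ) : LL (K := K) fun _ => c := by
  refine ⟨0, le_rfl, ?_⟩
  intro δ x y _ _ _ _
  simp

theorem y03_TP {δ : ℝ} {x y : K} (h05 : δ ≤ 1 / 2) (hx : x ≠ 0) (hxy : Cl δ x y) :
    TP y ↔ TP x := by
  have key : ∀ φ : K →+* ℝ, |φ y - φ x| ≤ 1 / 2 * |φ x| := by
    intro φ
    have h := hxy (Complex.ofRealHom.comp φ)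
    simp only [RingHom.comp_apply, Complex.ofRealHom_eq_coe] at h
    rw [← Complex.ofReal_sub, Complex.norm_real, Complex.norm_real, Real.norm_eq_abs,
      Real.norm_eq_abs] at h
    exact h.trans (mul_le_mul_of_nonneg_right h05 (abs_nonneg _))
  constructor
  · intro hy
    refine ⟨hx, fun φ => ?_⟩
    have h1 := key φ
    have h2 := hy.2 φ
    by_contra h3
    push Not at h3
    rw [abs_of_nonpos h3, abs_le] at h1
    have h4 : φ x ≠ 0 := (map_ne_zero φ).2 hx
    have h5 : φ x < 0 := lt_of_le_of_ne h3 h4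
    linarith [h1.2]
  · intro hx'
    refine ⟨cl_ne h05 hx hxy, fun φ => ?_⟩
    have h1 := key φ
    have h2 := hx'.2 φ
    rw [abs_of_pos h2, abs_le] at h1
    linarith [h1.1]

open Classical in
/-- PROOF. If `Cl δ x y`, `δ ≤ 1/2`, `x ≠ 0` and `φ : K →+* ℝ` then (apply `Cl` to the embedding `Complex.ofRealHom.comp φ`)
`|φ y - φ x| ≤ |φ x| / 2`, so `φ y` and `φ x` have the same sign. So `TP y ↔ TP x` and the difference is 0. -/
theorem LL_TP : LL (K := K) fun x => if TP x then 1 else 0 := by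
  refine ⟨0, le_rfl, ?_⟩
  intro δ x y _ h05 hx hxy
  have h := y03_TP h05 hx hxy
  simp only [h, sub_self, norm_zero, zero_mul, le_refl]

open Classical in
theorem Bd_TP : Bd (K := K) fun x => if TP x then 1 else 0 := by
  refine ⟨1, zero_le_one, fun x => ?_⟩
  simp only
  split_ifs
  · simp
  · simp

end CFTY
end

-- from Lib.CFT.Y04
section

/-! # CFT module Y, chunk Y04: infinity types -/

open NumberField

namespace CFTY

variable {K : Type} [Field K] [NumberField K]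

theorem y04_sgn {a b : ℂ} {δ : ℝ} (ha : a ≠ 0) (hb : b ≠ 0) (h : ‖b - a‖ ≤ δ * ‖a‖) :
    ‖b / (‖b‖ : ℂ) - a / (‖a‖ : ℂ)‖ ≤ 2 * δ := by
  have ha' : (0 : ℝ) < ‖a‖ := norm_pos_iff.2 ha
  have hb' : (0 : ℝ) < ‖b‖ := norm_pos_iff.2 hb
  have hac : ((‖a‖ : ℝ) : ℂ) ≠ 0 := by exact_mod_cast ha'.ne'
  have hbc : ((‖b‖ : ℝ) : ℂ) ≠ 0 := by exact_mod_cast hb'.ne'
  have e : b / (‖b‖ : ℂ) - a / (‖a‖ : ℂ) =
      (b - a) / (‖a‖ : ℂ) + b * ((((‖a‖ - ‖b‖) : ℝ) : ℂ) / ((‖a‖ : ℂ) * (‖b‖ : ℂ))) := by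
    push_cast
    field_simp
    ring
  rw [e]
  have h1 : ‖(b - a) / (‖a‖ : ℂ)‖ ≤ δ := by
    rw [norm_div, Complex.norm_real, Real.norm_of_nonneg ha'.le, div_le_iff₀ ha']
    exact h
  have h2 : ‖b * ((((‖a‖ - ‖b‖) : ℝ) : ℂ) / ((‖a‖ : ℂ) * (‖b‖ : ℂ)))‖ ≤ δ := by
    rw [norm_mul, norm_div, norm_mul, Complex.norm_real, Complex.norm_real, Complex.norm_real,
      Real.norm_of_nonneg ha'.le, Real.norm_of_nonneg hb'.le, Real.norm_eq_abs]
    have h3 : |‖a‖ - ‖b‖| ≤ ‖b - a‖ := by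
      rw [norm_sub_rev]
      exact abs_norm_sub_norm_le a b
    have h4 : ‖b‖ * (|‖a‖ - ‖b‖| / (‖a‖ * ‖b‖)) = |‖a‖ - ‖b‖| / ‖a‖ := by
      field_simp
    rw [h4, div_le_iff₀ ha']
    exact h3.trans h
  calc _ ≤ ‖(b - a) / (‖a‖ : ℂ)‖ +
        ‖b * ((((‖a‖ - ‖b‖) : ℝ) : ℂ) / ((‖a‖ : ℂ) * (‖b‖ : ℂ)))‖ := norm_add_le _ _
    _ ≤ 2 * δ := by linarith

/-- PROOF. `σ y / |σ y| - σ x / |σ x| = (σ y - σ x) / |σ x| + σ y (1 / |σ y| - 1 / |σ x|)`, each term has norm `≤ δ`. -/
theorem LL_sgn (σ : K →+* ℂ) : LL (K := K) fun x => σ x / (‖σ x‖ : ℂ) := by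
  refine ⟨2, by norm_num, ?_⟩
  intro δ x y _ h05 hx hxy
  exact y04_sgn ((map_ne_zero σ).2 hx) ((map_ne_zero σ).2 (cl_ne h05 hx hxy)) (hxy σ)

theorem y04_norm {a : ℂ} (ha : a ≠ 0) : ‖a / (‖a‖ : ℂ)‖ = 1 := by
  have ha' : (0 : ℝ) < ‖a‖ := norm_pos_iff.2 ha
  rw [norm_div, Complex.norm_real, Real.norm_of_nonneg ha'.le, div_self ha'.ne']

/-- The complex conjugate of the previous function, for `x ≠ 0`; or as before. -/
theorem LL_sgn_inv (σ : K →+* ℂ) : LL (K := K) fun x => (σ x / (‖σ x‖ : ℂ))⁻¹ := by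
  refine ⟨2, by norm_num, ?_⟩
  intro δ x y _ h05 hx hxy
  have ha : σ x ≠ 0 := (map_ne_zero σ).2 hx
  have hb : σ y ≠ 0 := (map_ne_zero σ).2 (cl_ne h05 hx hxy)
  have h := y04_sgn ha hb (hxy σ)
  have hu := y04_norm ha
  have hv := y04_norm hb
  set u : ℂ := σ x / (‖σ x‖ : ℂ) with hud
  set v : ℂ := σ y / (‖σ y‖ : ℂ) with hvd
  have hu0 : u ≠ 0 := by
    intro h0
    rw [h0, norm_zero] at hu
    exact zero_ne_one hu
  have hv0 : v ≠ 0 := by
    intro h0
    rw [h0, norm_zero] at hv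
    exact zero_ne_one hv
  have e : v⁻¹ - u⁻¹ = (u - v) / (v * u) := by
    field_simp
  show ‖v⁻¹ - u⁻¹‖ ≤ 2 * δ
  rw [e, norm_div, norm_mul, hu, hv, mul_one, div_one, norm_sub_rev]
  exact h

theorem y04_bd (σ : K →+* ℂ) (x : K) : ‖σ x / (‖σ x‖ : ℂ)‖ ≤ 1 := by
  rcases eq_or_ne (σ x) 0 with h | h
  · rw [h]
    simp
  · exact (y04_norm h).le

theorem y04_bd_inv (σ : K →+* ℂ) (x : K) : ‖(σ x / (‖σ x‖ : ℂ))⁻¹‖ ≤ 1 := by
  rcases eq_or_ne (σ x) 0 with h | h
  · rw [h]
    simp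
  · rw [norm_inv, y04_norm h, inv_one]

theorem y04_pow {F : K → ℂ} (hF : LL F) (bF : Bd F) (k : ℕ) :
    (LL fun x => F x ^ k) ∧ (Bd fun x => F x ^ k) := by
  induction k with
  | zero =>
    simp only [pow_zero]
    exact ⟨LL_const 1, ⟨1, zero_le_one, fun x => by simp⟩⟩
  | succ k ih =>
    simp only [pow_succ]
    exact ⟨LL.mul ih.1 hF ih.2 bF, Bd.mul ih.2 bF⟩

theorem y04_zpow (σ : K →+* ℂ) (k : ℤ) :
    (LL fun x => (σ x / (‖σ x‖ : ℂ)) ^ k) ∧ (Bd fun x => (σ x / (‖σ x‖ : ℂ)) ^ k) := by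
  obtain ⟨m, rfl | rfl⟩ := k.eq_nat_or_neg
  · simp only [zpow_natCast]
    exact y04_pow (LL_sgn σ) ⟨1, zero_le_one, y04_bd σ⟩ m
  · simp only [zpow_neg, zpow_natCast, ← inv_pow]
    exact y04_pow (LL_sgn_inv σ) ⟨1, zero_le_one, y04_bd_inv σ⟩ m

open Classical in
theorem y04_prod (n : (K →+* ℂ) → ℤ) (s : Finset (K →+* ℂ)) :
    (LL fun x => ∏ σ ∈ s, (σ x / (‖σ x‖ : ℂ)) ^ n σ) ∧
      (Bd fun x => ∏ σ ∈ s, (σ x / (‖σ x‖ : ℂ)) ^ n σ) := by
  induction s using Finset.induction_on with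
  | empty =>
    simp only [Finset.prod_empty]
    exact ⟨LL_const 1, ⟨1, zero_le_one, fun x => by simp⟩⟩
  | insert σ s hs ih =>
    simp only [Finset.prod_insert hs]
    have h := y04_zpow σ (n σ)
    exact ⟨LL.mul h.1 ih.1 h.2 ih.2, Bd.mul h.2 ih.2⟩

/-- PROOF. Products and powers of the two functions above (`LL.mul`, all bounded by 1), induction. -/
theorem LL_typ (n : (K →+* ℂ) → ℤ) : LL (typ n) :=
  (y04_prod n Finset.univ).1

/-- norm at most 1 (the factors have norm 1 or 0 or are 1) -/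
theorem Bd_typ (n : (K →+* ℂ) → ℤ) : Bd (typ n) :=
  (y04_prod n Finset.univ).2

/-- the type of a positive integer is 1 -/
theorem typ_nat (n : (K →+* ℂ) → ℤ) (k : ℕ) (hk : 1 ≤ k) : typ n (k : K) = 1 := by
  unfold typ
  refine Finset.prod_eq_one (fun σ _ => ?_)
  have hk' : (k : ℂ) ≠ 0 := by
    have : k ≠ 0 := by omega
    exact_mod_cast this
  rw [map_natCast, Complex.norm_natCast, Complex.ofReal_natCast, div_self hk', one_zpow]

end CFTY
end

-- from Lib.H69H.V1a
section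

set_option autoImplicit false
set_option linter.unusedSectionVars false

/-! The lattice `Mk S k` (coordinates in the normal basis divisible by `π^k` at the primes of `S`). -/

namespace Pool.Agent.H69H

open NumberField IsDedekindDomain CFT WithZero

variable {K : Type} [Field K] [NumberField K] {L : Type} [Field L] [NumberField L] [Algebra K L]
variable [IsGalois K L]

/-- Coordinates in the normal basis. -/
noncomputable def co (g : L ≃ₐ[K] L) : L →ₗ[K] K :=
  (Finsupp.lapply g).comp (IsGalois.normalBasis K L).repr.toLinearMap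

theorem co_def (g : L ≃ₐ[K] L) (x : L) : co g x = (IsGalois.normalBasis K L).repr x g := rfl

theorem sum_co (x : L) : ∑ g : L ≃ₐ[K] L, co g x • IsGalois.normalBasis K L g = x :=
  (IsGalois.normalBasis K L).sum_repr x

open Classical in
theorem co_basis (g h : L ≃ₐ[K] L) : co g (IsGalois.normalBasis K L h) = if h = g then 1 else 0 := by
  rw [co_def, Module.Basis.repr_self, Finsupp.single_apply]

theorem co_gal (σ g : L ≃ₐ[K] L) (x : L) : co g (σ x) = co (σ⁻¹ * g) x := by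
  classical
  have h : (co g).comp (σ : L →ₐ[K] L).toLinearMap = co (σ⁻¹ * g) := by
    refine (IsGalois.normalBasis K L).ext fun h => ?_
    have e : (σ : L →ₐ[K] L).toLinearMap (IsGalois.normalBasis K L h) = IsGalois.normalBasis K L (σ * h) := by
      rw [IsGalois.normalBasis_apply h, IsGalois.normalBasis_apply (σ * h)]
      rfl
    rw [LinearMap.comp_apply, e, co_basis, co_basis]
    simp only [eq_inv_mul_iff_mul_eq]
  exact DFunLike.congr_fun h x

/-- The lattice. -/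
noncomputable def Mk (L : Type) [Field L] [NumberField L] [Algebra K L] [IsGalois K L] (S : Finset (Pr K)) (k : ℤ) :
    AddSubgroup L where
  carrier := {x | ∀ v ∈ S, ∀ g : L ≃ₐ[K] L, v.valuation K (co g x) ≤ exp (-k)}
  zero_mem' := fun v _ g => by rw [map_zero, map_zero]; exact zero_le
  add_mem' := fun {x y} hx hy v hv g => by
    rw [map_add]
    exact Valuation.map_add_le _ (hx v hv g) (hy v hv g)
  neg_mem' := fun {x} hx v hv g => by
    rw [map_neg, Valuation.map_neg]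
    exact hx v hv g

variable {S : Finset (Pr K)}


theorem Mk_mono {k k' : ℤ} (h : k ≤ k') : Mk L S k' ≤ Mk L S k := fun x hx v hv g =>
  (hx v hv g).trans (exp_le_exp.2 (by omega))

theorem exists_bound {ι : Type*} (s : Finset ι) (f : ι → ℤᵐ⁰) : ∃ j : ℤ, 0 ≤ j ∧ ∀ i ∈ s, f i ≤ exp j := by
  classical
  refine ⟨∑ i ∈ s, |log (f i)|, Finset.sum_nonneg fun i _ => abs_nonneg _, fun i hi => ?_⟩
  by_cases h : f i = 0
  · rw [h]
    exact zero_le
  · rw [← log_le_iff_le_exp h]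
    exact (le_abs_self _).trans (Finset.single_le_sum (f := fun i => |log (f i)|) (fun i _ => abs_nonneg _) hi)

theorem exists_mem_Mk (x : L) : ∃ d : ℤ, 0 ≤ d ∧ x ∈ Mk L S (-d) := by
  obtain ⟨j, hj0, hj⟩ := exists_bound (S ×ˢ (Finset.univ : Finset (L ≃ₐ[K] L))) fun p => p.1.valuation K (co p.2 x)
  refine ⟨j, hj0, fun v hv g => ?_⟩
  rw [neg_neg]
  exact hj (v, g) (Finset.mem_product.2 ⟨hv, Finset.mem_univ _⟩)

theorem smul_mem_Mk {c : K} {i k : ℤ} (hc : ∀ v ∈ S, v.valuation K c ≤ exp (-i)) {x : L} (hx : x ∈ Mk L S k) :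
    c • x ∈ Mk L S (i + k) := fun v hv g => by
  rw [map_smul, smul_eq_mul, map_mul, neg_add, exp_add]
  exact mul_le_mul' (hc v hv) (hx v hv g)

theorem gal_mem_Mk (σ : L ≃ₐ[K] L) {k : ℤ} {x : L} (hx : x ∈ Mk L S k) : σ x ∈ Mk L S k := fun v hv g => by
  rw [co_gal]
  exact hx v hv _

theorem exists_mul (L : Type) [Field L] [NumberField L] [Algebra K L] [IsGalois K L] (S : Finset (Pr K)) :
    ∃ c : ℤ, 0 ≤ c ∧ ∀ i j : ℤ, ∀ x y : L, x ∈ Mk L S i → y ∈ Mk L S j → x * y ∈ Mk L S (i + j - c) := by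
  classical
  choose d hd0 hd using fun p : (L ≃ₐ[K] L) × (L ≃ₐ[K] L) =>
    exists_mem_Mk (S := S) (IsGalois.normalBasis K L p.1 * IsGalois.normalBasis K L p.2)
  refine ⟨∑ p, d p, Finset.sum_nonneg fun p _ => hd0 p, fun i j x y hx hy => ?_⟩
  rw [← sum_co (K := K) x, ← sum_co (K := K) y, Finset.sum_mul_sum]
  refine sum_mem fun g _ => sum_mem fun h _ => ?_
  rw [smul_mul_smul_comm]
  have h1 : IsGalois.normalBasis K L g * IsGalois.normalBasis K L h ∈ Mk L S (-∑ p, d p) :=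
    Mk_mono (neg_le_neg (Finset.single_le_sum (f := d) (fun p _ => hd0 p) (Finset.mem_univ (g, h)))) (hd (g, h))
  have h2 : ∀ v ∈ S, v.valuation K (co g x * co h y) ≤ exp (-(i + j)) := fun v hv => by
    rw [map_mul, neg_add, exp_add]
    exact mul_le_mul' (hx v hv g) (hy v hv h)
  have := smul_mem_Mk h2 h1
  rwa [← sub_eq_add_neg] at this

end Pool.Agent.H69H
end

-- from Lib.H69H.V1b
section

set_option autoImplicit false
set_option linter.unusedSectionVars false

/-! The group `Vk`, and relation of the lattices with the valuations of `L`. -/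

namespace Pool.Agent.H69H

open NumberField IsDedekindDomain CFT WithZero

variable {K : Type} [Field K] [NumberField K] {L : Type} [Field L] [NumberField L] [Algebra K L]
variable [IsGalois K L] {S : Finset (Pr K)}

/-- Constants: `c` for products, `d` for `1`. -/
structure Cst (L : Type) [Field L] [NumberField L] [Algebra K L] [IsGalois K L] (S : Finset (Pr K)) (c d : ℤ) : Prop where
  c0 : 0 ≤ c
  d0 : 0 ≤ d
  mul : ∀ i j : ℤ, ∀ x y : L, x ∈ Mk L S i → y ∈ Mk L S j → x * y ∈ Mk L S (i + j - c)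
  one : (1 : L) ∈ Mk L S (-d)

theorem exists_cst (L : Type) [Field L] [NumberField L] [Algebra K L] [IsGalois K L] (S : Finset (Pr K)) :
    ∃ c d : ℤ, Cst L S c d := by
  obtain ⟨c, hc0, hc⟩ := exists_mul L S
  obtain ⟨d, hd0, hd⟩ := exists_mem_Mk (S := S) (1 : L)
  exact ⟨c, d, hc0, hd0, hc, hd⟩

variable {c d k : ℤ}

theorem Cst.inv_aux (h : Cst L S c d) (hk : c + 1 ≤ k) {y : Lˣ} (hy : (y : L) - 1 ∈ Mk L S k) :
    ∀ m : ℕ, ((y⁻¹ : Lˣ) : L) ∈ Mk L S (-d - m) → ((y⁻¹ : Lˣ) : L) ∈ Mk L S (-d) := by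
  intro m
  induction m with
  | zero =>
    intro h1
    rwa [Nat.cast_zero, sub_zero] at h1
  | succ m ih =>
    intro h1
    refine ih ?_
    have e : ((y⁻¹ : Lˣ) : L) = 1 - ((y : L) - 1) * ((y⁻¹ : Lˣ) : L) := by
      have := y.mul_inv
      linear_combination this
    rw [e]
    refine sub_mem (Mk_mono (by omega) h.one) ?_
    refine Mk_mono ?_ (h.mul _ _ _ _ hy h1)
    push_cast
    omega

theorem Cst.inv (h : Cst L S c d) (hk : 2 * c + d + 1 ≤ k) {y : Lˣ} (hy : (y : L) - 1 ∈ Mk L S k) :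
    ((y⁻¹ : Lˣ) : L) - 1 ∈ Mk L S k := by
  have hc0 := h.c0
  have hd0 := h.d0
  obtain ⟨j, hj0, hj⟩ := exists_mem_Mk (S := S) ((y⁻¹ : Lˣ) : L)
  have h1 : ((y⁻¹ : Lˣ) : L) ∈ Mk L S (-d) := by
    refine h.inv_aux (by omega) hy j.toNat (Mk_mono ?_ hj)
    have := Int.toNat_of_nonneg hj0
    omega
  have h2 := h.mul _ _ _ _ hy h1
  have e1 : ((y⁻¹ : Lˣ) : L) - 1 = -(((y : L) - 1) * ((y⁻¹ : Lˣ) : L)) := by
    have := y.mul_inv
    linear_combination this
  have h3 : ((y⁻¹ : Lˣ) : L) - 1 ∈ Mk L S (k + -d - c) := by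
    rw [e1]
    exact neg_mem h2
  have h4 := h.mul _ _ _ _ hy h3
  have e2 : ((y⁻¹ : Lˣ) : L) - 1 = -((y : L) - 1) - ((y : L) - 1) * (((y⁻¹ : Lˣ) : L) - 1) := by
    have := y.mul_inv
    linear_combination this
  rw [e2]
  exact sub_mem (neg_mem hy) (Mk_mono (by omega) h4)

/-- The group `V_k`. -/
def Vk (h : Cst L S c d) (hk : 2 * c + d + 1 ≤ k) : Subgroup Lˣ where
  carrier := {y | (y : L) - 1 ∈ Mk L S k}
  one_mem' := by
    show ((1 : Lˣ) : L) - 1 ∈ Mk L S k
    rw [Units.val_one, sub_self]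
    exact zero_mem _
  mul_mem' := fun {x y} hx hy => by
    have hc0 := h.c0
    have hd0 := h.d0
    show ((x * y : Lˣ) : L) - 1 ∈ Mk L S k
    have e : ((x * y : Lˣ) : L) - 1 = ((x : L) - 1) * ((y : L) - 1) + ((x : L) - 1) + ((y : L) - 1) := by
      rw [Units.val_mul]
      ring
    rw [e]
    exact add_mem (add_mem (Mk_mono (by omega) (h.mul _ _ _ _ hx hy)) hx) hy
  inv_mem' := fun {x} hx => h.inv hk hx

theorem mem_Vk (h : Cst L S c d) (hk : 2 * c + d + 1 ≤ k) (y : Lˣ) : y ∈ Vk h hk ↔ (y : L) - 1 ∈ Mk L S k := Iff.rfl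

theorem Vk_stable (h : Cst L S c d) (hk : 2 * c + d + 1 ≤ k) (σ : L ≃ₐ[K] L) {y : Lˣ} (hy : y ∈ Vk h hk) :
    sU σ y ∈ Vk h hk := by
  have := gal_mem_Mk σ hy
  rwa [map_sub, map_one] at this

/-! Valuations. -/

theorem val_algebraMap_le (w : Pr L) {x : K} {i : ℤ} (hi : 0 ≤ i) (hx : (below K w).valuation K x ≤ exp (-i)) :
    w.valuation L (algebraMap K L x) ≤ exp (-i) := by
  by_cases h0 : x = 0
  · rw [h0, map_zero, map_zero]
    exact zero_le
  rw [val_eq _ h0, exp_le_exp] at hx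
  rw [val_eq _ ((map_ne_zero (algebraMap K L)).2 h0), exp_le_exp, od_algebraMap]
  have h1 : (1 : ℤ) ≤ w.asIdeal.ramificationIdx (𝓞 K) := by
    exact_mod_cast CFT.e_pos w
  have h2 : i ≤ od (below K w) x := by omega
  have h3 : i ≤ (w.asIdeal.ramificationIdx (𝓞 K) : ℤ) * od (below K w) x := by nlinarith
  omega

theorem val_gal (w : Pr L) (τ : L ≃ₐ[K] L) (x : L) : w.valuation L (τ x) = (gp τ⁻¹ w).valuation L x := by
  by_cases h0 : x = 0
  · rw [h0, map_zero, map_zero, map_zero]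
  have h1 := od_gp τ (gp τ⁻¹ w) x
  rw [gp_gp_inv] at h1
  rw [val_eq _ h0, val_eq _ ((map_ne_zero τ).2 h0), h1]

/-- The finite set of primes above `S`. -/
noncomputable def upS (L : Type) [Field L] [NumberField L] [Algebra K L] (S : Finset (Pr K)) : Finset (Pr L) :=
  ((S.finite_toSet).biUnion fun v _ => fib_fin (L := L) K v).toFinset

theorem mem_upS (w : Pr L) : w ∈ upS L S ↔ below K w ∈ S := by
  unfold upS
  rw [Set.Finite.mem_toFinset, Set.mem_iUnion₂]
  constructor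
  · rintro ⟨v, hv, h⟩
    have : below K w = v := h
    rw [this]
    exact hv
  · intro h
    exact ⟨_, h, rfl⟩

theorem Mk_val_le (L : Type) [Field L] [NumberField L] [Algebra K L] [IsGalois K L] (S : Finset (Pr K)) :
    ∃ c2 : ℤ, 0 ≤ c2 ∧ ∀ k : ℤ, 0 ≤ k → ∀ x ∈ Mk L S k, ∀ w : Pr L, below K w ∈ S → w.valuation L x ≤ exp (-k + c2) := by
  obtain ⟨j, hj0, hj⟩ := exists_bound (upS L S ×ˢ (Finset.univ : Finset (L ≃ₐ[K] L))) fun p =>
    p.1.valuation L (IsGalois.normalBasis K L p.2)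
  refine ⟨j, hj0, fun k hk x hx w hw => ?_⟩
  rw [← sum_co (K := K) x]
  refine Valuation.map_sum_le _ fun g _ => ?_
  rw [Algebra.smul_def, map_mul, exp_add]
  exact mul_le_mul' (val_algebraMap_le w hk (hx _ hw g)) (hj (w, g) (Finset.mem_product.2 ⟨(mem_upS w).2 hw, Finset.mem_univ _⟩))

open Classical in
/-- Coordinates by the trace. -/
theorem co_trace (x : L) (g : L ≃ₐ[K] L) :
    co g x = Algebra.trace K L (x * (IsGalois.normalBasis K L).traceDual g) := by
  have h := (IsGalois.normalBasis K L).traceDual.traceDual_repr_apply x g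
  rw [Module.Basis.traceDual_traceDual] at h
  exact h

theorem Mk_of_val (L : Type) [Field L] [NumberField L] [Algebra K L] [IsGalois K L] (S : Finset (Pr K)) (k : ℤ) :
    ∃ N : ℕ, ∀ x : L, (∀ w : Pr L, below K w ∈ S → w.valuation L x < exp (-(N : ℤ))) → x ∈ Mk L S k := by
  classical
  obtain ⟨j, hj0, hj⟩ := exists_bound (upS L S ×ˢ (Finset.univ : Finset (L ≃ₐ[K] L))) fun p =>
    p.1.valuation L ((IsGalois.normalBasis K L).traceDual p.2)
  obtain ⟨e, he⟩ : ∃ e : ℕ, ∀ w ∈ upS L S, w.asIdeal.ramificationIdx (𝓞 K) ≤ e :=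
    ⟨∑ w ∈ upS L S, w.asIdeal.ramificationIdx (𝓞 K), fun w hw =>
      Finset.single_le_sum (f := fun w : Pr L => w.asIdeal.ramificationIdx (𝓞 K)) (fun _ _ => Nat.zero_le _) hw⟩
  refine ⟨(j + e * |k|).toNat, fun x hx v hv g => ?_⟩
  have hN : ((j + e * |k|).toNat : ℤ) = j + e * |k| := Int.toNat_of_nonneg (by positivity)
  rw [co_trace]
  set z := x * (IsGalois.normalBasis K L).traceDual g with hz
  obtain ⟨w, hw⟩ := below_surj L v
  have hwS : w ∈ upS L S := (mem_upS w).2 (by rw [hw]; exact hv)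
  by_cases h0 : Algebra.trace K L z = 0
  · rw [h0, map_zero]
    exact zero_le
  have h1 : w.valuation L (algebraMap K L (Algebra.trace K L z)) ≤ exp (-((e : ℤ) * |k|)) := by
    rw [trace_eq_sum_automorphisms]
    refine Valuation.map_sum_le _ fun τ _ => ?_
    rw [val_gal, hz, map_mul]
    have hb : below K (gp τ⁻¹ w) ∈ S := by
      rw [below_gp, hw]
      exact hv
    have a1 := (hx _ hb).le
    have a2 := hj (gp τ⁻¹ w, g) (Finset.mem_product.2 ⟨(mem_upS _).2 hb, Finset.mem_univ _⟩)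
    refine (mul_le_mul' a1 a2).trans ?_
    rw [← exp_add, exp_le_exp, hN]
    omega
  rw [val_eq _ ((map_ne_zero (algebraMap K L)).2 h0), exp_le_exp, od_algebraMap, hw] at h1
  rw [val_eq _ h0, exp_le_exp]
  have h2 : (1 : ℤ) ≤ w.asIdeal.ramificationIdx (𝓞 K) := by
    exact_mod_cast CFT.e_pos w
  have h3 : (w.asIdeal.ramificationIdx (𝓞 K) : ℤ) ≤ e := by exact_mod_cast he w hwS
  have h4 : (e : ℤ) * |k| ≤ (w.asIdeal.ramificationIdx (𝓞 K) : ℤ) * od v (Algebra.trace K L z) := by omega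
  have h5 : |k| ≤ od v (Algebra.trace K L z) := by
    by_contra hlt
    rw [not_le] at hlt
    have h6 : (w.asIdeal.ramificationIdx (𝓞 K) : ℤ) * od v (Algebra.trace K L z) <
        (w.asIdeal.ramificationIdx (𝓞 K) : ℤ) * |k| := by nlinarith
    have h7 : (w.asIdeal.ramificationIdx (𝓞 K) : ℤ) * |k| ≤ e * |k| := mul_le_mul_of_nonneg_right h3 (abs_nonneg _)
    omega
  have := le_abs_self k
  omega

end Pool.Agent.H69H
end

-- from Lib.H69H.V1
section

set_option autoImplicit false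
set_option linter.unusedSectionVars false

/-! Existence of the group `V`. -/

namespace Pool.Agent.H69H

open NumberField IsDedekindDomain CFT WithZero

variable {K : Type} [Field K] [NumberField K] {L : Type} [Field L] [NumberField L] [Algebra K L]

theorem sU_mul (g h : L ≃ₐ[K] L) (x : Lˣ) : sU (g * h) x = sU g (sU h x) := by
  ext
  rfl

theorem sU_one (x : Lˣ) : sU (1 : L ≃ₐ[K] L) x = x := by
  ext
  rfl

variable [IsGalois K L] {S : Finset (Pr K)} {c d k : ℤ}

/-- The set of the `g` with `g y ∈ y V`. -/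
def trH {V : Subgroup Lˣ} (hV : ∀ (g : L ≃ₐ[K] L), ∀ x ∈ V, sU g x ∈ V) (y : Lˣ) : Subgroup (L ≃ₐ[K] L) where
  carrier := {g | ∃ u ∈ V, sU g y = y * u}
  one_mem' := ⟨1, one_mem _, by rw [sU_one, mul_one]⟩
  mul_mem' := by
    rintro g h ⟨u, hu, h1⟩ ⟨u', hu', h2⟩
    exact ⟨u * sU g u', mul_mem hu (hV g _ hu'), by rw [sU_mul, h2, map_mul, h1, mul_assoc]⟩
  inv_mem' := by
    rintro g ⟨u, hu, h1⟩
    refine ⟨(sU g⁻¹ u)⁻¹, inv_mem (hV _ _ hu), ?_⟩
    have h2 := congrArg (sU g⁻¹) h1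
    rw [← sU_mul, inv_mul_cancel, sU_one, map_mul] at h2
    rw [eq_mul_inv_iff_mul_eq]
    exact h2.symm

/-- The set of the `h` such that the coordinates `h g` and `g` of `μ` are near for all `g`. -/
def coH (S : Finset (Pr K)) (k : ℤ) (μ : L) : Subgroup (L ≃ₐ[K] L) where
  carrier := {h | ∀ v ∈ S, ∀ g, v.valuation K (co (h * g) μ - co g μ) ≤ exp (-k)}
  one_mem' := fun v _ g => by
    rw [one_mul, sub_self, map_zero]
    exact zero_le
  mul_mem' := fun {h h'} h1 h2 v hv g => by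
    have e : co (h * h' * g) μ - co g μ = (co (h * (h' * g)) μ - co (h' * g) μ) + (co (h' * g) μ - co g μ) := by
      rw [mul_assoc]
      ring
    rw [e]
    exact Valuation.map_add_le _ (h1 v hv _) (h2 v hv _)
  inv_mem' := fun {h} h1 v hv g => by
    have e : co (h⁻¹ * g) μ - co g μ = -(co (h * (h⁻¹ * g)) μ - co (h⁻¹ * g) μ) := by
      rw [mul_inv_cancel_left]
      ring
    rw [e, Valuation.map_neg]
    exact h1 v hv _

theorem exists_V_aux (σ : L ≃ₐ[K] L) (hσ : ∀ x, x ∈ Subgroup.zpowers σ) (hS : S.Nonempty) :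
    ∃ V : Subgroup Lˣ, IsV σ S V := by
  classical
  obtain ⟨c, d, h⟩ := exists_cst L S
  obtain ⟨c2, hc2, hval⟩ := Mk_val_le L S
  obtain ⟨b, hb0, hb⟩ := exists_bound S fun v => v.valuation K ((Module.finrank K L : K)⁻¹)
  obtain ⟨t, ht0, ht⟩ := exists_bound S fun v => v.valuation K (Algebra.trace K L (IsGalois.normalBasis K L 1))
  have hc0 := h.c0
  have hd0 := h.d0
  obtain ⟨k, hkdef⟩ : ∃ k : ℤ, k = 2 * c + d + c2 + b + t + 1 := ⟨_, rfl⟩
  have hk : 2 * c + d + 1 ≤ k := by omega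
  have hk' : 2 * c + d + 1 ≤ k - b := by omega
  obtain ⟨v0, hv0⟩ := hS
  obtain ⟨w0, hw0⟩ := below_surj L v0
  have hlt : ∀ x ∈ Mk L S (k - b), ∀ w : Pr L, below K w ∈ S → w.valuation L x < 1 := by
    intro x hx w hw
    refine (hval _ (by omega) x hx w hw).trans_lt ?_
    rw [← exp_zero, exp_lt_exp]
    omega
  have hlek : Mk L S k ≤ Mk L S (k - b) := Mk_mono (by omega)
  refine ⟨Vk h hk, fun x hx => Vk_stable h hk σ hx, ?_, ?_, ?_⟩
  · intro x hx w hw
    have h1 := hlt _ (hlek hx) w hw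
    have h2 : w.valuation L (x : L) = 1 := by
      have e : (x : L) = 1 + ((x : L) - 1) := by ring
      rw [e]
      exact Valuation.map_one_add_of_lt _ h1
    unfold od
    rw [h2, log_one, neg_zero]
  · intro y hy
    -- step A
    have hA : ∀ g : L ≃ₐ[K] L, ∃ u ∈ Vk h hk, sU g y = y * u := by
      have h1 : σ ∈ trH (V := Vk h hk) (fun g x hx => Vk_stable h hk g hx) y :=
        ⟨dif (sU σ) y, hy, by rw [dif_apply, mul_div_cancel]⟩
      intro g
      exact (Subgroup.zpowers_le.2 h1) (hσ g)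
    choose u hu huy using hA
    have hn0 : (Module.finrank K L : K) ≠ 0 := by
      exact_mod_cast (Module.finrank_pos (R := K) (M := L)).ne'
    -- step B
    obtain ⟨ν, hν⟩ : ∃ ν : L, ν = (Module.finrank K L : K)⁻¹ • ∑ g : L ≃ₐ[K] L, ((u g : L) - 1) := ⟨_, rfl⟩
    have hνk : ν ∈ Mk L S (k - b) := by
      rw [hν]
      have h1 : ∑ g : L ≃ₐ[K] L, ((u g : L) - 1) ∈ Mk L S k := sum_mem fun g _ => hu g
      have h2 := smul_mem_Mk (i := -b) (c := (Module.finrank K L : K)⁻¹) (fun v hv => by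
        rw [neg_neg]
        exact hb v hv) h1
      have e : -b + k = k - b := by ring
      rwa [e] at h2
    have hcard : (Finset.univ : Finset (L ≃ₐ[K] L)).card = Module.finrank K L := by
      rw [Finset.card_univ, Fintype.card_eq_nat_card, IsGalois.card_aut_eq_finrank]
    have hB : algebraMap K L ((Module.finrank K L : K)⁻¹ * Algebra.trace K L (y : L)) = (y : L) * (1 + ν) := by
      have e1 : ∑ g : L ≃ₐ[K] L, g (y : L) = (y : L) * ((Module.finrank K L : L) + ∑ g : L ≃ₐ[K] L, ((u g : L) - 1)) := by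
        rw [Finset.sum_sub_distrib, Finset.sum_const, hcard, nsmul_eq_mul, mul_one, add_sub_cancel, Finset.mul_sum]
        refine Finset.sum_congr rfl fun g _ => ?_
        have := congrArg (fun z : Lˣ => (z : L)) (huy g)
        exact this
      rw [map_mul, trace_eq_sum_automorphisms, e1, hν, Algebra.smul_def]
      have e2 : algebraMap K L (Module.finrank K L : K)⁻¹ * (Module.finrank K L : L) = 1 := by
        have : (Module.finrank K L : L) = algebraMap K L (Module.finrank K L : K) := by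
          rw [map_natCast]
        rw [this, ← map_mul, inv_mul_cancel₀ hn0, map_one]
      linear_combination (y : L) * e2
    have hν1 : (1 : L) + ν ≠ 0 := by
      intro h0
      have h1 := hlt ν hνk w0 (by rw [hw0]; exact hv0)
      have h2 : ν = -1 := by linear_combination h0
      rw [h2, Valuation.map_neg, map_one] at h1
      exact lt_irrefl _ h1
    have hα : (Module.finrank K L : K)⁻¹ * Algebra.trace K L (y : L) ≠ 0 := by
      intro h0
      rw [h0, map_zero] at hB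
      exact mul_ne_zero y.ne_zero hν1 hB.symm
    obtain ⟨α, hαdef⟩ : ∃ α : Kˣ, (α : K) = (Module.finrank K L : K)⁻¹ * Algebra.trace K L (y : L) := ⟨Units.mk0 _ hα, rfl⟩
    rw [← hαdef] at hB
    obtain ⟨y', hy'⟩ : ∃ y' : Lˣ, y' = y * (kU K L α)⁻¹ := ⟨_, rfl⟩
    have hy'V : y' ∈ Vk h hk' := by
      rw [← inv_mem_iff]
      rw [mem_Vk]
      have : ((y'⁻¹ : Lˣ) : L) = 1 + ν := by
        rw [hy', mul_inv_rev, inv_inv, Units.val_mul, kU_coe, hB, mul_comm (y : L), mul_assoc, Units.mul_inv, mul_one]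
      rw [this, add_sub_cancel_left]
      exact hνk
    obtain ⟨μ, hμ⟩ : ∃ μ : L, μ = (y' : L) - 1 := ⟨_, rfl⟩
    have hμk : μ ∈ Mk L S (k - b) := by
      rw [hμ]
      exact hy'V
    -- step C
    have hC : σ μ - μ ∈ Mk L S k := by
      have e1 : sU σ y' = dif (sU σ) y * y' := by
        rw [hy', map_mul, map_inv]
        have : sU σ (kU K L α) = kU K L α := by
          ext
          rw [sU_coe, kU_coe, AlgEquiv.commutes]
        rw [this, dif_apply, ← mul_assoc, div_mul_cancel]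
      have e2 : σ (y' : L) = ((dif (sU σ) y : Lˣ) : L) * (y' : L) := by
        have := congrArg (fun z : Lˣ => (z : L)) e1
        exact this
      have e3 : σ μ - μ = (((dif (sU σ) y : Lˣ) : L) - 1) + (((dif (sU σ) y : Lˣ) : L) - 1) * μ := by
        rw [hμ, map_sub, map_one, e2]
        ring
      rw [e3]
      refine add_mem hy (Mk_mono ?_ (h.mul _ _ _ _ hy hμk))
      omega
    -- step D
    have hD : ∀ g, ∀ v ∈ S, v.valuation K (co g μ - co 1 μ) ≤ exp (-k) := by
      have h1 : σ⁻¹ ∈ coH S k μ := fun v hv g => by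
        have := hC v hv g
        rwa [map_sub, co_gal] at this
      have h2 : σ ∈ coH S k μ := inv_mem_iff.1 h1
      intro g v hv
      have := (Subgroup.zpowers_le.2 h2) (hσ g) v hv 1
      rwa [mul_one] at this
    -- step E
    obtain ⟨κ0, hκ0⟩ : ∃ κ0 : K, κ0 = co 1 μ * Algebra.trace K L (IsGalois.normalBasis K L 1) := ⟨_, rfl⟩
    have htr : ∑ g : L ≃ₐ[K] L, IsGalois.normalBasis K L g = algebraMap K L (Algebra.trace K L (IsGalois.normalBasis K L 1)) := by
      rw [trace_eq_sum_automorphisms]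
      exact Finset.sum_congr rfl fun g _ => IsGalois.normalBasis_apply g
    have hμ' : μ - algebraMap K L κ0 ∈ Mk L S k := by
      have e : μ - algebraMap K L κ0 = ∑ g : L ≃ₐ[K] L, (co g μ - co 1 μ) • IsGalois.normalBasis K L g := by
        rw [hκ0, map_mul, ← htr, ← Algebra.smul_def, Finset.smul_sum]
        conv_lhs => rw [← sum_co (K := K) μ]
        rw [← Finset.sum_sub_distrib]
        refine Finset.sum_congr rfl fun g _ => ?_
        rw [sub_smul, sum_co]
      intro v hv g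
      rw [e, map_sum, Finset.sum_eq_single g]
      · rw [map_smul, co_basis, if_pos rfl, smul_eq_mul, mul_one]
        exact hD g v hv
      · intro g' _ hg'
        rw [map_smul, co_basis, if_neg hg', smul_zero]
      · intro hg
        exact absurd (Finset.mem_univ g) hg
    -- step F
    have hκ1 : ∀ v ∈ S, v.valuation K (1 + κ0) = 1 := by
      intro v hv
      refine Valuation.map_one_add_of_lt _ ?_
      rw [hκ0, map_mul]
      refine (mul_le_mul' (hμk v hv 1) (ht v hv)).trans_lt ?_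
      rw [← exp_add, ← exp_zero, exp_lt_exp]
      omega
    have hκne : 1 + κ0 ≠ 0 := by
      intro h0
      have := hκ1 v0 hv0
      rw [h0, map_zero] at this
      exact zero_ne_one this
    obtain ⟨β, hβ⟩ : ∃ β : Kˣ, (β : K) = 1 + κ0 := ⟨Units.mk0 _ hκne, rfl⟩
    refine ⟨α * β, y' * (kU K L β)⁻¹, ?_, ?_⟩
    · rw [mem_Vk]
      have e : ((y' * (kU K L β)⁻¹ : Lˣ) : L) - 1 = (β : K)⁻¹ • (μ - algebraMap K L κ0) := by
        rw [Units.val_mul, Units.val_inv_eq_inv_val, kU_coe, hμ, Algebra.smul_def, map_inv₀]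
        have h1 : algebraMap K L (β : K) ≠ 0 := (map_ne_zero _).2 β.ne_zero
        field_simp
        rw [hβ, map_add, map_one]
        ring
      rw [e]
      have := smul_mem_Mk (i := 0) (c := (β : K)⁻¹) (fun v hv => by
        rw [map_inv₀, hβ, hκ1 v hv, inv_one, neg_zero, exp_zero]) hμ'
      rwa [zero_add] at this
    · rw [hy', map_mul]
      have : kU K L α * kU K L β * (y * (kU K L α)⁻¹ * (kU K L β)⁻¹) =
          y * (kU K L α * (kU K L α)⁻¹) * (kU K L β * (kU K L β)⁻¹) := by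
        simp only [mul_left_comm, mul_assoc]
      rw [this, mul_inv_cancel, mul_inv_cancel, mul_one, mul_one]
  · obtain ⟨N, hN⟩ := Mk_of_val L S k
    exact ⟨N, fun y hy => hN _ hy⟩

/-- The group `V` exists. -/
theorem exists_V (σ : L ≃ₐ[K] L) (hσ : ∀ x, x ∈ Subgroup.zpowers σ) (S : Finset (Pr K)) :
    ∃ V : Subgroup Lˣ, IsV σ S V := by
  rcases S.eq_empty_or_nonempty with rfl | hS
  · refine ⟨⊤, fun _ _ => trivial, fun _ _ w hw => ?_, fun y _ => ⟨1, y, trivial, ?_⟩, 0, fun _ _ => trivial⟩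
    · exact absurd hw (Finset.notMem_empty _)
    · rw [map_one, one_mul]
  · exact exists_V_aux σ hσ hS

end Pool.Agent.H69H
end
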