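import Mathlib
import Pool.Agent.Lib.H1M.RC.M001
import Pool.Agent.Lib.H1M.RC.M002
import Pool.Agent.Lib.H1M.RC.M003
import Pool.Agent.Lib.H1M.RC.M004
import Pool.Agent.Lib.H1M.RC.M008
import Pool.Agent.Lib.H1M.RC.M013
import Pool.Agent.Lib.H1M.RC.M014
import Pool.Agent.Lib.H1M.RC.M018
import Pool.Agent.Lib.H1M.RC.M019
import Pool.Agent.Lib.H1M.RC.M024

/-! Merged copies (to shorten the build) of Lib.CFT.B13, Lib.CFT.X18, Lib.CFT.X19, Lib.CFT.X13, Lib.CFTC.C0, Lib.CFTC.C1, Lib.CFTC.C7, Lib.CFTC.C8, Lib.CFTC.C2, Lib.CFTC.C3, Lib.CFTC.C4, Lib.CFTC.C5, Lib.CFT.Y20, Lib.CFT.Y24, Lib.CFT.Y30, Lib.CFT.Y32, Lib.H69H.E2, Lib.H69H.F1, Lib.CFT.Core1, Lib.CFT.Y30B, Lib.CHEB.C1, Lib.CHEB.C2, Lib.H57O.F0, Lib.SZ.P4. -/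

-- from Lib.CFT.B13
section

/-! # CFT module B, chunk B13: norms of rays -/

open NumberField IsDedekindDomain

namespace CFT

variable {K : Type} [Field K] [NumberField K] {L : Type} [Field L] [NumberField L] [Algebra K L]


/-- PROOF. B11 and B12 (take the N' of B11). -/
theorem ray_norm (S : Finset (Pr K)) (N : ℕ) : ∃ N' : ℕ, ∀ y : L, Ray (up L S) N' y → Ray S N (Algebra.norm K y) := by
  obtain ⟨N', hN'⟩ := norm_cong (K := K) (L := L) S N
  refine ⟨N', fun y hy => ⟨Algebra.norm_ne_zero_iff.2 hy.ne, hN' y hy.ne hy.cong, fun φ => ?_⟩⟩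
  exact norm_pos hy.ne hy.pos φ



end CFT
end

-- from Lib.CFT.X18
section

/-! # CFT X18 (S/M): divisors which are zero on T

PROOF. D = P + Nd E F C₀, P in Pray T N: P w = od w x for w not in T, Ray T N x. C = C₀.filter (fun u => below E u ∉ T). For w not in T: (Nd E F C) w = (Nd E F C₀) w (Nd_apply, B09: the sum over the primes
above w) so D w = od w x + (Nd E F C) w. For w in T: D w = 0, od w x = 0 (Ray.od_eq), (Nd E F C) w = 0 (all C u = 0 for u above w). -/

open NumberField IsDedekindDomain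

namespace CFT

theorem x_zero {E : Type} [Field E] [NumberField E] {F : Type} [Field F] [NumberField F] [Algebra E F] (T : Finset (Pr E)) (N : ℕ) (D : Dv E)
    (hD : ∀ w ∈ T, D w = 0) (h : D ∈ Pray T N ⊔ (Nd E F).range) : ∃ (x : E) (C : Dv F), Ray T N x ∧ D = dv x + Nd E F C := by
  classical
  obtain ⟨P, hP, Q, ⟨C₀, hC⟩, hPQ⟩ := AddSubgroup.mem_sup.1 h
  obtain ⟨x, hx, hx'⟩ := hP
  refine ⟨x, C₀.filter (fun u => below E u ∉ T), hx, ?_⟩
  ext w
  rw [Finsupp.add_apply, dv_apply, Nd_apply]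
  by_cases hw : w ∈ T
  · rw [hD w hw, hx.od_eq hw, zero_add]
    symm
    refine Finset.sum_eq_zero fun u hu => ?_
    rw [mem_abv] at hu
    rw [Finsupp.filter_apply_neg _ _ (by rw [hu]; exact fun h => h hw), mul_zero]
  · rw [← hPQ, Finsupp.add_apply, hx' w hw, ← hC, Nd_apply]
    congr 1
    refine Finset.sum_congr rfl fun u hu => ?_
    rw [mem_abv] at hu
    rw [Finsupp.filter_apply_pos _ _ (by rw [hu]; exact hw)]

end CFT
end

-- from Lib.CFT.X19
section

/-! # CFT X19 (S/M): going down from E to K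

PROOF. N' from ray_norm (B13) for K, E, S, N. h N' and x_zero (X18): D = dv x + Nd E F C with Ray T N' x, so Ray (up E S) N' x (Ray.mono) and Ray S N (norm x). Nd K E D = dv (norm x) + Nd K E (Nd E F C)
(Nd_dv, B07), and Nd K E (Nd E F C) = Nd K F C = Nd K L (Nd L F C) (Nd_Nd, B08, twice). dv_mem_Pray (D2). -/

open NumberField IsDedekindDomain

namespace CFT

theorem x_down {K : Type} [Field K] [NumberField K] {L : Type} [Field L] [NumberField L] [Algebra K L] {E : Type} [Field E] [NumberField E] [Algebra K E]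
    {F : Type} [Field F] [NumberField F] [Algebra K F] [Algebra L F] [Algebra E F] [IsScalarTower K L F] [IsScalarTower K E F]
    (S : Finset (Pr K)) (N : ℕ) (T : Finset (Pr E)) (hT : up E S ⊆ T) (D : Dv E) (hD : ∀ w ∈ T, D w = 0)
    (h : ∀ N' : ℕ, D ∈ Pray T N' ⊔ (Nd E F).range) : Nd K E D ∈ Pray S N ⊔ (Nd K L).range := by
  obtain ⟨N', hN'⟩ := ray_norm (K := K) (L := E) S N
  obtain ⟨x, C, hx, rfl⟩ := x_zero T N' D hD (h N')
  rw [map_add, Nd_dv hx.ne, Nd_Nd, ← Nd_Nd K L F]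
  refine AddSubgroup.add_mem_sup (dv_mem_Pray (hN' x (hx.mono hT le_rfl))) ⟨_, rfl⟩

end CFT
end

-- from Lib.CFT.X13
section

/-! # CFT X13 (M, 3 small): primes outside S and m are unramified in L(zeta_m), and the Frobenius element on zeta -/

open NumberField IsDedekindDomain

namespace CFT

/-- PROOF. If a prime number p divides Nm v and m, then p is in v: Nm v = absNorm v is a power of the prime number below v (Ideal.absNorm_eq_pow_inertiaDeg' or: the prime number p₀ in v; O_K/v is a vector space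
over ZMod p₀, so its cardinality is a power of p₀), so p = p₀ is in v and m, a multiple of p, is in v. -/
theorem x_cop {K : Type} [Field K] [NumberField K] (m : ℕ) (v : Pr K) (hm : (m : 𝓞 K) ∉ v.asIdeal) : (Nm v).Coprime m := by
  rw [Nat.coprime_iff_gcd_eq_one]
  by_contra hne
  obtain ⟨p, hp, hpd⟩ := Nat.exists_prime_and_dvd hne
  have hp1 : p ∣ Nm v := hpd.trans (Nat.gcd_dvd_left _ _)
  have hp2 : p ∣ m := hpd.trans (Nat.gcd_dvd_right _ _)
  haveI : Fact p.Prime := ⟨hp⟩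
  haveI : Finite (𝓞 K ⧸ v.asIdeal) := Ideal.finiteQuotientOfFreeOfNeBot _ v.ne_bot
  have hcard : Nat.card (𝓞 K ⧸ v.asIdeal) = Nm v := by
    unfold Nm
    rw [Ideal.absNorm_apply, Submodule.cardQuot_apply]
  obtain ⟨x, hx⟩ := exists_prime_addOrderOf_dvd_card' (G := 𝓞 K ⧸ v.asIdeal) p (by rw [hcard]; exact hp1)
  have hx0 : x ≠ 0 := by
    rintro rfl
    rw [addOrderOf_zero] at hx
    exact hp.one_lt.ne hx
  have hpx : (p : 𝓞 K ⧸ v.asIdeal) * x = 0 := by
    rw [← nsmul_eq_mul, ← hx]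
    exact addOrderOf_nsmul_eq_zero x
  haveI : IsDomain (𝓞 K ⧸ v.asIdeal) := (Ideal.Quotient.isDomain_iff_prime v.asIdeal).2 v.isPrime
  have hp0 : (p : 𝓞 K ⧸ v.asIdeal) = 0 := by
    rcases mul_eq_zero.1 hpx with h | h
    · exact h
    · exact absurd h hx0
  have hpv : (p : 𝓞 K) ∈ v.asIdeal := by
    rw [← Ideal.Quotient.eq_zero_iff_mem, map_natCast]
    exact hp0
  obtain ⟨c, rfl⟩ := hp2
  apply hm
  rw [Nat.cast_mul]
  exact v.asIdeal.mul_mem_right _ hpv


section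

variable {K : Type} [Field K] [NumberField K] {L : Type} [Field L] [NumberField L] [Algebra K L]
  {M : Type} [Field M] [NumberField M] [Algebra K M] [Algebra L M] [IsScalarTower K L M] {m : ℕ} [NeZero m] [IsCyclotomicExtension {m} L M]

/-- PROOF. unr_of_tower (B08, with E = L) and unr_cyc (B22) for M/L; m_mem_below (X00). -/
theorem x_unr {v : Pr K} (hv : Unr K L v) (hm : (m : 𝓞 K) ∉ v.asIdeal) : Unr K M v := by
  refine unr_of_tower K L M hv fun w hw => ?_
  refine unr_cyc m w ?_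
  rw [← m_mem_below (K := K), hw]
  exact hm


/-- PROOF. M/K is Galois (x_gal, X12) and abelian (x_comm), frob_spec (B17), fr_zeta (B22): frob zeta = zeta^(Nm v); IsPrimitiveRoot.autToPow_spec and IsPrimitiveRoot.pow_inj or
(hζ.pow_eq_pow_iff_modEq): the exponents agree mod m. -/
theorem x_beta [IsGalois K L] (hab : ∀ a b : L ≃ₐ[K] L, a * b = b * a) {ζ : M} (hζ : IsPrimitiveRoot ζ m) {v : Pr K} (hv : Unr K L v)
    (hm : (m : 𝓞 K) ∉ v.asIdeal) : hζ.autToPow K (frob K M v) = ZMod.unitOfCoprime (Nm v) (x_cop m v hm) := by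
  haveI : IsGalois K M := x_gal K L M m
  have h1 := frob_spec (K := K) (L := M) (x_comm hζ hab) (x_unr (m := m) hv hm)
  have h2 := fr_zeta m v hm h1 hζ.pow_eq_one
  have h3 := hζ.autToPow_spec K (frob K M v)
  rw [h2] at h3
  apply Units.ext
  rw [ZMod.coe_unitOfCoprime]
  rw [pow_eq_pow_mod (Nm v) hζ.pow_eq_one] at h3
  have h4 := hζ.pow_inj (ZMod.val_lt _) (Nat.mod_lt _ (Nat.pos_of_ne_zero (NeZero.ne m))) h3
  rw [← ZMod.natCast_zmod_val ((hζ.autToPow K (frob K M v) : (ZMod m)ˣ) : ZMod m), h4, ZMod.natCast_mod]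


end

end CFT
end

-- from Lib.CFTC.C0
section

/-! # CFT, module C: prime number theorem for Hecke characters (definitions)

fib n: the primes of norm n. cf w: the coefficients of the Dirichlet series of a function w on the primes. Ps w s: the series of the w v Nv^(-s).
Er w s: the series of the -log (1 - w v Nv^(-s)) - w v Nv^(-s). Ext w A: the Dirichlet series of w v log Nv minus A / (s - 1) has a continuous extension to
the closed half plane re s >= 1. pr: the values at the primes of a function on the ideals. -/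

open NumberField IsDedekindDomain Complex

namespace CFTC

open CFT

variable {K : Type} [Field K] [NumberField K]

theorem fib_fin (n : ℕ) : {v : Pr K | Nm v = n}.Finite :=
  (Ideal.finite_setOfPred_absNorm_eq (S := 𝓞 K) n).preimage CFTZ.dd_inj.injOn

/-- The primes of norm n. -/
noncomputable def fib (n : ℕ) : Finset (Pr K) := (fib_fin n).toFinset

theorem mem_fib (n : ℕ) (v : Pr K) : v ∈ fib n ↔ Nm v = n := by
  unfold fib
  rw [Set.Finite.mem_toFinset]
  rfl

/-- The coefficients of the Dirichlet series of a function on the primes. -/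
noncomputable def cf (w : Pr K → ℂ) (n : ℕ) : ℂ := ∑ v ∈ fib n, w v

/-- The Dirichlet series of a function on the primes. -/
noncomputable def Ps (w : Pr K → ℂ) (s : ℂ) : ℂ := ∑' v : Pr K, w v * (Nm v : ℂ) ^ (-s)

/-- The correction term. -/
noncomputable def Er (w : Pr K → ℂ) (s : ℂ) : ℂ :=
  ∑' v : Pr K, (-log (1 - w v * (Nm v : ℂ) ^ (-s)) - w v * (Nm v : ℂ) ^ (-s))

/-- The Dirichlet series of the w v log Nv minus A / (s - 1) has a continuous extension to re s >= 1. -/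
def Ext (w : Pr K → ℂ) (A : ℂ) : Prop := ∃ G : ℂ → ℂ, ContinuousOn G {s | 1 ≤ s.re} ∧
  ∀ s : ℂ, 1 < s.re → LSeries (LSeries.logMul (cf w)) s = G s + A / (s - 1)

/-- The values at the primes. -/
def pr (h : Ideal (𝓞 K) →*₀ ℂ) (v : Pr K) : ℂ := h v.asIdeal

end CFTC
end

-- from Lib.CFTC.C1
section

/-! # CFT module C, chunk C1: Dirichlet series over the primes as L-series -/

open NumberField IsDedekindDomain Complex

namespace CFTC

open CFT

variable {K : Type} [Field K] [NumberField K]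

/-- PROOF. `|w v Nv^(-s)| <= Nv^(-re s)` (`Complex.norm_natCast_cpow_of_pos`, `CFTZ.dd_two_le`), `CFTZ.dd_summable`. -/
theorem summ_w {w : Pr K → ℂ} {B : ℝ} (hw : ∀ v, ‖w v‖ ≤ B) {s : ℂ} (hs : 1 < s.re) :
    Summable fun v : Pr K => w v * (Nm v : ℂ) ^ (-s) := by
  have h1 : Summable fun v : Pr K => B * (Nm v : ℝ) ^ (-s.re) := (CFTZ.dd_summable (K := K) s.re hs).mul_left B
  refine Summable.of_norm_bounded h1 fun v => ?_
  have h2 : 2 ≤ Nm v := CFTZ.dd_two_le v
  rw [norm_mul, Complex.norm_natCast_cpow_of_pos (by omega), Complex.neg_re]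
  exact mul_le_mul_of_nonneg_right (hw v) (by positivity)

/-- PROOF. Sum over the fibres of the norm (`Equiv.sigmaFiberEquiv`, `HasSum.sigma`; compare the proof of `CFTZ.RD3_zeta` in Lib/CFT/ZA.lean); the sum over the fibre of `n` is `LSeries.term (cf w) s n` for
every `n` (for `n = 0` the fibre is empty: `2 ≤ Nm v`). -/
theorem cf_hasSum {w : Pr K → ℂ} {B : ℝ} (hw : ∀ v, ‖w v‖ ≤ B) {s : ℂ} (hs : 1 < s.re) : LSeriesHasSum (cf w) s (Ps w s) := by
  have h1 := (summ_w hw hs).hasSum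
  rw [← (Equiv.sigmaFiberEquiv (fun v : Pr K => Nm v)).hasSum_iff] at h1
  refine h1.sigma fun n => ?_
  have hf : Finite {v : Pr K // Nm v = n} := (fib_fin n).to_subtype
  have := Fintype.ofFinite {v : Pr K // Nm v = n}
  have h2 : LSeries.term (cf w) s n = ∑ v : {v : Pr K // Nm v = n}, w v * (Nm (v : Pr K) : ℂ) ^ (-s) := by
    rw [← Finset.sum_subtype (fib n) (mem_fib n) fun v => w v * (Nm v : ℂ) ^ (-s)]
    rcases Nat.eq_zero_or_pos n with rfl | hn
    · rw [LSeries.term_zero]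
      refine (Finset.sum_eq_zero fun v hv => ?_).symm
      have h3 : 2 ≤ Nm v := CFTZ.dd_two_le v
      rw [mem_fib] at hv
      omega
    · rw [LSeries.term_of_ne_zero (by omega), cf, Finset.sum_div]
      refine Finset.sum_congr rfl fun v hv => ?_
      rw [mem_fib] at hv
      rw [hv, Complex.cpow_neg, div_eq_mul_inv]
  rw [h2]
  exact hasSum_fintype _

/-- PROOF. `LSeries.abscissaOfAbsConv_le_of_forall_lt_LSeriesSummable` and `cf_hasSum`. -/
theorem cf_absc {w : Pr K → ℂ} {B : ℝ} (hw : ∀ v, ‖w v‖ ≤ B) : LSeries.abscissaOfAbsConv (cf w) ≤ 1 := by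
  have h1 : ∀ y : ℝ, (1 : ℝ) < y → LSeriesSummable (cf w) y := fun y hy =>
    (cf_hasSum hw (s := (y : ℂ)) (by rwa [Complex.ofReal_re])).summable
  exact LSeries.abscissaOfAbsConv_le_of_forall_lt_LSeriesSummable h1

/-- PROOF. `LSeries_hasDerivAt` (with `cf_absc`), `Ps w = LSeries (cf w)` near `s` (`cf_hasSum`; the half plane is open). -/
theorem ps_deriv {w : Pr K → ℂ} {B : ℝ} (hw : ∀ v, ‖w v‖ ≤ B) {s : ℂ} (hs : 1 < s.re) :
    HasDerivAt (Ps w) (-(LSeries (LSeries.logMul (cf w)) s)) s := by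
  have h1 : LSeries.abscissaOfAbsConv (cf w) < s.re :=
    lt_of_le_of_lt (cf_absc hw) (by exact_mod_cast hs)
  refine (LSeries_hasDerivAt h1).congr_of_eventuallyEq ?_
  have h2 : {z : ℂ | 1 < z.re} ∈ nhds s := (isOpen_lt continuous_const Complex.continuous_re).mem_nhds hs
  filter_upwards [h2] with z hz
  exact (cf_hasSum hw hz).tsum_eq.symm

/-- PROOF. `LSeries.abscissaOfAbsConv_logMul` and `cf_absc`. -/
theorem lm_absc {w : Pr K → ℂ} {B : ℝ} (hw : ∀ v, ‖w v‖ ≤ B) : LSeries.abscissaOfAbsConv (LSeries.logMul (cf w)) ≤ 1 := by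
  rw [LSeries.abscissaOfAbsConv_logMul]
  exact cf_absc hw

end CFTC
end

-- from Lib.CFTC.C7
section

/-! # CFT module C, chunk C7: the Tauberian theorem for sums over the primes -/

open NumberField IsDedekindDomain Complex Filter Topology

namespace CFTC

open CFT

variable {K : Type} [Field K] [NumberField K]

theorem c7_summ {w : Pr K → ℂ} {B : ℝ} (hw : ∀ v, ‖w v‖ ≤ B) {s : ℂ} (hs : 1 < s.re) :
    LSeriesSummable (LSeries.logMul (cf w)) s :=
  LSeriesSummable_of_abscissaOfAbsConv_lt_re (lt_of_le_of_lt (lm_absc hw) (by exact_mod_cast hs))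

/-- PROOF. `G` becomes `a • G + b • G'`; `cf` and `logMul` are linear, `LSeries_add`, `LSeries_smul` with summability from `lm_absc` (`LSeriesSummable_of_abscissaOfAbsConv_lt_re`). -/
theorem ext_lin {w w' : Pr K → ℂ} {B B' : ℝ} (hw : ∀ v, ‖w v‖ ≤ B) (hw' : ∀ v, ‖w' v‖ ≤ B') {A A' : ℂ} (h : Ext w A) (h' : Ext w' A') (a b : ℂ) :
    Ext (fun v => a * w v + b * w' v) (a * A + b * A') := by
  obtain ⟨G, hG, hE⟩ := h
  obtain ⟨G', hG', hE'⟩ := h'
  refine ⟨fun s => a * G s + b * G' s, (continuousOn_const.mul hG).add (continuousOn_const.mul hG'), fun s hs => ?_⟩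
  have h1 : LSeries.logMul (cf fun v => a * w v + b * w' v) = a • LSeries.logMul (cf w) + b • LSeries.logMul (cf w') := by
    funext n
    unfold cf
    simp only [LSeries.logMul, Pi.add_apply, Pi.smul_apply, smul_eq_mul]
    rw [Finset.sum_add_distrib, ← Finset.mul_sum, ← Finset.mul_sum]
    ring
  rw [h1, LSeries_add ((c7_summ hw hs).smul a) ((c7_summ hw' hs).smul b), LSeries_smul, LSeries_smul, hE s hs, hE' s hs]
  ring

/-- PROOF. `G` becomes `conj (G (conj s))`; `LSeries.term (conj ∘ f) s n = conj (LSeries.term f (conj s) n)` (`Complex.cpow_conj`, `Complex.natCast_arg`), `Complex.conj_tsum`. -/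
theorem ext_conj {w : Pr K → ℂ} {A : ℂ} (h : Ext w A) : Ext (fun v => (starRingEnd ℂ) (w v)) ((starRingEnd ℂ) A) := by
  obtain ⟨G, hG, hE⟩ := h
  refine ⟨fun s => (starRingEnd ℂ) (G ((starRingEnd ℂ) s)), ?_, fun s hs => ?_⟩
  · refine Complex.continuous_conj.comp_continuousOn (hG.comp Complex.continuous_conj.continuousOn fun s hs => ?_)
    show (1 : ℝ) ≤ ((starRingEnd ℂ) s).re
    rw [Complex.conj_re]
    exact hs
  · have hs' : 1 < ((starRingEnd ℂ) s).re := by rwa [Complex.conj_re]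
    have h1 : LSeries (LSeries.logMul (cf fun v => (starRingEnd ℂ) (w v))) s =
        (starRingEnd ℂ) (LSeries (LSeries.logMul (cf w)) ((starRingEnd ℂ) s)) := by
      unfold LSeries
      rw [Complex.conj_tsum]
      refine tsum_congr fun n => ?_
      rcases Nat.eq_zero_or_pos n with rfl | hn
      · rw [LSeries.term_zero, LSeries.term_zero, map_zero]
      · rw [LSeries.term_of_ne_zero (by omega), LSeries.term_of_ne_zero (by omega), map_div₀,
          Complex.cpow_conj _ _ (by rw [Complex.natCast_arg]; exact Real.pi_pos.ne), Complex.conj_conj, Complex.conj_natCast]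
        congr 1
        unfold cf
        simp only [LSeries.logMul]
        rw [map_mul, map_sum, ← Complex.natCast_log, Complex.conj_ofReal]
    rw [h1, hE _ hs', map_add, map_div₀, map_sub, Complex.conj_conj, map_one]

theorem c7_real (u : Pr K → ℝ) (n : ℕ) : LSeries.logMul (cf fun v => (u v : ℂ)) n = (((∑ v ∈ fib n, u v) * Real.log n : ℝ) : ℂ) := by
  unfold cf
  simp only [LSeries.logMul]
  rw [Complex.ofReal_mul, Complex.ofReal_sum, ← Complex.natCast_log]
  ring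

theorem c7_sum (u : Pr K → ℝ) (x : ℕ) : ∑ k ∈ Finset.Icc 1 x, ∑ v ∈ fib k, u v = ∑ᶠ v ∈ {v : Pr K | Nm v ≤ x}, u v := by
  classical
  have h1 : (Finset.Icc 1 x : Set ℕ).PairwiseDisjoint (fun k => (fib k : Finset (Pr K))) := by
    intro i _ j _ hij
    rw [Function.onFun, Finset.disjoint_left]
    intro v hi hj
    rw [mem_fib] at hi hj
    exact hij (hi.symm.trans hj)
  rw [← Finset.sum_biUnion h1]
  have h2 : {v : Pr K | Nm v ≤ x} = (((Finset.Icc 1 x).biUnion fun k => (fib k : Finset (Pr K))) : Set (Pr K)) := by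
    ext v
    rw [Finset.mem_coe, Finset.mem_biUnion]
    constructor
    · intro hv
      have h3 : 2 ≤ Nm v := CFTZ.dd_two_le v
      exact ⟨Nm v, Finset.mem_Icc.2 ⟨by omega, hv⟩, (mem_fib _ _).2 rfl⟩
    · rintro ⟨k, hk, hv⟩
      rw [mem_fib] at hv
      rw [Finset.mem_Icc] at hk
      show Nm v ≤ x
      rw [hv]
      exact hk.2
  rw [h2, finsum_mem_coe_finset]

/-- PROOF. `cf (fun v => u v) n = ((∑ v ∈ fib n, u v : ℝ) : ℂ)`; `Pool.Agent.Lib.PNT.wiener_ikehara_nat` with `a n = (∑ v ∈ fib n, u v) * log n`, `A = 1` (summability from `lm_absc`), then `transfer` with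
`b n = ∑ v ∈ fib n, u v`, and `∑ k ∈ Icc 1 n, ∑ v ∈ fib k, u v` = the sum over `{v | Nm v ≤ n}` (`Finset.sum_biUnion` or `Finset.sum_fiberwise`; `finsum_mem_eq_finite_toFinset_sum`). -/
theorem tau {u : Pr K → ℝ} {B : ℝ} (h0 : ∀ v, 0 ≤ u v) (hB : ∀ v, u v ≤ B) (h : Ext (fun v : Pr K => (u v : ℂ)) 1) :
    Tendsto (fun x : ℕ => (∑ᶠ v ∈ {v : Pr K | Nm v ≤ x}, u v) / (Nat.primeCounting x : ℝ)) atTop (𝓝 1) := by
  obtain ⟨G, hG, hE⟩ := h
  have hw : ∀ v : Pr K, ‖(u v : ℂ)‖ ≤ B := fun v => by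
    rw [Complex.norm_real, Real.norm_of_nonneg (h0 v)]
    exact hB v
  have hcoe : (fun n : ℕ => (((∑ v ∈ fib n, u v) * Real.log n : ℝ) : ℂ)) = LSeries.logMul (cf fun v : Pr K => (u v : ℂ)) :=
    funext fun n => (c7_real u n).symm
  have h1 := Pool.Agent.Lib.PNT.wiener_ikehara_nat (fun n => (∑ v ∈ (fib n : Finset (Pr K)), u v) * Real.log n)
    (fun n => mul_nonneg (Finset.sum_nonneg fun v _ => h0 v) (Real.log_natCast_nonneg n)) 1 G
    (fun σ hσ => by
      rw [hcoe]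
      exact c7_summ hw (by rwa [Complex.ofReal_re])) hG
    (fun s hs => by
      rw [hcoe, hE s hs, Complex.ofReal_one])
  have h2 := transfer (b := fun n => ∑ v ∈ (fib n : Finset (Pr K)), u v) (fun n => Finset.sum_nonneg fun v _ => h0 v) (by
    refine Finset.sum_eq_zero fun v hv => ?_
    have h3 : 2 ≤ Nm v := CFTZ.dd_two_le v
    rw [mem_fib] at hv
    omega) h1
  refine h2.congr fun x => ?_
  rw [c7_sum]

end CFTC
end

-- from Lib.CFTC.C8
section

/-! # CFT module C, chunk C8: mean value zero -/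

open NumberField IsDedekindDomain Complex Filter Topology

namespace CFTC

open CFT

variable {K : Type} [Field K] [NumberField K]

theorem nm_fin (x : ℕ) : {v : Pr K | Nm v ≤ x}.Finite := by
  exact (Ideal.finite_setOfPred_absNorm_le (S := 𝓞 K) x).preimage CFTZ.dd_inj.injOn


/-- A real function with values in [-1, 1] and Ext u 0 has mean value zero. -/
theorem c8_real {f : Pr K → ℝ} (hf : ∀ v, |f v| ≤ 1) (h1 : Ext (fun _ : Pr K => 1) 1) (h : Ext (fun v => (f v : ℂ)) 0) :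
    Tendsto (fun x : ℕ => (∑ᶠ v ∈ {v : Pr K | Nm v ≤ x}, f v) / (Nat.primeCounting x : ℝ)) atTop (𝓝 0) := by
  have e1 : Ext (fun v => ((1 + f v : ℝ) : ℂ)) 1 := by
    have h2 := ext_lin (B := 1) (B' := 1) (w := fun _ : Pr K => 1) (w' := fun v => (f v : ℂ)) (fun v => by rw [norm_one]) (fun v => by
      rw [Complex.norm_real]
      exact hf v) h1 h 1 1
    have h3 : (1 : ℂ) * 1 + 1 * 0 = 1 := by ring
    rw [h3] at h2
    have h4 : (fun v : Pr K => (1 : ℂ) * 1 + 1 * (f v : ℂ)) = fun v => ((1 + f v : ℝ) : ℂ) := by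
      funext v
      push_cast
      ring
    rw [h4] at h2
    exact h2
  have e2 : Ext (fun v : Pr K => ((1 : ℝ) : ℂ)) 1 := by
    have h4 : (fun v : Pr K => ((1 : ℝ) : ℂ)) = fun _ => 1 := by
      funext v
      exact Complex.ofReal_one
    rw [h4]
    exact h1
  have t1 := tau (B := 2) (fun v => by linarith [(abs_le.1 (hf v)).1]) (fun v => by linarith [(abs_le.1 (hf v)).2]) e1
  have t2 := tau (u := fun _ : Pr K => (1 : ℝ)) (B := 2) (fun v => zero_le_one) (fun v => one_le_two) e2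
  have t3 := t1.sub t2
  rw [sub_self] at t3
  refine t3.congr fun x => ?_
  rw [← sub_div, finsum_mem_eq_finite_toFinset_sum _ (nm_fin x), finsum_mem_eq_finite_toFinset_sum _ (nm_fin x),
    finsum_mem_eq_finite_toFinset_sum _ (nm_fin x), ← Finset.sum_sub_distrib]
  congr 1
  refine Finset.sum_congr rfl fun v _ => ?_
  ring

/-- PROOF. `u = 1 + re w` and `u = 1 + im w` satisfy `tau` (`ext_lin`, `ext_conj`: `re w = (w + conj w) / 2`, `im w = (w - conj w) / (2 i)`); subtract `tau` for `u = 1`; so the real and the imaginary part of the quotient tend to 0. -/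
theorem mean_zero {w : Pr K → ℂ} (hw : ∀ v, ‖w v‖ ≤ 1) (h1 : Ext (fun _ : Pr K => 1) 1) (h : Ext w 0) :
    Tendsto (fun x : ℕ => (∑ᶠ v ∈ {v : Pr K | Nm v ≤ x}, w v) / (Nat.primeCounting x : ℂ)) atTop (𝓝 0) := by
  have hwc : ∀ v, ‖(starRingEnd ℂ) (w v)‖ ≤ 1 := fun v => by
    rw [RCLike.norm_conj]
    exact hw v
  have hre : Ext (fun v => ((w v).re : ℂ)) 0 := by
    have h2 := ext_lin hw hwc h (ext_conj h) (1 / 2) (1 / 2)
    have h3 : (1 / 2 : ℂ) * 0 + 1 / 2 * (starRingEnd ℂ) 0 = 0 := by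
      rw [map_zero]
      ring
    rw [h3] at h2
    have h4 : (fun v => (1 / 2 : ℂ) * w v + 1 / 2 * (starRingEnd ℂ) (w v)) = fun v => ((w v).re : ℂ) := by
      funext v
      rw [Complex.re_eq_add_conj]
      ring
    rw [h4] at h2
    exact h2
  have him : Ext (fun v => ((w v).im : ℂ)) 0 := by
    have h2 := ext_lin hw hwc h (ext_conj h) (1 / (2 * I)) (-(1 / (2 * I)))
    have h3 : (1 / (2 * I) : ℂ) * 0 + -(1 / (2 * I)) * (starRingEnd ℂ) 0 = 0 := by
      rw [map_zero]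
      ring
    rw [h3] at h2
    have h4 : (fun v => (1 / (2 * I) : ℂ) * w v + -(1 / (2 * I)) * (starRingEnd ℂ) (w v)) = fun v => ((w v).im : ℂ) := by
      funext v
      rw [Complex.im_eq_sub_conj]
      ring
    rw [h4] at h2
    exact h2
  have t1 := c8_real (fun v => (Complex.abs_re_le_norm (w v)).trans (hw v)) h1 hre
  have t2 := c8_real (fun v => (Complex.abs_im_le_norm (w v)).trans (hw v)) h1 him
  have t3 := ((Complex.continuous_ofReal.tendsto 0).comp t1).add (((Complex.continuous_ofReal.tendsto 0).comp t2).mul_const I)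
  rw [Complex.ofReal_zero, zero_mul, add_zero] at t3
  refine t3.congr fun x => ?_
  rw [Function.comp_apply, Function.comp_apply, finsum_mem_eq_finite_toFinset_sum _ (nm_fin x), finsum_mem_eq_finite_toFinset_sum _ (nm_fin x),
    finsum_mem_eq_finite_toFinset_sum _ (nm_fin x), Complex.ofReal_div, Complex.ofReal_div, Complex.ofReal_sum, Complex.ofReal_sum,
    Complex.ofReal_natCast, div_mul_eq_mul_div, ← add_div, Finset.sum_mul, ← Finset.sum_add_distrib]
  congr 1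
  exact Finset.sum_congr rfl fun v _ => Complex.re_add_im (w v)


/-- PROOF. The difference of the sums is bounded (`S` is finite), `Nat.tendsto_primeCounting`. -/
theorem change_S (S : Finset (Pr K)) {w w' : Pr K → ℂ} (h : ∀ v ∉ S, w v = w' v)
    (h1 : Tendsto (fun x : ℕ => (∑ᶠ v ∈ {v : Pr K | Nm v ≤ x}, w v) / (Nat.primeCounting x : ℂ)) atTop (𝓝 0)) :
    Tendsto (fun x : ℕ => (∑ᶠ v ∈ {v : Pr K | Nm v ≤ x}, w' v) / (Nat.primeCounting x : ℂ)) atTop (𝓝 0) := by
  classical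
  have hπ : Tendsto (fun x : ℕ => ((Nat.primeCounting x : ℝ))⁻¹) atTop (𝓝 0) :=
    tendsto_inv_atTop_zero.comp (tendsto_natCast_atTop_atTop.comp Nat.tendsto_primeCounting)
  have h2 : Tendsto (fun x : ℕ => (∑ᶠ v ∈ {v : Pr K | Nm v ≤ x}, w' v) / (Nat.primeCounting x : ℂ) -
      (∑ᶠ v ∈ {v : Pr K | Nm v ≤ x}, w v) / (Nat.primeCounting x : ℂ)) atTop (𝓝 0) := by
    have hb : Tendsto (fun x : ℕ => (∑ v ∈ S, ‖w' v - w v‖) * ((Nat.primeCounting x : ℝ))⁻¹) atTop (𝓝 0) := by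
      have h3 := hπ.const_mul (∑ v ∈ S, ‖w' v - w v‖)
      rwa [mul_zero] at h3
    refine squeeze_zero_norm (fun x => ?_) hb
    rw [← sub_div, norm_div, Complex.norm_natCast, div_eq_mul_inv]
    refine mul_le_mul_of_nonneg_right ?_ (inv_nonneg.2 (Nat.cast_nonneg _))
    rw [finsum_mem_eq_finite_toFinset_sum _ (nm_fin x), finsum_mem_eq_finite_toFinset_sum _ (nm_fin x), ← Finset.sum_sub_distrib]
    have h4 : ∑ v ∈ (nm_fin (K := K) x).toFinset, (w' v - w v) = ∑ v ∈ (nm_fin (K := K) x).toFinset with v ∈ S, (w' v - w v) := by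
      rw [Finset.sum_filter]
      refine Finset.sum_congr rfl fun v _ => ?_
      split_ifs with hv
      · rfl
      · rw [h v hv, sub_self]
    rw [h4]
    refine (norm_sum_le _ _).trans ?_
    refine Finset.sum_le_sum_of_subset_of_nonneg ?_ fun v _ _ => norm_nonneg _
    intro v hv
    exact (Finset.mem_filter.1 hv).2
  have h5 := h2.add h1
  rw [add_zero] at h5
  refine h5.congr fun x => ?_
  rw [sub_add_cancel]


end CFTC
end

-- from Lib.CFTC.C2
section

/-! # CFT module C, chunk C2: the correction term is analytic -/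

open NumberField IsDedekindDomain Complex

namespace CFTC

open CFT

variable {K : Type} [Field K] [NumberField K]

theorem c2_le (v : Pr K) {a : ℝ} (ha : 1 / 2 ≤ a) : (Nm v : ℝ) ^ (-a) ≤ 3 / 4 := by
  have h2 : (2 : ℝ) ≤ (Nm v : ℝ) := by exact_mod_cast CFTZ.dd_two_le v
  have h3 : (Nm v : ℝ) ^ (-a) ≤ (Nm v : ℝ) ^ (-(1 / 2 : ℝ)) :=
    Real.rpow_le_rpow_of_exponent_le (by linarith) (by linarith)
  refine h3.trans ?_
  rw [Real.rpow_neg (by linarith), ← Real.sqrt_eq_rpow]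
  have h4 : (4 / 3 : ℝ) ≤ Real.sqrt (Nm v) := by
    apply Real.le_sqrt_of_sq_le
    linarith
  calc (Real.sqrt (Nm v))⁻¹ ≤ (4 / 3 : ℝ)⁻¹ := inv_anti₀ (by norm_num) h4
    _ = 3 / 4 := by norm_num

theorem c2_z {w : Pr K → ℂ} (hw : ∀ v, ‖w v‖ ≤ 1) {a : ℝ} {s : ℂ} (hs : a ≤ s.re) (v : Pr K) :
    ‖w v * (Nm v : ℂ) ^ (-s)‖ ≤ (Nm v : ℝ) ^ (-a) := by
  have h2 : 2 ≤ Nm v := CFTZ.dd_two_le v
  have h3 : (1 : ℝ) ≤ (Nm v : ℝ) := by exact_mod_cast (show 1 ≤ Nm v by omega)
  rw [norm_mul, Complex.norm_natCast_cpow_of_pos (by omega), Complex.neg_re]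
  calc ‖w v‖ * (Nm v : ℝ) ^ (-s.re) ≤ 1 * (Nm v : ℝ) ^ (-s.re) := mul_le_mul_of_nonneg_right (hw v) (by positivity)
    _ = (Nm v : ℝ) ^ (-s.re) := one_mul _
    _ ≤ (Nm v : ℝ) ^ (-a) := Real.rpow_le_rpow_of_exponent_le h3 (by linarith)

theorem c2_bd {w : Pr K → ℂ} (hw : ∀ v, ‖w v‖ ≤ 1) {a : ℝ} (ha : 1 / 2 ≤ a) {s : ℂ} (hs : a ≤ s.re) (v : Pr K) :
    ‖-log (1 - w v * (Nm v : ℂ) ^ (-s)) - w v * (Nm v : ℂ) ^ (-s)‖ ≤ 2 * (Nm v : ℝ) ^ (-(2 * a)) := by
  have h1 := c2_z hw hs v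
  have h2 := c2_le v ha
  set z : ℂ := w v * (Nm v : ℂ) ^ (-s) with hz
  have h0 := norm_nonneg z
  have h3 : ‖-z‖ < 1 := by
    rw [norm_neg]
    linarith
  have h4 := Complex.norm_log_one_add_sub_self_le h3
  have h5 : -log (1 - z) - z = -(log (1 + -z) - -z) := by
    rw [← sub_eq_add_neg]
    ring
  rw [h5, norm_neg]
  refine h4.trans ?_
  rw [norm_neg]
  have h6 : (1 - ‖z‖)⁻¹ ≤ 4 := by
    rw [inv_le_comm₀ (by linarith) (by norm_num)]
    linarith
  have h7 : (Nm v : ℝ) ^ (-(2 * a)) = ((Nm v : ℝ) ^ (-a)) ^ 2 := by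
    rw [← Real.rpow_natCast, ← Real.rpow_mul (Nat.cast_nonneg _)]
    congr 1
    push_cast
    ring
  rw [h7]
  have h8 : ‖z‖ ^ 2 ≤ ((Nm v : ℝ) ^ (-a)) ^ 2 := pow_le_pow_left₀ h0 h1 2
  have h9 : ‖z‖ ^ 2 * (1 - ‖z‖)⁻¹ ≤ ‖z‖ ^ 2 * 4 := mul_le_mul_of_nonneg_left h6 (sq_nonneg _)
  linarith

theorem c2_sum {a : ℝ} (ha : 1 / 2 < a) : Summable fun v : Pr K => 2 * (Nm v : ℝ) ^ (-(2 * a)) :=
  (CFTZ.dd_summable (K := K) (2 * a) (by linarith)).mul_left 2

/-- PROOF. Let `1/2 < re s0` and let `a` be strictly between `1/2` and `re s0`. On the open set `{s | a < re s}` we have, with `z = w v Nv^(-s)`, `|z| <= Nv^(-a) <= 2^(-1/2) <= 3/4` (`CFTZ.dd_two_le`;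
`Complex.norm_natCast_cpow_of_pos`), so `|-log (1 - z) - z| = |log (1 + -z) - -z| <= |z|^2 (1 - |z|)⁻¹ / 2 <= 2 |z|^2 <= 2 Nv^(-2a)` (`Complex.norm_log_one_add_sub_self_le`), which is summable
(`CFTZ.dd_summable`, `2a > 1`). Each term is differentiable (`1 - z` has positive real part: `Complex.mem_slitPlane_of_pos`... ). `differentiableOn_tsum_of_summable_norm`. -/
theorem er_diff {w : Pr K → ℂ} (hw : ∀ v, ‖w v‖ ≤ 1) : DifferentiableOn ℂ (Er w) {s | 1 / 2 < s.re} := by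
  intro s0 hs0
  have hs1 : 1 / 2 < s0.re := hs0
  obtain ⟨a, ha1, ha2⟩ : ∃ a : ℝ, 1 / 2 < a ∧ a < s0.re := exists_between hs1
  have hU : IsOpen {s : ℂ | a < s.re} := isOpen_lt continuous_const Complex.continuous_re
  have h1 : DifferentiableOn ℂ (Er w) {s : ℂ | a < s.re} := by
    refine differentiableOn_tsum_of_summable_norm (c2_sum (K := K) ha1) (fun v => ?_) hU fun v s hs => c2_bd hw ha1.le (le_of_lt hs) v
    intro s hs
    have hs' : a ≤ s.re := le_of_lt hs
    have h2 : 2 ≤ Nm v := CFTZ.dd_two_le v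
    have h3 : (Nm v : ℂ) ≠ 0 := by
      have : Nm v ≠ 0 := by omega
      exact_mod_cast this
    have h4 : DifferentiableAt ℂ (fun s : ℂ => w v * (Nm v : ℂ) ^ (-s)) s :=
      ((differentiableAt_id.neg).const_cpow (Or.inl h3)).const_mul _
    have h5 : 1 - w v * (Nm v : ℂ) ^ (-s) ∈ slitPlane := by
      rw [mem_slitPlane_iff]
      left
      rw [Complex.sub_re, Complex.one_re]
      have h6 := c2_z hw hs' v
      have h7 := c2_le v ha1.le
      have h8 := Complex.re_le_norm (w v * (Nm v : ℂ) ^ (-s))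
      linarith
    exact (((((differentiableAt_const _).sub h4).clog h5).neg).sub h4).differentiableWithinAt
  exact (h1.differentiableAt (hU.mem_nhds ha2)).differentiableWithinAt

/-- PROOF. As in `er_diff` (one point). -/
theorem er_summ {w : Pr K → ℂ} (hw : ∀ v, ‖w v‖ ≤ 1) {s : ℂ} (hs : 1 / 2 < s.re) :
    Summable fun v : Pr K => (-log (1 - w v * (Nm v : ℂ) ^ (-s)) - w v * (Nm v : ℂ) ^ (-s)) := by
  obtain ⟨a, ha1, ha2⟩ : ∃ a : ℝ, 1 / 2 < a ∧ a < s.re := exists_between hs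
  exact Summable.of_norm_bounded (c2_sum (K := K) ha1) fun v => c2_bd hw ha1.le ha2.le v

end CFTC
end

-- from Lib.CFTC.C3
section

/-! # CFT module C, chunk C3: the Euler product as an exponential -/

open NumberField IsDedekindDomain Complex

namespace CFTC

open CFT

variable {K : Type} [Field K] [NumberField K]

theorem c3_tm (h : Ideal (𝓞 K) →*₀ ℂ) (s : ℂ) (a : Ideal (𝓞 K)) :
    CFTZ.tm (CFTZ.tmH h (s.im * I)) (s.re : ℂ) a = CFTZ.tm h s a := by
  show h a * (Ideal.absNorm a : ℂ) ^ (-(s.im * I)) * (Ideal.absNorm a : ℂ) ^ (-(s.re : ℂ)) = h a * (Ideal.absNorm a : ℂ) ^ (-s)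
  by_cases ha : a = ⊥
  · subst ha
    have h0 : h ⊥ = 0 := map_zero h
    rw [h0, zero_mul, zero_mul, zero_mul]
  · have h1 : (Ideal.absNorm a : ℂ) ≠ 0 := by
      have : Ideal.absNorm a ≠ 0 := fun h => ha (Ideal.absNorm_eq_zero_iff.1 h)
      exact_mod_cast this
    rw [mul_assoc, ← Complex.cpow_add _ _ h1]
    congr 2
    have h2 := Complex.re_add_im s
    linear_combination -h2

theorem c3_norm (h : Ideal (𝓞 K) →*₀ ℂ) (hh : ∀ a, ‖h a‖ ≤ 1) (t : ℝ) (a : Ideal (𝓞 K)) :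
    ‖CFTZ.tmH h (t * I) a‖ ≤ 1 := by
  show ‖h a * (Ideal.absNorm a : ℂ) ^ (-(t * I))‖ ≤ 1
  by_cases ha : a = ⊥
  · subst ha
    have h0 : h ⊥ = 0 := map_zero h
    rw [h0, zero_mul, norm_zero]
    exact zero_le_one
  · have h1 : 0 < Ideal.absNorm a := Nat.pos_of_ne_zero fun h => ha (Ideal.absNorm_eq_zero_iff.1 h)
    rw [norm_mul, Complex.norm_natCast_cpow_of_pos h1]
    have h2 : (-(t * I : ℂ)).re = 0 := by simp
    rw [h2, Real.rpow_zero, mul_one]
    exact hh a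

/-- PROOF. Write `s = σ + i t`. For the twisted function `CFTZ.tmH h (i t)` (completely multiplicative, absolute value `<= 1`: `Complex.norm_natCast_cpow_of_pos`, and `h ⊥ = 0`) we have
`tm (tmH h (it)) σ a = tm h s a` (`Complex.cpow_add`; both sides are 0 for `a = ⊥`), so `CFTZ.RD1_lim` at the real point `σ` is the claim. -/
theorem eu_lim (h : Ideal (𝓞 K) →*₀ ℂ) (hh : ∀ a, ‖h a‖ ≤ 1) {s : ℂ} (hs : 1 < s.re) :
    Filter.Tendsto (fun T : Finset (Pr K) => (∏ v ∈ T, (1 - pr h v * (Nm v : ℂ) ^ (-s))) * CFTY.Lc h s) Filter.atTop (nhds 1) := by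
  have h1 := CFTZ.RD1_lim (CFTZ.tmH h (s.im * I)) (c3_norm h hh s.im) s.re hs
  have h2 : CFTZ.Ls (CFTZ.tmH h (s.im * I)) s.re = CFTY.Lc h s := tsum_congr fun a => c3_tm h s a
  rw [h2] at h1
  refine h1.congr fun T => ?_
  congr 1
  refine Finset.prod_congr rfl fun v _ => ?_
  rw [c3_tm]
  rfl

/-- PROOF. The series of the `-log (1 - z v)`, `z v = pr h v Nv^(-s)`, is summable (`summ_w`, `er_summ`, sum of both) with sum `Ps + Er`; the exponential of the partial sum over `T` is the inverse of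
`∏ (1 - z v)` (`Complex.exp_log`, `1 - z v ≠ 0`), so the products tend to `exp (-(Ps + Er))`; by `eu_lim` `exp (-(Ps + Er)) * Lc h s = 1`. -/
theorem exp_eq (h : Ideal (𝓞 K) →*₀ ℂ) (hh : ∀ a, ‖h a‖ ≤ 1) {s : ℂ} (hs : 1 < s.re) :
    Complex.exp (Ps (pr h) s + Er (pr h) s) = CFTY.Lc h s := by
  have hw : ∀ v, ‖pr h v‖ ≤ 1 := fun v => hh v.asIdeal
  have h1 := (summ_w hw hs).hasSum.add (er_summ hw (s := s) (by linarith)).hasSum
  have h2 : Filter.Tendsto (fun T : Finset (Pr K) => ∏ v ∈ T, (1 - pr h v * (Nm v : ℂ) ^ (-s))) Filter.atTop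
      (nhds (Complex.exp (-(Ps (pr h) s + Er (pr h) s)))) := by
    have h3 : Filter.Tendsto (fun T : Finset (Pr K) => ∑ v ∈ T, (pr h v * (Nm v : ℂ) ^ (-s) +
        (-log (1 - pr h v * (Nm v : ℂ) ^ (-s)) - pr h v * (Nm v : ℂ) ^ (-s)))) Filter.atTop
        (nhds (Ps (pr h) s + Er (pr h) s)) := h1
    refine ((Complex.continuous_exp.tendsto _).comp h3.neg).congr fun T => ?_
    show Complex.exp (-∑ v ∈ T, _) = _
    rw [← Finset.sum_neg_distrib, Complex.exp_sum]
    refine Finset.prod_congr rfl fun v _ => ?_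
    have h4 := c2_z hw (a := s.re) (s := s) le_rfl v
    have h5 := c2_le v (a := s.re) (by linarith)
    have h6 : 1 - pr h v * (Nm v : ℂ) ^ (-s) ≠ 0 := by
      intro h0
      rw [sub_eq_zero] at h0
      rw [← h0, norm_one] at h4
      linarith
    have h7 : -(pr h v * (Nm v : ℂ) ^ (-s) + (-log (1 - pr h v * (Nm v : ℂ) ^ (-s)) - pr h v * (Nm v : ℂ) ^ (-s))) =
        log (1 - pr h v * (Nm v : ℂ) ^ (-s)) := by ring
    rw [h7, Complex.exp_log h6]
  have h8 := tendsto_nhds_unique (h2.mul_const (CFTY.Lc h s)) (eu_lim h hh hs)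
  rw [Complex.exp_neg, inv_mul_eq_one₀ (Complex.exp_ne_zero _)] at h8
  exact h8

end CFTC
end

-- from Lib.CFTC.C4
section

/-! # CFT module C, chunk C4: continuous extension of the logarithmic derivative -/

open NumberField IsDedekindDomain Complex

namespace CFTC

open CFT

variable {K : Type} [Field K] [NumberField K]

/-- PROOF. `U` is an open set which contains the closed half plane and `H` is analytic on `U`, without zeros on the closed half plane. For `re s > 1`: `H s = (s - 1)^k exp (Ps s + Er s)` (`exp_eq`), so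
`H' s / H s = k / (s - 1) + Ps' s + Er' s` and `Ps' s = -LSeries (logMul cf) s` (`ps_deriv`). So `G s = Er' s - H' s / H s` works: `H'` and `Er'` are continuous on the open sets `U`, `{1/2 < re s}`
(`DifferentiableOn.deriv`, `DifferentiableOn.contDiffOn`). -/
theorem ext_of (h : Ideal (𝓞 K) →*₀ ℂ) (hh : ∀ a, ‖h a‖ ≤ 1) (k : ℕ) {H : ℂ → ℂ} {U : Set ℂ} (hU : IsOpen U) (hU1 : {s : ℂ | 1 ≤ s.re} ⊆ U)
    (hH : DifferentiableOn ℂ H U) (hL : ∀ s : ℂ, 1 < s.re → H s = (s - 1) ^ k * CFTY.Lc h s) (hne : ∀ s : ℂ, 1 ≤ s.re → H s ≠ 0) :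
    Ext (pr h) k := by
  have hw : ∀ v : Pr K, ‖pr h v‖ ≤ 1 := fun v => hh _
  have hV : IsOpen {s : ℂ | 1 / 2 < s.re} := isOpen_lt continuous_const Complex.continuous_re
  have hVsub : {s : ℂ | 1 ≤ s.re} ⊆ {s : ℂ | 1 / 2 < s.re} := by
    intro s hs
    have h1 : 1 ≤ s.re := hs
    change 1 / 2 < s.re
    linarith
  refine ⟨fun s => deriv (Er (pr h)) s - deriv H s / H s, ?_, ?_⟩
  · have h1 : ContinuousOn (deriv (Er (pr h))) {s : ℂ | 1 / 2 < s.re} := ((er_diff hw).deriv hV).continuousOn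
    have h2 : ContinuousOn (deriv H) U := (hH.deriv hU).continuousOn
    exact (h1.mono hVsub).sub ((h2.mono hU1).div (hH.continuousOn.mono hU1) hne)
  · intro s hs
    have hO : IsOpen {s : ℂ | 1 < s.re} := isOpen_lt continuous_const Complex.continuous_re
    have e1 : H =ᶠ[nhds s] fun z => (z - 1) ^ k * exp (Ps (pr h) z + Er (pr h) z) := by
      filter_upwards [hO.mem_nhds hs] with z hz
      rw [hL z hz, exp_eq h hh hz]
    have hP := ps_deriv hw hs
    have hE : HasDerivAt (Er (pr h)) (deriv (Er (pr h)) s) s :=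
      ((er_diff hw).differentiableAt (hV.mem_nhds (hVsub (le_of_lt hs)))).hasDerivAt
    have hD := (((hasDerivAt_id s).sub_const 1).pow k).mul ((hP.add hE).cexp)
    have hdH : deriv H s = _ := e1.deriv_eq.trans hD.deriv
    have hHs : H s = (s - 1) ^ k * exp (Ps (pr h) s + Er (pr h) s) := e1.self_of_nhds
    have ht : s - 1 ≠ 0 := by
      intro h0
      have h1 : s = 1 := sub_eq_zero.1 h0
      rw [h1, Complex.one_re] at hs
      exact lt_irrefl _ hs
    have hE0 : exp (Ps (pr h) s + Er (pr h) s) ≠ 0 := Complex.exp_ne_zero _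
    change LSeries (LSeries.logMul (cf (pr h))) s = deriv (Er (pr h)) s - deriv H s / H s + k / (s - 1)
    rw [hdH, hHs]
    simp only [Pi.add_apply, Pi.pow_apply, id]
    generalize exp (Ps (pr h) s + Er (pr h) s) = E at hE0
    generalize deriv (Er (pr h)) s = e
    generalize LSeries (LSeries.logMul (cf (pr h))) s = L
    generalize s - 1 = t at ht
    rcases k with _ | m
    · simp only [pow_zero, Nat.cast_zero, zero_mul, one_mul, zero_div, add_zero, zero_add]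
      field_simp
      ring
    · rw [Nat.add_sub_cancel, pow_succ]
      have ht2 : t ^ m ≠ 0 := pow_ne_zero _ ht
      field_simp
      ring


end CFTC
end

-- from Lib.CFTC.C5
section

/-! # CFT module C, chunk C5: no zeros on the line re s = 1 (3-4-1) -/

open NumberField IsDedekindDomain Complex

namespace CFTC

open CFT

variable {K : Type} [Field K] [NumberField K]

/-- PROOF. Copy of the private lemma `re_log_comb_nonneg'` in Mathlib/NumberTheory/LSeries/Nonvanishing.lean. -/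
theorem c5_comb {a : ℝ} (ha₀ : 0 ≤ a) (ha₁ : a < 1) {z : ℂ} (hz : ‖z‖ = 1) :
    0 ≤ 3 * (-log (1 - a)).re + 4 * (-log (1 - a * z)).re + (-log (1 - a * z ^ 2)).re := by
  have hac₀ : ‖(a : ℂ)‖ < 1 := by
    simp only [Complex.norm_of_nonneg ha₀, ha₁]
  have hac₁ : ‖a * z‖ < 1 := by rwa [norm_mul, hz, mul_one]
  have hac₂ : ‖a * z ^ 2‖ < 1 := by rwa [norm_mul, norm_pow, hz, one_pow, mul_one]
  rw [← ((hasSum_re <| hasSum_taylorSeries_neg_log hac₀).mul_left 3).add
    ((hasSum_re <| hasSum_taylorSeries_neg_log hac₁).mul_left 4) |>.add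
    (hasSum_re <| hasSum_taylorSeries_neg_log hac₂) |>.tsum_eq]
  refine tsum_nonneg fun n ↦ ?_
  simp only [← ofReal_pow, div_natCast_re, ofReal_re, mul_pow, mul_re, ofReal_im, zero_mul,
    sub_zero]
  rcases n.eq_zero_or_pos with rfl | hn
  · simp
  · simp only [← mul_div_assoc, ← add_div]
    refine div_nonneg ?_ n.cast_nonneg
    rw [← pow_mul, pow_mul', sq, mul_re, ← sq, ← sq, ← sq_norm_sub_sq_re, norm_pow, hz]
    convert! (show 0 ≤ 2 * a ^ n * ((z ^ n).re + 1) ^ 2 by positivity) using 1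
    ring

theorem c5_sum {w : Pr K → ℂ} (hw : ∀ v, ‖w v‖ ≤ 1) {s : ℂ} (hs : 1 < s.re) :
    HasSum (fun v : Pr K => -log (1 - w v * (Nm v : ℂ) ^ (-s))) (Ps w s + Er w s) := by
  have h1 := (summ_w hw hs).hasSum
  have h2 := (er_summ hw (s := s) (by linarith)).hasSum
  have h3 := h1.add h2
  refine h3.congr_fun fun v => ?_
  ring

/-- PROOF. `|Lc| = exp (re (Ps + Er))` (`exp_eq`, `Complex.norm_exp`), `Ps + Er` = the sum of the `-log (1 - z v)` (`summ_w`, `er_summ`); the combination `3 re(..) + 4 re(..) + re(..)` is nonnegative for each `v`: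
if `pr h v ≠ 0` by `c5_comb` with `a = Nv^(-σ)`, `z = pr h v Nv^(-it)`, otherwise only the first term (`-log (1 - a) ≥ 0`) remains. Here `o` is the function with value 1 at every nonzero ideal. -/
theorem c5_prod {o h h2 : Ideal (𝓞 K) →*₀ ℂ} (ho : ∀ v : Pr K, pr o v = 1) (hoo : ∀ a, ‖o a‖ ≤ 1) (hh : ∀ a, ‖h a‖ ≤ 1) (hh2 : ∀ a, ‖h2 a‖ ≤ 1)
    (h01 : ∀ v : Pr K, pr h v = 0 ∨ ‖pr h v‖ = 1) (hsq : ∀ v : Pr K, pr h2 v = pr h v ^ 2) (t : ℝ) {σ : ℝ} (hσ : 1 < σ) :
    1 ≤ ‖CFTY.Lc o σ‖ ^ 3 * ‖CFTY.Lc h (σ + t * I)‖ ^ 4 * ‖CFTY.Lc h2 (σ + 2 * t * I)‖ := by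
  have r0 : 1 < ((σ : ℝ) : ℂ).re := by simpa using hσ
  have r1 : 1 < (σ + t * I : ℂ).re := by simpa using hσ
  have r2 : 1 < (σ + 2 * t * I : ℂ).re := by simpa using hσ
  have s0 := hasSum_re (c5_sum (w := pr o) (fun v => hoo _) r0)
  have s1 := hasSum_re (c5_sum (w := pr h) (fun v => hh _) r1)
  have s2 := hasSum_re (c5_sum (w := pr h2) (fun v => hh2 _) r2)
  have s3 := ((s0.mul_left 3).add (s1.mul_left 4)).add s2
  have hpos := s3.nonneg (g := _) fun v => by
    have hN : 2 ≤ Nm v := CFTZ.dd_two_le v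
    have hN0 : (0 : ℝ) < (Nm v : ℝ) := by
      have : 0 < Nm v := by omega
      exact_mod_cast this
    have hN1 : (1 : ℝ) < (Nm v : ℝ) := by
      have : 1 < Nm v := by omega
      exact_mod_cast this
    have hNc : (Nm v : ℂ) ≠ 0 := by
      have : Nm v ≠ 0 := by omega
      exact_mod_cast this
    obtain ⟨a, ha⟩ : ∃ a : ℝ, a = (Nm v : ℝ) ^ (-σ) := ⟨_, rfl⟩
    have ha0 : 0 ≤ a := by
      rw [ha]
      positivity
    have ha1 : a < 1 := by
      rw [ha]
      exact Real.rpow_lt_one_of_one_lt_of_neg hN1 (by linarith)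
    have hac : (Nm v : ℂ) ^ (-(σ : ℂ)) = (a : ℂ) := by
      rw [ha, Complex.ofReal_cpow hN0.le]
      push_cast
      rfl
    have e0 : pr o v * (Nm v : ℂ) ^ (-((σ : ℝ) : ℂ)) = a := by
      rw [ho, one_mul, hac]
    have e1 : pr h v * (Nm v : ℂ) ^ (-(σ + t * I : ℂ)) = a * (pr h v * (Nm v : ℂ) ^ (-(t * I : ℂ))) := by
      rw [neg_add, Complex.cpow_add _ _ hNc, hac]
      ring
    have e2 : pr h2 v * (Nm v : ℂ) ^ (-(σ + 2 * t * I : ℂ)) = a * (pr h v * (Nm v : ℂ) ^ (-(t * I : ℂ))) ^ 2 := by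
      rw [neg_add, Complex.cpow_add _ _ hNc, hac, hsq, mul_pow, ← Complex.cpow_nat_mul]
      have e3 : -(2 * t * I : ℂ) = ((2 : ℕ) : ℂ) * -(t * I : ℂ) := by
        push_cast
        ring
      rw [e3]
      ring
    show 0 ≤ 3 * (-log (1 - pr o v * (Nm v : ℂ) ^ (-((σ : ℝ) : ℂ)))).re + 4 * (-log (1 - pr h v * (Nm v : ℂ) ^ (-(σ + t * I : ℂ)))).re +
      (-log (1 - pr h2 v * (Nm v : ℂ) ^ (-(σ + 2 * t * I : ℂ)))).re
    rw [e0, e1, e2]
    rcases h01 v with hv | hv
    · rw [hv]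
      simp only [zero_mul, mul_zero, sub_zero, Complex.log_one, neg_zero, Complex.zero_re, add_zero, ne_eq, OfNat.ofNat_ne_zero,
        not_false_eq_true, zero_pow]
      have h4 : (-log (1 - (a : ℂ))).re = -Real.log (1 - a) := by
        rw [← Complex.ofReal_one, ← Complex.ofReal_sub, Complex.neg_re, Complex.log_re, Complex.norm_real,
          Real.norm_of_nonneg (by linarith)]
      rw [h4]
      have h5 := Real.log_nonpos (x := 1 - a) (by linarith) (by linarith)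
      linarith
    · refine c5_comb ha0 ha1 ?_
      rw [norm_mul, hv, one_mul, Complex.norm_natCast_cpow_of_pos (by omega)]
      simp
  rw [← exp_eq o hoo r0, ← exp_eq h hh r1, ← exp_eq h2 hh2 r2, Complex.norm_exp, Complex.norm_exp, Complex.norm_exp,
    ← Real.exp_nat_mul, ← Real.exp_nat_mul, ← Real.exp_add, ← Real.exp_add]
  rw [Real.one_le_exp_iff]
  push_cast
  exact hpos

/-- PROOF. If `H (1 + i t) = 0` then `|Lc h (σ + i t)| = |H (σ + i t)| <= C' (σ - 1)` for `σ > 1` near 1 (`HasDerivAt.isBigO_sub` or the definition of the derivative), `|Lc o σ| <= C'' / (σ - 1)` (`hp`), so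
the product in `c5_prod` is `<= C''^3 C'^4 C (σ - 1)` and tends to 0: contradiction. -/
theorem nv {o h h2 : Ideal (𝓞 K) →*₀ ℂ} (ho : ∀ v : Pr K, pr o v = 1) (hoo : ∀ a, ‖o a‖ ≤ 1) (hh : ∀ a, ‖h a‖ ≤ 1) (hh2 : ∀ a, ‖h2 a‖ ≤ 1)
    (h01 : ∀ v : Pr K, pr h v = 0 ∨ ‖pr h v‖ = 1) (hsq : ∀ v : Pr K, pr h2 v = pr h v ^ 2) (t : ℝ)
    {B : ℝ} (hp : ∀ σ : ℝ, 1 < σ → σ ≤ 2 → (σ - 1) * ‖CFTY.Lc o σ‖ ≤ B)
    {H : ℂ → ℂ} (hH : DifferentiableAt ℂ H (1 + t * I)) (hL : ∀ s : ℂ, 1 < s.re → H s = CFTY.Lc h s)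
    {C : ℝ} (hb : ∀ σ : ℝ, 1 < σ → σ ≤ 2 → ‖CFTY.Lc h2 (σ + 2 * t * I)‖ ≤ C) : H (1 + t * I) ≠ 0 := by
  intro h0
  obtain ⟨c, hc⟩ := hH.isBigO_sub.bound
  rw [h0] at hc
  simp only [sub_zero] at hc
  have hlim : Filter.Tendsto (fun σ : ℝ => (σ + t * I : ℂ)) (nhdsWithin 1 (Set.Ioi 1)) (nhds (1 + t * I)) := by
    have h4 : Continuous fun σ : ℝ => (σ + t * I : ℂ) := by fun_prop
    have h5 := (h4.tendsto 1).mono_left (nhdsWithin_le_nhds (s := Set.Ioi (1 : ℝ)))
    rwa [Complex.ofReal_one] at h5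
  have hev := hlim.eventually hc
  have hB0 : 0 ≤ B := le_trans (by positivity) (hp 2 (by norm_num) le_rfl |>.trans' (by norm_num : (0 : ℝ) ≤ (2 - 1) * ‖CFTY.Lc o ((2 : ℝ) : ℂ)‖))
  have hC0 : 0 ≤ C := (norm_nonneg _).trans (hb 2 (by norm_num) le_rfl)
  have hlim2 : Filter.Tendsto (fun σ : ℝ => B ^ 3 * |c| ^ 4 * C * (σ - 1)) (nhdsWithin 1 (Set.Ioi 1)) (nhds 0) := by
    have h4 : Continuous fun σ : ℝ => B ^ 3 * |c| ^ 4 * C * (σ - 1) := by fun_prop
    have h5 := (h4.tendsto 1).mono_left (nhdsWithin_le_nhds (s := Set.Ioi (1 : ℝ)))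
    rwa [sub_self, mul_zero] at h5
  have h6 : (1 : ℝ) ≤ 0 := by
    refine ge_of_tendsto hlim2 ?_
    filter_upwards [hev, Ioc_mem_nhdsGT (show (1 : ℝ) < 2 by norm_num)] with σ h1 hσ
    have r1 : 1 < (σ + t * I : ℂ).re := by simpa using hσ.1
    rw [hL _ r1] at h1
    have hn : ‖(σ + t * I : ℂ) - (1 + t * I)‖ = σ - 1 := by
      rw [show (σ + t * I : ℂ) - (1 + t * I) = ((σ - 1 : ℝ) : ℂ) by push_cast; ring, Complex.norm_real,
        Real.norm_of_nonneg (by linarith [hσ.1])]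
    rw [hn] at h1
    have hs0 : 0 < σ - 1 := by linarith [hσ.1]
    have h2' : ‖CFTY.Lc h (σ + t * I)‖ ≤ |c| * (σ - 1) := h1.trans (mul_le_mul_of_nonneg_right (le_abs_self c) hs0.le)
    have h3 := c5_prod ho hoo hh hh2 h01 hsq t hσ.1
    have h4 := hb σ hσ.1 hσ.2
    have h5 := hp σ hσ.1 hσ.2
    have h7 : ((σ - 1) * ‖CFTY.Lc o σ‖) ^ 3 ≤ B ^ 3 := pow_le_pow_left₀ (by positivity) h5 3
    calc (1 : ℝ) ≤ ‖CFTY.Lc o σ‖ ^ 3 * ‖CFTY.Lc h (σ + t * I)‖ ^ 4 * ‖CFTY.Lc h2 (σ + 2 * t * I)‖ := h3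
      _ ≤ ‖CFTY.Lc o σ‖ ^ 3 * (|c| * (σ - 1)) ^ 4 * C := by gcongr
      _ = ((σ - 1) * ‖CFTY.Lc o σ‖) ^ 3 * (|c| ^ 4 * C * (σ - 1)) := by ring
      _ ≤ B ^ 3 * (|c| ^ 4 * C * (σ - 1)) := mul_le_mul_of_nonneg_right h7 (by positivity)
      _ = B ^ 3 * |c| ^ 4 * C * (σ - 1) := by ring
  linarith

end CFTC
end

-- from Lib.CFT.Y20
section

/-! # CFT module Y, chunk Y20: comparison of two ideals -/

open NumberField

namespace CFTY

variable {K : Type} [Field K] [NumberField K]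

open Classical in
/-- PROOF. `J = m * (b * c)`; the weights `a₁`, `a₂` of `Y19.weight` for `d = b * c` and `d = c`; `a = N b a₁ - a₂` has sum 0 (`absNorm` is multiplicative and not 0).
`periodic`; the two sums over `𝓞 K` are summable (`fs_summable`, coefficients 0 or 1), so the sum of the differences is the difference of the sums. -/
theorem compare {g : K → ℂ} {A : ℝ} (hB : Bd g) (hL : LL g) (hA : ∀ x, g x ≠ 0 → Rg A x) {m b c : Ideal (𝓞 K)}
    (hm : m ≠ ⊥) (hb : b ≠ ⊥) (hc : c ≠ ⊥) (hbm : IsCoprime b m) (hcm : IsCoprime c m) :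
    ∃ H : ℂ → ℂ, DifferentiableOn ℂ H (HP K) ∧ ∀ s : ℂ, 1 < s.re → H s =
      (Ideal.absNorm b : ℂ) * (∑' x : 𝓞 K, if x - 1 ∈ m ∧ x ∈ b * c then Fs g s (x : K) else 0) -
        ∑' x : 𝓞 K, if x - 1 ∈ m ∧ x ∈ c then Fs g s (x : K) else 0 := by
  have hbc : IsCoprime (b * c) m := hbm.mul_left hcm
  have hJ : m * (b * c) ≠ ⊥ := mul_ne_zero hm (mul_ne_zero hb hc)
  have hle2 : m * (b * c) ≤ m * c := Ideal.mul_mono_right Ideal.mul_le_right
  obtain ⟨a₁, h11, h12⟩ := weight hJ hbc le_rfl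
  obtain ⟨a₂, h21, h22⟩ := weight hJ hcm hle2
  haveI : Finite (𝓞 K ⧸ m * (b * c)) := Ideal.finiteQuotientOfFreeOfNeBot _ hJ
  haveI : Fintype (𝓞 K ⧸ m * (b * c)) := Fintype.ofFinite _
  have hN : ∀ I : Ideal (𝓞 K), I ≠ ⊥ → (Ideal.absNorm I : ℂ) ≠ 0 := fun I hI => Nat.cast_ne_zero.2 (mt Ideal.absNorm_eq_zero_iff.1 hI)
  have ha1 : ∑ᶠ q, a₁ q = 1 := mul_right_cancel₀ (hN _ hJ) (by rw [h12, one_mul])
  have ha2 : ∑ᶠ q, a₂ q = (Ideal.absNorm b : ℂ) := by
    have hmc : m * c ≠ ⊥ := mul_ne_zero hm hc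
    refine mul_right_cancel₀ (hN _ hmc) ?_
    rw [h22, map_mul, map_mul, map_mul]
    push_cast
    ring
  have ha : ∑ᶠ q, ((Ideal.absNorm b : ℂ) * a₁ q - a₂ q) = 0 := by
    rw [finsum_eq_sum_of_fintype] at ha1 ha2 ⊢
    rw [Finset.sum_sub_distrib, ← Finset.mul_sum, ha1, ha2, mul_one, sub_self]
  obtain ⟨H, hH1, hH2⟩ := periodic hB hL hA (m * (b * c)) hJ _ ha
  refine ⟨H, hH1, fun s hs => ?_⟩
  rw [hH2 s hs]
  have hF := fs_summable hB hA hs (K := K)
  have hS : ∀ d : Ideal (𝓞 K), Summable fun x : 𝓞 K => if x - 1 ∈ m ∧ x ∈ d then Fs g s (x : K) else 0 := by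
    intro d
    refine Summable.of_norm_bounded (g := fun x : 𝓞 K => ‖Fs g s (x : K)‖) hF.norm fun x => ?_
    split_ifs
    · exact le_rfl
    · rw [norm_zero]
      exact norm_nonneg _
  rw [← tsum_mul_left, ← ((hS (b * c)).mul_left _).tsum_sub (hS c)]
  refine tsum_congr fun x => ?_
  rw [h11, h21]
  split_ifs <;> ring


end CFTY
end

-- from Lib.CFT.Y24
section

/-! # CFT module Y, chunk Y24: the multiples theorem -/

open NumberField

namespace CFTY

variable {K : Type} [Field K] [NumberField K]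

theorem y24_norm_ne {c : Ideal (𝓞 K)} (hc : c ≠ ⊥) : (Ideal.absNorm c : ℂ) ≠ 0 :=
  Nat.cast_ne_zero.2 fun h => hc (Ideal.absNorm_eq_zero_iff.1 h)

theorem y24_inv (χ : Ideal (𝓞 K) →*₀ ℂ) (s : ℂ) (c : Ideal (𝓞 K)) :
    (CFTZ.tm χ s c)⁻¹ = (χ c)⁻¹ * (Ideal.absNorm c : ℂ) ^ s := by
  unfold CFTZ.tm
  rw [mul_inv, Complex.cpow_neg, inv_inv]

theorem y24_top (χ : Ideal (𝓞 K) →*₀ ℂ) (s : ℂ) : CFTZ.tm χ s (⊤ : Ideal (𝓞 K)) = 1 := by
  unfold CFTZ.tm
  rw [Ideal.absNorm_top, Nat.cast_one, Complex.one_cpow, mul_one, ← Ideal.one_eq_top, map_one]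

/-- MAIN THEOREM (for a modulus with a system of representatives). -/
theorem multiples_aux {m : Ideal (𝓞 K)} (hm : m ≠ ⊥) {ψ : K → ℂ} (hψ : LL ψ) (hψ' : Bd ψ) {χ : Ideal (𝓞 K) →*₀ ℂ}
    (hχ : HCh m ψ χ) {T : Finset (Ideal (𝓞 K))} (hT : Reps m T) {b : Ideal (𝓞 K)} (hb : b ≠ ⊥) (hbm : IsCoprime b m) :
    ∃ H : ℂ → ℂ, DifferentiableOn ℂ H (HP K) ∧ ∀ s : ℂ, 1 < s.re →
      H s = (χ b * (Ideal.absNorm b : ℂ) ^ (1 - s) - 1) * Lc χ s := by
  classical
  obtain ⟨w, A, hA0, wB, wL, wA, wS⟩ := part_unity (K := K) m hm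
  have gB : Bd (K := K) (fun z => (if TP z then 1 else 0) * (w z : ℂ) * ψ z) := (Bd_TP.mul wB).mul hψ'
  have gL : LL (K := K) (fun z => (if TP z then 1 else 0) * (w z : ℂ) * ψ z) :=
    (LL_TP.mul wL Bd_TP wB).mul hψ (Bd_TP.mul wB) hψ'
  have gA : ∀ x : K, (if TP x then 1 else 0) * (w x : ℂ) * ψ x ≠ 0 → Rg A x := by
    intro x hx
    refine wA x fun h0 => hx ?_
    rw [h0, Complex.ofReal_zero, mul_zero, zero_mul]
  have hex : ∀ c : Ideal (𝓞 K), ∃ H : ℂ → ℂ, DifferentiableOn ℂ H (HP K) ∧ (c ∈ T → ∀ s : ℂ, 1 < s.re → H s =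
      (Ideal.absNorm b : ℂ) * (∑' x : 𝓞 K, if x - 1 ∈ m ∧ x ∈ b * c then
        Fs (fun z => (if TP z then 1 else 0) * (w z : ℂ) * ψ z) s (x : K) else 0) -
        ∑' x : 𝓞 K, if x - 1 ∈ m ∧ x ∈ c then
          Fs (fun z => (if TP z then 1 else 0) * (w z : ℂ) * ψ z) s (x : K) else 0) := by
    intro c
    by_cases hc : c ∈ T
    · obtain ⟨H, h1, h2⟩ := compare gB gL gA hm hb (hT.1 c hc).1 hbm (hT.1 c hc).2
      exact ⟨H, h1, fun _ => h2⟩
    · exact ⟨fun _ => 0, differentiableOn_const _, fun h => absurd h hc⟩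
  choose Hc hH1 hH2 using hex
  refine ⟨fun s => ∑ c ∈ T, ((χ c)⁻¹ * (Ideal.absNorm c : ℂ) ^ s) * Hc c s, ?_, fun s hs => ?_⟩
  · refine DifferentiableOn.fun_sum fun c hc => ?_
    refine DifferentiableOn.mul ?_ (hH1 c)
    refine DifferentiableOn.const_mul ?_ _
    exact (differentiable_id.const_cpow (Or.inl (y24_norm_ne (hT.1 c hc).1))).differentiableOn
  · have e1 : ∀ c ∈ T, ((χ c)⁻¹ * (Ideal.absNorm c : ℂ) ^ s) * Hc c s =
        (Ideal.absNorm b : ℂ) * ((CFTZ.tm χ s c)⁻¹ *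
          ∑' I : Ideal (𝓞 K), (if PrI m I ∧ I ≤ b * c then CFTZ.tm χ s I else 0)) -
          (CFTZ.tm χ s c)⁻¹ * ∑' I : Ideal (𝓞 K), (if PrI m I ∧ I ≤ ⊤ * c then CFTZ.tm χ s I else 0) := by
      intro c hc
      rw [hH2 c hc s hs, ← y24_inv, Ideal.top_mul, unfold_sum hχ wS gB wA (b * c) hs, unfold_sum hχ wS gB wA c hs]
      ring
    show (∑ c ∈ T, ((χ c)⁻¹ * (Ideal.absNorm c : ℂ) ^ s) * Hc c s) = _
    rw [Finset.sum_congr rfl e1, Finset.sum_sub_distrib, ← Finset.mul_sum, sum_reps hχ hT hb hs,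
      sum_reps hχ hT (b := ⊤) top_ne_bot hs, y24_top]
    have e2 : (Ideal.absNorm b : ℂ) ^ (1 - s) = (Ideal.absNorm b : ℂ) * (Ideal.absNorm b : ℂ) ^ (-s) := by
      rw [sub_eq_add_neg, Complex.cpow_add _ _ (y24_norm_ne hb), Complex.cpow_one]
    rw [e2]
    unfold CFTZ.tm
    ring

end CFTY
end

-- from Lib.CFT.Y30
section

/-! # CFT module Y, chunk Y30: Hecke L-functions -/

open NumberField IsDedekindDomain

namespace CFTY

open CFT

variable {K : Type} [Field K] [NumberField K]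

/-- multiples theorem for every modulus -/
theorem multiples (hf : ∀ (S : Finset (Pr K)) (N : ℕ), (Pray S N).FiniteIndex) {m : Ideal (𝓞 K)} (hm : m ≠ ⊥) {ψ : K → ℂ}
    (hψ : LL ψ) (hψ' : Bd ψ) {χ : Ideal (𝓞 K) →*₀ ℂ} (hχ : HCh m ψ χ) {b : Ideal (𝓞 K)} (hb : b ≠ ⊥)
    (hbm : IsCoprime b m) : ∃ H : ℂ → ℂ, DifferentiableOn ℂ H (HP K) ∧ ∀ s : ℂ, 1 < s.re →
      H s = (χ b * (Ideal.absNorm b : ℂ) ^ (1 - s) - 1) * Lc χ s := by
  obtain ⟨S, N, h1, h2⟩ := exists_mI hm
  obtain ⟨T, hT⟩ := exists_reps S N (hf S N)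
  exact multiples_aux (mI_ne S N) hψ hψ' (hχ.mono h1 h2) hT hb ((h2 b).1 hbm)

/-- the ideals generated by 1 + k M -/
theorem y30_ideal {m : Ideal (𝓞 K)} {n : (K →+* ℂ) → ℤ} {χ : Ideal (𝓞 K) →*₀ ℂ} (hχ : HCh m (typ n) χ) (k : ℕ) :
    (Ideal.span {((1 + k * Ideal.absNorm m : ℕ) : 𝓞 K)}) ≠ ⊥ ∧
      IsCoprime (Ideal.span {((1 + k * Ideal.absNorm m : ℕ) : 𝓞 K)}) m ∧
      χ (Ideal.span {((1 + k * Ideal.absNorm m : ℕ) : 𝓞 K)}) = 1 ∧
      Ideal.absNorm (Ideal.span {((1 + k * Ideal.absNorm m : ℕ) : 𝓞 K)}) = (1 + k * Ideal.absNorm m) ^ dg K := by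
  have hM : ((Ideal.absNorm m : ℕ) : 𝓞 K) ∈ m := Ideal.absNorm_mem m
  have h1 : (((1 + k * Ideal.absNorm m : ℕ) : 𝓞 K)) - 1 ∈ m := by
    have e : (((1 + k * Ideal.absNorm m : ℕ) : 𝓞 K)) - 1 = (k : 𝓞 K) * ((Ideal.absNorm m : ℕ) : 𝓞 K) := by
      push_cast
      ring
    rw [e]
    exact m.mul_mem_left _ hM
  have hpos : 0 < 1 + k * Ideal.absNorm m := by omega
  have hcast : (((1 + k * Ideal.absNorm m : ℕ) : 𝓞 K) : K) = ((1 + k * Ideal.absNorm m : ℕ) : K) := map_natCast _ _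
  have hne : ((1 + k * Ideal.absNorm m : ℕ) : 𝓞 K) ≠ 0 := Nat.cast_ne_zero.2 hpos.ne'
  have hTP : TP ((((1 + k * Ideal.absNorm m : ℕ) : 𝓞 K)) : K) := by
    rw [hcast]
    refine ⟨Nat.cast_ne_zero.2 hpos.ne', fun φ => ?_⟩
    rw [map_natCast]
    exact Nat.cast_pos.2 hpos
  refine ⟨fun h => hne (Ideal.span_singleton_eq_bot.1 h), ?_, ?_, ?_⟩
  · rw [Ideal.isCoprime_iff_exists]
    refine ⟨((1 + k * Ideal.absNorm m : ℕ) : 𝓞 K), Ideal.mem_span_singleton_self _,
      1 - ((1 + k * Ideal.absNorm m : ℕ) : 𝓞 K), ?_, by ring⟩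
    have e : 1 - ((1 + k * Ideal.absNorm m : ℕ) : 𝓞 K) = -(((1 + k * Ideal.absNorm m : ℕ) : 𝓞 K) - 1) := by ring
    rw [e]
    exact m.neg_mem h1
  · rw [hχ.ray _ h1 hTP, hcast]
    exact typ_nat n _ hpos
  · rw [Ideal.absNorm_span_singleton, ← map_natCast (algebraMap ℤ (𝓞 K)), Algebra.norm_algebraMap, Int.natAbs_pow]
    unfold dg
    rw [RingOfIntegers.rank]
    rfl

theorem y30_pow (x d : ℕ) (z : ℂ) : ((x ^ d : ℕ) : ℂ) ^ z = ((x : ℂ) ^ z) ^ d := by
  induction d with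
  | zero => rw [pow_zero, pow_zero, Nat.cast_one, Complex.one_cpow]
  | succ d ih =>
    rw [pow_succ, pow_succ, Nat.cast_mul, Complex.natCast_mul_natCast_cpow, ih]

/-- the exceptional case -/
theorem excep {m : Ideal (𝓞 K)} (hm : m ≠ ⊥) {n : (K →+* ℂ) → ℤ} {χ : Ideal (𝓞 K) →*₀ ℂ} (hχ : HCh m (typ n) χ) {s : ℂ}
    (h : ∀ b : Ideal (𝓞 K), b ≠ ⊥ → IsCoprime b m → χ b * (Ideal.absNorm b : ℂ) ^ (1 - s) = 1) : s = 1 := by
  have hM1 : 1 ≤ Ideal.absNorm m := Nat.one_le_iff_ne_zero.2 fun h0 => hm (Ideal.absNorm_eq_zero_iff.1 h0)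
  have h1 : ∀ k : ℕ, ((1 + k * Ideal.absNorm m : ℕ) : ℂ) ^ ((dg K : ℂ) * (1 - s)) = 1 := by
    intro k
    obtain ⟨h2, h3, h4, h5⟩ := y30_ideal hχ k
    have h6 := h _ h2 h3
    rw [h4, one_mul, h5] at h6
    rw [Complex.cpow_nat_mul, ← y30_pow]
    exact h6
  have h2 := cpow_eq_one hM1 h1
  have h3 : (dg K : ℂ) ≠ 0 := Nat.cast_ne_zero.2 (by have := dg_pos (K := K); omega)
  have h4 : 1 - s = 0 := by
    rcases mul_eq_zero.1 h2 with h | h
    · exact absurd h h3
    · exact h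
  exact (sub_eq_zero.1 h4).symm

end CFTY
end

-- from Lib.CFT.Y32
section

/-! # CFT module Y, chunk Y32: bounded L-series of ray class characters (Z0) -/

open NumberField IsDedekindDomain

namespace CFTY

open CFT

variable {K : Type} [Field K] [NumberField K]

/-- Z0. PROOF. `hch_of` with `ψ = 1` (`hχ`, `dv_mem_Pray`), `multiples` with `b = v.asIdeal` for a prime `v ∉ S` with `cphi χ v ≠ 1` (it exists: otherwise
`χ = 0`, because `χ` vanishes on the divisors supported on `S` (`supp_mem_Pray`); `CFTZ.chi_ext`), `y31_bdd`; `Ls (chI S χ) s = Lc (chI S χ) s` by definition. -/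
theorem z0_bdd (hf : ∀ (S : Finset (Pr K)) (N : ℕ), (Pray S N).FiniteIndex) (S : Finset (Pr K)) (N : ℕ) (χ : Dv K →+ Additive ℂˣ) (hχ : ∀ D ∈ Pray S N, χ D = 0)
    (hn : ∀ v, ‖(CFTZ.cphi χ v : ℂ)‖ = 1) (h1 : χ ≠ 0) :
    ∃ C : ℝ, ∀ s ∈ Set.Ioc (1 : ℝ) 2, ‖CFTZ.Ls (CFTZ.chI S χ) s‖ ≤ C := by
  have hc : HCh (mI S N) (fun _ => (1 : ℂ)) (CFTZ.chI S χ) := hch_of χ hn fun x hx => by
    rw [hχ _ (dv_mem_Pray hx), toMul_zero, Units.val_one]
  obtain ⟨v, hv⟩ : ∃ v : Pr K, CFTZ.cphi χ v ≠ 1 := by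
    by_contra hcon
    push Not at hcon
    apply h1
    apply CFTZ.chi_ext
    intro v
    rw [hcon v]
    rfl
  have hvS : v ∉ S := by
    intro h
    apply hv
    have h2 : χ (Finsupp.single v 1) = 0 := by
      refine hχ _ (supp_mem_Pray N fun w hw => ?_)
      refine Finsupp.single_eq_of_ne ?_
      rintro rfl
      exact hw h
    unfold CFTZ.cphi
    rw [h2, toMul_zero]
  have hcop : IsCoprime v.asIdeal (mI S N) := by
    rw [cop_mI]
    intro w hw hle
    have h3 := v.isMaximal.eq_of_le w.isPrime.ne_top hle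
    have h4 : v = w := HeightOneSpectrum.ext h3
    rw [h4] at hvS
    exact hvS hw
  have hLL : LL (K := K) (fun _ => (1 : ℂ)) := by
    refine ⟨0, le_rfl, fun δ x y _ _ _ _ => ?_⟩
    simp
  have hBd : Bd (K := K) (fun _ => (1 : ℂ)) := ⟨1, zero_le_one, fun x => by simp⟩
  obtain ⟨H, hH, hHe⟩ := multiples hf (mI_ne S N) hLL hBd hc v.ne_bot hcop
  have hU : ∀ s : ℝ, 1 ≤ s → (s : ℂ) ∈ HP K := by
    intro s hs
    show 1 - 1 / (dg K : ℝ) < ((s : ℂ)).re
    have h5 : 0 < (dg K : ℝ) := by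
      have : 0 < Module.finrank ℚ K := Module.finrank_pos
      exact_mod_cast this
    have h6 : 0 < 1 / (dg K : ℝ) := by positivity
    rw [Complex.ofReal_re]
    linarith
  have hz1 : (CFTZ.cphi χ v : ℂ) ≠ 1 := fun h => hv (Units.ext h)
  have hN : 1 < Ideal.absNorm v.asIdeal := CFTZ.dd_two_le v
  obtain ⟨C, hC⟩ := y31_bdd (L := fun s => Lc (CFTZ.chI S χ) s) hH hU (hn v) hz1 hN fun s hs => by
    have h7 := hHe (s : ℂ) (by rw [Complex.ofReal_re]; exact hs)
    rw [CFTZ.chI_prime S χ hvS] at h7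
    exact h7
  exact ⟨C, fun s hs => hC s hs⟩

end CFTY
end

-- from Lib.H69H.E2
section

set_option autoImplicit false
set_option linter.unusedSectionVars false

namespace Pool.Agent.H69H

open NumberField IsDedekindDomain CFT

variable {K : Type} [Field K] [NumberField K] {L : Type} [Field L] [NumberField L] [Algebra K L]

theorem MT_stable (σ : L ≃ₐ[K] L) (T : Finset (Pr K)) : ∀ D ∈ MT L T, sM σ D ∈ MT L T := by
  intro D hD w hw
  refine hD _ ?_
  show below K (gp σ⁻¹ w) ∉ T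
  rw [below_gp]
  exact hw

theorem UL_stable (σ : L ≃ₐ[K] L) : ∀ x ∈ UL L, sU σ x ∈ UL L := by
  intro x hx
  have h : dvU L x = 1 := hx
  show dvU L (sU σ x) = 1
  rw [dvU_sU, h, map_one]

theorem ET_stable {σ : L ≃ₐ[K] L} {S T : Finset (Pr K)} {V : Subgroup Lˣ} (hV : IsV σ S V) :
    ∀ x ∈ ET V T, sU σ x ∈ ET V T := by
  intro x hx
  refine ⟨hV.stable x hx.1, ?_⟩
  have h : dvU L (sU σ x) ∈ MT L T := by
    rw [dvU_sU]
    exact MT_stable σ T _ hx.2
  exact h

variable [IsGalois K L] {σ : L ≃ₐ[K] L} (hσ : ∀ x, x ∈ Subgroup.zpowers σ) {S T : Finset (Pr K)} {V : Subgroup Lˣ} {N : ℕ}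

include hσ in
/-- The Herbrand quotient of `ET V T`. -/
theorem her_ET (hS : ∀ v, v ∉ S → Unr K L v) (hV : IsV σ S V) (hT : IsT σ S V N T) :
    ∃ t : ℚ, Her (dif (sU σ)) (nrm (Module.finrank K L) (sU σ)) ⊥ (ET V T) t ∧
      t ≤ 2 ^ (RamInf K L).card / Module.finrank K L * ((DTL L T).map (Nd K L)).relIndex (DTK T) := by
  have hU : ∀ v ∈ T, Unr K L v := fun v hv => hS v (hT.disj v hv)
  obtain ⟨t, ht, htle⟩ := her_units σ hσ
  obtain ⟨t', ht', htle', _⟩ := her_MT σ hσ T hU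
  have hp : IsPair (dif (sU σ)) (nrm (Module.finrank K L) (sU σ)) := isPair_dif_nrm _ (sU_iter σ)
  have hpM : IsPair (dif (sM σ)) (nrm (Module.finrank K L) (sM σ)) := isPair_dif_nrm _ (sM_iter σ)
  have sB : IsStable (dif (sU σ)) (nrm (Module.finrank K L) (sU σ)) (⊥ : Subgroup Lˣ) :=
    isStable_of _ _ (fun x hx => by
      rw [Subgroup.mem_bot] at hx ⊢
      rw [hx, map_one])
  have sBM : IsStable (dif (sM σ)) (nrm (Module.finrank K L) (sM σ)) (⊥ : Subgroup (Multiplicative (Dv L))) :=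
    isStable_of _ _ (fun x hx => by
      rw [Subgroup.mem_bot] at hx ⊢
      rw [hx, map_one])
  have sUL := isStable_of (sU σ) (Module.finrank K L) (UL_stable σ)
  have sE0 := isStable_of (sU σ) (Module.finrank K L) (A := V ⊓ UL L) (fun x hx => ⟨hV.stable x hx.1, UL_stable σ x hx.2⟩)
  have sET := isStable_of (sU σ) (Module.finrank K L) (ET_stable (T := T) hV)
  have sMT := isStable_of (sM σ) (Module.finrank K L) (MT_stable σ T)
  have sIm := isStable_of (sM σ) (Module.finrank K L) (A := (ET V T).map (dvU L)) (by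
    rintro _ ⟨x, hx, rfl⟩
    exact ⟨sU σ x, ET_stable hV x hx, dvU_sU σ x⟩)
  have hE0U : V ⊓ UL L ≤ UL L := inf_le_right
  have hE0T : V ⊓ UL L ≤ ET V T := by
    intro x hx
    refine ⟨hx.1, ?_⟩
    have h : dvU L x = 1 := hx.2
    show dvU L x ∈ MT L T
    rw [h]
    exact one_mem _
  have hImT : (ET V T).map (dvU L) ≤ MT L T := by
    rintro _ ⟨x, hx, rfl⟩
    exact hx.2
  have hker : ET V T ⊓ (dvU L).ker ≤ V ⊓ UL L := fun x hx => ⟨hx.1.1, hx.2⟩
  have h1 : Her (dif (sU σ)) (nrm (Module.finrank K L) (sU σ)) ⊥ (V ⊓ UL L) (t / 1) :=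
    her_low hp sB sE0 sUL bot_le hE0U ht (her_finite hp sE0 sUL hE0U (E0_index hV))
  have h2 : Her (dif (sM σ)) (nrm (Module.finrank K L) (sM σ)) ⊥ ((ET V T).map (dvU L)) (t' / 1) :=
    her_low hpM sBM sIm sMT bot_le hImT ht' (her_finite hpM sIm sMT hImT (ET_index hV hT))
  have hbot : (V ⊓ UL L).map (dvU L) = ⊥ := by
    rw [eq_bot_iff]
    rintro _ ⟨x, hx, rfl⟩
    exact hx.2
  have ef : ∀ x, dvU L (dif (sU σ) x) = dif (sM σ) (dvU L x) := fun x => by
    rw [dif_apply, dif_apply, map_div, dvU_sU]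
  have hit : ∀ (i : ℕ) (x : Lˣ), dvU L ((sU σ)^[i] x) = (sM σ)^[i] (dvU L x) := by
    intro i
    induction i with
    | zero => intro x; rfl
    | succ i ih =>
      intro x
      rw [Function.iterate_succ_apply, Function.iterate_succ_apply, ih, dvU_sU]
  have eg : ∀ x, dvU L (nrm (Module.finrank K L) (sU σ) x) = nrm (Module.finrank K L) (sM σ) (dvU L x) := fun x => by
    rw [nrm_apply, nrm_apply, map_prod]
    exact Finset.prod_congr rfl fun i _ => hit i x
  have h3 : Her (dif (sU σ)) (nrm (Module.finrank K L) (sU σ)) (V ⊓ UL L) (ET V T) (t' / 1) := by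
    have a1 := tate_map (dvU L) ef eg hp hE0T sE0 sET hker
    have a2 := tate_map (dvU L) eg ef hp.symm hE0T sE0.symm sET.symm hker
    rw [hbot] at a1 a2
    exact ⟨by rw [a1]; exact h2.left, by rw [a2]; exact h2.right, by rw [a1, a2]; exact h2.eq⟩
  have h4 := her_mid hp sB sE0 sET bot_le hE0T h1 h3
  refine ⟨_, h4, ?_⟩
  rw [div_one, div_one]
  exact mul_le_mul htle htle' ht'.pos.le (by positivity)

end Pool.Agent.H69H
end

-- from Lib.H69H.F1
section

set_option autoImplicit false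
set_option linter.unusedSectionVars false

/-! The first inequality. -/

namespace Pool.Agent.H69H

open NumberField IsDedekindDomain CFT

variable {K : Type} [Field K] [NumberField K] {L : Type} [Field L] [NumberField L] [Algebra K L]

theorem final_arith {D0 a r I n : ℕ} {t : ℚ} (hn : 0 < n) (hD0 : D0 ≠ 0) (h1 : D0 ≤ I * a)
    (h2 : ((a * 2 ^ r : ℕ) : ℚ) = t) (h3 : t ≤ 2 ^ r / n * D0) : n ≤ I := by
  have hD : (0 : ℚ) < D0 := by exact_mod_cast Nat.pos_of_ne_zero hD0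
  have hn' : (0 : ℚ) < n := by exact_mod_cast hn
  have h2r : (0 : ℚ) < 2 ^ r := by positivity
  have h4 : (a : ℚ) ≤ D0 / n := by
    have : (a : ℚ) * 2 ^ r ≤ 2 ^ r / n * D0 := by
      rw [← h2] at h3
      push_cast at h3
      exact h3
    have e : (2 : ℚ) ^ r / n * D0 = D0 / n * 2 ^ r := by ring
    rw [e] at this
    exact le_of_mul_le_mul_right this h2r
  have h5 : (D0 : ℚ) ≤ I * (D0 / n) := by
    have : (D0 : ℚ) ≤ I * a := by exact_mod_cast h1
    exact this.trans (mul_le_mul_of_nonneg_left h4 (by positivity))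
  have h6 : (n : ℚ) ≤ I := by
    have e : (I : ℚ) * (D0 / n) = I * D0 / n := by ring
    rw [e, le_div_iff₀ hn', mul_comm (D0 : ℚ)] at h5
    exact le_of_mul_le_mul_right h5 hD
  exact_mod_cast h6

theorem QQ_relIndex_le [IsGalois K L] {σ : L ≃ₐ[K] L} (hσ : ∀ x, x ∈ Subgroup.zpowers σ) {S T : Finset (Pr K)} {V : Subgroup Lˣ}
    {N : ℕ} (hV : IsV σ S V) (hT : IsT σ S V N T) :
    (QQ (L := L) V T).relIndex (DTK T) ≤ (Pray S N ⊔ (Nd K L).range).index := by
  -- the index of `P`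
  set P := Pray S N ⊔ (Nd K L).range with hPdef
  have hP0 : P.index ≠ 0 := by
    intro h0
    have := AddSubgroup.index_dvd_of_le (show Pray S N ≤ P from le_sup_left)
    rw [h0, zero_dvd_iff] at this
    exact Pray_index S N this
  have htop : P ⊔ DTK T = ⊤ := by
    rw [eq_top_iff]
    intro D _
    obtain ⟨E, hE, hD⟩ := hT.a D
    have e : D = (D - E) + E := by abel
    rw [e]
    exact AddSubgroup.add_mem_sup (le_sup_left (a := Pray S N) hD) hE
  have h1 : P.relIndex (DTK T) = P.index := by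
    rw [← AddSubgroup.relIndex_sup_right, sup_comm, htop, AddSubgroup.relIndex_top_right]
  have h2 : (P ⊓ DTK T).relIndex (DTK T) = P.index := by
    rw [AddSubgroup.inf_relIndex_right, h1]
  rw [← h2]
  exact AddSubgroup.relIndex_le_of_le_left (inter_le_QQ hσ hV hT) (by rw [h2]; exact hP0)

theorem first_ineq' [IsGalois K L] (σ : L ≃ₐ[K] L) (hσ : ∀ x, x ∈ Subgroup.zpowers σ) (S : Finset (Pr K))
    (hS : ∀ v, v ∉ S → Unr K L v) :
    ∃ N : ℕ, Module.finrank K L ≤ (Pray S N ⊔ (Nd K L).range).index := by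
  obtain ⟨V, hV⟩ := exists_V σ hσ S
  obtain ⟨N, T, hT⟩ := exists_T hV
  refine ⟨N, ?_⟩
  have hU : ∀ v ∈ T, Unr K L v := fun v hv => hS v (hT.disj v hv)
  obtain ⟨t, hE, ht⟩ := her_ET hσ hS hV hT
  have hm1 := tate_ET hσ hS hV hT
  obtain ⟨hP1, hP2⟩ := PP_index hσ hV hT
  have hE0 := hE.left
  have hE1 := hE.eq
  rw [hm1, Nat.cast_one, mul_one, ← hP2] at hE1
  have ha : ((ET V T).map (nrm (Module.finrank K L) (sU σ))).relIndex (PP V T) ≠ 0 := by
    intro h0
    rw [← hP2, h0, zero_mul] at hE0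
    exact hE0 rfl
  have hQ := QQ_index hσ hV hT ha
  obtain ⟨_, _, _, hD0⟩ := her_MT σ hσ T hU
  have hn : 0 < Module.finrank K L := Module.finrank_pos
  have hI := final_arith hn hD0 hQ hE1 ht
  exact hI.trans (QQ_relIndex_le hσ hV hT)

/-- THE FIRST INEQUALITY. -/
theorem first_ineq [IsGalois K L] (hc : IsCyclic (L ≃ₐ[K] L)) (S : Finset (Pr K)) (hS : ∀ v : Pr K, ¬ Unr K L v → v ∈ S) :
    ∃ N : ℕ, Module.finrank K L ≤ (Pray S N ⊔ (Nd K L).range).index := by
  obtain ⟨σ, hσ⟩ := hc.exists_generator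
  exact first_ineq' σ hσ S fun v hv => by
    by_contra h
    exact hv (hS v h)

end Pool.Agent.H69H
end

-- from Lib.CFT.Core1
section

/-! # CFT: the theorems T0 - T4 (finiteness of the ray class group, the two inequalities, Frobenius elements generate, cyclotomic reciprocity)

The statements are those of Targets.lean (same names); files which are part of the proof or of a hand-in import Core1 (T0 - T4), Core2 (crossing) or Core
(everything), never Targets. -/

open NumberField IsDedekindDomain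

namespace CFT

variable (K : Type) [Field K] [NumberField K] (L : Type) [Field L] [NumberField L] [Algebra K L]

/-- Z1. The ray class group is finite. -/
theorem pray_fin (S : Finset (Pr K)) (N : ℕ) : (Pray S N).FiniteIndex := CFTZ.pray_fin S N

/-- T1 (Z2). The second inequality, for every Galois extension. -/
theorem second_ineq [IsGalois K L] (S : Finset (Pr K)) (N : ℕ) :
    (Pray S N ⊔ (Nd K L).range).index ≤ Module.finrank K L :=
  CFTZ.second_ineq_of (fun S N χ h1 h2 h3 => CFTY.z0_bdd (pray_fin K) S N χ h1 h2 h3) S N (pray_fin K S N)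

/-- T2 (Z3). The Frobenius elements outside a finite set generate the group (abelian extension). -/
theorem frob_gen [IsGalois K L] (hab : ∀ a b : L ≃ₐ[K] L, a * b = b * a) (S : Finset (Pr K)) :
    Subgroup.closure {s : L ≃ₐ[K] L | ∃ v : Pr K, v ∉ S ∧ Unr K L v ∧ frob K L v = s} = ⊤ := CFTZ.frob_gen K L hab S

/-- T3 (H). The first inequality, for cyclic extensions, modulus supported on any finite set containing the ramified primes. -/
theorem first_ineq [IsGalois K L] (hc : IsCyclic (L ≃ₐ[K] L)) (S : Finset (Pr K)) (hS : ∀ v : Pr K, ¬ Unr K L v → v ∈ S) :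
    ∃ N : ℕ, Module.finrank K L ≤ (Pray S N ⊔ (Nd K L).range).index := Pool.Agent.H69H.first_ineq hc S hS

/-- T4 (B). Reciprocity for cyclotomic extensions. -/
theorem cyc_rec (m : ℕ) [NeZero m] [IsCyclotomicExtension {m} K L] (S : Finset (Pr K))
    (hS : ∀ v : Pr K, (m : 𝓞 K) ∈ v.asIdeal → v ∈ S) :
    ∃ N : ℕ, ∀ (A : Type) [CommGroup A] (χ : (L ≃ₐ[K] L) →* A) (x : K), Ray S N x → art S χ (dv x) = 0 := cyc_rec' m S hS

end CFT
end

-- from Lib.CFT.Y30B
section

/-! # CFT module Y, chunk Y30B: Hecke L-functions, analytic continuation -/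

open NumberField IsDedekindDomain

namespace CFTY

open CFT

variable {K : Type} [Field K] [NumberField K]

theorem y30b_open : IsOpen (HP K) := isOpen_lt continuous_const Complex.continuous_re

theorem y30b_conn : IsPreconnected (HP K) := (convex_halfSpace_re_gt _).isPreconnected

theorem y30b_sub : {s : ℂ | 1 < s.re} ⊆ HP K := by
  intro s hs
  have h1 : (1 : ℝ) < s.re := hs
  have h2 : 0 < 1 / (dg K : ℝ) := by
    have : 1 ≤ dg K := dg_pos
    positivity
  show 1 - 1 / (dg K : ℝ) < s.re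
  linarith

theorem y30b_ne : ({s : ℂ | 1 < s.re}).Nonempty := ⟨2, by
  show (1 : ℝ) < (2 : ℂ).re
  norm_num⟩

theorem y30b_cpow {b : Ideal (𝓞 K)} (hb : b ≠ ⊥) : Differentiable ℂ fun s : ℂ => (Ideal.absNorm b : ℂ) ^ (1 - s) :=
  ((differentiable_const _).sub differentiable_id).const_cpow (Or.inl (y24_norm_ne hb))

/-- Hecke L-functions are analytic beyond the line re s = 1 -/
theorem hecke_entire (hf : ∀ (S : Finset (Pr K)) (N : ℕ), (Pray S N).FiniteIndex) {m : Ideal (𝓞 K)} (hm : m ≠ ⊥)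
    {n : (K →+* ℂ) → ℤ} {χ : Ideal (𝓞 K) →*₀ ℂ} (hχ : HCh m (typ n) χ)
    (h1 : ∃ b : Ideal (𝓞 K), b ≠ ⊥ ∧ IsCoprime b m ∧ χ b ≠ 1) :
    ∃ H : ℂ → ℂ, DifferentiableOn ℂ H (HP K) ∧ ∀ s : ℂ, 1 < s.re → H s = Lc χ s := by
  have hex : ∀ b : {b : Ideal (𝓞 K) // b ≠ ⊥ ∧ IsCoprime b m}, ∃ H : ℂ → ℂ, DifferentiableOn ℂ H (HP K) ∧
      ∀ s : ℂ, 1 < s.re → H s = (χ b.1 * (Ideal.absNorm b.1 : ℂ) ^ (1 - s) - 1) * Lc χ s := fun b =>
    multiples hf hm (LL_typ n) (Bd_typ n) hχ b.2.1 b.2.2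
  choose H hH1 hH2 using hex
  refine glue y30b_open y30b_conn (isOpen_lt continuous_const Complex.continuous_re) y30b_ne y30b_sub (Lc χ)
    (fun b : {b : Ideal (𝓞 K) // b ≠ ⊥ ∧ IsCoprime b m} => fun s => χ b.1 * (Ideal.absNorm b.1 : ℂ) ^ (1 - s) - 1)
    H (fun b => ?_) hH1 hH2 (fun z _ => ?_)
  · exact (((y30b_cpow b.2.1).const_mul _).sub_const _).differentiableOn
  · by_contra hcon
    have h2 : ∀ b : Ideal (𝓞 K), b ≠ ⊥ → IsCoprime b m → χ b * (Ideal.absNorm b : ℂ) ^ (1 - z) = 1 := by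
      intro b hb hbm
      by_contra hne
      exact hcon ⟨⟨b, hb, hbm⟩, sub_ne_zero.2 hne⟩
    have h3 := excep hm hχ h2
    obtain ⟨b, hb, hbm, hb1⟩ := h1
    have h4 := h2 b hb hbm
    rw [h3, sub_self, Complex.cpow_zero, mul_one] at h4
    exact hb1 h4

/-- the pole of the L-function of the trivial character -/
theorem hecke_pole (hf : ∀ (S : Finset (Pr K)) (N : ℕ), (Pray S N).FiniteIndex) {m : Ideal (𝓞 K)} (hm : m ≠ ⊥)
    {n : (K →+* ℂ) → ℤ} {χ : Ideal (𝓞 K) →*₀ ℂ} (hχ : HCh m (typ n) χ)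
    (h1 : ∀ b : Ideal (𝓞 K), b ≠ ⊥ → IsCoprime b m → χ b = 1) :
    ∃ H : ℂ → ℂ, DifferentiableOn ℂ H (HP K) ∧ ∀ s : ℂ, 1 < s.re → H s = (s - 1) * Lc χ s := by
  have hex : ∀ b : {b : Ideal (𝓞 K) // b ≠ ⊥ ∧ IsCoprime b m}, ∃ H : ℂ → ℂ, DifferentiableOn ℂ H (HP K) ∧
      ∀ s : ℂ, 1 < s.re → H s = (χ b.1 * (Ideal.absNorm b.1 : ℂ) ^ (1 - s) - 1) * Lc χ s := fun b =>
    multiples hf hm (LL_typ n) (Bd_typ n) hχ b.2.1 b.2.2
  choose H hH1 hH2 using hex
  have hds : ∀ (b : Ideal (𝓞 K)) (s : ℂ), (s - 1) * dslope (fun s : ℂ => (Ideal.absNorm b : ℂ) ^ (1 - s)) 1 s =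
      (Ideal.absNorm b : ℂ) ^ (1 - s) - 1 := by
    intro b s
    have h := sub_smul_dslope (fun s : ℂ => (Ideal.absNorm b : ℂ) ^ (1 - s)) 1 s
    rw [smul_eq_mul] at h
    rw [h, sub_self, Complex.cpow_zero]
  refine glue y30b_open y30b_conn (isOpen_lt continuous_const Complex.continuous_re) y30b_ne y30b_sub
    (fun s => (s - 1) * Lc χ s)
    (fun b : {b : Ideal (𝓞 K) // b ≠ ⊥ ∧ IsCoprime b m} => dslope (fun s : ℂ => (Ideal.absNorm b.1 : ℂ) ^ (1 - s)) 1)
    H (fun b => ?_) hH1 (fun b s hs => ?_) (fun z _ => ?_)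
  · refine (Complex.differentiableOn_dslope ?_).2 (y30b_cpow b.2.1).differentiableOn
    refine y30b_open.mem_nhds ?_
    have h2 : 0 < 1 / (dg K : ℝ) := by
      have : 1 ≤ dg K := dg_pos
      positivity
    show 1 - 1 / (dg K : ℝ) < (1 : ℂ).re
    rw [Complex.one_re]
    linarith
  · rw [hH2 b s hs, h1 b.1 b.2.1 b.2.2, one_mul, ← hds]
    ring
  · by_cases hz : z = 1
    · obtain ⟨h2, h3, -, h5⟩ := y30_ideal hχ 1
      refine ⟨⟨_, h2, h3⟩, ?_⟩
      rw [hz]
      show dslope (fun s : ℂ => (Ideal.absNorm (Ideal.span {((1 + 1 * Ideal.absNorm m : ℕ) : 𝓞 K)}) : ℂ) ^ (1 - s)) 1 1 ≠ 0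
      rw [dslope_same]
      have hd : HasDerivAt (fun s : ℂ => (Ideal.absNorm (Ideal.span {((1 + 1 * Ideal.absNorm m : ℕ) : 𝓞 K)}) : ℂ) ^ (1 - s))
          ((Ideal.absNorm (Ideal.span {((1 + 1 * Ideal.absNorm m : ℕ) : 𝓞 K)}) : ℂ) ^ ((1 : ℂ) - 1) *
            Complex.log (Ideal.absNorm (Ideal.span {((1 + 1 * Ideal.absNorm m : ℕ) : 𝓞 K)}) : ℂ) * (-1)) 1 :=
        ((hasDerivAt_id (1 : ℂ)).const_sub 1).const_cpow (Or.inl (y24_norm_ne h2))
      rw [hd.deriv, sub_self, Complex.cpow_zero, one_mul, h5, ← Complex.natCast_log]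
      have hM1 : 1 ≤ Ideal.absNorm m := Nat.one_le_iff_ne_zero.2 fun h0 => hm (Ideal.absNorm_eq_zero_iff.1 h0)
      have h6 : 1 < (1 + 1 * Ideal.absNorm m) ^ dg K :=
        Nat.one_lt_pow (by have := dg_pos (K := K); omega) (by omega)
      have h7 : 0 < Real.log (((1 + 1 * Ideal.absNorm m) ^ dg K : ℕ) : ℝ) := Real.log_pos (by exact_mod_cast h6)
      exact mul_ne_zero (Complex.ofReal_ne_zero.2 h7.ne') (neg_ne_zero.2 one_ne_zero)
    · by_contra hcon
      apply hz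
      refine excep hm hχ fun b hb hbm => ?_
      rw [h1 b hb hbm, one_mul]
      by_contra hne
      refine hcon ⟨⟨b, hb, hbm⟩, fun h0 => hne ?_⟩
      have h2 := hds b z
      have h3 : dslope (fun s : ℂ => (Ideal.absNorm b : ℂ) ^ (1 - s)) 1 z = 0 := h0
      rw [h3, mul_zero] at h2
      exact (sub_eq_zero.1 h2.symm)

end CFTY
end

-- from Lib.CHEB.C1
section

/-! # Chebotarev density theorem, part 1: Frobenius elements at a prime of a Galois extension, decomposition group, fibres -/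

open NumberField IsDedekindDomain
open scoped Pointwise

namespace CHEB

open CFT

variable {K : Type} [Field K] [NumberField K] {L : Type} [Field L] [NumberField L] [Algebra K L]

set_option linter.unusedSectionVars false
set_option linter.style.haveILetI false

variable (K) in
/-- `s` is a Frobenius element at the prime `W` of `L`. -/
def FrAt (W : Pr L) (s : L ≃ₐ[K] L) : Prop := ∀ x : 𝓞 L, s • x - x ^ Nm (below K W) ∈ W.asIdeal

theorem frAt_unique [IsGalois K L] {W : Pr L} (hW : Unr K L (below K W)) {s t : L ≃ₐ[K] L} (hs : FrAt K W s) (ht : FrAt K W t) :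
    s = t := by
  refine eq_of_cong W (hW W rfl) fun x => ?_
  have h := W.asIdeal.sub_mem (hs x) (ht x)
  rwa [sub_sub_sub_cancel_right] at h

theorem frAt_pow {W : Pr L} {s : L ≃ₐ[K] L} (hs : FrAt K W s) (k : ℕ) (x : 𝓞 L) :
    (s ^ k) • x - x ^ (Nm (below K W) ^ k) ∈ W.asIdeal := by
  induction k with
  | zero => simp
  | succ k ih =>
    have h1 := hs ((s ^ k) • x)
    have h2 : ((s ^ k) • x) ^ Nm (below K W) - (x ^ (Nm (below K W) ^ k)) ^ Nm (below K W) ∈ W.asIdeal :=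
      Ideal.mem_of_dvd _ (sub_dvd_pow_sub_pow _ _ _) ih
    have h3 := W.asIdeal.add_mem h1 h2
    rw [sub_add_sub_cancel, ← mul_smul, ← pow_succ', ← pow_mul, ← pow_succ] at h3
    exact h3

theorem two_le_Nm (v : Pr K) : 2 ≤ Nm v := by
  have h1 := Nm_pos v
  have h2 : Nm v ≠ 1 := fun h => v.isPrime.ne_top (Ideal.absNorm_eq_one_iff.1 h)
  omega

/-- The order of a Frobenius element at an unramified prime is the residue degree. -/
theorem order_frAt [IsGalois K L] {W : Pr L} (hW : Unr K L (below K W)) {s : L ≃ₐ[K] L} (hs : FrAt K W s) :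
    orderOf s = W.asIdeal.inertiaDeg (𝓞 K) := by
  obtain ⟨q, hqdef⟩ : ∃ q : ℕ, q = Nm (below K W) := ⟨_, rfl⟩
  have hq : 2 ≤ q := by rw [hqdef]; exact two_le_Nm _
  have hfin : Finite (𝓞 L ⧸ W.asIdeal) := b17_fin W
  have : W.asIdeal.IsMaximal := W.isMaximal
  letI : Field (𝓞 L ⧸ W.asIdeal) := Ideal.Quotient.field W.asIdeal
  letI : Fintype (𝓞 L ⧸ W.asIdeal) := Fintype.ofFinite _
  have hcard : Fintype.card (𝓞 L ⧸ W.asIdeal) = q ^ W.asIdeal.inertiaDeg (𝓞 K) := by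
    rw [hqdef, ← Nm_below W, ← Nat.card_eq_fintype_card]
    unfold Nm
    rw [Ideal.absNorm_apply, Submodule.cardQuot_apply]
  have h1 : s ^ W.asIdeal.inertiaDeg (𝓞 K) = 1 := by
    refine eq_of_cong W (hW W rfl) fun x => ?_
    have h2 := frAt_pow hs (W.asIdeal.inertiaDeg (𝓞 K)) x
    rw [← hqdef] at h2
    have h3 : x ^ (q ^ W.asIdeal.inertiaDeg (𝓞 K)) - x ∈ W.asIdeal := by
      rw [← Ideal.Quotient.eq_zero_iff_mem, map_sub, map_pow, ← hcard, FiniteField.pow_card, sub_self]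
    have h4 := W.asIdeal.add_mem h2 h3
    rw [one_smul]
    rwa [sub_add_sub_cancel] at h4
  have h2 : 0 < orderOf s := orderOf_pos _
  have h3 : ∀ x : 𝓞 L ⧸ W.asIdeal, x ^ (q ^ orderOf s) = x := by
    intro x
    obtain ⟨x, rfl⟩ := Ideal.Quotient.mk_surjective x
    have h4 := frAt_pow hs (orderOf s) x
    rw [← hqdef, pow_orderOf_eq_one, one_smul, ← Ideal.Quotient.eq_zero_iff_mem, map_sub, map_pow, sub_eq_zero] at h4
    exact h4.symm
  have h4 : 1 < q ^ orderOf s := Nat.one_lt_pow h2.ne' (by omega)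
  have h5 : Fintype.card (𝓞 L ⧸ W.asIdeal) - 1 ∣ q ^ orderOf s - 1 := by
    rw [← FiniteField.forall_pow_eq_one_iff]
    intro x
    apply Units.ext
    rw [Units.val_pow_eq_pow_val, Units.val_one]
    have h6 := h3 x.1
    have h7 : q ^ orderOf s = (q ^ orderOf s - 1) + 1 := by omega
    rw [h7, pow_succ] at h6
    exact mul_eq_right₀ x.ne_zero |>.1 h6
  have h6 := Nat.le_of_dvd (by omega) h5
  rw [hcard] at h6
  have h7 : q ^ W.asIdeal.inertiaDeg (𝓞 K) ≤ q ^ orderOf s := by omega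
  have h8 := (Nat.pow_le_pow_iff_right (by omega)).1 h7
  have h9 := Nat.le_of_dvd (f_pos (K := K) W) (orderOf_dvd_of_pow_eq_one h1)
  omega

/-! ## The action on the primes -/

/-- The prime `g W`. -/
noncomputable def act (g : L ≃ₐ[K] L) (W : Pr L) : Pr L where
  asIdeal := W.asIdeal.comap (MulSemiringAction.toRingHom (L ≃ₐ[K] L) (𝓞 L) g⁻¹)
  isPrime := by
    have := W.isPrime
    exact Ideal.comap_isPrime _ _
  ne_bot := by
    obtain ⟨x, hx, hx0⟩ := Submodule.exists_mem_ne_zero_of_ne_bot W.ne_bot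
    intro h
    have h1 : g • x ∈ W.asIdeal.comap (MulSemiringAction.toRingHom (L ≃ₐ[K] L) (𝓞 L) g⁻¹) := by
      rw [Ideal.mem_comap]
      show g⁻¹ • (g • x) ∈ W.asIdeal
      rw [inv_smul_smul]
      exact hx
    rw [h, Ideal.mem_bot] at h1
    apply hx0
    have h2 := congrArg (fun z => g⁻¹ • z) h1
    simpa using h2

theorem mem_act {g : L ≃ₐ[K] L} {W : Pr L} {x : 𝓞 L} : x ∈ (act g W).asIdeal ↔ g⁻¹ • x ∈ W.asIdeal := Iff.rfl

theorem act_ext {W W' : Pr L} (h : ∀ x : 𝓞 L, x ∈ W.asIdeal ↔ x ∈ W'.asIdeal) : W = W' := by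
  apply HeightOneSpectrum.ext
  ext x
  exact h x

theorem act_one (W : Pr L) : act (1 : L ≃ₐ[K] L) W = W := by
  apply act_ext
  intro x
  rw [mem_act, inv_one, one_smul]

theorem act_mul (g h : L ≃ₐ[K] L) (W : Pr L) : act (g * h) W = act g (act h W) := by
  apply act_ext
  intro x
  rw [mem_act, mem_act, mem_act, mul_inv_rev, mul_smul]

theorem below_act (g : L ≃ₐ[K] L) (W : Pr L) : below K (act g W) = below K W := by
  apply HeightOneSpectrum.ext
  ext x
  show algebraMap (𝓞 K) (𝓞 L) x ∈ (act g W).asIdeal ↔ algebraMap (𝓞 K) (𝓞 L) x ∈ W.asIdeal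
  rw [mem_act]
  have h1 : g⁻¹ • algebraMap (𝓞 K) (𝓞 L) x = algebraMap (𝓞 K) (𝓞 L) x := by
    apply RingOfIntegers.ext
    show g⁻¹ (algebraMap K L (x : K)) = algebraMap K L (x : K)
    exact AlgEquiv.commutes _ _
  rw [h1]

theorem trans_act [IsGalois K L] (W W' : Pr L) (h : below K W = below K W') : ∃ g : L ≃ₐ[K] L, act g W = W' := by
  obtain ⟨g, hg⟩ := b17_trans (K := K) W W' h
  refine ⟨g, act_ext fun x => ?_⟩
  rw [mem_act]
  exact (hg x).symm

/-- Conjugation of Frobenius elements. -/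
theorem frAt_act (g s : L ≃ₐ[K] L) (W : Pr L) (hs : FrAt K W s) : FrAt K (act g W) (g * s * g⁻¹) := by
  intro x
  rw [below_act, mem_act]
  have h := hs (g⁻¹ • x)
  have e : g⁻¹ • ((g * s * g⁻¹) • x - x ^ Nm (below K W)) = s • (g⁻¹ • x) - (g⁻¹ • x) ^ Nm (below K W) := by
    rw [smul_sub, smul_pow', ← mul_smul, ← mul_smul]
    congr 2
    group
  rw [e]
  exact h


/-- A Frobenius element stabilises its prime. -/
theorem act_frob {W : Pr L} {s : L ≃ₐ[K] L} (hs : FrAt K W s) : act s W = W := by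
  have h1 : ∀ x ∈ W.asIdeal, s • x ∈ W.asIdeal := by
    intro x hx
    have h2 := hs x
    have h3 : x ^ Nm (below K W) ∈ W.asIdeal := W.asIdeal.pow_mem_of_mem hx _ (Nm_pos _)
    have h4 := W.asIdeal.add_mem h2 h3
    rwa [sub_add_cancel] at h4
  apply act_ext
  intro x
  rw [mem_act]
  constructor
  · intro h
    have h2 := h1 _ h
    rwa [smul_inv_smul] at h2
  · intro h
    have h2 : s • (s⁻¹ • x) ∈ W.asIdeal := by rwa [smul_inv_smul]
    have h3 := hs (s⁻¹ • x)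
    have h4 := W.asIdeal.sub_mem h2 h3
    rw [sub_sub_cancel] at h4
    exact W.isPrime.mem_of_pow_mem _ h4

theorem act_pow {W : Pr L} {s : L ≃ₐ[K] L} (hs : act s W = W) (k : ℕ) : act (s ^ k) W = W := by
  induction k with
  | zero => rw [pow_zero, act_one]
  | succ k ih => rw [pow_succ, act_mul, hs, ih]

/-- The stabiliser of an unramified prime is generated by the Frobenius element. -/
theorem mem_zpowers_of_act [IsGalois K L] {W : Pr L} (hW : Unr K L (below K W)) {s : L ≃ₐ[K] L} (hs : FrAt K W s)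
    {g : L ≃ₐ[K] L} (hg : act g W = W) : g ∈ Subgroup.zpowers s := by
  classical
  have hG : IsGaloisGroup (L ≃ₐ[K] L) (𝓞 K) (𝓞 L) := b16_gal
  have hp := W.isPrime
  have hv := (below K W).isMaximal
  have hvp := (below K W).isPrime
  have hl : W.asIdeal.LiesOver (below K W).asIdeal := ⟨rfl⟩
  have hfin : Finite (𝓞 K ⧸ (below K W).asIdeal) := Ring.HasFiniteQuotients.finiteQuotient (below K W).ne_bot
  have hperf : PerfectField (below K W).asIdeal.ResidueField := by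
    have : Finite (below K W).asIdeal.ResidueField :=
      Finite.of_surjective _ (Ideal.bijective_algebraMap_quotient_residueField (below K W).asIdeal).surjective
    infer_instance
  have h1 := Ideal.card_stabilizer_eq_card_inertia_mul_finrank (G := L ≃ₐ[K] L) (below K W).asIdeal W.asIdeal
  rw [b16_card W, hW W rfl, one_mul, ← order_frAt hW hs, ← Nat.card_zpowers] at h1
  have hsub : ∀ h : L ≃ₐ[K] L, act h W = W → h ∈ MulAction.stabilizer (L ≃ₐ[K] L) W.asIdeal := by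
    intro h hh
    rw [MulAction.mem_stabilizer_iff, Ideal.pointwise_smul_eq_comap]
    exact congrArg HeightOneSpectrum.asIdeal hh
  have h2 : Subgroup.zpowers s ≤ MulAction.stabilizer (L ≃ₐ[K] L) W.asIdeal := by
    rw [Subgroup.zpowers_le]
    exact hsub s (act_frob hs)
  have h3 := Subgroup.eq_of_le_of_card_ge h2 h1.le
  rw [h3]
  exact hsub g hg

/-- The number of primes above an unramified `v` with Frobenius element `σ`, times the order of `σ`, is the order of the centraliser. -/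
theorem fibre_card [IsGalois K L] (v : Pr K) (hv : Unr K L v) (σ : L ≃ₐ[K] L) (W₀ : Pr L) (hW₀ : below K W₀ = v)
    (hσ : FrAt K W₀ σ) : Set.ncard {W : Pr L | below K W = v ∧ FrAt K W σ} * orderOf σ = Nat.card (Subgroup.centralizer {σ}) := by
  classical
  subst hW₀
  set C := Subgroup.centralizer {σ} with hC
  have hmemC : ∀ g : L ≃ₐ[K] L, g ∈ C ↔ g * σ * g⁻¹ = σ := by
    intro g
    rw [hC, Subgroup.mem_centralizer_singleton_iff]
    constructor
    · intro h
      rw [h]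
      group
    · intro h
      have := congrArg (fun z => z * g) h
      simp only [mul_assoc, inv_mul_cancel, mul_one] at this
      exact this
  -- the map `g ↦ g W₀`
  have hmap : ∀ g ∈ C, act g W₀ ∈ {W : Pr L | below K W = below K W₀ ∧ FrAt K W σ} := by
    intro g hg
    refine ⟨below_act g W₀, ?_⟩
    have h1 := frAt_act g σ W₀ hσ
    rwa [(hmemC g).1 hg] at h1
  have hsurj : ∀ W ∈ {W : Pr L | below K W = below K W₀ ∧ FrAt K W σ}, ∃ g ∈ C, act g W₀ = W := by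
    rintro W ⟨hW1, hW2⟩
    obtain ⟨g, hg⟩ := trans_act (K := K) W₀ W hW1.symm
    refine ⟨g, ?_, hg⟩
    rw [hmemC]
    have h1 := frAt_act g σ W₀ hσ
    rw [hg] at h1
    exact frAt_unique (by rw [hW1]; exact hv) h1 hW2
  have hzC : Subgroup.zpowers σ ≤ C := by
    rw [Subgroup.zpowers_le, hmemC]
    group
  have hfinF : {W : Pr L | below K W = below K W₀ ∧ FrAt K W σ}.Finite := (below_fin K L (below K W₀)).subset fun W hW => hW.1
  have hFin : Fintype (L ≃ₐ[K] L) := Fintype.ofFinite _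
  -- counting
  have hcount : (Finset.univ.filter fun g : L ≃ₐ[K] L => g ∈ C).card = hfinF.toFinset.card * orderOf σ := by
    rw [Finset.card_eq_sum_card_fiberwise (f := fun g => act g W₀) (t := hfinF.toFinset) (fun g hg => by
      rw [Finset.mem_coe, Finset.mem_filter] at hg
      rw [Finset.mem_coe, Set.Finite.mem_toFinset]
      exact hmap g hg.2)]
    rw [Finset.sum_const_nat (m := orderOf σ)]
    intro W hW
    rw [Set.Finite.mem_toFinset] at hW
    obtain ⟨g₀, hg₀, hg₀W⟩ := hsurj W hW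
    rw [← Nat.card_zpowers, Nat.card_eq_fintype_card, ← Fintype.card_coe]
    refine Fintype.card_congr ⟨fun g => ⟨g₀⁻¹ * g.1, ?_⟩, fun h => ⟨g₀ * h.1, ?_⟩, ?_, ?_⟩
    · have hg := g.2
      rw [Finset.mem_filter, Finset.mem_filter] at hg
      apply mem_zpowers_of_act hv hσ
      rw [act_mul, hg.2, ← hg₀W, ← act_mul, inv_mul_cancel, act_one]
    · have hh := h.2
      rw [Finset.mem_filter, Finset.mem_filter]
      refine ⟨⟨Finset.mem_univ _, C.mul_mem hg₀ (hzC hh)⟩, ?_⟩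
      obtain ⟨k, hk⟩ : ∃ k : ℕ, σ ^ k = h.1 := by
        have := (mem_powers_iff_mem_zpowers).2 hh
        exact (Submonoid.mem_powers_iff _ _).1 this
      rw [act_mul, ← hk, act_pow (act_frob hσ), hg₀W]
    · intro g
      apply Subtype.ext
      simp
    · intro h
      apply Subtype.ext
      simp
  rw [Set.ncard_eq_toFinset_card _ hfinF, ← hcount, Nat.card_eq_fintype_card, Fintype.card_subtype]

end CHEB
end

-- from Lib.CHEB.C2
section

/-! # Chebotarev density theorem, part 2: descent to the fixed field of a Frobenius element -/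

open NumberField IsDedekindDomain

namespace CHEB

open CFT

set_option linter.unusedSectionVars false

variable {K : Type} [Field K] [NumberField K] {L : Type} [Field L] [NumberField L] [Algebra K L]
variable (E : Type) [Field E] [NumberField E] [Algebra K E] [Algebra E L] [IsScalarTower K E L]

variable {E} in
/-- Norms do not decrease when going up. -/
theorem Nm_below_le (w : Pr E) : Nm (below K w) ≤ Nm w := by
  rw [Nm_below (K := K) w]
  exact Nat.le_self_pow (f_pos (K := K) w).ne' _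

/-- The prime of the fixed field below a prime with Frobenius element `σ` has residue degree one. -/
theorem nm_eq {W : Pr L} {σ : L ≃ₐ[K] L} (hσE : ∀ x : E, σ (algebraMap E L x) = algebraMap E L x) (hσ : FrAt K W σ) :
    Nm (below E W) = Nm (below K W) := by
  apply le_antisymm
  · obtain ⟨q, hq⟩ : ∃ q : ℕ, q = Nm (below K W) := ⟨_, rfl⟩
    have hq2 : 2 ≤ q := by rw [hq]; exact two_le_Nm _
    rw [← hq]
    have hfin : Finite (𝓞 E ⧸ (below E W).asIdeal) := b17_fin (below E W)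
    have hmax : (below E W).asIdeal.IsMaximal := (below E W).isMaximal
    letI : Field (𝓞 E ⧸ (below E W).asIdeal) := Ideal.Quotient.field (below E W).asIdeal
    letI : Fintype (𝓞 E ⧸ (below E W).asIdeal) := Fintype.ofFinite _
    have hroot : ∀ x : 𝓞 E ⧸ (below E W).asIdeal, x ^ q = x := by
      intro x
      obtain ⟨x, rfl⟩ := Ideal.Quotient.mk_surjective x
      have h1 := hσ (algebraMap (𝓞 E) (𝓞 L) x)
      have h2 : σ • algebraMap (𝓞 E) (𝓞 L) x = algebraMap (𝓞 E) (𝓞 L) x := by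
        apply RingOfIntegers.ext
        exact hσE (x : E)
      rw [h2, ← hq, ← map_pow, ← map_sub] at h1
      have h3 : x - x ^ q ∈ (below E W).asIdeal := h1
      rw [← Ideal.Quotient.eq_zero_iff_mem, map_sub, map_pow, sub_eq_zero] at h3
      exact h3.symm
    have hcard : Fintype.card (𝓞 E ⧸ (below E W).asIdeal) = Nm (below E W) := by
      rw [← Nat.card_eq_fintype_card]
      unfold Nm
      rw [Ideal.absNorm_apply, Submodule.cardQuot_apply]
    rw [← hcard]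
    -- roots of X^q - X
    have hdeg : (Polynomial.X ^ q - Polynomial.X : Polynomial (𝓞 E ⧸ (below E W).asIdeal)).natDegree = q :=
      FiniteField.X_pow_card_sub_X_natDegree_eq _ (by omega)
    have hne : (Polynomial.X ^ q - Polynomial.X : Polynomial (𝓞 E ⧸ (below E W).asIdeal)) ≠ 0 :=
      FiniteField.X_pow_card_sub_X_ne_zero _ (by omega)
    rw [← hdeg]
    have h4 : (Finset.univ : Finset (𝓞 E ⧸ (below E W).asIdeal)).val ⊆
        (Polynomial.X ^ q - Polynomial.X : Polynomial (𝓞 E ⧸ (below E W).asIdeal)).roots := by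
      intro x _
      rw [Polynomial.mem_roots hne]
      show Polynomial.eval x _ = 0
      rw [Polynomial.eval_sub, Polynomial.eval_pow, Polynomial.eval_X, hroot x, sub_self]
    rw [← Finset.card_univ]
    exact Polynomial.card_le_degree_of_subset_roots h4
  · rw [← below_below K E L W]
    exact Nm_below_le (K := K) _

variable {E}

theorem hab_of_gen {σE : L ≃ₐ[E] L} (hgen : ∀ g : L ≃ₐ[E] L, g ∈ Subgroup.zpowers σE) (a b : L ≃ₐ[E] L) : a * b = b * a := by
  obtain ⟨i, rfl⟩ := Subgroup.mem_zpowers_iff.1 (hgen a)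
  obtain ⟨j, rfl⟩ := Subgroup.mem_zpowers_iff.1 (hgen b)
  rw [← zpow_add, ← zpow_add, add_comm]

theorem frob_below [IsGalois K L] [IsGalois E L] {σ : L ≃ₐ[K] L} {σE : L ≃ₐ[E] L} (hσE : ∀ x : L, σE x = σ x)
    (hgen : ∀ g : L ≃ₐ[E] L, g ∈ Subgroup.zpowers σE) {W : Pr L} (hW : Unr K L (below K W)) (hσ : FrAt K W σ) :
    frob E L (below E W) = σE := by
  have hunr : Unr E L (below E W) := (unr_tower K E L hW).2 _ (below_below K E L W)
  apply frob_eq_of_one (hab_of_gen hgen) hunr W rfl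
  intro x
  rw [nm_eq E (fun x => by rw [← hσE, AlgEquiv.commutes]) hσ]
  have h1 := hσ x
  have h2 : σE • x = σ • x := by
    apply RingOfIntegers.ext
    exact hσE (x : L)
  rw [h2]
  exact h1

theorem frAt_of_frob [IsGalois K L] [IsGalois E L] {σ : L ≃ₐ[K] L} {σE : L ≃ₐ[E] L} (hσE : ∀ x : L, σE x = σ x)
    (hgen : ∀ g : L ≃ₐ[E] L, g ∈ Subgroup.zpowers σE) {w : Pr E} (hw : Unr K L (below K w)) (hnm : Nm w = Nm (below K w))
    (hf : frob E L w = σE) {W : Pr L} (hW : below E W = w) : FrAt K W σ := by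
  have hunr : Unr E L w := (unr_tower K E L hw).2 _ rfl
  intro x
  have h1 := frob_spec (hab_of_gen hgen) hunr W hW x
  rw [hf] at h1
  have h2 : σE • x = σ • x := by
    apply RingOfIntegers.ext
    exact hσE (x : L)
  rw [h2, hnm, ← hW, below_below K E L W] at h1
  exact h1

theorem below_inj [IsGalois K L] [IsGalois E L] {σ : L ≃ₐ[K] L} {σE : L ≃ₐ[E] L} (hσE : ∀ x : L, σE x = σ x)
    (hgen : ∀ g : L ≃ₐ[E] L, g ∈ Subgroup.zpowers σE) {W W' : Pr L} (hσ : FrAt K W σ)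
    (h : below E W = below E W') : W = W' := by
  obtain ⟨g, hg⟩ := trans_act (K := E) W W' h
  obtain ⟨k, hk⟩ : ∃ k : ℕ, σE ^ k = g := by
    have := (mem_powers_iff_mem_zpowers).2 (hgen g)
    exact (Submonoid.mem_powers_iff _ _).1 this
  have h1 : act σE W = W := by
    have h2 := act_frob hσ
    apply act_ext
    intro x
    have h3 : x ∈ (act σ W).asIdeal ↔ x ∈ W.asIdeal := by rw [h2]
    rw [mem_act] at h3 ⊢
    have h4 : σE⁻¹ • x = σ⁻¹ • x := by
      apply RingOfIntegers.ext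
      show σE⁻¹ (x : L) = σ⁻¹ (x : L)
      have h5 : σE (σ⁻¹ (x : L)) = x := by
        rw [hσE]
        exact AlgEquiv.apply_symm_apply σ _
      have h6 : σE (σE⁻¹ (x : L)) = x := AlgEquiv.apply_symm_apply σE _
      exact σE.injective (h6.trans h5.symm)
    rw [h4]
    exact h3
  rw [← hg, ← hk, act_pow h1]

/-- The bijection between primes of `L` with Frobenius element `σ` and primes of the fixed field. -/
theorem ncard_B [IsGalois K L] [IsGalois E L] {σ : L ≃ₐ[K] L} {σE : L ≃ₐ[E] L} (hσE : ∀ x : L, σE x = σ x)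
    (hgen : ∀ g : L ≃ₐ[E] L, g ∈ Subgroup.zpowers σE) (x : ℕ) :
    Set.ncard {W : Pr L | Nm (below K W) ≤ x ∧ Unr K L (below K W) ∧ FrAt K W σ} =
      Set.ncard {w : Pr E | Nm w ≤ x ∧ Unr K L (below K w) ∧ Nm w = Nm (below K w) ∧ frob E L w = σE} := by
  have hfix : ∀ x : E, σ (algebraMap E L x) = algebraMap E L x := fun x => by rw [← hσE, AlgEquiv.commutes]
  refine Set.ncard_congr (fun W _ => below E W) ?_ ?_ ?_
  · rintro W ⟨h1, h2, h3⟩
    have h4 := nm_eq E hfix h3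
    refine ⟨by rw [h4]; exact h1, by rw [below_below K E L W]; exact h2, by rw [below_below K E L W]; exact h4,
      frob_below hσE hgen h2 h3⟩
  · rintro W W' ⟨_, _, h3⟩ _ h
    exact below_inj hσE hgen h3 h
  · rintro w ⟨h1, h2, h3, h4⟩
    obtain ⟨W, hW⟩ := below_surj (K := E) (L := L) w
    have h5 : below K W = below K w := by rw [← hW, below_below K E L W]
    refine ⟨W, ⟨?_, ?_, frAt_of_frob hσE hgen h2 h3 h4 hW⟩, hW⟩
    · rw [h5, ← h3]
      exact h1
    · rw [h5]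
      exact h2

/-- Counting the primes of `K` by the primes of `L`. -/
theorem ncard_A [IsGalois K L] (σ : L ≃ₐ[K] L) (x : ℕ) (hfin : {v : Pr K | Nm v ≤ x}.Finite) :
    Set.ncard {W : Pr L | Nm (below K W) ≤ x ∧ Unr K L (below K W) ∧ FrAt K W σ} * orderOf σ =
      Set.ncard {v : Pr K | Nm v ≤ x ∧ Unr K L v ∧ ∃ W : Pr L, below K W = v ∧ FrAt K W σ} *
        Nat.card (Subgroup.centralizer {σ}) := by
  classical
  have hA : {v : Pr K | Nm v ≤ x ∧ Unr K L v ∧ ∃ W : Pr L, below K W = v ∧ FrAt K W σ}.Finite := hfin.subset fun v hv => hv.1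
  have hB : {W : Pr L | Nm (below K W) ≤ x ∧ Unr K L (below K W) ∧ FrAt K W σ}.Finite := by
    refine (Set.Finite.biUnion hfin fun v _ => below_fin K L v).subset ?_
    rintro W ⟨h1, _, _⟩
    rw [Set.mem_iUnion₂]
    exact ⟨below K W, h1, rfl⟩
  rw [Set.ncard_eq_toFinset_card _ hA, Set.ncard_eq_toFinset_card _ hB]
  rw [Finset.card_eq_sum_card_fiberwise (f := fun W => below K W) (t := hA.toFinset) (fun W hW => by
    rw [Finset.mem_coe, Set.Finite.mem_toFinset] at hW ⊢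
    exact ⟨hW.1, hW.2.1, W, rfl, hW.2.2⟩)]
  rw [Finset.sum_mul, Finset.sum_const_nat (m := Nat.card (Subgroup.centralizer {σ}))]
  intro v hv
  rw [Set.Finite.mem_toFinset] at hv
  obtain ⟨h1, h2, W₀, h3, h4⟩ := hv
  rw [← fibre_card v h2 σ W₀ h3 h4]
  congr 1
  rw [← Set.ncard_coe_finset]
  congr 1
  ext W
  rw [Finset.mem_coe, Finset.mem_filter, Set.Finite.mem_toFinset]
  constructor
  · rintro ⟨⟨_, _, h7⟩, h8⟩
    exact ⟨h8, h7⟩
  · rintro ⟨h8, h7⟩
    exact ⟨⟨by rw [h8]; exact h1, by rw [h8]; exact h2, h7⟩, h8⟩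

end CHEB
end

-- from Lib.H57O.F0
section

/-!
Chunk F0 (M). A reference prime whose valuation ring is Diophantine. Take `p` odd with `Splits p K`
(`exists_splits K 2`), `exists_goodPrime`, an embedding `σ : K → ℚ_p` (there are `finrank ℚ K > 0` of
them) and `dioP_val`. The prime `v = {r ∈ 𝓞 K : ‖σ r‖ < 1}` (kernel of `𝓞 K → ℤ_p → ℤ_p / p`; it is
prime, not zero because it contains `p`). `v.valuation K x ≤ 1 ↔ ‖σ x‖ ≤ 1`: for `r ∈ 𝓞 K`:
`v r < 1 ↔ r ∈ v ↔ ‖σ r‖ < 1`; for `x` with `v x ≤ 1` write `x = a / b` with `b` outside `v`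
(`CFT.frac_prime`, or `valuation_le_one_iff`-lemmas), so `‖σ b‖ = 1`. Conversely if `v x > 1` then
`v x⁻¹ < 1`, `x⁻¹ = a / b` with `b ∉ v`, `a ∈ v`, so `‖σ x⁻¹‖ < 1`.
-/

set_option autoImplicit false

open NumberField IsDedekindDomain CFT Pool.Agent.H60.UDef

namespace Pool.Agent.H57O

section

variable {K : Type} [Field K] [NumberField K] {p : ℕ} [hp : Fact p.Prime]

theorem f0_int (σ : K →+* ℚ_[p]) (r : 𝓞 K) : ‖σ (r : K)‖ ≤ 1 := by
  have h1 : IsIntegral ℤ (σ (r : K)) := (RingOfIntegers.isIntegral_coe r).map σ.toIntAlgHom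
  have h2 : IsIntegral ℤ_[p] (σ (r : K)) := h1.tower_top
  obtain ⟨y, hy⟩ := IsIntegrallyClosed.isIntegral_iff.1 h2
  rw [← hy]
  exact PadicInt.norm_le_one y






end

section


end

end Pool.Agent.H57O
end

-- from Lib.SZ.P4
section

/-!
# SZ4, part 3: `BalPrimes F` from the density of the primes in a ray class
-/

namespace Pool.Agent.SZ.Asm

open NumberField CFT Finset
open scoped Classical

variable {F : Type} [Field F] [NumberField F]


omit [NumberField F] in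
theorem asIdeal_inj : Function.Injective fun v : Pr F => v.asIdeal := by
  intro v w h
  exact IsDedekindDomain.HeightOneSpectrum.ext h

theorem nm_fin (t : ℕ) : {v : Pr F | Nm v ≤ t}.Finite := by
  have h := Ideal.finite_setOfPred_absNorm_le (S := 𝓞 F) t
  refine Set.Finite.of_finite_image (f := fun v : Pr F => v.asIdeal) (h.subset ?_) (asIdeal_inj.injOn)
  rintro _ ⟨v, hv, rfl⟩
  exact hv




end Pool.Agent.SZ.Asm
end
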