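import Mathlib
import Pool.Agent.Lib.H1M.RC.M003
import Pool.Agent.Lib.H1M.RC.M004
import Pool.Agent.Lib.H1M.RC.M008
import Pool.Agent.Lib.H1M.RC.M013
import Pool.Agent.Lib.H1M.RC.M014
import Pool.Agent.Lib.H1M.RC.M018
import Pool.Agent.Lib.H1M.RC.M019
import Pool.Agent.Lib.H1M.RC.M024
import Pool.Agent.Lib.H1M.RC.M027

/-! Merged copies (to shorten the build) of Lib.CFT.X20, Lib.CFT.X23, Lib.CFT.X17, Lib.CFT.X21, Lib.CFT.X22, Lib.CFT.X24, Lib.CFT.X25, Lib.CFT.Core2, Lib.CFT.B26, Lib.CFT.B27, Lib.CFT.Core, Lib.CFT.L5, Lib.CFT.L8, Lib.CFT.L9, Lib.CFTC.C9, Lib.CFT.L11, Lib.CFTC.C10, Lib.CHEB.C3, Lib.CHEB.Main, Lib.CHEB.Rat, Lib.H45K.K4a, Lib.H45K.K4b, Lib.H45K.K4c, Lib.H45K.K5. -/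

-- from Lib.CFT.X20
section

/-! # CFT X20 (S/M): every element of the Galois group is the Artin symbol of a divisor outside T

PROOF. The set of all g for which such a D exists is a subgroup (sums and negatives of divisors) and contains frob E M w for w not in T (D = single w 1, art_single_of_notMem). frob_gen (Targets),
Subgroup.closure_induction. -/

open NumberField IsDedekindDomain

namespace CFT

theorem x_div {E : Type} [Field E] [NumberField E] {M : Type} [Field M] [NumberField M] [Algebra E M] [IsGalois E M]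
    (hab : ∀ a b : M ≃ₐ[E] M, a * b = b * a) (T : Finset (Pr E)) (g : M ≃ₐ[E] M) :
    ∃ D : Dv E, (∀ w ∈ T, D w = 0) ∧ ∀ (A : Type) [CommGroup A] (χ : (M ≃ₐ[E] M) →* A), art T χ D = Additive.ofMul (χ g) := by
  classical
  have hg : g ∈ (⊤ : Subgroup (M ≃ₐ[E] M)) := Subgroup.mem_top g
  rw [← frob_gen E M hab T] at hg
  induction hg using Subgroup.closure_induction with
  | mem x hx =>
    obtain ⟨w, hw, -, rfl⟩ := hx
    refine ⟨Finsupp.single w 1, fun u hu => ?_, fun A _ χ => ?_⟩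
    · rw [Finsupp.single_apply, if_neg]
      rintro rfl
      exact hw hu
    · rw [art_single_of_notMem _ hw, one_smul]
  | one => exact ⟨0, fun _ _ => rfl, fun A _ χ => by rw [map_zero, map_one, ofMul_one]⟩
  | mul x y _ _ hx hy =>
    obtain ⟨D, hD, hD'⟩ := hx
    obtain ⟨D', hE, hE'⟩ := hy
    refine ⟨D + D', fun w hw => by rw [Finsupp.add_apply, hD w hw, hE w hw, add_zero], fun A _ χ => ?_⟩
    rw [map_add, hD' A χ, hE' A χ, map_mul, ofMul_mul]
  | inv x _ hx =>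
    obtain ⟨D, hD, hD'⟩ := hx
    refine ⟨-D, fun w hw => by rw [Finsupp.neg_apply, hD w hw, neg_zero], fun A _ χ => ?_⟩
    rw [map_neg, hD' A χ, map_inv, ofMul_inv]

end CFT
end

-- from Lib.CFT.X23
section

/-! # CFT X23 (M): the auxiliary divisor, and its norm to a smaller field -/

open NumberField IsDedekindDomain

namespace CFT

section

variable {K : Type} [Field K] [NumberField K] {L : Type} [Field L] [NumberField L] [Algebra K L]
    {M : Type} [Field M] [NumberField M] [Algebra K M] [Algebra L M] [IsScalarTower K L M] {m : ℕ} [NeZero m] [IsCyclotomicExtension {m} L M]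

/-- PROOF. E₀ = fixedField H₀. M/K is Galois, abelian (x_gal, x_comm, X12), so M/E₀ too. x in H₀ is an E₀-automorphism x' of M (IntermediateField.mem_fixedField_iff; e.g. AlgEquiv.ofRingEquiv, or
IntermediateField.fixingSubgroupEquiv). T = Tm K E₀ S m. D from x_div (X20) for M/E₀, T, x'. art_base (B21) with (K, L, E₀, M): art S χ (Nd K E₀ D) = art T (χ ∘ resE) D = χ (resE x') = χ (x restricted to L).
(Primes w outside T are unramified in M/E₀: x_unr (X13) and unr_tower (B08).) -/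
theorem x_aux [IsGalois K L] (hab : ∀ a b : L ≃ₐ[K] L, a * b = b * a) (H₀ : Subgroup (M ≃ₐ[K] M)) (x : M ≃ₐ[K] M) (hx : x ∈ H₀)
    (S : Finset (Pr K)) (hS : ∀ v : Pr K, ¬ Unr K L v → v ∈ S) :
    ∃ D : Dv (IntermediateField.fixedField H₀), (∀ w ∈ Tm K (IntermediateField.fixedField H₀) S m, D w = 0) ∧
      ∀ (A : Type) [CommGroup A] (χ : (L ≃ₐ[K] L) →* A),
        art S χ (Nd K (IntermediateField.fixedField H₀) D) = Additive.ofMul (χ (AlgEquiv.restrictNormalHom L x)) := by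
  haveI hgal : IsGalois K M := x_gal K L M m
  have hcomm : ∀ a b : M ≃ₐ[K] M, a * b = b * a := x_comm (IsCyclotomicExtension.zeta_spec m L M) hab
  have habM : ∀ a b : M ≃ₐ[IntermediateField.fixedField H₀] M, a * b = b * a := by
    intro a b
    apply AlgEquiv.ext
    intro z
    exact DFunLike.congr_fun (hcomm (a.restrictScalars K) (b.restrictScalars K)) z
  obtain ⟨x', hx'⟩ : ∃ x' : M ≃ₐ[IntermediateField.fixedField H₀] M, x'.restrictScalars K = x := by
    refine ⟨AlgEquiv.ofRingEquiv (f := x.toRingEquiv) fun r => ?_, ?_⟩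
    · exact (IntermediateField.mem_fixedField_iff H₀ r.1).1 r.2 x hx
    · apply AlgEquiv.ext
      intro z
      rfl
  obtain ⟨D, hD, hD2⟩ := x_div habM (Tm K (IntermediateField.fixedField H₀) S m) x'
  refine ⟨D, hD, fun A _ χ => ?_⟩
  rw [art_base K L (IntermediateField.fixedField H₀) M hab habM S hS (Tm K (IntermediateField.fixedField H₀) S m) ?_ (up_subset_Tm S m) χ D hD,
    hD2]
  · show Additive.ofMul (χ (resE K L (IntermediateField.fixedField H₀) M x')) = _
    have h1 : resE K L (IntermediateField.fixedField H₀) M x' = AlgEquiv.restrictNormalHom L x := by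
      show AlgEquiv.restrictNormalHom L (x'.restrictScalars K) = _
      rw [hx']
    rw [h1]
  · intro w hw
    by_contra hcon
    rw [mem_Tm, not_or] at hcon
    have h1 : Unr K L (below K w) := by
      by_contra h
      exact hcon.1 (hS _ h)
    have h2 : (m : 𝓞 K) ∉ (below K w).asIdeal := fun h => hcon.2 ((m_mem_below m w).1 h)
    have h3 : Unr K M (below K w) := x_unr h1 h2
    exact hw ((unr_tower K (IntermediateField.fixedField H₀) M h3).2 w rfl)

end

section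

variable {K : Type} [Field K] [NumberField K] {M : Type} [Field M] [NumberField M] [Algebra K M] {m : ℕ} [NeZero m]

/-- PROOF. E ≤ E₀: algebra structure from IntermediateField.inclusion, scalar tower K E E₀. D' = Nd E E₀ D; Nd_Nd (B08); D' is 0 on Tm: Nd_apply (B09), a prime of E₀ above a prime in Tm K E is in Tm K E₀
(below_below (B08), m_mem_below (X00)). -/
theorem x_push (E E₀ : IntermediateField K M) (h : E ≤ E₀) (S : Finset (Pr K)) (D : Dv E₀) (hD : ∀ w ∈ Tm K E₀ S m, D w = 0) :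
    ∃ D' : Dv E, (∀ w ∈ Tm K E S m, D' w = 0) ∧ Nd K E D' = Nd K E₀ D := by
  letI : Algebra E E₀ := (IntermediateField.inclusion h).toRingHom.toAlgebra
  haveI : IsScalarTower K E E₀ := IsScalarTower.of_algebraMap_eq fun r => rfl
  refine ⟨Nd E E₀ D, fun w hw => ?_, Nd_Nd K E E₀ D⟩
  rw [Nd_apply]
  refine Finset.sum_eq_zero fun u hu => ?_
  rw [mem_abv] at hu
  have h1 : u ∈ Tm K E₀ S m := by
    rw [mem_Tm] at hw ⊢
    rcases hw with hw | hw
    · left
      rw [← below_below K E E₀ u, hu]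
      exact hw
    · right
      rw [← hu] at hw
      exact (m_mem_below m u).1 hw
  rw [hD u h1, mul_zero]

end

end CFT
end

-- from Lib.CFT.X17
section

/-! # CFT X17 (M/L): kernel of the Artin symbol for a subextension of a cyclotomic extension

PROOF. M/E is abelian (cyc_comm, B22) and Galois, F/E is abelian (restriction is onto). N₀ from cyc_rec (Targets, or cyc_rec', B24) for M/E: art T χ' (dv x) = 0 for all χ' on Gal(M/E). With
χ' = χ ∘ restriction and art_res (B20; primes outside T are unramified in M: unr_cyc, B22) art T χ (dv x) = 0 for all χ on Gal(F/E) and Ray T N₀ x. Let N₁ = max N N₀,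
H = Pray T N₁ ⊔ (Nd E F).range. Make Gal(F/E) a CommGroup (as in Targets.artin_ker) and let φ = art T (MonoidHom.id _) : Dv E →+ Additive Gal(F/E), k = φ.ker. H ≤ k: for Pray use art_congr (D2) and
Ray.mono, for norms art_Nd (B18; ramified primes of F are in T: unr_tower, unr_cyc). φ is onto: frob_gen (Targets) and art_single_of_notMem (φ.range contains the generators; Subgroup.closure_le), so
k.index = card Gal(F/E) = finrank E F (AddSubgroup.index_ker, IsGalois.card_aut_eq_finrank). second_ineq: H.index ≤ finrank E F = k.index, H.index ≠ 0 (Pray T N₁ ≤ H has finite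
index: pray_fin, index_ne_zero), k.index ∣ H.index for H ≤ k (AddSubgroup.index_dvd_of_le), so H.index = k.index and H = k (AddSubgroup.relIndex_mul_index, relIndex = 1 means k ≤ H). D is in k = H and
Pray T N₁ ≤ Pray T N (Ray.mono). -/

open NumberField IsDedekindDomain

namespace CFT

theorem x_ker {E : Type} [Field E] [NumberField E] {F : Type} [Field F] [NumberField F] [Algebra E F] {M : Type} [Field M] [NumberField M] [Algebra E M]
    [Algebra F M] [IsScalarTower E F M] [IsGalois E F] {m : ℕ} [NeZero m] [IsCyclotomicExtension {m} E M] (T : Finset (Pr E))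
    (hT : ∀ w : Pr E, (m : 𝓞 E) ∈ w.asIdeal → w ∈ T) (N : ℕ) (D : Dv E)
    (h : ∀ (A : Type) [CommGroup A] (χ : (F ≃ₐ[E] F) →* A), art T χ D = 0) : D ∈ Pray T N ⊔ (Nd E F).range := by
  classical
  have hgal : IsGalois E M := IsCyclotomicExtension.isGalois {m} E M
  have habM : ∀ a b : M ≃ₐ[E] M, a * b = b * a := cyc_comm m
  have hsur : Function.Surjective (AlgEquiv.restrictNormalHom F : (M ≃ₐ[E] M) →* (F ≃ₐ[E] F)) := AlgEquiv.restrictNormalHom_surjective M
  have habF : ∀ a b : F ≃ₐ[E] F, a * b = b * a := by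
    intro a b
    obtain ⟨a', rfl⟩ := hsur a
    obtain ⟨b', rfl⟩ := hsur b
    rw [← map_mul, habM, map_mul]
  have hTM : ∀ w : Pr E, ¬ Unr E M w → w ∈ T := by
    intro w hw
    by_contra hwT
    exact hw (unr_cyc m w fun hm => hwT (hT w hm))
  have hTF : ∀ w : Pr E, ¬ Unr E F w → w ∈ T := by
    intro w hw
    by_contra hwT
    apply hw
    have h1 : Unr E M w := by
      by_contra h2
      exact hwT (hTM w h2)
    exact (unr_tower E F M h1).1
  obtain ⟨N₀, hN₀⟩ := cyc_rec E M m T hT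
  have hray : ∀ (A : Type) [CommGroup A] (χ : (F ≃ₐ[E] F) →* A) (x : E), Ray T N₀ x → art T χ (dv x) = 0 := by
    intro A _ χ x hx
    rw [← art_res E F M habM T hTM χ (dv x)]
    exact hN₀ A _ x hx
  set N₁ := max N N₀ with hN₁
  let cg : CommGroup (F ≃ₐ[E] F) := { (inferInstance : Group (F ≃ₐ[E] F)) with mul_comm := habF }
  set φ : Dv E →+ Additive (F ≃ₐ[E] F) := art T (MonoidHom.id (F ≃ₐ[E] F)) with hφ
  set H := Pray T N₁ ⊔ (Nd E F).range with hH
  have hle : H ≤ φ.ker := by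
    rw [hH, sup_le_iff]
    constructor
    · rintro C ⟨x, hx, hC⟩
      rw [AddMonoidHom.mem_ker, hφ, art_congr T (MonoidHom.id (F ≃ₐ[E] F)) (E := dv x) hC]
      exact hray _ _ x (hx.mono (Finset.Subset.refl T) (le_max_right _ _))
    · rintro _ ⟨C, rfl⟩
      rw [AddMonoidHom.mem_ker, hφ]
      exact art_Nd habF T hTF _ C
  have hsurj : Function.Surjective φ := by
    have h1 : ∀ s : F ≃ₐ[E] F, s ∈ Subgroup.closure {s : F ≃ₐ[E] F | ∃ v : Pr E, v ∉ T ∧ Unr E F v ∧ frob E F v = s} →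
        ∃ C : Dv E, φ C = Additive.ofMul s := by
      intro s hs
      induction hs using Subgroup.closure_induction with
      | mem s hs =>
        obtain ⟨v, hv, -, rfl⟩ := hs
        exact ⟨Finsupp.single v 1, by rw [hφ, art_single_of_notMem _ hv, one_smul]; rfl⟩
      | one => exact ⟨0, by rw [map_zero]; rfl⟩
      | mul s t _ _ h1 h2 =>
        obtain ⟨C, hC⟩ := h1
        obtain ⟨C', hC'⟩ := h2
        exact ⟨C + C', by rw [map_add, hC, hC']; rfl⟩
      | inv s _ h1 =>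
        obtain ⟨C, hC⟩ := h1
        exact ⟨-C, by rw [map_neg, hC]; rfl⟩
    intro y
    obtain ⟨C, hC⟩ := h1 y.toMul (by rw [frob_gen E F habF T]; exact Subgroup.mem_top _)
    exact ⟨C, hC⟩
  have hk : φ.ker.index = Module.finrank E F := by
    rw [AddSubgroup.index_ker, AddMonoidHom.range_eq_top.2 hsurj, ← IsGalois.card_aut_eq_finrank E F]
    calc Nat.card (⊤ : AddSubgroup (Additive (F ≃ₐ[E] F))) = Nat.card (Additive (F ≃ₐ[E] F)) := Nat.card_congr (AddSubgroup.topEquiv).toEquiv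
      _ = Nat.card (F ≃ₐ[E] F) := Nat.card_congr Additive.toMul
  have hpos : 0 < Module.finrank E F := Module.finrank_pos
  have h0 : H.index ≠ 0 := by
    have h1 : (Pray T N₁).FiniteIndex := pray_fin E T N₁
    have h2 : (Pray T N₁).index ≠ 0 := h1.index_ne_zero
    have h3 : H.index ∣ (Pray T N₁).index := AddSubgroup.index_dvd_of_le (by rw [hH]; exact le_sup_left)
    intro h4
    rw [h4, zero_dvd_iff] at h3
    exact h2 h3
  have h1 := AddSubgroup.relIndex_mul_index hle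
  have h2 : H.index ≤ φ.ker.index := by
    rw [hk]
    exact second_ineq E F T N₁
  have h3 : H.relIndex φ.ker = 1 := by
    have h4 : H.relIndex φ.ker ≠ 0 := by
      intro h5
      rw [h5, zero_mul] at h1
      exact h0 h1.symm
    have h5 : H.relIndex φ.ker * φ.ker.index ≤ 1 * φ.ker.index := by rw [h1, one_mul]; exact h2
    have h6 := Nat.le_of_mul_le_mul_right h5 (by rw [hk]; exact hpos)
    omega
  have h4 : φ.ker ≤ H := AddSubgroup.relIndex_eq_one.1 h3
  have h5 : D ∈ H := h4 (h _ (MonoidHom.id (F ≃ₐ[E] F)))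
  have h6 : H ≤ Pray T N ⊔ (Nd E F).range := by
    rw [hH]
    refine sup_le_sup_right ?_ _
    rintro C ⟨x, hx, hC⟩
    exact ⟨x, hx.mono (Finset.Subset.refl T) (le_max_left _ _), hC⟩
  exact h6 h5

end CFT
end

-- from Lib.CFT.X21
section

/-! # CFT X21 (M/L): the crossing step, fields as types

K - L - F - M and K - E - F - M, M cyclotomic over E, restriction Gal(F/E) → Gal(L/K) injective. D a divisor of E, zero above S and m, whose norm to K has trivial Artin symbol in L/K.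

PROOF. T = Tm K E S m (X00). Gal(F/E) is abelian (injective restriction, or quotient of Gal(M/E)). Primes outside T are unramified in F/E (unr_cyc (B22) for M/E and unr_tower (B08)). art_base (B21) with (K, L, E, F), T,
for every χ on Gal(L/K): art T (χ ∘ resE) D = art S χ (Nd K E D) = 0. Take χ = id into Gal(L/K) as a CommGroup (habL; instance as in Targets.artin_ker): art T resE D = 0. For an arbitrary χ' on Gal(F/E):
art T χ' D = 0 because with Gal(F/E) as a CommGroup G', art T id D =: g in G' is mapped to art T resE D = 0 by resE (art_comp, D2), so g = 0 by injectivity, and art T χ' D = χ' g = 0 (art_comp). Now x_ker (X17)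
for every N' and x_down (X19; up_subset_Tm). -/

open NumberField IsDedekindDomain

namespace CFT

theorem x_step {K : Type} [Field K] [NumberField K] {L : Type} [Field L] [NumberField L] [Algebra K L] {E : Type} [Field E] [NumberField E] [Algebra K E]
    {F : Type} [Field F] [NumberField F] [Algebra K F] [Algebra L F] [Algebra E F] [IsScalarTower K L F] [IsScalarTower K E F]
    {M : Type} [Field M] [NumberField M] [Algebra E M] [Algebra F M] [IsScalarTower E F M] {m : ℕ} [NeZero m] [IsCyclotomicExtension {m} E M]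
    [IsGalois K L] [IsGalois E F] (hab : ∀ a b : L ≃ₐ[K] L, a * b = b * a) (hinj : Function.Injective (resE K L E F))
    (S : Finset (Pr K)) (hS : ∀ v : Pr K, ¬ Unr K L v → v ∈ S) (N : ℕ) (D : Dv E) (hD : ∀ w ∈ Tm K E S m, D w = 0)
    (h : ∀ (A : Type) [CommGroup A] (χ : (L ≃ₐ[K] L) →* A), art S χ (Nd K E D) = 0) : Nd K E D ∈ Pray S N ⊔ (Nd K L).range := by
  classical
  have habF : ∀ a b : F ≃ₐ[E] F, a * b = b * a := by
    intro a b
    apply hinj
    rw [map_mul, map_mul, hab]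
  set T := Tm K E S m with hTdef
  have hmT : ∀ w : Pr E, (m : 𝓞 E) ∈ w.asIdeal → w ∈ T := fun w hw => mem_Tm.2 (Or.inr hw)
  have hTF : ∀ w : Pr E, ¬ Unr E F w → w ∈ T := by
    intro w hw
    by_contra hwT
    apply hw
    have h1 : Unr E M w := unr_cyc m w fun hm => hwT (hmT w hm)
    exact (unr_tower E F M h1).1
  have hzero : ∀ (A : Type) [CommGroup A] (χ : (F ≃ₐ[E] F) →* A), art T χ D = 0 := by
    intro A _ χ'
    let cL : CommGroup (L ≃ₐ[K] L) := { (inferInstance : Group (L ≃ₐ[K] L)) with mul_comm := hab }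
    let cF : CommGroup (F ≃ₐ[E] F) := { (inferInstance : Group (F ≃ₐ[E] F)) with mul_comm := habF }
    have h1 := h (L ≃ₐ[K] L) (MonoidHom.id (L ≃ₐ[K] L))
    rw [art_base K L E F hab habF S hS T hTF (up_subset_Tm S m) (MonoidHom.id (L ≃ₐ[K] L)) D hD, MonoidHom.id_comp] at h1
    have h2 := art_comp T (resE K L E F) (MonoidHom.id (F ≃ₐ[E] F)) D
    rw [MonoidHom.comp_id, h1] at h2
    have h3 : art T (MonoidHom.id (F ≃ₐ[E] F)) D = 0 := by
      have h4 : resE K L E F (art T (MonoidHom.id (F ≃ₐ[E] F)) D).toMul = 1 := Additive.ofMul.injective h2.symm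
      have h5 : (art T (MonoidHom.id (F ≃ₐ[E] F)) D).toMul = 1 := hinj (by rw [h4, map_one])
      exact Additive.toMul.injective h5
    have h4 := art_comp T χ' (MonoidHom.id (F ≃ₐ[E] F)) D
    rw [MonoidHom.comp_id, h3, map_zero] at h4
    exact h4
  refine x_down (L := L) (F := F) S N T (up_subset_Tm S m) D hD fun N' => ?_
  exact x_ker (M := M) (m := m) T hmT N' D hzero

end CFT
end

-- from Lib.CFT.X22
section

/-! # CFT X22 (M/L): the crossing step for the fixed field of H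

PROOF. Instances only. E = fixedField H, J = H ⊓ (restrictNormalHom L).ker, F = fixedField J, E ≤ F. Algebra E F: (IntermediateField.inclusion h).toRingHom.toAlgebra; Algebra L F: the image of L in M is fixed by J, so
(algebraMap L M).codRestrict F.toSubring (or toSubfield), as a ring homomorphism, toAlgebra; scalar towers by IsScalarTower.of_algebraMap_eq (all maps are inclusions in M). M is cyclotomic over E (x_fix, X15: an element z of H with
autToPow z = 1 has trivial restriction to L by hH, so z = 1 by x_inj, X12). F/E is Galois: J is normal in the abelian group (E ≤ F ≤ M: F/K is Galois since all subgroups are normal, and then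
F/E is Galois: IsGalois.tower_top_of_isGalois K E F). resE K L E F is injective: let t in Gal(F/E) with trivial restriction to L; lift t to s in Gal(M/E) (AlgEquiv.liftNormal, M/E is normal); as an element of
Gal(M/K) s is in H (fixingSubgroup_fixedField), and its restriction to L is trivial (the images of L lie in F and t fixes them), so s is in J, so it fixes F and t = 1. Then x_step (X21). -/

open NumberField IsDedekindDomain

namespace CFT

theorem x_stepH {K : Type} [Field K] [NumberField K] {L : Type} [Field L] [NumberField L] [Algebra K L]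
    {M : Type} [Field M] [NumberField M] [Algebra K M] [Algebra L M] [IsScalarTower K L M] {m : ℕ} [NeZero m] [IsCyclotomicExtension {m} L M]
    [IsGalois K L] (hab : ∀ a b : L ≃ₐ[K] L, a * b = b * a) {ζ : M} (hζ : IsPrimitiveRoot ζ m)
    (H : Subgroup (M ≃ₐ[K] M)) (hH : ∀ z ∈ H, hζ.autToPow K z = 1 → AlgEquiv.restrictNormalHom L z = 1)
    (S : Finset (Pr K)) (hS : ∀ v : Pr K, ¬ Unr K L v → v ∈ S) (N : ℕ)
    (D : Dv (IntermediateField.fixedField H)) (hD : ∀ w ∈ Tm K (IntermediateField.fixedField H) S m, D w = 0)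
    (h : ∀ (A : Type) [CommGroup A] (χ : (L ≃ₐ[K] L) →* A), art S χ (Nd K (IntermediateField.fixedField H) D) = 0) :
    Nd K (IntermediateField.fixedField H) D ∈ Pray S N ⊔ (Nd K L).range := by
  classical
  have hMg : IsGalois K M := x_gal K L M m
  have habM : ∀ a b : M ≃ₐ[K] M, a * b = b * a := x_comm hζ hab
  let E : IntermediateField K M := IntermediateField.fixedField H
  let J : Subgroup (M ≃ₐ[K] M) := H ⊓ (AlgEquiv.restrictNormalHom L : (M ≃ₐ[K] M) →* (L ≃ₐ[K] L)).ker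
  let F : IntermediateField K M := IntermediateField.fixedField J
  have hJn : J.Normal := ⟨fun a ha b => by rwa [habM b a, mul_assoc, mul_inv_cancel, mul_one]⟩
  have hEF : E ≤ F := by
    intro x hx
    rw [IntermediateField.mem_fixedField_iff] at hx ⊢
    exact fun s hs => hx s hs.1
  have hLF : ∀ x : L, algebraMap L M x ∈ F := by
    intro x
    rw [IntermediateField.mem_fixedField_iff]
    intro s hs
    have h1 : AlgEquiv.restrictNormalHom L s = 1 := hs.2
    have h2 := AlgEquiv.restrictNormal_commutes s L x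
    have h3 : AlgEquiv.restrictNormal s L = 1 := h1
    rw [h3] at h2
    exact h2.symm
  letI aEF : Algebra E F := (IntermediateField.inclusion hEF).toRingHom.toAlgebra
  letI aLF : Algebra L F := ((algebraMap L M).codRestrict F hLF).toAlgebra
  haveI tKEF : IsScalarTower K E F := IsScalarTower.of_algebraMap_eq fun x => rfl
  haveI tEFM : IsScalarTower E F M := IsScalarTower.of_algebraMap_eq fun x => rfl
  haveI tLFM : IsScalarTower L F M := IsScalarTower.of_algebraMap_eq fun x => rfl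
  haveI tKLF : IsScalarTower K L F := IsScalarTower.of_algebraMap_eq fun x => by
    apply (algebraMap F M).injective
    show algebraMap F M (algebraMap K F x) = algebraMap L M (algebraMap K L x)
    rw [← IsScalarTower.algebraMap_apply K L M]
    rfl
  haveI hcyc : IsCyclotomicExtension {m} E M := x_fix hζ H fun z hz h1 => x_inj hζ z (hH z hz h1) h1
  haveI hFg : IsGalois K F := IsGalois.of_fixedField_normal_subgroup J
  haveI hEFg : IsGalois E F := IsGalois.tower_top_of_isGalois K E F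
  haveI hEM : IsGalois E M := IsGalois.tower_top_of_isGalois K E M
  have hinj : Function.Injective (resE K L E F) := by
    rw [injective_iff_map_eq_one]
    intro t ht
    let s : M ≃ₐ[E] M := AlgEquiv.liftNormal t M
    have hs : ∀ y : F, s (algebraMap F M y) = algebraMap F M (t y) := fun y => AlgEquiv.liftNormal_commutes t M y
    let s' : M ≃ₐ[K] M := s.restrictScalars K
    have h1 : s' ∈ H := by
      rw [← IntermediateField.fixingSubgroup_fixedField H, IntermediateField.mem_fixingSubgroup_iff]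
      intro x hx
      exact s.commutes ⟨x, hx⟩
    have h2 : AlgEquiv.restrictNormalHom L s' = 1 := by
      ext x
      apply (algebraMap L M).injective
      have h3 : algebraMap L M (AlgEquiv.restrictNormalHom L s' x) = s' (algebraMap L M x) := AlgEquiv.restrictNormal_commutes s' L x
      rw [h3]
      have h4 : s' (algebraMap L M x) = s (algebraMap F M (algebraMap L F x)) := rfl
      rw [h4, hs, ← resE_spec (K := K) t x, ht]
      rfl
    have h3 : s' ∈ J := ⟨h1, h2⟩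
    ext y
    have h4 : s' (algebraMap F M y) = algebraMap F M y := by
      have h5 := y.2
      rw [IntermediateField.mem_fixedField_iff] at h5
      exact h5 s' h3
    have h5 : s' (algebraMap F M y) = algebraMap F M (t y) := hs y
    rw [h4] at h5
    exact congrArg _ ((algebraMap F M).injective h5.symm)
  exact x_step (K := K) (L := L) (E := E) (F := F) (M := M) (m := m) hab hinj S hS N D hD h

end CFT
end

-- from Lib.CFT.X24
section

/-! # CFT X24 (M): the crossing for one prime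

PROOF. y = frob K M v, H = Subgroup.closure {x, y}. For z in H with autToPow z = 1: restriction to L trivial, by x_core (X14) with n = l^r = finrank K L (hG: pow_card_eq_one'; card of the Galois group = finrank), β y = unit of Nm v
(x_beta, X13). E = fixedField H ≤ E₀ = fixedField (zpowers x) (zpowers x ≤ H; IntermediateField.fixedField_le or antitone). D' from x_push (X23) for the given D₀. w a prime of E above v (below_surj, B06), inertia degree 1 (x_split,
X16; y fixes E as y is in H; v is unramified in M: x_unr). D = single w 1 - d • D'. D is 0 on Tm K E S m: w is not in Tm (below w = v is not in S, m is not in w by m_mem_below). Nd K E D = single v 1 - d • Nd K E₀ D₀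
(Nd_single). art S χ (Nd K E D) = χ (frob K L v) - d χ (x restricted) = 0 (additively) by hd, hD₀. x_stepH (X22). -/

open NumberField IsDedekindDomain

namespace CFT

theorem x_one {K : Type} [Field K] [NumberField K] {L : Type} [Field L] [NumberField L] [Algebra K L]
    {M : Type} [Field M] [NumberField M] [Algebra K M] [Algebra L M] [IsScalarTower K L M] {m : ℕ} [NeZero m] [IsCyclotomicExtension {m} L M]
    [IsGalois K L] (hab : ∀ a b : L ≃ₐ[K] L, a * b = b * a) {ζ : M} (hζ : IsPrimitiveRoot ζ m) (n : ℕ) (hn : Module.finrank K L = n)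
    (S : Finset (Pr K)) (hS : ∀ v : Pr K, ¬ Unr K L v → v ∈ S) (N : ℕ) (x : M ≃ₐ[K] M) (hx : n ∣ orderOf (hζ.autToPow K x))
    (D₀ : Dv (IntermediateField.fixedField (Subgroup.zpowers x))) (hD₀ : ∀ w ∈ Tm K (IntermediateField.fixedField (Subgroup.zpowers x)) S m, D₀ w = 0)
    (hart : ∀ (A : Type) [CommGroup A] (χ : (L ≃ₐ[K] L) →* A),
        art S χ (Nd K (IntermediateField.fixedField (Subgroup.zpowers x)) D₀) = Additive.ofMul (χ (AlgEquiv.restrictNormalHom L x)))
    (v : Pr K) (hv : v ∉ S) (hm : (m : 𝓞 K) ∉ v.asIdeal) (hnv : n ∣ orderOf (ZMod.unitOfCoprime (Nm v) (x_cop m v hm)))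
    (hdis : Disjoint (Subgroup.zpowers (hζ.autToPow K x)) (Subgroup.zpowers (ZMod.unitOfCoprime (Nm v) (x_cop m v hm))))
    (d : ℕ) (hd : frob K L v = AlgEquiv.restrictNormalHom L x ^ d) :
    (Finsupp.single v 1 - d • Nd K (IntermediateField.fixedField (Subgroup.zpowers x)) D₀ : Dv K) ∈ Pray S N ⊔ (Nd K L).range := by
  classical
  have hgal : IsGalois K M := x_gal K L M m
  have hcomm : ∀ a b : M ≃ₐ[K] M, a * b = b * a := x_comm hζ hab
  have hvL : Unr K L v := by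
    by_contra h
    exact hv (hS v h)
  have hvM : Unr K M v := x_unr hvL hm
  have hβ := x_beta hab hζ hvL hm
  obtain ⟨y, hy⟩ : ∃ y, y = frob K M v := ⟨_, rfl⟩
  rw [← hy] at hβ
  rw [← hβ] at hnv hdis
  obtain ⟨H, hHdef⟩ : ∃ H : Subgroup (M ≃ₐ[K] M), H = Subgroup.closure {x, y} := ⟨_, rfl⟩
  have hG : ∀ g : L ≃ₐ[K] L, g ^ n = 1 := by
    intro g
    rw [← hn, ← IsGalois.card_aut_eq_finrank K L]
    exact pow_card_eq_one'
  have hH : ∀ z ∈ H, hζ.autToPow K z = 1 → AlgEquiv.restrictNormalHom L z = 1 := by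
    intro z hz h1
    rw [hHdef] at hz
    exact x_core hcomm (AlgEquiv.restrictNormalHom L) (hζ.autToPow K) hG hx hnv hdis hz h1
  have hxH : Subgroup.zpowers x ≤ H := by
    rw [Subgroup.zpowers_le, hHdef]
    exact Subgroup.subset_closure (by simp)
  have hyH : y ∈ H := by
    rw [hHdef]
    exact Subgroup.subset_closure (by simp)
  have hE : IntermediateField.fixedField H ≤ IntermediateField.fixedField (Subgroup.zpowers x) := by
    intro z hz
    rw [IntermediateField.mem_fixedField_iff] at hz ⊢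
    exact fun f hf => hz f (hxH hf)
  obtain ⟨D', hD', hN'⟩ := x_push (m := m) _ _ hE S D₀ hD₀
  obtain ⟨w, hw⟩ := below_surj (K := K) (L := IntermediateField.fixedField H) v
  have hf := x_split hcomm (IntermediateField.fixedField H) hvM (fun z => by
    rw [← hy]
    exact (IntermediateField.mem_fixedField_iff H z.1).1 z.2 y hyH) w hw
  have hNd : Nd K (IntermediateField.fixedField H) (Finsupp.single w 1 - d • D') =
      Finsupp.single v 1 - d • Nd K (IntermediateField.fixedField (Subgroup.zpowers x)) D₀ := by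
    rw [map_sub, map_nsmul, hN', Nd_single, hf, hw, Nat.cast_one, one_mul]
  rw [← hNd]
  refine x_stepH hab hζ H hH S hS N _ ?_ ?_
  · intro u hu
    rw [Finsupp.sub_apply, Finsupp.smul_apply, hD' u hu, smul_zero, sub_zero, Finsupp.single_apply, if_neg]
    rintro rfl
    rw [mem_Tm, hw] at hu
    rcases hu with hu | hu
    · exact hv hu
    · refine hm ?_
      rw [← hw]
      exact (m_mem_below m w).2 hu
  · intro A _ χ
    rw [hNd, map_sub, map_nsmul, hart, art_single_of_notMem χ hv, one_zsmul, hd, map_pow, ofMul_pow, sub_self]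

end CFT
end

-- from Lib.CFT.X25
section

/-! # CFT X25: the crossing (assembly) -/

open NumberField IsDedekindDomain

namespace CFT

theorem crossing' (K : Type) [Field K] [NumberField K] (L : Type) [Field L] [NumberField L] [Algebra K L] [IsGalois K L] (hc : IsCyclic (L ≃ₐ[K] L))
    (l r : ℕ) (hl : l.Prime) (hn : Module.finrank K L = l ^ r)
    (S : Finset (Pr K)) (hS : ∀ v : Pr K, ¬ Unr K L v → v ∈ S) (N : ℕ) (v v₀ : Pr K) (hv : v ∉ S) (hv₀ : v₀ ∉ S)
    (hg : Subgroup.zpowers (frob K L v₀) = ⊤) (d : ℕ) (hd : frob K L v = frob K L v₀ ^ d) :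
    (Finsupp.single v 1 - d • Finsupp.single v₀ 1 : Dv K) ∈ Pray S N ⊔ (Nd K L).range := by
  have hab : ∀ a b : L ≃ₐ[K] L, a * b = b * a := by
    letI : CommGroup (L ≃ₐ[K] L) := hc.commGroup
    exact mul_comm
  obtain ⟨q₁, q₂, hq₁, hq₂, hne, hirr, hmv, hmv₀, o₁, o₂, d₁, d₂⟩ := x_choose K L hl r v v₀
  have hm0 : q₁ * q₂ ≠ 0 := mul_ne_zero hq₁.ne_zero hq₂.ne_zero
  haveI : NeZero (q₁ * q₂) := ⟨hm0⟩
  obtain ⟨u₁, u₂, hu₁, hu₂, hu⟩ := x_units hq₁ hq₂ hne d₁ d₂
  obtain ⟨τ, hτ, hτ₁, hτ₂⟩ := x_tau hl hu₁ hu₂ hu (ZMod.unitOfCoprime (Nm v) (x_cop (q₁ * q₂) v hmv))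
    (ZMod.unitOfCoprime (Nm v₀) (x_cop (q₁ * q₂) v₀ hmv₀))
  let M := CyclotomicField (q₁ * q₂) L
  haveI : NumberField M := IsCyclotomicExtension.numberField {q₁ * q₂} L M
  have hζ : IsPrimitiveRoot (IsCyclotomicExtension.zeta (q₁ * q₂) L M) (q₁ * q₂) := IsCyclotomicExtension.zeta_spec (q₁ * q₂) L M
  obtain ⟨x, hx1, hx2⟩ := x_surj (K := K) (L := L) (M := M) hζ hirr (frob K L v₀) τ
  obtain ⟨D₀, hD₀, hart⟩ := x_aux (K := K) (L := L) (M := M) (m := q₁ * q₂) hab (Subgroup.zpowers x) x (Subgroup.mem_zpowers x) S hS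
  have hxn : l ^ r ∣ orderOf (hζ.autToPow K x) := by rw [hx2, hτ]
  have h1 := x_one hab hζ (l ^ r) hn S hS N x hxn D₀ hD₀ hart v hv hmv (x_order (dvd_mul_right q₁ q₂) (x_cop (q₁ * q₂) v hmv) o₁)
    (by rw [hx2]; exact hτ₁) d (by rw [hx1]; exact hd)
  have h2 := x_one hab hζ (l ^ r) hn S hS N x hxn D₀ hD₀ hart v₀ hv₀ hmv₀ (x_order (dvd_mul_left q₂ q₁) (x_cop (q₁ * q₂) v₀ hmv₀) o₂)
    (by rw [hx2]; exact hτ₂) 1 (by rw [hx1, pow_one])
  have h3 := sub_mem h1 (nsmul_mem h2 d)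
  have e : (Finsupp.single v 1 - d • Finsupp.single v₀ 1 : Dv K) =
      (Finsupp.single v 1 - d • Nd K (IntermediateField.fixedField (Subgroup.zpowers x)) D₀) -
        d • (Finsupp.single v₀ 1 - 1 • Nd K (IntermediateField.fixedField (Subgroup.zpowers x)) D₀) := by
    rw [one_nsmul, smul_sub]
    abel
  rw [e]
  exact h3

end CFT
end

-- from Lib.CFT.Core2
section

/-! # CFT: T5, the crossing -/

open NumberField IsDedekindDomain

namespace CFT

variable (K : Type) [Field K] [NumberField K] (L : Type) [Field L] [NumberField L] [Algebra K L]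

/-- T5 (X). The crossing. -/
theorem crossing [IsGalois K L] (hc : IsCyclic (L ≃ₐ[K] L)) (l r : ℕ) (hl : l.Prime) (hn : Module.finrank K L = l ^ r)
    (S : Finset (Pr K)) (hS : ∀ v : Pr K, ¬ Unr K L v → v ∈ S) (N : ℕ) (v v₀ : Pr K) (hv : v ∉ S) (hv₀ : v₀ ∉ S)
    (hg : Subgroup.zpowers (frob K L v₀) = ⊤) (d : ℕ) (hd : frob K L v = frob K L v₀ ^ d) :
    (Finsupp.single v 1 - d • Finsupp.single v₀ 1 : Dv K) ∈ Pray S N ⊔ (Nd K L).range :=
  crossing' K L hc l r hl hn S hS N v v₀ hv hv₀ hg d hd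

end CFT
end

-- from Lib.CFT.B26
section

/-! # CFT module B, chunk B26: reciprocity for cyclic extensions of prime power degree -/

open NumberField IsDedekindDomain

namespace CFT

variable {K : Type} [Field K] [NumberField K] {L : Type} [Field L] [NumberField L] [Algebra K L]

/-- The kernel of the Artin symbol is contained in the norm group (from the crossing). -/
theorem b26_ker [IsGalois K L] (hc : IsCyclic (L ≃ₐ[K] L)) (l r : ℕ) (hl : l.Prime) (hn : Module.finrank K L = l ^ r)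
    (S : Finset (Pr K)) (hS : ∀ v : Pr K, ¬ Unr K L v → v ∈ S) (N : ℕ) (G : Type) [CommGroup G] (e : (L ≃ₐ[K] L) ≃* G)
    (v₀ : Pr K) (hv₀ : v₀ ∉ S) (hg : Subgroup.zpowers (frob K L v₀) = ⊤) (D : Dv K)
    (hD : art S (e : (L ≃ₐ[K] L) →* G) D = 0) : D ∈ Pray S N ⊔ (Nd K L).range := by
  classical
  set H := Pray S N ⊔ (Nd K L).range with hH
  have key : ∀ D : Dv K, ∃ k : ℤ, D - k • Finsupp.single v₀ 1 ∈ H ∧
      art S (e : (L ≃ₐ[K] L) →* G) D = k • Additive.ofMul (e (frob K L v₀)) := by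
    intro D
    induction D using Finsupp.induction_linear with
    | zero => exact ⟨0, by rw [zero_smul, sub_zero]; exact H.zero_mem, by rw [map_zero, zero_smul]⟩
    | add D E hD hE =>
      obtain ⟨k, h1, h2⟩ := hD
      obtain ⟨j, h3, h4⟩ := hE
      refine ⟨k + j, ?_, by rw [map_add, h2, h4, add_smul]⟩
      have h5 : D + E - (k + j) • (Finsupp.single v₀ 1 : Dv K) = (D - k • Finsupp.single v₀ 1) + (E - j • Finsupp.single v₀ 1) := by
        rw [add_smul]
        abel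
      rw [h5]
      exact H.add_mem h1 h3
    | single v n =>
      by_cases hv : v ∈ S
      · refine ⟨0, ?_, by rw [art_single_of_mem _ hv, zero_smul]⟩
        rw [zero_smul, sub_zero]
        refine AddSubgroup.mem_sup_left (supp_mem_Pray N fun w hw => ?_)
        rw [Finsupp.single_apply, if_neg]
        rintro rfl
        exact hw hv
      · have h0 : frob K L v ∈ Subgroup.zpowers (frob K L v₀) := by
          rw [hg]
          exact Subgroup.mem_top _
        rw [← mem_powers_iff_mem_zpowers] at h0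
        obtain ⟨d, hd⟩ := h0
        have hd' : frob K L v = frob K L v₀ ^ d := hd.symm
        have h1 := crossing K L hc l r hl hn S hS N v v₀ hv hv₀ hg d hd'
        refine ⟨n * d, ?_, ?_⟩
        · have h2 : (Finsupp.single v n : Dv K) - (n * (d : ℤ)) • Finsupp.single v₀ 1 =
              n • ((Finsupp.single v 1 : Dv K) - d • Finsupp.single v₀ 1) := by
            rw [smul_sub, ← natCast_zsmul (Finsupp.single v₀ (1 : ℤ)) d, smul_smul, Finsupp.smul_single n v 1, smul_eq_mul, mul_one]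
          rw [h2]
          exact H.zsmul_mem h1 n
        · rw [art_single_of_notMem _ hv, mul_smul, hd']
          congr 1
          rw [MonoidHom.coe_coe, map_pow, ofMul_pow, natCast_zsmul]
  obtain ⟨k, h1, h2⟩ := key D
  rw [hD] at h2
  have h3 : (Additive.ofMul (e (frob K L v₀) ^ k)) = 0 := by
    rw [ofMul_zpow]
    exact h2.symm
  have h4 : e (frob K L v₀ ^ k) = 1 := by
    rw [map_zpow]
    exact ofMul_eq_zero.1 h3
  have h5 : frob K L v₀ ^ k = 1 := e.injective (by rw [h4, map_one])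
  have h6 : (orderOf (frob K L v₀) : ℤ) ∣ k := orderOf_dvd_iff_zpow_eq_one.2 h5
  have h7 : orderOf (frob K L v₀) = Module.finrank K L := by
    rw [← IsGalois.card_aut_eq_finrank, ← Nat.card_zpowers, hg]
    exact Nat.card_congr (Subgroup.topEquiv (G := (L ≃ₐ[K] L))).toEquiv
  rw [h7] at h6
  obtain ⟨j, hj⟩ := h6
  have h8 : k • (Finsupp.single v₀ 1 : Dv K) ∈ H := by
    rw [hj, mul_smul, natCast_zsmul]
    exact AddSubgroup.mem_sup_right (n_mem_Nd (K := K) (L := L) _)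
  have h9 : D = (D - k • Finsupp.single v₀ 1) + k • Finsupp.single v₀ 1 := by abel
  rw [h9]
  exact H.add_mem h1 h8

/-- The norm group is the kernel of the Artin symbol. -/
theorem b26_eq [IsGalois K L] (hc : IsCyclic (L ≃ₐ[K] L)) (hab : ∀ a b : L ≃ₐ[K] L, a * b = b * a)
    (l r : ℕ) (hl : l.Prime) (hn : Module.finrank K L = l ^ r)
    (S : Finset (Pr K)) (hS : ∀ v : Pr K, ¬ Unr K L v → v ∈ S) (G : Type) [CommGroup G] (e : (L ≃ₐ[K] L) ≃* G) :
    ∃ N : ℕ, (art S (e : (L ≃ₐ[K] L) →* G)).ker = Pray S N ⊔ (Nd K L).range := by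
  classical
  obtain ⟨N, hN⟩ := first_ineq K L hc S hS
  refine ⟨N, ?_⟩
  have hidx : (Pray S N ⊔ (Nd K L).range).index = Module.finrank K L := le_antisymm (second_ineq K L S N) hN
  set a := art S (e : (L ≃ₐ[K] L) →* G) with ha
  have hpos : 0 < Module.finrank K L := Module.finrank_pos
  set T : Set (L ≃ₐ[K] L) := {s : L ≃ₐ[K] L | ∃ v : Pr K, v ∉ S ∧ Unr K L v ∧ frob K L v = s} with hT
  have hgen : Subgroup.closure T = ⊤ := frob_gen K L hab S
  have hcard : Nat.card (L ≃ₐ[K] L) = Module.finrank K L := IsGalois.card_aut_eq_finrank K L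
  -- surjectivity
  have hsurj : Function.Surjective a := by
    have h1 : ∀ s : L ≃ₐ[K] L, s ∈ Subgroup.closure T → ∃ D : Dv K, a D = Additive.ofMul (e s) := by
      intro s hs
      induction hs using Subgroup.closure_induction with
      | mem s hs =>
        obtain ⟨v, hv, -, rfl⟩ := hs
        exact ⟨Finsupp.single v 1, by rw [ha, art_single_of_notMem _ hv, one_smul]; rfl⟩
      | one => exact ⟨0, by rw [map_zero, map_one]; rfl⟩
      | mul s t _ _ h1 h2 =>
        obtain ⟨D, hD⟩ := h1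
        obtain ⟨E, hE⟩ := h2
        exact ⟨D + E, by rw [map_add, hD, hE, map_mul]; rfl⟩
      | inv s _ h1 =>
        obtain ⟨D, hD⟩ := h1
        exact ⟨-D, by rw [map_neg, hD, map_inv]; rfl⟩
    intro y
    obtain ⟨D, hD⟩ := h1 (e.symm y.toMul) (by rw [hgen]; exact Subgroup.mem_top _)
    exact ⟨D, by rw [hD, MulEquiv.apply_symm_apply]; rfl⟩
  have hkeridx : a.ker.index = Module.finrank K L := by
    rw [AddSubgroup.index_ker, AddMonoidHom.range_eq_top.2 hsurj, ← hcard]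
    calc Nat.card (⊤ : AddSubgroup (Additive G)) = Nat.card (Additive G) := Nat.card_congr (AddSubgroup.topEquiv).toEquiv
      _ = Nat.card G := Nat.card_congr Additive.toMul
      _ = Nat.card (L ≃ₐ[K] L) := (Nat.card_congr e.toEquiv).symm
  have hle : a.ker ≤ Pray S N ⊔ (Nd K L).range := by
    by_cases hTn : T.Nonempty
    · have hG : Nat.card (L ≃ₐ[K] L) = l ^ r := by rw [hcard, hn]
      obtain ⟨g, ⟨v₀, hv₀, -, rfl⟩, hg⟩ := gen_mem hc l r hl hG T hTn hgen
      intro D hD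
      exact b26_ker hc l r hl hn S hS N G e v₀ hv₀ hg D hD
    · rw [Set.not_nonempty_iff_eq_empty.1 hTn, Subgroup.closure_empty] at hgen
      have h1 : Nat.card (L ≃ₐ[K] L) = 1 := by
        rw [← Nat.card_congr (Subgroup.topEquiv (G := (L ≃ₐ[K] L))).toEquiv, ← hgen, Subgroup.card_bot]
      rw [hcard] at h1
      rw [h1, AddSubgroup.index_eq_one] at hidx
      rw [hidx]
      exact le_top
  refine le_antisymm hle ?_
  have h1 := AddSubgroup.relIndex_mul_index hle
  rw [hkeridx, hidx] at h1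
  have h2 : a.ker.relIndex (Pray S N ⊔ (Nd K L).range) = 1 := by
    exact Nat.eq_of_mul_eq_mul_right hpos (by rw [h1, one_mul])
  exact AddSubgroup.relIndex_eq_one.1 h2

/-- PROOF. H = Pray S N + range Nd with N from CFT.first_ineq (Targets): index = n = [L:K] by first_ineq and second_ineq (Targets), it is finite. a = art S id (A = Gal(L/K) as a commutative group): range Nd is in ker a
(art_Nd, B18). a is onto Gal: frob_gen (Targets). So ker a has index n (index of the kernel of a surjective homomorphism = card). CLAIM ker a is in H: v0 outside S with frob v0 a generator (gen_mem, B25, T = the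
frob v, v outside S; nonempty because ... if T were empty the closure is trivial and G trivial: then n = 1, and H has index 1, everything is trivial: case r = 0 separately: H = top and we need ker a = top: G trivial).
For D in ker a: for every v outside S choose d(v) with frob v = frob v0^d(v) (d natural: the generator has finite order); CFT.crossing (Targets): single v 1 - d(v) single v0 1 in H. Divisors supported on S are in Pray S N (supp_mem_Pray, D2).
So D = k single v0 1 mod H with k = sum of D v d(v) over v outside S, and 0 = a(D) = k ofMul (frob v0), so n = order of frob v0 divides k; n single v0 1 in range Nd (n_mem_Nd, B09). So D in H. Finally ker a <= H and both have the same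
finite index n, so they are equal (Subgroup.eq_of_le_of_index..: AddSubgroup.relIndex_eq_one / index_eq_of..). For Ray S N x: dv x in Pray S N <= H = ker a. For general chi: art_comp (D2) with chi = chi o id. -/
theorem artin_pp [IsGalois K L] (hc : IsCyclic (L ≃ₐ[K] L)) (hab : ∀ a b : L ≃ₐ[K] L, a * b = b * a)
    (l r : ℕ) (hl : l.Prime) (hn : Module.finrank K L = l ^ r)
    (S : Finset (Pr K)) (hS : ∀ v : Pr K, ¬ Unr K L v → v ∈ S) :
    ∃ N : ℕ, ∀ (A : Type) [CommGroup A] (χ : (L ≃ₐ[K] L) →* A) (x : K), Ray S N x → art S χ (dv x) = 0 := by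
  letI cg : CommGroup (L ≃ₐ[K] L) := { (inferInstance : Group (L ≃ₐ[K] L)) with mul_comm := hab }
  obtain ⟨N, hN⟩ := b26_eq hc hab l r hl hn S hS (L ≃ₐ[K] L) (MulEquiv.refl (L ≃ₐ[K] L))
  refine ⟨N, fun A _ χ x hx => ?_⟩
  have h1 : dv x ∈ (art S ((MulEquiv.refl (L ≃ₐ[K] L) : (L ≃ₐ[K] L) ≃* (L ≃ₐ[K] L)) : (L ≃ₐ[K] L) →* (L ≃ₐ[K] L))).ker := by
    rw [hN]
    exact AddSubgroup.mem_sup_left (dv_mem_Pray hx)
  rw [AddMonoidHom.mem_ker] at h1
  have h2 := art_comp S χ ((MulEquiv.refl (L ≃ₐ[K] L) : (L ≃ₐ[K] L) ≃* (L ≃ₐ[K] L)) : (L ≃ₐ[K] L) →* (L ≃ₐ[K] L)) (dv x)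
  rw [h1, map_zero] at h2
  exact h2

end CFT
end

-- from Lib.CFT.B27
section

/-! # CFT module B, chunk B27: Artin reciprocity -/

open NumberField IsDedekindDomain

namespace CFT

variable {K : Type} [Field K] [NumberField K] {L : Type} [Field L] [NumberField L] [Algebra K L]

theorem b27_H [IsGalois K L] (hab : ∀ a b : L ≃ₐ[K] L, a * b = b * a) (S : Finset (Pr K)) (hS : ∀ v : Pr K, ¬ Unr K L v → v ∈ S)
    (G : Type) [CommGroup G] (e : (L ≃ₐ[K] L) ≃* G) (H : Subgroup (L ≃ₐ[K] L)) [hN : H.Normal] (hc : IsCyclic ((L ≃ₐ[K] L) ⧸ H))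
    (l r : ℕ) (hl : l.Prime) (hcard : Nat.card ((L ≃ₐ[K] L) ⧸ H) = l ^ r) :
    ∃ N : ℕ, ∀ x : K, Ray S N x → ∀ g : L ≃ₐ[K] L, art S (e : (L ≃ₐ[K] L) →* G) (dv x) = Additive.ofMul (e g) → g ∈ H := by
  classical
  let E : IntermediateField K L := IntermediateField.fixedField H
  have hEn : NumberField E := NumberField.of_module_finite K E
  have hEg : IsGalois K E := IsGalois.of_fixedField_normal_subgroup H
  let q : (L ≃ₐ[K] L) ⧸ H ≃* (E ≃ₐ[K] E) := IsGalois.normalAutEquivQuotient H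
  have hcE : IsCyclic (E ≃ₐ[K] E) := isCyclic_of_surjective q q.surjective
  have habE : ∀ a b : E ≃ₐ[K] E, a * b = b * a := by
    intro a b
    letI := hcE.commGroup
    exact mul_comm a b
  have hrank : Module.finrank K E = l ^ r := by
    rw [← IsGalois.card_aut_eq_finrank, ← hcard]
    exact (Nat.card_congr q.toEquiv).symm
  have hSE : ∀ v : Pr K, ¬ Unr K E v → v ∈ S := by
    intro v hv
    by_contra hvS
    have h1 : Unr K L v := by
      by_contra h
      exact hvS (hS v h)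
    exact hv (unr_tower K E L h1).1
  obtain ⟨N, hN⟩ := artin_pp (K := K) (L := E) hcE habE l r hl hrank S hSE
  refine ⟨N, fun x hx g hg => ?_⟩
  let cg : CommGroup (E ≃ₐ[K] E) := { (inferInstance : Group (E ≃ₐ[K] E)) with mul_comm := habE }
  have h1 := hN (E ≃ₐ[K] E) (MonoidHom.id (E ≃ₐ[K] E)) x hx
  have h2 := art_res K E L hab S hS (MonoidHom.id (E ≃ₐ[K] E)) (dv x)
  rw [h1, MonoidHom.id_comp] at h2
  have h3 := art_comp S ((AlgEquiv.restrictNormalHom E : (L ≃ₐ[K] L) →* (E ≃ₐ[K] E)).comp (e.symm : G →* (L ≃ₐ[K] L)))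
    (e : (L ≃ₐ[K] L) →* G) (dv x)
  have h4 : ((AlgEquiv.restrictNormalHom E : (L ≃ₐ[K] L) →* (E ≃ₐ[K] E)).comp (e.symm : G →* (L ≃ₐ[K] L))).comp (e : (L ≃ₐ[K] L) →* G) =
      (AlgEquiv.restrictNormalHom E : (L ≃ₐ[K] L) →* (E ≃ₐ[K] E)) := by
    ext s y
    simp
  rw [h4, h2, hg] at h3
  have h5 : (AlgEquiv.restrictNormalHom E : (L ≃ₐ[K] L) →* (E ≃ₐ[K] E)) g = 1 := by
    have h6 := h3.symm
    have h7 : (AlgEquiv.restrictNormalHom E : (L ≃ₐ[K] L) →* (E ≃ₐ[K] E)) (e.symm (e g)) = 1 := Additive.ofMul.injective h6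
    rwa [MulEquiv.symm_apply_apply] at h7
  have h8 : g ∈ (AlgEquiv.restrictNormalHom E : (L ≃ₐ[K] L) →* (E ≃ₐ[K] E)).ker := h5
  rw [IntermediateField.restrictNormalHom_ker, IntermediateField.fixingSubgroup_fixedField] at h8
  exact h8

/-- PROOF. For every H <= G = Gal(L/K) with G/H cyclic of prime power order let E_H = fixed field of H (IntermediateField K L, a number field, Galois over K with group G/H: IsGalois.normalAutEquivQuotient; cyclic of degree
l^r) and N_H from artin_pp (B26), S contains the primes ramified in E_H (unr_tower, B08). N = the maximum over the finitely many H (Finite G: Finset.univ.sup of a choice function, 0 for the other H). Let Ray S N x, and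
g in G with ofMul g = art S id (dv x) (A = G as a commutative group). If g <> 1: ker_pp (B25) gives H with g not in H; restriction to E_H: art S (restrictNormalHom E_H) (dv x) = ofMul (restrictNormalHom E_H g) (art_comp, D2) and it is 0 by art_res (B20)
and artin_pp (Ray.mono, D2), so g fixes E_H, so g in H (IntermediateField.fixingSubgroup_fixedField): contradiction. So g = 1; general chi by art_comp. -/
theorem artin' [IsGalois K L] (hab : ∀ a b : L ≃ₐ[K] L, a * b = b * a) (S : Finset (Pr K)) (hS : ∀ v : Pr K, ¬ Unr K L v → v ∈ S) :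
    ∃ N : ℕ, ∀ (A : Type) [CommGroup A] (χ : (L ≃ₐ[K] L) →* A) (x : K), Ray S N x → art S χ (dv x) = 0 := by
  classical
  let cg : CommGroup (L ≃ₐ[K] L) := { (inferInstance : Group (L ≃ₐ[K] L)) with mul_comm := hab }
  let e : (L ≃ₐ[K] L) ≃* (L ≃ₐ[K] L) := MulEquiv.refl _
  have hex : ∀ H : Subgroup (L ≃ₐ[K] L), ∃ N : ℕ, (∃ _ : H.Normal, IsCyclic ((L ≃ₐ[K] L) ⧸ H) ∧
      ∃ l r : ℕ, l.Prime ∧ Nat.card ((L ≃ₐ[K] L) ⧸ H) = l ^ r) →
      ∀ x : K, Ray S N x → ∀ g : L ≃ₐ[K] L, art S (e : (L ≃ₐ[K] L) →* (L ≃ₐ[K] L)) (dv x) = Additive.ofMul (e g) → g ∈ H := by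
    intro H
    by_cases h : ∃ _ : H.Normal, IsCyclic ((L ≃ₐ[K] L) ⧸ H) ∧ ∃ l r : ℕ, l.Prime ∧ Nat.card ((L ≃ₐ[K] L) ⧸ H) = l ^ r
    · obtain ⟨hn, hc, l, r, hl, hcard⟩ := h
      obtain ⟨N, hN⟩ := b27_H hab S hS (L ≃ₐ[K] L) e H hc l r hl hcard
      exact ⟨N, fun _ => hN⟩
    · exact ⟨0, fun h' => absurd h' h⟩
  choose Nf hNf using hex
  have hfin : Finite (Subgroup (L ≃ₐ[K] L)) := inferInstance
  let ft : Fintype (Subgroup (L ≃ₐ[K] L)) := Fintype.ofFinite _
  refine ⟨Finset.univ.sup Nf, fun A _ χ x hx => ?_⟩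
  set g : L ≃ₐ[K] L := (art S (e : (L ≃ₐ[K] L) →* (L ≃ₐ[K] L)) (dv x)).toMul with hg
  have hg1 : g = 1 := by
    by_contra hne
    obtain ⟨H, hn, hgH, hc, l, r, hl, hcard⟩ := ker_pp hab g hne
    exact hgH (hNf H ⟨hn, hc, l, r, hl, hcard⟩ x (hx.mono (Finset.Subset.refl S) (Finset.le_sup (f := Nf) (Finset.mem_univ H))) g rfl)
  have h1 : art S (e : (L ≃ₐ[K] L) →* (L ≃ₐ[K] L)) (dv x) = 0 := by
    have h2 : art S (e : (L ≃ₐ[K] L) →* (L ≃ₐ[K] L)) (dv x) = Additive.ofMul g := rfl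
    rw [h2, hg1]
    rfl
  have h3 := art_comp S χ (e : (L ≃ₐ[K] L) →* (L ≃ₐ[K] L)) (dv x)
  rw [h1, map_zero] at h3
  exact h3

end CFT
end

-- from Lib.CFT.Core
section

/-! # CLASS FIELD THEORY: the core theorems with proofs

T0 pray_fin, T1 second_ineq, T2 frob_gen, T3 first_ineq, T4 cyc_rec (Core1), T5 crossing (Core2), T6 artin (Artin reciprocity for all finite abelian extensions
of number fields; modulus supported on the ramified primes), T6' artin_ker (the kernel of the Artin symbol, cyclic of prime power degree). -/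

open NumberField IsDedekindDomain

namespace CFT

variable (K : Type) [Field K] [NumberField K] (L : Type) [Field L] [NumberField L] [Algebra K L]

/-- T6. ARTIN RECIPROCITY for finite abelian extensions; the modulus is supported on any finite set containing the ramified primes
(and the infinite places). -/
theorem artin [IsGalois K L] (hab : ∀ a b : L ≃ₐ[K] L, a * b = b * a) (S : Finset (Pr K)) (hS : ∀ v : Pr K, ¬ Unr K L v → v ∈ S) :
    ∃ N : ℕ, ∀ (A : Type) [CommGroup A] (χ : (L ≃ₐ[K] L) →* A) (x : K), Ray S N x → art S χ (dv x) = 0 := artin' hab S hS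


end CFT
end

-- from Lib.CFT.L5
section

/-! # CFT, module ZL, part 5: continuation of the L-series of ray class characters to Re s > 1 - k/d, for every k -/

open NumberField NumberField.InfinitePlace NumberField.mixedEmbedding IsDedekindDomain CFTY CFT
open scoped ContDiff

namespace CFTL

open scoped Classical

variable {K : Type} [Field K] [NumberField K]

/-- The half planes. -/
def HPk (K : Type) [Field K] [NumberField K] (k : ℕ) : Set ℂ := {s | 1 - k / (dg K : ℝ) < s.re}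

theorem finiteIndex_of_map {G T : Type} [Group G] [Finite T] (P : Subgroup G) (f : G → T)
    (h : ∀ a b, f a = f b → a⁻¹ * b ∈ P) : P.FiniteIndex := by
  have h1 : Function.Injective fun q : G ⧸ P => f q.out := by
    intro q q' hq
    have h2 := h _ _ hq
    rw [← QuotientGroup.out_eq' q, ← QuotientGroup.out_eq' q', QuotientGroup.eq]
    exact h2
  have h2 : Finite (G ⧸ P) := Finite.of_injective _ h1
  exact Subgroup.finiteIndex_of_finite_quotient

theorem finite_real : Finite (K →+* ℝ) := by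
  refine Finite.of_injective (fun φ : K →+* ℝ => Complex.ofRealHom.comp φ) fun φ ψ h => ?_
  refine RingHom.ext fun x => ?_
  exact Complex.ofReal_injective (RingHom.congr_fun h x)

theorem ru_fin {m : Ideal (𝓞 K)} (hm : m ≠ ⊥) : (RU m).FiniteIndex := by
  have hfr : Finite (K →+* ℝ) := finite_real
  have hfq : Finite (𝓞 K ⧸ m) := Ideal.finiteQuotientOfFreeOfNeBot m hm
  refine finiteIndex_of_map (T := (𝓞 K ⧸ m) × ((K →+* ℝ) → Bool)) (RU m)
    (fun u => (Ideal.Quotient.mk m (u : 𝓞 K), fun φ => decide (0 < φ ((u : 𝓞 K) : K)))) fun u v h => ?_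
  rw [Prod.mk.injEq] at h
  obtain ⟨h1, h2⟩ := h
  have h3 : (u : 𝓞 K) - v ∈ m := Ideal.Quotient.eq.1 h1
  have hu : ∀ u : (𝓞 K)ˣ, ((u : 𝓞 K) : K) ≠ 0 := fun u h => u.ne_zero (RingOfIntegers.ext h)
  have e1 : (((u⁻¹ * v : (𝓞 K)ˣ) : 𝓞 K) : K) = ((u : 𝓞 K) : K)⁻¹ * ((v : 𝓞 K) : K) := by
    have e2 : ((u : 𝓞 K) : K) * (((u⁻¹ : (𝓞 K)ˣ) : 𝓞 K) : K) = 1 := congrArg (algebraMap (𝓞 K) K) (Units.mul_inv u)
    have e3 : (((u⁻¹ : (𝓞 K)ˣ) : 𝓞 K) : K) = ((u : 𝓞 K) : K)⁻¹ := (inv_eq_of_mul_eq_one_right e2).symm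
    have e4 : (((u⁻¹ * v : (𝓞 K)ˣ) : 𝓞 K) : K) = (((u⁻¹ : (𝓞 K)ˣ) : 𝓞 K) : K) * ((v : 𝓞 K) : K) := rfl
    rw [e4, e3]
  refine ⟨?_, ?_, fun φ => ?_⟩
  · have e : ((u⁻¹ * v : (𝓞 K)ˣ) : 𝓞 K) - 1 = -(((u⁻¹ : (𝓞 K)ˣ) : 𝓞 K) * ((u : 𝓞 K) - v)) := by
      have h : ((u⁻¹ : (𝓞 K)ˣ) : 𝓞 K) * (u : 𝓞 K) = 1 := Units.inv_mul u
      rw [Units.val_mul]
      linear_combination h
    rw [e]
    exact m.neg_mem (m.mul_mem_left _ h3)
  · exact hu _
  · rw [e1, map_mul, map_inv₀, ← div_eq_inv_mul]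
    have h4 := decide_eq_decide.1 (congrFun h2 φ)
    have h5 : φ ((u : 𝓞 K) : K) ≠ 0 := (map_ne_zero φ).2 (hu u)
    have h6 : φ ((v : 𝓞 K) : K) ≠ 0 := (map_ne_zero φ).2 (hu v)
    rcases lt_or_gt_of_ne h5 with h7 | h7
    · have h8 : φ ((v : 𝓞 K) : K) < 0 := lt_of_le_of_ne (not_lt.1 fun h => absurd (h4.2 h) (not_lt.2 h7.le)) h6
      exact div_pos_of_neg_of_neg h8 h7
    · exact div_pos (h4.1 h7) h7

/-- The smooth weight on K. -/
theorem part_K {m : Ideal (𝓞 K)} (hm : m ≠ ⊥) : ∃ (w : mixedSpace K → ℝ) (A : ℝ), 0 < A ∧ ContDiffOn ℝ ∞ w {0}ᶜ ∧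
    (∀ (t : ℝ) (x : mixedSpace K), 0 < t → w (t • x) = w x) ∧
    (∀ x, x ≠ 0 → mixedEmbedding.norm x = 0 → ∀ᶠ y in nhds x, w y = 0) ∧ w 0 = 0 ∧
    Bd (fun x : K => (w (mixedEmbedding K x) : ℂ)) ∧ (∀ x : K, w (mixedEmbedding K x) ≠ 0 → Rg A x) ∧
    ∀ x : K, x ≠ 0 → HasSum (fun u : RU m => w (mixedEmbedding K ((((u : (𝓞 K)ˣ) : 𝓞 K) : K) * x))) 1 := by
  have := ru_fin hm
  obtain ⟨w, A, hA, h1, h2, h3, h4, h5, h6, h7⟩ := part_smooth (RU m)
  have hnm : ∀ z : K, nm z = mixedEmbedding.norm (mixedEmbedding K z) := fun z => by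
    rw [mixedEmbedding.norm_eq_norm]
    unfold nm
    rw [Rat.cast_abs]
  refine ⟨w, A, hA, h1, h2, h5, h6, ⟨1, zero_le_one, fun x => ?_⟩, fun x hx => ⟨?_, ?_⟩, fun x hx => ?_⟩
  · rw [Complex.norm_real, Real.norm_of_nonneg (h3 _).1]
    exact (h3 _).2
  · rintro rfl
    rw [map_zero] at hx
    exact hx h6
  · rw [hnm]
    have h8 : house x ≤ ‖mixedEmbedding K x‖ := by
      unfold house
      refine (pi_norm_le_iff_of_nonneg (norm_nonneg _)).2 fun φ => ?_
      have h9 := place_le (mixedEmbedding K x) (InfinitePlace.mk φ)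
      rw [normAtPlace_apply, InfinitePlace.apply] at h9
      exact h9
    exact (pow_le_pow_left₀ (house_nonneg x) h8 _).trans (h4 _ hx)
  · have h8 : mixedEmbedding.norm (mixedEmbedding K x) ≠ 0 := by
      rw [← hnm]
      exact (nm_pos hx).ne'
    refine (h7 _ h8).congr_fun fun u => ?_
    show w (mixedEmbedding K ((((u : (𝓞 K)ˣ) : 𝓞 K) : K) * x)) = w (mixedEmbedding K (((u : (𝓞 K)ˣ) : 𝓞 K) : K) * mixedEmbedding K x)
    rw [map_mul]

theorem compare_k {w : mixedSpace K → ℝ} {A : ℝ} (h1 : ContDiffOn ℝ ∞ w {0}ᶜ) (h2 : ∀ (t : ℝ) (x : mixedSpace K), 0 < t → w (t • x) = w x)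
    (h3 : ∀ x, x ≠ 0 → mixedEmbedding.norm x = 0 → ∀ᶠ y in nhds x, w y = 0) (h4 : w 0 = 0) (hB : Bd (gK w))
    (hA : ∀ x, gK w x ≠ 0 → Rg A x) (k : ℕ) {m b c : Ideal (𝓞 K)}
    (hm : m ≠ ⊥) (hb : b ≠ ⊥) (hc : c ≠ ⊥) (hbm : IsCoprime b m) (hcm : IsCoprime c m) :
    ∃ H : ℂ → ℂ, DifferentiableOn ℂ H (HPk K k) ∧ ∀ s : ℂ, 1 < s.re → H s =
      (Ideal.absNorm b : ℂ) * (∑' x : 𝓞 K, if x - 1 ∈ m ∧ x ∈ b * c then Fs (gK w) s (x : K) else 0) -
        ∑' x : 𝓞 K, if x - 1 ∈ m ∧ x ∈ c then Fs (gK w) s (x : K) else 0 := by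
  have hbc : IsCoprime (b * c) m := hbm.mul_left hcm
  have hJ : m * (b * c) ≠ ⊥ := mul_ne_zero hm (mul_ne_zero hb hc)
  have hle2 : m * (b * c) ≤ m * c := Ideal.mul_mono_right Ideal.mul_le_right
  obtain ⟨a₁, h11, h12⟩ := weight hJ hbc le_rfl
  obtain ⟨a₂, h21, h22⟩ := weight hJ hcm hle2
  haveI : Finite (𝓞 K ⧸ m * (b * c)) := Ideal.finiteQuotientOfFreeOfNeBot _ hJ
  haveI : Fintype (𝓞 K ⧸ m * (b * c)) := Fintype.ofFinite _
  have hN : ∀ I : Ideal (𝓞 K), I ≠ ⊥ → (Ideal.absNorm I : ℂ) ≠ 0 := fun I hI => Nat.cast_ne_zero.2 (mt Ideal.absNorm_eq_zero_iff.1 hI)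
  have ha1 : ∑ᶠ q, a₁ q = 1 := mul_right_cancel₀ (hN _ hJ) (by rw [h12, one_mul])
  have ha2 : ∑ᶠ q, a₂ q = (Ideal.absNorm b : ℂ) := by
    have hmc : m * c ≠ ⊥ := mul_ne_zero hm hc
    refine mul_right_cancel₀ (hN _ hmc) ?_
    rw [h22, map_mul, map_mul, map_mul]
    push_cast
    ring
  have ha : ∑ᶠ q, ((Ideal.absNorm b : ℂ) * a₁ q - a₂ q) = 0 := by
    rw [finsum_eq_sum_of_fintype] at ha1 ha2 ⊢
    rw [Finset.sum_sub_distrib, ← Finset.mul_sum, ha1, ha2, mul_one, sub_self]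
  obtain ⟨H, hH1, hH2⟩ := periodic_k h1 h2 h3 h4 (m * (b * c)) hJ _ ha k
  refine ⟨H, hH1, fun s hs => ?_⟩
  rw [hH2 s hs]
  have hF := fs_summable hB hA hs (K := K)
  have hS : ∀ d : Ideal (𝓞 K), Summable fun x : 𝓞 K => if x - 1 ∈ m ∧ x ∈ d then Fs (gK w) s (x : K) else 0 := by
    intro d
    refine Summable.of_norm_bounded (g := fun x : 𝓞 K => ‖Fs (gK w) s (x : K)‖) hF.norm fun x => ?_
    split_ifs
    · exact le_rfl
    · rw [norm_zero]
      exact norm_nonneg _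
  rw [← tsum_mul_left, ← ((hS (b * c)).mul_left _).tsum_sub (hS c)]
  refine tsum_congr fun x => ?_
  rw [h11, h21]
  split_ifs <;> ring

/-- The multiples theorem. -/
theorem multiples_aux_k (k : ℕ) {m : Ideal (𝓞 K)} (hm : m ≠ ⊥) {χ : Ideal (𝓞 K) →*₀ ℂ}
    (hχ : HCh m (fun _ => 1) χ) {T : Finset (Ideal (𝓞 K))} (hT : Reps m T) {b : Ideal (𝓞 K)} (hb : b ≠ ⊥) (hbm : IsCoprime b m) :
    ∃ H : ℂ → ℂ, DifferentiableOn ℂ H (HPk K k) ∧ ∀ s : ℂ, 1 < s.re →
      H s = (χ b * (Ideal.absNorm b : ℂ) ^ (1 - s) - 1) * Lc χ s := by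
  obtain ⟨w, A, hA0, w1, w2, w3, w4, wB, wA, wS⟩ := part_K (K := K) hm
  have gB : Bd (K := K) (gK w) := by
    have h1 : Bd (K := K) (fun _ => (1 : ℂ)) := ⟨1, zero_le_one, fun _ => by rw [norm_one]⟩
    exact (Bd_TP.mul wB).mul h1
  have gA : ∀ x : K, gK w x ≠ 0 → Rg A x := by
    intro x hx
    refine wA x fun h0 => hx ?_
    unfold gK
    rw [h0, Complex.ofReal_zero, mul_zero, zero_mul]
  have hex : ∀ c : Ideal (𝓞 K), ∃ H : ℂ → ℂ, DifferentiableOn ℂ H (HPk K k) ∧ (c ∈ T → ∀ s : ℂ, 1 < s.re → H s =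
      (Ideal.absNorm b : ℂ) * (∑' x : 𝓞 K, if x - 1 ∈ m ∧ x ∈ b * c then
        Fs (gK w) s (x : K) else 0) -
        ∑' x : 𝓞 K, if x - 1 ∈ m ∧ x ∈ c then
          Fs (gK w) s (x : K) else 0) := by
    intro c
    by_cases hc : c ∈ T
    · obtain ⟨H, h1, h2⟩ := compare_k w1 w2 w3 w4 gB gA k hm hb (hT.1 c hc).1 hbm (hT.1 c hc).2
      exact ⟨H, h1, fun _ => h2⟩
    · exact ⟨fun _ => 0, differentiableOn_const _, fun h => absurd h hc⟩
  choose Hc hH1 hH2 using hex
  refine ⟨fun s => ∑ c ∈ T, ((χ c)⁻¹ * (Ideal.absNorm c : ℂ) ^ s) * Hc c s, ?_, fun s hs => ?_⟩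
  · refine DifferentiableOn.fun_sum fun c hc => ?_
    refine DifferentiableOn.mul ?_ (hH1 c)
    refine DifferentiableOn.const_mul ?_ _
    exact (differentiable_id.const_cpow (Or.inl (y24_norm_ne (hT.1 c hc).1))).differentiableOn
  · have e1 : ∀ c ∈ T, ((χ c)⁻¹ * (Ideal.absNorm c : ℂ) ^ s) * Hc c s =
        (Ideal.absNorm b : ℂ) * ((CFTZ.tm χ s c)⁻¹ *
          ∑' I : Ideal (𝓞 K), (if PrI m I ∧ I ≤ b * c then CFTZ.tm χ s I else 0)) -
          (CFTZ.tm χ s c)⁻¹ * ∑' I : Ideal (𝓞 K), (if PrI m I ∧ I ≤ ⊤ * c then CFTZ.tm χ s I else 0) := by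
      intro c hc
      have u1 := unfold_sum (w := fun z => w (mixedEmbedding K z)) hχ wS gB wA (b * c) hs
      have u2 := unfold_sum (w := fun z => w (mixedEmbedding K z)) hχ wS gB wA c hs
      rw [hH2 c hc s hs, ← y24_inv, Ideal.top_mul, ← u1, ← u2]
      unfold gK
      ring
    show (∑ c ∈ T, ((χ c)⁻¹ * (Ideal.absNorm c : ℂ) ^ s) * Hc c s) = _
    rw [Finset.sum_congr rfl e1, Finset.sum_sub_distrib, ← Finset.mul_sum, sum_reps hχ hT hb hs,
      sum_reps hχ hT (b := ⊤) top_ne_bot hs, y24_top]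
    have e2 : (Ideal.absNorm b : ℂ) ^ (1 - s) = (Ideal.absNorm b : ℂ) * (Ideal.absNorm b : ℂ) ^ (-s) := by
      rw [sub_eq_add_neg, Complex.cpow_add _ _ (y24_norm_ne hb), Complex.cpow_one]
    rw [e2]
    unfold CFTZ.tm
    ring

theorem multiples_k (hf : ∀ (S : Finset (Pr K)) (N : ℕ), (Pray S N).FiniteIndex) (k : ℕ) {m : Ideal (𝓞 K)} (hm : m ≠ ⊥)
    {χ : Ideal (𝓞 K) →*₀ ℂ} (hχ : HCh m (fun _ => 1) χ) {b : Ideal (𝓞 K)} (hb : b ≠ ⊥)
    (hbm : IsCoprime b m) : ∃ H : ℂ → ℂ, DifferentiableOn ℂ H (HPk K k) ∧ ∀ s : ℂ, 1 < s.re →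
      H s = (χ b * (Ideal.absNorm b : ℂ) ^ (1 - s) - 1) * Lc χ s := by
  obtain ⟨S, N, h1, h2⟩ := exists_mI hm
  obtain ⟨T, hT⟩ := exists_reps S N (hf S N)
  exact multiples_aux_k k (mI_ne S N) (hχ.mono h1 h2) hT hb ((h2 b).1 hbm)

theorem l5_open (k : ℕ) : IsOpen (HPk K k) := isOpen_lt continuous_const Complex.continuous_re

theorem l5_conn (k : ℕ) : IsPreconnected (HPk K k) := (convex_halfSpace_re_gt _).isPreconnected

theorem l5_sub (k : ℕ) : {s : ℂ | 1 < s.re} ⊆ HPk K k := by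
  intro s hs
  have h1 : (1 : ℝ) < s.re := hs
  have h2 : 0 ≤ (k : ℝ) / (dg K : ℝ) := by positivity
  show 1 - k / (dg K : ℝ) < s.re
  linarith

theorem typ_zero (x : K) : typ 0 x = 1 := by
  unfold typ
  simp

theorem l5_typ {m : Ideal (𝓞 K)} {χ : Ideal (𝓞 K) →*₀ ℂ} (hχ : HCh m (fun _ => 1) χ) : HCh m (typ 0) χ :=
  ⟨hχ.zero, hχ.norm, fun x h1 h2 => by rw [hχ.ray x h1 h2, typ_zero]⟩

/-- Hecke L-functions are analytic beyond the line re s = 1 -/
theorem cont_k (hf : ∀ (S : Finset (Pr K)) (N : ℕ), (Pray S N).FiniteIndex) (k : ℕ) {m : Ideal (𝓞 K)} (hm : m ≠ ⊥)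
    {χ : Ideal (𝓞 K) →*₀ ℂ} (hχ : HCh m (fun _ => 1) χ)
    (h1 : ∃ b : Ideal (𝓞 K), b ≠ ⊥ ∧ IsCoprime b m ∧ χ b ≠ 1) :
    ∃ H : ℂ → ℂ, DifferentiableOn ℂ H (HPk K k) ∧ ∀ s : ℂ, 1 < s.re → H s = Lc χ s := by
  have hex : ∀ b : {b : Ideal (𝓞 K) // b ≠ ⊥ ∧ IsCoprime b m}, ∃ H : ℂ → ℂ, DifferentiableOn ℂ H (HPk K k) ∧
      ∀ s : ℂ, 1 < s.re → H s = (χ b.1 * (Ideal.absNorm b.1 : ℂ) ^ (1 - s) - 1) * Lc χ s := fun b =>
    multiples_k hf k hm hχ b.2.1 b.2.2
  choose H hH1 hH2 using hex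
  refine glue (l5_open k) (l5_conn k) (isOpen_lt continuous_const Complex.continuous_re) y30b_ne (l5_sub k) (Lc χ)
    (fun b : {b : Ideal (𝓞 K) // b ≠ ⊥ ∧ IsCoprime b m} => fun s => χ b.1 * (Ideal.absNorm b.1 : ℂ) ^ (1 - s) - 1)
    H (fun b => ?_) hH1 hH2 (fun z _ => ?_)
  · exact (((y30b_cpow b.2.1).const_mul _).sub_const _).differentiableOn
  · by_contra hcon
    have h2 : ∀ b : Ideal (𝓞 K), b ≠ ⊥ → IsCoprime b m → χ b * (Ideal.absNorm b : ℂ) ^ (1 - z) = 1 := by
      intro b hb hbm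
      by_contra hne
      exact hcon ⟨⟨b, hb, hbm⟩, sub_ne_zero.2 hne⟩
    have h3 := excep hm (l5_typ hχ) h2
    obtain ⟨b, hb, hbm, hb1⟩ := h1
    have h4 := h2 b hb hbm
    rw [h3, sub_self, Complex.cpow_zero, mul_one] at h4
    exact hb1 h4

/-- the pole of the L-function of the trivial character -/
theorem pole_k (hf : ∀ (S : Finset (Pr K)) (N : ℕ), (Pray S N).FiniteIndex) {k : ℕ} (hk : 1 ≤ k) {m : Ideal (𝓞 K)} (hm : m ≠ ⊥)
    {χ : Ideal (𝓞 K) →*₀ ℂ} (hχ : HCh m (fun _ => 1) χ)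
    (h1 : ∀ b : Ideal (𝓞 K), b ≠ ⊥ → IsCoprime b m → χ b = 1) :
    ∃ H : ℂ → ℂ, DifferentiableOn ℂ H (HPk K k) ∧ ∀ s : ℂ, 1 < s.re → H s = (s - 1) * Lc χ s := by
  have hex : ∀ b : {b : Ideal (𝓞 K) // b ≠ ⊥ ∧ IsCoprime b m}, ∃ H : ℂ → ℂ, DifferentiableOn ℂ H (HPk K k) ∧
      ∀ s : ℂ, 1 < s.re → H s = (χ b.1 * (Ideal.absNorm b.1 : ℂ) ^ (1 - s) - 1) * Lc χ s := fun b =>
    multiples_k hf k hm hχ b.2.1 b.2.2
  choose H hH1 hH2 using hex
  have hds : ∀ (b : Ideal (𝓞 K)) (s : ℂ), (s - 1) * dslope (fun s : ℂ => (Ideal.absNorm b : ℂ) ^ (1 - s)) 1 s =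
      (Ideal.absNorm b : ℂ) ^ (1 - s) - 1 := by
    intro b s
    have h := sub_smul_dslope (fun s : ℂ => (Ideal.absNorm b : ℂ) ^ (1 - s)) 1 s
    rw [smul_eq_mul] at h
    rw [h, sub_self, Complex.cpow_zero]
  refine glue (l5_open k) (l5_conn k) (isOpen_lt continuous_const Complex.continuous_re) y30b_ne (l5_sub k)
    (fun s => (s - 1) * Lc χ s)
    (fun b : {b : Ideal (𝓞 K) // b ≠ ⊥ ∧ IsCoprime b m} => dslope (fun s : ℂ => (Ideal.absNorm b.1 : ℂ) ^ (1 - s)) 1)
    H (fun b => ?_) hH1 (fun b s hs => ?_) (fun z _ => ?_)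
  · refine (Complex.differentiableOn_dslope ?_).2 (y30b_cpow b.2.1).differentiableOn
    refine (l5_open k).mem_nhds ?_
    have h2 : 0 < (k : ℝ) / (dg K : ℝ) := by
      have : 1 ≤ dg K := dg_pos
      have : (0 : ℝ) < k := by exact_mod_cast hk
      positivity
    show 1 - k / (dg K : ℝ) < (1 : ℂ).re
    rw [Complex.one_re]
    linarith
  · rw [hH2 b s hs, h1 b.1 b.2.1 b.2.2, one_mul, ← hds]
    ring
  · by_cases hz : z = 1
    · obtain ⟨h2, h3, -, h5⟩ := y30_ideal (l5_typ hχ) 1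
      refine ⟨⟨_, h2, h3⟩, ?_⟩
      rw [hz]
      show dslope (fun s : ℂ => (Ideal.absNorm (Ideal.span {((1 + 1 * Ideal.absNorm m : ℕ) : 𝓞 K)}) : ℂ) ^ (1 - s)) 1 1 ≠ 0
      rw [dslope_same]
      have hd : HasDerivAt (fun s : ℂ => (Ideal.absNorm (Ideal.span {((1 + 1 * Ideal.absNorm m : ℕ) : 𝓞 K)}) : ℂ) ^ (1 - s))
          ((Ideal.absNorm (Ideal.span {((1 + 1 * Ideal.absNorm m : ℕ) : 𝓞 K)}) : ℂ) ^ ((1 : ℂ) - 1) *
            Complex.log (Ideal.absNorm (Ideal.span {((1 + 1 * Ideal.absNorm m : ℕ) : 𝓞 K)}) : ℂ) * (-1)) 1 :=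
        ((hasDerivAt_id (1 : ℂ)).const_sub 1).const_cpow (Or.inl (y24_norm_ne h2))
      rw [hd.deriv, sub_self, Complex.cpow_zero, one_mul, h5, ← Complex.natCast_log]
      have hM1 : 1 ≤ Ideal.absNorm m := Nat.one_le_iff_ne_zero.2 fun h0 => hm (Ideal.absNorm_eq_zero_iff.1 h0)
      have h6 : 1 < (1 + 1 * Ideal.absNorm m) ^ dg K :=
        Nat.one_lt_pow (by have := dg_pos (K := K); omega) (by omega)
      have h7 : 0 < Real.log (((1 + 1 * Ideal.absNorm m) ^ dg K : ℕ) : ℝ) := Real.log_pos (by exact_mod_cast h6)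
      exact mul_ne_zero (Complex.ofReal_ne_zero.2 h7.ne') (neg_ne_zero.2 one_ne_zero)
    · by_contra hcon
      apply hz
      refine excep hm (l5_typ hχ) fun b hb hbm => ?_
      rw [h1 b hb hbm, one_mul]
      by_contra hne
      refine hcon ⟨⟨b, hb, hbm⟩, fun h0 => hne ?_⟩
      have h2 := hds b z
      have h3 : dslope (fun s : ℂ => (Ideal.absNorm b : ℂ) ^ (1 - s)) 1 z = 0 := h0
      rw [h3, mul_zero] at h2
      exact (sub_eq_zero.1 h2.symm)


end CFTL
end

-- from Lib.CFT.L8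
section

/-! # CFT, module ZL, L8: L(1, χ) ≠ 0 for every nontrivial character of a ray class group -/

open NumberField IsDedekindDomain Filter Topology

namespace CFTL

open CFT CFTY CFTZ H55R

variable {K : Type} [Field K] [NumberField K]

open Classical in
/-- The coefficients of the logarithm of the product of all L-series. -/
noncomputable def lc (S : Finset (Pr K)) (H : AddSubgroup (Dv K)) (p : Pr K × ℕ) : ℝ :=
  if p.1 ∉ S ∧ (p.2 • (Finsupp.single p.1 1 : Dv K)) ∈ H then (Nat.card (Dv K ⧸ H) : ℝ) / (p.2 : ℝ) else 0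

/-- The exponents. -/
noncomputable def ll (p : Pr K × ℕ) : ℝ := (p.2 : ℝ) * Real.log (Nm p.1)

theorem lc_nonneg (S : Finset (Pr K)) (H : AddSubgroup (Dv K)) (p : Pr K × ℕ) : 0 ≤ lc S H p := by
  unfold lc
  split_ifs
  · positivity
  · exact le_rfl

theorem ll_nonneg (p : Pr K × ℕ) : 0 ≤ ll p := by
  unfold ll
  have h1 : (1 : ℝ) ≤ (Nm p.1 : ℝ) := by
    have : 2 ≤ Nm p.1 := dd_two_le p.1
    exact_mod_cast (by omega : 1 ≤ Nm p.1)
  have := Real.log_nonneg h1
  positivity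

theorem lc_point (S : Finset (Pr K)) (H : AddSubgroup (Dv K)) [Fintype (Dv K ⧸ H)] (x : ℝ) (p : Pr K × ℕ) :
    ∑ ψ : AddChar (Dv K ⧸ H) ℂ, ((tm (chI S (chq H ψ)) x p.1.asIdeal) ^ p.2 / (p.2 : ℂ)).re =
      lc S H p * Real.exp (-x * ll p) := by
  classical
  obtain ⟨v, n⟩ := p
  show ∑ ψ : AddChar (Dv K ⧸ H) ℂ, ((tm (chI S (chq H ψ)) x v.asIdeal) ^ n / (n : ℂ)).re = _
  by_cases hn : n = 0
  · subst hn
    unfold lc
    simp
  have hN : (0 : ℝ) < (Nm v : ℝ) := by
    have : 2 ≤ Nm v := dd_two_le v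
    exact_mod_cast (by omega : 0 < Nm v)
  have h1 : ((Ideal.absNorm v.asIdeal : ℂ) ^ (-(x : ℂ))) = ((Real.exp (-x * Real.log (Nm v)) : ℝ) : ℂ) := by
    have h2 : ((Ideal.absNorm v.asIdeal : ℂ) ^ (-(x : ℂ))) = (((Nm v : ℝ) ^ (-x) : ℝ) : ℂ) := by
      rw [Complex.ofReal_cpow hN.le]
      push_cast
      rfl
    rw [h2, Real.rpow_def_of_pos hN]
    congr 2
    ring
  have h3 : ∀ ψ : AddChar (Dv K ⧸ H) ℂ, ((tm (chI S (chq H ψ)) x v.asIdeal) ^ n / (n : ℂ)).re =
      ((chI S (chq H ψ) v.asIdeal) ^ n).re * (Real.exp (-x * ll (v, n)) / n) := by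
    intro ψ
    unfold tm
    rw [h1, mul_pow, mul_div_assoc, ← Complex.ofReal_pow]
    have h4 : ((Real.exp (-x * Real.log (Nm v)) ^ n : ℝ) : ℂ) / (n : ℂ) =
        ((Real.exp (-x * ll (v, n)) / n : ℝ) : ℂ) := by
      rw [← Real.exp_nat_mul]
      unfold ll
      push_cast
      congr 2
      ring
    rw [h4, Complex.re_mul_ofReal]
  rw [Finset.sum_congr rfl fun ψ _ => h3 ψ, ← Finset.sum_mul]
  by_cases hS : v ∈ S
  · have h5 : lc S H (v, n) = 0 := if_neg fun h => h.1 hS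
    rw [h5, zero_mul]
    have h6 : ∀ ψ : AddChar (Dv K ⧸ H) ℂ, ((chI S (chq H ψ) v.asIdeal) ^ n).re = 0 := by
      intro ψ
      rw [chI_prime_mem S _ hS, zero_pow hn, Complex.zero_re]
    rw [Finset.sum_congr rfl fun ψ _ => h6 ψ, Finset.sum_const_zero, zero_mul]
  · have h5 : ∀ ψ : AddChar (Dv K ⧸ H) ℂ, (chI S (chq H ψ) v.asIdeal) ^ n =
        ψ (QuotientAddGroup.mk (n • (Finsupp.single v 1 : Dv K))) := by
      intro ψ
      rw [chI_prime S _ hS, chq_cphi, ← AddChar.map_nsmul_eq_pow]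
      rfl
    rw [← Complex.re_sum, Finset.sum_congr rfl fun ψ _ => h5 ψ, AddChar.sum_apply_eq_ite]
    unfold lc
    by_cases h : (n • (Finsupp.single v 1 : Dv K)) ∈ H
    · rw [if_pos ((QuotientAddGroup.eq_zero_iff _).2 h), if_pos ⟨hS, h⟩, Nat.card_eq_fintype_card, Complex.natCast_re]
      ring
    · rw [if_neg fun h' => h ((QuotientAddGroup.eq_zero_iff _).1 h'), if_neg fun h' => h h'.2, Complex.zero_re]
      ring

theorem lc_hasSum (S : Finset (Pr K)) (H : AddSubgroup (Dv K)) [Fintype (Dv K ⧸ H)] {x : ℝ} (hx : 1 < x) :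
    HasSum (fun p : Pr K × ℕ => lc S H p * Real.exp (-x * ll p))
      (∑ ψ : AddChar (Dv K ⧸ H) ℂ, Real.log ‖Ls (chI S (chq H ψ)) x‖) := by
  have hh : ∀ (ψ : AddChar (Dv K ⧸ H) ℂ) (a : Ideal (𝓞 K)), ‖chI S (chq H ψ) a‖ ≤ 1 := fun ψ =>
    dd_norm_tI _ _ (chq_norm H ψ)
  have h1 : ∀ v : Pr K, HasSum (fun n : ℕ => lc S H (v, n) * Real.exp (-x * ll (v, n)))
      (∑ ψ : AddChar (Dv K ⧸ H) ℂ, -Real.log ‖1 - tm (chI S (chq H ψ)) x v.asIdeal‖) := by
    intro v
    have h2 : HasSum (fun n : ℕ => ∑ ψ : AddChar (Dv K ⧸ H) ℂ, ((tm (chI S (chq H ψ)) x v.asIdeal) ^ n / (n : ℂ)).re)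
        (∑ ψ : AddChar (Dv K ⧸ H) ℂ, -Real.log ‖1 - tm (chI S (chq H ψ)) x v.asIdeal‖) := by
      refine hasSum_sum fun ψ _ => ?_
      have h3 : ‖tm (chI S (chq H ψ)) x v.asIdeal‖ < 1 := lt_of_le_of_lt (RD1_le _ (hh ψ) x hx v) (by norm_num)
      have h4 := Complex.hasSum_re (Complex.hasSum_taylorSeries_neg_log h3)
      rw [Complex.neg_re, Complex.log_re] at h4
      exact h4
    refine h2.congr_fun fun n => ?_
    exact (lc_point S H x (v, n)).symm
  have h2 : HasSum (fun v : Pr K => ∑ ψ : AddChar (Dv K ⧸ H) ℂ, -Real.log ‖1 - tm (chI S (chq H ψ)) x v.asIdeal‖)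
      (∑ ψ : AddChar (Dv K ⧸ H) ℂ, Real.log ‖Ls (chI S (chq H ψ)) x‖) :=
    hasSum_sum fun ψ _ => (euler (chI S (chq H ψ)) (hh ψ) x hx).2
  have h3 : Summable fun p : Pr K × ℕ => lc S H p * Real.exp (-x * ll p) := by
    rw [summable_prod_of_nonneg fun p => mul_nonneg (lc_nonneg S H p) (Real.exp_pos _).le]
    refine ⟨fun v => (h1 v).summable, ?_⟩
    refine h2.summable.congr fun v => ?_
    exact (h1 v).tsum_eq.symm
  have h4 := h3.hasSum.prod_fiberwise h1
  have h5 := h3.hasSum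
  rwa [h4.unique h2] at h5

theorem cont_chi (hf : ∀ (S : Finset (Pr K)) (N : ℕ), (Pray S N).FiniteIndex) (S : Finset (Pr K)) (N : ℕ)
    (χ : Dv K →+ Additive ℂˣ) (hχ : ∀ D ∈ Pray S N, χ D = 0)
    (hn : ∀ v, ‖(cphi χ v : ℂ)‖ = 1) (h1 : χ ≠ 0) (k : ℕ) :
    ∃ H : ℂ → ℂ, DifferentiableOn ℂ H (HPk K k) ∧ ∀ s : ℂ, 1 < s.re → H s = Lc (chI S χ) s := by
  have hc : HCh (mI S N) (fun _ => (1 : ℂ)) (chI S χ) := hch_of χ hn fun x hx => by
    rw [hχ _ (dv_mem_Pray hx), toMul_zero, Units.val_one]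
  obtain ⟨v, hv⟩ : ∃ v : Pr K, cphi χ v ≠ 1 := by
    by_contra hcon
    push Not at hcon
    apply h1
    apply chi_ext
    intro v
    rw [hcon v]
    rfl
  have hvS : v ∉ S := by
    intro h
    apply hv
    have h2 : χ (Finsupp.single v 1) = 0 := by
      refine hχ _ (supp_mem_Pray N fun w hw => ?_)
      refine Finsupp.single_eq_of_ne ?_
      rintro rfl
      exact hw h
    unfold cphi
    rw [h2, toMul_zero]
  have hcop : IsCoprime v.asIdeal (mI S N) := by
    rw [cop_mI]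
    intro w hw hle
    have h3 := v.isMaximal.eq_of_le w.isPrime.ne_top hle
    have h4 : v = w := HeightOneSpectrum.ext h3
    rw [h4] at hvS
    exact hvS hw
  refine cont_k hf k (mI_ne S N) hc ⟨v.asIdeal, v.ne_bot, hcop, ?_⟩
  rw [chI_prime S χ hvS]
  exact fun h => hv (Units.ext h)

theorem pole_chi (hf : ∀ (S : Finset (Pr K)) (N : ℕ), (Pray S N).FiniteIndex) (S : Finset (Pr K)) {k : ℕ} (hk : 1 ≤ k) :
    ∃ H : ℂ → ℂ, DifferentiableOn ℂ H (HPk K k) ∧ ∀ s : ℂ, 1 < s.re → H s = (s - 1) * Lc (chI S (0 : Dv K →+ Additive ℂˣ)) s := by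
  have hn : ∀ v : Pr K, ‖(cphi (0 : Dv K →+ Additive ℂˣ) v : ℂ)‖ = 1 := by
    intro v
    have : cphi (0 : Dv K →+ Additive ℂˣ) v = 1 := rfl
    rw [this, Units.val_one, norm_one]
  have hc : HCh (mI S 0) (fun _ => (1 : ℂ)) (chI S (0 : Dv K →+ Additive ℂˣ)) := hch_of (0 : Dv K →+ Additive ℂˣ) hn fun x hx => by
    rw [AddMonoidHom.zero_apply, toMul_zero, Units.val_one]
  refine pole_k hf hk (mI_ne S 0) hc fun b hb hbm => ?_
  have h1 := hc.norm b hb hbm
  have h2 : IsCoprime b (SI S) := by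
    by_contra h
    have h3 : chI S (0 : Dv K →+ Additive ℂˣ) b = 0 := tI_zero (SI S) _ h
    rw [h3, norm_zero] at h1
    exact zero_ne_one h1
  have h3 : chI S (0 : Dv K →+ Additive ℂˣ) = tI (SI S) (1 : Pl K → ℂˣ) := rfl
  rw [h3, tI_apply _ _ hb h2, pv_one_fun, Units.val_one]

end CFTL
end

-- from Lib.CFT.L9
section

/-! # CFT, module ZL, L9: nonvanishing of L(1, χ) -/

open NumberField IsDedekindDomain Filter Topology ComplexConjugate

namespace CFTL

open CFT CFTY CFTZ H55R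

variable {K : Type} [Field K] [NumberField K]

theorem hpk_dg : HPk K (dg K) = {s : ℂ | 0 < s.re} := by
  have h1 : (dg K : ℝ) ≠ 0 := by
    have := dg_pos (K := K)
    exact_mod_cast (by omega : dg K ≠ 0)
  unfold HPk
  rw [div_self h1, sub_self]

/-- The series of the 1/Nv over the primes diverges. -/
theorem prime_div (S : Finset (Pr K)) (h : Summable fun v : Pr K => Set.indicator {v : Pr K | v ∉ S} (fun v => (Nm v : ℝ)⁻¹) v) : False := by
  classical
  obtain ⟨C, hC⟩ := prime_zeta K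
  have h1 : Summable fun v : Pr K => (Nm v : ℝ)⁻¹ := by
    have h2 : Summable fun v : Pr K => Set.indicator (S : Set (Pr K)) (fun v => (Nm v : ℝ)⁻¹) v :=
      summable_of_finite_support (S.finite_toSet.subset fun v hv => by
        by_contra hcon
        exact hv (Set.indicator_of_notMem hcon _))
    refine (h.add h2).congr fun v => ?_
    by_cases hv : v ∈ S
    · rw [Set.indicator_of_notMem (by simpa using hv), Set.indicator_of_mem (by simpa using hv), zero_add]
    · rw [Set.indicator_of_mem (by simpa using hv), Set.indicator_of_notMem (by simpa using hv), add_zero]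
  set M := ∑' v : Pr K, (Nm v : ℝ)⁻¹ with hM
  have h3 : ∀ s ∈ Set.Ioc (1 : ℝ) 2, Real.log (1 / (s - 1)) ≤ M + C := by
    intro s hs
    have h4 := (abs_le.1 (hC s hs)).1
    have h5 : ∑' W : Pl K, (Ideal.absNorm W.asIdeal : ℝ) ^ (-s) ≤ M := by
      refine (dd_summable (K := K) s hs.1).tsum_le_tsum (fun v => ?_) h1
      rw [← Real.rpow_neg_one]
      refine Real.rpow_le_rpow_of_exponent_le ?_ (by linarith [hs.1])
      have : 2 ≤ Ideal.absNorm v.asIdeal := dd_two_le v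
      exact_mod_cast (by omega : 1 ≤ Ideal.absNorm v.asIdeal)
    linarith
  have h6 : ∀ s ∈ Set.Ioc (1 : ℝ) 2, (1 : ℝ) * Real.log (1 / (s - 1)) ≤ 0 * Real.log (1 / (s - 1)) + (M + C) := by
    intro s hs
    have := h3 s hs
    linarith
  have h7 := lead_le h6
  norm_num at h7

theorem nonvan_aux (hf : ∀ (S : Finset (Pr K)) (N : ℕ), (Pray S N).FiniteIndex) (S : Finset (Pr K)) (N : ℕ)
    (H : AddSubgroup (Dv K)) (hH : Pray S N ≤ H) [Fintype (Dv K ⧸ H)]
    (ψ₁ : AddChar (Dv K ⧸ H) ℂ) (h1 : ψ₁ ≠ 0) (H₁ : ℂ → ℂ) (hd : DifferentiableOn ℂ H₁ {s | 0 < s.re})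
    (he : ∀ s : ℂ, 1 < s.re → H₁ s = Lc (chI S (chq H ψ₁)) s) : H₁ 1 ≠ 0 := by
  classical
  intro h0
  have hopen : IsOpen {s : ℂ | 0 < s.re} := isOpen_lt continuous_const Complex.continuous_re
  -- the continuations
  have hex : ∀ ψ : AddChar (Dv K ⧸ H) ℂ, ∃ G : ℂ → ℂ, DifferentiableOn ℂ G {s | 0 < s.re} ∧
      (ψ ≠ 0 → ∀ s : ℂ, 1 < s.re → G s = Lc (chI S (chq H ψ)) s) := by
    intro ψ
    by_cases hψ : ψ = 0
    · exact ⟨fun _ => 0, differentiableOn_const _, fun h => absurd hψ h⟩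
    · obtain ⟨G, hG1, hG2⟩ := cont_chi hf S N (chq H ψ) (fun D hD => chq_ker H ψ (hH hD)) (chq_norm H ψ) (chq_ne H hψ) (dg K)
      rw [hpk_dg] at hG1
      exact ⟨G, hG1, fun _ => hG2⟩
  choose G hG1 hG2 using hex
  obtain ⟨G₀, hG₀1, hG₀2⟩ := pole_chi hf S (k := dg K) dg_pos
  rw [hpk_dg] at hG₀1
  set Z : ℂ → ℂ := fun s => G₀ s * dslope H₁ 1 s * ∏ ψ ∈ (Finset.univ.erase (0 : AddChar (Dv K ⧸ H) ℂ)).erase ψ₁, G ψ s with hZ
  have hZd : DifferentiableOn ℂ Z {s | 0 < s.re} := by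
    refine (hG₀1.mul ?_).mul (DifferentiableOn.fun_finset_prod fun ψ _ => hG1 ψ)
    refine (Complex.differentiableOn_dslope (hopen.mem_nhds ?_)).2 hd
    show 0 < (1 : ℂ).re
    rw [Complex.one_re]
    exact one_pos
  have hZe : ∀ s : ℂ, 1 < s.re → Z s = ∏ ψ : AddChar (Dv K ⧸ H) ℂ, Lc (chI S (chq H ψ)) s := by
    intro s hs
    have e1 : (s - 1) * dslope H₁ 1 s = Lc (chI S (chq H ψ₁)) s := by
      have h := sub_smul_dslope H₁ 1 s
      rw [smul_eq_mul] at h
      rw [h, h0, sub_zero, he s hs]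
    have e2 : chq H (0 : AddChar (Dv K ⧸ H) ℂ) = 0 := by
      apply chi_ext
      intro v
      rfl
    rw [← Finset.mul_prod_erase Finset.univ _ (Finset.mem_univ (0 : AddChar (Dv K ⧸ H) ℂ)),
      ← Finset.mul_prod_erase (Finset.univ.erase (0 : AddChar (Dv K ⧸ H) ℂ)) _ (Finset.mem_erase.2 ⟨h1, Finset.mem_univ ψ₁⟩)]
    rw [hZ]
    show G₀ s * dslope H₁ 1 s * ∏ ψ ∈ (Finset.univ.erase (0 : AddChar (Dv K ⧸ H) ℂ)).erase ψ₁, G ψ s = _
    have e3 : ∏ ψ ∈ (Finset.univ.erase (0 : AddChar (Dv K ⧸ H) ℂ)).erase ψ₁, G ψ s =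
        ∏ ψ ∈ (Finset.univ.erase (0 : AddChar (Dv K ⧸ H) ℂ)).erase ψ₁, Lc (chI S (chq H ψ)) s := by
      refine Finset.prod_congr rfl fun ψ hψ => ?_
      exact hG2 ψ (Finset.ne_of_mem_erase (Finset.mem_of_mem_erase hψ)) s hs
    rw [e3, hG₀2 s hs, ← e1, e2]
    ring
  -- the function f
  set f : ℂ → ℂ := fun s => Z s * conj (Z (conj s)) with hff
  have hfd : DifferentiableOn ℂ f {s | 0 < s.re} := by
    refine hZd.mul ?_
    intro s hs
    have h2 : conj s ∈ {s : ℂ | 0 < s.re} := by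
      show 0 < (conj s).re
      rw [Complex.conj_re]
      exact hs
    have h3 : DifferentiableAt ℂ Z (conj s) := hZd.differentiableAt (hopen.mem_nhds h2)
    have h4 := h3.conj_conj
    rw [Complex.conj_conj] at h4
    exact h4.differentiableWithinAt
  have hfe : ∀ x : ℝ, 1 < x → f x = ((Real.exp (∑' p : Pr K × ℕ, (2 * lc S H p) * Real.exp (-x * ll p)) : ℝ) : ℂ) := by
    intro x hx
    have e1 := (lc_hasSum S H hx).mul_left 2
    have e2 : ∑' p : Pr K × ℕ, (2 * lc S H p) * Real.exp (-x * ll p) =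
        2 * ∑ ψ : AddChar (Dv K ⧸ H) ℂ, Real.log ‖Ls (chI S (chq H ψ)) x‖ := by
      rw [← e1.tsum_eq]
      exact tsum_congr fun p => by ring
    have hh : ∀ (ψ : AddChar (Dv K ⧸ H) ℂ) (a : Ideal (𝓞 K)), ‖chI S (chq H ψ) a‖ ≤ 1 := fun ψ =>
      dd_norm_tI _ _ (chq_norm H ψ)
    have e3 : ∀ ψ : AddChar (Dv K ⧸ H) ℂ, 0 < ‖Ls (chI S (chq H ψ)) x‖ := fun ψ =>
      norm_pos_iff.2 (euler (chI S (chq H ψ)) (hh ψ) x hx).1
    have e4 : Real.exp (∑ ψ : AddChar (Dv K ⧸ H) ℂ, Real.log ‖Ls (chI S (chq H ψ)) x‖) = ‖Z x‖ := by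
      rw [Real.exp_sum, hZe x (by rw [Complex.ofReal_re]; exact hx), norm_prod]
      refine Finset.prod_congr rfl fun ψ _ => ?_
      rw [Real.exp_log (e3 ψ)]
      rfl
    rw [e2, two_mul, Real.exp_add, e4]
    show Z x * conj (Z (conj (x : ℂ))) = _
    rw [Complex.conj_ofReal, Complex.mul_conj, Complex.normSq_eq_norm_sq]
    push_cast
    ring
  -- the order of the group
  set g : ℕ := Nat.card (Dv K ⧸ H) with hg
  have hg1 : 1 ≤ g := Nat.card_pos
  have hgR : (1 : ℝ) ≤ g := by exact_mod_cast hg1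
  have hs : ∀ x : ℝ, 1 < x → Summable fun p : Pr K × ℕ => (2 * lc S H p) * Real.exp (-x * ll p) := by
    intro x hx
    refine ((lc_hasSum S H hx).summable.mul_left 2).congr fun p => ?_
    ring
  have hL := landau_exp (fun p : Pr K × ℕ => 2 * lc S H p) ll (fun p => mul_nonneg (by norm_num) (lc_nonneg S H p))
    ll_nonneg hs f hfd hfe (y := 1 / g) (by positivity)
    (lt_of_le_of_lt ((div_le_one (by linarith)).2 hgR) (by norm_num))
  have hL2 := (hL.comp_injective (i := fun v : Pr K => (v, g)) fun a b hab => (Prod.mk.inj hab).1).mul_left (1 / 2)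
  apply prime_div S
  refine hL2.congr fun v => ?_
  show 1 / 2 * ((2 * lc S H (v, g)) * Real.exp (-(1 / (g : ℝ)) * ll (v, g))) = _
  have hN : (0 : ℝ) < (Nm v : ℝ) := by
    have : 2 ≤ Nm v := dd_two_le v
    exact_mod_cast (by omega : 0 < Nm v)
  have e5 : Real.exp (-(1 / (g : ℝ)) * ll (v, g)) = (Nm v : ℝ)⁻¹ := by
    unfold ll
    have e6 : -(1 / (g : ℝ)) * ((g : ℝ) * Real.log (Nm v)) = -Real.log (Nm v) := by
      field_simp
    show Real.exp (-(1 / (g : ℝ)) * ((g : ℝ) * Real.log (Nm v))) = _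
    rw [e6, Real.exp_neg, Real.exp_log hN]
  rw [e5]
  by_cases hv : v ∈ S
  · have e7 : lc S H (v, g) = 0 := if_neg fun h => h.1 hv
    rw [Set.indicator_of_notMem (by simpa using hv), e7]
    ring
  · have e8 : (g • (Finsupp.single v 1 : Dv K)) ∈ H := by
      rw [← QuotientAddGroup.eq_zero_iff, QuotientAddGroup.mk_nsmul]
      exact card_nsmul_eq_zero'
    have e7 : lc S H (v, g) = (Nat.card (Dv K ⧸ H) : ℝ) / (g : ℝ) := if_pos ⟨hv, e8⟩
    rw [Set.indicator_of_mem (by simpa using hv), e7, ← hg, div_self (by linarith)]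
    ring

/-- The character of the quotient belonging to a character of Dv K. -/
noncomputable def qch (H : AddSubgroup (Dv K)) (χ : Dv K →+ Additive ℂˣ) (hχ : ∀ D ∈ H, χ D = 0) : AddChar (Dv K ⧸ H) ℂ where
  toFun q := (((QuotientAddGroup.lift H χ hχ q).toMul : ℂˣ) : ℂ)
  map_zero_eq_one' := by
    rw [map_zero, toMul_zero, Units.val_one]
  map_add_eq_mul' a b := by
    rw [map_add, toMul_add, Units.val_mul]

theorem chq_qch (H : AddSubgroup (Dv K)) (χ : Dv K →+ Additive ℂˣ) (hχ : ∀ D ∈ H, χ D = 0) : chq H (qch H χ hχ) = χ := by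
  apply chi_ext
  intro v
  apply Units.ext
  rfl

/-- L(1, χ) ≠ 0. -/
theorem nonvan (hf : ∀ (S : Finset (Pr K)) (N : ℕ), (Pray S N).FiniteIndex) (S : Finset (Pr K)) (N : ℕ)
    (χ : Dv K →+ Additive ℂˣ) (hχ : ∀ D ∈ Pray S N, χ D = 0) (h1 : χ ≠ 0)
    (G : ℂ → ℂ) (hG : DifferentiableOn ℂ G (HP K)) (hGe : ∀ s : ℂ, 1 < s.re → G s = Lc (chI S χ) s) : G 1 ≠ 0 := by
  classical
  have := hf S N
  have := AddSubgroup.finite_quotient_of_finiteIndex (H := Pray S N)
  have := Fintype.ofFinite (Dv K ⧸ Pray S N)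
  have hq := chq_qch (Pray S N) χ hχ
  set ψ := qch (Pray S N) χ hχ with hψ
  have hψ0 : ψ ≠ 0 := by
    intro h
    apply h1
    rw [← hq, h]
    apply chi_ext
    intro v
    rfl
  obtain ⟨H, hH1, hH2⟩ := cont_chi hf S N χ hχ (by rw [← hq]; exact chq_norm _ ψ) h1 (dg K)
  rw [hpk_dg] at hH1
  have h2 : H 1 ≠ 0 := nonvan_aux hf S N (Pray S N) le_rfl ψ hψ0 H hH1 (by rw [hq]; exact hH2)
  have h3 : HP K ⊆ {s : ℂ | 0 < s.re} := by
    intro s hs
    have h4 : 1 - 1 / (dg K : ℝ) < s.re := hs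
    have h5 : (1 : ℝ) ≤ dg K := by exact_mod_cast dg_pos (K := K)
    have h6 : 1 / (dg K : ℝ) ≤ 1 := (div_le_one (by linarith)).2 h5
    show 0 < s.re
    linarith
  have ho : IsOpen (HP K) := isOpen_lt continuous_const Complex.continuous_re
  have hc : IsPreconnected (HP K) := (convex_halfSpace_re_gt _).isPreconnected
  have h7 : (1 : ℂ) ∈ HP K := by
    show 1 - 1 / (dg K : ℝ) < (1 : ℂ).re
    have h5 : (1 : ℝ) ≤ dg K := by exact_mod_cast dg_pos (K := K)
    have : 0 < 1 / (dg K : ℝ) := by positivity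
    rw [Complex.one_re]
    linarith
  have h8 : (2 : ℂ) ∈ HP K := by
    show 1 - 1 / (dg K : ℝ) < (2 : ℂ).re
    have h5 : (1 : ℝ) ≤ dg K := by exact_mod_cast dg_pos (K := K)
    have h6 : 0 < 1 / (dg K : ℝ) := by positivity
    rw [Complex.re_ofNat]
    linarith
  have h9 : G =ᶠ[𝓝 (2 : ℂ)] H := by
    have h10 : {s : ℂ | 1 < s.re} ∈ 𝓝 (2 : ℂ) := (isOpen_lt continuous_const Complex.continuous_re).mem_nhds (by
      show (1 : ℝ) < (2 : ℂ).re
      norm_num)
    filter_upwards [h10] with s hs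
    rw [hGe s hs, hH2 s hs]
  have h10 := (hG.analyticOnNhd ho).eqOn_of_preconnected_of_eventuallyEq ((hH1.mono h3).analyticOnNhd ho) hc h8 h9
  rw [h10 h7]
  exact h2

end CFTL
end

-- from Lib.CFTC.C9
section

/-! # CFT module C, file C9: the prime number theorem for Hecke characters (final statements)

Hypothesis `hf`: finiteness of the ray class groups (`CFTZ.pray_fin`). -/

open NumberField IsDedekindDomain Complex Filter Topology

namespace CFTC

open CFT CFTY

variable {K : Type} [Field K] [NumberField K]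

/-- the value of a divisor character at a prime -/
noncomputable abbrev vl (c : Dv K →+ Additive ℂˣ) (v : Pr K) : ℂ := (((c (Finsupp.single v 1)).toMul : ℂˣ) : ℂ)

theorem c9_sub : {s : ℂ | 1 ≤ s.re} ⊆ HP K := by
  intro s hs
  have h1 : (1 : ℝ) ≤ s.re := hs
  have h2 : 0 < 1 / (dg K : ℝ) := by
    have : 1 ≤ dg K := dg_pos
    positivity
  show 1 - 1 / (dg K : ℝ) < s.re
  linarith

theorem c9_norm {c : Dv K →+ Additive ℂˣ} (hn : ∀ v, ‖vl c v‖ = 1) (D : Dv K) : ‖(((c D).toMul : ℂˣ) : ℂ)‖ = 1 := by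
  rw [CFTZ.chi_apply, Finsupp.prod, Units.coe_prod, norm_prod]
  refine Finset.prod_eq_one fun v _ => ?_
  rw [Units.val_zpow_eq_zpow_val, norm_zpow]
  have h : ‖((CFTZ.cphi c v : ℂˣ) : ℂ)‖ = 1 := hn v
  rw [h, one_zpow]

theorem c9_typ {n : (K →+* ℂ) → ℤ} {x : K} (h : ‖∏ σ : K →+* ℂ, σ x ^ n σ‖ = 1) : typ n x = ∏ σ : K →+* ℂ, σ x ^ n σ := by
  unfold typ
  simp only [div_zpow]
  rw [Finset.prod_div_distrib]
  have h1 : (∏ σ : K →+* ℂ, (‖σ x‖ : ℂ) ^ n σ) = 1 := by
    have h2 : (∏ σ : K →+* ℂ, (‖σ x‖ : ℂ) ^ n σ) = ((‖∏ σ : K →+* ℂ, σ x ^ n σ‖ : ℝ) : ℂ) := by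
      rw [norm_prod, Complex.ofReal_prod]
      refine Finset.prod_congr rfl fun σ _ => ?_
      rw [norm_zpow, Complex.ofReal_zpow]
    rw [h2, h, Complex.ofReal_one]
  rw [h1, div_one]

theorem c9_hch (S : Finset (Pr K)) (N : ℕ) (c : Dv K →+ Additive ℂˣ)
    (hn : ∀ v, ‖vl c v‖ = 1) (n : (K →+* ℂ) → ℤ) (hx : ∀ x : K, Ray S N x → (((c (dv x)).toMul : ℂˣ) : ℂ) = ∏ σ : K →+* ℂ, σ x ^ n σ) :
    HCh (mI S N) (typ n) (CFTZ.chI S c) := by
  refine hch_of c hn fun x hr => ?_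
  rw [hx x hr, c9_typ]
  rw [← hx x hr]
  exact c9_norm hn _

theorem c9_le (S : Finset (Pr K)) {c : Dv K →+ Additive ℂˣ} (hn : ∀ v, ‖vl c v‖ = 1) (a : Ideal (𝓞 K)) : ‖CFTZ.chI S c a‖ ≤ 1 :=
  CFTZ.dd_norm_tI _ _ hn a

theorem c9_pr {S : Finset (Pr K)} (c : Dv K →+ Additive ℂˣ) {v : Pr K} (hv : v ∉ S) : pr (CFTZ.chI S c) v = vl c v :=
  CFTZ.chI_prime S c hv

theorem c9_pr0 {S : Finset (Pr K)} (c : Dv K →+ Additive ℂˣ) {v : Pr K} (hv : v ∈ S) : pr (CFTZ.chI S c) v = 0 :=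
  CFTZ.chI_prime_mem S c hv

/-- continuation, nontrivial case -/
theorem c9_ent (hf : ∀ (S : Finset (Pr K)) (N : ℕ), (Pray S N).FiniteIndex) (S : Finset (Pr K)) (N : ℕ) (c : Dv K →+ Additive ℂˣ)
    (hn : ∀ v, ‖vl c v‖ = 1) (n : (K →+* ℂ) → ℤ) (hx : ∀ x : K, Ray S N x → (((c (dv x)).toMul : ℂˣ) : ℂ) = ∏ σ : K →+* ℂ, σ x ^ n σ)
    (h1 : ∃ v ∉ S, vl c v ≠ 1) :
    ∃ H : ℂ → ℂ, DifferentiableOn ℂ H (HP K) ∧ ∀ s : ℂ, 1 < s.re → H s = Lc (CFTZ.chI S c) s := by
  obtain ⟨v, hv, h2⟩ := h1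
  refine hecke_entire hf (mI_ne S N) (c9_hch S N c hn n hx) ⟨v.asIdeal, v.ne_bot, ?_, ?_⟩
  · rw [cop_mI]
    intro w hw hle
    have h3 := v.isMaximal.eq_of_le w.isPrime.ne_top hle
    have h4 : v = w := HeightOneSpectrum.ext h3
    rw [h4] at hv
    exact hv hw
  · rw [CFTZ.chI_prime S c hv]
    exact h2

/-- continuation, trivial case -/
theorem c9_pole (hf : ∀ (S : Finset (Pr K)) (N : ℕ), (Pray S N).FiniteIndex) (S : Finset (Pr K)) (N : ℕ) (c : Dv K →+ Additive ℂˣ)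
    (hn : ∀ v, ‖vl c v‖ = 1) (n : (K →+* ℂ) → ℤ) (hx : ∀ x : K, Ray S N x → (((c (dv x)).toMul : ℂˣ) : ℂ) = ∏ σ : K →+* ℂ, σ x ^ n σ)
    (h1 : ∀ v ∉ S, vl c v = 1) :
    ∃ H : ℂ → ℂ, DifferentiableOn ℂ H (HP K) ∧ ∀ s : ℂ, 1 < s.re → H s = (s - 1) * Lc (CFTZ.chI S c) s := by
  refine hecke_pole hf (mI_ne S N) (c9_hch S N c hn n hx) fun b hb hc => ?_
  have hc' : IsCoprime b (CFTZ.SI S) := (cop_SI S b).2 ((cop_mI S N b).1 hc)
  unfold CFTZ.chI
  rw [H55R.tI_apply _ _ hb hc', CFTZ.dd_pv_eq_one, Units.val_one]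
  intro v hv
  have hvS : v ∉ S := fun h => (cop_mI S N b).1 hc v h hv
  exact Units.ext (h1 v hvS)

/-- bounded on a segment -/
theorem c9_bdd (hf : ∀ (S : Finset (Pr K)) (N : ℕ), (Pray S N).FiniteIndex) (S : Finset (Pr K)) (N : ℕ) (c : Dv K →+ Additive ℂˣ)
    (hn : ∀ v, ‖vl c v‖ = 1) (n : (K →+* ℂ) → ℤ) (hx : ∀ x : K, Ray S N x → (((c (dv x)).toMul : ℂˣ) : ℂ) = ∏ σ : K →+* ℂ, σ x ^ n σ)
    (t : ℝ) (h : (∃ v ∉ S, vl c v ≠ 1) ∨ t ≠ 0) :
    ∃ C : ℝ, ∀ σ : ℝ, 1 < σ → σ ≤ 2 → ‖Lc (CFTZ.chI S c) (σ + 2 * t * I)‖ ≤ C := by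
  have hre : ∀ σ : ℝ, (σ + 2 * t * I : ℂ).re = σ := fun σ => by simp
  have hmem : ∀ σ ∈ Set.Icc (1 : ℝ) 2, (σ + 2 * t * I : ℂ) ∈ HP K := fun σ hσ => c9_sub (by
    show (1 : ℝ) ≤ (σ + 2 * t * I : ℂ).re
    rw [hre]
    exact hσ.1)
  have hcont : Continuous fun σ : ℝ => (σ + 2 * t * I : ℂ) := by fun_prop
  by_cases h1 : ∃ v ∉ S, vl c v ≠ 1
  · obtain ⟨H, hH, hL⟩ := c9_ent hf S N c hn n hx h1
    have h2 : ContinuousOn (fun σ : ℝ => H (σ + 2 * t * I)) (Set.Icc 1 2) :=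
      hH.continuousOn.comp hcont.continuousOn hmem
    obtain ⟨C, hC⟩ := isCompact_Icc.exists_bound_of_continuousOn h2
    refine ⟨C, fun σ hσ hσ2 => ?_⟩
    rw [← hL _ (by rw [hre]; exact hσ)]
    exact hC σ ⟨hσ.le, hσ2⟩
  · have ht : t ≠ 0 := h.resolve_left h1
    push Not at h1
    obtain ⟨H, hH, hL⟩ := c9_pole hf S N c hn n hx h1
    have hne : ∀ σ : ℝ, (σ + 2 * t * I : ℂ) - 1 ≠ 0 := by
      intro σ h0
      have h3 := congrArg Complex.im h0
      simp at h3
      exact ht h3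
    have h2 : ContinuousOn (fun σ : ℝ => H (σ + 2 * t * I) / ((σ + 2 * t * I : ℂ) - 1)) (Set.Icc 1 2) :=
      (hH.continuousOn.comp hcont.continuousOn hmem).div (hcont.sub continuous_const).continuousOn fun σ _ => hne σ
    obtain ⟨C, hC⟩ := isCompact_Icc.exists_bound_of_continuousOn h2
    refine ⟨C, fun σ hσ hσ2 => ?_⟩
    have h4 := hC σ ⟨hσ.le, hσ2⟩
    rw [hL _ (by rw [hre]; exact hσ), mul_div_assoc, mul_comm, div_mul_cancel₀ _ (hne σ)] at h4
    exact h4

/-- the trivial character -/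
noncomputable def oo : Ideal (𝓞 K) →*₀ ℂ := CFTZ.chI ∅ (0 : Dv K →+ Additive ℂˣ)

omit [NumberField K] in
theorem oo_n (v : Pr K) : ‖vl (0 : Dv K →+ Additive ℂˣ) v‖ = 1 := by
  simp [vl]

theorem oo_x (x : K) : ((((0 : Dv K →+ Additive ℂˣ) (dv x)).toMul : ℂˣ) : ℂ) = ∏ σ : K →+* ℂ, σ x ^ (0 : ℤ) := by
  simp

theorem oo_pr (v : Pr K) : pr oo v = 1 := by
  unfold oo
  rw [c9_pr _ (Finset.notMem_empty v)]
  simp [vl]

theorem oo_le (a : Ideal (𝓞 K)) : ‖(oo : Ideal (𝓞 K) →*₀ ℂ) a‖ ≤ 1 := c9_le ∅ oo_n a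

theorem oo_ne {a : Ideal (𝓞 K)} (ha : a ≠ ⊥) : (oo : Ideal (𝓞 K) →*₀ ℂ) a = 1 := by
  unfold oo CFTZ.chI
  rw [H55R.tI_apply _ _ ha ((cop_SI ∅ a).2 fun v hv => absurd hv (Finset.notMem_empty v)), CFTZ.dd_pv_eq_one, Units.val_one]
  intro v _
  exact Units.ext (by simp [CFTZ.cphi])

theorem oo_Lc {σ : ℝ} (hσ : 1 < σ) :
    Lc (oo : Ideal (𝓞 K) →*₀ ℂ) σ = ((∑' a : Ideal (𝓞 K), (Ideal.absNorm a : ℝ) ^ (-σ) : ℝ) : ℂ) := by
  unfold Lc
  rw [Complex.ofReal_tsum]
  refine tsum_congr fun a => ?_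
  unfold CFTZ.tm
  by_cases ha : a = ⊥
  · have h0 : (oo : Ideal (𝓞 K) →*₀ ℂ) ⊥ = 0 := map_zero _
    rw [ha, h0, zero_mul, Ideal.absNorm_bot, Nat.cast_zero, Real.zero_rpow (by linarith), Complex.ofReal_zero]
  · rw [oo_ne ha, one_mul, Complex.ofReal_cpow (Nat.cast_nonneg _)]
    push_cast
    rfl

theorem oo_B (K : Type) [Field K] [NumberField K] : ∃ B : ℝ, ∀ σ : ℝ, 1 < σ → σ ≤ 2 → (σ - 1) * ‖Lc (oo : Ideal (𝓞 K) →*₀ ℂ) σ‖ ≤ B := by
  obtain ⟨B, hB⟩ := CFTZ.zeta_pole K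
  refine ⟨B, fun σ h1 h2 => ?_⟩
  rw [oo_Lc h1, Complex.norm_real, Real.norm_of_nonneg (tsum_nonneg fun a => by positivity)]
  exact hB σ ⟨h1, h2⟩

/-- no zeros for a nontrivial character -/
theorem c9_nv (hf : ∀ (S : Finset (Pr K)) (N : ℕ), (Pray S N).FiniteIndex) (S : Finset (Pr K)) (N : ℕ) (c : Dv K →+ Additive ℂˣ)
    (hn : ∀ v, ‖vl c v‖ = 1) (n : (K →+* ℂ) → ℤ) (hx : ∀ x : K, Ray S N x → (((c (dv x)).toMul : ℂˣ) : ℂ) = ∏ σ : K →+* ℂ, σ x ^ n σ)
    {H : ℂ → ℂ} (hH : DifferentiableOn ℂ H (HP K)) (hL : ∀ s : ℂ, 1 < s.re → H s = Lc (CFTZ.chI S c) s) (t : ℝ)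
    (h : (∃ v ∉ S, vl c v ^ 2 ≠ 1) ∨ t ≠ 0) : H (1 + t * I) ≠ 0 := by
  obtain ⟨B, hB⟩ := oo_B K
  have hn2 : ∀ v, ‖vl (c + c) v‖ = 1 := by
    intro v
    have h1 : vl (c + c) v = vl c v * vl c v := by
      simp [vl]
    rw [h1, norm_mul, hn v, mul_one]
  have hx2 : ∀ x : K, Ray S N x → ((((c + c) (dv x)).toMul : ℂˣ) : ℂ) = ∏ σ : K →+* ℂ, σ x ^ (n σ + n σ) := by
    intro x hr
    have h1 : ((((c + c) (dv x)).toMul : ℂˣ) : ℂ) = (((c (dv x)).toMul : ℂˣ) : ℂ) * (((c (dv x)).toMul : ℂˣ) : ℂ) := by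
      simp
    rw [h1, hx x hr, ← Finset.prod_mul_distrib]
    refine Finset.prod_congr rfl fun σ _ => ?_
    rw [zpow_add₀ ((map_ne_zero σ).2 hr.ne)]
  obtain ⟨C, hC⟩ := c9_bdd hf S N (c + c) hn2 (fun σ => n σ + n σ) hx2 t (h.imp_left fun ⟨v, hv, h1⟩ => ⟨v, hv, by
    have h2 : vl (c + c) v = vl c v ^ 2 := by
      simp [vl, sq]
    rw [h2]
    exact h1⟩)
  refine nv (o := oo) (h := CFTZ.chI S c) (h2 := CFTZ.chI S (c + c)) oo_pr oo_le (c9_le S hn) (c9_le S hn2) (fun v => ?_) (fun v => ?_) t hB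
    (hH.differentiableAt (y30b_open.mem_nhds (c9_sub (by simp)))) hL hC
  · by_cases hv : v ∈ S
    · exact Or.inl (c9_pr0 c hv)
    · rw [c9_pr c hv]
      exact Or.inr (hn v)
  · by_cases hv : v ∈ S
    · rw [c9_pr0 _ hv, c9_pr0 _ hv, zero_pow two_ne_zero]
    · rw [c9_pr _ hv, c9_pr _ hv]
      simp [vl, sq]

theorem c9_re {H : ℂ → ℂ} (h1 : ∀ s : ℂ, 1 < s.re → H s ≠ 0) (h2 : ∀ t : ℝ, H (1 + t * I) ≠ 0) (s : ℂ) (hs : 1 ≤ s.re) : H s ≠ 0 := by
  rcases eq_or_lt_of_le hs with h3 | h3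
  · have h4 : s = 1 + (s.im : ℂ) * I := by
      apply Complex.ext
      · simp [← h3]
      · simp
    rw [h4]
    exact h2 s.im
  · exact h1 s h3

theorem c9_exp (h : Ideal (𝓞 K) →*₀ ℂ) (hh : ∀ a, ‖h a‖ ≤ 1) {s : ℂ} (hs : 1 < s.re) : Lc h s ≠ 0 := by
  rw [← exp_eq h hh hs]
  exact Complex.exp_ne_zero _

/-- the trivial character: continuous extension -/
theorem c9_ext1 (hf : ∀ (S : Finset (Pr K)) (N : ℕ), (Pray S N).FiniteIndex) : Ext (fun _ : Pr K => 1) 1 := by
  obtain ⟨H, hH, hL⟩ := c9_pole hf ∅ 0 (0 : Dv K →+ Additive ℂˣ) oo_n (fun _ => 0) (fun x _ => oo_x x) (fun v _ => by simp [vl])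
  have hL' : ∀ s : ℂ, 1 < s.re → H s = (s - 1) * Lc (oo : Ideal (𝓞 K) →*₀ ℂ) s := hL
  have hs1 : ∀ s : ℂ, 1 < s.re → s - 1 ≠ 0 := by
    intro s hs h0
    rw [sub_eq_zero.1 h0, Complex.one_re] at hs
    exact lt_irrefl _ hs
  have hne : ∀ s : ℂ, 1 ≤ s.re → H s ≠ 0 := by
    refine c9_re (fun s hs => ?_) fun t => ?_
    · rw [hL' s hs]
      exact mul_ne_zero (hs1 s hs) (c9_exp _ oo_le hs)
    · by_cases ht : t = 0
      · rw [ht, Complex.ofReal_zero, zero_mul, add_zero]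
        obtain ⟨A, B, hA, hAB⟩ := CFTZ.RD3_bd K
        have h1 : ContinuousAt H 1 := (hH.differentiableAt (y30b_open.mem_nhds (c9_sub (by simp)))).continuousAt
        have h2 : Tendsto (fun σ : ℝ => ‖H σ‖) (𝓝[>] 1) (𝓝 ‖H 1‖) := by
          have h3 : Tendsto (fun σ : ℝ => (σ : ℂ)) (𝓝[>] 1) (𝓝 1) := by
            have h4 : Continuous fun σ : ℝ => (σ : ℂ) := Complex.continuous_ofReal
            have h5 := (h4.tendsto 1).mono_left (nhdsWithin_le_nhds (s := Set.Ioi (1 : ℝ)))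
            rwa [Complex.ofReal_one] at h5
          exact (h1.tendsto.comp h3).norm
        have h6 : A ≤ ‖H 1‖ := by
          refine ge_of_tendsto h2 ?_
          filter_upwards [Ioc_mem_nhdsGT (show (1 : ℝ) < 2 by norm_num)] with σ hσ
          rw [hL' _ (by rw [Complex.ofReal_re]; exact hσ.1), oo_Lc hσ.1, norm_mul, Complex.norm_real,
            Real.norm_of_nonneg (tsum_nonneg fun a => by positivity)]
          have h7 : ‖(σ : ℂ) - 1‖ = σ - 1 := by
            rw [← Complex.ofReal_one, ← Complex.ofReal_sub, Complex.norm_real, Real.norm_of_nonneg (by linarith [hσ.1])]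
          rw [h7]
          exact (hAB σ hσ).1
        intro h0
        rw [h0, norm_zero] at h6
        linarith
      · obtain ⟨B, hB⟩ := oo_B K
        have hne1 : (1 + t * I : ℂ) - 1 ≠ 0 := by
          intro h0
          have h3 := congrArg Complex.im h0
          simp at h3
          exact ht h3
        obtain ⟨C, hC⟩ := c9_bdd hf ∅ 0 (0 : Dv K →+ Additive ℂˣ) oo_n (fun _ => 0) (fun x _ => oo_x x) t (Or.inr ht)
        have h1 : DifferentiableAt ℂ (fun s => H s / (s - 1)) (1 + t * I) :=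
          (hH.differentiableAt (y30b_open.mem_nhds (c9_sub (by simp)))).div
            (differentiableAt_id.sub_const 1) hne1
        have h2 := nv (o := oo) (h := oo) (h2 := oo) oo_pr oo_le oo_le oo_le (fun v => Or.inr (by rw [oo_pr, norm_one]))
          (fun v => by rw [oo_pr, one_pow]) t hB h1 (fun s hs => by
            rw [hL' s hs, mul_comm, mul_div_assoc, div_self (hs1 s hs), mul_one]) hC
        intro h0
        apply h2
        rw [h0, zero_div]
  have h3 := ext_of (oo : Ideal (𝓞 K) →*₀ ℂ) oo_le 1 y30b_open c9_sub hH (fun s hs => by rw [hL' s hs, pow_one]) hne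
  have h4 : pr (oo : Ideal (𝓞 K) →*₀ ℂ) = fun _ => 1 := funext oo_pr
  rw [h4, Nat.cast_one] at h3
  exact h3

/-- (C3) The prime ideal theorem. -/
theorem pit (hf : ∀ (S : Finset (Pr K)) (N : ℕ), (Pray S N).FiniteIndex) :
    Tendsto (fun x : ℕ => (Set.ncard {v : Pr K | Nm v ≤ x} : ℝ) / (Nat.primeCounting x : ℝ)) atTop (𝓝 1) := by
  have h := tau (u := fun _ : Pr K => 1) (B := 1) (fun _ => zero_le_one) (fun _ => le_rfl) (by
    simp only [Complex.ofReal_one]
    exact c9_ext1 hf)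
  refine h.congr fun x => ?_
  rw [finsum_mem_eq_finite_toFinset_sum _ (nm_fin x), Finset.sum_const, nsmul_eq_mul, mul_one, Set.ncard_eq_toFinset_card _ (nm_fin x)]

theorem c9_main (hf : ∀ (S : Finset (Pr K)) (N : ℕ), (Pray S N).FiniteIndex) (S : Finset (Pr K)) (N : ℕ) (c : Dv K →+ Additive ℂˣ)
    (hn : ∀ v, ‖vl c v‖ = 1) (n : (K →+* ℂ) → ℤ) (hx : ∀ x : K, Ray S N x → (((c (dv x)).toMul : ℂˣ) : ℂ) = ∏ σ : K →+* ℂ, σ x ^ n σ)
    (h1 : ∃ v ∉ S, vl c v ≠ 1) (hL : (∃ v ∉ S, vl c v ^ 2 ≠ 1) ∨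
      ∀ H : ℂ → ℂ, DifferentiableOn ℂ H (HP K) → (∀ s : ℂ, 1 < s.re → H s = Lc (CFTZ.chI S c) s) → H 1 ≠ 0) :
    Tendsto (fun x : ℕ => (∑ᶠ v ∈ {v : Pr K | Nm v ≤ x}, vl c v) / (Nat.primeCounting x : ℂ)) atTop (𝓝 0) := by
  obtain ⟨H, hH, hLc⟩ := c9_ent hf S N c hn n hx h1
  have hne : ∀ s : ℂ, 1 ≤ s.re → H s ≠ 0 := by
    refine c9_re (fun s hs => ?_) fun t => ?_
    · rw [hLc s hs]
      exact c9_exp _ (c9_le S hn) hs
    · rcases hL with h2 | h2
      · exact c9_nv hf S N c hn n hx hH hLc t (Or.inl h2)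
      · by_cases ht : t = 0
        · rw [ht, Complex.ofReal_zero, zero_mul, add_zero]
          exact h2 H hH hLc
        · exact c9_nv hf S N c hn n hx hH hLc t (Or.inr ht)
  have h3 := ext_of (CFTZ.chI S c) (c9_le S hn) 0 y30b_open c9_sub hH (fun s hs => by rw [hLc s hs, pow_zero, one_mul]) hne
  rw [Nat.cast_zero] at h3
  refine change_S S (w := pr (CFTZ.chI S c)) (fun v hv => c9_pr c hv) (mean_zero (fun v => c9_le S hn _) (c9_ext1 hf) h3)


/-- (C2) All nontrivial characters, if the L-function does not vanish at 1. -/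
theorem hecke_c2 (hf : ∀ (S : Finset (Pr K)) (N : ℕ), (Pray S N).FiniteIndex) (S : Finset (Pr K)) (N : ℕ) (c : Dv K →+ Additive ℂˣ)
    (hn : ∀ v, ‖vl c v‖ = 1) (n : (K →+* ℂ) → ℤ) (hx : ∀ x : K, Ray S N x → (((c (dv x)).toMul : ℂˣ) : ℂ) = ∏ σ : K →+* ℂ, σ x ^ n σ)
    (h1 : ∃ v ∉ S, vl c v ≠ 1) (hL : ∀ H : ℂ → ℂ, DifferentiableOn ℂ H (HP K) → (∀ s : ℂ, 1 < s.re → H s = Lc (CFTZ.chI S c) s) → H 1 ≠ 0) :
    Tendsto (fun x : ℕ => (∑ᶠ v ∈ {v : Pr K | Nm v ≤ x}, vl c v) / (Nat.primeCounting x : ℂ)) atTop (𝓝 0) :=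
  c9_main hf S N c hn n hx h1 (Or.inr hL)

end CFTC
end

-- from Lib.CFT.L11
section

/-! # CFT, module ZL, L11: the prime ideal theorem in ray classes (natural density) -/

open NumberField IsDedekindDomain Filter Topology

namespace CFTL

open CFT CFTY CFTZ H55R

variable {K : Type} [Field K] [NumberField K]

theorem ne_outside (S : Finset (Pr K)) (N : ℕ) (χ : Dv K →+ Additive ℂˣ) (hχ : ∀ D ∈ Pray S N, χ D = 0) (h1 : χ ≠ 0) :
    ∃ v ∉ S, CFTC.vl χ v ≠ 1 := by
  obtain ⟨v, hv⟩ : ∃ v : Pr K, cphi χ v ≠ 1 := by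
    by_contra hcon
    push Not at hcon
    apply h1
    apply chi_ext
    intro v
    rw [hcon v]
    rfl
  refine ⟨v, fun h => ?_, fun h => hv (Units.ext h)⟩
  apply hv
  have h2 : χ (Finsupp.single v 1) = 0 := by
    refine hχ _ (supp_mem_Pray N fun w hw => ?_)
    refine Finsupp.single_eq_of_ne ?_
    rintro rfl
    exact hw h
  unfold cphi
  rw [h2, toMul_zero]

theorem mean_chi (hf : ∀ (S : Finset (Pr K)) (N : ℕ), (Pray S N).FiniteIndex) (S : Finset (Pr K)) (N : ℕ)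
    (H : AddSubgroup (Dv K)) (hH : Pray S N ≤ H) [Fintype (Dv K ⧸ H)] (ψ : AddChar (Dv K ⧸ H) ℂ) :
    Tendsto (fun x : ℕ => (∑ᶠ v ∈ {v : Pr K | Nm v ≤ x}, CFTC.vl (chq H ψ) v) / (Nat.primeCounting x : ℂ)) atTop
      (𝓝 (if ψ = 0 then 1 else 0)) := by
  classical
  by_cases hψ : ψ = 0
  · rw [if_pos hψ]
    have h1 := CFTC.pit hf
    have h2 : Tendsto (fun x : ℕ => (((Set.ncard {v : Pr K | Nm v ≤ x} : ℝ) / (Nat.primeCounting x : ℝ) : ℝ) : ℂ)) atTop (𝓝 ((1 : ℝ) : ℂ)) :=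
      (Complex.continuous_ofReal.tendsto _).comp h1
    rw [Complex.ofReal_one] at h2
    refine h2.congr fun x => ?_
    rw [finsum_mem_eq_finite_toFinset_sum _ (CFTC.nm_fin x)]
    have h3 : ∀ v ∈ (CFTC.nm_fin (K := K) x).toFinset, CFTC.vl (chq H ψ) v = 1 := by
      intro v _
      rw [hψ]
      rfl
    rw [Finset.sum_congr rfl h3, Finset.sum_const, nsmul_eq_mul, mul_one, Set.ncard_eq_toFinset_card _ (CFTC.nm_fin x)]
    push_cast
    rfl
  · rw [if_neg hψ]
    refine CFTC.hecke_c2 hf S N (chq H ψ) (chq_norm H ψ) (fun _ => 0) (fun x hx => ?_)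
      (ne_outside S N _ (fun D hD => chq_ker H ψ (hH hD)) (chq_ne H hψ)) fun G hG1 hG2 => ?_
    · rw [chq_ker H ψ (hH (dv_mem_Pray hx)), toMul_zero, Units.val_one]
      simp
    · exact nonvan hf S N (chq H ψ) (fun D hD => chq_ker H ψ (hH hD)) (chq_ne H hψ) G hG1 hG2

/-- The prime ideal theorem in ray classes. -/
theorem nat_dens (hf : ∀ (S : Finset (Pr K)) (N : ℕ), (Pray S N).FiniteIndex) (S : Finset (Pr K)) (N : ℕ)
    (H : AddSubgroup (Dv K)) (hH : Pray S N ≤ H) [H.FiniteIndex] (D : Dv K) :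
    Tendsto (fun x : ℕ => (Set.ncard {v : Pr K | Nm v ≤ x ∧ v ∉ S ∧ Finsupp.single v 1 - D ∈ H} : ℝ) / (Nat.primeCounting x : ℝ))
      atTop (𝓝 (1 / (H.index : ℝ))) := by
  classical
  have := AddSubgroup.finite_quotient_of_finiteIndex (H := H)
  have := Fintype.ofFinite (Dv K ⧸ H)
  set g : ℕ := Nat.card (Dv K ⧸ H) with hg
  have hg0 : (0 : ℝ) < g := by exact_mod_cast Nat.card_pos
  have hidx : H.index = g := rfl
  set F : ℕ → Finset (Pr K) := fun x => (CFTC.nm_fin (K := K) x).toFinset with hF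
  -- the sum over all characters
  have h1 : Tendsto (fun x : ℕ => ∑ ψ : AddChar (Dv K ⧸ H) ℂ, ψ (QuotientAddGroup.mk (-D)) *
      ((∑ᶠ v ∈ {v : Pr K | Nm v ≤ x}, CFTC.vl (chq H ψ) v) / (Nat.primeCounting x : ℂ))) atTop
      (𝓝 (∑ ψ : AddChar (Dv K ⧸ H) ℂ, ψ (QuotientAddGroup.mk (-D)) * (if ψ = 0 then 1 else 0))) :=
    tendsto_finset_sum _ fun ψ _ => (mean_chi hf S N H hH ψ).const_mul _
  have h2 : ∑ ψ : AddChar (Dv K ⧸ H) ℂ, ψ (QuotientAddGroup.mk (-D)) * (if ψ = 0 then 1 else 0) = 1 := by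
    rw [Finset.sum_eq_single (0 : AddChar (Dv K ⧸ H) ℂ)]
    · rw [if_pos rfl, AddChar.zero_apply, one_mul]
    · intro ψ _ hψ
      rw [if_neg hψ, mul_zero]
    · intro h
      exact absurd (Finset.mem_univ _) h
  rw [h2] at h1
  have h3 : ∀ x : ℕ, ∑ ψ : AddChar (Dv K ⧸ H) ℂ, ψ (QuotientAddGroup.mk (-D)) *
      ((∑ᶠ v ∈ {v : Pr K | Nm v ≤ x}, CFTC.vl (chq H ψ) v) / (Nat.primeCounting x : ℂ)) =
      (((g : ℝ) * ((((F x).filter fun v => (Finsupp.single v 1 : Dv K) - D ∈ H).card : ℝ) / (Nat.primeCounting x : ℝ)) : ℝ) : ℂ) := by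
    intro x
    have e1 : ∀ ψ : AddChar (Dv K ⧸ H) ℂ, ψ (QuotientAddGroup.mk (-D)) *
        ((∑ᶠ v ∈ {v : Pr K | Nm v ≤ x}, CFTC.vl (chq H ψ) v) / (Nat.primeCounting x : ℂ)) =
        (∑ v ∈ F x, ψ (QuotientAddGroup.mk ((Finsupp.single v 1 : Dv K) - D))) / (Nat.primeCounting x : ℂ) := by
      intro ψ
      rw [finsum_mem_eq_finite_toFinset_sum _ (CFTC.nm_fin x), ← mul_div_assoc, Finset.mul_sum]
      congr 1
      refine Finset.sum_congr rfl fun v _ => ?_
      have e2 : CFTC.vl (chq H ψ) v = ψ (QuotientAddGroup.mk (Finsupp.single v 1)) := rfl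
      rw [e2, ← AddChar.map_add_eq_mul, ← QuotientAddGroup.mk_add, neg_add_eq_sub]
    rw [Finset.sum_congr rfl fun ψ _ => e1 ψ, ← Finset.sum_div, Finset.sum_comm]
    have e3 : ∀ v ∈ F x, ∑ ψ : AddChar (Dv K ⧸ H) ℂ, ψ (QuotientAddGroup.mk ((Finsupp.single v 1 : Dv K) - D)) =
        if (Finsupp.single v 1 : Dv K) - D ∈ H then (g : ℂ) else 0 := by
      intro v _
      rw [AddChar.sum_apply_eq_ite]
      by_cases h : (Finsupp.single v 1 : Dv K) - D ∈ H
      · rw [if_pos ((QuotientAddGroup.eq_zero_iff _).2 h), if_pos h, hg, Nat.card_eq_fintype_card]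
      · rw [if_neg fun h' => h ((QuotientAddGroup.eq_zero_iff _).1 h'), if_neg h]
    rw [Finset.sum_congr rfl e3, ← Finset.sum_filter, Finset.sum_const, nsmul_eq_mul]
    push_cast
    ring
  have h4 : Tendsto (fun x : ℕ => (g : ℝ) * ((((F x).filter fun v => (Finsupp.single v 1 : Dv K) - D ∈ H).card : ℝ) / (Nat.primeCounting x : ℝ)))
      atTop (𝓝 1) := by
    have e1 := (Complex.continuous_re.tendsto _).comp h1
    rw [Complex.one_re] at e1
    refine e1.congr fun x => ?_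
    show (∑ ψ : AddChar (Dv K ⧸ H) ℂ, ψ (QuotientAddGroup.mk (-D)) *
      ((∑ᶠ v ∈ {v : Pr K | Nm v ≤ x}, CFTC.vl (chq H ψ) v) / (Nat.primeCounting x : ℂ))).re = _
    rw [h3 x, Complex.ofReal_re]
  have h5 : Tendsto (fun x : ℕ => (((F x).filter fun v => (Finsupp.single v 1 : Dv K) - D ∈ H).card : ℝ) / (Nat.primeCounting x : ℝ))
      atTop (𝓝 (1 / (g : ℝ))) := by
    have e1 := h4.const_mul (1 / (g : ℝ))
    rw [mul_one] at e1
    refine e1.congr fun x => ?_
    field_simp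
  have hπ : Tendsto (fun x : ℕ => ((Nat.primeCounting x : ℝ))⁻¹) atTop (𝓝 0) :=
    tendsto_inv_atTop_zero.comp (tendsto_natCast_atTop_atTop.comp Nat.tendsto_primeCounting)
  have h6 : Tendsto (fun x : ℕ => (S.card : ℝ) * ((Nat.primeCounting x : ℝ))⁻¹) atTop (𝓝 0) := by
    have := hπ.const_mul (S.card : ℝ)
    rwa [mul_zero] at this
  have h7 := h5.sub h6
  rw [sub_zero] at h7
  rw [hidx]
  refine tendsto_of_tendsto_of_tendsto_of_le_of_le h7 h5 (fun x => ?_) fun x => ?_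
  · show (((F x).filter fun v => (Finsupp.single v 1 : Dv K) - D ∈ H).card : ℝ) / (Nat.primeCounting x : ℝ) -
      (S.card : ℝ) * ((Nat.primeCounting x : ℝ))⁻¹ ≤ _
    rw [← div_eq_mul_inv, ← sub_div]
    refine div_le_div_of_nonneg_right ?_ (Nat.cast_nonneg _)
    have e1 : {v : Pr K | Nm v ≤ x ∧ v ∉ S ∧ Finsupp.single v 1 - D ∈ H} =
        (((F x).filter fun v => (Finsupp.single v 1 : Dv K) - D ∈ H) \ S : Finset (Pr K)) := by
      ext v
      simp only [Set.mem_setOf_eq, Finset.coe_sdiff, Finset.coe_filter, Set.mem_diff, Finset.mem_coe, hF, Set.Finite.mem_toFinset]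
      tauto
    rw [e1, Set.ncard_coe_finset]
    have e3 : ((F x).filter fun v => (Finsupp.single v 1 : Dv K) - D ∈ H).card ≤
        (((F x).filter fun v => (Finsupp.single v 1 : Dv K) - D ∈ H) \ S).card + S.card :=
      tsub_le_iff_right.1 (Finset.le_card_sdiff S ((F x).filter fun v => (Finsupp.single v 1 : Dv K) - D ∈ H))
    have e4 : (((F x).filter fun v => (Finsupp.single v 1 : Dv K) - D ∈ H).card : ℝ) ≤
        (((F x).filter fun v => (Finsupp.single v 1 : Dv K) - D ∈ H) \ S).card + S.card := by exact_mod_cast e3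
    linarith
  · show (Set.ncard {v : Pr K | Nm v ≤ x ∧ v ∉ S ∧ Finsupp.single v 1 - D ∈ H} : ℝ) / (Nat.primeCounting x : ℝ) ≤ _
    refine div_le_div_of_nonneg_right ?_ (Nat.cast_nonneg _)
    rw [← Set.ncard_coe_finset ((F x).filter fun v => (Finsupp.single v 1 : Dv K) - D ∈ H)]
    have e2 : Set.ncard {v : Pr K | Nm v ≤ x ∧ v ∉ S ∧ Finsupp.single v 1 - D ∈ H} ≤
        Set.ncard (((F x).filter fun v => (Finsupp.single v 1 : Dv K) - D ∈ H : Finset (Pr K)) : Set (Pr K)) := by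
      refine Set.ncard_le_ncard (fun v hv => ?_) (Finset.finite_toSet _)
      rw [Finset.mem_coe, Finset.mem_filter, hF, Set.Finite.mem_toFinset]
      exact ⟨hv.1, hv.2.2⟩
    exact_mod_cast e2


end CFTL
end

-- from Lib.CFTC.C10
section

/-! # CFT module C, file C10: quadratic extensions (by counting), final forms without the hypothesis on the ray class groups

quad: L/K quadratic, S contains the ramified primes, w v = 1 if the Frobenius element is 1 and -1 otherwise, for v not in S: mean value 0. -/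

open NumberField IsDedekindDomain Complex Filter Topology

namespace CFTC

open CFT CFTY CFTZ

section count

variable {K : Type} [Field K] [NumberField K] {L : Type} [Field L] [NumberField L] [Algebra K L]










end count

theorem c10_ppos {n : ℕ} (hn : 2 ≤ n) : 0 < Nat.primeCounting n := by
  have h1 : Nat.primeCounting 2 ≤ Nat.primeCounting n := Nat.monotone_primeCounting hn
  have h2 : Nat.primeCounting 2 = 1 := by decide
  omega



theorem c10_sqrt : Tendsto (fun x : ℕ => (Nat.sqrt x : ℝ) / (Nat.primeCounting x : ℝ)) atTop (𝓝 0) := by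
  have h1 := Pool.Agent.Lib.PNT.primeCounting_nat_tendsto.inv₀ one_ne_zero
  have h2 : Tendsto (fun n : ℕ => Real.log n / (n : ℝ) ^ (1 / 2 : ℝ)) atTop (𝓝 0) :=
    ((isLittleO_log_rpow_atTop (by norm_num : (0 : ℝ) < 1 / 2)).tendsto_div_nhds_zero).comp tendsto_natCast_atTop_atTop
  have h3 := h1.mul h2
  rw [inv_one, one_mul] at h3
  refine squeeze_zero' (Eventually.of_forall fun x => by positivity) ?_ h3
  filter_upwards [eventually_ge_atTop 2] with n hn
  have hn0 : (0 : ℝ) < n := by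
    have : 0 < n := by omega
    exact_mod_cast this
  have hl : 0 < Real.log n := Real.log_pos (by exact_mod_cast (by omega : 1 < n))
  have hp : 0 < (Nat.primeCounting n : ℝ) := by
    have : 0 < Nat.primeCounting n := c10_ppos hn
    exact_mod_cast this
  have h4 : ((Nat.primeCounting n : ℝ) * Real.log n / n)⁻¹ * (Real.log n / (n : ℝ) ^ (1 / 2 : ℝ)) = (n : ℝ) ^ (1 / 2 : ℝ) / Nat.primeCounting n := by
    have h5 : (n : ℝ) = (n : ℝ) ^ (1 / 2 : ℝ) * (n : ℝ) ^ (1 / 2 : ℝ) := by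
      rw [← Real.rpow_add hn0]
      norm_num
    have h6 : (n : ℝ) ^ (1 / 2 : ℝ) ≠ 0 := (Real.rpow_pos_of_pos hn0 _).ne'
    have h7 : ((Nat.primeCounting n : ℝ) * Real.log n / n)⁻¹ = n / ((Nat.primeCounting n : ℝ) * Real.log n) := by
      rw [inv_div]
    rw [h7]
    have h8 : (n : ℝ) / ((Nat.primeCounting n : ℝ) * Real.log n) * (Real.log n / (n : ℝ) ^ (1 / 2 : ℝ)) =
        (n : ℝ) / (n : ℝ) ^ (1 / 2 : ℝ) / Nat.primeCounting n := by
      field_simp
    rw [h8]
    congr 1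
    rw [div_eq_iff h6]
    exact h5
  rw [h4]
  refine div_le_div_of_nonneg_right ?_ hp.le
  rw [← Real.sqrt_eq_rpow]
  exact Real.nat_sqrt_le_real_sqrt

section fin

variable {K : Type} [Field K] [NumberField K] {L : Type} [Field L] [NumberField L] [Algebra K L]







end fin

end CFTC
end

-- from Lib.CHEB.C3
section

/-! # Chebotarev density theorem, part 3: the density for cyclic extensions (Artin reciprocity and the prime ideal theorem in ray classes) -/

open NumberField IsDedekindDomain Filter Topology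

namespace CHEB

open CFT

set_option linter.unusedSectionVars false
set_option linter.style.haveILetI false

variable {E : Type} [Field E] [NumberField E] {L : Type} [Field L] [NumberField L] [Algebra E L]

/-- The density of the primes with a given Frobenius element, for an abelian group generated by one element. -/
theorem dens_cyc [IsGalois E L] {σE : L ≃ₐ[E] L} (hgen : ∀ g : L ≃ₐ[E] L, g ∈ Subgroup.zpowers σE) (S : Finset (Pr E))
    (hS : ∀ v : Pr E, ¬ Unr E L v → v ∈ S) :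
    Tendsto (fun x : ℕ => (Set.ncard {w : Pr E | Nm w ≤ x ∧ w ∉ S ∧ frob E L w = σE} : ℝ) / (Nat.primeCounting x : ℝ))
      atTop (𝓝 (1 / (orderOf σE : ℝ))) := by
  classical
  have hab := hab_of_gen hgen
  letI : CommGroup (L ≃ₐ[E] L) := { (inferInstance : Group (L ≃ₐ[E] L)) with mul_comm := hab }
  obtain ⟨N, hN⟩ := artin E L hab S hS
  obtain ⟨φ, hφ⟩ : ∃ φ : Dv E →+ Additive (L ≃ₐ[E] L), φ = art S (MonoidHom.id (L ≃ₐ[E] L)) := ⟨_, rfl⟩
  have hφ1 : ∀ w : Pr E, w ∉ S → φ (Finsupp.single w 1) = Additive.ofMul (frob E L w) := by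
    intro w hw
    rw [hφ, art_single_of_notMem _ hw, one_zsmul]
    rfl
  have hsurj : ∀ s : L ≃ₐ[E] L, ∃ D : Dv E, φ D = Additive.ofMul s := by
    intro s
    have h1 : s ∈ Subgroup.closure {s : L ≃ₐ[E] L | ∃ v : Pr E, v ∉ S ∧ Unr E L v ∧ frob E L v = s} := by
      rw [frob_gen E L hab S]
      exact Subgroup.mem_top _
    induction h1 using Subgroup.closure_induction with
    | mem s hs =>
      obtain ⟨v, hv, _, rfl⟩ := hs
      exact ⟨Finsupp.single v 1, hφ1 v hv⟩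
    | one => exact ⟨0, map_zero φ⟩
    | mul a b _ _ ha hb =>
      obtain ⟨D1, h1⟩ := ha
      obtain ⟨D2, h2⟩ := hb
      exact ⟨D1 + D2, by rw [map_add, h1, h2]; rfl⟩
    | inv a _ ha =>
      obtain ⟨D1, h1⟩ := ha
      exact ⟨-D1, by rw [map_neg, h1]; rfl⟩
  have hrange : φ.range = ⊤ := by
    rw [AddMonoidHom.range_eq_top]
    intro s
    exact hsurj s
  have hidx : φ.ker.index = orderOf σE := by
    rw [AddSubgroup.index_ker, hrange, AddSubgroup.card_top]
    exact (orderOf_eq_card_of_forall_mem_zpowers hgen).symm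
  have hpos : 0 < orderOf σE := orderOf_pos _
  have hfi : φ.ker.FiniteIndex := ⟨by rw [hidx]; exact hpos.ne'⟩
  have hker : Pray S N ≤ φ.ker := by
    rintro D ⟨x, hx, hD⟩
    rw [AddMonoidHom.mem_ker, hφ, art_congr S _ (E := dv x) hD]
    exact hN _ _ _ hx
  obtain ⟨D, hD⟩ := hsurj σE
  have hmain := CFTL.nat_dens (fun S N => pray_fin E S N) S N φ.ker hker D
  rw [hidx] at hmain
  refine hmain.congr fun x => ?_
  congr 3
  ext w
  constructor
  · rintro ⟨h1, h2, h3⟩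
    refine ⟨h1, h2, ?_⟩
    rw [AddMonoidHom.mem_ker, map_sub, sub_eq_zero, hφ1 w h2, hD] at h3
    exact Additive.ofMul.injective h3
  · rintro ⟨h1, h2, h3⟩
    refine ⟨h1, h2, ?_⟩
    rw [AddMonoidHom.mem_ker, map_sub, sub_eq_zero, hφ1 w h2, hD, h3]

/-- Few primes have smallest prime factor of the norm at most y. -/
theorem card_le' (Φ : Finset (Pr E)) (y : ℕ) (h : ∀ v ∈ Φ, (Nm v).minFac ≤ y) : Φ.card ≤ Pool.Agent.SZ.dg E * (y + 1) := by
  classical
  have hmaps : ∀ v ∈ Φ, (Nm v).minFac ∈ Finset.range (y + 1) := by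
    intro v hv
    rw [Finset.mem_range]
    have h2 := h v hv
    omega
  rw [Finset.card_eq_sum_card_fiberwise hmaps]
  calc ∑ ℓ ∈ Finset.range (y + 1), (Φ.filter fun v => (Nm v).minFac = ℓ).card
      ≤ ∑ ℓ ∈ Finset.range (y + 1), Pool.Agent.SZ.dg E := by
        refine Finset.sum_le_sum fun ℓ _ => ?_
        have h1 := Pool.Agent.SZ.e27_card ((Φ.filter fun v => (Nm v).minFac = ℓ).image fun v : Pr E => v.asIdeal) (by
          intro p hp
          rw [Finset.mem_image] at hp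
          obtain ⟨v, _, rfl⟩ := hp
          exact ⟨v.isPrime, v.ne_bot⟩) ℓ (by
          intro p hp
          rw [Finset.mem_image] at hp
          obtain ⟨v, hv, rfl⟩ := hp
          rw [Finset.mem_filter] at hv
          exact hv.2)
        rwa [Finset.card_image_of_injective _ Pool.Agent.SZ.Asm.asIdeal_inj] at h1
    _ = Pool.Agent.SZ.dg E * (y + 1) := by
        rw [Finset.sum_const, Finset.card_range, smul_eq_mul, mul_comm]

variable {K : Type} [Field K] [NumberField K] [Algebra K E] [Algebra K L] [IsScalarTower K E L]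

theorem minFac_le_of_ne {w : Pr E} {x : ℕ} (hx : Nm w ≤ x) (h : Nm w ≠ Nm (below K w)) : (Nm w).minFac ≤ Nat.sqrt x := by
  have h1 := Nm_below (K := K) w
  have h2 := f_pos (K := K) w
  have h3 : w.asIdeal.inertiaDeg (𝓞 K) ≠ 1 := by
    intro h3
    rw [h3, pow_one] at h1
    exact h h1
  have h4 := two_le_Nm (below K w)
  rw [Nat.le_sqrt']
  rw [h1, Nat.pow_minFac h2.ne']
  refine le_trans ?_ hx
  rw [h1]
  calc (Nm (below K w)).minFac ^ 2 ≤ Nm (below K w) ^ 2 := Nat.pow_le_pow_left (Nat.minFac_le (by omega)) 2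
    _ ≤ Nm (below K w) ^ w.asIdeal.inertiaDeg (𝓞 K) := Nat.pow_le_pow_right (by omega) (by omega)

/-- The density of the set `C`. -/
theorem dens_C [IsGalois K L] [IsGalois E L] {σE : L ≃ₐ[E] L} (hgen : ∀ g : L ≃ₐ[E] L, g ∈ Subgroup.zpowers σE) :
    Tendsto (fun x : ℕ => (Set.ncard {w : Pr E | Nm w ≤ x ∧ Unr K L (below K w) ∧ Nm w = Nm (below K w) ∧ frob E L w = σE} : ℝ) /
      (Nat.primeCounting x : ℝ)) atTop (𝓝 (1 / (orderOf σE : ℝ))) := by
  classical
  -- the finite set of bad primes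
  have hbad : {w : Pr E | ¬ Unr K L (below K w)}.Finite := by
    have h1 : {v : Pr K | ¬ Unr K L v}.Finite := unr_fin
    refine (Set.Finite.biUnion h1 fun v _ => below_fin K E v).subset ?_
    intro w hw
    rw [Set.mem_iUnion₂]
    exact ⟨below K w, hw, rfl⟩
  obtain ⟨S, hS⟩ : ∃ S : Finset (Pr E), S = hbad.toFinset := ⟨_, rfl⟩
  have hSmem : ∀ w : Pr E, w ∈ S ↔ ¬ Unr K L (below K w) := by
    intro w
    rw [hS, Set.Finite.mem_toFinset]
    rfl
  have hSunr : ∀ w : Pr E, ¬ Unr E L w → w ∈ S := by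
    intro w hw
    rw [hSmem]
    intro h
    exact hw ((unr_tower K E L h).2 _ rfl)
  have h1 := dens_cyc hgen S hSunr
  have h2 : Tendsto (fun x : ℕ => (Pool.Agent.SZ.dg E : ℝ) * ((Nat.sqrt x : ℝ) / (Nat.primeCounting x : ℝ) + ((Nat.primeCounting x : ℝ))⁻¹))
      atTop (𝓝 0) := by
    have e1 : Tendsto (fun x : ℕ => ((Nat.primeCounting x : ℝ))⁻¹) atTop (𝓝 0) :=
      tendsto_inv_atTop_zero.comp (tendsto_natCast_atTop_atTop.comp Nat.tendsto_primeCounting)
    have e2 := (CFTC.c10_sqrt.add e1).const_mul (Pool.Agent.SZ.dg E : ℝ)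
    rwa [add_zero, mul_zero] at e2
  have h3 := h1.sub h2
  rw [sub_zero] at h3
  refine tendsto_of_tendsto_of_tendsto_of_le_of_le h3 h1 (fun x => ?_) fun x => ?_
  · show (Set.ncard {w : Pr E | Nm w ≤ x ∧ w ∉ S ∧ frob E L w = σE} : ℝ) / (Nat.primeCounting x : ℝ) -
      (Pool.Agent.SZ.dg E : ℝ) * ((Nat.sqrt x : ℝ) / (Nat.primeCounting x : ℝ) + ((Nat.primeCounting x : ℝ))⁻¹) ≤ _
    have e0 : (Pool.Agent.SZ.dg E : ℝ) * ((Nat.sqrt x : ℝ) / (Nat.primeCounting x : ℝ) + ((Nat.primeCounting x : ℝ))⁻¹) =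
        ((Pool.Agent.SZ.dg E * (Nat.sqrt x + 1) : ℕ) : ℝ) / (Nat.primeCounting x : ℝ) := by
      push_cast
      rw [← one_div, ← add_div, mul_div_assoc]
    rw [e0, ← sub_div]
    refine div_le_div_of_nonneg_right ?_ (Nat.cast_nonneg _)
    have hfin : {w : Pr E | Nm w ≤ x}.Finite := CFTC.nm_fin x
    have hfD : {w : Pr E | Nm w ≤ x ∧ Nm w ≠ Nm (below K w)}.Finite := hfin.subset fun w hw => hw.1
    have hfC : {w : Pr E | Nm w ≤ x ∧ Unr K L (below K w) ∧ Nm w = Nm (below K w) ∧ frob E L w = σE}.Finite :=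
      hfin.subset fun w hw => hw.1
    have e1 : {w : Pr E | Nm w ≤ x ∧ w ∉ S ∧ frob E L w = σE} ⊆
        {w : Pr E | Nm w ≤ x ∧ Unr K L (below K w) ∧ Nm w = Nm (below K w) ∧ frob E L w = σE} ∪
          {w : Pr E | Nm w ≤ x ∧ Nm w ≠ Nm (below K w)} := by
      rintro w ⟨h1, h2, h3⟩
      rw [hSmem, not_not] at h2
      by_cases h4 : Nm w = Nm (below K w)
      · exact Or.inl ⟨h1, h2, h4, h3⟩
      · exact Or.inr ⟨h1, h4⟩
    have e2 := (Set.ncard_le_ncard e1 (hfC.union hfD)).trans (Set.ncard_union_le _ _)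
    have e3 : Set.ncard {w : Pr E | Nm w ≤ x ∧ Nm w ≠ Nm (below K w)} ≤ Pool.Agent.SZ.dg E * (Nat.sqrt x + 1) := by
      rw [Set.ncard_eq_toFinset_card _ hfD]
      apply card_le'
      intro w hw
      rw [Set.Finite.mem_toFinset] at hw
      exact minFac_le_of_ne hw.1 hw.2
    have e4 : (Set.ncard {w : Pr E | Nm w ≤ x ∧ w ∉ S ∧ frob E L w = σE} : ℝ) ≤
        Set.ncard {w : Pr E | Nm w ≤ x ∧ Unr K L (below K w) ∧ Nm w = Nm (below K w) ∧ frob E L w = σE} +
          ((Pool.Agent.SZ.dg E * (Nat.sqrt x + 1) : ℕ) : ℝ) := by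
      exact_mod_cast e2.trans (Nat.add_le_add_left e3 _)
    linarith
  · show (Set.ncard {w : Pr E | Nm w ≤ x ∧ Unr K L (below K w) ∧ Nm w = Nm (below K w) ∧ frob E L w = σE} : ℝ) /
      (Nat.primeCounting x : ℝ) ≤ _
    refine div_le_div_of_nonneg_right ?_ (Nat.cast_nonneg _)
    have e1 : Set.ncard {w : Pr E | Nm w ≤ x ∧ Unr K L (below K w) ∧ Nm w = Nm (below K w) ∧ frob E L w = σE} ≤
        Set.ncard {w : Pr E | Nm w ≤ x ∧ w ∉ S ∧ frob E L w = σE} := by
      refine Set.ncard_le_ncard ?_ ((CFTC.nm_fin x).subset fun w hw => hw.1)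
      rintro w ⟨h1, h2, _, h4⟩
      exact ⟨h1, by rw [hSmem, not_not]; exact h2, h4⟩
    exact_mod_cast e1

end CHEB
end

-- from Lib.CHEB.Main
section

/-! # CHEBOTAREV DENSITY THEOREM (natural density, all Galois extensions of number fields)

`CHEB.FrAt K W s` (C1.lean): `s • x ≡ x ^ Nm (below K W) mod W` for all `x` in the ring of integers of `L` (`s` is the Frobenius element at the prime `W` of `L`).
`CFT.chebotarev`: the primes `v` of `K` which are unramified in `L` and have a prime `W` above them with Frobenius element `σ` have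
natural density (number of conjugates of `σ`) / (order of the Galois group). -/

open NumberField IsDedekindDomain Filter Topology

namespace CHEB

open CFT

set_option linter.unusedSectionVars false
set_option linter.style.haveILetI false

variable {K : Type} [Field K] [NumberField K] {L : Type} [Field L] [NumberField L] [Algebra K L]

/-- Chebotarev, with the centralizer. -/
theorem cheb_centralizer [IsGalois K L] (σ : L ≃ₐ[K] L) :
    Tendsto (fun x : ℕ => (Set.ncard {v : Pr K | Nm v ≤ x ∧ Unr K L v ∧ ∃ W : Pr L, below K W = v ∧ FrAt K W σ} : ℝ) /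
      (Nat.primeCounting x : ℝ)) atTop (𝓝 (1 / (Nat.card (Subgroup.centralizer {σ}) : ℝ))) := by
  classical
  obtain ⟨E, hE⟩ : ∃ E : IntermediateField K L, E = IntermediateField.fixedField (Subgroup.zpowers σ) := ⟨_, rfl⟩
  have hNF : NumberField E := NumberField.of_module_finite K E
  have hfix : E.fixingSubgroup = Subgroup.zpowers σ := by
    rw [hE]
    exact IntermediateField.fixingSubgroup_fixedField _
  have hGal : IsGalois E L := inferInstance
  have hσ : σ ∈ E.fixingSubgroup := by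
    rw [hfix]
    exact Subgroup.mem_zpowers σ
  obtain ⟨σE, hσE0⟩ : ∃ σE : L ≃ₐ[E] L, σE = IntermediateField.fixingSubgroupEquiv E ⟨σ, hσ⟩ := ⟨_, rfl⟩
  have hσE : ∀ x : L, σE x = σ x := by
    intro x
    rw [hσE0]
    rfl
  have hgen : ∀ g : L ≃ₐ[E] L, g ∈ Subgroup.zpowers σE := by
    intro g
    obtain ⟨⟨s, hs⟩, rfl⟩ := (IntermediateField.fixingSubgroupEquiv E).surjective g
    have hs' := hs
    rw [hfix, Subgroup.mem_zpowers_iff] at hs'
    obtain ⟨k, rfl⟩ := hs'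
    rw [Subgroup.mem_zpowers_iff]
    refine ⟨k, ?_⟩
    rw [hσE0, ← map_zpow]
    rfl
  have hord : orderOf σE = orderOf σ := by
    rw [hσE0, MulEquiv.orderOf_eq]
    exact Subgroup.orderOf_mk _ _
  have h1 := dens_C (K := K) hgen
  rw [hord] at h1
  have hpos : (0 : ℝ) < orderOf σ := by exact_mod_cast orderOf_pos σ
  have hcpos : (0 : ℝ) < Nat.card (Subgroup.centralizer {σ}) := by exact_mod_cast Nat.card_pos
  have h2 := h1.const_mul ((orderOf σ : ℝ) / (Nat.card (Subgroup.centralizer {σ}) : ℝ))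
  have e1 : (orderOf σ : ℝ) / (Nat.card (Subgroup.centralizer {σ}) : ℝ) * (1 / (orderOf σ : ℝ)) =
      1 / (Nat.card (Subgroup.centralizer {σ}) : ℝ) := by
    field_simp
  rw [e1] at h2
  refine h2.congr fun x => ?_
  have h3 := ncard_A (L := L) σ x (CFTC.nm_fin x)
  rw [ncard_B hσE hgen x] at h3
  have h4 : (Set.ncard {w : Pr E | Nm w ≤ x ∧ Unr K L (below K w) ∧ Nm w = Nm (below K w) ∧ frob E L w = σE} : ℝ) * orderOf σ =
      (Set.ncard {v : Pr K | Nm v ≤ x ∧ Unr K L v ∧ ∃ W : Pr L, below K W = v ∧ FrAt K W σ} : ℝ) *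
        Nat.card (Subgroup.centralizer {σ}) := by exact_mod_cast h3
  rw [div_mul_div_comm, mul_comm (orderOf σ : ℝ), h4]
  rw [mul_comm _ (Nat.primeCounting x : ℝ)]
  rw [mul_div_mul_right _ _ hcpos.ne']


end CHEB

namespace CFT


/-- For every element of the Galois group there are infinitely many primes with this Frobenius element. -/
theorem chebotarev_infinite (K : Type) [Field K] [NumberField K] (L : Type) [Field L] [NumberField L] [Algebra K L] [IsGalois K L]
    (σ : L ≃ₐ[K] L) : {v : Pr K | Unr K L v ∧ ∃ W : Pr L, below K W = v ∧ CHEB.FrAt K W σ}.Infinite := by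
  intro hfin
  have h1 := CHEB.cheb_centralizer (K := K) (L := L) σ
  have hπ : Tendsto (fun x : ℕ => ((Nat.primeCounting x : ℝ))⁻¹) atTop (𝓝 0) :=
    tendsto_inv_atTop_zero.comp (tendsto_natCast_atTop_atTop.comp Nat.tendsto_primeCounting)
  have h2 := hπ.const_mul (Set.ncard {v : Pr K | Unr K L v ∧ ∃ W : Pr L, below K W = v ∧ CHEB.FrAt K W σ} : ℝ)
  rw [mul_zero] at h2
  have h3 : (1 / (Nat.card (Subgroup.centralizer {σ}) : ℝ)) ≤ 0 := by
    refine le_of_tendsto_of_tendsto' h1 h2 fun x => ?_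
    rw [← div_eq_mul_inv]
    refine div_le_div_of_nonneg_right ?_ (Nat.cast_nonneg _)
    have h4 : {v : Pr K | Nm v ≤ x ∧ Unr K L v ∧ ∃ W : Pr L, below K W = v ∧ CHEB.FrAt K W σ} ⊆
        {v : Pr K | Unr K L v ∧ ∃ W : Pr L, below K W = v ∧ CHEB.FrAt K W σ} := fun v hv => hv.2
    exact_mod_cast Set.ncard_le_ncard h4 hfin
  have h4 : (0 : ℝ) < Nat.card (Subgroup.centralizer {σ}) := by exact_mod_cast Nat.card_pos
  have h5 := one_div_pos.2 h4
  linarith

end CFT
end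

-- from Lib.CHEB.Rat
section

/-! # Chebotarev density theorem over the rational numbers, in terms of ordinary primes -/

open NumberField IsDedekindDomain Filter Topology

namespace CHEB

open CFT

set_option linter.unusedSectionVars false
set_option linter.style.haveILetI false

theorem rat_prime (v : Pr ℚ) : (Rat.HeightOneSpectrum.natGenerator v).Prime ∧
    v.asIdeal = Ideal.span {((Rat.HeightOneSpectrum.natGenerator v : ℕ) : 𝓞 ℚ)} := by
  have hp := Rat.HeightOneSpectrum.prime_natGenerator v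
  refine ⟨hp, ?_⟩
  have h1 := Rat.HeightOneSpectrum.span_natGenerator v
  ext x
  rw [← Ideal.apply_mem_of_equiv_iff (f := Rat.IsIntegralClosure.intEquiv (𝓞 ℚ)), ← h1, Ideal.mem_span_singleton,
    Ideal.mem_span_singleton]
  constructor
  · rintro ⟨y, hy⟩
    refine ⟨(Rat.IsIntegralClosure.intEquiv (𝓞 ℚ)).symm y, ?_⟩
    apply (Rat.IsIntegralClosure.intEquiv (𝓞 ℚ)).injective
    rw [hy, map_mul, map_natCast, RingEquiv.apply_symm_apply]
  · rintro ⟨y, hy⟩
    refine ⟨Rat.IsIntegralClosure.intEquiv (𝓞 ℚ) y, ?_⟩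
    rw [hy, map_mul, map_natCast]

theorem rat_Nm_eq (v : Pr ℚ) : Nm v = Rat.HeightOneSpectrum.natGenerator v := by
  unfold Nm
  rw [(rat_prime v).2, Ideal.absNorm_span_natCast, RingOfIntegers.rank, Module.finrank_self, pow_one]

theorem rat_Nm_prime (v : Pr ℚ) : (Nm v).Prime := by
  rw [rat_Nm_eq]
  exact (rat_prime v).1


variable {L : Type} [Field L] [NumberField L]

theorem mem_of_below {v : Pr ℚ} {W : Pr L} (h : below ℚ W = v) : ((Nm v : ℕ) : 𝓞 L) ∈ W.asIdeal := by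
  have h1 : ((Nm v : ℕ) : 𝓞 ℚ) ∈ (below ℚ W).asIdeal := by
    rw [h, rat_Nm_eq, (rat_prime v).2]
    exact Ideal.mem_span_singleton_self _
  have h2 : algebraMap (𝓞 ℚ) (𝓞 L) ((Nm v : ℕ) : 𝓞 ℚ) ∈ W.asIdeal := h1
  rwa [map_natCast] at h2


end CHEB

namespace CFT

open CHEB


end CFT
end

-- from Lib.H45K.K4a
section

/-! # K4a: embeddings of a number field into the l-adic numbers from a Frobenius congruence -/

open NumberField IsDedekindDomain Polynomial CFT

namespace H45K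

/-- There are arbitrarily large primes with a given Frobenius element. -/
theorem k4_frob (M : Type) [Field M] [NumberField M] [IsGalois ℚ M] (σ : M ≃ₐ[ℚ] M) (B : ℕ) :
    ∃ l : ℕ, l.Prime ∧ B < l ∧ ∃ W : Pr M, (l : 𝓞 M) ∈ W.asIdeal ∧ ∀ y : 𝓞 M, σ • y - y ^ l ∈ W.asIdeal := by
  have h1 := chebotarev_infinite ℚ M σ
  have h2 : {v : Pr ℚ | Nm v ≤ B}.Finite := CFTC.nm_fin B
  obtain ⟨v, ⟨_, W, hW, hF⟩, hv⟩ := h1.exists_notMem_finset h2.toFinset
  rw [Set.Finite.mem_toFinset, Set.mem_ofPred_eq, not_le] at hv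
  refine ⟨Nm v, CHEB.rat_Nm_prime v, hv, W, CHEB.mem_of_below hW, fun y => ?_⟩
  have h3 := hF y
  rwa [hW] at h3

/-- An element fixed by the Frobenius map modulo a prime is congruent to an integer. -/
theorem k4_int {M : Type} [Field M] [NumberField M] (W : Pr M) {l : ℕ} (hl : l.Prime) (h : (l : 𝓞 M) ∈ W.asIdeal)
    (x : 𝓞 M) (hx : x - x ^ l ∈ W.asIdeal) : ∃ t : ℤ, x - (t : 𝓞 M) ∈ W.asIdeal := by
  have : Fact l.Prime := ⟨hl⟩
  have hmax : W.asIdeal.IsMaximal := W.isMaximal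
  let _ : Field (𝓞 M ⧸ W.asIdeal) := Ideal.Quotient.field W.asIdeal
  have hc : CharP (𝓞 M ⧸ W.asIdeal) l := by
    refine (CharP.charP_iff_prime_eq_zero hl).2 ?_
    have := (Ideal.Quotient.eq_zero_iff_mem (I := W.asIdeal)).2 h
    rwa [map_natCast] at this
  have h1 : (Ideal.Quotient.mk W.asIdeal x) ^ l = Ideal.Quotient.mk W.asIdeal x := by
    rw [← map_pow]
    exact ((Ideal.Quotient.eq).2 hx).symm
  have h2 := (Subfield.mem_bot_iff_pow_eq_self (𝓞 M ⧸ W.asIdeal) l).2 h1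
  obtain ⟨t, ht⟩ := (mem_bot_iff_intCast l _).1 h2
  refine ⟨t, (Ideal.Quotient.eq).1 ?_⟩
  rw [map_intCast, ht]

/-- Integers in a prime above `l` are divisible by `l`. -/
theorem k4_dvd {M : Type} [Field M] [NumberField M] (W : Pr M) {l : ℕ} (hl : l.Prime) (h : (l : 𝓞 M) ∈ W.asIdeal)
    (n : ℤ) (hn : (n : 𝓞 M) ∈ W.asIdeal) : (l : ℤ) ∣ n := by
  by_contra hc
  have h1 : IsCoprime (l : ℤ) n := (Nat.prime_iff_prime_int.1 hl).coprime_iff_not_dvd.2 hc
  obtain ⟨u, w, huw⟩ := h1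
  apply W.isPrime.ne_top
  rw [Ideal.eq_top_iff_one]
  have h3 : (1 : 𝓞 M) = (u : 𝓞 M) * (l : 𝓞 M) + (w : 𝓞 M) * (n : 𝓞 M) := by
    have := congrArg (fun t : ℤ => (t : 𝓞 M)) huw
    push_cast at this
    exact this.symm
  rw [h3]
  exact W.asIdeal.add_mem (W.asIdeal.mul_mem_left _ h) (W.asIdeal.mul_mem_left _ hn)

/-- A nonzero integer multiple of an element is integral. -/
theorem k4_mult {N : Type} [Field N] [NumberField N] (x : N) : ∃ (D : ℤ) (y : 𝓞 N), D ≠ 0 ∧ (y : N) = (D : N) * x := by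
  obtain ⟨D, hD0, hD⟩ := IsAlgebraic.exists_integral_multiple ((IsFractionRing.isAlgebraic_iff ℤ ℚ N).2 (Algebra.IsAlgebraic.isAlgebraic x))
  refine ⟨D, ⟨D • x, hD⟩, hD0, ?_⟩
  show D • x = _
  rw [zsmul_eq_mul]

/-- An integral primitive element. -/
theorem k4_prim (N : Type) [Field N] [NumberField N] : ∃ θ : 𝓞 N, Algebra.adjoin ℚ {(θ : N)} = ⊤ := by
  set pb := Field.powerBasisOfFiniteOfSeparable ℚ N
  obtain ⟨D, y, hD0, hy⟩ := k4_mult pb.gen
  refine ⟨y, ?_⟩
  rw [← top_le_iff, ← pb.adjoin_gen_eq_top]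
  refine Algebra.adjoin_le ?_
  rw [Set.singleton_subset_iff]
  have h1 : pb.gen = (D : ℚ)⁻¹ • (y : N) := by
    rw [hy, Algebra.smul_def, map_inv₀, map_intCast, ← mul_assoc, inv_mul_cancel₀, one_mul]
    exact_mod_cast hD0
  rw [h1]
  exact Subalgebra.smul_mem _ (Algebra.subset_adjoin (Set.mem_singleton _)) _

end H45K
end

-- from Lib.H45K.K4b
section

/-! # K4b: the embedding lemma -/

open NumberField IsDedekindDomain Polynomial CFT

namespace H45K

theorem k4_cong {M : Type} [Field M] [NumberField M] (W : Pr M) {y : 𝓞 M} {t : ℤ} (h : y - (t : 𝓞 M) ∈ W.asIdeal)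
    (P : ℤ[X]) : aeval y P - ((P.eval t : ℤ) : 𝓞 M) ∈ W.asIdeal := by
  have h1 := Polynomial.sub_dvd_eval_sub y (t : 𝓞 M) (P.map (algebraMap ℤ (𝓞 M)))
  rw [eval_map_algebraMap, eval_map_algebraMap] at h1
  have h2 : aeval (t : 𝓞 M) P = ((P.eval t : ℤ) : 𝓞 M) := by
    have h3 := Polynomial.aeval_algebraMap_apply (𝓞 M) t P
    rw [eq_intCast, eq_intCast] at h3
    rw [h3]
    simp
  rw [h2] at h1
  obtain ⟨u, hu⟩ := h1
  rw [hu]
  exact W.asIdeal.mul_mem_right _ h

theorem k4_padic {l : ℕ} [Fact l.Prime] {z : ℤ_[l]} {t : ℤ} (h : ‖z - (t : ℤ_[l])‖ < 1) (P : ℤ[X]) :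
    ‖aeval z P - ((P.eval t : ℤ) : ℤ_[l])‖ < 1 := by
  have h1 := Polynomial.sub_dvd_eval_sub z (t : ℤ_[l]) (P.map (algebraMap ℤ ℤ_[l]))
  rw [eval_map_algebraMap, eval_map_algebraMap] at h1
  have h2 : aeval (t : ℤ_[l]) P = ((P.eval t : ℤ) : ℤ_[l]) := by
    have h3 := Polynomial.aeval_algebraMap_apply ℤ_[l] t P
    rw [eq_intCast, eq_intCast] at h3
    rw [h3]
    simp
  rw [h2] at h1
  obtain ⟨u, hu⟩ := h1
  rw [hu, norm_mul]
  calc ‖z - (t : ℤ_[l])‖ * ‖u‖ ≤ ‖z - (t : ℤ_[l])‖ * 1 := mul_le_mul_of_nonneg_left (PadicInt.norm_le_one u) (norm_nonneg _)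
    _ < 1 := by rwa [mul_one]

theorem k4_norm_add {l : ℕ} [Fact l.Prime] {x y : ℤ_[l]} (hx : ‖x‖ < 1) (hy : ‖y‖ < 1) : ‖x + y‖ < 1 :=
  (PadicInt.nonarchimedean x y).trans_lt (max_lt hx hy)

/-- Let `b` be an integer of the number field `N`. For all large primes `l` and all primes `W` above `l` in an extension `M`
with trivial Frobenius on `N` there is an embedding of `N` in `ℚ_l` such that if `b` is an m-th power there then it is
an m-th power of an integer modulo `W`. -/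
theorem k4_emb (N : Type) [Field N] [NumberField N] (b : 𝓞 N) : ∃ B : ℕ, ∀ (l : ℕ) [Fact l.Prime], B < l →
    ∀ (M : Type) [Field M] [NumberField M] (i : N →+* M) (W : Pr M), (l : 𝓞 M) ∈ W.asIdeal →
      (∀ x : 𝓞 N, RingOfIntegers.mapRingHom i x - RingOfIntegers.mapRingHom i x ^ l ∈ W.asIdeal) →
      ∃ j : N →+* ℚ_[l], ∀ (m : ℕ), m ≠ 0 → ∀ c : ℚ_[l], c ^ m = j (b : N) →
        ∃ c0 : ℤ, RingOfIntegers.mapRingHom i b - (c0 : 𝓞 M) ^ m ∈ W.asIdeal := by
  obtain ⟨θ, hθ⟩ := k4_prim N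
  have hint : IsIntegral ℤ (θ : N) := RingOfIntegers.isIntegral_coe θ
  set f := minpoly ℤ (θ : N) with hf
  have hfQ : minpoly ℚ (θ : N) = f.map (algebraMap ℤ ℚ) := minpoly.isIntegrallyClosed_eq_field_fractions' ℚ hint
  have hsep : (minpoly ℚ (θ : N)).Separable := (minpoly.irreducible (hint.tower_top)).separable
  obtain ⟨U, V, R, hR, hUV⟩ := Pool.Agent.H60.UDef.exists_bezout (minpoly ℚ (θ : N)) hsep (N := 1) one_ne_zero
    (G := f) (by rw [hfQ, Int.cast_one, one_smul])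
  have hb : (b : N) ∈ Algebra.adjoin ℚ {(θ : N)} := by
    rw [hθ]
    exact Algebra.mem_top
  rw [Algebra.adjoin_singleton_eq_range_aeval] at hb
  obtain ⟨g0, hg0⟩ := hb
  obtain ⟨D, g, hD, hg⟩ := Pool.Agent.H60.UDef.exists_int_poly g0
  have hg1 : (D : N) * (b : N) = aeval (θ : N) g := by
    rw [Pool.Agent.H60.UDef.aeval_int_poly hg]
    congr 1
    exact hg0.symm
  have hgO : (D : 𝓞 N) * b = aeval θ g := by
    apply RingOfIntegers.coe_injective
    rw [map_mul, map_intCast, hg1]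
    exact Polynomial.aeval_algebraMap_apply N θ g
  have hfO : aeval θ f = 0 := by
    apply RingOfIntegers.coe_injective
    rw [map_zero, ← Polynomial.aeval_algebraMap_apply N θ f]
    exact minpoly.aeval ℤ (θ : N)
  refine ⟨max R.natAbs D.natAbs, fun l hl hB M _ _ i W hlW hfr => ?_⟩
  have hlR : ¬ (l : ℤ) ∣ R := fun h => by
    have h1 := Int.natCast_dvd.1 h
    have h2 := Nat.le_of_dvd (Int.natAbs_pos.2 hR) h1
    exact absurd ((le_max_left _ _).trans_lt hB) (not_lt.2 h2)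
  have hlD : ¬ (l : ℤ) ∣ D := fun h => by
    have h1 := Int.natCast_dvd.1 h
    have h2 := Nat.le_of_dvd (Int.natAbs_pos.2 hD) h1
    exact absurd ((le_max_right _ _).trans_lt hB) (not_lt.2 h2)
  set I := RingOfIntegers.mapRingHom i with hI
  have hIa : ∀ P : ℤ[X], I (aeval θ P) = aeval (I θ) P := fun P => (aeval_algHom_apply I.toIntAlgHom θ P).symm
  obtain ⟨t, ht⟩ := k4_int W hl.out hlW (I θ) (hfr θ)
  have hft : (l : ℤ) ∣ f.eval t := by
    refine k4_dvd W hl.out hlW _ ?_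
    have h1 := k4_cong W ht f
    rw [← hIa, hfO, map_zero, zero_sub] at h1
    exact (Ideal.neg_mem_iff _).1 h1
  -- Hensel
  have e1 : aeval (t : ℤ_[l]) f = ((f.eval t : ℤ) : ℤ_[l]) := by
    have := Polynomial.aeval_algebraMap_apply ℤ_[l] t f
    simpa using this
  have e2 : aeval (t : ℤ_[l]) (derivative f) = (((derivative f).eval t : ℤ) : ℤ_[l]) := by
    have := Polynomial.aeval_algebraMap_apply ℤ_[l] t (derivative f)
    simpa using this
  have hn1 : ‖aeval (t : ℤ_[l]) f‖ < 1 := by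
    rw [e1, PadicInt.norm_int_lt_one_iff_dvd]
    exact hft
  have hn2 : ‖aeval (t : ℤ_[l]) (derivative f)‖ = 1 := by
    rw [e2]
    have h1 : ¬ ‖(((derivative f).eval t : ℤ) : ℤ_[l])‖ < 1 := by
      rw [PadicInt.norm_int_lt_one_iff_dvd]
      intro h
      apply hlR
      have h2 := congrArg (eval t) hUV
      rw [eval_add, eval_mul, eval_mul, eval_C] at h2
      rw [← h2]
      exact dvd_add (hft.mul_left _) (h.mul_left _)
    exact le_antisymm (PadicInt.norm_le_one _) (not_lt.1 h1)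
  obtain ⟨z, hz, hzt, -, -⟩ := hensels_lemma (F := f) (a := (t : ℤ_[l])) (by rw [hn2]; simpa using hn1)
  rw [hn2] at hzt
  let pb : PowerBasis ℚ N := PowerBasis.ofAdjoinEqTop' (hint.tower_top (A := ℚ)) hθ
  have hgen : pb.gen = (θ : N) := PowerBasis.ofAdjoinEqTop'_gen _ _
  have hzf : aeval (z : ℚ_[l]) f = 0 := by
    have := Polynomial.aeval_algebraMap_apply ℚ_[l] z f
    rw [hz, map_zero] at this
    exact this
  have hroot : aeval (z : ℚ_[l]) (minpoly ℚ pb.gen) = 0 := by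
    rw [hgen, hfQ, aeval_map_algebraMap]
    exact hzf
  let j : N →ₐ[ℚ] ℚ_[l] := pb.lift (z : ℚ_[l]) hroot
  have hjθ : j (θ : N) = z := by
    rw [← hgen]
    exact pb.lift_gen _ hroot
  have hja : ∀ P : ℤ[X], j (aeval (θ : N) P) = ((aeval z P : ℤ_[l]) : ℚ_[l]) := by
    intro P
    have h1 := (aeval_algHom_apply (j.toRingHom.toIntAlgHom) (θ : N) P).symm
    have h2 := Polynomial.aeval_algebraMap_apply ℚ_[l] z P
    have h3 : (j.toRingHom.toIntAlgHom) (θ : N) = algebraMap ℤ_[l] ℚ_[l] z := hjθ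
    rw [h3, h2] at h1
    exact h1
  refine ⟨j.toRingHom, fun m hm c hc => ?_⟩
  have hjb : ‖j.toRingHom (b : N)‖ ≤ 1 := Pool.Agent.H57O.f0_int j.toRingHom b
  have hc1 : ‖c‖ ≤ 1 := by
    rw [← hc, norm_pow] at hjb
    exact (pow_le_one_iff_of_nonneg (norm_nonneg c) hm).1 hjb
  obtain ⟨c', rfl⟩ : ∃ c' : ℤ_[l], (c' : ℚ_[l]) = c := ⟨⟨c, hc1⟩, rfl⟩
  have hDc : (D : ℤ_[l]) * c' ^ m = aeval z g := by
    have h1 : ((aeval z g : ℤ_[l]) : ℚ_[l]) = ((D : ℤ_[l]) * c' ^ m : ℤ_[l]) := by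
      rw [← hja, ← hg1, map_mul, map_intCast]
      push_cast
      rw [hc]
      rfl
    exact (Subtype.coe_injective h1).symm
  obtain ⟨c0, hc0⟩ : ∃ c0 : ℤ, ‖c' - (c0 : ℤ_[l])‖ < 1 := by
    refine ⟨(c'.zmodRepr : ℤ), ?_⟩
    have := PadicInt.norm_sub_zmodRepr_lt_one c'
    simpa using this
  have hkey : (l : ℤ) ∣ g.eval t - D * c0 ^ m := by
    rw [← PadicInt.norm_int_lt_one_iff_dvd]
    have h1 := k4_padic hzt g
    have h2 := k4_padic hc0 (C D * X ^ m)
    have h3 : aeval c' (C D * X ^ m : ℤ[X]) = (D : ℤ_[l]) * c' ^ m := by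
      rw [map_mul, map_pow, aeval_X, aeval_C, eq_intCast]
    have h4 : (C D * X ^ m : ℤ[X]).eval c0 = D * c0 ^ m := by
      rw [eval_mul, eval_pow, eval_X, eval_C]
    rw [h3, h4, hDc] at h2
    have h5 : ‖(((g.eval t : ℤ) : ℤ_[l]) - aeval z g)‖ < 1 := by
      rw [norm_sub_rev]
      exact h1
    have h6 := k4_norm_add h5 h2
    rw [sub_add_sub_cancel] at h6
    rw [Int.cast_sub]
    exact h6
  refine ⟨c0, ?_⟩
  have h7 : (D : 𝓞 M) * (I b - (c0 : 𝓞 M) ^ m) ∈ W.asIdeal := by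
    have h8 := k4_cong W ht g
    rw [← hIa, ← hgO, map_mul, map_intCast] at h8
    have h9 : ((g.eval t - D * c0 ^ m : ℤ) : 𝓞 M) ∈ W.asIdeal := by
      obtain ⟨u, hu⟩ := hkey
      rw [hu, Int.cast_mul, Int.cast_natCast]
      exact W.asIdeal.mul_mem_right _ hlW
    have h10 := W.asIdeal.add_mem h8 h9
    have h11 : (D : 𝓞 M) * I b - ((g.eval t : ℤ) : 𝓞 M) + ((g.eval t - D * c0 ^ m : ℤ) : 𝓞 M) =
        (D : 𝓞 M) * (I b - (c0 : 𝓞 M) ^ m) := by
      push_cast
      ring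
    rwa [h11] at h10
  rcases W.isPrime.mem_or_mem h7 with h | h
  · exact absurd (k4_dvd W hl.out hlW D h) hlD
  · exact h

end H45K
end

-- from Lib.H45K.K4c
section

/-! # K4c: local m-th powers are m-th powers -/

open NumberField IsDedekindDomain Polynomial CFT

namespace H45K

theorem k4_gal_aux (L : Type) [Field L] [CharZero L] (inst : Algebra ℚ L) (h : @IsGalois ℚ _ L _ inst) :
    @IsGalois ℚ _ L _ DivisionRing.toRatAlgebra := by
  have e : inst = DivisionRing.toRatAlgebra := Subsingleton.elim _ _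
  subst e
  exact h

/-- Galois closure. -/
theorem k4_gal (N : Type) [Field N] [NumberField N] :
    ∃ (M : Type) (_ : Field M) (_ : NumberField M), IsGalois ℚ M ∧ Nonempty (N →+* M) := by
  set pb := Field.powerBasisOfFiniteOfSeparable ℚ N with hpb
  set f := minpoly ℚ pb.gen with hf
  have hL0 : CharZero f.SplittingField := charZero_of_injective_algebraMap (algebraMap ℚ f.SplittingField).injective
  have hL : NumberField f.SplittingField := ⟨⟩
  have hirr : Irreducible f := minpoly.irreducible (Algebra.IsIntegral.isIntegral _)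
  have hG := k4_gal_aux f.SplittingField _
    (@IsGalois.of_separable_splitting_field ℚ _ f.SplittingField _ _ f (IsSplittingField.splittingField f) hirr.separable)
  have hdeg : (f.map (algebraMap ℚ f.SplittingField)).degree ≠ 0 := by
    rw [degree_map]
    exact hirr.degree_pos.ne'
  obtain ⟨r, hr⟩ := (SplittingField.splits f).exists_eval_eq_zero hdeg
  rw [eval_map_algebraMap] at hr
  exact ⟨f.SplittingField, inferInstance, hL, hG, ⟨(pb.lift r hr).toRingHom⟩⟩

/-- The integral version: `b` is not an m-th power in `N` (which contains the m-th roots of unity), then for arbitrarily large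
primes `l` there is an embedding in `ℚ_l` such that `b` is not an m-th power there. -/
theorem k4_main_int (N : Type) [Field N] [NumberField N] (m : ℕ) (hm : m ≠ 0) (ζ : N) (hζ : IsPrimitiveRoot ζ m)
    (b : 𝓞 N) (hb : ∀ c : N, c ^ m ≠ (b : N)) (B : ℕ) :
    ∃ (l : ℕ) (_ : Fact l.Prime), B < l ∧ ∃ j : N →+* ℚ_[l], ∀ c : ℚ_[l], c ^ m ≠ j (b : N) := by
  let N' := (X ^ m - C (b : N) : N[X]).SplittingField
  have hN0 : CharZero N' := charZero_of_injective_algebraMap (algebraMap N N').injective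
  have hN' : NumberField N' := NumberField.of_module_finite N N'
  have hdeg : ((X ^ m - C (b : N) : N[X]).map (algebraMap N N')).degree ≠ 0 := by
    rw [degree_map, degree_X_pow_sub_C (Nat.pos_of_ne_zero hm)]
    exact_mod_cast hm
  obtain ⟨β', hβ'⟩ := (SplittingField.splits (X ^ m - C (b : N) : N[X])).exists_eval_eq_zero hdeg
  have hβ1 : β' ^ m = algebraMap N N' (b : N) := by
    rw [eval_map, eval₂_sub, eval₂_pow, eval₂_X, eval₂_C] at hβ'
    exact sub_eq_zero.1 hβ'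
  obtain ⟨M, _, _, hGal, ⟨i'⟩⟩ := k4_gal N'
  set i : N →+* M := i'.comp (algebraMap N N') with hi
  let _ : Algebra N M := i.toAlgebra
  have hM : IsGalois N M := IsGalois.tower_top_of_isGalois ℚ N M
  have hβ2 : (i' β') ^ m = i (b : N) := by
    rw [← map_pow, hβ1]
    rfl
  have hβ3 : i' β' ∉ Set.range (algebraMap N M) := by
    rintro ⟨c, hc⟩
    apply hb c
    apply i.injective
    rw [map_pow, ← hβ2]
    congr 1
  have hβ4 : ∃ σ : M ≃ₐ[N] M, σ (i' β') ≠ i' β' := by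
    by_contra hcon
    push Not at hcon
    exact hβ3 ((IsGalois.mem_range_algebraMap_iff_fixed (i' β')).2 hcon)
  obtain ⟨σ, hσ⟩ := hβ4
  set I := RingOfIntegers.mapRingHom i with hI
  have hib : IsIntegral ℤ (i (b : N)) := (RingOfIntegers.isIntegral_coe b).map i.toIntAlgHom
  obtain ⟨β, hβ⟩ : ∃ β : 𝓞 M, (β : M) = i' β' :=
    ⟨⟨i' β', IsIntegral.of_pow (Nat.pos_of_ne_zero hm) (by rw [hβ2]; exact hib)⟩, rfl⟩
  have hβm : β ^ m = I b := by
    apply RingOfIntegers.coe_injective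
    rw [map_pow]
    show (β : M) ^ m = i (b : N)
    rw [hβ, hβ2]
  set s : M ≃ₐ[ℚ] M := σ.restrictScalars ℚ with hs
  set γ : 𝓞 M := s • β - β with hγ
  have hγ0 : γ ≠ 0 := by
    intro h
    apply hσ
    have h1 : ((s • β : 𝓞 M) : M) = (β : M) := by rw [sub_eq_zero.1 h]
    rw [← hβ]
    exact h1
  set n := Ideal.absNorm (Ideal.span {γ}) with hn
  have hn0 : n ≠ 0 := by
    rw [hn, Ne, Ideal.absNorm_eq_zero_iff, Ideal.span_singleton_eq_bot]
    exact hγ0
  obtain ⟨B', hB'⟩ := k4_emb N b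
  obtain ⟨l, hl, hlB, W, hlW, hF⟩ := k4_frob M s (max (max B B') n)
  have hlf : Fact l.Prime := ⟨hl⟩
  have hfix : ∀ x : 𝓞 N, s • (I x) = I x := by
    intro x
    apply RingOfIntegers.coe_injective
    show σ (i (x : N)) = i (x : N)
    exact σ.commutes (x : N)
  obtain ⟨j, hj⟩ := hB' l (((le_max_right B B').trans (le_max_left _ _)).trans_lt hlB) M i W hlW (fun x => by
    have h1 := hF (I x)
    rwa [hfix] at h1)
  refine ⟨l, hlf, ((le_max_left B B').trans (le_max_left _ _)).trans_lt hlB, j, fun c hc => ?_⟩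
  obtain ⟨c0, hc0⟩ := hj m hm c hc
  -- the m-th roots of unity
  have hζm : ζ ^ m = 1 := hζ.pow_eq_one
  obtain ⟨ζO, hζO⟩ : ∃ ζO : 𝓞 N, (ζO : N) = ζ := ⟨⟨ζ, hζ.isIntegral (Nat.pos_of_ne_zero hm)⟩, rfl⟩
  have hζO1 : IsPrimitiveRoot ζO m := by
    refine IsPrimitiveRoot.of_map_of_injective (f := algebraMap (𝓞 N) N) ?_ RingOfIntegers.coe_injective
    have h1 : algebraMap (𝓞 N) N ζO = ζ := hζO
    rw [h1]
    exact hζ
  have hIinj : Function.Injective I := by
    intro x y hxy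
    apply RingOfIntegers.coe_injective
    apply i.injective
    exact congrArg (fun z : 𝓞 M => (z : M)) hxy
  have hζI : IsPrimitiveRoot (I ζO) m := hζO1.map_of_injective hIinj
  rw [← hI, ← hβm] at hc0
  have hc1 := hζI.pow_sub_pow_eq_prod_sub_mul (x := β) (y := (c0 : 𝓞 M)) (Nat.pos_of_ne_zero hm)
  have hc2 : ∏ η ∈ nthRootsFinset m (1 : 𝓞 M), (β - η * (c0 : 𝓞 M)) ∈ W.asIdeal := by
    rw [← hc1]
    exact hc0
  obtain ⟨η, hη, hηW⟩ := (W.isPrime.prod_mem_iff).1 hc2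
  rw [mem_nthRootsFinset (Nat.pos_of_ne_zero hm)] at hη
  have hmz : NeZero m := ⟨hm⟩
  obtain ⟨k, hk, hηk⟩ := hζI.eq_pow_of_pow_eq_one hη
  have hη1 : s • (η * (c0 : 𝓞 M)) = η * (c0 : 𝓞 M) := by
    have h1 : η * (c0 : 𝓞 M) = I (ζO ^ k * (c0 : 𝓞 N)) := by
      rw [map_mul, map_pow, map_intCast, hηk]
    rw [h1, hfix]
  have h1 := hF β
  have h2 := hF (η * (c0 : 𝓞 M))
  rw [hη1] at h2
  have h3 : β ^ l - (η * (c0 : 𝓞 M)) ^ l ∈ W.asIdeal := by
    obtain ⟨u, hu⟩ := sub_dvd_pow_sub_pow β (η * (c0 : 𝓞 M)) l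
    rw [hu]
    exact W.asIdeal.mul_mem_right _ hηW
  have h4 : γ ∈ W.asIdeal := by
    have h5 := W.asIdeal.sub_mem (W.asIdeal.sub_mem (W.asIdeal.add_mem h1 h3) h2) hηW
    have h6 : s • β - β ^ l + (β ^ l - (η * (c0 : 𝓞 M)) ^ l) - (η * (c0 : 𝓞 M) - (η * (c0 : 𝓞 M)) ^ l) -
        (β - η * (c0 : 𝓞 M)) = γ := by
      rw [hγ]
      ring
    rwa [h6] at h5
  have h7 : ((n : ℤ) : 𝓞 M) ∈ W.asIdeal := by
    have h8 : ((n : ℕ) : 𝓞 M) ∈ Ideal.span {γ} := Ideal.absNorm_mem _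
    rw [Int.cast_natCast]
    exact (Ideal.span_singleton_le_iff_mem _).2 h4 h8
  have h9 := k4_dvd W hl hlW _ h7
  have h10 := Nat.le_of_dvd (Nat.pos_of_ne_zero hn0) (by exact_mod_cast h9)
  exact absurd ((le_max_right _ _).trans_lt hlB) (not_lt.2 h10)

/-- LOCAL-GLOBAL PRINCIPLE for m-th powers in a number field which contains the m-th roots of unity: an element which is an
m-th power under all embeddings in `ℚ_l`, `l` large, is an m-th power. -/
theorem k4_main (N : Type) [Field N] [NumberField N] (m : ℕ) (hm : m ≠ 0) (ζ : N) (hζ : IsPrimitiveRoot ζ m)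
    (b : N) (B : ℕ) (h : ∀ (l : ℕ) [Fact l.Prime], B < l → ∀ j : N →+* ℚ_[l], ∃ c : ℚ_[l], c ^ m = j b) :
    ∃ c : N, c ^ m = b := by
  obtain ⟨D, y, hD, hy⟩ := k4_mult b
  have hDN : (D : N) ≠ 0 := by exact_mod_cast hD
  obtain ⟨k, rfl⟩ := Nat.exists_eq_succ_of_ne_zero hm
  set b' : 𝓞 N := (D : 𝓞 N) ^ k * y with hb'
  have hb1 : (b' : N) = (D : N) ^ (k + 1) * b := by
    rw [hb']
    show algebraMap (𝓞 N) N ((D : 𝓞 N) ^ k * y) = _
    rw [map_mul, map_pow, map_intCast]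
    have h1 : algebraMap (𝓞 N) N y = (D : N) * b := hy
    rw [h1]
    ring
  by_contra hcon
  push Not at hcon
  obtain ⟨l, hl, hlB, j, hj⟩ := k4_main_int N (k + 1) hm ζ hζ b' (fun c hc => by
    apply hcon (c * (D : N)⁻¹)
    rw [mul_pow, hc, hb1, inv_pow]
    field_simp) B
  obtain ⟨c, hc⟩ := h l hlB j
  apply hj ((D : ℚ_[l]) * c)
  rw [mul_pow, hc, hb1, map_mul, map_pow, map_intCast]

end H45K
end

-- from Lib.H45K.K5
section

/-! # K5: local squares, relative to finitely many elements (Kummer theory of exponent two) -/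

open NumberField IsDedekindDomain Polynomial CFT

namespace H45K

/-- Quadratic extensions. -/
theorem k5_ext (L : Type) [Field L] [NumberField L] (a : L) (ha : ¬ IsSquare a) :
    ∃ (N : Type) (_ : Field N) (_ : NumberField N) (i : L →+* N) (α : N), α * α = i a ∧
      ∀ c : N, ∃ x y : L, c = i x + i y * α := by
  have hirr : Irreducible (X ^ 2 - C a : L[X]) := by
    refine X_pow_sub_C_irreducible_of_prime Nat.prime_two fun b hb => ha ⟨b, ?_⟩
    rw [← hb, sq]
  have hf : Fact (Irreducible (X ^ 2 - C a : L[X])) := ⟨hirr⟩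
  have hmon : (X ^ 2 - C a : L[X]).Monic := monic_X_pow_sub_C a two_ne_zero
  have hN0 : CharZero (AdjoinRoot (X ^ 2 - C a : L[X])) :=
    charZero_of_injective_algebraMap (algebraMap L (AdjoinRoot (X ^ 2 - C a : L[X]))).injective
  have hfin : Module.Finite L (AdjoinRoot (X ^ 2 - C a : L[X])) := hmon.finite_adjoinRoot
  have hN : NumberField (AdjoinRoot (X ^ 2 - C a : L[X])) := NumberField.of_module_finite L _
  refine ⟨AdjoinRoot (X ^ 2 - C a : L[X]), inferInstance, hN, algebraMap L _, AdjoinRoot.root _, ?_, fun c => ?_⟩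
  · have h1 := AdjoinRoot.eval₂_root (X ^ 2 - C a : L[X])
    rw [eval₂_sub, eval₂_pow, eval₂_X, eval₂_C, sub_eq_zero] at h1
    exact (pow_two _).symm.trans h1
  · obtain ⟨g, rfl⟩ := AdjoinRoot.mk_surjective c
    have h1 := modByMonic_add_div g (X ^ 2 - C a : L[X])
    have h2 : AdjoinRoot.mk (X ^ 2 - C a : L[X]) g = AdjoinRoot.mk (X ^ 2 - C a : L[X]) (g %ₘ (X ^ 2 - C a)) := by
      conv_lhs => rw [← h1]
      rw [map_add, map_mul, AdjoinRoot.mk_self, zero_mul, add_zero]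
    have h3 : (g %ₘ (X ^ 2 - C a : L[X])).natDegree < 2 := by
      have h4 := natDegree_modByMonic_lt g hmon (fun h => by
        have h5 := congrArg natDegree h
        rw [natDegree_X_pow_sub_C, natDegree_one] at h5
        omega)
      rwa [natDegree_X_pow_sub_C] at h4
    refine ⟨(g %ₘ (X ^ 2 - C a : L[X])).coeff 0, (g %ₘ (X ^ 2 - C a : L[X])).coeff 1, ?_⟩
    rw [h2]
    conv_lhs => rw [as_sum_range_C_mul_X_pow' (g %ₘ (X ^ 2 - C a : L[X])) h3]
    rw [Finset.sum_range_succ, Finset.sum_range_one, pow_zero, mul_one, pow_one, map_add, map_mul, AdjoinRoot.mk_X,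
      AdjoinRoot.mk_C, AdjoinRoot.mk_C]
    rfl

/-- Squares in a quadratic extension. -/
theorem k5_step {L N : Type} [Field L] [CharZero L] [Field N] (i : L →+* N) {a : L} (ha : ¬ IsSquare a) {α : N}
    (hα : α * α = i a) (hb : ∀ c : N, ∃ x y : L, c = i x + i y * α) {b : L} (h : IsSquare (i b)) :
    IsSquare b ∨ IsSquare (a * b) := by
  obtain ⟨c, hc⟩ := h
  obtain ⟨x, y, rfl⟩ := hb c
  have h1 : i b = i (x * x + a * y * y) + i (2 * x * y) * α := by
    rw [hc]
    simp only [map_add, map_mul, ← hα, map_ofNat]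
    ring
  by_cases h2 : 2 * x * y = 0
  · rw [h2, map_zero, zero_mul, add_zero] at h1
    have h3 := i.injective h1
    rcases mul_eq_zero.1 h2 with h4 | h4
    · have hx : x = 0 := by
        rcases mul_eq_zero.1 h4 with h5 | h5
        · exact absurd h5 two_ne_zero
        · exact h5
      right
      refine ⟨a * y, ?_⟩
      rw [h3, hx]
      ring
    · left
      refine ⟨x, ?_⟩
      rw [h3, h4]
      ring
  · exfalso
    apply ha
    refine ⟨(b - (x * x + a * y * y)) / (2 * x * y), ?_⟩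
    apply i.injective
    have h3 : i (2 * x * y) ≠ 0 := by
      rw [Ne, map_eq_zero]
      exact h2
    have h4 : α = i ((b - (x * x + a * y * y)) / (2 * x * y)) := by
      rw [map_div₀, eq_div_iff h3, map_sub, h1]
      ring
    rw [map_mul, ← h4, hα]

/-- Relative local-global principle for squares. -/
theorem k5_fin (n : ℕ) : ∀ (L : Type) [Field L] [NumberField L] (a : Fin n → L) (b : L) (B : ℕ)
    (_ : ∀ (l : ℕ) [Fact l.Prime], B < l → ∀ j : L →+* ℚ_[l], (∀ k, IsSquare (j (a k))) → IsSquare (j b)),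
    ∃ s : Finset (Fin n), IsSquare ((∏ k ∈ s, a k) * b) := by
  induction n with
  | zero =>
    intro L _ _ a b B h
    obtain ⟨c, hc⟩ := k4_main L 2 two_ne_zero (-1) (IsPrimitiveRoot.neg_one 0 (by norm_num)) b B (fun l hl hB j => by
      obtain ⟨c, hc⟩ := h l hB j (fun k => k.elim0)
      exact ⟨c, by rw [hc, sq]⟩)
    exact ⟨∅, c, by rw [Finset.prod_empty, one_mul, ← hc, sq]⟩
  | succ n ih =>
    intro L _ _ a b B h
    by_cases ha : IsSquare (a 0)
    · obtain ⟨s, hs⟩ := ih L (fun k => a k.succ) b B (fun l hl hB j hj => h l hB j (fun k => by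
        refine Fin.cases ?_ ?_ k
        · exact ha.map j
        · exact hj))
      refine ⟨s.map (Fin.succEmb n), ?_⟩
      rw [Finset.prod_map]
      exact hs
    · obtain ⟨N, _, _, i, α, hα, hN⟩ := k5_ext L (a 0) ha
      obtain ⟨s, hs⟩ := ih N (fun k => i (a k.succ)) (i b) B (fun l hl hB j hj => h l hB (j.comp i) (fun k => by
        refine Fin.cases ?_ ?_ k
        · exact ⟨j α, by rw [← map_mul, hα]; rfl⟩
        · exact hj))
      rw [← map_prod, ← map_mul] at hs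
      rcases k5_step i ha hα hN hs with h1 | h1
      · refine ⟨s.map (Fin.succEmb n), ?_⟩
        rw [Finset.prod_map]
        exact h1
      · refine ⟨Finset.cons 0 (s.map (Fin.succEmb n)) ?_, ?_⟩
        · rw [Finset.mem_map]
          rintro ⟨k, -, hk⟩
          exact Fin.succ_ne_zero k hk
        · rw [Finset.prod_cons, Finset.prod_map, mul_assoc]
          exact h1

/-- Relative local-global principle for squares: if `b` is a square under all embeddings in `ℚ_l` (`l` large) under which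
the elements of `A` are squares, then it is a product of elements of `A` times a square. -/
theorem k5_main (L : Type) [Field L] [NumberField L] (A : Finset L) (b : L) (B : ℕ)
    (h : ∀ (l : ℕ) [Fact l.Prime], B < l → ∀ j : L →+* ℚ_[l], (∀ a ∈ A, IsSquare (j a)) → IsSquare (j b)) :
    ∃ A' ⊆ A, IsSquare ((∏ a ∈ A', a) * b) := by
  classical
  obtain ⟨s, hs⟩ := k5_fin A.card L (fun k => (A.equivFin.symm k : L)) b B (fun l hl hB j hj => h l hB j (fun a ha => by
    have h1 := hj (A.equivFin ⟨a, ha⟩)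
    rwa [Equiv.symm_apply_apply] at h1))
  refine ⟨s.map (A.equivFin.symm.toEmbedding.trans (Function.Embedding.subtype _)), ?_, ?_⟩
  · intro a ha
    rw [Finset.mem_map] at ha
    obtain ⟨k, -, rfl⟩ := ha
    exact (A.equivFin.symm k).2
  · rw [Finset.prod_map]
    exact hs

end H45K
end
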