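import Mathlib
import Pool.Agent.Lib.H1M.RC.D_H53Toric_Zar
import Pool.Agent.Lib.H1M.RC.M008
import Pool.Agent.Lib.H1M.RC.M012
import Pool.Agent.Lib.H1M.RC.M015
import Pool.Agent.Lib.H1M.RC.M018
import Pool.Agent.Lib.H1M.RC.M019
import Pool.Agent.Lib.H1M.RC.M022
import Pool.Agent.Lib.H1M.RC.M023
import Pool.Agent.Lib.H1M.RC.M024
import Pool.Agent.Lib.H1M.RC.M027
import Pool.Agent.Lib.H1M.RC.M033

/-! Merged copies (to shorten the build) of Lib.CFT.N04, Lib.CFT.N05, Lib.CFT.N07, Lib.CFT.N08, Lib.CFT.N09, Lib.CFT.N10, Lib.CFT.N11, Lib.H45K.QuadRec, Lib.H45K.K2, Lib.H45K.PowRec, Lib.H45K.K10a, Lib.H45P.P5, Lib.H76W.Bad. -/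

-- from Lib.CFT.N04
section

/-! # CFT module N (levels), N04: reciprocity for characters of the absolute Galois group, at every level -/

open NumberField IsDedekindDomain

namespace ST32

section

variable {K : Type} [Field K] [NumberField K] {Om : Type} [Field Om] [Algebra K Om]

/-- Reciprocity for a character with open kernel. -/
theorem rec_fin [IsGalois K Om] {A : Type} [CommGroup A] (χ : (Om ≃ₐ[K] Om) →* A) (hχ : IsOpen (χ.ker : Set (Om ≃ₐ[K] Om)))
    (S : Finset (CFT.Pr K)) (hS : ∀ v ∉ S, UnrV χ v) (Fr : CFT.Pr K → (Om ≃ₐ[K] Om)) (hFr : ∀ v ∉ S, IsFrv v (Fr v))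
    (D : CFT.Dv K →+ Additive A) (h1 : ∀ v ∉ S, D (Finsupp.single v 1) = Additive.ofMul (χ (Fr v)))
    (h0 : ∀ v ∈ S, D (Finsupp.single v 1) = 0) :
    ∃ N : ℕ, ∀ x : K, CFT.Ray S N x → D (CFT.dv x) = 0 := by
  obtain ⟨L, hfd, hgal, χL, hinj, hcomp⟩ := layer χ hχ
  have : NumberField L := NumberField.of_module_finite K L
  have hab : ∀ a b : L ≃ₐ[K] L, a * b = b * a := fun a b => hinj (by rw [map_mul, map_mul, mul_comm])
  have hunr : ∀ v ∉ S, CFT.Unr K L v := fun v hv => unr_layer L χ χL hinj hcomp v (hS v hv)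
  obtain ⟨N, hN⟩ := CFT.artin K L hab S (fun v hv => by
    by_contra h
    exact hv (hunr v h))
  refine ⟨N, fun x hx => ?_⟩
  have h2 : D = CFT.art S χL := by
    refine Finsupp.addHom_ext fun v n => ?_
    have e1 : (Finsupp.single v n : CFT.Dv K) = n • Finsupp.single v 1 := by
      rw [Finsupp.smul_single, smul_eq_mul, mul_one]
    rw [e1, map_zsmul, map_zsmul]
    by_cases hv : v ∈ S
    · rw [h0 v hv, CFT.art_single_of_mem χL hv]
    · rw [h1 v hv, CFT.art_single_of_notMem χL hv, frob_layer L hab (hunr v hv) (hFr v hv), hcomp, one_smul]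
  rw [h2]
  exact hN A χL x hx


end

section

variable {F : Type} [NormedField F] [IsUltrametricDist F]

/-- The subgroup of the units of F near 1. -/
def near (ε : ℝ) (h0 : 0 < ε) (h1 : ε < 1) : Subgroup Fˣ where
  carrier := {u | ‖(u : F) - 1‖ ≤ ε}
  one_mem' := by
    rw [Set.mem_ofPred_eq, Units.val_one, sub_self, norm_zero]
    exact h0.le
  mul_mem' := by
    intro a b ha hb
    rw [Set.mem_ofPred_eq] at ha hb ⊢
    have hb1 : ‖(b : F)‖ ≤ 1 := by
      have e : (b : F) = ((b : F) - 1) + 1 := by ring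
      rw [e]
      refine (IsUltrametricDist.norm_add_le_max _ _).trans (max_le (hb.trans h1.le) ?_)
      rw [norm_one]
    have e : ((a * b : Fˣ) : F) - 1 = ((a : F) - 1) * b + ((b : F) - 1) := by
      rw [Units.val_mul]
      ring
    rw [e]
    refine (IsUltrametricDist.norm_add_le_max _ _).trans (max_le ?_ hb)
    rw [norm_mul]
    exact (mul_le_of_le_one_right (norm_nonneg _) hb1).trans ha
  inv_mem' := by
    intro a ha
    rw [Set.mem_ofPred_eq] at ha ⊢
    have ha1 : ‖(a : F)‖ = 1 := by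
      have e : (a : F) = 1 + ((a : F) - 1) := by ring
      rw [e, IsUltrametricDist.norm_add_eq_max_of_norm_ne_norm, norm_one, max_eq_left (ha.trans h1.le)]
      rw [norm_one]
      exact (ha.trans_lt h1).ne'
    have e : ((a⁻¹ : Fˣ) : F) - 1 = -(((a : F) - 1) * ((a⁻¹ : Fˣ) : F)) := by
      have h2 : (a : F) * ((a⁻¹ : Fˣ) : F) = 1 := Units.mul_inv a
      linear_combination h2
    rw [e, norm_neg, norm_mul, Units.val_inv_eq_inv_val, norm_inv, ha1, inv_one, mul_one]
    exact ha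

theorem mem_near {ε : ℝ} {h0 : 0 < ε} {h1 : ε < 1} (u : Fˣ) : u ∈ (near ε h0 h1 : Subgroup Fˣ) ↔ ‖(u : F) - 1‖ ≤ ε := Iff.rfl

variable {K : Type} [Field K] {Om : Type} [Field Om] [Algebra K Om]


end

section

variable {F : Type} [NormedField F] [IsUltrametricDist F] {K : Type} [Field K] [NumberField K] {Om : Type} [Field Om] [Algebra K Om]







end

end ST32
end

-- from Lib.CFT.N05
section

/-! # CFT module N, N05: good characters are continuous; passage from the fixing subgroup of M to the Galois group of Om over M -/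

set_option autoImplicit false

open NumberField IsDedekindDomain H25G

namespace ST32

section cont

variable {l : ℕ} [Fact l.Prime] {n : ℕ}




end cont

section glue





variable (M : IntermediateField ℚ H25G.Om)

/-- The isomorphism of the fixing subgroup with the Galois group. -/
noncomputable abbrev eM : M.fixingSubgroup ≃* (H25G.Om ≃ₐ[M] H25G.Om) := M.fixingSubgroupEquiv






end glue

end ST32
end

-- from Lib.CFT.N07
section

/-! # CFT module N, N07: the Frobenius values of a good character are monomials in the roots of rational polynomials -/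

set_option autoImplicit false

open NumberField IsDedekindDomain Polynomial H25G

namespace ST32

section

variable {l : ℕ} [Fact l.Prime] {n : ℕ}


/-- The prime number below. -/
theorem exists_below (M : Type) [Field M] [NumberField M] (v : CFT.Pr M) :
    ∃ p f : ℕ, p.Prime ∧ 0 < f ∧ (p : 𝓞 M) ∈ v.asIdeal ∧ CFT.Nm v = p ^ f := by
  obtain ⟨f, hf, h⟩ := Pool.Agent.Lib.H59.absNorm_eq_below_pow v
  refine ⟨Pool.Agent.Lib.H59.below v, f, Pool.Agent.Lib.H59.below_prime v, hf, ?_, h⟩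
  have h1 : ((Ideal.absNorm v.asIdeal : ℕ) : 𝓞 M) ∈ v.asIdeal := Ideal.absNorm_mem v.asIdeal
  rw [h, Nat.cast_pow] at h1
  exact v.isPrime.mem_of_pow_mem f h1

/-- What is known about the value y of a good character at a Frobenius element. -/
structure Val (N a n m p f : ℕ) (ζ : PadicAlgCl l) (P0 : ℚ[X]) (y : PadicAlgCl l) : Prop where
  ne : P0 ≠ 0
  deg : P0.natDegree = n
  root : ∀ z : ℂ, aeval z P0 = 0 → ‖z‖ = 1 ∧ IsIntegral ℤ ((p : ℂ) ^ m * z)
  zeta : ζ ^ N = 1
  mon : ∃ μ : Fin a → PadicAlgCl l, y = ζ * ∏ t, μ t ∧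
    ∀ t, μ t = 1 ∨ ∃ d : PadicAlgCl l, aeval d P0 = 0 ∧ (μ t = d ^ f ∨ μ t = (d ^ f)⁻¹)


end

end ST32
end

-- from Lib.CFT.N08
section

/-! # CFT module N, N08: degree, integrality and absolute values of the Frobenius values -/

set_option autoImplicit false

open NumberField IsDedekindDomain Polynomial H25G

namespace ST32

section pure

variable {Ω : Type*} [Field Ω] [CharZero Ω]

/-- The roots of a rational polynomial under an embedding. -/
theorem aeval_map_zero {R R' : Type*} [Field R] [CharZero R] [Field R'] [CharZero R'] (σ : R →+* R') (P : ℚ[X]) {d : R} (hd : aeval d P = 0) :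
    aeval (σ d) P = 0 := by
  have h1 : aeval (σ d) P = σ (aeval d P) := by
    rw [aeval_def, aeval_def, Polynomial.hom_eval₂]
    congr 1
    exact Subsingleton.elim _ _
  rw [h1, hd, map_zero]

/-- If the complex roots of P have absolute value 1, the inverse of a root is a root. -/
theorem aeval_inv_zero (P : ℚ[X]) (hP : P ≠ 0) (h : ∀ z : ℂ, aeval z P = 0 → ‖z‖ = 1) {d : Ω} (hd : aeval d P = 0) : aeval d⁻¹ P = 0 := by
  have hint : IsIntegral ℚ d := (show IsAlgebraic ℚ d from ⟨P, hP, hd⟩).isIntegral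
  have halg : Algebra.IsAlgebraic ℚ (algebraicClosure ℚ Ω) := algebraicClosure.isAlgebraic ℚ Ω
  let d' : algebraicClosure ℚ Ω := ⟨d, mem_algebraicClosure_iff.2 hint.isAlgebraic⟩
  let j : algebraicClosure ℚ Ω →+* ℂ := (IsAlgClosed.lift : algebraicClosure ℚ Ω →ₐ[ℚ] ℂ).toRingHom
  have hd' : aeval d' P = 0 := by
    apply (algebraicClosure ℚ Ω).val.injective
    rw [map_zero]
    have h2 : (algebraicClosure ℚ Ω).val (aeval d' P) = aeval d P := by
      rw [← Polynomial.aeval_algHom_apply]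
      rfl
    exact h2.trans hd
  have h3 : aeval (j d') P = 0 := aeval_map_zero j P hd'
  have h4 : aeval ((starRingEnd ℂ) (j d')) P = 0 := aeval_map_zero (starRingEnd ℂ) P h3
  have h5 : (starRingEnd ℂ) (j d') = j d'⁻¹ := by
    rw [map_inv₀]
    exact (Complex.inv_eq_conj (h _ h3)).symm
  rw [h5] at h4
  have h6 : j (aeval d'⁻¹ P) = 0 := by
    have h7 : aeval (j d'⁻¹) P = j (aeval d'⁻¹ P) := by
      rw [aeval_def, aeval_def, Polynomial.hom_eval₂]
      congr 1
      exact Subsingleton.elim _ _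
    rw [← h7, h4]
  have h8 : aeval d'⁻¹ P = 0 := j.injective (by rw [h6, map_zero])
  exact aeval_map_zero (algebraMap (algebraicClosure ℚ Ω) Ω) P h8

/-- Integrality can be tested at the complex roots. -/
theorem int_of_complex (P : ℚ[X]) (hP : P ≠ 0) (c : ℕ) (h : ∀ z : ℂ, aeval z P = 0 → IsIntegral ℤ ((c : ℂ) * z)) {d : Ω} (hd : aeval d P = 0) :
    IsIntegral ℤ ((c : Ω) * d) := by
  have hint : IsIntegral ℚ d := (show IsAlgebraic ℚ d from ⟨P, hP, hd⟩).isIntegral
  have halg : Algebra.IsAlgebraic ℚ (algebraicClosure ℚ Ω) := algebraicClosure.isAlgebraic ℚ Ω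
  let d' : algebraicClosure ℚ Ω := ⟨d, mem_algebraicClosure_iff.2 hint.isAlgebraic⟩
  let j : algebraicClosure ℚ Ω →+* ℂ := (IsAlgClosed.lift : algebraicClosure ℚ Ω →ₐ[ℚ] ℂ).toRingHom
  have hd' : aeval d' P = 0 := by
    apply (algebraicClosure ℚ Ω).val.injective
    rw [map_zero]
    have h2 : (algebraicClosure ℚ Ω).val (aeval d' P) = aeval d P := by
      rw [← Polynomial.aeval_algHom_apply]
      rfl
    exact h2.trans hd
  have h3 := h _ (aeval_map_zero j P hd')
  have h4 : (c : ℂ) * j d' = j.toIntAlgHom ((c : algebraicClosure ℚ Ω) * d') := by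
    show (c : ℂ) * j d' = j ((c : algebraicClosure ℚ Ω) * d')
    rw [map_mul, map_natCast]
  rw [h4, isIntegral_algHom_iff j.toIntAlgHom j.injective] at h3
  have h5 := h3.map (algebraMap (algebraicClosure ℚ Ω) Ω).toIntAlgHom
  have h6 : (algebraMap (algebraicClosure ℚ Ω) Ω).toIntAlgHom ((c : algebraicClosure ℚ Ω) * d') = (c : Ω) * d := by
    show (algebraMap (algebraicClosure ℚ Ω) Ω) ((c : algebraicClosure ℚ Ω) * d') = (c : Ω) * d
    rw [map_mul, map_natCast]
    rfl
  rw [h6] at h5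
  exact h5

theorem degLe_zeta {N : ℕ} (hN : 0 < N) {ζ : Ω} (hζ : ζ ^ N = 1) : DegLe N ζ := by
  have h1 : (X ^ N - 1 : ℚ[X]) ≠ 0 := (monic_X_pow_sub_C (1 : ℚ) hN.ne').ne_zero
  have h2 : (X ^ N - 1 : ℚ[X]).natDegree = N := natDegree_X_pow_sub_C
  have h3 := degLe_root h1 (x := ζ) (by rw [map_sub, map_pow, aeval_X, map_one, hζ, sub_self])
  rwa [h2] at h3

end pure

section

variable {l : ℕ} [Fact l.Prime] {N a n m p f : ℕ} {ζ : PadicAlgCl l} {P0 : ℚ[X]} {y : PadicAlgCl l}


theorem Val.int (h : Val N a n m p f ζ P0 y) (hN : 0 < N) : IsIntegral ℤ (((p ^ f : ℕ) : PadicAlgCl l) ^ (m * a) * y) := by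
  obtain ⟨μ, hy, hμ⟩ := h.mon
  have h1 : (((p ^ f : ℕ) : PadicAlgCl l) ^ (m * a) * y) = ζ * ∏ t, (((p ^ m : ℕ) : PadicAlgCl l) ^ f * μ t) := by
    rw [Finset.prod_mul_distrib, Finset.prod_const, Finset.card_univ, Fintype.card_fin, hy]
    push_cast
    rw [← pow_mul, ← pow_mul, ← pow_mul]
    have e : m * (f * a) = f * (m * a) := by ring
    rw [e]
    ring
  rw [h1]
  have hζ : IsIntegral ℤ ζ := by
    refine ⟨X ^ N - 1, monic_X_pow_sub_C (1 : ℤ) hN.ne', ?_⟩
    rw [eval₂_sub, eval₂_X_pow, eval₂_one, h.zeta, sub_self]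
  have key : ∀ d : PadicAlgCl l, aeval d P0 = 0 → IsIntegral ℤ (((p ^ m : ℕ) : PadicAlgCl l) ^ f * d ^ f) := by
    intro d hd
    rw [← mul_pow]
    refine IsIntegral.pow ?_ f
    refine int_of_complex P0 h.ne (p ^ m) (fun z hz => ?_) hd
    have h2 := (h.root z hz).2
    push_cast
    exact h2
  refine hζ.mul (IsIntegral.prod _ fun t _ => ?_)
  rcases hμ t with h2 | ⟨d, hd, h2 | h2⟩
  · rw [h2, mul_one]
    refine IsIntegral.pow ?_ f
    have h3 := isIntegral_algebraMap (R := ℤ) (A := PadicAlgCl l) (x := ((p ^ m : ℕ) : ℤ))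
    rwa [map_natCast] at h3
  · rw [h2]
    exact key d hd
  · rw [h2, ← inv_pow]
    exact key d⁻¹ (aeval_inv_zero P0 h.ne (fun z hz => (h.root z hz).1) hd)



end

end ST32
end

-- from Lib.CFT.N09
section

/-! # CFT module N, N09: primes which split in a certain number field have Frobenius values without roots of unity -/

set_option autoImplicit false

open NumberField IsDedekindDomain Polynomial H25G

namespace ST32

section pure

variable {F : Type} [NormedField F] [IsUltrametricDist F] {l : ℕ} [hlp : Fact l.Prime]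

theorem norm_nat_le (k : ℕ) : ‖(k : F)‖ ≤ 1 := IsUltrametricDist.norm_natCast_le_one F k

/-- The norm of a prime number. -/
theorem norm_prime_ge (hl : ‖(l : F)‖ = (l : ℝ)⁻¹) {q : ℕ} (hq : q.Prime) : (l : ℝ)⁻¹ ≤ ‖(q : F)‖ := by
  by_cases h : q = l
  · rw [h, hl]
  · have hcop : IsCoprime (q : ℤ) (l : ℤ) := by
      rw [Nat.isCoprime_iff_coprime]
      exact (Nat.coprime_primes hq hlp.out).2 h
    obtain ⟨a, b, hab⟩ := hcop
    have h1 : (a : F) * (q : F) + (b : F) * (l : F) = 1 := by exact_mod_cast congrArg (fun z : ℤ => (z : F)) hab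
    have hint : ∀ z : ℤ, ‖(z : F)‖ ≤ 1 := fun z => IsUltrametricDist.norm_intCast_le_one F z
    have hl1 : (l : ℝ)⁻¹ < 1 := inv_lt_one_of_one_lt₀ (by exact_mod_cast hlp.out.one_lt)
    have h2 : ‖(b : F) * (l : F)‖ < 1 := by
      rw [norm_mul, hl]
      exact (mul_le_of_le_one_left (by positivity) (hint b)).trans_lt hl1
    by_contra hcon
    rw [not_le] at hcon
    have h3 : ‖(a : F) * (q : F)‖ < 1 := by
      rw [norm_mul]
      exact ((mul_le_of_le_one_left (norm_nonneg _) (hint a)).trans_lt hcon).trans hl1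
    have h4 := (IsUltrametricDist.norm_add_le_max ((a : F) * (q : F)) ((b : F) * (l : F))).trans_lt (max_lt h3 h2)
    rw [h1, norm_one] at h4
    exact lt_irrefl _ h4

/-- A root of unity of prime order is not very near 1. -/
theorem prime_root (hl : ‖(l : F)‖ = (l : ℝ)⁻¹) {q : ℕ} (hq : q.Prime) {x : F} (hx : ‖x‖ < (l : ℝ)⁻¹) (h : (1 + x) ^ q = 1) : x = 0 := by
  by_contra hx0
  have hl1 : (l : ℝ)⁻¹ < 1 := inv_lt_one_of_one_lt₀ (by exact_mod_cast hlp.out.one_lt)
  have h1 : (q : F) = -(x * ∑ k ∈ Finset.range (q - 1), x ^ k * (q.choose (k + 2) : F)) := by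
    have h2 : (1 + x) ^ q = ∑ k ∈ Finset.range (q + 1), x ^ k * (q.choose k : F) := by
      rw [add_comm, add_pow]
      refine Finset.sum_congr rfl fun k _ => ?_
      rw [one_pow, mul_one]
    have hq2 : q + 1 = (q - 1) + 1 + 1 := by have := hq.two_le; omega
    rw [h2, hq2, Finset.sum_range_succ', Finset.sum_range_succ'] at h
    have h3 : x * ((q : F) + x * ∑ k ∈ Finset.range (q - 1), x ^ k * (q.choose (k + 2) : F)) = 0 := by
      have h4 : ∑ k ∈ Finset.range (q - 1), x ^ (k + 1 + 1) * (q.choose (k + 1 + 1) : F) =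
          x ^ 2 * ∑ k ∈ Finset.range (q - 1), x ^ k * (q.choose (k + 2) : F) := by
        rw [Finset.mul_sum]
        refine Finset.sum_congr rfl fun k _ => ?_
        ring
      rw [h4] at h
      simp only [zero_add, pow_one, Nat.choose_one_right, pow_zero, Nat.choose_zero_right, Nat.cast_one, mul_one] at h
      linear_combination h
    rcases mul_eq_zero.1 h3 with h4 | h4
    · exact absurd h4 hx0
    · exact eq_neg_of_add_eq_zero_left h4
  have h5 : ‖(q : F)‖ ≤ ‖x‖ := by
    rw [h1, norm_neg, norm_mul]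
    refine mul_le_of_le_one_right (norm_nonneg _) ?_
    refine IsUltrametricDist.norm_sum_le_of_forall_le_of_nonneg zero_le_one fun k _ => ?_
    rw [norm_mul, norm_pow]
    exact mul_le_one₀ (pow_le_one₀ (norm_nonneg _) (hx.trans hl1).le) (norm_nonneg _) (norm_nat_le _)
  exact absurd (h5.trans_lt hx) (not_lt.2 (norm_prime_ge hl hq))

/-- A root of unity very near 1 is 1. -/
theorem root_near (hl : ‖(l : F)‖ = (l : ℝ)⁻¹) {ε : ℝ} (h0 : 0 < ε) (h1 : ε < 1) (hε : ε < (l : ℝ)⁻¹) {u : Fˣ} (hu : u ∈ (near ε h0 h1 : Subgroup Fˣ)) {j : ℕ} (hj : 0 < j)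
    (h : u ^ j = 1) : u = 1 := by
  by_contra hne
  have hord : orderOf u ≠ 1 := fun h2 => hne (orderOf_eq_one_iff.1 h2)
  have hfin : 0 < orderOf u := orderOf_pos_iff.2 (isOfFinOrder_iff_pow_eq_one.2 ⟨j, hj, h⟩)
  obtain ⟨q, hq, hqd⟩ := Nat.exists_prime_and_dvd hord
  obtain ⟨r, hr⟩ := hqd
  have hur : (u ^ r) ^ q = 1 := by rw [← pow_mul, mul_comm, ← hr, pow_orderOf_eq_one]
  have hur1 : u ^ r ≠ 1 := by
    intro h2
    have h3 := orderOf_dvd_of_pow_eq_one h2
    have hr0 : 0 < r := by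
      rcases Nat.eq_zero_or_pos r with h4 | h4
      · rw [h4, mul_zero] at hr
        omega
      · exact h4
    have h4 := Nat.le_of_dvd hr0 h3
    rw [hr] at h4
    have h5 := hq.two_le
    nlinarith
  have hmem := (near ε h0 h1 : Subgroup Fˣ).pow_mem hu r
  rw [mem_near] at hmem
  have h2 := prime_root hl hq (x := ((u ^ r : Fˣ) : F) - 1) (hmem.trans_lt hε) (by
    rw [add_sub_cancel, ← Units.val_pow_eq_pow_val, hur, Units.val_one])
  exact hur1 (Units.ext (sub_eq_zero.1 h2))

end pure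

section

variable {l : ℕ} [hlp : Fact l.Prime] {n : ℕ}

theorem norm_l : ‖(l : PadicAlgCl l)‖ = (l : ℝ)⁻¹ := by
  have h := norm_algebraMap' (PadicAlgCl l) (l : ℚ_[l])
  rw [map_natCast] at h
  rw [h, Padic.norm_p]


end

end ST32
end

-- from Lib.CFT.N10
section

/-! # CFT module N, N10: the hypothesis hprime of local algebraicity for a good character -/

set_option autoImplicit false

open NumberField IsDedekindDomain Polynomial H25G

namespace ST32

section

variable {l : ℕ} [hlp : Fact l.Prime] {n : ℕ}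


/-- The value at a Frobenius element near 1 has no roots of unity as quotients. -/
theorem Val.key {N a m p f : ℕ} {ζ0 : PadicAlgCl l} {P0 : ℚ[X]} {y : PadicAlgCl l} (h : Val N a n m p f ζ0 P0 y) (hN : 0 < N)
    {ε : ℝ} (h0 : 0 < ε) (h1 : ε < 1) (hε : ε < (l : ℝ)⁻¹) (hd : ∀ d : PadicAlgCl l, aeval d P0 = 0 → ‖d ^ f - 1‖ ≤ ε)
    (σ : (algebraicClosure ℚ (PadicAlgCl l)) →+* PadicAlgCl l) (hσ : ∀ z : algebraicClosure ℚ (PadicAlgCl l), z ^ N = 1 → σ z = z)
    (y' : algebraicClosure ℚ (PadicAlgCl l)) (hy' : (y' : PadicAlgCl l) = y) (hy0 : y ≠ 0) (ζ : PadicAlgCl l) (j : ℕ) (hj : 0 < j) (hζ : ζ ^ j = 1)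
    (he : σ y' = ζ * y') : ζ = 1 := by
  obtain ⟨μ, hy, hμ⟩ := h.mon
  have hμalg : ∀ t, IsAlgebraic ℚ (μ t) := by
    intro t
    rcases hμ t with h2 | ⟨d, hd, h2 | h2⟩
    · rw [h2]
      exact isAlgebraic_one
    · rw [h2]
      exact (show IsAlgebraic ℚ d from ⟨P0, h.ne, hd⟩).pow f
    · rw [h2]
      exact ((show IsAlgebraic ℚ d from ⟨P0, h.ne, hd⟩).pow f).inv
  have hζalg : IsAlgebraic ℚ ζ0 := (degLe_zeta hN h.zeta).1.isAlgebraic
  let ζ' : algebraicClosure ℚ (PadicAlgCl l) := ⟨ζ0, mem_algebraicClosure_iff.2 hζalg⟩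
  let μ' : Fin a → algebraicClosure ℚ (PadicAlgCl l) := fun t => ⟨μ t, mem_algebraicClosure_iff.2 (hμalg t)⟩
  have e1 : y' = ζ' * ∏ t, μ' t := by
    apply Subtype.ext
    rw [hy', hy]
    show ζ0 * ∏ t, μ t = (algebraicClosure ℚ (PadicAlgCl l)).val (ζ' * ∏ t, μ' t)
    rw [map_mul, map_prod]
    rfl
  have e2 : σ ζ' = ζ0 := hσ ζ' (Subtype.ext h.zeta)
  -- the values near 1
  have hval : ∀ d : PadicAlgCl l, aeval d P0 = 0 → ∃ u : (PadicAlgCl l)ˣ, (u : PadicAlgCl l) = d ^ f ∧ u ∈ (near ε h0 h1 : Subgroup (PadicAlgCl l)ˣ) := by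
    intro d hd0
    have h2 := hd d hd0
    have h3 : d ^ f ≠ 0 := by
      intro h4
      rw [h4, zero_sub, norm_neg, norm_one] at h2
      exact absurd (h2.trans_lt h1) (lt_irrefl _)
    exact ⟨Units.mk0 _ h3, rfl, h2⟩
  have hq : ∀ t, ∃ u : (PadicAlgCl l)ˣ, (u : PadicAlgCl l) = μ t ∧ u ∈ (near ε h0 h1 : Subgroup (PadicAlgCl l)ˣ) := by
    intro t
    rcases hμ t with h2 | ⟨d, hd0, h2 | h2⟩
    · exact ⟨1, h2.symm, Subgroup.one_mem _⟩
    · obtain ⟨u, hu, hu2⟩ := hval d hd0
      exact ⟨u, hu.trans h2.symm, hu2⟩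
    · obtain ⟨u, hu, hu2⟩ := hval d hd0
      exact ⟨u⁻¹, by rw [Units.val_inv_eq_inv_val, hu, h2], Subgroup.inv_mem _ hu2⟩
  have hs : ∀ t, ∃ u : (PadicAlgCl l)ˣ, (u : PadicAlgCl l) = σ (μ' t) ∧ u ∈ (near ε h0 h1 : Subgroup (PadicAlgCl l)ˣ) := by
    have key : ∀ (d : PadicAlgCl l) (x : algebraicClosure ℚ (PadicAlgCl l)), aeval d P0 = 0 → (x : PadicAlgCl l) = d ^ f →
        ∃ u : (PadicAlgCl l)ˣ, (u : PadicAlgCl l) = σ x ∧ u ∈ (near ε h0 h1 : Subgroup (PadicAlgCl l)ˣ) := by
      intro d x hd0 hx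
      let d' : algebraicClosure ℚ (PadicAlgCl l) := ⟨d, mem_algebraicClosure_iff.2 ⟨P0, h.ne, hd0⟩⟩
      have h3 : x = d' ^ f := Subtype.ext hx
      have h4 : aeval d' P0 = 0 := by
        apply (algebraicClosure ℚ (PadicAlgCl l)).val.injective
        rw [map_zero]
        have h5 : (algebraicClosure ℚ (PadicAlgCl l)).val (aeval d' P0) = aeval d P0 := by
          rw [← Polynomial.aeval_algHom_apply]
          rfl
        exact h5.trans hd0
      obtain ⟨u, hu, hu2⟩ := hval _ (aeval_map_zero σ P0 h4)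
      exact ⟨u, by rw [hu, h3, map_pow], hu2⟩
    intro t
    rcases hμ t with h3 | ⟨d, hd0, h3 | h3⟩
    · have h4 : μ' t = 1 := Subtype.ext h3
      exact ⟨1, by rw [h4, map_one, Units.val_one], Subgroup.one_mem _⟩
    · exact key d (μ' t) hd0 h3
    · obtain ⟨u, hu, hu2⟩ := key d (μ' t)⁻¹ hd0 (by
        show (μ t)⁻¹ = d ^ f
        rw [h3, inv_inv])
      exact ⟨u⁻¹, by rw [Units.val_inv_eq_inv_val, hu, map_inv₀, inv_inv], Subgroup.inv_mem _ hu2⟩
  choose u hu hu2 using hq
  choose w hw hw2 using hs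
  have h3 : ζ * ∏ t, μ t = ∏ t, σ (μ' t) := by
    have h4 : ζ0 ≠ 0 := by
      intro h5
      apply hy0
      rw [hy, h5, zero_mul]
    have h5 : σ y' = ζ0 * ∏ t, σ (μ' t) := by rw [e1, map_mul, map_prod, e2]
    rw [h5, hy', hy] at he
    have h6 : ζ0 * (ζ * ∏ t, μ t) = ζ0 * ∏ t, σ (μ' t) := by
      rw [he]
      ring
    exact mul_left_cancel₀ h4 h6
  let Z : (PadicAlgCl l)ˣ := (∏ t, w t) * (∏ t, u t)⁻¹
  have hZ : (Z : PadicAlgCl l) = ζ := by
    have h4 : ((∏ t, w t : (PadicAlgCl l)ˣ) : PadicAlgCl l) = ∏ t, σ (μ' t) := by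
      rw [Units.coe_prod]
      exact Finset.prod_congr rfl fun t _ => hw t
    have h5 : ((∏ t, u t : (PadicAlgCl l)ˣ) : PadicAlgCl l) = ∏ t, μ t := by
      rw [Units.coe_prod]
      exact Finset.prod_congr rfl fun t _ => hu t
    show ((∏ t, w t : (PadicAlgCl l)ˣ) : PadicAlgCl l) * (((∏ t, u t)⁻¹ : (PadicAlgCl l)ˣ) : PadicAlgCl l) = ζ
    rw [h4, ← h3, ← h5]
    exact Units.mul_inv_cancel_right _ _
  have hZ2 : Z ∈ (near ε h0 h1 : Subgroup (PadicAlgCl l)ˣ) :=
    Subgroup.mul_mem _ (Subgroup.prod_mem _ fun t _ => hw2 t) (Subgroup.inv_mem _ (Subgroup.prod_mem _ fun t _ => hu2 t))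
  have hZ3 : Z ^ j = 1 := Units.ext (by rw [Units.val_pow_eq_pow_val, hZ, hζ, Units.val_one])
  have h6 := root_near norm_l h0 h1 hε hZ2 hj hZ3
  rw [← hZ, h6, Units.val_one]

end

end ST32
end

-- from Lib.CFT.N11
section

/-! # CFT module N, N11: a good character is algebraic on a ray -/

set_option autoImplicit false

open NumberField IsDedekindDomain Polynomial H25G

namespace ST32

section

variable {l : ℕ} [hlp : Fact l.Prime] {n : ℕ}

/-- The primes of M over a finite set of prime numbers. -/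
theorem over_fin (M : Type) [Field M] [NumberField M] (S : Finset ℕ) : {v : CFT.Pr M | ∃ p ∈ S, p.Prime ∧ (p : 𝓞 M) ∈ v.asIdeal}.Finite := by
  have h : {v : CFT.Pr M | ∃ p ∈ S, p.Prime ∧ (p : 𝓞 M) ∈ v.asIdeal} ⊆ ⋃ p ∈ S.filter Nat.Prime, {v : CFT.Pr M | v.asIdeal ∣ Ideal.span {(p : 𝓞 M)}} := by
    rintro v ⟨p, hp, hpp, hpv⟩
    refine Set.mem_biUnion (Finset.mem_coe.2 (Finset.mem_filter.2 ⟨hp, hpp⟩)) ?_
    rw [Set.mem_ofPred_eq, Ideal.dvd_span_singleton]
    exact hpv
  refine Set.Finite.subset (Set.Finite.biUnion (Finset.finite_toSet _) fun p hp => ?_) h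
  refine Ideal.finite_factors fun h0 => ?_
  rw [Ideal.zero_eq_bot, Ideal.span_singleton_eq_bot] at h0
  exact (Finset.mem_filter.1 hp).2.ne_zero (by exact_mod_cast h0)


/-- The data attached to a good character: the set S' of prime numbers, the finite set T of primes of M, Frobenius elements, the character D of the
divisors. -/
structure GD (M : IntermediateField ℚ H25G.Om) [NumberField M] (ψ : M.fixingSubgroup →* (PadicAlgCl l)ˣ) (S' : Finset ℕ)
    (T : Finset (CFT.Pr M)) (Fr : CFT.Pr M → M.fixingSubgroup) (D : CFT.Dv M →+ Additive (PadicAlgCl l)ˣ) : Prop where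
  inert : ∀ p : ℕ, p.Prime → p ∉ S' → ∀ Q : Ideal (𝓞 H25G.Om), Q.IsPrime → (p : 𝓞 H25G.Om) ∈ Q →
      ∀ s : M.fixingSubgroup, (∀ x : 𝓞 H25G.Om, (s : Gal(H25G.Om/ℚ)) • x - x ∈ Q) → ψ s = 1
  ovr : ∀ v : CFT.Pr M, ∀ p : ℕ, p.Prime → (p : 𝓞 M) ∈ v.asIdeal → p ∈ S' → v ∈ T
  fr : ∀ v, IsFrP M v (Fr v)
  off : ∀ v ∉ T, D (Finsupp.single v 1) = Additive.ofMul (ψ (Fr v))
  on : ∀ v ∈ T, D (Finsupp.single v 1) = 0

variable {M : IntermediateField ℚ H25G.Om} [NumberField M] {ψ : M.fixingSubgroup →* (PadicAlgCl l)ˣ} {S' : Finset ℕ}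
  {T : Finset (CFT.Pr M)} {Fr : CFT.Pr M → M.fixingSubgroup} {D : CFT.Dv M →+ Additive (PadicAlgCl l)ˣ}

/-- The character of the Galois group of Om over M. -/
noncomputable abbrev psiM (ψ : M.fixingSubgroup →* (PadicAlgCl l)ˣ) : (H25G.Om ≃ₐ[M] H25G.Om) →* (PadicAlgCl l)ˣ :=
  ψ.comp (eM M).symm.toMonoidHom

theorem GD.unr (h : GD M ψ S' T Fr D) : ∀ v ∉ T, UnrV (psiM ψ) v := by
  intro v hv P hP g hg
  obtain ⟨p, f, hp, hf, hpv, -⟩ := exists_below M v
  have hpS : p ∉ S' := fun hc => hv (h.ovr v p hp hpv hc)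
  have hpP : (p : 𝓞 H25G.Om) ∈ P := by
    have h1 := hpv
    rw [← hP.2, Ideal.mem_comap, map_natCast] at h1
    exact h1
  exact h.inert p hp hpS P hP.1 hpP ((eM M).symm g) hg






end

end ST32
end

-- from Lib.H45K.QuadRec
section

/-! # Characters of order two of the absolute Galois group of a number field (from Artin reciprocity)

If `π` generates a prime `w`, is positive at all real places and is a local square at all primes of `S`, then every
character of exponent two with open kernel which is unramified outside `S` is trivial at the Frobenius elements of `w`. -/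

open NumberField IsDedekindDomain

namespace H45K

open CFT ST32

section

variable {K : Type} [Field K] [NumberField K] {Om : Type} [Field Om] [Algebra K Om]


theorem val_one_of_close {v : Pr K} {x y : K} (hx : v.valuation K x = 1) (h : v.valuation K (x - y) < 1) :
    v.valuation K y = 1 := by
  have h1 : y = x - (x - y) := by ring
  rw [h1, sub_eq_add_neg]
  have h2 : v.valuation K (-(x - y)) < v.valuation K x := by rwa [Valuation.map_neg, hx]
  rw [Valuation.map_add_eq_of_lt_left _ h2, hx]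



end

end H45K
end

-- from Lib.H45K.K2
section

/-! # H45K, K2: the places of a number field above `l` are induced by its embeddings into the algebraic closure of `ℚ_l`, and an element all of
whose images in the algebraic closure of `ℚ_l` are squares of elements of `ℚ_l` is a local square at these places -/

set_option autoImplicit false
set_option linter.unusedSectionVars false

open NumberField IsDedekindDomain

namespace H45K

open CFT ST32

/-- Algebraic integers have norm at most one. -/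
theorem norm_int {L : Type*} [NormedField L] [IsUltrametricDist L] {x : L} (hx : IsIntegral ℤ x) : ‖x‖ ≤ 1 := by
  obtain ⟨f, hf, hfx⟩ := hx
  by_contra hcon
  rw [not_le] at hcon
  rw [Polynomial.eval₂_eq_sum_range, Finset.sum_range_succ, hf.coeff_natDegree, map_one, one_mul] at hfx
  have h0 : f.natDegree ≠ 0 := by
    intro h
    rw [h, Finset.sum_range_zero, zero_add, pow_zero] at hfx
    exact one_ne_zero hfx
  have h1 : x ^ f.natDegree = -∑ i ∈ Finset.range f.natDegree, (algebraMap ℤ L (f.coeff i)) * x ^ i := by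
    rw [eq_neg_iff_add_eq_zero, add_comm]
    exact hfx
  have h2 : ‖∑ i ∈ Finset.range f.natDegree, (algebraMap ℤ L (f.coeff i)) * x ^ i‖ ≤ ‖x‖ ^ (f.natDegree - 1) := by
    refine IsUltrametricDist.norm_sum_le_of_forall_le_of_nonneg (by positivity) fun i hi => ?_
    rw [norm_mul, norm_pow]
    have h3 : ‖algebraMap ℤ L (f.coeff i)‖ ≤ 1 := by
      rw [eq_intCast]
      exact IsUltrametricDist.norm_intCast_le_one L _
    have h4 : i ≤ f.natDegree - 1 := by
      have := Finset.mem_range.1 hi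
      omega
    calc _ ≤ 1 * ‖x‖ ^ i := mul_le_mul_of_nonneg_right h3 (by positivity)
      _ ≤ ‖x‖ ^ (f.natDegree - 1) := by
          rw [one_mul]
          exact pow_le_pow_right₀ hcon.le h4
  have h5 : ‖x‖ ^ f.natDegree ≤ ‖x‖ ^ (f.natDegree - 1) := by
    rw [← norm_pow, h1, norm_neg]
    exact h2
  have h6 : ‖x‖ ^ (f.natDegree - 1) < ‖x‖ ^ f.natDegree := pow_lt_pow_right₀ hcon (by omega)
  exact absurd h5 (not_le.2 h6)

section

variable {Om : Type} [Field Om] {L : Type} [NormedField L] [IsUltrametricDist L] (i : Om →+* L)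

/-- The prime ideal of the algebraic integers induced by the embedding `i`. -/
def prm : Ideal (𝓞 Om) where
  carrier := {x | ‖i (algebraMap (𝓞 Om) Om x)‖ < 1}
  zero_mem' := by
    rw [Set.mem_ofPred_eq, map_zero, map_zero, norm_zero]
    exact one_pos
  add_mem' := by
    intro a b ha hb
    rw [Set.mem_ofPred_eq, map_add, map_add]
    exact (IsUltrametricDist.norm_add_le_max _ _).trans_lt (max_lt ha hb)
  smul_mem' := by
    intro c x hx
    rw [Set.mem_ofPred_eq, smul_eq_mul, map_mul, map_mul, norm_mul]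
    have h1 : ‖i (algebraMap (𝓞 Om) Om c)‖ ≤ 1 := norm_int ((RingOfIntegers.isIntegral_coe c).map i.toIntAlgHom)
    exact (mul_le_mul_of_nonneg_right h1 (norm_nonneg _)).trans_lt (by rw [one_mul]; exact hx)

theorem mem_prm (x : 𝓞 Om) : x ∈ prm i ↔ ‖i (algebraMap (𝓞 Om) Om x)‖ < 1 := Iff.rfl

theorem prm_prime : (prm i).IsPrime := by
  rw [Ideal.isPrime_iff]
  constructor
  · rw [Ne, Ideal.eq_top_iff_one, mem_prm, map_one, map_one, norm_one]
    exact lt_irrefl _
  · intro a b hab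
    rw [mem_prm, map_mul, map_mul, norm_mul] at hab
    rw [mem_prm, mem_prm]
    by_contra hcon
    rw [not_or, not_lt, not_lt] at hcon
    exact absurd hab (not_lt.2 (one_le_mul_of_one_le_of_one_le hcon.1 hcon.2))

end

section

/-- Two prime ideals of the ring of all algebraic integers which contain the same prime number are above the same prime of `ℚ`. -/
theorem comap_eq {Om : Type} [Field Om] [CharZero Om] {l : ℕ} (hl : l.Prime) (P Q : Ideal (𝓞 Om)) (hP : P.IsPrime) (hQ : Q.IsPrime)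
    (h1 : (l : 𝓞 Om) ∈ P) (h2 : (l : 𝓞 Om) ∈ Q) : P.comap (algebraMap (𝓞 ℚ) (𝓞 Om)) = Q.comap (algebraMap (𝓞 ℚ) (𝓞 Om)) := by
  have key : ∀ P : Ideal (𝓞 Om), P.IsPrime → (l : 𝓞 Om) ∈ P → ∀ n : ℤ, (n : 𝓞 Om) ∈ P ↔ (l : ℤ) ∣ n := by
    intro P hP hl' n
    constructor
    · intro hn
      by_contra hcon
      have hcop : IsCoprime n (l : ℤ) := by
        rw [isCoprime_comm]
        exact (Prime.coprime_iff_not_dvd (Nat.prime_iff_prime_int.1 hl)).2 hcon
      obtain ⟨a, b, hab⟩ := hcop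
      apply hP.ne_top
      rw [Ideal.eq_top_iff_one]
      have e : (1 : 𝓞 Om) = (a : 𝓞 Om) * (n : 𝓞 Om) + (b : 𝓞 Om) * (l : 𝓞 Om) := by
        have := congrArg (fun z : ℤ => (z : 𝓞 Om)) hab
        push_cast at this
        exact this.symm
      rw [e]
      exact P.add_mem (P.mul_mem_left _ hn) (P.mul_mem_left _ hl')
    · rintro ⟨m, rfl⟩
      push_cast
      exact P.mul_mem_right _ hl'
  have hQi : ∀ x : 𝓞 ℚ, ∃ n : ℤ, x = n := fun x => by
    obtain ⟨n, hn⟩ := (Rat.ringOfIntegersEquiv.symm).surjective x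
    exact ⟨n, by rw [← hn]; simp⟩
  ext x
  obtain ⟨n, rfl⟩ := hQi x
  rw [Ideal.mem_comap, Ideal.mem_comap, map_intCast, key P hP h1, key Q hQ h2]

variable {F : Type} [Field F] [NumberField F] {Om : Type} [Field Om] [Algebra F Om] [IsAlgClosure F Om]
variable {L : Type} [NormedField L] [IsUltrametricDist L]

/-- Every place above `l` is induced by an embedding. -/
theorem exists_emb {l : ℕ} (hl : l.Prime) (i : Om →+* L) (hil : ‖(l : L)‖ < 1) (v : Pr F) (hv : (l : 𝓞 F) ∈ v.asIdeal) :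
    ∃ τ : F →+* Om, ∀ x : 𝓞 F, x ∈ v.asIdeal ↔ ‖i (τ x)‖ < 1 := by
  have hac : IsAlgClosed Om := IsAlgClosure.isAlgClosed F
  have halg : Algebra.IsAlgebraic F Om := IsAlgClosure.isAlgebraic
  have h0 : CharZero Om := charZero_of_injective_algebraMap (algebraMap F Om).injective
  have halgQ : Algebra.IsAlgebraic ℚ Om := Algebra.IsAlgebraic.trans ℚ F Om
  have hcl : IsAlgClosure ℚ Om := ⟨hac, halgQ⟩
  obtain ⟨P, hP⟩ := exists_above (Om := Om) v
  have hlP : (l : 𝓞 Om) ∈ P := by
    have h1 := hv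
    rw [← hP.2, Ideal.mem_comap, map_natCast] at h1
    exact h1
  have hlQ : (l : 𝓞 Om) ∈ prm i := by
    rw [mem_prm, map_natCast, map_natCast]
    exact hil
  obtain ⟨g, hg⟩ := exists_smul_eq (K := ℚ) (Om := Om) P (prm i) hP.1 (prm_prime i) (comap_eq hl P (prm i) hP.1 (prm_prime i) hlP hlQ)
  refine ⟨(g : Om →+* Om).comp (algebraMap F Om), fun x => ?_⟩
  rw [← hP.2, Ideal.mem_comap, hg, mem_prm]
  rfl

theorem val_le_of_norm {v : Pr F} {σ : F →+* L} (hσ : ∀ x : 𝓞 F, x ∈ v.asIdeal ↔ ‖σ x‖ < 1) {x : F} (hx : ‖σ x‖ ≤ 1) :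
    v.valuation F x ≤ 1 := by
  by_contra hcon
  rw [not_le] at hcon
  have hx0 : x ≠ 0 := by
    rintro rfl
    rw [map_zero] at hcon
    exact absurd hcon (not_lt.2 zero_le_one)
  have h1 : 0 < od v x⁻¹ := by
    rw [val_eq v hx0, ← WithZero.exp_zero, WithZero.exp_lt_exp] at hcon
    rw [od_inv]
    exact hcon
  obtain ⟨a, b, hb0, hab, hb⟩ := frac_prime {v} (x := x⁻¹) fun w hw => by
    rw [Finset.mem_singleton.1 hw]
    exact h1.le
  have hbv := hb v (Finset.mem_singleton_self v)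
  have hb0' : (b : F) ≠ 0 := fun h => hb0 (RingOfIntegers.coe_eq_zero_iff.1 h)
  have hx0' : x⁻¹ ≠ 0 := inv_ne_zero hx0
  have ha0 : a ≠ 0 := by
    rintro rfl
    apply hx0'
    rw [hab]
    simp
  have h2 : od v (b : F) = 0 := by
    have h3 := od_nonneg v b
    have h4 := (od_pos_iff v hb0).not.2 hbv
    omega
  have h3 : (a : F) = x⁻¹ * (b : F) := by rw [hab, div_mul_cancel₀ _ hb0']
  have h4 : 0 < od v (a : F) := by
    rw [h3, od_mul v hx0' hb0', h2, add_zero]
    exact h1
  have h5 := (od_pos_iff v ha0).1 h4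
  rw [hσ] at h5
  have h6 : ¬ ‖σ b‖ < 1 := fun h => hbv ((hσ b).2 h)
  have h7 : ‖σ (b : F)‖ ≤ 1 := norm_int ((RingOfIntegers.isIntegral_coe b).map σ.toIntAlgHom)
  have h8 : ‖σ (b : F)‖ = 1 := le_antisymm h7 (not_lt.1 h6)
  rw [h3, map_mul, norm_mul, h8, mul_one, map_inv₀, norm_inv] at h5
  have h9 : 0 < ‖σ x‖ := by
    rw [norm_pos_iff]
    exact (map_ne_zero σ).2 hx0
  exact absurd (inv_lt_one₀ h9 |>.1 h5) (not_lt.2 hx)

end

end H45K
end

-- from Lib.H45K.PowRec
section

/-! # Characters of exponent m of the absolute Galois group of a number field (from Artin reciprocity)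

If `a` is positive at all real places and a local m-th power at all primes of `S`, then the value of a character of exponent m
with open kernel which is unramified outside `S` at the divisor of `a` is trivial. -/

open NumberField IsDedekindDomain

namespace H45K

open CFT ST32

section

variable {K : Type} [Field K] [NumberField K] {Om : Type} [Field Om] [Algebra K Om]

/-- `a` is an m-th power in the completion at `v`: it can be approximated by m-th powers. -/
def LocPow (m : ℕ) (v : Pr K) (a : K) : Prop := ∀ N : ℕ, ∃ y : K, v.valuation K (a - y ^ m) < WithZero.exp (-(N : ℤ))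

theorem pow_close {v : Pr K} {x y : K} (hx : v.valuation K x = 1) (hy : v.valuation K y = 1) {N : ℕ}
    (h : v.valuation K (y - x) < WithZero.exp (-(N : ℤ))) (m : ℕ) :
    v.valuation K (y ^ m - x ^ m) < WithZero.exp (-(N : ℤ)) := by
  induction m with
  | zero =>
    rw [pow_zero, pow_zero, sub_self, map_zero]
    exact WithZero.exp_pos
  | succ m ih =>
    have e : y ^ (m + 1) - x ^ (m + 1) = y ^ m * (y - x) + (y ^ m - x ^ m) * x := by ring
    rw [e]
    refine Valuation.map_add_lt _ ?_ ?_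
    · rw [map_mul, map_pow, hy, one_pow, one_mul]
      exact h
    · rw [map_mul, hx, mul_one]
      exact ih

/-- A totally positive local m-th power at the primes of `S`, with value one there, is an m-th power times an element of
any given ray. -/
theorem exists_ray_pow {m : ℕ} (hm : m ≠ 0) {S : Finset (Pr K)} {a : K} (h0 : a ≠ 0)
    (hu : ∀ v ∈ S, v.valuation K a = 1) (hpos : ∀ φ : K →+* ℝ, 0 < φ a) (hsq : ∀ v ∈ S, LocPow m v a) (N : ℕ) :
    ∃ x : K, x ≠ 0 ∧ Ray S N (a * (x⁻¹) ^ m) := by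
  classical
  choose! y hy using fun v (hv : v ∈ S) => hsq v hv N
  obtain ⟨x, hx0, hx1, hx3⟩ := approx S N y (fun _ => 1) (fun _ => one_ne_zero)
  have hy2 : ∀ v ∈ S, v.valuation K (y v) = 1 := by
    intro v hv
    have h1 : v.valuation K (a - y v ^ m) < 1 := (hy v hv).trans_le (exp_le_one N)
    have h2 := val_one_of_close (hu v hv) h1
    rw [map_pow] at h2
    exact (pow_eq_one_iff.1 h2).resolve_right hm
  have hx2 : ∀ v ∈ S, v.valuation K x = 1 := by
    intro v hv
    have h1 : v.valuation K (y v - x) < 1 := by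
      rw [Valuation.map_sub_swap]
      exact (hx1 v hv).trans_le (exp_le_one N)
    exact val_one_of_close (hy2 v hv) h1
  have hxm : x ^ m ≠ 0 := pow_ne_zero _ hx0
  refine ⟨x, hx0, mul_ne_zero h0 (pow_ne_zero _ (inv_ne_zero hx0)), fun v hv => ?_, fun φ => ?_⟩
  · have e : a * (x⁻¹) ^ m - 1 = ((a - y v ^ m) + (y v ^ m - x ^ m)) * (x⁻¹) ^ m := by
      rw [inv_pow]
      field_simp
      ring
    rw [e, map_mul, map_pow, map_inv₀, hx2 v hv, inv_one, one_pow, mul_one]
    refine Valuation.map_add_lt _ (hy v hv) ?_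
    refine pow_close (hx2 v hv) (hy2 v hv) ?_ m
    rw [Valuation.map_sub_swap]
    exact hx1 v hv
  · rw [map_mul, map_pow, map_inv₀]
    have h1 : 0 < φ x := by
      have := hx3 φ
      rwa [mul_one] at this
    exact mul_pos (hpos φ) (pow_pos (inv_pos.2 h1) _)

/-- RECIPROCITY FOR CHARACTERS OF EXPONENT m, at the divisor of any element. -/
theorem pow_rec_dv [IsGalois K Om] {A : Type} [CommGroup A] {m : ℕ} (hm : m ≠ 0) (χ : (Om ≃ₐ[K] Om) →* A)
    (hχ : IsOpen (χ.ker : Set (Om ≃ₐ[K] Om))) (h2 : ∀ g, χ g ^ m = 1) (S : Finset (Pr K)) (hS : ∀ v ∉ S, UnrV χ v)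
    (Fr : Pr K → (Om ≃ₐ[K] Om)) (hFr : ∀ v ∉ S, IsFrv v (Fr v)) (D : Dv K →+ Additive A)
    (h1 : ∀ v ∉ S, D (Finsupp.single v 1) = Additive.ofMul (χ (Fr v))) (h0 : ∀ v ∈ S, D (Finsupp.single v 1) = 0)
    {a : K} (ha : a ≠ 0) (hu : ∀ v ∈ S, v.valuation K a = 1) (hpos : ∀ φ : K →+* ℝ, 0 < φ a)
    (hsq : ∀ v ∈ S, LocPow m v a) : D (dv a) = 0 := by
  classical
  obtain ⟨N, hN⟩ := rec_fin χ hχ S hS Fr hFr D h1 h0
  obtain ⟨x, hx0, hray⟩ := exists_ray_pow hm ha hu hpos hsq N
  have h4 := hN _ hray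
  have h5 : ∀ E : Dv K, m • D E = 0 := by
    intro E
    have h6 : m • D = 0 := by
      refine Finsupp.addHom_ext fun v n => ?_
      have e1 : (Finsupp.single v n : Dv K) = n • Finsupp.single v 1 := by
        rw [Finsupp.smul_single, smul_eq_mul, mul_one]
      rw [AddMonoidHom.zero_apply, e1, map_zsmul, AddMonoidHom.smul_apply]
      by_cases hv : v ∈ S
      · rw [h0 v hv, smul_zero, smul_zero]
      · rw [h1 v hv, ← ofMul_pow, h2, ofMul_one, smul_zero]
    exact congrArg (fun f : Dv K →+ Additive A => f E) h6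
  have h7 : ∀ k : ℕ, D (dv ((x⁻¹) ^ k)) = k • D (dv x⁻¹) := by
    intro k
    induction k with
    | zero =>
      rw [pow_zero, zero_smul]
      have h8 : dv (1 : K) = 0 := by
        have h9 := dv_mul (K := K) one_ne_zero one_ne_zero
        rw [one_mul] at h9
        exact left_eq_add.1 h9
      rw [h8, map_zero]
    | succ k ih => rw [pow_succ, dv_mul (pow_ne_zero _ (inv_ne_zero hx0)) (inv_ne_zero hx0), map_add, ih, succ_nsmul]
  rw [dv_mul ha (pow_ne_zero _ (inv_ne_zero hx0)), map_add, h7, h5, add_zero] at h4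
  exact h4

/-- RECIPROCITY FOR CHARACTERS OF EXPONENT m, at a prime generated by a local m-th power. -/
theorem pow_rec [IsGalois K Om] {A : Type} [CommGroup A] {m : ℕ} (hm : m ≠ 0) (χ : (Om ≃ₐ[K] Om) →* A)
    (hχ : IsOpen (χ.ker : Set (Om ≃ₐ[K] Om))) (h2 : ∀ g, χ g ^ m = 1) (S : Finset (Pr K)) (hS : ∀ v ∉ S, UnrV χ v)
    (Fr : Pr K → (Om ≃ₐ[K] Om)) (hFr : ∀ v ∉ S, IsFrv v (Fr v)) (w : Pr K) (hw : w ∉ S) (π : K)
    (hπ : dv π = Finsupp.single w 1) (hpos : ∀ φ : K →+* ℝ, 0 < φ π) (hsq : ∀ v ∈ S, LocPow m v π) :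
    χ (Fr w) = 1 := by
  classical
  let D : Dv K →+ Additive A :=
    Finsupp.liftAddHom fun v => zmultiplesHom (Additive A) (if v ∈ S then 0 else Additive.ofMul (χ (Fr v)))
  have hD : ∀ (v : Pr K) (n : ℤ), D (Finsupp.single v n) = n • (if v ∈ S then 0 else Additive.ofMul (χ (Fr v))) := by
    intro v n
    show Finsupp.liftAddHom _ _ = _
    rw [Finsupp.liftAddHom_apply_single]
    rfl
  have h1 : ∀ v ∉ S, D (Finsupp.single v 1) = Additive.ofMul (χ (Fr v)) := by
    intro v hv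
    rw [hD, if_neg hv, one_smul]
  have h0 : ∀ v ∈ S, D (Finsupp.single v 1) = 0 := by
    intro v hv
    rw [hD, if_pos hv, smul_zero]
  have hπ0 : π ≠ 0 := by
    rintro rfl
    have h3 := congrArg (fun f : Dv K => f w) hπ
    simp only [dv_apply, od_zero, Finsupp.single_eq_same] at h3
    exact zero_ne_one h3
  have hu : ∀ v ∈ S, v.valuation K π = 1 := by
    intro v hv
    have h3 : od v π = 0 := by
      rw [← dv_apply, hπ]
      exact Finsupp.single_eq_of_ne (fun h => hw (by rwa [h] at hv))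
    rw [val_eq v hπ0, h3, neg_zero, WithZero.exp_zero]
  have h3 := pow_rec_dv hm χ hχ h2 S hS Fr hFr D h1 h0 hπ0 hu hpos hsq
  rw [hπ, h1 w hw] at h3
  exact Additive.ofMul.injective h3

end

end H45K
end

-- from Lib.H45K.K10a
section

/-! # K10a: preparations for the final theorem -/

open NumberField IsDedekindDomain CFT Polynomial

namespace H45K

section

variable {F : Type} [Field F] [NumberField F]

theorem dv_gen {w : Pr F} {π : 𝓞 F} (hw : w.asIdeal = Ideal.span {π}) : dv (π : F) = Finsupp.single w 1 := by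
  have hπ : π ≠ 0 := by
    rintro rfl
    apply w.ne_bot
    rw [hw, Ideal.span_singleton_eq_bot]
  have hπF : (π : F) ≠ 0 := by
    intro h
    apply hπ
    apply RingOfIntegers.coe_injective
    rw [map_zero]
    exact h
  ext v
  rw [dv_apply]
  by_cases h : v = w
  · rw [h, Finsupp.single_eq_same]
    have h1 : w.valuation F (algebraMap (𝓞 F) F π) = WithZero.exp (-1 : ℤ) := by
      rw [HeightOneSpectrum.valuation_of_algebraMap, w.intValuation_singleton hπ hw]
    have h2 := val_eq w hπF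
    have h3 : w.valuation F (π : F) = WithZero.exp (-1 : ℤ) := h1
    rw [h3, WithZero.exp_inj] at h2
    omega
  · rw [Finsupp.single_eq_of_ne (fun h' => h h')]
    have h1 : ¬ 0 < od v (π : F) := by
      rw [od_pos_iff v hπ]
      intro h2
      apply h
      have h3 : w.asIdeal ≤ v.asIdeal := by
        rw [hw, Ideal.span_singleton_le_iff_mem]
        exact h2
      exact (HeightOneSpectrum.ext (w.isMaximal.eq_of_le v.isPrime.ne_top h3)).symm
    have h2 := od_nonneg v π
    omega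

end

section

/-- An eigenvalue is a root of the characteristic polynomial. -/
theorem root_of_eig {ι K : Type*} [Fintype ι] [DecidableEq ι] [Field K] {x : Matrix ι ι K} {c : K} {z : ι → K} (hz : z ≠ 0)
    (h : x.mulVec z = c • z) : x.charpoly.eval c = 0 := by
  rw [Matrix.eval_charpoly, ← Matrix.exists_mulVec_eq_zero_iff]
  refine ⟨z, hz, ?_⟩
  rw [Matrix.sub_mulVec, h, sub_eq_zero]
  rw [Matrix.scalar_apply, Matrix.diagonal_const_mulVec]

end

end H45K
end

-- from Lib.H45P.P5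
section

/-! # H45P, P5: local m-th powers, relative to finitely many elements (Kummer theory of exponent m) -/

set_option autoImplicit false
set_option linter.unusedSectionVars false

open NumberField IsDedekindDomain Polynomial CFT H45K

namespace H45P

/-- Kummer theory for one element: an element of `L` which becomes an `m`-th power in the extension by an `m`-th root of `a` is a power of
`a` times an `m`-th power. -/
theorem p5_ext (L : Type) [Field L] [NumberField L] {m : ℕ} (hm : m ≠ 0) {ζ : L} (hζ : IsPrimitiveRoot ζ m) (a : L) (ha : a ≠ 0) :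
    ∃ (N : Type) (_ : Field N) (_ : NumberField N) (i : L →+* N) (α : N), α ^ m = i a ∧
      ∀ b : L, b ≠ 0 → (∃ β : N, β ^ m = i b) → ∃ (x : ℕ) (c : L), b = a ^ x * c ^ m := by
  classical
  have hmL : (m : L) ≠ 0 := Nat.cast_ne_zero.2 hm
  let f : L[X] := X ^ m - C a
  have hsep : f.Separable := separable_X_pow_sub_C a hmL ha
  have hN0 : CharZero f.SplittingField := charZero_of_injective_algebraMap (algebraMap L f.SplittingField).injective
  have hN : NumberField f.SplittingField := NumberField.of_module_finite L f.SplittingField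
  have hG : IsGalois L f.SplittingField := IsGalois.of_separable_splitting_field hsep
  have hdeg : (f.map (algebraMap L f.SplittingField)).degree ≠ 0 := by
    rw [degree_map, degree_X_pow_sub_C (Nat.pos_of_ne_zero hm)]
    exact_mod_cast hm
  obtain ⟨α, hα⟩ := (SplittingField.splits f).exists_eval_eq_zero hdeg
  have hα1 : α ^ m = algebraMap L f.SplittingField a := by
    rw [eval_map, eval₂_sub, eval₂_pow, eval₂_X, eval₂_C] at hα
    exact sub_eq_zero.1 hα
  refine ⟨f.SplittingField, inferInstance, hN, algebraMap L f.SplittingField, α, hα1, fun b hb ⟨β, hβ⟩ => ?_⟩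
  have hroot : ∀ z : f.SplittingField, z ^ m = 1 → ∃ i < m, algebraMap L f.SplittingField (ζ ^ i) = z := by
    intro z hz
    have h1 : IsPrimitiveRoot (algebraMap L f.SplittingField ζ) m := hζ.map_of_injective (algebraMap L f.SplittingField).injective
    have : NeZero m := ⟨hm⟩
    obtain ⟨i, hi, h2⟩ := h1.eq_pow_of_pow_eq_one hz
    exact ⟨i, hi, by rw [map_pow, h2]⟩
  have hα0 : α ≠ 0 := by
    rintro rfl
    rw [zero_pow hm] at hα1
    exact ha ((map_eq_zero _).1 hα1.symm)
  have hβ0 : β ≠ 0 := by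
    rintro rfl
    rw [zero_pow hm] at hβ
    exact hb ((map_eq_zero _).1 hβ.symm)
  have hact : ∀ (γ : f.SplittingField) (d : L), γ ^ m = algebraMap L f.SplittingField d → γ ≠ 0 →
      ∀ s : f.SplittingField ≃ₐ[L] f.SplittingField, ∃ i < m, s γ = algebraMap L f.SplittingField (ζ ^ i) * γ := by
    intro γ d hγ hγ0 s
    obtain ⟨i, hi, h1⟩ := hroot (s γ / γ) (by
      rw [div_pow, ← map_pow, hγ, s.commutes, ← hγ, div_self (pow_ne_zero _ hγ0)])
    exact ⟨i, hi, by rw [h1, div_mul_cancel₀ _ hγ0]⟩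
  have hA : ∀ s : f.SplittingField ≃ₐ[L] f.SplittingField, ∃ z : L, s α = algebraMap L f.SplittingField z * α := fun s => by
    obtain ⟨i, -, h⟩ := hact α a hα1 hα0 s
    exact ⟨_, h⟩
  choose χ hχ using hA
  have hχinj : Function.Injective χ := by
    intro s t hst
    -- all roots of f are ζ^i α
    have h1 : s α = t α := by rw [hχ, hχ, hst]
    have h2 : ∀ x ∈ f.rootSet f.SplittingField, s x = t x := by
      intro x hx
      rw [mem_rootSet] at hx
      have h3 : x ^ m = algebraMap L f.SplittingField a := by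
        have := hx.2
        rw [aeval_def, eval₂_sub, eval₂_pow, eval₂_X, eval₂_C] at this
        exact sub_eq_zero.1 this
      obtain ⟨i, -, hi⟩ := hroot (x / α) (by rw [div_pow, h3, hα1, div_self]; exact fun h => ha ((map_eq_zero _).1 h))
      have h4 : x = algebraMap L f.SplittingField (ζ ^ i) * α := by rw [hi, div_mul_cancel₀ _ hα0]
      rw [h4, map_mul, map_mul, s.commutes, t.commutes, h1]
    have h3 : (s : f.SplittingField →ₐ[L] f.SplittingField) = t :=
      AlgHom.ext_of_adjoin_eq_top (SplittingField.adjoin_rootSet f) h2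
    exact AlgEquiv.ext fun x => DFunLike.congr_fun h3 x
  have hχ1 : χ 1 = 1 := by
    have h1 := hχ 1
    rw [AlgEquiv.one_apply] at h1
    have h2 : algebraMap L f.SplittingField (χ 1) = algebraMap L f.SplittingField 1 := by
      rw [map_one]
      exact mul_right_cancel₀ hα0 (by rw [← h1, one_mul])
    exact (algebraMap L f.SplittingField).injective h2
  have hχm : ∀ s t, χ (s * t) = χ s * χ t := by
    intro s t
    apply (algebraMap L f.SplittingField).injective
    apply mul_right_cancel₀ hα0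
    rw [← hχ, AlgEquiv.mul_apply, hχ t, map_mul, s.commutes, hχ s, map_mul]
    ring
  let χ' : (f.SplittingField ≃ₐ[L] f.SplittingField) →* L := ⟨⟨χ, hχ1⟩, hχm⟩
  have hcyc : IsCyclic (f.SplittingField ≃ₐ[L] f.SplittingField) := isCyclic_of_subgroup_isDomain χ' hχinj
  obtain ⟨σ, hσ⟩ := hcyc.exists_generator
  have hord : IsPrimitiveRoot (χ σ) (orderOf σ) := by
    have h1 : orderOf (χ' σ) = orderOf σ := orderOf_injective χ' hχinj σ
    have h2 := IsPrimitiveRoot.orderOf (χ' σ)
    rwa [h1] at h2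
  obtain ⟨j, -, hj⟩ := hact β b hβ hβ0 σ
  have hpow : ∀ k : ℕ, (σ ^ k) β = algebraMap L f.SplittingField ((ζ ^ j) ^ k) * β := by
    intro k
    induction k with
    | zero => rw [pow_zero, pow_zero, map_one, one_mul, AlgEquiv.one_apply]
    | succ k ih =>
      rw [pow_succ', AlgEquiv.mul_apply, ih, map_mul, σ.commutes, hj, pow_succ', map_mul]
      ring
  have hz1 : (ζ ^ j) ^ orderOf σ = 1 := by
    have h1 := hpow (orderOf σ)
    rw [pow_orderOf_eq_one, AlgEquiv.one_apply] at h1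
    apply (algebraMap L f.SplittingField).injective
    rw [map_one]
    exact mul_right_cancel₀ hβ0 (by rw [← h1, one_mul])
  have hfin : 0 < orderOf σ := orderOf_pos σ
  have : NeZero (orderOf σ) := ⟨hfin.ne'⟩
  obtain ⟨x, -, hx⟩ := hord.eq_pow_of_pow_eq_one hz1
  -- β / α ^ x is fixed by σ
  obtain ⟨γ, hγ⟩ : ∃ γ, γ = β / α ^ x := ⟨_, rfl⟩
  have hγσ : σ γ = γ := by
    rw [hγ, map_div₀, map_pow, hj, hχ, mul_pow, ← map_pow, hx, mul_div_mul_left]
    intro h
    have h1 := (map_eq_zero _).1 h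
    rw [h1, zero_pow hfin.ne'] at hz1
    exact zero_ne_one hz1
  have hγall : ∀ s : f.SplittingField ≃ₐ[L] f.SplittingField, s γ = γ := by
    intro s
    obtain ⟨k, rfl⟩ := Subgroup.mem_zpowers_iff.1 (hσ s)
    have h1 : σ ∈ MulAction.stabilizer (f.SplittingField ≃ₐ[L] f.SplittingField) γ := hγσ
    exact (MulAction.stabilizer (f.SplittingField ≃ₐ[L] f.SplittingField) γ).zpow_mem h1 k
  obtain ⟨c, hc⟩ := (IsGalois.mem_range_algebraMap_iff_fixed γ).2 hγall
  refine ⟨x, c, ?_⟩
  apply (algebraMap L f.SplittingField).injective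
  rw [map_mul, map_pow, map_pow, hc, hγ, ← hβ, div_pow, ← hα1, ← pow_mul, ← pow_mul, mul_comm x m,
    mul_div_cancel₀ _ (pow_ne_zero _ hα0)]

/-- Relative local-global principle for `m`-th powers. -/
theorem p5_fin {m : ℕ} (hm : m ≠ 0) (n : ℕ) : ∀ (L : Type) [Field L] [NumberField L] (ζ : L) (_ : IsPrimitiveRoot ζ m) (a : Fin n → L)
    (_ : ∀ k, a k ≠ 0) (b : L) (_ : b ≠ 0) (B : ℕ)
    (_ : ∀ (l : ℕ) [Fact l.Prime], B < l → ∀ j : L →+* ℚ_[l], (∀ k, ∃ c, c ^ m = j (a k)) → ∃ c, c ^ m = j b),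
    ∃ (x : Fin n → ℕ) (c : L), b = (∏ k, a k ^ x k) * c ^ m := by
  induction n with
  | zero =>
    intro L _ _ ζ hζ a _ b _ B h
    obtain ⟨c, hc⟩ := k4_main L m hm ζ hζ b B (fun l hl hB j => h l hB j (fun k => k.elim0))
    exact ⟨fun _ => 0, c, by rw [Finset.prod_eq_one (fun k _ => pow_zero _), one_mul, hc]⟩
  | succ n ih =>
    intro L _ _ ζ hζ a ha b hb B h
    obtain ⟨N, _, _, i, α, hα, hN⟩ := p5_ext L hm hζ (a 0) (ha 0)
    obtain ⟨x, c, hc⟩ := ih N (i ζ) (hζ.map_of_injective i.injective) (fun k => i (a k.succ))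
      (fun k => (map_ne_zero i).2 (ha _)) (i b) ((map_ne_zero i).2 hb) B (fun l hl hB j hj => h l hB (j.comp i) (fun k => by
        refine Fin.cases ?_ ?_ k
        · exact ⟨j α, by rw [← map_pow, hα]; rfl⟩
        · exact hj))
    have hp : (∏ k : Fin n, a k.succ ^ x k) ≠ 0 := Finset.prod_ne_zero_iff.2 fun k _ => pow_ne_zero _ (ha _)
    obtain ⟨y, d, hd⟩ := hN (b / ∏ k : Fin n, a k.succ ^ x k) (div_ne_zero hb hp) ⟨c, by
      rw [map_div₀, hc, map_prod]
      simp only [map_pow]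
      rw [mul_div_cancel_left₀]
      rw [← map_ne_zero i, map_prod] at hp
      simpa only [map_pow] using hp⟩
    refine ⟨Fin.cons y x, d, ?_⟩
    rw [Fin.prod_univ_succ, Fin.cons_zero]
    simp only [Fin.cons_succ]
    rw [div_eq_iff hp] at hd
    rw [hd]
    ring

end H45P
end

-- from Lib.H76W.Bad
section

/-!
# unipotent elements of exponent two give elements of the Lie algebras
-/

set_option autoImplicit false
set_option linter.unusedSectionVars false
namespace Pool.Agent.H76W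
open Module Matrix Pool.Agent.H53Toric

variable {ι : Type*} [Fintype ι] [DecidableEq ι] {G : Type*} [Group G]

theorem one_add_pow {K : Type*} [Field K] {A : Matrix ι ι K} (hA : A * A = 0) (k : ℕ) :
    (1 + A) ^ k = 1 + (k : K) • A := by
  induction k with
  | zero => rw [pow_zero, Nat.cast_zero, zero_smul, add_zero]
  | succ k ih =>
    rw [pow_succ, ih, add_mul, one_mul, mul_add, mul_one, smul_mul_assoc, hA, smul_zero, add_zero,
      Nat.cast_succ, add_smul, one_smul]
    abel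

theorem bad_mem {l : ℕ} [Fact l.Prime] (ρ : G →* Matrix.GeneralLinearGroup ι ℚ_[l]) {g : G}
    (hg : ((ρ g).1 - 1) * ((ρ g).1 - 1) = 0) (H : Subgroup G) (hH : H.FiniteIndex) :
    ((ρ g).1 - 1).map (algebraMap ℚ_[l] (AlgebraicClosure ℚ_[l])) ∈
      zlie (img (AlgebraicClosure ℚ_[l]) ρ H) := by
  obtain ⟨k₀, hk₀, hk₀'⟩ : ∃ k : ℕ, 0 < k ∧ g ^ k ∈ H := by
    obtain ⟨k, hk, -, h⟩ := Subgroup.exists_pow_mem_of_index_ne_zero hH.index_ne_zero g
    exact ⟨k, hk, h⟩
  obtain ⟨A, hA⟩ : ∃ A, A = (ρ g).1 - 1 := ⟨_, rfl⟩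
  have hAA : A * A = 0 := hA ▸ hg
  have hpow : ∀ k : ℕ, (ρ (g ^ k)).1 = 1 + (k : ℚ_[l]) • A := by
    intro k
    rw [← one_add_pow hAA, map_pow, hA, add_sub_cancel]
    rfl
  rw [← hA]
  have hmap : ∀ k : ℕ, (ρ (g ^ k)).1.map (algebraMap ℚ_[l] (AlgebraicClosure ℚ_[l])) =
      1 + (k : AlgebraicClosure ℚ_[l]) • A.map (algebraMap ℚ_[l] (AlgebraicClosure ℚ_[l])) := by
    intro k
    rw [hpow]
    ext i j
    simp only [Matrix.map_apply, Matrix.add_apply, Matrix.smul_apply, smul_eq_mul, map_add, map_mul,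
      map_natCast, Matrix.one_apply]
    split_ifs <;> simp
  refine mem_zlie_of_infinite (T := Set.range fun n : ℕ => ((k₀ * n : ℕ) : AlgebraicClosure ℚ_[l])) ?_ ?_ ?_
  · rintro _ ⟨x, hx, rfl⟩ _ ⟨y, hy, rfl⟩
    exact ⟨x * y, H.mul_mem hx hy, by
      rw [map_mul, Matrix.GeneralLinearGroup.coe_mul, Matrix.map_mul]⟩
  · refine Set.infinite_range_of_injective fun m n h => ?_
    have h1 : k₀ * m = k₀ * n := by exact_mod_cast h
    exact Nat.eq_of_mul_eq_mul_left hk₀ h1
  · rintro _ ⟨n, rfl⟩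
    apply subset_zar
    refine ⟨g ^ (k₀ * n), ?_, (hmap _).symm⟩
    rw [pow_mul]
    exact H.pow_mem hk₀' n

theorem bad_of {l : ℕ} [Fact l.Prime] (ρ : G →* Matrix.GeneralLinearGroup ι ℚ_[l])
    {M : Type*} [Field M] (e : Matrix ι ι M)
    (h : ∃ g : G, ((ρ g).1 - 1) * ((ρ g).1 - 1) = 0 ∧ ∀ i : M →+* AlgebraicClosure ℚ_[l],
      ((ρ g).1.map (algebraMap ℚ_[l] (AlgebraicClosure ℚ_[l])) - 1) * e.map i ≠ 0) :
    ∃ X : Matrix ι ι ℚ_[l], X * X = 0 ∧
      (∀ H : Subgroup G, H.FiniteIndex → X.map (algebraMap ℚ_[l] (AlgebraicClosure ℚ_[l])) ∈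
        zlie (img (AlgebraicClosure ℚ_[l]) ρ H)) ∧
      ∀ i : M →+* AlgebraicClosure ℚ_[l],
        X.map (algebraMap ℚ_[l] (AlgebraicClosure ℚ_[l])) * e.map i ≠ 0 := by
  obtain ⟨g, hg, hne⟩ := h
  refine ⟨(ρ g).1 - 1, hg, fun H hH => bad_mem ρ hg H hH, fun i => ?_⟩
  have h1 : ((ρ g).1 - 1).map (algebraMap ℚ_[l] (AlgebraicClosure ℚ_[l])) =
      (ρ g).1.map (algebraMap ℚ_[l] (AlgebraicClosure ℚ_[l])) - 1 := by
    rw [Matrix.map_sub _ (by intros; exact map_sub _ _ _), Matrix.map_one _ (map_zero _) (map_one _)]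
  rw [h1]
  exact hne i

end Pool.Agent.H76W
end
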