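import Pool.Agent.Lib.H1M.RC.M022

/-!
# Independent roots of a rational polynomial
-/

set_option autoImplicit false
set_option linter.unusedSectionVars false
namespace Pool.Agent.H53Toric
open Module Matrix Polynomial

/-- The matrix `x` is diagonalisable. -/
def Diagonalisable {ι : Type*} [Fintype ι] [DecidableEq ι] {K : Type*} [Field K]
    (x : Matrix ι ι K) : Prop :=
  ∃ (P Q : Matrix ι ι K) (d : ι → K), P * Q = 1 ∧ Q * P = 1 ∧ x = P * Matrix.diagonal d * Q



end Pool.Agent.H53Toric
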