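import Pool.Agent.Lib.H1M.RC.D_H53Toric_Defs
import Pool.Agent.Lib.H1M.RC.D_H76RM_Defs

/-!
# Definitions: splitting idempotents with involution, the group attached to Hodge types
-/

set_option autoImplicit false

namespace Pool.Agent.H76U

open Matrix Pool.Agent.H76RM

variable {ι : Type*} [Fintype ι] [DecidableEq ι]

/-- `e 0, e 1, ...` are primitive idempotents of `D ⊗ K`, one in each simple factor of `D ⊗ K`,
and the adjoint of `e b` is `e (bar b)`: `ψ(e b x, y) = ψ(x, e (bar b) y)`. -/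
structure IsSplitting {K : Type*} [Field K] [Algebra ℚ K] (D : Subalgebra ℚ (Matrix ι ι ℚ))
    (ψ : Matrix ι ι ℚ) {m : ℕ} (bar : Fin m → Fin m) (e : Fin m → Matrix ι ι K) : Prop where
  mem : ∀ b, e b ∈ spanK K D
  idem : ∀ b, e b * e b = e b
  ne_zero : ∀ b, e b ≠ 0
  barbar : ∀ b, bar (bar b) = b
  adj : ∀ b, (e b)ᵀ * ψ.map (algebraMap ℚ K) = ψ.map (algebraMap ℚ K) * e (bar b)
  corner : ∀ b, ∀ x ∈ spanK K D, ∃ c : K, e b * x * e b = c • e b
  orth : ∀ b c, b ≠ c → ∀ x ∈ spanK K D, e b * x * e c = 0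
  full : ∀ v : ι → K, v ∈ Submodule.span K {w | ∃ x ∈ spanK K D, ∃ b, ∃ u : ι → K,
    w = x *ᵥ (e b *ᵥ u)}

/-- The `K`-points of the group attached to a set `Σ` of vectors `n` of natural numbers (the
Hodge types): the invertible matrices `x` that commute with `D`, are symplectic similitudes of
`ψ`, with multiplier `c` say, and satisfy `∏ b, det(x | e b V) ^ (a b) * c ^ a₀ = 1` for all
integers `a b`, `a₀` such that `∑ b, a b * n b + a₀ = 0` for all `n` in `Σ`. -/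
def typeGrp (K : Type*) [Field K] [Algebra ℚ K] (ψ : Matrix ι ι ℚ)
    (D : Subalgebra ℚ (Matrix ι ι ℚ)) {m : ℕ} (e : Fin m → Matrix ι ι K)
    (sig : Set (Fin m → ℕ)) : Set (Matrix ι ι K) :=
  {x | x ∈ similD K ψ D ∧ ∀ (a : Fin m → ℤ) (a₀ : ℤ),
    (∀ n ∈ sig, ∑ b, a b * (n b : ℤ) + a₀ = 0) →
    ∀ c : K, xᵀ * ψ.map (algebraMap ℚ K) * x = c • ψ.map (algebraMap ℚ K) →
      (∏ b, (1 - e b + x * e b).det ^ a b) * c ^ a₀ = 1}

end Pool.Agent.H76U
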