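import Pool.Agent.Lib.H1M.RC.D_H49M_BDefs
import Pool.Agent.Lib.H1M.RC.D_H53Toric_Weil
import Pool.Agent.Lib.H1M.RC.D_H76U_Defs
import Pool.Agent.Lib.H1M.RC.M016
import Pool.Agent.Lib.H1M.RC.M020
import Pool.Agent.Lib.H1M.RC.M022

/-! Merged copies (to shorten the build) of Lib.H49M.A4, Lib.H49M.R1, Lib.H49M.B5, Lib.H49M.B8, Lib.H49M.B9, Lib.H49M.C0, Lib.H49M.P1, Lib.H49M.K6, Lib.H49M.C3, Lib.H76U.Conj. -/

-- from Lib.H49M.A4
section

/-!
# A4: existence of frames
-/

set_option autoImplicit false
set_option linter.unusedSectionVars false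
namespace Pool.Agent.H49M
open Module Pool.Agent.H53Toric Polynomial

variable {K : Type*} [Field K] {V : Type*} [AddCommGroup V] [Module K V]

variable {L : Submodule K (Module.End K V)} {ω : V →ₗ[K] V →ₗ[K] K}
  {adj : Module.End K V →ₗ[K] Module.End K V}

theorem A4_ext_aux [IsAlgClosed K] [CharZero K] [FiniteDimensional K V] [Nontrivial V]
    {g : Submodule K (Module.End K V)} (hg : IsLie g) (hirr : Irr g)
    (htr : ∀ X ∈ g, LinearMap.trace K V X = 0) (n : ℕ) :
    ∀ N ∈ g, N * N = 0 → finrank K (LinearMap.range N) = n → N ≠ 0 →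
    ∃ N' ∈ g, N' * N' = 0 ∧ N' ≠ 0 ∧ finrank K (LinearMap.range N') ≤ n ∧
      ∀ X ∈ g, ∃ c : K, N' * X * N' = c • N' := by
  induction n using Nat.strong_induction_on with
  | _ n ih =>
  intro N hN hN2 hrk hN0
  obtain ⟨M, hM, hNMN⟩ := exists_partner hg hirr htr hN hN2
  have hee : (N * M) * (N * M) = N * M := by
    calc (N * M) * (N * M) = (N * M * N) * M := by noncomm_ring
      _ = N * M := by rw [hNMN]
  have heJ : N * M ∈ JJ g N (N * M) := ⟨hee, hee, by rw [hNMN]; exact hN⟩
  have he0 : N * M ≠ 0 := by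
    intro h
    rw [h, zero_mul] at hNMN
    exact hN0 hNMN.symm
  have hrkN : finrank K (LinearMap.range (N * M)) = n := by
    rw [← hrk]
    exact rank_eq_of_dvd (a := N * M) (b := N) rfl hNMN.symm
  by_cases hf : ∃ f ∈ JJ g N (N * M), f * f = f ∧ f ≠ 0 ∧ f ≠ N * M
  · obtain ⟨f, hfJ, hff, hf0, hfe⟩ := hf
    -- both parts
    have hpart : ∀ f ∈ JJ g N (N * M), f * f = f →
        (f * N) * (f * N) = 0 ∧ (finrank K (LinearMap.range (f * N)) : K) =
          LinearMap.trace K V f := by
      intro f hfJ hff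
      refine ⟨?_, ?_⟩
      · calc (f * N) * (f * N) = f * (N * f) * N := by noncomm_ring
          _ = 0 := by rw [JJ_N_mul hN2 hfJ, mul_zero, zero_mul]
      · rw [trace_idem hff]
        congr 1
        apply rank_eq_of_dvd (c := N) (d := M) rfl
        rw [mul_assoc, hfJ.2.1]
    have hf'J : N * M - f ∈ JJ g N (N * M) := (JJ g N (N * M)).sub_mem heJ hfJ
    have hff' : (N * M - f) * (N * M - f) = N * M - f := by
      have : (N * M - f) * (N * M - f) = (N * M) * (N * M) - (N * M) * f - f * (N * M) + f * f := by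
        noncomm_ring
      rw [this, hee, hfJ.1, hfJ.2.1, hff]
      abel
    obtain ⟨h1, h2⟩ := hpart f hfJ hff
    obtain ⟨h3, h4⟩ := hpart _ hf'J hff'
    have hsum : (finrank K (LinearMap.range (f * N)) : K) +
        (finrank K (LinearMap.range ((N * M - f) * N)) : K) = (n : K) := by
      rw [h2, h4, ← map_add, add_sub_cancel, trace_idem hee, hrkN]
    have hsum' : finrank K (LinearMap.range (f * N)) +
        finrank K (LinearMap.range ((N * M - f) * N)) = n := by
      exact_mod_cast hsum
    have hne : ∀ f ∈ JJ g N (N * M), f ≠ 0 → 0 < finrank K (LinearMap.range (f * N)) := by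
      intro f hfJ hf0
      rw [Nat.pos_iff_ne_zero]
      intro h
      have h0 := LinearMap.range_eq_bot.1 (Submodule.finrank_eq_zero.1 h)
      apply hf0
      rw [← hfJ.2.1, ← mul_assoc, h0, zero_mul]
    have hp1 := hne f hfJ hf0
    have hp2 := hne _ hf'J (by
      intro h
      exact hfe (sub_eq_zero.1 h).symm)
    have hfN : f * N ≠ 0 := by
      intro h0
      rw [h0, LinearMap.range_zero, finrank_bot] at hp1
      exact lt_irrefl 0 hp1
    obtain ⟨N', a1, a2, a3, a4, a5⟩ := ih _ (by omega) _ hfJ.2.2 h1 rfl hfN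
    exact ⟨N', a1, a2, a3, a4.trans (by omega), a5⟩
  · -- extremal case
    refine ⟨N, hN, hN2, hN0, hrk.le, ?_⟩
    have hall : ∀ a ∈ JJ g N (N * M), ∃ t : K, IsNilpotent (a - t • (N * M)) := by
      intro a ha
      -- an eigenvalue on the range of e
      let W : Submodule K V := LinearMap.range (N * M)
      have hW : W ≠ ⊥ := by
        intro h
        exact he0 (LinearMap.range_eq_bot.1 h)
      have haW : ∀ x ∈ W, a x ∈ W := by
        intro x _
        refine ⟨a x, ?_⟩
        change (N * M * a) x = a x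
        rw [ha.1]
      have : Nontrivial W := Submodule.nontrivial_iff_ne_bot.2 hW
      obtain ⟨t, ht⟩ := Module.End.exists_eigenvalue (a.restrict haW)
      obtain ⟨u, hu⟩ := ht.exists_hasEigenvector
      have hu1 : a u.1 = t • u.1 := by
        have := hu.apply_eq_smul
        exact congrArg Subtype.val this
      have hu0 : u.1 ≠ 0 := by
        intro h
        exact hu.2 (Subtype.ext h)
      have heu : (N * M) u.1 = u.1 := by
        obtain ⟨v, hv⟩ := u.2
        rw [← hv]
        change (N * M * (N * M)) v = (N * M) v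
        rw [hee]
      refine ⟨t, ?_⟩
      by_contra hnn
      have hb : a - t • (N * M) ∈ JJ g N (N * M) :=
        (JJ g N (N * M)).sub_mem ha ((JJ g N (N * M)).smul_mem t heJ)
      set b := a - t • (N * M) with hbdef
      have hbu : b u.1 = 0 := by
        rw [hbdef, LinearMap.sub_apply, LinearMap.smul_apply, heu, hu1, sub_self]
      obtain ⟨p, k, hp1, hp2⟩ := fitting b
      apply hf
      refine ⟨aeval b (X * p), JJ_aeval hg hM hN2 hb p, hp1, ?_, ?_⟩
      · intro h
        apply hnn
        refine ⟨k, ?_⟩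
        rw [← hp2, h, mul_zero]
      · intro h
        have h1 : (aeval b (X * p)) u.1 = 0 := by
          rw [mul_comm, map_mul, aeval_X]
          change (aeval b p) (b u.1) = 0
          rw [hbu, map_zero]
        rw [h, heu] at h1
        exact hu0 h1
    intro X hX
    obtain ⟨t, ht⟩ := JJ_scalar hirr htr hN0 hg hN hM hN2 hNMN hall _
      (JJ_of_mem hg hN hN2 hNMN hX)
    refine ⟨t, ?_⟩
    calc N * X * N = N * X * (N * M * N) := by rw [hNMN]
      _ = (N * X * N * M) * N := by noncomm_ring
      _ = t • N := by rw [ht, smul_mul_assoc, hNMN]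

/-- Chunk A4. Reduction to an extremal element, not increasing the rank. Copy the proof of
`exists_extremal` (H53Toric.Core2), dropping the parity: strong induction on the rank; in the
first case one of the two nonzero parts `f N`, `(e - f) N` has smaller rank (both ranks are
positive and add up to the rank of `N`). -/
theorem A4_extremal [IsAlgClosed K] [CharZero K] [FiniteDimensional K V] [Nontrivial V]
    {g : Submodule K (Module.End K V)} (hg : IsLie g) (hirr : Irr g)
    (htr : ∀ X ∈ g, LinearMap.trace K V X = 0) {N : Module.End K V} (hN : N ∈ g)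
    (hN2 : N * N = 0) (hN0 : N ≠ 0) :
    ∃ N' ∈ g, N' * N' = 0 ∧ N' ≠ 0 ∧
      finrank K (LinearMap.range N') ≤ finrank K (LinearMap.range N) ∧
      ∀ X ∈ g, ∃ c : K, N' * X * N' = c • N' := by
  exact A4_ext_aux hg hirr htr _ N hN hN2 rfl hN0

theorem A4_frame_aux [IsAlgClosed K] [CharZero K] [FiniteDimensional K V] [Nontrivial V]
    {g : Submodule K (Module.End K V)}
    {adj : Module.End K V →ₗ[K] Module.End K V} (h : Setup g adj) {N : Module.End K V}
    (hN : N ∈ g) (hN2 : N * N = 0) (hN0 : N ≠ 0)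
    (hext : ∀ X ∈ g, ∃ c : K, N * X * N = c • N) :
    ∃ y N' M : Module.End K V, y ∈ g ∧ y * y = 1 ∧ N' ∈ g ∧ M ∈ g ∧ y * N' = N' ∧ N' * y = -N' ∧
      y * M = -M ∧ M * y = M ∧ N' * N' = 0 ∧ M * M = 0 ∧ N' * M * N' = N' ∧ M * N' * M = M ∧
      finrank K (LinearMap.range N') = finrank K (LinearMap.range N) ∧
      (∀ X ∈ g, ∃ c : K, N' * X * N' = c • N') := by
  -- an involution which does not commute with N
  have hy : ∃ y ∈ g, y * y = 1 ∧ ∃ c : K, c ≠ 0 ∧ N * y * N = c • N := by
    by_contra hcon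
    push Not at hcon
    obtain ⟨X, hX, hNX⟩ := exists_partner h.lie h.irr h.tr hN hN2
    have key : ∀ X ∈ Submodule.span K {y | y ∈ g ∧ y * y = 1}, N * X * N = 0 := by
      intro X hX
      induction hX using Submodule.span_induction with
      | mem y hy =>
        obtain ⟨c, hc⟩ := hext y hy.1
        by_cases h0 : c = 0
        · rw [hc, h0, zero_smul]
        · exact absurd hc (hcon y hy.1 hy.2 c h0)
      | zero => simp
      | add a b _ _ ha hb => rw [mul_add, add_mul, ha, hb, add_zero]
      | smul c a _ ha => rw [mul_smul_comm, smul_mul_assoc, ha, smul_zero]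
    have := key X (h.span hX)
    rw [this] at hNX
    exact hN0 hNX.symm
  obtain ⟨y, hyg, hy2, c, hc0, hNy⟩ := hy
  set N₁ := (1 + y) * N * (1 - y) with hN₁
  have hN₁g : N₁ ∈ g := h.lie.plus hyg hy2 hN
  have hyN : y * N₁ = N₁ := by
    calc y * N₁ = (y + y * y) * N * (1 - y) := by rw [hN₁]; noncomm_ring
      _ = N₁ := by rw [hy2, hN₁, add_comm]
  have hNy' : N₁ * y = -N₁ := by
    calc N₁ * y = (1 + y) * N * (y - y * y) := by rw [hN₁]; noncomm_ring
      _ = -N₁ := by rw [hy2, hN₁]; noncomm_ring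
  have hN₁2 : N₁ * N₁ = 0 := by
    calc N₁ * N₁ = (1 + y) * N * (1 - y * y) * N * (1 - y) := by rw [hN₁]; noncomm_ring
      _ = 0 := by rw [hy2, sub_self, mul_zero, zero_mul, zero_mul]
  have hext₁ : ∀ X ∈ g, ∃ c : K, N₁ * X * N₁ = c • N₁ := by
    intro X hX
    obtain ⟨d, hd⟩ := hext _ (h.lie.minus hyg hy2 hX)
    refine ⟨d, ?_⟩
    calc N₁ * X * N₁ = (1 + y) * (N * ((1 - y) * X * (1 + y)) * N) * (1 - y) := by
          rw [hN₁]; noncomm_ring
      _ = d • N₁ := by rw [hd, mul_smul_comm, smul_mul_assoc, hN₁]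
  have hNNN : N * N₁ * N = (-(c * c)) • N := by
    calc N * N₁ * N = (N * N + N * y * N) * (N - y * N) := by rw [hN₁]; noncomm_ring
      _ = (c • N) * (N - y * N) := by rw [hN2, zero_add, hNy]
      _ = c • (N * N - N * y * N) := by rw [smul_mul_assoc]; congr 1; noncomm_ring
      _ = (-(c * c)) • N := by rw [hN2, hNy, zero_sub, smul_neg, smul_smul, neg_smul]
  have hrk : finrank K (LinearMap.range N₁) = finrank K (LinearMap.range N) := by
    apply le_antisymm
    · calc finrank K (LinearMap.range N₁) ≤ finrank K (LinearMap.range ((1 + y) * N)) :=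
            finrank_range_mul_le_left _ _
        _ ≤ _ := finrank_range_mul_le_right _ _
    · have e : N = N * N₁ * ((-(c * c))⁻¹ • N) := by
        rw [mul_smul_comm, hNNN, smul_smul, inv_mul_cancel₀, one_smul]
        exact neg_ne_zero.2 (mul_ne_zero hc0 hc0)
      calc finrank K (LinearMap.range N) = finrank K (LinearMap.range
            (N * N₁ * ((-(c * c))⁻¹ • N))) := by rw [← e]
        _ ≤ finrank K (LinearMap.range (N * N₁)) := finrank_range_mul_le_left _ _
        _ ≤ _ := finrank_range_mul_le_right _ _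
  obtain ⟨X, hX, hNX⟩ := exists_partner h.lie h.irr h.tr hN₁g hN₁2
  set M₁ := (1 / 4 : K) • ((1 - y) * X * (1 + y)) with hM₁
  have hM₁g : M₁ ∈ g := g.smul_mem _ (h.lie.minus hyg hy2 hX)
  have hyM : y * M₁ = -M₁ := by
    rw [hM₁, mul_smul_comm, ← smul_neg]
    congr 1
    calc y * ((1 - y) * X * (1 + y)) = (y - y * y) * X * (1 + y) := by noncomm_ring
      _ = _ := by rw [hy2]; noncomm_ring
  have hMy : M₁ * y = M₁ := by
    rw [hM₁, smul_mul_assoc]
    congr 1
    calc (1 - y) * X * (1 + y) * y = (1 - y) * X * (y + y * y) := by noncomm_ring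
      _ = _ := by rw [hy2, add_comm]
  have hM₁2 : M₁ * M₁ = 0 := by
    have h1 : M₁ * (y * M₁) = M₁ * M₁ := by rw [← mul_assoc, hMy]
    rw [hyM, mul_neg] at h1
    have h2 : (2 : K) • (M₁ * M₁) = 0 := by
      rw [two_smul]
      nth_rw 1 [← h1]
      simp
    exact (smul_eq_zero.1 h2).resolve_left (by norm_num)
  have hNMN : N₁ * M₁ * N₁ = N₁ := by
    have h1 : N₁ * (1 - y) = (2 : K) • N₁ := by
      rw [mul_sub, hNy', mul_one, two_smul]; abel
    have h2 : (1 + y) * N₁ = (2 : K) • N₁ := by
      rw [add_mul, hyN, one_mul, two_smul]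
    calc N₁ * M₁ * N₁ = (1 / 4 : K) • ((N₁ * (1 - y)) * X * ((1 + y) * N₁)) := by
          rw [hM₁, mul_smul_comm, smul_mul_assoc]; congr 1
      _ = N₁ := by
          rw [h1, h2, smul_mul_assoc, smul_mul_assoc, mul_smul_comm, smul_smul, smul_smul, hNX]
          norm_num
  refine ⟨y, N₁, M₁ * N₁ * M₁, hyg, hy2, hN₁g, h.lie.sandwich hM₁g hM₁2 hN₁g, hyN, hNy',
    ?_, ?_, hN₁2, ?_, ?_, ?_, hrk, hext₁⟩
  · rw [← mul_assoc, ← mul_assoc, hyM]; noncomm_ring
  · rw [mul_assoc, hMy]
  · calc M₁ * N₁ * M₁ * (M₁ * N₁ * M₁) = M₁ * N₁ * (M₁ * M₁) * N₁ * M₁ := by noncomm_ring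
      _ = 0 := by rw [hM₁2]; simp
  · calc N₁ * (M₁ * N₁ * M₁) * N₁ = (N₁ * M₁ * N₁) * M₁ * N₁ := by noncomm_ring
      _ = N₁ := by rw [hNMN, hNMN]
  · calc M₁ * N₁ * M₁ * N₁ * (M₁ * N₁ * M₁) = M₁ * ((N₁ * M₁ * N₁) * M₁ * N₁) * M₁ := by
          noncomm_ring
      _ = _ := by rw [hNMN, hNMN]


end Pool.Agent.H49M
end

-- from Lib.H49M.R1
section

/-!
# R1: the rank of a square zero operator is a multiple of the extremal rank
-/

set_option autoImplicit false
set_option linter.unusedSectionVars false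
namespace Pool.Agent.H49M
open Module Pool.Agent.H53Toric Polynomial

variable {K : Type*} [Field K] {V : Type*} [AddCommGroup V] [Module K V]

/-- If all extremal elements have rank `r`, all square zero elements have rank a multiple of `r`. -/
theorem R1_sum [IsAlgClosed K] [CharZero K] [FiniteDimensional K V] [Nontrivial V]
    {g : Submodule K (Module.End K V)} (hg : IsLie g) (hirr : Irr g)
    (htr : ∀ X ∈ g, LinearMap.trace K V X = 0) {r : ℕ}
    (hr : ∀ N ∈ g, N * N = 0 → N ≠ 0 → (∀ X ∈ g, ∃ c : K, N * X * N = c • N) →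
      finrank K (LinearMap.range N) = r) (n : ℕ) :
    ∀ N ∈ g, N * N = 0 → finrank K (LinearMap.range N) = n → N ≠ 0 →
    ∃ c : ℕ, 1 ≤ c ∧ n = c * r := by
  induction n using Nat.strong_induction_on with
  | _ n ih =>
  intro N hN hN2 hrk hN0
  obtain ⟨M, hM, hNMN⟩ := exists_partner hg hirr htr hN hN2
  have hee : (N * M) * (N * M) = N * M := by
    calc (N * M) * (N * M) = (N * M * N) * M := by noncomm_ring
      _ = N * M := by rw [hNMN]
  have heJ : N * M ∈ JJ g N (N * M) := ⟨hee, hee, by rw [hNMN]; exact hN⟩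
  have he0 : N * M ≠ 0 := by
    intro h
    rw [h, zero_mul] at hNMN
    exact hN0 hNMN.symm
  have hrkN : finrank K (LinearMap.range (N * M)) = n := by
    rw [← hrk]
    exact rank_eq_of_dvd (a := N * M) (b := N) rfl hNMN.symm
  by_cases hf : ∃ f ∈ JJ g N (N * M), f * f = f ∧ f ≠ 0 ∧ f ≠ N * M
  · obtain ⟨f, hfJ, hff, hf0, hfe⟩ := hf
    -- both parts
    have hpart : ∀ f ∈ JJ g N (N * M), f * f = f →
        (f * N) * (f * N) = 0 ∧ (finrank K (LinearMap.range (f * N)) : K) =
          LinearMap.trace K V f := by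
      intro f hfJ hff
      refine ⟨?_, ?_⟩
      · calc (f * N) * (f * N) = f * (N * f) * N := by noncomm_ring
          _ = 0 := by rw [JJ_N_mul hN2 hfJ, mul_zero, zero_mul]
      · rw [trace_idem hff]
        congr 1
        apply rank_eq_of_dvd (c := N) (d := M) rfl
        rw [mul_assoc, hfJ.2.1]
    have hf'J : N * M - f ∈ JJ g N (N * M) := (JJ g N (N * M)).sub_mem heJ hfJ
    have hff' : (N * M - f) * (N * M - f) = N * M - f := by
      have : (N * M - f) * (N * M - f) = (N * M) * (N * M) - (N * M) * f - f * (N * M) + f * f := by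
        noncomm_ring
      rw [this, hee, hfJ.1, hfJ.2.1, hff]
      abel
    obtain ⟨h1, h2⟩ := hpart f hfJ hff
    obtain ⟨h3, h4⟩ := hpart _ hf'J hff'
    have hsum : (finrank K (LinearMap.range (f * N)) : K) +
        (finrank K (LinearMap.range ((N * M - f) * N)) : K) = (n : K) := by
      rw [h2, h4, ← map_add, add_sub_cancel, trace_idem hee, hrkN]
    have hsum' : finrank K (LinearMap.range (f * N)) +
        finrank K (LinearMap.range ((N * M - f) * N)) = n := by
      exact_mod_cast hsum
    have hne : ∀ f ∈ JJ g N (N * M), f ≠ 0 → 0 < finrank K (LinearMap.range (f * N)) := by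
      intro f hfJ hf0
      rw [Nat.pos_iff_ne_zero]
      intro h
      have h0 := LinearMap.range_eq_bot.1 (Submodule.finrank_eq_zero.1 h)
      apply hf0
      rw [← hfJ.2.1, ← mul_assoc, h0, zero_mul]
    have hp1 := hne f hfJ hf0
    have hp2 := hne _ hf'J (by
      intro h
      exact hfe (sub_eq_zero.1 h).symm)
    have hfN : f * N ≠ 0 := by
      intro h0
      rw [h0, LinearMap.range_zero, finrank_bot] at hp1
      exact lt_irrefl 0 hp1
    have hfN' : (N * M - f) * N ≠ 0 := by
      intro h0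
      rw [h0, LinearMap.range_zero, finrank_bot] at hp2
      exact lt_irrefl 0 hp2
    obtain ⟨c₁, a1, a2⟩ := ih _ (by omega) _ hfJ.2.2 h1 rfl hfN
    obtain ⟨c₂, b1, b2⟩ := ih _ (by omega) _ hf'J.2.2 h3 rfl hfN'
    exact ⟨c₁ + c₂, by omega, by rw [← hsum', a2, b2, add_mul]⟩
  · -- extremal case
    refine ⟨1, le_rfl, ?_⟩
    rw [one_mul, ← hrk]
    refine hr N hN hN2 hN0 ?_
    have hall : ∀ a ∈ JJ g N (N * M), ∃ t : K, IsNilpotent (a - t • (N * M)) := by
      intro a ha
      -- an eigenvalue on the range of e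
      let W : Submodule K V := LinearMap.range (N * M)
      have hW : W ≠ ⊥ := by
        intro h
        exact he0 (LinearMap.range_eq_bot.1 h)
      have haW : ∀ x ∈ W, a x ∈ W := by
        intro x _
        refine ⟨a x, ?_⟩
        change (N * M * a) x = a x
        rw [ha.1]
      have : Nontrivial W := Submodule.nontrivial_iff_ne_bot.2 hW
      obtain ⟨t, ht⟩ := Module.End.exists_eigenvalue (a.restrict haW)
      obtain ⟨u, hu⟩ := ht.exists_hasEigenvector
      have hu1 : a u.1 = t • u.1 := by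
        have := hu.apply_eq_smul
        exact congrArg Subtype.val this
      have hu0 : u.1 ≠ 0 := by
        intro h
        exact hu.2 (Subtype.ext h)
      have heu : (N * M) u.1 = u.1 := by
        obtain ⟨v, hv⟩ := u.2
        rw [← hv]
        change (N * M * (N * M)) v = (N * M) v
        rw [hee]
      refine ⟨t, ?_⟩
      by_contra hnn
      have hb : a - t • (N * M) ∈ JJ g N (N * M) :=
        (JJ g N (N * M)).sub_mem ha ((JJ g N (N * M)).smul_mem t heJ)
      set b := a - t • (N * M) with hbdef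
      have hbu : b u.1 = 0 := by
        rw [hbdef, LinearMap.sub_apply, LinearMap.smul_apply, heu, hu1, sub_self]
      obtain ⟨p, k, hp1, hp2⟩ := fitting b
      apply hf
      refine ⟨aeval b (X * p), JJ_aeval hg hM hN2 hb p, hp1, ?_, ?_⟩
      · intro h
        apply hnn
        refine ⟨k, ?_⟩
        rw [← hp2, h, mul_zero]
      · intro h
        have h1 : (aeval b (X * p)) u.1 = 0 := by
          rw [mul_comm, map_mul, aeval_X]
          change (aeval b p) (b u.1) = 0
          rw [hbu, map_zero]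
        rw [h, heu] at h1
        exact hu0 h1
    intro X hX
    obtain ⟨t, ht⟩ := JJ_scalar hirr htr hN0 hg hN hM hN2 hNMN hall _
      (JJ_of_mem hg hN hN2 hNMN hX)
    refine ⟨t, ?_⟩
    calc N * X * N = N * X * (N * M * N) := by rw [hNMN]
      _ = (N * X * N * M) * N := by noncomm_ring
      _ = t • N := by rw [ht, smul_mul_assoc, hNMN]

/-- A square zero operator has rank at most half of the dimension. -/
theorem R1_half [FiniteDimensional K V] {N : Module.End K V} (hN : N * N = 0) :
    2 * finrank K (LinearMap.range N) ≤ finrank K V := by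
  have h1 := LinearMap.finrank_range_add_finrank_ker N
  have h2 : LinearMap.range N ≤ LinearMap.ker N := by
    rintro _ ⟨v, rfl⟩
    rw [LinearMap.mem_ker, ← Module.End.mul_apply, hN, LinearMap.zero_apply]
  have h3 := Submodule.finrank_mono h2
  omega

end Pool.Agent.H49M
end

-- from Lib.H49M.B5
section

/-!
# B5: a quadratic element lives in one factor
-/

set_option autoImplicit false
set_option linter.unusedSectionVars false
namespace Pool.Agent.H49M
open Module Matrix Polynomial Pool.Agent.H53Toric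

variable {ι : Type*} [Fintype ι] [DecidableEq ι]

variable {K : Type*} [Field K]

theorem B5a_comm {I₁ I₂ : Submodule K (Matrix ι ι K)}
    (hcomm : ∀ X ∈ I₁, ∀ Y ∈ I₂, X * Y = Y * X) {x y : Matrix ι ι K}
    (hx : x ∈ Algebra.adjoin K (I₁ : Set (Matrix ι ι K)))
    (hy : y ∈ Algebra.adjoin K (I₂ : Set (Matrix ι ι K))) : x * y = y * x := by
  have h1 : Algebra.adjoin K (I₂ : Set (Matrix ι ι K)) ≤
      Subalgebra.centralizer K (I₁ : Set (Matrix ι ι K)) := by
    refine Algebra.adjoin_le fun Y hY => ?_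
    rw [SetLike.mem_coe, Subalgebra.mem_centralizer_iff]
    exact fun X hX => hcomm X hX Y hY
  have h2 : Algebra.adjoin K (I₁ : Set (Matrix ι ι K)) ≤
      Subalgebra.centralizer K (Algebra.adjoin K (I₂ : Set (Matrix ι ι K)) : Set (Matrix ι ι K)) := by
    refine Algebra.adjoin_le fun X hX => ?_
    rw [SetLike.mem_coe, Subalgebra.mem_centralizer_iff]
    intro Y hY
    have := h1 hY
    rw [Subalgebra.mem_centralizer_iff] at this
    exact (this X hX).symm
  have h3 := h2 hx
  rw [Subalgebra.mem_centralizer_iff] at h3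
  exact (h3 y hy).symm

theorem B5a_prime {I₁ I₂ : Submodule K (Matrix ι ι K)}
    (hcomm : ∀ X ∈ I₁, ∀ Y ∈ I₂, X * Y = Y * X)
    (hfull : Algebra.adjoin K ((I₁ : Set (Matrix ι ι K)) ∪ I₂) = ⊤) {a b : Matrix ι ι K}
    (ha : a ∈ Algebra.adjoin K (I₁ : Set (Matrix ι ι K)))
    (hb : b ∈ Algebra.adjoin K (I₂ : Set (Matrix ι ι K))) (hab : a * b = 0) :
    a = 0 ∨ b = 0 := by
  have hc := fun (x : Matrix ι ι K) (hx : x ∈ Algebra.adjoin K (I₁ : Set (Matrix ι ι K)))
    (y : Matrix ι ι K) (hy : y ∈ Algebra.adjoin K (I₂ : Set (Matrix ι ι K))) =>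
    B5a_comm hcomm hx hy
  have key : ∀ M : Matrix ι ι K, ∀ N : Matrix ι ι K,
      (∀ x ∈ Algebra.adjoin K (I₁ : Set (Matrix ι ι K)),
        ∀ y ∈ Algebra.adjoin K (I₂ : Set (Matrix ι ι K)), a * (N * x * y) * b = 0) →
      (∀ x ∈ Algebra.adjoin K (I₁ : Set (Matrix ι ι K)),
        ∀ y ∈ Algebra.adjoin K (I₂ : Set (Matrix ι ι K)), a * (N * M * x * y) * b = 0) := by
    intro M
    have hM : M ∈ Algebra.adjoin K ((I₁ : Set (Matrix ι ι K)) ∪ I₂) := by rw [hfull]; trivial
    induction hM using Algebra.adjoin_induction with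
    | mem z hz =>
      rcases hz with hz | hz
      · intro N hN x hx y hy
        have h1 := hN (z * x) (Subalgebra.mul_mem _ (Algebra.subset_adjoin hz) hx) y hy
        rwa [← mul_assoc N z x] at h1
      · intro N hN x hx y hy
        have h1 := hN x hx (z * y) (Subalgebra.mul_mem _ (Algebra.subset_adjoin hz) hy)
        have h2 := hc x hx z (Algebra.subset_adjoin hz)
        calc a * (N * z * x * y) * b = a * (N * (z * x) * y) * b := by noncomm_ring
          _ = a * (N * x * (z * y)) * b := by rw [← h2]; noncomm_ring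
          _ = 0 := h1
    | algebraMap r =>
      intro N hN x hx y hy
      have h1 := hN x hx y hy
      rw [Algebra.algebraMap_eq_smul_one, mul_smul_comm, mul_one, smul_mul_assoc, smul_mul_assoc,
        mul_smul_comm, smul_mul_assoc, h1, smul_zero]
    | add M M' _ _ h1 h2 =>
      intro N hN x hx y hy
      have e : a * (N * (M + M') * x * y) * b = a * (N * M * x * y) * b +
          a * (N * M' * x * y) * b := by noncomm_ring
      rw [e, h1 N hN x hx y hy, h2 N hN x hx y hy, add_zero]
    | mul M M' _ _ h1 h2 =>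
      intro N hN x hx y hy
      rw [← mul_assoc N M M']
      exact h2 (N * M) (h1 N hN) x hx y hy
  have hall : ∀ M : Matrix ι ι K, a * M * b = 0 := by
    intro M
    have h1 := key M 1 (by
      intro x hx y hy
      calc a * (1 * x * y) * b = a * x * y * b := by noncomm_ring
        _ = y * (a * x) * b := by rw [hc (a * x) (Subalgebra.mul_mem _ ha hx) y hy]
        _ = y * a * (x * b) := by noncomm_ring
        _ = y * (a * b) * x := by rw [hc x hx b hb]; noncomm_ring
        _ = 0 := by rw [hab, mul_zero, zero_mul]) 1 (Subalgebra.one_mem _) 1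
      (Subalgebra.one_mem _)
    rwa [one_mul, mul_one, mul_one] at h1
  by_contra hcon
  push Not at hcon
  obtain ⟨ha0, hb0⟩ := hcon
  obtain ⟨i, j, hij⟩ : ∃ i j, a i j ≠ 0 := by
    by_contra h1
    push Not at h1
    exact ha0 (Matrix.ext h1)
  obtain ⟨k, l, hkl⟩ : ∃ i j, b i j ≠ 0 := by
    by_contra h1
    push Not at h1
    exact hb0 (Matrix.ext h1)
  have h1 := congrFun (congrFun (hall (Matrix.single j k 1)) i) l
  rw [Matrix.mul_assoc, Matrix.mul_apply] at h1
  rw [Finset.sum_eq_single j] at h1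
  · rw [Matrix.single_mul_apply_same, one_mul, Matrix.zero_apply] at h1
    exact mul_ne_zero hij hkl h1
  · intro m _ hm
    rw [Matrix.single_mul_apply_of_ne _ _ _ _ _ hm, mul_zero]
  · intro h2
    exact absurd (Finset.mem_univ j) h2

theorem B5a_scalar {I₁ I₂ : Submodule K (Matrix ι ι K)}
    (hfull : Algebra.adjoin K ((I₁ : Set (Matrix ι ι K)) ∪ I₂) = ⊤) {Y : Matrix ι ι K}
    (h1 : ∀ X ∈ I₁, X * Y = Y * X) (h2 : ∀ X ∈ I₂, X * Y = Y * X) : ∃ c : K, Y = c • 1 := by
  have h3 : Algebra.adjoin K ((I₁ : Set (Matrix ι ι K)) ∪ I₂) ≤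
      Subalgebra.centralizer K ({Y} : Set (Matrix ι ι K)) := by
    refine Algebra.adjoin_le fun X hX => ?_
    rw [SetLike.mem_coe, Subalgebra.mem_centralizer_iff]
    rintro _ rfl
    rcases hX with hX | hX
    · exact (h1 X hX).symm
    · exact (h2 X hX).symm
  rw [hfull] at h3
  obtain ⟨c, hc⟩ := Matrix.mem_range_scalar_of_commute_single (M := Y) (fun i j _ => by
    have h4 := h3 (x := Matrix.single i j 1) trivial
    rw [Subalgebra.mem_centralizer_iff] at h4
    exact (h4 Y rfl).symm)
  refine ⟨c, ?_⟩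
  rw [← hc, Matrix.scalar_apply, Matrix.smul_one_eq_diagonal]

/-- Chunk B5a. Let `A₁`, `A₂` be the algebras generated by `I₁`, `I₂`; they commute elementwise and
every matrix is a sum of products `x y`, `x ∈ A₁`, `y ∈ A₂` (these sums form an algebra).
Prime property: if `a ∈ A₁`, `b ∈ A₂`, `a b = 0`, then `a (x y) b = y (a b) x = 0` for `x ∈ A₁`,
`y ∈ A₂` (move the commuting factors), so `a M b = 0` for all matrices `M` and `a = 0` or `b = 0`.
Write `[X, Y] = X Y - Y X` and let the quadratic relation be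
`(*) Y₁² + 2 Y₁ Y₂ + Y₂² + a Y₁ + a Y₂ + b = 0`. Bracket with `X ∈ A₁`:
`[X, Y₁²] + 2 [X, Y₁] Y₂ + a [X, Y₁] = 0`; bracket this with `Z ∈ A₂`: `2 [X, Y₁] [Z, Y₂] = 0`. If
`Y₁` does not commute with some `X ∈ A₁`, then `[Z, Y₂] = 0` for all `Z ∈ A₂`, so `Y₂` commutes with
`A₂` and with `A₁`, hence with all matrices, and is scalar. Otherwise `Y₁` commutes with `A₁` and
`A₂` and is scalar. -/
theorem B5_disj [CharZero K] {I₁ I₂ : Submodule K (Matrix ι ι K)}
    (hcomm : ∀ X ∈ I₁, ∀ Y ∈ I₂, X * Y = Y * X)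
    (hfull : Algebra.adjoin K ((I₁ : Set (Matrix ι ι K)) ∪ I₂) = ⊤)
    {Y₁ Y₂ : Matrix ι ι K} (h1 : Y₁ ∈ I₁) (h2 : Y₂ ∈ I₂) {a b : K}
    (hq : (Y₁ + Y₂) * (Y₁ + Y₂) + a • (Y₁ + Y₂) + b • (1 : Matrix ι ι K) = 0) :
    (∃ c : K, Y₁ = c • 1) ∨ (∃ c : K, Y₂ = c • 1) := by
  have m1 : ∀ X ∈ I₁, X ∈ Algebra.adjoin K (I₁ : Set (Matrix ι ι K)) := fun X hX =>
    Algebra.subset_adjoin hX
  have m2 : ∀ X ∈ I₂, X ∈ Algebra.adjoin K (I₂ : Set (Matrix ι ι K)) := fun X hX =>
    Algebra.subset_adjoin hX
  by_cases h : ∀ X ∈ I₁, X * Y₁ = Y₁ * X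
  · left
    exact B5a_scalar hfull h (fun X hX => (hcomm Y₁ h1 X hX).symm)
  · right
    push Not at h
    obtain ⟨X, hX, hne⟩ := h
    refine B5a_scalar hfull (fun X hX => hcomm X hX Y₂ h2) fun Z hZ => ?_
    have c1 := hcomm X hX Y₂ h2
    have c2 := hcomm X hX Z hZ
    have c3 := hcomm Y₁ h1 Y₂ h2
    have c4 := hcomm Y₁ h1 Z hZ
    have c5 : (X * Y₁ - Y₁ * X) * (Z * Y₂ - Y₂ * Z) = 0 := by
      -- the double commutator of the relation
      have e1 : ∀ W : Matrix ι ι K, W = 0 →
          Z * (X * W - W * X) - (X * W - W * X) * Z = 0 := by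
        rintro _ rfl
        simp
      have e2 := e1 _ hq
      have e3 : (Y₁ + Y₂) * (Y₁ + Y₂) + a • (Y₁ + Y₂) + b • (1 : Matrix ι ι K) =
          Y₁ * Y₁ + (2 : K) • (Y₁ * Y₂) + Y₂ * Y₂ + a • Y₁ + a • Y₂ + b • 1 := by
        have : (Y₁ + Y₂) * (Y₁ + Y₂) = Y₁ * Y₁ + Y₁ * Y₂ + Y₂ * Y₁ + Y₂ * Y₂ := by noncomm_ring
        rw [this, ← c3]
        module
      -- brackets with X
      have b1 : X * (Y₂ * Y₂) - (Y₂ * Y₂) * X = 0 := by
        have : (Y₂ * Y₂) * X = X * (Y₂ * Y₂) := by
          rw [mul_assoc, ← c1, ← mul_assoc, ← c1, mul_assoc]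
        rw [this, sub_self]
      have b2 : X * (Y₁ * Y₂) - (Y₁ * Y₂) * X = (X * Y₁ - Y₁ * X) * Y₂ := by
        have : (Y₁ * Y₂) * X = Y₁ * X * Y₂ := by rw [mul_assoc, ← c1, ← mul_assoc]
        rw [this]; noncomm_ring
      have b3 : X * ((Y₁ + Y₂) * (Y₁ + Y₂) + a • (Y₁ + Y₂) + b • (1 : Matrix ι ι K)) -
          ((Y₁ + Y₂) * (Y₁ + Y₂) + a • (Y₁ + Y₂) + b • (1 : Matrix ι ι K)) * X =
          (X * (Y₁ * Y₁) - (Y₁ * Y₁) * X) + (2 : K) • ((X * Y₁ - Y₁ * X) * Y₂) +
            a • (X * Y₁ - Y₁ * X) := by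
        rw [e3, ← b2]
        have b4 : X * Y₂ - Y₂ * X = 0 := by rw [c1, sub_self]
        have : X * (Y₁ * Y₁ + (2 : K) • (Y₁ * Y₂) + Y₂ * Y₂ + a • Y₁ + a • Y₂ + b • 1) -
            (Y₁ * Y₁ + (2 : K) • (Y₁ * Y₂) + Y₂ * Y₂ + a • Y₁ + a • Y₂ + b • 1) * X =
            (X * (Y₁ * Y₁) - (Y₁ * Y₁) * X) + (2 : K) • (X * (Y₁ * Y₂) - (Y₁ * Y₂) * X) +
            (X * (Y₂ * Y₂) - (Y₂ * Y₂) * X) + a • (X * Y₁ - Y₁ * X) + a • (X * Y₂ - Y₂ * X) := by
          simp only [mul_add, add_mul, mul_smul_comm, smul_mul_assoc, mul_one, one_mul]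
          module
        rw [this, b1, b4, smul_zero, add_zero, add_zero]
      rw [b3] at e2
      -- everything in the first algebra commutes with Z
      have d1 : Z * (X * Y₁ - Y₁ * X) = (X * Y₁ - Y₁ * X) * Z := by
        have f1 : Z * (X * Y₁) = X * Y₁ * Z := by
          rw [← mul_assoc, ← c2, mul_assoc, ← c4, mul_assoc]
        have f2 : Z * (Y₁ * X) = Y₁ * X * Z := by
          rw [← mul_assoc, ← c4, mul_assoc, ← c2, mul_assoc]
        rw [mul_sub, sub_mul, f1, f2]
      have d2 : Z * (X * (Y₁ * Y₁) - (Y₁ * Y₁) * X) = (X * (Y₁ * Y₁) - (Y₁ * Y₁) * X) * Z := by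
        have f0 : Z * (Y₁ * Y₁) = (Y₁ * Y₁) * Z := by
          rw [← mul_assoc, ← c4, mul_assoc, ← c4, mul_assoc]
        have f1 : Z * (X * (Y₁ * Y₁)) = X * (Y₁ * Y₁) * Z := by
          rw [← mul_assoc, ← c2, mul_assoc, f0, mul_assoc, mul_assoc, mul_assoc]
        have f2 : Z * ((Y₁ * Y₁) * X) = (Y₁ * Y₁) * X * Z := by
          rw [← mul_assoc, f0, mul_assoc, ← c2, mul_assoc, mul_assoc, mul_assoc]
        rw [mul_sub, sub_mul, f1, f2]
      generalize X * (Y₁ * Y₁) - (Y₁ * Y₁) * X = P at e2 d2
      generalize X * Y₁ - Y₁ * X = Q at e2 d1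
      have e4 : Z * (P + (2 : K) • (Q * Y₂) + a • Q) - (P + (2 : K) • (Q * Y₂) + a • Q) * Z =
          (Z * P - P * Z) + (2 : K) • (Z * (Q * Y₂) - Q * Y₂ * Z) + a • (Z * Q - Q * Z) := by
        simp only [mul_add, add_mul, mul_smul_comm, smul_mul_assoc]
        module
      have e5 : Z * (Q * Y₂) = Q * (Z * Y₂) := by rw [← mul_assoc, d1, mul_assoc]
      rw [e4, d1, d2, sub_self, sub_self, smul_zero, zero_add, add_zero, e5] at e2
      have e6 := (smul_eq_zero.1 e2).resolve_left (by norm_num)
      rw [mul_sub, ← e6]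
      noncomm_ring
    have c6 := (B5a_prime hcomm hfull (Subalgebra.sub_mem _ (Subalgebra.mul_mem _ (m1 X hX)
      (m1 _ h1)) (Subalgebra.mul_mem _ (m1 _ h1) (m1 X hX)))
      (Subalgebra.sub_mem _ (Subalgebra.mul_mem _ (m2 Z hZ) (m2 _ h2))
        (Subalgebra.mul_mem _ (m2 _ h2) (m2 Z hZ))) c5).resolve_left (sub_ne_zero.2 hne)
    exact sub_eq_zero.1 c6


end Pool.Agent.H49M
end

-- from Lib.H49M.B8
section

/-!
# B8: the dimension is a power
-/

set_option autoImplicit false
set_option linter.unusedSectionVars false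
namespace Pool.Agent.H49M
open Module Matrix Polynomial Pool.Agent.H53Toric

variable {ι : Type*} [Fintype ι] [DecidableEq ι]

/-- Burnside's theorem for a simple module. -/
theorem B8a_burnside {K : Type*} [Field K] [IsAlgClosed K] {A M : Type*} [Ring A] [Algebra K A]
    [AddCommGroup M] [Module K M] [Module A M] [IsScalarTower K A M] [FiniteDimensional K M]
    [IsSimpleModule A M] (f : M →ₗ[K] M) : ∃ r : A, Algebra.lsmul K K M r = f := by
  classical
  have hbij := IsSimpleModule.algebraMap_end_bijective_of_isAlgClosed (A := A) (V := M) K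
  let f' : End (End A M) M :=
    { toFun := f
      map_add' := f.map_add
      map_smul' := by
        intro φ m
        obtain ⟨k, rfl⟩ := hbij.2 φ
        simp }
  let B := Module.finBasis K M
  obtain ⟨r, hr⟩ := jacobson_density f' (Finset.univ.image B)
  refine ⟨r, ?_⟩
  apply B.ext
  intro i
  have := hr (B i) (Finset.mem_image_of_mem _ (Finset.mem_univ i))
  simpa using! this.symm

/-- A minimal stable subspace. -/
theorem B8a_exists {K : Type*} [Field K] {A V : Type*} [Ring A] [AddCommGroup V] [Module K V]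
    [Module A V] [FiniteDimensional K V] [Nontrivial V] : ∃ W : Submodule K V, W ≠ ⊥ ∧
      (∀ a : A, ∀ v ∈ W, a • v ∈ W) ∧ ∀ N : Submodule K V, N ≤ W → N ≠ ⊥ →
        (∀ a : A, ∀ v ∈ N, a • v ∈ N) → N = W := by
  have hwf : WellFounded ((· < ·) : Submodule K V → Submodule K V → Prop) :=
    (inferInstance : WellFoundedLT (Submodule K V)).wf
  obtain ⟨W, ⟨h1, h2⟩, h3⟩ := hwf.has_min
    {W : Submodule K V | W ≠ ⊥ ∧ ∀ a : A, ∀ v ∈ W, a • v ∈ W}
    ⟨⊤, top_ne_bot, fun a v _ ↦ Submodule.mem_top⟩
  refine ⟨W, h1, h2, fun N hN hN0 hNs ↦ ?_⟩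
  by_contra hne
  exact h3 N ⟨hN0, hNs⟩ (lt_of_le_of_ne hN hne)

/-- Burnside's theorem for an irreducible subspace. -/
theorem B8a_irr {K : Type*} [Field K] [IsAlgClosed K] {A V : Type*} [Ring A] [Algebra K A]
    [AddCommGroup V] [Module K V] [Module A V] [IsScalarTower K A V] [FiniteDimensional K V]
    (W : Submodule K V) (hW : W ≠ ⊥) (hst : ∀ a : A, ∀ v ∈ W, a • v ∈ W)
    (hirr : ∀ N : Submodule K V, N ≤ W → N ≠ ⊥ → (∀ a : A, ∀ v ∈ N, a • v ∈ N) → N = W)
    (f : W →ₗ[K] W) : ∃ a : A, ∀ w : W, ((f w : W) : V) = a • (w : V) := by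
  let S : Submodule A V :=
    { carrier := W
      zero_mem' := W.zero_mem
      add_mem' := W.add_mem
      smul_mem' := fun a v hv ↦ hst a v hv }
  have hS : IsAtom S := by
    refine ⟨fun h ↦ ?_, fun T hT ↦ ?_⟩
    · obtain ⟨w, hw, hw0⟩ := W.ne_bot_iff.1 hW
      have h1 : w ∈ S := hw
      rw [h, Submodule.mem_bot] at h1
      exact hw0 h1
    · by_contra hT0
      obtain ⟨w, hw, hw0⟩ := T.ne_bot_iff.1 hT0
      have h1 := hirr (T.restrictScalars K) (fun v hv ↦ hT.le hv)
        (fun h ↦ hw0 (by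
          have h2 : w ∈ T.restrictScalars K := hw
          rw [h, Submodule.mem_bot] at h2
          exact h2)) (fun a v hv ↦ T.smul_mem a hv)
      refine hT.not_ge fun v hv ↦ ?_
      have h2 : v ∈ W := hv
      rw [← h1] at h2
      exact h2
  have hsimple : IsSimpleModule A S := isSimpleModule_iff_isAtom.2 hS
  have hfd : FiniteDimensional K S :=
    Module.Finite.of_injective (S.restrictScalars K).subtype Subtype.val_injective
  let f' : S →ₗ[K] S :=
    { toFun := fun w ↦ ⟨(f ⟨w.1, w.2⟩ : W), (f ⟨w.1, w.2⟩).2⟩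
      map_add' := fun v w ↦ Subtype.ext (congrArg Subtype.val (f.map_add ⟨v.1, v.2⟩ ⟨w.1, w.2⟩))
      map_smul' := fun c v ↦ Subtype.ext (congrArg Subtype.val (f.map_smul c ⟨v.1, v.2⟩)) }
  obtain ⟨a, ha⟩ := B8a_burnside (A := A) f'
  refine ⟨a, fun w ↦ ?_⟩
  have h1 := LinearMap.congr_fun ha ⟨w.1, w.2⟩
  exact (congrArg Subtype.val h1).symm

section B8a

variable {K : Type*} [Field K] {V : Type*} [AddCommGroup V] [Module K V]

/-- Stable subspaces are trivial. -/
theorem B8a_stable {A₁ A₂ : Subalgebra K (Module.End K V)} (hfull : A₁ ⊔ A₂ = ⊤)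
    (N : Submodule K V) (h1 : ∀ a ∈ A₁, ∀ v ∈ N, a v ∈ N) (h2 : ∀ a ∈ A₂, ∀ v ∈ N, a v ∈ N)
    {v : V} (hv : v ∈ N) (hv0 : v ≠ 0) : N = ⊤ := by
  let B : Subalgebra K (Module.End K V) :=
    { carrier := {f | ∀ v ∈ N, f v ∈ N}
      mul_mem' := fun {f g} hf hg v hv ↦ hf _ (hg v hv)
      add_mem' := fun {f g} hf hg v hv ↦ N.add_mem (hf v hv) (hg v hv)
      algebraMap_mem' := fun c v hv ↦ N.smul_mem c hv }
  have hB : (⊤ : Subalgebra K (Module.End K V)) ≤ B := by
    rw [← hfull]
    exact sup_le h1 h2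
  rw [eq_top_iff]
  intro w _
  obtain ⟨f, hf⟩ := Module.Projective.exists_dual_ne_zero K hv0
  have h3 := hB (show ((f.smulRight w : V →ₗ[K] V) : Module.End K V) ∈ _ from Algebra.mem_top) v hv
  have h4 : (f.smulRight w : V →ₗ[K] V) v = f v • w := rfl
  rw [h4] at h3
  exact (N.smul_mem_iff hf).1 h3


end B8a

/-- Chunk B8a. Commuting subalgebras generating all operators of `V`. Let `W` be a minimal nonzero
`A₁`-stable subspace; by Burnside (see `P4_burnside`, or `burnside_surj` in Helper71/Kolchin)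
`A₁ → End W` is surjective; its kernel `N` kills the span of `A₂ W`, which is stable under `A₁` and
`A₂`, hence is `V`: so `N = 0` and `A₁ ≅ End W`, `dim A₁ = a²`, `a = dim W`. Let `ε ∈ A₁` correspond to
a rank one idempotent of `W` and `M = range ε`; it is `A₂`-stable. For `0 ≠ m ∈ M`:
`V = A₁ A₂ m`, so `M = ε A₁ A₂ ε m = (ε A₁ ε) A₂ m = A₂ m`: `M` is irreducible under `A₂`, so
`A₂ → End M` is surjective; it is injective because `b M = 0` gives `b V = b A₁ M = A₁ b M = 0`
(`V = A₁ A₂ m = A₁ M`). Finally `1 = ε₁ + ... + ε_a` with conjugate orthogonal idempotents of `A₁`, so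
`dim V = a dim M`. -/
theorem B8_two {K : Type*} [Field K] [IsAlgClosed K] {V : Type*} [AddCommGroup V] [Module K V]
    [FiniteDimensional K V] [Nontrivial V] {A₁ A₂ : Subalgebra K (Module.End K V)}
    (hcomm : ∀ X ∈ A₁, ∀ Y ∈ A₂, X * Y = Y * X) (hfull : A₁ ⊔ A₂ = ⊤) :
    ∃ (a : ℕ) (M : Submodule K V), Nonempty (A₂ ≃ₐ[K] Module.End K M) ∧
      finrank K A₁ = a * a ∧ finrank K V = a * finrank K M := by
  classical
  obtain ⟨S, hSb, hSst, hSirr⟩ := B8a_exists (K := K) (A := A₁) (V := V)
  obtain ⟨s, hs, hs0'⟩ := S.ne_bot_iff.1 hSb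
  have hSn : Nontrivial S := ⟨⟨⟨s, hs⟩, 0, fun h ↦ hs0' (congrArg Subtype.val h)⟩⟩
  -- the kernel is trivial
  have hker : ∀ x : A₁, (∀ w ∈ S, (x : Module.End K V) w = 0) → x = 0 := by
    let N : Submodule K V :=
      { carrier := {v | ∀ x : A₁, (∀ w ∈ S, (x : Module.End K V) w = 0) →
          (x : Module.End K V) v = 0}
        zero_mem' := fun x _ ↦ map_zero _
        add_mem' := fun {v w} hv hw x hx ↦ by rw [map_add, hv x hx, hw x hx, add_zero]
        smul_mem' := fun c v hv x hx ↦ by rw [map_smul, hv x hx, smul_zero] }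
    have hN : N = ⊤ := by
      refine B8a_stable hfull N (fun a ha v hv x hx ↦ ?_) (fun a ha v hv x hx ↦ ?_)
        (v := s) (fun x hx ↦ hx s hs) hs0'
      · exact hv (x * ⟨a, ha⟩) fun w hw ↦ hx _ (hSst ⟨a, ha⟩ w hw)
      · have h1 := LinearMap.congr_fun (hcomm x x.2 a ha) v
        change (x : Module.End K V) (a v) = a ((x : Module.End K V) v) at h1
        rw [h1, hv x hx, map_zero]
    intro x hx
    apply Subtype.ext
    ext v
    have : v ∈ N := hN ▸ Submodule.mem_top
    exact this x hx
  let ρ : A₁ →ₐ[K] Module.End K S :=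
    { toFun := fun x ↦ (x : Module.End K V).restrict (hSst x)
      map_one' := rfl
      map_mul' := fun x y ↦ rfl
      map_zero' := rfl
      map_add' := fun x y ↦ rfl
      commutes' := fun c ↦ rfl }
  have hρ : ∀ (x : A₁) (w : S), ((ρ x w : S) : V) = (x : Module.End K V) w := fun x w ↦ rfl
  have hbij : Function.Bijective ρ := by
    constructor
    · rw [injective_iff_map_eq_zero]
      intro x hx
      refine hker x fun w hw ↦ ?_
      rw [← hρ x ⟨w, hw⟩, hx]
      rfl
    · intro f
      obtain ⟨a, ha⟩ := B8a_irr (A := A₁) S hSb hSst hSirr f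
      exact ⟨a, LinearMap.ext fun w ↦ Subtype.ext (ha w).symm⟩
  let θ : A₁ ≃ₐ[K] Module.End K S := AlgEquiv.ofBijective ρ hbij
  have hθ : ∀ (x : A₁) (w : S), ((θ x w : S) : V) = (x : Module.End K V) w := fun x w ↦ rfl
  let b := Module.finBasis K S
  have hpos : 0 < finrank K S := Module.finrank_pos
  let i0 : Fin (finrank K S) := ⟨0, hpos⟩
  let u : Fin (finrank K S) → Fin (finrank K S) → Module.End K S :=
    fun i j ↦ (b.coord j).smulRight (b i)
  have hu : ∀ i j s, u i j s = b.coord j s • b i := fun i j s ↦ rfl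
  have huu : ∀ i j k l, u i j * u k l = (if j = k then (1 : K) else 0) • u i l := by
    intro i j k l
    refine LinearMap.ext fun s ↦ ?_
    have h1 : b.coord j (b k) = if j = k then (1 : K) else 0 := by
      rw [Basis.coord_apply, Basis.repr_self, Finsupp.single_apply]
      by_cases h : k = j
      · rw [if_pos h, if_pos h.symm]
      · rw [if_neg h, if_neg (Ne.symm h)]
    rw [Module.End.mul_apply, hu k l, map_smul, hu i j, h1, LinearMap.smul_apply, hu i l,
      smul_smul, smul_smul, mul_comm]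
  have husum : ∑ i, u i i = 1 := by
    ext s
    rw [LinearMap.sum_apply]
    simp only [hu, Basis.coord_apply]
    rw [b.sum_repr]
    rfl
  let E : Fin (finrank K S) → Fin (finrank K S) → A₁ := fun i j ↦ θ.symm (u i j)
  have hEE : ∀ i j k l, E i j * E k l = (if j = k then (1 : K) else 0) • E i l := by
    intro i j k l
    change θ.symm (u i j) * θ.symm (u k l) = _ • θ.symm (u i l)
    rw [← map_mul, huu, map_smul]
  have hEsum : ∑ i, E i i = 1 := by
    change ∑ i, θ.symm (u i i) = 1
    rw [← map_sum, husum, map_one]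
  -- corners
  have hcor : ∀ x : A₁, ∃ c : K, E i0 i0 * x * E i0 i0 = c • E i0 i0 := by
    intro x
    refine ⟨b.coord i0 (θ x (b i0)), ?_⟩
    apply θ.injective
    rw [map_mul, map_mul, map_smul]
    have h1 : θ (E i0 i0) = u i0 i0 := θ.apply_symm_apply _
    rw [h1]
    refine LinearMap.ext fun s ↦ ?_
    rw [Module.End.mul_apply, Module.End.mul_apply, LinearMap.smul_apply, hu i0 i0 s, map_smul,
      map_smul, hu i0 i0, smul_smul, smul_smul, mul_comm]
  let ε : Module.End K V := (E i0 i0 : Module.End K V)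
  have hε : ε * ε = ε := by
    have := congrArg (Subtype.val) (hEE i0 i0 i0 i0)
    rw [if_pos rfl, one_smul] at this
    exact this
  have hε0 : ε ≠ 0 := by
    intro h
    have h1 : E i0 i0 = 0 := Subtype.ext h
    have h2 : u i0 i0 = 0 := by
      have h3 : θ (E i0 i0) = u i0 i0 := θ.apply_symm_apply _
      rw [← h3, h1, map_zero]
    have h4 := LinearMap.congr_fun h2 (b i0)
    rw [hu, Basis.coord_apply, Basis.repr_self, Finsupp.single_eq_same, one_smul] at h4
    exact b.ne_zero i0 h4
  let M₂ : Submodule K V :=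
    { carrier := {v | ε v = v}
      zero_mem' := map_zero _
      add_mem' := fun {v w} hv hw ↦ by
        change ε (v + w) = v + w
        rw [map_add, hv, hw]
      smul_mem' := fun c v hv ↦ by
        change ε (c • v) = c • v
        rw [map_smul, hv] }
  have hM₂ : ∀ v, v ∈ M₂ ↔ ε v = v := fun v ↦ Iff.rfl
  have hMst : ∀ a : A₂, ∀ v ∈ M₂, a • v ∈ M₂ := fun a v hv ↦ by
    change ε ((a : Module.End K V) v) = (a : Module.End K V) v
    have h1 := LinearMap.congr_fun (hcomm (E i0 i0) (E i0 i0).2 a a.2) v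
    change ε ((a : Module.End K V) v) = (a : Module.End K V) (ε v) at h1
    rw [h1, hv]
  have hεM : ∀ v, ε v ∈ M₂ := fun v ↦ LinearMap.congr_fun hε v
  obtain ⟨v0, hv0⟩ : ∃ v, ε v ≠ 0 := by
    by_contra hcon
    push Not at hcon
    exact hε0 (LinearMap.ext hcon)
  -- the span of `A₁ M'`
  have hspan : ∀ M' : Submodule K V, M' ≤ M₂ → M' ≠ ⊥ → (∀ a : A₂, ∀ v ∈ M', a • v ∈ M') →
      Submodule.span K {v | ∃ a ∈ A₁, ∃ m ∈ M', v = a m} = ⊤ := by
    intro M' hM' hM0 hMs
    obtain ⟨m, hm, hm0⟩ := M'.ne_bot_iff.1 hM0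
    refine B8a_stable hfull _ (fun a ha v hv ↦ ?_) (fun a ha v hv ↦ ?_) (v := m)
      (Submodule.subset_span ⟨1, A₁.one_mem, m, hm, rfl⟩) hm0
    · induction hv using Submodule.span_induction with
      | mem x hx =>
        obtain ⟨a', ha', m', hm', rfl⟩ := hx
        exact Submodule.subset_span ⟨a * a', A₁.mul_mem ha ha', m', hm', rfl⟩
      | zero => rw [map_zero]; exact Submodule.zero_mem _
      | add x y _ _ hx hy => rw [map_add]; exact Submodule.add_mem _ hx hy
      | smul c x _ hx => rw [map_smul]; exact Submodule.smul_mem _ c hx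
    · induction hv using Submodule.span_induction with
      | mem x hx =>
        obtain ⟨a', ha', m', hm', rfl⟩ := hx
        refine Submodule.subset_span ⟨a', ha', a m', hMs ⟨a, ha⟩ m' hm', ?_⟩
        exact (LinearMap.congr_fun (hcomm a' ha' a ha) m').symm
      | zero => rw [map_zero]; exact Submodule.zero_mem _
      | add x y _ _ hx hy => rw [map_add]; exact Submodule.add_mem _ hx hy
      | smul c x _ hx => rw [map_smul]; exact Submodule.smul_mem _ c hx
  have hMn : M₂ ≠ ⊥ := by
    intro h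
    have h1 := hεM v0
    rw [h, Submodule.mem_bot] at h1
    exact hv0 h1
  have hirr : ∀ M' : Submodule K V, M' ≤ M₂ → M' ≠ ⊥ → (∀ a : A₂, ∀ v ∈ M', a • v ∈ M') →
      M' = M₂ := by
    intro M' hM' hM0 hMs
    refine le_antisymm hM' fun m hm ↦ ?_
    have h1 := hspan M' hM' hM0 hMs
    have h2 : ∀ v ∈ Submodule.span K {v | ∃ a ∈ A₁, ∃ m ∈ M', v = a m}, ε v ∈ M' := by
      intro v hv
      induction hv using Submodule.span_induction with
      | mem x hx =>
        obtain ⟨a, ha, m', hm', rfl⟩ := hx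
        obtain ⟨c, hc⟩ := hcor ⟨a, ha⟩
        have h3 := congrArg (fun q : A₁ ↦ (q : Module.End K V) m') hc
        change ε (a (ε m')) = c • ε m' at h3
        rw [(hM₂ m').1 (hM' hm')] at h3
        rw [h3]
        exact M'.smul_mem c hm'
      | zero => rw [map_zero]; exact Submodule.zero_mem _
      | add x y _ _ hx hy => rw [map_add]; exact Submodule.add_mem _ hx hy
      | smul c x _ hx => rw [map_smul]; exact M'.smul_mem c hx
    rw [h1] at h2
    have h4 := h2 m Submodule.mem_top
    rwa [(hM₂ m).1 hm] at h4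
  let ρ₂ : A₂ →ₐ[K] Module.End K M₂ :=
    { toFun := fun x ↦ (x : Module.End K V).restrict (hMst x)
      map_one' := rfl
      map_mul' := fun x y ↦ rfl
      map_zero' := rfl
      map_add' := fun x y ↦ rfl
      commutes' := fun c ↦ rfl }
  have hρ₂ : ∀ (x : A₂) (w : M₂), ((ρ₂ x w : M₂) : V) = (x : Module.End K V) w := fun x w ↦ rfl
  have hbij2 : Function.Bijective ρ₂ := by
    constructor
    · rw [injective_iff_map_eq_zero]
      intro x hx
      have h1 := hspan M₂ le_rfl hMn hMst
      have h2 : ∀ v ∈ Submodule.span K {v | ∃ a ∈ A₁, ∃ m ∈ M₂, v = a m},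
          (x : Module.End K V) v = 0 := by
        intro v hv
        induction hv using Submodule.span_induction with
        | mem y hy =>
          obtain ⟨a, ha, m', hm', rfl⟩ := hy
          have h3 := LinearMap.congr_fun (hcomm a ha x x.2) m'
          change a ((x : Module.End K V) m') = (x : Module.End K V) (a m') at h3
          have h4 : (x : Module.End K V) m' = 0 := by
            rw [← hρ₂ x ⟨m', hm'⟩, hx]
            rfl
          rw [← h3, h4, map_zero]
        | zero => rw [map_zero]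
        | add y z _ _ hy hz => rw [map_add, hy, hz, add_zero]
        | smul c y _ hy => rw [map_smul, hy, smul_zero]
      apply Subtype.ext
      ext v
      exact h2 v (h1 ▸ Submodule.mem_top)
    · intro f
      obtain ⟨a, ha⟩ := B8a_irr (A := A₂) M₂ hMn hMst hirr f
      exact ⟨a, LinearMap.ext fun w ↦ Subtype.ext (ha w).symm⟩
  let θ₂ : A₂ ≃ₐ[K] Module.End K M₂ := AlgEquiv.ofBijective ρ₂ hbij2
  refine ⟨finrank K S, M₂, ⟨θ₂⟩, ?_, ?_⟩
  · rw [θ.toLinearEquiv.finrank_eq, Module.finrank_linearMap]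
  · -- the decomposition
    let Φ : V ≃ₗ[K] (Fin (finrank K S) → M₂) :=
      { toFun := fun v i ↦ ⟨(E i0 i : Module.End K V) v, by
          have h1 := congrArg (fun q : A₁ ↦ (q : Module.End K V) v) (hEE i0 i0 i0 i)
          rw [if_pos rfl, one_smul] at h1
          exact h1⟩
        map_add' := fun v w ↦ by
          funext i
          exact Subtype.ext (map_add _ _ _)
        map_smul' := fun c v ↦ by
          funext i
          exact Subtype.ext (map_smul _ _ _)
        invFun := fun m ↦ ∑ i, (E i i0 : Module.End K V) (m i : V)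
        left_inv := fun v ↦ by
          have h1 : ∀ i, (E i i0 : Module.End K V) ((E i0 i : Module.End K V) v) =
              (E i i : Module.End K V) v := fun i ↦ by
            have h2 := congrArg (fun q : A₁ ↦ (q : Module.End K V) v) (hEE i i0 i0 i)
            rw [if_pos rfl, one_smul] at h2
            exact h2
          change ∑ i, (E i i0 : Module.End K V) ((E i0 i : Module.End K V) v) = v
          rw [Finset.sum_congr rfl fun i _ ↦ h1 i]
          have h3 := congrArg (fun q : A₁ ↦ (q : Module.End K V) v) hEsum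
          rw [← LinearMap.sum_apply]
          have h4 : (∑ i, ((E i i : A₁) : Module.End K V)) = ((∑ i, E i i : A₁) : Module.End K V) :=
            (map_sum A₁.val _ _).symm
          rw [h4]
          exact h3
        right_inv := fun m ↦ by
          funext j
          apply Subtype.ext
          change (E i0 j : Module.End K V) (∑ i, (E i i0 : Module.End K V) (m i : V)) = m j
          rw [map_sum]
          have h1 : ∀ i, (E i0 j : Module.End K V) ((E i i0 : Module.End K V) (m i : V)) =
              if i = j then (m i : V) else 0 := fun i ↦ by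
            have h2 := congrArg (fun q : A₁ ↦ (q : Module.End K V) (m i : V)) (hEE i0 j i i0)
            refine h2.trans ?_
            by_cases h : i = j
            · rw [if_pos h.symm, one_smul, if_pos h]
              exact (m i).2
            · rw [if_neg (Ne.symm h), zero_smul, if_neg h]
              rfl
          rw [Finset.sum_congr rfl fun i _ ↦ h1 i, Finset.sum_ite_eq']
          simp }
    rw [Φ.finrank_eq, Module.finrank_pi_fintype]
    simp only [Finset.sum_const, Finset.card_univ, Fintype.card_fin, smul_eq_mul]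

/-- Chunk B8b. Several factors: induction on `m` (for all `V`; `m = 0`: `⊤ = ⊥`, so `dim V = 1`).
Apply `B8_two` to `A₁ = A 0` and `A₂ = ⨆ A (i+1)`, transport the algebras `A (i+1)` (contained in
`A₂`) through `A₂ ≃ₐ End M` and use the induction hypothesis for `M` (`M ≠ 0` because
`dim V ≠ 0`). -/
theorem B8_many {K : Type*} [Field K] [IsAlgClosed K] (m : ℕ) : ∀ (V : Type*) [AddCommGroup V]
    [Module K V] [FiniteDimensional K V] [Nontrivial V]
    (A : Fin m → Subalgebra K (Module.End K V)),
    (∀ i j, i ≠ j → ∀ X ∈ A i, ∀ Y ∈ A j, X * Y = Y * X) → (⨆ i, A i) = ⊤ →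
    ∃ a : Fin m → ℕ, (∀ i, finrank K (A i) = a i * a i) ∧ finrank K V = ∏ i, a i := by
  induction m with
  | zero =>
    intro V _ _ _ _ A _ htop
    refine ⟨fun _ => 1, fun i => Fin.elim0 i, ?_⟩
    rw [iSup_of_empty] at htop
    have h1 := Subalgebra.bot_eq_top_iff_finrank_eq_one.1 htop
    rw [Module.finrank_linearMap] at h1
    rw [Nat.dvd_one.1 ⟨finrank K V, h1.symm⟩]
    simp
  | succ m ih =>
    intro V _ _ _ _ A hcomm htop
    let A₂ : Subalgebra K (Module.End K V) := ⨆ i : Fin m, A i.succ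
    have hle : ∀ i : Fin m, A i.succ ≤ A₂ := fun i => le_iSup (fun i : Fin m => A i.succ) i
    have hc : ∀ X ∈ A 0, ∀ Y ∈ A₂, X * Y = Y * X := by
      have h1 : A₂ ≤ Subalgebra.centralizer K (A 0 : Set (Module.End K V)) := by
        refine iSup_le fun i Y hY => ?_
        rw [Subalgebra.mem_centralizer_iff]
        exact fun X hX => hcomm 0 i.succ (Fin.succ_ne_zero i).symm X hX Y hY
      intro X hX Y hY
      have h2 := h1 hY
      rw [Subalgebra.mem_centralizer_iff] at h2
      exact h2 X hX
    have hfull : A 0 ⊔ A₂ = ⊤ := by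
      rw [eq_top_iff, ← htop]
      refine iSup_le fun i => ?_
      refine Fin.cases ?_ (fun i => ?_) i
      · exact le_sup_left
      · exact (hle i).trans le_sup_right
    obtain ⟨a, M, ⟨e⟩, ha, hV⟩ := B8_two hc hfull
    have hM : Nontrivial M := by
      rw [← Module.finrank_pos_iff (R := K)]
      have h1 : 0 < finrank K V := finrank_pos
      rw [hV] at h1
      exact Nat.pos_of_mul_pos_left h1 |> fun h => by
        rcases Nat.eq_zero_or_pos (finrank K M) with h2 | h2
        · rw [h2, mul_zero] at h1; exact absurd h1 (lt_irrefl 0)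
        · exact h2
    let C : Fin m → Subalgebra K A₂ := fun i => (A i.succ).comap A₂.val
    have hC : ∀ i (x : A₂), x ∈ C i ↔ x.1 ∈ A i.succ := fun _ _ => Iff.rfl
    let B : Fin m → Subalgebra K (Module.End K M) := fun i => (C i).map e.toAlgHom
    have hCtop : (⨆ i, C i) = ⊤ := by
      have h1 : A₂ ≤ (⨆ i, C i).map A₂.val := by
        refine iSup_le fun i x hx => ?_
        exact ⟨⟨x, hle i hx⟩, (le_iSup C i) ((hC i _).2 hx), rfl⟩
      rw [eq_top_iff]
      intro x _
      obtain ⟨y, hy, hyx⟩ := h1 x.2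
      have : y = x := Subtype.ext hyx
      rw [← this]
      exact hy
    have hBcomm : ∀ i j, i ≠ j → ∀ X ∈ B i, ∀ Y ∈ B j, X * Y = Y * X := by
      rintro i j hij _ ⟨x, hx, rfl⟩ _ ⟨y, hy, rfl⟩
      have h1 : x * y = y * x := by
        apply Subtype.ext
        exact hcomm i.succ j.succ (fun h => hij (Fin.succ_injective _ h)) x.1 ((hC i x).1 hx) y.1
          ((hC j y).1 hy)
      change e x * e y = e y * e x
      rw [← map_mul, ← map_mul, h1]
    have hBtop : (⨆ i, B i) = ⊤ := by
      have h1 : (⨆ i, C i).map e.toAlgHom ≤ ⨆ i, B i := by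
        rw [Subalgebra.map_le]
        refine iSup_le fun i x hx => ?_
        exact (le_iSup B i) ⟨x, hx, rfl⟩
      rw [eq_top_iff]
      refine le_trans ?_ h1
      rw [hCtop]
      intro X _
      exact ⟨e.symm X, trivial, e.apply_symm_apply X⟩
    obtain ⟨b, hb1, hb2⟩ := ih M B hBcomm hBtop
    have hfin : ∀ i, finrank K (B i) = finrank K (A i.succ) := by
      intro i
      have h1 : finrank K (C i) = finrank K (A i.succ) :=
        (Submodule.comapSubtypeEquivOfLe (p := Subalgebra.toSubmodule (A i.succ))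
          (q := Subalgebra.toSubmodule A₂) (hle i)).finrank_eq
      rw [← h1]
      exact LinearEquiv.finrank_map_eq e.toLinearEquiv (Subalgebra.toSubmodule (C i))
    refine ⟨Fin.cons a b, ?_, ?_⟩
    · intro i
      refine Fin.cases ?_ (fun i => ?_) i
      · exact ha
      · rw [← hfin, hb1]; rfl
    · rw [Fin.prod_univ_succ, hV, hb2]; rfl







end Pool.Agent.H49M
end

-- from Lib.H49M.B9
section

/-!
# B9: only odd degrees occur in the centroid
-/

set_option autoImplicit false
set_option linter.unusedSectionVars false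
namespace Pool.Agent.H49M
open Module Matrix Polynomial Pool.Agent.H53Toric

variable {ι : Type*} [Fintype ι] [DecidableEq ι]

theorem B9a_inj {K W U : Type*} [Field K] [AddCommGroup W] [Module K W] [FiniteDimensional K W]
    [AddCommGroup U] [Module K U] [FiniteDimensional K U] (μ : W →ₗ[K] U)
    (hs : Function.Surjective μ) (hfr : finrank K W = finrank K U) : Function.Injective μ :=
  (LinearMap.injective_iff_surjective_of_finrank_eq_finrank hfr).2 hs

theorem B9a_conj {K W U : Type*} [Field K] [AddCommGroup W] [Module K W]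
    [AddCommGroup U] [Module K U] (α : U →ₗ[K] U) (e : W ≃ₗ[K] U) (f : W →ₗ[K] W)
    (h : α = e.conj f) : LinearMap.trace K U α = LinearMap.trace K W f := by
  rw [h, LinearMap.trace_conj']

/-- Chunk B9a. The trace of an antiautomorphism preserving two commuting factors. The map
`A₁ ⊗ A₂ → End V`, `x ⊗ y ↦ x y`, is surjective (the span of the products is a subalgebra
containing `A₁` and `A₂`), and by `B8_two` `dim A₁ · dim A₂ = a² (dim M)² = (dim V)²`, so it is
bijective (`LinearMap.injective_iff_surjective_of_finrank_eq_finrank`). It carries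
`α|A₁ ⊗ α|A₂` to `α` (`α (x y) = α y α x = α x α y`). Use `LinearMap.trace_tensorProduct'` and
`LinearMap.trace_conj'`. -/
theorem B9_two {K : Type*} [Field K] [IsAlgClosed K] {V : Type*} [AddCommGroup V] [Module K V]
    [FiniteDimensional K V] [Nontrivial V] {A₁ A₂ : Subalgebra K (Module.End K V)}
    (hcomm : ∀ X ∈ A₁, ∀ Y ∈ A₂, X * Y = Y * X) (hfull : A₁ ⊔ A₂ = ⊤)
    (α : Module.End K V →ₗ[K] Module.End K V) (hα : ∀ X Y, α (X * Y) = α Y * α X)
    (h1 : ∀ X ∈ Subalgebra.toSubmodule A₁, α X ∈ Subalgebra.toSubmodule A₁)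
    (h2 : ∀ X ∈ Subalgebra.toSubmodule A₂, α X ∈ Subalgebra.toSubmodule A₂) :
    LinearMap.trace K _ α =
      LinearMap.trace K _ (α.restrict h1) * LinearMap.trace K _ (α.restrict h2) := by
  obtain ⟨a, M, ⟨θ⟩, ha, hV⟩ := B8_two hcomm hfull
  let P₁ : Submodule K (Module.End K V) := Subalgebra.toSubmodule A₁
  let P₂ : Submodule K (Module.End K V) := Subalgebra.toSubmodule A₂
  let μ : TensorProduct K P₁ P₂ →ₗ[K] Module.End K V :=
    (LinearMap.mul' K (Module.End K V)) ∘ₗ TensorProduct.map P₁.subtype P₂.subtype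
  have hμ : ∀ (x : P₁) (y : P₂), μ (x ⊗ₜ[K] y) = (x : Module.End K V) * y := fun x y => rfl
  have hsurj : Function.Surjective μ := by
    let ψ : TensorProduct K A₁ A₂ →ₐ[K] Module.End K V :=
      Algebra.TensorProduct.lift A₁.val A₂.val (fun x y => hcomm x x.2 y y.2)
    have hψ : ∀ (x : A₁) (y : A₂), ψ (x ⊗ₜ[K] y) = (x : Module.End K V) * y := fun x y => rfl
    have htop : (⊤ : Subalgebra K (Module.End K V)) ≤ ψ.range := by
      rw [← hfull]
      refine sup_le (fun x hx => ⟨(⟨x, hx⟩ : A₁) ⊗ₜ[K] (1 : A₂), ?_⟩)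
        (fun y hy => ⟨(1 : A₁) ⊗ₜ[K] (⟨y, hy⟩ : A₂), ?_⟩)
      · exact (hψ _ _).trans (mul_one x)
      · exact (hψ _ _).trans (one_mul y)
    intro X
    obtain ⟨t, ht⟩ := htop (show X ∈ (⊤ : Subalgebra K (Module.End K V)) from Algebra.mem_top)
    have hind : ∀ t : TensorProduct K A₁ A₂, ψ t ∈ LinearMap.range μ := by
      intro t
      induction t using TensorProduct.induction_on with
      | zero => rw [map_zero]; exact Submodule.zero_mem _
      | tmul x y => exact ⟨(⟨x.1, x.2⟩ : P₁) ⊗ₜ[K] (⟨y.1, y.2⟩ : P₂), rfl⟩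
      | add s t hs ht => rw [map_add]; exact Submodule.add_mem _ hs ht
    obtain ⟨s, hs⟩ := hind t
    exact ⟨s, hs.trans ht⟩
  have hfr : finrank K (TensorProduct K P₁ P₂) = finrank K (Module.End K V) := by
    rw [Module.finrank_tensorProduct, Module.finrank_linearMap]
    have e1 : finrank K P₁ = a * a := ha
    have e2 : finrank K P₂ = finrank K M * finrank K M := by
      have := θ.toLinearEquiv.finrank_eq
      rw [Module.finrank_linearMap] at this
      exact this
    rw [e1, e2, hV]
    ring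
  have hinj : Function.Injective μ :=
    @B9a_inj K (TensorProduct K P₁ P₂) (Module.End K V) _ _ _ _ _ _ _ μ hsurj hfr
  let e : TensorProduct K P₁ P₂ ≃ₗ[K] Module.End K V := LinearEquiv.ofBijective μ ⟨hinj, hsurj⟩
  have he : ∀ t, e t = μ t := fun t => rfl
  have hconj : α = e.conj (TensorProduct.map (α.restrict h1) (α.restrict h2)) := by
    refine LinearMap.ext fun X => ?_
    obtain ⟨t, rfl⟩ := e.surjective X
    rw [LinearEquiv.conj_apply_apply, LinearEquiv.symm_apply_apply]
    induction t using TensorProduct.induction_on with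
    | zero => simp only [map_zero]
    | tmul x y =>
      rw [TensorProduct.map_tmul, he, he, hμ, hμ, hα]
      exact (hcomm _ (h1 x x.2) _ (h2 y y.2)).symm
    | add s t hs ht => simp only [map_add, hs, ht]
  exact (@B9a_conj K (TensorProduct K P₁ P₂) (Module.End K V) _ _ _ _ _ α e
    (TensorProduct.map (α.restrict h1) (α.restrict h2)) hconj).trans
    (LinearMap.trace_tensorProduct' (α.restrict h1) (α.restrict h2))

theorem B9b_restr {K W U : Type*} [Field K] [AddCommGroup W] [Module K W]
    [AddCommGroup U] [Module K U] (α : W →ₗ[K] W) (β : U →ₗ[K] U) (e : W ≃ₗ[K] U)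
    (h : ∀ x, β (e x) = e (α x)) : LinearMap.trace K U β = LinearMap.trace K W α := by
  refine B9a_conj β e α (LinearMap.ext fun y => ?_)
  obtain ⟨x, rfl⟩ := e.surjective y
  rw [h, LinearEquiv.conj_apply_apply, LinearEquiv.symm_apply_apply]

/-- Chunk B9b. Several factors: induction on `m` (for all `V`; `m = 0`: `⊤ = ⊥`, every operator is a
scalar and `α = 1`, `dim (End V) = 1`). Apply `B9_two` to `A₁ = A 0` and `A₂ = ⨆ A (i+1)` (stable
under `α`: `Subalgebra` generated, or `Subalgebra.comap`-like argument with the opposite: the set of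
`X ∈ A₂` with `α X ∈ A₂` is a subalgebra), transport `α|A₂` and the algebras `A (i+1)` through
`A₂ ≃ₐ End M` of `B8_two` exactly as in `B8_many` and use the induction hypothesis for `M`. -/
theorem B9_many {K : Type*} [Field K] [IsAlgClosed K] (m : ℕ) : ∀ (V : Type*) [AddCommGroup V]
    [Module K V] [FiniteDimensional K V] [Nontrivial V]
    (A : Fin m → Subalgebra K (Module.End K V)),
    (∀ i j, i ≠ j → ∀ X ∈ A i, ∀ Y ∈ A j, X * Y = Y * X) → (⨆ i, A i) = ⊤ →
    ∀ (α : Module.End K V →ₗ[K] Module.End K V), (∀ X Y, α (X * Y) = α Y * α X) → α 1 = 1 →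
    ∀ h : ∀ i, ∀ X ∈ Subalgebra.toSubmodule (A i), α X ∈ Subalgebra.toSubmodule (A i),
    LinearMap.trace K _ α = ∏ i, LinearMap.trace K _ (α.restrict (h i)) := by
  induction m with
  | zero =>
    intro V _ _ _ _ A _ htop α hα hα1 h
    rw [iSup_of_empty] at htop
    have h1 := Subalgebra.bot_eq_top_iff_finrank_eq_one.1 htop
    have hid : α = LinearMap.id := by
      refine LinearMap.ext fun X => ?_
      have hX : X ∈ (⊥ : Subalgebra K (Module.End K V)) := htop ▸ Algebra.mem_top
      obtain ⟨c, rfl⟩ := Algebra.mem_bot.1 hX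
      rw [Algebra.algebraMap_eq_smul_one, map_smul, hα1]
      rfl
    refine ((congrArg (LinearMap.trace K _) hid).trans ?_).trans (Finset.prod_of_isEmpty _).symm
    rw [LinearMap.trace_id, h1, Nat.cast_one]
  | succ m ih =>
    intro V _ _ _ _ A hcomm htop α hα hα1 h
    let A₂ : Subalgebra K (Module.End K V) := ⨆ i : Fin m, A i.succ
    have hle : ∀ i : Fin m, A i.succ ≤ A₂ := fun i => le_iSup (fun i : Fin m => A i.succ) i
    have hc : ∀ X ∈ A 0, ∀ Y ∈ A₂, X * Y = Y * X := by
      have h1 : A₂ ≤ Subalgebra.centralizer K (A 0 : Set (Module.End K V)) := by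
        refine iSup_le fun i Y hY => ?_
        rw [Subalgebra.mem_centralizer_iff]
        exact fun X hX => hcomm 0 i.succ (Fin.succ_ne_zero i).symm X hX Y hY
      intro X hX Y hY
      have h2 := h1 hY
      rw [Subalgebra.mem_centralizer_iff] at h2
      exact h2 X hX
    have hfull : A 0 ⊔ A₂ = ⊤ := by
      rw [eq_top_iff, ← htop]
      refine iSup_le fun i => ?_
      refine Fin.cases ?_ (fun i => ?_) i
      · exact le_sup_left
      · exact (hle i).trans le_sup_right
    have hA₂ : ∀ X ∈ Subalgebra.toSubmodule A₂, α X ∈ Subalgebra.toSubmodule A₂ := by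
      let D : Subalgebra K (Module.End K V) :=
        { carrier := {X | α X ∈ A₂}
          mul_mem' := fun {X Y} hX hY => by
            change α (X * Y) ∈ A₂
            rw [hα]
            exact A₂.mul_mem hY hX
          add_mem' := fun {X Y} hX hY => by
            change α (X + Y) ∈ A₂
            rw [map_add]
            exact A₂.add_mem hX hY
          algebraMap_mem' := fun c => by
            change α (algebraMap K _ c) ∈ A₂
            rw [Algebra.algebraMap_eq_smul_one, map_smul, hα1, ← Algebra.algebraMap_eq_smul_one]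
            exact A₂.algebraMap_mem c }
      have hD : A₂ ≤ D := iSup_le fun i X hX => hle i (h i.succ X hX)
      exact fun X hX => hD hX
    have hstep := B9_two hc hfull α hα (h 0) hA₂
    obtain ⟨a, M, ⟨e⟩, ha, hV⟩ := B8_two hc hfull
    have hM : Nontrivial M := by
      rw [← Module.finrank_pos_iff (R := K)]
      have h1 : 0 < finrank K V := finrank_pos
      rw [hV] at h1
      rcases Nat.eq_zero_or_pos (finrank K M) with h2 | h2
      · rw [h2, mul_zero] at h1; exact absurd h1 (lt_irrefl 0)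
      · exact h2
    let C : Fin m → Subalgebra K A₂ := fun i => (A i.succ).comap A₂.val
    have hC : ∀ i (x : A₂), x ∈ C i ↔ x.1 ∈ A i.succ := fun _ _ => Iff.rfl
    let B : Fin m → Subalgebra K (Module.End K M) := fun i => (C i).map e.toAlgHom
    have hCtop : (⨆ i, C i) = ⊤ := by
      have h1 : A₂ ≤ (⨆ i, C i).map A₂.val := by
        refine iSup_le fun i x hx => ?_
        exact ⟨⟨x, hle i hx⟩, (le_iSup C i) ((hC i _).2 hx), rfl⟩
      rw [eq_top_iff]
      intro x _
      obtain ⟨y, hy, hyx⟩ := h1 x.2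
      have : y = x := Subtype.ext hyx
      rw [← this]
      exact hy
    have hBcomm : ∀ i j, i ≠ j → ∀ X ∈ B i, ∀ Y ∈ B j, X * Y = Y * X := by
      rintro i j hij _ ⟨x, hx, rfl⟩ _ ⟨y, hy, rfl⟩
      have h1 : x * y = y * x := by
        apply Subtype.ext
        exact hcomm i.succ j.succ (fun h => hij (Fin.succ_injective _ h)) x.1 ((hC i x).1 hx) y.1
          ((hC j y).1 hy)
      change e x * e y = e y * e x
      rw [← map_mul, ← map_mul, h1]
    have hBtop : (⨆ i, B i) = ⊤ := by
      have h1 : (⨆ i, C i).map e.toAlgHom ≤ ⨆ i, B i := by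
        rw [Subalgebra.map_le]
        refine iSup_le fun i x hx => ?_
        exact (le_iSup B i) ⟨x, hx, rfl⟩
      rw [eq_top_iff]
      refine le_trans ?_ h1
      rw [hCtop]
      intro X _
      exact ⟨e.symm X, trivial, e.apply_symm_apply X⟩
    let α₂ : A₂ →ₗ[K] A₂ := α.restrict hA₂
    have hα₂ : ∀ x : A₂, ((α₂ x : A₂) : Module.End K V) = α x := fun x => rfl
    have hα₂m : ∀ x y : A₂, α₂ (x * y) = α₂ y * α₂ x := fun x y => Subtype.ext (hα x y)
    have hα₂1 : α₂ 1 = 1 := Subtype.ext hα1
    let β : Module.End K M →ₗ[K] Module.End K M :=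
      e.toLinearEquiv.toLinearMap ∘ₗ α₂ ∘ₗ e.symm.toLinearEquiv.toLinearMap
    have hβ : ∀ X, β X = e (α₂ (e.symm X)) := fun X => rfl
    have hβm : ∀ X Y, β (X * Y) = β Y * β X := by
      intro X Y
      rw [hβ, hβ, hβ, map_mul, hα₂m, map_mul]
    have hβ1 : β 1 = 1 := by rw [hβ, map_one, hα₂1, map_one]
    have hβe : ∀ x, β (e x) = e (α₂ x) := fun x => by rw [hβ, e.symm_apply_apply]
    have hB : ∀ i, ∀ X ∈ Subalgebra.toSubmodule (B i), β X ∈ Subalgebra.toSubmodule (B i) := by
      rintro i _ ⟨x, hx, rfl⟩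
      refine ⟨α₂ x, (hC i _).2 (h i.succ _ ((hC i x).1 hx)), ?_⟩
      exact (hβe x).symm
    have key := ih M B hBcomm hBtop β hβm hβ1 hB
    have h2 : LinearMap.trace K _ β = LinearMap.trace K _ (α.restrict hA₂) :=
      B9b_restr (α.restrict hA₂) β e.toLinearEquiv hβe
    have h3 : ∀ i : Fin m, LinearMap.trace K _ (β.restrict (hB i)) =
        LinearMap.trace K _ (α.restrict (h i.succ)) := by
      intro i
      have hmem : ∀ x : Subalgebra.toSubmodule (A i.succ),
          e ⟨x.1, hle i x.2⟩ ∈ Subalgebra.toSubmodule (B i) := fun x =>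
        ⟨⟨x.1, hle i x.2⟩, (hC i _).2 x.2, rfl⟩
      let φ : Subalgebra.toSubmodule (A i.succ) →ₗ[K] Subalgebra.toSubmodule (B i) :=
        { toFun := fun x => ⟨e ⟨x.1, hle i x.2⟩, hmem x⟩
          map_add' := fun x y => Subtype.ext (map_add e ⟨x.1, hle i x.2⟩ ⟨y.1, hle i y.2⟩)
          map_smul' := fun c x => Subtype.ext (map_smul e c ⟨x.1, hle i x.2⟩) }
      have hφ : ∀ x, ((φ x : Subalgebra.toSubmodule (B i)) : Module.End K M) =
        e ⟨x.1, hle i x.2⟩ := fun x => rfl
      have hφb : Function.Bijective φ := by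
        constructor
        · intro x y hxy
          have h4 : e ⟨x.1, hle i x.2⟩ = e ⟨y.1, hle i y.2⟩ := congrArg Subtype.val hxy
          have h5 := congrArg Subtype.val (e.injective h4)
          exact Subtype.ext h5
        · rintro ⟨_, ⟨x, hx, rfl⟩⟩
          exact ⟨⟨x.1, (hC i x).1 hx⟩, rfl⟩
      refine @B9b_restr K (Subalgebra.toSubmodule (A i.succ)) (Subalgebra.toSubmodule (B i))
        _ _ _ _ _ (α.restrict (h i.succ)) (β.restrict (hB i))
        (LinearEquiv.ofBijective φ hφb) fun x => ?_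
      exact Subtype.ext (hβe ⟨x.1, hle i x.2⟩)
    rw [Fin.prod_univ_succ, hstep, ← h2, key]
    exact congrArg _ (Finset.prod_congr rfl fun i _ => h3 i)

/-- Chunk B9c. The trace is `∑ i j, (J⁻¹ (E i j)ᵀ J) i j = ∑ i j, J⁻¹ i j * J i j =
- ∑ i j, J⁻¹ i j * J j i = - tr (J⁻¹ J)` (`LinearMap.trace_eq_matrix_trace` with the basis
`Matrix.stdBasis`, or `Matrix.single`). -/
theorem B9_mat {K : Type*} [Field K] {J : Matrix ι ι K} (hJ : Jᵀ = -J) (hdet : J.det ≠ 0)
    (α : Matrix ι ι K →ₗ[K] Matrix ι ι K) (hα : ∀ X, α X = J⁻¹ * Xᵀ * J) :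
    LinearMap.trace K _ α = -(Fintype.card ι : K) := by
  have hcoef : ∀ i j : ι, α (Matrix.single i j (1 : K)) i j = J⁻¹ i j * J i j := by
    intro i j
    rw [hα, Matrix.transpose_single, Matrix.mul_apply, Finset.sum_eq_single i]
    · rw [Matrix.mul_single_apply_same, mul_one]
    · intro k _ hk
      rw [Matrix.mul_single_apply_of_ne _ _ _ _ _ hk, zero_mul]
    · intro hi
      exact absurd (Finset.mem_univ i) hi
  have htr : LinearMap.trace K _ α = ∑ i, ∑ j, J⁻¹ i j * J i j := by
    rw [LinearMap.trace_eq_matrix_trace K (Matrix.stdBasis K ι ι), Matrix.trace]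
    rw [Fintype.sum_prod_type]
    refine Finset.sum_congr rfl fun i _ => Finset.sum_congr rfl fun j _ => ?_
    rw [Matrix.diag_apply, LinearMap.toMatrix_apply, Matrix.stdBasis_eq_single, ← hcoef i j]
    rfl
  have hJij : ∀ i j, J i j = - J j i := fun i j => by
    have := congrFun (congrFun hJ j) i
    rw [Matrix.transpose_apply, Matrix.neg_apply] at this
    exact this
  rw [htr]
  have h1 : J⁻¹ * J = 1 := Matrix.nonsing_inv_mul _ (isUnit_iff_ne_zero.2 hdet)
  have h2 : ∀ i, ∑ j, J⁻¹ i j * J i j = -1 := by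
    intro i
    have h3 := congrFun (congrFun h1 i) i
    rw [Matrix.mul_apply, Matrix.one_apply_eq] at h3
    rw [← h3, ← Finset.sum_neg_distrib]
    refine Finset.sum_congr rfl fun j _ => ?_
    rw [hJij i j, mul_neg]
  rw [Finset.sum_congr rfl fun i _ => h2 i]
  simp

/-- The trace of an involution on a stable subspace. -/
theorem B9d_trace {K E : Type*} [Field K] [CharZero K] [AddCommGroup E] [Module K E]
    [FiniteDimensional K E] (A P : Submodule K E) (α : E →ₗ[K] E) (hA : ∀ x ∈ A, α x ∈ A)
    (hinv : ∀ x, α (α x) = x) (hP : ∀ x, x ∈ P ↔ x ∈ A ∧ α x = x) :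
    LinearMap.trace K A (α.restrict hA) =
      ((2 * (finrank K P : ℤ) - (finrank K A : ℤ) : ℤ) : K) := by
  let p : Submodule K A := P.comap A.subtype
  have hp : finrank K p = finrank K P := by
    have h1 : p.map A.subtype = P := by
      ext x
      rw [Submodule.mem_map]
      constructor
      · rintro ⟨y, hy, rfl⟩
        exact hy
      · intro hx
        exact ⟨⟨x, ((hP x).1 hx).1⟩, hx, rfl⟩
    rw [← h1]
    exact (Submodule.finrank_map_subtype_eq A p).symm
  let β : A →ₗ[K] A := (1 / 2 : K) • (α.restrict hA + LinearMap.id)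
  have hβ : ∀ x : A, ((β x : A) : E) = (1 / 2 : K) • (α x + x) := fun x => rfl
  have hproj : LinearMap.IsProj p β := by
    constructor
    · intro x
      change ((β x : A) : E) ∈ P
      rw [hP]
      refine ⟨(β x).2, ?_⟩
      rw [hβ, map_smul, map_add, hinv, add_comm]
    · intro x hx
      apply Subtype.ext
      rw [hβ]
      have h1 : α x = x := ((hP _).1 hx).2
      rw [h1, ← two_smul K (x : E), smul_smul]
      norm_num
  have h1 := hproj.trace
  rw [hp] at h1
  have h2 : LinearMap.trace K A β = (1 / 2 : K) * (LinearMap.trace K A (α.restrict hA) +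
      finrank K A) := by
    change LinearMap.trace K A ((1 / 2 : K) • (α.restrict hA + LinearMap.id)) = _
    rw [map_smul, map_add, LinearMap.trace_id, smul_eq_mul]
  rw [h2] at h1
  push_cast
  have h3 : LinearMap.trace K A (α.restrict hA) + finrank K A = 2 * (finrank K P : K) := by
    rw [← h1]
    ring
  rw [← h3]
  ring







end Pool.Agent.H49M
end

-- from Lib.H49M.C0
section

/-!
# C0: the Lie algebra of a group of similitudes
-/

set_option autoImplicit false
set_option linter.unusedSectionVars false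
namespace Pool.Agent.H49M
open Module Matrix Polynomial Pool.Agent.H53Toric

variable {ι : Type*} [Fintype ι] [DecidableEq ι]



/-- The adjoint of `Matrix.toLin'`: `ω (X v, w) = ω (v, adj X w)`. -/
theorem C0_spec {K : Type*} [Field K] {J : Matrix ι ι K} (hdet : IsUnit J.det)
    (X : Module.End K (ι → K)) (v w : ι → K) : om J (X v) w = om J v (adjE J X w) := by
  obtain ⟨x, rfl⟩ := (phi (ι := ι) (K := K)).surjective X
  rw [adjE_phi, phi_apply, phi_apply, om_apply, om_apply, Matrix.mulVec_mulVec]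
  have h1 : J * (J⁻¹ * xᵀ * J) = xᵀ * J := by
    rw [← mul_assoc, ← mul_assoc, Matrix.mul_nonsing_inv _ hdet, one_mul]
  rw [h1, ← Matrix.mulVec_mulVec, Matrix.dotProduct_mulVec v, Matrix.vecMul_transpose]


end Pool.Agent.H49M
end

-- from Lib.H49M.P1
section

/-!
# P1: a second frame
-/

set_option autoImplicit false
set_option linter.unusedSectionVars false
namespace Pool.Agent.H49M
open Module Pool.Agent.H53Toric

variable {K : Type*} [Field K] {V : Type*} [AddCommGroup V] [Module K V]

variable {L : Submodule K (Module.End K V)} {ω : V →ₗ[K] V →ₗ[K] K}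
  {adj : Module.End K V →ₗ[K] Module.End K V}

/-- Chunk P1. Put `e' = u f u ∈ L` (`IsLie.sandwich`), `p = e f`, `q = f e`, `p' = (1+s)/2 - p`,
`q' = (1-s)/2 - q`. From `u = p u + u q` and `u ∈ Lp`: `u = p u q' + p' u q`, so
`e' = p' u q f p u q' = p' e' q'`. By `exists_partner` (H53Toric.Core1; traces vanish by
`(A1_setup h F.s_mem F.s_sq).tr`) there is `X ∈ L` with `e' X e' = e'`; `X' = q' X p' ∈ L`
(block component: `peirce_mem` in H53Toric.Core3 or `P0_block` with `c = (p, p', q', q)`,
`w = (3, 1, -1, -3)` : `D = s + 2 (p - q) ∈ L`; the difference `-2` occurs for `q' X p'`,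
`p' X p` and `q X q'`, so first pass to the part of weight `-1` for `s`), `e' X' e' = e'`, and
`f' = X' e' X'` satisfies `e' f' e' = e'`, `f' e' f' = f'`, `f' = q' f' p'`.
`u f' u ∈ L` equals `p (u f' u) q`, so it is `c e` (`K0_ext`), and
`e' = e' f' e' = u f (u f' u) f u = c u f e f u = c e'`, so `c = 1`: `u f' u = e`.
Extremality of `e'`: `e' X e' = u (f (u X u) f) u = c u f u`, as `f` is extremal (`K0_swap`).
Orthogonality: `e f' = e q' f' = 0` etc. `u2`: `e' f' u = u f (u f' u) = u f e = u q` and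
`u f' e' = (u f' u) f u = e f u = p u`, sum `= u`. -/
theorem P1_grid [CharZero K] [IsAlgClosed K] [FiniteDimensional K V] [Nontrivial V]
    (h : Core L ω adj) {s e f u : Module.End K V} (F : Frame L s e f) (hu : u ∈ J1 L s e f)
    (hu0 : u * f * u ≠ 0) : ∃ e' f' : Module.End K V, Grid L s e f e' f' u := by
  have hl := h.lie
  obtain ⟨huP, hu1⟩ := hu
  have huu : u * u = 0 := A2_pp huP huP
  have hff : f * f = 0 := A2_mm F.f_mem F.f_mem
  have hee : e * e = 0 := A2_pp F.e_mem F.e_mem
  have hset := A1_setup h F.s_mem F.s_sq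
  have hFs := K0_swap hl F
  -- `p u q = 0`
  have hpuq : e * f * u * (f * e) = 0 := by
    have h1 : e * f * u * (f * e) = e * f * u * (f * e) + e * f * u * (f * e) := by
      calc e * f * u * (f * e) = e * f * (e * f * u + u * (f * e)) * (f * e) := by rw [hu1]
        _ = (e * f * e) * f * u * (f * e) + e * f * u * ((f * e * f) * e) := by noncomm_ring
        _ = _ := by rw [F.efe, F.fef]
    have h2 : e * f * u * (f * e) + 0 = e * f * u * (f * e) + e * f * u * (f * e) := by
      rw [add_zero]; exact h1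
    exact (add_left_cancel h2).symm
  have hfuf : f * u * f = 0 := by
    calc f * u * f = (f * e * f) * u * (f * e * f) := by rw [F.fef]
      _ = f * (e * f * u * (f * e)) * f := by noncomm_ring
      _ = 0 := by rw [hpuq]; simp
  -- the element `e'`
  obtain ⟨e', he'⟩ : ∃ e', e' = u * f * u := ⟨_, rfl⟩
  have he'L : e' ∈ L := by rw [he']; exact hl.sandwich huP.1 huu F.f_mem.1
  have he's : s * e' = e' := by rw [he', ← mul_assoc, ← mul_assoc, huP.2.1]
  have hse' : e' * s = -e' := by rw [he', mul_assoc (u * f), huP.2.2, mul_neg]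
  have he'P : e' ∈ Lp L s := ⟨he'L, he's, hse'⟩
  have he'e' : e' * e' = 0 := A2_pp he'P he'P
  have o3 : e' * f = 0 := by
    rw [he']
    calc u * f * u * f = u * (f * u * f) := by noncomm_ring
      _ = 0 := by rw [hfuf, mul_zero]
  have o4 : f * e' = 0 := by
    rw [he']
    calc f * (u * f * u) = (f * u * f) * u := by noncomm_ring
      _ = 0 := by rw [hfuf, zero_mul]
  -- a partner
  obtain ⟨X, hX, hXe⟩ := exists_partner hl h.irr hset.tr he'L he'e'
  obtain ⟨a, ha, b, hb, c, hc, hXabc⟩ := A2_decomp h F.s_mem F.s_sq hX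
  have hcc : c * c = 0 := A2_mm hc hc
  have hebe : e' * b * e' = 0 := by
    have h1 : e' * b * e' = -(e' * b * e') := by
      calc e' * b * e' = e' * b * (s * e') := by rw [he's]
        _ = e' * (b * s) * e' := by noncomm_ring
        _ = e' * (s * b) * e' := by rw [hb.2]
        _ = (e' * s) * b * e' := by noncomm_ring
        _ = _ := by rw [hse']; noncomm_ring
    have h2 : (2 : K) • (e' * b * e') = 0 := by
      rw [two_smul]
      nth_rewrite 1 [h1]
      exact neg_add_cancel _
    exact (smul_eq_zero.mp h2).resolve_left two_ne_zero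
  have hece : e' * c * e' = e' := by
    have h1 : e' * X * e' = e' * a * e' + e' * b * e' + e' * c * e' := by
      rw [hXabc]; noncomm_ring
    rw [hXe, A2_pp he'P ha, zero_mul, hebe, zero_add, zero_add] at h1
    exact h1.symm
  have hfc : f * c = 0 := A2_mm F.f_mem hc
  have hcf : c * f = 0 := A2_mm hc F.f_mem
  obtain ⟨l, hlc⟩ := F.ext c hc.1
  -- the corrected partner
  obtain ⟨Y, hY⟩ : ∃ Y, Y = c - f * e * c - c * e * f + l • f := ⟨_, rfl⟩
  have hYL : Y ∈ L := by
    have h1 : Y = c + ((e * f - f * e) * c - c * (e * f - f * e)) + l • f := by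
      rw [hY]
      have : (e * f - f * e) * c - c * (e * f - f * e) =
          e * (f * c) - f * e * c - c * e * f + (c * f) * e := by noncomm_ring
      rw [this, hfc, hcf]
      noncomm_ring
    rw [h1]
    exact L.add_mem (L.add_mem hc.1 (hl _ (K0_H hl F) _ hc.1)) (L.smul_mem _ F.f_mem.1)
  have hY2 : Y = (1 - f * e) * c * (1 - e * f) := by
    have : (1 - f * e) * c * (1 - e * f) = c - f * e * c - c * e * f + f * (e * c * e) * f := by
      noncomm_ring
    rw [this, hlc, hY]
    rw [mul_smul_comm, smul_mul_assoc, F.fef]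
  have hYs : s * Y = -Y := by
    rw [hY2, ← mul_assoc, ← mul_assoc]
    have : s * (1 - f * e) = (1 - f * e) * s := by
      rw [mul_sub, sub_mul, mul_one, one_mul, ← mul_assoc, F.f_mem.2.1, mul_assoc f e s,
        F.e_mem.2.2]
      noncomm_ring
    rw [this, mul_assoc (1 - f * e) s c, hc.2.1]
    noncomm_ring
  have hsY : Y * s = Y := by
    rw [hY2, mul_assoc]
    have : (1 - e * f) * s = s * (1 - e * f) := by
      rw [mul_sub, sub_mul, mul_one, one_mul, ← mul_assoc, F.e_mem.2.1, mul_assoc e f s,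
        F.f_mem.2.2]
    rw [this, ← mul_assoc, mul_assoc _ c s, hc.2.2]
  have hYm : Y ∈ Lm L s := ⟨hYL, hYs, hsY⟩
  have hYY : Y * Y = 0 := A2_mm hYm hYm
  have heYe : e' * Y * e' = e' := by
    rw [hY2]
    have : e' * ((1 - f * e) * c * (1 - e * f)) * e' = (e' - (e' * f) * e) * c *
        (e' - e * (f * e')) := by noncomm_ring
    rw [this, o3, o4, zero_mul, mul_zero, sub_zero, hece]
  obtain ⟨f', hf'⟩ : ∃ f', f' = Y * e' * Y := ⟨_, rfl⟩
  have hf'L : f' ∈ L := by rw [hf']; exact hl.sandwich hYL hYY he'L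
  have o1 : e * f' = 0 := by
    have : e * Y = 0 := by
      rw [hY2]
      calc e * ((1 - f * e) * c * (1 - e * f)) = (e - e * f * e) * c * (1 - e * f) := by
            noncomm_ring
        _ = 0 := by rw [F.efe, sub_self, zero_mul, zero_mul]
    rw [hf', ← mul_assoc, ← mul_assoc, this, zero_mul, zero_mul]
  have o2 : f' * e = 0 := by
    have : Y * e = 0 := by
      rw [hY2]
      calc ((1 - f * e) * c * (1 - e * f)) * e = (1 - f * e) * c * (e - e * f * e) := by
            noncomm_ring
        _ = 0 := by rw [F.efe, sub_self, mul_zero]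
    rw [hf', mul_assoc, this, mul_zero]
  have hf'm : f' ∈ Lm L s := ⟨hf'L, by rw [hf', ← mul_assoc, ← mul_assoc, hYs]; noncomm_ring,
    by rw [hf', mul_assoc, hsY]⟩
  have hefe' : e' * f' * e' = e' := by
    rw [hf']
    calc e' * (Y * e' * Y) * e' = (e' * Y * e') * Y * e' := by noncomm_ring
      _ = e' := by rw [heYe, heYe]
  have hfef' : f' * e' * f' = f' := by
    rw [hf']
    calc Y * e' * Y * e' * (Y * e' * Y) = Y * ((e' * Y * e') * Y * e') * Y := by noncomm_ring
      _ = _ := by rw [heYe, heYe]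
  -- `u f' u = e`
  have hufu : u * f' * u = e := by
    have hf'f : f' * f = 0 := A2_mm hf'm F.f_mem
    have hff' : f * f' = 0 := A2_mm F.f_mem hf'm
    have h1 : u * f' = e * f * u * f' := by
      calc u * f' = (e * f * u + u * (f * e)) * f' := by rw [hu1]
        _ = e * f * u * f' + u * f * (e * f') := by noncomm_ring
        _ = _ := by rw [o1, mul_zero, add_zero]
    have h2 : f' * u = f' * u * (f * e) := by
      calc f' * u = f' * (e * f * u + u * (f * e)) := by rw [hu1]
        _ = (f' * e) * f * u + f' * u * (f * e) := by noncomm_ring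
        _ = _ := by rw [o2, zero_mul, zero_mul, zero_add]
    obtain ⟨k, hk⟩ := K0_ext hl F (hl.sandwich huP.1 huu hf'L)
    have h3 : u * f' * u = k • e := by
      rw [← hk]
      calc u * f' * u = (e * f * u * f') * u := by rw [← h1]
        _ = e * f * u * (f' * u) := by noncomm_ring
        _ = e * f * u * (f' * u * (f * e)) := by rw [← h2]
        _ = _ := by noncomm_ring
    have h4 : e' = k • e' := by
      calc e' = e' * f' * e' := hefe'.symm
        _ = u * f * (u * f' * u) * f * u := by rw [he']; noncomm_ring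
        _ = k • (u * (f * e * f) * u) := by
          rw [h3]
          simp only [mul_smul_comm, smul_mul_assoc, mul_assoc]
        _ = k • e' := by rw [F.fef, ← he']
    have h5 : (k - 1) • e' = 0 := by rw [sub_smul, one_smul, ← h4, sub_self]
    have h6 : e' ≠ 0 := by rw [he']; exact hu0
    have h7 : k = 1 := sub_eq_zero.mp ((smul_eq_zero.mp h5).resolve_right h6)
    rw [h3, h7, one_smul]
  refine ⟨e', f', F, ⟨F.s_mem, F.s_sq, he'P, hf'm, by rw [he']; exact hu0, hefe', hfef', ?_⟩,
    o1, o2, o3, o4, huP, he'.symm, hufu, hu1, ?_⟩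
  · intro X hX
    obtain ⟨k, hk⟩ := hFs.ext _ (hl.sandwich huP.1 huu hX)
    refine ⟨k, ?_⟩
    rw [he']
    calc u * f * u * X * (u * f * u) = u * (f * (u * X * u) * f) * u := by noncomm_ring
      _ = k • (u * f * u) := by rw [hk, mul_smul_comm, smul_mul_assoc]
  · calc e' * f' * u + u * (f' * e') = u * f * (u * f' * u) + (u * f' * u) * f * u := by
          rw [he']; noncomm_ring
      _ = e * f * u + u * (f * e) := by rw [hufu]; noncomm_ring
      _ = u := hu1

end Pool.Agent.H49M
end

-- from Lib.H49M.K6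
section

/-!
# K6: the sign of an invariant form on a Kemmer module
-/

set_option autoImplicit false
set_option linter.unusedSectionVars false
namespace Pool.Agent.H49M
open Module Pool.Agent.H53Toric

variable {K : Type*} [Field K]

/-- If all `x i`, `y i` vanish there is no invariant form. -/
theorem K6_triv [CharZero K] {V : Type*} [AddCommGroup V] [Module K V] {s : Module.End K V}
    {m : ℕ} {x y : Fin m → Module.End K V} (h : Kemmer s x y) (hx : ∀ i, x i = 0)
    (hy : ∀ i, y i = 0) {b : V →ₗ[K] V →ₗ[K] K} (hs : ∀ v w, b (s v) w = -b v (s w)) : b = 0 := by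
  have hst : ∃ t : K, t ≠ 0 ∧ ∀ v, s v = t • v := by
    rcases h.irr (eig s 1) (fun i w _ => by rw [hx i]; exact Submodule.zero_mem _)
      (fun i w _ => by rw [hy i]; exact Submodule.zero_mem _) (by
        intro w hw
        rw [eig, LinearMap.mem_ker, LinearMap.sub_apply, sub_eq_zero, one_smul,
          Module.End.one_apply] at hw
        rw [eig, LinearMap.mem_ker, LinearMap.sub_apply, sub_eq_zero, one_smul,
          Module.End.one_apply, hw, hw]) with h1 | h1
    · refine ⟨-1, by norm_num, fun v => ?_⟩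
      have h2 : v + s v ∈ eig s 1 := by
        rw [eig, LinearMap.mem_ker, LinearMap.sub_apply, sub_eq_zero, one_smul,
          Module.End.one_apply, map_add, ← Module.End.mul_apply, h.s_sq, Module.End.one_apply,
          add_comm]
      rw [h1, Submodule.mem_bot] at h2
      rw [neg_one_smul]
      exact eq_neg_of_add_eq_zero_right h2
    · refine ⟨1, one_ne_zero, fun v => ?_⟩
      have h2 : v ∈ eig s 1 := by rw [h1]; trivial
      rw [eig, LinearMap.mem_ker, LinearMap.sub_apply, sub_eq_zero] at h2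
      exact h2
  obtain ⟨t, ht, hst⟩ := hst
  ext v w
  have h1 := hs v w
  rw [hst, hst, map_smul, map_smul, LinearMap.smul_apply, smul_eq_mul] at h1
  have h2 : (2 * t) * b v w = 0 := by linear_combination h1
  exact (mul_eq_zero.1 h2).resolve_left (mul_ne_zero two_ne_zero ht)

/-- The radical is trivial. -/
theorem K6_rad {V : Type*} [AddCommGroup V] [Module K V] {s : Module.End K V}
    {m : ℕ} {x y : Fin m → Module.End K V} (h : Kemmer s x y)
    {b : V →ₗ[K] V →ₗ[K] K} (hb : b ≠ 0) (hx : ∀ i v w, b (x i v) w = -b v (x i w))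
    (hy : ∀ i v w, b (y i v) w = -b v (y i w)) (hs : ∀ v w, b (s v) w = -b v (s w))
    {v : V} (hv : ∀ w, b v w = 0) : v = 0 := by
  rcases h.irr (LinearMap.ker b)
    (fun i u hu => by
      rw [LinearMap.mem_ker] at hu ⊢
      ext w
      rw [hx, hu]; simp)
    (fun i u hu => by
      rw [LinearMap.mem_ker] at hu ⊢
      ext w
      rw [hy, hu]; simp)
    (fun u hu => by
      rw [LinearMap.mem_ker] at hu ⊢
      ext w
      rw [hs, hu]; simp) with h1 | h1
  · have h2 : v ∈ LinearMap.ker b := by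
      rw [LinearMap.mem_ker]
      ext w
      exact hv w
    rw [h1, Submodule.mem_bot] at h2
    exact h2
  · exact absurd (LinearMap.ker_eq_top.1 h1) hb

/-- The case of one pair. -/
theorem K6_one [CharZero K] {V : Type*} [AddCommGroup V] [Module K V] {s : Module.End K V}
    {x y : Fin (0 + 1) → Module.End K V} (h : Kemmer s x y)
    {b : V →ₗ[K] V →ₗ[K] K} (hb : b ≠ 0) {ε : K} (hε : ∀ v w, b v w = ε * b w v)
    (hx : ∀ i v w, b (x i v) w = -b v (x i w))
    (hs : ∀ v w, b (s v) w = -b v (s w)) : ε = -1 := by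
  have h00 : ∀ i : Fin (0 + 1), i = 0 := fun i => Fin.eq_zero i
  have hx0 : x 0 ≠ 0 := by
    intro h0
    have hy0 : y 0 = 0 := by rw [← K4a_yxy h 0, h0, mul_zero, zero_mul]
    exact hb (K6_triv h (fun i => by rw [h00 i, h0]) (fun i => by rw [h00 i, hy0]) hs)
  obtain ⟨v₀, hv₀⟩ : ∃ v, x 0 v ≠ 0 := by
    by_contra hcon
    push Not at hcon
    exact hx0 (LinearMap.ext hcon)
  obtain ⟨v, hv⟩ : ∃ v, v = y 0 (x 0 v₀) := ⟨_, rfl⟩
  have hxv : x 0 v = x 0 v₀ := by
    rw [hv, ← Module.End.mul_apply, ← Module.End.mul_apply, K4a_xyx h 0]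
  have hyx : y 0 (x 0 v) = v := by rw [hxv, hv]
  have hsv : s v = -v := by
    rw [hv, ← Module.End.mul_apply, h.sy, LinearMap.neg_apply]
  have hsx : s (x 0 v) = x 0 v := by rw [← Module.End.mul_apply, h.sx]
  have hxx : x 0 (x 0 v) = 0 := by
    rw [← Module.End.mul_apply, K4a_xx h, LinearMap.zero_apply]
  have hyv : y 0 v = 0 := by
    rw [hv, ← Module.End.mul_apply, K4a_yy h, LinearMap.zero_apply]
  have htop : Submodule.span K {v, x 0 v} = ⊤ := by
    have key : ∀ T : Module.End K V, T v ∈ Submodule.span K {v, x 0 v} →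
        T (x 0 v) ∈ Submodule.span K {v, x 0 v} → ∀ w ∈ Submodule.span K {v, x 0 v},
        T w ∈ Submodule.span K {v, x 0 v} := by
      intro T h1 h2
      have : Submodule.span K {v, x 0 v} ≤ (Submodule.span K {v, x 0 v}).comap T := by
        rw [Submodule.span_le]
        rintro w (rfl | rfl)
        · exact h1
        · exact h2
      exact this
    have hv1 : v ∈ Submodule.span K {v, x 0 v} := Submodule.subset_span (by simp)
    have hv2 : x 0 v ∈ Submodule.span K {v, x 0 v} := Submodule.subset_span (by simp)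
    refine (h.irr _ ?_ ?_ ?_).resolve_left ?_
    · intro i
      rw [h00 i]
      exact key _ hv2 (by rw [hxx]; exact Submodule.zero_mem _)
    · intro i
      rw [h00 i]
      exact key _ (by rw [hyv]; exact Submodule.zero_mem _) (by rw [hyx]; exact hv1)
    · exact key _ (by rw [hsv]; exact Submodule.neg_mem _ hv1) (by rw [hsx]; exact hv2)
    · intro h0
      rw [h0, Submodule.mem_bot] at hv2
      exact hv₀ (by rw [← hxv, hv2])
  have b1 : b v v = 0 := by
    have e1 := hs v v
    rw [hsv, map_neg, map_neg, LinearMap.neg_apply, neg_neg] at e1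
    have e2 : (2 : K) * b v v = 0 := by linear_combination -e1
    exact (mul_eq_zero.1 e2).resolve_left two_ne_zero
  have b2 : b (x 0 v) (x 0 v) = 0 := by
    have e1 := hs (x 0 v) (x 0 v)
    rw [hsx] at e1
    have e2 : (2 : K) * b (x 0 v) (x 0 v) = 0 := by linear_combination e1
    exact (mul_eq_zero.1 e2).resolve_left two_ne_zero
  have b3 := hx 0 v v
  have b4 := hε v (x 0 v)
  have b5 : (1 + ε) * b v (x 0 v) = 0 := by
    rw [b3] at b4
    linear_combination b4
  rcases mul_eq_zero.1 b5 with h1 | h1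
  · exact eq_neg_of_add_eq_zero_right h1
  · exfalso
    rw [h1, neg_zero] at b3
    apply hb
    have key : ∀ u ∈ Submodule.span K {v, x 0 v}, ∀ w ∈ Submodule.span K {v, x 0 v},
        b u w = 0 := by
      intro u hu w hw
      rw [Submodule.mem_span_pair] at hu hw
      obtain ⟨a, c, rfl⟩ := hu
      obtain ⟨a', c', rfl⟩ := hw
      simp only [map_add, map_smul, LinearMap.add_apply, LinearMap.smul_apply, b1, b2, b3, h1,
        smul_zero, add_zero]
    ext u w
    exact key u (by rw [htop]; trivial) w (by rw [htop]; trivial)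

section step

variable {V : Type*} [AddCommGroup V] [Module K V] {s : Module.End K V} {m : ℕ}
  {x y : Fin m → Module.End K V}


/-- The idempotents commute. -/
theorem K6_cc [CharZero K] (h : Kemmer s x y) {i j : Fin m} (hij : i ≠ j) :
    K4c s x y i * K4c s x y j = K4c s x y j * K4c s x y i := by
  have hx := K4a_comx h hij
  have hy := K4a_comy h hij
  have hs := K4a_coms h i
  have e1 : K4c s x y j = x j * y j + (1 / 2 : K) • (1 - s) - y j * x j := rfl
  rw [e1]
  simp only [mul_add, add_mul, mul_sub, sub_mul, mul_smul_comm, smul_mul_assoc, mul_one, one_mul]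
  rw [hs]
  have e2 : K4c s x y i * (x j * y j) = x j * y j * K4c s x y i := by
    rw [← mul_assoc, hx, mul_assoc, hy, mul_assoc]
  have e3 : K4c s x y i * (y j * x j) = y j * x j * K4c s x y i := by
    rw [← mul_assoc, hy, mul_assoc, hx, mul_assoc]
  rw [e2, e3]

/-- The transfer operator. -/
theorem K6_E [CharZero K] (h : Kemmer s x y) {i j : Fin m} (hij : i ≠ j) :
    K4c s x y i * (x i * y j - y j * x i) = x i * y j - y j * x i ∧
    K4c s x y j * (x i * y j - y j * x i) = 0 := by
  constructor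
  · rw [mul_sub, ← mul_assoc, K4a_cx h i, ← mul_assoc, K4a_comy h hij, mul_assoc, K4a_cx h i]
  · rw [mul_sub, ← mul_assoc, K4a_comx h hij.symm, mul_assoc, K4a_cy h j, ← mul_assoc,
      K4a_cy h j]
    simp

/-- The transfer operators are inverse to each other. -/
theorem K6_inv [CharZero K] (h : Kemmer s x y) {i j : Fin m} (hij : i ≠ j) {w : V}
    (h0 : K4c s x y i w = 0) (h1 : K4c s x y j w = w) :
    (x j * y i - y i * x j) ((x i * y j - y j * x i) w) = w := by
  have ap : ∀ {A B : Module.End K V} (v : V), A = B → A v = B v := by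
    intro A B v hAB; rw [hAB]
  have e1 : y j (x j w) = 0 := by
    rw [← h1]
    have := ap w (K4a_xc h j)
    rw [Module.End.mul_apply, LinearMap.zero_apply] at this
    rw [this, map_zero]
  have e2 : x i (y i w) = 0 := by
    have := ap w (K4a_yc h i)
    rw [Module.End.mul_apply, h0, map_zero] at this
    rw [← this, map_zero]
  obtain ⟨Q, hQ⟩ : ∃ Q : Module.End K V, Q = (1 / 2 : K) • (1 - s) := ⟨_, rfl⟩
  have hc : ∀ (k : Fin m) (v : V), K4c s x y k v = x k (y k v) + Q v - y k (x k v) := by
    intro k v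
    rw [hQ]; rfl
  have hxx : ∀ (k l : Fin m) (v : V), x k (x l v) = 0 := fun k l v => by
    rw [← Module.End.mul_apply, K4a_xx h, LinearMap.zero_apply]
  have hyy : ∀ (k l : Fin m) (v : V), y k (y l v) = 0 := fun k l v => by
    rw [← Module.End.mul_apply, K4a_yy h, LinearMap.zero_apply]
  have hQx : ∀ (k : Fin m) (v : V), Q (x k v) = 0 := fun k v => by
    rw [hQ, ← Module.End.mul_apply, K4a_Qx h, LinearMap.zero_apply]
  have hQy : ∀ (k : Fin m) (v : V), Q (y k v) = y k v := fun k v => by
    rw [hQ, ← Module.End.mul_apply, K4a_Qy h]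
  have e3 : y i (x i (y j w)) = y j w := by
    have e4 : K4c s x y i (y j w) = 0 := by
      rw [← Module.End.mul_apply, K4a_comy h hij, Module.End.mul_apply, h0, map_zero]
    rw [hc, hyy, map_zero, hQy, zero_add, sub_eq_zero] at e4
    exact e4.symm
  have e5 : x j (y j (x i w)) = x i w := by
    have e6 : K4c s x y j (x i w) = x i w := by
      rw [← Module.End.mul_apply, K4a_comx h hij.symm, Module.End.mul_apply, h1]
    rw [hc, hQx, hxx, map_zero, add_zero, sub_zero] at e6
    exact e6
  have e7 : y i (x i w) = Q w := by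
    rw [hc, e2, zero_add, sub_eq_zero] at h0
    exact h0.symm
  have e8 : x j (y j w) + Q w = w := by
    rw [hc, e1, sub_zero] at h1
    exact h1
  simp only [LinearMap.sub_apply, Module.End.mul_apply, map_sub]
  rw [e3, hyy, hxx, e5, e7, map_zero, map_zero]
  rw [sub_zero, zero_sub, sub_neg_eq_add, e8]

end step

/-- The adjoint of `c i` is `1 - c i`. -/
theorem K6_adj [CharZero K] {V : Type*} [AddCommGroup V] [Module K V] {s : Module.End K V}
    {m : ℕ} {x y : Fin m → Module.End K V}
    {b : V →ₗ[K] V →ₗ[K] K} (hx : ∀ i v w, b (x i v) w = -b v (x i w))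
    (hy : ∀ i v w, b (y i v) w = -b v (y i w)) (hs : ∀ v w, b (s v) w = -b v (s w))
    (i : Fin m) (v w : V) : b (K4c s x y i v) w = b v (w - K4c s x y i w) := by
  have hc : ∀ v : V, K4c s x y i v = x i (y i v) + (1 / 2 : K) • (v - s v) - y i (x i v) :=
    fun v => rfl
  rw [hc, hc]
  simp only [map_sub, map_add, map_smul, LinearMap.sub_apply, LinearMap.add_apply,
    LinearMap.smul_apply, hx, hy, hs, map_neg, neg_neg, smul_eq_mul]
  ring

/-- Chunk K6. A nonzero form of sign `ε` for which all operators of an irreducible Kemmer system are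
skew: the number of operators is odd, `m = 2 j + 1`, and `ε = (-1)^(j+1)`. Step from `m + 2` to `m`: on
`U = {c 0 = 0, c 1 = 1}` the form `(v, w) ↦ b v (E w)`, `E = x 0 y 1 - y 1 x 0`. -/
theorem K6_sign [CharZero K] (m : ℕ) : ∀ (V : Type*) [AddCommGroup V] [Module K V]
    {s : Module.End K V} {x y : Fin m → Module.End K V}, Kemmer s x y →
    ∀ (b : V →ₗ[K] V →ₗ[K] K) (ε : K), b ≠ 0 → (∀ v w, b v w = ε * b w v) →
    (∀ i v w, b (x i v) w = -b v (x i w)) → (∀ i v w, b (y i v) w = -b v (y i w)) →
    (∀ v w, b (s v) w = -b v (s w)) → ∃ j : ℕ, m = 2 * j + 1 ∧ ε = (-1) ^ (j + 1) := by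
  induction m using Nat.strong_induction_on with
  | _ m ih =>
  rcases m with _ | _ | m
  · intro V _ _ s x y h b ε hb hε hx hy hs
    exact absurd (K6_triv h (fun i => i.elim0) (fun i => i.elim0) hs) hb
  · intro V _ _ s x y h b ε hb hε hx hy hs
    exact ⟨0, rfl, by rw [K6_one h hb hε hx hs]; simp⟩
  · intro V _ _ s x y h b ε hb hε hx hy hs
    have h01 : (0 : Fin (m + 1 + 1)) ≠ 1 := by
      intro h1
      have := congrArg Fin.val h1
      simp at this
    obtain ⟨E, hE⟩ : ∃ E, E = x 0 * y 1 - y 1 * x 0 := ⟨_, rfl⟩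
    have hcc := K6_cc h h01
    obtain ⟨hE0, hE1⟩ := K6_E h h01
    rw [← hE] at hE0 hE1
    have hEb : ∀ v w, b (E v) w = -b v (E w) := by
      intro v w
      rw [hE]
      simp only [LinearMap.sub_apply, Module.End.mul_apply, map_sub, hx, hy, neg_neg]
      ring
    have hεε : ∀ v w, b v w = 0 → b w v = 0 := by
      intro v w h0
      rw [hε, h0, mul_zero]
    have hrad : ∀ {v : V}, (∀ w, b v w = 0) → v = 0 := fun {v} hv => K6_rad h hb hx hy hs hv
    have i0 := K4a_idem h 0
    have i1 := K4a_idem h 1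
    have hadj' : ∀ (i : Fin (m + 1 + 1)) (v w : V), b v (K4c s x y i w) = b (v - K4c s x y i v) w := by
      intro i v w
      rw [map_sub, LinearMap.sub_apply, K6_adj hx hy hs, map_sub, sub_sub_cancel]
    -- the space is not trivial
    have hU : ∃ w : V, w ≠ 0 ∧ K4c s x y 0 w = 0 ∧ K4c s x y 1 w = w := by
      by_contra hcon
      push Not at hcon
      have h1 : ∀ v, K4c s x y 1 (v - K4c s x y 0 v) = 0 := by
        intro v
        by_contra h2
        refine hcon _ h2 ?_ ?_
        · rw [← Module.End.mul_apply, hcc, Module.End.mul_apply, map_sub, ← Module.End.mul_apply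
            (K4c s x y 0) (K4c s x y 0), i0, sub_self, map_zero]
        · rw [← Module.End.mul_apply, i1]
      have h2 : ∀ v, K4c s x y 0 (v - K4c s x y 1 v) = 0 := by
        intro v
        apply hrad
        intro w
        apply hεε
        rw [hadj', ← K6_adj hx hy hs 1, h1 w, map_zero, LinearMap.zero_apply]
      have hc01 : K4c s x y 0 = K4c s x y 1 := by
        ext v
        have e1 := h1 v
        have e2 := h2 v
        rw [map_sub, sub_eq_zero, ← Module.End.mul_apply] at e1 e2
        rw [e1, e2, hcc]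
      have hx0 : x 0 = 0 := by
        rw [← K4a_cx h 0, hc01, K4a_comx h h01.symm, ← hc01, K4a_xc h 0]
      have hy0 : y 0 = 0 := by
        rw [← K4a_yc h 0, hc01, ← K4a_comy h h01.symm, ← hc01, K4a_cy h 0]
      have hcQ : K4c s x y 0 = (1 / 2 : K) • (1 - s) := by
        rw [K4c, hx0, hy0, zero_mul, zero_add, sub_zero]
      have hxj : ∀ j, x j = 0 := by
        intro j
        by_cases hj : 0 = j
        · rw [← hj, hx0]
        · rw [← K4a_xQ h j, ← hcQ, ← K4a_comx h hj, hcQ, K4a_Qx h j]
      have hyj : ∀ j, y j = 0 := by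
        intro j
        by_cases hj : 0 = j
        · rw [← hj, hy0]
        · rw [← K4a_Qy h j, ← hcQ, K4a_comy h hj, hcQ, K4a_yQ h j]
      exact hb (K6_triv h hxj hyj hs)
    -- the transfer
    obtain ⟨w₀, hw₀, hw0, hw1⟩ := hU
    have hEw : E w₀ ≠ 0 := by
      intro h0
      apply hw₀
      have := K6_inv h h01 hw0 hw1
      rw [← hE, h0, map_zero] at this
      exact this.symm
    obtain ⟨v₀, hv₀⟩ : ∃ v₀, b v₀ (E w₀) ≠ 0 := by
      by_contra hcon
      push Not at hcon
      exact hEw (hrad fun w => hεε _ _ (hcon w))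
    obtain ⟨u₀, hu₀⟩ : ∃ u₀, u₀ = K4c s x y 1 (v₀ - K4c s x y 0 v₀) := ⟨_, rfl⟩
    have hu0 : K4c s x y 0 u₀ = 0 := by
      rw [hu₀, ← Module.End.mul_apply, hcc, Module.End.mul_apply, map_sub, ← Module.End.mul_apply
        (K4c s x y 0) (K4c s x y 0), i0, sub_self, map_zero]
    have hu1 : K4c s x y 1 u₀ = u₀ := by
      rw [hu₀, ← Module.End.mul_apply, i1]
    have hbu : b u₀ (E w₀) ≠ 0 := by
      have e1 : K4c s x y 1 (E w₀) = 0 := by
        rw [← Module.End.mul_apply, hE1, LinearMap.zero_apply]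
      have e2 : K4c s x y 0 (E w₀) = E w₀ := by
        rw [← Module.End.mul_apply, hE0]
      rw [hu₀, K6_adj hx hy hs 1, e1, sub_zero, ← hadj', e2]
      exact hv₀
    -- commutation
    have hs1 : (1 : Fin (m + 1 + 1)) = (0 : Fin (m + 1)).succ := rfl
    have cx : ∀ j : Fin m, x j.succ.succ * E = E * x j.succ.succ := by
      intro j
      have n0 : (j.succ.succ : Fin (m + 1 + 1)) ≠ 0 := Fin.succ_ne_zero _
      have n1 : (j.succ.succ : Fin (m + 1 + 1)) ≠ 1 := by
        rw [hs1]
        exact fun h1 => Fin.succ_ne_zero j (Fin.succ_injective _ h1)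
      have r := h.r1 0 1 j.succ.succ
      rw [if_neg h01, if_neg n1, add_zero] at r
      rw [hE, mul_sub, sub_mul, ← mul_assoc, K4a_xx h, zero_mul, zero_sub, mul_assoc (y 1),
        K4a_xx h, mul_zero, sub_zero, ← mul_assoc]
      rw [add_comm] at r
      exact neg_eq_of_add_eq_zero_right r
    have cy : ∀ j : Fin m, y j.succ.succ * E = E * y j.succ.succ := by
      intro j
      have n0 : (j.succ.succ : Fin (m + 1 + 1)) ≠ 0 := Fin.succ_ne_zero _
      have r := h.r2 1 0 j.succ.succ
      rw [if_neg h01.symm, if_neg n0, add_zero] at r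
      rw [hE, mul_sub, sub_mul, ← mul_assoc (y j.succ.succ) (y 1), K4a_yy h, zero_mul, sub_zero,
        mul_assoc (x 0), K4a_yy h, mul_zero, zero_sub, ← mul_assoc]
      rw [add_comm] at r
      exact eq_neg_of_add_eq_zero_left r
    have cs : s * E = E * s := by
      rw [hE, mul_sub, sub_mul, ← mul_assoc, h.sx, ← mul_assoc, h.sy, mul_assoc (x 0), h.ys,
        mul_assoc (y 1), h.xs, mul_neg, neg_mul]
    -- the restricted system
    have h' := K4b_kemmer h (b := 0) (Or.inl rfl)
    have h'' := K4b_kemmer h' (b := 1) (Or.inr rfl)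
    have hmem0 : ∀ v : V, K4c s x y 0 v = 0 → v ∈ K4U s x y 0 := by
      intro v hv
      rw [K4b_memU, hv, zero_smul]
    let b' := LinearMap.mk₂ K (fun u w : K4U (LinearMap.restrict s (K4b_us h 0))
        (fun i : Fin (m + 1) => LinearMap.restrict (x i.succ) (K4b_ux h 0 i))
        (fun i : Fin (m + 1) => LinearMap.restrict (y i.succ) (K4b_uy h 0 i)) 1 =>
        b ((u : K4U s x y 0) : V) (E ((w : K4U s x y 0) : V)))
      (fun v v' w => by rw [Submodule.coe_add, Submodule.coe_add, map_add, LinearMap.add_apply])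
      (fun c v w => by rw [Submodule.coe_smul, Submodule.coe_smul, map_smul, LinearMap.smul_apply])
      (fun v w w' => by rw [Submodule.coe_add, Submodule.coe_add, map_add, map_add])
      (fun c v w => by rw [Submodule.coe_smul, Submodule.coe_smul, map_smul, map_smul])
    have hb' : ∀ u w, b' u w = b ((u : K4U s x y 0) : V) (E ((w : K4U s x y 0) : V)) :=
      fun _ _ => rfl
    have hmem1 : ∀ (v : V) (hv : K4c s x y 0 v = 0), K4c s x y 1 v = v →
        (⟨v, hmem0 v hv⟩ : K4U s x y 0) ∈ K4U (LinearMap.restrict s (K4b_us h 0))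
        (fun i : Fin (m + 1) => LinearMap.restrict (x i.succ) (K4b_ux h 0 i))
        (fun i : Fin (m + 1) => LinearMap.restrict (y i.succ) (K4b_uy h 0 i)) 1 := by
      intro v hv hv1
      rw [K4b_memU, one_smul]
      apply Subtype.ext
      exact hv1
    have hb'0 : b' ≠ 0 := by
      intro h0
      apply hbu
      have e1 := hb' ⟨⟨u₀, hmem0 u₀ hu0⟩, hmem1 u₀ hu0 hu1⟩ ⟨⟨w₀, hmem0 w₀ hw0⟩, hmem1 w₀ hw0 hw1⟩
      rw [h0] at e1
      exact e1.symm
    obtain ⟨j, hj, hεj⟩ := ih m (by omega) _ h'' b' (-ε) hb'0 (by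
      intro u w
      rw [hb', hb', neg_mul, ← hε, hEb, neg_neg]) (by
      intro i u w
      rw [hb', hb']
      have e1 : b (x i.succ.succ ((u : K4U s x y 0) : V)) (E ((w : K4U s x y 0) : V)) =
          -b ((u : K4U s x y 0) : V) (E (x i.succ.succ ((w : K4U s x y 0) : V))) := by
        rw [hx, ← Module.End.mul_apply, cx, Module.End.mul_apply]
      exact e1) (by
      intro i u w
      rw [hb', hb']
      have e1 : b (y i.succ.succ ((u : K4U s x y 0) : V)) (E ((w : K4U s x y 0) : V)) =
          -b ((u : K4U s x y 0) : V) (E (y i.succ.succ ((w : K4U s x y 0) : V))) := by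
        rw [hy, ← Module.End.mul_apply, cy, Module.End.mul_apply]
      exact e1) (by
      intro u w
      rw [hb', hb']
      have e1 : b (s ((u : K4U s x y 0) : V)) (E ((w : K4U s x y 0) : V)) =
          -b ((u : K4U s x y 0) : V) (E (s ((w : K4U s x y 0) : V))) := by
        rw [hs, ← Module.End.mul_apply, cs, Module.End.mul_apply]
      exact e1)
    refine ⟨j + 1, by omega, ?_⟩
    rw [pow_succ, ← hεj]
    ring

end Pool.Agent.H49M
end

-- from Lib.H49M.C3
section

/-!
# C3: a Frobenius with an independent root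
-/

set_option autoImplicit false
set_option linter.unusedSectionVars false
namespace Pool.Agent.H49M
open Module Matrix Polynomial Pool.Agent.H53Toric

variable {ι : Type*} [Fintype ι] [DecidableEq ι]

variable {K : Type*} [Field K] [CharZero K] {J : Matrix ι ι K}









/-- Basic facts on the eigenbasis. -/
theorem C3a_eig {x P Q : Matrix ι ι K} {d : ι → K} (hQP : Q * P = 1)
    (hx : x = P * Matrix.diagonal d * Q) (i : ι) : x *ᵥ (P *ᵥ Pi.single i 1) =
      d i • (P *ᵥ Pi.single i 1) := by
  rw [hx, Matrix.mulVec_mulVec, mul_assoc, hQP, mul_one, ← Matrix.mulVec_mulVec,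
    Matrix.diagonal_mulVec_single, mul_one, ← Matrix.mulVec_smul]
  congr 1
  rw [← Pi.single_smul, smul_eq_mul, mul_one]













end Pool.Agent.H49M
end

-- from Lib.H76U.Conj
section

/-!
# Splitting idempotents and change of fields
-/

set_option autoImplicit false
set_option linter.unusedSectionVars false
namespace Pool.Agent.H76U
open Module Matrix Pool.Agent.H53Toric
open Pool.Agent.H76RM (spanK)

variable {ι : Type*} [Fintype ι] [DecidableEq ι]
variable {M : Type*} [Field M] [CharZero M] {K : Type*} [Field K] [CharZero K]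

theorem map_rat (i : M →+* K) (d : Matrix ι ι ℚ) :
    (d.map (algebraMap ℚ M)).map i = d.map (algebraMap ℚ K) := by
  ext a b
  simp

theorem map_mul' (i : M →+* K) (x y : Matrix ι ι M) : (x * y).map i = x.map i * y.map i :=
  Matrix.map_mul

theorem map_smul' (i : M →+* K) (c : M) (x : Matrix ι ι M) : (c • x).map i = i c • x.map i := by
  ext a b
  simp

theorem spanK_map (i : M →+* K) {D : Subalgebra ℚ (Matrix ι ι ℚ)} {x : Matrix ι ι M}
    (hx : x ∈ spanK M D) : x.map i ∈ spanK K D := by
  refine Submodule.span_induction (p := fun x _ => x.map i ∈ spanK K D) ?_ ?_ ?_ ?_ hx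
  · rintro _ ⟨d, hd, rfl⟩
    apply Submodule.subset_span
    exact ⟨d, hd, map_rat i d⟩
  · rw [Matrix.map_zero i (map_zero i)]
    exact (spanK K D).zero_mem
  · intro a b _ _ ha hb
    rw [Matrix.map_add i (map_add i)]
    exact (spanK K D).add_mem ha hb
  · intro c a _ ha
    rw [map_smul' i]
    exact (spanK K D).smul_mem _ ha

theorem spanK_mul {D : Subalgebra ℚ (Matrix ι ι ℚ)} {x y : Matrix ι ι K}
    (hx : x ∈ spanK K D) (hy : y ∈ spanK K D) : x * y ∈ spanK K D := by
  refine Submodule.span_induction (p := fun x _ => x * y ∈ spanK K D) ?_ ?_ ?_ ?_ hx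
  · rintro _ ⟨d, hd, rfl⟩
    refine Submodule.span_induction (p := fun y _ => d.map (algebraMap ℚ K) * y ∈ spanK K D)
      ?_ ?_ ?_ ?_ hy
    · rintro _ ⟨d', hd', rfl⟩
      apply Submodule.subset_span
      exact ⟨d * d', D.mul_mem hd hd', by rw [Matrix.map_mul]⟩
    · rw [mul_zero]; exact (spanK K D).zero_mem
    · intro a b _ _ ha hb
      rw [mul_add]; exact (spanK K D).add_mem ha hb
    · intro c a _ ha
      rw [mul_smul_comm]; exact (spanK K D).smul_mem _ ha
  · rw [zero_mul]; exact (spanK K D).zero_mem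
  · intro a b _ _ ha hb
    rw [add_mul]; exact (spanK K D).add_mem ha hb
  · intro c a _ ha
    rw [smul_mul_assoc]; exact (spanK K D).smul_mem _ ha

theorem IsSplitting.map {D : Subalgebra ℚ (Matrix ι ι ℚ)} {ψ : Matrix ι ι ℚ} {m : ℕ}
    {bar : Fin m → Fin m} {e : Fin m → Matrix ι ι M} (h : IsSplitting D ψ bar e)
    (i : M →+* K) : IsSplitting D ψ bar (fun b => (e b).map i) where
  mem := fun b => spanK_map i (h.mem b)
  idem := by
    intro b
    rw [← map_mul', h.idem]
  ne_zero := by
    intro b h0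
    apply h.ne_zero b
    ext j k
    have h1 := congrFun (congrFun h0 j) k
    rw [Matrix.map_apply, Matrix.zero_apply] at h1
    rw [Matrix.zero_apply]
    exact (map_eq_zero i).1 h1
  barbar := h.barbar
  adj := by
    intro b
    have h1 := congrArg (fun x : Matrix ι ι M => x.map i) (h.adj b)
    simp only [map_mul', map_rat] at h1
    rw [← Matrix.transpose_map]
    exact h1
  corner := by
    intro b x hx
    refine Submodule.span_induction (p := fun x _ => ∃ c : K,
      (e b).map i * x * (e b).map i = c • (e b).map i) ?_ ?_ ?_ ?_ hx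
    · rintro _ ⟨d, hd, rfl⟩
      obtain ⟨c, hc⟩ := h.corner b (d.map (algebraMap ℚ M)) (Submodule.subset_span ⟨d, hd, rfl⟩)
      refine ⟨i c, ?_⟩
      rw [← map_smul', ← hc, map_mul', map_mul', map_rat]
    · exact ⟨0, by rw [mul_zero, zero_mul, zero_smul]⟩
    · rintro a a' _ _ ⟨c, hc⟩ ⟨c', hc'⟩
      exact ⟨c + c', by rw [mul_add, add_mul, hc, hc', add_smul]⟩
    · rintro k a _ ⟨c, hc⟩
      exact ⟨k * c, by rw [mul_smul_comm, smul_mul_assoc, hc, smul_smul]⟩
  orth := by
    intro b c hbc x hx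
    refine Submodule.span_induction (p := fun x _ => (e b).map i * x * (e c).map i = 0)
      ?_ ?_ ?_ ?_ hx
    · rintro _ ⟨d, hd, rfl⟩
      have h1 := h.orth b c hbc (d.map (algebraMap ℚ M)) (Submodule.subset_span ⟨d, hd, rfl⟩)
      rw [← map_rat i d, ← map_mul', ← map_mul', h1, Matrix.map_zero i (map_zero i)]
    · rw [mul_zero, zero_mul]
    · intro a a' _ _ ha ha'
      rw [mul_add, add_mul, ha, ha', add_zero]
    · intro k a _ ha
      rw [mul_smul_comm, smul_mul_assoc, ha, smul_zero]
  full := by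
    have hvec : ∀ (x : Matrix ι ι M) (u : ι → M), (fun j => i ((x *ᵥ u) j)) =
        x.map i *ᵥ fun j => i (u j) := by
      intro x u
      funext j
      simp [Matrix.mulVec, dotProduct, map_sum]
    have h1 : ∀ v : ι → M, (fun j => i (v j)) ∈ Submodule.span K {w | ∃ x ∈ spanK K D, ∃ b,
        ∃ u : ι → K, w = x *ᵥ ((e b).map i *ᵥ u)} := by
      intro v
      refine Submodule.span_induction (p := fun v _ => (fun j => i (v j)) ∈
        Submodule.span K {w | ∃ x ∈ spanK K D, ∃ b, ∃ u : ι → K,
          w = x *ᵥ ((e b).map i *ᵥ u)}) ?_ ?_ ?_ ?_ (h.full v)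
      · rintro _ ⟨x, hx, b, u, rfl⟩
        apply Submodule.subset_span
        refine ⟨x.map i, spanK_map i hx, b, fun j => i (u j), ?_⟩
        rw [hvec, hvec]
      · have : (fun j => i ((0 : ι → M) j)) = 0 := by
          funext j
          simp
        rw [this]
        exact Submodule.zero_mem _
      · intro a b _ _ ha hb
        have : (fun j => i ((a + b) j)) = (fun j => i (a j)) + fun j => i (b j) := by
          funext j
          simp
        rw [this]
        exact Submodule.add_mem _ ha hb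
      · intro c a _ ha
        have : (fun j => i ((c • a) j)) = i c • fun j => i (a j) := by
          funext j
          simp
        rw [this]
        exact Submodule.smul_mem _ _ ha
    intro v
    have h2 : v = ∑ j, v j • (fun k => i ((Pi.single j (1 : M) : ι → M) k)) := by
      funext k
      rw [Finset.sum_apply, Finset.sum_eq_single k]
      · simp
      · intro j _ hj
        simp [Pi.single_apply, Ne.symm hj]
      · intro hk
        exact absurd (Finset.mem_univ k) hk
    rw [h2]
    exact Submodule.sum_mem _ fun j _ => Submodule.smul_mem _ _ (h1 _)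

/-- rank of an idempotent under field extensions -/
theorem rank_idem_map {p : Matrix ι ι M} (hp : p * p = p) (i : M →+* K) :
    (p.map i).rank = p.rank := by
  obtain ⟨P, Q, hPQ, hQP⟩ := idem_factor hp
  have h1 : p.map i = P.map i * Q.map i := by
    rw [← Matrix.map_mul, ← hPQ]
  have h2 : Q.map i * P.map i = (1 : Matrix (Fin p.rank) (Fin p.rank) K) := by
    rw [← Matrix.map_mul, hQP, Matrix.map_one i (map_zero i) (map_one i)]
  apply le_antisymm
  · rw [h1]
    refine (Matrix.rank_mul_le_left _ _).trans ?_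
    exact (Matrix.rank_le_card_width (P.map i)).trans (Fintype.card_fin _).le
  · have h3 : (1 : Matrix (Fin p.rank) (Fin p.rank) K).rank = p.rank := by
      rw [Matrix.rank_one, Fintype.card_fin]
    have h4 : (1 : Matrix (Fin p.rank) (Fin p.rank) K) = Q.map i * (p.map i * P.map i) := by
      rw [h1, Matrix.mul_assoc, h2, Matrix.mul_one, h2]
    calc p.rank = (1 : Matrix (Fin p.rank) (Fin p.rank) K).rank := h3.symm
      _ = (Q.map i * (p.map i * P.map i)).rank := by rw [← h4]
      _ ≤ (p.map i * P.map i).rank := Matrix.rank_mul_le_right _ _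
      _ ≤ (p.map i).rank := Matrix.rank_mul_le_left _ _

/-- two splittings: every idempotent of the first is equivalent to one of the second -/
theorem IsSplitting.conj {D : Subalgebra ℚ (Matrix ι ι ℚ)} {ψ : Matrix ι ι ℚ} {m : ℕ}
    {bar : Fin m → Fin m} {e e' : Fin m → Matrix ι ι K} (h : IsSplitting D ψ bar e)
    (h' : IsSplitting D ψ bar e') (b : Fin m) :
    ∃ c, (∃ d ∈ spanK K D, e' b * d * e c ≠ 0) ∧
      ∀ x : Matrix ι ι K, (∀ d ∈ spanK K D, x * d = d * x) → detb (e' b) x = detb (e c) x := by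
  have hb := h'.ne_zero b
  have hspan : ∀ {f : Fin m → Matrix ι ι K}, IsSplitting D ψ bar f → ∀ y : Matrix ι ι K, y ≠ 0 →
      ∃ c, ∃ d ∈ spanK K D, y * d * f c ≠ 0 := by
    intro f hf y hy
    by_contra hcon
    push Not at hcon
    apply hy
    apply (phi (ι := ι) (K := K)).injective
    apply LinearMap.ext
    intro v
    rw [map_zero, LinearMap.zero_apply, phi_apply]
    refine Submodule.span_induction (p := fun v _ => y *ᵥ v = 0) ?_ ?_ ?_ ?_ (hf.full v)
    · rintro _ ⟨x, hx, c, u, rfl⟩
      rw [Matrix.mulVec_mulVec, Matrix.mulVec_mulVec, hcon c x hx, Matrix.zero_mulVec]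
    · rw [Matrix.mulVec_zero]
    · intro a b _ _ ha hb
      rw [Matrix.mulVec_add, ha, hb, add_zero]
    · intro a v _ hv
      rw [Matrix.mulVec_smul, hv, smul_zero]
  obtain ⟨c, d, hd, hne⟩ := hspan h (e' b) hb
  refine ⟨c, ⟨d, hd, hne⟩, ?_⟩
  obtain ⟨b', d', hd', hne'⟩ := hspan h' _ hne
  have hdd : d * e c * d' ∈ spanK K D := spanK_mul (spanK_mul hd (h.mem c)) hd'
  have hbb' : b = b' := by
    by_contra hbb
    apply hne'
    have := h'.orth b b' hbb _ hdd
    calc e' b * d * e c * d' * e' b' = e' b * (d * e c * d') * e' b' := by noncomm_ring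
      _ = 0 := this
  subst hbb'
  obtain ⟨s, hs⟩ := h'.corner b _ hdd
  have hs0 : s ≠ 0 := by
    rintro rfl
    apply hne'
    calc e' b * d * e c * d' * e' b = e' b * (d * e c * d') * e' b := by noncomm_ring
      _ = 0 := by rw [hs, zero_smul]
  set α := e' b * d * e c with hα
  set β := s⁻¹ • (e c * d' * e' b) with hβ
  have hαD : α ∈ spanK K D := spanK_mul (spanK_mul (h'.mem b) hd) (h.mem c)
  have hβD : β ∈ spanK K D :=
    (spanK K D).smul_mem _ (spanK_mul (spanK_mul (h.mem c) hd') (h'.mem b))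
  have hαβ : α * β = e' b := by
    rw [hβ, mul_smul_comm]
    have : e' b * d * e c * (e c * d' * e' b) = e' b * (d * e c * d') * e' b := by
      calc e' b * d * e c * (e c * d' * e' b) = e' b * d * (e c * e c) * d' * e' b := by
            noncomm_ring
        _ = _ := by rw [h.idem]; noncomm_ring
    rw [this, hs, smul_smul, inv_mul_cancel₀ hs0, one_smul]
  have hβα : β * α = e c := by
    obtain ⟨t, ht⟩ := h.corner c (d' * e' b * d) (spanK_mul (spanK_mul hd' (h'.mem b)) hd)
    have h1 : β * α = (s⁻¹ * t) • e c := by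
      rw [hβ, smul_mul_assoc]
      have : e c * d' * e' b * (e' b * d * e c) = e c * (d' * e' b * d) * e c := by
        calc e c * d' * e' b * (e' b * d * e c) = e c * d' * (e' b * e' b) * d * e c := by
              noncomm_ring
          _ = _ := by rw [h'.idem]; noncomm_ring
      rw [this, ht, smul_smul]
    have h2 : (β * α) * (β * α) = β * α := by
      calc (β * α) * (β * α) = β * (α * β) * α := by noncomm_ring
        _ = β * α := by
          rw [hαβ, hα]
          calc β * e' b * (e' b * d * e c) = β * (e' b * e' b) * d * e c := by noncomm_ring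
            _ = β * (e' b * d * e c) := by rw [h'.idem]; noncomm_ring
    have hec : e c ≠ 0 := by
      intro h0
      apply hne
      rw [hα, h0, mul_zero]
    rw [h1] at h2 ⊢
    rw [smul_mul_smul_comm, h.idem, ← sub_eq_zero, ← sub_smul] at h2
    rcases smul_eq_zero.1 h2 with h3 | h3
    · have h4 : (s⁻¹ * t) * ((s⁻¹ * t) - 1) = 0 := by linear_combination h3
      rcases mul_eq_zero.1 h4 with h5 | h5
      · exfalso
        have h6 : α * β * (α * β) = 0 := by
          calc α * β * (α * β) = α * (β * α) * β := by noncomm_ring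
            _ = 0 := by rw [h1, h5, zero_smul, mul_zero, zero_mul]
        rw [hαβ, h'.idem] at h6
        exact hb h6
      · rw [sub_eq_zero.1 h5, one_smul]
    · exact absurd h3 hec
  intro x hx
  have hxα : x * α = α * x := hx α hαD
  have hxβ : x * β = β * x := hx β hβD
  rw [detb, detb, ← hαβ, ← hβα]
  have e1 : 1 - α * β + x * (α * β) = 1 + ((x - 1) * α) * β := by noncomm_ring
  have e2 : 1 - β * α + x * (β * α) = 1 + β * ((x - 1) * α) := by
    have : β * ((x - 1) * α) = β * x * α - β * α := by noncomm_ring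
    rw [this, ← hxβ]
    noncomm_ring
  rw [e1, e2, Matrix.det_one_add_mul_comm]

end Pool.Agent.H76U
end
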