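import Pool.Agent.Lib.H1M.RC.D_H53Toric_Weil
import Pool.Agent.Lib.H1M.RC.D_H76RM_Defs
import Pool.Agent.Lib.H1M.RC.D_H76U_Defs
import Pool.Agent.Lib.H1M.RC.M005
import Pool.Agent.Lib.H1M.RC.M011
import Pool.Agent.Lib.H1M.RC.M016
import Pool.Agent.Lib.H1M.RC.M020
import Pool.Agent.Lib.H1M.RC.M022

/-! Merged copies (to shorten the build) of Lib.H49M.K5, Lib.H49M.P3, Lib.H49M.P4, Lib.H49M.P5, Lib.H49M.P6, Lib.H49M.P8, Lib.H76RM.Final, Lib.H76U.Grp5, Lib.H76U.Odd5, Lib.H76U.Final4, Lib.H76F.Small, Lib.H76F.Defs, Lib.H76F.Spec, Lib.H76F.Conj, Lib.H76F.Elt. -/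

-- from Lib.H49M.K5
section

/-!
# K5: conclusion in the case of a rank one Jordan pair
-/

set_option autoImplicit false
set_option linter.unusedSectionVars false
namespace Pool.Agent.H49M
open Module Pool.Agent.H53Toric

variable {K : Type*} [Field K] {V : Type*} [AddCommGroup V] [Module K V]

variable {L : Submodule K (Module.End K V)} {ω : V →ₗ[K] V →ₗ[K] K}
  {adj : Module.End K V →ₗ[K] Module.End K V}

theorem K5_range [CharZero K] {s : Module.End K V} (hs2 : s * s = 1) {c : K} (hc : c * c = 1) :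
    LinearMap.range ((1 / 2 : K) • (1 + c • s)) = eig s c := by
  ext v
  rw [eig, LinearMap.mem_ker, LinearMap.sub_apply, LinearMap.smul_apply, Module.End.one_apply,
    sub_eq_zero]
  constructor
  · rintro ⟨w, rfl⟩
    have h1 : s * ((1 / 2 : K) • (1 + c • s)) = c • ((1 / 2 : K) • (1 + c • s)) := by
      have h2 : c • (1 + c • s) = s + c • (1 : Module.End K V) := by
        rw [smul_add, smul_smul, hc, one_smul, add_comm]
      rw [mul_smul_comm, mul_add, mul_smul_comm, hs2, mul_one, smul_comm c, h2]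
    exact LinearMap.congr_fun h1 w
  · intro h1
    refine ⟨v, ?_⟩
    rw [LinearMap.smul_apply, LinearMap.add_apply, LinearMap.smul_apply, h1, smul_smul, hc,
      Module.End.one_apply]
    module

/-- Chunk K5. The two eigenspaces of `s` have the same dimension: `(1 + s)/2` and `(1 - s)/2` are
idempotents with these ranges, exchanged by `adj` (`adj s = - s`, `A0_rank`). -/
theorem K5_eig [CharZero K] [FiniteDimensional K V] [Nontrivial V] (h : Core L ω adj)
    {s : Module.End K V} (hs : s ∈ L) (hs2 : s * s = 1) :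
    finrank K (eig s 1) = finrank K (eig s (-1)) ∧
    finrank K V = 2 * finrank K (eig s 1) := by
  have hadj : adj ((1 / 2 : K) • (1 + (1 : K) • s)) = (1 / 2 : K) • (1 + (-1 : K) • s) := by
    have h1 : adj 1 = 1 := by
      have h2 := A0_mul h (adj 1) 1
      rw [mul_one, A0_adj h, mul_one] at h2
      exact h2.symm
    rw [map_smul, map_add, map_smul, h1, h.skew s hs, one_smul, neg_smul, one_smul]
  have h1 : finrank K (eig s 1) = finrank K (eig s (-1)) := by
    rw [← K5_range hs2 (one_mul (1 : K)), ← K5_range hs2 (by ring : (-1 : K) * -1 = 1), ← hadj,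
      A0_rank h]
  refine ⟨h1, ?_⟩
  have h2 := LinearMap.finrank_range_add_finrank_ker ((1 / 2 : K) • (1 + (1 : K) • s))
  have h3 : LinearMap.ker ((1 / 2 : K) • (1 + (1 : K) • s)) = eig s (-1) := by
    ext v
    rw [eig, LinearMap.mem_ker, LinearMap.mem_ker, LinearMap.smul_apply, LinearMap.add_apply,
      LinearMap.smul_apply, one_smul, LinearMap.sub_apply, LinearMap.smul_apply,
      Module.End.one_apply, smul_eq_zero, neg_smul, one_smul, sub_neg_eq_add, add_comm v]
    constructor
    · rintro (h0 | h0)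
      · norm_num at h0
      · exact h0
    · exact Or.inr
  rw [K5_range hs2 (one_mul (1 : K)), h3, ← h1] at h2
  omega

/-- By `K2_all`, `K3_system`, `K4_rank` and `K5_eig`: `C(n+1,k) = C(n+1,k-1)` with
`1 ≤ k ≤ n + 1`, so `n + 1 = 2 k - 1` (`Nat.succ_mul_choose_eq` or
`C(N,k) k = C(N,k-1) (N-k+1)`), `dim V = C(n+1,k) + C(n+1,k-1) = C(2k,k)` and
`rank e = C(2k-2,k-1)`. If `k = 1` the rank is one. Otherwise use
`Nat.succ_mul_centralBinom_succ : (n+1) * centralBinom (n+1) = 2 * (2n+1) * centralBinom n`. -/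
theorem K5_final [CharZero K] [IsAlgClosed K] [FiniteDimensional K V] [Nontrivial V]
    (h : Core L ω adj) {s e f : Module.End K V} (F : Frame L s e f)
    (ha : ∀ u ∈ J1 L s e f, u * f * u = 0) :
    finrank K (LinearMap.range e) = 1 ∨
    (∃ k : ℕ, 2 ≤ k ∧ finrank K V = k.centralBinom ∧
      finrank K V ≤ 4 * finrank K (LinearMap.range e)) := by
  have hall := fun (x : Module.End K V) (hx : x ∈ Lp L s) (y : Module.End K V)
    (hy : y ∈ Lm L s) => K2_all h F ha hx hy
  obtain ⟨n, x, y, hK, hx, hy⟩ := K3_system h F hall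
  obtain ⟨k, hk1, hk2, h1, h2, h3⟩ := K4_rank hK (by rw [hx]; exact F.e_ne)
  obtain ⟨h4, h5⟩ := K5_eig h F.s_mem F.s_sq
  obtain ⟨j, rfl⟩ : ∃ j, k = j + 1 := ⟨k - 1, by omega⟩
  rw [Nat.add_sub_cancel] at h2 h3
  rw [h1, h2] at h4
  have h6 := Nat.choose_succ_right_eq (n + 1) j
  rw [h4] at h6
  have h7 : 0 < (n + 1).choose j := Nat.choose_pos (by omega)
  have h8 : j + 1 = n + 1 - j := Nat.eq_of_mul_eq_mul_left h7 h6
  have h9 : n = 2 * j := by omega
  have h10 : finrank K (LinearMap.range e) = j.centralBinom := by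
    rw [← hx, h3, h9, Nat.centralBinom]
  have h11 : finrank K V = (j + 1).centralBinom := by
    have e1 : (2 * (j + 1)).choose (j + 1) = (2 * j + 1).choose j + (2 * j + 1).choose (j + 1) := by
      rw [show 2 * (j + 1) = (2 * j + 1) + 1 by ring, Nat.choose_succ_succ]
    rw [h5, h1, Nat.centralBinom, e1, ← h9, h4]
    ring
  rcases Nat.eq_zero_or_pos j with hj | hj
  · left
    rw [h10, hj]; simp
  · right
    refine ⟨j + 1, by omega, h11, ?_⟩
    rw [h10, h11]
    have h12 := Nat.succ_mul_centralBinom_succ j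
    have h13 : (j + 1) * (j + 1).centralBinom ≤ (j + 1) * (4 * j.centralBinom) := by
      rw [h12]
      nlinarith [j.centralBinom_pos]
    exact Nat.le_of_mul_le_mul_left h13 (by omega)

end Pool.Agent.H49M
end

-- from Lib.H49M.P3
section

/-!
# P3: products of blocks
-/

set_option autoImplicit false
set_option linter.unusedSectionVars false
namespace Pool.Agent.H49M
open Module Pool.Agent.H53Toric

variable {K : Type*} [Field K] {V : Type*} [AddCommGroup V] [Module K V]

variable {L : Submodule K (Module.End K V)} {ω : V →ₗ[K] V →ₗ[K] K}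
  {adj : Module.End K V →ₗ[K] Module.End K V}

variable {p q : Fin 3 → Module.End K V}

/-- Chunk P3a. Lifts: `x = p i X p j`, `X ∈ L`; replace `X` by
`X' = p i X p j + q j X q i ∈ L` (`m0`), similarly `y = p j Y' p k`; then
`p i (X' Y' - Y' X') p k = x y`, because `p i Y' = 0` (`i ≠ j`, and `p i q _ = 0`). -/
theorem P3_mul (hl : IsLie L) (B : Blocks L adj p q) {i j k : Fin 3} (hij : i ≠ j) (hjk : j ≠ k)
    (hik : i ≠ k) {x y : Module.End K V} (hx : x ∈ LL L (p i) (p j)) (hy : y ∈ LL L (p j) (p k)) :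
    x * y ∈ LL L (p i) (p k) := by
  obtain ⟨X, hX, rfl⟩ := hx
  obtain ⟨Y, hY, rfl⟩ := hy
  have hX' := B.m0 X hX i j hij
  have hY' := B.m0 Y hY j k hjk
  refine ⟨_, hl _ hX' _ hY', ?_⟩
  have e1 : p i * p j = 0 := by rw [B.pp, if_neg hij]
  have e2 : p i * p i = p i := by rw [B.pp, if_pos rfl]
  have e3 : p k * p k = p k := by rw [B.pp, if_pos rfl]
  have e4 : p j * p j = p j := by rw [B.pp, if_pos rfl]
  have e5 : p i * q j = 0 := B.pq i j
  have e6 : p i * q k = 0 := B.pq i k
  have e7 : q j * p k = 0 := B.qp j k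
  have e8 : q i * p k = 0 := B.qp i k
  symm
  calc p i * ((p i * X * p j + q j * X * q i) * (p j * Y * p k + q k * Y * q j) -
        (p j * Y * p k + q k * Y * q j) * (p i * X * p j + q j * X * q i)) * p k
      = ((p i * p i) * X * p j + (p i * q j) * X * q i) * (p j * Y * (p k * p k) +
          q k * Y * (q j * p k)) -
        ((p i * p j) * Y * p k + (p i * q k) * Y * q j) * (p i * X * p j + q j * X * q i) * p k := by
        noncomm_ring
    _ = p i * X * p j * (p j * Y * p k) := by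
        rw [e1, e2, e3, e5, e6, e7]
        simp

/-- The operator `u f'` is in the block from `2` to `1`. -/
theorem P3_u1 [CharZero K] (h : Core L ω adj) {s e f e' f' u : Module.End K V}
    (G : Grid L s e f e' f' u) : u * f' ∈ LL L (e * f) (e' * f') ∧ e * f * (u * f') = u * f' ∧
      u * f' * (e' * f') = u * f' ∧ e * f * (u * f' - f' * u) * (e' * f') = u * f' := by
  have hff' : f * f' = 0 := A2_mm G.F.f_mem G.F'.f_mem
  have h1 : e * f * (u * f') = u * f' := by
    calc e * f * (u * f') = (e * f * u + u * (f * e)) * f' - u * f * (e * f') := by noncomm_ring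
      _ = u * f' := by rw [G.u1, G.o1, mul_zero, sub_zero]
  have h2 : u * f' * (e' * f') = u * f' := by
    calc u * f' * (e' * f') = u * (f' * e' * f') := by noncomm_ring
      _ = u * f' := by rw [G.F'.fef]
  have h3 : e * f * (u * f' - f' * u) * (e' * f') = u * f' := by
    calc e * f * (u * f' - f' * u) * (e' * f') = e * f * (u * f') * (e' * f') -
          e * (f * f') * u * (e' * f') := by noncomm_ring
      _ = u * f' := by rw [h1, h2, hff']; simp
  exact ⟨⟨_, h.lie _ G.u_mem.1 _ G.F'.f_mem.1, h3.symm⟩, h1, h2, h3⟩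

/-- The operator `u f` is in the block from `1` to `2`. -/
theorem P3_u2 [CharZero K] (h : Core L ω adj) {s e f e' f' u : Module.End K V}
    (G : Grid L s e f e' f' u) : u * f ∈ LL L (e' * f') (e * f) ∧ e' * f' * (u * f) = u * f ∧
      u * f * (e * f) = u * f := by
  have hff' : f' * f = 0 := A2_mm G.F'.f_mem G.F.f_mem
  have h1 : e' * f' * (u * f) = u * f := by
    calc e' * f' * (u * f) = (e' * f' * u + u * (f' * e')) * f - u * f' * (e' * f) := by
          noncomm_ring
      _ = u * f := by rw [G.u2, G.o3, mul_zero, sub_zero]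
  have h2 : u * f * (e * f) = u * f := by
    calc u * f * (e * f) = u * (f * e * f) := by noncomm_ring
      _ = u * f := by rw [G.F.fef]
  refine ⟨⟨_, h.lie _ G.u_mem.1 _ G.F.f_mem.1, ?_⟩, h1, h2⟩
  symm
  calc e' * f' * (u * f - f * u) * (e * f) = e' * f' * (u * f) * (e * f) -
          e' * (f' * f) * u * (e * f) := by noncomm_ring
      _ = u * f := by rw [h1, h2, hff']; simp

theorem P3_u12 {s e f e' f' u : Module.End K V}
    (G : Grid L s e f e' f' u) : u * f' * (u * f) = e * f ∧ u * f * (u * f') = e' * f' := by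
  constructor
  · rw [← mul_assoc, G.ufu']
  · rw [← mul_assoc, G.ufu]

/-- Chunk P3b. The corners `p 1 X p 1`, `X ∈ L`, belong to the algebra generated by the products
`x y`, `x ∈ LL (p 1) (p 2)`, `y ∈ LL (p 2) (p 1)`. Write `p = pp ..`, `q = qq ..`, `u₁ = u f'`,
`u₂ = u f`. Then `u₁ = p 1 (u f' - f' u) p 2 ∈ LL (p 1) (p 2)`, `u₂ = p 2 (u f - f u) p 1 ∈
LL (p 2) (p 1)`, `u₁ u₂ = u f' u f = e f = p 1`, so `p 1` is in the algebra `C`.
By `A2_decomp` and `s p 1 = p 1` only the component in `L0` contributes, and by `A3_span` it is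
enough to treat `p 1 (X Y - Y X) p 1 = p 1 X Y p 1`, `X ∈ Lp`, `Y ∈ Lm` (`X p 1 = X s p 1 = - X p 1`),
which is the sum of `p 1 X q j Y p 1`, `j = 0, 1, 2` (as `Y = (q 0 + q 1 + q 2) Y`).
`j = 1`: `p 1 X q 1 = c e` and `q 1 Y p 1 = c' f` (`K0_ext` for the frame and its swap), product
`c c' p 1`. `j = 2`: `q 2 = f' e'`, `p 1 X f' = p 1 (X f' - f' X) p 2 ∈ LL (p 1) (p 2)`,
`e' Y p 1 = p 2 (e' Y - Y e') p 1 ∈ LL (p 2) (p 1)`.
`j = 0`: let `X' = p 1 X q 0 + p 0 X q 1`, `Y' = q 0 Y p 1 + q 1 Y p 0` (in `L`),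
`Z = u f' - f' u`, `Y'' = Y' Z - Z Y' ∈ L`; `q 0 Y'' p 2 = q 0 Y p 1 u₁`, and with
`Y₃ = q 0 Y'' p 2 + q 2 Y'' p 0 ∈ L`: `p 1 (X' Y₃ - Y₃ X') p 2 = p 1 X q 0 Y p 1 u₁ ∈ LL (p 1) (p 2)`;
multiply by `u₂ ∈ LL (p 2) (p 1)` on the right and use `u₁ u₂ = p 1`. -/
theorem P3_corner [CharZero K] [IsAlgClosed K] [FiniteDimensional K V] [Nontrivial V]
    (h : Core L ω adj) {s e f e' f' u : Module.End K V} (G : Grid L s e f e' f' u)
    {X : Module.End K V} (hX : X ∈ L) :
    e * f * X * (e * f) ∈ NonUnitalAlgebra.adjoin K {T : Module.End K V |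
      ∃ x ∈ LL L (e * f) (e' * f'), ∃ y ∈ LL L (e' * f') (e * f), T = x * y} := by
  set S : Set (Module.End K V) := {T : Module.End K V |
      ∃ x ∈ LL L (e * f) (e' * f'), ∃ y ∈ LL L (e' * f') (e * f), T = x * y} with hS
  have hl := h.lie
  have hSC : ∀ T ∈ S, T ∈ NonUnitalAlgebra.adjoin K S := fun T hT =>
    NonUnitalAlgebra.subset_adjoin K hT
  obtain ⟨hu1, hu1a, hu1b, hu1c⟩ := P3_u1 h G
  obtain ⟨hu2, hu2a, hu2b⟩ := P3_u2 h G
  obtain ⟨hu12, hu21⟩ := P3_u12 G
  have hp1 : e * f ∈ NonUnitalAlgebra.adjoin K S := hSC _ ⟨_, hu1, _, hu2, hu12.symm⟩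
  have B := P2_blocks h G
  have hff' : f * f' = 0 := A2_mm G.F.f_mem G.F'.f_mem
  have he'e : e' * e = 0 := A2_pp G.F'.e_mem G.F.e_mem
  -- brackets
  have key : ∀ X ∈ Lp L s, ∀ Y ∈ Lm L s,
      e * f * (X * Y - Y * X) * (e * f) ∈ NonUnitalAlgebra.adjoin K S := by
    intro X hX Y hY
    obtain ⟨p, hp⟩ : ∃ p, p = pp s e f e' f' := ⟨_, rfl⟩
    obtain ⟨q, hq⟩ : ∃ q, q = qq s e f e' f' := ⟨_, rfl⟩
    rw [← hp, ← hq] at B
    have p1 : p 1 = e * f := by rw [hp]; rfl
    have p2 : p 2 = e' * f' := by rw [hp]; rfl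
    have q1 : q 1 = f * e := by rw [hq]; rfl
    have q2 : q 2 = f' * e' := by rw [hq]; rfl
    have hXe : X * e = 0 := A2_pp hX G.F.e_mem
    have hsp : ∀ i, s * p i = p i := by
      intro i
      have hs2 := G.F.s_sq
      have t1 : s * (e * f) = e * f := by rw [← mul_assoc, G.F.e_mem.2.1]
      have t2 : s * (e' * f') = e' * f' := by rw [← mul_assoc, G.F'.e_mem.2.1]
      fin_cases i
      · change s * p 0 = p 0
        have : p 0 = (1 / 2 : K) • (1 + s) - e * f - e' * f' := by rw [hp]; rfl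
        rw [this, mul_sub, mul_sub, t1, t2, mul_smul_comm, mul_add, hs2, mul_one, add_comm s]
      · change s * p 1 = p 1
        rw [p1, t1]
      · change s * p 2 = p 2
        rw [p2, t2]
    have hXp : ∀ i, X * p i = 0 := by
      intro i
      have h1 : X * p i = -(X * p i) := by
        calc X * p i = X * (s * p i) := by rw [hsp]
          _ = (X * s) * p i := by rw [mul_assoc]
          _ = -(X * p i) := by rw [hX.2.2, neg_mul]
      have h2 : (2 : K) • (X * p i) = 0 := by
        rw [two_smul]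
        nth_rewrite 1 [h1]
        exact neg_add_cancel _
      exact (smul_eq_zero.mp h2).resolve_left two_ne_zero
    have hXY : X * Y = X * q 0 * Y + X * q 1 * Y + X * q 2 * Y := by
      calc X * Y = X * 1 * Y := by rw [mul_one]
        _ = X * (p 0 + p 1 + p 2 + (q 0 + q 1 + q 2)) * Y := by rw [B.sum]
        _ = (X * p 0 + X * p 1 + X * p 2) * Y + (X * q 0 * Y + X * q 1 * Y + X * q 2 * Y) := by
            noncomm_ring
        _ = _ := by rw [hXp, hXp, hXp]; simp
    have hsplit : e * f * (X * Y - Y * X) * (e * f) = e * f * (X * q 0 * Y) * (e * f) +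
        e * f * (X * q 1 * Y) * (e * f) + e * f * (X * q 2 * Y) * (e * f) := by
      calc e * f * (X * Y - Y * X) * (e * f) = e * f * (X * Y) * (e * f) -
            e * f * Y * (X * e) * f := by noncomm_ring
        _ = _ := by rw [hXe, hXY]; simp only [mul_zero, zero_mul, sub_zero]; noncomm_ring
    rw [hsplit]
    refine add_mem (add_mem ?_ ?_) ?_
    · -- the index zero
      have hX' := B.mp X hX.1 1 0 (by decide)
      have hY' := B.mm Y hY.1 0 1 (by decide)
      have hZ : u * f' - f' * u ∈ L := hl _ G.u_mem.1 _ G.F'.f_mem.1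
      have hY'' := hl _ hY' _ hZ
      obtain ⟨Y2, hY2⟩ : ∃ Y2, Y2 = (q 0 * Y * p 1 + q 1 * Y * p 0) * (u * f' - f' * u) -
        (u * f' - f' * u) * (q 0 * Y * p 1 + q 1 * Y * p 0) := ⟨_, rfl⟩
      rw [← hY2] at hY''
      have hY3 := B.mm Y2 hY'' 0 2 (by decide)
      have c1 : p 1 * p 2 = 0 := by rw [B.pp, if_neg (by decide)]
      have c2 : p 0 * p 2 = 0 := by rw [B.pp, if_neg (by decide)]
      have c3 : q 0 * q 0 = q 0 := by rw [B.qq, if_pos rfl]
      have c4 : q 0 * q 1 = 0 := by rw [B.qq, if_neg (by decide)]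
      have c5 : p 1 * p 1 = p 1 := by rw [B.pp, if_pos rfl]
      have c6 : p 1 * p 0 = 0 := by rw [B.pp, if_neg (by decide)]
      have c7 : p 2 * p 2 = p 2 := by rw [B.pp, if_pos rfl]
      have d1 : q 0 * Y2 * p 2 = q 0 * Y * (u * f') := by
        calc q 0 * Y2 * p 2 = ((q 0 * q 0) * Y * p 1 + (q 0 * q 1) * Y * p 0) *
              (u * f' - f' * u) * p 2 -
              q 0 * (u * f' - f' * u) * (q 0 * Y * (p 1 * p 2) + q 1 * Y * (p 0 * p 2)) := by
              rw [hY2]; noncomm_ring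
          _ = q 0 * Y * (p 1 * (u * f' - f' * u) * p 2) := by
              rw [c1, c2, c3, c4]; simp only [mul_zero, zero_mul, add_zero, sub_zero]
              noncomm_ring
          _ = _ := by rw [p1, p2, hu1c]
      have d2 : p 1 * ((p 1 * X * q 0 + p 0 * X * q 1) * (q 0 * Y2 * p 2 + q 2 * Y2 * p 0) -
          (q 0 * Y2 * p 2 + q 2 * Y2 * p 0) * (p 1 * X * q 0 + p 0 * X * q 1)) * p 2 =
          p 1 * X * q 0 * Y * (u * f') := by
        calc p 1 * ((p 1 * X * q 0 + p 0 * X * q 1) * (q 0 * Y2 * p 2 + q 2 * Y2 * p 0) -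
          (q 0 * Y2 * p 2 + q 2 * Y2 * p 0) * (p 1 * X * q 0 + p 0 * X * q 1)) * p 2
            = ((p 1 * p 1) * X * q 0 + (p 1 * p 0) * X * q 1) * (q 0 * Y2 * (p 2 * p 2) +
              q 2 * Y2 * (p 0 * p 2)) -
              p 1 * (q 0 * Y2 * p 2 + q 2 * Y2 * p 0) * (p 1 * X * (q 0 * p 2) +
              p 0 * X * (q 1 * p 2)) := by noncomm_ring
          _ = p 1 * X * q 0 * (q 0 * Y2 * p 2) := by
              rw [c5, c6, c7, c2, B.qp, B.qp]; simp
          _ = p 1 * X * (q 0 * q 0) * Y * (u * f') := by rw [d1]; noncomm_ring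
          _ = _ := by rw [c3]
      refine hSC _ ⟨_, ⟨_, hl _ hX' _ hY3, rfl⟩, _, hu2, ?_⟩
      rw [← p1, ← p2, d2, p1]
      calc e * f * (X * q 0 * Y) * (e * f) = e * f * X * q 0 * Y * (u * f' * (u * f)) := by
            rw [hu12]; noncomm_ring
        _ = _ := by noncomm_ring
    · -- the index one
      obtain ⟨a, ha⟩ := K0_ext hl G.F hX.1
      obtain ⟨b, hb⟩ := G.F.ext Y hY.1
      have : e * f * (X * q 1 * Y) * (e * f) = (a * b) • (e * f) := by
        calc e * f * (X * q 1 * Y) * (e * f) = e * f * X * (f * (e * f * e)) * Y * (e * f) := by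
              rw [q1, G.F.efe]; noncomm_ring
          _ = (e * f * X * (f * e)) * f * (e * Y * e) * f := by noncomm_ring
          _ = (a * b) • (e * (f * e * f)) := by
              rw [ha, hb]
              simp only [mul_smul_comm, smul_mul_assoc, smul_smul]
              rw [mul_comm b a]
              congr 1
          _ = _ := by rw [G.F.fef]
      rw [this]
      exact SMulMemClass.smul_mem _ hp1
    · -- the index two
      refine hSC _ ⟨_, ⟨_, hl _ hX.1 _ G.F'.f_mem.1, rfl⟩, _,
        ⟨_, hl _ G.F'.e_mem.1 _ hY.1, rfl⟩, ?_⟩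
      have d1 : e * f * (X * f' - f' * X) * (e' * f') = e * f * X * f' := by
        calc e * f * (X * f' - f' * X) * (e' * f') = e * f * X * (f' * e' * f') -
              e * (f * f') * X * (e' * f') := by noncomm_ring
          _ = _ := by rw [G.F'.fef, hff']; simp
      have d2 : e' * f' * (e' * Y - Y * e') * (e * f) = e' * Y * (e * f) := by
        calc e' * f' * (e' * Y - Y * e') * (e * f) = (e' * f' * e') * Y * (e * f) -
              e' * f' * Y * (e' * e) * f := by noncomm_ring
          _ = _ := by rw [G.F'.efe, he'e]; simp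
      rw [d1, d2, q2]
      noncomm_ring
  -- the general case
  obtain ⟨a, ha, b, hb, c, hc, hXabc⟩ := A2_decomp h G.F.s_mem G.F.s_sq hX
  have hX2 : e * f * X * (e * f) = e * f * b * (e * f) := by
    have h1 : a * e = 0 := A2_pp ha G.F.e_mem
    have h2 : f * c = 0 := A2_mm G.F.f_mem hc
    calc e * f * X * (e * f) = e * f * (a * e) * f + e * f * b * (e * f) +
          e * (f * c) * (e * f) := by rw [hXabc]; noncomm_ring
      _ = _ := by rw [h1, h2]; simp
  rw [hX2]
  have hspan := A3_span h G.F.s_mem G.F.s_sq hb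
  refine Submodule.span_induction (p := fun b _ => e * f * b * (e * f) ∈
    NonUnitalAlgebra.adjoin K S) ?_ ?_ ?_ ?_ hspan
  · rintro _ ⟨X, hX, Y, hY, rfl⟩
    exact key X hX Y hY
  · simp only [mul_zero, zero_mul]; exact zero_mem _
  · intro x y _ _ h1 h2
    rw [mul_add, add_mul]; exact add_mem h1 h2
  · intro t x _ h1
    rw [mul_smul_comm, smul_mul_assoc]
    exact SMulMemClass.smul_mem _ h1

end Pool.Agent.H49M
end

-- from Lib.H49M.P4
section

/-!
# P4: the corner of a frame is irreducible; Burnside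
-/

set_option autoImplicit false
set_option linter.unusedSectionVars false
namespace Pool.Agent.H49M
open Module Pool.Agent.H53Toric

variable {K : Type*} [Field K] {V : Type*} [AddCommGroup V] [Module K V]

variable {L : Submodule K (Module.End K V)} {ω : V →ₗ[K] V →ₗ[K] K}
  {adj : Module.End K V →ₗ[K] Module.End K V}

/-- Moving a lowering operator through a word. -/
theorem P4_move {g : Submodule K (Module.End K V)} (hg : IsLie g) {E : Module.End K V}
    {U : Submodule K V} {n : ℕ}
    (hn : ∀ l : List (Module.End K V), l.length ≤ n → (∀ x ∈ l, x ∈ g) → ∀ u ∈ U,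
      E (l.prod u) ∈ U) {w : Module.End K V} (hw : w ∈ g) (hw0 : E * w = 0)
    (l₁ : List (Module.End K V)) :
    ∀ l₂ : List (Module.End K V), l₁.length + l₂.length ≤ n → (∀ x ∈ l₁, x ∈ g) →
      (∀ x ∈ l₂, x ∈ g) → ∀ u ∈ U, E ((l₁.prod * w * l₂.prod) u) ∈ U := by
  induction l₁ using List.reverseRecOn with
  | nil =>
    intro l₂ _ _ _ u _
    rw [List.prod_nil, one_mul]
    change (E * (w * l₂.prod)) u ∈ U
    rw [← mul_assoc, hw0, zero_mul]
    exact U.zero_mem
  | append_singleton l₁ x ih =>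
    intro l₂ hlen h1 h2 u hu
    have hx : x ∈ g := h1 x (by simp)
    have h1' : ∀ x ∈ l₁, x ∈ g := fun y hy => h1 y (by simp [hy])
    have hlen' : l₁.length + 1 + l₂.length ≤ n := by
      rwa [List.length_append, List.length_singleton] at hlen
    have e : (l₁ ++ [x]).prod * w * l₂.prod = l₁.prod * w * (x :: l₂).prod +
        (l₁ ++ (x * w - w * x) :: l₂).prod := by
      simp only [List.prod_append, List.prod_cons, List.prod_nil]
      noncomm_ring
    rw [e, LinearMap.add_apply, map_add]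
    apply U.add_mem
    · exact ih (x :: l₂) (by simp only [List.length_cons]; omega) h1' (by
        intro y hy
        rcases List.mem_cons.1 hy with rfl | hy
        · exact hx
        · exact h2 y hy) u hu
    · apply hn _ _ _ u hu
      · simp only [List.length_append, List.length_cons]; omega
      · intro y hy
        rcases List.mem_append.1 hy with hy | hy
        · exact h1' y hy
        · rcases List.mem_cons.1 hy with rfl | hy
          · exact hg x hx w hw
          · exact h2 y hy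

theorem P4_words {g : Submodule K (Module.End K V)} (hg : IsLie g) {E : Module.End K V}
    (low : ∀ z ∈ g, ∃ w ∈ g, E * w = 0 ∧ z * E = E * z * E + w * E) {U : Submodule K V}
    (hU : ∀ u ∈ U, E u = u) (hst : ∀ C ∈ g, ∀ u ∈ U, E (C u) ∈ U) (n : ℕ) :
    ∀ l : List (Module.End K V), l.length ≤ n → (∀ x ∈ l, x ∈ g) → ∀ u ∈ U,
      E (l.prod u) ∈ U := by
  induction n with
  | zero =>
    intro l hl _ u hu
    have : l = [] := List.eq_nil_of_length_eq_zero (Nat.le_zero.1 hl)
    rw [this, List.prod_nil]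
    change E u ∈ U
    rw [hU u hu]; exact hu
  | succ n ih =>
    intro l hl hlg u hu
    rcases List.eq_nil_or_concat l with rfl | ⟨l', z, rfl⟩
    · rw [List.prod_nil]
      change E u ∈ U
      rw [hU u hu]; exact hu
    · rw [List.concat_eq_append] at hl hlg ⊢
      rw [List.length_append, List.length_singleton] at hl
      have hz : z ∈ g := hlg z (by simp)
      have hl' : ∀ x ∈ l', x ∈ g := fun y hy => hlg y (by simp [hy])
      obtain ⟨w, hw, hw0, hzw⟩ := low z hz
      have hzu : z u = E (z u) + w u := by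
        have := LinearMap.congr_fun hzw u
        change z (E u) = E (z (E u)) + w (E u) at this
        rwa [hU u hu] at this
      have e : (l' ++ [z]).prod u = l'.prod (z u) := by
        simp only [List.prod_append, List.prod_cons, List.prod_nil, mul_one]
        rfl
      rw [e, hzu, map_add, map_add]
      apply U.add_mem
      · exact ih l' (by omega) hl' _ (hst z hz u hu)
      · have h1 := P4_move hg ih hw hw0 l' [] (by simp; omega) hl' (by simp) u hu
        simpa using h1

theorem P4_irr_aux {g : Submodule K (Module.End K V)} (hg : IsLie g) (hirr : Irr g)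
    {E : Module.End K V}
    (low : ∀ z ∈ g, ∃ w ∈ g, E * w = 0 ∧ z * E = E * z * E + w * E) {U : Submodule K V}
    (hU : ∀ u ∈ U, E u = u) (hU0 : U ≠ ⊥) (hst : ∀ C ∈ g, ∀ u ∈ U, E (C u) ∈ U) (v : V) :
    E v ∈ U := by
  let W : Submodule K V :=
    { carrier := {v | ∀ l : List (Module.End K V), (∀ x ∈ l, x ∈ g) → E (l.prod v) ∈ U}
      add_mem' := by
        intro a b ha hb l hl
        rw [map_add, map_add]
        exact U.add_mem (ha l hl) (hb l hl)
      zero_mem' := by
        intro l _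
        rw [map_zero, map_zero]; exact U.zero_mem
      smul_mem' := by
        intro c a ha l hl
        rw [map_smul, map_smul]
        exact U.smul_mem c (ha l hl) }
  have hUW : U ≤ W := fun u hu l hl => P4_words hg low hU hst _ l le_rfl hl u hu
  have hWst : ∀ X ∈ g, ∀ w ∈ W, X w ∈ W := by
    intro X hX w hw l hl
    have := hw (l ++ [X]) (by
      intro x hx
      rcases List.mem_append.1 hx with hx | hx
      · exact hl x hx
      · rw [List.mem_singleton.1 hx]; exact hX)
    simpa using this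
  rcases hirr W hWst with hW | hW
  · exact absurd (le_bot_iff.1 (hW ▸ hUW)) hU0
  · have hv : v ∈ W := by rw [hW]; trivial
    simpa using hv [] (by simp)

/-- The lowering part. -/
theorem P4_low [CharZero K] (h : Core L ω adj) {s e f : Module.End K V} (F : Frame L s e f)
    {z : Module.End K V} (hz : z ∈ L) :
    ∃ w ∈ L, e * f * w = 0 ∧ z * (e * f) = e * f * z * (e * f) + w * (e * f) := by
  have hee : e * e = 0 := A2_pp F.e_mem F.e_mem
  have hff : f * f = 0 := A2_mm F.f_mem F.f_mem
  have pp : e * f * (e * f) = e * f := by rw [← mul_assoc, F.efe]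
  have qq : f * e * (f * e) = f * e := by rw [← mul_assoc, F.fef]
  have pq : e * f * (f * e) = 0 := by
    rw [mul_assoc, ← mul_assoc f f, hff, zero_mul, mul_zero]
  have qp : f * e * (e * f) = 0 := by
    rw [mul_assoc, ← mul_assoc e e, hee, zero_mul, mul_zero]
  have key := fun n => P0_block h.lie (c := ![e * f, 1 - e * f - f * e, f * e]) (w := ![1, 0, -1])
    (by
      intro i j
      fin_cases i <;> fin_cases j <;> simp [mul_sub, sub_mul, pp, qq, pq, qp])
    (by
      simp [Fin.sum_univ_succ])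
    (by
      have := K0_H h.lie F
      simp [Fin.sum_univ_succ]
      rwa [← sub_eq_add_neg]) hz n
  have k1 := key (-1)
  have k2 := key (-2)
  simp [Fin.sum_univ_succ] at k1 k2
  refine ⟨_, L.add_mem k1 k2, ?_, ?_⟩
  · simp only [mul_add, ← mul_assoc]
    have a1 : e * f * f = 0 := by rw [mul_assoc, hff, mul_zero]
    have a2 : e * f * (1 - e * f - f * e) = 0 := by
      rw [mul_sub, mul_sub, pp, pq]; simp
    rw [a1, a2]; simp
  · have e1 : z * (e * f) = (e * f + (1 - e * f - f * e) + f * e) * z * (e * f) := by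
      have : e * f + (1 - e * f - f * e) + f * e = 1 := by abel
      rw [this, one_mul]
    have e2 : (1 - e * f - f * e) * (e * f) = 0 := by
      rw [sub_mul, sub_mul, pp, qp]; simp
    rw [e1]
    simp only [add_mul, mul_assoc] at *
    rw [e2, pp]
    simp only [mul_zero, add_zero]
    abel

theorem P4_sub [IsAlgClosed K] {U : Type*} [AddCommGroup U] [Module K U]
    [FiniteDimensional K U] [Nontrivial U] (B : Subalgebra K (Module.End K U))
    (hirr : ∀ W : Submodule K U, (∀ b ∈ B, ∀ w ∈ W, b w ∈ W) → W = ⊥ ∨ W = ⊤)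
    (f : Module.End K U) : f ∈ B := by
  classical
  have : IsSimpleModule B U := by
    have : Nontrivial (Submodule B U) := by
      refine ⟨⊥, ⊤, ?_⟩
      intro h
      obtain ⟨u, hu⟩ := exists_ne (0 : U)
      have : u ∈ (⊥ : Submodule B U) := by rw [h]; trivial
      exact hu ((Submodule.mem_bot B).mp this)
    have : IsSimpleOrder (Submodule B U) := ⟨fun W => by
      have h1 := hirr (W.restrictScalars K) (fun b hb w hw => W.smul_mem ⟨b, hb⟩ hw)
      rcases h1 with h1 | h1
      · left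
        rw [eq_bot_iff]
        intro w hw
        have : w ∈ W.restrictScalars K := hw
        rw [h1, Submodule.mem_bot] at this
        rw [this]; exact Submodule.zero_mem _
      · right
        rw [eq_top_iff]
        intro w _
        have : w ∈ W.restrictScalars K := by rw [h1]; trivial
        exact this⟩
    exact IsSimpleModule.mk
  have hbij := IsSimpleModule.algebraMap_end_bijective_of_isAlgClosed (A := B) (V := U) K
  let f' : Module.End (Module.End B U) U :=
    { toFun := f
      map_add' := f.map_add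
      map_smul' := by
        intro φ m
        obtain ⟨k, rfl⟩ := hbij.2 φ
        simp }
  let b := Module.finBasis K U
  obtain ⟨r, hr⟩ := jacobson_density f' (Finset.univ.image b)
  have : f = (r : Module.End K U) := by
    apply b.ext
    intro i
    exact hr (b i) (Finset.mem_image_of_mem _ (Finset.mem_univ i))
  rw [this]; exact r.2

/-- Chunk P4a. The range of `p = e f` is irreducible under the corners `p X p`, `X ∈ L`. This is
`Peirce.irr` in H53Toric.Core4 (with `Peirce.words`, `Peirce.word_move`, `Peirce.lower`), whose proof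
does not use the parity; either copy it, or argue with the grading by `H = e f - f e`:
`V = V₁ + V₀ + V₋₁` (ranges of `p`, of `1 - p - q`, of `q = f e`), `L = ⊕ L_n`, `-2 ≤ n ≤ 2`
(`P0_block` with `c = (p, 1 - p - q, q)`, `w = (1, 0, -1)`). For `W ≤ V₁` stable under `L_0` (whose
elements act on `V₁` through `p X p`) the space
`W' = W + span L_{-1} W + span L_{-2} W + span L_{-1} L_{-1} W` is stable under `L`
(`L_1 W = L_2 W = 0`; move the raising operators to the right by brackets; degrees below `-1` vanish).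
So `W' = V`, and taking the component in `V₁` (multiply by `p`) gives `W = V₁`. -/
theorem P4_irr [CharZero K] [IsAlgClosed K] [FiniteDimensional K V] [Nontrivial V]
    (h : Core L ω adj) {s e f : Module.End K V} (F : Frame L s e f) {W : Submodule K V}
    (hW : ∀ w ∈ W, (e * f) w = w) (hW0 : W ≠ ⊥) (hst : ∀ X ∈ L, ∀ w ∈ W, (e * f) (X w) ∈ W)
    (v : V) : (e * f) v ∈ W :=
  P4_irr_aux h.lie h.irr (fun _ hz => P4_low h F hz) hW hW0 hst v

/-- Chunk P4b. Burnside's theorem in a corner. Let `U = range p`. The restrictions of the elements of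
`A` to `U` form an algebra of operators of `U` containing the identity (`p ∈ A`) which is
irreducible, so it is everything (Burnside; e.g. from `jacobson_density` and
`IsSimpleModule.algebraMap_end_bijective_of_isAlgClosed`, see `burnside_surj` in
Pool/Agent/Lib/Helper71/Kolchin.lean). -/
theorem P4_burnside [IsAlgClosed K] [FiniteDimensional K V] {p : Module.End K V} (hp : p * p = p)
    (hp0 : p ≠ 0) (A : NonUnitalSubalgebra K (Module.End K V)) (hpA : p ∈ A)
    (hA : ∀ a ∈ A, p * a = a ∧ a * p = a)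
    (hirr : ∀ W : Submodule K V, (∀ w ∈ W, p w = w) → W ≠ ⊥ → (∀ a ∈ A, ∀ w ∈ W, a w ∈ W) →
      ∀ v, p v ∈ W) (T : Module.End K V) : p * T * p ∈ A := by
  set U := LinearMap.range p with hU
  have hpU : ∀ u ∈ U, p u = u := by
    rintro _ ⟨v, rfl⟩
    rw [← Module.End.mul_apply, hp]
  have haU : ∀ a ∈ A, ∀ u : V, a u ∈ U := fun a ha u => ⟨a u, by
    rw [← Module.End.mul_apply, (hA a ha).1]⟩
  have : Nontrivial U := by
    rw [Submodule.nontrivial_iff_ne_bot]
    intro h
    exact hp0 (LinearMap.range_eq_bot.mp h)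
  let B : Subalgebra K (Module.End K U) :=
    { carrier := {T | ∃ a ∈ A, ∀ u : U, ((T u : U) : V) = a u}
      mul_mem' := by
        rintro S T ⟨a, ha, h1⟩ ⟨b, hb, h2⟩
        exact ⟨a * b, A.mul_mem ha hb, fun u => by
          rw [Module.End.mul_apply, h1, h2, Module.End.mul_apply]⟩
      add_mem' := by
        rintro S T ⟨a, ha, h1⟩ ⟨b, hb, h2⟩
        exact ⟨a + b, A.add_mem ha hb, fun u => by
          rw [LinearMap.add_apply, LinearMap.add_apply, Submodule.coe_add, h1, h2]⟩
      algebraMap_mem' := fun r => ⟨r • p, SMulMemClass.smul_mem r hpA, fun u => by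
        rw [LinearMap.smul_apply, hpU u u.2]; rfl⟩ }
  have hT : ∀ v, (p * T * p) v ∈ U := fun v => ⟨T (p v), rfl⟩
  have hmem := P4_sub B (by
    intro W hW
    by_cases hW0 : W = ⊥
    · exact Or.inl hW0
    · right
      rw [eq_top_iff]
      rintro ⟨u, hu⟩ -
      have := hirr (W.map U.subtype) (by
        rintro _ ⟨w, _, rfl⟩
        exact hpU w w.2) (by
        intro h0
        apply hW0
        rw [eq_bot_iff]
        intro w hw
        have h4 : (w : V) ∈ W.map U.subtype := ⟨w, hw, rfl⟩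
        rw [h0, Submodule.mem_bot] at h4
        exact Subtype.ext h4) (by
        rintro a ha _ ⟨w, hw, rfl⟩
        exact ⟨_, hW (a.restrict (fun u _ => haU a ha u) : Module.End K U)
          ⟨a, ha, fun u => rfl⟩ w hw, rfl⟩) u
      rw [hpU u hu] at this
      obtain ⟨w, hw, hwv⟩ := this
      have : w = ⟨u, hu⟩ := Subtype.ext hwv
      rwa [← this])
    ((p * T * p).restrict (p := U) (q := U) (fun u _ => hT u))
  obtain ⟨a, ha, h1⟩ := hmem
  have : p * T * p = a := by
    ext v
    have h2 := h1 ⟨p v, v, rfl⟩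
    have h3 : (p * T * p) (p v) = a (p v) := h2
    rw [← Module.End.mul_apply, ← Module.End.mul_apply, mul_assoc _ p p, hp, (hA a ha).2] at h3
    exact h3
  rw [this]; exact ha

end Pool.Agent.H49M
end

-- from Lib.H49M.P5
section

/-!
# P5: the dichotomy
-/

set_option autoImplicit false
set_option linter.unusedSectionVars false
namespace Pool.Agent.H49M
open Module Pool.Agent.H53Toric

variable {K : Type*} [Field K] {V : Type*} [AddCommGroup V] [Module K V]

variable {L : Submodule K (Module.End K V)} {ω : V →ₗ[K] V →ₗ[K] K}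
  {adj : Module.End K V →ₗ[K] Module.End K V}

/-- Chunk P5a. Every corner operator is in the algebra generated by the products
`x y`, `x ∈ LL (p 1) (p 2)`, `y ∈ LL (p 2) (p 1)`: `P4_burnside` with `P4_irr`, `P3_corner`
(`p 1 = u₁ u₂` is in the algebra, see `P3_corner`). -/
theorem P5_all [CharZero K] [IsAlgClosed K] [FiniteDimensional K V] [Nontrivial V]
    (h : Core L ω adj) {s e f e' f' u : Module.End K V} (G : Grid L s e f e' f' u)
    (T : Module.End K V) :
    e * f * T * (e * f) ∈ NonUnitalAlgebra.adjoin K {T : Module.End K V |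
      ∃ x ∈ LL L (e * f) (e' * f'), ∃ y ∈ LL L (e' * f') (e * f), T = x * y} := by
  set S : Set (Module.End K V) := {T : Module.End K V |
      ∃ x ∈ LL L (e * f) (e' * f'), ∃ y ∈ LL L (e' * f') (e * f), T = x * y} with hS
  obtain ⟨hu1, -, -, -⟩ := P3_u1 h G
  obtain ⟨hu2, -, -⟩ := P3_u2 h G
  obtain ⟨hu12, -⟩ := P3_u12 G
  have hp1 : e * f ∈ NonUnitalAlgebra.adjoin K S :=
    NonUnitalAlgebra.subset_adjoin K ⟨_, hu1, _, hu2, hu12.symm⟩
  have pp : e * f * (e * f) = e * f := by rw [← mul_assoc, G.F.efe]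
  have hp0 : e * f ≠ 0 := by
    intro h0
    apply G.F.e_ne
    rw [← G.F.efe, h0, zero_mul]
  refine P4_burnside pp hp0 _ hp1 ?_ ?_ T
  · intro a ha
    induction ha using NonUnitalAlgebra.adjoin_induction with
    | mem a ha =>
      obtain ⟨_, ⟨X, hX, rfl⟩, _, ⟨Y, hY, rfl⟩, rfl⟩ := ha
      constructor
      · calc e * f * (e * f * X * (e' * f') * (e' * f' * Y * (e * f))) =
            e * f * (e * f) * X * (e' * f') * (e' * f' * Y * (e * f)) := by noncomm_ring
          _ = _ := by rw [pp]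
      · calc e * f * X * (e' * f') * (e' * f' * Y * (e * f)) * (e * f) =
            e * f * X * (e' * f') * (e' * f' * Y * (e * f * (e * f))) := by noncomm_ring
          _ = _ := by rw [pp]
    | add a b _ _ h1 h2 => exact ⟨by rw [mul_add, h1.1, h2.1], by rw [add_mul, h1.2, h2.2]⟩
    | zero => simp
    | mul a b _ _ h1 h2 =>
      exact ⟨by rw [← mul_assoc, h1.1], by rw [mul_assoc, h2.2]⟩
    | smul r a _ h1 =>
      exact ⟨by rw [mul_smul_comm, h1.1], by rw [smul_mul_assoc, h1.2]⟩
  · intro W hW hW0 hst v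
    refine P4_irr h G.F hW hW0 ?_ v
    intro X hX w hw
    have h1 := hst _ (P3_corner h G hX) w hw
    rw [Module.End.mul_apply, Module.End.mul_apply, hW w hw] at h1
    exact h1

/-- A nonzero two-sided ideal of the corner algebra is everything. -/
theorem P5_ideal [FiniteDimensional K V] {p : Module.End K V} (hp : p * p = p)
    (M : Submodule K (Module.End K V)) (hM : ∀ m ∈ M, p * m = m ∧ m * p = m)
    (hl : ∀ T : Module.End K V, ∀ m ∈ M, p * T * p * m ∈ M)
    (hr : ∀ T : Module.End K V, ∀ m ∈ M, m * (p * T * p) ∈ M) (h0 : M ≠ ⊥)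
    (T : Module.End K V) : p * T * p ∈ M := by
  obtain ⟨m, hm, hm0⟩ := Submodule.exists_mem_ne_zero_of_ne_bot h0
  obtain ⟨v₀, hv₀⟩ : ∃ v, m v ≠ 0 := by
    by_contra hcon
    push Not at hcon
    exact hm0 (LinearMap.ext hcon)
  obtain ⟨φ, hφ⟩ := Module.Projective.exists_dual_ne_zero (R := K) hv₀
  -- rank one operators
  have key : ∀ (ψ : V →ₗ[K] K) (z : V), p * (ψ.smulRight z : Module.End K V) * p ∈ M := by
    intro ψ z
    have h1 := hl ((φ.smulRight z : Module.End K V)) _ (hr (ψ.smulRight v₀ : Module.End K V) m hm)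
    have h2 : p * (φ.smulRight z : Module.End K V) * p * (m * (p * (ψ.smulRight v₀ : Module.End K V)
        * p)) = (φ (m v₀)) • (p * (ψ.smulRight z : Module.End K V) * p) := by
      have e1 : p * (φ.smulRight z : Module.End K V) * p * (m * (p * (ψ.smulRight v₀ :
          Module.End K V) * p)) = p * (φ.smulRight z : Module.End K V) * (p * m * p) *
          (ψ.smulRight v₀ : Module.End K V) * p := by noncomm_ring
      rw [e1, (hM m hm).1, (hM m hm).2]
      ext v
      simp only [Module.End.mul_apply, LinearMap.smulRight_apply, LinearMap.smul_apply, map_smul,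
        smul_smul, smul_eq_mul]
      rw [mul_comm]
    rw [h2] at h1
    have h3 := M.smul_mem (φ (m v₀))⁻¹ h1
    rwa [smul_smul, inv_mul_cancel₀ hφ, one_smul] at h3
  have hT : T = ∑ i, ((Module.finBasis K V).coord i).smulRight (T (Module.finBasis K V i)) := by
    ext v
    rw [LinearMap.sum_apply]
    conv_lhs => rw [← (Module.finBasis K V).sum_repr v]
    rw [map_sum]
    refine Finset.sum_congr rfl fun i _ => ?_
    rw [map_smul]; rfl
  rw [hT, Finset.mul_sum, Finset.sum_mul]
  exact M.sum_mem fun i _ => key _ _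

/-- Chunk P5b. Let `p = pp ..`, `u₁ = u f' ∈ LL (p 1) (p 2)`, `u₂ = u f ∈ LL (p 2) (p 1)`,
`u₁ u₂ = p 1`, `u₂ u₁ = p 2`, `M` the span of the products `x y`, `x ∈ LL (p 1) (p 0)`,
`y ∈ LL (p 0) (p 1)`, `C` the algebra of `P5_all`. By `P3_mul` (distinct indices)
`LL (p 1)(p 2) · LL (p 2)(p 1) · LL (p 1)(p 0) ⊆ LL (p 1)(p 0)` and
`LL (p 0)(p 1) · LL (p 1)(p 2) · LL (p 2)(p 1) ⊆ LL (p 0)(p 1)`, so `C M ⊆ M`, `M C ⊆ M`; by
`P5_all` `M` is a two-sided ideal of the algebra of all `T = p 1 T p 1`. If `M ≠ 0`, then `M` is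
everything (for `m = p 1 m p 1 ≠ 0` every rank one corner operator is `a m b` with corner operators
`a, b`). For `x y ∈ M`: `x (y u₁) ∈ LL (p 1) (p 2)` by `P3_mul` twice, so `T u₁ ∈ LL (p 1) (p 2)`
for all `T ∈ M`: first alternative.
If `M = 0`: show `p 0 = 0`. Let `W` be the span of `range (p 1)`, `range (p 2)`,
`y v` (`y ∈ LL (p 0)(p 1)` or `LL (p 0)(p 2)`). It is stable under `L0`: for `Z ∈ L0`
(commutes with `s`, so `Z = ∑ p i Z p j + ∑ q i Z q j`) and `y = p 0 Y p 1`: `p 1 Z y = (p 1 Z p 0) y`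
is in `M = 0`; `p 2 Z y = u₂ (u₁ (p 2 Z p 0)) y` with `u₁ (p 2 Z p 0) ∈ LL (p 1)(p 0)`, so zero;
`p 0 Z y`: with `Z₀` the block diagonal part of `Z` (`md`) and `Y' = p 0 Y p 1 + q 1 Y q 0`,
`p 0 (Z₀ Y' - Y' Z₀) p 1 = p 0 Z y - y (p 1 Z p 1)`, so `p 0 Z y v ∈ LL(p 0)(p 1) v + y V ⊆ W`. For
`y ∈ LL (p 0)(p 2)` write `y = (y u₂) u₁` with `y u₂ ∈ LL (p 0)(p 1)`: same vectors. By `A3_vec`
`W = V₊` (`e ≠ 0` so `p 1 ≠ 0`). Hence `p 0 V = span LL(p 0)(p 1) V`, on which all
`p 1 Z p 0` and `p 2 Z p 0`, `Z ∈ L`, vanish: so these operators are zero and `range (p 0)` is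
stable under `L0`; if it were nonzero it would be `V₊` by `A3_vec`, contradicting `p 1 ≠ 0`. -/
theorem P5_dich [CharZero K] [IsAlgClosed K] [FiniteDimensional K V] [Nontrivial V]
    (h : Core L ω adj) {s e f e' f' u : Module.End K V} (G : Grid L s e f e' f' u) :
    (∀ T : Module.End K V, e * f * T * (e * f) * (u * f') ∈ LL L (e * f) (e' * f')) ∨
    (1 / 2 : K) • (1 + s) = e * f + e' * f' := by
  have hl := h.lie
  have B := P2_blocks h G
  obtain ⟨hu1, -, -, -⟩ := P3_u1 h G
  obtain ⟨hu2, -, -⟩ := P3_u2 h G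
  obtain ⟨hu12, hu21⟩ := P3_u12 G
  have hall := P5_all h G
  obtain ⟨p, hp⟩ : ∃ p, p = pp s e f e' f' := ⟨_, rfl⟩
  obtain ⟨q, hq⟩ : ∃ q, q = qq s e f e' f' := ⟨_, rfl⟩
  rw [← hp, ← hq] at B
  have p0 : p 0 = (1 / 2 : K) • (1 + s) - e * f - e' * f' := by rw [hp]; rfl
  have p1 : p 1 = e * f := by rw [hp]; rfl
  have p2 : p 2 = e' * f' := by rw [hp]; rfl
  rw [← p1, ← p2] at hu1 hu2
  rw [← p1] at hu12
  rw [← p2] at hu21
  simp only [← p1, ← p2] at hall ⊢
  have n10 : (1 : Fin 3) ≠ 0 := by decide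
  have n12 : (1 : Fin 3) ≠ 2 := by decide
  have n20 : (2 : Fin 3) ≠ 0 := by decide
  have c11 : p 1 * p 1 = p 1 := by rw [B.pp, if_pos rfl]
  have c22 : p 2 * p 2 = p 2 := by rw [B.pp, if_pos rfl]
  have c00 : p 0 * p 0 = p 0 := by rw [B.pp, if_pos rfl]
  have c01 : p 0 * p 1 = 0 := by rw [B.pp, if_neg n10.symm]
  have c02 : p 0 * p 2 = 0 := by rw [B.pp, if_neg n20.symm]
  obtain ⟨M, hMdef⟩ : ∃ M : Submodule K (Module.End K V), M = Submodule.span K
    {T | ∃ x ∈ LL L (p 1) (p 0), ∃ y ∈ LL L (p 0) (p 1), T = x * y} := ⟨_, rfl⟩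
  have hMgen : ∀ x ∈ LL L (p 1) (p 0), ∀ y ∈ LL L (p 0) (p 1), x * y ∈ M := fun x hx y hy => by
    rw [hMdef]; exact Submodule.subset_span ⟨x, hx, y, hy, rfl⟩
  -- the algebra acts on `M`
  have hCM : ∀ c ∈ NonUnitalAlgebra.adjoin K {T : Module.End K V |
      ∃ x ∈ LL L (p 1) (p 2), ∃ y ∈ LL L (p 2) (p 1), T = x * y}, ∀ m ∈ M,
      c * m ∈ M ∧ m * c ∈ M := by
    intro c hc
    induction hc using NonUnitalAlgebra.adjoin_induction with
    | mem a ha =>
      obtain ⟨x, hx, y, hy, rfl⟩ := ha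
      intro m hm
      rw [hMdef] at hm
      induction hm using Submodule.span_induction with
      | mem m hm =>
        obtain ⟨x', hx', y', hy', rfl⟩ := hm
        constructor
        · have h1 := P3_mul hl B n12 n20 n10 hx (P3_mul hl B n12.symm n10 n20 hy hx')
          have h2 := hMgen _ h1 _ hy'
          convert h2 using 1
          noncomm_ring
        · have h1 := P3_mul hl B n20.symm n12.symm n10.symm
            (P3_mul hl B n10.symm n12 n20.symm hy' hx) hy
          have h2 := hMgen _ hx' _ h1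
          convert h2 using 1
          noncomm_ring
      | zero => simp
      | add a b _ _ h1 h2 =>
        exact ⟨by rw [mul_add]; exact M.add_mem h1.1 h2.1,
          by rw [add_mul]; exact M.add_mem h1.2 h2.2⟩
      | smul r a _ h1 =>
        exact ⟨by rw [mul_smul_comm]; exact M.smul_mem _ h1.1,
          by rw [smul_mul_assoc]; exact M.smul_mem _ h1.2⟩
    | add a b _ _ h1 h2 =>
      intro m hm
      exact ⟨by rw [add_mul]; exact M.add_mem (h1 m hm).1 (h2 m hm).1,
        by rw [mul_add]; exact M.add_mem (h1 m hm).2 (h2 m hm).2⟩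
    | zero => intro m _; simp
    | mul a b _ _ h1 h2 =>
      intro m hm
      exact ⟨by rw [mul_assoc]; exact (h1 _ (h2 m hm).1).1,
        by rw [← mul_assoc]; exact (h2 _ (h1 m hm).2).2⟩
    | smul r a _ h1 =>
      intro m hm
      exact ⟨by rw [smul_mul_assoc]; exact M.smul_mem _ (h1 m hm).1,
        by rw [mul_smul_comm]; exact M.smul_mem _ (h1 m hm).2⟩
  by_cases hM0 : M = ⊥
  · -- the second alternative
    right
    have hMz : ∀ x ∈ LL L (p 1) (p 0), ∀ y ∈ LL L (p 0) (p 1), x * y = 0 := fun x hx y hy => by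
      have h1 := hMgen x hx y hy
      rwa [hM0, Submodule.mem_bot] at h1
    have hPsum : ∀ v, s v = v → p 0 v + p 1 v + p 2 v = v := by
      intro v hv
      rw [p0, p1, p2]
      simp only [LinearMap.sub_apply, LinearMap.smul_apply, LinearMap.add_apply,
        Module.End.one_apply, hv]
      rw [← two_smul K, smul_smul]
      norm_num
      abel
    have hs1 : s * p 1 = p 1 := by rw [p1, ← mul_assoc, G.F.e_mem.2.1]
    have hs2 : s * p 2 = p 2 := by rw [p2, ← mul_assoc, G.F'.e_mem.2.1]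
    have hs0 : s * p 0 = p 0 := by
      rw [p1] at hs1
      rw [p2] at hs2
      rw [p0, mul_sub, mul_sub, hs1, hs2, mul_smul_comm, mul_add, G.F.s_sq, mul_one, add_comm s]
    have p1ne : p 1 ≠ 0 := by
      intro h0
      apply G.F.e_ne
      rw [← G.F.efe, ← p1, h0, zero_mul]
    obtain ⟨x₀, hx₀⟩ : ∃ x, p 1 x ≠ 0 := by
      by_contra hcon
      push Not at hcon
      exact p1ne (LinearMap.ext hcon)
    have hs1v : ∀ x, s (p 1 x) = p 1 x := fun x => by rw [← Module.End.mul_apply, hs1]
    have hs0v : ∀ x, s (p 0 x) = p 0 x := fun x => by rw [← Module.End.mul_apply, hs0]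
    have ap : ∀ {A B : Module.End K V} (w : V), A = B → A w = B w := by
      intro A B w hAB; rw [hAB]
    -- the annihilated vectors
    let N : Submodule K V :=
      { carrier := {v | p 0 v = v ∧ ∀ Z ∈ L, p 1 (Z v) = 0 ∧ p 2 (Z v) = 0}
        add_mem' := by
          rintro a b ⟨h1, h2⟩ ⟨h3, h4⟩
          refine ⟨by rw [map_add, h1, h3], fun Z hZ => ?_⟩
          rw [map_add, map_add, map_add, (h2 Z hZ).1, (h2 Z hZ).2, (h4 Z hZ).1, (h4 Z hZ).2]
          simp
        zero_mem' := by simp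
        smul_mem' := by
          rintro c a ⟨h1, h2⟩
          refine ⟨by rw [map_smul, h1], fun Z hZ => ?_⟩
          rw [map_smul, map_smul, map_smul, (h2 Z hZ).1, (h2 Z hZ).2]
          simp }
    have hNs : ∀ v ∈ N, s v = v := by
      rintro v ⟨h1, -⟩
      rw [← h1, hs0v]
    have hN : N = ⊥ := by
      by_contra hN0
      have h1 : p 1 x₀ ∈ N := by
        refine A3_vec h G.F.s_mem G.F.s_sq hNs hN0 ?_ (hs1v x₀)
        rintro Z ⟨hZ, hsZ⟩ w hw
        have hsw := hNs w hw
        obtain ⟨hw1, hw2⟩ := hw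
        have hZw : s (Z w) = Z w := by
          rw [← Module.End.mul_apply, hsZ, Module.End.mul_apply, hsw]
        have hZw0 : p 0 (Z w) = Z w := by
          have h3 := hPsum _ hZw
          rwa [(hw2 Z hZ).1, (hw2 Z hZ).2, add_zero, add_zero] at h3
        refine ⟨hZw0, fun Z' hZ' => ?_⟩
        have gen : ∀ i : Fin 3, i ≠ 0 → (∀ Z ∈ L, p i (Z w) = 0) → p i (Z' (Z w)) = 0 := by
          intro i hi hiw
          have hA := B.m0 Z' hZ' i 0 hi
          obtain ⟨A, hAdef⟩ : ∃ A, A = p i * Z' * p 0 + q 0 * Z' * q i := ⟨_, rfl⟩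
          rw [← hAdef] at hA
          have hAw : A w = 0 := by
            have e1 : A * p 0 = p i * Z' * p 0 := by
              rw [hAdef, add_mul, mul_assoc _ (p 0), c00, mul_assoc _ (q i), B.qp, mul_zero,
                add_zero]
            have e2 := ap w e1
            rw [Module.End.mul_apply, Module.End.mul_apply, Module.End.mul_apply, hw1] at e2
            rw [e2, hiw Z' hZ']
          have e3 : p i (Z' (Z w)) = p i (A (Z w)) := by
            have e1 : p i * A * p 0 = p i * Z' * p 0 := by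
              have e4 : p i * p i = p i := by rw [B.pp, if_pos rfl]
              rw [hAdef, mul_add, add_mul, ← mul_assoc, ← mul_assoc, e4, mul_assoc _ (p 0), c00,
                ← mul_assoc, ← mul_assoc, B.pq, zero_mul, zero_mul, zero_mul, add_zero]
            have e2 := ap (Z w) e1
            simp only [Module.End.mul_apply] at e2
            rw [hZw0] at e2
            exact e2.symm
          have h4 := hiw _ (hl A hA Z hZ)
          rw [LinearMap.sub_apply, Module.End.mul_apply, Module.End.mul_apply, hAw, map_zero,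
            sub_zero] at h4
          rw [e3, h4]
        exact ⟨gen 1 n10 fun Z hZ => (hw2 Z hZ).1, gen 2 n20 fun Z hZ => (hw2 Z hZ).2⟩
      have h2 := h1.1
      rw [← Module.End.mul_apply, c01, LinearMap.zero_apply] at h2
      exact hx₀ h2.symm
    have hLL01 : ∀ y ∈ LL L (p 0) (p 1), y = 0 := by
      rintro y hy
      ext v
      have hyv : y v ∈ N := by
        have hp0y : p 0 * y = y := by
          obtain ⟨Y, hY, rfl⟩ := hy
          rw [← mul_assoc, ← mul_assoc, c00]
        have h0y : p 0 (y v) = y v := by rw [← Module.End.mul_apply, hp0y]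
        refine ⟨h0y, fun Z hZ => ⟨?_, ?_⟩⟩
        · have h1 := hMz _ ⟨Z, hZ, rfl⟩ y hy
          have h2 := ap v h1
          simp only [Module.End.mul_apply, LinearMap.zero_apply] at h2
          rwa [h0y] at h2
        · have h1 := hMz _ (P3_mul hl B n12 n20 n10 hu1 ⟨Z, hZ, rfl⟩) y hy
          have h2 : p 2 * Z * y = 0 := by
            calc p 2 * Z * y = (p 2 * p 2) * Z * (p 0 * y) := by rw [c22, hp0y]
              _ = (u * f * (u * f')) * p 2 * Z * (p 0 * y) := by rw [hu21]
              _ = u * f * (u * f' * (p 2 * Z * p 0) * y) := by noncomm_ring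
              _ = 0 := by rw [h1, mul_zero]
          have h3 := ap v h2
          simpa only [Module.End.mul_apply, LinearMap.zero_apply] using h3
      rw [hN, Submodule.mem_bot] at hyv
      rw [hyv]; rfl
    have hLL02 : ∀ y ∈ LL L (p 0) (p 2), y = 0 := by
      intro y hy
      have h1 := hLL01 _ (P3_mul hl B n20.symm n12.symm n10.symm hy hu2)
      have hy2 : y * p 2 = y := by
        obtain ⟨Y, hY, rfl⟩ := hy
        rw [mul_assoc, c22]
      calc y = y * (u * f * (u * f')) := by rw [hu21, hy2]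
        _ = y * (u * f) * (u * f') := by noncomm_ring
        _ = 0 := by rw [h1, zero_mul]
    -- the complement
    have hp00 : p 0 = 0 := by
      ext v
      let W : Submodule K V :=
        { carrier := {v | s v = v ∧ p 0 v = 0}
          add_mem' := by
            rintro a b ⟨h1, h2⟩ ⟨h3, h4⟩
            exact ⟨by rw [map_add, h1, h3], by rw [map_add, h2, h4, add_zero]⟩
          zero_mem' := by simp
          smul_mem' := by
            rintro c a ⟨h1, h2⟩
            exact ⟨by rw [map_smul, h1], by rw [map_smul, h2, smul_zero]⟩ }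
      have h1 : p 0 v ∈ W := by
        refine A3_vec h G.F.s_mem G.F.s_sq (W := W) (fun w hw => hw.1) ?_ ?_ (hs0v v)
        · intro h0
          have h2 : p 1 x₀ ∈ W := ⟨hs1v x₀, by
            rw [← Module.End.mul_apply, c01, LinearMap.zero_apply]⟩
          rw [h0, Submodule.mem_bot] at h2
          exact hx₀ h2
        · rintro Z ⟨hZ, hsZ⟩ w ⟨hw1, hw2⟩
          refine ⟨by rw [← Module.End.mul_apply, hsZ, Module.End.mul_apply, hw1], ?_⟩
          have h3 := hPsum w hw1
          rw [hw2, zero_add] at h3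
          rw [← h3, map_add, map_add]
          have h4 := ap w (hLL01 _ ⟨Z, hZ, rfl⟩)
          have h5 := ap w (hLL02 _ ⟨Z, hZ, rfl⟩)
          simp only [Module.End.mul_apply, LinearMap.zero_apply] at h4 h5
          rw [h4, h5, add_zero]
      have h2 := h1.2
      rw [← Module.End.mul_apply, c00] at h2
      rw [h2]; rfl
    rw [p0] at hp00
    rw [p1, p2]
    rw [sub_sub, sub_eq_zero] at hp00
    exact hp00
  · left
    intro T
    have hMp : ∀ m ∈ M, p 1 * m = m ∧ m * p 1 = m := by
      intro m hm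
      rw [hMdef] at hm
      induction hm using Submodule.span_induction with
      | mem m hm =>
        obtain ⟨_, ⟨X, hX, rfl⟩, _, ⟨Y, hY, rfl⟩, rfl⟩ := hm
        constructor
        · simp only [← mul_assoc]; rw [c11]
        · simp only [mul_assoc]; rw [c11]
      | zero => simp
      | add a b _ _ h1 h2 => exact ⟨by rw [mul_add, h1.1, h2.1], by rw [add_mul, h1.2, h2.2]⟩
      | smul r a _ h1 => exact ⟨by rw [mul_smul_comm, h1.1], by rw [smul_mul_assoc, h1.2]⟩
    have hT := P5_ideal c11 M hMp (fun T m hm => (hCM _ (hall T) m hm).1)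
      (fun T m hm => (hCM _ (hall T) m hm).2) hM0 T
    have hfin : ∀ m ∈ M, m * (u * f') ∈ LL L (p 1) (p 2) := by
      intro m hm
      rw [hMdef] at hm
      induction hm using Submodule.span_induction with
      | mem m hm =>
        obtain ⟨x, hx, y, hy, rfl⟩ := hm
        rw [mul_assoc]
        exact P3_mul hl B n10 n20.symm n12 hx (P3_mul hl B n10.symm n12 n20.symm hy hu1)
      | zero => rw [zero_mul]; exact (LL L (p 1) (p 2)).zero_mem
      | add a b _ _ h1 h2 => rw [add_mul]; exact (LL L (p 1) (p 2)).add_mem h1 h2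
      | smul r a _ h1 => rw [smul_mul_assoc]; exact (LL L (p 1) (p 2)).smul_mem r h1
    exact hfin _ hT

end Pool.Agent.H49M
end

-- from Lib.H49M.P6
section

/-!
# P6: the norm relation and the case of a full corner
-/

set_option autoImplicit false
set_option linter.unusedSectionVars false
namespace Pool.Agent.H49M
open Module Pool.Agent.H53Toric

variable {K : Type*} [Field K] {V : Type*} [AddCommGroup V] [Module K V]

variable {L : Submodule K (Module.End K V)} {ω : V →ₗ[K] V →ₗ[K] K}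
  {adj : Module.End K V →ₗ[K] Module.End K V}

/-- Chunk P6a. Let `a = p 1 a p 1` with `a u₁ ∈ LL (p 1)(p 2)`, `u₁ = u f'`, `p = pp ..`. Then
`a e adj(a) = c e`. Proof: `Z = a u₁ - adj (a u₁) ∈ L`: if `a u₁ = p 1 X p 2` with `X ∈ L`, then
`p 1 X p 2 + q 2 X q 1 ∈ L` (`m0`) and `adj (p 1 X p 2) = q 2 adj X q 1 = - q 2 X q 1`. With
`b = a u₁` (`= p 1 b p 2`) and `b' = adj b` (`= q 2 b' q 1`), `e' = p 2 e' q 2`:
`[Z, e'] = b e' + e' b'` and `[Z, [Z, e']] = 2 b e' b'`, so `b e' b' ∈ L`, and it equals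
`p 1 (b e' b') q 1 ∈ K e` (`K0_ext`). Finally `u₁ e' adj u₁ = u f' e' f' u = u f' u = e`
(`adj (u f') = adj f' adj u = f' u`), and `b e' b' = a (u₁ e' adj u₁) adj a = a e adj a`. -/
theorem P6_norm [CharZero K] (h : Core L ω adj) {s e f e' f' u : Module.End K V}
    (G : Grid L s e f e' f' u) {a : Module.End K V} (ha1 : e * f * a = a) (ha2 : a * (e * f) = a)
    (ha : a * (u * f') ∈ LL L (e * f) (e' * f')) : ∃ c : K, a * e * adj a = c • e := by
  have hl := h.lie
  have B := P2_blocks h G
  obtain ⟨p, hp⟩ : ∃ p, p = pp s e f e' f' := ⟨_, rfl⟩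
  obtain ⟨q, hq⟩ : ∃ q, q = qq s e f e' f' := ⟨_, rfl⟩
  rw [← hp, ← hq] at B
  have p1 : p 1 = e * f := by rw [hp]; rfl
  have p2 : p 2 = e' * f' := by rw [hp]; rfl
  have q1 : q 1 = f * e := by rw [hq]; rfl
  have q2 : q 2 = f' * e' := by rw [hq]; rfl
  obtain ⟨X, hX, hb⟩ := ha
  rw [← p1, ← p2] at hb
  have hb' : adj (p 1 * X * p 2) = -(q 2 * X * q 1) := by
    rw [A0_mul h, A0_mul h, B.adjp, B.adjp, h.skew X hX]
    noncomm_ring
  have hZ := B.m0 X hX 1 2 (by decide)
  have he'L := G.F'.e_mem.1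
  have h1 := hl _ hZ _ he'L
  have h2 := hl _ hZ _ h1
  have hee' : e * e' = 0 := A2_pp G.F.e_mem G.F'.e_mem
  have he'e : e' * e = 0 := A2_pp G.F'.e_mem G.F.e_mem
  have c1 : q 1 * e' = 0 := by rw [q1, mul_assoc, hee', mul_zero]
  have c2 : e' * p 1 = 0 := by rw [p1, ← mul_assoc, he'e, zero_mul]
  have c3 : p 2 * p 1 = 0 := by rw [B.pp, if_neg (by decide)]
  have c4 : q 1 * q 2 = 0 := by rw [B.qq, if_neg (by decide)]
  have c5 : q 1 * p 1 = 0 := B.qp 1 1
  have e1 : (p 1 * X * p 2 + q 2 * X * q 1) * e' - e' * (p 1 * X * p 2 + q 2 * X * q 1) =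
      p 1 * X * p 2 * e' - e' * (q 2 * X * q 1) := by
    calc (p 1 * X * p 2 + q 2 * X * q 1) * e' - e' * (p 1 * X * p 2 + q 2 * X * q 1)
        = p 1 * X * p 2 * e' + q 2 * X * (q 1 * e') - ((e' * p 1) * X * p 2 +
          e' * (q 2 * X * q 1)) := by noncomm_ring
      _ = _ := by rw [c1, c2]; simp
  have e2 : (p 1 * X * p 2 + q 2 * X * q 1) * (p 1 * X * p 2 * e' - e' * (q 2 * X * q 1)) -
      (p 1 * X * p 2 * e' - e' * (q 2 * X * q 1)) * (p 1 * X * p 2 + q 2 * X * q 1) =
      (-2 : K) • (p 1 * X * p 2 * e' * (q 2 * X * q 1)) := by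
    calc (p 1 * X * p 2 + q 2 * X * q 1) * (p 1 * X * p 2 * e' - e' * (q 2 * X * q 1)) -
      (p 1 * X * p 2 * e' - e' * (q 2 * X * q 1)) * (p 1 * X * p 2 + q 2 * X * q 1)
        = p 1 * X * (p 2 * p 1) * X * p 2 * e' + q 2 * X * (q 1 * p 1) * X * p 2 * e'
          - q 2 * X * (q 1 * e') * (q 2 * X * q 1)
          - p 1 * X * p 2 * (e' * p 1) * X * p 2
          + e' * q 2 * X * (q 1 * p 1) * X * p 2 + e' * q 2 * X * (q 1 * q 2) * X * q 1
          - (p 1 * X * p 2 * e' * (q 2 * X * q 1) + p 1 * X * p 2 * e' * (q 2 * X * q 1)) := by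
          noncomm_ring
      _ = -(p 1 * X * p 2 * e' * (q 2 * X * q 1) + p 1 * X * p 2 * e' * (q 2 * X * q 1)) := by
          rw [c1, c2, c3, c4, c5]; simp
      _ = _ := by module
  rw [e1, e2] at h2
  obtain ⟨c, hc⟩ := K0_ext hl G.F h2
  have e3 : e * f * ((-2 : K) • (p 1 * X * p 2 * e' * (q 2 * X * q 1))) * (f * e) =
      (-2 : K) • (p 1 * X * p 2 * e' * (q 2 * X * q 1)) := by
    rw [mul_smul_comm, smul_mul_assoc, ← p1, ← q1]
    congr 1
    calc p 1 * (p 1 * X * p 2 * e' * (q 2 * X * q 1)) * q 1 =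
        (p 1 * p 1) * X * p 2 * e' * (q 2 * X * (q 1 * q 1)) := by noncomm_ring
      _ = _ := by rw [B.pp, if_pos rfl, B.qq, if_pos rfl]
  rw [e3] at hc
  have e4 : a * e * adj a = p 1 * X * p 2 * e' * adj (p 1 * X * p 2) := by
    rw [← hb, A0_mul h, A0_mul h, h.skew f' G.F'.f_mem.1, h.skew u G.u_mem.1, neg_mul_neg]
    calc a * e * adj a = a * (u * f' * u) * adj a := by rw [G.ufu']
      _ = a * (u * (f' * e' * f') * u) * adj a := by rw [G.F'.fef]
      _ = _ := by noncomm_ring
  refine ⟨(1 / 2 : K) * c, ?_⟩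
  rw [e4, hb', mul_smul, ← hc, smul_smul, mul_neg, ← neg_one_smul K]
  norm_num

/-- Chunk P6b. If the conclusion of `P6_norm` holds for all corner operators, the rank is one. The
bilinear form `β(v, w) = ω (v, e w)` on `V` is symmetric (`ω(v, e w) = -ω(e v, w) = ω(w, e v)` since
`adj e = -e`) and nonzero, so there is `v₀` with `ω (v₀, e v₀) ≠ 0`. Let `g = (e v₀) ⊗ ω(·, v₀)`... :
take the rank one operator `a v = ω (v, v₀) • (e v₀)`; it satisfies `p a = a` (`p e = e`), but
`a p = a` may fail: use `a' = a p`: `a' v = ω (p v, v₀) • e v₀ = ω (v, q v₀) • e v₀` with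
`q = adj p = f e`, and `e q = e`: so replace `v₀` by `q v₀` (same values `e v₀`, `ω(v₀, e v₀)`:
`ω(q v₀, e q v₀) = ω(q v₀, e v₀) = ω (v₀, p e v₀)`). Then `a e adj a` is, by
`adj a : w ↦ - ω (w, e v₀)... • v₀` up to sign, the operator `w ↦ ± ω(e v₀, v₀) ω(w, e v₀) e v₀`, which
is not zero and has rank one; being `c e` with `c ≠ 0`, `e` has rank one. -/
theorem P6_one [CharZero K] [FiniteDimensional K V] (h : Core L ω adj)
    {s e f e' f' u : Module.End K V} (G : Grid L s e f e' f' u)
    (hall : ∀ T : Module.End K V, e * f * T * (e * f) * (u * f') ∈ LL L (e * f) (e' * f')) :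
    finrank K (LinearMap.range e) = 1 := by
  have hskew : ∀ v w, ω v w = -ω w v := by
    intro v w
    have h1 := h.alt (v + w)
    simp only [map_add, LinearMap.add_apply] at h1
    rw [h.alt v, h.alt w, zero_add, add_zero] at h1
    exact eq_neg_of_add_eq_zero_right h1
  have hae : adj e = -e := h.skew e G.F.e_mem.1
  have hsym : ∀ v w, ω v (e w) = ω w (e v) := by
    intro v w
    rw [hskew, h.spec, hae, LinearMap.neg_apply, map_neg, neg_neg]
  -- a vector with nonzero value
  obtain ⟨v₀, hv₀⟩ : ∃ v, ω v (e v) ≠ 0 := by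
    by_contra hcon
    push Not at hcon
    apply G.F.e_ne
    ext w
    apply h.nd
    intro v
    have h1 := hcon (v + w)
    simp only [map_add, LinearMap.add_apply] at h1
    rw [hcon v, hcon w, zero_add, add_zero, hsym w v, ← two_mul] at h1
    have h2 := (mul_eq_zero.mp h1).resolve_left two_ne_zero
    rw [hskew, h2, neg_zero]
  have hev : e v₀ ≠ 0 := by
    intro h0; rw [h0, map_zero] at hv₀; exact hv₀ rfl
  -- the rank one operator
  obtain ⟨T, hT⟩ : ∃ T : Module.End K V, ∀ v, T v = ω v v₀ • e v₀ :=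
    ⟨(ω.flip v₀).smulRight (e v₀), fun v => rfl⟩
  have hpe : ∀ v, (e * f) (e v) = e v := by
    intro v
    rw [← Module.End.mul_apply, G.F.efe]
  have hTe : ∀ v, (e * f * T * (e * f)) (e v) = ω (e v) v₀ • e v₀ := by
    intro v
    rw [Module.End.mul_apply, Module.End.mul_apply, hpe, hT, map_smul, hpe]
  obtain ⟨a, ha⟩ : ∃ a, a = e * f * T * (e * f) := ⟨_, rfl⟩
  have t1 : e * f * (e * f) = e * f := by rw [← mul_assoc, G.F.efe]
  obtain ⟨c, hc⟩ := P6_norm h G (a := a) (by rw [ha, mul_assoc (e * f) T, ← mul_assoc (e * f), t1])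
    (by rw [ha, mul_assoc _ (e * f) (e * f), t1]) (by rw [ha]; exact hall T)
  rw [← ha] at hTe
  have hval : ∀ w, c • e w = (ω v₀ (e v₀) * ω w (e v₀)) • e v₀ := by
    intro w
    have h1 := LinearMap.congr_fun hc w
    rw [Module.End.mul_apply, Module.End.mul_apply, hTe, LinearMap.smul_apply] at h1
    rw [← h1]
    congr 1
    have h2 : ω (adj a w) (e v₀) = ω w (a (e v₀)) := by
      rw [h.spec, A0_adj h]
    rw [h.spec, hae, LinearMap.neg_apply, map_neg, h2, hTe, map_smul, smul_eq_mul, hskew (e v₀) v₀]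
    ring
  have hc0 : c ≠ 0 := by
    intro h0
    have h1 := hval v₀
    rw [h0, zero_smul] at h1
    rcases smul_eq_zero.mp h1.symm with h2 | h2
    · exact hv₀ (mul_self_eq_zero.mp h2)
    · exact hev h2
  have hrange : LinearMap.range e = Submodule.span K {e v₀} := by
    apply le_antisymm
    · rintro _ ⟨w, rfl⟩
      rw [Submodule.mem_span_singleton]
      refine ⟨c⁻¹ * (ω v₀ (e v₀) * ω w (e v₀)), ?_⟩
      rw [mul_smul, ← hval w, smul_smul, inv_mul_cancel₀ hc0, one_smul]
    · rw [Submodule.span_singleton_le_iff_mem]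
      exact ⟨v₀, rfl⟩
  rw [hrange]
  exact finrank_span_singleton hev

end Pool.Agent.H49M
end

-- from Lib.H49M.P8
section

/-!
# P8: the case where two frames fill everything
-/

set_option autoImplicit false
set_option linter.unusedSectionVars false
namespace Pool.Agent.H49M
open Module Pool.Agent.H53Toric

variable {K : Type*} [Field K] {V : Type*} [AddCommGroup V] [Module K V]

variable {L : Submodule K (Module.End K V)} {ω : V →ₗ[K] V →ₗ[K] K}
  {adj : Module.End K V →ₗ[K] Module.End K V}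

/-- Chunk P8a. The dimension of `V₊` is twice the rank of `e`: `p 1 = e f`, `p 2 = e' f'` have the
same rank because `u₁ u₂ = p 1`, `u₂ u₁ = p 2` for `u₁ = u f'`, `u₂ = u f`; use `K0_rank`, `K5_eig`. -/
theorem P8_four [CharZero K] [IsAlgClosed K] [FiniteDimensional K V] [Nontrivial V]
    (h : Core L ω adj) {s e f e' f' u : Module.End K V} (G : Grid L s e f e' f' u)
    (h0 : (1 / 2 : K) • (1 + s) = e * f + e' * f') :
    finrank K V = 4 * finrank K (LinearMap.range e) := by
  obtain ⟨hu12, hu21⟩ := P3_u12 G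
  have t1 := (K0_rank G.F).2.2
  have t2 : LinearMap.trace K V (e' * f') = LinearMap.trace K V (e * f) := by
    rw [← hu12, ← hu21, LinearMap.trace_mul_comm]
  have t3 := (A1_setup h G.F.s_mem G.F.s_sq).tr s G.F.s_mem
  have h1 := congrArg (LinearMap.trace K V) h0
  rw [map_smul, map_add, map_add, t2, t1, t3, LinearMap.trace_one, add_zero, smul_eq_mul] at h1
  have h2 : (finrank K V : K) = ((4 * finrank K (LinearMap.range e) : ℕ) : K) := by
    push_cast
    linear_combination 2 * h1
  exact Nat.cast_injective h2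



end Pool.Agent.H49M
end

-- from Lib.H76RM.Final
section

/-!
# Monodromy groups of representations commuting with an algebra
-/

set_option autoImplicit false
set_option linter.unusedSectionVars false
namespace Pool.Agent.H76RM
open Module Matrix Pool.Agent.H53Toric

variable {ι : Type*} [Fintype ι] [DecidableEq ι]

theorem split_of {K : Type*} [Field K] [Algebra ℚ K] {D : Subalgebra ℚ (Matrix ι ι ℚ)}
    {ψ : Matrix ι ι ℚ} {m : ℕ} {e : Fin m → Matrix ι ι K} (h : IsSplitting D ψ e) :
    Split (ψ.map (algebraMap ℚ K)) (spanK K D) e where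
  one := by
    apply Submodule.subset_span
    refine ⟨1, D.one_mem, ?_⟩
    simp
  mem := h.mem
  idem := h.idem
  adj := h.adj
  corner := h.corner
  orth := h.orth
  full := h.full

theorem comm_span {K : Type*} [Field K] [Algebra ℚ K] {D : Subalgebra ℚ (Matrix ι ι ℚ)}
    {x : Matrix ι ι K}
    (hx : ∀ d ∈ D, x * d.map (algebraMap ℚ K) = d.map (algebraMap ℚ K) * x) :
    ∀ d ∈ spanK K D, x * d = d * x := by
  intro d hd
  refine Submodule.span_induction (p := fun d _ => x * d = d * x) ?_ ?_ ?_ ?_ hd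
  · rintro _ ⟨d, hd, rfl⟩
    exact hx d hd
  · rw [mul_zero, zero_mul]
  · intro a b _ _ ha hb
    rw [mul_add, add_mul, ha, hb]
  · intro a y _ hy
    rw [mul_smul_comm, smul_mul_assoc, hy]


end Pool.Agent.H76RM
end

-- from Lib.H76U.Grp5
section

/-!
# The closure contains the preimage of the torus
-/

set_option autoImplicit false
set_option linter.unusedSectionVars false
namespace Pool.Agent.H76U
open Module Matrix Pool.Agent.H53Toric
open Pool.Agent.H76RM (zar_commute zlie_commute)

variable {ι : Type*} [Fintype ι] [DecidableEq ι] {K : Type*} [Field K]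
variable {B : Type*} [Fintype B] [DecidableEq B]

theorem group_mem [IsAlgClosed K] [CharZero K] {J : Matrix ι ι K}
    {DD : Submodule K (Matrix ι ι K)}
    {bar : B → B} {e : B → Matrix ι ι K} (h : Split4 J DD bar e) {S : Set (Matrix ι ι K)}
    (hS1 : (1 : Matrix ι ι K) ∈ S)
    (hS : ∀ a ∈ S, ∀ b ∈ S, a * b ∈ S) (hSD : ∀ s ∈ S, ∀ d ∈ DD, s * d = d * s)
    (hA : ∀ b u w, Core (om J) (fun b => phi (e b)) bar b u w → ∃ X ∈ zlie S,
      (∀ v w, om J (X *ᵥ v) w = - om J v (X *ᵥ w)) ∧ phi X * phi (e b) = tw (om J) u w ∧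
      phi X * phi (e (bar b)) = tw (om J) w u ∧
      ∀ c, c ≠ b → c ≠ bar b → phi X * phi (e c) = 0)
    (hJ : Jᵀ = -J) (hdet : IsUnit J.det) {𝓗 : Set (Matrix ι ι K)}
    (h𝓗 : ∀ x ∈ 𝓗, x ∈ hodgeProj S)
    (hadj : ∀ x ∈ 𝓗, xᵀ * J * x = 0 ∧ xᵀ * J + J * x = J)
    {x : Matrix ι ι K} (hx : x.det ≠ 0) (hxD : ∀ d ∈ DD, x * d = d * x) {c : K} (hc0 : c ≠ 0)
    (hc : xᵀ * J * x = c • J)
    (hchar : ∀ (a : B → ℤ) (a₀ : ℤ), (∀ y ∈ 𝓗, ∑ b, a b * ((y * e b).rank : ℤ) + a₀ = 0) →
      (∏ b, detb (e b) x ^ a b) * c ^ a₀ = 1) : x ∈ zar S := by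
  classical
  have hxu : IsUnit x.det := isUnit_iff_ne_zero.2 hx
  have hinvc : ∀ y y' : Matrix ι ι K, y * y' = 1 → ∀ d, y * d = d * y → y' * d = d * y' := by
    intro y y' hyy d hd
    have hy'y : y' * y = 1 := mul_eq_one_comm.1 hyy
    calc y' * d = y' * d * (y * y') := by rw [hyy, mul_one]
      _ = y' * (d * y) * y' := by noncomm_ring
      _ = y' * (y * d) * y' := by rw [hd]
      _ = (y' * y) * d * y' := by noncomm_ring
      _ = d * y' := by rw [hy'y, one_mul]
  have hxx : x * x⁻¹ = 1 := Matrix.mul_nonsing_inv _ hxu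
  have hdet0 : ∀ b, detb (e b) x ≠ 0 := by
    intro b h0
    have := detb_inv (x := x) (h.idem b) (hinvc x x⁻¹ hxx _ (hxD _ (h.mem b))) hxx
    rw [h0, zero_mul] at this
    exact zero_ne_one this
  -- the finite set of types
  set T : Set (B → ℕ) := {n | ∃ y ∈ 𝓗, ∀ b, n b = (y * e b).rank} with hT
  have hTfin : T.Finite := by
    apply (Set.finite_Iic (fun _ : B => Fintype.card ι)).subset
    rintro n ⟨y, -, hn⟩
    intro b
    rw [hn]
    exact Matrix.rank_le_card_height _
  have : Fintype T := hTfin.fintype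
  have hex : ∀ s : T, ∃ y ∈ 𝓗, ∀ b, s.1 b = (y * e b).rank := fun s => s.2
  choose Y hY𝓗 hYn using hex
  set n : T → Option B → ℤ := fun s => fun o => o.elim 1 (fun b => (s.1 b : ℤ)) with hn
  set δ : Option B → Kˣ := fun o => o.elim (Units.mk0 c hc0)
    (fun b => Units.mk0 (detb (e b) x) (hdet0 b)) with hδ
  obtain ⟨t, ht⟩ := solve_chars n δ (by
    intro a ha
    have h1 := hchar (fun b => a (some b)) (a none) (by
      intro y hy
      have h2 := ha ⟨fun b => (y * e b).rank, y, hy, fun _ => rfl⟩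
      rw [Fintype.sum_option] at h2
      change a none * 1 + ∑ b, a (some b) * ((y * e b).rank : ℤ) = 0 at h2
      rw [mul_one, add_comm] at h2
      exact h2)
    apply Units.ext
    rw [Units.coe_prod, Fintype.prod_option]
    simp only [Units.val_zpow_eq_zpow_val]
    change c ^ a none * ∏ b, detb (e b) x ^ a (some b) = ((1 : Kˣ) : K)
    rw [mul_comm, h1, Units.val_one])
  have htc : c = ∏ s, (t s : K) := by
    have h1 := congrArg Units.val (ht none)
    rw [Units.coe_prod] at h1
    change c = ∏ s, ((t s ^ (1 : ℤ) : Kˣ) : K) at h1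
    simpa using h1
  have htb : ∀ b, detb (e b) x = ∏ s, (t s : K) ^ (s.1 b) := by
    intro b
    have h1 := congrArg Units.val (ht (some b))
    rw [Units.coe_prod] at h1
    change detb (e b) x = ∏ s, ((t s ^ ((s.1 b : ℕ) : ℤ) : Kˣ) : K) at h1
    simpa using h1
  -- the element of the torus
  have hcommS : ∀ y ∈ zar S, ∀ d ∈ DD, y * d = d * y := fun y hy d hd =>
    zar_commute (fun s hs => hSD s hs d hd) hy
  have hone : ∀ y ∈ 𝓗, ∀ t : K, t ≠ 0 → (1 + (t - 1) • y) * (1 + (t⁻¹ - 1) • y) = 1 := by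
    intro y hy t ht
    have hyy := (h𝓗 y hy).1
    have h1 : (1 + (t - 1) • y) * (1 + (t⁻¹ - 1) • y) =
        1 + ((t - 1) + (t⁻¹ - 1)) • y + ((t - 1) * (t⁻¹ - 1)) • (y * y) := by
      rw [add_mul, mul_add, mul_add, one_mul, one_mul, mul_one, smul_mul_smul_comm]
      module
    rw [h1, hyy, add_assoc, ← add_smul]
    have h2 : (t - 1) + (t⁻¹ - 1) + (t - 1) * (t⁻¹ - 1) = 0 := by
      field_simp
      ring
    rw [h2, zero_smul, add_zero]
  have key : ∀ F : Finset T, ∃ y ∈ zar S, ∃ y' ∈ zar S, y * y' = 1 ∧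
      yᵀ * J * y = (∏ s ∈ F, (t s : K)) • J ∧
      ∀ b, detb (e b) y = ∏ s ∈ F, (t s : K) ^ (s.1 b) := by
    intro F
    induction F using Finset.induction_on with
    | empty =>
      refine ⟨1, subset_zar S hS1, 1, subset_zar S hS1, one_mul 1, ?_, ?_⟩
      · rw [Finset.prod_empty, one_smul]; simp
      · intro b
        rw [Finset.prod_empty, detb_one]
    | insert s F hsF ih =>
      obtain ⟨y, hy, y', hy', hyy', hyJ, hyb⟩ := ih
      have ht0 : (t s : K) ≠ 0 := (t s).ne_zero
      have hsz := (h𝓗 _ (hY𝓗 s)).2 (t s : K) ht0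
      have hsz' := (h𝓗 _ (hY𝓗 s)).2 (t s : K)⁻¹ (inv_ne_zero ht0)
      have hYc : ∀ b, Y s * e b = e b * Y s := by
        intro b
        have h1 := (h𝓗 _ (hY𝓗 s)).2 2 (by norm_num)
        have h2 := hcommS _ h1 _ (h.mem b)
        have e1 : (2 : K) - 1 = 1 := by norm_num
        rw [e1, one_smul, add_mul, mul_add, one_mul, mul_one, add_right_inj] at h2
        exact h2
      refine ⟨y * (1 + ((t s : K) - 1) • Y s), zar_mul hS hy hsz,
        (1 + ((t s : K)⁻¹ - 1) • Y s) * y', zar_mul hS hsz' hy', ?_, ?_, ?_⟩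
      · calc y * (1 + ((t s : K) - 1) • Y s) * ((1 + ((t s : K)⁻¹ - 1) • Y s) * y') =
            y * ((1 + ((t s : K) - 1) • Y s) * (1 + ((t s : K)⁻¹ - 1) • Y s)) * y' := by
              noncomm_ring
          _ = 1 := by rw [hone _ (hY𝓗 s) _ ht0, mul_one, hyy']
      · obtain ⟨h1, h2⟩ := hadj _ (hY𝓗 s)
        have h3 := hodge_mult h1 h2 (t s : K)
        set z := 1 + ((t s : K) - 1) • Y s with hz
        rw [Matrix.transpose_mul]
        calc zᵀ * yᵀ * J * (y * z) = zᵀ * (yᵀ * J * y) * z := by noncomm_ring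
          _ = (∏ s ∈ F, (t s : K)) • (zᵀ * J * z) := by
              rw [hyJ, mul_smul_comm, smul_mul_assoc]
          _ = _ := by rw [h3, smul_smul, Finset.prod_insert hsF, mul_comm]
      · intro b
        rw [detb_mul (h.idem b) (hcommS _ hsz _ (h.mem b)), hyb,
          detb_hodge (h.idem b) (h𝓗 _ (hY𝓗 s)).1 (hYc b), ← hYn s b,
          Finset.prod_insert hsF, mul_comm]
  obtain ⟨y, hy, y', hy', hyy', hyJ, hyb⟩ := key Finset.univ
  rw [← htc] at hyJ
  have hy'y : y' * y = 1 := mul_eq_one_comm.1 hyy'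
  have hzz : x * y' ∈ zar S := by
    refine iso_mem4 h hS1 hS hSD hA hJ hdet ?_ ?_ ?_
    · intro v w
      rw [om_mul]
      congr 2
      have h1 : J = c • (y'ᵀ * J * y') := by
        calc J = (y * y')ᵀ * J * (y * y') := by rw [hyy']; simp
          _ = y'ᵀ * (yᵀ * J * y) * y' := by
              rw [Matrix.transpose_mul]; noncomm_ring
          _ = _ := by rw [hyJ, mul_smul_comm, smul_mul_assoc]
      have h2 : (x * y')ᵀ * J * (x * y') = J := by
        rw [Matrix.transpose_mul]
        calc y'ᵀ * xᵀ * J * (x * y') = y'ᵀ * (xᵀ * J * x) * y' := by noncomm_ring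
          _ = c • (y'ᵀ * J * y') := by rw [hc, mul_smul_comm, smul_mul_assoc]
          _ = J := h1.symm
      rw [h2]
    · intro d hd
      rw [mul_assoc, hcommS _ hy' d hd, ← mul_assoc, hxD d hd, mul_assoc]
    · intro b _
      change detb (e b) (x * y') = 1
      rw [detb_mul (h.idem b) (hcommS _ hy' _ (h.mem b)), htb b, ← hyb b]
      exact detb_inv (h.idem b) (hcommS _ hy' _ (h.mem b)) hyy'
  have : x = (x * y') * y := by rw [mul_assoc, hy'y, mul_one]
  rw [this]
  exact zar_mul hS hzz hy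

end Pool.Agent.H76U
end

-- from Lib.H76U.Odd5
section

/-!
# Components of symplectic type with an element of odd rank (continued)
-/

set_option autoImplicit false
set_option linter.unusedSectionVars false
namespace Pool.Agent.H76U
open Module Matrix Pool.Agent.H53Toric
open Pool.Agent.H76RM (zar_commute zlie_commute)

variable {ι : Type*} [Fintype ι] [DecidableEq ι] {K : Type*} [Field K]

/-- components are irreducible -/
theorem irr_comp {B : Type*} [Fintype B] [DecidableEq B] {J : Matrix ι ι K}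
    {DD : Submodule K (Matrix ι ι K)}
    {bar : B → B} {e : B → Matrix ι ι K} (h : Split4 J DD bar e) (b : B)
    {S : Set (Matrix ι ι K)}
    (semis : ∀ W : Submodule K (ι → K), (∀ s ∈ S, ∀ w ∈ W, s *ᵥ w ∈ W) →
      ∃ W' : Submodule K (ι → K), (∀ s ∈ S, ∀ w ∈ W', s *ᵥ w ∈ W') ∧ IsCompl W W')
    (commt : ∀ y : Matrix ι ι K, (∀ s ∈ S, y * s = s * y) → y ∈ DD)
    {U : Submodule K (ι → K)} (hU : ∀ s ∈ S, ∀ w ∈ U, s *ᵥ w ∈ U)
    (hUb : ∀ w ∈ U, e b *ᵥ w = w) : U = ⊥ ∨ ∀ v, e b *ᵥ v = v → v ∈ U := by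
  obtain ⟨W', hst', hcompl⟩ := semis U hU
  set π : Module.End K (ι → K) := U.subtype ∘ₗ U.projectionOnto W' hcompl with hπ
  have hπW : ∀ w ∈ U, π w = w := by
    intro w hw
    change ((U.projectionOnto W' hcompl w : U) : ι → K) = w
    rw [Submodule.projectionOnto_apply_left hcompl ⟨w, hw⟩]
  have hπW' : ∀ w ∈ W', π w = 0 := by
    intro w hw
    change ((U.projectionOnto W' hcompl w : U) : ι → K) = 0
    rw [(Submodule.projectionOnto_apply_eq_zero_iff hcompl).2 hw]; rfl
  have hπm : ∀ w, π w ∈ U := fun w => (U.projectionOnto W' hcompl w).2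
  obtain ⟨p, hp⟩ := (phi (ι := ι) (K := K)).surjective π
  have hpD : p ∈ DD := by
    apply commt
    intro s hs
    apply (phi (ι := ι) (K := K)).injective
    rw [map_mul, map_mul, hp]
    apply LinearMap.ext
    intro w
    obtain ⟨w1, hw1, w2, hw2, rfl⟩ := Submodule.mem_sup.1
      (show w ∈ U ⊔ W' by rw [hcompl.sup_eq_top]; trivial)
    change π (phi s (w1 + w2)) = phi s (π (w1 + w2))
    rw [map_add, map_add, map_add, hπW w1 hw1, hπW' w2 hw2, add_zero, phi_apply, phi_apply,
      hπW _ (hU s hs w1 hw1), hπW' _ (hst' s hs w2 hw2), add_zero]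
  obtain ⟨c, hc⟩ := h.corner b p hpD
  have hcor : ∀ w, e b *ᵥ (π (e b *ᵥ w)) = c • (e b *ᵥ w) := by
    intro w
    have := congrArg (fun m => m *ᵥ w) hc
    simp only [Matrix.smul_mulVec, ← Matrix.mulVec_mulVec] at this
    rw [← hp, phi_apply]
    exact this
  by_cases hbot : U = ⊥
  · exact Or.inl hbot
  right
  obtain ⟨u, hu, hu0⟩ := (Submodule.ne_bot_iff U).1 hbot
  have hc1 : c = 1 := by
    have h1 := hcor u
    rw [hUb u hu, hπW u hu, hUb u hu] at h1
    have h2 : (c - 1) • u = 0 := by rw [sub_smul, one_smul, ← h1, sub_self]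
    rcases smul_eq_zero.1 h2 with h3 | h3
    · exact sub_eq_zero.1 h3
    · exact absurd h3 hu0
  intro v hv
  have h1 := hcor v
  rw [hv, hc1, one_smul, hUb _ (hπm v)] at h1
  rw [← h1]
  exact hπm v

section
variable {n : ℕ} {P : Matrix ι (Fin n) K} {Q : Matrix (Fin n) ι K} {p : Matrix ι ι K}

/-- operators on a component -/
noncomputable def Lb (J : Matrix ι ι K) (S : Set (Matrix ι ι K)) (P : Matrix ι (Fin n) K)
    (Q : Matrix (Fin n) ι K) : Submodule K (Module.End K (Fin n → K)) :=
  ((preL J S).map (cmp P Q)).map (phi (ι := Fin n) (K := K)).toLinearMap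

theorem mem_Lb {J : Matrix ι ι K} {S : Set (Matrix ι ι K)} {X : Matrix (Fin n) (Fin n) K} :
    phi X ∈ Lb J S P Q ↔ ∃ A ∈ preL J S, cmp P Q A = X := by
  constructor
  · rintro ⟨_, ⟨A, hA, rfl⟩, hX⟩
    exact ⟨A, hA, (phi (ι := Fin n) (K := K)).injective hX⟩
  · rintro ⟨A, hA, rfl⟩
    exact ⟨_, ⟨A, hA, rfl⟩, rfl⟩

end

section
variable [IsAlgClosed K] [CharZero K] {B : Type*} [Fintype B] [DecidableEq B]
    {J : Matrix ι ι K} {DD : Submodule K (Matrix ι ι K)}
    {bar : B → B} {e : B → Matrix ι ι K} (h : Split4 J DD bar e) {b : B} (hb : bar b = b)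
    (hJ : Jᵀ = -J) (hdet : IsUnit J.det)
    {n : ℕ} {P : Matrix ι (Fin n) K} {Q : Matrix (Fin n) ι K}
    (hPQ : e b = P * Q) (hQP : Q * P = 1)
    {S : Set (Matrix ι ι K)} (hS1 : (1 : Matrix ι ι K) ∈ S)
    (hSD : ∀ s ∈ S, ∀ d ∈ DD, s * d = d * s)
    (semis : ∀ W : Submodule K (ι → K), (∀ s ∈ S, ∀ w ∈ W, s *ᵥ w ∈ W) →
      ∃ W' : Submodule K (ι → K), (∀ s ∈ S, ∀ w ∈ W', s *ᵥ w ∈ W') ∧ IsCompl W W')
    (commt : ∀ y : Matrix ι ι K, (∀ s ∈ S, y * s = s * y) → y ∈ DD)
    {𝓗 : Set (Matrix ι ι K)} (h𝓗z : ∀ x ∈ 𝓗, x ∈ zlie S) (h𝓗i : ∀ x ∈ 𝓗, x * x = x)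
    (hadj : ∀ x ∈ 𝓗, xᵀ * J + J * x = J)
    (hgen : S ⊆ zar (Submonoid.closure {m | ∃ h ∈ 𝓗, ∃ t : K, t ≠ 0 ∧
      m = 1 + (t - 1) • h} : Set (Matrix ι ι K)))

include h hS1 hSD in
theorem preL_e {A : Matrix ι ι K} (hA : A ∈ preL J S) : A * e b = e b * A :=
  preL_commute hS1 (fun s hs => hSD s hs _ (h.mem b)) hA

include h hb hJ hdet hPQ hQP hS1 hSD semis commt h𝓗z h𝓗i hadj hgen in
theorem amb_comp : Amb (Lb J S P Q) (adjE (Pᵀ * J * P)) := by
  have hpJ : (e b)ᵀ * J = J * e b := by
    have := h.adj b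
    rwa [hb] at this
  have hdb := det_cmp hPQ hQP hpJ hdet
  have hJb : (Pᵀ * J * P)ᵀ = -(Pᵀ * J * P) := by
    rw [Matrix.transpose_mul, Matrix.transpose_mul, Matrix.transpose_transpose, hJ,
      Matrix.neg_mul, Matrix.mul_neg, Matrix.mul_assoc]
  have h𝓗L : ∀ x ∈ 𝓗, x ∈ preL J S := by
    intro x hx
    refine ⟨⟨0, x, h𝓗z x hx, by rw [zero_smul, add_zero]⟩, 1, ?_⟩
    rw [hadj x hx, one_smul]
  have hone : (1 : Matrix ι ι K) ∈ preL J S := by
    refine ⟨⟨1, 0, (zlie S).zero_mem, by rw [one_smul, zero_add]⟩, 2, ?_⟩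
    rw [Matrix.transpose_one, one_mul, mul_one, two_smul]
  constructor
  · -- lie
    intro X hX Y hY
    obtain ⟨x, rfl⟩ := (phi (ι := Fin n) (K := K)).surjective X
    obtain ⟨y, rfl⟩ := (phi (ι := Fin n) (K := K)).surjective Y
    obtain ⟨A, hA, rfl⟩ := mem_Lb.1 hX
    obtain ⟨A', hA', rfl⟩ := mem_Lb.1 hY
    rw [← map_mul (phi (ι := Fin n) (K := K)), ← map_mul (phi (ι := Fin n) (K := K)),
      ← map_sub (phi (ι := Fin n) (K := K)), ← cmp_mul hPQ hQP (preL_e h hS1 hSD hA'),
      ← cmp_mul hPQ hQP (preL_e h hS1 hSD hA), ← map_sub]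
    obtain ⟨h1, h2⟩ := preL_bracket hA hA'
    exact mem_Lb.2 ⟨_, ⟨⟨0, _, h1, by rw [zero_smul, add_zero]⟩, 0, by rw [h2, zero_smul]⟩, rfl⟩
  · exact adjE_mul hdb
  · exact adjE_adjE hJb hdb
  · exact adjE_tr hdb
  · -- irr
    intro W hW
    have h1 : ∀ x ∈ 𝓗, ∀ w ∈ W, cmp P Q x *ᵥ w ∈ W := by
      intro x hx w hw
      have hxe := preL_e (b := b) h hS1 hSD (h𝓗L x hx)
      have h2 : phi ((2 : K) • cmp P Q x - 1) ∈ invol (Lb J S P Q) (adjE (Pᵀ * J * P)) := by
        refine ⟨?_, ?_, ?_⟩
        · refine mem_Lb.2 ⟨(2 : K) • x - 1, (preL J S).sub_mem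
            ((preL J S).smul_mem _ (h𝓗L x hx)) hone, ?_⟩
          rw [map_sub, map_smul, cmp_one hPQ hQP]
        · rw [← map_mul, ← map_one (phi (ι := Fin n) (K := K))]
          congr 1
          have h3 : cmp P Q x * cmp P Q x = cmp P Q x := by
            rw [← cmp_mul hPQ hQP hxe, h𝓗i x hx]
          simp only [sub_mul, mul_sub, smul_mul_assoc, mul_smul_comm, h3, mul_one, one_mul]
          module
        · rw [skew_iff hdb]
          have h3 := cmp_sim hPQ hQP hpJ hxe
          rw [hadj x hx] at h3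
          rw [Matrix.transpose_sub, Matrix.transpose_smul, Matrix.transpose_one]
          simp only [sub_mul, mul_sub, smul_mul_assoc, mul_smul_comm, mul_one, one_mul]
          have h4 : (2 : K) • ((cmp P Q x)ᵀ * (Pᵀ * J * P)) - Pᵀ * J * P +
              ((2 : K) • (Pᵀ * J * P * cmp P Q x) - Pᵀ * J * P) =
              (2 : K) • ((cmp P Q x)ᵀ * (Pᵀ * J * P) + Pᵀ * J * P * cmp P Q x) -
              (2 : K) • (Pᵀ * J * P) := by module
          rw [h4, h3, sub_self]
      have h3 := hW _ h2 w hw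
      rw [phi_apply, Matrix.sub_mulVec, Matrix.smul_mulVec, Matrix.one_mulVec] at h3
      have h4 := W.smul_mem (1 / 2 : K) (W.add_mem h3 hw)
      rw [sub_add_cancel, smul_smul] at h4
      norm_num at h4
      exact h4
    set U : Submodule K (ι → K) := W.map P.mulVecLin with hU
    have hUst : ∀ s ∈ S, ∀ w ∈ U, s *ᵥ w ∈ U := by
      intro s hs
      refine zar_stable ?_ (hgen hs)
      intro m hm
      refine Submonoid.closure_induction (motive := fun m _ => ∀ w ∈ U, m *ᵥ w ∈ U)
        ?_ ?_ ?_ hm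
      · rintro _ ⟨x, hx, t, -, rfl⟩ _ ⟨w, hw, rfl⟩
        rw [Matrix.mulVecLin_apply, Matrix.add_mulVec, Matrix.one_mulVec, Matrix.smul_mulVec]
        apply U.add_mem ⟨w, hw, rfl⟩
        apply U.smul_mem
        refine ⟨cmp P Q x *ᵥ w, h1 x hx w hw, ?_⟩
        rw [Matrix.mulVecLin_apply, Matrix.mulVec_mulVec, Matrix.mulVec_mulVec,
          P_cmp hPQ hQP (preL_e h hS1 hSD (h𝓗L x hx))]
      · intro w hw
        rw [Matrix.one_mulVec]; exact hw
      · intro x y _ _ hx hy w hw
        rw [← Matrix.mulVec_mulVec]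
        exact hx _ (hy w hw)
    have hUb : ∀ w ∈ U, e b *ᵥ w = w := by
      rintro _ ⟨w, -, rfl⟩
      rw [Matrix.mulVecLin_apply, Matrix.mulVec_mulVec, p_P hPQ hQP]
    rcases irr_comp h b semis commt hUst hUb with h2 | h2
    · left
      rw [eq_bot_iff]
      intro w hw
      have h3 : P *ᵥ w ∈ U := ⟨w, hw, rfl⟩
      rw [h2, Submodule.mem_bot] at h3
      rw [Submodule.mem_bot]
      have h4 : w = Q *ᵥ (P *ᵥ w) := by rw [Matrix.mulVec_mulVec, hQP, Matrix.one_mulVec]
      rw [h4, h3, Matrix.mulVec_zero]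
    · right
      rw [eq_top_iff]
      intro w _
      obtain ⟨w', hw', hww⟩ := h2 (P *ᵥ w) (by
        rw [Matrix.mulVec_mulVec, p_P hPQ hQP])
      rw [Matrix.mulVecLin_apply] at hww
      have h4 : w' = w := by
        have h5 := congrArg (fun v => Q *ᵥ v) hww
        simp only [Matrix.mulVec_mulVec, hQP, Matrix.one_mulVec] at h5
        exact h5
      rw [← h4]
      exact hw'


end

end Pool.Agent.H76U
end

-- from Lib.H76U.Final4
section

/-!
# Monodromy groups of representations commuting with an algebra with involution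
-/

set_option autoImplicit false
set_option linter.unusedSectionVars false
namespace Pool.Agent.H76U
open Module Matrix Pool.Agent.H53Toric
open Pool.Agent.H76RM (zar_commute comm_span spanK similD exists_prime van)

variable {ι : Type*} [Fintype ι] [DecidableEq ι]

theorem split4_of {K : Type*} [Field K] [Algebra ℚ K] {D : Subalgebra ℚ (Matrix ι ι ℚ)}
    {ψ : Matrix ι ι ℚ} {m : ℕ} {bar : Fin m → Fin m} {e : Fin m → Matrix ι ι K}
    (h : IsSplitting D ψ bar e) :
    Split4 (ψ.map (algebraMap ℚ K)) (spanK K D) bar e where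
  one := by
    apply Submodule.subset_span
    refine ⟨1, D.one_mem, ?_⟩
    simp
  mem := h.mem
  idem := h.idem
  barbar := h.barbar
  adj := h.adj
  corner := h.corner
  orth := h.orth
  full := h.full

/-- characters vanish on the closure -/
theorem char_zar {K : Type*} [Field K] [CharZero K] {B : Type*} [Fintype B] [DecidableEq B]
    {J : Matrix ι ι K} {k l : ι} (hkl : J k l ≠ 0)
    {e : B → Matrix ι ι K} (hidem : ∀ b, e b * e b = e b) {S : Set (Matrix ι ι K)}
    (hSe : ∀ s ∈ S, ∀ b, s * e b = e b * s)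
    {𝓗 : Set (Matrix ι ι K)} (h𝓗 : ∀ x ∈ 𝓗, x ∈ hodgeProj S)
    (hadj : ∀ x ∈ 𝓗, xᵀ * J * x = 0 ∧ xᵀ * J + J * x = J)
    {x : Matrix ι ι K} (hx : x.det ≠ 0) (hxe : ∀ b, x * e b = e b * x) {c : K} (hc0 : c ≠ 0)
    (hc : xᵀ * J * x = c • J)
    (hxz : x ∈ zar (Submonoid.closure {m | ∃ h ∈ 𝓗, ∃ t : K, t ≠ 0 ∧
      m = 1 + (t - 1) • h} : Set (Matrix ι ι K)))
    (a : B → ℤ) (a₀ : ℤ) (ha : ∀ y ∈ 𝓗, ∑ b, a b * ((y * e b).rank : ℤ) + a₀ = 0) :
    (∏ b, detb (e b) x ^ a b) * c ^ a₀ = 1 := by
  classical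
  have hxu : IsUnit x.det := isUnit_iff_ne_zero.2 hx
  have hxx : x * x⁻¹ = 1 := Matrix.mul_nonsing_inv _ hxu
  have hcommz : ∀ y ∈ zar S, ∀ b, y * e b = e b * y := fun y hy b =>
    zar_commute (fun s hs => hSe s hs b) hy
  have hinvc : ∀ b, x⁻¹ * e b = e b * x⁻¹ := by
    intro b
    have hy'y : x⁻¹ * x = 1 := mul_eq_one_comm.1 hxx
    calc x⁻¹ * e b = x⁻¹ * e b * (x * x⁻¹) := by rw [hxx, mul_one]
      _ = x⁻¹ * (e b * x) * x⁻¹ := by noncomm_ring
      _ = x⁻¹ * (x * e b) * x⁻¹ := by rw [hxe]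
      _ = (x⁻¹ * x) * e b * x⁻¹ := by noncomm_ring
      _ = e b * x⁻¹ := by rw [hy'y, one_mul]
  have hdet0 : ∀ b, detb (e b) x ≠ 0 := by
    intro b h0
    have := detb_inv (x := x) (hidem b) (hinvc b) hxx
    rw [h0, zero_mul] at this
    exact zero_ne_one this
  -- positive and negative parts
  set ap : B → ℕ := fun b => (a b).toNat with hap
  set an : B → ℕ := fun b => (-a b).toNat with han
  set p0 : ℕ := a₀.toNat with hp0
  set n0 : ℕ := (-a₀).toNat with hn0
  have hab : ∀ b, a b = (ap b : ℤ) - (an b : ℤ) := fun b => (Int.toNat_sub_toNat_neg (a b)).symm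
  have ha0 : a₀ = (p0 : ℤ) - (n0 : ℤ) := (Int.toNat_sub_toNat_neg a₀).symm
  -- the polynomial identity
  set F : MvPolynomial (ι × ι) K :=
    (∏ b, pdet (e b) ^ ap b) * (pmul J k l * MvPolynomial.C (J k l)⁻¹) ^ p0 -
    (∏ b, pdet (e b) ^ an b) * (pmul J k l * MvPolynomial.C (J k l)⁻¹) ^ n0 with hF
  have hevF : ∀ y : Matrix ι ι K, ∀ d : K, yᵀ * J * y = d • J → ev y F =
      (∏ b, detb (e b) y ^ ap b) * d ^ p0 - (∏ b, detb (e b) y ^ an b) * d ^ n0 := by
    intro y d hd
    have h1 : ev y (pmul J k l * MvPolynomial.C (J k l)⁻¹) = d := by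
      rw [map_mul, ev_pmul, ev_C, hd, Matrix.smul_apply, smul_eq_mul, mul_assoc,
        mul_inv_cancel₀ hkl, mul_one]
    rw [hF, map_sub, map_mul, map_mul, map_pow, map_pow, h1, map_prod, map_prod]
    simp only [map_pow, ev_pdet]
  have hmon : ∀ m ∈ Submonoid.closure {m | ∃ h ∈ 𝓗, ∃ t : K, t ≠ 0 ∧ m = 1 + (t - 1) • h},
      ∃ d : K, d ≠ 0 ∧ (∀ b, m * e b = e b * m) ∧ mᵀ * J * m = d • J ∧
        (∀ b, detb (e b) m ≠ 0) ∧ (∏ b, detb (e b) m ^ a b) * d ^ a₀ = 1 := by
    intro m hm
    refine Submonoid.closure_induction (motive := fun m _ =>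
      ∃ d : K, d ≠ 0 ∧ (∀ b, m * e b = e b * m) ∧ mᵀ * J * m = d • J ∧
        (∀ b, detb (e b) m ≠ 0) ∧ (∏ b, detb (e b) m ^ a b) * d ^ a₀ = 1) ?_ ?_ ?_ hm
    · rintro _ ⟨y, hy, t, ht, rfl⟩
      have hyS := h𝓗 y hy
      have hye : ∀ b, y * e b = e b * y := by
        intro b
        have h1 := hyS.2 2 (by norm_num)
        have h2 := hcommz _ h1 b
        have e1 : (2 : K) - 1 = 1 := by norm_num
        rw [e1, one_smul, add_mul, mul_add, one_mul, mul_one, add_right_inj] at h2
        exact h2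
      have hdb : ∀ b, detb (e b) (1 + (t - 1) • y) = t ^ (y * e b).rank := fun b =>
        detb_hodge (hidem b) hyS.1 (hye b) t
      refine ⟨t, ht, fun b => hcommz _ (hyS.2 t ht) b,
        hodge_mult (hadj y hy).1 (hadj y hy).2 t, ?_, ?_⟩
      · intro b
        rw [hdb]
        exact pow_ne_zero _ ht
      · simp only [hdb]
        have h3 : ∀ b, (t ^ (y * e b).rank) ^ a b = t ^ (a b * ((y * e b).rank : ℤ)) := by
          intro b
          rw [← zpow_natCast, ← _root_.zpow_mul, mul_comm]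
        simp only [h3]
        have h4 : ∏ b, t ^ (a b * ((y * e b).rank : ℤ)) =
            t ^ (∑ b, a b * ((y * e b).rank : ℤ)) := by
          have : ∀ T : Finset B, ∏ b ∈ T, t ^ (a b * ((y * e b).rank : ℤ)) =
              t ^ (∑ b ∈ T, a b * ((y * e b).rank : ℤ)) := by
            intro T
            induction T using Finset.induction_on with
            | empty => simp
            | insert b T hb ih =>
              rw [Finset.prod_insert hb, Finset.sum_insert hb, ih, zpow_add₀ ht]
          exact this _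
        rw [h4, ← zpow_add₀ ht, ha y hy, zpow_zero]
    · refine ⟨1, one_ne_zero, fun b => by rw [one_mul, mul_one], by simp, ?_, ?_⟩
      · intro b
        rw [detb_one]
        exact one_ne_zero
      · simp [detb_one]
    · rintro y z _ _ ⟨d, hd0, hye, hyJ, hy0, hy1⟩ ⟨d', hd0', hze, hzJ, hz0, hz1⟩
      have hm : ∀ b, detb (e b) (y * z) = detb (e b) y * detb (e b) z := fun b =>
        detb_mul (hidem b) (hze b)
      refine ⟨d * d', mul_ne_zero hd0 hd0', ?_, ?_, ?_, ?_⟩
      · intro b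
        rw [mul_assoc, hze, ← mul_assoc, hye, mul_assoc]
      · rw [Matrix.transpose_mul]
        calc zᵀ * yᵀ * J * (y * z) = zᵀ * (yᵀ * J * y) * z := by noncomm_ring
          _ = _ := by rw [hyJ, mul_smul_comm, smul_mul_assoc, hzJ, smul_smul]
      · intro b
        rw [hm]
        exact mul_ne_zero (hy0 b) (hz0 b)
      · simp only [hm, mul_zpow]
        rw [Finset.prod_mul_distrib]
        calc _ = ((∏ b, detb (e b) y ^ a b) * d ^ a₀) * ((∏ b, detb (e b) z ^ a b) * d' ^ a₀) := by
              ring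
          _ = 1 := by rw [hy1, hz1, mul_one]
  have heq : ∀ (y : Matrix ι ι K) (d : K), d ≠ 0 → (∀ b, detb (e b) y ≠ 0) →
      ((∏ b, detb (e b) y ^ a b) * d ^ a₀) * ((∏ b, detb (e b) y ^ an b) * d ^ n0) =
        (∏ b, detb (e b) y ^ ap b) * d ^ p0 := by
    intro y d hd0 hy0
    have h1 : (∏ b, detb (e b) y ^ a b) * ∏ b, detb (e b) y ^ an b =
        ∏ b, detb (e b) y ^ ap b := by
      rw [← Finset.prod_mul_distrib]
      apply Finset.prod_congr rfl
      intro b _
      rw [← zpow_natCast (detb (e b) y) (an b), ← zpow_natCast (detb (e b) y) (ap b),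
        ← zpow_add₀ (hy0 b)]
      congr 1
      rw [hab b]
      ring
    have h2 : d ^ a₀ * d ^ n0 = d ^ p0 := by
      rw [← zpow_natCast d n0, ← zpow_natCast d p0, ← zpow_add₀ hd0]
      congr 1
      rw [ha0]
      ring
    calc _ = ((∏ b, detb (e b) y ^ a b) * ∏ b, detb (e b) y ^ an b) * (d ^ a₀ * d ^ n0) := by
          ring
      _ = _ := by rw [h1, h2]
  have hF0 : ev x F = 0 := by
    apply hxz
    intro m hm
    obtain ⟨d, hd0, hme, hmJ, hm0, hm1⟩ := hmon m hm
    rw [hevF m d hmJ, sub_eq_zero, ← heq m d hd0 hm0, hm1, one_mul]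
  rw [hevF x c hc, sub_eq_zero, ← heq x c hc0 hdet0] at hF0
  have hne : (∏ b, detb (e b) x ^ an b) * c ^ n0 ≠ 0 :=
    mul_ne_zero (Finset.prod_ne_zero_iff.2 fun b _ => pow_ne_zero _ (hdet0 b))
      (pow_ne_zero _ hc0)
  exact mul_right_cancel₀ hne (by rw [hF0, one_mul])


end Pool.Agent.H76U
end

-- from Lib.H76F.Small
section

/-!
# Components of small rank of an element of a Lie algebra of skew operators
-/

set_option autoImplicit false
set_option linter.unusedSectionVars false
namespace Pool.Agent.H76F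
open Module Pool.Agent.H53Toric

variable {K : Type*} [Field K] {V : Type*} [AddCommGroup V] [Module K V]


theorem finrank_range_le_of_line {T : Module.End K V} {d : V}
    (h : ∀ v, ∃ t : K, T v = t • d) : finrank K (LinearMap.range T) ≤ 1 := by
  have hle : LinearMap.range T ≤ Submodule.span K ({d} : Set V) := by
    rintro _ ⟨v, rfl⟩
    obtain ⟨t, ht⟩ := h v
    rw [ht]
    exact Submodule.smul_mem _ _ (Submodule.mem_span_singleton_self d)
  have : Module.Finite K (Submodule.span K ({d} : Set V)) :=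
    FiniteDimensional.span_of_finite K (Set.toFinite _)
  refine (Submodule.finrank_mono hle).trans ?_
  classical
  have h1 := finrank_span_finset_le_card (R := K) ({d} : Finset V)
  rw [Set.finrank, Finset.coe_singleton] at h1
  exact h1.trans (by simp)



end Pool.Agent.H76F
end

-- from Lib.H76F.Defs
section

/-!
# Definitions: cuts of the set of eigenvalues without multiplicative relations
-/

set_option autoImplicit false

namespace Pool.Agent.H76F

open Matrix

variable {ι : Type*} [Fintype ι] [DecidableEq ι] {K : Type*} [Field K]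

/-- `γ` is an eigenvalue of the matrix `x` on the range of the idempotent matrix `p`. -/
def EigOn (x p : Matrix ι ι K) (γ : K) : Prop :=
  ∃ v : ι → K, p *ᵥ v = v ∧ v ≠ 0 ∧ x *ᵥ v = γ • v




end Pool.Agent.H76F
end

-- from Lib.H76F.Spec
section

/-!
# Conjugation by a diagonalisable matrix
-/

set_option autoImplicit false
set_option linter.unusedSectionVars false
namespace Pool.Agent.H76F
open Module Matrix Pool.Agent.H53Toric Pool.Agent.H76U
open Pool.Agent.H76RM (van mem_van van_anti)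

variable {ι : Type*} [Fintype ι] [DecidableEq ι] {K : Type*} [Field K]

/-- conjugation as a linear map -/
def cj (x x' : Matrix ι ι K) : Module.End K (Matrix ι ι K) where
  toFun X := x * X * x'
  map_add' X Y := by rw [mul_add, add_mul]
  map_smul' c X := by rw [mul_smul_comm, smul_mul_assoc, RingHom.id_apply]

theorem cj_apply (x x' X : Matrix ι ι K) : cj x x' X = x * X * x' := rfl



end Pool.Agent.H76F
end

-- from Lib.H76F.Conj
section

/-!
# The Lie algebra of a small subgroup is normalised by the whole group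
-/

set_option autoImplicit false
set_option linter.unusedSectionVars false
namespace Pool.Agent.H76F
open Module Matrix Pool.Agent.H53Toric Pool.Agent.H76U
open Pool.Agent.H76RM (van mem_van van_anti)

variable {ι : Type*} [Fintype ι] [DecidableEq ι] {K : Type*} [Field K]

theorem mem_zlie_van {S : Set (Matrix ι ι K)} {A : Matrix ι ι K} :
    A ∈ zlie S ↔ ∀ f ∈ van S, der A f ∈ van S := Iff.rfl

/-- the Lie algebra is stable under conjugation by matrices normalising the closure -/
theorem zlie_conj' [CharZero K] {S : Set (Matrix ι ι K)} {x x' : Matrix ι ι K}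
    (hxx : x * x' = 1)
    (h1 : ∀ f ∈ van S, ∀ s ∈ S, ev (x * s * x') f = 0)
    (h2 : ∀ f ∈ van S, ∀ s ∈ S, ev (x' * s * x) f = 0) {A : Matrix ι ι K} (hA : A ∈ zlie S) :
    x * A * x' ∈ zlie S := by
  have hx'x : x' * x = 1 := mul_eq_one_comm.1 hxx
  rw [mem_zlie_van]
  intro f hf s hs
  set f' := subR x' (subL x f) with hf'
  have hev : ∀ y, ev y f' = ev (x * y * x') f := by
    intro y
    rw [hf', ev_subR, ev_subL, mul_assoc]
  have hf'v : f' ∈ van S := by
    intro y hy
    rw [hev]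
    exact h1 f hf y hy
  have h3 := h2 _ (mem_zlie_van.1 hA f' hf'v) s hs
  rw [← eval_derivative_lin] at h3 ⊢
  have h4 : lin (x' * s * x) (x' * s * x * A) f' = lin s (s * (x * A * x')) f := by
    apply Polynomial.funext
    intro t
    rw [eval_lin, eval_lin, hev]
    refine congrArg (fun y => ev y f) ?_
    calc x * (x' * s * x + t • (x' * s * x * A)) * x' =
        (x * x') * s * (x * x') + t • ((x * x') * s * (x * A * x')) := by
          rw [mul_add, add_mul, mul_smul_comm, smul_mul_assoc]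
          congr 1
          · noncomm_ring
          · congr 1
            noncomm_ring
      _ = _ := by rw [hxx, one_mul, mul_one]
  rw [← h4]
  exact h3

section
variable {L : Type*} [Field L] [Algebra L K] {G : Type*} [Group G]

/-- Subgroups of finite index of a subgroup with irreducible closure have the same closure. -/
theorem van_min (ρ : G →* Matrix.GeneralLinearGroup ι L) {H H' : Subgroup G}
    (hprime : (van (img K ρ H)).IsPrime) (hle : H' ≤ H) (hfin : H'.FiniteIndex) :
    van (img K ρ H') = van (img K ρ H) := by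
  classical
  refine le_antisymm ?_ (van_anti ρ hle)
  intro f hf
  have hfi : (H'.subgroupOf H).FiniteIndex := inferInstance
  have : Finite (H ⧸ H'.subgroupOf H) := Subgroup.finite_quotient_of_finiteIndex
  have : Fintype (H ⧸ H'.subgroupOf H) := Fintype.ofFinite _
  set F : MvPolynomial (ι × ι) K := ∏ q : H ⧸ H'.subgroupOf H,
    subL ((ρ ((q.out : H) : G)⁻¹).1.map (algebraMap L K)) f with hF
  have hFv : F ∈ van (img K ρ H) := by
    rintro _ ⟨s, hs, rfl⟩
    rw [hF, map_prod]
    refine Finset.prod_eq_zero (Finset.mem_univ (QuotientGroup.mk (⟨s, hs⟩ : H))) ?_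
    rw [ev_subL, ← Matrix.map_mul, ← Units.val_mul, ← map_mul]
    apply hf
    refine ⟨_, ?_, rfl⟩
    have h1 : (QuotientGroup.mk ((QuotientGroup.mk (⟨s, hs⟩ : H) :
        H ⧸ H'.subgroupOf H).out) : H ⧸ H'.subgroupOf H) = QuotientGroup.mk (⟨s, hs⟩ : H) :=
      QuotientGroup.out_eq' _
    rw [QuotientGroup.eq, Subgroup.mem_subgroupOf] at h1
    exact h1
  obtain ⟨q, -, hq⟩ := (Ideal.IsPrime.prod_mem_iff (hp := hprime)).1 hFv
  rintro _ ⟨s, hs, rfl⟩
  have h2 := hq _ ⟨(q.out : H) * s, H.mul_mem (q.out : H).2 hs, rfl⟩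
  rw [ev_subL, ← Matrix.map_mul, ← Units.val_mul, ← map_mul, inv_mul_cancel_left] at h2
  exact h2

/-- the vanishing ideal is stable under conjugation -/
theorem van_conj (ρ : G →* Matrix.GeneralLinearGroup ι L) {H : Subgroup G}
    (hprime : (van (img K ρ H)).IsPrime) (hfin : H.FiniteIndex) (σ : G) :
    ∀ f ∈ van (img K ρ H), ∀ s ∈ img K ρ H,
      ev ((ρ σ).1.map (algebraMap L K) * s * (ρ σ⁻¹).1.map (algebraMap L K)) f = 0 := by
  intro f hf s hs
  set x := (ρ σ).1.map (algebraMap L K) with hx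
  set x' := (ρ σ⁻¹).1.map (algebraMap L K) with hx'
  have hev : ∀ y, ev y (subR x' (subL x f)) = ev (x * y * x') f := by
    intro y
    rw [ev_subR, ev_subL, mul_assoc]
  rw [← hev]
  have hfin' : (H ⊓ H.comap (MulAut.conj σ).toMonoidHom).FiniteIndex := by
    have h1 : (H.comap (MulAut.conj σ).toMonoidHom).FiniteIndex := by
      rw [Subgroup.finiteIndex_iff, Subgroup.index_comap_of_surjective _
        (MulAut.conj σ).surjective]
      exact hfin.index_ne_zero
    infer_instance
  have h2 := van_min ρ hprime (inf_le_left : H ⊓ H.comap (MulAut.conj σ).toMonoidHom ≤ H) hfin'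
  have h3 : subR x' (subL x f) ∈ van (img K ρ (H ⊓ H.comap (MulAut.conj σ).toMonoidHom)) := by
    rintro _ ⟨τ, hτ, rfl⟩
    rw [hev, hx, hx', ← Matrix.map_mul, ← Matrix.map_mul, ← Units.val_mul, ← Units.val_mul,
      ← map_mul, ← map_mul]
    exact hf _ ⟨σ * τ * σ⁻¹, hτ.2, rfl⟩
  rw [h2] at h3
  exact h3 s hs

end




end Pool.Agent.H76F
end

-- from Lib.H76F.Elt
section

/-!
# Elements of small rank from a cut without relations
-/

set_option autoImplicit false
set_option linter.unusedSectionVars false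
namespace Pool.Agent.H76F
open Module Matrix Pool.Agent.H53Toric Pool.Agent.H76U

section
variable {K : Type*} [Field K] {V : Type*} [AddCommGroup V] [Module K V]
variable {B : Type*} [Fintype B] [DecidableEq B] {Γ : Type*} [Group Γ]
variable {ω : V →ₗ[K] V →ₗ[K] K} {e : B → Module.End K V} {bar : B → B}
    {g : Submodule K (Module.End K V)} {r : Γ →* Module.End K V} {𝓗 : Set (Module.End K V)}


end

section
variable {ι : Type*} [Fintype ι] [DecidableEq ι] {K : Type*} [Field K]

theorem conj_sim {J x x' A : Matrix ι ι K} (hxx : x * x' = 1) {c s : K}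
    (hc : xᵀ * J * x = c • J) (hA : Aᵀ * J + J * A = s • J) :
    (x * A * x')ᵀ * J + J * (x * A * x') = s • J := by
  have hxx' : x'ᵀ * xᵀ = 1 := by rw [← Matrix.transpose_mul, hxx, Matrix.transpose_one]
  have h2 : xᵀ * J = c • (J * x') := by
    calc xᵀ * J = xᵀ * J * (x * x') := by rw [hxx, mul_one]
      _ = (xᵀ * J * x) * x' := by noncomm_ring
      _ = _ := by rw [hc, smul_mul_assoc]
  have h3 : J * x = c • (x'ᵀ * J) := by
    calc J * x = (x'ᵀ * xᵀ) * J * x := by rw [hxx', one_mul]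
      _ = x'ᵀ * (xᵀ * J * x) := by noncomm_ring
      _ = _ := by rw [hc, mul_smul_comm]
  rw [Matrix.transpose_mul, Matrix.transpose_mul]
  calc x'ᵀ * (Aᵀ * xᵀ) * J + J * (x * A * x') =
      x'ᵀ * Aᵀ * (xᵀ * J) + (J * x) * A * x' := by noncomm_ring
    _ = c • (x'ᵀ * (Aᵀ * J + J * A) * x') := by
        rw [h2, h3]
        simp only [mul_smul_comm, smul_mul_assoc, ← smul_add]
        congr 1
        noncomm_ring
    _ = s • ((c • (x'ᵀ * J)) * x') := by
        rw [hA, mul_smul_comm, smul_mul_assoc, smul_comm, smul_mul_assoc]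
    _ = _ := by rw [← h3, mul_assoc, hxx, mul_one]





end

end Pool.Agent.H76F
end
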