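import Pool.Agent.Lib.H1M.RC.M005
import Pool.Agent.Lib.H1M.RC.M031
import Pool.Agent.Lib.H1M.RC.M032

/-! Merged copies (to shorten the build) of Lib.H49M.P8s, Lib.H49M.R2, Lib.H49M.R3, Lib.H76T.T0, Lib.H76T.TA1, Lib.H76T.TA2, Lib.H76T.TA3, Lib.H76T.TA4, Lib.H76T.TA5, Lib.H76T.TA6, Lib.H76T.TB1, Lib.H76T.TB2, Lib.H76T.TB3, Lib.H76T.TB4, Lib.H76T.TC1, Lib.H76T.TC2. -/

-- from Lib.H49M.P8s
section

/-!
# P8s: the case where two frames fill everything, with the sign
-/

set_option autoImplicit false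
set_option linter.unusedSectionVars false
namespace Pool.Agent.H49M
open Module Pool.Agent.H53Toric

variable {K : Type*} [Field K] {V : Type*} [AddCommGroup V] [Module K V]

variable {L : Submodule K (Module.End K V)} {ω : V →ₗ[K] V →ₗ[K] K}
  {adj : Module.End K V →ₗ[K] Module.End K V}

theorem P8s_mod {K : Type*} [Field K] [CharZero K] {t : ℕ}
    (h : (-1 : K) ^ (t.choose 2) = 1) : t % 4 = 0 ∨ t % 4 = 1 := by
  have he : Even (t.choose 2) := by
    by_contra ho
    rw [Nat.not_even_iff_odd] at ho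
    rw [ho.neg_one_pow] at h
    norm_num at h
  obtain ⟨q, r, hr, rfl⟩ : ∃ q r, r < 4 ∧ t = 4 * q + r :=
    ⟨t / 4, t % 4, Nat.mod_lt _ (by norm_num), (Nat.div_add_mod t 4).symm⟩
  have h2 : (4 * q + r) % 4 = r := by omega
  rw [h2]
  interval_cases r
  · exact Or.inl rfl
  · exact Or.inr rfl
  · exfalso
    have e1 : (4 * q + 2).choose 2 = (2 * q + 1) * (4 * q + 1) := by
      rw [Nat.choose_two_right]
      have : (4 * q + 2) * (4 * q + 2 - 1) = 2 * ((2 * q + 1) * (4 * q + 1)) := by
        rw [show 4 * q + 2 - 1 = 4 * q + 1 by omega]; ring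
      rw [this, Nat.mul_div_cancel_left _ (by norm_num)]
    rw [e1, Nat.even_mul] at he
    rcases he with he | he <;> (obtain ⟨a, ha⟩ := he; omega)
  · exfalso
    have e1 : (4 * q + 3).choose 2 = (4 * q + 3) * (2 * q + 1) := by
      rw [Nat.choose_two_right]
      have : (4 * q + 3) * (4 * q + 3 - 1) = 2 * ((4 * q + 3) * (2 * q + 1)) := by
        rw [show 4 * q + 3 - 1 = 4 * q + 2 by omega]; ring
      rw [this, Nat.mul_div_cancel_left _ (by norm_num)]
    rw [e1, Nat.even_mul] at he
    rcases he with he | he <;> (obtain ⟨a, ha⟩ := he; omega)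

/-- Chunk P8s. As `P8_pow`, with the form `(v, w) ↦ ω (v, (f + f') w)` on `V₊`, which is symmetric
and for which the operators of `J` are self-adjoint; `P7_sign`. -/
theorem P8_powS [CharZero K] [IsAlgClosed K] [FiniteDimensional K V] [Nontrivial V]
    (h : Core L ω adj) {s e f e' f' u : Module.End K V} (G : Grid L s e f e' f' u)
    (h0 : (1 / 2 : K) • (1 + s) = e * f + e' * f') :
    ∃ t : ℕ, finrank K (eig s 1) = 2 ^ t ∧ (t % 4 = 0 ∨ t % 4 = 1) := by
  have hl := h.lie
  obtain ⟨P, hP⟩ : ∃ P : Module.End K V, P = (1 / 2 : K) • (1 + s) := ⟨_, rfl⟩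
  obtain ⟨Q, hQ⟩ : ∃ Q : Module.End K V, Q = (1 / 2 : K) • (1 - s) := ⟨_, rfl⟩
  have hPe : P = e * f + e' * f' := by rw [hP, h0]
  have hs2 := G.F.s_sq
  have a1 : adj 1 = 1 := by
    rw [← hs2, A0_mul h, h.skew s G.F.s_mem, neg_mul_neg]
  have hQe : Q = f * e + f' * e' := by
    have h1 := congrArg adj h0
    rw [map_smul, map_add, map_add, a1, A0_mul h, A0_mul h, h.skew s G.F.s_mem,
      h.skew e G.F.e_mem.1, h.skew f G.F.f_mem.1, h.skew e' G.F'.e_mem.1,
      h.skew f' G.F'.f_mem.1, neg_mul_neg, neg_mul_neg, ← sub_eq_add_neg] at h1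
    rw [hQ, h1]
  have ePx : ∀ X ∈ Lp L s, P * X = X := by
    intro X hX
    rw [hP, smul_mul_assoc, add_mul, one_mul, hX.2.1, ← two_smul K, smul_smul]; norm_num
  have eXQ : ∀ X ∈ Lp L s, X * Q = X := by
    intro X hX
    rw [hQ, mul_smul_comm, mul_sub, mul_one, hX.2.2, sub_neg_eq_add, ← two_smul K, smul_smul]
    norm_num
  have eYP : ∀ Y ∈ Lm L s, Y * P = Y := by
    intro X hX
    rw [hP, mul_smul_comm, mul_add, mul_one, hX.2.2, ← two_smul K, smul_smul]; norm_num
  have hPv : ∀ v, s v = v → P v = v := by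
    intro v hv
    rw [hP, LinearMap.smul_apply, LinearMap.add_apply, hv, Module.End.one_apply, ← two_smul K,
      smul_smul]
    norm_num
  have m1 : ∀ {v : V}, v ∈ eig s 1 ↔ s v = v := by
    intro v
    rw [eig, LinearMap.mem_ker, LinearMap.sub_apply, sub_eq_zero, one_smul, Module.End.one_apply]
  have ff' : f * f' = 0 := A2_mm G.F.f_mem G.F'.f_mem
  have f'f : f' * f = 0 := A2_mm G.F'.f_mem G.F.f_mem
  have efe := G.F.efe
  have fef := G.F.fef
  have efe' := G.F'.efe
  have fef' := G.F'.fef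
  have e'f := G.o3
  have ef' := G.o1
  have hgj : (e + e') * (f + f') = P := by
    rw [hPe, add_mul, mul_add, mul_add, ef', e'f]; simp
  have hjg : (f + f') * (e + e') = Q := by
    rw [hQe, add_mul, mul_add, mul_add, G.o4, G.o2]; simp
  have p1ne : e * f ≠ 0 := by
    intro h1
    apply G.F.e_ne
    rw [← efe, h1, zero_mul]
  -- the space of operators
  let J : Submodule K (Module.End K (eig s 1)) :=
    { carrier := {T | ∃ x ∈ Lp L s, ∃ c₁ c₂ : K, e * f * x * (f * e) = c₁ • e ∧
        e' * f' * x * (f' * e') = c₂ • e' ∧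
        ∀ v : eig s 1, ((T v : eig s 1) : V) = x ((f + f') (v : V)) - ((c₁ + c₂) / 2) • (v : V)}
      add_mem' := by
        rintro S T ⟨x, hx, c₁, c₂, h1, h2, h3⟩ ⟨y, hy, d₁, d₂, h4, h5, h6⟩
        refine ⟨x + y, (Lp L s).add_mem hx hy, c₁ + d₁, c₂ + d₂, ?_, ?_, ?_⟩
        · rw [mul_add, add_mul, h1, h4, add_smul]
        · rw [mul_add, add_mul, h2, h5, add_smul]
        · intro v
          have e1 : (x + y) ((f + f') (v : V)) = x ((f + f') (v : V)) + y ((f + f') (v : V)) := rfl
          rw [LinearMap.add_apply, Submodule.coe_add, h3, h6, e1]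
          module
      zero_mem' := ⟨0, (Lp L s).zero_mem, 0, 0, by simp, by simp, by simp⟩
      smul_mem' := by
        rintro c T ⟨x, hx, c₁, c₂, h1, h2, h3⟩
        refine ⟨c • x, (Lp L s).smul_mem c hx, c * c₁, c * c₂, ?_, ?_, ?_⟩
        · rw [mul_smul_comm, smul_mul_assoc, h1, smul_smul]
        · rw [mul_smul_comm, smul_mul_assoc, h2, smul_smul]
        · intro v
          have e1 : (c • x) ((f + f') (v : V)) = c • x ((f + f') (v : V)) := rfl
          rw [LinearMap.smul_apply, Submodule.coe_smul, h3, e1]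
          module }
  have hsq : ∀ w ∈ J, ∃ c : K, w * w = c • 1 := by
    rintro T ⟨x, hx, c₁, c₂, h1, h2, h3⟩
    have hxx : x * x = 0 := A2_pp hx hx
    obtain ⟨A, hA⟩ : ∃ A, A = e * f * x * f' := ⟨_, rfl⟩
    obtain ⟨B, hB⟩ : ∃ B, B = e' * f' * x * f := ⟨_, rfl⟩
    -- the operator
    have hxj : x * (f + f') = c₁ • (e * f) + c₂ • (e' * f') + A + B := by
      have e1 : e * f * x * f = c₁ • (e * f) := by
        calc e * f * x * f = e * f * x * (f * e) * f := by rw [mul_assoc _ (f * e) f, fef]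
          _ = c₁ • (e * f) := by rw [h1, smul_mul_assoc]
      have e2 : e' * f' * x * f' = c₂ • (e' * f') := by
        calc e' * f' * x * f' = e' * f' * x * (f' * e') * f' := by
              rw [mul_assoc _ (f' * e') f', fef']
          _ = c₂ • (e' * f') := by rw [h2, smul_mul_assoc]
      calc x * (f + f') = P * x * (f + f') := by rw [ePx x hx]
        _ = e * f * x * f + e' * f' * x * f' + e * f * x * f' + e' * f' * x * f := by
            rw [hPe]; noncomm_ring
        _ = _ := by rw [e1, e2, hA, hB]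
    obtain ⟨a, ha⟩ := K0_ext hl G.F (hl.sandwich hx.1 hxx G.F'.f_mem.1)
    obtain ⟨b, hb⟩ := K0_ext hl G.F' (hl.sandwich hx.1 hxx G.F.f_mem.1)
    have hAB : A * B = a • (e * f) := by
      calc A * B = e * f * x * (f' * e' * f') * x * f := by rw [hA, hB]; noncomm_ring
        _ = e * f * (x * f' * x) * (f * e) * f := by
          rw [fef', mul_assoc _ (f * e) f, fef]; noncomm_ring
        _ = _ := by rw [ha, smul_mul_assoc]
    have hBA : B * A = b • (e' * f') := by
      calc B * A = e' * f' * x * (f * e * f) * x * f' := by rw [hA, hB]; noncomm_ring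
        _ = e' * f' * (x * f * x) * (f' * e') * f' := by
          rw [fef, mul_assoc _ (f' * e') f', fef']; noncomm_ring
        _ = _ := by rw [hb, smul_mul_assoc]
    have hp1A : e * f * A = A := by rw [hA]; simp only [← mul_assoc]; rw [efe]
    have hAp2 : A * (e' * f') = A := by rw [hA, mul_assoc, ← mul_assoc f', fef']
    have hp2B : e' * f' * B = B := by rw [hB]; simp only [← mul_assoc]; rw [efe']
    have hBp1 : B * (e * f) = B := by rw [hB, mul_assoc, ← mul_assoc f, fef]
    have hAA : A * A = 0 := by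
      calc A * A = e * f * x * (f' * e) * f * x * f' := by rw [hA]; noncomm_ring
        _ = 0 := by rw [G.o2]; simp
    have hBB : B * B = 0 := by
      calc B * B = e' * f' * x * (f * e') * f' * x * f := by rw [hB]; noncomm_ring
        _ = 0 := by rw [G.o4]; simp
    have hab : a = b := by
      by_cases hA0 : A = 0
      · rw [hA0, zero_mul] at hAB
        rw [hA0, mul_zero] at hBA
        have ha0 := (smul_eq_zero.mp hAB.symm).resolve_right p1ne
        have p2ne : e' * f' ≠ 0 := by
          intro h1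
          apply G.F'.e_ne
          rw [← efe', h1, zero_mul]
        have hb0 := (smul_eq_zero.mp hBA.symm).resolve_right p2ne
        rw [ha0, hb0]
      · have e1 : (a - b) • A = 0 := by
          have e2 : A * B * A = a • A := by rw [hAB, smul_mul_assoc, hp1A]
          have e3 : A * B * A = b • A := by rw [mul_assoc, hBA, mul_smul_comm, hAp2]
          rw [sub_smul, ← e2, ← e3, sub_self]
        exact sub_eq_zero.mp ((smul_eq_zero.mp e1).resolve_right hA0)
    -- the square
    obtain ⟨D, hD⟩ : ∃ D : Module.End K V, D = x * (f + f') - ((c₁ + c₂) / 2) • P := ⟨_, rfl⟩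
    obtain ⟨d, hd⟩ : ∃ d : K, d = (c₁ - c₂) / 2 := ⟨_, rfl⟩
    have hD2 : D = d • (e * f - e' * f') + (A + B) := by
      rw [hD, hxj, hPe, hd]; module
    have t12 : e * f * (e' * f') = 0 := by
      rw [mul_assoc, ← mul_assoc f, G.o4, zero_mul, mul_zero]
    have t21 : e' * f' * (e * f) = 0 := by
      rw [mul_assoc, ← mul_assoc f', G.o2, zero_mul, mul_zero]
    have t11 : e * f * (e * f) = e * f := by rw [← mul_assoc, efe]
    have t22 : e' * f' * (e' * f') = e' * f' := by rw [← mul_assoc, efe']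
    have hp2A : e' * f' * A = 0 := by rw [← hp1A, ← mul_assoc, t21, zero_mul]
    have hp1B : e * f * B = 0 := by rw [← hp2B, ← mul_assoc, t12, zero_mul]
    have hAp1 : A * (e * f) = 0 := by rw [← hAp2, mul_assoc, t21, mul_zero]
    have hBp2 : B * (e' * f') = 0 := by rw [← hBp1, mul_assoc, t12, mul_zero]
    have hDD : D * D = (d * d + a) • P := by
      rw [hD2]
      simp only [add_mul, mul_add, sub_mul, mul_sub, smul_mul_assoc, mul_smul_comm, smul_sub,
        t11, t12, t21, t22, hp1A, hAp2, hp2B, hBp1, hp2A, hp1B, hAp1, hBp2, hAA, hBB, hAB, hBA,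
        ← hab, hPe]
      module
    refine ⟨d * d + a, ?_⟩
    have hTD : ∀ v : eig s 1, ((T v : eig s 1) : V) = D v := by
      intro v
      rw [h3, hD, LinearMap.sub_apply, LinearMap.smul_apply, hPv v (m1.mp v.2)]
      rfl
    ext v
    rw [Module.End.mul_apply, hTD, hTD, ← Module.End.mul_apply, hDD, LinearMap.smul_apply,
      hPv v (m1.mp v.2)]
    rfl
  have hfin := (K5_eig h G.F.s_mem G.F.s_sq).2
  have hpos : 0 < finrank K V := finrank_pos
  have hpos1 : 0 < finrank K (eig s 1) := by omega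
  have : Nontrivial (eig s 1) := (Module.finrank_pos_iff (R := K)).mp hpos1
  -- the form
  have hjL : f + f' ∈ L := L.add_mem G.F.f_mem.1 G.F'.f_mem.1
  have hskew : ∀ v w, ω v w = -ω w v := by
    intro v w
    have h1 := h.alt (v + w)
    simp only [map_add, LinearMap.add_apply] at h1
    rw [h.alt v, h.alt w, zero_add, add_zero] at h1
    exact eq_neg_of_add_eq_zero_right h1
  have hmv : ∀ X ∈ L, ∀ v w, ω (X v) w = -ω v (X w) := by
    intro X hX v w
    rw [h.spec, h.skew X hX, LinearMap.neg_apply, map_neg]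
  let β : eig s 1 →ₗ[K] eig s 1 →ₗ[K] K := LinearMap.mk₂ K (fun v w => ω v ((f + f') w))
    (fun v v' w => by rw [Submodule.coe_add, map_add, LinearMap.add_apply])
    (fun c v w => by rw [Submodule.coe_smul, map_smul, LinearMap.smul_apply])
    (fun v w w' => by rw [Submodule.coe_add, map_add, map_add])
    (fun c v w => by rw [Submodule.coe_smul, map_smul, map_smul])
  have hβ : ∀ v w : eig s 1, β v w = ω v ((f + f') w) := fun v w => rfl
  have hβ0 : β ≠ 0 := by
    intro hb
    obtain ⟨v, hv⟩ := exists_ne (0 : eig s 1)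
    apply hv
    apply Subtype.ext
    refine h.nd v fun w => ?_
    have hw : w = P w + Q w := by
      rw [← LinearMap.add_apply, hP, hQ, ← smul_add]
      have : (1 + s + (1 - s)) = (2 : K) • (1 : Module.End K V) := by rw [two_smul]; abel
      rw [this, smul_smul]
      norm_num
    have e1 : ω v (P w) = 0 := by
      have e2 : s (P w) = P w := by
        rw [← Module.End.mul_apply, hP, mul_smul_comm, mul_add, mul_one, hs2, add_comm]
      have e3 := hmv s G.F.s_mem v (P w)
      rw [m1.mp v.2, e2] at e3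
      have e4 : (2 : K) * ω v (P w) = 0 := by linear_combination e3
      exact (mul_eq_zero.1 e4).resolve_left two_ne_zero
    have e5 : ω v (Q w) = 0 := by
      have e6 : (e + e') w ∈ eig s 1 := by
        rw [m1, ← Module.End.mul_apply, mul_add, G.F.e_mem.2.1, G.F'.e_mem.2.1]
      have e7 : Q w = (f + f') ((e + e') w) := by
        rw [← Module.End.mul_apply, hjg]
      rw [e7]
      have e8 := hβ v ⟨(e + e') w, e6⟩
      rw [hb] at e8
      exact e8.symm
    rw [hw, map_add, e1, e5, add_zero]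
  have hβs : ∀ v w : eig s 1, β v w = 1 * β w v := by
    intro v w
    rw [hβ, hβ, one_mul, hskew, hmv _ hjL, neg_neg]
  have hβa : ∀ c ∈ J, ∀ v w : eig s 1, β (c v) w = 1 * β v (c w) := by
    rintro T ⟨x, hx, c₁, c₂, h1, h2, h3⟩ v w
    rw [hβ, hβ, one_mul, h3, h3, map_sub, LinearMap.sub_apply, map_sub, map_sub, map_smul,
      LinearMap.smul_apply, map_smul, map_smul]
    congr 1
    rw [hmv x hx.1, hmv _ hjL, neg_neg]
  suffices hirr : ∀ U : Submodule K (eig s 1), (∀ w ∈ J, ∀ u ∈ U, w u ∈ U) → U = ⊥ ∨ U = ⊤ by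
    obtain ⟨t, ht, hts⟩ := P7_sign (finrank K (eig s 1)) (eig s 1) J rfl hsq hirr β 1 1 hβ0 hβs hβa
      (by rw [one_mul])
    refine ⟨t, ht, P8s_mod (K := K) ?_⟩
    rwa [one_pow, one_mul, one_mul] at hts
  intro U hU
  by_cases hU0 : U = ⊥
  · exact Or.inl hU0
  right
  obtain ⟨W, hW⟩ : ∃ W : Submodule K V, W = U.map (eig s 1).subtype := ⟨_, rfl⟩
  have hWs : ∀ w ∈ W, s w = w := by
    rw [hW]; rintro _ ⟨u, _, rfl⟩; exact m1.mp u.2
  have hW0 : W ≠ ⊥ := by
    intro h1
    apply hU0
    rw [eq_bot_iff]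
    intro y hy
    have h4 : (y : V) ∈ W := by rw [hW]; exact ⟨y, hy, rfl⟩
    rw [h1, Submodule.mem_bot] at h4
    exact Subtype.ext h4
  have hst1 : ∀ x ∈ Lp L s, ∀ w ∈ W, (x * (f + f')) w ∈ W := by
    intro x hx w hw
    obtain ⟨c₁, h1⟩ := K0_ext hl G.F hx.1
    obtain ⟨c₂, h2⟩ := K0_ext hl G.F' hx.1
    have hstab : ∀ v ∈ eig s 1, (x * (f + f') - ((c₁ + c₂) / 2) • 1) v ∈ eig s 1 := by
      intro v hv
      rw [m1] at hv ⊢
      rw [LinearMap.sub_apply, map_sub, ← Module.End.mul_apply, ← mul_assoc, hx.2.1,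
        LinearMap.smul_apply, map_smul, Module.End.one_apply, hv]
    rw [hW] at hw ⊢
    obtain ⟨u, hu, rfl⟩ := hw
    have h5 := hU ((x * (f + f') - ((c₁ + c₂) / 2) • 1).restrict hstab)
      ⟨x, hx, c₁, c₂, h1, h2, fun v => rfl⟩ u hu
    have h6 : (x * (f + f')) (u : V) = (((x * (f + f') - ((c₁ + c₂) / 2) • 1).restrict hstab u +
        ((c₁ + c₂) / 2) • u : eig s 1) : V) := by
      rw [Submodule.coe_add, Submodule.coe_smul, LinearMap.coe_restrict_apply]
      simp
    change (x * (f + f')) (u : V) ∈ _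
    rw [h6]
    exact ⟨_, U.add_mem h5 (U.smul_mem _ hu), rfl⟩
  rw [eq_top_iff]
  rintro ⟨u, hu⟩ -
  have huW : u ∈ W := by
    refine A3_vec h G.F.s_mem G.F.s_sq hWs hW0 ?_ (m1.mp hu)
    intro Z hZ
    have hsp := A3_span h G.F.s_mem G.F.s_sq hZ
    refine Submodule.span_induction (p := fun Z _ => ∀ w ∈ W, Z w ∈ W) ?_ ?_ ?_ ?_ hsp
    · rintro _ ⟨X, hX, Y, hY, rfl⟩ w hw
      have hXw : X w = 0 := by
        have e1 : X w = -(X w) := by
          conv_lhs => rw [← hWs w hw, ← Module.End.mul_apply, hX.2.2]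
          rfl
        have e2 : (2 : K) • X w = 0 := by
          rw [two_smul]
          nth_rewrite 1 [e1]
          exact neg_add_cancel _
        exact (smul_eq_zero.mp e2).resolve_left two_ne_zero
      have hgL : e + e' ∈ Lp L s := (Lp L s).add_mem G.F.e_mem G.F'.e_mem
      have hgg : (e + e') * (e + e') = 0 := A2_pp hgL hgL
      have hgYg : (e + e') * Y * (e + e') ∈ Lp L s := by
        refine ⟨hl.sandwich hgL.1 hgg hY.1, ?_, ?_⟩
        · rw [← mul_assoc, ← mul_assoc, hgL.2.1]
        · rw [mul_assoc, hgL.2.2, mul_neg]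
      have e3 : X * Y = (X * (f + f')) * (((e + e') * Y * (e + e')) * (f + f')) := by
        calc X * Y = (X * Q) * (Y * P) := by rw [eXQ X hX, eYP Y hY]
          _ = (X * ((f + f') * (e + e'))) * (Y * ((e + e') * (f + f'))) := by rw [hgj, hjg]
          _ = _ := by noncomm_ring
      rw [LinearMap.sub_apply, Module.End.mul_apply Y X, hXw, map_zero, sub_zero, e3,
        Module.End.mul_apply]
      exact hst1 X hX _ (hst1 _ hgYg w hw)
    · intro w _; rw [LinearMap.zero_apply]; exact W.zero_mem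
    · intro a b _ _ h1 h2 w hw
      rw [LinearMap.add_apply]
      exact W.add_mem (h1 w hw) (h2 w hw)
    · intro c a _ h1 w hw
      rw [LinearMap.smul_apply]
      exact W.smul_mem _ (h1 w hw)
  rw [hW] at huW
  obtain ⟨y, hy, hyu⟩ := huW
  have : y = ⟨u, hu⟩ := Subtype.ext hyu
  rwa [← this]

end Pool.Agent.H49M
end

-- from Lib.H49M.R2
section

/-!
# R2: the case of a rank one Jordan pair, exact statement
-/

set_option autoImplicit false
set_option linter.unusedSectionVars false
namespace Pool.Agent.H49M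
open Module Pool.Agent.H53Toric

variable {K : Type*} [Field K] {V : Type*} [AddCommGroup V] [Module K V]

/-- `K4_rank` with the counting scalar. -/
theorem R2_rank [CharZero K] [IsAlgClosed K] [FiniteDimensional K V] [Nontrivial V]
    {s : Module.End K V} {n : ℕ} {x y : Fin (n + 1) → Module.End K V} (h : Kemmer s x y)
    (hx : x 0 ≠ 0) : ∃ k : ℕ, 1 ≤ k ∧ k ≤ n + 1 ∧ finrank K (eig s 1) = (n + 1).choose k ∧
      finrank K (eig s (-1)) = (n + 1).choose (k - 1) ∧
      finrank K (LinearMap.range (x 0)) = n.choose (k - 1) ∧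
      ∀ v, cnt s x y v = (k : K) • v := by
  have hU1 : K4U s x y 1 ≠ ⊥ := by
    intro h0
    apply hx
    rw [← K4a_cx h 0, K4b_zero1 h h0, zero_mul]
  have hU0 : K4U s x y 0 ≠ ⊥ := by
    intro h0
    apply hx
    rw [← mul_one (x 0), ← K4b_zero0 h h0, K4a_xc h 0]
  have : Nontrivial (K4U s x y 0) := (Submodule.nontrivial_iff_ne_bot).mpr hU0
  have : Nontrivial (K4U s x y 1) := (Submodule.nontrivial_iff_ne_bot).mpr hU1
  obtain ⟨k, hk1, hk2, hk3, hk4⟩ := K4_dim (n + 1) V h
  obtain ⟨k0, a1, a2, a3, a4⟩ := K4_dim n (K4U s x y 0) (K4b_kemmer h (Or.inl rfl))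
  obtain ⟨k1, b1, b2, b3, b4⟩ := K4_dim n (K4U s x y 1) (K4b_kemmer h (Or.inr rfl))
  have e0 := K4b_parts h hk1 hU0 a1
  have e1 := K4b_parts h hk1 hU1 b1
  have e2 : k = k0 := by
    rw [zero_add] at e0
    exact Nat.cast_injective e0
  have e3 : k = k1 + 1 := by
    have : (k : K) = ((k1 + 1 : ℕ) : K) := by rw [e1]; push_cast; ring
    exact Nat.cast_injective this
  -- the rank of `x 0`
  have hr : finrank K (LinearMap.range (x 0)) =
      finrank K (eig (LinearMap.restrict s (K4b_us h 0)) (-1)) := by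
    have e : eig (LinearMap.restrict s (K4b_us h 0)) (-1) =
        (eig s (-1) ⊓ K4U s x y 0).comap (K4U s x y 0).subtype := by
      ext v
      rw [Submodule.mem_comap, Submodule.mem_inf, eig, eig, LinearMap.mem_ker, LinearMap.mem_ker]
      constructor
      · intro h1
        exact ⟨congrArg Subtype.val h1, v.2⟩
      · rintro ⟨h1, -⟩
        exact Subtype.ext h1
    rw [e, LinearEquiv.finrank_eq (Submodule.comapSubtypeEquivOfLe
      (inf_le_right : eig s (-1) ⊓ K4U s x y 0 ≤ K4U s x y 0))]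
    set E := eig s (-1) ⊓ K4U s x y 0 with hE
    have hinj : Function.Injective ((x 0).domRestrict E) := by
      rw [injective_iff_map_eq_zero]
      rintro ⟨w, hw1, hw2⟩ hw
      have hw3 : x 0 w = 0 := hw
      have hw4 : K4c s x y 0 w = 0 := by rw [K4b_memU.mp hw2, zero_smul]
      have hw5 : y 0 w = 0 := by
        rw [← K4a_yc h 0, Module.End.mul_apply, hw4, map_zero]
      have hw6 : s w = -w := by
        rw [eig, SetLike.mem_coe, LinearMap.mem_ker, LinearMap.sub_apply, sub_eq_zero] at hw1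
        rw [hw1, LinearMap.smul_apply, neg_one_smul, Module.End.one_apply]
      rw [K4c, LinearMap.sub_apply, LinearMap.add_apply, Module.End.mul_apply,
        Module.End.mul_apply, hw3, hw5, map_zero, map_zero, zero_add, sub_zero,
        LinearMap.smul_apply, LinearMap.sub_apply, hw6, Module.End.one_apply, sub_neg_eq_add,
        ← two_smul K, smul_smul] at hw4
      have : w = 0 := by
        refine (smul_eq_zero.mp hw4).resolve_left ?_
        norm_num
      exact Subtype.ext this
    have hrange : LinearMap.range (x 0) = LinearMap.range ((x 0).domRestrict E) := by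
      apply le_antisymm
      · rintro _ ⟨v, rfl⟩
        refine ⟨⟨((1 / 2 : K) • (1 - s)) (v - K4c s x y 0 v), ?_, ?_⟩, ?_⟩
        · rw [eig, SetLike.mem_coe, LinearMap.mem_ker, LinearMap.sub_apply, sub_eq_zero,
            LinearMap.smul_apply, LinearMap.smul_apply, neg_one_smul, Module.End.one_apply,
            map_smul, ← smul_neg]
          congr 1
          rw [LinearMap.sub_apply, map_sub, ← Module.End.mul_apply s s, h.s_sq,
            Module.End.one_apply]
          abel
        · have hcom : K4c s x y 0 * ((1 / 2 : K) • (1 - s)) =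
              ((1 / 2 : K) • (1 - s)) * K4c s x y 0 := by
            rw [mul_smul_comm, smul_mul_assoc, mul_sub, sub_mul, K4a_coms h 0, mul_one, one_mul]
          rw [SetLike.mem_coe, K4b_memU, ← Module.End.mul_apply, hcom, Module.End.mul_apply, map_sub,
            ← Module.End.mul_apply (K4c s x y 0) (K4c s x y 0), K4a_idem h 0, sub_self, map_zero,
            zero_smul]
        · show x 0 (((1 / 2 : K) • (1 - s)) (v - K4c s x y 0 v)) = x 0 v
          rw [← Module.End.mul_apply, K4a_xQ h 0, map_sub, ← Module.End.mul_apply, K4a_xc h 0,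
            LinearMap.zero_apply, sub_zero]
      · rintro _ ⟨v, rfl⟩
        exact ⟨v, rfl⟩
    rw [← LinearMap.finrank_range_of_inj hinj, hrange]
  have hk0 : k0 = (k - 1) + 1 := by omega
  have hr2 : finrank K (LinearMap.range (x 0)) = n.choose (k - 1) := by
    rw [hr, a4 (k - 1) hk0]
  refine ⟨k, by omega, ?_, hk2, hk4 (k - 1) (by omega), hr2, hk1⟩
  by_contra hlt
  rw [Nat.choose_eq_zero_of_lt (by omega)] at hr2
  have : LinearMap.range (x 0) = ⊥ := Submodule.finrank_eq_zero.mp hr2
  exact hx (LinearMap.range_eq_bot.mp this)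

variable {L : Submodule K (Module.End K V)} {ω : V →ₗ[K] V →ₗ[K] K}
  {adj : Module.End K V →ₗ[K] Module.End K V}

/-- `K3_system` with the memberships. -/
theorem R2_system [CharZero K] [IsAlgClosed K] [FiniteDimensional K V] [Nontrivial V]
    (h : Core L ω adj) {s e f : Module.End K V} (F : Frame L s e f)
    (hall : ∀ x ∈ Lp L s, ∀ y ∈ Lm L s, ∃ c : K, x * y * x = c • x ∧ y * x * y = c • y) :
    ∃ (n : ℕ) (x y : Fin (n + 1) → Module.End K V), Kemmer s x y ∧ x 0 = e ∧ y 0 = f ∧
      (∀ i, x i ∈ Lp L s) ∧ (∀ i, y i ∈ Lm L s) := by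
  have hr0 : (finrank K (LinearMap.range e) : K) ≠ 0 := by
    rw [Nat.cast_ne_zero]
    intro h0
    exact F.e_ne (LinearMap.range_eq_bot.1 (Submodule.finrank_eq_zero.1 h0))
  obtain ⟨r, hr⟩ : ∃ r : K, r = (finrank K (LinearMap.range e) : K) := ⟨_, rfl⟩
  rw [← hr] at hr0
  have htef : LinearMap.trace K V (e * f) = r := by rw [(K0_rank F).2.2, hr]
  -- the pairing
  let T : Lm L s →ₗ[K] Module.Dual K (Lp L s) :=
    { toFun := fun y =>
        { toFun := fun x => LinearMap.trace K V (x.1 * y.1)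
          map_add' := fun a b => by
            change LinearMap.trace K V ((a.1 + b.1) * y.1) = _
            rw [add_mul, map_add]
          map_smul' := fun c a => by
            change LinearMap.trace K V ((c • a.1) * y.1) = _
            rw [smul_mul_assoc, map_smul]; rfl }
      map_add' := fun a b => by
        ext x
        change LinearMap.trace K V (x.1 * (a.1 + b.1)) = _
        rw [mul_add, map_add]; rfl
      map_smul' := fun c a => by
        ext x
        change LinearMap.trace K V (x.1 * (c • a.1)) = _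
        rw [mul_smul_comm, map_smul]; rfl }
  have hT : ∀ (y : Lm L s) (x : Lp L s), T y x = LinearMap.trace K V (x.1 * y.1) := fun _ _ => rfl
  let T' : Lp L s →ₗ[K] Module.Dual K (Lm L s) := T.flip
  have hTi : Function.Injective T := by
    rw [injective_iff_map_eq_zero]
    intro y hy
    apply Subtype.ext
    apply A2_nondeg' h F.s_mem F.s_sq y.2
    intro x hx
    exact LinearMap.congr_fun hy ⟨x, hx⟩
  have hTi' : Function.Injective T' := by
    rw [injective_iff_map_eq_zero]
    intro x hx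
    apply Subtype.ext
    apply A2_nondeg h F.s_mem F.s_sq x.2
    intro y hy
    exact LinearMap.congr_fun hx ⟨y, hy⟩
  have hdim : finrank K (Lm L s) = finrank K (Module.Dual K (Lp L s)) := by
    apply le_antisymm
    · exact LinearMap.finrank_le_finrank_of_injective hTi
    · rw [Subspace.dual_finrank_eq]
      have := LinearMap.finrank_le_finrank_of_injective hTi'
      rwa [Subspace.dual_finrank_eq] at this
  let E := LinearEquiv.ofInjectiveOfFinrankEq T hTi hdim
  have hE : ∀ y, E y = T y := fun _ => rfl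
  -- the basis
  let φ : Lp L s →ₗ[K] K := T ⟨f, F.f_mem⟩
  have hφe : φ ⟨e, F.e_mem⟩ = r := htef
  have hfree : Module.Free K (LinearMap.ker φ) :=
    @Module.Free.of_divisionRing K (LinearMap.ker φ) _ (LinearMap.ker φ).addCommGroup _
  let b := Module.finBasis K (LinearMap.ker φ)
  have hli : ∀ c : K, ∀ x ∈ LinearMap.ker φ, c • (⟨e, F.e_mem⟩ : Lp L s) + x = 0 → c = 0 := by
    intro c x hx hcx
    have h1 := congrArg φ hcx
    rw [map_add, map_smul, hφe, LinearMap.mem_ker.1 hx, add_zero, map_zero, smul_eq_mul] at h1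
    exact (mul_eq_zero.1 h1).resolve_right hr0
  have hsp : ∀ z : Lp L s, ∃ c : K, z + c • (⟨e, F.e_mem⟩ : Lp L s) ∈ LinearMap.ker φ := by
    intro z
    refine ⟨-(φ z / r), ?_⟩
    rw [LinearMap.mem_ker, map_add, map_smul, hφe, smul_eq_mul, neg_mul,
      div_mul_cancel₀ _ hr0, add_neg_cancel]
  let B := Module.Basis.mkFinCons (⟨e, F.e_mem⟩ : Lp L s) b hli hsp
  have hB0 : B 0 = ⟨e, F.e_mem⟩ := by
    change (Module.Basis.mkFinCons _ b hli hsp) 0 = _
    rw [Module.Basis.coe_mkFinCons]; rfl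
  have hBs : ∀ i : Fin (finrank K (LinearMap.ker φ)), φ (B i.succ) = 0 := by
    intro i
    change φ ((Module.Basis.mkFinCons _ b hli hsp) i.succ) = _
    rw [Module.Basis.coe_mkFinCons]
    exact LinearMap.mem_ker.1 (b i).2
  let C := B.dualBasis.map E.symm
  have hTC : ∀ i j, T (C j) (B i) = if i = j then 1 else 0 := by
    intro i j
    have h1 : T (C j) = B.dualBasis j := by
      rw [← hE]
      change E (E.symm (B.dualBasis j)) = _
      rw [LinearEquiv.apply_symm_apply]
    rw [h1, Module.Basis.dualBasis_apply_self]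
  let x : Fin (finrank K (LinearMap.ker φ) + 1) → Module.End K V := fun i => (B i).1
  let y : Fin (finrank K (LinearMap.ker φ) + 1) → Module.End K V := fun i => r • (C i).1
  have hx : ∀ i, x i ∈ Lp L s := fun i => (B i).2
  have hy : ∀ i, y i ∈ Lm L s := fun i => (Lm L s).smul_mem r (C i).2
  have htr : ∀ i j, LinearMap.trace K V (x i * y j) = if i = j then r else 0 := by
    intro i j
    change LinearMap.trace K V ((B i).1 * (r • (C j).1)) = _
    rw [mul_smul_comm, map_smul, ← hT, hTC]
    split_ifs <;> simp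
  have hpol1 : ∀ a ∈ Lp L s, ∀ a' ∈ Lp L s, ∀ d ∈ Lm L s, r • (a * d * a' + a' * d * a) =
      LinearMap.trace K V (a * d) • a' + LinearMap.trace K V (a' * d) • a := by
    intro a ha a' ha' d hd
    have h1 := (K3_trace h F hall ha hd).1
    have h2 := (K3_trace h F hall ha' hd).1
    have h3 := (K3_trace h F hall ((Lp L s).add_mem ha ha') hd).1
    rw [← hr] at h1 h2 h3
    have e1 : (a + a') * d * (a + a') = a * d * a + a' * d * a' + (a * d * a' + a' * d * a) := by
      noncomm_ring
    rw [e1, smul_add, smul_add, h1, h2, add_mul, map_add] at h3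
    have e2 : r • (a * d * a' + a' * d * a) = (LinearMap.trace K V (a * d) • a +
        LinearMap.trace K V (a' * d) • a' + r • (a * d * a' + a' * d * a)) -
        (LinearMap.trace K V (a * d) • a + LinearMap.trace K V (a' * d) • a') := by abel
    rw [e2, h3]
    module
  have hpol2 : ∀ a ∈ Lp L s, ∀ d ∈ Lm L s, ∀ d' ∈ Lm L s, r • (d * a * d' + d' * a * d) =
      LinearMap.trace K V (a * d) • d' + LinearMap.trace K V (a * d') • d := by
    intro a ha d hd d' hd'
    have h1 := (K3_trace h F hall ha hd).2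
    have h2 := (K3_trace h F hall ha hd').2
    have h3 := (K3_trace h F hall ha ((Lm L s).add_mem hd hd')).2
    rw [← hr] at h1 h2 h3
    have e1 : (d + d') * a * (d + d') = d * a * d + d' * a * d' + (d * a * d' + d' * a * d) := by
      noncomm_ring
    rw [e1, smul_add, smul_add, h1, h2, mul_add, map_add] at h3
    have e2 : r • (d * a * d' + d' * a * d) = (LinearMap.trace K V (a * d) • d +
        LinearMap.trace K V (a * d') • d' + r • (d * a * d' + d' * a * d)) -
        (LinearMap.trace K V (a * d) • d + LinearMap.trace K V (a * d') • d') := by abel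
    rw [e2, h3]
    module
  have hcancel : ∀ S T : Module.End K V, r • S = r • T → S = T := fun S T hST =>
    smul_right_injective _ hr0 hST
  refine ⟨finrank K (LinearMap.ker φ), x, y, ⟨F.s_sq, fun i => (hx i).2.1, fun i => (hx i).2.2,
    fun i => (hy i).2.1, fun i => (hy i).2.2, ?_, ?_, ?_⟩, ?_, ?_, hx, hy⟩
  · intro i j k
    apply hcancel
    rw [hpol1 _ (hx i) _ (hx k) _ (hy j), htr, htr]
    split_ifs <;> simp [smul_add]
  · intro i j k
    apply hcancel
    rw [hpol2 _ (hx j) _ (hy i) _ (hy k), htr, htr]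
    simp only [eq_comm (a := j)]
    split_ifs <;> simp [smul_add]
  · intro W hWx hWy hWs
    have hp : ∀ X ∈ Lp L s, ∀ w ∈ W, X w ∈ W := by
      intro X hX w hw
      have h1 := B.sum_repr ⟨X, hX⟩
      have h2 : X = ∑ i, (B.repr ⟨X, hX⟩ i) • x i := by
        have := congrArg Subtype.val h1
        rw [AddSubmonoidClass.coe_finsetSum] at this
        exact this.symm
      rw [h2, LinearMap.sum_apply]
      exact W.sum_mem fun i _ => W.smul_mem _ (hWx i w hw)
    have hm : ∀ Y ∈ Lm L s, ∀ w ∈ W, Y w ∈ W := by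
      intro Y hY w hw
      have h1 := C.sum_repr ⟨Y, hY⟩
      have h2 : Y = ∑ i, (C.repr ⟨Y, hY⟩ i) • (C i).1 := by
        have := congrArg Subtype.val h1
        rw [AddSubmonoidClass.coe_finsetSum] at this
        exact this.symm
      rw [h2, LinearMap.sum_apply]
      refine W.sum_mem fun i _ => W.smul_mem _ ?_
      have h3 := W.smul_mem r⁻¹ (hWy i w hw)
      change r⁻¹ • (r • (C i).1) w ∈ W at h3
      rwa [LinearMap.smul_apply, smul_smul, inv_mul_cancel₀ hr0, one_smul] at h3
    have h00 : ∀ Z ∈ L0 L s, ∀ w ∈ W, Z w ∈ W := by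
      intro Z hZ w hw
      have h1 := A3_span h F.s_mem F.s_sq hZ
      clear hZ
      induction h1 using Submodule.span_induction with
      | mem Z hZ =>
        obtain ⟨X, hX, Y, hY, rfl⟩ := hZ
        rw [LinearMap.sub_apply]
        exact W.sub_mem (hp X hX _ (hm Y hY w hw)) (hm Y hY _ (hp X hX w hw))
      | zero => simp
      | add a b _ _ ha hb =>
        rw [LinearMap.add_apply]
        exact W.add_mem ha hb
      | smul c a _ ha =>
        rw [LinearMap.smul_apply]
        exact W.smul_mem c ha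
    apply h.irr W
    intro X hX w hw
    obtain ⟨a, ha, b, hb, c, hc, rfl⟩ := A2_decomp h F.s_mem F.s_sq hX
    rw [LinearMap.add_apply, LinearMap.add_apply]
    exact W.add_mem (W.add_mem (hp a ha w hw) (h00 b hb w hw)) (hm c hc w hw)
  · change (B 0).1 = e
    rw [hB0]
  · change r • (C 0).1 = f
    have h1 : r • C 0 = ⟨f, F.f_mem⟩ := by
      apply hTi
      apply B.ext
      intro i
      rw [map_smul, LinearMap.smul_apply, hTC]
      change _ = φ (B i)
      refine Fin.cases ?_ (fun i => ?_) i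
      · rw [if_pos rfl, hB0, hφe, smul_eq_mul, mul_one]
      · rw [if_neg (Fin.succ_ne_zero i), hBs, smul_zero]
    exact congrArg Subtype.val h1

/-- The exact dimensions in the Kemmer case. -/
theorem R2_final [CharZero K] [IsAlgClosed K] [FiniteDimensional K V] [Nontrivial V]
    (h : Core L ω adj) {s e f : Module.End K V} (F : Frame L s e f)
    (ha : ∀ u ∈ J1 L s e f, u * f * u = 0) :
    ∃ k : ℕ, 1 ≤ k ∧ Odd k ∧ finrank K V = k.centralBinom ∧
      finrank K (LinearMap.range e) = (k - 1).centralBinom := by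
  have hall := fun (x : Module.End K V) (hx : x ∈ Lp L s) (y : Module.End K V)
    (hy : y ∈ Lm L s) => K2_all h F ha hx hy
  obtain ⟨n, x, y, hK, hx, hy, hxL, hyL⟩ := R2_system h F hall
  obtain ⟨k, hk1, hk2, h1, h2, h3, hcnt⟩ := R2_rank hK (by rw [hx]; exact F.e_ne)
  obtain ⟨h4, h5⟩ := K5_eig h F.s_mem F.s_sq
  obtain ⟨j', hj1, hj2⟩ : ∃ j : ℕ, n + 1 = 2 * j + 1 ∧ (-1 : K) = (-1) ^ (j + 1) := by
    have hskew : ∀ v w, ω v w = -ω w v := by
      intro v w
      have h1 := h.alt (v + w)
      simp only [map_add, LinearMap.add_apply] at h1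
      rw [h.alt v, h.alt w, zero_add, add_zero] at h1
      exact eq_neg_of_add_eq_zero_right h1
    have hform : ∀ X ∈ L, ∀ v w, ω (X v) w = -ω v (X w) := by
      intro X hX v w
      rw [h.spec, h.skew X hX, LinearMap.neg_apply, map_neg]
    have hω : ω ≠ 0 := by
      intro h0
      obtain ⟨v, hv⟩ := exists_ne (0 : V)
      exact hv (h.nd v fun w => by rw [h0]; rfl)
    exact K6_sign (n + 1) V hK ω (-1) hω (fun v w => by rw [hskew]; ring)
      (fun i => hform _ (hxL i).1) (fun i => hform _ (hyL i).1) (hform _ F.s_mem)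
  obtain ⟨j, rfl⟩ : ∃ j, k = j + 1 := ⟨k - 1, by omega⟩
  rw [Nat.add_sub_cancel] at h2 h3
  rw [h1, h2] at h4
  have h6 := Nat.choose_succ_right_eq (n + 1) j
  rw [h4] at h6
  have h7 : 0 < (n + 1).choose j := Nat.choose_pos (by omega)
  have h8 : j + 1 = n + 1 - j := Nat.eq_of_mul_eq_mul_left h7 h6
  have h9 : n = 2 * j := by omega
  have h10 : finrank K (LinearMap.range e) = j.centralBinom := by
    rw [← hx, h3, h9, Nat.centralBinom]
  have h11 : finrank K V = (j + 1).centralBinom := by
    have e1 : (2 * (j + 1)).choose (j + 1) = (2 * j + 1).choose j + (2 * j + 1).choose (j + 1) := by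
      rw [show 2 * (j + 1) = (2 * j + 1) + 1 by ring, Nat.choose_succ_succ]
    rw [h5, h1, Nat.centralBinom, e1, ← h9, h4]
    ring
  have hjj : j' = j := by omega
  have hodd : Odd (j + 1) := by
    by_contra hne
    rw [Nat.not_odd_iff_even] at hne
    rw [hjj, hne.neg_one_pow] at hj2
    norm_num at hj2
  exact ⟨j + 1, by omega, hodd, h11, by rw [Nat.add_sub_cancel]; exact h10⟩

end Pool.Agent.H49M
end

-- from Lib.H49M.R3
section

/-!
# R3: the exact list of exceptions
-/

set_option autoImplicit false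
set_option linter.unusedSectionVars false
namespace Pool.Agent.H49M
open Module Pool.Agent.H53Toric

theorem R3_binom_lt (j : ℕ) : (j + 1).centralBinom < 4 * j.centralBinom := by
  have h1 := Nat.succ_mul_centralBinom_succ j
  have h2 := j.centralBinom_pos
  by_contra h
  push Not at h
  have h3 : (j + 1) * (4 * j.centralBinom) ≤ (j + 1) * (j + 1).centralBinom :=
    Nat.mul_le_mul_left _ h
  rw [h1] at h3
  nlinarith

/-- A central binomial coefficient is not a power of two. -/
theorem R3_binom_pow {k m : ℕ} (hk : 2 ≤ k) : k.centralBinom ≠ 2 ^ m := by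
  intro h
  obtain ⟨j, rfl⟩ : ∃ j, k = j + 1 := ⟨k - 1, by omega⟩
  have h1 := Nat.succ_mul_centralBinom_succ j
  rw [h] at h1
  have h2 : (2 * j + 1) ∣ (j + 1) * 2 ^ m := by
    rw [h1]
    exact ⟨2 * j.centralBinom, by ring⟩
  have h3 : Nat.Coprime (2 * j + 1) (2 ^ m) := by
    apply Nat.Coprime.pow_right
    exact Nat.isCoprime_iff_coprime.mp ⟨1, -j, by push_cast; ring⟩
  have h4 : Nat.Coprime (2 * j + 1) (j + 1) :=
    Nat.isCoprime_iff_coprime.mp ⟨-1, 2, by push_cast; ring⟩
  have h5 := Nat.Coprime.dvd_of_dvd_mul_left h4 h2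
  have h6 := Nat.Coprime.eq_one_of_dvd h3 h5
  omega

variable {K : Type*} [Field K] {V : Type*} [AddCommGroup V] [Module K V]

variable {L : Submodule K (Module.End K V)} {ω : V →ₗ[K] V →ₗ[K] K}
  {adj : Module.End K V →ₗ[K] Module.End K V}

/-- The rank of an extremal element. -/
theorem R3_ext [CharZero K] [IsAlgClosed K] [FiniteDimensional K V] [Nontrivial V]
    (h : Core L ω adj) {s : Module.End K V} (hs : s ∈ L) (hs2 : s * s = 1)
    (hnot : ¬ ∀ X : Module.End K V, adj X = -X → X ∈ L) {N : Module.End K V} (hN : N ∈ L)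
    (hN2 : N * N = 0) (hN0 : N ≠ 0) (hext : ∀ X ∈ L, ∃ c : K, N * X * N = c • N) :
    (∃ k : ℕ, 3 ≤ k ∧ Odd k ∧ finrank K V = k.centralBinom ∧
      finrank K (LinearMap.range N) = (k - 1).centralBinom) ∨
    (∃ m : ℕ, 5 ≤ m ∧ (m % 4 = 1 ∨ m % 4 = 2) ∧ finrank K V = 2 ^ m ∧
      4 * finrank K (LinearMap.range N) = finrank K V) := by
  have hset := A1_setup h hs hs2
  obtain ⟨y, e, f, hy, hy2, he, hf, c1, c2, c3, c4, hee, hff, hefe, hfef, hrk, hext'⟩ :=
    A4_frame_aux hset hN hN2 hN0 hext
  have he0 : e ≠ 0 := by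
    intro h0
    have h1 : finrank K (LinearMap.range N) = 0 := by
      rw [← hrk, h0, LinearMap.range_zero, finrank_bot]
    exact hN0 (LinearMap.range_eq_bot.mp (Submodule.finrank_eq_zero.mp h1))
  have F : Frame L y e f := ⟨hy, hy2, ⟨he, c1, c2⟩, ⟨hf, c3, c4⟩, he0, hefe, hfef, hext'⟩
  have hr1 : finrank K (LinearMap.range e) ≠ 1 := by
    intro hr
    apply hnot
    intro X hX
    exact Setup.full hset F.e_mem.1 hee (by rw [hr]; decide) hX
  rw [← hrk]
  by_cases ha : ∀ u ∈ J1 L y e f, u * f * u = 0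
  · left
    obtain ⟨k, hk1, hk2, hk3, hk4⟩ := R2_final h F ha
    have hk : k ≠ 1 := by
      rintro rfl
      apply hr1
      rw [hk4]; rfl
    have : k ≠ 2 := by
      rintro rfl
      exact absurd hk2 (by decide)
    exact ⟨k, by omega, hk2, hk3, hk4⟩
  · right
    push Not at ha
    obtain ⟨u, hu, hu0⟩ := ha
    obtain ⟨e', f', G⟩ := P1_grid h F hu hu0
    rcases P5_dich h G with h1 | h1
    · exact absurd (P6_one h G h1) hr1
    · have h4 := P8_four h G h1
      obtain ⟨t, ht, ht2⟩ := P8_powS h G h1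
      have h5 := (K5_eig h G.F.s_mem G.F.s_sq).2
      have h6 : finrank K V = 2 ^ (t + 1) := by rw [h5, ht, pow_succ]; ring
      have ht0 : t ≠ 0 := by
        rintro rfl
        rw [h4] at h6
        omega
      have ht1 : t ≠ 1 := by
        rintro rfl
        apply hr1
        rw [h4] at h6
        omega
      exact ⟨t + 1, by omega, by omega, h6, h4.symm⟩

/-- A simple irreducible Lie algebra of skew operators of a symplectic space containing an
involution is the full symplectic Lie algebra, except if the dimension is `2 ^ m` with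
`m ≡ 1, 2 mod 4`, `m ≥ 5`, and all square zero elements have rank a quarter or a half of the
dimension, or the dimension is `C(2k, k)` with `k ≥ 3` odd and all square zero elements have rank
`C(2k-2, k-1)`. -/
theorem coreR [CharZero K] [IsAlgClosed K] [FiniteDimensional K V] [Nontrivial V]
    (h : Core L ω adj) {s : Module.End K V} (hs : s ∈ L) (hs2 : s * s = 1) :
    (∀ X : Module.End K V, adj X = -X → X ∈ L) ∨
    (∃ m : ℕ, 5 ≤ m ∧ (m % 4 = 1 ∨ m % 4 = 2) ∧ finrank K V = 2 ^ m ∧
      ∀ N ∈ L, N * N = 0 → N ≠ 0 → 4 * finrank K (LinearMap.range N) = finrank K V ∨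
        2 * finrank K (LinearMap.range N) = finrank K V) ∨
    (∃ k : ℕ, 3 ≤ k ∧ Odd k ∧ finrank K V = k.centralBinom ∧
      ∀ N ∈ L, N * N = 0 → N ≠ 0 →
        finrank K (LinearMap.range N) = (k - 1).centralBinom) := by
  by_cases hfull : ∀ X : Module.End K V, adj X = -X → X ∈ L
  · exact Or.inl hfull
  right
  have hset := A1_setup h hs hs2
  obtain ⟨N₁, hN₁, hN₁0⟩ := Submodule.exists_mem_ne_zero_of_ne_bot (A2_ne h hs hs2)
  obtain ⟨N₀, hN₀, hN₀2, hN₀0, -, hext₀⟩ := A4_extremal h.lie h.irr hset.tr hN₁.1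
    (A2_pp hN₁ hN₁) hN₁0
  rcases R3_ext h hs hs2 hfull hN₀ hN₀2 hN₀0 hext₀ with ⟨k, hk3, hk, hdim, -⟩ |
    ⟨m, hm5, hm, hdim, hr0⟩
  · right
    refine ⟨k, hk3, hk, hdim, fun N hN hN2 hN0 => ?_⟩
    obtain ⟨c, hc1, hc⟩ := R1_sum h.lie h.irr hset.tr (r := (k - 1).centralBinom) (by
      intro N' hN' hN'2 hN'0 hext'
      rcases R3_ext h hs hs2 hfull hN' hN'2 hN'0 hext' with ⟨k', -, -, hdim', hr'⟩ |
        ⟨m, -, -, hdim', -⟩
      · rw [hdim] at hdim'
        rw [Nat.centralBinom_strictMono.injective hdim']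
        exact hr'
      · rw [hdim] at hdim'
        exact absurd hdim' (R3_binom_pow (by omega))) _ N hN hN2 rfl hN0
    have h1 := R1_half hN2
    obtain ⟨j, rfl⟩ : ∃ j, k = j + 1 := ⟨k - 1, by omega⟩
    have h2 := R3_binom_lt j
    rw [Nat.add_sub_cancel] at hc ⊢
    have hc2 : c < 2 := by
      by_contra hcon
      push Not at hcon
      have h3 : 2 * j.centralBinom ≤ c * j.centralBinom := Nat.mul_le_mul_right _ hcon
      omega
    have : c = 1 := by omega
    rw [hc, this, one_mul]
  · left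
    refine ⟨m, hm5, hm, hdim, fun N hN hN2 hN0 => ?_⟩
    obtain ⟨c, hc1, hc⟩ := R1_sum h.lie h.irr hset.tr (r := finrank K (LinearMap.range N₀)) (by
      intro N' hN' hN'2 hN'0 hext'
      rcases R3_ext h hs hs2 hfull hN' hN'2 hN'0 hext' with ⟨k', hk', -, hdim', -⟩ |
        ⟨m', -, -, -, hr'⟩
      · rw [hdim] at hdim'
        exact absurd hdim'.symm (R3_binom_pow (by omega))
      · omega) _ N hN hN2 rfl hN0
    have h1 := R1_half hN2
    have hpos : 0 < finrank K (LinearMap.range N₀) := by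
      rw [Nat.pos_iff_ne_zero]
      intro h0
      exact hN₀0 (LinearMap.range_eq_bot.mp (Submodule.finrank_eq_zero.mp h0))
    have hc2 : c < 3 := by
      by_contra hcon
      push Not at hcon
      have h3 : 3 * finrank K (LinearMap.range N₀) ≤ c * finrank K (LinearMap.range N₀) :=
        Nat.mul_le_mul_right _ hcon
      omega
    have : c = 1 ∨ c = 2 := by omega
    rcases this with rfl | rfl
    · left; omega
    · right; omega

end Pool.Agent.H49M
end

-- from Lib.H76T.T0
section

/-!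
# Types I and II, one prime: definitions for the component theorem

`L` is an irreducible Lie algebra of operators of `K ^ κ`, skew for the alternating form with Gram
matrix `J`; `θ δ` are semilinear automorphisms of the algebra of all operators which preserve
`L` and commute with the adjoint; `y` is an involution in `L` such that only the scalars commute
with all the `θ δ y`.
-/

set_option autoImplicit false
set_option linter.unusedSectionVars false
namespace Pool.Agent.H76T
open Module Matrix Pool.Agent.H53Toric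

section
variable {K : Type*} [Field K] {V : Type*} [AddCommGroup V] [Module K V]

/-- An ideal of the Lie algebra `L` of operators. -/
def IsIdeal (L I : Submodule K (Module.End K V)) : Prop :=
  I ≤ L ∧ ∀ X ∈ L, ∀ Y ∈ I, X * Y - Y * X ∈ I

/-- The family of the minimal ideals of `L`. -/
structure Fam (L : Submodule K (Module.End K V)) {m : ℕ}
    (I : Fin m → Submodule K (Module.End K V)) : Prop where
  ideal : ∀ j, IsIdeal L (I j)
  ne_bot : ∀ j, I j ≠ ⊥
  min : ∀ j J, IsIdeal L J → J ≤ I j → J = ⊥ ∨ J = I j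
  comm : ∀ i j, i ≠ j → ∀ X ∈ I i, ∀ Y ∈ I j, X * Y = Y * X
  sup : (⨆ j, I j) = L
  inj : Function.Injective I

/-- The image of a space of operators under a semilinear ring automorphism. -/
def mv (σ : K ≃+* K) (θ : Module.End K V ≃+* Module.End K V)
    (hθ : ∀ (c : K) X, θ (c • X) = σ c • θ X) (I : Submodule K (Module.End K V)) :
    Submodule K (Module.End K V) where
  carrier := {X | θ.symm X ∈ I}
  add_mem' := by
    intro X Y hX hY
    change θ.symm (X + Y) ∈ I
    rw [map_add]
    exact I.add_mem hX hY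
  zero_mem' := by
    change θ.symm 0 ∈ I
    rw [map_zero]
    exact I.zero_mem
  smul_mem' := by
    intro c X hX
    change θ.symm (c • X) ∈ I
    have h1 : θ.symm (c • X) = σ.symm c • θ.symm X := by
      apply θ.injective
      rw [hθ, RingEquiv.apply_symm_apply, RingEquiv.apply_symm_apply, RingEquiv.apply_symm_apply]
    rw [h1]
    exact I.smul_mem _ hX

theorem mem_mv {σ : K ≃+* K} {θ : Module.End K V ≃+* Module.End K V}
    {hθ : ∀ (c : K) X, θ (c • X) = σ c • θ X} {I : Submodule K (Module.End K V)}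
    {X : Module.End K V} : X ∈ mv σ θ hθ I ↔ θ.symm X ∈ I := Iff.rfl

theorem mem_mv' {σ : K ≃+* K} {θ : Module.End K V ≃+* Module.End K V}
    {hθ : ∀ (c : K) X, θ (c • X) = σ c • θ X} {I : Submodule K (Module.End K V)}
    {X : Module.End K V} : θ X ∈ mv σ θ hθ I ↔ X ∈ I := by
  rw [mem_mv, RingEquiv.symm_apply_apply]


end

/-- The standing assumptions of the component theorem. -/
structure Orb {κ : Type*} [Fintype κ] [DecidableEq κ] {K : Type*} [Field K]
    (L : Submodule K (Module.End K (κ → K))) (J : Matrix κ κ K) {Δ : Type*}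
    (σ : Δ → K ≃+* K) (θ : Δ → Module.End K (κ → K) ≃+* Module.End K (κ → K))
    (y : Module.End K (κ → K)) : Prop where
  lie : IsLie L
  irr : Irr L
  Jt : Jᵀ = -J
  Jd : IsUnit J.det
  skew : ∀ X ∈ L, adjE J X = -X
  semi : ∀ δ (c : K) X, θ δ (c • X) = σ δ c • θ δ X
  stab : ∀ δ X, X ∈ L ↔ θ δ X ∈ L
  adjθ : ∀ δ X, adjE J (θ δ X) = θ δ (adjE J X)
  y_mem : y ∈ L
  y_sq : y * y = 1
  gen : ∀ T : Module.End K (κ → K), (∀ δ, T * θ δ y = θ δ y * T) → ∃ c : K, T = c • 1

section
variable {κ : Type*} [Fintype κ] [DecidableEq κ] {K : Type*} [Field K] [CharZero K]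
variable {L : Submodule K (Module.End K (κ → K))} {J : Matrix κ κ K} {Δ : Type*}
    {σ : Δ → K ≃+* K} {θ : Δ → Module.End K (κ → K) ≃+* Module.End K (κ → K)}
    {y : Module.End K (κ → K)}

theorem tr_skew (hJd : IsUnit J.det) {X : Module.End K (κ → K)} (hX : adjE J X = -X) :
    LinearMap.trace K (κ → K) X = 0 := by
  have h1 := adjE_tr hJd X
  rw [hX, map_neg] at h1
  have h2 : (2 : K) * LinearMap.trace K (κ → K) X = 0 := by linear_combination -h1
  exact (mul_eq_zero.1 h2).resolve_left (by norm_num)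

theorem scalar_skew (hJ : Jᵀ = -J) (hJd : IsUnit J.det) {c : K}
    (h : adjE J (c • (1 : Module.End K (κ → K))) = -(c • 1)) :
    (c • (1 : Module.End K (κ → K))) = 0 := by
  have h1 : adjE J (1 : Module.End K (κ → K)) = 1 := by
    have h2 := adjE_mul hJd (adjE J 1) (1 : Module.End K (κ → K))
    rw [mul_one, adjE_adjE hJ hJd, mul_one] at h2
    exact h2.symm
  rw [map_smul, h1] at h
  have h2 : (2 : K) • (c • (1 : Module.End K (κ → K))) = 0 := by
    rw [two_smul]
    nth_rw 1 [h]
    rw [neg_add_cancel]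
  exact (smul_eq_zero.1 h2).resolve_left (by norm_num)

end

end Pool.Agent.H76T
end

-- from Lib.H76T.TA1
section

/-!
# The minimal ideals of an irreducible Lie algebra of operators of trace zero
-/

set_option autoImplicit false
set_option linter.unusedSectionVars false
namespace Pool.Agent.H76T
open Module Pool.Agent.H53Toric

variable {K : Type*} [Field K] [IsAlgClosed K] [CharZero K] {V : Type*} [AddCommGroup V]
  [Module K V] [FiniteDimensional K V] [Nontrivial V] {L : Submodule K (Module.End K V)}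

theorem semisimple (hg : IsLie L) (hirr : Irr L) (htr : ∀ X ∈ L, LinearMap.trace K V X = 0) :
    LieAlgebra.IsSemisimple K (lieSub L hg) := by
  have hR := lieSub_trivialRadical L hg hirr htr
  have hsymm : ∀ x y : lieSub L hg, LieModule.traceForm K (lieSub L hg) V x y =
      LieModule.traceForm K (lieSub L hg) V y x := LieModule.traceForm_comm K (lieSub L hg) V
  have hval : ∀ x y : lieSub L hg, LieModule.traceForm K (lieSub L hg) V x y =
      LinearMap.trace K V (x.1 * y.1) := fun x y => rfl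
  have hsep : ∀ x : lieSub L hg, (∀ y, LieModule.traceForm K (lieSub L hg) V x y = 0) → x = 0 := by
    intro x hx
    apply Subtype.ext
    exact trace_nondeg hg hirr htr x.2 fun Y hY => by
      rw [← hval x ⟨Y, hY⟩]
      exact hx _
  apply LieAlgebra.InvariantForm.isSemisimple_of_nondegenerate
    (LieModule.traceForm K (lieSub L hg) V)
  · refine ⟨hsep, fun x hx => hsep x fun y => ?_⟩
    rw [hsymm]
    exact hx y
  · exact LieModule.traceForm_lieInvariant K (lieSub L hg) V
  · intro x y hxy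
    rw [hsymm]
    exact hxy
  · intro I hI hab
    exact hI.1 ((LieAlgebra.hasTrivialRadical_iff_no_abelian_ideals K (lieSub L hg)).1 hR I hab)

theorem exists_fam (hg : IsLie L) (hirr : Irr L) (htr : ∀ X ∈ L, LinearMap.trace K V X = 0) :
    ∃ (m : ℕ) (I : Fin m → Submodule K (Module.End K V)), Fam L I := by
  classical
  have hss := semisimple hg hirr htr
  have hfin : {I : LieIdeal K (lieSub L hg) | IsAtom I}.Finite :=
    WellFoundedGT.finite_of_sSupIndep LieAlgebra.IsSemisimple.sSupIndep_isAtom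
  have := hfin.fintype
  let n := Fintype.card {I : LieIdeal K (lieSub L hg) | IsAtom I}
  let q : Fin n ≃ {I : LieIdeal K (lieSub L hg) | IsAtom I} := (Fintype.equivFin _).symm
  let ι' : lieSub L hg →ₗ[K] Module.End K V :=
    { toFun := fun x => x.1, map_add' := fun _ _ => rfl, map_smul' := fun _ _ => rfl }
  let tr : LieIdeal K (lieSub L hg) → Submodule K (Module.End K V) := fun I =>
    I.toSubmodule.map ι'
  have htr' : ∀ I x, (x ∈ tr I ↔ ∃ h : x ∈ L, (⟨x, h⟩ : lieSub L hg) ∈ I) := by
    intro I x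
    constructor
    · rintro ⟨z, hz, rfl⟩
      exact ⟨z.2, hz⟩
    · rintro ⟨h, hx⟩
      exact ⟨⟨x, h⟩, hx, rfl⟩
  have hideal : ∀ I, IsIdeal L (tr I) := by
    intro I
    refine ⟨?_, ?_⟩
    · rintro x hx
      exact ((htr' I x).1 hx).1
    · intro X hX Y hY
      obtain ⟨h, hY'⟩ := (htr' I Y).1 hY
      have h1 := I.lie_mem (x := (⟨X, hX⟩ : lieSub L hg)) hY'
      exact ⟨_, h1, rfl⟩
  have hmono : ∀ I J, tr I ≤ tr J → I ≤ J := by
    intro I J h x hx
    obtain ⟨_, h2⟩ := (htr' J x.1).1 (h ((htr' I x.1).2 ⟨x.2, hx⟩))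
    exact h2
  -- every ideal comes from a Lie ideal
  have hback : ∀ J : Submodule K (Module.End K V), IsIdeal L J → ∃ I, tr I = J := by
    intro J hJ
    refine ⟨{ toSubmodule := J.comap ι', lie_mem := ?_ }, ?_⟩
    · intro x z hz
      exact hJ.2 x.1 x.2 z.1 hz
    · ext x
      rw [htr']
      constructor
      · rintro ⟨_, h⟩
        exact h
      · intro h
        exact ⟨hJ.1 h, h⟩
  have hbot : ∀ I, tr I = ⊥ ↔ I = ⊥ := by
    intro I
    constructor
    · intro h
      rw [eq_bot_iff]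
      apply hmono
      rw [h]
      exact bot_le
    · rintro rfl
      rw [eq_bot_iff]
      rintro x hx
      obtain ⟨_, h⟩ := (htr' ⊥ x).1 hx
      rw [LieSubmodule.mem_bot] at h
      rw [Submodule.mem_bot]
      exact congrArg Subtype.val h
  refine ⟨n, fun j => tr (q j).1, ⟨fun j => hideal _, ?_, ?_, ?_, ?_, ?_⟩⟩
  · intro j h
    exact (q j).2.1 ((hbot _).1 h)
  · intro j J hJ hle
    obtain ⟨I, rfl⟩ := hback J hJ
    have h1 := hmono _ _ hle
    rcases eq_or_ne I (q j).1 with h2 | h2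
    · right
      rw [h2]
    · left
      rw [hbot]
      exact (q j).2.2 I (lt_of_le_of_ne h1 h2)
  · intro i j hij X hX Y hY
    obtain ⟨hX1, hX2⟩ := (htr' _ X).1 hX
    obtain ⟨hY1, hY2⟩ := (htr' _ Y).1 hY
    have hne : (q i).1 ≠ (q j).1 := fun h => hij (q.injective (Subtype.ext h))
    have hdis : Disjoint (q i).1 (q j).1 := (q i).2.disjoint_of_ne (q j).2 hne
    have h1 : (⁅(⟨X, hX1⟩ : lieSub L hg), (⟨Y, hY1⟩ : lieSub L hg)⁆) ∈ ((q i).1 ⊓ (q j).1 :
        LieIdeal K (lieSub L hg)) := by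
      refine ⟨?_, (q j).1.lie_mem hY2⟩
      have h2 := (q i).1.lie_mem (x := (⟨Y, hY1⟩ : lieSub L hg)) hX2
      rw [← lie_skew]
      exact (q i).1.neg_mem h2
    rw [hdis.eq_bot, LieSubmodule.mem_bot] at h1
    have h2 := congrArg Subtype.val h1
    have h3 : X * Y - Y * X = 0 := h2
    exact sub_eq_zero.1 h3
  · apply le_antisymm
    · exact iSup_le fun j => (hideal _).1
    · have h1 : (⊤ : LieIdeal K (lieSub L hg)) ≤ ⨆ j, (q j).1 := by
        rw [← LieAlgebra.IsSemisimple.sSup_atoms_eq_top (R := K) (L := lieSub L hg)]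
        apply sSup_le
        intro I hI
        have h2 := le_iSup (fun j => (q j).1) (q.symm ⟨I, hI⟩)
        rwa [Equiv.apply_symm_apply] at h2
      obtain ⟨I, hI⟩ := hback (⨆ j, tr (q j).1) (by
        refine ⟨iSup_le fun j => (hideal _).1, ?_⟩
        intro X hX Y hY
        induction hY using Submodule.iSup_induction' with
        | mem j Y hY => exact Submodule.mem_iSup_of_mem j ((hideal _).2 X hX Y hY)
        | zero => simp
        | add a b _ _ ha hb =>
          have e : X * (a + b) - (a + b) * X = (X * a - a * X) + (X * b - b * X) := by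
            rw [mul_add, add_mul]; abel
          rw [e]
          exact Submodule.add_mem _ ha hb)
      have h2 : (⨆ j, (q j).1) ≤ I := by
        apply iSup_le
        intro j
        apply hmono
        rw [hI]
        exact le_iSup (fun j => tr (q j).1) j
      intro X hX
      have h3 : (⟨X, hX⟩ : lieSub L hg) ∈ I := h2 (h1 (LieSubmodule.mem_top _))
      rw [← hI]
      exact (htr' I X).2 ⟨hX, h3⟩
  · intro i j hij
    apply q.injective
    apply Subtype.ext
    exact le_antisymm (hmono _ _ (le_of_eq hij)) (hmono _ _ (ge_of_eq hij))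

end Pool.Agent.H76T
end

-- from Lib.H76T.TA2
section

/-!
# Quadratic elements belong to one minimal ideal
-/

set_option autoImplicit false
set_option linter.unusedSectionVars false
namespace Pool.Agent.H76T
open Module Matrix Pool.Agent.H53Toric

section
variable {K : Type*} [Field K] [IsAlgClosed K] {V : Type*} [AddCommGroup V]
  [Module K V] [FiniteDimensional K V] [Nontrivial V]

theorem adjoin_top {s : Set (Module.End K V)}
    (hirr : ∀ W : Submodule K V, (∀ X ∈ s, ∀ w ∈ W, X w ∈ W) → W = ⊥ ∨ W = ⊤) :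
    Algebra.adjoin K s = ⊤ := by
  set A := Algebra.adjoin K s with hA
  have hsm : ∀ (a : A) (v : V), a • v = a.1 v := fun _ _ => rfl
  have hsimple : IsSimpleModule A V := by
    rw [isSimpleModule_iff]
    refine { eq_bot_or_eq_top := fun W => ?_ }
    rcases hirr (W.restrictScalars K) (fun X hX w hw => by
      have h1 := W.smul_mem (⟨X, Algebra.subset_adjoin hX⟩ : A) hw
      exact h1) with h | h
    · left
      rw [eq_bot_iff]
      intro v hv
      have h1 : v ∈ W.restrictScalars K := hv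
      rw [h] at h1
      exact (Submodule.mem_bot K).1 h1
    · right
      rw [eq_top_iff]
      intro v _
      have h1 : v ∈ (⊤ : Submodule K V) := trivial
      rw [← h] at h1
      exact h1
  rw [eq_top_iff]
  intro f _
  obtain ⟨r, hr⟩ := H49M.B8a_burnside (K := K) (A := A) (M := V) f
  have : r.1 = f := by
    rw [← hr]
    ext v
    rfl
  rw [← this]
  exact r.2

end

section
variable {κ : Type*} [Fintype κ] [DecidableEq κ] {K : Type*} [Field K]

theorem adjoin_comap {s : Set (Module.End K (κ → K))} (h : Algebra.adjoin K s = ⊤) :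
    Algebra.adjoin K ((phi (ι := κ) (K := K)) ⁻¹' s) = ⊤ := by
  rw [eq_top_iff]
  intro X _
  have h1 : (phi (ι := κ) (K := K)) X ∈ Algebra.adjoin K s := by rw [h]; trivial
  have h2 : s = (phi (ι := κ) (K := K)) '' ((phi (ι := κ) (K := K)) ⁻¹' s) := by
    rw [Set.image_preimage_eq _ (phi (ι := κ) (K := K)).surjective]
  rw [h2] at h1
  have h3 := AlgHom.map_adjoin (phi (ι := κ) (K := K)).toAlgHom
    ((phi (ι := κ) (K := K)) ⁻¹' s)
  have h4 : (phi (ι := κ) (K := K)) X ∈ (Algebra.adjoin K ((phi (ι := κ) (K := K)) ⁻¹' s)).map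
      (phi (ι := κ) (K := K)).toAlgHom := by
    rw [h3]
    exact h1
  obtain ⟨Y, hY, hYX⟩ := h4
  have h5 : Y = X := (phi (ι := κ) (K := K)).injective hYX
  rw [← h5]
  exact hY

theorem disj [CharZero K] {I₁ I₂ : Submodule K (Module.End K (κ → K))}
    (hcomm : ∀ X ∈ I₁, ∀ Y ∈ I₂, X * Y = Y * X)
    (hfull : Algebra.adjoin K ((I₁ : Set (Module.End K (κ → K))) ∪ I₂) = ⊤)
    {Y₁ Y₂ : Module.End K (κ → K)} (h1 : Y₁ ∈ I₁) (h2 : Y₂ ∈ I₂) {a b : K}
    (hq : (Y₁ + Y₂) * (Y₁ + Y₂) + a • (Y₁ + Y₂) + b • (1 : Module.End K (κ → K)) = 0) :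
    (∃ c : K, Y₁ = c • 1) ∨ (∃ c : K, Y₂ = c • 1) := by
  obtain ⟨y₁, rfl⟩ := (phi (ι := κ) (K := K)).surjective Y₁
  obtain ⟨y₂, rfl⟩ := (phi (ι := κ) (K := K)).surjective Y₂
  have hone : phi (1 : Matrix κ κ K) = 1 := map_one _
  have hinj := (phi (ι := κ) (K := K)).injective
  have h3 := H49M.B5_disj (I₁ := I₁.comap (phi (ι := κ) (K := K)).toLinearMap)
    (I₂ := I₂.comap (phi (ι := κ) (K := K)).toLinearMap) (Y₁ := y₁) (Y₂ := y₂) (a := a) (b := b)
    (by
      intro X hX Y hY
      apply hinj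
      rw [map_mul, map_mul]
      exact hcomm _ hX _ hY)
    (by
      have h4 := adjoin_comap hfull
      exact h4)
    h1 h2
    (by
      apply hinj
      rw [map_zero, ← hq, ← hone, ← map_add, ← map_mul, ← map_smul, ← map_smul, ← map_add,
        ← map_add])
  rcases h3 with ⟨c, hc⟩ | ⟨c, hc⟩
  · left
    exact ⟨c, by rw [hc, map_smul, hone]⟩
  · right
    exact ⟨c, by rw [hc, map_smul, hone]⟩

variable [IsAlgClosed K] [CharZero K] [Nonempty κ]
variable {L : Submodule K (Module.End K (κ → K))} {m : ℕ}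
    {I : Fin m → Submodule K (Module.End K (κ → K))}

theorem Fam.top (hF : Fam L I) (hirr : Irr L) :
    Algebra.adjoin K (⋃ j, (I j : Set (Module.End K (κ → K)))) = ⊤ := by
  apply adjoin_top
  intro W hW
  apply hirr
  intro X hX
  rw [← hF.sup] at hX
  induction hX using Submodule.iSup_induction' with
  | mem j X hX => exact hW X (Set.mem_iUnion.2 ⟨j, hX⟩)
  | zero => intro w _; exact W.zero_mem
  | add a b _ _ ha hb => intro w hw; exact W.add_mem (ha w hw) (hb w hw)

/-- A quadratic element of trace zero belongs to one of the minimal ideals. -/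
theorem Fam.one (hF : Fam L I) (hirr : Irr L) (htr : ∀ X ∈ L, LinearMap.trace K (κ → K) X = 0)
    {Y : Module.End K (κ → K)} (hY : Y ∈ L) (hY0 : Y ≠ 0) {a b : K}
    (hq : Y * Y + a • Y + b • (1 : Module.End K (κ → K)) = 0) : ∃ j, Y ∈ I j := by
  classical
  have hsc : ∀ X ∈ L, (∃ c : K, X = c • 1) → X = 0 := by
    rintro X hX ⟨c, rfl⟩
    have h1 := htr _ hX
    rw [map_smul, LinearMap.trace_one, smul_eq_mul, mul_eq_zero] at h1
    rcases h1 with h1 | h1
    · rw [h1, zero_smul]
    · exfalso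
      have h2 : finrank K (κ → K) ≠ 0 := by
        rw [Module.finrank_fintype_fun_eq_card]
        exact Fintype.card_ne_zero
      exact h2 (by exact_mod_cast h1)
  have h1 : Y ∈ ⨆ j, I j := by rw [hF.sup]; exact hY
  obtain ⟨f, hf⟩ := (Submodule.mem_iSup_iff_exists_finsupp I Y).1 h1
  obtain ⟨hfI, hfY⟩ := hf
  have hYs : Y = ∑ j, f j := by
    rw [← hfY, Finsupp.sum_fintype]
    intro _; rfl
  by_contra hcon
  push Not at hcon
  obtain ⟨j, hj⟩ : ∃ j, f j ≠ 0 := by
    by_contra h2
    push Not at h2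
    apply hY0
    rw [hYs]
    exact Finset.sum_eq_zero fun j _ => h2 j
  -- the rest
  set R : Module.End K (κ → K) := ∑ i ∈ Finset.univ.erase j, f i with hR
  have hYR : Y = f j + R := by
    rw [hYs, hR, Finset.add_sum_erase _ _ (Finset.mem_univ j)]
  have hRm : R ∈ ⨆ i : {i // i ≠ j}, I i.1 := by
    apply Submodule.sum_mem
    intro i hi
    exact Submodule.mem_iSup_of_mem (⟨i, Finset.ne_of_mem_erase hi⟩ : {i // i ≠ j}) (hfI i)
  have hcomm : ∀ X ∈ I j, ∀ Z ∈ ⨆ i : {i // i ≠ j}, I i.1, X * Z = Z * X := by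
    intro X hX Z hZ
    induction hZ using Submodule.iSup_induction' with
    | mem i Z hZ => exact hF.comm j i.1 (Ne.symm i.2) X hX Z hZ
    | zero => rw [mul_zero, zero_mul]
    | add a b _ _ ha hb => rw [mul_add, add_mul, ha, hb]
  have hfull : Algebra.adjoin K ((I j : Set (Module.End K (κ → K))) ∪
      ((⨆ i : {i // i ≠ j}, I i.1 : Submodule K _) : Set (Module.End K (κ → K)))) = ⊤ := by
    rw [eq_top_iff, ← hF.top hirr]
    apply Algebra.adjoin_mono
    rintro X hX
    obtain ⟨i, hi⟩ := Set.mem_iUnion.1 hX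
    by_cases hij : i = j
    · left
      rw [← hij]; exact hi
    · right
      exact Submodule.mem_iSup_of_mem (⟨i, hij⟩ : {i // i ≠ j}) hi
  have hRL : R ∈ L := by
    have : R = Y - f j := by rw [hYR]; abel
    rw [this]
    exact L.sub_mem hY ((hF.ideal j).1 (hfI j))
  rcases disj hcomm hfull (hfI j) hRm (a := a) (b := b) (by rw [← hYR]; exact hq) with h2 | h2
  · exact hj (hsc _ ((hF.ideal j).1 (hfI j)) h2)
  · have h3 := hsc _ hRL h2
    apply hcon j
    rw [hYR, h3, add_zero]
    exact hfI j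

/-- A minimal ideal is a member of the family. -/
theorem Fam.of_min (hF : Fam L I) (hirr : Irr L)
    (htr : ∀ X ∈ L, LinearMap.trace K (κ → K) X = 0) {M : Submodule K (Module.End K (κ → K))}
    (hM : IsIdeal L M) (h0 : M ≠ ⊥) (hmin : ∀ N, IsIdeal L N → N ≤ M → N = ⊥ ∨ N = M) :
    ∃ j, M = I j := by
  by_contra hcon
  push Not at hcon
  apply h0
  rw [eq_bot_iff]
  intro X hX
  have hinf : ∀ j, M ⊓ I j = ⊥ := by
    intro j
    have hid : IsIdeal L (M ⊓ I j) :=
      ⟨inf_le_left.trans hM.1, fun Z hZ Y hY => ⟨hM.2 Z hZ Y hY.1, (hF.ideal j).2 Z hZ Y hY.2⟩⟩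
    rcases hmin _ hid inf_le_left with h1 | h1
    · exact h1
    · rcases hF.min j _ hid inf_le_right with h2 | h2
      · exact h2
      · exact absurd (h1.symm.trans h2) (hcon j)
  have hcX : ∀ j, ∀ Y ∈ I j, X * Y = Y * X := by
    intro j Y hY
    have h1 : X * Y - Y * X ∈ M ⊓ I j := by
      refine ⟨?_, (hF.ideal j).2 X (hM.1 hX) Y hY⟩
      have h2 := hM.2 Y ((hF.ideal j).1 hY) X hX
      have h3 : X * Y - Y * X = -(Y * X - X * Y) := by abel
      rw [h3]
      exact M.neg_mem h2
    rw [hinf, Submodule.mem_bot] at h1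
    exact sub_eq_zero.1 h1
  have hc : ∀ Z ∈ Algebra.adjoin K (⋃ j, (I j : Set (Module.End K (κ → K)))), X * Z = Z * X := by
    intro Z hZ
    induction hZ using Algebra.adjoin_induction with
    | mem Z hZ =>
      obtain ⟨j, hj⟩ := Set.mem_iUnion.1 hZ
      exact hcX j Z hj
    | algebraMap r => exact (Algebra.commutes r X).symm
    | add a b _ _ ha hb => rw [mul_add, add_mul, ha, hb]
    | mul a b _ _ ha hb => rw [← mul_assoc, ha, mul_assoc, hb, mul_assoc]
  rw [hF.top hirr] at hc
  obtain ⟨x, rfl⟩ := (phi (ι := κ) (K := K)).surjective X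
  obtain ⟨c, hc'⟩ := H49M.B5a_scalar (I₁ := (⊤ : Submodule K (Matrix κ κ K))) (I₂ := ⊤) (Y := x)
    (by
      rw [eq_top_iff]
      intro z _
      exact Algebra.subset_adjoin (Or.inl trivial))
    (fun z _ => by
      apply (phi (ι := κ) (K := K)).injective
      rw [map_mul, map_mul]
      exact (hc _ trivial).symm)
    (fun z _ => by
      apply (phi (ι := κ) (K := K)).injective
      rw [map_mul, map_mul]
      exact (hc _ trivial).symm)
  have h1 := htr _ (hM.1 hX)
  rw [hc', map_smul, map_one, map_smul, LinearMap.trace_one, smul_eq_mul, mul_eq_zero] at h1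
  rw [Submodule.mem_bot, hc', map_smul, map_one]
  rcases h1 with h1 | h1
  · rw [h1, zero_smul]
  · exfalso
    have h2 : finrank K (κ → K) ≠ 0 := by
      rw [Module.finrank_fintype_fun_eq_card]
      exact Fintype.card_ne_zero
    exact h2 (by exact_mod_cast h1)

end

end Pool.Agent.H76T
end

-- from Lib.H76T.TA3
section

/-!
# The minimal ideals are permuted transitively
-/

set_option autoImplicit false
set_option linter.unusedSectionVars false
namespace Pool.Agent.H76T
open Module Matrix Pool.Agent.H53Toric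

section
variable {K : Type*} [Field K] {V : Type*} [AddCommGroup V] [Module K V]

/-- The preimage of a space of operators under a semilinear ring automorphism. -/
def cv (σ : K ≃+* K) (θ : Module.End K V ≃+* Module.End K V)
    (hθ : ∀ (c : K) X, θ (c • X) = σ c • θ X) (I : Submodule K (Module.End K V)) :
    Submodule K (Module.End K V) where
  carrier := {X | θ X ∈ I}
  add_mem' := by
    intro X Y hX hY
    change θ (X + Y) ∈ I
    rw [map_add]
    exact I.add_mem hX hY
  zero_mem' := by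
    change θ 0 ∈ I
    rw [map_zero]
    exact I.zero_mem
  smul_mem' := by
    intro c X hX
    change θ (c • X) ∈ I
    rw [hθ]
    exact I.smul_mem _ hX

theorem mem_cv {σ : K ≃+* K} {θ : Module.End K V ≃+* Module.End K V}
    {hθ : ∀ (c : K) X, θ (c • X) = σ c • θ X} {I : Submodule K (Module.End K V)}
    {X : Module.End K V} : X ∈ cv σ θ hθ I ↔ θ X ∈ I := Iff.rfl

/-- Semilinear bijections preserve dimensions. -/
theorem rank_mv {σ : K ≃+* K} {θ : Module.End K V ≃+* Module.End K V}
    (hθ : ∀ (c : K) X, θ (c • X) = σ c • θ X) (P P' : Submodule K (Module.End K V))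
    (h1 : ∀ X ∈ P, θ X ∈ P') (h2 : ∀ X ∈ P', θ.symm X ∈ P) : finrank K P = finrank K P' := by
  let j : P ≃+ P' :=
    { toFun := fun X => ⟨θ X.1, h1 X.1 X.2⟩
      invFun := fun X => ⟨θ.symm X.1, h2 X.1 X.2⟩
      left_inv := fun X => Subtype.ext (θ.symm_apply_apply X.1)
      right_inv := fun X => Subtype.ext (θ.apply_symm_apply X.1)
      map_add' := fun X Y => Subtype.ext (map_add θ X.1 Y.1) }
  have h3 := _root_.rank_eq_of_equiv_equiv (fun x : K => σ x) j σ.bijective (by
    intro r m
    apply Subtype.ext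
    exact hθ r m.1)
  exact congrArg Cardinal.toNat h3

end

section
variable {κ : Type*} [Fintype κ] [DecidableEq κ] {K : Type*} [Field K] [CharZero K]
variable {L : Submodule K (Module.End K (κ → K))} {J : Matrix κ κ K} {Δ : Type*}
    {σ : Δ → K ≃+* K} {θ : Δ → Module.End K (κ → K) ≃+* Module.End K (κ → K)}
    {y : Module.End K (κ → K)}

theorem Orb.tr (h : Orb L J σ θ y) : ∀ X ∈ L, LinearMap.trace K (κ → K) X = 0 :=
  fun X hX => tr_skew h.Jd (h.skew X hX)

theorem Orb.symm_mem (h : Orb L J σ θ y) (δ : Δ) {X : Module.End K (κ → K)} (hX : X ∈ L) :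
    (θ δ).symm X ∈ L := by
  rw [h.stab δ, RingEquiv.apply_symm_apply]
  exact hX

theorem Orb.mv_ideal (h : Orb L J σ θ y) (δ : Δ) {M : Submodule K (Module.End K (κ → K))}
    (hM : IsIdeal L M) : IsIdeal L (mv (σ δ) (θ δ) (h.semi δ) M) := by
  refine ⟨fun X hX => ?_, fun X hX Y hY => ?_⟩
  · have h1 := (h.stab δ _).1 (hM.1 (mem_mv.1 hX))
    rwa [RingEquiv.apply_symm_apply] at h1
  · rw [mem_mv, map_sub, map_mul, map_mul]
    exact hM.2 _ (h.symm_mem δ hX) _ (mem_mv.1 hY)

theorem Orb.cv_ideal (h : Orb L J σ θ y) (δ : Δ) {M : Submodule K (Module.End K (κ → K))}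
    (hM : IsIdeal L M) : IsIdeal L (cv (σ δ) (θ δ) (h.semi δ) M) := by
  refine ⟨fun X hX => (h.stab δ X).2 (hM.1 hX), fun X hX Y hY => ?_⟩
  rw [mem_cv, map_sub, map_mul, map_mul]
  exact hM.2 _ ((h.stab δ X).1 hX) _ hY

variable [IsAlgClosed K] [Nonempty κ] {m : ℕ} {I : Fin m → Submodule K (Module.End K (κ → K))}

theorem Orb.perm (h : Orb L J σ θ y) (hF : Fam L I) (δ : Δ) (j : Fin m) :
    ∃ k, mv (σ δ) (θ δ) (h.semi δ) (I j) = I k := by
  apply hF.of_min h.irr h.tr (h.mv_ideal δ (hF.ideal j))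
  · intro h0
    apply hF.ne_bot j
    rw [eq_bot_iff]
    intro X hX
    have h1 : θ δ X ∈ mv (σ δ) (θ δ) (h.semi δ) (I j) := mem_mv'.2 hX
    rw [h0, Submodule.mem_bot] at h1
    rw [Submodule.mem_bot]
    apply (θ δ).injective
    rw [h1, map_zero]
  · intro N hN hle
    have h1 : cv (σ δ) (θ δ) (h.semi δ) N ≤ I j := fun X hX => by
      have h2 := hle (mem_cv.1 hX)
      rwa [mem_mv'] at h2
    rcases hF.min j _ (h.cv_ideal δ hN) h1 with h2 | h2
    · left
      rw [eq_bot_iff]
      intro X hX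
      have h3 : (θ δ).symm X ∈ cv (σ δ) (θ δ) (h.semi δ) N := by
        rw [mem_cv, RingEquiv.apply_symm_apply]
        exact hX
      rw [h2, Submodule.mem_bot] at h3
      rw [Submodule.mem_bot]
      apply (θ δ).symm.injective
      rw [h3, map_zero]
    · right
      apply le_antisymm hle
      intro X hX
      rw [mem_mv, ← h2, mem_cv, RingEquiv.apply_symm_apply] at hX
      exact hX

theorem Orb.trans (h : Orb L J σ θ y) (hF : Fam L I) :
    ∃ j₀, y ∈ I j₀ ∧ ∀ k, ∃ δ, mv (σ δ) (θ δ) (h.semi δ) (I j₀) = I k := by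
  have hy0 : y ≠ 0 := by
    rintro rfl
    have h1 := h.y_sq
    rw [mul_zero] at h1
    exact zero_ne_one h1
  have hq : y * y + (0 : K) • y + (-1 : K) • (1 : Module.End K (κ → K)) = 0 := by
    rw [h.y_sq]
    module
  obtain ⟨j₀, hj₀⟩ := hF.one h.irr h.tr h.y_mem hy0 hq
  refine ⟨j₀, hj₀, fun k => ?_⟩
  by_contra hcon
  push Not at hcon
  apply hF.ne_bot k
  rw [eq_bot_iff]
  intro X hX
  obtain ⟨c, hc⟩ := h.gen X (fun δ => by
    obtain ⟨k', hk'⟩ := h.perm hF δ j₀
    have hne : k ≠ k' := by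
      rintro rfl
      exact hcon δ hk'
    apply hF.comm k k' hne X hX
    rw [← hk', mem_mv']
    exact hj₀)
  rw [Submodule.mem_bot, hc]
  apply scalar_skew h.Jt h.Jd
  rw [← hc]
  exact h.skew X ((hF.ideal k).1 hX)

end

end Pool.Agent.H76T
end

-- from Lib.H76T.TA4
section

/-!
# The dimension is an odd power
-/

set_option autoImplicit false
set_option linter.unusedSectionVars false
namespace Pool.Agent.H76T
open Module Matrix Pool.Agent.H53Toric

section
variable {K : Type*} [Field K] {V : Type*} [AddCommGroup V] [Module K V]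

theorem adjoin_comm {s t : Set (Module.End K V)} (h : ∀ X ∈ s, ∀ Y ∈ t, X * Y = Y * X)
    {X Y : Module.End K V} (hX : X ∈ Algebra.adjoin K s) (hY : Y ∈ Algebra.adjoin K t) :
    X * Y = Y * X := by
  have h1 : ∀ X ∈ s, ∀ Y ∈ Algebra.adjoin K t, X * Y = Y * X := by
    intro X hX Y hY
    induction hY using Algebra.adjoin_induction with
    | mem Y hY => exact h X hX Y hY
    | algebraMap r => exact (Algebra.commutes r X).symm
    | add a b _ _ ha hb => rw [mul_add, add_mul, ha, hb]
    | mul a b _ _ ha hb => rw [← mul_assoc, ha, mul_assoc, hb, mul_assoc]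
  induction hX using Algebra.adjoin_induction with
  | mem X hX => exact h1 X hX Y hY
  | algebraMap r => exact Algebra.commutes r Y
  | add a b _ _ ha hb => rw [mul_add, add_mul, ha, hb]
  | mul a b _ _ ha hb => rw [mul_assoc, hb, ← mul_assoc, ha, mul_assoc]

theorem adjoin_semi {σ : K ≃+* K} {θ : Module.End K V ≃+* Module.End K V}
    (hθ : ∀ (c : K) X, θ (c • X) = σ c • θ X) {s t : Set (Module.End K V)}
    (h : ∀ X ∈ s, θ X ∈ t) {X : Module.End K V} (hX : X ∈ Algebra.adjoin K s) :
    θ X ∈ Algebra.adjoin K t := by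
  induction hX using Algebra.adjoin_induction with
  | mem X hX => exact Algebra.subset_adjoin (h X hX)
  | algebraMap r =>
    rw [Algebra.algebraMap_eq_smul_one, hθ, map_one]
    exact Subalgebra.smul_mem _ (Subalgebra.one_mem _) _
  | add a b _ _ ha hb => rw [map_add]; exact Subalgebra.add_mem _ ha hb
  | mul a b _ _ ha hb => rw [map_mul]; exact Subalgebra.mul_mem _ ha hb

theorem adjoin_anti {α : Module.End K V →ₗ[K] Module.End K V}
    (hα : ∀ X Y, α (X * Y) = α Y * α X) (hα1 : α 1 = 1) {s : Set (Module.End K V)}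
    (h : ∀ X ∈ s, α X = -X) {X : Module.End K V} (hX : X ∈ Algebra.adjoin K s) :
    α X ∈ Algebra.adjoin K s := by
  induction hX using Algebra.adjoin_induction with
  | mem X hX =>
    rw [h X hX]
    exact Subalgebra.neg_mem _ (Algebra.subset_adjoin hX)
  | algebraMap r =>
    rw [Algebra.algebraMap_eq_smul_one, map_smul, hα1]
    exact Subalgebra.smul_mem _ (Subalgebra.one_mem _) _
  | add a b _ _ ha hb => rw [map_add]; exact Subalgebra.add_mem _ ha hb
  | mul a b _ _ ha hb => rw [hα]; exact Subalgebra.mul_mem _ hb ha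

end

section
variable {κ : Type*} [Fintype κ] [DecidableEq κ] {K : Type*} [Field K] [CharZero K]

theorem adjE_one {J : Matrix κ κ K} (hJ : Jᵀ = -J) (hJd : IsUnit J.det) :
    adjE J (1 : Module.End K (κ → K)) = 1 := by
  have h2 := adjE_mul hJd (adjE J 1) (1 : Module.End K (κ → K))
  rw [mul_one, adjE_adjE hJ hJd, mul_one] at h2
  exact h2.symm

theorem trace_adjE {J : Matrix κ κ K} (hJ : Jᵀ = -J) (hJd : IsUnit J.det) :
    LinearMap.trace K _ (adjE J) = -(Fintype.card κ : K) := by
  rw [← H49M.B9_mat hJ hJd.ne_zero (adjL J) (adjL_apply J)]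
  apply H49M.B9a_conj (adjE J) (phi (ι := κ) (K := K)).toLinearEquiv (adjL J)
  ext X v
  rfl

variable {L : Submodule K (Module.End K (κ → K))} {J : Matrix κ κ K} {Δ : Type*}
    {σ : Δ → K ≃+* K} {θ : Δ → Module.End K (κ → K) ≃+* Module.End K (κ → K)}
    {y : Module.End K (κ → K)}
variable [IsAlgClosed K] [Nonempty κ] {m : ℕ} {I : Fin m → Submodule K (Module.End K (κ → K))}

theorem Fam.sup_top (hF : Fam L I) (hirr : Irr L) :
    (⨆ j, Algebra.adjoin K (I j : Set (Module.End K (κ → K)))) = ⊤ := by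
  rw [eq_top_iff, ← hF.top hirr]
  apply Algebra.adjoin_le
  intro X hX
  obtain ⟨j, hj⟩ := Set.mem_iUnion.1 hX
  exact (le_iSup (fun j => Algebra.adjoin K (I j : Set (Module.End K (κ → K)))) j)
    (Algebra.subset_adjoin hj)

theorem Fam.acomm (hF : Fam L I) : ∀ i j, i ≠ j →
    ∀ X ∈ Algebra.adjoin K (I i : Set (Module.End K (κ → K))),
    ∀ Y ∈ Algebra.adjoin K (I j : Set (Module.End K (κ → K))), X * Y = Y * X :=
  fun i j hij _ hX _ hY => adjoin_comm (hF.comm i j hij) hX hY

/-- The dimension of the space is an odd power. -/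
theorem Orb.power (h : Orb L J σ θ y) (hF : Fam L I) :
    ∃ a : ℕ, Odd m ∧ finrank K (κ → K) = a ^ m ∧
      ∀ j, finrank K (Algebra.adjoin K (I j : Set (Module.End K (κ → K)))) = a * a := by
  classical
  obtain ⟨j₀, hj₀, htrans⟩ := h.trans hF
  let A : Fin m → Subalgebra K (Module.End K (κ → K)) := fun j =>
    Algebra.adjoin K (I j : Set (Module.End K (κ → K)))
  have hAc : ∀ i j, i ≠ j → ∀ X ∈ A i, ∀ Y ∈ A j, X * Y = Y * X := hF.acomm
  have hAt : (⨆ j, A j) = ⊤ := hF.sup_top h.irr
  obtain ⟨a, ha1, ha2⟩ := H49M.B8_many m (κ → K) A hAc hAt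
  have hmul := adjE_mul (J := J) h.Jd
  have hone := adjE_one h.Jt h.Jd
  have hsk : ∀ j, ∀ X ∈ (I j : Set (Module.End K (κ → K))), adjE J X = -X := fun j X hX =>
    h.skew X ((hF.ideal j).1 hX)
  have hst : ∀ j, ∀ X ∈ Subalgebra.toSubmodule (A j), adjE J X ∈ Subalgebra.toSubmodule (A j) :=
    fun j X hX => adjoin_anti hmul hone (hsk j) hX
  -- transport
  have hmove : ∀ k, ∃ δ, (∀ X ∈ A j₀, θ δ X ∈ A k) ∧ ∀ X ∈ A k, (θ δ).symm X ∈ A j₀ := by
    intro k
    obtain ⟨δ, hδ⟩ := htrans k
    refine ⟨δ, fun X hX => adjoin_semi (h.semi δ) (fun X hX => ?_) hX, fun X hX => ?_⟩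
    · rw [← hδ]
      exact mem_mv'.2 hX
    · have hsemi : ∀ (c : K) X, (θ δ).symm (c • X) = (σ δ).symm c • (θ δ).symm X := by
        intro c X
        apply (θ δ).injective
        rw [h.semi, RingEquiv.apply_symm_apply, RingEquiv.apply_symm_apply,
          RingEquiv.apply_symm_apply]
      refine adjoin_semi (σ := (σ δ).symm) (θ := (θ δ).symm) hsemi (fun X hX => ?_) hX
      rw [← hδ] at hX
      exact mem_mv.1 hX
  have hfin : ∀ k, finrank K (A j₀) = finrank K (A k) := by
    intro k
    obtain ⟨δ, h1, h2⟩ := hmove k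
    exact rank_mv (h.semi δ) (Subalgebra.toSubmodule (A j₀)) (Subalgebra.toSubmodule (A k)) h1 h2
  have hak : ∀ k, a k = a j₀ := by
    intro k
    have h1 := hfin k
    rw [ha1, ha1] at h1
    exact (Nat.mul_self_inj.1 h1).symm
  have hpow : finrank K (κ → K) = a j₀ ^ m := by
    rw [ha2, Finset.prod_congr rfl fun k _ => hak k, Finset.prod_const, Finset.card_univ,
      Fintype.card_fin]
  refine ⟨a j₀, ?_, hpow, fun j => by rw [← hak j]; exact ha1 j⟩
  -- parity
  let P : Fin m → Submodule K (Module.End K (κ → K)) := fun j =>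
    Subalgebra.toSubmodule (A j) ⊓ LinearMap.ker (adjE J - LinearMap.id)
  have hP : ∀ j x, x ∈ P j ↔ x ∈ Subalgebra.toSubmodule (A j) ∧ adjE J x = x := by
    intro j x
    rw [Submodule.mem_inf, LinearMap.mem_ker, LinearMap.sub_apply, LinearMap.id_apply,
      sub_eq_zero]
  have hPfin : ∀ k, finrank K (P j₀) = finrank K (P k) := by
    intro k
    obtain ⟨δ, h1, h2⟩ := hmove k
    apply rank_mv (h.semi δ)
    · intro X hX
      rw [hP] at hX ⊢
      exact ⟨h1 X hX.1, by rw [h.adjθ, hX.2]⟩
    · intro X hX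
      rw [hP] at hX ⊢
      refine ⟨h2 X hX.1, ?_⟩
      apply (θ δ).injective
      rw [← h.adjθ, RingEquiv.apply_symm_apply, hX.2]
  have htrj := fun j => H49M.B9d_trace (Subalgebra.toSubmodule (A j)) (P j) (adjE J) (hst j)
    (adjE_adjE h.Jt h.Jd) (hP j)
  have hall := H49M.B9_many m (κ → K) A hAc hAt (adjE J) hmul hone hst
  rw [trace_adjE h.Jt h.Jd] at hall
  have hfin' : ∀ k, finrank K (Subalgebra.toSubmodule (A k)) =
      finrank K (Subalgebra.toSubmodule (A j₀)) := fun k => (hfin k).symm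
  rw [Finset.prod_congr rfl fun k _ => by
    rw [htrj k, ← hPfin k, hfin' k], Finset.prod_const, Finset.card_univ,
    Fintype.card_fin] at hall
  set t : ℤ := 2 * (finrank K (P j₀) : ℤ) - (finrank K (Subalgebra.toSubmodule (A j₀)) : ℤ)
  have hz : (-(Fintype.card κ : ℤ)) = t ^ m := by exact_mod_cast hall
  rw [← Nat.not_even_iff_odd]
  intro hev
  have h1 : 0 ≤ t ^ m := hev.pow_nonneg t
  have h2 : (0 : ℤ) < Fintype.card κ := by exact_mod_cast Fintype.card_pos
  omega

end

end Pool.Agent.H76T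
end

-- from Lib.H76T.TA5
section

/-!
# Ranks of elements of a factor
-/

set_option autoImplicit false
set_option linter.unusedSectionVars false
namespace Pool.Agent.H76T
open Module Matrix Pool.Agent.H53Toric

section
variable {K : Type*} [Field K] {M : Type*} [AddCommGroup M] [Module K M] [FiniteDimensional K M]

theorem trace_unique (f : Module.End K M →ₗ[K] K) (hf : ∀ X Y, f (X * Y) = f (Y * X)) :
    ∃ c : K, ∀ Y, f Y = c * LinearMap.trace K M Y := by
  classical
  by_cases hM : ∀ u : M, u = 0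
  · refine ⟨0, fun Y => ?_⟩
    have : Y = 0 := by
      ext v
      rw [hM v, map_zero, map_zero]
    rw [this, map_zero, map_zero, mul_zero]
  · push Not at hM
    obtain ⟨u, hu⟩ := hM
    obtain ⟨χ, hχ⟩ : ∃ χ : Module.Dual K M, χ u ≠ 0 := by
      by_contra hcon
      push Not at hcon
      exact hu ((Module.forall_dual_apply_eq_zero_iff K u).1 hcon)
    have key : ∀ (φ : Module.Dual K M) (v : M), f (φ.smulRight v) =
        φ v * ((χ u)⁻¹ * f (χ.smulRight u)) := by
      intro φ v
      have e1 : (χ.smulRight v : Module.End K M) * (φ.smulRight u) = χ u • φ.smulRight v := by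
        ext w
        change χ (φ w • u) • v = χ u • φ w • v
        rw [map_smul, smul_eq_mul, smul_smul, mul_comm]
      have e2 : (φ.smulRight u : Module.End K M) * (χ.smulRight v) = φ v • χ.smulRight u := by
        ext w
        change φ (χ w • v) • u = φ v • χ w • u
        rw [map_smul, smul_eq_mul, smul_smul, mul_comm]
      have h1 := hf (χ.smulRight v) (φ.smulRight u)
      rw [e1, e2, map_smul, map_smul, smul_eq_mul, smul_eq_mul] at h1
      field_simp
      linear_combination h1
    refine ⟨(χ u)⁻¹ * f (χ.smulRight u), fun Y => ?_⟩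
    set bs := Module.finBasis K M with hbs
    have hY : Y = ∑ i, (bs.coord i).smulRight (Y (bs i)) := by
      apply bs.ext
      intro j
      rw [LinearMap.sum_apply, Finset.sum_eq_single j]
      · rw [LinearMap.smulRight_apply, Basis.coord_apply, Basis.repr_self,
          Finsupp.single_eq_same, one_smul]
      · intro i _ hij
        rw [LinearMap.smulRight_apply, Basis.coord_apply, Basis.repr_self,
          Finsupp.single_eq_of_ne hij, zero_smul]
      · intro hj
        exact absurd (Finset.mem_univ j) hj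
    rw [hY, map_sum, map_sum, Finset.mul_sum]
    apply Finset.sum_congr rfl
    intro i _
    rw [key, LinearMap.trace_smulRight]
    ring

end

section
variable {K : Type*} [Field K] [CharZero K] [IsAlgClosed K] {V : Type*} [AddCommGroup V]
  [Module K V] [FiniteDimensional K V] [Nontrivial V]

theorem two_rank {A₁ A₂ : Subalgebra K (Module.End K V)}
    (hcomm : ∀ X ∈ A₁, ∀ Y ∈ A₂, X * Y = Y * X) (hfull : A₁ ⊔ A₂ = ⊤) :
    ∃ a d : ℕ, finrank K A₂ = d * d ∧ finrank K V = a * d ∧
      ∀ N ∈ A₂, ∀ X ∈ A₂, N * X * N = N → a ∣ finrank K (LinearMap.range N) := by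
  obtain ⟨a, M, ⟨θ⟩, ha, hV⟩ := H49M.B8_two hcomm hfull
  refine ⟨a, finrank K M, ?_, hV, ?_⟩
  · have := θ.toLinearEquiv.finrank_eq
    rw [Module.finrank_linearMap] at this
    exact this
  intro N hN X hX hNX
  have hV0 : 0 < finrank K V := finrank_pos
  have hM0 : (finrank K M : K) ≠ 0 := by
    intro h0
    have h1 : finrank K M = 0 := by exact_mod_cast h0
    rw [h1, mul_zero] at hV
    omega
  let f : Module.End K M →ₗ[K] K :=
    { toFun := fun Y => LinearMap.trace K V (θ.symm Y).1
      map_add' := by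
        intro Y Z
        rw [map_add, Subalgebra.coe_add, map_add]
      map_smul' := by
        intro c Y
        rw [map_smul, Subalgebra.coe_smul, map_smul, RingHom.id_apply] }
  have hf : ∀ Y, f Y = LinearMap.trace K V (θ.symm Y).1 := fun _ => rfl
  obtain ⟨c, hc⟩ := trace_unique f (by
    intro Y Z
    rw [hf, hf, map_mul, map_mul, Subalgebra.coe_mul, Subalgebra.coe_mul,
      LinearMap.trace_mul_comm])
  have hca : c = a := by
    have h1 := hc 1
    rw [hf, map_one, Subalgebra.coe_one, LinearMap.trace_one, LinearMap.trace_one, hV] at h1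
    push_cast at h1
    exact (mul_right_cancel₀ hM0 h1).symm
  -- the idempotent
  let n : A₂ := ⟨N, hN⟩
  let x : A₂ := ⟨X, hX⟩
  have hp : (N * X) * (N * X) = N * X := by rw [← mul_assoc, hNX]
  have hpA : (n * x) * (n * x) = n * x := Subtype.ext hp
  have hrange : LinearMap.range N = LinearMap.range (N * X) := by
    apply le_antisymm
    · rintro _ ⟨v, rfl⟩
      refine ⟨N v, ?_⟩
      have := congrArg (fun T : Module.End K V => T v) hNX
      exact this
    · rintro _ ⟨v, rfl⟩
      exact ⟨X v, rfl⟩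
  have h1 := trace_idem hp
  have h2 := trace_idem (V := M) (f := θ (n * x)) (by rw [← map_mul, hpA])
  have h3 := hc (θ (n * x))
  rw [hf, AlgEquiv.symm_apply_apply, h2, hca] at h3
  have h4 : (((n * x : A₂)) : Module.End K V) = N * X := rfl
  rw [h4, h1] at h3
  rw [hrange]
  exact ⟨_, by exact_mod_cast h3⟩

end

section
variable {κ : Type*} [Fintype κ] [DecidableEq κ] {K : Type*} [Field K] [CharZero K]
variable {L : Submodule K (Module.End K (κ → K))} {J : Matrix κ κ K} {Δ : Type*}
    {σ : Δ → K ≃+* K} {θ : Δ → Module.End K (κ → K) ≃+* Module.End K (κ → K)}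
    {y : Module.End K (κ → K)}
variable [IsAlgClosed K] [Nonempty κ] {m : ℕ} {I : Fin m → Submodule K (Module.End K (κ → K))}

theorem Orb.dvd (h : Orb L J σ θ y) (hF : Fam L I) {a : ℕ}
    (hpow : finrank K (κ → K) = a ^ m)
    (ha : ∀ j, finrank K (Algebra.adjoin K (I j : Set (Module.End K (κ → K)))) = a * a)
    {j : Fin m} {N : Module.End K (κ → K)} (hN : N ∈ I j) (hN2 : N * N = 0) :
    a ^ (m - 1) ∣ finrank K (LinearMap.range N) := by
  classical
  have hNL := (hF.ideal j).1 hN
  obtain ⟨X, hX, hNX⟩ := exists_partner h.lie h.irr h.tr hNL hN2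
  -- decompose the partner
  have h1 : X ∈ ⨆ j, I j := by rw [hF.sup]; exact hX
  obtain ⟨f, hfI, hfX⟩ := (Submodule.mem_iSup_iff_exists_finsupp I X).1 h1
  have hXs : X = f j + ∑ i ∈ Finset.univ.erase j, f i := by
    rw [Finset.add_sum_erase _ _ (Finset.mem_univ j), ← hfX, Finsupp.sum_fintype]
    intro _; rfl
  have hNf : N * f j * N = N := by
    have h2 : N * (∑ i ∈ Finset.univ.erase j, f i) * N = 0 := by
      rw [Finset.mul_sum, Finset.sum_mul]
      apply Finset.sum_eq_zero
      intro i hi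
      rw [hF.comm j i (Finset.ne_of_mem_erase hi).symm N hN (f i) (hfI i), mul_assoc, hN2,
        mul_zero]
    have h3 := hNX
    rw [hXs, mul_add, add_mul, h2, add_zero] at h3
    exact h3
  set A : Fin m → Subalgebra K (Module.End K (κ → K)) := fun j =>
    Algebra.adjoin K (I j : Set (Module.End K (κ → K))) with hA
  have hcomm : ∀ X ∈ (⨆ i : {i // i ≠ j}, A i.1), ∀ Y ∈ A j, X * Y = Y * X := by
    have h2 : (⨆ i : {i // i ≠ j}, A i.1) ≤ Subalgebra.centralizer K
        (A j : Set (Module.End K (κ → K))) := by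
      refine iSup_le fun i Y hY => ?_
      rw [Subalgebra.mem_centralizer_iff]
      exact fun X hX => hF.acomm j i.1 i.2.symm X hX Y hY
    intro X hX Y hY
    have h3 := h2 hX
    rw [Subalgebra.mem_centralizer_iff] at h3
    exact (h3 Y hY).symm
  have hfull : (⨆ i : {i // i ≠ j}, A i.1) ⊔ A j = ⊤ := by
    rw [eq_top_iff, ← hF.sup_top h.irr]
    refine iSup_le fun i => ?_
    by_cases hij : i = j
    · rw [hij]
      exact le_sup_right
    · exact le_sup_of_le_left (le_iSup (fun i : {i // i ≠ j} => A i.1) ⟨i, hij⟩)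
  obtain ⟨a', d, hd, hV, hdvd⟩ := two_rank hcomm hfull
  have hda : d = a := by
    have h2 := ha j
    change finrank K (A j) = a * a at h2
    rw [hd] at h2
    exact Nat.mul_self_inj.1 h2
  have hV0 : 0 < finrank K (κ → K) := finrank_pos
  have ha0 : 0 < a := by
    rcases Nat.eq_zero_or_pos a with h2 | h2
    · rw [hda, h2, mul_zero] at hV
      omega
    · exact h2
  have haa : a' = a ^ (m - 1) := by
    rw [hpow, hda] at hV
    have hm : m = m - 1 + 1 := by
      have := j.2
      omega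
    have h2 : a ^ m = a ^ (m - 1) * a := by
      nth_rw 1 [hm]
      rw [pow_succ]
    rw [h2] at hV
    exact (Nat.eq_of_mul_eq_mul_right ha0 hV).symm
  rw [← haa]
  exact hdvd N (Algebra.subset_adjoin hN) (f j) (Algebra.subset_adjoin (hfI j)) hNf

end

end Pool.Agent.H76T
end

-- from Lib.H76T.TA6
section

/-!
# The component theorem
-/

set_option autoImplicit false
set_option linter.unusedSectionVars false
namespace Pool.Agent.H76T
open Module Matrix Pool.Agent.H53Toric

variable {κ : Type*} [Fintype κ] [DecidableEq κ] {K : Type*} [Field K] [CharZero K]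
variable {L : Submodule K (Module.End K (κ → K))} {J : Matrix κ κ K} {Δ : Type*}
    {σ : Δ → K ≃+* K} {θ : Δ → Module.End K (κ → K) ≃+* Module.End K (κ → K)}
    {y : Module.End K (κ → K)}
variable [IsAlgClosed K] [Nonempty κ]

/-- A simple Lie algebra in the setting of the component theorem. -/
theorem Orb.core (h : Orb L J σ θ y)
    (hs : ∀ M, IsIdeal L M → M = ⊥ ∨ M = L) : H49M.Core L (om J) (adjE J) where
  lie := h.lie
  irr := h.irr
  simple := fun M hM hM' => hs M ⟨hM, hM'⟩
  alt := om_alt h.Jt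
  nd := by
    intro v hv
    apply om_nd h.Jd
    intro w
    rw [omega_antisymm (om_alt h.Jt), hv, neg_zero]
  spec := H49M.C0_spec h.Jd
  skew := h.skew


/-- **The component theorem.** -/
theorem Orb.full (h : Orb L J σ θ y)
    (num0 : ∀ a k : ℕ, 3 ≤ k → Odd k → Fintype.card κ = a ^ k →
      ∀ I : Fin k → Submodule K (Module.End K (κ → K)), Fam L I → ∃ N ∈ L, N * N = 0 ∧
      ¬ a ^ (k - 1) ∣ finrank K (LinearMap.range N))
    (num1 : ∀ m : ℕ, 5 ≤ m → (m % 4 = 1 ∨ m % 4 = 2) → Fintype.card κ = 2 ^ m →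
      ∃ N ∈ L, N * N = 0 ∧ N ≠ 0 ∧ 4 * finrank K (LinearMap.range N) ≠ Fintype.card κ ∧
        2 * finrank K (LinearMap.range N) ≠ Fintype.card κ)
    (num2 : ∀ k : ℕ, 3 ≤ k → Odd k → Fintype.card κ = k.centralBinom →
      ∃ N ∈ L, N * N = 0 ∧ N ≠ 0 ∧ finrank K (LinearMap.range N) ≠ (k - 1).centralBinom)
    {X : Module.End K (κ → K)} (hX : adjE J X = -X) : X ∈ L := by
  classical
  have hcard : finrank K (κ → K) = Fintype.card κ := Module.finrank_fintype_fun_eq_card K
  obtain ⟨m, I, hF⟩ := exists_fam h.lie h.irr h.tr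
  obtain ⟨a, hm, hpow, ha⟩ := h.power hF
  -- one minimal ideal
  have hm1 : m = 1 := by
    by_contra hne
    have h3 : 3 ≤ m := by
      obtain ⟨t, ht⟩ := hm
      omega
    obtain ⟨N, hN, hN2, hNr⟩ := num0 a m h3 hm (by rw [← hcard]; exact hpow) I hF
    by_cases hN0 : N = 0
    · apply hNr
      rw [hN0, LinearMap.range_zero, finrank_bot]
      exact dvd_zero _
    obtain ⟨j, hj⟩ := hF.one h.irr h.tr hN hN0 (a := 0) (b := 0) (by
      rw [hN2, zero_smul, zero_smul, add_zero, add_zero])
    exact hNr (h.dvd hF hpow ha hj hN2)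
  subst hm1
  have hL : I 0 = L := by
    rw [← hF.sup]
    apply le_antisymm
    · exact le_iSup I 0
    · apply iSup_le
      intro j
      rw [Subsingleton.elim j 0]
  have hcore := h.core (fun M hM => by
    have h1 := hF.min 0 M hM (by rw [hL]; exact hM.1)
    rwa [hL] at h1)
  rcases H49M.coreR hcore h.y_mem h.y_sq with h1 | ⟨m, hm5, hm4, hd, hN⟩ | ⟨k, hk3, hko, hd, hN⟩
  · exact h1 X hX
  · exfalso
    obtain ⟨N, hNL, hN2, hN0, hr1, hr2⟩ := num1 m hm5 hm4 (by rw [← hcard]; exact hd)
    rcases hN N hNL hN2 hN0 with h2 | h2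
    · exact hr1 (by rw [← hcard]; exact h2)
    · exact hr2 (by rw [← hcard]; exact h2)
  · exfalso
    obtain ⟨N, hNL, hN2, hN0, hr⟩ := num2 k hk3 hko (by rw [← hcard]; exact hd)
    exact hr (hN N hNL hN2 hN0)

end Pool.Agent.H76T
end

-- from Lib.H76T.TB1
section

/-!
# Automorphisms of the field acting on closures and Lie algebras
-/

set_option autoImplicit false
set_option linter.unusedSectionVars false
namespace Pool.Agent.H76T
open Module Matrix Pool.Agent.H53Toric MvPolynomial

variable {ι : Type*} [Fintype ι] [DecidableEq ι] {K : Type*} [Field K]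

theorem ev_map (τ : K ≃+* K) (x : Matrix ι ι K) (f : MvPolynomial (ι × ι) K) :
    ev (x.map τ) (MvPolynomial.map (τ : K →+* K) f) = τ (ev x f) := by
  induction f using MvPolynomial.induction_on with
  | C a => rw [MvPolynomial.map_C, ev_C, ev_C]; rfl
  | add p q hp hq => rw [map_add, map_add, map_add, map_add, hp, hq]
  | mul_X p n hp => rw [map_mul, map_mul, map_mul, map_mul, hp, MvPolynomial.map_X, ev_X, ev_X]; rfl

theorem der_C (A : Matrix ι ι K) (a : K) : der A (C a) = 0 := by
  have := (der A).map_algebraMap a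
  exact this

theorem der_map (τ : K ≃+* K) (A : Matrix ι ι K) (f : MvPolynomial (ι × ι) K) :
    der (A.map τ) (MvPolynomial.map (τ : K →+* K) f) = MvPolynomial.map (τ : K →+* K) (der A f) := by
  induction f using MvPolynomial.induction_on with
  | C a => rw [MvPolynomial.map_C, der_C, der_C, map_zero]
  | add p q hp hq => rw [map_add, map_add, map_add, map_add, hp, hq]
  | mul_X p n hp =>
    rw [map_mul, MvPolynomial.map_X, Derivation.leibniz, Derivation.leibniz, hp, map_add,
      smul_eq_mul, smul_eq_mul, smul_eq_mul, smul_eq_mul, map_mul, map_mul, MvPolynomial.map_X,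
      der_X, der_X, map_sum]
    congr 2
    apply Finset.sum_congr rfl
    intro k _
    rw [map_mul, MvPolynomial.map_X, MvPolynomial.map_C]
    rfl

/-- The Lie algebra of the closure of a set of matrices fixed by `τ` is stable under `τ`. -/
theorem zlie_map {S : Set (Matrix ι ι K)} (τ : K ≃+* K) (hS : ∀ s ∈ S, s.map τ = s)
    {A : Matrix ι ι K} (hA : A ∈ zlie S) : A.map τ ∈ zlie S := by
  intro f hf s hs
  set f' := MvPolynomial.map ((τ.symm : K ≃+* K) : K →+* K) f with hf'
  have hff : f = MvPolynomial.map (τ : K →+* K) f' := by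
    rw [hf', MvPolynomial.map_map]
    have : (τ : K →+* K).comp ((τ.symm : K ≃+* K) : K →+* K) = RingHom.id K := by
      ext x
      simp
    rw [this, MvPolynomial.map_id]
  have h1 : ∀ s ∈ S, ev s f' = 0 := by
    intro s hs
    apply τ.injective
    rw [← ev_map, ← hff, hS s hs, hf s hs, map_zero]
  have h2 := hA f' h1 s hs
  rw [hff, der_map]
  have h3 := ev_map τ s (der A f')
  rw [hS s hs] at h3
  rw [h3, h2, map_zero]


end Pool.Agent.H76T
end

-- from Lib.H76T.TB2
section

/-!
# The twists of one component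
-/

set_option autoImplicit false
set_option linter.unusedSectionVars false
namespace Pool.Agent.H76T
open Module Matrix Pool.Agent.H53Toric Pool.Agent.H76U

section
variable {κ : Type*} [Fintype κ] [DecidableEq κ] {K : Type*} [Field K]

theorem map_mulm (τ : K ≃+* K) (X Y : Matrix κ κ K) : (X * Y).map τ = X.map τ * Y.map τ := by
  have : (X * Y).map (τ : K →+* K) = X.map (τ : K →+* K) * Y.map (τ : K →+* K) := Matrix.map_mul
  exact this

theorem map_addm (τ : K ≃+* K) (X Y : Matrix κ κ K) : (X + Y).map τ = X.map τ + Y.map τ :=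
  Matrix.map_add _ (map_add τ) X Y

theorem map_smulm (τ : K ≃+* K) (c : K) (X : Matrix κ κ K) :
    (c • X).map τ = τ c • X.map τ := by
  ext i j
  simp [Matrix.map_apply]

theorem map_onem (τ : K ≃+* K) : (1 : Matrix κ κ K).map τ = 1 :=
  Matrix.map_one _ (map_zero τ) (map_one τ)

theorem map_symmm (τ : K ≃+* K) (X : Matrix κ κ K) : (X.map τ).map τ.symm = X := by
  ext i j
  simp

theorem map_symmm' (τ : K ≃+* K) (X : Matrix κ κ K) : (X.map τ.symm).map τ = X := by
  ext i j
  simp

/-- The twist: `X ↦ R τ(X) R⁻¹`. -/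
noncomputable def tht (τ : K ≃+* K) {R R' : Matrix κ κ K} (h : R * R' = 1) :
    Module.End K (κ → K) ≃+* Module.End K (κ → K) where
  toFun X := phi (R * ((phi (ι := κ) (K := K)).symm X).map τ * R')
  invFun X := phi ((R' * (phi (ι := κ) (K := K)).symm X * R).map τ.symm)
  left_inv := by
    intro X
    have h' : R' * R = 1 := mul_eq_one_comm.1 h
    beta_reduce
    rw [AlgEquiv.symm_apply_apply]
    have e : R' * (R * ((phi (ι := κ) (K := K)).symm X).map τ * R') * R =
        ((phi (ι := κ) (K := K)).symm X).map τ := by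
      calc R' * (R * ((phi (ι := κ) (K := K)).symm X).map τ * R') * R =
          (R' * R) * ((phi (ι := κ) (K := K)).symm X).map τ * (R' * R) := by noncomm_ring
        _ = _ := by rw [h', one_mul, mul_one]
    rw [e, map_symmm, AlgEquiv.apply_symm_apply]
  right_inv := by
    intro X
    beta_reduce
    rw [AlgEquiv.symm_apply_apply, map_symmm']
    have e : R * (R' * (phi (ι := κ) (K := K)).symm X * R) * R' =
        (phi (ι := κ) (K := K)).symm X := by
      calc R * (R' * (phi (ι := κ) (K := K)).symm X * R) * R' =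
          (R * R') * (phi (ι := κ) (K := K)).symm X * (R * R') := by noncomm_ring
        _ = _ := by rw [h, one_mul, mul_one]
    rw [e, AlgEquiv.apply_symm_apply]
  map_mul' := by
    intro X Y
    have h' : R' * R = 1 := mul_eq_one_comm.1 h
    rw [← map_mul, map_mul (phi (ι := κ) (K := K)).symm, map_mulm]
    congr 1
    calc R * (((phi (ι := κ) (K := K)).symm X).map τ * ((phi (ι := κ) (K := K)).symm Y).map τ) *
        R' = R * ((phi (ι := κ) (K := K)).symm X).map τ * 1 *
          ((phi (ι := κ) (K := K)).symm Y).map τ * R' := by noncomm_ring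
      _ = _ := by rw [← h']; noncomm_ring
  map_add' := by
    intro X Y
    rw [← map_add, map_add (phi (ι := κ) (K := K)).symm, map_addm, mul_add, add_mul]

theorem tht_apply (τ : K ≃+* K) {R R' : Matrix κ κ K} (h : R * R' = 1) (x : Matrix κ κ K) :
    tht τ h (phi x) = phi (R * x.map τ * R') := by
  change phi (R * ((phi (ι := κ) (K := K)).symm (phi x)).map τ * R') = _
  rw [AlgEquiv.symm_apply_apply]

theorem tht_smul (τ : K ≃+* K) {R R' : Matrix κ κ K} (h : R * R' = 1) (c : K)
    (X : Module.End K (κ → K)) : tht τ h (c • X) = τ c • tht τ h X := by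
  obtain ⟨x, rfl⟩ := (phi (ι := κ) (K := K)).surjective X
  rw [← map_smul, tht_apply, tht_apply, map_smulm, ← map_smul, mul_smul_comm, smul_mul_assoc]


end

end Pool.Agent.H76T
end

-- from Lib.H76T.TB3
section

/-!
# The component theorem for a component of the Lie algebra of a closure
-/

set_option autoImplicit false
set_option linter.unusedSectionVars false
namespace Pool.Agent.H76T
open Module Matrix Pool.Agent.H53Toric Pool.Agent.H76U Pool.Agent.H76F
open Pool.Agent.H76RM (zar_commute zlie_commute van)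

variable {ι : Type*} [Fintype ι] [DecidableEq ι] {K : Type*} [Field K]

/-- The closure of `S`, a group acting by conjugation, and automorphisms of the field which fix
everything except the idempotent `h₀`, whose twists generate. -/
structure SG (S : Set (Matrix ι ι K)) (J : Matrix ι ι K) (DD : Submodule K (Matrix ι ι K))
    {Γ : Type*} [Group Γ] (r : Γ →* Matrix ι ι K) (T : Set (K ≃+* K)) (h₀ : Matrix ι ι K) :
    Prop where
  one : (1 : Matrix ι ι K) ∈ S
  SD : ∀ s ∈ S, ∀ d ∈ DD, s * d = d * s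
  semis : ∀ W : Submodule K (ι → K), (∀ s ∈ S, ∀ w ∈ W, s *ᵥ w ∈ W) →
      ∃ W' : Submodule K (ι → K), (∀ s ∈ S, ∀ w ∈ W', s *ᵥ w ∈ W') ∧ IsCompl W W'
  commt : ∀ y : Matrix ι ι K, (∀ s ∈ S, y * s = s * y) → y ∈ DD
  cnj : ∀ γ, ∀ f ∈ van S, ∀ s ∈ S, ev (r γ * s * r γ⁻¹) f = 0
  sim : ∀ γ, ∃ c : K, c ≠ 0 ∧ (r γ)ᵀ * J * r γ = c • J
  rD : ∀ γ, ∀ d ∈ DD, r γ * d = d * r γ
  Tsymm : ∀ τ ∈ T, τ.symm ∈ T
  TS : ∀ τ ∈ T, ∀ s ∈ S, s.map τ = s
  TJ : ∀ τ ∈ T, J.map τ = J
  Tr : ∀ τ ∈ T, ∀ γ, (r γ).map τ = r γ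
  h0z : h₀ ∈ zlie S
  h0i : h₀ * h₀ = h₀
  h0s : h₀ᵀ * J + J * h₀ = J
  gen : S ⊆ zar (Submonoid.closure {m | ∃ γ, ∃ τ ∈ T, ∃ t : K, t ≠ 0 ∧
    m = 1 + (t - 1) • (r γ * h₀.map τ * r γ⁻¹)} : Set (Matrix ι ι K))

namespace SG

variable [CharZero K] {S : Set (Matrix ι ι K)} {J : Matrix ι ι K}
    {DD : Submodule K (Matrix ι ι K)}
    {Γ : Type*} [Group Γ] {r : Γ →* Matrix ι ι K} {T : Set (K ≃+* K)} {h₀ : Matrix ι ι K}
    (g : SG S J DD r T h₀)
include g

theorem rr (γ : Γ) : r γ * r γ⁻¹ = 1 := by rw [← map_mul, mul_inv_cancel, map_one]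


theorem zlie_r (γ : Γ) {A : Matrix ι ι K} (hA : A ∈ zlie S) : r γ * A * r γ⁻¹ ∈ zlie S := by
  refine zlie_conj' (g.rr γ) (g.cnj γ) ?_ hA
  have := g.cnj γ⁻¹
  rw [inv_inv] at this
  exact this

/-- the Lie algebra with scalars is stable under the group -/
theorem preL_r (γ : Γ) {A : Matrix ι ι K} (hA : A ∈ preL J S) : r γ * A * r γ⁻¹ ∈ preL J S := by
  obtain ⟨⟨c, C, hC, rfl⟩, d, hd⟩ := hA
  obtain ⟨s, hs0, hs⟩ := g.sim γ
  refine ⟨⟨c, r γ * C * r γ⁻¹, g.zlie_r γ hC, ?_⟩, d, conj_sim (g.rr γ) hs hd⟩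
  rw [mul_add, add_mul, mul_smul_comm, mul_one, smul_mul_assoc, g.rr γ]


end SG


section
variable [CharZero K] {B : Type*} [Fintype B] [DecidableEq B]
    {J : Matrix ι ι K} {DD : Submodule K (Matrix ι ι K)}
    {bar : B → B} {e : B → Matrix ι ι K} (h : Split4 J DD bar e) {b : B} (hb : bar b = b)
    (hJ : Jᵀ = -J) (hdet : IsUnit J.det)
    {n : ℕ} {P : Matrix ι (Fin n) K} {Q : Matrix (Fin n) ι K}
    (hPQ : e b = P * Q) (hQP : Q * P = 1)
    {S : Set (Matrix ι ι K)}
    {Γ : Type*} [Group Γ] {r : Γ →* Matrix ι ι K} {T : Set (K ≃+* K)} {h₀ : Matrix ι ι K}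
    (g : SG S J DD r T h₀) (hTP : ∀ τ ∈ T, P.map τ = P) (hTQ : ∀ τ ∈ T, Q.map τ = Q)

/-- The Lie algebra of the component. -/
noncomputable def Lc (J : Matrix ι ι K) (S : Set (Matrix ι ι K)) (P : Matrix ι (Fin n) K)
    (Q : Matrix (Fin n) ι K) : Submodule K (Module.End K (Fin n → K)) where
  carrier := {X | X ∈ Lb J S P Q ∧ adjE (Pᵀ * J * P) X = -X}
  add_mem' := by
    rintro X Y ⟨h1, h2⟩ ⟨h3, h4⟩
    refine ⟨add_mem h1 h3, ?_⟩
    rw [map_add, h2, h4, neg_add]
  zero_mem' := ⟨zero_mem _, by rw [map_zero, neg_zero]⟩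
  smul_mem' := by
    rintro c X ⟨h1, h2⟩
    refine ⟨Submodule.smul_mem _ c h1, ?_⟩
    rw [map_smul, h2, smul_neg]

theorem mem_Lc {X : Module.End K (Fin n → K)} :
    X ∈ Lc J S P Q ↔ X ∈ Lb J S P Q ∧ adjE (Pᵀ * J * P) X = -X := Iff.rfl

include h hPQ hQP g in
theorem cmp_rr (γ : Γ) : cmp P Q (r γ) * cmp P Q (r γ⁻¹) = 1 := by
  rw [← cmp_mul hPQ hQP (g.rD γ⁻¹ _ (h.mem b)), g.rr γ, cmp_one hPQ hQP]








/-- the involution -/
noncomputable def yc (P : Matrix ι (Fin n) K) (Q : Matrix (Fin n) ι K) (h₀ : Matrix ι ι K) :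
    Module.End K (Fin n → K) := phi (cmp P Q ((2 : K) • h₀ - 1))


include h g in
theorem preL_ec {A : Matrix ι ι K} (hA : A ∈ preL J S) : A * e b = e b * A :=
  preL_commute g.one (fun s hs => g.SD s hs _ (h.mem b)) hA


end

end Pool.Agent.H76T
end

-- from Lib.H76T.TB4
section

/-!
# All transvections of a component
-/

set_option autoImplicit false
set_option linter.unusedSectionVars false
namespace Pool.Agent.H76T
open Module Matrix Pool.Agent.H53Toric Pool.Agent.H76U Pool.Agent.H76F
open Pool.Agent.H76RM (zar_commute zlie_commute van)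

variable {ι : Type*} [Fintype ι] [DecidableEq ι] {K : Type*} [Field K]

/-- A matrix of square zero in the Lie algebra, skew for the form. -/
def Nil (S : Set (Matrix ι ι K)) (J N : Matrix ι ι K) : Prop :=
  N ∈ zlie S ∧ Nᵀ * J + J * N = 0 ∧ N * N = 0


section
variable [CharZero K] [IsAlgClosed K] {B : Type*} [Fintype B] [DecidableEq B]
    {J : Matrix ι ι K} {DD : Submodule K (Matrix ι ι K)}
    {bar : B → B} {e : B → Matrix ι ι K} (h : Split4 J DD bar e) {b : B} (hb : bar b = b)
    (hJ : Jᵀ = -J) (hdet : IsUnit J.det)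
    {n : ℕ} {P : Matrix ι (Fin n) K} {Q : Matrix (Fin n) ι K}
    (hPQ : e b = P * Q) (hQP : Q * P = 1)
    {S : Set (Matrix ι ι K)}
    {Γ : Type*} [Group Γ] {r : Γ →* Matrix ι ι K} {T : Set (K ≃+* K)} {h₀ : Matrix ι ι K}
    (g : SG S J DD r T h₀) (hTP : ∀ τ ∈ T, P.map τ = P) (hTQ : ∀ τ ∈ T, Q.map τ = Q)

include h hb hdet hPQ hQP g in
/-- compression of a matrix of square zero -/
theorem nil_mem {N : Matrix ι ι K} (hN : Nil S J N) :
    phi (cmp P Q N) ∈ Lc J S P Q ∧ phi (cmp P Q N) * phi (cmp P Q N) = 0 ∧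
      finrank K (LinearMap.range (phi (cmp P Q N))) = (N * e b).rank ∧
      (N * e b ≠ 0 → phi (cmp P Q N) ≠ 0) := by
  have hpJ : (e b)ᵀ * J = J * e b := by
    have := h.adj b
    rwa [hb] at this
  have hdb := det_cmp hPQ hQP hpJ hdet
  obtain ⟨hNz, hNs, hN2⟩ := hN
  have hNL : N ∈ preL J S :=
    ⟨⟨0, N, hNz, by rw [zero_smul, add_zero]⟩, 0, by rw [hNs, zero_smul]⟩
  have hNe := preL_ec (b := b) h g hNL
  refine ⟨⟨mem_Lb.2 ⟨N, hNL, rfl⟩, ?_⟩, ?_, ?_, ?_⟩
  · rw [skew_iff hdb, cmp_sim hPQ hQP hpJ hNe, hNs, Matrix.mul_zero, Matrix.zero_mul]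
  · rw [← map_mul, ← cmp_mul hPQ hQP hNe, hN2, map_zero, map_zero]
  · change (cmp P Q N).rank = _
    exact rank_cmp hPQ hQP hNe
  · intro hne h0
    apply hne
    have h1 : cmp P Q N = 0 := by
      apply (phi (ι := Fin n) (K := K)).injective
      rw [h0, map_zero]
    have h2 : N * e b = (P * cmp P Q N) * Q := by
      rw [P_cmp hPQ hQP hNe, Matrix.mul_assoc, ← hPQ]
    rw [h2, h1, Matrix.mul_zero, Matrix.zero_mul]


end

end Pool.Agent.H76T
end

-- from Lib.H76T.TC1
section

/-!
# The monodromy group from seeds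
-/

set_option autoImplicit false
set_option linter.unusedSectionVars false
namespace Pool.Agent.H76T
open Module Matrix Pool.Agent.H53Toric Pool.Agent.H76RM

variable {ι : Type*} [Fintype ι] [DecidableEq ι]

/-- The monodromy group, over an algebraically closed field. -/
theorem monodromy_seed {ψ : Matrix ι ι ℚ}
    (hψ : ψᵀ = -ψ) (hψ0 : ψ.det ≠ 0) (D : Subalgebra ℚ (Matrix ι ι ℚ))
    {L : Type*} [Field L] [CharZero L] {K : Type*} [Field K]
    [Algebra L K] [IsAlgClosed K] [CharZero K] {G : Type*} [Group G]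
    (ρ : G →* Matrix.GeneralLinearGroup ι L)
    (lin : ∀ σ : G, ∀ d ∈ D, (ρ σ).1 * d.map (algebraMap ℚ L) =
      d.map (algebraMap ℚ L) * (ρ σ).1)
    (sim : ∀ σ : G, ∃ c : L, (ρ σ).1ᵀ * ψ.map (algebraMap ℚ L) * (ρ σ).1 =
      c • ψ.map (algebraMap ℚ L))
    (cyc : ∃ σ : G, ∃ c : L, (ρ σ).1ᵀ * ψ.map (algebraMap ℚ L) * (ρ σ).1 =
      c • ψ.map (algebraMap ℚ L) ∧ ∀ n : ℕ, n ≠ 0 → c ^ n ≠ 1)
    (semis : ∀ H : Subgroup G, H.FiniteIndex → ∀ W : Submodule K (ι → K),
      (∀ s ∈ img K ρ H, ∀ w ∈ W, s *ᵥ w ∈ W) →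
      ∃ W' : Submodule K (ι → K), (∀ s ∈ img K ρ H, ∀ w ∈ W', s *ᵥ w ∈ W') ∧ IsCompl W W')
    (commt : ∀ H : Subgroup G, H.FiniteIndex → ∀ y : Matrix ι ι K,
      (∀ s ∈ img K ρ H, y * s = s * y) → y ∈ spanK K D)
    {m : ℕ} {e : Fin m → Matrix ι ι K} (hspl : IsSplitting D ψ e)
    (seed : ∀ H₀ : Subgroup G, H₀.FiniteIndex → (van (img K ρ H₀)).IsPrime →
      Setup (om (ψ.map (algebraMap ℚ K))) (fun b => phi (e b))
        (lieE (ψ.map (algebraMap ℚ K)) (img K ρ H₀)) (opr (rep K ρ H₀)) →
      ∀ b, Seed (om (ψ.map (algebraMap ℚ K))) (fun b => phi (e b))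
        (lieE (ψ.map (algebraMap ℚ K)) (img K ρ H₀)) b)
    (H : Subgroup G) (hH : H.FiniteIndex) : monodromy K ρ H = similD K ψ D := by
  classical
  obtain ⟨hJ, hdet⟩ := gram_basic hψ hψ0 K
  have hspl' := split_of hspl
  set J : Matrix ι ι K := ψ.map (algebraMap ℚ K) with hJdef
  have hlinK : ∀ σ : G, ∀ d ∈ D, (ρ σ).1.map (algebraMap L K) * d.map (algebraMap ℚ K) =
      d.map (algebraMap ℚ K) * (ρ σ).1.map (algebraMap L K) := by
    intro σ d hd
    have h1 := congrArg (fun m : Matrix ι ι L => m.map (algebraMap L K)) (lin σ d hd)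
    have h2 : (d.map (algebraMap ℚ L)).map (algebraMap L K) = d.map (algebraMap ℚ K) := by
      ext i j
      simp
    simp only [Matrix.map_mul] at h1
    rw [h2] at h1
    exact h1
  have hsimG : ∀ x : G, ∃ c : K, ((ρ x).1.map (algebraMap L K))ᵀ * J *
      (ρ x).1.map (algebraMap L K) = c • J := by
    intro x
    obtain ⟨c, hc⟩ := sim x
    exact ⟨_, sim_map hc⟩
  rcases isEmpty_or_nonempty ι with hι | hι
  · have huniq : ∀ y z : Matrix ι ι K, y = z := by
      intro y z
      ext i
      exact (hι.false i).elim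
    ext x
    constructor
    · rintro ⟨hx, -⟩
      exact ⟨hx, fun d _ => huniq _ _, 0, huniq _ _⟩
    · rintro ⟨hx, -, -⟩
      refine ⟨hx, ?_⟩
      rw [huniq x 1]
      exact subset_zar _ (img_one ρ H)
  obtain ⟨k, l, hkl⟩ : ∃ k l, J k l ≠ 0 := by
    by_contra hcon
    push Not at hcon
    have : J = 0 := by
      ext i j
      exact hcon i j
    rw [this, Matrix.det_zero] at hdet
    exact not_isUnit_zero hdet
  have hne : J ≠ 0 := by
    intro h0
    apply hkl
    rw [h0]; rfl
  ext x
  constructor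
  · rintro ⟨hx, hxz⟩
    refine ⟨hx, ?_, zar_sim hkl ?_ hxz⟩
    · intro d hd
      refine zar_commute ?_ hxz
      rintro _ ⟨y, -, rfl⟩
      exact hlinK y d hd
    · rintro _ ⟨y, -, rfl⟩
      exact hsimG y
  · rintro ⟨hx, hxD, c', hc'⟩
    refine ⟨hx, ?_⟩
    obtain ⟨H₀, hle, hfin, hprime⟩ := exists_prime (K := K) ρ H hH
    have hsub : img K ρ H₀ ⊆ img K ρ H := by
      rintro _ ⟨σ, hσ, rfl⟩
      exact ⟨σ, hle hσ, rfl⟩
    apply zar_mono hsub
    have hrange := range_rep K ρ H₀
    set R := rep K ρ H₀ with hR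
    have hsetup : Setup (om J) (fun b => phi (e b)) (lieE J (Set.range R)) (opr R) := by
      apply mk_setup hspl' hJ hdet hne R
      · intro y
        exact hsimG y.1
      · intro y d hd
        exact comm_span (hlinK y.1) d hd
      · rw [hrange]; exact hprime
      · intro W hW
        obtain ⟨W', h1, h2⟩ := semis H₀ hfin W (by
          rw [← hrange]
          rintro _ ⟨y, rfl⟩ w hw
          exact hW y w hw)
        refine ⟨W', ?_, h2⟩
        intro y w hw
        apply h1 _ _ _ hw
        rw [← hrange]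
        exact Set.mem_range_self y
      · intro y hy
        apply commt H₀ hfin y
        rw [← hrange]
        rintro _ ⟨z, rfl⟩
        exact hy z
    rw [hrange] at hsetup
    -- seeds
    have hseed : ∀ b, Seed (om J) (fun b => phi (e b)) (lieE J (img K ρ H₀)) b :=
      seed H₀ hfin hprime hsetup
    -- the group
    obtain ⟨σ, c, hc, hroot⟩ := cyc
    obtain ⟨n, hn0, -, hn⟩ := Subgroup.exists_pow_mem_of_index_ne_zero
      (H := H₀) (Subgroup.FiniteIndex.index_ne_zero) σ
    have hcK := sim_map (K := K) hc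
    have hpow : ∀ n : ℕ, (((ρ σ).1.map (algebraMap L K)) ^ n)ᵀ * J *
        ((ρ σ).1.map (algebraMap L K)) ^ n = (algebraMap L K c) ^ n • J := by
      intro n
      induction n with
      | zero => simp
      | succ n ih =>
        rw [pow_succ, Matrix.transpose_mul]
        set x := (ρ σ).1.map (algebraMap L K)
        calc xᵀ * (x ^ n)ᵀ * J * (x ^ n * x) = xᵀ * ((x ^ n)ᵀ * J * x ^ n) * x := by
              noncomm_ring
          _ = (algebraMap L K c) ^ n • (xᵀ * J * x) := by rw [ih, mul_smul_comm, smul_mul_assoc]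
          _ = _ := by rw [hcK, smul_smul, pow_succ]
    refine sim_mem (s := (ρ (σ ^ n)).1.map (algebraMap L K))
      (s' := (ρ (σ ^ n)⁻¹).1.map (algebraMap L K)) (c₀ := (algebraMap L K c) ^ n)
      hspl' (img_one ρ H₀) (img_mul ρ H₀) ?_ ?_ hJ hdet hne
      ⟨_, hn, rfl⟩ ⟨_, H₀.inv_mem hn, rfl⟩ (img_inv ρ _) ?_ ?_ (isUnit_iff_ne_zero.2 hx)
      (comm_span hxD) hc'
    · rintro _ ⟨y, -, rfl⟩ d hd
      exact comm_span (hlinK y) d hd
    · intro b w hw
      obtain ⟨A, hA, h1, h2⟩ := hsetup.main hseed (b := b) (w := w) (by rw [phi_apply]; exact hw)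
      obtain ⟨X, rfl⟩ := (phi (ι := ι) (K := K)).surjective A
      exact ⟨X, (mem_lieE.1 hA).1, h1, h2⟩
    · rw [img_pow]
      exact hpow n
    · intro j hj h0
      rw [← pow_mul, ← map_pow] at h0
      apply hroot (n * j) (mul_ne_zero hn0.ne' hj)
      apply (algebraMap L K).injective
      rw [h0, map_one]

end Pool.Agent.H76T
end

-- from Lib.H76T.TC2
section

/-!
# The semilinear group attached to a representation and a Hodge cocharacter
-/

set_option autoImplicit false
set_option linter.unusedSectionVars false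
namespace Pool.Agent.H76T
open Module Matrix Pool.Agent.H53Toric Pool.Agent.H76RM
open Pool.Agent.H76U (Split4)

variable {ι : Type*} [Fintype ι] [DecidableEq ι]
variable {L : Type*} [Field L] {K : Type*} [Field K] [Algebra L K] {G : Type*} [Group G]

/-- The representation with values in the matrices over `K`. -/
noncomputable def rK (K : Type*) [Field K] [Algebra L K]
    (ρ : G →* Matrix.GeneralLinearGroup ι L) : G →* Matrix ι ι K :=
  ((algebraMap L K).mapMatrix (m := ι)).toMonoidHom.comp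
    ((Units.coeHom (Matrix ι ι L)).comp ρ)

theorem rK_apply (ρ : G →* Matrix.GeneralLinearGroup ι L) (s : G) :
    rK K ρ s = (ρ s).1.map (algebraMap L K) := rfl




/-- the closure of a set with prime ideal does not change for subgroups of finite index -/
theorem img_sub_inf (ρ : G →* Matrix.GeneralLinearGroup ι L) {H H' : Subgroup G} [Infinite K]
    (hprime : (van (img K ρ H)).IsPrime) [hfin : H.FiniteIndex] [hfin' : H'.FiniteIndex] :
    img K ρ H ⊆ zar (img K ρ (H ⊓ H')) := by
  have hf : (H ⊓ H').FiniteIndex := inferInstance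
  have h2 := Pool.Agent.H76F.van_min (K := K) ρ hprime (inf_le_left : H ⊓ H' ≤ H) hf
  intro s hs f hfv
  have h3 : f ∈ van (img K ρ (H ⊓ H')) := hfv
  rw [h2] at h3
  exact h3 s hs


end Pool.Agent.H76T
end
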