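import Pool.Agent.Lib.H1M.RC.D_H53Toric_Weil
import Pool.Agent.Lib.H1M.RC.M031
import Pool.Agent.Lib.H1M.RC.M032
import Pool.Agent.Lib.H1M.RC.M037

/-! Merged copies (to shorten the build) of Lib.H76T.TC3, Lib.H76T.TC6, Lib.H76T.TD1, Lib.H76T.TD2, Lib.H76T.TD3, Lib.H76T.TD4, Lib.H76T.TD5, Lib.H76T.TD6, Lib.H76T.TE1, Lib.H76T.TE2, Lib.H76T.TE3, Lib.H76V.VA1, Lib.H76V.VA2, Lib.H76V.VA3, Lib.H76V.VA4, Lib.H76V.VA5, Lib.H76V.VB1, Lib.H76V.VB2. -/

-- from Lib.H76T.TC3
section

/-!
# Seeds from the transvections of a component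
-/

set_option autoImplicit false
set_option linter.unusedSectionVars false
namespace Pool.Agent.H76T
open Module Matrix Pool.Agent.H53Toric Pool.Agent.H76U

variable {ι : Type*} [Fintype ι] [DecidableEq ι] {K : Type*} [Field K] [CharZero K]

theorem seed_of_fu {J : Matrix ι ι K} (hJ : Jᵀ = -J) (hdet : IsUnit J.det)
    {S : Set (Matrix ι ι K)} {h₀ p : Matrix ι ι K} (hz : h₀ ∈ zlie S) (hi : h₀ * h₀ = h₀)
    (hs : h₀ᵀ * J + J * h₀ = J) (hpp : p * p = p) (hpJ : pᵀ * J = J * p) (hp0 : p ≠ 0)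
    (hcomm : h₀ * p = p * h₀)
    (fu : ∀ u, p *ᵥ u = u → ∃ A ∈ zlie S, Aᵀ * J + J * A = 0 ∧
      phi A * phi p = tw (om J) u u) :
    ∃ M ∈ lieE J S, M * M = 0 ∧ ∃ d, phi p d = d ∧ d ≠ 0 ∧ M * phi p = trv (om J) d := by
  -- adjoints
  have ha : h₀ᵀ * J = J * (1 - h₀) := by
    rw [mul_sub, mul_one]
    exact eq_sub_of_add_eq hs
  have ha' : (1 - h₀)ᵀ * J = J * h₀ := by
    rw [Matrix.transpose_sub, Matrix.transpose_one, sub_mul, one_mul, ha, mul_sub, mul_one,
      sub_sub_cancel]
  have hself : ∀ v w, om J (p *ᵥ v) w = om J v (p *ᵥ w) := by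
    intro v w
    rw [om_apply, om_apply, Matrix.mulVec_mulVec _ J p, ← hpJ, ← Matrix.mulVec_mulVec _ pᵀ J,
      Matrix.dotProduct_mulVec v, Matrix.vecMul_transpose]
  have hself1 : ∀ v w, om J ((1 - h₀) *ᵥ v) w = om J v (h₀ *ᵥ w) := by
    intro v w
    rw [om_apply, om_apply, Matrix.mulVec_mulVec _ J h₀, ← ha', ← Matrix.mulVec_mulVec _ _ J,
      Matrix.dotProduct_mulVec v, Matrix.vecMul_transpose]
  -- a vector fixed by the idempotent
  have hhp : h₀ * p ≠ 0 := by
    intro h0
    apply hp0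
    have h1 : ∀ v, p *ᵥ v = 0 := by
      intro v
      apply om_nd hdet
      intro w
      have h2 : h₀ *ᵥ (p *ᵥ v) = 0 := by
        rw [Matrix.mulVec_mulVec, h0, Matrix.zero_mulVec]
      have h3 : om J w (p *ᵥ v) = om J (p *ᵥ w) (p *ᵥ v) := by
        rw [hself, Matrix.mulVec_mulVec _ p p, hpp]
      have h4 : (1 - h₀) *ᵥ (p *ᵥ w) = p *ᵥ w := by
        rw [Matrix.mulVec_mulVec, sub_mul, one_mul, h0, sub_zero]
      rw [h3, ← h4, hself1, h2, map_zero]
    apply (phi (ι := ι) (K := K)).injective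
    apply LinearMap.ext
    intro v
    rw [phi_apply, h1, map_zero]; rfl
  obtain ⟨v, hv⟩ : ∃ v, (h₀ * p) *ᵥ v ≠ 0 := by
    by_contra hcon
    push Not at hcon
    apply hhp
    apply (phi (ι := ι) (K := K)).injective
    apply LinearMap.ext
    intro v
    rw [phi_apply, hcon, map_zero]; rfl
  set u := (h₀ * p) *ᵥ v with hu
  have hpu : p *ᵥ u = u := by
    rw [hu, Matrix.mulVec_mulVec, ← mul_assoc, ← hcomm, mul_assoc, hpp]
  have hhu : h₀ *ᵥ u = u := by
    rw [hu, Matrix.mulVec_mulVec, ← mul_assoc, hi]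
  obtain ⟨A, hA, hAs, hAu⟩ := fu u hpu
  set M : Matrix ι ι K := h₀ * A * (1 - h₀) with hM
  have hMz : M ∈ zlie S := by
    have h1 := zlie_comm hz hA
    have h2 := zlie_comm hz h1
    have h3 : M = (1 / 2 : K) • ((h₀ * A - A * h₀) + (h₀ * (h₀ * A - A * h₀) -
        (h₀ * A - A * h₀) * h₀)) := by
      have h4 : (h₀ * A - A * h₀) + (h₀ * (h₀ * A - A * h₀) - (h₀ * A - A * h₀) * h₀) =
          (2 : K) • M := by
        have e1 : h₀ * (h₀ * A) = h₀ * A := by rw [← mul_assoc, hi]
        have e2 : A * h₀ * h₀ = A * h₀ := by rw [mul_assoc, hi]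
        rw [hM, two_smul, mul_sub, sub_mul, e1, e2]
        noncomm_ring
      rw [h4, smul_smul]
      norm_num
    rw [h3]
    exact (zlie S).smul_mem _ ((zlie S).add_mem h1 h2)
  have hMs : Mᵀ * J + J * M = 0 := by
    have h1 : Aᵀ * J = -(J * A) := eq_neg_of_add_eq_zero_left hAs
    rw [hM, Matrix.transpose_mul, Matrix.transpose_mul]
    calc (1 - h₀)ᵀ * (Aᵀ * h₀ᵀ) * J + J * (h₀ * A * (1 - h₀)) =
        (1 - h₀)ᵀ * (Aᵀ * (h₀ᵀ * J)) + J * (h₀ * A * (1 - h₀)) := by noncomm_ring
      _ = (1 - h₀)ᵀ * (Aᵀ * J) * (1 - h₀) + J * (h₀ * A * (1 - h₀)) := by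
          rw [ha]; noncomm_ring
      _ = -(((1 - h₀)ᵀ * J) * A * (1 - h₀)) + J * (h₀ * A * (1 - h₀)) := by
          rw [h1]; noncomm_ring
      _ = 0 := by rw [ha']; noncomm_ring
  have hM2 : M * M = 0 := by
    have h1 : (1 - h₀) * h₀ = 0 := by rw [sub_mul, one_mul, hi, sub_self]
    rw [hM]
    calc h₀ * A * (1 - h₀) * (h₀ * A * (1 - h₀)) =
        h₀ * A * ((1 - h₀) * h₀) * A * (1 - h₀) := by noncomm_ring
      _ = 0 := by rw [h1]; simp
  refine ⟨phi M, mem_lieE.2 ⟨hMz, (skew_iff hdet M).2 hMs⟩, ?_, u, ?_, hv, ?_⟩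
  · rw [← map_mul, hM2, map_zero]
  · rw [phi_apply, hpu]
  · apply LinearMap.ext
    intro w
    have h1 : M * p = h₀ * (A * p) * (1 - h₀) := by
      have h2 : (1 - h₀) * p = p * (1 - h₀) := by
        rw [sub_mul, mul_sub, one_mul, mul_one, hcomm]
      rw [hM]
      calc h₀ * A * (1 - h₀) * p = h₀ * A * ((1 - h₀) * p) := by noncomm_ring
        _ = _ := by rw [h2]; noncomm_ring
    rw [← map_mul, h1, phi_apply, ← Matrix.mulVec_mulVec, ← Matrix.mulVec_mulVec,
      ← phi_apply (A * p), map_mul, hAu, tw_apply, Matrix.mulVec_smul, hhu, hself1, hhu,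
      trv_apply]

end Pool.Agent.H76T
end

-- from Lib.H76T.TC6
section

/-!
# Fullness at one prime
-/

set_option autoImplicit false
set_option linter.unusedSectionVars false
namespace Pool.Agent.H76T
open Module Matrix Pool.Agent.H53Toric
open Pool.Agent.H76U (IsSplitting split4_of Split4 idem_factor rank_idem_map)
open Pool.Agent.H76RM (van spanK similD Seed Setup)
open Pool.Agent.H49M (idc)

variable {ι : Type*} [Fintype ι] [DecidableEq ι]
variable {L : Type*} [Field L] {K : Type*} [Field K] [Algebra L K] {G : Type*} [Group G]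

/-- A matrix of square zero whose exponential is in the closure. -/
theorem nil_of_zar [CharZero K] (ρ : G →* Matrix.GeneralLinearGroup ι L) {J : Matrix ι ι K}
    (hdet : IsUnit J.det) {k l : ι} (hkl : J k l ≠ 0)
    (hsim : ∀ s ∈ img K ρ ⊤, ∃ c : K, sᵀ * J * s = c • J)
    {N : Matrix ι ι K} (hN2 : N * N = 0) (hN1 : 1 + N ∈ zar (img K ρ ⊤)) (H : Subgroup G)
    [H.FiniteIndex] : Nil (img K ρ H) J N := by
  by_cases hN0 : N = 0
  · subst hN0
    exact ⟨(zlie _).zero_mem, by simp, hN2⟩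
  have hline : ∀ t : K, 1 + t • N ∈ zar (img K ρ H) := by
    refine line_finite ρ H (T := Set.range (Nat.cast : ℕ → K))
      (Set.infinite_range_of_injective Nat.cast_injective) ?_
    rintro _ ⟨n, rfl⟩
    exact pow_line (img_one ρ ⊤) (img_mul ρ ⊤) hN2 hN1 n
  have hNz : N ∈ zlie (img K ρ H) :=
    mem_zlie_of_infinite (img_mul ρ H) (T := Set.univ) Set.infinite_univ
      (fun t _ => hline t)
  have hsim0 : ∀ s ∈ img K ρ H, ∃ c : K, sᵀ * J * s = c • J := by
    rintro _ ⟨y, -, rfl⟩
    exact hsim _ ⟨y, Subgroup.mem_top y, rfl⟩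
  have hNs : Nᵀ * J + J * N = 0 := by
    obtain ⟨c1, hc1⟩ := zar_sim hkl hsim0 (hline 1)
    obtain ⟨c2, hc2⟩ := zar_sim hkl hsim0 (hline 2)
    obtain ⟨a, b, ha, hb⟩ := line_sim hc1 hc2
    exact nil_sim hdet ha hb hN2 hN0
  exact ⟨hNz, hNs, hN2⟩




end Pool.Agent.H76T
end

-- from Lib.H76T.TD1
section

/-!
# Eigenprojections
-/

set_option autoImplicit false
set_option linter.unusedSectionVars false
namespace Pool.Agent.H76T
open Module Matrix Pool.Agent.H53Toric

variable {ι : Type*} [Fintype ι] [DecidableEq ι] {K : Type*} [Field K]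

open Classical in
/-- The projector on the eigenspace of the eigenvalue `a`. -/
noncomputable def pj (P Q : Matrix ι ι K) (d : ι → K) (a : K) : Matrix ι ι K :=
  P * Matrix.diagonal (fun k => if d k = a then (1 : K) else 0) * Q

section
variable {P Q : Matrix ι ι K} {d : ι → K}

theorem pj_mul (hQP : Q * P = 1) (a : K) : pj P Q d a * pj P Q d a = pj P Q d a := by
  classical
  rw [pj]
  calc P * Matrix.diagonal (fun k => if d k = a then (1 : K) else 0) * Q *
      (P * Matrix.diagonal (fun k => if d k = a then (1 : K) else 0) * Q) =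
      P * (Matrix.diagonal (fun k => if d k = a then (1 : K) else 0) * (Q * P) *
        Matrix.diagonal (fun k => if d k = a then (1 : K) else 0)) * Q := by noncomm_ring
    _ = _ := by
      rw [hQP, mul_one, Matrix.diagonal_mul_diagonal]
      congr 3
      ext k
      split_ifs <;> simp

theorem pj_mul_ne (hQP : Q * P = 1) {a c : K} (hac : a ≠ c) :
    pj P Q d a * pj P Q d c = 0 := by
  classical
  rw [pj, pj]
  calc P * Matrix.diagonal (fun k => if d k = a then (1 : K) else 0) * Q *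
      (P * Matrix.diagonal (fun k => if d k = c then (1 : K) else 0) * Q) =
      P * (Matrix.diagonal (fun k => if d k = a then (1 : K) else 0) * (Q * P) *
        Matrix.diagonal (fun k => if d k = c then (1 : K) else 0)) * Q := by noncomm_ring
    _ = 0 := by
      rw [hQP, mul_one, Matrix.diagonal_mul_diagonal]
      have : (fun k => (if d k = a then (1 : K) else 0) * (if d k = c then (1 : K) else 0)) =
          0 := by
        ext k
        by_cases h : d k = a
        · have h2 : d k ≠ c := fun h3 => hac (h.symm.trans h3)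
          rw [if_neg h2, mul_zero]; rfl
        · rw [if_neg h, zero_mul]; rfl
      rw [this, Matrix.diagonal_zero', mul_zero, zero_mul]

open Classical in
theorem pj_sum (hPQ : P * Q = 1) : ∑ a ∈ Finset.univ.image d, pj P Q d a = 1 := by
  have h1 : ∑ a ∈ Finset.univ.image d,
      Matrix.diagonal (fun k => if d k = a then (1 : K) else 0) = 1 := by
    ext i j
    rw [Matrix.sum_apply, Matrix.one_apply]
    by_cases hij : i = j
    · subst hij
      rw [if_pos rfl]
      simp only [Matrix.diagonal_apply_eq]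
      rw [Finset.sum_ite_eq (Finset.univ.image d) (d i), if_pos]
      exact Finset.mem_image_of_mem d (Finset.mem_univ i)
    · rw [if_neg hij]
      exact Finset.sum_eq_zero fun a _ => Matrix.diagonal_apply_ne _ hij
  simp only [pj]
  rw [← Finset.sum_mul, ← Finset.mul_sum, h1, mul_one, hPQ]

variable {x : Matrix ι ι K} (hx : x = P * Matrix.diagonal d * Q)
include hx

theorem x_pj (hQP : Q * P = 1) (a : K) : x * pj P Q d a = a • pj P Q d a := by
  classical
  rw [hx, pj]
  calc P * Matrix.diagonal d * Q *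
      (P * Matrix.diagonal (fun k => if d k = a then (1 : K) else 0) * Q) =
      P * (Matrix.diagonal d * (Q * P) *
        Matrix.diagonal (fun k => if d k = a then (1 : K) else 0)) * Q := by noncomm_ring
    _ = P * (a • Matrix.diagonal (fun k => if d k = a then (1 : K) else 0)) * Q := by
      rw [hQP, mul_one, Matrix.diagonal_mul_diagonal]
      congr 2
      ext i j
      rw [Matrix.smul_apply]
      by_cases hij : i = j
      · subst hij
        simp only [Matrix.diagonal_apply_eq, smul_eq_mul]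
        split_ifs with h
        · rw [h]
        · simp
      · simp only [Matrix.diagonal_apply_ne _ hij, smul_zero]
    _ = _ := by rw [mul_smul_comm, smul_mul_assoc]

theorem pj_comm (hQP : Q * P = 1) (hPQ : P * Q = 1) {z : Matrix ι ι K} (hz : z * x = x * z)
    (a : K) : z * pj P Q d a = pj P Q d a * z := by
  classical
  set z' := Q * z * P with hz'
  have h1 : z' * Matrix.diagonal d = Matrix.diagonal d * z' := by
    calc z' * Matrix.diagonal d = Q * z * (P * Matrix.diagonal d * (Q * P)) := by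
          rw [hz', hQP]; noncomm_ring
      _ = Q * (z * x) * P := by rw [hx]; noncomm_ring
      _ = Q * (x * z) * P := by rw [hz]
      _ = (Q * P) * Matrix.diagonal d * (Q * z * P) := by rw [hx]; noncomm_ring
      _ = _ := by rw [hQP, one_mul]
  have h2 : ∀ i j, z' i j ≠ 0 → d i = d j := by
    intro i j hij
    have h3 := congrFun (congrFun h1 i) j
    rw [Matrix.mul_diagonal, Matrix.diagonal_mul] at h3
    have h4 : (d i - d j) * z' i j = 0 := by linear_combination -h3
    exact sub_eq_zero.1 ((mul_eq_zero.1 h4).resolve_right hij)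
  have h3 : z' * Matrix.diagonal (fun k => if d k = a then (1 : K) else 0) =
      Matrix.diagonal (fun k => if d k = a then (1 : K) else 0) * z' := by
    ext i j
    rw [Matrix.mul_diagonal, Matrix.diagonal_mul]
    by_cases hij : z' i j = 0
    · rw [hij, zero_mul, mul_zero]
    · rw [h2 i j hij, mul_comm]
  have h4 : z = P * z' * Q := by
    rw [hz']
    calc z = (P * Q) * z * (P * Q) := by rw [hPQ, one_mul, mul_one]
      _ = _ := by noncomm_ring
  rw [h4, pj]
  calc P * z' * Q * (P * Matrix.diagonal (fun k => if d k = a then (1 : K) else 0) * Q) =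
      P * (z' * (Q * P) * Matrix.diagonal (fun k => if d k = a then (1 : K) else 0)) * Q := by
        noncomm_ring
    _ = P * (Matrix.diagonal (fun k => if d k = a then (1 : K) else 0) * (Q * P) * z') * Q := by
        rw [hQP, mul_one, mul_one, h3]
    _ = _ := by noncomm_ring

theorem pj_eig (hQP : Q * P = 1) (hPQ : P * Q = 1) {v : ι → K} {a : K}
    (hv : x *ᵥ v = a • v) : pj P Q d a *ᵥ v = v := by
  classical
  set u := Q *ᵥ v with hu
  have h1 : v = P *ᵥ u := by rw [hu, Matrix.mulVec_mulVec, hPQ, Matrix.one_mulVec]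
  have h2 : Matrix.diagonal d *ᵥ u = a • u := by
    have h3 := congrArg (fun w => Q *ᵥ w) hv
    simp only [Matrix.mulVec_smul] at h3
    rw [h1, hx] at h3
    simp only [Matrix.mulVec_mulVec] at h3
    have e1 : Q * (P * Matrix.diagonal d * Q * P) = Matrix.diagonal d := by
      calc Q * (P * Matrix.diagonal d * Q * P) = (Q * P) * Matrix.diagonal d * (Q * P) := by
            noncomm_ring
        _ = _ := by rw [hQP, one_mul, mul_one]
    rw [e1, hQP, Matrix.one_mulVec] at h3
    exact h3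
  have h3 : Matrix.diagonal (fun k => if d k = a then (1 : K) else 0) *ᵥ u = u := by
    ext k
    rw [Matrix.mulVec_diagonal]
    have h4 := congrFun h2 k
    rw [Matrix.mulVec_diagonal, Pi.smul_apply, smul_eq_mul] at h4
    by_cases h5 : d k = a
    · rw [if_pos h5, one_mul]
    · have h6 : (d k - a) * u k = 0 := by linear_combination h4
      rw [(mul_eq_zero.1 h6).resolve_left (sub_ne_zero.2 h5), mul_zero]
  rw [pj, ← Matrix.mulVec_mulVec, ← hu, ← Matrix.mulVec_mulVec, h3, ← h1]

theorem pj_adj {J : Matrix ι ι K} {q : K} (hsim : xᵀ * J * x = q • J) (hQP : Q * P = 1)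
    (hPQ : P * Q = 1) (hd : ∀ k, d k ≠ 0) {a a' : K} (haa : a * a' = q) (ha : a ≠ 0) :
    (pj P Q d a)ᵀ * J = J * pj P Q d a' := by
  classical
  set M := Pᵀ * J * P with hM
  have h2 : Qᵀ * Pᵀ = 1 := by rw [← Matrix.transpose_mul, hPQ, Matrix.transpose_one]
  have h2' : Pᵀ * Qᵀ = 1 := by rw [← Matrix.transpose_mul, hQP, Matrix.transpose_one]
  have hent : ∀ i j, M i j ≠ 0 → d i * d j = q := by
    intro i j hij
    have h1 : Matrix.diagonal d * M * Matrix.diagonal d = q • M := by
      have h3 := congrArg (fun X => Pᵀ * X * P) hsim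
      simp only [mul_smul_comm, smul_mul_assoc] at h3
      rw [← hM] at h3
      rw [← h3, hx, Matrix.transpose_mul, Matrix.transpose_mul, Matrix.diagonal_transpose]
      calc Matrix.diagonal d * M * Matrix.diagonal d =
          1 * Matrix.diagonal d * M * Matrix.diagonal d * 1 := by rw [one_mul, mul_one]
        _ = (Pᵀ * Qᵀ) * Matrix.diagonal d * M * Matrix.diagonal d * (Q * P) := by rw [h2', hQP]
        _ = _ := by rw [hM]; noncomm_ring
    have h3 := congrFun (congrFun h1 i) j
    rw [Matrix.mul_diagonal, Matrix.diagonal_mul, Matrix.smul_apply, smul_eq_mul] at h3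
    have h4 : (d i * d j - q) * M i j = 0 := by linear_combination h3
    exact sub_eq_zero.1 ((mul_eq_zero.1 h4).resolve_right hij)
  have h3 : Matrix.diagonal (fun k => if d k = a then (1 : K) else 0) * M =
      M * Matrix.diagonal (fun k => if d k = a' then (1 : K) else 0) := by
    ext i j
    rw [Matrix.mul_diagonal, Matrix.diagonal_mul]
    by_cases hij : M i j = 0
    · rw [hij, zero_mul, mul_zero]
    · have h4 := hent i j hij
      by_cases h5 : d i = a
      · have h6 : d j = a' := by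
          rw [h5, ← haa] at h4
          exact mul_left_cancel₀ ha h4
        rw [if_pos h5, if_pos h6, one_mul, mul_one]
      · have h6 : d j ≠ a' := by
          intro h6
          rw [h6, ← haa] at h4
          have ha' : a' ≠ 0 := by
            rw [← h6]
            exact hd j
          exact h5 (mul_right_cancel₀ ha' h4)
        rw [if_neg h5, if_neg h6, zero_mul, mul_zero]
  rw [pj, pj, Matrix.transpose_mul, Matrix.transpose_mul, Matrix.diagonal_transpose]
  set Δ := Matrix.diagonal (fun k => if d k = a then (1 : K) else 0) with hΔ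
  set Δ' := Matrix.diagonal (fun k => if d k = a' then (1 : K) else 0) with hΔ'
  have e1 : Qᵀ * (Δ * Pᵀ) * J = Qᵀ * (Δ * M) * Q := by
    have e2 : Qᵀ * (Δ * M) * Q = Qᵀ * (Δ * Pᵀ) * J * (P * Q) := by
      rw [hM]; noncomm_ring
    rw [e2, hPQ, mul_one]
  have e3 : Qᵀ * (M * Δ') * Q = (Qᵀ * Pᵀ) * J * (P * Δ' * Q) := by
    rw [hM]; noncomm_ring
  rw [e1, h3, e3, h2, one_mul]

end

end Pool.Agent.H76T
end

-- from Lib.H76T.TD2
section

/-!
# The closure of the powers of a diagonalisable matrix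
-/

set_option autoImplicit false
set_option linter.unusedSectionVars false
namespace Pool.Agent.H76T
open Module Matrix Pool.Agent.H53Toric

variable {ι : Type*} [Fintype ι] [DecidableEq ι] {K : Type*} [Field K]
variable {P Q : Matrix ι ι K} {d : ι → K} {x : Matrix ι ι K}
  (hx : x = P * Matrix.diagonal d * Q) (hPQ : P * Q = 1) (hQP : Q * P = 1)
  {y : Matrix ι ι K} (hy : y ∈ zar {m | ∃ n : ℕ, m = x ^ n})

theorem entry_poly (P Q : Matrix ι ι K) (i j : ι) : ∃ g : MvPolynomial (ι × ι) K,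
    ∀ m : Matrix ι ι K, ev m g = (Q * m * P) i j := by
  refine ⟨∑ b, (∑ a, MvPolynomial.C (Q i a) * MvPolynomial.X (a, b)) * MvPolynomial.C (P b j),
    fun m ↦ ?_⟩
  rw [map_sum, Matrix.mul_apply]
  refine Finset.sum_congr rfl fun b _ ↦ ?_
  rw [map_mul, map_sum, ev_C, Matrix.mul_apply]
  congr 1
  refine Finset.sum_congr rfl fun a _ ↦ ?_
  rw [map_mul, ev_C, ev_X]

include hx hPQ hQP in
theorem diag_pow' (n : ℕ) : Q * x ^ n * P = (Matrix.diagonal d) ^ n := by
  have h1 : x ^ n = P * (Matrix.diagonal d) ^ n * Q := by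
    rw [hx]
    induction n with
    | zero => rw [pow_zero, pow_zero, mul_one, hPQ]
    | succ n ih =>
      rw [pow_succ, ih, pow_succ]
      calc P * Matrix.diagonal d ^ n * Q * (P * Matrix.diagonal d * Q) =
          P * Matrix.diagonal d ^ n * (Q * P) * Matrix.diagonal d * Q := by noncomm_ring
        _ = _ := by rw [hQP]; noncomm_ring
  rw [h1]
  calc Q * (P * (Matrix.diagonal d) ^ n * Q) * P =
      (Q * P) * (Matrix.diagonal d) ^ n * (Q * P) := by noncomm_ring
    _ = _ := by rw [hQP, one_mul, mul_one]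


include hx hPQ hQP hy in
theorem pow_mul_rel {m m' : ι → ℕ} (h : ∏ k, d k ^ m k = ∏ k, d k ^ m' k) :
    ∏ k, (Q * y * P) k k ^ m k = ∏ k, (Q * y * P) k k ^ m' k := by
  choose g hg using fun k => entry_poly P Q k k
  have h1 : ev y (∏ k, g k ^ m k - ∏ k, g k ^ m' k) = 0 := by
    apply hy
    rintro _ ⟨n, rfl⟩
    rw [map_sub, map_prod, map_prod]
    simp only [map_pow, hg, diag_pow' hx hPQ hQP, Matrix.diagonal_pow,
      Matrix.diagonal_apply_eq, Pi.pow_apply]
    have h2 : ∀ m : ι → ℕ, ∏ k, (d k ^ n) ^ m k = (∏ k, d k ^ m k) ^ n := by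
      intro m
      rw [← Finset.prod_pow]
      exact Finset.prod_congr rfl fun k _ => by rw [← pow_mul, ← pow_mul, mul_comm]
    rw [h2, h2, h, sub_self]
  rw [map_sub, map_prod, map_prod] at h1
  simp only [map_pow, hg] at h1
  exact sub_eq_zero.1 h1



include hx hPQ hQP in
/-- an eigenvalue of an eigenvector is on the list -/
theorem eig_mem {v : ι → K} {a : K} (hv : x *ᵥ v = a • v) (hv0 : v ≠ 0) : ∃ k, d k = a := by
  classical
  by_contra hcon
  push Not at hcon
  have h1 := pj_eig hx hQP hPQ hv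
  apply hv0
  have h2 : pj P Q d a = 0 := by
    rw [pj]
    have : (fun k => if d k = a then (1 : K) else 0) = 0 := by
      ext k
      rw [if_neg (hcon k)]; rfl
    rw [this, Matrix.diagonal_zero', mul_zero, zero_mul]
  rw [← h1, h2, Matrix.zero_mulVec]

end Pool.Agent.H76T
end

-- from Lib.H76T.TD3
section

/-!
# One parameter groups of rank two
-/

set_option autoImplicit false
set_option linter.unusedSectionVars false
namespace Pool.Agent.H76T
open Module Matrix Pool.Agent.H53Toric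
open Pool.Agent.H76RM (Split)

variable {ι : Type*} [Fintype ι] [DecidableEq ι] {K : Type*} [Field K] [CharZero K]

theorem mat_ext {A B : Matrix ι ι K} (h : ∀ u, A *ᵥ u = B *ᵥ u) : A = B := by
  apply Matrix.toLin'.injective
  exact LinearMap.ext fun u ↦ by rw [Matrix.toLin'_apply, Matrix.toLin'_apply, h]


section
variable {B : Type*} [Fintype B] [DecidableEq B] {J : Matrix ι ι K}
  {DD : Submodule K (Matrix ι ι K)} {e : B → Matrix ι ι K} (h : Split J DD e)
  (hJ : Jᵀ = -J) (hdet : IsUnit J.det) {x : Matrix ι ι K} {q : K} (hq : q ≠ 0)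
  (hsim : xᵀ * J * x = q • J) (hxD : ∀ d ∈ DD, x * d = d * x)
  (hlie : ∀ b u, e b *ᵥ u = u → ∃ X : Matrix ι ι K, Xᵀ * J + J * X = 0 ∧
    (∀ d ∈ DD, X * d = d * X) ∧ (∀ z, X *ᵥ (e b *ᵥ z) = om J z u • u) ∧ ∀ c, c ≠ b → X * e c = 0)

include hsim in
theorem eig_form {a a' : K} (haa : a * a' = q) (ha : a ≠ 0) {v : ι → K} (hv : x *ᵥ v = a • v)
    (z : ι → K) : om J (x *ᵥ z) v = a' * om J z v := by
  have h1 : om J (x *ᵥ z) (x *ᵥ v) = q * om J z v := by
    rw [om_mul, hsim, om_apply, om_apply, Matrix.smul_mulVec, dotProduct_smul, smul_eq_mul]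
  rw [hv, map_smul, smul_eq_mul, ← haa] at h1
  apply mul_left_cancel₀ ha
  rw [h1]
  ring


end

end Pool.Agent.H76T
end

-- from Lib.H76T.TD4
section

/-!
# Consequences of a maximal Frobenius torus
-/

set_option autoImplicit false
set_option linter.unusedSectionVars false
namespace Pool.Agent.H76T
open Module Matrix Pool.Agent.H53Toric
open Pool.Agent.H76RM (Split)

variable {ι : Type*} [Fintype ι] [DecidableEq ι] {K : Type*} [Field K] [CharZero K]
variable {B : Type*} [Fintype B] [DecidableEq B] {J : Matrix ι ι K}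
  {DD : Submodule K (Matrix ι ι K)} {e : B → Matrix ι ι K} (h : Split J DD e)
  (hJ : Jᵀ = -J) (hdet : IsUnit J.det) {x : Matrix ι ι K} {q : K} (hq : q ≠ 0)
  (hsim : xᵀ * J * x = q • J) (hxD : ∀ d ∈ DD, x * d = d * x)
  {P Q : Matrix ι ι K} {d : ι → K}
  (hx : x = P * Matrix.diagonal d * Q) (hPQ : P * Q = 1) (hQP : Q * P = 1)
  (hd : ∀ k, d k ≠ 0)

include h hxD hx hPQ hQP in
/-- some component contains an eigenvector -/
theorem eig_comp (k : ι) : ∃ b, ∃ z : ι → K, z ≠ 0 ∧ e b *ᵥ z = z ∧ x *ᵥ z = d k • z := by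
  have hcomm : ∀ c ∈ DD, pj P Q d (d k) * c = c * pj P Q d (d k) := fun c hc =>
    (pj_comm hx hQP hPQ (hxD c hc).symm (d k)).symm
  obtain ⟨b, hb⟩ : ∃ b, pj P Q d (d k) * e b ≠ 0 := by
    by_contra hcon
    push Not at hcon
    have h1 : pj P Q d (d k) = 0 := by
      apply h.ext_comm hcomm
      · intro d _
        rw [zero_mul, mul_zero]
      · intro b
        rw [hcon b, zero_mul]
    have h2 : x *ᵥ (P *ᵥ Pi.single k 1) = d k • (P *ᵥ Pi.single k 1) :=
      H49M.C3a_eig hQP hx k
    have h3 := pj_eig hx hQP hPQ h2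
    rw [h1, Matrix.zero_mulVec] at h3
    have h4 := congrArg (fun v => (Q *ᵥ v) k) h3
    simp only [Matrix.mulVec_zero, Matrix.mulVec_mulVec, hQP, Matrix.one_mulVec,
      Pi.single_eq_same, Pi.zero_apply] at h4
    exact zero_ne_one h4
  obtain ⟨u, hu⟩ : ∃ u, (pj P Q d (d k) * e b) *ᵥ u ≠ 0 := by
    by_contra hcon
    push Not at hcon
    apply hb
    apply mat_ext
    intro u
    rw [hcon, Matrix.zero_mulVec]
  refine ⟨b, _, hu, ?_, ?_⟩
  · rw [Matrix.mulVec_mulVec, ← mul_assoc, ← hcomm _ (h.mem b), mul_assoc, h.idem]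
  · rw [Matrix.mulVec_mulVec, ← mul_assoc, x_pj hx hQP, smul_mul_assoc, Matrix.smul_mulVec]

include h hdet hq hsim hxD hx hPQ hQP hd in
/-- a pair of dual eigenvectors in a component -/
theorem eig_pair (k : ι) : ∃ b, ∃ v w : ι → K, e b *ᵥ v = v ∧ e b *ᵥ w = w ∧
    x *ᵥ v = d k • v ∧ x *ᵥ w = (q / d k) • w ∧ om J v w = 1 := by
  obtain ⟨b, v, hv0, hbv, hv⟩ := eig_comp h hxD hx hPQ hQP k
  have haa : d k * (q / d k) = q := mul_div_cancel₀ q (hd k)
  have hadj := pj_adj hx hsim hQP hPQ hd haa (hd k)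
  obtain ⟨w₀, hw₀⟩ : ∃ w₀, om J v w₀ ≠ 0 := by
    by_contra hcon
    push Not at hcon
    apply hv0
    have h1 : ∀ w, om J v w = 0 := hcon
    have h2 : v ᵥ* J = 0 := by
      ext j
      have h3 := h1 (Pi.single j 1)
      rw [om_apply, Matrix.dotProduct_mulVec, dotProduct_single_one] at h3
      exact h3
    exact Matrix.eq_zero_of_vecMul_eq_zero hdet.ne_zero h2
  have hself : ∀ u z, om J (pj P Q d (d k) *ᵥ u) z = om J u (pj P Q d (q / d k) *ᵥ z) := by
    intro u z
    rw [om_apply, om_apply, Matrix.mulVec_mulVec _ J _, ← hadj, ← Matrix.mulVec_mulVec _ _ J,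
      Matrix.dotProduct_mulVec u, Matrix.vecMul_transpose]
  have h1 : om J v (e b *ᵥ (pj P Q d (q / d k) *ᵥ w₀)) = om J v w₀ := by
    rw [← h.self, hbv, ← hself, pj_eig hx hQP hPQ hv]
  refine ⟨b, v, (om J v w₀)⁻¹ • (e b *ᵥ (pj P Q d (q / d k) *ᵥ w₀)), hbv, ?_, hv, ?_, ?_⟩
  · rw [Matrix.mulVec_smul, Matrix.mulVec_mulVec _ (e b) (e b), h.idem]
  · rw [Matrix.mulVec_smul, smul_comm]
    congr 1
    rw [Matrix.mulVec_mulVec, hxD _ (h.mem b), ← Matrix.mulVec_mulVec,
      Matrix.mulVec_mulVec w₀ x, x_pj hx hQP, Matrix.smul_mulVec, Matrix.mulVec_smul]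
  · rw [map_smul, h1, smul_eq_mul, inv_mul_cancel₀ hw₀]

variable (hlie : ∀ b u, e b *ᵥ u = u → ∃ X : Matrix ι ι K, Xᵀ * J + J * X = 0 ∧
    (∀ d ∈ DD, X * d = d * X) ∧ (∀ z, X *ᵥ (e b *ᵥ z) = om J z u • u) ∧ ∀ c, c ≠ b → X * e c = 0)
  (htor : ∀ y : Matrix ι ι K, y.det ≠ 0 → (∀ d ∈ DD, y * d = d * y) →
    (∃ c : K, yᵀ * J * y = c • J) → y * x = x * y → y ∈ zar {m | ∃ n : ℕ, m = x ^ n})




end Pool.Agent.H76T
end

-- from Lib.H76T.TD5
section

/-!
# Counting eigenvalues
-/

set_option autoImplicit false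
set_option linter.unusedSectionVars false
namespace Pool.Agent.H76T
open Module Matrix Pool.Agent.H53Toric
open Pool.Agent.H76RM (Split)

variable {ι : Type*} [Fintype ι] [DecidableEq ι] {K : Type*} [Field K] [CharZero K]

theorem rank_eq_trace {p : Matrix ι ι K} (hp : p * p = p) :
    (p.rank : K) = LinearMap.trace K (ι → K) (phi p) := by
  rw [trace_idem (f := phi p) (by rw [← map_mul, hp])]
  rfl

section
variable {x : Matrix ι ι K} {P Q : Matrix ι ι K} {d : ι → K}
  (hx : x = P * Matrix.diagonal d * Q) (hPQ : P * Q = 1) (hQP : Q * P = 1)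

open Classical in
include hx hPQ hQP in
/-- The rank of an idempotent is the sum of the ranks on the eigenspaces. -/
theorem rank_sum {p : Matrix ι ι K} (hp : p * p = p) (hpx : p * x = x * p) :
    p.rank = ∑ a ∈ Finset.univ.image d, (pj P Q d a * p).rank := by
  have hc : ∀ a, p * pj P Q d a = pj P Q d a * p := fun a => pj_comm hx hQP hPQ hpx a
  have hid : ∀ a, (pj P Q d a * p) * (pj P Q d a * p) = pj P Q d a * p := by
    intro a
    calc (pj P Q d a * p) * (pj P Q d a * p) = pj P Q d a * (p * pj P Q d a) * p := by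
          noncomm_ring
      _ = (pj P Q d a * pj P Q d a) * (p * p) := by rw [hc]; noncomm_ring
      _ = _ := by rw [pj_mul hQP, hp]
  have h1 : (p.rank : K) = ((∑ a ∈ Finset.univ.image d, (pj P Q d a * p).rank : ℕ) : K) := by
    rw [Nat.cast_sum, rank_eq_trace hp]
    simp only [rank_eq_trace (hid _)]
    rw [← map_sum, ← map_sum, ← Finset.sum_mul, pj_sum hPQ, one_mul]
  exact_mod_cast h1

end

section
variable {B : Type*} [Fintype B] [DecidableEq B] {J : Matrix ι ι K}
  {DD : Submodule K (Matrix ι ι K)} {e : B → Matrix ι ι K} (h : Split J DD e)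
  (hJ : Jᵀ = -J) (hdet : IsUnit J.det) {x : Matrix ι ι K} {q : K} (hq : q ≠ 0)
  (hsim : xᵀ * J * x = q • J) (hxD : ∀ d ∈ DD, x * d = d * x)
  {P Q : Matrix ι ι K} {d : ι → K}
  (hx : x = P * Matrix.diagonal d * Q) (hPQ : P * Q = 1) (hQP : Q * P = 1)
  (hd : ∀ k, d k ≠ 0)

open Classical in
include h hxD hx hPQ hQP in
theorem rank_total : ∑ b, (e b).rank =
    ∑ a ∈ Finset.univ.image d, ∑ b, (pj P Q d a * e b).rank := by
  rw [Finset.sum_comm]
  exact Finset.sum_congr rfl fun b _ => rank_sum hx hPQ hQP (h.idem b) (hxD _ (h.mem b)).symm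

theorem rank_pos_of_ne {A : Matrix ι ι K} (hA : A ≠ 0) : 1 ≤ A.rank := by
  rw [Nat.one_le_iff_ne_zero]
  intro h0
  apply hA
  have h2 : finrank K (LinearMap.range A.mulVecLin) = 0 := h0
  rw [Submodule.finrank_eq_zero, LinearMap.range_eq_bot] at h2
  apply Matrix.toLin'.injective
  rw [map_zero]
  exact h2

include h hxD hx hPQ hQP in
/-- every eigenvalue occurs somewhere -/
theorem mult_pos (k : ι) : 1 ≤ ∑ b, (pj P Q d (d k) * e b).rank := by
  obtain ⟨b, z, hz0, hbz, hz⟩ := eig_comp h hxD hx hPQ hQP k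
  have h1 : pj P Q d (d k) * e b ≠ 0 := by
    intro h0
    apply hz0
    have h2 := congrArg (fun X => X *ᵥ z) h0
    simp only [← Matrix.mulVec_mulVec, hbz, Matrix.zero_mulVec] at h2
    rwa [pj_eig hx hQP hPQ hz] at h2
  exact (rank_pos_of_ne h1).trans
    (Finset.single_le_sum (f := fun b => (pj P Q d (d k) * e b).rank)
      (fun _ _ => Nat.zero_le _) (Finset.mem_univ b))

variable (hlie : ∀ b u, e b *ᵥ u = u → ∃ X : Matrix ι ι K, Xᵀ * J + J * X = 0 ∧
    (∀ d ∈ DD, X * d = d * X) ∧ (∀ z, X *ᵥ (e b *ᵥ z) = om J z u • u) ∧ ∀ c, c ≠ b → X * e c = 0)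
  (htor : ∀ y : Matrix ι ι K, y.det ≠ 0 → (∀ d ∈ DD, y * d = d * y) →
    (∃ c : K, yᵀ * J * y = c • J) → y * x = x * y → y ∈ zar {m | ∃ n : ℕ, m = x ^ n})



open Classical in
include h hxD hx hPQ hQP in
/-- If there are enough eigenvalues they are simple on one component. -/
theorem mult_one_of_card (hcard : (Finset.univ.image d).card = ∑ b, (e b).rank) (k : ι) :
    ∑ b, (pj P Q d (d k) * e b).rank = 1 := by
  rw [rank_total h hxD hx hPQ hQP, Finset.card_eq_sum_ones] at hcard
  have h1 : ∀ a ∈ Finset.univ.image d, 1 ≤ ∑ b, (pj P Q d a * e b).rank := by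
    intro a ha
    obtain ⟨k, -, rfl⟩ := Finset.mem_image.1 ha
    exact mult_pos h hxD hx hPQ hQP k
  exact ((Finset.sum_eq_sum_iff_of_le h1).1 hcard (d k)
    (Finset.mem_image_of_mem d (Finset.mem_univ k))).symm

end

end Pool.Agent.H76T
end

-- from Lib.H76T.TD6
section

/-!
# Roots of a rational polynomial in different fields
-/

set_option autoImplicit false
set_option linter.unusedSectionVars false
namespace Pool.Agent.H76T
open Module Matrix Polynomial Pool.Agent.H53Toric
open Pool.Agent.H76RM (Split)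

/-- The group generated by `q` and the roots of `F` other than `α` and `q / α`. -/
def others (F : ℚ[X]) (q : ℚ) {K : Type*} [Field K] [Algebra ℚ K] (α : Kˣ) : Subgroup Kˣ :=
  Subgroup.closure {u : Kˣ | (u : K) = algebraMap ℚ K q ∨
    (aeval (u : K) F = 0 ∧ u ≠ α ∧ (u : K) * α ≠ algebraMap ℚ K q)}

/-- All roots of `F` are independent, relative to `q`. -/
def AllIndep (F : ℚ[X]) (q : ℚ) (K : Type*) [Field K] [Algebra ℚ K] : Prop :=
  ∀ α : Kˣ, aeval (α : K) F = 0 → (α : K) * α ≠ algebraMap ℚ K q ∧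
    ∀ n : ℤ, n ≠ 0 → α ^ n ∉ others F q α

open Classical in
/-- The number of different roots. -/
noncomputable def nroots (F : ℚ[X]) (K : Type*) [Field K] [Algebra ℚ K] : ℕ :=
  (F.map (algebraMap ℚ K)).roots.toFinset.card

variable {ι : Type*} [Fintype ι] [DecidableEq ι] {K : Type*} [Field K] [CharZero K]

theorem alg_rat : Algebra.IsAlgebraic ℚ (AlgebraicClosure ℚ) := by
  have e : (DivisionRing.toRatAlgebra : Algebra ℚ (AlgebraicClosure ℚ)) =
    AlgebraicClosure.instAlgebra ℚ := Subsingleton.elim _ _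
  rw [e]
  exact AlgebraicClosure.isAlgebraic ℚ

/-- an embedding of the algebraic numbers -/
noncomputable def embQ (K : Type*) [Field K] [CharZero K] [IsAlgClosed K] :
    AlgebraicClosure ℚ →ₐ[ℚ] K :=
  have := alg_rat
  IsAlgClosed.lift

section
variable [IsAlgClosed K] {F : ℚ[X]} {d : ι → K}
  (hchar : F.map (algebraMap ℚ K) = ∏ k, (X - C (d k)))
include hchar

theorem roots_eq : (F.map (algebraMap ℚ K)).roots = Finset.univ.val.map d := by
  rw [hchar]
  have := Polynomial.roots_multiset_prod_X_sub_C (Finset.univ.val.map d)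
  rw [Multiset.map_map] at this
  exact this

theorem F_ne : F ≠ 0 := by
  rintro rfl
  rw [Polynomial.map_zero] at hchar
  exact Finset.prod_ne_zero_iff.2 (fun k _ ↦ X_sub_C_ne_zero (d k)) hchar.symm

theorem root_iff {a : K} : aeval a F = 0 ↔ ∃ k, d k = a := by
  have hF := F_ne hchar
  have h1 : a ∈ (F.map (algebraMap ℚ K)).roots ↔ aeval a F = 0 := by
    rw [Polynomial.mem_roots', Polynomial.IsRoot, Polynomial.eval_map, aeval_def]
    constructor
    · exact fun h => h.2
    · intro h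
      exact ⟨(Polynomial.map_ne_zero_iff (algebraMap ℚ K).injective).2 hF, h⟩
  rw [← h1, roots_eq hchar, Multiset.mem_map]
  simp

omit hchar in
theorem aeval_emb (β : AlgebraicClosure ℚ) : aeval (embQ K β) F = 0 ↔ aeval β F = 0 := by
  rw [Polynomial.aeval_algHom_apply]
  exact map_eq_zero_iff (embQ K) (embQ K).toRingHom.injective

theorem root_lift (k : ι) : ∃ β : AlgebraicClosure ℚ, embQ K β = d k ∧ aeval β F = 0 := by
  have hmap : (F.map (algebraMap ℚ (AlgebraicClosure ℚ))).map (embQ K).toRingHom =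
      F.map (algebraMap ℚ K) := by
    rw [Polynomial.map_map]
    congr 1
    exact Subsingleton.elim _ _
  have hk : d k ∈ (F.map (algebraMap ℚ K)).roots := by
    rw [roots_eq hchar]
    exact Multiset.mem_map_of_mem _ (Finset.mem_univ k)
  rw [← hmap, (IsAlgClosed.splits (F.map (algebraMap ℚ
    (AlgebraicClosure ℚ)))).roots_map] at hk
  obtain ⟨β, hβ, hβk⟩ := Multiset.mem_map.1 hk
  have hβk' : embQ K β = d k := hβk
  refine ⟨β, hβk', ?_⟩
  rw [← aeval_emb (K := K), hβk', root_iff hchar]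
  exact ⟨k, rfl⟩

open Classical in
theorem nroots_eq : (Finset.univ.image d).card = nroots F (AlgebraicClosure ℚ) := by
  have hF := F_ne hchar
  have h1 : Finset.univ.image d =
      ((F.map (algebraMap ℚ (AlgebraicClosure ℚ))).roots.toFinset).image (embQ K) := by
    ext a
    rw [Finset.mem_image, Finset.mem_image]
    constructor
    · rintro ⟨k, -, rfl⟩
      obtain ⟨β, hβ, hβF⟩ := root_lift hchar k
      refine ⟨β, ?_, hβ⟩
      rw [Multiset.mem_toFinset, Polynomial.mem_roots', Polynomial.IsRoot, Polynomial.eval_map]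
      exact ⟨(Polynomial.map_ne_zero_iff (algebraMap ℚ _).injective).2 hF, hβF⟩
    · rintro ⟨β, hβ, rfl⟩
      rw [Multiset.mem_toFinset, Polynomial.mem_roots', Polynomial.IsRoot,
        Polynomial.eval_map] at hβ
      have h2 : aeval β F = 0 := hβ.2
      rw [← aeval_emb (K := K), root_iff hchar] at h2
      obtain ⟨k, hk⟩ := h2
      exact ⟨k, Finset.mem_univ k, hk⟩
  have hinj : Function.Injective (embQ K) := (embQ K).toRingHom.injective
  rw [h1, Finset.card_image_of_injective _ hinj]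
  rfl

end

/-- Independence in the algebraic numbers implies independence in `K`. -/
theorem AllIndep.to [IsAlgClosed K] {F : ℚ[X]} {d : ι → K}
    (hchar : F.map (algebraMap ℚ K) = ∏ k, (X - C (d k))) (hd : ∀ k, d k ≠ 0) {q : ℚ}
    (h : AllIndep F q (AlgebraicClosure ℚ)) : AllIndep F q K := by
  intro a ha
  obtain ⟨k, hk⟩ := (root_iff hchar).1 ha
  obtain ⟨β, hβ, hβF⟩ := root_lift hchar k
  have hβ0 : β ≠ 0 := by
    rintro rfl
    rw [map_zero] at hβ
    exact hd k hβ.symm
  let fu : (AlgebraicClosure ℚ)ˣ →* Kˣ := Units.map (embQ K : AlgebraicClosure ℚ →* K)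
  have hfu : ∀ u : (AlgebraicClosure ℚ)ˣ, (fu u : K) = embQ K u := fun u => rfl
  have hfuinj : Function.Injective fu := by
    intro u v huv
    apply Units.ext
    apply (embQ K).toRingHom.injective
    change embQ K u = embQ K v
    rw [← hfu, ← hfu, huv]
  set α : (AlgebraicClosure ℚ)ˣ := Units.mk0 β hβ0 with hα
  have hαa : fu α = a := by
    apply Units.ext
    rw [hfu, ← hk, ← hβ]
    rfl
  obtain ⟨h1, h2⟩ := h α hβF
  constructor
  · intro h3
    apply h1
    apply (embQ K).toRingHom.injective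
    change embQ K _ = embQ K _
    rw [map_mul, AlgHom.commutes, ← h3, ← hαa, hfu]
  · intro n hn h3
    apply h2 n hn
    have h4 : others F q a ≤ (others F q α).map fu := by
      rw [others, Subgroup.closure_le]
      rintro u (hu | ⟨hu1, hu2, hu3⟩)
      · have hq0 : algebraMap ℚ (AlgebraicClosure ℚ) q ≠ 0 := by
          intro h5
          have h6 := congrArg (embQ K) h5
          rw [AlgHom.commutes, map_zero, ← hu] at h6
          exact u.ne_zero h6
        refine ⟨Units.mk0 _ hq0, Subgroup.subset_closure (Or.inl rfl), ?_⟩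
        apply Units.ext
        rw [hfu, Units.val_mk0, AlgHom.commutes, hu]
      · obtain ⟨k', hk'⟩ := (root_iff hchar).1 hu1
        obtain ⟨β', hβ', hβF'⟩ := root_lift hchar k'
        have hβ0' : β' ≠ 0 := by
          rintro rfl
          rw [map_zero] at hβ'
          exact hd k' hβ'.symm
        have hfu' : fu (Units.mk0 β' hβ0') = u := by
          apply Units.ext
          rw [hfu, Units.val_mk0, hβ', hk']
        refine ⟨Units.mk0 β' hβ0', Subgroup.subset_closure (Or.inr ⟨hβF', ?_, ?_⟩), hfu'⟩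
        · intro h5
          apply hu2
          rw [← hfu', h5, hαa]
        · intro h5
          apply hu3
          have h6 := congrArg (embQ K) h5
          rw [map_mul, AlgHom.commutes] at h6
          rw [← h6, ← hfu', ← hαa]
          rfl
    obtain ⟨u, hu, hun⟩ := h4 h3
    have h5 : u = α ^ n := by
      apply hfuinj
      rw [hun, map_zpow, hαa]
    rwa [← h5]

end Pool.Agent.H76T
end

-- from Lib.H76T.TE1
section

/-!
# Seeds from semisimple elements of rank two
-/

set_option autoImplicit false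
set_option linter.unusedSectionVars false
namespace Pool.Agent.H76T
open Module Pool.Agent.H53Toric Pool.Agent.H76RM

variable {K : Type*} [Field K] {V : Type*} [AddCommGroup V] [Module K V]
variable {B : Type*} [Fintype B] [DecidableEq B] {Γ : Type*} [Group Γ]
variable {ω : V →ₗ[K] V →ₗ[K] K} {e : B → Module.End K V}
    {g : Submodule K (Module.End K V)} {r : Γ →* Module.End K V}

theorem seed_root [IsAlgClosed K] [CharZero K] [FiniteDimensional K V] (h : Setup ω e g r)
    {p p' : Module.End K V}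
    (hY : p - p' ∈ g) (hpp : p * p = p) (hpp' : p' * p' = p') (h12 : p * p' = 0)
    (h21 : p' * p = 0) (hadj : ∀ v w, ω (p v) w = ω v (p' w))
    {b : B} {u : V} (hu0 : u ≠ 0) (hbu : e b u = u) (hpu : p u = u)
    (hline : ∀ z, ∃ c : K, p (e b z) = c • u)
    (hsurj : ∀ f : V →ₗ[K] K, ∃ a, ∀ z, f z = ω z a) : Seed ω e g b := by
  -- the dual vector
  have hfun : ∃ f : V →ₗ[K] K, ∀ z, p (e b z) = f z • u := by
    obtain ⟨φ, hφ⟩ : ∃ φ : V →ₗ[K] K, φ u ≠ 0 := by
      obtain ⟨φ₀, hφ₀, -⟩ := Submodule.exists_le_ker_of_notMem (p := (⊥ : Submodule K V))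
        (v := u) (by rw [Submodule.mem_bot]; exact hu0)
      exact ⟨φ₀, hφ₀⟩
    refine ⟨(φ u)⁻¹ • (φ ∘ₗ p ∘ₗ e b), fun z => ?_⟩
    obtain ⟨c, hc⟩ := hline z
    have : ((φ u)⁻¹ • (φ ∘ₗ p ∘ₗ e b)) z = c := by
      change (φ u)⁻¹ * φ (p (e b z)) = c
      rw [hc, map_smul, smul_eq_mul]
      field_simp
    rw [hc, this]
  obtain ⟨f, hf⟩ := hfun
  obtain ⟨a, ha⟩ := hsurj f
  set u' := e b a with hu'
  have hbu' : e b u' = u' := h.idem' b a
  have hfu' : ∀ z, e b z = z → p z = ω z u' • u := by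
    intro z hz
    have h1 := hf z
    rw [hz] at h1
    rw [h1, ha, hu', ← h.self, hz]
  have huu' : ω u u' = 1 := by
    have h1 := hfu' u hbu
    rw [hpu] at h1
    have h2 : (1 - ω u u') • u = 0 := by rw [sub_smul, one_smul, ← h1, sub_self]
    exact (sub_eq_zero.1 ((smul_eq_zero.1 h2).resolve_right hu0)).symm
  have hu'0 : u' ≠ 0 := by
    intro h0
    rw [h0, map_zero] at huu'
    exact zero_ne_one huu'
  -- a generic group element
  have hex : ∀ v, e b v = v → v ≠ 0 → ∃ x, ω u (r x v) ≠ 0 := by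
    intro v hv hv0
    by_contra hcon
    push Not at hcon
    rcases h.falt u v (h.fsum hbu) (h.fsum hv) hcon b with h1 | h1
    · rw [hv] at h1
      exact hv0 h1
    · rw [hbu] at h1
      exact hu0 h1
  obtain ⟨γ, hγ1, hγ2, -⟩ := h.gen u u' u u u u (hex u' hbu' hu'0) (hex u hbu hu0) (hex u hbu hu0)
  obtain ⟨c, hc0, hc⟩ := h.sim γ
  set Z := r γ * (p - p') * r γ⁻¹ with hZ
  have hZg : Z ∈ g := h.conj γ _ hY
  have hrr : ∀ v, r γ (r γ⁻¹ v) = v := h.rr γ
  have hinv : ∀ v w, ω (r γ⁻¹ v) w = c⁻¹ * ω v (r γ w) := by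
    intro v w
    have h1 := hc (r γ⁻¹ v) w
    rw [hrr] at h1
    rw [h1, ← mul_assoc, inv_mul_cancel₀ hc0, one_mul]
  set N := p' * Z * p with hN
  have hNg : N ∈ g := by
    set E : Fin 3 → Module.End K V := ![p, 1 - p - p', p'] with hE
    have hsum : E 0 + E 1 + E 2 = 1 := by
      change p + (1 - p - p') + p' = 1
      abel
    have hmul : ∀ i j, E i * E j = if i = j then E i else 0 := by
      intro i j
      fin_cases i <;> fin_cases j <;>
        simp [hE, mul_sub, sub_mul, hpp, hpp', h12, h21]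
    exact (three_mem h.lie hsum hmul hY hZg).2.1
  have hN2 : N * N = 0 := by
    rw [hN]
    calc p' * Z * p * (p' * Z * p) = p' * Z * (p * p') * Z * p := by noncomm_ring
      _ = 0 := by rw [h12]; simp
  have hru : e b (r γ⁻¹ u) = r γ⁻¹ u := h.fixr γ⁻¹ hbu
  have hNu : ω u (N u) = 2 * c⁻¹ * ω u (r γ u') * ω u (r γ u) := by
    have h1 : N u = p' (r γ (p (r γ⁻¹ u)) - r γ (p' (r γ⁻¹ u))) := by
      change p' (r γ ((p - p') (r γ⁻¹ (p u)))) = _
      rw [hpu]
      rw [LinearMap.sub_apply, map_sub (r γ)]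
    rw [h1, ← hadj, hpu, map_sub]
    have h2 : ω u (r γ (p (r γ⁻¹ u))) = c⁻¹ * ω u (r γ u') * ω u (r γ u) := by
      rw [hfu' _ hru, map_smul, map_smul, smul_eq_mul, hinv]
    have h3 : ω u (r γ (p' (r γ⁻¹ u))) = -(c⁻¹ * ω u (r γ u') * ω u (r γ u)) := by
      have h5 : ω u (r γ (p' (r γ⁻¹ u))) = c * ω (r γ⁻¹ u) (p' (r γ⁻¹ u)) := by
        rw [← hc, hrr]
      have h6 : ω u (r γ⁻¹ u) = -(c⁻¹ * ω u (r γ u)) := by
        rw [h.anti, hinv]
      rw [h5, ← hadj, hfu' _ hru, map_smul, LinearMap.smul_apply, smul_eq_mul, hinv, h6]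
      field_simp
    rw [h2, h3]
    ring
  have hNe : N * e b ≠ 0 := by
    intro h0
    have h1 : (N * e b) u = 0 := by rw [h0]; rfl
    change N (e b u) = 0 at h1
    rw [hbu] at h1
    rw [h1, map_zero] at hNu
    have h2 : (2 : K) * c⁻¹ ≠ 0 := mul_ne_zero (by norm_num) (inv_ne_zero hc0)
    exact (mul_ne_zero (mul_ne_zero h2 hγ1) hγ2) hNu.symm
  have hr : finrank K (LinearMap.range (N * e b)) ≤ 2 := by
    have h1 : finrank K (LinearMap.range (N * e b)) ≤ 1 := by
      apply Pool.Agent.H76F.finrank_range_le_of_line (d := N u)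
      intro z
      obtain ⟨c, hc⟩ := hline z
      refine ⟨c, ?_⟩
      change p' (Z (p (e b z))) = c • p' (Z (p u))
      rw [hc, hpu, map_smul, map_smul]
    omega
  exact h.seed_of_small hNg hN2 hNe hr

end Pool.Agent.H76T
end

-- from Lib.H76T.TE2
section

/-!
# The other primes
-/

set_option autoImplicit false
set_option linter.unusedSectionVars false
namespace Pool.Agent.H76T
open Module Matrix Polynomial Pool.Agent.H53Toric
open Pool.Agent.H76U (IsSplitting split4_of Split4)
open Pool.Agent.H76RM (van spanK similD Seed Setup Split comm_span)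

variable {ι : Type*} [Fintype ι] [DecidableEq ι]
variable {L : Type*} [Field L] {K : Type*} [Field K] [Algebra L K] {G : Type*} [Group G]

theorem om_surj [CharZero K] {J : Matrix ι ι K} (hdet : IsUnit J.det) (f : (ι → K) →ₗ[K] K) :
    ∃ a, ∀ z, f z = om J z a := by
  refine ⟨J⁻¹ *ᵥ (fun i => f (Pi.single i 1)), fun z => ?_⟩
  rw [om_apply, Matrix.mulVec_mulVec, Matrix.mul_nonsing_inv _ hdet, Matrix.one_mulVec]
  have h1 : z = ∑ i, z i • (Pi.single i (1 : K) : ι → K) := by
    ext j
    rw [Finset.sum_apply, Finset.sum_eq_single j]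
    · simp
    · intro i _ hij
      rw [Pi.smul_apply, Pi.single_eq_of_ne hij.symm, smul_zero]
    · intro hj
      exact absurd (Finset.mem_univ j) hj
  nth_rw 1 [h1]
  rw [map_sum]
  simp only [map_smul, smul_eq_mul]
  rfl

theorem diag_pow_gen {P Q : Matrix ι ι K} {d : ι → K} (hPQ : P * Q = 1) (hQP : Q * P = 1)
    (n : ℕ) : (P * Matrix.diagonal d * Q) ^ n = P * Matrix.diagonal (fun k => d k ^ n) * Q := by
  induction n with
  | zero =>
    simp [hPQ]
  | succ n ih =>
    rw [pow_succ, ih]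
    calc P * Matrix.diagonal (fun k => d k ^ n) * Q * (P * Matrix.diagonal d * Q) =
        P * (Matrix.diagonal (fun k => d k ^ n) * (Q * P) * Matrix.diagonal d) * Q := by
          noncomm_ring
      _ = _ := by
        rw [hQP, mul_one, Matrix.diagonal_mul_diagonal]
        simp only [pow_succ]

/-- the element of rank two of the Lie algebra -/
theorem pj_zlie [CharZero K] {S : Set (Matrix ι ι K)} (hS : ∀ a ∈ S, ∀ b ∈ S, a * b ∈ S)
    {x P Q : Matrix ι ι K} {d : ι → K} (hx : x = P * Matrix.diagonal d * Q)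
    (hPQ : P * Q = 1) (hQP : Q * P = 1) (hd : ∀ k, d k ≠ 0) {r : ℕ} (hr : r ≠ 0)
    (hpow : ∀ n : ℕ, x ^ (r * n) ∈ S) {q : ℚ} {F : ℚ[X]} {a : K} (ha0 : a ≠ 0)
    (hroots : ∀ k, aeval (d k) F = 0) (haq : a * a ≠ algebraMap ℚ K q)
    (ha : ∀ n : ℤ, n ≠ 0 → (Units.mk0 a ha0) ^ n ∉ others F q (Units.mk0 a ha0)) :
    pj P Q d a - pj P Q d (algebraMap ℚ K q / a) ∈ zlie S := by
  classical
  set A : Kˣ := Units.mk0 a ha0 with hA
  set B := others F q A with hB
  set a' := algebraMap ℚ K q / a with ha'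
  have haa : a * a' = algebraMap ℚ K q := mul_div_cancel₀ _ ha0
  have hne : a' ≠ a := by
    intro h
    apply haq
    nth_rw 2 [← h]
    exact haa
  let ε : ι → ℤ := fun k => if d k = a then 1 else if d k = a' then -1 else 0
  let D : ι → Kˣ := fun k => Units.mk0 (d k) (hd k)
  have hDd : ∀ k, ((D k : Kˣ) : K) = d k := fun k => rfl
  have h1 : P * Matrix.diagonal (fun k => (ε k : K)) * Q ∈ zlie S := by
    refine torus_zlie hQP hPQ (d := fun k => D k ^ r) hS ?_ (B := B) (a := A ^ r) ?_ ?_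
    · intro n
      have e1 : P * Matrix.diagonal (fun k => ((D k ^ r : Kˣ) : K)) * Q = x ^ r := by
        rw [hx, diag_pow_gen hPQ hQP]
        congr 2
      rw [e1, ← pow_mul]
      exact hpow n
    · intro n hn h2
      rw [← zpow_natCast, ← _root_.zpow_mul] at h2
      exact ha _ (mul_ne_zero (by exact_mod_cast hr) hn) h2
    · intro k
      by_cases h2 : d k = a
      · have e1 : D k = A := Units.ext h2
        have e2 : ε k = 1 := if_pos h2
        rw [e1, e2, zpow_one, mul_inv_cancel]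
        exact B.one_mem
      · by_cases h3 : d k = a'
        · have e2 : ε k = -1 := by
            change (if d k = a then (1 : ℤ) else if d k = a' then -1 else 0) = -1
            rw [if_neg h2, if_pos h3]
          rw [e2, _root_.zpow_neg, zpow_one, inv_inv, ← _root_.mul_pow]
          apply B.pow_mem
          apply Subgroup.subset_closure
          left
          rw [Units.val_mul, hDd, h3, mul_comm]
          exact haa
        · have e2 : ε k = 0 := by
            change (if d k = a then (1 : ℤ) else if d k = a' then -1 else 0) = 0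
            rw [if_neg h2, if_neg h3]
          rw [e2, _root_.zpow_zero, inv_one, mul_one]
          apply B.pow_mem
          apply Subgroup.subset_closure
          right
          refine ⟨hroots k, fun h4 => h2 (congrArg (fun u : Kˣ => (u : K)) h4), fun h4 => h3 ?_⟩
          rw [ha', eq_div_iff ha0]
          exact h4
  have h2 : P * Matrix.diagonal (fun k => (ε k : K)) * Q = pj P Q d a - pj P Q d a' := by
    have e1 : Matrix.diagonal (fun k => (ε k : K)) =
        Matrix.diagonal (fun k => if d k = a then (1 : K) else 0) -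
        Matrix.diagonal (fun k => if d k = a' then (1 : K) else 0) := by
      rw [Matrix.diagonal_sub]
      congr 1
      ext k
      change (((if d k = a then (1 : ℤ) else if d k = a' then -1 else 0) : ℤ) : K) = _
      by_cases h2 : d k = a
      · have h3 : d k ≠ a' := fun h3 => hne (h3.symm.trans h2)
        rw [if_pos h2, if_pos h2, if_neg h3]
        simp
      · by_cases h3 : d k = a'
        · rw [if_neg h2, if_neg h2, if_pos h3, if_pos h3]
          simp
        · rw [if_neg h2, if_neg h2, if_neg h3, if_neg h3]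
          simp
    rw [e1, pj, pj]
    noncomm_ring
  rw [← h2]
  exact h1

end Pool.Agent.H76T
end

-- from Lib.H76T.TE3
section

/-!
# The monodromy group from independent roots
-/

set_option autoImplicit false
set_option linter.unusedSectionVars false
namespace Pool.Agent.H76T
open Module Matrix Polynomial Pool.Agent.H53Toric
open Pool.Agent.H76U (IsSplitting)
open Pool.Agent.H76RM (van spanK similD Seed Setup Split comm_span split_of)

variable {ι : Type*} [Fintype ι] [DecidableEq ι]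
variable {L : Type*} [Field L] {K : Type*} [Field K] [Algebra L K] {G : Type*} [Group G]

/-- the eigenvalues of an element with rational characteristic polynomial -/
theorem diag_data [CharZero L] [CharZero K] (ρ : G →* Matrix.GeneralLinearGroup ι L) {σ : G}
    {F : ℚ[X]} (hF : (ρ σ).1.charpoly = F.map (algebraMap ℚ L))
    (hss : Diagonalisable ((ρ σ).1.map (algebraMap L K))) :
    ∃ (P Q : Matrix ι ι K) (d : ι → K), P * Q = 1 ∧ Q * P = 1 ∧
      (ρ σ).1.map (algebraMap L K) = P * Matrix.diagonal d * Q ∧ (∀ k, d k ≠ 0) ∧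
      F.map (algebraMap ℚ K) = ∏ k, (X - C (d k)) := by
  obtain ⟨P, Q, d₀, hPQ, hQP, hσ⟩ := hss
  refine ⟨P, Q, d₀, hPQ, hQP, hσ, ?_, ?_⟩
  · intro k hk
    set x := (ρ σ).1.map (algebraMap L K) with hx
    have h1 : x * (ρ σ⁻¹).1.map (algebraMap L K) = 1 := img_inv ρ σ
    have h2 : Matrix.diagonal d₀ * (Q * (ρ σ⁻¹).1.map (algebraMap L K) * P) = 1 := by
      calc Matrix.diagonal d₀ * (Q * (ρ σ⁻¹).1.map (algebraMap L K) * P) =
          (Q * P) * Matrix.diagonal d₀ * (Q * (ρ σ⁻¹).1.map (algebraMap L K) * P) := by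
            rw [hQP, one_mul]
        _ = Q * ((P * Matrix.diagonal d₀ * Q) * (ρ σ⁻¹).1.map (algebraMap L K)) * P := by
            noncomm_ring
        _ = 1 := by rw [← hσ, h1, mul_one, hQP]
    have h3 := congrArg (fun m => m k k) h2
    simp only [Matrix.diagonal_mul, hk, zero_mul, Matrix.one_apply_eq] at h3
    exact zero_ne_one h3
  · have h1 : ((ρ σ).1.map (algebraMap L K)).charpoly = F.map (algebraMap ℚ K) := by
      rw [Matrix.charpoly_map, hF, Polynomial.map_map]
      congr 1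
      exact Subsingleton.elim _ _
    rw [← h1, hσ, Matrix.charpoly_mul_comm, ← mul_assoc, hQP, one_mul, Matrix.charpoly_diagonal]

/-- **Fullness from independent roots.** -/
theorem full_other [CharZero L] [CharZero K] [IsAlgClosed K] {ψ : Matrix ι ι ℚ}
    (hψ : ψᵀ = -ψ) (hψ0 : ψ.det ≠ 0) (D : Subalgebra ℚ (Matrix ι ι ℚ))
    (ρ : G →* Matrix.GeneralLinearGroup ι L)
    (lin : ∀ σ : G, ∀ d ∈ D, (ρ σ).1 * d.map (algebraMap ℚ L) =
      d.map (algebraMap ℚ L) * (ρ σ).1)
    (sim : ∀ σ : G, ∃ c : L, (ρ σ).1ᵀ * ψ.map (algebraMap ℚ L) * (ρ σ).1 =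
      c • ψ.map (algebraMap ℚ L))
    (semis : ∀ H : Subgroup G, H.FiniteIndex → ∀ W : Submodule K (ι → K),
      (∀ s ∈ img K ρ H, ∀ w ∈ W, s *ᵥ w ∈ W) →
      ∃ W' : Submodule K (ι → K), (∀ s ∈ img K ρ H, ∀ w ∈ W', s *ᵥ w ∈ W') ∧ IsCompl W W')
    (commt : ∀ H : Subgroup G, H.FiniteIndex → ∀ y : Matrix ι ι K,
      (∀ s ∈ img K ρ H, y * s = s * y) → y ∈ spanK K D)
    {m : ℕ} {e : Fin m → Matrix ι ι K} (hspl : IsSplitting D ψ id e)
    {σ : G} {q : ℚ} (hq0 : q ≠ 0) (hq : ∀ n : ℕ, n ≠ 0 → q ^ n ≠ 1)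
    (hmult : (ρ σ).1ᵀ * ψ.map (algebraMap ℚ L) * (ρ σ).1 =
      algebraMap ℚ L q • ψ.map (algebraMap ℚ L))
    {F : ℚ[X]} (hchar : (ρ σ).1.charpoly = F.map (algebraMap ℚ L))
    (hss : Diagonalisable ((ρ σ).1.map (algebraMap L K)))
    (hind : AllIndep F q (AlgebraicClosure ℚ))
    (hcard : nroots F (AlgebraicClosure ℚ) = ∑ b, (e b).rank)
    (H : Subgroup G) (hH : H.FiniteIndex) : monodromy K ρ H = similD K ψ D := by
  classical
  obtain ⟨hJ, hdet⟩ := gram_basic hψ hψ0 K
  obtain ⟨P, Q, d, hPQ, hQP, hx, hd, hF⟩ := diag_data ρ hchar hss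
  have hsplR : H76RM.IsSplitting D ψ e :=
    ⟨hspl.mem, hspl.idem, hspl.adj, hspl.corner, hspl.orth, hspl.full⟩
  have hspl' := split_of hsplR
  have cyc : ∃ σ : G, ∃ c : L, (ρ σ).1ᵀ * ψ.map (algebraMap ℚ L) * (ρ σ).1 =
      c • ψ.map (algebraMap ℚ L) ∧ ∀ n : ℕ, n ≠ 0 → c ^ n ≠ 1 := by
    refine ⟨σ, algebraMap ℚ L q, hmult, fun n hn h1 => hq n hn ?_⟩
    apply (algebraMap ℚ L).injective
    rw [map_pow, h1, map_one]
  refine monodromy_seed hψ hψ0 D ρ lin sim cyc semis commt hsplR ?_ H hH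
  intro H₀ hfin hprime hsetup b
  set J : Matrix ι ι K := ψ.map (algebraMap ℚ K) with hJdef
  set x := (ρ σ).1.map (algebraMap L K) with hxdef
  have hlinK : ∀ d ∈ D, x * d.map (algebraMap ℚ K) = d.map (algebraMap ℚ K) * x := by
    intro d hd
    have h1 := congrArg (fun m : Matrix ι ι L => m.map (algebraMap L K)) (lin σ d hd)
    have h2 : (d.map (algebraMap ℚ L)).map (algebraMap L K) = d.map (algebraMap ℚ K) := by
      ext i j
      simp
    simp only [Matrix.map_mul] at h1
    rw [h2] at h1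
    exact h1
  have hxD : ∀ d ∈ spanK K D, x * d = d * x := comm_span hlinK
  have hsim : xᵀ * J * x = algebraMap ℚ K q • J := by
    have := sim_map (K := K) hmult
    rwa [show algebraMap L K (algebraMap ℚ L q) = algebraMap ℚ K q by simp] at this
  obtain ⟨r, hr0, -, hr⟩ := Subgroup.exists_pow_mem_of_index_ne_zero
    (H := H₀) (Subgroup.FiniteIndex.index_ne_zero) σ
  have hpow : ∀ n : ℕ, x ^ (r * n) ∈ img K ρ H₀ := by
    intro n
    refine ⟨(σ ^ r) ^ n, H₀.pow_mem hr n, ?_⟩
    rw [← pow_mul, img_pow]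
  -- an eigenvalue on the component
  have hc : ∀ a, pj P Q d a * e b = e b * pj P Q d a := fun a =>
    (pj_comm hx hQP hPQ (hxD _ (hspl'.mem b)).symm a).symm
  have hk : ∃ k, pj P Q d (d k) * e b ≠ 0 := by
    by_contra hcon
    push Not at hcon
    apply hspl.ne_zero b
    calc e b = (∑ a ∈ Finset.univ.image d, pj P Q d a) * e b := by rw [pj_sum hPQ, one_mul]
      _ = 0 := by
        rw [Finset.sum_mul]
        refine Finset.sum_eq_zero fun a ha => ?_
        obtain ⟨k, -, rfl⟩ := Finset.mem_image.1 ha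
        exact hcon k
  obtain ⟨k, hk⟩ := hk
  have hone := mult_one_of_card hspl' hxD hx hPQ hQP
    ((nroots_eq hF).trans hcard) k
  have hrank : (pj P Q d (d k) * e b).rank ≤ 1 := by
    rw [← hone]
    exact Finset.single_le_sum (f := fun b => (pj P Q d (d k) * e b).rank)
      (fun _ _ => Nat.zero_le _) (Finset.mem_univ b)
  set a := d k with ha
  obtain ⟨z₀, hz₀⟩ : ∃ z, (pj P Q d a * e b) *ᵥ z ≠ 0 := by
    by_contra hcon
    push Not at hcon
    apply hk
    apply mat_ext
    intro z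
    rw [hcon z, Matrix.zero_mulVec]
  set u := (pj P Q d a * e b) *ᵥ z₀ with hu
  have hpu : pj P Q d a *ᵥ u = u := by
    rw [hu, Matrix.mulVec_mulVec, ← mul_assoc, pj_mul hQP]
  have hbu : e b *ᵥ u = u := by
    rw [hu, Matrix.mulVec_mulVec, hc, ← mul_assoc, hspl'.idem b]
  have hline : ∀ z, ∃ c : K, pj P Q d a *ᵥ (e b *ᵥ z) = c • u := by
    intro z
    have h1 := (finrank_le_one_iff (K := K)
      (V := LinearMap.range (pj P Q d a * e b).mulVecLin)).1 hrank
    obtain ⟨⟨v, y, hy⟩, hv⟩ := h1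
    obtain ⟨c1, hc1⟩ := hv ⟨u, z₀, rfl⟩
    obtain ⟨c2, hc2⟩ := hv ⟨_, z, rfl⟩
    have hc1' : c1 • v = u := congrArg Subtype.val hc1
    have hc2' : c2 • v = (pj P Q d a * e b) *ᵥ z := congrArg Subtype.val hc2
    have hc10 : c1 ≠ 0 := by
      rintro rfl
      rw [zero_smul] at hc1'
      exact hz₀ hc1'.symm
    refine ⟨c2 * c1⁻¹, ?_⟩
    rw [← hc1', Matrix.mulVec_mulVec, ← hc2', smul_smul, mul_assoc, inv_mul_cancel₀ hc10, mul_one]
  have hak : aeval a F = 0 := (root_iff hF).2 ⟨k, rfl⟩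
  have hall := AllIndep.to hF hd hind
  obtain ⟨hne, hnn⟩ := hall (Units.mk0 a (hd k)) hak
  have ha0 : a ≠ 0 := hd k
  set a' := algebraMap ℚ K q / a with ha'
  have haa : a * a' = algebraMap ℚ K q := mul_div_cancel₀ _ ha0
  have hq0K : algebraMap ℚ K q ≠ 0 := by
    rw [Ne, map_eq_zero]
    exact hq0
  have ha'0 : a' ≠ 0 := div_ne_zero hq0K ha0
  have hne' : a ≠ a' := by
    intro h0
    apply hne
    rw [Units.val_mk0, ← haa, ← h0]
  have hz : pj P Q d a - pj P Q d a' ∈ zlie (img K ρ H₀) :=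
    pj_zlie (img_mul ρ H₀) hx hPQ hQP hd hr0.ne' hpow ha0
      (fun k => (root_iff hF).2 ⟨k, rfl⟩) hne hnn
  have hadj1 : (pj P Q d a)ᵀ * J = J * pj P Q d a' :=
    pj_adj hx hsim hQP hPQ hd haa ha0
  have hadj2 : (pj P Q d a')ᵀ * J = J * pj P Q d a :=
    pj_adj hx hsim hQP hPQ hd (by rw [mul_comm]; exact haa) ha'0
  have homadj : ∀ v w, om J (pj P Q d a *ᵥ v) w = om J v (pj P Q d a' *ᵥ w) := by
    intro v w
    rw [om_apply, om_apply, Matrix.mulVec_mulVec, ← hadj1, ← Matrix.mulVec_mulVec,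
      Matrix.mulVec_transpose, dotProduct_comm v, ← Matrix.dotProduct_mulVec, dotProduct_comm]
  refine seed_root hsetup (p := phi (pj P Q d a)) (p' := phi (pj P Q d a')) ?_ ?_ ?_ ?_ ?_ ?_
    (u := u) hz₀ ?_ ?_ ?_ ?_
  · rw [← map_sub, mem_lieE, skew_iff hdet]
    refine ⟨hz, ?_⟩
    rw [Matrix.transpose_sub, sub_mul, hadj1, hadj2, mul_sub]
    abel
  · rw [← map_mul, pj_mul hQP]
  · rw [← map_mul, pj_mul hQP]
  · rw [← map_mul, pj_mul_ne hQP hne', map_zero]
  · rw [← map_mul, pj_mul_ne hQP hne'.symm, map_zero]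
  · intro v w
    rw [phi_apply, phi_apply]
    exact homadj v w
  · rw [phi_apply]; exact hbu
  · rw [phi_apply]; exact hpu
  · intro z
    obtain ⟨c, hc⟩ := hline z
    exact ⟨c, by rw [phi_apply, phi_apply]; exact hc⟩
  · exact om_surj hdet

end Pool.Agent.H76T
end

-- from Lib.H76V.VA1
section

/-!
# Ranks: self adjoint operators of symplectic spaces, commuting algebras
-/

set_option autoImplicit false
set_option linter.unusedSectionVars false
namespace Pool.Agent.H76V
open Module Matrix Pool.Agent.H53Toric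

section
variable {κ : Type*} [Fintype κ] [DecidableEq κ] {K : Type*} [Field K] [CharZero K]

/-- A self adjoint operator of a symplectic space has even rank. -/
theorem even_rank {J : Matrix κ κ K} (hJ : Jᵀ = -J) (hJd : IsUnit J.det)
    {T : Module.End K (κ → K)} (hT : adjE J T = T) : Even (finrank K (LinearMap.range T)) := by
  classical
  set r := finrank K (LinearMap.range T) with hr
  let w : Basis (Fin r) K (LinearMap.range T) := Module.finBasis K (LinearMap.range T)
  have hv : ∀ i, ∃ v, T v = (w i : κ → K) := fun i => (w i).2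
  choose v hv using hv
  have hadj : ∀ x y, om J (T x) y = om J x (T y) := by
    intro x y
    have h1 := H49M.C0_spec hJd T x y
    rwa [hT] at h1
  have hanti := omega_antisymm (om_alt (J := J) hJ)
  let G : Matrix (Fin r) (Fin r) K := Matrix.of fun i j => om J (v i) (w j : κ → K)
  have hG : Gᵀ = -G := by
    ext i j
    change om J (v j) (w i : κ → K) = -om J (v i) (w j : κ → K)
    rw [← hv i, ← hv j, ← hadj, hanti (T (v j)) (v i)]
  have hdet : G.det ≠ 0 := by
    intro h0
    obtain ⟨c, hc0, hc⟩ := Matrix.exists_mulVec_eq_zero_iff.2 h0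
    apply hc0
    set z : κ → K := ∑ j, c j • v j with hz
    have hTz : T z = ((∑ j, c j • w j : LinearMap.range T) : κ → K) := by
      rw [hz, map_sum]
      simp only [map_smul, hv]
      simp
    have h1 : ∀ i, om J (v i) (T z) = 0 := by
      intro i
      have h2 := congrFun hc i
      rw [hTz]
      simp only [Submodule.coe_sum, Submodule.coe_smul, map_sum, map_smul, smul_eq_mul]
      have h3 : ∑ j, om J (v i) (w j : κ → K) * c j = 0 := h2
      rw [← h3]
      exact Finset.sum_congr rfl fun j _ => mul_comm _ _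
    have h2 : T z = 0 := by
      apply om_nd hJd
      intro x
      obtain ⟨a, h3⟩ : ∃ a : Fin r → K, T x = ∑ i, a i • T (v i) := by
        refine ⟨fun i => w.repr ⟨T x, LinearMap.mem_range_self T x⟩ i, ?_⟩
        have h4 := congrArg (fun u : LinearMap.range T => (u : κ → K))
          (w.sum_repr ⟨T x, LinearMap.mem_range_self T x⟩)
        simp only [Submodule.coe_sum, Submodule.coe_smul] at h4
        simp only [hv]
        exact h4.symm
      clear_value z
      rw [← hadj, h3, map_sum, LinearMap.sum_apply]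
      refine Finset.sum_eq_zero fun i _ => ?_
      rw [map_smul, LinearMap.smul_apply, hadj, h1, smul_zero]
    have h3 : (∑ j, c j • w j : LinearMap.range T) = 0 := by
      apply Subtype.ext
      rw [← hTz, h2]
      rfl
    have h4 := Fintype.linearIndependent_iff.1 w.linearIndependent c h3
    ext j
    exact h4 j
  have h1 := congrArg Matrix.det hG
  rw [Matrix.det_transpose, Matrix.det_neg, Fintype.card_fin] at h1
  by_contra hodd
  rw [Nat.not_even_iff_odd] at hodd
  rw [hodd.neg_one_pow] at h1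
  have h2 : (2 : K) * G.det = 0 := by linear_combination h1
  exact hdet ((mul_eq_zero.1 h2).resolve_left (by norm_num))

end

section
variable {K : Type*} [Field K] [CharZero K] [IsAlgClosed K] {V : Type*} [AddCommGroup V]
  [Module K V] [FiniteDimensional K V] [Nontrivial V]

/-- Two commuting algebras which generate all operators. -/
theorem two_rank' {A₁ A₂ : Subalgebra K (Module.End K V)}
    (hcomm : ∀ X ∈ A₁, ∀ Y ∈ A₂, X * Y = Y * X) (hfull : A₁ ⊔ A₂ = ⊤) :
    ∃ a d : ℕ, finrank K A₁ = a * a ∧ finrank K A₂ = d * d ∧ finrank K V = a * d ∧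
      (∀ N ∈ A₂, ∀ X ∈ A₂, N * X * N = N → a ∣ finrank K (LinearMap.range N)) ∧
      (∀ N ∈ A₁, ∀ X ∈ A₁, N * X * N = N → d ∣ finrank K (LinearMap.range N)) := by
  obtain ⟨a, M, ⟨θ⟩, ha, hV⟩ := H49M.B8_two hcomm hfull
  have hd : finrank K A₂ = finrank K M * finrank K M := by
    have := θ.toLinearEquiv.finrank_eq
    rw [Module.finrank_linearMap] at this
    exact this
  have hV0 : 0 < finrank K V := finrank_pos
  have ha0 : 0 < a := by
    rcases Nat.eq_zero_or_pos a with h | h
    · rw [h, zero_mul] at hV; omega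
    · exact h
  have hM0 : 0 < finrank K M := by
    rcases Nat.eq_zero_or_pos (finrank K M) with h | h
    · rw [h, mul_zero] at hV; omega
    · exact h
  refine ⟨a, finrank K M, ha, hd, hV, ?_, ?_⟩
  · obtain ⟨a', d', h1, h2, h3⟩ := H76T.two_rank hcomm hfull
    have h4 : d' = finrank K M := by
      rw [hd] at h1
      exact (Nat.mul_self_inj.1 h1).symm
    have h5 : a' = a := by
      rw [hV, h4] at h2
      exact (Nat.eq_of_mul_eq_mul_right hM0 h2).symm
    rw [← h5]
    exact h3
  · obtain ⟨a', d', h1, h2, h3⟩ := H76T.two_rank (A₁ := A₂) (A₂ := A₁)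
      (fun X hX Y hY => (hcomm Y hY X hX).symm) (by rw [sup_comm]; exact hfull)
    have h4 : d' = a := by
      rw [ha] at h1
      exact (Nat.mul_self_inj.1 h1).symm
    have h5 : a' = finrank K M := by
      rw [hV, h4, mul_comm a'] at h2
      exact (Nat.eq_of_mul_eq_mul_left ha0 h2).symm
    rw [← h5]
    exact h3

end

end Pool.Agent.H76V
end

-- from Lib.H76V.VA2
section

/-!
# The decomposition of an irreducible symplectic Lie algebra with many involutions
-/

set_option autoImplicit false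
set_option linter.unusedSectionVars false
namespace Pool.Agent.H76V
open Module Matrix Pool.Agent.H53Toric
open Pool.Agent.H76T (IsIdeal Fam tr_skew scalar_skew adjoin_comm)

variable {κ : Type*} [Fintype κ] [DecidableEq κ] {K : Type*} [Field K]

/-- An irreducible Lie algebra of operators, skew for the alternating form with Gram matrix `J`,
such that only the scalars commute with all its involutions. -/
structure Cmp (L : Submodule K (Module.End K (κ → K))) (J : Matrix κ κ K) : Prop where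
  lie : IsLie L
  irr : Irr L
  Jt : Jᵀ = -J
  Jd : IsUnit J.det
  skew : ∀ X ∈ L, adjE J X = -X
  gen : ∀ T : Module.End K (κ → K), (∀ y ∈ L, y * y = 1 → T * y = y * T) → ∃ c : K, T = c • 1

variable [CharZero K] {L : Submodule K (Module.End K (κ → K))} {J : Matrix κ κ K}

theorem Cmp.tr (h : Cmp L J) : ∀ X ∈ L, LinearMap.trace K (κ → K) X = 0 :=
  fun X hX => tr_skew h.Jd (h.skew X hX)

variable [IsAlgClosed K] [Nonempty κ] {m : ℕ} {I : Fin m → Submodule K (Module.End K (κ → K))}

/-- Every minimal ideal contains an involution. -/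
theorem Cmp.inv_mem (h : Cmp L J) (hF : Fam L I) (k : Fin m) : ∃ y ∈ I k, y * y = 1 := by
  by_contra hcon
  push Not at hcon
  apply hF.ne_bot k
  rw [eq_bot_iff]
  intro X hX
  obtain ⟨c, hc⟩ := h.gen X (fun y hy hy2 => by
    have hy0 : y ≠ 0 := by
      rintro rfl
      rw [mul_zero] at hy2
      exact zero_ne_one hy2
    obtain ⟨j, hj⟩ := hF.one h.irr h.tr hy hy0 (a := 0) (b := -1) (by
      rw [hy2]; module)
    have hkj : k ≠ j := by
      rintro rfl
      exact hcon y hj hy2
    exact hF.comm k j hkj X hX y hj)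
  rw [Submodule.mem_bot, hc]
  apply scalar_skew h.Jt h.Jd
  rw [← hc]
  exact h.skew X ((hF.ideal k).1 hX)

theorem Fam.disj (hF : Fam L I) {i j : Fin m} (hij : i ≠ j) {X : Module.End K (κ → K)}
    (hi : X ∈ I i) (hj : X ∈ I j) : X = 0 := by
  have hid : IsIdeal L (I i ⊓ I j) :=
    ⟨inf_le_left.trans (hF.ideal i).1, fun Z hZ Y hY => ⟨(hF.ideal i).2 Z hZ Y hY.1,
      (hF.ideal j).2 Z hZ Y hY.2⟩⟩
  have h1 : X ∈ I i ⊓ I j := ⟨hi, hj⟩
  rcases hF.min i _ hid inf_le_left with h7 | h7
  · rw [h7, Submodule.mem_bot] at h1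
    exact h1
  · rcases hF.min j _ hid inf_le_right with h8 | h8
    · rw [h8, Submodule.mem_bot] at h1
      exact h1
    · exact absurd (hF.inj (h7.symm.trans h8)) hij

/-- The algebra generated by a minimal ideal. -/
abbrev alg (I : Fin m → Submodule K (Module.End K (κ → K))) (j : Fin m) :
    Subalgebra K (Module.End K (κ → K)) :=
  Algebra.adjoin K (I j : Set (Module.End K (κ → K)))

/-- The algebra generated by the other minimal ideals. -/
abbrev calg (I : Fin m → Submodule K (Module.End K (κ → K))) (j : Fin m) :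
    Subalgebra K (Module.End K (κ → K)) :=
  ⨆ i : {i // i ≠ j}, alg I i.1

theorem Fam.calg_comm (hF : Fam L I) (j : Fin m) :
    ∀ X ∈ calg I j, ∀ Y ∈ alg I j, X * Y = Y * X := by
  have h2 : calg I j ≤ Subalgebra.centralizer K (alg I j : Set (Module.End K (κ → K))) := by
    refine iSup_le fun i Y hY => ?_
    rw [Subalgebra.mem_centralizer_iff]
    exact fun X hX => hF.acomm j i.1 i.2.symm X hX Y hY
  intro X hX Y hY
  have h3 := h2 hX
  rw [Subalgebra.mem_centralizer_iff] at h3
  exact (h3 Y hY).symm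

theorem Fam.calg_top (hF : Fam L I) (hirr : Irr L) (j : Fin m) : calg I j ⊔ alg I j = ⊤ := by
  rw [eq_top_iff, ← hF.sup_top hirr]
  refine iSup_le fun i => ?_
  by_cases hij : i = j
  · rw [hij]
    exact le_sup_right
  · exact le_sup_of_le_left (le_iSup (fun i : {i // i ≠ j} => alg I i.1) ⟨i, hij⟩)

theorem mem_calg {i j : Fin m} (hij : i ≠ j) {X : Module.End K (κ → K)} (hX : X ∈ I i) :
    X ∈ calg I j :=
  (le_iSup (fun i : {i // i ≠ j} => alg I i.1) ⟨i, hij⟩) (Algebra.subset_adjoin hX)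

theorem mem_alg {j : Fin m} {X : Module.End K (κ → K)} (hX : X ∈ I j) : X ∈ alg I j :=
  Algebra.subset_adjoin hX

/-- the idempotent of an involution -/
theorem half_idem {y : Module.End K (κ → K)} (hy : y * y = 1) :
    ((1 / 2 : K) • (1 + y)) * ((1 / 2 : K) • (1 + y)) = (1 / 2 : K) • (1 + y) := by
  rw [smul_mul_smul_comm, mul_add, add_mul, add_mul, hy]
  simp only [mul_one, one_mul]
  module

theorem half_rank {y : Module.End K (κ → K)} (hy : y * y = 1)
    (htr : LinearMap.trace K (κ → K) y = 0) :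
    2 * finrank K (LinearMap.range ((1 / 2 : K) • (1 + y))) = finrank K (κ → K) := by
  have h1 := trace_idem (half_idem hy)
  rw [map_smul, map_add, htr, add_zero, LinearMap.trace_one, smul_eq_mul] at h1
  have h2 : (finrank K (κ → K) : K) = 2 * (finrank K (LinearMap.range ((1 / 2 : K) • (1 + y))) : K) := by
    rw [← h1]; ring
  exact_mod_cast h2.symm

/-- The dimensions of the two factors. -/
theorem Cmp.dims (h : Cmp L J) (hF : Fam L I) {i j : Fin m} (hij : i ≠ j) :
    ∃ a d : ℕ, finrank K (calg I j) = a * a ∧ finrank K (alg I j) = d * d ∧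
      finrank K (κ → K) = a * d ∧ Even a ∧ Even d ∧
      (∀ N ∈ alg I j, ∀ X ∈ alg I j, N * X * N = N → a ∣ finrank K (LinearMap.range N)) ∧
      (∀ N ∈ calg I j, ∀ X ∈ calg I j, N * X * N = N →
        d ∣ finrank K (LinearMap.range N)) := by
  obtain ⟨a, d, ha, hd, hV, h1, h2⟩ := two_rank' (Fam.calg_comm hF j) (Fam.calg_top hF h.irr j)
  have hV0 : 0 < finrank K (κ → K) := finrank_pos
  refine ⟨a, d, ha, hd, hV, ?_, ?_, h1, h2⟩
  · obtain ⟨y, hy, hy2⟩ := h.inv_mem hF i
    have hf : (1 / 2 : K) • (1 + y) ∈ calg I j :=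
      Subalgebra.smul_mem _ (Subalgebra.add_mem _ (Subalgebra.one_mem _) (mem_calg hij hy)) _
    have h3 := h2 _ hf 1 (Subalgebra.one_mem _) (by rw [mul_one, half_idem hy2])
    have h4 := half_rank hy2 (h.tr y ((hF.ideal i).1 hy))
    obtain ⟨t, ht⟩ := h3
    rw [ht, hV] at h4
    have hd0 : 0 < d := by
      rcases Nat.eq_zero_or_pos d with h5 | h5
      · rw [h5, mul_zero] at hV; omega
      · exact h5
    have h5 : a = 2 * t := by
      apply Nat.eq_of_mul_eq_mul_left hd0
      rw [mul_comm d a, ← h4]; ring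
    exact ⟨t, by omega⟩
  · obtain ⟨y, hy, hy2⟩ := h.inv_mem hF j
    have hf : (1 / 2 : K) • (1 + y) ∈ alg I j :=
      Subalgebra.smul_mem _ (Subalgebra.add_mem _ (Subalgebra.one_mem _) (mem_alg hy)) _
    have h3 := h1 _ hf 1 (Subalgebra.one_mem _) (by rw [mul_one, half_idem hy2])
    have h4 := half_rank hy2 (h.tr y ((hF.ideal j).1 hy))
    obtain ⟨t, ht⟩ := h3
    rw [ht, hV] at h4
    have ha0 : 0 < a := by
      rcases Nat.eq_zero_or_pos a with h5 | h5
      · rw [h5, zero_mul] at hV; omega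
      · exact h5
    have h5 : d = 2 * t := by
      apply Nat.eq_of_mul_eq_mul_left ha0
      rw [← h4]; ring
    exact ⟨t, by omega⟩

/-- A partner in the same ideal. -/
theorem Cmp.partner (h : Cmp L J) (hF : Fam L I) {j : Fin m} {N : Module.End K (κ → K)}
    (hN : N ∈ I j) (hN2 : N * N = 0) : ∃ X ∈ I j, N * X * N = N := by
  obtain ⟨X, hX, hNX⟩ := exists_partner h.lie h.irr h.tr ((hF.ideal j).1 hN) hN2
  have h1 : X ∈ ⨆ j, I j := by rw [hF.sup]; exact hX
  obtain ⟨f, hfI, hfX⟩ := (Submodule.mem_iSup_iff_exists_finsupp I X).1 h1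
  have hXs : X = f j + ∑ i ∈ Finset.univ.erase j, f i := by
    rw [Finset.add_sum_erase _ _ (Finset.mem_univ j), ← hfX, Finsupp.sum_fintype]
    intro _; rfl
  refine ⟨f j, hfI j, ?_⟩
  have h2 : N * (∑ i ∈ Finset.univ.erase j, f i) * N = 0 := by
    rw [Finset.mul_sum, Finset.sum_mul]
    apply Finset.sum_eq_zero
    intro i hi
    rw [hF.comm j i (Finset.ne_of_mem_erase hi).symm N hN (f i) (hfI i), mul_assoc, hN2,
      mul_zero]
  have h3 := hNX
  rw [hXs, mul_add, add_mul, h2, add_zero] at h3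
  exact h3

end Pool.Agent.H76V
end

-- from Lib.H76V.VA3
section

/-!
# The case of a factor of dimension two
-/

set_option autoImplicit false
set_option linter.unusedSectionVars false
namespace Pool.Agent.H76V
open Module Matrix Pool.Agent.H53Toric
open Pool.Agent.H76T (IsIdeal Fam tr_skew scalar_skew adjoin_comm)

section
variable {K : Type*} [Field K] {V : Type*} [AddCommGroup V] [Module K V]

theorem nm (A B : Module.End K V) : -A * B = -(A * B) := neg_mul A B
theorem mn (A B : Module.End K V) : A * -B = -(A * B) := mul_neg A B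

variable [FiniteDimensional K V]

theorem rank_double {u N p : Module.End K V} (hu : LinearMap.ker u = LinearMap.range p)
    (hup : LinearMap.range u = LinearMap.range p) (hp : p * p = p) (hNu : N * u = u * N)
    (hNp : N * p = p * N) :
    finrank K (LinearMap.range N) = 2 * finrank K (LinearMap.range (u * N)) := by
  have h1 : LinearMap.range (u * N) = (LinearMap.range N).map u := by
    rw [← LinearMap.range_comp]; rfl
  have h2 : LinearMap.range (u * N) = LinearMap.range (p * N) := by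
    rw [← hNu, ← hNp]
    have e1 : LinearMap.range (N * u) = (LinearMap.range u).map N := by
      rw [← LinearMap.range_comp]; rfl
    have e2 : LinearMap.range (N * p) = (LinearMap.range p).map N := by
      rw [← LinearMap.range_comp]; rfl
    rw [e1, e2, hup]
  have h3 : LinearMap.range N ⊓ LinearMap.ker u = LinearMap.range (p * N) := by
    rw [hu]
    apply le_antisymm
    · rintro _ ⟨⟨w, rfl⟩, ⟨z, hz⟩⟩
      refine ⟨w, ?_⟩
      change p (N w) = N w
      rw [← hz]
      exact congrArg (fun f : Module.End K V => f z) hp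
    · rintro _ ⟨w, rfl⟩
      refine ⟨⟨p w, ?_⟩, ⟨N w, rfl⟩⟩
      exact congrArg (fun f : Module.End K V => f w) hNp
  let g : LinearMap.range N →ₗ[K] V := u.domRestrict (LinearMap.range N)
  have h4 : LinearMap.range g = (LinearMap.range N).map u := by
    ext v
    constructor
    · rintro ⟨⟨w, hw⟩, rfl⟩
      exact ⟨w, hw, rfl⟩
    · rintro ⟨w, hw, rfl⟩
      exact ⟨⟨w, hw⟩, rfl⟩
  have h5 : (LinearMap.ker g).map (LinearMap.range N).subtype =
      LinearMap.range N ⊓ LinearMap.ker u := by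
    ext v
    constructor
    · rintro ⟨⟨w, hw⟩, hwk, rfl⟩
      exact ⟨hw, hwk⟩
    · rintro ⟨hw, hwk⟩
      exact ⟨⟨v, hw⟩, hwk, rfl⟩
  have h6 := LinearMap.finrank_range_add_finrank_ker g
  have h7 : finrank K (LinearMap.ker g) = finrank K (LinearMap.range (p * N)) := by
    rw [← h3, ← h5]
    exact (Submodule.finrank_map_subtype_eq _ _).symm
  rw [h7, h4, ← h1, ← h2] at h6
  omega

end

section
variable {κ : Type*} [Fintype κ] [DecidableEq κ] {K : Type*} [Field K]
variable [CharZero K] {L : Submodule K (Module.End K (κ → K))} {J : Matrix κ κ K}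
variable [IsAlgClosed K] [Nonempty κ] {m : ℕ} {I : Fin m → Submodule K (Module.End K (κ → K))}

/-- Every minimal ideal contains an element of square zero. -/
theorem Cmp.nil (h : Cmp L J) (hF : Fam L I) (i : Fin m) : ∃ u ∈ I i, u ≠ 0 ∧ u * u = 0 := by
  obtain ⟨y, hy, hy2⟩ := h.inv_mem hF i
  have hyL := (hF.ideal i).1 hy
  obtain ⟨X, hX, hXy⟩ : ∃ X ∈ L, y * X ≠ X * y := by
    by_contra hcon
    push Not at hcon
    obtain ⟨c, hc⟩ := h.gen y (fun z hz _ => hcon z hz)
    have h1 : y = 0 := by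
      rw [hc]
      apply scalar_skew h.Jt h.Jd
      rw [← hc]
      exact h.skew y hyL
    rw [h1, mul_zero] at hy2
    exact zero_ne_one hy2
  set Z := y * X - X * y with hZ
  have hZ0 : Z ≠ 0 := sub_ne_zero.2 hXy
  have hZI : Z ∈ I i := by
    have h1 := (hF.ideal i).2 X hX y hy
    have h2 : Z = -(X * y - y * X) := by rw [hZ]; abel
    rw [h2]
    exact (I i).neg_mem h1
  have hyZ : y * Z = -(Z * y) := by
    rw [hZ, mul_sub, sub_mul, ← mul_assoc, hy2, one_mul, mul_assoc X y y, hy2, mul_one]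
    noncomm_ring
  have hW : y * Z - Z * y ∈ I i := (hF.ideal i).2 y hyL Z hZI
  -- the two components
  have key : ∀ ε : K, ε * ε = 1 → ((2 : K) • Z + ε • (y * Z - Z * y)) *
      ((2 : K) • Z + ε • (y * Z - Z * y)) = 0 := by
    intro ε hε
    have e1 : y * Z - Z * y = (2 : K) • (y * Z) := by
      have : Z * y = -(y * Z) := by rw [hyZ, neg_neg]
      rw [this, two_smul]; abel
    have hZy : Z * y = -(y * Z) := by rw [hyZ, neg_neg]
    have e2 : y * Z * (y * Z) = -(Z * Z) := by
      calc y * Z * (y * Z) = y * (Z * y) * Z := by noncomm_ring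
        _ = -(y * y * Z * Z) := by rw [hZy, mn, nm]; noncomm_ring
        _ = _ := by rw [hy2, one_mul]
    have e3 : Z * (y * Z) = -(y * Z * Z) := by
      rw [← mul_assoc, hZy, nm]
    rw [e1, smul_smul, mul_add, add_mul, add_mul]
    simp only [smul_mul_assoc, mul_smul_comm, smul_smul]
    rw [e2, e3]
    have e4 : ε * 2 * (ε * 2) = 4 := by linear_combination 4 * hε
    rw [e4]
    module
  by_cases h1 : (2 : K) • Z + (1 : K) • (y * Z - Z * y) = 0
  · refine ⟨(2 : K) • Z + (-1 : K) • (y * Z - Z * y), (I i).add_mem ((I i).smul_mem _ hZI)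
      ((I i).smul_mem _ hW), ?_, key (-1) (by ring)⟩
    intro h2
    apply hZ0
    have h3 : (4 : K) • Z = 0 := by
      calc (4 : K) • Z = ((2 : K) • Z + (1 : K) • (y * Z - Z * y)) +
            ((2 : K) • Z + (-1 : K) • (y * Z - Z * y)) := by module
        _ = 0 := by rw [h1, h2, add_zero]
    exact (smul_eq_zero.1 h3).resolve_left (by norm_num)
  · exact ⟨_, (I i).add_mem ((I i).smul_mem _ hZI) ((I i).smul_mem _ hW), h1, key 1 (by ring)⟩

/-- If the other factors have dimension two, ranks are divisible by four. -/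
theorem Cmp.four (h : Cmp L J) (hF : Fam L I) {i j : Fin m} (hij : i ≠ j) {a : ℕ}
    (ha : finrank K (calg I j) = a * a) (ha2 : a = 2) {N : Module.End K (κ → K)}
    (hN : N ∈ I j) : 4 ∣ finrank K (LinearMap.range N) := by
  obtain ⟨a', d, ha', -, hV, -, -, -, hdvd⟩ := h.dims hF hij
  have haa : a' = 2 := by
    rw [ha', ha2] at ha
    exact Nat.mul_self_inj.1 ha
  rw [haa] at hV
  obtain ⟨u, hu, hu0, hu2⟩ := h.nil hF i
  obtain ⟨X, hX, huX⟩ := h.partner hF hu hu2
  set p := u * X with hp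
  have hpp : p * p = p := by rw [hp, ← mul_assoc, huX]
  have hrange : LinearMap.range u = LinearMap.range p := by
    apply le_antisymm
    · rintro _ ⟨v, rfl⟩
      exact ⟨u v, congrArg (fun f : Module.End K (κ → K) => f v) huX⟩
    · rintro _ ⟨v, rfl⟩
      exact ⟨X v, rfl⟩
  have hle : LinearMap.range u ≤ LinearMap.ker u := by
    rintro _ ⟨v, rfl⟩
    exact congrArg (fun f : Module.End K (κ → K) => f v) hu2
  have hrn := LinearMap.finrank_range_add_finrank_ker u
  have hle' := Submodule.finrank_mono hle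
  have hur : 1 ≤ finrank K (LinearMap.range u) := by
    rw [Nat.one_le_iff_ne_zero]
    intro h0
    rw [Submodule.finrank_eq_zero, LinearMap.range_eq_bot] at h0
    exact hu0 h0
  have hd : d ∣ finrank K (LinearMap.range u) :=
    hdvd u (mem_calg hij hu) X (mem_calg hij hX) huX
  have hd' := Nat.le_of_dvd hur hd
  have hker : LinearMap.ker u = LinearMap.range p := by
    rw [← hrange]
    exact (Submodule.eq_of_le_of_finrank_eq hle (by omega)).symm
  have hNu : N * u = u * N := hF.comm j i hij.symm N hN u hu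
  have hNX : N * X = X * N := hF.comm j i hij.symm N hN X hX
  have hNp : N * p = p * N := by
    rw [hp, ← mul_assoc, hNu, mul_assoc, hNX, mul_assoc]
  rw [rank_double hker hrange hpp hNu hNp]
  have hev : Even (finrank K (LinearMap.range (u * N))) := by
    apply even_rank h.Jt h.Jd
    rw [adjE_mul h.Jd, h.skew N ((hF.ideal j).1 hN), h.skew u ((hF.ideal i).1 hu)]
    exact (neg_mul_neg N u).trans hNu
  obtain ⟨t, ht⟩ := hev
  exact ⟨t, by omega⟩

end

end Pool.Agent.H76V
end

-- from Lib.H76V.VA4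
section

/-!
# Elements acting by scalars on the range of a nilpotent element
-/

set_option autoImplicit false
set_option linter.unusedSectionVars false
namespace Pool.Agent.H76V
open Module Matrix Pool.Agent.H53Toric
open Pool.Agent.H76T (IsIdeal Fam tr_skew scalar_skew adjoin_comm)

variable {κ : Type*} [Fintype κ] [DecidableEq κ] {K : Type*} [Field K]
variable [CharZero K] {L : Submodule K (Module.End K (κ → K))} {J : Matrix κ κ K}
variable [IsAlgClosed K] [Nonempty κ] {m : ℕ} {I : Fin m → Submodule K (Module.End K (κ → K))}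

/-- The operator `X ↦ x X x'`. -/
def cj (x x' : Module.End K (κ → K)) : Module.End K (κ → K) →ₗ[K] Module.End K (κ → K) where
  toFun X := x * X * x'
  map_add' := by
    intro A B
    rw [mul_add, add_mul]
  map_smul' := by
    intro c A
    rw [mul_smul_comm, smul_mul_assoc]; rfl

theorem cj_apply (x x' X : Module.End K (κ → K)) : cj x x' X = x * X * x' := rfl

theorem Fam.move (hF : Fam L I) (hirr : Irr L)
    (htr : ∀ X ∈ L, LinearMap.trace K (κ → K) X = 0) {x x' : Module.End K (κ → K)}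
    (h1 : x * x' = 1) (h2 : x' * x = 1) (hL : ∀ X ∈ L, x * X * x' ∈ L)
    (hL' : ∀ X ∈ L, x' * X * x ∈ L) (i : Fin m) : ∃ k, (I i).comap (cj x' x) = I k := by
  have hxx : ∀ X, x' * (x * X * x') * x = X := by
    intro X
    calc x' * (x * X * x') * x = (x' * x) * X * (x' * x) := by noncomm_ring
      _ = X := by rw [h2, one_mul, mul_one]
  have hxx' : ∀ X, x * (x' * X * x) * x' = X := by
    intro X
    calc x * (x' * X * x) * x' = (x * x') * X * (x * x') := by noncomm_ring
      _ = X := by rw [h1, one_mul, mul_one]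
  have hbr : ∀ Z Y, x' * (Z * Y - Y * Z) * x =
      (x' * Z * x) * (x' * Y * x) - (x' * Y * x) * (x' * Z * x) := by
    have e : ∀ Z Y, (x' * Z * x) * (x' * Y * x) = x' * (Z * Y) * x := by
      intro Z Y
      calc (x' * Z * x) * (x' * Y * x) = x' * Z * (x * x') * Y * x := by noncomm_ring
        _ = _ := by rw [h1, mul_one]; noncomm_ring
    intro Z Y
    rw [e, e, mul_sub, sub_mul]
  have hbr' : ∀ Z Y, x * (Z * Y - Y * Z) * x' =
      (x * Z * x') * (x * Y * x') - (x * Y * x') * (x * Z * x') := by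
    have e : ∀ Z Y, (x * Z * x') * (x * Y * x') = x * (Z * Y) * x' := by
      intro Z Y
      calc (x * Z * x') * (x * Y * x') = x * Z * (x' * x) * Y * x' := by noncomm_ring
        _ = _ := by rw [h2, mul_one]; noncomm_ring
    intro Z Y
    rw [e, e, mul_sub, sub_mul]
  apply hF.of_min hirr htr
  · refine ⟨fun X hX => ?_, fun Z hZ Y hY => ?_⟩
    · have h3 := hL _ ((hF.ideal i).1 hX)
      rw [cj_apply, hxx'] at h3
      exact h3
    · change x' * (Z * Y - Y * Z) * x ∈ I i
      rw [hbr]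
      exact (hF.ideal i).2 _ (hL' Z hZ) _ hY
  · intro h0
    apply hF.ne_bot i
    rw [eq_bot_iff]
    intro X hX
    have h3 : x * X * x' ∈ (I i).comap (cj x' x) := by
      change x' * (x * X * x') * x ∈ I i
      rw [hxx]
      exact hX
    rw [h0, Submodule.mem_bot] at h3
    rw [Submodule.mem_bot, ← hxx X, h3, mul_zero, zero_mul]
  · intro N hN hle
    have hid : IsIdeal L (N.comap (cj x x')) := by
      refine ⟨fun X hX => ?_, fun Z hZ Y hY => ?_⟩
      · have h3 := hL' _ (hN.1 hX)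
        rw [cj_apply, hxx] at h3
        exact h3
      · change x * (Z * Y - Y * Z) * x' ∈ N
        rw [hbr']
        exact hN.2 _ (hL Z hZ) _ hY
    have hle2 : N.comap (cj x x') ≤ I i := by
      intro X hX
      have h3 := hle hX
      change x' * (x * X * x') * x ∈ I i at h3
      rwa [hxx] at h3
    rcases hF.min i _ hid hle2 with h3 | h3
    · left
      rw [eq_bot_iff]
      intro X hX
      have h4 : x' * X * x ∈ N.comap (cj x x') := by
        change x * (x' * X * x) * x' ∈ N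
        rw [hxx']
        exact hX
      rw [h3, Submodule.mem_bot] at h4
      rw [Submodule.mem_bot, ← hxx' X, h4, mul_zero, zero_mul]
    · right
      apply le_antisymm hle
      intro X hX
      have h4 : x' * X * x ∈ N.comap (cj x x') := by
        rw [h3]
        exact hX
      change x * (x' * X * x) * x' ∈ N at h4
      rwa [hxx'] at h4

/-- An element which normalises `L` and acts by scalars on `N` commutes with the other ideals. -/
theorem Cmp.commute (h : Cmp L J) (hF : Fam L I) {j : Fin m} {N : Module.End K (κ → K)}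
    (hN : N ∈ I j) (hN0 : N ≠ 0) {x x' : Module.End K (κ → K)}
    (h1 : x * x' = 1) (h2 : x' * x = 1) (hL : ∀ X ∈ L, x * X * x' ∈ L)
    (hL' : ∀ X ∈ L, x' * X * x ∈ L) {c c' : K} (hc : c ≠ 0) (hc' : c' ≠ 0)
    (hxN : x * N = c • N) (hNx : N * x = c' • N) : ∀ z ∈ calg I j, x * z = z * x := by
  have hx'N : x' * N = c⁻¹ • N := by
    have h3 : x' * (x * N) = c • (x' * N) := by rw [hxN, mul_smul_comm]
    rw [← mul_assoc, h2, one_mul] at h3
    rw [h3, smul_smul, inv_mul_cancel₀ hc, one_smul, ← h3]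
  have hconjN : x' * N * x = (c⁻¹ * c') • N := by
    rw [hx'N, smul_mul_assoc, hNx, smul_smul]
  -- conjugation preserves the complement
  have hpres : ∀ z ∈ calg I j, x * z * x' ∈ calg I j := by
    have hgen : ∀ i, i ≠ j → ∀ X ∈ I i, x * X * x' ∈ calg I j := by
      intro i hij X hX
      obtain ⟨k, hk⟩ := Fam.move hF h.irr h.tr h1 h2 hL hL' i
      have hX' : x * X * x' ∈ I k := by
        rw [← hk]
        change x' * (x * X * x') * x ∈ I i
        have : x' * (x * X * x') * x = X := by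
          calc x' * (x * X * x') * x = (x' * x) * X * (x' * x) := by noncomm_ring
            _ = X := by rw [h2, one_mul, mul_one]
        rw [this]
        exact hX
      apply mem_calg _ hX'
      rintro rfl
      have h3 : N ∈ (I i).comap (cj x' x) := by rw [hk]; exact hN
      change x' * N * x ∈ I i at h3
      rw [hconjN] at h3
      have h4 : (c⁻¹ * c') • N = 0 := Fam.disj hF hij h3 ((I k).smul_mem _ hN)
      exact hN0 ((smul_eq_zero.1 h4).resolve_left (mul_ne_zero (inv_ne_zero hc) hc'))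
    let S : Subalgebra K (Module.End K (κ → K)) :=
      { carrier := {z | x * z * x' ∈ calg I j}
        mul_mem' := by
          intro a b ha hb
          have e : x * (a * b) * x' = (x * a * x') * (x * b * x') := by
            calc x * (a * b) * x' = x * a * 1 * b * x' := by noncomm_ring
              _ = _ := by rw [← h2]; noncomm_ring
          change x * (a * b) * x' ∈ calg I j
          rw [e]
          exact Subalgebra.mul_mem _ ha hb
        add_mem' := by
          intro a b ha hb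
          change x * (a + b) * x' ∈ calg I j
          rw [mul_add, add_mul]
          exact Subalgebra.add_mem _ ha hb
        algebraMap_mem' := by
          intro r
          change x * (algebraMap K _ r) * x' ∈ calg I j
          rw [← Algebra.commutes r x, mul_assoc, h1, mul_one]
          exact Subalgebra.algebraMap_mem _ r }
    have hS : calg I j ≤ S := by
      refine iSup_le fun i => Algebra.adjoin_le fun X hX => ?_
      exact hgen i.1 i.2 X hX
    exact fun z hz => hS hz
  have hcN : ∀ z ∈ calg I j, z * N = N * z := fun z hz =>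
    Fam.calg_comm hF j z hz N (mem_alg hN)
  -- elements of the complement killing `N` vanish
  have hzero : ∀ z ∈ calg I j, z * N = 0 → z = 0 := by
    intro z hz hzN
    let W : Submodule K (κ → K) :=
      { carrier := {v | ∀ w ∈ calg I j, z (w v) = 0}
        zero_mem' := fun w _ => by rw [map_zero, map_zero]
        add_mem' := fun {a b} ha hb w hw => by rw [map_add, map_add, ha w hw, hb w hw, add_zero]
        smul_mem' := fun t a ha w hw => by rw [map_smul, map_smul, ha w hw, smul_zero] }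
    have hW : W = ⊥ ∨ W = ⊤ := by
      apply h.irr
      intro X hX
      rw [← hF.sup] at hX
      induction hX using Submodule.iSup_induction' with
      | mem i X hX =>
        intro v hv w hw
        by_cases hij : i = j
        · have h3 : z * (w * X) = X * (z * w) := by
            rw [hij] at hX
            rw [Fam.calg_comm hF j w hw X (mem_alg hX), ← mul_assoc,
              Fam.calg_comm hF j z hz X (mem_alg hX), mul_assoc]
          have h4 := congrArg (fun f : Module.End K (κ → K) => f v) h3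
          change z (w (X v)) = X (z (w v)) at h4
          rw [h4, hv w hw, map_zero]
        · exact hv (w * X) (Subalgebra.mul_mem _ hw (mem_calg hij hX))
      | zero => intro v _ w _; rw [LinearMap.zero_apply, map_zero, map_zero]
      | add a b _ _ ha hb =>
        intro v hv
        exact W.add_mem (ha v hv) (hb v hv)
    obtain ⟨v, hv⟩ : ∃ v, N v ≠ 0 := by
      by_contra hcon
      push Not at hcon
      apply hN0
      apply LinearMap.ext
      intro v
      rw [hcon v]; rfl
    have hNv : N v ∈ W := by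
      intro w hw
      have h3 : z * (w * N) = 0 := by
        rw [hcN w hw, ← mul_assoc, hzN, zero_mul]
      exact congrArg (fun f : Module.End K (κ → K) => f v) h3
    rcases hW with hW | hW
    · rw [hW, Submodule.mem_bot] at hNv
      exact absurd hNv hv
    · apply LinearMap.ext
      intro u
      have h3 : u ∈ W := by rw [hW]; trivial
      exact h3 1 (Subalgebra.one_mem _)
  intro z hz
  have h3 : (x * z * x' - z) * N = 0 := by
    rw [sub_mul, mul_assoc, hx'N, mul_smul_comm, mul_assoc, hcN z hz, ← mul_assoc, hxN,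
      smul_mul_assoc, smul_smul, inv_mul_cancel₀ hc, one_smul, sub_self]
  have h4 := hzero _ (Subalgebra.sub_mem _ (hpres z hz) hz) h3
  have h5 : x * z * x' = z := sub_eq_zero.1 h4
  calc x * z = x * z * (x' * x) := by rw [h2, mul_one]
    _ = (x * z * x') * x := by noncomm_ring
    _ = z * x := by rw [h5]

/-- Idempotents commuting with the complement. -/
theorem Cmp.idem_dvd (h : Cmp L J) (hF : Fam L I) {j : Fin m} {a : ℕ}
    (ha : finrank K (calg I j) = a * a) {p : Module.End K (κ → K)} (hp : p * p = p)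
    (hc : ∀ z ∈ calg I j, p * z = z * p) : a ∣ finrank K (LinearMap.range p) := by
  let A₂ : Subalgebra K (Module.End K (κ → K)) :=
    Subalgebra.centralizer K (calg I j : Set (Module.End K (κ → K)))
  have hcomm : ∀ X ∈ calg I j, ∀ Y ∈ A₂, X * Y = Y * X := by
    intro X hX Y hY
    exact (Subalgebra.mem_centralizer_iff K).1 hY X hX
  have hle : alg I j ≤ A₂ := by
    intro Y hY
    rw [Subalgebra.mem_centralizer_iff]
    exact fun X hX => Fam.calg_comm hF j X hX Y hY
  have hfull : calg I j ⊔ A₂ = ⊤ := by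
    rw [eq_top_iff, ← Fam.calg_top hF h.irr j]
    exact sup_le_sup_left hle _
  obtain ⟨a', d', ha', -, -, h1, -⟩ := two_rank' hcomm hfull
  have haa : a' = a := by
    rw [ha] at ha'
    exact (Nat.mul_self_inj.1 ha').symm
  rw [← haa]
  refine h1 p ?_ 1 (Subalgebra.one_mem _) (by rw [mul_one, hp])
  rw [Subalgebra.mem_centralizer_iff]
  exact fun z hz => (hc z hz).symm

end Pool.Agent.H76V
end

-- from Lib.H76V.VA5
section

/-!
# The component theorem
-/

set_option autoImplicit false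
set_option linter.unusedSectionVars false
namespace Pool.Agent.H76V
open Module Matrix Pool.Agent.H53Toric
open Pool.Agent.H76T (IsIdeal Fam tr_skew scalar_skew exists_fam)

variable {κ : Type*} [Fintype κ] [DecidableEq κ] {K : Type*} [Field K]
variable [CharZero K] {L : Submodule K (Module.End K (κ → K))} {J : Matrix κ κ K}
variable [IsAlgClosed K] [Nonempty κ]

theorem four_dvd_centralBinom {k : ℕ} (hk : 3 ≤ k) (hko : Odd k) : 4 ∣ k.centralBinom := by
  obtain ⟨n, rfl⟩ : ∃ n, k = n + 1 := ⟨k - 1, by omega⟩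
  have h1 := Nat.succ_mul_centralBinom_succ n
  obtain ⟨t, ht⟩ := Nat.two_dvd_centralBinom_of_one_le (n := n) (by omega)
  have h2 : 4 ∣ (n + 1) * (n + 1).centralBinom := by
    rw [h1, ht]
    exact ⟨(2 * n + 1) * t, by ring⟩
  have h3 : Nat.Coprime 4 (n + 1) := by
    have : Nat.Coprime (2 ^ 2) (n + 1) :=
      Nat.Coprime.pow_left 2 ((Nat.coprime_two_left).2 hko)
    exact this
  exact h3.dvd_of_dvd_mul_left h2

/-- the simple case -/
theorem Cmp.simple (h : Cmp L J) {I : Fin 1 → Submodule K (Module.End K (κ → K))}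
    (hF : Fam L I) :
    (∀ X : Module.End K (κ → K), adjE J X = -X → X ∈ L) ∨
    (∃ m : ℕ, 5 ≤ m ∧ (m % 4 = 1 ∨ m % 4 = 2) ∧ finrank K (κ → K) = 2 ^ m ∧
      ∀ N ∈ L, N * N = 0 → N ≠ 0 → 4 * finrank K (LinearMap.range N) = finrank K (κ → K) ∨
        2 * finrank K (LinearMap.range N) = finrank K (κ → K)) ∨
    (∃ k : ℕ, 3 ≤ k ∧ Odd k ∧ finrank K (κ → K) = k.centralBinom ∧
      ∀ N ∈ L, N * N = 0 → N ≠ 0 →
        finrank K (LinearMap.range N) = (k - 1).centralBinom) := by
  have hL : I 0 = L := by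
    rw [← hF.sup]
    apply le_antisymm
    · exact le_iSup I 0
    · apply iSup_le
      intro j
      rw [Subsingleton.elim j 0]
  obtain ⟨y, hy, hy2⟩ := h.inv_mem hF 0
  have hcore : H49M.Core L (om J) (adjE J) :=
    { lie := h.lie
      irr := h.irr
      simple := fun M hM hM' => by
        have h1 := hF.min 0 M ⟨hM, hM'⟩ (by rw [hL]; exact hM)
        rwa [hL] at h1
      alt := om_alt h.Jt
      nd := by
        intro v hv
        apply om_nd h.Jd
        intro w
        rw [omega_antisymm (om_alt h.Jt), hv, neg_zero]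
      spec := H49M.C0_spec h.Jd
      skew := h.skew }
  exact H49M.coreR hcore ((hF.ideal 0).1 hy) hy2

/-- **The component theorem.** -/
theorem Cmp.full (h : Cmp L J) (hcase : ¬ 4 ∣ Fintype.card κ ∨
      ((∃ N ∈ L, N * N = 0 ∧ N ≠ 0 ∧
        ∀ a : ℕ, Even a → 2 * a ∣ Fintype.card κ → a ∣ finrank K (LinearMap.range N) →
        (a = 2 → 4 ∣ finrank K (LinearMap.range N)) →
        ∃ (x x' : Module.End K (κ → K)) (c c' : K) (p : Module.End K (κ → K)),
          x * x' = 1 ∧ x' * x = 1 ∧ (∀ X ∈ L, x * X * x' ∈ L) ∧ (∀ X ∈ L, x' * X * x ∈ L) ∧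
          c ≠ 0 ∧ c' ≠ 0 ∧ x * N = c • N ∧ N * x = c' • N ∧ p * p = p ∧
          (∀ T, T * x = x * T → T * p = p * T) ∧ ¬ a ∣ finrank K (LinearMap.range p)) ∧
      (∀ m : ℕ, 5 ≤ m → (m % 4 = 1 ∨ m % 4 = 2) → Fintype.card κ = 2 ^ m →
        ∃ N ∈ L, N * N = 0 ∧ N ≠ 0 ∧ 4 * finrank K (LinearMap.range N) ≠ Fintype.card κ ∧
        2 * finrank K (LinearMap.range N) ≠ Fintype.card κ) ∧
      (∀ k : ℕ, 3 ≤ k → Odd k → Fintype.card κ = k.centralBinom →
        ∃ N ∈ L, N * N = 0 ∧ N ≠ 0 ∧ finrank K (LinearMap.range N) ≠ (k - 1).centralBinom)))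
    {X : Module.End K (κ → K)} (hX : adjE J X = -X) : X ∈ L := by
  classical
  have hcard : finrank K (κ → K) = Fintype.card κ := Module.finrank_fintype_fun_eq_card K
  obtain ⟨m, I, hF⟩ := exists_fam h.lie h.irr h.tr
  rcases Nat.lt_or_ge m 1 with hm | hm
  · -- no ideals
    have hm0 : m = 0 := by omega
    subst hm0
    have hL : L = ⊥ := by
      rw [← hF.sup]
      exact iSup_of_empty I
    obtain ⟨c, hc⟩ := h.gen X (fun y hy hy2 => by
      rw [hL, Submodule.mem_bot] at hy
      rw [hy, mul_zero] at hy2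
      exact absurd hy2 zero_ne_one)
    have h1 : X = 0 := by
      rw [hc]
      apply scalar_skew h.Jt h.Jd
      rw [← hc]
      exact hX
    rw [h1]
    exact L.zero_mem
  rcases Nat.lt_or_ge m 2 with hm2 | hm2
  · -- the simple case
    have hm1 : m = 1 := by omega
    subst hm1
    rcases h.simple hF with h1 | ⟨m, hm5, hm4, hd, hN⟩ | ⟨k, hk3, hko, hd, hN⟩
    · exact h1 X hX
    · exfalso
      rw [hcard] at hd
      rcases hcase with h4 | ⟨-, hr, -⟩
      · apply h4
        rw [hd]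
        exact ⟨2 ^ (m - 2), by
          have : m = 2 + (m - 2) := by omega
          nth_rw 1 [this]
          rw [pow_add]; norm_num⟩
      · obtain ⟨N, hNL, hN2, hN0, hr1, hr2⟩ := hr m hm5 hm4 hd
        rcases hN N hNL hN2 hN0 with h2 | h2
        · exact hr1 (by rw [← hcard]; exact h2)
        · exact hr2 (by rw [← hcard]; exact h2)
    · exfalso
      rw [hcard] at hd
      rcases hcase with h4 | ⟨-, -, hr⟩
      · apply h4
        rw [hd]
        exact four_dvd_centralBinom hk3 hko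
      · obtain ⟨N, hNL, hN2, hN0, hr1⟩ := hr k hk3 hko hd
        exact hr1 (hN N hNL hN2 hN0)
  · -- several ideals
    exfalso
    rcases hcase with h4 | ⟨⟨N, hNL, hN2, hN0, hr⟩, -, -⟩
    · obtain ⟨a, d, -, -, hV, ⟨s, hs⟩, ⟨t, ht⟩, -, -⟩ := h.dims hF
        (i := ⟨1, by omega⟩) (j := ⟨0, by omega⟩) (by simp)
      apply h4
      rw [← hcard, hV, hs, ht]
      exact ⟨s * t, by ring⟩
    · obtain ⟨j, hj⟩ := hF.one h.irr h.tr hNL hN0 (a := 0) (b := 0) (by
        rw [hN2, zero_smul, zero_smul, add_zero, add_zero])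
      obtain ⟨i, hij⟩ : ∃ i : Fin m, i ≠ j := by
        by_cases hj0 : j = ⟨0, by omega⟩
        · refine ⟨⟨1, by omega⟩, ?_⟩
          rw [hj0]
          simp
        · exact ⟨⟨0, by omega⟩, fun e => hj0 e.symm⟩
      obtain ⟨a, d, ha, -, hV, hae, ⟨t, ht⟩, h1, -⟩ := h.dims hF hij
      obtain ⟨X', hX', hNX⟩ := h.partner hF hj hN2
      have hdvd : a ∣ finrank K (LinearMap.range N) :=
        h1 N (mem_alg hj) X' (mem_alg hX') hNX
      obtain ⟨x, x', c, c', p, e1, e2, e3, e4, hc, hc', e5, e6, hp, hpx, hnd⟩ := hr a hae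
        (by rw [← hcard, hV, ht]; exact ⟨t, by ring⟩) hdvd
        (fun ha2 => h.four hF hij ha ha2 hj)
      apply hnd
      refine h.idem_dvd hF ha hp fun z hz => ?_
      have h3 := h.commute hF hj hN0 e1 e2 e3 e4 hc hc' e5 e6 z hz
      exact (hpx z h3.symm).symm

end Pool.Agent.H76V
end

-- from Lib.H76V.VB1
section

/-!
# The component theorem for a component of the Lie algebra of a closure, many cocharacters
-/

set_option autoImplicit false
set_option linter.unusedSectionVars false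
namespace Pool.Agent.H76V
open Module Matrix Polynomial Pool.Agent.H53Toric Pool.Agent.H76U Pool.Agent.H76F
open Pool.Agent.H76RM (zar_commute zlie_commute van)
open Pool.Agent.H76T (Lc mem_Lc)

variable {ι : Type*} [Fintype ι] [DecidableEq ι] {K : Type*} [Field K]

/-- The closure of `S`, a group acting by conjugation, and a set of idempotents which
generate. -/
structure SH (S : Set (Matrix ι ι K)) (J : Matrix ι ι K) (DD : Submodule K (Matrix ι ι K))
    {Γ : Type*} [Group Γ] (r : Γ →* Matrix ι ι K) (𝓗 : Set (Matrix ι ι K)) : Prop where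
  one : (1 : Matrix ι ι K) ∈ S
  SD : ∀ s ∈ S, ∀ d ∈ DD, s * d = d * s
  semis : ∀ W : Submodule K (ι → K), (∀ s ∈ S, ∀ w ∈ W, s *ᵥ w ∈ W) →
      ∃ W' : Submodule K (ι → K), (∀ s ∈ S, ∀ w ∈ W', s *ᵥ w ∈ W') ∧ IsCompl W W'
  commt : ∀ y : Matrix ι ι K, (∀ s ∈ S, y * s = s * y) → y ∈ DD
  cnj : ∀ γ, ∀ f ∈ van S, ∀ s ∈ S, ev (r γ * s * r γ⁻¹) f = 0
  sim : ∀ γ, ∃ c : K, c ≠ 0 ∧ (r γ)ᵀ * J * r γ = c • J
  rD : ∀ γ, ∀ d ∈ DD, r γ * d = d * r γ
  hz : ∀ x ∈ 𝓗, x ∈ zlie S
  hi : ∀ x ∈ 𝓗, x * x = x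
  hs : ∀ x ∈ 𝓗, xᵀ * J + J * x = J
  gen : S ⊆ zar (Submonoid.closure {m | ∃ h ∈ 𝓗, ∃ t : K, t ≠ 0 ∧
    m = 1 + (t - 1) • h} : Set (Matrix ι ι K))

namespace SH

variable [CharZero K] {S : Set (Matrix ι ι K)} {J : Matrix ι ι K}
    {DD : Submodule K (Matrix ι ι K)}
    {Γ : Type*} [Group Γ] {r : Γ →* Matrix ι ι K} {𝓗 : Set (Matrix ι ι K)}
    (g : SH S J DD r 𝓗)
include g

theorem rr (γ : Γ) : r γ * r γ⁻¹ = 1 := by rw [← map_mul, mul_inv_cancel, map_one]


theorem zlie_r (γ : Γ) {A : Matrix ι ι K} (hA : A ∈ zlie S) : r γ * A * r γ⁻¹ ∈ zlie S := by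
  refine zlie_conj' (g.rr γ) (g.cnj γ) ?_ hA
  have := g.cnj γ⁻¹
  rw [inv_inv] at this
  exact this

theorem preL_r (γ : Γ) {A : Matrix ι ι K} {d : K} (hA : ∃ c : K, ∃ C ∈ zlie S, A = C + c • 1)
    (hd : Aᵀ * J + J * A = d • J) :
    (∃ c : K, ∃ C ∈ zlie S, r γ * A * r γ⁻¹ = C + c • 1) ∧
      (r γ * A * r γ⁻¹)ᵀ * J + J * (r γ * A * r γ⁻¹) = d • J := by
  obtain ⟨c, C, hC, rfl⟩ := hA
  obtain ⟨s, hs0, hs⟩ := g.sim γ
  refine ⟨⟨c, r γ * C * r γ⁻¹, g.zlie_r γ hC, ?_⟩, H76F.conj_sim (g.rr γ) hs hd⟩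
  rw [mul_add, add_mul, mul_smul_comm, mul_one, smul_mul_assoc, g.rr γ]

end SH

section
variable [CharZero K] {B : Type*} [Fintype B] [DecidableEq B]
    {J : Matrix ι ι K} {DD : Submodule K (Matrix ι ι K)}
    {bar : B → B} {e : B → Matrix ι ι K} (h : Split4 J DD bar e) {b : B} (hb : bar b = b)
    (hJ : Jᵀ = -J) (hdet : IsUnit J.det)
    {n : ℕ} {P : Matrix ι (Fin n) K} {Q : Matrix (Fin n) ι K}
    (hPQ : e b = P * Q) (hQP : Q * P = 1)
    {S : Set (Matrix ι ι K)}
    {Γ : Type*} [Group Γ] {r : Γ →* Matrix ι ι K} {𝓗 : Set (Matrix ι ι K)}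
    (g : SH S J DD r 𝓗)

include h g in
theorem preL_ec {A : Matrix ι ι K} (hA : A ∈ preL J S) : A * e b = e b * A :=
  preL_commute g.one (fun s hs => g.SD s hs _ (h.mem b)) hA

include h hb hJ hdet hPQ hQP g in
theorem cmp_comp [IsAlgClosed K] (hn : 0 < n) : Cmp (Lc J S P Q) (Pᵀ * J * P) := by
  have hpJ : (e b)ᵀ * J = J * e b := by
    have := h.adj b
    rwa [hb] at this
  have hdb := det_cmp hPQ hQP hpJ hdet
  have hJb : (Pᵀ * J * P)ᵀ = -(Pᵀ * J * P) := by
    rw [Matrix.transpose_mul, Matrix.transpose_mul, Matrix.transpose_transpose, hJ,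
      Matrix.neg_mul, Matrix.mul_neg, Matrix.mul_assoc]
  have hamb : Amb (Lb J S P Q) (adjE (Pᵀ * J * P)) :=
    amb_comp h hb hJ hdet hPQ hQP g.one g.SD g.semis g.commt g.hz g.hi g.hs g.gen
  have : Nonempty (Fin n) := ⟨⟨0, hn⟩⟩
  have hsk : ∀ X Y : Module.End K (Fin n → K), adjE (Pᵀ * J * P) X = -X →
      adjE (Pᵀ * J * P) Y = -Y → adjE (Pᵀ * J * P) (X * Y - Y * X) = -(X * Y - Y * X) := by
    intro X Y h1 h2
    rw [map_sub, adjE_mul hdb, adjE_mul hdb, h1, h2]
    have e1 : (-Y) * (-X) = Y * X := neg_mul_neg Y X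
    have e2 : (-X) * (-Y) = X * Y := neg_mul_neg X Y
    rw [neg_sub]
    exact congrArg₂ (· - ·) e1 e2
  refine ⟨?_, ?_, hJb, hdb, fun X hX => hX.2, ?_⟩
  · intro X hX Y hY
    exact ⟨hamb.lie X hX.1 Y hY.1, hsk X Y hX.2 hY.2⟩
  · intro W hW
    exact hamb.irr W (fun y hy w hw => hW y ⟨hy.1, hy.2.2⟩ w hw)
  · intro T hT
    obtain ⟨c, hc⟩ := Module.End.exists_eigenvalue T
    refine ⟨c, ?_⟩
    have h1 : Module.End.eigenspace T c = ⊤ := by
      rcases hamb.irr (Module.End.eigenspace T c) (fun y hy w hw => by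
        rw [Module.End.mem_eigenspace_iff] at hw ⊢
        have h2 := hT y ⟨hy.1, hy.2.2⟩ hy.2.1
        have h3 := congrArg (fun f : Module.End K (Fin n → K) => f w) h2
        change T (y w) = y (T w) at h3
        rw [h3, hw, map_smul]) with h2 | h2
      · exact absurd h2 hc
      · exact h2
    apply LinearMap.ext
    intro w
    have h2 : w ∈ Module.End.eigenspace T c := by rw [h1]; trivial
    rw [Module.End.mem_eigenspace_iff] at h2
    exact h2

include h hb hdet hPQ hQP g in
/-- compression of a matrix of square zero -/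
theorem nil_mem {N : Matrix ι ι K} (hN : H76T.Nil S J N) :
    phi (cmp P Q N) ∈ Lc J S P Q ∧ phi (cmp P Q N) * phi (cmp P Q N) = 0 ∧
      finrank K (LinearMap.range (phi (cmp P Q N))) = (N * e b).rank ∧
      (N * e b ≠ 0 → phi (cmp P Q N) ≠ 0) := by
  have hpJ : (e b)ᵀ * J = J * e b := by
    have := h.adj b
    rwa [hb] at this
  have hdb := det_cmp hPQ hQP hpJ hdet
  obtain ⟨hNz, hNs, hN2⟩ := hN
  have hNL : N ∈ preL J S :=
    ⟨⟨0, N, hNz, by rw [zero_smul, add_zero]⟩, 0, by rw [hNs, zero_smul]⟩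
  have hNe := preL_ec (b := b) h g hNL
  refine ⟨⟨mem_Lb.2 ⟨N, hNL, rfl⟩, ?_⟩, ?_, ?_, ?_⟩
  · rw [skew_iff hdb, cmp_sim hPQ hQP hpJ hNe, hNs, Matrix.mul_zero, Matrix.zero_mul]
  · rw [← map_mul, ← cmp_mul hPQ hQP hNe, hN2, map_zero, map_zero]
  · change (cmp P Q N).rank = _
    exact rank_cmp hPQ hQP hNe
  · intro hne h0
    apply hne
    have h1 : cmp P Q N = 0 := by
      apply (phi (ι := Fin n) (K := K)).injective
      rw [h0, map_zero]
    have h2 : N * e b = (P * cmp P Q N) * Q := by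
      rw [P_cmp hPQ hQP hNe, Matrix.mul_assoc, ← hPQ]
    rw [h2, h1, Matrix.mul_zero, Matrix.zero_mul]

include h hPQ hQP g in
theorem cmp_rr (γ : Γ) : cmp P Q (r γ) * cmp P Q (r γ⁻¹) = 1 := by
  rw [← cmp_mul hPQ hQP (g.rD γ⁻¹ _ (h.mem b)), g.rr γ, cmp_one hPQ hQP]

include h hb hdet hPQ hQP g in
/-- conjugation by an element of the group preserves the Lie algebra of the component -/
theorem conj_mem (γ : Γ) {X : Module.End K (Fin n → K)} (hX : X ∈ Lc J S P Q) :
    phi (cmp P Q (r γ)) * X * phi (cmp P Q (r γ⁻¹)) ∈ Lc J S P Q := by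
  have hpJ : (e b)ᵀ * J = J * e b := by
    have := h.adj b
    rwa [hb] at this
  have hdb := det_cmp hPQ hQP hpJ hdet
  obtain ⟨h1, h2⟩ := hX
  obtain ⟨x, rfl⟩ := (phi (ι := Fin n) (K := K)).surjective X
  obtain ⟨A, hA, rfl⟩ := mem_Lb.1 h1
  have hAe := preL_ec (b := b) h g hA
  obtain ⟨hA1, d, hd⟩ := hA
  obtain ⟨h3, h4⟩ := g.preL_r γ hA1 hd
  have hconj : r γ * A * r γ⁻¹ ∈ preL J S := ⟨h3, d, h4⟩
  have hce := preL_ec (b := b) h g hconj
  have e1 : phi (cmp P Q (r γ)) * phi (cmp P Q A) * phi (cmp P Q (r γ⁻¹)) =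
      phi (cmp P Q (r γ * A * r γ⁻¹)) := by
    rw [← map_mul, ← map_mul, cmp_mul hPQ hQP (g.rD _ _ (h.mem b)), cmp_mul hPQ hQP hAe]
  rw [e1]
  refine ⟨mem_Lb.2 ⟨_, hconj, rfl⟩, ?_⟩
  rw [skew_iff hdb] at h2 ⊢
  rw [cmp_sim hPQ hQP hpJ hAe, hd] at h2
  rw [cmp_sim hPQ hQP hpJ hce, h4]
  exact h2

include h hPQ hQP g in
/-- polynomials in an element of the group -/
theorem aeval_comm (γ : Γ) (f : K[X]) :
    (aeval (r γ) f) * e b = e b * aeval (r γ) f ∧
    ∀ T : Module.End K (Fin n → K), T * phi (cmp P Q (r γ)) = phi (cmp P Q (r γ)) * T →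
      T * phi (cmp P Q (aeval (r γ) f)) = phi (cmp P Q (aeval (r γ) f)) * T := by
  have hre := g.rD γ _ (h.mem b)
  induction f using Polynomial.induction_on with
  | C a =>
    rw [aeval_C, Algebra.algebraMap_eq_smul_one]
    refine ⟨by rw [smul_mul_assoc, one_mul, mul_smul_comm, mul_one], fun T _ => ?_⟩
    rw [map_smul, cmp_one hPQ hQP, map_smul, map_one, mul_smul_comm, smul_mul_assoc, mul_one,
      one_mul]
  | add p q hp hq =>
    rw [map_add]
    refine ⟨by rw [add_mul, mul_add, hp.1, hq.1], fun T hT => ?_⟩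
    rw [map_add, map_add, mul_add, add_mul, hp.2 T hT, hq.2 T hT]
  | monomial k a ih =>
    have e1 : aeval (r γ) (C a * X ^ (k + 1)) = aeval (r γ) (C a * X ^ k) * r γ := by
      rw [pow_succ, ← mul_assoc, map_mul, aeval_X]
    rw [e1]
    refine ⟨?_, fun T hT => ?_⟩
    · rw [mul_assoc, hre, ← mul_assoc, ih.1, mul_assoc]
    · rw [cmp_mul hPQ hQP hre, map_mul, ← mul_assoc, ih.2 T hT, mul_assoc, hT, mul_assoc]

end

end Pool.Agent.H76V
end

-- from Lib.H76V.VB2
section

/-!
# All transvections of a component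
-/

set_option autoImplicit false
set_option linter.unusedSectionVars false
namespace Pool.Agent.H76V
open Module Matrix Polynomial Pool.Agent.H53Toric Pool.Agent.H76U Pool.Agent.H76F
open Pool.Agent.H76RM (zar_commute zlie_commute van)
open Pool.Agent.H76T (Lc mem_Lc Nil)

variable {ι : Type*} [Fintype ι] [DecidableEq ι] {K : Type*} [Field K]

/-- The conditions on a component of rank `n` cut out by `p`. -/
def TorN (S : Set (Matrix ι ι K)) (J : Matrix ι ι K) {Γ : Type*} [Group Γ]
    (r : Γ →* Matrix ι ι K) (p : Matrix ι ι K) (n : ℕ) : Prop :=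
  ¬ 4 ∣ n ∨ ((∃ N : Matrix ι ι K, Nil S J N ∧ N * p ≠ 0 ∧
      ∀ a : ℕ, Even a → 2 * a ∣ n → a ∣ (N * p).rank → (a = 2 → 4 ∣ (N * p).rank) →
      ∃ (γ : Γ) (c : K) (f : K[X]), c ≠ 0 ∧ r γ * N * p = c • (N * p) ∧
        (aeval (r γ) f * p) * (aeval (r γ) f * p) = aeval (r γ) f * p ∧
        ¬ a ∣ (aeval (r γ) f * p).rank) ∧
    (∀ m : ℕ, 5 ≤ m → (m % 4 = 1 ∨ m % 4 = 2) → n = 2 ^ m →
      ∃ N : Matrix ι ι K, Nil S J N ∧ N * p ≠ 0 ∧ 4 * (N * p).rank ≠ n ∧
        2 * (N * p).rank ≠ n) ∧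
    (∀ k : ℕ, 3 ≤ k → Odd k → n = k.centralBinom →
      ∃ N : Matrix ι ι K, Nil S J N ∧ N * p ≠ 0 ∧ (N * p).rank ≠ (k - 1).centralBinom))

section
variable [CharZero K] [IsAlgClosed K] {B : Type*} [Fintype B] [DecidableEq B]
    {J : Matrix ι ι K} {DD : Submodule K (Matrix ι ι K)}
    {bar : B → B} {e : B → Matrix ι ι K} (h : Split4 J DD bar e) {b : B} (hb : bar b = b)
    (hJ : Jᵀ = -J) (hdet : IsUnit J.det)
    {n : ℕ} {P : Matrix ι (Fin n) K} {Q : Matrix (Fin n) ι K}
    (hPQ : e b = P * Q) (hQP : Q * P = 1)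
    {S : Set (Matrix ι ι K)}
    {Γ : Type*} [Group Γ] {r : Γ →* Matrix ι ι K} {𝓗 : Set (Matrix ι ι K)}
    (g : SH S J DD r 𝓗)

include h hb hJ hdet hPQ hQP g in
/-- The Lie algebra of the component is as large as possible. -/
theorem comp_full (hn : 0 < n) (num : TorN S J r (e b) n) {X : Module.End K (Fin n → K)}
    (hX : adjE (Pᵀ * J * P) X = -X) : X ∈ Lc J S P Q := by
  have hpJ : (e b)ᵀ * J = J * e b := by
    have := h.adj b
    rwa [hb] at this
  have hdb := det_cmp hPQ hQP hpJ hdet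
  have : Nonempty (Fin n) := ⟨⟨0, hn⟩⟩
  have hcomp := cmp_comp h hb hJ hdet hPQ hQP g hn
  refine hcomp.full ?_ hX
  rcases num with h4 | ⟨⟨N, hN, hN0, ha⟩, hm, hk⟩
  · left
    rw [Fintype.card_fin]
    exact h4
  right
  refine ⟨?_, ?_, ?_⟩
  rotate_left
  · rw [Fintype.card_fin]
    intro m hm5 hm4 hc
    obtain ⟨N, hN, hN0, hr1, hr2⟩ := hm m hm5 hm4 hc
    obtain ⟨h1, h2, h3, h4⟩ := nil_mem h hb hdet hPQ hQP g hN
    exact ⟨phi (cmp P Q N), h1, h2, h4 hN0, by rw [h3]; exact hr1, by rw [h3]; exact hr2⟩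
  · rw [Fintype.card_fin]
    intro k hk3 hko hc
    obtain ⟨N, hN, hN0, hr⟩ := hk k hk3 hko hc
    obtain ⟨h1, h2, h3, h4⟩ := nil_mem h hb hdet hPQ hQP g hN
    exact ⟨phi (cmp P Q N), h1, h2, h4 hN0, by rw [h3]; exact hr⟩
  · obtain ⟨h1, h2, h3, h4⟩ := nil_mem h hb hdet hPQ hQP g hN
    refine ⟨phi (cmp P Q N), h1, h2, h4 hN0, ?_⟩
    rw [Fintype.card_fin, h3]
    intro a hae han har ha4
    obtain ⟨γ, c, f, hc, hxN, hff, hnd⟩ := ha a hae han har ha4
    obtain ⟨s, hs0, hs⟩ := g.sim γ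
    have hre := g.rD γ _ (h.mem b)
    have hre' := g.rD γ⁻¹ _ (h.mem b)
    obtain ⟨hNz, hNs, hN2⟩ := hN
    have hNL : N ∈ preL J S :=
      ⟨⟨0, N, hNz, by rw [zero_smul, add_zero]⟩, 0, by rw [hNs, zero_smul]⟩
    have hNe := preL_ec (b := b) h g hNL
    obtain ⟨hfe, hfc⟩ := aeval_comm h hPQ hQP g γ f
    -- the relation on the other side
    have hNx : N * r γ * e b = (s * c⁻¹) • (N * e b) := by
      -- adjoint of the relation
      have e1 : (e b)ᵀ * Nᵀ * (r γ)ᵀ = c • ((e b)ᵀ * Nᵀ) := by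
        have := congrArg Matrix.transpose hxN
        rw [Matrix.transpose_mul, Matrix.transpose_mul, Matrix.transpose_smul,
          Matrix.transpose_mul, ← Matrix.mul_assoc] at this
        exact this
      have e2 : (e b)ᵀ * Nᵀ * J = -(J * (N * e b)) := by
        have h5 : Nᵀ * J = -(J * N) := eq_neg_of_add_eq_zero_left hNs
        rw [Matrix.mul_assoc, h5, Matrix.mul_neg, ← Matrix.mul_assoc, hpJ, Matrix.mul_assoc,
          hNe]
      have e3 : (e b)ᵀ * Nᵀ * ((r γ)ᵀ * J * r γ) = c • ((e b)ᵀ * Nᵀ * J * r γ) := by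
        calc (e b)ᵀ * Nᵀ * ((r γ)ᵀ * J * r γ) = ((e b)ᵀ * Nᵀ * (r γ)ᵀ) * J * r γ := by
              noncomm_ring
          _ = _ := by rw [e1, smul_mul_assoc, smul_mul_assoc]
      rw [hs, mul_smul_comm, e2, Matrix.neg_mul] at e3
      have e4 : J * (s • (N * e b)) = J * (c • (N * e b * r γ)) := by
        rw [mul_smul_comm, mul_smul_comm, ← Matrix.mul_assoc J (N * e b)]
        rw [smul_neg, smul_neg] at e3
        exact neg_injective e3
      have e5 : s • (N * e b) = c • (N * e b * r γ) := by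
        have h6 := congrArg (fun M => J⁻¹ * M) e4
        simp only [← Matrix.mul_assoc, Matrix.nonsing_inv_mul _ hdet] at h6
        simpa using h6
      rw [Matrix.mul_assoc N (r γ), hre, ← Matrix.mul_assoc]
      have h7 : N * e b * r γ = c⁻¹ • (c • (N * e b * r γ)) := by
        rw [smul_smul, inv_mul_cancel₀ hc, one_smul]
      rw [h7, ← e5, smul_smul, mul_comm]
    have hcmpN : ∀ A : Matrix ι ι K, cmp P Q A = cmp P Q (A * e b) := by
      intro A
      rw [cmp_apply, cmp_apply]
      calc Q * A * P = Q * A * (e b * P) := by rw [p_P hPQ hQP]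
        _ = _ := by simp only [Matrix.mul_assoc]
    have hff' : cmp P Q (aeval (r γ) f) * cmp P Q (aeval (r γ) f) =
        cmp P Q (aeval (r γ) f) := by
      rw [← cmp_mul hPQ hQP hfe, hcmpN, hcmpN (aeval (r γ) f), ← hff]
      congr 1
      calc aeval (r γ) f * aeval (r γ) f * e b =
          aeval (r γ) f * aeval (r γ) f * (e b * e b) := by rw [h.idem b]
        _ = aeval (r γ) f * (aeval (r γ) f * e b) * e b := by noncomm_ring
        _ = aeval (r γ) f * (e b * aeval (r γ) f) * e b := by rw [hfe]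
        _ = _ := by noncomm_ring
    refine ⟨phi (cmp P Q (r γ)), phi (cmp P Q (r γ⁻¹)), c, s * c⁻¹,
      phi (cmp P Q (aeval (r γ) f)), ?_, ?_, ?_, ?_, hc, mul_ne_zero hs0 (inv_ne_zero hc),
      ?_, ?_, ?_, hfc, ?_⟩
    · rw [← map_mul, cmp_rr h hPQ hQP g, map_one]
    · have := cmp_rr h hPQ hQP g γ⁻¹
      rw [inv_inv] at this
      rw [← map_mul, this, map_one]
    · exact fun X hX => conj_mem h hb hdet hPQ hQP g γ hX
    · intro X hX
      have := conj_mem h hb hdet hPQ hQP g γ⁻¹ hX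
      rwa [inv_inv] at this
    · rw [← map_mul, ← cmp_mul hPQ hQP hNe, hcmpN, hxN, map_smul, map_smul, ← hcmpN]
    · rw [← map_mul, ← cmp_mul hPQ hQP hre, hcmpN, hNx, map_smul, map_smul, ← hcmpN]
    · rw [← map_mul, hff']
    · change ¬ a ∣ (cmp P Q (aeval (r γ) f)).rank
      rw [rank_cmp hPQ hQP hfe]
      exact hnd

include h hb hJ hdet hPQ hQP g in
/-- all the transvections of the component -/
theorem fu_tor (hn : 0 < n) (num : TorN S J r (e b) n) {u : ι → K} (hu : e b *ᵥ u = u) :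
    ∃ A ∈ zlie S, Aᵀ * J + J * A = 0 ∧ phi A * phi (e b) = tw (om J) u u := by
  have hpJ : (e b)ᵀ * J = J * e b := by
    have := h.adj b
    rwa [hb] at this
  have hdb := det_cmp hPQ hQP hpJ hdet
  have hJb : (Pᵀ * J * P)ᵀ = -(Pᵀ * J * P) := by
    rw [Matrix.transpose_mul, Matrix.transpose_mul, Matrix.transpose_transpose, hJ,
      Matrix.neg_mul, Matrix.mul_neg, Matrix.mul_assoc]
  have : Nonempty (Fin n) := ⟨⟨0, hn⟩⟩
  have hcomp := cmp_comp h hb hJ hdet hPQ hQP g hn
  have hfull : ∀ {X : Module.End K (Fin n → K)}, adjE (Pᵀ * J * P) X = -X →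
      X ∈ Lc J S P Q := fun hX => comp_full h hb hJ hdet hPQ hQP g hn num hX
  set d := Q *ᵥ u with hd
  have hPd : P *ᵥ d = u := by rw [hd, Matrix.mulVec_mulVec, ← hPQ, hu]
  set X := Matrix.vecMulVec d ((Pᵀ * J * P) *ᵥ d) with hX
  have hXphi : phi X = trv (om (Pᵀ * J * P)) d := phi_trv _ _
  have hX2 : X * X = 0 := by
    apply (phi (ι := Fin n) (K := K)).injective
    rw [map_mul, hXphi, map_zero, trv_sq (om_alt hJb)]
  have hXg := hfull ((skew_iff hdb X).2 (trv_skew hJb d))
  obtain ⟨M, hM, hXMX⟩ := exists_partner hcomp.lie hcomp.irr hcomp.tr hXg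
    (by rw [← map_mul, hX2, map_zero])
  obtain ⟨m, rfl⟩ := (phi (ι := Fin n) (K := K)).surjective M
  obtain ⟨A, hA, hAX⟩ := mem_Lb.1 hXg.1
  obtain ⟨C, hC, hCm⟩ := mem_Lb.1 hM.1
  have e1 : X * m * X = X := by
    apply (phi (ι := Fin n) (K := K)).injective
    rw [map_mul, map_mul, hXMX]
  have hAe := preL_ec (b := b) h g hA
  have hCe := preL_ec (b := b) h g hC
  obtain ⟨h1, h2⟩ := preL_bracket hA hC
  have hE : A * C - C * A ∈ preL J S :=
    ⟨⟨0, _, h1, by rw [zero_smul, add_zero]⟩, 0, by rw [h2, zero_smul]⟩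
  have hEe := preL_ec (b := b) h g hE
  obtain ⟨h3, h4⟩ := preL_bracket hE hA
  have e2 : cmp P Q ((A * C - C * A) * A - A * (A * C - C * A)) = (2 : K) • X := by
    rw [map_sub, cmp_mul hPQ hQP hAe, cmp_mul hPQ hQP hEe, map_sub, cmp_mul hPQ hQP hCe,
      cmp_mul hPQ hQP hAe, hAX, hCm]
    have : (X * m - m * X) * X - X * (X * m - m * X) =
        (2 : K) • (X * m * X) - m * (X * X) - (X * X) * m := by
      rw [two_smul]; noncomm_ring
    rw [this, e1, hX2]; simp
  set E := (A * C - C * A) * A - A * (A * C - C * A) with hEdef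
  have hEL : E ∈ preL J S :=
    ⟨⟨0, _, h3, by rw [zero_smul, add_zero]⟩, 0, by rw [h4, zero_smul]⟩
  have hEe' := preL_ec (b := b) h g hEL
  refine ⟨(1 / 2 : K) • E, (zlie S).smul_mem _ h3, ?_, ?_⟩
  · rw [Matrix.transpose_smul, smul_mul_assoc, mul_smul_comm, ← smul_add, h4, smul_zero]
  · rw [← map_mul]
    apply LinearMap.ext
    intro v
    rw [phi_apply, tw_apply, smul_mul_assoc, Matrix.smul_mulVec]
    have h5 : E * e b = P * cmp P Q E * Q := by
      rw [P_cmp hPQ hQP hEe', Matrix.mul_assoc, ← hPQ]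
    rw [h5, e2, Matrix.mul_smul, Matrix.smul_mul, Matrix.smul_mulVec, smul_smul]
    norm_num
    rw [← Matrix.mulVec_mulVec, ← Matrix.mulVec_mulVec, ← phi_apply X, hXphi, trv_apply,
      Matrix.mulVec_smul, hPd, om_cmp hPQ hQP hpJ, hPd, Matrix.mulVec_mulVec _ P Q, ← hPQ,
      h.self, hb, hu]

end

end Pool.Agent.H76V
end
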