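import Pool.Agent.Lib.H1M.RC.M002
import Pool.Agent.Lib.H1M.RC.M040

/-! Merged copies (to shorten the build) of Lib.H76P.T0, Lib.H76P.T1, Lib.H76P.T4, Lib.H76P.T7, Lib.H76P.T2, Lib.H76P.T3, Lib.H76P.T13, Lib.H76P.T5, Lib.H76P.T6, Lib.H76P.T10, Lib.H76P.T8, Lib.H76P.T9, Lib.H76P.T11, Lib.H76P.T12. -/

-- from Lib.H76P.T0
section

/-!
# The component theorem: definitions

`L` is an irreducible Lie algebra of operators of `K ^ κ` (`Cmp L J`, H76V).  `dg f` is the
diagonal operator of `f : κ → K`, `dq f` the diagonal operator of a rational function.  `Hs L` is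
the set of the `±1`-valued functions `ε` with `dq ε ∈ L`, `Yo L` is its rational span, and
`pt L a` is the evaluation at `a`, a functional on `Yo L`.
-/

set_option autoImplicit false
set_option linter.unusedSectionVars false
namespace Pool.Agent.H76P
open Module Matrix Pool.Agent.H53Toric
open Pool.Agent.H76T (IsIdeal Fam)
open Pool.Agent.H76V (Cmp)

variable {κ : Type*} {K : Type*} [Field K]

/-- The diagonal operator with the entries `f`. -/
def dg (f : κ → K) : Module.End K (κ → K) where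
  toFun v := fun a => f a * v a
  map_add' := by
    intro v w
    ext a
    simp [mul_add]
  map_smul' := by
    intro c v
    ext a
    simp only [Pi.smul_apply, smul_eq_mul, RingHom.id_apply]
    ring

theorem dg_apply (f v : κ → K) (a : κ) : dg f v a = f a * v a := rfl

theorem dg_mul (f g : κ → K) : dg f * dg g = dg (f * g) := by
  refine LinearMap.ext fun v => funext fun a => ?_
  simp only [Module.End.mul_apply, dg_apply, Pi.mul_apply]
  ring

theorem dg_add (f g : κ → K) : dg (f + g) = dg f + dg g := by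
  refine LinearMap.ext fun v => funext fun a => ?_
  simp only [dg_apply, Pi.add_apply, LinearMap.add_apply]
  ring

theorem dg_smul (c : K) (f : κ → K) : dg (c • f) = c • dg f := by
  refine LinearMap.ext fun v => funext fun a => ?_
  simp only [dg_apply, Pi.smul_apply, LinearMap.smul_apply, smul_eq_mul]
  ring

theorem dg_one : dg (1 : κ → K) = 1 := by
  refine LinearMap.ext fun v => funext fun a => ?_
  simp [dg_apply]

theorem dg_inj [DecidableEq κ] {f g : κ → K} (h : dg f = dg g) : f = g := by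
  ext a
  have := congrFun (congrArg (fun T : Module.End K (κ → K) => T (Pi.single a 1)) h) a
  simpa [dg_apply] using this

/-- The diagonal operator with rational entries. -/
def dq (f : κ → ℚ) : Module.End K (κ → K) := dg fun a => (f a : K)

variable [Fintype κ] [DecidableEq κ]

/-- The functions with the values `1` and `-1` whose operator is in `L`. -/
def Hs (L : Submodule K (Module.End K (κ → K))) : Set (κ → ℚ) :=
  {ε | (∀ a, ε a = 1 ∨ ε a = -1) ∧ dq ε ∈ L}

/-- Their span. -/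
def Yo (L : Submodule K (Module.End K (κ → K))) : Submodule ℚ (κ → ℚ) :=
  Submodule.span ℚ (Hs L)

/-- The evaluations. -/
def pt (L : Submodule K (Module.End K (κ → K))) (a : κ) : Module.Dual ℚ (Yo L) :=
  (LinearMap.proj (R := ℚ) (φ := fun _ : κ => ℚ) a) ∘ₗ (Yo L).subtype

theorem pt_apply (L : Submodule K (Module.End K (κ → K))) (a : κ) (f : Yo L) :
    pt L a f = (f : κ → ℚ) a := rfl

/-- The assumptions of the component theorem. -/
structure TC (L : Submodule K (Module.End K (κ → K))) (J : Matrix κ κ K) (ν : κ → ℚ) : Prop where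
  cmp : Cmp L J
  diag : ∀ f : κ → ℚ, dq f ∈ L → f ∈ Yo L
  vid : ∃ ε ∈ Hs L, ∀ I, IsIdeal L I → dq ε ∈ I → dq ν ∈ I
  gal : ∀ a b, a ≠ b → ∃ σ : Equiv.Perm κ, (∀ f ∈ Yo L, f ∘ σ ∈ Yo L) ∧ ν (σ a) ≠ ν (σ b)

end Pool.Agent.H76P
end

-- from Lib.H76P.T1
section

/-!
# T1: first facts
-/

set_option autoImplicit false
set_option linter.unusedSectionVars false
namespace Pool.Agent.H76P
open Module Matrix Pool.Agent.H53Toric
open Pool.Agent.H76T (IsIdeal Fam)
open Pool.Agent.H76V (Cmp)

variable {κ : Type*} {K : Type*} [Field K] [CharZero K] [Fintype κ] [DecidableEq κ]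
  {L : Submodule K (Module.End K (κ → K))} {J : Matrix κ κ K} {ν : κ → ℚ}

/-- PROOF. Matrix of `dg f` is diagonal: `LinearMap.trace` is the sum of the diagonal entries (`dg f = Matrix.toLin' (Matrix.diagonal f)`). -/
theorem dg_trace (f : κ → K) : LinearMap.trace K (κ → K) (dg f) = ∑ a, f a := by
  have e : dg f = Matrix.toLin' (Matrix.diagonal f) := by
    refine LinearMap.ext fun v => funext fun a => ?_
    rw [dg_apply, Matrix.toLin'_apply, Matrix.mulVec_diagonal]
  rw [e, Matrix.trace_toLin'_eq, Matrix.trace_diagonal]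

theorem dq_sq {ε : κ → ℚ} (h : ∀ a, ε a = 1 ∨ ε a = -1) :
    (dq ε : Module.End K (κ → K)) * dq ε = 1 := by
  unfold dq
  rw [dg_mul, ← dg_one]
  congr 1
  funext a
  rw [Pi.mul_apply, Pi.one_apply]
  rcases h a with h1 | h1 <;> rw [h1] <;> norm_num

/-- `dq` is additive and compatible with rational scalars. -/
theorem dq_add (f g : κ → ℚ) : (dq (f + g) : Module.End K (κ → K)) = dq f + dq g := by
  unfold dq
  rw [← dg_add]
  congr 1
  funext a
  rw [Pi.add_apply, Pi.add_apply, Rat.cast_add]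

theorem dq_smul (c : ℚ) (f : κ → ℚ) :
    (dq (c • f) : Module.End K (κ → K)) = (c : K) • dq f := by
  unfold dq
  rw [← dg_smul]
  congr 1
  funext a
  rw [Pi.smul_apply, Pi.smul_apply, smul_eq_mul, smul_eq_mul, Rat.cast_mul]

theorem dq_inj {f g : κ → ℚ} (h : (dq f : Module.End K (κ → K)) = dq g) : f = g := by
  have h1 := dg_inj h
  funext a
  have h2 : (f a : K) = (g a : K) := congrFun h1 a
  exact_mod_cast h2

/-- PROOF. `Submodule.span_induction`, `dq_add`, `dq_smul`. -/
theorem Yo_mem {f : κ → ℚ} (hf : f ∈ Yo L) : dq f ∈ L := by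
  unfold Yo at hf
  induction hf using Submodule.span_induction with
  | mem x hx => exact hx.2
  | zero =>
    have h1 : (dq (0 : κ → ℚ) : Module.End K (κ → K)) = 0 := by
      have h2 := dq_smul (K := K) (0 : ℚ) (0 : κ → ℚ)
      rw [zero_smul, Rat.cast_zero, zero_smul] at h2
      exact h2
    rw [h1]
    exact L.zero_mem
  | add x y _ _ hx hy =>
    rw [dq_add]
    exact L.add_mem hx hy
  | smul c x _ hx =>
    rw [dq_smul]
    exact L.smul_mem _ hx

/-- PROOF. `Yo_mem`, `Cmp.tr`, `dg_trace` (the cast of rational numbers to `K` is injective). -/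
theorem Yo_sum (h : Cmp L J) {f : κ → ℚ} (hf : f ∈ Yo L) : ∑ a, f a = 0 := by
  have h1 := h.tr _ (Yo_mem hf)
  unfold dq at h1
  rw [dg_trace] at h1
  exact_mod_cast h1

/-- PROOF. `vid` for the ideal `L` (`h.cmp.lie`, `Core1.IsLie`), then `diag`. -/
theorem TC.nu_mem (h : TC L J ν) : ν ∈ Yo L := by
  obtain ⟨ε, he, hv⟩ := h.vid
  exact h.diag ν (hv L ⟨le_rfl, fun X hX Y hY => h.cmp.lie X hX Y hY⟩ he.2)

/-- PROOF. `f = ν ∘ σ` with `σ` as in `gal`. -/
theorem TC.sep (h : TC L J ν) {a b : κ} (hab : a ≠ b) : ∃ f ∈ Yo L, f a ≠ f b := by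
  obtain ⟨σ, h1, h2⟩ := h.gal a b hab
  exact ⟨ν ∘ σ, h1 ν h.nu_mem, h2⟩

/-- PROOF. The entry `(a, b)` of the matrix of `X` (`a ≠ b`) is zero: with `f` as in `TC.sep` compare the entries `(a, b)` of
`X * dq f` and `dq f * X`. -/
theorem TC.diag_of_comm (h : TC L J ν) {X : Module.End K (κ → K)}
    (hX : ∀ f ∈ Yo L, X * dq f = dq f * X) : ∃ g : κ → K, X = dg g := by
  have hz : ∀ a b : κ, a ≠ b → X (Pi.single b 1) a = 0 := by
    intro a b hab
    obtain ⟨f, hf, hne⟩ := h.sep hab
    have h1 := congrFun (congrArg (fun T : Module.End K (κ → K) => T (Pi.single b 1)) (hX f hf)) a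
    simp only [Module.End.mul_apply] at h1
    have h2 : (dq f : Module.End K (κ → K)) (Pi.single b 1) = (f b : K) • Pi.single b (1 : K) := by
      funext c
      unfold dq
      rw [dg_apply, Pi.smul_apply, smul_eq_mul]
      by_cases hc : c = b
      · rw [hc]
      · rw [Pi.single_eq_of_ne hc, mul_zero, mul_zero]
    rw [h2, map_smul, Pi.smul_apply, smul_eq_mul] at h1
    unfold dq at h1
    rw [dg_apply] at h1
    have h3 : ((f b : K) - (f a : K)) * X (Pi.single b 1) a = 0 := by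
      rw [sub_mul, h1, sub_self]
    rcases mul_eq_zero.1 h3 with h4 | h4
    · exfalso
      apply hne
      have h5 : (f b : K) = (f a : K) := sub_eq_zero.1 h4
      exact_mod_cast h5.symm
    · exact h4
  refine ⟨fun a => X (Pi.single a 1) a, ?_⟩
  refine LinearMap.pi_ext' fun b => LinearMap.ext_ring (funext fun a => ?_)
  show X (Pi.single b 1) a = dg (fun a => X (Pi.single a 1) a) (Pi.single b 1) a
  rw [dg_apply]
  by_cases hab : a = b
  · rw [hab, Pi.single_eq_same, mul_one]
  · rw [hz a b hab, Pi.single_eq_of_ne hab, mul_zero]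

end Pool.Agent.H76P
end

-- from Lib.H76P.T4
section

/-!
# T4: involutions and minimal ideals
-/

set_option autoImplicit false
set_option linter.unusedSectionVars false
namespace Pool.Agent.H76P
open Module Matrix Pool.Agent.H53Toric
open Pool.Agent.H76T (IsIdeal Fam)
open Pool.Agent.H76V (Cmp alg calg)

variable {κ : Type*} {K : Type*} [Field K] [CharZero K] [Fintype κ] [DecidableEq κ]
  {L : Submodule K (Module.End K (κ → K))} {J : Matrix κ κ K} {ν : κ → ℚ}
variable [IsAlgClosed K] [Nonempty κ] {m : ℕ} {I : Fin m → Submodule K (Module.End K (κ → K))}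

/-- PROOF. `Fam.one` (H76T.TA2) with `a = 0`, `b = -1` (`dq_sq`; `dq ε ≠ 0` since `κ` is nonempty; `Cmp.tr`, `Cmp.irr`). -/
theorem Hs_mem (h : Cmp L J) (hF : Fam L I) {ε : κ → ℚ} (hε : ε ∈ Hs L) : ∃ j, dq ε ∈ I j := by
  have hy2 : (dq ε : Module.End K (κ → K)) * dq ε = 1 := dq_sq hε.1
  have hy0 : (dq ε : Module.End K (κ → K)) ≠ 0 := by
    intro h0
    rw [h0, mul_zero] at hy2
    exact zero_ne_one hy2
  exact hF.one h.irr h.tr hε.2 hy0 (a := 0) (b := -1) (by rw [hy2]; module)

/-- an element of `L` that commutes with all minimal ideals is zero -/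
theorem t4_zero (h : Cmp L J) (hF : Fam L I) {X : Module.End K (κ → K)} (hX : X ∈ L)
    (hc : ∀ i, ∀ Y ∈ I i, X * Y = Y * X) : X = 0 := by
  have hc2 : ∀ Y ∈ L, X * Y = Y * X := by
    intro Y hY
    rw [← hF.sup] at hY
    induction hY using Submodule.iSup_induction' with
    | mem j Y hY => exact hc j Y hY
    | zero => rw [mul_zero, zero_mul]
    | add a b _ _ ha hb => rw [mul_add, add_mul, ha, hb]
  obtain ⟨c, hc3⟩ := h.gen X (fun y hy _ => hc2 y hy)
  have h1 := h.skew X hX
  rw [hc3] at h1 ⊢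
  exact Pool.Agent.H76T.scalar_skew h.Jt h.Jd h1

/-- PROOF. `X j = -∑_{i ≠ j} X i` commutes with every element of `I j` (`hF.comm`) and of `I i`, `i ≠ j`, hence with `L` (`hF.sup`), so it is
a scalar (`Irr`: `Cmp.gen`, or H76T.Fam.top), of trace zero (`Cmp.tr`, `X j ∈ L`), i.e. zero (`κ` is nonempty, characteristic zero;
`H76T.tr_skew`, `scalar_skew`). -/
theorem indep (h : Cmp L J) (hF : Fam L I) {X : Fin m → Module.End K (κ → K)}
    (hX : ∀ i, X i ∈ I i) (h0 : ∑ i, X i = 0) (j : Fin m) : X j = 0 := by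
  refine t4_zero h hF ((hF.ideal j).1 (hX j)) fun i Y hY => ?_
  by_cases hij : i = j
  · subst hij
    have h1 : X i = -∑ k ∈ Finset.univ.erase i, X k := by
      rw [← Finset.add_sum_erase _ _ (Finset.mem_univ i)] at h0
      exact eq_neg_of_add_eq_zero_left h0
    have h2 : (∑ k ∈ Finset.univ.erase i, X k) * Y = Y * ∑ k ∈ Finset.univ.erase i, X k := by
      rw [Finset.sum_mul, Finset.mul_sum]
      refine Finset.sum_congr rfl fun k hk => ?_
      exact hF.comm k i (Finset.ne_of_mem_erase hk) _ (hX k) Y hY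
    rw [h1]
    exact (Commute.neg_left h2 : Commute _ _)
  · exact hF.comm j i (Ne.symm hij) _ (hX j) Y hY

/-- PROOF. If not, every `ε ∈ Hs L` is in some `I i` with `i ≠ j` (`Hs_mem`), so `dq ε` commutes with all `X ∈ I j` (`hF.comm`), so
`dq f` commutes with `X` for all `f ∈ Yo L`, so all elements of `I j` are diagonal (`TC.diag_of_comm`) and commute with each other.
They commute with the elements of `I i`, `i ≠ j`, too, so they commute with `L`; they are scalars of trace zero, and `I j = ⊥`,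
contradiction to `hF.ne_bot`. -/
theorem TC.exists_diag (h : TC L J ν) (hF : Fam L I) (j : Fin m) :
    ∃ f ∈ Yo L, f ≠ 0 ∧ dq f ∈ I j := by
  by_contra hcon
  push Not at hcon
  have h1 : ∀ X ∈ I j, ∀ f ∈ Yo L, X * dq f = dq f * X := by
    intro X hX f hf
    unfold Yo at hf
    induction hf using Submodule.span_induction with
    | mem ε hε =>
      obtain ⟨i, hi⟩ := Hs_mem h.cmp hF hε
      have hij : j ≠ i := by
        rintro rfl
        refine hcon ε (Submodule.subset_span hε) ?_ hi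
        intro h0
        obtain ⟨a⟩ := ‹Nonempty κ›
        have h2 := congrFun h0 a
        rcases hε.1 a with h3 | h3 <;> rw [h3] at h2 <;> simp at h2
      exact hF.comm j i hij X hX _ hi
    | zero =>
      have h2 : (dq (0 : κ → ℚ) : Module.End K (κ → K)) = 0 := by
        refine LinearMap.ext fun v => funext fun a => ?_
        simp [dq, dg_apply]
      rw [h2, mul_zero, zero_mul]
    | add f g _ _ hf hg => rw [dq_add, mul_add, add_mul, hf, hg]
    | smul c f _ hf => rw [dq_smul, mul_smul_comm, smul_mul_assoc, hf]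
  apply hF.ne_bot j
  rw [eq_bot_iff]
  intro X hX
  rw [Submodule.mem_bot]
  refine t4_zero h.cmp hF ((hF.ideal j).1 hX) fun i Y hY => ?_
  by_cases hij : i = j
  · subst hij
    obtain ⟨g, rfl⟩ := h.diag_of_comm (h1 X hX)
    obtain ⟨g', rfl⟩ := h.diag_of_comm (h1 Y hY)
    rw [dg_mul, dg_mul, mul_comm]
  · exact hF.comm j i (Ne.symm hij) X hX Y hY

end Pool.Agent.H76P
end

-- from Lib.H76P.T7
section

/-!
# T7: a minimal ideal is generated by its elements of degree two
-/

set_option autoImplicit false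
set_option linter.unusedSectionVars false
namespace Pool.Agent.H76P
open Module Matrix Pool.Agent.H53Toric
open Pool.Agent.H76T (IsIdeal Fam)
open Pool.Agent.H76V (Cmp alg calg)

section Abs

variable {K : Type*} [Field K] {R : Type*} [Ring R] [Algebra K R]

/-- the elements `X` of `I` with `y X = a X`, `X y = b X` -/
def t7E (I : Submodule K R) (y : R) (a b : K) : Submodule K R where
  carrier := {X | X ∈ I ∧ y * X = a • X ∧ X * y = b • X}
  add_mem' := by
    rintro X X' ⟨h1, h2, h3⟩ ⟨h1', h2', h3'⟩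
    exact ⟨I.add_mem h1 h1', by rw [mul_add, h2, h2', smul_add], by rw [add_mul, h3, h3', smul_add]⟩
  zero_mem' := ⟨I.zero_mem, by rw [mul_zero, smul_zero], by rw [zero_mul, smul_zero]⟩
  smul_mem' := by
    rintro c X ⟨h1, h2, h3⟩
    exact ⟨I.smul_mem _ h1, by rw [mul_smul_comm, h2, smul_comm], by
      rw [smul_mul_assoc, h3, smul_comm]⟩

/-- the elements `X` of `I` which commute with `y` -/
def t7Z (I : Submodule K R) (y : R) : Submodule K R where
  carrier := {X | X ∈ I ∧ y * X = X * y}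
  add_mem' := by
    rintro X X' ⟨h1, h2⟩ ⟨h1', h2'⟩
    exact ⟨I.add_mem h1 h1', by rw [mul_add, h2, h2', add_mul]⟩
  zero_mem' := ⟨I.zero_mem, by rw [mul_zero, zero_mul]⟩
  smul_mem' := by
    rintro c X ⟨h1, h2⟩
    exact ⟨I.smul_mem _ h1, by rw [mul_smul_comm, h2, smul_mul_assoc]⟩

/-- the span of the brackets -/
def t7B (I : Submodule K R) (y : R) : Submodule K R :=
  Submodule.span K {b | ∃ X ∈ t7E I y (1 : K) (-1), ∃ X' ∈ t7E I y (-1 : K) 1, b = X * X' - X' * X}

/-- the submodule generated by the elements of degree two -/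
def t7M (I : Submodule K R) (y : R) : Submodule K R :=
  t7E I y (1 : K) (-1) ⊔ (t7B I y ⊔ t7E I y (-1 : K) 1)

variable {I L : Submodule K R} {y : R}

theorem t7_BZ (hid : ∀ X ∈ I, ∀ Y ∈ I, X * Y - Y * X ∈ I) : t7B I y ≤ t7Z I y := by
  unfold t7B
  rw [Submodule.span_le]
  rintro b ⟨X, ⟨h1, h2, h3⟩, X', ⟨h1', h2', h3'⟩, rfl⟩
  refine ⟨hid _ h1 _ h1', ?_⟩
  rw [mul_sub, sub_mul, ← mul_assoc, ← mul_assoc, h2, h2', mul_assoc, mul_assoc, h3, h3']
  simp

theorem t7_ZE (hid : ∀ X ∈ I, ∀ Y ∈ I, X * Y - Y * X ∈ I) {a b : K} {W X : R}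
    (hW : W ∈ t7Z I y) (hX : X ∈ t7E I y a b) : W * X - X * W ∈ t7E I y a b := by
  obtain ⟨h1, h2⟩ := hW
  obtain ⟨h3, h4, h5⟩ := hX
  refine ⟨hid _ h1 _ h3, ?_, ?_⟩
  · rw [mul_sub, ← mul_assoc, ← mul_assoc, h2, h4, mul_assoc, h4, smul_sub, mul_smul_comm,
      smul_mul_assoc]
  · rw [sub_mul, mul_assoc, mul_assoc, h5, ← h2, ← mul_assoc, h5, smul_sub, mul_smul_comm,
      smul_mul_assoc]

theorem t7_ZB (hid : ∀ X ∈ I, ∀ Y ∈ I, X * Y - Y * X ∈ I) {W X : R}
    (hW : W ∈ t7Z I y) (hX : X ∈ t7B I y) : W * X - X * W ∈ t7B I y := by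
  unfold t7B at hX
  induction hX using Submodule.span_induction with
  | mem b hb =>
    obtain ⟨X, hX, X', hX', rfl⟩ := hb
    have e : W * (X * X' - X' * X) - (X * X' - X' * X) * W =
        ((W * X - X * W) * X' - X' * (W * X - X * W)) +
          (X * (W * X' - X' * W) - (W * X' - X' * W) * X) := by noncomm_ring
    rw [e]
    refine Submodule.add_mem _ (Submodule.subset_span ?_) (Submodule.subset_span ?_)
    · exact ⟨_, t7_ZE hid hW hX, _, hX', rfl⟩
    · exact ⟨_, hX, _, t7_ZE hid hW hX', rfl⟩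
  | zero => rw [mul_zero, zero_mul, sub_zero]; exact Submodule.zero_mem _
  | add a b _ _ ha hb =>
    have e : W * (a + b) - (a + b) * W = (W * a - a * W) + (W * b - b * W) := by noncomm_ring
    rw [e]
    exact Submodule.add_mem _ ha hb
  | smul c a _ ha =>
    have e : W * (c • a) - (c • a) * W = c • (W * a - a * W) := by
      rw [mul_smul_comm, smul_mul_assoc, smul_sub]
    rw [e]
    exact Submodule.smul_mem _ _ ha

variable [CharZero K]

theorem t7_EE {a : K} (ha : a ≠ 0) {W X : R} (hW : W ∈ t7E I y a (-a)) (hX : X ∈ t7E I y a (-a)) :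
    W * X = 0 := by
  obtain ⟨-, -, h2⟩ := hW
  obtain ⟨-, h3, -⟩ := hX
  have h4 : W * y * X = W * (y * X) := mul_assoc _ _ _
  rw [h2, h3, mul_smul_comm, smul_mul_assoc, neg_smul] at h4
  have h5 : (2 * a) • (W * X) = 0 := by
    rw [two_mul, add_smul]
    nth_rw 1 [← h4]
    rw [neg_add_cancel]
  exact (smul_eq_zero.1 h5).resolve_left (by simpa using ha)

/-- the submodule is stable under the three parts -/
theorem t7_stab (hid : ∀ X ∈ I, ∀ Y ∈ I, X * Y - Y * X ∈ I) {W : R}
    (hW : W ∈ t7E I y (1 : K) (-1) ∨ W ∈ t7E I y (-1 : K) 1 ∨ W ∈ t7Z I y) :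
    ∀ X ∈ t7M I y, W * X - X * W ∈ t7M I y := by
  have hP : t7E I y (1 : K) (-1) ≤ t7M I y := le_sup_left
  have hB : t7B I y ≤ t7M I y := le_sup_left.trans le_sup_right
  have hN : t7E I y (-1 : K) 1 ≤ t7M I y := le_sup_right.trans le_sup_right
  -- the three kinds of elements
  have key : ∀ X, (X ∈ t7E I y (1 : K) (-1) ∨ X ∈ t7B I y ∨ X ∈ t7E I y (-1 : K) 1) →
      W * X - X * W ∈ t7M I y := by
    intro X hX
    rcases hW with hW | hW | hW
    · rcases hX with hX | hX | hX
      · rw [t7_EE one_ne_zero hW hX, t7_EE one_ne_zero hX hW, sub_zero]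
        exact Submodule.zero_mem _
      · rw [← neg_sub]
        exact Submodule.neg_mem _ (hP (t7_ZE hid (t7_BZ hid hX) hW))
      · exact hB (Submodule.subset_span ⟨W, hW, X, hX, rfl⟩)
    · rcases hX with hX | hX | hX
      · rw [← neg_sub]
        exact Submodule.neg_mem _ (hB (Submodule.subset_span ⟨X, hX, W, hW, rfl⟩))
      · rw [← neg_sub]
        exact Submodule.neg_mem _ (hN (t7_ZE hid (t7_BZ hid hX) hW))
      · have h0 : (-1 : K) ≠ 0 := neg_ne_zero.2 one_ne_zero
        have hW' : W ∈ t7E I y (-1 : K) (-(-1)) := by rw [neg_neg]; exact hW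
        have hX' : X ∈ t7E I y (-1 : K) (-(-1)) := by rw [neg_neg]; exact hX
        rw [t7_EE h0 hW' hX', t7_EE h0 hX' hW', sub_zero]
        exact Submodule.zero_mem _
    · rcases hX with hX | hX | hX
      · exact hP (t7_ZE hid hW hX)
      · exact hB (t7_ZB hid hW hX)
      · exact hN (t7_ZE hid hW hX)
  have hlin : ∀ A B : R, W * A - A * W ∈ t7M I y → W * B - B * W ∈ t7M I y →
      W * (A + B) - (A + B) * W ∈ t7M I y := by
    intro A B hA hB
    have e : W * (A + B) - (A + B) * W = (W * A - A * W) + (W * B - B * W) := by noncomm_ring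
    rw [e]
    exact Submodule.add_mem _ hA hB
  intro X hX
  obtain ⟨A, hA, X', hX', rfl⟩ := Submodule.mem_sup.1 hX
  obtain ⟨B, hB', C, hC, rfl⟩ := Submodule.mem_sup.1 hX'
  exact hlin _ _ (key A (Or.inl hA)) (hlin _ _ (key B (Or.inr (Or.inl hB')))
    (key C (Or.inr (Or.inr hC))))

theorem t7_le (hid : ∀ X ∈ I, ∀ Y ∈ I, X * Y - Y * X ∈ I) : t7M I y ≤ I := by
  refine sup_le (fun X hX => hX.1) (sup_le (fun X hX => (t7_BZ hid hX).1) (fun X hX => hX.1))

/-- the decomposition -/
theorem t7_dec (hid : ∀ X ∈ I, ∀ Y ∈ I, X * Y - Y * X ∈ I) (hy : y ∈ I) (hyy : y * y = 1) {W : R}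
    (hW : W ∈ I) : ∃ A ∈ t7E I y (1 : K) (-1), ∃ B ∈ t7E I y (-1 : K) 1, ∃ C ∈ t7Z I y,
      W = A + B + C ∧ y * W - W * y = (2 : K) • A - (2 : K) • B := by
  have h1 : y * W - W * y ∈ I := hid _ hy _ hW
  have h2 : W - y * W * y ∈ I := by
    have h3 : y * (y * W - W * y) - (y * W - W * y) * y ∈ I := hid _ hy _ h1
    have e : y * (y * W - W * y) - (y * W - W * y) * y = (2 : K) • (W - y * W * y) := by
      rw [mul_sub, sub_mul, ← mul_assoc, hyy, one_mul, mul_assoc W y y, hyy, mul_one, two_smul,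
        ← mul_assoc]
      abel
    rw [e] at h3
    have h4 := I.smul_mem (2 : K)⁻¹ h3
    rwa [smul_smul, inv_mul_cancel₀ (two_ne_zero), one_smul] at h4
  have y1 : y * (y * W * y) = W * y := by rw [← mul_assoc, ← mul_assoc, hyy, one_mul]
  have y2 : y * W * y * y = y * W := by rw [mul_assoc, hyy, mul_one]
  have y3 : y * (y * W) = W := by rw [← mul_assoc, hyy, one_mul]
  have y4 : W * y * y = W := by rw [mul_assoc, hyy, mul_one]
  have y5 : y * (W * y) = y * W * y := by rw [mul_assoc]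
  refine ⟨(4 : K)⁻¹ • ((W - y * W * y) + (y * W - W * y)), ⟨I.smul_mem _ (I.add_mem h2 h1), ?_, ?_⟩,
    (4 : K)⁻¹ • ((W - y * W * y) - (y * W - W * y)), ⟨I.smul_mem _ (I.sub_mem h2 h1), ?_, ?_⟩,
    W - (2 : K)⁻¹ • (W - y * W * y), ⟨I.sub_mem hW (I.smul_mem _ h2), ?_⟩, ?_, ?_⟩
  · rw [mul_smul_comm, one_smul, mul_add, mul_sub, mul_sub, y1, y3, y5]
    congr 1
    abel
  · rw [smul_mul_assoc, add_mul, sub_mul, sub_mul, y2, y4, smul_comm, neg_smul, one_smul]
    congr 1
    abel
  · rw [mul_smul_comm, mul_sub, mul_sub, mul_sub, y1, y3, y5, smul_comm, neg_smul, one_smul]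
    congr 1
    abel
  · rw [smul_mul_assoc, sub_mul, sub_mul, sub_mul, y2, y4, one_smul]
    congr 1
    abel
  · rw [mul_sub, sub_mul, mul_smul_comm, smul_mul_assoc, mul_sub, sub_mul, y1, y2]
    module
  · module
  · module

/-- the abstract form -/
theorem t7_abs (hIL : I ≤ L) (hid : ∀ X ∈ L, ∀ Y ∈ I, X * Y - Y * X ∈ I) (hy : y ∈ I)
    (hyy : y * y = 1)
    (hL : ∀ S : Submodule K R, I ≤ S → (∀ W, (∀ X ∈ I, W * X = X * W) → W ∈ S) → L ≤ S)
    (hmin : ∀ J : Submodule K R, J ≤ L → (∀ X ∈ L, ∀ Y ∈ J, X * Y - Y * X ∈ J) → J ≤ I →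
      J = ⊥ ∨ J = I)
    (hnc : ∃ W ∈ I, y * W ≠ W * y) {Z : R}
    (hZ : ∀ X ∈ I, (y * X - X * y = (2 : K) • X ∨ y * X - X * y = (-2 : K) • X) →
      Z * X = X * Z) :
    ∀ X ∈ I, Z * X = X * Z := by
  have hid' : ∀ X ∈ I, ∀ Y ∈ I, X * Y - Y * X ∈ I := fun X hX => hid X (hIL hX)
  have hle : t7M I y ≤ I := t7_le hid'
  let S : Submodule K R :=
    { carrier := {W | ∀ X ∈ t7M I y, W * X - X * W ∈ t7M I y}
      add_mem' := by
        intro A B hA hB X hX
        have e : (A + B) * X - X * (A + B) = (A * X - X * A) + (B * X - X * B) := by noncomm_ring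
        rw [e]
        exact Submodule.add_mem _ (hA X hX) (hB X hX)
      zero_mem' := by
        intro X hX
        rw [zero_mul, mul_zero, sub_zero]
        exact Submodule.zero_mem _
      smul_mem' := by
        intro c A hA X hX
        rw [smul_mul_assoc, mul_smul_comm, ← smul_sub]
        exact Submodule.smul_mem _ _ (hA X hX) }
  have hS : L ≤ S := by
    apply hL
    · intro W hW
      obtain ⟨A, hA, B, hB, C, hC, rfl, -⟩ := t7_dec hid' hy hyy hW
      exact S.add_mem (S.add_mem (t7_stab hid' (Or.inl hA)) (t7_stab hid' (Or.inr (Or.inl hB))))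
        (t7_stab hid' (Or.inr (Or.inr hC)))
    · intro W hW X hX
      rw [hW X (hle hX), sub_self]
      exact Submodule.zero_mem _
  rcases hmin (t7M I y) (hle.trans hIL) (fun X hX Y hY => hS hX Y hY) hle with h0 | h0
  · exfalso
    obtain ⟨W, hW, hW2⟩ := hnc
    obtain ⟨A, hA, B, hB, C, -, -, h1⟩ := t7_dec hid' hy hyy hW
    have hA0 : A ∈ t7M I y := Submodule.mem_sup_left hA
    have hB0 : B ∈ t7M I y := Submodule.mem_sup_right (Submodule.mem_sup_right hB)
    rw [h0, Submodule.mem_bot] at hA0 hB0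
    rw [hA0, hB0, smul_zero, sub_zero] at h1
    exact hW2 (sub_eq_zero.1 h1)
  · have hP : ∀ X ∈ t7E I y (1 : K) (-1), Z * X = X * Z := by
      rintro X ⟨h1, h2, h3⟩
      refine hZ X h1 (Or.inl ?_)
      rw [h2, h3]
      module
    have hN : ∀ X ∈ t7E I y (-1 : K) 1, Z * X = X * Z := by
      rintro X ⟨h1, h2, h3⟩
      refine hZ X h1 (Or.inr ?_)
      rw [h2, h3]
      module
    have hB : ∀ X ∈ t7B I y, Z * X = X * Z := by
      intro X hX
      unfold t7B at hX
      induction hX using Submodule.span_induction with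
      | mem b hb =>
        obtain ⟨X, hX, X', hX', rfl⟩ := hb
        have e1 := hP X hX
        have e2 := hN X' hX'
        rw [mul_sub, sub_mul, ← mul_assoc, ← mul_assoc, e1, e2, mul_assoc, mul_assoc, e1, e2,
          mul_assoc, mul_assoc]
      | zero => rw [mul_zero, zero_mul]
      | add a b _ _ ha hb => rw [mul_add, add_mul, ha, hb]
      | smul c a _ ha => rw [mul_smul_comm, smul_mul_assoc, ha]
    intro X hX
    rw [← h0] at hX
    obtain ⟨A, hA, X', hX', rfl⟩ := Submodule.mem_sup.1 hX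
    obtain ⟨B, hB', C, hC, rfl⟩ := Submodule.mem_sup.1 hX'
    rw [mul_add, add_mul, mul_add, add_mul, hP A hA, hB B hB', hN C hC]

end Abs

variable {κ : Type*} {K : Type*} [Field K] [CharZero K] [Fintype κ] [DecidableEq κ]
  {L : Submodule K (Module.End K (κ → K))} {J : Matrix κ κ K}
variable [IsAlgClosed K] [Nonempty κ] {m : ℕ} {I : Fin m → Submodule K (Module.End K (κ → K))}

/-- PROOF. Write `ad X = y * X - X * y`.  As `y * y = 1`, `ad (ad X) = 2 X - 2 y X y` and `ad (ad (ad X)) = 4 ad X`.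
For `X ∈ I j` put `X₊ = (1 / 8) (ad (ad X) + 2 ad X)`, `X₋ = (1 / 8) (ad (ad X) - 2 ad X)`, `X₀ = X - X₊ - X₋`; all in `I j` (`y ∈ I j ≤ L`),
`ad X₊ = 2 X₊`, `ad X₋ = -2 X₋`, `ad X₀ = 0`.  Let `P = {X ∈ I j | ad X = 2 X}`, `N = {X ∈ I j | ad X = -2 X}`, and let `B` be the span of
the `X * X' - X' * X`, `X ∈ P`, `X' ∈ N`; `M = P + B + N`.  `M` is an ideal of `L`: elements of `I i`, `i ≠ j`, commute with `I j`
(`hF.comm`, `hF.sup`: induction over the supremum), and for `X ∈ I j` treat `X₀`, `X₊`, `X₋` separately.  `[X₀, P] ⊆ P`,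
`[X₀, N] ⊆ N` and `[X₀, B] ⊆ B` by the Jacobi identity.  `[P, P] = 0`: `ad X = 2 X` means `X = p X (1 - p)` with the idempotent
`p = (1 + y) / 2`, so `X X' = 0` for `X`, `X' ∈ P`; in the same way `[N, N] = 0`.  `[P, N] ⊆ B`.  `[P, B] ⊆ P`: `ad` of an element of `B` is `0`
(Jacobi), so `ad [X, Z] = 2 [X, Z]` for `X ∈ P`, `Z ∈ B`, and `[X, Z] ∈ I j`.  The same for `N`.
`M ≠ ⊥`: otherwise `X₊ = X₋ = 0` for all `X ∈ I j`, `y` commutes with `I j`, hence with `L`, so `y` is a scalar (`h.gen`) of trace zero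
(`h.tr`), so `y = 0`, contradiction to `y * y = 1`.  So `M = I j` (`hF.min`).  `Z` commutes with `P`, `N`, hence with `B` and with `M`. -/
theorem gen_of_grading (h : Cmp L J) (hF : Fam L I) {j : Fin m} {y : Module.End K (κ → K)}
    (hy : y ∈ I j) (hyy : y * y = 1) {Z : Module.End K (κ → K)}
    (hZ : ∀ X ∈ I j, (y * X - X * y = (2 : K) • X ∨ y * X - X * y = (-2 : K) • X) →
      Z * X = X * Z) :
    ∀ X ∈ I j, Z * X = X * Z := by
  refine t7_abs (hF.ideal j).1 (hF.ideal j).2 hy hyy ?_ ?_ ?_ hZ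
  · intro S hS1 hS2
    rw [← hF.sup]
    refine iSup_le fun i => ?_
    by_cases hij : i = j
    · rw [hij]
      exact hS1
    · intro W hW
      exact hS2 W fun X hX => hF.comm i j hij W hW X hX
  · intro J' h1 h2 h3
    exact hF.min j J' ⟨h1, h2⟩ h3
  · by_contra hcon
    push Not at hcon
    have h1 : y = 0 := t4_zero h hF ((hF.ideal j).1 hy) fun i Y hY => by
      by_cases hij : i = j
      · subst hij
        exact hcon Y hY
      · exact hF.comm j i (Ne.symm hij) y hy Y hY
    rw [h1, mul_zero] at hyy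
    exact zero_ne_one hyy

end Pool.Agent.H76P
end

-- from Lib.H76P.T2
section

/-!
# T2: the evaluations; two commuting algebras
-/

set_option autoImplicit false
set_option linter.unusedSectionVars false
namespace Pool.Agent.H76P
open Module Matrix Pool.Agent.H53Toric
open Pool.Agent.H76T (IsIdeal Fam)
open Pool.Agent.H76V (Cmp)

section
variable {κ : Type*} {K : Type*} [Field K] [CharZero K] [Fintype κ] [DecidableEq κ]
  {L : Submodule K (Module.End K (κ → K))} {J : Matrix κ κ K} {ν : κ → ℚ}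

/-- PROOF. `Yo L` is finite dimensional.  If the span `W` of the differences is not everything, there is a nonzero functional on the
dual space which vanishes on `W`; it is the evaluation at some `f : Yo L`, `f ≠ 0` (`Module.evalEquiv`, reflexivity).  So `f a = f b` for all
`a`, `b`, and `∑ a, f a = 0` (`Yo_sum`), hence `f = 0` (`κ` empty is trivial), contradiction. -/
theorem pt_spans (h : Cmp L J) : Spans (pt L) := by
  unfold Spans
  by_contra hW
  obtain ⟨f, hf0, hf⟩ := Submodule.exists_le_ker_of_lt_top _ (lt_top_iff_ne_top.2 hW)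
  obtain ⟨x, rfl⟩ := (Module.evalEquiv ℚ (Yo L)).surjective f
  apply hf0
  have hx : x = 0 := by
    have h1 : ∀ a b, (x : κ → ℚ) b = (x : κ → ℚ) a := by
      intro a b
      have h2 : pt L b - pt L a ∈ LinearMap.ker ((Module.evalEquiv ℚ (Yo L)) x) :=
        hf (Submodule.subset_span ⟨a, b, rfl⟩)
      rw [LinearMap.mem_ker] at h2
      have h3 : (pt L b - pt L a) x = 0 := h2
      rw [LinearMap.sub_apply, pt_apply, pt_apply] at h3
      exact sub_eq_zero.1 h3
    have h4 := Yo_sum h x.2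
    apply Subtype.ext
    funext a
    have h5 : ∑ b, (x : κ → ℚ) b = (Fintype.card κ : ℚ) * (x : κ → ℚ) a := by
      rw [Finset.sum_congr rfl (fun b _ => h1 a b), Finset.sum_const, Finset.card_univ, nsmul_eq_mul]
    rw [h5] at h4
    have h6 : (Fintype.card κ : ℚ) ≠ 0 := by
      have : Nonempty κ := ⟨a⟩
      exact_mod_cast Fintype.card_ne_zero
    rcases mul_eq_zero.1 h4 with h7 | h7
    · exact absurd h7 h6
    · exact h7
  rw [hx, map_zero]

/-- PROOF. `TC.sep`. -/
theorem TC.pt_inj (h : TC L J ν) : Function.Injective (pt L) := by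
  intro a b hab
  by_contra hne
  obtain ⟨f, hf, hfab⟩ := h.sep hne
  apply hfab
  have h1 := congrArg (fun φ : Module.Dual ℚ (Yo L) => φ ⟨f, hf⟩) hab
  exact h1

end

section
variable {K : Type*} [Field K] {V : Type*} [AddCommGroup V] [Module K V]

/-- PROOF. Suppose `p * q = 0`, `q ≠ 0`, `p ≠ 0`.  Let `W = {w | ∀ z ∈ A₂, p (z w) = 0}`, a subspace.  It is stable under `A₂` (`A₂` is closed under
products) and under `A₁` (for `x ∈ A₁`: `p (z (x w)) = x (p (z w))`, as `x` commutes with `p` and `z`), so it is stable under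
`A₁ ⊔ A₂ = ⊤`, i.e. under all operators (the operators which map `W` to `W` are a subalgebra containing `A₁` and `A₂`).  `W` contains
the range of `q`: `p (z (q v)) = p (q (z v)) = 0`.  As `q ≠ 0`, `W` contains a nonzero vector, and since every vector is the image of it
under some operator, `W = ⊤`.  So `p = 0` (`z = 1`), contradiction. -/
theorem nonvan {A₁ A₂ : Subalgebra K (Module.End K V)}
    (hcomm : ∀ X ∈ A₁, ∀ Y ∈ A₂, X * Y = Y * X) (hfull : A₁ ⊔ A₂ = ⊤)
    {p q : Module.End K V} (hp : p ∈ A₂) (hq : q ∈ A₁) (hp0 : p ≠ 0) (hq0 : q ≠ 0) :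
    p * q ≠ 0 := by
  intro hpq
  let W : Submodule K V :=
    { carrier := {w | ∀ z ∈ A₂, p (z w) = 0}
      add_mem' := by
        intro a b ha hb z hz
        rw [map_add, map_add, ha z hz, hb z hz, add_zero]
      zero_mem' := by
        intro z _
        rw [map_zero, map_zero]
      smul_mem' := by
        intro c a ha z hz
        rw [map_smul, map_smul, ha z hz, smul_zero] }
  let S : Subalgebra K (Module.End K V) :=
    { carrier := {X | ∀ w ∈ W, X w ∈ W}
      mul_mem' := by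
        intro X Y hX hY w hw
        exact hX _ (hY _ hw)
      add_mem' := by
        intro X Y hX hY w hw
        exact W.add_mem (hX _ hw) (hY _ hw)
      algebraMap_mem' := by
        intro c w hw
        exact W.smul_mem c hw }
  have h1 : A₁ ≤ S := by
    intro X hX w hw z hz
    have e1 : z (X w) = X (z w) := by
      have := congrArg (fun T : Module.End K V => T w) (hcomm X hX z hz)
      exact this.symm
    have e2 : p (X (z w)) = X (p (z w)) := by
      have := congrArg (fun T : Module.End K V => T (z w)) (hcomm X hX p hp)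
      exact this.symm
    rw [e1, e2, hw z hz, map_zero]
  have h2 : A₂ ≤ S := by
    intro X hX w hw z hz
    exact hw (z * X) (A₂.mul_mem hz hX)
  have h3 : ∀ X : Module.End K V, X ∈ S := by
    intro X
    have h4 : A₁ ⊔ A₂ ≤ S := sup_le h1 h2
    rw [hfull] at h4
    exact h4 Algebra.mem_top
  obtain ⟨v, hv⟩ : ∃ v, q v ≠ 0 := by
    by_contra hcon
    push Not at hcon
    exact hq0 (LinearMap.ext hcon)
  have hqv : q v ∈ W := by
    intro z hz
    have e1 : z (q v) = q (z v) := by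
      have := congrArg (fun T : Module.End K V => T v) (hcomm q hq z hz)
      exact this.symm
    rw [e1]
    exact congrArg (fun T : Module.End K V => T (z v)) hpq
  obtain ⟨φ, hφ⟩ : ∃ φ : Module.Dual K V, φ (q v) ≠ 0 := by
    by_contra hcon
    push Not at hcon
    exact hv ((Module.forall_dual_apply_eq_zero_iff K (q v)).1 hcon)
  apply hp0
  refine LinearMap.ext fun u => ?_
  have h5 := h3 (φ.smulRight ((φ (q v))⁻¹ • u)) (q v) hqv
  have h6 : (φ.smulRight ((φ (q v))⁻¹ • u)) (q v) = u := by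
    rw [LinearMap.smulRight_apply, smul_smul, mul_inv_cancel₀ hφ, one_smul]
  rw [h6] at h5
  exact h5 1 A₂.one_mem

end

end Pool.Agent.H76P
end

-- from Lib.H76P.T3
section

/-!
# T3: mixing of coordinates
-/

set_option autoImplicit false
set_option linter.unusedSectionVars false
namespace Pool.Agent.H76P
open Module Matrix Pool.Agent.H53Toric
open Pool.Agent.H76T (IsIdeal Fam)
open Pool.Agent.H76V (Cmp alg calg)

variable {κ : Type*} {K : Type*} [Field K] [CharZero K] [Fintype κ] [DecidableEq κ]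
  {L : Submodule K (Module.End K (κ → K))} {J : Matrix κ κ K} {ν : κ → ℚ}

/-- Indicators. PROOF. For `c` with `∃ f ∈ S, f c ≠ f b` choose such an `f = f_c`; the product over these `c` of the operators
`(f_c b - f_c c)⁻¹ • (dq f_c - f_c c • 1)` is `dg` of a function which is `1` at all `d` with `f d = f b` for all `f ∈ S`, and `0` at all
other points. -/
theorem indicator_mem {A : Subalgebra K (Module.End K (κ → K))} {S : Set (κ → ℚ)}
    (hS : ∀ f ∈ S, dq f ∈ A) (b : κ) : ∃ g : κ → K, dg g ∈ A ∧ g b = 1 ∧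
      ∀ c, g c ≠ 0 → ∀ f ∈ S, f c = f b := by
  have key : ∀ s : Finset κ, ∃ g : κ → K, dg g ∈ A ∧ g b = 1 ∧
      ∀ c ∈ s, g c ≠ 0 → ∀ f ∈ S, f c = f b := by
    intro s
    induction s using Finset.induction_on with
    | empty =>
      refine ⟨1, ?_, rfl, fun c hc => absurd hc (Finset.notMem_empty c)⟩
      rw [dg_one]
      exact A.one_mem
    | insert c s hcs ih =>
      obtain ⟨g, hg, hgb, hgs⟩ := ih
      by_cases hc : ∀ f ∈ S, f c = f b
      · refine ⟨g, hg, hgb, fun d hd hgd => ?_⟩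
        rcases Finset.mem_insert.1 hd with h1 | h1
        · rw [h1]
          exact hc
        · exact hgs d h1 hgd
      · push Not at hc
        obtain ⟨f, hf, hne⟩ := hc
        have hfb : ((f b : K) - (f c : K)) ≠ 0 := by
          intro h1
          apply hne
          have h2 : (f b : K) = (f c : K) := sub_eq_zero.1 h1
          exact_mod_cast h2.symm
        have hmem : dg (fun d => ((f b : K) - (f c : K))⁻¹ * ((f d : K) - (f c : K))) ∈ A := by
          have e : dg (fun d => ((f b : K) - (f c : K))⁻¹ * ((f d : K) - (f c : K))) =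
              ((f b : K) - (f c : K))⁻¹ • ((dq f : Module.End K (κ → K)) - (f c : K) • 1) := by
            refine LinearMap.ext fun v => funext fun d => ?_
            unfold dq
            simp only [dg_apply, LinearMap.smul_apply, LinearMap.sub_apply, Pi.smul_apply,
              Pi.sub_apply, Module.End.one_apply, smul_eq_mul]
            ring
          rw [e]
          exact A.smul_mem (A.sub_mem (hS f hf) (A.smul_mem A.one_mem _)) _
        refine ⟨(fun d => ((f b : K) - (f c : K))⁻¹ * ((f d : K) - (f c : K))) * g, ?_, ?_, ?_⟩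
        · rw [← dg_mul]
          exact A.mul_mem hmem hg
        · rw [Pi.mul_apply, hgb, mul_one]
          exact inv_mul_cancel₀ hfb
        · intro d hd hgd
          rw [Pi.mul_apply] at hgd
          rcases Finset.mem_insert.1 hd with h1 | h1
          · exfalso
            apply hgd
            rw [h1]
            show ((f b : K) - (f c : K))⁻¹ * ((f c : K) - (f c : K)) * g c = 0
            rw [sub_self, mul_zero, zero_mul]
          · exact hgs d h1 (right_ne_zero_of_mul hgd)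
  obtain ⟨g, h1, h2, h3⟩ := key Finset.univ
  exact ⟨g, h1, h2, fun c hc => h3 c (Finset.mem_univ c) hc⟩

variable [IsAlgClosed K] [Nonempty κ] {m : ℕ} {I : Fin m → Submodule K (Module.End K (κ → K))}

/-- PROOF. `indicator_mem` for `A = alg I j`, `S = {f | dq f ∈ I j}` and `b`: `p = dg g`; and for `A = calg I j`,
`S = {f | ∃ i ≠ j, dq f ∈ I i}` and `a`: `q = dg g'`.  Both are nonzero (value at `b`, at `a`), so `p * q ≠ 0` by `nonvan`
(`Fam.calg_comm`, `Fam.calg_top`), i.e. there is `c` with `g c ≠ 0`, `g' c ≠ 0`. -/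
theorem mix (h : Cmp L J) (hF : Fam L I) (j : Fin m) (a b : κ) :
    ∃ c, (∀ f : κ → ℚ, dq f ∈ I j → f c = f b) ∧
      ∀ i, i ≠ j → ∀ f : κ → ℚ, dq f ∈ I i → f c = f a := by
  obtain ⟨g, hg, hgb, hgS⟩ := indicator_mem (A := alg I j)
    (S := {f : κ → ℚ | (dq f : Module.End K (κ → K)) ∈ I j}) (fun f hf => Pool.Agent.H76V.mem_alg hf) b
  obtain ⟨g', hg', hga, hgS'⟩ := indicator_mem (A := calg I j)
    (S := {f : κ → ℚ | ∃ i, i ≠ j ∧ (dq f : Module.End K (κ → K)) ∈ I i})
    (fun f hf => by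
      obtain ⟨i, hij, hfi⟩ := hf
      exact Pool.Agent.H76V.mem_calg hij hfi) a
  have hp0 : dg g ≠ (0 : Module.End K (κ → K)) := by
    intro h0
    have h1 := congrFun (congrArg (fun T : Module.End K (κ → K) => T (Pi.single b 1)) h0) b
    simp only [dg_apply, Pi.single_eq_same, hgb, LinearMap.zero_apply, Pi.zero_apply, mul_one] at h1
    exact one_ne_zero h1
  have hq0 : dg g' ≠ (0 : Module.End K (κ → K)) := by
    intro h0
    have h1 := congrFun (congrArg (fun T : Module.End K (κ → K) => T (Pi.single a 1)) h0) a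
    simp only [dg_apply, Pi.single_eq_same, hga, LinearMap.zero_apply, Pi.zero_apply, mul_one] at h1
    exact one_ne_zero h1
  have hpq := nonvan (Pool.Agent.H76V.Fam.calg_comm hF j) (Pool.Agent.H76V.Fam.calg_top hF h.irr j) hg hg' hp0 hq0
  rw [dg_mul] at hpq
  have hex : ∃ c, (g * g') c ≠ 0 := by
    by_contra hcon
    push Not at hcon
    apply hpq
    refine LinearMap.ext fun v => funext fun c => ?_
    rw [dg_apply, hcon c, zero_mul]
    rfl
  obtain ⟨c, hc⟩ := hex
  rw [Pi.mul_apply] at hc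
  refine ⟨c, fun f hf => hgS c (left_ne_zero_of_mul hc) f hf, fun i hij f hf => ?_⟩
  exact hgS' c (right_ne_zero_of_mul hc) f ⟨i, hij, hf⟩

end Pool.Agent.H76P
end

-- from Lib.H76P.T13
section

/-!
# T13: the decomposition of the space of functions
-/

set_option autoImplicit false
set_option linter.unusedSectionVars false
namespace Pool.Agent.H76P
open Module Matrix Pool.Agent.H53Toric
open Pool.Agent.H76T (IsIdeal Fam)
open Pool.Agent.H76V (Cmp alg calg)

variable {κ : Type*} {K : Type*} [Field K] [CharZero K] [Fintype κ] [DecidableEq κ]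
  {L : Submodule K (Module.End K (κ → K))} {J : Matrix κ κ K} {ν : κ → ℚ}
variable [IsAlgClosed K] [Nonempty κ] {m : ℕ} {I : Fin m → Submodule K (Module.End K (κ → K))}

theorem t13_zero : (dq (0 : κ → ℚ) : Module.End K (κ → K)) = 0 := by
  have h2 := dq_smul (K := K) (0 : ℚ) (0 : κ → ℚ)
  rw [zero_smul, Rat.cast_zero, zero_smul] at h2
  exact h2

/-- `g` is a decomposition of `f` -/
def t13D (L : Submodule K (Module.End K (κ → K))) (I : Fin m → Submodule K (Module.End K (κ → K)))
    (f : κ → ℚ) (g : Fin m → κ → ℚ) : Prop :=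
  (∀ i, g i ∈ Yo L ∧ dq (g i) ∈ I i) ∧ ∑ i, g i = f

theorem t13_single {f : κ → ℚ} (hf : f ∈ Yo L) {j : Fin m} (hj : dq f ∈ I j) :
    t13D L I f (fun i => if i = j then f else 0) := by
  refine ⟨fun i => ?_, ?_⟩
  · dsimp only
    by_cases hij : i = j
    · rw [if_pos hij, hij]
      exact ⟨hf, hj⟩
    · rw [if_neg hij, t13_zero]
      exact ⟨Submodule.zero_mem _, Submodule.zero_mem _⟩
  · rw [Finset.sum_ite_eq' Finset.univ j (fun _ => f), if_pos (Finset.mem_univ j)]

theorem t13_add {f f' : κ → ℚ} {g g' : Fin m → κ → ℚ} (h : t13D L I f g) (h' : t13D L I f' g') :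
    t13D L I (f + f') (g + g') := by
  refine ⟨fun i => ⟨Submodule.add_mem _ (h.1 i).1 (h'.1 i).1, ?_⟩, ?_⟩
  · rw [Pi.add_apply, dq_add]
    exact Submodule.add_mem _ (h.1 i).2 (h'.1 i).2
  · rw [← h.2, ← h'.2, ← Finset.sum_add_distrib]
    rfl

theorem t13_smul (c : ℚ) {f : κ → ℚ} {g : Fin m → κ → ℚ} (h : t13D L I f g) :
    t13D L I (c • f) (c • g) := by
  refine ⟨fun i => ⟨Submodule.smul_mem _ c (h.1 i).1, ?_⟩, ?_⟩
  · rw [Pi.smul_apply, dq_smul]
    exact Submodule.smul_mem _ _ (h.1 i).2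
  · rw [← h.2, Finset.smul_sum]
    rfl

theorem t13_dq_sum (g : Fin m → κ → ℚ) (s : Finset (Fin m)) :
    (dq (∑ i ∈ s, g i) : Module.End K (κ → K)) = ∑ i ∈ s, dq (g i) := by
  induction s using Finset.induction_on with
  | empty => rw [Finset.sum_empty, Finset.sum_empty, t13_zero]
  | insert a s ha ih => rw [Finset.sum_insert ha, Finset.sum_insert ha, dq_add, ih]

theorem t13_unique (h : Cmp L J) (hF : Fam L I) {f : κ → ℚ} {g g' : Fin m → κ → ℚ}
    (hg : t13D L I f g) (hg' : t13D L I f g') (j : Fin m) : g j = g' j := by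
  have h1 := indep h hF (X := fun i => dq (g i) - dq (g' i))
    (fun i => Submodule.sub_mem _ (hg.1 i).2 (hg'.1 i).2) (by
      rw [Finset.sum_sub_distrib, ← t13_dq_sum, ← t13_dq_sum, hg.2, hg'.2, sub_self]) j
  exact dq_inj (K := K) (sub_eq_zero.1 h1)

/-- PROOF. Every element of `Hs L` is in one of the `I j` (`Hs_mem`); span induction. -/
theorem exists_decomp (h : Cmp L J) (hF : Fam L I) {f : κ → ℚ} (hf : f ∈ Yo L) :
    ∃ g : Fin m → κ → ℚ, (∀ i, g i ∈ Yo L ∧ dq (g i) ∈ I i) ∧ ∑ i, g i = f := by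
  have key : f ∈ Submodule.span ℚ (Hs L) := hf
  induction key using Submodule.span_induction with
  | mem ε hε =>
    obtain ⟨j, hj⟩ := Hs_mem h hF hε
    exact ⟨_, t13_single (Submodule.subset_span hε) hj⟩
  | zero =>
    refine ⟨0, fun i => ⟨Submodule.zero_mem _, ?_⟩, Finset.sum_const_zero⟩
    rw [Pi.zero_apply, t13_zero]
    exact Submodule.zero_mem _
  | add x y hx hy ihx ihy =>
    obtain ⟨g, hg⟩ := ihx hx
    obtain ⟨g', hg'⟩ := ihy hy
    exact ⟨_, t13_add hg hg'⟩
  | smul c x hx ihx =>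
    obtain ⟨g, hg⟩ := ihx hx
    exact ⟨_, t13_smul c hg⟩

/-- PROOF. `P f = g j` with `g` as in `exists_decomp`; `g` is unique by `indep` and `dq_inj`, so `P` is linear, `P f = f` if
`dq f ∈ I j` and `P f = 0` if `dq f ∈ I i`, `i ≠ j`.  (Or: the subspaces `{f : Yo L | dq f ∈ I i}` are independent with sum `⊤`.)
`P * P = P`, so `P.dualMap` is idempotent.  Splitting: for `a`, `b` let `c` be as in `mix`; for `f : Yo L` with the components
`g i`: `f c = g j c + ∑_{i ≠ j} g i c = g j b + ∑_{i ≠ j} g i a = f a + (P f) b - (P f) a`. -/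
theorem exists_proj (h : Cmp L J) (hF : Fam L I) (j : Fin m) :
    ∃ P : Module.End ℚ (Yo L), (∀ f, dq (P f : κ → ℚ) ∈ I j) ∧
      (∀ f : Yo L, dq (f : κ → ℚ) ∈ I j → P f = f) ∧
      (∀ i, i ≠ j → ∀ f : Yo L, dq (f : κ → ℚ) ∈ I i → P f = 0) ∧
      Spl (pt L) P.dualMap := by
  choose G hG using fun f : Yo L => exists_decomp h hF f.2
  have hG' : ∀ f : Yo L, t13D L I (f : κ → ℚ) (G f) := hG
  let P : Module.End ℚ (Yo L) :=
    { toFun := fun f => ⟨G f j, ((hG' f).1 j).1⟩
      map_add' := fun f f' => Subtype.ext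
        (t13_unique h hF (hG' (f + f')) (t13_add (hG' f) (hG' f')) j)
      map_smul' := fun c f => Subtype.ext
        (t13_unique h hF (hG' (c • f)) (t13_smul c (hG' f)) j) }
  have hP : ∀ f, ((P f : Yo L) : κ → ℚ) = G f j := fun f => rfl
  have hP1 : ∀ f, dq (P f : κ → ℚ) ∈ I j := fun f => ((hG' f).1 j).2
  have hP2 : ∀ f : Yo L, dq (f : κ → ℚ) ∈ I j → P f = f := by
    intro f hf
    apply Subtype.ext
    rw [hP, t13_unique h hF (hG' f) (t13_single f.2 hf) j, if_pos rfl]
  have hP3 : ∀ i, i ≠ j → ∀ f : Yo L, dq (f : κ → ℚ) ∈ I i → P f = 0 := by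
    intro i hij f hf
    apply Subtype.ext
    rw [hP, t13_unique h hF (hG' f) (t13_single f.2 hf) j, if_neg (Ne.symm hij)]
    rfl
  refine ⟨P, hP1, hP2, hP3, ?_, fun a b => ?_⟩
  · refine LinearMap.ext fun φ => LinearMap.ext fun f => ?_
    show φ (P (P f)) = φ (P f)
    rw [hP2 (P f) (hP1 f)]
  · obtain ⟨c, hc1, hc2⟩ := mix h hF j a b
    refine ⟨c, LinearMap.ext fun f => ?_⟩
    show (f : κ → ℚ) c = (f : κ → ℚ) a + ((P f : κ → ℚ) b - (P f : κ → ℚ) a)
    rw [hP]
    have hs : ∀ x, (f : κ → ℚ) x = G f j x + ∑ i ∈ Finset.univ.erase j, G f i x := by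
      intro x
      rw [Finset.add_sum_erase Finset.univ (fun i => G f i x) (Finset.mem_univ j),
        ← Finset.sum_apply, (hG' f).2]
    rw [hs c, hs a, hc1 _ ((hG' f).1 j).2]
    have h5 : ∑ i ∈ Finset.univ.erase j, G f i c = ∑ i ∈ Finset.univ.erase j, G f i a :=
      Finset.sum_congr rfl fun i hi => hc2 i (Finset.ne_of_mem_erase hi) _ ((hG' f).1 i).2
    rw [h5]
    ring

end Pool.Agent.H76P
end

-- from Lib.H76P.T5
section

/-!
# T5: weight components
-/

set_option autoImplicit false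
set_option linter.unusedSectionVars false
namespace Pool.Agent.H76P
open Module Matrix Pool.Agent.H53Toric
open Pool.Agent.H76T (IsIdeal Fam)
open Pool.Agent.H76V (Cmp alg calg)

variable {κ : Type*} {K : Type*} [Field K] [CharZero K] [Fintype κ] [DecidableEq κ]
  {L : Submodule K (Module.End K (κ → K))} {J : Matrix κ κ K} {ν : κ → ℚ}

open Classical in
/-- The component of weight `δ` of the operator `X`. -/
noncomputable def wc (L : Submodule K (Module.End K (κ → K))) (δ : Module.Dual ℚ (Yo L))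
    (X : Module.End K (κ → K)) : Module.End K (κ → K) :=
  Matrix.toLin' (Matrix.of fun c d =>
    if pt L c - pt L d = δ then LinearMap.toMatrix' X c d else 0)

/-- The operator `X` has weight `δ`. -/
def IsWt (L : Submodule K (Module.End K (κ → K))) (δ : Module.Dual ℚ (Yo L))
    (X : Module.End K (κ → K)) : Prop :=
  ∀ g : Yo L, dq (g : κ → ℚ) * X - X * dq (g : κ → ℚ) = ((δ g : ℚ) : K) • X

theorem t5_ext {X Y : Module.End K (κ → K)}
    (h : ∀ c d, LinearMap.toMatrix' X c d = LinearMap.toMatrix' Y c d) : X = Y :=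
  LinearMap.toMatrix'.injective (Matrix.ext h)

open Classical in
theorem t5_wc (δ : Module.Dual ℚ (Yo L)) (X : Module.End K (κ → K)) (c d : κ) :
    LinearMap.toMatrix' (wc L δ X) c d =
      if pt L c - pt L d = δ then LinearMap.toMatrix' X c d else 0 := by
  unfold wc
  rw [LinearMap.toMatrix'_toLin', Matrix.of_apply]

theorem t5_left (f : κ → ℚ) (X : Module.End K (κ → K)) (c d : κ) :
    LinearMap.toMatrix' (dq f * X) c d = (f c : K) * LinearMap.toMatrix' X c d := by
  rw [LinearMap.toMatrix'_apply, LinearMap.toMatrix'_apply]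
  rfl

theorem t5_right (f : κ → ℚ) (X : Module.End K (κ → K)) (c d : κ) :
    LinearMap.toMatrix' (X * dq f) c d = (f d : K) * LinearMap.toMatrix' X c d := by
  rw [LinearMap.toMatrix'_apply, LinearMap.toMatrix'_apply, Module.End.mul_apply]
  have h : (dq f : Module.End K (κ → K)) (Pi.single d 1) = (f d : K) • Pi.single d 1 := by
    ext a
    rw [dq, dg_apply, Pi.smul_apply, smul_eq_mul]
    by_cases h : a = d
    · subst h
      rfl
    · rw [Pi.single_eq_of_ne h, mul_zero, mul_zero]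
  have h2 : X ((dq f : Module.End K (κ → K)) (Pi.single d 1)) = (f d : K) • X (Pi.single d 1) := by
    rw [h, map_smul]
  exact congrFun h2 c

/-- the entries of the commutator -/
theorem t5_comm (g : Yo L) (X : Module.End K (κ → K)) (c d : κ) :
    LinearMap.toMatrix' (dq (g : κ → ℚ) * X - X * dq (g : κ → ℚ)) c d =
      (((pt L c - pt L d) g : ℚ) : K) * LinearMap.toMatrix' X c d := by
  rw [map_sub, Matrix.sub_apply, t5_left, t5_right, LinearMap.sub_apply, pt_apply, pt_apply,
    Rat.cast_sub, sub_mul]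

/-- PROOF. Entries: the entry `(c, d)` of the left side is `(g c - g d) x`, and `g c - g d = δ g` where the entry of `wc L δ X` is
not zero. -/
theorem wc_wt (δ : Module.Dual ℚ (Yo L)) (X : Module.End K (κ → K)) : IsWt L δ (wc L δ X) := by
  classical
  intro g
  refine t5_ext fun c d => ?_
  rw [t5_comm, map_smul, Matrix.smul_apply, smul_eq_mul, t5_wc]
  by_cases h : pt L c - pt L d = δ
  · rw [h]
  · rw [if_neg h, mul_zero, mul_zero]

/-- PROOF. Entries: if `X` has weight `δ` and the entry `(c, d)` is not zero then `g c - g d = δ g` for all `g`, so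
`pt L c - pt L d = δ`. -/
theorem IsWt.entry {δ : Module.Dual ℚ (Yo L)} {X : Module.End K (κ → K)} (hX : IsWt L δ X)
    {c d : κ} (h0 : LinearMap.toMatrix' X c d ≠ 0) : pt L c - pt L d = δ := by
  refine LinearMap.ext fun g => ?_
  have h1 := t5_comm g X c d
  rw [hX g, map_smul, Matrix.smul_apply, smul_eq_mul] at h1
  have h2 := mul_right_cancel₀ h0 h1
  exact_mod_cast h2.symm

theorem IsWt.wc_self {δ : Module.Dual ℚ (Yo L)} {X : Module.End K (κ → K)} (hX : IsWt L δ X) :
    wc L δ X = X := by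
  classical
  refine t5_ext fun c d => ?_
  rw [t5_wc]
  by_cases h0 : LinearMap.toMatrix' X c d = 0
  · rw [h0, ite_self]
  · rw [if_pos (hX.entry h0)]

theorem IsWt.wc_other {δ δ' : Module.Dual ℚ (Yo L)} {X : Module.End K (κ → K)}
    (hX : IsWt L δ X) (hne : δ' ≠ δ) : wc L δ' X = 0 := by
  classical
  refine t5_ext fun c d => ?_
  rw [t5_wc, map_zero, Matrix.zero_apply]
  by_cases h0 : LinearMap.toMatrix' X c d = 0
  · rw [h0, ite_self]
  · rw [if_neg]
    intro h
    exact hne (h.symm.trans (hX.entry h0))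

theorem IsWt.mul {δ δ' : Module.Dual ℚ (Yo L)} {X X' : Module.End K (κ → K)}
    (hX : IsWt L δ X) (hX' : IsWt L δ' X') : IsWt L (δ + δ') (X * X') := by
  intro g
  have h1 := hX g
  have h2 := hX' g
  calc dq (g : κ → ℚ) * (X * X') - X * X' * dq (g : κ → ℚ)
      = (dq (g : κ → ℚ) * X - X * dq (g : κ → ℚ)) * X' +
          X * (dq (g : κ → ℚ) * X' - X' * dq (g : κ → ℚ)) := by
        rw [sub_mul, mul_sub]
        simp only [mul_assoc]
        abel
    _ = (((δ + δ') g : ℚ) : K) • (X * X') := by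
        rw [h1, h2, LinearMap.add_apply, Rat.cast_add, add_smul, smul_mul_assoc, mul_smul_comm]

/-- `X` is the sum of its components; the sum is over the finite set of all `pt L c - pt L d`. -/
theorem wc_sum (X : Module.End K (κ → K)) : ∃ s : Finset (Module.Dual ℚ (Yo L)),
    (∀ δ ∉ s, wc L δ X = 0) ∧ ∑ δ ∈ s, wc L δ X = X := by
  classical
  refine ⟨Finset.univ.image fun p : κ × κ => pt L p.1 - pt L p.2, ?_, ?_⟩
  · intro δ hδ
    refine t5_ext fun c d => ?_
    rw [t5_wc, map_zero, Matrix.zero_apply, if_neg]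
    intro h
    exact hδ (Finset.mem_image.2 ⟨(c, d), Finset.mem_univ _, h⟩)
  · refine t5_ext fun c d => ?_
    rw [map_sum, Matrix.sum_apply]
    simp only [t5_wc]
    rw [Finset.sum_ite_eq, if_pos]
    exact Finset.mem_image.2 ⟨(c, d), Finset.mem_univ _, rfl⟩

theorem wc_linear (δ : Module.Dual ℚ (Yo L)) (X X' : Module.End K (κ → K)) (c : K) :
    wc L δ (c • X + X') = c • wc L δ X + wc L δ X' := by
  classical
  refine t5_ext fun a b => ?_
  rw [t5_wc, map_add, map_add, map_smul, map_smul, Matrix.add_apply, Matrix.add_apply,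
    Matrix.smul_apply, Matrix.smul_apply, t5_wc, t5_wc]
  by_cases h : pt L a - pt L b = δ
  · rw [if_pos h, if_pos h, if_pos h]
  · rw [if_neg h, if_neg h, if_neg h, smul_zero, add_zero]

end Pool.Agent.H76P
end

-- from Lib.H76P.T6
section

/-!
# T6: ideals contain the weight components of their elements
-/

set_option autoImplicit false
set_option linter.unusedSectionVars false
namespace Pool.Agent.H76P
open Module Matrix Pool.Agent.H53Toric
open Pool.Agent.H76T (IsIdeal Fam)
open Pool.Agent.H76V (Cmp alg calg)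

variable {κ : Type*} {K : Type*} [Field K] [CharZero K] [Fintype κ] [DecidableEq κ]
  {L : Submodule K (Module.End K (κ → K))} {J : Matrix κ κ K} {ν : κ → ℚ}

theorem t6_wt_smul {δ : Module.Dual ℚ (Yo L)} {X : Module.End K (κ → K)} (hX : IsWt L δ X)
    (c : K) : IsWt L δ (c • X) := by
  intro g
  have h1 : dq (g : κ → ℚ) * (c • X) - (c • X) * dq (g : κ → ℚ) =
      c • (dq (g : κ → ℚ) * X - X * dq (g : κ → ℚ)) := by
    rw [mul_smul_comm, smul_mul_assoc]
    module
  rw [h1, hX g, smul_comm]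

theorem t6_mem {I : Submodule K (Module.End K (κ → K))} (hI : IsIdeal L I)
    (s : Finset (Module.Dual ℚ (Yo L))) :
    ∀ x : Module.Dual ℚ (Yo L) → Module.End K (κ → K), (∀ δ ∈ s, IsWt L δ (x δ)) →
      ∑ δ ∈ s, x δ ∈ I → ∀ δ ∈ s, x δ ∈ I := by
  classical
  induction s using Finset.induction_on with
  | empty =>
    intro x _ _ δ hδ
    simp at hδ
  | insert δ0 s hδ0 ih =>
    intro x hx hsum
    have key : ∀ δ ∈ s, x δ ∈ I := by
      intro δ hδ
      have hne : δ ≠ δ0 := by
        rintro rfl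
        exact hδ0 hδ
      obtain ⟨g, hg⟩ : ∃ g, δ g ≠ δ0 g := by
        by_contra h
        push Not at h
        exact hne (LinearMap.ext h)
      have h1 : ∑ δ' ∈ s, (((δ' g : ℚ) : K) - ((δ0 g : ℚ) : K)) • x δ' ∈ I := by
        have h2 : dq (g : κ → ℚ) * (∑ δ' ∈ insert δ0 s, x δ') -
            (∑ δ' ∈ insert δ0 s, x δ') * dq (g : κ → ℚ) ∈ I :=
          hI.2 _ (Yo_mem g.2) _ hsum
        have h3 := I.sub_mem h2 (I.smul_mem ((δ0 g : ℚ) : K) hsum)
        have h4 : dq (g : κ → ℚ) * (∑ δ' ∈ insert δ0 s, x δ') -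
            (∑ δ' ∈ insert δ0 s, x δ') * dq (g : κ → ℚ) =
            ∑ δ' ∈ insert δ0 s, ((δ' g : ℚ) : K) • x δ' := by
          rw [Finset.mul_sum, Finset.sum_mul, ← Finset.sum_sub_distrib]
          exact Finset.sum_congr rfl fun δ' hδ' => hx δ' hδ' g
        rw [h4, Finset.smul_sum, ← Finset.sum_sub_distrib, Finset.sum_insert hδ0, sub_self,
          zero_add] at h3
        have h5 : ∑ δ' ∈ s, (((δ' g : ℚ) : K) - ((δ0 g : ℚ) : K)) • x δ' =
            ∑ δ' ∈ s, (((δ' g : ℚ) : K) • x δ' - ((δ0 g : ℚ) : K) • x δ') :=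
          Finset.sum_congr rfl fun δ' _ => by module
        rw [h5]
        exact h3
      have h6 := ih (fun δ' => (((δ' g : ℚ) : K) - ((δ0 g : ℚ) : K)) • x δ')
        (fun δ' hδ' => t6_wt_smul (hx δ' (Finset.mem_insert_of_mem hδ')) _) h1 δ hδ
      have h7 : (((δ g : ℚ) : K) - ((δ0 g : ℚ) : K)) ≠ 0 := by
        rw [sub_ne_zero]
        intro h
        exact hg (by exact_mod_cast h)
      have h8 := I.smul_mem (((δ g : ℚ) : K) - ((δ0 g : ℚ) : K))⁻¹ h6
      rwa [smul_smul, inv_mul_cancel₀ h7, one_smul] at h8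
    intro δ hδ
    rcases Finset.mem_insert.1 hδ with rfl | h
    · rw [Finset.sum_insert hδ0] at hsum
      have h9 := I.sub_mem hsum (I.sum_mem (fun c hc => key c hc))
      rwa [add_sub_cancel_right] at h9
    · exact key δ h

/-- PROOF. Let `s` be as in `wc_sum`.  There is `g : Yo L` such that the numbers `δ g`, `δ ∈ s`, are pairwise different (the finitely
many nonzero functionals `δ - δ'` on the rational vector space `Yo L`: no finite union of proper subspaces is everything; compare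
`generic` in C1, applied to the dual of `Yo L` and reflexivity, or directly).  Let `A Z = dq g * Z - Z * dq g`, a linear map; it maps `I` to
`I` (`hI.2` with `dq g ∈ L`, `Yo_mem`), and `A (wc δ X) = δ g • wc δ X`.  So the Lagrange polynomial
`∏_{δ' ∈ s, δ' ≠ δ} (δ g - δ' g)⁻¹ • (A - δ' g)` maps `X ∈ I` to `wc δ X`. -/
theorem wc_mem {I : Submodule K (Module.End K (κ → K))} (hI : IsIdeal L I)
    {X : Module.End K (κ → K)} (hX : X ∈ I) (δ : Module.Dual ℚ (Yo L)) : wc L δ X ∈ I := by
  obtain ⟨s, h0, hs⟩ := wc_sum (L := L) X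
  by_cases hδ : δ ∈ s
  · refine t6_mem hI s (fun δ => wc L δ X) (fun δ _ => wc_wt δ X) ?_ δ hδ
    rw [hs]
    exact hX
  · rw [h0 δ hδ]
    exact I.zero_mem

end Pool.Agent.H76P
end

-- from Lib.H76P.T10
section

/-!
# T10: the coroot
-/

set_option autoImplicit false
set_option linter.unusedSectionVars false
namespace Pool.Agent.H76P
open Module Matrix Pool.Agent.H53Toric
open Pool.Agent.H76T (IsIdeal Fam)
open Pool.Agent.H76V (Cmp alg calg)

variable {κ : Type*} {K : Type*} [Field K] [CharZero K] [Fintype κ] [DecidableEq κ]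
  {L : Submodule K (Module.End K (κ → K))} {J : Matrix κ κ K} {ν : κ → ℚ}

/-- an operator of weight zero is diagonal -/
theorem t10_diag (h : TC L J ν) {δ : Module.Dual ℚ (Yo L)} (hδ : δ = 0)
    {X : Module.End K (κ → K)} (hX : IsWt L δ X) : ∃ g : κ → K, X = dg g := by
  apply h.diag_of_comm
  intro f hf
  have h1 := hX ⟨f, hf⟩
  rw [hδ, LinearMap.zero_apply, Rat.cast_zero, zero_smul, sub_eq_zero] at h1
  exact h1.symm

/-- the entry: if `Y * X = dg g'`, `X * Y = dg g` and `g' c = 1` then there is `d` -/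
theorem t10_entry {X Y : Module.End K (κ → K)} {δ : Module.Dual ℚ (Yo L)} (hwX : IsWt L δ X)
    (hXYX : X * Y * X = X) {g g' : κ → K} (hg : X * Y = dg g) (hg' : Y * X = dg g') {c : κ}
    (hc : g' c = 1) : ∃ d, pt L d - pt L c = δ ∧ g d = 1 := by
  have h1 : Y (X (Pi.single c 1)) = Pi.single c 1 := by
    have h2 : (Y * X) (Pi.single c (1 : K)) = dg g' (Pi.single c 1) := by rw [hg']
    rw [Module.End.mul_apply] at h2
    rw [h2]
    ext a
    rw [dg_apply]
    by_cases hac : a = c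
    · subst hac
      rw [hc, one_mul]
    · rw [Pi.single_eq_of_ne hac, mul_zero]
  have h2 : X (Pi.single c (1 : K)) ≠ 0 := by
    intro h0
    rw [h0, map_zero] at h1
    have h3 := congrFun h1 c
    rw [Pi.single_eq_same, Pi.zero_apply] at h3
    exact zero_ne_one h3
  obtain ⟨d, hd⟩ := Function.ne_iff.1 h2
  rw [Pi.zero_apply] at hd
  refine ⟨d, ?_, ?_⟩
  · apply hwX.entry
    rw [LinearMap.toMatrix'_apply]
    exact hd
  · have h3 : (dg g) (X (Pi.single c (1 : K))) = X (Pi.single c 1) := by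
      rw [← hg]
      have h4 := congrArg (fun T : Module.End K (κ → K) => T (Pi.single c 1)) hXYX
      exact h4
    have h4 := congrFun h3 d
    rw [dg_apply] at h4
    exact mul_right_cancel₀ hd (by rw [h4, one_mul])

variable [IsAlgClosed K] [Nonempty κ] {m : ℕ} {I : Fin m → Submodule K (Module.End K (κ → K))}

/-- PROOF. `e = X * Y` and `e' = Y * X` are idempotent, `e * e' = X Y Y X = 0`, `e' * e = Y X X Y = 0`; both have weight `0`
(`IsWt.mul`), i.e. they commute with all `dq f`, `f ∈ Yo L`, so `e = dg g`, `e' = dg g'` (`TC.diag_of_comm`) with `g a, g' a ∈ {0, 1}`,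
`g a * g' a = 0` (`dg_mul`, `dg_inj`).  Let `fv a = (if g a = 1 then 1 else 0) - (if g' a = 1 then 1 else 0)`.  `dq fv = e - e' = [X, Y] ∈ I j ≤ L`, so
`fv ∈ Yo L` (`h.diag`).  `e' ≠ 0` since `X * e' = X ≠ 0`, so there is `a` with `g' a = 1`, `fv a = -1`.  If `fv c = -1` then `g' c = 1`; let `u` be the
basis vector `Pi.single c 1`, `w = X u`; `Y w = e' u = u`, so `w ≠ 0`; let `w d ≠ 0`: the entry `(d, c)` of `X` is not zero, so
`pt L d - pt L c = δ` (`IsWt.entry`); `e w = X Y X u = w`, so `g d * w d = w d`, `g d = 1`, `fv d = 1`.  The same for `fv c = 1` with `Y`, `e`. -/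
theorem coroot (h : TC L J ν) (hF : Fam L I) {j : Fin m} {X Y : Module.End K (κ → K)}
    (hX : X ∈ I j) (hY : Y ∈ I j) (hX0 : X ≠ 0) {δ : Module.Dual ℚ (Yo L)}
    (hwX : IsWt L δ X) (hwY : IsWt L (-δ) Y) (hXX : X * X = 0) (hYY : Y * Y = 0)
    (hXYX : X * Y * X = X) (hYXY : Y * X * Y = Y) :
    ∃ fv ∈ Yo L, (∀ a, fv a = -1 ∨ fv a = 0 ∨ fv a = 1) ∧ (∃ a, fv a = -1) ∧
      (∀ c, fv c = -1 → ∃ d, pt L d = pt L c + δ ∧ fv d = 1) ∧
      (∀ c, fv c = 1 → ∃ d, pt L d = pt L c - δ ∧ fv d = -1) := by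
  classical
  obtain ⟨g, hg⟩ := t10_diag h (add_neg_cancel δ) (hwX.mul hwY)
  obtain ⟨g', hg'⟩ := t10_diag h (neg_add_cancel δ) (hwY.mul hwX)
  have hgg : ∀ a, g a = 0 ∨ g a = 1 := by
    intro a
    have h1 : dg (g * g) = dg g := by
      rw [← dg_mul, ← hg, ← mul_assoc, hXYX]
    have h2 := congrFun (dg_inj h1) a
    rw [Pi.mul_apply] at h2
    have h3 : g a * (g a - 1) = 0 := by linear_combination h2
    rcases mul_eq_zero.1 h3 with h4 | h4
    · exact Or.inl h4
    · exact Or.inr (sub_eq_zero.1 h4)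
  have hgg' : ∀ a, g' a = 0 ∨ g' a = 1 := by
    intro a
    have h1 : dg (g' * g') = dg g' := by
      rw [← dg_mul, ← hg', ← mul_assoc, hYXY]
    have h2 := congrFun (dg_inj h1) a
    rw [Pi.mul_apply] at h2
    have h3 : g' a * (g' a - 1) = 0 := by linear_combination h2
    rcases mul_eq_zero.1 h3 with h4 | h4
    · exact Or.inl h4
    · exact Or.inr (sub_eq_zero.1 h4)
  have hmul : ∀ a, g a * g' a = 0 := by
    intro a
    have h1 : dg (g * g') = dg (0 : κ → K) := by
      rw [← dg_mul, ← hg, ← hg']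
      have h2 : X * Y * (Y * X) = X * (Y * Y) * X := by noncomm_ring
      rw [h2, hYY, mul_zero, zero_mul]
      refine LinearMap.ext fun v => funext fun b => ?_
      simp [dg_apply]
    exact congrFun (dg_inj h1) a
  set fv : κ → ℚ := fun a => (if g a = 1 then 1 else 0) - (if g' a = 1 then 1 else 0) with hfv
  have hval : ∀ a, (g a = 0 ∧ g' a = 0 ∧ fv a = 0) ∨ (g a = 1 ∧ g' a = 0 ∧ fv a = 1) ∨
      (g a = 0 ∧ g' a = 1 ∧ fv a = -1) := by
    intro a
    have h0 := hmul a
    rcases hgg a with h1 | h1 <;> rcases hgg' a with h2 | h2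
    · left
      exact ⟨h1, h2, by simp [hfv, h1, h2]⟩
    · right; right
      exact ⟨h1, h2, by simp [hfv, h1, h2]⟩
    · right; left
      exact ⟨h1, h2, by simp [hfv, h1, h2]⟩
    · rw [h1, h2, mul_one] at h0
      exact absurd h0 one_ne_zero
  have hdq : (dq fv : Module.End K (κ → K)) = X * Y - Y * X := by
    rw [hg, hg']
    refine LinearMap.ext fun v => funext fun a => ?_
    rw [LinearMap.sub_apply, Pi.sub_apply, dg_apply, dg_apply, dq, dg_apply]
    rcases hval a with ⟨h1, h2, h3⟩ | ⟨h1, h2, h3⟩ | ⟨h1, h2, h3⟩ <;> rw [h1, h2, h3] <;>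
      push_cast <;> ring
  have hL : (dq fv : Module.End K (κ → K)) ∈ L := by
    rw [hdq]
    exact (hF.ideal j).1 ((hF.ideal j).2 X ((hF.ideal j).1 hX) Y hY)
  refine ⟨fv, h.diag fv hL, ?_, ?_, ?_, ?_⟩
  · intro a
    rcases hval a with ⟨-, -, h3⟩ | ⟨-, -, h3⟩ | ⟨-, -, h3⟩
    · exact Or.inr (Or.inl h3)
    · exact Or.inr (Or.inr h3)
    · exact Or.inl h3
  · by_contra hcon
    push Not at hcon
    apply hX0
    have h1 : g' = 0 := by
      ext a
      rcases hval a with ⟨-, h2, -⟩ | ⟨-, h2, -⟩ | ⟨-, -, h3⟩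
      · exact h2
      · exact h2
      · exact absurd h3 (hcon a)
    have h2 : Y * X = 0 := by
      rw [hg', h1]
      refine LinearMap.ext fun v => funext fun b => ?_
      simp [dg_apply]
    rw [← hXYX, mul_assoc, h2, mul_zero]
  · intro c hc
    have hc' : g' c = 1 := by
      rcases hval c with ⟨-, -, h3⟩ | ⟨-, -, h3⟩ | ⟨-, h2, -⟩
      · rw [h3] at hc; norm_num at hc
      · rw [h3] at hc; norm_num at hc
      · exact h2
    obtain ⟨d, hd1, hd2⟩ := t10_entry hwX hXYX hg hg' hc'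
    refine ⟨d, ?_, ?_⟩
    · rw [← hd1]; abel
    · rcases hval d with ⟨h1, -, -⟩ | ⟨-, -, h3⟩ | ⟨h1, -, -⟩
      · rw [h1] at hd2; exact absurd hd2 zero_ne_one
      · exact h3
      · rw [h1] at hd2; exact absurd hd2 zero_ne_one
  · intro c hc
    have hc' : g c = 1 := by
      rcases hval c with ⟨-, -, h3⟩ | ⟨h1, -, -⟩ | ⟨-, -, h3⟩
      · rw [h3] at hc; norm_num at hc
      · exact h1
      · rw [h3] at hc; norm_num at hc
    obtain ⟨d, hd1, hd2⟩ := t10_entry hwY hYXY hg' hg hc'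
    refine ⟨d, ?_, ?_⟩
    · rw [sub_eq_iff_eq_add'] at hd1
      rw [hd1, sub_eq_add_neg]
    · rcases hval d with ⟨-, h2, -⟩ | ⟨-, h2, -⟩ | ⟨-, -, h3⟩
      · rw [h2] at hd2; exact absurd hd2 zero_ne_one
      · rw [h2] at hd2; exact absurd hd2 zero_ne_one
      · exact h3

end Pool.Agent.H76P
end

-- from Lib.H76P.T8
section

/-!
# T8: a mixed root
-/

set_option autoImplicit false
set_option linter.unusedSectionVars false
namespace Pool.Agent.H76P
open Module Matrix Pool.Agent.H53Toric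
open Pool.Agent.H76T (IsIdeal Fam)
open Pool.Agent.H76V (Cmp alg calg)

variable {κ : Type*} {K : Type*} [Field K] [CharZero K] [Fintype κ] [DecidableEq κ]
  {L : Submodule K (Module.End K (κ → K))} {J : Matrix κ κ K}
variable [IsAlgClosed K] [Nonempty κ] {m : ℕ} {I : Fin m → Submodule K (Module.End K (κ → K))}

/-- PROOF. Suppose there is no such `X`.  Let `Z = dq f`, `y = dq ε`.  Claim: `Z` commutes with every `X ∈ I j` with `[y, X] = 2 X` or `= -2 X`:
`X` is the sum of its weight components `wc L δ X` (`wc_sum`), which are in `I j` (`wc_mem`, `hF.ideal j`); if `wc L δ X ≠ 0`, the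
matrix of `X` has an entry `(a, b)`, not zero, with `pt L a - pt L b = δ`, and `[y, X] = ±2 X` gives `ε a - ε b = ±2`, so `ε a ≠ ε b`.  By
assumption `f a = f b`, so `[Z, wc L δ X] = (f a - f b) wc L δ X = 0` (`wc_wt`).  So `Z` commutes with `X`.  By
`gen_of_grading` `Z` commutes with `I j`; `Z ∈ I j` commutes with `I i`, `i ≠ j`, so `Z` commutes with `L` (`hF.sup`), so it is a scalar
(`h.gen`) and `f` is constant; the sum of its values is `0` (`Yo_sum`), so `f = 0`. -/
theorem mixed_root (h : Cmp L J) (hF : Fam L I) {j : Fin m} {ε : κ → ℚ} (hε : ε ∈ Hs L)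
    (hεj : dq ε ∈ I j) {f : κ → ℚ} (hf : f ∈ Yo L) (hfj : dq f ∈ I j) (hf0 : f ≠ 0) :
    ∃ X ∈ I j, ∃ a b : κ, X ≠ 0 ∧ ε a ≠ ε b ∧ f a ≠ f b ∧ IsWt L (pt L a - pt L b) X := by
  classical
  by_contra hcon
  push Not at hcon
  have hεY : ε ∈ Yo L := Submodule.subset_span hε
  have claim : ∀ X ∈ I j, (dq ε * X - X * dq ε = (2 : K) • X ∨
      dq ε * X - X * dq ε = (-2 : K) • X) → dq f * X = X * dq f := by
    intro X hX hyX
    obtain ⟨s, -, hs⟩ := wc_sum (L := L) X
    have h1 : ∀ δ ∈ s, dq f * wc L δ X = wc L δ X * dq f := by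
      intro δ _
      by_cases h0 : wc L δ X = 0
      · rw [h0, mul_zero, zero_mul]
      · have h2 : ∃ a b, LinearMap.toMatrix' (wc L δ X) a b ≠ 0 := by
          by_contra h3
          push Not at h3
          apply h0
          refine t5_ext fun a b => ?_
          rw [h3 a b, map_zero, Matrix.zero_apply]
        obtain ⟨a, b, hab⟩ := h2
        rw [t5_wc] at hab
        by_cases h3 : pt L a - pt L b = δ
        swap
        · rw [if_neg h3] at hab
          exact absurd rfl hab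
        rw [if_pos h3] at hab
        have h4 : ε a ≠ ε b := by
          intro h5
          have h6 := t5_comm (L := L) ⟨ε, hεY⟩ X a b
          rw [LinearMap.sub_apply, pt_apply, pt_apply] at h6
          change LinearMap.toMatrix' (dq ε * X - X * dq ε) a b =
            ((ε a - ε b : ℚ) : K) * LinearMap.toMatrix' X a b at h6
          rw [h5, sub_self, Rat.cast_zero, zero_mul] at h6
          rcases hyX with h7 | h7 <;> rw [h7, map_smul, Matrix.smul_apply, smul_eq_mul] at h6
          · exact hab ((mul_eq_zero.1 h6).resolve_left two_ne_zero)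
          · exact hab ((mul_eq_zero.1 h6).resolve_left (neg_ne_zero.2 two_ne_zero))
        have h5 : IsWt L (pt L a - pt L b) (wc L δ X) := by
          rw [h3]
          exact wc_wt δ X
        have h6 : f a = f b := by
          by_contra h7
          exact hcon _ (wc_mem (hF.ideal j) hX δ) a b h0 h4 h7 h5
        have h7 := h5 ⟨f, hf⟩
        rw [LinearMap.sub_apply, pt_apply, pt_apply] at h7
        change dq f * wc L δ X - wc L δ X * dq f = ((f a - f b : ℚ) : K) • wc L δ X at h7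
        rw [h6, sub_self, Rat.cast_zero, zero_smul, sub_eq_zero] at h7
        exact h7
    rw [← hs, Finset.mul_sum, Finset.sum_mul]
    exact Finset.sum_congr rfl h1
  have h2 := gen_of_grading h hF hεj (dq_sq hε.1) claim
  have h3 : (dq f : Module.End K (κ → K)) = 0 := t4_zero h hF ((hF.ideal j).1 hfj) fun i Y hY => by
    by_cases hij : i = j
    · subst hij
      exact h2 Y hY
    · exact hF.comm j i (Ne.symm hij) _ hfj Y hY
  apply hf0
  apply dq_inj (K := K)
  rw [h3]
  refine LinearMap.ext fun v => funext fun a => ?_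
  simp [dq, dg_apply]

end Pool.Agent.H76P
end

-- from Lib.H76P.T9
section

/-!
# T9: an sl2 pair
-/

set_option autoImplicit false
set_option linter.unusedSectionVars false
namespace Pool.Agent.H76P
open Module Matrix Pool.Agent.H53Toric
open Pool.Agent.H76T (IsIdeal Fam)
open Pool.Agent.H76V (Cmp alg calg)

variable {κ : Type*} {K : Type*} [Field K] [CharZero K] [Fintype κ] [DecidableEq κ]
  {L : Submodule K (Module.End K (κ → K))} {J : Matrix κ κ K} {ν : κ → ℚ}

/-- an operator whose weight is `2` or `-2` on `ε ∈ Hs L` has square zero -/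
theorem t9_sq {δ : Module.Dual ℚ (Yo L)} {X : Module.End K (κ → K)} (hX : IsWt L δ X)
    {ε : κ → ℚ} (hε : ε ∈ Hs L) (hδ : δ ⟨ε, Submodule.subset_span hε⟩ = 2 ∨
      δ ⟨ε, Submodule.subset_span hε⟩ = -2) : X * X = 0 := by
  refine LinearMap.toMatrix'.injective (Matrix.ext fun c d => ?_)
  rw [map_zero, Matrix.zero_apply]
  by_contra h0
  have h1 := (hX.mul hX).entry h0
  have h2 := LinearMap.congr_fun h1 ⟨ε, Submodule.subset_span hε⟩
  rw [LinearMap.sub_apply, LinearMap.add_apply, pt_apply, pt_apply] at h2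
  change ε c - ε d = _ at h2
  rcases hε.1 c with h3 | h3 <;> rcases hε.1 d with h4 | h4 <;> rcases hδ with h5 | h5 <;>
    rw [h3, h4, h5] at h2 <;> norm_num at h2

theorem t9_wc_zero (δ : Module.Dual ℚ (Yo L)) : wc L δ 0 = 0 := by
  have h := wc_linear (L := L) δ 0 0 1
  rw [smul_zero, add_zero, one_smul] at h
  have h2 : wc L δ 0 + 0 = wc L δ 0 + wc L δ 0 := by rw [add_zero]; exact h
  exact (add_left_cancel h2).symm

theorem t9_wc_add (δ : Module.Dual ℚ (Yo L)) (X Y : Module.End K (κ → K)) :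
    wc L δ (X + Y) = wc L δ X + wc L δ Y := by
  have h := wc_linear (L := L) δ X Y 1
  rwa [one_smul, one_smul] at h

theorem t9_wc_sum {ι : Type*} (s : Finset ι) (δ : Module.Dual ℚ (Yo L))
    (X : ι → Module.End K (κ → K)) : wc L δ (∑ i ∈ s, X i) = ∑ i ∈ s, wc L δ (X i) := by
  classical
  induction s using Finset.induction_on with
  | empty => rw [Finset.sum_empty, Finset.sum_empty, t9_wc_zero]
  | insert a s ha ih => rw [Finset.sum_insert ha, Finset.sum_insert ha, t9_wc_add, ih]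

/-- the partner may be replaced by its component of weight `-δ` -/
theorem t9_partner {δ : Module.Dual ℚ (Yo L)} {X X' : Module.End K (κ → K)} (hX : IsWt L δ X)
    (hXX : X * X' * X = X) : X * wc L (-δ) X' * X = X := by
  classical
  obtain ⟨s, hs1, hs2⟩ := wc_sum (L := L) X'
  have h1 : X = ∑ δ' ∈ s, wc L δ (X * wc L δ' X' * X) := by
    rw [← t9_wc_sum]
    have h2 : ∑ δ' ∈ s, X * wc L δ' X' * X = X := by
      rw [← Finset.sum_mul, ← Finset.mul_sum, hs2, hXX]
    rw [h2, hX.wc_self]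
  have h3 : ∀ δ' ∈ s, δ' ≠ -δ → wc L δ (X * wc L δ' X' * X) = 0 := by
    intro δ' _ hne
    refine ((hX.mul (wc_wt δ' X')).mul hX).wc_other fun h4 => hne ?_
    have h5 : δ + (δ' + δ) = δ + 0 := by rw [add_zero, ← add_assoc]; exact h4.symm
    exact eq_neg_of_add_eq_zero_left (add_left_cancel h5)
  have h6 : wc L δ (X * wc L (-δ) X' * X) = X * wc L (-δ) X' * X := by
    have h7 := ((hX.mul (wc_wt (-δ) X')).mul hX)
    rw [add_neg_cancel, zero_add] at h7
    exact h7.wc_self
  by_cases hm : -δ ∈ s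
  · rw [Finset.sum_eq_single_of_mem _ hm h3, h6] at h1
    exact h1.symm
  · rw [Finset.sum_eq_zero fun δ' hδ' => h3 δ' hδ' fun h8 => hm (h8 ▸ hδ')] at h1
    rw [h1, zero_mul, zero_mul]

variable [IsAlgClosed K] [Nonempty κ] {m : ℕ} {I : Fin m → Submodule K (Module.End K (κ → K))}

/-- PROOF. Let `δ = pt L a - pt L b`, so `δ ε = ε a - ε b` is `2` or `-2`.  `X * X` has weight `δ + δ` (`IsWt.mul`); if it had a nonzero
entry `(c, d)` then `pt L c - pt L d = δ + δ` (`IsWt.entry`), so `ε c - ε d` is `4` or `-4`, which is impossible.  So `X * X = 0`.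
`Cmp.partner` (H76V.VA2) gives `X' ∈ I j` with `X * X' * X = X`.  Let `X'' = wc L (-δ) X' ∈ I j` (`wc_mem`, `hF.ideal j`).  `X * X'' * X = X`:
`X'` is the sum of the `wc L δ' X'` (`wc_sum`), `X * wc L δ' X' * X` has weight `δ + δ' + δ`; apply the linear map `wc L δ` to
`X = X * X' * X` (`wc_linear`, `IsWt.wc_self`, `IsWt.wc_other`): only the term `δ' = -δ` remains.  `X'' * X'' = 0` for the same reason as
for `X`.  Let `Y = X'' * X * X''`.  `Y ∈ I j` since `[X'', [X, X'']] = 2 X'' X X''`.  Weight `-δ + δ - δ`.  `Y * Y = 0`,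
`X * Y * X = X X'' X X'' X = X`, `Y * X * Y = X'' X X'' X X'' X X'' = Y`. -/
theorem sl2_pair (h : Cmp L J) (hF : Fam L I) {j : Fin m} {X : Module.End K (κ → K)}
    (hX : X ∈ I j) {ε : κ → ℚ} (hε : ε ∈ Hs L) {a b : κ} (hab : ε a ≠ ε b)
    (hw : IsWt L (pt L a - pt L b) X) :
    ∃ Y ∈ I j, IsWt L (-(pt L a - pt L b)) Y ∧ X * X = 0 ∧ Y * Y = 0 ∧ X * Y * X = X ∧
      Y * X * Y = Y := by
  have hδ : (pt L a - pt L b) ⟨ε, Submodule.subset_span hε⟩ = 2 ∨
      (pt L a - pt L b) ⟨ε, Submodule.subset_span hε⟩ = -2 := by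
    rw [LinearMap.sub_apply, pt_apply, pt_apply]
    change ε a - ε b = 2 ∨ ε a - ε b = -2
    rcases hε.1 a with h3 | h3 <;> rcases hε.1 b with h4 | h4
    · exact absurd (h3.trans h4.symm) hab
    · left; rw [h3, h4]; norm_num
    · right; rw [h3, h4]; norm_num
    · exact absurd (h3.trans h4.symm) hab
  set δ : Module.Dual ℚ (Yo L) := pt L a - pt L b with hδdef
  have hδ' : (-δ) ⟨ε, Submodule.subset_span hε⟩ = 2 ∨
      (-δ) ⟨ε, Submodule.subset_span hε⟩ = -2 := by
    rw [LinearMap.neg_apply]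
    rcases hδ with h3 | h3
    · right; rw [h3]
    · left; rw [h3]; norm_num
  have hXX : X * X = 0 := t9_sq hw hε hδ
  obtain ⟨X', hX', hXX'⟩ := h.partner hF hX hXX
  have hZm : wc L (-δ) X' ∈ I j := wc_mem (hF.ideal j) hX' (-δ)
  have hZw : IsWt L (-δ) (wc L (-δ) X') := wc_wt _ _
  have hZZ : wc L (-δ) X' * wc L (-δ) X' = 0 := t9_sq hZw hε hδ'
  have hXZX : X * wc L (-δ) X' * X = X := t9_partner hw hXX'
  set Z := wc L (-δ) X' with hZdef
  refine ⟨Z * X * Z, ?_, ?_, hXX, ?_, ?_, ?_⟩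
  · have h1 : X * Z - Z * X ∈ I j := (hF.ideal j).2 X ((hF.ideal j).1 hX) Z hZm
    have h2 : Z * (X * Z - Z * X) - (X * Z - Z * X) * Z ∈ I j :=
      (hF.ideal j).2 Z ((hF.ideal j).1 hZm) _ h1
    have h3 : Z * (X * Z - Z * X) - (X * Z - Z * X) * Z = (2 : K) • (Z * X * Z) := by
      rw [mul_sub, sub_mul, ← mul_assoc, ← mul_assoc, hZZ, zero_mul, sub_zero, mul_assoc X Z Z, hZZ,
        mul_zero, zero_sub, sub_neg_eq_add, two_smul]
    rw [h3] at h2
    have h4 := (I j).smul_mem (2 : K)⁻¹ h2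
    rwa [smul_smul, inv_mul_cancel₀ (two_ne_zero), one_smul] at h4
  · have h1 := (hZw.mul hw).mul hZw
    rwa [neg_add_cancel, zero_add] at h1
  · have h1 : Z * X * Z * (Z * X * Z) = Z * X * (Z * Z) * (X * Z) := by simp only [mul_assoc]
    rw [h1, hZZ, mul_zero, zero_mul]
  · have h1 : X * (Z * X * Z) * X = (X * Z * X) * Z * X := by simp only [mul_assoc]
    rw [h1, hXZX, hXZX]
  · have h1 : Z * X * Z * X * (Z * X * Z) = Z * (((X * Z * X) * Z * X) * Z) := by
      simp only [mul_assoc]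
    rw [h1, hXZX, hXZX, mul_assoc]

end Pool.Agent.H76P
end

-- from Lib.H76P.T11
section

/-!
# T11: small atoms
-/

set_option autoImplicit false
set_option linter.unusedSectionVars false
namespace Pool.Agent.H76P
open Module Matrix Pool.Agent.H53Toric
open Pool.Agent.H76T (IsIdeal Fam)
open Pool.Agent.H76V (Cmp alg calg)

variable {κ : Type*} {K : Type*} [Field K] [CharZero K] [Fintype κ] [DecidableEq κ]
  {L : Submodule K (Module.End K (κ → K))} {J : Matrix κ κ K} {ν : κ → ℚ}
variable [IsAlgClosed K] [Nonempty κ] {m : ℕ} {I : Fin m → Submodule K (Module.End K (κ → K))}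

/-- PROOF. Notation: `V = Dual ℚ (Yo L)`, `π = P.dualMap`, so `(π u) f = u (P f)`; `q * π = q`; by `Spl.comm` also `π * q = q`.
(1) There is `ε ∈ Hs L` with `(q u) ε = u ε` for all `u`: `q ≠ 0`, so there are `u`, `f` with `(q u) f ≠ 0`; `f` is in the span of `Hs L`, so
`(q u) ε ≠ 0` for some `ε ∈ Hs L` (as an element of `Yo L`); apply `two_values` (C6) with the functional `u ↦ u ε` on `V`.
For all `u`: `u (P ε) = (π u) ε = (q (π u)) ε = ((q * π) u) ε = (q u) ε = u ε`, so `P ε = ε` and `dq ε ∈ I j` (`hP1`).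
(2) There is `f' : Yo L`, `f' ≠ 0`, `P f' = f'`, `(q u) f' = 0` for all `u`: `r = π - q ≠ 0`, so `(r u) f ≠ 0` for some `u`, `f`.  As `Yo L` is finite
dimensional, there is `f'` with `u f' = (r u) f` for all `u` (the functional `u ↦ (r u) f` on `V`, reflexivity).  `f' ≠ 0`.
`(q u) f' = (r (q u)) f = ((π * q - q * q) u) f = 0`.  `u (P f') = (π u) f' = (r (π u)) f = ((π * π - q * π) u) f = (r u) f = u f'`, so `P f' = f'` and
`dq f' ∈ I j`.
(3) `mixed_root` for `ε`, `f'` gives `X`, `a`, `b`; let `δ = pt L a - pt L b`.  `(q δ) ε = δ ε = ε a - ε b ≠ 0`, so `q δ ≠ 0`.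
`((1 - q) δ) f' = δ f' = f' a - f' b ≠ 0`, so `(1 - q) δ ≠ 0`.
(4) `sl2_pair`, `coroot` give `fv`; `root_two` (C7) with the functional `u ↦ u fv`. -/
theorem TC.atom_two (h : TC L J ν) (hF : Fam L I) {j : Fin m} {P : Module.End ℚ (Yo L)}
    (hP1 : ∀ f, dq (P f : κ → ℚ) ∈ I j)
    (hP2 : ∀ f : Yo L, dq (f : κ → ℚ) ∈ I j → P f = f) (hPS : Spl (pt L) P.dualMap)
    {q : Module.End ℚ (Module.Dual ℚ (Yo L))} (hq : Atom (pt L) q) (hqP : q * P.dualMap = q)
    (hne : q ≠ P.dualMap) : cnt (pt L) q = 2 := by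
  have hs : Spans (pt L) := pt_spans h.cmp
  have hcomm := Spl.comm hs hq.1 hPS
  have hπq : ∀ u, P.dualMap (q u) = q u := fun u => by
    have h1 : (P.dualMap * q) u = q u := by rw [← hcomm, hqP]
    exact h1
  have hqπ : ∀ u, q (P.dualMap u) = q u := fun u => by
    have h1 : (q * P.dualMap) u = q u := by rw [hqP]
    exact h1
  have hππ : ∀ u, P.dualMap (P.dualMap u) = P.dualMap u := fun u => by
    have h1 : (P.dualMap * P.dualMap) u = P.dualMap u := by rw [hPS.1]
    exact h1
  have hqq : ∀ u, q (q u) = q u := fun u => by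
    have h1 : (q * q) u = q u := by rw [hq.1.1]
    exact h1
  have hπ : ∀ (u : Module.Dual ℚ (Yo L)) (f : Yo L), u (P f) = P.dualMap u f := fun u f => by
    rw [LinearMap.dualMap_apply]
  have hsep : ∀ f g : Yo L, (∀ u : Module.Dual ℚ (Yo L), u f = u g) → f = g := by
    intro f g hfg
    rw [← sub_eq_zero, ← Module.forall_dual_apply_eq_zero_iff ℚ]
    intro u
    rw [map_sub, hfg u, sub_self]
  -- (1)
  have hstep1 : ∃ (ε : κ → ℚ) (hε : ε ∈ Hs L), ∀ u : Module.Dual ℚ (Yo L),
      q u ⟨ε, Submodule.subset_span hε⟩ = u ⟨ε, Submodule.subset_span hε⟩ := by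
    have h1 : ∃ u, q u ≠ 0 := by
      by_contra h2
      push Not at h2
      exact hq.2.1 (LinearMap.ext h2)
    obtain ⟨u, hu⟩ := h1
    have h2 : ∃ (ε : κ → ℚ) (hε : ε ∈ Hs L), q u ⟨ε, Submodule.subset_span hε⟩ ≠ 0 := by
      by_contra h3
      push Not at h3
      apply hu
      refine LinearMap.ext fun f => ?_
      obtain ⟨f, hf⟩ := f
      rw [LinearMap.zero_apply]
      have key : ∀ (f : κ → ℚ) (hf : f ∈ Submodule.span ℚ (Hs L)), q u ⟨f, hf⟩ = 0 := by
        intro f hf
        induction hf using Submodule.span_induction with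
        | mem ε hε => exact h3 ε hε
        | zero => exact map_zero (q u)
        | add a b ha hb ha' hb' =>
          have e : (⟨a + b, Submodule.add_mem _ ha hb⟩ : Yo L) = ⟨a, ha⟩ + ⟨b, hb⟩ := rfl
          exact (congrArg (q u) e).trans (by rw [map_add, ha', hb', add_zero])
        | smul c a ha ha' =>
          have e : (⟨c • a, Submodule.smul_mem _ c ha⟩ : Yo L) = c • ⟨a, ha⟩ := rfl
          exact (congrArg (q u) e).trans (by rw [map_smul, ha', smul_zero])
      exact key f hf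
    obtain ⟨ε, hε, h3⟩ := h2
    refine ⟨ε, hε, ?_⟩
    rcases two_values hs hq.1
      (ε := Module.Dual.eval ℚ (Yo L) ⟨ε, Submodule.subset_span hε⟩) (e := ε)
      (fun a b => rfl) hε.1 with h4 | h4
    · exact h4
    · exact absurd (h4 u) h3
  obtain ⟨ε, hε, hqε⟩ := hstep1
  have hPε : P ⟨ε, Submodule.subset_span hε⟩ = ⟨ε, Submodule.subset_span hε⟩ := by
    apply hsep
    intro u
    rw [hπ, ← hqε (P.dualMap u), hqπ, hqε]
  have hεj : dq ε ∈ I j := by
    have h1 := hP1 ⟨ε, Submodule.subset_span hε⟩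
    rwa [hPε] at h1
  -- (2)
  have hstep2 : ∃ f' : Yo L, f' ≠ 0 ∧ P f' = f' ∧ ∀ u, q u f' = 0 := by
    have h1 : ∃ u, P.dualMap u - q u ≠ 0 := by
      by_contra h2
      push Not at h2
      apply hne
      refine LinearMap.ext fun u => ?_
      exact (sub_eq_zero.1 (h2 u)).symm
    obtain ⟨u₀, hu₀⟩ := h1
    have h2 : ∃ f₀, (P.dualMap u₀ - q u₀) f₀ ≠ 0 := by
      by_contra h3
      push Not at h3
      exact hu₀ (LinearMap.ext h3)
    obtain ⟨f₀, hf₀⟩ := h2
    let φ : Module.Dual ℚ (Module.Dual ℚ (Yo L)) :=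
      (Module.Dual.eval ℚ (Yo L) f₀) ∘ₗ (P.dualMap - q)
    let f' : Yo L := (Module.evalEquiv ℚ (Yo L)).symm φ
    have hf' : ∀ u : Module.Dual ℚ (Yo L), u f' = (P.dualMap u - q u) f₀ := by
      intro u
      have h3 : u f' = φ u := Module.apply_evalEquiv_symm_apply ℚ (Yo L) u φ
      rw [h3]
      rfl
    refine ⟨f', ?_, ?_, ?_⟩
    · intro h3
      apply hf₀
      rw [← hf' u₀, h3, map_zero]
    · apply hsep
      intro u
      rw [hπ, hf', hππ, hqπ, ← hf']
    · intro u
      rw [hf', hπq, hqq, sub_self, LinearMap.zero_apply]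
  obtain ⟨f', hf'0, hPf', hqf'⟩ := hstep2
  have hf'j : dq (f' : κ → ℚ) ∈ I j := by
    have h1 := hP1 f'
    rwa [hPf'] at h1
  -- (3)
  obtain ⟨X, hX, a, b, hX0, hab, hab', hw⟩ := mixed_root h.cmp hF hε hεj f'.2 hf'j
    (fun h0 => hf'0 (Subtype.ext h0))
  -- (4)
  obtain ⟨Y, hY, hwY, hXX, hYY, hXYX, hYXY⟩ := sl2_pair h.cmp hF hX hε hab hw
  obtain ⟨fv, hfv, hv1, hv2, hv3, hv4⟩ := coroot h hF hX hY hX0 hw hwY hXX hYY hXYX hYXY
  refine root_two hs hq (δ := pt L a - pt L b) (f := Module.Dual.eval ℚ (Yo L) ⟨fv, hfv⟩)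
    (fv := fv) (fun a b => rfl) hv1 hv2 hv3 hv4 ?_ ?_
  · intro h0
    have h1 := hqε (pt L a - pt L b)
    rw [h0, LinearMap.zero_apply, LinearMap.sub_apply, pt_apply, pt_apply] at h1
    exact hab (sub_eq_zero.1 h1.symm)
  · intro h0
    have h1 := LinearMap.congr_fun h0 f'
    rw [LinearMap.sub_apply, Module.End.one_apply, LinearMap.sub_apply, hqf', sub_zero,
      LinearMap.sub_apply, pt_apply, pt_apply, LinearMap.zero_apply] at h1
    exact hab' (sub_eq_zero.1 h1)

end Pool.Agent.H76P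
end

-- from Lib.H76P.T12
section

/-!
# T12: the component theorem
-/

set_option autoImplicit false
set_option linter.unusedSectionVars false
namespace Pool.Agent.H76P
open Module Matrix Pool.Agent.H53Toric
open Pool.Agent.H76T (IsIdeal Fam)
open Pool.Agent.H76V (Cmp alg calg)

variable {κ : Type*} {K : Type*} [Field K] [CharZero K] [Fintype κ] [DecidableEq κ]
  {L : Submodule K (Module.End K (κ → K))} {J : Matrix κ κ K} {ν : κ → ℚ}
variable [IsAlgClosed K] [Nonempty κ]

/-- PROOF. `precomposition with σ`: the linear map `S : Yo L → Yo L`, `f ↦ f ∘ σ`, is injective, hence bijective (finite dimension);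
`s = ` its transpose, `(s u) f = u (f ∘ σ)`.  `(s (pt b - pt a)) f = f (σ b) - f (σ a)`. -/
theorem exists_aff {σ : Equiv.Perm κ} (hσ : ∀ f ∈ Yo L, f ∘ σ ∈ Yo L) :
    ∃ s : Module.Dual ℚ (Yo L) ≃ₗ[ℚ] Module.Dual ℚ (Yo L), Aff (pt L) σ s ∧
      ∀ (u : Module.Dual ℚ (Yo L)) (f : Yo L), s u f = u ⟨(f : κ → ℚ) ∘ σ, hσ f f.2⟩ := by
  let S : Yo L →ₗ[ℚ] Yo L :=
    { toFun := fun f => ⟨(f : κ → ℚ) ∘ σ, hσ f f.2⟩
      map_add' := fun f g => rfl
      map_smul' := fun c f => rfl }
  have hS : Function.Injective S := by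
    intro f g hfg
    apply Subtype.ext
    have h1 : (f : κ → ℚ) ∘ σ = (g : κ → ℚ) ∘ σ := congrArg Subtype.val hfg
    ext a
    have h2 := congrFun h1 (σ.symm a)
    simpa using h2
  let S' : Yo L ≃ₗ[ℚ] Yo L := LinearEquiv.ofInjectiveEndo S hS
  refine ⟨S'.dualMap, ?_, ?_⟩
  · intro a b
    refine LinearMap.ext fun f => ?_
    rfl
  · intro u f
    rfl

/-- **The component theorem.** PROOF. Let `m`, `I` be as in `H76T.exists_fam` (`Cmp.lie`, `Cmp.irr`, `Cmp.tr`).
`m = 0`: `L = ⊥` (`hF.sup`), but `h.vid` gives `ε ∈ Hs L`, `dq ε ∈ L`, `dq ε ≠ 0` (`dq_sq`).  `m = 1`: `Cmp.simple` (H76V.VA5): the second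
alternative is excluded by `hp` (`2 ^ m`, `finrank K (κ → K) = Fintype.card κ`), the third one by `hc`.
`m ≥ 2`: let `ε₀ ∈ Hs L` be as in `h.vid`, `dq ε₀ ∈ I j` (`Hs_mem`), so `dq ν ∈ I j` (`hF.ideal j`), `ν ∈ Yo L` (`TC.nu_mem`).  Let `P` be as in
`exists_proj` for `j`, `π = P.dualMap`, and `v` the functional `u ↦ u ν` on the dual space.  `v (π u) = u (P ν) = u ν = v u`.
`π ≠ 1`: let `i ≠ j` and `f ∈ Yo L`, `f ≠ 0`, `dq f ∈ I i` (`TC.exists_diag`); `P f = 0`, so `(π u) f = 0` for all `u`; if `π = 1` then `u f = 0` for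
all `u`, so `f = 0`.  For `a ≠ b` let `σ` be as in `h.gal` and `s` as in `exists_aff`: `v (s (pt b - pt a)) = ν (σ b) - ν (σ a) ≠ 0`.
`card_power` (C5) (`pt_spans`, `TC.pt_inj`, `TC.atom_two`) gives a contradiction to `hp`. -/
theorem TC.full (h : TC L J ν) (hp : ∀ a k : ℕ, 2 ≤ k → Fintype.card κ ≠ a ^ k)
    (hc : ∀ k : ℕ, 3 ≤ k → Odd k → Fintype.card κ ≠ k.centralBinom)
    {X : Module.End K (κ → K)} (hX : adjE J X = -X) : X ∈ L := by
  obtain ⟨m, I, hF⟩ := Pool.Agent.H76T.exists_fam h.cmp.lie h.cmp.irr h.cmp.tr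
  obtain ⟨ε₀, hε₀, hvid⟩ := h.vid
  rcases Nat.lt_or_ge m 2 with hm | hm
  · interval_cases m
    · exfalso
      have hL : L = ⊥ := by
        rw [← hF.sup]
        exact iSup_of_empty _
      have h1 := hε₀.2
      rw [hL, Submodule.mem_bot] at h1
      have h2 : (dq ε₀ : Module.End K (κ → K)) * dq ε₀ = 1 := dq_sq hε₀.1
      rw [h1, mul_zero] at h2
      exact zero_ne_one h2
    · rcases Cmp.simple h.cmp hF with h1 | ⟨n, hn, -, hn2, -⟩ | ⟨k, hk, hk2, hk3, -⟩
      · exact h1 X hX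
      · rw [Module.finrank_fintype_fun_eq_card] at hn2
        exact absurd hn2 (hp 2 n (by omega))
      · rw [Module.finrank_fintype_fun_eq_card] at hk3
        exact absurd hk3 (hc k hk hk2)
  · exfalso
    obtain ⟨j, hj⟩ := Hs_mem h.cmp hF hε₀
    have hν : dq ν ∈ I j := hvid (I j) (hF.ideal j) hj
    have hνY : ν ∈ Yo L := h.nu_mem
    obtain ⟨P, hP1, hP2, hP3, hPS⟩ := exists_proj h.cmp hF j
    have g1 : P.dualMap ≠ 1 := by
      intro h0
      obtain ⟨i, hij⟩ : ∃ i : Fin m, i ≠ j := by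
        have : Nontrivial (Fin m) := Fin.nontrivial_iff_two_le.2 hm
        exact exists_ne j
      obtain ⟨f, hf, hf0, hfi⟩ := h.exists_diag hF i
      have h1 : P ⟨f, hf⟩ = 0 := hP3 i hij ⟨f, hf⟩ hfi
      have h2 : (⟨f, hf⟩ : Yo L) = 0 := by
        rw [← Module.forall_dual_apply_eq_zero_iff ℚ]
        intro u
        have h3 : P.dualMap u ⟨f, hf⟩ = 0 := by
          rw [LinearMap.dualMap_apply, h1, map_zero]
        rwa [h0] at h3
      exact hf0 (congrArg Subtype.val h2)
    have g2 : ∀ u, Module.Dual.eval ℚ (Yo L) ⟨ν, hνY⟩ (P.dualMap u) =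
        Module.Dual.eval ℚ (Yo L) ⟨ν, hνY⟩ u := by
      intro u
      have h1 : P ⟨ν, hνY⟩ = ⟨ν, hνY⟩ := hP2 ⟨ν, hνY⟩ hν
      change P.dualMap u ⟨ν, hνY⟩ = u ⟨ν, hνY⟩
      rw [LinearMap.dualMap_apply, h1]
    have g3 : ∀ a b, a ≠ b → ∃ σ s, Aff (pt L) σ s ∧
        Module.Dual.eval ℚ (Yo L) ⟨ν, hνY⟩ (s (pt L b - pt L a)) ≠ 0 := by
      intro a b hab
      obtain ⟨σ, hσ1, hσ2⟩ := h.gal a b hab
      obtain ⟨s, hs1, -⟩ := exists_aff hσ1
      refine ⟨σ, s, hs1, ?_⟩
      rw [hs1 a b]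
      change ν (σ b) - ν (σ a) ≠ 0
      exact sub_ne_zero.2 (Ne.symm hσ2)
    have g4 : ∀ q, Atom (pt L) q → q * P.dualMap = q → q = P.dualMap ∨ cnt (pt L) q = 2 := by
      intro q hq hqπ
      by_cases hne : q = P.dualMap
      · exact Or.inl hne
      · exact Or.inr (h.atom_two hF hP1 hP2 hPS hq hqπ hne)
    obtain ⟨a, k, hk, hcard⟩ := card_power (pt_spans h.cmp) h.pt_inj hPS g1 g2 g3 g4
    exact hp a k hk hcard

end Pool.Agent.H76P
end
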