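import Pool.Agent.Lib.H1M.RC.M001
import Pool.Agent.Lib.H1M.RC.M040
import Pool.Agent.Lib.H1M.RC.M042

/-! Merged copies (to shorten the build) of Lib.H25Y.Sym, Lib.H25Y.Pair, Lib.H34Z.D0, Lib.H34Z.A01, Lib.H34V.VD, Lib.H34Z.A11, Lib.H34Z.R01, Lib.H34Z.A02, Lib.H34Z.A06, Lib.H34Z.A03, Lib.H34Z.A04, Lib.H34Z.A09, Lib.H86E.Eight. -/

-- from Lib.H25Y.Sym
section

/-!
# A symmetric configuration of weights gives an invariant bilinear form

`L` is an irreducible Lie algebra of operators of `K ^ κ`, of trace zero, whose rational diagonal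
elements separate the points of `κ` and are the elements of `Yo L`.  If the set of the weights is
symmetric, there is a nonzero invariant bilinear form.
-/

set_option autoImplicit false
set_option linter.unusedSectionVars false
namespace Pool.Agent.H25Y
open Module Matrix Pool.Agent.H53Toric
open Pool.Agent.H76P (dg dq Hs Yo dg_apply dg_mul dg_add dg_smul dg_one dg_inj)

section schur

variable {K : Type*} [Field K] {V : Type*} [AddCommGroup V] [Module K V]

/-- Schur's lemma. -/
theorem scalar_of_comm [IsAlgClosed K] [FiniteDimensional K V] [Nontrivial V]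
    {g : Submodule K (Module.End K V)} (hirr : Irr g) {Z : Module.End K V}
    (hZ : ∀ X ∈ g, Z * X = X * Z) : ∃ c : K, Z = c • 1 := by
  obtain ⟨c, hc⟩ := Module.End.exists_eigenvalue Z
  refine ⟨c, ?_⟩
  have hst : ∀ X ∈ g, ∀ w ∈ Module.End.eigenspace Z c, X w ∈ Module.End.eigenspace Z c := by
    intro X hX w hw
    rw [Module.End.mem_eigenspace_iff] at hw ⊢
    have h1 := LinearMap.congr_fun (hZ X hX) w
    rw [Module.End.mul_apply, Module.End.mul_apply, hw, map_smul] at h1
    exact h1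
  rcases hirr _ hst with h | h
  · exact absurd h hc
  · refine LinearMap.ext fun v => ?_
    have h1 : v ∈ Module.End.eigenspace Z c := by rw [h]; exact Submodule.mem_top
    rw [Module.End.mem_eigenspace_iff] at h1
    rw [h1, LinearMap.smul_apply, Module.End.one_apply]

/-- The normaliser of an irreducible Lie algebra of trace zero. -/
theorem norm_mem [IsAlgClosed K] [CharZero K] [FiniteDimensional K V] [Nontrivial V]
    {g : Submodule K (Module.End K V)} (hg : IsLie g) (hirr : Irr g)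
    (htr : ∀ X ∈ g, LinearMap.trace K V X = 0) {Z : Module.End K V}
    (hZ : ∀ X ∈ g, Z * X - X * Z ∈ g) (hZt : LinearMap.trace K V Z = 0) : Z ∈ g := by
  let f : g →ₗ[K] K := (LinearMap.trace K V) ∘ₗ (LinearMap.mulLeft K Z) ∘ₗ g.subtype
  obtain ⟨Y, hY, hf⟩ := exists_trace_repr hg hirr htr f
  have hf' : ∀ X ∈ g, LinearMap.trace K V ((Z - Y) * X) = 0 := by
    intro X hX
    have h1 : LinearMap.trace K V (Z * X) = LinearMap.trace K V (Y * X) := hf ⟨X, hX⟩
    rw [sub_mul, map_sub, h1, sub_self]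
  have hc : ∀ X ∈ g, (Z - Y) * X = X * (Z - Y) := by
    intro X hX
    rw [← sub_eq_zero]
    have hm : (Z - Y) * X - X * (Z - Y) ∈ g := by
      have e : (Z - Y) * X - X * (Z - Y) = (Z * X - X * Z) - (Y * X - X * Y) := by noncomm_ring
      rw [e]
      exact g.sub_mem (hZ X hX) (hg Y hY X hX)
    refine trace_nondeg hg hirr htr hm fun X' hX' => ?_
    have h1 := hf' _ (hg X hX X' hX')
    have e1 : (Z - Y) * (X * X' - X' * X) = (Z - Y) * X * X' - (Z - Y) * X' * X := by noncomm_ring
    have e2 : ((Z - Y) * X - X * (Z - Y)) * X' = (Z - Y) * X * X' - X * ((Z - Y) * X') := by noncomm_ring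
    rw [e1, map_sub] at h1
    rw [e2, map_sub, LinearMap.trace_mul_comm K X ((Z - Y) * X')]
    exact h1
  obtain ⟨c, hcc⟩ := scalar_of_comm hirr hc
  have h2 : LinearMap.trace K V (Z - Y) = 0 := by rw [map_sub, hZt, htr Y hY, sub_zero]
  rw [hcc, map_smul, LinearMap.trace_one, smul_eq_mul] at h2
  have h3 : (finrank K V : K) ≠ 0 := by
    rw [Nat.cast_ne_zero]
    exact (Module.finrank_pos (R := K) (M := V)).ne'
  have h4 : c = 0 := (mul_eq_zero.1 h2).resolve_right h3
  rw [h4, zero_smul] at hcc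
  rw [sub_eq_zero.1 hcc]
  exact hY

/-- The graph of an isomorphism with the dual gives an invariant form. -/
theorem form_of_graph {g : Submodule K (Module.End K V)} (hirr : Irr g)
    (U : Submodule K (V × Module.Dual K V))
    (hU : ∀ X ∈ g, ∀ u ∈ U, (X u.1, -(u.2 ∘ₗ X)) ∈ U)
    {e : V} (he : e ≠ 0) (he' : ∀ φ : Module.Dual K V, (0, φ) ∈ U → φ e = 0)
    {x : V × Module.Dual K V} (hx : x ∈ U) (hx1 : x.1 ≠ 0) (hx2 : x.2 ≠ 0) :
    ∃ b : V →ₗ[K] V →ₗ[K] K, b ≠ 0 ∧ ∀ X ∈ g, ∀ v w, b (X v) w + b v (X w) = 0 := by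
  -- the second factor meets `U` in zero
  have h0 : ∀ φ : Module.Dual K V, (0, φ) ∈ U → φ = 0 := by
    let N : Submodule K V :=
      { carrier := {v | ∀ φ : Module.Dual K V, (0, φ) ∈ U → φ v = 0}
        add_mem' := by
          intro a b ha hb φ hφ
          rw [map_add, ha φ hφ, hb φ hφ, add_zero]
        zero_mem' := fun φ _ => map_zero φ
        smul_mem' := by
          intro c a ha φ hφ
          rw [map_smul, ha φ hφ, smul_zero] }
    have hst : ∀ X ∈ g, ∀ w ∈ N, X w ∈ N := by
      intro X hX w hw φ hφ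
      have h1 := hU X hX _ hφ
      rw [map_zero] at h1
      have h2 := hw _ h1
      rw [LinearMap.neg_apply, LinearMap.comp_apply, neg_eq_zero] at h2
      exact h2
    rcases hirr N hst with h | h
    · exfalso
      apply he
      have : e ∈ N := he'
      rw [h, Submodule.mem_bot] at this
      exact this
    · intro φ hφ
      refine LinearMap.ext fun v => ?_
      have : v ∈ N := by rw [h]; exact Submodule.mem_top
      exact this φ hφ
  -- the first projection is onto
  have h1 : ∀ v : V, ∃ φ : Module.Dual K V, (v, φ) ∈ U := by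
    have hst : ∀ X ∈ g, ∀ w ∈ U.map (LinearMap.fst K V (Module.Dual K V)),
        X w ∈ U.map (LinearMap.fst K V (Module.Dual K V)) := by
      intro X hX w hw
      obtain ⟨u, hu, rfl⟩ := hw
      exact ⟨_, hU X hX u hu, rfl⟩
    rcases hirr _ hst with h | h
    · exfalso
      apply hx1
      have : x.1 ∈ U.map (LinearMap.fst K V (Module.Dual K V)) := Submodule.mem_map_of_mem hx
      rw [h, Submodule.mem_bot] at this
      exact this
    · intro v
      have : v ∈ U.map (LinearMap.fst K V (Module.Dual K V)) := by rw [h]; exact Submodule.mem_top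
      obtain ⟨u, hu, rfl⟩ := this
      exact ⟨u.2, hu⟩
  choose θ hθ using h1
  have huniq : ∀ v φ, (v, φ) ∈ U → φ = θ v := by
    intro v φ h
    have h2 := U.sub_mem h (hθ v)
    rw [Prod.mk_sub_mk, sub_self] at h2
    exact sub_eq_zero.1 (h0 _ h2)
  refine ⟨{ toFun := θ, map_add' := ?_, map_smul' := ?_ }, ?_, ?_⟩
  · intro v w
    refine (huniq _ _ ?_).symm
    have := U.add_mem (hθ v) (hθ w)
    rwa [Prod.mk_add_mk] at this
  · intro c v
    refine (huniq _ _ ?_).symm
    have := U.smul_mem c (hθ v)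
    rwa [Prod.smul_mk] at this
  · intro h
    apply hx2
    have h2 := LinearMap.congr_fun h x.1
    have h3 : x.2 = θ x.1 := huniq _ _ hx
    rw [h3]
    exact h2
  · intro X hX v w
    have h2 := huniq _ _ (hU X hX _ (hθ v))
    change θ (X v) w + θ v (X w) = 0
    rw [← h2]
    simp

end schur

variable {κ : Type*} {K : Type*} [Field K] [CharZero K] [Fintype κ] [DecidableEq κ]
  {L : Submodule K (Module.End K (κ → K))}

theorem dg_entry_left (g : κ → K) (X : Module.End K (κ → K)) (v : κ → K) (a : κ) :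
    (dg g * X) v a = g a * X v a := rfl

theorem dg_single (g : κ → K) (b : κ) : dg g (Pi.single b (1 : K)) = g b • Pi.single b (1 : K) := by
  funext c
  rw [dg_apply, Pi.smul_apply, smul_eq_mul]
  by_cases hc : c = b
  · rw [hc]
  · rw [Pi.single_eq_of_ne hc, mul_zero, mul_zero]

theorem ext_entry {X Y : Module.End K (κ → K)}
    (h : ∀ a b, X (Pi.single b 1) a = Y (Pi.single b 1) a) : X = Y := by
  refine LinearMap.pi_ext' fun b => LinearMap.ext_ring (funext fun a => ?_)
  exact h a b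

theorem exists_poly {K : Type*} [Field K] [DecidableEq K] (s : Finset K) (h : K → K) :
    ∃ p : Polynomial K, ∀ c ∈ s, p.eval c = h c :=
  ⟨Lagrange.interpolate s id h, fun _ hc =>
    Lagrange.eval_interpolate_at_node (v := id) h Function.injective_id.injOn hc⟩

/-- Functions of the differences of a diagonal element act on `L`. -/
theorem fun_mem (hL : IsLie L) {g : κ → K} (hg : dg g ∈ L) (h : K → K)
    {X : Module.End K (κ → K)} (hX : X ∈ L) :
    ∃ Y ∈ L, ∀ a b, Y (Pi.single b 1) a = h (g a - g b) * X (Pi.single b 1) a := by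
  classical
  have key : ∀ p : Polynomial K, ∃ Y ∈ L, ∀ a b, Y (Pi.single b 1) a =
      p.eval (g a - g b) * X (Pi.single b 1) a := by
    intro p
    induction p using Polynomial.induction_on' with
    | add p q hp hq =>
      obtain ⟨Y, hY, h1⟩ := hp
      obtain ⟨Z, hZ, h2⟩ := hq
      refine ⟨Y + Z, L.add_mem hY hZ, fun a b => ?_⟩
      rw [LinearMap.add_apply, Pi.add_apply, h1, h2, Polynomial.eval_add]
      ring
    | monomial n c =>
      have : ∀ n : ℕ, ∃ Y ∈ L, ∀ a b, Y (Pi.single b 1) a = (g a - g b) ^ n * X (Pi.single b 1) a := by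
        intro n
        induction n with
        | zero => exact ⟨X, hX, fun a b => by rw [pow_zero, one_mul]⟩
        | succ n ih =>
          obtain ⟨Y, hY, h1⟩ := ih
          refine ⟨dg g * Y - Y * dg g, hL _ hg _ hY, fun a b => ?_⟩
          rw [LinearMap.sub_apply, Pi.sub_apply, dg_entry_left, Module.End.mul_apply, dg_single,
            map_smul, Pi.smul_apply, h1, smul_eq_mul]
          ring
      obtain ⟨Y, hY, h1⟩ := this n
      refine ⟨c • Y, L.smul_mem c hY, fun a b => ?_⟩
      rw [LinearMap.smul_apply, Pi.smul_apply, h1, Polynomial.eval_monomial, smul_eq_mul]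
      ring
  obtain ⟨p, hp⟩ := exists_poly (Finset.univ.image (fun q : κ × κ => g q.1 - g q.2)) h
  obtain ⟨Y, hY, h1⟩ := key p
  refine ⟨Y, hY, fun a b => ?_⟩
  rw [h1, hp _ (Finset.mem_image.2 ⟨(a, b), Finset.mem_univ _, rfl⟩)]

variable [IsAlgClosed K] [Nonempty κ]

theorem trace_dg (g : κ → K) : LinearMap.trace K (κ → K) (dg g) = ∑ a, g a := by
  have h : (dg g : Module.End K (κ → K)) = Matrix.toLin' (Matrix.diagonal g) := by
    refine LinearMap.ext fun v => funext fun a => ?_
    rw [dg_apply, Matrix.toLin'_apply, Matrix.mulVec_diagonal]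
  rw [h, Matrix.trace_toLin'_eq, Matrix.trace_diagonal]

/-- The replicas of a diagonal element of `L` are in `L`. -/
theorem replica (hL : IsLie L) (hirr : Irr L) (htr : ∀ X ∈ L, LinearMap.trace K (κ → K) X = 0)
    {g : κ → K} (hg : dg g ∈ L) (φ : K →ₗ[ℚ] ℚ) : (dq (fun a => φ (g a)) : Module.End K (κ → K)) ∈ L := by
  refine norm_mem hL hirr htr (fun X hX => ?_) ?_
  · obtain ⟨Y, hY, h1⟩ := fun_mem hL hg (fun c => ((φ c : ℚ) : K)) hX
    have e : (dq (fun a => φ (g a)) : Module.End K (κ → K)) * X - X * dq (fun a => φ (g a)) = Y := by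
      refine ext_entry fun a b => ?_
      unfold dq
      rw [h1, LinearMap.sub_apply, Pi.sub_apply, dg_entry_left, Module.End.mul_apply, dg_single,
        map_smul, Pi.smul_apply, smul_eq_mul, map_sub]
      push_cast
      ring
    rw [e]
    exact hY
  · have h1 := htr _ hg
    unfold dq
    rw [trace_dg] at h1 ⊢
    have h2 : φ (∑ a, g a) = 0 := by rw [h1, map_zero]
    rw [map_sum] at h2
    have h3 : ((∑ a, φ (g a) : ℚ) : K) = 0 := by rw [h2, Rat.cast_zero]
    rw [← h3]
    push_cast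
    rfl

/-- The diagonal elements of `L` are symmetric if the rational ones are. -/
theorem sym_diag (hL : IsLie L) (hirr : Irr L) (htr : ∀ X ∈ L, LinearMap.trace K (κ → K) X = 0)
    (hdiag : ∀ f : κ → ℚ, dq f ∈ L → f ∈ Yo L) {k k' : κ} (hk : ∀ f ∈ Yo L, f k' = -f k)
    {g : κ → K} (hg : dg g ∈ L) : g k' = -g k := by
  rw [← add_eq_zero_iff_eq_neg, ← Module.forall_dual_apply_eq_zero_iff ℚ]
  intro φ
  have h1 : φ (g k') = -φ (g k) := hk _ (hdiag _ (replica hL hirr htr hg φ))
  rw [map_add, h1]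
  ring

theorem exists_generic {κ : Type*} [Finite κ] {Y : Submodule ℚ (κ → ℚ)}
    (hsep : ∀ a b : κ, a ≠ b → ∃ f ∈ Y, f a ≠ f b) : ∃ f ∈ Y, Function.Injective f := by
  classical
  by_contra hcon
  push Not at hcon
  let p : {q : κ × κ // q.1 ≠ q.2} → Submodule ℚ Y := fun q =>
    LinearMap.ker (((LinearMap.proj q.1.1 : (κ → ℚ) →ₗ[ℚ] ℚ) - LinearMap.proj q.1.2) ∘ₗ Y.subtype)
  have hcov : ⋃ i, (p i : Set Y) = Set.univ := by
    rw [Set.eq_univ_iff_forall]
    intro f
    have h1 := hcon f.1 f.2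
    rw [Function.Injective] at h1
    push Not at h1
    obtain ⟨a, b, hab, hne⟩ := h1
    refine Set.mem_iUnion.2 ⟨⟨(a, b), hne⟩, ?_⟩
    show (f : κ → ℚ) a - (f : κ → ℚ) b = 0
    rw [hab, sub_self]
  obtain ⟨⟨⟨a, b⟩, hab⟩, hi⟩ := Subspace.exists_eq_top_of_iUnion_eq_univ hcov
  obtain ⟨f, hf, hne⟩ := hsep a b hab
  apply hne
  have h1 : (⟨f, hf⟩ : Y) ∈ p ⟨(a, b), hab⟩ := by rw [hi]; exact Submodule.mem_top
  have h2 : f a - f b = 0 := h1
  exact sub_eq_zero.1 h2

theorem dq_mem {f : κ → ℚ} (hf : f ∈ Yo L) : (dq f : Module.End K (κ → K)) ∈ L := by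
  unfold Yo at hf
  induction hf using Submodule.span_induction with
  | mem ε hε => exact hε.2
  | zero =>
    have h : (dq (0 : κ → ℚ) : Module.End K (κ → K)) = 0 := by
      refine LinearMap.ext fun v => funext fun a => ?_
      simp [dq, dg_apply]
    rw [h]
    exact L.zero_mem
  | add a b _ _ ha hb =>
    have h : (dq (a + b) : Module.End K (κ → K)) = dq a + dq b := by
      refine LinearMap.ext fun v => funext fun a => ?_
      simp [dq, dg_apply, add_mul]
    rw [h]
    exact L.add_mem ha hb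
  | smul c a _ ha =>
    have h : (dq (c • a) : Module.End K (κ → K)) = (c : K) • dq a := by
      refine LinearMap.ext fun v => funext fun a => ?_
      simp [dq, dg_apply, mul_assoc]
    rw [h]
    exact L.smul_mem _ ha

theorem apply_eq_sum (X : Module.End K (κ → K)) (v : κ → K) (a : κ) :
    X v a = ∑ b, v b * X (Pi.single b 1) a := by
  have h : v = ∑ b, v b • (Pi.single b (1 : K) : κ → K) := by
    funext c
    simp [Finset.sum_apply, Pi.single_apply]
  conv_lhs => rw [h]
  rw [map_sum, Finset.sum_apply]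
  refine Finset.sum_congr rfl fun b _ => ?_
  rw [map_smul, Pi.smul_apply, smul_eq_mul]

/-- If the set of the weights is symmetric, there is a nonzero invariant bilinear form. -/
theorem exists_inv_form (hL : IsLie L) (hirr : Irr L)
    (htr : ∀ X ∈ L, LinearMap.trace K (κ → K) X = 0)
    (hdiag : ∀ f : κ → ℚ, dq f ∈ L → f ∈ Yo L)
    (hsep : ∀ a b : κ, a ≠ b → ∃ f ∈ Yo L, f a ≠ f b)
    (hsym : ∀ k, ∃ k', ∀ f ∈ Yo L, f k' = -f k) :
    ∃ b : (κ → K) →ₗ[K] (κ → K) →ₗ[K] K, b ≠ 0 ∧
      ∀ X ∈ L, ∀ v w, b (X v) w + b v (X w) = 0 := by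
  classical
  obtain ⟨f, hf, hinj⟩ := exists_generic hsep
  obtain ⟨M, -, hM⟩ := Finset.exists_max_image (Finset.univ : Finset κ) f Finset.univ_nonempty
  have hM' : ∀ b, f b ≤ f M := fun b => hM b (Finset.mem_univ b)
  obtain ⟨m, hm⟩ := hsym M
  have hm' : ∀ b, f m ≤ f b := by
    intro b
    obtain ⟨b', hb'⟩ := hsym b
    have h1 := hb' f hf
    have h2 := hm f hf
    have h3 := hM' b'
    linarith
  have hdf : (dq f : Module.End K (κ → K)) ∈ L := dq_mem hf
  -- the three parts of an element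
  have hcast : ∀ a b : κ, ((f a : ℚ) : K) - ((f b : ℚ) : K) = ((f a - f b : ℚ) : K) := by
    intro a b
    push_cast
    rfl
  have split : ∀ Z ∈ L, ∃ Z₁ ∈ L, ∃ g : κ → K, dg g ∈ L ∧ ∃ Z₃ ∈ L, Z = Z₁ + dg g + Z₃ ∧
      (∀ v, Z₁ v M = 0) ∧ Z₁ (Pi.single m 1) = 0 ∧ Z₃ (Pi.single M 1) = 0 ∧ ∀ v, Z₃ v m = 0 := by
    intro Z hZ
    obtain ⟨Z₁, h1, e1⟩ := fun_mem hL hdf
      (fun c => if ∃ q : ℚ, q < 0 ∧ (q : K) = c then 1 else 0) hZ
    obtain ⟨Z₂, h2, e2⟩ := fun_mem hL hdf (fun c => if c = 0 then 1 else 0) hZ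
    obtain ⟨Z₃, h3, e3⟩ := fun_mem hL hdf
      (fun c => if ∃ q : ℚ, 0 < q ∧ (q : K) = c then 1 else 0) hZ
    have c1 : ∀ a b, (∃ q : ℚ, q < 0 ∧ (q : K) = ((f a : ℚ) : K) - ((f b : ℚ) : K)) ↔ f a < f b := by
      intro a b
      rw [hcast]
      constructor
      · rintro ⟨q, hq, h⟩
        have : q = f a - f b := by exact_mod_cast h
        linarith
      · intro h
        exact ⟨f a - f b, by linarith, rfl⟩
    have c3 : ∀ a b, (∃ q : ℚ, 0 < q ∧ (q : K) = ((f a : ℚ) : K) - ((f b : ℚ) : K)) ↔ f b < f a := by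
      intro a b
      rw [hcast]
      constructor
      · rintro ⟨q, hq, h⟩
        have : q = f a - f b := by exact_mod_cast h
        linarith
      · intro h
        exact ⟨f a - f b, by linarith, rfl⟩
    have c2 : ∀ a b, ((f a : ℚ) : K) - ((f b : ℚ) : K) = 0 ↔ a = b := by
      intro a b
      rw [hcast]
      constructor
      · intro h
        have : f a - f b = 0 := by exact_mod_cast h
        exact hinj (sub_eq_zero.1 this)
      · rintro rfl
        rw [sub_self, Rat.cast_zero]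
    have e1' : ∀ a b, Z₁ (Pi.single b 1) a = if f a < f b then Z (Pi.single b 1) a else 0 := by
      intro a b
      rw [e1]
      simp only [c1]
      split_ifs <;> simp
    have e2' : ∀ a b, Z₂ (Pi.single b 1) a = if a = b then Z (Pi.single b 1) a else 0 := by
      intro a b
      rw [e2]
      simp only [c2]
      split_ifs <;> simp
    have e3' : ∀ a b, Z₃ (Pi.single b 1) a = if f b < f a then Z (Pi.single b 1) a else 0 := by
      intro a b
      rw [e3]
      simp only [c3]
      split_ifs <;> simp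
    have hZ2 : Z₂ = dg fun a => Z (Pi.single a 1) a := by
      refine ext_entry fun a b => ?_
      rw [e2', dg_apply]
      by_cases hab : a = b
      · rw [if_pos hab, hab, Pi.single_eq_same, mul_one]
      · rw [if_neg hab, Pi.single_eq_of_ne hab, mul_zero]
    refine ⟨Z₁, h1, fun a => Z (Pi.single a 1) a, hZ2 ▸ h2, Z₃, h3, ?_, ?_, ?_, ?_, ?_⟩
    · rw [← hZ2]
      refine ext_entry fun a b => ?_
      rw [LinearMap.add_apply, LinearMap.add_apply, Pi.add_apply, Pi.add_apply, e1', e2', e3']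
      rcases lt_trichotomy (f a) (f b) with h | h | h
      · have hab : a ≠ b := fun h' => by rw [h'] at h; exact lt_irrefl _ h
        rw [if_pos h, if_neg hab, if_neg (not_lt.2 h.le), add_zero, add_zero]
      · have hab : a = b := hinj h
        rw [if_neg (by rw [h]; exact lt_irrefl _), if_pos hab, if_neg (by rw [h]; exact lt_irrefl _),
          zero_add, add_zero]
      · have hab : a ≠ b := fun h' => by rw [h'] at h; exact lt_irrefl _ h
        rw [if_neg (not_lt.2 h.le), if_neg hab, if_pos h, zero_add, zero_add]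
    · intro v
      rw [apply_eq_sum]
      refine Finset.sum_eq_zero fun b _ => ?_
      rw [e1', if_neg (not_lt.2 (hM' b)), mul_zero]
    · funext a
      rw [e1', if_neg (not_lt.2 (hm' a))]
      rfl
    · funext a
      rw [e3', if_neg (not_lt.2 (hM' a))]
      rfl
    · intro v
      rw [apply_eq_sum]
      refine Finset.sum_eq_zero fun b _ => ?_
      rw [e3', if_neg (not_lt.2 (hm' b)), mul_zero]
  -- the submodule
  let act : Module.End K (κ → K) → (κ → K) × Module.Dual K (κ → K) →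
      (κ → K) × Module.Dual K (κ → K) := fun X u => (X u.1, -(u.2 ∘ₗ X))
  have act_add : ∀ X u u', act X (u + u') = act X u + act X u' := by
    intro X u u'
    refine Prod.ext (map_add X _ _) ?_
    show -((u.2 + u'.2) ∘ₗ X) = -(u.2 ∘ₗ X) + -(u'.2 ∘ₗ X)
    rw [LinearMap.add_comp]
    abel
  have act_smul : ∀ X (c : K) u, act X (c • u) = c • act X u := by
    intro X c u
    refine Prod.ext (map_smul X _ _) ?_
    show -((c • u.2) ∘ₗ X) = c • -(u.2 ∘ₗ X)
    rw [LinearMap.smul_comp, smul_neg]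
  have act_comm : ∀ X Y u, act X (act Y u) = act Y (act X u) + act (X * Y - Y * X) u := by
    intro X Y u
    refine Prod.ext ?_ ?_
    · show X (Y u.1) = Y (X u.1) + (X * Y - Y * X) u.1
      rw [LinearMap.sub_apply, Module.End.mul_apply, Module.End.mul_apply]
      abel
    · show -((-(u.2 ∘ₗ Y)) ∘ₗ X) = -((-(u.2 ∘ₗ X)) ∘ₗ Y) + -(u.2 ∘ₗ (X * Y - Y * X))
      refine LinearMap.ext fun v => ?_
      simp
  let x : (κ → K) × Module.Dual K (κ → K) := (Pi.single M 1, LinearMap.proj m)
  let W : ℕ → Set ((κ → K) × Module.Dual K (κ → K)) := fun n => Nat.rec {x}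
    (fun _ S => {u' | ∃ Y ∈ L, (∀ v, Y v M = 0) ∧ Y (Pi.single m 1) = 0 ∧ ∃ u ∈ S, u' = act Y u}) n
  let U : Submodule K ((κ → K) × Module.Dual K (κ → K)) := Submodule.span K (⋃ n, W n)
  have hWU : ∀ n, ∀ u ∈ W n, u ∈ U := fun n u hu => Submodule.subset_span (Set.mem_iUnion.2 ⟨n, hu⟩)
  have hxU : x ∈ U := hWU 0 x rfl
  have hlow : ∀ Y ∈ L, (∀ v, Y v M = 0) → Y (Pi.single m 1) = 0 → ∀ u ∈ U, act Y u ∈ U := by
    intro Y hY hY1 hY2 u hu
    induction hu using Submodule.span_induction with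
    | mem u hu =>
      obtain ⟨n, hn⟩ := Set.mem_iUnion.1 hu
      exact hWU (n + 1) _ ⟨Y, hY, hY1, hY2, u, hn, rfl⟩
    | zero =>
      have : act Y 0 = 0 := by
        have := act_smul Y 0 0
        rwa [zero_smul, zero_smul] at this
      rw [this]
      exact U.zero_mem
    | add u u' _ _ h h' => rw [act_add]; exact U.add_mem h h'
    | smul c u _ h => rw [act_smul]; exact U.smul_mem c h
  have hbase : ∀ Z ∈ L, act Z x ∈ U := by
    intro Z hZ
    obtain ⟨Z₁, h1, g, hg, Z₃, h3, he, a1, a2, a3, a4⟩ := split Z hZ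
    have e1 : act Z x = act Z₁ x + g M • x := by
      refine Prod.ext ?_ ?_
      · show Z (Pi.single M 1) = Z₁ (Pi.single M 1) + g M • Pi.single M 1
        rw [he, LinearMap.add_apply, LinearMap.add_apply, a3, dg_single, add_zero]
      · refine LinearMap.ext fun v => ?_
        show -(Z v m) = -(Z₁ v m) + g M * v m
        have h4 := sym_diag hL hirr htr hdiag hm hg
        rw [he, LinearMap.add_apply, LinearMap.add_apply, Pi.add_apply, Pi.add_apply, a4, dg_apply, h4]
        ring
    rw [e1]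
    exact U.add_mem (hlow Z₁ h1 a1 a2 x hxU) (U.smul_mem _ hxU)
  have hW : ∀ n, ∀ u ∈ W n, ∀ Z ∈ L, act Z u ∈ U := by
    intro n
    induction n with
    | zero =>
      rintro u rfl
      exact hbase
    | succ n ih =>
      rintro _ ⟨Y, hY, hY1, hY2, u, hu, rfl⟩ Z hZ
      rw [act_comm]
      exact U.add_mem (hlow Y hY hY1 hY2 _ (ih u hu Z hZ)) (ih u hu _ (hL Z hZ Y hY))
  have hU : ∀ X ∈ L, ∀ u ∈ U, act X u ∈ U := by
    intro X hX u hu
    induction hu using Submodule.span_induction with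
    | mem u hu =>
      obtain ⟨n, hn⟩ := Set.mem_iUnion.1 hu
      exact hW n u hn X hX
    | zero =>
      have : act X 0 = 0 := by
        have := act_smul X 0 0
        rwa [zero_smul, zero_smul] at this
      rw [this]
      exact U.zero_mem
    | add u u' _ _ h h' => rw [act_add]; exact U.add_mem h h'
    | smul c u _ h => rw [act_smul]; exact U.smul_mem c h
  have hB : ∀ u ∈ U, u.2 (Pi.single m 1) = u.1 M := by
    intro u hu
    induction hu using Submodule.span_induction with
    | mem u hu =>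
      obtain ⟨n, hn⟩ := Set.mem_iUnion.1 hu
      cases n with
      | zero =>
        have : u = x := hn
        rw [this]
        show (Pi.single m (1 : K) : κ → K) m = (Pi.single M (1 : K) : κ → K) M
        rw [Pi.single_eq_same, Pi.single_eq_same]
      | succ n =>
        obtain ⟨Y, hY, hY1, hY2, u', hu', rfl⟩ := hn
        show -(u'.2 (Y (Pi.single m 1))) = Y u'.1 M
        rw [hY1, hY2, map_zero, neg_zero]
    | zero => simp
    | add u u' _ _ h h' =>
      rw [Prod.fst_add, Prod.snd_add, LinearMap.add_apply, Pi.add_apply, h, h']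
    | smul c u _ h =>
      rw [Prod.smul_fst, Prod.smul_snd, LinearMap.smul_apply, Pi.smul_apply, h]
  refine form_of_graph hirr U hU (e := Pi.single m 1) ?_ (fun φ hφ => ?_) hxU ?_ ?_
  · intro h
    have := congrFun h m
    rw [Pi.single_eq_same] at this
    exact one_ne_zero this
  · have := hB _ hφ
    exact this
  · intro h
    have h1 : (Pi.single M (1 : K) : κ → K) = 0 := h
    have := congrFun h1 M
    rw [Pi.single_eq_same] at this
    exact one_ne_zero this
  · intro h
    have h1 : (LinearMap.proj m : (κ → K) →ₗ[K] K) = 0 := h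
    have := LinearMap.congr_fun h1 (Pi.single m 1)
    rw [LinearMap.proj_apply, Pi.single_eq_same] at this
    exact one_ne_zero this

end Pool.Agent.H25Y
end

-- from Lib.H25Y.Pair
section

/-!
# Pair: two representations with the same highest weight are isomorphic (graph argument)
-/

set_option autoImplicit false
set_option linter.unusedSectionVars false
namespace Pool.Agent.H25Y
open Module Pool.Agent.H53Toric Pool.Agent.H76P

variable {κ κ' : Type*} {K : Type*} [Field K] [CharZero K] [Fintype κ] [DecidableEq κ] [Fintype κ'] [DecidableEq κ']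
  {𝓛 : Submodule K (Module.End K (κ → K) × Module.End K (κ' → K))}

/-- Functions of the differences of a diagonal pair act on a Lie algebra of pairs. -/
theorem fun_mem_pair
    (hL : ∀ p ∈ 𝓛, ∀ q ∈ 𝓛, (p.1 * q.1 - q.1 * p.1, p.2 * q.2 - q.2 * p.2) ∈ 𝓛)
    {g : κ → K} {g' : κ' → K} (hg : (dg g, dg g') ∈ 𝓛) (h : K → K)
    {X : Module.End K (κ → K)} {X' : Module.End K (κ' → K)} (hX : (X, X') ∈ 𝓛) :
    ∃ Y Y', (Y, Y') ∈ 𝓛 ∧ (∀ a b, Y (Pi.single b 1) a = h (g a - g b) * X (Pi.single b 1) a) ∧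
      ∀ a b, Y' (Pi.single b 1) a = h (g' a - g' b) * X' (Pi.single b 1) a := by
  classical
  have key : ∀ p : Polynomial K, ∃ Y Y', (Y, Y') ∈ 𝓛 ∧
      (∀ a b, Y (Pi.single b 1) a = p.eval (g a - g b) * X (Pi.single b 1) a) ∧
      ∀ a b, Y' (Pi.single b 1) a = p.eval (g' a - g' b) * X' (Pi.single b 1) a := by
    intro p
    induction p using Polynomial.induction_on' with
    | add p q hp hq =>
      obtain ⟨Y, Y', hY, h1, h1'⟩ := hp
      obtain ⟨Z, Z', hZ, h2, h2'⟩ := hq
      refine ⟨Y + Z, Y' + Z', 𝓛.add_mem hY hZ, fun a b => ?_, fun a b => ?_⟩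
      · rw [LinearMap.add_apply, Pi.add_apply, h1, h2, Polynomial.eval_add]
        ring
      · rw [LinearMap.add_apply, Pi.add_apply, h1', h2', Polynomial.eval_add]
        ring
    | monomial n c =>
      have : ∀ n : ℕ, ∃ Y Y', (Y, Y') ∈ 𝓛 ∧
          (∀ a b, Y (Pi.single b 1) a = (g a - g b) ^ n * X (Pi.single b 1) a) ∧
          ∀ a b, Y' (Pi.single b 1) a = (g' a - g' b) ^ n * X' (Pi.single b 1) a := by
        intro n
        induction n with
        | zero => exact ⟨X, X', hX, fun a b => by rw [pow_zero, one_mul], fun a b => by rw [pow_zero, one_mul]⟩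
        | succ n ih =>
          obtain ⟨Y, Y', hY, h1, h1'⟩ := ih
          refine ⟨dg g * Y - Y * dg g, dg g' * Y' - Y' * dg g', hL _ hg _ hY, fun a b => ?_, fun a b => ?_⟩
          · rw [LinearMap.sub_apply, Pi.sub_apply, dg_entry_left, Module.End.mul_apply, dg_single,
              map_smul, Pi.smul_apply, h1, smul_eq_mul]
            ring
          · rw [LinearMap.sub_apply, Pi.sub_apply, dg_entry_left, Module.End.mul_apply, dg_single,
              map_smul, Pi.smul_apply, h1', smul_eq_mul]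
            ring
      obtain ⟨Y, Y', hY, h1, h1'⟩ := this n
      refine ⟨c • Y, c • Y', 𝓛.smul_mem c hY, fun a b => ?_, fun a b => ?_⟩
      · rw [LinearMap.smul_apply, Pi.smul_apply, h1, Polynomial.eval_monomial, smul_eq_mul]
        ring
      · rw [LinearMap.smul_apply, Pi.smul_apply, h1', Polynomial.eval_monomial, smul_eq_mul]
        ring
  obtain ⟨p, hp⟩ := exists_poly (Finset.univ.image (fun q : κ × κ => g q.1 - g q.2) ∪
    Finset.univ.image (fun q : κ' × κ' => g' q.1 - g' q.2)) h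
  obtain ⟨Y, Y', hY, h1, h1'⟩ := key p
  refine ⟨Y, Y', hY, fun a b => ?_, fun a b => ?_⟩
  · rw [h1, hp _ (Finset.mem_union_left _ (Finset.mem_image.2 ⟨(a, b), Finset.mem_univ _, rfl⟩))]
  · rw [h1', hp _ (Finset.mem_union_right _ (Finset.mem_image.2 ⟨(a, b), Finset.mem_univ _, rfl⟩))]

/-- A subspace of pairs which is stable, and which contains no `(0, w)` with `w` outside a proper subset, is the
graph of an isomorphism. -/
theorem iso_of_graph {V V' : Type*} [AddCommGroup V] [Module K V] [AddCommGroup V'] [Module K V']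
    {𝓛 : Set (Module.End K V × Module.End K V')}
    (hirr : ∀ W : Submodule K V, (∀ p ∈ 𝓛, ∀ w ∈ W, p.1 w ∈ W) → W = ⊥ ∨ W = ⊤)
    (hirr' : ∀ W : Submodule K V', (∀ p ∈ 𝓛, ∀ w ∈ W, p.2 w ∈ W) → W = ⊥ ∨ W = ⊤)
    (U : Submodule K (V × V')) (hU : ∀ p ∈ 𝓛, ∀ u ∈ U, (p.1 u.1, p.2 u.2) ∈ U)
    {e' : V'} (he : (0, e') ∉ U) {x : V × V'} (hx : x ∈ U) (hx1 : x.1 ≠ 0) (hx2 : x.2 ≠ 0) :
    ∃ T : V →ₗ[K] V', Function.Bijective T ∧ T x.1 = x.2 ∧ ∀ p ∈ 𝓛, ∀ v, T (p.1 v) = p.2 (T v) := by
  have h0 : ∀ w, ((0 : V), w) ∈ U → w = 0 := by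
    let N : Submodule K V' :=
      { carrier := {w | ((0 : V), w) ∈ U}
        add_mem' := by
          intro a b ha hb
          have := U.add_mem ha hb
          rwa [Prod.mk_add_mk, add_zero] at this
        zero_mem' := U.zero_mem
        smul_mem' := by
          intro c a ha
          have := U.smul_mem c ha
          rwa [Prod.smul_mk, smul_zero] at this }
    have hst : ∀ p ∈ 𝓛, ∀ w ∈ N, p.2 w ∈ N := by
      intro p hp w hw
      have h1 := hU p hp _ hw
      rw [map_zero] at h1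
      exact h1
    intro w hw
    rcases hirr' N hst with h | h
    · have : w ∈ N := hw
      rwa [h, Submodule.mem_bot] at this
    · exfalso
      apply he
      have : e' ∈ N := by rw [h]; exact Submodule.mem_top
      exact this
  have h1 : ∀ v : V, ∃ w : V', (v, w) ∈ U := by
    have hst : ∀ p ∈ 𝓛, ∀ w ∈ U.map (LinearMap.fst K V V'), p.1 w ∈ U.map (LinearMap.fst K V V') := by
      intro p hp w hw
      obtain ⟨u, hu, rfl⟩ := hw
      exact ⟨_, hU p hp u hu, rfl⟩
    rcases hirr _ hst with h | h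
    · exfalso
      apply hx1
      have : x.1 ∈ U.map (LinearMap.fst K V V') := Submodule.mem_map_of_mem hx
      rw [h, Submodule.mem_bot] at this
      exact this
    · intro v
      have : v ∈ U.map (LinearMap.fst K V V') := by rw [h]; exact Submodule.mem_top
      obtain ⟨u, hu, rfl⟩ := this
      exact ⟨u.2, hu⟩
  choose θ hθ using h1
  have huniq : ∀ v w, (v, w) ∈ U → w = θ v := by
    intro v w h
    have h2 := U.sub_mem h (hθ v)
    rw [Prod.mk_sub_mk, sub_self] at h2
    exact sub_eq_zero.1 (h0 _ h2)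
  let T : V →ₗ[K] V' :=
    { toFun := θ
      map_add' := by
        intro v w
        refine (huniq _ _ ?_).symm
        have := U.add_mem (hθ v) (hθ w)
        rwa [Prod.mk_add_mk] at this
      map_smul' := by
        intro c v
        refine (huniq _ _ ?_).symm
        have := U.smul_mem c (hθ v)
        rwa [Prod.smul_mk] at this }
  have hT : ∀ p ∈ 𝓛, ∀ v, T (p.1 v) = p.2 (T v) := fun p hp v => (huniq _ _ (hU p hp _ (hθ v))).symm
  have hTx : T x.1 = x.2 := (huniq _ _ hx).symm
  refine ⟨T, ⟨?_, ?_⟩, hTx, hT⟩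
  · rcases hirr (LinearMap.ker T) (fun p hp w hw => by
      rw [LinearMap.mem_ker] at hw ⊢
      rw [hT p hp, hw, map_zero]) with h | h
    · exact LinearMap.ker_eq_bot.1 h
    · exfalso
      apply hx2
      have : x.1 ∈ LinearMap.ker T := by rw [h]; exact Submodule.mem_top
      rw [← hTx]
      exact LinearMap.mem_ker.1 this
  · rcases hirr' (LinearMap.range T) (fun p hp w hw => by
      obtain ⟨v, rfl⟩ := hw
      exact ⟨_, hT p hp v⟩) with h | h
    · exfalso
      apply hx2
      have : T x.1 ∈ LinearMap.range T := ⟨_, rfl⟩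
      rw [h, Submodule.mem_bot] at this
      rw [← hTx]
      exact this
    · exact LinearMap.range_eq_top.1 h

theorem pair_sum {ι : Type*} [Fintype ι] [DecidableEq ι] (X : Module.End K (ι → K)) (v : ι → K) (a : ι) :
    X v a = ∑ b, v b * X (Pi.single b 1) a := by
  have h : v = ∑ b, v b • (Pi.single b (1 : K) : ι → K) := by
    funext c
    simp [Finset.sum_apply, Pi.single_apply]
  conv_lhs => rw [h]
  rw [map_sum, Finset.sum_apply]
  refine Finset.sum_congr rfl fun b _ => ?_
  rw [map_smul, Pi.smul_apply, smul_eq_mul]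

/-- The three parts of an operator with respect to an injective rational function. -/
theorem pair_part {ι : Type*} [Fintype ι] [DecidableEq ι] {f : ι → ℚ} (hinj : Function.Injective f)
    {M : ι} (hM : ∀ a, f a ≤ f M) (h₁ h₂ h₃ : K → K)
    (hh₁ : ∀ q : ℚ, h₁ q = if q < 0 then 1 else 0) (hh₂ : ∀ q : ℚ, h₂ q = if q = 0 then 1 else 0)
    (hh₃ : ∀ q : ℚ, h₃ q = if 0 < q then 1 else 0) {Z Z₁ Z₂ Z₃ : Module.End K (ι → K)}
    (e1 : ∀ a b, Z₁ (Pi.single b 1) a = h₁ ((f a : K) - (f b : K)) * Z (Pi.single b 1) a)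
    (e2 : ∀ a b, Z₂ (Pi.single b 1) a = h₂ ((f a : K) - (f b : K)) * Z (Pi.single b 1) a)
    (e3 : ∀ a b, Z₃ (Pi.single b 1) a = h₃ ((f a : K) - (f b : K)) * Z (Pi.single b 1) a) :
    Z₂ = dg (fun a => Z (Pi.single a 1) a) ∧ Z = Z₁ + Z₂ + Z₃ ∧ (∀ v, Z₁ v M = 0) ∧
        Z₃ (Pi.single M 1) = 0 := by
  have hcast : ∀ x y : ℚ, (x : K) - (y : K) = ((x - y : ℚ) : K) := by
    intro x y
    push_cast
    rfl
  have e1' : ∀ a b, Z₁ (Pi.single b 1) a = if f a < f b then Z (Pi.single b 1) a else 0 := by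
    intro a b
    rw [e1, hcast, hh₁]
    by_cases h : f a < f b
    · rw [if_pos h, if_pos (by linarith), one_mul]
    · rw [if_neg h, if_neg (by linarith), zero_mul]
  have e2' : ∀ a b, Z₂ (Pi.single b 1) a = if a = b then Z (Pi.single b 1) a else 0 := by
    intro a b
    rw [e2, hcast, hh₂]
    by_cases h : a = b
    · rw [if_pos h, h, sub_self, if_pos rfl, one_mul]
    · rw [if_neg h, if_neg (sub_ne_zero.2 fun h' => h (hinj h')), zero_mul]
  have e3' : ∀ a b, Z₃ (Pi.single b 1) a = if f b < f a then Z (Pi.single b 1) a else 0 := by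
    intro a b
    rw [e3, hcast, hh₃]
    by_cases h : f b < f a
    · rw [if_pos h, if_pos (by linarith), one_mul]
    · rw [if_neg h, if_neg (by linarith), zero_mul]
  refine ⟨?_, ?_, ?_, ?_⟩
  · refine ext_entry fun a b => ?_
    rw [e2', dg_apply]
    by_cases hab : a = b
    · rw [if_pos hab, hab, Pi.single_eq_same, mul_one]
    · rw [if_neg hab, Pi.single_eq_of_ne hab, mul_zero]
  · refine ext_entry fun a b => ?_
    rw [LinearMap.add_apply, LinearMap.add_apply, Pi.add_apply, Pi.add_apply, e1', e2', e3']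
    rcases lt_trichotomy (f a) (f b) with h | h | h
    · have hab : a ≠ b := fun h' => by rw [h'] at h; exact lt_irrefl _ h
      rw [if_pos h, if_neg hab, if_neg (not_lt.2 h.le), add_zero, add_zero]
    · have hab : a = b := hinj h
      rw [if_neg (by rw [h]; exact lt_irrefl _), if_pos hab, if_neg (by rw [h]; exact lt_irrefl _),
        zero_add, add_zero]
    · have hab : a ≠ b := fun h' => by rw [h'] at h; exact lt_irrefl _ h
      rw [if_neg (not_lt.2 h.le), if_neg hab, if_pos h, zero_add, zero_add]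
  · intro v
    rw [pair_sum]
    refine Finset.sum_eq_zero fun b _ => ?_
    rw [e1', if_neg (not_lt.2 (hM b)), mul_zero]
  · funext a
    rw [e3', if_neg (not_lt.2 (hM a))]
    rfl

/-- **Intertwiner.** A Lie algebra of pairs of operators with irreducible projections, a generic rational diagonal
pair, the same value of all diagonal pairs at the two maxima: the two representations are isomorphic. -/
theorem exists_intertwiner
    (hL : ∀ p ∈ 𝓛, ∀ q ∈ 𝓛, (p.1 * q.1 - q.1 * p.1, p.2 * q.2 - q.2 * p.2) ∈ 𝓛)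
    (hirr : ∀ W : Submodule K (κ → K), (∀ p ∈ 𝓛, ∀ w ∈ W, p.1 w ∈ W) → W = ⊥ ∨ W = ⊤)
    (hirr' : ∀ W : Submodule K (κ' → K), (∀ p ∈ 𝓛, ∀ w ∈ W, p.2 w ∈ W) → W = ⊥ ∨ W = ⊤)
    {f : κ → ℚ} {f' : κ' → ℚ} (hff : ((dq f : Module.End K (κ → K)), (dq f' : Module.End K (κ' → K))) ∈ 𝓛)
    (hinj : Function.Injective f) (hinj' : Function.Injective f')
    {M : κ} {M' : κ'} (hM : ∀ a, f a ≤ f M) (hM' : ∀ a, f' a ≤ f' M')
    (hmax : ∀ (g : κ → K) (g' : κ' → K), (dg g, dg g') ∈ 𝓛 → g M = g' M') :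
    ∃ T : (κ → K) →ₗ[K] (κ' → K), Function.Bijective T ∧ T (Pi.single M 1) = Pi.single M' 1 ∧
      ∀ p ∈ 𝓛, ∀ v, T (p.1 v) = p.2 (T v) := by
  classical
  let h₁ : K → K := fun c => if ∃ q : ℚ, q < 0 ∧ (q : K) = c then 1 else 0
  let h₂ : K → K := fun c => if c = 0 then 1 else 0
  let h₃ : K → K := fun c => if ∃ q : ℚ, 0 < q ∧ (q : K) = c then 1 else 0
  have hh₁ : ∀ q : ℚ, h₁ q = if q < 0 then 1 else 0 := by
    intro q
    show (if ∃ q' : ℚ, q' < 0 ∧ (q' : K) = (q : K) then (1 : K) else 0) = _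
    by_cases h : q < 0
    · rw [if_pos h, if_pos ⟨q, h, rfl⟩]
    · rw [if_neg h, if_neg]
      rintro ⟨q', h1, h2⟩
      rw [Rat.cast_injective h2] at h1
      exact h h1
  have hh₂ : ∀ q : ℚ, h₂ q = if q = 0 then 1 else 0 := by
    intro q
    show (if (q : K) = 0 then (1 : K) else 0) = _
    simp only [Rat.cast_eq_zero]
  have hh₃ : ∀ q : ℚ, h₃ q = if 0 < q then 1 else 0 := by
    intro q
    show (if ∃ q' : ℚ, 0 < q' ∧ (q' : K) = (q : K) then (1 : K) else 0) = _
    by_cases h : 0 < q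
    · rw [if_pos h, if_pos ⟨q, h, rfl⟩]
    · rw [if_neg h, if_neg]
      rintro ⟨q', h1, h2⟩
      rw [Rat.cast_injective h2] at h1
      exact h h1
  have split : ∀ Z Z', (Z, Z') ∈ 𝓛 → ∃ Z₁ Z₁', (Z₁, Z₁') ∈ 𝓛 ∧ ∃ (g : κ → K) (g' : κ' → K),
      (dg g, dg g') ∈ 𝓛 ∧ ∃ Z₃ Z₃', Z = Z₁ + dg g + Z₃ ∧ Z' = Z₁' + dg g' + Z₃' ∧
      (∀ v, Z₁ v M = 0) ∧ (∀ v, Z₁' v M' = 0) ∧ Z₃ (Pi.single M 1) = 0 ∧ Z₃' (Pi.single M' 1) = 0 := by
    intro Z Z' hZ
    obtain ⟨Z₁, Z₁', h1, e1, e1'⟩ := fun_mem_pair hL hff h₁ hZ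
    obtain ⟨Z₂, Z₂', h2, e2, e2'⟩ := fun_mem_pair hL hff h₂ hZ
    obtain ⟨Z₃, Z₃', h3, e3, e3'⟩ := fun_mem_pair hL hff h₃ hZ
    obtain ⟨p1, p2, p3, p4⟩ := pair_part hinj hM h₁ h₂ h₃ hh₁ hh₂ hh₃ e1 e2 e3
    obtain ⟨q1, q2, q3, q4⟩ := pair_part hinj' hM' h₁ h₂ h₃ hh₁ hh₂ hh₃ e1' e2' e3'
    exact ⟨Z₁, Z₁', h1, _, _, by rw [← p1, ← q1]; exact h2, Z₃, Z₃', by rw [← p1]; exact p2,
      by rw [← q1]; exact q2, p3, q3, p4, q4⟩
  -- the submodule
  let act : Module.End K (κ → K) × Module.End K (κ' → K) → (κ → K) × (κ' → K) →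
      (κ → K) × (κ' → K) := fun p u => (p.1 u.1, p.2 u.2)
  have act_add : ∀ p u u', act p (u + u') = act p u + act p u' := fun p u u' =>
    Prod.ext (map_add p.1 _ _) (map_add p.2 _ _)
  have act_smul : ∀ p (c : K) u, act p (c • u) = c • act p u := fun p c u =>
    Prod.ext (map_smul p.1 _ _) (map_smul p.2 _ _)
  have act_zero : ∀ p, act p 0 = 0 := fun p => Prod.ext (map_zero p.1) (map_zero p.2)
  have act_comm : ∀ p q u, act p (act q u) = act q (act p u) +
      act (p.1 * q.1 - q.1 * p.1, p.2 * q.2 - q.2 * p.2) u := by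
    intro p q u
    refine Prod.ext ?_ ?_
    · show p.1 (q.1 u.1) = q.1 (p.1 u.1) + (p.1 * q.1 - q.1 * p.1) u.1
      rw [LinearMap.sub_apply, Module.End.mul_apply, Module.End.mul_apply]
      abel
    · show p.2 (q.2 u.2) = q.2 (p.2 u.2) + (p.2 * q.2 - q.2 * p.2) u.2
      rw [LinearMap.sub_apply, Module.End.mul_apply, Module.End.mul_apply]
      abel
  let x : (κ → K) × (κ' → K) := (Pi.single M 1, Pi.single M' 1)
  let W : ℕ → Set ((κ → K) × (κ' → K)) := fun n => Nat.rec {x}
    (fun _ S => {u' | ∃ p ∈ 𝓛, (∀ v, p.1 v M = 0) ∧ (∀ v, p.2 v M' = 0) ∧ ∃ u ∈ S, u' = act p u}) n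
  let U : Submodule K ((κ → K) × (κ' → K)) := Submodule.span K (⋃ n, W n)
  have hWU : ∀ n, ∀ u ∈ W n, u ∈ U := fun n u hu => Submodule.subset_span (Set.mem_iUnion.2 ⟨n, hu⟩)
  have hxU : x ∈ U := hWU 0 x rfl
  have hlow : ∀ p ∈ 𝓛, (∀ v, p.1 v M = 0) → (∀ v, p.2 v M' = 0) → ∀ u ∈ U, act p u ∈ U := by
    intro p hp hp1 hp2 u hu
    induction hu using Submodule.span_induction with
    | mem u hu =>
      obtain ⟨n, hn⟩ := Set.mem_iUnion.1 hu
      exact hWU (n + 1) _ ⟨p, hp, hp1, hp2, u, hn, rfl⟩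
    | zero => rw [act_zero]; exact U.zero_mem
    | add u u' _ _ h h' => rw [act_add]; exact U.add_mem h h'
    | smul c u _ h => rw [act_smul]; exact U.smul_mem c h
  have hbase : ∀ p ∈ 𝓛, act p x ∈ U := by
    rintro ⟨Z, Z'⟩ hZ
    obtain ⟨Z₁, Z₁', h1, g, g', hg, Z₃, Z₃', he, he', a1, a1', a3, a3'⟩ := split Z Z' hZ
    have e1 : act (Z, Z') x = act (Z₁, Z₁') x + g M • x := by
      refine Prod.ext ?_ ?_
      · show Z (Pi.single M 1) = Z₁ (Pi.single M 1) + g M • Pi.single M 1
        rw [he, LinearMap.add_apply, LinearMap.add_apply, a3, dg_single, add_zero]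
      · show Z' (Pi.single M' 1) = Z₁' (Pi.single M' 1) + g M • Pi.single M' 1
        rw [he', LinearMap.add_apply, LinearMap.add_apply, a3', dg_single, add_zero, hmax g g' hg]
    rw [e1]
    exact U.add_mem (hlow _ h1 a1 a1' x hxU) (U.smul_mem _ hxU)
  have hW : ∀ n, ∀ u ∈ W n, ∀ p ∈ 𝓛, act p u ∈ U := by
    intro n
    induction n with
    | zero =>
      rintro u rfl
      exact hbase
    | succ n ih =>
      rintro _ ⟨q, hq, hq1, hq2, u, hu, rfl⟩ p hp
      rw [act_comm]
      exact U.add_mem (hlow q hq hq1 hq2 _ (ih u hu p hp)) (ih u hu _ (hL p hp q hq))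
  have hU : ∀ p ∈ 𝓛, ∀ u ∈ U, act p u ∈ U := by
    intro p hp u hu
    induction hu using Submodule.span_induction with
    | mem u hu =>
      obtain ⟨n, hn⟩ := Set.mem_iUnion.1 hu
      exact hW n u hn p hp
    | zero => rw [act_zero]; exact U.zero_mem
    | add u u' _ _ h h' => rw [act_add]; exact U.add_mem h h'
    | smul c u _ h => rw [act_smul]; exact U.smul_mem c h
  have hB : ∀ u ∈ U, u.1 M = u.2 M' := by
    intro u hu
    induction hu using Submodule.span_induction with
    | mem u hu =>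
      obtain ⟨n, hn⟩ := Set.mem_iUnion.1 hu
      cases n with
      | zero =>
        have : u = x := hn
        rw [this]
        show (Pi.single M (1 : K) : κ → K) M = (Pi.single M' (1 : K) : κ' → K) M'
        rw [Pi.single_eq_same, Pi.single_eq_same]
      | succ n =>
        obtain ⟨p, hp, hp1, hp2, u', hu', rfl⟩ := hn
        show p.1 u'.1 M = p.2 u'.2 M'
        rw [hp1, hp2]
    | zero => simp
    | add u u' _ _ h h' =>
      rw [Prod.fst_add, Prod.snd_add, Pi.add_apply, Pi.add_apply, h, h']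
    | smul c u _ h =>
      rw [Prod.smul_fst, Prod.smul_snd, Pi.smul_apply, Pi.smul_apply, h]
  have hx1 : (Pi.single M (1 : K) : κ → K) ≠ 0 := by
    intro h
    have := congrFun h M
    rw [Pi.single_eq_same] at this
    exact one_ne_zero this
  have hx2 : (Pi.single M' (1 : K) : κ' → K) ≠ 0 := by
    intro h
    have := congrFun h M'
    rw [Pi.single_eq_same] at this
    exact one_ne_zero this
  obtain ⟨T, hT1, hT2, hT3⟩ := iso_of_graph (𝓛 := (𝓛 : Set _)) hirr hirr' U hU (e' := Pi.single M' 1)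
    (fun h => by
      have h1 := hB _ h
      have h2 : (0 : K) = (Pi.single M' (1 : K) : κ' → K) M' := h1
      rw [Pi.single_eq_same] at h2
      exact zero_ne_one h2) hxU hx1 hx2
  exact ⟨T, hT1, hT2, hT3⟩

end Pool.Agent.H25Y
end

-- from Lib.H34Z.D0
section

/-!
# D0: definitions for the assembly of version 4 (all Albert types)

Notation as in `H76P.T0`: `dg f` is the diagonal operator of `f : κ → K`, `dq f` the diagonal operator of a rational
function.  `phi` is the isomorphism between matrices and operators, `adjE J` the adjoint with respect to the form `J`.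
-/

set_option autoImplicit false
set_option linter.unusedSectionVars false
namespace Pool.Agent.H34Z
open Module Matrix Pool.Agent.H53Toric Pool.Agent.H76P

section
variable {κ : Type*} [Fintype κ] [DecidableEq κ] {K : Type*} [Field K]

/-- The matrix `J` is monomial with the involution `π`. -/
structure Mon (J : Matrix κ κ K) (π : κ → κ) : Prop where
  inv : ∀ i, π (π i) = i
  ne : ∀ i, J i (π i) ≠ 0
  zero : ∀ i j, j ≠ π i → J i j = 0

/-- `E`, `F` are root elements on which `ε` has the values `2`, `-2`; `h` is the coroot. -/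
structure Trip (E F : Module.End K (κ → K)) (ε h : κ → K) : Prop where
  e : dg ε * E - E * dg ε = (2 : K) • E
  f : dg ε * F - F * dg ε = (-2 : K) • F
  co : E * F - F * E = dg h
  he : dg h * E - E * dg h = (2 : K) • E
  hf : dg h * F - F * dg h = (-2 : K) • F

/-- `h` is the coroot of a root of `L` on which `ε` has the value `2`. -/
def Cor (L : Submodule K (Module.End K (κ → K))) (ε h : κ → K) : Prop :=
  ∃ E ∈ L, ∃ F ∈ L, Trip E F ε h

/-- `W` is the graph of a linear functional on the diagonal operators of `L` which has the properties of a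
weight on which `ε` is `1`. -/
structure Fun (L : Submodule K (Module.End K (κ → K))) (ε : κ → K)
    (W : Submodule K ((κ → K) × K)) : Prop where
  zero : ∀ c, ((0 : κ → K), c) ∈ W → c = 0
  tot : ∀ g, dg g ∈ L → ∃ c, (g, c) ∈ W
  dom : ∀ g c, (g, c) ∈ W → dg g ∈ L
  cor : ∀ h c, Cor L ε h → (h, c) ∈ W → c = 0 ∨ c = 1
  eps : (ε, 1) ∈ W

/-- The full classical Lie algebras: symplectic, orthogonal (of rank `≥ 6`, not `8`), all operators of trace
zero.  The first two are possible only if `t` is true, the third only if `t` is false. -/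
inductive FB (t : Prop) (L : Submodule K (Module.End K (κ → K))) (J : Matrix κ κ K) : Prop
  | s (ht : t) (π : κ → κ) (hJ : Jᵀ = -J) (hdet : IsUnit J.det) (hm : Mon J π)
      (hL : ∀ X, X ∈ L ↔ adjE J X = -X) : FB t L J
  | o (ht : t) (π : κ → κ) (hJ : Jᵀ = J) (hdet : IsUnit J.det) (hm : Mon J π)
      (hL : ∀ X, X ∈ L ↔ adjE J X = -X) (h6 : 6 ≤ Fintype.card κ) (h8 : Fintype.card κ ≠ 8) : FB t L J
  | n (ht : ¬ t) (hL : ∀ X, X ∈ L ↔ LinearMap.trace K (κ → K) X = 0) (h2 : 2 ≤ Fintype.card κ) : FB t L J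

end

section
variable {κ κ' : Type*} [Fintype κ] [DecidableEq κ] [Fintype κ'] [DecidableEq κ'] {K : Type*} [Field K]

/-- A Lie algebra `𝓛` of pairs of operators which is the graph of an isomorphism between `L` and `L'`, and which
is stable under the conjugation with the pair of diagonal operators `d`, `d'`; `(ε, ε')` is a diagonal pair of
involutions in `𝓛`. -/
structure Gr (𝓛 : Submodule K (Module.End K (κ → K) × Module.End K (κ' → K)))
    (L : Submodule K (Module.End K (κ → K))) (L' : Submodule K (Module.End K (κ' → K)))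
    (d : κ → K) (d' : κ' → K) (ε : κ → K) (ε' : κ' → K) : Prop where
  lie : ∀ p ∈ 𝓛, ∀ q ∈ 𝓛, (p.1 * q.1 - q.1 * p.1, p.2 * q.2 - q.2 * p.2) ∈ 𝓛
  fst : ∀ X, X ∈ L ↔ ∃ X', (X, X') ∈ 𝓛
  snd : ∀ X', X' ∈ L' ↔ ∃ X, (X, X') ∈ 𝓛
  left : ∀ X, (X, (0 : Module.End K (κ' → K))) ∈ 𝓛 → X = 0
  right : ∀ X', ((0 : Module.End K (κ → K)), X') ∈ 𝓛 → X' = 0
  inj : Function.Injective d
  inj' : Function.Injective d'
  ne : ∀ k, d k ≠ 0
  ne' : ∀ k, d' k ≠ 0
  cnj : ∀ X X', (X, X') ∈ 𝓛 → (dg d * X * dg (fun k => (d k)⁻¹), dg d' * X' * dg (fun k => (d' k)⁻¹)) ∈ 𝓛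
  eps : (dg ε, dg ε') ∈ 𝓛
  val : ∀ k, ε k = 1 ∨ ε k = -1
  val' : ∀ k, ε' k = 1 ∨ ε' k = -1

/-- The functional `g ↦ s * g' k` for the diagonal pairs `(g, g')` in `𝓛`. -/
def Wt (𝓛 : Submodule K (Module.End K (κ → K) × Module.End K (κ' → K))) (k : κ') (s : K) :
    Submodule K ((κ → K) × K) where
  carrier := {p | ∃ g' : κ' → K, (dg p.1, dg g') ∈ 𝓛 ∧ p.2 = s * g' k}
  add_mem' := by
    rintro ⟨g, c⟩ ⟨h, c'⟩ ⟨g', h1, h2⟩ ⟨h', h3, h4⟩
    refine ⟨g' + h', ?_, ?_⟩
    · have h5 := 𝓛.add_mem h1 h3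
      rw [Prod.mk_add_mk, ← dg_add, ← dg_add] at h5
      exact h5
    · change c = _ at h2
      change c' = _ at h4
      change c + c' = _
      rw [h2, h4, Pi.add_apply, mul_add]
  zero_mem' := by
    refine ⟨0, ?_, ?_⟩
    · have h1 : (dg (0 : κ → K)) = 0 := by
        refine LinearMap.ext fun v => funext fun a => ?_
        simp [dg_apply]
      have h2 : (dg (0 : κ' → K)) = 0 := by
        refine LinearMap.ext fun v => funext fun a => ?_
        simp [dg_apply]
      change (dg (0 : κ → K), _) ∈ 𝓛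
      rw [h1, h2]
      exact 𝓛.zero_mem
    · change (0 : K) = _
      simp
  smul_mem' := by
    rintro a ⟨g, c⟩ ⟨g', h1, h2⟩
    refine ⟨a • g', ?_, ?_⟩
    · have h5 := 𝓛.smul_mem a h1
      rw [Prod.smul_mk, ← dg_smul, ← dg_smul] at h5
      exact h5
    · change c = _ at h2
      change a * c = _
      rw [h2, Pi.smul_apply, smul_eq_mul]
      ring

theorem mem_Wt {𝓛 : Submodule K (Module.End K (κ → K) × Module.End K (κ' → K))} {k : κ'} {s : K}
    {g : κ → K} {c : K} : (g, c) ∈ Wt 𝓛 k s ↔ ∃ g' : κ' → K, (dg g, dg g') ∈ 𝓛 ∧ c = s * g' k := Iff.rfl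

/-- The pairs `(X, X')` such that `(-Xᵀ, X')` is in `𝓛`. -/
noncomputable def Lt (𝓛 : Submodule K (Module.End K (κ → K) × Module.End K (κ' → K))) :
    Submodule K (Module.End K (κ → K) × Module.End K (κ' → K)) :=
  𝓛.comap (LinearMap.prodMap (-(adjE (1 : Matrix κ κ K))) LinearMap.id)

theorem mem_Lt {𝓛 : Submodule K (Module.End K (κ → K) × Module.End K (κ' → K))}
    {X : Module.End K (κ → K)} {X' : Module.End K (κ' → K)} :
    (X, X') ∈ Lt 𝓛 ↔ (-(adjE (1 : Matrix κ κ K) X), X') ∈ 𝓛 := Iff.rfl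

end

end Pool.Agent.H34Z
end

-- from Lib.H34Z.A01
section

/-!
# A01: monomial forms
-/

set_option autoImplicit false
set_option linter.unusedSectionVars false
namespace Pool.Agent.H34Z
open Module Matrix Pool.Agent.H53Toric Pool.Agent.H76P

variable {κ : Type*} [Fintype κ] [DecidableEq κ] {K : Type*} [Field K] [CharZero K] {J : Matrix κ κ K} {π : κ → κ}

/-- PROOF. Fix `i`.  As `J` is invertible its row `i` is not zero, so there is `j` with `J i j ≠ 0`.  If also
`J i j' ≠ 0`, then `d i * d j = c = d i * d j'` (cancel `J i j`, `J i j'` in `hc`), so `d j = d j'` and `j = j'`.  Let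
`π i = j` (choose).  `J (π i) i ≠ 0` by `hs`, so `π (π i) = i` by the uniqueness. -/
theorem mon_of (hs : ∀ i j, J i j ≠ 0 → J j i ≠ 0) (hdet : IsUnit J.det) {d : κ → K}
    (hd : Function.Injective d) (h0 : ∀ k, d k ≠ 0) {c : K}
    (hc : ∀ i j, d i * J i j * d j = c * J i j) : ∃ π, Mon J π := by
  have h1 : ∀ i, ∃ j, J i j ≠ 0 := by
    intro i
    by_contra h
    push Not at h
    exact hdet.ne_zero (Matrix.det_eq_zero_of_row_eq_zero i h)
  have h2 : ∀ i j, J i j ≠ 0 → d i * d j = c := by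
    intro i j hij
    have h3 := hc i j
    have h4 : (d i * d j - c) * J i j = 0 := by linear_combination h3
    rcases mul_eq_zero.1 h4 with h5 | h5
    · exact sub_eq_zero.1 h5
    · exact absurd h5 hij
  have h3 : ∀ i j j', J i j ≠ 0 → J i j' ≠ 0 → j = j' := by
    intro i j j' h4 h5
    exact hd (mul_left_cancel₀ (h0 i) ((h2 i j h4).trans (h2 i j' h5).symm))
  choose π hπ using h1
  refine ⟨π, ⟨fun i => h3 (π i) _ _ (hπ (π i)) (hs _ _ (hπ i)), hπ, fun i j hj => ?_⟩⟩
  by_contra h
  exact hj (h3 i j (π i) h (hπ i))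

/-- PROOF. If `i ≠ π j` then `j ≠ π i` (apply `π`). -/
theorem Mon.col (hm : Mon J π) {i j : κ} (h : i ≠ π j) : J i j = 0 := by
  refine hm.zero i j fun h1 => h ?_
  rw [h1, hm.inv]

/-- PROOF. `dg g = phi (Matrix.diagonal g)` (compare the values); `skew_iff hdet` gives
`adjE J (dg g) = -dg g ↔ (diagonal g)ᵀ * J + J * diagonal g = 0`, i.e. `(g i + g j) * J i j = 0` for all `i`, `j`
(`Matrix.diagonal_mul`, `Matrix.mul_diagonal`).  For `j = π i` this is `g i + g (π i) = 0`, for `j ≠ π i` it is trivial. -/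
theorem dg_skew (hm : Mon J π) (hdet : IsUnit J.det) (g : κ → K) :
    adjE J (dg g) = -dg g ↔ ∀ i, g (π i) = -g i := by
  have h1 : dg g = phi (Matrix.diagonal g) := by
    refine LinearMap.ext fun v => funext fun a => ?_
    rw [dg_apply, phi_apply, Matrix.mulVec_diagonal]
  rw [h1, skew_iff hdet, Matrix.diagonal_transpose]
  have h2 : ∀ i j, (Matrix.diagonal g * J + J * Matrix.diagonal g) i j = (g i + g j) * J i j := by
    intro i j
    rw [Matrix.add_apply, Matrix.diagonal_mul, Matrix.mul_diagonal]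
    ring
  constructor
  · intro h i
    have h3 := h2 i (π i)
    rw [h, Matrix.zero_apply] at h3
    rcases mul_eq_zero.1 h3.symm with h4 | h4
    · linear_combination h4
    · exact absurd h4 (hm.ne i)
  · intro h
    ext i j
    rw [h2, Matrix.zero_apply]
    by_cases hj : j = π i
    · rw [hj, h i, add_neg_cancel, zero_mul]
    · rw [hm.zero i j hj, mul_zero]

/-- PROOF. `J i i = - J i i`, so `J i i = 0 ≠ J i (π i)`. -/
theorem Mon.ne_self (hm : Mon J π) (hJ : Jᵀ = -J) (i : κ) : π i ≠ i := by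
  intro h
  have h1 := congrFun (congrFun hJ i) i
  rw [Matrix.transpose_apply, Matrix.neg_apply] at h1
  have h2 : J i i = 0 := by
    have h3 : (2 : K) * J i i = 0 := by linear_combination h1
    rcases mul_eq_zero.1 h3 with h4 | h4
    · exact absurd h4 two_ne_zero
    · exact h4
  have h3 := hm.ne i
  rw [h] at h3
  exact h3 h2

/-- The block of a similitude.  PROOF. `Matrix.diagonal_mul`, `Matrix.mul_diagonal`: compare entries. -/
theorem diag_sim {d : κ → K} {c : K} (h : Matrix.diagonal d * J * Matrix.diagonal d = c • J) (i j : κ) :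
    d i * J i j * d j = c * J i j := by
  have h1 := congrFun (congrFun h i) j
  rw [Matrix.mul_diagonal, Matrix.diagonal_mul, Matrix.smul_apply, smul_eq_mul] at h1
  exact h1

end Pool.Agent.H34Z
end

-- from Lib.H34V.VD
section

/-!
# VD: definitions for version 5 (any signature)
-/

set_option autoImplicit false
set_option linter.unusedSectionVars false
namespace Pool.Agent.H34V
open Module Matrix Pool.Agent.H53Toric Pool.Agent.H76P Pool.Agent.H34Z

section
variable {κ : Type*} [Fintype κ] [DecidableEq κ] {K : Type*} [Field K]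

/-- The full classical Lie algebras: symplectic, orthogonal (of rank `≥ 6`, not `8`), all operators of trace
zero.  The first two are possible only if `t` is true, the third only if `t` is false. -/
inductive FV (t : Prop) (L : Submodule K (Module.End K (κ → K))) (J : Matrix κ κ K) : Prop
  | s (ht : t) (π : κ → κ) (hJ : Jᵀ = -J) (hdet : IsUnit J.det) (hm : Mon J π)
      (hL : ∀ X, X ∈ L ↔ adjE J X = -X) (h2 : 2 ≤ Fintype.card κ) : FV t L J
  | o (ht : t) (π : κ → κ) (hJ : Jᵀ = J) (hdet : IsUnit J.det) (hm : Mon J π) (hne : ∀ i, π i ≠ i)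
      (hL : ∀ X, X ∈ L ↔ adjE J X = -X) (h6 : 6 ≤ Fintype.card κ) (h8 : Fintype.card κ ≠ 8) : FV t L J
  | n (ht : ¬ t) (hL : ∀ X, X ∈ L ↔ LinearMap.trace K (κ → K) X = 0) (h2 : 2 ≤ Fintype.card κ) : FV t L J

end

section
variable {κ κ' : Type*} [Fintype κ] [DecidableEq κ] [Fintype κ'] [DecidableEq κ'] {K : Type*} [Field K]

/-- As `H34Z.Gr`, without the involutions. -/
structure Gz (𝓛 : Submodule K (Module.End K (κ → K) × Module.End K (κ' → K)))
    (L : Submodule K (Module.End K (κ → K))) (L' : Submodule K (Module.End K (κ' → K)))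
    (d : κ → K) (d' : κ' → K) : Prop where
  lie : ∀ p ∈ 𝓛, ∀ q ∈ 𝓛, (p.1 * q.1 - q.1 * p.1, p.2 * q.2 - q.2 * p.2) ∈ 𝓛
  fst : ∀ X, X ∈ L ↔ ∃ X', (X, X') ∈ 𝓛
  snd : ∀ X', X' ∈ L' ↔ ∃ X, (X, X') ∈ 𝓛
  left : ∀ X, (X, (0 : Module.End K (κ' → K))) ∈ 𝓛 → X = 0
  right : ∀ X', ((0 : Module.End K (κ → K)), X') ∈ 𝓛 → X' = 0
  inj : Function.Injective d
  inj' : Function.Injective d'
  ne : ∀ k, d k ≠ 0
  ne' : ∀ k, d' k ≠ 0
  cnj : ∀ X X', (X, X') ∈ 𝓛 → (dg d * X * dg (fun k => (d k)⁻¹), dg d' * X' * dg (fun k => (d' k)⁻¹)) ∈ 𝓛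

/-- The Lie algebra with the two factors exchanged. -/
def sw (𝓛 : Submodule K (Module.End K (κ → K) × Module.End K (κ' → K))) :
    Submodule K (Module.End K (κ' → K) × Module.End K (κ → K)) :=
  𝓛.comap (LinearEquiv.prodComm K (Module.End K (κ' → K)) (Module.End K (κ → K))).toLinearMap

theorem mem_sw {𝓛 : Submodule K (Module.End K (κ → K) × Module.End K (κ' → K))}
    {X : Module.End K (κ → K)} {X' : Module.End K (κ' → K)} : (X', X) ∈ sw 𝓛 ↔ (X, X') ∈ 𝓛 := Iff.rfl

theorem Gz.symm {𝓛 : Submodule K (Module.End K (κ → K) × Module.End K (κ' → K))}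
    {L : Submodule K (Module.End K (κ → K))} {L' : Submodule K (Module.End K (κ' → K))}
    {d : κ → K} {d' : κ' → K} (h : Gz 𝓛 L L' d d') : Gz (sw 𝓛) L' L d' d where
  lie := fun p hp q hq => h.lie (p.2, p.1) hp (q.2, q.1) hq
  fst := h.snd
  snd := h.fst
  left := h.right
  right := h.left
  inj := h.inj'
  inj' := h.inj
  ne := h.ne'
  ne' := h.ne
  cnj := fun X X' hX => h.cnj X' X hX

end

end Pool.Agent.H34V
end

-- from Lib.H34Z.A11
section

/-!
# A11: an intertwiner from coinciding weights; the transposed pair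
-/

set_option autoImplicit false
set_option linter.unusedSectionVars false
namespace Pool.Agent.H34Z
open Module Matrix Pool.Agent.H53Toric Pool.Agent.H76P

variable {κ κ' : Type*} [Fintype κ] [DecidableEq κ] [Fintype κ'] [DecidableEq κ'] {K : Type*} [Field K] [CharZero K]
  {𝓛 : Submodule K (Module.End K (κ → K) × Module.End K (κ' → K))}
  {L : Submodule K (Module.End K (κ → K))} {L' : Submodule K (Module.End K (κ' → K))}
  {d ε : κ → K} {d' ε' : κ' → K}

/-- PROOF. Let `f' k = s k * f (idx k)` (rational).  By `hf` and `hidx` the pair `(dq f, dg g')` in `𝓛` has `g' k = (f' k : K)`, i.e.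
`dg g' = dq f'`.  Apply `H25Y.exists_intertwiner` with `M = idx k₀`, `M' = k₀`: `hinj' = hsep`, `hM = hmax`, `hM'`: `f' k ≤ f (idx k₀) = f' k₀` by `hmax'`,
`hmax` of the lemma: `g' k₀ = s k₀ * g (idx k₀) = g (idx k₀)` by `hidx`. -/
theorem iso_pm (hlie : ∀ p ∈ 𝓛, ∀ q ∈ 𝓛, (p.1 * q.1 - q.1 * p.1, p.2 * q.2 - q.2 * p.2) ∈ 𝓛)
    (hirr : ∀ W : Submodule K (κ → K), (∀ p ∈ 𝓛, ∀ w ∈ W, p.1 w ∈ W) → W = ⊥ ∨ W = ⊤)
    (hirr' : ∀ W : Submodule K (κ' → K), (∀ p ∈ 𝓛, ∀ w ∈ W, p.2 w ∈ W) → W = ⊥ ∨ W = ⊤)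
    {idx : κ' → κ} {s : κ' → ℚ} (hidx : ∀ g g', (dg g, dg g') ∈ 𝓛 → ∀ k, g' k = (s k : K) * g (idx k))
    {f : κ → ℚ} (hinj : Function.Injective f)
    (hf : ∃ g' : κ' → K, ((dq f : Module.End K (κ → K)), dg g') ∈ 𝓛)
    {k₀ : κ'} (hs₀ : s k₀ = 1) (hmax : ∀ i, f i ≤ f (idx k₀)) (hmax' : ∀ k, s k * f (idx k) ≤ f (idx k₀))
    (hsep : ∀ k l, s k * f (idx k) = s l * f (idx l) → k = l) :
    ∃ T : (κ → K) →ₗ[K] (κ' → K), Function.Bijective T ∧ ∀ p ∈ 𝓛, ∀ v, T (p.1 v) = p.2 (T v) := by
  obtain ⟨g', hg'⟩ := hf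
  have h1 : (dg g' : Module.End K (κ' → K)) = dq fun k => s k * f (idx k) := by
    unfold dq
    congr 1
    funext k
    rw [hidx _ _ hg' k]
    push_cast
    rfl
  rw [h1] at hg'
  obtain ⟨T, hT1, -, hT2⟩ := H25Y.exists_intertwiner hlie hirr hirr' hg' hinj
    (fun k l hkl => hsep k l hkl) (M := idx k₀) (M' := k₀) hmax
    (fun k => by
      simp only [hs₀, one_mul]
      exact hmax' k)
    (fun g g' hg => by
      rw [hidx g g' hg k₀, hs₀, Rat.cast_one, one_mul])
  exact ⟨T, hT1, hT2⟩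

/-- PROOF. `adjE 1 (phi M) = phi Mᵀ` (`adjE_phi`, `inv_one`).  `adjE 1` is an involution with `adjE 1 (X * Y) = adjE 1 Y * adjE 1 X`, so
`-adjE 1 (X Y - Y X) = [-adjE 1 X, -adjE 1 Y]`. -/
theorem lt_lie (hlie : ∀ p ∈ 𝓛, ∀ q ∈ 𝓛, (p.1 * q.1 - q.1 * p.1, p.2 * q.2 - q.2 * p.2) ∈ 𝓛) :
    ∀ p ∈ Lt 𝓛, ∀ q ∈ Lt 𝓛, (p.1 * q.1 - q.1 * p.1, p.2 * q.2 - q.2 * p.2) ∈ Lt 𝓛 := by
  rintro ⟨p1, p2⟩ hp ⟨q1, q2⟩ hq
  rw [mem_Lt] at hp hq
  have h1 := hlie _ hp _ hq
  have hdet : IsUnit (1 : Matrix κ κ K).det := by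
    rw [det_one]
    exact isUnit_one
  have h2 : -(adjE (1 : Matrix κ κ K) (p1 * q1 - q1 * p1)) =
      -(adjE (1 : Matrix κ κ K) p1) * -(adjE (1 : Matrix κ κ K) q1) -
        -(adjE (1 : Matrix κ κ K) q1) * -(adjE (1 : Matrix κ κ K) p1) := by
    rw [map_sub, adjE_mul hdet, adjE_mul hdet]
    refine LinearMap.ext fun v => ?_
    simp only [LinearMap.neg_apply, LinearMap.sub_apply, Module.End.mul_apply, map_neg, neg_neg,
      neg_sub]
  simp only
  rw [mem_Lt, h2]
  exact h1

theorem adjE_one_one (X : Module.End K (κ → K)) : adjE (1 : Matrix κ κ K) (adjE (1 : Matrix κ κ K) X) = X := by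
  obtain ⟨x, rfl⟩ := (phi (ι := κ) (K := K)).surjective X
  rw [adjE_phi, adjE_phi, inv_one, Matrix.one_mul, Matrix.mul_one, Matrix.one_mul, Matrix.mul_one,
    transpose_transpose]

theorem a11_phi_diag (g : κ → K) : phi (Matrix.diagonal g) = dg g := by
  refine LinearMap.ext fun v => funext fun a => ?_
  rw [phi_apply, Matrix.mulVec_diagonal, dg_apply]

/-- PROOF. `dg g = phi (Matrix.diagonal g)`. -/
theorem adjE_one_dg (g : κ → K) : adjE (1 : Matrix κ κ K) (dg g) = dg g := by
  rw [← a11_phi_diag, adjE_phi, inv_one, Matrix.one_mul, Matrix.mul_one, diagonal_transpose]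

/-- PROOF. `Matrix.trace_transpose`; the trace of `phi M` is `M.trace`. -/
theorem trace_adjE_one (X : Module.End K (κ → K)) :
    LinearMap.trace K (κ → K) (adjE (1 : Matrix κ κ K) X) = LinearMap.trace K (κ → K) X := by
  refine adjE_tr ?_ X
  rw [det_one]
  exact isUnit_one

end Pool.Agent.H34Z
end

-- from Lib.H34Z.R01
section

/-!
# R01: two projections of a Lie algebra (Goursat), induction (Ribet)
-/

set_option autoImplicit false
set_option linter.unusedSectionVars false
namespace Pool.Agent.H34Z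
open Module Matrix Pool.Agent.H53Toric Pool.Agent.H76P
open Pool.Agent.H76T (IsIdeal)

variable {R : Type*} [Ring R] {K : Type*} [Field K] [Algebra K R] {𝔤 : Submodule K R}
  {V W : Type*} [AddCommGroup V] [Module K V] [AddCommGroup W] [Module K W]

/-- PROOF. `I = {X | ∃ A ∈ 𝔤, p A = X ∧ q A = 0}` (a submodule) is an ideal of `L`: for `X = p A`, `Y = p A' ∈ L`: `[Y, X] = p (A' A - A A')`,
`q (A' A - A A') = [q A', 0] = 0`.  So `I = ⊥` or `I = L` (`hs`).  In the same way `I' = {Y | ∃ A ∈ 𝔤, q A = Y ∧ p A = 0}` is `⊥` or `L'`.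
If `I = L`: the first alternative.  Suppose `I = ⊥`.  If `I' = L'`: let `X ∈ L`, `X = p A`; there is `A' ∈ 𝔤` with `q A' = q A`, `p A' = 0`, so
`X = p (A - A')`, `q (A - A') = 0`, `X ∈ I`; so `L = I`: first alternative.  If `I' = ⊥`: `q A = 0` implies `p A ∈ I = ⊥`, and `p A = 0` implies
`q A ∈ I' = ⊥`: the second alternative. -/
theorem dich (hg : ∀ A ∈ 𝔤, ∀ A' ∈ 𝔤, A * A' - A' * A ∈ 𝔤) {p : R →ₗ[K] Module.End K V} {q : R →ₗ[K] Module.End K W}
    (hp : ∀ A ∈ 𝔤, ∀ A' ∈ 𝔤, p (A * A' - A' * A) = p A * p A' - p A' * p A)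
    (hq : ∀ A ∈ 𝔤, ∀ A' ∈ 𝔤, q (A * A' - A' * A) = q A * q A' - q A' * q A)
    {L : Submodule K (Module.End K V)} {L' : Submodule K (Module.End K W)} (hL : 𝔤.map p = L) (hL' : 𝔤.map q = L')
    (hs : ∀ I, IsIdeal L I → I ≠ ⊥ → I = L) (hs' : ∀ I, IsIdeal L' I → I ≠ ⊥ → I = L') :
    (∀ X ∈ L, ∃ A ∈ 𝔤, p A = X ∧ q A = 0) ∨ ∀ A ∈ 𝔤, p A = 0 ↔ q A = 0 := by
  have hI : IsIdeal L ((𝔤 ⊓ LinearMap.ker q).map p) := by
    refine ⟨?_, ?_⟩
    · rw [← hL]
      exact Submodule.map_mono inf_le_left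
    · intro X hX Y hY
      obtain ⟨A, hA, rfl⟩ := Submodule.mem_map.1 hY
      rw [← hL] at hX
      obtain ⟨A', hA', rfl⟩ := Submodule.mem_map.1 hX
      rw [Submodule.mem_inf, LinearMap.mem_ker] at hA
      refine Submodule.mem_map.2 ⟨A' * A - A * A', ?_, hp _ hA' _ hA.1⟩
      rw [Submodule.mem_inf, LinearMap.mem_ker]
      refine ⟨hg _ hA' _ hA.1, ?_⟩
      rw [hq _ hA' _ hA.1, hA.2, mul_zero, zero_mul, sub_zero]
  have hI' : IsIdeal L' ((𝔤 ⊓ LinearMap.ker p).map q) := by
    refine ⟨?_, ?_⟩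
    · rw [← hL']
      exact Submodule.map_mono inf_le_left
    · intro X hX Y hY
      obtain ⟨A, hA, rfl⟩ := Submodule.mem_map.1 hY
      rw [← hL'] at hX
      obtain ⟨A', hA', rfl⟩ := Submodule.mem_map.1 hX
      rw [Submodule.mem_inf, LinearMap.mem_ker] at hA
      refine Submodule.mem_map.2 ⟨A' * A - A * A', ?_, hq _ hA' _ hA.1⟩
      rw [Submodule.mem_inf, LinearMap.mem_ker]
      refine ⟨hg _ hA' _ hA.1, ?_⟩
      rw [hp _ hA' _ hA.1, hA.2, mul_zero, zero_mul, sub_zero]
  by_cases h0 : (𝔤 ⊓ LinearMap.ker q).map p = ⊥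
  · by_cases h0' : (𝔤 ⊓ LinearMap.ker p).map q = ⊥
    · right
      intro A hA
      constructor
      · intro h
        have h1 : q A ∈ (𝔤 ⊓ LinearMap.ker p).map q :=
          Submodule.mem_map_of_mem (Submodule.mem_inf.2 ⟨hA, LinearMap.mem_ker.2 h⟩)
        rw [h0'] at h1
        exact (Submodule.mem_bot K).1 h1
      · intro h
        have h1 : p A ∈ (𝔤 ⊓ LinearMap.ker q).map p :=
          Submodule.mem_map_of_mem (Submodule.mem_inf.2 ⟨hA, LinearMap.mem_ker.2 h⟩)
        rw [h0] at h1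
        exact (Submodule.mem_bot K).1 h1
    · left
      intro X hX
      have h2 := hs' _ hI' h0'
      rw [← hL] at hX
      obtain ⟨A, hA, rfl⟩ := Submodule.mem_map.1 hX
      have h3 : q A ∈ L' := by
        rw [← hL']
        exact Submodule.mem_map_of_mem hA
      rw [← h2] at h3
      obtain ⟨A', hA', h4⟩ := Submodule.mem_map.1 h3
      rw [Submodule.mem_inf, LinearMap.mem_ker] at hA'
      refine ⟨A - A', 𝔤.sub_mem hA hA'.1, ?_, ?_⟩
      · rw [map_sub, hA'.2, sub_zero]
      · rw [map_sub, h4, sub_self]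
  · left
    intro X hX
    rw [← hs _ hI h0] at hX
    obtain ⟨A, hA, rfl⟩ := Submodule.mem_map.1 hX
    rw [Submodule.mem_inf, LinearMap.mem_ker] at hA
    exact ⟨A, hA.1, rfl, hA.2⟩

/-- PROOF. Induction on `T`.  `T = ∅`: `hL`.  `insert c T`: the set of `X` for which the claim holds for `insert c T` is a submodule, so by `hperf` it
suffices to treat `X = Y * Z - Z * Y` with `Y, Z ∈ L` (`Submodule.span_induction`).  Take `A ∈ 𝔤` with `p A = Y`, `q c' A = 0` for `c' ∈ T`, and `A' ∈ 𝔤` with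
`p A' = Z`, `q c A' = 0`.  `A * A' - A' * A` has `p`-image `X`, and its `q c'`-image `[q c' A, q c' A']` is zero for `c' ∈ T` and for `c' = c`. -/
theorem ribet (hg : ∀ A ∈ 𝔤, ∀ A' ∈ 𝔤, A * A' - A' * A ∈ 𝔤) {p : R →ₗ[K] Module.End K V}
    (hp : ∀ A ∈ 𝔤, ∀ A' ∈ 𝔤, p (A * A' - A' * A) = p A * p A' - p A' * p A)
    {C : Type*} [DecidableEq C] {N : C → Type*} [∀ c, AddCommGroup (N c)] [∀ c, Module K (N c)]
    {q : ∀ c, R →ₗ[K] Module.End K (N c)}
    (hq : ∀ c, ∀ A ∈ 𝔤, ∀ A' ∈ 𝔤, q c (A * A' - A' * A) = q c A * q c A' - q c A' * q c A)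
    {L : Submodule K (Module.End K V)} (hL : 𝔤.map p = L)
    (hperf : L = Submodule.span K {Z | ∃ X ∈ L, ∃ Y ∈ L, Z = X * Y - Y * X})
    (T : Finset C) (hT : ∀ c ∈ T, ∀ X ∈ L, ∃ A ∈ 𝔤, p A = X ∧ q c A = 0) :
    ∀ X ∈ L, ∃ A ∈ 𝔤, p A = X ∧ ∀ c ∈ T, q c A = 0 := by
  induction T using Finset.induction_on with
  | empty =>
    intro X hX
    rw [← hL] at hX
    obtain ⟨A, hA, rfl⟩ := Submodule.mem_map.1 hX
    exact ⟨A, hA, rfl, fun c hc => absurd hc (Finset.notMem_empty c)⟩
  | insert c T hc ih =>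
    have ih' := ih fun c' hc' => hT c' (Finset.mem_insert_of_mem hc')
    intro X hX
    rw [hperf] at hX
    refine Submodule.span_induction (p := fun X _ => ∃ A ∈ 𝔤, p A = X ∧ ∀ c' ∈ insert c T, q c' A = 0)
      ?_ ?_ ?_ ?_ hX
    · rintro _ ⟨Y, hY, Z, hZ, rfl⟩
      obtain ⟨A, hA, hAp, hAq⟩ := ih' Y hY
      obtain ⟨A', hA', hAp', hAq'⟩ := hT c (Finset.mem_insert_self c T) Z hZ
      refine ⟨A * A' - A' * A, hg _ hA _ hA', ?_, ?_⟩
      · rw [hp _ hA _ hA', hAp, hAp']
      · intro c' hc'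
        rw [hq c' _ hA _ hA']
        rcases Finset.mem_insert.1 hc' with h | h
        · rw [h, hAq', mul_zero, zero_mul, sub_zero]
        · rw [hAq c' h, mul_zero, zero_mul, sub_zero]
    · exact ⟨0, 𝔤.zero_mem, map_zero p, fun c' _ => map_zero (q c')⟩
    · rintro Y Z _ _ ⟨A, hA, hAp, hAq⟩ ⟨A', hA', hAp', hAq'⟩
      refine ⟨A + A', 𝔤.add_mem hA hA', ?_, ?_⟩
      · rw [map_add, hAp, hAp']
      · intro c' hc'
        rw [map_add, hAq c' hc', hAq' c' hc', add_zero]
    · rintro a Y _ ⟨A, hA, hAp, hAq⟩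
      refine ⟨a • A, 𝔤.smul_mem a hA, ?_, ?_⟩
      · rw [map_smul, hAp]
      · intro c' hc'
        rw [map_smul, hAq c' hc', smul_zero]

end Pool.Agent.H34Z
end

-- from Lib.H34Z.A02
section

/-!
# A02: coroots of the symplectic and the linear Lie algebra
-/

set_option autoImplicit false
set_option linter.unusedSectionVars false
namespace Pool.Agent.H34Z
open Module Matrix Pool.Agent.H53Toric Pool.Agent.H76P

variable {κ : Type*} [Fintype κ] [DecidableEq κ] {K : Type*} [Field K] [CharZero K] {J : Matrix κ κ K} {π : κ → κ}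
  {L : Submodule K (Module.End K (κ → K))} {ε : κ → K}

theorem a02_dg (f : κ → K) : dg f = phi (Matrix.diagonal f) := by
  refine LinearMap.ext fun v => funext fun a => ?_
  rw [phi_apply, dg_apply, Matrix.mulVec_diagonal]

theorem a02_comm (f : κ → K) (i j : κ) : dg f * phi (Matrix.single i j (1 : K)) - phi (Matrix.single i j (1 : K)) * dg f =
    (f i - f j) • phi (Matrix.single i j (1 : K)) := by
  rw [a02_dg, ← map_mul, ← map_mul, ← map_sub, ← map_smul]
  congr 1
  ext a b
  rw [Matrix.sub_apply, Matrix.diagonal_mul, Matrix.mul_diagonal, Matrix.smul_apply, Matrix.single_apply, smul_eq_mul]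
  by_cases h : i = a ∧ j = b
  · rw [if_pos h, h.1, h.2]; ring
  · rw [if_neg h]; ring

theorem a02_trip {i j : κ} (hij : i ≠ j) (h1 : ε i = 1) (h2 : ε j = -1) :
    Trip (phi (Matrix.single i j (1 : K))) (phi (Matrix.single j i (1 : K))) ε (Pi.single i 1 - Pi.single j 1) := by
  refine ⟨?_, ?_, ?_, ?_, ?_⟩
  · rw [a02_comm, h1, h2]; congr 1; norm_num
  · rw [a02_comm, h1, h2]; congr 1; norm_num
  · rw [a02_dg, ← map_mul, ← map_mul, ← map_sub]
    congr 1
    rw [Matrix.single_mul_single_same, Matrix.single_mul_single_same, mul_one]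
    ext a b
    rw [Matrix.sub_apply, Matrix.single_apply, Matrix.single_apply, Matrix.diagonal_apply]
    by_cases hab : a = b
    · subst hab
      simp only [and_self, if_true, Pi.sub_apply, Pi.single_apply, eq_comm]
    · rw [if_neg hab, if_neg (fun h => hab (h.1.symm.trans h.2)), if_neg (fun h => hab (h.1.symm.trans h.2)), sub_zero]
  · rw [a02_comm]
    congr 1
    rw [Pi.sub_apply, Pi.sub_apply, Pi.single_eq_same, Pi.single_eq_same, Pi.single_eq_of_ne hij, Pi.single_eq_of_ne (Ne.symm hij)]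
    norm_num
  · rw [a02_comm]
    congr 1
    rw [Pi.sub_apply, Pi.sub_apply, Pi.single_eq_same, Pi.single_eq_same, Pi.single_eq_of_ne hij, Pi.single_eq_of_ne (Ne.symm hij)]
    norm_num

theorem a02_skew (hJ : Jᵀ = -J) (hdet : IsUnit J.det) (hm : Mon J π) (i : κ) :
    adjE J (phi (Matrix.single i (π i) (1 : K))) = -phi (Matrix.single i (π i) (1 : K)) := by
  rw [skew_iff hdet]
  ext a b
  have hJ' : ∀ x y, J y x = -J x y := fun x y => by
    have := congrFun (congrFun hJ x) y
    rwa [Matrix.transpose_apply, Matrix.neg_apply] at this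
  rw [Matrix.transpose_single, Matrix.add_apply, Matrix.zero_apply]
  by_cases ha : a = π i
  · subst ha
    rw [Matrix.single_mul_apply_same, one_mul]
    by_cases hb : b = π i
    · subst hb
      rw [Matrix.mul_single_apply_same, mul_one, hJ' i (π i)]
      ring
    · rw [Matrix.mul_single_apply_of_ne _ _ _ _ _ hb, hm.zero i b hb, zero_add]
  · rw [Matrix.single_mul_apply_of_ne _ _ _ _ _ ha, zero_add]
    by_cases hb : b = π i
    · subst hb
      rw [Matrix.mul_single_apply_same, mul_one]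
      exact hm.col ha
    · rw [Matrix.mul_single_apply_of_ne _ _ _ _ _ hb]

/-- PROOF. `E = phi (Matrix.single i (π i) 1)`, `F = phi (Matrix.single (π i) i 1)`.  They are skew (`skew_iff hdet`):
`(single i (π i) 1)ᵀ * J` has the only nonzero entry `J i (π i)` at `(π i, π i)` (row `i` of `J` moved to row `π i`, `hm.zero`),
`J * single i (π i) 1` has the only nonzero entry `J (π i) i` at `(π i, π i)` (`hm.col`), and `J (π i) i = -J i (π i)` (`hJ`).
The same for `F` (`i` and `π i` exchanged).  The five relations of `Trip`: write `dg f = phi (Matrix.diagonal f)`, `Matrix.single` products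
(`Matrix.single_mul_single_same`); `[dg f, E] = (f i - f (π i)) • E`, `[dg f, F] = (f (π i) - f i) • F`,
`[E, F] = phi (single i i 1 - single (π i) (π i) 1)`.  (`hm.ne_self` is needed for the value `2` of the coroot on `E`.) -/
theorem cor_s (hJ : Jᵀ = -J) (hdet : IsUnit J.det) (hm : Mon J π) (hL : ∀ X, adjE J X = -X → X ∈ L) {i : κ}
    (h1 : ε i = 1) (h2 : ε (π i) = -1) : Cor L ε (Pi.single i 1 - Pi.single (π i) 1) := by
  refine ⟨_, hL _ (a02_skew hJ hdet hm i), phi (Matrix.single (π i) i (1 : K)), hL _ ?_, a02_trip (Ne.symm (hm.ne_self hJ i)) h1 h2⟩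
  have := a02_skew hJ hdet hm (π i)
  rwa [hm.inv] at this

/-- PROOF. `E = phi (Matrix.single i j 1)`, `F = phi (Matrix.single j i 1)`, both of trace zero; the relations of `Trip` as in
`cor_s` (`i ≠ j` as `1 ≠ -1`). -/
theorem cor_n (hL : ∀ X, LinearMap.trace K (κ → K) X = 0 → X ∈ L) {i j : κ} (h1 : ε i = 1) (h2 : ε j = -1) :
    Cor L ε (Pi.single i 1 - Pi.single j 1) := by
  have hij : i ≠ j := by
    rintro rfl
    rw [h1] at h2
    have h3 : (2 : K) = 0 := by linear_combination h2
    exact two_ne_zero h3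
  have htr : ∀ y : Matrix κ κ K, LinearMap.trace K (κ → K) (phi y) = y.trace := by
    intro y
    exact Matrix.trace_toLin'_eq y
  refine ⟨_, hL (phi (Matrix.single i j (1 : K))) ?_, phi (Matrix.single j i (1 : K)), hL _ ?_, a02_trip hij h1 h2⟩
  · rw [htr, Matrix.trace_single_eq_of_ne i j _ hij]
  · rw [htr, Matrix.trace_single_eq_of_ne j i _ (Ne.symm hij)]

end Pool.Agent.H34Z
end

-- from Lib.H34Z.A06
section

/-!
# A06: weights of the symplectic Lie algebra on which an involution has the value 1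
-/

set_option autoImplicit false
set_option linter.unusedSectionVars false
namespace Pool.Agent.H34Z
open Module Matrix Pool.Agent.H53Toric Pool.Agent.H76P

variable {κ : Type*} [Fintype κ] [DecidableEq κ] {K : Type*} [Field K] [CharZero K] {J : Matrix κ κ K} {π : κ → κ}
  {L : Submodule K (Module.End K (κ → K))} {ε : κ → K} {W : Submodule K ((κ → K) × K)}

/-- A functional is determined by its values.  PROOF. `(g, c) - (g, c') = (0, c - c')`. -/
theorem Fun.eq (hW : Fun L ε W) {g : κ → K} {c c' : K} (h : (g, c) ∈ W) (h' : (g, c') ∈ W) : c = c' := by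
  have h1 := W.sub_mem h h'
  rw [Prod.mk_sub_mk, sub_self] at h1
  exact sub_eq_zero.1 (hW.zero _ h1)

/-- A form-compatible function is a combination of the functions `1_i - 1_(π i)`, `i ∈ T`, for a set `T` of representatives.
PROOF. Evaluate at `k`: if `k ∈ T` then only `i = k` contributes (`π i = k` with `i ∈ T` would give `π k = i ∈ T`); if `k ∉ T` then `π k ∈ T` and only
`i = π k` contributes `-g (π k) = g k`. -/
theorem dec_pi (hinv : ∀ i, π (π i) = i) {T : Finset κ} (hT : ∀ i, i ∈ T ↔ π i ∉ T) {g : κ → K} (hg : ∀ i, g (π i) = -g i) :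
    g = ∑ i ∈ T, g i • (Pi.single i 1 - Pi.single (π i) 1) := by
  funext k
  rw [Finset.sum_apply]
  by_cases hk : k ∈ T
  · rw [Finset.sum_eq_single k]
    · have h1 : k ≠ π k := by
        intro h2
        have h3 := (hT k).1 hk
        rw [← h2] at h3
        exact h3 hk
      rw [Pi.smul_apply, Pi.sub_apply, Pi.single_eq_same, Pi.single_eq_of_ne h1, sub_zero, smul_eq_mul, mul_one]
    · intro i hi hik
      have h1 : k ≠ π i := by
        intro h2
        have h3 := (hT i).1 hi
        rw [← h2] at h3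
        exact h3 hk
      rw [Pi.smul_apply, Pi.sub_apply, Pi.single_eq_of_ne (Ne.symm hik), Pi.single_eq_of_ne h1, sub_zero, smul_zero]
    · intro h
      exact absurd hk h
  · have hk' : π k ∈ T := by
      by_contra h1
      exact hk ((hT k).2 h1)
    rw [Finset.sum_eq_single (π k)]
    · have h1 : k ≠ π k := by
        intro h2
        rw [← h2] at hk'
        exact hk hk'
      rw [Pi.smul_apply, Pi.sub_apply, hinv, Pi.single_eq_same, Pi.single_eq_of_ne h1, zero_sub, hg, smul_eq_mul,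
        neg_mul_neg, mul_one]
    · intro i hi hik
      have h1 : k ≠ i := by
        intro h2
        rw [h2] at hk
        exact hk hi
      have h2 : k ≠ π i := by
        intro h3
        apply hik
        rw [h3, hinv]
      rw [Pi.smul_apply, Pi.sub_apply, Pi.single_eq_of_ne h1, Pi.single_eq_of_ne h2, sub_zero, smul_zero]
    · intro h
      exact absurd hk' h

/-- PROOF. `T = {i | ε i = 1}`; `hT` of `dec_pi` holds since `ε (π i) = -ε i` (`dg_skew`, as `dg ε ∈ L` by `hW.dom`).  For each `i ∈ T` let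
`h i = 1_i - 1_(π i)`; `dg (h i) ∈ L` (`dg_skew`), so there is `lam i` with `(h i, lam i) ∈ W` (`hW.tot`, choose for all `i`), and `lam i ∈ {0, 1}` by
`cor_s` and `hW.cor`.  `ε = ∑ i ∈ T, h i` (`dec_pi`), so `(ε, ∑ lam i) ∈ W` (`Submodule.sum_mem`) and `∑ lam i = 1` (`hW.eps`, `Fun.eq`).
`comb_s` gives `i₀`.  For `(g, c) ∈ W`: `dg g ∈ L`, so `g = ∑ i ∈ T, g i • h i` (`dec_pi`, `dg_skew`), `(g, ∑ g i * lam i) ∈ W`, and
`c = ∑ i ∈ T, g i * lam i = g i₀`. -/
theorem wt_s (hJ : Jᵀ = -J) (hdet : IsUnit J.det) (hm : Mon J π) (hL : ∀ X, X ∈ L ↔ adjE J X = -X)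
    (hε : ∀ k, ε k = 1 ∨ ε k = -1) (hW : Fun L ε W) : ∃ i, ∀ g c, (g, c) ∈ W → c = g i := by
  have hinv := hm.inv
  have hg : ∀ g : κ → K, dg g ∈ L ↔ ∀ i, g (π i) = -g i := fun g => (hL _).trans (dg_skew hm hdet g)
  have hεπ : ∀ i, ε (π i) = -ε i := (hg ε).1 (hW.dom _ _ hW.eps)
  obtain ⟨T, hTd⟩ : ∃ T : Finset κ, ∀ i, i ∈ T ↔ ε i = 1 := by
    classical
    exact ⟨Finset.univ.filter fun i => ε i = 1, fun i => by simp⟩
  have h11 : (1 : K) ≠ -1 := fun h => two_ne_zero (α := K) (by linear_combination h)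
  have hT : ∀ i, i ∈ T ↔ π i ∉ T := by
    intro i
    rw [hTd, hTd, hεπ]
    rcases hε i with h1 | h1
    · rw [h1]
      exact ⟨fun _ h => h11 h.symm, fun _ => rfl⟩
    · rw [h1, neg_neg]
      exact ⟨fun h => absurd h.symm h11, fun h => absurd rfl h⟩
  have hh : ∀ i : κ, dg (Pi.single i 1 - Pi.single (π i) 1 : κ → K) ∈ L := by
    intro i
    rw [hg]
    intro k
    rw [Pi.sub_apply, Pi.sub_apply]
    have e1 : (Pi.single i 1 : κ → K) (π k) = (Pi.single (π i) 1 : κ → K) k := by
      by_cases h1 : π k = i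
      · have h2 : k = π i := by rw [← h1, hinv]
        rw [h1, h2, Pi.single_eq_same, Pi.single_eq_same]
      · have h2 : k ≠ π i := fun h3 => h1 (by rw [h3, hinv])
        rw [Pi.single_eq_of_ne h1, Pi.single_eq_of_ne h2]
    have e2 : (Pi.single (π i) 1 : κ → K) (π k) = (Pi.single i 1 : κ → K) k := by
      by_cases h1 : k = i
      · rw [h1, Pi.single_eq_same, Pi.single_eq_same]
      · have h2 : π k ≠ π i := fun h3 => h1 (by rw [← hinv k, h3, hinv])
        rw [Pi.single_eq_of_ne h1, Pi.single_eq_of_ne h2]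
    rw [e1, e2, neg_sub]
  choose lam hlam using fun i => hW.tot _ (hh i)
  have hsum : ∀ g : κ → K, (∀ i, g (π i) = -g i) → (g, ∑ i ∈ T, g i * lam i) ∈ W := by
    intro g hgi
    have h1 : ∑ i ∈ T, g i • ((Pi.single i 1 - Pi.single (π i) 1 : κ → K), lam i) ∈ W :=
      Submodule.sum_mem _ fun i _ => W.smul_mem _ (hlam i)
    have h2 : ∑ i ∈ T, g i • ((Pi.single i 1 - Pi.single (π i) 1 : κ → K), lam i) =
        (g, ∑ i ∈ T, g i * lam i) := by
      refine Prod.ext ?_ ?_
      · rw [Prod.fst_sum]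
        exact (dec_pi hinv hT hgi).symm
      · rw [Prod.snd_sum]
        rfl
    rwa [h2] at h1
  have hlam1 : ∑ i ∈ T, lam i = 1 := by
    have h1 := hsum ε hεπ
    have h2 : ∑ i ∈ T, ε i * lam i = ∑ i ∈ T, lam i :=
      Finset.sum_congr rfl fun i hi => by rw [(hTd i).1 hi, one_mul]
    rw [h2] at h1
    exact hW.eq h1 hW.eps
  have hlam01 : ∀ i ∈ T, lam i = 0 ∨ lam i = 1 := by
    intro i hi
    have h1 := (hTd i).1 hi
    refine hW.cor _ _ (cor_s hJ hdet hm (fun X hX => (hL X).2 hX) h1 ?_) (hlam i)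
    rw [hεπ, h1]
  obtain ⟨i₀, hi₀, h1, h2⟩ := comb_s hlam01 hlam1
  refine ⟨i₀, fun g c hgc => ?_⟩
  have h3 := hsum g ((hg g).1 (hW.dom _ _ hgc))
  rw [hW.eq hgc h3, Finset.sum_eq_single i₀]
  · rw [h1, mul_one]
  · intro i hi hne
    rw [h2 i hi hne, mul_zero]
  · intro h
    exact absurd hi₀ h

end Pool.Agent.H34Z
end

-- from Lib.H34Z.A03
section

/-!
# A03: coroots of the orthogonal Lie algebra
-/

set_option autoImplicit false
set_option linter.unusedSectionVars false
namespace Pool.Agent.H34Z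
open Module Matrix Pool.Agent.H53Toric Pool.Agent.H76P

variable {κ : Type*} [Fintype κ] [DecidableEq κ] {K : Type*} [Field K] [CharZero K] {J : Matrix κ κ K} {π : κ → κ}
  {L : Submodule K (Module.End K (κ → K))} {ε : κ → K}

theorem a03_dg (g : κ → K) : dg g = phi (Matrix.diagonal g) := by
  refine LinearMap.ext fun v => funext fun a => ?_
  rw [phi_apply, dg_apply, Matrix.mulVec_diagonal]

theorem a03_left (hm : Mon J π) (p i : κ) (c : K) :
    Matrix.single p i c * J = Matrix.single p (π i) (c * J i (π i)) := by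
  ext x y
  by_cases hx : x = p
  · subst hx
    rw [Matrix.single_mul_apply_same]
    by_cases hy : y = π i
    · subst hy
      rw [Matrix.single_apply_same]
    · rw [hm.zero i y hy, mul_zero, Matrix.single_apply_of_ne]
      rintro ⟨-, h⟩
      exact hy h.symm
  · rw [Matrix.single_mul_apply_of_ne _ _ _ _ _ hx, Matrix.single_apply_of_ne]
    rintro ⟨h, -⟩
    exact hx h.symm

theorem a03_right (hm : Mon J π) (hJ : Jᵀ = J) (p q : κ) (c : K) :
    J * Matrix.single p q c = Matrix.single (π p) q (J p (π p) * c) := by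
  have h1 : (J * Matrix.single p q c)ᵀ = (Matrix.single (π p) q (J p (π p) * c))ᵀ := by
    rw [Matrix.transpose_mul, hJ, Matrix.transpose_single, Matrix.transpose_single, a03_left hm,
      mul_comm c]
  exact Matrix.transpose_injective h1

/-- The skew matrix of a pair of indices. -/
def a03_M (J : Matrix κ κ K) (π : κ → κ) (p q : κ) : Matrix κ κ K :=
  Matrix.single p (π q) (J q (π q)) - Matrix.single q (π p) (J p (π p))

theorem a03_skew (hm : Mon J π) (hJ : Jᵀ = J) (p q : κ) :
    (a03_M J π p q)ᵀ * J + J * a03_M J π p q = 0 := by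
  unfold a03_M
  rw [Matrix.transpose_sub, Matrix.transpose_single, Matrix.transpose_single, sub_mul, mul_sub,
    a03_left hm, a03_left hm, a03_right hm hJ, a03_right hm hJ, mul_comm (J p (π p)) (J q (π q))]
  abel

theorem a03_br (f : κ → K) (p q : κ) (c : K) :
    Matrix.diagonal f * Matrix.single p q c - Matrix.single p q c * Matrix.diagonal f
      = (f p - f q) • Matrix.single p q c := by
  ext x y
  rw [Matrix.sub_apply, Matrix.diagonal_mul, Matrix.mul_diagonal, Matrix.smul_apply, smul_eq_mul]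
  by_cases h : p = x ∧ q = y
  · obtain ⟨rfl, rfl⟩ := h
    ring
  · rw [Matrix.single_apply_of_ne _ _ _ _ _ h]
    ring

theorem a03_brM (f : κ → K) (p q : κ) (s : K) (h1 : f p - f (π q) = s) (h2 : f q - f (π p) = s) :
    Matrix.diagonal f * a03_M J π p q - a03_M J π p q * Matrix.diagonal f = s • a03_M J π p q := by
  unfold a03_M
  have h3 := a03_br f p (π q) (J q (π q))
  have h4 := a03_br f q (π p) (J p (π p))
  rw [h1] at h3
  rw [h2] at h4
  rw [smul_sub, ← h3, ← h4, mul_sub, sub_mul]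
  abel

/-- PROOF. Write `i' = π i`, `j' = π j`, `a = J i i' = J i' i`, `b = J j j' = J j' j` (symmetric, not zero).  `i, j, i', j'` are different
(`ε` is `1` on `i, j` and `-1` on `i', j'`, `i ≠ j`, `π` is injective).
`E = phi (b • single i j' 1 - a • single j i' 1)`, `F₀ = phi (b • single i' j 1 - a • single j' i 1)`, `F = -(a * b)⁻¹ • F₀`.
Skew (`skew_iff hdet`): `(single i j' 1)ᵀ * J = single j' i 1 * J` is row `i` of `J` moved to row `j'`, i.e. `a` at `(j', i')`; `J * single i j' 1` is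
column `i` of `J` moved to column `j'`, i.e. `a` at `(i', j')`; `(single j i' 1)ᵀ * J` is `b` at `(i', j')`; `J * single j i' 1` is `b` at `(j', i')`.
So `Eᵀ J + J E` has the entries `b a - a b = 0` at `(j', i')` and `- a b + b a = 0` at `(i', j')`.  `F₀` is the same expression for `i', j'`.
Products: `E F₀ = -a b (single i i 1 + single j j 1)`, `F₀ E = -a b (single i' i' 1 + single j' j' 1)` (all other products of two `single`
vanish), so `[E, F] = single i i 1 + single j j 1 - single i' i' 1 - single j' j' 1`.  `[dg f, single p q 1] = (f p - f q) • single p q 1`. -/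
theorem cor_o (hJ : Jᵀ = J) (hdet : IsUnit J.det) (hm : Mon J π) (hL : ∀ X, adjE J X = -X → X ∈ L) {i j : κ}
    (hij : i ≠ j) (h1 : ε i = 1) (h2 : ε j = 1) (h3 : ε (π i) = -1) (h4 : ε (π j) = -1) :
    Cor L ε (Pi.single i 1 + Pi.single j 1 - Pi.single (π i) 1 - Pi.single (π j) 1) := by
  have h11 : (1 : K) ≠ -1 := by
    intro h
    have h5 : (2 : K) = 0 := by linear_combination h
    exact two_ne_zero h5
  have hii' : i ≠ π i := fun h => h11 (h1.symm.trans ((congrArg ε h).trans h3))
  have hij' : i ≠ π j := fun h => h11 (h1.symm.trans ((congrArg ε h).trans h4))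
  have hji' : j ≠ π i := fun h => h11 (h2.symm.trans ((congrArg ε h).trans h3))
  have hjj' : j ≠ π j := fun h => h11 (h2.symm.trans ((congrArg ε h).trans h4))
  have hi'j' : π i ≠ π j := fun h => hij (by rw [← hm.inv i, h, hm.inv])
  set h : κ → K := Pi.single i 1 + Pi.single j 1 - Pi.single (π i) 1 - Pi.single (π j) 1 with hh
  have hhi : h i = 1 := by
    rw [hh]
    simp [Pi.single_eq_of_ne hij, Pi.single_eq_of_ne hii', Pi.single_eq_of_ne hij']
  have hhj : h j = 1 := by
    rw [hh]
    simp [Pi.single_eq_of_ne hij.symm, Pi.single_eq_of_ne hji', Pi.single_eq_of_ne hjj']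
  have hhi' : h (π i) = -1 := by
    rw [hh]
    simp [Pi.single_eq_of_ne hii'.symm, Pi.single_eq_of_ne hji'.symm, Pi.single_eq_of_ne hi'j']
  have hhj' : h (π j) = -1 := by
    rw [hh]
    simp [Pi.single_eq_of_ne hij'.symm, Pi.single_eq_of_ne hjj'.symm, Pi.single_eq_of_ne hi'j'.symm]
  have ha0 := hm.ne i
  have hb0 := hm.ne j
  have hs1 : J (π i) i = J i (π i) := by
    have := congrFun (congrFun hJ i) (π i)
    rwa [Matrix.transpose_apply] at this
  have hs2 : J (π j) j = J j (π j) := by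
    have := congrFun (congrFun hJ j) (π j)
    rwa [Matrix.transpose_apply] at this
  set a := J i (π i) with ha
  set b := J j (π j) with hb
  have hM1 : a03_M J π i j = Matrix.single i (π j) b - Matrix.single j (π i) a := rfl
  have hM2 : a03_M J π (π i) (π j) = Matrix.single (π i) j b - Matrix.single (π j) i a := by
    unfold a03_M
    rw [hm.inv, hm.inv, hs1, hs2]
  have hab : a * b ≠ 0 := mul_ne_zero ha0 hb0
  have hEF : a03_M J π i j * a03_M J π (π i) (π j)
      = (a * b) • (-(Matrix.single i i 1 + Matrix.single j j 1)) := by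
    rw [hM1, hM2, sub_mul, mul_sub, mul_sub, Matrix.single_mul_single_of_ne _ _ _ _ hi'j'.symm,
      Matrix.single_mul_single_same, Matrix.single_mul_single_same,
      Matrix.single_mul_single_of_ne _ _ _ _ hi'j', smul_neg, smul_add, Matrix.smul_single,
      Matrix.smul_single, smul_eq_mul, mul_one, mul_comm b a]
    abel
  have hFE : a03_M J π (π i) (π j) * a03_M J π i j
      = (a * b) • (-(Matrix.single (π i) (π i) 1 + Matrix.single (π j) (π j) 1)) := by
    rw [hM1, hM2, sub_mul, mul_sub, mul_sub, Matrix.single_mul_single_of_ne _ _ _ _ hij.symm,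
      Matrix.single_mul_single_same, Matrix.single_mul_single_same,
      Matrix.single_mul_single_of_ne _ _ _ _ hij, smul_neg, smul_add, Matrix.smul_single,
      Matrix.smul_single, smul_eq_mul, mul_one, mul_comm b a]
    abel
  have hdiag : Matrix.diagonal h = Matrix.single i i 1 + Matrix.single j j 1
      - Matrix.single (π i) (π i) 1 - Matrix.single (π j) (π j) 1 := by
    rw [hh, ← Matrix.diagonal_single, ← Matrix.diagonal_single, ← Matrix.diagonal_single,
      ← Matrix.diagonal_single, Matrix.diagonal_add, Matrix.diagonal_sub, Matrix.diagonal_sub]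
    rfl
  refine ⟨phi (a03_M J π i j), hL _ ((skew_iff hdet _).mpr (a03_skew hm hJ i j)),
    phi ((-(a * b)⁻¹) • a03_M J π (π i) (π j)), ?_, ?_, ?_, ?_, ?_, ?_⟩
  · apply hL
    rw [skew_iff hdet, Matrix.transpose_smul, smul_mul_assoc, mul_smul_comm, ← smul_add,
      a03_skew hm hJ, smul_zero]
  · rw [a03_dg, ← map_mul, ← map_mul, ← map_sub, a03_brM ε i j 2 (by rw [h1, h4]; norm_num)
      (by rw [h2, h3]; norm_num), map_smul]
  · rw [a03_dg, ← map_mul, ← map_mul, ← map_sub, mul_smul_comm, smul_mul_assoc, ← smul_sub,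
      a03_brM ε (π i) (π j) (-2) (by rw [hm.inv, h2, h3]; norm_num)
      (by rw [hm.inv, h1, h4]; norm_num), smul_comm, map_smul]
  · rw [a03_dg, ← map_mul, ← map_mul, ← map_sub, mul_smul_comm, smul_mul_assoc, ← smul_sub, hEF,
      hFE, ← smul_sub, smul_smul, neg_mul, inv_mul_cancel₀ hab, hdiag]
    congr 1
    rw [_root_.neg_smul, one_smul]
    abel
  · rw [a03_dg, ← map_mul, ← map_mul, ← map_sub, a03_brM h i j 2 (by rw [hhi, hhj']; norm_num)
      (by rw [hhj, hhi']; norm_num), map_smul]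
  · rw [a03_dg, ← map_mul, ← map_mul, ← map_sub, mul_smul_comm, smul_mul_assoc, ← smul_sub,
      a03_brM h (π i) (π j) (-2) (by rw [hm.inv, hhj, hhi']; norm_num)
      (by rw [hm.inv, hhi, hhj']; norm_num), smul_comm, map_smul]

end Pool.Agent.H34Z
end

-- from Lib.H34Z.A04
section

/-!
# A04: the values of a coroot
-/

set_option autoImplicit false
set_option linter.unusedSectionVars false
namespace Pool.Agent.H34Z
open Module Matrix Pool.Agent.H53Toric Pool.Agent.H76P

variable {κ : Type*} [Fintype κ] [DecidableEq κ] {K : Type*} [Field K] [CharZero K] {ε h : κ → K}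
  {E F : Module.End K (κ → K)}

theorem a04_sq (hε : ∀ k, ε k = 1 ∨ ε k = -1) : dg ε * dg ε = (1 : Module.End K (κ → K)) := by
  rw [dg_mul, ← dg_one]
  refine LinearMap.ext fun v => funext fun a => ?_
  rw [dg_apply, dg_apply]
  rcases hε a with h | h <;> simp [h]

theorem a04_single (f : κ → K) (k : κ) : dg f (Pi.single k 1) = f k • (Pi.single k 1 : κ → K) := by
  refine funext fun a => ?_
  rw [dg_apply, Pi.smul_apply, smul_eq_mul]
  by_cases hak : a = k
  · subst hak; rfl
  · rw [Pi.single_eq_of_ne hak]; simp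

theorem a04_neg (s : K) (E : Module.End K (κ → K)) : (-s) • E = -(s • E) := by
  refine LinearMap.ext fun v => ?_
  rw [LinearMap.smul_apply, LinearMap.neg_apply, LinearMap.smul_apply, _root_.neg_smul]

theorem a04_sgn {s : K} (hs : s * s = 1) (hε : ∀ k, ε k = 1 ∨ ε k = -1)
    (he : dg ε * E - E * dg ε = (2 * s) • E) : dg ε * E = s • E ∧ E * dg ε = (-s) • E := by
  have h2 : (2 : K) ≠ 0 := two_ne_zero
  have hD := a04_sq (K := K) hε
  set D := dg ε
  have h1 : D * (D * E - E * D) * D = (2 * s) • (D * E * D) := by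
    rw [he, mul_smul_comm, smul_mul_assoc]
  have h3 : D * (D * E - E * D) * D = E * D - D * E := by
    have : D * (D * E - E * D) * D = (D * D) * E * D - D * E * (D * D) := by
      simp only [mul_sub, sub_mul, mul_assoc]
    rw [this, hD, one_mul, mul_one]
  have h4 : D * E * D = -E := by
    have h5 : (2 * s) • (D * E * D) = (2 * s) • (-E) := by
      rw [← h1, h3, smul_neg, ← he, neg_sub]
    have h6 : (2 * s) ≠ 0 := by
      refine mul_ne_zero h2 ?_
      rintro rfl
      simp at hs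
    exact smul_right_injective _ h6 h5
  have h7 : D * E = -(E * D) := by
    have : D * E = D * E * (D * D) := by rw [hD, mul_one]
    rw [this, show D * E * (D * D) = (D * E * D) * D by simp only [mul_assoc], h4]
    exact neg_mul E D
  have h8 : D * E = s • E := by
    have h9 : (2 : K) • (D * E) = (2 : K) • (s • E) := by
      rw [smul_smul, ← he, two_smul]
      nth_rewrite 2 [h7]
      exact (sub_eq_add_neg _ _).symm
    exact smul_right_injective _ h2 h9
  refine ⟨h8, ?_⟩
  rw [a04_neg, ← h8, h7, neg_neg]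

theorem a04_nil {s : K} (hs : s * s = 1) (hε : ∀ k, ε k = 1 ∨ ε k = -1)
    (he : dg ε * E - E * dg ε = (2 * s) • E) :
    E * E = 0 ∧ ∀ k, ε k = s → E (Pi.single k 1) = 0 := by
  have h2 : (2 : K) ≠ 0 := two_ne_zero
  have hs0 : s ≠ 0 := by
    rintro rfl
    simp at hs
  obtain ⟨h1, h3⟩ := a04_sgn hs hε he
  constructor
  · have h4 : (2 * s) • (E * E) = 0 := by
      have h5 : E * dg ε * E = E * (dg ε * E) := by rw [mul_assoc]
      rw [h1, h3, smul_mul_assoc, mul_smul_comm, a04_neg] at h5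
      have h6 : (2 * s) • (E * E) = s • (E * E) + s • (E * E) := by
        rw [← add_smul]; ring_nf
      rw [h6]
      nth_rewrite 1 [← h5]
      exact neg_add_cancel _
    exact (smul_eq_zero.mp h4).resolve_left (mul_ne_zero h2 hs0)
  · intro k hk
    have h4 : (E * dg ε) (Pi.single k 1) = ((-s) • E) (Pi.single k 1) := by rw [h3]
    rw [Module.End.mul_apply, a04_single, hk, map_smul, LinearMap.smul_apply, _root_.neg_smul] at h4
    have h5 : (2 * s) • E (Pi.single k 1) = 0 := by
      have h6 : (2 * s) • E (Pi.single k 1) = s • E (Pi.single k 1) + s • E (Pi.single k 1) := by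
        rw [← add_smul]; ring_nf
      rw [h6]
      nth_rewrite 1 [h4]
      exact neg_add_cancel _
    exact (smul_eq_zero.mp h5).resolve_left (mul_ne_zero h2 hs0)

/-- PROOF. Entries: by `t.e` the entry `E (Pi.single b 1) a` satisfies `(ε a - ε b) * E (Pi.single b 1) a = 2 * E (Pi.single b 1) a`
(apply both sides to `Pi.single b 1` at `a`; `dg ε (Pi.single b 1) = ε b • Pi.single b 1`), so `E (Pi.single b 1) a ≠ 0` implies `ε a = 1`, `ε b = -1`.
In particular `E (Pi.single b 1) = 0` if `ε b = 1`, and `E v` has support in `{ε = 1}`, so `E * E = 0`.  In the same way `F * F = 0` and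
`F (Pi.single b 1) = 0` if `ε b = -1`.
`t.he` with `dg h = E F - F E`: `(E F - F E) E - E (E F - F E) = 2 E F E` (`E E = 0`), so `E F E = E`; `F E F = F` in the same way from `t.hf`.
If `ε k = 1`: `h k • Pi.single k 1 = dg h (Pi.single k 1) = E (F (Pi.single k 1))` since `E (Pi.single k 1) = 0`; apply `E F` again:
`h k ^ 2 • Pi.single k 1 = E F E F (Pi.single k 1) = E F (Pi.single k 1) = h k • Pi.single k 1`, so `h k ^ 2 = h k`.
If `ε k = -1`: `h k • Pi.single k 1 = -F (E (Pi.single k 1))`, and `(F E)² = F E` gives `(h k) ^ 2 = - h k`. -/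
theorem trip_val (t : Trip E F ε h) (hε : ∀ k, ε k = 1 ∨ ε k = -1) (k : κ) :
    (ε k = 1 → h k = 0 ∨ h k = 1) ∧ (ε k = -1 → h k = 0 ∨ h k = -1) := by
  have h2 : (2 : K) ≠ 0 := two_ne_zero
  obtain ⟨hEE, hE0⟩ := a04_nil (E := E) (s := (1 : K)) (by ring) hε (by rw [mul_one]; exact t.e)
  obtain ⟨hFF, hF0⟩ := a04_nil (E := F) (s := (-1 : K)) (by ring) hε (by
    rw [show (2 : K) * -1 = -2 by ring]; exact t.f)
  have hEFE : E * F * E = E := by
    have h1 := t.he
    rw [← t.co] at h1
    have h3 : (E * F - F * E) * E - E * (E * F - F * E)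
        = (2 : K) • (E * F * E) - F * (E * E) - (E * E) * F := by
      rw [two_smul]; simp only [mul_sub, sub_mul, mul_assoc]; abel
    rw [h3, hEE, mul_zero, zero_mul, sub_zero, sub_zero] at h1
    exact smul_right_injective _ h2 h1
  have hidem : E * F * (E * F) = E * F := by
    rw [← mul_assoc, hEFE]
  have hidem' : F * E * (F * E) = F * E := by
    rw [show F * E * (F * E) = F * (E * F * E) by simp only [mul_assoc], hEFE]
  have hco : dg h (Pi.single k 1) = (E * F - F * E) (Pi.single k 1) := by rw [t.co]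
  rw [a04_single, LinearMap.sub_apply] at hco
  have hne : (Pi.single k 1 : κ → K) ≠ 0 := by
    intro h0
    have := congrFun h0 k
    simp at this
  constructor
  · intro hk
    rw [Module.End.mul_apply F E, hE0 k hk, map_zero, sub_zero] at hco
    have h3 : (E * F * (E * F)) (Pi.single k 1) = (E * F) (Pi.single k 1) := by rw [hidem]
    rw [Module.End.mul_apply, ← hco, map_smul, ← hco, smul_smul] at h3
    have h4 : h k * h k = h k := smul_left_injective K hne h3
    have h5 : h k * (h k - 1) = 0 := by rw [mul_sub, h4, mul_one, sub_self]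
    rcases mul_eq_zero.mp h5 with h6 | h6
    · exact Or.inl h6
    · exact Or.inr (sub_eq_zero.mp h6)
  · intro hk
    rw [Module.End.mul_apply E F, hF0 k hk, map_zero, zero_sub] at hco
    have hco' : (F * E) (Pi.single k 1) = (-(h k)) • (Pi.single k 1 : κ → K) := by
      rw [_root_.neg_smul, hco, neg_neg]
    have h3 : (F * E * (F * E)) (Pi.single k 1) = (F * E) (Pi.single k 1) := by rw [hidem']
    rw [Module.End.mul_apply, hco', map_smul, hco', smul_smul] at h3
    have h4 : -(h k) * -(h k) = -(h k) := smul_left_injective K hne h3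
    have h5 : h k * (h k + 1) = 0 := by linear_combination h4
    rcases mul_eq_zero.mp h5 with h6 | h6
    · exact Or.inl h6
    · exact Or.inr (eq_neg_of_add_eq_zero_left h6)

end Pool.Agent.H34Z
end

-- from Lib.H34Z.A09
section

/-!
# A09: diagonal pairs, the functionals of a pair
-/

set_option autoImplicit false
set_option linter.unusedSectionVars false
namespace Pool.Agent.H34Z
open Module Matrix Pool.Agent.H53Toric Pool.Agent.H76P

variable {κ κ' : Type*} [Fintype κ] [DecidableEq κ] [Fintype κ'] [DecidableEq κ'] {K : Type*} [Field K] [CharZero K]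
  {𝓛 : Submodule K (Module.End K (κ → K) × Module.End K (κ' → K))}
  {L : Submodule K (Module.End K (κ → K))} {L' : Submodule K (Module.End K (κ' → K))}
  {d ε : κ → K} {d' ε' : κ' → K}

theorem a09_cnj {κ : Type*} [Fintype κ] [DecidableEq κ] {K : Type*} [Field K] {d : κ → K} (hne : ∀ k, d k ≠ 0) (g : κ → K) :
    dg d * dg g * dg (fun k => (d k)⁻¹) = dg g := by
  rw [dg_mul, dg_mul]
  congr 1
  funext k
  simp only [Pi.mul_apply]
  rw [mul_comm (d k), mul_assoc, mul_inv_cancel₀ (hne k), mul_one]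

theorem a09_diag {κ : Type*} [Fintype κ] [DecidableEq κ] {K : Type*} [Field K] [CharZero K] {d : κ → K} (hne : ∀ k, d k ≠ 0)
    (hinj : Function.Injective d) {X : Module.End K (κ → K)} (hX : dg d * X * dg (fun k => (d k)⁻¹) = X) :
    ∃ g, X = dg g := by
  refine ⟨fun a => X (Pi.single a 1) a, H25Y.ext_entry fun a b => ?_⟩
  rw [H25Y.dg_single, Pi.smul_apply, smul_eq_mul]
  by_cases hab : a = b
  · subst hab
    rw [Pi.single_eq_same, mul_one]
  · rw [Pi.single_eq_of_ne hab, mul_zero]
    have h1 := congrFun (congrArg (fun T : Module.End K (κ → K) => T (Pi.single b 1)) hX) a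
    simp only [Module.End.mul_apply] at h1
    rw [dg_apply, H25Y.dg_single, map_smul, Pi.smul_apply, smul_eq_mul] at h1
    have h2 : (d a - d b) * X (Pi.single b 1) a = 0 := by
      have h3 : d b * (d a * ((d b)⁻¹ * X (Pi.single b 1) a)) = d b * X (Pi.single b 1) a := by rw [h1]
      have h4 : d b * (d a * ((d b)⁻¹ * X (Pi.single b 1) a)) = d a * X (Pi.single b 1) a := by
        rw [mul_left_comm, mul_inv_cancel_left₀ (hne b)]
      rw [sub_mul, ← h3, h4, sub_self]
    rcases mul_eq_zero.1 h2 with h3 | h3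
    · exact absurd (hinj (sub_eq_zero.1 h3)) hab
    · exact h3

/-- PROOF. By `h.cnj`: `(dg d * dg g * dg d⁻¹, dg d' * X' * dg d'⁻¹) ∈ 𝓛`, and `dg d * dg g * dg d⁻¹ = dg g` (`dg_mul`, `h.ne`).  So
`(0, dg d' * X' * dg d'⁻¹ - X') ∈ 𝓛` and `dg d' * X' * dg d'⁻¹ = X'` (`h.right`).  The entry `(a, b)` of the left side is
`d' a * X' (Pi.single b 1) a * (d' b)⁻¹`, so `X' (Pi.single b 1) a = 0` if `a ≠ b` (`h.inj'`).  So `X' = dg (fun a => X' (Pi.single a 1) a)`
(`H25Y.ext_entry`). -/
theorem Gr.diag (h : Gr 𝓛 L L' d d' ε ε') {g : κ → K} {X' : Module.End K (κ' → K)} (hX : (dg g, X') ∈ 𝓛) :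
    ∃ g', X' = dg g' := by
  have h1 := h.cnj _ _ hX
  rw [a09_cnj h.ne] at h1
  have h3 := 𝓛.sub_mem h1 hX
  rw [Prod.mk_sub_mk, sub_self] at h3
  exact a09_diag h.ne' h.inj' (sub_eq_zero.1 (h.right _ h3))

/-- PROOF. As `Gr.diag`, with the roles exchanged (`h.left`, `h.inj`). -/
theorem Gr.diag' (h : Gr 𝓛 L L' d d' ε ε') {g' : κ' → K} {X : Module.End K (κ → K)} (hX : (X, dg g') ∈ 𝓛) :
    ∃ g, X = dg g := by
  have h1 := h.cnj _ _ hX
  rw [a09_cnj h.ne'] at h1
  have h3 := 𝓛.sub_mem h1 hX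
  rw [Prod.mk_sub_mk, sub_self] at h3
  exact a09_diag h.ne h.inj (sub_eq_zero.1 (h.left _ h3))

/-- PROOF. `zero`: `(dg 0, dg g') ∈ 𝓛` gives `dg g' = 0` (`h.right`, `dg 0 = 0`), so `g' k = 0` (apply to `Pi.single k 1`).
`tot`: `h.fst`, `h.diag`.  `dom`: `h.fst`.  `eps`: `g' = ε'`, `ε' k * ε' k = 1` (`h.val'`).
`cor`: `Cor L ε g` gives `E, F ∈ L` with `Trip E F ε g`; `(E, E'), (F, F') ∈ 𝓛` (`h.fst`); `([E, F], [E', F']) ∈ 𝓛` (`h.lie`), `[E, F] = dg g`, so
`[E', F'] = dg g'` for the `g'` of `(g, c) ∈ Wt 𝓛 k (ε' k)` (the difference of the pairs is `(0, _)`, `h.right`).  In the same way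
`[dg ε', E'] = 2 E'`, `[dg ε', F'] = -2 F'`, `[dg g', E'] = 2 E'`, `[dg g', F'] = -2 F'` (`h.eps`, `h.lie`, `h.right`).  So `Trip E' F' ε' g'` and
`trip_val` with `h.val'`: `ε' k * g' k ∈ {0, 1}`. -/
theorem Gr.fun (h : Gr 𝓛 L L' d d' ε ε') (k : κ') : Fun L ε (Wt 𝓛 k (ε' k)) := by
  have dg0 : dg (0 : κ → K) = 0 := by
    refine LinearMap.ext fun v => funext fun a => ?_
    rw [dg_apply, Pi.zero_apply, zero_mul, LinearMap.zero_apply, Pi.zero_apply]
  have uniq : ∀ X X' Y', (X, X') ∈ 𝓛 → (X, Y') ∈ 𝓛 → X' = Y' := by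
    intro X X' Y' h1 h2
    have h3 := 𝓛.sub_mem h1 h2
    rw [Prod.mk_sub_mk, sub_self] at h3
    exact sub_eq_zero.1 (h.right _ h3)
  refine ⟨?_, ?_, ?_, ?_, ?_⟩
  · rintro c ⟨g', h1, h2⟩
    change (dg (0 : κ → K), dg g') ∈ 𝓛 at h1
    change c = ε' k * g' k at h2
    rw [dg0] at h1
    have h3 := h.right _ h1
    have h4 : g' k = 0 := by
      have h5 := congrFun (congrArg (fun T : Module.End K (κ' → K) => T (Pi.single k 1)) h3) k
      simp only [dg_apply, LinearMap.zero_apply, Pi.zero_apply, Pi.single_eq_same, mul_one] at h5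
      exact h5
    rw [h2, h4, mul_zero]
  · intro g hg
    obtain ⟨X', hX'⟩ := (h.fst _).1 hg
    obtain ⟨g', rfl⟩ := h.diag hX'
    exact ⟨_, g', hX', rfl⟩
  · rintro g c ⟨g', h1, h2⟩
    exact (h.fst _).2 ⟨_, h1⟩
  · rintro g c ⟨E, hE, F, hF, t⟩ ⟨g', h1, h2⟩
    change (dg g, dg g') ∈ 𝓛 at h1
    change c = ε' k * g' k at h2
    obtain ⟨E', hE'⟩ := (h.fst _).1 hE
    obtain ⟨F', hF'⟩ := (h.fst _).1 hF
    have t' : Trip E' F' ε' g' := by
      constructor
      · have h3 := h.lie _ h.eps _ hE'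
        simp only at h3
        rw [t.e] at h3
        have h4 := 𝓛.smul_mem (2 : K) hE'
        rw [Prod.smul_mk] at h4
        exact uniq _ _ _ h3 h4
      · have h3 := h.lie _ h.eps _ hF'
        simp only at h3
        rw [t.f] at h3
        have h4 := 𝓛.smul_mem (-2 : K) hF'
        rw [Prod.smul_mk] at h4
        exact uniq _ _ _ h3 h4
      · have h3 := h.lie _ hE' _ hF'
        simp only at h3
        rw [t.co] at h3
        exact uniq _ _ _ h3 h1
      · have h3 := h.lie _ h1 _ hE'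
        simp only at h3
        rw [t.he] at h3
        have h4 := 𝓛.smul_mem (2 : K) hE'
        rw [Prod.smul_mk] at h4
        exact uniq _ _ _ h3 h4
      · have h3 := h.lie _ h1 _ hF'
        simp only at h3
        rw [t.hf] at h3
        have h4 := 𝓛.smul_mem (-2 : K) hF'
        rw [Prod.smul_mk] at h4
        exact uniq _ _ _ h3 h4
    obtain ⟨h5, h6⟩ := trip_val t' h.val' k
    rw [h2]
    rcases h.val' k with h7 | h7
    · rw [h7, one_mul]
      exact h5 h7
    · rw [h7]
      rcases h6 h7 with h8 | h8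
      · left
        rw [h8, mul_zero]
      · right
        rw [h8]
        ring
  · refine ⟨ε', h.eps, ?_⟩
    change (1 : K) = ε' k * ε' k
    rcases h.val' k with h7 | h7 <;> rw [h7] <;> ring

end Pool.Agent.H34Z
end

-- from Lib.H86E.Eight
section

/-!
# H86E: dimension eight

`κ` has eight elements.  If `P` is the projection onto one of the minimal ideals `I j`, then `P` is an atom of the configuration.
-/

set_option autoImplicit false
set_option linter.unusedSectionVars false
namespace Pool.Agent.Lib.H86E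
open Module Matrix Pool.Agent.H53Toric Pool.Agent.H76P
open Pool.Agent.H76T (IsIdeal Fam)
open Pool.Agent.H76V (Cmp alg calg mem_alg mem_calg)

variable {κ : Type*} {K : Type*} [Field K] [CharZero K] [Fintype κ] [DecidableEq κ]
  {L : Submodule K (Module.End K (κ → K))} {J : Matrix κ κ K}

/-- A splitting which is not zero sees one of the involutions. -/
theorem exists_eps (hs : Spans (pt L)) {r : Module.End ℚ (Module.Dual ℚ (Yo L))} (hr : Spl (pt L) r)
    (h0 : r ≠ 0) : ∃ (ε : κ → ℚ) (hε : ε ∈ Hs L), ∀ u : Module.Dual ℚ (Yo L),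
      r u ⟨ε, Submodule.subset_span hε⟩ = u ⟨ε, Submodule.subset_span hε⟩ := by
  have h1 : ∃ u, r u ≠ 0 := by
    by_contra h2
    push Not at h2
    exact h0 (LinearMap.ext h2)
  obtain ⟨u, hu⟩ := h1
  have h2 : ∃ (ε : κ → ℚ) (hε : ε ∈ Hs L), r u ⟨ε, Submodule.subset_span hε⟩ ≠ 0 := by
    by_contra h3
    push Not at h3
    apply hu
    refine LinearMap.ext fun f => ?_
    obtain ⟨f, hf⟩ := f
    rw [LinearMap.zero_apply]
    have key : ∀ (f : κ → ℚ) (hf : f ∈ Submodule.span ℚ (Hs L)), r u ⟨f, hf⟩ = 0 := by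
      intro f hf
      induction hf using Submodule.span_induction with
      | mem ε hε => exact h3 ε hε
      | zero => exact map_zero (r u)
      | add a b ha hb ha' hb' =>
        have e : (⟨a + b, Submodule.add_mem _ ha hb⟩ : Yo L) = ⟨a, ha⟩ + ⟨b, hb⟩ := rfl
        exact (congrArg (r u) e).trans (by rw [map_add, ha', hb', add_zero])
      | smul c a ha ha' =>
        have e : (⟨c • a, Submodule.smul_mem _ c ha⟩ : Yo L) = c • ⟨a, ha⟩ := rfl
        exact (congrArg (r u) e).trans (by rw [map_smul, ha', smul_zero])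
    exact key f hf
  obtain ⟨ε, hε, h3⟩ := h2
  refine ⟨ε, hε, ?_⟩
  rcases two_values hs hr
    (ε := Module.Dual.eval ℚ (Yo L) ⟨ε, Submodule.subset_span hε⟩) (e := ε)
    (fun a b => rfl) hε.1 with h4 | h4
  · exact h4
  · exact absurd (h4 u) h3

/-- The exchange map of a splitting. -/
theorem exists_exch (hinj : Function.Injective (pt L)) {q : Module.End ℚ (Module.Dual ℚ (Yo L))} (hq : Spl (pt L) q) :
    ∃ c : κ → κ → κ, (∀ a b, pt L (c a b) = pt L a + q (pt L b - pt L a)) ∧ ∀ a b, c (c a b) (c b a) = a := by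
  choose c hc using hq.2
  refine ⟨c, hc, fun a b => hinj ?_⟩
  have hqq : ∀ u, q (q u) = q u := fun u => by
    have h1 : (q * q) u = q u := by rw [hq.1]
    exact h1
  rw [hc, hc, hc]
  simp only [map_add, map_sub, hqq]
  abel

/-- Sums over the exchanged pairs. -/
theorem sum_exch {c : κ → κ → κ} (hc : ∀ a b, c (c a b) (c b a) = a) (F : κ → ℚ) :
    ∑ a, ∑ b, F (c a b) = Fintype.card κ * ∑ a, F a := by
  have h1 : ∑ x : κ × κ, F (c x.1 x.2) = ∑ x : κ × κ, F x.1 := by
    refine Fintype.sum_bijective (fun x : κ × κ => (c x.1 x.2, c x.2 x.1)) ?_ _ _ fun x => rfl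
    refine Function.Involutive.bijective fun x => ?_
    exact Prod.ext (hc _ _) (hc _ _)
  rw [Fintype.sum_prod_type, Fintype.sum_prod_type] at h1
  rw [h1, Finset.mul_sum]
  refine Finset.sum_congr rfl fun a _ => ?_
  show ∑ _y : κ, F a = _
  rw [Finset.sum_const, Finset.card_univ, nsmul_eq_mul]

/-- The orthogonality of the two involutions. -/
theorem sum_mul_eq_zero [Nonempty κ] {c : κ → κ → κ} (hc : ∀ a b, c (c a b) (c b a) = a) {ε ε' : κ → ℚ}
    (h1 : ∀ a b, ε (c a b) = ε b) (h2 : ∀ a b, ε' (c a b) = ε' a) (h0 : ∑ a, ε a = 0) :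
    ∑ a, ε a * ε' a = 0 := by
  have h3 := sum_exch hc fun a => ε a * ε' a
  have h4 : ∑ a, ∑ b, ε (c a b) * ε' (c a b) = 0 := by
    refine Finset.sum_eq_zero fun a _ => ?_
    simp only [h1, h2]
    rw [← Finset.sum_mul, h0, zero_mul]
  rw [h4] at h3
  have h5 : (Fintype.card κ : ℚ) ≠ 0 := by
    exact_mod_cast Fintype.card_ne_zero
  exact (mul_eq_zero.1 h3.symm).resolve_left h5

/-- The number of points where two orthogonal involutions have given signs. -/
theorem card_signs (h8 : Fintype.card κ = 8) {ε ε' : κ → ℚ} (hε : ∀ a, ε a = 1 ∨ ε a = -1)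
    (hε' : ∀ a, ε' a = 1 ∨ ε' a = -1) (h1 : ∑ a, ε a = 0) (h2 : ∑ a, ε' a = 0)
    (h3 : ∑ a, ε a * ε' a = 0) {s t : ℚ} (hs : s = 1 ∨ s = -1) (ht : t = 1 ∨ t = -1) :
    (Finset.univ.filter fun a => ε a = s ∧ ε' a = t).card = 2 := by
  have h4 : ∑ a, (1 + s * ε a) * (1 + t * ε' a) = 8 := by
    have e : ∀ a, (1 + s * ε a) * (1 + t * ε' a) = 1 + s * ε a + t * ε' a + s * t * (ε a * ε' a) := fun a => by ring
    simp only [e]
    rw [Finset.sum_add_distrib, Finset.sum_add_distrib, Finset.sum_add_distrib, ← Finset.mul_sum, ← Finset.mul_sum,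
      ← Finset.mul_sum, h1, h2, h3, Finset.sum_const, Finset.card_univ, h8]
    norm_num
  have h5 : ∑ a, (1 + s * ε a) * (1 + t * ε' a) = ∑ a, if ε a = s ∧ ε' a = t then (4 : ℚ) else 0 := by
    refine Finset.sum_congr rfl fun a _ => ?_
    rcases hε a with h | h <;> rcases hε' a with h' | h' <;> rcases hs with rfl | rfl <;> rcases ht with rfl | rfl <;>
      rw [h, h'] <;> norm_num
  rw [h5, ← Finset.sum_filter, Finset.sum_const, nsmul_eq_mul] at h4
  have h6 : ((Finset.univ.filter fun a => ε a = s ∧ ε' a = t).card : ℚ) = 2 := by linarith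
  exact_mod_cast h6

/-- The rank of an operator is at most the number of basis vectors which it does not kill. -/
theorem rank_le_card (X : Module.End K (κ → K)) (s : Finset κ) (h : ∀ c ∉ s, X (Pi.single c 1) = 0) :
    finrank K (LinearMap.range X) ≤ s.card := by
  classical
  have h1 : LinearMap.range X ≤ Submodule.span K (Set.range fun c : s => X (Pi.single (c : κ) 1)) := by
    rintro _ ⟨v, rfl⟩
    have h2 : v = ∑ c, v c • Pi.single c (1 : K) := by
      ext a
      rw [Finset.sum_apply, Finset.sum_eq_single a]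
      · simp
      · intro b _ hb
        simp [Pi.single_eq_of_ne hb.symm]
      · simp
    rw [h2, map_sum]
    refine Submodule.sum_mem _ fun c _ => ?_
    rw [map_smul]
    by_cases hc : c ∈ s
    · exact Submodule.smul_mem _ _ (Submodule.subset_span ⟨⟨c, hc⟩, rfl⟩)
    · rw [h c hc, smul_zero]
      exact Submodule.zero_mem _
  refine (Submodule.finrank_mono h1).trans ((finrank_range_le_card _).trans ?_)
  rw [Fintype.card_coe]

/-- signs -/
theorem sg {x d a b : ℚ} (hx : x = 1 ∨ x = -1) (hd : d = 1 ∨ d = -1) (ha : a = 1 ∨ a = -1) (hb : b = 1 ∨ b = -1)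
    (h : x - d = a - b) (hab : a ≠ b) : d = b := by
  rcases hx with rfl | rfl <;> rcases hd with rfl | rfl <;> rcases ha with rfl | rfl <;> rcases hb with rfl | rfl <;>
    first | rfl | exact absurd rfl hab | (exfalso; norm_num at h)

variable [IsAlgClosed K] [Nonempty κ]

theorem dq_phi (f : κ → ℚ) : (dq f : Module.End K (κ → K)) = phi (Matrix.diagonal fun a => (f a : K)) := by
  refine LinearMap.ext fun v => funext fun a => ?_
  rw [dq, dg_apply]
  show _ = (Matrix.mulVec (Matrix.diagonal fun a => (f a : K)) v) a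
  rw [Matrix.mulVec_diagonal]

/-- The form pairs opposite points. -/
theorem opp (h : Cmp L J) {f : κ → ℚ} (hf : f ∈ Yo L) {x y : κ} (hxy : J x y ≠ 0) : f y = - f x := by
  classical
  have h3 := h.skew _ (Yo_mem hf)
  rw [dq_phi, skew_iff h.Jd, Matrix.diagonal_transpose] at h3
  have h4 := congrFun (congrFun h3 x) y
  rw [Matrix.add_apply, Matrix.diagonal_mul, Matrix.mul_diagonal, Matrix.zero_apply] at h4
  have h5 : ((f x : K) + (f y : K)) * J x y = 0 := by linear_combination h4
  have h6 := (mul_eq_zero.1 h5).resolve_right hxy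
  have h7 : f x + f y = 0 := by exact_mod_cast h6
  linarith

/-- If the form pairs opposite points only, the odd functions are skew. -/
theorem skew_of_opp (h : Cmp L J) {f : κ → ℚ} (hf : ∀ x y, J x y ≠ 0 → f y = - f x) :
    adjE J (dq f) = - (dq f : Module.End K (κ → K)) := by
  classical
  rw [dq_phi, skew_iff h.Jd, Matrix.diagonal_transpose]
  ext x y
  rw [Matrix.add_apply, Matrix.diagonal_mul, Matrix.mul_diagonal, Matrix.zero_apply]
  by_cases hxy : J x y = 0
  · rw [hxy, mul_zero, zero_mul, add_zero]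
  · rw [hf x y hxy]
    push_cast
    ring

/-- The full Lie algebra has an indecomposable configuration. -/
theorem full_contra (h : Cmp L J) (diag : ∀ f : κ → ℚ, dq f ∈ L → f ∈ Yo L) (hinj : Function.Injective (pt L))
    (hfull : ∀ X : Module.End K (κ → K), adjE J X = -X → X ∈ L)
    {q : Module.End ℚ (Module.Dual ℚ (Yo L))} (hq : Spl (pt L) q) {a b b' : κ} (hbb : b ≠ b')
    (h1 : q (pt L b - pt L a) ≠ 0) (h2 : q (pt L b - pt L a) ≠ pt L b - pt L a)
    (h1' : q (pt L b' - pt L a) ≠ 0) (h2' : q (pt L b' - pt L a) ≠ pt L b' - pt L a) : False := by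
  classical
  obtain ⟨ab, hab⟩ : ∃ ab, J a ab ≠ 0 := by
    by_contra hcon
    push Not at hcon
    have h3 : J.det = 0 := Matrix.det_eq_zero_of_row_eq_zero a hcon
    have h4 := h.Jd
    rw [h3] at h4
    exact not_isUnit_zero h4
  have uniq : ∀ x y y', J x y ≠ 0 → J x y' ≠ 0 → y = y' := by
    intro x y y' hy hy'
    refine hinj (LinearMap.ext fun f => ?_)
    rw [pt_apply, pt_apply, opp h f.2 hy, opp h f.2 hy']
  have anti : ∀ x y, J y x = - J x y := fun x y => by
    have h3 := congrFun (congrFun h.Jt x) y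
    rw [Matrix.transpose_apply, Matrix.neg_apply] at h3
    exact h3
  have hba : J ab a ≠ 0 := by
    rw [anti a ab]
    exact neg_ne_zero.2 hab
  have hne : a ≠ ab := by
    intro h3
    rw [← h3] at hab
    have h4 := anti a a
    have h5 : (2 : K) * J a a = 0 := by linear_combination h4
    exact hab ((mul_eq_zero.1 h5).resolve_left two_ne_zero)
  set f : κ → ℚ := fun x => if x = a then 1 else if x = ab then -1 else 0 with hf
  have fa : f a = 1 := by simp [hf]
  have fab : f ab = -1 := by simp [hf, hne.symm]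
  have f0 : ∀ x, x ≠ a → x ≠ ab → f x = 0 := fun x hx hx' => by simp [hf, hx, hx']
  have fodd : ∀ x y, J x y ≠ 0 → f y = - f x := by
    intro x y hxy
    by_cases hx : x = a
    · subst hx
      rw [uniq x y ab hxy hab, fab, fa]
    · by_cases hx' : x = ab
      · subst hx'
        rw [uniq x y a hxy hba, fa, fab, neg_neg]
      · have hyx : J y x ≠ 0 := by
          rw [anti x y]
          exact neg_ne_zero.2 hxy
        have hy : y ≠ a := by
          rintro rfl
          exact hx' (uniq y x ab hyx hab)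
        have hy' : y ≠ ab := by
          rintro rfl
          exact hx (uniq y x a hyx hba)
        rw [f0 x hx hx', f0 y hy hy', neg_zero]
  have fY : f ∈ Yo L := diag f (hfull _ (skew_of_opp h fodd))
  obtain ⟨c, hc, -⟩ := exists_exch hinj hq
  have key : ∀ b, b ≠ ab → q (pt L b - pt L a) ≠ 0 → q (pt L b - pt L a) ≠ pt L b - pt L a → False := by
    intro b hb h3 h4
    have hba' : b ≠ a := by
      rintro rfl
      rw [sub_self, map_zero] at h3
      exact h3 rfl
    have h5 : pt L (c a b) + pt L (c b a) = pt L a + pt L b := by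
      rw [hc, hc, map_sub, map_sub]
      abel
    have h6 := congrArg (fun u : Module.Dual ℚ (Yo L) => u ⟨f, fY⟩) h5
    simp only [LinearMap.add_apply, pt_apply] at h6
    rw [fa, f0 b hba' hb, add_zero] at h6
    have h7 : c a b = a ∨ c b a = a := by
      by_contra hcon
      push Not at hcon
      have h8 : ∀ x, x ≠ a → f x ≤ 0 := by
        intro x hx
        by_cases hx' : x = ab
        · rw [hx', fab]
          norm_num
        · rw [f0 x hx hx']
      have h9 := h8 _ hcon.1
      have h10 := h8 _ hcon.2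
      linarith
    rcases h7 with h8 | h8
    · have h9 := hc a b
      rw [h8] at h9
      exact h3 (add_eq_left.1 h9.symm)
    · have h9 := hc b a
      rw [h8] at h9
      apply h4
      have h10 : q (pt L a - pt L b) = - q (pt L b - pt L a) := by rw [← map_neg, neg_sub]
      rw [h10] at h9
      have h11 : pt L b - pt L a = pt L b - (pt L b + - q (pt L b - pt L a)) := by rw [← h9]
      rw [sub_add_eq_sub_sub, sub_self, zero_sub, neg_neg] at h11
      exact h11.symm
  by_cases hb : b = ab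
  · exact key b' (fun h3 => hbb (hb.trans h3.symm)) h1' h2'
  · exact key b hb h1 h2

/-- **Dimension eight.** -/
theorem eight_atom (h : Cmp L J) (diag : ∀ f : κ → ℚ, dq f ∈ L → f ∈ Yo L) (hinj : Function.Injective (pt L))
    {m : ℕ} {I : Fin m → Submodule K (Module.End K (κ → K))} (hF : Fam L I) {j : Fin m} {P : Module.End ℚ (Yo L)}
    (hP1 : ∀ f, dq (P f : κ → ℚ) ∈ I j) (hPS : Spl (pt L) P.dualMap) (h8 : Fintype.card κ = 8)
    {q : Module.End ℚ (Module.Dual ℚ (Yo L))} (hq : Spl (pt L) q) (hq0 : q ≠ 0) (hqP : q * P.dualMap = q) :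
    q = P.dualMap := by
  classical
  by_contra hne
  have hs : Spans (pt L) := pt_spans h
  have hcomm := Spl.comm hs hq hPS
  have hπq : ∀ u, P.dualMap (q u) = q u := fun u => by
    have h1 : (P.dualMap * q) u = q u := by rw [← hcomm, hqP]
    exact h1
  have hqπ : ∀ u, q (P.dualMap u) = q u := fun u => by
    have h1 : (q * P.dualMap) u = q u := by rw [hqP]
    exact h1
  have hqq : ∀ u, q (q u) = q u := fun u => by
    have h1 : (q * q) u = q u := by rw [hq.1]
    exact h1
  have hππ : ∀ u, P.dualMap (P.dualMap u) = P.dualMap u := fun u => by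
    have h1 : (P.dualMap * P.dualMap) u = P.dualMap u := by rw [hPS.1]
    exact h1
  -- the complement of `q` in the ideal
  obtain ⟨r, hr⟩ : ∃ r, r = P.dualMap * (1 - q) := ⟨_, rfl⟩
  have hrS : Spl (pt L) r := hr ▸ Spl.mul hs hPS hq.compl
  have hru : ∀ u, r u = P.dualMap u - q u := fun u => by
    rw [hr]
    show P.dualMap (u - q u) = _
    rw [map_sub, hπq]
  have hr0 : r ≠ 0 := by
    intro h0
    apply hne
    refine LinearMap.ext fun u => ?_
    have h1 := hru u
    rw [h0, LinearMap.zero_apply] at h1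
    exact (sub_eq_zero.1 h1.symm).symm
  obtain ⟨ε, hε, hqε⟩ := exists_eps hs hq hq0
  obtain ⟨ε', hε', hrε'⟩ := exists_eps hs hrS hr0
  have hqε' : ∀ u, q u ⟨ε', Submodule.subset_span hε'⟩ = 0 := by
    intro u
    rw [← hrε', hru, hπq, hqq, sub_self, LinearMap.zero_apply]
  have hsep : ∀ f g : Yo L, (∀ u : Module.Dual ℚ (Yo L), u f = u g) → f = g := by
    intro f g hfg
    rw [← sub_eq_zero, ← Module.forall_dual_apply_eq_zero_iff ℚ]
    intro u
    rw [map_sub, hfg u, sub_self]
  have hεj : dq ε ∈ I j := by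
    have h1 := hP1 ⟨ε, Submodule.subset_span hε⟩
    have h2 : P ⟨ε, Submodule.subset_span hε⟩ = ⟨ε, Submodule.subset_span hε⟩ := by
      apply hsep
      intro u
      rw [← LinearMap.dualMap_apply, ← hqε (P.dualMap u), hqπ, hqε]
    rwa [h2] at h1
  have hεj' : dq ε' ∈ I j := by
    have h1 := hP1 ⟨ε', Submodule.subset_span hε'⟩
    have h2 : P ⟨ε', Submodule.subset_span hε'⟩ = ⟨ε', Submodule.subset_span hε'⟩ := by
      apply hsep
      intro u
      rw [← LinearMap.dualMap_apply, ← hrε' (P.dualMap u), hru, hππ, hqπ, ← hru, hrε']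
    rwa [h2] at h1
  -- the exchange map
  obtain ⟨c, hc, hcc⟩ := exists_exch hinj hq
  have hc1 : ∀ a b, ε (c a b) = ε b := by
    intro a b
    have h1 := congrArg (fun u : Module.Dual ℚ (Yo L) => u ⟨ε, Submodule.subset_span hε⟩) (hc a b)
    simp only [LinearMap.add_apply, hqε, LinearMap.sub_apply, pt_apply] at h1
    rw [h1]
    ring
  have hc2 : ∀ a b, ε' (c a b) = ε' a := by
    intro a b
    have h1 := congrArg (fun u : Module.Dual ℚ (Yo L) => u ⟨ε', Submodule.subset_span hε'⟩) (hc a b)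
    simp only [LinearMap.add_apply, hqε', pt_apply, add_zero] at h1
    exact h1
  have hsum1 : ∑ a, ε a = 0 := Yo_sum h (Submodule.subset_span hε)
  have hsum2 : ∑ a, ε' a = 0 := Yo_sum h (Submodule.subset_span hε')
  have hsum3 : ∑ a, ε a * ε' a = 0 := sum_mul_eq_zero hcc hc1 hc2 hsum1
  have hcard : ∀ {s t : ℚ}, (s = 1 ∨ s = -1) → (t = 1 ∨ t = -1) →
      (Finset.univ.filter fun a => ε a = s ∧ ε' a = t).card = 2 := fun hs' ht =>
    card_signs h8 hε.1 hε'.1 hsum1 hsum2 hsum3 hs' ht
  -- a root which changes both signs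
  have hε0 : ε ≠ 0 := by
    intro h0
    obtain ⟨a⟩ := ‹Nonempty κ›
    rcases hε.1 a with h1 | h1 <;> rw [h0] at h1 <;> simp at h1
  obtain ⟨X, hX, a, b, hX0, hab', hab, hw⟩ := mixed_root h hF hε' hεj' (Submodule.subset_span hε) hεj hε0
  have hXr : finrank K (LinearMap.range X) ≤ 2 := by
    rw [← hcard (hε.1 b) (hε'.1 b)]
    refine rank_le_card X _ fun d hd => ?_
    ext x
    rw [Pi.zero_apply]
    by_contra hx
    apply hd
    have h1 : pt L x - pt L d = pt L a - pt L b := hw.entry (by rw [LinearMap.toMatrix'_apply]; exact hx)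
    have h2 := congrArg (fun u : Module.Dual ℚ (Yo L) => u ⟨ε, Submodule.subset_span hε⟩) h1
    have h3 := congrArg (fun u : Module.Dual ℚ (Yo L) => u ⟨ε', Submodule.subset_span hε'⟩) h1
    simp only [LinearMap.sub_apply, pt_apply] at h2 h3
    rw [Finset.mem_filter]
    refine ⟨Finset.mem_univ _, ?_, ?_⟩
    · exact sg (hε.1 x) (hε.1 d) (hε.1 a) (hε.1 b) h2 hab
    · exact sg (hε'.1 x) (hε'.1 d) (hε'.1 a) (hε'.1 b) h3 hab'
  have hXr0 : finrank K (LinearMap.range X) ≠ 0 := by
    intro h0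
    rw [Submodule.finrank_eq_zero, LinearMap.range_eq_bot] at h0
    exact hX0 h0
  by_cases hm : ∃ i, i ≠ j
  · -- at least two ideals
    obtain ⟨i, hij⟩ := hm
    obtain ⟨a', d, ha', hd', hV, hae, hde, hdvd, -⟩ := h.dims hF hij
    have hcardV : finrank K (κ → K) = 8 := by rw [Module.finrank_fintype_fun_eq_card, h8]
    -- the idempotent of rank two
    have hidem : a' ∣ 2 := by
      set N : Module.End K (κ → K) := ((1 / 2 : K) • (1 + dq ε)) * ((1 / 2 : K) • (1 + dq ε')) with hN
      have hNd : N = dg fun a => if ε a = 1 ∧ ε' a = 1 then 1 else 0 := by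
        refine LinearMap.ext fun v => funext fun x => ?_
        rw [hN]
        simp only [Module.End.mul_apply, LinearMap.smul_apply, LinearMap.add_apply, Module.End.one_apply, Pi.smul_apply,
          Pi.add_apply, smul_eq_mul, dq, dg_apply]
        rcases hε.1 x with h4 | h4 <;> rcases hε'.1 x with h5 | h5 <;> rw [h4, h5] <;> norm_num <;> ring
      have hNA : N ∈ alg I j := by
        rw [hN]
        refine Subalgebra.mul_mem _ ?_ ?_
        · exact Subalgebra.smul_mem _ (Subalgebra.add_mem _ (Subalgebra.one_mem _) (mem_alg hεj)) _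
        · exact Subalgebra.smul_mem _ (Subalgebra.add_mem _ (Subalgebra.one_mem _) (mem_alg hεj')) _
      have hNN : N * 1 * N = N := by
        rw [mul_one, hNd, dg_mul]
        congr 1
        funext x
        rw [Pi.mul_apply]
        split_ifs <;> simp
      have h1 := hdvd N hNA 1 (Subalgebra.one_mem _) hNN
      have h2 : finrank K (LinearMap.range N) ≤ 2 := by
        rw [← hcard (s := 1) (t := 1) (Or.inl rfl) (Or.inl rfl)]
        refine rank_le_card N _ fun x hx => ?_
        rw [Finset.mem_filter] at hx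
        rw [hNd]
        funext y
        rw [dg_apply, Pi.zero_apply]
        by_cases hxy : y = x
        · subst hxy
          rw [if_neg fun h => hx ⟨Finset.mem_univ _, h⟩, zero_mul]
        · rw [Pi.single_eq_of_ne hxy, mul_zero]
      have h3 : finrank K (LinearMap.range N) ≠ 0 := by
        intro h0
        rw [Submodule.finrank_eq_zero, LinearMap.range_eq_bot] at h0
        have h4 : (Finset.univ.filter fun a => ε a = 1 ∧ ε' a = 1).Nonempty := by
          rw [← Finset.card_pos, hcard (Or.inl rfl) (Or.inl rfl)]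
          norm_num
        obtain ⟨x, hx⟩ := h4
        rw [Finset.mem_filter] at hx
        have h5 := congrFun (congrArg (fun T : Module.End K (κ → K) => T (Pi.single x 1)) h0) x
        simp only [hNd, dg_apply, Pi.single_eq_same, mul_one, LinearMap.zero_apply, Pi.zero_apply] at h5
        rw [if_pos hx.2] at h5
        exact one_ne_zero h5
      have h6 := Nat.le_of_dvd (by omega) h1
      obtain ⟨t, ht⟩ := hae
      have h7 : a' ≠ 0 := by
        rintro rfl
        rw [zero_mul] at hV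
        omega
      have : a' = 2 := by omega
      rw [this]
    have ha2 : a' = 2 := by
      obtain ⟨t, ht⟩ := hae
      have h7 : a' ≠ 0 := by
        rintro rfl
        rw [zero_mul] at hV
        omega
      have h8' := Nat.le_of_dvd (by norm_num) hidem
      omega
    have h4 := h.four hF hij ha' ha2 hX
    have h5 := Nat.le_of_dvd (by omega) h4
    omega
  · -- one ideal
    push Not at hm
    have hcardV : finrank K (κ → K) = 8 := by rw [Module.finrank_fintype_fun_eq_card, h8]
    obtain rfl : m = 1 := by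
      have h1 : Subsingleton (Fin m) := ⟨fun x y => by rw [hm x, hm y]⟩
      have h2 : 0 < m := j.pos
      have h3 := Fintype.card_le_one_iff_subsingleton.2 h1
      rw [Fintype.card_fin] at h3
      omega
    rcases h.simple hF with h1 | ⟨k, hk, -, h2, -⟩ | ⟨k, hk, -, h2, -⟩
    · -- two points which differ from `a` in both coordinates
      have h3 : (Finset.univ.filter fun x => ε x = - ε a ∧ ε' x = - ε' a).card = 2 := by
        refine hcard ?_ ?_
        · rcases hε.1 a with h4 | h4 <;> rw [h4] <;> norm_num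
        · rcases hε'.1 a with h4 | h4 <;> rw [h4] <;> norm_num
      obtain ⟨x, hx, y, hy, hxy⟩ := Finset.one_lt_card.1 (by rw [h3]; norm_num : 1 < (Finset.univ.filter fun x => ε x = - ε a ∧ ε' x = - ε' a).card)
      rw [Finset.mem_filter] at hx hy
      have key : ∀ x, ε x = - ε a → ε' x = - ε' a → q (pt L x - pt L a) ≠ 0 ∧
          q (pt L x - pt L a) ≠ pt L x - pt L a := by
        intro x h4 h5
        constructor
        · intro h6
          have h7 := congrArg (fun u : Module.Dual ℚ (Yo L) => u ⟨ε, Submodule.subset_span hε⟩) h6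
          simp only [hqε, LinearMap.sub_apply, pt_apply, LinearMap.zero_apply] at h7
          rw [h4] at h7
          rcases hε.1 a with h8' | h8' <;> rw [h8'] at h7 <;> norm_num at h7
        · intro h6
          have h7 := congrArg (fun u : Module.Dual ℚ (Yo L) => u ⟨ε', Submodule.subset_span hε'⟩) h6
          simp only [hqε', LinearMap.sub_apply, pt_apply] at h7
          rw [h5] at h7
          rcases hε'.1 a with h8' | h8' <;> rw [h8'] at h7 <;> norm_num at h7
      obtain ⟨k1, k2⟩ := key x hx.2.1 hx.2.2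
      obtain ⟨k3, k4⟩ := key y hy.2.1 hy.2.2
      exact full_contra h diag hinj h1 hq hxy k1 k2 k3 k4
    · rw [hcardV] at h2
      have h4 : 2 ^ 5 ≤ 2 ^ k := Nat.pow_le_pow_right (by norm_num) hk
      omega
    · rw [hcardV] at h2
      have h4 : Nat.centralBinom 3 ≤ k.centralBinom := Nat.centralBinom_strictMono.monotone hk
      have h5 : Nat.centralBinom 3 = 20 := by decide
      omega

end Pool.Agent.Lib.H86E
end
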