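import Pool.Agent.Lib.H1M.RC.D_H76Q_Q0
import Pool.Agent.Lib.H1M.RC.D_H76Q_Q1
import Pool.Agent.Lib.H1M.RC.M042

/-! Merged copies (to shorten the build) of Lib.H45P.P0, Lib.H76Q.A1, Lib.H76Q.Q2, Lib.H76Q.Q3, Lib.H76Q.B2, Lib.H76Q.C3, Lib.H76Q.F2, Lib.H76Q.X9, Lib.H76Q.C1, Lib.H76Q.C2, Lib.H76Q.C5, Lib.H76Q.E4, Lib.H76Q.F3, Lib.H76Q.Q4, Lib.H76Y.Y0, Lib.H76Y.T1. -/

-- from Lib.H45P.P0
section

/-! # H45P, P0: the arithmetic conditions for `m`-th powers -/

set_option autoImplicit false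
set_option linter.unusedSectionVars false

namespace H45P

open Pool.Agent.H76Q

/-- The subgroup generated by the `m`-th powers and the commutators of the elements of the image of `ρ`. -/
def PC {G H : Type*} [Group G] [Group H] (m : ℕ) (ρ : G →* H) : Subgroup H :=
  Subgroup.closure ((Set.range fun g => ρ g ^ m) ∪ {x | ∃ g h, x = ρ g * ρ h * (ρ g)⁻¹ * (ρ h)⁻¹})

/-- `x` is the `m`-th power of an element of `L`. -/
def PowIn (m : ℕ) (L : Type*) {K : Type*} [Field L] [Field K] [Algebra L K] (x : K) : Prop := ∃ y : L, x = algebraMap L K y ^ m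

/-- The arithmetic conditions: `R` is the set of conjugates of the generator `π` of the place. -/
structure ArithM (m : ℕ) {Ω : Type*} [Field Ω] (R : Finset Ω) (N : Set ℕ) {G : Type*} [Group G]
    {ι : Type*} [Fintype ι] [DecidableEq ι]
    (ρ : ∀ (l : ℕ) [Fact l.Prime], G →* Matrix.GeneralLinearGroup ι ℚ_[l]) (σ : G) : Prop where
  recl : ∀ (l : ℕ) [Fact l.Prime], l ∉ N → ∀ i : Ω →+* AlgebraicClosure ℚ_[l],
    (∀ r ∈ R, PowIn m ℚ_[l] (i r)) → ρ l σ ∈ PC m (ρ l)
  cheb : ∀ Γ : Subgroup (Ω ≃+* Ω), (∃ T : Finset Ω, ∀ s : Ω ≃+* Ω, (∀ x ∈ T, s x = x) → s ∈ Γ) →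
    (∀ s ∈ Γ, ∀ z : Ω, z ^ m = 1 → s z = z) →
    (∀ s ∈ Γ, ∀ r ∈ R, s r = r) → ∀ a : Ω, a ≠ 0 → (∀ s ∈ Γ, s a = a) →
    (∀ (l : ℕ) [Fact l.Prime], l ∉ N → ∀ i : Ω →+* AlgebraicClosure ℚ_[l],
      Dec ℚ_[l] Γ i → (∀ r ∈ R, PowIn m ℚ_[l] (i r)) → PowIn m ℚ_[l] (i a)) →
    ∃ (x : Ω → ℕ) (c : Ω), c ≠ 0 ∧ (∀ s ∈ Γ, s c = c) ∧ a = (∏ r ∈ R, r ^ x r) * c ^ m

end H45P
end

-- from Lib.H76Q.A1
section

/-!
# A1: the component without assumption on the valuation (copies of parts of H76P.T1, T2, T4, T10, T11)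
-/

set_option autoImplicit false
set_option linter.unusedSectionVars false
namespace Pool.Agent.H76Q
open Module Matrix Pool.Agent.H53Toric
open Pool.Agent.H76P
open Pool.Agent.H76T (IsIdeal Fam)
open Pool.Agent.H76V (Cmp alg calg)

variable {κ : Type*} {K : Type*} [Field K] [CharZero K] [Fintype κ] [DecidableEq κ]
  {L : Submodule K (Module.End K (κ → K))} {J : Matrix κ κ K}

/-- A component whose torus separates the weights. -/
structure TS (L : Submodule K (Module.End K (κ → K))) (J : Matrix κ κ K) : Prop where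
  cmp : Cmp L J
  diag : ∀ f : κ → ℚ, dq f ∈ L → f ∈ Yo L
  sep : ∀ a b : κ, a ≠ b → ∃ f ∈ Yo L, f a ≠ f b

/-- PROOF. The entry `(a, b)` of the matrix of `X` (`a ≠ b`) is zero: with `f` as in `TS.sep` compare the entries `(a, b)` of
`X * dq f` and `dq f * X`. -/
theorem TS.diag_of_comm (h : TS L J) {X : Module.End K (κ → K)}
    (hX : ∀ f ∈ Yo L, X * dq f = dq f * X) : ∃ g : κ → K, X = dg g := by
  have hz : ∀ a b : κ, a ≠ b → X (Pi.single b 1) a = 0 := by
    intro a b hab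
    obtain ⟨f, hf, hne⟩ := h.sep a b hab
    have h1 := congrFun (congrArg (fun T : Module.End K (κ → K) => T (Pi.single b 1)) (hX f hf)) a
    simp only [Module.End.mul_apply] at h1
    have h2 : (dq f : Module.End K (κ → K)) (Pi.single b 1) = (f b : K) • Pi.single b (1 : K) := by
      funext c
      unfold dq
      rw [dg_apply, Pi.smul_apply, smul_eq_mul]
      by_cases hc : c = b
      · rw [hc]
      · rw [Pi.single_eq_of_ne hc, mul_zero, mul_zero]
    rw [h2, map_smul, Pi.smul_apply, smul_eq_mul] at h1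
    unfold dq at h1
    rw [dg_apply] at h1
    have h3 : ((f b : K) - (f a : K)) * X (Pi.single b 1) a = 0 := by
      rw [sub_mul, h1, sub_self]
    rcases mul_eq_zero.1 h3 with h4 | h4
    · exfalso
      apply hne
      have h5 : (f b : K) = (f a : K) := sub_eq_zero.1 h4
      exact_mod_cast h5.symm
    · exact h4
  refine ⟨fun a => X (Pi.single a 1) a, ?_⟩
  refine LinearMap.pi_ext' fun b => LinearMap.ext_ring (funext fun a => ?_)
  show X (Pi.single b 1) a = dg (fun a => X (Pi.single a 1) a) (Pi.single b 1) a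
  rw [dg_apply]
  by_cases hab : a = b
  · rw [hab, Pi.single_eq_same, mul_one]
  · rw [hz a b hab, Pi.single_eq_of_ne hab, mul_zero]

/-- PROOF. `TS.sep`. -/
theorem TS.pt_inj (h : TS L J) : Function.Injective (pt L) := by
  intro a b hab
  by_contra hne
  obtain ⟨f, hf, hfab⟩ := h.sep a b hne
  apply hfab
  have h1 := congrArg (fun φ : Module.Dual ℚ (Yo L) => φ ⟨f, hf⟩) hab
  exact h1

variable [IsAlgClosed K] [Nonempty κ] {m : ℕ} {I : Fin m → Submodule K (Module.End K (κ → K))}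

/-- PROOF. If not, every `ε ∈ Hs L` is in some `I i` with `i ≠ j` (`Hs_mem`), so `dq ε` commutes with all `X ∈ I j` (`hF.comm`), so
`dq f` commutes with `X` for all `f ∈ Yo L`, so all elements of `I j` are diagonal (`TS.diag_of_comm`) and commute with each other.
They commute with the elements of `I i`, `i ≠ j`, too, so they commute with `L`; they are scalars of trace zero, and `I j = ⊥`,
contradiction to `hF.ne_bot`. -/
theorem TS.exists_diag (h : TS L J) (hF : Fam L I) (j : Fin m) :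
    ∃ f ∈ Yo L, f ≠ 0 ∧ dq f ∈ I j := by
  by_contra hcon
  push Not at hcon
  have h1 : ∀ X ∈ I j, ∀ f ∈ Yo L, X * dq f = dq f * X := by
    intro X hX f hf
    unfold Yo at hf
    induction hf using Submodule.span_induction with
    | mem ε hε =>
      obtain ⟨i, hi⟩ := Hs_mem h.cmp hF hε
      have hij : j ≠ i := by
        rintro rfl
        refine hcon ε (Submodule.subset_span hε) ?_ hi
        intro h0
        obtain ⟨a⟩ := ‹Nonempty κ›
        have h2 := congrFun h0 a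
        rcases hε.1 a with h3 | h3 <;> rw [h3] at h2 <;> simp at h2
      exact hF.comm j i hij X hX _ hi
    | zero =>
      have h2 : (dq (0 : κ → ℚ) : Module.End K (κ → K)) = 0 := by
        refine LinearMap.ext fun v => funext fun a => ?_
        simp [dq, dg_apply]
      rw [h2, mul_zero, zero_mul]
    | add f g _ _ hf hg => rw [dq_add, mul_add, add_mul, hf, hg]
    | smul c f _ hf => rw [dq_smul, mul_smul_comm, smul_mul_assoc, hf]
  apply hF.ne_bot j
  rw [eq_bot_iff]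
  intro X hX
  rw [Submodule.mem_bot]
  refine t4_zero h.cmp hF ((hF.ideal j).1 hX) fun i Y hY => ?_
  by_cases hij : i = j
  · subst hij
    obtain ⟨g, rfl⟩ := h.diag_of_comm (h1 X hX)
    obtain ⟨g', rfl⟩ := h.diag_of_comm (h1 Y hY)
    rw [dg_mul, dg_mul, mul_comm]
  · exact hF.comm j i (Ne.symm hij) X hX Y hY

/-- an operator of weight zero is diagonal -/
theorem ts_diag (h : TS L J) {δ : Module.Dual ℚ (Yo L)} (hδ : δ = 0)
    {X : Module.End K (κ → K)} (hX : IsWt L δ X) : ∃ g : κ → K, X = dg g := by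
  apply h.diag_of_comm
  intro f hf
  have h1 := hX ⟨f, hf⟩
  rw [hδ, LinearMap.zero_apply, Rat.cast_zero, zero_smul, sub_eq_zero] at h1
  exact h1.symm

/-- PROOF. `e = X * Y` and `e' = Y * X` are idempotent, `e * e' = X Y Y X = 0`, `e' * e = Y X X Y = 0`; both have weight `0`
(`IsWt.mul`), i.e. they commute with all `dq f`, `f ∈ Yo L`, so `e = dg g`, `e' = dg g'` (`TS.diag_of_comm`) with `g a, g' a ∈ {0, 1}`,
`g a * g' a = 0` (`dg_mul`, `dg_inj`).  Let `fv a = (if g a = 1 then 1 else 0) - (if g' a = 1 then 1 else 0)`.  `dq fv = e - e' = [X, Y] ∈ I j ≤ L`, so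
`fv ∈ Yo L` (`h.diag`).  `e' ≠ 0` since `X * e' = X ≠ 0`, so there is `a` with `g' a = 1`, `fv a = -1`.  If `fv c = -1` then `g' c = 1`; let `u` be the
basis vector `Pi.single c 1`, `w = X u`; `Y w = e' u = u`, so `w ≠ 0`; let `w d ≠ 0`: the entry `(d, c)` of `X` is not zero, so
`pt L d - pt L c = δ` (`IsWt.entry`); `e w = X Y X u = w`, so `g d * w d = w d`, `g d = 1`, `fv d = 1`.  The same for `fv c = 1` with `Y`, `e`. -/
theorem TS.coroot (h : TS L J) (hF : Fam L I) {j : Fin m} {X Y : Module.End K (κ → K)}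
    (hX : X ∈ I j) (hY : Y ∈ I j) (hX0 : X ≠ 0) {δ : Module.Dual ℚ (Yo L)}
    (hwX : IsWt L δ X) (hwY : IsWt L (-δ) Y) (hXX : X * X = 0) (hYY : Y * Y = 0)
    (hXYX : X * Y * X = X) (hYXY : Y * X * Y = Y) :
    ∃ fv ∈ Yo L, (∀ a, fv a = -1 ∨ fv a = 0 ∨ fv a = 1) ∧ (∃ a, fv a = -1) ∧
      (∀ c, fv c = -1 → ∃ d, pt L d = pt L c + δ ∧ fv d = 1) ∧
      (∀ c, fv c = 1 → ∃ d, pt L d = pt L c - δ ∧ fv d = -1) := by
  classical
  obtain ⟨g, hg⟩ := ts_diag h (add_neg_cancel δ) (hwX.mul hwY)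
  obtain ⟨g', hg'⟩ := ts_diag h (neg_add_cancel δ) (hwY.mul hwX)
  have hgg : ∀ a, g a = 0 ∨ g a = 1 := by
    intro a
    have h1 : dg (g * g) = dg g := by
      rw [← dg_mul, ← hg, ← mul_assoc, hXYX]
    have h2 := congrFun (dg_inj h1) a
    rw [Pi.mul_apply] at h2
    have h3 : g a * (g a - 1) = 0 := by linear_combination h2
    rcases mul_eq_zero.1 h3 with h4 | h4
    · exact Or.inl h4
    · exact Or.inr (sub_eq_zero.1 h4)
  have hgg' : ∀ a, g' a = 0 ∨ g' a = 1 := by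
    intro a
    have h1 : dg (g' * g') = dg g' := by
      rw [← dg_mul, ← hg', ← mul_assoc, hYXY]
    have h2 := congrFun (dg_inj h1) a
    rw [Pi.mul_apply] at h2
    have h3 : g' a * (g' a - 1) = 0 := by linear_combination h2
    rcases mul_eq_zero.1 h3 with h4 | h4
    · exact Or.inl h4
    · exact Or.inr (sub_eq_zero.1 h4)
  have hmul : ∀ a, g a * g' a = 0 := by
    intro a
    have h1 : dg (g * g') = dg (0 : κ → K) := by
      rw [← dg_mul, ← hg, ← hg']
      have h2 : X * Y * (Y * X) = X * (Y * Y) * X := by noncomm_ring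
      rw [h2, hYY, mul_zero, zero_mul]
      refine LinearMap.ext fun v => funext fun b => ?_
      simp [dg_apply]
    exact congrFun (dg_inj h1) a
  set fv : κ → ℚ := fun a => (if g a = 1 then 1 else 0) - (if g' a = 1 then 1 else 0) with hfv
  have hval : ∀ a, (g a = 0 ∧ g' a = 0 ∧ fv a = 0) ∨ (g a = 1 ∧ g' a = 0 ∧ fv a = 1) ∨
      (g a = 0 ∧ g' a = 1 ∧ fv a = -1) := by
    intro a
    have h0 := hmul a
    rcases hgg a with h1 | h1 <;> rcases hgg' a with h2 | h2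
    · left
      exact ⟨h1, h2, by simp [hfv, h1, h2]⟩
    · right; right
      exact ⟨h1, h2, by simp [hfv, h1, h2]⟩
    · right; left
      exact ⟨h1, h2, by simp [hfv, h1, h2]⟩
    · rw [h1, h2, mul_one] at h0
      exact absurd h0 one_ne_zero
  have hdq : (dq fv : Module.End K (κ → K)) = X * Y - Y * X := by
    rw [hg, hg']
    refine LinearMap.ext fun v => funext fun a => ?_
    rw [LinearMap.sub_apply, Pi.sub_apply, dg_apply, dg_apply, dq, dg_apply]
    rcases hval a with ⟨h1, h2, h3⟩ | ⟨h1, h2, h3⟩ | ⟨h1, h2, h3⟩ <;> rw [h1, h2, h3] <;>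
      push_cast <;> ring
  have hL : (dq fv : Module.End K (κ → K)) ∈ L := by
    rw [hdq]
    exact (hF.ideal j).1 ((hF.ideal j).2 X ((hF.ideal j).1 hX) Y hY)
  refine ⟨fv, h.diag fv hL, ?_, ?_, ?_, ?_⟩
  · intro a
    rcases hval a with ⟨-, -, h3⟩ | ⟨-, -, h3⟩ | ⟨-, -, h3⟩
    · exact Or.inr (Or.inl h3)
    · exact Or.inr (Or.inr h3)
    · exact Or.inl h3
  · by_contra hcon
    push Not at hcon
    apply hX0
    have h1 : g' = 0 := by
      ext a
      rcases hval a with ⟨-, h2, -⟩ | ⟨-, h2, -⟩ | ⟨-, -, h3⟩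
      · exact h2
      · exact h2
      · exact absurd h3 (hcon a)
    have h2 : Y * X = 0 := by
      rw [hg', h1]
      refine LinearMap.ext fun v => funext fun b => ?_
      simp [dg_apply]
    rw [← hXYX, mul_assoc, h2, mul_zero]
  · intro c hc
    have hc' : g' c = 1 := by
      rcases hval c with ⟨-, -, h3⟩ | ⟨-, -, h3⟩ | ⟨-, h2, -⟩
      · rw [h3] at hc; norm_num at hc
      · rw [h3] at hc; norm_num at hc
      · exact h2
    obtain ⟨d, hd1, hd2⟩ := t10_entry hwX hXYX hg hg' hc'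
    refine ⟨d, ?_, ?_⟩
    · rw [← hd1]; abel
    · rcases hval d with ⟨h1, -, -⟩ | ⟨-, -, h3⟩ | ⟨h1, -, -⟩
      · rw [h1] at hd2; exact absurd hd2 zero_ne_one
      · exact h3
      · rw [h1] at hd2; exact absurd hd2 zero_ne_one
  · intro c hc
    have hc' : g c = 1 := by
      rcases hval c with ⟨-, -, h3⟩ | ⟨h1, -, -⟩ | ⟨-, -, h3⟩
      · rw [h3] at hc; norm_num at hc
      · exact h1
      · rw [h3] at hc; norm_num at hc
    obtain ⟨d, hd1, hd2⟩ := t10_entry hwY hYXY hg' hg hc'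
    refine ⟨d, ?_, ?_⟩
    · rw [sub_eq_iff_eq_add'] at hd1
      rw [hd1, sub_eq_add_neg]
    · rcases hval d with ⟨-, h2, -⟩ | ⟨-, h2, -⟩ | ⟨-, -, h3⟩
      · rw [h2] at hd2; exact absurd hd2 zero_ne_one
      · rw [h2] at hd2; exact absurd hd2 zero_ne_one
      · exact h3

/-- PROOF. Notation: `V = Dual ℚ (Yo L)`, `π = P.dualMap`, so `(π u) f = u (P f)`; `q * π = q`; by `Spl.comm` also `π * q = q`.
(1) There is `ε ∈ Hs L` with `(q u) ε = u ε` for all `u`: `q ≠ 0`, so there are `u`, `f` with `(q u) f ≠ 0`; `f` is in the span of `Hs L`, so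
`(q u) ε ≠ 0` for some `ε ∈ Hs L` (as an element of `Yo L`); apply `two_values` (C6) with the functional `u ↦ u ε` on `V`.
For all `u`: `u (P ε) = (π u) ε = (q (π u)) ε = ((q * π) u) ε = (q u) ε = u ε`, so `P ε = ε` and `dq ε ∈ I j` (`hP1`).
(2) There is `f' : Yo L`, `f' ≠ 0`, `P f' = f'`, `(q u) f' = 0` for all `u`: `r = π - q ≠ 0`, so `(r u) f ≠ 0` for some `u`, `f`.  As `Yo L` is finite
dimensional, there is `f'` with `u f' = (r u) f` for all `u` (the functional `u ↦ (r u) f` on `V`, reflexivity).  `f' ≠ 0`.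
`(q u) f' = (r (q u)) f = ((π * q - q * q) u) f = 0`.  `u (P f') = (π u) f' = (r (π u)) f = ((π * π - q * π) u) f = (r u) f = u f'`, so `P f' = f'` and
`dq f' ∈ I j`.
(3) `mixed_root` for `ε`, `f'` gives `X`, `a`, `b`; let `δ = pt L a - pt L b`.  `(q δ) ε = δ ε = ε a - ε b ≠ 0`, so `q δ ≠ 0`.
`((1 - q) δ) f' = δ f' = f' a - f' b ≠ 0`, so `(1 - q) δ ≠ 0`.
(4) `sl2_pair`, `coroot` give `fv`; `root_two` (C7) with the functional `u ↦ u fv`. -/
theorem TS.atom_two (h : TS L J) (hF : Fam L I) {j : Fin m} {P : Module.End ℚ (Yo L)}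
    (hP1 : ∀ f, dq (P f : κ → ℚ) ∈ I j)
    (hP2 : ∀ f : Yo L, dq (f : κ → ℚ) ∈ I j → P f = f) (hPS : Spl (pt L) P.dualMap)
    {q : Module.End ℚ (Module.Dual ℚ (Yo L))} (hq : Atom (pt L) q) (hqP : q * P.dualMap = q)
    (hne : q ≠ P.dualMap) : cnt (pt L) q = 2 := by
  have hs : Spans (pt L) := pt_spans h.cmp
  have hcomm := Spl.comm hs hq.1 hPS
  have hπq : ∀ u, P.dualMap (q u) = q u := fun u => by
    have h1 : (P.dualMap * q) u = q u := by rw [← hcomm, hqP]
    exact h1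
  have hqπ : ∀ u, q (P.dualMap u) = q u := fun u => by
    have h1 : (q * P.dualMap) u = q u := by rw [hqP]
    exact h1
  have hππ : ∀ u, P.dualMap (P.dualMap u) = P.dualMap u := fun u => by
    have h1 : (P.dualMap * P.dualMap) u = P.dualMap u := by rw [hPS.1]
    exact h1
  have hqq : ∀ u, q (q u) = q u := fun u => by
    have h1 : (q * q) u = q u := by rw [hq.1.1]
    exact h1
  have hπ : ∀ (u : Module.Dual ℚ (Yo L)) (f : Yo L), u (P f) = P.dualMap u f := fun u f => by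
    rw [LinearMap.dualMap_apply]
  have hsep : ∀ f g : Yo L, (∀ u : Module.Dual ℚ (Yo L), u f = u g) → f = g := by
    intro f g hfg
    rw [← sub_eq_zero, ← Module.forall_dual_apply_eq_zero_iff ℚ]
    intro u
    rw [map_sub, hfg u, sub_self]
  -- (1)
  have hstep1 : ∃ (ε : κ → ℚ) (hε : ε ∈ Hs L), ∀ u : Module.Dual ℚ (Yo L),
      q u ⟨ε, Submodule.subset_span hε⟩ = u ⟨ε, Submodule.subset_span hε⟩ := by
    have h1 : ∃ u, q u ≠ 0 := by
      by_contra h2
      push Not at h2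
      exact hq.2.1 (LinearMap.ext h2)
    obtain ⟨u, hu⟩ := h1
    have h2 : ∃ (ε : κ → ℚ) (hε : ε ∈ Hs L), q u ⟨ε, Submodule.subset_span hε⟩ ≠ 0 := by
      by_contra h3
      push Not at h3
      apply hu
      refine LinearMap.ext fun f => ?_
      obtain ⟨f, hf⟩ := f
      rw [LinearMap.zero_apply]
      have key : ∀ (f : κ → ℚ) (hf : f ∈ Submodule.span ℚ (Hs L)), q u ⟨f, hf⟩ = 0 := by
        intro f hf
        induction hf using Submodule.span_induction with
        | mem ε hε => exact h3 ε hε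
        | zero => exact map_zero (q u)
        | add a b ha hb ha' hb' =>
          have e : (⟨a + b, Submodule.add_mem _ ha hb⟩ : Yo L) = ⟨a, ha⟩ + ⟨b, hb⟩ := rfl
          exact (congrArg (q u) e).trans (by rw [map_add, ha', hb', add_zero])
        | smul c a ha ha' =>
          have e : (⟨c • a, Submodule.smul_mem _ c ha⟩ : Yo L) = c • ⟨a, ha⟩ := rfl
          exact (congrArg (q u) e).trans (by rw [map_smul, ha', smul_zero])
      exact key f hf
    obtain ⟨ε, hε, h3⟩ := h2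
    refine ⟨ε, hε, ?_⟩
    rcases two_values hs hq.1
      (ε := Module.Dual.eval ℚ (Yo L) ⟨ε, Submodule.subset_span hε⟩) (e := ε)
      (fun a b => rfl) hε.1 with h4 | h4
    · exact h4
    · exact absurd (h4 u) h3
  obtain ⟨ε, hε, hqε⟩ := hstep1
  have hPε : P ⟨ε, Submodule.subset_span hε⟩ = ⟨ε, Submodule.subset_span hε⟩ := by
    apply hsep
    intro u
    rw [hπ, ← hqε (P.dualMap u), hqπ, hqε]
  have hεj : dq ε ∈ I j := by
    have h1 := hP1 ⟨ε, Submodule.subset_span hε⟩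
    rwa [hPε] at h1
  -- (2)
  have hstep2 : ∃ f' : Yo L, f' ≠ 0 ∧ P f' = f' ∧ ∀ u, q u f' = 0 := by
    have h1 : ∃ u, P.dualMap u - q u ≠ 0 := by
      by_contra h2
      push Not at h2
      apply hne
      refine LinearMap.ext fun u => ?_
      exact (sub_eq_zero.1 (h2 u)).symm
    obtain ⟨u₀, hu₀⟩ := h1
    have h2 : ∃ f₀, (P.dualMap u₀ - q u₀) f₀ ≠ 0 := by
      by_contra h3
      push Not at h3
      exact hu₀ (LinearMap.ext h3)
    obtain ⟨f₀, hf₀⟩ := h2
    let φ : Module.Dual ℚ (Module.Dual ℚ (Yo L)) :=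
      (Module.Dual.eval ℚ (Yo L) f₀) ∘ₗ (P.dualMap - q)
    let f' : Yo L := (Module.evalEquiv ℚ (Yo L)).symm φ
    have hf' : ∀ u : Module.Dual ℚ (Yo L), u f' = (P.dualMap u - q u) f₀ := by
      intro u
      have h3 : u f' = φ u := Module.apply_evalEquiv_symm_apply ℚ (Yo L) u φ
      rw [h3]
      rfl
    refine ⟨f', ?_, ?_, ?_⟩
    · intro h3
      apply hf₀
      rw [← hf' u₀, h3, map_zero]
    · apply hsep
      intro u
      rw [hπ, hf', hππ, hqπ, ← hf']
    · intro u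
      rw [hf', hπq, hqq, sub_self, LinearMap.zero_apply]
  obtain ⟨f', hf'0, hPf', hqf'⟩ := hstep2
  have hf'j : dq (f' : κ → ℚ) ∈ I j := by
    have h1 := hP1 f'
    rwa [hPf'] at h1
  -- (3)
  obtain ⟨X, hX, a, b, hX0, hab, hab', hw⟩ := mixed_root h.cmp hF hε hεj f'.2 hf'j
    (fun h0 => hf'0 (Subtype.ext h0))
  -- (4)
  obtain ⟨Y, hY, hwY, hXX, hYY, hXYX, hYXY⟩ := sl2_pair h.cmp hF hX hε hab hw
  obtain ⟨fv, hfv, hv1, hv2, hv3, hv4⟩ := h.coroot hF hX hY hX0 hw hwY hXX hYY hXYX hYXY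
  refine root_two hs hq (δ := pt L a - pt L b) (f := Module.Dual.eval ℚ (Yo L) ⟨fv, hfv⟩)
    (fv := fv) (fun a b => rfl) hv1 hv2 hv3 hv4 ?_ ?_
  · intro h0
    have h1 := hqε (pt L a - pt L b)
    rw [h0, LinearMap.zero_apply, LinearMap.sub_apply, pt_apply, pt_apply] at h1
    exact hab (sub_eq_zero.1 h1.symm)
  · intro h0
    have h1 := LinearMap.congr_fun h0 f'
    rw [LinearMap.sub_apply, Module.End.one_apply, LinearMap.sub_apply, hqf', sub_zero,
      LinearMap.sub_apply, pt_apply, pt_apply, LinearMap.zero_apply] at h1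
    exact hab' (sub_eq_zero.1 h1)

end Pool.Agent.H76Q
end

-- from Lib.H76Q.Q2
section

/-!
# H76Q: definitions for the configurations, the algebras of a projector, lifts
-/

set_option autoImplicit false
set_option linter.unusedSectionVars false
namespace Pool.Agent.H76Q
open Module Matrix Pool.Agent.H53Toric
open Pool.Agent.H76P
open Pool.Agent.H76T (IsIdeal Fam)
open Pool.Agent.H76V (Cmp)

section
variable {κ : Type*} [Fintype κ] [DecidableEq κ]

/-- The space of functions attached to a family of numbers: the functions `f` with sum `0` such that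
`f - c` satisfies the linear relations which come from the multiplicative relations. -/
def YS {K : Type*} [Field K] (d : κ → K) : Submodule ℚ (κ → ℚ) where
  carrier := {f | ∑ k, f k = 0 ∧ ∃ c : ℚ, ∀ m : κ → ℤ, ∏ k, d k ^ m k = 1 →
    ∑ k, (m k : ℚ) * (f k - c) = 0}
  zero_mem' := ⟨by simp, 0, fun m _ => by simp⟩
  add_mem' := by
    rintro f g ⟨h1, c, h2⟩ ⟨h3, c', h4⟩
    refine ⟨by simp [Finset.sum_add_distrib, h1, h3], c + c', fun m hm => ?_⟩
    have h5 := h2 m hm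
    have h6 := h4 m hm
    calc ∑ k, (m k : ℚ) * ((f + g) k - (c + c')) =
        ∑ k, ((m k : ℚ) * (f k - c) + (m k : ℚ) * (g k - c')) := by
          refine Finset.sum_congr rfl fun k _ => ?_
          simp only [Pi.add_apply]
          ring
      _ = 0 := by rw [Finset.sum_add_distrib, h5, h6, add_zero]
  smul_mem' := by
    rintro a f ⟨h1, c, h2⟩
    refine ⟨by simp [← Finset.mul_sum, h1], a * c, fun m hm => ?_⟩
    have h5 := h2 m hm
    calc ∑ k, (m k : ℚ) * ((a • f) k - a * c) = ∑ k, a * ((m k : ℚ) * (f k - c)) := by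
          refine Finset.sum_congr rfl fun k _ => ?_
          simp only [Pi.smul_apply, smul_eq_mul]
          ring
      _ = 0 := by rw [← Finset.mul_sum, h5, mul_zero]

/-- The points of the configuration. -/
def ptS (Y : Submodule ℚ (κ → ℚ)) (a : κ) : Module.Dual ℚ Y :=
  (LinearMap.proj (R := ℚ) (φ := fun _ : κ => ℚ) a) ∘ₗ Y.subtype

variable {Y : Submodule ℚ (κ → ℚ)}

/-- A product decomposition of the configuration: `P` is the projector to the functions of the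
first coordinate. -/
structure Sp (P : Module.End ℚ Y) : Prop where
  idem : P * P = P
  mix : ∀ a b, ∃ c, ∀ f : Y, (f : κ → ℚ) c = (f : κ → ℚ) a + (P f : κ → ℚ) b - (P f : κ → ℚ) a

/-- `k` and `k'` have the same first coordinate. -/
def cz (P : Module.End ℚ Y) (k k' : κ) : Prop := ∀ f : Y, (P f : κ → ℚ) k = (P f : κ → ℚ) k'

/-- `f` depends only on the first coordinate. -/
def FunP {A : Type*} (P : Module.End ℚ Y) (f : κ → A) : Prop := ∀ k k', cz P k k' → f k = f k'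

/-- The permutation `σ` respects the product decomposition. -/
def StabP (P : Module.End ℚ Y) (σ : Equiv.Perm κ) : Prop :=
  (∀ k k', cz P k k' ↔ cz P (σ k) (σ k')) ∧ ∀ k k', cz (1 - P) k k' ↔ cz (1 - P) (σ k) (σ k')

/-- Local data: a factorisation of the numbers `i (a k)` in a field. -/
structure LD {Ω K : Type*} [Field Ω] [Field K] (P : Module.End ℚ Y) (a : κ → Ω) (i : Ω →+* K)
    (u r : κ → K) : Prop where
  prod : ∀ k, i (a k) = u k * r k
  fu : FunP P u
  fr : FunP (1 - P) r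

/-- The lift `t` of the first coordinate. -/
structure Lift {Ω : Type*} [Field Ω] (P : Module.End ℚ Y) (a : κ → Ω) (t : κ → Ω) : Prop where
  ne : ∀ k, t k ≠ 0
  fun_ : FunP P t
  rat : ∀ k k' c, cz P c k → cz (1 - P) c k' → t k * a k' = t k' * a c
  eqv : ∀ (s : Ω ≃+* Ω) (σ : Equiv.Perm κ), (∀ k, s (a k) = a (σ k)) → StabP P σ →
    ∀ k, s (t k) = t (σ k)

/-- The group of the automorphisms which fix everything we need. -/
def GamP {Ω M : Type*} [Field Ω] [Field M] (j : M →+* Ω) (R : Finset Ω) (a : κ → Ω)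
    (P : Module.End ℚ Y) : Set (Ω ≃+* Ω) :=
  {s | (∀ x, s (j x) = j x) ∧ (∀ r ∈ R, s r = r) ∧
    ∃ σ : Equiv.Perm κ, (∀ k, s (a k) = a (σ k)) ∧ StabP P σ}

end

section
variable {κ : Type*} [Fintype κ] [DecidableEq κ] {K : Type*} [Field K]
  {Y : Submodule ℚ (κ → ℚ)}

/-- The diagonal elements of `I` depend only on the first coordinate. -/
def InP (P : Module.End ℚ Y) (I : Submodule K (Module.End K (κ → K))) : Prop :=
  ∀ f : κ → ℚ, f ∈ Y → dq f ∈ I → FunP P f

/-- The algebra which acts on the first factor. -/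
def AZ (L : Submodule K (Module.End K (κ → K))) (P : Module.End ℚ Y) :
    Subalgebra K (Module.End K (κ → K)) :=
  Algebra.adjoin K {X | ∃ I, IsIdeal L I ∧ InP P I ∧ X ∈ I}

/-- Each simple ideal acts on one of the two factors. -/
def Comp (L : Submodule K (Module.End K (κ → K))) (P : Module.End ℚ Y) : Prop :=
  ∀ (m : ℕ) (I : Fin m → Submodule K (Module.End K (κ → K))), Fam L I →
    ∀ j, InP P (I j) ∨ InP (1 - P) (I j)

/-- `X` is a pure tensor `u * r` with multiplier `t` on the first factor. -/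
def PT (L : Submodule K (Module.End K (κ → K))) (J : Matrix κ κ K) (P : Module.End ℚ Y)
    (X u r : Module.End K (κ → K)) (t : K) : Prop :=
  u ∈ AZ L P ∧ r ∈ AZ L (1 - P) ∧ X = u * r ∧ t ≠ 0 ∧ adjE J u * u = t • 1 ∧
    ∃ t' : K, t' ≠ 0 ∧ adjE J r * r = t' • 1

/-- A semilinear automorphism of the operators which respects `L`, the form and the diagonal. -/
structure Theta (L : Submodule K (Module.End K (κ → K))) (J : Matrix κ κ K)
    (θ : Module.End K (κ → K) ≃+* Module.End K (κ → K)) (τ : K ≃+* K) (σ : Equiv.Perm κ) : Prop where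
  smul : ∀ (c : K) X, θ (c • X) = τ c • θ X
  diag : ∀ g : κ → K, θ (dg g) = dg fun k => τ (g (σ.symm k))
  mem : ∀ X, θ X ∈ L ↔ X ∈ L
  adj : ∀ X, θ (adjE J X) = adjE J (θ X)

end

end Pool.Agent.H76Q
end

-- from Lib.H76Q.Q3
section

/-!
# Q3: the local situation at a prime `l` and an embedding
-/

set_option autoImplicit false
set_option linter.unusedSectionVars false
namespace Pool.Agent.H76Q
open Module Matrix Pool.Agent.H53Toric
open Pool.Agent.H76P
open Pool.Agent.H76T (IsIdeal Fam Lc)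
open Pool.Agent.H76V (Cmp)
open Pool.Agent.H76U (cmp preL IsSplitting)

/-- `e = U V` an idempotent, `V U = 1`, the columns of `U` are eigenvectors of `x` with the eigenvalues
`d`; `S` the image of a subgroup of finite index, `𝓗` the set of projectors, `q` the multiplier of `x`,
`Y` the configuration. -/
structure Loc {ι : Type*} [Fintype ι] [DecidableEq ι] {K : Type*} [Field K] [CharZero K]
    (J : Matrix ι ι K) (S 𝓗 : Set (Matrix ι ι K)) (e x : Matrix ι ι K) (q : K) {n : ℕ}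
    (U : Matrix ι (Fin n) K) (V : Matrix (Fin n) ι K) (d : Fin n → K)
    (Y : Submodule ℚ (Fin n → ℚ)) : Prop where
  pos : 0 < n
  UV : e = U * V
  VU : V * U = 1
  ec : EC x U d
  ex : e * x = x * e
  Jt : Jᵀ = -J
  Jd : IsUnit J.det
  adj : eᵀ * J = J * e
  mult : xᵀ * J * x = q • J
  ts : TS (Lc J S U V) (Uᵀ * J * U)
  yo : Yo (Lc J S U V) = Y
  par : ∀ h ∈ 𝓗, h * h = h ∧ h * e = e * h ∧ hᵀ * J + J * h = J ∧
    phi (cmp U V ((2 : K) • h - 1)) ∈ Lc J S U V
  lie : ∀ C ∈ zlie S, C * e = e * C ∧ ∃ c : K, phi (cmp U V (C - c • 1)) ∈ Lc J S U V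

end Pool.Agent.H76Q
end

-- from Lib.H76Q.B2
section

/-!
# coordinates
-/

set_option autoImplicit false
set_option linter.unusedSectionVars false
namespace Pool.Agent.H76Q
open Module Matrix Pool.Agent.H53Toric
open Pool.Agent.H76P
open Pool.Agent.H76T (IsIdeal Fam)
open Pool.Agent.H76V (Cmp)

variable {κ : Type*} [Fintype κ] [DecidableEq κ] {Y : Submodule ℚ (κ → ℚ)} {P : Module.End ℚ Y}

theorem b2_compl (f : Y) (k : κ) :
    (((1 - P) f : Y) : κ → ℚ) k = (f : κ → ℚ) k - (P f : κ → ℚ) k := by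
  rw [LinearMap.sub_apply, Module.End.one_apply, Submodule.coe_sub, Pi.sub_apply]

/-- PROOF. `h.mix k' k`: `f c = f k' + (P f) k - (P f) k'`; apply it to `P f` and to `f - P f`. -/
theorem Sp.exists_mx (h : Sp P) (k k' : κ) : ∃ c, cz P c k ∧ cz (1 - P) c k' := by
  obtain ⟨c, hc⟩ := h.mix k' k
  have hPP : ∀ f : Y, P (P f) = P f := fun f => by
    have h1 : (P * P) f = P f := by rw [h.idem]
    exact h1
  have h1 : ∀ f : Y, (P f : κ → ℚ) c = (P f : κ → ℚ) k := by
    intro f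
    have h2 := hc (P f)
    rw [hPP] at h2
    rw [h2]
    ring
  refine ⟨c, h1, fun f => ?_⟩
  rw [b2_compl, b2_compl, h1 f, hc f]
  ring

/-- PROOF. `f = P f + (1 - P) f`. -/
theorem cz_both (hsep : ∀ a b : κ, a ≠ b → ∃ f ∈ Y, f a ≠ f b) {k k' : κ} (h1 : cz P k k')
    (h2 : cz (1 - P) k k') : k = k' := by
  by_contra hne
  obtain ⟨f, hf, hab⟩ := hsep k k' hne
  apply hab
  have h3 := h1 ⟨f, hf⟩
  have h4 := h2 ⟨f, hf⟩
  rw [b2_compl, b2_compl, h3] at h4
  exact sub_left_injective h4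

theorem cz_symm {k k' : κ} (h : cz P k k') : cz P k' k := fun f => (h f).symm

theorem cz_trans {k k' k'' : κ} (h : cz P k k') (h' : cz P k' k'') : cz P k k'' :=
  fun f => (h f).trans (h' f)

/-- PROOF. A function which depends only on the first and only on the second coordinate is constant
(`exists_mx`); its sum is `0`. -/
theorem FunP_both [Nonempty κ] (h : Sp P) {f : κ → ℚ} (hs : ∑ k, f k = 0) (h1 : FunP P f)
    (h2 : FunP (1 - P) f) : f = 0 := by
  obtain ⟨k₀⟩ := ‹Nonempty κ›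
  have h3 : ∀ k, f k = f k₀ := by
    intro k
    obtain ⟨c, hc1, hc2⟩ := h.exists_mx k k₀
    rw [← h1 c k hc1, h2 c k₀ hc2]
  have h4 : (Fintype.card κ : ℚ) * f k₀ = 0 := by
    rw [← hs, Finset.sum_congr rfl fun k _ => h3 k, Finset.sum_const, Finset.card_univ,
      nsmul_eq_mul]
  have h5 : (Fintype.card κ : ℚ) ≠ 0 := by
    have : Nonempty κ := ⟨k₀⟩
    exact_mod_cast Fintype.card_ne_zero
  have h6 : f k₀ = 0 := (mul_eq_zero.1 h4).resolve_left h5
  funext k
  rw [h3 k, h6, Pi.zero_apply]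

/-- PROOF. `P f` depends only on the first coordinate (definition).  If `f` does, then `(1 - P) f = f - P f` depends
only on the first and only on the second coordinate, so is `0` (`FunP_both`; the elements of `Y` have sum `0`). -/
theorem FunP_iff [Nonempty κ] (h : Sp P) (hs : ∀ f ∈ Y, ∑ k, f k = 0) (f : Y) :
    FunP P (f : κ → ℚ) ↔ P f = f := by
  constructor
  · intro hf
    have h1 : (((1 - P) f : Y) : κ → ℚ) = 0 := by
      refine FunP_both h (hs _ ((1 - P) f).2) ?_ ?_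
      · intro k k' hk
        rw [b2_compl, b2_compl, hf k k' hk, hk f]
      · intro k k' hk
        exact hk f
    have h2 : (1 - P) f = 0 := Subtype.ext h1
    rw [LinearMap.sub_apply, Module.End.one_apply, sub_eq_zero] at h2
    exact h2.symm
  · intro hf k k' hk
    have h1 := hk f
    rw [hf] at h1
    exact h1

end Pool.Agent.H76Q
end

-- from Lib.H76Q.C3
section

/-!
# diagonal elements in the algebras
-/

set_option autoImplicit false
set_option linter.unusedSectionVars false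
namespace Pool.Agent.H76Q
open Module Matrix Pool.Agent.H53Toric
open Pool.Agent.H76P
open Pool.Agent.H76T (IsIdeal Fam)
open Pool.Agent.H76V (Cmp)

variable {κ : Type*} {K : Type*} [Field K] [CharZero K] [Fintype κ] [DecidableEq κ]
  {L : Submodule K (Module.End K (κ → K))} {J : Matrix κ κ K} [IsAlgClosed K] [Nonempty κ]
  {Y : Submodule ℚ (κ → ℚ)} {P : Module.End ℚ Y}

theorem c3_fsum {ι : Type*} (s : Finset ι) {Q : Module.End ℚ Y} {g : ι → κ → ℚ}
    (hg : ∀ i ∈ s, FunP Q (g i)) : FunP Q (∑ i ∈ s, g i) := by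
  intro k k' hk
  rw [Finset.sum_apply, Finset.sum_apply]
  exact Finset.sum_congr rfl fun i hi => hg i hi k k' hk

theorem c3_dsum {ι : Type*} (s : Finset ι) (g : ι → κ → ℚ) :
    (dq (∑ i ∈ s, g i) : Module.End K (κ → K)) = ∑ i ∈ s, dq (g i) := by
  classical
  induction s using Finset.induction_on with
  | empty =>
    rw [Finset.sum_empty, Finset.sum_empty]
    refine LinearMap.ext fun v => funext fun a => ?_
    simp [dq, dg_apply]
  | insert a s ha ih => rw [Finset.sum_insert ha, Finset.sum_insert ha, dq_add, ih]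

/-- PROOF. `exists_fam`; `exists_decomp` (H76P.T13): `f = ∑ g j`, `g j ∈ Yo L`, `dq (g j) ∈ I j`.  Let `g'` be the sum of the `g j` with `InP P (I j)`,
`g'' = f - g'`.  `g''` depends only on the first coordinate (`f` and `g'` do) and only on the second (`hc`), so `g'' = 0` (`FunP_both`, `Yo_sum`).  So
`dq f = ∑ dq (g j)`, `j` with `InP P (I j)`, is in `AZ L P`. -/
theorem dq_AZ (h : TS L J) (hY : Yo L = Y) (hP : Sp P) (hc : Comp L P) {f : κ → ℚ} (hf : f ∈ Y)
    (hfP : FunP P f) : dq f ∈ AZ L P := by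
  classical
  obtain ⟨m, I, hF⟩ := H76T.exists_fam h.cmp.lie h.cmp.irr h.cmp.tr
  have hf' : f ∈ Yo L := by rw [hY]; exact hf
  obtain ⟨g, hg, hsum⟩ := exists_decomp h.cmp hF hf'
  set S : Finset (Fin m) := Finset.univ.filter fun j => InP P (I j) with hS
  have hSg : ∀ i ∈ S, FunP P (g i) := by
    intro i hi
    have h1 : InP P (I i) := (Finset.mem_filter.1 hi).2
    exact h1 (g i) (hY ▸ (hg i).1) (hg i).2
  have hSg' : ∀ i ∈ Sᶜ, FunP (1 - P) (g i) := by
    intro i hi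
    have h1 : ¬ InP P (I i) := by
      intro h2
      rw [Finset.mem_compl] at hi
      exact hi (Finset.mem_filter.2 ⟨Finset.mem_univ i, h2⟩)
    rcases hc m I hF i with h2 | h2
    · exact absurd h2 h1
    · exact h2 (g i) (hY ▸ (hg i).1) (hg i).2
  have hsplit : f = ∑ i ∈ S, g i + ∑ i ∈ Sᶜ, g i := by
    rw [Finset.sum_add_sum_compl, hsum]
  have h1 : FunP P (∑ i ∈ Sᶜ, g i) := by
    have h2 : ∑ i ∈ Sᶜ, g i = f - ∑ i ∈ S, g i := by
      rw [hsplit]
      abel
    rw [h2]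
    intro k k' hk
    rw [Pi.sub_apply, Pi.sub_apply, hfP k k' hk, c3_fsum S hSg k k' hk]
  have h2 : FunP (1 - P) (∑ i ∈ Sᶜ, g i) := c3_fsum _ hSg'
  have h3 : ∑ i ∈ Sᶜ, g i ∈ Yo L := Submodule.sum_mem _ fun i _ => (hg i).1
  have h4 := FunP_both hP (Yo_sum h.cmp h3) h1 h2
  rw [hsplit, h4, add_zero, c3_dsum]
  refine (AZ L P).sum_mem fun i hi => ?_
  exact Algebra.subset_adjoin ⟨I i, hF.ideal i, (Finset.mem_filter.1 hi).2, (hg i).2⟩

/-- PROOF. `exists_fam`, `Fam.one` (H76T.TA2) with `a = 0`, `b = -1`: `y ∈ I j`; `hc`. -/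
theorem inv_AZ (h : TS L J) (hc : Comp L P) {y : Module.End K (κ → K)} (hy : y ∈ L)
    (hyy : y * y = 1) : ∃ I, IsIdeal L I ∧ y ∈ I ∧ (InP P I ∨ InP (1 - P) I) := by
  obtain ⟨m, I, hF⟩ := H76T.exists_fam h.cmp.lie h.cmp.irr h.cmp.tr
  have hy0 : y ≠ 0 := by
    intro h0
    rw [h0, mul_zero] at hyy
    exact zero_ne_one hyy
  obtain ⟨j, hj⟩ := hF.one h.cmp.irr h.cmp.tr hy hy0 (a := 0) (b := -1) (by rw [hyy]; module)
  exact ⟨I j, hF.ideal j, hj, hc m I hF j⟩

end Pool.Agent.H76Q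
end

-- from Lib.H76Q.F2
section

/-!
# an entry which is a unit
-/

set_option autoImplicit false
set_option linter.unusedSectionVars false
namespace Pool.Agent.H76Q
open Module Matrix Polynomial Pool.Agent.H53Toric
open Pool.Agent.H76P
open Pool.Agent.H76T (IsIdeal Fam Lc)
open Pool.Agent.H76V (Cmp)
open Pool.Agent.H76U (cmp preL IsSplitting)
open Pool.Agent.H76RM (spanK similD)

variable {ι : Type*} [Fintype ι] [DecidableEq ι] {K : Type*} [Field K] [CharZero K]
  [IsAlgClosed K]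

theorem f2_sum {v : K → ℚ} (hv : IsVal v) {α : Type*} (s : Finset α) (f : α → K) (c : ℚ) :
    (∀ i ∈ s, f i ≠ 0 → c ≤ v (f i)) → ∑ i ∈ s, f i ≠ 0 → c ≤ v (∑ i ∈ s, f i) := by
  classical
  induction s using Finset.induction_on with
  | empty => intro _ h; simp at h
  | insert a s ha ih =>
    intro h hne
    rw [Finset.sum_insert ha] at hne ⊢
    have ih' := ih (fun i hi => h i (Finset.mem_insert_of_mem hi))
    by_cases h1 : f a = 0
    · rw [h1, zero_add] at hne ⊢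
      exact ih' hne
    · by_cases h2 : ∑ i ∈ s, f i = 0
      · rw [h2, add_zero]
        exact h a (Finset.mem_insert_self _ _) h1
      · exact le_trans (le_min (h a (Finset.mem_insert_self _ _) h1) (ih' h2)) (hv.add _ _ h1 h2 hne)

theorem f2_mul {v : K → ℚ} (hv : IsVal v) {A B : Matrix ι ι K} {c c' : ℚ}
    (hA : ∀ i j, A i j ≠ 0 → c ≤ v (A i j)) (hB : ∀ i j, B i j ≠ 0 → c' ≤ v (B i j)) :
    ∀ i j, (A * B) i j ≠ 0 → c + c' ≤ v ((A * B) i j) := by
  intro i j hij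
  rw [Matrix.mul_apply] at hij ⊢
  apply f2_sum hv _ _ _ _ hij
  intro k _ hk
  have h1 : A i k ≠ 0 := left_ne_zero_of_mul hk
  have h2 : B k j ≠ 0 := right_ne_zero_of_mul hk
  rw [hv.mul _ _ h1 h2]
  exact add_le_add (hA i k h1) (hB k j h2)

/-- PROOF. Otherwise all nonzero entries of `A` have `v > 0`, so there is `ε > 0` with `v ≥ ε` for all nonzero entries of `A`, hence of `e = A * B` and, by induction, `v ≥ N ε` for the nonzero
entries of `e = e ^ N`, for all `N`.  Contradiction to `e ≠ 0`. -/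
theorem exists_unit_entry {v : K → ℚ} (hv : IsVal v) {e A B : Matrix ι ι K} (he : e * e = e)
    (he0 : e ≠ 0) (hA : IntMat v A) (hB : IntMat v B) (hAB : A * B = e) :
    ∃ k l, A k l ≠ 0 ∧ v (A k l) = 0 := by
  by_contra hcon
  push Not at hcon
  have hpos : ∀ k l, A k l ≠ 0 → 0 < v (A k l) := fun k l h =>
    lt_of_le_of_ne (hA k l h) (Ne.symm (hcon k l h))
  have hex : ∃ ε : ℚ, 0 < ε ∧ ∀ k l, A k l ≠ 0 → ε ≤ v (A k l) := by
    classical
    let s : Finset (ι × ι) := Finset.univ.filter fun p => A p.1 p.2 ≠ 0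
    by_cases hs : s.Nonempty
    · obtain ⟨p, hp, hmin⟩ := Finset.exists_min_image s (fun p => v (A p.1 p.2)) hs
      refine ⟨v (A p.1 p.2), hpos _ _ (Finset.mem_filter.1 hp).2, ?_⟩
      intro k l hkl
      exact hmin (k, l) (Finset.mem_filter.2 ⟨Finset.mem_univ _, hkl⟩)
    · refine ⟨1, one_pos, ?_⟩
      intro k l hkl
      exact absurd ⟨(k, l), Finset.mem_filter.2 ⟨Finset.mem_univ _, hkl⟩⟩ hs
  obtain ⟨ε, hε, hεA⟩ := hex
  have h1 : ∀ k l, e k l ≠ 0 → ε ≤ v (e k l) := by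
    intro k l hkl
    rw [← hAB] at hkl ⊢
    have := f2_mul hv hεA (c' := 0) (fun i j h => hB i j h) k l hkl
    rwa [add_zero] at this
  have hN : ∀ N : ℕ, ∀ k l, e k l ≠ 0 → ((N : ℚ) + 1) * ε ≤ v (e k l) := by
    intro N
    induction N with
    | zero =>
      intro k l hkl
      have := h1 k l hkl
      simpa using this
    | succ N ih =>
      intro k l hkl
      have hkl' : (e * e) k l ≠ 0 := by rwa [he]
      have := f2_mul hv ih h1 k l hkl'
      rw [he] at this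
      calc (((N + 1 : ℕ) : ℚ) + 1) * ε = ((N : ℚ) + 1) * ε + ε := by push_cast; ring
        _ ≤ v (e k l) := this
  have hne : ∃ k l, e k l ≠ 0 := by
    by_contra h
    push Not at h
    apply he0
    ext i j
    exact h i j
  obtain ⟨k, l, hkl⟩ := hne
  obtain ⟨N, hN'⟩ := exists_nat_gt (v (e k l) / ε)
  have h2 := hN N k l hkl
  rw [div_lt_iff₀ hε] at hN'
  nlinarith

/-- PROOF. `v 1 = v 1 + v 1`, `v (x⁻¹) = - v x`, `v (-1) = 0` because `2 v (-1) = v 1 = 0`. -/
theorem IsVal.basic {v : K → ℚ} (hv : IsVal v) : v 1 = 0 ∧ v (-1) = 0 ∧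
    (∀ y, y ≠ 0 → v y⁻¹ = - v y) ∧ ∀ y, y ≠ 0 → ∀ n : ℕ, v (y ^ n) = n * v y := by
  have h1 : v 1 = 0 := by
    have := hv.mul 1 1 one_ne_zero one_ne_zero
    rw [mul_one] at this
    linarith
  have h2 : v (-1) = 0 := by
    have hm : (-1 : K) ≠ 0 := neg_ne_zero.2 one_ne_zero
    have := hv.mul (-1) (-1) hm hm
    rw [neg_one_mul, neg_neg, h1] at this
    linarith
  refine ⟨h1, h2, ?_, ?_⟩
  · intro y hy
    have := hv.mul y y⁻¹ hy (inv_ne_zero hy)
    rw [mul_inv_cancel₀ hy, h1] at this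
    linarith
  · intro y hy n
    induction n with
    | zero => simpa using h1
    | succ n ih =>
      rw [pow_succ, hv.mul _ _ (pow_ne_zero n hy) hy, ih]
      push_cast
      ring

end Pool.Agent.H76Q
end

-- from Lib.H76Q.X9
section

/-!
# linked idempotents
-/

set_option autoImplicit false
set_option linter.unusedSectionVars false
namespace Pool.Agent.H76Q
open Module Matrix Polynomial TensorProduct Pool.Agent.H53Toric
open Pool.Agent.H76P
open Pool.Agent.H76T (IsIdeal Fam Lc)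
open Pool.Agent.H76V (Cmp)
open Pool.Agent.H76U (cmp preL IsSplitting)
open Pool.Agent.H76RM (spanK similD)

variable {ι : Type*} [Fintype ι] [DecidableEq ι] {D : Subalgebra ℚ (Matrix ι ι ℚ)}

/-- `e` and `e'` are equivalent idempotents of the algebra spanned by `D`. -/
def Pr (D : Subalgebra ℚ (Matrix ι ι ℚ)) {K : Type*} [Field K] [CharZero K]
    (e e' : Matrix ι ι K) : Prop :=
  ∃ a ∈ spanK K D, ∃ a' ∈ spanK K D, a * a' = e' ∧ a' * a = e ∧ e * a' = a' ∧ a' * e' = a' ∧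
    e' * a = a ∧ a * e = a

/-- PROOF. Products `a₂ * a₁`, `a₁' * a₂'`. -/
theorem Pr.trans {K : Type*} [Field K] [CharZero K] {e e' e'' : Matrix ι ι K} (h : Pr D e e')
    (h' : Pr D e' e'') : Pr D e e'' := by
  obtain ⟨a, ha, a', ha', h1, h2, h3, h4, h5, h6⟩ := h
  obtain ⟨b, hb, b', hb', k1, k2, k3, k4, k5, k6⟩ := h'
  refine ⟨b * a, H76U.spanK_mul hb ha, a' * b', H76U.spanK_mul ha' hb', ?_, ?_, ?_, ?_, ?_, ?_⟩
  · calc b * a * (a' * b') = b * ((a * a') * b') := by simp only [Matrix.mul_assoc]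
      _ = e'' := by rw [h1, k3, k1]
  · calc a' * b' * (b * a) = a' * ((b' * b) * a) := by simp only [Matrix.mul_assoc]
      _ = e := by rw [k2, h5, h2]
  · rw [← Matrix.mul_assoc, h3]
  · rw [Matrix.mul_assoc, k4]
  · rw [← Matrix.mul_assoc, k5]
  · rw [Matrix.mul_assoc, h6]

/-- PROOF. `spanK` is mapped to `spanK` (the elements of `D` are rational). -/
theorem Pr.map {K K' : Type*} [Field K] [CharZero K] [Field K'] [CharZero K'] (i : K →+* K')
    {e e' : Matrix ι ι K} (h : Pr D e e') : Pr D (e.map i) (e'.map i) := by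
  obtain ⟨a, ha, a', ha', h1, h2, h3, h4, h5, h6⟩ := h
  refine ⟨a.map i, H76U.spanK_map i ha, a'.map i, H76U.spanK_map i ha', ?_, ?_, ?_, ?_, ?_, ?_⟩
  · rw [← H76U.map_mul', h1]
  · rw [← H76U.map_mul', h2]
  · rw [← H76U.map_mul', h3]
  · rw [← H76U.map_mul', h4]
  · rw [← H76U.map_mul', h5]
  · rw [← H76U.map_mul', h6]

/-- PROOF. `e₁ = (e b).map j`, `e₂ = (e b).map (s.toRingHom.comp j)`; both belong to families as in `IsSplitting` (over `Ω`: the images of `hspl` under `j` and under `s ∘ j`; in G8 there are similar arguments).  Let `w = e₁ * d * e₂ ≠ 0`.  By `full` for the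
family of `j` there are `x ∈ spanK Ω D`, `b'`, `u` with `w *ᵥ (x *ᵥ (e_b' *ᵥ u)) ≠ 0`, so `w * x * e_b' ≠ 0`, where `w = e₁ * w`, so `b' = b` (`orth`), and `e₁ * (w * x) * e₁ = c • e₁` (`corner`), `c ≠ 0`.  Put `a = c⁻¹ • (e₂ * x * e₁)`, `a' = e₁ * w * e₂ = w`: `a' * a = e₁`; `a * a'`
is an idempotent, in `e₂ * spanK * e₂ = Ω • e₂` (`corner` for the family of `s ∘ j`), not `0`, so equal to `e₂`. -/
theorem pr_of_linked {ψ : Matrix ι ι ℚ} {M : Type*} [Field M] [NumberField M] {m : ℕ}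
    {e : Fin m → Matrix ι ι M} (hspl : IsSplitting D ψ id e) {Ω : Type*} [Field Ω] [CharZero Ω]
    (j : M →+* Ω) (s : Ω ≃+* Ω) (b : Fin m)
    (h : Linked D ((e b).map j) ((e b).map (s.toRingHom.comp j))) :
    Pr D ((e b).map j) ((e b).map (s.toRingHom.comp j)) := by
  obtain ⟨d, hd, hne⟩ := h
  have S1 := hspl.map j
  have S2 := hspl.map (s.toRingHom.comp j)
  set e₁ : Matrix ι ι Ω := (e b).map j with he₁
  set e₂ : Matrix ι ι Ω := (e b).map (s.toRingHom.comp j) with he₂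
  have m1 : e₁ ∈ spanK Ω D := S1.mem b
  have m2 : e₂ ∈ spanK Ω D := S2.mem b
  have i1 : e₁ * e₁ = e₁ := S1.idem b
  have i2 : e₂ * e₂ = e₂ := S2.idem b
  have n1 : e₁ ≠ 0 := S1.ne_zero b
  have n2 : e₂ ≠ 0 := S2.ne_zero b
  -- a generator on which `w` does not vanish
  obtain ⟨x, hx, b', hb'⟩ : ∃ x ∈ spanK Ω D, ∃ b', e₁ * d * e₂ * x * (e b').map j ≠ 0 := by
    by_contra hcon
    push Not at hcon
    apply hne
    have h1 : ∀ v : ι → Ω, (e₁ * d * e₂) *ᵥ v = 0 := by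
      intro v
      refine Submodule.span_induction (p := fun v _ => (e₁ * d * e₂) *ᵥ v = 0) ?_ ?_ ?_ ?_
        (S1.full v)
      · rintro _ ⟨x, hx, b', u, rfl⟩
        rw [Matrix.mulVec_mulVec, Matrix.mulVec_mulVec, hcon x hx b', Matrix.zero_mulVec]
      · rw [Matrix.mulVec_zero]
      · intro y z _ _ hy hz
        rw [Matrix.mulVec_add, hy, hz, add_zero]
      · intro c y _ hy
        rw [Matrix.mulVec_smul, hy, smul_zero]
    ext i k
    have h2 := congrFun (h1 (Pi.single k 1)) i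
    rw [Matrix.mulVec_single_one] at h2
    exact h2
  have hbb : b' = b := by
    by_contra hcon
    apply hb'
    have h1 := S1.orth b b' (Ne.symm hcon) (d * (e₂ * x))
      (H76U.spanK_mul hd (H76U.spanK_mul m2 hx))
    rw [← h1]
    simp only [Matrix.mul_assoc, he₁]
  subst hbb
  have hb'' : e₁ * (d * (e₂ * x)) * e₁ ≠ 0 := by
    intro h1
    apply hb'
    rw [← h1]
    simp only [Matrix.mul_assoc, he₁]
  obtain ⟨c, hc⟩ := S1.corner b' (d * (e₂ * x)) (H76U.spanK_mul hd (H76U.spanK_mul m2 hx))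
  change e₁ * (d * (e₂ * x)) * e₁ = c • e₁ at hc
  have hc0 : c ≠ 0 := by
    intro h1
    apply hb''
    rw [hc, h1, zero_smul]
  obtain ⟨c', hc'⟩ := S2.corner b' (x * (e₁ * d)) (H76U.spanK_mul hx (H76U.spanK_mul m1 hd))
  change e₂ * (x * (e₁ * d)) * e₂ = c' • e₂ at hc'
  have ha'a : e₁ * d * e₂ * (c⁻¹ • (e₂ * x * e₁)) = e₁ := by
    rw [Matrix.mul_smul]
    calc c⁻¹ • (e₁ * d * e₂ * (e₂ * x * e₁)) = c⁻¹ • (e₁ * (d * ((e₂ * e₂) * x)) * e₁) := by
          simp only [Matrix.mul_assoc]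
      _ = e₁ := by rw [i2, hc, smul_smul, inv_mul_cancel₀ hc0, one_smul]
  have haa' : c⁻¹ • (e₂ * x * e₁) * (e₁ * d * e₂) = (c⁻¹ * c') • e₂ := by
    rw [Matrix.smul_mul]
    calc c⁻¹ • (e₂ * x * e₁ * (e₁ * d * e₂)) = c⁻¹ • (e₂ * (x * ((e₁ * e₁) * d)) * e₂) := by
          simp only [Matrix.mul_assoc]
      _ = (c⁻¹ * c') • e₂ := by rw [i1, hc', smul_smul]
  have ht : c⁻¹ * c' = 1 := by
    set t := c⁻¹ * c' with ht
    set A := c⁻¹ • (e₂ * x * e₁) with hA
    set A' := e₁ * d * e₂ with hA'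
    have h1 : A * A' * (A * A') = A * A' := by
      calc A * A' * (A * A') = A * ((A' * A) * A') := by simp only [Matrix.mul_assoc]
        _ = A * (e₁ * A') := by rw [ha'a]
        _ = A * A' := by
          have h7 : e₁ * A' = A' := by
            rw [hA']
            calc e₁ * (e₁ * d * e₂) = (e₁ * e₁) * d * e₂ := by simp only [Matrix.mul_assoc]
              _ = e₁ * d * e₂ := by rw [i1]
          rw [h7]
    rw [haa', Matrix.smul_mul, Matrix.mul_smul, i2, smul_smul] at h1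
    have h2 : (t * t - t) • e₂ = 0 := by rw [sub_smul, h1, sub_self]
    have h3 : t * t - t = 0 := (smul_eq_zero.1 h2).resolve_right n2
    have h4 : t ≠ 0 := by
      intro h0
      apply n1
      have h5 : A' * A * (A' * A) = 0 := by
        calc A' * A * (A' * A) = A' * ((A * A') * A) := by simp only [Matrix.mul_assoc]
          _ = 0 := by rw [haa', h0, zero_smul, Matrix.zero_mul, Matrix.mul_zero]
      rw [ha'a, i1] at h5
      exact h5
    have h5 : t * (t - 1) = 0 := by rw [← h3]; ring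
    exact sub_eq_zero.1 ((mul_eq_zero.1 h5).resolve_left h4)
  rw [ht, one_smul] at haa'
  refine ⟨c⁻¹ • (e₂ * x * e₁), (spanK Ω D).smul_mem _ (H76U.spanK_mul (H76U.spanK_mul m2 hx) m1),
    e₁ * d * e₂, H76U.spanK_mul (H76U.spanK_mul m1 hd) m2, haa', ha'a, ?_, ?_, ?_, ?_⟩
  · rw [← Matrix.mul_assoc, ← Matrix.mul_assoc, i1]
  · rw [Matrix.mul_assoc, i2]
  · rw [Matrix.mul_smul, ← Matrix.mul_assoc, ← Matrix.mul_assoc, i2]
  · rw [Matrix.smul_mul, Matrix.mul_assoc, i1]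

/-- PROOF. Induction on `u` with `Pr.trans` and `Pr.map s`; `u = 0`: `Pr D e₁ e₁` with `a = a' = e₁` (`hspl.mem`, `hspl.idem`). -/
theorem pr_pow {ψ : Matrix ι ι ℚ} {M : Type*} [Field M] [NumberField M] {m : ℕ}
    {e : Fin m → Matrix ι ι M} (hspl : IsSplitting D ψ id e) {Ω : Type*} [Field Ω] [CharZero Ω]
    (j : M →+* Ω) (s : Ω ≃+* Ω) (b : Fin m)
    (h : Linked D ((e b).map j) ((e b).map (s.toRingHom.comp j))) (u : ℕ) :
    Pr D ((e b).map j) ((e b).map ((s ^ u).toRingHom.comp j)) := by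
  induction u with
  | zero =>
    have S1 := hspl.map j
    have m1 : (e b).map j ∈ spanK Ω D := S1.mem b
    have i1 : (e b).map j * (e b).map j = (e b).map j := S1.idem b
    have h1 : (e b).map ((s ^ 0).toRingHom.comp j) = (e b).map j := by
      ext x y
      rw [pow_zero]
      rfl
    rw [h1]
    exact ⟨(e b).map j, m1, (e b).map j, m1, i1, i1, i1, i1, i1, i1⟩
  | succ u ih =>
    have h1 := ih.map s.toRingHom
    have h2 : ((e b).map j).map s.toRingHom = (e b).map (s.toRingHom.comp j) := by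
      ext x y
      rfl
    have h3 : ((e b).map ((s ^ u).toRingHom.comp j)).map s.toRingHom =
        (e b).map ((s ^ (u + 1)).toRingHom.comp j) := by
      ext x y
      rw [pow_succ']
      rfl
    rw [h2, h3] at h1
    exact (pr_of_linked hspl j s b h).trans h1

end Pool.Agent.H76Q
end

-- from Lib.H76Q.C1
section

/-!
# the algebras of the two factors commute
-/

set_option autoImplicit false
set_option linter.unusedSectionVars false
namespace Pool.Agent.H76Q
open Module Matrix Pool.Agent.H53Toric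
open Pool.Agent.H76P
open Pool.Agent.H76T (IsIdeal Fam)
open Pool.Agent.H76V (Cmp)

variable {κ : Type*} {K : Type*} [Field K] [CharZero K] [Fintype κ] [DecidableEq κ]
  {L : Submodule K (Module.End K (κ → K))} {J : Matrix κ κ K} [IsAlgClosed K] [Nonempty κ]
  {Y : Submodule ℚ (κ → ℚ)} {P : Module.End ℚ Y}

theorem c1_min (h : Cmp L J) {m : ℕ} {I : Fin m → Submodule K (Module.End K (κ → K))}
    (hF : Fam L I) {Z : Submodule K (Module.End K (κ → K))} (hZ : IsIdeal L Z) (hZ0 : Z ≠ ⊥) :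
    ∃ j, I j ≤ Z := by
  obtain ⟨X, hX, hX0⟩ := (Submodule.ne_bot_iff _).1 hZ0
  have h1 : ∃ i, ∃ Y ∈ I i, X * Y ≠ Y * X := by
    by_contra hcon
    push Not at hcon
    exact hX0 (t4_zero h hF (hZ.1 hX) hcon)
  obtain ⟨i, Y, hY, hXY⟩ := h1
  refine ⟨i, ?_⟩
  have h2 : X * Y - Y * X ∈ I i := (hF.ideal i).2 X (hZ.1 hX) Y hY
  have h3 : X * Y - Y * X ∈ Z := by
    have h4 := hZ.2 Y ((hF.ideal i).1 hY) X hX
    have h5 := Z.neg_mem h4
    rwa [neg_sub] at h5
  have h6 : IsIdeal L (Z ⊓ I i) := by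
    refine ⟨inf_le_left.trans hZ.1, fun A hA B hB => ?_⟩
    exact ⟨hZ.2 A hA B hB.1, (hF.ideal i).2 A hA B hB.2⟩
  rcases hF.min i (Z ⊓ I i) h6 inf_le_right with h7 | h7
  · exfalso
    have h8 : X * Y - Y * X ∈ Z ⊓ I i := ⟨h3, h2⟩
    rw [h7, Submodule.mem_bot, sub_eq_zero] at h8
    exact hXY h8
  · exact inf_eq_right.1 h7

theorem c1_bot (h : TS L J) (hY : Yo L = Y) (hP : Sp P)
    {Z Z' : Submodule K (Module.End K (κ → K))} (hZ : IsIdeal L Z) (hZ' : IsIdeal L Z')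
    (h1 : InP P Z) (h2 : InP (1 - P) Z') : Z ⊓ Z' = ⊥ := by
  by_contra hne
  obtain ⟨m, I, hF⟩ := H76T.exists_fam h.cmp.lie h.cmp.irr h.cmp.tr
  have hid : IsIdeal L (Z ⊓ Z') := by
    refine ⟨inf_le_left.trans hZ.1, fun A hA B hB => ?_⟩
    exact ⟨hZ.2 A hA B hB.1, hZ'.2 A hA B hB.2⟩
  obtain ⟨j, hj⟩ := c1_min h.cmp hF hid hne
  obtain ⟨f, hf, hf0, hfj⟩ := h.exists_diag hF j
  have h3 := hj hfj
  apply hf0
  have hfY : f ∈ Y := hY ▸ hf
  exact FunP_both hP (Yo_sum h.cmp hf) (h1 f hfY h3.1) (h2 f hfY h3.2)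

theorem c1_gen (h : TS L J) (hY : Yo L = Y) (hP : Sp P)
    {Z Z' : Submodule K (Module.End K (κ → K))} (hZ : IsIdeal L Z) (hZ' : IsIdeal L Z')
    (h1 : InP P Z) (h2 : InP (1 - P) Z') {X X' : Module.End K (κ → K)} (hX : X ∈ Z)
    (hX' : X' ∈ Z') : X * X' = X' * X := by
  have h3 := c1_bot h hY hP hZ hZ' h1 h2
  have h4 : X * X' - X' * X ∈ Z' := hZ'.2 X (hZ.1 hX) X' hX'
  have h5 : X * X' - X' * X ∈ Z := by
    have h6 := Z.neg_mem (hZ.2 X' (hZ'.1 hX') X hX)
    rwa [neg_sub] at h6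
  have h6 : X * X' - X' * X ∈ Z ⊓ Z' := ⟨h5, h4⟩
  rw [h3, Submodule.mem_bot, sub_eq_zero] at h6
  exact h6

/-- PROOF. `AZ` is generated by ideals.  Let `I`, `I'` be ideals of `L`, `InP P I`, `InP (1 - P) I'`.  A diagonal `dq f`, `f ∈ Y`, in `I ⊓ I'`
has `f = 0` (`FunP_both`, `Yo_sum`).  If `I ⊓ I' ≠ ⊥` it contains some `I j` of the family of minimal ideals (`exists_fam`; for `X ∈ I ⊓ I'` which does not commute
with `I j` the ideal spanned by the brackets is `I j`; if `X` commutes with all `I j` it is `0`, `t4_zero`), and `TS.exists_diag` gives `f ≠ 0`.  So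
`I ⊓ I' = ⊥`, and brackets of `I` with `I'` are in `I ⊓ I'`. -/
theorem AZ_comm (h : TS L J) (hY : Yo L = Y) (hP : Sp P) :
    ∀ X ∈ AZ L P, ∀ X' ∈ AZ L (1 - P), X * X' = X' * X := by
  set S1 : Set (Module.End K (κ → K)) := {X | ∃ I, IsIdeal L I ∧ InP P I ∧ X ∈ I} with hS1
  set S2 : Set (Module.End K (κ → K)) := {X | ∃ I, IsIdeal L I ∧ InP (1 - P) I ∧ X ∈ I} with hS2
  have h0 : ∀ X ∈ S1, ∀ X' ∈ S2, X * X' = X' * X := by
    rintro X ⟨Z, hZ, h1, hX⟩ X' ⟨Z', hZ', h2, hX'⟩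
    exact c1_gen h hY hP hZ hZ' h1 h2 hX hX'
  have h1 : Algebra.adjoin K S1 ≤ Subalgebra.centralizer K S2 := by
    refine Algebra.adjoin_le fun X hX => ?_
    rw [SetLike.mem_coe, Subalgebra.mem_centralizer_iff]
    intro X' hX'
    exact (h0 X hX X' hX').symm
  have h2 : Algebra.adjoin K S2 ≤ Subalgebra.centralizer K (Algebra.adjoin K S1 : Set (Module.End K (κ → K))) := by
    refine Algebra.adjoin_le fun X' hX' => ?_
    rw [SetLike.mem_coe, Subalgebra.mem_centralizer_iff]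
    intro X hX
    exact ((Subalgebra.mem_centralizer_iff K).1 (h1 hX) X' hX').symm
  intro X hX X' hX'
  exact (Subalgebra.mem_centralizer_iff K).1 (h2 hX') X hX

end Pool.Agent.H76Q
end

-- from Lib.H76Q.C2
section

/-!
# they generate all operators
-/

set_option autoImplicit false
set_option linter.unusedSectionVars false
namespace Pool.Agent.H76Q
open Module Matrix Pool.Agent.H53Toric
open Pool.Agent.H76P
open Pool.Agent.H76T (IsIdeal Fam)
open Pool.Agent.H76V (Cmp)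

variable {κ : Type*} {K : Type*} [Field K] [CharZero K] [Fintype κ] [DecidableEq κ]
  {L : Submodule K (Module.End K (κ → K))} {J : Matrix κ κ K} [IsAlgClosed K] [Nonempty κ]
  {Y : Submodule ℚ (κ → ℚ)} {P : Module.End ℚ Y}

/-- PROOF. `exists_fam`, `Fam.top` (H76T.TA2): each `I j` is in `AZ L P` or in `AZ L (1 - P)`. -/
theorem AZ_top (h : TS L J) (hc : Comp L P) : AZ L P ⊔ AZ L (1 - P) = ⊤ := by
  obtain ⟨m, I, hF⟩ := H76T.exists_fam h.cmp.lie h.cmp.irr h.cmp.tr
  rw [eq_top_iff, ← H76T.Fam.top hF h.cmp.irr]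
  refine Algebra.adjoin_le fun X hX => ?_
  obtain ⟨j, hj⟩ := Set.mem_iUnion.1 hX
  rcases hc m I hF j with h1 | h1
  · have h2 : X ∈ AZ L P := Algebra.subset_adjoin ⟨I j, hF.ideal j, h1, hj⟩
    exact (le_sup_left : AZ L P ≤ AZ L P ⊔ AZ L (1 - P)) h2
  · have h2 : X ∈ AZ L (1 - P) := Algebra.subset_adjoin ⟨I j, hF.ideal j, h1, hj⟩
    exact (le_sup_right : AZ L (1 - P) ≤ AZ L P ⊔ AZ L (1 - P)) h2

/-- PROOF. `X` commutes with `AZ L P ⊔ AZ L (1 - P) = ⊤`, so with all elements of `L`; `Cmp.gen`. -/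
theorem AZ_scalar (h : TS L J) (hc : Comp L P) {X : Module.End K (κ → K)}
    (h1 : ∀ A ∈ AZ L P, X * A = A * X) (h2 : ∀ A ∈ AZ L (1 - P), X * A = A * X) :
    ∃ c : K, X = c • 1 := by
  have h3 : AZ L P ⊔ AZ L (1 - P) ≤ Subalgebra.centralizer K {X} := by
    refine sup_le ?_ ?_
    · intro A hA
      rw [Subalgebra.mem_centralizer_iff]
      intro X' hX'
      rw [Set.mem_singleton_iff.1 hX']
      exact h1 A hA
    · intro A hA
      rw [Subalgebra.mem_centralizer_iff]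
      intro X' hX'
      rw [Set.mem_singleton_iff.1 hX']
      exact h2 A hA
  refine h.cmp.gen X fun y _ _ => ?_
  have h4 : y ∈ AZ L P ⊔ AZ L (1 - P) := by
    rw [AZ_top h hc]
    exact Algebra.mem_top
  exact (Subalgebra.mem_centralizer_iff K).1 (h3 h4) X (Set.mem_singleton X)

/-- PROOF. `1 - (1 - P) = P`. -/
theorem Comp.compl (hc : Comp L P) : Comp L (1 - P) := by
  intro m I hF j
  have h1 : (1 - (1 - P) : Module.End ℚ Y) = P := sub_sub_cancel 1 P
  rw [h1]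
  exact (hc m I hF j).symm

/-- PROOF. `AZ` is generated by elements `X` of `L`, `adjE J X = - X` (`Cmp.skew`); `adjE J` reverses products
(`H53Toric.adjE_mul` or similar). -/
theorem adj_AZ (h : TS L J) {X : Module.End K (κ → K)} (hX : X ∈ AZ L P) : adjE J X ∈ AZ L P := by
  have hone : adjE J (1 : Module.End K (κ → K)) = 1 := by
    have h2 := adjE_mul h.cmp.Jd (adjE J 1) (1 : Module.End K (κ → K))
    rw [mul_one, adjE_adjE h.cmp.Jt h.cmp.Jd, mul_one] at h2
    exact h2.symm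
  unfold AZ at hX
  induction hX using Algebra.adjoin_induction with
  | mem X hX =>
    obtain ⟨I, hI, hP, hXI⟩ := hX
    rw [h.cmp.skew X (hI.1 hXI)]
    exact (AZ L P).neg_mem (Algebra.subset_adjoin ⟨I, hI, hP, hXI⟩)
  | algebraMap r =>
    rw [Algebra.algebraMap_eq_smul_one, map_smul, hone, ← Algebra.algebraMap_eq_smul_one]
    exact (AZ L P).algebraMap_mem r
  | add a b _ _ ha hb =>
    rw [map_add]
    exact (AZ L P).add_mem ha hb
  | mul a b _ _ ha hb =>
    rw [adjE_mul h.cmp.Jd]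
    exact (AZ L P).mul_mem hb ha

end Pool.Agent.H76Q
end

-- from Lib.H76Q.C5
section

/-!
# pure tensors
-/

set_option autoImplicit false
set_option linter.unusedSectionVars false
namespace Pool.Agent.H76Q
open Module Matrix Pool.Agent.H53Toric
open Pool.Agent.H76P
open Pool.Agent.H76T (IsIdeal Fam)
open Pool.Agent.H76V (Cmp)

variable {κ : Type*} {K : Type*} [Field K] [CharZero K] [Fintype κ] [DecidableEq κ]
  {L : Submodule K (Module.End K (κ → K))} {J : Matrix κ κ K} [IsAlgClosed K] [Nonempty κ]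
  {Y : Submodule ℚ (κ → ℚ)} {P : Module.End ℚ Y}

theorem c5_adj_one {J : Matrix κ κ K} (hdet : IsUnit J.det) : adjE J (1 : Module.End K (κ → K)) = 1 := by
  have h1 : (1 : Module.End K (κ → K)) = phi (1 : Matrix κ κ K) := (map_one _).symm
  rw [h1, adjE_phi, Matrix.transpose_one, mul_one, Matrix.nonsing_inv_mul _ hdet]

theorem c5_two {A B : Module.End K (κ → K)} {c : K} (hc : c ≠ 0) (h : A * B = c • 1) : B * A = c • 1 := by
  have h1 : (c⁻¹ • A) * B = 1 := by
    rw [smul_mul_assoc, h, smul_smul, inv_mul_cancel₀ hc, one_smul]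
  have h2 : B * (c⁻¹ • A) = 1 := mul_eq_one_comm.mp h1
  rw [mul_smul_comm] at h2
  have h3 := congrArg (fun T => c • T) h2
  simpa [smul_smul, mul_inv_cancel₀ hc] using h3

/-- PROOF. `adjE J 1 = 1` because `J` is invertible (`Cmp.Jd`). -/
theorem PT_one (h : TS L J) : PT L J P 1 1 1 1 := by
  refine ⟨one_mem _, one_mem _, (mul_one 1).symm, one_ne_zero, ?_, 1, one_ne_zero, ?_⟩
  · rw [c5_adj_one h.cmp.Jd, mul_one, one_smul]
  · rw [c5_adj_one h.cmp.Jd, mul_one, one_smul]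

/-- PROOF. `u`'s and `r`'s commute (`AZ_comm`), `adjE J` reverses products. -/
theorem PT_mul (h : TS L J) (hY : Yo L = Y) (hP : Sp P) {X u r X' u' r' : Module.End K (κ → K)}
    {t t' : K} (h1 : PT L J P X u r t) (h2 : PT L J P X' u' r' t') :
    PT L J P (X * X') (u * u') (r * r') (t * t') := by
  obtain ⟨hu, hr, hX, ht, hadj, s, hs, hsr⟩ := h1
  obtain ⟨hu', hr', hX', ht', hadj', s', hs', hsr'⟩ := h2
  have hJ := h.cmp.Jd
  refine ⟨mul_mem hu hu', mul_mem hr hr', ?_, mul_ne_zero ht ht', ?_, s * s', mul_ne_zero hs hs', ?_⟩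
  · have h3 : u' * r = r * u' := AZ_comm h hY hP u' hu' r hr
    rw [hX, hX']
    calc u * r * (u' * r') = u * (r * u') * r' := by noncomm_ring
      _ = u * (u' * r) * r' := by rw [h3]
      _ = u * u' * (r * r') := by noncomm_ring
  · rw [adjE_mul hJ]
    calc adjE J u' * adjE J u * (u * u') = adjE J u' * (adjE J u * u) * u' := by noncomm_ring
      _ = (t * t') • 1 := by
          rw [hadj, mul_smul_comm, smul_mul_assoc, mul_one, hadj', smul_smul]
  · rw [adjE_mul hJ]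
    calc adjE J r' * adjE J r * (r * r') = adjE J r' * (adjE J r * r) * r' := by noncomm_ring
      _ = (s * s') • 1 := by
          rw [hsr, mul_smul_comm, smul_mul_assoc, mul_one, hsr', smul_smul]

/-- PROOF. `u * (t⁻¹ • adjE J u) = 1` (a left inverse of an operator of a finite dimensional space is a right inverse). -/
theorem PT_inv (h : TS L J) (hY : Yo L = Y) (hP : Sp P) {X X' u r : Module.End K (κ → K)} {t : K}
    (h1 : PT L J P X u r t) (hX : X * X' = 1) :
    ∃ r', PT L J P X' (t⁻¹ • adjE J u) r' t⁻¹ := by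
  obtain ⟨hu, hr, hXe, ht, hadj, s, hs, hsr⟩ := h1
  have hJ := h.cmp.Jd
  have hJt := h.cmp.Jt
  have hua : adjE J u ∈ AZ L P := adj_AZ h hu
  have hra : adjE J r ∈ AZ L (1 - P) := adj_AZ h hr
  have h2u := c5_two ht hadj
  have h2r := c5_two hs hsr
  have key : ∀ {v : Module.End K (κ → K)} {c : K}, c ≠ 0 → v * adjE J v = c • 1 →
      adjE J (c⁻¹ • adjE J v) * (c⁻¹ • adjE J v) = c⁻¹ • 1 := by
    intro v c hc hv
    rw [map_smul, adjE_adjE hJt hJ, smul_mul_smul_comm, hv, smul_smul]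
    congr 1
    field_simp
  refine ⟨s⁻¹ • adjE J r, Subalgebra.smul_mem _ hua _, Subalgebra.smul_mem _ hra _, ?_, inv_ne_zero ht, key ht h2u,
    s⁻¹, inv_ne_zero hs, key hs h2r⟩
  have hc : u * r = r * u := AZ_comm h hY hP u hu r hr
  have h3 : ((t⁻¹ • adjE J u) * (s⁻¹ • adjE J r)) * X = 1 := by
    rw [hXe, hc]
    calc (t⁻¹ • adjE J u) * (s⁻¹ • adjE J r) * (r * u)
        = (t⁻¹ • adjE J u) * (s⁻¹ • (adjE J r * r)) * u := by
          rw [smul_mul_assoc, smul_mul_assoc, smul_mul_assoc, mul_smul_comm, mul_smul_comm, smul_mul_assoc,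
            smul_mul_assoc]
          noncomm_ring
      _ = 1 := by
          rw [hsr, smul_smul, inv_mul_cancel₀ hs, one_smul, mul_one, smul_mul_assoc, hadj, smul_smul,
            inv_mul_cancel₀ ht, one_smul]
  exact (left_inv_eq_right_inv h3 hX).symm

/-- PROOF. `inv_AZ`, `adjE J y = - y` (`Cmp.skew`).  `X = ((1 + t) / 2) + ((t - 1) / 2) y`; `adjE J X * X = t`.  If `y` is in an ideal with `InP P`
take `u = X`, `r = 1`; otherwise `u = 1`, `r = X`. -/
theorem PT_par (h : TS L J) (hc : Comp L P) {y : Module.End K (κ → K)} (hy : y ∈ L)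
    (hyy : y * y = 1) {t : K} (ht : t ≠ 0) :
    PT L J P (((1 + t) / 2) • 1 + ((t - 1) / 2) • y) (((1 + t) / 2) • 1 + ((t - 1) / 2) • y) 1 t ∨
    PT L J P (((1 + t) / 2) • 1 + ((t - 1) / 2) • y) 1 (((1 + t) / 2) • 1 + ((t - 1) / 2) • y) 1 := by
  have hJ := h.cmp.Jd
  obtain ⟨I, hI, hyI, hIP⟩ := inv_AZ h hc hy hyy
  have hadj : adjE J (((1 + t) / 2) • 1 + ((t - 1) / 2) • y) * (((1 + t) / 2) • 1 + ((t - 1) / 2) • y) = t • 1 := by
    rw [map_add, map_smul, map_smul, c5_adj_one hJ, h.cmp.skew y hy]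
    have e1 : ∀ a b : K, (a • (1 : Module.End K (κ → K)) + b • -y)
        * (a • (1 : Module.End K (κ → K)) + b • y)
        = (a ^ 2 - b ^ 2) • (1 : Module.End K (κ → K)) := by
      intro a b
      have e2 : (a • (1 : Module.End K (κ → K)) + b • -y) * (a • (1 : Module.End K (κ → K)) + b • y)
          = (a * a) • (1 : Module.End K (κ → K)) - (b * b) • (y * y) := by
        have e3 : -y * y = -(y * y) := by
          refine LinearMap.ext fun v => ?_
          show -(y (y v)) = -(y (y v))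
          rfl
        rw [add_mul, mul_add, mul_add, smul_mul_smul_comm, smul_mul_smul_comm, smul_mul_smul_comm,
          smul_mul_smul_comm, one_mul, one_mul, mul_one, e3, smul_neg, smul_neg, mul_comm b a]
        abel
      rw [e2, hyy]
      module
    rw [e1]
    congr 1
    ring
  have hone : adjE J (1 : Module.End K (κ → K)) * 1 = (1 : K) • 1 := by
    rw [c5_adj_one hJ, mul_one, one_smul]
  rcases hIP with hP' | hP'
  · left
    have hyA : y ∈ AZ L P := Algebra.subset_adjoin ⟨I, hI, hP', hyI⟩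
    exact ⟨add_mem (Subalgebra.smul_mem _ (one_mem _) _) (Subalgebra.smul_mem _ hyA _), one_mem _, (mul_one _).symm, ht,
      hadj, 1, one_ne_zero, hone⟩
  · right
    have hyA : y ∈ AZ L (1 - P) := Algebra.subset_adjoin ⟨I, hI, hP', hyI⟩
    exact ⟨one_mem _, add_mem (Subalgebra.smul_mem _ (one_mem _) _) (Subalgebra.smul_mem _ hyA _), (one_mul _).symm,
      one_ne_zero, hone, t, ht, hadj⟩

/-- PROOF. `w = adjE J u * u'`: from `u r = u' r'` we get (multiply with `adjE J u` on the left and `adjE J r'` on the right)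
`t • r * adjE J r' = t₁ • w` (`t₁` the multiplier of `r'`), so `w ∈ AZ L P` is in `AZ L (1 - P)`, too; so it commutes with both (`AZ_comm`) and is a scalar
(`AZ_scalar`); `u * w = t • u'`. -/
theorem PT_unique (h : TS L J) (hY : Yo L = Y) (hP : Sp P) (hc : Comp L P)
    {X u r u' r' : Module.End K (κ → K)} {t t' : K} (h1 : PT L J P X u r t)
    (h2 : PT L J P X u' r' t') : ∃ c : K, c ≠ 0 ∧ u' = c • u ∧ t' = c ^ 2 * t := by
  obtain ⟨hu, hr, hX, ht, hadj, s, hs, hsr⟩ := h1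
  obtain ⟨hu', hr', hX', ht', hadj', s', hs', hsr'⟩ := h2
  have hJ := h.cmp.Jd
  have hua : adjE J u ∈ AZ L P := adj_AZ h hu
  have hra : adjE J r' ∈ AZ L (1 - P) := adj_AZ h hr'
  have h2u := c5_two ht hadj
  have h2r := c5_two hs' hsr'
  have hw : t • (r * adjE J r') = s' • (adjE J u * u') := by
    have h3 : adjE J u * (u * r) * adjE J r' = adjE J u * (u' * r') * adjE J r' := by rw [← hX, ← hX']
    calc t • (r * adjE J r') = (adjE J u * u) * r * adjE J r' := by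
          rw [hadj, smul_mul_assoc, smul_mul_assoc, one_mul]
      _ = adjE J u * (u * r) * adjE J r' := by noncomm_ring
      _ = adjE J u * (u' * r') * adjE J r' := h3
      _ = (adjE J u * u') * (r' * adjE J r') := by noncomm_ring
      _ = s' • (adjE J u * u') := by rw [h2r, mul_smul_comm, mul_one]
  have hwP : adjE J u * u' ∈ AZ L P := mul_mem hua hu'
  have hwQ : adjE J u * u' ∈ AZ L (1 - P) := by
    have h4 : adjE J u * u' = (s'⁻¹ * t) • (r * adjE J r') := by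
      rw [mul_smul, hw, smul_smul, inv_mul_cancel₀ hs', one_smul]
    rw [h4]
    exact Subalgebra.smul_mem _ (mul_mem hr hra) _
  obtain ⟨c₀, hc₀⟩ := AZ_scalar h hc (X := adjE J u * u')
    (fun A hA => (AZ_comm h hY hP A hA _ hwQ).symm) (fun A hA => AZ_comm h hY hP _ hwP A hA)
  have hu'e : u' = (t⁻¹ * c₀) • u := by
    have h5 : u * (adjE J u * u') = t • u' := by
      rw [← mul_assoc, h2u, smul_mul_assoc, one_mul]
    rw [hc₀, mul_smul_comm, mul_one] at h5
    rw [mul_smul, h5, smul_smul, inv_mul_cancel₀ ht, one_smul]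
  have h6 : t' • (1 : Module.End K (κ → K)) = ((t⁻¹ * c₀) ^ 2 * t) • 1 := by
    rw [← hadj', hu'e, map_smul, smul_mul_smul_comm, hadj, smul_smul]
    congr 1
    ring
  have h7 : t' = (t⁻¹ * c₀) ^ 2 * t := by
    have h8 : (t' - (t⁻¹ * c₀) ^ 2 * t) • (1 : Module.End K (κ → K)) = 0 :=
      (sub_smul t' ((t⁻¹ * c₀) ^ 2 * t) (1 : Module.End K (κ → K))).trans (sub_eq_zero.mpr h6)
    rcases smul_eq_zero.mp h8 with h9 | h9
    · exact sub_eq_zero.mp h9
    · exact absurd h9 one_ne_zero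
  refine ⟨t⁻¹ * c₀, ?_, hu'e, h7⟩
  intro h0
  rw [h0] at h7
  exact ht' (by rw [h7]; ring)

end Pool.Agent.H76Q
end

-- from Lib.H76Q.E4
section

/-!
# elements of the group are pure tensors
-/

set_option autoImplicit false
set_option linter.unusedSectionVars false
namespace Pool.Agent.H76Q
open Module Matrix Polynomial Pool.Agent.H53Toric
open Pool.Agent.H76P
open Pool.Agent.H76T (IsIdeal Fam Lc)
open Pool.Agent.H76V (Cmp)
open Pool.Agent.H76U (cmp preL IsSplitting)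
open Pool.Agent.H76RM (spanK similD)

variable {ι : Type*} [Fintype ι] [DecidableEq ι] {K : Type*} [Field K] [CharZero K]
  [IsAlgClosed K] {J : Matrix ι ι K} {S 𝓗 : Set (Matrix ι ι K)} {e x : Matrix ι ι K} {q : K} {n : ℕ}
  {U : Matrix ι (Fin n) K} {V : Matrix (Fin n) ι K} {d : Fin n → K}
  {Y : Submodule ℚ (Fin n → ℚ)}

/-- PROOF. `cmp` is multiplicative on elements which commute with `e` (`H76U.cmp_mul`). -/
theorem cmp_comm (h : Loc J S 𝓗 e x q U V d Y) {g : Matrix ι ι K}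
    (hg : g ∈ Submonoid.closure {y | ∃ k ∈ 𝓗, ∃ t : K, t ≠ 0 ∧ y = 1 + (t - 1) • k}) :
    g * e = e * g := by
  refine Submonoid.closure_induction (motive := fun m _ => m * e = e * m) ?_ ?_ ?_ hg
  · rintro _ ⟨k, hk, t, -, rfl⟩
    rw [add_mul, mul_add, one_mul, mul_one, smul_mul_assoc, mul_smul_comm, (h.par k hk).2.1]
  · rw [one_mul, mul_one]
  · intro a b _ _ ha hb
    rw [mul_assoc, hb, ← mul_assoc, ha, mul_assoc]

/-- PROOF. `Submonoid.closure_induction`: `PT_one`, `PT_mul` (with `cmp_mul`), `PT_par` for `y = phi (cmp U V (2 k - 1))`, `y * y = 1`,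
`cmp (1 + (t - 1) k) = ((1 + t) / 2) + ((t - 1) / 2) y` (`h.par`). -/
theorem gen_PT (h : Loc J S 𝓗 e x q U V d Y) {P : Module.End ℚ Y} (hP : Sp P)
    (hc : Comp (Lc J S U V) P) {g : Matrix ι ι K}
    (hg : g ∈ Submonoid.closure {y | ∃ k ∈ 𝓗, ∃ t : K, t ≠ 0 ∧ y = 1 + (t - 1) • k}) :
    ∃ u r t, PT (Lc J S U V) (Uᵀ * J * U) P (phi (cmp U V g)) u r t := by
  have hne : Nonempty (Fin n) := ⟨⟨0, h.pos⟩⟩
  refine Submonoid.closure_induction (motive := fun m _ => ∃ u r t,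
    PT (Lc J S U V) (Uᵀ * J * U) P (phi (cmp U V m)) u r t) ?_ ?_ ?_ hg
  · rintro _ ⟨k, hk, t, ht, rfl⟩
    obtain ⟨hkk, hke, -, hkL⟩ := h.par k hk
    have h2 : ((2 : K) • k - 1) * e = e * ((2 : K) • k - 1) := by
      rw [sub_mul, mul_sub, one_mul, mul_one, smul_mul_assoc, mul_smul_comm, hke]
    have h3 : ((2 : K) • k - 1) * ((2 : K) • k - 1) = 1 := by
      simp only [sub_mul, mul_sub, smul_mul_assoc, mul_smul_comm, hkk, mul_one, one_mul]
      module
    have hyy : phi (cmp U V ((2 : K) • k - 1)) * phi (cmp U V ((2 : K) • k - 1)) = 1 := by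
      rw [← map_mul, ← H76U.cmp_mul h.UV h.VU h2, h3, H76U.cmp_one h.UV h.VU, map_one]
    have h4 : phi (cmp U V (1 + (t - 1) • k)) =
        ((1 + t) / 2) • (1 : Module.End K (Fin n → K)) + ((t - 1) / 2) • phi (cmp U V ((2 : K) • k - 1)) := by
      have h5 : 1 + (t - 1) • k = ((1 + t) / 2) • (1 : Matrix ι ι K) + ((t - 1) / 2) • ((2 : K) • k - 1) := by
        rw [smul_sub, smul_smul]
        module
      rw [h5, map_add, map_smul, map_smul, H76U.cmp_one h.UV h.VU, map_add, map_smul, map_smul, map_one]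
    rw [h4]
    rcases PT_par h.ts hc hkL hyy ht with h6 | h6
    · exact ⟨_, _, _, h6⟩
    · exact ⟨_, _, _, h6⟩
  · rw [H76U.cmp_one h.UV h.VU, map_one]
    exact ⟨_, _, _, PT_one h.ts⟩
  · rintro a b ha hb ⟨u, r, t, h1⟩ ⟨u', r', t', h2⟩
    rw [H76U.cmp_mul h.UV h.VU (cmp_comm h hb), map_mul]
    exact ⟨_, _, _, PT_mul h.ts h.yo hP h1 h2⟩

theorem e4_pair (h : Loc J S 𝓗 e x q U V d Y) (k l : Fin n)
    (hkl : (Uᵀ * J * U) k l ≠ 0) : d k * d l = q := by
  have h1 : Matrix.diagonal d * (Uᵀ * J * U) * Matrix.diagonal d = q • (Uᵀ * J * U) := by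
    have h2 : Matrix.diagonal d * Uᵀ = Uᵀ * xᵀ := by
      have h3 := congrArg Matrix.transpose h.ec.eig
      rw [Matrix.transpose_mul, Matrix.transpose_mul, Matrix.diagonal_transpose] at h3
      exact h3.symm
    calc Matrix.diagonal d * (Uᵀ * J * U) * Matrix.diagonal d =
        (Matrix.diagonal d * Uᵀ) * J * (U * Matrix.diagonal d) := by simp only [Matrix.mul_assoc]
      _ = Uᵀ * (xᵀ * J * x) * U := by
          rw [h2, ← h.ec.eig]
          simp only [Matrix.mul_assoc]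
      _ = _ := by rw [h.mult, Matrix.mul_smul, Matrix.smul_mul]
  have h2 := congrFun (congrFun h1 k) l
  rw [Matrix.mul_diagonal, Matrix.diagonal_mul, Matrix.smul_apply, smul_eq_mul] at h2
  apply mul_right_cancel₀ hkl
  rw [← h2]
  ring

/-- PROOF. `x` has multiplier `q`: `(Uᵀ J U) k l * (d k * d l - q) = 0`.  -/
theorem pair_bar (h : Loc J S 𝓗 e x q U V d Y) {bar : Equiv.Perm (Fin n)}
    (hbar : ∀ k, d k * d (bar k) = q) (hd : ∀ k, d k ≠ 0) (k l : Fin n)
    (hkl : (Uᵀ * J * U) k l ≠ 0) : l = bar k := by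
  have h1 := e4_pair h k l hkl
  rw [← hbar k] at h1
  exact h.ec.inj (mul_left_cancel₀ (hd k) h1)

/-- PROOF. For each `k` some `(Uᵀ J U) k l ≠ 0` (this matrix is invertible, `h.ts.cmp.Jd`), so `d k * d l = q`; `l` is unique (`d` is injective, `h.ec`), `bar k = l`. -/
theorem exists_bar (h : Loc J S 𝓗 e x q U V d Y) :
    ∃ bar : Equiv.Perm (Fin n), ∀ k, d k * d (bar k) = q := by
  have h1 : ∀ k, ∃ l, d k * d l = q := by
    intro k
    by_contra hcon
    push Not at hcon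
    have h2 : ∀ l, (Uᵀ * J * U) k l = 0 := by
      intro l
      by_contra h3
      exact hcon l (e4_pair h k l h3)
    have h3 := h.ts.cmp.Jd
    rw [Matrix.det_eq_zero_of_row_eq_zero k h2] at h3
    exact not_isUnit_zero h3
  choose b hb using h1
  have hinj : Function.Injective b := by
    intro k k' hkk
    apply h.ec.inj
    apply mul_right_cancel₀ (h.ec.ne (b k))
    rw [hb k, hkk, hb k']
  exact ⟨Equiv.ofBijective b (Finite.injective_iff_bijective.1 hinj), hb⟩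

end Pool.Agent.H76Q
end

-- from Lib.H76Q.F3
section

/-!
# the Hodge-Tate projector
-/

set_option autoImplicit false
set_option linter.unusedSectionVars false
namespace Pool.Agent.H76Q
open Module Matrix Polynomial Pool.Agent.H53Toric
open Pool.Agent.H76P
open Pool.Agent.H76T (IsIdeal Fam Lc)
open Pool.Agent.H76V (Cmp)
open Pool.Agent.H76U (cmp preL IsSplitting)
open Pool.Agent.H76RM (spanK similD)

variable {ι : Type*} [Fintype ι] [DecidableEq ι] {K : Type*} [Field K] [CharZero K]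
  [IsAlgClosed K]

/-- The signs of the projector `μ` on the eigenvectors of `x` on the range of `e`. -/
def IsHT (μ x e : Matrix ι ι K) {n : ℕ} (d : Fin n → K) (ε : Fin n → ℚ) : Prop :=
  ∀ k, (ε k = 1 ∧ ∃ z : ι → K, z ≠ 0 ∧ e *ᵥ z = z ∧ x *ᵥ z = d k • z ∧ μ *ᵥ z = z) ∨
    (ε k = -1 ∧ ∃ z : ι → K, z ≠ 0 ∧ e *ᵥ z = z ∧ x *ᵥ z = d k • z ∧ μ *ᵥ z = 0)

/-- the compression of `μ` is diagonal with entries `0` and `1` -/
theorem f3_diag {J : Matrix ι ι K} {S 𝓗 : Set (Matrix ι ι K)} {e x : Matrix ι ι K} {q : K}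
    {n : ℕ} {U : Matrix ι (Fin n) K} {V : Matrix (Fin n) ι K} {d : Fin n → K}
    {Y : Submodule ℚ (Fin n → ℚ)} (h : Loc J S 𝓗 e x q U V d Y) {μ : Matrix ι ι K} (hμ : μ ∈ 𝓗)
    (hμx : μ * x = x * μ) : ∃ f : Fin n → K, cmp U V μ = Matrix.diagonal f ∧
      ∀ k, f k = 0 ∨ f k = 1 := by
  obtain ⟨hmm, hme, _, _⟩ := h.par μ hμ
  have hUM := Pool.Agent.H76U.P_cmp h.UV h.VU hme
  have hxU := h.ec.eig
  set M := cmp U V μ with hM
  have hcomm : Matrix.diagonal d * M = M * Matrix.diagonal d := by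
    have h1 : U * (Matrix.diagonal d * M) = U * (M * Matrix.diagonal d) := by
      calc U * (Matrix.diagonal d * M) = (U * Matrix.diagonal d) * M := (Matrix.mul_assoc _ _ _).symm
        _ = (x * U) * M := by rw [hxU]
        _ = x * (U * M) := Matrix.mul_assoc _ _ _
        _ = x * (μ * U) := by rw [hUM]
        _ = (x * μ) * U := (Matrix.mul_assoc _ _ _).symm
        _ = (μ * x) * U := by rw [hμx]
        _ = μ * (x * U) := Matrix.mul_assoc _ _ _
        _ = μ * (U * Matrix.diagonal d) := by rw [hxU]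
        _ = (μ * U) * Matrix.diagonal d := (Matrix.mul_assoc _ _ _).symm
        _ = (U * M) * Matrix.diagonal d := by rw [hUM]
        _ = U * (M * Matrix.diagonal d) := Matrix.mul_assoc _ _ _
    have h2 := congrArg (fun A => V * A) h1
    simp only [← Matrix.mul_assoc V U, h.VU, Matrix.one_mul] at h2
    exact h2
  have hdiag : M = Matrix.diagonal fun k => M k k := by
    ext i j
    by_cases hij : i = j
    · subst hij
      rw [Matrix.diagonal_apply_eq]
    · rw [Matrix.diagonal_apply_ne _ hij]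
      have h1 := congrFun (congrFun hcomm i) j
      rw [Matrix.diagonal_mul, Matrix.mul_diagonal] at h1
      have h2 : (d i - d j) * M i j = 0 := by
        rw [sub_mul, h1]
        ring
      rcases mul_eq_zero.1 h2 with h3 | h3
      · exact absurd (h.ec.inj (sub_eq_zero.1 h3)) hij
      · exact h3
  refine ⟨fun k => M k k, hdiag, ?_⟩
  intro k
  have h1 := Pool.Agent.H76U.cmp_mul h.UV h.VU (A := μ) (C := μ) hme
  rw [hmm, ← hM, hdiag, Matrix.diagonal_mul_diagonal] at h1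
  have h2 := congrFun (congrFun h1 k) k
  rw [Matrix.diagonal_apply_eq, Matrix.diagonal_apply_eq] at h2
  have h3 : M k k * (M k k - 1) = 0 := by rw [mul_sub, mul_one, ← h2, sub_self]
  rcases mul_eq_zero.1 h3 with h4 | h4
  · exact Or.inl h4
  · exact Or.inr (sub_eq_zero.1 h4)

/-- `μ` acts on an eigenvector of `x` in the range of `e` by the entry of the compression -/
theorem f3_act {J : Matrix ι ι K} {S 𝓗 : Set (Matrix ι ι K)} {e x : Matrix ι ι K} {q : K}
    {n : ℕ} {U : Matrix ι (Fin n) K} {V : Matrix (Fin n) ι K} {d : Fin n → K}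
    {Y : Submodule ℚ (Fin n → ℚ)} (h : Loc J S 𝓗 e x q U V d Y) {μ : Matrix ι ι K} (hμ : μ ∈ 𝓗)
    {f : Fin n → K} (hf : cmp U V μ = Matrix.diagonal f) {k : Fin n} {z : ι → K}
    (hez : e *ᵥ z = z) (hxz : x *ᵥ z = d k • z) : μ *ᵥ z = f k • z := by
  obtain ⟨hmm, hme, _, _⟩ := h.par μ hμ
  have hUM := Pool.Agent.H76U.P_cmp h.UV h.VU hme
  rw [hf] at hUM
  have hxU := h.ec.eig
  set w : Fin n → K := V *ᵥ z with hw
  have hzw : z = U *ᵥ w := by
    rw [hw, Matrix.mulVec_mulVec, ← h.UV, hez]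
  have hVU : ∀ y : Fin n → K, V *ᵥ (U *ᵥ y) = y := by
    intro y
    rw [Matrix.mulVec_mulVec, h.VU, Matrix.one_mulVec]
  have h1 : Matrix.diagonal d *ᵥ w = d k • w := by
    have h2 : U *ᵥ (Matrix.diagonal d *ᵥ w) = U *ᵥ (d k • w) := by
      rw [Matrix.mulVec_mulVec, ← hxU, ← Matrix.mulVec_mulVec, ← hzw, hxz, Matrix.mulVec_smul, ← hzw]
    have h3 := congrArg (fun y => V *ᵥ y) h2
    simp only [hVU] at h3
    exact h3
  have hw0 : ∀ l, l ≠ k → w l = 0 := by
    intro l hl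
    have h2 := congrFun h1 l
    rw [Matrix.mulVec_diagonal, Pi.smul_apply, smul_eq_mul] at h2
    have h3 : (d l - d k) * w l = 0 := by
      rw [sub_mul, h2, sub_self]
    rcases mul_eq_zero.1 h3 with h4 | h4
    · exact absurd (h.ec.inj (sub_eq_zero.1 h4)) hl
    · exact h4
  have h4 : Matrix.diagonal f *ᵥ w = f k • w := by
    funext l
    rw [Matrix.mulVec_diagonal, Pi.smul_apply, smul_eq_mul]
    by_cases hl : l = k
    · rw [hl]
    · rw [hw0 l hl, mul_zero, mul_zero]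
  rw [hzw, Matrix.mulVec_mulVec, ← hUM, ← Matrix.mulVec_mulVec, h4, Matrix.mulVec_smul]

/-- PROOF. The columns of `U` are eigenvectors of `x` with different eigenvalues; `μ` commutes with `x` and `e`, so it maps the column `k` to a multiple, by `0` or `1`. -/
theorem exists_HT {J : Matrix ι ι K} {S 𝓗 : Set (Matrix ι ι K)} {e x : Matrix ι ι K} {q : K}
    {n : ℕ} {U : Matrix ι (Fin n) K} {V : Matrix (Fin n) ι K} {d : Fin n → K}
    {Y : Submodule ℚ (Fin n → ℚ)} (h : Loc J S 𝓗 e x q U V d Y) {μ : Matrix ι ι K} (hμ : μ ∈ 𝓗)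
    (hμx : μ * x = x * μ) : ∃ ε, IsHT μ x e d ε := by
  classical
  obtain ⟨f, hf, hf01⟩ := f3_diag h hμ hμx
  refine ⟨fun k => if f k = 1 then 1 else -1, ?_⟩
  intro k
  set z : ι → K := U *ᵥ (Pi.single k 1) with hz
  have hVU : V *ᵥ z = Pi.single k 1 := by
    rw [hz, Matrix.mulVec_mulVec, h.VU, Matrix.one_mulVec]
  have hz0 : z ≠ 0 := by
    intro h0
    rw [h0, Matrix.mulVec_zero] at hVU
    have := congrFun hVU k
    rw [Pi.single_eq_same] at this
    exact zero_ne_one this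
  have hez : e *ᵥ z = z := by
    rw [h.UV, ← Matrix.mulVec_mulVec, hVU]
  have hxz : x *ᵥ z = d k • z := by
    rw [hz, Matrix.mulVec_mulVec, h.ec.eig, ← Matrix.mulVec_mulVec, ← Matrix.mulVec_smul]
    congr 1
    funext l
    rw [Matrix.mulVec_diagonal, Pi.smul_apply, smul_eq_mul]
    by_cases hl : l = k
    · rw [hl]
    · rw [Pi.single_eq_of_ne hl, mul_zero, mul_zero]
  have hact := f3_act h hμ hf hez hxz
  rcases hf01 k with h0 | h1
  · right
    refine ⟨?_, z, hz0, hez, hxz, ?_⟩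
    · show (if f k = 1 then (1 : ℚ) else -1) = -1
      rw [h0, if_neg zero_ne_one]
    · rw [hact, h0, zero_smul]
  · left
    refine ⟨?_, z, hz0, hez, hxz, ?_⟩
    · show (if f k = 1 then (1 : ℚ) else -1) = 1
      rw [if_pos h1]
    · rw [hact, h1, one_smul]

/-- PROOF. See `H76P.eps_mem`: `cmp U V μ` is the diagonal matrix with entries `(1 + ε k) / 2`: an eigenvector of `x` in the range of `e` with eigenvalue `d k` is a multiple of the column `k` of `U`. -/
theorem HT_spec {J : Matrix ι ι K} {S 𝓗 : Set (Matrix ι ι K)} {e x : Matrix ι ι K} {q : K}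
    {n : ℕ} {U : Matrix ι (Fin n) K} {V : Matrix (Fin n) ι K} {d : Fin n → K}
    {Y : Submodule ℚ (Fin n → ℚ)} (h : Loc J S 𝓗 e x q U V d Y) {μ : Matrix ι ι K} (hμ : μ ∈ 𝓗)
    (hμx : μ * x = x * μ) {ε : Fin n → ℚ} (hε : IsHT μ x e d ε) :
    phi (cmp U V ((2 : K) • μ - 1)) = dq ε ∧ ε ∈ Y ∧ (∀ k, ε k = 1 ∨ ε k = -1) := by
  obtain ⟨f, hf, hf01⟩ := f3_diag h hμ hμx
  have hfe : ∀ k, 2 * f k - 1 = (ε k : K) := by
    intro k
    rcases hε k with ⟨h1, z, hz0, hez, hxz, hμz⟩ | ⟨h1, z, hz0, hez, hxz, hμz⟩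
    · have hact := f3_act h hμ hf hez hxz
      rw [hμz] at hact
      have h2 : f k = 1 := by
        rcases hf01 k with h0 | h0
        · rw [h0, zero_smul] at hact
          exact absurd hact hz0
        · exact h0
      rw [h1, h2]
      norm_num
    · have hact := f3_act h hμ hf hez hxz
      rw [hμz] at hact
      have h2 : f k = 0 := by
        rcases smul_eq_zero.1 hact.symm with h0 | h0
        · exact h0
        · exact absurd h0 hz0
      rw [h1, h2]
      norm_num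
  have h1 : cmp U V ((2 : K) • μ - 1) = Matrix.diagonal (fun k => 2 * f k - 1) := by
    rw [map_sub, map_smul, Pool.Agent.H76U.cmp_one h.UV h.VU, hf]
    ext i j
    by_cases hij : i = j
    · subst hij
      simp
    · simp [Matrix.diagonal_apply_ne _ hij, Matrix.one_apply_ne hij]
  have hval : phi (cmp U V ((2 : K) • μ - 1)) = dq ε := by
    rw [h1, phi_diag]
    unfold dq
    congr 1
    ext k
    exact hfe k
  refine ⟨hval, ?_, ?_⟩
  · have h2 := (h.par μ hμ).2.2.2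
    rw [hval] at h2
    have h3 := h.ts.diag ε h2
    rw [h.yo] at h3
    exact h3
  · intro k
    rcases hε k with ⟨h1, _⟩ | ⟨h1, _⟩
    · exact Or.inl h1
    · exact Or.inr h1

/-- PROOF. `dq ε ∈ L`, `dq ε * dq ε = 1`: `inv_AZ` (C3): `dq ε` is in an ideal with `InP P` or `InP (1 - P)`. -/
theorem HT_or {J : Matrix ι ι K} {S 𝓗 : Set (Matrix ι ι K)} {e x : Matrix ι ι K} {q : K}
    {n : ℕ} {U : Matrix ι (Fin n) K} {V : Matrix (Fin n) ι K} {d : Fin n → K}
    {Y : Submodule ℚ (Fin n → ℚ)} (h : Loc J S 𝓗 e x q U V d Y) {μ : Matrix ι ι K} (hμ : μ ∈ 𝓗)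
    (hμx : μ * x = x * μ) {ε : Fin n → ℚ} (hε : IsHT μ x e d ε) {P : Module.End ℚ Y}
    (hc : Comp (Lc J S U V) P) : FunP P ε ∨ FunP (1 - P) ε := by
  have : Nonempty (Fin n) := ⟨⟨0, h.pos⟩⟩
  obtain ⟨hval, hY, h01⟩ := HT_spec h hμ hμx hε
  have hL := (h.par μ hμ).2.2.2
  rw [hval] at hL
  have hsq : (dq ε : Module.End K (Fin n → K)) * dq ε = 1 := by
    unfold dq
    rw [dg_mul, ← dg_one]
    congr 1
    funext k
    rw [Pi.mul_apply, Pi.one_apply]
    rcases h01 k with h1 | h1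
    · rw [h1]
      norm_num
    · rw [h1]
      norm_num
  obtain ⟨I, _, hI, hor⟩ := inv_AZ h.ts hc hL hsq
  rcases hor with h1 | h1
  · exact Or.inl (h1 ε hY hI)
  · exact Or.inr (h1 ε hY hI)

end Pool.Agent.H76Q
end

-- from Lib.H76Q.Q4
section

/-!
# Q4: all hypotheses of the core theorem in one structure
-/

set_option autoImplicit false
set_option linter.unusedSectionVars false
namespace Pool.Agent.H76Q
open Module Matrix Polynomial Pool.Agent.H53Toric
open Pool.Agent.H76P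
open Pool.Agent.H49M (idc)
open Pool.Agent.H76T (IsIdeal Fam Lc)
open Pool.Agent.H76V (Cmp)
open Pool.Agent.H76U (cmp preL IsSplitting)
open Pool.Agent.H76RM (spanK similD)

/-- The hypotheses of `core` except the conditions on the ranks. -/
structure Core {ι : Type*} [Fintype ι] [DecidableEq ι] (ψ : Matrix ι ι ℚ)
    (D : Subalgebra ℚ (Matrix ι ι ℚ)) {M : Type*} [Field M] [NumberField M]
    {m : ℕ} (e : Fin m → Matrix ι ι M) {G : Type*} [Group G]
    (ρ : ∀ (l : ℕ) [Fact l.Prime], G →* Matrix.GeneralLinearGroup ι ℚ_[l])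
    (p : ℕ) [Fact p.Prime] (σ : G) (q : ℚ) (f : ℚ[X]) (F : Fin m → M[X])
    (φ μ ν : Matrix ι ι (AlgebraicClosure ℚ_[p])) (v : AlgebraicClosure ℚ_[p] → ℚ)
    (Δ : Set (AlgebraicClosure ℚ_[p] ≃+* AlgebraicClosure ℚ_[p]))
    {Ω : Type*} [Field Ω] [CharZero Ω] [IsAlgClosed Ω] [Algebra.IsAlgebraic ℚ Ω] (j : M →+* Ω)
    (R : Finset Ω) (N : Set ℕ) : Prop where
  hψ : ψᵀ = -ψ
  hψ0 : ψ.det ≠ 0
  hspl : IsSplitting D ψ id e
  lin : ∀ (l : ℕ) [Fact l.Prime], ∀ g : G, ∀ d ∈ D,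
      (ρ l g).1 * d.map (algebraMap ℚ ℚ_[l]) = d.map (algebraMap ℚ ℚ_[l]) * (ρ l g).1
  sim : ∀ (l : ℕ) [Fact l.Prime], ∀ g : G, ∃ c : ℚ_[l],
      (ρ l g).1ᵀ * ψ.map (algebraMap ℚ ℚ_[l]) * (ρ l g).1 = c • ψ.map (algebraMap ℚ ℚ_[l])
  semis : ∀ (l : ℕ) [Fact l.Prime], ∀ H : Subgroup G, H.FiniteIndex →
      ∀ W : Submodule (AlgebraicClosure ℚ_[l]) (ι → AlgebraicClosure ℚ_[l]),
      (∀ s ∈ img (AlgebraicClosure ℚ_[l]) (ρ l) H, ∀ w ∈ W, s *ᵥ w ∈ W) →
      ∃ W' : Submodule (AlgebraicClosure ℚ_[l]) (ι → AlgebraicClosure ℚ_[l]),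
        (∀ s ∈ img (AlgebraicClosure ℚ_[l]) (ρ l) H, ∀ w ∈ W', s *ᵥ w ∈ W') ∧ IsCompl W W'
  commt : ∀ (l : ℕ) [Fact l.Prime], ∀ H : Subgroup G, H.FiniteIndex →
      ∀ y : Matrix ι ι (AlgebraicClosure ℚ_[l]),
      (∀ s ∈ img (AlgebraicClosure ℚ_[l]) (ρ l) H, y * s = s * y) →
        y ∈ spanK (AlgebraicClosure ℚ_[l]) D
  gen : ∀ (l : ℕ) [Fact l.Prime], ∀ g : G,
      (ρ l g).1.map (algebraMap ℚ_[l] (AlgebraicClosure ℚ_[l])) ∈
        tgen (AlgebraicClosure ℚ_[l]) (ρ l)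
  hq : ∀ n : ℕ, n ≠ 0 → q ^ n ≠ 1
  mult : ∀ (l : ℕ) [Fact l.Prime], l ≠ p →
      (ρ l σ).1ᵀ * ψ.map (algebraMap ℚ ℚ_[l]) * (ρ l σ).1 =
        algebraMap ℚ ℚ_[l] q • ψ.map (algebraMap ℚ ℚ_[l])
  char : ∀ (l : ℕ) [Fact l.Prime], l ≠ p →
      (ρ l σ).1.charpoly = f.map (algebraMap ℚ ℚ_[l])
  frob : ∀ (l : ℕ) [Fact l.Prime], l ≠ p →
      FrobT (AlgebraicClosure ℚ_[l]) (ρ l) e F
        ((ρ l σ).1.map (algebraMap ℚ_[l] (AlgebraicClosure ℚ_[l])))
  cyc : ∃ s : G, ∃ c : ℚ_[p], (ρ p s).1ᵀ * ψ.map (algebraMap ℚ ℚ_[p]) * (ρ p s).1 =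
      c • ψ.map (algebraMap ℚ ℚ_[p]) ∧ ∀ n : ℕ, n ≠ 0 → c ^ n ≠ 1
  frobp : FrobT (AlgebraicClosure ℚ_[p]) (ρ p) e F φ
  multp : φᵀ * ψ.map (algebraMap ℚ (AlgebraicClosure ℚ_[p])) * φ =
      algebraMap ℚ (AlgebraicClosure ℚ_[p]) q • ψ.map (algebraMap ℚ (AlgebraicClosure ℚ_[p]))
  charp : φ.charpoly = f.map (algebraMap ℚ (AlgebraicClosure ℚ_[p]))
  crys : CrysP (AlgebraicClosure ℚ_[p]) (ρ p) e σ φ μ ν v Δ
  vq : v (algebraMap ℚ (AlgebraicClosure ℚ_[p]) q) = 1
  hN : p ∈ N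
  arith : Arith R N ρ σ
  Rstab : ∀ s : Ω ≃+* Ω, ∀ r ∈ R, s r ∈ R
  Rval : ∀ i : Ω →+* AlgebraicClosure ℚ_[p],
      ∃ r ∈ R, v (i r) = 1 ∧ ∀ r' ∈ R, r' ≠ r → v (i r') = 0
  Rfix : ∀ i : Ω →+* AlgebraicClosure ℚ_[p], ∀ r ∈ R, ∀ δ ∈ Δ, δ (i r) = i r
  trans : ∀ b, ∀ r ∈ R, ∀ r' ∈ R, ∃ s : Ω ≃+* Ω, s r = r' ∧
      Linked D ((e b).map j) ((e b).map (s.toRingHom.comp j))
  gal : ∀ b, ∀ a a' : Ω, (F b).eval₂ j a = 0 → (F b).eval₂ j a' = 0 → a ≠ a' →
      ∃ i : Ω →+* AlgebraicClosure ℚ_[p], v (i a) ≠ v (i a')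

/-- `P` is compatible with the simple ideals of all Lie algebras with the configuration `Y`. -/
def Good {n : ℕ} {Y : Submodule ℚ (Fin n → ℚ)} (P : Module.End ℚ Y) : Prop :=
  ∀ (K : Type) [Field K] [CharZero K] [IsAlgClosed K]
    (L : Submodule K (Module.End K (Fin n → K))) (J : Matrix (Fin n) (Fin n) K),
    TS L J → Yo L = Y → Comp L P

/-- The permutation `σ` maps the decomposition `P` to the decomposition `P'`. -/
def MvP {κ : Type*} [Fintype κ] {Y : Submodule ℚ (κ → ℚ)} (σ : Equiv.Perm κ)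
    (P P' : Module.End ℚ Y) : Prop :=
  (∀ k k', cz P k k' ↔ cz P' (σ k) (σ k')) ∧
    ∀ k k', cz (1 - P) k k' ↔ cz (1 - P') (σ k) (σ k')

end Pool.Agent.H76Q
end

-- from Lib.H76Y.Y0
section

/-!
# Y0: definitions for the third version (components without a form)
-/

set_option autoImplicit false
set_option linter.unusedSectionVars false
namespace Pool.Agent.H76Y
open Module Matrix Polynomial Pool.Agent.H53Toric
open Pool.Agent.H76P
open Pool.Agent.H76T (IsIdeal Fam)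
open Pool.Agent.H76V (Cmp)
open Pool.Agent.H76U (cmp preL Lb IsSplitting)
open Pool.Agent.H76RM (spanK similD)
open Pool.Agent.H76Q

section
variable {κ : Type*} [Fintype κ] [DecidableEq κ] {K : Type*} [Field K]

/-- An irreducible Lie algebra of operators of trace zero such that only the scalars commute with
all its involutions. -/
structure CmpN (L : Submodule K (Module.End K (κ → K))) : Prop where
  lie : IsLie L
  irr : Irr L
  tr : ∀ X ∈ L, LinearMap.trace K (κ → K) X = 0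
  gen : ∀ T : Module.End K (κ → K), (∀ y ∈ L, y * y = 1 → T * y = y * T) → ∃ c : K, T = c • 1

/-- `CmpN`, and the diagonal elements of `L` separate the basis vectors. -/
structure TM [CharZero K] (L : Submodule K (Module.End K (κ → K))) : Prop where
  cmp : CmpN L
  diag : ∀ f : κ → ℚ, dq f ∈ L → f ∈ Yo L
  sep : ∀ a b : κ, a ≠ b → ∃ f ∈ Yo L, f a ≠ f b

/-- `L` respects a nondegenerate alternating form. -/
def SyL (L : Submodule K (Module.End K (κ → K))) : Prop :=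
  ∃ J : Matrix κ κ K, Jᵀ = -J ∧ IsUnit J.det ∧ ∀ X ∈ L, adjE J X = -X

/-- `L` respects no bilinear form `≠ 0`. -/
def NsL (L : Submodule K (Module.End K (κ → K))) : Prop :=
  ∀ b : (κ → K) →ₗ[K] (κ → K) →ₗ[K] K, (∀ X ∈ L, ∀ v w, b (X v) w + b v (X w) = 0) → b = 0

/-- `L` respects an alternating form if `t` is true and no form if `t` is false. -/
def Cls (t : Prop) (L : Submodule K (Module.End K (κ → K))) : Prop := (t → SyL L) ∧ (¬ t → NsL L)

/-- `X` is a pure tensor `u * r`, and `u` has determinant `t`. -/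
def PTN {Y : Submodule ℚ (κ → ℚ)} (L : Submodule K (Module.End K (κ → K))) (P : Module.End ℚ Y)
    (X u r : Module.End K (κ → K)) (t : K) : Prop :=
  u ∈ AZ L P ∧ r ∈ AZ L (1 - P) ∧ X = u * r ∧ t ≠ 0 ∧ LinearMap.det u = t ∧ LinearMap.det r ≠ 0

/-- A semilinear automorphism of the operators which respects `L` and the diagonal. -/
structure ThetaN (L : Submodule K (Module.End K (κ → K)))
    (θ : Module.End K (κ → K) ≃+* Module.End K (κ → K)) (τ : K ≃+* K) (σ : Equiv.Perm κ) : Prop where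
  smul : ∀ (c : K) X, θ (c • X) = τ c • θ X
  diag : ∀ g : κ → K, θ (dg g) = dg fun k => τ (g (σ.symm k))
  mem : ∀ X, θ X ∈ L ↔ X ∈ L
  det : ∀ X, LinearMap.det (θ X) = τ (LinearMap.det X)

/-- `P` is compatible with the simple ideals of all Lie algebras in the class `t` with the
configuration `Y`. -/
def GoodN {n : ℕ} {Y : Submodule ℚ (Fin n → ℚ)} (t : Prop) (P : Module.End ℚ Y) : Prop :=
  ∀ (K : Type) [Field K] [CharZero K] [IsAlgClosed K]
    (L : Submodule K (Module.End K (Fin n → K))), TM L → Cls t L → Yo L = Y → Comp L P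

end

section
variable {ι : Type*} [Fintype ι] [DecidableEq ι] {K : Type*} [Field K]

/-- The Lie algebra of the component: the operators of trace zero. -/
noncomputable def LcN {n : ℕ} (J : Matrix ι ι K) (S : Set (Matrix ι ι K))
    (P : Matrix ι (Fin n) K) (Q : Matrix (Fin n) ι K) : Submodule K (Module.End K (Fin n → K)) where
  carrier := {X | X ∈ Lb J S P Q ∧ LinearMap.trace K (Fin n → K) X = 0}
  add_mem' := by
    rintro X Y ⟨h1, h2⟩ ⟨h3, h4⟩
    exact ⟨add_mem h1 h3, by rw [map_add, h2, h4, add_zero]⟩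
  zero_mem' := ⟨zero_mem _, map_zero _⟩
  smul_mem' := by
    rintro c X ⟨h1, h2⟩
    exact ⟨Submodule.smul_mem _ c h1, by rw [map_smul, h2, smul_zero]⟩

/-- `e = U V` an idempotent, `V U = 1`, the columns of `U` are eigenvectors of `x` with the eigenvalues
`d`; `S` the image of a subgroup of finite index, `𝓗` the set of projectors, `q` the multiplier of `x`,
`Y` the configuration. -/
structure LocN [CharZero K] (t : Prop)
    (J : Matrix ι ι K) (S 𝓗 : Set (Matrix ι ι K)) (e x : Matrix ι ι K) (q : K) {n : ℕ}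
    (U : Matrix ι (Fin n) K) (V : Matrix (Fin n) ι K) (d : Fin n → K)
    (Y : Submodule ℚ (Fin n → ℚ)) : Prop where
  pos : 0 < n
  UV : e = U * V
  VU : V * U = 1
  ec : EC x U d
  ex : e * x = x * e
  ts : TM (LcN J S U V)
  cls : Cls t (LcN J S U V)
  yo : Yo (LcN J S U V) = Y
  par : ∀ h ∈ 𝓗, h * h = h ∧ h * e = e * h ∧ 2 * (h * e).rank = n ∧
    phi (cmp U V ((2 : K) • h - 1)) ∈ LcN J S U V
  lie : ∀ C ∈ zlie S, C * e = e * C ∧ ∃ c : K, phi (cmp U V (C - c • 1)) ∈ LcN J S U V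
  prod : (∏ k, d k) ^ 2 = q ^ n

/-- The conditions at the prime `p`. -/
structure CrysN {L : Type*} [Field L] (K : Type*) [Field K] [Algebra L K] {G : Type*} [Group G]
    (ρ : G →* Matrix.GeneralLinearGroup ι L) {M : Type*} [Field M] {m : ℕ}
    (e : Fin m → Matrix ι ι M) (σ : G) (φ μ ν : Matrix ι ι K) (v : K → ℚ)
    (Δ : Set (K ≃+* K)) : Prop where
  val : IsVal v
  mu : μ ∈ properProj K ρ
  muphi : μ * φ = φ * μ
  phigen : φ ∈ tgen K ρ
  nu : ∀ (c : K) (z : ι → K), φ *ᵥ z = c • z → ν *ᵥ z = (v c : K) • z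
  newton : ∀ (i : M →+* K) (b : Fin m) (H : Subgroup G), H.FiniteIndex →
    ∀ I : Submodule K (Matrix ι ι K), adStable (zlie (img K ρ H)) I →
      ((2 : K) • μ - 1) * (e b).map i ∈ I → ∃ c : K, (ν - c • 1) * (e b).map i ∈ I
  unr : ∃ ξ ξ' : Matrix ι ι K, ξ ∈ tgen K ρ ∧ ξ * ξ' = 1 ∧
    ∀ (H : Subgroup G), H.FiniteIndex → ∀ I : Submodule K (Matrix ι ι K),
      adStable (zlie (img K ρ H)) I → (∀ X ∈ I, μ * X = X * μ) → ∀ X ∈ I,
        ((ρ σ)⁻¹.1.map (algebraMap L K) * (ξ * φ * ξ')) * X =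
          X * ((ρ σ)⁻¹.1.map (algebraMap L K) * (ξ * φ * ξ'))
  int : (ρ σ).1.map (algebraMap L K) ∈ Submonoid.closure
    {x | ∃ h ∈ properProj K ρ, IntMat v h ∧ ∃ t : K, t ≠ 0 ∧ v t = 0 ∧ x = 1 + (t - 1) • h}
  eint : ∀ (i : M →+* K) (b : Fin m), IntMat v ((e b).map i)
  dfix : ∀ δ ∈ Δ, ∀ c : L, δ (algebraMap L K c) = algebraMap L K c
  dphi : ∀ δ ∈ Δ, φ.map δ = φ
  dM : ∀ δ ∈ Δ, ∀ (i : M →+* K) (c : M), δ (i c) = i c
  dideal : ∀ δ ∈ Δ, ∀ H : Subgroup G, H.FiniteIndex → ∀ I : Submodule K (Matrix ι ι K),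
    I ≤ zlie (img K ρ H) → adStable (zlie (img K ρ H)) I → ∀ X ∈ I, ∀ Y ∈ I,
      (X * Y - Y * X).map δ ∈ I
  dval : ∀ x : K, x ≠ 0 → (∀ δ ∈ Δ, δ x = x) → ∃ n : ℤ, v x = n

end

/-- The hypotheses of the third version of the theorem except the conditions on the ranks. -/
structure Core3 {ι : Type*} [Fintype ι] [DecidableEq ι] (ψ : Matrix ι ι ℚ)
    (D : Subalgebra ℚ (Matrix ι ι ℚ)) {M : Type*} [Field M] [NumberField M]
    {m : ℕ} (bar : Fin m → Fin m) (e : Fin m → Matrix ι ι M) {G : Type*} [Group G]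
    (ρ : ∀ (l : ℕ) [Fact l.Prime], G →* Matrix.GeneralLinearGroup ι ℚ_[l])
    (p : ℕ) [Fact p.Prime] (σ : G) (q : ℚ) (F : Fin m → M[X])
    (φ μ ν : Matrix ι ι (AlgebraicClosure ℚ_[p])) (v : AlgebraicClosure ℚ_[p] → ℚ)
    (Δ : Set (AlgebraicClosure ℚ_[p] ≃+* AlgebraicClosure ℚ_[p]))
    {Ω : Type*} [Field Ω] [CharZero Ω] [IsAlgClosed Ω] [Algebra.IsAlgebraic ℚ Ω] (j : M →+* Ω)
    (R : Finset Ω) (N : Set ℕ) : Prop where
  hψ : ψᵀ = -ψ
  hψ0 : ψ.det ≠ 0
  hspl : IsSplitting D ψ bar e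
  lin : ∀ (l : ℕ) [Fact l.Prime], ∀ g : G, ∀ d ∈ D,
      (ρ l g).1 * d.map (algebraMap ℚ ℚ_[l]) = d.map (algebraMap ℚ ℚ_[l]) * (ρ l g).1
  sim : ∀ (l : ℕ) [Fact l.Prime], ∀ g : G, ∃ c : ℚ_[l],
      (ρ l g).1ᵀ * ψ.map (algebraMap ℚ ℚ_[l]) * (ρ l g).1 = c • ψ.map (algebraMap ℚ ℚ_[l])
  semis : ∀ (l : ℕ) [Fact l.Prime], ∀ H : Subgroup G, H.FiniteIndex →
      ∀ W : Submodule (AlgebraicClosure ℚ_[l]) (ι → AlgebraicClosure ℚ_[l]),
      (∀ s ∈ img (AlgebraicClosure ℚ_[l]) (ρ l) H, ∀ w ∈ W, s *ᵥ w ∈ W) →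
      ∃ W' : Submodule (AlgebraicClosure ℚ_[l]) (ι → AlgebraicClosure ℚ_[l]),
        (∀ s ∈ img (AlgebraicClosure ℚ_[l]) (ρ l) H, ∀ w ∈ W', s *ᵥ w ∈ W') ∧ IsCompl W W'
  commt : ∀ (l : ℕ) [Fact l.Prime], ∀ H : Subgroup G, H.FiniteIndex →
      ∀ y : Matrix ι ι (AlgebraicClosure ℚ_[l]),
      (∀ s ∈ img (AlgebraicClosure ℚ_[l]) (ρ l) H, y * s = s * y) →
        y ∈ spanK (AlgebraicClosure ℚ_[l]) D
  gen : ∀ (l : ℕ) [Fact l.Prime], ∀ g : G,
      (ρ l g).1.map (algebraMap ℚ_[l] (AlgebraicClosure ℚ_[l])) ∈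
        tgen (AlgebraicClosure ℚ_[l]) (ρ l)
  bal : ∀ (l : ℕ) [Fact l.Prime], ∀ h ∈ properProj (AlgebraicClosure ℚ_[l]) (ρ l),
      ∀ (i : M →+* AlgebraicClosure ℚ_[l]) (b : Fin m),
        2 * (h * (e b).map i).rank = (e b).rank
  hq : ∀ n : ℕ, n ≠ 0 → q ^ n ≠ 1
  mult : ∀ (l : ℕ) [Fact l.Prime], l ≠ p →
      (ρ l σ).1ᵀ * ψ.map (algebraMap ℚ ℚ_[l]) * (ρ l σ).1 =
        algebraMap ℚ ℚ_[l] q • ψ.map (algebraMap ℚ ℚ_[l])
  frob : ∀ (l : ℕ) [Fact l.Prime], l ≠ p →
      FrobT (AlgebraicClosure ℚ_[l]) (ρ l) e F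
        ((ρ l σ).1.map (algebraMap ℚ_[l] (AlgebraicClosure ℚ_[l])))
  frobp : FrobT (AlgebraicClosure ℚ_[p]) (ρ p) e F φ
  multp : φᵀ * ψ.map (algebraMap ℚ (AlgebraicClosure ℚ_[p])) * φ =
      algebraMap ℚ (AlgebraicClosure ℚ_[p]) q • ψ.map (algebraMap ℚ (AlgebraicClosure ℚ_[p]))
  crys : CrysN (AlgebraicClosure ℚ_[p]) (ρ p) e σ φ μ ν v Δ
  vq : v (algebraMap ℚ (AlgebraicClosure ℚ_[p]) q) = 1
  hN : p ∈ N
  arith : ∀ b, H45P.ArithM (e b).rank R N ρ σ
  munr : ∀ b, ∀ δ ∈ Δ, ∀ z : AlgebraicClosure ℚ_[p], z ^ (e b).rank = 1 → δ z = z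
  Rstab : ∀ s : Ω ≃+* Ω, ∀ r ∈ R, s r ∈ R
  Rval : ∀ i : Ω →+* AlgebraicClosure ℚ_[p],
      ∃ r ∈ R, v (i r) = 1 ∧ ∀ r' ∈ R, r' ≠ r → v (i r') = 0
  Rfix : ∀ i : Ω →+* AlgebraicClosure ℚ_[p], ∀ r ∈ R, ∀ δ ∈ Δ, δ (i r) = i r
  Rtrans : ∀ r ∈ R, ∀ r' ∈ R, ∃ s : Ω ≃+* Ω, s r = r'
  dec : ∀ (s : Ω ≃+* Ω) (T : Finset Ω), ∃ u : ℕ, Odd u ∧ ∃ (l : ℕ) (_ : Fact l.Prime), l ∉ N ∧
      ∃ (i : Ω →+* AlgebraicClosure ℚ_[l]) (t : AlgebraicClosure ℚ_[l] ≃ₐ[ℚ_[l]] AlgebraicClosure ℚ_[l]),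
        ∀ x ∈ T, t (i x) = i ((s ^ u) x)
  gal : ∀ b, ∀ a a' : Ω, (F b).eval₂ j a = 0 → (F b).eval₂ j a' = 0 → a ≠ a' →
      ∃ i : Ω →+* AlgebraicClosure ℚ_[p], v (i a) ≠ v (i a')

end Pool.Agent.H76Y
end

-- from Lib.H76Y.T1
section

/-!
# T1: first facts
-/

set_option autoImplicit false
set_option linter.unusedSectionVars false
namespace Pool.Agent.H76Y
open Pool.Agent.H76P Pool.Agent.H76V Pool.Agent.H76Q
open Module Matrix Pool.Agent.H53Toric
open Pool.Agent.H76T (IsIdeal Fam)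

variable {κ : Type*} {K : Type*} [Field K] [CharZero K] [Fintype κ] [DecidableEq κ]
  {L : Submodule K (Module.End K (κ → K))} {J : Matrix κ κ K} {ν : κ → ℚ}

/-- PROOF. Matrix of `dg f` is diagonal: `LinearMap.trace` is the sum of the diagonal entries (`dg f = Matrix.toLin' (Matrix.diagonal f)`). -/
theorem dg_trace (f : κ → K) : LinearMap.trace K (κ → K) (dg f) = ∑ a, f a := by
  have e : dg f = Matrix.toLin' (Matrix.diagonal f) := by
    refine LinearMap.ext fun v => funext fun a => ?_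
    rw [dg_apply, Matrix.toLin'_apply, Matrix.mulVec_diagonal]
  rw [e, Matrix.trace_toLin'_eq, Matrix.trace_diagonal]

theorem dq_sq {ε : κ → ℚ} (h : ∀ a, ε a = 1 ∨ ε a = -1) :
    (dq ε : Module.End K (κ → K)) * dq ε = 1 := by
  unfold dq
  rw [dg_mul, ← dg_one]
  congr 1
  funext a
  rw [Pi.mul_apply, Pi.one_apply]
  rcases h a with h1 | h1 <;> rw [h1] <;> norm_num

/-- `dq` is additive and compatible with rational scalars. -/
theorem dq_add (f g : κ → ℚ) : (dq (f + g) : Module.End K (κ → K)) = dq f + dq g := by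
  unfold dq
  rw [← dg_add]
  congr 1
  funext a
  rw [Pi.add_apply, Pi.add_apply, Rat.cast_add]

theorem dq_smul (c : ℚ) (f : κ → ℚ) :
    (dq (c • f) : Module.End K (κ → K)) = (c : K) • dq f := by
  unfold dq
  rw [← dg_smul]
  congr 1
  funext a
  rw [Pi.smul_apply, Pi.smul_apply, smul_eq_mul, smul_eq_mul, Rat.cast_mul]

theorem dq_inj {f g : κ → ℚ} (h : (dq f : Module.End K (κ → K)) = dq g) : f = g := by
  have h1 := dg_inj h
  funext a
  have h2 : (f a : K) = (g a : K) := congrFun h1 a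
  exact_mod_cast h2

/-- PROOF. `Submodule.span_induction`, `dq_add`, `dq_smul`. -/
theorem Yo_mem {f : κ → ℚ} (hf : f ∈ Yo L) : dq f ∈ L := by
  unfold Yo at hf
  induction hf using Submodule.span_induction with
  | mem x hx => exact hx.2
  | zero =>
    have h1 : (dq (0 : κ → ℚ) : Module.End K (κ → K)) = 0 := by
      have h2 := dq_smul (K := K) (0 : ℚ) (0 : κ → ℚ)
      rw [zero_smul, Rat.cast_zero, zero_smul] at h2
      exact h2
    rw [h1]
    exact L.zero_mem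
  | add x y _ _ hx hy =>
    rw [dq_add]
    exact L.add_mem hx hy
  | smul c x _ hx =>
    rw [dq_smul]
    exact L.smul_mem _ hx

/-- PROOF. `Yo_mem`, `CmpN.tr`, `dg_trace` (the cast of rational numbers to `K` is injective). -/
theorem Yo_sum (h : CmpN L) {f : κ → ℚ} (hf : f ∈ Yo L) : ∑ a, f a = 0 := by
  have h1 := h.tr _ (Yo_mem hf)
  unfold dq at h1
  rw [dg_trace] at h1
  exact_mod_cast h1

end Pool.Agent.H76Y
end
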