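import Pool.Agent.Lib.H1M.RC.D_H76Q_Q1
import Pool.Agent.Lib.H1M.RC.M033
import Pool.Agent.Lib.H1M.RC.M044
import Pool.Agent.Lib.H1M.RC.M048

/-! Merged copies (to shorten the build) of Lib.H34V.V11, Lib.H45K.K6, Lib.H45Q.S1, Lib.H76Q.X1, Lib.H76Q.X2, Lib.H76Q.X3, Lib.H76Q.X4b. -/

-- from Lib.H34V.V11
section

/-!
# V11: the eigenvalues of two isomorphic blocks
-/

set_option autoImplicit false
set_option linter.unusedSectionVars false
namespace Pool.Agent.H34V
open Module Matrix Pool.Agent.H53Toric Pool.Agent.H76P Pool.Agent.H34Z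

variable {κ κ' : Type*} [Fintype κ] [DecidableEq κ] [Fintype κ'] [DecidableEq κ'] {K : Type*} [Field K] [CharZero K]
  [IsAlgClosed K] {𝓛 : Submodule K (Module.End K (κ → K) × Module.End K (κ' → K))}
  {L : Submodule K (Module.End K (κ → K))} {L' : Submodule K (Module.End K (κ' → K))}
  {d : κ → K} {d' : κ' → K}

theorem v11_inv {κ : Type*} [Fintype κ] [DecidableEq κ] {K : Type*} [Field K] {d : κ → K}
    (hne : ∀ k, d k ≠ 0) (v : κ → K) : dg (fun k => (d k)⁻¹) (dg d v) = v := by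
  funext a
  rw [dg_apply, dg_apply, inv_mul_cancel_left₀ (hne a)]

theorem v11_inv' {κ : Type*} [Fintype κ] [DecidableEq κ] {K : Type*} [Field K] {d : κ → K}
    (hne : ∀ k, d k ≠ 0) (v : κ → K) : dg d (dg (fun k => (d k)⁻¹) v) = v := by
  funext a
  rw [dg_apply, dg_apply, mul_inv_cancel_left₀ (hne a)]

/-- PROOF. Let `E` be the equivalence of `T` (`LinearEquiv.ofBijective`), `S = dg (d'⁻¹) ∘ T ∘ dg d`.  For `(X, X') ∈ 𝓛` the conjugates are in `𝓛` (`h.cnj`), so
`T (dg d X v) = T (dg d X dg d⁻¹ (dg d v)) = dg d' X' dg d'⁻¹ T (dg d v)`, i.e. `S (X v) = X' (S v)`.  So `S ∘ E.symm` commutes with all `X' ∈ L'` (`h.snd`) and is a scalar `t`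
(`H25Y.scalar_of_comm`, `Nontrivial (κ' → K)`): `T (dg d v) = t • dg d' (T v)`.  For `v = Pi.single k 1`: `d k • T v = t • dg d' (T v)`, `T v ≠ 0`; choose `π k` with `T v (π k) ≠ 0`: `d k = t * d' (π k)`. -/
theorem Gz.perm (h : Gz 𝓛 L L' d d') [Nonempty κ'] (hirr' : Irr L') {T : (κ → K) →ₗ[K] (κ' → K)}
    (hb : Function.Bijective T) (hT : ∀ p ∈ 𝓛, ∀ v, T (p.1 v) = p.2 (T v)) :
    ∃ π : κ → κ', ∀ k k', d' (π k) * d k' = d' (π k') * d k := by
  obtain ⟨E, hE⟩ : ∃ E, E = LinearEquiv.ofBijective T hb := ⟨_, rfl⟩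
  have hET : ∀ v, E.symm (T v) = v := by
    intro v
    rw [hE]
    exact (LinearEquiv.ofBijective T hb).symm_apply_apply v
  have hTE : ∀ u, T (E.symm u) = u := by
    intro u
    rw [hE]
    exact (LinearEquiv.ofBijective T hb).apply_symm_apply u
  obtain ⟨S, hS⟩ : ∃ S : (κ → K) →ₗ[K] (κ' → K), ∀ v, S v = dg (fun k => (d' k)⁻¹) (T (dg d v)) :=
    ⟨(dg (fun k => (d' k)⁻¹)) ∘ₗ T ∘ₗ (dg d), fun _ => rfl⟩
  have hSX : ∀ X X', (X, X') ∈ 𝓛 → ∀ v, S (X v) = X' (S v) := by
    intro X X' hX v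
    have h1 := hT _ (h.cnj _ _ hX) (dg d v)
    simp only [Module.End.mul_apply] at h1
    rw [v11_inv h.ne] at h1
    rw [hS, h1, v11_inv h.ne', ← hS]
  obtain ⟨t, ht⟩ := H25Y.scalar_of_comm hirr' (Z := S ∘ₗ E.symm.toLinearMap) (by
    intro X' hX'
    obtain ⟨X, hX⟩ := (h.snd _).1 hX'
    refine LinearMap.ext fun u => ?_
    obtain ⟨v, rfl⟩ := hb.2 u
    change S (E.symm (X' (T v))) = X' (S (E.symm (T v)))
    rw [← hT _ hX v, hET, hET]
    exact hSX X X' hX v)
  have hSt : ∀ v, S v = t • T v := by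
    intro v
    have h1 := LinearMap.congr_fun ht (T v)
    change S (E.symm (T v)) = t • T v at h1
    rwa [hET] at h1
  have hk : ∀ k, ∃ l, d k = t * d' l := by
    intro k
    have h1 : T (Pi.single k 1) ≠ 0 := by
      intro h0
      have h2 : (Pi.single k (1 : K) : κ → K) = 0 := hb.1 (by rw [h0, map_zero])
      have h3 := congrFun h2 k
      rw [Pi.single_eq_same] at h3
      exact one_ne_zero h3
    obtain ⟨l, hl⟩ := Function.ne_iff.1 h1
    refine ⟨l, ?_⟩
    have h4 := congrFun (hSt (Pi.single k 1)) l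
    rw [hS, H25Y.dg_single, map_smul, dg_apply, Pi.smul_apply, Pi.smul_apply, smul_eq_mul,
      smul_eq_mul] at h4
    have h5 := h.ne' l
    have h6 : (d k - t * d' l) * T (Pi.single k 1) l = 0 := by
      have h7 : d' l * ((d' l)⁻¹ * (d k * T (Pi.single k 1) l)) = d' l * (t * T (Pi.single k 1) l) := by
        rw [h4]
      rw [mul_inv_cancel_left₀ h5] at h7
      linear_combination h7
    rcases mul_eq_zero.1 h6 with h7 | h7
    · exact sub_eq_zero.1 h7
    · exact absurd h7 hl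
  choose π hπ using hk
  refine ⟨π, fun k k' => ?_⟩
  rw [hπ k, hπ k']
  ring

/-- PROOF. Write `Xᵗ` for `adjE 1 X` (`adjE 1 (phi A) = phi Aᵀ`: `adjE_phi`, `inv_one`).  `S = dg (d'⁻¹) ∘ T ∘ dg (d⁻¹)`.  For `(X, X') ∈ 𝓛`: `(dg d X dg d⁻¹)ᵗ = dg d⁻¹ Xᵗ dg d`
(`adjE_mul`, a diagonal operator is its own transpose), so `T (dg d⁻¹ Xᵗ (dg d v)) = -dg d' X' dg d'⁻¹ (T v)`; with `v = dg d⁻¹ w`: `S (Xᵗ w) = -X' (S w)`.  So `S ∘ E.symm` commutes with all
`X' ∈ L'`: `S (E.symm (X' (T w))) = S (E.symm (-T (Xᵗ w))) = -S (Xᵗ w) = X' (S w)`; it is a scalar `t`: `T (dg d⁻¹ v) = t • dg d' (T v)`.  For `v = Pi.single k 1` and `T v (π k) ≠ 0`: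
`(d k)⁻¹ = t * d' (π k)`, so `d' (π k) * d k = t⁻¹` (`t ≠ 0`). -/
theorem Gz.perm_dual (h : Gz 𝓛 L L' d d') [Nonempty κ'] (hirr' : Irr L') {T : (κ → K) →ₗ[K] (κ' → K)}
    (hb : Function.Bijective T) (hT : ∀ p ∈ 𝓛, ∀ v, T (adjE (1 : Matrix κ κ K) p.1 v) = -p.2 (T v)) :
    ∃ π : κ → κ', ∀ k k', d' (π k) * d k = d' (π k') * d k' := by
  obtain ⟨E, hE⟩ : ∃ E, E = LinearEquiv.ofBijective T hb := ⟨_, rfl⟩
  have hET : ∀ v, E.symm (T v) = v := by
    intro v
    rw [hE]
    exact (LinearEquiv.ofBijective T hb).symm_apply_apply v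
  have hadj : ∀ g : κ → K, adjE (1 : Matrix κ κ K) (dg g) = dg g := by
    intro g
    rw [a03_dg, adjE_phi, inv_one, one_mul, mul_one, Matrix.diagonal_transpose]
  have h1u : IsUnit (1 : Matrix κ κ K).det := by
    rw [Matrix.det_one]
    exact isUnit_one
  obtain ⟨S, hS⟩ : ∃ S : (κ → K) →ₗ[K] (κ' → K),
      ∀ v, S v = dg (fun k => (d' k)⁻¹) (T (dg (fun k => (d k)⁻¹) v)) :=
    ⟨(dg (fun k => (d' k)⁻¹)) ∘ₗ T ∘ₗ (dg (fun k => (d k)⁻¹)), fun _ => rfl⟩
  have hSX : ∀ X X', (X, X') ∈ 𝓛 → ∀ w, S (adjE (1 : Matrix κ κ K) X w) = -X' (S w) := by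
    intro X X' hX w
    have h1 := hT _ (h.cnj _ _ hX) (dg (fun k => (d k)⁻¹) w)
    simp only at h1
    rw [adjE_mul h1u, adjE_mul h1u, hadj, hadj] at h1
    simp only [Module.End.mul_apply] at h1
    rw [v11_inv' h.ne] at h1
    rw [hS, h1, map_neg, v11_inv h.ne', ← hS]
  obtain ⟨t, ht⟩ := H25Y.scalar_of_comm hirr' (Z := S ∘ₗ E.symm.toLinearMap) (by
    intro X' hX'
    obtain ⟨X, hX⟩ := (h.snd _).1 hX'
    refine LinearMap.ext fun u => ?_
    obtain ⟨v, rfl⟩ := hb.2 u
    change S (E.symm (X' (T v))) = X' (S (E.symm (T v)))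
    have h1 : X' (T v) = T (-(adjE (1 : Matrix κ κ K) X v)) := by
      rw [map_neg, hT _ hX v, neg_neg]
    rw [h1, hET, hET, map_neg, hSX X X' hX v, neg_neg])
  have hSt : ∀ v, S v = t • T v := by
    intro v
    have h1 := LinearMap.congr_fun ht (T v)
    change S (E.symm (T v)) = t • T v at h1
    rwa [hET] at h1
  have hk : ∀ k, ∃ l, t * (d' l * d k) = 1 := by
    intro k
    have h1 : T (Pi.single k 1) ≠ 0 := by
      intro h0
      have h2 : (Pi.single k (1 : K) : κ → K) = 0 := hb.1 (by rw [h0, map_zero])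
      have h3 := congrFun h2 k
      rw [Pi.single_eq_same] at h3
      exact one_ne_zero h3
    obtain ⟨l, hl⟩ := Function.ne_iff.1 h1
    refine ⟨l, ?_⟩
    have h4 := congrFun (hSt (Pi.single k 1)) l
    rw [hS, H25Y.dg_single, map_smul, dg_apply, Pi.smul_apply, Pi.smul_apply, smul_eq_mul,
      smul_eq_mul] at h4
    have h5 := h.ne' l
    have h5' := h.ne k
    have h6 : (1 - t * (d' l * d k)) * T (Pi.single k 1) l = 0 := by
      have h7 : (d' l * d k) * ((d' l)⁻¹ * ((d k)⁻¹ * T (Pi.single k 1) l)) =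
          (d' l * d k) * (t * T (Pi.single k 1) l) := by rw [h4]
      have h8 : (d' l * d k) * ((d' l)⁻¹ * ((d k)⁻¹ * T (Pi.single k 1) l)) = T (Pi.single k 1) l := by
        field_simp
      rw [h8] at h7
      linear_combination h7
    rcases mul_eq_zero.1 h6 with h7 | h7
    · exact (sub_eq_zero.1 h7).symm
    · exact absurd h7 hl
  choose π hπ using hk
  refine ⟨π, fun k k' => ?_⟩
  have ht0 : t ≠ 0 := by
    rintro rfl
    have h1 := hπ k
    rw [zero_mul] at h1
    exact zero_ne_one h1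
  exact mul_left_cancel₀ ht0 ((hπ k).trans (hπ k').symm)

end Pool.Agent.H34V
end

-- from Lib.H45K.K6
section

/-! # K6: the clause cheb of Arith -/

open NumberField IsDedekindDomain Polynomial CFT

namespace H45K

open Pool.Agent.H76Q

section

variable {Ω : Type} [Field Ω] [CharZero Ω] [IsAlgClosed Ω] [Algebra.IsAlgebraic ℚ Ω]

/-- Automorphisms as ring isomorphisms. -/
def k6_hom : (Ω ≃ₐ[ℚ] Ω) →* (Ω ≃+* Ω) where
  toFun s := s.toRingEquiv
  map_one' := rfl
  map_mul' _ _ := rfl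

theorem k6_gal : IsGalois ℚ Ω := by
  have h1 : IsAlgClosure ℚ Ω := ⟨inferInstance, inferInstance⟩
  exact IsAlgClosure.isGalois ℚ Ω

/-- The fixed field of a subgroup which contains the stabiliser of a finite set. -/
theorem k6_field (Γ : Subgroup (Ω ≃+* Ω)) (hT : ∃ T : Finset Ω, ∀ s : Ω ≃+* Ω, (∀ x ∈ T, s x = x) → s ∈ Γ) :
    ∃ E : IntermediateField ℚ Ω, FiniteDimensional ℚ E ∧ (∀ x, x ∈ E ↔ ∀ s ∈ Γ, s x = x) ∧
      ∀ s : Ω ≃+* Ω, (∀ x ∈ E, s x = x) → s ∈ Γ := by
  have hG : IsGalois ℚ Ω := k6_gal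
  obtain ⟨T, hT⟩ := hT
  let Γ' : Subgroup (Ω ≃ₐ[ℚ] Ω) := Γ.comap k6_hom
  let ET : IntermediateField ℚ Ω := IntermediateField.adjoin ℚ (T : Set Ω)
  have hETfin : FiniteDimensional ℚ ET := by
    have : Finite (T : Set Ω) := T.finite_toSet.to_subtype
    exact IntermediateField.finiteDimensional_adjoin fun x _ => (Algebra.IsAlgebraic.isAlgebraic x).isIntegral
  have hle : ET.fixingSubgroup ≤ Γ' := by
    intro s hs
    refine hT _ fun x hx => ?_
    exact hs ⟨x, IntermediateField.subset_adjoin ℚ _ hx⟩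
  have hopen : IsOpen (Γ' : Set (Ω ≃ₐ[ℚ] Ω)) :=
    Subgroup.isOpen_mono hle (IntermediateField.fixingSubgroup_isOpen ET)
  have hclosed : IsClosed (Γ' : Set (Ω ≃ₐ[ℚ] Ω)) := Subgroup.isClosed_of_isOpen _ hopen
  have hring : ∀ s : Ω ≃+* Ω, ∃ s' : Ω ≃ₐ[ℚ] Ω, k6_hom s' = s := by
    intro s
    refine ⟨AlgEquiv.ofRingEquiv (f := s) fun r => ?_, ?_⟩
    · rw [eq_ratCast, map_ratCast]
    · ext x
      rfl
  let E : IntermediateField ℚ Ω := IntermediateField.fixedField Γ'
  have hfix : E.fixingSubgroup = Γ' := InfiniteGalois.fixingSubgroup_fixedField ⟨Γ', hclosed⟩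
  have hmem : ∀ x, x ∈ E ↔ ∀ s ∈ Γ, s x = x := by
    intro x
    rw [IntermediateField.mem_fixedField_iff]
    constructor
    · intro h s hs
      obtain ⟨s', rfl⟩ := hring s
      exact h s' hs
    · intro h s hs
      exact h _ hs
  refine ⟨E, ?_, hmem, fun s hs => ?_⟩
  · have h1 : E ≤ ET := by
      have h2 : IntermediateField.fixedField ET.fixingSubgroup = ET := InfiniteGalois.fixedField_fixingSubgroup ET
      rw [← h2]
      intro x hx
      rw [IntermediateField.mem_fixedField_iff] at hx ⊢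
      exact fun s hs => hx s (hle hs)
    exact Module.Finite.of_injective (IntermediateField.inclusion h1).toLinearMap (IntermediateField.inclusion h1).injective
  · obtain ⟨s', rfl⟩ := hring s
    have h1 : s' ∈ E.fixingSubgroup := by
      intro x
      exact hs x x.2
    rw [hfix] at h1
    exact h1

/-- The clause `cheb`. -/
theorem cheb (R : Finset Ω) (N : Set ℕ) (hN : N.Finite) (Γ : Subgroup (Ω ≃+* Ω))
    (hT : ∃ T : Finset Ω, ∀ s : Ω ≃+* Ω, (∀ x ∈ T, s x = x) → s ∈ Γ)
    (hR : ∀ s ∈ Γ, ∀ r ∈ R, s r = r) (a : Ω) (ha : ∀ s ∈ Γ, s a = a)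
    (h : ∀ (l : ℕ) [Fact l.Prime], l ∉ N → ∀ i : Ω →+* AlgebraicClosure ℚ_[l],
      Dec ℚ_[l] Γ i → (∀ r ∈ R, SqIn ℚ_[l] (i r)) → SqIn ℚ_[l] (i a)) :
    ∃ R' ⊆ R, ∃ c : Ω, (∀ s ∈ Γ, s c = c) ∧ a = (∏ r ∈ R', r) * c ^ 2 := by
  classical
  obtain ⟨E, hfin, hE1, hE2⟩ := k6_field Γ hT
  have hEn : NumberField E := NumberField.of_module_finite ℚ E
  obtain ⟨B, hB⟩ := hN.bddAbove
  set A : Finset E := (R.filter (fun r => r ≠ 0)).attach.image
    (fun r => (⟨r.1, (hE1 _).2 fun s hs => hR s hs _ (Finset.mem_filter.1 r.2).1⟩ : E)) with hA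
  have haE : a ∈ E := (hE1 a).2 ha
  obtain ⟨A', hA', hsq⟩ := k5_main E A ⟨a, haE⟩ B (fun l hl hlB j hj => by
    have hlN : l ∉ N := fun h => absurd (hB h) (not_le.2 hlB)
    let _ : Algebra E (AlgebraicClosure ℚ_[l]) := ((algebraMap ℚ_[l] (AlgebraicClosure ℚ_[l])).comp j).toAlgebra
    have halg : Algebra.IsAlgebraic E Ω := Algebra.IsAlgebraic.tower_top (K := ℚ) E
    let i : Ω →ₐ[E] AlgebraicClosure ℚ_[l] := IsAlgClosed.lift
    have hi : ∀ x : E, i (x : Ω) = algebraMap ℚ_[l] (AlgebraicClosure ℚ_[l]) (j x) := fun x => i.commutes x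
    have h1 := h l hlN i.toRingHom (fun t s hts => by
      refine hE2 s fun x hx => ?_
      apply i.toRingHom.injective
      show i (s x) = i x
      have h2 : t (i x) = i (s x) := hts x
      have h3 : i x = algebraMap ℚ_[l] (AlgebraicClosure ℚ_[l]) (j ⟨x, hx⟩) := hi ⟨x, hx⟩
      rw [← h2, h3, t.commutes]) (fun r hr => by
      by_cases hr0 : r = 0
      · refine ⟨0, ?_⟩
        rw [hr0, map_zero, map_zero]
        ring
      · obtain ⟨y, hy⟩ := hj ⟨r, (hE1 _).2 fun s hs => hR s hs _ hr⟩ (by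
          rw [hA, Finset.mem_image]
          exact ⟨⟨r, Finset.mem_filter.2 ⟨hr, hr0⟩⟩, Finset.mem_attach _ _, rfl⟩)
        refine ⟨y, ?_⟩
        rw [sq, ← map_mul, ← hy]
        exact hi ⟨r, _⟩)
    obtain ⟨y, hy⟩ := h1
    refine ⟨y, ?_⟩
    apply (algebraMap ℚ_[l] (AlgebraicClosure ℚ_[l])).injective
    rw [← hi, map_mul, ← sq]
    exact hy)
  obtain ⟨c, hc⟩ := hsq
  have hinj : Function.Injective (fun x : E => (x : Ω)) := Subtype.coe_injective
  refine ⟨A'.image (fun x : E => (x : Ω)), ?_, (c : Ω) * (∏ r ∈ A'.image (fun x : E => (x : Ω)), r)⁻¹, ?_, ?_⟩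
  · intro x hx
    rw [Finset.mem_image] at hx
    obtain ⟨y, hy, rfl⟩ := hx
    have h1 := hA' hy
    rw [hA, Finset.mem_image] at h1
    obtain ⟨z, -, rfl⟩ := h1
    exact (Finset.mem_filter.1 z.2).1
  · have h1 : (c : Ω) * (∏ r ∈ A'.image (fun x : E => (x : Ω)), r)⁻¹ ∈ E := by
      refine E.mul_mem c.2 (E.inv_mem (E.prod_mem fun x hx => ?_))
      rw [Finset.mem_image] at hx
      obtain ⟨y, -, rfl⟩ := hx
      exact y.2
    exact (hE1 _).1 h1
  · have h1 : (∏ r ∈ A'.image (fun x : E => (x : Ω)), r) ≠ 0 := by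
      rw [Finset.prod_ne_zero_iff]
      intro x hx
      rw [Finset.mem_image] at hx
      obtain ⟨y, hy, rfl⟩ := hx
      have h2 := hA' hy
      rw [hA, Finset.mem_image] at h2
      obtain ⟨z, -, rfl⟩ := h2
      exact (Finset.mem_filter.1 z.2).2
    have h2 : (∏ r ∈ A'.image (fun x : E => (x : Ω)), r) = ((∏ x ∈ A', x : E) : Ω) := by
      rw [Finset.prod_image (fun x _ y _ hxy => hinj hxy)]
      exact (map_prod (algebraMap E Ω) _ _).symm
    have h3 : (∏ r ∈ A'.image (fun x : E => (x : Ω)), r) * a = (c : Ω) * c := by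
      rw [h2]
      exact congrArg (fun x : E => (x : Ω)) hc
    field_simp
    rw [mul_comm, h3]
    ring

end

end H45K
end

-- from Lib.H45Q.S1
section

/-!
# S1: one conjugacy class of Hodge-Tate cocharacters meets one simple ideal only
-/

set_option autoImplicit false
set_option linter.unusedSectionVars false
namespace Pool.Agent.H45Q
open Module Matrix Pool.Agent.H53Toric Pool.Agent.H76P Pool.Agent.H76Q
open Pool.Agent.H76T (IsIdeal Fam)
open Pool.Agent.H76U (cmp)

section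
variable {κ : Type*} {K : Type*} [Field K] [CharZero K] [Fintype κ] [DecidableEq κ]
  {L I : Submodule K (Module.End K (κ → K))}

/-- Conjugation with `t ^ z` for an involution `z` of `L` preserves the ideals. -/
theorem conj_par (hI : IsIdeal L I) {z : Module.End K (κ → K)} (hz : z ∈ L) (hzz : z * z = 1) {t : K}
    (ht : t ≠ 0) {X : Module.End K (κ → K)} (hX : X ∈ I) :
    (((1 + t) / 2) • (1 : Module.End K (κ → K)) + ((t - 1) / 2) • z) * X *
      (((1 + t⁻¹) / 2) • (1 : Module.End K (κ → K)) + ((t⁻¹ - 1) / 2) • z) ∈ I := by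
  have h1 : z * X - X * z ∈ I := hI.2 z hz X hX
  have h2 : z * (z * X - X * z) - (z * X - X * z) * z ∈ I := hI.2 z hz _ h1
  have h3 : z * (z * X - X * z) - (z * X - X * z) * z = (2 : K) • X - (2 : K) • (z * X * z) := by
    have e1 : z * (z * X) = X := by rw [← mul_assoc, hzz, one_mul]
    have e2 : X * z * z = X := by rw [mul_assoc, hzz, mul_one]
    rw [mul_sub, sub_mul, e1, e2, ← mul_assoc z X z]
    module
  rw [h3] at h2
  have h4 : z * X * z ∈ I := by
    have h5 : z * X * z = X - (1 / 2 : K) • ((2 : K) • X - (2 : K) • (z * X * z)) := by module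
    rw [h5]
    exact I.sub_mem hX (I.smul_mem _ h2)
  have h6 : (((1 + t) / 2) • (1 : Module.End K (κ → K)) + ((t - 1) / 2) • z) * X *
      (((1 + t⁻¹) / 2) • (1 : Module.End K (κ → K)) + ((t⁻¹ - 1) / 2) • z) =
      ((1 + t) / 2 * ((1 + t⁻¹) / 2)) • X + ((1 + t) / 2 * ((t⁻¹ - 1) / 2)) • (X * z) +
        ((t - 1) / 2 * ((1 + t⁻¹) / 2)) • (z * X) + ((t - 1) / 2 * ((t⁻¹ - 1) / 2)) • (z * X * z) := by
    simp only [add_mul, mul_add, smul_mul_assoc, mul_smul_comm, one_mul, mul_one, smul_smul, smul_add]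
    module
  have h7 : (1 + t) / 2 * ((t⁻¹ - 1) / 2) = -((t - 1) / 2 * ((1 + t⁻¹) / 2)) := by
    field_simp
    ring
  have h8 : ((1 + t) / 2 * ((1 + t⁻¹) / 2)) • X + ((1 + t) / 2 * ((t⁻¹ - 1) / 2)) • (X * z) +
        ((t - 1) / 2 * ((1 + t⁻¹) / 2)) • (z * X) + ((t - 1) / 2 * ((t⁻¹ - 1) / 2)) • (z * X * z) =
      ((1 + t) / 2 * ((1 + t⁻¹) / 2)) • X + ((t - 1) / 2 * ((1 + t⁻¹) / 2)) • (z * X - X * z) +
        ((t - 1) / 2 * ((t⁻¹ - 1) / 2)) • (z * X * z) := by
    rw [h7]
    module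
  rw [h6, h8]
  exact I.add_mem (I.add_mem (I.smul_mem _ hX) (I.smul_mem _ h1)) (I.smul_mem _ h4)

end

section
variable {ι : Type*} [Fintype ι] [DecidableEq ι] {K : Type*} [Field K] [CharZero K]
  {e : Matrix ι ι K} {n : ℕ} {U : Matrix ι (Fin n) K} {V : Matrix (Fin n) ι K}

/-- The compression of `t ^ k`. -/
theorem cmp_par (hUV : e = U * V) (hVU : V * U = 1) (k : Matrix ι ι K) (t : K) :
    phi (cmp U V (1 + (t - 1) • k)) =
      ((1 + t) / 2) • (1 : Module.End K (Fin n → K)) +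
        ((t - 1) / 2) • phi (cmp U V ((2 : K) • k - 1)) := by
  have h5 : 1 + (t - 1) • k = ((1 + t) / 2) • (1 : Matrix ι ι K) + ((t - 1) / 2) • ((2 : K) • k - 1) := by
    rw [smul_sub, smul_smul]
    module
  rw [h5, map_add, map_smul, map_smul, Pool.Agent.H76U.cmp_one hUV hVU, map_add, map_smul, map_smul, map_one]

theorem cmp_inv (hUV : e = U * V) (hVU : V * U = 1) {k : Matrix ι ι K} (hkk : k * k = k) (hke : k * e = e * k) :
    phi (cmp U V ((2 : K) • k - 1)) * phi (cmp U V ((2 : K) • k - 1)) = 1 := by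
  have h2 : ((2 : K) • k - 1) * e = e * ((2 : K) • k - 1) := by
    rw [sub_mul, mul_sub, one_mul, mul_one, smul_mul_assoc, mul_smul_comm, hke]
  have h3 : ((2 : K) • k - 1) * ((2 : K) • k - 1) = 1 := by
    simp only [sub_mul, mul_sub, smul_mul_assoc, mul_smul_comm, hkk, mul_one, one_mul]
    module
  rw [← map_mul, ← Pool.Agent.H76U.cmp_mul hUV hVU h2, h3, Pool.Agent.H76U.cmp_one hUV hVU, map_one]

theorem inv_comm {y y' : Matrix ι ι K} (hy : y * y' = 1) (hye : y * e = e * y) : y' * e = e * y' := by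
  have h0 : y' * y = 1 := mul_eq_one_comm.1 hy
  calc y' * e = y' * (e * (y * y')) := by rw [hy, Matrix.mul_one]
    _ = y' * ((e * y) * y') := by rw [Matrix.mul_assoc e y y']
    _ = y' * ((y * e) * y') := by rw [hye]
    _ = (y' * y) * (e * y') := by simp only [Matrix.mul_assoc]
    _ = e * y' := by rw [h0, Matrix.one_mul]

/-- Conjugation with the elements of the group generated by the one parameter groups preserves the ideals. -/
theorem conj_tgen (hUV : e = U * V) (hVU : V * U = 1) {𝓗 : Set (Matrix ι ι K)}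
    {L I : Submodule K (Module.End K (Fin n → K))}
    (par : ∀ k ∈ 𝓗, k * k = k ∧ k * e = e * k ∧ phi (cmp U V ((2 : K) • k - 1)) ∈ L) (hI : IsIdeal L I)
    {y : Matrix ι ι K} (hy : y ∈ Submonoid.closure {x | ∃ k ∈ 𝓗, ∃ t : K, t ≠ 0 ∧ x = 1 + (t - 1) • k}) :
    y * e = e * y ∧ ∀ y', y * y' = 1 → ∀ X ∈ I, phi (cmp U V y) * X * phi (cmp U V y') ∈ I := by
  induction hy using Submonoid.closure_induction with
  | mem y hy =>
    obtain ⟨k, hk, t, ht, rfl⟩ := hy
    obtain ⟨hkk, hke, hkL⟩ := par k hk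
    refine ⟨by rw [add_mul, mul_add, one_mul, mul_one, smul_mul_assoc, mul_smul_comm, hke], ?_⟩
    intro y' hyy X hX
    have h1 : (1 + (t - 1) • k) * (1 + (t⁻¹ - 1) • k) = 1 := by
      simp only [add_mul, mul_add, smul_mul_assoc, mul_smul_comm, one_mul, mul_one, hkk]
      have e1 : (t - 1) + (t⁻¹ - 1) + (t - 1) * (t⁻¹ - 1) = 0 := by
        field_simp
        ring
      calc _ = (1 : Matrix ι ι K) + ((t - 1) + (t⁻¹ - 1) + (t - 1) * (t⁻¹ - 1)) • k := by module
        _ = 1 := by rw [e1, zero_smul, add_zero]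
    have h2 : y' = 1 + (t⁻¹ - 1) • k := by
      have h3 : y' * (1 + (t - 1) • k) = 1 := mul_eq_one_comm.1 hyy
      calc y' = y' * ((1 + (t - 1) • k) * (1 + (t⁻¹ - 1) • k)) := by rw [h1, mul_one]
        _ = 1 + (t⁻¹ - 1) • k := by rw [← mul_assoc, h3, one_mul]
    rw [h2, cmp_par hUV hVU, cmp_par hUV hVU]
    exact conj_par hI hkL (cmp_inv hUV hVU hkk hke) ht hX
  | one =>
    refine ⟨by rw [one_mul, mul_one], fun y' hy X hX => ?_⟩
    rw [one_mul] at hy
    rw [hy, Pool.Agent.H76U.cmp_one hUV hVU, map_one, one_mul, mul_one]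
    exact hX
  | mul a b _ _ iha ihb =>
    obtain ⟨ha, iha⟩ := iha
    obtain ⟨hb, ihb⟩ := ihb
    refine ⟨by rw [mul_assoc, hb, ← mul_assoc, ha, mul_assoc], fun y' hy X hX => ?_⟩
    have h1 : a * (b * y') = 1 := by rw [← mul_assoc, hy]
    have h2 : y' * (a * b) = 1 := mul_eq_one_comm.1 hy
    have h3 : (y' * a) * b = 1 := by rw [mul_assoc, h2]
    have h4 : b * (y' * a) = 1 := mul_eq_one_comm.1 h3
    have h5 : y' = (y' * a) * (b * y') := by
      calc y' = y' * (a * (b * y')) := by rw [h1, mul_one]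
        _ = (y' * a) * (b * y') := (mul_assoc _ _ _).symm
    have ha' : (b * y') * e = e * (b * y') := inv_comm h1 ha
    have h6 := iha (b * y') h1 _ (ihb (y' * a) h4 X hX)
    have h7 : phi (cmp U V (a * b)) * X * phi (cmp U V y') =
        phi (cmp U V a) * (phi (cmp U V b) * X * phi (cmp U V (y' * a))) * phi (cmp U V (b * y')) := by
      nth_rw 1 [h5]
      rw [Pool.Agent.H76U.cmp_mul hUV hVU hb, Pool.Agent.H76U.cmp_mul hUV hVU ha', map_mul, map_mul]
      simp only [mul_assoc]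
    rw [h7]
    exact h6

variable [IsAlgClosed K]

/-- **One class, one ideal.** -/
theorem fam_one (hn : 0 < n) (hUV : e = U * V) (hVU : V * U = 1) {𝓗 Gs : Set (Matrix ι ι K)}
    {L : Submodule K (Module.End K (Fin n → K))} (hirr : Irr L)
    (htr : ∀ X ∈ L, LinearMap.trace K (Fin n → K) X = 0)
    (par : ∀ k ∈ 𝓗, k * k = k ∧ k * e = e * k ∧ phi (cmp U V ((2 : K) • k - 1)) ∈ L)
    (comm : ∀ Z : Matrix ι ι K, (∀ g ∈ Gs, Z * g = g * Z) → ∃ c : K, e * Z * e = c • e)
    {h : Matrix ι ι K} (hh : h ∈ 𝓗)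
    (gen1 : ∀ g ∈ Gs, g ∈ Submonoid.closure {x | ∃ y y' : Matrix ι ι K,
      y ∈ Submonoid.closure {x | ∃ k ∈ 𝓗, ∃ t : K, t ≠ 0 ∧ x = 1 + (t - 1) • k} ∧ y * y' = 1 ∧
        ∃ t : K, t ≠ 0 ∧ x = 1 + (t - 1) • (y * h * y')})
    {m : ℕ} {I : Fin m → Submodule K (Module.End K (Fin n → K))} (hF : Fam L I) : m = 1 := by
  have hne : Nonempty (Fin n) := ⟨⟨0, hn⟩⟩
  obtain ⟨hhh, hhe, hhL⟩ := par h hh
  have hyy := cmp_inv hUV hVU hhh hhe
  obtain ⟨j₀, hj₀⟩ : ∃ j, phi (cmp U V ((2 : K) • h - 1)) ∈ I j := by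
    refine Pool.Agent.H76T.Fam.one hF hirr htr hhL (fun h0 => ?_) (a := 0) (b := -1) ?_
    · rw [h0, mul_zero] at hyy
      exact zero_ne_one hyy
    · rw [hyy, zero_smul, add_zero]
      module
  -- conjugates of `h`
  have hconj : ∀ y y' : Matrix ι ι K, y ∈ Submonoid.closure {x | ∃ k ∈ 𝓗, ∃ t : K, t ≠ 0 ∧ x = 1 + (t - 1) • k} →
      y * y' = 1 → (y * h * y') * e = e * (y * h * y') ∧ phi (cmp U V ((2 : K) • (y * h * y') - 1)) ∈ I j₀ := by
    intro y y' hy hy1
    obtain ⟨hye, h1⟩ := conj_tgen hUV hVU par (hF.ideal j₀) hy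
    have hy'e : y' * e = e * y' := inv_comm hy1 hye
    have h2 := h1 y' hy1 _ hj₀
    have h2e : ((2 : K) • h - 1) * e = e * ((2 : K) • h - 1) := by
      rw [sub_mul, mul_sub, one_mul, mul_one, smul_mul_assoc, mul_smul_comm, hhe]
    refine ⟨?_, ?_⟩
    · calc (y * h * y') * e = y * h * (y' * e) := by rw [Matrix.mul_assoc]
        _ = y * h * (e * y') := by rw [hy'e]
        _ = y * (h * e) * y' := by simp only [Matrix.mul_assoc]
        _ = y * (e * h) * y' := by rw [hhe]
        _ = (y * e) * h * y' := by simp only [Matrix.mul_assoc]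
        _ = (e * y) * h * y' := by rw [hye]
        _ = e * (y * h * y') := by simp only [Matrix.mul_assoc]
    · have h3 : (2 : K) • (y * h * y') - 1 = y * ((2 : K) • h - 1) * y' := by
        rw [mul_sub, sub_mul, mul_one, hy1, mul_smul_comm, smul_mul_assoc]
      rw [h3, Pool.Agent.H76U.cmp_mul hUV hVU hy'e, Pool.Agent.H76U.cmp_mul hUV hVU h2e, map_mul, map_mul]
      exact h2
  -- the other ideals commute with everything
  have hother : ∀ j, j ≠ j₀ → ∀ Z ∈ I j, ∀ g ∈ Gs, g * e = e * g ∧ phi (cmp U V g) * Z = Z * phi (cmp U V g) := by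
    intro j hj Z hZ g hg
    have hg1 := gen1 g hg
    clear hg
    induction hg1 using Submonoid.closure_induction with
    | mem x hx =>
      obtain ⟨y, y', hy, hy1, t, ht, rfl⟩ := hx
      obtain ⟨h1, h2⟩ := hconj y y' hy hy1
      refine ⟨by rw [add_mul, mul_add, one_mul, mul_one, smul_mul_assoc, mul_smul_comm, h1], ?_⟩
      rw [cmp_par hUV hVU, add_mul, mul_add, smul_mul_assoc, smul_mul_assoc, mul_smul_comm, mul_smul_comm,
        hF.comm j₀ j (Ne.symm hj) _ h2 Z hZ, one_mul, mul_one]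
    | one =>
      refine ⟨by rw [one_mul, mul_one], ?_⟩
      rw [Pool.Agent.H76U.cmp_one hUV hVU, map_one, one_mul, mul_one]
    | mul a b _ _ iha ihb =>
      obtain ⟨ha, iha⟩ := iha
      obtain ⟨hb, ihb⟩ := ihb
      refine ⟨by rw [mul_assoc, hb, ← mul_assoc, ha, mul_assoc], ?_⟩
      rw [Pool.Agent.H76U.cmp_mul hUV hVU hb, map_mul, mul_assoc, ihb, ← mul_assoc, iha, mul_assoc]
  have hmat : ∀ X : Module.End K (Fin n → K), ∃ y : Matrix (Fin n) (Fin n) K, X = phi y := by
    intro X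
    obtain ⟨y, rfl⟩ := (phi (ι := Fin n) (K := K)).surjective X
    exact ⟨y, rfl⟩
  have hall : ∀ j, j = j₀ := by
    intro j
    by_contra hj
    apply hF.ne_bot j
    rw [Submodule.eq_bot_iff]
    intro Z hZ
    obtain ⟨z, rfl⟩ := hmat Z
    have h1 : ∀ g ∈ Gs, (U * z * V) * g = g * (U * z * V) := by
      intro g hg
      obtain ⟨hge, h2⟩ := hother j hj _ hZ g hg
      rw [← map_mul, ← map_mul] at h2
      have h3 := (phi (ι := Fin n) (K := K)).injective h2
      calc (U * z * V) * g = U * z * (V * g) := by rw [Matrix.mul_assoc]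
        _ = U * z * (cmp U V g * V) := by rw [Pool.Agent.H76U.cmp_Q hUV hVU hge]
        _ = U * (z * cmp U V g) * V := by simp only [Matrix.mul_assoc]
        _ = U * (cmp U V g * z) * V := by rw [h3]
        _ = (U * cmp U V g) * z * V := by simp only [Matrix.mul_assoc]
        _ = (g * U) * z * V := by rw [Pool.Agent.H76U.P_cmp hUV hVU hge]
        _ = g * (U * z * V) := by simp only [Matrix.mul_assoc]
    obtain ⟨c, hc⟩ := comm _ h1
    have h2 : z = c • 1 := by
      have h3 : V * (e * (U * z * V) * e) * U = z := by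
        rw [hUV]
        calc V * (U * V * (U * z * V) * (U * V)) * U = (V * U) * (V * U) * z * (V * U) * (V * U) := by
              simp only [Matrix.mul_assoc]
          _ = z := by rw [hVU]; simp only [Matrix.one_mul, Matrix.mul_one]
      have h4 : V * (c • e) * U = c • 1 := by
        rw [hUV, Matrix.mul_smul, Matrix.smul_mul]
        calc c • (V * (U * V) * U) = c • ((V * U) * (V * U)) := by simp only [Matrix.mul_assoc]
          _ = c • 1 := by rw [hVU, Matrix.one_mul]
      rw [← h3, hc, h4]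
    have h5 := htr _ ((hF.ideal j).1 hZ)
    rw [h2, map_smul, map_one, map_smul, LinearMap.trace_one, smul_eq_mul, Module.finrank_fintype_fun_eq_card,
      Fintype.card_fin, mul_eq_zero] at h5
    rcases h5 with h5 | h5
    · rw [h2, h5, zero_smul, map_zero]
    · exact absurd (Nat.cast_eq_zero.1 h5) hn.ne'
  have h1 : Subsingleton (Fin m) := ⟨fun a b => by rw [hall a, hall b]⟩
  have h2 : m ≤ 1 := by
    by_contra hcon
    have h3 := hall ⟨0, by omega⟩
    have h4 := hall ⟨1, by omega⟩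
    have h5 := congrArg Fin.val (h3.trans h4.symm)
    exact absurd h5 (by norm_num)
  have h3 : 0 < m := lt_of_le_of_lt (Nat.zero_le _) j₀.2
  omega

end

end Pool.Agent.H45Q
end

-- from Lib.H76Q.X1
section

/-!
# the trace of an involution is an integer
-/

set_option autoImplicit false
set_option linter.unusedSectionVars false
namespace Pool.Agent.H76Q
open Module Matrix Polynomial TensorProduct Pool.Agent.H53Toric
open Pool.Agent.H76P
open Pool.Agent.H76T (IsIdeal Fam Lc)
open Pool.Agent.H76V (Cmp)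
open Pool.Agent.H76U (cmp preL IsSplitting)
open Pool.Agent.H76RM (spanK similD)

/-- PROOF. `p = (1 + f) / 2` is idempotent, so its trace is the dimension of its range (`LinearMap.IsProj.trace` or
`LinearMap.IsIdempotentElem` API), and `trace f = 2 * trace p - finrank V`. -/
theorem tr_int {K : Type*} [Field K] [CharZero K] {V : Type*} [AddCommGroup V] [Module K V]
    [FiniteDimensional K V] (f : V →ₗ[K] V) (hf : ∀ x, f (f x) = x) :
    ∃ n : ℤ, LinearMap.trace K V f = n := by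
  set p : V →ₗ[K] V := (1 / 2 : K) • (LinearMap.id + f) with hp
  have hpx : ∀ x, p x = (1 / 2 : K) • (x + f x) := fun x => rfl
  have hproj : LinearMap.IsProj (LinearMap.range p) p := by
    refine ⟨fun x => ⟨x, rfl⟩, ?_⟩
    rintro _ ⟨y, rfl⟩
    rw [hpx (p y), hpx y, map_smul, map_add, hf, add_comm (f y) y, ← two_smul K, smul_smul]
    norm_num
  have h1 := hproj.trace
  have h2 : LinearMap.trace K V p = (1 / 2 : K) * ((finrank K V : K) + LinearMap.trace K V f) := by
    rw [hp, map_smul, map_add, LinearMap.trace_id, smul_eq_mul]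
  refine ⟨2 * (finrank K (LinearMap.range p) : ℤ) - (finrank K V : ℤ), ?_⟩
  push_cast
  rw [← h1, h2]
  ring

end Pool.Agent.H76Q
end

-- from Lib.H76Q.X2
section

/-!
# the trace and semilinear maps
-/

set_option autoImplicit false
set_option linter.unusedSectionVars false
namespace Pool.Agent.H76Q
open Module Matrix Polynomial TensorProduct Pool.Agent.H53Toric
open Pool.Agent.H76P
open Pool.Agent.H76T (IsIdeal Fam Lc)
open Pool.Agent.H76V (Cmp)
open Pool.Agent.H76U (cmp preL IsSplitting)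
open Pool.Agent.H76RM (spanK similD)

/-- PROOF. `b` = a basis of `V`; `θ ∘ b` is a basis of `V'` (`θ` is semilinear for `τ`: use `RingHomInvPair` of `τ`, `τ.symm`, or show linear independence and
spanning by hand); the matrix of `f'` is the matrix of `f` with `τ` applied to the entries; `LinearMap.trace_eq_matrix_trace`. -/
theorem tr_semi {K : Type*} [Field K] {V V' : Type*} [AddCommGroup V] [Module K V]
    [AddCommGroup V'] [Module K V'] [FiniteDimensional K V] (τ : K ≃+* K) (θ : V ≃+ V')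
    (hθ : ∀ (c : K) (x : V), θ (c • x) = τ c • θ x) (f : V →ₗ[K] V) (f' : V' →ₗ[K] V')
    (hf : ∀ x, θ (f x) = f' (θ x)) : LinearMap.trace K V' f' = τ (LinearMap.trace K V f) := by
  classical
  have hθ' : ∀ (c : K) (x : V'), θ.symm (c • x) = τ.symm c • θ.symm x := by
    intro c x
    apply θ.injective
    rw [hθ, AddEquiv.apply_symm_apply, RingEquiv.apply_symm_apply, AddEquiv.apply_symm_apply]
  let b := Module.finBasis K V
  let e : V' ≃ₗ[K] (Fin (finrank K V) → K) :=
    { toFun := fun x i => τ (b.equivFun (θ.symm x) i)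
      invFun := fun w => θ (b.equivFun.symm fun i => τ.symm (w i))
      map_add' := fun x y => by
        funext i
        rw [map_add, map_add, Pi.add_apply, Pi.add_apply, map_add]
      map_smul' := fun c x => by
        funext i
        rw [hθ', map_smul, Pi.smul_apply, Pi.smul_apply, smul_eq_mul, smul_eq_mul, map_mul,
          RingEquiv.apply_symm_apply, RingHom.id_apply]
      left_inv := fun x => by
        show θ (b.equivFun.symm fun i => τ.symm (τ (b.equivFun (θ.symm x) i))) = x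
        have h1 : (fun i => τ.symm (τ (b.equivFun (θ.symm x) i))) = b.equivFun (θ.symm x) := by
          funext i
          exact τ.symm_apply_apply _
        rw [h1, LinearEquiv.symm_apply_apply, AddEquiv.apply_symm_apply]
      right_inv := fun w => by
        funext i
        show τ (b.equivFun (θ.symm (θ (b.equivFun.symm fun i => τ.symm (w i)))) i) = w i
        rw [AddEquiv.symm_apply_apply, LinearEquiv.apply_symm_apply, RingEquiv.apply_symm_apply] }
  let b' : Basis (Fin (finrank K V)) K V' := Basis.ofEquivFun e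
  have hb' : ∀ j, b' j = θ (b j) := by
    intro j
    apply e.injective
    have h1 : e (b' j) = Pi.single j 1 := by
      show e ((Basis.ofEquivFun e) j) = _
      rw [Basis.coe_ofEquivFun, LinearEquiv.apply_symm_apply]
    rw [h1]
    funext i
    show (Pi.single j 1 : Fin (finrank K V) → K) i = τ (b.equivFun (θ.symm (θ (b j))) i)
    rw [AddEquiv.symm_apply_apply, Basis.equivFun_self, Pi.single_apply]
    by_cases hij : i = j
    · subst hij
      simp
    · rw [if_neg hij, if_neg (fun h => hij h.symm), map_zero]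
  rw [LinearMap.trace_eq_matrix_trace K b', LinearMap.trace_eq_matrix_trace K b, Matrix.trace,
    Matrix.trace, map_sum]
  refine Finset.sum_congr rfl fun i _ => ?_
  rw [Matrix.diag_apply, Matrix.diag_apply, LinearMap.toMatrix_apply, LinearMap.toMatrix_apply,
    hb', ← hf]
  show e (θ (f (b i))) i = τ (b.repr (f (b i)) i)
  show τ (b.equivFun (θ.symm (θ (f (b i)))) i) = τ (b.repr (f (b i)) i)
  rw [AddEquiv.symm_apply_apply]
  rfl

end Pool.Agent.H76Q
end

-- from Lib.H76Q.X3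
section

/-!
# the trace of the adjoint involution
-/

set_option autoImplicit false
set_option linter.unusedSectionVars false
namespace Pool.Agent.H76Q
open Module Matrix Polynomial TensorProduct Pool.Agent.H53Toric
open Pool.Agent.H76P
open Pool.Agent.H76T (IsIdeal Fam Lc)
open Pool.Agent.H76V (Cmp)
open Pool.Agent.H76U (cmp preL IsSplitting)
open Pool.Agent.H76RM (spanK similD)

/-- PROOF. `adjE J = phi ∘ adjL J ∘ phi⁻¹`, so the trace is the trace of `adjL J` (`LinearMap.trace_conj'`), which is (basis of the matrix units,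
`LinearMap.trace_eq_matrix_trace`) the sum over `k, l` of the entry `(k, l)` of `J⁻¹ * E_lk * J`, i.e. `∑ k, ∑ l, J⁻¹ k l * J k l = -∑ k, ∑ l, J⁻¹ k l * J l k = -trace 1`. -/
theorem tr_adj {K : Type*} [Field K] {κ : Type*} [Fintype κ] [DecidableEq κ] {J : Matrix κ κ K}
    (hJ : Jᵀ = -J) (hdet : IsUnit J.det) :
    LinearMap.trace K (Module.End K (κ → K)) (adjE J) = -(Fintype.card κ : K) := by
  have h1 : adjE J = (phi (ι := κ) (K := K)).toLinearEquiv.conj (adjL J) := rfl
  rw [h1, LinearMap.trace_conj', LinearMap.trace_eq_matrix_trace K (Matrix.stdBasis K κ κ), Matrix.trace,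
    Fintype.sum_prod_type]
  have h2 : ∀ (M : Matrix κ κ K) (k l : κ), (Matrix.stdBasis K κ κ).repr M (k, l) = M k l := by
    intro M k l
    rfl
  have h3 : ∀ k l : κ, (LinearMap.toMatrix (Matrix.stdBasis K κ κ) (Matrix.stdBasis K κ κ) (adjL J)).diag (k, l) =
      -(J⁻¹ k l * J l k) := by
    intro k l
    rw [Matrix.diag_apply, LinearMap.toMatrix_apply, h2, Matrix.stdBasis_eq_single, adjL_apply,
      Matrix.transpose_single, Matrix.mul_apply, Finset.sum_eq_single k]
    · rw [Matrix.mul_single_apply_same, mul_one]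
      have h4 : J k l = - J l k := by
        have := congrFun (congrFun hJ l) k
        rw [Matrix.transpose_apply] at this
        exact this
      rw [h4, mul_neg]
    · intro x _ hx
      rw [Matrix.mul_single_apply_of_ne, zero_mul]
      exact hx
    · intro h
      exact absurd (Finset.mem_univ k) h
  rw [Finset.sum_congr rfl fun k _ => Finset.sum_congr rfl fun l _ => h3 k l]
  have h5 : ∀ k, ∑ l, -(J⁻¹ k l * J l k) = -1 := by
    intro k
    rw [Finset.sum_neg_distrib, ← Matrix.mul_apply, Matrix.nonsing_inv_mul _ hdet, Matrix.one_apply_eq]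
  rw [Finset.sum_congr rfl fun k _ => h5 k, Finset.sum_const, Finset.card_univ]
  simp

end Pool.Agent.H76Q
end

-- from Lib.H76Q.X4b
section

/-!
# the number of points is the product of the numbers of classes
-/

set_option autoImplicit false
set_option linter.unusedSectionVars false
namespace Pool.Agent.H76Q
open Module Matrix Polynomial TensorProduct Pool.Agent.H53Toric
open Pool.Agent.H76P
open Pool.Agent.H76T (IsIdeal Fam Lc)
open Pool.Agent.H76V (Cmp)
open Pool.Agent.H76U (cmp preL IsSplitting)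
open Pool.Agent.H76RM (spanK similD)

variable {κ : Type*} [Fintype κ] [DecidableEq κ] {Y : Submodule ℚ (κ → ℚ)} {P : Module.End ℚ Y}

/-- PROOF. The map which sends `k` to `(c, c')`, `c` = the index with `cz P c k`, `cz (1 - P) c k₀`, `c'` = the index with `cz (1 - P) c' k`, `cz P c' k₀` (`Sp.exists_mx`), is a
bijection from `κ` to the product (`cz_both`; the inverse sends `(c, c')` to the index `k` with `cz P k c`, `cz (1 - P) k c'`). -/
theorem card_mul_cz (hsep : ∀ a b : κ, a ≠ b → ∃ f ∈ Y, f a ≠ f b) (hP : Sp P) (k₀ : κ) :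
    Fintype.card κ = Nat.card {k // cz (1 - P) k k₀} * Nat.card {k // cz P k k₀} := by
  choose m hm1 hm2 using hP.exists_mx
  -- `m k k'` has first coordinate of `k` and second of `k'`
  let F : κ → {k // cz (1 - P) k k₀} × {k // cz P k k₀} := fun k =>
    (⟨m k k₀, hm2 k k₀⟩, ⟨m k₀ k, hm1 k₀ k⟩)
  have hF : Function.Bijective F := by
    constructor
    · intro k l hkl
      have h1 : m k k₀ = m l k₀ := congrArg (fun x => (x.1 : κ)) hkl
      have h2 : m k₀ k = m k₀ l := congrArg (fun x => (x.2 : κ)) hkl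
      have a1 := hm1 k k₀
      have a2 := hm1 l k₀
      rw [← h1] at a2
      have b1 := hm2 k₀ k
      have b2 := hm2 k₀ l
      rw [← h2] at b2
      exact cz_both hsep (cz_trans (cz_symm a1) a2) (cz_trans (cz_symm b1) b2)
    · rintro ⟨⟨c, hc⟩, ⟨c', hc'⟩⟩
      refine ⟨m c c', ?_⟩
      have h1 : m (m c c') k₀ = c :=
        cz_both hsep (cz_trans (hm1 (m c c') k₀) (hm1 c c'))
          (cz_trans (hm2 (m c c') k₀) (cz_symm hc))
      have h2 : m k₀ (m c c') = c' :=
        cz_both hsep (cz_trans (hm1 k₀ (m c c')) (cz_symm hc'))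
          (cz_trans (hm2 k₀ (m c c')) (hm2 c c'))
      exact Prod.ext (Subtype.ext h1) (Subtype.ext h2)
  rw [← Nat.card_eq_fintype_card, Nat.card_eq_of_bijective F hF, Nat.card_prod]

end Pool.Agent.H76Q
end
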