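import Pool.Agent.Lib.H1M.RC.M040
import Pool.Agent.Lib.H1M.RC.M042
import Pool.Agent.Lib.H1M.RC.M048

/-! Merged copies (to shorten the build) of Lib.H76Q.A2, Lib.H76Q.A3, Lib.H76Q.A5, Lib.H76Q.A4, Lib.H76Q.A6, Lib.H76Q.A7, Lib.H76Q.D1, Lib.H76Q.E3, Lib.H76Q.E5, Lib.H76Y.T2, Lib.H76Y.T3, Lib.H76Y.V2, Lib.H76Y.T4, Lib.H76Y.T13, Lib.H76Y.T9, Lib.H76Y.T7, Lib.H76Y.T8. -/

-- from Lib.H76Q.A2
section

/-!
# the space YS
-/

set_option autoImplicit false
set_option linter.unusedSectionVars false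
namespace Pool.Agent.H76Q
open Module Matrix Pool.Agent.H53Toric
open Pool.Agent.H76P
open Pool.Agent.H76T (IsIdeal Fam)
open Pool.Agent.H76V (Cmp)

variable {κ : Type*} [Fintype κ] [DecidableEq κ]

theorem a2_mem {K : Type*} [Field K] {d : κ → K} {f : κ → ℚ} : f ∈ YS d ↔
    ∑ k, f k = 0 ∧ ∃ c : ℚ, ∀ m : κ → ℤ, ∏ k, d k ^ m k = 1 →
      ∑ k, (m k : ℚ) * (f k - c) = 0 := Iff.rfl

/-- PROOF. `∏ (i (d k)) ^ m k = i (∏ d k ^ m k)`, `i` is injective. -/
theorem YS_map {K K' : Type*} [Field K] [Field K'] (i : K →+* K') (d : κ → K) :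
    YS (fun k => i (d k)) = YS d := by
  have h1 : ∀ m : κ → ℤ, ∏ k, i (d k) ^ m k = 1 ↔ ∏ k, d k ^ m k = 1 := by
    intro m
    have h2 : ∏ k, i (d k) ^ m k = i (∏ k, d k ^ m k) := by
      rw [map_prod]
      exact Finset.prod_congr rfl fun k _ => (map_zpow₀ i (d k) (m k)).symm
    rw [h2, map_eq_one_iff i i.injective]
  ext f
  rw [a2_mem, a2_mem]
  simp_rw [h1]

/-- PROOF. As in `H76P.gal_mem`. -/
theorem YS_perm {K : Type*} [Field K] {d : κ → K} {s : K →+* K} {σ : Equiv.Perm κ}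
    (hσ : ∀ k, d (σ k) = s (d k)) {f : κ → ℚ} (hf : f ∈ YS d) : f ∘ σ ∈ YS d := by
  obtain ⟨h1, c, h2⟩ := a2_mem.1 hf
  refine a2_mem.2 ⟨?_, c, fun m hm => ?_⟩
  · rw [← h1]
    exact Equiv.sum_comp σ f
  · have h3 : ∏ k, d k ^ m (σ.symm k) = 1 := by
      rw [← Equiv.prod_comp σ fun k => d k ^ m (σ.symm k)]
      have h4 : ∏ k, d (σ k) ^ m (σ.symm (σ k)) = s (∏ k, d k ^ m k) := by
        rw [map_prod]
        refine Finset.prod_congr rfl fun k _ => ?_
        rw [Equiv.symm_apply_apply, hσ, map_zpow₀]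
      rw [h4, hm, map_one]
    have h5 := h2 _ h3
    rw [← Equiv.sum_comp σ fun k => ((m (σ.symm k) : ℤ) : ℚ) * (f k - c)] at h5
    rw [← h5]
    refine Finset.sum_congr rfl fun k _ => ?_
    rw [Equiv.symm_apply_apply, Function.comp_apply]

theorem a2_single {K : Type*} [Field K] (d : κ → K) (k : κ) :
    ∏ j, d j ^ (Pi.single k (1 : ℤ) : κ → ℤ) j = d k := by
  rw [Fintype.prod_eq_single k]
  · rw [Pi.single_eq_same, zpow_one]
  · intro j hj
    rw [Pi.single_eq_of_ne hj, zpow_zero]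

theorem a2_sum (g : κ → ℚ) (k : κ) :
    ∑ j, (((Pi.single k (1 : ℤ) : κ → ℤ) j : ℤ) : ℚ) * g j = g k := by
  rw [Fintype.sum_eq_single k]
  · rw [Pi.single_eq_same]
    push_cast
    rw [one_mul]
  · intro j hj
    rw [Pi.single_eq_of_ne hj]
    push_cast
    rw [zero_mul]

/-- PROOF. If `d k * d (bar k) = q` for all `k` then `f k + f (bar k)` does not depend on `k` (relation
`e_k + e_(bar k) - e_k' - e_(bar k')`), and the sum over all `k` is `0`. -/
theorem YS_bar {K : Type*} [Field K] {d : κ → K} (hd : ∀ k, d k ≠ 0) {bar : Equiv.Perm κ} {q : K}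
    (hbar : ∀ k, d k * d (bar k) = q) {f : κ → ℚ} (hf : f ∈ YS d) (k : κ) : f (bar k) = - f k := by
  obtain ⟨h1, c, h2⟩ := a2_mem.1 hf
  have h3 : ∀ k', f k' + f (bar k') = f k + f (bar k) := by
    intro k'
    have h4 := h2 (fun j => (Pi.single k' (1 : ℤ) : κ → ℤ) j + (Pi.single (bar k') (1 : ℤ) : κ → ℤ) j -
      ((Pi.single k (1 : ℤ) : κ → ℤ) j + (Pi.single (bar k) (1 : ℤ) : κ → ℤ) j)) (by
        simp_rw [zpow_sub₀ (hd _), zpow_add₀ (hd _)]
        rw [Finset.prod_div_distrib, Finset.prod_mul_distrib, Finset.prod_mul_distrib,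
          a2_single, a2_single, a2_single, a2_single, hbar, hbar]
        refine div_self ?_
        rw [← hbar k]
        exact mul_ne_zero (hd _) (hd _))
    have h5 : ∑ j, (((Pi.single k' (1 : ℤ) : κ → ℤ) j + (Pi.single (bar k') (1 : ℤ) : κ → ℤ) j -
      ((Pi.single k (1 : ℤ) : κ → ℤ) j + (Pi.single (bar k) (1 : ℤ) : κ → ℤ) j) : ℤ) : ℚ) *
        (f j - c) = (f k' - c) + (f (bar k') - c) - ((f k - c) + (f (bar k) - c)) := by
      rw [← a2_sum (fun j => f j - c) k', ← a2_sum (fun j => f j - c) (bar k'),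
        ← a2_sum (fun j => f j - c) k, ← a2_sum (fun j => f j - c) (bar k),
        ← Finset.sum_add_distrib, ← Finset.sum_add_distrib, ← Finset.sum_sub_distrib]
      refine Finset.sum_congr rfl fun j _ => ?_
      push_cast
      ring
    rw [h5] at h4
    linear_combination h4
  have h6 : ∑ k', (f k' + f (bar k')) = 0 := by
    rw [Finset.sum_add_distrib, Equiv.sum_comp bar f, h1, add_zero]
  rw [Finset.sum_congr rfl fun k' _ => h3 k', Finset.sum_const, Finset.card_univ, nsmul_eq_mul] at h6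
  have h7 : (Fintype.card κ : ℚ) ≠ 0 := by
    have : Nonempty κ := ⟨k⟩
    exact_mod_cast Fintype.card_ne_zero
  have h8 := (mul_eq_zero.1 h6).resolve_left h7
  linear_combination h8

end Pool.Agent.H76Q
end

-- from Lib.H76Q.A3
section

/-!
# separation
-/

set_option autoImplicit false
set_option linter.unusedSectionVars false
namespace Pool.Agent.H76Q
open Module Matrix Pool.Agent.H53Toric
open Pool.Agent.H76P
open Pool.Agent.H76T (IsIdeal Fam)
open Pool.Agent.H76V (Cmp)

variable {κ : Type*} [Fintype κ] [DecidableEq κ]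

/-- The multiplicative relations. -/
def a3Rel {K : Type*} [Field K] (d : κ → K) (hd : ∀ k, d k ≠ 0) : AddSubgroup (κ → ℤ) where
  carrier := {m | ∏ k, d k ^ m k = 1}
  zero_mem' := by simp
  add_mem' := by
    rintro m n hm hn
    simp only [Set.mem_ofPred_eq] at hm hn ⊢
    have h : ∏ k, d k ^ ((m + n) k) = (∏ k, d k ^ m k) * ∏ k, d k ^ n k := by
      rw [← Finset.prod_mul_distrib]
      exact Finset.prod_congr rfl fun k _ => zpow_add₀ (hd k) _ _
    rw [h, hm, hn, mul_one]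
  neg_mem' := by
    rintro m hm
    simp only [Set.mem_ofPred_eq] at hm ⊢
    have h : ∏ k, d k ^ ((-m) k) = (∏ k, d k ^ m k)⁻¹ := by
      rw [← Finset.prod_inv_distrib]
      exact Finset.prod_congr rfl fun k _ => _root_.zpow_neg _ _
    rw [h, hm, inv_one]

theorem a3_span (R : AddSubgroup (κ → ℤ)) (w : κ → ℚ)
    (hw : w ∈ Submodule.span ℚ {u : κ → ℚ | ∃ m ∈ R, u = fun k => (m k : ℚ)}) :
    ∃ n : ℤ, n ≠ 0 ∧ ∃ m ∈ R, ∀ k, (n : ℚ) * w k = (m k : ℚ) := by
  induction hw using Submodule.span_induction with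
  | mem x hx =>
    obtain ⟨m, hm, rfl⟩ := hx
    exact ⟨1, one_ne_zero, m, hm, fun k => by simp⟩
  | zero => exact ⟨1, one_ne_zero, 0, R.zero_mem, fun k => by simp⟩
  | add x y _ _ hx hy =>
    obtain ⟨n, hn, m, hm, h⟩ := hx
    obtain ⟨n', hn', m', hm', h'⟩ := hy
    refine ⟨n * n', mul_ne_zero hn hn', n' • m + n • m', R.add_mem (R.zsmul_mem hm _)
      (R.zsmul_mem hm' _), fun k => ?_⟩
    simp only [Pi.add_apply, Pi.smul_apply, smul_eq_mul]
    push_cast
    rw [← h k, ← h' k]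
    ring
  | smul c x _ hx =>
    obtain ⟨n, hn, m, hm, h⟩ := hx
    refine ⟨(c.den : ℤ) * n, mul_ne_zero (by exact_mod_cast c.den_nz) hn, c.num • m,
      R.zsmul_mem hm _, fun k => ?_⟩
    simp only [Pi.smul_apply, smul_eq_mul]
    push_cast
    rw [← h k]
    have e : (c.den : ℚ) * c = c.num := Rat.den_mul_eq_num c
    rw [← e]
    ring

/-- PROOF. Let `a ≠ b` and `f a = f b` for all `f ∈ YS d`.  For `g : κ → ℚ` which is orthogonal to all `m : κ → ℤ` with
`∏ d k ^ m k = 1`, the function `g - average` is in `YS d` (`c = - average`), so `g a = g b`.  So the form `g ↦ g a - g b` vanishes on the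
orthogonal of the set of relations `m`; so `e_a - e_b` is a rational linear combination of relations (`H76P.g5_mem` with `F = ℚ`), and `N (e_a - e_b)`,
`N ≠ 0`, is an integral one (`g5_den`; products and powers of relations are relations), i.e. `d a ^ N = d b ^ N`; `N > 0` without restriction. -/
theorem YS_sep {K : Type*} [Field K] {d : κ → K} (hd : ∀ k, d k ≠ 0)
    (ht : ∀ a b : κ, ∀ N : ℕ, N ≠ 0 → d a ^ N = d b ^ N → a = b) (a b : κ) (hab : a ≠ b) :
    ∃ f ∈ YS d, f a ≠ f b := by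
  by_contra hcon
  push Not at hcon
  have hspan : (Pi.single a (1 : ℚ) - Pi.single b (1 : ℚ) : κ → ℚ) ∈
      Submodule.span ℚ {u : κ → ℚ | ∃ m ∈ a3Rel d hd, u = fun k => (m k : ℚ)} := by
    apply g5_mem
    intro g hg
    have hcard : (Fintype.card κ : ℚ) ≠ 0 := by
      have : 0 < Fintype.card κ := Fintype.card_pos_iff.2 ⟨a⟩
      exact_mod_cast this.ne'
    set A : ℚ := (∑ k, g k) / Fintype.card κ with hA
    have hf : (fun k => g k - A) ∈ YS d := by
      refine ⟨?_, -A, fun m hm => ?_⟩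
      · rw [Finset.sum_sub_distrib, Finset.sum_const, nsmul_eq_mul, Finset.card_univ, hA,
          mul_div_cancel₀ _ hcard, sub_self]
      · have h1 := hg (fun k => (m k : ℚ)) ⟨m, hm, rfl⟩
        rw [← h1]
        refine Finset.sum_congr rfl fun k _ => ?_
        ring
    have h2 := hcon _ hf
    have h3 : g a = g b := by
      have : g a - A = g b - A := h2
      linarith
    have h4 : ∑ k, g k * (Pi.single a (1 : ℚ) - Pi.single b (1 : ℚ) : κ → ℚ) k = g a - g b := by
      simp [mul_sub, Finset.sum_sub_distrib, Pi.single_apply]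
    rw [h4, h3, sub_self]
  obtain ⟨n, hn, m, hm, h⟩ := a3_span _ _ hspan
  have ha : m a = n := by
    have := h a
    simp [hab] at this
    exact_mod_cast this.symm
  have hb : m b = -n := by
    have := h b
    simp [Ne.symm hab] at this
    have h5 : ((m b : ℤ) : ℚ) = ((-n : ℤ) : ℚ) := by
      push_cast
      exact this.symm
    exact_mod_cast h5
  have hk : ∀ k, k ≠ a → k ≠ b → m k = 0 := by
    intro k h1 h2
    have := h k
    simp [h1, h2] at this
    exact_mod_cast this.symm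
  have hprod : d a ^ n * d b ^ (-n) = 1 := by
    have h1 : ∏ k, d k ^ m k = 1 := hm
    rw [← Finset.prod_subset (Finset.subset_univ ({a, b} : Finset κ)), Finset.prod_pair hab,
      hb] at h1
    · rw [ha] at h1
      exact h1
    · intro k _ hk'
      simp only [Finset.mem_insert, Finset.mem_singleton, not_or] at hk'
      rw [hk k hk'.1 hk'.2, zpow_zero]
  have heq : d a ^ n = d b ^ n := by
    rw [_root_.zpow_neg] at hprod
    exact (mul_inv_eq_one₀ (zpow_ne_zero _ (hd b))).1 hprod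
  apply hab
  apply ht a b n.natAbs (Int.natAbs_ne_zero.2 hn)
  rcases Int.natAbs_eq n with h1 | h1
  · rw [h1, zpow_natCast, zpow_natCast] at heq
    exact heq
  · rw [h1, _root_.zpow_neg, _root_.zpow_neg, zpow_natCast, zpow_natCast] at heq
    exact inv_injective heq

end Pool.Agent.H76Q
end

-- from Lib.H76Q.A5
section

/-!
# the configuration of the Lie algebra
-/

set_option autoImplicit false
set_option linter.unusedSectionVars false
namespace Pool.Agent.H76Q
open Module Matrix Polynomial Pool.Agent.H53Toric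
open Pool.Agent.H76P
open Pool.Agent.H76T (IsIdeal Fam Lc)
open Pool.Agent.H76V (Cmp)
open Pool.Agent.H76U (cmp preL IsSplitting)
open Pool.Agent.H76RM (spanK similD)

variable {ι : Type*} [Fintype ι] [DecidableEq ι] {K : Type*} [Field K] [CharZero K]
  [IsAlgClosed K]

variable {B : Type*} [Fintype B] [DecidableEq B]
  {J : Matrix ι ι K} {DD : Submodule K (Matrix ι ι K)}
  {bar : B → B} {e : B → Matrix ι ι K} (h : H76U.Split4 J DD bar e) {b : B} (hb : bar b = b)
  (hJ : Jᵀ = -J) (hdet : IsUnit J.det)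
  {n : ℕ} {P : Matrix ι (Fin n) K} {Q : Matrix (Fin n) ι K}
  (hPQ : e b = P * Q) (hQP : Q * P = 1)
  {S : Set (Matrix ι ι K)} {𝓗 : Set (Matrix ι ι K)} {φ φ' : Matrix ι ι K}
  (g : PH S J DD 𝓗 φ φ') {d : Fin n → K} (E : EC φ P d)

include h hb hJ hdet hPQ hQP g E in
/-- PROOF. `≤`: `f ∈ Yo` has sum `0` (`Yo_sum`) and `dq f ∈ L` (`Yo_mem`), so `f - c` is log linear for some `c : K` (`loglin_of_mem`, see the proof of `diag_mem`).
If all relations `m` have `∑ m = 0`, the same holds with `c = 0`; otherwise `c = ∑ m f / ∑ m` is rational.  `≥`: `mem_Yo`. -/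
theorem Yo_eq_YS (hn : 0 < n) : Yo (Lc J S P Q) = YS d := by
  apply le_antisymm
  · intro f hf
    have h1 := Yo_mem hf
    have h2 := Yo_sum (cmp_unit h hb hJ hdet hPQ hQP g hn) hf
    obtain ⟨c, hc⟩ := loglin_of_mem h hb hdet hPQ hQP g E (f := fun k => (f k : K)) h1
    have hexp : ∀ m : Fin n → ℤ, ∑ k, (m k : K) * ((f k : K) - c) =
        ((∑ k, (m k : ℚ) * f k : ℚ) : K) - c * ((∑ k, m k : ℤ) : K) := by
      intro m
      push_cast
      rw [Finset.mul_sum, ← Finset.sum_sub_distrib]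
      exact Finset.sum_congr rfl fun k _ => by ring
    refine ⟨h2, ?_⟩
    by_cases hz : ∀ m : Fin n → ℤ, ∏ k, d k ^ m k = 1 → ∑ k, m k = 0
    · refine ⟨0, fun m hm => ?_⟩
      have h3 : ∑ k, (m k : K) * ((f k : K) - c) = 0 := hc m hm
      rw [hexp, hz m hm, Int.cast_zero, mul_zero, sub_zero] at h3
      have h4 : ∑ k, (m k : ℚ) * f k = 0 := by exact_mod_cast h3
      have h5 : ∑ k, (m k : ℚ) * (f k - 0) = ∑ k, (m k : ℚ) * f k :=
        Finset.sum_congr rfl fun k _ => by rw [sub_zero]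
      exact h5.trans h4
    · push Not at hz
      obtain ⟨m0, hm0, hm1⟩ := hz
      have h3 : ∑ k, (m0 k : K) * ((f k : K) - c) = 0 := hc m0 hm0
      rw [hexp, sub_eq_zero] at h3
      have hne : ((∑ k, m0 k : ℤ) : K) ≠ 0 := by exact_mod_cast hm1
      have hcr : c = (((∑ k, (m0 k : ℚ) * f k) / ((∑ k, m0 k : ℤ) : ℚ) : ℚ) : K) := by
        rw [Rat.cast_div, Rat.cast_intCast, h3, mul_div_assoc, div_self hne, mul_one]
      refine ⟨(∑ k, (m0 k : ℚ) * f k) / ((∑ k, m0 k : ℤ) : ℚ), fun m hm => ?_⟩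
      have h4 : ∑ k, (m k : K) * ((f k : K) - c) = 0 := hc m hm
      rw [hcr] at h4
      exact_mod_cast h4
  · rintro f ⟨h1, c, h2⟩
    refine mem_Yo h hb hJ hdet hPQ hQP g E hn (c := (c : K)) ?_ h1
    intro m hm
    have h3 := congrArg (Rat.cast : ℚ → K) (h2 m hm)
    show ∑ k, (m k : K) * ((f k : K) - (c : K)) = 0
    exact_mod_cast h3

include h hb hJ hdet hPQ hQP g E in
/-- PROOF. `cmp_unit`, `diag_mem`; `sep`: `YS_sep` (A3) and `Yo_eq_YS`. -/
theorem mk_ts (hn : 0 < n)
    (ht : ∀ a b : Fin n, ∀ N : ℕ, N ≠ 0 → d a ^ N = d b ^ N → a = b) :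
    TS (Lc J S P Q) (Pᵀ * J * P) := by
  refine ⟨cmp_unit h hb hJ hdet hPQ hQP g hn,
    fun f hf => diag_mem h hb hJ hdet hPQ hQP g E hn hf, ?_⟩
  intro a b hab
  rw [Yo_eq_YS h hb hJ hdet hPQ hQP g E hn]
  exact YS_sep E.ne ht a b hab

end Pool.Agent.H76Q
end

-- from Lib.H76Q.A4
section

/-!
# the group theoretic data
-/

set_option autoImplicit false
set_option linter.unusedSectionVars false
namespace Pool.Agent.H76Q
open Module Matrix Polynomial Pool.Agent.H53Toric
open Pool.Agent.H76P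
open Pool.Agent.H76T (IsIdeal Fam Lc)
open Pool.Agent.H76V (Cmp)
open Pool.Agent.H76U (cmp preL IsSplitting)
open Pool.Agent.H76RM (spanK similD)

variable {ι : Type*} [Fintype ι] [DecidableEq ι] {K : Type*} [Field K] [CharZero K]
  [IsAlgClosed K]

variable {L : Type*} [Field L] [CharZero L] [Algebra L K] {G : Type*} [Group G]

/-- PROOF. Copy of `H76P.mk_ph` (Lib/H76P/G10.lean): `F.idc`, `F.dgb`, `F.torus`, `F.torgen` are the fields of `FrobT`; instead of `F.gen` use `H' = ⊤` and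
`gen`, `Pool.Agent.H53Toric.subset_zar`. -/
theorem mk_phT [Nonempty ι] {ψ : Matrix ι ι ℚ}
    (hψ : ψᵀ = -ψ) (hψ0 : ψ.det ≠ 0) (D : Subalgebra ℚ (Matrix ι ι ℚ))
    (ρ : G →* Matrix.GeneralLinearGroup ι L)
    (lin : ∀ σ : G, ∀ d ∈ D, (ρ σ).1 * d.map (algebraMap ℚ L) =
      d.map (algebraMap ℚ L) * (ρ σ).1)
    (sim : ∀ σ : G, ∃ c : L, (ρ σ).1ᵀ * ψ.map (algebraMap ℚ L) * (ρ σ).1 =
      c • ψ.map (algebraMap ℚ L))
    (semis : ∀ H : Subgroup G, H.FiniteIndex → ∀ W : Submodule K (ι → K),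
      (∀ s ∈ img K ρ H, ∀ w ∈ W, s *ᵥ w ∈ W) →
      ∃ W' : Submodule K (ι → K), (∀ s ∈ img K ρ H, ∀ w ∈ W', s *ᵥ w ∈ W') ∧ IsCompl W W')
    (commt : ∀ H : Subgroup G, H.FiniteIndex → ∀ y : Matrix ι ι K,
      (∀ s ∈ img K ρ H, y * s = s * y) → y ∈ spanK K D)
    (gen : ∀ g : G, (ρ g).1.map (algebraMap L K) ∈ tgen K ρ)
    {M : Type*} [Field M] {m : ℕ} {e : Fin m → Matrix ι ι M} {F : Fin m → M[X]}
    {x : Matrix ι ι K} (hF : FrobT K ρ e F x)
    {H : Subgroup G} (hfin : H.FiniteIndex) (hprime : (H76RM.van (img K ρ H)).IsPrime) :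
    ∃ x' : Matrix ι ι K, PH (img K ρ H) (ψ.map (algebraMap ℚ K)) (spanK K D)
      (properProj K ρ) x x' := by
  have hT : (⊤ : Subgroup G).FiniteIndex := inferInstance
  have hgen : img K ρ ⊤ ⊆ zar (Submonoid.closure {m | ∃ h ∈ properProj K ρ, ∃ t : K,
      t ≠ 0 ∧ m = 1 + (t - 1) • h} : Set (Matrix ι ι K)) := by
    rintro _ ⟨g, -, rfl⟩
    exact Pool.Agent.H53Toric.subset_zar _ (gen g)
  have g := Pool.Agent.H76V.mk_sh (K := K) hψ hψ0 D ρ lin sim semis commt
    (𝓗 := properProj K ρ) (fun x hx => hx.1) (fun x hx => hx.2) hT hgen hfin hprime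
  have hx : x ∈ zar (img K ρ H) := hF.idc.2 H hfin
  have hinv : x * x⁻¹ = 1 := Matrix.mul_nonsing_inv x (isUnit_iff_ne_zero.2 hF.idc.1)
  refine ⟨x⁻¹, ⟨⟨g.one, g.SD, g.semis, g.commt, ?_, ?_, ?_, g.hz, g.hi, g.hs, g.gen⟩, ?_, hinv,
    fun d hd => H76RM.zar_commute (fun s hs => g.SD s hs d hd) hx, fun A hA => zlie_cnj (img_one ρ H)
      (img_mul ρ H) hx hinv hA, hF.dgb, hF.torus H hfin, hF.torgen⟩⟩
  · intro γ f hf s hs
    simp only [MonoidHom.one_apply, one_mul, mul_one]
    exact hf s hs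
  · intro γ
    refine ⟨1, one_ne_zero, ?_⟩
    simp
  · intro γ d hd
    simp
  · rintro _ ⟨σ, -, rfl⟩
    obtain ⟨c, -, hc⟩ := g.sim σ
    exact ⟨c, hc⟩

end Pool.Agent.H76Q
end

-- from Lib.H76Q.A6
section

/-!
# existence of the local data
-/

set_option autoImplicit false
set_option linter.unusedSectionVars false
namespace Pool.Agent.H76Q
open Module Matrix Polynomial Pool.Agent.H53Toric
open Pool.Agent.H76P
open Pool.Agent.H76T (IsIdeal Fam Lc)
open Pool.Agent.H76V (Cmp)
open Pool.Agent.H76U (cmp preL IsSplitting)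
open Pool.Agent.H76RM (spanK similD)

variable {ι : Type*} [Fintype ι] [DecidableEq ι] {K : Type*} [Field K] [CharZero K]
  [IsAlgClosed K]

variable {L : Type*} [Field L] [CharZero L] [Algebra L K] {G : Type*} [Group G]

theorem a6_lift {M Ω K : Type*} [Field M] [Field Ω] [Field K] [IsAlgClosed Ω] (j : M →+* Ω)
    (i : Ω →+* K) {f : M[X]} (hf : f ≠ 0) {c : K} (hc : f.eval₂ (i.comp j) c = 0) :
    ∃ y : Ω, f.eval₂ j y = 0 ∧ i y = c := by
  have h1 : ((f.map j).map i).IsRoot c := by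
    rw [Polynomial.map_map, Polynomial.IsRoot.def, Polynomial.eval_map]
    exact hc
  obtain ⟨y, hy⟩ := (IsAlgClosed.splits (f.map j)).mem_range_of_isRoot
    (Polynomial.map_ne_zero hf) h1
  refine ⟨y, ?_, hy⟩
  apply i.injective
  rw [map_zero, Polynomial.hom_eval₂, hy]
  exact hc

omit [CharZero K] [IsAlgClosed K] in
theorem a6_eig {φ p : Matrix ι ι K} {n : ℕ} {P : Matrix ι (Fin n) K} {Q : Matrix (Fin n) ι K}
    {d : Fin n → K} (hPQ : p = P * Q) (hQP : Q * P = 1) (E : EC φ P d) (c : K) :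
    EigOn φ p c ↔ ∃ k, d k = c := by
  have hcol : ∀ k, φ *ᵥ (fun i => P i k) = d k • (fun i => P i k) := by
    intro k
    funext i
    have h2 := congrFun (congrFun E.eig i) k
    rw [Matrix.mul_apply] at h2
    rw [Matrix.mulVec, dotProduct, h2, Matrix.mul_diagonal, Pi.smul_apply, smul_eq_mul, mul_comm]
  have hpP : p * P = P := by rw [hPQ, Matrix.mul_assoc, hQP, Matrix.mul_one]
  have hPne : ∀ k, (fun i => P i k) ≠ 0 := by
    intro k h
    have h1 := congrFun (congrFun hQP k) k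
    rw [Matrix.mul_apply, Matrix.one_apply_eq] at h1
    have h2 : ∀ i, P i k = 0 := fun i => congrFun h i
    simp only [h2, mul_zero, Finset.sum_const_zero] at h1
    exact zero_ne_one h1
  constructor
  · rintro ⟨z, hz, hpz, hφz⟩
    have h1 : P *ᵥ (Q *ᵥ z) = z := by rw [Matrix.mulVec_mulVec, ← hPQ, hpz]
    have h2 : φ *ᵥ z = P *ᵥ (Matrix.diagonal d *ᵥ (Q *ᵥ z)) := by
      conv_lhs => rw [← h1]
      rw [Matrix.mulVec_mulVec, E.eig, ← Matrix.mulVec_mulVec]
    have h3 : Matrix.diagonal d *ᵥ (Q *ᵥ z) = c • (Q *ᵥ z) := by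
      have h4 : Q *ᵥ (P *ᵥ (Matrix.diagonal d *ᵥ (Q *ᵥ z))) = Q *ᵥ (c • z) := by
        rw [h2.symm.trans hφz]
      rw [Matrix.mulVec_mulVec, hQP, Matrix.one_mulVec, Matrix.mulVec_smul] at h4
      exact h4
    have h5 : Q *ᵥ z ≠ 0 := by
      intro h
      rw [h, Matrix.mulVec_zero] at h1
      exact hz h1.symm
    obtain ⟨k, hk⟩ : ∃ k, (Q *ᵥ z) k ≠ 0 := by
      by_contra hcon
      push Not at hcon
      exact h5 (funext hcon)
    refine ⟨k, ?_⟩
    have h6 := congrFun h3 k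
    rw [Matrix.mulVec_diagonal, Pi.smul_apply, smul_eq_mul] at h6
    exact mul_right_cancel₀ hk h6
  · rintro ⟨k, rfl⟩
    refine ⟨fun i => P i k, hPne k, ?_, hcol k⟩
    funext i
    have h1 := congrFun (congrFun hpP i) k
    rw [Matrix.mul_apply] at h1
    exact h1

/-- common part -/
theorem a6_main {M : Type*} [Field M] {m : ℕ} {e : Fin m → Matrix ι ι M} {F : Fin m → M[X]}
    {ρ : G →* Matrix.GeneralLinearGroup ι L} {x : Matrix ι ι K} (hF : FrobT K ρ e F x)
    {Ω : Type*} [Field Ω] [IsAlgClosed Ω] (j : M →+* Ω) (i : Ω →+* K) (b : Fin m)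
    (hidem : e b * e b = e b) (hcomm : (e b).map (i.comp j) * x = x * (e b).map (i.comp j)) :
    F b ≠ 0 ∧ ∃ (P : Matrix ι (Fin (e b).rank) K) (Q : Matrix (Fin (e b).rank) ι K)
      (d : Fin (e b).rank → K), (e b).map (i.comp j) = P * Q ∧ Q * P = 1 ∧ EC x P d ∧
        ∀ c : K, (F b).eval₂ (i.comp j) c = 0 ↔ ∃ k, d k = c := by
  have hp : (e b).map (i.comp j) * (e b).map (i.comp j) = (e b).map (i.comp j) := by
    rw [← Matrix.map_mul, hidem]
  have h0 := exists_ec hp hcomm hF.dgb hF.idc.1 (fun c z z' => hF.simple (i.comp j) b c z z')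
  have : CharZero M := (i.comp j).charZero
  rw [H76U.rank_idem_map hidem (i.comp j)] at h0
  obtain ⟨P, Q, d, hPQ, hQP, E⟩ := h0
  have h1 : ∀ c : K, (F b).eval₂ (i.comp j) c = 0 ↔ ∃ k, d k = c := fun c =>
    (hF.eig (i.comp j) b c).symm.trans (a6_eig hPQ hQP E c)
  refine ⟨?_, P, Q, d, hPQ, hQP, E, h1⟩
  intro hF0
  have h2 : Function.Surjective d := fun c => (h1 c).1 (by rw [hF0, Polynomial.eval₂_zero])
  have h3 : Finite K := Finite.of_surjective d h2
  exact not_finite K

/-- PROOF. `H76P.exists_ec` for `p = (e b).map i` (idempotent: `hspl.idem`; it commutes with `x`; `hF.dgb`, `hF.idc.1`, `hF.simple`) gives `P`, `Q`, `d` with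
`p = P * Q`, `Q * P = 1`, `EC x P d`.  The numbers `d k` are exactly the `c` with `EigOn x p c`, i.e. (`hF.eig`) the roots of `F b` in `K` under `i = i' ∘ j`, i.e. the
`i' (a k)`: if `(F b).eval₂ (i'.comp j) c = 0`, `F b ≠ 0` (otherwise all `c` would be eigenvalues), then `(F b).map j` splits in `Ω` and `c = i' y` for a root `y`.  So `d` and
`i' ∘ a` are injective with the same range; with a bijection `Fin n ≃ Fin rank` we reorder the columns of `P` and the rows of `Q`. -/
theorem exists_ecT {M : Type*} [Field M] {m : ℕ} {e : Fin m → Matrix ι ι M} {F : Fin m → M[X]}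
    {ρ : G →* Matrix.GeneralLinearGroup ι L} {x : Matrix ι ι K} (hF : FrobT K ρ e F x)
    {Ω : Type*} [Field Ω] [IsAlgClosed Ω] (j : M →+* Ω) (i : Ω →+* K) (b : Fin m)
    (hidem : e b * e b = e b) (hcomm : (e b).map (i.comp j) * x = x * (e b).map (i.comp j))
    {n : ℕ} {a : Fin n → Ω} (ha : Function.Injective a)
    (hroot : ∀ y : Ω, (F b).eval₂ j y = 0 ↔ ∃ k, y = a k) :
    ∃ (U : Matrix ι (Fin n) K) (V : Matrix (Fin n) ι K), (e b).map (i.comp j) = U * V ∧
      V * U = 1 ∧ EC x U (fun k => i (a k)) := by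
  obtain ⟨hF0, P, Q, d, hPQ, hQP, E, h1⟩ := a6_main hF j i b hidem hcomm
  have h2 : ∀ k, ∃ l, i (a l) = d k := by
    intro k
    obtain ⟨y, hy, hyk⟩ := a6_lift j i hF0 ((h1 (d k)).2 ⟨k, rfl⟩)
    obtain ⟨l, hl⟩ := (hroot y).1 hy
    exact ⟨l, by rw [← hl, hyk]⟩
  have h3 : ∀ l, ∃ k, d k = i (a l) := by
    intro l
    apply (h1 _).1
    rw [← Polynomial.hom_eval₂, (hroot (a l)).2 ⟨l, rfl⟩, map_zero]
  choose f hf using h3
  have hfinj : Function.Injective f := by
    intro k l hkl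
    apply ha
    apply i.injective
    rw [← hf, ← hf, hkl]
  have hfsur : Function.Surjective f := by
    intro k
    obtain ⟨l, hl⟩ := h2 k
    exact ⟨l, E.inj (by rw [hf, hl])⟩
  let σ : Fin n ≃ Fin (e b).rank := Equiv.ofBijective f ⟨hfinj, hfsur⟩
  have hσ : ∀ l, d (σ l) = i (a l) := hf
  refine ⟨P.submatrix id σ, Q.submatrix σ id, ?_, ?_, ?_, ?_, ?_⟩
  · rw [Matrix.submatrix_mul_equiv, Matrix.submatrix_id_id, hPQ]
  · have h4 : Q.submatrix σ id * P.submatrix id σ = (Q * P).submatrix σ σ := by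
      ext k l
      simp only [Matrix.mul_apply, Matrix.submatrix_apply, id]
    rw [h4, hQP, Matrix.submatrix_one_equiv]
  · ext k l
    have h5 := congrFun (congrFun E.eig k) (σ l)
    rw [Matrix.mul_diagonal] at h5
    rw [Matrix.mul_diagonal, Matrix.submatrix_apply, id, ← hσ l, ← h5]
    simp only [Matrix.mul_apply, Matrix.submatrix_apply, id]
  · intro k l hkl
    exact ha (i.injective hkl)
  · intro k hk
    exact E.ne (σ k) (by rw [hσ k, hk])

/-- The enumeration of the roots. PROOF. `H76P.exists_ec` as above: `n = rank`, the `d k` are roots, so `d k = i (a k)`.  (`F b ≠ 0` as above.) -/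
theorem exists_enum {M : Type*} [Field M] {m : ℕ} {e : Fin m → Matrix ι ι M} {F : Fin m → M[X]}
    {ρ : G →* Matrix.GeneralLinearGroup ι L} {x : Matrix ι ι K} (hF : FrobT K ρ e F x)
    {Ω : Type*} [Field Ω] [IsAlgClosed Ω] (j : M →+* Ω) (i : Ω →+* K) (b : Fin m)
    (hidem : e b * e b = e b) (hcomm : (e b).map (i.comp j) * x = x * (e b).map (i.comp j)) :
    ∃ a : Fin (e b).rank → Ω, Function.Injective a ∧
      ∀ y : Ω, (F b).eval₂ j y = 0 ↔ ∃ k, y = a k := by
  obtain ⟨hF0, P, Q, d, hPQ, hQP, E, h1⟩ := a6_main hF j i b hidem hcomm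
  have h2 : ∀ k, ∃ y : Ω, (F b).eval₂ j y = 0 ∧ i y = d k := fun k =>
    a6_lift j i hF0 ((h1 (d k)).2 ⟨k, rfl⟩)
  choose a ha hai using h2
  refine ⟨a, ?_, ?_⟩
  · intro k l hkl
    apply E.inj
    rw [← hai, ← hai, hkl]
  · intro y
    constructor
    · intro hy
      have h3 : (F b).eval₂ (i.comp j) (i y) = 0 := by
        rw [← Polynomial.hom_eval₂, hy, map_zero]
      obtain ⟨k, hk⟩ := (h1 _).1 h3
      exact ⟨k, i.injective (by rw [hai, hk])⟩
    · rintro ⟨k, rfl⟩
      exact ha k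

end Pool.Agent.H76Q
end

-- from Lib.H76Q.A7
section

/-!
# existence of the local data
-/

set_option autoImplicit false
set_option linter.unusedSectionVars false
namespace Pool.Agent.H76Q
open Module Matrix Polynomial Pool.Agent.H53Toric
open Pool.Agent.H76P
open Pool.Agent.H76T (IsIdeal Fam Lc)
open Pool.Agent.H76V (Cmp)
open Pool.Agent.H76U (cmp preL IsSplitting)
open Pool.Agent.H76RM (spanK similD)

variable {ι : Type*} [Fintype ι] [DecidableEq ι] {K : Type*} [Field K] [CharZero K]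
  [IsAlgClosed K]

variable {L : Type*} [Field L] [CharZero L] [Algebra L K] {G : Type*} [Group G]

/-- PROOF. `J = ψ.map`, `S = img K ρ H₀`, `𝓗 = properProj K ρ`.  `gram_basic`, `split4_of (hspl.map _)`, `mk_phT` (A4); `ts`: `mk_ts`, `yo`: `Yo_eq_YS` (A5), `YS_map` (A2);
`par`: fields `hi`, `hs` of `g.sh`, `H76V.preL_ec`, and `g4_mem` (see the proof of `eps_mem` in H76P/G4); `lie`: `lc_of_zlie` (G4); `C ∈ zlie S` commutes with `e` (`H76V.preL_ec` or
`zlie_commute`).  `pos`: `e ≠ 0` (`hspl.ne_zero`).  `ht` gives the hypothesis of `mk_ts` (`i` is injective). -/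
theorem mk_loc {ψ : Matrix ι ι ℚ}
    (hψ : ψᵀ = -ψ) (hψ0 : ψ.det ≠ 0) (D : Subalgebra ℚ (Matrix ι ι ℚ))
    (ρ : G →* Matrix.GeneralLinearGroup ι L)
    (lin : ∀ σ : G, ∀ d ∈ D, (ρ σ).1 * d.map (algebraMap ℚ L) =
      d.map (algebraMap ℚ L) * (ρ σ).1)
    (sim : ∀ σ : G, ∃ c : L, (ρ σ).1ᵀ * ψ.map (algebraMap ℚ L) * (ρ σ).1 =
      c • ψ.map (algebraMap ℚ L))
    (semis : ∀ H : Subgroup G, H.FiniteIndex → ∀ W : Submodule K (ι → K),
      (∀ s ∈ img K ρ H, ∀ w ∈ W, s *ᵥ w ∈ W) →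
      ∃ W' : Submodule K (ι → K), (∀ s ∈ img K ρ H, ∀ w ∈ W', s *ᵥ w ∈ W') ∧ IsCompl W W')
    (commt : ∀ H : Subgroup G, H.FiniteIndex → ∀ y : Matrix ι ι K,
      (∀ s ∈ img K ρ H, y * s = s * y) → y ∈ spanK K D)
    (gen : ∀ g : G, (ρ g).1.map (algebraMap L K) ∈ tgen K ρ)
    {M : Type*} [Field M] [CharZero M] {m : ℕ} {e : Fin m → Matrix ι ι M} {F : Fin m → M[X]}
    (hspl : IsSplitting D ψ id e) {x : Matrix ι ι K} (hF : FrobT K ρ e F x) {q : ℚ}
    (hmult : xᵀ * ψ.map (algebraMap ℚ K) * x = algebraMap ℚ K q • ψ.map (algebraMap ℚ K))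
    {H₀ : Subgroup G} (hfin : H₀.FiniteIndex) (hprime : (H76RM.van (img K ρ H₀)).IsPrime)
    {Ω : Type*} [Field Ω] [IsAlgClosed Ω] (j : M →+* Ω) (i : Ω →+* K) (b : Fin m)
    {n : ℕ} {a : Fin n → Ω} (ha : Function.Injective a)
    (hroot : ∀ y : Ω, (F b).eval₂ j y = 0 ↔ ∃ k, y = a k)
    (ht : ∀ k l : Fin n, ∀ N : ℕ, N ≠ 0 → a k ^ N = a l ^ N → k = l) :
    ∃ (U : Matrix ι (Fin n) K) (V : Matrix (Fin n) ι K),
      Loc (ψ.map (algebraMap ℚ K)) (img K ρ H₀) (properProj K ρ) ((e b).map (i.comp j)) x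
        (algebraMap ℚ K q) U V (fun k => i (a k)) (YS a) := by
  classical
  obtain ⟨hJ, hdet⟩ := gram_basic hψ hψ0 K
  have hsplK : IsSplitting D ψ id (fun c => (e c).map (i.comp j)) := hspl.map (i.comp j)
  have hspl4 := Pool.Agent.H76U.split4_of hsplK
  have hι : Nonempty ι := by
    by_contra hemp
    rw [not_nonempty_iff] at hemp
    apply hsplK.ne_zero b
    ext i'
    exact (hemp.false i').elim
  obtain ⟨φ', g⟩ := mk_phT (K := K) hψ hψ0 D ρ lin sim semis commt gen hF hfin hprime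
  have hφe : x * (e b).map (i.comp j) = (e b).map (i.comp j) * x := g.φD _ (hspl4.mem b)
  obtain ⟨U, V, hUV, hVU, E⟩ := exists_ecT hF j i b (hspl.idem b) hφe.symm ha hroot
  have hn : 0 < n := by
    rw [Nat.pos_iff_ne_zero]
    rintro rfl
    apply hsplK.ne_zero b
    rw [hUV]
    ext i' j'
    rw [Matrix.mul_apply, Finset.univ_eq_empty, Finset.sum_empty]
    rfl
  have hadj : ((e b).map (i.comp j))ᵀ * ψ.map (algebraMap ℚ K) = ψ.map (algebraMap ℚ K) * (e b).map (i.comp j) :=
    hspl4.adj b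
  refine ⟨U, V, ?_⟩
  refine
    { pos := hn
      UV := hUV
      VU := hVU
      ec := E
      ex := hφe.symm
      Jt := hJ
      Jd := hdet
      adj := hadj
      mult := hmult
      ts := ?_
      yo := ?_
      par := ?_
      lie := ?_ }
  · refine mk_ts (b := b) hspl4 rfl hJ hdet hUV hVU g E hn ?_
    intro k l N hN hkl
    refine ht k l N hN (i.injective ?_)
    rw [map_pow, map_pow]
    exact hkl
  · rw [Yo_eq_YS (b := b) hspl4 rfl hJ hdet hUV hVU g E hn]
    exact YS_map i a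
  · intro h hh
    have hxz := g.sh.hz h hh
    have hxs := g.sh.hs h hh
    have hxL : h ∈ preL (ψ.map (algebraMap ℚ K)) (img K ρ H₀) :=
      ⟨⟨0, h, hxz, by rw [zero_smul, add_zero]⟩, 1, by rw [hxs, one_smul]⟩
    refine ⟨g.sh.hi h hh, Pool.Agent.H76V.preL_ec (b := b) hspl4 g.sh hxL, hxs, ?_⟩
    refine g4_mem (b := b) hspl4 rfl hdet hUV hVU g (A := (2 : K) • h - 1)
      ⟨-1, (2 : K) • h, (zlie (img K ρ H₀)).smul_mem _ hxz, by rw [neg_smul, one_smul, sub_eq_add_neg]⟩ ?_
    rw [Matrix.transpose_sub, Matrix.transpose_smul, Matrix.transpose_one, sub_mul, mul_sub, smul_mul_assoc,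
      one_mul, mul_smul_comm, mul_one]
    have h1 : (2 : K) • (hᵀ * ψ.map (algebraMap ℚ K)) - ψ.map (algebraMap ℚ K) +
        ((2 : K) • (ψ.map (algebraMap ℚ K) * h) - ψ.map (algebraMap ℚ K)) =
        (2 : K) • (hᵀ * ψ.map (algebraMap ℚ K) + ψ.map (algebraMap ℚ K) * h - ψ.map (algebraMap ℚ K)) := by
      rw [smul_sub, smul_add, two_smul K (ψ.map (algebraMap ℚ K))]
      abel
    rw [h1, hxs, sub_self, smul_zero]
  · intro C hC
    refine ⟨?_, lc_of_zlie (b := b) hspl4 rfl hdet hUV hVU g hC⟩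
    exact Pool.Agent.H76RM.zlie_commute g.sh.one (fun s hs => g.sh.SD s hs _ (hspl4.mem b)) hC

end Pool.Agent.H76Q
end

-- from Lib.H76Q.D1
section

/-!
# the lift
-/

set_option autoImplicit false
set_option linter.unusedSectionVars false
namespace Pool.Agent.H76Q
open Module Matrix Pool.Agent.H53Toric
open Pool.Agent.H76P
open Pool.Agent.H76T (IsIdeal Fam)
open Pool.Agent.H76V (Cmp)

variable {κ : Type*} [Fintype κ] [DecidableEq κ] [Nonempty κ] {Y : Submodule ℚ (κ → ℚ)}
  {P : Module.End ℚ Y} {Ω : Type*} [Field Ω] {a : κ → Ω}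

/-- moments of a nonzero family at distinct points do not all vanish -/
theorem d1_moment (ha : Function.Injective a) {b : κ → Ω} {k₀ : κ} (hb : b k₀ ≠ 0) :
    ∃ n : ℕ, ∑ k, b k * a k ^ n ≠ 0 := by
  by_contra hcon
  push Not at hcon
  have hpoly : ∀ f : Polynomial Ω, ∑ k, b k * f.eval (a k) = 0 := by
    intro f
    simp only [Polynomial.eval_eq_sum_range, Finset.mul_sum]
    rw [Finset.sum_comm]
    refine Finset.sum_eq_zero fun n _ => ?_
    have h1 : ∑ k, b k * (f.coeff n * a k ^ n) = f.coeff n * ∑ k, b k * a k ^ n := by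
      rw [Finset.mul_sum]
      exact Finset.sum_congr rfl fun k _ => by ring
    rw [h1, hcon n, mul_zero]
  have h2 := hpoly (∏ k ∈ Finset.univ.erase k₀, (Polynomial.X - Polynomial.C (a k)))
  rw [Finset.sum_eq_single k₀] at h2
  · rcases mul_eq_zero.mp h2 with h | h
    · exact hb h
    · rw [Polynomial.eval_prod, Finset.prod_eq_zero_iff] at h
      obtain ⟨k, hk, hk0⟩ := h
      simp only [Polynomial.eval_sub, Polynomial.eval_X, Polynomial.eval_C] at hk0
      exact (Finset.mem_erase.mp hk).1 (ha (sub_eq_zero.mp hk0)).symm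
  · intro k _ hk
    rw [Polynomial.eval_prod, Finset.prod_eq_zero (i := k)]
    · simp
    · exact Finset.mem_erase.mpr ⟨hk, Finset.mem_univ k⟩
    · simp
  · intro h
    exact absurd (Finset.mem_univ k₀) h

/-- PROOF. For `k`, `k'` let `c = c(k, k')` be the index with `cz P c k`, `cz (1 - P) c k'` (`Sp.exists_mx`, unique by `cz_both`), `β k k' = a c / a k'`.
By `hl`: `i (β k k') = u k / u k'`.  So `β k k' * β k' k'' = β k k''` (`i` is injective).  `t k = ∑ k', β k k' * a k' ^ s`; `t k = β k k₀ * t k₀`.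
For some `s < card κ` `t k₀ ≠ 0` (Vandermonde, `ha`: otherwise `β k₀ k' = 0` for all `k'`).  `rat`: `t k / t k' = β k k' = a c / a k'`.  `fun_`: if `cz P k k'` then
`c(k, k') = k'`, `β k k' = 1`.  `eqv`: `StabP` gives `c(σ k, σ k') = σ c(k, k')`, so `s (β k k') = β (σ k) (σ k')`; substitute `k' ↦ σ k'` in the sum. -/
theorem exists_lift (ha : Function.Injective a) (ha0 : ∀ k, a k ≠ 0) (hP : Sp P)
    (hsep : ∀ a b : κ, a ≠ b → ∃ f ∈ Y, f a ≠ f b) {K : Type*} [Field K] {i : Ω →+* K}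
    {u r : κ → K} (hl : LD P a i u r) : ∃ t : κ → Ω, Lift P a t := by
  choose c hc1 hc2 using fun k k' => hP.exists_mx k k'
  have hcu : ∀ k k' d, cz P d k → cz (1 - P) d k' → d = c k k' := fun k k' d h1 h2 =>
    cz_both hsep (cz_trans h1 (cz_symm (hc1 k k'))) (cz_trans h2 (cz_symm (hc2 k k')))
  have hia : ∀ k, i (a k) ≠ 0 := fun k h => ha0 k (i.injective (by rw [h, map_zero]))
  have hu0 : ∀ k, u k ≠ 0 := fun k h => hia k (by rw [hl.prod, h, zero_mul])
  have hr0 : ∀ k, r k ≠ 0 := fun k h => hia k (by rw [hl.prod, h, mul_zero])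
  let β : κ → κ → Ω := fun k k' => a (c k k') / a k'
  have hβ0 : ∀ k k', β k k' ≠ 0 := fun k k' => div_ne_zero (ha0 _) (ha0 _)
  have hiβ : ∀ k k', i (β k k') = u k / u k' := by
    intro k k'
    show i (a (c k k') / a k') = _
    rw [map_div₀, hl.prod, hl.prod, hl.fu _ _ (hc1 k k'), hl.fr _ _ (hc2 k k')]
    have h1 := hr0 k'
    have h2 := hu0 k'
    field_simp
  have hββ : ∀ k k' k'', β k k' * β k' k'' = β k k'' := by
    intro k k' k''
    refine i.injective ?_
    rw [map_mul, hiβ, hiβ, hiβ]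
    have h2 := hu0 k'
    have h3 := hu0 k''
    field_simp
  obtain ⟨k₀⟩ := ‹Nonempty κ›
  obtain ⟨n, hn⟩ := d1_moment ha (b := fun k' => β k₀ k') (hβ0 k₀ k₀)
  let t : κ → Ω := fun k => ∑ k', β k k' * a k' ^ n
  have htβ : ∀ k k', t k = β k k' * t k' := by
    intro k k'
    show ∑ k'', β k k'' * a k'' ^ n = β k k' * ∑ k'', β k' k'' * a k'' ^ n
    rw [Finset.mul_sum]
    refine Finset.sum_congr rfl fun k'' _ => ?_
    rw [← mul_assoc, hββ]
  have ht0 : ∀ k, t k ≠ 0 := by
    intro k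
    rw [htβ k k₀]
    exact mul_ne_zero (hβ0 _ _) hn
  refine ⟨t, ht0, ?_, ?_, ?_⟩
  · intro k k' hkk
    have h1 : c k k' = k' := (hcu k k' k' (cz_symm hkk) (fun _ => rfl)).symm
    rw [htβ k k']
    show a (c k k') / a k' * t k' = t k'
    rw [h1, div_self (ha0 k'), one_mul]
  · intro k k' d h1 h2
    rw [htβ k k', hcu k k' d h1 h2]
    show a (c k k') / a k' * t k' * a k' = t k' * a (c k k')
    have h3 := ha0 k'
    field_simp
  · intro e σ hσ hst k
    have h1 : ∀ k k', e (β k k') = β (σ k) (σ k') := by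
      intro k k'
      show e (a (c k k') / a k') = a (c (σ k) (σ k')) / a (σ k')
      rw [map_div₀, hσ, hσ]
      rw [hcu (σ k) (σ k') (σ (c k k')) ((hst.1 _ _).mp (hc1 k k')) ((hst.2 _ _).mp (hc2 k k'))]
    show e (∑ k', β k k' * a k' ^ n) = ∑ k', β (σ k) k' * a k' ^ n
    rw [map_sum, ← Equiv.sum_comp σ (fun k' => β (σ k) k' * a k' ^ n)]
    refine Finset.sum_congr rfl fun k' _ => ?_
    rw [map_mul, map_pow, h1, hσ]

end Pool.Agent.H76Q
end

-- from Lib.H76Q.E3
section

/-!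
# the semilinear automorphism of an automorphism of the field
-/

set_option autoImplicit false
set_option linter.unusedSectionVars false
namespace Pool.Agent.H76Q
open Module Matrix Polynomial Pool.Agent.H53Toric
open Pool.Agent.H76P
open Pool.Agent.H76T (IsIdeal Fam Lc)
open Pool.Agent.H76V (Cmp)
open Pool.Agent.H76U (cmp preL IsSplitting)
open Pool.Agent.H76RM (spanK similD)

variable {ι : Type*} [Fintype ι] [DecidableEq ι] {K : Type*} [Field K] [CharZero K]
  [IsAlgClosed K] {J : Matrix ι ι K} {S 𝓗 : Set (Matrix ι ι K)} {e x : Matrix ι ι K} {q : K} {n : ℕ}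
  {U : Matrix ι (Fin n) K} {V : Matrix (Fin n) ι K} {d : Fin n → K}
  {Y : Submodule ℚ (Fin n → ℚ)}

/-- PROOF. If `f` vanishes on `S`, so does the polynomial `f'` with coefficients `τ⁻¹` of those of `f` (`s.map τ = s`); `ev (s.map τ) (f) = τ (ev s f')`, `der (A.map τ) f` has the value
`τ (ev s (der A f'))` at `s = s.map τ`. -/
theorem zlie_map {S : Set (Matrix ι ι K)} {τ : K ≃+* K} (hS : ∀ s ∈ S, s.map τ = s)
    {A : Matrix ι ι K} : A.map τ ∈ zlie S ↔ A ∈ zlie S := by
  constructor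
  · intro hA
    have hS' : ∀ s ∈ S, s.map τ.symm = s := by
      intro s hs
      nth_rw 1 [← hS s hs]
      exact H76T.map_symmm τ s
    have h1 := H76T.zlie_map τ.symm hS' hA
    rwa [H76T.map_symmm] at h1
  · exact H76T.zlie_map τ hS

theorem e3_map_mul {l m n : Type*} [Fintype m] (τ : K ≃+* K) (X : Matrix l m K) (Y : Matrix m n K) :
    (X * Y).map τ = X.map τ * Y.map τ := by
  have : (X * Y).map (τ : K →+* K) = X.map (τ : K →+* K) * Y.map (τ : K →+* K) := Matrix.map_mul
  exact this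

theorem e3_preL {τ : K ≃+* K} (hJ : J.map τ = J) (hS : ∀ s ∈ S, s.map τ = s) {A : Matrix ι ι K}
    (hA : A ∈ preL J S) : A.map τ ∈ preL J S := by
  obtain ⟨⟨c, C, hC, hAC⟩, d, hd⟩ := hA
  refine ⟨⟨τ c, C.map τ, H76T.zlie_map τ hS hC, ?_⟩, τ d, ?_⟩
  · rw [hAC, H76T.map_addm, H76T.map_smulm, H76T.map_onem]
  · have e : (A.map τ)ᵀ = (Aᵀ).map τ := rfl
    calc (A.map τ)ᵀ * J + J * A.map τ = (Aᵀ * J + J * A).map τ := by
          rw [H76T.map_addm, H76T.map_mulm, H76T.map_mulm, hJ, e]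
      _ = _ := by rw [hd, H76T.map_smulm, hJ]

/-- PROOF. `C = V * U.map τ`, `C' = V.map τ * U`: `C * C' = 1` (`U * V = e`, `e.map τ = e`, `V * U = 1`).  `θ X = phi (C * (toMatrix' X).map τ * C')`.  It is a ring automorphism (inverse: the same
with `τ⁻¹`).  `diag`: `x * U.map τ = U.map τ * diagonal (τ ∘ d)`, so the column `k` of `U.map τ = U * C` is an eigenvector with eigenvalue `τ (d k) = d (σ k)`, i.e. `C l k ≠ 0` only for
`l = σ k` (`d` injective).  `mem`: for `A ∈ preL J S` `A.map τ ∈ preL J S` (`zlie_map`, `J.map τ = J`), it commutes with `e`, and `θ (phi (cmp U V A)) = phi (cmp U V (A.map τ))`; skew elements go to skew elements by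
`adj`.  `adj`: `J' = Uᵀ J U`, `J'.map τ = Cᵀ J' C`.  The last statement: `U * (C * X^τ * C') * V = e * (U X V)^τ * e`. -/
theorem exists_theta (h : Loc J S 𝓗 e x q U V d Y) {τ : K ≃+* K} (he : e.map τ = e)
    (hx : x.map τ = x) (hJ : J.map τ = J) (hS : ∀ s ∈ S, s.map τ = s)
    {σ : Equiv.Perm (Fin n)} (hσ : ∀ k, τ (d k) = d (σ k)) :
    ∃ θ : Module.End K (Fin n → K) ≃+* Module.End K (Fin n → K),
      Theta (Lc J S U V) (Uᵀ * J * U) θ τ σ ∧
      ∀ X, (U * LinearMap.toMatrix' X * V).map τ = U * LinearMap.toMatrix' (θ X) * V := by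
  have hUV := h.UV
  have hVU := h.VU
  have hVe : V * e = V := by rw [hUV, ← Matrix.mul_assoc, hVU, Matrix.one_mul]
  have heU : e * U = U := by rw [hUV, Matrix.mul_assoc, hVU, Matrix.mul_one]
  have heUt : e * U.map τ = U.map τ := by
    nth_rw 1 [← he]
    rw [← e3_map_mul, heU]
  have hVte : V.map τ * e = V.map τ := by
    nth_rw 1 [← he]
    rw [← e3_map_mul, hVe]
  have hUVt : U.map τ * V.map τ = e := by rw [← e3_map_mul, ← hUV, he]
  obtain ⟨C, hC⟩ : ∃ C, C = V * U.map τ := ⟨_, rfl⟩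
  obtain ⟨C', hC'⟩ : ∃ C', C' = V.map τ * U := ⟨_, rfl⟩
  have hCC : C * C' = 1 := by
    calc C * C' = V * (U.map τ * V.map τ) * U := by rw [hC, hC']; simp only [Matrix.mul_assoc]
      _ = 1 := by rw [hUVt, hVe, hVU]
  have hCl : ∀ l k, C l k ≠ 0 → l = σ k := by
    intro l k hne
    have hVx : V * x = Matrix.diagonal d * V := by
      calc V * x = V * e * x := by rw [hVe]
        _ = V * (x * U) * V := by
            rw [Matrix.mul_assoc V e x, h.ex, hUV]
            simp only [Matrix.mul_assoc]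
        _ = V * U * Matrix.diagonal d * V := by rw [h.ec.eig]; simp only [Matrix.mul_assoc]
        _ = _ := by rw [hVU, Matrix.one_mul]
    have hxU : x * U.map τ = U.map τ * Matrix.diagonal (fun k => d (σ k)) := by
      have h1 := congrArg (fun M : Matrix ι (Fin n) K => M.map τ) h.ec.eig
      beta_reduce at h1
      rw [e3_map_mul, e3_map_mul, hx] at h1
      rw [h1]
      congr 1
      ext a b
      rw [Matrix.map_apply, Matrix.diagonal_apply, Matrix.diagonal_apply]
      split_ifs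
      · exact hσ a
      · exact map_zero τ
    have h2 : Matrix.diagonal d * C = C * Matrix.diagonal (fun k => d (σ k)) := by
      rw [hC, ← Matrix.mul_assoc, ← hVx, Matrix.mul_assoc, hxU, Matrix.mul_assoc]
    have h3 := congrFun (congrFun h2 l) k
    rw [Matrix.diagonal_mul, Matrix.mul_diagonal, mul_comm (C l k)] at h3
    exact h.ec.inj (mul_right_cancel₀ hne h3)
  obtain ⟨J', hJ'⟩ : ∃ J', J' = Uᵀ * J * U := ⟨_, rfl⟩
  have hJd : IsUnit J'.det := by rw [hJ']; exact h.ts.cmp.Jd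
  have hJi : J'⁻¹ * J' = 1 := Matrix.nonsing_inv_mul _ hJd
  have hJi' : J' * J'⁻¹ = 1 := Matrix.mul_nonsing_inv _ hJd
  have hJt : J'.map τ = Cᵀ * J' * C := by
    have e1 : (Uᵀ).map τ = (U.map τ)ᵀ := rfl
    have e2 : (U.map τ)ᵀ * eᵀ = (U.map τ)ᵀ := by rw [← Matrix.transpose_mul, heUt]
    calc J'.map τ = (U.map τ)ᵀ * J * U.map τ := by rw [hJ', e3_map_mul, e3_map_mul, hJ, e1]
      _ = ((U.map τ)ᵀ * eᵀ) * J * (e * U.map τ) := by rw [e2, heUt]
      _ = (V * U.map τ)ᵀ * (Uᵀ * J * U) * (V * U.map τ) := by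
          rw [hUV, Matrix.transpose_mul, Matrix.transpose_mul]
          simp only [Matrix.mul_assoc]
      _ = _ := by rw [← hC, ← hJ']
  have hJC : J'.map τ * C' = Cᵀ * J' := by rw [hJt, Matrix.mul_assoc, hCC, Matrix.mul_one]
  have hCt : C'ᵀ * Cᵀ = 1 := by rw [← Matrix.transpose_mul, hCC, Matrix.transpose_one]
  have hCJ : C * (J'⁻¹).map τ = J'⁻¹ * C'ᵀ := by
    have h1 : J'.map τ * (J'⁻¹).map τ = 1 := by rw [← H76T.map_mulm, hJi', H76T.map_onem]
    calc C * (J'⁻¹).map τ = (J'⁻¹ * (C'ᵀ * Cᵀ) * J') * (C * (J'⁻¹).map τ) := by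
          rw [hCt, Matrix.mul_one, hJi, Matrix.one_mul]
      _ = J'⁻¹ * C'ᵀ * ((Cᵀ * J' * C) * (J'⁻¹).map τ) := by simp only [Matrix.mul_assoc]
      _ = _ := by rw [← hJt, h1, Matrix.mul_one]
  have hmat : ∀ X : Module.End K (Fin n → K), ∃ y : Matrix (Fin n) (Fin n) K, X = phi y ∧
      LinearMap.toMatrix' X = y := by
    intro X
    obtain ⟨y, rfl⟩ := (phi (ι := Fin n) (K := K)).surjective X
    exact ⟨y, rfl, (phi (ι := Fin n) (K := K)).symm_apply_apply y⟩
  have hadj : ∀ X : Module.End K (Fin n → K), H76T.tht τ hCC (adjE J' X) = adjE J' (H76T.tht τ hCC X) := by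
    intro X
    obtain ⟨y, rfl, -⟩ := hmat X
    rw [H76T.tht_apply, adjE_phi, adjE_phi, H76T.tht_apply]
    congr 1
    rw [H76T.map_mulm, H76T.map_mulm, Matrix.transpose_mul, Matrix.transpose_mul]
    have e4 : (yᵀ).map τ = (y.map τ)ᵀ := rfl
    rw [e4]
    calc C * ((J'⁻¹).map τ * (y.map τ)ᵀ * J'.map τ) * C' =
        (C * (J'⁻¹).map τ) * (y.map τ)ᵀ * (J'.map τ * C') := by simp only [Matrix.mul_assoc]
      _ = _ := by rw [hCJ, hJC]; simp only [Matrix.mul_assoc]
  have hcmp : ∀ A : Matrix ι ι K, H76T.tht τ hCC (phi (cmp U V A)) = phi (cmp U V (A.map τ)) := by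
    intro A
    rw [H76T.tht_apply]
    congr 1
    rw [H76U.cmp_apply, H76U.cmp_apply, e3_map_mul, e3_map_mul, hC, hC']
    calc V * U.map τ * (V.map τ * A.map τ * U.map τ) * (V.map τ * U) =
        V * (U.map τ * V.map τ) * A.map τ * ((U.map τ * V.map τ) * U) := by
          simp only [Matrix.mul_assoc]
      _ = _ := by rw [hUVt, hVe, heU]
  have hS' : ∀ s ∈ S, s.map τ.symm = s := by
    intro s hs
    nth_rw 1 [← hS s hs]
    exact H76T.map_symmm τ s
  have hJs : J.map τ.symm = J := by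
    nth_rw 1 [← hJ]
    exact H76T.map_symmm τ J
  have hLb : ∀ X : Module.End K (Fin n → K), H76T.tht τ hCC X ∈ H76U.Lb J S U V ↔ X ∈ H76U.Lb J S U V := by
    intro X
    constructor
    · intro hX
      obtain ⟨y, hy, -⟩ := hmat (H76T.tht τ hCC X)
      rw [hy] at hX
      obtain ⟨A, hA, hAy⟩ := H76U.mem_Lb.1 hX
      have h1 : H76T.tht τ hCC (phi (cmp U V (A.map τ.symm))) = H76T.tht τ hCC X := by
        rw [hcmp, H76T.map_symmm', hAy, hy]
      rw [← (H76T.tht τ hCC).injective h1]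
      exact H76U.mem_Lb.2 ⟨_, e3_preL hJs hS' hA, rfl⟩
    · intro hX
      obtain ⟨y, rfl, -⟩ := hmat X
      obtain ⟨A, hA, rfl⟩ := H76U.mem_Lb.1 hX
      rw [hcmp]
      exact H76U.mem_Lb.2 ⟨_, e3_preL hJ hS hA, rfl⟩
  refine ⟨H76T.tht τ hCC, ⟨H76T.tht_smul τ hCC, fun g => ?_, fun X => ?_, fun X => ?_⟩, fun X => ?_⟩
  · rw [← phi_diag, H76T.tht_apply, ← phi_diag]
    congr 1
    have h1 : C * (Matrix.diagonal g).map τ = Matrix.diagonal (fun k => τ (g (σ.symm k))) * C := by
      have h2 : (Matrix.diagonal g).map τ = Matrix.diagonal (fun k => τ (g k)) := by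
        ext a b
        rw [Matrix.map_apply, Matrix.diagonal_apply, Matrix.diagonal_apply]
        split_ifs
        · rfl
        · exact map_zero τ
      rw [h2]
      ext l k
      rw [Matrix.diagonal_mul, Matrix.mul_diagonal]
      by_cases hz : C l k = 0
      · rw [hz, zero_mul, mul_zero]
      · rw [hCl l k hz, Equiv.symm_apply_apply, mul_comm]
    rw [h1, Matrix.mul_assoc, hCC, Matrix.mul_one]
  · rw [H76T.mem_Lc, H76T.mem_Lc, hLb, ← hJ', ← hadj, ← map_neg, (H76T.tht τ hCC).injective.eq_iff]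
  · rw [← hJ']
    exact hadj X
  · obtain ⟨y, rfl, hy⟩ := hmat X
    rw [hy, H76T.tht_apply]
    have h1 : LinearMap.toMatrix' (phi (C * y.map τ * C')) = C * y.map τ * C' :=
      (phi (ι := Fin n) (K := K)).symm_apply_apply _
    rw [h1, e3_map_mul, e3_map_mul, hC, hC']
    calc U.map τ * y.map τ * V.map τ = (e * U.map τ) * y.map τ * (V.map τ * e) := by rw [heUt, hVte]
      _ = _ := by
          rw [hUV]
          simp only [Matrix.mul_assoc]

end Pool.Agent.H76Q
end

-- from Lib.H76Q.E5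
section

/-!
# automorphisms of closures
-/

set_option autoImplicit false
set_option linter.unusedSectionVars false
namespace Pool.Agent.H76Q
open Module Matrix Polynomial Pool.Agent.H53Toric
open Pool.Agent.H76P
open Pool.Agent.H76T (IsIdeal Fam Lc)
open Pool.Agent.H76V (Cmp)
open Pool.Agent.H76U (cmp preL IsSplitting)
open Pool.Agent.H76RM (spanK similD)

variable {ι : Type*} [Fintype ι] [DecidableEq ι] {K : Type*} [Field K] [CharZero K]
  [IsAlgClosed K]

/-- PROOF. `Ω` is algebraic and normal over `ℚ`, so `τ (i Ω) = i Ω` (images of roots of rational polynomials). -/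
theorem exists_res {Ω : Type*} [Field Ω] [CharZero Ω] [IsAlgClosed Ω] [Algebra.IsAlgebraic ℚ Ω]
    (i : Ω →+* K) (τ : K ≃+* K) : ∃ s : Ω ≃+* Ω, ∀ y, τ (i y) = i (s y) := by
  have key : ∀ (τ : K ≃+* K) (y : Ω), ∃ z, i z = τ (i y) := by
    intro τ y
    have halg : IsAlgebraic ℚ y := Algebra.IsAlgebraic.isAlgebraic y
    obtain ⟨f, hf0, hf⟩ := halg
    have hroot : eval₂ (algebraMap ℚ K) (τ (i y)) f = 0 := by
      have h1 : ((τ : K →+* K).comp i).comp (algebraMap ℚ Ω) = algebraMap ℚ K := Subsingleton.elim _ _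
      rw [← h1]
      have h2 : eval₂ (((τ : K →+* K).comp i).comp (algebraMap ℚ Ω)) (((τ : K →+* K).comp i) y) f =
          ((τ : K →+* K).comp i) (eval₂ (algebraMap ℚ Ω) y f) := by rw [hom_eval₂]
      have h3 : eval₂ (algebraMap ℚ Ω) y f = 0 := hf
      rw [h3, map_zero] at h2
      exact h2
    have hspl : (f.map (algebraMap ℚ Ω)).Splits := IsAlgClosed.splits _
    have h4 : (f.map (algebraMap ℚ Ω)).map i = f.map (algebraMap ℚ K) := by
      rw [Polynomial.map_map]
      congr 1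
      exact Subsingleton.elim _ _
    have h5 : (f.map (algebraMap ℚ Ω)).eval₂ i (τ (i y)) = 0 := by
      rw [eval₂_eq_eval_map, h4, eval_map, hroot]
    have hne : f.map (algebraMap ℚ Ω) ≠ 0 := (Polynomial.map_ne_zero_iff (algebraMap ℚ Ω).injective).2 hf0
    have h6 : τ (i y) ∈ ((f.map (algebraMap ℚ Ω)).map i).roots := by
      rw [mem_roots ((Polynomial.map_ne_zero_iff i.injective).2 hne), IsRoot.def, eval_map, h5]
    rw [hspl.roots_map i] at h6
    obtain ⟨z, -, hz⟩ := Multiset.mem_map.1 h6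
    exact ⟨z, hz⟩
  choose s hs using key τ
  choose s' hs' using key τ.symm
  refine ⟨⟨⟨s, s', fun y => ?_, fun y => ?_⟩, fun x y => ?_, fun x y => ?_⟩, fun y => (hs y).symm⟩
  · apply i.injective
    rw [hs', hs, RingEquiv.symm_apply_apply]
  · apply i.injective
    rw [hs, hs', RingEquiv.apply_symm_apply]
  · apply i.injective
    show i (s (x * y)) = i (s x * s y)
    rw [hs, map_mul, map_mul, map_mul, hs, hs]
  · apply i.injective
    show i (s (x + y)) = i (s x + s y)
    rw [hs, map_add, map_add, map_add, hs, hs]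

/-- PROOF. The closure of a field of characteristic zero is a Galois extension (`IsGalois`, `InfiniteGalois` or `IsGalois.mem_bot_iff_fixed`, `IsAlgClosure`). -/
theorem fixed_mem {L : Type*} [Field L] [CharZero L] {y : AlgebraicClosure L}
    (hy : ∀ τ : AlgebraicClosure L ≃ₐ[L] AlgebraicClosure L, τ y = y) :
    ∃ c : L, y = algebraMap L (AlgebraicClosure L) c := by
  have h1 : y ∈ Set.range (algebraMap L (AlgebraicClosure L)) := by
    rw [InfiniteGalois.mem_range_algebraMap_iff_fixed]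
    exact hy
  obtain ⟨c, hc⟩ := h1
  exact ⟨c, hc.symm⟩

/-- PROOF. `s` permutes the set of the `a k` (the roots of `(F b).map j`; `s` fixes `j M`). -/
theorem exists_perm {Ω M : Type*} [Field Ω] [Field M] {j : M →+* Ω} {f : Polynomial M} {n : ℕ}
    {a : Fin n → Ω} (ha : Function.Injective a) (hroot : ∀ y : Ω, f.eval₂ j y = 0 ↔ ∃ k, y = a k)
    {s : Ω ≃+* Ω} (hs : ∀ c, s (j c) = j c) : ∃ σ : Equiv.Perm (Fin n), ∀ k, s (a k) = a (σ k) := by
  have h1 : ∀ k, ∃ l, s (a k) = a l := by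
    intro k
    rw [← hroot]
    have h2 : (s : Ω →+* Ω).comp j = j := RingHom.ext hs
    have h3 : f.eval₂ ((s : Ω →+* Ω).comp j) ((s : Ω →+* Ω) (a k)) = (s : Ω →+* Ω) (f.eval₂ j (a k)) := by
      rw [hom_eval₂]
    rw [h2, (hroot (a k)).2 ⟨k, rfl⟩, map_zero] at h3
    exact h3
  choose σ hσ using h1
  have hinj : Function.Injective σ := by
    intro k k' hkk
    apply ha
    apply s.injective
    rw [hσ, hσ, hkk]
  exact ⟨Equiv.ofBijective σ (Finite.injective_iff_bijective.1 hinj), hσ⟩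

end Pool.Agent.H76Q
end

-- from Lib.H76Y.T2
section

/-!
# T2: the evaluations; two commuting algebras
-/

set_option autoImplicit false
set_option linter.unusedSectionVars false
namespace Pool.Agent.H76Y
open Pool.Agent.H76P Pool.Agent.H76V Pool.Agent.H76Q
open Module Matrix Pool.Agent.H53Toric
open Pool.Agent.H76T (IsIdeal Fam)

section
variable {κ : Type*} {K : Type*} [Field K] [CharZero K] [Fintype κ] [DecidableEq κ]
  {L : Submodule K (Module.End K (κ → K))} {J : Matrix κ κ K} {ν : κ → ℚ}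

/-- PROOF. `Yo L` is finite dimensional.  If the span `W` of the differences is not everything, there is a nonzero functional on the
dual space which vanishes on `W`; it is the evaluation at some `f : Yo L`, `f ≠ 0` (`Module.evalEquiv`, reflexivity).  So `f a = f b` for all
`a`, `b`, and `∑ a, f a = 0` (`Yo_sum`), hence `f = 0` (`κ` empty is trivial), contradiction. -/
theorem pt_spans (h : CmpN L) : Spans (pt L) := by
  unfold Spans
  by_contra hW
  obtain ⟨f, hf0, hf⟩ := Submodule.exists_le_ker_of_lt_top _ (lt_top_iff_ne_top.2 hW)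
  obtain ⟨x, rfl⟩ := (Module.evalEquiv ℚ (Yo L)).surjective f
  apply hf0
  have hx : x = 0 := by
    have h1 : ∀ a b, (x : κ → ℚ) b = (x : κ → ℚ) a := by
      intro a b
      have h2 : pt L b - pt L a ∈ LinearMap.ker ((Module.evalEquiv ℚ (Yo L)) x) :=
        hf (Submodule.subset_span ⟨a, b, rfl⟩)
      rw [LinearMap.mem_ker] at h2
      have h3 : (pt L b - pt L a) x = 0 := h2
      rw [LinearMap.sub_apply, pt_apply, pt_apply] at h3
      exact sub_eq_zero.1 h3
    have h4 := Yo_sum h x.2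
    apply Subtype.ext
    funext a
    have h5 : ∑ b, (x : κ → ℚ) b = (Fintype.card κ : ℚ) * (x : κ → ℚ) a := by
      rw [Finset.sum_congr rfl (fun b _ => h1 a b), Finset.sum_const, Finset.card_univ, nsmul_eq_mul]
    rw [h5] at h4
    have h6 : (Fintype.card κ : ℚ) ≠ 0 := by
      have : Nonempty κ := ⟨a⟩
      exact_mod_cast Fintype.card_ne_zero
    rcases mul_eq_zero.1 h4 with h7 | h7
    · exact absurd h7 h6
    · exact h7
  rw [hx, map_zero]

end

section
variable {K : Type*} [Field K] {V : Type*} [AddCommGroup V] [Module K V]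

/-- PROOF. Suppose `p * q = 0`, `q ≠ 0`, `p ≠ 0`.  Let `W = {w | ∀ z ∈ A₂, p (z w) = 0}`, a subspace.  It is stable under `A₂` (`A₂` is closed under
products) and under `A₁` (for `x ∈ A₁`: `p (z (x w)) = x (p (z w))`, as `x` commutes with `p` and `z`), so it is stable under
`A₁ ⊔ A₂ = ⊤`, i.e. under all operators (the operators which map `W` to `W` are a subalgebra containing `A₁` and `A₂`).  `W` contains
the range of `q`: `p (z (q v)) = p (q (z v)) = 0`.  As `q ≠ 0`, `W` contains a nonzero vector, and since every vector is the image of it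
under some operator, `W = ⊤`.  So `p = 0` (`z = 1`), contradiction. -/
theorem nonvan {A₁ A₂ : Subalgebra K (Module.End K V)}
    (hcomm : ∀ X ∈ A₁, ∀ Y ∈ A₂, X * Y = Y * X) (hfull : A₁ ⊔ A₂ = ⊤)
    {p q : Module.End K V} (hp : p ∈ A₂) (hq : q ∈ A₁) (hp0 : p ≠ 0) (hq0 : q ≠ 0) :
    p * q ≠ 0 := by
  intro hpq
  let W : Submodule K V :=
    { carrier := {w | ∀ z ∈ A₂, p (z w) = 0}
      add_mem' := by
        intro a b ha hb z hz
        rw [map_add, map_add, ha z hz, hb z hz, add_zero]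
      zero_mem' := by
        intro z _
        rw [map_zero, map_zero]
      smul_mem' := by
        intro c a ha z hz
        rw [map_smul, map_smul, ha z hz, smul_zero] }
  let S : Subalgebra K (Module.End K V) :=
    { carrier := {X | ∀ w ∈ W, X w ∈ W}
      mul_mem' := by
        intro X Y hX hY w hw
        exact hX _ (hY _ hw)
      add_mem' := by
        intro X Y hX hY w hw
        exact W.add_mem (hX _ hw) (hY _ hw)
      algebraMap_mem' := by
        intro c w hw
        exact W.smul_mem c hw }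
  have h1 : A₁ ≤ S := by
    intro X hX w hw z hz
    have e1 : z (X w) = X (z w) := by
      have := congrArg (fun T : Module.End K V => T w) (hcomm X hX z hz)
      exact this.symm
    have e2 : p (X (z w)) = X (p (z w)) := by
      have := congrArg (fun T : Module.End K V => T (z w)) (hcomm X hX p hp)
      exact this.symm
    rw [e1, e2, hw z hz, map_zero]
  have h2 : A₂ ≤ S := by
    intro X hX w hw z hz
    exact hw (z * X) (A₂.mul_mem hz hX)
  have h3 : ∀ X : Module.End K V, X ∈ S := by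
    intro X
    have h4 : A₁ ⊔ A₂ ≤ S := sup_le h1 h2
    rw [hfull] at h4
    exact h4 Algebra.mem_top
  obtain ⟨v, hv⟩ : ∃ v, q v ≠ 0 := by
    by_contra hcon
    push Not at hcon
    exact hq0 (LinearMap.ext hcon)
  have hqv : q v ∈ W := by
    intro z hz
    have e1 : z (q v) = q (z v) := by
      have := congrArg (fun T : Module.End K V => T v) (hcomm q hq z hz)
      exact this.symm
    rw [e1]
    exact congrArg (fun T : Module.End K V => T (z v)) hpq
  obtain ⟨φ, hφ⟩ : ∃ φ : Module.Dual K V, φ (q v) ≠ 0 := by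
    by_contra hcon
    push Not at hcon
    exact hv ((Module.forall_dual_apply_eq_zero_iff K (q v)).1 hcon)
  apply hp0
  refine LinearMap.ext fun u => ?_
  have h5 := h3 (φ.smulRight ((φ (q v))⁻¹ • u)) (q v) hqv
  have h6 : (φ.smulRight ((φ (q v))⁻¹ • u)) (q v) = u := by
    rw [LinearMap.smulRight_apply, smul_smul, mul_inv_cancel₀ hφ, one_smul]
  rw [h6] at h5
  exact h5 1 A₂.one_mem

end

end Pool.Agent.H76Y
end

-- from Lib.H76Y.T3
section

/-!
# T3: mixing of coordinates
-/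

set_option autoImplicit false
set_option linter.unusedSectionVars false
namespace Pool.Agent.H76Y
open Pool.Agent.H76P Pool.Agent.H76V Pool.Agent.H76Q
open Module Matrix Pool.Agent.H53Toric
open Pool.Agent.H76T (IsIdeal Fam)
open Pool.Agent.H76V (Cmp alg calg)

variable {κ : Type*} {K : Type*} [Field K] [CharZero K] [Fintype κ] [DecidableEq κ]
  {L : Submodule K (Module.End K (κ → K))} {J : Matrix κ κ K} {ν : κ → ℚ}

/-- Indicators. PROOF. For `c` with `∃ f ∈ S, f c ≠ f b` choose such an `f = f_c`; the product over these `c` of the operators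
`(f_c b - f_c c)⁻¹ • (dq f_c - f_c c • 1)` is `dg` of a function which is `1` at all `d` with `f d = f b` for all `f ∈ S`, and `0` at all
other points. -/
theorem indicator_mem {A : Subalgebra K (Module.End K (κ → K))} {S : Set (κ → ℚ)}
    (hS : ∀ f ∈ S, dq f ∈ A) (b : κ) : ∃ g : κ → K, dg g ∈ A ∧ g b = 1 ∧
      ∀ c, g c ≠ 0 → ∀ f ∈ S, f c = f b := by
  have key : ∀ s : Finset κ, ∃ g : κ → K, dg g ∈ A ∧ g b = 1 ∧
      ∀ c ∈ s, g c ≠ 0 → ∀ f ∈ S, f c = f b := by
    intro s
    induction s using Finset.induction_on with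
    | empty =>
      refine ⟨1, ?_, rfl, fun c hc => absurd hc (Finset.notMem_empty c)⟩
      rw [dg_one]
      exact A.one_mem
    | insert c s hcs ih =>
      obtain ⟨g, hg, hgb, hgs⟩ := ih
      by_cases hc : ∀ f ∈ S, f c = f b
      · refine ⟨g, hg, hgb, fun d hd hgd => ?_⟩
        rcases Finset.mem_insert.1 hd with h1 | h1
        · rw [h1]
          exact hc
        · exact hgs d h1 hgd
      · push Not at hc
        obtain ⟨f, hf, hne⟩ := hc
        have hfb : ((f b : K) - (f c : K)) ≠ 0 := by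
          intro h1
          apply hne
          have h2 : (f b : K) = (f c : K) := sub_eq_zero.1 h1
          exact_mod_cast h2.symm
        have hmem : dg (fun d => ((f b : K) - (f c : K))⁻¹ * ((f d : K) - (f c : K))) ∈ A := by
          have e : dg (fun d => ((f b : K) - (f c : K))⁻¹ * ((f d : K) - (f c : K))) =
              ((f b : K) - (f c : K))⁻¹ • ((dq f : Module.End K (κ → K)) - (f c : K) • 1) := by
            refine LinearMap.ext fun v => funext fun d => ?_
            unfold dq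
            simp only [dg_apply, LinearMap.smul_apply, LinearMap.sub_apply, Pi.smul_apply,
              Pi.sub_apply, Module.End.one_apply, smul_eq_mul]
            ring
          rw [e]
          exact A.smul_mem (A.sub_mem (hS f hf) (A.smul_mem A.one_mem _)) _
        refine ⟨(fun d => ((f b : K) - (f c : K))⁻¹ * ((f d : K) - (f c : K))) * g, ?_, ?_, ?_⟩
        · rw [← dg_mul]
          exact A.mul_mem hmem hg
        · rw [Pi.mul_apply, hgb, mul_one]
          exact inv_mul_cancel₀ hfb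
        · intro d hd hgd
          rw [Pi.mul_apply] at hgd
          rcases Finset.mem_insert.1 hd with h1 | h1
          · exfalso
            apply hgd
            rw [h1]
            show ((f b : K) - (f c : K))⁻¹ * ((f c : K) - (f c : K)) * g c = 0
            rw [sub_self, mul_zero, zero_mul]
          · exact hgs d h1 (right_ne_zero_of_mul hgd)
  obtain ⟨g, h1, h2, h3⟩ := key Finset.univ
  exact ⟨g, h1, h2, fun c hc => h3 c (Finset.mem_univ c) hc⟩

variable [IsAlgClosed K] [Nonempty κ] {m : ℕ} {I : Fin m → Submodule K (Module.End K (κ → K))}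

/-- PROOF. `indicator_mem` for `A = alg I j`, `S = {f | dq f ∈ I j}` and `b`: `p = dg g`; and for `A = calg I j`,
`S = {f | ∃ i ≠ j, dq f ∈ I i}` and `a`: `q = dg g'`.  Both are nonzero (value at `b`, at `a`), so `p * q ≠ 0` by `nonvan`
(`Fam.calg_comm`, `Fam.calg_top`), i.e. there is `c` with `g c ≠ 0`, `g' c ≠ 0`. -/
theorem mix (h : CmpN L) (hF : Fam L I) (j : Fin m) (a b : κ) :
    ∃ c, (∀ f : κ → ℚ, dq f ∈ I j → f c = f b) ∧
      ∀ i, i ≠ j → ∀ f : κ → ℚ, dq f ∈ I i → f c = f a := by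
  obtain ⟨g, hg, hgb, hgS⟩ := indicator_mem (A := alg I j)
    (S := {f : κ → ℚ | (dq f : Module.End K (κ → K)) ∈ I j}) (fun f hf => Pool.Agent.H76V.mem_alg hf) b
  obtain ⟨g', hg', hga, hgS'⟩ := indicator_mem (A := calg I j)
    (S := {f : κ → ℚ | ∃ i, i ≠ j ∧ (dq f : Module.End K (κ → K)) ∈ I i})
    (fun f hf => by
      obtain ⟨i, hij, hfi⟩ := hf
      exact Pool.Agent.H76V.mem_calg hij hfi) a
  have hp0 : dg g ≠ (0 : Module.End K (κ → K)) := by
    intro h0
    have h1 := congrFun (congrArg (fun T : Module.End K (κ → K) => T (Pi.single b 1)) h0) b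
    simp only [dg_apply, Pi.single_eq_same, hgb, LinearMap.zero_apply, Pi.zero_apply, mul_one] at h1
    exact one_ne_zero h1
  have hq0 : dg g' ≠ (0 : Module.End K (κ → K)) := by
    intro h0
    have h1 := congrFun (congrArg (fun T : Module.End K (κ → K) => T (Pi.single a 1)) h0) a
    simp only [dg_apply, Pi.single_eq_same, hga, LinearMap.zero_apply, Pi.zero_apply, mul_one] at h1
    exact one_ne_zero h1
  have hpq := nonvan (Pool.Agent.H76V.Fam.calg_comm hF j) (Pool.Agent.H76V.Fam.calg_top hF h.irr j) hg hg' hp0 hq0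
  rw [dg_mul] at hpq
  have hex : ∃ c, (g * g') c ≠ 0 := by
    by_contra hcon
    push Not at hcon
    apply hpq
    refine LinearMap.ext fun v => funext fun c => ?_
    rw [dg_apply, hcon c, zero_mul]
    rfl
  obtain ⟨c, hc⟩ := hex
  rw [Pi.mul_apply] at hc
  refine ⟨c, fun f hf => hgS c (left_ne_zero_of_mul hc) f hf, fun i hij f hf => ?_⟩
  exact hgS' c (right_ne_zero_of_mul hc) f ⟨i, hij, hf⟩

end Pool.Agent.H76Y
end

-- from Lib.H76Y.V2
section

/-!
# The decomposition of an irreducible symplectic Lie algebra with many involutions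
-/

set_option autoImplicit false
set_option linter.unusedSectionVars false
namespace Pool.Agent.H76Y
open Pool.Agent.H76P Pool.Agent.H76V Pool.Agent.H76Q
open Module Matrix Pool.Agent.H53Toric
open Pool.Agent.H76T (IsIdeal Fam tr_skew scalar_skew adjoin_comm)

variable {κ : Type*} [Fintype κ] [DecidableEq κ] {K : Type*} [Field K]

variable [CharZero K] {L : Submodule K (Module.End K (κ → K))} 

variable [IsAlgClosed K] [Nonempty κ] {m : ℕ} {I : Fin m → Submodule K (Module.End K (κ → K))}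

/-- Every minimal ideal contains an involution. -/
theorem CmpN.inv_mem (h : CmpN L) (hF : Fam L I) (k : Fin m) : ∃ y ∈ I k, y * y = 1 := by
  by_contra hcon
  push Not at hcon
  apply hF.ne_bot k
  rw [eq_bot_iff]
  intro X hX
  obtain ⟨c, hc⟩ := h.gen X (fun y hy hy2 => by
    have hy0 : y ≠ 0 := by
      rintro rfl
      rw [mul_zero] at hy2
      exact zero_ne_one hy2
    obtain ⟨j, hj⟩ := hF.one h.irr h.tr hy hy0 (a := 0) (b := -1) (by
      rw [hy2]; module)
    have hkj : k ≠ j := by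
      rintro rfl
      exact hcon y hj hy2
    exact hF.comm k j hkj X hX y hj)
  have h1 := h.tr X ((hF.ideal k).1 hX)
  rw [hc, map_smul, LinearMap.trace_one, smul_eq_mul, mul_eq_zero] at h1
  rw [Submodule.mem_bot, hc]
  rcases h1 with h1 | h1
  · rw [h1, zero_smul]
  · exact absurd h1 (by exact_mod_cast (finrank_pos (R := K) (M := κ → K)).ne')

/-- The dimensions of the two factors. -/
theorem CmpN.dims (h : CmpN L) (hF : Fam L I) {i j : Fin m} (hij : i ≠ j) :
    ∃ a d : ℕ, finrank K (calg I j) = a * a ∧ finrank K (alg I j) = d * d ∧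
      finrank K (κ → K) = a * d ∧ Even a ∧ Even d ∧
      (∀ N ∈ alg I j, ∀ X ∈ alg I j, N * X * N = N → a ∣ finrank K (LinearMap.range N)) ∧
      (∀ N ∈ calg I j, ∀ X ∈ calg I j, N * X * N = N →
        d ∣ finrank K (LinearMap.range N)) := by
  obtain ⟨a, d, ha, hd, hV, h1, h2⟩ := two_rank' (Fam.calg_comm hF j) (Fam.calg_top hF h.irr j)
  have hV0 : 0 < finrank K (κ → K) := finrank_pos
  refine ⟨a, d, ha, hd, hV, ?_, ?_, h1, h2⟩
  · obtain ⟨y, hy, hy2⟩ := h.inv_mem hF i
    have hf : (1 / 2 : K) • (1 + y) ∈ calg I j :=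
      Subalgebra.smul_mem _ (Subalgebra.add_mem _ (Subalgebra.one_mem _) (mem_calg hij hy)) _
    have h3 := h2 _ hf 1 (Subalgebra.one_mem _) (by rw [mul_one, half_idem hy2])
    have h4 := half_rank hy2 (h.tr y ((hF.ideal i).1 hy))
    obtain ⟨t, ht⟩ := h3
    rw [ht, hV] at h4
    have hd0 : 0 < d := by
      rcases Nat.eq_zero_or_pos d with h5 | h5
      · rw [h5, mul_zero] at hV; omega
      · exact h5
    have h5 : a = 2 * t := by
      apply Nat.eq_of_mul_eq_mul_left hd0
      rw [mul_comm d a, ← h4]; ring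
    exact ⟨t, by omega⟩
  · obtain ⟨y, hy, hy2⟩ := h.inv_mem hF j
    have hf : (1 / 2 : K) • (1 + y) ∈ alg I j :=
      Subalgebra.smul_mem _ (Subalgebra.add_mem _ (Subalgebra.one_mem _) (mem_alg hy)) _
    have h3 := h1 _ hf 1 (Subalgebra.one_mem _) (by rw [mul_one, half_idem hy2])
    have h4 := half_rank hy2 (h.tr y ((hF.ideal j).1 hy))
    obtain ⟨t, ht⟩ := h3
    rw [ht, hV] at h4
    have ha0 : 0 < a := by
      rcases Nat.eq_zero_or_pos a with h5 | h5
      · rw [h5, zero_mul] at hV; omega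
      · exact h5
    have h5 : d = 2 * t := by
      apply Nat.eq_of_mul_eq_mul_left ha0
      rw [← h4]; ring
    exact ⟨t, by omega⟩

/-- A partner in the same ideal. -/
theorem CmpN.partner (h : CmpN L) (hF : Fam L I) {j : Fin m} {N : Module.End K (κ → K)}
    (hN : N ∈ I j) (hN2 : N * N = 0) : ∃ X ∈ I j, N * X * N = N := by
  obtain ⟨X, hX, hNX⟩ := exists_partner h.lie h.irr h.tr ((hF.ideal j).1 hN) hN2
  have h1 : X ∈ ⨆ j, I j := by rw [hF.sup]; exact hX
  obtain ⟨f, hfI, hfX⟩ := (Submodule.mem_iSup_iff_exists_finsupp I X).1 h1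
  have hXs : X = f j + ∑ i ∈ Finset.univ.erase j, f i := by
    rw [Finset.add_sum_erase _ _ (Finset.mem_univ j), ← hfX, Finsupp.sum_fintype]
    intro _; rfl
  refine ⟨f j, hfI j, ?_⟩
  have h2 : N * (∑ i ∈ Finset.univ.erase j, f i) * N = 0 := by
    rw [Finset.mul_sum, Finset.sum_mul]
    apply Finset.sum_eq_zero
    intro i hi
    rw [hF.comm j i (Finset.ne_of_mem_erase hi).symm N hN (f i) (hfI i), mul_assoc, hN2,
      mul_zero]
  have h3 := hNX
  rw [hXs, mul_add, add_mul, h2, add_zero] at h3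
  exact h3

end Pool.Agent.H76Y
end

-- from Lib.H76Y.T4
section

/-!
# T4: involutions and minimal ideals
-/

set_option autoImplicit false
set_option linter.unusedSectionVars false
namespace Pool.Agent.H76Y
open Pool.Agent.H76P Pool.Agent.H76V Pool.Agent.H76Q
open Module Matrix Pool.Agent.H53Toric
open Pool.Agent.H76T (IsIdeal Fam)
open Pool.Agent.H76V (Cmp alg calg)

variable {κ : Type*} {K : Type*} [Field K] [CharZero K] [Fintype κ] [DecidableEq κ]
  {L : Submodule K (Module.End K (κ → K))} {J : Matrix κ κ K} {ν : κ → ℚ}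
variable [IsAlgClosed K] [Nonempty κ] {m : ℕ} {I : Fin m → Submodule K (Module.End K (κ → K))}

/-- PROOF. `Fam.one` (H76T.TA2) with `a = 0`, `b = -1` (`dq_sq`; `dq ε ≠ 0` since `κ` is nonempty; `CmpN.tr`, `CmpN.irr`). -/
theorem Hs_mem (h : CmpN L) (hF : Fam L I) {ε : κ → ℚ} (hε : ε ∈ Hs L) : ∃ j, dq ε ∈ I j := by
  have hy2 : (dq ε : Module.End K (κ → K)) * dq ε = 1 := dq_sq hε.1
  have hy0 : (dq ε : Module.End K (κ → K)) ≠ 0 := by
    intro h0
    rw [h0, mul_zero] at hy2
    exact zero_ne_one hy2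
  exact hF.one h.irr h.tr hε.2 hy0 (a := 0) (b := -1) (by rw [hy2]; module)

/-- an element of `L` that commutes with all minimal ideals is zero -/
theorem t4_zero (h : CmpN L) (hF : Fam L I) {X : Module.End K (κ → K)} (hX : X ∈ L)
    (hc : ∀ i, ∀ Y ∈ I i, X * Y = Y * X) : X = 0 := by
  have hc2 : ∀ Y ∈ L, X * Y = Y * X := by
    intro Y hY
    rw [← hF.sup] at hY
    induction hY using Submodule.iSup_induction' with
    | mem j Y hY => exact hc j Y hY
    | zero => rw [mul_zero, zero_mul]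
    | add a b _ _ ha hb => rw [mul_add, add_mul, ha, hb]
  obtain ⟨c, hc3⟩ := h.gen X (fun y hy _ => hc2 y hy)
  have h1 := h.tr X hX
  rw [hc3, map_smul, LinearMap.trace_one, smul_eq_mul, mul_eq_zero] at h1
  rw [hc3]
  rcases h1 with h1 | h1
  · rw [h1, zero_smul]
  · exact absurd h1 (by exact_mod_cast (finrank_pos (R := K) (M := κ → K)).ne')

/-- PROOF. `X j = -∑_{i ≠ j} X i` commutes with every element of `I j` (`hF.comm`) and of `I i`, `i ≠ j`, hence with `L` (`hF.sup`), so it is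
a scalar (`Irr`: `CmpN.gen`, or H76T.Fam.top), of trace zero (`CmpN.tr`, `X j ∈ L`), i.e. zero (`κ` is nonempty, characteristic zero;
`H76T.tr_skew`, `scalar_skew`). -/
theorem indep (h : CmpN L) (hF : Fam L I) {X : Fin m → Module.End K (κ → K)}
    (hX : ∀ i, X i ∈ I i) (h0 : ∑ i, X i = 0) (j : Fin m) : X j = 0 := by
  refine t4_zero h hF ((hF.ideal j).1 (hX j)) fun i Y hY => ?_
  by_cases hij : i = j
  · subst hij
    have h1 : X i = -∑ k ∈ Finset.univ.erase i, X k := by
      rw [← Finset.add_sum_erase _ _ (Finset.mem_univ i)] at h0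
      exact eq_neg_of_add_eq_zero_left h0
    have h2 : (∑ k ∈ Finset.univ.erase i, X k) * Y = Y * ∑ k ∈ Finset.univ.erase i, X k := by
      rw [Finset.sum_mul, Finset.mul_sum]
      refine Finset.sum_congr rfl fun k hk => ?_
      exact hF.comm k i (Finset.ne_of_mem_erase hk) _ (hX k) Y hY
    rw [h1]
    exact (Commute.neg_left h2 : Commute _ _)
  · exact hF.comm j i (Ne.symm hij) _ (hX j) Y hY

end Pool.Agent.H76Y
end

-- from Lib.H76Y.T13
section

/-!
# T13: the decomposition of the space of functions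
-/

set_option autoImplicit false
set_option linter.unusedSectionVars false
namespace Pool.Agent.H76Y
open Pool.Agent.H76P Pool.Agent.H76V Pool.Agent.H76Q
open Module Matrix Pool.Agent.H53Toric
open Pool.Agent.H76T (IsIdeal Fam)
open Pool.Agent.H76V (Cmp alg calg)

variable {κ : Type*} {K : Type*} [Field K] [CharZero K] [Fintype κ] [DecidableEq κ]
  {L : Submodule K (Module.End K (κ → K))} {J : Matrix κ κ K} {ν : κ → ℚ}
variable [IsAlgClosed K] [Nonempty κ] {m : ℕ} {I : Fin m → Submodule K (Module.End K (κ → K))}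

theorem t13_zero : (dq (0 : κ → ℚ) : Module.End K (κ → K)) = 0 := by
  have h2 := dq_smul (K := K) (0 : ℚ) (0 : κ → ℚ)
  rw [zero_smul, Rat.cast_zero, zero_smul] at h2
  exact h2

/-- `g` is a decomposition of `f` -/
def t13D (L : Submodule K (Module.End K (κ → K))) (I : Fin m → Submodule K (Module.End K (κ → K)))
    (f : κ → ℚ) (g : Fin m → κ → ℚ) : Prop :=
  (∀ i, g i ∈ Yo L ∧ dq (g i) ∈ I i) ∧ ∑ i, g i = f

theorem t13_single {f : κ → ℚ} (hf : f ∈ Yo L) {j : Fin m} (hj : dq f ∈ I j) :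
    t13D L I f (fun i => if i = j then f else 0) := by
  refine ⟨fun i => ?_, ?_⟩
  · dsimp only
    by_cases hij : i = j
    · rw [if_pos hij, hij]
      exact ⟨hf, hj⟩
    · rw [if_neg hij, t13_zero]
      exact ⟨Submodule.zero_mem _, Submodule.zero_mem _⟩
  · rw [Finset.sum_ite_eq' Finset.univ j (fun _ => f), if_pos (Finset.mem_univ j)]

theorem t13_add {f f' : κ → ℚ} {g g' : Fin m → κ → ℚ} (h : t13D L I f g) (h' : t13D L I f' g') :
    t13D L I (f + f') (g + g') := by
  refine ⟨fun i => ⟨Submodule.add_mem _ (h.1 i).1 (h'.1 i).1, ?_⟩, ?_⟩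
  · rw [Pi.add_apply, dq_add]
    exact Submodule.add_mem _ (h.1 i).2 (h'.1 i).2
  · rw [← h.2, ← h'.2, ← Finset.sum_add_distrib]
    rfl

theorem t13_smul (c : ℚ) {f : κ → ℚ} {g : Fin m → κ → ℚ} (h : t13D L I f g) :
    t13D L I (c • f) (c • g) := by
  refine ⟨fun i => ⟨Submodule.smul_mem _ c (h.1 i).1, ?_⟩, ?_⟩
  · rw [Pi.smul_apply, dq_smul]
    exact Submodule.smul_mem _ _ (h.1 i).2
  · rw [← h.2, Finset.smul_sum]
    rfl

theorem t13_dq_sum (g : Fin m → κ → ℚ) (s : Finset (Fin m)) :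
    (dq (∑ i ∈ s, g i) : Module.End K (κ → K)) = ∑ i ∈ s, dq (g i) := by
  induction s using Finset.induction_on with
  | empty => rw [Finset.sum_empty, Finset.sum_empty, t13_zero]
  | insert a s ha ih => rw [Finset.sum_insert ha, Finset.sum_insert ha, dq_add, ih]

theorem t13_unique (h : CmpN L) (hF : Fam L I) {f : κ → ℚ} {g g' : Fin m → κ → ℚ}
    (hg : t13D L I f g) (hg' : t13D L I f g') (j : Fin m) : g j = g' j := by
  have h1 := indep h hF (X := fun i => dq (g i) - dq (g' i))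
    (fun i => Submodule.sub_mem _ (hg.1 i).2 (hg'.1 i).2) (by
      rw [Finset.sum_sub_distrib, ← t13_dq_sum, ← t13_dq_sum, hg.2, hg'.2, sub_self]) j
  exact dq_inj (K := K) (sub_eq_zero.1 h1)

/-- PROOF. Every element of `Hs L` is in one of the `I j` (`Hs_mem`); span induction. -/
theorem exists_decomp (h : CmpN L) (hF : Fam L I) {f : κ → ℚ} (hf : f ∈ Yo L) :
    ∃ g : Fin m → κ → ℚ, (∀ i, g i ∈ Yo L ∧ dq (g i) ∈ I i) ∧ ∑ i, g i = f := by
  have key : f ∈ Submodule.span ℚ (Hs L) := hf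
  induction key using Submodule.span_induction with
  | mem ε hε =>
    obtain ⟨j, hj⟩ := Hs_mem h hF hε
    exact ⟨_, t13_single (Submodule.subset_span hε) hj⟩
  | zero =>
    refine ⟨0, fun i => ⟨Submodule.zero_mem _, ?_⟩, Finset.sum_const_zero⟩
    rw [Pi.zero_apply, t13_zero]
    exact Submodule.zero_mem _
  | add x y hx hy ihx ihy =>
    obtain ⟨g, hg⟩ := ihx hx
    obtain ⟨g', hg'⟩ := ihy hy
    exact ⟨_, t13_add hg hg'⟩
  | smul c x hx ihx =>
    obtain ⟨g, hg⟩ := ihx hx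
    exact ⟨_, t13_smul c hg⟩

/-- PROOF. `P f = g j` with `g` as in `exists_decomp`; `g` is unique by `indep` and `dq_inj`, so `P` is linear, `P f = f` if
`dq f ∈ I j` and `P f = 0` if `dq f ∈ I i`, `i ≠ j`.  (Or: the subspaces `{f : Yo L | dq f ∈ I i}` are independent with sum `⊤`.)
`P * P = P`, so `P.dualMap` is idempotent.  Splitting: for `a`, `b` let `c` be as in `mix`; for `f : Yo L` with the components
`g i`: `f c = g j c + ∑_{i ≠ j} g i c = g j b + ∑_{i ≠ j} g i a = f a + (P f) b - (P f) a`. -/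
theorem exists_proj (h : CmpN L) (hF : Fam L I) (j : Fin m) :
    ∃ P : Module.End ℚ (Yo L), (∀ f, dq (P f : κ → ℚ) ∈ I j) ∧
      (∀ f : Yo L, dq (f : κ → ℚ) ∈ I j → P f = f) ∧
      (∀ i, i ≠ j → ∀ f : Yo L, dq (f : κ → ℚ) ∈ I i → P f = 0) ∧
      Spl (pt L) P.dualMap := by
  choose G hG using fun f : Yo L => exists_decomp h hF f.2
  have hG' : ∀ f : Yo L, t13D L I (f : κ → ℚ) (G f) := hG
  let P : Module.End ℚ (Yo L) :=
    { toFun := fun f => ⟨G f j, ((hG' f).1 j).1⟩
      map_add' := fun f f' => Subtype.ext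
        (t13_unique h hF (hG' (f + f')) (t13_add (hG' f) (hG' f')) j)
      map_smul' := fun c f => Subtype.ext
        (t13_unique h hF (hG' (c • f)) (t13_smul c (hG' f)) j) }
  have hP : ∀ f, ((P f : Yo L) : κ → ℚ) = G f j := fun f => rfl
  have hP1 : ∀ f, dq (P f : κ → ℚ) ∈ I j := fun f => ((hG' f).1 j).2
  have hP2 : ∀ f : Yo L, dq (f : κ → ℚ) ∈ I j → P f = f := by
    intro f hf
    apply Subtype.ext
    rw [hP, t13_unique h hF (hG' f) (t13_single f.2 hf) j, if_pos rfl]
  have hP3 : ∀ i, i ≠ j → ∀ f : Yo L, dq (f : κ → ℚ) ∈ I i → P f = 0 := by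
    intro i hij f hf
    apply Subtype.ext
    rw [hP, t13_unique h hF (hG' f) (t13_single f.2 hf) j, if_neg (Ne.symm hij)]
    rfl
  refine ⟨P, hP1, hP2, hP3, ?_, fun a b => ?_⟩
  · refine LinearMap.ext fun φ => LinearMap.ext fun f => ?_
    show φ (P (P f)) = φ (P f)
    rw [hP2 (P f) (hP1 f)]
  · obtain ⟨c, hc1, hc2⟩ := mix h hF j a b
    refine ⟨c, LinearMap.ext fun f => ?_⟩
    show (f : κ → ℚ) c = (f : κ → ℚ) a + ((P f : κ → ℚ) b - (P f : κ → ℚ) a)
    rw [hP]
    have hs : ∀ x, (f : κ → ℚ) x = G f j x + ∑ i ∈ Finset.univ.erase j, G f i x := by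
      intro x
      rw [Finset.add_sum_erase Finset.univ (fun i => G f i x) (Finset.mem_univ j),
        ← Finset.sum_apply, (hG' f).2]
    rw [hs c, hs a, hc1 _ ((hG' f).1 j).2]
    have h5 : ∑ i ∈ Finset.univ.erase j, G f i c = ∑ i ∈ Finset.univ.erase j, G f i a :=
      Finset.sum_congr rfl fun i hi => hc2 i (Finset.ne_of_mem_erase hi) _ ((hG' f).1 i).2
    rw [h5]
    ring

end Pool.Agent.H76Y
end

-- from Lib.H76Y.T9
section

/-!
# T9: an sl2 pair
-/

set_option autoImplicit false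
set_option linter.unusedSectionVars false
namespace Pool.Agent.H76Y
open Pool.Agent.H76P Pool.Agent.H76V Pool.Agent.H76Q
open Module Matrix Pool.Agent.H53Toric
open Pool.Agent.H76T (IsIdeal Fam)
open Pool.Agent.H76V (Cmp alg calg)

variable {κ : Type*} {K : Type*} [Field K] [CharZero K] [Fintype κ] [DecidableEq κ]
  {L : Submodule K (Module.End K (κ → K))} {J : Matrix κ κ K} {ν : κ → ℚ}

/-- an operator whose weight is `2` or `-2` on `ε ∈ Hs L` has square zero -/
theorem t9_sq {δ : Module.Dual ℚ (Yo L)} {X : Module.End K (κ → K)} (hX : IsWt L δ X)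
    {ε : κ → ℚ} (hε : ε ∈ Hs L) (hδ : δ ⟨ε, Submodule.subset_span hε⟩ = 2 ∨
      δ ⟨ε, Submodule.subset_span hε⟩ = -2) : X * X = 0 := by
  refine LinearMap.toMatrix'.injective (Matrix.ext fun c d => ?_)
  rw [map_zero, Matrix.zero_apply]
  by_contra h0
  have h1 := (hX.mul hX).entry h0
  have h2 := LinearMap.congr_fun h1 ⟨ε, Submodule.subset_span hε⟩
  rw [LinearMap.sub_apply, LinearMap.add_apply, pt_apply, pt_apply] at h2
  change ε c - ε d = _ at h2
  rcases hε.1 c with h3 | h3 <;> rcases hε.1 d with h4 | h4 <;> rcases hδ with h5 | h5 <;>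
    rw [h3, h4, h5] at h2 <;> norm_num at h2

theorem t9_wc_zero (δ : Module.Dual ℚ (Yo L)) : wc L δ 0 = 0 := by
  have h := wc_linear (L := L) δ 0 0 1
  rw [smul_zero, add_zero, one_smul] at h
  have h2 : wc L δ 0 + 0 = wc L δ 0 + wc L δ 0 := by rw [add_zero]; exact h
  exact (add_left_cancel h2).symm

theorem t9_wc_add (δ : Module.Dual ℚ (Yo L)) (X Y : Module.End K (κ → K)) :
    wc L δ (X + Y) = wc L δ X + wc L δ Y := by
  have h := wc_linear (L := L) δ X Y 1
  rwa [one_smul, one_smul] at h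

theorem t9_wc_sum {ι : Type*} (s : Finset ι) (δ : Module.Dual ℚ (Yo L))
    (X : ι → Module.End K (κ → K)) : wc L δ (∑ i ∈ s, X i) = ∑ i ∈ s, wc L δ (X i) := by
  classical
  induction s using Finset.induction_on with
  | empty => rw [Finset.sum_empty, Finset.sum_empty, t9_wc_zero]
  | insert a s ha ih => rw [Finset.sum_insert ha, Finset.sum_insert ha, t9_wc_add, ih]

/-- the partner may be replaced by its component of weight `-δ` -/
theorem t9_partner {δ : Module.Dual ℚ (Yo L)} {X X' : Module.End K (κ → K)} (hX : IsWt L δ X)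
    (hXX : X * X' * X = X) : X * wc L (-δ) X' * X = X := by
  classical
  obtain ⟨s, hs1, hs2⟩ := wc_sum (L := L) X'
  have h1 : X = ∑ δ' ∈ s, wc L δ (X * wc L δ' X' * X) := by
    rw [← t9_wc_sum]
    have h2 : ∑ δ' ∈ s, X * wc L δ' X' * X = X := by
      rw [← Finset.sum_mul, ← Finset.mul_sum, hs2, hXX]
    rw [h2, hX.wc_self]
  have h3 : ∀ δ' ∈ s, δ' ≠ -δ → wc L δ (X * wc L δ' X' * X) = 0 := by
    intro δ' _ hne
    refine ((hX.mul (wc_wt δ' X')).mul hX).wc_other fun h4 => hne ?_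
    have h5 : δ + (δ' + δ) = δ + 0 := by rw [add_zero, ← add_assoc]; exact h4.symm
    exact eq_neg_of_add_eq_zero_left (add_left_cancel h5)
  have h6 : wc L δ (X * wc L (-δ) X' * X) = X * wc L (-δ) X' * X := by
    have h7 := ((hX.mul (wc_wt (-δ) X')).mul hX)
    rw [add_neg_cancel, zero_add] at h7
    exact h7.wc_self
  by_cases hm : -δ ∈ s
  · rw [Finset.sum_eq_single_of_mem _ hm h3, h6] at h1
    exact h1.symm
  · rw [Finset.sum_eq_zero fun δ' hδ' => h3 δ' hδ' fun h8 => hm (h8 ▸ hδ')] at h1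
    rw [h1, zero_mul, zero_mul]

variable [IsAlgClosed K] [Nonempty κ] {m : ℕ} {I : Fin m → Submodule K (Module.End K (κ → K))}

/-- PROOF. Let `δ = pt L a - pt L b`, so `δ ε = ε a - ε b` is `2` or `-2`.  `X * X` has weight `δ + δ` (`IsWt.mul`); if it had a nonzero
entry `(c, d)` then `pt L c - pt L d = δ + δ` (`IsWt.entry`), so `ε c - ε d` is `4` or `-4`, which is impossible.  So `X * X = 0`.
`CmpN.partner` (H76V.VA2) gives `X' ∈ I j` with `X * X' * X = X`.  Let `X'' = wc L (-δ) X' ∈ I j` (`wc_mem`, `hF.ideal j`).  `X * X'' * X = X`: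
`X'` is the sum of the `wc L δ' X'` (`wc_sum`), `X * wc L δ' X' * X` has weight `δ + δ' + δ`; apply the linear map `wc L δ` to
`X = X * X' * X` (`wc_linear`, `IsWt.wc_self`, `IsWt.wc_other`): only the term `δ' = -δ` remains.  `X'' * X'' = 0` for the same reason as
for `X`.  Let `Y = X'' * X * X''`.  `Y ∈ I j` since `[X'', [X, X'']] = 2 X'' X X''`.  Weight `-δ + δ - δ`.  `Y * Y = 0`,
`X * Y * X = X X'' X X'' X = X`, `Y * X * Y = X'' X X'' X X'' X X'' = Y`. -/
theorem sl2_pair (h : CmpN L) (hF : Fam L I) {j : Fin m} {X : Module.End K (κ → K)}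
    (hX : X ∈ I j) {ε : κ → ℚ} (hε : ε ∈ Hs L) {a b : κ} (hab : ε a ≠ ε b)
    (hw : IsWt L (pt L a - pt L b) X) :
    ∃ Y ∈ I j, IsWt L (-(pt L a - pt L b)) Y ∧ X * X = 0 ∧ Y * Y = 0 ∧ X * Y * X = X ∧
      Y * X * Y = Y := by
  have hδ : (pt L a - pt L b) ⟨ε, Submodule.subset_span hε⟩ = 2 ∨
      (pt L a - pt L b) ⟨ε, Submodule.subset_span hε⟩ = -2 := by
    rw [LinearMap.sub_apply, pt_apply, pt_apply]
    change ε a - ε b = 2 ∨ ε a - ε b = -2
    rcases hε.1 a with h3 | h3 <;> rcases hε.1 b with h4 | h4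
    · exact absurd (h3.trans h4.symm) hab
    · left; rw [h3, h4]; norm_num
    · right; rw [h3, h4]; norm_num
    · exact absurd (h3.trans h4.symm) hab
  set δ : Module.Dual ℚ (Yo L) := pt L a - pt L b with hδdef
  have hδ' : (-δ) ⟨ε, Submodule.subset_span hε⟩ = 2 ∨
      (-δ) ⟨ε, Submodule.subset_span hε⟩ = -2 := by
    rw [LinearMap.neg_apply]
    rcases hδ with h3 | h3
    · right; rw [h3]
    · left; rw [h3]; norm_num
  have hXX : X * X = 0 := t9_sq hw hε hδ
  obtain ⟨X', hX', hXX'⟩ := h.partner hF hX hXX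
  have hZm : wc L (-δ) X' ∈ I j := wc_mem (hF.ideal j) hX' (-δ)
  have hZw : IsWt L (-δ) (wc L (-δ) X') := wc_wt _ _
  have hZZ : wc L (-δ) X' * wc L (-δ) X' = 0 := t9_sq hZw hε hδ'
  have hXZX : X * wc L (-δ) X' * X = X := t9_partner hw hXX'
  set Z := wc L (-δ) X' with hZdef
  refine ⟨Z * X * Z, ?_, ?_, hXX, ?_, ?_, ?_⟩
  · have h1 : X * Z - Z * X ∈ I j := (hF.ideal j).2 X ((hF.ideal j).1 hX) Z hZm
    have h2 : Z * (X * Z - Z * X) - (X * Z - Z * X) * Z ∈ I j :=
      (hF.ideal j).2 Z ((hF.ideal j).1 hZm) _ h1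
    have h3 : Z * (X * Z - Z * X) - (X * Z - Z * X) * Z = (2 : K) • (Z * X * Z) := by
      rw [mul_sub, sub_mul, ← mul_assoc, ← mul_assoc, hZZ, zero_mul, sub_zero, mul_assoc X Z Z, hZZ,
        mul_zero, zero_sub, sub_neg_eq_add, two_smul]
    rw [h3] at h2
    have h4 := (I j).smul_mem (2 : K)⁻¹ h2
    rwa [smul_smul, inv_mul_cancel₀ (two_ne_zero), one_smul] at h4
  · have h1 := (hZw.mul hw).mul hZw
    rwa [neg_add_cancel, zero_add] at h1
  · have h1 : Z * X * Z * (Z * X * Z) = Z * X * (Z * Z) * (X * Z) := by simp only [mul_assoc]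
    rw [h1, hZZ, mul_zero, zero_mul]
  · have h1 : X * (Z * X * Z) * X = (X * Z * X) * Z * X := by simp only [mul_assoc]
    rw [h1, hXZX, hXZX]
  · have h1 : Z * X * Z * X * (Z * X * Z) = Z * (((X * Z * X) * Z * X) * Z) := by
      simp only [mul_assoc]
    rw [h1, hXZX, hXZX, mul_assoc]

end Pool.Agent.H76Y
end

-- from Lib.H76Y.T7
section

/-!
# T7: a minimal ideal is generated by its elements of degree two
-/

set_option autoImplicit false
set_option linter.unusedSectionVars false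
namespace Pool.Agent.H76Y
open Pool.Agent.H76P Pool.Agent.H76V Pool.Agent.H76Q
open Module Matrix Pool.Agent.H53Toric
open Pool.Agent.H76T (IsIdeal Fam)
open Pool.Agent.H76V (Cmp alg calg)

section Abs

variable {K : Type*} [Field K] {R : Type*} [Ring R] [Algebra K R]

/-- the elements `X` of `I` with `y X = a X`, `X y = b X` -/
def t7E (I : Submodule K R) (y : R) (a b : K) : Submodule K R where
  carrier := {X | X ∈ I ∧ y * X = a • X ∧ X * y = b • X}
  add_mem' := by
    rintro X X' ⟨h1, h2, h3⟩ ⟨h1', h2', h3'⟩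
    exact ⟨I.add_mem h1 h1', by rw [mul_add, h2, h2', smul_add], by rw [add_mul, h3, h3', smul_add]⟩
  zero_mem' := ⟨I.zero_mem, by rw [mul_zero, smul_zero], by rw [zero_mul, smul_zero]⟩
  smul_mem' := by
    rintro c X ⟨h1, h2, h3⟩
    exact ⟨I.smul_mem _ h1, by rw [mul_smul_comm, h2, smul_comm], by
      rw [smul_mul_assoc, h3, smul_comm]⟩

/-- the elements `X` of `I` which commute with `y` -/
def t7Z (I : Submodule K R) (y : R) : Submodule K R where
  carrier := {X | X ∈ I ∧ y * X = X * y}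
  add_mem' := by
    rintro X X' ⟨h1, h2⟩ ⟨h1', h2'⟩
    exact ⟨I.add_mem h1 h1', by rw [mul_add, h2, h2', add_mul]⟩
  zero_mem' := ⟨I.zero_mem, by rw [mul_zero, zero_mul]⟩
  smul_mem' := by
    rintro c X ⟨h1, h2⟩
    exact ⟨I.smul_mem _ h1, by rw [mul_smul_comm, h2, smul_mul_assoc]⟩

/-- the span of the brackets -/
def t7B (I : Submodule K R) (y : R) : Submodule K R :=
  Submodule.span K {b | ∃ X ∈ t7E I y (1 : K) (-1), ∃ X' ∈ t7E I y (-1 : K) 1, b = X * X' - X' * X}

/-- the submodule generated by the elements of degree two -/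
def t7M (I : Submodule K R) (y : R) : Submodule K R :=
  t7E I y (1 : K) (-1) ⊔ (t7B I y ⊔ t7E I y (-1 : K) 1)

variable {I L : Submodule K R} {y : R}

theorem t7_BZ (hid : ∀ X ∈ I, ∀ Y ∈ I, X * Y - Y * X ∈ I) : t7B I y ≤ t7Z I y := by
  unfold t7B
  rw [Submodule.span_le]
  rintro b ⟨X, ⟨h1, h2, h3⟩, X', ⟨h1', h2', h3'⟩, rfl⟩
  refine ⟨hid _ h1 _ h1', ?_⟩
  rw [mul_sub, sub_mul, ← mul_assoc, ← mul_assoc, h2, h2', mul_assoc, mul_assoc, h3, h3']
  simp

theorem t7_ZE (hid : ∀ X ∈ I, ∀ Y ∈ I, X * Y - Y * X ∈ I) {a b : K} {W X : R}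
    (hW : W ∈ t7Z I y) (hX : X ∈ t7E I y a b) : W * X - X * W ∈ t7E I y a b := by
  obtain ⟨h1, h2⟩ := hW
  obtain ⟨h3, h4, h5⟩ := hX
  refine ⟨hid _ h1 _ h3, ?_, ?_⟩
  · rw [mul_sub, ← mul_assoc, ← mul_assoc, h2, h4, mul_assoc, h4, smul_sub, mul_smul_comm,
      smul_mul_assoc]
  · rw [sub_mul, mul_assoc, mul_assoc, h5, ← h2, ← mul_assoc, h5, smul_sub, mul_smul_comm,
      smul_mul_assoc]

theorem t7_ZB (hid : ∀ X ∈ I, ∀ Y ∈ I, X * Y - Y * X ∈ I) {W X : R}
    (hW : W ∈ t7Z I y) (hX : X ∈ t7B I y) : W * X - X * W ∈ t7B I y := by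
  unfold t7B at hX
  induction hX using Submodule.span_induction with
  | mem b hb =>
    obtain ⟨X, hX, X', hX', rfl⟩ := hb
    have e : W * (X * X' - X' * X) - (X * X' - X' * X) * W =
        ((W * X - X * W) * X' - X' * (W * X - X * W)) +
          (X * (W * X' - X' * W) - (W * X' - X' * W) * X) := by noncomm_ring
    rw [e]
    refine Submodule.add_mem _ (Submodule.subset_span ?_) (Submodule.subset_span ?_)
    · exact ⟨_, t7_ZE hid hW hX, _, hX', rfl⟩
    · exact ⟨_, hX, _, t7_ZE hid hW hX', rfl⟩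
  | zero => rw [mul_zero, zero_mul, sub_zero]; exact Submodule.zero_mem _
  | add a b _ _ ha hb =>
    have e : W * (a + b) - (a + b) * W = (W * a - a * W) + (W * b - b * W) := by noncomm_ring
    rw [e]
    exact Submodule.add_mem _ ha hb
  | smul c a _ ha =>
    have e : W * (c • a) - (c • a) * W = c • (W * a - a * W) := by
      rw [mul_smul_comm, smul_mul_assoc, smul_sub]
    rw [e]
    exact Submodule.smul_mem _ _ ha

variable [CharZero K]

theorem t7_EE {a : K} (ha : a ≠ 0) {W X : R} (hW : W ∈ t7E I y a (-a)) (hX : X ∈ t7E I y a (-a)) :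
    W * X = 0 := by
  obtain ⟨-, -, h2⟩ := hW
  obtain ⟨-, h3, -⟩ := hX
  have h4 : W * y * X = W * (y * X) := mul_assoc _ _ _
  rw [h2, h3, mul_smul_comm, smul_mul_assoc, neg_smul] at h4
  have h5 : (2 * a) • (W * X) = 0 := by
    rw [two_mul, add_smul]
    nth_rw 1 [← h4]
    rw [neg_add_cancel]
  exact (smul_eq_zero.1 h5).resolve_left (by simpa using ha)

/-- the submodule is stable under the three parts -/
theorem t7_stab (hid : ∀ X ∈ I, ∀ Y ∈ I, X * Y - Y * X ∈ I) {W : R}
    (hW : W ∈ t7E I y (1 : K) (-1) ∨ W ∈ t7E I y (-1 : K) 1 ∨ W ∈ t7Z I y) :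
    ∀ X ∈ t7M I y, W * X - X * W ∈ t7M I y := by
  have hP : t7E I y (1 : K) (-1) ≤ t7M I y := le_sup_left
  have hB : t7B I y ≤ t7M I y := le_sup_left.trans le_sup_right
  have hN : t7E I y (-1 : K) 1 ≤ t7M I y := le_sup_right.trans le_sup_right
  -- the three kinds of elements
  have key : ∀ X, (X ∈ t7E I y (1 : K) (-1) ∨ X ∈ t7B I y ∨ X ∈ t7E I y (-1 : K) 1) →
      W * X - X * W ∈ t7M I y := by
    intro X hX
    rcases hW with hW | hW | hW
    · rcases hX with hX | hX | hX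
      · rw [t7_EE one_ne_zero hW hX, t7_EE one_ne_zero hX hW, sub_zero]
        exact Submodule.zero_mem _
      · rw [← neg_sub]
        exact Submodule.neg_mem _ (hP (t7_ZE hid (t7_BZ hid hX) hW))
      · exact hB (Submodule.subset_span ⟨W, hW, X, hX, rfl⟩)
    · rcases hX with hX | hX | hX
      · rw [← neg_sub]
        exact Submodule.neg_mem _ (hB (Submodule.subset_span ⟨X, hX, W, hW, rfl⟩))
      · rw [← neg_sub]
        exact Submodule.neg_mem _ (hN (t7_ZE hid (t7_BZ hid hX) hW))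
      · have h0 : (-1 : K) ≠ 0 := neg_ne_zero.2 one_ne_zero
        have hW' : W ∈ t7E I y (-1 : K) (-(-1)) := by rw [neg_neg]; exact hW
        have hX' : X ∈ t7E I y (-1 : K) (-(-1)) := by rw [neg_neg]; exact hX
        rw [t7_EE h0 hW' hX', t7_EE h0 hX' hW', sub_zero]
        exact Submodule.zero_mem _
    · rcases hX with hX | hX | hX
      · exact hP (t7_ZE hid hW hX)
      · exact hB (t7_ZB hid hW hX)
      · exact hN (t7_ZE hid hW hX)
  have hlin : ∀ A B : R, W * A - A * W ∈ t7M I y → W * B - B * W ∈ t7M I y →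
      W * (A + B) - (A + B) * W ∈ t7M I y := by
    intro A B hA hB
    have e : W * (A + B) - (A + B) * W = (W * A - A * W) + (W * B - B * W) := by noncomm_ring
    rw [e]
    exact Submodule.add_mem _ hA hB
  intro X hX
  obtain ⟨A, hA, X', hX', rfl⟩ := Submodule.mem_sup.1 hX
  obtain ⟨B, hB', C, hC, rfl⟩ := Submodule.mem_sup.1 hX'
  exact hlin _ _ (key A (Or.inl hA)) (hlin _ _ (key B (Or.inr (Or.inl hB')))
    (key C (Or.inr (Or.inr hC))))

theorem t7_le (hid : ∀ X ∈ I, ∀ Y ∈ I, X * Y - Y * X ∈ I) : t7M I y ≤ I := by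
  refine sup_le (fun X hX => hX.1) (sup_le (fun X hX => (t7_BZ hid hX).1) (fun X hX => hX.1))

/-- the decomposition -/
theorem t7_dec (hid : ∀ X ∈ I, ∀ Y ∈ I, X * Y - Y * X ∈ I) (hy : y ∈ I) (hyy : y * y = 1) {W : R}
    (hW : W ∈ I) : ∃ A ∈ t7E I y (1 : K) (-1), ∃ B ∈ t7E I y (-1 : K) 1, ∃ C ∈ t7Z I y,
      W = A + B + C ∧ y * W - W * y = (2 : K) • A - (2 : K) • B := by
  have h1 : y * W - W * y ∈ I := hid _ hy _ hW
  have h2 : W - y * W * y ∈ I := by
    have h3 : y * (y * W - W * y) - (y * W - W * y) * y ∈ I := hid _ hy _ h1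
    have e : y * (y * W - W * y) - (y * W - W * y) * y = (2 : K) • (W - y * W * y) := by
      rw [mul_sub, sub_mul, ← mul_assoc, hyy, one_mul, mul_assoc W y y, hyy, mul_one, two_smul,
        ← mul_assoc]
      abel
    rw [e] at h3
    have h4 := I.smul_mem (2 : K)⁻¹ h3
    rwa [smul_smul, inv_mul_cancel₀ (two_ne_zero), one_smul] at h4
  have y1 : y * (y * W * y) = W * y := by rw [← mul_assoc, ← mul_assoc, hyy, one_mul]
  have y2 : y * W * y * y = y * W := by rw [mul_assoc, hyy, mul_one]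
  have y3 : y * (y * W) = W := by rw [← mul_assoc, hyy, one_mul]
  have y4 : W * y * y = W := by rw [mul_assoc, hyy, mul_one]
  have y5 : y * (W * y) = y * W * y := by rw [mul_assoc]
  refine ⟨(4 : K)⁻¹ • ((W - y * W * y) + (y * W - W * y)), ⟨I.smul_mem _ (I.add_mem h2 h1), ?_, ?_⟩,
    (4 : K)⁻¹ • ((W - y * W * y) - (y * W - W * y)), ⟨I.smul_mem _ (I.sub_mem h2 h1), ?_, ?_⟩,
    W - (2 : K)⁻¹ • (W - y * W * y), ⟨I.sub_mem hW (I.smul_mem _ h2), ?_⟩, ?_, ?_⟩
  · rw [mul_smul_comm, one_smul, mul_add, mul_sub, mul_sub, y1, y3, y5]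
    congr 1
    abel
  · rw [smul_mul_assoc, add_mul, sub_mul, sub_mul, y2, y4, smul_comm, neg_smul, one_smul]
    congr 1
    abel
  · rw [mul_smul_comm, mul_sub, mul_sub, mul_sub, y1, y3, y5, smul_comm, neg_smul, one_smul]
    congr 1
    abel
  · rw [smul_mul_assoc, sub_mul, sub_mul, sub_mul, y2, y4, one_smul]
    congr 1
    abel
  · rw [mul_sub, sub_mul, mul_smul_comm, smul_mul_assoc, mul_sub, sub_mul, y1, y2]
    module
  · module
  · module

/-- the abstract form -/
theorem t7_abs (hIL : I ≤ L) (hid : ∀ X ∈ L, ∀ Y ∈ I, X * Y - Y * X ∈ I) (hy : y ∈ I)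
    (hyy : y * y = 1)
    (hL : ∀ S : Submodule K R, I ≤ S → (∀ W, (∀ X ∈ I, W * X = X * W) → W ∈ S) → L ≤ S)
    (hmin : ∀ J : Submodule K R, J ≤ L → (∀ X ∈ L, ∀ Y ∈ J, X * Y - Y * X ∈ J) → J ≤ I →
      J = ⊥ ∨ J = I)
    (hnc : ∃ W ∈ I, y * W ≠ W * y) {Z : R}
    (hZ : ∀ X ∈ I, (y * X - X * y = (2 : K) • X ∨ y * X - X * y = (-2 : K) • X) →
      Z * X = X * Z) :
    ∀ X ∈ I, Z * X = X * Z := by
  have hid' : ∀ X ∈ I, ∀ Y ∈ I, X * Y - Y * X ∈ I := fun X hX => hid X (hIL hX)
  have hle : t7M I y ≤ I := t7_le hid'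
  let S : Submodule K R :=
    { carrier := {W | ∀ X ∈ t7M I y, W * X - X * W ∈ t7M I y}
      add_mem' := by
        intro A B hA hB X hX
        have e : (A + B) * X - X * (A + B) = (A * X - X * A) + (B * X - X * B) := by noncomm_ring
        rw [e]
        exact Submodule.add_mem _ (hA X hX) (hB X hX)
      zero_mem' := by
        intro X hX
        rw [zero_mul, mul_zero, sub_zero]
        exact Submodule.zero_mem _
      smul_mem' := by
        intro c A hA X hX
        rw [smul_mul_assoc, mul_smul_comm, ← smul_sub]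
        exact Submodule.smul_mem _ _ (hA X hX) }
  have hS : L ≤ S := by
    apply hL
    · intro W hW
      obtain ⟨A, hA, B, hB, C, hC, rfl, -⟩ := t7_dec hid' hy hyy hW
      exact S.add_mem (S.add_mem (t7_stab hid' (Or.inl hA)) (t7_stab hid' (Or.inr (Or.inl hB))))
        (t7_stab hid' (Or.inr (Or.inr hC)))
    · intro W hW X hX
      rw [hW X (hle hX), sub_self]
      exact Submodule.zero_mem _
  rcases hmin (t7M I y) (hle.trans hIL) (fun X hX Y hY => hS hX Y hY) hle with h0 | h0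
  · exfalso
    obtain ⟨W, hW, hW2⟩ := hnc
    obtain ⟨A, hA, B, hB, C, -, -, h1⟩ := t7_dec hid' hy hyy hW
    have hA0 : A ∈ t7M I y := Submodule.mem_sup_left hA
    have hB0 : B ∈ t7M I y := Submodule.mem_sup_right (Submodule.mem_sup_right hB)
    rw [h0, Submodule.mem_bot] at hA0 hB0
    rw [hA0, hB0, smul_zero, sub_zero] at h1
    exact hW2 (sub_eq_zero.1 h1)
  · have hP : ∀ X ∈ t7E I y (1 : K) (-1), Z * X = X * Z := by
      rintro X ⟨h1, h2, h3⟩
      refine hZ X h1 (Or.inl ?_)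
      rw [h2, h3]
      module
    have hN : ∀ X ∈ t7E I y (-1 : K) 1, Z * X = X * Z := by
      rintro X ⟨h1, h2, h3⟩
      refine hZ X h1 (Or.inr ?_)
      rw [h2, h3]
      module
    have hB : ∀ X ∈ t7B I y, Z * X = X * Z := by
      intro X hX
      unfold t7B at hX
      induction hX using Submodule.span_induction with
      | mem b hb =>
        obtain ⟨X, hX, X', hX', rfl⟩ := hb
        have e1 := hP X hX
        have e2 := hN X' hX'
        rw [mul_sub, sub_mul, ← mul_assoc, ← mul_assoc, e1, e2, mul_assoc, mul_assoc, e1, e2,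
          mul_assoc, mul_assoc]
      | zero => rw [mul_zero, zero_mul]
      | add a b _ _ ha hb => rw [mul_add, add_mul, ha, hb]
      | smul c a _ ha => rw [mul_smul_comm, smul_mul_assoc, ha]
    intro X hX
    rw [← h0] at hX
    obtain ⟨A, hA, X', hX', rfl⟩ := Submodule.mem_sup.1 hX
    obtain ⟨B, hB', C, hC, rfl⟩ := Submodule.mem_sup.1 hX'
    rw [mul_add, add_mul, mul_add, add_mul, hP A hA, hB B hB', hN C hC]

end Abs

variable {κ : Type*} {K : Type*} [Field K] [CharZero K] [Fintype κ] [DecidableEq κ]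
  {L : Submodule K (Module.End K (κ → K))} {J : Matrix κ κ K}
variable [IsAlgClosed K] [Nonempty κ] {m : ℕ} {I : Fin m → Submodule K (Module.End K (κ → K))}

/-- PROOF. Write `ad X = y * X - X * y`.  As `y * y = 1`, `ad (ad X) = 2 X - 2 y X y` and `ad (ad (ad X)) = 4 ad X`.
For `X ∈ I j` put `X₊ = (1 / 8) (ad (ad X) + 2 ad X)`, `X₋ = (1 / 8) (ad (ad X) - 2 ad X)`, `X₀ = X - X₊ - X₋`; all in `I j` (`y ∈ I j ≤ L`),
`ad X₊ = 2 X₊`, `ad X₋ = -2 X₋`, `ad X₀ = 0`.  Let `P = {X ∈ I j | ad X = 2 X}`, `N = {X ∈ I j | ad X = -2 X}`, and let `B` be the span of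
the `X * X' - X' * X`, `X ∈ P`, `X' ∈ N`; `M = P + B + N`.  `M` is an ideal of `L`: elements of `I i`, `i ≠ j`, commute with `I j`
(`hF.comm`, `hF.sup`: induction over the supremum), and for `X ∈ I j` treat `X₀`, `X₊`, `X₋` separately.  `[X₀, P] ⊆ P`,
`[X₀, N] ⊆ N` and `[X₀, B] ⊆ B` by the Jacobi identity.  `[P, P] = 0`: `ad X = 2 X` means `X = p X (1 - p)` with the idempotent
`p = (1 + y) / 2`, so `X X' = 0` for `X`, `X' ∈ P`; in the same way `[N, N] = 0`.  `[P, N] ⊆ B`.  `[P, B] ⊆ P`: `ad` of an element of `B` is `0`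
(Jacobi), so `ad [X, Z] = 2 [X, Z]` for `X ∈ P`, `Z ∈ B`, and `[X, Z] ∈ I j`.  The same for `N`.
`M ≠ ⊥`: otherwise `X₊ = X₋ = 0` for all `X ∈ I j`, `y` commutes with `I j`, hence with `L`, so `y` is a scalar (`h.gen`) of trace zero
(`h.tr`), so `y = 0`, contradiction to `y * y = 1`.  So `M = I j` (`hF.min`).  `Z` commutes with `P`, `N`, hence with `B` and with `M`. -/
theorem gen_of_grading (h : CmpN L) (hF : Fam L I) {j : Fin m} {y : Module.End K (κ → K)}
    (hy : y ∈ I j) (hyy : y * y = 1) {Z : Module.End K (κ → K)}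
    (hZ : ∀ X ∈ I j, (y * X - X * y = (2 : K) • X ∨ y * X - X * y = (-2 : K) • X) →
      Z * X = X * Z) :
    ∀ X ∈ I j, Z * X = X * Z := by
  refine t7_abs (hF.ideal j).1 (hF.ideal j).2 hy hyy ?_ ?_ ?_ hZ
  · intro S hS1 hS2
    rw [← hF.sup]
    refine iSup_le fun i => ?_
    by_cases hij : i = j
    · rw [hij]
      exact hS1
    · intro W hW
      exact hS2 W fun X hX => hF.comm i j hij W hW X hX
  · intro J' h1 h2 h3
    exact hF.min j J' ⟨h1, h2⟩ h3
  · by_contra hcon
    push Not at hcon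
    have h1 : y = 0 := t4_zero h hF ((hF.ideal j).1 hy) fun i Y hY => by
      by_cases hij : i = j
      · subst hij
        exact hcon Y hY
      · exact hF.comm j i (Ne.symm hij) y hy Y hY
    rw [h1, mul_zero] at hyy
    exact zero_ne_one hyy

end Pool.Agent.H76Y
end

-- from Lib.H76Y.T8
section

/-!
# T8: a mixed root
-/

set_option autoImplicit false
set_option linter.unusedSectionVars false
namespace Pool.Agent.H76Y
open Pool.Agent.H76P Pool.Agent.H76V Pool.Agent.H76Q
open Module Matrix Pool.Agent.H53Toric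
open Pool.Agent.H76T (IsIdeal Fam)
open Pool.Agent.H76V (Cmp alg calg)

variable {κ : Type*} {K : Type*} [Field K] [CharZero K] [Fintype κ] [DecidableEq κ]
  {L : Submodule K (Module.End K (κ → K))} {J : Matrix κ κ K}
variable [IsAlgClosed K] [Nonempty κ] {m : ℕ} {I : Fin m → Submodule K (Module.End K (κ → K))}

/-- PROOF. Suppose there is no such `X`.  Let `Z = dq f`, `y = dq ε`.  Claim: `Z` commutes with every `X ∈ I j` with `[y, X] = 2 X` or `= -2 X`:
`X` is the sum of its weight components `wc L δ X` (`wc_sum`), which are in `I j` (`wc_mem`, `hF.ideal j`); if `wc L δ X ≠ 0`, the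
matrix of `X` has an entry `(a, b)`, not zero, with `pt L a - pt L b = δ`, and `[y, X] = ±2 X` gives `ε a - ε b = ±2`, so `ε a ≠ ε b`.  By
assumption `f a = f b`, so `[Z, wc L δ X] = (f a - f b) wc L δ X = 0` (`wc_wt`).  So `Z` commutes with `X`.  By
`gen_of_grading` `Z` commutes with `I j`; `Z ∈ I j` commutes with `I i`, `i ≠ j`, so `Z` commutes with `L` (`hF.sup`), so it is a scalar
(`h.gen`) and `f` is constant; the sum of its values is `0` (`Yo_sum`), so `f = 0`. -/
theorem mixed_root (h : CmpN L) (hF : Fam L I) {j : Fin m} {ε : κ → ℚ} (hε : ε ∈ Hs L)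
    (hεj : dq ε ∈ I j) {f : κ → ℚ} (hf : f ∈ Yo L) (hfj : dq f ∈ I j) (hf0 : f ≠ 0) :
    ∃ X ∈ I j, ∃ a b : κ, X ≠ 0 ∧ ε a ≠ ε b ∧ f a ≠ f b ∧ IsWt L (pt L a - pt L b) X := by
  classical
  by_contra hcon
  push Not at hcon
  have hεY : ε ∈ Yo L := Submodule.subset_span hε
  have claim : ∀ X ∈ I j, (dq ε * X - X * dq ε = (2 : K) • X ∨
      dq ε * X - X * dq ε = (-2 : K) • X) → dq f * X = X * dq f := by
    intro X hX hyX
    obtain ⟨s, -, hs⟩ := wc_sum (L := L) X
    have h1 : ∀ δ ∈ s, dq f * wc L δ X = wc L δ X * dq f := by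
      intro δ _
      by_cases h0 : wc L δ X = 0
      · rw [h0, mul_zero, zero_mul]
      · have h2 : ∃ a b, LinearMap.toMatrix' (wc L δ X) a b ≠ 0 := by
          by_contra h3
          push Not at h3
          apply h0
          refine t5_ext fun a b => ?_
          rw [h3 a b, map_zero, Matrix.zero_apply]
        obtain ⟨a, b, hab⟩ := h2
        rw [t5_wc] at hab
        by_cases h3 : pt L a - pt L b = δ
        swap
        · rw [if_neg h3] at hab
          exact absurd rfl hab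
        rw [if_pos h3] at hab
        have h4 : ε a ≠ ε b := by
          intro h5
          have h6 := t5_comm (L := L) ⟨ε, hεY⟩ X a b
          rw [LinearMap.sub_apply, pt_apply, pt_apply] at h6
          change LinearMap.toMatrix' (dq ε * X - X * dq ε) a b =
            ((ε a - ε b : ℚ) : K) * LinearMap.toMatrix' X a b at h6
          rw [h5, sub_self, Rat.cast_zero, zero_mul] at h6
          rcases hyX with h7 | h7 <;> rw [h7, map_smul, Matrix.smul_apply, smul_eq_mul] at h6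
          · exact hab ((mul_eq_zero.1 h6).resolve_left two_ne_zero)
          · exact hab ((mul_eq_zero.1 h6).resolve_left (neg_ne_zero.2 two_ne_zero))
        have h5 : IsWt L (pt L a - pt L b) (wc L δ X) := by
          rw [h3]
          exact wc_wt δ X
        have h6 : f a = f b := by
          by_contra h7
          exact hcon _ (wc_mem (hF.ideal j) hX δ) a b h0 h4 h7 h5
        have h7 := h5 ⟨f, hf⟩
        rw [LinearMap.sub_apply, pt_apply, pt_apply] at h7
        change dq f * wc L δ X - wc L δ X * dq f = ((f a - f b : ℚ) : K) • wc L δ X at h7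
        rw [h6, sub_self, Rat.cast_zero, zero_smul, sub_eq_zero] at h7
        exact h7
    rw [← hs, Finset.mul_sum, Finset.sum_mul]
    exact Finset.sum_congr rfl h1
  have h2 := gen_of_grading h hF hεj (dq_sq hε.1) claim
  have h3 : (dq f : Module.End K (κ → K)) = 0 := t4_zero h hF ((hF.ideal j).1 hfj) fun i Y hY => by
    by_cases hij : i = j
    · subst hij
      exact h2 Y hY
    · exact hF.comm j i (Ne.symm hij) _ hfj Y hY
  apply hf0
  apply dq_inj (K := K)
  rw [h3]
  refine LinearMap.ext fun v => funext fun a => ?_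
  simp [dq, dg_apply]

end Pool.Agent.H76Y
end
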