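import Pool.Agent.Lib.H1M.RC.M001
import Pool.Agent.Lib.H1M.RC.M003
import Pool.Agent.Lib.H1M.RC.M044

/-! Merged copies (to shorten the build) of Lib.H34Z.A08, Lib.H34V.V01, Lib.H34Z.A07, Lib.H34Z.A12, Lib.H34Z.A13, Lib.H34V.V02, Lib.H34V.V03, Lib.H34V.V04, Lib.H34Z.A14. -/

-- from Lib.H34Z.A08
section

/-!
# A08: weights of the Lie algebra of all operators of trace zero on which an involution has the value 1
-/

set_option autoImplicit false
set_option linter.unusedSectionVars false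
namespace Pool.Agent.H34Z
open Module Matrix Pool.Agent.H53Toric Pool.Agent.H76P

variable {κ : Type*} [Fintype κ] [DecidableEq κ] {K : Type*} [Field K] [CharZero K]
  {L : Submodule K (Module.End K (κ → K))} {ε : κ → K} {W : Submodule K ((κ → K) × K)}

/-- PROOF. `dg g` is the operator of `Matrix.diagonal g` (`dg g = phi (Matrix.diagonal g)`); `LinearMap.trace` of `phi M = Matrix.toLin' M` is
`M.trace` (`Matrix.trace_toLin'_eq` or `LinearMap.trace_eq_matrix_trace` with the standard basis), `Matrix.trace_diagonal`. -/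
theorem trace_dg (g : κ → K) : LinearMap.trace K (κ → K) (dg g) = ∑ i, g i := by
  have h1 : dg g = Matrix.toLin' (Matrix.diagonal g) := by
    refine LinearMap.ext fun v => funext fun a => ?_
    rw [dg_apply, Matrix.toLin'_apply, Matrix.mulVec_diagonal]
  rw [h1, Matrix.trace_toLin'_eq, Matrix.trace_diagonal]

/-- A function of sum zero is a combination of the functions `1_i - 1_j`, `i ∈ T`, `j ∉ T`: with fixed `i₁ ∈ T`, `j₁ ∉ T`,
`g = ∑ i ∈ T, g i • (1_i - 1_(j₁)) - ∑ j ∉ T, g j • (1_(i₁) - 1_j) + (∑ j ∉ T, g j) • (1_(i₁) - 1_(j₁))`.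
PROOF. Evaluate at `k` (cases `k = i₁`, `k = j₁`, `k ∈ T`, `k ∉ T`); at `j₁` one uses `∑ g = 0`, `Finset.sum_add_sum_compl`. -/
theorem dec_n {T : Finset κ} {i₁ j₁ : κ} (hi : i₁ ∈ T) (hj : j₁ ∉ T) {g : κ → K} (hg : ∑ i, g i = 0) :
    g = ∑ i ∈ T, g i • (Pi.single i 1 - Pi.single j₁ 1) - ∑ j ∈ Tᶜ, g j • (Pi.single i₁ 1 - Pi.single j 1) +
      (∑ j ∈ Tᶜ, g j) • (Pi.single i₁ 1 - Pi.single j₁ 1) := by
  funext k
  have e1 : ∀ S : Finset κ, ∑ i ∈ S, g i * (Pi.single i 1 : κ → K) k = if k ∈ S then g k else 0 := by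
    intro S
    rw [← Finset.sum_ite_eq S k g]
    refine Finset.sum_congr rfl fun i _ => ?_
    rw [Pi.single_apply]
    by_cases h : k = i
    · rw [if_pos h, if_pos h, mul_one]
    · rw [if_neg h, if_neg h, mul_zero]
  have e2 : ∑ i ∈ T, g i + ∑ j ∈ Tᶜ, g j = 0 := by
    rw [Finset.sum_add_sum_compl]
    exact hg
  have e3 : (∑ i ∈ T, g i • (Pi.single i 1 - Pi.single j₁ 1 : κ → K)) k =
      (if k ∈ T then g k else 0) - (∑ i ∈ T, g i) * (Pi.single j₁ 1 : κ → K) k := by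
    rw [Finset.sum_apply, ← e1, Finset.sum_mul, ← Finset.sum_sub_distrib]
    refine Finset.sum_congr rfl fun i _ => ?_
    rw [Pi.smul_apply, Pi.sub_apply, smul_eq_mul, mul_sub]
  have e4 : (∑ j ∈ Tᶜ, g j • (Pi.single i₁ 1 - Pi.single j 1 : κ → K)) k =
      (∑ j ∈ Tᶜ, g j) * (Pi.single i₁ 1 : κ → K) k - (if k ∈ Tᶜ then g k else 0) := by
    rw [Finset.sum_apply, ← e1, Finset.sum_mul, ← Finset.sum_sub_distrib]
    refine Finset.sum_congr rfl fun i _ => ?_
    rw [Pi.smul_apply, Pi.sub_apply, smul_eq_mul, mul_sub]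
  have e5 : (if k ∈ T then g k else 0) + (if k ∈ Tᶜ then g k else 0) = g k := by
    by_cases h : k ∈ T
    · rw [if_pos h, if_neg (fun h1 => (Finset.mem_compl.1 h1) h), add_zero]
    · rw [if_neg h, if_pos (Finset.mem_compl.2 h), zero_add]
  rw [Pi.add_apply, Pi.sub_apply, e3, e4, Pi.smul_apply, Pi.sub_apply, smul_eq_mul]
  linear_combination (-1 : K) * e5 + (Pi.single j₁ 1 : κ → K) k * e2

/-- PROOF. `T = {i | ε i = 1}`, `T' = Tᶜ = {j | ε j = -1}`.  `∑ ε = 0` (`trace_dg`, `dg ε ∈ L`), so `T.card = T'.card` (`∑ ε = T.card - T'.card`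
in `K`, char zero) and there is a bijection `p` from `T` to `T'` (`Finset.equivOfCardEq`; extend by the identity to a function `κ → κ`).  Both are
nonempty (`Fintype.card κ ≥ 2`).  For `i ∈ T`, `j ∈ T'` let `h i j = 1_i - 1_j`, `(h i j, a i j) ∈ W` (`hW.tot`, trace zero; choose `a` for all `i`, `j`);
`a i j ∈ {0, 1}` (`cor_n`, `hW.cor`).  `a i j + a k l = a i l + a k j` since `h i j + h k l = h i l + h k j` (`Fun.eq`).  `ε = ∑ i ∈ T, h i (p i)`
(evaluate), so `∑ i ∈ T, a i (p i) = 1`.  `comb_n`: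
(1) `a i j = if i = i₀ then 1 else 0`: for `(g, c) ∈ W` write `g` by `dec_n` (with `i₁ = i₀`, any `j₁ ∈ T'`); `(g, g i₀ - ∑ j ∈ T', g j + ∑ j ∈ T', g j) ∈ W`,
so `c = g i₀`.
(2) `a i j = if j = j₀ then 1 else 0`: with `j₁ = j₀`, any `i₁ ∈ T`: `c = ∑ i ∈ T, g i - g j₀ + ∑ j ∈ T', g j = -g j₀` (`∑ g = 0`). -/
theorem wt_n (hL : ∀ X, X ∈ L ↔ LinearMap.trace K (κ → K) X = 0) (h2 : 2 ≤ Fintype.card κ)
    (hε : ∀ k, ε k = 1 ∨ ε k = -1) (hW : Fun L ε W) :
    ∃ i, (∀ g c, (g, c) ∈ W → c = g i) ∨ (∀ g c, (g, c) ∈ W → c = -g i) := by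
  have hg : ∀ g : κ → K, dg g ∈ L ↔ ∑ i, g i = 0 := fun g => by rw [hL, trace_dg]
  have h11 : (1 : K) ≠ -1 := fun h => two_ne_zero (α := K) (by linear_combination h)
  obtain ⟨T, hTd⟩ : ∃ T : Finset κ, ∀ i, i ∈ T ↔ ε i = 1 := by
    classical
    exact ⟨Finset.univ.filter fun i => ε i = 1, fun i => by simp⟩
  have hT' : ∀ i, i ∈ Tᶜ → ε i = -1 := fun i hi => (hε i).resolve_left fun h => (Finset.mem_compl.1 hi) ((hTd i).2 h)
  have hεs : ∑ i, ε i = 0 := (hg ε).1 (hW.dom _ _ hW.eps)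
  have hcard : T.card = Tᶜ.card := by
    rw [← Finset.sum_add_sum_compl T, Finset.sum_congr rfl (fun i hi => (hTd i).1 hi), Finset.sum_congr rfl (fun i hi => hT' i hi),
      Finset.sum_const, Finset.sum_const, nsmul_eq_mul, nsmul_eq_mul, mul_one] at hεs
    have h1 : ((T.card : ℕ) : K) = ((Tᶜ.card : ℕ) : K) := by linear_combination hεs
    exact_mod_cast h1
  have hcard2 : T.card + Tᶜ.card = Fintype.card κ := Finset.card_add_card_compl T
  obtain ⟨i₁, hi₁⟩ : T.Nonempty := Finset.card_pos.1 (by omega)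
  obtain ⟨j₁, hj₁⟩ : Tᶜ.Nonempty := Finset.card_pos.1 (by omega)
  let e : T ≃ (Tᶜ : Finset κ) := Finset.equivOfCardEq hcard
  let p : κ → κ := fun k => if h : k ∈ T then (e ⟨k, h⟩).1 else k
  have hpe : ∀ i (h : i ∈ T), p i = (e ⟨i, h⟩).1 := fun i h => dif_pos h
  have hp : ∀ i ∈ T, p i ∈ Tᶜ := fun i h => by
    rw [hpe i h]
    exact (e ⟨i, h⟩).2
  have hinj : ∀ i ∈ T, ∀ j ∈ T, p i = p j → i = j := by
    intro i hi j hj h
    rw [hpe i hi, hpe j hj] at h
    have h1 := e.injective (Subtype.ext h)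
    exact congrArg Subtype.val h1
  have hsurj : ∀ j ∈ Tᶜ, ∃ i ∈ T, p i = j := by
    intro j hj
    refine ⟨(e.symm ⟨j, hj⟩).1, (e.symm ⟨j, hj⟩).2, ?_⟩
    rw [hpe _ (e.symm ⟨j, hj⟩).2]
    have h1 : (⟨(e.symm ⟨j, hj⟩).1, (e.symm ⟨j, hj⟩).2⟩ : T) = e.symm ⟨j, hj⟩ := rfl
    rw [h1, e.apply_symm_apply]
  have hh : ∀ i j : κ, dg (Pi.single i 1 - Pi.single j 1 : κ → K) ∈ L := by
    intro i j
    rw [hg]
    have h1 : ∀ i : κ, ∑ k, (Pi.single i 1 : κ → K) k = 1 := fun i => by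
      rw [Finset.sum_pi_single', if_pos (Finset.mem_univ _)]
    rw [show (∑ k, (Pi.single i 1 - Pi.single j 1 : κ → K) k) = ∑ k, (Pi.single i 1 : κ → K) k -
      ∑ k, (Pi.single j 1 : κ → K) k from by rw [← Finset.sum_sub_distrib]; rfl, h1, h1, sub_self]
  choose a ha using fun i j => hW.tot _ (hh i j)
  have hadd : ∀ i k j l, a i j + a k l = a i l + a k j := by
    intro i k j l
    have h1 := W.add_mem (ha i j) (ha k l)
    have h2 := W.add_mem (ha i l) (ha k j)
    rw [Prod.mk_add_mk] at h1 h2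
    refine hW.eq h1 ?_
    rw [show (Pi.single i 1 - Pi.single j 1 + (Pi.single k 1 - Pi.single l 1) : κ → K) =
      Pi.single i 1 - Pi.single l 1 + (Pi.single k 1 - Pi.single j 1) from by abel]
    exact h2
  have h01 : ∀ i ∈ T, ∀ j ∈ Tᶜ, a i j = 0 ∨ a i j = 1 := by
    intro i hi j hj
    exact hW.cor _ _ (cor_n (fun X hX => (hL X).2 hX) ((hTd i).1 hi) (hT' j hj)) (ha i j)
  have hεd : ε = ∑ i ∈ T, (Pi.single i 1 - Pi.single (p i) 1 : κ → K) := by
    funext k
    rw [Finset.sum_apply]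
    have h1 : ∑ i ∈ T, (Pi.single i 1 - Pi.single (p i) 1 : κ → K) k =
        ∑ i ∈ T, (Pi.single i 1 : κ → K) k - ∑ i ∈ T, (Pi.single (p i) 1 : κ → K) k := by
      rw [← Finset.sum_sub_distrib]
      rfl
    have h2 : ∑ i ∈ T, (Pi.single (p i) 1 : κ → K) k = ∑ j ∈ Tᶜ, (Pi.single j 1 : κ → K) k :=
      Finset.sum_bij (fun i _ => p i) (fun i hi => hp i hi) (fun i hi j hj h => hinj i hi j hj h)
        (fun j hj => by
          obtain ⟨i, hi, h⟩ := hsurj j hj
          exact ⟨i, hi, h⟩) (fun i hi => rfl)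
    have h3 : ∀ S : Finset κ, ∑ i ∈ S, (Pi.single i 1 : κ → K) k = if k ∈ S then 1 else 0 := by
      intro S
      rw [← Finset.sum_ite_eq S k (fun _ => (1 : K))]
      refine Finset.sum_congr rfl fun i _ => ?_
      rw [Pi.single_apply]
    rw [h1, h2, h3, h3]
    by_cases hk : k ∈ T
    · rw [if_pos hk, if_neg (fun h1 => (Finset.mem_compl.1 h1) hk), sub_zero]
      exact (hTd k).1 hk
    · rw [if_neg hk, if_pos (Finset.mem_compl.2 hk), zero_sub]
      exact hT' k (Finset.mem_compl.2 hk)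
  have hs : ∑ i ∈ T, a i (p i) = 1 := by
    have h1 : ∑ i ∈ T, ((Pi.single i 1 - Pi.single (p i) 1 : κ → K), a i (p i)) ∈ W :=
      Submodule.sum_mem _ fun i _ => ha i (p i)
    have h2 : ∑ i ∈ T, ((Pi.single i 1 - Pi.single (p i) 1 : κ → K), a i (p i)) = (ε, ∑ i ∈ T, a i (p i)) := by
      refine Prod.ext ?_ ?_
      · rw [Prod.fst_sum]
        exact hεd.symm
      · rw [Prod.snd_sum]
    rw [h2] at h1
    exact hW.eq h1 hW.eps
  have hgen : ∀ i₁ ∈ T, ∀ j₁ ∈ Tᶜ, ∀ g c, (g, c) ∈ W →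
      c = ∑ i ∈ T, g i * a i j₁ - ∑ j ∈ Tᶜ, g j * a i₁ j + (∑ j ∈ Tᶜ, g j) * a i₁ j₁ := by
    intro i₁ hi₁ j₁ hj₁ g c hgc
    have h0 := (hg g).1 (hW.dom _ _ hgc)
    have h1 : ∑ i ∈ T, g i • ((Pi.single i 1 - Pi.single j₁ 1 : κ → K), a i j₁) -
        ∑ j ∈ Tᶜ, g j • ((Pi.single i₁ 1 - Pi.single j 1 : κ → K), a i₁ j) +
        (∑ j ∈ Tᶜ, g j) • ((Pi.single i₁ 1 - Pi.single j₁ 1 : κ → K), a i₁ j₁) ∈ W :=
      W.add_mem (W.sub_mem (Submodule.sum_mem _ fun i _ => W.smul_mem _ (ha i j₁))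
        (Submodule.sum_mem _ fun j _ => W.smul_mem _ (ha i₁ j))) (W.smul_mem _ (ha i₁ j₁))
    refine hW.eq hgc ?_
    have h2 : ∑ i ∈ T, g i • ((Pi.single i 1 - Pi.single j₁ 1 : κ → K), a i j₁) -
        ∑ j ∈ Tᶜ, g j • ((Pi.single i₁ 1 - Pi.single j 1 : κ → K), a i₁ j) +
        (∑ j ∈ Tᶜ, g j) • ((Pi.single i₁ 1 - Pi.single j₁ 1 : κ → K), a i₁ j₁) =
        (g, ∑ i ∈ T, g i * a i j₁ - ∑ j ∈ Tᶜ, g j * a i₁ j + (∑ j ∈ Tᶜ, g j) * a i₁ j₁) := by
      refine Prod.ext ?_ ?_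
      · rw [Prod.fst_add, Prod.fst_sub, Prod.fst_sum, Prod.fst_sum]
        exact (dec_n hi₁ (Finset.mem_compl.1 hj₁) h0).symm
      · rw [Prod.snd_add, Prod.snd_sub, Prod.snd_sum, Prod.snd_sum]
        rfl
    rwa [h2] at h1
  rcases comb_n h01 (fun i _ k _ j _ l _ => hadd i k j l) hp hinj hsurj hs with ⟨i₀, hi₀, h⟩ | ⟨j₀, hj₀, h⟩
  · refine ⟨i₀, Or.inl fun g c hgc => ?_⟩
    rw [hgen i₀ hi₀ j₁ hj₁ g c hgc, Finset.sum_congr rfl (fun i hi => by rw [h i hi j₁ hj₁]),
      Finset.sum_congr (s₁ := Tᶜ) rfl (fun j hj => by rw [h i₀ hi₀ j hj]), h i₀ hi₀ j₁ hj₁, if_pos rfl]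
    simp [hi₀]
  · refine ⟨j₀, Or.inr fun g c hgc => ?_⟩
    have h0 := (hg g).1 (hW.dom _ _ hgc)
    rw [← Finset.sum_add_sum_compl T] at h0
    rw [hgen i₁ hi₁ j₀ hj₀ g c hgc, Finset.sum_congr rfl (fun i hi => by rw [h i hi j₀ hj₀]),
      Finset.sum_congr (s₁ := Tᶜ) rfl (fun j hj => by rw [h i₁ hi₁ j hj]), h i₁ hi₁ j₀ hj₀, if_pos rfl]
    have h3 : ∑ j ∈ Tᶜ, g j * (if j = j₀ then (1 : K) else 0) = g j₀ := by
      rw [Finset.sum_eq_single j₀]
      · rw [if_pos rfl, mul_one]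
      · intro b _ hb
        rw [if_neg hb, mul_zero]
      · intro h4
        exact absurd hj₀ h4
    rw [h3, ← Finset.sum_mul]
    linear_combination h0

end Pool.Agent.H34Z
end

-- from Lib.H34V.V01
section

/-!
# V01: diagonal pairs, roots
-/

set_option autoImplicit false
set_option linter.unusedSectionVars false
namespace Pool.Agent.H34V
open Module Matrix Pool.Agent.H53Toric Pool.Agent.H76P Pool.Agent.H34Z

variable {κ κ' : Type*} [Fintype κ] [DecidableEq κ] [Fintype κ'] [DecidableEq κ'] {K : Type*} [Field K] [CharZero K]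
  {𝓛 : Submodule K (Module.End K (κ → K) × Module.End K (κ' → K))}
  {L : Submodule K (Module.End K (κ → K))} {L' : Submodule K (Module.End K (κ' → K))}
  {d ε : κ → K} {d' ε' : κ' → K}

theorem v01_cnj {κ : Type*} [Fintype κ] [DecidableEq κ] {K : Type*} [Field K] {d : κ → K} (hne : ∀ k, d k ≠ 0) (g : κ → K) :
    dg d * dg g * dg (fun k => (d k)⁻¹) = dg g := by
  rw [dg_mul, dg_mul]
  refine congrArg dg ?_
  funext k
  simp only [Pi.mul_apply]
  rw [mul_comm (d k), mul_assoc, mul_inv_cancel₀ (hne k), mul_one]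

theorem v01_diag {κ : Type*} [Fintype κ] [DecidableEq κ] {K : Type*} [Field K] [CharZero K] {d : κ → K} (hne : ∀ k, d k ≠ 0)
    (hinj : Function.Injective d) {X : Module.End K (κ → K)} (hX : dg d * X * dg (fun k => (d k)⁻¹) = X) :
    ∃ g, X = dg g := by
  refine ⟨fun a => X (Pi.single a 1) a, H25Y.ext_entry fun a b => ?_⟩
  rw [H25Y.dg_single, Pi.smul_apply, smul_eq_mul]
  by_cases hab : a = b
  · subst hab
    rw [Pi.single_eq_same, mul_one]
  · rw [Pi.single_eq_of_ne hab, mul_zero]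
    have h1 := congrFun (congrArg (fun T : Module.End K (κ → K) => T (Pi.single b 1)) hX) a
    simp only [Module.End.mul_apply] at h1
    rw [dg_apply, H25Y.dg_single, map_smul, Pi.smul_apply, smul_eq_mul] at h1
    have h2 : (d a - d b) * X (Pi.single b 1) a = 0 := by
      have h3 : d b * (d a * ((d b)⁻¹ * X (Pi.single b 1) a)) = d b * X (Pi.single b 1) a := by rw [h1]
      have h4 : d b * (d a * ((d b)⁻¹ * X (Pi.single b 1) a)) = d a * X (Pi.single b 1) a := by
        rw [mul_left_comm, mul_inv_cancel_left₀ (hne b)]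
      rw [sub_mul, ← h3, h4, sub_self]
    rcases mul_eq_zero.1 h2 with h3 | h3
    · exact absurd (hinj (sub_eq_zero.1 h3)) hab
    · exact h3

theorem v01_uniq (h : Gz 𝓛 L L' d d') {X : Module.End K (κ → K)} {X' Y' : Module.End K (κ' → K)}
    (h1 : (X, X') ∈ 𝓛) (h2 : (X, Y') ∈ 𝓛) : X' = Y' := by
  have h3 := 𝓛.sub_mem h1 h2
  rw [Prod.mk_sub_mk, sub_self] at h3
  exact sub_eq_zero.1 (h.right _ h3)

theorem v01_const {κ : Type*} [Fintype κ] [DecidableEq κ] {K : Type*} [Field K] (e : κ → K) (c : K)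
    (E : Module.End K (κ → K)) :
    dg (fun k => e k - c) * E - E * dg (fun k => e k - c) = dg e * E - E * dg e := by
  have h1 : dg (fun k => e k - c) = dg e - c • (1 : Module.End K (κ → K)) := by
    refine LinearMap.ext fun v => funext fun a => ?_
    rw [LinearMap.sub_apply, LinearMap.smul_apply, Pi.sub_apply, Pi.smul_apply, dg_apply, dg_apply,
      Module.End.one_apply, smul_eq_mul, sub_mul]
  rw [h1, sub_mul, mul_sub, smul_mul_assoc, mul_smul_comm, one_mul, mul_one]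
  abel

theorem v01_lr {κ : Type*} [Fintype κ] [DecidableEq κ] {K : Type*} [Field K] [CharZero K] (g : κ → K)
    (X : Module.End K (κ → K)) (a b : κ) :
    (dg g * X - X * dg g) (Pi.single b 1) a = (g a - g b) * X (Pi.single b 1) a := by
  rw [LinearMap.sub_apply, Pi.sub_apply, Module.End.mul_apply, Module.End.mul_apply, dg_apply, H25Y.dg_single,
    map_smul, Pi.smul_apply, smul_eq_mul, sub_mul]

/-- PROOF. As `H34Z.Gr.diag` (H34Z/A09.lean), which does not use the involutions. -/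
theorem Gz.diag (h : Gz 𝓛 L L' d d') {g : κ → K} {X' : Module.End K (κ' → K)} (hX : (dg g, X') ∈ 𝓛) :
    ∃ g', X' = dg g' := by
  have h1 := h.cnj _ _ hX
  rw [v01_cnj h.ne] at h1
  have h3 := 𝓛.sub_mem h1 hX
  rw [Prod.mk_sub_mk, sub_self] at h3
  exact v01_diag h.ne' h.inj' (sub_eq_zero.1 (h.right _ h3))

/-- The coroots: `(dg δ, dg δ')` is a diagonal pair, `δ`, `δ'` differ from `ε`, `ε'` by constants.
PROOF. As in `H34Z.Gr.fun` (H34Z/A09.lean): `E, F ∈ L` with `Trip E F ε g`, `(E, E'), (F, F') ∈ 𝓛`, `[E', F'] = dg g'`.  `[dg δ, E] = [dg ε, E] = 2 E` (a constant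
commutes), so `[dg ε', E'] = [dg δ', E'] = 2 E'` (`h.lie`, `h.right`); the same for `F'`.  So `Trip E' F' ε' g'`, and `trip_val`. -/
theorem Gz.cor (h : Gz 𝓛 L L' d d') {c c' : K} (hε : (dg (fun k => ε k - c), dg (fun k => ε' k - c')) ∈ 𝓛)
    (hv : ∀ k, ε' k = 1 ∨ ε' k = -1) {g : κ → K} {g' : κ' → K} (hg : Cor L ε g) (hgg : (dg g, dg g') ∈ 𝓛) (k : κ') :
    (ε' k = 1 → g' k = 0 ∨ g' k = 1) ∧ (ε' k = -1 → g' k = 0 ∨ g' k = -1) := by
  obtain ⟨E, hE, F, hF, t⟩ := hg
  obtain ⟨E', hE'⟩ := (h.fst _).1 hE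
  obtain ⟨F', hF'⟩ := (h.fst _).1 hF
  have t' : Trip E' F' ε' g' := by
    constructor
    · have h3 := h.lie _ hε _ hE'
      simp only at h3
      rw [v01_const, v01_const, t.e] at h3
      have h4 := 𝓛.smul_mem (2 : K) hE'
      rw [Prod.smul_mk] at h4
      exact v01_uniq h h3 h4
    · have h3 := h.lie _ hε _ hF'
      simp only at h3
      rw [v01_const, v01_const, t.f] at h3
      have h4 := 𝓛.smul_mem (-2 : K) hF'
      rw [Prod.smul_mk] at h4
      exact v01_uniq h h3 h4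
    · have h3 := h.lie _ hE' _ hF'
      simp only at h3
      rw [t.co] at h3
      exact v01_uniq h h3 hgg
    · have h3 := h.lie _ hgg _ hE'
      simp only at h3
      rw [t.he] at h3
      have h4 := 𝓛.smul_mem (2 : K) hE'
      rw [Prod.smul_mk] at h4
      exact v01_uniq h h3 h4
    · have h3 := h.lie _ hgg _ hF'
      simp only at h3
      rw [t.hf] at h3
      have h4 := 𝓛.smul_mem (-2 : K) hF'
      rw [Prod.smul_mk] at h4
      exact v01_uniq h h3 h4
  exact trip_val t' hv k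

/-- PROOF. `E = phi (Matrix.single i j 1)` is in `L` (trace zero), `(E, E') ∈ 𝓛`, `E' ≠ 0` (`h.left`).  For a diagonal pair `(g, g')`: `[dg g, E] = (g i - g j) • E`,
so `[dg g', E'] = (g i - g j) • E'` (`h.lie`, `h.right`).  Let `E' (Pi.single l 1) k ≠ 0`: then `(g' k - g' l) = g i - g j` for all diagonal pairs.  `k ≠ l`: otherwise
`g i = g j` for all `g` with `∑ g = 0`, but `g = 1_i - 1_j` has `g i - g j = 2 ≠ 0` (`trace_dg`, `h.fst`, `Gz.diag`). -/
theorem Gz.root (h : Gz 𝓛 L L' d d') (hL : ∀ X, X ∈ L ↔ LinearMap.trace K (κ → K) X = 0) {i j : κ} (hij : i ≠ j) :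
    ∃ k l, k ≠ l ∧ ∀ g g', (dg g, dg g') ∈ 𝓛 → g i - g j = g' k - g' l := by
  have hphi : ∀ b a : κ, phi (Matrix.single i j (1 : K)) (Pi.single b 1) a =
      if a = i ∧ b = j then 1 else 0 := by
    intro b a
    rw [phi_apply, Matrix.mulVec_single_one, Matrix.col_apply, Matrix.single_apply]
    by_cases h1 : i = a <;> by_cases h2 : j = b <;> simp [h1, h2, eq_comm]
  have htr : LinearMap.trace K (κ → K) (phi (Matrix.single i j (1 : K))) = 0 := by
    have e : phi (Matrix.single i j (1 : K)) = Matrix.toLin' (Matrix.single i j (1 : K)) := by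
      refine LinearMap.ext fun v => ?_
      rw [phi_apply, Matrix.toLin'_apply]
    rw [e, Matrix.trace_toLin'_eq, Matrix.trace_single_eq_of_ne i j _ hij]
  obtain ⟨E', hE'⟩ := (h.fst _).1 ((hL _).2 htr)
  have hne : E' ≠ 0 := by
    intro h0
    rw [h0] at hE'
    have h1 := h.left _ hE'
    have h2 := hphi j i
    rw [h1, LinearMap.zero_apply, Pi.zero_apply, if_pos ⟨rfl, rfl⟩] at h2
    exact zero_ne_one h2
  obtain ⟨k, l, hkl⟩ : ∃ k l, E' (Pi.single l 1) k ≠ 0 := by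
    by_contra hcon
    push Not at hcon
    refine hne (H25Y.ext_entry fun a b => ?_)
    rw [hcon a b, LinearMap.zero_apply, Pi.zero_apply]
  have hall : ∀ g g', (dg g, dg g') ∈ 𝓛 → g i - g j = g' k - g' l := by
    intro g g' hgg
    have h1 := h.lie _ hgg _ hE'
    simp only at h1
    have h2 : dg g * phi (Matrix.single i j (1 : K)) - phi (Matrix.single i j (1 : K)) * dg g =
        (g i - g j) • phi (Matrix.single i j (1 : K)) := by
      refine H25Y.ext_entry fun a b => ?_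
      rw [v01_lr, LinearMap.smul_apply, Pi.smul_apply, smul_eq_mul, hphi]
      by_cases hab : a = i ∧ b = j
      · rw [if_pos hab, hab.1, hab.2]
      · rw [if_neg hab, mul_zero, mul_zero]
    rw [h2] at h1
    have h4 := 𝓛.smul_mem (g i - g j) hE'
    rw [Prod.smul_mk] at h4
    have h5 := v01_uniq h h1 h4
    have h6 := congrFun (congrArg (fun T : Module.End K (κ' → K) => T (Pi.single l 1)) h5) k
    rw [v01_lr, LinearMap.smul_apply, Pi.smul_apply, smul_eq_mul] at h6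
    exact (mul_right_cancel₀ hkl h6).symm
  refine ⟨k, l, ?_, hall⟩
  rintro rfl
  have h1 : dg (Pi.single i (1 : K) - Pi.single j 1) ∈ L := by
    rw [hL, trace_dg]
    simp
  obtain ⟨X', hX'⟩ := (h.fst _).1 h1
  obtain ⟨g', rfl⟩ := h.diag hX'
  have h2 := hall _ _ hX'
  rw [sub_self, Pi.sub_apply, Pi.sub_apply, Pi.single_eq_same, Pi.single_eq_same,
    Pi.single_eq_of_ne hij, Pi.single_eq_of_ne hij.symm] at h2
  norm_num at h2

/-- PROOF. For `g' = 1_a - 1_b` (`h.snd`, `trace_dg`, `h.symm.diag`: there is `g` with `(dg g, dg g') ∈ 𝓛`): `u a - u b = w a - w b`, so `u - w` is a constant `t`, and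
`Fintype.card κ' * t = ∑ u - ∑ w = 0`, so `t = 0` (`κ'` is not empty, otherwise nothing is to be proved). -/
theorem Gz.vec (h : Gz 𝓛 L L' d d') (hL' : ∀ X, X ∈ L' ↔ LinearMap.trace K (κ' → K) X = 0) {u w : κ' → K}
    (hs : ∑ k, u k = ∑ k, w k) (huw : ∀ g g', (dg g, dg g') ∈ 𝓛 → ∑ k, u k * g' k = ∑ k, w k * g' k) : u = w := by
  have hab : ∀ a b : κ', u a - u b = w a - w b := by
    intro a b
    have h1 : dg (Pi.single a (1 : K) - Pi.single b 1) ∈ L' := by
      rw [hL', trace_dg]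
      simp
    obtain ⟨X, hX⟩ := (h.snd _).1 h1
    obtain ⟨g, hg⟩ := Gz.diag h.symm (mem_sw.2 hX)
    rw [hg] at hX
    have h2 := huw _ _ hX
    simp only [Pi.sub_apply, mul_sub, Finset.sum_sub_distrib, Pi.single_apply, mul_ite, mul_one, mul_zero,
      Finset.sum_ite_eq', Finset.mem_univ, if_true] at h2
    exact h2
  funext a
  have h3 : ∑ k, (u k - w k) = 0 := by
    rw [Finset.sum_sub_distrib, hs, sub_self]
  have h4 : ∀ k, u k - w k = u a - w a := fun k => by
    linear_combination hab k a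
  rw [Finset.sum_congr rfl fun k _ => h4 k, Finset.sum_const, Finset.card_univ, nsmul_eq_mul] at h3
  have h5 : (Fintype.card κ' : K) ≠ 0 := by
    have : Nonempty κ' := ⟨a⟩
    exact_mod_cast Fintype.card_ne_zero
  rcases mul_eq_zero.1 h3 with h6 | h6
  · exact absurd h6 h5
  · exact sub_eq_zero.1 h6

end Pool.Agent.H34V
end

-- from Lib.H34Z.A07
section

/-!
# A07: weights of the orthogonal Lie algebra on which an involution has the value 1
-/

set_option autoImplicit false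
set_option linter.unusedSectionVars false
namespace Pool.Agent.H34Z
open Module Matrix Pool.Agent.H53Toric Pool.Agent.H76P

variable {κ : Type*} [Fintype κ] [DecidableEq κ] {K : Type*} [Field K] [CharZero K] {J : Matrix κ κ K} {π : κ → κ}
  {L : Submodule K (Module.End K (κ → K))} {ε : κ → K} {W : Submodule K ((κ → K) × K)}

/-- PROOF. As `wt_s` (A06), with `T = {i | ε i = 1}`, `h i = 1_i - 1_(π i)`, `(h i, lam i) ∈ W`.  For `i ≠ j` in `T`: `(h i + h j, lam i + lam j) ∈ W`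
and `Cor L ε (h i + h j)` (`cor_o`; the function `1_i + 1_j - 1_(π i) - 1_(π j)` is `h i + h j`), so `lam i + lam j ∈ {0, 1}` (`hW.cor`).
`∑ lam i = 1` as in `wt_s`.  `T.card * 2 = Fintype.card κ`: `π` is a bijection from `T` to its complement (`Finset.card_nbij` or
`Finset.card_image_of_injective`, `Finset.card_compl`), so `3 ≤ T.card`, `T.card ≠ 4`.  `comb_o` gives `i₀`; the end is as in `wt_s`. -/
theorem wt_o (hJ : Jᵀ = J) (hdet : IsUnit J.det) (hm : Mon J π) (hL : ∀ X, X ∈ L ↔ adjE J X = -X)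
    (h6 : 6 ≤ Fintype.card κ) (h8 : Fintype.card κ ≠ 8)
    (hε : ∀ k, ε k = 1 ∨ ε k = -1) (hW : Fun L ε W) : ∃ i, ∀ g c, (g, c) ∈ W → c = g i := by
  classical
  have hεπ : ∀ i, ε (π i) = -ε i := (dg_skew hm hdet ε).1 ((hL _).1 (hW.dom ε 1 hW.eps))
  have hinj : ∀ {i j : κ}, π i = π j → i = j := by
    intro i j h
    have h1 := congrArg π h
    rwa [hm.inv, hm.inv] at h1
  have hne : (-1 : K) ≠ 1 := by
    intro h
    have h1 : (2 : K) = 0 := by
      linear_combination -h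
    exact two_ne_zero h1
  obtain ⟨T, hTd⟩ : ∃ T : Finset κ, T = Finset.univ.filter (fun i => ε i = 1) := ⟨_, rfl⟩
  have hTm : ∀ i, i ∈ T ↔ ε i = 1 := by
    intro i
    rw [hTd, Finset.mem_filter]
    exact ⟨fun h => h.2, fun h => ⟨Finset.mem_univ _, h⟩⟩
  have hT : ∀ i, i ∈ T ↔ π i ∉ T := by
    intro i
    rw [hTm, hTm, hεπ]
    rcases hε i with h | h
    · rw [h]
      exact ⟨fun _ => hne, fun _ => rfl⟩
    · rw [h, neg_neg]
      exact ⟨fun h1 => absurd h1 hne, fun h1 => absurd rfl h1⟩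
  obtain ⟨h, hh⟩ : ∃ h : κ → κ → K, ∀ i, h i = Pi.single i 1 - Pi.single (π i) 1 := ⟨_, fun _ => rfl⟩
  have hodd : ∀ i k, h i (π k) = -h i k := by
    intro i k
    rw [hh, Pi.sub_apply, Pi.sub_apply]
    have e1 : (Pi.single i (1 : K) : κ → K) (π k) = (Pi.single (π i) (1 : K) : κ → K) k := by
      rw [Pi.single_apply, Pi.single_apply]
      by_cases h1 : π k = i
      · rw [if_pos h1, if_pos (by rw [← h1, hm.inv])]
      · rw [if_neg h1, if_neg (fun h2 => h1 (by rw [h2, hm.inv]))]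
    have e2 : (Pi.single (π i) (1 : K) : κ → K) (π k) = (Pi.single i (1 : K) : κ → K) k := by
      rw [Pi.single_apply, Pi.single_apply]
      by_cases h1 : k = i
      · rw [if_pos h1, if_pos (by rw [h1])]
      · rw [if_neg h1, if_neg (fun h2 => h1 (hinj h2))]
    rw [e1, e2]
    ring
  have hdgh : ∀ i, dg (h i) ∈ L := fun i => (hL _).2 ((dg_skew hm hdet (h i)).2 (hodd i))
  choose lam hlam using fun i => hW.tot (h i) (hdgh i)
  have key : ∀ g : κ → K, (∀ i, g (π i) = -g i) → (g, ∑ i ∈ T, g i * lam i) ∈ W := by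
    intro g hg
    have h1 : ∑ i ∈ T, g i • ((h i, lam i) : (κ → K) × K) ∈ W :=
      W.sum_mem fun i _ => W.smul_mem _ (hlam i)
    have h2 : ∑ i ∈ T, g i • ((h i, lam i) : (κ → K) × K) = (g, ∑ i ∈ T, g i * lam i) := by
      refine Prod.ext ?_ ?_
      · rw [Prod.fst_sum]
        have h3 := dec_pi hm.inv hT hg
        refine Eq.trans (Finset.sum_congr rfl fun i _ => ?_) h3.symm
        rw [Prod.smul_fst, hh]
      · rw [Prod.snd_sum]
        rfl
    rw [h2] at h1
    exact h1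
  have hsum : ∑ i ∈ T, lam i = 1 := by
    rw [← Fun.eq hW (key ε hεπ) hW.eps]
    refine Finset.sum_congr rfl fun i hi => ?_
    rw [(hTm i).1 hi, one_mul]
  have hpair : ∀ i ∈ T, ∀ j ∈ T, i ≠ j → lam i + lam j = 0 ∨ lam i + lam j = 1 := by
    intro i hi j hj hij
    have hi1 := (hTm i).1 hi
    have hj1 := (hTm j).1 hj
    have h1 := cor_o hJ hdet hm (fun X hX => (hL X).2 hX) hij hi1 hj1 (by rw [hεπ, hi1]) (by rw [hεπ, hj1])
    have h2 : (Pi.single i 1 + Pi.single j 1 - Pi.single (π i) 1 - Pi.single (π j) 1 : κ → K) = h i + h j := by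
      rw [hh, hh]
      abel
    rw [h2] at h1
    exact hW.cor _ _ h1 (W.add_mem (hlam i) (hlam j))
  have hcard : T.card * 2 = Fintype.card κ := by
    have h1 : T.image π = Tᶜ := by
      ext k
      rw [Finset.mem_image, Finset.mem_compl]
      constructor
      · rintro ⟨i, hi, rfl⟩
        exact (hT i).1 hi
      · intro hk
        refine ⟨π k, (hT (π k)).2 ?_, hm.inv k⟩
        rw [hm.inv]
        exact hk
    have h2 : (T.image π).card = T.card := Finset.card_image_of_injective T fun i j hij => hinj hij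
    rw [h1, Finset.card_compl] at h2
    have h3 := Finset.card_le_univ T
    omega
  obtain ⟨i₀, hi₀, hl1, hl0⟩ := comb_o hpair hsum (by omega) (by omega)
  refine ⟨i₀, fun g c hgc => ?_⟩
  have hg := (dg_skew hm hdet g).1 ((hL _).1 (hW.dom g c hgc))
  rw [Fun.eq hW hgc (key g hg), Finset.sum_eq_single i₀]
  · rw [hl1, mul_one]
  · intro i hi hne'
    rw [hl0 i hi hne', mul_zero]
  · intro h1
    exact absurd hi₀ h1

end Pool.Agent.H34Z
end

-- from Lib.H34Z.A12
section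

/-!
# A12: the weights of the second block, in all cases; diagonal elements separate
-/

set_option autoImplicit false
set_option linter.unusedSectionVars false
namespace Pool.Agent.H34Z
open Module Matrix Pool.Agent.H53Toric Pool.Agent.H76P

variable {κ κ' : Type*} [Fintype κ] [DecidableEq κ] [Fintype κ'] [DecidableEq κ'] {K : Type*} [Field K] [CharZero K]
  {𝓛 : Submodule K (Module.End K (κ → K) × Module.End K (κ' → K))}
  {L : Submodule K (Module.End K (κ → K))} {L' : Submodule K (Module.End K (κ' → K))}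
  {d ε : κ → K} {d' ε' : κ' → K}

theorem a12_pi {J : Matrix κ κ K} {π : κ → κ} (hdet : IsUnit J.det) (hm : Mon J π)
    (hL : ∀ X, X ∈ L ↔ adjE J X = -X) (hne : ∀ i, π i ≠ i) {i j : κ} (hij : i ≠ j) :
    ∃ g : κ → K, dg g ∈ L ∧ g i ≠ g j := by
  refine ⟨fun k => (if k = i then 1 else 0) - (if k = π i then 1 else 0), ?_, ?_⟩
  · rw [hL, dg_skew hm hdet]
    intro k
    have h1 : (π k = i) ↔ (k = π i) :=
      ⟨fun h => by rw [← h, hm.inv], fun h => by rw [h, hm.inv]⟩
    have h2 : (π k = π i) ↔ (k = i) :=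
      ⟨fun h => by rw [← hm.inv k, h, hm.inv], fun h => by rw [h]⟩
    simp only [h1, h2]
    ring
  · have h3 : i ≠ π i := (hne i).symm
    have h4 : j ≠ i := hij.symm
    by_cases hj : j = π i
    · simp only [if_neg h3, if_neg h4, if_pos hj, if_true]
      norm_num
    · simp only [if_neg h3, if_neg h4, if_neg hj, if_true]
      norm_num

/-- PROOF. Cases of `hL`.  `s`, `o`: `π` has no fixed point (`s`: `Mon.ne_self`; `o`: `ε (π i) = -ε i` by `dg_skew`, `hεL`, and `ε i = 1` or `-1`, so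
`ε (π i) ≠ ε i`).  Let `i ≠ j`, `g = 1_i - 1_(π i)`: `dg g ∈ L` (`dg_skew`; `π` is injective), `g i = 1`, and `g j = 0` or (`j = π i`) `g j = -1`.
`n`: `g = 1_i - 1_j` (`trace_dg`). -/
theorem fb_sep {t : Prop} {J : Matrix κ κ K} (hL : FB t L J) (hεL : dg ε ∈ L) (hε : ∀ k, ε k = 1 ∨ ε k = -1)
    {i j : κ} (hij : i ≠ j) : ∃ g : κ → K, dg g ∈ L ∧ g i ≠ g j := by
  cases hL with
  | s ht π hJ hdet hm hL => exact a12_pi hdet hm hL (hm.ne_self hJ) hij
  | o ht π hJ hdet hm hL h6 h8 =>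
    refine a12_pi hdet hm hL ?_ hij
    intro k hk
    have h1 : ε (π k) = -ε k := (dg_skew hm hdet ε).1 ((hL _).1 hεL) k
    rw [hk] at h1
    rcases hε k with h2 | h2
    · rw [h2] at h1
      norm_num at h1
    · rw [h2] at h1
      norm_num at h1
  | n ht hL h2 =>
    refine ⟨fun k => (if k = i then 1 else 0) - (if k = j then 1 else 0), ?_, ?_⟩
    · rw [hL, trace_dg, Finset.sum_sub_distrib]
      simp
    · have h4 : j ≠ i := hij.symm
      simp only [if_neg hij, if_neg h4, if_true]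
      norm_num

/-- The weights in the symplectic and the orthogonal case.
PROOF. Fix `k`.  `h.fun k : Fun L ε (Wt 𝓛 k (ε' k))`, so `wt_s` / `wt_o` give `i` with `ε' k * g' k = g i` for all `(dg g, dg g') ∈ 𝓛`
(`mem_Wt`).  If `ε' k = 1` take `i`; if `ε' k = -1` take `π i` (`g (π i) = -g i` by `dg_skew`, as `dg g ∈ L`). -/
theorem Gr.wt_so (h : Gr 𝓛 L L' d d' ε ε') {J : Matrix κ κ K} {π : κ → κ} (hJ : Jᵀ = -J ∨ (Jᵀ = J ∧
      6 ≤ Fintype.card κ ∧ Fintype.card κ ≠ 8)) (hdet : IsUnit J.det) (hm : Mon J π)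
    (hL : ∀ X, X ∈ L ↔ adjE J X = -X) :
    ∃ idx : κ' → κ, ∀ g g', (dg g, dg g') ∈ 𝓛 → ∀ k, g' k = g (idx k) := by
  have hεL : dg ε ∈ L := (h.fst _).2 ⟨_, h.eps⟩
  have key : ∀ k : κ', ∃ i : κ, ∀ g g', (dg g, dg g') ∈ 𝓛 → g' k = g i := by
    intro k
    have h1 : ∃ i, ∀ g c, (g, c) ∈ Wt 𝓛 k (ε' k) → c = g i := by
      rcases hJ with hJ | ⟨hJ, h6, h8⟩
      · exact wt_s hJ hdet hm hL h.val (h.fun k)
      · exact wt_o hJ hdet hm hL h6 h8 h.val (h.fun k)
    obtain ⟨i, hi⟩ := h1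
    rcases h.val' k with h2 | h2
    · refine ⟨i, fun g g' hg => ?_⟩
      have h3 := hi g (ε' k * g' k) (mem_Wt.2 ⟨g', hg, rfl⟩)
      rw [h2, one_mul] at h3
      exact h3
    · refine ⟨π i, fun g g' hg => ?_⟩
      have h3 := hi g (ε' k * g' k) (mem_Wt.2 ⟨g', hg, rfl⟩)
      have h4 : dg g ∈ L := (h.fst _).2 ⟨_, hg⟩
      have h5 : g (π i) = -g i := (dg_skew hm hdet g).1 ((hL _).1 h4) i
      rw [h2] at h3
      rw [h5, ← h3]
      ring
  choose idx hidx using key
  exact ⟨idx, fun g g' hg k => hidx k g g' hg⟩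

/-- The weights in the linear case.  PROOF. As `Gr.wt_so` with `wt_n`: for each `k` there is `i` with `ε' k * g' k = g i` for all pairs or
`ε' k * g' k = -g i` for all pairs; multiply with `ε' k = ±1`: `s k = ε' k` or `s k = -ε' k` (as a rational number). -/
theorem Gr.wt_n (h : Gr 𝓛 L L' d d' ε ε') (hL : ∀ X, X ∈ L ↔ LinearMap.trace K (κ → K) X = 0)
    (h2 : 2 ≤ Fintype.card κ) :
    ∃ (idx : κ' → κ) (s : κ' → ℚ), (∀ k, s k = 1 ∨ s k = -1) ∧
      ∀ g g', (dg g, dg g') ∈ 𝓛 → ∀ k, g' k = (s k : K) * g (idx k) := by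
  have key : ∀ k : κ', ∃ (i : κ) (s : ℚ), (s = 1 ∨ s = -1) ∧
      ∀ g g', (dg g, dg g') ∈ 𝓛 → g' k = (s : K) * g i := by
    intro k
    obtain ⟨i, hi⟩ := Pool.Agent.H34Z.wt_n hL h2 h.val (h.fun k)
    rcases h.val' k with h3 | h3
    · rcases hi with hi | hi
      · refine ⟨i, 1, Or.inl rfl, fun g g' hg => ?_⟩
        have h4 := hi g (ε' k * g' k) (mem_Wt.2 ⟨g', hg, rfl⟩)
        rw [h3, one_mul] at h4
        rw [h4]
        push_cast
        ring
      · refine ⟨i, -1, Or.inr rfl, fun g g' hg => ?_⟩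
        have h4 := hi g (ε' k * g' k) (mem_Wt.2 ⟨g', hg, rfl⟩)
        rw [h3, one_mul] at h4
        rw [h4]
        push_cast
        ring
    · rcases hi with hi | hi
      · refine ⟨i, -1, Or.inr rfl, fun g g' hg => ?_⟩
        have h4 := hi g (ε' k * g' k) (mem_Wt.2 ⟨g', hg, rfl⟩)
        rw [h3] at h4
        rw [← h4]
        push_cast
        ring
      · refine ⟨i, 1, Or.inl rfl, fun g g' hg => ?_⟩
        have h4 := hi g (ε' k * g' k) (mem_Wt.2 ⟨g', hg, rfl⟩)
        rw [h3] at h4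
        have h5 : g i = g' k := by
          have := congrArg Neg.neg h4
          rw [neg_neg] at this
          rw [← this]
          ring
        rw [h5]
        push_cast
        ring
  choose idx s hs hidx using key
  exact ⟨idx, s, hs, fun g g' hg k => hidx k g g' hg⟩

end Pool.Agent.H34Z
end

-- from Lib.H34Z.A13
section

/-!
# A13: a graph comes from an isomorphism of the modules (or of the dual module)
-/

set_option autoImplicit false
set_option linter.unusedSectionVars false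
namespace Pool.Agent.H34Z
open Module Matrix Pool.Agent.H53Toric Pool.Agent.H76P

variable {κ κ' : Type*} [Fintype κ] [DecidableEq κ] [Fintype κ'] [DecidableEq κ'] {K : Type*} [Field K] [CharZero K]
  {𝓛 : Submodule K (Module.End K (κ → K) × Module.End K (κ' → K))}
  {L : Submodule K (Module.End K (κ → K))} {L' : Submodule K (Module.End K (κ' → K))}
  {d ε : κ → K} {d' ε' : κ' → K}

/-- PROOF. `hg`: all diagonal pairs have `g' k = g (idx k)`.  Let `k₀ : κ'` be any element (`Nonempty κ'`), `f` from `gen_so` for `π` and `idx k₀`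
(`π` has no fixed points: if `Jᵀ = -J` by `Mon.ne_self`; in general since `ε (π i) = -ε i`, `dg_skew`, `h.eps`, `h.val`).  `dq f ∈ L` by `dg_skew`, so
`(dq f, X') ∈ 𝓛` and `X' = dg g'` (`h.fst`, `h.diag`).  Apply `iso_pm` with `s = 1`.  `hsep`: if `f (idx k) = f (idx l)` then `idx k = idx l`, so `g' k = g' l` for
all diagonal pairs, i.e. (`h.snd`, `h.diag'`) for all `dg g' ∈ L'`, so `k = l` by `fb_sep` for `L'` (`h.snd` and `h.eps` give `dg ε' ∈ L'`). -/
theorem Gr.iso_so (h : Gr 𝓛 L L' d d' ε ε') [Nonempty κ'] {J : Matrix κ κ K} {π : κ → κ} (hdet : IsUnit J.det) (hm : Mon J π)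
    (hL : ∀ X, X ∈ L ↔ adjE J X = -X) (hirr : Irr L) (hirr' : Irr L') {t' : Prop} {J' : Matrix κ' κ' K} (hL' : FB t' L' J')
    {idx : κ' → κ} (hg : ∀ g g', (dg g, dg g') ∈ 𝓛 → ∀ k, g' k = g (idx k)) :
    ∃ T : (κ → K) →ₗ[K] (κ' → K), Function.Bijective T ∧ ∀ p ∈ 𝓛, ∀ v, T (p.1 v) = p.2 (T v) := by
  obtain ⟨k₀⟩ := (inferInstance : Nonempty κ')
  have hεL : dg ε ∈ L := (h.fst _).2 ⟨_, h.eps⟩
  have hεL' : dg ε' ∈ L' := (h.snd _).2 ⟨_, h.eps⟩
  have hne : ∀ i, π i ≠ i := by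
    intro i hi
    have h1 := (dg_skew hm hdet ε).1 ((hL _).1 hεL) i
    rw [hi] at h1
    rcases h.val i with h2 | h2
    · rw [h2] at h1
      have h3 : (2 : K) = 0 := by linear_combination h1
      exact two_ne_zero h3
    · rw [h2] at h1
      have h3 : (2 : K) = 0 := by linear_combination -h1
      exact two_ne_zero h3
  obtain ⟨f, hf1, hf2, hf3⟩ := gen_so hm.inv hne (idx k₀)
  have hfL : (dq f : Module.End K (κ → K)) ∈ L := by
    refine (hL _).2 ((dg_skew hm hdet _).2 fun i => ?_)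
    rw [hf2 i]
    push_cast
    rfl
  obtain ⟨X', hX'⟩ := (h.fst _).1 hfL
  obtain ⟨gf, rfl⟩ := h.diag hX'
  refine iso_pm h.lie ?_ ?_ (idx := idx) (s := fun _ => 1) (f := f) (fun g g' hgg k => ?_) hf1 ⟨gf, hX'⟩ (k₀ := k₀) rfl hf3
    (fun k => ?_) (fun k l hkl => ?_)
  · intro W hW
    refine hirr W fun X hX w hw => ?_
    obtain ⟨X', hX'⟩ := (h.fst _).1 hX
    exact hW _ hX' w hw
  · intro W hW
    refine hirr' W fun X' hX w hw => ?_
    obtain ⟨X, hX'⟩ := (h.snd _).1 hX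
    exact hW _ hX' w hw
  · rw [hg g g' hgg k]
    push_cast
    ring
  · rw [one_mul]
    exact hf3 _
  · rw [one_mul, one_mul] at hkl
    have h1 : idx k = idx l := hf1 hkl
    by_contra hne'
    obtain ⟨g', hg', hsep⟩ := fb_sep hL' hεL' h.val' hne'
    obtain ⟨X, hX⟩ := (h.snd _).1 hg'
    obtain ⟨g, rfl⟩ := h.diag' hX
    apply hsep
    rw [hg g g' hX k, hg g g' hX l, h1]

/-- The linear case, when the weight `k₀` has the sign `1`.  It is stated for a Lie algebra `𝓛` of pairs without the structure `Gr`, so that it can be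
applied to `Lt 𝓛` too.
PROOF. Case `Fintype.card κ = 2`: `g j = -g i` for the two elements `i ≠ j` and `dg g ∈ L` (`trace_dg`), so one can change `idx` such that `s = 1`:
`idx' k = idx k` if `s k = 1`, the other element if `s k = -1`.  Then `f` from `gen_two` for `idx' k₀ = idx k₀`, `iso_pm` with `idx'`, `s = 1`; `hsep` as in
`Gr.iso_so` from `hsepL`.
Case `3 ≤ Fintype.card κ`: `f` from `gen_n` for `idx k₀`.  `iso_pm` with `idx`, `s`: `hinj` from `|f i| = |f j| → i = j`; `hmax`, `hmax'`: `s k * f i ≤ |f i|`;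
`hsep`: `s k * f (idx k) = s l * f (idx l)` gives `|f (idx k)| = |f (idx l)|`, so `idx k = idx l`, and `s k = s l` as `f (idx k) ≠ 0`; so `g' k = g' l` for all
diagonal pairs and `k = l` by `hsepL`. -/
theorem iso_n (hlie : ∀ p ∈ 𝓛, ∀ q ∈ 𝓛, (p.1 * q.1 - q.1 * p.1, p.2 * q.2 - q.2 * p.2) ∈ 𝓛)
    (hirr : ∀ W : Submodule K (κ → K), (∀ p ∈ 𝓛, ∀ w ∈ W, p.1 w ∈ W) → W = ⊥ ∨ W = ⊤)
    (hirr' : ∀ W : Submodule K (κ' → K), (∀ p ∈ 𝓛, ∀ w ∈ W, p.2 w ∈ W) → W = ⊥ ∨ W = ⊤)
    (htr : ∀ p ∈ 𝓛, LinearMap.trace K (κ → K) p.1 = 0)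
    (hdiag : ∀ g : κ → K, ∑ i, g i = 0 → ∃ g' : κ' → K, (dg g, dg g') ∈ 𝓛) (h2 : 2 ≤ Fintype.card κ)
    (hsepL : ∀ k l : κ', (∀ g g', (dg g, dg g') ∈ 𝓛 → g' k = g' l) → k = l)
    {idx : κ' → κ} {s : κ' → ℚ} (hs : ∀ k, s k = 1 ∨ s k = -1)
    (hg : ∀ g g', (dg g, dg g') ∈ 𝓛 → ∀ k, g' k = (s k : K) * g (idx k)) {k₀ : κ'} (hk₀ : s k₀ = 1) :
    ∃ T : (κ → K) →ₗ[K] (κ' → K), Function.Bijective T ∧ ∀ p ∈ 𝓛, ∀ v, T (p.1 v) = p.2 (T v) := by
  have hdf : ∀ f : κ → ℚ, ∑ i, f i = 0 → ∃ g' : κ' → K, ((dq f : Module.End K (κ → K)), dg g') ∈ 𝓛 := by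
    intro f hf
    refine hdiag _ ?_
    have h1 : (((∑ i, f i : ℚ)) : K) = 0 := by rw [hf, Rat.cast_zero]
    rw [← h1]
    push_cast
    rfl
  rcases Nat.lt_or_ge (Fintype.card κ) 3 with h3 | h3
  · have hc2 : Fintype.card κ = 2 := by omega
    -- the other element
    obtain ⟨x, y, hxy, huniv⟩ := Finset.card_eq_two.1 (Finset.card_univ.trans hc2)
    obtain ⟨τ, hτ⟩ : ∃ τ : κ → κ, τ = fun i => if i = x then y else x := ⟨_, rfl⟩
    have hall : ∀ i : κ, i = x ∨ i = y := by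
      intro i
      have : i ∈ (Finset.univ : Finset κ) := Finset.mem_univ i
      rw [huniv] at this
      simpa using this
    have hsum : ∀ g : κ → K, ∑ i, g i = g x + g y := by
      intro g
      rw [huniv, Finset.sum_pair hxy]
    have hgt : ∀ g : κ → K, ∑ i, g i = 0 → ∀ i, g (τ i) = - g i := by
      intro g hg0 i
      rw [hsum] at hg0
      rcases hall i with rfl | rfl
      · have : τ i = y := by rw [hτ]; simp
        rw [this]
        linear_combination hg0
      · have : τ i = x := by rw [hτ]; simp [Ne.symm hxy]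
        rw [this]
        linear_combination hg0
    have htr0 : ∀ g g', (dg g, dg g') ∈ 𝓛 → ∑ i, g i = 0 := by
      intro g g' hgg
      have h1 := htr _ hgg
      rwa [trace_dg] at h1
    obtain ⟨f, hf1, hf2, hf3⟩ := gen_two hc2 (idx k₀)
    obtain ⟨idx', hidx'⟩ : ∃ idx' : κ' → κ, idx' = fun k => if s k = 1 then idx k else τ (idx k) := ⟨_, rfl⟩
    have hidx0 : idx' k₀ = idx k₀ := by rw [hidx']; simp [hk₀]
    have hg' : ∀ g g', (dg g, dg g') ∈ 𝓛 → ∀ k, g' k = g (idx' k) := by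
      intro g g' hgg k
      rw [hg g g' hgg k, hidx']
      rcases hs k with h4 | h4
      · simp [h4]
      · have h5 : ¬ ((-1 : ℚ) = 1) := by norm_num
        simp only [h4, h5, if_false]
        rw [hgt g (htr0 g g' hgg)]
        push_cast
        ring
    refine iso_pm hlie hirr hirr' (idx := idx') (s := fun _ => 1) (f := f) (fun g g' hgg k => ?_) hf2 (hdf f hf1) (k₀ := k₀) rfl
      (fun i => by rw [hidx0]; exact hf3 i) (fun k => ?_) (fun k l hkl => ?_)
    · rw [hg' g g' hgg k]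
      push_cast
      ring
    · rw [one_mul, hidx0]
      exact hf3 _
    · rw [one_mul, one_mul] at hkl
      have h1 : idx' k = idx' l := hf2 hkl
      refine hsepL k l fun g g' hgg => ?_
      rw [hg' g g' hgg k, hg' g g' hgg l, h1]
  · obtain ⟨f, hf1, hf2, hf3, hf4⟩ := gen_n h3 (idx k₀)
    refine iso_pm hlie hirr hirr' (idx := idx) (s := s) (f := f) hg (fun i j hij => hf2 i j (by rw [hij])) (hdf f hf1)
      (k₀ := k₀) hk₀ (fun i => (le_abs_self _).trans (hf4 i)) (fun k => ?_) (fun k l hkl => ?_)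
    · refine le_trans ?_ (hf4 (idx k))
      rcases hs k with h4 | h4
      · rw [h4, one_mul]
        exact le_abs_self _
      · rw [h4, neg_one_mul]
        exact neg_le_abs _
    · have habs : ∀ k, |s k * f (idx k)| = |f (idx k)| := by
        intro k
        rcases hs k with h4 | h4
        · rw [h4, one_mul]
        · rw [h4, neg_one_mul, abs_neg]
      have h1 : idx k = idx l := by
        apply hf2
        rw [← habs k, ← habs l, hkl]
      have h2 : s k = s l := by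
        rw [h1] at hkl
        exact mul_right_cancel₀ (hf3 _) hkl
      refine hsepL k l fun g g' hgg => ?_
      rw [hg g g' hgg k, hg g g' hgg l, h1, h2]

end Pool.Agent.H34Z
end

-- from Lib.H34V.V02
section

/-!
# V02: two linear blocks: the weights
-/

set_option autoImplicit false
set_option linter.unusedSectionVars false
namespace Pool.Agent.H34V
open Module Matrix Pool.Agent.H53Toric Pool.Agent.H76P Pool.Agent.H34Z

section v02aux
variable {κ κ' : Type*} [Fintype κ] [DecidableEq κ] [Fintype κ'] [DecidableEq κ'] {K : Type*} [Field K] [CharZero K]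

theorem v02_vec1 {D : (κ → K) → (κ' → K) → Prop}
    (vec : ∀ u w : κ' → K, ∑ k, u k = ∑ k, w k →
      (∀ g g', D g g' → ∑ k, u k * g' k = ∑ k, w k * g' k) → u = w)
    {a b : κ'} (h : ∀ g g', D g g' → g' a = g' b) : a = b := by
  have h0 := vec (Pi.single a 1) (Pi.single b 1) (by simp)
    (fun g g' hg => by simpa [Pi.single_apply] using h g g' hg)
  by_contra hne
  have h1 := congrFun h0 a
  rw [Pi.single_eq_same, Pi.single_eq_of_ne hne] at h1
  exact one_ne_zero h1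

theorem v02_vec2 {D : (κ → K) → (κ' → K) → Prop}
    (vec : ∀ u w : κ' → K, ∑ k, u k = ∑ k, w k →
      (∀ g g', D g g' → ∑ k, u k * g' k = ∑ k, w k * g' k) → u = w)
    {a b c d : κ'} (h : ∀ g g', D g g' → g' a + g' b = g' c + g' d) (x : κ') :
    (if x = a then (1 : K) else 0) + (if x = b then 1 else 0) =
      (if x = c then 1 else 0) + (if x = d then 1 else 0) := by
  have h0 := vec (fun x => (if x = a then (1 : K) else 0) + (if x = b then 1 else 0))
    (fun x => (if x = c then (1 : K) else 0) + (if x = d then 1 else 0))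
    (by simp [Finset.sum_add_distrib])
    (fun g g' hg => by simpa [add_mul, Finset.sum_add_distrib] using h g g' hg)
  exact congrFun h0 x

theorem v02_vec3 {D : (κ → K) → (κ' → K) → Prop}
    (vec : ∀ u w : κ' → K, ∑ k, u k = ∑ k, w k →
      (∀ g g', D g g' → ∑ k, u k * g' k = ∑ k, w k * g' k) → u = w)
    {a b c d e f : κ'} (h : ∀ g g', D g g' → g' a + g' b + g' c = g' d + g' e + g' f) (x : κ') :
    (if x = a then (1 : K) else 0) + (if x = b then 1 else 0) + (if x = c then 1 else 0) =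
      (if x = d then 1 else 0) + (if x = e then 1 else 0) + (if x = f then 1 else 0) := by
  have h0 := vec (fun x => (if x = a then (1 : K) else 0) + (if x = b then 1 else 0) + (if x = c then 1 else 0))
    (fun x => (if x = d then (1 : K) else 0) + (if x = e then 1 else 0) + (if x = f then 1 else 0))
    (by simp [Finset.sum_add_distrib])
    (fun g g' hg => by simpa [add_mul, Finset.sum_add_distrib] using h g g' hg)
  exact congrFun h0 x

theorem v02_three {a b ki li kj lj : κ'}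
    (hu : ∀ x : κ', (if x = ki then (1 : K) else 0) + (if x = lj then 1 else 0) + (if x = b then 1 else 0) =
      (if x = li then 1 else 0) + (if x = kj then 1 else 0) + (if x = a then 1 else 0))
    (h1 : ki ≠ li) (h2 : kj ≠ lj) : ki = kj ∨ li = lj := by
  by_contra hcon
  push Not at hcon
  obtain ⟨hk, hl⟩ := hcon
  have e1 := hu ki
  have hka : ki = a := by
    by_contra hka
    rw [if_pos rfl, if_neg h1, if_neg hk, if_neg hka] at e1
    split_ifs at e1 <;> norm_num at e1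
  have e2 := hu lj
  rw [if_neg (Ne.symm hl), if_neg (Ne.symm h2), if_pos rfl, hka] at e2
  split_ifs at e2 <;> norm_num at e2

/-- Case (I), abstractly. -/
theorem v02_case (D : (κ → K) → (κ' → K) → Prop)
    (hs : ∀ g g', D g g' → ∑ k, g k = 0) (hs' : ∀ g g', D g g' → ∑ k, g' k = 0)
    (hex : ∀ g : κ → K, ∑ k, g k = 0 → ∃ g', D g g')
    (vec : ∀ u w : κ' → K, ∑ k, u k = ∑ k, w k →
      (∀ g g', D g g' → ∑ k, u k * g' k = ∑ k, w k * g' k) → u = w)
    (root : ∀ k l : κ', k ≠ l → ∃ i j, i ≠ j ∧ ∀ g g', D g g' → g i - g j = g' k - g' l)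
    (o : κ) (m : κ') (k : κ → κ') (hk : ∀ i, i ≠ o → k i ≠ m)
    (hR : ∀ i, i ≠ o → ∀ g g', D g g' → g i - g o = g' (k i) - g' m) :
    ∃ idx : κ' → κ, ∀ g g', D g g' → ∀ a, g' a = g (idx a) := by
  classical
  have hinj : ∀ i j, i ≠ o → j ≠ o → k i = k j → i = j := by
    intro i j hi hj hij
    by_contra hne
    obtain ⟨g', hg'⟩ := hex (Pi.single i 1 - Pi.single j 1) (by simp)
    have e1 := hR i hi _ _ hg'
    have e2 := hR j hj _ _ hg'
    rw [hij] at e1
    rw [← e2] at e1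
    simp only [Pi.sub_apply, Pi.single_eq_same, Pi.single_eq_of_ne hne, Pi.single_eq_of_ne (Ne.symm hne)] at e1
    norm_num at e1
  have hsurj : ∀ a, a ≠ m → ∃ i, i ≠ o ∧ k i = a := by
    intro a ha
    obtain ⟨i, j, hij, hr⟩ := root a m ha
    by_cases hj : j = o
    · subst hj
      refine ⟨i, hij, v02_vec1 vec (fun g g' hg => ?_)⟩
      have e1 := hR i hij g g' hg
      have e2 := hr g g' hg
      linear_combination e2 - e1
    · exfalso
      by_cases hi : i = o
      · subst hi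
        have h2 := v02_vec2 vec (a := m) (b := m) (c := a) (d := k j) (fun g g' hg => by
          have e1 := hR j hj g g' hg
          have e2 := hr g g' hg
          linear_combination e2 + e1) m
        rw [if_pos rfl, if_neg (Ne.symm ha), if_neg (Ne.symm (hk j hj))] at h2
        norm_num at h2
      · have h2 := v02_vec2 vec (a := k i) (b := m) (c := a) (d := k j) (fun g g' hg => by
          have e1 := hR j hj g g' hg
          have e3 := hR i hi g g' hg
          have e2 := hr g g' hg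
          linear_combination e2 + e1 - e3) m
        rw [if_pos rfl, if_neg (Ne.symm ha), if_neg (Ne.symm (hk j hj)), if_neg (Ne.symm (hk i hi))] at h2
        norm_num at h2
  have : Nonempty κ := ⟨o⟩
  choose! iv hiv1 hiv2 using hsurj
  have hivk : ∀ i, i ≠ o → iv (k i) = i := fun i hi =>
    hinj _ _ (hiv1 _ (hk i hi)) hi (hiv2 _ (hk i hi))
  have hsum : ∀ f : κ' → K, ∑ i ∈ Finset.univ.erase o, f (k i) = ∑ a ∈ Finset.univ.erase m, f a := by
    intro f
    refine Finset.sum_bij' (fun i _ => k i) (fun a _ => iv a) ?_ ?_ ?_ ?_ ?_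
    · intro i hi
      exact Finset.mem_erase.2 ⟨hk i (Finset.ne_of_mem_erase hi), Finset.mem_univ _⟩
    · intro a ha
      exact Finset.mem_erase.2 ⟨hiv1 a (Finset.ne_of_mem_erase ha), Finset.mem_univ _⟩
    · intro i hi
      exact hivk i (Finset.ne_of_mem_erase hi)
    · intro a ha
      exact hiv2 a (Finset.ne_of_mem_erase ha)
    · intro i hi
      rfl
  have hcard : (Fintype.card κ : K) = Fintype.card κ' := by
    have h1 := hsum (fun _ => 1)
    simp only [Finset.sum_const, nsmul_eq_mul, mul_one, Finset.card_erase_of_mem (Finset.mem_univ _),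
      Finset.card_univ] at h1
    have h2 : 0 < Fintype.card κ := Fintype.card_pos_iff.2 ⟨o⟩
    have h3 : 0 < Fintype.card κ' := Fintype.card_pos_iff.2 ⟨m⟩
    have h4 : Fintype.card κ - 1 = Fintype.card κ' - 1 := by exact_mod_cast h1
    have h5 : Fintype.card κ = Fintype.card κ' := by omega
    rw [h5]
  have hom : ∀ g g', D g g' → g' m = g o := by
    intro g g' hg
    have e1 : ∑ i ∈ Finset.univ.erase o, (g i - g o) = ∑ a ∈ Finset.univ.erase m, (g' a - g' m) := by
      rw [← hsum (fun a => g' a - g' m)]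
      exact Finset.sum_congr rfl (fun i hi => hR i (Finset.ne_of_mem_erase hi) g g' hg)
    have e2 : ∑ i ∈ Finset.univ.erase o, (g i - g o) = ∑ i, (g i - g o) := by
      rw [← Finset.sum_erase_add Finset.univ _ (Finset.mem_univ o), sub_self, add_zero]
    have e3 : ∑ a ∈ Finset.univ.erase m, (g' a - g' m) = ∑ a, (g' a - g' m) := by
      rw [← Finset.sum_erase_add Finset.univ _ (Finset.mem_univ m), sub_self, add_zero]
    rw [e2, e3, Finset.sum_sub_distrib, Finset.sum_sub_distrib, hs g g' hg, hs' g g' hg, Finset.sum_const,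
      Finset.sum_const, Finset.card_univ, Finset.card_univ, nsmul_eq_mul, nsmul_eq_mul, hcard] at e1
    have h3 : (Fintype.card κ' : K) ≠ 0 := by
      have : 0 < Fintype.card κ' := Fintype.card_pos_iff.2 ⟨m⟩
      exact_mod_cast this.ne'
    refine mul_left_cancel₀ h3 ?_
    linear_combination e1
  refine ⟨fun a => if a = m then o else iv a, fun g g' hg a => ?_⟩
  change g' a = g (if a = m then o else iv a)
  by_cases ha : a = m
  · rw [if_pos ha, ha, hom g g' hg]
  · rw [if_neg ha]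
    have e1 := hR (iv a) (hiv1 a ha) g g' hg
    rw [hiv2 a ha, hom g g' hg] at e1
    linear_combination -e1

end v02aux

variable {κ κ' : Type*} [Fintype κ] [DecidableEq κ] [Fintype κ'] [DecidableEq κ'] {K : Type*} [Field K] [CharZero K]
  {𝓛 : Submodule K (Module.End K (κ → K) × Module.End K (κ' → K))}
  {L : Submodule K (Module.End K (κ → K))} {L' : Submodule K (Module.End K (κ' → K))}
  {d ε : κ → K} {d' ε' : κ' → K}

/-- PROOF. Write `R i j k l` for: `g i - g j = g' k - g' l` for all diagonal pairs.  (1) For `i ≠ j` there are `k ≠ l` with `R i j k l` (`Gz.root`).  (2) For `k ≠ l` there are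
`i ≠ j` with `R i j k l` (`Gz.root` for `h.symm`).  (3) By `Gz.vec` a relation `g' a + g' b + .. = g' a' + g' b' + ..` with the same number of terms, valid for all diagonal
pairs, is an equality of multisets (compare `∑ 1_a`, as functions on `κ'`).
Fix `o : κ`.  For `i ≠ o` choose `k i ≠ l i` with `R i o (k i) (l i)`.  For `i ≠ j`, both `≠ o`: with `R i j a b`: `g' (k i) - g' (l i) - g' (k j) + g' (l j) = g' a - g' b`, so the
multisets `{k i, l j, b}` and `{l i, k j, a}` are equal; as `k i ≠ l i`, `l j ≠ k j`, `a ≠ b`: if `k i ≠ k j` then `k i = a`, and `{l j, b} = {l i, k j}`, `l j = l i`.  So (4): `k i = k j` or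
`l i = l j`; not both, since then `g i = g j` for all `g` of sum zero.
(5) All `l i` are equal or all `k i` are equal: suppose `l i ≠ l j`, so `k i = k j`; for another `r`: if `k r ≠ k i` then `l r = l i` and `l r = l j`, contradiction; so all
`k r` are equal.
Case (I) `l i = m` for all `i ≠ o` (if `κ = {o, i}` take `m = l i`): the `k i` are different (`Gz.vec`/(4)) and `≠ m`.  Every `a : κ'`, `a ≠ m`, is some `k i`: by (2) `R i j a m` for some
`i ≠ j`; if `j = o` then `g' a - g' m = g' (k i) - g' m`, `a = k i`; if `i = o` then `g' a - g' m = g' m - g' (k j)`, impossible by (3) (`{a, k j} = {m, m}`); otherwise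
`g' a - g' m = g' (k i) - g' (k j)`, `{a, k j} = {k i, m}`, `a = k i`.  So `k` is a bijection from `κ \ {o}` to `κ' \ {m}`.  Sum over `i ≠ o`: `∑ (g i - g o) = -n g o`
(`n = card κ`, `∑ g = 0`), `∑ (g' (k i) - g' m) = -n g' m` (`∑ g' = 0`, `card κ' = n`), so `g o = g' m` and `g i = g' (k i)`: `s = 1`, `idx m = o`, `idx (k i) = i`.
Case (II) `k i = m` for all `i ≠ o`: in the same way every `a ≠ m` is some `l i`, `g i - g o = g' m - g' (l i)`, the sum gives `g o = -g' m`, `g i = -g' (l i)`: `s = -1`. -/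
theorem Gz.wt (h : Gz 𝓛 L L' d d') (hL : ∀ X, X ∈ L ↔ LinearMap.trace K (κ → K) X = 0)
    (hL' : ∀ X, X ∈ L' ↔ LinearMap.trace K (κ' → K) X = 0) (h2 : 2 ≤ Fintype.card κ) :
    ∃ (idx : κ' → κ) (s : ℚ), (s = 1 ∨ s = -1) ∧
      ∀ g g', (dg g, dg g') ∈ 𝓛 → ∀ k, g' k = (s : K) * g (idx k) := by
  classical
  -- the basic facts
  have hs : ∀ g g', (dg g, dg g') ∈ 𝓛 → ∑ k, g k = 0 := by
    intro g g' hg
    have h1 : dg g ∈ L := (h.fst _).2 ⟨_, hg⟩
    have h3 := (hL _).1 h1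
    rwa [trace_dg] at h3
  have hs' : ∀ g g', (dg g, dg g') ∈ 𝓛 → ∑ k, g' k = 0 := by
    intro g g' hg
    have h1 : dg g' ∈ L' := (h.snd _).2 ⟨_, hg⟩
    have h3 := (hL' _).1 h1
    rwa [trace_dg] at h3
  have hex : ∀ g : κ → K, ∑ k, g k = 0 → ∃ g', (dg g, dg g') ∈ 𝓛 := by
    intro g hg
    have h1 : dg g ∈ L := (hL _).2 (by rw [trace_dg, hg])
    obtain ⟨X', hX'⟩ := (h.fst _).1 h1
    obtain ⟨g', rfl⟩ := h.diag hX'
    exact ⟨g', hX'⟩
  have vec : ∀ u w : κ' → K, ∑ k, u k = ∑ k, w k →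
      (∀ g g', (dg g, dg g') ∈ 𝓛 → ∑ k, u k * g' k = ∑ k, w k * g' k) → u = w :=
    fun u w h1 h3 => h.vec hL' h1 h3
  have root : ∀ k l : κ', k ≠ l → ∃ i j, i ≠ j ∧ ∀ g g', (dg g, dg g') ∈ 𝓛 → g i - g j = g' k - g' l := by
    intro k l hkl
    obtain ⟨i, j, hij, hr⟩ := h.symm.root hL' hkl
    exact ⟨i, j, hij, fun g g' hg => (hr g' g hg).symm⟩
  have hcard : 1 < Fintype.card κ := h2
  obtain ⟨o, i0, hi0⟩ := Fintype.one_lt_card_iff.1 hcard
  -- the choice
  have hch : ∀ i, i ≠ o → ∃ p : κ' × κ', p.1 ≠ p.2 ∧ ∀ g g', (dg g, dg g') ∈ 𝓛 → g i - g o = g' p.1 - g' p.2 := by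
    intro i hi
    obtain ⟨k, l, hkl, hr⟩ := h.root hL hi
    exact ⟨(k, l), hkl, hr⟩
  obtain ⟨k0, _, _, _⟩ := h.root hL hi0.symm
  have : Nonempty (κ' × κ') := ⟨(k0, k0)⟩
  choose! p hp1 hp2 using hch
  have h4 : ∀ i j, i ≠ o → j ≠ o → (p i).1 = (p j).1 ∨ (p i).2 = (p j).2 := by
    intro i j hi hj
    by_cases hij : i = j
    · subst hij
      exact Or.inl rfl
    obtain ⟨a, b, _, hab⟩ := h.root hL hij
    refine v02_three (K := K) (a := a) (b := b) (v02_vec3 vec (fun g g' hg => ?_)) (hp1 i hi) (hp1 j hj)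
    have e1 := hp2 i hi g g' hg
    have e2 := hp2 j hj g g' hg
    have e3 := hab g g' hg
    linear_combination e3 - e1 + e2
  by_cases hall : ∀ i, i ≠ o → (p i).2 = (p i0).2
  · obtain ⟨idx, hidx⟩ := v02_case (fun g g' => (dg g, dg g') ∈ 𝓛) hs hs' hex vec root o (p i0).2
      (fun i => (p i).1) (fun i hi => by rw [← hall i hi]; exact hp1 i hi)
      (fun i hi g g' hg => by
        have e1 := hp2 i hi g g' hg
        rw [hall i hi] at e1
        exact e1)
    exact ⟨idx, 1, Or.inl rfl, fun g g' hg a => by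
      rw [hidx g g' hg a]; simp⟩
  · push Not at hall
    obtain ⟨j, hj, hjl⟩ := hall
    have hj1 : (p j).1 = (p i0).1 := (h4 j i0 hj hi0.symm).resolve_right hjl
    have hall2 : ∀ r, r ≠ o → (p r).1 = (p i0).1 := by
      intro r hr
      by_contra hne
      have e1 := (h4 r i0 hr hi0.symm).resolve_left hne
      have e2 := (h4 r j hr hj).resolve_left (by rw [hj1]; exact hne)
      exact hjl (by rw [← e2, e1])
    obtain ⟨idx, hidx⟩ := v02_case (fun g g' => (dg g, dg (-g')) ∈ 𝓛) (fun g g' hg => hs _ _ hg)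
      (fun g g' hg => by
        have e1 := hs' _ _ hg
        simpa using e1)
      (fun g hg => by
        obtain ⟨g', hg'⟩ := hex g hg
        exact ⟨-g', by rwa [neg_neg]⟩)
      (fun u w h1 h3 => vec u w h1 (fun g g' hg => by
        have e1 := h3 g (-g') (by rwa [neg_neg])
        simpa using e1))
      (fun k l hkl => by
        obtain ⟨i, j, hij, hr⟩ := root l k hkl.symm
        refine ⟨i, j, hij, fun g g' hg => ?_⟩
        have e1 := hr g _ hg
        simp only [Pi.neg_apply] at e1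
        linear_combination e1)
      o (p i0).1 (fun i => (p i).2) (fun i hi => by rw [← hall2 i hi]; exact (hp1 i hi).symm)
      (fun i hi g g' hg => by
        have e1 := hp2 i hi g _ hg
        rw [hall2 i hi] at e1
        simp only [Pi.neg_apply] at e1
        linear_combination e1)
    refine ⟨idx, -1, Or.inr rfl, fun g g' hg a => ?_⟩
    have e1 := hidx g (-g') (by rwa [neg_neg]) a
    simp only [Pi.neg_apply] at e1
    push_cast
    linear_combination -e1

end Pool.Agent.H34V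
end

-- from Lib.H34V.V03
section

/-!
# V03: two linear blocks
-/

set_option autoImplicit false
set_option linter.unusedSectionVars false
namespace Pool.Agent.H34V
open Module Matrix Pool.Agent.H53Toric Pool.Agent.H76P Pool.Agent.H34Z

variable {κ κ' : Type*} [Fintype κ] [DecidableEq κ] [Fintype κ'] [DecidableEq κ'] {K : Type*} [Field K] [CharZero K]
  {𝓛 : Submodule K (Module.End K (κ → K) × Module.End K (κ' → K))}
  {L : Submodule K (Module.End K (κ → K))} {L' : Submodule K (Module.End K (κ' → K))}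
  {d ε : κ → K} {d' ε' : κ' → K}

theorem v03_neg (g : κ → K) : -(dg g : Module.End K (κ → K)) = dg (-g) := by
  refine LinearMap.ext fun v => funext fun a => ?_
  rw [LinearMap.neg_apply, Pi.neg_apply, dg_apply, dg_apply, Pi.neg_apply, neg_mul]

theorem v03_lt {X : Module.End K (κ → K)} {X' : Module.End K (κ' → K)} (h : (X, X') ∈ 𝓛) :
    (-(adjE (1 : Matrix κ κ K) X), X') ∈ Lt 𝓛 := by
  rw [mem_Lt, map_neg, neg_neg, adjE_one_one]
  exact h

theorem v03_dg {g : κ → K} {X' : Module.End K (κ' → K)} : (dg g, X') ∈ Lt 𝓛 ↔ (dg (-g), X') ∈ 𝓛 := by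
  rw [mem_Lt, adjE_one_dg, v03_neg]

/-- PROOF. As the case `n` of `H34Z.Gr.iso` (H34Z/A14.lean), with `Gz.wt`: if `s = 1`: `iso_n` for `𝓛` (any `k₀`; `hsepL`: for `k ≠ l` the function `1_k - 1_l` is in `L'`); if
`s = -1`: `iso_n` for `Lt 𝓛`, with `-s = 1`. -/
theorem Gz.iso (h : Gz 𝓛 L L' d d') [Nonempty κ'] (hL : ∀ X, X ∈ L ↔ LinearMap.trace K (κ → K) X = 0)
    (hL' : ∀ X, X ∈ L' ↔ LinearMap.trace K (κ' → K) X = 0) (h2 : 2 ≤ Fintype.card κ) (hirr : Irr L) (hirr' : Irr L') :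
    (∃ T : (κ → K) →ₗ[K] (κ' → K), Function.Bijective T ∧ ∀ p ∈ 𝓛, ∀ v, T (p.1 v) = p.2 (T v)) ∨
    ∃ T : (κ → K) →ₗ[K] (κ' → K), Function.Bijective T ∧
      ∀ p ∈ 𝓛, ∀ v, T (adjE (1 : Matrix κ κ K) p.1 v) = -p.2 (T v) := by
  obtain ⟨idx, s, hs, hg⟩ := h.wt hL hL' h2
  obtain ⟨k₀⟩ := (inferInstance : Nonempty κ')
  have hdiag : ∀ g : κ → K, ∑ i, g i = 0 → ∃ g' : κ' → K, (dg g, dg g') ∈ 𝓛 := by
    intro g hg0
    have h1 : dg g ∈ L := by
      rw [hL, trace_dg]
      exact hg0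
    obtain ⟨X', hX'⟩ := (h.fst _).1 h1
    obtain ⟨g', rfl⟩ := h.diag hX'
    exact ⟨g', hX'⟩
  have hsepL : ∀ k l : κ', (∀ g g', (dg g, dg g') ∈ 𝓛 → g' k = g' l) → k = l := by
    intro k l H
    by_contra hne'
    have h1 : (dg (fun i => Pi.single (M := fun _ : κ' => K) k (1 : K) i - Pi.single (M := fun _ : κ' => K) l (1 : K) i) : Module.End K (κ' → K)) ∈ L' := by
      rw [hL', trace_dg, Finset.sum_sub_distrib, Finset.sum_pi_single', Finset.sum_pi_single']
      simp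
    obtain ⟨X, hX⟩ := (h.snd _).1 h1
    obtain ⟨g, rfl⟩ := h.symm.diag (mem_sw.2 hX)
    have h3 := H g _ hX
    rw [Pi.single_eq_same, Pi.single_eq_same, Pi.single_eq_of_ne hne', Pi.single_eq_of_ne (Ne.symm hne')] at h3
    have h4 : (2 : K) = 0 := by linear_combination h3
    exact two_ne_zero h4
  have hirr2 : ∀ W : Submodule K (κ' → K), (∀ p ∈ 𝓛, ∀ w ∈ W, p.2 w ∈ W) → W = ⊥ ∨ W = ⊤ := by
    intro W hW
    refine hirr' W fun X' hX w hw => ?_
    obtain ⟨X, hX'⟩ := (h.snd _).1 hX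
    exact hW _ hX' w hw
  rcases hs with hs1 | hs1
  · left
    refine iso_n (idx := idx) (s := fun _ => s) h.lie ?_ hirr2 (fun p hp => (hL p.1).1 ((h.fst _).2 ⟨p.2, hp⟩)) hdiag h2 hsepL
      (fun _ => Or.inl hs1) hg (k₀ := k₀) hs1
    intro W hW
    refine hirr W fun X hX w hw => ?_
    obtain ⟨X', hX'⟩ := (h.fst _).1 hX
    exact hW _ hX' w hw
  · right
    obtain ⟨T, hT, hT2⟩ := iso_n (𝓛 := Lt 𝓛) (lt_lie h.lie) (fun W hW => hirr W fun X hX w hw => by
        have h1 : -(adjE (1 : Matrix κ κ K) X) ∈ L := by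
          rw [hL, map_neg, trace_adjE_one, (hL X).1 hX, neg_zero]
        obtain ⟨X', hX'⟩ := (h.fst _).1 h1
        exact hW (X, X') hX' w hw)
      (fun W hW => hirr2 W fun p hp w hw => hW _ (v03_lt hp) w hw)
      (fun p hp => by
        have h1 : (-(adjE (1 : Matrix κ κ K) p.1), p.2) ∈ 𝓛 := hp
        have h2 := (hL _).1 ((h.fst _).2 ⟨_, h1⟩)
        rw [map_neg, trace_adjE_one, neg_eq_zero] at h2
        exact h2)
      (fun g hg0 => by
        obtain ⟨g', hg'⟩ := hdiag (-g) (by simp [hg0])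
        exact ⟨g', v03_dg.2 hg'⟩) h2
      (fun k l H => hsepL k l fun g g' hgg => H (-g) g' (v03_dg.2 (by rw [neg_neg]; exact hgg)))
      (idx := idx) (s := fun _ => -s) (fun k => by
        left; rw [hs1, neg_neg])
      (fun g g' hgg k => by
        rw [hg (-g) g' (v03_dg.1 hgg) k, Pi.neg_apply]
        push_cast
        ring) (k₀ := k₀) (by rw [hs1, neg_neg])
    refine ⟨T, hT, fun p hp v => ?_⟩
    have h3 := hT2 _ (v03_lt hp) v
    simp only [LinearMap.neg_apply, map_neg] at h3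
    rw [← h3, neg_neg]

end Pool.Agent.H34V
end

-- from Lib.H34V.V04
section

/-!
# V04: a symplectic block and a linear block
-/

set_option autoImplicit false
set_option linter.unusedSectionVars false
namespace Pool.Agent.H34V
open Module Matrix Pool.Agent.H53Toric Pool.Agent.H76P Pool.Agent.H34Z

variable {κ κ' : Type*} [Fintype κ] [DecidableEq κ] [Fintype κ'] [DecidableEq κ'] {K : Type*} [Field K] [CharZero K]
  {𝓛 : Submodule K (Module.End K (κ → K) × Module.End K (κ' → K))}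
  {L : Submodule K (Module.End K (κ → K))} {L' : Submodule K (Module.End K (κ' → K))}
  {d ε : κ → K} {d' ε' : κ' → K}

theorem v04_sub (f g : κ → K) : dg f - dg g = (dg (f - g) : Module.End K (κ → K)) := by
  refine LinearMap.ext fun v => funext fun a => ?_
  rw [LinearMap.sub_apply, Pi.sub_apply, dg_apply, dg_apply, dg_apply, Pi.sub_apply, sub_mul]

theorem v04_sum {ι : Type*} (T : Finset ι) (f : ι → κ → K) : ∑ i ∈ T, dg (f i) = (dg (∑ i ∈ T, f i) : Module.End K (κ → K)) := by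
  refine LinearMap.ext fun v => funext fun a => ?_
  rw [LinearMap.sum_apply, Finset.sum_apply, dg_apply, Finset.sum_apply, Finset.sum_mul]
  exact Finset.sum_congr rfl fun i _ => dg_apply _ _ _

theorem v04_inj {f : κ → K} (h : (dg f : Module.End K (κ → K)) = 0) : f = 0 := by
  funext a
  have h1 := congrFun (LinearMap.congr_fun h (fun _ => 1)) a
  rw [dg_apply, mul_one] at h1
  exact h1

theorem v04_nat {T : Finset κ} {g : κ → K} (h : ∀ i ∈ T, g i = 0 ∨ g i = 1) :
    ∃ N : ℕ, ∑ i ∈ T, g i = (N : K) ∧ (N = 0 → ∀ i ∈ T, g i = 0) := by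
  classical
  refine ⟨(T.filter fun i => g i = 1).card, ?_, ?_⟩
  · rw [← Finset.sum_boole]
    refine Finset.sum_congr rfl fun i hi => ?_
    rcases h i hi with h0 | h0
    · rw [h0, if_neg zero_ne_one]
    · rw [h0, if_pos rfl]
  · intro h1 i hi
    rcases h i hi with h0 | h0
    · exact h0
    · exfalso
      have h2 : i ∈ T.filter fun i => g i = 1 := Finset.mem_filter.2 ⟨hi, h0⟩
      rw [Finset.card_eq_zero.1 h1] at h2
      exact absurd h2 (Finset.notMem_empty i)

/-- PROOF. `dg_skew`: `ε (π i) - c = -(ε i - c)`, so `ε i + ε (π i) = 2 c` for all `i`.  The left side is `2`, `0` or `-2`.  If `c = 1` then `ε i = 1` for all `i`; if `c = -1` then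
`ε i = -1` for all `i`; both are excluded by `hne`. -/
theorem form_zero {J : Matrix κ κ K} {π : κ → κ} (hdet : IsUnit J.det) (hm : Mon J π)
    {c : K} (hε : adjE J (dg (fun k => ε k - c)) = -dg (fun k => ε k - c)) (hv : ∀ k, ε k = 1 ∨ ε k = -1)
    (hne : (∃ k, ε k = 1) ∧ ∃ k, ε k = -1) : c = 0 := by
  have h1 := (dg_skew hm hdet _).1 hε
  obtain ⟨⟨k, hk⟩, l, hl⟩ := hne
  have h2 := h1 k
  have h3 := h1 l
  rw [hk] at h2
  rw [hl] at h3
  rcases hv (π k) with h4 | h4
  · rcases hv (π l) with h5 | h5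
    · rw [h5] at h3
      have h6 : (2 : K) * c = 0 := by linear_combination -h3
      exact (mul_eq_zero.1 h6).resolve_left two_ne_zero
    · rw [h4] at h2
      rw [h5] at h3
      exfalso
      have h6 : (4 : K) = 0 := by linear_combination h2 - h3
      norm_num at h6
  · rw [h4] at h2
    have h6 : (2 : K) * c = 0 := by linear_combination -h2
    exact (mul_eq_zero.1 h6).resolve_left two_ne_zero

/-- PROOF. `T = {i | ε i = 1}`, `h i = 1_i - 1_(π i)` (`ε (π i) = -ε i` by `dg_skew`); `(dg (h i), dg (g i)) ∈ 𝓛` (`dg_skew`, `h.fst`, `Gz.diag`; choose `g i : κ' → K`).  By `cor_s` and `Gz.cor`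
(with `c = 0`): `g i k ∈ {0, 1}` if `ε' k = 1`, `∈ {0, -1}` if `ε' k = -1`.  `ε = ∑ i ∈ T, h i` (`dec_pi`), so `ε' - c' = ∑ i ∈ T, g i` (`h.right`).  Let `ε' k = 1`, `ε' l = -1`:
`1 - c' = ∑ g i k = N`, `-1 - c' = ∑ g i l = -N'` with natural numbers `N`, `N'`; so `N + N' = 2`.  If `N = N' = 1` then `c' = 0`.  If `N = 0` then `g i k = 0` for all `i ∈ T`, so
`g' k = 0` for all diagonal pairs (`g = ∑ i ∈ T, g i • h i` by `dec_pi`); but `dg (1_k - 1_l) ∈ L'` (`hL'`, `trace_dg`), it belongs to a diagonal pair (`h.symm.diag`) and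
has the value `1` at `k`.  The same for `N' = 0` and `l`. -/
theorem s_zero (h : Gz 𝓛 L L' d d') {J : Matrix κ κ K} {π : κ → κ} (hJ : Jᵀ = -J) (hdet : IsUnit J.det) (hm : Mon J π)
    (hL : ∀ X, X ∈ L ↔ adjE J X = -X) (hL' : ∀ X, X ∈ L' ↔ LinearMap.trace K (κ' → K) X = 0)
    {c' : K} (hε : (dg ε, dg (fun k => ε' k - c')) ∈ 𝓛) (hv : ∀ k, ε k = 1 ∨ ε k = -1) (hv' : ∀ k, ε' k = 1 ∨ ε' k = -1)
    (hne' : (∃ k, ε' k = 1) ∧ ∃ k, ε' k = -1) : c' = 0 := by
  have hinv := hm.inv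
  have hg : ∀ g : κ → K, dg g ∈ L ↔ ∀ i, g (π i) = -g i := fun g => (hL _).trans (dg_skew hm hdet g)
  have hεL : dg ε ∈ L := (h.fst _).2 ⟨_, hε⟩
  have hεπ : ∀ i, ε (π i) = -ε i := (hg ε).1 hεL
  obtain ⟨T, hTd⟩ : ∃ T : Finset κ, ∀ i, i ∈ T ↔ ε i = 1 := by
    classical
    exact ⟨Finset.univ.filter fun i => ε i = 1, fun i => by simp⟩
  have h11 : (1 : K) ≠ -1 := fun h => two_ne_zero (α := K) (by linear_combination h)
  have hT : ∀ i, i ∈ T ↔ π i ∉ T := by
    intro i
    rw [hTd, hTd, hεπ]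
    rcases hv i with h1 | h1
    · rw [h1]
      exact ⟨fun _ h => h11 h.symm, fun _ => rfl⟩
    · rw [h1, neg_neg]
      exact ⟨fun h => absurd h.symm h11, fun h => absurd rfl h⟩
  have hh : ∀ i : κ, dg (Pi.single i 1 - Pi.single (π i) 1 : κ → K) ∈ L := by
    intro i
    rw [hg]
    intro k
    rw [Pi.sub_apply, Pi.sub_apply]
    have e1 : (Pi.single i 1 : κ → K) (π k) = (Pi.single (π i) 1 : κ → K) k := by
      by_cases h1 : π k = i
      · have h2 : k = π i := by rw [← h1, hinv]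
        rw [h1, h2, Pi.single_eq_same, Pi.single_eq_same]
      · have h2 : k ≠ π i := fun h3 => h1 (by rw [h3, hinv])
        rw [Pi.single_eq_of_ne h1, Pi.single_eq_of_ne h2]
    have e2 : (Pi.single (π i) 1 : κ → K) (π k) = (Pi.single i 1 : κ → K) k := by
      by_cases h1 : k = i
      · rw [h1, Pi.single_eq_same, Pi.single_eq_same]
      · have h2 : π k ≠ π i := fun h3 => h1 (by rw [← hinv k, h3, hinv])
        rw [Pi.single_eq_of_ne h1, Pi.single_eq_of_ne h2]
    rw [e1, e2, neg_sub]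
  have hex : ∀ i : κ, ∃ g' : κ' → K, (dg (Pi.single i 1 - Pi.single (π i) 1 : κ → K), dg g') ∈ 𝓛 := by
    intro i
    obtain ⟨X', hX'⟩ := (h.fst _).1 (hh i)
    obtain ⟨g', rfl⟩ := h.diag hX'
    exact ⟨g', hX'⟩
  choose g hgp using hex
  have hsum : ∀ f : κ → K, (∀ i, f (π i) = -f i) → (dg f, dg (∑ i ∈ T, f i • g i)) ∈ 𝓛 := by
    intro f hfi
    have h1 : ∑ i ∈ T, f i • ((dg (Pi.single i 1 - Pi.single (π i) 1 : κ → K) : Module.End K (κ → K)),
        (dg (g i) : Module.End K (κ' → K))) ∈ 𝓛 :=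
      Submodule.sum_mem _ fun i _ => 𝓛.smul_mem _ (hgp i)
    have h2 : ∑ i ∈ T, f i • ((dg (Pi.single i 1 - Pi.single (π i) 1 : κ → K) : Module.End K (κ → K)),
        (dg (g i) : Module.End K (κ' → K))) = (dg f, dg (∑ i ∈ T, f i • g i)) := by
      refine Prod.ext ?_ ?_
      · rw [Prod.fst_sum]
        simp only [Prod.smul_fst, ← dg_smul]
        rw [v04_sum]
        exact congrArg dg (dec_pi hinv hT hfi).symm
      · rw [Prod.snd_sum]
        simp only [Prod.smul_snd, ← dg_smul]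
        rw [v04_sum]
    rwa [h2] at h1
  have hfun : ∀ (f : κ → K) (f' : κ' → K), (dg f, dg f') ∈ 𝓛 → f' = ∑ i ∈ T, f i • g i := by
    intro f f' hff
    have hfL : dg f ∈ L := (h.fst _).2 ⟨_, hff⟩
    have h1 := 𝓛.sub_mem hff (hsum f ((hg f).1 hfL))
    rw [Prod.mk_sub_mk, sub_self] at h1
    have h2 := h.right _ h1
    rw [v04_sub] at h2
    exact sub_eq_zero.1 (v04_inj h2)
  have hcor : ∀ i ∈ T, ∀ k, (ε' k = 1 → g i k = 0 ∨ g i k = 1) ∧ (ε' k = -1 → g i k = 0 ∨ g i k = -1) := by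
    intro i hi k
    have h1 := (hTd i).1 hi
    have h2 : (dg (fun k => ε k - 0), dg (fun k => ε' k - c')) ∈ 𝓛 := by
      simp only [sub_zero]
      exact hε
    exact h.cor h2 hv' (cor_s hJ hdet hm (fun X hX => (hL X).2 hX) h1 (by rw [hεπ, h1])) (hgp i) k
  have hval : ∀ k, ε' k - c' = ∑ i ∈ T, g i k := by
    intro k
    have h1 : ε' k - c' = (∑ i ∈ T, ε i • g i) k := congrFun (hfun ε _ hε) k
    rw [h1, Finset.sum_apply]
    refine Finset.sum_congr rfl fun i hi => ?_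
    rw [Pi.smul_apply, (hTd i).1 hi, smul_eq_mul, one_mul]
  obtain ⟨⟨k, hk⟩, l, hl⟩ := hne'
  have hkl : k ≠ l := by
    rintro rfl
    rw [hk] at hl
    exact h11 hl
  obtain ⟨f, hf⟩ : ∃ f : κ → K, (dg f, dg (Pi.single k 1 - Pi.single l 1 : κ' → K)) ∈ 𝓛 := by
    have h1 : dg (Pi.single k 1 - Pi.single l 1 : κ' → K) ∈ L' := by
      rw [hL', Pool.Agent.H34Z.trace_dg]
      simp only [Pi.sub_apply, Finset.sum_sub_distrib, Finset.sum_pi_single', Finset.mem_univ, if_true, sub_self]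
    obtain ⟨X, hX⟩ := (h.snd _).1 h1
    obtain ⟨f, rfl⟩ := h.symm.diag hX
    exact ⟨f, hX⟩
  have hf1 := hfun f _ hf
  obtain ⟨N, hN, hN0⟩ := v04_nat (T := T) (g := fun i => g i k) (fun i hi => (hcor i hi k).1 hk)
  obtain ⟨N', hN', hN0'⟩ := v04_nat (T := T) (g := fun i => -g i l) (fun i hi => by
    rcases (hcor i hi l).2 hl with h1 | h1
    · left; rw [h1, neg_zero]
    · right; rw [h1, neg_neg])
  have e1 := hval k
  have e2 := hval l
  rw [Finset.sum_neg_distrib, ← e2, hl] at hN'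
  rw [← e1, hk] at hN
  have e3 : ((N + N' : ℕ) : K) = ((2 : ℕ) : K) := by
    push_cast
    rw [← hN, ← hN']
    ring
  have e4 : N + N' = 2 := by exact_mod_cast e3
  have hNne : N ≠ 0 := by
    intro h0
    have h1 := congrFun hf1 k
    rw [Finset.sum_apply, Pi.sub_apply, Pi.single_eq_same, Pi.single_eq_of_ne hkl, sub_zero] at h1
    rw [Finset.sum_eq_zero (fun i hi => by rw [Pi.smul_apply, hN0 h0 i hi, smul_zero])] at h1
    exact one_ne_zero h1
  have hNne' : N' ≠ 0 := by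
    intro h0
    have h1 := congrFun hf1 l
    rw [Finset.sum_apply, Pi.sub_apply, Pi.single_eq_same, Pi.single_eq_of_ne (Ne.symm hkl), zero_sub] at h1
    rw [Finset.sum_eq_zero (fun i hi => by rw [Pi.smul_apply, neg_eq_zero.1 (hN0' h0 i hi), smul_zero])] at h1
    exact one_ne_zero (neg_eq_zero.1 h1)
  have hN1 : N = 1 := by omega
  rw [hN1, Nat.cast_one] at hN
  linear_combination -hN

end Pool.Agent.H34V
end

-- from Lib.H34Z.A14
section

/-!
# A14: graphs and isomorphisms, all cases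
-/

set_option autoImplicit false
set_option linter.unusedSectionVars false
namespace Pool.Agent.H34Z
open Module Matrix Pool.Agent.H53Toric Pool.Agent.H76P

variable {κ κ' : Type*} [Fintype κ] [DecidableEq κ] [Fintype κ'] [DecidableEq κ'] {K : Type*} [Field K] [CharZero K]
  {𝓛 : Submodule K (Module.End K (κ → K) × Module.End K (κ' → K))}
  {L : Submodule K (Module.End K (κ → K))} {L' : Submodule K (Module.End K (κ' → K))}
  {d ε : κ → K} {d' ε' : κ' → K}

theorem a14_neg (g : κ → K) : -(dg g : Module.End K (κ → K)) = dg (-g) := by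
  refine LinearMap.ext fun v => funext fun a => ?_
  rw [LinearMap.neg_apply, Pi.neg_apply, dg_apply, dg_apply, Pi.neg_apply, neg_mul]

theorem a14_lt {X : Module.End K (κ → K)} {X' : Module.End K (κ' → K)} (h : (X, X') ∈ 𝓛) :
    (-(adjE (1 : Matrix κ κ K) X), X') ∈ Lt 𝓛 := by
  rw [mem_Lt, map_neg, neg_neg, adjE_one_one]
  exact h

theorem a14_dg {g : κ → K} {X' : Module.End K (κ' → K)} : (dg g, X') ∈ Lt 𝓛 ↔ (dg (-g), X') ∈ 𝓛 := by
  rw [mem_Lt, adjE_one_dg, a14_neg]

/-- PROOF. Cases of `hL`.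
`s`, `o`: `Gr.wt_so`, `Gr.iso_so`: the first alternative.
`n`: `Gr.wt_n` gives `idx`, `s`; let `k₀ : κ'` be any element.
If `s k₀ = 1`: `iso_n` for `𝓛` (`hdiag`: `dg g ∈ L` by `trace_dg`, `h.fst`, `h.diag`; `hsepL`: `fb_sep` for `L'` with `h.snd`, `h.diag'`, `h.eps`;
`hirr`: for `p = (X, X')`, `X ∈ L` iff `∃ X', (X, X') ∈ 𝓛`).
If `s k₀ = -1`: `iso_n` for `Lt 𝓛` with `idx`, `-s`: `lt_lie`; `(dg g, dg g') ∈ Lt 𝓛` iff `(dg (-g), dg g') ∈ 𝓛` (`adjE_one_dg`), so
`g' k = s k * (-g (idx k)) = (-s k) * g (idx k)`; the first projection of `Lt 𝓛` is `{X | -adjE 1 X ∈ L} = L` (`trace_adjE_one`); it gives `T` with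
`T (p.1 v) = p.2 (T v)` for all `p ∈ Lt 𝓛`; for `(X, X') ∈ 𝓛` the pair `(-adjE 1 X, X')` is in `Lt 𝓛` (`adjE_one_one`): the second alternative. -/
theorem Gr.iso (h : Gr 𝓛 L L' d d' ε ε') [Nonempty κ'] {t t' : Prop} {J : Matrix κ κ K} {J' : Matrix κ' κ' K}
    (hL : FB t L J) (hL' : FB t' L' J') (hirr : Irr L) (hirr' : Irr L') :
    (∃ T : (κ → K) →ₗ[K] (κ' → K), Function.Bijective T ∧ ∀ p ∈ 𝓛, ∀ v, T (p.1 v) = p.2 (T v)) ∨
    ∃ T : (κ → K) →ₗ[K] (κ' → K), Function.Bijective T ∧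
      ∀ p ∈ 𝓛, ∀ v, T (adjE (1 : Matrix κ κ K) p.1 v) = -p.2 (T v) := by
  cases hL with
  | s ht π hJ hdet hm hL =>
    obtain ⟨idx, hg⟩ := h.wt_so (Or.inl hJ) hdet hm hL
    exact Or.inl (h.iso_so hdet hm hL hirr hirr' hL' hg)
  | o ht π hJ hdet hm hL h6 h8 =>
    obtain ⟨idx, hg⟩ := h.wt_so (Or.inr ⟨hJ, h6, h8⟩) hdet hm hL
    exact Or.inl (h.iso_so hdet hm hL hirr hirr' hL' hg)
  | n ht hL h2 =>
    obtain ⟨idx, s, hs, hg⟩ := h.wt_n hL h2
    obtain ⟨k₀⟩ := (inferInstance : Nonempty κ')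
    have hεL' : dg ε' ∈ L' := (h.snd _).2 ⟨_, h.eps⟩
    have hdiag : ∀ g : κ → K, ∑ i, g i = 0 → ∃ g' : κ' → K, (dg g, dg g') ∈ 𝓛 := by
      intro g hg0
      have h1 : dg g ∈ L := by
        rw [hL, trace_dg]
        exact hg0
      obtain ⟨X', hX'⟩ := (h.fst _).1 h1
      obtain ⟨g', rfl⟩ := h.diag hX'
      exact ⟨g', hX'⟩
    have hsepL : ∀ k l : κ', (∀ g g', (dg g, dg g') ∈ 𝓛 → g' k = g' l) → k = l := by
      intro k l H
      by_contra hne'
      obtain ⟨g', hg', hsep⟩ := fb_sep hL' hεL' h.val' hne'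
      obtain ⟨X, hX⟩ := (h.snd _).1 hg'
      obtain ⟨g, rfl⟩ := h.diag' hX
      exact hsep (H g g' hX)
    have hirr2 : ∀ W : Submodule K (κ' → K), (∀ p ∈ 𝓛, ∀ w ∈ W, p.2 w ∈ W) → W = ⊥ ∨ W = ⊤ := by
      intro W hW
      refine hirr' W fun X' hX w hw => ?_
      obtain ⟨X, hX'⟩ := (h.snd _).1 hX
      exact hW _ hX' w hw
    rcases hs k₀ with hk₀ | hk₀
    · left
      refine iso_n h.lie ?_ hirr2 (fun p hp => (hL p.1).1 ((h.fst _).2 ⟨p.2, hp⟩)) hdiag h2 hsepL hs hg hk₀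
      intro W hW
      refine hirr W fun X hX w hw => ?_
      obtain ⟨X', hX'⟩ := (h.fst _).1 hX
      exact hW _ hX' w hw
    · right
      obtain ⟨T, hT, hT2⟩ := iso_n (𝓛 := Lt 𝓛) (lt_lie h.lie) (fun W hW => hirr W fun X hX w hw => by
          have h1 : -(adjE (1 : Matrix κ κ K) X) ∈ L := by
            rw [hL, map_neg, trace_adjE_one, (hL X).1 hX, neg_zero]
          obtain ⟨X', hX'⟩ := (h.fst _).1 h1
          exact hW (X, X') hX' w hw)
        (fun W hW => hirr2 W fun p hp w hw => hW _ (a14_lt hp) w hw)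
        (fun p hp => by
          have h1 : (-(adjE (1 : Matrix κ κ K) p.1), p.2) ∈ 𝓛 := hp
          have h2 := (hL _).1 ((h.fst _).2 ⟨_, h1⟩)
          rw [map_neg, trace_adjE_one, neg_eq_zero] at h2
          exact h2)
        (fun g hg0 => by
          obtain ⟨g', hg'⟩ := hdiag (-g) (by simp [hg0])
          exact ⟨g', a14_dg.2 hg'⟩) h2
        (fun k l H => hsepL k l fun g g' hgg => H (-g) g' (a14_dg.2 (by rw [neg_neg]; exact hgg)))
        (idx := idx) (s := fun k => -s k) (fun k => by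
          rcases hs k with h3 | h3
          · right; rw [h3]
          · left; rw [h3, neg_neg])
        (fun g g' hgg k => by
          rw [hg (-g) g' (a14_dg.1 hgg) k, Pi.neg_apply]
          push_cast
          ring) (k₀ := k₀) (by rw [hk₀, neg_neg])
      refine ⟨T, hT, fun p hp v => ?_⟩
      have h3 := hT2 _ (a14_lt hp) v
      simp only [LinearMap.neg_apply, map_neg] at h3
      rw [← h3, neg_neg]

end Pool.Agent.H34Z
end
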