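import Mathlib.LinearAlgebra.QuadraticForm.Basic
import Pool.Agent.Lib.H1M.RC.D_H76Q_Q1
import Pool.Agent.Lib.H1M.RC.D_H76Q_Q5
import Pool.Agent.Lib.H1M.RC.D_H76U_Defs
import Pool.Agent.Lib.H1M.RC.M012
import Pool.Agent.Lib.H1M.RC.M044
import Pool.Agent.Lib.H1M.RC.M045

/-! Merged copies (to shorten the build) of Lib.H34V.V10, Lib.H34V.V12, Lib.H34Z.A15, Lib.H86L.L4, Lib.H45K.K11, Lib.H45K.K12a, Lib.H45K.K12b. -/

-- from Lib.H34V.V10
section

/-!
# V10: roots of an orthogonal block and of a linear block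
-/

set_option autoImplicit false
set_option linter.unusedSectionVars false
namespace Pool.Agent.H34V
open Module Matrix Pool.Agent.H53Toric Pool.Agent.H76P Pool.Agent.H34Z

variable {κ κ' : Type*} [Fintype κ] [DecidableEq κ] [Fintype κ'] [DecidableEq κ'] {K : Type*} [Field K] [CharZero K]
  {𝓛 : Submodule K (Module.End K (κ → K) × Module.End K (κ' → K))}
  {L : Submodule K (Module.End K (κ → K))} {L' : Submodule K (Module.End K (κ' → K))}
  {d : κ → K} {d' : κ' → K} {J : Matrix κ κ K} {π : κ → κ}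

theorem v10_phi (Y : Matrix κ κ K) (a b : κ) : phi Y (Pi.single b 1) a = Y a b := by
  rw [phi_apply, Matrix.mulVec_single_one, Matrix.col_apply]

/-- entries of skew operators -/
theorem v10_entry (hdet : IsUnit J.det) (hm : Mon J π) {X : Module.End K (κ → K)}
    (hX : adjE J X = -X) (a b : κ) :
    X (Pi.single b 1) a * J a (π a) = -(J b (π b) * X (Pi.single (π a) 1) (π b)) := by
  obtain ⟨Y, rfl⟩ := (phi (ι := κ) (K := K)).surjective X
  rw [skew_iff hdet] at hX
  have s1 : (Yᵀ * J) b (π a) = Y a b * J a (π a) := by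
    rw [Matrix.mul_apply, Finset.sum_eq_single a]
    · rfl
    · intro c _ hc
      rw [hm.col (by rw [hm.inv]; exact hc), mul_zero]
    · intro hh
      exact absurd (Finset.mem_univ _) hh
  have s2 : (J * Y) b (π a) = J b (π b) * Y (π b) (π a) := by
    rw [Matrix.mul_apply, Finset.sum_eq_single (π b)]
    · intro c _ hc
      rw [hm.zero b c hc, zero_mul]
    · intro hh
      exact absurd (Finset.mem_univ _) hh
  have h1 := congrFun (congrFun hX b) (π a)
  rw [Matrix.add_apply, Matrix.zero_apply, s1, s2] at h1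
  rw [v10_phi, v10_phi]
  linear_combination h1

theorem v10_g (hm : Mon J π) (a i : κ) :
    (Pi.single a (1 : K) - Pi.single (π a) 1 : κ → K) (π i) = -(Pi.single a (1 : K) - Pi.single (π a) 1 : κ → K) i := by
  have e1 : (π i = a) = (i = π a) :=
    propext ⟨fun h => by rw [← h, hm.inv], fun h => by rw [h, hm.inv]⟩
  have e2 : (π i = π a) = (i = a) :=
    propext ⟨fun h => by rw [← hm.inv i, h, hm.inv], fun h => by rw [h]⟩
  simp only [Pi.sub_apply, Pi.single_apply, e1, e2]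
  ring

theorem v10_pair (h : Gz 𝓛 L L' d d') (hdet : IsUnit J.det) (hm : Mon J π)
    (hL : ∀ X, X ∈ L ↔ adjE J X = -X) (a : κ) :
    ∃ g', (dg (Pi.single a (1 : K) - Pi.single (π a) 1), dg g') ∈ 𝓛 := by
  obtain ⟨X', hX'⟩ := (h.fst _).1 ((hL _).2 ((dg_skew hm hdet _).2 fun i => v10_g (K := K) hm a i))
  obtain ⟨g', rfl⟩ := h.diag hX'
  exact ⟨g', hX'⟩

theorem v10_skew (h : Gz 𝓛 L L' d d') (hdet : IsUnit J.det) (hm : Mon J π)
    (hL : ∀ X, X ∈ L ↔ adjE J X = -X) {g : κ → K} {X' : Module.End K (κ' → K)} (hg : (dg g, X') ∈ 𝓛) (i : κ) :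
    g (π i) = -g i :=
  (dg_skew hm hdet g).1 ((hL _).1 ((h.fst _).2 ⟨_, hg⟩)) i

theorem v10_tr (h : Gz 𝓛 L L' d d') {E : Module.End K (κ → K)} {E' : Module.End K (κ' → K)}
    (hE : (E, E') ∈ 𝓛) {k l : κ'} (hkl : E' (Pi.single l 1) k ≠ 0) {g : κ → K} {g' : κ' → K}
    (hgg : (dg g, dg g') ∈ 𝓛) {s : K} (hs : dg g * E - E * dg g = s • E) : g' k - g' l = s := by
  have h1 := h.lie _ hgg _ hE
  simp only at h1
  rw [hs] at h1
  have h4 := 𝓛.smul_mem s hE
  rw [Prod.smul_mk] at h4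
  have h5 := v01_uniq h h1 h4
  have h6 := congrFun (congrArg (fun T : Module.End K (κ' → K) => T (Pi.single l 1)) h5) k
  rw [v01_lr, LinearMap.smul_apply, Pi.smul_apply, smul_eq_mul] at h6
  exact mul_right_cancel₀ hkl h6

theorem v10_ne {E : Module.End K (κ' → K)} (hE : E ≠ 0) : ∃ k l, E (Pi.single l 1) k ≠ 0 := by
  by_contra hcon
  push Not at hcon
  refine hE (H25Y.ext_entry fun a b => ?_)
  rw [hcon a b, LinearMap.zero_apply, Pi.zero_apply]

/-- A root of the orthogonal algebra is a root of the other algebra.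
PROOF. `E = phi (J i' i • single i j 1 - J j j' • single j' i' 1)` with `i' = π i`, `j' = π j` (up to the sign and the constants: see the element `E` in the proof of `H34Z.cor_o`, H34Z/A03, with
`j'` in place of `j`; the condition is `Eᵀ J + J E = 0`, `skew_iff hdet`) is in `L`, it is not zero since `(i, j) ≠ (j', i')` (`j ≠ i'`).  Let `(E, E') ∈ 𝓛` (`h.fst`), `E' ≠ 0` (`h.left`), and choose an
entry `E' (Pi.single l 1) k ≠ 0`.  For a diagonal pair: `g (π a) = -g a` (`dg_skew`), so `[dg g, E] = (g i - g j) • E`, and `[dg g', E'] = (g i - g j) • E'` (`h.lie`, `h.right`, as in `Gz.root`,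
V01), so `g' k - g' l = g i - g j`.  `k ≠ l`: otherwise `g i = g j` for all diagonal pairs, but `g = 1_i - 1_(π i)` is one (`dg_skew`, `h.fst`, `Gz.diag`) and has `g i = 1`, `g j = 0`.
The conjugate of `E` with `d` has the entries `d i / d j` times the old one at `(i, j)` and `d j' / d i'` times the old one at `(j', i')`; it is in `L` (`h.cnj`, `h.fst`), so skew, so both
factors are equal and the conjugate is `(d i / d j) • E`; by `h.cnj`, `h.right` the conjugate of `E'` is `(d i / d j) • E'`, so `d' k / d' l = d i / d j`. -/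
theorem so_root (h : Gz 𝓛 L L' d d') (hJ : Jᵀ = J) (hdet : IsUnit J.det) (hm : Mon J π) (hne : ∀ i, π i ≠ i)
    (hL : ∀ X, X ∈ L ↔ adjE J X = -X) {i j : κ} (hij : i ≠ j) (hji : j ≠ π i) :
    ∃ k l, k ≠ l ∧ (∀ g g', (dg g, dg g') ∈ 𝓛 → g i - g j = g' k - g' l) ∧ d i * d' l = d j * d' k := by
  obtain ⟨M, hM⟩ : ∃ M, M = a03_M J π i (π j) := ⟨_, rfl⟩
  have hEL : phi M ∈ L := by
    rw [hL, skew_iff hdet, hM]
    exact a03_skew hm hJ i (π j)
  obtain ⟨E', hE'⟩ := (h.fst _).1 hEL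
  have hMe : ∀ a b, M a b = (if a = i ∧ b = j then J (π j) j else 0) -
      (if a = π j ∧ b = π i then J i (π i) else 0) := by
    intro a b
    rw [hM]
    unfold a03_M
    rw [hm.inv, Matrix.sub_apply, Matrix.single_apply, Matrix.single_apply]
    congr 1
    · exact if_congr ⟨fun h1 => ⟨h1.1.symm, h1.2.symm⟩, fun h1 => ⟨h1.1.symm, h1.2.symm⟩⟩ rfl rfl
    · exact if_congr ⟨fun h1 => ⟨h1.1.symm, h1.2.symm⟩, fun h1 => ⟨h1.1.symm, h1.2.symm⟩⟩ rfl rfl
  have hij' : i ≠ π j := fun h1 => hji (by rw [h1, hm.inv])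
  have hMij : M i j = J (π j) j := by
    rw [hMe, if_pos ⟨rfl, rfl⟩, if_neg (fun h1 => hij' h1.1), sub_zero]
  have hJj : J (π j) j ≠ 0 := by
    have h1 := hm.ne (π j)
    rwa [hm.inv] at h1
  have hMij0 : M i j ≠ 0 := by rw [hMij]; exact hJj
  have hE'0 : E' ≠ 0 := by
    intro h0
    rw [h0] at hE'
    have h1 := h.left _ hE'
    apply hMij0
    rw [← v10_phi M i j, h1]
    rfl
  obtain ⟨k, l, hkl⟩ := v10_ne hE'0
  have hbr : ∀ g g', (dg g, dg g') ∈ 𝓛 → dg g * phi M - phi M * dg g = (g i - g j) • phi M := by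
    intro g g' hgg
    have h1 := v10_skew h hdet hm hL hgg
    rw [a03_dg, ← map_mul, ← map_mul, ← map_sub, ← map_smul, hM,
      a03_brM g i (π j) (g i - g j) (by rw [hm.inv]) (by rw [h1, h1]; ring)]
  have hall : ∀ g g', (dg g, dg g') ∈ 𝓛 → g i - g j = g' k - g' l :=
    fun g g' hgg => (v10_tr h hE' hkl hgg (hbr g g' hgg)).symm
  refine ⟨k, l, ?_, hall, ?_⟩
  · rintro rfl
    obtain ⟨g', hg'⟩ := v10_pair h hdet hm hL i
    have h1 := hall _ _ hg'
    rw [sub_self, Pi.sub_apply, Pi.sub_apply, Pi.single_eq_same, Pi.single_eq_of_ne (hne i).symm,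
      Pi.single_eq_of_ne hij.symm, Pi.single_eq_of_ne hji] at h1
    norm_num at h1
  · have hc := h.cnj _ _ hE'
    have hce : ∀ a b, (dg d * phi M * dg (fun k => (d k)⁻¹)) (Pi.single b 1) a =
        d a * M a b * (d b)⁻¹ := by
      intro a b
      rw [Module.End.mul_apply, Module.End.mul_apply, H25Y.dg_single, map_smul, map_smul,
        Pi.smul_apply, smul_eq_mul, dg_apply, v10_phi]
      ring
    have hce' : (dg d' * E' * dg (fun k => (d' k)⁻¹)) (Pi.single l 1) k =
        d' k * E' (Pi.single l 1) k * (d' l)⁻¹ := by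
      rw [Module.End.mul_apply, Module.End.mul_apply, H25Y.dg_single, map_smul, map_smul,
        Pi.smul_apply, smul_eq_mul, dg_apply]
      ring
    have hs := (hL _).1 ((h.fst _).2 ⟨_, hc⟩)
    have e1 := v10_entry hdet hm hs i j
    have e2 := v10_entry hdet hm ((hL _).1 hEL) i j
    rw [hce, hce] at e1
    rw [v10_phi, v10_phi] at e2
    have hα : d i * (d j)⁻¹ = d (π j) * (d (π i))⁻¹ := by
      have h2 : M i j * J i (π i) ≠ 0 := mul_ne_zero hMij0 (hm.ne i)
      apply mul_right_cancel₀ h2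
      linear_combination e1 - d (π j) * (d (π i))⁻¹ * e2
    have hcs : dg d * phi M * dg (fun k => (d k)⁻¹) = (d i * (d j)⁻¹) • phi M := by
      refine H25Y.ext_entry fun a b => ?_
      rw [hce, LinearMap.smul_apply, Pi.smul_apply, smul_eq_mul, v10_phi, hMe]
      by_cases h1 : a = i ∧ b = j
      · obtain ⟨rfl, rfl⟩ := h1
        ring
      · by_cases h2 : a = π j ∧ b = π i
        · obtain ⟨rfl, rfl⟩ := h2
          rw [hα]
          ring
        · rw [if_neg h1, if_neg h2]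
          ring
    rw [hcs] at hc
    have h4 := 𝓛.smul_mem (d i * (d j)⁻¹) hE'
    rw [Prod.smul_mk] at h4
    have h5 := v01_uniq h hc h4
    have h6 := congrFun (congrArg (fun T : Module.End K (κ' → K) => T (Pi.single l 1)) h5) k
    rw [hce', LinearMap.smul_apply, Pi.smul_apply, smul_eq_mul] at h6
    have h7 : d' k * (d' l)⁻¹ = d i * (d j)⁻¹ := by
      apply mul_right_cancel₀ hkl
      linear_combination h6
    have h8 := h.ne j
    have h9 := h.ne' l
    field_simp at h7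
    linear_combination -h7

/-- PROOF. `k = l`: then `g i = 0` for all diagonal pairs, but `g = 1_i - 1_(π i)` belongs to one.  `k ≠ l`: `E' = phi (single k l 1) ∈ L'` (trace zero); let `(X, E') ∈ 𝓛` (`h.snd`), `X ≠ 0`
(`h.right`), and `X (Pi.single b 1) a ≠ 0`.  As in `so_root` `g a - g b = g' k - g' l = 2 g i` for all diagonal pairs (`v01_lr`, `h.lie`, `h.left`).  `a ≠ b` (otherwise `g i = 0`, see above).
`b ≠ π a`: `X` is skew: with `X = phi Y`: `Yᵀ J + J Y = 0` at the entry `(b, b)` for `b = π a`: `2 J b a * Y a b = 0` (`J` is monomial and symmetric), but `Y a b ≠ 0`, `J b a ≠ 0`.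
`g = 1_a - 1_(π a)` belongs to a diagonal pair and has `g a = 1`, `g b = 0`, so `2 g i = 1`; but `g i ∈ {0, 1, -1}`. -/
theorem no_two (h : Gz 𝓛 L L' d d') (hJ : Jᵀ = J) (hdet : IsUnit J.det) (hm : Mon J π) (hne : ∀ i, π i ≠ i)
    (hL : ∀ X, X ∈ L ↔ adjE J X = -X) (hL' : ∀ X, X ∈ L' ↔ LinearMap.trace K (κ' → K) X = 0) {i : κ} {k l : κ'}
    (hR : ∀ g g', (dg g, dg g') ∈ 𝓛 → 2 * g i = g' k - g' l) : False := by
  have hz : ¬ ∀ g g', (dg g, dg g') ∈ 𝓛 → 2 * g i = 0 := by
    intro h0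
    obtain ⟨g', hg'⟩ := v10_pair h hdet hm hL i
    have h1 := h0 _ _ hg'
    rw [Pi.sub_apply, Pi.single_eq_same, Pi.single_eq_of_ne (hne i).symm] at h1
    norm_num at h1
  have hkl : k ≠ l := by
    rintro rfl
    exact hz fun g g' hgg => by rw [hR g g' hgg, sub_self]
  have htr : LinearMap.trace K (κ' → K) (phi (Matrix.single k l (1 : K))) = 0 := by
    have e : phi (Matrix.single k l (1 : K)) = Matrix.toLin' (Matrix.single k l (1 : K)) := by
      refine LinearMap.ext fun v => ?_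
      rw [phi_apply, Matrix.toLin'_apply]
    rw [e, Matrix.trace_toLin'_eq, Matrix.trace_single_eq_of_ne k l _ hkl]
  obtain ⟨X, hX⟩ := (h.snd _).1 ((hL' _).2 htr)
  have hX0 : X ≠ 0 := by
    intro h0
    rw [h0] at hX
    have h1 := h.right _ hX
    have h2 := v10_phi (Matrix.single k l (1 : K)) k l
    rw [h1, Matrix.single_apply_same, LinearMap.zero_apply, Pi.zero_apply] at h2
    exact zero_ne_one h2
  obtain ⟨a, b, hab⟩ := v10_ne hX0
  have hall : ∀ g g', (dg g, dg g') ∈ 𝓛 → g a - g b = 2 * g i := by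
    intro g g' hgg
    refine v10_tr (s := 2 * g i) h.symm (mem_sw.2 hX) hab (mem_sw.2 hgg) ?_
    rw [hR g g' hgg, a03_dg, ← map_mul, ← map_mul, ← map_sub, a03_br, map_smul]
  have hab' : a ≠ b := by
    rintro rfl
    exact hz fun g g' hgg => by rw [← hall g g' hgg, sub_self]
  have hs := (hL _).1 ((h.fst _).2 ⟨_, hX⟩)
  have hb : b ≠ π a := by
    rintro rfl
    have e1 := v10_entry hdet hm hs a (π a)
    rw [hm.inv] at e1
    have e2 : J (π a) a = J a (π a) := by
      have := congrFun (congrFun hJ a) (π a)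
      rwa [Matrix.transpose_apply] at this
    rw [e2] at e1
    have e3 : (2 : K) * (X (Pi.single (π a) 1) a * J a (π a)) = 0 := by linear_combination e1
    rcases mul_eq_zero.1 e3 with e4 | e4
    · exact two_ne_zero e4
    · exact mul_ne_zero hab (hm.ne a) e4
  obtain ⟨g', hg'⟩ := v10_pair h hdet hm hL a
  have h1 := hall _ _ hg'
  rw [Pi.sub_apply, Pi.sub_apply, Pi.sub_apply, Pi.single_eq_same, Pi.single_eq_of_ne (hne a).symm,
    Pi.single_eq_of_ne hab'.symm, Pi.single_eq_of_ne hb, Pi.single_apply, Pi.single_apply] at h1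
  by_cases c1 : i = a
  · rw [if_pos c1, if_neg (fun c2 => hne a (c2.symm.trans c1))] at h1
    norm_num at h1
  · by_cases c2 : i = π a
    · rw [if_neg c1, if_pos c2] at h1
      have h2 : (3 : K) = 0 := by linear_combination h1
      exact three_ne_zero h2
    · rw [if_neg c1, if_neg c2] at h1
      norm_num at h1

end Pool.Agent.H34V
end

-- from Lib.H34V.V12
section

/-!
# V12: an orthogonal block of rank six and a linear block of rank four: the eigenvalues
-/

set_option autoImplicit false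
set_option linter.unusedSectionVars false
namespace Pool.Agent.H34V
open Module Matrix Pool.Agent.H53Toric Pool.Agent.H76P Pool.Agent.H34Z

variable {κ κ' : Type*} [Fintype κ] [DecidableEq κ] [Fintype κ'] [DecidableEq κ'] {K : Type*} [Field K] [CharZero K]
  {𝓛 : Submodule K (Module.End K (κ → K) × Module.End K (κ' → K))}
  {L : Submodule K (Module.End K (κ → K))} {L' : Submodule K (Module.End K (κ' → K))}
  {d : κ → K} {d' : κ' → K} {J : Matrix κ κ K} {π : κ → κ}

theorem v12_choose {κ : Type*} [Fintype κ] [DecidableEq κ] (h6 : Fintype.card κ = 6) (i a : κ) :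
    ∃ j, j ≠ i ∧ j ≠ a := by
  by_contra hcon
  push Not at hcon
  have h1 : (Finset.univ : Finset κ) ⊆ {i, a} := fun j _ => by
    by_cases hj : j = i
    · simp [hj]
    · simp [hcon j hj]
  have h2 := Finset.card_le_card h1
  rw [Finset.card_univ, h6] at h2
  have h3 := Finset.card_le_two (a := i) (b := a)
  omega

theorem v12_prod {x y z x' y' z' : κ'}
    (he : ∀ a, ((if a = x then (1 : K) else 0) + (if a = y then 1 else 0)) + (if a = z then 1 else 0) =
      ((if a = x' then (1 : K) else 0) + (if a = y' then 1 else 0)) + (if a = z' then 1 else 0)) :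
    d' x * d' y * d' z = d' x' * d' y' * d' z' := by
  have hn : ∀ a, ((if a = x then 1 else 0) + (if a = y then 1 else 0)) + (if a = z then 1 else 0) =
      ((if a = x' then 1 else 0) + (if a = y' then 1 else 0)) + (if a = z' then (1 : ℕ) else 0) := by
    intro a
    have h1 := he a
    exact_mod_cast h1
  have key : ∀ x y z : κ', d' x * d' y * d' z =
      ∏ a, d' a ^ (((if a = x then 1 else 0) + (if a = y then 1 else 0)) + (if a = z then (1 : ℕ) else 0)) := by
    intro x y z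
    simp only [pow_add, Finset.prod_mul_distrib, pow_ite, pow_one, pow_zero, Finset.prod_ite_eq',
      Finset.mem_univ, if_true]
  rw [key x y z, key x' y' z']
  exact Finset.prod_congr rfl fun a _ => by rw [hn a]

theorem v12_key (h : Gz 𝓛 L L' d d') (hL' : ∀ X, X ∈ L' ↔ LinearMap.trace K (κ' → K) X = 0)
    {x y z x' y' z' : κ'}
    (hg : ∀ g g', (dg g, dg g') ∈ 𝓛 → g' x + g' y + g' z = g' x' + g' y' + g' z') :
    d' x * d' y * d' z = d' x' * d' y' * d' z' := by
  refine v12_prod (K := K) fun a => ?_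
  have h1 : (fun a => ((if a = x then (1 : K) else 0) + (if a = y then 1 else 0)) + (if a = z then 1 else 0)) =
      fun a => ((if a = x' then (1 : K) else 0) + (if a = y' then 1 else 0)) + (if a = z' then 1 else 0) := by
    refine h.vec hL' ?_ fun g g' hgg => ?_
    · simp only [Finset.sum_add_distrib, Finset.sum_ite_eq', Finset.mem_univ, if_true]
    · simp only [add_mul, ite_mul, one_mul, zero_mul, Finset.sum_add_distrib, Finset.sum_ite_eq',
        Finset.mem_univ, if_true]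
      exact hg g g' hgg
  exact congrFun h1 a

/-- PROOF. Choose `j ≠ i`, `j ≠ π i` (six elements).  `so_root` for `i, j` gives `k ≠ l` with `g i - g j = g' k - g' l`, for `i, π j` (`π j ≠ i`, `π j ≠ π i`) it gives `m ≠ n` with
`g i + g j = g' m - g' n` (`g (π j) = -g j`).  The four elements are different: if `k = m` then `2 g j = g' l - g' n`; if `l = n` then `2 g j = g' m - g' k`; if `k = n` then
`2 g i = g' m - g' l`; if `l = m` then `2 g i = g' k - g' n`: impossible by `no_two`.  As `κ'` has four elements, `g' k + g' l + g' m + g' n = 0` (the trace of `dg g'` is zero, `h.snd`, `hL'`;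
`Finset.univ = {k, l, m, n}`), so `2 g i = g' k + g' m - g' l - g' n = 2 (g' k + g' m)`. -/
theorem six_wt (h : Gz 𝓛 L L' d d') (hJ : Jᵀ = J) (hdet : IsUnit J.det) (hm : Mon J π) (hne : ∀ i, π i ≠ i)
    (hL : ∀ X, X ∈ L ↔ adjE J X = -X) (h6 : Fintype.card κ = 6) (hL' : ∀ X, X ∈ L' ↔ LinearMap.trace K (κ' → K) X = 0)
    (h4 : Fintype.card κ' = 4) (i : κ) : ∃ k m, k ≠ m ∧ ∀ g g', (dg g, dg g') ∈ 𝓛 → g i = g' k + g' m := by
  obtain ⟨j, hji, hjp⟩ := v12_choose h6 i (π i)
  have hij' : i ≠ π j := fun h1 => hjp (by rw [h1, hm.inv])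
  have hpp : π j ≠ π i := fun h1 => hji (by rw [← hm.inv j, h1, hm.inv])
  obtain ⟨k, l, hkl, hR1, -⟩ := so_root h hJ hdet hm hne hL hji.symm hjp
  obtain ⟨m, n, hmn, hR2, -⟩ := so_root h hJ hdet hm hne hL hij' hpp
  have hR2' : ∀ g g', (dg g, dg g') ∈ 𝓛 → g i + g j = g' m - g' n := by
    intro g g' hgg
    have h1 := hR2 g g' hgg
    rw [v10_skew h hdet hm hL hgg] at h1
    rw [← h1]
    ring
  have no := fun (a : κ) (b c : κ') (hR : ∀ g g', (dg g, dg g') ∈ 𝓛 → 2 * g a = g' b - g' c) =>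
    no_two h hJ hdet hm hne hL hL' hR
  have hkm : k ≠ m := by
    rintro rfl
    refine no j l n fun g g' hgg => ?_
    have a1 := hR1 g g' hgg
    have a2 := hR2' g g' hgg
    linear_combination a2 - a1
  have hln : l ≠ n := by
    rintro rfl
    refine no j m k fun g g' hgg => ?_
    have a1 := hR1 g g' hgg
    have a2 := hR2' g g' hgg
    linear_combination a2 - a1
  have hkn : k ≠ n := by
    rintro rfl
    refine no i m l fun g g' hgg => ?_
    have a1 := hR1 g g' hgg
    have a2 := hR2' g g' hgg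
    linear_combination a2 + a1
  have hlm : l ≠ m := by
    rintro rfl
    refine no i k n fun g g' hgg => ?_
    have a1 := hR1 g g' hgg
    have a2 := hR2' g g' hgg
    linear_combination a2 + a1
  have huniv : ({k, l, m, n} : Finset κ') = Finset.univ := by
    apply Finset.eq_univ_of_card
    rw [h4, Finset.card_insert_of_notMem, Finset.card_insert_of_notMem, Finset.card_insert_of_notMem,
      Finset.card_singleton]
    · simp [hmn]
    · simp [hlm, hln]
    · simp [hkl, hkm, hkn]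
  refine ⟨k, m, hkm, fun g g' hgg => ?_⟩
  have hs : ∑ a, g' a = 0 := by
    have h1 := (hL' _).1 ((h.snd _).2 ⟨_, hgg⟩)
    rwa [trace_dg] at h1
  rw [← huniv, Finset.sum_insert (by simp [hkl, hkm, hkn]), Finset.sum_insert (by simp [hlm, hln]),
    Finset.sum_insert (by simp [hmn]), Finset.sum_singleton] at hs
  have a1 := hR1 g g' hgg
  have a2 := hR2' g g' hgg
  have h2 : (2 : K) ≠ 0 := two_ne_zero
  apply mul_left_cancel₀ h2
  linear_combination a1 + a2 - hs

/-- PROOF. Choose `f i ≠ e i` with `g i = g' (f i) + g' (e i)` by `six_wt`; write `D i = d' (f i) * d' (e i)` (not zero, `h.ne'`).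
(1) `j ≠ i`, `j ≠ π i`: `so_root` gives `k ≠ l` with `g i - g j = g' k - g' l` and `d i * d' l = d j * d' k`.  So `g' (f i) + g' (e i) + g' l = g' (f j) + g' (e j) + g' k` for all diagonal pairs, and by
`Gz.vec` the functions `1_(f i) + 1_(e i) + 1_l` and `1_(f j) + 1_(e j) + 1_k` from `κ'` to `K` are equal; so the multisets `{f i, e i, l}`, `{f j, e j, k}` are equal (`Multiset.ext`, count,
`Nat.cast_injective`), and their products under `d'`: `D i * d' l = D j * d' k`.  With `d i * d' l = d j * d' k`: `d i * D j * (d' k * d' l) = (d i * d' l) * (D j * d' k) =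
(d j * d' k) * (D i * d' l) = d j * D i * (d' k * d' l)`; cancel.
(2) `j = i`: trivial.  (3) `j = π i`: choose `s ≠ i, π i`; `d i * D s = d s * D i`, `d s * D j = d j * D s` by (1) (`s ≠ j`, `j ≠ π s` as `i ≠ s`), so
`d i * D j * D s = (d i * D s) * D j = d s * D i * D j = D i * (d j * D s)`; cancel `D s`. -/
theorem six_rel (h : Gz 𝓛 L L' d d') (hJ : Jᵀ = J) (hdet : IsUnit J.det) (hm : Mon J π) (hne : ∀ i, π i ≠ i)
    (hL : ∀ X, X ∈ L ↔ adjE J X = -X) (h6 : Fintype.card κ = 6) (hL' : ∀ X, X ∈ L' ↔ LinearMap.trace K (κ' → K) X = 0)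
    (h4 : Fintype.card κ' = 4) :
    ∃ f e : κ → κ', (∀ i, f i ≠ e i) ∧ ∀ i j, d i * d' (f j) * d' (e j) = d j * d' (f i) * d' (e i) := by
  choose f e hfe hw using fun i => six_wt h hJ hdet hm hne hL h6 hL' h4 i
  refine ⟨f, e, hfe, ?_⟩
  have one : ∀ i j, i ≠ j → j ≠ π i → d i * d' (f j) * d' (e j) = d j * d' (f i) * d' (e i) := by
    intro i j hij hji
    obtain ⟨k, l, hkl, hall, hd⟩ := so_root h hJ hdet hm hne hL hij hji
    have e1 := v12_key h hL' (x := f i) (y := e i) (z := l) (x' := f j) (y' := e j) (z' := k)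
      (fun g g' hgg => by
        have a1 := hall g g' hgg
        have a2 := hw i g g' hgg
        have a3 := hw j g g' hgg
        rw [a2, a3] at a1
        linear_combination a1)
    have h0 : d' k * d' l ≠ 0 := mul_ne_zero (h.ne' k) (h.ne' l)
    apply mul_right_cancel₀ h0
    linear_combination (d' (f j) * d' (e j) * d' k) * hd - (d j * d' k) * e1
  intro i j
  by_cases hij : i = j
  · rw [hij]
  by_cases hji : j = π i
  · obtain ⟨s, hsi, hsp⟩ := v12_choose h6 i (π i)
    have o1 := one i s hsi.symm hsp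
    have o2 := one s j (fun h1 => hsp (h1.trans hji)) (fun h1 => hsi (by
      rw [hji] at h1
      rw [← hm.inv s, ← h1, hm.inv]))
    have h0 : d' (f s) * d' (e s) ≠ 0 := mul_ne_zero (h.ne' _) (h.ne' _)
    apply mul_right_cancel₀ h0
    linear_combination (d' (f j) * d' (e j)) * o1 + (d' (f i) * d' (e i)) * o2
  · exact one i j hij hji

end Pool.Agent.H34V
end

-- from Lib.H34Z.A15
section

/-!
# A15: no irreducible Lie algebra respects a symmetric form in dimension two
-/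

set_option autoImplicit false
set_option linter.unusedSectionVars false
namespace Pool.Agent.H34Z
open Module Matrix Pool.Agent.H53Toric Pool.Agent.H76P

variable {κ : Type*} [Fintype κ] [DecidableEq κ] {K : Type*} [Field K] [CharZero K] [IsAlgClosed K] {J : Matrix κ κ K}
  {L : Submodule K (Module.End K (κ → K))}

/-- PROOF. Let `κ = {a, b}` (`Fintype.card_eq_two`).  For `X ∈ L` with the matrix `x`: `J * x` is skew (`skew_iff hdet`: `xᵀ J + J x = 0`, `Jᵀ = J`), so
`J * x = c • R` with `R = single a b 1 - single b a 1`, i.e. `x = c • (J⁻¹ * R)`.  `J⁻¹ * R` has an eigenvector `v ≠ 0` (`Module.End.exists_eigenvalue`), and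
`W = K ∙ v` is stable under all `X ∈ L`; `W ≠ ⊥`, and `W ≠ ⊤` since its dimension is `1` (`finrank_span_singleton`) and `finrank (κ → K) = 2`.  This
contradicts `hirr`. -/
theorem so_two (h2 : Fintype.card κ = 2) (hJ : Jᵀ = J) (hdet : IsUnit J.det) (hL : ∀ X ∈ L, adjE J X = -X)
    (hirr : Irr L) : False := by
  classical
  obtain ⟨a, b, hab, huniv⟩ := Finset.card_eq_two.1 (show (Finset.univ : Finset κ).card = 2 from h2)
  have hcase : ∀ i : κ, i = a ∨ i = b := by
    intro i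
    have h1 : i ∈ (Finset.univ : Finset κ) := Finset.mem_univ i
    rw [huniv] at h1
    simpa using h1
  set R : Matrix κ κ K := Matrix.single a b 1 - Matrix.single b a 1 with hR
  have hform : ∀ X ∈ L, ∃ c : K, X = c • phi (J⁻¹ * R) := by
    intro X hX
    obtain ⟨x, rfl⟩ := (phi (ι := κ) (K := K)).surjective X
    have h3 := (skew_iff hdet x).1 (hL _ hX)
    have h4 : (J * x)ᵀ = -(J * x) := by
      rw [Matrix.transpose_mul, hJ]
      exact eq_neg_of_add_eq_zero_left h3
    have h5 : ∀ i j, (J * x) j i = -(J * x) i j := fun i j => by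
      have := congrFun (congrFun h4 i) j
      rwa [Matrix.transpose_apply, Matrix.neg_apply] at this
    have h6 : ∀ i, (J * x) i i = 0 := fun i => by
      have h7 := h5 i i
      have h8 : (2 : K) * (J * x) i i = 0 := by linear_combination h7
      exact (mul_eq_zero.1 h8).resolve_left two_ne_zero
    have h9 : J * x = (J * x) a b • R := by
      ext i j
      rw [Matrix.smul_apply, hR, Matrix.sub_apply, smul_eq_mul]
      have e1 : ∀ i j i' j' : κ, Matrix.single i j (1 : K) i' j' = if i = i' ∧ j = j' then 1 else 0 :=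
        fun i j i' j' => by rw [Matrix.single_apply]
      rw [e1, e1]
      rcases hcase i with hi | hi <;> rcases hcase j with hj | hj
      · rw [hi, hj, h6, if_neg fun h => hab h.2.symm, if_neg fun h => hab h.1.symm, sub_zero, mul_zero]
      · rw [hi, hj, if_pos ⟨rfl, rfl⟩, if_neg fun h => hab h.1.symm, sub_zero, mul_one]
      · rw [hi, hj, if_neg fun h => hab h.1, if_pos ⟨rfl, rfl⟩, zero_sub, h5 a b, mul_neg, mul_one]
      · rw [hi, hj, h6, if_neg fun h => hab h.1, if_neg fun h => hab h.2, sub_zero, mul_zero]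
    refine ⟨(J * x) a b, ?_⟩
    rw [← map_smul]
    congr 1
    calc x = J⁻¹ * (J * x) := by rw [← mul_assoc, Matrix.nonsing_inv_mul _ hdet, one_mul]
      _ = J⁻¹ * ((J * x) a b • R) := by rw [← h9]
      _ = (J * x) a b • (J⁻¹ * R) := by rw [mul_smul_comm]
  have hne : Nonempty κ := ⟨a⟩
  obtain ⟨μ, hμ⟩ := Module.End.exists_eigenvalue (phi (J⁻¹ * R))
  obtain ⟨v, hv⟩ := hμ.exists_hasEigenvector
  have hv0 : v ≠ 0 := hv.2
  have hTv : phi (J⁻¹ * R) v = μ • v := hv.apply_eq_smul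
  rcases hirr (Submodule.span K {v}) (by
    intro X hX w hw
    obtain ⟨c, rfl⟩ := hform X hX
    obtain ⟨t, rfl⟩ := Submodule.mem_span_singleton.1 hw
    rw [LinearMap.smul_apply, map_smul, hTv]
    exact Submodule.smul_mem _ _ (Submodule.smul_mem _ _ (Submodule.smul_mem _ _ (Submodule.mem_span_singleton_self v)))) with h | h
  · exact hv0 (Submodule.span_singleton_eq_bot.1 h)
  · have h3 := finrank_span_singleton (K := K) hv0
    rw [h, finrank_top, Module.finrank_fintype_fun_eq_card, h2] at h3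
    omega

end Pool.Agent.H34Z
end

-- from Lib.H86L.L4
section

/-!
# L4: a positive involution: the complex conjugate of a component is linked with its conjugate
-/

set_option autoImplicit false
set_option linter.unusedSectionVars false
namespace Pool.Agent.H86L
open Module Matrix Pool.Agent.H76Q
open Pool.Agent.H76U (IsSplitting)
open Pool.Agent.H76RM (spanK)

variable {ι : Type*} [Fintype ι] [DecidableEq ι] {ψ : Matrix ι ι ℚ} {D : Subalgebra ℚ (Matrix ι ι ℚ)}

/-- The form `(u, v) ↦ tr (u v*)` on `D`, where `v*` is the adjoint of `v` for `ψ`. -/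
noncomputable def posF (ψ : Matrix ι ι ℚ) (D : Subalgebra ℚ (Matrix ι ι ℚ)) : LinearMap.BilinForm ℚ D :=
  LinearMap.mk₂ ℚ (fun u v => (u.1 * (ψ⁻¹ * v.1ᵀ * ψ)).trace)
    (fun u u' v => by
      show ((u.1 + u'.1) * _).trace = _
      rw [add_mul, Matrix.trace_add])
    (fun c u v => by
      show ((c • u.1) * _).trace = _
      rw [smul_mul_assoc, Matrix.trace_smul])
    (fun u v v' => by
      show (u.1 * (ψ⁻¹ * (v.1 + v'.1)ᵀ * ψ)).trace = _
      rw [Matrix.transpose_add, mul_add, add_mul, mul_add, Matrix.trace_add])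
    (fun c u v => by
      show (u.1 * (ψ⁻¹ * (c • v.1)ᵀ * ψ)).trace = _
      rw [Matrix.transpose_smul, mul_smul_comm, smul_mul_assoc, mul_smul_comm, Matrix.trace_smul])

theorem posF_apply (u v : D) : posF ψ D u v = (u.1 * (ψ⁻¹ * v.1ᵀ * ψ)).trace := rfl

theorem posF_symm (hψ : ψᵀ = -ψ) (hψ0 : ψ.det ≠ 0) (u v : D) : posF ψ D u v = posF ψ D v u := by
  have hdet : IsUnit ψ.det := hψ0.isUnit
  rw [posF_apply, posF_apply]
  have h1 : (ψ⁻¹)ᵀ = -ψ⁻¹ := by
    rw [Matrix.transpose_nonsing_inv, hψ]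
    apply Matrix.inv_eq_left_inv
    rw [neg_mul_neg, Matrix.nonsing_inv_mul _ hdet]
  calc (u.1 * (ψ⁻¹ * v.1ᵀ * ψ)).trace = ((u.1 * (ψ⁻¹ * v.1ᵀ * ψ))ᵀ).trace := (Matrix.trace_transpose _).symm
    _ = (ψᵀ * v.1 * (ψ⁻¹)ᵀ * u.1ᵀ).trace := by
        simp only [Matrix.transpose_mul, Matrix.transpose_transpose, Matrix.mul_assoc]
    _ = (ψ * (v.1 * ψ⁻¹ * u.1ᵀ)).trace := by
        rw [hψ, h1]
        congr 1
        simp only [Matrix.neg_mul, Matrix.mul_neg, neg_neg, Matrix.mul_assoc]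
    _ = ((v.1 * ψ⁻¹ * u.1ᵀ) * ψ).trace := Matrix.trace_mul_comm _ _
    _ = _ := by simp only [Matrix.mul_assoc]

/-- The complex conjugate of a complex matrix. -/
noncomputable def cj (X : Matrix ι ι ℂ) : Matrix ι ι ℂ := X.map (starRingEnd ℂ)

/-- Positivity over `ℂ`. -/
theorem pos_ne (hψ : ψᵀ = -ψ) (hψ0 : ψ.det ≠ 0)
    (hpos : ∀ d ∈ D, d ≠ 0 → 0 < (d * (ψ⁻¹ * dᵀ * ψ)).trace) {X : Matrix ι ι ℂ} (hX : X ∈ spanK ℂ D)
    (hX0 : X ≠ 0) :
    X * ((ψ.map (algebraMap ℚ ℂ))⁻¹ * (cj X)ᵀ * ψ.map (algebraMap ℚ ℂ)) ≠ 0 := by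
  classical
  have hdet : IsUnit ψ.det := hψ0.isUnit
  letI : Invertible (2 : ℚ) := invertibleOfNonzero two_ne_zero
  obtain ⟨v, hv⟩ := LinearMap.BilinForm.exists_orthogonal_basis (B := posF ψ D)
    ⟨fun u v => posF_symm hψ hψ0 u v⟩
  have hort : ∀ i k, i ≠ k → posF ψ D (v i) (v k) = 0 := fun i k hik => hv hik
  -- the expansion of `X`
  obtain ⟨x, hx⟩ : ∃ x : Fin (finrank ℚ D) → ℂ, X = ∑ i, x i • (v i).1.map (algebraMap ℚ ℂ) := by
    refine Submodule.span_induction (p := fun X _ => ∃ x : Fin (finrank ℚ D) → ℂ,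
      X = ∑ i, x i • (v i).1.map (algebraMap ℚ ℂ)) ?_ ?_ ?_ ?_ hX
    · rintro _ ⟨d, hd, rfl⟩
      refine ⟨fun i => ((v.repr ⟨d, hd⟩ i : ℚ) : ℂ), ?_⟩
      have h1 := congrArg Subtype.val (v.sum_repr ⟨d, hd⟩)
      have h2 : d = ∑ i, v.repr ⟨d, hd⟩ i • (v i).1 := by
        have h3 : ((∑ i, v.repr ⟨d, hd⟩ i • v i : D) : Matrix ι ι ℚ) = ∑ i, v.repr ⟨d, hd⟩ i • (v i).1 := by
          rw [AddSubmonoidClass.coe_finset_sum]
          rfl
        rw [← h3]
        exact h1.symm
      ext a b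
      rw [Matrix.map_apply]
      conv_lhs => rw [h2]
      rw [Matrix.sum_apply, Matrix.sum_apply, map_sum]
      refine Finset.sum_congr rfl fun i _ => ?_
      rw [Matrix.smul_apply, Matrix.smul_apply, Matrix.map_apply, smul_eq_mul, smul_eq_mul, map_mul]
      rfl
    · exact ⟨0, by simp⟩
    · rintro X Y _ _ ⟨x, hx⟩ ⟨y, hy⟩
      refine ⟨x + y, ?_⟩
      rw [hx, hy, ← Finset.sum_add_distrib]
      refine Finset.sum_congr rfl fun i _ => ?_
      rw [Pi.add_apply, add_smul]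
    · rintro c X _ ⟨x, hx⟩
      refine ⟨c • x, ?_⟩
      rw [hx, Finset.smul_sum]
      refine Finset.sum_congr rfl fun i _ => ?_
      rw [Pi.smul_apply, smul_assoc]
  have hcj : (cj X)ᵀ = ∑ i, (starRingEnd ℂ) (x i) • ((v i).1.map (algebraMap ℚ ℂ))ᵀ := by
    ext a b
    rw [Matrix.transpose_apply, cj, Matrix.map_apply, hx, Matrix.sum_apply, Matrix.sum_apply, map_sum]
    refine Finset.sum_congr rfl fun i _ => ?_
    rw [Matrix.smul_apply, Matrix.smul_apply, Matrix.transpose_apply, Matrix.map_apply, smul_eq_mul, smul_eq_mul, map_mul]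
    congr 1
    rw [eq_ratCast, map_ratCast]
  intro h0
  have hinvm : (ψ.map (algebraMap ℚ ℂ))⁻¹ = ψ⁻¹.map (algebraMap ℚ ℂ) := by
    apply Matrix.inv_eq_left_inv
    have h1 := congrArg (fun A : Matrix ι ι ℚ => A.map (algebraMap ℚ ℂ)) (Matrix.nonsing_inv_mul ψ hdet)
    simp only [Matrix.map_mul] at h1
    rw [h1, Matrix.map_one _ (map_zero _) (map_one _)]
  have htr : ∀ i k, ((v i).1.map (algebraMap ℚ ℂ) * ((ψ.map (algebraMap ℚ ℂ))⁻¹ * ((v k).1.map (algebraMap ℚ ℂ))ᵀ *
      ψ.map (algebraMap ℚ ℂ))).trace = algebraMap ℚ ℂ (posF ψ D (v i) (v k)) := by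
    intro i k
    rw [hinvm, posF_apply]
    have h1 : (v i).1.map (algebraMap ℚ ℂ) * (ψ⁻¹.map (algebraMap ℚ ℂ) * ((v k).1.map (algebraMap ℚ ℂ))ᵀ *
        ψ.map (algebraMap ℚ ℂ)) = ((v i).1 * (ψ⁻¹ * (v k).1ᵀ * ψ)).map (algebraMap ℚ ℂ) := by
      rw [Matrix.map_mul, Matrix.map_mul, Matrix.map_mul, Matrix.transpose_map]
    rw [h1]
    exact (AddMonoidHom.map_trace (algebraMap ℚ ℂ : ℚ →+* ℂ).toAddMonoidHom _).symm
  have hsum : (∑ i, (x i * (starRingEnd ℂ) (x i)) * algebraMap ℚ ℂ (posF ψ D (v i) (v i))) = 0 := by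
    have h1 := congrArg Matrix.trace h0
    rw [hcj, Matrix.trace_zero] at h1
    nth_rw 1 [hx] at h1
    rw [Finset.mul_sum, Finset.sum_mul, Finset.sum_mul, Matrix.trace_sum] at h1
    rw [← h1]
    refine Finset.sum_congr rfl fun i _ => ?_
    rw [Finset.mul_sum, Matrix.trace_sum, Finset.sum_eq_single i]
    · rw [mul_smul_comm, smul_mul_assoc, smul_mul_assoc, mul_smul_comm, smul_smul, Matrix.trace_smul, htr, smul_eq_mul]
    · intro k _ hki
      rw [mul_smul_comm, smul_mul_assoc, smul_mul_assoc, mul_smul_comm, smul_smul, Matrix.trace_smul, htr,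
        hort i k (Ne.symm hki), map_zero, smul_zero]
    · intro h
      exact absurd (Finset.mem_univ i) h
  have hreal : (∑ i, Complex.normSq (x i) * ((posF ψ D (v i) (v i) : ℚ) : ℝ)) = 0 := by
    have h1 : ((∑ i, Complex.normSq (x i) * ((posF ψ D (v i) (v i) : ℚ) : ℝ) : ℝ) : ℂ) = 0 := by
      rw [← hsum, Complex.ofReal_sum]
      refine Finset.sum_congr rfl fun i _ => ?_
      rw [Complex.mul_conj]
      push_cast
      rfl
    exact_mod_cast h1
  have hpos' : ∀ i, 0 < ((posF ψ D (v i) (v i) : ℚ) : ℝ) := by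
    intro i
    have h1 : (v i).1 ≠ 0 := by
      intro h2
      exact v.ne_zero i (Subtype.ext h2)
    exact_mod_cast hpos (v i).1 (v i).2 h1
  have hx0 : ∀ i, x i = 0 := by
    intro i
    have h1 := (Finset.sum_eq_zero_iff_of_nonneg (fun i _ =>
      mul_nonneg (Complex.normSq_nonneg (x i)) (hpos' i).le)).1 hreal i (Finset.mem_univ i)
    exact Complex.normSq_eq_zero.1 ((mul_eq_zero.1 h1).resolve_right (hpos' i).ne')
  apply hX0
  rw [hx]
  exact Finset.sum_eq_zero fun i _ => by rw [hx0 i, zero_smul]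


end Pool.Agent.H86L
end

-- from Lib.H45K.K11
section

/-! # K11: the p-adic valuation of the closure of Q_p -/

set_option autoImplicit false
set_option linter.unusedSectionVars false

namespace H45K
open Pool.Agent.H76Q

variable {p : ℕ} [hp : Fact p.Prime] {v : AlgebraicClosure ℚ_[p] → ℚ}

theorem pval_norm (hv : IsPVal p v) {x : AlgebraicClosure ℚ_[p]} (hx : x ≠ 0) : ‖(x : PadicAlgCl p)‖ = (p : ℝ) ^ (-(v x : ℝ)) := hv x hx

theorem pval_inj {a b : ℚ} (h : (p : ℝ) ^ (-(a : ℝ)) = (p : ℝ) ^ (-(b : ℝ))) : a = b := by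
  have h1 : (1 : ℝ) < p := by exact_mod_cast hp.out.one_lt
  have h2 := (Real.rpow_le_rpow_left_iff h1).1 h.le
  have h3 := (Real.rpow_le_rpow_left_iff h1).1 h.ge
  have h4 : (a : ℝ) = b := by linarith
  exact_mod_cast h4

theorem pval_isVal (hv : IsPVal p v) : IsVal v := by
  have h1 : (1 : ℝ) < p := by exact_mod_cast hp.out.one_lt
  have h0 : (0 : ℝ) < p := by linarith
  constructor
  · intro x y hx hy
    refine pval_inj (p := p) ?_
    rw [← pval_norm hv (mul_ne_zero hx hy), norm_mul, pval_norm hv hx, pval_norm hv hy, ← Real.rpow_add h0]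
    congr 1
    push_cast
    ring
  · intro x y hx hy hxy
    have h2 := PadicAlgCl.isNonarchimedean p x y
    rw [pval_norm hv hx, pval_norm hv hy, pval_norm hv hxy, le_max_iff, Real.rpow_le_rpow_left_iff h1,
      Real.rpow_le_rpow_left_iff h1] at h2
    rw [min_le_iff]
    rcases h2 with h2 | h2
    · left
      have h3 : (v x : ℝ) ≤ v (x + y) := by linarith
      exact_mod_cast h3
    · right
      have h3 : (v y : ℝ) ≤ v (x + y) := by linarith
      exact_mod_cast h3

theorem pval_p (hv : IsPVal p v) : v (p : AlgebraicClosure ℚ_[p]) = 1 := by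
  have h1 : (1 : ℝ) < p := by exact_mod_cast hp.out.one_lt
  have h0 : (0 : ℝ) < p := by linarith
  have hp0 : (p : AlgebraicClosure ℚ_[p]) ≠ 0 := by exact_mod_cast hp.out.ne_zero
  refine pval_inj (p := p) ?_
  rw [← pval_norm hv hp0]
  have h2 := PadicAlgCl.norm_extends p (p : ℚ_[p])
  rw [map_natCast] at h2
  rw [h2, Padic.norm_p, Rat.cast_one, Real.rpow_neg_one]

end H45K
end

-- from Lib.H45K.K12a
section

/-! # K12a: the fields Q_p(ω), ω a root of unity of order prime to p, are unramified -/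

set_option autoImplicit false
set_option linter.unusedSectionVars false

namespace H45K
open Pool.Agent.H76Q IntermediateField Polynomial

variable {p : ℕ} [hp : Fact p.Prime] {v : AlgebraicClosure ℚ_[p] → ℚ}

theorem pval_V (hv : IsPVal p v) : IsV v := ⟨(pval_isVal hv).mul, (pval_isVal hv).add⟩

/-- Conjugate elements have the same valuation. -/
theorem pval_minpoly (hv : IsPVal p v) {x y : AlgebraicClosure ℚ_[p]} (hx : x ≠ 0) (hy : y ≠ 0) (h : minpoly ℚ_[p] x = minpoly ℚ_[p] y) :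
    v x = v y := by
  refine pval_inj (p := p) ?_
  rw [← hv x hx, ← hv y hy, spectralNorm, spectralNorm, h]

theorem pval_aut (hv : IsPVal p v) (δ : AlgebraicClosure ℚ_[p] ≃ₐ[ℚ_[p]] AlgebraicClosure ℚ_[p]) {x : AlgebraicClosure ℚ_[p]} (hx : x ≠ 0) :
    v (δ x) = v x :=
  pval_minpoly hv ((_root_.map_ne_zero δ).2 hx) hx (minpoly.algEquiv_eq δ x)

/-- Elements of `ℚ_p` have integral valuation. -/
theorem pval_base (hv : IsPVal p v) {c : ℚ_[p]} (hc : c ≠ 0) : v (algebraMap ℚ_[p] _ c) = (c.valuation : ℚ) := by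
  have hc' : algebraMap ℚ_[p] (AlgebraicClosure ℚ_[p]) c ≠ 0 := (_root_.map_ne_zero _).2 hc
  refine pval_inj (p := p) ?_
  rw [← pval_norm hv hc', PadicAlgCl.norm_extends, Padic.norm_eq_zpow_neg_valuation hc, ← Real.rpow_intCast]
  push_cast
  rfl

theorem unit_nat (hv : IsPVal p v) {n : ℕ} (hn : ¬ p ∣ n) : ¬ PV v (n : AlgebraicClosure ℚ_[p]) := by
  have h := (pval_V hv).int_unit hp.out (pval_p hv) (n := (n : ℤ)) (by exact_mod_cast hn)
  rw [Int.cast_natCast] at h
  rintro (h1 | h1)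
  · have : n = 0 := by exact_mod_cast h1
    exact hn (this ▸ dvd_zero p)
  · simp [h] at h1

/-- Different roots of unity of order prime to `p` are different modulo `p`. -/
theorem root_sub (hv : IsPVal p v) {n : ℕ} (hn : ¬ p ∣ n) {α β : AlgebraicClosure ℚ_[p]} (hα : α ^ n = 1) (hβ : β ^ n = 1) (hne : α ≠ β) :
    ¬ PV v (α - β) := by
  intro h
  have hV := pval_V hv
  have hn0 : n ≠ 0 := by
    rintro rfl
    exact hn (dvd_zero p)
  have hβ0 : β ≠ 0 := by
    rintro rfl
    rw [zero_pow hn0] at hβ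
    exact zero_ne_one hβ
  have hvβ : v β = 0 := by
    have := hV.pow hβ0 n
    rw [hβ, hV.one] at this
    have hn' : (n : ℚ) ≠ 0 := by exact_mod_cast hn0
    have h2 := mul_eq_zero.1 this.symm
    tauto
  have hβi : NN v β⁻¹ := Or.inr (by rw [hV.inv hβ0, hvβ, neg_zero])
  obtain ⟨ζ, hζ⟩ : ∃ ζ, ζ = α * β⁻¹ := ⟨_, rfl⟩
  have hζn : ζ ^ n = 1 := by
    rw [hζ, mul_pow, inv_pow, hα, hβ, inv_one, mul_one]
  have hζ1 : ζ ≠ 1 := by
    intro h1
    apply hne
    rw [hζ] at h1
    field_simp at h1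
    exact h1
  have hζP : PV v (ζ - 1) := by
    have : ζ - 1 = (α - β) * β⁻¹ := by
      rw [hζ, sub_mul, mul_inv_cancel₀ hβ0]
    rw [this]
    exact hV.pv_mul h hβi
  have hζnn : NN v ζ := by
    have : ζ = (ζ - 1) + 1 := by ring
    rw [this]
    exact hV.nn_add hζP.nn hV.nn_one
  have hpow : ∀ i : ℕ, NN v (ζ ^ i) := by
    intro i
    induction i with
    | zero => rw [pow_zero]; exact hV.nn_one
    | succ i ih => rw [pow_succ]; exact hV.nn_mul ih hζnn
  have hpv : ∀ i : ℕ, PV v (ζ ^ i - 1) := by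
    intro i
    rw [← mul_geom_sum]
    exact hV.pv_mul hζP (hV.nn_sum _ _ fun j _ => hpow j)
  have hsum : ∑ i ∈ Finset.range n, ζ ^ i = 0 := by
    have := mul_geom_sum ζ n
    rw [hζn, sub_self, mul_eq_zero] at this
    rcases this with h1 | h1
    · exact absurd (sub_eq_zero.1 h1) hζ1
    · exact h1
  have h1 : PV v (∑ i ∈ Finset.range n, (ζ ^ i - 1)) := hV.pv_sum _ _ fun i _ => hpv i
  rw [Finset.sum_sub_distrib, hsum, Finset.sum_const, Finset.card_range, zero_sub, nsmul_eq_mul, mul_one] at h1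
  have h2 := hV.pv_neg h1
  rw [neg_neg] at h2
  exact unit_nat hv hn h2

theorem not_pv_mul (hV : IsV v) {x y : AlgebraicClosure ℚ_[p]} (hx : NN v x) (hy : NN v y) (hx' : ¬ PV v x) (hy' : ¬ PV v y) : ¬ PV v (x * y) := by
  have hx0 : x ≠ 0 := fun h => hx' (Or.inl h)
  have hy0 : y ≠ 0 := fun h => hy' (Or.inl h)
  rintro (h | h)
  · exact (mul_ne_zero hx0 hy0) h
  · rw [hV.mul x y hx0 hy0] at h
    have h1 : v x ≤ 0 := not_lt.1 fun h => hx' (Or.inr h)
    have h2 : v y ≤ 0 := not_lt.1 fun h => hy' (Or.inr h)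
    linarith

theorem not_pv_prod (hV : IsV v) {ι : Type*} (s : Finset ι) (f : ι → AlgebraicClosure ℚ_[p]) (h : ∀ i ∈ s, NN v (f i)) (h' : ∀ i ∈ s, ¬ PV v (f i)) :
    ¬ PV v (∏ i ∈ s, f i) := by
  classical
  induction s using Finset.induction_on with
  | empty => rw [Finset.prod_empty]; exact hV.not_pv_one
  | insert a s ha ih =>
    rw [Finset.prod_insert ha]
    refine not_pv_mul hV (h a (Finset.mem_insert_self a s)) (hV.nn_prod _ _ fun i hi => h i (Finset.mem_insert_of_mem hi))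
      (h' a (Finset.mem_insert_self a s)) (ih (fun i hi => h i (Finset.mem_insert_of_mem hi)) fun i hi => h' i (Finset.mem_insert_of_mem hi))

/-- The field `ℚ_p(ω)` is unramified. -/
theorem unram (hv : IsPVal p v) {n : ℕ} (hn : ¬ p ∣ n) {ω : AlgebraicClosure ℚ_[p]} (hω : ω ^ n = 1) {x : AlgebraicClosure ℚ_[p]}
    (hx : x ∈ ℚ_[p]⟮ω⟯) (hx0 : x ≠ 0) : ∃ m : ℤ, v x = m := by
  classical
  have hV := pval_V hv
  have hn0 : n ≠ 0 := by
    rintro rfl
    exact hn (dvd_zero p)
  have hint : IsIntegral ℚ_[p] ω := Algebra.IsIntegral.isIntegral ω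
  let pb := IntermediateField.adjoin.powerBasis hint
  have : FiniteDimensional ℚ_[p] ℚ_[p]⟮ω⟯ := pb.finite
  have hcard : Fintype.card (Fin pb.dim) = Fintype.card (ℚ_[p]⟮ω⟯ →ₐ[ℚ_[p]] AlgebraicClosure ℚ_[p]) := by
    rw [AlgHom.card, Fintype.card_fin, pb.finrank]
  let σ : Fin pb.dim ≃ (ℚ_[p]⟮ω⟯ →ₐ[ℚ_[p]] AlgebraicClosure ℚ_[p]) := Fintype.equivOfCardEq hcard
  obtain ⟨y, hy⟩ : ∃ y : ℚ_[p]⟮ω⟯, (y : AlgebraicClosure ℚ_[p]) = x := ⟨⟨x, hx⟩, rfl⟩
  have hy0 : y ≠ 0 := by
    rintro rfl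
    exact hx0 hy.symm
  -- the coefficient of maximal norm
  let a : Fin pb.dim → ℚ_[p] := fun i => pb.basis.repr y i
  have hne : (Finset.univ.filter fun i => a i ≠ 0).Nonempty := by
    by_contra hcon
    rw [Finset.not_nonempty_iff_eq_empty, Finset.filter_eq_empty_iff] at hcon
    apply hy0
    apply pb.basis.repr.injective
    ext i
    rw [map_zero]
    exact not_not.1 (hcon (Finset.mem_univ i))
  obtain ⟨i₀, hi₀, hmin⟩ := Finset.exists_min_image _ (fun i => (a i).valuation) hne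
  rw [Finset.mem_filter] at hi₀
  have hc0 : a i₀ ≠ 0 := hi₀.2
  obtain ⟨b, hb⟩ : ∃ b : Fin pb.dim → ℚ_[p], ∀ i, b i = a i / a i₀ := ⟨_, fun i => rfl⟩
  have hb1 : b i₀ = 1 := by rw [hb, div_self hc0]
  have hbn : ∀ i, NN v (algebraMap ℚ_[p] (AlgebraicClosure ℚ_[p]) (b i)) := by
    intro i
    by_cases h0 : a i = 0
    · left
      rw [hb, h0, zero_div, map_zero]
    · right
      have hb0 : b i ≠ 0 := by rw [hb]; exact div_ne_zero h0 hc0
      rw [pval_base hv hb0]
      have := hmin i (Finset.mem_filter.2 ⟨Finset.mem_univ i, h0⟩)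
      have h3 : a i = b i * a i₀ := by rw [hb, div_mul_cancel₀ _ hc0]
      have h4 := Padic.valuation_mul hb0 hc0
      rw [← h3] at h4
      have h5 : 0 ≤ (b i).valuation := by linarith
      exact_mod_cast h5
  -- z = y / c
  obtain ⟨z, hz⟩ : ∃ z : ℚ_[p]⟮ω⟯, z = (a i₀)⁻¹ • y := ⟨_, rfl⟩
  have hzs : ∀ τ : ℚ_[p]⟮ω⟯ →ₐ[ℚ_[p]] AlgebraicClosure ℚ_[p], τ z = ∑ i, algebraMap ℚ_[p] _ (b i) * (τ pb.gen) ^ (i : ℕ) := by
    intro τ
    have h1 : y = ∑ i, a i • pb.gen ^ (i : ℕ) := by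
      conv_lhs => rw [← pb.basis.sum_repr y]
      exact Finset.sum_congr rfl fun i _ => by rw [pb.basis_eq_pow]
    have h2 : z = ∑ i, b i • pb.gen ^ (i : ℕ) := by
      rw [hz, h1, Finset.smul_sum]
      refine Finset.sum_congr rfl fun i _ => ?_
      rw [smul_smul, hb, div_eq_inv_mul]
    rw [h2, map_sum]
    refine Finset.sum_congr rfl fun i _ => ?_
    rw [Algebra.smul_def, map_mul, AlgHom.commutes, map_pow]
  have hgen : ∀ τ : ℚ_[p]⟮ω⟯ →ₐ[ℚ_[p]] AlgebraicClosure ℚ_[p], (τ pb.gen) ^ n = 1 := by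
    intro τ
    have h1 : pb.gen ^ n = 1 := by
      have h2 : (pb.gen : AlgebraicClosure ℚ_[p]) = ω := by
        change ((IntermediateField.adjoin.powerBasis hint).gen : AlgebraicClosure ℚ_[p]) = ω
        rw [adjoin.powerBasis_gen, AdjoinSimple.coe_gen]
      apply Subtype.ext
      push_cast
      rw [h2, hω]
    rw [← map_pow, h1, map_one]
  have hgnn : ∀ τ : ℚ_[p]⟮ω⟯ →ₐ[ℚ_[p]] AlgebraicClosure ℚ_[p], NN v (τ pb.gen) := by
    intro τ
    refine hV.nn_integral ⟨X ^ n - 1, monic_X_pow_sub_C 1 hn0, ?_⟩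
    rw [eval₂_sub, eval₂_X_pow, eval₂_one, hgen τ, sub_self]
  have hpow : ∀ (τ : ℚ_[p]⟮ω⟯ →ₐ[ℚ_[p]] AlgebraicClosure ℚ_[p]) (i : ℕ), NN v (τ pb.gen ^ i) := by
    intro τ i
    induction i with
    | zero => rw [pow_zero]; exact hV.nn_one
    | succ i ih => rw [pow_succ]; exact hV.nn_mul ih (hgnn τ)
  have hznn : ∀ τ : ℚ_[p]⟮ω⟯ →ₐ[ℚ_[p]] AlgebraicClosure ℚ_[p], NN v (τ z) := by
    intro τ
    rw [hzs]
    exact hV.nn_sum _ _ fun i _ => hV.nn_mul (hbn i) (hpow τ i)
  have hz0 : z ≠ 0 := by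
    rw [hz]
    exact smul_ne_zero (inv_ne_zero hc0) hy0
  -- z is a unit
  have hzv : ¬ PV v ((z : ℚ_[p]⟮ω⟯) : AlgebraicClosure ℚ_[p]) := by
    intro hcon
    have hzP : ∀ τ : ℚ_[p]⟮ω⟯ →ₐ[ℚ_[p]] AlgebraicClosure ℚ_[p], PV v (τ z) := by
      intro τ
      right
      have h1 : v (τ z) = v ((z : ℚ_[p]⟮ω⟯) : AlgebraicClosure ℚ_[p]) := by
        refine pval_minpoly hv ((_root_.map_ne_zero τ).2 hz0) (fun h => hz0 (Subtype.ext h)) ?_
        rw [minpoly.algHom_eq τ τ.injective]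
        exact (minpoly.algHom_eq (ℚ_[p]⟮ω⟯.val) Subtype.val_injective z).symm
      rw [h1]
      rcases hcon with h | h
      · exact absurd (Subtype.ext h) hz0
      · exact h
    obtain ⟨V, hVdef⟩ : ∃ V : Matrix (Fin pb.dim) (Fin pb.dim) (AlgebraicClosure ℚ_[p]), V = Matrix.vandermonde fun j => σ j pb.gen := ⟨_, rfl⟩
    have hdet : ¬ PV v V.det := by
      rw [hVdef, Matrix.det_vandermonde]
      refine not_pv_prod hV _ _ (fun i _ => hV.nn_prod _ _ fun j _ => ?_) fun i _ => not_pv_prod hV _ _ (fun j _ => ?_) fun j hj => ?_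
      · rw [sub_eq_add_neg]
        exact hV.nn_add (hgnn _) (hV.nn_neg (hgnn _))
      · rw [sub_eq_add_neg]
        exact hV.nn_add (hgnn _) (hV.nn_neg (hgnn _))
      · refine root_sub hv hn (hgen _) (hgen _) fun h => ?_
        have h1 : σ j = σ i := pb.algHom_ext h
        have h2 := σ.injective h1
        rw [h2] at hj
        simp at hj
    have hmul : V.mulVec (fun i => algebraMap ℚ_[p] _ (b i)) = fun j => σ j z := by
      ext j
      rw [hzs, Matrix.mulVec, dotProduct]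
      refine Finset.sum_congr rfl fun i _ => ?_
      rw [hVdef, Matrix.vandermonde_apply, mul_comm]
    have hcr : V.det = (V.updateCol i₀ fun j => σ j z).det := by
      have h1 : V.cramer (fun j => σ j z) i₀ = V.det := by
        rw [← hmul, Matrix.cramer_eq_adjugate_mulVec, Matrix.mulVec_mulVec, Matrix.adjugate_mul, Matrix.smul_mulVec, Matrix.one_mulVec,
          Pi.smul_apply, hb1, map_one, smul_eq_mul, mul_one]
      rw [← h1, Matrix.cramer_apply]
    apply hdet
    rw [hcr]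
    refine hV.pv_det _ i₀ (fun i j => ?_) fun i => ?_
    · rw [Matrix.updateCol_apply]
      split_ifs with h
      · exact (hzP _).nn
      · rw [hVdef, Matrix.vandermonde_apply]
        exact hpow _ _
    · rw [Matrix.updateCol_self]
      exact hzP _
  have hzx : x = algebraMap ℚ_[p] _ (a i₀) * ((z : ℚ_[p]⟮ω⟯) : AlgebraicClosure ℚ_[p]) := by
    have h1 : y = a i₀ • z := by rw [hz, smul_smul, mul_inv_cancel₀ hc0, one_smul]
    rw [← hy, h1, ← Algebra.smul_def]
    rfl
  have hz1 : ((z : ℚ_[p]⟮ω⟯) : AlgebraicClosure ℚ_[p]) ≠ 0 := fun h => hz0 (Subtype.ext h)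
  have hz2 : v ((z : ℚ_[p]⟮ω⟯) : AlgebraicClosure ℚ_[p]) = 0 := by
    have h1 := hznn ℚ_[p]⟮ω⟯.val
    rcases h1 with h1 | h1
    · exact absurd h1 hz1
    · have h2 : ¬ 0 < v ((z : ℚ_[p]⟮ω⟯) : AlgebraicClosure ℚ_[p]) := fun h => hzv (Or.inr h)
      exact le_antisymm (not_lt.1 h2) h1
  refine ⟨(a i₀).valuation, ?_⟩
  rw [hzx, hV.mul _ _ ((_root_.map_ne_zero _).2 hc0) hz1, hz2, add_zero, pval_base hv hc0]

end H45K
end

-- from Lib.H45K.K12b
section

/-! # K12b: an element of the closure of Q_p fixed by inertia has integral valuation -/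

set_option autoImplicit false
set_option linter.unusedSectionVars false

namespace H45K
open Pool.Agent.H76Q IntermediateField Polynomial Filter Topology

variable {p : ℕ} [hp : Fact p.Prime] {v : AlgebraicClosure ℚ_[p] → ℚ}

theorem norm_lt_one_iff (hv : IsPVal p v) (x : AlgebraicClosure ℚ_[p]) : ‖(x : PadicAlgCl p)‖ < 1 ↔ PV v x := by
  have h1 : (1 : ℝ) < p := by exact_mod_cast hp.out.one_lt
  by_cases hx : x = 0
  · subst hx
    simp [pv_zero]
  · rw [pval_norm hv hx, ← Real.rpow_zero (p : ℝ), Real.rpow_lt_rpow_left_iff h1]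
    constructor
    · intro h
      right
      have h2 : (0 : ℝ) < v x := by linarith
      exact_mod_cast h2
    · rintro (h | h)
      · exact absurd h hx
      · have h2 : (0 : ℝ) < v x := by exact_mod_cast h
        linarith

theorem norm_le_one_iff (hv : IsPVal p v) (x : AlgebraicClosure ℚ_[p]) : ‖(x : PadicAlgCl p)‖ ≤ 1 ↔ NN v x := by
  have h1 : (1 : ℝ) < p := by exact_mod_cast hp.out.one_lt
  by_cases hx : x = 0
  · subst hx
    simp [nn_zero]
  · rw [pval_norm hv hx, ← Real.rpow_zero (p : ℝ), Real.rpow_le_rpow_left_iff h1]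
    constructor
    · intro h
      right
      have h2 : (0 : ℝ) ≤ v x := by linarith
      exact_mod_cast h2
    · rintro (h | h)
      · exact absurd h hx
      · have h2 : (0 : ℝ) ≤ v x := by exact_mod_cast h
        linarith

theorem nn_pow (hV : IsV v) {x : AlgebraicClosure ℚ_[p]} (hx : NN v x) (n : ℕ) : NN v (x ^ n) := by
  induction n with
  | zero => rw [pow_zero]; exact hV.nn_one
  | succ n ih => rw [pow_succ]; exact hV.nn_mul ih hx

/-- A power of a unit is congruent to `1`. -/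
theorem pow_near_one (hv : IsPVal p v) {y : AlgebraicClosure ℚ_[p]} (hy : NN v y) (hy' : ¬ PV v y) : ∃ m : ℕ, m ≠ 0 ∧ PV v (y ^ m - 1) := by
  have hV := pval_V hv
  let V : Submodule ℚ_[p] (PadicAlgCl p) := Subalgebra.toSubmodule (ℚ_[p]⟮(y : PadicAlgCl p)⟯.toSubalgebra)
  have hfd : FiniteDimensional ℚ_[p] ℚ_[p]⟮(y : PadicAlgCl p)⟯ := IntermediateField.adjoin.finiteDimensional (Algebra.IsIntegral.isIntegral y)
  have hfd' : FiniteDimensional ℚ_[p] V := hfd
  have hprop : ProperSpace V := FiniteDimensional.proper ℚ_[p] V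
  have hmem : ∀ k : ℕ, (y ^ k : PadicAlgCl p) ∈ V := fun k => pow_mem (mem_adjoin_simple_self ℚ_[p] (y : PadicAlgCl p)) k
  let u : ℕ → V := fun k => ⟨y ^ k, hmem k⟩
  have hu : ∀ k, u k ∈ Metric.closedBall (0 : V) 1 := by
    intro k
    rw [mem_closedBall_zero_iff]
    exact (norm_le_one_iff hv _).2 (nn_pow hV hy k)
  obtain ⟨a, -, φ, hφ, ha⟩ := (isCompact_closedBall (0 : V) 1).tendsto_subseq hu
  rw [Metric.tendsto_atTop] at ha
  obtain ⟨N, hN⟩ := ha (1 / 2) (by norm_num)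
  have h1 : dist (u (φ (N + 1))) (u (φ N)) < 1 := by
    have h2 := hN N le_rfl
    have h3 := hN (N + 1) (Nat.le_succ N)
    simp only [Function.comp] at h2 h3
    have h4 := dist_triangle_right (u (φ (N + 1))) (u (φ N)) a
    linarith
  have hlt : φ N < φ (N + 1) := hφ (Nat.lt_succ_self N)
  have h2 : ‖(y ^ φ (N + 1) - y ^ φ N : PadicAlgCl p)‖ < 1 := by
    rw [dist_eq_norm] at h1
    exact h1
  have h3 : PV v (y ^ φ (N + 1) - y ^ φ N) := (norm_lt_one_iff hv _).1 h2
  refine ⟨φ (N + 1) - φ N, by omega, ?_⟩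
  by_contra hcon
  have h4 : y ^ φ (N + 1) - y ^ φ N = y ^ φ N * (y ^ (φ (N + 1) - φ N) - 1) := by
    rw [mul_sub, ← pow_add, mul_one]
    congr 2
    omega
  rw [h4] at h3
  refine not_pv_mul hV (nn_pow hV hy _) ?_ ?_ hcon h3
  · rw [sub_eq_add_neg]
    exact hV.nn_add (nn_pow hV hy _) (hV.nn_neg hV.nn_one)
  · have hy0 : y ≠ 0 := fun h => hy' (Or.inl h)
    rintro (h5 | h5)
    · exact pow_ne_zero _ hy0 h5
    · rw [hV.pow hy0] at h5
      have h6 : v y ≤ 0 := not_lt.1 fun h => hy' (Or.inr h)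
      have h7 : ((φ N : ℕ) : ℚ) * v y ≤ 0 := mul_nonpos_of_nonneg_of_nonpos (by positivity) h6
      linarith

theorem p_root (hv : IsPVal p v) {z : AlgebraicClosure ℚ_[p]} (hz : NN v z) (h : PV v (z ^ p - 1)) : PV v (z - 1) := by
  have hV := pval_V hv
  have hz1 : NN v (z - 1) := by
    rw [sub_eq_add_neg]
    exact hV.nn_add hz (hV.nn_neg hV.nn_one)
  obtain ⟨r, hr⟩ := exists_add_pow_prime_eq hp.out (X : ℤ[X]) 1
  have h1 := congrArg (Polynomial.aeval (z - 1)) hr
  simp only [map_add, map_pow, map_mul, aeval_X, map_one, one_pow, mul_one, sub_add_cancel, map_natCast] at h1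
  have hrn : NN v (aeval (z - 1) r) := by
    rw [aeval_eq_sum_range]
    refine hV.nn_sum _ _ fun i _ => ?_
    rw [zsmul_eq_mul]
    exact hV.nn_mul (hV.nn_int _) (nn_pow hV hz1 _)
  have hpp : PV v (p : AlgebraicClosure ℚ_[p]) := Or.inr (by rw [pval_p hv]; norm_num)
  have h2 : (z - 1) ^ p = (z ^ p - 1) + -((p : AlgebraicClosure ℚ_[p]) * ((z - 1) * aeval (z - 1) r)) := by
    rw [h1]; ring
  have h3 : PV v ((z - 1) ^ p) := by
    rw [h2]
    exact hV.pv_add h (hV.pv_neg (hV.pv_mul hpp (hV.nn_mul hz1 hrn)))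
  by_cases h0 : z - 1 = 0
  · exact Or.inl h0
  · rcases h3 with h3 | h3
    · exact absurd h3 (pow_ne_zero _ h0)
    · right
      rw [hV.pow h0] at h3
      have hp0 : (0 : ℚ) < p := by exact_mod_cast hp.out.pos
      exact (mul_pos_iff_of_pos_left hp0).1 h3

theorem p_root_pow (hv : IsPVal p v) {z : AlgebraicClosure ℚ_[p]} (hz : NN v z) (a : ℕ) (h : PV v (z ^ p ^ a - 1)) : PV v (z - 1) := by
  induction a with
  | zero => rwa [pow_zero, pow_one] at h
  | succ a ih =>
    apply ih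
    apply p_root hv (nn_pow (pval_V hv) hz _)
    rwa [← pow_mul, ← pow_succ]

/-- Every unit is congruent to a root of unity of order prime to `p`. -/
theorem teich (hv : IsPVal p v) {y : AlgebraicClosure ℚ_[p]} (hy : NN v y) (hy' : ¬ PV v y) :
    ∃ m : ℕ, ¬ p ∣ m ∧ ∃ ζ : AlgebraicClosure ℚ_[p], ζ ^ m = 1 ∧ PV v (y - ζ) := by
  have hV := pval_V hv
  obtain ⟨m, hm0, hm⟩ := pow_near_one hv hy hy'
  obtain ⟨a, m', hpm, rfl⟩ := Nat.exists_eq_pow_mul_and_not_dvd hm0 p hp.out.ne_one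
  have hm'0 : m' ≠ 0 := fun h => hpm (h ▸ dvd_zero p)
  have h1 : PV v (y ^ m' - 1) := by
    refine p_root_pow hv (nn_pow hV hy _) a ?_
    rwa [← pow_mul, mul_comm m']
  refine ⟨m', hpm, ?_⟩
  have : NeZero ((m' : ℕ) : AlgebraicClosure ℚ_[p]) := ⟨by exact_mod_cast hm'0⟩
  have : NeZero m' := ⟨hm'0⟩
  obtain ⟨ω, hω⟩ := HasEnoughRootsOfUnity.exists_primitiveRoot (AlgebraicClosure ℚ_[p]) m'
  have h2 := congrArg (Polynomial.eval y) (X_pow_sub_one_eq_prod (Nat.pos_of_ne_zero hm'0) hω)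
  rw [eval_sub, eval_pow, eval_X, eval_one, eval_prod] at h2
  simp only [eval_sub, eval_X, eval_C] at h2
  rw [h2] at h1
  by_contra hcon
  push Not at hcon
  refine not_pv_prod hV _ _ (fun ζ hζ => ?_) (fun ζ hζ => ?_) h1
  · rw [mem_nthRootsFinset (Nat.pos_of_ne_zero hm'0)] at hζ
    rw [sub_eq_add_neg]
    refine hV.nn_add hy (hV.nn_neg (hV.nn_integral ⟨X ^ m' - 1, monic_X_pow_sub_C 1 hm'0, ?_⟩))
    rw [eval₂_sub, eval₂_X_pow, eval₂_one, hζ, sub_self]
  · rw [mem_nthRootsFinset (Nat.pos_of_ne_zero hm'0)] at hζ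
    exact hcon ζ hζ

variable (p) in
/-- The field generated by the roots of unity of order prime to `p`. -/
noncomputable def Kur : IntermediateField ℚ_[p] (AlgebraicClosure ℚ_[p]) :=
  IntermediateField.adjoin ℚ_[p] {ζ | ∃ n : ℕ, ¬ p ∣ n ∧ ζ ^ n = 1}

theorem mem_Kur {x : AlgebraicClosure ℚ_[p]} (hx : x ∈ Kur p) : ∃ n : ℕ, ¬ p ∣ n ∧ ∃ ω : AlgebraicClosure ℚ_[p], ω ^ n = 1 ∧ x ∈ ℚ_[p]⟮ω⟯ := by
  classical
  obtain ⟨T, hT, hx⟩ := IntermediateField.exists_finset_of_mem_adjoin hx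
  have h1 : ∃ n : ℕ, ¬ p ∣ n ∧ ∀ t ∈ T, t ^ n = 1 := by
    clear hx
    induction T using Finset.induction_on with
    | empty => exact ⟨1, hp.out.one_lt.ne' ∘ Nat.dvd_one.1, by simp⟩
    | insert a T ha ih =>
      rw [Finset.coe_insert, Set.insert_subset_iff] at hT
      obtain ⟨n, hn, h⟩ := ih hT.2
      obtain ⟨m, hm, ham⟩ := hT.1
      refine ⟨m * n, ?_, ?_⟩
      · rw [hp.out.dvd_mul]
        tauto
      · intro t ht
        rcases Finset.mem_insert.1 ht with rfl | ht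
        · rw [pow_mul, ham, one_pow]
        · rw [mul_comm, pow_mul, h t ht, one_pow]
  obtain ⟨n, hn, h⟩ := h1
  have hn0 : n ≠ 0 := fun h => hn (h ▸ dvd_zero p)
  have : NeZero ((n : ℕ) : AlgebraicClosure ℚ_[p]) := ⟨by exact_mod_cast hn0⟩
  have : NeZero n := ⟨hn0⟩
  obtain ⟨ω, hω⟩ := HasEnoughRootsOfUnity.exists_primitiveRoot (AlgebraicClosure ℚ_[p]) n
  refine ⟨n, hn, ω, hω.pow_eq_one, ?_⟩
  have h2 : IntermediateField.adjoin ℚ_[p] (T : Set (AlgebraicClosure ℚ_[p])) ≤ ℚ_[p]⟮ω⟯ := by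
    rw [IntermediateField.adjoin_le_iff]
    intro t ht
    obtain ⟨i, -, hi⟩ := hω.eq_pow_of_pow_eq_one (h t ht)
    rw [← hi]
    exact pow_mem (mem_adjoin_simple_self ℚ_[p] ω) i
  exact h2 hx

/-- Automorphisms which fix the roots of unity of order prime to `p` are in the inertia group. -/
theorem mem_inertia (hv : IsPVal p v) (δ : AlgebraicClosure ℚ_[p] ≃ₐ[ℚ_[p]] AlgebraicClosure ℚ_[p])
    (h : ∀ (n : ℕ) (ζ : AlgebraicClosure ℚ_[p]), ¬ p ∣ n → ζ ^ n = 1 → δ ζ = ζ) : δ.toRingEquiv ∈ inertia p v := by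
  have hV := pval_V hv
  have hpv : ∀ w, PV v w → PV v (δ w - w) := by
    intro w hw
    rw [sub_eq_add_neg]
    refine hV.pv_add ?_ (hV.pv_neg hw)
    rcases hw with hw | hw
    · left
      rw [hw, map_zero]
    · by_cases h0 : w = 0
      · left
        rw [h0, map_zero]
      · right
        rwa [pval_aut hv δ h0]
  refine ⟨fun c => δ.commutes c, fun x hx0 hx => ?_⟩
  have h1 : PV v (δ x - x) := by
    by_cases hx' : PV v x
    · exact hpv x hx'
    · obtain ⟨m, hm, ζ, hζ, hxζ⟩ := teich hv (Or.inr hx) hx'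
      have h2 := hpv _ hxζ
      rw [map_sub, h m ζ hm hζ] at h2
      rwa [sub_sub_sub_cancel_right] at h2
  rcases h1 with h1 | h1
  · left
    exact sub_eq_zero.1 h1
  · right
    exact h1

/-- K12. An element of the closure of `ℚ_p` fixed by inertia has integral valuation. -/
theorem pval_dval (hv : IsPVal p v) (x : AlgebraicClosure ℚ_[p]) (hx : x ≠ 0) (h : ∀ δ ∈ inertia p v, δ x = x) : ∃ n : ℤ, v x = n := by
  have h1 : x ∈ Kur p := by
    rw [← InfiniteGalois.fixedField_fixingSubgroup (Kur p)]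
    rw [IntermediateField.mem_fixedField_iff]
    intro δ hδ
    refine h δ.toRingEquiv (mem_inertia hv δ fun n ζ hn hζ => ?_)
    exact (IntermediateField.mem_fixingSubgroup_iff _ δ).1 hδ ζ (IntermediateField.subset_adjoin _ _ ⟨n, hn, hζ⟩)
  obtain ⟨n, hn, ω, hω, hx2⟩ := mem_Kur h1
  exact unram hv hn hω hx2 hx

end H45K
end
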