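import Pool.Agent.Lib.H1M.RC.M008
import Pool.Agent.Lib.H1M.RC.M040
import Pool.Agent.Lib.H1M.RC.M044
import Pool.Agent.Lib.H1M.RC.M048

/-! Merged copies (to shorten the build) of Lib.H25Y.SymY, Lib.H76Y.NS, Lib.H76Q.E1, Lib.H76Q.E2, Lib.H76Q.C4, Lib.H76Q.C6, Lib.H76Q.B1, Lib.H76Q.F4, Lib.H76Q.D2, Lib.H76Q.D3, Lib.H76Q.F6, Lib.H76Q.BL1, Lib.H76Q.BL2, Lib.H76Q.BL3. -/

-- from Lib.H25Y.SymY
section

/-!
# A component whose configuration is symmetric has an invariant form
-/

set_option autoImplicit false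
set_option linter.unusedSectionVars false
namespace Pool.Agent.H76Y
open Module Matrix Pool.Agent.H53Toric Pool.Agent.H76P

variable {κ : Type*} {K : Type*} [Field K] [CharZero K] [Fintype κ] [DecidableEq κ]
  [IsAlgClosed K] [Nonempty κ] {L : Submodule K (Module.End K (κ → K))}

/-- If the set of the weights is symmetric, there is a nonzero invariant bilinear form. -/
theorem TM.not_ns (h : TM L) (hsym : ∀ k, ∃ k', ∀ f ∈ Yo L, f k' = -f k) : ¬ NsL L := by
  intro hns
  obtain ⟨b, hb0, hb⟩ := H25Y.exists_inv_form h.cmp.lie h.cmp.irr h.cmp.tr h.diag h.sep hsym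
  exact hb0 (hns b hb)

end Pool.Agent.H76Y
end

-- from Lib.H76Y.NS
section

/-!
# NS: a component which is not its own conjugate respects no form
-/

set_option autoImplicit false
set_option linter.unusedSectionVars false
namespace Pool.Agent.H76Y
open Module Matrix Polynomial Pool.Agent.H53Toric
open Pool.Agent.H76P
open Pool.Agent.H76T (IsIdeal Fam)
open Pool.Agent.H76V (Cmp SH)
open Pool.Agent.H76U (cmp preL Lb Split4)
open Pool.Agent.H76RM (zar_commute)

variable {ι : Type*} [Fintype ι] [DecidableEq ι] {K : Type*} [Field K] [CharZero K]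

variable {B : Type*} [Fintype B] [DecidableEq B]
  {J : Matrix ι ι K} {DD : Submodule K (Matrix ι ι K)}
  {bar : B → B} {e : B → Matrix ι ι K} (h : Split4 J DD bar e) {b : B}
  {n : ℕ} {P : Matrix ι (Fin n) K} {Q : Matrix (Fin n) ι K}
  (hPQ : e b = P * Q) (hQP : Q * P = 1)
  {S : Set (Matrix ι ι K)} {𝓗 : Set (Matrix ι ι K)} {Γ : Type*} [Group Γ] {r : Γ →* Matrix ι ι K}
  (g : SH S J DD r 𝓗)

include h hPQ hQP g in
/-- `2 h - 1` has multiplier `0`, the trace of its compression is `2 rank (h e_b) - n`. -/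
theorem ns_mem {x : Matrix ι ι K} (hx : x ∈ 𝓗) (hbal : 2 * (x * e b).rank = n) :
    phi (cmp P Q ((2 : K) • x - 1)) ∈ LcN J S P Q := by
  have hxL : x ∈ preL J S := ⟨⟨0, x, g.hz x hx, by rw [zero_smul, add_zero]⟩, 1, by rw [g.hs x hx, one_smul]⟩
  have hone : (1 : Matrix ι ι K) ∈ preL J S := by
    refine ⟨⟨1, 0, (zlie S).zero_mem, by rw [one_smul, zero_add]⟩, 2, ?_⟩
    rw [Matrix.transpose_one, one_mul, mul_one, two_smul]
  have hxe := Pool.Agent.H76V.preL_ec (b := b) h g hxL
  have hmem : (2 : K) • x - 1 ∈ preL J S := Submodule.sub_mem _ (Submodule.smul_mem _ _ hxL) hone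
  refine ⟨Pool.Agent.H76U.mem_Lb.2 ⟨_, hmem, rfl⟩, ?_⟩
  have hc : cmp P Q x * cmp P Q x = cmp P Q x := by
    rw [← Pool.Agent.H76U.cmp_mul hPQ hQP hxe, g.hi x hx]
  have hr : (cmp P Q x).rank = (x * e b).rank := Pool.Agent.H76U.rank_cmp hPQ hQP hxe
  have ht := Pool.Agent.H76T.rank_eq_trace (K := K) hc
  rw [map_sub, map_smul, Pool.Agent.H76U.cmp_one hPQ hQP, map_sub, map_smul, map_one, map_sub, map_smul, ← ht, hr,
    LinearMap.trace_one, Module.finrank_fin_fun, smul_eq_mul]
  have h2 : ((2 * (x * e b).rank : ℕ) : K) = (n : K) := by rw [hbal]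
  push_cast at h2
  rw [h2, sub_self]

theorem ns_mat {m : ℕ} (β : (Fin m → K) →ₗ[K] (Fin m → K) →ₗ[K] K) : ∃ M : Matrix (Fin m) (Fin m) K,
    (M = 0 → β = 0) ∧ ∀ x : Matrix (Fin m) (Fin m) K, (∀ v w, β (phi x v) w + β v (phi x w) = 0) → xᵀ * M + M * x = 0 := by
  refine ⟨Matrix.of fun i j => β (Pi.single i 1) (Pi.single j 1), fun h0 => ?_, fun x hx => ?_⟩
  · apply LinearMap.pi_ext'
    intro i
    ext1
    apply LinearMap.pi_ext'
    intro j
    ext1
    have := congrFun (congrFun h0 i) j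
    simpa using this
  · have hcol : ∀ i, phi x (Pi.single i 1) = ∑ k, x k i • (Pi.single k (1 : K) : Fin m → K) := by
      intro i
      rw [phi_apply, Matrix.mulVec_single_one]
      ext k
      rw [Finset.sum_apply]
      simp [Pi.single_apply]
    ext i j
    have h1 := hx (Pi.single i 1) (Pi.single j 1)
    rw [hcol i, hcol j] at h1
    simp only [map_sum, map_smul, LinearMap.sum_apply, LinearMap.smul_apply, smul_eq_mul] at h1
    rw [Matrix.add_apply, Matrix.mul_apply, Matrix.mul_apply, Matrix.zero_apply, ← h1]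
    congr 1
    refine Finset.sum_congr rfl fun k _ => ?_
    rw [Matrix.of_apply, mul_comm]

include h hPQ hQP g in
/-- PROOF. `β` with the matrix `M`; `y = J⁻¹ Qᵀ Mᵀ Q`, `y = e_(bar b) y = y e_b`. For `x ∈ 𝓗`: `y (2 x - 1) = (2 x - 1) y`, so `y` commutes with `S` (`g.gen`), `y ∈ DD` and
`y = e_(bar b) y e_b = 0` (`h.orth`). -/
theorem nsl (hb : bar b ≠ b) (hdet : IsUnit J.det) (hbal : ∀ x ∈ 𝓗, 2 * (x * e b).rank = n) : NsL (LcN J S P Q) := by
  intro β hβ
  obtain ⟨M, hM0, hMx⟩ := ns_mat β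
  apply hM0
  set y : Matrix ι ι K := J⁻¹ * (Qᵀ * Mᵀ * Q) with hy
  have hJy : J * y = Qᵀ * Mᵀ * Q := by
    rw [hy, ← Matrix.mul_assoc, Matrix.mul_nonsing_inv _ hdet, Matrix.one_mul]
  have hQe : Q * e b = Q := Pool.Agent.H76U.Q_p hPQ hQP
  have hye : y * e b = y := by
    rw [hy, Matrix.mul_assoc, Matrix.mul_assoc (Qᵀ * Mᵀ), hQe]
  have hey : e (bar b) * y = y := by
    have h1 : J * (e (bar b) * y) = J * y := by
      rw [← Matrix.mul_assoc, ← h.adj b, Matrix.mul_assoc, hJy, ← Matrix.mul_assoc, ← Matrix.mul_assoc, ← Matrix.transpose_mul, hQe]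
    have h2 := congrArg (fun z => J⁻¹ * z) h1
    simp only [← Matrix.mul_assoc, Matrix.nonsing_inv_mul _ hdet, Matrix.one_mul] at h2
    exact h2
  have hcomm : ∀ x ∈ 𝓗, y * x = x * y := by
    intro x hx
    have hxL : x ∈ preL J S := ⟨⟨0, x, g.hz x hx, by rw [zero_smul, add_zero]⟩, 1, by rw [g.hs x hx, one_smul]⟩
    have hxe := Pool.Agent.H76V.preL_ec (b := b) h g hxL
    set z : Matrix ι ι K := (2 : K) • x - 1 with hz
    have hze : z * e b = e b * z := by
      rw [hz, sub_mul, mul_sub, smul_mul_assoc, mul_smul_comm, hxe, one_mul, mul_one]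
    have hmem := ns_mem h hPQ hQP g hx (hbal x hx)
    have h1 := hMx (cmp P Q z) (hβ _ hmem)
    have h2 : (cmp P Q z)ᵀ * Mᵀ + Mᵀ * cmp P Q z = 0 := by
      have := congrArg Matrix.transpose h1
      rw [Matrix.transpose_add, Matrix.transpose_mul, Matrix.transpose_mul, Matrix.transpose_transpose, Matrix.transpose_zero, add_comm] at this
      exact this
    have hcQ : cmp P Q z * Q = Q * z := Pool.Agent.H76U.cmp_Q hPQ hQP hze
    have hzJ : zᵀ * J + J * z = 0 := by
      have h3 := g.hs x hx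
      rw [hz, Matrix.transpose_sub, Matrix.transpose_smul, Matrix.transpose_one, sub_mul, mul_sub, smul_mul_assoc, mul_smul_comm,
        one_mul, mul_one]
      calc (2 : K) • (xᵀ * J) - J + ((2 : K) • (J * x) - J) = (2 : K) • (xᵀ * J + J * x) - (2 : K) • J := by
            rw [smul_add, two_smul K J]; abel
        _ = 0 := by rw [h3, sub_self]
    have h4 : J * (y * z) = J * (z * y) := by
      calc J * (y * z) = Qᵀ * (Mᵀ * (Q * z)) := by rw [← Matrix.mul_assoc, hJy]; simp only [Matrix.mul_assoc]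
        _ = Qᵀ * (Mᵀ * cmp P Q z) * Q := by rw [← hcQ]; simp only [Matrix.mul_assoc]
        _ = -(Qᵀ * ((cmp P Q z)ᵀ * Mᵀ) * Q) := by
          rw [eq_neg_of_add_eq_zero_right h2, Matrix.mul_neg, Matrix.neg_mul]
        _ = -((cmp P Q z * Q)ᵀ * (Mᵀ * Q)) := by rw [Matrix.transpose_mul]; simp only [Matrix.mul_assoc]
        _ = -(zᵀ * (J * y)) := by rw [hcQ, Matrix.transpose_mul, hJy]; simp only [Matrix.mul_assoc]
        _ = -((zᵀ * J) * y) := by rw [Matrix.mul_assoc zᵀ J y]
        _ = J * (z * y) := by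
          rw [eq_neg_of_add_eq_zero_left hzJ, Matrix.neg_mul, neg_neg, Matrix.mul_assoc]
    have h5 : y * z = z * y := by
      have h6 := congrArg (fun w => J⁻¹ * w) h4
      simp only [← Matrix.mul_assoc, Matrix.nonsing_inv_mul _ hdet, Matrix.one_mul] at h6
      exact h6
    have h7 : (2 : K) • (y * x) = (2 : K) • (x * y) := by
      rw [hz, mul_sub, sub_mul, mul_smul_comm, smul_mul_assoc, mul_one, one_mul] at h5
      exact sub_left_injective h5
    exact smul_right_injective _ (two_ne_zero (α := K)) h7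
  have hyD : y ∈ DD := by
    refine g.commt y fun s hs => ?_
    have h1 : ∀ m ∈ (Submonoid.closure {m | ∃ h ∈ 𝓗, ∃ t : K, t ≠ 0 ∧ m = 1 + (t - 1) • h} : Set (Matrix ι ι K)), m * y = y * m := by
      intro m hm
      induction hm using Submonoid.closure_induction with
      | mem m hm =>
        obtain ⟨x, hx, t, -, rfl⟩ := hm
        rw [add_mul, mul_add, one_mul, mul_one, smul_mul_assoc, mul_smul_comm, hcomm x hx]
      | one => rw [one_mul, mul_one]
      | mul a b _ _ ha hb => rw [mul_assoc, hb, ← mul_assoc, ha, mul_assoc]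
    exact (zar_commute h1 (g.gen hs)).symm
  have h0 : y = 0 := by
    have h1 := h.orth (bar b) b hb y hyD
    rwa [Matrix.mul_assoc, hye, hey] at h1
  have h2 : Qᵀ * Mᵀ * Q = 0 := by rw [← hJy, h0, Matrix.mul_zero]
  have h3 : Mᵀ = 0 := by
    calc Mᵀ = (Q * P)ᵀ * Mᵀ * (Q * P) := by rw [hQP, Matrix.transpose_one, Matrix.one_mul, Matrix.mul_one]
      _ = Pᵀ * (Qᵀ * Mᵀ * Q) * P := by rw [Matrix.transpose_mul]; simp only [Matrix.mul_assoc]
      _ = 0 := by rw [h2, Matrix.mul_zero, Matrix.zero_mul]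
  rw [← Matrix.transpose_transpose M, h3, Matrix.transpose_zero]

end Pool.Agent.H76Y
end

-- from Lib.H76Q.E1
section

/-!
# semilinear automorphisms
-/

set_option autoImplicit false
set_option linter.unusedSectionVars false
namespace Pool.Agent.H76Q
open Module Matrix Pool.Agent.H53Toric
open Pool.Agent.H76P
open Pool.Agent.H76T (IsIdeal Fam)
open Pool.Agent.H76V (Cmp)

variable {κ : Type*} {K : Type*} [Field K] [CharZero K] [Fintype κ] [DecidableEq κ]
  {L : Submodule K (Module.End K (κ → K))} {J : Matrix κ κ K} [IsAlgClosed K] [Nonempty κ]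
  {Y : Submodule ℚ (κ → ℚ)} {P : Module.End ℚ Y}

theorem e1_dq {θ : Module.End K (κ → K) ≃+* Module.End K (κ → K)} {τ : K ≃+* K}
    {σ : Equiv.Perm κ} (hθ : Theta L J θ τ σ) (f : κ → ℚ) : θ (dq (f ∘ σ)) = dq f := by
  unfold dq
  rw [hθ.diag]
  congr 1
  funext k
  rw [Function.comp_apply, Equiv.apply_symm_apply, map_ratCast]

theorem e1_ideal {θ : Module.End K (κ → K) ≃+* Module.End K (κ → K)} {τ : K ≃+* K}
    {σ : Equiv.Perm κ} (hθ : Theta L J θ τ σ) {M : Submodule K (Module.End K (κ → K))}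
    (hM : IsIdeal L M) : IsIdeal L (H76T.mv τ θ hθ.smul M) := by
  refine ⟨fun X hX => ?_, fun X hX Y hY => ?_⟩
  · have h1 := (hθ.mem _).2 (hM.1 (H76T.mem_mv.1 hX))
    rwa [RingEquiv.apply_symm_apply] at h1
  · rw [H76T.mem_mv, map_sub, map_mul, map_mul]
    refine hM.2 _ ((hθ.mem _).1 ?_) _ (H76T.mem_mv.1 hY)
    rwa [RingEquiv.apply_symm_apply]

/-- PROOF. `Yo L` is spanned by `Hs L`; for `ε ∈ Hs L` `θ (dq (ε ∘ σ)) = dq ε` (`Theta.diag`: the values are rational), so `dq (ε ∘ σ) ∈ L` (`Theta.mem`). -/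
theorem Theta.perm {θ : Module.End K (κ → K) ≃+* Module.End K (κ → K)} {τ : K ≃+* K}
    {σ : Equiv.Perm κ} (hθ : Theta L J θ τ σ) {f : κ → ℚ} (hf : f ∈ Yo L) : f ∘ σ ∈ Yo L := by
  unfold Yo at hf ⊢
  induction hf using Submodule.span_induction with
  | mem ε hε =>
    refine Submodule.subset_span ⟨fun a => hε.1 (σ a), (hθ.mem _).1 ?_⟩
    rw [e1_dq hθ]
    exact hε.2
  | zero => exact Submodule.zero_mem _
  | add f g _ _ hf hg => exact Submodule.add_mem _ hf hg
  | smul c f _ hf => exact Submodule.smul_mem _ c hf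

/-- PROOF. Let `I` be an ideal of `L` with `InP P I`; the image `I'` of `I` under `θ` (`H76T.mv`) is an ideal (`Theta.mem`); if `f ∈ Y` and `dq f ∈ I'`, then
`dq (f ∘ σ) ∈ I` (`Theta.diag`), `f ∘ σ ∈ Y` (`Theta.perm`), so `f ∘ σ` depends only on the first coordinate, and so does `f` (`StabP`). -/
theorem Theta.AZ {θ : Module.End K (κ → K) ≃+* Module.End K (κ → K)} {τ : K ≃+* K}
    {σ : Equiv.Perm κ} (hθ : Theta L J θ τ σ) (hY : Yo L = Y) (hst : StabP P σ)
    {X : Module.End K (κ → K)} (hX : X ∈ AZ L P) : θ X ∈ AZ L P := by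
  unfold H76Q.AZ at hX ⊢
  induction hX using Algebra.adjoin_induction with
  | mem X hX =>
    obtain ⟨I, hI, hP, hXI⟩ := hX
    refine Algebra.subset_adjoin ⟨_, e1_ideal hθ hI, ?_, (H76T.mem_mv' (hθ := hθ.smul)).2 hXI⟩
    intro f hf hfI k k' hkk
    have h1 : dq (f ∘ σ) ∈ I := by
      have h2 := H76T.mem_mv.1 hfI
      rwa [← e1_dq hθ f, RingEquiv.symm_apply_apply] at h2
    have h3 : f ∘ σ ∈ Y := by
      rw [← hY]
      exact hθ.perm (hY ▸ hf)
    have h4 := hP (f ∘ σ) h3 h1 (σ.symm k) (σ.symm k') ((hst.1 _ _).2 (by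
      rwa [Equiv.apply_symm_apply, Equiv.apply_symm_apply]))
    rwa [Function.comp_apply, Function.comp_apply, Equiv.apply_symm_apply, Equiv.apply_symm_apply] at h4
  | algebraMap r =>
    rw [Algebra.algebraMap_eq_smul_one, hθ.smul, map_one]
    exact Subalgebra.smul_mem _ (Subalgebra.one_mem _) _
  | add X X' _ _ h h' => rw [map_add]; exact Subalgebra.add_mem _ h h'
  | mul X X' _ _ h h' => rw [map_mul]; exact Subalgebra.mul_mem _ h h'

/-- PROOF. `θ X = θ u * θ r` is a pure tensor with multiplier `τ t` (`Theta.AZ` for `P` and for `1 - P`, `Theta.adj`, `Theta.smul`). -/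
theorem Theta.pt {θ : Module.End K (κ → K) ≃+* Module.End K (κ → K)} {τ : K ≃+* K}
    {σ : Equiv.Perm κ} (hθ : Theta L J θ τ σ) (hY : Yo L = Y) (hst : StabP P σ)
    {X u r : Module.End K (κ → K)} {t : K} (h1 : PT L J P X u r t) :
    PT L J P (θ X) (θ u) (θ r) (τ t) := by
  obtain ⟨hu, hr, hX, ht, hut, t', ht', hrt⟩ := h1
  have hPP : (1 : Module.End ℚ Y) - (1 - P) = P := sub_sub_cancel 1 P
  have hst' : StabP (1 - P) σ := ⟨hst.2, fun k k' => hPP.symm ▸ hst.1 k k'⟩
  refine ⟨hθ.AZ hY hst hu, hθ.AZ hY hst' hr, by rw [hX, map_mul], ?_, ?_, τ t', ?_, ?_⟩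
  · exact fun h0 => ht ((map_eq_zero τ).1 h0)
  · rw [← hθ.adj, ← map_mul, hut, hθ.smul, map_one]
  · exact fun h0 => ht' ((map_eq_zero τ).1 h0)
  · rw [← hθ.adj, ← map_mul, hrt, hθ.smul, map_one]

end Pool.Agent.H76Q
end

-- from Lib.H76Q.E2
section

/-!
# rational pure tensors
-/

set_option autoImplicit false
set_option linter.unusedSectionVars false
namespace Pool.Agent.H76Q
open Module Matrix Pool.Agent.H53Toric
open Pool.Agent.H76P
open Pool.Agent.H76T (IsIdeal Fam)
open Pool.Agent.H76V (Cmp)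

variable {κ : Type*} {K : Type*} [Field K] [CharZero K] [Fintype κ] [DecidableEq κ]
  {L : Submodule K (Module.End K (κ → K))} {J : Matrix κ κ K} [IsAlgClosed K] [Nonempty κ]
  {Y : Submodule ℚ (κ → ℚ)} {P : Module.End ℚ Y}

/-- The conditions on a set `T` of semilinear automorphisms: each `θ ∈ T` respects `P`, and there is a
space of linear forms which separates the operators and on which `θ` acts semilinearly. -/
def TSet (L : Submodule K (Module.End K (κ → K))) (J : Matrix κ κ K) (P : Module.End ℚ Y)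
    (T : Set ((Module.End K (κ → K) ≃+* Module.End K (κ → K)) × (K ≃+* K)))
    (W : Set (Module.End K (κ → K) →ₗ[K] K)) : Prop :=
  (∀ x ∈ T, ∃ σ, Theta L J x.1 x.2 σ ∧ StabP P σ) ∧
  (∀ x ∈ T, ∀ w ∈ W, ∀ X, w (x.1 X) = x.2 (w X)) ∧ ∀ X, X ≠ 0 → ∃ w ∈ W, w X ≠ 0

/-- PROOF. `u ≠ 0` (`t ≠ 0`); let `w u ≠ 0`, `c = (w u)⁻¹`.  For `x = (θ, τ) ∈ T`: `θ X = X`, so by `Theta.pt` and `PT_unique` `θ u = d • u`;
`w (θ u) = τ (w u)` gives `d * w u = τ (w u)`, so `θ (c • u) = τ c • d • u = c • u`.  The second statement: `θ (adjE J u * u) = adjE J (θ u) * θ u`. -/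
theorem exists_norm (h : TS L J) (hY : Yo L = Y) (hP : Sp P) (hc : Comp L P)
    {T : Set ((Module.End K (κ → K) ≃+* Module.End K (κ → K)) × (K ≃+* K))}
    {W : Set (Module.End K (κ → K) →ₗ[K] K)} (hT : TSet L J P T W)
    {X u r : Module.End K (κ → K)} {t : K} (h1 : PT L J P X u r t)
    (hX : ∀ x ∈ T, x.1 X = X) {w : Module.End K (κ → K) →ₗ[K] K} (hw : w ∈ W) (hwu : w u ≠ 0) :
    ∀ x ∈ T, x.1 ((w u)⁻¹ • u) = (w u)⁻¹ • u ∧ x.2 ((w u)⁻¹ ^ 2 * t) = (w u)⁻¹ ^ 2 * t := by
  intro x hx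
  obtain ⟨σ, hθ, hst⟩ := hT.1 x hx
  have h2 : PT L J P (x.1 X) (x.1 u) (x.1 r) (x.2 t) := hθ.pt hY hst h1
  rw [hX x hx] at h2
  obtain ⟨c, hc0, hcu, hct⟩ := PT_unique h hY hP hc h1 h2
  have h3 : c * w u = x.2 (w u) := by
    rw [← hT.2.1 x hx w hw u, hcu, map_smul, smul_eq_mul]
  constructor
  · rw [hθ.smul, map_inv₀, ← h3, hcu, smul_smul, mul_inv, mul_assoc, mul_comm (w u)⁻¹ c,
      ← mul_assoc, inv_mul_cancel₀ hc0, one_mul]
  · rw [map_mul, map_pow, map_inv₀, ← h3, hct]
    field_simp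

/-- PROOF. Induction over the closure.  `(c • u, c⁻¹ • r)` with `c` as in `exists_norm` is a factorisation of `X` with `u` fixed and fixed multiplier `t`; for `X * X` the
factorisation `(u * u, r * r)` has multiplier `t ^ 2` (`PT_mul`). -/
theorem squares (h : TS L J) (hY : Yo L = Y) (hP : Sp P) (hc : Comp L P)
    {T : Set ((Module.End K (κ → K) ≃+* Module.End K (κ → K)) × (K ≃+* K))}
    {W : Set (Module.End K (κ → K) →ₗ[K] K)} (hT : TSet L J P T W)
    {A : Set (Module.End K (κ → K))} (hA : ∀ X ∈ A, (∃ u r t, PT L J P X u r t) ∧ ∀ x ∈ T, x.1 X = X)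
    {X : Module.End K (κ → K)} (hX : X ∈ Submonoid.closure {Z | ∃ X ∈ A, Z = X * X}) :
    ∃ u r c, PT L J P X u r (c ^ 2) ∧ c ≠ 0 ∧ ∀ x ∈ T, x.1 u = u ∧ x.2 c = c := by
  induction hX using Submonoid.closure_induction with
  | mem Z hZ =>
    obtain ⟨X, hXA, rfl⟩ := hZ
    obtain ⟨⟨u, r, t, h1⟩, hfix⟩ := hA X hXA
    have hu0 : u ≠ 0 := by
      intro h0
      have h2 := h1.2.2.2.2.1
      rw [h0, mul_zero] at h2
      have h3 : t • (1 : Module.End K (κ → K)) ≠ 0 := smul_ne_zero h1.2.2.2.1 one_ne_zero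
      exact h3 h2.symm
    obtain ⟨w, hw, hwu⟩ := hT.2.2 u hu0
    have hn := exists_norm h hY hP hc hT h1 hfix hw hwu
    obtain ⟨hu, hr, hXur, ht, hadj, t', ht', hadj'⟩ := h1
    have h2 : PT L J P X ((w u)⁻¹ • u) ((w u) • r) ((w u)⁻¹ ^ 2 * t) := by
      refine ⟨(AZ L P).smul_mem hu _, (AZ L (1 - P)).smul_mem hr _, ?_, ?_, ?_,
        (w u) ^ 2 * t', ?_, ?_⟩
      · rw [smul_mul_smul_comm, inv_mul_cancel₀ hwu, one_smul]
        exact hXur
      · exact mul_ne_zero (pow_ne_zero 2 (inv_ne_zero hwu)) ht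
      · rw [map_smul, smul_mul_smul_comm, hadj, smul_smul, pow_two]
      · exact mul_ne_zero (pow_ne_zero 2 hwu) ht'
      · rw [map_smul, smul_mul_smul_comm, hadj', smul_smul, pow_two]
    have h3 := PT_mul h hY hP h2 h2
    rw [← pow_two ((w u)⁻¹ ^ 2 * t)] at h3
    refine ⟨_, _, _, h3, ?_, ?_⟩
    · exact mul_ne_zero (pow_ne_zero 2 (inv_ne_zero hwu)) ht
    · intro x hx
      obtain ⟨h4, h5⟩ := hn x hx
      exact ⟨by rw [map_mul, h4], h5⟩
  | one =>
    have h1 : PT L J P 1 1 1 (1 : K) := PT_one h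
    refine ⟨1, 1, 1, ?_, one_ne_zero, fun x _ => ⟨map_one _, map_one _⟩⟩
    rw [one_pow]
    exact h1
  | mul X X' _ _ ih ih' =>
    obtain ⟨u, r, c, h1, hc0, hfix⟩ := ih
    obtain ⟨u', r', c', h1', hc0', hfix'⟩ := ih'
    have h2 := PT_mul h hY hP h1 h1'
    rw [← mul_pow] at h2
    refine ⟨_, _, _, h2, mul_ne_zero hc0 hc0', fun x hx => ⟨?_, ?_⟩⟩
    · rw [map_mul, (hfix x hx).1, (hfix' x hx).1]
    · rw [map_mul, (hfix x hx).2, (hfix' x hx).2]

end Pool.Agent.H76Q
end

-- from Lib.H76Q.C4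
section

/-!
# matrix entries
-/

set_option autoImplicit false
set_option linter.unusedSectionVars false
namespace Pool.Agent.H76Q
open Module Matrix Pool.Agent.H53Toric
open Pool.Agent.H76P
open Pool.Agent.H76T (IsIdeal Fam)
open Pool.Agent.H76V (Cmp)

variable {κ : Type*} {K : Type*} [Field K] [CharZero K] [Fintype κ] [DecidableEq κ]
  {L : Submodule K (Module.End K (κ → K))} {J : Matrix κ κ K} [IsAlgClosed K] [Nonempty κ]
  {Y : Submodule ℚ (κ → ℚ)} {P : Module.End ℚ Y}

/-- PROOF. `dq f ∈ AZ L P` for `f ∈ Y` with `FunP P f` (`dq_AZ`); it commutes with `B` (`AZ_comm`); compare the entries `(c, k)` of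
`dq f * B` and `B * dq f` (`H76P.t5_left`, `t5_right`): `f c = f k`.  For `f : Y` apply this to `P f`. -/
theorem entry_cz (h : TS L J) (hY : Yo L = Y) (hP : Sp P) (hc : Comp L P)
    {B : Module.End K (κ → K)} (hB : B ∈ AZ L (1 - P)) {c k : κ}
    (hck : LinearMap.toMatrix' B c k ≠ 0) : cz P c k := by
  intro f
  have h1 : (dq (P f : κ → ℚ) : Module.End K (κ → K)) ∈ AZ L P := by
    refine dq_AZ h hY hP hc (P f).2 ?_
    intro a b hab
    exact hab f
  have h2 := AZ_comm h hY hP _ h1 B hB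
  have h3 := congrArg (fun X : Module.End K (κ → K) => LinearMap.toMatrix' X c k) h2
  change LinearMap.toMatrix' (dq (P f : κ → ℚ) * B) c k
    = LinearMap.toMatrix' (B * dq (P f : κ → ℚ)) c k at h3
  rw [t5_left, t5_right] at h3
  have h4 := mul_right_cancel₀ hck h3
  exact_mod_cast h4

theorem c4_compl (hP : Sp P) : Sp (1 - P) where
  idem := by
    refine LinearMap.ext fun f => ?_
    have h2 : P (P f) = P f := LinearMap.congr_fun hP.idem f
    change (f - P f) - P (f - P f) = f - P f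
    rw [map_sub, h2, sub_self, sub_zero]
  mix := by
    intro a b
    obtain ⟨c, hc⟩ := hP.mix b a
    refine ⟨c, fun f => ?_⟩
    have h1 : (((1 - P) f : Y) : κ → ℚ) = (f : κ → ℚ) - (P f : κ → ℚ) := rfl
    rw [hc f, h1, Pi.sub_apply, Pi.sub_apply]
    ring

theorem c4_top (h : TS L J) (hY : Yo L = Y) (hP : Sp P) (hc : Comp L P)
    (X : Module.End K (κ → K)) :
    X ∈ Subalgebra.toSubmodule (AZ L P) * Subalgebra.toSubmodule (AZ L (1 - P)) := by
  set M := Subalgebra.toSubmodule (AZ L P) * Subalgebra.toSubmodule (AZ L (1 - P)) with hM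
  have h1 : (1 : Module.End K (κ → K)) ∈ M := by
    have := Submodule.mul_mem_mul (M := Subalgebra.toSubmodule (AZ L P))
      (N := Subalgebra.toSubmodule (AZ L (1 - P))) (AZ L P).one_mem (AZ L (1 - P)).one_mem
    rwa [mul_one] at this
  have h2 : ∀ x y, x ∈ M → y ∈ M → x * y ∈ M := by
    intro x y hx hy
    refine Submodule.mul_induction_on hx (fun a ha b hb => ?_) (fun x x' h1 h2 => ?_)
    · refine Submodule.mul_induction_on hy (fun a' ha' b' hb' => ?_) (fun y y' h1 h2 => ?_)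
      · have h3 := AZ_comm h hY hP a' ha' b hb
        have h4 : a * b * (a' * b') = a * a' * (b * b') := by
          rw [mul_assoc, ← mul_assoc b a' b', ← h3, mul_assoc a' b b', ← mul_assoc a a']
        rw [h4]
        exact Submodule.mul_mem_mul ((AZ L P).mul_mem ha ha') ((AZ L (1 - P)).mul_mem hb hb')
      · rw [mul_add]
        exact M.add_mem h1 h2
    · rw [add_mul]
      exact M.add_mem h1 h2
  have h3 : AZ L P ⊔ AZ L (1 - P) ≤ M.toSubalgebra h1 h2 := by
    refine sup_le ?_ ?_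
    · intro a ha
      have := Submodule.mul_mem_mul (M := Subalgebra.toSubmodule (AZ L P))
        (N := Subalgebra.toSubmodule (AZ L (1 - P))) ha (AZ L (1 - P)).one_mem
      rw [mul_one] at this
      exact this
    · intro b hb
      have := Submodule.mul_mem_mul (M := Subalgebra.toSubmodule (AZ L P))
        (N := Subalgebra.toSubmodule (AZ L (1 - P))) (AZ L P).one_mem hb
      rw [one_mul] at this
      exact this
  rw [AZ_top h hc] at h3
  exact h3 (Algebra.mem_top (x := X))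

theorem c4_compl2 : (1 - (1 - P) : Module.End ℚ Y) = P := sub_sub_cancel 1 P

/-- PROOF. `AZ L P ⊔ AZ L (1 - P) = ⊤` (`AZ_top`) and the algebras commute (`AZ_comm`), so each operator is a sum of products `A * B`.  So there are
`A ∈ AZ L P`, `B ∈ AZ L (1 - P)` with `(A * B) k' k ≠ 0`, so `A k' c ≠ 0`, `B c k ≠ 0` for some `c`.  `entry_cz` for `P`: `c ~ k` in the first
coordinate, so `c ~ k'`; `entry_cz` for `1 - P`: `k' ~ c` in the second coordinate.  So `c = k'` (`cz_both`, `TS.sep`). -/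
theorem exB (h : TS L J) (hY : Yo L = Y) (hP : Sp P) (hc : Comp L P) {k k' : κ}
    (hk : cz P k k') : ∃ B ∈ AZ L (1 - P), LinearMap.toMatrix' B k' k ≠ 0 := by
  have h1 : ∃ A ∈ AZ L P, ∃ B ∈ AZ L (1 - P), LinearMap.toMatrix' (A * B) k' k ≠ 0 := by
    by_contra hcon
    push Not at hcon
    have h2 : ∀ X : Module.End K (κ → K), LinearMap.toMatrix' X k' k = 0 := by
      intro X
      refine Submodule.mul_induction_on (c4_top h hY hP hc X) (fun a ha b hb => ?_)
        (fun x y hx hy => ?_)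
      · exact hcon a ha b hb
      · rw [map_add, Matrix.add_apply, hx, hy, add_zero]
    have h3 := h2 (Matrix.toLin' (Matrix.single k' k (1 : K)))
    rw [LinearMap.toMatrix'_toLin', Matrix.single_apply_same] at h3
    exact one_ne_zero h3
  obtain ⟨A, hA, B, hB, hAB⟩ := h1
  have h4 : LinearMap.toMatrix' (A * B) = LinearMap.toMatrix' A * LinearMap.toMatrix' B :=
    LinearMap.toMatrix'_mul A B
  rw [h4, Matrix.mul_apply] at hAB
  obtain ⟨c, -, hcne⟩ := Finset.exists_ne_zero_of_sum_ne_zero hAB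
  have hA0 : LinearMap.toMatrix' A k' c ≠ 0 := left_ne_zero_of_mul hcne
  have hB0 : LinearMap.toMatrix' B c k ≠ 0 := right_ne_zero_of_mul hcne
  have h5 : cz P c k := entry_cz h hY hP hc hB hB0
  have h6 : cz (1 - P) k' c := by
    refine entry_cz h hY (c4_compl hP) hc.compl (B := A) ?_ hA0
    rw [c4_compl2]
    exact hA
  have h7 : c = k' := by
    refine cz_both ?_ (cz_trans h5 hk) (cz_symm h6)
    intro a b hab
    obtain ⟨f, hf, hne⟩ := h.sep a b hab
    exact ⟨f, hY ▸ hf, hne⟩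
  exact ⟨B, hB, h7 ▸ hB0⟩

theorem c4_left (f : κ → K) (X : Module.End K (κ → K)) (c d : κ) :
    LinearMap.toMatrix' (dg f * X) c d = f c * LinearMap.toMatrix' X c d := by
  rw [LinearMap.toMatrix'_apply, LinearMap.toMatrix'_apply]
  rfl

theorem c4_right (f : κ → K) (X : Module.End K (κ → K)) (c d : κ) :
    LinearMap.toMatrix' (X * dg f) c d = f d * LinearMap.toMatrix' X c d := by
  rw [LinearMap.toMatrix'_apply, LinearMap.toMatrix'_apply, Module.End.mul_apply]
  have h : (dg f : Module.End K (κ → K)) (Pi.single d 1) = f d • Pi.single d 1 := by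
    ext a
    rw [dg_apply, Pi.smul_apply, smul_eq_mul]
    by_cases h : a = d
    · subst h
      rfl
    · rw [Pi.single_eq_of_ne h, mul_zero, mul_zero]
  rw [h, map_smul, Pi.smul_apply, smul_eq_mul]

/-- PROOF. With `B` as in `exB` compare the entries `(k', k)` of `dg g * B = B * dg g`. -/
theorem diag_AZ (h : TS L J) (hY : Yo L = Y) (hP : Sp P) (hc : Comp L P) {g : κ → K}
    (hg : dg g ∈ AZ L P) : FunP P g := by
  intro k k' hk
  obtain ⟨B, hB, hB0⟩ := exB h hY hP hc hk
  have h1 := AZ_comm h hY hP _ hg B hB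
  have h2 := congrArg (fun X : Module.End K (κ → K) => LinearMap.toMatrix' X k' k) h1
  change LinearMap.toMatrix' (dg g * B) k' k = LinearMap.toMatrix' (B * dg g) k' k at h2
  rw [c4_left, c4_right] at h2
  exact (mul_right_cancel₀ hB0 h2).symm

end Pool.Agent.H76Q
end

-- from Lib.H76Q.C6
section

/-!
# diagonal pure tensors
-/

set_option autoImplicit false
set_option linter.unusedSectionVars false
namespace Pool.Agent.H76Q
open Module Matrix Pool.Agent.H53Toric
open Pool.Agent.H76P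
open Pool.Agent.H76T (IsIdeal Fam)
open Pool.Agent.H76V (Cmp)

variable {κ : Type*} {K : Type*} [Field K] [CharZero K] [Fintype κ] [DecidableEq κ]
  {L : Submodule K (Module.End K (κ → K))} {J : Matrix κ κ K} [IsAlgClosed K] [Nonempty κ]
  {Y : Submodule ℚ (κ → ℚ)} {P : Module.End ℚ Y}

theorem c6_left (f : κ → K) (X : Module.End K (κ → K)) (c d : κ) :
    LinearMap.toMatrix' (dg f * X) c d = f c * LinearMap.toMatrix' X c d := by
  rw [LinearMap.toMatrix'_apply, LinearMap.toMatrix'_apply]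
  rfl

theorem c6_right (f : κ → K) (X : Module.End K (κ → K)) (c d : κ) :
    LinearMap.toMatrix' (X * dg f) c d = f d * LinearMap.toMatrix' X c d := by
  rw [LinearMap.toMatrix'_apply, LinearMap.toMatrix'_apply, Module.End.mul_apply]
  have h : (dg f : Module.End K (κ → K)) (Pi.single d 1) = f d • Pi.single d 1 := by
    ext a
    rw [dg_apply, Pi.smul_apply, smul_eq_mul]
    by_cases h : a = d
    · subst h
      rfl
    · rw [Pi.single_eq_of_ne h, mul_zero, mul_zero]
  rw [h, map_smul, Pi.smul_apply, smul_eq_mul]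

theorem c6_mat (f : κ → K) : LinearMap.toMatrix' (dg f) = Matrix.diagonal f := by
  ext a b
  rw [LinearMap.toMatrix'_apply, dg_apply, Matrix.diagonal_apply]
  by_cases hab : a = b
  · subst hab
    rw [if_pos rfl, Pi.single_eq_same, mul_one]
  · rw [if_neg hab, Pi.single_eq_of_ne hab, mul_zero]

theorem c6_comm {g : κ → K} (hg : Function.Injective g) {X : Module.End K (κ → K)}
    (hX : dg g * X = X * dg g) : ∃ f : κ → K, X = dg f := by
  refine ⟨fun a => LinearMap.toMatrix' X a a, ?_⟩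
  apply LinearMap.toMatrix'.injective
  rw [c6_mat]
  ext a b
  rw [Matrix.diagonal_apply]
  by_cases hab : a = b
  · subst hab
    rw [if_pos rfl]
  · rw [if_neg hab]
    have h1 := congrArg (fun X : Module.End K (κ → K) => LinearMap.toMatrix' X a b) hX
    change LinearMap.toMatrix' (dg g * X) a b = LinearMap.toMatrix' (X * dg g) a b at h1
    rw [c6_left, c6_right, ← sub_eq_zero, ← sub_mul] at h1
    rcases mul_eq_zero.1 h1 with h2 | h2
    · exact absurd (hg (sub_eq_zero.1 h2)) hab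
    · exact h2

/-- PROOF. `u`, `r` commute with `dg g = u * r`, `g` is injective, so `u = dg u₀`, `r = dg r₀` (see `H76P.cmp_diag`); `diag_AZ` for `P` and `1 - P`
(`Comp.compl`, `Sp.compl`). -/
theorem PT_diag (h : TS L J) (hY : Yo L = Y) (hP : Sp P) (hc : Comp L P) {g : κ → K}
    (hg : Function.Injective g) {u r : Module.End K (κ → K)} {t : K}
    (h1 : PT L J P (dg g) u r t) :
    ∃ u₀ r₀ : κ → K, u = dg u₀ ∧ r = dg r₀ ∧ FunP P u₀ ∧ FunP (1 - P) r₀ ∧
      ∀ k, g k = u₀ k * r₀ k := by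
  obtain ⟨hu, hr, hX, -⟩ := h1
  have hur : u * r = r * u := AZ_comm h hY hP u hu r hr
  have h2 : dg g * u = u * dg g := by
    rw [hX, mul_assoc, ← hur]
  have h3 : dg g * r = r * dg g := by
    rw [hX, hur, mul_assoc, hur]
  obtain ⟨u₀, hu₀⟩ := c6_comm hg h2
  obtain ⟨r₀, hr₀⟩ := c6_comm hg h3
  refine ⟨u₀, r₀, hu₀, hr₀, ?_, ?_, ?_⟩
  · refine diag_AZ h hY hP hc ?_
    rw [← hu₀]
    exact hu
  · refine diag_AZ h hY (c4_compl hP) hc.compl ?_
    rw [← hr₀]
    exact hr
  · intro k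
    rw [hu₀, hr₀, dg_mul] at hX
    exact congrFun (dg_inj hX) k

/-- PROOF. The condition says `uᵀ J u = t J` for the diagonal matrix `u`; for each `k` some `J k l ≠ 0` (`hJd`), `l = bar k`. -/
theorem lam_diag {bar : Equiv.Perm κ} (hJd : IsUnit J.det) (hJ : ∀ k l, J k l ≠ 0 → l = bar k)
    {u₀ : κ → K} {t : K} (h1 : adjE J (dg u₀) * dg u₀ = t • 1) (k : κ) :
    u₀ k * u₀ (bar k) = t := by
  have hphi : (dg u₀ : Module.End K (κ → K)) = phi (Matrix.diagonal u₀) := by
    refine LinearMap.ext fun v => ?_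
    rw [phi_apply]
    funext a
    rw [Matrix.mulVec_diagonal]
    rfl
  have hone : (t • (1 : Module.End K (κ → K))) = phi (t • (1 : Matrix κ κ K)) := by
    rw [map_smul, map_one]
  rw [hphi, adjE_phi, ← map_mul, hone] at h1
  have h2 := (phi (ι := κ) (K := K)).injective h1
  have h3 : (Matrix.diagonal u₀) * J * (Matrix.diagonal u₀) = t • J := by
    have h4 := congrArg (fun M => J * M) h2
    simp only [Matrix.diagonal_transpose] at h4
    rw [← mul_assoc, ← mul_assoc, ← mul_assoc, Matrix.mul_nonsing_inv _ hJd, one_mul,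
      mul_smul_comm, mul_one] at h4
    exact h4
  have h5 : ∃ l, J k l ≠ 0 := by
    by_contra hcon
    push Not at hcon
    exact hJd.ne_zero (Matrix.det_eq_zero_of_row_eq_zero k hcon)
  obtain ⟨l, hl⟩ := h5
  have hlb := hJ k l hl
  have h6 := congrFun (congrFun h3 k) l
  rw [Matrix.mul_diagonal, Matrix.diagonal_mul, Matrix.smul_apply, smul_eq_mul] at h6
  have h7 : (u₀ k * u₀ l) * J k l = t * J k l := by
    rw [← h6]
    ring
  have h8 := mul_right_cancel₀ hl h7
  rw [← hlb]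
  exact h8

end Pool.Agent.H76Q
end

-- from Lib.H76Q.B1
section

/-!
# product decompositions of a configuration
-/

set_option autoImplicit false
set_option linter.unusedSectionVars false
namespace Pool.Agent.H76Q
open Module Matrix Pool.Agent.H53Toric
open Pool.Agent.H76P
open Pool.Agent.H76T (IsIdeal Fam)
open Pool.Agent.H76V (Cmp)

variable {κ : Type*} [Fintype κ] [DecidableEq κ] {Y : Submodule ℚ (κ → ℚ)} {P : Module.End ℚ Y}

theorem b1_ptS (a : κ) (f : Y) : ptS Y a f = (f : κ → ℚ) a := rfl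

theorem b1_dual (φ : Module.Dual ℚ Y) (f : Y) : P.dualMap φ f = φ (P f) := rfl

theorem dualMap_inj {P' : Module.End ℚ Y} (h : P.dualMap = P'.dualMap) : P = P' := by
  refine LinearMap.ext fun f => ?_
  rw [← sub_eq_zero, ← Module.forall_dual_apply_eq_zero_iff ℚ]
  intro φ
  rw [map_sub, sub_eq_zero]
  exact congrArg (fun T : Module.End ℚ (Module.Dual ℚ Y) => T φ f) h

theorem b1_mul (P P' : Module.End ℚ Y) : (P * P').dualMap = P'.dualMap * P.dualMap := rfl

/-- PROOF. `(P.dualMap (ptS Y a)) f = (P f) a`; both sides say the same. -/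
theorem Sp_iff : Sp P ↔ Spl (ptS Y) P.dualMap := by
  constructor
  · intro h
    refine ⟨by rw [← b1_mul, h.idem], fun a b => ?_⟩
    obtain ⟨c, hc⟩ := h.mix a b
    refine ⟨c, LinearMap.ext fun f => ?_⟩
    rw [LinearMap.add_apply, b1_dual, LinearMap.sub_apply, b1_ptS, b1_ptS, b1_ptS, b1_ptS, hc f]
    ring
  · intro h
    refine ⟨dualMap_inj (by rw [b1_mul, h.1]), fun a b => ?_⟩
    obtain ⟨c, hc⟩ := h.2 a b
    refine ⟨c, fun f => ?_⟩
    have h1 := LinearMap.congr_fun hc f
    rw [LinearMap.add_apply, b1_dual, LinearMap.sub_apply, b1_ptS, b1_ptS, b1_ptS, b1_ptS] at h1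
    rw [h1]
    ring

/-- PROOF. `Y` is finite dimensional, so each endomorphism of the dual space is a transpose (`Module.evalEquiv`). -/
theorem exists_P {z : Module.End ℚ (Module.Dual ℚ Y)} (hz : Spl (ptS Y) z) :
    ∃ P : Module.End ℚ Y, Sp P ∧ P.dualMap = z := by
  have h1 : ∃ P : Module.End ℚ Y, P.dualMap = z := by
    refine ⟨(Module.evalEquiv ℚ Y).symm.toLinearMap ∘ₗ z.dualMap ∘ₗ (Module.Dual.eval ℚ Y), ?_⟩
    refine LinearMap.ext fun φ => LinearMap.ext fun f => ?_
    rw [b1_dual]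
    simp only [LinearMap.comp_apply, LinearEquiv.coe_coe]
    rw [Module.apply_evalEquiv_symm_apply]
    rfl
  obtain ⟨P, hP⟩ := h1
  exact ⟨P, Sp_iff.2 (by rw [hP]; exact hz), hP⟩

/-- PROOF. `Spl.compl`, or directly: for `a`, `b` take `c` of `(b, a)`. -/
theorem Sp.compl (h : Sp P) : Sp (1 - P) := by
  have hPP : ∀ f : Y, P (P f) = P f := fun f => by
    have h1 : (P * P) f = P f := by rw [h.idem]
    exact h1
  refine ⟨LinearMap.ext fun f => ?_, fun a b => ?_⟩
  · show (f - P f) - P (f - P f) = f - P f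
    rw [map_sub, hPP, sub_self, sub_zero]
  obtain ⟨c, hc⟩ := h.mix b a
  refine ⟨c, fun f => ?_⟩
  rw [hc f]
  have h1 : ∀ k, (((1 - P) f : Y) : κ → ℚ) k = (f : κ → ℚ) k - (P f : κ → ℚ) k := by
    intro k
    rw [LinearMap.sub_apply, Module.End.one_apply, Submodule.coe_sub, Pi.sub_apply]
  rw [h1, h1]
  ring

end Pool.Agent.H76Q
end

-- from Lib.H76Q.F4
section

/-!
# unramified factors
-/

set_option autoImplicit false
set_option linter.unusedSectionVars false
namespace Pool.Agent.H76Q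
open Module Matrix Polynomial Pool.Agent.H53Toric
open Pool.Agent.H76P
open Pool.Agent.H76T (IsIdeal Fam Lc)
open Pool.Agent.H76V (Cmp)
open Pool.Agent.H76U (cmp preL IsSplitting)
open Pool.Agent.H76RM (spanK similD)

variable {ι : Type*} [Fintype ι] [DecidableEq ι] {K : Type*} [Field K] [CharZero K]
  [IsAlgClosed K] {J : Matrix ι ι K} {S 𝓗 : Set (Matrix ι ι K)} {e x : Matrix ι ι K} {q : K} {n : ℕ}
  {U : Matrix ι (Fin n) K} {V : Matrix (Fin n) ι K} {d : Fin n → K}
  {Y : Submodule ℚ (Fin n → ℚ)}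

/-- The linear map `X ↦ U X V`. -/
noncomputable def f4_T (U : Matrix ι (Fin n) K) (V : Matrix (Fin n) ι K) :
    Module.End K (Fin n → K) →ₗ[K] Matrix ι ι K where
  toFun X := U * (phi.symm X) * V
  map_add' := by
    intro X X'
    rw [map_add, Matrix.mul_add, Matrix.add_mul]
  map_smul' := by
    intro c X
    rw [map_smul, Matrix.mul_smul, Matrix.smul_mul]
    rfl

theorem f4_T_apply (U : Matrix ι (Fin n) K) (V : Matrix (Fin n) ι K) (X : Module.End K (Fin n → K)) :
    f4_T U V X = U * (phi.symm X) * V := rfl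

theorem f4_left (hUV : e = U * V) (hVU : V * U = 1) {C : Matrix ι ι K} (hC : C * e = e * C)
    (X : Module.End K (Fin n → K)) :
    C * f4_T U V X = f4_T U V (phi (cmp U V C) * X) := by
  rw [f4_T_apply, f4_T_apply, map_mul, AlgEquiv.symm_apply_apply]
  calc C * (U * phi.symm X * V) = (C * U) * phi.symm X * V := by simp only [Matrix.mul_assoc]
    _ = (U * cmp U V C) * phi.symm X * V := by rw [Pool.Agent.H76U.P_cmp hUV hVU hC]
    _ = U * (cmp U V C * phi.symm X) * V := by simp only [Matrix.mul_assoc]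

theorem f4_right (hUV : e = U * V) (hVU : V * U = 1) {C : Matrix ι ι K} (hC : C * e = e * C)
    (X : Module.End K (Fin n → K)) :
    f4_T U V X * C = f4_T U V (X * phi (cmp U V C)) := by
  rw [f4_T_apply, f4_T_apply, map_mul, AlgEquiv.symm_apply_apply]
  calc U * phi.symm X * V * C = U * phi.symm X * (V * C) := by simp only [Matrix.mul_assoc]
    _ = U * phi.symm X * (cmp U V C * V) := by rw [Pool.Agent.H76U.cmp_Q hUV hVU hC]
    _ = U * (phi.symm X * cmp U V C) * V := by simp only [Matrix.mul_assoc]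

theorem f4_inj (hVU : V * U = 1) {X X' : Module.End K (Fin n → K)}
    (h : f4_T U V X = f4_T U V X') : X = X' := by
  have h1 : ∀ Z : Module.End K (Fin n → K), V * f4_T U V Z * U = phi.symm Z := by
    intro Z
    rw [f4_T_apply]
    calc V * (U * phi.symm Z * V) * U = (V * U) * phi.symm Z * (V * U) := by
          simp only [Matrix.mul_assoc]
      _ = phi.symm Z := by rw [hVU, Matrix.one_mul, Matrix.mul_one]
  have h2 := congrArg (fun A => V * A * U) h
  simp only [h1] at h2
  exact phi.symm.injective h2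

/-- PROOF. Let `I'` be an ideal of `L = Lc J S U V`, `InP P I'`, and `I = {U * toMatrix' X * V : X ∈ I'}`.  `I` is `adStable` for `zlie S`: `C ∈ zlie S` commutes with `e`, so
`C * U X V - U X V * C = U (cmp C * X - X * cmp C) V`, and `cmp C = X' + c` with `X' ∈ L` (`h.lie`).  `μ` commutes with `I`: `μ * U X V = U (cmp μ) X V`, `phi (cmp μ) = (1 + dq ε) / 2`
(`HT_spec`), `dq ε ∈ AZ L (1 - P)` (`dq_AZ` for `1 - P`, `Comp.compl`, `Sp.compl`), `X ∈ AZ L P`, `AZ_comm`.  So `hz` gives `z * U X V = U X V * z`; multiply with `V`, `U`. -/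
theorem unr_comm (h : Loc J S 𝓗 e x q U V d Y) {μ : Matrix ι ι K} (hμ : μ ∈ 𝓗)
    (hμx : μ * x = x * μ) {ε : Fin n → ℚ} (hε : IsHT μ x e d ε) {P : Module.End ℚ Y}
    (hP : Sp P) (hc : Comp (Lc J S U V) P) (hεP : FunP (1 - P) ε) {z : Matrix ι ι K}
    (hze : z * e = e * z)
    (hz : ∀ I : Submodule K (Matrix ι ι K), adStable (zlie S) I → (∀ X ∈ I, μ * X = X * μ) →
      ∀ X ∈ I, z * X = X * z) :
    ∀ A ∈ AZ (Lc J S U V) P, phi (cmp U V z) * A = A * phi (cmp U V z) := by
  have : Nonempty (Fin n) := ⟨⟨0, h.pos⟩⟩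
  have key : ∀ X ∈ {X | ∃ I, IsIdeal (Lc J S U V) I ∧ InP P I ∧ X ∈ I},
      phi (cmp U V z) * X = X * phi (cmp U V z) := by
    rintro X ⟨I', hI', hIP, hX⟩
    obtain ⟨_, hμe, _, _⟩ := h.par μ hμ
    have h1 := hz (I'.map (f4_T U V)) ?_ ?_ (f4_T U V X) (Submodule.mem_map_of_mem hX)
    · rw [f4_left h.UV h.VU hze, f4_right h.UV h.VU hze] at h1
      exact f4_inj h.VU h1
    · rintro C hC _ ⟨X', hX', rfl⟩
      obtain ⟨hCe, c, hc1⟩ := h.lie C hC
      rw [f4_left h.UV h.VU hCe, f4_right h.UV h.VU hCe, ← map_sub]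
      refine Submodule.mem_map_of_mem ?_
      have h2 := hI'.2 _ hc1 X' hX'
      have h3 : phi (cmp U V (C - c • 1)) = phi (cmp U V C) - c • 1 := by
        rw [map_sub, map_smul, Pool.Agent.H76U.cmp_one h.UV h.VU, map_sub, map_smul, map_one]
      have h4 : phi (cmp U V C) * X' - X' * phi (cmp U V C)
          = phi (cmp U V (C - c • 1)) * X' - X' * phi (cmp U V (C - c • 1)) := by
        rw [h3, sub_mul, mul_sub, smul_mul_assoc, mul_smul_comm, one_mul, mul_one]
        abel
      rw [h4]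
      exact h2
    · rintro _ ⟨X', hX', rfl⟩
      rw [f4_left h.UV h.VU hμe, f4_right h.UV h.VU hμe]
      congr 1
      obtain ⟨hval, hY, _⟩ := HT_spec h hμ hμx hε
      have h5 : X' ∈ AZ (Lc J S U V) P := Algebra.subset_adjoin ⟨I', hI', hIP, hX'⟩
      have h6 : dq ε ∈ AZ (Lc J S U V) (1 - P) := dq_AZ h.ts h.yo hP.compl hc.compl hY hεP
      have h7 := AZ_comm h.ts h.yo hP X' h5 _ h6
      rw [← hval] at h7
      have h8 : phi (cmp U V ((2 : K) • μ - 1)) = (2 : K) • phi (cmp U V μ) - 1 := by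
        rw [map_sub, map_smul, Pool.Agent.H76U.cmp_one h.UV h.VU, map_sub, map_smul, map_one]
      rw [h8, mul_sub, sub_mul, mul_one, one_mul, sub_left_inj, mul_smul_comm, smul_mul_assoc] at h7
      exact (smul_right_injective _ (two_ne_zero : (2 : K) ≠ 0) h7).symm
  intro A hA
  have h9 : AZ (Lc J S U V) P ≤ Subalgebra.centralizer K {phi (cmp U V z)} := by
    unfold AZ
    refine Algebra.adjoin_le fun X hX => ?_
    rw [SetLike.mem_coe, Subalgebra.mem_centralizer_iff]
    intro Z hZ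
    rw [Set.mem_singleton_iff.1 hZ]
    exact key X hX
  have h10 := h9 hA
  rw [Subalgebra.mem_centralizer_iff] at h10
  exact h10 _ (Set.mem_singleton _)

end Pool.Agent.H76Q
end

-- from Lib.H76Q.D2
section

/-!
# the lift and local data
-/

set_option autoImplicit false
set_option linter.unusedSectionVars false
namespace Pool.Agent.H76Q
open Module Matrix Pool.Agent.H53Toric
open Pool.Agent.H76P
open Pool.Agent.H76T (IsIdeal Fam)
open Pool.Agent.H76V (Cmp)

variable {κ : Type*} [Fintype κ] [DecidableEq κ] [Nonempty κ] {Y : Submodule ℚ (κ → ℚ)}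
  {P : Module.End ℚ Y} {Ω : Type*} [Field Ω] {a : κ → Ω}

/-- PROOF. For `k`, `k'` and `c` as in `Lift.rat` (`Sp.exists_mx`): `i (t k) / i (t k') = i (a c) / i (a k') = u k / u k'` because
`u c = u k`, `r c = r k'`. -/
theorem Lift.eq_c {t : κ → Ω} (ht : Lift P a t) (ha0 : ∀ k, a k ≠ 0) (hP : Sp P) {K : Type*}
    [Field K] {i : Ω →+* K} {u r : κ → K} (hl : LD P a i u r) :
    ∃ c : K, c ≠ 0 ∧ ∀ k, u k = c * i (t k) := by
  obtain ⟨k0⟩ := (inferInstance : Nonempty κ)
  have h0 : i (a k0) ≠ 0 := (map_ne_zero i).2 (ha0 k0)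
  rw [hl.prod k0] at h0
  have hu0 : u k0 ≠ 0 := left_ne_zero_of_mul h0
  have hr0 : r k0 ≠ 0 := right_ne_zero_of_mul h0
  have ht0 : i (t k0) ≠ 0 := (map_ne_zero i).2 (ht.ne k0)
  refine ⟨u k0 / i (t k0), div_ne_zero hu0 ht0, fun k => ?_⟩
  obtain ⟨c, hc1, hc2⟩ := hP.exists_mx k k0
  have h1 := congrArg i (ht.rat k k0 c hc1 hc2)
  rw [map_mul, map_mul, hl.prod k0, hl.prod c, hl.fu c k hc1, hl.fr c k0 hc2] at h1
  have h2 : i (t k) * u k0 = i (t k0) * u k := by
    apply mul_right_cancel₀ hr0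
    linear_combination h1
  field_simp
  linear_combination -h2

theorem d2_sub (P : Module.End ℚ Y) : (1 : Module.End ℚ Y) - (1 - P) = P := by
  ext x k
  simp

theorem d2_stab {σ : Equiv.Perm κ} (h : StabP P σ) : StabP (1 - P) σ := by
  refine ⟨h.2, ?_⟩
  rw [d2_sub]
  exact h.1

/-- PROOF. `m = t k₀ * t (bar k₀)`.  `i (t k * t (bar k)) = c⁻² u k u (bar k) = c⁻² l` (`Lift.eq_c`) does not depend on `k`.  Invariance: `s m = t (σ k₀) * t (σ (bar k₀))`
and `σ (bar k₀) = bar (σ k₀)` because `a (σ k) * a (σ (bar k)) = s q = q` and `a` is injective. -/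
theorem Lift.exists_m {t : κ → Ω} (ht : Lift P a t) (ha : Function.Injective a)
    (ha0 : ∀ k, a k ≠ 0) (hP : Sp P) {q : Ω}
    {bar : Equiv.Perm κ} (hbar : ∀ k, a k * a (bar k) = q) {K : Type*} [Field K] {i : Ω →+* K}
    {u r : κ → K} (hl : LD P a i u r) {l : K} (hu : ∀ k, u k * u (bar k) = l) :
    ∃ m : Ω, m ≠ 0 ∧ (∀ k, t k * t (bar k) = m) ∧
      ∀ (s : Ω ≃+* Ω) (σ : Equiv.Perm κ), s q = q → (∀ k, s (a k) = a (σ k)) → StabP P σ →
        s m = m := by
  obtain ⟨k0⟩ := (inferInstance : Nonempty κ)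
  obtain ⟨c, hc, huc⟩ := ht.eq_c ha0 hP hl
  have key : ∀ k, t k * t (bar k) = t k0 * t (bar k0) := by
    intro k
    apply i.injective
    have h1 := hu k
    have h2 := hu k0
    rw [huc k, huc (bar k)] at h1
    rw [huc k0, huc (bar k0)] at h2
    rw [map_mul, map_mul]
    have hcc : c * c ≠ 0 := mul_ne_zero hc hc
    apply mul_left_cancel₀ hcc
    linear_combination h1 - h2
  refine ⟨t k0 * t (bar k0), mul_ne_zero (ht.ne _) (ht.ne _), key, fun s σ hq hs hσ => ?_⟩
  have hb : σ (bar k0) = bar (σ k0) := by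
    apply ha
    apply mul_left_cancel₀ (ha0 (σ k0))
    rw [hbar (σ k0), ← hs k0, ← hs (bar k0), ← map_mul, hbar k0, hq]
  rw [map_mul, ht.eqv s σ hs hσ k0, ht.eqv s σ hs hσ (bar k0), hb]
  exact key (σ k0)

/-- PROOF. By `Lift.eq_c` for `P` (with `u`) and for `1 - P` (with `r`, `u` exchanged): `i (t k * t' k) = c⁻¹ c'⁻¹ u k r k = c⁻¹ c'⁻¹ i (a k)`; so
`x = t k * t' k / a k` does not depend on `k`.  Invariance from `eqv`.  (`StabP (1 - P) σ` follows from `StabP P σ`.)  The last statement: multiply the relations for `k` and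
`bar k`. -/
theorem Lift.exists_x {t t' : κ → Ω} (ht : Lift P a t) (ht' : Lift (1 - P) a t')
    (ha0 : ∀ k, a k ≠ 0) (hP : Sp P) {q : Ω} {bar : Equiv.Perm κ}
    (hbar : ∀ k, a k * a (bar k) = q) {K : Type*} [Field K] {i : Ω →+* K}
    {u r : κ → K} (hl : LD P a i u r) :
    ∃ x : Ω, x ≠ 0 ∧ (∀ (s : Ω ≃+* Ω) (σ : Equiv.Perm κ), (∀ k, s (a k) = a (σ k)) → StabP P σ →
        s x = x) ∧
      ∀ m m' : Ω, (∀ k, t k * t (bar k) = m) → (∀ k, t' k * t' (bar k) = m') →
        m * m' = x ^ 2 * q := by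
  obtain ⟨k0⟩ := (inferInstance : Nonempty κ)
  obtain ⟨c, hc, huc⟩ := ht.eq_c ha0 hP hl
  have hl' : LD (1 - P) a i r u := by
    refine ⟨fun k => by rw [hl.prod k, mul_comm], hl.fr, ?_⟩
    rw [d2_sub]
    exact hl.fu
  obtain ⟨c', hc', hrc⟩ := ht'.eq_c ha0 hP.compl hl'
  have key : ∀ k, t k * t' k = t k0 * t' k0 / a k0 * a k := by
    intro k
    apply i.injective
    have h1 := hl.prod k
    have h2 := hl.prod k0
    rw [huc k, hrc k] at h1
    rw [huc k0, hrc k0] at h2
    have h3 : i (a k0) ≠ 0 := (map_ne_zero i).2 (ha0 k0)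
    have h4 : i (t k0 * t' k0 / a k0 * a k) = i (t k0) * i (t' k0) / i (a k0) * i (a k) := by
      simp only [map_mul, map_div₀]
    rw [h4, map_mul, div_mul_eq_mul_div, eq_div_iff h3, h1, h2]
    ring
  refine ⟨t k0 * t' k0 / a k0, div_ne_zero (mul_ne_zero (ht.ne _) (ht'.ne _)) (ha0 _),
    fun s σ hs hσ => ?_, fun m m' hm hm' => ?_⟩
  · rw [map_div₀, map_mul, ht.eqv s σ hs hσ k0, ht'.eqv s σ hs (d2_stab hσ) k0, hs k0,
      key (σ k0), mul_div_assoc, div_self (ha0 (σ k0)), mul_one]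
  · rw [← hm k0, ← hm' k0, ← hbar k0]
    have h1 := key k0
    have h2 := key (bar k0)
    calc t k0 * t (bar k0) * (t' k0 * t' (bar k0)) = (t k0 * t' k0) * (t (bar k0) * t' (bar k0)) := by
          ring
      _ = (t k0 * t' k0 / a k0 * a k0) * (t k0 * t' k0 / a k0 * a (bar k0)) := by
          rw [← h1, ← h2]
      _ = (t k0 * t' k0 / a k0) ^ 2 * (a k0 * a (bar k0)) := by ring

end Pool.Agent.H76Q
end

-- from Lib.H76Q.D3
section

/-!
# the group GamP
-/

set_option autoImplicit false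
set_option linter.unusedSectionVars false
namespace Pool.Agent.H76Q
open Module Matrix Pool.Agent.H53Toric
open Pool.Agent.H76P
open Pool.Agent.H76T (IsIdeal Fam)
open Pool.Agent.H76V (Cmp)

variable {κ : Type*} [Fintype κ] [DecidableEq κ] [Nonempty κ] {Y : Submodule ℚ (κ → ℚ)}
  {P : Module.End ℚ Y} {Ω : Type*} [Field Ω] {a : κ → Ω}

theorem d3_one : StabP P 1 := ⟨fun _ _ => Iff.rfl, fun _ _ => Iff.rfl⟩

theorem d3_mul {σ τ : Equiv.Perm κ} (h : StabP P σ) (h' : StabP P τ) : StabP P (σ * τ) :=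
  ⟨fun k k' => (h'.1 k k').trans (h.1 (τ k) (τ k')),
    fun k k' => (h'.2 k k').trans (h.2 (τ k) (τ k'))⟩

theorem d3_inv {σ : Equiv.Perm κ} (h : StabP P σ) : StabP P σ⁻¹ := by
  have hs : ∀ k, σ (σ⁻¹ k) = k := fun k => σ.apply_symm_apply k
  refine ⟨fun k k' => ?_, fun k k' => ?_⟩
  · have h1 := h.1 (σ⁻¹ k) (σ⁻¹ k')
    rw [hs, hs] at h1
    exact h1.symm
  · have h1 := h.2 (σ⁻¹ k) (σ⁻¹ k')
    rw [hs, hs] at h1
    exact h1.symm

/-- PROOF. Closed under products and inverses (the permutation of `s⁻¹` is `σ⁻¹`). -/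
theorem exists_gam {M : Type*} [Field M] (j : M →+* Ω) (R : Finset Ω) :
    ∃ Γ : Subgroup (Ω ≃+* Ω), ∀ s, s ∈ Γ ↔ s ∈ GamP j R a P := by
  have hinv : ∀ (s : Ω ≃+* Ω) (x y : Ω), s x = y → s⁻¹ y = x := by
    intro s x y h
    rw [← h]
    exact s.symm_apply_apply x
  refine ⟨⟨⟨⟨GamP j R a P, ?_⟩, ?_⟩, ?_⟩, fun s => Iff.rfl⟩
  · rintro s t ⟨h1, h2, σ, h3, h4⟩ ⟨h1', h2', τ, h3', h4'⟩
    refine ⟨fun x => ?_, fun r hr => ?_, σ * τ, fun k => ?_, d3_mul h4 h4'⟩
    · show s (t (j x)) = j x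
      rw [h1', h1]
    · show s (t r) = r
      rw [h2' r hr, h2 r hr]
    · show s (t (a k)) = a (σ (τ k))
      rw [h3', h3]
  · exact ⟨fun x => rfl, fun r _ => rfl, 1, fun k => rfl, d3_one⟩
  · rintro s ⟨h1, h2, σ, h3, h4⟩
    refine ⟨fun x => hinv s _ _ (h1 x), fun r hr => hinv s _ _ (h2 r hr), σ⁻¹, fun k => ?_,
      d3_inv h4⟩
    refine hinv s _ _ ?_
    rw [h3]
    exact congrArg a (σ.apply_symm_apply k)

/-- PROOF. `T` = `R`, the `a k` and the images of a basis of `M` over `ℚ`: if `s` fixes them it fixes `j M` (`s` is `ℚ`-linear) and one can take `σ = 1`. -/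
theorem gam_open {M : Type*} [Field M] [NumberField M] [CharZero Ω] (j : M →+* Ω)
    (R : Finset Ω) : ∃ T : Finset Ω, ∀ s : Ω ≃+* Ω, (∀ x ∈ T, s x = x) → s ∈ GamP j R a P := by
  classical
  let b := Module.finBasis ℚ M
  refine ⟨R ∪ (Finset.univ.image a ∪ Finset.univ.image fun n => j (b n)), fun s hs => ?_⟩
  refine ⟨fun x => ?_, fun r hr => hs r (Finset.mem_union_left _ hr), 1, fun k => ?_, d3_one⟩
  · have h1 : ∀ n, s (j (b n)) = j (b n) := fun n =>
      hs _ (Finset.mem_union_right _ (Finset.mem_union_right _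
        (Finset.mem_image_of_mem _ (Finset.mem_univ n))))
    have h2 := b.sum_repr x
    rw [← h2, map_sum, map_sum]
    refine Finset.sum_congr rfl fun n _ => ?_
    rw [Algebra.smul_def, map_mul, map_mul, h1]
    congr 1
    rw [eq_ratCast, map_ratCast, map_ratCast]
  · exact hs _ (Finset.mem_union_right _ (Finset.mem_union_left _
      (Finset.mem_image_of_mem _ (Finset.mem_univ k))))


end Pool.Agent.H76Q
end

-- from Lib.H76Q.F6
section

/-!
# no root of unity
-/

set_option autoImplicit false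
set_option linter.unusedSectionVars false
namespace Pool.Agent.H76Q
open Module Matrix Pool.Agent.H53Toric
open Pool.Agent.H76P
open Pool.Agent.H76T (IsIdeal Fam)
open Pool.Agent.H76V (Cmp)

variable {κ : Type*} [Fintype κ] [DecidableEq κ] [Nonempty κ] {Y : Submodule ℚ (κ → ℚ)}
  {P : Module.End ℚ Y} {Ω : Type*} [Field Ω] {a : κ → Ω}

/-- PROOF. Choose `f : κ → κ` with `ζ * i (t k) = i (t (f k))`.  `ζ ^ N * i (t k) = i (t (f^[N] k))`; `κ` is finite, so `f^[N₁] k = f^[N₂] k` with `N₁ < N₂` and `ζ ^ (N₂ - N₁) = 1`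
(`ζ ≠ 0`).  Let `N = N₂ - N₁`, `k' = f k`, `c` with `cz P c k'`, `cz (1 - P) c k` (`Sp.exists_mx`): `Lift.rat`: `t k' * a k = t k * a c`, so `ζ = i (a c / a k)` and `a c ^ N = a k ^ N`, so `c = k`,
`ζ = 1`. -/
theorem zeta_one {t : κ → Ω} (ht : Lift P a t) (ha0 : ∀ k, a k ≠ 0) (hP : Sp P)
    (htor : ∀ k l : κ, ∀ N : ℕ, N ≠ 0 → a k ^ N = a l ^ N → k = l) {K : Type*} [Field K]
    (i : Ω →+* K) {ζ : K} (hζ : ∀ k, ∃ k', ζ * i (t k) = i (t k')) : ζ = 1 := by
  choose f hf using hζ
  obtain ⟨k⟩ := ‹Nonempty κ›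
  have hit : ∀ k, i (t k) ≠ 0 := fun k => (map_ne_zero i).2 (ht.ne k)
  have hζ0 : ζ ≠ 0 := by
    intro h
    have := hf k
    rw [h, zero_mul] at this
    exact hit _ this.symm
  have hiter : ∀ N : ℕ, ζ ^ N * i (t k) = i (t (f^[N] k)) := by
    intro N
    induction N with
    | zero => simp
    | succ N ih =>
      rw [pow_succ', mul_assoc, ih, Function.iterate_succ_apply', hf]
  obtain ⟨N₁, N₂, hne, heq⟩ := Finite.exists_ne_map_eq_of_infinite (fun N : ℕ => f^[N] k)
  have key : ∃ N : ℕ, N ≠ 0 ∧ ζ ^ N = 1 := by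
    have hh : ζ ^ N₁ = ζ ^ N₂ := by
      apply mul_right_cancel₀ (hit k)
      rw [hiter, hiter]
      exact congrArg (fun x => i (t x)) heq
    rcases lt_or_gt_of_ne hne with hlt | hlt
    · refine ⟨N₂ - N₁, by omega, ?_⟩
      apply mul_left_cancel₀ (pow_ne_zero N₁ hζ0)
      rw [← pow_add, mul_one, Nat.add_sub_cancel' hlt.le, hh]
    · refine ⟨N₁ - N₂, by omega, ?_⟩
      apply mul_left_cancel₀ (pow_ne_zero N₂ hζ0)
      rw [← pow_add, mul_one, Nat.add_sub_cancel' hlt.le, hh]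
  obtain ⟨N, hN0, hN⟩ := key
  obtain ⟨c, hc1, hc2⟩ := hP.exists_mx (f k) k
  have hrat := ht.rat (f k) k c hc1 hc2
  have h1 : ζ * i (a k) = i (a c) := by
    have h2 : i (t (f k)) * i (a k) = i (t k) * i (a c) := by
      rw [← map_mul, ← map_mul, hrat]
    rw [← hf k] at h2
    apply mul_left_cancel₀ (hit k)
    rw [← h2]
    ring
  have h3 : a k ^ N = a c ^ N := by
    apply i.injective
    rw [map_pow, map_pow, ← h1, mul_pow, hN, one_mul]
  have h4 : k = c := htor k c N hN0 h3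
  rw [← h4] at h1
  have h5 : i (a k) ≠ 0 := (map_ne_zero i).2 (ha0 k)
  exact mul_right_cancel₀ h5 (by rw [h1, one_mul])

end Pool.Agent.H76Q
end

-- from Lib.H76Q.BL1
section

/-!
# BL1: blocks of a configuration
-/

set_option autoImplicit false
set_option linter.unusedSectionVars false
namespace Pool.Agent.H76Q
open Module Matrix Pool.Agent.H53Toric
open Pool.Agent.H76P
open Pool.Agent.H76T (IsIdeal Fam)
open Pool.Agent.H76V (Cmp)

variable {κ : Type*} [Fintype κ] [DecidableEq κ] {Y : Submodule ℚ (κ → ℚ)}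

/-- A block: an atom which has not two points, or the sum of all atoms with two points; if `κ` has eight elements: an atom. -/
def IsBlock (P : Module.End ℚ Y) : Prop :=
  (Fintype.card κ = 8 ∧ Atom (ptS Y) P.dualMap) ∨
  (Fintype.card κ ≠ 8 ∧ Atom (ptS Y) P.dualMap ∧ cnt (ptS Y) P.dualMap ≠ 2) ∨
  (Fintype.card κ ≠ 8 ∧ Spl (ptS Y) P.dualMap ∧ P ≠ 0 ∧
    ∀ q, Atom (ptS Y) q → (q * P.dualMap = q ↔ cnt (ptS Y) q = 2))

/-- The points span and are different. -/
theorem ptS_spans [Nonempty κ] (h0 : ∀ f ∈ Y, ∑ k, f k = 0) : Spans (ptS Y) := by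
  unfold Spans
  by_contra hW
  obtain ⟨f, hf0, hf⟩ := Submodule.exists_le_ker_of_lt_top _ (lt_top_iff_ne_top.2 hW)
  obtain ⟨x, rfl⟩ := (Module.evalEquiv ℚ Y).surjective f
  apply hf0
  have hx : x = 0 := by
    have h1 : ∀ a b, (x : κ → ℚ) b = (x : κ → ℚ) a := by
      intro a b
      have h2 : ptS Y b - ptS Y a ∈ LinearMap.ker ((Module.evalEquiv ℚ Y) x) :=
        hf (Submodule.subset_span ⟨a, b, rfl⟩)
      rw [LinearMap.mem_ker] at h2
      have h3 : (ptS Y b - ptS Y a) x = 0 := h2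
      rw [LinearMap.sub_apply] at h3
      exact sub_eq_zero.1 h3
    obtain ⟨a⟩ := ‹Nonempty κ›
    have h2 := h0 _ x.2
    have h3 : ∑ k, (x : κ → ℚ) k = Fintype.card κ * (x : κ → ℚ) a := by
      rw [Finset.sum_congr rfl fun k _ => h1 a k, Finset.sum_const, Finset.card_univ, nsmul_eq_mul]
    rw [h3] at h2
    have h4 : (Fintype.card κ : ℚ) ≠ 0 := by
      have : Nonempty κ := ⟨a⟩
      exact_mod_cast Fintype.card_ne_zero
    have h5 := (mul_eq_zero.1 h2).resolve_left h4
    refine Subtype.ext (funext fun b => ?_)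
    rw [h1 a b, h5]
    rfl
  rw [hx, map_zero]

theorem ptS_inj (hsep : ∀ a b : κ, a ≠ b → ∃ f ∈ Y, f a ≠ f b) : Function.Injective (ptS Y) := by
  intro a b hab
  by_contra hne
  obtain ⟨f, hf, hfab⟩ := hsep a b hne
  apply hfab
  have h1 := congrArg (fun φ : Module.Dual ℚ Y => φ ⟨f, hf⟩) hab
  exact h1


theorem dualMap_mul (P P' : Module.End ℚ Y) : (P * P').dualMap = P'.dualMap * P.dualMap := by
  ext u f
  rfl

theorem dualMap_sum {ι : Type*} (s : Finset ι) (P : ι → Module.End ℚ Y) :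
    (∑ i ∈ s, P i).dualMap = ∑ i ∈ s, (P i).dualMap := by
  classical
  induction s using Finset.induction_on with
  | empty =>
    rw [Finset.sum_empty, Finset.sum_empty]
    ext u f
    simp
  | insert a s ha ih =>
    rw [Finset.sum_insert ha, Finset.sum_insert ha, ← ih]
    ext u f
    simp

theorem dualMap_one : (1 : Module.End ℚ Y).dualMap = 1 := by
  ext u f
  rfl

theorem dualMap_zero : (0 : Module.End ℚ Y).dualMap = 0 := by
  ext u f
  simp

/-- Products of splittings below each other, summed over a set of atoms. -/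
theorem atom_mul_sum {V : Type*} [AddCommGroup V] [Module ℚ V] {pt : κ → V} (hs : Spans pt) {q : Module.End ℚ V}
    (hq : Atom pt q) (t : Finset (Module.End ℚ V)) (ht : ∀ r ∈ t, Atom pt r) :
    q * ∑ r ∈ t, r = q ↔ q ∈ t := by
  classical
  constructor
  · intro h
    by_contra hqt
    rw [c2_mul_sum hs hq t ht hqt] at h
    exact hq.2.1 h.symm
  · intro hqt
    rw [← Finset.add_sum_erase t _ hqt, mul_add, hq.1.1,
      c2_mul_sum hs hq (t.erase q) (fun r hr => ht r (Finset.mem_of_mem_erase hr)) (Finset.notMem_erase q t), add_zero]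

/-- A splitting is the sum of the atoms below it. -/
theorem spl_eq_sum {V : Type*} [AddCommGroup V] [Module ℚ V] {pt : κ → V} (hs : Spans pt) {z : Module.End ℚ V}
    (hz : Spl pt z) (s : Finset (Module.End ℚ V)) (hsm : ∀ q, q ∈ s ↔ Atom pt q) (hsum : ∑ q ∈ s, q = 1)
    (p : Module.End ℚ V → Prop) [DecidablePred p] (hp : ∀ q ∈ s, q * z = q ↔ p q) :
    z = ∑ q ∈ s.filter p, q := by
  calc z = 1 * z := (one_mul z).symm
    _ = ∑ q ∈ s, q * z := by rw [← hsum, Finset.sum_mul]
    _ = ∑ q ∈ s, if p q then q else 0 := by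
        refine Finset.sum_congr rfl fun q hq => ?_
        split_ifs with h
        · exact (hp q hq).2 h
        · rcases ((hsm q).1 hq).le_or hs hz with h1 | h1
          · exact absurd ((hp q hq).1 h1) h
          · exact h1
    _ = _ := (Finset.sum_filter _ _).symm

/-- The blocks, dual side. -/
theorem exists_isBlock_dual {V : Type*} [AddCommGroup V] [Module ℚ V] {pt : κ → V} (hs : Spans pt) :
    ∃ FF : Finset (Module.End ℚ V), (∀ z, z ∈ FF ↔ ((Fintype.card κ = 8 ∧ Atom pt z) ∨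
      (Fintype.card κ ≠ 8 ∧ Atom pt z ∧ cnt pt z ≠ 2) ∨
      (Fintype.card κ ≠ 8 ∧ Spl pt z ∧ z ≠ 0 ∧ ∀ q, Atom pt q → (q * z = q ↔ cnt pt q = 2)))) ∧
      ∑ z ∈ FF, z = 1 ∧ (∀ z ∈ FF, ∀ z' ∈ FF, z ≠ z' → z * z' = 0) ∧ ∀ z ∈ FF, Spl pt z ∧ z ≠ 0 := by
  classical
  obtain ⟨s, hsm, hsum⟩ := atoms_sum hs
  by_cases h8 : Fintype.card κ = 8
  · refine ⟨s, fun z => ?_, hsum, fun z hz z' hz' hne => Atom.orth hs ((hsm z).1 hz) ((hsm z').1 hz') hne,
      fun z hz => ⟨((hsm z).1 hz).1, ((hsm z).1 hz).2.1⟩⟩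
    rw [hsm]
    constructor
    · intro h
      exact Or.inl ⟨h8, h⟩
    · rintro (h | h | h)
      · exact h.2
      · exact absurd h8 h.1
      · exact absurd h8 h.1
  · set s2 := s.filter fun q => cnt pt q = 2 with hs2
    set s3 := s.filter fun q => ¬ cnt pt q = 2 with hs3
    have hsum' : ∑ q ∈ s2, q + ∑ q ∈ s3, q = 1 := by
      rw [hs2, hs3, Finset.sum_filter_add_sum_filter_not, hsum]
    have hat : ∀ r ∈ s2, Atom pt r := fun r hr => (hsm r).1 (Finset.mem_of_mem_filter r hr)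
    have hS : Spl pt (∑ q ∈ s2, q) := c2_sum hs s2 hat
    have hlow : ∀ q, Atom pt q → (q * ∑ r ∈ s2, r = q ↔ cnt pt q = 2) := by
      intro q hq
      rw [atom_mul_sum hs hq s2 hat, hs2, Finset.mem_filter, hsm]
      exact ⟨fun h => h.2, fun h => ⟨hq, h⟩⟩
    have hthird : ∀ z, (Fintype.card κ ≠ 8 ∧ Spl pt z ∧ z ≠ 0 ∧ ∀ q, Atom pt q → (q * z = q ↔ cnt pt q = 2)) →
        z = ∑ q ∈ s2, q := fun z hz =>
      spl_eq_sum hs hz.2.1 s hsm hsum _ fun q hq => hz.2.2.2 q ((hsm q).1 hq)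
    by_cases hne : (∑ q ∈ s2, q) = 0
    · refine ⟨s3, fun z => ?_, by rw [← hsum', hne, zero_add], fun z hz z' hz' hzz => ?_, fun z hz => ?_⟩
      · rw [hs3, Finset.mem_filter, hsm]
        constructor
        · intro h
          exact Or.inr (Or.inl ⟨h8, h.1, h.2⟩)
        · rintro (h | h | h)
          · exact absurd h.1 h8
          · exact h.2
          · exact absurd ((hthird z h).trans hne) h.2.2.1
      · exact Atom.orth hs ((hsm z).1 (Finset.mem_of_mem_filter z hz)) ((hsm z').1 (Finset.mem_of_mem_filter z' hz')) hzz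
      · have h1 := (hsm z).1 (Finset.mem_of_mem_filter z hz)
        exact ⟨h1.1, h1.2.1⟩
    · have hnm : (∑ q ∈ s2, q) ∉ s3 := by
        intro h
        rw [hs3, Finset.mem_filter, hsm] at h
        exact h.2 ((hlow _ h.1).1 hS.1)
      have horth : ∀ z ∈ s3, z * ∑ q ∈ s2, q = 0 := by
        intro z hz
        rw [hs3, Finset.mem_filter, hsm] at hz
        refine c2_mul_sum hs hz.1 s2 hat fun h => hz.2 ?_
        rw [hs2, Finset.mem_filter] at h
        exact h.2
      refine ⟨insert (∑ q ∈ s2, q) s3, fun z => ?_, by rw [Finset.sum_insert hnm, hsum'], fun z hz z' hz' hzz => ?_,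
        fun z hz => ?_⟩
      · rw [Finset.mem_insert, hs3, Finset.mem_filter, hsm]
        constructor
        · rintro (h | h)
          · refine Or.inr (Or.inr ⟨h8, by rw [h]; exact hS, by rw [h]; exact hne, ?_⟩)
            rw [h]
            exact hlow
          · exact Or.inr (Or.inl ⟨h8, h.1, h.2⟩)
        · rintro (h | h | h)
          · exact absurd h.1 h8
          · exact Or.inr h.2
          · exact Or.inl (hthird z h)
      · rcases Finset.mem_insert.1 hz with rfl | hz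
        · rcases Finset.mem_insert.1 hz' with rfl | hz'
          · exact absurd rfl hzz
          · have h2 := (hsm z').1 (Finset.mem_of_mem_filter z' hz')
            rw [Spl.comm hs hS h2.1]
            exact horth z' hz'
        · rcases Finset.mem_insert.1 hz' with rfl | hz'
          · exact horth z hz
          · exact Atom.orth hs ((hsm z).1 (Finset.mem_of_mem_filter z hz)) ((hsm z').1 (Finset.mem_of_mem_filter z' hz')) hzz
      · rcases Finset.mem_insert.1 hz with rfl | hz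
        · exact ⟨hS, hne⟩
        · have h1 := (hsm z).1 (Finset.mem_of_mem_filter z hz)
          exact ⟨h1.1, h1.2.1⟩

/-- The blocks. -/
theorem exists_isBlock [Nonempty κ] (h0 : ∀ f ∈ Y, ∑ k, f k = 0) :
    ∃ B : Finset (Module.End ℚ Y), (∀ P, P ∈ B ↔ IsBlock P) ∧ ∑ P ∈ B, P = 1 ∧
      (∀ P ∈ B, ∀ P' ∈ B, P ≠ P' → P * P' = 0) ∧ ∀ P ∈ B, Sp P ∧ P ≠ 0 := by
  classical
  have hs := ptS_spans (Y := Y) h0
  obtain ⟨FF, hFF, hsum, horth, hspl⟩ := exists_isBlock_dual hs
  -- lift to `End Y`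
  have lift : ∀ z : Module.End ℚ (Module.Dual ℚ Y), ∃ P : Module.End ℚ Y, Spl (ptS Y) z → P.dualMap = z := by
    intro z
    by_cases hz : Spl (ptS Y) z
    · obtain ⟨P, -, hP⟩ := exists_P hz
      exact ⟨P, fun _ => hP⟩
    · exact ⟨0, fun h => absurd h hz⟩
  choose g hg using lift
  have hgF : ∀ z ∈ FF, (g z).dualMap = z := fun z hz => hg z (hspl z hz).1
  have hne0 : ∀ P : Module.End ℚ Y, P ≠ 0 ↔ P.dualMap ≠ 0 := by
    intro P
    constructor
    · intro h h'
      exact h (dualMap_inj (h'.trans dualMap_zero.symm))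
    · rintro h rfl
      exact h dualMap_zero
  have hmem : ∀ P, P ∈ FF.image g ↔ P.dualMap ∈ FF := by
    intro P
    rw [Finset.mem_image]
    constructor
    · rintro ⟨z, hz, rfl⟩
      rw [hgF z hz]
      exact hz
    · intro h
      exact ⟨_, h, dualMap_inj (hgF _ h)⟩
  refine ⟨FF.image g, fun P => ?_, ?_, fun P hP P' hP' hne => ?_, fun P hP => ?_⟩
  · rw [hmem, hFF]
    unfold IsBlock
    rw [hne0 P]
  · refine dualMap_inj ?_
    rw [dualMap_sum, Finset.sum_image, dualMap_one, ← hsum]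
    · exact Finset.sum_congr rfl fun z hz => hgF z hz
    · intro z hz z' hz' h
      rw [← hgF z hz, ← hgF z' hz', h]
  · rw [hmem] at hP hP'
    refine dualMap_inj ?_
    rw [dualMap_mul, dualMap_zero]
    exact horth _ hP' _ hP fun h => hne (dualMap_inj h.symm)
  · rw [hmem] at hP
    exact ⟨Sp_iff.2 (hspl _ hP).1, (hne0 P).2 (hspl _ hP).2⟩

end Pool.Agent.H76Q
end

-- from Lib.H76Q.BL2
section

/-!
# BL2: blocks: ideals, permutations, the number of points
-/

set_option autoImplicit false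
set_option linter.unusedSectionVars false
namespace Pool.Agent.H76Q
open Module Matrix Pool.Agent.H53Toric
open Pool.Agent.H76P
open Pool.Agent.H76T (IsIdeal Fam)
open Pool.Agent.H76V (Cmp)

section ideals

variable {κ : Type*} {K : Type*} [Field K] [CharZero K] [Fintype κ] [DecidableEq κ]
  {L : Submodule K (Module.End K (κ → K))} {J : Matrix κ κ K} [IsAlgClosed K] [Nonempty κ]
  {Y : Submodule ℚ (κ → ℚ)} {P : Module.End ℚ Y}

/-- Each simple ideal acts on one side of a block. -/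
theorem IsBlock.comp (hP : IsBlock P) (h : TS L J) (hY : Yo L = Y) : Comp L P := by
  classical
  subst hY
  have hs : Spans (pt L) := pt_spans h.cmp
  intro m I hF j
  obtain ⟨Pj, hP1, hP2, -, hPS⟩ := exists_proj h.cmp hF j
  -- the two possibilities
  have caseA : Pj.dualMap * P.dualMap = Pj.dualMap → InP P (I j) := by
    intro h1 f hf hfj k k' hk
    have h2 : P * Pj = Pj := dualMap_inj (by rw [dualMap_mul]; exact h1)
    have h3 : P ⟨f, hf⟩ = ⟨f, hf⟩ := by
      have h4 := congrArg (fun T : Module.End ℚ (Yo L) => T ⟨f, hf⟩) h2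
      simp only [Module.End.mul_apply] at h4
      rwa [hP2 ⟨f, hf⟩ hfj] at h4
    have h5 := hk ⟨f, hf⟩
    rwa [h3] at h5
  have caseB : Pj.dualMap * P.dualMap = 0 → InP (1 - P) (I j) := by
    intro h1 f hf hfj k k' hk
    have h2 : P * Pj = 0 := dualMap_inj (by rw [dualMap_mul, dualMap_zero]; exact h1)
    have h3 : P ⟨f, hf⟩ = 0 := by
      have h4 := congrArg (fun T : Module.End ℚ (Yo L) => T ⟨f, hf⟩) h2
      simp only [Module.End.mul_apply] at h4
      rwa [hP2 ⟨f, hf⟩ hfj] at h4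
    have h5 := hk ⟨f, hf⟩
    rwa [LinearMap.sub_apply, Module.End.one_apply, h3, sub_zero] at h5
  rcases hP with ⟨h8, hA⟩ | ⟨-, hA, hc⟩ | ⟨-, hS, -, hat⟩
  · rcases hA.le_or hs hPS with h1 | h1
    · left
      have h2 := Pool.Agent.Lib.H86E.eight_atom h.cmp h.diag h.pt_inj hF hP1 hPS h8 hA.1 hA.2.1 h1
      refine caseA ?_
      rw [h2]
      exact hPS.1
    · right
      exact caseB (by rw [← Spl.comm hs hA.1 hPS]; exact h1)
  · rcases hA.le_or hs hPS with h1 | h1
    · left
      have h2 : P.dualMap = Pj.dualMap := by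
        by_contra hne
        exact hc (h.atom_two hF hP1 hP2 hPS hA h1 hne)
      refine caseA ?_
      rw [h2]
      exact hPS.1
    · right
      exact caseB (by rw [← Spl.comm hs hA.1 hPS]; exact h1)
  · by_cases hj : Atom (pt L) Pj.dualMap
    · rcases hj.le_or hs hS with h1 | h1
      · exact Or.inl (caseA h1)
      · exact Or.inr (caseB h1)
    · left
      refine caseA ?_
      obtain ⟨s, hsm, hsum⟩ := atoms_sum hs
      have h1 := spl_eq_sum hs hPS s hsm hsum (fun q => q * Pj.dualMap = q) fun q _ => Iff.rfl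
      calc Pj.dualMap * P.dualMap = (∑ q ∈ s.filter (fun q => q * Pj.dualMap = q), q) * P.dualMap := by rw [← h1]
        _ = ∑ q ∈ s.filter (fun q => q * Pj.dualMap = q), q := by
            rw [Finset.sum_mul]
            refine Finset.sum_congr rfl fun q hq => ?_
            rw [Finset.mem_filter, hsm] at hq
            refine (hat q hq.1).2 (h.atom_two hF hP1 hP2 hPS hq.1 hq.2 ?_)
            rintro rfl
            exact hj hq.1
        _ = Pj.dualMap := h1.symm

end ideals

section perms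

variable {κ : Type*} [Fintype κ] [DecidableEq κ] {Y : Submodule ℚ (κ → ℚ)} {P P' : Module.End ℚ Y}

/-- The action of a permutation on the functions. -/
theorem exists_S {σ : Equiv.Perm κ} (hσ : ∀ f ∈ Y, f ∘ σ ∈ Y) :
    ∃ S : Y ≃ₗ[ℚ] Y, (∀ f : Y, ((S f : Y) : κ → ℚ) = (f : κ → ℚ) ∘ σ) ∧ Aff (ptS Y) σ S.dualMap := by
  let S : Y →ₗ[ℚ] Y :=
    { toFun := fun f => ⟨(f : κ → ℚ) ∘ σ, hσ f f.2⟩
      map_add' := fun f g => rfl
      map_smul' := fun c f => rfl }
  have hS : Function.Injective S := by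
    intro f g hfg
    refine Subtype.ext (funext fun k => ?_)
    have h1 := congrFun (congrArg Subtype.val hfg) (σ.symm k)
    have h2 : (f : κ → ℚ) (σ (σ.symm k)) = (g : κ → ℚ) (σ (σ.symm k)) := h1
    rwa [Equiv.apply_symm_apply] at h2
  refine ⟨LinearEquiv.ofInjectiveEndo S hS, fun f => rfl, fun a b => ?_⟩
  ext f
  rfl

/-- Permutations respecting the space of functions permute the blocks. -/
theorem IsBlock.perm {σ : Equiv.Perm κ} (hσ : ∀ f ∈ Y, f ∘ σ ∈ Y) (hP : IsBlock P) :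
    ∃ (P' : Module.End ℚ Y) (s : Module.Dual ℚ Y ≃ₗ[ℚ] Module.Dual ℚ Y), IsBlock P' ∧ Aff (ptS Y) σ s ∧
      P'.dualMap = H76P.conj s P.dualMap ∧ (∀ k k', cz P k k' ↔ cz P' (σ k) (σ k')) ∧
      ∀ k k', cz (1 - P) k k' ↔ cz (1 - P') (σ k) (σ k') := by
  classical
  obtain ⟨S, hS, hA⟩ := exists_S hσ
  set P' : Module.End ℚ Y := S.symm.toLinearMap ∘ₗ P ∘ₗ S.toLinearMap with hP'
  have hconj : P'.dualMap = H76P.conj S.dualMap P.dualMap := by
    ext u f
    rfl
  have hval : ∀ (Q Q' : Module.End ℚ Y), (∀ f, S (Q' f) = Q (S f)) →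
      ∀ k k', cz Q k k' ↔ cz Q' (σ k) (σ k') := by
    intro Q Q' hQ k k'
    have h1 : ∀ (f : Y) (x : κ), (Q' f : κ → ℚ) (σ x) = (Q (S f) : κ → ℚ) x := by
      intro f x
      rw [← hQ f, hS]
      rfl
    constructor
    · intro h f
      rw [h1, h1]
      exact h (S f)
    · intro h f
      have h2 := h (S.symm f)
      rwa [h1, h1, LinearEquiv.apply_symm_apply] at h2
  have hSP : ∀ f, S (P' f) = P (S f) := by
    intro f
    rw [hP']
    simp
  have hne0 : ∀ P : Module.End ℚ Y, P ≠ 0 ↔ P.dualMap ≠ 0 := by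
    intro P
    constructor
    · intro h h'
      exact h (dualMap_inj (h'.trans dualMap_zero.symm))
    · rintro h rfl
      exact h dualMap_zero
  refine ⟨P', S.dualMap, ?_, hA, hconj, hval P P' hSP, hval (1 - P) (1 - P') fun f => ?_⟩
  · rcases hP with ⟨h8, hAt⟩ | ⟨h8, hAt, hc⟩ | ⟨h8, hSp, hn0, hat⟩
    · exact Or.inl ⟨h8, by rw [hconj]; exact hAt.conj hA⟩
    · exact Or.inr (Or.inl ⟨h8, by rw [hconj]; exact hAt.conj hA, by rw [hconj, cnt_conj hA]; exact hc⟩)
    · refine Or.inr (Or.inr ⟨h8, by rw [hconj]; exact hSp.conj hA, ?_, fun q hq => ?_⟩)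
      · rw [hne0, hconj]
        intro h0
        rw [hne0] at hn0
        apply hn0
        rw [← c4_conj_symm S.dualMap P.dualMap, h0, c4_zero]
      · have hq' : Atom (ptS Y) (H76P.conj S.dualMap.symm q) := hq.conj (c4_symm hA)
        have h1 := hat _ hq'
        rw [cnt_conj (c4_symm hA)] at h1
        rw [← h1, hconj]
        constructor
        · intro h2
          have h3 := congrArg (H76P.conj S.dualMap.symm) h2
          rwa [c4_mul, c4_conj_symm] at h3
        · intro h2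
          have h3 := congrArg (H76P.conj S.dualMap) h2
          rwa [c4_mul, c4_symm_conj] at h3
  · rw [LinearMap.sub_apply, LinearMap.sub_apply, Module.End.one_apply, Module.End.one_apply, map_sub, hSP]

/-- Blocks with the same classes are equal. -/
theorem IsBlock.ext [Nonempty κ] (h0 : ∀ f ∈ Y, ∑ k, f k = 0) (hP : IsBlock P) (hP' : IsBlock P')
    (h : ∀ k k', cz P k k' ↔ cz P' k k') : P = P' := by
  classical
  by_contra hne
  obtain ⟨B, hB, -, horth, hsp⟩ := exists_isBlock h0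
  have h1 := horth P ((hB P).2 hP) P' ((hB P').2 hP') hne
  obtain ⟨hS, hn⟩ := hsp P ((hB P).2 hP)
  obtain ⟨hS', -⟩ := hsp P' ((hB P').2 hP')
  obtain ⟨f, hf⟩ : ∃ f, P f ≠ 0 := by
    by_contra hcon
    push Not at hcon
    exact hn (LinearMap.ext hcon)
  have h2 : P (P f) = P f := by
    have h3 := congrArg (fun T : Module.End ℚ Y => T f) hS.idem
    exact h3
  have h3 : FunP P' ((P f : Y) : κ → ℚ) := by
    intro k k' hk
    exact (FunP_iff hS h0 (P f)).2 h2 k k' ((h k k').2 hk)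
  have h4 := (FunP_iff hS' h0 (P f)).1 h3
  have h5 := congrArg (fun T : Module.End ℚ Y => T (P f)) h1
  simp only [Module.End.mul_apply] at h5
  rw [h4, h2] at h5
  exact hf h5


end perms

end Pool.Agent.H76Q
end

-- from Lib.H76Q.BL3
section

/-!
# BL3: one block: the component is full
-/

set_option autoImplicit false
set_option linter.unusedSectionVars false
namespace Pool.Agent.H76Q
open Module Matrix Pool.Agent.H53Toric
open Pool.Agent.H76P
open Pool.Agent.H76T (IsIdeal Fam)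
open Pool.Agent.H76V (Cmp alg calg)

/-- If there is one block, it is `1`. -/
theorem isBlock_one {κ : Type*} [Fintype κ] [DecidableEq κ] {Y : Submodule ℚ (κ → ℚ)} [Nonempty κ]
    (h0 : ∀ f ∈ Y, ∑ k, f k = 0)
    {B : Finset (Module.End ℚ Y)} (hB : ∀ P, P ∈ B ↔ IsBlock P) (h1 : B.card = 1) :
    IsBlock (1 : Module.End ℚ Y) := by
  obtain ⟨B', hB', hsum, -, -⟩ := exists_isBlock h0
  have hBB : B = B' := Finset.ext fun P => by rw [hB, hB']
  subst hBB
  obtain ⟨P, hP⟩ := Finset.card_eq_one.1 h1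
  rw [hP, Finset.sum_singleton] at hsum
  rw [← hsum, ← hB, hP]
  exact Finset.mem_singleton_self P

variable {κ : Type*} {K : Type*} [Field K] [CharZero K] [Fintype κ] [DecidableEq κ]
  {L : Submodule K (Module.End K (κ → K))} {J : Matrix κ κ K} [IsAlgClosed K] [Nonempty κ]
  {Y : Submodule ℚ (κ → ℚ)}

/-- **One block.** -/
theorem full_of_one (h : TS L J) (hY : Yo L = Y) (h1 : IsBlock (1 : Module.End ℚ Y))
    (two : ∀ k : ℕ, 4 ≤ k → Fintype.card κ ≠ 2 ^ k)
    (binom : ∀ k : ℕ, 3 ≤ k → Odd k → Fintype.card κ ≠ k.centralBinom)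
    {X : Module.End K (κ → K)} (hX : adjE J X = -X) : X ∈ L := by
  classical
  subst hY
  obtain ⟨m, I, hF⟩ := Pool.Agent.H76T.exists_fam h.cmp.lie h.cmp.irr h.cmp.tr
  rcases Nat.lt_or_ge m 2 with hm | hm
  · interval_cases m
    · exfalso
      have hL : L = ⊥ := by
        rw [← hF.sup]
        exact iSup_of_empty _
      have h2 : ∀ y ∈ L, y * y = 1 → False := by
        intro y hy hy2
        rw [hL, Submodule.mem_bot] at hy
        rw [hy, mul_zero] at hy2
        exact zero_ne_one hy2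
      obtain ⟨c, hc⟩ := h.cmp.gen X fun y hy hy2 => (h2 y hy hy2).elim
      -- every operator is scalar, hence the space has dimension one, which contradicts the symplectic form
      have h3 : Subsingleton κ := by
        refine ⟨fun a b => ?_⟩
        by_contra hab
        obtain ⟨f, hf, hfab⟩ := h.sep a b hab
        obtain ⟨c', hc'⟩ := h.cmp.gen (dq f) fun y hy hy2 => (h2 y hy hy2).elim
        apply hfab
        have h4 := congrFun (congrArg (fun T : Module.End K (κ → K) => T fun _ => 1) hc') a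
        have h5 := congrFun (congrArg (fun T : Module.End K (κ → K) => T fun _ => 1) hc') b
        unfold dq at h4 h5
        simp only [dg_apply, LinearMap.smul_apply, Module.End.one_apply, Pi.smul_apply, smul_eq_mul, mul_one] at h4 h5
        have h6 : ((f a : ℚ) : K) = ((f b : ℚ) : K) := by rw [h4, h5]
        exact_mod_cast h6
      obtain ⟨a⟩ := ‹Nonempty κ›
      have h4 : J.det = J a a := by
        have : Unique κ := ⟨⟨a⟩, fun b => Subsingleton.elim b a⟩
        exact Matrix.det_eq_elem_of_subsingleton J a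
      have h5 : J a a = -J a a := by
        have h6 := congrFun (congrFun h.cmp.Jt a) a
        rwa [Matrix.transpose_apply, Matrix.neg_apply] at h6
      have h6 : J a a = 0 := self_eq_neg.1 h5
      have h7 := h.cmp.Jd
      rw [h4, h6] at h7
      exact not_isUnit_zero h7
    · rcases Cmp.simple h.cmp hF with h2 | ⟨n, hn, -, hn2, -⟩ | ⟨k, hk, hk2, hk3, -⟩
      · exact h2 X hX
      · rw [Module.finrank_fintype_fun_eq_card] at hn2
        exact absurd hn2 (two n (by omega))
      · rw [Module.finrank_fintype_fun_eq_card] at hk3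
        exact absurd hk3 (binom k hk hk2)
  · exfalso
    have hs : Spans (pt L) := pt_spans h.cmp
    have hij : (⟨0, by omega⟩ : Fin m) ≠ ⟨1, by omega⟩ := by
      intro e
      exact absurd (congrArg Fin.val e) (by norm_num)
    set i : Fin m := ⟨0, by omega⟩ with hi
    set j : Fin m := ⟨1, by omega⟩ with hj
    -- an atom equal to one is impossible
    have caseA : Atom (pt L) (1 : Module.End ℚ (Module.Dual ℚ (Yo L))) → False := by
      intro hA
      obtain ⟨P, hP1, hP2, hP3, hPS⟩ := exists_proj h.cmp hF i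
      obtain ⟨P', hP1', hP2', hP3', hPS'⟩ := exists_proj h.cmp hF j
      have g1 : P.dualMap = 1 := by
        rcases hA.2.2 P.dualMap hPS (mul_one _) with h2 | h2
        · exfalso
          obtain ⟨f, hf, hf0, hfi⟩ := h.exists_diag hF i
          have h3 : P = 0 := dualMap_inj (by rw [h2, dualMap_zero])
          have h4 := hP2 ⟨f, hf⟩ hfi
          rw [h3, LinearMap.zero_apply] at h4
          exact hf0 (congrArg Subtype.val h4).symm
        · exact h2
      have g2 : P = 1 := dualMap_inj (by rw [g1, dualMap_one])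
      obtain ⟨f, hf, hf0, hfi⟩ := h.exists_diag hF j
      have h3 := hP3 j (Ne.symm hij) ⟨f, hf⟩ hfi
      rw [g2, Module.End.one_apply] at h3
      exact hf0 (congrArg Subtype.val h3)
    rcases h1 with ⟨h8, hA⟩ | ⟨-, hA, hc⟩ | ⟨h8, hS, -, hat⟩
    · rw [dualMap_one] at hA
      exact caseA hA
    · rw [dualMap_one] at hA
      exact caseA hA
    · obtain ⟨s, hsm, hsum⟩ := atoms_sum hs
      have hcard : Fintype.card κ = 2 ^ s.card := by
        rw [card_prod hs h.pt_inj (s := s) (fun q hq => (hsm q).1 hq) hsum]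
        rw [← Finset.prod_const]
        refine Finset.prod_congr rfl fun q hq => ?_
        refine (hat q ((hsm q).1 hq)).1 ?_
        rw [dualMap_one, mul_one]
      obtain ⟨a, d, ha, hd, hV, ha2, hd2, -, -⟩ := h.cmp.dims hF (i := i) (j := j) hij
      rw [Module.finrank_fintype_fun_eq_card] at hV
      have hs4 : s.card < 4 := by
        by_contra hcon
        push Not at hcon
        exact two _ hcon hcard
      have hs3 : s.card ≠ 3 := by
        intro e
        rw [e] at hcard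
        exact h8 hcard
      have hle : Fintype.card κ ≤ 4 := by
        rw [hcard]
        calc 2 ^ s.card ≤ 2 ^ 2 := Nat.pow_le_pow_right (by norm_num) (by omega)
          _ = 4 := by norm_num
      have hpos : 0 < Fintype.card κ := Fintype.card_pos
      have ha0 : a = 2 := by
        obtain ⟨a', rfl⟩ := ha2
        obtain ⟨d', rfl⟩ := hd2
        have ha' : 0 < a' := by
          rcases Nat.eq_zero_or_pos a' with e | e
          · rw [e] at hV
            simp at hV
          · exact e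
        have hd' : 0 < d' := by
          rcases Nat.eq_zero_or_pos d' with e | e
          · rw [e] at hV
            simp at hV
          · exact e
        have h5 : a' * d' ≤ 1 := by
          have h6 : (a' + a') * (d' + d') ≤ 4 := by rw [← hV]; exact hle
          nlinarith
        have h6 : a' ≤ 1 := by nlinarith
        omega
      obtain ⟨u, hu, hu0, hu2⟩ := h.cmp.nil hF j
      have h5 : 4 ∣ finrank K (LinearMap.range u) := h.cmp.four hF hij ha ha0 hu
      have h6 : finrank K (LinearMap.range u) ≤ finrank K (LinearMap.ker u) := by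
        refine Submodule.finrank_mono ?_
        rintro _ ⟨x, rfl⟩
        rw [LinearMap.mem_ker]
        exact congrArg (fun T : Module.End K (κ → K) => T x) hu2
      have h7 := LinearMap.finrank_range_add_finrank_ker u
      rw [Module.finrank_fintype_fun_eq_card] at h7
      have h8 : finrank K (LinearMap.range u) = 0 := by
        obtain ⟨c, hc⟩ := h5
        omega
      apply hu0
      rw [Submodule.finrank_eq_zero] at h8
      exact LinearMap.range_eq_bot.1 h8

end Pool.Agent.H76Q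
end
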