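import Pool.Agent.Lib.H1M.RC.D_H76Q_Q1
import Pool.Agent.Lib.H1M.RC.D_H76V_VC1
import Pool.Agent.Lib.H1M.RC.M012
import Pool.Agent.Lib.H1M.RC.M032
import Pool.Agent.Lib.H1M.RC.M033
import Pool.Agent.Lib.H1M.RC.M038
import Pool.Agent.Lib.H1M.RC.M040
import Pool.Agent.Lib.H1M.RC.M048
import Pool.Agent.Lib.H1M.RC.M049
import Pool.Agent.Lib.H1M.RC.M050
import Pool.Agent.Lib.H1M.RC.M051

/-! Merged copies (to shorten the build) of Lib.H76Y.AS2, Lib.H34V.P01, Lib.H45K.K14, Lib.H45P.P1, Lib.H45P.P3, Lib.H45P.P6, Lib.H45Q.F3a, Lib.H45U.N1, Lib.H76W.Dec. -/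

-- from Lib.H76Y.AS2
section

/-!
# AS2: the monodromy group from one element of rank one in every component
-/

set_option autoImplicit false
set_option linter.unusedSectionVars false
namespace Pool.Agent.H76Y
open Module Matrix Polynomial Pool.Agent.H53Toric
open Pool.Agent.H76P
open Pool.Agent.H76T (IsIdeal Fam Lc mem_Lc rK)
open Pool.Agent.H76V (Cmp SH)
open Pool.Agent.H76U (cmp preL Lb Split4 IsSplitting typeGrp split4_of)
open Pool.Agent.H76RM (zar_commute van spanK similD)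
open Pool.Agent.H76Q (tgen)

variable {ι : Type*} [Fintype ι] [DecidableEq ι]

/-- The `K`-points of the group of the symplectic similitudes `x` of `ψ` which commute with `D` and
satisfy `det(x | e b V) = c ^ (dim (e b V) / 2)`, where `c` is the multiplier of `x`. -/
def balGrp (K : Type*) [Field K] [Algebra ℚ K] (ψ : Matrix ι ι ℚ)
    (D : Subalgebra ℚ (Matrix ι ι ℚ)) {m : ℕ} (e : Fin m → Matrix ι ι K) : Set (Matrix ι ι K) :=
  {x | x.det ≠ 0 ∧ (∀ d ∈ D, x * d.map (algebraMap ℚ K) = d.map (algebraMap ℚ K) * x) ∧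
    ∃ c : K, xᵀ * ψ.map (algebraMap ℚ K) * x = c • ψ.map (algebraMap ℚ K) ∧
      ∀ b, (1 - e b + x * e b).det = c ^ ((e b).rank / 2)}


section
variable {K : Type*} [Field K] [CharZero K]




end

section
variable {L : Type*} [Field L] {K : Type*} [Field K] [Algebra L K] {G : Type*} [Group G]



end

end Pool.Agent.H76Y
end

-- from Lib.H34V.P01
section

/-!
# P01: the monodromy group satisfies the relations of the types (version 5)
-/

set_option autoImplicit false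
set_option linter.unusedSectionVars false
namespace Pool.Agent.H34V
open Module Matrix Pool.Agent.H53Toric
open Pool.Agent.H76RM (zar_commute comm_span spanK)
open Pool.Agent.H76Y (balGrp)
open Pool.Agent.H76P (properProj)

variable {ι : Type*} [Fintype ι] [DecidableEq ι]

/-- PROOF. As `H34Z.mono_le`, for all characters. -/
theorem mono_le5 [Nonempty ι] {ψ : Matrix ι ι ℚ} (hψ : ψᵀ = -ψ) (hψ0 : ψ.det ≠ 0) (D : Subalgebra ℚ (Matrix ι ι ℚ))
    {L : Type*} [Field L] [CharZero L] {K : Type*} [Field K]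
    [Algebra L K] [IsAlgClosed K] [CharZero K] {G : Type*} [Group G]
    (ρ : G →* Matrix.GeneralLinearGroup ι L)
    (lin : ∀ σ : G, ∀ d ∈ D, (ρ σ).1 * d.map (algebraMap ℚ L) =
      d.map (algebraMap ℚ L) * (ρ σ).1)
    (sim : ∀ σ : G, ∃ c : L, (ρ σ).1ᵀ * ψ.map (algebraMap ℚ L) * (ρ σ).1 =
      c • ψ.map (algebraMap ℚ L))
    {m : ℕ} {e : Fin m → Matrix ι ι K} (hmem : ∀ b, e b ∈ spanK K D) (hidem : ∀ b, e b * e b = e b)
    (gen : ∀ g : G, (ρ g).1.map (algebraMap L K) ∈ zar (Submonoid.closure {m | ∃ h ∈ properProj K ρ, ∃ t : K,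
      t ≠ 0 ∧ m = 1 + (t - 1) • h} : Set (Matrix ι ι K)))
    {sig : Set (Fin m → ℕ)} (hsig : ∀ (a : Fin m → ℤ) (a₀ : ℤ), (∀ n ∈ sig, ∑ b, a b * (n b : ℤ) + a₀ = 0) →
      ∀ h ∈ properProj K ρ, ∑ b, a b * ((h * e b).rank : ℤ) + a₀ = 0)
    (H : Subgroup G) : monodromy K ρ H ⊆ Pool.Agent.H76U.typeGrp K ψ D e sig := by
  classical
  obtain ⟨hJ, hdet⟩ := gram_basic hψ hψ0 K
  set J : Matrix ι ι K := ψ.map (algebraMap ℚ K) with hJdef
  have hlinK : ∀ σ : G, ∀ d ∈ D, (ρ σ).1.map (algebraMap L K) * d.map (algebraMap ℚ K) =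
      d.map (algebraMap ℚ K) * (ρ σ).1.map (algebraMap L K) := by
    intro σ d hd
    have h1 := congrArg (fun m : Matrix ι ι L => m.map (algebraMap L K)) (lin σ d hd)
    have h2 : (d.map (algebraMap ℚ L)).map (algebraMap L K) = d.map (algebraMap ℚ K) := by
      ext i j
      simp
    simp only [Matrix.map_mul] at h1
    rw [h2] at h1
    exact h1
  have hsimG : ∀ x : G, ∃ c : K, ((ρ x).1.map (algebraMap L K))ᵀ * J *
      (ρ x).1.map (algebraMap L K) = c • J := by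
    intro x
    obtain ⟨c, hc⟩ := sim x
    exact ⟨_, sim_map hc⟩
  have hsimI : ∀ H' : Subgroup G, ∀ s ∈ img K ρ H', ∃ c : K, sᵀ * J * s = c • J := by
    rintro H' _ ⟨y, -, rfl⟩
    exact hsimG y
  have hlinI : ∀ H' : Subgroup G, ∀ s ∈ img K ρ H', ∀ d ∈ spanK K D, s * d = d * s := by
    rintro H' _ ⟨y, -, rfl⟩ d hd
    exact comm_span (hlinK y) d hd
  obtain ⟨k, l, hkl⟩ : ∃ k l, J k l ≠ 0 := by
    by_contra hcon
    push Not at hcon
    have : J = 0 := by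
      ext i j
      exact hcon i j
    rw [this, Matrix.det_zero] at hdet
    exact not_isUnit_zero hdet
  have hadj : ∀ x ∈ properProj K ρ, xᵀ * J * x = 0 ∧ xᵀ * J + J * x = J := fun x hx =>
    proj_sim' hdet hkl (hsimI ⊤) hx.1 hx.2.1 hx.2.2
  have hmult0 : ∀ x : Matrix ι ι K, x.det ≠ 0 → ∀ c : K, xᵀ * J * x = c • J → c ≠ 0 := by
    rintro x hx c hc rfl
    rw [zero_smul] at hc
    have h3 := congrArg Matrix.det hc
    rw [Matrix.det_mul, Matrix.det_mul, Matrix.det_transpose, Matrix.det_zero] at h3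
    exact (mul_ne_zero (mul_ne_zero hx hdet.ne_zero) hx) h3
  rintro x ⟨hx, hxz⟩
  obtain ⟨c, hc⟩ := zar_sim hkl (hsimI H) hxz
  refine ⟨⟨hx, ?_, c, hc⟩, ?_⟩
  · intro d hd
    refine zar_commute ?_ hxz
    rintro _ ⟨y, -, rfl⟩
    exact hlinK y d hd
  · intro a a₀ ha c' hc'
    have hcc := hmult0 x hx c' hc'
    refine H76U.char_zar hkl hidem (S := img K ρ ⊤) ?_ (𝓗 := properProj K ρ) (fun x hx => hx.1) hadj hx ?_
      hcc hc' ?_ a a₀ (hsig a a₀ ha)
    · intro s hs b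
      exact hlinI ⊤ s hs _ (hmem b)
    · intro b
      exact zar_commute (fun s hs => hlinI H s hs _ (hmem b)) hxz
    · refine zar_subset_zar ?_ hxz
      rintro _ ⟨σ, hσ, rfl⟩
      exact gen σ

end Pool.Agent.H34V
end

-- from Lib.H45K.K14
section

/-! # K14: preparations for the second version of the final theorem -/

set_option autoImplicit false
set_option linter.unusedSectionVars false

namespace H45K
open Pool.Agent.H76Q

theorem exists_lift {F Ω Ω' : Type*} [Field F] [Field Ω] [Field Ω'] [Algebra F Ω] [Algebra F Ω'] [Algebra.IsAlgebraic F Ω] [IsAlgClosed Ω'] :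
    ∃ g : Ω →+* Ω', ∀ x, g (algebraMap F Ω x) = algebraMap F Ω' x :=
  ⟨(IsAlgClosed.lift : Ω →ₐ[F] Ω').toRingHom, fun x => (IsAlgClosed.lift : Ω →ₐ[F] Ω').commutes x⟩

/-- Two embeddings of a field in an algebraic closure of `ℚ` are conjugate. -/
theorem exists_aut {F Ω : Type*} [Field F] [Field Ω] [CharZero Ω] [IsAlgClosed Ω] [Algebra.IsAlgebraic ℚ Ω] (τ τ' : F →+* Ω) :
    ∃ s : Ω ≃+* Ω, ∀ x, s (τ x) = τ' x := by
  have halg : ∀ τ : F →+* Ω, @Algebra.IsAlgebraic F Ω _ _ τ.toAlgebra := by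
    intro τ
    letI := τ.toAlgebra
    have : CharZero F := τ.charZero_iff τ.injective |>.2 inferInstance
    have : IsScalarTower ℚ F Ω := inferInstance
    exact Algebra.IsAlgebraic.tower_top (K := ℚ) F
  obtain ⟨g, hg⟩ := @exists_lift F Ω Ω _ _ _ τ.toAlgebra τ'.toAlgebra (halg τ) _
  have hb : Function.Bijective g := by
    have := Algebra.IsAlgebraic.algHom_bijective g.toRatAlgHom
    exact this
  exact ⟨RingEquiv.ofBijective g hb, hg⟩


end H45K
end

-- from Lib.H45P.P1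
section

/-! # H45P, P1: the subgroup generated by the m-th powers in the image of a compact group in `GL_n(ℚ_l)`, `l` prime to `m`, is open -/

set_option autoImplicit false
set_option linter.unusedSectionVars false

namespace H45P

open Filter Topology H45K

section

variable {l : ℕ} [hlp : Fact l.Prime] {ι : Type*} [Fintype ι] [DecidableEq ι]
variable {G : Type*} [Group G] [TopologicalSpace G] [IsTopologicalGroup G] [CompactSpace G]

/-- An element of the image which is near 1 is an `m`-th power in the image. -/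
theorem exists_root {m : ℕ} (hm0 : m ≠ 0) (hm : ¬ l ∣ m) (ρ : G →* Matrix.GeneralLinearGroup ι ℚ_[l])
    (hc : Continuous fun g => (ρ g : Matrix ι ι ℚ_[l]))
    (g : G) (hg : ∀ i j, ‖((ρ g : Matrix ι ι ℚ_[l]) - 1) i j‖ < 1) : ∃ h : G, ρ h ^ m = ρ g := by
  have hcop : Nat.Coprime l m := (Nat.Prime.coprime_iff_not_dvd hlp.out).2 hm
  have hdiv : ∀ k : ℕ, ∃ e : ℕ, e * m = l ^ (m.totient * k) * (m - 1) + 1 := by
    intro k
    have h1 : l ^ (m.totient * k) ≡ 1 [MOD m] := by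
      rw [pow_mul]
      have h2 := (Nat.ModEq.pow_totient hcop).pow k
      rwa [one_pow] at h2
    have h2 : l ^ (m.totient * k) * (m - 1) + 1 ≡ 1 * (m - 1) + 1 [MOD m] := (h1.mul_right _).add_right _
    have h3 : 1 * (m - 1) + 1 = m := by omega
    rw [h3] at h2
    obtain ⟨e, he⟩ := (Nat.modEq_zero_iff_dvd).1 (h2.trans (Nat.modEq_zero_iff_dvd.2 dvd_rfl))
    exact ⟨e, by rw [he, mul_comm]⟩
  choose e he using hdiv
  obtain ⟨h, -, hh⟩ := isCompact_univ.exists_mapClusterPt (f := (atTop : Filter ℕ)) (u := fun k => g ^ e k) (by simp)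
  obtain ⟨F, hF⟩ := mapClusterPt_iff_ultrafilter.1 hh
  refine ⟨h, Units.ext ?_⟩
  have h2 : Tendsto (fun k : ℕ => ((ρ (g ^ e k) : Matrix ι ι ℚ_[l])) ^ m) F (𝓝 ((ρ h : Matrix ι ι ℚ_[l]) ^ m)) :=
    ((hc.tendsto h).comp hF.2).pow m
  have htot : Tendsto (fun k : ℕ => m.totient * k) atTop atTop :=
    tendsto_id.const_mul_atTop' (Nat.totient_pos.2 (Nat.pos_of_ne_zero hm0))
  have h3 : Tendsto (fun k : ℕ => ((ρ (g ^ e k) : Matrix ι ι ℚ_[l])) ^ m) F (𝓝 (1 ^ (m - 1) * (ρ g : Matrix ι ι ℚ_[l]))) := by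
    have h4 := (((tendsto_one (ρ g : Matrix ι ι ℚ_[l]) hg).comp htot).mono_left hF.1).pow (m - 1) |>.mul_const (ρ g : Matrix ι ι ℚ_[l])
    refine h4.congr fun k => ?_
    simp only [Function.comp]
    rw [map_pow, Units.val_pow_eq_pow_val, ← pow_mul, ← pow_mul, he k, pow_succ]
  rw [Units.val_pow_eq_pow_val, tendsto_nhds_unique h2 h3, one_pow, one_mul]

/-- The subgroup of all elements whose image is in `PC m ρ` is open. -/
theorem open_pow {m : ℕ} (hm0 : m ≠ 0) (hm : ¬ l ∣ m) (ρ : G →* Matrix.GeneralLinearGroup ι ℚ_[l])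
    (hc : Continuous fun g => (ρ g : Matrix ι ι ℚ_[l])) :
    IsOpen (((PC m ρ).comap ρ : Subgroup G) : Set G) := by
  apply Subgroup.isOpen_of_mem_nhds (g := 1)
  have h1 : ∀ᶠ g in 𝓝 (1 : G), ∀ i j, ‖((ρ g : Matrix ι ι ℚ_[l]) - 1) i j‖ < 1 := by
    rw [eventually_all]
    intro i
    rw [eventually_all]
    intro j
    have h2 : Continuous fun g => ‖((ρ g : Matrix ι ι ℚ_[l]) - 1) i j‖ := by
      have h3 : Continuous fun g => ((ρ g : Matrix ι ι ℚ_[l]) - 1) i j := (hc.sub continuous_const).matrix_elem i j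
      exact h3.norm
    have h4 : ‖((ρ 1 : Matrix ι ι ℚ_[l]) - 1) i j‖ < 1 := by
      rw [map_one, Units.val_one, sub_self, Matrix.zero_apply, norm_zero]
      exact one_pos
    exact h2.tendsto 1 |>.eventually_lt_const h4
  filter_upwards [h1] with g hg
  obtain ⟨h, hh⟩ := exists_root hm0 hm ρ hc g hg
  show ρ g ∈ PC m ρ
  rw [← hh]
  exact Subgroup.subset_closure (Or.inl ⟨h, rfl⟩)

end

/-- A subgroup which contains all `m`-th powers and commutators is the kernel of a homomorphism to an abelian group of exponent `m`. -/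
theorem exists_charm {G : Type} [Group G] (m : ℕ) (H : Subgroup G) (hH : ∀ g : G, g ^ m ∈ H) (hH2 : ∀ g h : G, g * h * g⁻¹ * h⁻¹ ∈ H) :
    ∃ (A : Type) (_ : CommGroup A) (χ : G →* A), χ.ker = H ∧ ∀ g, χ g ^ m = 1 := by
  have hn : H.Normal := by
    constructor
    intro h hh x
    have e : x * h * x⁻¹ = (x * h * x⁻¹ * h⁻¹) * h := by group
    rw [e]
    exact H.mul_mem (hH2 _ _) hh
  have hcomm : ∀ a b : G ⧸ H, a * b = b * a := by
    intro a b
    obtain ⟨g, rfl⟩ := QuotientGroup.mk_surjective a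
    obtain ⟨h, rfl⟩ := QuotientGroup.mk_surjective b
    rw [← QuotientGroup.mk_mul, ← QuotientGroup.mk_mul, QuotientGroup.eq]
    have e : (g * h)⁻¹ * (h * g) = h⁻¹ * g⁻¹ * (h⁻¹)⁻¹ * (g⁻¹)⁻¹ := by group
    rw [e]
    exact hH2 _ _
  refine ⟨G ⧸ H, { (inferInstance : Group (G ⧸ H)) with mul_comm := hcomm }, QuotientGroup.mk' H, QuotientGroup.ker_mk' H, fun g => ?_⟩
  show (QuotientGroup.mk g : G ⧸ H) ^ m = 1
  rw [← QuotientGroup.mk_pow, QuotientGroup.eq_one_iff]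
  exact hH g

end H45P
end

-- from Lib.H45P.P3
section

/-! # H45P, P3: the image of Frobenius is a product of m-th powers and commutators -/

set_option autoImplicit false
set_option linter.unusedSectionVars false

open NumberField IsDedekindDomain

namespace H45P

open CFT ST32 H45K

section

variable {F : Type} [Field F] [NumberField F] {l : ℕ} [hlp : Fact l.Prime] {m : ℕ}

/-- If `π` is the square of an element of `ℚ_l` under an embedding which induces the place `v` then `π` is a local square at `v`. -/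
theorem locPow_of_emb {v : Pr F} {σ : F →+* AlgebraicClosure ℚ_[l]} (hσ : ∀ x : 𝓞 F, x ∈ v.asIdeal ↔ ‖σ x‖ < 1) {π : F}
    (hπ : ∃ y : ℚ_[l], σ π = algebraMap ℚ_[l] (AlgebraicClosure ℚ_[l]) y ^ m) : LocPow m v π := by
  intro N
  obtain ⟨y, hy⟩ := hπ
  have hl0 : (l : ℚ_[l]) ≠ 0 := Nat.cast_ne_zero.2 hlp.out.ne_zero
  have hlF : (l : F) ≠ 0 := Nat.cast_ne_zero.2 hlp.out.ne_zero
  have hε : 0 < ‖(l : ℚ_[l]) ^ (N + 1)‖ := norm_pos_iff.2 (pow_ne_zero _ hl0)
  have hopen : IsOpen {z : ℚ_[l] | ‖y ^ m - z ^ m‖ < ‖(l : ℚ_[l]) ^ (N + 1)‖} :=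
    isOpen_lt (by fun_prop) continuous_const
  obtain ⟨q, hq⟩ := (Padic.denseRange_ratCast l).exists_mem_open hopen ⟨y, by
    rw [Set.mem_ofPred_eq, sub_self, norm_zero]
    exact hε⟩
  rw [Set.mem_ofPred_eq] at hq
  refine ⟨(q : F), ?_⟩
  have h1 : σ ((π - (q : F) ^ m) / (l : F) ^ (N + 1)) = algebraMap ℚ_[l] (AlgebraicClosure ℚ_[l]) ((y ^ m - (q : ℚ_[l]) ^ m) / (l : ℚ_[l]) ^ (N + 1)) := by
    simp only [map_div₀, map_sub, map_pow, map_natCast, map_ratCast, hy]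
  have h2 : ‖σ ((π - (q : F) ^ m) / (l : F) ^ (N + 1))‖ ≤ 1 := by
    rw [h1, PadicAlgCl.norm_extends, norm_div, div_le_one hε]
    exact hq.le
  have h3 := val_le_of_norm hσ h2
  have h4 : v.valuation F (l : F) ≤ WithZero.exp (-1 : ℤ) := by
    have h5 : ((l : 𝓞 F)) ∈ v.asIdeal := by
      rw [hσ]
      have h6 : σ ((l : 𝓞 F) : F) = algebraMap ℚ_[l] (AlgebraicClosure ℚ_[l]) (l : ℚ_[l]) := by
        have h7 : ((l : 𝓞 F) : F) = (l : F) := by
          show algebraMap (𝓞 F) F (l : 𝓞 F) = _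
          rw [map_natCast]
        rw [h7, map_natCast, map_natCast]
      rw [h6, PadicAlgCl.norm_extends]
      exact Padic.norm_p_lt_one
    have h6 : v.valuation F (algebraMap (𝓞 F) F (l : 𝓞 F)) ≤ WithZero.exp (-((1 : ℕ) : ℤ)) := by
      rw [v.valuation_of_algebraMap, v.intValuation_le_pow_iff_mem, pow_one]
      exact h5
    rw [map_natCast] at h6
    exact h6
  have hv0 : v.valuation F ((l : F) ^ (N + 1)) ≠ 0 := by
    rw [Valuation.ne_zero_iff]
    exact pow_ne_zero _ hlF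
  have h5 : v.valuation F (π - (q : F) ^ m) ≤ v.valuation F ((l : F) ^ (N + 1)) := by
    rw [map_div₀] at h3
    have h6 := mul_le_mul_left h3 (v.valuation F ((l : F) ^ (N + 1)))
    rwa [div_mul_cancel₀ _ hv0, one_mul] at h6
  refine h5.trans_lt ?_
  rw [map_pow]
  calc v.valuation F (l : F) ^ (N + 1) ≤ (WithZero.exp (-1 : ℤ)) ^ (N + 1) := pow_le_pow_left' h4 _
    _ = WithZero.exp (-((N : ℤ) + 1)) := by
        rw [← WithZero.exp_nsmul]
        congr 1
        simp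
    _ < WithZero.exp (-(N : ℤ)) := by
        rw [WithZero.exp_lt_exp]
        omega

variable {Om : Type} [Field Om] [Algebra F Om] [IsAlgClosure F Om]

/-- RECIPROCITY MODULO m-TH POWERS. Let `l` be prime to `m`, `ρ` continuous and unramified outside `S` and `l`, `σ` a Frobenius element at a place `w` outside `S`
and `l` which is generated by `π`, where `π` is totally positive, a local `m`-th power at all places of `S`, and every conjugate of `π` is, under the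
embedding `i` into the algebraic closure of `ℚ_l`, the `m`-th power of an element of `ℚ_l`. Then `ρ σ` is a product of `m`-th powers and commutators of elements of the image. -/
theorem reclm (hm0 : m ≠ 0) (hlm : ¬ l ∣ m) {ι : Type*} [Fintype ι] [DecidableEq ι] (ρ : (Om ≃ₐ[F] Om) →* Matrix.GeneralLinearGroup ι ℚ_[l])
    (hc : Continuous fun g => (ρ g : Matrix ι ι ℚ_[l])) (S : Finset (Pr F))
    (hS : ∀ v ∉ S, (l : 𝓞 F) ∉ v.asIdeal → ∀ P : Ideal (𝓞 Om), Above v P → ∀ g : Om ≃ₐ[F] Om, Inert P g → ρ g = 1)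
    (w : Pr F) (hw : w ∉ S) (hwl : (l : 𝓞 F) ∉ w.asIdeal) (σ : Om ≃ₐ[F] Om) (hσ : IsFrv w σ) (π : F) (hπ : dv π = Finsupp.single w 1)
    (hpos : ∀ φ : F →+* ℝ, 0 < φ π) (hsq : ∀ v ∈ S, LocPow m v π) (i : Om →+* AlgebraicClosure ℚ_[l])
    (hi : ∀ τ : F →+* Om, ∃ y : ℚ_[l], i (τ π) = algebraMap ℚ_[l] (AlgebraicClosure ℚ_[l]) y ^ m) :
    ρ σ ∈ PC m ρ := by
  classical
  obtain ⟨H, hH⟩ : ∃ H, H = (PC m ρ).comap ρ := ⟨_, rfl⟩
  have hopen : IsOpen (H : Set (Om ≃ₐ[F] Om)) := by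
    rw [hH]
    exact open_pow hm0 hlm ρ hc
  have hsqH : ∀ g : Om ≃ₐ[F] Om, g ^ m ∈ H := by
    intro g
    rw [hH, Subgroup.mem_comap, map_pow]
    exact Subgroup.subset_closure (Or.inl ⟨g, rfl⟩)
  have hcoH : ∀ g h : Om ≃ₐ[F] Om, g * h * g⁻¹ * h⁻¹ ∈ H := by
    intro g h
    rw [hH, Subgroup.mem_comap, map_mul, map_mul, map_mul, map_inv, map_inv]
    exact Subgroup.subset_closure (Or.inr ⟨g, h, rfl⟩)
  obtain ⟨A, hA, χ, hker, hχ2⟩ := exists_charm m H hsqH hcoH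
  have hfin := over_fin F {l}
  obtain ⟨T, hT⟩ : ∃ T : Finset (Pr F), ∀ v, v ∈ T ↔ (l : 𝓞 F) ∈ v.asIdeal := by
    refine ⟨hfin.toFinset, fun v => ?_⟩
    rw [Set.Finite.mem_toFinset]
    constructor
    · rintro ⟨p, hp, -, hpv⟩
      rwa [Finset.mem_singleton.1 hp] at hpv
    · intro h
      exact ⟨l, Finset.mem_singleton_self l, hlp.out, h⟩
  have hunr : ∀ v ∉ S ∪ T, UnrV χ v := by
    intro v hv P hP g hg
    rw [Finset.mem_union, not_or, hT] at hv
    have h1 := hS v hv.1 hv.2 P hP g hg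
    rw [← MonoidHom.mem_ker, hker, hH, Subgroup.mem_comap, h1]
    exact Subgroup.one_mem _
  have hex : ∀ v : Pr F, ∃ g : Om ≃ₐ[F] Om, IsFrv v g ∧ (v = w → g = σ) := by
    intro v
    by_cases hv : v = w
    · subst hv
      exact ⟨σ, hσ, fun _ => rfl⟩
    · obtain ⟨g, hg⟩ := exists_frv (Om := Om) v
      exact ⟨g, hg, fun h => absurd h hv⟩
  choose Fr hFr hFw using hex
  have hwT : w ∉ S ∪ T := by
    rw [Finset.mem_union, not_or, hT]
    exact ⟨hw, hwl⟩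
  have hloc : ∀ v ∈ S ∪ T, LocPow m v π := by
    intro v hv
    rw [Finset.mem_union, hT] at hv
    rcases hv with hv | hv
    · exact hsq v hv
    · have hil : ‖(l : AlgebraicClosure ℚ_[l])‖ < 1 := by
        have h1 := PadicAlgCl.norm_extends l (l : ℚ_[l])
        rw [map_natCast] at h1
        rw [h1]
        exact Padic.norm_p_lt_one
      obtain ⟨τ, hτ⟩ := exists_emb (Om := Om) hlp.out i hil v hv
      exact locPow_of_emb (σ := i.comp τ) hτ (hi τ)
  have key := pow_rec hm0 χ (by rw [hker]; exact hopen) hχ2 (S ∪ T) hunr Fr (fun v _ => hFr v) w hwT π hπ hpos hloc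
  rw [hFw w rfl, ← MonoidHom.mem_ker, hker, hH, Subgroup.mem_comap] at key
  exact key

end

end H45P
end

-- from Lib.H45P.P6
section

/-! # H45P, P6: the clause cheb for m-th powers -/

set_option autoImplicit false
set_option linter.unusedSectionVars false

open NumberField IsDedekindDomain Polynomial CFT H45K

namespace H45P

open Pool.Agent.H76Q

section

variable {Ω : Type} [Field Ω] [CharZero Ω] [IsAlgClosed Ω] [Algebra.IsAlgebraic ℚ Ω]

/-- The clause `cheb` for `m`-th powers. -/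
theorem chebm {m : ℕ} (hm : m ≠ 0) (R : Finset Ω) (N : Set ℕ) (hN : N.Finite) (Γ : Subgroup (Ω ≃+* Ω))
    (hT : ∃ T : Finset Ω, ∀ s : Ω ≃+* Ω, (∀ x ∈ T, s x = x) → s ∈ Γ)
    (hμ : ∀ s ∈ Γ, ∀ z : Ω, z ^ m = 1 → s z = z)
    (hR : ∀ s ∈ Γ, ∀ r ∈ R, s r = r) (a : Ω) (ha0 : a ≠ 0) (ha : ∀ s ∈ Γ, s a = a)
    (h : ∀ (l : ℕ) [Fact l.Prime], l ∉ N → ∀ i : Ω →+* AlgebraicClosure ℚ_[l],
      Dec ℚ_[l] Γ i → (∀ r ∈ R, PowIn m ℚ_[l] (i r)) → PowIn m ℚ_[l] (i a)) :
    ∃ (x : Ω → ℕ) (c : Ω), c ≠ 0 ∧ (∀ s ∈ Γ, s c = c) ∧ a = (∏ r ∈ R, r ^ x r) * c ^ m := by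
  classical
  obtain ⟨E, hfin, hE1, hE2⟩ := k6_field Γ hT
  have hEn : NumberField E := NumberField.of_module_finite ℚ E
  obtain ⟨B, hB⟩ := hN.bddAbove
  have hmΩ : NeZero (m : Ω) := ⟨Nat.cast_ne_zero.2 hm⟩
  obtain ⟨ζ, hζ⟩ := HasEnoughRootsOfUnity.exists_primitiveRoot Ω m
  have hζE : ζ ∈ E := (hE1 ζ).2 fun s hs => hμ s hs ζ hζ.pow_eq_one
  have hζ' : IsPrimitiveRoot (⟨ζ, hζE⟩ : E) m := hζ.of_map_of_injective (f := algebraMap E Ω) (algebraMap E Ω).injective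
  have haE : a ∈ E := (hE1 a).2 ha
  obtain ⟨S, hS⟩ : ∃ S, S = R.filter (fun r => r ≠ 0) := ⟨_, rfl⟩
  have hSR : ∀ r ∈ S, r ∈ R ∧ r ≠ 0 := fun r hr => by
    rw [hS] at hr
    exact Finset.mem_filter.1 hr
  let e := S.equivFin
  have hSE : ∀ k : Fin S.card, ((e.symm k : S) : Ω) ∈ E := fun k =>
    (hE1 _).2 fun s hs => hR s hs _ (hSR _ (e.symm k).2).1
  obtain ⟨x, c, hc⟩ := p5_fin hm S.card E ⟨ζ, hζE⟩ hζ' (fun k => ⟨_, hSE k⟩)
    (fun k h0 => (hSR _ (e.symm k).2).2 (congrArg (fun z : E => (z : Ω)) h0)) ⟨a, haE⟩ (fun h0 => ha0 (congrArg (fun z : E => (z : Ω)) h0)) B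
    (fun l hl hlB j hj => by
      have hlN : l ∉ N := fun h => absurd (hB h) (not_le.2 hlB)
      let _ : Algebra E (AlgebraicClosure ℚ_[l]) := ((algebraMap ℚ_[l] (AlgebraicClosure ℚ_[l])).comp j).toAlgebra
      have halg : Algebra.IsAlgebraic E Ω := Algebra.IsAlgebraic.tower_top (K := ℚ) E
      let i : Ω →ₐ[E] AlgebraicClosure ℚ_[l] := IsAlgClosed.lift
      have hi : ∀ x : E, i (x : Ω) = algebraMap ℚ_[l] (AlgebraicClosure ℚ_[l]) (j x) := fun x => i.commutes x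
      have h1 := h l hlN i.toRingHom (fun t s hts => by
        refine hE2 s fun x hx => ?_
        apply i.toRingHom.injective
        show i (s x) = i x
        have h2 : t (i x) = i (s x) := hts x
        have h3 : i x = algebraMap ℚ_[l] (AlgebraicClosure ℚ_[l]) (j ⟨x, hx⟩) := hi ⟨x, hx⟩
        rw [← h2, h3, t.commutes]) (fun r hr => by
        by_cases hr0 : r = 0
        · refine ⟨0, ?_⟩
          rw [hr0, map_zero, map_zero, zero_pow hm]
        · have hrS : r ∈ S := by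
            rw [hS]
            exact Finset.mem_filter.2 ⟨hr, hr0⟩
          obtain ⟨y, hy⟩ := hj (e ⟨r, hrS⟩)
          refine ⟨y, ?_⟩
          rw [← map_pow, hy]
          have h4 : (⟨((e.symm (e ⟨r, hrS⟩) : S) : Ω), hSE _⟩ : E) = ⟨r, (hE1 _).2 fun s hs => hR s hs _ hr⟩ := by
            apply Subtype.ext
            show ((e.symm (e ⟨r, hrS⟩) : S) : Ω) = r
            rw [e.symm_apply_apply]
          rw [h4]
          exact hi ⟨r, _⟩)
      obtain ⟨y, hy⟩ := h1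
      refine ⟨y, ?_⟩
      apply (algebraMap ℚ_[l] (AlgebraicClosure ℚ_[l])).injective
      rw [← hi, map_pow]
      exact hy.symm)
  refine ⟨fun r => if hr : r ∈ S then x (e ⟨r, hr⟩) else 0, c, ?_, (hE1 _).1 c.2, ?_⟩
  · intro h0
    have h1 : c = 0 := Subtype.ext h0
    rw [h1, zero_pow hm, mul_zero] at hc
    exact ha0 (congrArg (fun z : E => (z : Ω)) hc)
  · have h2 := congrArg (algebraMap E Ω) hc
    rw [map_mul, map_pow, map_prod] at h2
    simp only [map_pow] at h2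
    have h3 : (∏ r ∈ S, r ^ (if hr : r ∈ S then x (e ⟨r, hr⟩) else 0)) = ∏ k : Fin S.card, algebraMap E Ω ⟨((e.symm k : S) : Ω), hSE k⟩ ^ x k := by
      rw [← Finset.prod_coe_sort S, ← e.symm.prod_comp]
      refine Finset.prod_congr rfl fun k _ => ?_
      rw [dif_pos (e.symm k).2, Subtype.coe_eta, e.apply_symm_apply]
      rfl
    have h4 : (∏ r ∈ R, r ^ (if hr : r ∈ S then x (e ⟨r, hr⟩) else 0)) = ∏ r ∈ S, r ^ (if hr : r ∈ S then x (e ⟨r, hr⟩) else 0) := by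
      refine (Finset.prod_subset (fun r hr => (hSR r hr).1) fun r _ hr => ?_).symm
      rw [dif_neg hr, pow_zero]
    rw [h4, h3]
    exact h2

end

end H45P
end

-- from Lib.H45Q.F3a
section

/-!
# F3a: the arithmetic conditions of the third version over a number field, with one set of exceptions
-/

set_option autoImplicit false
set_option linter.unusedSectionVars false

open NumberField IsDedekindDomain

namespace Pool.Agent.H45Q

open CFT ST32 H45K H45P Pool.Agent.H76Q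

theorem arithN {m : ℕ} (hm : m ≠ 0) {ι : Type} [Fintype ι] [DecidableEq ι]
    {F : Type} [Field F] [NumberField F] {Ω : Type} [Field Ω] [CharZero Ω] [Algebra F Ω] [IsAlgClosure F Ω]
    (ρ : ∀ (l : ℕ) [Fact l.Prime], (Ω ≃ₐ[F] Ω) →* Matrix.GeneralLinearGroup ι ℚ_[l])
    (cont : ∀ (l : ℕ) [Fact l.Prime], Continuous fun g => (ρ l g : Matrix ι ι ℚ_[l]))
    (S : Finset (CFT.Pr F))
    (unr : ∀ (l : ℕ) [Fact l.Prime], ∀ v ∉ S, (l : 𝓞 F) ∉ v.asIdeal →
      ∀ P : Ideal (𝓞 Ω), Above v P → ∀ g : Ω ≃ₐ[F] Ω, Inert P g → ρ l g = 1)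
    (p : ℕ) [hpf : Fact p.Prime] (w : CFT.Pr F) (hwS : w ∉ S) (hwp : Ideal.absNorm w.asIdeal = p)
    (π : 𝓞 F) (hwπ : w.asIdeal = Ideal.span {π}) (hpos : ∀ τ : F →+* ℝ, 0 < τ π)
    (hcong : ∀ v ∈ S, π - 1 ∈ Ideal.span {(m : 𝓞 F) ^ 2} * v.asIdeal)
    (σ : Ω ≃ₐ[F] Ω) (hσ : IsFrv w σ) (R : Finset Ω) (hR : ∀ x, x ∈ R ↔ ∃ τ : F →+* Ω, τ (π : F) = x)
    (N : Set ℕ) (hNf : N.Finite) (hNm : ∀ l, l ∣ m → l ∈ N) (hpN : p ∈ N) :
    ArithM m R N ρ σ := by
  classical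
  have hp : p.Prime := hpf.out
  have hcl : IsAlgClosed Ω := IsAlgClosure.isAlgClosed F
  have halgF : Algebra.IsAlgebraic F Ω := IsAlgClosure.isAlgebraic
  have halg : Algebra.IsAlgebraic ℚ Ω := Algebra.IsAlgebraic.trans ℚ F Ω
  have hdv : CFT.dv (π : F) = Finsupp.single w 1 := H45K.dv_gen hwπ
  refine ⟨fun l hl hlN i hi => ?_, fun Γ hT hμ hΓR a ha0 ha h => chebm hm R _ hNf Γ hT hμ hΓR a ha0 ha h⟩
  have hlm : ¬ l ∣ m := fun h => hlN (hNm l h)
  have hlp : l ≠ p := fun h => hlN (h ▸ hpN)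
  refine reclm hm hlm (ρ l) (cont l) S (unr l) w hwS ?_ σ hσ (π : F) hdv hpos
      (fun u hu => pow_of_cong u hm π (hcong u hu)) i (fun τ => by
        obtain ⟨y, hy⟩ := hi _ ((hR _).2 ⟨τ, rfl⟩)
        exact ⟨y, hy⟩)
  intro hlw
  have hpw : ((p : ℕ) : 𝓞 F) ∈ w.asIdeal := by
    rw [← hwp]
    exact Ideal.absNorm_mem _
  have h1 : IsCoprime (l : ℤ) (p : ℤ) := by
    rw [Nat.isCoprime_iff_coprime]
    exact (Nat.coprime_primes hl.out hp).2 hlp
  obtain ⟨u, t, hut⟩ := h1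
  apply w.isPrime.ne_top
  rw [Ideal.eq_top_iff_one]
  have h3 : (1 : 𝓞 F) = (u : 𝓞 F) * (l : 𝓞 F) + (t : 𝓞 F) * (p : 𝓞 F) := by
    have := congrArg (fun t : ℤ => (t : 𝓞 F)) hut
    push_cast at this
    exact this.symm
  rw [h3]
  exact w.asIdeal.add_mem (w.asIdeal.mul_mem_left _ hlw) (w.asIdeal.mul_mem_left _ hpw)


end Pool.Agent.H45Q
end

-- from Lib.H45U.N1
section

/-!
# N1: the group generated by the eigenvalues of Frobenius
-/

set_option autoImplicit false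
set_option linter.unusedSectionVars false
namespace Pool.Agent.H45U
open Polynomial H45K

section
variable {Ω : Type} [Field Ω] [CharZero Ω] [IsAlgClosed Ω] [Algebra.IsAlgebraic ℚ Ω]
variable {K : Type*} [Field K] [CharZero K] [IsAlgClosed K] {v : K → ℚ}

/-- The elements with a power of `p` as denominator and with absolute values which are powers of `p`. -/
def Wl (p : ℕ) (z : Ω) : Prop :=
  z ≠ 0 ∧ (∃ N : ℕ, IsIntegral ℤ ((p : Ω) ^ N * z)) ∧
    ∃ k : ℤ, ∀ c : Ω →+* ℂ, ‖c z‖ ^ 2 = (p : ℝ) ^ k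

theorem Wl.mul {p : ℕ} (hp : p ≠ 0) {z w : Ω} (hz : Wl p z) (hw : Wl p w) : Wl p (z * w) := by
  obtain ⟨h1, ⟨N, h2⟩, k, h3⟩ := hz
  obtain ⟨g1, ⟨N', g2⟩, k', g3⟩ := hw
  refine ⟨mul_ne_zero h1 g1, ⟨N + N', ?_⟩, k + k', fun c => ?_⟩
  · have e : (p : Ω) ^ (N + N') * (z * w) = (p : Ω) ^ N * z * ((p : Ω) ^ N' * w) := by
      rw [pow_add]
      ring
    rw [e]
    exact h2.mul g2
  · rw [map_mul, norm_mul, mul_pow, h3, g3, zpow_add₀ (Nat.cast_ne_zero.2 hp)]

/-- A root of a Weil polynomial and its inverse. -/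
theorem Wl.root {p : ℕ} (hp : p ≠ 0) {f : ℤ[X]} (hf : f.Monic)
    (hW : ∀ z : ℂ, aeval z f = 0 → ‖z‖ ^ 2 = p) {a : Ω} (ha : aeval a f = 0) :
    Wl p a ∧ Wl p a⁻¹ := by
  have hroot : ∀ c : Ω →+* ℂ, ‖c a‖ ^ 2 = p := by
    intro c
    refine hW _ ?_
    have h2 := congrArg c ha
    rw [map_zero, aeval_def, hom_eval₂] at h2
    rw [aeval_def, show algebraMap ℤ ℂ = c.comp (algebraMap ℤ Ω) from RingHom.ext_int _ _]
    exact h2
  have c₀ : Ω →+* ℂ := (IsAlgClosed.lift : Ω →ₐ[ℚ] ℂ).toRingHom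
  have hpR : (p : ℝ) ≠ 0 := Nat.cast_ne_zero.2 hp
  have ha0 : a ≠ 0 := by
    rintro rfl
    have h2 := hroot c₀
    rw [map_zero, norm_zero, zero_pow two_ne_zero] at h2
    exact hpR h2.symm
  have hinv : aeval ((p : Ω) / a) f = 0 := by
    apply c₀.injective
    rw [map_zero, aeval_def, hom_eval₂]
    have h2 := hroot c₀
    have h3 : c₀ ((p : Ω) / a) = (starRingEnd ℂ) (c₀ a) := by
      rw [map_div₀, map_natCast, div_eq_iff ((map_ne_zero c₀).2 ha0), mul_comm, Complex.mul_conj, Complex.normSq_eq_norm_sq, h2]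
      simp
    rw [h3]
    have h4 : eval₂ (c₀.comp (algebraMap ℤ Ω)) ((starRingEnd ℂ) (c₀ a)) f = (starRingEnd ℂ) (c₀ (aeval a f)) := by
      rw [aeval_def, hom_eval₂, hom_eval₂]
      congr 1
      exact RingHom.ext_int _ _
    rw [h4, ha, map_zero, map_zero]
  refine ⟨⟨ha0, ⟨0, ?_⟩, 1, fun c => ?_⟩, inv_ne_zero ha0, ⟨1, ?_⟩, -1, fun c => ?_⟩
  · rw [pow_zero, one_mul]
    exact ⟨f, hf, ha⟩
  · rw [zpow_one, hroot]
  · rw [pow_one, ← div_eq_mul_inv]
    exact ⟨f, hf, hinv⟩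
  · rw [map_inv₀, norm_inv, inv_pow, hroot, zpow_neg, zpow_one]

theorem Wl.prime {p : ℕ} (hp : p ≠ 0) : Wl p (p : Ω) ∧ Wl p (p : Ω)⁻¹ := by
  have hpΩ : (p : Ω) ≠ 0 := Nat.cast_ne_zero.2 hp
  have hn : ∀ c : Ω →+* ℂ, ‖c (p : Ω)‖ ^ 2 = (p : ℝ) ^ (2 : ℤ) := by
    intro c
    rw [map_natCast, Complex.norm_natCast]
    norm_cast
  refine ⟨⟨hpΩ, ⟨0, ?_⟩, 2, hn⟩, inv_ne_zero hpΩ, ⟨1, ?_⟩, -2, fun c => ?_⟩
  · rw [pow_zero, one_mul]
    have h1 : (p : Ω) = algebraMap ℤ Ω p := by simp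
    rw [h1]
    exact isIntegral_algebraMap
  · rw [pow_one, mul_inv_cancel₀ hpΩ]
    exact isIntegral_one
  · rw [map_inv₀, norm_inv, inv_pow, hn, zpow_neg]

theorem int_of_val' (hv : IsV v) {p : ℕ} (hp : p.Prime) (h1 : v (p : K) = 1) {ζ : Ω} (h0 : ζ ≠ 0)
    (h : ∀ i : Ω →+* K, v (i ζ) = 0) : ∀ N : ℕ, IsIntegral ℤ ((p : Ω) ^ N * ζ) → IsIntegral ℤ ζ := by
  have hpΩ : (p : Ω) ≠ 0 := Nat.cast_ne_zero.2 hp.ne_zero
  have hpK : (p : K) ≠ 0 := Nat.cast_ne_zero.2 hp.ne_zero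
  intro N
  induction N with
  | zero =>
    intro h2
    rwa [pow_zero, one_mul] at h2
  | succ N ih =>
    intro h2
    apply ih
    refine int_of_val hv hp h1 _ ?_ fun i => Or.inr ?_
    · rw [← mul_assoc, ← pow_succ']
      exact h2
    · rw [map_mul, map_pow, map_natCast, hv.mul _ _ (pow_ne_zero N hpK) ((map_ne_zero i).2 h0),
        hv.pow hpK, h1, h]
      positivity

/-- An element of the group generated by `p` and the eigenvalues whose valuations are all zero is a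
root of unity. -/
theorem neat_of (hv : IsV v) {p : ℕ} (hp : p.Prime) (h1 : v (p : K) = 1) (f : ℤ[X]) (hf : f.Monic)
    (hW : ∀ z : ℂ, aeval z f = 0 → ‖z‖ ^ 2 = p) {S : Set Ωˣ}
    (hS : ∀ z ∈ S, (z : Ω) = p ∨ aeval (z : Ω) f = 0) {z : Ωˣ} (hz : z ∈ Subgroup.closure S)
    (hvz : ∀ i : Ω →+* K, v (i z) = 0) : ∃ n : ℕ, n ≠ 0 ∧ z ^ n = 1 := by
  classical
  have hpΩ : (p : Ω) ≠ 0 := Nat.cast_ne_zero.2 hp.ne_zero
  have hpK : (p : K) ≠ 0 := Nat.cast_ne_zero.2 hp.ne_zero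
  have key : ∀ z ∈ Subgroup.closure S, Wl p (z : Ω) ∧ Wl p (z : Ω)⁻¹ := by
    intro z hz
    induction hz using Subgroup.closure_induction with
    | mem z hz =>
      rcases hS z hz with h | h
      · rw [h]
        exact Wl.prime hp.ne_zero
      · exact Wl.root hp.ne_zero hf hW h
    | one =>
      have h2 : Wl p (1 : Ω) := ⟨one_ne_zero, ⟨0, by rw [pow_zero, one_mul]; exact isIntegral_one⟩, 0,
        fun c => by rw [map_one, norm_one, one_pow, zpow_zero]⟩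
      rw [Units.val_one, inv_one]
      exact ⟨h2, h2⟩
    | mul x y _ _ hx hy =>
      rw [Units.val_mul, mul_inv]
      exact ⟨hx.1.mul hp.ne_zero hy.1, hx.2.mul hp.ne_zero hy.2⟩
    | inv x _ hx =>
      rw [Units.val_inv_eq_inv_val, inv_inv]
      exact ⟨hx.2, hx.1⟩
  obtain ⟨⟨h0, ⟨N, hN⟩, k, hk⟩, -⟩ := key z hz
  have hzi : IsIntegral ℤ (z : Ω) := int_of_val' hv hp h1 h0 hvz N hN
  have c₀ : Ω →+* ℂ := (IsAlgClosed.lift : Ω →ₐ[ℚ] ℂ).toRingHom
  obtain ⟨s, hs⟩ := Pool.Agent.H76Q.exists_res c₀ (starRingAut : ℂ ≃+* ℂ)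
  have h2 : (z : Ω) * s z = (p : Ω) ^ k := by
    apply c₀.injective
    rw [map_mul, ← hs, map_zpow₀, map_natCast]
    show c₀ z * (starRingEnd ℂ) (c₀ z) = _
    rw [Complex.mul_conj, Complex.normSq_eq_norm_sq, hk c₀]
    push_cast
    rfl
  obtain ⟨i⟩ : Nonempty (Ω →+* K) := ⟨(IsAlgClosed.lift : Ω →ₐ[ℚ] K).toRingHom⟩
  have hvz0 : ∀ x : K, x ≠ 0 → ∀ k : ℤ, v (x ^ k) = k * v x := by
    intro x hx k
    obtain ⟨n, rfl | rfl⟩ := k.eq_nat_or_neg
    · rw [zpow_natCast, hv.pow hx]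
      push_cast
      ring
    · have h3 : v (x ^ (-(n : ℤ))) + v (x ^ n) = 0 := by
        rw [← hv.mul _ _ (zpow_ne_zero _ hx) (pow_ne_zero _ hx), zpow_neg, zpow_natCast,
          inv_mul_cancel₀ (pow_ne_zero _ hx)]
        have h4 := hv.mul 1 1 one_ne_zero one_ne_zero
        rw [mul_one] at h4
        linarith
      rw [hv.pow hx] at h3
      push_cast
      linarith
  have hk0 : k = 0 := by
    have h3 : v (i ((z : Ω) * s z)) = 0 := by
      rw [map_mul, hv.mul _ _ ((map_ne_zero i).2 h0) ((map_ne_zero i).2 ((map_ne_zero s).2 h0)), hvz i]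
      have h4 := hvz (i.comp s.toRingHom)
      have h5 : i.comp s.toRingHom (z : Ω) = i (s z) := rfl
      rw [h5] at h4
      rw [h4, add_zero]
    rw [h2, map_zpow₀, map_natCast, hvz0 _ hpK, h1, mul_one] at h3
    exact_mod_cast h3
  have hnorm : ∀ c : Ω →+* ℂ, ‖c z‖ = 1 := by
    intro c
    have h3 := hk c
    rw [hk0, zpow_zero] at h3
    exact (sq_eq_sq₀ (norm_nonneg _) zero_le_one).1 (by rw [h3, one_pow])
  obtain ⟨ζ, hζ⟩ : ∃ ζ : Ω, ζ = z := ⟨_, rfl⟩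
  rw [← hζ] at hzi
  have hfd : FiniteDimensional ℚ (IntermediateField.adjoin ℚ {ζ}) :=
    IntermediateField.adjoin.finiteDimensional (Algebra.IsAlgebraic.isAlgebraic ζ).isIntegral
  have hNF : NumberField (IntermediateField.adjoin ℚ {ζ}) := {}
  have hgi : IsIntegral ℤ (IntermediateField.AdjoinSimple.gen ℚ ζ) := by
    have h2 : IsIntegral ℤ (algebraMap (IntermediateField.adjoin ℚ {ζ}) Ω (IntermediateField.AdjoinSimple.gen ℚ ζ)) := by
      rw [IntermediateField.AdjoinSimple.algebraMap_gen]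
      exact hzi
    exact (isIntegral_algebraMap_iff (algebraMap (IntermediateField.adjoin ℚ {ζ}) Ω).injective).1 h2
  obtain ⟨n, hn, hn1⟩ := NumberField.Embeddings.pow_eq_one_of_norm_eq_one (IntermediateField.adjoin ℚ {ζ}) ℂ hgi fun φ => by
    obtain ⟨s, hs⟩ := IntermediateField.exists_algHom_of_splits_of_aeval (K := ℂ) (F := ℚ) (E := Ω)
      (fun x => ⟨(Algebra.IsAlgebraic.isAlgebraic x).isIntegral, IsAlgClosed.splits _⟩) (x := ζ)
      (y := φ (IntermediateField.AdjoinSimple.gen ℚ ζ)) (by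
        have h2 := aeval_algHom_apply φ.toRatAlgHom (IntermediateField.AdjoinSimple.gen ℚ ζ) (minpoly ℚ ζ)
        have h3 : aeval (IntermediateField.AdjoinSimple.gen ℚ ζ) (minpoly ℚ ζ) = 0 := by
          apply (algebraMap (IntermediateField.adjoin ℚ {ζ}) Ω).injective
          rw [map_zero, ← aeval_algebraMap_apply, IntermediateField.AdjoinSimple.algebraMap_gen]
          exact minpoly.aeval ℚ _
        rw [h3, map_zero] at h2
        exact h2)
    rw [← hs, hζ]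
    exact hnorm s.toRingHom
  refine ⟨n, by omega, ?_⟩
  have h8 := congrArg (algebraMap (IntermediateField.adjoin ℚ {ζ}) Ω) hn1
  rw [map_pow, IntermediateField.AdjoinSimple.algebraMap_gen, map_one, hζ] at h8
  exact Units.ext (by rw [Units.val_pow_eq_pow_val, h8, Units.val_one])

end

end Pool.Agent.H45U
end

-- from Lib.H76W.Dec
section

/-!
# Every automorphism is in a decomposition group (Chebotarev)
-/

set_option autoImplicit false
set_option linter.unusedSectionVars false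
namespace Pool.Agent.H76W
open NumberField IsDedekindDomain CFT Pool.Agent.H76Q

/-- The prime defined by an embedding into the closure of `ℚ_l`: elements with image in `ℚ_l` are congruent to
integers. -/
theorem dec_prime {M : Type} [Field M] [NumberField M] (l : ℕ) [hl : Fact l.Prime]
    (f : M →+* AlgebraicClosure ℚ_[l]) : ∃ W : CFT.Pr M, (l : 𝓞 M) ∈ W.asIdeal ∧
      ∀ x : 𝓞 M, (∃ y : ℚ_[l], f x = algebraMap ℚ_[l] (AlgebraicClosure ℚ_[l]) y) →
        ∃ c : ℤ, x - (c : 𝓞 M) ∈ W.asIdeal := by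
  obtain ⟨𝔓, hmax, hcomap⟩ := Ideal.exists_ideal_over_maximal_of_isIntegral
    (R := ℤ_[l]) (S := integralClosure ℤ_[l] (AlgebraicClosure ℚ_[l])) (IsLocalRing.maximalIdeal ℤ_[l]) (by
      intro x hx
      have h1 : algebraMap ℤ_[l] (AlgebraicClosure ℚ_[l]) x = 0 := congrArg Subtype.val (RingHom.mem_ker.1 hx)
      rw [IsScalarTower.algebraMap_apply ℤ_[l] ℚ_[l] (AlgebraicClosure ℚ_[l]), map_eq_zero] at h1
      have h2 : x = 0 := (IsFractionRing.injective ℤ_[l] ℚ_[l]) (by rw [h1, map_zero])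
      rw [h2]
      exact Submodule.zero_mem _)
  have hint : ∀ x : 𝓞 M, IsIntegral ℤ_[l] (f x) := by
    intro x
    have h1 : IsIntegral ℤ (f x) := map_isIntegral_int f x.isIntegral_coe
    exact h1.tower_top
  let g : 𝓞 M →+* integralClosure ℤ_[l] (AlgebraicClosure ℚ_[l]) :=
    { toFun := fun x => ⟨f x, hint x⟩
      map_one' := Subtype.ext (by simp)
      map_mul' := fun x y => Subtype.ext (by simp)
      map_zero' := Subtype.ext (by simp)
      map_add' := fun x y => Subtype.ext (by simp) }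
  have hl0 : (l : 𝓞 M) ∈ 𝔓.comap g := by
    rw [Ideal.mem_comap, map_natCast]
    have h1 : (l : ℤ_[l]) ∈ 𝔓.comap (algebraMap ℤ_[l] (integralClosure ℤ_[l] (AlgebraicClosure ℚ_[l]))) := by
      rw [hcomap, PadicInt.maximalIdeal_eq_span_p]
      exact Ideal.mem_span_singleton_self _
    rw [Ideal.mem_comap, map_natCast] at h1
    exact h1
  have hprime : (𝔓.comap g).IsPrime := Ideal.comap_isPrime g 𝔓
  have hne : 𝔓.comap g ≠ ⊥ := by
    intro h
    rw [h, Ideal.mem_bot] at hl0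
    exact hl.out.ne_zero (by exact_mod_cast hl0)
  refine ⟨⟨𝔓.comap g, hprime, hne⟩, hl0, ?_⟩
  rintro x ⟨y, hy⟩
  have hyint : IsIntegral ℤ_[l] y := by
    have h1 := hint x
    rw [hy] at h1
    exact (isIntegral_algebraMap_iff (algebraMap ℚ_[l] (AlgebraicClosure ℚ_[l])).injective).1 h1
  obtain ⟨z, hz⟩ := IsIntegrallyClosed.isIntegral_iff.1 hyint
  refine ⟨(PadicInt.zmodRepr z : ℤ), ?_⟩
  change _ ∈ 𝔓.comap g
  rw [Ideal.mem_comap, map_sub]
  have h2 := PadicInt.sub_zmodRepr_mem z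
  rw [← hcomap, Ideal.mem_comap, map_sub, map_natCast] at h2
  have h3 : g x = algebraMap ℤ_[l] (integralClosure ℤ_[l] (AlgebraicClosure ℚ_[l])) z := by
    apply Subtype.ext
    change f x = algebraMap ℤ_[l] (AlgebraicClosure ℚ_[l]) z
    rw [hy, ← hz, ← IsScalarTower.algebraMap_apply]
  rw [h3]
  simpa using h2

theorem dec_under {M : Type} [Field M] [NumberField M] (W : CFT.Pr M) {l : ℕ} (hl : l.Prime)
    (h : (l : 𝓞 M) ∈ W.asIdeal) : W.asIdeal.under ℤ = Ideal.span {(l : ℤ)} := by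
  have hmax : (Ideal.span {(l : ℤ)}).IsMaximal :=
    PrincipalIdealRing.isMaximal_of_irreducible (Nat.prime_iff_prime_int.1 hl).irreducible
  refine (Ideal.IsMaximal.eq_of_le hmax ?_ ?_).symm
  · intro h1
    rw [Ideal.eq_top_iff_one, Ideal.under, Ideal.mem_comap, map_one] at h1
    exact W.isPrime.ne_top ((Ideal.eq_top_iff_one _).2 h1)
  · rw [Ideal.span_singleton_le_iff_mem, Ideal.under, Ideal.mem_comap, map_natCast]
    exact h

/-- For arbitrarily large primes `l` an automorphism of a Galois number field is induced by an automorphism of the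
closure of `ℚ_l`, for a suitable embedding. -/
theorem dec_gal (M : Type) [Field M] [NumberField M] [IsGalois ℚ M] (σ : M ≃ₐ[ℚ] M) (B : ℕ) :
    ∃ (l : ℕ) (_ : Fact l.Prime), B < l ∧ ∀ f : M →+* AlgebraicClosure ℚ_[l], ∃ τ : M ≃ₐ[ℚ] M,
      ∃ t : AlgebraicClosure ℚ_[l] ≃ₐ[ℚ_[l]] AlgebraicClosure ℚ_[l], ∀ x, t (f (τ x)) = f (τ (σ x)) := by
  classical
  have hH : ∀ H : Subgroup (M ≃ₐ[ℚ] M), σ ∉ H → ∃ x : 𝓞 M, (∀ s ∈ H, s • x = x) ∧ σ • x - x ≠ 0 := by
    intro H hσ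
    rw [← IntermediateField.fixingSubgroup_fixedField H, IntermediateField.mem_fixingSubgroup_iff] at hσ
    push Not at hσ
    obtain ⟨x, hx, hne⟩ := hσ
    obtain ⟨D, y, hD0, hy⟩ := H45K.k4_mult x
    have hsm : ∀ s : M ≃ₐ[ℚ] M, ((s • y : 𝓞 M) : M) = (D : M) * s x := by
      intro s
      have h1 : ((s • y : 𝓞 M) : M) = s (y : M) := rfl
      rw [h1, hy, map_mul, map_intCast]
    refine ⟨y, fun s hs => ?_, fun h0 => hne ?_⟩
    · apply RingOfIntegers.ext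
      rw [hsm, hy]
      congr 1
      exact hx ⟨s, hs⟩
    · have h2 : ((σ • y : 𝓞 M) : M) = (y : M) := by rw [sub_eq_zero.1 h0]
      rw [hsm, hy] at h2
      exact mul_left_cancel₀ (by exact_mod_cast hD0) h2
  choose! θ hθ hθσ using hH
  have hfin : Finite (Subgroup (M ≃ₐ[ℚ] M)) := inferInstance
  have : Fintype (Subgroup (M ≃ₐ[ℚ] M)) := Fintype.ofFinite _
  obtain ⟨B', hB'⟩ : ∃ B', B' = B + ∑ H : Subgroup (M ≃ₐ[ℚ] M), Ideal.absNorm (Ideal.span {σ • θ H - θ H}) := ⟨_, rfl⟩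
  obtain ⟨l, hl, hBl, W, hlW, hFr⟩ := H45K.k4_frob M σ B'
  have hlf : Fact l.Prime := ⟨hl⟩
  refine ⟨l, hlf, by omega, fun f => ?_⟩
  obtain ⟨Wf, hlWf, hWf⟩ := dec_prime l f
  have hWp : W.asIdeal.IsPrime := W.isPrime
  have hWfp : Wf.asIdeal.IsPrime := Wf.isPrime
  obtain ⟨τ, hτ⟩ := Algebra.IsInvariant.exists_smul_of_under_eq ℤ (𝓞 M) (M ≃ₐ[ℚ] M) W.asIdeal Wf.asIdeal
    ((dec_under W hl hlW).trans (dec_under Wf hl hlWf).symm)
  refine ⟨τ, ?_⟩
  let H : Subgroup (M ≃ₐ[ℚ] M) :=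
    { carrier := {s | ∃ t : AlgebraicClosure ℚ_[l] ≃ₐ[ℚ_[l]] AlgebraicClosure ℚ_[l],
        ∀ x, t (f (τ x)) = f (τ (s x))}
      mul_mem' := by
        rintro s s' ⟨t, ht⟩ ⟨t', ht'⟩
        refine ⟨t * t', fun x => ?_⟩
        show t (t' (f (τ x))) = f (τ (s (s' x)))
        rw [ht', ht]
      one_mem' := ⟨1, fun x => rfl⟩
      inv_mem' := by
        rintro s ⟨t, ht⟩
        refine ⟨t⁻¹, fun x => ?_⟩
        show t.symm (f (τ x)) = f (τ (s.symm x))
        rw [AlgEquiv.symm_apply_eq, ht, AlgEquiv.apply_symm_apply] }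
  have hσ : σ ∈ H := by
    by_contra hσ
    have hfix : ∀ t : AlgebraicClosure ℚ_[l] ≃ₐ[ℚ_[l]] AlgebraicClosure ℚ_[l],
        t (f (τ (θ H : M))) = f (τ (θ H : M)) := by
      intro t
      let _ : Algebra M (AlgebraicClosure ℚ_[l]) := (f.comp (τ : M →+* M)).toAlgebra
      have : IsScalarTower ℚ M (AlgebraicClosure ℚ_[l]) := IsScalarTower.of_algebraMap_eq' (Subsingleton.elim _ _)
      obtain ⟨s, hs⟩ : ∃ s : M ≃ₐ[ℚ] M, ∀ y, f (τ (s y)) = t (f (τ y)) :=
        ⟨(t.restrictScalars ℚ).restrictNormal M, fun y => AlgEquiv.restrictNormal_commutes (t.restrictScalars ℚ) M y⟩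
      have hsH : s ∈ H := ⟨t, fun x => (hs x).symm⟩
      rw [← hs]
      have h1 : s (θ H : M) = (θ H : M) := congrArg (fun z : 𝓞 M => (z : M)) (hθ H hσ s hsH)
      rw [h1]
    obtain ⟨y, hy⟩ := fixed_mem hfix
    obtain ⟨c, hc⟩ := hWf (τ • θ H) ⟨y, hy⟩
    have h1 : θ H - (c : 𝓞 M) ∈ W.asIdeal := by
      rw [← Ideal.smul_mem_pointwise_smul_iff (a := τ), ← hτ, smul_sub]
      have h2 : τ • (c : 𝓞 M) = (c : 𝓞 M) := by
        apply RingOfIntegers.ext
        show τ ((c : 𝓞 M) : M) = _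
        simp
      rw [h2]
      exact hc
    have h2 : σ • θ H - θ H ∈ W.asIdeal := by
      have h3 := hFr (θ H)
      have h4 := hFr (c : 𝓞 M)
      have h5 : σ • (c : 𝓞 M) = (c : 𝓞 M) := by
        apply RingOfIntegers.ext
        show σ ((c : 𝓞 M) : M) = _
        simp
      rw [h5] at h4
      have h6 : θ H ^ l - (c : 𝓞 M) ^ l ∈ W.asIdeal :=
        Ideal.mem_of_dvd _ (sub_dvd_pow_sub_pow _ _ l) h1
      have h7 : σ • θ H - θ H = (σ • θ H - θ H ^ l) + (θ H ^ l - (c : 𝓞 M) ^ l) - ((c : 𝓞 M) - (c : 𝓞 M) ^ l) -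
          (θ H - (c : 𝓞 M)) := by ring
      rw [h7]
      exact W.asIdeal.sub_mem (W.asIdeal.sub_mem (W.asIdeal.add_mem h3 h6) h4) h1
    have h3 : ((Ideal.absNorm (Ideal.span {σ • θ H - θ H}) : ℕ) : 𝓞 M) ∈ W.asIdeal :=
      (Ideal.span_singleton_le_iff_mem _).2 h2 (Ideal.absNorm_mem _)
    have h4 := H45K.k4_dvd W hl hlW (Ideal.absNorm (Ideal.span {σ • θ H - θ H}) : ℤ) (by exact_mod_cast h3)
    have h5 : Ideal.absNorm (Ideal.span {σ • θ H - θ H}) ≠ 0 := by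
      rw [Ne, Ideal.absNorm_eq_zero_iff, Ideal.span_singleton_eq_bot]
      exact hθσ H hσ
    have h6 : Ideal.absNorm (Ideal.span {σ • θ H - θ H}) ≤ B' := by
      rw [hB']
      have := Finset.single_le_sum (f := fun H : Subgroup (M ≃ₐ[ℚ] M) => Ideal.absNorm (Ideal.span {σ • θ H - θ H}))
        (fun _ _ => Nat.zero_le _) (Finset.mem_univ H)
      omega
    have h7 := Nat.le_of_dvd (Nat.pos_of_ne_zero h5) (Int.natCast_dvd_natCast.1 h4)
    omega
  exact hσ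

/-- Every automorphism is, on a finite set, in a decomposition group at a prime not in the finite set `N`. -/
theorem dec_all {Ω : Type} [Field Ω] [CharZero Ω] [IsAlgClosed Ω] [Algebra.IsAlgebraic ℚ Ω] (N : Set ℕ)
    (hNf : N.Finite) (s : Ω ≃+* Ω) (T : Finset Ω) : ∃ (l : ℕ) (_ : Fact l.Prime), l ∉ N ∧
      ∃ (i : Ω →+* AlgebraicClosure ℚ_[l]) (t : AlgebraicClosure ℚ_[l] ≃ₐ[ℚ_[l]] AlgebraicClosure ℚ_[l]),
        ∀ x ∈ T, t (i x) = i (s x) := by
  have hcl : IsAlgClosure ℚ Ω := ⟨inferInstance, inferInstance⟩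
  have hG : IsGalois ℚ Ω := inferInstance
  obtain ⟨M, hM⟩ : ∃ M : FiniteGaloisIntermediateField ℚ Ω, (T : Set Ω) ⊆ ((M : IntermediateField ℚ Ω) : Set Ω) :=
    ⟨FiniteGaloisIntermediateField.adjoin ℚ (T : Set Ω), FiniteGaloisIntermediateField.subset_adjoin ℚ _⟩
  have hMG : IsGalois ℚ M.toIntermediateField := M.isGalois
  have hMf : FiniteDimensional ℚ M.toIntermediateField := M.finiteDimensional
  have hMn : Normal ℚ M.toIntermediateField := hMG.to_normal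
  have hNF : NumberField M.toIntermediateField := ⟨⟩
  obtain ⟨s', hs'⟩ : ∃ s' : Ω ≃ₐ[ℚ] Ω, ∀ x, s' x = s x :=
    ⟨AlgEquiv.ofRingEquiv (f := s) (fun r => map_ratCast s r), fun _ => rfl⟩
  obtain ⟨B, hB⟩ := hNf.bddAbove
  obtain ⟨l, hl, hBl, h⟩ := dec_gal M.toIntermediateField (s'.restrictNormal M.toIntermediateField) B
  have hlN : l ∉ N := fun h1 => absurd (hB h1) (by omega)
  obtain ⟨i₀⟩ : Nonempty (Ω →+* AlgebraicClosure ℚ_[l]) :=
    ⟨(IsAlgClosed.lift (R := ℚ) (S := Ω) (M := AlgebraicClosure ℚ_[l])).toRingHom⟩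
  obtain ⟨τ, t, ht⟩ := h (i₀.comp (algebraMap M.toIntermediateField Ω))
  refine ⟨l, hl, hlN, i₀.comp ((τ.liftNormal Ω : Ω ≃ₐ[ℚ] Ω) : Ω →+* Ω), t, fun x hx => ?_⟩
  have h1 := ht ⟨x, hM hx⟩
  have h2 : ∀ y : M.toIntermediateField, (τ.liftNormal Ω) (y : Ω) = (τ y : Ω) := fun y => AlgEquiv.liftNormal_commutes τ Ω y
  have h3 : ∀ y : M.toIntermediateField, ((s'.restrictNormal M.toIntermediateField y : M.toIntermediateField) : Ω) = s' (y : Ω) :=
    fun y => AlgEquiv.restrictNormal_commutes s' M.toIntermediateField y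
  show t (i₀ ((τ.liftNormal Ω) x)) = i₀ ((τ.liftNormal Ω) (s x))
  have h4 := h2 ⟨x, hM hx⟩
  have h5 := h2 (s'.restrictNormal M.toIntermediateField ⟨x, hM hx⟩)
  rw [h3] at h5
  change (τ.liftNormal Ω) x = _ at h4
  change (τ.liftNormal Ω) (s' x) = _ at h5
  rw [h4, ← hs', h5]
  exact h1

end Pool.Agent.H76W
end
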