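import Pool.Agent.Lib.H1M.RC.D_H76P_G0
import Pool.Agent.Lib.H1M.RC.M050
import Pool.Agent.Lib.H1M.RC.M051

/-! Merged copies (to shorten the build) of Lib.H76Q.X8, Lib.H76W.Supp, Lib.H86K.K7. -/

-- from Lib.H76Q.X8
section

/-!
# the semilinear automorphism for linked idempotents
-/

set_option autoImplicit false
set_option linter.unusedSectionVars false
namespace Pool.Agent.H76Q
open Module Matrix Polynomial TensorProduct Pool.Agent.H53Toric
open Pool.Agent.H76P
open Pool.Agent.H76T (IsIdeal Fam Lc)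
open Pool.Agent.H76V (Cmp)
open Pool.Agent.H76U (cmp preL IsSplitting)
open Pool.Agent.H76RM (spanK similD)

variable {ι : Type*} [Fintype ι] [DecidableEq ι] {K : Type*} [Field K] [CharZero K]
  [IsAlgClosed K] {J : Matrix ι ι K} {S 𝓗 : Set (Matrix ι ι K)} {e x : Matrix ι ι K} {q : K} {n : ℕ}
  {U : Matrix ι (Fin n) K} {V : Matrix (Fin n) ι K} {d : Fin n → K}
  {Y : Submodule ℚ (Fin n → ℚ)}

/-- PROOF. The proof of `exists_theta` (file E3) with `C = V * a' * U.map τ`, `C' = V.map τ * a * U` (there `a = a' = e`): `C * C' = V * a' * e.map τ * a * U = V * (a' * a) * U = 1`.  The column `k` of `a' * U.map τ` is an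
eigenvector of `x` with eigenvalue `τ (d k) = d (σ k)` (`hxa`), and `e * a' = a'`, so `C l k ≠ 0` only for `l = σ k`.  For `A ∈ preL J S`: `A.map τ ∈ preL J S` commutes with `a` (`hza`; `A.map τ = C + c • 1`, `C ∈ zlie S`), so
`θ (phi (cmp U V A)) = phi (V * a' * (U.map τ * V.map τ) * A.map τ * (U.map τ * V.map τ) * a * U) = phi (V * a' * A.map τ * a * U) = phi (V * (a' * a) ... ) = phi (cmp U V (A.map τ))`.  `adj`: `J' = Uᵀ J U`; `Cᵀ * J' * C = (U.map τ)ᵀ * a'ᵀ * J * a' * U.map τ = c • J'.map τ`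
(`hja`), `c ≠ 0` because `C` is invertible and `J'` too (if `n = 0` everything is trivial); the scalar does not matter for the adjoint. -/
theorem exists_theta' (h : Loc J S 𝓗 e x q U V d Y) {τ : K ≃+* K} {a a' : Matrix ι ι K} {c : K}
    (h1 : a * a' = e.map τ) (h2 : a' * a = e) (h3 : e * a' = a') (h4 : a' * e.map τ = a')
    (h5 : e.map τ * a = a) (h6 : a * e = a) (hxa : x * a' = a' * x)
    (hza : ∀ A ∈ zlie S, a * A = A * a) (hza' : ∀ A ∈ zlie S, a' * A = A * a')
    (hja : a'ᵀ * J * a' = c • (J * e.map τ))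
    (hx : x.map τ = x) (hJ : J.map τ = J) (hS : ∀ s ∈ S, s.map τ = s)
    {σ : Equiv.Perm (Fin n)} (hσ : ∀ k, τ (d k) = d (σ k)) :
    ∃ θ : Module.End K (Fin n → K) ≃+* Module.End K (Fin n → K),
      Theta (Lc J S U V) (Uᵀ * J * U) θ τ σ := by
  have hUV := h.UV
  have hVU := h.VU
  have hVe : V * e = V := by rw [hUV, ← Matrix.mul_assoc, hVU, Matrix.one_mul]
  have heU : e * U = U := by rw [hUV, Matrix.mul_assoc, hVU, Matrix.mul_one]
  have heUt : e.map τ * U.map τ = U.map τ := by rw [← e3_map_mul, heU]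
  have hUVt : U.map τ * V.map τ = e.map τ := by rw [← e3_map_mul, ← hUV]
  obtain ⟨C, hC⟩ : ∃ C, C = V * a' * U.map τ := ⟨_, rfl⟩
  obtain ⟨C', hC'⟩ : ∃ C', C' = V.map τ * a * U := ⟨_, rfl⟩
  have hCC : C * C' = 1 := by
    calc C * C' = V * (a' * (U.map τ * V.map τ)) * a * U := by
          rw [hC, hC']; simp only [Matrix.mul_assoc]
      _ = V * (a' * a) * U := by rw [hUVt, h4]; simp only [Matrix.mul_assoc]
      _ = 1 := by rw [h2, hVe, hVU]
  have hUC : U * C = a' * U.map τ := by
    calc U * C = (U * V) * a' * U.map τ := by rw [hC]; simp only [Matrix.mul_assoc]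
      _ = _ := by rw [← hUV, h3]
  have hCl : ∀ l k, C l k ≠ 0 → l = σ k := by
    intro l k hne
    have hVx : V * x = Matrix.diagonal d * V := by
      calc V * x = V * e * x := by rw [hVe]
        _ = V * (x * U) * V := by
            rw [Matrix.mul_assoc V e x, h.ex, hUV]
            simp only [Matrix.mul_assoc]
        _ = V * U * Matrix.diagonal d * V := by rw [h.ec.eig]; simp only [Matrix.mul_assoc]
        _ = _ := by rw [hVU, Matrix.one_mul]
    have hxU : x * U.map τ = U.map τ * Matrix.diagonal (fun k => d (σ k)) := by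
      have g1 := congrArg (fun M : Matrix ι (Fin n) K => M.map τ) h.ec.eig
      beta_reduce at g1
      rw [e3_map_mul, e3_map_mul, hx] at g1
      rw [g1]
      congr 1
      ext a b
      rw [Matrix.map_apply, Matrix.diagonal_apply, Matrix.diagonal_apply]
      split_ifs
      · exact hσ a
      · exact map_zero τ
    have g2 : Matrix.diagonal d * C = C * Matrix.diagonal (fun k => d (σ k)) := by
      calc Matrix.diagonal d * C = (Matrix.diagonal d * V) * a' * U.map τ := by
            rw [hC]; simp only [Matrix.mul_assoc]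
        _ = V * (x * a') * U.map τ := by rw [← hVx]; simp only [Matrix.mul_assoc]
        _ = V * a' * (x * U.map τ) := by rw [hxa]; simp only [Matrix.mul_assoc]
        _ = C * Matrix.diagonal (fun k => d (σ k)) := by
            rw [hxU, hC]; simp only [Matrix.mul_assoc]
    have g3 := congrFun (congrFun g2 l) k
    rw [Matrix.diagonal_mul, Matrix.mul_diagonal, mul_comm (C l k)] at g3
    exact h.ec.inj (mul_right_cancel₀ hne g3)
  obtain ⟨J', hJ'⟩ : ∃ J', J' = Uᵀ * J * U := ⟨_, rfl⟩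
  have hJd : IsUnit J'.det := by rw [hJ']; exact h.ts.cmp.Jd
  have hJi : J'⁻¹ * J' = 1 := Matrix.nonsing_inv_mul _ hJd
  have hJi' : J' * J'⁻¹ = 1 := Matrix.mul_nonsing_inv _ hJd
  have hJt : Cᵀ * J' * C = c • J'.map τ := by
    have e1 : (Uᵀ).map τ = (U.map τ)ᵀ := rfl
    calc Cᵀ * J' * C = (U * C)ᵀ * J * (U * C) := by
          rw [hJ', Matrix.transpose_mul]; simp only [Matrix.mul_assoc]
      _ = (U.map τ)ᵀ * (a'ᵀ * J * a') * U.map τ := by
          rw [hUC, Matrix.transpose_mul]; simp only [Matrix.mul_assoc]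
      _ = c • ((U.map τ)ᵀ * J * (e.map τ * U.map τ)) := by
          rw [hja, Matrix.mul_smul, Matrix.smul_mul]; simp only [Matrix.mul_assoc]
      _ = c • J'.map τ := by rw [heUt, hJ', e3_map_mul, e3_map_mul, hJ, e1]
  have hc0 : c ≠ 0 := by
    intro h0
    have hCt' : C'ᵀ * Cᵀ = 1 := by rw [← Matrix.transpose_mul, hCC, Matrix.transpose_one]
    have g1 : J' = 0 := by
      calc J' = (C'ᵀ * Cᵀ) * J' * (C * C') := by rw [hCt', hCC, Matrix.one_mul, Matrix.mul_one]
        _ = C'ᵀ * (Cᵀ * J' * C) * C' := by simp only [Matrix.mul_assoc]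
        _ = 0 := by rw [hJt, h0, zero_smul, Matrix.mul_zero, Matrix.zero_mul]
    have : Nonempty (Fin n) := ⟨⟨0, h.pos⟩⟩
    rw [g1, Matrix.det_zero] at hJd
    exact not_isUnit_zero hJd
  have hJC : c • (J'.map τ * C') = Cᵀ * J' := by
    rw [← Matrix.smul_mul, ← hJt, Matrix.mul_assoc, hCC, Matrix.mul_one]
  have hCt : C'ᵀ * Cᵀ = 1 := by rw [← Matrix.transpose_mul, hCC, Matrix.transpose_one]
  have hCJ : C * (J'⁻¹).map τ = c • (J'⁻¹ * C'ᵀ) := by
    have g1 : J'.map τ * (J'⁻¹).map τ = 1 := by rw [← H76T.map_mulm, hJi', H76T.map_onem]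
    calc C * (J'⁻¹).map τ = (J'⁻¹ * (C'ᵀ * Cᵀ) * J') * (C * (J'⁻¹).map τ) := by
          rw [hCt, Matrix.mul_one, hJi, Matrix.one_mul]
      _ = J'⁻¹ * C'ᵀ * ((Cᵀ * J' * C) * (J'⁻¹).map τ) := by simp only [Matrix.mul_assoc]
      _ = _ := by rw [hJt, Matrix.smul_mul, g1, Matrix.mul_smul, Matrix.mul_one]
  have hmat : ∀ X : Module.End K (Fin n → K), ∃ y : Matrix (Fin n) (Fin n) K, X = phi y ∧
      LinearMap.toMatrix' X = y := by
    intro X
    obtain ⟨y, rfl⟩ := (phi (ι := Fin n) (K := K)).surjective X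
    exact ⟨y, rfl, (phi (ι := Fin n) (K := K)).symm_apply_apply y⟩
  have hadj : ∀ X : Module.End K (Fin n → K), H76T.tht τ hCC (adjE J' X) = adjE J' (H76T.tht τ hCC X) := by
    intro X
    obtain ⟨y, rfl, -⟩ := hmat X
    rw [H76T.tht_apply, adjE_phi, adjE_phi, H76T.tht_apply]
    congr 1
    rw [H76T.map_mulm, H76T.map_mulm, Matrix.transpose_mul, Matrix.transpose_mul]
    have e4 : (yᵀ).map τ = (y.map τ)ᵀ := rfl
    rw [e4]
    calc C * ((J'⁻¹).map τ * (y.map τ)ᵀ * J'.map τ) * C' =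
        (C * (J'⁻¹).map τ) * (y.map τ)ᵀ * (J'.map τ * C') := by simp only [Matrix.mul_assoc]
      _ = J'⁻¹ * C'ᵀ * (y.map τ)ᵀ * (c • (J'.map τ * C')) := by
          rw [hCJ, Matrix.smul_mul, Matrix.smul_mul, Matrix.mul_smul]
      _ = _ := by rw [hJC]; simp only [Matrix.mul_assoc]
  have hcma : ∀ A ∈ preL J S, a * A = A * a := by
    rintro A ⟨⟨c₁, C₁, hC₁, hAC⟩, -⟩
    rw [hAC, Matrix.mul_add, Matrix.add_mul, hza C₁ hC₁, Matrix.mul_smul, Matrix.smul_mul,
      Matrix.mul_one, Matrix.one_mul]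
  have hcmp : ∀ A : Matrix ι ι K, A ∈ preL J S →
      H76T.tht τ hCC (phi (cmp U V A)) = phi (cmp U V (A.map τ)) := by
    intro A hA
    have g1 := hcma _ (e3_preL hJ hS hA)
    rw [H76T.tht_apply]
    congr 1
    rw [H76U.cmp_apply, H76U.cmp_apply, e3_map_mul, e3_map_mul, hC, hC']
    calc V * a' * U.map τ * (V.map τ * A.map τ * U.map τ) * (V.map τ * a * U) =
        V * (a' * (U.map τ * V.map τ)) * A.map τ * (((U.map τ * V.map τ) * a) * U) := by
          simp only [Matrix.mul_assoc]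
      _ = V * a' * (A.map τ * a) * U := by rw [hUVt, h4, h5]; simp only [Matrix.mul_assoc]
      _ = V * (a' * a) * A.map τ * U := by rw [← g1]; simp only [Matrix.mul_assoc]
      _ = _ := by rw [h2, hVe]
  have hS' : ∀ s ∈ S, s.map τ.symm = s := by
    intro s hs
    nth_rw 1 [← hS s hs]
    exact H76T.map_symmm τ s
  have hJs : J.map τ.symm = J := by
    nth_rw 1 [← hJ]
    exact H76T.map_symmm τ J
  have hLb : ∀ X : Module.End K (Fin n → K), H76T.tht τ hCC X ∈ H76U.Lb J S U V ↔ X ∈ H76U.Lb J S U V := by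
    intro X
    constructor
    · intro hX
      obtain ⟨y, hy, -⟩ := hmat (H76T.tht τ hCC X)
      rw [hy] at hX
      obtain ⟨A, hA, hAy⟩ := H76U.mem_Lb.1 hX
      have g1 : H76T.tht τ hCC (phi (cmp U V (A.map τ.symm))) = H76T.tht τ hCC X := by
        rw [hcmp _ (e3_preL hJs hS' hA), H76T.map_symmm', hAy, hy]
      rw [← (H76T.tht τ hCC).injective g1]
      exact H76U.mem_Lb.2 ⟨_, e3_preL hJs hS' hA, rfl⟩
    · intro hX
      obtain ⟨y, rfl, -⟩ := hmat X
      obtain ⟨A, hA, rfl⟩ := H76U.mem_Lb.1 hX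
      rw [hcmp _ hA]
      exact H76U.mem_Lb.2 ⟨_, e3_preL hJ hS hA, rfl⟩
  refine ⟨H76T.tht τ hCC, ⟨H76T.tht_smul τ hCC, fun g => ?_, fun X => ?_, fun X => ?_⟩⟩
  · rw [← phi_diag, H76T.tht_apply, ← phi_diag]
    congr 1
    have g1 : C * (Matrix.diagonal g).map τ = Matrix.diagonal (fun k => τ (g (σ.symm k))) * C := by
      have g2 : (Matrix.diagonal g).map τ = Matrix.diagonal (fun k => τ (g k)) := by
        ext a b
        rw [Matrix.map_apply, Matrix.diagonal_apply, Matrix.diagonal_apply]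
        split_ifs
        · rfl
        · exact map_zero τ
      rw [g2]
      ext l k
      rw [Matrix.diagonal_mul, Matrix.mul_diagonal]
      by_cases hz : C l k = 0
      · rw [hz, zero_mul, mul_zero]
      · rw [hCl l k hz, Equiv.symm_apply_apply, mul_comm]
    rw [g1, Matrix.mul_assoc, hCC, Matrix.mul_one]
  · rw [H76T.mem_Lc, H76T.mem_Lc, hLb, ← hJ', ← hadj, ← map_neg, (H76T.tht τ hCC).injective.eq_iff]
  · rw [← hJ']
    exact hadj X

end Pool.Agent.H76Q
end

-- from Lib.H76W.Supp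
section

/-!
# The support of the matrix of a rational element in a component, under an automorphism
-/

set_option autoImplicit false
set_option linter.unusedSectionVars false
namespace Pool.Agent.H76W
open Module Matrix Pool.Agent.H53Toric Pool.Agent.H76P Pool.Agent.H76Q

variable {ι : Type*} [Fintype ι] [DecidableEq ι] {K : Type*} [Field K]
  {J e e' x N : Matrix ι ι K} {n : ℕ}
  {U : Matrix ι (Fin n) K} {V : Matrix (Fin n) ι K} {d : Fin n → K} {t : K ≃+* K} {a a' : Matrix ι ι K}
  {π : Equiv.Perm (Fin n)} {q : K}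

theorem supp_map {m₁ m₂ m₃ : Type*} [Fintype m₂] (A : Matrix m₁ m₂ K) (B : Matrix m₂ m₃ K) (t : K ≃+* K) :
    (A * B).map t = A.map t * B.map t := by
  ext i j
  simp [Matrix.mul_apply, map_sum]

theorem supp_NU (hUV : e = U * V) (hVU : V * U = 1) (heN : e * N = N * e) : N * U = U * (V * N * U) := by
  calc N * U = N * (U * V) * U := by rw [Matrix.mul_assoc N, Matrix.mul_assoc U, hVU, Matrix.mul_one]
    _ = U * V * N * U := by rw [← hUV, ← heN]
    _ = _ := by simp only [Matrix.mul_assoc]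

theorem supp_diag (hex : x * U = U * Matrix.diagonal d) (hx : x.map t = x) :
    x * U.map t = U.map t * Matrix.diagonal (fun k => t (d k)) := by
  have h1 := congrArg (fun M : Matrix ι (Fin n) K => M.map t) hex
  beta_reduce at h1
  rw [supp_map, supp_map, hx] at h1
  rw [h1]
  congr 1
  ext i j
  rw [Matrix.map_apply, Matrix.diagonal_apply, Matrix.diagonal_apply]
  split_ifs
  · rfl
  · exact map_zero t

/-- The linked case. -/
theorem supp_link (hUV : e = U * V) (hVU : V * U = 1) (hec : EC x U d) (heN : e * N = N * e)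
    (h1 : a * a' = e.map t) (h3 : e * a' = a')
    (hxa : x * a' = a' * x) (hNa : N * a' = a' * N) (hx : x.map t = x) (hN : N.map t = N)
    (hd : ∀ k, t (d k) = d (π k)) (k l : Fin n) :
    (V * N * U) k l ≠ 0 ↔ (V * N * U) (π k) (π l) ≠ 0 := by
  have hVUt : V.map t * U.map t = 1 := by
    rw [← supp_map, hVU]
    ext i j
    rw [Matrix.map_apply, Matrix.one_apply]
    split_ifs
    · exact map_one t
    · exact map_zero t
  have hUVt : U.map t * V.map t = e.map t := by rw [← supp_map, ← hUV]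
  obtain ⟨W, hW⟩ : ∃ W, W = a' * U.map t := ⟨_, rfl⟩
  obtain ⟨C, hC⟩ : ∃ C, C = V * W := ⟨_, rfl⟩
  have hUC : U * C = W := by
    rw [hC, ← Matrix.mul_assoc, ← hUV, hW, ← Matrix.mul_assoc, h3]
  have hxW : x * W = W * Matrix.diagonal (fun k => t (d k)) := by
    rw [hW, ← Matrix.mul_assoc, hxa, Matrix.mul_assoc, supp_diag hec.eig hx, ← Matrix.mul_assoc]
  have hNW : N * W = W * (V * N * U).map t := by
    rw [hW, ← Matrix.mul_assoc, hNa, Matrix.mul_assoc, Matrix.mul_assoc]
    congr 1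
    have h5 := congrArg (fun M : Matrix ι (Fin n) K => M.map t) (supp_NU hUV hVU heN)
    beta_reduce at h5
    rwa [supp_map, supp_map, hN] at h5
  have hC1 : Matrix.diagonal d * C = C * Matrix.diagonal (fun k => t (d k)) := by
    have h5 : U * (Matrix.diagonal d * C) = U * (C * Matrix.diagonal (fun k => t (d k))) := by
      rw [← Matrix.mul_assoc, ← hec.eig, Matrix.mul_assoc, hUC, hxW, ← Matrix.mul_assoc, hUC]
    have h6 := congrArg (fun M => V * M) h5
    beta_reduce at h6
    rwa [← Matrix.mul_assoc, hVU, Matrix.one_mul, ← Matrix.mul_assoc, hVU, Matrix.one_mul] at h6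
  have hC2 : (V * N * U) * C = C * (V * N * U).map t := by
    have h5 : U * ((V * N * U) * C) = U * (C * (V * N * U).map t) := by
      rw [← Matrix.mul_assoc, ← supp_NU hUV hVU heN, Matrix.mul_assoc, hUC, hNW, ← Matrix.mul_assoc, hUC]
    have h6 := congrArg (fun M => V * M) h5
    beta_reduce at h6
    rwa [← Matrix.mul_assoc, hVU, Matrix.one_mul, ← Matrix.mul_assoc, hVU, Matrix.one_mul] at h6
  have hCz : ∀ l k, l ≠ π k → C l k = 0 := by
    intro l k hlk
    by_contra hne
    have h5 := congrFun (congrFun hC1 l) k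
    rw [Matrix.diagonal_mul, Matrix.mul_diagonal, mul_comm (C l k), hd] at h5
    exact hlk (hec.inj (mul_right_cancel₀ hne h5))
  have hCne : ∀ k, C (π k) k ≠ 0 := by
    intro k h5
    have h6 : ∀ l, C l k = 0 := by
      intro l
      by_cases hl : l = π k
      · rw [hl]; exact h5
      · exact hCz l k hl
    have h7 : (V.map t * a * U) * C = 1 := by
      rw [Matrix.mul_assoc, hUC, hW, Matrix.mul_assoc, ← Matrix.mul_assoc a, h1, ← hUVt, Matrix.mul_assoc (U.map t),
        hVUt, Matrix.mul_one, hVUt]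
    have h8 := congrFun (congrFun h7 k) k
    rw [Matrix.mul_apply, Matrix.one_apply_eq, Finset.sum_eq_zero (fun l _ => by rw [h6 l, mul_zero])] at h8
    exact zero_ne_one h8
  have key : (V * N * U) (π k) (π l) * C (π l) l = C (π k) k * t ((V * N * U) k l) := by
    have h5 := congrFun (congrFun hC2 (π k)) l
    rw [Matrix.mul_apply, Matrix.mul_apply, Finset.sum_eq_single (π l), Finset.sum_eq_single k] at h5
    · exact h5
    · intro m _ hm
      rw [hCz (π k) m (fun h => hm (π.injective h).symm), zero_mul]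
    · intro h; exact absurd (Finset.mem_univ _) h
    · intro m _ hm
      rw [hCz m l hm, mul_zero]
    · intro h; exact absurd (Finset.mem_univ _) h
  constructor
  · intro h h0
    rw [h0, zero_mul] at key
    rcases mul_eq_zero.1 key.symm with h5 | h5
    · exact hCne k h5
    · exact h ((map_eq_zero t).1 h5)
  · intro h h0
    rw [h0, map_zero, mul_zero] at key
    rcases mul_eq_zero.1 key with h5 | h5
    · exact h h5
    · exact hCne l h5

/-- The dual case. -/
theorem supp_dual (hUV : e = U * V) (hVU : V * U = 1) (hec : EC x U d) (heN : e * N = N * e)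
    (h1 : a * a' = e.map t) (h3 : e' * a' = a')
    (hxa : x * a' = a' * x) (hNa : N * a' = a' * N) (hx : x.map t = x) (hN : N.map t = N)
    (hJe : e'ᵀ * J = J * e) (hJ : IsUnit J.det) (hxJ : xᵀ * J * x = q • J) (hNJ : Nᵀ * J = -(J * N))
    (hq : q ≠ 0) (hd : ∀ k, t (d k) * d (π k) = q) (k l : Fin n) :
    (V * N * U) k l ≠ 0 ↔ (V * N * U) (π l) (π k) ≠ 0 := by
  have hVUt : V.map t * U.map t = 1 := by
    rw [← supp_map, hVU]
    ext i j
    rw [Matrix.map_apply, Matrix.one_apply]
    split_ifs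
    · exact map_one t
    · exact map_zero t
  have hUVt : U.map t * V.map t = e.map t := by rw [← supp_map, ← hUV]
  obtain ⟨W, hW⟩ : ∃ W, W = a' * U.map t := ⟨_, rfl⟩
  obtain ⟨M, hM⟩ : ∃ M, M = Wᵀ * J * U := ⟨_, rfl⟩
  have heW : e' * W = W := by rw [hW, ← Matrix.mul_assoc, h3]
  have hxW : x * W = W * Matrix.diagonal (fun k => t (d k)) := by
    rw [hW, ← Matrix.mul_assoc, hxa, Matrix.mul_assoc, supp_diag hec.eig hx, ← Matrix.mul_assoc]
  have hNW : N * W = W * (V * N * U).map t := by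
    rw [hW, ← Matrix.mul_assoc, hNa, Matrix.mul_assoc, Matrix.mul_assoc]
    congr 1
    have h5 := congrArg (fun M : Matrix ι (Fin n) K => M.map t) (supp_NU hUV hVU heN)
    beta_reduce at h5
    rwa [supp_map, supp_map, hN] at h5
  have hM1 : Matrix.diagonal (fun k => t (d k)) * M * Matrix.diagonal d = q • M := by
    calc Matrix.diagonal (fun k => t (d k)) * M * Matrix.diagonal d =
        (W * Matrix.diagonal (fun k => t (d k)))ᵀ * J * (U * Matrix.diagonal d) := by
          rw [hM, Matrix.transpose_mul, Matrix.diagonal_transpose]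
          simp only [Matrix.mul_assoc]
      _ = Wᵀ * (xᵀ * J * x) * U := by
          rw [← hxW, ← hec.eig, Matrix.transpose_mul]
          simp only [Matrix.mul_assoc]
      _ = q • M := by
          rw [hxJ, hM, Matrix.mul_smul, Matrix.smul_mul]
  have hM2 : ((V * N * U).map t)ᵀ * M = -(M * (V * N * U)) := by
    calc ((V * N * U).map t)ᵀ * M = (N * W)ᵀ * J * U := by
          rw [hNW, Matrix.transpose_mul, hM]
          simp only [Matrix.mul_assoc]
      _ = Wᵀ * (Nᵀ * J) * U := by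
          rw [Matrix.transpose_mul]
          simp only [Matrix.mul_assoc]
      _ = -(Wᵀ * J * (N * U)) := by
          rw [hNJ]
          simp only [Matrix.mul_neg, Matrix.neg_mul, Matrix.mul_assoc]
      _ = _ := by
          rw [supp_NU hUV hVU heN, hM]
          simp only [Matrix.mul_assoc]
  have hMz : ∀ k l, l ≠ π k → M k l = 0 := by
    intro k l hlk
    by_contra hne
    have h5 := congrFun (congrFun hM1 k) l
    rw [Matrix.mul_diagonal, Matrix.diagonal_mul, Matrix.smul_apply, smul_eq_mul, mul_right_comm] at h5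
    have h6 := mul_right_cancel₀ hne h5
    rw [← hd k] at h6
    have h7 : t (d k) ≠ 0 := by
      intro h0
      apply hq
      rw [← hd k, h0, zero_mul]
    exact hlk (hec.inj (mul_left_cancel₀ h7 h6))
  have hMne : ∀ k, M k (π k) ≠ 0 := by
    intro k h5
    have h6 : ∀ l, M k l = 0 := by
      intro l
      by_cases hl : l = π k
      · rw [hl]; exact h5
      · exact hMz k l hl
    have h7 : Wᵀ * J = M * V := by
      calc Wᵀ * J = (e' * W)ᵀ * J := by rw [heW]
        _ = Wᵀ * (e'ᵀ * J) := by rw [Matrix.transpose_mul, Matrix.mul_assoc]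
        _ = Wᵀ * J * (U * V) := by rw [hJe, hUV, Matrix.mul_assoc]
        _ = _ := by rw [hM]; simp only [Matrix.mul_assoc]
    have h8 : Wᵀ = M * V * J⁻¹ := by
      rw [← h7, Matrix.mul_assoc, Matrix.mul_nonsing_inv _ hJ, Matrix.mul_one]
    have h9 : ∀ i, W i k = 0 := by
      intro i
      have h10 : W i k = (M * V * J⁻¹) k i := by rw [← h8, Matrix.transpose_apply]
      rw [h10, Matrix.mul_assoc, Matrix.mul_apply]
      exact Finset.sum_eq_zero fun l _ => by rw [h6 l, zero_mul]
    have h11 : (V.map t * a) * W = 1 := by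
      rw [hW, Matrix.mul_assoc, ← Matrix.mul_assoc a, h1, ← hUVt, Matrix.mul_assoc (U.map t), hVUt, Matrix.mul_one, hVUt]
    have h12 := congrFun (congrFun h11 k) k
    rw [Matrix.mul_apply, Matrix.one_apply_eq, Finset.sum_eq_zero (fun i _ => by rw [h9 i, mul_zero])] at h12
    exact zero_ne_one h12
  have key : t ((V * N * U) k l) * M k (π k) = -(M l (π l) * (V * N * U) (π l) (π k)) := by
    have h5 := congrFun (congrFun hM2 l) (π k)
    rw [Matrix.mul_apply, Matrix.neg_apply, Matrix.mul_apply, Finset.sum_eq_single k, Finset.sum_eq_single (π l)] at h5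
    · exact h5
    · intro m _ hm
      rw [hMz l m hm, zero_mul]
    · intro h; exact absurd (Finset.mem_univ _) h
    · intro m _ hm
      rw [hMz m (π k) (fun h => hm (π.injective h).symm), mul_zero]
    · intro h; exact absurd (Finset.mem_univ _) h
  constructor
  · intro h h0
    rw [h0, mul_zero, neg_zero] at key
    rcases mul_eq_zero.1 key with h5 | h5
    · exact h ((map_eq_zero t).1 h5)
    · exact hMne k h5
  · intro h h0
    rw [h0, map_zero, zero_mul] at key
    rcases mul_eq_zero.1 (neg_eq_zero.1 key.symm) with h5 | h5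
    · exact hMne l h5
    · exact h h5

end Pool.Agent.H76W
end

-- from Lib.H86K.K7
section

/-!
# K7: a prime where a Frobenius element acts as the complex conjugation
-/

set_option autoImplicit false
set_option linter.unusedSectionVars false
namespace Pool.Agent.H86K
open Pool.Agent.H76Q

theorem exists_flip {Ω : Type} [Field Ω] [CharZero Ω] [IsAlgClosed Ω] [Algebra.IsAlgebraic ℚ Ω]
    (c : Ω ≃+* Ω) (hc : ∀ x, c (c x) = x) (T : Finset Ω) (hT : ∀ x ∈ T, c x ∈ T) {x₀ : Ω} (hx₀ : x₀ ∈ T)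
    (hne : c x₀ ≠ x₀) {N : Set ℕ} (hN : N.Finite) :
    ∃ (l : ℕ) (_ : Fact l.Prime), l ∉ N ∧ ∃ (i : Ω →+* AlgebraicClosure ℚ_[l])
      (t : AlgebraicClosure ℚ_[l] ≃ₐ[ℚ_[l]] AlgebraicClosure ℚ_[l]),
      (∀ x ∈ IntermediateField.adjoin ℚ (T : Set Ω), t (i x) = i (c x)) ∧
      ∀ x ∈ IntermediateField.adjoin ℚ (T : Set Ω), c x = x →
        ∃ y : ℚ_[l], i x = algebraMap ℚ_[l] (AlgebraicClosure ℚ_[l]) y := by
  set E := IntermediateField.adjoin ℚ (T : Set Ω) with hE
  have hfixE : ∀ s : Ω ≃+* Ω, (∀ x ∈ T, s x = x) → ∀ x ∈ E, s x = x := by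
    intro s hs x hx
    induction hx using IntermediateField.adjoin_induction with
    | mem x hx => exact hs x hx
    | algebraMap x => rw [eq_ratCast, map_ratCast]
    | add x y _ _ hx hy => rw [map_add, hx, hy]
    | inv x _ hx => rw [map_inv₀, hx]
    | mul x y _ _ hx hy => rw [map_mul, hx, hy]
  have hcE : ∀ x ∈ E, c x ∈ E := by
    intro x hx
    induction hx using IntermediateField.adjoin_induction with
    | mem x hx => exact IntermediateField.subset_adjoin ℚ _ (hT x hx)
    | algebraMap x =>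
      rw [eq_ratCast, map_ratCast, ← eq_ratCast (algebraMap ℚ Ω)]
      exact E.algebraMap_mem x
    | add x y _ _ hx hy => rw [map_add]; exact E.add_mem hx hy
    | inv x _ hx => rw [map_inv₀]; exact E.inv_mem hx
    | mul x y _ _ hx hy => rw [map_mul]; exact E.mul_mem hx hy
  let Γ : Subgroup (Ω ≃+* Ω) :=
    { carrier := {s | ∀ x ∈ E, c x = x → s x = x}
      mul_mem' := by
        intro s s' h h' x hx hcx
        show s (s' x) = x
        rw [h' x hx hcx, h x hx hcx]
      one_mem' := fun x _ _ => rfl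
      inv_mem' := by
        intro s h x hx hcx
        show s.symm x = x
        rw [RingEquiv.symm_apply_eq]
        exact (h x hx hcx).symm }
  have hΓ : ∀ s, s ∈ Γ ↔ ∀ x ∈ E, c x = x → s x = x := fun s => Iff.rfl
  have hcΓ : c ∈ Γ := fun x _ hcx => hcx
  have hx₀E : x₀ ∈ E := IntermediateField.subset_adjoin ℚ _ hx₀
  set d : Ω := x₀ - c x₀ with hd
  have hdE : d ∈ E := E.sub_mem hx₀E (hcE _ hx₀E)
  have hcd : c d = -d := by
    rw [hd, map_sub, hc]
    ring
  have hd0 : d ≠ 0 := fun h => hne (sub_eq_zero.1 h).symm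
  have hkey : ¬ ∀ (l : ℕ) [Fact l.Prime], l ∉ N → ∀ i : Ω →+* AlgebraicClosure ℚ_[l],
      Dec ℚ_[l] Γ i → (∀ r ∈ (∅ : Finset Ω), SqIn ℚ_[l] (i r)) → SqIn ℚ_[l] (i (d ^ 2)) := by
    intro hall
    obtain ⟨R', hR', c', hc', hdc⟩ := H45K.cheb (∅ : Finset Ω) N hN Γ
      ⟨T, fun s hs x hx _ => hfixE s hs x hx⟩ (fun s _ r hr => absurd hr (Finset.notMem_empty r)) (d ^ 2)
      (fun s hs => (hΓ s).1 hs _ (by rw [sq]; exact E.mul_mem hdE hdE) (by rw [map_pow, hcd, neg_sq])) hall
    rw [Finset.subset_empty.1 hR', Finset.prod_empty, one_mul] at hdc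
    have h1 := hc' c hcΓ
    rcases sq_eq_sq_iff_eq_or_eq_neg.1 hdc with h2 | h2
    · rw [← h2, hcd] at h1
      exact hd0 (neg_eq_self.1 h1)
    · have h3 : c' = -d := by rw [h2, neg_neg]
      rw [h3, map_neg, hcd, neg_neg] at h1
      exact hd0 (self_eq_neg.1 h1)
  push Not at hkey
  obtain ⟨l, hl, hlN, i, hDec, -, hnsq⟩ := hkey
  have hrat : ∀ x ∈ E, c x = x → ∃ y : ℚ_[l], i x = algebraMap ℚ_[l] (AlgebraicClosure ℚ_[l]) y := by
    intro x hx hcx
    refine fixed_mem fun t => ?_
    obtain ⟨s, hs⟩ := exists_res i t.toRingEquiv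
    have hsΓ : s ∈ Γ := hDec t s hs
    exact (hs x).trans (by rw [(hΓ s).1 hsΓ x hx hcx])
  obtain ⟨t, ht⟩ : ∃ t : AlgebraicClosure ℚ_[l] ≃ₐ[ℚ_[l]] AlgebraicClosure ℚ_[l], t (i d) ≠ i d := by
    by_contra hcon
    push Not at hcon
    obtain ⟨y, hy⟩ := fixed_mem hcon
    apply hnsq
    exact ⟨y, by rw [map_pow, hy]⟩
  obtain ⟨s, hs⟩ := exists_res i t.toRingEquiv
  have hsΓ : s ∈ Γ := hDec t s hs
  have hs' : ∀ y, t (i y) = i (s y) := hs
  have hsd : s d = -d := by
    have h1 : s (d ^ 2) = d ^ 2 := (hΓ s).1 hsΓ _ (by rw [sq]; exact E.mul_mem hdE hdE) (by rw [map_pow, hcd, neg_sq])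
    rw [map_pow] at h1
    rcases sq_eq_sq_iff_eq_or_eq_neg.1 h1 with h2 | h2
    · exfalso
      apply ht
      rw [hs', h2]
    · exact h2
  refine ⟨l, hl, hlN, i, t, fun x hx => ?_, hrat⟩
  rw [hs']
  congr 1
  have h2E : (2 : Ω) ≠ 0 := two_ne_zero
  have h1 : s (x + c x) = x + c x := (hΓ s).1 hsΓ _ (E.add_mem hx (hcE x hx)) (by rw [map_add, hc, add_comm])
  have h2 : s ((x - c x) / d) = (x - c x) / d := by
    refine (hΓ s).1 hsΓ _ (E.div_mem (E.sub_mem hx (hcE x hx)) hdE) ?_
    rw [map_div₀, map_sub, hc, hcd]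
    rw [div_neg, ← neg_div, neg_sub]
  have h3 : s (x - c x) = -(x - c x) := by
    rw [map_div₀, hsd, div_neg, neg_eq_iff_eq_neg, ← neg_div, div_left_inj' hd0] at h2
    exact h2
  have h4 : (2 : Ω) * s x = 2 * c x := by
    have h5 : s (x + c x) + s (x - c x) = 2 * s x := by
      rw [← map_add]
      have : x + c x + (x - c x) = 2 * x := by ring
      rw [this, map_mul, map_ofNat]
    rw [← h5, h1, h3]
    ring
  exact mul_left_cancel₀ h2E h4

end Pool.Agent.H86K
end
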