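import Pool.Agent.Lib.H1M.RC.M021
import Pool.Agent.Lib.H1M.RC.M022

/-! Merged copies (to shorten the build) of Lib.H25U.Defs, Lib.H25U.A1, Lib.H25U.A2, Lib.H25U.K0, Lib.H86N.K1, Lib.H86N.K2, Lib.H86N.K5. -/

-- from Lib.H25U.Defs
section

/-!
# H25U: simple Lie algebras containing an idempotent modulo scalars (no condition on the rank)
-/

set_option autoImplicit false
set_option linter.unusedSectionVars false
namespace Pool.Agent.H25U
open Module Pool.Agent.H53Toric Pool.Agent.H49M
open Pool.Agent.H86N (CoreN)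

variable {K : Type*} [Field K] {V : Type*} [AddCommGroup V] [Module K V]

/-- Membership modulo scalars. -/
def InW (L : Submodule K (Module.End K V)) (s : Module.End K V) : Prop := ∃ c : K, s + c • 1 ∈ L

theorem InW.of_mem {L : Submodule K (Module.End K V)} {s : Module.End K V} (h : s ∈ L) : InW L s :=
  ⟨0, by rw [zero_smul, add_zero]; exact h⟩

theorem InW.neg {L : Submodule K (Module.End K V)} {s : Module.End K V} (h : InW L s) : InW L (-s) := by
  obtain ⟨c, hc⟩ := h
  refine ⟨-c, ?_⟩
  have := L.neg_mem hc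
  rwa [neg_add, ← neg_smul] at this

theorem InW.add {L : Submodule K (Module.End K V)} {s t : Module.End K V} (h : InW L s) (h' : InW L t) :
    InW L (s + t) := by
  obtain ⟨c, hc⟩ := h
  obtain ⟨d, hd⟩ := h'
  refine ⟨c + d, ?_⟩
  have := L.add_mem hc hd
  have e : s + t + (c + d) • (1 : Module.End K V) = s + c • 1 + (t + d • 1) := by
    rw [add_smul]; abel
  rw [e]
  exact this

theorem InW.sub {L : Submodule K (Module.End K V)} {s t : Module.End K V} (h : InW L s) (h' : InW L t) :
    InW L (s - t) := by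
  rw [sub_eq_add_neg]
  exact h.add h'.neg

theorem InW.smul {L : Submodule K (Module.End K V)} {s : Module.End K V} (c : K) (h : InW L s) :
    InW L (c • s) := by
  obtain ⟨d, hd⟩ := h
  refine ⟨c * d, ?_⟩
  have := L.smul_mem c hd
  rwa [smul_add, smul_smul] at this

theorem InW.br {L : Submodule K (Module.End K V)} (hl : IsLie L) {s X : Module.End K V} (h : InW L s)
    (hX : X ∈ L) : s * X - X * s ∈ L := by
  obtain ⟨c, hc⟩ := h
  have h1 := hl _ hc _ hX
  have e : (s + c • 1) * X - X * (s + c • 1) = s * X - X * s := by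
    rw [add_mul, mul_add, smul_mul_assoc, mul_smul_comm, one_mul, mul_one]
    abel
  rwa [e] at h1

theorem InW.plus [CharZero K] {L : Submodule K (Module.End K V)} (hl : IsLie L) {s X : Module.End K V}
    (h : InW L s) (hs2 : s * s = 1) (hX : X ∈ L) : (1 + s) * X * (1 - s) ∈ L := by
  have h1 := h.br hl hX
  have h2 := h.br hl h1
  have e : (1 + s) * X * (1 - s) = (s * X - X * s) + (1 / 2 : K) • (s * (s * X - X * s) - (s * X - X * s) * s) := by
    have e1 : s * (s * X - X * s) - (s * X - X * s) * s = (2 : K) • (X - s * X * s) := by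
      have : s * (s * X - X * s) - (s * X - X * s) * s = s * s * X - s * X * s - s * X * s + X * (s * s) := by
        noncomm_ring
      rw [this, hs2, one_mul, mul_one, two_smul]
      abel
    rw [e1, smul_smul]
    norm_num
    noncomm_ring
  rw [e]
  exact L.add_mem h1 (L.smul_mem _ h2)

theorem InW.minus [CharZero K] {L : Submodule K (Module.End K V)} (hl : IsLie L) {s X : Module.End K V}
    (h : InW L s) (hs2 : s * s = 1) (hX : X ∈ L) : (1 - s) * X * (1 + s) ∈ L := by
  have := InW.plus hl h.neg (by rw [neg_mul_neg, hs2]) hX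
  rwa [sub_neg_eq_add, ← sub_eq_add_neg] at this

/-- Membership modulo scalars, not `1` or `-1`. -/
structure InL (L : Submodule K (Module.End K V)) (s : Module.End K V) : Prop where
  mem : InW L s
  ne1 : s ≠ 1
  ne2 : s ≠ -1

theorem InL.neg {L : Submodule K (Module.End K V)} {s : Module.End K V} (h : InL L s) : InL L (-s) :=
  ⟨h.mem.neg, fun h1 => h.ne2 (neg_eq_iff_eq_neg.1 h1), fun h1 => h.ne1 (neg_inj.1 h1)⟩

theorem InL.plus [CharZero K] {L : Submodule K (Module.End K V)} (hl : IsLie L) {s X : Module.End K V}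
    (h : InL L s) (hs2 : s * s = 1) (hX : X ∈ L) : (1 + s) * X * (1 - s) ∈ L := InW.plus hl h.mem hs2 hX

theorem InL.minus [CharZero K] {L : Submodule K (Module.End K V)} (hl : IsLie L) {s X : Module.End K V}
    (h : InL L s) (hs2 : s * s = 1) (hX : X ∈ L) : (1 - s) * X * (1 + s) ∈ L := InW.minus hl h.mem hs2 hX

/-- A frame: an involution `s` of `L` modulo scalars and an extremal pair `e`, `f` of weights `1` and `-1`. -/
structure Frame (L : Submodule K (Module.End K V)) (s e f : Module.End K V) : Prop where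
  s_mem : InL L s
  s_sq : s * s = 1
  e_mem : e ∈ Lp L s
  f_mem : f ∈ Lm L s
  e_ne : e ≠ 0
  efe : e * f * e = e
  fef : f * e * f = f
  ext : ∀ X ∈ L, ∃ c : K, e * X * e = c • e

/-- Two orthogonal connected frames for the same involution. -/
structure Grid (L : Submodule K (Module.End K V)) (s e f e' f' u : Module.End K V) : Prop where
  F : Frame L s e f
  F' : Frame L s e' f'
  o1 : e * f' = 0
  o2 : f' * e = 0
  o3 : e' * f = 0
  o4 : f * e' = 0
  u_mem : u ∈ Lp L s
  ufu : u * f * u = e'
  ufu' : u * f' * u = e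
  u1 : e * f * u + u * (f * e) = u
  u2 : e' * f' * u + u * (f' * e') = u

/-- The form-free version of `Setup`. -/
structure SetupN (g : Submodule K (Module.End K V)) : Prop where
  lie : IsLie g
  irr : Irr g
  tr : ∀ X ∈ g, LinearMap.trace K V X = 0
  span : g ≤ Submodule.span K {z | z ∈ g ∧ ∃ c : K, (z - c • 1) * (z - c • 1) = 1}

/-- A system of idempotents compatible with `L`. -/
structure BlocksN (L : Submodule K (Module.End K V)) (p q : Fin 3 → Module.End K V) : Prop where
  pp : ∀ i j, p i * p j = if i = j then p i else 0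
  qq : ∀ i j, q i * q j = if i = j then q i else 0
  pq : ∀ i j, p i * q j = 0
  qp : ∀ i j, q i * p j = 0
  sum : p 0 + p 1 + p 2 + (q 0 + q 1 + q 2) = 1
  mem : ∀ i, InW L (p i - q i)
  m0 : ∀ X ∈ L, ∀ i j, i ≠ j → p i * X * p j + q j * X * q i ∈ L
  mp : ∀ X ∈ L, ∀ i j, i ≠ j → p i * X * q j + p j * X * q i ∈ L
  mm : ∀ X ∈ L, ∀ i j, i ≠ j → q i * X * p j + q j * X * p i ∈ L
  mpp : ∀ X ∈ L, ∀ i, p i * X * q i ∈ L
  mmm : ∀ X ∈ L, ∀ i, q i * X * p i ∈ L
  md : ∀ X ∈ L, p 0 * X * p 0 + p 1 * X * p 1 + p 2 * X * p 2 +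
    (q 0 * X * q 0 + q 1 * X * q 1 + q 2 * X * q 2) ∈ L

end Pool.Agent.H25U
end

-- from Lib.H25U.A1
section

/-!
# A1: the Lie algebra is spanned by involutions modulo scalars
-/

set_option autoImplicit false
set_option linter.unusedSectionVars false
namespace Pool.Agent.H25U
open Module Pool.Agent.H53Toric Pool.Agent.H49M
open Pool.Agent.H86N (CoreN)

variable {K : Type*} [Field K] {V : Type*} [AddCommGroup V] [Module K V]

variable {L : Submodule K (Module.End K V)}

theorem A1_pert [CharZero K] {y N : Module.End K V} {c : K} (hy : y + c • 1 ∈ L)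
    (hy2 : y * y = 1) (hN : N ∈ L) (hNN : N * N = 0) (hyN : y * N = -(N * y)) :
    N ∈ Submodule.span K {z | z ∈ L ∧ ∃ c : K, (z - c • 1) * (z - c • 1) = 1} := by
  have h1 : y + c • 1 ∈ Submodule.span K {z | z ∈ L ∧ ∃ c : K, (z - c • 1) * (z - c • 1) = 1} :=
    Submodule.subset_span ⟨hy, c, by rw [add_sub_cancel_right, hy2]⟩
  have h2 : y + c • 1 - N ∈ Submodule.span K {z | z ∈ L ∧ ∃ c : K, (z - c • 1) * (z - c • 1) = 1} := by
    refine Submodule.subset_span ⟨L.sub_mem hy hN, c, ?_⟩
    have e0 : y + c • (1 : Module.End K V) - N - c • 1 = y - N := by abel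
    have e : (y - N) * (y - N) = y * y - y * N - N * y + N * N := by noncomm_ring
    rw [e0, e, hy2, hyN, hNN]
    simp
  have h3 := Submodule.sub_mem _ h1 h2
  rwa [sub_sub_cancel] at h3

/-- The span of the involutions of `L` (modulo scalars) is `L`. -/
theorem A1_span [CharZero K] [Nontrivial V] (h : CoreN L) {s : Module.End K V} (hs : InL L s)
    (hs2 : s * s = 1) : L ≤ Submodule.span K {z | z ∈ L ∧ ∃ c : K, (z - c • 1) * (z - c • 1) = 1} := by
  set I := Submodule.span K {z | z ∈ L ∧ ∃ c : K, (z - c • 1) * (z - c • 1) = 1} with hI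
  have hIL : I ≤ L := Submodule.span_le.2 fun y hy => hy.1
  have hid : ∀ X ∈ L, ∀ Y ∈ I, X * Y - Y * X ∈ I := by
    intro X hX Y hY
    induction hY using Submodule.span_induction with
    | mem z hz =>
      obtain ⟨hz, c, hz2⟩ := hz
      obtain ⟨y, hy⟩ : ∃ y, y = z - c • 1 := ⟨_, rfl⟩
      have hzy : z = y + c • 1 := by rw [hy, sub_add_cancel]
      have hy2 : y * y = 1 := by rw [hy]; exact hz2
      rw [hzy] at hz
      have hyW : InW L y := ⟨c, hz⟩
      have p1 : (1 + y) * X * (1 - y) ∈ I := by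
        refine A1_pert hz hy2 (InW.plus h.lie hyW hy2 hX) ?_ ?_
        · calc (1 + y) * X * (1 - y) * ((1 + y) * X * (1 - y)) =
              (1 + y) * X * (1 - y * y) * X * (1 - y) := by noncomm_ring
            _ = 0 := by rw [hy2, sub_self]; simp
        · have e1 : y * ((1 + y) * X * (1 - y)) = (y + y * y) * X * (1 - y) := by noncomm_ring
          have e2 : (1 + y) * X * (1 - y) * y = (1 + y) * X * (y - y * y) := by noncomm_ring
          rw [e1, e2, hy2]
          noncomm_ring
      have p2 : (1 - y) * X * (1 + y) ∈ I := by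
        refine A1_pert hz hy2 (InW.minus h.lie hyW hy2 hX) ?_ ?_
        · calc (1 - y) * X * (1 + y) * ((1 - y) * X * (1 + y)) =
              (1 - y) * X * (1 - y * y) * X * (1 + y) := by noncomm_ring
            _ = 0 := by rw [hy2, sub_self]; simp
        · have e1 : y * ((1 - y) * X * (1 + y)) = (y - y * y) * X * (1 + y) := by noncomm_ring
          have e2 : (1 - y) * X * (1 + y) * y = (1 - y) * X * (y + y * y) := by noncomm_ring
          rw [e1, e2, hy2]
          noncomm_ring
      have p3 := I.smul_mem (1 / 2 : K) (I.sub_mem p2 p1)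
      have e0 : X * z - z * X = X * y - y * X := by
        rw [hzy, mul_add, add_mul, smul_mul_assoc, mul_smul_comm, one_mul, mul_one]
        abel
      have e : (1 - y) * X * (1 + y) - (1 + y) * X * (1 - y) = (2 : K) • (X * y - y * X) := by
        have : (1 - y) * X * (1 + y) - (1 + y) * X * (1 - y) =
            (X * y - y * X) + (X * y - y * X) := by noncomm_ring
        rw [this, two_smul]
      rw [e, smul_smul] at p3
      norm_num at p3
      rw [e0]
      exact p3
    | zero => simp
    | add a b _ _ ha hb =>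
      have e : X * (a + b) - (a + b) * X = (X * a - a * X) + (X * b - b * X) := by noncomm_ring
      rw [e]
      exact I.add_mem ha hb
    | smul c a _ ha =>
      rw [mul_smul_comm, smul_mul_assoc, ← smul_sub]
      exact I.smul_mem c ha
  rcases h.simple I hIL hid with h0 | h0
  · exfalso
    obtain ⟨c, hc⟩ := hs.mem
    have h1 : s + c • 1 ∈ I := Submodule.subset_span ⟨hc, c, by rw [add_sub_cancel_right, hs2]⟩
    rw [h0, Submodule.mem_bot] at h1
    have h2 : s = (-c) • 1 := by rw [neg_smul]; exact eq_neg_of_add_eq_zero_left h1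
    rw [h2, smul_mul_smul_comm, one_mul] at hs2
    obtain ⟨v, hv⟩ := exists_ne (0 : V)
    have h3 := LinearMap.congr_fun hs2 v
    rw [LinearMap.smul_apply, Module.End.one_apply] at h3
    have h4 : (-c * -c - 1) • v = 0 := by rw [sub_smul, h3, one_smul, sub_self]
    have h5 : (-c - 1) * (-c + 1) = 0 := by
      have := (smul_eq_zero.1 h4).resolve_right hv
      linear_combination this
    rcases mul_eq_zero.1 h5 with h6 | h6
    · apply hs.ne1
      rw [h2, sub_eq_zero.1 h6, one_smul]
    · apply hs.ne2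
      rw [h2, eq_neg_of_add_eq_zero_left h6, neg_smul, one_smul]
  · exact h0.ge

theorem A1_setup [CharZero K] [FiniteDimensional K V] [Nontrivial V] (h : CoreN L)
    {s : Module.End K V} (hs : InL L s) (hs2 : s * s = 1) : SetupN L where
  lie := h.lie
  irr := h.irr
  tr := h.tr
  span := A1_span h hs hs2

end Pool.Agent.H25U
end

-- from Lib.H25U.A2
section

/-!
# A2: the grading given by an involution
-/

set_option autoImplicit false
set_option linter.unusedSectionVars false
namespace Pool.Agent.H25U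
open Module Pool.Agent.H53Toric Pool.Agent.H49M
open Pool.Agent.H86N (CoreN)

variable {K : Type*} [Field K] {V : Type*} [AddCommGroup V] [Module K V]

variable {L : Submodule K (Module.End K V)}

/-- Chunk A2. `X = (1/4)(1+s)X(1-s) + (1/4)(1-s)X(1+s) + rest`, the first two are in `L` by
`IsLie.plus`, `IsLie.minus`, and the rest `(1/4)(1+s)X(1+s) + (1/4)(1-s)X(1-s)` commutes with
`s`. -/
theorem A2_decomp [CharZero K] (h : CoreN L) {s : Module.End K V} (hs : InL L s)
    (hs2 : s * s = 1) {X : Module.End K V} (hX : X ∈ L) :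
    ∃ a ∈ Lp L s, ∃ b ∈ L0 L s, ∃ c ∈ Lm L s, X = a + b + c := by
  have hp := InL.plus h.lie hs hs2 hX
  have hm := InL.minus h.lie hs hs2 hX
  have e1 : s * ((1 + s) * X * (1 - s)) = (1 + s) * X * (1 - s) := by
    have : s * ((1 + s) * X * (1 - s)) = (s + s * s) * X * (1 - s) := by noncomm_ring
    rw [this, hs2, add_comm s 1]
  have e2 : (1 + s) * X * (1 - s) * s = -((1 + s) * X * (1 - s)) := by
    have : (1 + s) * X * (1 - s) * s = (1 + s) * X * (s - s * s) := by noncomm_ring
    rw [this, hs2]; noncomm_ring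
  have e3 : s * ((1 - s) * X * (1 + s)) = -((1 - s) * X * (1 + s)) := by
    have : s * ((1 - s) * X * (1 + s)) = (s - s * s) * X * (1 + s) := by noncomm_ring
    rw [this, hs2]; noncomm_ring
  have e4 : (1 - s) * X * (1 + s) * s = (1 - s) * X * (1 + s) := by
    have : (1 - s) * X * (1 + s) * s = (1 - s) * X * (s + s * s) := by noncomm_ring
    rw [this, hs2, add_comm s 1]
  have ha : (1 / 4 : K) • ((1 + s) * X * (1 - s)) ∈ Lp L s :=
    (Lp L s).smul_mem _ ⟨hp, e1, e2⟩
  have hc : (1 / 4 : K) • ((1 - s) * X * (1 + s)) ∈ Lm L s :=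
    (Lm L s).smul_mem _ ⟨hm, e3, e4⟩
  refine ⟨_, ha, X - (1 / 4 : K) • ((1 + s) * X * (1 - s)) -
    (1 / 4 : K) • ((1 - s) * X * (1 + s)), ⟨L.sub_mem (L.sub_mem hX ha.1) hc.1, ?_⟩, _, hc, ?_⟩
  · have e5 : (1 + s) * X * (1 - s) = X - X * s + s * X - s * X * s := by noncomm_ring
    have e6 : (1 - s) * X * (1 + s) = X + X * s - s * X - s * X * s := by noncomm_ring
    generalize (1 + s) * X * (1 - s) = P at *
    generalize (1 - s) * X * (1 + s) = Q at *
    rw [mul_sub, mul_sub, sub_mul, sub_mul, mul_smul_comm, mul_smul_comm, smul_mul_assoc,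
      smul_mul_assoc, e1, e2, e3, e4, e5, e6]
    module
  · abel

/-- `X Y = X (s Y) = (X s) Y = - X Y`. -/
theorem A2_pp [CharZero K] {s X Y : Module.End K V} (hX : X ∈ Lp L s) (hY : Y ∈ Lp L s) :
    X * Y = 0 := by
  have h1 : X * (s * Y) = (X * s) * Y := by rw [mul_assoc]
  rw [hY.2.1, hX.2.2, neg_mul] at h1
  have h2 : (2 : K) • (X * Y) = 0 := by
    rw [two_smul]
    nth_rw 1 [h1]
    exact neg_add_cancel _
  exact (smul_eq_zero.1 h2).resolve_left (by norm_num)

theorem A2_mm [CharZero K] {s X Y : Module.End K V} (hX : X ∈ Lm L s) (hY : Y ∈ Lm L s) :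
    X * Y = 0 := by
  have h1 : X * (s * Y) = (X * s) * Y := by rw [mul_assoc]
  rw [hY.2.1, hX.2.2, mul_neg] at h1
  have h2 : (2 : K) • (X * Y) = 0 := by
    rw [two_smul]
    nth_rw 1 [← h1]
    exact neg_add_cancel _
  exact (smul_eq_zero.1 h2).resolve_left (by norm_num)

/-- The trace form pairs weight `1` with weight `-1`: if `X` has weight one and
`tr (X Y) = 0` for all `Y` of weight `-1`, then `X = 0`. Proof: for `Z = a + b + c ∈ L`
(`A2_decomp`), `X a = 0`, `tr (X b) = tr (s X b) = tr (X b s) = tr (X s b) = - tr (X b)`, so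
`tr (X Z) = tr (X c) = 0`; use `trace_nondeg` of H53Toric.Core1 (the traces vanish by
`(A1_setup ..).tr`). -/
theorem A2_nondeg [CharZero K] [IsAlgClosed K] [FiniteDimensional K V] [Nontrivial V]
    (h : CoreN L) {s : Module.End K V} (hs : InL L s) (hs2 : s * s = 1) {X : Module.End K V}
    (hX : X ∈ Lp L s) (h0 : ∀ Y ∈ Lm L s, LinearMap.trace K V (X * Y) = 0) : X = 0 := by
  apply trace_nondeg h.lie h.irr h.tr hX.1
  intro Z hZ
  obtain ⟨a, ha, b, hb, c, hc, rfl⟩ := A2_decomp h hs hs2 hZ
  rw [mul_add, mul_add, A2_pp hX ha, zero_add, map_add, h0 c hc, add_zero]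
  have h1 : LinearMap.trace K V (X * b) = -LinearMap.trace K V (X * b) := by
    calc LinearMap.trace K V (X * b) = LinearMap.trace K V (s * (X * b)) := by
          rw [← mul_assoc, hX.2.1]
      _ = LinearMap.trace K V ((X * b) * s) := LinearMap.trace_mul_comm K s (X * b)
      _ = LinearMap.trace K V ((X * s) * b) := by rw [mul_assoc, ← hb.2, ← mul_assoc]
      _ = _ := by rw [hX.2.2, neg_mul, map_neg]
  have h2 : (2 : K) * LinearMap.trace K V (X * b) = 0 := by linear_combination h1
  exact (mul_eq_zero.1 h2).resolve_left (by norm_num)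

theorem A2_nondeg' [CharZero K] [IsAlgClosed K] [FiniteDimensional K V] [Nontrivial V]
    (h : CoreN L) {s : Module.End K V} (hs : InL L s) (hs2 : s * s = 1) {Y : Module.End K V}
    (hY : Y ∈ Lm L s) (h0 : ∀ X ∈ Lp L s, LinearMap.trace K V (X * Y) = 0) : Y = 0 := by
  apply trace_nondeg h.lie h.irr h.tr hY.1
  intro Z hZ
  obtain ⟨a, ha, b, hb, c, hc, rfl⟩ := A2_decomp h hs hs2 hZ
  have h3 : LinearMap.trace K V (Y * a) = 0 := by
    rw [LinearMap.trace_mul_comm]; exact h0 a ha
  rw [mul_add, mul_add, A2_mm hY hc, add_zero, map_add, h3, zero_add]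
  have h1 : LinearMap.trace K V (Y * b) = -LinearMap.trace K V (Y * b) := by
    calc LinearMap.trace K V (Y * b) = LinearMap.trace K V ((Y * s) * b) := by
          rw [hY.2.2]
      _ = LinearMap.trace K V ((Y * b) * s) := by rw [mul_assoc, hb.2, ← mul_assoc]
      _ = LinearMap.trace K V (s * (Y * b)) := LinearMap.trace_mul_comm K (Y * b) s
      _ = _ := by rw [← mul_assoc, hY.2.1, neg_mul, map_neg]
  have h2 : (2 : K) * LinearMap.trace K V (Y * b) = 0 := by linear_combination h1
  exact (mul_eq_zero.1 h2).resolve_left (by norm_num)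

/-- If `Lp L s = 0`, then `Lm L s = 0` by `A2_nondeg'`, hence `L = L0 L s` by `A2_decomp`, so
the range of `1 + s` is stable under `L` and `s = 1` or `s = -1` by irreducibility; but
`tr s = 0` (`(A1_setup ..).tr`) and `V ≠ 0`, characteristic zero. -/
theorem A2_ne [CharZero K] [IsAlgClosed K] [FiniteDimensional K V] [Nontrivial V]
    (h : CoreN L) {s : Module.End K V} (hs : InL L s) (hs2 : s * s = 1) : Lp L s ≠ ⊥ := by
  intro hp
  have hm : ∀ Y ∈ Lm L s, Y = 0 := by
    intro Y hY
    apply A2_nondeg' h hs hs2 hY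
    intro X hX
    rw [hp, Submodule.mem_bot] at hX
    rw [hX, zero_mul, map_zero]
  have hcomm : ∀ Z ∈ L, s * Z = Z * s := by
    intro Z hZ
    obtain ⟨a, ha, b, hb, c, hc, rfl⟩ := A2_decomp h hs hs2 hZ
    rw [hp, Submodule.mem_bot] at ha
    rw [ha, hm c hc, zero_add, add_zero]
    exact hb.2
  have hst := h.irr (LinearMap.range (1 + s)) (by
    rintro X hX _ ⟨v, rfl⟩
    refine ⟨X v, ?_⟩
    have h1 : (1 + s) * X = X * (1 + s) := by rw [add_mul, mul_add, hcomm X hX, one_mul, mul_one]
    exact LinearMap.congr_fun h1 v)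
  rcases hst with h1 | h1
  · apply hs.ne2
    rw [LinearMap.range_eq_bot] at h1
    exact eq_neg_of_add_eq_zero_right h1
  · apply hs.ne1
    ext v
    obtain ⟨w, rfl⟩ := LinearMap.range_eq_top.1 h1 v
    have h3 : s * (1 + s) = 1 * (1 + s) := by rw [mul_add, hs2, one_mul, mul_one, add_comm]
    exact LinearMap.congr_fun h3 w

end Pool.Agent.H25U
end

-- from Lib.H25U.K0
section

/-!
# K0: elementary facts on frames
-/

set_option autoImplicit false
set_option linter.unusedSectionVars false
namespace Pool.Agent.H25U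
open Module Pool.Agent.H53Toric Pool.Agent.H49M
open Pool.Agent.H86N (CoreN)

variable {K : Type*} [Field K] {V : Type*} [AddCommGroup V] [Module K V]

variable {L : Submodule K (Module.End K V)}

theorem K0_ee [CharZero K] {s e f : Module.End K V} (F : Frame L s e f) : e * e = 0 :=
  A2_pp F.e_mem F.e_mem

theorem K0_ff [CharZero K] {s e f : Module.End K V} (F : Frame L s e f) : f * f = 0 :=
  A2_mm F.f_mem F.f_mem

/-- Chunk K0. `X (s X') ` computations: `e e = 0`, `f f = 0` by `A2_pp`, `A2_mm`. The extremality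
of `f`: `f X f = f e f X f e f = f (e (f X f) e) f = c f e f = c f` with `f X f ∈ L`
(`IsLie.sandwich`). -/
theorem K0_swap [CharZero K] {s e f : Module.End K V} (hl : IsLie L) (F : Frame L s e f) :
    Frame L (-s) f e := by
  have hLp : Lp L (-s) = Lm L s := by
    ext X
    rw [mem_Lp, mem_Lm, neg_mul, mul_neg, neg_eq_iff_eq_neg, neg_inj]
  have hLm : Lm L (-s) = Lp L s := by
    ext X
    rw [mem_Lp, mem_Lm, neg_mul, mul_neg, neg_inj, neg_eq_iff_eq_neg]
  refine ⟨InL.neg F.s_mem, by rw [neg_mul_neg, F.s_sq], by rw [hLp]; exact F.f_mem,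
    by rw [hLm]; exact F.e_mem, ?_, F.fef, F.efe, ?_⟩
  · intro h0
    have := F.efe
    rw [h0, mul_zero, zero_mul] at this
    exact F.e_ne this.symm
  · intro X hX
    obtain ⟨c, hc⟩ := F.ext _ (hl.sandwich F.f_mem.1 (K0_ff F) hX)
    refine ⟨c, ?_⟩
    have e1 : f * X * f = f * (e * (f * X * f) * e) * f := by
      calc f * X * f = (f * e * f) * X * (f * e * f) := by rw [F.fef]
        _ = _ := by noncomm_ring
    rw [e1, hc, mul_smul_comm, smul_mul_assoc, F.fef]

theorem K0_Lp (s : Module.End K V) : Lp L (-s) = Lm L s := by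
  ext X
  rw [mem_Lp, mem_Lm, neg_mul, mul_neg, neg_eq_iff_eq_neg, neg_inj]

theorem K0_Lm (s : Module.End K V) : Lm L (-s) = Lp L s := by
  ext X
  rw [mem_Lp, mem_Lm, neg_mul, mul_neg, neg_inj, neg_eq_iff_eq_neg]

theorem K0_L0 (s : Module.End K V) : L0 L (-s) = L0 L s := by
  ext X
  rw [mem_L0, mem_L0, neg_mul, mul_neg, neg_inj]

/-- `e f X f e = e (f X f) e` and `f X f ∈ L`. -/
theorem K0_ext [CharZero K] {s e f : Module.End K V} (hl : IsLie L) (F : Frame L s e f)
    {X : Module.End K V} (hX : X ∈ L) : ∃ c : K, e * f * X * (f * e) = c • e := by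
  obtain ⟨c, hc⟩ := F.ext _ (hl.sandwich F.f_mem.1 (K0_ff F) hX)
  refine ⟨c, ?_⟩
  rw [← hc]
  noncomm_ring

/-- The rank of `e` is the rank of the idempotent `e f`, its trace. -/
theorem K0_rank [CharZero K] [FiniteDimensional K V] {s e f : Module.End K V}
    (F : Frame L s e f) :
    finrank K (LinearMap.range (e * f)) = finrank K (LinearMap.range e) ∧
    finrank K (LinearMap.range f) = finrank K (LinearMap.range e) ∧
    LinearMap.trace K V (e * f) = (finrank K (LinearMap.range e) : K) := by
  have h1 : finrank K (LinearMap.range (e * f)) = finrank K (LinearMap.range e) :=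
    rank_eq_of_dvd (c := f) (d := e) rfl F.efe.symm
  have h2 : finrank K (LinearMap.range (f * e)) = finrank K (LinearMap.range f) :=
    rank_eq_of_dvd (c := e) (d := f) rfl F.fef.symm
  have i1 : (e * f) * (e * f) = e * f := by
    calc (e * f) * (e * f) = (e * f * e) * f := by noncomm_ring
      _ = e * f := by rw [F.efe]
  have i2 : (f * e) * (f * e) = f * e := by
    calc (f * e) * (f * e) = (f * e * f) * e := by noncomm_ring
      _ = f * e := by rw [F.fef]
  have t1 := trace_idem i1
  have t2 := trace_idem i2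
  rw [LinearMap.trace_mul_comm] at t2
  refine ⟨h1, ?_, by rw [t1, h1]⟩
  rw [t1, h1, h2] at t2
  exact_mod_cast t2.symm

/-- An element `H = e f - f e` of `L` and the elements `[H, e] = 2 e`, `[H, f] = -2 f`. -/
theorem K0_H [CharZero K] {s e f : Module.End K V} (hl : IsLie L) (F : Frame L s e f) :
    e * f - f * e ∈ L := by
  exact hl e F.e_mem.1 f F.f_mem.1

end Pool.Agent.H25U
end

-- from Lib.H86N.K1
section

/-!
# K1: rank one Jordan pairs, first step
-/

set_option autoImplicit false
set_option linter.unusedSectionVars false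
namespace Pool.Agent.H86N
open Module Pool.Agent.H53Toric Pool.Agent.H49M

variable {K : Type*} [Field K] {V : Type*} [AddCommGroup V] [Module K V]

variable {L : Submodule K (Module.End K V)}

/-- The Peirce one component. -/
theorem K1_comp [CharZero K] (hl : IsLie L) {s e f : Module.End K V} (F : Frame L s e f)
    {W : Module.End K V} (hW : W ∈ Lp L s) :
    e * f * W + W * (f * e) - (2 : K) • (e * f * W * (f * e)) ∈ J1 L s e f := by
  have eW : e * W = 0 := A2_pp F.e_mem hW
  have We : W * e = 0 := A2_pp hW F.e_mem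
  obtain ⟨c, hc⟩ := K0_ext hl F hW.1
  have h1 : e * f * W + W * (f * e) ∈ L := by
    have h2 := hl _ (K0_H hl F) W hW.1
    have e1 : (e * f - f * e) * W - W * (e * f - f * e) =
        e * f * W - f * (e * W) - (W * e) * f + W * (f * e) := by noncomm_ring
    rw [e1, eW, We, mul_zero, zero_mul, sub_zero, sub_zero] at h2
    exact h2
  have hL : e * f * W + W * (f * e) - (2 : K) • (e * f * W * (f * e)) ∈ L := by
    refine L.sub_mem h1 (L.smul_mem _ ?_)
    rw [hc]
    exact L.smul_mem _ F.e_mem.1
  have s1 : s * (e * f * W) = e * f * W := by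
    rw [← mul_assoc, ← mul_assoc, F.e_mem.2.1]
  have s2 : s * (W * (f * e)) = W * (f * e) := by
    rw [← mul_assoc, hW.2.1]
  have s3 : s * (e * f * W * (f * e)) = e * f * W * (f * e) := by
    rw [← mul_assoc, s1]
  have r1 : e * f * W * s = -(e * f * W) := by
    rw [mul_assoc, hW.2.2, mul_neg]
  have r2 : W * (f * e) * s = -(W * (f * e)) := by
    rw [mul_assoc, mul_assoc, F.e_mem.2.2, mul_neg, mul_neg]
  have r3 : e * f * W * (f * e) * s = -(e * f * W * (f * e)) := by
    calc e * f * W * (f * e) * s = e * f * W * (f * (e * s)) := by noncomm_ring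
      _ = _ := by rw [F.e_mem.2.2]; noncomm_ring
  refine ⟨⟨hL, ?_, ?_⟩, ?_⟩
  · rw [mul_sub, mul_add, mul_smul_comm, s1, s2, s3]
  · rw [sub_mul, add_mul, smul_mul_assoc, r1, r2, r3]
    module
  · have pp : (e * f) * (e * f * W) = e * f * W := by
      calc (e * f) * (e * f * W) = (e * f * e) * (f * W) := by noncomm_ring
        _ = e * f * W := by rw [F.efe, mul_assoc]
    have qq : (W * (f * e)) * (f * e) = W * (f * e) := by
      calc (W * (f * e)) * (f * e) = W * (f * (e * f * e)) := by noncomm_ring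
        _ = W * (f * e) := by rw [F.efe]
    have p3 : (e * f) * (e * f * W * (f * e)) = e * f * W * (f * e) := by
      rw [← mul_assoc, pp]
    have q3 : (e * f * W * (f * e)) * (f * e) = e * f * W * (f * e) := by
      calc (e * f * W * (f * e)) * (f * e) = e * f * ((W * (f * e)) * (f * e)) := by noncomm_ring
        _ = _ := by rw [qq]; noncomm_ring
    have q1 : (e * f * W) * (f * e) = e * f * W * (f * e) := rfl
    have p2 : (e * f) * (W * (f * e)) = e * f * W * (f * e) := by rw [← mul_assoc]
    rw [mul_sub, mul_add, sub_mul, add_mul, mul_smul_comm, smul_mul_assoc, pp, p2, p3, qq, q3]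
    module

/-- Chunk K1. Notation: `p = e f`, `q = f e` (idempotents: `e f e = e`, `f e f = f`),
`P = (1 + s)/2`, `Q = (1 - s)/2`, `p' = P - p`, `q' = Q - q`, `[X, Y] = X Y - Y X`,
`H = p - q = [e, f] ∈ L`. Facts: `e = p e = e q`, `f = q f = f p`, `p' e = 0`, `e q' = 0`,
`f p' = 0`, `q' f = 0`, `e p = 0`, `q e = 0`...; elements of `Lp` are `X = P X Q`, of `L0` are
`P Z P + Q Z Q`; `Lp Lp = 0` (`A2_pp`); `u ∈ J1` means `u = p u q' + p' u q`.
(1) For `Z ∈ L0` put `Z₁ = (1/2)([H,[H,Z]] + [H,Z]) = p Z p' + q' Z q`,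
`Z₂ = (1/2)([H,[H,Z]] - [H,Z]) = p' Z p + q Z q'` and `Z₀ = Z - [H,[H,Z]]` (block diagonal); all
are in `L`, and `Z = Z₀ + Z₁ + Z₂`.
(2) The space `X₀ = K e + J1` is stable under `L0`: by extremality `p X q ∈ K e` for `X ∈ L`
(`K0_ext`). `[Z₁, e] = 0`; `[Z₀, e] = p [Z₀, e] q ∈ K e`; `u' := [Z₂, e] = p' Z p e - e q Z q' ∈ J1`.
For `A ∈ J1`: `[Z₀, A] ∈ J1`, `[Z₁, A] = p [Z₁, A] q ∈ K e`, and `[Z₂, A] = 0`: indeed
`Z₂ = u' f - f u' ` (as `u' f = p' Z p`, `f u' = - q Z q'`), so
`[Z₂, A] = u' f A - f u' A - A u' f + A f u' = u' f A + A f u' = 0` by polarising the hypothesis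
(`u' + A, u', A ∈ J1`; `u' A = A u' = 0` by `A2_pp`).
(3) `X₀ ≠ 0` contains `e`, so `X₀ = Lp L s` by `A3_irr`.
(4) For `x = t e + u`, `u ∈ J1`: `p x q = t e` and
`x f x = t² e + t (e f u + u f e) + u f u = t² e + t u = t x`; and `t = c`. -/
theorem K1_quad [CharZero K] [IsAlgClosed K] [FiniteDimensional K V] [Nontrivial V]
    (h : CoreN L) {s e f : Module.End K V} (F : Frame L s e f)
    (ha : ∀ u ∈ J1 L s e f, u * f * u = 0) {x : Module.End K V} (hx : x ∈ Lp L s) {c : K}
    (hc : e * f * x * (f * e) = c • e) : x * f * x = c • x := by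
  have eK : ∀ W ∈ Lp L s, e * W = 0 := fun W hW => A2_pp F.e_mem hW
  have Ke : ∀ W ∈ Lp L s, W * e = 0 := fun W hW => A2_pp hW F.e_mem
  have hpol : ∀ u ∈ J1 L s e f, ∀ u' ∈ J1 L s e f, u' * f * u + u * f * u' = 0 := by
    intro u hu u' hu'
    have h1 := ha _ ((J1 L s e f).add_mem hu hu')
    have e1 : (u + u') * f * (u + u') = u * f * u + u' * f * u' + (u' * f * u + u * f * u') := by
      noncomm_ring
    rwa [e1, ha u hu, ha u' hu', zero_add, zero_add] at h1
  have pe : (1 - e * f) * e = 0 := by rw [sub_mul, one_mul, F.efe, sub_self]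
  have eq : e * (1 - f * e) = 0 := by rw [mul_sub, mul_one, ← mul_assoc, F.efe, sub_self]
  let X₀ : Submodule K (Module.End K V) :=
    { carrier := {x | x ∈ Lp L s ∧ (1 - e * f) * x * (1 - f * e) = 0}
      add_mem' := by
        rintro a b ⟨h1, h2⟩ ⟨h3, h4⟩
        refine ⟨(Lp L s).add_mem h1 h3, ?_⟩
        rw [mul_add, add_mul, h2, h4, add_zero]
      zero_mem' := ⟨(Lp L s).zero_mem, by simp⟩
      smul_mem' := by
        rintro c a ⟨h1, h2⟩
        refine ⟨(Lp L s).smul_mem c h1, ?_⟩
        rw [mul_smul_comm, smul_mul_assoc, h2, smul_zero] }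
  have hsplit : ∀ x ∈ X₀, ∀ c : K, e * f * x * (f * e) = c • e → x - c • e ∈ J1 L s e f := by
    intro x hx c hc
    have h1 := K1_comp h.lie F hx.1
    have h2 := hx.2
    have e1 : (1 - e * f) * x * (1 - f * e) =
        x - (e * f * x + x * (f * e) - e * f * x * (f * e)) := by noncomm_ring
    rw [e1, hc, sub_eq_zero] at h2
    rw [hc] at h1
    have e2 : x - c • e = e * f * x + x * (f * e) - (2 : K) • c • e := by
      nth_rw 1 [h2]
      module
    rw [e2]
    exact h1
  have hst : ∀ Z ∈ L0 L s, ∀ X ∈ X₀, Z * X - X * Z ∈ X₀ := by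
    intro Z hZ x hx
    refine ⟨A3_0p h hZ hx.1, ?_⟩
    obtain ⟨c, hc⟩ := K0_ext h.lie F hx.1.1
    have hu := hsplit x hx c hc
    set u := x - c • e with hud
    have hW := A3_0p h hZ F.e_mem
    obtain ⟨W, hWd⟩ : ∃ W, W = Z * e - e * Z := ⟨_, rfl⟩
    rw [← hWd] at hW
    have hu' := K1_comp h.lie F hW
    obtain ⟨u', hu'd⟩ : ∃ u', u' = e * f * W + W * (f * e) - (2 : K) • (e * f * W * (f * e)) :=
      ⟨_, rfl⟩
    rw [← hu'd] at hu'
    have k1 : u' * f = (1 - e * f) * Z * (e * f) := by
      have e1 : e * f * W * (f * e) * f = e * f * W * f := by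
        calc e * f * W * (f * e) * f = e * f * W * (f * e * f) := by noncomm_ring
          _ = _ := by rw [F.fef]
      have e2 : W * (f * e) * f = W * f := by
        calc W * (f * e) * f = W * (f * e * f) := by noncomm_ring
          _ = _ := by rw [F.fef]
      have e3 : u' * f = (1 - e * f) * W * f := by
        have e4 : (1 - e * f) * W * f = W * f - e * f * W * f := by noncomm_ring
        rw [hu'd, sub_mul, add_mul, smul_mul_assoc, e1, e2, e4]
        module
      rw [e3, hWd]
      calc (1 - e * f) * (Z * e - e * Z) * f =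
          (1 - e * f) * Z * (e * f) - ((1 - e * f) * e) * Z * f := by noncomm_ring
        _ = _ := by rw [pe, zero_mul, zero_mul, sub_zero]
    have k2 : f * u' = -((f * e) * Z * (1 - f * e)) := by
      have e1 : f * (e * f * W * (f * e)) = f * W * (f * e) := by
        calc f * (e * f * W * (f * e)) = (f * e * f) * W * (f * e) := by noncomm_ring
          _ = _ := by rw [F.fef]
      have e2 : f * (e * f * W) = f * W := by
        calc f * (e * f * W) = (f * e * f) * W := by noncomm_ring
          _ = _ := by rw [F.fef]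
      have e3 : f * u' = f * W * (1 - f * e) := by
        have e4 : f * W * (1 - f * e) = f * W - f * W * (f * e) := by noncomm_ring
        rw [hu'd, mul_sub, mul_add, mul_smul_comm, e1, e2, e4, ← mul_assoc]
        module
      rw [e3, hWd]
      calc f * (Z * e - e * Z) * (1 - f * e) =
          f * Z * (e * (1 - f * e)) - (f * e) * Z * (1 - f * e) := by noncomm_ring
        _ = _ := by rw [eq, mul_zero, zero_sub]
    have k3 : (1 - e * f) * u = u * (f * e) := by
      rw [sub_mul, one_mul]
      nth_rw 1 [← hu.2]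
      abel
    have k4 : u * (1 - f * e) = e * f * u := by
      rw [mul_sub, mul_one]
      nth_rw 1 [← hu.2]
      abel
    have hx' : x = c • e + u := by rw [hud]; abel
    have e5 : (1 - e * f) * (Z * x - x * Z) * (1 - f * e) =
        (1 - e * f) * Z * (x * (1 - f * e)) - ((1 - e * f) * x) * Z * (1 - f * e) := by
      noncomm_ring
    have e6 : x * (1 - f * e) = e * f * u := by
      rw [hx', add_mul, smul_mul_assoc, eq, smul_zero, zero_add, k4]
    have e7 : (1 - e * f) * x = u * (f * e) := by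
      rw [hx', mul_add, mul_smul_comm, pe, smul_zero, zero_add, k3]
    rw [e5, e6, e7]
    have h1 := hpol u hu u' hu'
    calc (1 - e * f) * Z * (e * f * u) - u * (f * e) * Z * (1 - f * e) =
        ((1 - e * f) * Z * (e * f)) * u + u * -((f * e) * Z * (1 - f * e)) := by noncomm_ring
      _ = u' * f * u + u * f * u' := by rw [← k1, ← k2]; noncomm_ring
      _ = 0 := h1
  have heX : e ∈ X₀ := ⟨F.e_mem, by rw [pe, zero_mul]⟩
  have hX : X₀ = Lp L s := by
    refine A3_irr h F.s_mem F.s_sq (fun x hx => hx.1) ?_ hst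
    intro h0
    rw [h0, Submodule.mem_bot] at heX
    exact F.e_ne heX
  have hxX : x ∈ X₀ := by rw [hX]; exact hx
  have hu := hsplit x hxX c hc
  set u := x - c • e with hud
  have hx' : x = c • e + u := by rw [hud]; abel
  have e1 : x * f * x = (c * c) • (e * f * e) + c • (e * f * u + u * (f * e)) + u * f * u := by
    rw [hx']
    simp only [add_mul, mul_add, smul_mul_assoc, mul_smul_comm, smul_smul, mul_assoc, smul_add]
    abel
  rw [e1, F.efe, hu.2, ha u hu, hx']
  module

end Pool.Agent.H86N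
end

-- from Lib.H86N.K2
section

/-!
# K2: rank one Jordan pairs, all products
-/

set_option autoImplicit false
set_option linter.unusedSectionVars false
namespace Pool.Agent.H86N
open Module Pool.Agent.H53Toric Pool.Agent.H49M

variable {K : Type*} [Field K] {V : Type*} [AddCommGroup V] [Module K V]

variable {L : Submodule K (Module.End K V)}

/-- Chunk K2a. Let `S` be the set of `y ∈ Lm` for which there is a linear form
`λ : End V → K` with `x y x = λ(x) x` for all `x ∈ Lp`. It is a subspace. `f ∈ S`: choose a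
linear form `φ` on `End V` with `φ e = 1` and put `λ X = φ (e f X f e)`; by `K0_ext`,
`e f x f e = c e`, `c = λ x`, and the hypothesis gives `x f x = λ(x) x`. `S` is stable under
`L0`: for `Z ∈ L0`, `y ∈ S`, put `x' = Z x - x Z ∈ Lp`; polarising,
`x y x' + x' y x = λ(x) x' + λ(x') x`, and the left side is `- x (Z y - y Z) x + Z (x y x) -
(x y x) Z = - x (Z y - y Z) x + λ(x) x'`, so `x (Z y - y Z) x = - λ(Z x - x Z) x`. By `A3_irr'`
(`f ≠ 0`) `S = Lm`. -/
theorem K2_form [CharZero K] [IsAlgClosed K] [FiniteDimensional K V] [Nontrivial V]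
    (h : CoreN L) {s e f : Module.End K V} (F : Frame L s e f)
    (hq : ∀ x ∈ Lp L s, ∀ c : K, e * f * x * (f * e) = c • e → x * f * x = c • x)
    {y : Module.End K V} (hy : y ∈ Lm L s) :
    ∃ l : Module.End K V →ₗ[K] K, ∀ x ∈ Lp L s, x * y * x = l x • x := by
  let S : Submodule K (Module.End K V) :=
    { carrier := {y | y ∈ Lm L s ∧ ∃ l : Module.End K V →ₗ[K] K, ∀ x ∈ Lp L s,
        x * y * x = l x • x}
      add_mem' := by
        rintro a b ⟨h1, l, h2⟩ ⟨h3, m, h4⟩
        refine ⟨(Lm L s).add_mem h1 h3, l + m, fun x hx => ?_⟩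
        rw [mul_add, add_mul, h2 x hx, h4 x hx, LinearMap.add_apply, add_smul]
      zero_mem' := ⟨(Lm L s).zero_mem, 0, fun x hx => by simp⟩
      smul_mem' := by
        rintro c a ⟨h1, l, h2⟩
        refine ⟨(Lm L s).smul_mem c h1, c • l, fun x hx => ?_⟩
        rw [mul_smul_comm, smul_mul_assoc, h2 x hx, LinearMap.smul_apply, smul_smul, smul_eq_mul] }
  have hfS : f ∈ S := by
    refine ⟨F.f_mem, ?_⟩
    have h1 : ∃ φ : Module.Dual K (Module.End K V), φ e ≠ 0 := by
      by_contra hcon
      push Not at hcon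
      exact F.e_ne ((Module.forall_dual_apply_eq_zero_iff K e).1 hcon)
    obtain ⟨φ, hφ⟩ := h1
    refine ⟨((φ e)⁻¹ • φ) ∘ₗ (LinearMap.mulRight K (f * e)) ∘ₗ (LinearMap.mulLeft K (e * f)),
      fun x hx => ?_⟩
    obtain ⟨c, hc⟩ := K0_ext h.lie F hx.1
    have h2 := hq x hx c hc
    rw [h2]
    congr 1
    change c = (φ e)⁻¹ * φ (e * f * x * (f * e))
    rw [hc, map_smul, smul_eq_mul, mul_comm c, ← mul_assoc, inv_mul_cancel₀ hφ, one_mul]
  have hst : ∀ Z ∈ L0 L s, ∀ Y ∈ S, Z * Y - Y * Z ∈ S := by
    rintro Z hZ y ⟨hy, l, hl⟩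
    refine ⟨A3_0m h hZ hy, -(l ∘ₗ (LinearMap.mulLeft K Z - LinearMap.mulRight K Z)),
      fun x hx => ?_⟩
    have hx' := A3_0p h hZ hx
    have h1 : x * y * (Z * x - x * Z) + (Z * x - x * Z) * y * x =
        l x • (Z * x - x * Z) + l (Z * x - x * Z) • x := by
      have h2 := hl _ ((Lp L s).add_mem hx hx')
      generalize Z * x - x * Z = x' at hx' h2
      have e1 : (x + x') * y * (x + x') = x * y * x + x' * y * x' + (x * y * x' + x' * y * x) := by
        noncomm_ring
      rw [e1, hl x hx, hl x' hx', map_add] at h2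
      have e2 : x * y * x' + x' * y * x = (l x • x + l x' • x' + (x * y * x' + x' * y * x)) -
          (l x • x + l x' • x') := by abel
      rw [e2, h2]
      module
    have h3 : x * (Z * y - y * Z) * x = Z * (x * y * x) - (x * y * x) * Z -
        (x * y * (Z * x - x * Z) + (Z * x - x * Z) * y * x) := by noncomm_ring
    rw [h3, h1, hl x hx, mul_smul_comm, smul_mul_assoc]
    change _ = (-(l (Z * x - x * Z))) • x
    module
  have hS : S = Lm L s := by
    refine A3_irr' h F.s_mem F.s_sq (fun x hx => hx.1) ?_ hst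
    intro h0
    rw [h0, Submodule.mem_bot] at hfS
    have := F.efe
    rw [hfS, mul_zero, zero_mul] at this
    exact F.e_ne this.symm
  have hyS : y ∈ S := by rw [hS]; exact hy
  exact hyS.2

/-- Chunk K2. By `K1_quad` and `K2_form`, `x y x = λ_y(x) x` for all `x ∈ Lp`, `y ∈ Lm`, hence
(polarise) (*) `x y x' + x' y x = λ_y(x) x' + λ_y(x') x`.
Claim: `b e b = 0` for `b ∈ J1 L (-s) f e` (i.e. `b ∈ Lm`, `f e b + b (e f) = b`). Multiply by
`f e` on the left and `e f` on the right: `f e b e f = 0`, so `e b e = e (f e b e f) e = 0` and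
`λ_b(e) = 0` (`e ≠ 0`). By (*) with `x' = e`: `x b e + e b x = λ_b(x) e`. Multiply on the right by
`b` and take traces: `tr (x b e b) + tr (e b x b) = 2 tr (x (b e b)) = λ_b(x) tr (e b)` and
`tr (e b) = tr (e f e b) = tr (f e b e) = 0`. So `tr (x (b e b)) = 0` for all `x ∈ Lp` and
`b e b = 0` by `A2_nondeg'` (`b e b ∈ Lm`, `IsLie.sandwich`).
Hence `K1_quad` and `K2_form` apply to the frame `(-s, f, e)` (`K0_swap`, `K0_Lp`, `K0_Lm`):
`y x y = μ_x(y) y`. Finally `λ_y(x) = μ_x(y)` if `x, y ≠ 0`:
`(y x)(y x) = y (x y x) = λ_y(x) y x = (y x y) x = μ_x(y) y x`, so they are equal if `y x ≠ 0`; if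
`y x = 0`, then `λ_y(x) x = x y x = 0` and `μ_x(y) y = 0`, both scalars vanish. If `x = 0` or
`y = 0` choose the other scalar. -/
theorem K2_all [CharZero K] [IsAlgClosed K] [FiniteDimensional K V] [Nontrivial V]
    (h : CoreN L) {s e f : Module.End K V} (F : Frame L s e f)
    (ha : ∀ u ∈ J1 L s e f, u * f * u = 0) {x y : Module.End K V} (hx : x ∈ Lp L s)
    (hy : y ∈ Lm L s) : ∃ c : K, x * y * x = c • x ∧ y * x * y = c • y := by
  have hq := fun (x : Module.End K V) (hx : x ∈ Lp L s) (c : K)
    (hc : e * f * x * (f * e) = c • e) => K1_quad h F ha hx hc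
  have hb : ∀ b ∈ J1 L (-s) f e, b * e * b = 0 := by
    rintro b ⟨hb, hbe⟩
    rw [K0_Lp] at hb
    obtain ⟨l, hl⟩ := K2_form h F hq hb
    have h1 : f * e * b * (e * f) = 0 := by
      have i1 : (f * e) * (f * e) = f * e := by
        calc (f * e) * (f * e) = (f * e * f) * e := by noncomm_ring
          _ = f * e := by rw [F.fef]
      have i2 : (e * f) * (e * f) = e * f := by
        calc (e * f) * (e * f) = (e * f * e) * f := by noncomm_ring
          _ = e * f := by rw [F.efe]
      have h2 : f * e * b * (e * f) = f * e * b * (e * f) + f * e * b * (e * f) := by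
        nth_rw 1 [← hbe]
        calc f * e * (f * e * b + b * (e * f)) * (e * f) =
            ((f * e) * (f * e)) * b * (e * f) + f * e * b * ((e * f) * (e * f)) := by noncomm_ring
          _ = _ := by rw [i1, i2]
      exact left_eq_add.1 h2
    have h2 : e * b * e = 0 := by
      calc e * b * e = (e * f * e) * b * (e * f * e) := by rw [F.efe]
        _ = e * (f * e * b * (e * f)) * e := by noncomm_ring
        _ = 0 := by rw [h1, mul_zero, zero_mul]
    have h3 : l e = 0 := by
      have h4 := hl e F.e_mem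
      rw [h2] at h4
      exact (smul_eq_zero.1 h4.symm).resolve_right F.e_ne
    have htr : LinearMap.trace K V (e * b) = 0 := by
      calc LinearMap.trace K V (e * b) = LinearMap.trace K V (e * (f * e * b)) := by
            congr 1
            calc e * b = (e * f * e) * b := by rw [F.efe]
              _ = _ := by noncomm_ring
        _ = LinearMap.trace K V ((f * e * b) * e) := LinearMap.trace_mul_comm K _ _
        _ = LinearMap.trace K V (f * (e * b * e)) := by congr 1
        _ = 0 := by rw [h2, mul_zero, map_zero]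
    apply A2_nondeg' h F.s_mem F.s_sq
    · refine ⟨h.lie.sandwich hb.1 (A2_mm hb hb) F.e_mem.1, ?_, ?_⟩
      · rw [← mul_assoc, ← mul_assoc, hb.2.1, neg_mul, neg_mul]
      · rw [mul_assoc, hb.2.2]
    · intro x hx
      have h4 : x * b * e + e * b * x = l x • e := by
        have h5 := hl _ ((Lp L s).add_mem hx F.e_mem)
        have e1 : (x + e) * b * (x + e) = x * b * x + e * b * e + (x * b * e + e * b * x) := by
          noncomm_ring
        rw [e1, hl x hx, h2, map_add, h3, add_zero, add_zero, smul_add] at h5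
        exact add_left_cancel h5
      have h5 : LinearMap.trace K V (x * b * e * b + e * b * x * b) = 0 := by
        have e1 : x * b * e * b + e * b * x * b = (x * b * e + e * b * x) * b := by noncomm_ring
        rw [e1, h4, smul_mul_assoc, map_smul, htr, smul_zero]
      have h6 : LinearMap.trace K V (e * b * x * b) = LinearMap.trace K V (x * (b * e * b)) := by
        calc LinearMap.trace K V (e * b * x * b) = LinearMap.trace K V ((e * b) * (x * b)) := by
              congr 1
          _ = LinearMap.trace K V ((x * b) * (e * b)) := LinearMap.trace_mul_comm K _ _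
          _ = _ := by congr 1
      have h7 : LinearMap.trace K V (x * b * e * b) = LinearMap.trace K V (x * (b * e * b)) := by
        congr 1
      rw [map_add, h6, h7] at h5
      have h8 : (2 : K) * LinearMap.trace K V (x * (b * e * b)) = 0 := by rw [two_mul]; exact h5
      exact (mul_eq_zero.1 h8).resolve_left (by norm_num)
  have F' := K0_swap h.lie F
  have hq' := fun (x : Module.End K V) (hx : x ∈ Lp L (-s)) (c : K)
    (hc : f * e * x * (e * f) = c • f) => K1_quad h F' hb hx hc
  obtain ⟨l, hl⟩ := K2_form h F hq hy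
  obtain ⟨m, hm⟩ := K2_form h F' hq' (y := x) (by rw [K0_Lm]; exact hx)
  have h1 := hl x hx
  have h2 := hm y (by rw [K0_Lp]; exact hy)
  by_cases hx0 : x = 0
  · exact ⟨m y, by rw [hx0]; simp, h2⟩
  by_cases hy0 : y = 0
  · exact ⟨l x, h1, by rw [hy0]; simp⟩
  refine ⟨l x, h1, ?_⟩
  by_cases hyx : y * x = 0
  · have h3 : l x = 0 := by
      rw [mul_assoc, hyx, mul_zero] at h1
      exact (smul_eq_zero.1 h1.symm).resolve_right hx0
    rw [h3, hyx]
    simp
  · have h3 : (l x - m y) • (y * x) = 0 := by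
      have h4 : y * (x * y * x) = (y * x * y) * x := by noncomm_ring
      rw [h1, h2, mul_smul_comm, smul_mul_assoc] at h4
      rw [sub_smul, h4, sub_self]
    have h4 := (smul_eq_zero.1 h3).resolve_right hyx
    rw [h2, sub_eq_zero.1 h4]

end Pool.Agent.H86N
end

-- from Lib.H86N.K5
section

/-!
# K5: conclusion in the case of a rank one Jordan pair
-/

set_option autoImplicit false
set_option linter.unusedSectionVars false
namespace Pool.Agent.H86N
open Module Pool.Agent.H53Toric Pool.Agent.H49M

variable {K : Type*} [Field K] {V : Type*} [AddCommGroup V] [Module K V]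

variable {L : Submodule K (Module.End K V)}

theorem K5_range [CharZero K] {s : Module.End K V} (hs2 : s * s = 1) {c : K} (hc : c * c = 1) :
    LinearMap.range ((1 / 2 : K) • (1 + c • s)) = eig s c := by
  ext v
  rw [eig, LinearMap.mem_ker, LinearMap.sub_apply, LinearMap.smul_apply, Module.End.one_apply,
    sub_eq_zero]
  constructor
  · rintro ⟨w, rfl⟩
    have h1 : s * ((1 / 2 : K) • (1 + c • s)) = c • ((1 / 2 : K) • (1 + c • s)) := by
      have h2 : c • (1 + c • s) = s + c • (1 : Module.End K V) := by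
        rw [smul_add, smul_smul, hc, one_smul, add_comm]
      rw [mul_smul_comm, mul_add, mul_smul_comm, hs2, mul_one, smul_comm c, h2]
    exact LinearMap.congr_fun h1 w
  · intro h1
    refine ⟨v, ?_⟩
    rw [LinearMap.smul_apply, LinearMap.add_apply, LinearMap.smul_apply, h1, smul_smul, hc,
      Module.End.one_apply]
    module

/-- Chunk K5. The two eigenspaces of `s` have the same dimension: `(1 + s)/2` and `(1 - s)/2` are
idempotents with these ranges, exchanged by `adj` (`adj s = - s`, `A0_rank`). -/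
theorem K5_eig [CharZero K] [FiniteDimensional K V] [Nontrivial V] (h : CoreN L)
    {s : Module.End K V} (hs : s ∈ L) (hs2 : s * s = 1) :
    finrank K (eig s 1) = finrank K (eig s (-1)) ∧
    finrank K V = 2 * finrank K (eig s 1) := by
  have hi : ∀ c : K, c * c = 1 → (finrank K (eig s c) : K) = (finrank K V : K) / 2 := by
    intro c hc
    have h1 : ((1 / 2 : K) • (1 + c • s)) * ((1 / 2 : K) • (1 + c • s)) = (1 / 2 : K) • (1 + c • s) := by
      have h2 : (1 + c • s) * (1 + c • s) = (2 : K) • (1 + c • s) := by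
        have h3 : (c • s) * (c • s) = 1 := by rw [smul_mul_smul_comm, hc, hs2, one_smul]
        generalize c • s = t at h3 ⊢
        have h4 : (1 + t) * (1 + t) = 1 + t + t + t * t := by noncomm_ring
        rw [h4, h3, two_smul]
        abel
      rw [smul_mul_smul_comm, h2, smul_smul]
      norm_num
    have h2 := trace_idem h1
    rw [K5_range hs2 hc, map_smul, map_add, map_smul, LinearMap.trace_one, h.tr s hs, smul_zero, add_zero,
      smul_eq_mul] at h2
    rw [← h2]
    ring
  have h1 : finrank K (eig s 1) = finrank K (eig s (-1)) := by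
    have h2 := (hi 1 (one_mul 1)).trans (hi (-1) (by ring)).symm
    exact_mod_cast h2
  refine ⟨h1, ?_⟩
  have h2 := hi 1 (one_mul 1)
  have h3 : (finrank K V : K) = ((2 * finrank K (eig s 1) : ℕ) : K) := by
    push_cast
    rw [h2]
    ring
  exact_mod_cast h3

/-- By `K2_all`, `K3_system`, `K4_rank` and `K5_eig`: `C(n+1,k) = C(n+1,k-1)` with
`1 ≤ k ≤ n + 1`, so `n + 1 = 2 k - 1` (`Nat.succ_mul_choose_eq` or
`C(N,k) k = C(N,k-1) (N-k+1)`), `dim V = C(n+1,k) + C(n+1,k-1) = C(2k,k)` and
`rank e = C(2k-2,k-1)`. If `k = 1` the rank is one. Otherwise use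
`Nat.succ_mul_centralBinom_succ : (n+1) * centralBinom (n+1) = 2 * (2n+1) * centralBinom n`. -/
theorem K5_final [CharZero K] [IsAlgClosed K] [FiniteDimensional K V] [Nontrivial V]
    (h : CoreN L) {s e f : Module.End K V} (F : Frame L s e f)
    (ha : ∀ u ∈ J1 L s e f, u * f * u = 0) :
    finrank K (LinearMap.range e) = 1 ∨
    (∃ k : ℕ, 2 ≤ k ∧ finrank K V = k.centralBinom ∧
      finrank K V ≤ 4 * finrank K (LinearMap.range e)) := by
  have hall := fun (x : Module.End K V) (hx : x ∈ Lp L s) (y : Module.End K V)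
    (hy : y ∈ Lm L s) => K2_all h F ha hx hy
  obtain ⟨n, x, y, hK, hx, hy, -, -, -, -⟩ := K3_system h F hall
  obtain ⟨k, hk1, hk2, h1, h2, h3⟩ := K4_rank hK (by rw [hx]; exact F.e_ne)
  obtain ⟨h4, h5⟩ := K5_eig h F.s_mem F.s_sq
  obtain ⟨j, rfl⟩ : ∃ j, k = j + 1 := ⟨k - 1, by omega⟩
  rw [Nat.add_sub_cancel] at h2 h3
  rw [h1, h2] at h4
  have h6 := Nat.choose_succ_right_eq (n + 1) j
  rw [h4] at h6
  have h7 : 0 < (n + 1).choose j := Nat.choose_pos (by omega)
  have h8 : j + 1 = n + 1 - j := Nat.eq_of_mul_eq_mul_left h7 h6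
  have h9 : n = 2 * j := by omega
  have h10 : finrank K (LinearMap.range e) = j.centralBinom := by
    rw [← hx, h3, h9, Nat.centralBinom]
  have h11 : finrank K V = (j + 1).centralBinom := by
    have e1 : (2 * (j + 1)).choose (j + 1) = (2 * j + 1).choose j + (2 * j + 1).choose (j + 1) := by
      rw [show 2 * (j + 1) = (2 * j + 1) + 1 by ring, Nat.choose_succ_succ]
    rw [h5, h1, Nat.centralBinom, e1, ← h9, h4]
    ring
  rcases Nat.eq_zero_or_pos j with hj | hj
  · left
    rw [h10, hj]; simp
  · right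
    refine ⟨j + 1, by omega, h11, ?_⟩
    rw [h10, h11]
    have h12 := Nat.succ_mul_centralBinom_succ j
    have h13 : (j + 1) * (j + 1).centralBinom ≤ (j + 1) * (4 * j.centralBinom) := by
      rw [h12]
      nlinarith [j.centralBinom_pos]
    exact Nat.le_of_mul_le_mul_left h13 (by omega)

end Pool.Agent.H86N
end
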