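import Pool.Agent.Lib.H1M.RC.D_H76Q_Q7
import Pool.Agent.Lib.H1M.RC.M005
import Pool.Agent.Lib.H1M.RC.M026
import Pool.Agent.Lib.H1M.RC.M040
import Pool.Agent.Lib.H1M.RC.M042
import Pool.Agent.Lib.H1M.RC.M048

/-! Merged copies (to shorten the build) of Lib.H25U.U0, Lib.H25U.T1, Lib.H25U.T2, Lib.H25U.V2, Lib.H25U.T4, Lib.H25U.T5, Lib.H25U.T6, Lib.H25U.T10, Lib.H25U.T9, Lib.H76Q.F1, Lib.H76Y.EN1, Lib.H76Q.Q6, Lib.H76Y.Y1, Lib.H76Y.X9. -/

-- from Lib.H25U.U0
section

/-!
# U0: definitions of the configuration theory without a condition of balance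

The names are those of H76P / H76Y.  `Hs L` is the set of the functions with two values `c + 1` and
`c - 1` whose operator is in `L` (for `L` of trace zero `c` is determined by the function), `Yo L` is
its rational span, and `CmpN L` says that only the scalars commute with all `y ∈ L` such that
`(y + c) ^ 2 = 1` for a scalar `c`.
-/

set_option autoImplicit false
set_option linter.unusedSectionVars false
namespace Pool.Agent.H25U
open Module Matrix Pool.Agent.H53Toric
open Pool.Agent.H76P (dg dq)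
open Pool.Agent.H76T (IsIdeal Fam)

variable {κ : Type*} [Fintype κ] [DecidableEq κ] {K : Type*} [Field K]

/-- The functions with two values `c + 1` and `c - 1` whose operator is in `L`. -/
def Hs (L : Submodule K (Module.End K (κ → K))) : Set (κ → ℚ) :=
  {ε | (∃ c : ℚ, ∀ a, ε a = c + 1 ∨ ε a = c - 1) ∧ dq ε ∈ L}

/-- Their span. -/
def Yo (L : Submodule K (Module.End K (κ → K))) : Submodule ℚ (κ → ℚ) :=
  Submodule.span ℚ (Hs L)

/-- The evaluations. -/
def pt (L : Submodule K (Module.End K (κ → K))) (a : κ) : Module.Dual ℚ (Yo L) :=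
  (LinearMap.proj (R := ℚ) (φ := fun _ : κ => ℚ) a) ∘ₗ (Yo L).subtype

theorem pt_apply (L : Submodule K (Module.End K (κ → K))) (a : κ) (f : Yo L) :
    pt L a f = (f : κ → ℚ) a := rfl

open Classical in
/-- The component of weight `δ` of the operator `X`. -/
noncomputable def wc (L : Submodule K (Module.End K (κ → K))) (δ : Module.Dual ℚ (Yo L))
    (X : Module.End K (κ → K)) : Module.End K (κ → K) :=
  Matrix.toLin' (Matrix.of fun c d =>
    if pt L c - pt L d = δ then LinearMap.toMatrix' X c d else 0)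

/-- The operator `X` has weight `δ`. -/
def IsWt (L : Submodule K (Module.End K (κ → K))) (δ : Module.Dual ℚ (Yo L))
    (X : Module.End K (κ → K)) : Prop :=
  ∀ g : Yo L, dq (g : κ → ℚ) * X - X * dq (g : κ → ℚ) = ((δ g : ℚ) : K) • X

/-- An irreducible Lie algebra of operators of trace zero such that only the scalars commute with
all its elements `y` such that `(y + c) ^ 2 = 1` for some scalar `c`. -/
structure CmpN (L : Submodule K (Module.End K (κ → K))) : Prop where
  lie : IsLie L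
  irr : Irr L
  tr : ∀ X ∈ L, LinearMap.trace K (κ → K) X = 0
  gen : ∀ T : Module.End K (κ → K),
    (∀ y ∈ L, (∃ c : K, (y + c • 1) * (y + c • 1) = 1) → T * y = y * T) → ∃ c : K, T = c • 1

/-- `CmpN`, and the diagonal elements of `L` separate the basis vectors. -/
structure TM [CharZero K] (L : Submodule K (Module.End K (κ → K))) : Prop where
  cmp : CmpN L
  diag : ∀ f : κ → ℚ, dq f ∈ L → f ∈ Yo L
  sep : ∀ a b : κ, a ≠ b → ∃ f ∈ Yo L, f a ≠ f b

end Pool.Agent.H25U
end

-- from Lib.H25U.T1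
section

/-!
# T1: first facts
-/

set_option autoImplicit false
set_option linter.unusedSectionVars false
namespace Pool.Agent.H25U
open Pool.Agent.H76P Pool.Agent.H76V Pool.Agent.H76Q
open Module Matrix Pool.Agent.H53Toric
open Pool.Agent.H76T (IsIdeal Fam)

variable {κ : Type*} {K : Type*} [Field K] [CharZero K] [Fintype κ] [DecidableEq κ]
  {L : Submodule K (Module.End K (κ → K))} {J : Matrix κ κ K} {ν : κ → ℚ}

/-- PROOF. Matrix of `dg f` is diagonal: `LinearMap.trace` is the sum of the diagonal entries (`dg f = Matrix.toLin' (Matrix.diagonal f)`). -/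
theorem dg_trace (f : κ → K) : LinearMap.trace K (κ → K) (dg f) = ∑ a, f a := by
  have e : dg f = Matrix.toLin' (Matrix.diagonal f) := by
    refine LinearMap.ext fun v => funext fun a => ?_
    rw [dg_apply, Matrix.toLin'_apply, Matrix.mulVec_diagonal]
  rw [e, Matrix.trace_toLin'_eq, Matrix.trace_diagonal]

theorem dq_sq {ε : κ → ℚ} (h : ∀ a, ε a = 1 ∨ ε a = -1) :
    (dq ε : Module.End K (κ → K)) * dq ε = 1 := by
  unfold dq
  rw [dg_mul, ← dg_one]
  congr 1
  funext a
  rw [Pi.mul_apply, Pi.one_apply]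
  rcases h a with h1 | h1 <;> rw [h1] <;> norm_num

/-- The operator of a function with two values, shifted. -/
theorem dq_sqU {ε : κ → ℚ} {c : ℚ} (h : ∀ a, ε a = c + 1 ∨ ε a = c - 1) :
    ((dq ε : Module.End K (κ → K)) + ((-c : ℚ) : K) • 1) * (dq ε + ((-c : ℚ) : K) • 1) = 1 := by
  have e : (dq ε : Module.End K (κ → K)) + ((-c : ℚ) : K) • 1 = dq (fun a => ε a - c) := by
    unfold dq
    rw [← dg_one, ← dg_smul, ← dg_add]
    congr 1
    funext a
    rw [Pi.add_apply, Pi.smul_apply, Pi.one_apply, smul_eq_mul, mul_one]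
    push_cast
    ring
  rw [e]
  refine dq_sq fun a => ?_
  rcases h a with h1 | h1
  · left
    show ε a - c = 1
    rw [h1]
    ring
  · right
    show ε a - c = -1
    rw [h1]
    ring

/-- `dq` is additive and compatible with rational scalars. -/
theorem dq_add (f g : κ → ℚ) : (dq (f + g) : Module.End K (κ → K)) = dq f + dq g := by
  unfold dq
  rw [← dg_add]
  congr 1
  funext a
  rw [Pi.add_apply, Pi.add_apply, Rat.cast_add]

theorem dq_smul (c : ℚ) (f : κ → ℚ) :
    (dq (c • f) : Module.End K (κ → K)) = (c : K) • dq f := by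
  unfold dq
  rw [← dg_smul]
  congr 1
  funext a
  rw [Pi.smul_apply, Pi.smul_apply, smul_eq_mul, smul_eq_mul, Rat.cast_mul]

theorem dq_inj {f g : κ → ℚ} (h : (dq f : Module.End K (κ → K)) = dq g) : f = g := by
  have h1 := dg_inj h
  funext a
  have h2 : (f a : K) = (g a : K) := congrFun h1 a
  exact_mod_cast h2

/-- PROOF. `Submodule.span_induction`, `dq_add`, `dq_smul`. -/
theorem Yo_mem {f : κ → ℚ} (hf : f ∈ Yo L) : dq f ∈ L := by
  unfold Yo at hf
  induction hf using Submodule.span_induction with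
  | mem x hx => exact hx.2
  | zero =>
    have h1 : (dq (0 : κ → ℚ) : Module.End K (κ → K)) = 0 := by
      have h2 := dq_smul (K := K) (0 : ℚ) (0 : κ → ℚ)
      rw [zero_smul, Rat.cast_zero, zero_smul] at h2
      exact h2
    rw [h1]
    exact L.zero_mem
  | add x y _ _ hx hy =>
    rw [dq_add]
    exact L.add_mem hx hy
  | smul c x _ hx =>
    rw [dq_smul]
    exact L.smul_mem _ hx

/-- PROOF. `Yo_mem`, `CmpN.tr`, `dg_trace` (the cast of rational numbers to `K` is injective). -/
theorem Yo_sum (h : CmpN L) {f : κ → ℚ} (hf : f ∈ Yo L) : ∑ a, f a = 0 := by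
  have h1 := h.tr _ (Yo_mem hf)
  unfold dq at h1
  rw [dg_trace] at h1
  exact_mod_cast h1

end Pool.Agent.H25U
end

-- from Lib.H25U.T2
section

/-!
# T2: the evaluations; two commuting algebras
-/

set_option autoImplicit false
set_option linter.unusedSectionVars false
namespace Pool.Agent.H25U
open Pool.Agent.H76P Pool.Agent.H76V Pool.Agent.H76Q
open Module Matrix Pool.Agent.H53Toric
open Pool.Agent.H76T (IsIdeal Fam)

section
variable {κ : Type*} {K : Type*} [Field K] [CharZero K] [Fintype κ] [DecidableEq κ]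
  {L : Submodule K (Module.End K (κ → K))} {J : Matrix κ κ K} {ν : κ → ℚ}

/-- PROOF. `Yo L` is finite dimensional.  If the span `W` of the differences is not everything, there is a nonzero functional on the
dual space which vanishes on `W`; it is the evaluation at some `f : Yo L`, `f ≠ 0` (`Module.evalEquiv`, reflexivity).  So `f a = f b` for all
`a`, `b`, and `∑ a, f a = 0` (`Yo_sum`), hence `f = 0` (`κ` empty is trivial), contradiction. -/
theorem pt_spans (h : CmpN L) : Spans (pt L) := by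
  unfold Spans
  by_contra hW
  obtain ⟨f, hf0, hf⟩ := Submodule.exists_le_ker_of_lt_top _ (lt_top_iff_ne_top.2 hW)
  obtain ⟨x, rfl⟩ := (Module.evalEquiv ℚ (Yo L)).surjective f
  apply hf0
  have hx : x = 0 := by
    have h1 : ∀ a b, (x : κ → ℚ) b = (x : κ → ℚ) a := by
      intro a b
      have h2 : pt L b - pt L a ∈ LinearMap.ker ((Module.evalEquiv ℚ (Yo L)) x) :=
        hf (Submodule.subset_span ⟨a, b, rfl⟩)
      rw [LinearMap.mem_ker] at h2
      have h3 : (pt L b - pt L a) x = 0 := h2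
      rw [LinearMap.sub_apply, pt_apply, pt_apply] at h3
      exact sub_eq_zero.1 h3
    have h4 := Yo_sum h x.2
    apply Subtype.ext
    funext a
    have h5 : ∑ b, (x : κ → ℚ) b = (Fintype.card κ : ℚ) * (x : κ → ℚ) a := by
      rw [Finset.sum_congr rfl (fun b _ => h1 a b), Finset.sum_const, Finset.card_univ, nsmul_eq_mul]
    rw [h5] at h4
    have h6 : (Fintype.card κ : ℚ) ≠ 0 := by
      have : Nonempty κ := ⟨a⟩
      exact_mod_cast Fintype.card_ne_zero
    rcases mul_eq_zero.1 h4 with h7 | h7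
    · exact absurd h7 h6
    · exact h7
  rw [hx, map_zero]

end

section
variable {K : Type*} [Field K] {V : Type*} [AddCommGroup V] [Module K V]

/-- PROOF. Suppose `p * q = 0`, `q ≠ 0`, `p ≠ 0`.  Let `W = {w | ∀ z ∈ A₂, p (z w) = 0}`, a subspace.  It is stable under `A₂` (`A₂` is closed under
products) and under `A₁` (for `x ∈ A₁`: `p (z (x w)) = x (p (z w))`, as `x` commutes with `p` and `z`), so it is stable under
`A₁ ⊔ A₂ = ⊤`, i.e. under all operators (the operators which map `W` to `W` are a subalgebra containing `A₁` and `A₂`).  `W` contains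
the range of `q`: `p (z (q v)) = p (q (z v)) = 0`.  As `q ≠ 0`, `W` contains a nonzero vector, and since every vector is the image of it
under some operator, `W = ⊤`.  So `p = 0` (`z = 1`), contradiction. -/
theorem nonvan {A₁ A₂ : Subalgebra K (Module.End K V)}
    (hcomm : ∀ X ∈ A₁, ∀ Y ∈ A₂, X * Y = Y * X) (hfull : A₁ ⊔ A₂ = ⊤)
    {p q : Module.End K V} (hp : p ∈ A₂) (hq : q ∈ A₁) (hp0 : p ≠ 0) (hq0 : q ≠ 0) :
    p * q ≠ 0 := by
  intro hpq
  let W : Submodule K V :=
    { carrier := {w | ∀ z ∈ A₂, p (z w) = 0}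
      add_mem' := by
        intro a b ha hb z hz
        rw [map_add, map_add, ha z hz, hb z hz, add_zero]
      zero_mem' := by
        intro z _
        rw [map_zero, map_zero]
      smul_mem' := by
        intro c a ha z hz
        rw [map_smul, map_smul, ha z hz, smul_zero] }
  let S : Subalgebra K (Module.End K V) :=
    { carrier := {X | ∀ w ∈ W, X w ∈ W}
      mul_mem' := by
        intro X Y hX hY w hw
        exact hX _ (hY _ hw)
      add_mem' := by
        intro X Y hX hY w hw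
        exact W.add_mem (hX _ hw) (hY _ hw)
      algebraMap_mem' := by
        intro c w hw
        exact W.smul_mem c hw }
  have h1 : A₁ ≤ S := by
    intro X hX w hw z hz
    have e1 : z (X w) = X (z w) := by
      have := congrArg (fun T : Module.End K V => T w) (hcomm X hX z hz)
      exact this.symm
    have e2 : p (X (z w)) = X (p (z w)) := by
      have := congrArg (fun T : Module.End K V => T (z w)) (hcomm X hX p hp)
      exact this.symm
    rw [e1, e2, hw z hz, map_zero]
  have h2 : A₂ ≤ S := by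
    intro X hX w hw z hz
    exact hw (z * X) (A₂.mul_mem hz hX)
  have h3 : ∀ X : Module.End K V, X ∈ S := by
    intro X
    have h4 : A₁ ⊔ A₂ ≤ S := sup_le h1 h2
    rw [hfull] at h4
    exact h4 Algebra.mem_top
  obtain ⟨v, hv⟩ : ∃ v, q v ≠ 0 := by
    by_contra hcon
    push Not at hcon
    exact hq0 (LinearMap.ext hcon)
  have hqv : q v ∈ W := by
    intro z hz
    have e1 : z (q v) = q (z v) := by
      have := congrArg (fun T : Module.End K V => T v) (hcomm q hq z hz)
      exact this.symm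
    rw [e1]
    exact congrArg (fun T : Module.End K V => T (z v)) hpq
  obtain ⟨φ, hφ⟩ : ∃ φ : Module.Dual K V, φ (q v) ≠ 0 := by
    by_contra hcon
    push Not at hcon
    exact hv ((Module.forall_dual_apply_eq_zero_iff K (q v)).1 hcon)
  apply hp0
  refine LinearMap.ext fun u => ?_
  have h5 := h3 (φ.smulRight ((φ (q v))⁻¹ • u)) (q v) hqv
  have h6 : (φ.smulRight ((φ (q v))⁻¹ • u)) (q v) = u := by
    rw [LinearMap.smulRight_apply, smul_smul, mul_inv_cancel₀ hφ, one_smul]
  rw [h6] at h5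
  exact h5 1 A₂.one_mem

end

end Pool.Agent.H25U
end

-- from Lib.H25U.V2
section

/-!
# The decomposition of an irreducible Lie algebra with many elements of degree two
-/

set_option autoImplicit false
set_option linter.unusedSectionVars false
namespace Pool.Agent.H25U
open Pool.Agent.H76P Pool.Agent.H76V Pool.Agent.H76Q
open Module Matrix Pool.Agent.H53Toric
open Pool.Agent.H76T (IsIdeal Fam tr_skew scalar_skew adjoin_comm)

section gen
variable {K : Type*} [Field K] {V : Type*} [AddCommGroup V] [Module K V]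

/-- An operator `y` of trace zero such that `(y + c) ^ 2 = 1` and `y ≠ 0` is not a scalar. -/
theorem shift_ne [CharZero K] [FiniteDimensional K V] [Nontrivial V] {y : Module.End K V} {c : K}
    (htr : LinearMap.trace K V y = 0) (hy0 : y ≠ 0) : y + c • 1 ≠ 1 ∧ y + c • 1 ≠ -1 := by
  have key : ∀ d : K, y = d • 1 → False := by
    intro d hd
    rw [hd, map_smul, LinearMap.trace_one, smul_eq_mul, mul_eq_zero] at htr
    rcases htr with h1 | h1
    · exact hy0 (by rw [hd, h1, zero_smul])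
    · exact absurd h1 (by exact_mod_cast (finrank_pos (R := K) (M := V)).ne')
  refine ⟨fun h => key (1 - c) ?_, fun h => key (-1 - c) ?_⟩
  · rw [eq_sub_of_add_eq h, sub_smul, one_smul]
  · rw [eq_sub_of_add_eq h, sub_smul, neg_one_smul]


end gen

variable {κ : Type*} [Fintype κ] [DecidableEq κ] {K : Type*} [Field K]

variable [CharZero K] {L : Submodule K (Module.End K (κ → K))} 

variable [IsAlgClosed K] [Nonempty κ] {m : ℕ} {I : Fin m → Submodule K (Module.End K (κ → K))}

/-- An element of degree two is in one of the minimal ideals. -/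
theorem CmpN.one (h : CmpN L) (hF : Fam L I) {y : Module.End K (κ → K)} (hy : y ∈ L) {c : K}
    (hy2 : (y + c • 1) * (y + c • 1) = 1) (hy0 : y ≠ 0) : ∃ j, y ∈ I j := by
  refine hF.one h.irr h.tr hy hy0 (a := 2 * c) (b := c * c - 1) ?_
  have e : (y + c • (1 : Module.End K (κ → K))) * (y + c • 1) = y * y + (2 * c) • y + (c * c) • 1 := by
    simp only [add_mul, mul_add, mul_smul_comm, smul_mul_assoc, mul_one, one_mul, smul_smul]
    module
  rw [e] at hy2
  have e2 : y * y = 1 - (c * c) • 1 - (2 * c) • y := eq_sub_of_add_eq (eq_sub_of_add_eq hy2)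
  rw [e2]
  module



/-- A partner in the same ideal. -/
theorem CmpN.partner (h : CmpN L) (hF : Fam L I) {j : Fin m} {N : Module.End K (κ → K)}
    (hN : N ∈ I j) (hN2 : N * N = 0) : ∃ X ∈ I j, N * X * N = N := by
  obtain ⟨X, hX, hNX⟩ := exists_partner h.lie h.irr h.tr ((hF.ideal j).1 hN) hN2
  have h1 : X ∈ ⨆ j, I j := by rw [hF.sup]; exact hX
  obtain ⟨f, hfI, hfX⟩ := (Submodule.mem_iSup_iff_exists_finsupp I X).1 h1
  have hXs : X = f j + ∑ i ∈ Finset.univ.erase j, f i := by
    rw [Finset.add_sum_erase _ _ (Finset.mem_univ j), ← hfX, Finsupp.sum_fintype]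
    intro _; rfl
  refine ⟨f j, hfI j, ?_⟩
  have h2 : N * (∑ i ∈ Finset.univ.erase j, f i) * N = 0 := by
    rw [Finset.mul_sum, Finset.sum_mul]
    apply Finset.sum_eq_zero
    intro i hi
    rw [hF.comm j i (Finset.ne_of_mem_erase hi).symm N hN (f i) (hfI i), mul_assoc, hN2,
      mul_zero]
  have h3 := hNX
  rw [hXs, mul_add, add_mul, h2, add_zero] at h3
  exact h3

end Pool.Agent.H25U
end

-- from Lib.H25U.T4
section

/-!
# T4: involutions and minimal ideals
-/

set_option autoImplicit false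
set_option linter.unusedSectionVars false
namespace Pool.Agent.H25U
open Pool.Agent.H76P Pool.Agent.H76V Pool.Agent.H76Q
open Module Matrix Pool.Agent.H53Toric
open Pool.Agent.H76T (IsIdeal Fam)
open Pool.Agent.H76V (Cmp alg calg)

variable {κ : Type*} {K : Type*} [Field K] [CharZero K] [Fintype κ] [DecidableEq κ]
  {L : Submodule K (Module.End K (κ → K))} {J : Matrix κ κ K} {ν : κ → ℚ}
variable [IsAlgClosed K] [Nonempty κ] {m : ℕ} {I : Fin m → Submodule K (Module.End K (κ → K))}

/-- An element of `Hs L`, different from zero, is in one of the minimal ideals. -/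
theorem Hs_mem (h : CmpN L) (hF : Fam L I) {ε : κ → ℚ} (hε : ε ∈ Hs L)
    (hy0 : (dq ε : Module.End K (κ → K)) ≠ 0) : ∃ j, dq ε ∈ I j := by
  obtain ⟨⟨c, hc⟩, hε2⟩ := hε
  exact h.one hF hε2 (dq_sqU hc) hy0

/-- an element of `L` that commutes with all minimal ideals is zero -/
theorem t4_zero (h : CmpN L) (hF : Fam L I) {X : Module.End K (κ → K)} (hX : X ∈ L)
    (hc : ∀ i, ∀ Y ∈ I i, X * Y = Y * X) : X = 0 := by
  have hc2 : ∀ Y ∈ L, X * Y = Y * X := by
    intro Y hY
    rw [← hF.sup] at hY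
    induction hY using Submodule.iSup_induction' with
    | mem j Y hY => exact hc j Y hY
    | zero => rw [mul_zero, zero_mul]
    | add a b _ _ ha hb => rw [mul_add, add_mul, ha, hb]
  obtain ⟨c, hc3⟩ := h.gen X (fun y hy _ => hc2 y hy)
  have h1 := h.tr X hX
  rw [hc3, map_smul, LinearMap.trace_one, smul_eq_mul, mul_eq_zero] at h1
  rw [hc3]
  rcases h1 with h1 | h1
  · rw [h1, zero_smul]
  · exact absurd h1 (by exact_mod_cast (finrank_pos (R := K) (M := κ → K)).ne')

/-- PROOF. `X j = -∑_{i ≠ j} X i` commutes with every element of `I j` (`hF.comm`) and of `I i`, `i ≠ j`, hence with `L` (`hF.sup`), so it is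
a scalar (`Irr`: `CmpN.gen`, or H76T.Fam.top), of trace zero (`CmpN.tr`, `X j ∈ L`), i.e. zero (`κ` is nonempty, characteristic zero;
`H76T.tr_skew`, `scalar_skew`). -/
theorem indep (h : CmpN L) (hF : Fam L I) {X : Fin m → Module.End K (κ → K)}
    (hX : ∀ i, X i ∈ I i) (h0 : ∑ i, X i = 0) (j : Fin m) : X j = 0 := by
  refine t4_zero h hF ((hF.ideal j).1 (hX j)) fun i Y hY => ?_
  by_cases hij : i = j
  · subst hij
    have h1 : X i = -∑ k ∈ Finset.univ.erase i, X k := by
      rw [← Finset.add_sum_erase _ _ (Finset.mem_univ i)] at h0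
      exact eq_neg_of_add_eq_zero_left h0
    have h2 : (∑ k ∈ Finset.univ.erase i, X k) * Y = Y * ∑ k ∈ Finset.univ.erase i, X k := by
      rw [Finset.sum_mul, Finset.mul_sum]
      refine Finset.sum_congr rfl fun k hk => ?_
      exact hF.comm k i (Finset.ne_of_mem_erase hk) _ (hX k) Y hY
    rw [h1]
    exact (Commute.neg_left h2 : Commute _ _)
  · exact hF.comm j i (Ne.symm hij) _ (hX j) Y hY

end Pool.Agent.H25U
end

-- from Lib.H25U.T5
section

/-!
# T5: weight components
-/

set_option autoImplicit false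
set_option linter.unusedSectionVars false
namespace Pool.Agent.H25U
open Module Matrix Pool.Agent.H53Toric
open Pool.Agent.H76P (dg dq dg_apply dg_mul dg_add dg_smul dg_one dg_inj)
open Pool.Agent.H76T (IsIdeal Fam)
open Pool.Agent.H76V (Cmp alg calg)

variable {κ : Type*} {K : Type*} [Field K] [CharZero K] [Fintype κ] [DecidableEq κ]
  {L : Submodule K (Module.End K (κ → K))}

theorem t5_ext {X Y : Module.End K (κ → K)}
    (h : ∀ c d, LinearMap.toMatrix' X c d = LinearMap.toMatrix' Y c d) : X = Y :=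
  LinearMap.toMatrix'.injective (Matrix.ext h)

open Classical in
theorem t5_wc (δ : Module.Dual ℚ (Yo L)) (X : Module.End K (κ → K)) (c d : κ) :
    LinearMap.toMatrix' (wc L δ X) c d =
      if pt L c - pt L d = δ then LinearMap.toMatrix' X c d else 0 := by
  unfold wc
  rw [LinearMap.toMatrix'_toLin', Matrix.of_apply]

theorem t5_left (f : κ → ℚ) (X : Module.End K (κ → K)) (c d : κ) :
    LinearMap.toMatrix' (dq f * X) c d = (f c : K) * LinearMap.toMatrix' X c d := by
  rw [LinearMap.toMatrix'_apply, LinearMap.toMatrix'_apply]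
  rfl

theorem t5_right (f : κ → ℚ) (X : Module.End K (κ → K)) (c d : κ) :
    LinearMap.toMatrix' (X * dq f) c d = (f d : K) * LinearMap.toMatrix' X c d := by
  rw [LinearMap.toMatrix'_apply, LinearMap.toMatrix'_apply, Module.End.mul_apply]
  have h : (dq f : Module.End K (κ → K)) (Pi.single d 1) = (f d : K) • Pi.single d 1 := by
    ext a
    rw [dq, dg_apply, Pi.smul_apply, smul_eq_mul]
    by_cases h : a = d
    · subst h
      rfl
    · rw [Pi.single_eq_of_ne h, mul_zero, mul_zero]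
  have h2 : X ((dq f : Module.End K (κ → K)) (Pi.single d 1)) = (f d : K) • X (Pi.single d 1) := by
    rw [h, map_smul]
  exact congrFun h2 c

/-- the entries of the commutator -/
theorem t5_comm (g : Yo L) (X : Module.End K (κ → K)) (c d : κ) :
    LinearMap.toMatrix' (dq (g : κ → ℚ) * X - X * dq (g : κ → ℚ)) c d =
      (((pt L c - pt L d) g : ℚ) : K) * LinearMap.toMatrix' X c d := by
  rw [map_sub, Matrix.sub_apply, t5_left, t5_right, LinearMap.sub_apply, pt_apply, pt_apply,
    Rat.cast_sub, sub_mul]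

/-- PROOF. Entries: the entry `(c, d)` of the left side is `(g c - g d) x`, and `g c - g d = δ g` where the entry of `wc L δ X` is
not zero. -/
theorem wc_wt (δ : Module.Dual ℚ (Yo L)) (X : Module.End K (κ → K)) : IsWt L δ (wc L δ X) := by
  classical
  intro g
  refine t5_ext fun c d => ?_
  rw [t5_comm, map_smul, Matrix.smul_apply, smul_eq_mul, t5_wc]
  by_cases h : pt L c - pt L d = δ
  · rw [h]
  · rw [if_neg h, mul_zero, mul_zero]

/-- PROOF. Entries: if `X` has weight `δ` and the entry `(c, d)` is not zero then `g c - g d = δ g` for all `g`, so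
`pt L c - pt L d = δ`. -/
theorem IsWt.entry {δ : Module.Dual ℚ (Yo L)} {X : Module.End K (κ → K)} (hX : IsWt L δ X)
    {c d : κ} (h0 : LinearMap.toMatrix' X c d ≠ 0) : pt L c - pt L d = δ := by
  refine LinearMap.ext fun g => ?_
  have h1 := t5_comm g X c d
  rw [hX g, map_smul, Matrix.smul_apply, smul_eq_mul] at h1
  have h2 := mul_right_cancel₀ h0 h1
  exact_mod_cast h2.symm

theorem IsWt.wc_self {δ : Module.Dual ℚ (Yo L)} {X : Module.End K (κ → K)} (hX : IsWt L δ X) :
    wc L δ X = X := by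
  classical
  refine t5_ext fun c d => ?_
  rw [t5_wc]
  by_cases h0 : LinearMap.toMatrix' X c d = 0
  · rw [h0, ite_self]
  · rw [if_pos (hX.entry h0)]

theorem IsWt.wc_other {δ δ' : Module.Dual ℚ (Yo L)} {X : Module.End K (κ → K)}
    (hX : IsWt L δ X) (hne : δ' ≠ δ) : wc L δ' X = 0 := by
  classical
  refine t5_ext fun c d => ?_
  rw [t5_wc, map_zero, Matrix.zero_apply]
  by_cases h0 : LinearMap.toMatrix' X c d = 0
  · rw [h0, ite_self]
  · rw [if_neg]
    intro h
    exact hne (h.symm.trans (hX.entry h0))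

theorem IsWt.mul {δ δ' : Module.Dual ℚ (Yo L)} {X X' : Module.End K (κ → K)}
    (hX : IsWt L δ X) (hX' : IsWt L δ' X') : IsWt L (δ + δ') (X * X') := by
  intro g
  have h1 := hX g
  have h2 := hX' g
  calc dq (g : κ → ℚ) * (X * X') - X * X' * dq (g : κ → ℚ)
      = (dq (g : κ → ℚ) * X - X * dq (g : κ → ℚ)) * X' +
          X * (dq (g : κ → ℚ) * X' - X' * dq (g : κ → ℚ)) := by
        rw [sub_mul, mul_sub]
        simp only [mul_assoc]
        abel
    _ = (((δ + δ') g : ℚ) : K) • (X * X') := by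
        rw [h1, h2, LinearMap.add_apply, Rat.cast_add, add_smul, smul_mul_assoc, mul_smul_comm]

/-- `X` is the sum of its components; the sum is over the finite set of all `pt L c - pt L d`. -/
theorem wc_sum (X : Module.End K (κ → K)) : ∃ s : Finset (Module.Dual ℚ (Yo L)),
    (∀ δ ∉ s, wc L δ X = 0) ∧ ∑ δ ∈ s, wc L δ X = X := by
  classical
  refine ⟨Finset.univ.image fun p : κ × κ => pt L p.1 - pt L p.2, ?_, ?_⟩
  · intro δ hδ
    refine t5_ext fun c d => ?_
    rw [t5_wc, map_zero, Matrix.zero_apply, if_neg]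
    intro h
    exact hδ (Finset.mem_image.2 ⟨(c, d), Finset.mem_univ _, h⟩)
  · refine t5_ext fun c d => ?_
    rw [map_sum, Matrix.sum_apply]
    simp only [t5_wc]
    rw [Finset.sum_ite_eq, if_pos]
    exact Finset.mem_image.2 ⟨(c, d), Finset.mem_univ _, rfl⟩

theorem wc_linear (δ : Module.Dual ℚ (Yo L)) (X X' : Module.End K (κ → K)) (c : K) :
    wc L δ (c • X + X') = c • wc L δ X + wc L δ X' := by
  classical
  refine t5_ext fun a b => ?_
  rw [t5_wc, map_add, map_add, map_smul, map_smul, Matrix.add_apply, Matrix.add_apply,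
    Matrix.smul_apply, Matrix.smul_apply, t5_wc, t5_wc]
  by_cases h : pt L a - pt L b = δ
  · rw [if_pos h, if_pos h, if_pos h]
  · rw [if_neg h, if_neg h, if_neg h, smul_zero, add_zero]

end Pool.Agent.H25U
end

-- from Lib.H25U.T6
section

/-!
# T6: ideals contain the weight components of their elements
-/

set_option autoImplicit false
set_option linter.unusedSectionVars false
namespace Pool.Agent.H25U
open Module Matrix Pool.Agent.H53Toric
open Pool.Agent.H76P (dg dq dg_apply dg_mul dg_add dg_smul dg_one dg_inj)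
open Pool.Agent.H76T (IsIdeal Fam)
open Pool.Agent.H76V (Cmp alg calg)

variable {κ : Type*} {K : Type*} [Field K] [CharZero K] [Fintype κ] [DecidableEq κ]
  {L : Submodule K (Module.End K (κ → K))}

theorem t6_wt_smul {δ : Module.Dual ℚ (Yo L)} {X : Module.End K (κ → K)} (hX : IsWt L δ X)
    (c : K) : IsWt L δ (c • X) := by
  intro g
  have h1 : dq (g : κ → ℚ) * (c • X) - (c • X) * dq (g : κ → ℚ) =
      c • (dq (g : κ → ℚ) * X - X * dq (g : κ → ℚ)) := by
    rw [mul_smul_comm, smul_mul_assoc]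
    module
  rw [h1, hX g, smul_comm]

theorem t6_mem {I : Submodule K (Module.End K (κ → K))} (hI : IsIdeal L I)
    (s : Finset (Module.Dual ℚ (Yo L))) :
    ∀ x : Module.Dual ℚ (Yo L) → Module.End K (κ → K), (∀ δ ∈ s, IsWt L δ (x δ)) →
      ∑ δ ∈ s, x δ ∈ I → ∀ δ ∈ s, x δ ∈ I := by
  classical
  induction s using Finset.induction_on with
  | empty =>
    intro x _ _ δ hδ
    simp at hδ
  | insert δ0 s hδ0 ih =>
    intro x hx hsum
    have key : ∀ δ ∈ s, x δ ∈ I := by
      intro δ hδ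
      have hne : δ ≠ δ0 := by
        rintro rfl
        exact hδ0 hδ
      obtain ⟨g, hg⟩ : ∃ g, δ g ≠ δ0 g := by
        by_contra h
        push Not at h
        exact hne (LinearMap.ext h)
      have h1 : ∑ δ' ∈ s, (((δ' g : ℚ) : K) - ((δ0 g : ℚ) : K)) • x δ' ∈ I := by
        have h2 : dq (g : κ → ℚ) * (∑ δ' ∈ insert δ0 s, x δ') -
            (∑ δ' ∈ insert δ0 s, x δ') * dq (g : κ → ℚ) ∈ I :=
          hI.2 _ (Yo_mem g.2) _ hsum
        have h3 := I.sub_mem h2 (I.smul_mem ((δ0 g : ℚ) : K) hsum)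
        have h4 : dq (g : κ → ℚ) * (∑ δ' ∈ insert δ0 s, x δ') -
            (∑ δ' ∈ insert δ0 s, x δ') * dq (g : κ → ℚ) =
            ∑ δ' ∈ insert δ0 s, ((δ' g : ℚ) : K) • x δ' := by
          rw [Finset.mul_sum, Finset.sum_mul, ← Finset.sum_sub_distrib]
          exact Finset.sum_congr rfl fun δ' hδ' => hx δ' hδ' g
        rw [h4, Finset.smul_sum, ← Finset.sum_sub_distrib, Finset.sum_insert hδ0, sub_self,
          zero_add] at h3
        have h5 : ∑ δ' ∈ s, (((δ' g : ℚ) : K) - ((δ0 g : ℚ) : K)) • x δ' =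
            ∑ δ' ∈ s, (((δ' g : ℚ) : K) • x δ' - ((δ0 g : ℚ) : K) • x δ') :=
          Finset.sum_congr rfl fun δ' _ => by module
        rw [h5]
        exact h3
      have h6 := ih (fun δ' => (((δ' g : ℚ) : K) - ((δ0 g : ℚ) : K)) • x δ')
        (fun δ' hδ' => t6_wt_smul (hx δ' (Finset.mem_insert_of_mem hδ')) _) h1 δ hδ
      have h7 : (((δ g : ℚ) : K) - ((δ0 g : ℚ) : K)) ≠ 0 := by
        rw [sub_ne_zero]
        intro h
        exact hg (by exact_mod_cast h)
      have h8 := I.smul_mem (((δ g : ℚ) : K) - ((δ0 g : ℚ) : K))⁻¹ h6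
      rwa [smul_smul, inv_mul_cancel₀ h7, one_smul] at h8
    intro δ hδ
    rcases Finset.mem_insert.1 hδ with rfl | h
    · rw [Finset.sum_insert hδ0] at hsum
      have h9 := I.sub_mem hsum (I.sum_mem (fun c hc => key c hc))
      rwa [add_sub_cancel_right] at h9
    · exact key δ h

/-- PROOF. Let `s` be as in `wc_sum`.  There is `g : Yo L` such that the numbers `δ g`, `δ ∈ s`, are pairwise different (the finitely
many nonzero functionals `δ - δ'` on the rational vector space `Yo L`: no finite union of proper subspaces is everything; compare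
`generic` in C1, applied to the dual of `Yo L` and reflexivity, or directly).  Let `A Z = dq g * Z - Z * dq g`, a linear map; it maps `I` to
`I` (`hI.2` with `dq g ∈ L`, `Yo_mem`), and `A (wc δ X) = δ g • wc δ X`.  So the Lagrange polynomial
`∏_{δ' ∈ s, δ' ≠ δ} (δ g - δ' g)⁻¹ • (A - δ' g)` maps `X ∈ I` to `wc δ X`. -/
theorem wc_mem {I : Submodule K (Module.End K (κ → K))} (hI : IsIdeal L I)
    {X : Module.End K (κ → K)} (hX : X ∈ I) (δ : Module.Dual ℚ (Yo L)) : wc L δ X ∈ I := by
  obtain ⟨s, h0, hs⟩ := wc_sum (L := L) X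
  by_cases hδ : δ ∈ s
  · refine t6_mem hI s (fun δ => wc L δ X) (fun δ _ => wc_wt δ X) ?_ δ hδ
    rw [hs]
    exact hX
  · rw [h0 δ hδ]
    exact I.zero_mem

end Pool.Agent.H25U
end

-- from Lib.H25U.T10
section

/-!
# T10: entries; affine maps
-/

set_option autoImplicit false
set_option linter.unusedSectionVars false
namespace Pool.Agent.H25U
open Module Matrix Pool.Agent.H53Toric
open Pool.Agent.H76P (dg dq dg_apply dg_mul dg_add dg_smul dg_one dg_inj Aff)
open Pool.Agent.H76T (IsIdeal Fam)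
open Pool.Agent.H76V (Cmp alg calg)

variable {κ : Type*} {K : Type*} [Field K] [CharZero K] [Fintype κ] [DecidableEq κ]
  {L : Submodule K (Module.End K (κ → K))}

/-- the entry: if `Y * X = dg g'`, `X * Y = dg g` and `g' c = 1` then there is `d` -/
theorem t10_entry {X Y : Module.End K (κ → K)} {δ : Module.Dual ℚ (Yo L)} (hwX : IsWt L δ X)
    (hXYX : X * Y * X = X) {g g' : κ → K} (hg : X * Y = dg g) (hg' : Y * X = dg g') {c : κ}
    (hc : g' c = 1) : ∃ d, pt L d - pt L c = δ ∧ g d = 1 := by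
  have h1 : Y (X (Pi.single c 1)) = Pi.single c 1 := by
    have h2 : (Y * X) (Pi.single c (1 : K)) = dg g' (Pi.single c 1) := by rw [hg']
    rw [Module.End.mul_apply] at h2
    rw [h2]
    ext a
    rw [dg_apply]
    by_cases hac : a = c
    · subst hac
      rw [hc, one_mul]
    · rw [Pi.single_eq_of_ne hac, mul_zero]
  have h2 : X (Pi.single c (1 : K)) ≠ 0 := by
    intro h0
    rw [h0, map_zero] at h1
    have h3 := congrFun h1 c
    rw [Pi.single_eq_same, Pi.zero_apply] at h3
    exact zero_ne_one h3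
  obtain ⟨d, hd⟩ := Function.ne_iff.1 h2
  rw [Pi.zero_apply] at hd
  refine ⟨d, ?_, ?_⟩
  · apply hwX.entry
    rw [LinearMap.toMatrix'_apply]
    exact hd
  · have h3 : (dg g) (X (Pi.single c (1 : K))) = X (Pi.single c 1) := by
      rw [← hg]
      have h4 := congrArg (fun T : Module.End K (κ → K) => T (Pi.single c 1)) hXYX
      exact h4
    have h4 := congrFun h3 d
    rw [dg_apply] at h4
    exact mul_right_cancel₀ hd (by rw [h4, one_mul])


end Pool.Agent.H25U
end

-- from Lib.H25U.T9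
section

/-!
# T9: an sl2 pair
-/

set_option autoImplicit false
set_option linter.unusedSectionVars false
namespace Pool.Agent.H25U
open Pool.Agent.H76P Pool.Agent.H76V Pool.Agent.H76Q
open Module Matrix Pool.Agent.H53Toric
open Pool.Agent.H76T (IsIdeal Fam)
open Pool.Agent.H76V (Cmp alg calg)

variable {κ : Type*} {K : Type*} [Field K] [CharZero K] [Fintype κ] [DecidableEq κ]
  {L : Submodule K (Module.End K (κ → K))} {J : Matrix κ κ K} {ν : κ → ℚ}

/-- an operator whose weight is `2` or `-2` on `ε ∈ Hs L` has square zero -/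
theorem t9_sq {δ : Module.Dual ℚ (Yo L)} {X : Module.End K (κ → K)} (hX : IsWt L δ X)
    {ε : κ → ℚ} (hε : ε ∈ Hs L) (hδ : δ ⟨ε, Submodule.subset_span hε⟩ = 2 ∨
      δ ⟨ε, Submodule.subset_span hε⟩ = -2) : X * X = 0 := by
  refine LinearMap.toMatrix'.injective (Matrix.ext fun c d => ?_)
  rw [map_zero, Matrix.zero_apply]
  by_contra h0
  have h1 := (hX.mul hX).entry h0
  have h2 := LinearMap.congr_fun h1 ⟨ε, Submodule.subset_span hε⟩
  rw [LinearMap.sub_apply, LinearMap.add_apply, pt_apply, pt_apply] at h2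
  change ε c - ε d = _ at h2
  obtain ⟨⟨c₀, hc₀⟩, -⟩ := id hε
  rcases hc₀ c with h3 | h3 <;> rcases hc₀ d with h4 | h4 <;> rcases hδ with h5 | h5 <;>
    rw [h3, h4, h5] at h2 <;> ring_nf at h2 <;> norm_num at h2

theorem t9_wc_zero (δ : Module.Dual ℚ (Yo L)) : wc L δ 0 = 0 := by
  have h := wc_linear (L := L) δ 0 0 1
  rw [smul_zero, add_zero, one_smul] at h
  have h2 : wc L δ 0 + 0 = wc L δ 0 + wc L δ 0 := by rw [add_zero]; exact h
  exact (add_left_cancel h2).symm

theorem t9_wc_add (δ : Module.Dual ℚ (Yo L)) (X Y : Module.End K (κ → K)) :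
    wc L δ (X + Y) = wc L δ X + wc L δ Y := by
  have h := wc_linear (L := L) δ X Y 1
  rwa [one_smul, one_smul] at h

theorem t9_wc_sum {ι : Type*} (s : Finset ι) (δ : Module.Dual ℚ (Yo L))
    (X : ι → Module.End K (κ → K)) : wc L δ (∑ i ∈ s, X i) = ∑ i ∈ s, wc L δ (X i) := by
  classical
  induction s using Finset.induction_on with
  | empty => rw [Finset.sum_empty, Finset.sum_empty, t9_wc_zero]
  | insert a s ha ih => rw [Finset.sum_insert ha, Finset.sum_insert ha, t9_wc_add, ih]

/-- the partner may be replaced by its component of weight `-δ` -/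
theorem t9_partner {δ : Module.Dual ℚ (Yo L)} {X X' : Module.End K (κ → K)} (hX : IsWt L δ X)
    (hXX : X * X' * X = X) : X * wc L (-δ) X' * X = X := by
  classical
  obtain ⟨s, hs1, hs2⟩ := wc_sum (L := L) X'
  have h1 : X = ∑ δ' ∈ s, wc L δ (X * wc L δ' X' * X) := by
    rw [← t9_wc_sum]
    have h2 : ∑ δ' ∈ s, X * wc L δ' X' * X = X := by
      rw [← Finset.sum_mul, ← Finset.mul_sum, hs2, hXX]
    rw [h2, hX.wc_self]
  have h3 : ∀ δ' ∈ s, δ' ≠ -δ → wc L δ (X * wc L δ' X' * X) = 0 := by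
    intro δ' _ hne
    refine ((hX.mul (wc_wt δ' X')).mul hX).wc_other fun h4 => hne ?_
    have h5 : δ + (δ' + δ) = δ + 0 := by rw [add_zero, ← add_assoc]; exact h4.symm
    exact eq_neg_of_add_eq_zero_left (add_left_cancel h5)
  have h6 : wc L δ (X * wc L (-δ) X' * X) = X * wc L (-δ) X' * X := by
    have h7 := ((hX.mul (wc_wt (-δ) X')).mul hX)
    rw [add_neg_cancel, zero_add] at h7
    exact h7.wc_self
  by_cases hm : -δ ∈ s
  · rw [Finset.sum_eq_single_of_mem _ hm h3, h6] at h1
    exact h1.symm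
  · rw [Finset.sum_eq_zero fun δ' hδ' => h3 δ' hδ' fun h8 => hm (h8 ▸ hδ')] at h1
    rw [h1, zero_mul, zero_mul]

variable [IsAlgClosed K] [Nonempty κ] {m : ℕ} {I : Fin m → Submodule K (Module.End K (κ → K))}

/-- PROOF. Let `δ = pt L a - pt L b`, so `δ ε = ε a - ε b` is `2` or `-2`.  `X * X` has weight `δ + δ` (`IsWt.mul`); if it had a nonzero
entry `(c, d)` then `pt L c - pt L d = δ + δ` (`IsWt.entry`), so `ε c - ε d` is `4` or `-4`, which is impossible.  So `X * X = 0`.
`CmpN.partner` (H76V.VA2) gives `X' ∈ I j` with `X * X' * X = X`.  Let `X'' = wc L (-δ) X' ∈ I j` (`wc_mem`, `hF.ideal j`).  `X * X'' * X = X`: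
`X'` is the sum of the `wc L δ' X'` (`wc_sum`), `X * wc L δ' X' * X` has weight `δ + δ' + δ`; apply the linear map `wc L δ` to
`X = X * X' * X` (`wc_linear`, `IsWt.wc_self`, `IsWt.wc_other`): only the term `δ' = -δ` remains.  `X'' * X'' = 0` for the same reason as
for `X`.  Let `Y = X'' * X * X''`.  `Y ∈ I j` since `[X'', [X, X'']] = 2 X'' X X''`.  Weight `-δ + δ - δ`.  `Y * Y = 0`,
`X * Y * X = X X'' X X'' X = X`, `Y * X * Y = X'' X X'' X X'' X X'' = Y`. -/
theorem sl2_pair (h : CmpN L) (hF : Fam L I) {j : Fin m} {X : Module.End K (κ → K)}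
    (hX : X ∈ I j) {ε : κ → ℚ} (hε : ε ∈ Hs L) {a b : κ} (hab : ε a ≠ ε b)
    (hw : IsWt L (pt L a - pt L b) X) :
    ∃ Y ∈ I j, IsWt L (-(pt L a - pt L b)) Y ∧ X * X = 0 ∧ Y * Y = 0 ∧ X * Y * X = X ∧
      Y * X * Y = Y := by
  have hδ : (pt L a - pt L b) ⟨ε, Submodule.subset_span hε⟩ = 2 ∨
      (pt L a - pt L b) ⟨ε, Submodule.subset_span hε⟩ = -2 := by
    rw [LinearMap.sub_apply, pt_apply, pt_apply]
    change ε a - ε b = 2 ∨ ε a - ε b = -2
    obtain ⟨⟨c₀, hc₀⟩, -⟩ := id hε
    rcases hc₀ a with h3 | h3 <;> rcases hc₀ b with h4 | h4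
    · exact absurd (h3.trans h4.symm) hab
    · left; rw [h3, h4]; ring
    · right; rw [h3, h4]; ring
    · exact absurd (h3.trans h4.symm) hab
  set δ : Module.Dual ℚ (Yo L) := pt L a - pt L b with hδdef
  have hδ' : (-δ) ⟨ε, Submodule.subset_span hε⟩ = 2 ∨
      (-δ) ⟨ε, Submodule.subset_span hε⟩ = -2 := by
    rw [LinearMap.neg_apply]
    rcases hδ with h3 | h3
    · right; rw [h3]
    · left; rw [h3]; norm_num
  have hXX : X * X = 0 := t9_sq hw hε hδ
  obtain ⟨X', hX', hXX'⟩ := h.partner hF hX hXX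
  have hZm : wc L (-δ) X' ∈ I j := wc_mem (hF.ideal j) hX' (-δ)
  have hZw : IsWt L (-δ) (wc L (-δ) X') := wc_wt _ _
  have hZZ : wc L (-δ) X' * wc L (-δ) X' = 0 := t9_sq hZw hε hδ'
  have hXZX : X * wc L (-δ) X' * X = X := t9_partner hw hXX'
  set Z := wc L (-δ) X' with hZdef
  refine ⟨Z * X * Z, ?_, ?_, hXX, ?_, ?_, ?_⟩
  · have h1 : X * Z - Z * X ∈ I j := (hF.ideal j).2 X ((hF.ideal j).1 hX) Z hZm
    have h2 : Z * (X * Z - Z * X) - (X * Z - Z * X) * Z ∈ I j :=
      (hF.ideal j).2 Z ((hF.ideal j).1 hZm) _ h1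
    have h3 : Z * (X * Z - Z * X) - (X * Z - Z * X) * Z = (2 : K) • (Z * X * Z) := by
      rw [mul_sub, sub_mul, ← mul_assoc, ← mul_assoc, hZZ, zero_mul, sub_zero, mul_assoc X Z Z, hZZ,
        mul_zero, zero_sub, sub_neg_eq_add, two_smul]
    rw [h3] at h2
    have h4 := (I j).smul_mem (2 : K)⁻¹ h2
    rwa [smul_smul, inv_mul_cancel₀ (two_ne_zero), one_smul] at h4
  · have h1 := (hZw.mul hw).mul hZw
    rwa [neg_add_cancel, zero_add] at h1
  · have h1 : Z * X * Z * (Z * X * Z) = Z * X * (Z * Z) * (X * Z) := by simp only [mul_assoc]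
    rw [h1, hZZ, mul_zero, zero_mul]
  · have h1 : X * (Z * X * Z) * X = (X * Z * X) * Z * X := by simp only [mul_assoc]
    rw [h1, hXZX, hXZX]
  · have h1 : Z * X * Z * X * (Z * X * Z) = Z * (((X * Z * X) * Z * X) * Z) := by
      simp only [mul_assoc]
    rw [h1, hXZX, hXZX, mul_assoc]

end Pool.Agent.H25U
end

-- from Lib.H76Q.F1
section

/-!
# integral elements
-/

set_option autoImplicit false
set_option linter.unusedSectionVars false
namespace Pool.Agent.H76Q
open Module Matrix Polynomial Pool.Agent.H53Toric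
open Pool.Agent.H76P
open Pool.Agent.H76T (IsIdeal Fam Lc)
open Pool.Agent.H76V (Cmp)
open Pool.Agent.H76U (cmp preL IsSplitting)
open Pool.Agent.H76RM (spanK similD)

variable {ι : Type*} [Fintype ι] [DecidableEq ι] {K : Type*} [Field K] [CharZero K]
  [IsAlgClosed K] {J : Matrix ι ι K} {S 𝓗 : Set (Matrix ι ι K)} {e x : Matrix ι ι K} {q : K} {n : ℕ}
  {U : Matrix ι (Fin n) K} {V : Matrix (Fin n) ι K} {d : Fin n → K}
  {Y : Submodule ℚ (Fin n → ℚ)}

theorem f1_one {v : K → ℚ} (hv : IsVal v) : v 1 = 0 ∧ v (-1) = 0 := by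
  have h1 : v 1 = 0 := by
    have := hv.mul 1 1 one_ne_zero one_ne_zero
    rw [mul_one] at this
    linarith
  refine ⟨h1, ?_⟩
  have hm : (-1 : K) ≠ 0 := neg_ne_zero.2 one_ne_zero
  have := hv.mul (-1) (-1) hm hm
  rw [neg_one_mul, neg_neg, h1] at this
  linarith

theorem f1_inv {v : K → ℚ} (hv : IsVal v) {t : K} (ht : t ≠ 0) : v t⁻¹ = - v t := by
  have := hv.mul t t⁻¹ ht (inv_ne_zero ht)
  rw [mul_inv_cancel₀ ht, (f1_one hv).1] at this
  linarith

theorem f1_sum {v : K → ℚ} (hv : IsVal v) {α : Type*} (s : Finset α) (f : α → K) :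
    (∀ i ∈ s, f i ≠ 0 → 0 ≤ v (f i)) → ∑ i ∈ s, f i ≠ 0 → 0 ≤ v (∑ i ∈ s, f i) := by
  classical
  induction s using Finset.induction_on with
  | empty => intro _ h; simp at h
  | insert a s ha ih =>
    intro h hne
    rw [Finset.sum_insert ha] at hne ⊢
    have ih' := ih (fun i hi => h i (Finset.mem_insert_of_mem hi))
    by_cases h1 : f a = 0
    · rw [h1, zero_add] at hne ⊢
      exact ih' hne
    · by_cases h2 : ∑ i ∈ s, f i = 0
      · rw [h2, add_zero]
        exact h a (Finset.mem_insert_self _ _) h1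
      · exact le_trans (le_min (h a (Finset.mem_insert_self _ _) h1) (ih' h2)) (hv.add _ _ h1 h2 hne)

theorem f1_mul {v : K → ℚ} (hv : IsVal v) {A B : Matrix ι ι K} (hA : IntMat v A)
    (hB : IntMat v B) : IntMat v (A * B) := by
  intro i j hij
  rw [Matrix.mul_apply] at hij ⊢
  apply f1_sum hv _ _ _ hij
  intro k _ hk
  have h1 : A i k ≠ 0 := left_ne_zero_of_mul hk
  have h2 : B k j ≠ 0 := right_ne_zero_of_mul hk
  rw [hv.mul _ _ h1 h2]
  exact add_nonneg (hA i k h1) (hB k j h2)

theorem f1_add {v : K → ℚ} (hv : IsVal v) {A B : Matrix ι ι K} (hA : IntMat v A)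
    (hB : IntMat v B) : IntMat v (A + B) := by
  intro i j hij
  rw [Matrix.add_apply] at hij ⊢
  by_cases h1 : A i j = 0
  · rw [h1, zero_add] at hij ⊢
    exact hB i j hij
  · by_cases h2 : B i j = 0
    · rw [h2, add_zero]
      exact hA i j h1
    · exact le_trans (le_min (hA i j h1) (hB i j h2)) (hv.add _ _ h1 h2 hij)

theorem f1_id {v : K → ℚ} (hv : IsVal v) : IntMat v (1 : Matrix ι ι K) := by
  intro i j hij
  by_cases h : i = j
  · rw [h, Matrix.one_apply_eq, (f1_one hv).1]
  · rw [Matrix.one_apply_ne h] at hij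
    exact absurd rfl hij

theorem f1_gen {v : K → ℚ} (hv : IsVal v) {k : Matrix ι ι K} (hk : IntMat v k) {t : K}
    (ht : t ≠ 0) (hvt : v t = 0) : IntMat v (1 + (t - 1) • k) := by
  apply f1_add hv (f1_id hv)
  intro i j hij
  rw [Matrix.smul_apply, smul_eq_mul] at hij ⊢
  have h1 : t - 1 ≠ 0 := left_ne_zero_of_mul hij
  have h2 : k i j ≠ 0 := right_ne_zero_of_mul hij
  rw [hv.mul _ _ h1 h2]
  have h3 : 0 ≤ v (t - 1) := by
    have h4 := hv.add t (-1) ht (neg_ne_zero.2 one_ne_zero) (by rwa [← sub_eq_add_neg])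
    rw [hvt, (f1_one hv).2, min_self, ← sub_eq_add_neg] at h4
    exact h4
  exact add_nonneg h3 (hk i j h2)

theorem f1_mat (A : Matrix (Fin n) (Fin n) K) : LinearMap.toMatrix' (phi A) = A := by
  have : (phi A : Module.End K (Fin n → K)) = Matrix.toLin' A := rfl
  rw [this, LinearMap.toMatrix'_toLin']

theorem f1_conj (hVU : V * U = 1) (A B : Matrix (Fin n) (Fin n) K) :
    U * (A * B) * V = (U * A * V) * (U * B * V) := by
  have h1 : (U * A * V) * (U * B * V) = U * A * (V * U) * B * V := by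
    simp only [Matrix.mul_assoc]
  rw [h1, hVU, Matrix.mul_one]
  simp only [Matrix.mul_assoc]

/-- the compression of a generator -/
theorem f1_cmp (h : Loc J S 𝓗 e x q U V d Y) {k : Matrix ι ι K} (t : K) :
    phi (cmp U V (1 + (t - 1) • k)) =
      ((1 + t) / 2) • (1 : Module.End K (Fin n → K)) +
        ((t - 1) / 2) • phi (cmp U V ((2 : K) • k - 1)) := by
  have h1 : cmp U V (1 + (t - 1) • k) = ((1 + t) / 2) • (1 : Matrix (Fin n) (Fin n) K) +
      ((t - 1) / 2) • cmp U V ((2 : K) • k - 1) := by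
    rw [map_add, map_sub, map_smul, map_smul, Pool.Agent.H76U.cmp_one h.UV h.VU, smul_sub, smul_smul]
    have e1 : (t - 1) / 2 * 2 = t - 1 := by
      field_simp
    rw [e1]
    have e2 : (1 : Matrix (Fin n) (Fin n) K) = ((1 + t) / 2) • (1 : Matrix (Fin n) (Fin n) K) -
        ((t - 1) / 2) • (1 : Matrix (Fin n) (Fin n) K) := by
      rw [← sub_smul]
      have : (1 + t) / 2 - (t - 1) / 2 = 1 := by
        field_simp
        ring
      rw [this, one_smul]
    nth_rw 1 [e2]
    abel
  rw [h1, map_add, map_smul, map_smul, map_one]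

/-- PROOF. `Submonoid.closure_induction`.  For a generator `y = 1 + (t - 1) k` put `y' = 1 + (t⁻¹ - 1) k`; `v t⁻¹ = 0`.  With `PT_par`: if the first alternative holds take
`u = phi (cmp U V y)`, `u' = phi (cmp U V y')`: `U * cmp U V y * V = e * y * e = y * e` has integral entries (`IsVal`: sums and products of integral numbers are integral, `v 1 = 0`, `v (t - 1) ≥ 0` or
`t = 1`).  Otherwise `u = u' = 1` and `U * V = e`.  Products: `U * (A * B) * V = (U * A * V) * (U * B * V)`; `PT_mul`. -/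
theorem int_PT (h : Loc J S 𝓗 e x q U V d Y) {v : K → ℚ} (hv : IsVal v) (he : IntMat v e)
    {P : Module.End ℚ Y} (hP : Sp P) (hc : Comp (Lc J S U V) P) {g : Matrix ι ι K}
    (hg : g ∈ Submonoid.closure {y | ∃ k ∈ 𝓗, IntMat v k ∧ ∃ t : K, t ≠ 0 ∧ v t = 0 ∧
      y = 1 + (t - 1) • k}) :
    ∃ u u' r t, PT (Lc J S U V) (Uᵀ * J * U) P (phi (cmp U V g)) u r t ∧ v t = 0 ∧ u * u' = 1 ∧
      IntMat v (U * LinearMap.toMatrix' u * V) ∧ IntMat v (U * LinearMap.toMatrix' u' * V) := by
  have : Nonempty (Fin n) := ⟨⟨0, h.pos⟩⟩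
  have key : g * e = e * g ∧
    ∃ u u' r t, PT (Lc J S U V) (Uᵀ * J * U) P (phi (cmp U V g)) u r t ∧ v t = 0 ∧ u * u' = 1 ∧
      IntMat v (U * LinearMap.toMatrix' u * V) ∧ IntMat v (U * LinearMap.toMatrix' u' * V) := by
    induction hg using Submonoid.closure_induction with
    | mem y hy =>
      obtain ⟨k, hk, hki, t, ht, hvt, rfl⟩ := hy
      obtain ⟨hkk, hke, _, hkL⟩ := h.par k hk
      have hye : ∀ t : K, (1 + (t - 1) • k) * e = e * (1 + (t - 1) • k) := by
        intro t
        rw [add_mul, mul_add, one_mul, mul_one, smul_mul_assoc, mul_smul_comm, hke]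
      refine ⟨hye t, ?_⟩
      set y0 := phi (cmp U V ((2 : K) • k - 1)) with hy0
      have h2e : ((2 : K) • k - 1) * e = e * ((2 : K) • k - 1) := by
        rw [sub_mul, mul_sub, one_mul, mul_one, smul_mul_assoc, mul_smul_comm, hke]
      have hyy : y0 * y0 = 1 := by
        rw [hy0, ← map_mul, ← Pool.Agent.H76U.cmp_mul h.UV h.VU h2e]
        have e1 : ((2 : K) • k - 1) * ((2 : K) • k - 1) = 1 := by
          rw [sub_mul, mul_sub, one_mul, mul_one, smul_mul_assoc, mul_smul_comm, hkk, smul_smul]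
          have : (2 * 2 : K) • k = (2 : K) • k + (2 : K) • k := by
            rw [← add_smul]
            norm_num
          rw [this]
          abel
        rw [e1, Pool.Agent.H76U.cmp_one h.UV h.VU, map_one]
      rcases PT_par (P := P) h.ts hc hkL hyy ht with h1 | h1
      · rw [← f1_cmp h t] at h1
        refine ⟨_, phi (cmp U V (1 + (t⁻¹ - 1) • k)), _, _, h1, hvt, ?_, ?_, ?_⟩
        · rw [← map_mul, ← Pool.Agent.H76U.cmp_mul h.UV h.VU (hye t⁻¹)]
          have e1 : (1 + (t - 1) • k) * (1 + (t⁻¹ - 1) • k) = 1 := by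
            rw [add_mul, one_mul, mul_add, mul_one, smul_mul_assoc, mul_smul_comm, hkk, smul_smul,
              add_assoc, ← add_smul, ← add_smul]
            have : t⁻¹ - 1 + (t - 1 + (t - 1) * (t⁻¹ - 1)) = 0 := by
              field_simp
              ring
            rw [this, zero_smul, add_zero]
          rw [e1, Pool.Agent.H76U.cmp_one h.UV h.VU, map_one]
        · rw [f1_mat, Pool.Agent.H76U.cmp_apply]
          have e1 : U * (V * (1 + (t - 1) • k) * U) * V = e * (1 + (t - 1) • k) * e := by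
            rw [h.UV]
            simp only [Matrix.mul_assoc]
          rw [e1]
          exact f1_mul hv (f1_mul hv he (f1_gen hv hki ht hvt)) he
        · rw [f1_mat, Pool.Agent.H76U.cmp_apply]
          have e1 : U * (V * (1 + (t⁻¹ - 1) • k) * U) * V = e * (1 + (t⁻¹ - 1) • k) * e := by
            rw [h.UV]
            simp only [Matrix.mul_assoc]
          rw [e1]
          exact f1_mul hv (f1_mul hv he (f1_gen hv hki (inv_ne_zero ht)
            (by rw [f1_inv hv ht, hvt, neg_zero]))) he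
      · rw [← f1_cmp h t] at h1
        refine ⟨_, 1, _, _, h1, (f1_one hv).1, one_mul 1, ?_, ?_⟩
        · rw [LinearMap.toMatrix'_one, Matrix.mul_one, ← h.UV]
          exact he
        · rw [LinearMap.toMatrix'_one, Matrix.mul_one, ← h.UV]
          exact he
    | one =>
      refine ⟨by rw [one_mul, mul_one], 1, 1, 1, 1, ?_, (f1_one hv).1, one_mul 1, ?_, ?_⟩
      · rw [Pool.Agent.H76U.cmp_one h.UV h.VU, map_one]
        exact PT_one h.ts
      · rw [LinearMap.toMatrix'_one, Matrix.mul_one, ← h.UV]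
        exact he
      · rw [LinearMap.toMatrix'_one, Matrix.mul_one, ← h.UV]
        exact he
    | mul g1 g2 _ _ h1 h2 =>
      obtain ⟨hc1, u1, u1', r1, t1, hp1, hv1, hu1, hi1, hi1'⟩ := h1
      obtain ⟨hc2, u2, u2', r2, t2, hp2, hv2, hu2, hi2, hi2'⟩ := h2
      refine ⟨?_, u1 * u2, u2' * u1', r1 * r2, t1 * t2, ?_, ?_, ?_, ?_, ?_⟩
      · rw [mul_assoc, hc2, ← mul_assoc, hc1, mul_assoc]
      · rw [Pool.Agent.H76U.cmp_mul h.UV h.VU hc2, map_mul]
        exact PT_mul h.ts h.yo hP hp1 hp2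
      · rw [hv.mul _ _ hp1.2.2.2.1 hp2.2.2.2.1, hv1, hv2, add_zero]
      · calc u1 * u2 * (u2' * u1') = u1 * (u2 * u2') * u1' := by simp only [mul_assoc]
          _ = 1 := by rw [hu2, mul_one, hu1]
      · have e1 : U * LinearMap.toMatrix' (u1 * u2) * V =
            (U * LinearMap.toMatrix' u1 * V) * (U * LinearMap.toMatrix' u2 * V) := by
          rw [LinearMap.toMatrix'_mul]
          exact f1_conj h.VU _ _
        rw [e1]
        exact f1_mul hv hi1 hi2
      · have e1 : U * LinearMap.toMatrix' (u2' * u1') * V =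
            (U * LinearMap.toMatrix' u2' * V) * (U * LinearMap.toMatrix' u1' * V) := by
          rw [LinearMap.toMatrix'_mul]
          exact f1_conj h.VU _ _
        rw [e1]
        exact f1_mul hv hi2' hi1'
  exact key.2

end Pool.Agent.H76Q
end

-- from Lib.H76Y.EN1
section

/-!
# EN1: determinants of block matrices, of integral matrices, of one parameter groups
-/

set_option autoImplicit false
set_option linter.unusedSectionVars false
namespace Pool.Agent.H76Y.EN
open Module Matrix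
open Pool.Agent.H76Q

variable {ι : Type*} [Fintype ι] [DecidableEq ι] {K : Type*} [Field K] {n : ℕ}





/-- The determinant of `t ^ h`. -/
theorem det_par {h : Matrix ι ι K} (hh : h * h = h) (t : K) : (1 + (t - 1) • h).det = t ^ h.rank := by
  obtain ⟨P, Q, hPQ, hQP⟩ := Pool.Agent.H76U.idem_factor hh
  have h1 : 1 + (t - 1) • h = 1 + P * ((t - 1) • Q) := by
    rw [Matrix.mul_smul, ← hPQ]
  rw [h1, Matrix.det_one_add_mul_comm, Matrix.smul_mul, hQP]
  have h2 : (1 : Matrix (Fin h.rank) (Fin h.rank) K) + (t - 1) • 1 = t • 1 := by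
    rw [sub_smul, one_smul]
    abel
  rw [h2, Matrix.det_smul, Matrix.det_one, mul_one, Fintype.card_fin]

end Pool.Agent.H76Y.EN
end

-- from Lib.H76Q.Q6
section

/-!
# Q6: all hypotheses of the second version in one structure
-/

set_option autoImplicit false
set_option linter.unusedSectionVars false
namespace Pool.Agent.H76Q
open Module Matrix Polynomial Pool.Agent.H53Toric
open Pool.Agent.H76P
open Pool.Agent.H49M (idc)
open Pool.Agent.H76T (IsIdeal Fam Lc)
open Pool.Agent.H76V (Cmp)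
open Pool.Agent.H76U (cmp preL IsSplitting)
open Pool.Agent.H76RM (spanK similD)

/-- The hypotheses of the second version of the theorem except the conditions on the ranks. -/
structure Core2 {ι : Type*} [Fintype ι] [DecidableEq ι] (ψ : Matrix ι ι ℚ)
    (D : Subalgebra ℚ (Matrix ι ι ℚ)) {M : Type*} [Field M] [NumberField M]
    {m : ℕ} (e : Fin m → Matrix ι ι M) {G : Type*} [Group G]
    (ρ : ∀ (l : ℕ) [Fact l.Prime], G →* Matrix.GeneralLinearGroup ι ℚ_[l])
    (p : ℕ) [Fact p.Prime] (σ : G) (q : ℚ) (f : ℚ[X]) (F : Fin m → M[X])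
    (φ μ ν : Matrix ι ι (AlgebraicClosure ℚ_[p])) (v : AlgebraicClosure ℚ_[p] → ℚ)
    (Δ : Set (AlgebraicClosure ℚ_[p] ≃+* AlgebraicClosure ℚ_[p]))
    {Ω : Type*} [Field Ω] [CharZero Ω] [IsAlgClosed Ω] [Algebra.IsAlgebraic ℚ Ω] (j : M →+* Ω)
    (R : Finset Ω) (N : Set ℕ) : Prop where
  hψ : ψᵀ = -ψ
  hψ0 : ψ.det ≠ 0
  hspl : IsSplitting D ψ id e
  lin : ∀ (l : ℕ) [Fact l.Prime], ∀ g : G, ∀ d ∈ D,
      (ρ l g).1 * d.map (algebraMap ℚ ℚ_[l]) = d.map (algebraMap ℚ ℚ_[l]) * (ρ l g).1
  sim : ∀ (l : ℕ) [Fact l.Prime], ∀ g : G, ∃ c : ℚ_[l],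
      (ρ l g).1ᵀ * ψ.map (algebraMap ℚ ℚ_[l]) * (ρ l g).1 = c • ψ.map (algebraMap ℚ ℚ_[l])
  semis : ∀ (l : ℕ) [Fact l.Prime], ∀ H : Subgroup G, H.FiniteIndex →
      ∀ W : Submodule (AlgebraicClosure ℚ_[l]) (ι → AlgebraicClosure ℚ_[l]),
      (∀ s ∈ img (AlgebraicClosure ℚ_[l]) (ρ l) H, ∀ w ∈ W, s *ᵥ w ∈ W) →
      ∃ W' : Submodule (AlgebraicClosure ℚ_[l]) (ι → AlgebraicClosure ℚ_[l]),
        (∀ s ∈ img (AlgebraicClosure ℚ_[l]) (ρ l) H, ∀ w ∈ W', s *ᵥ w ∈ W') ∧ IsCompl W W'
  commt : ∀ (l : ℕ) [Fact l.Prime], ∀ H : Subgroup G, H.FiniteIndex →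
      ∀ y : Matrix ι ι (AlgebraicClosure ℚ_[l]),
      (∀ s ∈ img (AlgebraicClosure ℚ_[l]) (ρ l) H, y * s = s * y) →
        y ∈ spanK (AlgebraicClosure ℚ_[l]) D
  gen : ∀ (l : ℕ) [Fact l.Prime], ∀ g : G,
      (ρ l g).1.map (algebraMap ℚ_[l] (AlgebraicClosure ℚ_[l])) ∈
        tgen (AlgebraicClosure ℚ_[l]) (ρ l)
  hq : ∀ n : ℕ, n ≠ 0 → q ^ n ≠ 1
  mult : ∀ (l : ℕ) [Fact l.Prime], l ≠ p →
      (ρ l σ).1ᵀ * ψ.map (algebraMap ℚ ℚ_[l]) * (ρ l σ).1 =
        algebraMap ℚ ℚ_[l] q • ψ.map (algebraMap ℚ ℚ_[l])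
  char : ∀ (l : ℕ) [Fact l.Prime], l ≠ p →
      (ρ l σ).1.charpoly = f.map (algebraMap ℚ ℚ_[l])
  frob : ∀ (l : ℕ) [Fact l.Prime], l ≠ p →
      FrobT (AlgebraicClosure ℚ_[l]) (ρ l) e F
        ((ρ l σ).1.map (algebraMap ℚ_[l] (AlgebraicClosure ℚ_[l])))
  cyc : ∃ s : G, ∃ c : ℚ_[p], (ρ p s).1ᵀ * ψ.map (algebraMap ℚ ℚ_[p]) * (ρ p s).1 =
      c • ψ.map (algebraMap ℚ ℚ_[p]) ∧ ∀ n : ℕ, n ≠ 0 → c ^ n ≠ 1
  frobp : FrobT (AlgebraicClosure ℚ_[p]) (ρ p) e F φ
  multp : φᵀ * ψ.map (algebraMap ℚ (AlgebraicClosure ℚ_[p])) * φ =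
      algebraMap ℚ (AlgebraicClosure ℚ_[p]) q • ψ.map (algebraMap ℚ (AlgebraicClosure ℚ_[p]))
  charp : φ.charpoly = f.map (algebraMap ℚ (AlgebraicClosure ℚ_[p]))
  crys : CrysP (AlgebraicClosure ℚ_[p]) (ρ p) e σ φ μ ν v Δ
  vq : v (algebraMap ℚ (AlgebraicClosure ℚ_[p]) q) = 1
  hN : p ∈ N
  arith : Arith R N ρ σ
  Rstab : ∀ s : Ω ≃+* Ω, ∀ r ∈ R, s r ∈ R
  Rval : ∀ i : Ω →+* AlgebraicClosure ℚ_[p],
      ∃ r ∈ R, v (i r) = 1 ∧ ∀ r' ∈ R, r' ≠ r → v (i r') = 0
  Rfix : ∀ i : Ω →+* AlgebraicClosure ℚ_[p], ∀ r ∈ R, ∀ δ ∈ Δ, δ (i r) = i r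
  Rtrans : ∀ r ∈ R, ∀ r' ∈ R, ∃ s : Ω ≃+* Ω, s r = r'
  dec : ∀ (s : Ω ≃+* Ω) (T : Finset Ω), ∃ u : ℕ, Odd u ∧ ∃ (l : ℕ) (_ : Fact l.Prime), l ∉ N ∧
      ∃ (i : Ω →+* AlgebraicClosure ℚ_[l]) (t : AlgebraicClosure ℚ_[l] ≃ₐ[ℚ_[l]] AlgebraicClosure ℚ_[l]),
        ∀ x ∈ T, t (i x) = i ((s ^ u) x)
  gal : ∀ b, ∀ a a' : Ω, (F b).eval₂ j a = 0 → (F b).eval₂ j a' = 0 → a ≠ a' →
      ∃ i : Ω →+* AlgebraicClosure ℚ_[p], v (i a) ≠ v (i a')

/-- The combinatorial part of a Mumford type datum for the component `e`: a partition `c` of the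
finite set `R` into `k` classes, which are permuted by all automorphisms `s` such that `e` and its
image under `s` are linked; `s` permutes the classes through `π`; `π = 1` if `s` acts on the roots of
`F` as `y ↦ q / y`, and `π` has a cycle of odd length.  `A` is an invariant family of even numbers. -/
structure PartD {ι : Type*} [Fintype ι] [DecidableEq ι] (D : Subalgebra ℚ (Matrix ι ι ℚ))
    {M Ω : Type*} [Field M] [Field Ω] [CharZero Ω] (j : M →+* Ω) (e : Matrix ι ι M) (F : M[X])
    (q : ℚ) (R : Finset Ω) {k : ℕ} (c : Ω → Fin k) (A : Fin k → ℕ) : Prop where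
  surj : ∀ x, ∃ r ∈ R, c r = x
  even : ∀ x, Even (A x)
  perm : ∀ s : Ω ≃+* Ω, Linked D (e.map j) (e.map (s.toRingHom.comp j)) →
    ∃ π : Equiv.Perm (Fin k), (∀ r ∈ R, c (s r) = π (c r)) ∧ (∀ x, A (π x) = A x) ∧
      ((∀ y, F.eval₂ j y = 0 → s y * y = algebraMap ℚ Ω q) → π = 1) ∧
      ∃ (u : ℕ) (x : Fin k), Odd u ∧ (π ^ u) x = x

end Pool.Agent.H76Q
end

-- from Lib.H76Y.Y1
section

/-!
# Y1: decompositions of the set of embeddings
-/

set_option autoImplicit false
set_option linter.unusedSectionVars false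
namespace Pool.Agent.H76Y
open Module Matrix Polynomial Pool.Agent.H53Toric
open Pool.Agent.H76Q

/-- The combinatorial structure on the set `R` given by a decomposition of the component `e` into `k`
tensor factors with the dimensions `A`: `c` distributes `R` into `k` classes, which are permuted by
all `s` such that the image of `e` under `s` is linked with `e` or with the conjugate `e'` of `e`;
`s` acts trivially on the classes if it acts on the roots of `F` as `y ↦ q / y`, and the permutation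
has a cycle of odd length if `e = e'` (`t`). -/
structure PartN {ι : Type*} [Fintype ι] [DecidableEq ι] (D : Subalgebra ℚ (Matrix ι ι ℚ))
    {M Ω : Type*} [Field M] [Field Ω] [CharZero Ω] (j : M →+* Ω) (t : Prop) (e e' : Matrix ι ι M)
    (F : M[X]) (q : ℚ) (R : Finset Ω) {k : ℕ} (c : Ω → Fin k) (A : Fin k → ℕ) : Prop where
  surj : ∀ x, ∃ r ∈ R, c r = x
  even : ∀ x, Even (A x)
  perm : ∀ s : Ω ≃+* Ω, Linked D (e.map j) (e.map (s.toRingHom.comp j)) ∨
      Linked D (e'.map j) (e.map (s.toRingHom.comp j)) →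
    ∃ π : Equiv.Perm (Fin k), (∀ r ∈ R, c (s r) = π (c r)) ∧ (∀ x, A (π x) = A x) ∧
      ((∀ y, F.eval₂ j y = 0 → s y * y = algebraMap ℚ Ω q) → π = 1) ∧
      (t → ∃ (u : ℕ) (x : Fin k), Odd u ∧ (π ^ u) x = x)

/-- The combinatorial structure on the set of embeddings of `F` given by a decomposition of the
component `e` into `k` tensor factors with the dimensions `A`: `c` distributes the embeddings into
`k` classes, which are permuted by all `s` such that the image of `e` under `s` is linked with `e` or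
with the conjugate `e'` of `e`, i.e. which fix the maximal totally real subfield of the centre of the
component; complex conjugations act trivially on the classes, and the permutation has a cycle of odd
length if `e = e'` (`t`).  `A` is an invariant family of even numbers. -/
structure MumN {ι : Type*} [Fintype ι] [DecidableEq ι] (D : Subalgebra ℚ (Matrix ι ι ℚ))
    {M Ω : Type*} [Field M] [Field Ω] [CharZero Ω] (j : M →+* Ω) (t : Prop) (e e' : Matrix ι ι M)
    (F : Type*) [Field F] {k : ℕ} (c : (F →+* Ω) → Fin k) (A : Fin k → ℕ) : Prop where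
  surj : Function.Surjective c
  even : ∀ x, Even (A x)
  perm : ∀ s : Ω ≃+* Ω, Linked D (e.map j) (e.map (s.toRingHom.comp j)) ∨
      Linked D (e'.map j) (e.map (s.toRingHom.comp j)) →
    ∃ π : Equiv.Perm (Fin k), (∀ τ : F →+* Ω, c (s.toRingHom.comp τ) = π (c τ)) ∧
      (∀ x, A (π x) = A x) ∧
      ((∃ κ : Ω →+* ℂ, ∀ y, κ (s y) = starRingEnd ℂ (κ y)) → π = 1) ∧
      (t → ∃ (u : ℕ) (x : Fin k), Odd u ∧ (π ^ u) x = x)

end Pool.Agent.H76Y
end

-- from Lib.H76Y.X9
section

/-!
# linked idempotents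
-/

set_option autoImplicit false
set_option linter.unusedSectionVars false
namespace Pool.Agent.H76Y
open Module Matrix Polynomial TensorProduct Pool.Agent.H53Toric
open Pool.Agent.H76P Pool.Agent.H76Q
open Pool.Agent.H76T (IsIdeal Fam Lc)
open Pool.Agent.H76V (Cmp)
open Pool.Agent.H76U (cmp preL IsSplitting)
open Pool.Agent.H76RM (spanK similD)

variable {ι : Type*} [Fintype ι] [DecidableEq ι] {D : Subalgebra ℚ (Matrix ι ι ℚ)}

/-- PROOF. `e₁ = (e b).map j`, `e₂ = (e b).map (s.toRingHom.comp j)`; both belong to families as in `IsSplitting` (over `Ω`: the images of `hspl` under `j` and under `s ∘ j`; in G8 there are similar arguments).  Let `w = e₁ * d * e₂ ≠ 0`.  By `full` for the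
family of `j` there are `x ∈ spanK Ω D`, `b'`, `u` with `w *ᵥ (x *ᵥ (e_b' *ᵥ u)) ≠ 0`, so `w * x * e_b' ≠ 0`, where `w = e₁ * w`, so `b' = b` (`orth`), and `e₁ * (w * x) * e₁ = c • e₁` (`corner`), `c ≠ 0`.  Put `a = c⁻¹ • (e₂ * x * e₁)`, `a' = e₁ * w * e₂ = w`: `a' * a = e₁`; `a * a'`
is an idempotent, in `e₂ * spanK * e₂ = Ω • e₂` (`corner` for the family of `s ∘ j`), not `0`, so equal to `e₂`. -/
theorem pr_of_linked {ψ : Matrix ι ι ℚ} {M : Type*} [Field M] [NumberField M] {m : ℕ} {bar : Fin m → Fin m}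
    {e : Fin m → Matrix ι ι M} (hspl : IsSplitting D ψ bar e) {Ω : Type*} [Field Ω] [CharZero Ω]
    (j : M →+* Ω) (s : Ω ≃+* Ω) (b : Fin m)
    (h : Linked D ((e b).map j) ((e b).map (s.toRingHom.comp j))) :
    Pr D ((e b).map j) ((e b).map (s.toRingHom.comp j)) := by
  obtain ⟨d, hd, hne⟩ := h
  have S1 := hspl.map j
  have S2 := hspl.map (s.toRingHom.comp j)
  set e₁ : Matrix ι ι Ω := (e b).map j with he₁
  set e₂ : Matrix ι ι Ω := (e b).map (s.toRingHom.comp j) with he₂
  have m1 : e₁ ∈ spanK Ω D := S1.mem b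
  have m2 : e₂ ∈ spanK Ω D := S2.mem b
  have i1 : e₁ * e₁ = e₁ := S1.idem b
  have i2 : e₂ * e₂ = e₂ := S2.idem b
  have n1 : e₁ ≠ 0 := S1.ne_zero b
  have n2 : e₂ ≠ 0 := S2.ne_zero b
  -- a generator on which `w` does not vanish
  obtain ⟨x, hx, b', hb'⟩ : ∃ x ∈ spanK Ω D, ∃ b', e₁ * d * e₂ * x * (e b').map j ≠ 0 := by
    by_contra hcon
    push Not at hcon
    apply hne
    have h1 : ∀ v : ι → Ω, (e₁ * d * e₂) *ᵥ v = 0 := by
      intro v
      refine Submodule.span_induction (p := fun v _ => (e₁ * d * e₂) *ᵥ v = 0) ?_ ?_ ?_ ?_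
        (S1.full v)
      · rintro _ ⟨x, hx, b', u, rfl⟩
        rw [Matrix.mulVec_mulVec, Matrix.mulVec_mulVec, hcon x hx b', Matrix.zero_mulVec]
      · rw [Matrix.mulVec_zero]
      · intro y z _ _ hy hz
        rw [Matrix.mulVec_add, hy, hz, add_zero]
      · intro c y _ hy
        rw [Matrix.mulVec_smul, hy, smul_zero]
    ext i k
    have h2 := congrFun (h1 (Pi.single k 1)) i
    rw [Matrix.mulVec_single_one] at h2
    exact h2
  have hbb : b' = b := by
    by_contra hcon
    apply hb'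
    have h1 := S1.orth b b' (Ne.symm hcon) (d * (e₂ * x))
      (H76U.spanK_mul hd (H76U.spanK_mul m2 hx))
    rw [← h1]
    simp only [Matrix.mul_assoc, he₁]
  subst hbb
  have hb'' : e₁ * (d * (e₂ * x)) * e₁ ≠ 0 := by
    intro h1
    apply hb'
    rw [← h1]
    simp only [Matrix.mul_assoc, he₁]
  obtain ⟨c, hc⟩ := S1.corner b' (d * (e₂ * x)) (H76U.spanK_mul hd (H76U.spanK_mul m2 hx))
  change e₁ * (d * (e₂ * x)) * e₁ = c • e₁ at hc
  have hc0 : c ≠ 0 := by
    intro h1
    apply hb''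
    rw [hc, h1, zero_smul]
  obtain ⟨c', hc'⟩ := S2.corner b' (x * (e₁ * d)) (H76U.spanK_mul hx (H76U.spanK_mul m1 hd))
  change e₂ * (x * (e₁ * d)) * e₂ = c' • e₂ at hc'
  have ha'a : e₁ * d * e₂ * (c⁻¹ • (e₂ * x * e₁)) = e₁ := by
    rw [Matrix.mul_smul]
    calc c⁻¹ • (e₁ * d * e₂ * (e₂ * x * e₁)) = c⁻¹ • (e₁ * (d * ((e₂ * e₂) * x)) * e₁) := by
          simp only [Matrix.mul_assoc]
      _ = e₁ := by rw [i2, hc, smul_smul, inv_mul_cancel₀ hc0, one_smul]
  have haa' : c⁻¹ • (e₂ * x * e₁) * (e₁ * d * e₂) = (c⁻¹ * c') • e₂ := by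
    rw [Matrix.smul_mul]
    calc c⁻¹ • (e₂ * x * e₁ * (e₁ * d * e₂)) = c⁻¹ • (e₂ * (x * ((e₁ * e₁) * d)) * e₂) := by
          simp only [Matrix.mul_assoc]
      _ = (c⁻¹ * c') • e₂ := by rw [i1, hc', smul_smul]
  have ht : c⁻¹ * c' = 1 := by
    set t := c⁻¹ * c' with ht
    set A := c⁻¹ • (e₂ * x * e₁) with hA
    set A' := e₁ * d * e₂ with hA'
    have h1 : A * A' * (A * A') = A * A' := by
      calc A * A' * (A * A') = A * ((A' * A) * A') := by simp only [Matrix.mul_assoc]
        _ = A * (e₁ * A') := by rw [ha'a]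
        _ = A * A' := by
          have h7 : e₁ * A' = A' := by
            rw [hA']
            calc e₁ * (e₁ * d * e₂) = (e₁ * e₁) * d * e₂ := by simp only [Matrix.mul_assoc]
              _ = e₁ * d * e₂ := by rw [i1]
          rw [h7]
    rw [haa', Matrix.smul_mul, Matrix.mul_smul, i2, smul_smul] at h1
    have h2 : (t * t - t) • e₂ = 0 := by rw [sub_smul, h1, sub_self]
    have h3 : t * t - t = 0 := (smul_eq_zero.1 h2).resolve_right n2
    have h4 : t ≠ 0 := by
      intro h0
      apply n1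
      have h5 : A' * A * (A' * A) = 0 := by
        calc A' * A * (A' * A) = A' * ((A * A') * A) := by simp only [Matrix.mul_assoc]
          _ = 0 := by rw [haa', h0, zero_smul, Matrix.zero_mul, Matrix.mul_zero]
      rw [ha'a, i1] at h5
      exact h5
    have h5 : t * (t - 1) = 0 := by rw [← h3]; ring
    exact sub_eq_zero.1 ((mul_eq_zero.1 h5).resolve_left h4)
  rw [ht, one_smul] at haa'
  refine ⟨c⁻¹ • (e₂ * x * e₁), (spanK Ω D).smul_mem _ (H76U.spanK_mul (H76U.spanK_mul m2 hx) m1),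
    e₁ * d * e₂, H76U.spanK_mul (H76U.spanK_mul m1 hd) m2, haa', ha'a, ?_, ?_, ?_, ?_⟩
  · rw [← Matrix.mul_assoc, ← Matrix.mul_assoc, i1]
  · rw [Matrix.mul_assoc, i2]
  · rw [Matrix.mul_smul, ← Matrix.mul_assoc, ← Matrix.mul_assoc, i2]
  · rw [Matrix.smul_mul, Matrix.mul_assoc, i1]

/-- PROOF. Induction on `u` with `Pr.trans` and `Pr.map s`; `u = 0`: `Pr D e₁ e₁` with `a = a' = e₁` (`hspl.mem`, `hspl.idem`). -/
theorem pr_pow {ψ : Matrix ι ι ℚ} {M : Type*} [Field M] [NumberField M] {m : ℕ} {bar : Fin m → Fin m}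
    {e : Fin m → Matrix ι ι M} (hspl : IsSplitting D ψ bar e) {Ω : Type*} [Field Ω] [CharZero Ω]
    (j : M →+* Ω) (s : Ω ≃+* Ω) (b : Fin m)
    (h : Linked D ((e b).map j) ((e b).map (s.toRingHom.comp j))) (u : ℕ) :
    Pr D ((e b).map j) ((e b).map ((s ^ u).toRingHom.comp j)) := by
  induction u with
  | zero =>
    have S1 := hspl.map j
    have m1 : (e b).map j ∈ spanK Ω D := S1.mem b
    have i1 : (e b).map j * (e b).map j = (e b).map j := S1.idem b
    have h1 : (e b).map ((s ^ 0).toRingHom.comp j) = (e b).map j := by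
      ext x y
      rw [pow_zero]
      rfl
    rw [h1]
    exact ⟨(e b).map j, m1, (e b).map j, m1, i1, i1, i1, i1, i1, i1⟩
  | succ u ih =>
    have h1 := ih.map s.toRingHom
    have h2 : ((e b).map j).map s.toRingHom = (e b).map (s.toRingHom.comp j) := by
      ext x y
      rfl
    have h3 : ((e b).map ((s ^ u).toRingHom.comp j)).map s.toRingHom =
        (e b).map ((s ^ (u + 1)).toRingHom.comp j) := by
      ext x y
      rw [pow_succ']
      rfl
    rw [h2, h3] at h1
    exact (pr_of_linked hspl j s b h).trans h1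

end Pool.Agent.H76Y
end
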