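import Pool.Agent.Lib.H1M.RC.M002
import Pool.Agent.Lib.H1M.RC.M005

/-! Merged copies (to shorten the build) of Lib.H34Z.G02, Lib.H34Z.G03, Lib.H34Z.G04, Lib.H34Z.G05, Lib.H34Z.G06, Lib.H86N.P7e. -/

-- from Lib.H34Z.G02
section

/-!
# G02: unipotent elements, the derived group of the Levi subgroup
-/

set_option autoImplicit false
set_option linter.unusedSectionVars false
namespace Pool.Agent.H34Z
open Matrix

variable {m : Type*} [Fintype m] [DecidableEq m] {K : Type*} [Field K] [CharZero K] {Z : Set (Matrix (m ⊕ m) (m ⊕ m) K)}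

/-- PROOF. `N = fromBlocks 0 b 0 0`: `N * N = 0`, `Nᵀ * J0 + J0 * N = fromBlocks 0 0 0 (bᵀ + b) = 0` (`Matrix.fromBlocks_multiply`,
`Matrix.fromBlocks_transpose`), `1 + N = up b`. -/
theorem up_mem (hZ : Zs (J0 m K) Z) {b : Matrix m m K} (hb : bᵀ = -b) : up b ∈ Z := by
  have hN : (Matrix.fromBlocks 0 b 0 0 : Matrix (m ⊕ m) (m ⊕ m) K) * Matrix.fromBlocks 0 b 0 0 = 0 := by
    rw [Matrix.fromBlocks_multiply]
    simp only [Matrix.mul_zero, Matrix.zero_mul, add_zero]
    exact Matrix.fromBlocks_zero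
  have h2 : (Matrix.fromBlocks 0 b 0 0 : Matrix (m ⊕ m) (m ⊕ m) K)ᵀ * J0 m K + J0 m K * Matrix.fromBlocks 0 b 0 0 = 0 := by
    unfold J0
    rw [Matrix.fromBlocks_transpose, Matrix.fromBlocks_multiply, Matrix.fromBlocks_multiply, Matrix.fromBlocks_add, hb]
    simp only [Matrix.mul_zero, Matrix.zero_mul, add_zero, zero_add, Matrix.mul_one, Matrix.one_mul, Matrix.transpose_zero,
      neg_add_cancel]
    exact Matrix.fromBlocks_zero
  have h3 := hZ.exp _ hN h2
  have h4 : 1 + (Matrix.fromBlocks 0 b 0 0 : Matrix (m ⊕ m) (m ⊕ m) K) = up b := by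
    unfold up
    rw [← Matrix.fromBlocks_one, Matrix.fromBlocks_add]
    simp only [add_zero, zero_add]
  rw [h4] at h3
  exact h3

/-- PROOF. As `up_mem`. -/
theorem lo_mem (hZ : Zs (J0 m K) Z) {c : Matrix m m K} (hc : cᵀ = -c) : lo c ∈ Z := by
  have hN : (Matrix.fromBlocks 0 0 c 0 : Matrix (m ⊕ m) (m ⊕ m) K) * Matrix.fromBlocks 0 0 c 0 = 0 := by
    rw [Matrix.fromBlocks_multiply]
    simp only [Matrix.mul_zero, Matrix.zero_mul, add_zero]
    exact Matrix.fromBlocks_zero
  have h2 : (Matrix.fromBlocks 0 0 c 0 : Matrix (m ⊕ m) (m ⊕ m) K)ᵀ * J0 m K + J0 m K * Matrix.fromBlocks 0 0 c 0 = 0 := by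
    unfold J0
    rw [Matrix.fromBlocks_transpose, Matrix.fromBlocks_multiply, Matrix.fromBlocks_multiply, Matrix.fromBlocks_add, hc]
    simp only [Matrix.mul_zero, Matrix.zero_mul, add_zero, zero_add, Matrix.mul_one, Matrix.one_mul, Matrix.transpose_zero,
      neg_add_cancel]
    exact Matrix.fromBlocks_zero
  have h3 := hZ.exp _ hN h2
  have h4 : 1 + (Matrix.fromBlocks 0 0 c 0 : Matrix (m ⊕ m) (m ⊕ m) K) = lo c := by
    unfold lo
    rw [← Matrix.fromBlocks_one, Matrix.fromBlocks_add]
    simp only [add_zero, zero_add]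
  rw [h4] at h3
  exact h3

theorem lv_mul (a b : Matrix m m K) : lv (a * b) = lv a * lv b := by
  unfold lv
  rw [Matrix.fromBlocks_multiply, Matrix.mul_inv_rev, Matrix.transpose_mul]
  simp only [Matrix.mul_zero, Matrix.zero_mul, add_zero, zero_add]

theorem lv_one : lv (1 : Matrix m m K) = 1 := by
  unfold lv
  rw [inv_one, Matrix.transpose_one, Matrix.fromBlocks_one]

/-- PROOF. `H76U.sl_gen` for the set `{a | lv a ∈ Z}` (`lv_one`, `lv_mul`).  `lv (transvection i j c) = 1 + N` with
`N = fromBlocks (single i j c) 0 0 (-(single j i c))` (`(transvection i j c)⁻¹ = transvection i j (-c)`, `Matrix.inv_eq_right_inv`,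
`Matrix.transvection_mul_transvection_same`), `N * N = 0` (`i ≠ j`), `Nᵀ * J0 + J0 * N = 0`. -/
theorem lv_sl (hZ : Zs (J0 m K) Z) {a : Matrix m m K} (ha : a.det = 1) : lv a ∈ Z := by
  refine H76U.sl_gen (Z := {a : Matrix m m K | lv a ∈ Z}) ?_ ?_ ?_ ha
  · show lv 1 ∈ Z
    rw [lv_one]
    exact hZ.one
  · intro a ha b hb
    show lv (a * b) ∈ Z
    rw [lv_mul]
    exact hZ.mul _ ha _ hb
  · intro i j hij c
    show lv (transvection i j c) ∈ Z
    have hinv : (transvection i j c)⁻¹ = transvection i j (-c) := by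
      refine Matrix.inv_eq_right_inv ?_
      rw [Matrix.transvection_mul_transvection_same _ _ hij, add_neg_cancel, Matrix.transvection_zero]
    have hs : single i j c * single i j c = (0 : Matrix m m K) := Matrix.single_mul_single_of_ne _ _ _ _ hij.symm _
    have hs' : single j i (-c) * single j i (-c) = (0 : Matrix m m K) := Matrix.single_mul_single_of_ne _ _ _ _ hij _
    have hN : (Matrix.fromBlocks (single i j c) 0 0 (single j i (-c)) : Matrix (m ⊕ m) (m ⊕ m) K) *
        Matrix.fromBlocks (single i j c) 0 0 (single j i (-c)) = 0 := by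
      rw [Matrix.fromBlocks_multiply, hs, hs']
      simp only [Matrix.mul_zero, Matrix.zero_mul, add_zero]
      exact Matrix.fromBlocks_zero
    have h5 : single j i c + single j i (-c) = (0 : Matrix m m K) := by
      rw [← Matrix.single_add, add_neg_cancel, Matrix.single_zero]
    have h6 : single i j (-c) + single i j c = (0 : Matrix m m K) := by
      rw [← Matrix.single_add, neg_add_cancel, Matrix.single_zero]
    have h2 : (Matrix.fromBlocks (single i j c) 0 0 (single j i (-c)) : Matrix (m ⊕ m) (m ⊕ m) K)ᵀ * J0 m K +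
        J0 m K * Matrix.fromBlocks (single i j c) 0 0 (single j i (-c)) = 0 := by
      unfold J0
      rw [Matrix.fromBlocks_transpose, Matrix.fromBlocks_multiply, Matrix.fromBlocks_multiply, Matrix.fromBlocks_add]
      simp only [Matrix.mul_zero, Matrix.zero_mul, add_zero, zero_add, Matrix.mul_one, Matrix.one_mul, Matrix.transpose_zero,
        Matrix.transpose_single]
      rw [h5, h6]
      exact Matrix.fromBlocks_zero
    have h3 := hZ.exp _ hN h2
    have h4 : 1 + (Matrix.fromBlocks (single i j c) 0 0 (single j i (-c)) : Matrix (m ⊕ m) (m ⊕ m) K) = lv (transvection i j c) := by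
      unfold lv
      rw [hinv, ← Matrix.fromBlocks_one, Matrix.fromBlocks_add]
      unfold transvection
      simp only [add_zero, Matrix.transpose_add, Matrix.transpose_one, Matrix.transpose_single]
    rw [h4] at h3
    exact h3

end Pool.Agent.H34Z
end

-- from Lib.H34Z.G03
section

/-!
# G03: the Levi subgroup, double swaps
-/

set_option autoImplicit false
set_option linter.unusedSectionVars false
namespace Pool.Agent.H34Z
open Matrix

variable {m : Type*} [Fintype m] [DecidableEq m] {K : Type*} [Field K] [CharZero K] {Z : Set (Matrix (m ⊕ m) (m ⊕ m) K)}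

/-- the projection onto two coordinates -/
theorem g03_bb {i j : m} (hij : i ≠ j) :
    (single i j (1 : K) - single j i 1) * (single i j (1 : K) - single j i 1) = -(single i i 1 + single j j 1) := by
  rw [sub_mul, mul_sub, mul_sub, single_mul_single_of_ne _ _ _ _ (Ne.symm hij), single_mul_single_same, single_mul_single_same,
    single_mul_single_of_ne _ _ _ _ hij]
  simp only [mul_one]
  abel

theorem g03_Pb {i j : m} (hij : i ≠ j) :
    (single i i (1 : K) + single j j 1) * (single i j (1 : K) - single j i 1) = single i j 1 - single j i 1 := by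
  rw [add_mul, mul_sub, mul_sub, single_mul_single_same, single_mul_single_of_ne _ _ _ _ hij, single_mul_single_of_ne _ _ _ _ (Ne.symm hij),
    single_mul_single_same]
  simp only [mul_one]
  abel

theorem g03_bP {i j : m} (hij : i ≠ j) :
    (single i j (1 : K) - single j i 1) * (single i i (1 : K) + single j j 1) = single i j 1 - single j i 1 := by
  rw [sub_mul, mul_add, mul_add, single_mul_single_same, single_mul_single_of_ne _ _ _ _ hij, single_mul_single_of_ne _ _ _ _ (Ne.symm hij),
    single_mul_single_same]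
  simp only [mul_one]
  abel

theorem g03_PP {i j : m} (hij : i ≠ j) :
    (single i i (1 : K) + single j j 1) * (single i i (1 : K) + single j j 1) = single i i 1 + single j j 1 := by
  rw [add_mul, mul_add, mul_add, single_mul_single_same, single_mul_single_of_ne _ _ _ _ hij, single_mul_single_of_ne _ _ _ _ (Ne.symm hij),
    single_mul_single_same]
  simp only [mul_one]
  abel

theorem g03_bT {i j : m} : (single i j (1 : K) - single j i 1)ᵀ = -(single i j (1 : K) - single j i 1) := by
  rw [transpose_sub, transpose_single, transpose_single]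
  abel

theorem g03_PT {i j : m} : (single i i (1 : K) + single j j 1)ᵀ = single i i (1 : K) + single j j 1 := by
  rw [transpose_add, transpose_single, transpose_single]

theorem g03_Pdiag {i j : m} (hij : i ≠ j) (x y : K) :
    x • (1 - (single i i (1 : K) + single j j 1)) + y • (single i i (1 : K) + single j j 1) =
      Matrix.diagonal fun k => if k ∈ ({i, j} : Finset m) then y else x := by
  ext k l
  by_cases hkl : k = l
  · subst hkl
    by_cases h1 : k = i
    · subst h1
      simp [Matrix.single, hij, Ne.symm hij]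
    · by_cases h2 : k = j
      · subst h2
        simp [Matrix.single, hij, Ne.symm hij]
      · simp [Matrix.single, h1, h2, Ne.symm h1, Ne.symm h2]
  · have e1 : ¬ (i = k ∧ i = l) := fun h => hkl (h.1.symm.trans h.2)
    have e2 : ¬ (j = k ∧ j = l) := fun h => hkl (h.1.symm.trans h.2)
    simp [Matrix.single, hkl, e1, e2]

/-- Notation: `b = single i j 1 - single j i 1`, `P = single i i 1 + single j j 1`: `b * b = -P`, `P * b = b = b * P`, `P * P = P`, `bᵀ = -b`.
PROOF. Multiply the blocks: `up (c • b) * lo (c⁻¹ • b) * up (c • b) = fromBlocks (1 - P) (c • b) (c⁻¹ • b) (1 - P)`. -/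
theorem weyl_mem (hZ : Zs (J0 m K) Z) {i j : m} (hij : i ≠ j) {c : K} (hc : c ≠ 0) :
    Matrix.fromBlocks (1 - (single i i 1 + single j j 1)) (c • (single i j 1 - single j i 1))
      (c⁻¹ • (single i j 1 - single j i 1)) (1 - (single i i 1 + single j j 1)) ∈ Z := by
  have h1 : up (c • (single i j (1 : K) - single j i 1)) ∈ Z := up_mem hZ (by rw [transpose_smul, g03_bT, smul_neg])
  have h2 : lo (c⁻¹ • (single i j (1 : K) - single j i 1)) ∈ Z := lo_mem hZ (by rw [transpose_smul, g03_bT, smul_neg])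
  have h3 := hZ.mul _ (hZ.mul _ h1 _ h2) _ h1
  have e : up (c • (single i j (1 : K) - single j i 1)) * lo (c⁻¹ • (single i j (1 : K) - single j i 1)) * up (c • (single i j (1 : K) - single j i 1)) =
      Matrix.fromBlocks (1 - (single i i 1 + single j j 1)) (c • (single i j 1 - single j i 1))
      (c⁻¹ • (single i j 1 - single j i 1)) (1 - (single i i 1 + single j j 1)) := by
    set P : Matrix m m K := single i i 1 + single j j 1 with hP
    set b : Matrix m m K := single i j 1 - single j i 1 with hb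
    have hbb : b * b = -P := g03_bb hij
    have hPb : P * b = b := g03_Pb hij
    unfold up lo
    rw [fromBlocks_multiply, fromBlocks_multiply]
    simp only [one_mul, mul_one, mul_zero, zero_add, add_zero, smul_mul_assoc, mul_smul_comm, add_mul, hbb, smul_neg,
      smul_smul, mul_inv_cancel₀ hc, inv_mul_cancel₀ hc, one_smul, neg_mul, hPb]
    congr 1
    · module
    · module
    · module
  rw [e] at h3
  exact h3

/-- PROOF. `W(c)` denotes the matrix of `weyl_mem`.  `W(s) * W(-1) = fromBlocks (1 - P + s • P) 0 0 (1 - P + s⁻¹ • P)`, and this is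
`lv (1 - P + s • P)` (`(1 - P + s • P) * (1 - P + s⁻¹ • P) = 1`, both symmetric). -/
theorem lv_two (hZ : Zs (J0 m K) Z) {i j : m} (hij : i ≠ j) {s : K} (hs : s ≠ 0) :
    lv (1 - (single i i 1 + single j j 1) + s • (single i i 1 + single j j 1)) ∈ Z := by
  have h1 := weyl_mem hZ hij hs
  have h2 := weyl_mem hZ hij (neg_ne_zero.mpr (one_ne_zero (α := K)))
  have h3 := hZ.mul _ h1 _ h2
  have hinv : (1 - (single i i 1 + single j j 1) + s • (single i i (1 : K) + single j j 1))⁻¹ =
      1 - (single i i 1 + single j j 1) + s⁻¹ • (single i i (1 : K) + single j j 1) := by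
    refine Matrix.inv_eq_right_inv ?_
    have e := g03_PP (K := K) hij
    set P : Matrix m m K := single i i 1 + single j j 1 with hP
    have e1 : (s • P) * (s⁻¹ • P) = P := by rw [smul_mul_smul_comm, mul_inv_cancel₀ hs, one_smul, e]
    have e2 : P * (s⁻¹ • P) = s⁻¹ • P := by rw [mul_smul_comm, e]
    have e3 : (s • P) * P = s • P := by rw [smul_mul_assoc, e]
    simp only [add_mul, sub_mul, mul_add, mul_sub, one_mul, mul_one, e, e1, e2, e3]
    abel
  have e : Matrix.fromBlocks (1 - (single i i 1 + single j j 1)) (s • (single i j (1 : K) - single j i 1))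
      (s⁻¹ • (single i j 1 - single j i 1)) (1 - (single i i 1 + single j j 1)) *
      Matrix.fromBlocks (1 - (single i i 1 + single j j 1)) ((-1 : K) • (single i j 1 - single j i 1))
      ((-1 : K)⁻¹ • (single i j 1 - single j i 1)) (1 - (single i i 1 + single j j 1)) =
      lv (1 - (single i i 1 + single j j 1) + s • (single i i (1 : K) + single j j 1)) := by
    unfold lv
    rw [hinv, fromBlocks_multiply, transpose_add, transpose_smul, transpose_sub, g03_PT, transpose_one]
    set P : Matrix m m K := single i i 1 + single j j 1 with hP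
    set b : Matrix m m K := single i j 1 - single j i 1 with hb
    have hbb : b * b = -P := g03_bb hij
    have hPb : P * b = b := g03_Pb hij
    have hbP : b * P = b := g03_bP hij
    have hPP : P * P = P := g03_PP hij
    have hn : ((-1 : K))⁻¹ = -1 := by norm_num
    rw [hn]
    simp only [neg_smul, one_smul, mul_neg, smul_mul_assoc, sub_mul, mul_sub, one_mul, mul_one, hbb, hPb, hbP, hPP, smul_neg, neg_neg]
    congr 1
    · abel
    · abel
    · abel
    · abel
  rw [e] at h3
  exact h3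

/-- PROOF. Let `t = a.det`, `s ^ 2 = t` (`IsAlgClosed.exists_pow_nat_eq`), `D = 1 - P + s • P`; `D.det = s ^ 2 = t` (`D` is diagonal with the entries `s, s` at
`i, j` and `1` elsewhere: `Matrix.det_diagonal`, `Finset.prod_ite` or `Finset.prod_pair`).  `a' = D⁻¹ * a` has determinant `1`, and
`lv a = lv D * lv a' ∈ Z` (`lv_mul`, `lv_two`, `lv_sl`). -/
theorem lv_gl [IsAlgClosed K] (hZ : Zs (J0 m K) Z) (h2 : 2 ≤ Fintype.card m) {a : Matrix m m K} (ha : a.det ≠ 0) :
    lv a ∈ Z := by
  obtain ⟨i, j, hij⟩ := Fintype.exists_pair_of_one_lt_card (α := m) (by omega)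
  obtain ⟨s, hs⟩ := IsAlgClosed.exists_pow_nat_eq a.det (n := 2) (by norm_num)
  have hs0 : s ≠ 0 := by
    rintro rfl
    apply ha
    rw [← hs]
    norm_num
  set D : Matrix m m K := 1 - (single i i 1 + single j j 1) + s • (single i i (1 : K) + single j j 1) with hD
  have hDd : D = Matrix.diagonal fun k => if k ∈ ({i, j} : Finset m) then s else 1 := by
    rw [hD, ← g03_Pdiag hij, one_smul]
  have hDet : D.det = a.det := by
    rw [hDd, Matrix.det_diagonal, ← hs, Finset.prod_ite_mem, Finset.univ_inter, Finset.prod_pair hij, sq]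
  have hu : IsUnit D.det := by rw [hDet]; exact isUnit_iff_ne_zero.mpr ha
  have h1 : (D⁻¹ * a).det = 1 := by
    rw [Matrix.det_mul, Matrix.det_nonsing_inv, Ring.inverse_eq_inv', hDet, inv_mul_cancel₀ ha]
  have h2' : a = D * (D⁻¹ * a) := by
    rw [← Matrix.mul_assoc, Matrix.mul_nonsing_inv _ hu, Matrix.one_mul]
  rw [h2', lv_mul]
  exact hZ.mul _ (lv_two hZ hij hs0) _ (lv_sl hZ h1)

/-- PROOF. `W(1) * lv a` with `a = 1 - P - b`, `aᵀ = 1 - P + b`, `a * aᵀ = 1`, so `(a⁻¹)ᵀ = a`; `W(1) * lv a = fromBlocks ((1 - P) a) (b a) (b a) ((1 - P) a)`,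
`(1 - P) a = 1 - P`, `b a = -b b = P`. -/
theorem sw_pair [IsAlgClosed K] (hZ : Zs (J0 m K) Z) (h2 : 2 ≤ Fintype.card m) {i j : m} (hij : i ≠ j) :
    sw K ({i, j} : Finset m) ∈ Z := by
  have h1 := weyl_mem hZ hij (one_ne_zero (α := K))
  set P : Matrix m m K := single i i 1 + single j j 1 with hP
  set b : Matrix m m K := single i j 1 - single j i 1 with hb
  have hbb : b * b = -P := g03_bb hij
  have hPb : P * b = b := g03_Pb hij
  have hbP : b * P = b := g03_bP hij
  have hPP : P * P = P := g03_PP hij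
  have hbT : bᵀ = -b := g03_bT
  have hPT : Pᵀ = P := g03_PT
  have haa : (1 - P - b) * (1 - P + b) = 1 := by
    simp only [sub_mul, mul_add, mul_sub, one_mul, mul_one, hbb, hPb, hbP, hPP]
    abel
  have hdet : (1 - P - b).det ≠ 0 := by
    intro h
    have := congrArg Matrix.det haa
    rw [Matrix.det_mul, h, zero_mul, Matrix.det_one] at this
    exact zero_ne_one this
  have hinv : ((1 - P - b)⁻¹)ᵀ = 1 - P - b := by
    rw [Matrix.inv_eq_right_inv haa, transpose_add, transpose_sub, transpose_one, hPT, hbT]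
    abel
  have h2 := hZ.mul _ h1 _ (lv_gl hZ h2 hdet)
  have e : Matrix.fromBlocks (1 - P) ((1 : K) • b) ((1 : K)⁻¹ • b) (1 - P) * lv (1 - P - b) = sw K ({i, j} : Finset m) := by
    unfold lv sw
    rw [hinv, fromBlocks_multiply, inv_one, one_smul]
    have e1 := g03_Pdiag hij (1 : K) 0
    have e2 := g03_Pdiag hij (0 : K) 1
    rw [one_smul, zero_smul, add_zero] at e1
    rw [one_smul, zero_smul, zero_add] at e2
    rw [← e1, ← e2, ← hP]
    simp only [mul_zero, add_zero, zero_add, sub_mul, mul_sub, one_mul, mul_one, hbb, hPb, hbP, hPP]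
    congr 1
    · abel
    · abel
    · abel
    · abel
  rw [e] at h2
  exact h2

end Pool.Agent.H34Z
end

-- from Lib.H34Z.G04
section

/-!
# G04: the big cell
-/

set_option autoImplicit false
set_option linter.unusedSectionVars false
namespace Pool.Agent.H34Z
open Matrix

variable {m : Type*} [Fintype m] [DecidableEq m] {K : Type*} [Field K] [CharZero K] {Z : Set (Matrix (m ⊕ m) (m ⊕ m) K)}

/-- PROOF. `γ = c * a⁻¹`, `β = a⁻¹ * b`.  `hM` with `Matrix.fromBlocks_multiply`, `Matrix.fromBlocks_inj` says `aᵀ c + cᵀ a = 0`, `aᵀ d + cᵀ b = 1`,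
`bᵀ d + dᵀ b = 0`.  `γᵀ = -γ`: multiply `aᵀ c + cᵀ a = 0` with `(a⁻¹)ᵀ` from the left and `a⁻¹` from the right.  `d = (a⁻¹)ᵀ - (a⁻¹)ᵀ cᵀ b = (a⁻¹)ᵀ + γ b`
(`(a⁻¹)ᵀ cᵀ = γᵀ`).  So `M = lo γ * lv a * up β` (`= fromBlocks a (a β) (γ a) (γ a β + (a⁻¹)ᵀ)`).  `βᵀ = -β`: from `bᵀ d + dᵀ b = 0` with
`d = (a⁻¹)ᵀ + γ b`: `bᵀ (a⁻¹)ᵀ + bᵀ γ b + a⁻¹ b + bᵀ γᵀ b = βᵀ + β`. -/
theorem cell_fac {a b c d : Matrix m m K} (ha : a.det ≠ 0)
    (hM : (Matrix.fromBlocks a b c d)ᵀ * J0 m K * Matrix.fromBlocks a b c d = J0 m K) :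
    ∃ γ β : Matrix m m K, γᵀ = -γ ∧ βᵀ = -β ∧ Matrix.fromBlocks a b c d = lo γ * lv a * up β := by
  have hu : IsUnit a.det := isUnit_iff_ne_zero.2 ha
  have hA1 : a * a⁻¹ = 1 := Matrix.mul_nonsing_inv a hu
  have hA2 : a⁻¹ * a = 1 := Matrix.nonsing_inv_mul a hu
  have hT1 : (a⁻¹)ᵀ * aᵀ = 1 := by
    rw [← Matrix.transpose_mul, hA1, Matrix.transpose_one]
  unfold J0 at hM
  rw [Matrix.fromBlocks_transpose, Matrix.fromBlocks_multiply, Matrix.fromBlocks_multiply] at hM
  simp only [Matrix.mul_zero, Matrix.mul_one, add_zero, zero_add] at hM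
  rw [Matrix.fromBlocks_inj] at hM
  obtain ⟨h1, h2, h3, h4⟩ := hM
  have hγ : (c * a⁻¹)ᵀ = -(c * a⁻¹) := by
    rw [Matrix.transpose_mul]
    refine eq_neg_of_add_eq_zero_left ?_
    calc (a⁻¹)ᵀ * cᵀ + c * a⁻¹ = (a⁻¹)ᵀ * cᵀ * (a * a⁻¹) + (a⁻¹)ᵀ * aᵀ * c * a⁻¹ := by
          rw [hA1, hT1, Matrix.mul_one, Matrix.one_mul]
      _ = (a⁻¹)ᵀ * (cᵀ * a + aᵀ * c) * a⁻¹ := by
          simp only [Matrix.mul_add, Matrix.add_mul, Matrix.mul_assoc]
      _ = 0 := by
          rw [h1, Matrix.mul_zero, Matrix.zero_mul]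
  have hd : d = (a⁻¹)ᵀ + c * a⁻¹ * b := by
    have h5 : (a⁻¹)ᵀ * (cᵀ * b + aᵀ * d) = (a⁻¹)ᵀ := by
      rw [h2, Matrix.mul_one]
    rw [Matrix.mul_add, ← Matrix.mul_assoc, ← Matrix.mul_assoc, hT1, Matrix.one_mul, ← Matrix.transpose_mul, hγ,
      Matrix.neg_mul] at h5
    rw [← h5]
    abel
  have hβ : (a⁻¹ * b)ᵀ = -(a⁻¹ * b) := by
    refine eq_neg_of_add_eq_zero_left ?_
    have h6 : dᵀ = a⁻¹ - bᵀ * (c * a⁻¹) := by
      rw [hd, Matrix.transpose_add, Matrix.transpose_transpose, Matrix.transpose_mul, hγ, Matrix.mul_neg, sub_eq_add_neg]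
    rw [h6] at h4
    rw [Matrix.transpose_mul]
    calc bᵀ * (a⁻¹)ᵀ + a⁻¹ * b = (a⁻¹ - bᵀ * (c * a⁻¹)) * b + bᵀ * ((a⁻¹)ᵀ + c * a⁻¹ * b) := by
          rw [Matrix.sub_mul, Matrix.mul_add]
          simp only [Matrix.mul_assoc]
          abel
      _ = 0 := by
          rw [← hd]
          exact h4
  refine ⟨c * a⁻¹, a⁻¹ * b, hγ, hβ, ?_⟩
  unfold lo lv up
  rw [Matrix.fromBlocks_multiply, Matrix.fromBlocks_multiply]
  simp only [Matrix.mul_zero, Matrix.zero_mul, Matrix.mul_one, Matrix.one_mul, add_zero, zero_add]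
  rw [Matrix.fromBlocks_inj]
  refine ⟨rfl, ?_, ?_, ?_⟩
  · rw [← Matrix.mul_assoc, hA1, Matrix.one_mul]
  · rw [Matrix.mul_assoc, hA2, Matrix.mul_one]
  · have h7 : c * a⁻¹ * a * (a⁻¹ * b) = c * a⁻¹ * b := by
      rw [Matrix.mul_assoc c, hA2, Matrix.mul_one, ← Matrix.mul_assoc]
    rw [h7, hd]
    abel

/-- PROOF. `cell_fac`, `lo_mem`, `lv_gl`, `up_mem`; the determinant: `Matrix.det_fromBlocks_zero₂₁`, `Matrix.det_fromBlocks_zero₁₂`:
`det (lo γ) = det (up β) = 1`, `det (lv a) = a.det * (a⁻¹).det = 1`. -/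
theorem cell_mem [IsAlgClosed K] (hZ : Zs (J0 m K) Z) (h2 : 2 ≤ Fintype.card m) {a b c d : Matrix m m K} (ha : a.det ≠ 0)
    (hM : (Matrix.fromBlocks a b c d)ᵀ * J0 m K * Matrix.fromBlocks a b c d = J0 m K) :
    Matrix.fromBlocks a b c d ∈ Z ∧ (Matrix.fromBlocks a b c d).det = 1 := by
  obtain ⟨γ, β, hγ, hβ, h⟩ := cell_fac ha hM
  have hu : IsUnit a.det := isUnit_iff_ne_zero.2 ha
  rw [h]
  refine ⟨hZ.mul _ (hZ.mul _ (lo_mem hZ hγ) _ (lv_gl hZ h2 ha)) _ (up_mem hZ hβ), ?_⟩
  rw [Matrix.det_mul, Matrix.det_mul]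
  have h5 : (lo γ : Matrix (m ⊕ m) (m ⊕ m) K).det = 1 := by
    unfold lo
    rw [Matrix.det_fromBlocks_zero₁₂, Matrix.det_one, one_mul]
  have h6 : (up β : Matrix (m ⊕ m) (m ⊕ m) K).det = 1 := by
    unfold up
    rw [Matrix.det_fromBlocks_zero₂₁, Matrix.det_one, one_mul]
  have h7 : (lv a : Matrix (m ⊕ m) (m ⊕ m) K).det = 1 := by
    unfold lv
    rw [Matrix.det_fromBlocks_zero₂₁, Matrix.det_transpose, ← Matrix.det_mul, Matrix.mul_nonsing_inv a hu, Matrix.det_one]
  rw [h5, h6, h7, one_mul, one_mul]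

end Pool.Agent.H34Z
end

-- from Lib.H34Z.G05
section

/-!
# G05: swaps
-/

set_option autoImplicit false
set_option linter.unusedSectionVars false
namespace Pool.Agent.H34Z
open Matrix

variable {m : Type*} [Fintype m] [DecidableEq m] {K : Type*} [Field K] [CharZero K] {Z : Set (Matrix (m ⊕ m) (m ⊕ m) K)}

/-- PROOF. Multiply the blocks, `Matrix.diagonal_mul_diagonal`; compare entries for `k` in and outside `T`, `T'`. -/
theorem sw_mul {T T' : Finset m} (h : Disjoint T T') : sw K T * sw K T' = sw K (T ∪ T') := by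
  have h1 : ∀ k, k ∈ T → k ∉ T' := fun k hk hk' => Finset.disjoint_left.1 h hk hk'
  unfold sw
  rw [fromBlocks_multiply]
  simp only [diagonal_mul_diagonal, diagonal_add]
  congr 1
  · congr 1
    funext k
    by_cases hk : k ∈ T
    · simp [hk, h1 k hk]
    · simp [hk]
  · congr 1
    funext k
    by_cases hk : k ∈ T
    · simp [hk, h1 k hk]
    · simp [hk]
  · congr 1
    funext k
    by_cases hk : k ∈ T
    · simp [hk, h1 k hk]
    · simp [hk]
  · congr 1
    funext k
    by_cases hk : k ∈ T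
    · simp [hk, h1 k hk]
    · simp [hk]

theorem sw_sq (T : Finset m) : sw K T * sw K T = 1 := by
  unfold sw
  rw [fromBlocks_multiply]
  simp only [diagonal_mul_diagonal, diagonal_add]
  rw [← fromBlocks_one]
  congr 1
  · rw [← diagonal_one]
    congr 1
    funext k
    by_cases hk : k ∈ T <;> simp [hk]
  · rw [← diagonal_zero]
    congr 1
    funext k
    by_cases hk : k ∈ T <;> simp [hk]
  · rw [← diagonal_zero]
    congr 1
    funext k
    by_cases hk : k ∈ T <;> simp [hk]
  · rw [← diagonal_one]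
    congr 1
    funext k
    by_cases hk : k ∈ T <;> simp [hk]

theorem sw_form (T : Finset m) : (sw K T)ᵀ * J0 m K * sw K T = J0 m K := by
  unfold sw J0
  rw [fromBlocks_transpose, fromBlocks_multiply, fromBlocks_multiply]
  simp only [diagonal_transpose, Matrix.mul_zero, Matrix.mul_one, zero_add, add_zero,
    diagonal_mul_diagonal, diagonal_add]
  congr 1
  · rw [← diagonal_zero]
    congr 1
    funext k
    by_cases hk : k ∈ T <;> simp [hk]
  · rw [← diagonal_one]
    congr 1
    funext k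
    by_cases hk : k ∈ T <;> simp [hk]
  · rw [← diagonal_one]
    congr 1
    funext k
    by_cases hk : k ∈ T <;> simp [hk]
  · rw [← diagonal_zero]
    congr 1
    funext k
    by_cases hk : k ∈ T <;> simp [hk]

/-- PROOF. Induction on `T` with `sw_mul` and `det (sw K {i}) = -1`: `sw K {i}` is the matrix of the transposition of `inl i` and `inr i`
(`Matrix.det_permutation`, `Equiv.Perm.sign_swap`; or use `Matrix.det_fromBlocks₁₁` after a column operation). -/
theorem sw_det (T : Finset m) : (sw K T).det = (-1) ^ T.card := by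
  have h1 : (fromBlocks (1 : Matrix m m K) (0 : Matrix m m K) (1 : Matrix m m K) (1 : Matrix m m K)).det = 1 := by
    rw [det_fromBlocks_zero₁₂, det_one, mul_one]
  have h2 : sw K T * fromBlocks (1 : Matrix m m K) (0 : Matrix m m K) (1 : Matrix m m K) (1 : Matrix m m K) =
      fromBlocks 1 (Matrix.diagonal fun k => if k ∈ T then 1 else 0) 1
        (Matrix.diagonal fun k => if k ∈ T then 0 else 1) := by
    unfold sw
    rw [fromBlocks_multiply]
    simp only [Matrix.mul_zero, Matrix.mul_one, zero_add, diagonal_add]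
    congr 1
    · rw [← diagonal_one]
      congr 1
      funext k
      by_cases hk : k ∈ T <;> simp [hk]
    · rw [← diagonal_one]
      congr 1
      funext k
      by_cases hk : k ∈ T <;> simp [hk]
  have h3 := congrArg Matrix.det h2
  rw [det_mul, h1, mul_one, det_fromBlocks_one₁₁, Matrix.one_mul, diagonal_sub, det_diagonal] at h3
  rw [h3]
  have h4 : ∀ k, ((if k ∈ T then (0 : K) else 1) - if k ∈ T then 1 else 0) =
      if k ∈ T then (-1 : K) else 1 := by
    intro k
    by_cases hk : k ∈ T <;> simp [hk]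
  rw [Finset.prod_congr rfl fun k _ => h4 k, Finset.prod_ite_mem, Finset.univ_inter,
    Finset.prod_const]

/-- PROOF. Strong induction on `T.card`: if `T` is not empty it has two different elements `i`, `j` (even), `T = {i, j} ∪ T'`, `sw_mul`, `sw_pair`. -/
theorem sw_even [IsAlgClosed K] (hZ : Zs (J0 m K) Z) (h2 : 2 ≤ Fintype.card m) {T : Finset m} (hT : Even T.card) : sw K T ∈ Z := by
  obtain ⟨n, hn⟩ : ∃ n, T.card = n := ⟨_, rfl⟩
  induction n using Nat.strong_induction_on generalizing T with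
  | _ n ih =>
    rcases T.eq_empty_or_nonempty with h0 | ⟨i, hi⟩
    · have h3 : sw K (∅ : Finset m) = 1 := by
        unfold sw
        simp
      rw [h0, h3]
      exact hZ.one
    · have h4 : 0 < T.card := Finset.card_pos.2 ⟨i, hi⟩
      have h5 : (T.erase i).card = T.card - 1 := Finset.card_erase_of_mem hi
      have h6 : 0 < (T.erase i).card := by
        obtain ⟨r, hr⟩ := hT
        omega
      obtain ⟨j, hj⟩ := Finset.card_pos.1 h6
      have h7 : ((T.erase i).erase j).card = (T.erase i).card - 1 := Finset.card_erase_of_mem hj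
      have hij : i ≠ j := fun h => (Finset.mem_erase.1 hj).1 h.symm
      have h8 : T = {i, j} ∪ (T.erase i).erase j := by
        ext k
        simp only [Finset.mem_union, Finset.mem_insert, Finset.mem_singleton, Finset.mem_erase]
        constructor
        · intro hk
          by_cases h9 : k = i
          · exact Or.inl (Or.inl h9)
          · by_cases h10 : k = j
            · exact Or.inl (Or.inr h10)
            · exact Or.inr ⟨h10, h9, hk⟩
        · rintro ((h9 | h9) | ⟨_, _, h9⟩)
          · rw [h9]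
            exact hi
          · rw [h9]
            exact (Finset.mem_erase.1 hj).2
          · exact h9
      have h9 : Disjoint ({i, j} : Finset m) ((T.erase i).erase j) := by
        rw [Finset.disjoint_left]
        intro k hk hk'
        rw [Finset.mem_insert, Finset.mem_singleton] at hk
        rw [Finset.mem_erase, Finset.mem_erase] at hk'
        rcases hk with hk | hk
        · exact hk'.2.1 hk
        · exact hk'.1 hk
      have h10 : sw K ((T.erase i).erase j) ∈ Z := by
        refine ih _ ?_ ?_ rfl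
        · omega
        · obtain ⟨r, hr⟩ := hT
          exact ⟨r - 1, by omega⟩
      rw [h8, ← sw_mul h9]
      exact hZ.mul _ (sw_pair hZ h2 hij) _ h10

end Pool.Agent.H34Z
end

-- from Lib.H34Z.G06
section

/-!
# G06: the special orthogonal group is generated by the elements 1 + N
-/

set_option autoImplicit false
set_option linter.unusedSectionVars false
namespace Pool.Agent.H34Z
open Matrix

variable {m : Type*} [Fintype m] [DecidableEq m] {K : Type*} [Field K] [CharZero K] {Z : Set (Matrix (m ⊕ m) (m ⊕ m) K)}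

/-- PROOF. `fromBlocks a b c d` is invertible, so `a *ᵥ v = 0` and `c *ᵥ v = 0` imply `v = 0` (apply the matrix to `Sum.elim v 0`).  Let `A` be a set of rows of `a`
which is a basis of the span of the rows (`exists_linearIndependent'` for `fun i => a i`; `A` the image), `T = Aᶜ`.  The upper left block of
`sw K T * fromBlocks a b c d` has the rows `a i`, `i ∈ A`, and `c i`, `i ∉ A`.  Let `v` be in its kernel (`Matrix.exists_mulVec_eq_zero_iff`; to show `v = 0`):
`a i ⬝ᵥ v = 0` for `i ∈ A`, so for all `i` (span): `a *ᵥ v = 0`; `c i ⬝ᵥ v = 0` for `i ∉ A`.  By `aᵀ c + cᵀ a = 0` (the first block of `hM`):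
`(a *ᵥ w) ⬝ᵥ (c *ᵥ v) = -(c *ᵥ w) ⬝ᵥ (a *ᵥ v) = 0` for all `w`.  For `i₀ ∈ A` there is `w` with `a i ⬝ᵥ w = δ i i₀` for `i ∈ A` (the rows in `A` are independent:
`LinearIndependent.rank_matrix`, so `w ↦ (a i ⬝ᵥ w)_{i ∈ A}` is surjective).  Then `0 = (a *ᵥ w) ⬝ᵥ (c *ᵥ v) = ∑_{i ∈ A} (a i ⬝ᵥ w) (c i ⬝ᵥ v) = c i₀ ⬝ᵥ v`.
So `c *ᵥ v = 0` and `v = 0`. -/
theorem exists_sw {a b c d : Matrix m m K}
    (hM : (Matrix.fromBlocks a b c d)ᵀ * J0 m K * Matrix.fromBlocks a b c d = J0 m K) :
    ∃ T : Finset m, ((sw K T * Matrix.fromBlocks a b c d).toBlocks₁₁).det ≠ 0 := by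
  classical
  unfold J0 at hM
  rw [Matrix.fromBlocks_transpose, Matrix.fromBlocks_multiply, Matrix.fromBlocks_multiply, Matrix.fromBlocks_inj] at hM
  obtain ⟨h1, -, h2, -⟩ := hM
  simp only [mul_zero, mul_one, zero_add, add_zero] at h1 h2
  obtain ⟨κ, f, hf, hsp, hli⟩ := exists_linearIndependent' K (fun i => a i)
  have : Finite κ := Finite.of_injective f hf
  have : Fintype κ := Fintype.ofFinite κ
  refine ⟨Finset.univ.filter fun i => i ∉ Set.range f, fun hdet => ?_⟩
  obtain ⟨v, hv, hv2⟩ := Matrix.exists_mulVec_eq_zero_iff.2 hdet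
  have hB : ∀ i, (if i ∈ Set.range f then (a *ᵥ v) i else (c *ᵥ v) i) = 0 := by
    intro i
    have h3 := congrFun hv2 i
    unfold sw at h3
    rw [Matrix.fromBlocks_multiply, Matrix.toBlocks_fromBlocks₁₁, Matrix.add_mulVec, Pi.add_apply, ← Matrix.mulVec_mulVec,
      ← Matrix.mulVec_mulVec, Matrix.mulVec_diagonal, Matrix.mulVec_diagonal, Pi.zero_apply] at h3
    by_cases h4 : i ∈ Set.range f
    · have h5 : i ∉ Finset.univ.filter fun i => i ∉ Set.range f := by
        rw [Finset.mem_filter]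
        exact fun h => h.2 h4
      rw [if_neg h5, if_neg h5, one_mul, zero_mul, add_zero] at h3
      rw [if_pos h4]
      exact h3
    · have h5 : i ∈ Finset.univ.filter fun i => i ∉ Set.range f := Finset.mem_filter.2 ⟨Finset.mem_univ i, h4⟩
      rw [if_pos h5, if_pos h5, one_mul, zero_mul, zero_add] at h3
      rw [if_neg h4]
      exact h3
  have ha : a *ᵥ v = 0 := by
    let φ : (m → K) →ₗ[K] K :=
      { toFun := fun r => r ⬝ᵥ v
        map_add' := fun x y => add_dotProduct x y v
        map_smul' := fun t x => smul_dotProduct t x v }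
    have h3 : Submodule.span K (Set.range ((fun i => a i) ∘ f)) ≤ LinearMap.ker φ := by
      rw [Submodule.span_le]
      rintro x ⟨k, rfl⟩
      have h4 := hB (f k)
      rw [if_pos ⟨k, rfl⟩] at h4
      exact h4
    rw [hsp] at h3
    funext i
    exact h3 (Submodule.subset_span ⟨i, rfl⟩)
  have hc : c *ᵥ v = 0 := by
    have h3 : (c *ᵥ v) ᵥ* a = 0 := by
      rw [← Matrix.mulVec_transpose, Matrix.mulVec_mulVec]
      have h4 : aᵀ * c = -(cᵀ * a) := by
        rw [eq_neg_iff_add_eq_zero, add_comm]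
        exact h1
      rw [h4, Matrix.neg_mulVec, ← Matrix.mulVec_mulVec, ha, Matrix.mulVec_zero, neg_zero]
    have h5 : ∀ i, i ∉ Set.range f → (c *ᵥ v) i = 0 := by
      intro i hi
      have h6 := hB i
      rwa [if_neg hi] at h6
    have h7 : ∑ k, (c *ᵥ v) (f k) • ((fun i => a i) ∘ f) k = 0 := by
      rw [Fintype.sum_of_injective f hf (fun k => (c *ᵥ v) (f k) • ((fun i => a i) ∘ f) k) (fun i => (c *ᵥ v) i • a i)
        (fun i hi => by rw [h5 i hi, zero_smul]) (fun k => rfl)]
      rw [← Matrix.vecMul_eq_sum]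
      exact h3
    have h8 := Fintype.linearIndependent_iff.1 hli (fun k => (c *ᵥ v) (f k)) h7
    funext i
    by_cases hi : i ∈ Set.range f
    · obtain ⟨k, rfl⟩ := hi
      exact h8 k
    · exact h5 i hi
  apply hv
  have h9 : (dᵀ * a + bᵀ * c) *ᵥ v = v := by
    rw [h2, Matrix.one_mulVec]
  rw [← h9, Matrix.add_mulVec, ← Matrix.mulVec_mulVec, ← Matrix.mulVec_mulVec, ha, hc, Matrix.mulVec_zero, Matrix.mulVec_zero,
    add_zero]

/-- PROOF. `M = fromBlocks ..` (`Matrix.fromBlocks_toBlocks`), `T` from `exists_sw`, `M' = sw K T * M`, which preserves `J0` (`sw_form`).  `cell_mem`: `M' ∈ Z`,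
`M'.det = 1`; so `(-1) ^ T.card = 1` (`sw_det`, `hdet`) and `T.card` is even (char zero, `neg_one_pow_eq_one_iff_even`).  `M = sw K T * M'` (`sw_sq`),
`sw_even`. -/
theorem gen_so0 [IsAlgClosed K] (hZ : Zs (J0 m K) Z) (h2 : 2 ≤ Fintype.card m) {M : Matrix (m ⊕ m) (m ⊕ m) K}
    (hM : Mᵀ * J0 m K * M = J0 m K) (hdet : M.det = 1) : M ∈ Z := by
  obtain ⟨T, hT⟩ : ∃ T : Finset m, ((sw K T * M).toBlocks₁₁).det ≠ 0 := by
    have h1 : (Matrix.fromBlocks M.toBlocks₁₁ M.toBlocks₁₂ M.toBlocks₂₁ M.toBlocks₂₂)ᵀ * J0 m K *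
        Matrix.fromBlocks M.toBlocks₁₁ M.toBlocks₁₂ M.toBlocks₂₁ M.toBlocks₂₂ = J0 m K := by
      rw [Matrix.fromBlocks_toBlocks]
      exact hM
    have h2 := exists_sw h1
    rwa [Matrix.fromBlocks_toBlocks] at h2
  have hM' : (sw K T * M)ᵀ * J0 m K * (sw K T * M) = J0 m K := by
    calc (sw K T * M)ᵀ * J0 m K * (sw K T * M) = Mᵀ * ((sw K T)ᵀ * J0 m K * sw K T) * M := by
          rw [Matrix.transpose_mul]
          simp only [Matrix.mul_assoc]
      _ = J0 m K := by rw [sw_form, hM]
  have h3 : (Matrix.fromBlocks (sw K T * M).toBlocks₁₁ (sw K T * M).toBlocks₁₂ (sw K T * M).toBlocks₂₁ (sw K T * M).toBlocks₂₂)ᵀ *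
      J0 m K * Matrix.fromBlocks (sw K T * M).toBlocks₁₁ (sw K T * M).toBlocks₁₂ (sw K T * M).toBlocks₂₁
        (sw K T * M).toBlocks₂₂ = J0 m K := by
    rw [Matrix.fromBlocks_toBlocks]
    exact hM'
  obtain ⟨h4, h5⟩ := cell_mem hZ h2 hT h3
  rw [Matrix.fromBlocks_toBlocks] at h4 h5
  rw [Matrix.det_mul, sw_det, hdet, mul_one] at h5
  have h6 : Even T.card := (neg_one_pow_eq_one_iff_even (by norm_num)).1 h5
  have h7 : M = sw K T * (sw K T * M) := by
    rw [← Matrix.mul_assoc, sw_sq, Matrix.one_mul]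
  rw [h7]
  exact hZ.mul _ (sw_even hZ h2 h6) _ h4

end Pool.Agent.H34Z
end

-- from Lib.H86N.P7e
section

/-!
# P7e: irreducible Clifford modules have forms, up to one parity
-/

set_option autoImplicit false
set_option linter.unusedSectionVars false
namespace Pool.Agent.H86N
open Module Pool.Agent.H49M

variable {K : Type*} [Field K]

/-- There is a nonzero bilinear form. -/
theorem P7e_form {W : Type*} [AddCommGroup W] [Module K W] [Nontrivial W] :
    ∃ b : W →ₗ[K] W →ₗ[K] K, b ≠ 0 := by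
  obtain ⟨u, hu⟩ := exists_ne (0 : W)
  obtain ⟨φ, hφ⟩ := Module.Projective.exists_dual_ne_zero (R := K) hu
  refine ⟨φ.smulRight φ, fun h0 => ?_⟩
  have h1 : (φ.smulRight φ : W →ₗ[K] W →ₗ[K] K) u u = 0 := by rw [h0]; rfl
  have h2 : φ u * φ u = 0 := h1
  exact hφ (mul_self_eq_zero.1 h2)

/-- On a line every operator is scalar. -/
theorem P7e_scalar {W : Type*} [AddCommGroup W] [Module K W] (h1 : finrank K W = 1)
    (T : Module.End K W) : ∃ c : K, T = c • 1 := by
  obtain ⟨v, hv, hspan⟩ := finrank_eq_one_iff'.1 h1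
  obtain ⟨c, hc⟩ := hspan (T v)
  refine ⟨c, ?_⟩
  ext x
  obtain ⟨d, rfl⟩ := hspan x
  rw [map_smul, ← hc, LinearMap.smul_apply, Module.End.one_apply, smul_comm]

/-- As `P7_cliff`: there is a form for which the operators are self-adjoint (or skew), up to one parity. -/
theorem P7_exists [CharZero K] [IsAlgClosed K] (n : ℕ) : ∀ (W : Type*) [AddCommGroup W]
    [Module K W] [FiniteDimensional K W] [Nontrivial W] (J : Submodule K (Module.End K W)),
    finrank K W = n → (∀ w ∈ J, ∃ c : K, w * w = c • 1) →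
    (∀ U : Submodule K W, (∀ w ∈ J, ∀ u ∈ U, w u ∈ U) → U = ⊥ ∨ U = ⊤) →
    ∀ (δ : K), (δ = 1 ∨ δ = -1) →
    ∃ t : ℕ, finrank K W = 2 ^ t ∧ ((∃ b : W →ₗ[K] W →ₗ[K] K, b ≠ 0 ∧
      ∀ c ∈ J, ∀ v w, b (c v) w = δ * b v (c w)) ∨ δ * (-1) ^ t = -1) := by
  induction n using Nat.strong_induction_on with
  | _ n ih =>
  intro W _ _ _ _ J hn hJ hirr δ hδ
  by_cases hA : ∃ w₁ ∈ J, ∃ w₂ ∈ J, w₁ * w₁ = 1 ∧ w₂ * w₂ = 1 ∧ w₁ * w₂ = -(w₂ * w₁)
  · obtain ⟨w₁, hw₁, w₂, hw₂, h11, h22, h12⟩ := hA
    obtain ⟨i, hi⟩ := IsAlgClosed.exists_pow_nat_eq (-1 : K) (n := 2) (by norm_num)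
    have hi0 : i ≠ 0 := by rintro rfl; norm_num at hi
    obtain ⟨θ, hθ⟩ : ∃ θ, θ = w₁ * w₂ := ⟨_, rfl⟩
    have h21 : w₂ * w₁ = -(w₁ * w₂) := by rw [h12, neg_neg]
    have hθθ : θ * θ = -1 := by
      rw [hθ]
      calc w₁ * w₂ * (w₁ * w₂) = w₁ * (w₂ * w₁) * w₂ := by noncomm_ring
        _ = -((w₁ * w₁) * (w₂ * w₂)) := by rw [h21]; noncomm_ring
        _ = -1 := by rw [h11, h22, one_mul]
    have hw1θ : w₁ * θ = w₂ := by rw [hθ, ← mul_assoc, h11, one_mul]
    have hθw1 : θ * w₁ = -w₂ := by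
      rw [hθ, mul_assoc, h21, mul_neg, ← mul_assoc, h11, one_mul]
    obtain ⟨W₁, hW₁⟩ : ∃ W₁ : Submodule K W, W₁ = LinearMap.ker (θ - i • 1) := ⟨_, rfl⟩
    obtain ⟨W₂, hW₂⟩ : ∃ W₂ : Submodule K W, W₂ = LinearMap.ker (θ + i • 1) := ⟨_, rfl⟩
    have m1 : ∀ {v : W}, v ∈ W₁ ↔ θ v = i • v := by
      intro v
      rw [hW₁, LinearMap.mem_ker, LinearMap.sub_apply, LinearMap.smul_apply,
        Module.End.one_apply, sub_eq_zero]
    have m2 : ∀ {v : W}, v ∈ W₂ ↔ θ v = -(i • v) := by
      intro v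
      rw [hW₂, LinearMap.mem_ker, LinearMap.add_apply, LinearMap.smul_apply,
        Module.End.one_apply]
      constructor
      · intro h; exact eq_neg_of_add_eq_zero_left h
      · intro h; rw [h]; simp
    have hθv : ∀ v, θ (θ v) = -v := by
      intro v
      rw [← Module.End.mul_apply, hθθ]; rfl
    have h1v : ∀ v, w₁ (w₁ v) = v := by
      intro v
      rw [← Module.End.mul_apply, h11]; rfl
    have hθ1 : ∀ v, θ (w₁ v) = -(w₁ (θ v)) := by
      intro v
      rw [← Module.End.mul_apply, hθw1, ← Module.End.mul_apply, hw1θ]; rfl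
    have hinj : Function.Injective w₁ := by
      intro a b hab
      rw [← h1v a, hab, h1v]
    have hmap : W₁.map w₁ = W₂ := by
      ext v
      constructor
      · rintro ⟨u, hu, rfl⟩
        rw [m2, hθ1, m1.mp hu, map_smul]
      · intro hv
        refine ⟨w₁ v, ?_, h1v v⟩
        rw [SetLike.mem_coe, m1, hθ1, m2.mp hv, map_neg, neg_neg, map_smul]
    have hfin : finrank K W₁ = finrank K W₂ := by
      rw [← hmap]
      exact (Submodule.equivMapOfInjective w₁ hinj W₁).finrank_eq
    have hinf : W₁ ⊓ W₂ = ⊥ := by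
      rw [eq_bot_iff]
      rintro v ⟨hv1, hv2⟩
      have e1 := m1.mp hv1
      have e2 := m2.mp hv2
      rw [e1] at e2
      have e3 : (2 * i) • v = 0 := by
        rw [two_mul, add_smul]
        nth_rewrite 1 [e2]
        exact neg_add_cancel _
      rw [Submodule.mem_bot]
      exact (smul_eq_zero.mp e3).resolve_left (mul_ne_zero two_ne_zero hi0)
    have hsup : W₁ ⊔ W₂ = ⊤ := by
      rw [eq_top_iff]
      intro v _
      rw [Submodule.mem_sup]
      have hii : i * i = -1 := by rw [← hi]; ring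
      refine ⟨(1 / 2 : K) • (v - i • θ v), ?_, (1 / 2 : K) • (v + i • θ v), ?_, ?_⟩
      · have e1 : i • (v - i • θ v) = i • v + θ v := by
          rw [smul_sub, smul_smul, hii, neg_one_smul, sub_neg_eq_add]
        rw [m1, map_smul, map_sub, map_smul, hθv, smul_comm i, e1, smul_neg, sub_neg_eq_add,
          add_comm]
      · have e1 : i • (v + i • θ v) = i • v - θ v := by
          rw [smul_add, smul_smul, hii, neg_one_smul, ← sub_eq_add_neg]
        rw [m2, map_smul, map_add, map_smul, hθv, smul_comm i, e1]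
        module
      · rw [← smul_add]
        have : v - i • θ v + (v + i • θ v) = (2 : K) • v := by rw [two_smul]; abel
        rw [this, smul_smul]; norm_num
    have hdim : finrank K W = 2 * finrank K W₁ := by
      have := Submodule.finrank_sup_add_finrank_inf_eq W₁ W₂
      rw [hinf, hsup, finrank_bot, finrank_top, ← hfin] at this
      omega
    have hpos : 0 < finrank K W := finrank_pos
    have hW₁pos : 0 < finrank K W₁ := by omega
    have : Nontrivial W₁ := finrank_pos_iff.mp hW₁pos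
    -- the smaller space of operators
    let J' : Submodule K (Module.End K W₁) :=
      { carrier := {T | ∃ w ∈ J, w * w₁ = -(w₁ * w) ∧ w * w₂ = -(w₂ * w) ∧
          ∀ u : W₁, ((T u : W₁) : W) = w u}
        add_mem' := by
          rintro S T ⟨a, ha, a1, a2, a3⟩ ⟨b, hb, b1, b2, b3⟩
          refine ⟨a + b, J.add_mem ha hb, ?_, ?_, ?_⟩
          · rw [add_mul, a1, b1, mul_add]; abel
          · rw [add_mul, a2, b2, mul_add]; abel
          · intro u
            rw [LinearMap.add_apply, LinearMap.add_apply, Submodule.coe_add, a3, b3]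
        zero_mem' := ⟨0, J.zero_mem, by simp, by simp, by simp⟩
        smul_mem' := by
          rintro c T ⟨a, ha, a1, a2, a3⟩
          refine ⟨c • a, J.smul_mem c ha, ?_, ?_, ?_⟩
          · rw [smul_mul_assoc, a1, mul_smul_comm, smul_neg]
          · rw [smul_mul_assoc, a2, mul_smul_comm, smul_neg]
          · intro u
            rw [LinearMap.smul_apply, LinearMap.smul_apply, Submodule.coe_smul, a3] }
    have hstab : ∀ w : Module.End K W, w * w₁ = -(w₁ * w) → w * w₂ = -(w₂ * w) →
        ∀ u ∈ W₁, w u ∈ W₁ := by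
      intro w a1 a2 u hu
      have : w * θ = θ * w := by
        rw [hθ, ← mul_assoc, a1, neg_mul, mul_assoc w₁ w, a2, mul_neg, neg_neg, mul_assoc]
      rw [m1] at hu ⊢
      rw [← Module.End.mul_apply, ← this, Module.End.mul_apply, hu, map_smul]
    have hsq : ∀ w ∈ J', ∃ c : K, w * w = c • 1 := by
      rintro T ⟨w, hw, a1, a2, a3⟩
      obtain ⟨c, hc⟩ := hJ w hw
      refine ⟨c, ?_⟩
      ext u
      have : w (w u) = c • (u : W) := by
        rw [← Module.End.mul_apply, hc]; rfl
      rw [Module.End.mul_apply, a3, a3, this]; rfl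
    have hirr' : ∀ U : Submodule K W₁, (∀ w ∈ J', ∀ u ∈ U, w u ∈ U) → U = ⊥ ∨ U = ⊤ := by
      intro Y hY
      by_cases hY0 : Y = ⊥
      · exact Or.inl hY0
      right
      obtain ⟨Z, hZ⟩ : ∃ Z : Submodule K W, Z = Y.map W₁.subtype := ⟨_, rfl⟩
      have hZW : ∀ z ∈ Z, z ∈ W₁ := by
        rw [hZ]; rintro _ ⟨y, _, rfl⟩; exact y.2
      have hZst : ∀ w ∈ J, w * w₁ = -(w₁ * w) → w * w₂ = -(w₂ * w) → ∀ z ∈ Z, w z ∈ Z := by
        intro w hw a1 a2
        rw [hZ]
        rintro _ ⟨y, hy, rfl⟩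
        refine ⟨_, hY (w.restrict (hstab w a1 a2)) ⟨w, hw, a1, a2, fun u => rfl⟩ y hy, rfl⟩
      have htop : Z ⊔ Z.map w₁ = ⊤ := by
        refine (hirr _ ?_).resolve_left ?_
        · intro w hw u hu
          obtain ⟨c1, hc1⟩ := P7_polar hJ hw hw₁
          obtain ⟨c2, hc2⟩ := P7_polar hJ hw hw₂
          obtain ⟨w', hw'⟩ : ∃ w', w' = w - (c1 / 2) • w₁ - (c2 / 2) • w₂ := ⟨_, rfl⟩
          have hw'J : w' ∈ J := by
            rw [hw']
            exact J.sub_mem (J.sub_mem hw (J.smul_mem _ hw₁)) (J.smul_mem _ hw₂)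
          have a1 : w' * w₁ = -(w₁ * w') := by
            rw [eq_neg_iff_add_eq_zero, hw']
            have : (w - (c1 / 2) • w₁ - (c2 / 2) • w₂) * w₁ +
                w₁ * (w - (c1 / 2) • w₁ - (c2 / 2) • w₂) = (w * w₁ + w₁ * w) -
                (c1 / 2) • (w₁ * w₁ + w₁ * w₁) - (c2 / 2) • (w₂ * w₁ + w₁ * w₂) := by
              simp only [sub_mul, mul_sub, smul_mul_assoc, mul_smul_comm, smul_add]
              abel
            rw [this, hc1, h11, h21, neg_add_cancel, smul_zero, sub_zero, ← two_smul K, smul_smul,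
              ← sub_smul]
            rw [div_mul_cancel₀ c1 two_ne_zero, sub_self, zero_smul]
          have a2 : w' * w₂ = -(w₂ * w') := by
            rw [eq_neg_iff_add_eq_zero, hw']
            have : (w - (c1 / 2) • w₁ - (c2 / 2) • w₂) * w₂ +
                w₂ * (w - (c1 / 2) • w₁ - (c2 / 2) • w₂) = (w * w₂ + w₂ * w) -
                (c2 / 2) • (w₂ * w₂ + w₂ * w₂) - (c1 / 2) • (w₂ * w₁ + w₁ * w₂) := by
              simp only [sub_mul, mul_sub, smul_mul_assoc, mul_smul_comm, smul_add]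
              abel
            rw [this, hc2, h22, h21, neg_add_cancel, smul_zero, sub_zero, ← two_smul K, smul_smul,
              ← sub_smul]
            rw [div_mul_cancel₀ c2 two_ne_zero, sub_self, zero_smul]
          have hwe : w = w' + (c1 / 2) • w₁ + (c2 / 2) • w₂ := by rw [hw']; abel
          have s1 : ∀ z ∈ Z ⊔ Z.map w₁, w₁ z ∈ Z ⊔ Z.map w₁ := by
            intro z hz
            rw [Submodule.mem_sup] at hz
            obtain ⟨y, hy, _, ⟨x, hx, rfl⟩, rfl⟩ := hz
            rw [map_add, h1v]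
            exact add_mem (Submodule.mem_sup_right ⟨y, hy, rfl⟩) (Submodule.mem_sup_left hx)
          have s2 : ∀ z ∈ Z ⊔ Z.map w₁, θ z ∈ Z ⊔ Z.map w₁ := by
            intro z hz
            rw [Submodule.mem_sup] at hz
            obtain ⟨y, hy, _, ⟨x, hx, rfl⟩, rfl⟩ := hz
            rw [map_add, hθ1, m1.mp (hZW y hy), m1.mp (hZW x hx), map_smul]
            exact add_mem (Submodule.mem_sup_left (Z.smul_mem _ hy))
              (neg_mem (Submodule.smul_mem _ _ (Submodule.mem_sup_right ⟨x, hx, rfl⟩)))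
          have s3 : ∀ z ∈ Z ⊔ Z.map w₁, w' z ∈ Z ⊔ Z.map w₁ := by
            intro z hz
            rw [Submodule.mem_sup] at hz
            obtain ⟨y, hy, _, ⟨x, hx, rfl⟩, rfl⟩ := hz
            have e1 : w' (w₁ x) = -(w₁ (w' x)) := by
              rw [← Module.End.mul_apply, a1]; rfl
            rw [map_add, e1]
            exact add_mem (Submodule.mem_sup_left (hZst w' hw'J a1 a2 y hy))
              (neg_mem (Submodule.mem_sup_right ⟨_, hZst w' hw'J a1 a2 x hx, rfl⟩))
          rw [hwe]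
          have e2 : (w' + (c1 / 2) • w₁ + (c2 / 2) • w₂) u =
              w' u + (c1 / 2) • w₁ u + (c2 / 2) • w₁ (θ u) := by
            rw [← Module.End.mul_apply w₁ θ, hw1θ]; rfl
          rw [e2]
          exact add_mem (add_mem (s3 u hu) (Submodule.smul_mem _ _ (s1 u hu)))
            (Submodule.smul_mem _ _ (s1 _ (s2 u hu)))
        · intro h0
          apply hY0
          rw [eq_bot_iff]
          intro y hy
          have h4 : (y : W) ∈ Z ⊔ Z.map w₁ := Submodule.mem_sup_left (by rw [hZ]; exact ⟨y, hy, rfl⟩)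
          rw [h0, Submodule.mem_bot] at h4
          exact Subtype.ext h4
      rw [eq_top_iff]
      rintro ⟨u, hu⟩ -
      have hu1 : u ∈ Z ⊔ Z.map w₁ := by rw [htop]; trivial
      rw [Submodule.mem_sup] at hu1
      obtain ⟨y, hy, _, ⟨x, hx, rfl⟩, hyx⟩ := hu1
      have hx2 : w₁ x ∈ W₁ ⊓ W₂ := by
        constructor
        · have : w₁ x = u - y := by rw [← hyx]; abel
          rw [SetLike.mem_coe, this]
          exact W₁.sub_mem hu (hZW y hy)
        · rw [SetLike.mem_coe, m2, hθ1, m1.mp (hZW x hx), map_smul]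
      rw [hinf, Submodule.mem_bot] at hx2
      rw [hx2, add_zero] at hyx
      rw [hZ] at hy
      obtain ⟨y', hy', hyy⟩ := hy
      have : y' = ⟨u, hu⟩ := Subtype.ext (hyy.trans hyx)
      rwa [← this]
    -- the form on `W`
    have hδδ : δ * δ = 1 := by
      rcases hδ with rfl | rfl <;> norm_num
    obtain ⟨t, ht, hts⟩ := ih (finrank K W₁) (by omega) W₁ J' rfl hsq hirr' (-δ) (by
      rcases hδ with rfl | rfl
      · right; rfl
      · left; rw [neg_neg])
    refine ⟨t + 1, by rw [hdim, ht, pow_succ]; ring, ?_⟩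
    rcases hts with ⟨b₁, hb₁0, hb₁⟩ | hts
    swap
    · right
      rw [pow_succ]
      linear_combination hts
    left
    have hii : i * i = -1 := by rw [← hi]; ring
    have hA1 : ∀ v, ((1 / 2 : K) • (1 - i • θ)) v ∈ W₁ := by
      intro v
      rw [m1, LinearMap.smul_apply, LinearMap.sub_apply, LinearMap.smul_apply, Module.End.one_apply, map_smul,
        map_sub, map_smul, hθv]
      have e1 : i • (v - i • θ v) = i • v + θ v := by
        rw [smul_sub, smul_smul, hii, neg_one_smul, sub_neg_eq_add]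
      rw [smul_comm i, e1, smul_neg, sub_neg_eq_add, add_comm]
    have hA2 : ∀ v, (w₁ * ((1 / 2 : K) • (1 + i • θ))) v ∈ W₁ := by
      intro v
      have hx : θ (((1 / 2 : K) • (1 + i • θ)) v) = -(i • ((1 / 2 : K) • (1 + i • θ)) v) := by
        rw [LinearMap.smul_apply, LinearMap.add_apply, LinearMap.smul_apply, Module.End.one_apply, map_smul,
          map_add, map_smul, hθv]
        have e1 : i • (v + i • θ v) = i • v - θ v := by
          rw [smul_add, smul_smul, hii, neg_one_smul, ← sub_eq_add_neg]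
        rw [smul_comm i, e1]
        module
      rw [m1, Module.End.mul_apply, hθ1, hx, map_neg, neg_neg, map_smul]
    let A : W →ₗ[K] W₁ := LinearMap.codRestrict W₁ ((1 / 2 : K) • (1 - i • θ)) hA1
    let A' : W →ₗ[K] W₁ := LinearMap.codRestrict W₁ (w₁ * ((1 / 2 : K) • (1 + i • θ))) hA2
    have cA : ∀ v, ((A v : W₁) : W) = (1 / 2 : K) • (v - i • θ v) := fun v => rfl
    have cA' : ∀ v, ((A' v : W₁) : W) = w₁ ((1 / 2 : K) • (v + i • θ v)) := fun v => rfl
    have rA1 : ∀ v, A (w₁ v) = A' v := by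
      intro v
      apply Subtype.ext
      rw [cA, cA', hθ1, map_smul, map_add, map_smul]
      module
    have rA1' : ∀ v, A' (w₁ v) = A v := by
      intro v
      apply Subtype.ext
      rw [cA, cA', hθ1, map_smul, map_add, map_smul, map_neg, h1v, h1v]
      module
    have rAθ : ∀ v, A (θ v) = i • A v := by
      intro v
      apply Subtype.ext
      rw [Submodule.coe_smul, cA, cA, hθv]
      have e1 : i • (v - i • θ v) = i • v + θ v := by
        rw [smul_sub, smul_smul, hii, neg_one_smul, sub_neg_eq_add]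
      rw [smul_comm i, e1]
      module
    have rAθ' : ∀ v, A' (θ v) = -(i • A' v) := by
      intro v
      apply Subtype.ext
      rw [Submodule.coe_neg, Submodule.coe_smul, cA', cA', hθv, ← map_smul, ← map_neg]
      congr 1
      have e1 : i • (v + i • θ v) = i • v - θ v := by
        rw [smul_add, smul_smul, hii, neg_one_smul, ← sub_eq_add_neg]
      rw [smul_comm i, e1]
      module
    obtain ⟨b, hbdef⟩ : ∃ b : W →ₗ[K] W →ₗ[K] K, ∀ v w, b v w = b₁ (A v) (A' w) + δ * b₁ (A' v) (A w) :=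
      ⟨b₁.compl₁₂ A A' + δ • b₁.compl₁₂ A' A, fun v w => rfl⟩
    refine ⟨b, ?_, ?_⟩
    · rintro rfl
      apply hb₁0
      ext v w
      have e1 : A (v : W) = v := by
        apply Subtype.ext
        rw [cA, m1.mp v.2, smul_smul, hii]
        module
      have e2 : A' (v : W) = 0 := by
        apply Subtype.ext
        rw [cA', m1.mp v.2, smul_smul, hii, neg_one_smul, add_neg_cancel, smul_zero, map_zero]
        rfl
      have e3 : A (w : W) = w := by
        apply Subtype.ext
        rw [cA, m1.mp w.2, smul_smul, hii]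
        module
      have h1 := hbdef v (w₁ (w : W))
      rw [rA1', e1, e2, e3, map_zero] at h1
      simp only [LinearMap.zero_apply, mul_zero, add_zero] at h1
      exact h1.symm
    · have s1 : ∀ v w, b (w₁ v) w = δ * b v (w₁ w) := by
        intro v w
        rw [hbdef, hbdef, rA1, rA1', rA1, rA1']
        linear_combination (-(b₁ (A' v)) (A' w)) * hδδ
      have s2 : ∀ v w, b (θ v) w = -(b v (θ w)) := by
        intro v w
        rw [hbdef, hbdef, rAθ, rAθ', rAθ, rAθ']
        simp only [map_smul, map_neg, LinearMap.smul_apply, LinearMap.neg_apply, smul_eq_mul]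
        ring
      have s3 : ∀ v w, b (w₂ v) w = δ * b v (w₂ w) := by
        intro v w
        have e1 : w₂ v = w₁ (θ v) := by rw [← hw1θ]; rfl
        have e2 : w₂ w = -(θ (w₁ w)) := by
          have : θ (w₁ w) = -(w₂ w) := by rw [← Module.End.mul_apply, hθw1]; rfl
          rw [this, neg_neg]
        rw [e1, e2, s1, s2, map_neg]
      intro c hc v w
      obtain ⟨c1, hc1⟩ := P7_polar hJ hc hw₁
      obtain ⟨c2, hc2⟩ := P7_polar hJ hc hw₂
      obtain ⟨w', hw'⟩ : ∃ w', w' = c - (c1 / 2) • w₁ - (c2 / 2) • w₂ := ⟨_, rfl⟩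
      have hw'J : w' ∈ J := by
        rw [hw']
        exact J.sub_mem (J.sub_mem hc (J.smul_mem _ hw₁)) (J.smul_mem _ hw₂)
      have a1 : w' * w₁ = -(w₁ * w') := by
        rw [eq_neg_iff_add_eq_zero, hw']
        have : (c - (c1 / 2) • w₁ - (c2 / 2) • w₂) * w₁ +
            w₁ * (c - (c1 / 2) • w₁ - (c2 / 2) • w₂) = (c * w₁ + w₁ * c) -
            (c1 / 2) • (w₁ * w₁ + w₁ * w₁) - (c2 / 2) • (w₂ * w₁ + w₁ * w₂) := by
          simp only [sub_mul, mul_sub, smul_mul_assoc, mul_smul_comm, smul_add]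
          abel
        rw [this, hc1, h11, h21, neg_add_cancel, smul_zero, sub_zero, ← two_smul K, smul_smul,
          ← sub_smul]
        rw [div_mul_cancel₀ c1 two_ne_zero, sub_self, zero_smul]
      have a2 : w' * w₂ = -(w₂ * w') := by
        rw [eq_neg_iff_add_eq_zero, hw']
        have : (c - (c1 / 2) • w₁ - (c2 / 2) • w₂) * w₂ +
            w₂ * (c - (c1 / 2) • w₁ - (c2 / 2) • w₂) = (c * w₂ + w₂ * c) -
            (c2 / 2) • (w₂ * w₂ + w₂ * w₂) - (c1 / 2) • (w₂ * w₁ + w₁ * w₂) := by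
          simp only [sub_mul, mul_sub, smul_mul_assoc, mul_smul_comm, smul_add]
          abel
        rw [this, hc2, h22, h21, neg_add_cancel, smul_zero, sub_zero, ← two_smul K, smul_smul,
          ← sub_smul]
        rw [div_mul_cancel₀ c2 two_ne_zero, sub_self, zero_smul]
      have a3 : ∀ v, w' (θ v) = θ (w' v) := by
        intro v
        have : w' * θ = θ * w' := by
          rw [hθ, ← mul_assoc, a1, neg_mul, mul_assoc w₁ w', a2, mul_neg, neg_neg, mul_assoc]
        exact LinearMap.congr_fun this v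
      have a4 : ∀ v, w' (w₁ v) = -(w₁ (w' v)) := fun v => LinearMap.congr_fun a1 v
      have hmem : w'.restrict (hstab w' a1 a2) ∈ J' := ⟨w', hw'J, a1, a2, fun u => rfl⟩
      have rA : ∀ v, A (w' v) = w'.restrict (hstab w' a1 a2) (A v) := by
        intro v
        apply Subtype.ext
        rw [cA, LinearMap.coe_restrict_apply, cA, map_smul, map_sub, map_smul, a3]
      have rA' : ∀ v, A' (w' v) = -(w'.restrict (hstab w' a1 a2) (A' v)) := by
        intro v
        apply Subtype.ext
        rw [cA', Submodule.coe_neg, LinearMap.coe_restrict_apply, cA', a4, neg_neg]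
        congr 1
        rw [map_smul, map_add, map_smul, a3]
      have s4 : b (w' v) w = δ * b v (w' w) := by
        rw [hbdef, hbdef, rA, rA', rA, rA']
        have k1 := hb₁ _ hmem (A v) (A' w)
        have k2 := hb₁ _ hmem (A' v) (A w)
        simp only [map_neg, LinearMap.neg_apply]
        linear_combination k1 - δ * k2 + b₁ (A' v) (w'.restrict (hstab w' a1 a2) (A w)) * (δ * δ - δ * δ)
      have hce : c = w' + (c1 / 2) • w₁ + (c2 / 2) • w₂ := by rw [hw']; abel
      have e1 : ∀ v, c v = w' v + (c1 / 2) • w₁ v + (c2 / 2) • w₂ v := by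
        intro v
        conv_lhs => rw [hce]
        rfl
      rw [e1, e1]
      simp only [map_add, map_smul, LinearMap.add_apply, LinearMap.smul_apply, smul_eq_mul]
      rw [s4, s1, s3]
      ring
  · -- no pair
    push Not at hA
    by_cases hB : ∃ w₁ ∈ J, w₁ * w₁ = 1
    · suffices hline : finrank K W = 1 by
        refine ⟨0, by rw [hline, pow_zero], ?_⟩
        rcases hδ with rfl | rfl
        · left
          obtain ⟨b, hb⟩ := P7e_form (K := K) (W := W)
          refine ⟨b, hb, fun c _ v w => ?_⟩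
          obtain ⟨t, rfl⟩ := P7e_scalar hline c
          simp
        · right
          simp
      obtain ⟨w₁, hw₁, h11⟩ := hB
      refine P7_line (w₁ := w₁) hirr fun w hw => ?_
      obtain ⟨c1, hc1⟩ := P7_polar hJ hw hw₁
      refine ⟨c1 / 2, ?_⟩
      rw [← sub_eq_zero]
      obtain ⟨w₀, hw₀⟩ : ∃ w₀, w₀ = w - (c1 / 2) • w₁ := ⟨_, rfl⟩
      have hJ₁ : ∀ v ∈ J, v * w₁ + w₁ * v = 0 → v * v = 0 := by
        intro v hv h1
        obtain ⟨c, hc⟩ := hJ v hv
        by_cases hc0 : c = 0
        · rw [hc, hc0, zero_smul]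
        · exfalso
          obtain ⟨t, ht, htt⟩ := P7_scale hc hc0
          apply hA w₁ hw₁ (t • v) (J.smul_mem t hv) h11 htt
          rw [mul_smul_comm, smul_mul_assoc, ← smul_neg]
          congr 1
          exact eq_neg_of_add_eq_zero_right h1
      have hw₀J : w₀ ∈ J := by rw [hw₀]; exact J.sub_mem hw (J.smul_mem _ hw₁)
      have hw₀1 : w₀ * w₁ + w₁ * w₀ = 0 := by
        rw [hw₀]
        have : (w - (c1 / 2) • w₁) * w₁ + w₁ * (w - (c1 / 2) • w₁) = (w * w₁ + w₁ * w) -
            (c1 / 2) • (w₁ * w₁ + w₁ * w₁) := by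
          simp only [sub_mul, mul_sub, smul_mul_assoc, mul_smul_comm, smul_add]
          abel
        rw [this, hc1, h11, ← two_smul K, smul_smul, ← sub_smul, div_mul_cancel₀ c1 two_ne_zero,
          sub_self, zero_smul]
      rw [← hw₀]
      refine P7_zero hirr (hJ₁ w₀ hw₀J hw₀1) fun v hv => ?_
      obtain ⟨c2, hc2⟩ := P7_polar hJ hv hw₁
      obtain ⟨v', hv'⟩ : ∃ v', v' = v - (c2 / 2) • w₁ := ⟨_, rfl⟩
      have hv'J : v' ∈ J := by rw [hv']; exact J.sub_mem hv (J.smul_mem _ hw₁)
      have hv'1 : v' * w₁ + w₁ * v' = 0 := by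
        rw [hv']
        have : (v - (c2 / 2) • w₁) * w₁ + w₁ * (v - (c2 / 2) • w₁) = (v * w₁ + w₁ * v) -
            (c2 / 2) • (w₁ * w₁ + w₁ * w₁) := by
          simp only [sub_mul, mul_sub, smul_mul_assoc, mul_smul_comm, smul_add]
          abel
        rw [this, hc2, h11, ← two_smul K, smul_smul, ← sub_smul, div_mul_cancel₀ c2 two_ne_zero,
          sub_self, zero_smul]
      have h3 := hJ₁ v' hv'J hv'1
      have h4 := hJ₁ w₀ hw₀J hw₀1
      have h5 := hJ₁ (v' + w₀) (J.add_mem hv'J hw₀J) (by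
        rw [add_mul, mul_add]
        calc v' * w₁ + w₀ * w₁ + (w₁ * v' + w₁ * w₀) = (v' * w₁ + w₁ * v') +
              (w₀ * w₁ + w₁ * w₀) := by abel
          _ = 0 := by rw [hv'1, hw₀1, add_zero])
      have h6 : v' * w₀ = -(w₀ * v') := by
        have : (v' + w₀) * (v' + w₀) = v' * v' + w₀ * w₀ + (v' * w₀ + w₀ * v') := by noncomm_ring
        rw [this, h3, h4, zero_add, zero_add] at h5
        exact eq_neg_of_add_eq_zero_left h5
      refine ⟨-v' - (c2 / 2) • w₁, ?_⟩
      have h7 : v = v' + (c2 / 2) • w₁ := by rw [hv']; abel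
      rw [h7, add_mul, h6, smul_mul_assoc, eq_neg_of_add_eq_zero_right hw₀1, mul_sub, mul_neg,
        mul_smul_comm, smul_neg, sub_eq_add_neg]
    · push Not at hB
      have h0 : ∀ v ∈ J, v * v = 0 := by
        intro v hv
        obtain ⟨c, hc⟩ := hJ v hv
        by_cases hc0 : c = 0
        · rw [hc, hc0, zero_smul]
        · exfalso
          obtain ⟨t, ht, htt⟩ := P7_scale hc hc0
          exact hB _ (J.smul_mem t hv) htt
      have hz : ∀ w ∈ J, w = 0 := by
        intro w hw
        refine P7_zero hirr (h0 w hw) fun v hv => ⟨-v, ?_⟩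
        have h5 := h0 _ (J.add_mem hv hw)
        have : (v + w) * (v + w) = v * v + w * w + (v * w + w * v) := by noncomm_ring
        rw [this, h0 v hv, h0 w hw, zero_add, zero_add] at h5
        rw [mul_neg]
        exact eq_neg_of_add_eq_zero_left h5
      have hline : finrank K W = 1 := P7_line (w₁ := 0) hirr fun w hw => ⟨0, by rw [smul_zero]; exact hz w hw⟩
      refine ⟨0, by rw [hline, pow_zero], Or.inl ?_⟩
      obtain ⟨b, hb⟩ := P7e_form (K := K) (W := W)
      refine ⟨b, hb, fun c hc v w => ?_⟩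
      rw [hz c hc]
      simp

end Pool.Agent.H86N
end
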