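import Pool.Agent.Lib.H1M.RC.M002
import Pool.Agent.Lib.H1M.RC.M020
import Pool.Agent.Lib.H1M.RC.M021

/-! Merged copies (to shorten the build) of Lib.H86N.P2, Lib.H86N.P4, Lib.H86N.P3, Lib.H86N.P5, Lib.H86N.P6. -/

-- from Lib.H86N.P2
section

/-!
# P2: the block decomposition of a grid
-/

set_option autoImplicit false
set_option linter.unusedSectionVars false
namespace Pool.Agent.H86N
open Module Pool.Agent.H53Toric Pool.Agent.H49M

variable {K : Type*} [Field K] {V : Type*} [AddCommGroup V] [Module K V]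

variable {L : Submodule K (Module.End K V)}

/-- The block components of `L`. -/
theorem P2_aux [CharZero K] (hl : IsLie L) {p q : Fin 3 → Module.End K V}
    (hpp : ∀ i j, p i * p j = if i = j then p i else 0)
    (hqq : ∀ i j, q i * q j = if i = j then q i else 0)
    (hpq : ∀ i j, p i * q j = 0) (hqp : ∀ i j, q i * p j = 0)
    (hsum : p 0 + p 1 + p 2 + (q 0 + q 1 + q 2) = 1)
    (hmem : ∀ i, p i - q i ∈ L) {X : Module.End K V} (hX : X ∈ L) (n : ℤ) :
    ∑ i, ∑ j, (if (![1, 10, 100, -1, -10, -100] : Fin 6 → ℤ) i -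
      (![1, 10, 100, -1, -10, -100] : Fin 6 → ℤ) j = n then
      (![p 0, p 1, p 2, q 0, q 1, q 2] : Fin 6 → Module.End K V) i * X *
      (![p 0, p 1, p 2, q 0, q 1, q 2] : Fin 6 → Module.End K V) j else 0) ∈ L := by
  refine P0_block hl (c := ![p 0, p 1, p 2, q 0, q 1, q 2]) ?_ ?_
    (w := ![1, 10, 100, -1, -10, -100]) ?_ hX n
  · intro i j
    fin_cases i <;> fin_cases j <;> simp [hpp, hqq, hpq, hqp]
  · rw [← hsum]
    simp [Fin.sum_univ_succ]
    abel
  · have h1 : ∑ i, (((![1, 10, 100, -1, -10, -100] : Fin 6 → ℤ) i : ℤ) : K) •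
        (![p 0, p 1, p 2, q 0, q 1, q 2] : Fin 6 → Module.End K V) i =
        (p 0 - q 0) + (10 : K) • (p 1 - q 1) + (100 : K) • (p 2 - q 2) := by
      simp [Fin.sum_univ_succ]
      module
    rw [h1]
    exact L.add_mem (L.add_mem (hmem 0) (L.smul_mem _ (hmem 1))) (L.smul_mem _ (hmem 2))

/-- Chunk P2. The idempotents: `e f`, `e' f'` are idempotent, orthogonal (`e f e' = 0`), absorbed
by `(1+s)/2`; same on the other side. `adj s = -s`, `adj (e f) = adj f adj e = f e` (`A0_mul`,
`Core.skew`). `mem`: `p 1 - q 1 = e f - f e`, `p 2 - q 2 = e' f' - f' e'` (`K0_H`) and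
`p 0 - q 0 = s - (p 1 - q 1) - (p 2 - q 2)`. The other fields follow from `P0_block` with
`c = (p 0, p 1, p 2, q 0, q 1, q 2)` (`Fin 6`) and weights `(1, 10, 100, -1, -10, -100)`:
`D = (p 0 - q 0) + 10 (p 1 - q 1) + 100 (p 2 - q 2)`; the difference `w (p i) - w (p j)`, `i ≠ j`,
occurs only for `p i X p j` and `q j X q i`, the difference `w (p i) + w (p j)` only for
`p i X q j`, `p j X q i`, and `0` only for the diagonal blocks. -/
theorem P2_blocks [CharZero K] (h : CoreN L) {s e f e' f' u : Module.End K V}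
    (G : Grid L s e f e' f' u) : BlocksN L (pp s e f e' f') (qq s e f e' f') := by
  obtain ⟨P, hP⟩ : ∃ P : Module.End K V, P = (1 / 2 : K) • (1 + s) := ⟨_, rfl⟩
  obtain ⟨Q, hQ⟩ : ∃ Q : Module.End K V, Q = (1 / 2 : K) • (1 - s) := ⟨_, rfl⟩
  have hs2 := G.F.s_sq
  have hPP : P * P = P := by
    rw [hP, smul_mul_smul_comm]
    have : (1 + s) * (1 + s) = (2 : K) • (1 + s) := by
      have e1 : (1 + s) * (1 + s) = 1 + s + s + s * s := by noncomm_ring
      rw [e1, hs2, two_smul]; abel
    rw [this, smul_smul]; norm_num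
  have hQQ : Q * Q = Q := by
    rw [hQ, smul_mul_smul_comm]
    have : (1 - s) * (1 - s) = (2 : K) • (1 - s) := by
      have e1 : (1 - s) * (1 - s) = 1 - s - s + s * s := by noncomm_ring
      rw [e1, hs2, two_smul]; abel
    rw [this, smul_smul]; norm_num
  have hPQ : P * Q = 0 := by
    rw [hP, hQ, smul_mul_smul_comm]
    have e1 : (1 + s) * (1 - s) = 1 - s * s := by noncomm_ring
    rw [e1, hs2, sub_self, smul_zero]
  have hQP : Q * P = 0 := by
    rw [hP, hQ, smul_mul_smul_comm]
    have e1 : (1 - s) * (1 + s) = 1 - s * s := by noncomm_ring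
    rw [e1, hs2, sub_self, smul_zero]
  have hPpQ : P + Q = 1 := by
    rw [hP, hQ, ← smul_add]
    have : (1 + s + (1 - s)) = (2 : K) • (1 : Module.End K V) := by rw [two_smul]; abel
    rw [this, smul_smul]; norm_num
  -- absorption
  have aP : ∀ {X : Module.End K V}, s * X = X → P * X = X := by
    intro X hX
    rw [hP, smul_mul_assoc, add_mul, one_mul, hX, ← two_smul K, smul_smul]; norm_num
  have aP' : ∀ {X : Module.End K V}, X * s = X → X * P = X := by
    intro X hX
    rw [hP, mul_smul_comm, mul_add, mul_one, hX, ← two_smul K, smul_smul]; norm_num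
  have aQ : ∀ {X : Module.End K V}, s * X = -X → Q * X = X := by
    intro X hX
    rw [hQ, smul_mul_assoc, sub_mul, one_mul, hX, sub_neg_eq_add, ← two_smul K, smul_smul]
    norm_num
  have aQ' : ∀ {X : Module.End K V}, X * s = -X → X * Q = X := by
    intro X hX
    rw [hQ, mul_smul_comm, mul_sub, mul_one, hX, sub_neg_eq_add, ← two_smul K, smul_smul]
    norm_num
  have ePe : P * e = e := aP G.F.e_mem.2.1
  have eQe : e * Q = e := aQ' G.F.e_mem.2.2
  have fQf : Q * f = f := aQ G.F.f_mem.2.1
  have fPf : f * P = f := aP' G.F.f_mem.2.2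
  have ePe' : P * e' = e' := aP G.F'.e_mem.2.1
  have eQe' : e' * Q = e' := aQ' G.F'.e_mem.2.2
  have fQf' : Q * f' = f' := aQ G.F'.f_mem.2.1
  have fPf' : f' * P = f' := aP' G.F'.f_mem.2.2
  -- idempotents
  have t1 : e * f * (e * f) = e * f := by rw [← mul_assoc, G.F.efe]
  have t2 : e' * f' * (e' * f') = e' * f' := by rw [← mul_assoc, G.F'.efe]
  have t3 : e * f * (e' * f') = 0 := by
    rw [mul_assoc, ← mul_assoc f, G.o4, zero_mul, mul_zero]
  have t4 : e' * f' * (e * f) = 0 := by
    rw [mul_assoc, ← mul_assoc f', G.o2, zero_mul, mul_zero]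
  have t5 : P * (e * f) = e * f := by rw [← mul_assoc, ePe]
  have t6 : e * f * P = e * f := by rw [mul_assoc, fPf]
  have t7 : P * (e' * f') = e' * f' := by rw [← mul_assoc, ePe']
  have t8 : e' * f' * P = e' * f' := by rw [mul_assoc, fPf']
  have r1 : f * e * (f * e) = f * e := by rw [← mul_assoc, G.F.fef]
  have r2 : f' * e' * (f' * e') = f' * e' := by rw [← mul_assoc, G.F'.fef]
  have r3 : f * e * (f' * e') = 0 := by
    rw [mul_assoc, ← mul_assoc e, G.o1, zero_mul, mul_zero]
  have r4 : f' * e' * (f * e) = 0 := by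
    rw [mul_assoc, ← mul_assoc e', G.o3, zero_mul, mul_zero]
  have r5 : Q * (f * e) = f * e := by rw [← mul_assoc, fQf]
  have r6 : f * e * Q = f * e := by rw [mul_assoc, eQe]
  have r7 : Q * (f' * e') = f' * e' := by rw [← mul_assoc, fQf']
  have r8 : f' * e' * Q = f' * e' := by rw [mul_assoc, eQe']
  have epp : pp s e f e' f' = ![P - e * f - e' * f', e * f, e' * f'] := by rw [pp, hP]
  have eqq : qq s e f e' f' = ![Q - f * e - f' * e', f * e, f' * e'] := by rw [qq, hQ]
  obtain ⟨p, hp⟩ : ∃ p, p = pp s e f e' f' := ⟨_, rfl⟩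
  obtain ⟨q, hq⟩ : ∃ q, q = qq s e f e' f' := ⟨_, rfl⟩
  have p0 : p 0 = P - e * f - e' * f' := by rw [hp, epp]; rfl
  have p1 : p 1 = e * f := by rw [hp, epp]; rfl
  have p2 : p 2 = e' * f' := by rw [hp, epp]; rfl
  have q0 : q 0 = Q - f * e - f' * e' := by rw [hq, eqq]; rfl
  have q1 : q 1 = f * e := by rw [hq, eqq]; rfl
  have q2 : q 2 = f' * e' := by rw [hq, eqq]; rfl
  rw [← hp, ← hq]
  have hpp : ∀ i j, p i * p j = if i = j then p i else 0 := by
    intro i j
    fin_cases i <;> fin_cases j <;>
      simp [p0, p1, p2, sub_mul, mul_sub, hPP, t1, t2, t3, t4, t5, t6, t7, t8]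
  have hqq : ∀ i j, q i * q j = if i = j then q i else 0 := by
    intro i j
    fin_cases i <;> fin_cases j <;>
      simp [q0, q1, q2, sub_mul, mul_sub, hQQ, r1, r2, r3, r4, r5, r6, r7, r8]
  have hpP : ∀ i, p i * P = p i ∧ P * p i = p i := by
    intro i
    fin_cases i <;> simp [p0, p1, p2, sub_mul, mul_sub, hPP, t5, t6, t7, t8]
  have hqQ : ∀ i, q i * Q = q i ∧ Q * q i = q i := by
    intro i
    fin_cases i <;> simp [q0, q1, q2, sub_mul, mul_sub, hQQ, r5, r6, r7, r8]
  have hpq : ∀ i j, p i * q j = 0 := by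
    intro i j
    rw [← (hpP i).1, ← (hqQ j).2, mul_assoc, ← mul_assoc P, hPQ, zero_mul, mul_zero]
  have hqp : ∀ i j, q i * p j = 0 := by
    intro i j
    rw [← (hqQ i).1, ← (hpP j).2, mul_assoc, ← mul_assoc Q, hQP, zero_mul, mul_zero]
  have hsum : p 0 + p 1 + p 2 + (q 0 + q 1 + q 2) = 1 := by
    rw [p0, p1, p2, q0, q1, q2, ← hPpQ]; abel
  have hl := h.lie
  have H1 : e * f - f * e ∈ L := K0_H hl G.F
  have H2 : e' * f' - f' * e' ∈ L := K0_H hl G.F'
  have hmem : ∀ i, p i - q i ∈ L := by
    have h0 : p 0 - q 0 = s - (e * f - f * e) - (e' * f' - f' * e') := by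
      have : s = P - Q := by
        rw [hP, hQ, ← smul_sub]
        have : (1 + s - (1 - s)) = (2 : K) • s := by rw [two_smul]; abel
        rw [this, smul_smul]; norm_num
      rw [this, p0, q0]; abel
    intro i
    fin_cases i
    · change p 0 - q 0 ∈ L
      rw [h0]
      exact L.sub_mem (L.sub_mem G.F.s_mem H1) H2
    · change p 1 - q 1 ∈ L
      rw [p1, q1]; exact H1
    · change p 2 - q 2 ∈ L
      rw [p2, q2]; exact H2
  have key := fun {X : Module.End K V} (hX : X ∈ L) (n : ℤ) =>
    P2_aux hl hpp hqq hpq hqp hsum hmem hX n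
  refine ⟨hpp, hqq, hpq, hqp, hsum, hmem, ?_, ?_, ?_, ?_, ?_, ?_⟩
  · intro X hX i j hij
    fin_cases i <;> fin_cases j
    · exact absurd rfl hij
    · have := key hX (-9)
      simp [Fin.sum_univ_succ] at this
      first | (simpa using this) | (rw [add_comm]; simpa using this)
    · have := key hX (-99)
      simp [Fin.sum_univ_succ] at this
      first | (simpa using this) | (rw [add_comm]; simpa using this)
    · have := key hX 9
      simp [Fin.sum_univ_succ] at this
      first | (simpa using this) | (rw [add_comm]; simpa using this)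
    · exact absurd rfl hij
    · have := key hX (-90)
      simp [Fin.sum_univ_succ] at this
      first | (simpa using this) | (rw [add_comm]; simpa using this)
    · have := key hX 99
      simp [Fin.sum_univ_succ] at this
      first | (simpa using this) | (rw [add_comm]; simpa using this)
    · have := key hX 90
      simp [Fin.sum_univ_succ] at this
      first | (simpa using this) | (rw [add_comm]; simpa using this)
    · exact absurd rfl hij
  · intro X hX i j hij
    fin_cases i <;> fin_cases j
    · exact absurd rfl hij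
    · have := key hX 11
      simp [Fin.sum_univ_succ] at this
      first | (simpa using this) | (rw [add_comm]; simpa using this)
    · have := key hX 101
      simp [Fin.sum_univ_succ] at this
      first | (simpa using this) | (rw [add_comm]; simpa using this)
    · have := key hX 11
      simp [Fin.sum_univ_succ] at this
      first | (simpa using this) | (rw [add_comm]; simpa using this)
    · exact absurd rfl hij
    · have := key hX 110
      simp [Fin.sum_univ_succ] at this
      first | (simpa using this) | (rw [add_comm]; simpa using this)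
    · have := key hX 101
      simp [Fin.sum_univ_succ] at this
      first | (simpa using this) | (rw [add_comm]; simpa using this)
    · have := key hX 110
      simp [Fin.sum_univ_succ] at this
      first | (simpa using this) | (rw [add_comm]; simpa using this)
    · exact absurd rfl hij
  · intro X hX i j hij
    fin_cases i <;> fin_cases j
    · exact absurd rfl hij
    · have := key hX (-11)
      simp [Fin.sum_univ_succ] at this
      first | (simpa using this) | (rw [add_comm]; simpa using this)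
    · have := key hX (-101)
      simp [Fin.sum_univ_succ] at this
      first | (simpa using this) | (rw [add_comm]; simpa using this)
    · have := key hX (-11)
      simp [Fin.sum_univ_succ] at this
      first | (simpa using this) | (rw [add_comm]; simpa using this)
    · exact absurd rfl hij
    · have := key hX (-110)
      simp [Fin.sum_univ_succ] at this
      first | (simpa using this) | (rw [add_comm]; simpa using this)
    · have := key hX (-101)
      simp [Fin.sum_univ_succ] at this
      first | (simpa using this) | (rw [add_comm]; simpa using this)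
    · have := key hX (-110)
      simp [Fin.sum_univ_succ] at this
      first | (simpa using this) | (rw [add_comm]; simpa using this)
    · exact absurd rfl hij
  · intro X hX i
    fin_cases i
    · have := key hX 2
      simp [Fin.sum_univ_succ] at this
      simpa using this
    · have := key hX 20
      simp [Fin.sum_univ_succ] at this
      simpa using this
    · have := key hX 200
      simp [Fin.sum_univ_succ] at this
      simpa using this
  · intro X hX i
    fin_cases i
    · have := key hX (-2)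
      simp [Fin.sum_univ_succ] at this
      simpa using this
    · have := key hX (-20)
      simp [Fin.sum_univ_succ] at this
      simpa using this
    · have := key hX (-200)
      simp [Fin.sum_univ_succ] at this
      simpa using this
  · intro X hX
    have := key hX 0
    simp [Fin.sum_univ_succ] at this
    simpa [add_assoc] using this

end Pool.Agent.H86N
end

-- from Lib.H86N.P4
section

/-!
# P4: the corner of a frame is irreducible; Burnside
-/

set_option autoImplicit false
set_option linter.unusedSectionVars false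
namespace Pool.Agent.H86N
open Module Pool.Agent.H53Toric Pool.Agent.H49M

variable {K : Type*} [Field K] {V : Type*} [AddCommGroup V] [Module K V]

variable {L : Submodule K (Module.End K V)}

/-- Moving a lowering operator through a word. -/
theorem P4_move {g : Submodule K (Module.End K V)} (hg : IsLie g) {E : Module.End K V}
    {U : Submodule K V} {n : ℕ}
    (hn : ∀ l : List (Module.End K V), l.length ≤ n → (∀ x ∈ l, x ∈ g) → ∀ u ∈ U,
      E (l.prod u) ∈ U) {w : Module.End K V} (hw : w ∈ g) (hw0 : E * w = 0)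
    (l₁ : List (Module.End K V)) :
    ∀ l₂ : List (Module.End K V), l₁.length + l₂.length ≤ n → (∀ x ∈ l₁, x ∈ g) →
      (∀ x ∈ l₂, x ∈ g) → ∀ u ∈ U, E ((l₁.prod * w * l₂.prod) u) ∈ U := by
  induction l₁ using List.reverseRecOn with
  | nil =>
    intro l₂ _ _ _ u _
    rw [List.prod_nil, one_mul]
    change (E * (w * l₂.prod)) u ∈ U
    rw [← mul_assoc, hw0, zero_mul]
    exact U.zero_mem
  | append_singleton l₁ x ih =>
    intro l₂ hlen h1 h2 u hu
    have hx : x ∈ g := h1 x (by simp)
    have h1' : ∀ x ∈ l₁, x ∈ g := fun y hy => h1 y (by simp [hy])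
    have hlen' : l₁.length + 1 + l₂.length ≤ n := by
      rwa [List.length_append, List.length_singleton] at hlen
    have e : (l₁ ++ [x]).prod * w * l₂.prod = l₁.prod * w * (x :: l₂).prod +
        (l₁ ++ (x * w - w * x) :: l₂).prod := by
      simp only [List.prod_append, List.prod_cons, List.prod_nil]
      noncomm_ring
    rw [e, LinearMap.add_apply, map_add]
    apply U.add_mem
    · exact ih (x :: l₂) (by simp only [List.length_cons]; omega) h1' (by
        intro y hy
        rcases List.mem_cons.1 hy with rfl | hy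
        · exact hx
        · exact h2 y hy) u hu
    · apply hn _ _ _ u hu
      · simp only [List.length_append, List.length_cons]; omega
      · intro y hy
        rcases List.mem_append.1 hy with hy | hy
        · exact h1' y hy
        · rcases List.mem_cons.1 hy with rfl | hy
          · exact hg x hx w hw
          · exact h2 y hy

theorem P4_words {g : Submodule K (Module.End K V)} (hg : IsLie g) {E : Module.End K V}
    (low : ∀ z ∈ g, ∃ w ∈ g, E * w = 0 ∧ z * E = E * z * E + w * E) {U : Submodule K V}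
    (hU : ∀ u ∈ U, E u = u) (hst : ∀ C ∈ g, ∀ u ∈ U, E (C u) ∈ U) (n : ℕ) :
    ∀ l : List (Module.End K V), l.length ≤ n → (∀ x ∈ l, x ∈ g) → ∀ u ∈ U,
      E (l.prod u) ∈ U := by
  induction n with
  | zero =>
    intro l hl _ u hu
    have : l = [] := List.eq_nil_of_length_eq_zero (Nat.le_zero.1 hl)
    rw [this, List.prod_nil]
    change E u ∈ U
    rw [hU u hu]; exact hu
  | succ n ih =>
    intro l hl hlg u hu
    rcases List.eq_nil_or_concat l with rfl | ⟨l', z, rfl⟩
    · rw [List.prod_nil]
      change E u ∈ U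
      rw [hU u hu]; exact hu
    · rw [List.concat_eq_append] at hl hlg ⊢
      rw [List.length_append, List.length_singleton] at hl
      have hz : z ∈ g := hlg z (by simp)
      have hl' : ∀ x ∈ l', x ∈ g := fun y hy => hlg y (by simp [hy])
      obtain ⟨w, hw, hw0, hzw⟩ := low z hz
      have hzu : z u = E (z u) + w u := by
        have := LinearMap.congr_fun hzw u
        change z (E u) = E (z (E u)) + w (E u) at this
        rwa [hU u hu] at this
      have e : (l' ++ [z]).prod u = l'.prod (z u) := by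
        simp only [List.prod_append, List.prod_cons, List.prod_nil, mul_one]
        rfl
      rw [e, hzu, map_add, map_add]
      apply U.add_mem
      · exact ih l' (by omega) hl' _ (hst z hz u hu)
      · have h1 := P4_move hg ih hw hw0 l' [] (by simp; omega) hl' (by simp) u hu
        simpa using h1

theorem P4_irr_aux {g : Submodule K (Module.End K V)} (hg : IsLie g) (hirr : Irr g)
    {E : Module.End K V}
    (low : ∀ z ∈ g, ∃ w ∈ g, E * w = 0 ∧ z * E = E * z * E + w * E) {U : Submodule K V}
    (hU : ∀ u ∈ U, E u = u) (hU0 : U ≠ ⊥) (hst : ∀ C ∈ g, ∀ u ∈ U, E (C u) ∈ U) (v : V) :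
    E v ∈ U := by
  let W : Submodule K V :=
    { carrier := {v | ∀ l : List (Module.End K V), (∀ x ∈ l, x ∈ g) → E (l.prod v) ∈ U}
      add_mem' := by
        intro a b ha hb l hl
        rw [map_add, map_add]
        exact U.add_mem (ha l hl) (hb l hl)
      zero_mem' := by
        intro l _
        rw [map_zero, map_zero]; exact U.zero_mem
      smul_mem' := by
        intro c a ha l hl
        rw [map_smul, map_smul]
        exact U.smul_mem c (ha l hl) }
  have hUW : U ≤ W := fun u hu l hl => P4_words hg low hU hst _ l le_rfl hl u hu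
  have hWst : ∀ X ∈ g, ∀ w ∈ W, X w ∈ W := by
    intro X hX w hw l hl
    have := hw (l ++ [X]) (by
      intro x hx
      rcases List.mem_append.1 hx with hx | hx
      · exact hl x hx
      · rw [List.mem_singleton.1 hx]; exact hX)
    simpa using this
  rcases hirr W hWst with hW | hW
  · exact absurd (le_bot_iff.1 (hW ▸ hUW)) hU0
  · have hv : v ∈ W := by rw [hW]; trivial
    simpa using hv [] (by simp)

/-- The lowering part. -/
theorem P4_low [CharZero K] (h : CoreN L) {s e f : Module.End K V} (F : Frame L s e f)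
    {z : Module.End K V} (hz : z ∈ L) :
    ∃ w ∈ L, e * f * w = 0 ∧ z * (e * f) = e * f * z * (e * f) + w * (e * f) := by
  have hee : e * e = 0 := A2_pp F.e_mem F.e_mem
  have hff : f * f = 0 := A2_mm F.f_mem F.f_mem
  have pp : e * f * (e * f) = e * f := by rw [← mul_assoc, F.efe]
  have qq : f * e * (f * e) = f * e := by rw [← mul_assoc, F.fef]
  have pq : e * f * (f * e) = 0 := by
    rw [mul_assoc, ← mul_assoc f f, hff, zero_mul, mul_zero]
  have qp : f * e * (e * f) = 0 := by
    rw [mul_assoc, ← mul_assoc e e, hee, zero_mul, mul_zero]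
  have key := fun n => P0_block h.lie (c := ![e * f, 1 - e * f - f * e, f * e]) (w := ![1, 0, -1])
    (by
      intro i j
      fin_cases i <;> fin_cases j <;> simp [mul_sub, sub_mul, pp, qq, pq, qp])
    (by
      simp [Fin.sum_univ_succ])
    (by
      have := K0_H h.lie F
      simp [Fin.sum_univ_succ]
      rwa [← sub_eq_add_neg]) hz n
  have k1 := key (-1)
  have k2 := key (-2)
  simp [Fin.sum_univ_succ] at k1 k2
  refine ⟨_, L.add_mem k1 k2, ?_, ?_⟩
  · simp only [mul_add, ← mul_assoc]
    have a1 : e * f * f = 0 := by rw [mul_assoc, hff, mul_zero]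
    have a2 : e * f * (1 - e * f - f * e) = 0 := by
      rw [mul_sub, mul_sub, pp, pq]; simp
    rw [a1, a2]; simp
  · have e1 : z * (e * f) = (e * f + (1 - e * f - f * e) + f * e) * z * (e * f) := by
      have : e * f + (1 - e * f - f * e) + f * e = 1 := by abel
      rw [this, one_mul]
    have e2 : (1 - e * f - f * e) * (e * f) = 0 := by
      rw [sub_mul, sub_mul, pp, qp]; simp
    rw [e1]
    simp only [add_mul, mul_assoc] at *
    rw [e2, pp]
    simp only [mul_zero, add_zero]
    abel

theorem P4_sub [IsAlgClosed K] {U : Type*} [AddCommGroup U] [Module K U]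
    [FiniteDimensional K U] [Nontrivial U] (B : Subalgebra K (Module.End K U))
    (hirr : ∀ W : Submodule K U, (∀ b ∈ B, ∀ w ∈ W, b w ∈ W) → W = ⊥ ∨ W = ⊤)
    (f : Module.End K U) : f ∈ B := by
  classical
  have : IsSimpleModule B U := by
    have : Nontrivial (Submodule B U) := by
      refine ⟨⊥, ⊤, ?_⟩
      intro h
      obtain ⟨u, hu⟩ := exists_ne (0 : U)
      have : u ∈ (⊥ : Submodule B U) := by rw [h]; trivial
      exact hu ((Submodule.mem_bot B).mp this)
    have : IsSimpleOrder (Submodule B U) := ⟨fun W => by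
      have h1 := hirr (W.restrictScalars K) (fun b hb w hw => W.smul_mem ⟨b, hb⟩ hw)
      rcases h1 with h1 | h1
      · left
        rw [eq_bot_iff]
        intro w hw
        have : w ∈ W.restrictScalars K := hw
        rw [h1, Submodule.mem_bot] at this
        rw [this]; exact Submodule.zero_mem _
      · right
        rw [eq_top_iff]
        intro w _
        have : w ∈ W.restrictScalars K := by rw [h1]; trivial
        exact this⟩
    exact IsSimpleModule.mk
  have hbij := IsSimpleModule.algebraMap_end_bijective_of_isAlgClosed (A := B) (V := U) K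
  let f' : Module.End (Module.End B U) U :=
    { toFun := f
      map_add' := f.map_add
      map_smul' := by
        intro φ m
        obtain ⟨k, rfl⟩ := hbij.2 φ
        simp }
  let b := Module.finBasis K U
  obtain ⟨r, hr⟩ := jacobson_density f' (Finset.univ.image b)
  have : f = (r : Module.End K U) := by
    apply b.ext
    intro i
    exact hr (b i) (Finset.mem_image_of_mem _ (Finset.mem_univ i))
  rw [this]; exact r.2

/-- Chunk P4a. The range of `p = e f` is irreducible under the corners `p X p`, `X ∈ L`. This is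
`Peirce.irr` in H53Toric.Core4 (with `Peirce.words`, `Peirce.word_move`, `Peirce.lower`), whose proof
does not use the parity; either copy it, or argue with the grading by `H = e f - f e`:
`V = V₁ + V₀ + V₋₁` (ranges of `p`, of `1 - p - q`, of `q = f e`), `L = ⊕ L_n`, `-2 ≤ n ≤ 2`
(`P0_block` with `c = (p, 1 - p - q, q)`, `w = (1, 0, -1)`). For `W ≤ V₁` stable under `L_0` (whose
elements act on `V₁` through `p X p`) the space
`W' = W + span L_{-1} W + span L_{-2} W + span L_{-1} L_{-1} W` is stable under `L`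
(`L_1 W = L_2 W = 0`; move the raising operators to the right by brackets; degrees below `-1` vanish).
So `W' = V`, and taking the component in `V₁` (multiply by `p`) gives `W = V₁`. -/
theorem P4_irr [CharZero K] [IsAlgClosed K] [FiniteDimensional K V] [Nontrivial V]
    (h : CoreN L) {s e f : Module.End K V} (F : Frame L s e f) {W : Submodule K V}
    (hW : ∀ w ∈ W, (e * f) w = w) (hW0 : W ≠ ⊥) (hst : ∀ X ∈ L, ∀ w ∈ W, (e * f) (X w) ∈ W)
    (v : V) : (e * f) v ∈ W :=
  P4_irr_aux h.lie h.irr (fun _ hz => P4_low h F hz) hW hW0 hst v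

/-- Chunk P4b. Burnside's theorem in a corner. Let `U = range p`. The restrictions of the elements of
`A` to `U` form an algebra of operators of `U` containing the identity (`p ∈ A`) which is
irreducible, so it is everything (Burnside; e.g. from `jacobson_density` and
`IsSimpleModule.algebraMap_end_bijective_of_isAlgClosed`, see `burnside_surj` in
Pool/Agent/Lib/Helper71/Kolchin.lean). -/
theorem P4_burnside [IsAlgClosed K] [FiniteDimensional K V] {p : Module.End K V} (hp : p * p = p)
    (hp0 : p ≠ 0) (A : NonUnitalSubalgebra K (Module.End K V)) (hpA : p ∈ A)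
    (hA : ∀ a ∈ A, p * a = a ∧ a * p = a)
    (hirr : ∀ W : Submodule K V, (∀ w ∈ W, p w = w) → W ≠ ⊥ → (∀ a ∈ A, ∀ w ∈ W, a w ∈ W) →
      ∀ v, p v ∈ W) (T : Module.End K V) : p * T * p ∈ A := by
  set U := LinearMap.range p with hU
  have hpU : ∀ u ∈ U, p u = u := by
    rintro _ ⟨v, rfl⟩
    rw [← Module.End.mul_apply, hp]
  have haU : ∀ a ∈ A, ∀ u : V, a u ∈ U := fun a ha u => ⟨a u, by
    rw [← Module.End.mul_apply, (hA a ha).1]⟩
  have : Nontrivial U := by
    rw [Submodule.nontrivial_iff_ne_bot]
    intro h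
    exact hp0 (LinearMap.range_eq_bot.mp h)
  let B : Subalgebra K (Module.End K U) :=
    { carrier := {T | ∃ a ∈ A, ∀ u : U, ((T u : U) : V) = a u}
      mul_mem' := by
        rintro S T ⟨a, ha, h1⟩ ⟨b, hb, h2⟩
        exact ⟨a * b, A.mul_mem ha hb, fun u => by
          rw [Module.End.mul_apply, h1, h2, Module.End.mul_apply]⟩
      add_mem' := by
        rintro S T ⟨a, ha, h1⟩ ⟨b, hb, h2⟩
        exact ⟨a + b, A.add_mem ha hb, fun u => by
          rw [LinearMap.add_apply, LinearMap.add_apply, Submodule.coe_add, h1, h2]⟩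
      algebraMap_mem' := fun r => ⟨r • p, SMulMemClass.smul_mem r hpA, fun u => by
        rw [LinearMap.smul_apply, hpU u u.2]; rfl⟩ }
  have hT : ∀ v, (p * T * p) v ∈ U := fun v => ⟨T (p v), rfl⟩
  have hmem := P4_sub B (by
    intro W hW
    by_cases hW0 : W = ⊥
    · exact Or.inl hW0
    · right
      rw [eq_top_iff]
      rintro ⟨u, hu⟩ -
      have := hirr (W.map U.subtype) (by
        rintro _ ⟨w, _, rfl⟩
        exact hpU w w.2) (by
        intro h0
        apply hW0
        rw [eq_bot_iff]
        intro w hw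
        have h4 : (w : V) ∈ W.map U.subtype := ⟨w, hw, rfl⟩
        rw [h0, Submodule.mem_bot] at h4
        exact Subtype.ext h4) (by
        rintro a ha _ ⟨w, hw, rfl⟩
        exact ⟨_, hW (a.restrict (fun u _ => haU a ha u) : Module.End K U)
          ⟨a, ha, fun u => rfl⟩ w hw, rfl⟩) u
      rw [hpU u hu] at this
      obtain ⟨w, hw, hwv⟩ := this
      have : w = ⟨u, hu⟩ := Subtype.ext hwv
      rwa [← this])
    ((p * T * p).restrict (p := U) (q := U) (fun u _ => hT u))
  obtain ⟨a, ha, h1⟩ := hmem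
  have : p * T * p = a := by
    ext v
    have h2 := h1 ⟨p v, v, rfl⟩
    have h3 : (p * T * p) (p v) = a (p v) := h2
    rw [← Module.End.mul_apply, ← Module.End.mul_apply, mul_assoc _ p p, hp, (hA a ha).2] at h3
    exact h3
  rw [this]; exact ha

end Pool.Agent.H86N
end

-- from Lib.H86N.P3
section

/-!
# P3: products of blocks
-/

set_option autoImplicit false
set_option linter.unusedSectionVars false
namespace Pool.Agent.H86N
open Module Pool.Agent.H53Toric Pool.Agent.H49M

variable {K : Type*} [Field K] {V : Type*} [AddCommGroup V] [Module K V]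

variable {L : Submodule K (Module.End K V)}

variable {p q : Fin 3 → Module.End K V}

/-- Chunk P3a. Lifts: `x = p i X p j`, `X ∈ L`; replace `X` by
`X' = p i X p j + q j X q i ∈ L` (`m0`), similarly `y = p j Y' p k`; then
`p i (X' Y' - Y' X') p k = x y`, because `p i Y' = 0` (`i ≠ j`, and `p i q _ = 0`). -/
theorem P3_mul (hl : IsLie L) (B : BlocksN L p q) {i j k : Fin 3} (hij : i ≠ j) (hjk : j ≠ k)
    (hik : i ≠ k) {x y : Module.End K V} (hx : x ∈ LL L (p i) (p j)) (hy : y ∈ LL L (p j) (p k)) :
    x * y ∈ LL L (p i) (p k) := by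
  obtain ⟨X, hX, rfl⟩ := hx
  obtain ⟨Y, hY, rfl⟩ := hy
  have hX' := B.m0 X hX i j hij
  have hY' := B.m0 Y hY j k hjk
  refine ⟨_, hl _ hX' _ hY', ?_⟩
  have e1 : p i * p j = 0 := by rw [B.pp, if_neg hij]
  have e2 : p i * p i = p i := by rw [B.pp, if_pos rfl]
  have e3 : p k * p k = p k := by rw [B.pp, if_pos rfl]
  have e4 : p j * p j = p j := by rw [B.pp, if_pos rfl]
  have e5 : p i * q j = 0 := B.pq i j
  have e6 : p i * q k = 0 := B.pq i k
  have e7 : q j * p k = 0 := B.qp j k
  have e8 : q i * p k = 0 := B.qp i k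
  symm
  calc p i * ((p i * X * p j + q j * X * q i) * (p j * Y * p k + q k * Y * q j) -
        (p j * Y * p k + q k * Y * q j) * (p i * X * p j + q j * X * q i)) * p k
      = ((p i * p i) * X * p j + (p i * q j) * X * q i) * (p j * Y * (p k * p k) +
          q k * Y * (q j * p k)) -
        ((p i * p j) * Y * p k + (p i * q k) * Y * q j) * (p i * X * p j + q j * X * q i) * p k := by
        noncomm_ring
    _ = p i * X * p j * (p j * Y * p k) := by
        rw [e1, e2, e3, e5, e6, e7]
        simp

/-- The operator `u f'` is in the block from `2` to `1`. -/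
theorem P3_u1 [CharZero K] (h : CoreN L) {s e f e' f' u : Module.End K V}
    (G : Grid L s e f e' f' u) : u * f' ∈ LL L (e * f) (e' * f') ∧ e * f * (u * f') = u * f' ∧
      u * f' * (e' * f') = u * f' ∧ e * f * (u * f' - f' * u) * (e' * f') = u * f' := by
  have hff' : f * f' = 0 := A2_mm G.F.f_mem G.F'.f_mem
  have h1 : e * f * (u * f') = u * f' := by
    calc e * f * (u * f') = (e * f * u + u * (f * e)) * f' - u * f * (e * f') := by noncomm_ring
      _ = u * f' := by rw [G.u1, G.o1, mul_zero, sub_zero]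
  have h2 : u * f' * (e' * f') = u * f' := by
    calc u * f' * (e' * f') = u * (f' * e' * f') := by noncomm_ring
      _ = u * f' := by rw [G.F'.fef]
  have h3 : e * f * (u * f' - f' * u) * (e' * f') = u * f' := by
    calc e * f * (u * f' - f' * u) * (e' * f') = e * f * (u * f') * (e' * f') -
          e * (f * f') * u * (e' * f') := by noncomm_ring
      _ = u * f' := by rw [h1, h2, hff']; simp
  exact ⟨⟨_, h.lie _ G.u_mem.1 _ G.F'.f_mem.1, h3.symm⟩, h1, h2, h3⟩

/-- The operator `u f` is in the block from `1` to `2`. -/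
theorem P3_u2 [CharZero K] (h : CoreN L) {s e f e' f' u : Module.End K V}
    (G : Grid L s e f e' f' u) : u * f ∈ LL L (e' * f') (e * f) ∧ e' * f' * (u * f) = u * f ∧
      u * f * (e * f) = u * f := by
  have hff' : f' * f = 0 := A2_mm G.F'.f_mem G.F.f_mem
  have h1 : e' * f' * (u * f) = u * f := by
    calc e' * f' * (u * f) = (e' * f' * u + u * (f' * e')) * f - u * f' * (e' * f) := by
          noncomm_ring
      _ = u * f := by rw [G.u2, G.o3, mul_zero, sub_zero]
  have h2 : u * f * (e * f) = u * f := by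
    calc u * f * (e * f) = u * (f * e * f) := by noncomm_ring
      _ = u * f := by rw [G.F.fef]
  refine ⟨⟨_, h.lie _ G.u_mem.1 _ G.F.f_mem.1, ?_⟩, h1, h2⟩
  symm
  calc e' * f' * (u * f - f * u) * (e * f) = e' * f' * (u * f) * (e * f) -
          e' * (f' * f) * u * (e * f) := by noncomm_ring
      _ = u * f := by rw [h1, h2, hff']; simp

theorem P3_u12 {s e f e' f' u : Module.End K V}
    (G : Grid L s e f e' f' u) : u * f' * (u * f) = e * f ∧ u * f * (u * f') = e' * f' := by
  constructor
  · rw [← mul_assoc, G.ufu']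
  · rw [← mul_assoc, G.ufu]

/-- Chunk P3b. The corners `p 1 X p 1`, `X ∈ L`, belong to the algebra generated by the products
`x y`, `x ∈ LL (p 1) (p 2)`, `y ∈ LL (p 2) (p 1)`. Write `p = pp ..`, `q = qq ..`, `u₁ = u f'`,
`u₂ = u f`. Then `u₁ = p 1 (u f' - f' u) p 2 ∈ LL (p 1) (p 2)`, `u₂ = p 2 (u f - f u) p 1 ∈
LL (p 2) (p 1)`, `u₁ u₂ = u f' u f = e f = p 1`, so `p 1` is in the algebra `C`.
By `A2_decomp` and `s p 1 = p 1` only the component in `L0` contributes, and by `A3_span` it is
enough to treat `p 1 (X Y - Y X) p 1 = p 1 X Y p 1`, `X ∈ Lp`, `Y ∈ Lm` (`X p 1 = X s p 1 = - X p 1`),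
which is the sum of `p 1 X q j Y p 1`, `j = 0, 1, 2` (as `Y = (q 0 + q 1 + q 2) Y`).
`j = 1`: `p 1 X q 1 = c e` and `q 1 Y p 1 = c' f` (`K0_ext` for the frame and its swap), product
`c c' p 1`. `j = 2`: `q 2 = f' e'`, `p 1 X f' = p 1 (X f' - f' X) p 2 ∈ LL (p 1) (p 2)`,
`e' Y p 1 = p 2 (e' Y - Y e') p 1 ∈ LL (p 2) (p 1)`.
`j = 0`: let `X' = p 1 X q 0 + p 0 X q 1`, `Y' = q 0 Y p 1 + q 1 Y p 0` (in `L`),
`Z = u f' - f' u`, `Y'' = Y' Z - Z Y' ∈ L`; `q 0 Y'' p 2 = q 0 Y p 1 u₁`, and with
`Y₃ = q 0 Y'' p 2 + q 2 Y'' p 0 ∈ L`: `p 1 (X' Y₃ - Y₃ X') p 2 = p 1 X q 0 Y p 1 u₁ ∈ LL (p 1) (p 2)`;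
multiply by `u₂ ∈ LL (p 2) (p 1)` on the right and use `u₁ u₂ = p 1`. -/
theorem P3_corner [CharZero K] [IsAlgClosed K] [FiniteDimensional K V] [Nontrivial V]
    (h : CoreN L) {s e f e' f' u : Module.End K V} (G : Grid L s e f e' f' u)
    {X : Module.End K V} (hX : X ∈ L) :
    e * f * X * (e * f) ∈ NonUnitalAlgebra.adjoin K {T : Module.End K V |
      ∃ x ∈ LL L (e * f) (e' * f'), ∃ y ∈ LL L (e' * f') (e * f), T = x * y} := by
  set S : Set (Module.End K V) := {T : Module.End K V |
      ∃ x ∈ LL L (e * f) (e' * f'), ∃ y ∈ LL L (e' * f') (e * f), T = x * y} with hS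
  have hl := h.lie
  have hSC : ∀ T ∈ S, T ∈ NonUnitalAlgebra.adjoin K S := fun T hT =>
    NonUnitalAlgebra.subset_adjoin K hT
  obtain ⟨hu1, hu1a, hu1b, hu1c⟩ := P3_u1 h G
  obtain ⟨hu2, hu2a, hu2b⟩ := P3_u2 h G
  obtain ⟨hu12, hu21⟩ := P3_u12 G
  have hp1 : e * f ∈ NonUnitalAlgebra.adjoin K S := hSC _ ⟨_, hu1, _, hu2, hu12.symm⟩
  have B := P2_blocks h G
  have hff' : f * f' = 0 := A2_mm G.F.f_mem G.F'.f_mem
  have he'e : e' * e = 0 := A2_pp G.F'.e_mem G.F.e_mem
  -- brackets
  have key : ∀ X ∈ Lp L s, ∀ Y ∈ Lm L s,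
      e * f * (X * Y - Y * X) * (e * f) ∈ NonUnitalAlgebra.adjoin K S := by
    intro X hX Y hY
    obtain ⟨p, hp⟩ : ∃ p, p = pp s e f e' f' := ⟨_, rfl⟩
    obtain ⟨q, hq⟩ : ∃ q, q = qq s e f e' f' := ⟨_, rfl⟩
    rw [← hp, ← hq] at B
    have p1 : p 1 = e * f := by rw [hp]; rfl
    have p2 : p 2 = e' * f' := by rw [hp]; rfl
    have q1 : q 1 = f * e := by rw [hq]; rfl
    have q2 : q 2 = f' * e' := by rw [hq]; rfl
    have hXe : X * e = 0 := A2_pp hX G.F.e_mem
    have hsp : ∀ i, s * p i = p i := by
      intro i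
      have hs2 := G.F.s_sq
      have t1 : s * (e * f) = e * f := by rw [← mul_assoc, G.F.e_mem.2.1]
      have t2 : s * (e' * f') = e' * f' := by rw [← mul_assoc, G.F'.e_mem.2.1]
      fin_cases i
      · change s * p 0 = p 0
        have : p 0 = (1 / 2 : K) • (1 + s) - e * f - e' * f' := by rw [hp]; rfl
        rw [this, mul_sub, mul_sub, t1, t2, mul_smul_comm, mul_add, hs2, mul_one, add_comm s]
      · change s * p 1 = p 1
        rw [p1, t1]
      · change s * p 2 = p 2
        rw [p2, t2]
    have hXp : ∀ i, X * p i = 0 := by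
      intro i
      have h1 : X * p i = -(X * p i) := by
        calc X * p i = X * (s * p i) := by rw [hsp]
          _ = (X * s) * p i := by rw [mul_assoc]
          _ = -(X * p i) := by rw [hX.2.2, neg_mul]
      have h2 : (2 : K) • (X * p i) = 0 := by
        rw [two_smul]
        nth_rewrite 1 [h1]
        exact neg_add_cancel _
      exact (smul_eq_zero.mp h2).resolve_left two_ne_zero
    have hXY : X * Y = X * q 0 * Y + X * q 1 * Y + X * q 2 * Y := by
      calc X * Y = X * 1 * Y := by rw [mul_one]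
        _ = X * (p 0 + p 1 + p 2 + (q 0 + q 1 + q 2)) * Y := by rw [B.sum]
        _ = (X * p 0 + X * p 1 + X * p 2) * Y + (X * q 0 * Y + X * q 1 * Y + X * q 2 * Y) := by
            noncomm_ring
        _ = _ := by rw [hXp, hXp, hXp]; simp
    have hsplit : e * f * (X * Y - Y * X) * (e * f) = e * f * (X * q 0 * Y) * (e * f) +
        e * f * (X * q 1 * Y) * (e * f) + e * f * (X * q 2 * Y) * (e * f) := by
      calc e * f * (X * Y - Y * X) * (e * f) = e * f * (X * Y) * (e * f) -
            e * f * Y * (X * e) * f := by noncomm_ring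
        _ = _ := by rw [hXe, hXY]; simp only [mul_zero, zero_mul, sub_zero]; noncomm_ring
    rw [hsplit]
    refine add_mem (add_mem ?_ ?_) ?_
    · -- the index zero
      have hX' := B.mp X hX.1 1 0 (by decide)
      have hY' := B.mm Y hY.1 0 1 (by decide)
      have hZ : u * f' - f' * u ∈ L := hl _ G.u_mem.1 _ G.F'.f_mem.1
      have hY'' := hl _ hY' _ hZ
      obtain ⟨Y2, hY2⟩ : ∃ Y2, Y2 = (q 0 * Y * p 1 + q 1 * Y * p 0) * (u * f' - f' * u) -
        (u * f' - f' * u) * (q 0 * Y * p 1 + q 1 * Y * p 0) := ⟨_, rfl⟩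
      rw [← hY2] at hY''
      have hY3 := B.mm Y2 hY'' 0 2 (by decide)
      have c1 : p 1 * p 2 = 0 := by rw [B.pp, if_neg (by decide)]
      have c2 : p 0 * p 2 = 0 := by rw [B.pp, if_neg (by decide)]
      have c3 : q 0 * q 0 = q 0 := by rw [B.qq, if_pos rfl]
      have c4 : q 0 * q 1 = 0 := by rw [B.qq, if_neg (by decide)]
      have c5 : p 1 * p 1 = p 1 := by rw [B.pp, if_pos rfl]
      have c6 : p 1 * p 0 = 0 := by rw [B.pp, if_neg (by decide)]
      have c7 : p 2 * p 2 = p 2 := by rw [B.pp, if_pos rfl]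
      have d1 : q 0 * Y2 * p 2 = q 0 * Y * (u * f') := by
        calc q 0 * Y2 * p 2 = ((q 0 * q 0) * Y * p 1 + (q 0 * q 1) * Y * p 0) *
              (u * f' - f' * u) * p 2 -
              q 0 * (u * f' - f' * u) * (q 0 * Y * (p 1 * p 2) + q 1 * Y * (p 0 * p 2)) := by
              rw [hY2]; noncomm_ring
          _ = q 0 * Y * (p 1 * (u * f' - f' * u) * p 2) := by
              rw [c1, c2, c3, c4]; simp only [mul_zero, zero_mul, add_zero, sub_zero]
              noncomm_ring
          _ = _ := by rw [p1, p2, hu1c]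
      have d2 : p 1 * ((p 1 * X * q 0 + p 0 * X * q 1) * (q 0 * Y2 * p 2 + q 2 * Y2 * p 0) -
          (q 0 * Y2 * p 2 + q 2 * Y2 * p 0) * (p 1 * X * q 0 + p 0 * X * q 1)) * p 2 =
          p 1 * X * q 0 * Y * (u * f') := by
        calc p 1 * ((p 1 * X * q 0 + p 0 * X * q 1) * (q 0 * Y2 * p 2 + q 2 * Y2 * p 0) -
          (q 0 * Y2 * p 2 + q 2 * Y2 * p 0) * (p 1 * X * q 0 + p 0 * X * q 1)) * p 2
            = ((p 1 * p 1) * X * q 0 + (p 1 * p 0) * X * q 1) * (q 0 * Y2 * (p 2 * p 2) +
              q 2 * Y2 * (p 0 * p 2)) -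
              p 1 * (q 0 * Y2 * p 2 + q 2 * Y2 * p 0) * (p 1 * X * (q 0 * p 2) +
              p 0 * X * (q 1 * p 2)) := by noncomm_ring
          _ = p 1 * X * q 0 * (q 0 * Y2 * p 2) := by
              rw [c5, c6, c7, c2, B.qp, B.qp]; simp
          _ = p 1 * X * (q 0 * q 0) * Y * (u * f') := by rw [d1]; noncomm_ring
          _ = _ := by rw [c3]
      refine hSC _ ⟨_, ⟨_, hl _ hX' _ hY3, rfl⟩, _, hu2, ?_⟩
      rw [← p1, ← p2, d2, p1]
      calc e * f * (X * q 0 * Y) * (e * f) = e * f * X * q 0 * Y * (u * f' * (u * f)) := by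
            rw [hu12]; noncomm_ring
        _ = _ := by noncomm_ring
    · -- the index one
      obtain ⟨a, ha⟩ := K0_ext hl G.F hX.1
      obtain ⟨b, hb⟩ := G.F.ext Y hY.1
      have : e * f * (X * q 1 * Y) * (e * f) = (a * b) • (e * f) := by
        calc e * f * (X * q 1 * Y) * (e * f) = e * f * X * (f * (e * f * e)) * Y * (e * f) := by
              rw [q1, G.F.efe]; noncomm_ring
          _ = (e * f * X * (f * e)) * f * (e * Y * e) * f := by noncomm_ring
          _ = (a * b) • (e * (f * e * f)) := by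
              rw [ha, hb]
              simp only [mul_smul_comm, smul_mul_assoc, smul_smul]
              rw [mul_comm b a]
              congr 1
          _ = _ := by rw [G.F.fef]
      rw [this]
      exact SMulMemClass.smul_mem _ hp1
    · -- the index two
      refine hSC _ ⟨_, ⟨_, hl _ hX.1 _ G.F'.f_mem.1, rfl⟩, _,
        ⟨_, hl _ G.F'.e_mem.1 _ hY.1, rfl⟩, ?_⟩
      have d1 : e * f * (X * f' - f' * X) * (e' * f') = e * f * X * f' := by
        calc e * f * (X * f' - f' * X) * (e' * f') = e * f * X * (f' * e' * f') -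
              e * (f * f') * X * (e' * f') := by noncomm_ring
          _ = _ := by rw [G.F'.fef, hff']; simp
      have d2 : e' * f' * (e' * Y - Y * e') * (e * f) = e' * Y * (e * f) := by
        calc e' * f' * (e' * Y - Y * e') * (e * f) = (e' * f' * e') * Y * (e * f) -
              e' * f' * Y * (e' * e) * f := by noncomm_ring
          _ = _ := by rw [G.F'.efe, he'e]; simp
      rw [d1, d2, q2]
      noncomm_ring
  -- the general case
  obtain ⟨a, ha, b, hb, c, hc, hXabc⟩ := A2_decomp h G.F.s_mem G.F.s_sq hX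
  have hX2 : e * f * X * (e * f) = e * f * b * (e * f) := by
    have h1 : a * e = 0 := A2_pp ha G.F.e_mem
    have h2 : f * c = 0 := A2_mm G.F.f_mem hc
    calc e * f * X * (e * f) = e * f * (a * e) * f + e * f * b * (e * f) +
          e * (f * c) * (e * f) := by rw [hXabc]; noncomm_ring
      _ = _ := by rw [h1, h2]; simp
  rw [hX2]
  have hspan := A3_span h G.F.s_mem G.F.s_sq hb
  refine Submodule.span_induction (p := fun b _ => e * f * b * (e * f) ∈
    NonUnitalAlgebra.adjoin K S) ?_ ?_ ?_ ?_ hspan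
  · rintro _ ⟨X, hX, Y, hY, rfl⟩
    exact key X hX Y hY
  · simp only [mul_zero, zero_mul]; exact zero_mem _
  · intro x y _ _ h1 h2
    rw [mul_add, add_mul]; exact add_mem h1 h2
  · intro t x _ h1
    rw [mul_smul_comm, smul_mul_assoc]
    exact SMulMemClass.smul_mem _ h1

end Pool.Agent.H86N
end

-- from Lib.H86N.P5
section

/-!
# P5: the dichotomy
-/

set_option autoImplicit false
set_option linter.unusedSectionVars false
namespace Pool.Agent.H86N
open Module Pool.Agent.H53Toric Pool.Agent.H49M

variable {K : Type*} [Field K] {V : Type*} [AddCommGroup V] [Module K V]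

variable {L : Submodule K (Module.End K V)}

/-- Chunk P5a. Every corner operator is in the algebra generated by the products
`x y`, `x ∈ LL (p 1) (p 2)`, `y ∈ LL (p 2) (p 1)`: `P4_burnside` with `P4_irr`, `P3_corner`
(`p 1 = u₁ u₂` is in the algebra, see `P3_corner`). -/
theorem P5_all [CharZero K] [IsAlgClosed K] [FiniteDimensional K V] [Nontrivial V]
    (h : CoreN L) {s e f e' f' u : Module.End K V} (G : Grid L s e f e' f' u)
    (T : Module.End K V) :
    e * f * T * (e * f) ∈ NonUnitalAlgebra.adjoin K {T : Module.End K V |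
      ∃ x ∈ LL L (e * f) (e' * f'), ∃ y ∈ LL L (e' * f') (e * f), T = x * y} := by
  set S : Set (Module.End K V) := {T : Module.End K V |
      ∃ x ∈ LL L (e * f) (e' * f'), ∃ y ∈ LL L (e' * f') (e * f), T = x * y} with hS
  obtain ⟨hu1, -, -, -⟩ := P3_u1 h G
  obtain ⟨hu2, -, -⟩ := P3_u2 h G
  obtain ⟨hu12, -⟩ := P3_u12 G
  have hp1 : e * f ∈ NonUnitalAlgebra.adjoin K S :=
    NonUnitalAlgebra.subset_adjoin K ⟨_, hu1, _, hu2, hu12.symm⟩
  have pp : e * f * (e * f) = e * f := by rw [← mul_assoc, G.F.efe]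
  have hp0 : e * f ≠ 0 := by
    intro h0
    apply G.F.e_ne
    rw [← G.F.efe, h0, zero_mul]
  refine P4_burnside pp hp0 _ hp1 ?_ ?_ T
  · intro a ha
    induction ha using NonUnitalAlgebra.adjoin_induction with
    | mem a ha =>
      obtain ⟨_, ⟨X, hX, rfl⟩, _, ⟨Y, hY, rfl⟩, rfl⟩ := ha
      constructor
      · calc e * f * (e * f * X * (e' * f') * (e' * f' * Y * (e * f))) =
            e * f * (e * f) * X * (e' * f') * (e' * f' * Y * (e * f)) := by noncomm_ring
          _ = _ := by rw [pp]
      · calc e * f * X * (e' * f') * (e' * f' * Y * (e * f)) * (e * f) =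
            e * f * X * (e' * f') * (e' * f' * Y * (e * f * (e * f))) := by noncomm_ring
          _ = _ := by rw [pp]
    | add a b _ _ h1 h2 => exact ⟨by rw [mul_add, h1.1, h2.1], by rw [add_mul, h1.2, h2.2]⟩
    | zero => simp
    | mul a b _ _ h1 h2 =>
      exact ⟨by rw [← mul_assoc, h1.1], by rw [mul_assoc, h2.2]⟩
    | smul r a _ h1 =>
      exact ⟨by rw [mul_smul_comm, h1.1], by rw [smul_mul_assoc, h1.2]⟩
  · intro W hW hW0 hst v
    refine P4_irr h G.F hW hW0 ?_ v
    intro X hX w hw
    have h1 := hst _ (P3_corner h G hX) w hw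
    rw [Module.End.mul_apply, Module.End.mul_apply, hW w hw] at h1
    exact h1

/-- A nonzero two-sided ideal of the corner algebra is everything. -/
theorem P5_ideal [FiniteDimensional K V] {p : Module.End K V} (hp : p * p = p)
    (M : Submodule K (Module.End K V)) (hM : ∀ m ∈ M, p * m = m ∧ m * p = m)
    (hl : ∀ T : Module.End K V, ∀ m ∈ M, p * T * p * m ∈ M)
    (hr : ∀ T : Module.End K V, ∀ m ∈ M, m * (p * T * p) ∈ M) (h0 : M ≠ ⊥)
    (T : Module.End K V) : p * T * p ∈ M := by
  obtain ⟨m, hm, hm0⟩ := Submodule.exists_mem_ne_zero_of_ne_bot h0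
  obtain ⟨v₀, hv₀⟩ : ∃ v, m v ≠ 0 := by
    by_contra hcon
    push Not at hcon
    exact hm0 (LinearMap.ext hcon)
  obtain ⟨φ, hφ⟩ := Module.Projective.exists_dual_ne_zero (R := K) hv₀
  -- rank one operators
  have key : ∀ (ψ : V →ₗ[K] K) (z : V), p * (ψ.smulRight z : Module.End K V) * p ∈ M := by
    intro ψ z
    have h1 := hl ((φ.smulRight z : Module.End K V)) _ (hr (ψ.smulRight v₀ : Module.End K V) m hm)
    have h2 : p * (φ.smulRight z : Module.End K V) * p * (m * (p * (ψ.smulRight v₀ : Module.End K V)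
        * p)) = (φ (m v₀)) • (p * (ψ.smulRight z : Module.End K V) * p) := by
      have e1 : p * (φ.smulRight z : Module.End K V) * p * (m * (p * (ψ.smulRight v₀ :
          Module.End K V) * p)) = p * (φ.smulRight z : Module.End K V) * (p * m * p) *
          (ψ.smulRight v₀ : Module.End K V) * p := by noncomm_ring
      rw [e1, (hM m hm).1, (hM m hm).2]
      ext v
      simp only [Module.End.mul_apply, LinearMap.smulRight_apply, LinearMap.smul_apply, map_smul,
        smul_smul, smul_eq_mul]
      rw [mul_comm]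
    rw [h2] at h1
    have h3 := M.smul_mem (φ (m v₀))⁻¹ h1
    rwa [smul_smul, inv_mul_cancel₀ hφ, one_smul] at h3
  have hT : T = ∑ i, ((Module.finBasis K V).coord i).smulRight (T (Module.finBasis K V i)) := by
    ext v
    rw [LinearMap.sum_apply]
    conv_lhs => rw [← (Module.finBasis K V).sum_repr v]
    rw [map_sum]
    refine Finset.sum_congr rfl fun i _ => ?_
    rw [map_smul]; rfl
  rw [hT, Finset.mul_sum, Finset.sum_mul]
  exact M.sum_mem fun i _ => key _ _

/-- Chunk P5b. Let `p = pp ..`, `u₁ = u f' ∈ LL (p 1) (p 2)`, `u₂ = u f ∈ LL (p 2) (p 1)`,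
`u₁ u₂ = p 1`, `u₂ u₁ = p 2`, `M` the span of the products `x y`, `x ∈ LL (p 1) (p 0)`,
`y ∈ LL (p 0) (p 1)`, `C` the algebra of `P5_all`. By `P3_mul` (distinct indices)
`LL (p 1)(p 2) · LL (p 2)(p 1) · LL (p 1)(p 0) ⊆ LL (p 1)(p 0)` and
`LL (p 0)(p 1) · LL (p 1)(p 2) · LL (p 2)(p 1) ⊆ LL (p 0)(p 1)`, so `C M ⊆ M`, `M C ⊆ M`; by
`P5_all` `M` is a two-sided ideal of the algebra of all `T = p 1 T p 1`. If `M ≠ 0`, then `M` is
everything (for `m = p 1 m p 1 ≠ 0` every rank one corner operator is `a m b` with corner operators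
`a, b`). For `x y ∈ M`: `x (y u₁) ∈ LL (p 1) (p 2)` by `P3_mul` twice, so `T u₁ ∈ LL (p 1) (p 2)`
for all `T ∈ M`: first alternative.
If `M = 0`: show `p 0 = 0`. Let `W` be the span of `range (p 1)`, `range (p 2)`,
`y v` (`y ∈ LL (p 0)(p 1)` or `LL (p 0)(p 2)`). It is stable under `L0`: for `Z ∈ L0`
(commutes with `s`, so `Z = ∑ p i Z p j + ∑ q i Z q j`) and `y = p 0 Y p 1`: `p 1 Z y = (p 1 Z p 0) y`
is in `M = 0`; `p 2 Z y = u₂ (u₁ (p 2 Z p 0)) y` with `u₁ (p 2 Z p 0) ∈ LL (p 1)(p 0)`, so zero;
`p 0 Z y`: with `Z₀` the block diagonal part of `Z` (`md`) and `Y' = p 0 Y p 1 + q 1 Y q 0`,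
`p 0 (Z₀ Y' - Y' Z₀) p 1 = p 0 Z y - y (p 1 Z p 1)`, so `p 0 Z y v ∈ LL(p 0)(p 1) v + y V ⊆ W`. For
`y ∈ LL (p 0)(p 2)` write `y = (y u₂) u₁` with `y u₂ ∈ LL (p 0)(p 1)`: same vectors. By `A3_vec`
`W = V₊` (`e ≠ 0` so `p 1 ≠ 0`). Hence `p 0 V = span LL(p 0)(p 1) V`, on which all
`p 1 Z p 0` and `p 2 Z p 0`, `Z ∈ L`, vanish: so these operators are zero and `range (p 0)` is
stable under `L0`; if it were nonzero it would be `V₊` by `A3_vec`, contradicting `p 1 ≠ 0`. -/
theorem P5_dich [CharZero K] [IsAlgClosed K] [FiniteDimensional K V] [Nontrivial V]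
    (h : CoreN L) {s e f e' f' u : Module.End K V} (G : Grid L s e f e' f' u) :
    (∀ T : Module.End K V, e * f * T * (e * f) * (u * f') ∈ LL L (e * f) (e' * f')) ∨
    (1 / 2 : K) • (1 + s) = e * f + e' * f' := by
  have hl := h.lie
  have B := P2_blocks h G
  obtain ⟨hu1, -, -, -⟩ := P3_u1 h G
  obtain ⟨hu2, -, -⟩ := P3_u2 h G
  obtain ⟨hu12, hu21⟩ := P3_u12 G
  have hall := P5_all h G
  obtain ⟨p, hp⟩ : ∃ p, p = pp s e f e' f' := ⟨_, rfl⟩
  obtain ⟨q, hq⟩ : ∃ q, q = qq s e f e' f' := ⟨_, rfl⟩
  rw [← hp, ← hq] at B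
  have p0 : p 0 = (1 / 2 : K) • (1 + s) - e * f - e' * f' := by rw [hp]; rfl
  have p1 : p 1 = e * f := by rw [hp]; rfl
  have p2 : p 2 = e' * f' := by rw [hp]; rfl
  rw [← p1, ← p2] at hu1 hu2
  rw [← p1] at hu12
  rw [← p2] at hu21
  simp only [← p1, ← p2] at hall ⊢
  have n10 : (1 : Fin 3) ≠ 0 := by decide
  have n12 : (1 : Fin 3) ≠ 2 := by decide
  have n20 : (2 : Fin 3) ≠ 0 := by decide
  have c11 : p 1 * p 1 = p 1 := by rw [B.pp, if_pos rfl]
  have c22 : p 2 * p 2 = p 2 := by rw [B.pp, if_pos rfl]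
  have c00 : p 0 * p 0 = p 0 := by rw [B.pp, if_pos rfl]
  have c01 : p 0 * p 1 = 0 := by rw [B.pp, if_neg n10.symm]
  have c02 : p 0 * p 2 = 0 := by rw [B.pp, if_neg n20.symm]
  obtain ⟨M, hMdef⟩ : ∃ M : Submodule K (Module.End K V), M = Submodule.span K
    {T | ∃ x ∈ LL L (p 1) (p 0), ∃ y ∈ LL L (p 0) (p 1), T = x * y} := ⟨_, rfl⟩
  have hMgen : ∀ x ∈ LL L (p 1) (p 0), ∀ y ∈ LL L (p 0) (p 1), x * y ∈ M := fun x hx y hy => by
    rw [hMdef]; exact Submodule.subset_span ⟨x, hx, y, hy, rfl⟩
  -- the algebra acts on `M`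
  have hCM : ∀ c ∈ NonUnitalAlgebra.adjoin K {T : Module.End K V |
      ∃ x ∈ LL L (p 1) (p 2), ∃ y ∈ LL L (p 2) (p 1), T = x * y}, ∀ m ∈ M,
      c * m ∈ M ∧ m * c ∈ M := by
    intro c hc
    induction hc using NonUnitalAlgebra.adjoin_induction with
    | mem a ha =>
      obtain ⟨x, hx, y, hy, rfl⟩ := ha
      intro m hm
      rw [hMdef] at hm
      induction hm using Submodule.span_induction with
      | mem m hm =>
        obtain ⟨x', hx', y', hy', rfl⟩ := hm
        constructor
        · have h1 := P3_mul hl B n12 n20 n10 hx (P3_mul hl B n12.symm n10 n20 hy hx')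
          have h2 := hMgen _ h1 _ hy'
          convert h2 using 1
          noncomm_ring
        · have h1 := P3_mul hl B n20.symm n12.symm n10.symm
            (P3_mul hl B n10.symm n12 n20.symm hy' hx) hy
          have h2 := hMgen _ hx' _ h1
          convert h2 using 1
          noncomm_ring
      | zero => simp
      | add a b _ _ h1 h2 =>
        exact ⟨by rw [mul_add]; exact M.add_mem h1.1 h2.1,
          by rw [add_mul]; exact M.add_mem h1.2 h2.2⟩
      | smul r a _ h1 =>
        exact ⟨by rw [mul_smul_comm]; exact M.smul_mem _ h1.1,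
          by rw [smul_mul_assoc]; exact M.smul_mem _ h1.2⟩
    | add a b _ _ h1 h2 =>
      intro m hm
      exact ⟨by rw [add_mul]; exact M.add_mem (h1 m hm).1 (h2 m hm).1,
        by rw [mul_add]; exact M.add_mem (h1 m hm).2 (h2 m hm).2⟩
    | zero => intro m _; simp
    | mul a b _ _ h1 h2 =>
      intro m hm
      exact ⟨by rw [mul_assoc]; exact (h1 _ (h2 m hm).1).1,
        by rw [← mul_assoc]; exact (h2 _ (h1 m hm).2).2⟩
    | smul r a _ h1 =>
      intro m hm
      exact ⟨by rw [smul_mul_assoc]; exact M.smul_mem _ (h1 m hm).1,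
        by rw [mul_smul_comm]; exact M.smul_mem _ (h1 m hm).2⟩
  by_cases hM0 : M = ⊥
  · -- the second alternative
    right
    have hMz : ∀ x ∈ LL L (p 1) (p 0), ∀ y ∈ LL L (p 0) (p 1), x * y = 0 := fun x hx y hy => by
      have h1 := hMgen x hx y hy
      rwa [hM0, Submodule.mem_bot] at h1
    have hPsum : ∀ v, s v = v → p 0 v + p 1 v + p 2 v = v := by
      intro v hv
      rw [p0, p1, p2]
      simp only [LinearMap.sub_apply, LinearMap.smul_apply, LinearMap.add_apply,
        Module.End.one_apply, hv]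
      rw [← two_smul K, smul_smul]
      norm_num
      abel
    have hs1 : s * p 1 = p 1 := by rw [p1, ← mul_assoc, G.F.e_mem.2.1]
    have hs2 : s * p 2 = p 2 := by rw [p2, ← mul_assoc, G.F'.e_mem.2.1]
    have hs0 : s * p 0 = p 0 := by
      rw [p1] at hs1
      rw [p2] at hs2
      rw [p0, mul_sub, mul_sub, hs1, hs2, mul_smul_comm, mul_add, G.F.s_sq, mul_one, add_comm s]
    have p1ne : p 1 ≠ 0 := by
      intro h0
      apply G.F.e_ne
      rw [← G.F.efe, ← p1, h0, zero_mul]
    obtain ⟨x₀, hx₀⟩ : ∃ x, p 1 x ≠ 0 := by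
      by_contra hcon
      push Not at hcon
      exact p1ne (LinearMap.ext hcon)
    have hs1v : ∀ x, s (p 1 x) = p 1 x := fun x => by rw [← Module.End.mul_apply, hs1]
    have hs0v : ∀ x, s (p 0 x) = p 0 x := fun x => by rw [← Module.End.mul_apply, hs0]
    have ap : ∀ {A B : Module.End K V} (w : V), A = B → A w = B w := by
      intro A B w hAB; rw [hAB]
    -- the annihilated vectors
    let N : Submodule K V :=
      { carrier := {v | p 0 v = v ∧ ∀ Z ∈ L, p 1 (Z v) = 0 ∧ p 2 (Z v) = 0}
        add_mem' := by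
          rintro a b ⟨h1, h2⟩ ⟨h3, h4⟩
          refine ⟨by rw [map_add, h1, h3], fun Z hZ => ?_⟩
          rw [map_add, map_add, map_add, (h2 Z hZ).1, (h2 Z hZ).2, (h4 Z hZ).1, (h4 Z hZ).2]
          simp
        zero_mem' := by simp
        smul_mem' := by
          rintro c a ⟨h1, h2⟩
          refine ⟨by rw [map_smul, h1], fun Z hZ => ?_⟩
          rw [map_smul, map_smul, map_smul, (h2 Z hZ).1, (h2 Z hZ).2]
          simp }
    have hNs : ∀ v ∈ N, s v = v := by
      rintro v ⟨h1, -⟩
      rw [← h1, hs0v]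
    have hN : N = ⊥ := by
      by_contra hN0
      have h1 : p 1 x₀ ∈ N := by
        refine A3_vec h G.F.s_mem G.F.s_sq hNs hN0 ?_ (hs1v x₀)
        rintro Z ⟨hZ, hsZ⟩ w hw
        have hsw := hNs w hw
        obtain ⟨hw1, hw2⟩ := hw
        have hZw : s (Z w) = Z w := by
          rw [← Module.End.mul_apply, hsZ, Module.End.mul_apply, hsw]
        have hZw0 : p 0 (Z w) = Z w := by
          have h3 := hPsum _ hZw
          rwa [(hw2 Z hZ).1, (hw2 Z hZ).2, add_zero, add_zero] at h3
        refine ⟨hZw0, fun Z' hZ' => ?_⟩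
        have gen : ∀ i : Fin 3, i ≠ 0 → (∀ Z ∈ L, p i (Z w) = 0) → p i (Z' (Z w)) = 0 := by
          intro i hi hiw
          have hA := B.m0 Z' hZ' i 0 hi
          obtain ⟨A, hAdef⟩ : ∃ A, A = p i * Z' * p 0 + q 0 * Z' * q i := ⟨_, rfl⟩
          rw [← hAdef] at hA
          have hAw : A w = 0 := by
            have e1 : A * p 0 = p i * Z' * p 0 := by
              rw [hAdef, add_mul, mul_assoc _ (p 0), c00, mul_assoc _ (q i), B.qp, mul_zero,
                add_zero]
            have e2 := ap w e1
            rw [Module.End.mul_apply, Module.End.mul_apply, Module.End.mul_apply, hw1] at e2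
            rw [e2, hiw Z' hZ']
          have e3 : p i (Z' (Z w)) = p i (A (Z w)) := by
            have e1 : p i * A * p 0 = p i * Z' * p 0 := by
              have e4 : p i * p i = p i := by rw [B.pp, if_pos rfl]
              rw [hAdef, mul_add, add_mul, ← mul_assoc, ← mul_assoc, e4, mul_assoc _ (p 0), c00,
                ← mul_assoc, ← mul_assoc, B.pq, zero_mul, zero_mul, zero_mul, add_zero]
            have e2 := ap (Z w) e1
            simp only [Module.End.mul_apply] at e2
            rw [hZw0] at e2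
            exact e2.symm
          have h4 := hiw _ (hl A hA Z hZ)
          rw [LinearMap.sub_apply, Module.End.mul_apply, Module.End.mul_apply, hAw, map_zero,
            sub_zero] at h4
          rw [e3, h4]
        exact ⟨gen 1 n10 fun Z hZ => (hw2 Z hZ).1, gen 2 n20 fun Z hZ => (hw2 Z hZ).2⟩
      have h2 := h1.1
      rw [← Module.End.mul_apply, c01, LinearMap.zero_apply] at h2
      exact hx₀ h2.symm
    have hLL01 : ∀ y ∈ LL L (p 0) (p 1), y = 0 := by
      rintro y hy
      ext v
      have hyv : y v ∈ N := by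
        have hp0y : p 0 * y = y := by
          obtain ⟨Y, hY, rfl⟩ := hy
          rw [← mul_assoc, ← mul_assoc, c00]
        have h0y : p 0 (y v) = y v := by rw [← Module.End.mul_apply, hp0y]
        refine ⟨h0y, fun Z hZ => ⟨?_, ?_⟩⟩
        · have h1 := hMz _ ⟨Z, hZ, rfl⟩ y hy
          have h2 := ap v h1
          simp only [Module.End.mul_apply, LinearMap.zero_apply] at h2
          rwa [h0y] at h2
        · have h1 := hMz _ (P3_mul hl B n12 n20 n10 hu1 ⟨Z, hZ, rfl⟩) y hy
          have h2 : p 2 * Z * y = 0 := by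
            calc p 2 * Z * y = (p 2 * p 2) * Z * (p 0 * y) := by rw [c22, hp0y]
              _ = (u * f * (u * f')) * p 2 * Z * (p 0 * y) := by rw [hu21]
              _ = u * f * (u * f' * (p 2 * Z * p 0) * y) := by noncomm_ring
              _ = 0 := by rw [h1, mul_zero]
          have h3 := ap v h2
          simpa only [Module.End.mul_apply, LinearMap.zero_apply] using h3
      rw [hN, Submodule.mem_bot] at hyv
      rw [hyv]; rfl
    have hLL02 : ∀ y ∈ LL L (p 0) (p 2), y = 0 := by
      intro y hy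
      have h1 := hLL01 _ (P3_mul hl B n20.symm n12.symm n10.symm hy hu2)
      have hy2 : y * p 2 = y := by
        obtain ⟨Y, hY, rfl⟩ := hy
        rw [mul_assoc, c22]
      calc y = y * (u * f * (u * f')) := by rw [hu21, hy2]
        _ = y * (u * f) * (u * f') := by noncomm_ring
        _ = 0 := by rw [h1, zero_mul]
    -- the complement
    have hp00 : p 0 = 0 := by
      ext v
      let W : Submodule K V :=
        { carrier := {v | s v = v ∧ p 0 v = 0}
          add_mem' := by
            rintro a b ⟨h1, h2⟩ ⟨h3, h4⟩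
            exact ⟨by rw [map_add, h1, h3], by rw [map_add, h2, h4, add_zero]⟩
          zero_mem' := by simp
          smul_mem' := by
            rintro c a ⟨h1, h2⟩
            exact ⟨by rw [map_smul, h1], by rw [map_smul, h2, smul_zero]⟩ }
      have h1 : p 0 v ∈ W := by
        refine A3_vec h G.F.s_mem G.F.s_sq (W := W) (fun w hw => hw.1) ?_ ?_ (hs0v v)
        · intro h0
          have h2 : p 1 x₀ ∈ W := ⟨hs1v x₀, by
            rw [← Module.End.mul_apply, c01, LinearMap.zero_apply]⟩
          rw [h0, Submodule.mem_bot] at h2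
          exact hx₀ h2
        · rintro Z ⟨hZ, hsZ⟩ w ⟨hw1, hw2⟩
          refine ⟨by rw [← Module.End.mul_apply, hsZ, Module.End.mul_apply, hw1], ?_⟩
          have h3 := hPsum w hw1
          rw [hw2, zero_add] at h3
          rw [← h3, map_add, map_add]
          have h4 := ap w (hLL01 _ ⟨Z, hZ, rfl⟩)
          have h5 := ap w (hLL02 _ ⟨Z, hZ, rfl⟩)
          simp only [Module.End.mul_apply, LinearMap.zero_apply] at h4 h5
          rw [h4, h5, add_zero]
      have h2 := h1.2
      rw [← Module.End.mul_apply, c00] at h2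
      rw [h2]; rfl
    rw [p0] at hp00
    rw [p1, p2]
    rw [sub_sub, sub_eq_zero] at hp00
    exact hp00
  · left
    intro T
    have hMp : ∀ m ∈ M, p 1 * m = m ∧ m * p 1 = m := by
      intro m hm
      rw [hMdef] at hm
      induction hm using Submodule.span_induction with
      | mem m hm =>
        obtain ⟨_, ⟨X, hX, rfl⟩, _, ⟨Y, hY, rfl⟩, rfl⟩ := hm
        constructor
        · simp only [← mul_assoc]; rw [c11]
        · simp only [mul_assoc]; rw [c11]
      | zero => simp
      | add a b _ _ h1 h2 => exact ⟨by rw [mul_add, h1.1, h2.1], by rw [add_mul, h1.2, h2.2]⟩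
      | smul r a _ h1 => exact ⟨by rw [mul_smul_comm, h1.1], by rw [smul_mul_assoc, h1.2]⟩
    have hT := P5_ideal c11 M hMp (fun T m hm => (hCM _ (hall T) m hm).1)
      (fun T m hm => (hCM _ (hall T) m hm).2) hM0 T
    have hfin : ∀ m ∈ M, m * (u * f') ∈ LL L (p 1) (p 2) := by
      intro m hm
      rw [hMdef] at hm
      induction hm using Submodule.span_induction with
      | mem m hm =>
        obtain ⟨x, hx, y, hy, rfl⟩ := hm
        rw [mul_assoc]
        exact P3_mul hl B n10 n20.symm n12 hx (P3_mul hl B n10.symm n12 n20.symm hy hu1)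
      | zero => rw [zero_mul]; exact (LL L (p 1) (p 2)).zero_mem
      | add a b _ _ h1 h2 => rw [add_mul]; exact (LL L (p 1) (p 2)).add_mem h1 h2
      | smul r a _ h1 => rw [smul_mul_assoc]; exact (LL L (p 1) (p 2)).smul_mem r h1
    exact hfin _ hT

end Pool.Agent.H86N
end

-- from Lib.H86N.P6
section

/-!
# P6: if the block between two frames is everything, the rank is at most two
-/

set_option autoImplicit false
set_option linter.unusedSectionVars false
namespace Pool.Agent.H86N
open Module Pool.Agent.H53Toric Pool.Agent.H49M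

variable {K : Type*} [Field K] {V : Type*} [AddCommGroup V] [Module K V]

/-- The restriction of an operator to the range of `p`. -/
noncomputable def res (p T : Module.End K V) : Module.End K (LinearMap.range p) :=
  p.rangeRestrict ∘ₗ T ∘ₗ (LinearMap.range p).subtype

theorem res_coe (p T : Module.End K V) (u : LinearMap.range p) : ((res p T u : LinearMap.range p) : V) = p (T u) := rfl

theorem res_add (p T S : Module.End K V) : res p (T + S) = res p T + res p S := by
  ext u
  simp [res_coe]

theorem res_smul (p T : Module.End K V) (c : K) : res p (c • T) = c • res p T := by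
  ext u
  simp [res_coe]

theorem res_zero (p : Module.End K V) : res p (0 : Module.End K V) = 0 := by
  ext u
  simp [res_coe]

theorem res_mul {p T S : Module.End K V} (h : T * p = T) : res p T * res p S = res p (T * S) := by
  ext u
  rw [Module.End.mul_apply, res_coe, res_coe, res_coe]
  have h1 : T (p (S u)) = T (S u) := by
    rw [← Module.End.mul_apply T p, h]
  rw [h1, Module.End.mul_apply]

theorem res_fix {p : Module.End K V} (hp : p * p = p) (u : LinearMap.range p) : p (u : V) = u := by
  obtain ⟨_, ⟨v, rfl⟩⟩ := u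
  show p (p v) = p v
  rw [← Module.End.mul_apply, hp]

theorem res_self {p : Module.End K V} (hp : p * p = p) : res p p = 1 := by
  ext u
  rw [res_coe, res_fix hp, res_fix hp]
  rfl

theorem res_inj {p T S : Module.End K V} (h1 : p * T = T) (h2 : T * p = T) (h3 : p * S = S) (h4 : S * p = S)
    (h : res p T = res p S) : T = S := by
  ext v
  have h5 := congrArg Subtype.val (LinearMap.congr_fun h ⟨p v, v, rfl⟩)
  rw [res_coe, res_coe] at h5
  have h6 : p (T (p v)) = T v := by
    rw [← Module.End.mul_apply T p, h2, ← Module.End.mul_apply p T, h1]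
  have h7 : p (S (p v)) = S v := by
    rw [← Module.End.mul_apply S p, h4, ← Module.End.mul_apply p S, h3]
  rw [← h6, ← h7]
  exact h5

theorem res_trace [FiniteDimensional K V] {p T : Module.End K V} (h1 : p * T = T) :
    LinearMap.trace K (LinearMap.range p) (res p T) = LinearMap.trace K V T := by
  have h2 : T = (LinearMap.range p).subtype ∘ₗ (p.rangeRestrict ∘ₗ T) := by
    ext v
    show T v = p (T v)
    rw [← Module.End.mul_apply, h1]
  conv_rhs => rw [h2]
  rw [LinearMap.trace_comp_comm']
  rfl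

theorem res_onto {p : Module.End K V} (hp : p * p = p) (A : Module.End K (LinearMap.range p)) :
    ∃ T : Module.End K V, res p (p * T * p) = A := by
  refine ⟨(LinearMap.range p).subtype ∘ₗ A ∘ₗ p.rangeRestrict, ?_⟩
  ext u
  rw [res_coe]
  show p (p ((A (p.rangeRestrict (p u)) : LinearMap.range p) : V)) = _
  have h1 : p.rangeRestrict (p u) = u := by
    apply Subtype.ext
    show p (p u) = u
    rw [res_fix hp, res_fix hp]
  rw [h1, res_fix hp, res_fix hp]

variable {L : Submodule K (Module.End K V)}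

/-- The product of the two parts of an element of the block is scalar. -/
theorem P6_prod [CharZero K] (h : CoreN L) {s e f e' f' u : Module.End K V}
    (G : Grid L s e f e' f' u) {X : Module.End K V} (hX : X ∈ L) :
    ∃ c : K, (e * f * X * (u * f)) * (u * f' * e' * X * f) = c • (e * f) := by
  have hl := h.lie
  have B := P2_blocks h G
  obtain ⟨p, hp⟩ : ∃ p, p = pp s e f e' f' := ⟨_, rfl⟩
  obtain ⟨q, hq⟩ : ∃ q, q = qq s e f e' f' := ⟨_, rfl⟩
  rw [← hp, ← hq] at B
  have p1 : p 1 = e * f := by rw [hp]; rfl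
  have p2 : p 2 = e' * f' := by rw [hp]; rfl
  have q1 : q 1 = f * e := by rw [hq]; rfl
  have q2 : q 2 = f' * e' := by rw [hq]; rfl
  have hZ := B.m0 X hX 1 2 (by decide)
  have he'L := G.F'.e_mem.1
  have h1 := hl _ hZ _ he'L
  have h2 := hl _ hZ _ h1
  have hee' : e * e' = 0 := A2_pp G.F.e_mem G.F'.e_mem
  have he'e : e' * e = 0 := A2_pp G.F'.e_mem G.F.e_mem
  have c1 : q 1 * e' = 0 := by rw [q1, mul_assoc, hee', mul_zero]
  have c2 : e' * p 1 = 0 := by rw [p1, ← mul_assoc, he'e, zero_mul]
  have c3 : p 2 * p 1 = 0 := by rw [B.pp, if_neg (by decide)]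
  have c4 : q 1 * q 2 = 0 := by rw [B.qq, if_neg (by decide)]
  have c5 : q 1 * p 1 = 0 := B.qp 1 1
  have e1 : (p 1 * X * p 2 + q 2 * X * q 1) * e' - e' * (p 1 * X * p 2 + q 2 * X * q 1) =
      p 1 * X * p 2 * e' - e' * (q 2 * X * q 1) := by
    calc (p 1 * X * p 2 + q 2 * X * q 1) * e' - e' * (p 1 * X * p 2 + q 2 * X * q 1)
        = p 1 * X * p 2 * e' + q 2 * X * (q 1 * e') - ((e' * p 1) * X * p 2 +
          e' * (q 2 * X * q 1)) := by noncomm_ring
      _ = _ := by rw [c1, c2]; simp
  have e2 : (p 1 * X * p 2 + q 2 * X * q 1) * (p 1 * X * p 2 * e' - e' * (q 2 * X * q 1)) -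
      (p 1 * X * p 2 * e' - e' * (q 2 * X * q 1)) * (p 1 * X * p 2 + q 2 * X * q 1) =
      (-2 : K) • (p 1 * X * p 2 * e' * (q 2 * X * q 1)) := by
    have e3 : (p 1 * X * p 2 + q 2 * X * q 1) * (p 1 * X * p 2 * e' - e' * (q 2 * X * q 1)) -
        (p 1 * X * p 2 * e' - e' * (q 2 * X * q 1)) * (p 1 * X * p 2 + q 2 * X * q 1) =
        p 1 * X * (p 2 * p 1) * X * p 2 * e' - p 1 * X * p 2 * e' * (q 2 * X * q 1) +
        q 2 * X * (q 1 * p 1) * X * p 2 * e' - q 2 * X * (q 1 * e') * (q 2 * X * q 1) -
        (p 1 * X * p 2 * (e' * p 1) * X * p 2 + p 1 * X * p 2 * e' * (q 2 * X * q 1) -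
          e' * (q 2 * X * (q 1 * p 1) * X * p 2) - e' * (q 2 * X * (q 1 * q 2) * X * q 1)) := by
      noncomm_ring
    rw [e3, c1, c2, c3, c4, c5]
    simp only [mul_zero, zero_mul]
    module
  rw [e1, e2] at h2
  obtain ⟨c, hc⟩ := K0_ext hl G.F h2
  refine ⟨-(c / 2), ?_⟩
  have d1 : e * f * (p 1 * X * p 2 * e' * (q 2 * X * q 1)) * (f * e) = p 1 * X * p 2 * e' * (q 2 * X * q 1) := by
    rw [← p1, ← q1]
    calc p 1 * (p 1 * X * p 2 * e' * (q 2 * X * q 1)) * q 1 =
          (p 1 * p 1) * X * p 2 * e' * (q 2 * X * (q 1 * q 1)) := by noncomm_ring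
      _ = _ := by rw [B.pp, if_pos rfl, B.qq, if_pos rfl]
  rw [mul_smul_comm, smul_mul_assoc, d1] at hc
  have d2 : p 1 * X * p 2 * e' * (q 2 * X * q 1) = (-(c / 2)) • e := by
    have d3 : p 1 * X * p 2 * e' * (q 2 * X * q 1) = (-(1 / 2) : K) • ((-2 : K) • (p 1 * X * p 2 * e' * (q 2 * X * q 1))) := by
      rw [smul_smul]
      norm_num
    rw [d3, hc, smul_smul]
    congr 1
    ring
  obtain ⟨-, g1, g2, -⟩ := P3_u1 h G
  obtain ⟨-, g3, g4⟩ := P3_u2 h G
  obtain ⟨g5, g6⟩ := P3_u12 G
  -- both sides
  have d4 : (e * f * X * (u * f)) * (u * f' * e' * X * f) = p 1 * X * p 2 * e' * (q 2 * X * q 1) * f := by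
    rw [p1, p2, q1, q2]
    have d5 : (u * f) * (u * f' * e' * X * f) = e' * f' * e' * (f' * e') * X * (f * e * f) := by
      calc (u * f) * (u * f' * e' * X * f) = (u * f * (u * f')) * e' * X * f := by noncomm_ring
        _ = e' * f' * e' * X * f := by rw [g6]
        _ = e' * f' * e' * (f' * e') * X * (f * e * f) := by
            rw [G.F.fef, G.F'.efe, ← mul_assoc e' f' e', G.F'.efe]
    calc (e * f * X * (u * f)) * (u * f' * e' * X * f) = e * f * X * ((u * f) * (u * f' * e' * X * f)) := by
          rw [mul_assoc]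
      _ = e * f * X * (e' * f' * e' * (f' * e') * X * (f * e * f)) := by rw [d5]
      _ = e * f * X * (e' * f') * e' * (f' * e' * X * (f * e)) * f := by noncomm_ring
  rw [d4, d2, smul_mul_assoc]

/-- If the block between two frames is everything, the rank is at most two, and in rank two the two parts of an
element of the block are adjugate to each other. -/
theorem P6_two [CharZero K] [FiniteDimensional K V] (h : CoreN L)
    {s e f e' f' u : Module.End K V} (G : Grid L s e f e' f' u)
    (hall : ∀ T : Module.End K V, e * f * T * (e * f) * (u * f') ∈ LL L (e * f) (e' * f')) :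
    finrank K (LinearMap.range e) = 1 ∨ (finrank K (LinearMap.range e) = 2 ∧
      ∀ X ∈ L, u * f' * e' * X * f = e * f * X * (u * f) - LinearMap.trace K V (e * f * X * (u * f)) • (e * f)) := by
  have hpp : e * f * (e * f) = e * f := by rw [← mul_assoc, G.F.efe]
  obtain ⟨-, g1, g2, -⟩ := P3_u1 h G
  obtain ⟨-, g3, g4⟩ := P3_u2 h G
  obtain ⟨g5, g6⟩ := P3_u12 G
  have hff' : f * f' = 0 := A2_mm G.F.f_mem G.F'.f_mem
  have hf'f : f' * f = 0 := A2_mm G.F'.f_mem G.F.f_mem
  obtain ⟨p, hp⟩ : ∃ p, p = e * f := ⟨_, rfl⟩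
  have hpos : finrank K (LinearMap.range e) ≠ 0 := by
    intro h0
    exact G.F.e_ne (LinearMap.range_eq_bot.1 (Submodule.finrank_eq_zero.1 h0))
  by_cases hr : finrank K (LinearMap.range e) = 1
  · exact Or.inl hr
  right
  have hr2 : 2 ≤ finrank K (LinearMap.range p) := by
    rw [hp, (K0_rank G.F).1]
    omega
  have ha1 : ∀ X, p * (p * X * (u * f)) = p * X * (u * f) := by
    intro X
    rw [hp]
    calc e * f * (e * f * X * (u * f)) = (e * f * (e * f)) * X * (u * f) := by noncomm_ring
      _ = _ := by rw [hpp]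
  have ha2 : ∀ X, p * X * (u * f) * p = p * X * (u * f) := by
    intro X
    rw [hp]
    calc e * f * X * (u * f) * (e * f) = e * f * X * (u * f * (e * f)) := by noncomm_ring
      _ = _ := by rw [g4]
  have hb1 : ∀ X, p * (u * f' * e' * X * f) = u * f' * e' * X * f := by
    intro X
    rw [hp]
    calc e * f * (u * f' * e' * X * f) = (e * f * (u * f')) * e' * X * f := by noncomm_ring
      _ = _ := by rw [g1]
  have hb2 : ∀ X, u * f' * e' * X * f * p = u * f' * e' * X * f := by
    intro X
    rw [hp]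
    calc u * f' * e' * X * f * (e * f) = u * f' * e' * X * (f * e * f) := by noncomm_ring
      _ = _ := by rw [G.F.fef]
  let W : Submodule K (Module.End K (LinearMap.range p) × Module.End K (LinearMap.range p)) :=
    { carrier := {w | ∃ X ∈ L, w.1 = res p (p * X * (u * f)) ∧ w.2 = res p (u * f' * e' * X * f)}
      add_mem' := by
        rintro w w' ⟨X, hX, h1, h2⟩ ⟨X', hX', h3, h4⟩
        refine ⟨X + X', L.add_mem hX hX', ?_, ?_⟩
        · rw [Prod.fst_add, h1, h3, ← res_add]
          congr 1
          noncomm_ring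
        · rw [Prod.snd_add, h2, h4, ← res_add]
          congr 1
          noncomm_ring
      zero_mem' := ⟨0, L.zero_mem, by simp [res_zero], by simp [res_zero]⟩
      smul_mem' := by
        rintro c w ⟨X, hX, h1, h2⟩
        refine ⟨c • X, L.smul_mem c hX, ?_, ?_⟩
        · rw [Prod.smul_fst, h1, ← res_smul]
          congr 1
          simp only [mul_smul_comm, smul_mul_assoc]
        · rw [Prod.smul_snd, h2, ← res_smul]
          congr 1
          simp only [mul_smul_comm, smul_mul_assoc] }
  have hppp : p * p = p := by rw [hp]; exact hpp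
  obtain ⟨hd, hW⟩ := q6_quad hr2 W
    (by
      rintro w ⟨X, hX, h1, h2⟩
      obtain ⟨c, hc⟩ := P6_prod h G hX
      refine ⟨c, ?_⟩
      rw [h1, h2, res_mul (ha2 X)]
      rw [← hp] at hc
      rw [hc, res_smul, res_self hppp])
    (by
      intro A
      obtain ⟨T, hT⟩ := res_onto hppp A
      obtain ⟨X, hX, hXT⟩ := hall T
      refine ⟨res p (u * f' * e' * X * f), X, hX, ?_, rfl⟩
      show A = _
      rw [← hT]
      congr 1
      rw [hp]
      calc e * f * T * (e * f) = e * f * T * (e * f) * (u * f' * (u * f)) := by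
            rw [g5, mul_assoc (e * f * T), hpp]
        _ = e * f * T * (e * f) * (u * f') * (u * f) := by noncomm_ring
        _ = e * f * X * (e' * f' * (u * f)) := by rw [hXT]; noncomm_ring
        _ = _ := by rw [g3])
    (by
      refine ⟨u * f' - f' * u, h.lie _ G.u_mem.1 _ G.F'.f_mem.1, ?_, ?_⟩
      · show (1 : Module.End K (LinearMap.range p)) = _
        rw [← res_self hppp]
        congr 1
        rw [hp]
        symm
        calc e * f * (u * f' - f' * u) * (u * f) = e * f * (u * f') * (u * f) - e * (f * f') * u * (u * f) := by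
              noncomm_ring
          _ = e * f := by rw [hff', g1, g5]; simp
      · show (-1 : Module.End K (LinearMap.range p)) = _
        have h1 : u * f' * e' * (u * f' - f' * u) * f = (-1 : K) • p := by
          calc u * f' * e' * (u * f' - f' * u) * f = u * f' * e' * u * (f' * f) - u * (f' * e' * f') * u * f := by
                noncomm_ring
            _ = -(u * f' * (u * f)) := by rw [hf'f, G.F'.fef]; noncomm_ring
            _ = _ := by rw [g5, hp, neg_one_smul]
        rw [h1, res_smul, res_self hppp]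
        module)
  refine ⟨by rw [← hd, hp, (K0_rank G.F).1], fun X hX => ?_⟩
  have h1 := hW (res p (p * X * (u * f)), res p (u * f' * e' * X * f)) ⟨X, hX, rfl, rfl⟩
  simp only at h1
  rw [res_trace (ha1 X), ← res_self hppp, ← res_smul, sub_eq_add_neg, ← neg_one_smul K, ← res_smul, ← res_add] at h1
  rw [← hp]
  have h2 := res_inj (hb1 X) (hb2 X) (by rw [mul_add, ha1 X, mul_smul_comm, mul_smul_comm, hppp])
    (by rw [add_mul, ha2 X, smul_mul_assoc, smul_mul_assoc, hppp]) h1
  rw [h2, neg_one_smul, ← sub_eq_add_neg]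

end Pool.Agent.H86N
end
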