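import Pool.Agent.Lib.H1M.RC.M021
import Pool.Agent.Lib.H1M.RC.M025
import Pool.Agent.Lib.H1M.RC.M026

/-! Merged copies (to shorten the build) of Lib.H86N.G1, Lib.H25U.G1, Lib.H86N.R1, Lib.H86N.R2. -/

-- from Lib.H86N.G1
section

/-!
# G1: an invariant form on the corner of a frame extends to an invariant form
-/

set_option autoImplicit false
set_option linter.unusedSectionVars false
namespace Pool.Agent.H86N
open Module Pool.Agent.H53Toric Pool.Agent.H49M

variable {K : Type*} [Field K] {V : Type*} [AddCommGroup V] [Module K V]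

variable {L : Submodule K (Module.End K V)}

/-- The lowering part, with both sides. -/
theorem G1_low' [CharZero K] (hl : IsLie L) {e f : Module.End K V} (hee : e * e = 0) (hff : f * f = 0)
    (efe : e * f * e = e) (fef : f * e * f = f) (hH : e * f - f * e ∈ L)
    {z : Module.End K V} (hz : z ∈ L) :
    ∃ w ∈ L, e * f * w = 0 ∧ w * (f * e) = 0 ∧ z * (e * f) = e * f * z * (e * f) + w * (e * f) ∧
      f * e * z = f * e * z * (f * e) + f * e * w := by
  have pp : e * f * (e * f) = e * f := by rw [← mul_assoc, efe]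
  have qq : f * e * (f * e) = f * e := by rw [← mul_assoc, fef]
  have pq : e * f * (f * e) = 0 := by
    rw [mul_assoc, ← mul_assoc f f, hff, zero_mul, mul_zero]
  have qp : f * e * (e * f) = 0 := by
    rw [mul_assoc, ← mul_assoc e e, hee, zero_mul, mul_zero]
  obtain ⟨p, hp⟩ : ∃ p, p = e * f := ⟨_, rfl⟩
  obtain ⟨q, hq⟩ : ∃ q, q = f * e := ⟨_, rfl⟩
  rw [← hp] at pp pq qp
  rw [← hq] at qq pq qp
  obtain ⟨r, hr⟩ : ∃ r, r = 1 - p - q := ⟨_, rfl⟩
  have pr : p * r = 0 := by rw [hr, mul_sub, mul_sub, pp, pq]; simp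
  have rq : r * q = 0 := by rw [hr, sub_mul, sub_mul, qq, pq]; simp
  have rp : r * p = 0 := by rw [hr, sub_mul, sub_mul, pp, qp]; simp
  have qr : q * r = 0 := by rw [hr, mul_sub, mul_sub, qq, qp]; simp
  have key := fun n => P0_block hl (c := ![p, r, q]) (w := ![1, 0, -1])
    (by
      intro i j
      fin_cases i <;> fin_cases j <;> simp [pp, qq, pq, qp, pr, rq, rp, qr] <;>
        · rw [hr]
          simp [mul_sub, sub_mul, pp, qq, pq, qp])
    (by
      simp [Fin.sum_univ_succ, hr])
    (by
      simp [Fin.sum_univ_succ]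
      rw [← hp, ← hq] at hH
      rwa [← sub_eq_add_neg]) hz n
  have k1 := key (-1)
  have k2 := key (-2)
  simp [Fin.sum_univ_succ] at k1 k2
  rw [← hp, ← hq]
  refine ⟨_, L.add_mem k1 k2, ?_, ?_, ?_, ?_⟩
  · simp only [mul_add, ← mul_assoc]
    simp only [pr, pq]; simp
  · simp only [add_mul, mul_assoc]
    simp only [pq, rq]; simp
  · have e1 : p + r + q = 1 := by rw [hr]; abel
    have a1 : (r * z * p + q * z * r) * p = r * z * p := by
      calc (r * z * p + q * z * r) * p = r * z * (p * p) + q * z * (r * p) := by noncomm_ring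
        _ = _ := by rw [pp, rp, mul_zero, add_zero]
    have a2 : q * z * p * p = q * z * p := by rw [mul_assoc, pp]
    rw [add_mul (r * z * p + q * z * r), a1, a2]
    calc z * p = (p + r + q) * z * p := by rw [e1, one_mul]
      _ = _ := by noncomm_ring
  · have e1 : p + r + q = 1 := by rw [hr]; abel
    have a1 : q * (r * z * p + q * z * r) = q * z * r := by
      calc q * (r * z * p + q * z * r) = (q * r) * z * p + (q * q) * z * r := by noncomm_ring
        _ = _ := by rw [qr, qq, zero_mul, zero_mul, zero_add]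
    have a2 : q * (q * z * p) = q * z * p := by rw [← mul_assoc, ← mul_assoc, qq]
    rw [mul_add q (r * z * p + q * z * r), a1, a2]
    calc q * z = q * z * (p + r + q) := by rw [e1, mul_one]
      _ = _ := by noncomm_ring


/-- The action on the sum of a space and its dual. -/
noncomputable def dbl (X : Module.End K V) : Module.End K (V × Module.Dual K V) :=
  LinearMap.prodMap X (-X.dualMap)

theorem dbl_apply (X : Module.End K V) (v : V) (φ : Module.Dual K V) : dbl X (v, φ) = (X v, -(φ ∘ₗ X)) := rfl

/-- The action on the sum of a space and its dual, as a linear map. -/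
noncomputable def dblL : Module.End K V →ₗ[K] Module.End K (V × Module.Dual K V) where
  toFun := dbl
  map_add' X Y := by
    ext v : 1
    · ext v
      · simp [dbl_apply]
      · simp [dbl_apply]
    · ext φ
      · simp [dbl_apply]
      · simp [dbl_apply, LinearMap.comp_add]
        abel
  map_smul' c X := by
    ext v : 1
    · ext v
      · simp [dbl_apply]
      · simp [dbl_apply]
    · ext φ
      · simp [dbl_apply]
      · simp [dbl_apply]

theorem dbl_comm (X Y : Module.End K V) : dbl X * dbl Y - dbl Y * dbl X = dbl (X * Y - Y * X) := by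
  ext v : 1
  · ext v
    · simp [dbl_apply]
    · simp [dbl_apply]
  · ext φ
    · simp [dbl_apply]
    · simp [dbl_apply]

theorem dblL_apply (X : Module.End K V) (v : V) (φ : Module.Dual K V) :
    dblL X (v, φ) = (X v, -(φ ∘ₗ X)) := rfl

/-- A subspace of the dual space stable under an irreducible algebra is zero or everything. -/
theorem G1_dual [FiniteDimensional K V] (hirr : Irr L) (A : Submodule K (Module.Dual K V))
    (hA : ∀ X ∈ L, ∀ φ ∈ A, φ ∘ₗ X ∈ A) : A = ⊥ ∨ A = ⊤ := by
  rcases hirr A.dualCoannihilator (by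
    intro X hX w hw
    rw [Submodule.mem_dualCoannihilator] at hw ⊢
    intro φ hφ
    exact hw _ (hA X hX φ hφ)) with h1 | h1
  · right
    have h2 := Subspace.dualCoannihilator_dualAnnihilator_eq (K := K) (V := V) (W := A)
    rw [← h2, h1, Submodule.dualAnnihilator_bot]
  · left
    rw [eq_bot_iff]
    intro φ hφ
    rw [Submodule.mem_bot]
    ext v
    have h2 : v ∈ A.dualCoannihilator := by rw [h1]; trivial
    exact (Submodule.mem_dualCoannihilator _).1 h2 φ hφ

/-- An invariant form on the corner extends to an invariant form on the whole space. -/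
theorem exists_form' [CharZero K] [FiniteDimensional K V]
    (hl : IsLie L) (hirr : Irr L) {e f : Module.End K V} (he0 : e ≠ 0) (hee : e * e = 0) (hff : f * f = 0)
    (efe : e * f * e = e) (fef : f * e * f = f) (hH : e * f - f * e ∈ L) (β : V →ₗ[K] V →ₗ[K] K)
    (h1 : ∀ v w, β (e (f v)) w = β v w) (h2 : ∀ v w, β v (f (e w)) = β v w)
    (h3 : ∀ X ∈ L, ∀ v w, β (X (e (f v))) w + β v (X (f (e w))) = 0) :
    ∃ B : V →ₗ[K] V →ₗ[K] K, (∀ v w, B (e (f v)) w = β v w) ∧
      ∀ X ∈ L, ∀ v w, B (X v) w + B v (X w) = 0 := by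
  have pp : e * f * (e * f) = e * f := by rw [← mul_assoc, efe]
  have qq : f * e * (f * e) = f * e := by rw [← mul_assoc, fef]
  have ppv : ∀ v, e (f (e (f v))) = e (f v) := fun v => LinearMap.congr_fun pp v
  have qqv : ∀ v, f (e (f (e v))) = f (e v) := fun v => LinearMap.congr_fun qq v
  -- the algebra of the double
  let g : Submodule K (Module.End K (V × Module.Dual K V)) := L.map dblL
  have hg : IsLie g := by
    rintro _ ⟨X, hX, rfl⟩ _ ⟨Y, hY, rfl⟩
    exact ⟨X * Y - Y * X, hl X hX Y hY, (dbl_comm X Y).symm⟩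
  let E : Module.End K (V × Module.Dual K V) := LinearMap.prodMap (e * f) (f * e).dualMap
  have hE : ∀ (v : V) (φ : Module.Dual K V), E (v, φ) = (e (f v), φ ∘ₗ (f * e)) := fun v φ => rfl
  let ι : V →ₗ[K] V × Module.Dual K V := LinearMap.prod (e * f) (β ∘ₗ (e * f))
  have hι : ∀ v, ι v = (e (f v), β (e (f v))) := fun v => rfl
  let U : Submodule K (V × Module.Dual K V) := LinearMap.range ι
  have low : ∀ z ∈ g, ∃ w ∈ g, E * w = 0 ∧ z * E = E * z * E + w * E := by
    rintro _ ⟨z, hz, rfl⟩
    obtain ⟨w, hw, w1, w2, w3, w4⟩ := G1_low' hl hee hff efe fef hH hz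
    refine ⟨dblL w, ⟨w, hw, rfl⟩, ?_, ?_⟩
    · apply LinearMap.ext
      rintro ⟨v, φ⟩
      rw [Module.End.mul_apply, dblL_apply, hE]
      have a1 : e (f (w v)) = 0 := LinearMap.congr_fun w1 v
      rw [a1]
      ext x
      · rfl
      · have a2 : w (f (e x)) = 0 := LinearMap.congr_fun w2 x
        simp [a2]
    · apply LinearMap.ext
      rintro ⟨v, φ⟩
      rw [LinearMap.add_apply, Module.End.mul_apply, Module.End.mul_apply, Module.End.mul_apply,
        Module.End.mul_apply, hE, dblL_apply, hE, dblL_apply]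
      have a1 : z (e (f v)) = e (f (z (e (f v)))) + w (e (f v)) := LinearMap.congr_fun w3 v
      ext x
      · exact a1
      · have a2 : f (e (z x)) = f (e (z (f (e x)))) + f (e (w x)) := LinearMap.congr_fun w4 x
        simp [a2]
        abel
  have hU : ∀ u ∈ U, E u = u := by
    rintro _ ⟨v, rfl⟩
    rw [hι, hE, ppv]
    ext x
    · rfl
    · show β (e (f v)) (f (e x)) = β (e (f v)) x
      rw [h2]
  have hst : ∀ C ∈ g, ∀ u ∈ U, E (C u) ∈ U := by
    rintro _ ⟨X, hX, rfl⟩ _ ⟨v, rfl⟩
    refine ⟨X (e (f v)), ?_⟩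
    rw [hι, hι, dblL_apply, hE]
    ext x
    · rfl
    · show β (e (f (X (e (f v))))) x = -(β (e (f v)) (X (f (e x))))
      rw [h1, h1]
      have := h3 X hX v x
      exact eq_neg_of_add_eq_zero_left this
  -- the largest submodule with top component in the graph
  let W : Submodule K (V × Module.Dual K V) :=
    { carrier := {v | ∀ l : List (Module.End K (V × Module.Dual K V)), (∀ x ∈ l, x ∈ g) → E (l.prod v) ∈ U}
      add_mem' := by
        intro a b ha hb l hl
        rw [map_add, map_add]
        exact U.add_mem (ha l hl) (hb l hl)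
      zero_mem' := by
        intro l _
        rw [map_zero, map_zero]; exact U.zero_mem
      smul_mem' := by
        intro c a ha l hl
        rw [map_smul, map_smul]
        exact U.smul_mem c (ha l hl) }
  have hUW : U ≤ W := fun u hu l hl => P4_words hg low hU hst _ l le_rfl hl u hu
  have hWst : ∀ X ∈ L, ∀ w ∈ W, dblL X w ∈ W := by
    intro X hX w hw l hl
    have := hw (l ++ [dblL X]) (by
      intro x hx
      rcases List.mem_append.1 hx with hx | hx
      · exact hl x hx
      · rw [List.mem_singleton.1 hx]; exact ⟨X, hX, rfl⟩)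
    simpa using this
  have hWE : ∀ w ∈ W, E w ∈ U := fun w hw => by simpa using hw [] (by simp)
  -- W contains no covector
  have hzero : ∀ φ : Module.Dual K V, ((0 : V), φ) ∈ W → φ = 0 := by
    rcases G1_dual hirr (W.comap (LinearMap.inr K V (Module.Dual K V))) (by
      intro X hX φ hφ
      have h4 : ((0 : V), φ) ∈ W := hφ
      have h5 := W.neg_mem (hWst X hX _ h4)
      rw [dblL_apply, map_zero] at h5
      have h6 : -((0 : V), -(φ ∘ₗ X)) = ((0 : V), φ ∘ₗ X) := by simp
      rw [h6] at h5
      exact h5) with h4 | h4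
    · intro φ hφ
      have h5 : φ ∈ W.comap (LinearMap.inr K V (Module.Dual K V)) := hφ
      rw [h4] at h5
      exact (Submodule.mem_bot K).1 h5
    · exfalso
      have h5 : ∀ φ : Module.Dual K V, φ ∘ₗ (f * e) = 0 := by
        intro φ
        have h6 : φ ∈ W.comap (LinearMap.inr K V (Module.Dual K V)) := by rw [h4]; trivial
        obtain ⟨v, hv⟩ := hWE _ h6
        have h7 : ι v = (e (f (0 : V)), φ ∘ₗ (f * e)) := hv
        rw [hι] at h7
        have h8 : e (f v) = e (f (0 : V)) := congrArg Prod.fst h7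
        have h9 : β (e (f v)) = φ ∘ₗ (f * e) := congrArg Prod.snd h7
        rw [← h9, h8]
        simp
      have h6 : f * e = 0 := by
        apply LinearMap.ext
        intro v
        by_contra h7
        obtain ⟨φ, hφ⟩ := Module.Projective.exists_dual_ne_zero (R := K) h7
        exact hφ (LinearMap.congr_fun (h5 φ) v)
      apply he0
      rw [← efe, mul_assoc, h6, mul_zero]
  -- W projects onto the space
  have honto : W.map (LinearMap.fst K V (Module.Dual K V)) = ⊤ := by
    rcases hirr (W.map (LinearMap.fst K V (Module.Dual K V))) (by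
      rintro X hX _ ⟨w, hw, rfl⟩
      refine ⟨dblL X w, hWst X hX w hw, ?_⟩
      obtain ⟨v, φ⟩ := w
      rfl) with h4 | h4
    · exfalso
      apply he0
      rw [← efe]
      have h5 : e * f = 0 := by
        apply LinearMap.ext
        intro v
        have h6 : (e * f) v ∈ W.map (LinearMap.fst K V (Module.Dual K V)) :=
          ⟨ι v, hUW ⟨v, rfl⟩, rfl⟩
        rw [h4] at h6
        exact (Submodule.mem_bot K).1 h6
      rw [h5, zero_mul]
    · exact h4
  let π : W →ₗ[K] V := (LinearMap.fst K V (Module.Dual K V)).domRestrict W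
  have hπ : Function.Bijective π := by
    constructor
    · rintro ⟨⟨v, φ⟩, hw⟩ ⟨⟨v', φ'⟩, hw'⟩ hv
      have hv' : v = v' := hv
      subst hv'
      have h4 := W.sub_mem hw hw'
      have h5 : ((v, φ) : V × Module.Dual K V) - (v, φ') = (0, φ - φ') := by simp
      rw [h5] at h4
      have h6 : φ = φ' := sub_eq_zero.1 (hzero _ h4)
      subst h6
      rfl
    · intro v
      have h4 : v ∈ W.map (LinearMap.fst K V (Module.Dual K V)) := by rw [honto]; trivial
      obtain ⟨w, hw, rfl⟩ := h4
      exact ⟨⟨w, hw⟩, rfl⟩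
  let Φ : W ≃ₗ[K] V := LinearEquiv.ofBijective π hπ
  let B : V →ₗ[K] V →ₗ[K] K := (LinearMap.snd K V (Module.Dual K V)) ∘ₗ W.subtype ∘ₗ Φ.symm.toLinearMap
  have hB : ∀ v, (v, B v) ∈ W := by
    intro v
    have h4 : Φ (Φ.symm v) = v := Φ.apply_symm_apply v
    have h5 : ((Φ.symm v : W) : V × Module.Dual K V) = (v, B v) := by
      ext x
      · exact h4
      · rfl
    rw [← h5]
    exact (Φ.symm v).2
  have hBu : ∀ v φ, (v, φ) ∈ W → B v = φ := by
    intro v φ hw
    have h4 := W.sub_mem (hB v) hw
    have h5 : ((v, B v) : V × Module.Dual K V) - (v, φ) = (0, B v - φ) := by simp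
    rw [h5] at h4
    exact sub_eq_zero.1 (hzero _ h4)
  refine ⟨B, ?_, ?_⟩
  · intro v w
    have h4 := hBu _ _ (hUW ⟨v, rfl⟩ : (e (f v), β (e (f v))) ∈ W)
    rw [h4, h1]
  · intro X hX v w
    have h4 : B (X v) = -(B v ∘ₗ X) := hBu _ _ (hWst X hX _ (hB v))
    rw [h4]
    show -(B v (X w)) + B v (X w) = 0
    ring

/-- An invariant form on the corner of a frame extends to an invariant form on the whole space. -/
theorem exists_form [CharZero K] [IsAlgClosed K] [FiniteDimensional K V] [Nontrivial V]
    (h : CoreN L) {s e f : Module.End K V} (F : Frame L s e f) (β : V →ₗ[K] V →ₗ[K] K)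
    (h1 : ∀ v w, β (e (f v)) w = β v w) (h2 : ∀ v w, β v (f (e w)) = β v w)
    (h3 : ∀ X ∈ L, ∀ v w, β (X (e (f v))) w + β v (X (f (e w))) = 0) :
    ∃ B : V →ₗ[K] V →ₗ[K] K, (∀ v w, B (e (f v)) w = β v w) ∧
      ∀ X ∈ L, ∀ v w, B (X v) w + B v (X w) = 0 :=
  exists_form' h.lie h.irr F.e_ne (A2_pp F.e_mem F.e_mem) (A2_mm F.f_mem F.f_mem) F.efe F.fef
    (K0_H h.lie F) β h1 h2 h3

end Pool.Agent.H86N
end

-- from Lib.H25U.G1
section

/-!
# G1: an invariant form from a form on a corner
-/

set_option autoImplicit false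
set_option linter.unusedSectionVars false
namespace Pool.Agent.H25U
open Module Pool.Agent.H53Toric Pool.Agent.H49M
open Pool.Agent.H86N (CoreN)

variable {K : Type*} [Field K] {V : Type*} [AddCommGroup V] [Module K V]

variable {L : Submodule K (Module.End K V)}

theorem exists_form [CharZero K] [IsAlgClosed K] [FiniteDimensional K V] [Nontrivial V]
    (h : CoreN L) {s e f : Module.End K V} (F : Frame L s e f) (β : V →ₗ[K] V →ₗ[K] K)
    (h1 : ∀ v w, β (e (f v)) w = β v w) (h2 : ∀ v w, β v (f (e w)) = β v w)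
    (h3 : ∀ X ∈ L, ∀ v w, β (X (e (f v))) w + β v (X (f (e w))) = 0) :
    ∃ B : V →ₗ[K] V →ₗ[K] K, (∀ v w, B (e (f v)) w = β v w) ∧
      ∀ X ∈ L, ∀ v w, B (X v) w + B v (X w) = 0 :=
  Pool.Agent.H86N.exists_form' h.lie h.irr F.e_ne (A2_pp F.e_mem F.e_mem) (A2_mm F.f_mem F.f_mem) F.efe F.fef
    (K0_H h.lie F) β h1 h2 h3

end Pool.Agent.H25U
end

-- from Lib.H86N.R1
section

/-!
# R1: the blocks in rank two
-/

set_option autoImplicit false
set_option linter.unusedSectionVars false
namespace Pool.Agent.H86N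
open Module Pool.Agent.H53Toric Pool.Agent.H49M

section lin
variable {K : Type*} [Field K] {U : Type*} [AddCommGroup U] [Module K U]

/-- Cayley-Hamilton in dimension two. -/
theorem r1_CH [FiniteDimensional K U] (hdim : finrank K U = 2) (a : Module.End K U) :
    ∃ d : K, a * a - LinearMap.trace K U a • a = d • 1 := by
  have b := Module.finBasisOfFinrankEq K U hdim
  refine ⟨-(LinearMap.toMatrix b b a).det, ?_⟩
  apply (LinearMap.toMatrix b b).injective
  rw [map_sub, map_smul, map_smul, LinearMap.toMatrix_mul, LinearMap.toMatrix_one, LinearMap.trace_eq_matrix_trace K b]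
  ext i j
  rw [Matrix.det_fin_two, Matrix.trace_fin_two]
  fin_cases i <;> fin_cases j <;>
    simp [Matrix.mul_apply, Fin.sum_univ_two] <;> ring

/-- A linear family of pairs of operators of a plane with scalar products, not all scalar, which contains the pair
`(1, -1)`. -/
theorem r1_two [CharZero K] [FiniteDimensional K U] (hdim : finrank K U = 2)
    (W : Submodule K (Module.End K U × Module.End K U)) (h1 : ∀ w ∈ W, ∃ c : K, w.1 * w.2 = c • 1)
    (hns : ∃ w ∈ W, ∀ t : K, w.1 ≠ t • 1) (h0 : (1, -1) ∈ W) :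
    ∀ w ∈ W, w.2 = w.1 - LinearMap.trace K U w.1 • 1 := by
  -- the second operator differs from the first by a scalar
  have hpol : ∀ w ∈ W, ∃ t : K, w.2 = w.1 + t • 1 := by
    rintro ⟨a, b⟩ hw
    obtain ⟨c, hc⟩ := h1 _ hw
    obtain ⟨c', hc'⟩ := h1 _ (W.add_mem hw h0)
    simp only [Prod.fst_add, Prod.snd_add] at hc hc' ⊢
    refine ⟨c' - c + 1, ?_⟩
    have e1 : (a + 1) * (b + -1) = a * b - a + b - 1 := by noncomm_ring
    rw [e1, hc] at hc'
    have e2 : b = c' • (1 : Module.End K U) - c • 1 + a + 1 := by rw [← hc']; abel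
    rw [e2, add_smul, sub_smul, one_smul]
    abel
  -- every operator satisfies a quadratic equation
  have hquad : ∀ w ∈ W, ∃ t c : K, w.2 = w.1 + t • 1 ∧ w.1 * w.1 + t • w.1 = c • 1 := by
    intro w hw
    obtain ⟨t, ht⟩ := hpol w hw
    obtain ⟨c, hc⟩ := h1 w hw
    refine ⟨t, c, ht, ?_⟩
    rw [ht, mul_add, mul_smul_comm, mul_one] at hc
    exact hc
  have hns' : ∀ w ∈ W, (∀ t : K, w.1 ≠ t • 1) → w.2 = w.1 - LinearMap.trace K U w.1 • 1 := by
    intro w hw hn
    obtain ⟨t, c, ht, hq⟩ := hquad w hw
    obtain ⟨d, hd⟩ := r1_CH hdim w.1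
    have e1 : (t + LinearMap.trace K U w.1) • w.1 = (c - d) • 1 := by
      rw [add_smul, sub_smul, ← hq, ← hd]
      abel
    have e2 : t + LinearMap.trace K U w.1 = 0 := by
      by_contra hne
      apply hn ((t + LinearMap.trace K U w.1)⁻¹ * (c - d))
      rw [← smul_smul, ← e1, smul_smul, inv_mul_cancel₀ hne, one_smul]
    have e3 : t = -LinearMap.trace K U w.1 := by linear_combination e2
    rw [ht, e3, neg_smul, sub_eq_add_neg]
  obtain ⟨⟨a₀, b₀⟩, hb₀, ha₀⟩ := hns
  rintro ⟨a, b⟩ hw
  by_cases hn : ∀ t : K, a ≠ t • 1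
  · exact hns' _ hw hn
  · push Not at hn
    obtain ⟨s, hs⟩ := hn
    have e1 := hns' _ hb₀ ha₀
    have e2 := hns' _ (W.add_mem hw hb₀) (by
      intro t ht
      apply ha₀ (t - s)
      simp only [Prod.fst_add] at ht
      show a₀ = _
      rw [sub_smul, ← ht, ← hs]
      abel)
    simp only [Prod.fst_add, Prod.snd_add, map_add, add_smul] at e1 e2 ⊢
    rw [e1] at e2
    have e3 : b = a + a₀ - (LinearMap.trace K U a • (1 : Module.End K U) + LinearMap.trace K U a₀ • 1) -
        (a₀ - LinearMap.trace K U a₀ • 1) := by rw [← e2]; abel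
    rw [e3]
    abel

/-- A nonzero alternating form on a plane: every operator `a` has the adjoint `tr a - a`. -/
theorem r1_form [FiniteDimensional K U] (hdim : finrank K U = 2) :
    ∃ κ : U →ₗ[K] U →ₗ[K] K, κ ≠ 0 ∧
      ∀ (a : Module.End K U) (v w : U), κ (a v) w + κ v (a w) = LinearMap.trace K U a * κ v w := by
  have b := Module.finBasisOfFinrankEq K U hdim
  let κ : U →ₗ[K] U →ₗ[K] K := LinearMap.mk₂ K (fun v w => b.repr v 0 * b.repr w 1 - b.repr v 1 * b.repr w 0)
    (by intro x y z; simp; ring) (by intro c x y; simp; ring) (by intro x y z; simp; ring)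
    (by intro c x y; simp; ring)
  have hκ : ∀ v w, κ v w = b.repr v 0 * b.repr w 1 - b.repr v 1 * b.repr w 0 := fun v w => rfl
  refine ⟨κ, ?_, ?_⟩
  · intro h0
    have h1 : κ (b 0) (b 1) = 0 := by rw [h0]; rfl
    rw [hκ] at h1
    simp at h1
  · intro a v w
    have ha : ∀ (x : U) (i : Fin 2), b.repr (a x) i = LinearMap.toMatrix b b a i 0 * b.repr x 0 +
        LinearMap.toMatrix b b a i 1 * b.repr x 1 := by
      intro x i
      have := congrFun (LinearMap.toMatrix_mulVec_repr b b a x) i
      rw [← this, Matrix.mulVec, dotProduct, Fin.sum_univ_two]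
    rw [hκ, hκ, hκ, ha, ha, ha, ha, LinearMap.trace_eq_matrix_trace K b, Matrix.trace_fin_two]
    ring

end lin

variable {K : Type*} [Field K] {V : Type*} [AddCommGroup V] [Module K V]
variable {L : Submodule K (Module.End K V)}

/-- In rank two the two parts of a block element are adjugate to each other. -/
theorem r1_adj [CharZero K] [IsAlgClosed K] [FiniteDimensional K V] [Nontrivial V] (h : CoreN L)
    {s e f e' f' u : Module.End K V} (G : Grid L s e f e' f' u) (hr : finrank K (LinearMap.range e) = 2) :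
    ∀ X ∈ L, u * f' * e' * X * f = e * f * X * (u * f) - LinearMap.trace K V (e * f * X * (u * f)) • (e * f) := by
  have hpp : e * f * (e * f) = e * f := by rw [← mul_assoc, G.F.efe]
  obtain ⟨-, g1, g2, -⟩ := P3_u1 h G
  obtain ⟨-, g3, g4⟩ := P3_u2 h G
  obtain ⟨g5, g6⟩ := P3_u12 G
  have hff' : f * f' = 0 := A2_mm G.F.f_mem G.F'.f_mem
  have hf'f : f' * f = 0 := A2_mm G.F'.f_mem G.F.f_mem
  have huu : u * u = 0 := A2_pp G.u_mem G.u_mem
  have hue : u * e = 0 := A2_pp G.u_mem G.F.e_mem
  have he'e : e' * e = 0 := A2_pp G.F'.e_mem G.F.e_mem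
  obtain ⟨p, hp⟩ : ∃ p, p = e * f := ⟨_, rfl⟩
  have hr2 : finrank K (LinearMap.range p) = 2 := by rw [hp, (K0_rank G.F).1, hr]
  have ha1 : ∀ X, p * (p * X * (u * f)) = p * X * (u * f) := by
    intro X
    rw [hp]
    calc e * f * (e * f * X * (u * f)) = (e * f * (e * f)) * X * (u * f) := by noncomm_ring
      _ = _ := by rw [hpp]
  have ha2 : ∀ X, p * X * (u * f) * p = p * X * (u * f) := by
    intro X
    rw [hp]
    calc e * f * X * (u * f) * (e * f) = e * f * X * (u * f * (e * f)) := by noncomm_ring
      _ = _ := by rw [g4]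
  have hb1 : ∀ X, p * (u * f' * e' * X * f) = u * f' * e' * X * f := by
    intro X
    rw [hp]
    calc e * f * (u * f' * e' * X * f) = (e * f * (u * f')) * e' * X * f := by noncomm_ring
      _ = _ := by rw [g1]
  have hb2 : ∀ X, u * f' * e' * X * f * p = u * f' * e' * X * f := by
    intro X
    rw [hp]
    calc u * f' * e' * X * f * (e * f) = u * f' * e' * X * (f * e * f) := by noncomm_ring
      _ = _ := by rw [G.F.fef]
  have hppp : p * p = p := by rw [hp]; exact hpp
  let W : Submodule K (Module.End K (LinearMap.range p) × Module.End K (LinearMap.range p)) :=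
    { carrier := {w | ∃ X ∈ L, w.1 = res p (p * X * (u * f)) ∧ w.2 = res p (u * f' * e' * X * f)}
      add_mem' := by
        rintro w w' ⟨X, hX, h1, h2⟩ ⟨X', hX', h3, h4⟩
        refine ⟨X + X', L.add_mem hX hX', ?_, ?_⟩
        · rw [Prod.fst_add, h1, h3, ← res_add]
          congr 1
          noncomm_ring
        · rw [Prod.snd_add, h2, h4, ← res_add]
          congr 1
          noncomm_ring
      zero_mem' := ⟨0, L.zero_mem, by simp [res_zero], by simp [res_zero]⟩
      smul_mem' := by
        rintro c w ⟨X, hX, h1, h2⟩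
        refine ⟨c • X, L.smul_mem c hX, ?_, ?_⟩
        · rw [Prod.smul_fst, h1, ← res_smul]
          congr 1
          simp only [mul_smul_comm, smul_mul_assoc]
        · rw [Prod.smul_snd, h2, ← res_smul]
          congr 1
          simp only [mul_smul_comm, smul_mul_assoc] }
  have hW := r1_two hr2 W
    (by
      rintro w ⟨X, hX, h1, h2⟩
      obtain ⟨c, hc⟩ := P6_prod h G hX
      refine ⟨c, ?_⟩
      rw [h1, h2, res_mul (ha2 X)]
      rw [← hp] at hc
      rw [hc, res_smul, res_self hppp])
    (by
      by_contra hcon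
      push Not at hcon
      -- all block elements are scalar
      have hsc : ∀ X ∈ L, ∃ t : K, p * X * (u * f) = t • p := by
        intro X hX
        obtain ⟨t, ht⟩ := hcon (res p (p * X * (u * f)), res p (u * f' * e' * X * f)) ⟨X, hX, rfl, rfl⟩
        refine ⟨t, ?_⟩
        simp only at ht
        rw [← res_self hppp, ← res_smul] at ht
        exact res_inj (ha1 X) (ha2 X) (by rw [mul_smul_comm, hppp]) (by rw [smul_mul_assoc, hppp]) ht
      have hsc2 : ∀ Y ∈ L, ∃ t : K, u * f' * Y * p = t • p := by
        intro Y hY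
        have B := P2_blocks h G
        obtain ⟨pp', hpp'⟩ : ∃ p, p = pp s e f e' f' := ⟨_, rfl⟩
        obtain ⟨qq', hqq'⟩ : ∃ q, q = qq s e f e' f' := ⟨_, rfl⟩
        rw [← hpp', ← hqq'] at B
        have p1 : pp' 1 = e * f := by rw [hpp']; rfl
        have p2 : pp' 2 = e' * f' := by rw [hpp']; rfl
        have q1 : qq' 1 = f * e := by rw [hqq']; rfl
        have q2 : qq' 2 = f' * e' := by rw [hqq']; rfl
        have hY' := B.m0 Y hY 2 1 (by decide)
        rw [p1, p2, q1, q2] at hY'
        obtain ⟨Y', hYd⟩ : ∃ Y', Y' = e' * f' * Y * (e * f) + f * e * Y * (f' * e') := ⟨_, rfl⟩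
        rw [← hYd] at hY'
        have hZ : u * f' - f' * u ∈ L := h.lie _ G.u_mem.1 _ G.F'.f_mem.1
        obtain ⟨Z, hZd⟩ : ∃ Z, Z = u * f' - f' * u := ⟨_, rfl⟩
        rw [← hZd] at hZ
        obtain ⟨t, ht⟩ := hsc _ (h.lie _ hZ _ (h.lie _ hZ _ hY'))
        have c1 : p * Z = u * f' := by
          rw [hp, hZd]
          calc e * f * (u * f' - f' * u) = e * f * (u * f') - e * (f * f') * u := by noncomm_ring
            _ = _ := by rw [g1, hff']; simp
        have c2 : u * f' * Z = 0 := by
          rw [hZd]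
          have hf'f' : f' * f' = 0 := A2_mm G.F'.f_mem G.F'.f_mem
          calc u * f' * (u * f' - f' * u) = (u * f' * u) * f' - u * (f' * f') * u := by noncomm_ring
            _ = 0 := by rw [G.ufu', G.o1, hf'f']; simp
        have c3 : Z * (u * f) = p := by
          rw [hZd, hp]
          calc (u * f' - f' * u) * (u * f) = (u * f' * u) * f - f' * (u * u) * f := by noncomm_ring
            _ = _ := by rw [G.ufu', huu]; simp
        have c4 : Z * p = 0 := by
          rw [hZd, hp]
          calc (u * f' - f' * u) * (e * f) = u * (f' * e) * f - f' * (u * e) * f := by noncomm_ring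
            _ = 0 := by rw [G.o2, hue]; simp
        have c5 : u * f' * Y' * p = u * f' * Y * p := by
          rw [hYd, hp]
          calc u * f' * (e' * f' * Y * (e * f) + f * e * Y * (f' * e')) * (e * f) =
                (u * f' * (e' * f')) * Y * (e * f * (e * f)) + u * (f' * f) * e * Y * f' * (e' * e) * f := by
                noncomm_ring
            _ = _ := by rw [g2, hpp, hf'f]; simp
        have c6 : p * (Z * (Z * Y' - Y' * Z) - (Z * Y' - Y' * Z) * Z) * (u * f) =
            (-2 : K) • (u * f' * Y * p) := by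
          calc p * (Z * (Z * Y' - Y' * Z) - (Z * Y' - Y' * Z) * Z) * (u * f) =
                (p * Z * Z) * Y' * (u * f) - p * Z * Y' * (Z * (u * f)) - p * Z * Y' * (Z * (u * f)) +
                p * Y' * (Z * (Z * (u * f))) := by noncomm_ring
            _ = (-2 : K) • (u * f' * Y * p) := by
                rw [c1, c2, c3, c4, c5]
                simp only [zero_mul, mul_zero]
                module
        rw [c6] at ht
        refine ⟨-(t / 2), ?_⟩
        have c7 : u * f' * Y * p = (-(1 / 2) : K) • ((-2 : K) • (u * f' * Y * p)) := by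
          rw [smul_smul]; norm_num
        rw [c7, ht, smul_smul]
        congr 1
        ring
      obtain ⟨a, ha⟩ := q6_nonscalar (K := K) (U := LinearMap.range p) (by omega)
      obtain ⟨T, hT⟩ := res_onto hppp a
      have h1 := P5_all h G T
      have h2 : ∃ t : K, e * f * T * (e * f) = t • p := by
        generalize e * f * T * (e * f) = T' at h1
        induction h1 using NonUnitalAlgebra.adjoin_induction with
        | mem a ha =>
          obtain ⟨_, ⟨X, hX, rfl⟩, _, ⟨Y, hY, rfl⟩, rfl⟩ := ha
          obtain ⟨t, ht⟩ := hsc X hX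
          obtain ⟨t', ht'⟩ := hsc2 Y hY
          refine ⟨t * t', ?_⟩
          calc e * f * X * (e' * f') * (e' * f' * Y * (e * f)) =
                (e * f * X * (u * f)) * (u * f' * (e' * f')) * Y * (e * f) := by
                have : e' * f' = (u * f) * (u * f') := g6.symm
                calc e * f * X * (e' * f') * (e' * f' * Y * (e * f)) =
                      e * f * X * ((e' * f') * (e' * f')) * Y * (e * f) := by noncomm_ring
                  _ = e * f * X * ((u * f) * (u * f') * (e' * f')) * Y * (e * f) := by rw [← this]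
                  _ = _ := by noncomm_ring
            _ = (p * X * (u * f)) * (u * f' * Y * p) := by rw [g2, hp]; noncomm_ring
            _ = _ := by rw [ht, ht', smul_mul_smul_comm, hppp]
        | add a b _ _ h1 h2 =>
          obtain ⟨t, ht⟩ := h1
          obtain ⟨t', ht'⟩ := h2
          exact ⟨t + t', by rw [ht, ht', add_smul]⟩
        | zero => exact ⟨0, by simp⟩
        | mul a b _ _ h1 h2 =>
          obtain ⟨t, ht⟩ := h1
          obtain ⟨t', ht'⟩ := h2
          exact ⟨t * t', by rw [ht, ht', smul_mul_smul_comm, hppp]⟩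
        | smul r a _ h1 =>
          obtain ⟨t, ht⟩ := h1
          exact ⟨r * t, by rw [ht, smul_smul]⟩
      obtain ⟨t, ht⟩ := h2
      apply ha t
      rw [← hT, hp, ht, ← hp, res_smul, res_self hppp])
    (by
      refine ⟨u * f' - f' * u, h.lie _ G.u_mem.1 _ G.F'.f_mem.1, ?_, ?_⟩
      · show (1 : Module.End K (LinearMap.range p)) = _
        rw [← res_self hppp]
        congr 1
        rw [hp]
        symm
        calc e * f * (u * f' - f' * u) * (u * f) = e * f * (u * f') * (u * f) - e * (f * f') * u * (u * f) := by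
              noncomm_ring
          _ = e * f := by rw [hff', g1, g5]; simp
      · show (-1 : Module.End K (LinearMap.range p)) = _
        have h1 : u * f' * e' * (u * f' - f' * u) * f = (-1 : K) • p := by
          calc u * f' * e' * (u * f' - f' * u) * f = u * f' * e' * u * (f' * f) - u * (f' * e' * f') * u * f := by
                noncomm_ring
            _ = -(u * f' * (u * f)) := by rw [hf'f, G.F'.fef]; noncomm_ring
            _ = _ := by rw [g5, hp, neg_one_smul]
        rw [h1, res_smul, res_self hppp]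
        module)
  intro X hX
  have h1 := hW (res p (p * X * (u * f)), res p (u * f' * e' * X * f)) ⟨X, hX, rfl, rfl⟩
  simp only at h1
  rw [res_trace (ha1 X), ← res_self hppp, ← res_smul, sub_eq_add_neg, ← neg_one_smul K, ← res_smul, ← res_add] at h1
  rw [← hp]
  have h2 := res_inj (hb1 X) (hb2 X) (by rw [mul_add, ha1 X, mul_smul_comm, mul_smul_comm, hppp])
    (by rw [add_mul, ha2 X, smul_mul_assoc, smul_mul_assoc, hppp]) h1
  rw [h2, neg_one_smul, ← sub_eq_add_neg]

end Pool.Agent.H86N
end

-- from Lib.H86N.R2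
section

/-!
# R2: in rank two there is an invariant form
-/

set_option autoImplicit false
set_option linter.unusedSectionVars false
namespace Pool.Agent.H86N
open Module Pool.Agent.H53Toric Pool.Agent.H49M

variable {K : Type*} [Field K] {V : Type*} [AddCommGroup V] [Module K V]
variable {L : Submodule K (Module.End K V)}

theorem r2_tr2 (A B : Module.End K V) : LinearMap.trace K V (A * B) = LinearMap.trace K V (B * A) :=
  LinearMap.trace_mul_comm K A B

/-- The traces of the corners at `p 1` and `q 1` are opposite: the case of a bracket. -/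
theorem r2_bracket [CharZero K] [IsAlgClosed K] [FiniteDimensional K V] [Nontrivial V] (h : CoreN L)
    {s e f e' f' u : Module.End K V} (G : Grid L s e f e' f' u) (hr : finrank K (LinearMap.range e) = 2)
    {X Y : Module.End K V} (hX : X ∈ Lp L s) (hY : Y ∈ Lm L s) :
    LinearMap.trace K V (e * f * X * Y) = LinearMap.trace K V (f * e * Y * X) := by
  have hl := h.lie
  have hadj := r1_adj h G hr
  have hpp : e * f * (e * f) = e * f := by rw [← mul_assoc, G.F.efe]
  obtain ⟨-, g1, g2, -⟩ := P3_u1 h G
  obtain ⟨-, g3, g4⟩ := P3_u2 h G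
  obtain ⟨g5, g6⟩ := P3_u12 G
  have hff' : f * f' = 0 := A2_mm G.F.f_mem G.F'.f_mem
  have hf'f : f' * f = 0 := A2_mm G.F'.f_mem G.F.f_mem
  have huu : u * u = 0 := A2_pp G.u_mem G.u_mem
  have hue : u * e = 0 := A2_pp G.u_mem G.F.e_mem
  have heu : e * u = 0 := A2_pp G.F.e_mem G.u_mem
  have he'e : e' * e = 0 := A2_pp G.F'.e_mem G.F.e_mem
  have hee' : e * e' = 0 := A2_pp G.F.e_mem G.F'.e_mem
  have he'u : e' * u = 0 := A2_pp G.F'.e_mem G.u_mem
  have hee : e * e = 0 := A2_pp G.F.e_mem G.F.e_mem
  have hff : f * f = 0 := A2_mm G.F.f_mem G.F.f_mem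
  have htp : LinearMap.trace K V (e * f) = 2 := by
    rw [(K0_rank G.F).2.2, hr]; norm_num
  have B := P2_blocks h G
  obtain ⟨p, hp⟩ : ∃ p, p = pp s e f e' f' := ⟨_, rfl⟩
  obtain ⟨q, hq⟩ : ∃ q, q = qq s e f e' f' := ⟨_, rfl⟩
  rw [← hp, ← hq] at B
  have p0d : p 0 = (1 / 2 : K) • (1 + s) - e * f - e' * f' := by rw [hp]; rfl
  have q0d : q 0 = (1 / 2 : K) • (1 - s) - f * e - f' * e' := by rw [hq]; rfl
  have p1 : p 1 = e * f := by rw [hp]; rfl
  have p2 : p 2 = e' * f' := by rw [hp]; rfl
  have q1 : q 1 = f * e := by rw [hq]; rfl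
  have q2 : q 2 = f' * e' := by rw [hq]; rfl
  have hX1 : e * X = 0 := A2_pp G.F.e_mem hX
  have hY1 : f * Y = 0 := A2_mm G.F.f_mem hY
  -- X = X (q 0 + q 1 + q 2), Y = Y (p 0 + p 1 + p 2)
  have hXs : X * ((1 / 2 : K) • (1 - s)) = X := by
    rw [mul_smul_comm, mul_sub, mul_one, hX.2.2, sub_neg_eq_add, ← two_smul K X, smul_smul]
    norm_num
  have hYs : Y * ((1 / 2 : K) • (1 + s)) = Y := by
    rw [mul_smul_comm, mul_add, mul_one, hY.2.2, ← two_smul K Y, smul_smul]
    norm_num
  have hXq : X = X * q 0 + X * q 1 + X * q 2 := by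
    calc X = X * ((1 / 2 : K) • (1 - s)) := hXs.symm
      _ = X * (q 0 + q 1 + q 2) := by rw [q0d, q1, q2]; congr 1; abel
      _ = _ := by rw [mul_add, mul_add]
  have hYp : Y = Y * p 0 + Y * p 1 + Y * p 2 := by
    calc Y = Y * ((1 / 2 : K) • (1 + s)) := hYs.symm
      _ = Y * (p 0 + p 1 + p 2) := by rw [p0d, p1, p2]; congr 1; abel
      _ = _ := by rw [mul_add, mul_add]
  have hl1 : e * f * X * Y = e * f * X * q 0 * Y + e * f * X * q 1 * Y + e * f * X * q 2 * Y := by
    calc e * f * X * Y = e * f * (X * q 0 + X * q 1 + X * q 2) * Y := by rw [← hXq]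
      _ = _ := by noncomm_ring
  have hl2 : f * e * Y * X = f * e * Y * p 0 * X + f * e * Y * p 1 * X + f * e * Y * p 2 * X := by
    calc f * e * Y * X = f * e * (Y * p 0 + Y * p 1 + Y * p 2) * X := by rw [← hYp]
      _ = _ := by noncomm_ring
  have t1 : LinearMap.trace K V (e * f * X * q 1 * Y) = LinearMap.trace K V (f * e * Y * p 1 * X) := by
    rw [q1, p1]
    calc LinearMap.trace K V (e * f * X * (f * e) * Y) = LinearMap.trace K V ((e * f * X) * (f * e * Y)) := by
          congr 1 <;> noncomm_ring
      _ = LinearMap.trace K V ((f * e * Y) * (e * f * X)) := r2_tr2 _ _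
      _ = _ := by congr 1 <;> noncomm_ring
  -- the index two
  have t2 : LinearMap.trace K V (e * f * X * q 2 * Y) = LinearMap.trace K V (f * e * Y * p 2 * X) := by
    rw [q2, p2]
    obtain ⟨A, hA⟩ : ∃ A, A = e * f * X * f' * (u * f) := ⟨_, rfl⟩
    obtain ⟨D, hD⟩ : ∃ D, D = u * f' * e' * Y * (e * f) := ⟨_, rfl⟩
    obtain ⟨C, hC⟩ : ∃ C, C = e * Y * (u * f) := ⟨_, rfl⟩
    obtain ⟨M, hM⟩ : ∃ M, M = u * f' * X * f := ⟨_, rfl⟩
    have i1 : -M = A - LinearMap.trace K V A • (e * f) := by
      have h1 := hadj _ (hl _ hX.1 _ G.F'.f_mem.1)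
      have h2 : u * f' * e' * (X * f' - f' * X) * f = -M := by
        rw [hM]
        calc u * f' * e' * (X * f' - f' * X) * f = u * f' * e' * X * (f' * f) - u * (f' * e' * f') * X * f := by
              noncomm_ring
          _ = _ := by rw [hf'f, G.F'.fef]; simp
      have h3 : e * f * (X * f' - f' * X) * (u * f) = A := by
        rw [hA]
        calc e * f * (X * f' - f' * X) * (u * f) = e * f * X * f' * (u * f) - e * (f * f') * X * (u * f) := by
              noncomm_ring
          _ = _ := by rw [hff']; simp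
      rw [h2, h3] at h1
      exact h1
    have i2 : D = -C + LinearMap.trace K V C • (e * f) := by
      have h1 := hadj _ (hl _ hY.1 _ G.F.e_mem.1)
      have h2 : u * f' * e' * (Y * e - e * Y) * f = D := by
        rw [hD]
        calc u * f' * e' * (Y * e - e * Y) * f = u * f' * e' * Y * (e * f) - u * f' * (e' * e) * Y * f := by
              noncomm_ring
          _ = _ := by rw [he'e]; simp
      have h3 : e * f * (Y * e - e * Y) * (u * f) = -C := by
        rw [hC]
        calc e * f * (Y * e - e * Y) * (u * f) = e * f * Y * (e * u) * f - (e * f * e) * Y * (u * f) := by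
              noncomm_ring
          _ = _ := by rw [heu, G.F.efe]; simp
      rw [h2, h3, map_neg, neg_smul, sub_neg_eq_add] at h1
      exact h1
    have hAp : A * (e * f) = A := by
      rw [hA]
      calc e * f * X * f' * (u * f) * (e * f) = e * f * X * f' * (u * f * (e * f)) := by noncomm_ring
        _ = _ := by rw [g4]
    have hCp : C * (e * f) = C := by
      rw [hC]
      calc e * Y * (u * f) * (e * f) = e * Y * (u * f * (e * f)) := by noncomm_ring
        _ = _ := by rw [g4]
    calc LinearMap.trace K V (e * f * X * (f' * e') * Y) = LinearMap.trace K V (A * D) := by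
          have h1 : A * D = (e * f * X * (f' * e') * Y) * (e * f) := by
            rw [hA, hD]
            calc e * f * X * f' * (u * f) * (u * f' * e' * Y * (e * f)) =
                  e * f * X * f' * (u * f * (u * f')) * e' * Y * (e * f) := by noncomm_ring
              _ = e * f * X * (f' * e' * f') * e' * Y * (e * f) := by rw [g6]; noncomm_ring
              _ = _ := by rw [G.F'.fef]; noncomm_ring
          rw [h1, r2_tr2 (e * f * X * (f' * e') * Y) (e * f)]
          congr 1
          calc e * f * X * (f' * e') * Y = (e * f * (e * f)) * X * (f' * e') * Y := by rw [hpp]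
            _ = _ := by noncomm_ring
      _ = LinearMap.trace K V C * LinearMap.trace K V A - LinearMap.trace K V (A * C) := by
          rw [i2, mul_add, mul_smul_comm, hAp, map_add, map_smul, mul_neg, map_neg, smul_eq_mul]
          ring
      _ = LinearMap.trace K V (C * M) := by
          have h1 : M = LinearMap.trace K V A • (e * f) - A := by
            have h2 : M = -(-M) := (neg_neg M).symm
            rw [h2, i1]
            abel
          rw [h1, mul_sub, mul_smul_comm, hCp, map_sub, map_smul, smul_eq_mul, r2_tr2 A C]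
          ring
      _ = _ := by
          have h1 : C * M = e * (Y * (e' * f') * X * f) := by
            rw [hC, hM, ← g6]
            noncomm_ring
          rw [h1, r2_tr2]
          have h2 : Y * (e' * f') * X * f * e = (Y * (e' * f') * X) * (f * e) := by noncomm_ring
          rw [h2, r2_tr2]
          congr 1 <;> noncomm_ring
  -- the index zero
  have t0 : LinearMap.trace K V (e * f * X * q 0 * Y) = LinearMap.trace K V (f * e * Y * p 0 * X) := by
    have hX' := B.mp X hX.1 1 0 (by decide)
    have hY' := B.mm Y hY.1 0 1 (by decide)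
    rw [p1, q1] at hX' hY'
    obtain ⟨X', hXd⟩ : ∃ X', X' = e * f * X * q 0 + p 0 * X * (f * e) := ⟨_, rfl⟩
    obtain ⟨Y', hYd⟩ : ∃ Y', Y' = q 0 * Y * (e * f) + f * e * Y * p 0 := ⟨_, rfl⟩
    obtain ⟨Z, hZd⟩ : ∃ Z, Z = u * f' - f' * u := ⟨_, rfl⟩
    have hZ : Z ∈ L := by rw [hZd]; exact hl _ G.u_mem.1 _ G.F'.f_mem.1
    rw [← hXd] at hX'
    rw [← hYd] at hY'
    have h1 := hadj _ (hl _ hX' _ (hl _ hY' _ hZ))
    -- products with p 0, q 0
    have k1 : e * f * p 0 = 0 := by rw [← p1, B.pp, if_neg (by decide)]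
    have k2 : q 0 * (f * e) = 0 := by rw [← q1, B.qq, if_neg (by decide)]
    have k3 : f * e * q 0 = 0 := by rw [← q1, B.qq, if_neg (by decide)]
    have k4 : p 0 * (e * f) = 0 := by rw [← p1, B.pp, if_neg (by decide)]
    have k5 : e' * f' * p 0 = 0 := by rw [← p2, B.pp, if_neg (by decide)]
    have k6 : f' * e' * q 0 = 0 := by rw [← q2, B.qq, if_neg (by decide)]
    have k7 : q 0 * (f' * e') = 0 := by rw [← q2, B.qq, if_neg (by decide)]
    have k8 : q 0 * q 0 = q 0 := by rw [B.qq, if_pos rfl]
    have k9 : p 0 * p 0 = p 0 := by rw [B.pp, if_pos rfl]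
    have l1 : q 0 * f = 0 := by
      calc q 0 * f = q 0 * (f * e) * f := by
            rw [mul_assoc, G.F.fef]
        _ = 0 := by rw [k2, zero_mul]
    have l2 : e * q 0 = 0 := by
      calc e * q 0 = e * (f * e * q 0) := by
            rw [← mul_assoc, ← mul_assoc, G.F.efe]
        _ = 0 := by rw [k3, mul_zero]
    have l3 : e' * q 0 = 0 := by
      calc e' * q 0 = e' * (f' * e' * q 0) := by
            rw [← mul_assoc, ← mul_assoc, G.F'.efe]
        _ = 0 := by rw [k6, mul_zero]
    have l4 : q 0 * f' = 0 := by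
      calc q 0 * f' = q 0 * (f' * e') * f' := by
            rw [mul_assoc, G.F'.fef]
        _ = 0 := by rw [k7, zero_mul]
    have hse : s * e = e := G.F.e_mem.2.1
    have hse' : s * e' = e' := G.F'.e_mem.2.1
    have hsu : s * u = u := G.u_mem.2.1
    have hes : e * s = -e := G.F.e_mem.2.2
    have hes' : e' * s = -e' := G.F'.e_mem.2.2
    have l5 : q 0 * u = 0 := by
      rw [q0d, sub_mul, sub_mul, smul_mul_assoc, sub_mul, one_mul, hsu, mul_assoc f e u, heu,
        mul_assoc f' e' u, he'u]
      simp
    have l6 : e * p 0 = 0 := by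
      rw [p0d, mul_sub, mul_sub, mul_smul_comm, mul_add, mul_one, hes, ← mul_assoc, hee, ← mul_assoc, hee']
      simp
    have he'e' : e' * e' = 0 := A2_pp G.F'.e_mem G.F'.e_mem
    have l7 : e' * p 0 = 0 := by
      rw [p0d, mul_sub, mul_sub, mul_smul_comm, mul_add, mul_one, hes', ← mul_assoc, he'e, ← mul_assoc, he'e']
      simp
    -- the elements
    have m1 : e * f * X' = e * f * X * q 0 := by
      rw [hXd]
      calc e * f * (e * f * X * q 0 + p 0 * X * (f * e)) = (e * f * (e * f)) * X * q 0 +
            (e * f * p 0) * X * (f * e) := by noncomm_ring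
        _ = _ := by rw [hpp, k1]; simp
    have m2 : X' * (u * f) = 0 := by
      rw [hXd]
      calc (e * f * X * q 0 + p 0 * X * (f * e)) * (u * f) = e * f * X * (q 0 * u) * f +
            p 0 * X * f * (e * u) * f := by noncomm_ring
        _ = 0 := by rw [l5, heu]; simp
    have m3 : Z * (u * f) = e * f := by
      rw [hZd]
      calc (u * f' - f' * u) * (u * f) = (u * f' * u) * f - f' * (u * u) * f := by noncomm_ring
        _ = _ := by rw [G.ufu', huu]; simp
    have m4 : q 0 * Z = 0 := by
      rw [hZd]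
      calc q 0 * (u * f' - f' * u) = (q 0 * u) * f' - (q 0 * f') * u := by noncomm_ring
        _ = 0 := by rw [l5, l4]; simp
    have m5 : q 0 * Y' * (e * f) = q 0 * Y * (e * f) := by
      rw [hYd]
      calc q 0 * (q 0 * Y * (e * f) + f * e * Y * p 0) * (e * f) = (q 0 * q 0) * Y * (e * f * (e * f)) +
            (q 0 * (f * e)) * Y * p 0 * (e * f) := by noncomm_ring
        _ = _ := by rw [k8, hpp, k2]; simp
    have n1 : e * f * (X' * (Y' * Z - Z * Y') - (Y' * Z - Z * Y') * X') * (u * f) =
        e * f * X * q 0 * Y * (e * f) := by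
      calc e * f * (X' * (Y' * Z - Z * Y') - (Y' * Z - Z * Y') * X') * (u * f) =
            (e * f * X') * Y' * (Z * (u * f)) - (e * f * X') * Z * Y' * (u * f) -
            e * f * (Y' * Z - Z * Y') * (X' * (u * f)) := by noncomm_ring
        _ = e * f * X * (q 0 * Y' * (e * f)) - e * f * X * (q 0 * Z) * Y' * (u * f) := by
            rw [m1, m2, m3]; noncomm_ring
        _ = _ := by rw [m5, m4]; simp only [mul_zero, zero_mul, sub_zero]; noncomm_ring
    have o1 : e' * X' = 0 := by
      rw [hXd]
      calc e' * (e * f * X * q 0 + p 0 * X * (f * e)) = (e' * e) * f * X * q 0 + (e' * p 0) * X * (f * e) := by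
            noncomm_ring
        _ = 0 := by rw [he'e, l7]; simp
    have o2 : e' * Y' = 0 := by
      rw [hYd]
      calc e' * (q 0 * Y * (e * f) + f * e * Y * p 0) = (e' * q 0) * Y * (e * f) + (e' * f) * e * Y * p 0 := by
            noncomm_ring
        _ = 0 := by rw [l3, G.o3]; simp
    have o3 : u * f' * e' * Z = -e := by
      rw [hZd]
      calc u * f' * e' * (u * f' - f' * u) = u * f' * (e' * u) * f' - u * (f' * e' * f') * u := by noncomm_ring
        _ = _ := by rw [he'u, G.F'.fef, G.ufu']; simp
    have o4 : e * Y' = e * Y * p 0 := by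
      rw [hYd]
      calc e * (q 0 * Y * (e * f) + f * e * Y * p 0) = (e * q 0) * Y * (e * f) + (e * f * e) * Y * p 0 := by
            noncomm_ring
        _ = _ := by rw [l2, G.F.efe]; simp
    have o5 : X' * f = p 0 * X * f := by
      rw [hXd]
      calc (e * f * X * q 0 + p 0 * X * (f * e)) * f = e * f * X * (q 0 * f) + p 0 * X * (f * e * f) := by
            noncomm_ring
        _ = _ := by rw [l1, G.F.fef]; simp
    have n2 : u * f' * e' * (X' * (Y' * Z - Z * Y') - (Y' * Z - Z * Y') * X') * f = -(e * Y * p 0 * X * f) := by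
      calc u * f' * e' * (X' * (Y' * Z - Z * Y') - (Y' * Z - Z * Y') * X') * f =
            u * f' * (e' * X') * (Y' * Z - Z * Y') * f - u * f' * (e' * Y') * Z * X' * f +
            (u * f' * e' * Z) * Y' * (X' * f) := by noncomm_ring
        _ = -(e * Y' * (X' * f)) := by rw [o1, o2, o3]; simp
        _ = -(e * Y * (p 0 * p 0) * X * f) := by rw [o4, o5]; noncomm_ring
        _ = _ := by rw [k9]
    rw [n1, n2] at h1
    have h2 := congrArg (LinearMap.trace K V) h1
    rw [map_neg, map_sub, map_smul, htp, smul_eq_mul] at h2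
    have h3 : LinearMap.trace K V (e * f * X * q 0 * Y * (e * f)) = LinearMap.trace K V (e * f * X * q 0 * Y) := by
      rw [r2_tr2]
      congr 1
      calc e * f * (e * f * X * q 0 * Y) = (e * f * (e * f)) * X * q 0 * Y := by noncomm_ring
        _ = _ := by rw [hpp]
    have h4 : LinearMap.trace K V (e * Y * p 0 * X * f) = LinearMap.trace K V (f * e * Y * p 0 * X) := by
      rw [r2_tr2]
      congr 1 <;> noncomm_ring
    rw [h3, h4] at h2
    linear_combination h2
  rw [hl1, hl2, map_add, map_add, map_add, map_add, t0, t1, t2]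

/-- The traces of the corners at `p 1` and `q 1` are opposite. -/
theorem r2_tau [CharZero K] [IsAlgClosed K] [FiniteDimensional K V] [Nontrivial V] (h : CoreN L)
    {s e f e' f' u : Module.End K V} (G : Grid L s e f e' f' u) (hr : finrank K (LinearMap.range e) = 2)
    {X : Module.End K V} (hX : X ∈ L) :
    LinearMap.trace K V (e * f * X) + LinearMap.trace K V (f * e * X) = 0 := by
  obtain ⟨a, ha, b, hb, c, hc, rfl⟩ := A2_decomp h G.F.s_mem G.F.s_sq hX
  have h1 : LinearMap.trace K V (e * f * a) = 0 := by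
    have h2 : e * f * a = e * (f * a) := by noncomm_ring
    rw [h2, r2_tr2]
    have h3 : f * a * e = f * (a * e) := by noncomm_ring
    rw [h3, A2_pp ha G.F.e_mem, mul_zero, map_zero]
  have h2 : LinearMap.trace K V (f * e * a) = 0 := by
    rw [mul_assoc, A2_pp G.F.e_mem ha, mul_zero, map_zero]
  have h3 : LinearMap.trace K V (e * f * c) = 0 := by
    rw [mul_assoc, A2_mm G.F.f_mem hc, mul_zero, map_zero]
  have h4 : LinearMap.trace K V (f * e * c) = 0 := by
    have h2 : f * e * c = f * (e * c) := by noncomm_ring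
    rw [h2, r2_tr2]
    have h3 : e * c * f = e * (c * f) := by noncomm_ring
    rw [h3, A2_mm hc G.F.f_mem, mul_zero, map_zero]
  have h5 : LinearMap.trace K V (e * f * b) + LinearMap.trace K V (f * e * b) = 0 := by
    have hspan := A3_span h G.F.s_mem G.F.s_sq hb
    refine Submodule.span_induction (p := fun b _ => LinearMap.trace K V (e * f * b) +
      LinearMap.trace K V (f * e * b) = 0) ?_ ?_ ?_ ?_ hspan
    · rintro _ ⟨X, hX, Y, hY, rfl⟩
      have k1 : LinearMap.trace K V (e * f * (Y * X)) = 0 := by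
        have h2 : e * f * (Y * X) = e * (f * Y * X) := by noncomm_ring
        rw [h2, r2_tr2]
        have h3 : f * Y * X * e = f * Y * (X * e) := by noncomm_ring
        rw [h3, A2_pp hX G.F.e_mem, mul_zero, map_zero]
      have k2 : LinearMap.trace K V (f * e * (X * Y)) = 0 := by
        have h2 : f * e * (X * Y) = f * (e * X) * Y := by noncomm_ring
        rw [h2, A2_pp G.F.e_mem hX, mul_zero, zero_mul, map_zero]
      have k3 := r2_bracket h G hr hX hY
      rw [mul_sub, mul_sub, map_sub, map_sub, k1, k2]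
      rw [mul_assoc (e * f), mul_assoc (f * e)] at k3
      rw [k3]
      ring
    · simp
    · intro x y _ _ h1 h2
      rw [mul_add, mul_add, map_add, map_add]
      linear_combination h1 + h2
    · intro t x _ h1
      rw [mul_smul_comm, mul_smul_comm, map_smul, map_smul, smul_eq_mul, smul_eq_mul]
      linear_combination t * h1
  rw [mul_add, mul_add, mul_add, mul_add, map_add, map_add, map_add, map_add, h1, h2, h3, h4]
  linear_combination h5

/-- In rank two there is a nonzero invariant form. -/
theorem r2_form [CharZero K] [IsAlgClosed K] [FiniteDimensional K V] [Nontrivial V] (h : CoreN L)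
    {s e f e' f' u : Module.End K V} (G : Grid L s e f e' f' u) (hr : finrank K (LinearMap.range e) = 2) :
    ∃ B : V →ₗ[K] V →ₗ[K] K, B ≠ 0 ∧ ∀ X ∈ L, ∀ v w, B (X v) w + B v (X w) = 0 := by
  have hpp : e * f * (e * f) = e * f := by rw [← mul_assoc, G.F.efe]
  obtain ⟨p, hp⟩ : ∃ p, p = e * f := ⟨_, rfl⟩
  have hppp : p * p = p := by rw [hp]; exact hpp
  have hpe : p * e = e := by rw [hp, G.F.efe]
  have hr2 : finrank K (LinearMap.range p) = 2 := by rw [hp, (K0_rank G.F).1, hr]
  have htp : LinearMap.trace K V p = 2 := by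
    rw [hp, (K0_rank G.F).2.2, hr]; norm_num
  obtain ⟨κ, hκ0, hκ⟩ := r1_form (K := K) hr2
  -- the lower corner
  have hD : ∀ X ∈ L, e * X * f = p * X * p - LinearMap.trace K V (p * X * p) • p := by
    intro X hX
    obtain ⟨c, hc⟩ := K0_ext h.lie G.F (h.lie _ hX _ G.F.e_mem.1)
    have h1 : e * f * (X * e - e * X) * (f * e) = (p * X * p - e * X * f) * e := by
      rw [hp]
      calc e * f * (X * e - e * X) * (f * e) = e * f * X * (e * f * e) - (e * f * e) * X * (f * e) := by
            noncomm_ring
        _ = e * f * X * (e * f * e) - e * X * f * e := by rw [G.F.efe]; noncomm_ring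
        _ = _ := by noncomm_ring
    rw [h1] at hc
    have h2 : p * X * p - e * X * f = c • p := by
      have h3 := congrArg (· * f) hc
      rw [smul_mul_assoc, ← hp] at h3
      rw [← h3]
      calc p * X * p - e * X * f = p * X * (p * p) - e * X * (f * e * f) := by rw [hppp, G.F.fef]
        _ = (p * X * p - e * X * f) * p := by rw [hp]; noncomm_ring
        _ = _ := by rw [hp]; noncomm_ring
    have h3 := congrArg (LinearMap.trace K V) h2
    rw [map_sub, map_smul, htp, smul_eq_mul] at h3
    have h4 : LinearMap.trace K V (p * X * p) = LinearMap.trace K V (e * f * X) := by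
      rw [r2_tr2, ← mul_assoc, hppp, hp]
    have h5 : LinearMap.trace K V (e * X * f) = LinearMap.trace K V (f * e * X) := by
      rw [r2_tr2, mul_assoc]
    have h6 := r2_tau h G hr hX
    have h7 : c = LinearMap.trace K V (p * X * p) := by
      have h8 : (2 : K) * (c - LinearMap.trace K V (p * X * p)) = 0 := by
        linear_combination -h3 - h4 - h5 - h6
      have h9 := (mul_eq_zero.1 h8).resolve_left two_ne_zero
      linear_combination h9
    rw [← h7, ← h2]
    abel
  let ρ : V →ₗ[K] LinearMap.range p := p.rangeRestrict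
  have hρ : ∀ v, ((ρ v : LinearMap.range p) : V) = p v := fun v => rfl
  have hρp : ∀ v, ρ (p v) = ρ v := by
    intro v
    apply Subtype.ext
    rw [hρ, hρ, ← Module.End.mul_apply, hppp]
  have hρe : ∀ v, ((ρ (e v) : LinearMap.range p) : V) = e v := by
    intro v
    rw [hρ, ← Module.End.mul_apply, hpe]
  let β : V →ₗ[K] V →ₗ[K] K := κ.compl₁₂ ρ (ρ ∘ₗ e)
  have hβ : ∀ v w, β v w = κ (ρ v) (ρ (e w)) := fun v w => rfl
  obtain ⟨B, hB1, hB2⟩ := exists_form h G.F β
    (by
      intro v w
      rw [hβ, hβ]
      have : e (f v) = p v := by rw [hp]; rfl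
      rw [this, hρp])
    (by
      intro v w
      rw [hβ, hβ]
      have : e (f (e w)) = e w := LinearMap.congr_fun G.F.efe w
      rw [this])
    (by
      intro X hX v w
      rw [hβ, hβ]
      have h1 : ρ (X (e (f v))) = res p (p * X * p) (ρ v) := by
        apply Subtype.ext
        rw [res_coe, hρ, hρ, hp]
        show e (f (X (e (f v)))) = e (f (e (f (X (e (f (e (f v))))))))
        have e1 : ∀ v, e (f (e v)) = e v := fun v => LinearMap.congr_fun G.F.efe v
        rw [e1, e1]
      have h2 : ρ (e (X (f (e w)))) = res p (p * X * p) (ρ (e w)) -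
          LinearMap.trace K (LinearMap.range p) (res p (p * X * p)) • ρ (e w) := by
        apply Subtype.ext
        rw [hρe, Submodule.coe_sub, Submodule.coe_smul, res_coe, hρe,
          res_trace (by rw [← mul_assoc, ← mul_assoc, hppp])]
        have h3 := LinearMap.congr_fun (hD X hX) (e w)
        rw [LinearMap.sub_apply, LinearMap.smul_apply] at h3
        have h4 : p (e w) = e w := by rw [← Module.End.mul_apply, hpe]
        rw [h4] at h3
        have h5 : p ((p * X * p) (e w)) = (p * X * p) (e w) := by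
          rw [← Module.End.mul_apply, ← mul_assoc, ← mul_assoc, hppp]
        rw [h5, ← h3]
        rfl
      rw [h1, h2, map_sub, map_smul, smul_eq_mul]
      have h3 := hκ (res p (p * X * p)) (ρ v) (ρ (e w))
      linear_combination h3)
  refine ⟨B, ?_, hB2⟩
  rintro rfl
  apply hκ0
  ext ⟨_, ⟨x, rfl⟩⟩ ⟨_, ⟨y, rfl⟩⟩
  have h1 := hB1 x (f y)
  rw [hβ] at h1
  have h2 : ρ (e (f y)) = ⟨p y, y, rfl⟩ := by
    apply Subtype.ext
    rw [hρe, hp]
    rfl
  rw [h2] at h1
  exact h1.symm

end Pool.Agent.H86N
end
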