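import Pool.Agent.Lib.H1M.RC.M005
import Pool.Agent.Lib.H1M.RC.M009
import Pool.Agent.Lib.H1M.RC.M022
import Pool.Agent.Lib.H1M.RC.M024
import Pool.Agent.Lib.H1M.RC.M025
import Pool.Agent.Lib.H1M.RC.M026
import Pool.Agent.Lib.H1M.RC.M029

/-! Merged copies (to shorten the build) of Lib.H86N.P8, Lib.H86N.CoreA, Lib.H86N.KF, Lib.H86N.KF2, Lib.H86N.KF3, Lib.H86N.P8f, Lib.H86N.CoreNS. -/

-- from Lib.H86N.P8
section

/-!
# P8: the case where two frames fill everything
-/

set_option autoImplicit false
set_option linter.unusedSectionVars false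
namespace Pool.Agent.H86N
open Module Pool.Agent.H53Toric Pool.Agent.H49M

variable {K : Type*} [Field K] {V : Type*} [AddCommGroup V] [Module K V]

variable {L : Submodule K (Module.End K V)}

/-- Chunk P8a. The dimension of `V₊` is twice the rank of `e`: `p 1 = e f`, `p 2 = e' f'` have the
same rank because `u₁ u₂ = p 1`, `u₂ u₁ = p 2` for `u₁ = u f'`, `u₂ = u f`; use `K0_rank`, `K5_eig`. -/
theorem P8_four [CharZero K] [IsAlgClosed K] [FiniteDimensional K V] [Nontrivial V]
    (h : CoreN L) {s e f e' f' u : Module.End K V} (G : Grid L s e f e' f' u)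
    (h0 : (1 / 2 : K) • (1 + s) = e * f + e' * f') :
    finrank K V = 4 * finrank K (LinearMap.range e) := by
  obtain ⟨hu12, hu21⟩ := P3_u12 G
  have t1 := (K0_rank G.F).2.2
  have t2 : LinearMap.trace K V (e' * f') = LinearMap.trace K V (e * f) := by
    rw [← hu12, ← hu21, LinearMap.trace_mul_comm]
  have t3 := h.tr s G.F.s_mem
  have h1 := congrArg (LinearMap.trace K V) h0
  rw [map_smul, map_add, map_add, t2, t1, t3, LinearMap.trace_one, add_zero, smul_eq_mul] at h1
  have h2 : (finrank K V : K) = ((4 * finrank K (LinearMap.range e) : ℕ) : K) := by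
    push_cast
    linear_combination 2 * h1
  exact Nat.cast_injective h2

/-- Chunk P8b. `j = f + f'`, `g = e + e'` satisfy `g j = (1+s)/2 =: P`, `j g = (1-s)/2 =: Q` (apply
`adj` to the hypothesis for the second). For `x ∈ Lp`: `p 1 x q 1 = c₁ e` (`K0_ext`),
`p 2 x q 2 = c₂ e'` (`K0_ext` for the frame `e', f'`), `x' = p 1 x q 2 + p 2 x q 1 ∈ L`. Put
`w = x j - (1/2)(c₁ + c₂) P = (1/2)(c₁ - c₂)(p 1 - p 2) + x' j`, an operator of `V₊ = range P`.
`w² ∈ K P`: `x' j` is off-diagonal: `x' j = p 1 x' f' + p 2 x' f` and anticommutes with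
`p 1 - p 2`; `(x' j)² = p 1 x' f' x' f + p 2 x' f x' f'`, where `x' f' x' ∈ L` is
`p 1 (x' f' x') q 1 = c e`, `x' f x' = c' e'`, so `(x' j)² = c p 1 + c' p 2`; `c = c'` because
`(x' j)² (x' j) = (x' j)(x' j)²` if `x' ≠ 0` (if `p 1 x' f' = 0` then `p 1 x' q 2 = 0`, hence
`x' = 0` by `adj`), and `c = c' = 0` if `x' = 0`. Let `J` be the space of these `w` restricted to
`V₊ = eig s 1`. `J` is irreducible on `V₊`: a `J`-stable subspace `W` is stable under all `x j`,
`x ∈ Lp`, hence under `x y = (x j)(g y g j)` on `V₊` for `x ∈ Lp`, `y ∈ Lm` (`g y g ∈ Lp`,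
`IsLie.sandwich`, `y = y P = y g j`), hence under `x y - y x` (`y x = 0` on `V₊`), hence under `L0`
(`A3_span`); so `W = 0` or `W = V₊` by `A3_vec`. Now `P7_cliff`. -/
theorem P8_pow [CharZero K] [IsAlgClosed K] [FiniteDimensional K V] [Nontrivial V]
    (h : CoreN L) {s e f e' f' u : Module.End K V} (G : Grid L s e f e' f' u)
    (h0 : (1 / 2 : K) • (1 + s) = e * f + e' * f') :
    ∃ t : ℕ, finrank K (eig s 1) = 2 ^ t := by
  have hl := h.lie
  obtain ⟨P, hP⟩ : ∃ P : Module.End K V, P = (1 / 2 : K) • (1 + s) := ⟨_, rfl⟩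
  obtain ⟨Q, hQ⟩ : ∃ Q : Module.End K V, Q = (1 / 2 : K) • (1 - s) := ⟨_, rfl⟩
  have hPe : P = e * f + e' * f' := by rw [hP, h0]
  have hs2 := G.F.s_sq
  have hQe : Q = f * e + f' * e' := by
    -- the difference is an idempotent of trace zero
    have B := P2_blocks h G
    have q0 : (qq s e f e' f' : Fin 3 → Module.End K V) 0 = (1 / 2 : K) • (1 - s) - f * e - f' * e' := rfl
    have p0 : (pp s e f e' f' : Fin 3 → Module.End K V) 0 = (1 / 2 : K) • (1 + s) - e * f - e' * f' := rfl
    have t1 : LinearMap.trace K V ((pp s e f e' f' : Fin 3 → Module.End K V) 0 -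
        (qq s e f e' f' : Fin 3 → Module.End K V) 0) = 0 := h.tr _ (B.mem 0)
    have t2 : (pp s e f e' f' : Fin 3 → Module.End K V) 0 = 0 := by rw [p0, h0]; abel
    rw [t2, zero_sub, map_neg, neg_eq_zero] at t1
    have t3 := trace_idem (V := V) (K := K) (show (qq s e f e' f' : Fin 3 → Module.End K V) 0 *
      (qq s e f e' f' : Fin 3 → Module.End K V) 0 = (qq s e f e' f' : Fin 3 → Module.End K V) 0 by
        rw [B.qq, if_pos rfl])
    rw [t1] at t3
    have t4 : finrank K (LinearMap.range ((qq s e f e' f' : Fin 3 → Module.End K V) 0)) = 0 := by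
      exact_mod_cast t3.symm
    have t5 := LinearMap.range_eq_bot.1 (Submodule.finrank_eq_zero.1 t4)
    rw [q0] at t5
    rw [hQ]
    have t6 := sub_eq_zero.1 (show (1 / 2 : K) • (1 - s) - (f * e + f' * e') = 0 by rw [← t5]; abel)
    exact t6
  have ePx : ∀ X ∈ Lp L s, P * X = X := by
    intro X hX
    rw [hP, smul_mul_assoc, add_mul, one_mul, hX.2.1, ← two_smul K, smul_smul]; norm_num
  have eXQ : ∀ X ∈ Lp L s, X * Q = X := by
    intro X hX
    rw [hQ, mul_smul_comm, mul_sub, mul_one, hX.2.2, sub_neg_eq_add, ← two_smul K, smul_smul]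
    norm_num
  have eYP : ∀ Y ∈ Lm L s, Y * P = Y := by
    intro X hX
    rw [hP, mul_smul_comm, mul_add, mul_one, hX.2.2, ← two_smul K, smul_smul]; norm_num
  have hPv : ∀ v, s v = v → P v = v := by
    intro v hv
    rw [hP, LinearMap.smul_apply, LinearMap.add_apply, hv, Module.End.one_apply, ← two_smul K,
      smul_smul]
    norm_num
  have m1 : ∀ {v : V}, v ∈ eig s 1 ↔ s v = v := by
    intro v
    rw [eig, LinearMap.mem_ker, LinearMap.sub_apply, sub_eq_zero, one_smul, Module.End.one_apply]
  have ff' : f * f' = 0 := A2_mm G.F.f_mem G.F'.f_mem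
  have f'f : f' * f = 0 := A2_mm G.F'.f_mem G.F.f_mem
  have efe := G.F.efe
  have fef := G.F.fef
  have efe' := G.F'.efe
  have fef' := G.F'.fef
  have e'f := G.o3
  have ef' := G.o1
  have hgj : (e + e') * (f + f') = P := by
    rw [hPe, add_mul, mul_add, mul_add, ef', e'f]; simp
  have hjg : (f + f') * (e + e') = Q := by
    rw [hQe, add_mul, mul_add, mul_add, G.o4, G.o2]; simp
  have p1ne : e * f ≠ 0 := by
    intro h1
    apply G.F.e_ne
    rw [← efe, h1, zero_mul]
  -- the space of operators
  let J : Submodule K (Module.End K (eig s 1)) :=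
    { carrier := {T | ∃ x ∈ Lp L s, ∃ c₁ c₂ : K, e * f * x * (f * e) = c₁ • e ∧
        e' * f' * x * (f' * e') = c₂ • e' ∧
        ∀ v : eig s 1, ((T v : eig s 1) : V) = x ((f + f') (v : V)) - ((c₁ + c₂) / 2) • (v : V)}
      add_mem' := by
        rintro S T ⟨x, hx, c₁, c₂, h1, h2, h3⟩ ⟨y, hy, d₁, d₂, h4, h5, h6⟩
        refine ⟨x + y, (Lp L s).add_mem hx hy, c₁ + d₁, c₂ + d₂, ?_, ?_, ?_⟩
        · rw [mul_add, add_mul, h1, h4, add_smul]
        · rw [mul_add, add_mul, h2, h5, add_smul]
        · intro v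
          have e1 : (x + y) ((f + f') (v : V)) = x ((f + f') (v : V)) + y ((f + f') (v : V)) := rfl
          rw [LinearMap.add_apply, Submodule.coe_add, h3, h6, e1]
          module
      zero_mem' := ⟨0, (Lp L s).zero_mem, 0, 0, by simp, by simp, by simp⟩
      smul_mem' := by
        rintro c T ⟨x, hx, c₁, c₂, h1, h2, h3⟩
        refine ⟨c • x, (Lp L s).smul_mem c hx, c * c₁, c * c₂, ?_, ?_, ?_⟩
        · rw [mul_smul_comm, smul_mul_assoc, h1, smul_smul]
        · rw [mul_smul_comm, smul_mul_assoc, h2, smul_smul]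
        · intro v
          have e1 : (c • x) ((f + f') (v : V)) = c • x ((f + f') (v : V)) := rfl
          rw [LinearMap.smul_apply, Submodule.coe_smul, h3, e1]
          module }
  have hsq : ∀ w ∈ J, ∃ c : K, w * w = c • 1 := by
    rintro T ⟨x, hx, c₁, c₂, h1, h2, h3⟩
    have hxx : x * x = 0 := A2_pp hx hx
    obtain ⟨A, hA⟩ : ∃ A, A = e * f * x * f' := ⟨_, rfl⟩
    obtain ⟨B, hB⟩ : ∃ B, B = e' * f' * x * f := ⟨_, rfl⟩
    -- the operator
    have hxj : x * (f + f') = c₁ • (e * f) + c₂ • (e' * f') + A + B := by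
      have e1 : e * f * x * f = c₁ • (e * f) := by
        calc e * f * x * f = e * f * x * (f * e) * f := by rw [mul_assoc _ (f * e) f, fef]
          _ = c₁ • (e * f) := by rw [h1, smul_mul_assoc]
      have e2 : e' * f' * x * f' = c₂ • (e' * f') := by
        calc e' * f' * x * f' = e' * f' * x * (f' * e') * f' := by
              rw [mul_assoc _ (f' * e') f', fef']
          _ = c₂ • (e' * f') := by rw [h2, smul_mul_assoc]
      calc x * (f + f') = P * x * (f + f') := by rw [ePx x hx]
        _ = e * f * x * f + e' * f' * x * f' + e * f * x * f' + e' * f' * x * f := by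
            rw [hPe]; noncomm_ring
        _ = _ := by rw [e1, e2, hA, hB]
    obtain ⟨a, ha⟩ := K0_ext hl G.F (hl.sandwich hx.1 hxx G.F'.f_mem.1)
    obtain ⟨b, hb⟩ := K0_ext hl G.F' (hl.sandwich hx.1 hxx G.F.f_mem.1)
    have hAB : A * B = a • (e * f) := by
      calc A * B = e * f * x * (f' * e' * f') * x * f := by rw [hA, hB]; noncomm_ring
        _ = e * f * (x * f' * x) * (f * e) * f := by
          rw [fef', mul_assoc _ (f * e) f, fef]; noncomm_ring
        _ = _ := by rw [ha, smul_mul_assoc]
    have hBA : B * A = b • (e' * f') := by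
      calc B * A = e' * f' * x * (f * e * f) * x * f' := by rw [hA, hB]; noncomm_ring
        _ = e' * f' * (x * f * x) * (f' * e') * f' := by
          rw [fef, mul_assoc _ (f' * e') f', fef']; noncomm_ring
        _ = _ := by rw [hb, smul_mul_assoc]
    have hp1A : e * f * A = A := by rw [hA]; simp only [← mul_assoc]; rw [efe]
    have hAp2 : A * (e' * f') = A := by rw [hA, mul_assoc, ← mul_assoc f', fef']
    have hp2B : e' * f' * B = B := by rw [hB]; simp only [← mul_assoc]; rw [efe']
    have hBp1 : B * (e * f) = B := by rw [hB, mul_assoc, ← mul_assoc f, fef]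
    have hAA : A * A = 0 := by
      calc A * A = e * f * x * (f' * e) * f * x * f' := by rw [hA]; noncomm_ring
        _ = 0 := by rw [G.o2]; simp
    have hBB : B * B = 0 := by
      calc B * B = e' * f' * x * (f * e') * f' * x * f := by rw [hB]; noncomm_ring
        _ = 0 := by rw [G.o4]; simp
    have hab : a = b := by
      by_cases hA0 : A = 0
      · rw [hA0, zero_mul] at hAB
        rw [hA0, mul_zero] at hBA
        have ha0 := (smul_eq_zero.mp hAB.symm).resolve_right p1ne
        have p2ne : e' * f' ≠ 0 := by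
          intro h1
          apply G.F'.e_ne
          rw [← efe', h1, zero_mul]
        have hb0 := (smul_eq_zero.mp hBA.symm).resolve_right p2ne
        rw [ha0, hb0]
      · have e1 : (a - b) • A = 0 := by
          have e2 : A * B * A = a • A := by rw [hAB, smul_mul_assoc, hp1A]
          have e3 : A * B * A = b • A := by rw [mul_assoc, hBA, mul_smul_comm, hAp2]
          rw [sub_smul, ← e2, ← e3, sub_self]
        exact sub_eq_zero.mp ((smul_eq_zero.mp e1).resolve_right hA0)
    -- the square
    obtain ⟨D, hD⟩ : ∃ D : Module.End K V, D = x * (f + f') - ((c₁ + c₂) / 2) • P := ⟨_, rfl⟩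
    obtain ⟨d, hd⟩ : ∃ d : K, d = (c₁ - c₂) / 2 := ⟨_, rfl⟩
    have hD2 : D = d • (e * f - e' * f') + (A + B) := by
      rw [hD, hxj, hPe, hd]; module
    have t12 : e * f * (e' * f') = 0 := by
      rw [mul_assoc, ← mul_assoc f, G.o4, zero_mul, mul_zero]
    have t21 : e' * f' * (e * f) = 0 := by
      rw [mul_assoc, ← mul_assoc f', G.o2, zero_mul, mul_zero]
    have t11 : e * f * (e * f) = e * f := by rw [← mul_assoc, efe]
    have t22 : e' * f' * (e' * f') = e' * f' := by rw [← mul_assoc, efe']
    have hp2A : e' * f' * A = 0 := by rw [← hp1A, ← mul_assoc, t21, zero_mul]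
    have hp1B : e * f * B = 0 := by rw [← hp2B, ← mul_assoc, t12, zero_mul]
    have hAp1 : A * (e * f) = 0 := by rw [← hAp2, mul_assoc, t21, mul_zero]
    have hBp2 : B * (e' * f') = 0 := by rw [← hBp1, mul_assoc, t12, mul_zero]
    have hDD : D * D = (d * d + a) • P := by
      rw [hD2]
      simp only [add_mul, mul_add, sub_mul, mul_sub, smul_mul_assoc, mul_smul_comm, smul_sub,
        t11, t12, t21, t22, hp1A, hAp2, hp2B, hBp1, hp2A, hp1B, hAp1, hBp2, hAA, hBB, hAB, hBA,
        ← hab, hPe]
      module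
    refine ⟨d * d + a, ?_⟩
    have hTD : ∀ v : eig s 1, ((T v : eig s 1) : V) = D v := by
      intro v
      rw [h3, hD, LinearMap.sub_apply, LinearMap.smul_apply, hPv v (m1.mp v.2)]
      rfl
    ext v
    rw [Module.End.mul_apply, hTD, hTD, ← Module.End.mul_apply, hDD, LinearMap.smul_apply,
      hPv v (m1.mp v.2)]
    rfl
  have hfin := (K5_eig h G.F.s_mem G.F.s_sq).2
  have hpos : 0 < finrank K V := finrank_pos
  have hpos1 : 0 < finrank K (eig s 1) := by omega
  have : Nontrivial (eig s 1) := (Module.finrank_pos_iff (R := K)).mp hpos1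
  refine P7_cliff (finrank K (eig s 1)) (eig s 1) J rfl hsq ?_
  intro U hU
  by_cases hU0 : U = ⊥
  · exact Or.inl hU0
  right
  obtain ⟨W, hW⟩ : ∃ W : Submodule K V, W = U.map (eig s 1).subtype := ⟨_, rfl⟩
  have hWs : ∀ w ∈ W, s w = w := by
    rw [hW]; rintro _ ⟨u, _, rfl⟩; exact m1.mp u.2
  have hW0 : W ≠ ⊥ := by
    intro h1
    apply hU0
    rw [eq_bot_iff]
    intro y hy
    have h4 : (y : V) ∈ W := by rw [hW]; exact ⟨y, hy, rfl⟩
    rw [h1, Submodule.mem_bot] at h4
    exact Subtype.ext h4
  have hst1 : ∀ x ∈ Lp L s, ∀ w ∈ W, (x * (f + f')) w ∈ W := by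
    intro x hx w hw
    obtain ⟨c₁, h1⟩ := K0_ext hl G.F hx.1
    obtain ⟨c₂, h2⟩ := K0_ext hl G.F' hx.1
    have hstab : ∀ v ∈ eig s 1, (x * (f + f') - ((c₁ + c₂) / 2) • 1) v ∈ eig s 1 := by
      intro v hv
      rw [m1] at hv ⊢
      rw [LinearMap.sub_apply, map_sub, ← Module.End.mul_apply, ← mul_assoc, hx.2.1,
        LinearMap.smul_apply, map_smul, Module.End.one_apply, hv]
    rw [hW] at hw ⊢
    obtain ⟨u, hu, rfl⟩ := hw
    have h5 := hU ((x * (f + f') - ((c₁ + c₂) / 2) • 1).restrict hstab)
      ⟨x, hx, c₁, c₂, h1, h2, fun v => rfl⟩ u hu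
    have h6 : (x * (f + f')) (u : V) = (((x * (f + f') - ((c₁ + c₂) / 2) • 1).restrict hstab u +
        ((c₁ + c₂) / 2) • u : eig s 1) : V) := by
      rw [Submodule.coe_add, Submodule.coe_smul, LinearMap.coe_restrict_apply]
      simp
    change (x * (f + f')) (u : V) ∈ _
    rw [h6]
    exact ⟨_, U.add_mem h5 (U.smul_mem _ hu), rfl⟩
  rw [eq_top_iff]
  rintro ⟨u, hu⟩ -
  have huW : u ∈ W := by
    refine A3_vec h G.F.s_mem G.F.s_sq hWs hW0 ?_ (m1.mp hu)
    intro Z hZ
    have hsp := A3_span h G.F.s_mem G.F.s_sq hZ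
    refine Submodule.span_induction (p := fun Z _ => ∀ w ∈ W, Z w ∈ W) ?_ ?_ ?_ ?_ hsp
    · rintro _ ⟨X, hX, Y, hY, rfl⟩ w hw
      have hXw : X w = 0 := by
        have e1 : X w = -(X w) := by
          conv_lhs => rw [← hWs w hw, ← Module.End.mul_apply, hX.2.2]
          rfl
        have e2 : (2 : K) • X w = 0 := by
          rw [two_smul]
          nth_rewrite 1 [e1]
          exact neg_add_cancel _
        exact (smul_eq_zero.mp e2).resolve_left two_ne_zero
      have hgL : e + e' ∈ Lp L s := (Lp L s).add_mem G.F.e_mem G.F'.e_mem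
      have hgg : (e + e') * (e + e') = 0 := A2_pp hgL hgL
      have hgYg : (e + e') * Y * (e + e') ∈ Lp L s := by
        refine ⟨hl.sandwich hgL.1 hgg hY.1, ?_, ?_⟩
        · rw [← mul_assoc, ← mul_assoc, hgL.2.1]
        · rw [mul_assoc, hgL.2.2, mul_neg]
      have e3 : X * Y = (X * (f + f')) * (((e + e') * Y * (e + e')) * (f + f')) := by
        calc X * Y = (X * Q) * (Y * P) := by rw [eXQ X hX, eYP Y hY]
          _ = (X * ((f + f') * (e + e'))) * (Y * ((e + e') * (f + f'))) := by rw [hgj, hjg]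
          _ = _ := by noncomm_ring
      rw [LinearMap.sub_apply, Module.End.mul_apply Y X, hXw, map_zero, sub_zero, e3,
        Module.End.mul_apply]
      exact hst1 X hX _ (hst1 _ hgYg w hw)
    · intro w _; rw [LinearMap.zero_apply]; exact W.zero_mem
    · intro a b _ _ h1 h2 w hw
      rw [LinearMap.add_apply]
      exact W.add_mem (h1 w hw) (h2 w hw)
    · intro c a _ h1 w hw
      rw [LinearMap.smul_apply]
      exact W.smul_mem _ (h1 w hw)
  rw [hW] at huW
  obtain ⟨y, hy, hyu⟩ := huW
  have : y = ⟨u, hu⟩ := Subtype.ext hyu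
  rwa [← this]

end Pool.Agent.H86N
end

-- from Lib.H86N.CoreA
section

/-!
# The form-free dichotomy
-/

set_option autoImplicit false
set_option linter.unusedSectionVars false
namespace Pool.Agent.H86N
open Module Pool.Agent.H53Toric Pool.Agent.H49M

variable {K : Type*} [Field K] {V : Type*} [AddCommGroup V] [Module K V]
variable {L : Submodule K (Module.End K V)}

/-- The four cases of a frame in a simple irreducible Lie algebra: rank one; a rank one Jordan pair (central
binomial coefficient); the orthogonal case in rank two; the spin case. -/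
theorem coreN [CharZero K] [IsAlgClosed K] [FiniteDimensional K V] [Nontrivial V]
    (h : CoreN L) {s e f : Module.End K V} (F : Frame L s e f) :
    finrank K (LinearMap.range e) = 1 ∨
    ((∀ u ∈ J1 L s e f, u * f * u = 0) ∧ ∃ k : ℕ, 2 ≤ k ∧ finrank K V = k.centralBinom) ∨
    (∃ e' f' u : Module.End K V, Grid L s e f e' f' u ∧ finrank K (LinearMap.range e) = 2 ∧
      (∀ T : Module.End K V, e * f * T * (e * f) * (u * f') ∈ LL L (e * f) (e' * f')) ∧
      ∀ X ∈ L, u * f' * e' * X * f = e * f * X * (u * f) - LinearMap.trace K V (e * f * X * (u * f)) • (e * f)) ∨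
    (∃ e' f' u : Module.End K V, Grid L s e f e' f' u ∧
      ¬ (∀ T : Module.End K V, e * f * T * (e * f) * (u * f') ∈ LL L (e * f) (e' * f')) ∧
      (1 / 2 : K) • (1 + s) = e * f + e' * f' ∧ finrank K V = 4 * finrank K (LinearMap.range e) ∧
      ∃ m : ℕ, 3 ≤ m ∧ finrank K V = 2 ^ m) := by
  by_cases hr : finrank K (LinearMap.range e) = 1
  · exact Or.inl hr
  right
  by_cases ha : ∀ u ∈ J1 L s e f, u * f * u = 0
  · left
    rcases K5_final h F ha with h1 | ⟨k, hk, h1, h2⟩
    · exact absurd h1 hr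
    · exact ⟨ha, k, hk, h1⟩
  right
  push Not at ha
  obtain ⟨u, hu, hu0⟩ := ha
  obtain ⟨e', f', G⟩ := P1_grid h F hu hu0
  by_cases hall : ∀ T : Module.End K V, e * f * T * (e * f) * (u * f') ∈ LL L (e * f) (e' * f')
  · left
    rcases P6_two h G hall with h1 | ⟨h1, h2⟩
    · exact absurd h1 hr
    · exact ⟨e', f', u, G, h1, hall, h2⟩
  · right
    have h1 := (P5_dich h G).resolve_left hall
    have h4 := P8_four h G h1
    obtain ⟨t, ht⟩ := P8_pow h G h1
    have h5 := (K5_eig h G.F.s_mem G.F.s_sq).2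
    refine ⟨e', f', u, G, hall, h1, h4, t + 1, ?_, ?_⟩
    · have hpos : finrank K (LinearMap.range e) ≠ 0 := by
        intro h0
        exact F.e_ne (LinearMap.range_eq_bot.1 (Submodule.finrank_eq_zero.1 h0))
      by_contra hcon
      have : t ≤ 1 := by omega
      interval_cases t <;> omega
    · rw [h5, ht, pow_succ]; ring

end Pool.Agent.H86N
end

-- from Lib.H86N.KF
section

/-!
# KF: Kemmer systems with an odd number of generators in the middle degree have an invariant form
-/

set_option autoImplicit false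
set_option linter.unusedSectionVars false
namespace Pool.Agent.H86N
open Module Pool.Agent.H53Toric Pool.Agent.H49M

universe u

variable {K : Type*} [Field K] {V : Type u} [AddCommGroup V] [Module K V]

/-- A space of operators spanned by a set closed under brackets modulo its span is a Lie algebra. -/
theorem kf_lie_span {S : Set (Module.End K V)}
    (h : ∀ a ∈ S, ∀ b ∈ S, a * b - b * a ∈ Submodule.span K S) : IsLie (Submodule.span K S) := by
  have h1 : ∀ a ∈ S, ∀ Y ∈ Submodule.span K S, a * Y - Y * a ∈ Submodule.span K S := by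
    intro a ha Y hY
    refine Submodule.span_induction (p := fun Y _ => a * Y - Y * a ∈ Submodule.span K S)
      (fun b hb => h a ha b hb) (by simp) ?_ ?_ hY
    · intro y z _ _ h2 h3
      have e1 : a * (y + z) - (y + z) * a = (a * y - y * a) + (a * z - z * a) := by noncomm_ring
      rw [e1]
      exact add_mem h2 h3
    · intro c y _ h2
      have e1 : a * (c • y) - (c • y) * a = c • (a * y - y * a) := by
        rw [mul_smul_comm, smul_mul_assoc, smul_sub]
      rw [e1]
      exact Submodule.smul_mem _ _ h2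
  intro X hX Y hY
  refine Submodule.span_induction (p := fun X _ => X * Y - Y * X ∈ Submodule.span K S)
    (fun b hb => h1 b hb Y hY) (by simp) ?_ ?_ hX
  · intro y z _ _ h2 h3
    have e1 : (y + z) * Y - Y * (y + z) = (y * Y - Y * y) + (z * Y - Y * z) := by noncomm_ring
    rw [e1]
    exact add_mem h2 h3
  · intro c y _ h2
    have e1 : (c • y) * Y - Y * (c • y) = c • (y * Y - Y * y) := by
      rw [mul_smul_comm, smul_mul_assoc, smul_sub]
    rw [e1]
    exact Submodule.smul_mem _ _ h2

/-- The generators of the Lie algebra of a Kemmer system. -/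
def kgen (s : Module.End K V) {n : ℕ} (x y : Fin n → Module.End K V) : Set (Module.End K V) :=
  {T | T = s ∨ (∃ i, T = x i) ∨ (∃ i, T = y i) ∨ ∃ i j, T = x i * y j - y j * x i}

/-- The Lie algebra of a Kemmer system. -/
def kL (s : Module.End K V) {n : ℕ} (x y : Fin n → Module.End K V) : Submodule K (Module.End K V) :=
  Submodule.span K (kgen s x y)

section sys
variable {s : Module.End K V} {n : ℕ} {x y : Fin n → Module.End K V}

theorem kL_s : s ∈ kL s x y := Submodule.subset_span (Or.inl rfl)
theorem kL_x (i : Fin n) : x i ∈ kL s x y := Submodule.subset_span (Or.inr (Or.inl ⟨i, rfl⟩))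
theorem kL_y (i : Fin n) : y i ∈ kL s x y := Submodule.subset_span (Or.inr (Or.inr (Or.inl ⟨i, rfl⟩)))
theorem kL_xy (i j : Fin n) : x i * y j - y j * x i ∈ kL s x y :=
  Submodule.subset_span (Or.inr (Or.inr (Or.inr ⟨i, j, rfl⟩)))

theorem kL_lie [CharZero K] (h : Kemmer s x y) : IsLie (kL s x y) := by
  have xx := K4a_xx h
  have yy := K4a_yy h
  have bsx : ∀ i, s * x i - x i * s = (2 : K) • x i := by
    intro i
    rw [h.sx, h.xs, two_smul]; abel
  have bsy : ∀ i, s * y i - y i * s = (-2 : K) • y i := by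
    intro i
    rw [h.sy, h.ys, neg_smul, two_smul]; abel
  have bsxy : ∀ i j, s * (x i * y j - y j * x i) - (x i * y j - y j * x i) * s = 0 := by
    intro i j
    have e1 : s * (x i * y j - y j * x i) - (x i * y j - y j * x i) * s =
        (s * x i) * y j - (s * y j) * x i - x i * (y j * s) + y j * (x i * s) := by noncomm_ring
    rw [e1, h.sx, h.sy, h.ys, h.xs]
    noncomm_ring
  have bxyx : ∀ i j k, (x i * y j - y j * x i) * x k - x k * (x i * y j - y j * x i) =
      (if i = j then x k else 0) + (if k = j then x i else 0) := by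
    intro i j k
    have e1 : (x i * y j - y j * x i) * x k - x k * (x i * y j - y j * x i) =
        (x i * y j * x k + x k * y j * x i) - y j * (x i * x k) - (x k * x i) * y j := by noncomm_ring
    rw [e1, h.r1, xx, xx]
    simp
  have bxyy : ∀ i j k, (x i * y j - y j * x i) * y k - y k * (x i * y j - y j * x i) =
      -((if j = i then y k else 0) + (if k = i then y j else 0)) := by
    intro i j k
    have e1 : (x i * y j - y j * x i) * y k - y k * (x i * y j - y j * x i) =
        -(y j * x i * y k + y k * x i * y j) + x i * (y j * y k) + (y k * y j) * x i := by noncomm_ring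
    rw [e1, h.r2, yy, yy]
    simp
  have hx : ∀ i, x i ∈ kL s x y := kL_x
  have hy : ∀ i, y i ∈ kL s x y := kL_y
  have hxy : ∀ i j, x i * y j - y j * x i ∈ kL s x y := kL_xy
  have mxyx : ∀ i j k, (x i * y j - y j * x i) * x k - x k * (x i * y j - y j * x i) ∈ kL s x y := by
    intro i j k
    rw [bxyx]
    apply add_mem
    · split_ifs
      · exact hx k
      · exact zero_mem _
    · split_ifs
      · exact hx i
      · exact zero_mem _
  have mxyy : ∀ i j k, (x i * y j - y j * x i) * y k - y k * (x i * y j - y j * x i) ∈ kL s x y := by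
    intro i j k
    rw [bxyy]
    apply neg_mem
    apply add_mem
    · split_ifs
      · exact hy k
      · exact zero_mem _
    · split_ifs
      · exact hy j
      · exact zero_mem _
  have hneg : ∀ a b : Module.End K V, a * b - b * a ∈ kL s x y → b * a - a * b ∈ kL s x y := by
    intro a b hab
    have := neg_mem hab
    rwa [neg_sub] at this
  have hzero : (0 : Module.End K V) ∈ kL s x y := zero_mem _
  apply kf_lie_span
  rintro a (rfl | ⟨i, rfl⟩ | ⟨i, rfl⟩ | ⟨i, j, rfl⟩) b (rfl | ⟨k, rfl⟩ | ⟨k, rfl⟩ | ⟨k, l, rfl⟩)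
  · rw [sub_self]; exact hzero
  · rw [bsx]; exact Submodule.smul_mem _ _ (hx k)
  · rw [bsy]; exact Submodule.smul_mem _ _ (hy k)
  · rw [bsxy]; exact hzero
  · apply hneg
    rw [bsx]; exact Submodule.smul_mem _ _ (hx i)
  · rw [xx, xx, sub_self]; exact hzero
  · exact hxy i k
  · exact hneg _ _ (mxyx k l i)
  · apply hneg
    rw [bsy]; exact Submodule.smul_mem _ _ (hy i)
  · exact hneg _ _ (hxy k i)
  · rw [yy, yy, sub_self]; exact hzero
  · exact hneg _ _ (mxyy k l i)
  · apply hneg
    rw [bsxy]; exact hzero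
  · exact mxyx i j k
  · exact mxyy i j k
  · -- Jacobi
    obtain ⟨T, hT⟩ : ∃ T, T = x i * y j - y j * x i := ⟨_, rfl⟩
    have e1 : T * (x k * y l - y l * x k) - (x k * y l - y l * x k) * T =
        ((T * x k - x k * T) * y l - y l * (T * x k - x k * T)) +
        (x k * (T * y l - y l * T) - (T * y l - y l * T) * x k) := by noncomm_ring
    rw [← hT, e1, hT, bxyx, bxyy]
    have f1 : ∀ (a b : Module.End K V) (c d : Prop) [Decidable c] [Decidable d] (z : Module.End K V),
        (((if c then a else 0) + (if d then b else 0)) * z - z * ((if c then a else 0) + (if d then b else 0))) =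
        (if c then a * z - z * a else 0) + (if d then b * z - z * b else 0) := by
      intro a b c d _ _ z
      split_ifs <;> noncomm_ring
    have f2 : ∀ (a b : Module.End K V) (c d : Prop) [Decidable c] [Decidable d] (z : Module.End K V),
        (z * (-((if c then a else 0) + (if d then b else 0))) - (-((if c then a else 0) + (if d then b else 0))) * z) =
        -((if c then z * a - a * z else 0) + (if d then z * b - b * z else 0)) := by
      intro a b c d _ _ z
      split_ifs <;> noncomm_ring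
    rw [f1, f2]
    apply add_mem
    · apply add_mem
      · split_ifs
        · exact hxy k l
        · exact hzero
      · split_ifs
        · exact hxy i l
        · exact hzero
    · apply neg_mem
      apply add_mem
      · split_ifs
        · exact hxy k l
        · exact hzero
      · split_ifs
        · exact hxy k j
        · exact hzero

theorem kL_irr (h : Kemmer s x y) : Irr (kL s x y) := by
  intro W hW
  exact h.irr W (fun i w hw => hW _ (kL_x i) w hw) (fun i w hw => hW _ (kL_y i) w hw)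
    (fun w hw => hW _ kL_s w hw)

end sys

end Pool.Agent.H86N
end

-- from Lib.H86N.KF2
section

/-!
# KF2: reduction of a Kemmer system to the corner of the first pair
-/

set_option autoImplicit false
set_option linter.unusedSectionVars false
namespace Pool.Agent.H86N
open Module Pool.Agent.H53Toric Pool.Agent.H49M

universe u

variable {K : Type*} [Field K] {V : Type u} [AddCommGroup V] [Module K V]
variable {s : Module.End K V} {n : ℕ} {x y : Fin (n + 2) → Module.End K V}

/-- The index of a generator of the reduced system. -/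
def kj (i : Fin n) : Fin (n + 2) := i.succ.succ

theorem kj_zero (i : Fin n) : kj i ≠ 0 := Fin.succ_ne_zero _
theorem kj_one (i : Fin n) : kj i ≠ 1 := by
  intro h
  have h1 : i.succ.succ = (0 : Fin (n + 1)).succ := h
  exact Fin.succ_ne_zero i (Fin.succ_injective _ h1)
theorem kj_inj (i j : Fin n) : kj i = kj j ↔ i = j := by
  unfold kj
  rw [Fin.succ_inj, Fin.succ_inj]
theorem one_ne_zero' : (1 : Fin (n + 2)) ≠ 0 := by
  intro h
  have h1 : (0 : Fin (n + 1)).succ = 0 := h
  exact Fin.succ_ne_zero _ h1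

theorem kj_cases (P : Fin (n + 2) → Prop) (h0 : P 0) (h1 : P 1) (h2 : ∀ i : Fin n, P (kj i)) (i : Fin (n + 2)) : P i := by
  refine Fin.cases h0 (fun i => ?_) i
  refine Fin.cases h1 (fun i => ?_) i
  exact h2 i

/-- `x i y j` preserves the corner. -/
theorem kf_A [CharZero K] (h : Kemmer s x y) {j : Fin (n + 2)} (hj : j ≠ 0) (i : Fin (n + 2)) (hi : i ≠ 0) :
    x 0 * y 0 * (x i * y j * (x 0 * y 0)) = x i * y j * (x 0 * y 0) := by
  have h1 : x i * y j * x 0 = (if i = j then x 0 else 0) - x 0 * y j * x i := by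
    have h2 := h.r1 i j 0
    rw [if_neg (Ne.symm hj), add_zero] at h2
    exact eq_sub_of_add_eq h2
  have h3 : x 0 * y 0 * (x i * y j * x 0) = x i * y j * x 0 := by
    rw [h1, mul_sub, ← mul_assoc, ← mul_assoc, K4a_xyx h]
    congr 1
    split_ifs
    · exact K4a_xyx h 0
    · rw [mul_zero]
  calc x 0 * y 0 * (x i * y j * (x 0 * y 0)) = x 0 * y 0 * (x i * y j * x 0) * y 0 := by noncomm_ring
    _ = x i * y j * x 0 * y 0 := by rw [h3]
    _ = _ := by noncomm_ring

theorem kf_mem [CharZero K] (h : Kemmer s x y) {j : Fin (n + 2)} (hj : j ≠ 0) (i : Fin (n + 2)) (hi : i ≠ 0)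
    (v : V) (hv : v ∈ LinearMap.range (x 0 * y 0)) : (x i * y j) v ∈ LinearMap.range (x 0 * y 0) := by
  obtain ⟨w, rfl⟩ := hv
  exact ⟨x i (y j (x 0 (y 0 w))), LinearMap.congr_fun (kf_A h hj i hi) w⟩

/-- The reduced operators on the whole space. -/
theorem kf_r1 [CharZero K] (h : Kemmer s x y) (i j k : Fin n) :
    (x (kj i) * y 1) * (x 1 * y (kj j)) * (x (kj k) * y 1) + (x (kj k) * y 1) * (x 1 * y (kj j)) * (x (kj i) * y 1) =
      (if i = j then x (kj k) * y 1 else 0) + (if k = j then x (kj i) * y 1 else 0) := by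
  have key : ∀ i j k : Fin n, (x (kj i) * y 1) * (x 1 * y (kj j)) * (x (kj k) * y 1) =
      x (kj i) * y (kj j) * x (kj k) * y 1 := by
    intro i j k
    have h1 := K4a_ne2 h (Ne.symm (kj_one j))
    have h2 : y 1 * x (kj k) * y 1 = 0 := K4a_zero (K4a_swap h) (Ne.symm (kj_one k))
    calc (x (kj i) * y 1) * (x 1 * y (kj j)) * (x (kj k) * y 1) =
          x (kj i) * (y 1 * x 1 * y (kj j)) * (x (kj k) * y 1) := by noncomm_ring
      _ = x (kj i) * (y 1 * x 1 * y (kj j) + y (kj j) * x 1 * y 1) * (x (kj k) * y 1) -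
          x (kj i) * y (kj j) * x 1 * (y 1 * x (kj k) * y 1) := by noncomm_ring
      _ = _ := by rw [h1, h2]; noncomm_ring
  rw [key, key]
  have h1 := h.r1 (kj i) (kj j) (kj k)
  simp only [kj_inj] at h1
  calc x (kj i) * y (kj j) * x (kj k) * y 1 + x (kj k) * y (kj j) * x (kj i) * y 1 =
        (x (kj i) * y (kj j) * x (kj k) + x (kj k) * y (kj j) * x (kj i)) * y 1 := by noncomm_ring
    _ = _ := by
        rw [h1, add_mul]
        split_ifs <;> simp

theorem kf_xyx1 [CharZero K] (h : Kemmer s x y) (j k : Fin n) :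
    (x (kj j) * y 1) * (x 1 * y (kj k)) = x (kj j) * y (kj k) - x 1 * y 1 * x (kj j) * y (kj k) := by
  have h1 := K4a_ne1 h (Ne.symm (kj_one j))
  calc (x (kj j) * y 1) * (x 1 * y (kj k)) = (x 1 * y 1 * x (kj j) + x (kj j) * y 1 * x 1) * y (kj k) -
        x 1 * y 1 * x (kj j) * y (kj k) := by noncomm_ring
    _ = _ := by rw [h1]

theorem kf_r2 [CharZero K] (h : Kemmer s x y) (i j k : Fin n) :
    (x 1 * y (kj i)) * (x (kj j) * y 1) * (x 1 * y (kj k)) + (x 1 * y (kj k)) * (x (kj j) * y 1) * (x 1 * y (kj i)) =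
      (if i = j then x 1 * y (kj k) else 0) + (if k = j then x 1 * y (kj i) else 0) := by
  have key : ∀ i j k : Fin n, (x 1 * y (kj i)) * (x (kj j) * y 1) * (x 1 * y (kj k)) =
      x 1 * (y (kj i) * x (kj j) * y (kj k)) := by
    intro i j k
    have h2 : x 1 * y (kj i) * x 1 = 0 := K4a_zero h (Ne.symm (kj_one i))
    calc (x 1 * y (kj i)) * (x (kj j) * y 1) * (x 1 * y (kj k)) =
          x 1 * y (kj i) * ((x (kj j) * y 1) * (x 1 * y (kj k))) := by noncomm_ring
      _ = x 1 * (y (kj i) * x (kj j) * y (kj k)) - (x 1 * y (kj i) * x 1) * y 1 * x (kj j) * y (kj k) := by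
          rw [kf_xyx1 h]; noncomm_ring
      _ = _ := by rw [h2]; simp
  rw [key, key, ← mul_add]
  have h1 := h.r2 (kj i) (kj j) (kj k)
  simp only [kj_inj] at h1
  rw [h1, mul_add]
  split_ifs <;> simp

/-- The bracket of the reduced generators. -/
theorem kf_br [CharZero K] (h : Kemmer s x y) (i j : Fin n) :
    (x (kj i) * y 1) * (x 1 * y (kj j)) - (x 1 * y (kj j)) * (x (kj i) * y 1) =
      x (kj i) * y (kj j) - (if i = j then x 1 * y 1 else 0) := by
  have h1 := h.r2 (kj j) (kj i) 1
  rw [if_neg (Ne.symm (kj_one i)), add_zero] at h1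
  simp only [kj_inj] at h1
  have h2 : (x 1 * y (kj j)) * (x (kj i) * y 1) = (if i = j then x 1 * y 1 else 0) - x 1 * y 1 * x (kj i) * y (kj j) := by
    calc (x 1 * y (kj j)) * (x (kj i) * y 1) = x 1 * (y (kj j) * x (kj i) * y 1 + y 1 * x (kj i) * y (kj j)) -
          x 1 * y 1 * x (kj i) * y (kj j) := by noncomm_ring
      _ = _ := by
          rw [h1]
          congr 1
          by_cases hij : i = j
          · rw [if_pos hij, if_pos hij.symm]
          · rw [if_neg hij, if_neg (Ne.symm hij), mul_zero]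
  rw [kf_xyx1 h, h2]
  abel

section red
variable [CharZero K] (h : Kemmer s x y)
include h

/-- The restriction of `x i y j` to the corner. -/
noncomputable def kR (i j : Fin (n + 2)) (hi : i ≠ 0) (hj : j ≠ 0) :
    Module.End K (LinearMap.range (x 0 * y 0)) :=
  LinearMap.restrict (x i * y j) (kf_mem h hj i hi)

theorem kR_coe (i j : Fin (n + 2)) (hi : i ≠ 0) (hj : j ≠ 0) (v : LinearMap.range (x 0 * y 0)) :
    ((kR h i j hi hj v : LinearMap.range (x 0 * y 0)) : V) = x i (y j v) := rfl

/-- The reduced system. -/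
noncomputable def kx (i : Fin n) : Module.End K (LinearMap.range (x 0 * y 0)) :=
  -kR h (kj i) 1 (kj_zero i) one_ne_zero'
noncomputable def ky (i : Fin n) : Module.End K (LinearMap.range (x 0 * y 0)) :=
  -kR h 1 (kj i) one_ne_zero' (kj_zero i)
noncomputable def ks : Module.End K (LinearMap.range (x 0 * y 0)) :=
  1 - (2 : K) • kR h 1 1 one_ne_zero' one_ne_zero'

theorem kx_coe (i : Fin n) (v : LinearMap.range (x 0 * y 0)) :
    ((kx h i v : LinearMap.range (x 0 * y 0)) : V) = -(x (kj i) (y 1 v)) := rfl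
theorem ky_coe (i : Fin n) (v : LinearMap.range (x 0 * y 0)) :
    ((ky h i v : LinearMap.range (x 0 * y 0)) : V) = -(x 1 (y (kj i) v)) := rfl
theorem ks_coe (v : LinearMap.range (x 0 * y 0)) :
    ((ks h v : LinearMap.range (x 0 * y 0)) : V) = v - (2 : K) • x 1 (y 1 v) := rfl

theorem kU_fix (v : LinearMap.range (x 0 * y 0)) : x 0 (y 0 (v : V)) = v := by
  obtain ⟨_, ⟨w, rfl⟩⟩ := v
  show x 0 (y 0 (x 0 (y 0 w))) = x 0 (y 0 w)
  exact LinearMap.congr_fun (K4a_xyx h 0) (y 0 w)

theorem kU_x (i : Fin (n + 2)) (v : LinearMap.range (x 0 * y 0)) : x i (v : V) = 0 := by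
  rw [← kU_fix h v]
  exact LinearMap.congr_fun (K4a_xx h i 0) (y 0 v)

theorem kU_s (v : LinearMap.range (x 0 * y 0)) : s (v : V) = v := by
  rw [← kU_fix h v]
  exact LinearMap.congr_fun (h.sx 0) (y 0 v)

/-- The corner of an operator of the Lie algebra. -/
theorem kf_corner (W : Submodule K (LinearMap.range (x 0 * y 0)))
    (h1 : ∀ i, ∀ w ∈ W, kx h i w ∈ W) (h2 : ∀ i, ∀ w ∈ W, ky h i w ∈ W) (h3 : ∀ w ∈ W, ks h w ∈ W)
    {C : Module.End K V} (hC : C ∈ kL s x y) (w : LinearMap.range (x 0 * y 0)) (hw : w ∈ W) :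
    (x 0 * y 0) (C w) ∈ W.map (LinearMap.range (x 0 * y 0)).subtype := by
  have hp : ∀ w : LinearMap.range (x 0 * y 0), w ∈ W → (w : V) ∈ W.map (LinearMap.range (x 0 * y 0)).subtype :=
    fun w hw => ⟨w, hw, rfl⟩
  have hx0 : ∀ v, x 0 (x 0 v) = 0 := fun v => LinearMap.congr_fun (K4a_xx h 0 0) v
  refine Submodule.span_induction (p := fun C _ => (x 0 * y 0) (C w) ∈ W.map (LinearMap.range (x 0 * y 0)).subtype)
    ?_ ?_ ?_ ?_ hC
  · rintro C (rfl | ⟨i, rfl⟩ | ⟨i, rfl⟩ | ⟨i, j, rfl⟩)
    · rw [kU_s h, Module.End.mul_apply, kU_fix h]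
      exact hp w hw
    · rw [kU_x h, map_zero]
      exact zero_mem _
    · have h4 : y 0 (y i w) = 0 := LinearMap.congr_fun (K4a_yy h 0 i) w
      rw [Module.End.mul_apply, h4, map_zero]
      exact zero_mem _
    · rw [LinearMap.sub_apply, Module.End.mul_apply (y j), kU_x h, map_zero, sub_zero]
      by_cases hj : j = 0
      · subst hj
        by_cases hi : i = 0
        · subst hi
          rw [Module.End.mul_apply, Module.End.mul_apply, kU_fix h, kU_fix h]
          exact hp w hw
        · have h4 : y 0 (x i (y 0 w)) = 0 := LinearMap.congr_fun (K4a_zero (K4a_swap h) (Ne.symm hi)) w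
          rw [Module.End.mul_apply, Module.End.mul_apply, h4, map_zero]
          exact zero_mem _
      · by_cases hi : i = 0
        · subst hi
          have h4 : x 0 (y j w) = 0 := by
            rw [← kU_fix h w]
            exact LinearMap.congr_fun (K4a_zero h (Ne.symm hj)) (y 0 w)
          rw [Module.End.mul_apply (x 0) (y j), h4, map_zero]
          exact zero_mem _
        · have h5 : (x 0 * y 0) ((x i * y j) w) = ((kR h i j hi hj w : LinearMap.range (x 0 * y 0)) : V) := by
            have h6 := kU_fix h (kR h i j hi hj w)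
            rw [kR_coe] at h6 ⊢
            exact h6
          rw [h5]
          have m11 : kR h 1 1 one_ne_zero' one_ne_zero' w ∈ W := by
            have h6 : kR h 1 1 one_ne_zero' one_ne_zero' w = (1 / 2 : K) • (w - ks h w) := by
              apply Subtype.ext
              rw [Submodule.coe_smul, Submodule.coe_sub, ks_coe, kR_coe]
              module
            rw [h6]
            exact W.smul_mem _ (W.sub_mem hw (h3 w hw))
          have hmain : ∀ (i j : Fin (n + 2)) (hi : i ≠ 0) (hj : j ≠ 0), kR h i j hi hj w ∈ W := by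
            intro i
            refine kj_cases (n := n) (fun i => ∀ (j : Fin (n + 2)) (hi : i ≠ 0) (hj : j ≠ 0), kR h i j hi hj w ∈ W)
              ?_ ?_ ?_ i
            · intro j hi; exact absurd rfl hi
            · intro j
              refine kj_cases (n := n) (fun j => ∀ (hi : (1 : Fin (n + 2)) ≠ 0) (hj : j ≠ 0), kR h 1 j hi hj w ∈ W)
                ?_ ?_ ?_ j
              · intro _ hj; exact absurd rfl hj
              · intro _ _; exact m11
              · intro j' hi hj
                have h6 : kR h 1 (kj j') hi hj w = -(ky h j' w) := by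
                  apply Subtype.ext
                  rw [kR_coe, Submodule.coe_neg, ky_coe, neg_neg]
                rw [h6]
                exact W.neg_mem (h2 j' w hw)
            · intro i' j
              refine kj_cases (n := n) (fun j => ∀ (hi : kj i' ≠ 0) (hj : j ≠ 0), kR h (kj i') j hi hj w ∈ W)
                ?_ ?_ ?_ j
              · intro _ hj; exact absurd rfl hj
              · intro hi hj
                have h6 : kR h (kj i') 1 hi hj w = -(kx h i' w) := by
                  apply Subtype.ext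
                  rw [kR_coe, Submodule.coe_neg, kx_coe, neg_neg]
                rw [h6]
                exact W.neg_mem (h1 i' w hw)
              · intro j' hi hj
                have h6 : kR h (kj i') (kj j') hi hj w = kx h i' (ky h j' w) - ky h j' (kx h i' w) +
                    (if i' = j' then (1 : K) else 0) • kR h 1 1 one_ne_zero' one_ne_zero' w := by
                  apply Subtype.ext
                  rw [Submodule.coe_add, Submodule.coe_sub, Submodule.coe_smul, kx_coe, ky_coe, ky_coe, kx_coe,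
                    kR_coe, kR_coe]
                  have h7 := LinearMap.congr_fun (kf_br h i' j') (w : V)
                  simp only [LinearMap.sub_apply, Module.End.mul_apply] at h7
                  simp only [map_neg, neg_neg]
                  rw [h7]
                  split_ifs
                  · rw [one_smul, Module.End.mul_apply]; abel
                  · simp
                rw [h6]
                exact W.add_mem (W.sub_mem (h1 _ _ (h2 _ w hw)) (h2 _ _ (h1 _ w hw))) (W.smul_mem _ m11)
          exact hp _ (hmain i j hi hj)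
  · rw [LinearMap.zero_apply, map_zero]
    exact zero_mem _
  · intro a b _ _ h4 h5
    rw [LinearMap.add_apply, map_add]
    exact add_mem h4 h5
  · intro c a _ h4
    rw [LinearMap.smul_apply, map_smul]
    exact Submodule.smul_mem _ _ h4

/-- The reduced system is a Kemmer system. -/
theorem kf_red (hx : x 0 ≠ 0) : Kemmer (ks h) (kx h) (ky h) where
  s_sq := by
    ext v
    rw [Module.End.mul_apply, ks_coe, ks_coe, Module.End.one_apply]
    have h1 : x 1 (y 1 (x 1 (y 1 (v : V)))) = x 1 (y 1 v) := LinearMap.congr_fun (K4a_xyx h 1) (y 1 v)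
    simp only [map_sub, map_smul, h1]
    module
  sx := fun i => by
    ext v
    rw [Module.End.mul_apply, ks_coe, kx_coe]
    have h1 : y 1 (x (kj i) (y 1 (v : V))) = 0 :=
      LinearMap.congr_fun (K4a_zero (K4a_swap h) (Ne.symm (kj_one i))) (v : V)
    simp only [map_neg, h1, map_zero, neg_zero, smul_zero, sub_zero]
  xs := fun i => by
    ext v
    rw [Module.End.mul_apply, kx_coe, ks_coe, LinearMap.neg_apply, Submodule.coe_neg, kx_coe]
    have h1 : y 1 (x 1 (y 1 (v : V))) = y 1 v := LinearMap.congr_fun (K4a_yxy h 1) (v : V)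
    simp only [map_sub, map_smul, h1]
    module
  sy := fun i => by
    ext v
    rw [Module.End.mul_apply, ks_coe, ky_coe, LinearMap.neg_apply, Submodule.coe_neg, ky_coe]
    have h1 : x 1 (y 1 (x 1 (y (kj i) (v : V)))) = x 1 (y (kj i) v) :=
      LinearMap.congr_fun (K4a_xyx h 1) (y (kj i) v)
    simp only [map_neg, h1]
    module
  ys := fun i => by
    ext v
    rw [Module.End.mul_apply, ky_coe, ks_coe, ky_coe]
    have h1 : x 1 (y (kj i) (x 1 (y 1 (v : V)))) = 0 :=
      LinearMap.congr_fun (K4a_zero h (Ne.symm (kj_one i))) (y 1 v)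
    simp only [map_sub, map_smul, h1, smul_zero, sub_zero]
  r1 := fun i j k => by
    ext v
    have h1 := LinearMap.congr_fun (kf_r1 h i j k) (v : V)
    have e1 : ((((kx h i * ky h j * kx h k + kx h k * ky h j * kx h i) v : LinearMap.range (x 0 * y 0))) : V) =
        -(((x (kj i) * y 1) * (x 1 * y (kj j)) * (x (kj k) * y 1) +
          (x (kj k) * y 1) * (x 1 * y (kj j)) * (x (kj i) * y 1)) (v : V)) := by
      simp only [LinearMap.add_apply, Module.End.mul_apply, Submodule.coe_add, kx_coe, ky_coe, map_neg, neg_neg]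
      abel
    rw [e1, h1]
    have e2 : ∀ (c : Prop) [Decidable c] (a : Fin n), (((if c then kx h a else 0 : Module.End K (LinearMap.range (x 0 * y 0))) v :
        LinearMap.range (x 0 * y 0)) : V) = -((if c then x (kj a) * y 1 else 0 : Module.End K V) (v : V)) := by
      intro c _ a
      split_ifs
      · rfl
      · simp
    rw [LinearMap.add_apply, LinearMap.add_apply, Submodule.coe_add, e2, e2]
    abel
  r2 := fun i j k => by
    ext v
    have h1 := LinearMap.congr_fun (kf_r2 h i j k) (v : V)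
    have e1 : ((((ky h i * kx h j * ky h k + ky h k * kx h j * ky h i) v : LinearMap.range (x 0 * y 0))) : V) =
        -(((x 1 * y (kj i)) * (x (kj j) * y 1) * (x 1 * y (kj k)) +
          (x 1 * y (kj k)) * (x (kj j) * y 1) * (x 1 * y (kj i))) (v : V)) := by
      simp only [LinearMap.add_apply, Module.End.mul_apply, Submodule.coe_add, kx_coe, ky_coe, map_neg, neg_neg]
      abel
    rw [e1, h1]
    have e2 : ∀ (c : Prop) [Decidable c] (a : Fin n), (((if c then ky h a else 0 : Module.End K (LinearMap.range (x 0 * y 0))) v :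
        LinearMap.range (x 0 * y 0)) : V) = -((if c then x 1 * y (kj a) else 0 : Module.End K V) (v : V)) := by
      intro c _ a
      split_ifs
      · rfl
      · simp
    rw [LinearMap.add_apply, LinearMap.add_apply, Submodule.coe_add, e2, e2]
    abel
  irr := fun W h1 h2 h3 => by
    by_cases hW : W = ⊥
    · exact Or.inl hW
    right
    rw [eq_top_iff]
    rintro v -
    have hl := kL_lie h
    have hH : x 0 * y 0 - y 0 * x 0 ∈ kL s x y := kL_xy 0 0
    have h5 := P4_irr_aux hl (kL_irr h) (E := x 0 * y 0)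
      (fun z hz => by
        obtain ⟨w, hw, w1, -, w3, -⟩ := G1_low' hl (K4a_xx h 0 0) (K4a_yy h 0 0) (K4a_xyx h 0) (K4a_yxy h 0) hH hz
        exact ⟨w, hw, w1, w3⟩)
      (U := W.map (LinearMap.range (x 0 * y 0)).subtype)
      (by
        rintro _ ⟨w, -, rfl⟩
        exact kU_fix h w)
      (by
        intro h0
        apply hW
        rw [eq_bot_iff]
        intro w hw
        have h4 : (w : V) ∈ W.map (LinearMap.range (x 0 * y 0)).subtype := ⟨w, hw, rfl⟩
        rw [h0, Submodule.mem_bot] at h4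
        exact Subtype.ext h4)
      (by
        rintro C hC _ ⟨w, hw, rfl⟩
        exact kf_corner h W h1 h2 h3 hC w hw) (v : V)
    obtain ⟨w, hw, hwv⟩ := h5
    have h6 : w = v := by
      apply Subtype.ext
      have h7 : (w : V) = (x 0 * y 0) (v : V) := hwv
      rw [h7, Module.End.mul_apply, kU_fix h]
    rw [← h6]
    exact hw

/-- The counting operator of the reduced system. -/
theorem kf_cnt {c : K} (hc : ∀ v, cnt s x y v = c • v) (v : LinearMap.range (x 0 * y 0)) :
    cnt (ks h) (kx h) (ky h) v = (c - 1) • v := by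
  apply Subtype.ext
  have h1 := hc (v : V)
  rw [cnt, LinearMap.add_apply, LinearMap.sum_apply, Fin.sum_univ_succ, Fin.sum_univ_succ] at h1
  have hQ : ((1 / 2 : K) • (1 - s)) (v : V) = 0 := by
    rw [LinearMap.smul_apply, LinearMap.sub_apply, Module.End.one_apply, kU_s h, sub_self, smul_zero]
  have hi : ∀ i : Fin (n + 2), (x i * y i + (1 / 2 : K) • (1 - s) - y i * x i) (v : V) = x i (y i v) := by
    intro i
    rw [LinearMap.sub_apply, LinearMap.add_apply, hQ, Module.End.mul_apply, Module.End.mul_apply, kU_x h, map_zero]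
    simp
  simp only [hi] at h1
  rw [hQ, kU_fix h, zero_add] at h1
  rw [cnt, LinearMap.add_apply, LinearMap.sum_apply, Submodule.coe_add, AddSubmonoidClass.coe_finsetSum]
  have hQ' : ((((1 / 2 : K) • (1 - ks h)) v : LinearMap.range (x 0 * y 0)) : V) = x 1 (y 1 v) := by
    rw [LinearMap.smul_apply, LinearMap.sub_apply, Module.End.one_apply, Submodule.coe_smul, Submodule.coe_sub, ks_coe]
    module
  have hi' : ∀ i : Fin n, (((kx h i * ky h i + (1 / 2 : K) • (1 - ks h) - ky h i * kx h i) v :
      LinearMap.range (x 0 * y 0)) : V) = x (kj i) (y (kj i) v) := by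
    intro i
    rw [LinearMap.sub_apply, LinearMap.add_apply, Submodule.coe_sub, Submodule.coe_add, hQ', Module.End.mul_apply,
      Module.End.mul_apply, kx_coe, ky_coe, ky_coe, kx_coe]
    have h7 := LinearMap.congr_fun (kf_br h i i) (v : V)
    rw [if_pos rfl] at h7
    simp only [LinearMap.sub_apply, Module.End.mul_apply] at h7
    simp only [map_neg, neg_neg]
    have h8 : x (kj i) (y 1 (x 1 (y (kj i) (v : V)))) = x (kj i) (y (kj i) v) - x 1 (y 1 v) +
        x 1 (y (kj i) (x (kj i) (y 1 v))) := by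
      rw [← h7]; abel
    rw [h8]
    abel
  simp only [hi']
  rw [hQ', Submodule.coe_smul, sub_smul, one_smul, ← h1]
  have e0 : (Fin.succ (0 : Fin (n + 1))) = (1 : Fin (n + 2)) := rfl
  rw [e0]
  have e1 : ∀ i : Fin n, i.succ.succ = kj i := fun i => rfl
  simp only [e1]
  abel

end red

end Pool.Agent.H86N
end

-- from Lib.H86N.KF3
section

/-!
# KF3: the invariant form of a Kemmer system in the middle degree
-/

set_option autoImplicit false
set_option linter.unusedSectionVars false
namespace Pool.Agent.H86N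
open Module Pool.Agent.H53Toric Pool.Agent.H49M

universe u

variable {K : Type*} [Field K] {V : Type u} [AddCommGroup V] [Module K V]

section gen
variable {s : Module.End K V} {n : ℕ} {x y : Fin (n + 1) → Module.End K V}

/-- The form on the whole space from a form on the corner. -/
theorem kf_form [CharZero K] [FiniteDimensional K V] (h : Kemmer s x y) (hx : x 0 ≠ 0)
    (κ : LinearMap.range (x 0 * y 0) →ₗ[K] LinearMap.range (x 0 * y 0) →ₗ[K] K) (hκ0 : κ ≠ 0)
    (hκ : ∀ X ∈ kgen s x y, ∀ v w : LinearMap.range (x 0 * y 0),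
      κ ((x 0 * y 0).rangeRestrict (X v)) w + κ v ((x 0 * y 0).rangeRestrict (x 0 (X (y 0 w)))) = 0) :
    ∃ B : V →ₗ[K] V →ₗ[K] K, B ≠ 0 ∧ ∀ X ∈ kL s x y, ∀ v w, B (X v) w + B v (X w) = 0 := by
  let ρ : V →ₗ[K] LinearMap.range (x 0 * y 0) := (x 0 * y 0).rangeRestrict
  have hρ : ∀ v, ((ρ v : LinearMap.range (x 0 * y 0)) : V) = x 0 (y 0 v) := fun v => rfl
  have xyx : ∀ v, x 0 (y 0 (x 0 v)) = x 0 v := fun v => LinearMap.congr_fun (K4a_xyx h 0) v
  have hρe : ∀ v, ((ρ (x 0 v) : LinearMap.range (x 0 * y 0)) : V) = x 0 v := by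
    intro v
    rw [hρ, xyx]
  have hκ' : ∀ X ∈ kL s x y, ∀ v w : LinearMap.range (x 0 * y 0), κ (ρ (X v)) w + κ v (ρ (x 0 (X (y 0 w)))) = 0 := by
    intro X hX v w
    refine Submodule.span_induction (p := fun X _ => κ (ρ (X v)) w + κ v (ρ (x 0 (X (y 0 w)))) = 0)
      (fun X hX => hκ X hX v w) (by simp) ?_ ?_ hX
    · intro a b _ _ h1 h2
      simp only [LinearMap.add_apply, map_add]
      linear_combination h1 + h2
    · intro c a _ h1
      simp only [LinearMap.smul_apply, map_smul, smul_eq_mul]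
      linear_combination c * h1
  let β : V →ₗ[K] V →ₗ[K] K := κ.compl₁₂ ρ (ρ ∘ₗ x 0)
  have hβ : ∀ v w, β v w = κ (ρ v) (ρ (x 0 w)) := fun v w => rfl
  obtain ⟨B, hB1, hB2⟩ := exists_form' (kL_lie h) (kL_irr h) hx (K4a_xx h 0 0) (K4a_yy h 0 0) (K4a_xyx h 0)
    (K4a_yxy h 0) (kL_xy 0 0) β
    (by
      intro v w
      rw [hβ, hβ]
      have : ρ (x 0 (y 0 v)) = ρ v := by
        apply Subtype.ext
        rw [hρ, hρ, xyx]
      rw [this])
    (by
      intro v w
      rw [hβ, hβ, xyx])
    (by
      intro X hX v w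
      rw [hβ, hβ]
      have h1 := hκ' X hX (ρ v) (ρ (x 0 w))
      rw [hρ, hρe] at h1
      exact h1)
  refine ⟨B, ?_, hB2⟩
  rintro rfl
  apply hκ0
  ext ⟨_, ⟨a, rfl⟩⟩ ⟨_, ⟨b, rfl⟩⟩
  have h1 := hB1 a (y 0 b)
  rw [hβ] at h1
  have h2 : ρ (x 0 (y 0 b)) = ⟨(x 0 * y 0) b, b, rfl⟩ := by
    apply Subtype.ext
    rw [hρe]
    rfl
  rw [h2] at h1
  exact h1.symm

theorem kf_fix0 [CharZero K] (h : Kemmer s x y) (v : LinearMap.range (x 0 * y 0)) : x 0 (y 0 (v : V)) = v := by
  obtain ⟨_, ⟨w, rfl⟩⟩ := v
  show x 0 (y 0 (x 0 (y 0 w))) = x 0 (y 0 w)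
  exact LinearMap.congr_fun (K4a_xyx h 0) (y 0 w)

theorem kf_x0 [CharZero K] (h : Kemmer s x y) (i : Fin (n + 1)) (v : LinearMap.range (x 0 * y 0)) : x i (v : V) = 0 := by
  rw [← kf_fix0 h v]
  exact LinearMap.congr_fun (K4a_xx h i 0) (y 0 v)

theorem kf_s0 [CharZero K] (h : Kemmer s x y) (v : LinearMap.range (x 0 * y 0)) : s (v : V) = v := by
  rw [← kf_fix0 h v]
  exact LinearMap.congr_fun (h.sx 0) (y 0 v)

/-- The condition for the generators which do not involve two nonzero indices. -/
theorem kf_triv [CharZero K] (h : Kemmer s x y)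
    (κ : LinearMap.range (x 0 * y 0) →ₗ[K] LinearMap.range (x 0 * y 0) →ₗ[K] K)
    (hij : ∀ i j : Fin (n + 1), i ≠ 0 → j ≠ 0 → ∀ v w : LinearMap.range (x 0 * y 0),
      κ ((x 0 * y 0).rangeRestrict (x i (y j v))) w + κ v ((x 0 * y 0).rangeRestrict (x i (y j w))) =
        (if i = j then (1 : K) else 0) * κ v w) :
    ∀ X ∈ kgen s x y, ∀ v w : LinearMap.range (x 0 * y 0),
      κ ((x 0 * y 0).rangeRestrict (X v)) w + κ v ((x 0 * y 0).rangeRestrict (x 0 (X (y 0 w)))) = 0 := by
  have hρ : ∀ v : V, (((x 0 * y 0).rangeRestrict v : LinearMap.range (x 0 * y 0)) : V) = x 0 (y 0 v) := fun v => rfl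
  have hρU : ∀ v : LinearMap.range (x 0 * y 0), (x 0 * y 0).rangeRestrict (v : V) = v := by
    intro v
    apply Subtype.ext
    rw [hρ, kf_fix0 h]
  have hρ0 : ∀ v : V, x 0 (y 0 v) = 0 → (x 0 * y 0).rangeRestrict v = 0 := by
    intro v hv
    apply Subtype.ext
    rw [hρ, hv]
    rfl
  have xx : ∀ i j (v : V), x i (x j v) = 0 := fun i j v => LinearMap.congr_fun (K4a_xx h i j) v
  have yy : ∀ i j (v : V), y i (y j v) = 0 := fun i j v => LinearMap.congr_fun (K4a_yy h i j) v
  rintro X (rfl | ⟨i, rfl⟩ | ⟨i, rfl⟩ | ⟨i, j, rfl⟩) v w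
  · have h1 : X (y 0 (w : V)) = -(y 0 w) := LinearMap.congr_fun (h.sy 0) (w : V)
    rw [kf_s0 h, h1, map_neg, kf_fix0 h, map_neg, hρU, hρU, map_neg]
    ring
  · rw [kf_x0 h, xx]
    simp
  · rw [yy, map_zero, map_zero, map_zero, add_zero, hρ0 _ (by rw [yy, map_zero])]
    simp
  · have h1 : (x i * y j - y j * x i) (v : V) = x i (y j v) := by
      rw [LinearMap.sub_apply, Module.End.mul_apply, Module.End.mul_apply, kf_x0 h, map_zero, sub_zero]
    have h2 : x 0 ((x i * y j - y j * x i) (y 0 w)) = -(x 0 (y j (x i (y 0 w)))) := by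
      rw [LinearMap.sub_apply, Module.End.mul_apply, Module.End.mul_apply, yy, map_zero, zero_sub, map_neg]
    rw [h1, h2]
    by_cases hj : j = 0
    · subst hj
      by_cases hi : i = 0
      · subst hi
        rw [kf_fix0 h, kf_fix0 h, kf_fix0 h, map_neg, hρU, hρU, map_neg]
        ring
      · have h4 : ∀ w : V, y 0 (x i (y 0 w)) = 0 := fun w => LinearMap.congr_fun (K4a_zero (K4a_swap h) (Ne.symm hi)) w
        rw [h4, map_zero, neg_zero, map_zero, map_zero, add_zero, hρ0 _ (by rw [h4, map_zero])]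
        simp
    · by_cases hi : i = 0
      · subst hi
        have h4 : ∀ w : V, x 0 (y j (x 0 w)) = 0 := fun w => LinearMap.congr_fun (K4a_zero h (Ne.symm hj)) w
        have h5 : x 0 (y j (v : V)) = 0 := by
          rw [← kf_fix0 h v, h4]
        rw [h4, h5]
        simp
      · have h3 := hij i j hi hj v w
        have h4 : -(x 0 (y j (x i (y 0 (w : V))))) = x i (y j w) - (if i = j then (1 : K) else 0) • (w : V) := by
          have h5 := LinearMap.congr_fun (h.r1 i j 0) (y 0 (w : V))
          rw [if_neg (Ne.symm hj), add_zero] at h5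
          simp only [LinearMap.add_apply, Module.End.mul_apply] at h5
          rw [kf_fix0 h] at h5
          have h6 : x 0 (y j (x i (y 0 (w : V)))) =
              ((if i = j then x 0 else 0 : Module.End K V)) (y 0 (w : V)) - x i (y j w) := by
            rw [← h5]; abel
          rw [h6]
          split_ifs
          · rw [kf_fix0 h, one_smul]; abel
          · simp
        rw [h4, map_sub, map_sub, map_smul, map_smul, hρU, smul_eq_mul]
        linear_combination h3

/-- The first generator is not zero in the middle degree. -/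
theorem kf_ne [CharZero K] [Nontrivial V] {c : ℕ} (h : Kemmer s x y) (hn : n + 2 = 2 * c)
    (hc : ∀ v, cnt s x y v = (c : K) • v) : x 0 ≠ 0 := by
  intro h0
  have hx : ∀ i, x i = 0 := by
    intro i
    have h1 := h.r1 0 0 i
    rw [h0] at h1
    simp only [zero_mul, mul_zero, add_zero, if_true] at h1
    split_ifs at h1
    · rw [add_zero] at h1; exact h1.symm
    · rw [add_zero] at h1; exact h1.symm
  have hy : ∀ i, y i = 0 := by
    intro i
    rw [← K4a_yxy h i, hx]
    simp
  have hc0 : (c : K) ≠ 0 := by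
    rw [Nat.cast_ne_zero]; omega
  have hQ : ∀ v, ((1 / 2 : K) • (1 - s)) v = (1 / 2 : K) • v := by
    intro v
    have h1 := hc v
    rw [cnt] at h1
    simp only [hx, hy, zero_mul, mul_zero, zero_add, sub_zero, Finset.sum_const, Finset.card_univ, Fintype.card_fin] at h1
    rw [LinearMap.add_apply, LinearMap.smul_apply (n + 1)] at h1
    rw [← Nat.cast_smul_eq_nsmul K] at h1
    have h2 : ((c : K) * 2) • ((1 / 2 : K) • (1 - s)) v = (c : K) • v := by
      rw [← h1]
      have h3 : (c : K) * 2 = 1 + ((n + 1 : ℕ) : K) := by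
        have h4 : ((n + 2 : ℕ) : K) = ((2 * c : ℕ) : K) := by rw [hn]
        push_cast at h4 ⊢
        linear_combination -h4
      rw [h3, add_smul, one_smul]
    have h3 : (c : K) • ((2 : K) • ((1 / 2 : K) • (1 - s)) v - v) = 0 := by
      rw [smul_sub, smul_smul, h2, sub_self]
    have h4 := (smul_eq_zero.1 h3).resolve_left hc0
    have h5 : (2 : K) • ((1 / 2 : K) • (1 - s)) v = v := sub_eq_zero.1 h4
    have h6 : ((1 / 2 : K) • (1 - s)) v = (1 / 2 : K) • ((2 : K) • ((1 / 2 : K) • (1 - s)) v) := by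
      rw [smul_smul (1 / 2 : K) 2]
      norm_num
    rw [h6, h5]
  obtain ⟨v, hv⟩ := exists_ne (0 : V)
  have h1 := hQ v
  have h2 : s v = 0 := by
    rw [LinearMap.smul_apply, LinearMap.sub_apply, Module.End.one_apply, smul_sub, sub_eq_self] at h1
    exact (smul_eq_zero.1 h1).resolve_left (by norm_num)
  apply hv
  have h3 := LinearMap.congr_fun h.s_sq v
  rw [Module.End.mul_apply, h2, map_zero] at h3
  exact h3.symm

end gen

/-- The condition for the generators, from the reduced system. -/
theorem kf_step [CharZero K] {s : Module.End K V} {n : ℕ} {x y : Fin (n + 2) → Module.End K V} (h : Kemmer s x y)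
    (κ : LinearMap.range (x 0 * y 0) →ₗ[K] LinearMap.range (x 0 * y 0) →ₗ[K] K)
    (hκ : ∀ X ∈ kL (ks h) (kx h) (ky h), ∀ v w, κ (X v) w + κ v (X w) = 0) :
    ∀ i j : Fin (n + 2), i ≠ 0 → j ≠ 0 → ∀ v w : LinearMap.range (x 0 * y 0),
      κ ((x 0 * y 0).rangeRestrict (x i (y j v))) w + κ v ((x 0 * y 0).rangeRestrict (x i (y j w))) =
        (if i = j then (1 : K) else 0) * κ v w := by
  intro i j hi hj v w
  have h0 : ∀ (i j : Fin (n + 2)) (hi : i ≠ 0) (hj : j ≠ 0) (v : LinearMap.range (x 0 * y 0)),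
      (x 0 * y 0).rangeRestrict (x i (y j (v : V))) = kR h i j hi hj v := by
    intro i j hi hj v
    apply Subtype.ext
    have h1 := kU_fix h (kR h i j hi hj v)
    rw [kR_coe] at h1 ⊢
    exact h1
  have ex := fun i v w => hκ (kx h i) (kL_x i) v w
  have ey := fun i v w => hκ (ky h i) (kL_y i) v w
  have e11 : ∀ v w, κ (kR h 1 1 one_ne_zero' one_ne_zero' v) w + κ v (kR h 1 1 one_ne_zero' one_ne_zero' w) = κ v w := by
    intro v w
    have h6 : ∀ w, kR h 1 1 one_ne_zero' one_ne_zero' w = (1 / 2 : K) • (w - ks h w) := by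
      intro w
      apply Subtype.ext
      rw [Submodule.coe_smul, Submodule.coe_sub, ks_coe, kR_coe]
      module
    have h7 := hκ (ks h) kL_s v w
    rw [h6, h6]
    simp only [map_sub, map_smul, LinearMap.sub_apply, LinearMap.smul_apply, smul_eq_mul]
    linear_combination -(1 / 2 : K) * h7
  have key : ∀ (i j : Fin (n + 2)) (hi : i ≠ 0) (hj : j ≠ 0), ∀ v w,
      κ (kR h i j hi hj v) w + κ v (kR h i j hi hj w) = (if i = j then (1 : K) else 0) * κ v w := by
    intro i
    refine kj_cases (n := n) (fun i => ∀ (j : Fin (n + 2)) (hi : i ≠ 0) (hj : j ≠ 0), ∀ v w,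
      κ (kR h i j hi hj v) w + κ v (kR h i j hi hj w) = (if i = j then (1 : K) else 0) * κ v w) ?_ ?_ ?_ i
    · intro j hi; exact absurd rfl hi
    · intro j
      refine kj_cases (n := n) (fun j => ∀ (hi : (1 : Fin (n + 2)) ≠ 0) (hj : j ≠ 0), ∀ v w,
        κ (kR h 1 j hi hj v) w + κ v (kR h 1 j hi hj w) = (if 1 = j then (1 : K) else 0) * κ v w) ?_ ?_ ?_ j
      · intro _ hj; exact absurd rfl hj
      · intro _ _ v w
        rw [if_pos rfl, one_mul]
        exact e11 v w
      · intro j' hi hj v w
        have h6 : ∀ w, kR h 1 (kj j') hi hj w = -(ky h j' w) := by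
          intro w
          apply Subtype.ext
          rw [kR_coe, Submodule.coe_neg, ky_coe, neg_neg]
        rw [if_neg (Ne.symm (kj_one j')), zero_mul, h6, h6, map_neg, map_neg, LinearMap.neg_apply]
        linear_combination -ey j' v w
    · intro i' j
      refine kj_cases (n := n) (fun j => ∀ (hi : kj i' ≠ 0) (hj : j ≠ 0), ∀ v w,
        κ (kR h (kj i') j hi hj v) w + κ v (kR h (kj i') j hi hj w) = (if kj i' = j then (1 : K) else 0) * κ v w)
        ?_ ?_ ?_ j
      · intro _ hj; exact absurd rfl hj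
      · intro hi hj v w
        have h6 : ∀ w, kR h (kj i') 1 hi hj w = -(kx h i' w) := by
          intro w
          apply Subtype.ext
          rw [kR_coe, Submodule.coe_neg, kx_coe, neg_neg]
        rw [if_neg (kj_one i'), zero_mul, h6, h6, map_neg, map_neg, LinearMap.neg_apply]
        linear_combination -ex i' v w
      · intro j' hi hj v w
        have h6 : ∀ w, kR h (kj i') (kj j') hi hj w = kx h i' (ky h j' w) - ky h j' (kx h i' w) +
            (if i' = j' then (1 : K) else 0) • kR h 1 1 one_ne_zero' one_ne_zero' w := by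
          intro w
          apply Subtype.ext
          rw [Submodule.coe_add, Submodule.coe_sub, Submodule.coe_smul, kx_coe, ky_coe, ky_coe, kx_coe,
            kR_coe, kR_coe]
          have h7 := LinearMap.congr_fun (kf_br h i' j') (w : V)
          simp only [LinearMap.sub_apply, Module.End.mul_apply] at h7
          simp only [map_neg, neg_neg]
          rw [h7]
          split_ifs
          · rw [one_smul, Module.End.mul_apply]; abel
          · simp
        rw [h6, h6]
        simp only [map_add, map_sub, map_smul, LinearMap.add_apply, LinearMap.sub_apply, LinearMap.smul_apply,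
          smul_eq_mul, kj_inj]
        have a1 := ex i' (ky h j' v) w
        have a2 := ey j' v (kx h i' w)
        have a3 := ey j' (kx h i' v) w
        have a4 := ex i' v (ky h j' w)
        have a5 := e11 v w
        linear_combination a1 - a2 - a3 + a4 + (if i' = j' then (1 : K) else 0) * a5
  rw [h0 i j hi hj, h0 i j hi hj]
  exact key i j hi hj v w

/-- A Kemmer system with an odd number of generators in the middle degree has an invariant form. -/
theorem kemmer_form [CharZero K] (m : ℕ) : ∀ (V : Type u) [AddCommGroup V] [Module K V]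
    [FiniteDimensional K V] [Nontrivial V] {s : Module.End K V} {x y : Fin (2 * m + 1) → Module.End K V},
    Kemmer s x y → (∀ v, cnt s x y v = ((m + 1 : ℕ) : K) • v) →
    ∃ B : V →ₗ[K] V →ₗ[K] K, B ≠ 0 ∧ ∀ X ∈ kL s x y, ∀ v w, B (X v) w + B v (X w) = 0 := by
  induction m with
  | zero =>
    intro V _ _ _ _ s x y h hc
    have hx : x 0 ≠ 0 := kf_ne h (by norm_num) hc
    have hU : Nontrivial (LinearMap.range (x 0 * y 0)) := by
      rw [Submodule.nontrivial_iff_ne_bot]
      intro h0
      apply hx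
      rw [← K4a_xyx h 0, LinearMap.range_eq_bot.1 h0, zero_mul]
    obtain ⟨u, hu⟩ := exists_ne (0 : LinearMap.range (x 0 * y 0))
    obtain ⟨φ, hφ⟩ := Module.Projective.exists_dual_ne_zero (R := K) hu
    let κ : LinearMap.range (x 0 * y 0) →ₗ[K] LinearMap.range (x 0 * y 0) →ₗ[K] K :=
      φ.smulRight φ
    refine kf_form h hx κ ?_ (kf_triv h κ ?_)
    · intro h0
      have h1 : κ u u = 0 := by rw [h0]; rfl
      have h2 : φ u * φ u = 0 := h1
      exact hφ (mul_self_eq_zero.1 h2)
    · intro i j hi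
      exact absurd (Subsingleton.elim (α := Fin 1) i 0) hi
  | succ m ih =>
    intro V _ _ _ _ s x y h hc
    have hx : x 0 ≠ 0 := kf_ne (n := 2 * m + 2) (c := m + 1 + 1) h (by ring) hc
    have hU : Nontrivial (LinearMap.range (x 0 * y 0)) := by
      rw [Submodule.nontrivial_iff_ne_bot]
      intro h0
      apply hx
      rw [← K4a_xyx h 0, LinearMap.range_eq_bot.1 h0, zero_mul]
    have hred := kf_red (n := 2 * m + 1) h hx
    obtain ⟨κ, hκ0, hκ⟩ := ih (LinearMap.range (x 0 * y 0)) hred (by
      intro v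
      have h1 := kf_cnt (n := 2 * m + 1) h hc v
      rw [h1]
      congr 1
      push_cast
      ring)
    exact kf_form h hx κ hκ0 (kf_triv h κ (kf_step (n := 2 * m + 1) h κ hκ))

end Pool.Agent.H86N
end

-- from Lib.H86N.P8f
section

/-!
# P8f: the invariant form in the spin case
-/

set_option autoImplicit false
set_option linter.unusedSectionVars false
namespace Pool.Agent.H86N
open Module Pool.Agent.H53Toric Pool.Agent.H49M

variable {K : Type*} [Field K] {V : Type*} [AddCommGroup V] [Module K V]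

variable {L : Submodule K (Module.End K V)}

/-- In the spin case there is an invariant form unless the dimension is a power of four. -/
theorem P8_form [CharZero K] [IsAlgClosed K] [FiniteDimensional K V] [Nontrivial V]
    (h : CoreN L) {s e f e' f' u : Module.End K V} (G : Grid L s e f e' f' u)
    (h0 : (1 / 2 : K) • (1 + s) = e * f + e' * f') :
    (∃ B : V →ₗ[K] V →ₗ[K] K, B ≠ 0 ∧ ∀ X ∈ L, ∀ v w, B (X v) w + B v (X w) = 0) ∨
    ∃ t : ℕ, Odd t ∧ finrank K (eig s 1) = 2 ^ t := by
  have hl := h.lie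
  obtain ⟨P, hP⟩ : ∃ P : Module.End K V, P = (1 / 2 : K) • (1 + s) := ⟨_, rfl⟩
  obtain ⟨Q, hQ⟩ : ∃ Q : Module.End K V, Q = (1 / 2 : K) • (1 - s) := ⟨_, rfl⟩
  have hPe : P = e * f + e' * f' := by rw [hP, h0]
  have hs2 := G.F.s_sq
  have hQe : Q = f * e + f' * e' := by
    -- the difference is an idempotent of trace zero
    have B := P2_blocks h G
    have q0 : (qq s e f e' f' : Fin 3 → Module.End K V) 0 = (1 / 2 : K) • (1 - s) - f * e - f' * e' := rfl
    have p0 : (pp s e f e' f' : Fin 3 → Module.End K V) 0 = (1 / 2 : K) • (1 + s) - e * f - e' * f' := rfl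
    have t1 : LinearMap.trace K V ((pp s e f e' f' : Fin 3 → Module.End K V) 0 -
        (qq s e f e' f' : Fin 3 → Module.End K V) 0) = 0 := h.tr _ (B.mem 0)
    have t2 : (pp s e f e' f' : Fin 3 → Module.End K V) 0 = 0 := by rw [p0, h0]; abel
    rw [t2, zero_sub, map_neg, neg_eq_zero] at t1
    have t3 := trace_idem (V := V) (K := K) (show (qq s e f e' f' : Fin 3 → Module.End K V) 0 *
      (qq s e f e' f' : Fin 3 → Module.End K V) 0 = (qq s e f e' f' : Fin 3 → Module.End K V) 0 by
        rw [B.qq, if_pos rfl])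
    rw [t1] at t3
    have t4 : finrank K (LinearMap.range ((qq s e f e' f' : Fin 3 → Module.End K V) 0)) = 0 := by
      exact_mod_cast t3.symm
    have t5 := LinearMap.range_eq_bot.1 (Submodule.finrank_eq_zero.1 t4)
    rw [q0] at t5
    rw [hQ]
    have t6 := sub_eq_zero.1 (show (1 / 2 : K) • (1 - s) - (f * e + f' * e') = 0 by rw [← t5]; abel)
    exact t6
  have ePx : ∀ X ∈ Lp L s, P * X = X := by
    intro X hX
    rw [hP, smul_mul_assoc, add_mul, one_mul, hX.2.1, ← two_smul K, smul_smul]; norm_num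
  have eXQ : ∀ X ∈ Lp L s, X * Q = X := by
    intro X hX
    rw [hQ, mul_smul_comm, mul_sub, mul_one, hX.2.2, sub_neg_eq_add, ← two_smul K, smul_smul]
    norm_num
  have eYP : ∀ Y ∈ Lm L s, Y * P = Y := by
    intro X hX
    rw [hP, mul_smul_comm, mul_add, mul_one, hX.2.2, ← two_smul K, smul_smul]; norm_num
  have hPv : ∀ v, s v = v → P v = v := by
    intro v hv
    rw [hP, LinearMap.smul_apply, LinearMap.add_apply, hv, Module.End.one_apply, ← two_smul K,
      smul_smul]
    norm_num
  have m1 : ∀ {v : V}, v ∈ eig s 1 ↔ s v = v := by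
    intro v
    rw [eig, LinearMap.mem_ker, LinearMap.sub_apply, sub_eq_zero, one_smul, Module.End.one_apply]
  have ff' : f * f' = 0 := A2_mm G.F.f_mem G.F'.f_mem
  have f'f : f' * f = 0 := A2_mm G.F'.f_mem G.F.f_mem
  have efe := G.F.efe
  have fef := G.F.fef
  have efe' := G.F'.efe
  have fef' := G.F'.fef
  have e'f := G.o3
  have ef' := G.o1
  have hgj : (e + e') * (f + f') = P := by
    rw [hPe, add_mul, mul_add, mul_add, ef', e'f]; simp
  have hjg : (f + f') * (e + e') = Q := by
    rw [hQe, add_mul, mul_add, mul_add, G.o4, G.o2]; simp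
  have p1ne : e * f ≠ 0 := by
    intro h1
    apply G.F.e_ne
    rw [← efe, h1, zero_mul]
  -- the space of operators
  let J : Submodule K (Module.End K (eig s 1)) :=
    { carrier := {T | ∃ x ∈ Lp L s, ∃ c₁ c₂ : K, e * f * x * (f * e) = c₁ • e ∧
        e' * f' * x * (f' * e') = c₂ • e' ∧
        ∀ v : eig s 1, ((T v : eig s 1) : V) = x ((f + f') (v : V)) - ((c₁ + c₂) / 2) • (v : V)}
      add_mem' := by
        rintro S T ⟨x, hx, c₁, c₂, h1, h2, h3⟩ ⟨y, hy, d₁, d₂, h4, h5, h6⟩
        refine ⟨x + y, (Lp L s).add_mem hx hy, c₁ + d₁, c₂ + d₂, ?_, ?_, ?_⟩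
        · rw [mul_add, add_mul, h1, h4, add_smul]
        · rw [mul_add, add_mul, h2, h5, add_smul]
        · intro v
          have e1 : (x + y) ((f + f') (v : V)) = x ((f + f') (v : V)) + y ((f + f') (v : V)) := rfl
          rw [LinearMap.add_apply, Submodule.coe_add, h3, h6, e1]
          module
      zero_mem' := ⟨0, (Lp L s).zero_mem, 0, 0, by simp, by simp, by simp⟩
      smul_mem' := by
        rintro c T ⟨x, hx, c₁, c₂, h1, h2, h3⟩
        refine ⟨c • x, (Lp L s).smul_mem c hx, c * c₁, c * c₂, ?_, ?_, ?_⟩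
        · rw [mul_smul_comm, smul_mul_assoc, h1, smul_smul]
        · rw [mul_smul_comm, smul_mul_assoc, h2, smul_smul]
        · intro v
          have e1 : (c • x) ((f + f') (v : V)) = c • x ((f + f') (v : V)) := rfl
          rw [LinearMap.smul_apply, Submodule.coe_smul, h3, e1]
          module }
  have hsq : ∀ w ∈ J, ∃ c : K, w * w = c • 1 := by
    rintro T ⟨x, hx, c₁, c₂, h1, h2, h3⟩
    have hxx : x * x = 0 := A2_pp hx hx
    obtain ⟨A, hA⟩ : ∃ A, A = e * f * x * f' := ⟨_, rfl⟩
    obtain ⟨B, hB⟩ : ∃ B, B = e' * f' * x * f := ⟨_, rfl⟩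
    -- the operator
    have hxj : x * (f + f') = c₁ • (e * f) + c₂ • (e' * f') + A + B := by
      have e1 : e * f * x * f = c₁ • (e * f) := by
        calc e * f * x * f = e * f * x * (f * e) * f := by rw [mul_assoc _ (f * e) f, fef]
          _ = c₁ • (e * f) := by rw [h1, smul_mul_assoc]
      have e2 : e' * f' * x * f' = c₂ • (e' * f') := by
        calc e' * f' * x * f' = e' * f' * x * (f' * e') * f' := by
              rw [mul_assoc _ (f' * e') f', fef']
          _ = c₂ • (e' * f') := by rw [h2, smul_mul_assoc]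
      calc x * (f + f') = P * x * (f + f') := by rw [ePx x hx]
        _ = e * f * x * f + e' * f' * x * f' + e * f * x * f' + e' * f' * x * f := by
            rw [hPe]; noncomm_ring
        _ = _ := by rw [e1, e2, hA, hB]
    obtain ⟨a, ha⟩ := K0_ext hl G.F (hl.sandwich hx.1 hxx G.F'.f_mem.1)
    obtain ⟨b, hb⟩ := K0_ext hl G.F' (hl.sandwich hx.1 hxx G.F.f_mem.1)
    have hAB : A * B = a • (e * f) := by
      calc A * B = e * f * x * (f' * e' * f') * x * f := by rw [hA, hB]; noncomm_ring
        _ = e * f * (x * f' * x) * (f * e) * f := by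
          rw [fef', mul_assoc _ (f * e) f, fef]; noncomm_ring
        _ = _ := by rw [ha, smul_mul_assoc]
    have hBA : B * A = b • (e' * f') := by
      calc B * A = e' * f' * x * (f * e * f) * x * f' := by rw [hA, hB]; noncomm_ring
        _ = e' * f' * (x * f * x) * (f' * e') * f' := by
          rw [fef, mul_assoc _ (f' * e') f', fef']; noncomm_ring
        _ = _ := by rw [hb, smul_mul_assoc]
    have hp1A : e * f * A = A := by rw [hA]; simp only [← mul_assoc]; rw [efe]
    have hAp2 : A * (e' * f') = A := by rw [hA, mul_assoc, ← mul_assoc f', fef']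
    have hp2B : e' * f' * B = B := by rw [hB]; simp only [← mul_assoc]; rw [efe']
    have hBp1 : B * (e * f) = B := by rw [hB, mul_assoc, ← mul_assoc f, fef]
    have hAA : A * A = 0 := by
      calc A * A = e * f * x * (f' * e) * f * x * f' := by rw [hA]; noncomm_ring
        _ = 0 := by rw [G.o2]; simp
    have hBB : B * B = 0 := by
      calc B * B = e' * f' * x * (f * e') * f' * x * f := by rw [hB]; noncomm_ring
        _ = 0 := by rw [G.o4]; simp
    have hab : a = b := by
      by_cases hA0 : A = 0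
      · rw [hA0, zero_mul] at hAB
        rw [hA0, mul_zero] at hBA
        have ha0 := (smul_eq_zero.mp hAB.symm).resolve_right p1ne
        have p2ne : e' * f' ≠ 0 := by
          intro h1
          apply G.F'.e_ne
          rw [← efe', h1, zero_mul]
        have hb0 := (smul_eq_zero.mp hBA.symm).resolve_right p2ne
        rw [ha0, hb0]
      · have e1 : (a - b) • A = 0 := by
          have e2 : A * B * A = a • A := by rw [hAB, smul_mul_assoc, hp1A]
          have e3 : A * B * A = b • A := by rw [mul_assoc, hBA, mul_smul_comm, hAp2]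
          rw [sub_smul, ← e2, ← e3, sub_self]
        exact sub_eq_zero.mp ((smul_eq_zero.mp e1).resolve_right hA0)
    -- the square
    obtain ⟨D, hD⟩ : ∃ D : Module.End K V, D = x * (f + f') - ((c₁ + c₂) / 2) • P := ⟨_, rfl⟩
    obtain ⟨d, hd⟩ : ∃ d : K, d = (c₁ - c₂) / 2 := ⟨_, rfl⟩
    have hD2 : D = d • (e * f - e' * f') + (A + B) := by
      rw [hD, hxj, hPe, hd]; module
    have t12 : e * f * (e' * f') = 0 := by
      rw [mul_assoc, ← mul_assoc f, G.o4, zero_mul, mul_zero]
    have t21 : e' * f' * (e * f) = 0 := by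
      rw [mul_assoc, ← mul_assoc f', G.o2, zero_mul, mul_zero]
    have t11 : e * f * (e * f) = e * f := by rw [← mul_assoc, efe]
    have t22 : e' * f' * (e' * f') = e' * f' := by rw [← mul_assoc, efe']
    have hp2A : e' * f' * A = 0 := by rw [← hp1A, ← mul_assoc, t21, zero_mul]
    have hp1B : e * f * B = 0 := by rw [← hp2B, ← mul_assoc, t12, zero_mul]
    have hAp1 : A * (e * f) = 0 := by rw [← hAp2, mul_assoc, t21, mul_zero]
    have hBp2 : B * (e' * f') = 0 := by rw [← hBp1, mul_assoc, t12, mul_zero]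
    have hDD : D * D = (d * d + a) • P := by
      rw [hD2]
      simp only [add_mul, mul_add, sub_mul, mul_sub, smul_mul_assoc, mul_smul_comm, smul_sub,
        t11, t12, t21, t22, hp1A, hAp2, hp2B, hBp1, hp2A, hp1B, hAp1, hBp2, hAA, hBB, hAB, hBA,
        ← hab, hPe]
      module
    refine ⟨d * d + a, ?_⟩
    have hTD : ∀ v : eig s 1, ((T v : eig s 1) : V) = D v := by
      intro v
      rw [h3, hD, LinearMap.sub_apply, LinearMap.smul_apply, hPv v (m1.mp v.2)]
      rfl
    ext v
    rw [Module.End.mul_apply, hTD, hTD, ← Module.End.mul_apply, hDD, LinearMap.smul_apply,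
      hPv v (m1.mp v.2)]
    rfl
  have hfin := (K5_eig h G.F.s_mem G.F.s_sq).2
  have hpos : 0 < finrank K V := finrank_pos
  have hpos1 : 0 < finrank K (eig s 1) := by omega
  have : Nontrivial (eig s 1) := (Module.finrank_pos_iff (R := K)).mp hpos1
  have hirrJ : ∀ U : Submodule K (eig s 1), (∀ w ∈ J, ∀ u ∈ U, w u ∈ U) → U = ⊥ ∨ U = ⊤ := by
    intro U hU
    by_cases hU0 : U = ⊥
    · exact Or.inl hU0
    right
    obtain ⟨W, hW⟩ : ∃ W : Submodule K V, W = U.map (eig s 1).subtype := ⟨_, rfl⟩
    have hWs : ∀ w ∈ W, s w = w := by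
      rw [hW]; rintro _ ⟨u, _, rfl⟩; exact m1.mp u.2
    have hW0 : W ≠ ⊥ := by
      intro h1
      apply hU0
      rw [eq_bot_iff]
      intro y hy
      have h4 : (y : V) ∈ W := by rw [hW]; exact ⟨y, hy, rfl⟩
      rw [h1, Submodule.mem_bot] at h4
      exact Subtype.ext h4
    have hst1 : ∀ x ∈ Lp L s, ∀ w ∈ W, (x * (f + f')) w ∈ W := by
      intro x hx w hw
      obtain ⟨c₁, h1⟩ := K0_ext hl G.F hx.1
      obtain ⟨c₂, h2⟩ := K0_ext hl G.F' hx.1
      have hstab : ∀ v ∈ eig s 1, (x * (f + f') - ((c₁ + c₂) / 2) • 1) v ∈ eig s 1 := by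
        intro v hv
        rw [m1] at hv ⊢
        rw [LinearMap.sub_apply, map_sub, ← Module.End.mul_apply, ← mul_assoc, hx.2.1,
          LinearMap.smul_apply, map_smul, Module.End.one_apply, hv]
      rw [hW] at hw ⊢
      obtain ⟨u, hu, rfl⟩ := hw
      have h5 := hU ((x * (f + f') - ((c₁ + c₂) / 2) • 1).restrict hstab)
        ⟨x, hx, c₁, c₂, h1, h2, fun v => rfl⟩ u hu
      have h6 : (x * (f + f')) (u : V) = (((x * (f + f') - ((c₁ + c₂) / 2) • 1).restrict hstab u +
          ((c₁ + c₂) / 2) • u : eig s 1) : V) := by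
        rw [Submodule.coe_add, Submodule.coe_smul, LinearMap.coe_restrict_apply]
        simp
      change (x * (f + f')) (u : V) ∈ _
      rw [h6]
      exact ⟨_, U.add_mem h5 (U.smul_mem _ hu), rfl⟩
    rw [eq_top_iff]
    rintro ⟨u, hu⟩ -
    have huW : u ∈ W := by
      refine A3_vec h G.F.s_mem G.F.s_sq hWs hW0 ?_ (m1.mp hu)
      intro Z hZ
      have hsp := A3_span h G.F.s_mem G.F.s_sq hZ
      refine Submodule.span_induction (p := fun Z _ => ∀ w ∈ W, Z w ∈ W) ?_ ?_ ?_ ?_ hsp
      · rintro _ ⟨X, hX, Y, hY, rfl⟩ w hw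
        have hXw : X w = 0 := by
          have e1 : X w = -(X w) := by
            conv_lhs => rw [← hWs w hw, ← Module.End.mul_apply, hX.2.2]
            rfl
          have e2 : (2 : K) • X w = 0 := by
            rw [two_smul]
            nth_rewrite 1 [e1]
            exact neg_add_cancel _
          exact (smul_eq_zero.mp e2).resolve_left two_ne_zero
        have hgL : e + e' ∈ Lp L s := (Lp L s).add_mem G.F.e_mem G.F'.e_mem
        have hgg : (e + e') * (e + e') = 0 := A2_pp hgL hgL
        have hgYg : (e + e') * Y * (e + e') ∈ Lp L s := by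
          refine ⟨hl.sandwich hgL.1 hgg hY.1, ?_, ?_⟩
          · rw [← mul_assoc, ← mul_assoc, hgL.2.1]
          · rw [mul_assoc, hgL.2.2, mul_neg]
        have e3 : X * Y = (X * (f + f')) * (((e + e') * Y * (e + e')) * (f + f')) := by
          calc X * Y = (X * Q) * (Y * P) := by rw [eXQ X hX, eYP Y hY]
            _ = (X * ((f + f') * (e + e'))) * (Y * ((e + e') * (f + f'))) := by rw [hgj, hjg]
            _ = _ := by noncomm_ring
        rw [LinearMap.sub_apply, Module.End.mul_apply Y X, hXw, map_zero, sub_zero, e3,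
          Module.End.mul_apply]
        exact hst1 X hX _ (hst1 _ hgYg w hw)
      · intro w _; rw [LinearMap.zero_apply]; exact W.zero_mem
      · intro a b _ _ h1 h2 w hw
        rw [LinearMap.add_apply]
        exact W.add_mem (h1 w hw) (h2 w hw)
      · intro c a _ h1 w hw
        rw [LinearMap.smul_apply]
        exact W.smul_mem _ (h1 w hw)
    rw [hW] at huW
    obtain ⟨y, hy, hyu⟩ := huW
    have : y = ⟨u, hu⟩ := Subtype.ext hyu
    rwa [← this]
  obtain ⟨t, ht, hts⟩ := P7_exists (finrank K (eig s 1)) (eig s 1) J rfl hsq hirrJ 1 (Or.inl rfl)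
  rcases hts with ⟨b, hb0, hb⟩ | hts
  swap
  · right
    refine ⟨t, ?_, ht⟩
    by_contra hodd
    rw [Nat.not_odd_iff_even] at hodd
    rw [hodd.neg_one_pow, one_mul] at hts
    have h2 : (2 : K) = 0 := by linear_combination hts
    exact two_ne_zero h2
  left
  -- the operators `x j` are self-adjoint
  have hself : ∀ x ∈ Lp L s, ∀ (a a' c c' : eig s 1), (c : V) = x ((f + f') (a : V)) →
      (c' : V) = x ((f + f') (a' : V)) → b c a' = b a c' := by
    intro x hx a a' c c' hc hc'
    obtain ⟨c₁, h1⟩ := K0_ext hl G.F hx.1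
    obtain ⟨c₂, h2⟩ := K0_ext hl G.F' hx.1
    have hstab : ∀ v ∈ eig s 1, (x * (f + f') - ((c₁ + c₂) / 2) • 1) v ∈ eig s 1 := by
      intro v hv
      rw [m1] at hv ⊢
      rw [LinearMap.sub_apply, map_sub, ← Module.End.mul_apply, ← mul_assoc, hx.2.1,
        LinearMap.smul_apply, map_smul, Module.End.one_apply, hv]
    have hm : (x * (f + f') - ((c₁ + c₂) / 2) • 1).restrict hstab ∈ J := ⟨x, hx, c₁, c₂, h1, h2, fun v => rfl⟩
    have h5 := hb _ hm a a'
    have e1 : (x * (f + f') - ((c₁ + c₂) / 2) • 1).restrict hstab a = c - ((c₁ + c₂) / 2) • a := by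
      apply Subtype.ext
      rw [LinearMap.coe_restrict_apply, Submodule.coe_sub, Submodule.coe_smul, hc]
      rfl
    have e2 : (x * (f + f') - ((c₁ + c₂) / 2) • 1).restrict hstab a' = c' - ((c₁ + c₂) / 2) • a' := by
      apply Subtype.ext
      rw [LinearMap.coe_restrict_apply, Submodule.coe_sub, Submodule.coe_smul, hc']
      rfl
    rw [e1, e2, one_mul] at h5
    simp only [map_sub, map_smul, LinearMap.sub_apply, LinearMap.smul_apply, smul_eq_mul] at h5
    linear_combination h5
  have hgL : e + e' ∈ Lp L s := (Lp L s).add_mem G.F.e_mem G.F'.e_mem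
  have hgg : (e + e') * (e + e') = 0 := A2_pp hgL hgL
  have hPm : ∀ v, P v ∈ eig s 1 := by
    intro v
    rw [m1, ← Module.End.mul_apply]
    have : s * P = P := by
      rw [hP, mul_smul_comm, mul_add, hs2, mul_one, add_comm s]
    rw [this]
  have hgm : ∀ v, (e + e') v ∈ eig s 1 := by
    intro v
    rw [m1, ← Module.End.mul_apply, hgL.2.1]
  let A : V →ₗ[K] eig s 1 := LinearMap.codRestrict (eig s 1) P hPm
  let A' : V →ₗ[K] eig s 1 := LinearMap.codRestrict (eig s 1) (e + e') hgm
  have cA : ∀ v, ((A v : eig s 1) : V) = P v := fun v => rfl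
  have cA' : ∀ v, ((A' v : eig s 1) : V) = (e + e') v := fun v => rfl
  obtain ⟨B, hB⟩ : ∃ B : V →ₗ[K] V →ₗ[K] K, ∀ v w, B v w = b (A v) (A' w) - b (A' v) (A w) :=
    ⟨b.compl₁₂ A A' - b.compl₁₂ A' A, fun v w => rfl⟩
  have hPY : ∀ Y ∈ Lm L s, P * Y = 0 := by
    intro Y hY
    rw [hP, smul_mul_assoc, add_mul, one_mul, hY.2.1, add_neg_cancel, smul_zero]
  have hXP : ∀ X ∈ Lp L s, X * P = 0 := by
    intro X hX
    rw [hP, mul_smul_comm, mul_add, mul_one, hX.2.2, add_neg_cancel, smul_zero]
  have hp : ∀ X ∈ Lp L s, ∀ v w, B (X v) w + B v (X w) = 0 := by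
    intro X hX v w
    have e1 : ∀ v, A' (X v) = 0 := by
      intro v
      apply Subtype.ext
      rw [cA']
      exact LinearMap.congr_fun (A2_pp hgL hX) v
    have e2 : ∀ v, ((A (X v) : eig s 1) : V) = X ((f + f') ((A' v : eig s 1) : V)) := by
      intro v
      rw [cA, cA']
      have e3 : P * X = X * ((f + f') * (e + e')) := by rw [ePx X hX, hjg, eXQ X hX]
      exact LinearMap.congr_fun e3 v
    have h1 := hself X hX (A' v) (A' w) (A (X v)) (A (X w)) (e2 v) (e2 w)
    rw [hB, hB, e1, e1]
    simp only [map_zero, LinearMap.zero_apply]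
    linear_combination h1
  have hm : ∀ Y ∈ Lm L s, ∀ v w, B (Y v) w + B v (Y w) = 0 := by
    intro Y hY v w
    have e1 : ∀ v, A (Y v) = 0 := by
      intro v
      apply Subtype.ext
      rw [cA]
      exact LinearMap.congr_fun (hPY Y hY) v
    have hgYg : (e + e') * Y * (e + e') ∈ Lp L s := by
      refine ⟨hl.sandwich hgL.1 hgg hY.1, ?_, ?_⟩
      · rw [← mul_assoc, ← mul_assoc, hgL.2.1]
      · rw [mul_assoc, hgL.2.2, mul_neg]
    have e2 : ∀ v, ((A' (Y v) : eig s 1) : V) = ((e + e') * Y * (e + e')) ((f + f') ((A v : eig s 1) : V)) := by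
      intro v
      rw [cA, cA']
      have e3 : (e + e') * Y = (e + e') * Y * (e + e') * ((f + f') * P) := by
        have e4 : P * P = P := by
          nth_rewrite 2 [hP]
          rw [mul_smul_comm, mul_add, mul_one]
          have e5 : P * s = P := by
            rw [hP, smul_mul_assoc, add_mul, one_mul, hs2, add_comm s]
          rw [e5, ← two_smul K P, smul_smul]
          norm_num
        calc (e + e') * Y = (e + e') * (Y * P) := by rw [eYP Y hY]
          _ = (e + e') * (Y * ((e + e') * (f + f') * P)) := by rw [hgj, e4]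
          _ = _ := by noncomm_ring
      exact LinearMap.congr_fun e3 v
    have h1 := hself _ hgYg (A v) (A w) (A' (Y v)) (A' (Y w)) (e2 v) (e2 w)
    rw [hB, hB, e1, e1]
    simp only [map_zero, LinearMap.zero_apply]
    linear_combination -h1
  have h00 : ∀ X ∈ L0 L s, ∀ v w, B (X v) w + B v (X w) = 0 := by
    intro X hX v w
    refine Submodule.span_induction (p := fun X _ => B (X v) w + B v (X w) = 0) ?_ ?_ ?_ ?_
      (A3_span h G.F.s_mem G.F.s_sq hX)
    · rintro _ ⟨X, hX, Y, hY, rfl⟩
      have a1 := hp X hX (Y v) w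
      have a2 := hm Y hY v (X w)
      have a3 := hm Y hY (X v) w
      have a4 := hp X hX v (Y w)
      simp only [LinearMap.sub_apply, Module.End.mul_apply, map_sub]
      linear_combination a1 - a2 - a3 + a4
    · simp
    · intro a b _ _ h1 h2
      simp only [LinearMap.add_apply, map_add]
      linear_combination h1 + h2
    · intro c a _ h1
      simp only [LinearMap.smul_apply, map_smul, smul_eq_mul]
      linear_combination c * h1
  refine ⟨B, ?_, ?_⟩
  · rintro rfl
    apply hb0
    ext v w
    have h1 := hB (v : V) ((f + f') (w : V))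
    have e1 : A (v : V) = v := Subtype.ext (hPv v (m1.mp v.2))
    have e2 : A' (v : V) = 0 := by
      apply Subtype.ext
      rw [cA']
      have e3 : (e + e') * P = 0 := hXP _ hgL
      have e4 := LinearMap.congr_fun e3 (v : V)
      rw [Module.End.mul_apply, hPv v (m1.mp v.2)] at e4
      exact e4
    have e5 : A' ((f + f') (w : V)) = w := by
      apply Subtype.ext
      rw [cA', ← Module.End.mul_apply, hgj]
      exact hPv w (m1.mp w.2)
    rw [e1, e2, e5] at h1
    simp only [LinearMap.zero_apply, map_zero, sub_zero] at h1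
    exact h1.symm
  · intro X hX v w
    obtain ⟨a, ha, b', hb', c, hc, rfl⟩ := A2_decomp h G.F.s_mem G.F.s_sq hX
    have a1 := hp a ha v w
    have a2 := h00 b' hb' v w
    have a3 := hm c hc v w
    simp only [LinearMap.add_apply, map_add]
    linear_combination a1 + a2 + a3

end Pool.Agent.H86N
end

-- from Lib.H86N.CoreNS
section

/-!
# Simple irreducible Lie algebras with an involution and no invariant form
-/

set_option autoImplicit false
set_option linter.unusedSectionVars false
namespace Pool.Agent.H86N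
open Module Pool.Agent.H53Toric Pool.Agent.H49M

variable {K : Type*} [Field K] {V : Type*} [AddCommGroup V] [Module K V]
variable {L : Submodule K (Module.End K V)}

/-- If the Jordan pair has rank one there is an invariant form. -/
theorem alpha_form [CharZero K] [IsAlgClosed K] [FiniteDimensional K V] [Nontrivial V]
    (h : CoreN L) {s e f : Module.End K V} (F : Frame L s e f) (ha : ∀ u ∈ J1 L s e f, u * f * u = 0) :
    ∃ B : V →ₗ[K] V →ₗ[K] K, B ≠ 0 ∧ ∀ X ∈ L, ∀ v w, B (X v) w + B v (X w) = 0 := by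
  have hall := fun (x : Module.End K V) (hx : x ∈ Lp L s) (y : Module.End K V)
    (hy : y ∈ Lm L s) => K2_all h F ha hx hy
  obtain ⟨n, x, y, hK, hx, hy, hxL, hyL, hpx, hmy⟩ := K3_system h F hall
  obtain ⟨h4, -⟩ := K5_eig h F.s_mem F.s_sq
  obtain ⟨k, hk, hk1, hk0, hk2⟩ := K4_dim (n + 1) V hK
  have hx0 : x 0 ≠ 0 := by rw [hx]; exact F.e_ne
  obtain ⟨k', hk'1, hk'2, r1, r2, -⟩ := K4_rank hK hx0
  have hpos : 0 < finrank K (eig s 1) := by rw [r1]; exact Nat.choose_pos hk'2
  obtain ⟨j, rfl⟩ : ∃ j, k = j + 1 := by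
    refine ⟨k - 1, ?_⟩
    have : k ≠ 0 := by
      intro h0
      rw [h4, hk0 h0] at hpos
      exact absurd hpos (lt_irrefl 0)
    omega
  have h5 := hk2 j rfl
  have h6 := Nat.choose_succ_right_eq (n + 1) j
  rw [← hk1, ← h5, h4] at h6
  have h7 : 0 < finrank K (eig s (-1)) := by rw [← h4]; exact hpos
  have h8 : j + 1 = n + 1 - j := Nat.eq_of_mul_eq_mul_left h7 h6
  have h9 : n = 2 * j := by omega
  subst h9
  obtain ⟨B, hB0, hB⟩ := kemmer_form j V hK hk
  refine ⟨B, hB0, ?_⟩
  have hp : ∀ X ∈ Lp L s, ∀ v w, B (X v) w + B v (X w) = 0 := by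
    intro X hX
    have h1 : X ∈ kL s x y := by
      refine (Submodule.span_le.2 ?_ : Submodule.span K (Set.range x) ≤ kL s x y) (hpx hX)
      rintro _ ⟨i, rfl⟩
      exact kL_x i
    exact hB X h1
  have hm : ∀ X ∈ Lm L s, ∀ v w, B (X v) w + B v (X w) = 0 := by
    intro X hX
    have h1 : X ∈ kL s x y := by
      refine (Submodule.span_le.2 ?_ : Submodule.span K (Set.range y) ≤ kL s x y) (hmy hX)
      rintro _ ⟨i, rfl⟩
      exact kL_y i
    exact hB X h1
  have h0 : ∀ X ∈ L0 L s, ∀ v w, B (X v) w + B v (X w) = 0 := by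
    intro X hX v w
    refine Submodule.span_induction (p := fun X _ => B (X v) w + B v (X w) = 0) ?_ ?_ ?_ ?_
      (A3_span h F.s_mem F.s_sq hX)
    · rintro _ ⟨X, hX, Y, hY, rfl⟩
      have a1 := hp X hX (Y v) w
      have a2 := hm Y hY v (X w)
      have a3 := hm Y hY (X v) w
      have a4 := hp X hX v (Y w)
      simp only [LinearMap.sub_apply, Module.End.mul_apply, map_sub]
      linear_combination a1 - a2 - a3 + a4
    · simp
    · intro a b _ _ h1 h2
      simp only [LinearMap.add_apply, map_add]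
      linear_combination h1 + h2
    · intro c a _ h1
      simp only [LinearMap.smul_apply, map_smul, smul_eq_mul]
      linear_combination c * h1
  intro X hX v w
  obtain ⟨a, ha, b, hb, c, hc, rfl⟩ := A2_decomp h F.s_mem F.s_sq hX
  have a1 := hp a ha v w
  have a2 := h0 b hb v w
  have a3 := hm c hc v w
  simp only [LinearMap.add_apply, map_add]
  linear_combination a1 + a2 + a3

/-- A simple irreducible Lie algebra of operators of trace zero which contains an involution and has no nonzero
invariant bilinear form: every frame has rank one, or the dimension is a power of four (at least sixteen) and the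
rank is a quarter of the dimension. -/
theorem coreNS_frame [CharZero K] [IsAlgClosed K] [FiniteDimensional K V] [Nontrivial V]
    (h : CoreN L) (hNS : ∀ B : V →ₗ[K] V →ₗ[K] K, (∀ X ∈ L, ∀ v w, B (X v) w + B v (X w) = 0) → B = 0)
    {s e f : Module.End K V} (F : Frame L s e f) :
    finrank K (LinearMap.range e) = 1 ∨
      ((∃ m : ℕ, 4 ≤ m ∧ Even m ∧ finrank K V = 2 ^ m) ∧
        finrank K V = 4 * finrank K (LinearMap.range e)) := by
  rcases coreN h F with h1 | ⟨ha, -⟩ | ⟨e', f', u, G, hr, -, -⟩ | ⟨e', f', u, G, -, h0, h4, m, hm, h5⟩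
  · exact Or.inl h1
  · exfalso
    obtain ⟨B, hB0, hB⟩ := alpha_form h F ha
    exact hB0 (hNS B hB)
  · exfalso
    obtain ⟨B, hB0, hB⟩ := r2_form h G hr
    exact hB0 (hNS B hB)
  · by_cases hm4 : 4 ≤ m
    · rcases P8_form h G h0 with ⟨B, hB0, hB⟩ | ⟨t, ht, h6⟩
      · exact absurd (hNS B hB) hB0
      · have h7 := (K5_eig h G.F.s_mem G.F.s_sq).2
        rw [h6, h5] at h7
        have h8 : 2 ^ m = 2 ^ (t + 1) := by rw [h7, pow_succ]; ring
        have h9 : m = t + 1 := Nat.pow_right_injective (le_refl 2) h8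
        refine Or.inr ⟨⟨m, hm4, ?_, h5⟩, h4⟩
        rw [h9]
        exact ht.add_one
    · exfalso
      have hm3 : m = 3 := by omega
      subst hm3
      obtain ⟨B, hB0, hB⟩ := r2_form h G (by omega)
      exact hB0 (hNS B hB)

/-- The same with an element of rank one as the conclusion. -/
theorem coreNS [CharZero K] [IsAlgClosed K] [FiniteDimensional K V] [Nontrivial V]
    (h : CoreN L) (hNS : ∀ B : V →ₗ[K] V →ₗ[K] K, (∀ X ∈ L, ∀ v w, B (X v) w + B v (X w) = 0) → B = 0)
    {s : Module.End K V} (hs : s ∈ L) (hs2 : s * s = 1)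
    (hnum : (∃ N ∈ L, N * N = 0 ∧ N ≠ 0 ∧ 4 * finrank K (LinearMap.range N) < finrank K V) ∨
      (∀ m : ℕ, 4 ≤ m → Even m → finrank K V ≠ 2 ^ m)) :
    ∃ s' e f : Module.End K V, Frame L s' e f ∧ finrank K (LinearMap.range e) = 1 := by
  rcases hnum with ⟨N, hN, hN2, hN0, hr⟩ | hnum
  · obtain ⟨s', e, f, F, hle⟩ := A4_frame h hs hs2 hN hN2 hN0
    refine ⟨s', e, f, F, ?_⟩
    rcases coreNS_frame h hNS F with h1 | ⟨-, h1⟩
    · exact h1
    · omega
  · obtain ⟨N, hN, hN0⟩ := Submodule.exists_mem_ne_zero_of_ne_bot (A2_ne h hs hs2)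
    obtain ⟨s', e, f, F, -⟩ := A4_frame h hs hs2 hN.1 (A2_pp hN hN) hN0
    refine ⟨s', e, f, F, ?_⟩
    rcases coreNS_frame h hNS F with h1 | ⟨⟨m, hm, hme, h1⟩, -⟩
    · exact h1
    · exact absurd h1 (hnum m hm hme)

end Pool.Agent.H86N
end
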