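import Pool.Agent.Lib.H1M.RC.M034
import Pool.Agent.Lib.H1M.RC.M035
import Pool.Agent.Lib.H1M.RC.M044
import Pool.Agent.Lib.H1M.RC.M048
import Pool.Agent.Lib.H1M.RC.M049
import Pool.Agent.Lib.H1M.RC.M051
import Pool.Agent.Lib.H1M.RC.M056

/-! Merged copies (to shorten the build) of Lib.H25U.Sym, Lib.H76Y.SimpleN, Lib.H76Q.G10, Lib.H76Q.E6, Lib.H76Q.W1, Lib.H76Q.W2, Lib.H76Q.W3, Lib.H76Q.F7, Lib.H76Q.G1, Lib.H76Q.G2, Lib.H76Q.X6, Lib.H76Q.G7, Lib.H76Q.G8. -/

-- from Lib.H25U.Sym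
section

/-!
# A symmetric configuration of weights gives an invariant bilinear form
-/

set_option autoImplicit false
set_option linter.unusedSectionVars false
namespace Pool.Agent.H25U
open Module Matrix Pool.Agent.H53Toric
open Pool.Agent.H76P (dg dq dg_apply dg_mul dg_add dg_smul dg_one dg_inj)
open Pool.Agent.H25Y (dg_single replica fun_mem ext_entry exists_generic apply_eq_sum form_of_graph norm_mem scalar_of_comm trace_dg)
open Pool.Agent.H76Y (NsL)

variable {κ : Type*} {K : Type*} [Field K] [CharZero K] [Fintype κ] [DecidableEq κ]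
  [IsAlgClosed K] [Nonempty κ] {L : Submodule K (Module.End K (κ → K))}

/-- The diagonal elements of `L` are symmetric if the rational ones are. -/
theorem sym_diag (hL : IsLie L) (hirr : Irr L) (htr : ∀ X ∈ L, LinearMap.trace K (κ → K) X = 0)
    (hdiag : ∀ f : κ → ℚ, dq f ∈ L → f ∈ Yo L) {k k' : κ} (hk : ∀ f ∈ Yo L, f k' = -f k)
    {g : κ → K} (hg : dg g ∈ L) : g k' = -g k := by
  rw [← add_eq_zero_iff_eq_neg, ← Module.forall_dual_apply_eq_zero_iff ℚ]
  intro φ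
  have h1 : φ (g k') = -φ (g k) := hk _ (hdiag _ (replica hL hirr htr hg φ))
  rw [map_add, h1]
  ring

/-- If the set of the weights is symmetric, there is a nonzero invariant bilinear form. -/
theorem exists_inv_form (hL : IsLie L) (hirr : Irr L)
    (htr : ∀ X ∈ L, LinearMap.trace K (κ → K) X = 0)
    (hdiag : ∀ f : κ → ℚ, dq f ∈ L → f ∈ Yo L)
    (hsep : ∀ a b : κ, a ≠ b → ∃ f ∈ Yo L, f a ≠ f b)
    (hsym : ∀ k, ∃ k', ∀ f ∈ Yo L, f k' = -f k) :
    ∃ b : (κ → K) →ₗ[K] (κ → K) →ₗ[K] K, b ≠ 0 ∧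
      ∀ X ∈ L, ∀ v w, b (X v) w + b v (X w) = 0 := by
  classical
  obtain ⟨f, hf, hinj⟩ := exists_generic hsep
  obtain ⟨M, -, hM⟩ := Finset.exists_max_image (Finset.univ : Finset κ) f Finset.univ_nonempty
  have hM' : ∀ b, f b ≤ f M := fun b => hM b (Finset.mem_univ b)
  obtain ⟨m, hm⟩ := hsym M
  have hm' : ∀ b, f m ≤ f b := by
    intro b
    obtain ⟨b', hb'⟩ := hsym b
    have h1 := hb' f hf
    have h2 := hm f hf
    have h3 := hM' b'
    linarith
  have hdf : (dq f : Module.End K (κ → K)) ∈ L := Yo_mem hf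
  -- the three parts of an element
  have hcast : ∀ a b : κ, ((f a : ℚ) : K) - ((f b : ℚ) : K) = ((f a - f b : ℚ) : K) := by
    intro a b
    push_cast
    rfl
  have split : ∀ Z ∈ L, ∃ Z₁ ∈ L, ∃ g : κ → K, dg g ∈ L ∧ ∃ Z₃ ∈ L, Z = Z₁ + dg g + Z₃ ∧
      (∀ v, Z₁ v M = 0) ∧ Z₁ (Pi.single m 1) = 0 ∧ Z₃ (Pi.single M 1) = 0 ∧ ∀ v, Z₃ v m = 0 := by
    intro Z hZ
    obtain ⟨Z₁, h1, e1⟩ := fun_mem hL hdf
      (fun c => if ∃ q : ℚ, q < 0 ∧ (q : K) = c then 1 else 0) hZ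
    obtain ⟨Z₂, h2, e2⟩ := fun_mem hL hdf (fun c => if c = 0 then 1 else 0) hZ
    obtain ⟨Z₃, h3, e3⟩ := fun_mem hL hdf
      (fun c => if ∃ q : ℚ, 0 < q ∧ (q : K) = c then 1 else 0) hZ
    have c1 : ∀ a b, (∃ q : ℚ, q < 0 ∧ (q : K) = ((f a : ℚ) : K) - ((f b : ℚ) : K)) ↔ f a < f b := by
      intro a b
      rw [hcast]
      constructor
      · rintro ⟨q, hq, h⟩
        have : q = f a - f b := by exact_mod_cast h
        linarith
      · intro h
        exact ⟨f a - f b, by linarith, rfl⟩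
    have c3 : ∀ a b, (∃ q : ℚ, 0 < q ∧ (q : K) = ((f a : ℚ) : K) - ((f b : ℚ) : K)) ↔ f b < f a := by
      intro a b
      rw [hcast]
      constructor
      · rintro ⟨q, hq, h⟩
        have : q = f a - f b := by exact_mod_cast h
        linarith
      · intro h
        exact ⟨f a - f b, by linarith, rfl⟩
    have c2 : ∀ a b, ((f a : ℚ) : K) - ((f b : ℚ) : K) = 0 ↔ a = b := by
      intro a b
      rw [hcast]
      constructor
      · intro h
        have : f a - f b = 0 := by exact_mod_cast h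
        exact hinj (sub_eq_zero.1 this)
      · rintro rfl
        rw [sub_self, Rat.cast_zero]
    have e1' : ∀ a b, Z₁ (Pi.single b 1) a = if f a < f b then Z (Pi.single b 1) a else 0 := by
      intro a b
      rw [e1]
      simp only [c1]
      split_ifs <;> simp
    have e2' : ∀ a b, Z₂ (Pi.single b 1) a = if a = b then Z (Pi.single b 1) a else 0 := by
      intro a b
      rw [e2]
      simp only [c2]
      split_ifs <;> simp
    have e3' : ∀ a b, Z₃ (Pi.single b 1) a = if f b < f a then Z (Pi.single b 1) a else 0 := by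
      intro a b
      rw [e3]
      simp only [c3]
      split_ifs <;> simp
    have hZ2 : Z₂ = dg fun a => Z (Pi.single a 1) a := by
      refine ext_entry fun a b => ?_
      rw [e2', dg_apply]
      by_cases hab : a = b
      · rw [if_pos hab, hab, Pi.single_eq_same, mul_one]
      · rw [if_neg hab, Pi.single_eq_of_ne hab, mul_zero]
    refine ⟨Z₁, h1, fun a => Z (Pi.single a 1) a, hZ2 ▸ h2, Z₃, h3, ?_, ?_, ?_, ?_, ?_⟩
    · rw [← hZ2]
      refine ext_entry fun a b => ?_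
      rw [LinearMap.add_apply, LinearMap.add_apply, Pi.add_apply, Pi.add_apply, e1', e2', e3']
      rcases lt_trichotomy (f a) (f b) with h | h | h
      · have hab : a ≠ b := fun h' => by rw [h'] at h; exact lt_irrefl _ h
        rw [if_pos h, if_neg hab, if_neg (not_lt.2 h.le), add_zero, add_zero]
      · have hab : a = b := hinj h
        rw [if_neg (by rw [h]; exact lt_irrefl _), if_pos hab, if_neg (by rw [h]; exact lt_irrefl _),
          zero_add, add_zero]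
      · have hab : a ≠ b := fun h' => by rw [h'] at h; exact lt_irrefl _ h
        rw [if_neg (not_lt.2 h.le), if_neg hab, if_pos h, zero_add, zero_add]
    · intro v
      rw [apply_eq_sum]
      refine Finset.sum_eq_zero fun b _ => ?_
      rw [e1', if_neg (not_lt.2 (hM' b)), mul_zero]
    · funext a
      rw [e1', if_neg (not_lt.2 (hm' a))]
      rfl
    · funext a
      rw [e3', if_neg (not_lt.2 (hM' a))]
      rfl
    · intro v
      rw [apply_eq_sum]
      refine Finset.sum_eq_zero fun b _ => ?_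
      rw [e3', if_neg (not_lt.2 (hm' b)), mul_zero]
  -- the submodule
  let act : Module.End K (κ → K) → (κ → K) × Module.Dual K (κ → K) →
      (κ → K) × Module.Dual K (κ → K) := fun X u => (X u.1, -(u.2 ∘ₗ X))
  have act_add : ∀ X u u', act X (u + u') = act X u + act X u' := by
    intro X u u'
    refine Prod.ext (map_add X _ _) ?_
    show -((u.2 + u'.2) ∘ₗ X) = -(u.2 ∘ₗ X) + -(u'.2 ∘ₗ X)
    rw [LinearMap.add_comp]
    abel
  have act_smul : ∀ X (c : K) u, act X (c • u) = c • act X u := by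
    intro X c u
    refine Prod.ext (map_smul X _ _) ?_
    show -((c • u.2) ∘ₗ X) = c • -(u.2 ∘ₗ X)
    rw [LinearMap.smul_comp, smul_neg]
  have act_comm : ∀ X Y u, act X (act Y u) = act Y (act X u) + act (X * Y - Y * X) u := by
    intro X Y u
    refine Prod.ext ?_ ?_
    · show X (Y u.1) = Y (X u.1) + (X * Y - Y * X) u.1
      rw [LinearMap.sub_apply, Module.End.mul_apply, Module.End.mul_apply]
      abel
    · show -((-(u.2 ∘ₗ Y)) ∘ₗ X) = -((-(u.2 ∘ₗ X)) ∘ₗ Y) + -(u.2 ∘ₗ (X * Y - Y * X))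
      refine LinearMap.ext fun v => ?_
      simp
  let x : (κ → K) × Module.Dual K (κ → K) := (Pi.single M 1, LinearMap.proj m)
  let W : ℕ → Set ((κ → K) × Module.Dual K (κ → K)) := fun n => Nat.rec {x}
    (fun _ S => {u' | ∃ Y ∈ L, (∀ v, Y v M = 0) ∧ Y (Pi.single m 1) = 0 ∧ ∃ u ∈ S, u' = act Y u}) n
  let U : Submodule K ((κ → K) × Module.Dual K (κ → K)) := Submodule.span K (⋃ n, W n)
  have hWU : ∀ n, ∀ u ∈ W n, u ∈ U := fun n u hu => Submodule.subset_span (Set.mem_iUnion.2 ⟨n, hu⟩)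
  have hxU : x ∈ U := hWU 0 x rfl
  have hlow : ∀ Y ∈ L, (∀ v, Y v M = 0) → Y (Pi.single m 1) = 0 → ∀ u ∈ U, act Y u ∈ U := by
    intro Y hY hY1 hY2 u hu
    induction hu using Submodule.span_induction with
    | mem u hu =>
      obtain ⟨n, hn⟩ := Set.mem_iUnion.1 hu
      exact hWU (n + 1) _ ⟨Y, hY, hY1, hY2, u, hn, rfl⟩
    | zero =>
      have : act Y 0 = 0 := by
        have := act_smul Y 0 0
        rwa [zero_smul, zero_smul] at this
      rw [this]
      exact U.zero_mem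
    | add u u' _ _ h h' => rw [act_add]; exact U.add_mem h h'
    | smul c u _ h => rw [act_smul]; exact U.smul_mem c h
  have hbase : ∀ Z ∈ L, act Z x ∈ U := by
    intro Z hZ
    obtain ⟨Z₁, h1, g, hg, Z₃, h3, he, a1, a2, a3, a4⟩ := split Z hZ
    have e1 : act Z x = act Z₁ x + g M • x := by
      refine Prod.ext ?_ ?_
      · show Z (Pi.single M 1) = Z₁ (Pi.single M 1) + g M • Pi.single M 1
        rw [he, LinearMap.add_apply, LinearMap.add_apply, a3, dg_single, add_zero]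
      · refine LinearMap.ext fun v => ?_
        show -(Z v m) = -(Z₁ v m) + g M * v m
        have h4 := sym_diag hL hirr htr hdiag hm hg
        rw [he, LinearMap.add_apply, LinearMap.add_apply, Pi.add_apply, Pi.add_apply, a4, dg_apply, h4]
        ring
    rw [e1]
    exact U.add_mem (hlow Z₁ h1 a1 a2 x hxU) (U.smul_mem _ hxU)
  have hW : ∀ n, ∀ u ∈ W n, ∀ Z ∈ L, act Z u ∈ U := by
    intro n
    induction n with
    | zero =>
      rintro u rfl
      exact hbase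
    | succ n ih =>
      rintro _ ⟨Y, hY, hY1, hY2, u, hu, rfl⟩ Z hZ
      rw [act_comm]
      exact U.add_mem (hlow Y hY hY1 hY2 _ (ih u hu Z hZ)) (ih u hu _ (hL Z hZ Y hY))
  have hU : ∀ X ∈ L, ∀ u ∈ U, act X u ∈ U := by
    intro X hX u hu
    induction hu using Submodule.span_induction with
    | mem u hu =>
      obtain ⟨n, hn⟩ := Set.mem_iUnion.1 hu
      exact hW n u hn X hX
    | zero =>
      have : act X 0 = 0 := by
        have := act_smul X 0 0
        rwa [zero_smul, zero_smul] at this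
      rw [this]
      exact U.zero_mem
    | add u u' _ _ h h' => rw [act_add]; exact U.add_mem h h'
    | smul c u _ h => rw [act_smul]; exact U.smul_mem c h
  have hB : ∀ u ∈ U, u.2 (Pi.single m 1) = u.1 M := by
    intro u hu
    induction hu using Submodule.span_induction with
    | mem u hu =>
      obtain ⟨n, hn⟩ := Set.mem_iUnion.1 hu
      cases n with
      | zero =>
        have : u = x := hn
        rw [this]
        show (Pi.single m (1 : K) : κ → K) m = (Pi.single M (1 : K) : κ → K) M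
        rw [Pi.single_eq_same, Pi.single_eq_same]
      | succ n =>
        obtain ⟨Y, hY, hY1, hY2, u', hu', rfl⟩ := hn
        show -(u'.2 (Y (Pi.single m 1))) = Y u'.1 M
        rw [hY1, hY2, map_zero, neg_zero]
    | zero => simp
    | add u u' _ _ h h' =>
      rw [Prod.fst_add, Prod.snd_add, LinearMap.add_apply, Pi.add_apply, h, h']
    | smul c u _ h =>
      rw [Prod.smul_fst, Prod.smul_snd, LinearMap.smul_apply, Pi.smul_apply, h]
  refine form_of_graph hirr U hU (e := Pi.single m 1) ?_ (fun φ hφ => ?_) hxU ?_ ?_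
  · intro h
    have := congrFun h m
    rw [Pi.single_eq_same] at this
    exact one_ne_zero this
  · have := hB _ hφ
    exact this
  · intro h
    have h1 : (Pi.single M (1 : K) : κ → K) = 0 := h
    have := congrFun h1 M
    rw [Pi.single_eq_same] at this
    exact one_ne_zero this
  · intro h
    have h1 : (LinearMap.proj m : (κ → K) →ₗ[K] K) = 0 := h
    have := LinearMap.congr_fun h1 (Pi.single m 1)
    rw [LinearMap.proj_apply, Pi.single_eq_same] at this
    exact one_ne_zero this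

/-- If the set of the weights is symmetric, there is a nonzero invariant bilinear form. -/
theorem TM.not_ns (h : TM L) (hsym : ∀ k, ∃ k', ∀ f ∈ Yo L, f k' = -f k) : ¬ NsL L := by
  intro hns
  obtain ⟨b, hb0, hb⟩ := exists_inv_form h.cmp.lie h.cmp.irr h.cmp.tr h.diag h.sep hsym
  exact hb0 (hns b hb)

end Pool.Agent.H25U
end

-- from Lib.H76Y.SimpleN
section

/-!
# The component theorem without a form, one ideal
-/

set_option autoImplicit false
set_option linter.unusedSectionVars false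
namespace Pool.Agent.H76Y
open Pool.Agent.H76P Pool.Agent.H76V Pool.Agent.H76Q
open Module Matrix Pool.Agent.H53Toric
open Pool.Agent.H76T (IsIdeal Fam)

variable {κ : Type*} [Fintype κ] [DecidableEq κ] {K : Type*} [Field K]

variable [CharZero K] {L : Submodule K (Module.End K (κ → K))}

variable [IsAlgClosed K] [Nonempty κ]

theorem CmpN.coreN (h : CmpN L) {I : Fin 1 → Submodule K (Module.End K (κ → K))} (hF : Fam L I) :
    H86N.CoreN L := by
  have hL : I 0 = L := by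
    rw [← hF.sup]
    apply le_antisymm
    · exact le_iSup I 0
    · apply iSup_le
      intro j
      rw [Subsingleton.elim j 0]
  exact { lie := h.lie
          irr := h.irr
          tr := h.tr
          simple := fun M hM hM' => by
            have h1 := hF.min 0 M ⟨hM, hM'⟩ (by rw [hL]; exact hM)
            rwa [hL] at h1 }

/-- A component which is simple and respects no form is everything, or its rank is a power of four. -/
theorem CmpN.simple (h : CmpN L) {I : Fin 1 → Submodule K (Module.End K (κ → K))} (hF : Fam L I)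
    (hns : NsL L) :
    ((∃ N ∈ L, N * N = 0 ∧ finrank K (LinearMap.range N) = 1) ∧
      ∀ X : Module.End K (κ → K), LinearMap.trace K (κ → K) X = 0 → X ∈ L) ∨
    (∃ m : ℕ, 4 ≤ m ∧ Even m ∧ Fintype.card κ = 2 ^ m ∧
      ∀ N ∈ L, N * N = 0 → N ≠ 0 → Fintype.card κ ≤ 4 * finrank K (LinearMap.range N)) := by
  have hcard : finrank K (κ → K) = Fintype.card κ := Module.finrank_fintype_fun_eq_card K
  have hcore := h.coreN hF
  obtain ⟨y, hy, hy2⟩ := h.inv_mem hF 0
  have hyL := (hF.ideal 0).1 hy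
  by_cases hnum : (∃ N ∈ L, N * N = 0 ∧ N ≠ 0 ∧ 4 * finrank K (LinearMap.range N) < finrank K (κ → K)) ∨
      (∀ m : ℕ, 4 ≤ m → Even m → finrank K (κ → K) ≠ 2 ^ m)
  · left
    obtain ⟨s', e, f, F, hr⟩ := H86N.coreNS hcore hns hyL hy2 hnum
    exact ⟨⟨e, F.e_mem.1, H86N.A2_pp F.e_mem F.e_mem, hr⟩, fun X hX => H86N.full_sl hcore F hr hns hX⟩
  · right
    push Not at hnum
    obtain ⟨h1, m, hm, hme, h2⟩ := hnum
    refine ⟨m, hm, hme, by rw [← hcard]; exact h2, fun N hN hN2 hN0 => ?_⟩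
    rw [← hcard]
    exact h1 N hN hN2 hN0

end Pool.Agent.H76Y
end

-- from Lib.H76Q.G10
section

/-!
# blocks: existence and counting
-/

set_option autoImplicit false
set_option linter.unusedSectionVars false
namespace Pool.Agent.H76Q
open Module Matrix Polynomial Pool.Agent.H53Toric
open Pool.Agent.H76P
open Pool.Agent.H76T (IsIdeal Fam Lc)
open Pool.Agent.H76V (Cmp)
open Pool.Agent.H76U (cmp preL IsSplitting)
open Pool.Agent.H76RM (spanK similD)

variable {κ : Type*} [Fintype κ] [DecidableEq κ] [Nonempty κ]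

/-- Projectors of product decompositions with the same classes are equal. -/
theorem g10_ext {Y : Submodule ℚ (κ → ℚ)} {P P' : Module.End ℚ Y} (h0 : ∀ f ∈ Y, ∑ k, f k = 0) (hP : Sp P)
    (hP' : Sp P') (h : ∀ k k', cz P k k' ↔ cz P' k k') (h' : ∀ k k', cz (1 - P) k k' ↔ cz (1 - P') k k') :
    P = P' := by
  have h1 : P' * P = P := by
    refine LinearMap.ext fun f => ?_
    have h2 : P (P f) = P f := congrArg (fun T : Module.End ℚ Y => T f) hP.idem
    have h3 : FunP P' ((P f : Y) : κ → ℚ) := fun k k' hk =>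
      (FunP_iff hP h0 (P f)).2 h2 k k' ((h k k').2 hk)
    exact (FunP_iff hP' h0 (P f)).1 h3
  have h2 : (1 - P') * (1 - P) = 1 - P := by
    refine LinearMap.ext fun f => ?_
    have h3 : (1 - P) ((1 - P) f) = (1 - P) f := congrArg (fun T : Module.End ℚ Y => T f) hP.compl.idem
    have h4 : FunP (1 - P') (((1 - P) f : Y) : κ → ℚ) := fun k k' hk =>
      (FunP_iff hP.compl h0 ((1 - P) f)).2 h3 k k' ((h' k k').2 hk)
    exact (FunP_iff hP'.compl h0 ((1 - P) f)).1 h4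
  refine LinearMap.ext fun f => ?_
  have h3 := congrArg (fun T : Module.End ℚ Y => T f) h2
  have h4 : P' (P f) = P f := congrArg (fun T : Module.End ℚ Y => T f) h1
  simp only [Module.End.mul_apply, LinearMap.sub_apply, Module.End.one_apply, map_sub, h4] at h3
  rw [sub_self, sub_zero] at h3
  exact (sub_right_inj.1 h3).symm

/-- The action of a permutation on a projector. -/
theorem g10_perm {Y : Submodule ℚ (κ → ℚ)} {P : Module.End ℚ Y} {σ : Equiv.Perm κ} (hσ : ∀ f ∈ Y, f ∘ σ ∈ Y)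
    (hP : Sp P) :
    ∃ (P' : Module.End ℚ Y) (s : Module.Dual ℚ Y ≃ₗ[ℚ] Module.Dual ℚ Y), Sp P' ∧ Aff (ptS Y) σ s ∧
      P'.dualMap = H76P.conj s P.dualMap ∧ MvP σ P P' := by
  obtain ⟨S, hS, hA⟩ := exists_S hσ
  set P' : Module.End ℚ Y := S.symm.toLinearMap ∘ₗ P ∘ₗ S.toLinearMap with hP'
  have hconj : P'.dualMap = H76P.conj S.dualMap P.dualMap := by
    ext u f
    rfl
  have hval : ∀ (Q Q' : Module.End ℚ Y), (∀ f, S (Q' f) = Q (S f)) →
      ∀ k k', cz Q k k' ↔ cz Q' (σ k) (σ k') := by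
    intro Q Q' hQ k k'
    have h1 : ∀ (f : Y) (x : κ), (Q' f : κ → ℚ) (σ x) = (Q (S f) : κ → ℚ) x := by
      intro f x
      rw [← hQ f, hS]
      rfl
    constructor
    · intro h f
      rw [h1, h1]
      exact h (S f)
    · intro h f
      have h2 := h (S.symm f)
      rwa [h1, h1, LinearEquiv.apply_symm_apply] at h2
  have hSP : ∀ f, S (P' f) = P (S f) := by
    intro f
    rw [hP']
    simp
  refine ⟨P', S.dualMap, ?_, hA, hconj, hval P P' hSP, hval (1 - P) (1 - P') fun f => ?_⟩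
  · rw [Sp_iff, hconj]
    exact (Sp_iff.1 hP).conj hA
  · rw [LinearMap.sub_apply, LinearMap.sub_apply, Module.End.one_apply, Module.End.one_apply, map_sub, hSP]

/-- PROOF. The sets `RP P` have the same number `c` of elements (`mv` in both directions), they partition `R`: `R.card = FF.card * c`.  All `cnt (ptS Y) P.dualMap` are equal (`cnt` is the number of classes of `cz P`; `MvP` gives a bijection of the
classes); `card_prod` (H76P/C3, its proof for orthogonal `Spl` with sum `1`): `card κ` is their product. -/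
theorem count_blocks {Y : Submodule ℚ (κ → ℚ)} (hs : ∀ g ∈ Y, ∑ k, g k = 0)
    (hsep : ∀ k l : κ, k ≠ l → ∃ g ∈ Y, g k ≠ g l)
    {FF : Finset (Module.End ℚ Y)} (hFF : ∀ P ∈ FF, Sp P ∧ P ≠ 0)
    (horth : ∀ P ∈ FF, ∀ P' ∈ FF, P ≠ P' → P * P' = 0) (hsum : ∑ P ∈ FF, P = 1)
    {Ω : Type*} {R : Finset Ω} {RP : Module.End ℚ Y → Finset Ω}
    (hR : ∀ P ∈ FF, RP P ⊆ R ∧ (RP P).Nonempty) (hcov : ∀ r ∈ R, ∃ P ∈ FF, r ∈ RP P)
    (hdisj : ∀ P ∈ FF, ∀ P' ∈ FF, ∀ r, r ∈ RP P → r ∈ RP P' → P = P')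
    (hmv : ∀ P ∈ FF, ∀ P' ∈ FF, ∃ π : Equiv.Perm κ, (∀ g ∈ Y, g ∘ π ∈ Y) ∧ MvP π P P' ∧
      (RP P).card ≤ (RP P').card) :
    ∃ a : ℕ, Fintype.card κ = a ^ FF.card ∧ FF.card ∣ R.card := by
  classical
  have hinj : Function.Injective fun P : Module.End ℚ Y => P.dualMap := fun P P' h => dualMap_inj h
  have hcard : (FF.image fun P => P.dualMap).card = FF.card := Finset.card_image_of_injective _ hinj
  have h1 : ∃ a : ℕ, Fintype.card κ = a ^ (FF.image fun P => P.dualMap).card := by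
    refine Pool.Agent.Lib.H86E.blocks_power (ptS_spans hs) (ptS_inj hsep) (fun q hq => ?_) (fun q hq r hr hne => ?_)
      ?_ fun q hq r hr => ?_
    · obtain ⟨P, hP, rfl⟩ := Finset.mem_image.1 hq
      exact Sp_iff.1 (hFF P hP).1
    · obtain ⟨P, hP, rfl⟩ := Finset.mem_image.1 hq
      obtain ⟨P', hP', rfl⟩ := Finset.mem_image.1 hr
      rw [← dualMap_mul, horth P' hP' P hP fun e => hne (by rw [e]), dualMap_zero]
    · rw [Finset.sum_image hinj.injOn, ← dualMap_sum, hsum, dualMap_one]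
    · obtain ⟨P, hP, rfl⟩ := Finset.mem_image.1 hq
      obtain ⟨P', hP', rfl⟩ := Finset.mem_image.1 hr
      obtain ⟨π, hπ, hmvP, -⟩ := hmv P hP P' hP'
      obtain ⟨P₂, s, hP₂, hA, hconj, hmv₂⟩ := g10_perm hπ (hFF P hP).1
      have h2 : P₂ = P' := by
        refine g10_ext hs hP₂ (hFF P' hP').1 (fun k k' => ?_) fun k k' => ?_
        · have h3 := (hmvP.1 (π.symm k) (π.symm k')).symm.trans (hmv₂.1 (π.symm k) (π.symm k'))
          rw [Equiv.apply_symm_apply, Equiv.apply_symm_apply] at h3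
          exact h3.symm
        · have h3 := (hmvP.2 (π.symm k) (π.symm k')).symm.trans (hmv₂.2 (π.symm k) (π.symm k'))
          rw [Equiv.apply_symm_apply, Equiv.apply_symm_apply] at h3
          exact h3.symm
      rw [h2] at hconj
      exact ⟨π, s, hA, hconj.symm⟩
  obtain ⟨a, ha⟩ := h1
  rw [hcard] at ha
  refine ⟨a, ha, ?_⟩
  -- the sets `RP P` partition `R`
  have hR' : R = FF.biUnion RP := by
    ext r
    rw [Finset.mem_biUnion]
    constructor
    · intro hr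
      obtain ⟨P, hP, hrP⟩ := hcov r hr
      exact ⟨P, hP, hrP⟩
    · rintro ⟨P, hP, hrP⟩
      exact (hR P hP).1 hrP
  have hdis : (FF : Set (Module.End ℚ Y)).PairwiseDisjoint RP := by
    intro P hP P' hP' hne
    refine Finset.disjoint_left.2 fun r hr hr' => hne (hdisj P hP P' hP' r hr hr')
  have hc : R.card = ∑ P ∈ FF, (RP P).card := by
    rw [hR']
    exact Finset.card_biUnion fun P hP P' hP' hne => hdis hP hP' hne
  rcases FF.eq_empty_or_nonempty with h0 | ⟨P₀, hP₀⟩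
  · rw [hc, h0, Finset.sum_empty, Finset.card_empty]
  · have h4 : ∀ P ∈ FF, (RP P).card = (RP P₀).card := by
      intro P hP
      obtain ⟨-, -, -, h2⟩ := hmv P hP P₀ hP₀
      obtain ⟨-, -, -, h3⟩ := hmv P₀ hP₀ P hP
      exact le_antisymm h2 h3
    rw [hc, Finset.sum_congr rfl h4, Finset.sum_const, smul_eq_mul]
    exact Dvd.intro _ rfl


/-- PROOF. Section 1 and 7 of PROOF.md.  `ptS Y` spans and is injective (`hs`, `hsep`).  `n ≠ 8`: `FF` = the `P` with `P.dualMap` an atom (`atoms_sum`, `exists_P`) with `cnt > 2`, and the sum of the atoms with `cnt = 2` if there are any.  `n = 8`: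
all atoms.  `Good`: let `TS L J`, `Yo L = Y`, `Fam L I`, `P_j` as in `exists_proj`; for an atom `q` `q P_j = q` or `q P_j = 0` (`Atom.le_or`); if `q P_j = q ≠ P_j` then `cnt q = 2` (`TS.atom_two`), so
`P_j` is an atom or a sum of atoms with `cnt = 2`.  The last statement: `FF = {1}` and `n ≠ 8`: `1` is an atom, or `n = 2 ^ k`, so `n = 2` (then `1` is an atom) or `n = 4`.  If `1` is an atom there is one ideal only, and `Cmp.simple` (H76V.VA5)
shows that `L` is full because of `two`, `binom`; `n = 4`, two ideals: `Cmp.four` (H76V.VA3). -/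
theorem exists_blocks {n : ℕ} (hn : 0 < n) {Y : Submodule ℚ (Fin n → ℚ)}
    (hs : ∀ g ∈ Y, ∑ k, g k = 0)
    (hsep : ∀ k l : Fin n, k ≠ l → ∃ g ∈ Y, g k ≠ g l)
    (two : ∀ k : ℕ, 4 ≤ k → n ≠ 2 ^ k) (binom : ∀ k : ℕ, 3 ≤ k → Odd k → n ≠ k.centralBinom) :
    ∃ FF : Finset (Module.End ℚ Y), (∀ P ∈ FF, Sp P ∧ P ≠ 0 ∧ Good P) ∧
      (∀ P ∈ FF, ∀ P' ∈ FF, P ≠ P' → P * P' = 0) ∧ ∑ P ∈ FF, P = 1 ∧
      (∀ π : Equiv.Perm (Fin n), (∀ g ∈ Y, g ∘ π ∈ Y) → ∀ P ∈ FF, ∃ P' ∈ FF, MvP π P P') ∧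
      (FF.card = 1 → ∀ (K : Type) [Field K] [CharZero K] [IsAlgClosed K]
        (L : Submodule K (Module.End K (Fin n → K))) (J : Matrix (Fin n) (Fin n) K),
        TS L J → Yo L = Y → ∀ X, adjE J X = -X → X ∈ L) := by
  classical
  have : Nonempty (Fin n) := ⟨⟨0, hn⟩⟩
  obtain ⟨B, hB, hsum, horth, hsp⟩ := exists_isBlock (Y := Y) hs
  refine ⟨B, fun P hP => ⟨(hsp P hP).1, (hsp P hP).2, ?_⟩, horth, hsum, fun π hπ P hP => ?_, fun h1 => ?_⟩
  · intro K _ _ _ L J hT hY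
    exact ((hB P).1 hP).comp hT hY
  · obtain ⟨P', -, hP', -, -, h1, h2⟩ := ((hB P).1 hP).perm hπ
    exact ⟨P', (hB P').2 hP', h1, h2⟩
  · intro K _ _ _ L J hT hY X hX
    refine full_of_one hT hY (isBlock_one hs hB h1) (fun k hk => ?_) (fun k hk hk' => ?_) hX
    · rw [Fintype.card_fin]
      exact two k hk
    · rw [Fintype.card_fin]
      exact binom k hk hk'


end Pool.Agent.H76Q
end

-- from Lib.H76Q.E6
section

/-!
# the reciprocity law at l
-/

set_option autoImplicit false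
set_option linter.unusedSectionVars false
namespace Pool.Agent.H76Q
open Module Matrix Polynomial Pool.Agent.H53Toric
open Pool.Agent.H76P
open Pool.Agent.H76T (IsIdeal Fam Lc)
open Pool.Agent.H76V (Cmp)
open Pool.Agent.H76U (cmp preL IsSplitting)
open Pool.Agent.H76RM (spanK similD)

/-- The linear forms given by the entries of `U * X * V`. -/
noncomputable def e6_w {ι : Type*} [Fintype ι] [DecidableEq ι] {K : Type*} [Field K] {n : ℕ}
    (U : Matrix ι (Fin n) K) (V : Matrix (Fin n) ι K) (p : ι × ι) :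
    Module.End K (Fin n → K) →ₗ[K] K where
  toFun X := (U * LinearMap.toMatrix' X * V) p.1 p.2
  map_add' X Y := by
    rw [map_add, Matrix.mul_add, Matrix.add_mul, Matrix.add_apply]
  map_smul' c X := by
    rw [map_smul, Matrix.mul_smul, Matrix.smul_mul, Matrix.smul_apply, RingHom.id_apply]

theorem e6_w_apply {ι : Type*} [Fintype ι] [DecidableEq ι] {K : Type*} [Field K] {n : ℕ}
    (U : Matrix ι (Fin n) K) (V : Matrix (Fin n) ι K) (p : ι × ι) (X : Module.End K (Fin n → K)) :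
    e6_w U V p X = (U * LinearMap.toMatrix' X * V) p.1 p.2 := rfl

theorem e6_can {ι : Type*} [Fintype ι] [DecidableEq ι] {K : Type*} [Field K] {n : ℕ}
    {U : Matrix ι (Fin n) K} {V : Matrix (Fin n) ι K} (hVU : V * U = 1)
    {X Y : Matrix (Fin n) (Fin n) K} (h : U * X * V = U * Y * V) : X = Y := by
  have h1 : ∀ Z : Matrix (Fin n) (Fin n) K, V * (U * Z * V) * U = Z := by
    intro Z
    calc V * (U * Z * V) * U = (V * U) * Z * (V * U) := by simp only [Matrix.mul_assoc]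
      _ = Z := by rw [hVU, Matrix.one_mul, Matrix.mul_one]
  rw [← h1 X, ← h1 Y, h]

theorem e6_mat {K : Type*} [Field K] {n : ℕ} (M : Matrix (Fin n) (Fin n) K) :
    LinearMap.toMatrix' (phi M) = M := by
  have h1 : (phi M : Module.End K (Fin n → K)) = Matrix.toLin' M := by
    refine LinearMap.ext fun v => ?_
    rw [phi_apply, Matrix.toLin'_apply]
  rw [h1, LinearMap.toMatrix'_toLin']

theorem e6_fix {L : Type*} [Field L] {ι : Type*} [Fintype ι] [DecidableEq ι]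
    (τ : AlgebraicClosure L ≃ₐ[L] AlgebraicClosure L) (M : Matrix ι ι L) :
    (M.map (algebraMap L (AlgebraicClosure L))).map τ.toRingEquiv =
      M.map (algebraMap L (AlgebraicClosure L)) := by
  ext a b
  exact τ.commutes _

theorem e6_sq {G : Type*} [Group G] {H : Type*} [Group H] (ρ : G →* H) {y : H}
    (hy : y ∈ Subgroup.closure (Set.range fun g => ρ g ^ 2)) :
    y ∈ Submonoid.closure (Set.range fun g => ρ g ^ 2) := by
  have h1 : y ∈ (Subgroup.closure (Set.range fun g => ρ g ^ 2)).toSubmonoid := hy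
  rw [Subgroup.closure_toSubmonoid] at h1
  have h2 : (Set.range fun g => ρ g ^ 2) ∪ (Set.range fun g => ρ g ^ 2)⁻¹ ⊆
      Set.range fun g => ρ g ^ 2 := by
    rintro z (hz | ⟨g, hg⟩)
    · exact hz
    · refine ⟨g⁻¹, ?_⟩
      show ρ g⁻¹ ^ 2 = z
      rw [map_inv, inv_pow]
      have h3 : ρ g ^ 2 = z⁻¹ := hg
      rw [h3, inv_inv]
  exact Submonoid.closure_mono h2 h1

/-- PROOF. Section 5 of PROOF.md.  Let `T` be the set of the pairs `(θ, τ)`, `τ` an automorphism of `K = AlgebraicClosure L` over `L`, `θ` as in `exists_theta` (E3) for the permutation `σ` of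
`hdec`, and `W` the set of the entries of `U * toMatrix' X * V` (they separate: `V * U = 1`).  `TSet L J P T W` (E2).  `A` = the set of the `phi (cmp U V (ρ g))`: they are pure tensors
(`gen_PT`) and fixed by `θ` (`(ρ g)^τ = ρ g`, `exists_theta`; `cmp` commutes with everything because `ρ g` commutes with `e`, `cmp_comm`).  `phi (cmp U V x)` is in the submonoid generated
by the squares (`hsq`: the subgroup generated by squares is the submonoid generated by squares; `cmp_mul`), `phi (cmp U V x) = dg (i ∘ a)` (`H76P.cmp_phi`, `phi_diag`).  `squares` (E2):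
`dg (i ∘ a) = u r`, multiplier `c ^ 2`, `θ u = u`, `τ c = c`.  `PT_diag` (C6): `u = dg u₀`, `lam_diag`: `u₀ k * u₀ (bar k) = c ^ 2`.  `Lift.eq_c` (D2): `u₀ k = c' * i (t k)`,
so `c ^ 2 = c' ^ 2 * i m`.  `θ u = u`: `τ (u₀ k) = u₀ (σ k)` (`Theta.diag`), `τ (i (t k)) = i (s (t k)) = i (t (σ k))` (`Lift.eqv`), so `τ c' = c'`.  `fixed_mem`: `c`, `c'` are in `L`. -/
theorem square_at {ι : Type*} [Fintype ι] [DecidableEq ι] {L : Type*} [Field L] [CharZero L]
    {G : Type*} [Group G] (ρ : G →* Matrix.GeneralLinearGroup ι L)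
    {J : Matrix ι ι (AlgebraicClosure L)} {H₀ : Subgroup G} {e : Matrix ι ι (AlgebraicClosure L)}
    {q : AlgebraicClosure L} {n : ℕ} {U : Matrix ι (Fin n) (AlgebraicClosure L)}
    {V : Matrix (Fin n) ι (AlgebraicClosure L)} {Ω : Type*} [Field Ω] [CharZero Ω]
    {a : Fin n → Ω} {i : Ω →+* AlgebraicClosure L} {Y : Submodule ℚ (Fin n → ℚ)} {σ₀ : G}
    (h : Loc J (img (AlgebraicClosure L) ρ H₀) (properProj (AlgebraicClosure L) ρ) e
      ((ρ σ₀).1.map (algebraMap L (AlgebraicClosure L))) q U V (fun k => i (a k)) Y)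
    (gen : ∀ g : G, (ρ g).1.map (algebraMap L (AlgebraicClosure L)) ∈
      tgen (AlgebraicClosure L) ρ)
    (hsq : ρ σ₀ ∈ Subgroup.closure (Set.range fun g => ρ g ^ 2))
    {P : Module.End ℚ Y} (hP : Sp P) (hc : Comp (Lc J (img (AlgebraicClosure L) ρ H₀) U V) P)
    (hJ : ∀ τ : AlgebraicClosure L ≃ₐ[L] AlgebraicClosure L, J.map τ = J)
    (he : ∀ τ : AlgebraicClosure L ≃ₐ[L] AlgebraicClosure L, e.map τ = e)
    (hdec : ∀ τ : AlgebraicClosure L ≃ₐ[L] AlgebraicClosure L, ∃ (s : Ω ≃+* Ω)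
      (σ : Equiv.Perm (Fin n)), (∀ y, τ (i y) = i (s y)) ∧ (∀ k, s (a k) = a (σ k)) ∧ StabP P σ)
    {t : Fin n → Ω} (ht : Lift P a t) {bar : Equiv.Perm (Fin n)}
    (hbar : ∀ k, i (a k) * i (a (bar k)) = q) {m : Ω} (hm : ∀ k, t k * t (bar k) = m) :
    SqIn L (i m) := by
  classical
  have hVU := h.VU
  have hne : Nonempty (Fin n) := ⟨⟨0, h.pos⟩⟩
  -- the semilinear automorphisms
  have hth : ∀ τ : AlgebraicClosure L ≃ₐ[L] AlgebraicClosure L,
      ∃ (θ : Module.End (AlgebraicClosure L) (Fin n → AlgebraicClosure L) ≃+*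
          Module.End (AlgebraicClosure L) (Fin n → AlgebraicClosure L)) (s : Ω ≃+* Ω)
        (σ : Equiv.Perm (Fin n)), (∀ y, τ (i y) = i (s y)) ∧ (∀ k, s (a k) = a (σ k)) ∧
        StabP P σ ∧ Theta (Lc J (img (AlgebraicClosure L) ρ H₀) U V) (Uᵀ * J * U) θ τ.toRingEquiv σ ∧
        ∀ X, (U * LinearMap.toMatrix' X * V).map τ.toRingEquiv = U * LinearMap.toMatrix' (θ X) * V := by
    intro τ
    obtain ⟨s, σ, h1, h2, h3⟩ := hdec τ
    obtain ⟨θ, h4, h5⟩ := exists_theta h (τ := τ.toRingEquiv) (he τ) (e6_fix τ _) (hJ τ)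
      (fun x hx => by
        obtain ⟨g, -, rfl⟩ := hx
        exact e6_fix τ _) (σ := σ) (fun k => by
        show τ (i (a k)) = i (a (σ k))
        rw [h1, h2])
    exact ⟨θ, s, σ, h1, h2, h3, h4, h5⟩
  choose θ s σ h1 h2 h3 h4 h5 using hth
  obtain ⟨T, hT⟩ : ∃ T : Set ((Module.End (AlgebraicClosure L) (Fin n → AlgebraicClosure L) ≃+*
      Module.End (AlgebraicClosure L) (Fin n → AlgebraicClosure L)) ×
      (AlgebraicClosure L ≃+* AlgebraicClosure L)),
      T = Set.range fun τ : AlgebraicClosure L ≃ₐ[L] AlgebraicClosure L => (θ τ, τ.toRingEquiv) := ⟨_, rfl⟩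
  obtain ⟨W, hW⟩ : ∃ W : Set (Module.End (AlgebraicClosure L) (Fin n → AlgebraicClosure L) →ₗ[AlgebraicClosure L]
      AlgebraicClosure L), W = Set.range (e6_w U V) := ⟨_, rfl⟩
  have hTS : TSet (Lc J (img (AlgebraicClosure L) ρ H₀) U V) (Uᵀ * J * U) P T W := by
    refine ⟨?_, ?_, ?_⟩
    · intro x hx
      rw [hT] at hx
      obtain ⟨τ, rfl⟩ := hx
      exact ⟨σ τ, h4 τ, h3 τ⟩
    · intro x hx w hw X
      rw [hT] at hx
      rw [hW] at hw
      obtain ⟨τ, rfl⟩ := hx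
      obtain ⟨p, rfl⟩ := hw
      rw [e6_w_apply, e6_w_apply, ← h5 τ X]
      rfl
    · intro X hX
      by_contra hcon
      push Not at hcon
      apply hX
      have h6 : U * LinearMap.toMatrix' X * V = U * (0 : Matrix (Fin n) (Fin n) (AlgebraicClosure L)) * V := by
        ext b b'
        rw [Matrix.mul_zero, Matrix.zero_mul, Matrix.zero_apply]
        exact hcon (e6_w U V (b, b')) (by rw [hW]; exact ⟨(b, b'), rfl⟩)
      have h7 := e6_can hVU h6
      exact LinearMap.toMatrix'.injective (by rw [h7, map_zero])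
  obtain ⟨A, hA⟩ : ∃ A : Set (Module.End (AlgebraicClosure L) (Fin n → AlgebraicClosure L)),
      A = Set.range fun g : G => phi (cmp U V ((ρ g).1.map (algebraMap L (AlgebraicClosure L)))) := ⟨_, rfl⟩
  have comm : ∀ g : G, (ρ g).1.map (algebraMap L (AlgebraicClosure L)) * e =
      e * (ρ g).1.map (algebraMap L (AlgebraicClosure L)) := fun g => cmp_comm h (gen g)
  have hAp : ∀ X ∈ A, (∃ u r t, PT (Lc J (img (AlgebraicClosure L) ρ H₀) U V) (Uᵀ * J * U) P X u r t) ∧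
      ∀ x ∈ T, x.1 X = X := by
    intro X hX
    rw [hA] at hX
    obtain ⟨g, rfl⟩ := hX
    refine ⟨gen_PT h hP hc (gen g), ?_⟩
    intro x hx
    rw [hT] at hx
    obtain ⟨τ, rfl⟩ := hx
    apply LinearMap.toMatrix'.injective
    apply e6_can hVU
    rw [← h5 τ, e6_mat, Pool.Agent.H76U.cmp_apply]
    have h6 : U * (V * (ρ g).1.map (algebraMap L (AlgebraicClosure L)) * U) * V =
        e * (ρ g).1.map (algebraMap L (AlgebraicClosure L)) * e := by
      rw [h.UV]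
      simp only [Matrix.mul_assoc]
    rw [h6]
    have h7 : (e * (ρ g).1.map (algebraMap L (AlgebraicClosure L)) * e).map τ.toRingEquiv =
        e.map τ.toRingEquiv * ((ρ g).1.map (algebraMap L (AlgebraicClosure L))).map τ.toRingEquiv *
          e.map τ.toRingEquiv := by
      rw [← Matrix.map_mul, ← Matrix.map_mul]
    have h8 : e.map τ.toRingEquiv = e := he τ
    rw [h7, h8, e6_fix]
  -- the element
  have hmul : ∀ g g' : G, phi (cmp U V ((ρ (g * g')).1.map (algebraMap L (AlgebraicClosure L)))) =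
      phi (cmp U V ((ρ g).1.map (algebraMap L (AlgebraicClosure L)))) *
        phi (cmp U V ((ρ g').1.map (algebraMap L (AlgebraicClosure L)))) := by
    intro g g'
    have h6 : (ρ (g * g')).1.map (algebraMap L (AlgebraicClosure L)) =
        (ρ g).1.map (algebraMap L (AlgebraicClosure L)) *
          (ρ g').1.map (algebraMap L (AlgebraicClosure L)) := by
      rw [map_mul, ← Matrix.map_mul]
      rfl
    rw [h6, Pool.Agent.H76U.cmp_mul h.UV hVU (comm g'), map_mul]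
  have hclo : ∀ y ∈ Submonoid.closure (Set.range fun g => ρ g ^ 2), (∃ g, y = ρ g) ∧
      phi (cmp U V (y.1.map (algebraMap L (AlgebraicClosure L)))) ∈
        Submonoid.closure {Z | ∃ X ∈ A, Z = X * X} := by
    intro y hy
    induction hy using Submonoid.closure_induction with
    | mem y hy =>
      obtain ⟨g, rfl⟩ := hy
      have h6 : ρ g ^ 2 = ρ (g * g) := by rw [map_mul, pow_two]
      refine ⟨⟨g * g, h6⟩, ?_⟩
      show phi (cmp U V ((ρ g ^ 2).1.map (algebraMap L (AlgebraicClosure L)))) ∈ _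
      rw [h6]
      apply Submonoid.subset_closure
      refine ⟨_, ?_, hmul g g⟩
      rw [hA]
      exact ⟨g, rfl⟩
    | one =>
      refine ⟨⟨1, (map_one _).symm⟩, ?_⟩
      have h6 : ((1 : Matrix.GeneralLinearGroup ι L)).1.map (algebraMap L (AlgebraicClosure L)) = 1 := by
        show (1 : Matrix ι ι L).map (algebraMap L (AlgebraicClosure L)) = 1
        rw [Matrix.map_one _ (map_zero _) (map_one _)]
      rw [h6, Pool.Agent.H76U.cmp_one h.UV hVU, map_one]
      exact Submonoid.one_mem _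
    | mul y y' _ _ ih ih' =>
      obtain ⟨⟨g, rfl⟩, h6⟩ := ih
      obtain ⟨⟨g', rfl⟩, h7⟩ := ih'
      refine ⟨⟨g * g', (map_mul _ _ _).symm⟩, ?_⟩
      rw [← map_mul, hmul]
      exact Submonoid.mul_mem _ h6 h7
  have hX := (hclo _ (e6_sq ρ hsq)).2
  obtain ⟨u, r, c, h6, hc0, hfix⟩ := squares h.ts h.yo hP hc hTS hAp hX
  rw [H76P.cmp_phi hVU h.ec, H76P.phi_diag] at h6
  obtain ⟨u₀, r₀, hu, hr, hfu, hfr, hprod⟩ := PT_diag h.ts h.yo hP hc h.ec.inj h6
  have hadj := h6.2.2.2.2.1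
  rw [hu] at hadj
  have hlam := lam_diag h.ts.cmp.Jd (pair_bar h hbar h.ec.ne) hadj
  have ha0 : ∀ k, a k ≠ 0 := by
    intro k h0
    apply h.ec.ne k
    rw [h0, map_zero]
  obtain ⟨c', hc', huc⟩ := Lift.eq_c ht ha0 hP (i := i) (u := u₀) (r := r₀) ⟨hprod, hfu, hfr⟩
  have hit : ∀ k, i (t k) ≠ 0 := fun k h0 => ht.ne k ((map_eq_zero i).1 h0)
  -- invariance
  have inv1 : ∀ τ : AlgebraicClosure L ≃ₐ[L] AlgebraicClosure L, τ c = c := by
    intro τ
    exact (hfix _ (by rw [hT]; exact ⟨τ, rfl⟩)).2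
  have inv2 : ∀ τ : AlgebraicClosure L ≃ₐ[L] AlgebraicClosure L, τ c' = c' := by
    intro τ
    have h7 := (hfix _ (by rw [hT]; exact ⟨τ, rfl⟩ : (θ τ, τ.toRingEquiv) ∈ T)).1
    have h8 : θ τ u = u := h7
    rw [hu, (h4 τ).diag] at h8
    have h9 := congrFun (H76P.dg_inj h8) (σ τ (Classical.arbitrary (Fin n)))
    simp only [Equiv.symm_apply_apply] at h9
    have h10 : τ (u₀ (Classical.arbitrary (Fin n))) = u₀ (σ τ (Classical.arbitrary (Fin n))) := h9
    rw [huc, huc, map_mul, h1 τ, ht.eqv (s τ) (σ τ) (h2 τ) (h3 τ)] at h10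
    exact mul_right_cancel₀ (hit _) h10
  obtain ⟨y, hy⟩ := fixed_mem inv1
  obtain ⟨y', hy'⟩ := fixed_mem inv2
  refine ⟨y / y', ?_⟩
  have h11 := hlam (Classical.arbitrary (Fin n))
  rw [huc, huc] at h11
  have h12 : c' ^ 2 * i m = c ^ 2 := by
    rw [← hm (Classical.arbitrary (Fin n)), ← h11, map_mul]
    ring
  have h13 : i m = c ^ 2 / c' ^ 2 := by
    rw [eq_div_iff (pow_ne_zero 2 hc'), mul_comm]
    exact h12
  rw [h13, hy, hy', map_div₀, div_pow]

end Pool.Agent.H76Q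
end

-- from Lib.H76Q.W1
section

/-!
# the eigenvalues
-/

set_option autoImplicit false
set_option linter.unusedSectionVars false
namespace Pool.Agent.H76Q
open Module Matrix Polynomial Pool.Agent.H53Toric
open Pool.Agent.H76P
open Pool.Agent.H76T (IsIdeal Fam Lc)
open Pool.Agent.H76V (Cmp)
open Pool.Agent.H76U (cmp preL IsSplitting)
open Pool.Agent.H76RM (spanK similD)

variable {ι : Type*} [Fintype ι] [DecidableEq ι] {ψ : Matrix ι ι ℚ}
    {D : Subalgebra ℚ (Matrix ι ι ℚ)} {M : Type*} [Field M] [NumberField M]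
    {m : ℕ} {e : Fin m → Matrix ι ι M} {G : Type*} [Group G]
    {ρ : ∀ (l : ℕ) [Fact l.Prime], G →* Matrix.GeneralLinearGroup ι ℚ_[l]}
    {p : ℕ} [Fact p.Prime] {σ : G} {q : ℚ} {f : ℚ[X]} {F : Fin m → M[X]}
    {φ μ ν : Matrix ι ι (AlgebraicClosure ℚ_[p])} {v : AlgebraicClosure ℚ_[p] → ℚ}
    {Δ : Set (AlgebraicClosure ℚ_[p] ≃+* AlgebraicClosure ℚ_[p])}
    {Ω : Type*} [Field Ω] [CharZero Ω] [IsAlgClosed Ω] [Algebra.IsAlgebraic ℚ Ω] {j : M →+* Ω}
    {R : Finset Ω} {N : Set ℕ} (C : Core2 ψ D e ρ p σ q f F φ μ ν v Δ j R N)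

include C

theorem w1_lin (s : G) : ∀ d ∈ D, (ρ p s).1.map (algebraMap ℚ_[p] (AlgebraicClosure ℚ_[p])) *
      d.map (algebraMap ℚ (AlgebraicClosure ℚ_[p])) =
      d.map (algebraMap ℚ (AlgebraicClosure ℚ_[p])) *
        (ρ p s).1.map (algebraMap ℚ_[p] (AlgebraicClosure ℚ_[p])) := by
  intro d hd
  have h1 := congrArg (fun m : Matrix ι ι ℚ_[p] => m.map (algebraMap ℚ_[p] (AlgebraicClosure ℚ_[p])))
    (C.lin p s d hd)
  have h2 : (d.map (algebraMap ℚ ℚ_[p])).map (algebraMap ℚ_[p] (AlgebraicClosure ℚ_[p])) =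
      d.map (algebraMap ℚ (AlgebraicClosure ℚ_[p])) := by
    ext i j
    simp
  simp only [Matrix.map_mul] at h1
  rw [h2] at h1
  exact h1

theorem w1_phiD : ∀ d ∈ spanK (AlgebraicClosure ℚ_[p]) D, φ * d = d * φ := by
  intro d hd
  refine Pool.Agent.H76RM.zar_commute ?_ (C.frobp.idc.2 ⊤ inferInstance)
  rintro _ ⟨s, -, rfl⟩
  exact Pool.Agent.H76RM.comm_span (w1_lin C s) d hd

theorem w1_ne (i : Ω →+* AlgebraicClosure ℚ_[p]) (b : Fin m) {a : Ω}
    (ha : (F b).eval₂ j a = 0) : i a ≠ 0 := by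
  intro h0
  have h1 : (F b).eval₂ (i.comp j) (i a) = 0 := by
    rw [← Polynomial.hom_eval₂, ha, map_zero]
  obtain ⟨z, hz, -, hφ⟩ := (C.frobp.eig (i.comp j) b (i a)).2 h1
  rw [h0, zero_smul] at hφ
  exact hz (Matrix.eq_zero_of_mulVec_eq_zero C.frobp.idc.1 hφ)

/-- PROOF. If `a ≠ a'` then `v (i a) ≠ v (i a')` for some `i` (`C.gal`), but `N v (i a) = v (i (a ^ N)) = N v (i a')` (`IsVal.basic`; the roots are not `0`, because `φ` is invertible). -/
theorem Core2.tor (b : Fin m) {a a' : Ω} (ha : (F b).eval₂ j a = 0) (ha' : (F b).eval₂ j a' = 0)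
    {n : ℕ} (hn : n ≠ 0) (h : a ^ n = a' ^ n) : a = a' := by
  by_contra hne
  obtain ⟨i, hi⟩ := C.gal b a a' ha ha' hne
  have hb := (IsVal.basic C.crys.val).2.2.2
  have h1 := hb _ (w1_ne C i b ha) n
  have h2 := hb _ (w1_ne C i b ha') n
  rw [← map_pow, h, map_pow, h2] at h1
  have hn' : (n : ℚ) ≠ 0 := Nat.cast_ne_zero.2 hn
  exact hi (mul_left_cancel₀ hn' h1).symm

/-- PROOF. `exists_enum` (A6) for `φ` and any `i : Ω →+* closure of ℚ_[p]` (`IsAlgClosed.lift`); `φ` commutes with `(e b).map _` (`C.frobp.idc`, `C.lin`, as in `at_p`, H76P/G15). -/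
theorem Core2.enum (b : Fin m) : ∃ a : Fin (e b).rank → Ω, Function.Injective a ∧
      ∀ y : Ω, (F b).eval₂ j y = 0 ↔ ∃ k, y = a k := by
  let i : Ω →+* AlgebraicClosure ℚ_[p] :=
    (IsAlgClosed.lift (R := ℚ) (S := Ω) (M := AlgebraicClosure ℚ_[p])).toRingHom
  have hspl : IsSplitting D ψ id (fun c => (e c).map (i.comp j)) := C.hspl.map (i.comp j)
  exact exists_enum C.frobp j i b (C.hspl.idem b) (w1_phiD C _ (hspl.mem b)).symm

end Pool.Agent.H76Q
end

-- from Lib.H76Q.W2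
section

/-!
# the local data
-/

set_option autoImplicit false

/-!
# the local data
-/
set_option linter.unusedSectionVars false
namespace Pool.Agent.H76Q
open Module Matrix Polynomial Pool.Agent.H53Toric
open Pool.Agent.H76P
open Pool.Agent.H76T (IsIdeal Fam Lc)
open Pool.Agent.H76V (Cmp)
open Pool.Agent.H76U (cmp preL IsSplitting)
open Pool.Agent.H76RM (spanK similD)

variable {ι : Type*} [Fintype ι] [DecidableEq ι] {ψ : Matrix ι ι ℚ}
    {D : Subalgebra ℚ (Matrix ι ι ℚ)} {M : Type*} [Field M] [NumberField M]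
    {m : ℕ} {e : Fin m → Matrix ι ι M} {G : Type*} [Group G]
    {ρ : ∀ (l : ℕ) [Fact l.Prime], G →* Matrix.GeneralLinearGroup ι ℚ_[l]}
    {p : ℕ} [Fact p.Prime] {σ : G} {q : ℚ} {f : ℚ[X]} {F : Fin m → M[X]}
    {φ μ ν : Matrix ι ι (AlgebraicClosure ℚ_[p])} {v : AlgebraicClosure ℚ_[p] → ℚ}
    {Δ : Set (AlgebraicClosure ℚ_[p] ≃+* AlgebraicClosure ℚ_[p])}
    {Ω : Type*} [Field Ω] [CharZero Ω] [IsAlgClosed Ω] [Algebra.IsAlgebraic ℚ Ω] {j : M →+* Ω}
    {R : Finset Ω} {N : Set ℕ} (C : Core2 ψ D e ρ p σ q f F φ μ ν v Δ j R N)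

include C

/-- PROOF. `mk_loc` (A7) with `H76RM.exists_prime` (see `lie_p` in H76P/G12); `Core2.tor`. -/
theorem Core2.locp (b : Fin m)
    {n : ℕ} {a : Fin n → Ω} (ha : Function.Injective a)
    (hroot : ∀ y : Ω, (F b).eval₂ j y = 0 ↔ ∃ k, y = a k)
    (i : Ω →+* AlgebraicClosure ℚ_[p]) :
    ∃ (H₀ : Subgroup G) (U : Matrix ι (Fin n) (AlgebraicClosure ℚ_[p]))
      (V : Matrix (Fin n) ι (AlgebraicClosure ℚ_[p])), H₀.FiniteIndex ∧
      Loc (ψ.map (algebraMap ℚ (AlgebraicClosure ℚ_[p]))) (img (AlgebraicClosure ℚ_[p]) (ρ p) H₀)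
        (properProj (AlgebraicClosure ℚ_[p]) (ρ p)) ((e b).map (i.comp j)) φ
        (algebraMap ℚ (AlgebraicClosure ℚ_[p]) q) U V (fun k => i (a k)) (YS a) := by
  obtain ⟨H₀, -, hfin, hprime⟩ := H76RM.exists_prime (K := AlgebraicClosure ℚ_[p]) (ρ p) ⊤ inferInstance
  obtain ⟨U, V, hL⟩ := mk_loc C.hψ C.hψ0 D (ρ p) (C.lin p) (C.sim p) (C.semis p) (C.commt p) (C.gen p) C.hspl
    C.frobp C.multp hfin hprime j i b ha hroot (fun k l N hN h =>
      ha (C.tor b ((hroot _).2 ⟨k, rfl⟩) ((hroot _).2 ⟨l, rfl⟩) hN h))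
  exact ⟨H₀, U, V, hfin, hL⟩

/-- PROOF. The same for `l ≠ p`; `C.mult` mapped to the closure. -/
theorem Core2.locl (b : Fin m)
    {n : ℕ} {a : Fin n → Ω} (ha : Function.Injective a)
    (hroot : ∀ y : Ω, (F b).eval₂ j y = 0 ↔ ∃ k, y = a k)
    (l : ℕ) [Fact l.Prime] (hl : l ≠ p) (i : Ω →+* AlgebraicClosure ℚ_[l]) :
    ∃ (H₀ : Subgroup G) (U : Matrix ι (Fin n) (AlgebraicClosure ℚ_[l]))
      (V : Matrix (Fin n) ι (AlgebraicClosure ℚ_[l])), H₀.FiniteIndex ∧
      Loc (ψ.map (algebraMap ℚ (AlgebraicClosure ℚ_[l]))) (img (AlgebraicClosure ℚ_[l]) (ρ l) H₀)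
        (properProj (AlgebraicClosure ℚ_[l]) (ρ l)) ((e b).map (i.comp j))
        ((ρ l σ).1.map (algebraMap ℚ_[l] (AlgebraicClosure ℚ_[l])))
        (algebraMap ℚ (AlgebraicClosure ℚ_[l]) q) U V (fun k => i (a k)) (YS a) := by
  obtain ⟨H₀, -, hfin, hprime⟩ := H76RM.exists_prime (K := AlgebraicClosure ℚ_[l]) (ρ l) ⊤ inferInstance
  have hmult : ((ρ l σ).1.map (algebraMap ℚ_[l] (AlgebraicClosure ℚ_[l])))ᵀ *
      ψ.map (algebraMap ℚ (AlgebraicClosure ℚ_[l])) * (ρ l σ).1.map (algebraMap ℚ_[l] (AlgebraicClosure ℚ_[l])) =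
      algebraMap ℚ (AlgebraicClosure ℚ_[l]) q • ψ.map (algebraMap ℚ (AlgebraicClosure ℚ_[l])) := by
    have h1 := congrArg (fun m : Matrix ι ι ℚ_[l] => m.map (algebraMap ℚ_[l] (AlgebraicClosure ℚ_[l]))) (C.mult l hl)
    have h2 : (ψ.map (algebraMap ℚ ℚ_[l])).map (algebraMap ℚ_[l] (AlgebraicClosure ℚ_[l])) =
        ψ.map (algebraMap ℚ (AlgebraicClosure ℚ_[l])) := by
      ext i j
      simp
    have h3 : (algebraMap ℚ ℚ_[l] q • ψ.map (algebraMap ℚ ℚ_[l])).map
        (algebraMap ℚ_[l] (AlgebraicClosure ℚ_[l])) =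
        algebraMap ℚ (AlgebraicClosure ℚ_[l]) q • ψ.map (algebraMap ℚ (AlgebraicClosure ℚ_[l])) := by
      ext i j
      simp
    simp only [Matrix.map_mul] at h1
    rw [h2, h3, Matrix.transpose_map] at h1
    exact h1
  obtain ⟨U, V, hL⟩ := mk_loc C.hψ C.hψ0 D (ρ l) (C.lin l) (C.sim l) (C.semis l) (C.commt l) (C.gen l) C.hspl
    (C.frob l hl) hmult hfin hprime j i b ha hroot (fun k l N hN h =>
      ha (C.tor b ((hroot _).2 ⟨k, rfl⟩) ((hroot _).2 ⟨l, rfl⟩) hN h))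
  exact ⟨H₀, U, V, hfin, hL⟩

end Pool.Agent.H76Q
end

-- from Lib.H76Q.W3
section

/-!
# the lift
-/

set_option autoImplicit false
set_option linter.unusedSectionVars false
namespace Pool.Agent.H76Q
open Module Matrix Polynomial Pool.Agent.H53Toric
open Pool.Agent.H76P
open Pool.Agent.H76T (IsIdeal Fam Lc)
open Pool.Agent.H76V (Cmp)
open Pool.Agent.H76U (cmp preL IsSplitting)
open Pool.Agent.H76RM (spanK similD)

variable {ι : Type*} [Fintype ι] [DecidableEq ι] {ψ : Matrix ι ι ℚ}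
    {D : Subalgebra ℚ (Matrix ι ι ℚ)} {M : Type*} [Field M] [NumberField M]
    {m : ℕ} {e : Fin m → Matrix ι ι M} {G : Type*} [Group G]
    {ρ : ∀ (l : ℕ) [Fact l.Prime], G →* Matrix.GeneralLinearGroup ι ℚ_[l]}
    {p : ℕ} [Fact p.Prime] {σ : G} {q : ℚ} {f : ℚ[X]} {F : Fin m → M[X]}
    {φ μ ν : Matrix ι ι (AlgebraicClosure ℚ_[p])} {v : AlgebraicClosure ℚ_[p] → ℚ}
    {Δ : Set (AlgebraicClosure ℚ_[p] ≃+* AlgebraicClosure ℚ_[p])}
    {Ω : Type*} [Field Ω] [CharZero Ω] [IsAlgClosed Ω] [Algebra.IsAlgebraic ℚ Ω] {j : M →+* Ω}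
    {R : Finset Ω} {N : Set ℕ} (C : Core2 ψ D e ρ p σ q f F φ μ ν v Δ j R N)

include C

/-- PROOF. `Core2.locp`, `exists_bar` (E4); `i` is injective. -/
theorem Core2.bar (b : Fin m)
    {n : ℕ} {a : Fin n → Ω} (ha : Function.Injective a)
    (hroot : ∀ y : Ω, (F b).eval₂ j y = 0 ↔ ∃ k, y = a k) :
    ∃ bar : Equiv.Perm (Fin n), ∀ k, a k * a (bar k) = algebraMap ℚ Ω q := by
  let i : Ω →+* AlgebraicClosure ℚ_[p] :=
    (IsAlgClosed.lift (R := ℚ) (S := Ω) (M := AlgebraicClosure ℚ_[p])).toRingHom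
  obtain ⟨H₀, U, V, -, hL⟩ := C.locp b ha hroot i
  obtain ⟨bar, hbar⟩ := exists_bar hL
  refine ⟨bar, fun k => i.injective ?_⟩
  rw [map_mul, hbar k, eq_ratCast, eq_ratCast, map_ratCast]

/-- Local data with multiplier at `p`. PROOF. `Core2.locp`, `gen_PT` (E4) for `φ` (`C.crys.phigen`), `H76P.cmp_phi`, `phi_diag`, `PT_diag`, `lam_diag` (C6), `pair_bar` (E4). -/
theorem Core2.ld (b : Fin m)
    {n : ℕ} {a : Fin n → Ω} (ha : Function.Injective a)
    (hroot : ∀ y : Ω, (F b).eval₂ j y = 0 ↔ ∃ k, y = a k)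
    {bar : Equiv.Perm (Fin n)} (hbar : ∀ k, a k * a (bar k) = algebraMap ℚ Ω q)
    {P : Module.End ℚ (YS a)} (hP : Sp P) (hg : Good P) (i : Ω →+* AlgebraicClosure ℚ_[p]) :
    ∃ (u r : Fin n → AlgebraicClosure ℚ_[p]) (t : AlgebraicClosure ℚ_[p]), LD P a i u r ∧
      ∀ k, u k * u (bar k) = t := by
  obtain ⟨H₀, U, V, -, hL⟩ := C.locp b ha hroot i
  have hc : Comp (Lc (ψ.map (algebraMap ℚ (AlgebraicClosure ℚ_[p])))
      (img (AlgebraicClosure ℚ_[p]) (ρ p) H₀) U V) P :=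
    hg (AlgebraicClosure ℚ_[p]) _ _ hL.ts hL.yo
  obtain ⟨u, r, t, hPT⟩ := gen_PT hL hP hc C.crys.phigen
  rw [cmp_phi hL.VU hL.ec, phi_diag] at hPT
  have hne : Nonempty (Fin n) := ⟨⟨0, hL.pos⟩⟩
  obtain ⟨u₀, r₀, hu, hr, fu, fr, hprod⟩ := PT_diag hL.ts hL.yo hP hc hL.ec.inj hPT
  have hadj := hPT.2.2.2.2.1
  rw [hu] at hadj
  have hbar' : ∀ k, i (a k) * i (a (bar k)) = algebraMap ℚ (AlgebraicClosure ℚ_[p]) q := by
    intro k
    rw [← map_mul, hbar k, eq_ratCast, eq_ratCast, map_ratCast]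
  refine ⟨u₀, r₀, t, ⟨hprod, fu, fr⟩, ?_⟩
  exact lam_diag hL.ts.cmp.Jd (pair_bar hL hbar' hL.ec.ne) hadj

end Pool.Agent.H76Q
end

-- from Lib.H76Q.F7
section

/-!
# inertia preserves the factors
-/

set_option autoImplicit false
set_option linter.unusedSectionVars false
namespace Pool.Agent.H76Q
open Module Matrix Polynomial Pool.Agent.H53Toric
open Pool.Agent.H76P
open Pool.Agent.H76T (IsIdeal Fam Lc)
open Pool.Agent.H76V (Cmp)
open Pool.Agent.H76U (cmp preL IsSplitting)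
open Pool.Agent.H76RM (spanK similD)

variable {ι : Type*} [Fintype ι] [DecidableEq ι] {K : Type*} [Field K] [CharZero K]
  [IsAlgClosed K] {J : Matrix ι ι K} {S 𝓗 : Set (Matrix ι ι K)} {e x : Matrix ι ι K} {q : K} {n : ℕ}
  {U : Matrix ι (Fin n) K} {V : Matrix (Fin n) ι K} {d : Fin n → K}
  {Y : Submodule ℚ (Fin n → ℚ)}

theorem f7_map_add (τ : K ≃+* K) {m n : Type*} (A B : Matrix m n K) :
    (A + B).map τ = A.map τ + B.map τ := by
  ext i j
  exact map_add τ _ _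

theorem f7_map_smul (τ : K ≃+* K) {m n : Type*} (c : K) (A : Matrix m n K) :
    (c • A).map τ = τ c • A.map τ := by
  ext i j
  exact map_mul τ _ _

theorem f7_map_one (τ : K ≃+* K) : (1 : Matrix ι ι K).map τ = 1 :=
  Matrix.map_one τ (map_zero τ) (map_one τ)

theorem f7_map_mul (τ : K ≃+* K) (A B : Matrix ι ι K) : (A * B).map τ = A.map τ * B.map τ := by
  have := Matrix.map_mul (f := (τ : K →+* K)) (L := A) (M := B)
  exact this

/-- The subspace of `zlie S` attached to an ideal. -/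
noncomputable def f7_I (S : Set (Matrix ι ι K)) (U : Matrix ι (Fin n) K) (V : Matrix (Fin n) ι K)
    (I' : Submodule K (Module.End K (Fin n → K))) : Submodule K (Matrix ι ι K) where
  carrier := {C | C ∈ zlie S ∧ ∃ c : K, phi (cmp U V (C - c • 1)) ∈ I'}
  add_mem' := by
    rintro A B ⟨hA, a, ha⟩ ⟨hB, b, hb⟩
    refine ⟨(zlie S).add_mem hA hB, a + b, ?_⟩
    have h1 : A + B - (a + b) • (1 : Matrix ι ι K) = (A - a • 1) + (B - b • 1) := by module
    rw [h1, map_add, map_add]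
    exact I'.add_mem ha hb
  zero_mem' := by
    refine ⟨(zlie S).zero_mem, 0, ?_⟩
    rw [zero_smul, sub_zero, map_zero, map_zero]
    exact I'.zero_mem
  smul_mem' := by
    rintro r A ⟨hA, a, ha⟩
    refine ⟨(zlie S).smul_mem r hA, r * a, ?_⟩
    have h1 : r • A - (r * a) • (1 : Matrix ι ι K) = r • (A - a • 1) := by module
    rw [h1, map_smul, map_smul]
    exact I'.smul_mem r ha

theorem f7_mem {I' : Submodule K (Module.End K (Fin n → K))} {C : Matrix ι ι K} :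
    C ∈ f7_I S U V I' ↔ C ∈ zlie S ∧ ∃ c : K, phi (cmp U V (C - c • 1)) ∈ I' := Iff.rfl

/-- PROOF. Let `I'` be an ideal of `L = Lc J S U V` and `I₂ = {C ∈ zlie S | ∃ c, phi (cmp U V (C - c • 1)) ∈ I'}`, a subspace of `zlie S`, stable under brackets (`h.lie`; the bracket of
`X' + c`, `X' ∈ L`, with `X + c'`, `X ∈ I'`, is in `I'`).  Let `X ∈ I'`: `X = phi (cmp U V A)`, `A ∈ preL J S` (`mem_Lc`, `mem_Lb`), `A = C + c • 1`, `C ∈ zlie S`, so `C ∈ I₂`; by `hid`
`C.map τ ∈ I₂`, so `phi (cmp U V (C.map τ - c' • 1)) ∈ I'` for some `c'`.  By `hθU` `θ X = phi (cmp U V (A.map τ)) = phi (cmp U V (C.map τ)) + τ c`, so `θ X - c'' • 1 ∈ I'` for some `c''`.  `θ X ∈ L` and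
`I' ≤ L`, so `c'' • 1 ∈ L` is skew, so `0` (`H76T.scalar_skew` with `h.ts.cmp`). -/
theorem theta_ideal (h : Loc J S 𝓗 e x q U V d Y) {τ : K ≃+* K} (he : e.map τ = e)
    {θ : Module.End K (Fin n → K) ≃+* Module.End K (Fin n → K)} {σ : Equiv.Perm (Fin n)}
    (hθ : Theta (Lc J S U V) (Uᵀ * J * U) θ τ σ)
    (hθU : ∀ X, (U * LinearMap.toMatrix' X * V).map τ = U * LinearMap.toMatrix' (θ X) * V)
    (hid : ∀ I : Submodule K (Matrix ι ι K), I ≤ zlie S → adStable (zlie S) I →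
      ∀ X ∈ I, X.map τ ∈ I) :
    ∀ I, IsIdeal (Lc J S U V) I → ∀ X ∈ I, θ X ∈ I := by
  intro I' hI X hX
  have hmulp : ∀ A B : Matrix (Fin n) (Fin n) K, phi (A * B) = phi A * phi B := fun A B => map_mul phi A B
  have hcm : ∀ A C : Matrix ι ι K, C * e = e * C → cmp U V (A * C) = cmp U V A * cmp U V C :=
    fun A C hC => H76U.cmp_mul h.UV h.VU hC
  have hone : cmp U V (1 : Matrix ι ι K) = 1 := H76U.cmp_one h.UV h.VU
  have hst : adStable (zlie S) (f7_I S U V I') := by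
    intro C hC A hA
    obtain ⟨hA1, a, hA2⟩ := f7_mem.1 hA
    obtain ⟨hCe, c, hc⟩ := h.lie C hC
    obtain ⟨hAe, -⟩ := h.lie A hA1
    refine f7_mem.2 ⟨zlie_comm hC hA1, 0, ?_⟩
    have e1 : C * A - A * C - (0 : K) • (1 : Matrix ι ι K) = C * A - A * C := by
      rw [zero_smul, sub_zero]
    rw [e1]
    have e2 : phi (cmp U V (C * A - A * C)) =
        phi (cmp U V (C - c • 1)) * phi (cmp U V (A - a • 1)) -
          phi (cmp U V (A - a • 1)) * phi (cmp U V (C - c • 1)) := by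
      rw [map_sub (cmp U V), hcm C A hAe, hcm A C hCe, map_sub (cmp U V), map_sub (cmp U V),
        map_smul (cmp U V), map_smul (cmp U V), hone, ← hmulp, ← hmulp, ← map_sub]
      congr 1
      simp only [mul_sub, sub_mul, smul_mul_assoc, mul_smul_comm, one_mul, mul_one]
      module
    rw [e2]
    exact hI.2 _ hc _ hA2
  have hle : f7_I S U V I' ≤ zlie S := fun C hC => hC.1
  -- a preimage of `X`
  obtain ⟨Z, hZ⟩ : ∃ Z : Matrix (Fin n) (Fin n) K, phi Z = X := (phi (ι := Fin n) (K := K)).surjective X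
  have hXL := hI.1 hX
  have hXb := (H76T.mem_Lc.1 hXL).1
  rw [← hZ] at hXb
  obtain ⟨A, hA, hAZ⟩ := H76U.mem_Lb.1 hXb
  obtain ⟨⟨c, C, hC, hAC⟩, -⟩ := hA
  have hCI : C ∈ f7_I S U V I' := by
    refine f7_mem.2 ⟨hC, -c, ?_⟩
    have e1 : C - (-c) • (1 : Matrix ι ι K) = A := by
      rw [hAC]
      module
    rw [e1, hAZ, hZ]
    exact hX
  obtain ⟨hC', c', hc'⟩ := f7_mem.1 (hid _ hle hst C hCI)
  -- the image of `X`
  have hCe := (h.lie C hC).1
  have hAe : A * e = e * A := by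
    rw [hAC, add_mul, mul_add, hCe, smul_mul_assoc, mul_smul_comm, one_mul, mul_one]
  have htm : ∀ M : Matrix (Fin n) (Fin n) K, LinearMap.toMatrix' (phi M) = M := fun M =>
    LinearMap.toMatrix'_toLin' M
  have hUAV : U * LinearMap.toMatrix' X * V = A * e := by
    rw [← hZ, htm, ← hAZ]
    rw [H76U.P_cmp h.UV h.VU hAe, Matrix.mul_assoc, ← h.UV]
  have hAτe : A.map τ * e = e * A.map τ := by
    have h1 := congrArg (fun M : Matrix ι ι K => M.map τ) hAe
    simp only [f7_map_mul, he] at h1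
    exact h1
  obtain ⟨W, hW⟩ : ∃ W : Matrix (Fin n) (Fin n) K, phi W = θ X :=
    (phi (ι := Fin n) (K := K)).surjective (θ X)
  have hθX : W = cmp U V (A.map τ) := by
    have h1 := hθU X
    rw [hUAV, f7_map_mul, he, ← hW, htm] at h1
    have h2 : V * (U * W * V) * U = W := by
      calc V * (U * W * V) * U = (V * U) * W * (V * U) := by simp only [Matrix.mul_assoc]
        _ = W := by rw [h.VU, Matrix.one_mul, Matrix.mul_one]
    have h3 : V * (A.map τ * e) * U = cmp U V (A.map τ) := by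
      rw [H76U.cmp_apply]
      have h4 : e * U = U := H76U.p_P h.UV h.VU
      calc V * (A.map τ * e) * U = V * A.map τ * (e * U) := by simp only [Matrix.mul_assoc]
        _ = V * A.map τ * U := by rw [h4]
    rw [← h2, ← h1, h3]
  have hAτ : A.map τ = C.map τ + τ c • 1 := by
    rw [hAC, f7_map_add, f7_map_smul, f7_map_one]
  have hdec : θ X = phi (cmp U V (C.map τ - c' • 1)) + (c' + τ c) • 1 := by
    rw [← hW, hθX, hAτ]
    have e1 : C.map τ + τ c • (1 : Matrix ι ι K) = (C.map τ - c' • 1) + (c' + τ c) • 1 := by module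
    rw [e1, map_add, map_add, map_smul, map_smul, hone, map_one]
  have hθL : θ X ∈ Lc J S U V := (hθ.mem X).2 hXL
  have hsc : ((c' + τ c) • (1 : Module.End K (Fin n → K))) ∈ Lc J S U V := by
    have e1 : ((c' + τ c) • (1 : Module.End K (Fin n → K))) =
        θ X - phi (cmp U V (C.map τ - c' • 1)) := by
      rw [hdec]
      abel
    rw [e1]
    exact Submodule.sub_mem _ hθL (hI.1 hc')
  have hz : ((c' + τ c) • (1 : Module.End K (Fin n → K))) = 0 :=
    H76T.scalar_skew h.ts.cmp.Jt h.ts.cmp.Jd (h.ts.cmp.skew _ hsc)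
  rw [hdec, hz, add_zero]
  exact hc'

theorem f7_funP (h : Loc J S 𝓗 e x q U V d Y) {τ : K ≃+* K}
    {θ : Module.End K (Fin n → K) ≃+* Module.End K (Fin n → K)} {σ : Equiv.Perm (Fin n)}
    (hθ : Theta (Lc J S U V) (Uᵀ * J * U) θ τ σ) {P : Module.End ℚ Y} (hP : Sp P)
    (hc : Comp (Lc J S U V) P) (hI : ∀ I, IsIdeal (Lc J S U V) I → ∀ X ∈ I, θ X ∈ I)
    {f : Fin n → ℚ} (hf : f ∈ Y) (hfP : FunP P f) :
    (fun k => f (σ⁻¹ k)) ∈ Y ∧ FunP P (fun k => f (σ⁻¹ k)) := by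
  classical
  have hne : Nonempty (Fin n) := ⟨⟨0, h.pos⟩⟩
  have hYL : Yo (Lc J S U V) = Y := h.yo
  obtain ⟨m, I, hF⟩ := H76T.exists_fam h.ts.cmp.lie h.ts.cmp.irr h.ts.cmp.tr
  have hf' : f ∈ Yo (Lc J S U V) := by rw [hYL]; exact hf
  obtain ⟨g, hg, hsum⟩ := exists_decomp h.ts.cmp hF hf'
  set T : Finset (Fin m) := Finset.univ.filter fun j => InP P (I j) with hT
  have hTg : ∀ i ∈ T, FunP P (g i) := by
    intro i hi
    have h1 : InP P (I i) := (Finset.mem_filter.1 hi).2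
    exact h1 (g i) (hYL ▸ (hg i).1) (hg i).2
  have hTg' : ∀ i ∈ Tᶜ, FunP (1 - P) (g i) := by
    intro i hi
    have h1 : ¬ InP P (I i) := by
      intro h2
      rw [Finset.mem_compl] at hi
      exact hi (Finset.mem_filter.2 ⟨Finset.mem_univ i, h2⟩)
    rcases hc m I hF i with h2 | h2
    · exact absurd h2 h1
    · exact h2 (g i) (hYL ▸ (hg i).1) (hg i).2
  have hsplit : f = ∑ i ∈ T, g i + ∑ i ∈ Tᶜ, g i := by
    rw [Finset.sum_add_sum_compl, hsum]
  have h1 : FunP P (∑ i ∈ Tᶜ, g i) := by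
    have h2 : ∑ i ∈ Tᶜ, g i = f - ∑ i ∈ T, g i := by
      rw [hsplit]
      abel
    rw [h2]
    intro k k' hk
    rw [Pi.sub_apply, Pi.sub_apply, hfP k k' hk, c3_fsum T hTg k k' hk]
  have h2 : FunP (1 - P) (∑ i ∈ Tᶜ, g i) := c3_fsum _ hTg'
  have h3 : ∑ i ∈ Tᶜ, g i ∈ Yo (Lc J S U V) := Submodule.sum_mem _ fun i _ => (hg i).1
  have h4 := FunP_both hP (Yo_sum h.ts.cmp h3) h1 h2
  rw [h4, add_zero] at hsplit
  have hdq : ∀ u : Fin n → ℚ, θ (dq u) = dq (fun k => u (σ⁻¹ k)) := by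
    intro u
    unfold dq
    rw [hθ.diag]
    congr 1
    funext k
    exact map_ratCast τ _
  have hgi : ∀ i ∈ T, (fun k => g i (σ⁻¹ k)) ∈ Y ∧ FunP P (fun k => g i (σ⁻¹ k)) := by
    intro i hi
    have h5 : (dq (fun k => g i (σ⁻¹ k)) : Module.End K (Fin n → K)) ∈ I i := by
      rw [← hdq]
      exact hI _ (hF.ideal i) _ (hg i).2
    have h6 : (fun k => g i (σ⁻¹ k)) ∈ Y := by
      rw [← hYL]
      exact h.ts.diag _ ((hF.ideal i).1 h5)
    exact ⟨h6, (Finset.mem_filter.1 hi).2 _ h6 h5⟩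
  have hsum' : (fun k => f (σ⁻¹ k)) = ∑ i ∈ T, fun k => g i (σ⁻¹ k) := by
    funext k
    rw [hsplit, Finset.sum_apply, Finset.sum_apply]
  rw [hsum']
  exact ⟨Submodule.sum_mem _ fun i hi => (hgi i hi).1, c3_fsum T fun i hi => (hgi i hi).2⟩

theorem f7_funP_pow (h : Loc J S 𝓗 e x q U V d Y) {τ : K ≃+* K}
    {θ : Module.End K (Fin n → K) ≃+* Module.End K (Fin n → K)} {σ : Equiv.Perm (Fin n)}
    (hθ : Theta (Lc J S U V) (Uᵀ * J * U) θ τ σ) {P : Module.End ℚ Y} (hP : Sp P)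
    (hc : Comp (Lc J S U V) P) (hI : ∀ I, IsIdeal (Lc J S U V) I → ∀ X ∈ I, θ X ∈ I)
    (N : ℕ) : ∀ {f : Fin n → ℚ}, f ∈ Y → FunP P f →
    (fun k => f ((σ⁻¹ ^ N) k)) ∈ Y ∧ FunP P (fun k => f ((σ⁻¹ ^ N) k)) := by
  induction N with
  | zero =>
    intro f hf hfP
    exact ⟨hf, hfP⟩
  | succ N ih =>
    intro f hf hfP
    obtain ⟨h1, h2⟩ := ih hf hfP
    have h3 := f7_funP h hθ hP hc hI h1 h2
    have e1 : (fun k => f ((σ⁻¹ ^ (N + 1)) k)) = fun k => (fun k => f ((σ⁻¹ ^ N) k)) (σ⁻¹ k) := by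
      funext k
      rw [pow_succ, Equiv.Perm.mul_apply]
    rw [e1]
    exact h3

theorem f7_half (h : Loc J S 𝓗 e x q U V d Y) {τ : K ≃+* K}
    {θ : Module.End K (Fin n → K) ≃+* Module.End K (Fin n → K)} {σ : Equiv.Perm (Fin n)}
    (hθ : Theta (Lc J S U V) (Uᵀ * J * U) θ τ σ) {P : Module.End ℚ Y} (hP : Sp P)
    (hc : Comp (Lc J S U V) P) (hI : ∀ I, IsIdeal (Lc J S U V) I → ∀ X ∈ I, θ X ∈ I)
    (k k' : Fin n) : cz P k k' ↔ cz P (σ k) (σ k') := by
  have hne : Nonempty (Fin n) := ⟨⟨0, h.pos⟩⟩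
  have hY0 : ∀ f ∈ Y, ∑ k, f k = 0 := by
    intro f hf
    rw [← h.yo] at hf
    exact Yo_sum h.ts.cmp hf
  have hPf : ∀ f : Y, FunP P (P f : Fin n → ℚ) := by
    intro f a b hab
    exact hab f
  have hfix : ∀ f : Y, FunP P (f : Fin n → ℚ) → P f = f := fun f hf => (FunP_iff hP hY0 f).1 hf
  constructor
  · intro hk f
    -- `P f ∘ σ` is in `Y` and depends only on the first coordinate
    have h1 : ∀ k, (P f : Fin n → ℚ) (σ k) = (P f : Fin n → ℚ) ((σ⁻¹ ^ (orderOf σ - 1)) k) := by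
      intro k
      have h2 : σ⁻¹ ^ (orderOf σ - 1) = σ := by
        have h3 : σ⁻¹ ^ (orderOf σ - 1) * σ⁻¹ = 1 := by
          rw [← pow_succ, Nat.sub_add_cancel (orderOf_pos σ), inv_pow, pow_orderOf_eq_one, inv_one]
        exact mul_inv_eq_one.1 h3
      rw [h2]
    rw [h1 k, h1 k']
    obtain ⟨h4, h5⟩ := f7_funP_pow h hθ hP hc hI (orderOf σ - 1) (P f).2 (hPf f)
    exact h5 k k' hk
  · intro hk f
    obtain ⟨h4, h5⟩ := f7_funP h hθ hP hc hI (P f).2 (hPf f)
    have h6 := h5 (σ k) (σ k') hk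
    have e : ∀ k, σ⁻¹ (σ k) = k := fun k => σ.symm_apply_apply k
    change (P f : Fin n → ℚ) (σ⁻¹ (σ k)) = (P f : Fin n → ℚ) (σ⁻¹ (σ k')) at h6
    rw [e, e] at h6
    exact h6

/-- PROOF. `Y₁ = {f ∈ Y | FunP P f}` is the range of `P` (`FunP_iff`), so `cz P k k'` iff `f k = f k'` for all `f ∈ Y₁`.  `exists_fam`, `exists_decomp`: `f ∈ Y₁` is the sum of the `g j` with `InP P (I j)`
(see `dq_AZ`), `θ (dq (g j)) = dq (g j ∘ σ⁻¹) ∈ I j`, so `g j ∘ σ⁻¹` is in `Y` and depends only on the first coordinate.  So `f ↦ f ∘ σ⁻¹` maps `Y₁` into `Y₁`; it is injective and `Y₁` is finite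
dimensional, so it is bijective and `f ∘ σ ∈ Y₁`, too.  This gives the first half of `StabP`; the second half is the same for `1 - P` (`Comp.compl`, `Sp.compl`). -/
theorem stab_of_theta (h : Loc J S 𝓗 e x q U V d Y) {τ : K ≃+* K}
    {θ : Module.End K (Fin n → K) ≃+* Module.End K (Fin n → K)} {σ : Equiv.Perm (Fin n)}
    (hθ : Theta (Lc J S U V) (Uᵀ * J * U) θ τ σ) {P : Module.End ℚ Y} (hP : Sp P)
    (hc : Comp (Lc J S U V) P) (hI : ∀ I, IsIdeal (Lc J S U V) I → ∀ X ∈ I, θ X ∈ I) :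
    StabP P σ := by
  have hne : Nonempty (Fin n) := ⟨⟨0, h.pos⟩⟩
  exact ⟨f7_half h hθ hP hc hI, f7_half h hθ hP.compl hc.compl hI⟩

end Pool.Agent.H76Q
end

-- from Lib.H76Q.G1
section

/-!
# the eigenvalues
-/

set_option autoImplicit false
set_option linter.unusedSectionVars false
namespace Pool.Agent.H76Q
open Module Matrix Polynomial Pool.Agent.H53Toric
open Pool.Agent.H76P
open Pool.Agent.H76T (IsIdeal Fam Lc)
open Pool.Agent.H76V (Cmp)
open Pool.Agent.H76U (cmp preL IsSplitting)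
open Pool.Agent.H76RM (spanK similD)

variable {ι : Type*} [Fintype ι] [DecidableEq ι] {ψ : Matrix ι ι ℚ}
    {D : Subalgebra ℚ (Matrix ι ι ℚ)} {M : Type*} [Field M] [NumberField M]
    {m : ℕ} {e : Fin m → Matrix ι ι M} {G : Type*} [Group G]
    {ρ : ∀ (l : ℕ) [Fact l.Prime], G →* Matrix.GeneralLinearGroup ι ℚ_[l]}
    {p : ℕ} [Fact p.Prime] {σ : G} {q : ℚ} {f : ℚ[X]} {F : Fin m → M[X]}
    {φ μ ν : Matrix ι ι (AlgebraicClosure ℚ_[p])} {v : AlgebraicClosure ℚ_[p] → ℚ}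
    {Δ : Set (AlgebraicClosure ℚ_[p] ≃+* AlgebraicClosure ℚ_[p])}
    {Ω : Type*} [Field Ω] [CharZero Ω] [IsAlgClosed Ω] [Algebra.IsAlgebraic ℚ Ω] {j : M →+* Ω}
    {R : Finset Ω} {N : Set ℕ} (C : Core ψ D e ρ p σ q f F φ μ ν v Δ j R N)

include C

theorem g1_lin (s : G) : ∀ d ∈ D, (ρ p s).1.map (algebraMap ℚ_[p] (AlgebraicClosure ℚ_[p])) *
      d.map (algebraMap ℚ (AlgebraicClosure ℚ_[p])) =
      d.map (algebraMap ℚ (AlgebraicClosure ℚ_[p])) *
        (ρ p s).1.map (algebraMap ℚ_[p] (AlgebraicClosure ℚ_[p])) := by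
  intro d hd
  have h1 := congrArg (fun m : Matrix ι ι ℚ_[p] => m.map (algebraMap ℚ_[p] (AlgebraicClosure ℚ_[p])))
    (C.lin p s d hd)
  have h2 : (d.map (algebraMap ℚ ℚ_[p])).map (algebraMap ℚ_[p] (AlgebraicClosure ℚ_[p])) =
      d.map (algebraMap ℚ (AlgebraicClosure ℚ_[p])) := by
    ext i j
    simp
  simp only [Matrix.map_mul] at h1
  rw [h2] at h1
  exact h1

theorem g1_phiD : ∀ d ∈ spanK (AlgebraicClosure ℚ_[p]) D, φ * d = d * φ := by
  intro d hd
  refine Pool.Agent.H76RM.zar_commute ?_ (C.frobp.idc.2 ⊤ inferInstance)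
  rintro _ ⟨s, -, rfl⟩
  exact Pool.Agent.H76RM.comm_span (g1_lin C s) d hd

theorem g1_ne (i : Ω →+* AlgebraicClosure ℚ_[p]) (b : Fin m) {a : Ω}
    (ha : (F b).eval₂ j a = 0) : i a ≠ 0 := by
  intro h0
  have h1 : (F b).eval₂ (i.comp j) (i a) = 0 := by
    rw [← Polynomial.hom_eval₂, ha, map_zero]
  obtain ⟨z, hz, -, hφ⟩ := (C.frobp.eig (i.comp j) b (i a)).2 h1
  rw [h0, zero_smul] at hφ
  exact hz (Matrix.eq_zero_of_mulVec_eq_zero C.frobp.idc.1 hφ)

/-- PROOF. If `a ≠ a'` then `v (i a) ≠ v (i a')` for some `i` (`C.gal`), but `N v (i a) = v (i (a ^ N)) = N v (i a')` (`IsVal.basic`; the roots are not `0`, because `φ` is invertible). -/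
theorem Core.tor (b : Fin m) {a a' : Ω} (ha : (F b).eval₂ j a = 0) (ha' : (F b).eval₂ j a' = 0)
    {n : ℕ} (hn : n ≠ 0) (h : a ^ n = a' ^ n) : a = a' := by
  by_contra hne
  obtain ⟨i, hi⟩ := C.gal b a a' ha ha' hne
  have hb := (IsVal.basic C.crys.val).2.2.2
  have h1 := hb _ (g1_ne C i b ha) n
  have h2 := hb _ (g1_ne C i b ha') n
  rw [← map_pow, h, map_pow, h2] at h1
  have hn' : (n : ℚ) ≠ 0 := Nat.cast_ne_zero.2 hn
  exact hi (mul_left_cancel₀ hn' h1).symm

/-- PROOF. `exists_enum` (A6) for `φ` and any `i : Ω →+* closure of ℚ_[p]` (`IsAlgClosed.lift`); `φ` commutes with `(e b).map _` (`C.frobp.idc`, `C.lin`, as in `at_p`, H76P/G15). -/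
theorem Core.enum (b : Fin m) : ∃ a : Fin (e b).rank → Ω, Function.Injective a ∧
      ∀ y : Ω, (F b).eval₂ j y = 0 ↔ ∃ k, y = a k := by
  let i : Ω →+* AlgebraicClosure ℚ_[p] :=
    (IsAlgClosed.lift (R := ℚ) (S := Ω) (M := AlgebraicClosure ℚ_[p])).toRingHom
  have hspl : IsSplitting D ψ id (fun c => (e c).map (i.comp j)) := C.hspl.map (i.comp j)
  exact exists_enum C.frobp j i b (C.hspl.idem b) (g1_phiD C _ (hspl.mem b)).symm

end Pool.Agent.H76Q
end

-- from Lib.H76Q.G2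
section

/-!
# the local data
-/

set_option autoImplicit false

/-!
# the local data
-/
set_option linter.unusedSectionVars false
namespace Pool.Agent.H76Q
open Module Matrix Polynomial Pool.Agent.H53Toric
open Pool.Agent.H76P
open Pool.Agent.H76T (IsIdeal Fam Lc)
open Pool.Agent.H76V (Cmp)
open Pool.Agent.H76U (cmp preL IsSplitting)
open Pool.Agent.H76RM (spanK similD)

variable {ι : Type*} [Fintype ι] [DecidableEq ι] {ψ : Matrix ι ι ℚ}
    {D : Subalgebra ℚ (Matrix ι ι ℚ)} {M : Type*} [Field M] [NumberField M]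
    {m : ℕ} {e : Fin m → Matrix ι ι M} {G : Type*} [Group G]
    {ρ : ∀ (l : ℕ) [Fact l.Prime], G →* Matrix.GeneralLinearGroup ι ℚ_[l]}
    {p : ℕ} [Fact p.Prime] {σ : G} {q : ℚ} {f : ℚ[X]} {F : Fin m → M[X]}
    {φ μ ν : Matrix ι ι (AlgebraicClosure ℚ_[p])} {v : AlgebraicClosure ℚ_[p] → ℚ}
    {Δ : Set (AlgebraicClosure ℚ_[p] ≃+* AlgebraicClosure ℚ_[p])}
    {Ω : Type*} [Field Ω] [CharZero Ω] [IsAlgClosed Ω] [Algebra.IsAlgebraic ℚ Ω] {j : M →+* Ω}
    {R : Finset Ω} {N : Set ℕ} (C : Core ψ D e ρ p σ q f F φ μ ν v Δ j R N)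

include C

/-- PROOF. `mk_loc` (A7) with `H76RM.exists_prime` (see `lie_p` in H76P/G12); `Core.tor`. -/
theorem Core.locp (b : Fin m)
    {n : ℕ} {a : Fin n → Ω} (ha : Function.Injective a)
    (hroot : ∀ y : Ω, (F b).eval₂ j y = 0 ↔ ∃ k, y = a k)
    (i : Ω →+* AlgebraicClosure ℚ_[p]) :
    ∃ (H₀ : Subgroup G) (U : Matrix ι (Fin n) (AlgebraicClosure ℚ_[p]))
      (V : Matrix (Fin n) ι (AlgebraicClosure ℚ_[p])), H₀.FiniteIndex ∧
      Loc (ψ.map (algebraMap ℚ (AlgebraicClosure ℚ_[p]))) (img (AlgebraicClosure ℚ_[p]) (ρ p) H₀)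
        (properProj (AlgebraicClosure ℚ_[p]) (ρ p)) ((e b).map (i.comp j)) φ
        (algebraMap ℚ (AlgebraicClosure ℚ_[p]) q) U V (fun k => i (a k)) (YS a) := by
  obtain ⟨H₀, -, hfin, hprime⟩ := H76RM.exists_prime (K := AlgebraicClosure ℚ_[p]) (ρ p) ⊤ inferInstance
  obtain ⟨U, V, hL⟩ := mk_loc C.hψ C.hψ0 D (ρ p) (C.lin p) (C.sim p) (C.semis p) (C.commt p) (C.gen p) C.hspl
    C.frobp C.multp hfin hprime j i b ha hroot (fun k l N hN h =>
      ha (C.tor b ((hroot _).2 ⟨k, rfl⟩) ((hroot _).2 ⟨l, rfl⟩) hN h))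
  exact ⟨H₀, U, V, hfin, hL⟩

/-- PROOF. The same for `l ≠ p`; `C.mult` mapped to the closure. -/
theorem Core.locl (b : Fin m)
    {n : ℕ} {a : Fin n → Ω} (ha : Function.Injective a)
    (hroot : ∀ y : Ω, (F b).eval₂ j y = 0 ↔ ∃ k, y = a k)
    (l : ℕ) [Fact l.Prime] (hl : l ≠ p) (i : Ω →+* AlgebraicClosure ℚ_[l]) :
    ∃ (H₀ : Subgroup G) (U : Matrix ι (Fin n) (AlgebraicClosure ℚ_[l]))
      (V : Matrix (Fin n) ι (AlgebraicClosure ℚ_[l])), H₀.FiniteIndex ∧
      Loc (ψ.map (algebraMap ℚ (AlgebraicClosure ℚ_[l]))) (img (AlgebraicClosure ℚ_[l]) (ρ l) H₀)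
        (properProj (AlgebraicClosure ℚ_[l]) (ρ l)) ((e b).map (i.comp j))
        ((ρ l σ).1.map (algebraMap ℚ_[l] (AlgebraicClosure ℚ_[l])))
        (algebraMap ℚ (AlgebraicClosure ℚ_[l]) q) U V (fun k => i (a k)) (YS a) := by
  obtain ⟨H₀, -, hfin, hprime⟩ := H76RM.exists_prime (K := AlgebraicClosure ℚ_[l]) (ρ l) ⊤ inferInstance
  have hmult : ((ρ l σ).1.map (algebraMap ℚ_[l] (AlgebraicClosure ℚ_[l])))ᵀ *
      ψ.map (algebraMap ℚ (AlgebraicClosure ℚ_[l])) * (ρ l σ).1.map (algebraMap ℚ_[l] (AlgebraicClosure ℚ_[l])) =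
      algebraMap ℚ (AlgebraicClosure ℚ_[l]) q • ψ.map (algebraMap ℚ (AlgebraicClosure ℚ_[l])) := by
    have h1 := congrArg (fun m : Matrix ι ι ℚ_[l] => m.map (algebraMap ℚ_[l] (AlgebraicClosure ℚ_[l]))) (C.mult l hl)
    have h2 : (ψ.map (algebraMap ℚ ℚ_[l])).map (algebraMap ℚ_[l] (AlgebraicClosure ℚ_[l])) =
        ψ.map (algebraMap ℚ (AlgebraicClosure ℚ_[l])) := by
      ext i j
      simp
    have h3 : (algebraMap ℚ ℚ_[l] q • ψ.map (algebraMap ℚ ℚ_[l])).map
        (algebraMap ℚ_[l] (AlgebraicClosure ℚ_[l])) =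
        algebraMap ℚ (AlgebraicClosure ℚ_[l]) q • ψ.map (algebraMap ℚ (AlgebraicClosure ℚ_[l])) := by
      ext i j
      simp
    simp only [Matrix.map_mul] at h1
    rw [h2, h3, Matrix.transpose_map] at h1
    exact h1
  obtain ⟨U, V, hL⟩ := mk_loc C.hψ C.hψ0 D (ρ l) (C.lin l) (C.sim l) (C.semis l) (C.commt l) (C.gen l) C.hspl
    (C.frob l hl) hmult hfin hprime j i b ha hroot (fun k l N hN h =>
      ha (C.tor b ((hroot _).2 ⟨k, rfl⟩) ((hroot _).2 ⟨l, rfl⟩) hN h))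
  exact ⟨H₀, U, V, hfin, hL⟩

end Pool.Agent.H76Q
end

-- from Lib.H76Q.X6
section

/-!
# semilinear automorphisms which move a decomposition
-/

set_option autoImplicit false
set_option linter.unusedSectionVars false
namespace Pool.Agent.H76Q
open Module Matrix Polynomial TensorProduct Pool.Agent.H53Toric
open Pool.Agent.H76P
open Pool.Agent.H76T (IsIdeal Fam Lc)
open Pool.Agent.H76V (Cmp)
open Pool.Agent.H76U (cmp preL IsSplitting)
open Pool.Agent.H76RM (spanK similD)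

variable {κ : Type*} {K : Type*} [Field K] [CharZero K] [Fintype κ] [DecidableEq κ]
  {L : Submodule K (Module.End K (κ → K))} {J : Matrix κ κ K} [IsAlgClosed K] [Nonempty κ]
  {Y : Submodule ℚ (κ → ℚ)} {P : Module.End ℚ Y}

theorem x6_fwd {θ : Module.End K (κ → K) ≃+* Module.End K (κ → K)} {τ : K ≃+* K}
    {σ : Equiv.Perm κ} (hθ : Theta L J θ τ σ) (hY : Yo L = Y) {P P' : Module.End ℚ Y}
    (hmv : MvP σ P P') {X : Module.End K (κ → K)} (hX : X ∈ AZ L P) : θ X ∈ AZ L P' := by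
  unfold H76Q.AZ at hX ⊢
  induction hX using Algebra.adjoin_induction with
  | mem X hX =>
    obtain ⟨I, hI, hP, hXI⟩ := hX
    refine Algebra.subset_adjoin ⟨_, e1_ideal hθ hI, ?_, (H76T.mem_mv' (hθ := hθ.smul)).2 hXI⟩
    intro f hf hfI k k' hkk
    have h1 : dq (f ∘ σ) ∈ I := by
      have h2 := H76T.mem_mv.1 hfI
      rwa [← e1_dq hθ f, RingEquiv.symm_apply_apply] at h2
    have h3 : f ∘ σ ∈ Y := by
      rw [← hY]
      exact hθ.perm (hY ▸ hf)
    have h4 := hP (f ∘ σ) h3 h1 (σ.symm k) (σ.symm k') ((hmv.1 _ _).2 (by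
      rwa [Equiv.apply_symm_apply, Equiv.apply_symm_apply]))
    rwa [Function.comp_apply, Function.comp_apply, Equiv.apply_symm_apply, Equiv.apply_symm_apply] at h4
  | algebraMap r =>
    rw [Algebra.algebraMap_eq_smul_one, hθ.smul, map_one]
    exact Subalgebra.smul_mem _ (Subalgebra.one_mem _) _
  | add X X' _ _ h h' => rw [map_add]; exact Subalgebra.add_mem _ h h'
  | mul X X' _ _ h h' => rw [map_mul]; exact Subalgebra.mul_mem _ h h'

theorem x6_symm {θ : Module.End K (κ → K) ≃+* Module.End K (κ → K)} {τ : K ≃+* K}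
    {σ : Equiv.Perm κ} (hθ : Theta L J θ τ σ) : Theta L J θ.symm τ.symm σ.symm := by
  refine ⟨fun c X => ?_, fun g => ?_, fun X => ?_, fun X => ?_⟩
  · apply θ.injective
    rw [RingEquiv.apply_symm_apply, hθ.smul, RingEquiv.apply_symm_apply, RingEquiv.apply_symm_apply]
  · apply θ.injective
    rw [RingEquiv.apply_symm_apply, hθ.diag]
    congr 1
    funext k
    rw [RingEquiv.apply_symm_apply, Equiv.symm_symm, Equiv.apply_symm_apply]
  · rw [← hθ.mem, RingEquiv.apply_symm_apply]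
  · apply θ.injective
    rw [RingEquiv.apply_symm_apply, hθ.adj, RingEquiv.apply_symm_apply]

theorem x6_mv {σ : Equiv.Perm κ} {P P' : Module.End ℚ Y} (hmv : MvP σ P P') : MvP σ.symm P' P := by
  refine ⟨fun k k' => ?_, fun k k' => ?_⟩
  · rw [hmv.1, Equiv.apply_symm_apply, Equiv.apply_symm_apply]
  · rw [hmv.2, Equiv.apply_symm_apply, Equiv.apply_symm_apply]

/-- PROOF. As `Theta.AZ` (file E1): `θ` maps ideals of `L` to ideals of `L` (`e1_ideal`), and for `dq f ∈ θ I` we have `dq (f ∘ σ) ∈ I` (`Theta.diag`), `FunP P (f ∘ σ)`, so `FunP P' f` (`MvP`).  The converse: the same for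
`θ.symm` (or apply the first direction to `θ.symm`, `τ.symm`, `σ.symm`: first show that this is a `Theta`, too). -/
theorem theta_AZ_mv {θ : Module.End K (κ → K) ≃+* Module.End K (κ → K)} {τ : K ≃+* K}
    {σ : Equiv.Perm κ} (hθ : Theta L J θ τ σ) (hY : Yo L = Y) {P' : Module.End ℚ Y}
    (hmv : MvP σ P P') (X : Module.End K (κ → K)) : X ∈ AZ L P ↔ θ X ∈ AZ L P' := by
  refine ⟨fun hX => x6_fwd hθ hY hmv hX, fun hX => ?_⟩
  have h1 := x6_fwd (x6_symm hθ) hY (x6_mv hmv) hX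
  rwa [RingEquiv.symm_apply_apply] at h1

end Pool.Agent.H76Q
end

-- from Lib.H76Q.G7
section

/-!
# the Newton function
-/

set_option autoImplicit false
set_option linter.unusedSectionVars false
namespace Pool.Agent.H76Q
open Module Matrix Polynomial Pool.Agent.H53Toric
open Pool.Agent.H76P
open Pool.Agent.H76T (IsIdeal Fam Lc)
open Pool.Agent.H76V (Cmp)
open Pool.Agent.H76U (cmp preL IsSplitting)
open Pool.Agent.H76RM (spanK similD)

variable {ι : Type*} [Fintype ι] [DecidableEq ι] {ψ : Matrix ι ι ℚ}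
    {D : Subalgebra ℚ (Matrix ι ι ℚ)} {M : Type*} [Field M] [NumberField M]
    {m : ℕ} {e : Fin m → Matrix ι ι M} {G : Type*} [Group G]
    {ρ : ∀ (l : ℕ) [Fact l.Prime], G →* Matrix.GeneralLinearGroup ι ℚ_[l]}
    {p : ℕ} [Fact p.Prime] {σ : G} {q : ℚ} {f : ℚ[X]} {F : Fin m → M[X]}
    {φ μ ν : Matrix ι ι (AlgebraicClosure ℚ_[p])} {v : AlgebraicClosure ℚ_[p] → ℚ}
    {Δ : Set (AlgebraicClosure ℚ_[p] ≃+* AlgebraicClosure ℚ_[p])}
    {Ω : Type*} [Field Ω] [CharZero Ω] [IsAlgClosed Ω] [Algebra.IsAlgebraic ℚ Ω] {j : M →+* Ω}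
    {R : Finset Ω} {N : Set ℕ} (C : Core ψ D e ρ p σ q f F φ μ ν v Δ j R N)

include C

/-- PROOF. `Core.locp`.  `dq ε` is in an ideal `I` of `L = Lc J S U V` with `InP P I` or `InP (1 - P) I` (`inv_AZ`, `HT_spec`); the first is impossible (`ε` would be constant, `FunP_both`).  As in `H76P.vid_mem` (G8): the space
`{A | A commutes with e and phi (cmp U V A) ∈ I}` or `{U X V : X ∈ I}` is `adStable`, contains `(2 μ - 1) e`, so (`C.crys.newton`) `(ν - c) e`, so `dq (fun k => v (d k) - c) ∈ I` (`C.crys.nu`); `c` is the average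
(trace zero) and rational; so this function is in `Y` (`h.ts.diag`) and depends only on the second coordinate. -/
theorem Core.newt (b : Fin m)
    {n : ℕ} {a : Fin n → Ω} (ha : Function.Injective a)
    (hroot : ∀ y : Ω, (F b).eval₂ j y = 0 ↔ ∃ k, y = a k)
    {P : Module.End ℚ (YS a)} (hP : Sp P) (hg : Good P) (i : Ω →+* AlgebraicClosure ℚ_[p])
    {ε : Fin n → ℚ} (hε : IsHT μ φ ((e b).map (i.comp j)) (fun k => i (a k)) ε)
    (hεP : FunP (1 - P) ε) : FunP (1 - P) (fun k => v (i (a k))) := by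
  obtain ⟨H₀, U, V, hfin, h⟩ := C.locp b ha hroot i
  have hμ := C.crys.mu
  have hμφ := C.crys.muphi
  obtain ⟨hphi, hεY, hε1⟩ := HT_spec h hμ hμφ hε
  obtain ⟨hμμ, hμe, -, hμL⟩ := h.par μ hμ
  have : Nonempty (Fin n) := ⟨⟨0, h.pos⟩⟩
  have hc : Comp (Lc (ψ.map (algebraMap ℚ (AlgebraicClosure ℚ_[p])))
      (img (AlgebraicClosure ℚ_[p]) (ρ p) H₀) U V) P := hg _ _ _ h.ts h.yo
  rw [hphi] at hμL
  have hsq : (dq ε : Module.End (AlgebraicClosure ℚ_[p]) (Fin n → AlgebraicClosure ℚ_[p])) * dq ε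
      = 1 := by
    unfold dq
    rw [dg_mul, ← dg_one]
    congr 1
    funext k
    rcases hε1 k with h1 | h1 <;> simp [h1]
  obtain ⟨I, hI, hεI, hIP⟩ := inv_AZ h.ts hc hμL hsq
  have hIP' : InP (1 - P) I := by
    rcases hIP with h1 | h1
    · exfalso
      have h2 : ε = 0 := FunP_both hP hεY.1 (h1 ε hεY hεI) hεP
      have h3 := hε1 ⟨0, h.pos⟩
      rw [h2] at h3
      rcases h3 with h3 | h3 <;> simp at h3
    · exact h1
  set E := (e b).map (i.comp j) with hE
  have hEE : E * E = E := by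
    rw [h.UV]
    calc U * V * (U * V) = U * (V * U) * V := by simp only [Matrix.mul_assoc]
      _ = U * V := by rw [h.VU, Matrix.mul_one]
  have heU : E * U = U := by rw [h.UV, Matrix.mul_assoc, h.VU, Matrix.mul_one]
  let I' : Submodule (AlgebraicClosure ℚ_[p]) (Matrix ι ι (AlgebraicClosure ℚ_[p])) :=
    { carrier := {A | A * E = A ∧ E * A = A ∧ phi (cmp U V A) ∈ I}
      add_mem' := by
        rintro A A' ⟨h1, h2, h3⟩ ⟨h4, h5, h6⟩
        refine ⟨by rw [Matrix.add_mul, h1, h4], by rw [Matrix.mul_add, h2, h5], ?_⟩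
        rw [map_add, map_add]
        exact I.add_mem h3 h6
      zero_mem' := by
        refine ⟨Matrix.zero_mul _, Matrix.mul_zero _, ?_⟩
        rw [map_zero, map_zero]
        exact I.zero_mem
      smul_mem' := by
        rintro c A ⟨h1, h2, h3⟩
        refine ⟨by rw [Matrix.smul_mul, h1], by rw [Matrix.mul_smul, h2], ?_⟩
        rw [map_smul, map_smul]
        exact I.smul_mem _ h3 }
  have hmem : ∀ A, A ∈ I' ↔ A * E = A ∧ E * A = A ∧ phi (cmp U V A) ∈ I := fun A => Iff.rfl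
  have hstab : adStable (zlie (img (AlgebraicClosure ℚ_[p]) (ρ p) H₀)) I' := by
    intro Z hZ A hA
    obtain ⟨h1, h2, h3⟩ := (hmem A).1 hA
    obtain ⟨hCe, c, hc⟩ := h.lie Z hZ
    rw [hmem]
    refine ⟨?_, ?_, ?_⟩
    · rw [Matrix.sub_mul, Matrix.mul_assoc, h1, Matrix.mul_assoc, hCe, ← Matrix.mul_assoc, h1]
    · rw [Matrix.mul_sub, ← Matrix.mul_assoc, ← Matrix.mul_assoc, h2, ← hCe, Matrix.mul_assoc, h2]
    · have hC' : (Z - c • 1) * E = E * (Z - c • 1) := by
        rw [Matrix.sub_mul, Matrix.mul_sub, hCe, Matrix.smul_mul, Matrix.mul_smul, Matrix.one_mul,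
          Matrix.mul_one]
      have hA' : A * E = E * A := by rw [h1, h2]
      have e1 : Z * A - A * Z = (Z - c • 1) * A - A * (Z - c • 1) := by
        rw [Matrix.sub_mul, Matrix.mul_sub, Matrix.smul_mul, Matrix.mul_smul, Matrix.one_mul,
          Matrix.mul_one]
        abel
      rw [e1, map_sub, H76U.cmp_mul h.UV h.VU hA', H76U.cmp_mul h.UV h.VU hC', map_sub, map_mul,
        map_mul]
      exact hI.2 _ hc _ h3
  have hbase : ((2 : AlgebraicClosure ℚ_[p]) • μ - 1) * E ∈ I' := by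
    have hye : ((2 : AlgebraicClosure ℚ_[p]) • μ - 1) * E =
        E * ((2 : AlgebraicClosure ℚ_[p]) • μ - 1) := by
      rw [Matrix.sub_mul, Matrix.mul_sub, Matrix.smul_mul, Matrix.mul_smul, Matrix.one_mul,
        Matrix.mul_one, hμe]
    rw [hmem]
    refine ⟨by rw [Matrix.mul_assoc, hEE], by rw [← Matrix.mul_assoc, ← hye, Matrix.mul_assoc, hEE], ?_⟩
    have e2 : cmp U V (((2 : AlgebraicClosure ℚ_[p]) • μ - 1) * E) =
        cmp U V ((2 : AlgebraicClosure ℚ_[p]) • μ - 1) := by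
      rw [H76U.cmp_apply, H76U.cmp_apply]
      rw [← Matrix.mul_assoc V, Matrix.mul_assoc _ E U, heU]
    rw [e2, hphi]
    exact hεI
  obtain ⟨c, hc⟩ := C.crys.newton (i.comp j) b H₀ hfin I' hstab hbase
  have hc2 := ((hmem _).1 hc).2.2
  have hν : ν * U = U * Matrix.diagonal (fun k => (v (i (a k)) : AlgebraicClosure ℚ_[p])) := by
    ext x k
    have h1 : φ *ᵥ (fun x => U x k) = (i (a k)) • (fun x => U x k) := by
      have h2 := h.ec.eig
      funext y
      have h3 := congrFun (congrFun h2 y) k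
      rw [Matrix.mul_diagonal] at h3
      rw [Pi.smul_apply, smul_eq_mul, mul_comm, ← h3]
      rfl
    have h2 := congrFun (C.crys.nu _ _ h1) x
    rw [Matrix.mul_diagonal, mul_comm]
    exact h2
  have e3 : cmp U V ((ν - c • 1) * E) =
      Matrix.diagonal (fun k => (v (i (a k)) : AlgebraicClosure ℚ_[p]) - c) := by
    rw [H76U.cmp_apply, ← Matrix.mul_assoc V, Matrix.mul_assoc _ E U, heU, Matrix.mul_sub,
      Matrix.sub_mul, Matrix.mul_assoc, hν, ← Matrix.mul_assoc, h.VU, Matrix.one_mul, Matrix.mul_smul,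
      Matrix.mul_one, Matrix.smul_mul, h.VU]
    ext i j
    by_cases hij : i = j
    · subst hij
      simp
    · simp [Matrix.diagonal_apply_ne _ hij, Matrix.one_apply_ne hij]
  rw [e3, phi_diag] at hc2
  have htr := h.ts.cmp.tr _ (hI.1 hc2)
  rw [dg_trace, Finset.sum_sub_distrib, Finset.sum_const, Finset.card_univ, Fintype.card_fin,
    nsmul_eq_mul] at htr
  have hn0 : (n : AlgebraicClosure ℚ_[p]) ≠ 0 := by exact_mod_cast h.pos.ne'
  have hcv : c = (∑ k, (v (i (a k)) : AlgebraicClosure ℚ_[p])) / n := by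
    rw [eq_div_iff hn0]
    linear_combination -htr
  have e4 : (dq (fun k => v (i (a k)) - (∑ l, v (i (a l))) / n) :
      Module.End (AlgebraicClosure ℚ_[p]) (Fin n → AlgebraicClosure ℚ_[p])) =
      dg (fun k => (v (i (a k)) : AlgebraicClosure ℚ_[p]) - c) := by
    unfold dq
    congr 1
    funext k
    rw [hcv]
    push_cast
    ring
  rw [← e4] at hc2
  have hY := h.ts.diag _ (hI.1 hc2)
  rw [h.yo] at hY
  have hfun := hIP' _ hY hc2
  intro k k' hk
  have h5 := hfun k k' hk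
  exact sub_left_injective h5

/-- PROOF. Otherwise `FunP (1 - P) ε` for all `i`, `ε` (`HT_or`), so `v (i (a k)) = v (i (a k'))` for all `i` if `cz (1 - P) k k'` (`Core.newt`), so `k = k'` (`C.gal`).  But `P ≠ 0`, so `cz P k k'` fails for some
`k`, `k'`; `c` with `cz P c k`, `cz (1 - P) c k'` (`Sp.exists_mx`) is `k'`: contradiction.  (`i`, `ε` exist: `Core.locp`, `exists_HT`.) -/
theorem Core.onto (b : Fin m)
    {n : ℕ} {a : Fin n → Ω} (ha : Function.Injective a)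
    (hroot : ∀ y : Ω, (F b).eval₂ j y = 0 ↔ ∃ k, y = a k)
    {P : Module.End ℚ (YS a)} (hP : Sp P) (hg : Good P) (hP0 : P ≠ 0) :
    ∃ (i : Ω →+* AlgebraicClosure ℚ_[p]) (ε : Fin n → ℚ),
      IsHT μ φ ((e b).map (i.comp j)) (fun k => i (a k)) ε ∧ FunP P ε := by
  by_contra hcon
  push Not at hcon
  have hμ := C.crys.mu
  have hμφ := C.crys.muphi
  have hall : ∀ i : Ω →+* AlgebraicClosure ℚ_[p], FunP (1 - P) (fun k => v (i (a k))) := by
    intro i
    obtain ⟨H₀, U, V, hfin, h⟩ := C.locp b ha hroot i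
    obtain ⟨ε, hε⟩ := exists_HT h hμ hμφ
    have hc : Comp (Lc (ψ.map (algebraMap ℚ (AlgebraicClosure ℚ_[p])))
      (img (AlgebraicClosure ℚ_[p]) (ρ p) H₀) U V) P := hg _ _ _ h.ts h.yo
    rcases HT_or h hμ hμφ hε hc with h1 | h1
    · exact absurd h1 (hcon i ε hε)
    · exact C.newt b ha hroot hP hg i hε h1
  have hkk : ∀ k k', cz (1 - P) k k' → k = k' := by
    intro k k' hk
    by_contra hne
    obtain ⟨i, hi⟩ := C.gal b (a k) (a k') ((hroot _).2 ⟨k, rfl⟩) ((hroot _).2 ⟨k', rfl⟩)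
      (fun h1 => hne (ha h1))
    exact hi (hall i k k' hk)
  apply hP0
  refine LinearMap.ext fun f => Subtype.ext ?_
  have hconst : ∀ k k', (P f : Fin n → ℚ) k = (P f : Fin n → ℚ) k' := by
    intro k k'
    obtain ⟨c, hc1, hc2⟩ := hP.exists_mx k k'
    have h1 := hkk c k' hc2
    rw [h1] at hc1
    exact (hc1 f).symm
  have hsum := (P f).2.1
  funext k
  have h1 : (n : ℚ) * (P f : Fin n → ℚ) k = 0 := by
    rw [← hsum, Finset.sum_congr rfl fun l _ => hconst l k, Finset.sum_const, Finset.card_univ,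
      nsmul_eq_mul, Fintype.card_fin]
  have hn0 : (n : ℚ) ≠ 0 := by
    have := k.pos
    positivity
  exact (mul_eq_zero.1 h1).resolve_left hn0

end Pool.Agent.H76Q
end

-- from Lib.H76Q.G8
section

/-!
# linked idempotents
-/

set_option autoImplicit false
set_option linter.unusedSectionVars false
namespace Pool.Agent.H76Q
open Module Matrix Polynomial Pool.Agent.H53Toric
open Pool.Agent.H76P
open Pool.Agent.H76T (IsIdeal Fam Lc)
open Pool.Agent.H76V (Cmp)
open Pool.Agent.H76U (cmp preL IsSplitting)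
open Pool.Agent.H76RM (spanK similD)

variable {ι : Type*} [Fintype ι] [DecidableEq ι] {ψ : Matrix ι ι ℚ}
    {D : Subalgebra ℚ (Matrix ι ι ℚ)} {M : Type*} [Field M] [NumberField M]
    {m : ℕ} {e : Fin m → Matrix ι ι M} {G : Type*} [Group G]
    {ρ : ∀ (l : ℕ) [Fact l.Prime], G →* Matrix.GeneralLinearGroup ι ℚ_[l]}
    {p : ℕ} [Fact p.Prime] {σ : G} {q : ℚ} {f : ℚ[X]} {F : Fin m → M[X]}
    {φ μ ν : Matrix ι ι (AlgebraicClosure ℚ_[p])} {v : AlgebraicClosure ℚ_[p] → ℚ}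
    {Δ : Set (AlgebraicClosure ℚ_[p] ≃+* AlgebraicClosure ℚ_[p])}
    {Ω : Type*} [Field Ω] [CharZero Ω] [IsAlgClosed Ω] [Algebra.IsAlgebraic ℚ Ω] {j : M →+* Ω}
    {R : Finset Ω} {N : Set ℕ} (C : Core ψ D e ρ p σ q f F φ μ ν v Δ j R N)

include C

theorem Core.g8_lin (s : G) : ∀ d ∈ D, (ρ p s).1.map (algebraMap ℚ_[p] (AlgebraicClosure ℚ_[p])) *
    d.map (algebraMap ℚ (AlgebraicClosure ℚ_[p])) =
      d.map (algebraMap ℚ (AlgebraicClosure ℚ_[p])) *
        (ρ p s).1.map (algebraMap ℚ_[p] (AlgebraicClosure ℚ_[p])) := by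
  intro d hd
  have h1 := congrArg (fun m : Matrix ι ι ℚ_[p] =>
    m.map (algebraMap ℚ_[p] (AlgebraicClosure ℚ_[p]))) (C.lin p s d hd)
  have h2 : (d.map (algebraMap ℚ ℚ_[p])).map (algebraMap ℚ_[p] (AlgebraicClosure ℚ_[p])) =
      d.map (algebraMap ℚ (AlgebraicClosure ℚ_[p])) := by
    ext i j
    simp
  simp only [Matrix.map_mul] at h1
  rw [h2] at h1
  exact h1

theorem Core.g8_img (H : Subgroup G) {s : Matrix ι ι (AlgebraicClosure ℚ_[p])}
    (hs : s ∈ img (AlgebraicClosure ℚ_[p]) (ρ p) H) {d : Matrix ι ι (AlgebraicClosure ℚ_[p])}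
    (hd : d ∈ spanK (AlgebraicClosure ℚ_[p]) D) : s * d = d * s := by
  obtain ⟨g, -, rfl⟩ := hs
  exact H76RM.comm_span (C.g8_lin g) d hd

theorem Core.g8_phi {d : Matrix ι ι (AlgebraicClosure ℚ_[p])}
    (hd : d ∈ spanK (AlgebraicClosure ℚ_[p]) D) : φ * d = d * φ :=
  H76RM.zar_commute (fun _ hs => C.g8_img ⊤ hs hd) (C.frobp.idc.2 ⊤ inferInstance)

theorem Core.g8_mu {d : Matrix ι ι (AlgebraicClosure ℚ_[p])}
    (hd : d ∈ spanK (AlgebraicClosure ℚ_[p]) D) : μ * d = d * μ := by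
  have h1 := C.crys.mu.1.2 2 two_ne_zero
  have h2 := H76RM.zar_commute (fun _ hs => C.g8_img ⊤ hs hd) h1
  rw [add_mul, mul_add, one_mul, mul_one, smul_mul_assoc, mul_smul_comm] at h2
  have h3 := add_left_cancel h2
  have h4 : ((2 : AlgebraicClosure ℚ_[p]) - 1) = 1 := by norm_num
  rwa [h4, one_smul, one_smul] at h3

/-- The operator `E' d` is injective on the range of `e`. -/
theorem Core.g8_key (b : Fin m) {n : ℕ} {a : Fin n → Ω} (ha : Function.Injective a)
    (hroot : ∀ y : Ω, (F b).eval₂ j y = 0 ↔ ∃ k, y = a k) (i : Ω →+* AlgebraicClosure ℚ_[p])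
    {T : Matrix ι ι (AlgebraicClosure ℚ_[p])}
    (hT : ∀ A : Matrix ι ι (AlgebraicClosure ℚ_[p]),
      (∀ d ∈ spanK (AlgebraicClosure ℚ_[p]) D, A * d = d * A) → A * T = T * A)
    (hne : T * (e b).map (i.comp j) ≠ 0) {z : ι → AlgebraicClosure ℚ_[p]}
    (hz0 : z ≠ 0) (hz : (e b).map (i.comp j) *ᵥ z = z) : T *ᵥ z ≠ 0 := by
  obtain ⟨H₀, U, V, hfin, h⟩ := C.locp b ha hroot i
  have hE : (e b).map (i.comp j) ∈ spanK (AlgebraicClosure ℚ_[p]) D :=
    H76U.spanK_map (i.comp j) (C.hspl.mem b)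
  have h1S : (1 : Matrix ι ι (AlgebraicClosure ℚ_[p])) ∈
      img (AlgebraicClosure ℚ_[p]) (ρ p) H₀ := by
    refine ⟨1, H₀.one_mem, ?_⟩
    rw [map_one]
    simp
  set W : Submodule (AlgebraicClosure ℚ_[p]) (Fin n → AlgebraicClosure ℚ_[p]) :=
    LinearMap.ker (Matrix.mulVecLin (T * U)) with hW
  have hmem : ∀ w, w ∈ W ↔ (T * U) *ᵥ w = 0 := fun w => by
    rw [hW, LinearMap.mem_ker, Matrix.mulVecLin_apply]
  have hirr := h.ts.cmp.irr W (by
    intro X hX w hw
    rw [hmem] at hw ⊢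
    obtain ⟨_, ⟨A, hA, rfl⟩, hX2⟩ := hX.1
    rw [← hX2]
    have hcomm : ∀ d ∈ spanK (AlgebraicClosure ℚ_[p]) D, A * d = d * A := fun d hd =>
      H76U.preL_commute h1S (fun s hs => C.g8_img H₀ hs hd) hA
    show (T * U) *ᵥ ((cmp U V A) *ᵥ w) = 0
    rw [Matrix.mulVec_mulVec, Matrix.mul_assoc, H76U.P_cmp h.UV h.VU (hcomm _ hE),
      ← Matrix.mul_assoc, ← hT A hcomm, Matrix.mul_assoc, ← Matrix.mulVec_mulVec, hw,
      Matrix.mulVec_zero])
  rcases hirr with h1 | h1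
  · intro h2
    have h3 : V *ᵥ z ∈ W := by
      rw [hmem, Matrix.mulVec_mulVec, Matrix.mul_assoc, ← h.UV, ← Matrix.mulVec_mulVec, hz, h2]
    rw [h1, Submodule.mem_bot] at h3
    apply hz0
    rw [← hz, h.UV, ← Matrix.mulVec_mulVec, h3, Matrix.mulVec_zero]
  · exfalso
    apply hne
    have h2 : T * U = 0 := by
      ext x y
      have h3 : Pi.single y (1 : AlgebraicClosure ℚ_[p]) ∈ W := by rw [h1]; exact Submodule.mem_top
      rw [hmem, Matrix.mulVec_single_one] at h3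
      exact congrFun h3 x
    rw [h.UV, ← Matrix.mul_assoc, h2, Matrix.zero_mul]

/-- Transport of eigenvectors. -/
theorem Core.g8_vec (b : Fin m) {n : ℕ} {a : Fin n → Ω} (ha : Function.Injective a)
    (hroot : ∀ y : Ω, (F b).eval₂ j y = 0 ↔ ∃ k, y = a k) {s : Ω ≃+* Ω}
    (hlink : Linked D ((e b).map j) ((e b).map (s.toRingHom.comp j)))
    (i : Ω →+* AlgebraicClosure ℚ_[p]) : ∃ T : Matrix ι ι (AlgebraicClosure ℚ_[p]),
      φ * T = T * φ ∧ μ * T = T * μ ∧
      (∀ z, (e b).map ((i.comp s.symm.toRingHom).comp j) *ᵥ (T *ᵥ z) = T *ᵥ z) ∧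
      ∀ z, z ≠ 0 → (e b).map (i.comp j) *ᵥ z = z → T *ᵥ z ≠ 0 := by
  obtain ⟨d, hd, hne⟩ := hlink
  set i' : Ω →+* AlgebraicClosure ℚ_[p] := i.comp s.symm.toRingHom with hi'
  set E' := (e b).map (i'.comp j) with hE'
  have hE : E' ∈ spanK (AlgebraicClosure ℚ_[p]) D := H76U.spanK_map (i'.comp j) (C.hspl.mem b)
  have hd' : d.map i' ∈ spanK (AlgebraicClosure ℚ_[p]) D := H76U.spanK_map i' hd
  have hEE : E' * E' = E' := by
    rw [hE', ← H76U.map_mul', C.hspl.idem]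
  have hT : ∀ A : Matrix ι ι (AlgebraicClosure ℚ_[p]),
      (∀ d ∈ spanK (AlgebraicClosure ℚ_[p]) D, A * d = d * A) →
        A * (E' * d.map i') = E' * d.map i' * A := by
    intro A hA
    rw [← Matrix.mul_assoc, hA _ hE, Matrix.mul_assoc, hA _ hd', Matrix.mul_assoc]
  refine ⟨E' * d.map i', hT _ fun d hd => C.g8_phi hd, hT _ fun d hd => C.g8_mu hd, ?_, ?_⟩
  · intro z
    rw [Matrix.mulVec_mulVec, ← Matrix.mul_assoc, hEE]
  · intro z hz0 hz
    refine C.g8_key b ha hroot i hT ?_ hz0 hz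
    have h1 : E' = ((e b).map j).map i' := by
      ext x y
      rfl
    have h2 : (e b).map (i.comp j) = ((e b).map (s.toRingHom.comp j)).map i' := by
      ext x y
      simp [hi']
    rw [h1, h2, ← H76U.map_mul', ← H76U.map_mul']
    intro h3
    apply hne
    ext x y
    have h4 := congrFun (congrFun h3 x) y
    rw [Matrix.map_apply, Matrix.zero_apply] at h4
    rw [Matrix.zero_apply]
    exact (map_eq_zero i').1 h4

/-- PROOF. `E = (e b).map (i.comp j)`, `E' = (e b).map ((i.comp s⁻¹).comp j)`.  Apply `i ∘ s⁻¹` to `hlink`: `E' * d * E ≠ 0` for some `d` in the span of `D` over the closure.  The map `z ↦ E' (d z)` from the range of `E`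
to the range of `E'` is not zero and commutes with `φ`, `μ` and `zlie S` (they commute with `D`).  Its kernel is stable under `zlie S`, so zero (`Core.locp` for `i`: `h.ts.cmp.irr`).  So eigenvectors go to eigenvectors.  `hperm`: a root `y` of `F b` gives
(`C.frobp.eig`) an eigenvalue `i y` of `φ` on the range of `E`, so on the range of `E'`, so `eval₂ (i s⁻¹ j) (i y) = 0`, i.e. `s y` is a root; `s` permutes the finite set of roots.  `IsHT` for `i s⁻¹`: the eigenvalue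
`i s⁻¹ (a (π k)) = i (a k)`. -/
theorem Core.linked (b : Fin m)
    {n : ℕ} {a : Fin n → Ω} (ha : Function.Injective a)
    (hroot : ∀ y : Ω, (F b).eval₂ j y = 0 ↔ ∃ k, y = a k)
    {s : Ω ≃+* Ω} (hlink : Linked D ((e b).map j) ((e b).map (s.toRingHom.comp j))) :
    ∃ π : Equiv.Perm (Fin n), (∀ k, s (a k) = a (π k)) ∧
      ∀ (i : Ω →+* AlgebraicClosure ℚ_[p]) (ε : Fin n → ℚ),
        IsHT μ φ ((e b).map (i.comp j)) (fun k => i (a k)) ε →
        IsHT μ φ ((e b).map ((i.comp s.symm.toRingHom).comp j))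
          (fun k => i.comp s.symm.toRingHom (a k)) (fun k => ε (π.symm k)) := by
  have hmap : ∀ k, ∃ k', s (a k) = a k' := by
    intro k
    let i : Ω →+* AlgebraicClosure ℚ_[p] :=
      (IsAlgClosed.lift (R := ℚ) (S := Ω) (M := AlgebraicClosure ℚ_[p])).toRingHom
    obtain ⟨T, hTφ, -, hTE, hT0⟩ := C.g8_vec b ha hroot hlink i
    have h1 : (F b).eval₂ (i.comp j) (i (a k)) = 0 := by
      rw [← Polynomial.hom_eval₂, (hroot _).2 ⟨k, rfl⟩, map_zero]
    obtain ⟨z, hz0, hz, hφz⟩ := (C.frobp.eig (i.comp j) b (i (a k))).2 h1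
    have h2 : (F b).eval₂ ((i.comp s.symm.toRingHom).comp j) (i (a k)) = 0 := by
      apply (C.frobp.eig ((i.comp s.symm.toRingHom).comp j) b (i (a k))).1
      refine ⟨T *ᵥ z, hT0 z hz0 hz, hTE z, ?_⟩
      rw [Matrix.mulVec_mulVec, hTφ, ← Matrix.mulVec_mulVec, hφz, Matrix.mulVec_smul]
    have h3 : i (a k) = (i.comp s.symm.toRingHom) (s (a k)) := by simp
    rw [h3, ← Polynomial.hom_eval₂, map_eq_zero] at h2
    exact (hroot _).1 h2
  choose g hg using hmap
  have hginj : Function.Injective g := by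
    intro k k' hkk
    apply ha
    apply s.injective
    rw [hg, hg, hkk]
  let π : Equiv.Perm (Fin n) := Equiv.ofBijective g (Finite.injective_iff_bijective.1 hginj)
  refine ⟨π, hg, ?_⟩
  intro i ε hε k
  obtain ⟨T, hTφ, hTμ, hTE, hT0⟩ := C.g8_vec b ha hroot hlink i
  set k₀ := π.symm k with hk₀
  have hk : π k₀ = k := by rw [hk₀, Equiv.apply_symm_apply]
  have hval : (i.comp s.symm.toRingHom) (a k) = i (a k₀) := by
    have h1 : s (a k₀) = a k := by
      rw [hg k₀, ← hk]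
      rfl
    rw [← h1]
    simp
  rcases hε k₀ with ⟨h1, z, hz0, hz, hφz, hμz⟩ | ⟨h1, z, hz0, hz, hφz, hμz⟩
  · left
    refine ⟨h1, T *ᵥ z, hT0 z hz0 hz, hTE z, ?_, ?_⟩
    · show φ *ᵥ (T *ᵥ z) = ((i.comp s.symm.toRingHom) (a k)) • (T *ᵥ z)
      rw [hval, Matrix.mulVec_mulVec, hTφ, ← Matrix.mulVec_mulVec, hφz, Matrix.mulVec_smul]
    · rw [Matrix.mulVec_mulVec, hTμ, ← Matrix.mulVec_mulVec, hμz]
  · right
    refine ⟨h1, T *ᵥ z, hT0 z hz0 hz, hTE z, ?_, ?_⟩
    · show φ *ᵥ (T *ᵥ z) = ((i.comp s.symm.toRingHom) (a k)) • (T *ᵥ z)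
      rw [hval, Matrix.mulVec_mulVec, hTφ, ← Matrix.mulVec_mulVec, hφz, Matrix.mulVec_smul]
    · rw [Matrix.mulVec_mulVec, hTμ, ← Matrix.mulVec_mulVec, hμz, Matrix.mulVec_zero]

end Pool.Agent.H76Q
end
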