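import Pool.Agent.Lib.H1M.RC.M056

/-!
# Z0: definitions for the fourth version (all Albert types)
-/

set_option autoImplicit false
set_option linter.unusedSectionVars false
namespace Pool.Agent.H76Z
open Module Matrix Polynomial Pool.Agent.H53Toric
open Pool.Agent.H76P Pool.Agent.H76Q Pool.Agent.H76Y
open Pool.Agent.H76T (IsIdeal Fam)
open Pool.Agent.H76U (cmp preL Lb Split4)
open Pool.Agent.H76RM (spanK similD)

/-- The class of a component: symplectic (types I and II), orthogonal (type III), no form (type IV). -/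
inductive Cl : Type
  | s : Cl
  | o : Cl
  | n : Cl
  deriving DecidableEq

section
variable {κ : Type*} [Fintype κ] [DecidableEq κ] {K : Type*} [Field K]

/-- `L` respects a nondegenerate symmetric form. -/
def OrL (L : Submodule K (Module.End K (κ → K))) : Prop :=
  ∃ J : Matrix κ κ K, Jᵀ = J ∧ IsUnit J.det ∧ ∀ X ∈ L, adjE J X = -X

/-- `L` respects an alternating form, a symmetric form, no form, according to the class `t`. -/
def Cls (t : Cl) (L : Submodule K (Module.End K (κ → K))) : Prop :=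
  (t = .s → SyL L) ∧ (t = .o → OrL L) ∧ (t = .n → NsL L)

/-- `P` is compatible with the simple ideals of all Lie algebras in the class `t` with the
configuration `Y`. -/
def GoodN {n : ℕ} {Y : Submodule ℚ (Fin n → ℚ)} (t : Cl) (P : Module.End ℚ Y) : Prop :=
  ∀ (K : Type) [Field K] [CharZero K] [IsAlgClosed K]
    (L : Submodule K (Module.End K (Fin n → K))), TM L → Cls t L → Yo L = Y → Comp L P

end

section
variable {ι : Type*} [Fintype ι] [DecidableEq ι] {K : Type*} [Field K]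

/-- `e = U V` an idempotent, `V U = 1`, the columns of `U` are eigenvectors of `x` with the eigenvalues
`d`; `S` the image of a subgroup of finite index, `𝓗` the set of projectors, `q` the multiplier of `x`,
`Y` the configuration. -/
structure LocN [CharZero K] (t : Cl)
    (J : Matrix ι ι K) (S 𝓗 : Set (Matrix ι ι K)) (e x : Matrix ι ι K) (q : K) {n : ℕ}
    (U : Matrix ι (Fin n) K) (V : Matrix (Fin n) ι K) (d : Fin n → K)
    (Y : Submodule ℚ (Fin n → ℚ)) : Prop where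
  pos : 0 < n
  UV : e = U * V
  VU : V * U = 1
  ec : EC x U d
  ex : e * x = x * e
  ts : TM (LcN J S U V)
  cls : Cls t (LcN J S U V)
  yo : Yo (LcN J S U V) = Y
  par : ∀ h ∈ 𝓗, h * h = h ∧ h * e = e * h ∧ 2 * (h * e).rank = n ∧
    phi (cmp U V ((2 : K) • h - 1)) ∈ LcN J S U V
  lie : ∀ C ∈ zlie S, C * e = e * C ∧ ∃ c : K, phi (cmp U V (C - c • 1)) ∈ LcN J S U V
  prod : (∏ k, d k) ^ 2 = q ^ n

end

/-- `e 0, e 1, ...` are primitive idempotents of `D ⊗ K`, one in each simple factor of `D ⊗ K`; with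
respect to the form `ψ u`, where `u` is a unit of `D ⊗ K`, the adjoint of `e b` is `e (bar b)`; the form
`ψ u` is alternating on the range of `e b` if the class of `b` is `s`, symmetric if it is `o`, and
`bar b ≠ b` if it is `n`. -/
structure Splits {ι : Type*} [Fintype ι] [DecidableEq ι] {K : Type*} [Field K] [Algebra ℚ K]
    (D : Subalgebra ℚ (Matrix ι ι ℚ)) (ψ : Matrix ι ι ℚ) {m : ℕ} (cl : Fin m → Cl)
    (bar : Fin m → Fin m) (e : Fin m → Matrix ι ι K) (u : Matrix ι ι K) : Prop where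
  mem : ∀ b, e b ∈ spanK K D
  idem : ∀ b, e b * e b = e b
  ne_zero : ∀ b, e b ≠ 0
  barbar : ∀ b, bar (bar b) = b
  corner : ∀ b, ∀ x ∈ spanK K D, ∃ c : K, e b * x * e b = c • e b
  orth : ∀ b c, b ≠ c → ∀ x ∈ spanK K D, e b * x * e c = 0
  full : ∀ v : ι → K, v ∈ Submodule.span K {w | ∃ x ∈ spanK K D, ∃ b, ∃ u : ι → K,
    w = x *ᵥ (e b *ᵥ u)}
  umem : u ∈ spanK K D
  unit : IsUnit u.det
  adj : ∀ b, (e b)ᵀ * (ψ.map (algebraMap ℚ K) * u) = ψ.map (algebraMap ℚ K) * u * e (bar b)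
  self : ∀ b, bar b = b ↔ cl b ≠ .n
  alt : ∀ b, cl b = .s → (e b)ᵀ * (ψ.map (algebraMap ℚ K) * u)ᵀ * e b =
    -((e b)ᵀ * (ψ.map (algebraMap ℚ K) * u) * e b)
  sym : ∀ b, cl b = .o → (e b)ᵀ * (ψ.map (algebraMap ℚ K) * u)ᵀ * e b =
    (e b)ᵀ * (ψ.map (algebraMap ℚ K) * u) * e b

/-- The hypotheses of the fourth version of the theorem except the conditions on the ranks. -/
structure Core3 {ι : Type*} [Fintype ι] [DecidableEq ι] (ψ : Matrix ι ι ℚ)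
    (D : Subalgebra ℚ (Matrix ι ι ℚ)) {M : Type*} [Field M] [NumberField M]
    {m : ℕ} (cl : Fin m → Cl) (bar : Fin m → Fin m) (e : Fin m → Matrix ι ι M) (u : Matrix ι ι M) {G : Type*} [Group G]
    (ρ : ∀ (l : ℕ) [Fact l.Prime], G →* Matrix.GeneralLinearGroup ι ℚ_[l])
    (p : ℕ) [Fact p.Prime] (σ : G) (q : ℚ) (F : Fin m → M[X])
    (φ μ ν : Matrix ι ι (AlgebraicClosure ℚ_[p])) (v : AlgebraicClosure ℚ_[p] → ℚ)
    (Δ : Set (AlgebraicClosure ℚ_[p] ≃+* AlgebraicClosure ℚ_[p]))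
    {Ω : Type*} [Field Ω] [CharZero Ω] [IsAlgClosed Ω] [Algebra.IsAlgebraic ℚ Ω] (j : M →+* Ω)
    (R : Finset Ω) (N : Set ℕ) : Prop where
  hψ : ψᵀ = -ψ
  hψ0 : ψ.det ≠ 0
  hspl : Splits D ψ cl bar e u
  lin : ∀ (l : ℕ) [Fact l.Prime], ∀ g : G, ∀ d ∈ D,
      (ρ l g).1 * d.map (algebraMap ℚ ℚ_[l]) = d.map (algebraMap ℚ ℚ_[l]) * (ρ l g).1
  sim : ∀ (l : ℕ) [Fact l.Prime], ∀ g : G, ∃ c : ℚ_[l],
      (ρ l g).1ᵀ * ψ.map (algebraMap ℚ ℚ_[l]) * (ρ l g).1 = c • ψ.map (algebraMap ℚ ℚ_[l])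
  semis : ∀ (l : ℕ) [Fact l.Prime], ∀ H : Subgroup G, H.FiniteIndex →
      ∀ W : Submodule (AlgebraicClosure ℚ_[l]) (ι → AlgebraicClosure ℚ_[l]),
      (∀ s ∈ img (AlgebraicClosure ℚ_[l]) (ρ l) H, ∀ w ∈ W, s *ᵥ w ∈ W) →
      ∃ W' : Submodule (AlgebraicClosure ℚ_[l]) (ι → AlgebraicClosure ℚ_[l]),
        (∀ s ∈ img (AlgebraicClosure ℚ_[l]) (ρ l) H, ∀ w ∈ W', s *ᵥ w ∈ W') ∧ IsCompl W W'
  commt : ∀ (l : ℕ) [Fact l.Prime], ∀ H : Subgroup G, H.FiniteIndex →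
      ∀ y : Matrix ι ι (AlgebraicClosure ℚ_[l]),
      (∀ s ∈ img (AlgebraicClosure ℚ_[l]) (ρ l) H, y * s = s * y) →
        y ∈ spanK (AlgebraicClosure ℚ_[l]) D
  gen : ∀ (l : ℕ) [Fact l.Prime], ∀ g : G,
      (ρ l g).1.map (algebraMap ℚ_[l] (AlgebraicClosure ℚ_[l])) ∈
        tgen (AlgebraicClosure ℚ_[l]) (ρ l)
  bal : ∀ (l : ℕ) [Fact l.Prime], ∀ h ∈ properProj (AlgebraicClosure ℚ_[l]) (ρ l),
      ∀ (i : M →+* AlgebraicClosure ℚ_[l]) (b : Fin m),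
        2 * (h * (e b).map i).rank = (e b).rank
  hq : ∀ n : ℕ, n ≠ 0 → q ^ n ≠ 1
  mult : ∀ (l : ℕ) [Fact l.Prime], l ≠ p →
      (ρ l σ).1ᵀ * ψ.map (algebraMap ℚ ℚ_[l]) * (ρ l σ).1 =
        algebraMap ℚ ℚ_[l] q • ψ.map (algebraMap ℚ ℚ_[l])
  frob : ∀ (l : ℕ) [Fact l.Prime], l ≠ p →
      FrobT (AlgebraicClosure ℚ_[l]) (ρ l) e F
        ((ρ l σ).1.map (algebraMap ℚ_[l] (AlgebraicClosure ℚ_[l])))
  frobp : FrobT (AlgebraicClosure ℚ_[p]) (ρ p) e F φ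
  multp : φᵀ * ψ.map (algebraMap ℚ (AlgebraicClosure ℚ_[p])) * φ =
      algebraMap ℚ (AlgebraicClosure ℚ_[p]) q • ψ.map (algebraMap ℚ (AlgebraicClosure ℚ_[p]))
  crys : CrysN (AlgebraicClosure ℚ_[p]) (ρ p) e σ φ μ ν v Δ
  vq : v (algebraMap ℚ (AlgebraicClosure ℚ_[p]) q) = 1
  hN : p ∈ N
  arith : ∀ b, H45P.ArithM (e b).rank R N ρ σ
  munr : ∀ b, ∀ δ ∈ Δ, ∀ z : AlgebraicClosure ℚ_[p], z ^ (e b).rank = 1 → δ z = z
  Rstab : ∀ s : Ω ≃+* Ω, ∀ r ∈ R, s r ∈ R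
  Rval : ∀ i : Ω →+* AlgebraicClosure ℚ_[p],
      ∃ r ∈ R, v (i r) = 1 ∧ ∀ r' ∈ R, r' ≠ r → v (i r') = 0
  Rfix : ∀ i : Ω →+* AlgebraicClosure ℚ_[p], ∀ r ∈ R, ∀ δ ∈ Δ, δ (i r) = i r
  Rtrans : ∀ r ∈ R, ∀ r' ∈ R, ∃ s : Ω ≃+* Ω, s r = r'
  dec : ∀ (s : Ω ≃+* Ω) (T : Finset Ω), ∃ u : ℕ, Odd u ∧ ∃ (l : ℕ) (_ : Fact l.Prime), l ∉ N ∧
      ∃ (i : Ω →+* AlgebraicClosure ℚ_[l]) (t : AlgebraicClosure ℚ_[l] ≃ₐ[ℚ_[l]] AlgebraicClosure ℚ_[l]),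
        ∀ x ∈ T, t (i x) = i ((s ^ u) x)
  gal : ∀ b, ∀ a a' : Ω, (F b).eval₂ j a = 0 → (F b).eval₂ j a' = 0 → a ≠ a' →
      ∃ i : Ω →+* AlgebraicClosure ℚ_[p], v (i a) ≠ v (i a')


end Pool.Agent.H76Z
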