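import Pool.Agent.Lib.H1M.RC.D_H76Q_Q0
import Pool.Agent.Lib.H1M.RC.D_H76Z_Z0
import Pool.Agent.Lib.H1M.RC.M003
import Pool.Agent.Lib.H1M.RC.M040
import Pool.Agent.Lib.H1M.RC.M042
import Pool.Agent.Lib.H1M.RC.M048
import Pool.Agent.Lib.H1M.RC.M051
import Pool.Agent.Lib.H1M.RC.M056

/-! Merged copies (to shorten the build) of Lib.H25U.T7, Lib.H25U.T8, Lib.H25U.T3, Lib.H25U.T13, Lib.H25U.A1c, Lib.H76Y.T14, Lib.H25U.T14, Lib.H76Y.EN2, Lib.H76Y.A1, Lib.H76Z.Z1, Lib.H76Y.C1, Lib.H76Y.C2, Lib.H76Y.C3, Lib.H76Y.C5, Lib.H76Z.E4. -/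

-- from Lib.H25U.T7
section

/-!
# T7: a minimal ideal is generated by its elements of degree two
-/

set_option autoImplicit false
set_option linter.unusedSectionVars false
namespace Pool.Agent.H25U
open Pool.Agent.H76P Pool.Agent.H76V Pool.Agent.H76Q
open Module Matrix Pool.Agent.H53Toric
open Pool.Agent.H76T (IsIdeal Fam)
open Pool.Agent.H76V (Cmp alg calg)

section Abs

variable {K : Type*} [Field K] {R : Type*} [Ring R] [Algebra K R]

/-- the elements `X` of `I` with `y X = a X`, `X y = b X` -/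
def t7E (I : Submodule K R) (y : R) (a b : K) : Submodule K R where
  carrier := {X | X ∈ I ∧ y * X = a • X ∧ X * y = b • X}
  add_mem' := by
    rintro X X' ⟨h1, h2, h3⟩ ⟨h1', h2', h3'⟩
    exact ⟨I.add_mem h1 h1', by rw [mul_add, h2, h2', smul_add], by rw [add_mul, h3, h3', smul_add]⟩
  zero_mem' := ⟨I.zero_mem, by rw [mul_zero, smul_zero], by rw [zero_mul, smul_zero]⟩
  smul_mem' := by
    rintro c X ⟨h1, h2, h3⟩
    exact ⟨I.smul_mem _ h1, by rw [mul_smul_comm, h2, smul_comm], by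
      rw [smul_mul_assoc, h3, smul_comm]⟩

/-- the elements `X` of `I` which commute with `y` -/
def t7Z (I : Submodule K R) (y : R) : Submodule K R where
  carrier := {X | X ∈ I ∧ y * X = X * y}
  add_mem' := by
    rintro X X' ⟨h1, h2⟩ ⟨h1', h2'⟩
    exact ⟨I.add_mem h1 h1', by rw [mul_add, h2, h2', add_mul]⟩
  zero_mem' := ⟨I.zero_mem, by rw [mul_zero, zero_mul]⟩
  smul_mem' := by
    rintro c X ⟨h1, h2⟩
    exact ⟨I.smul_mem _ h1, by rw [mul_smul_comm, h2, smul_mul_assoc]⟩

/-- the span of the brackets -/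
def t7B (I : Submodule K R) (y : R) : Submodule K R :=
  Submodule.span K {b | ∃ X ∈ t7E I y (1 : K) (-1), ∃ X' ∈ t7E I y (-1 : K) 1, b = X * X' - X' * X}

/-- the submodule generated by the elements of degree two -/
def t7M (I : Submodule K R) (y : R) : Submodule K R :=
  t7E I y (1 : K) (-1) ⊔ (t7B I y ⊔ t7E I y (-1 : K) 1)

variable {I L : Submodule K R} {y : R}

theorem t7_BZ (hid : ∀ X ∈ I, ∀ Y ∈ I, X * Y - Y * X ∈ I) : t7B I y ≤ t7Z I y := by
  unfold t7B
  rw [Submodule.span_le]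
  rintro b ⟨X, ⟨h1, h2, h3⟩, X', ⟨h1', h2', h3'⟩, rfl⟩
  refine ⟨hid _ h1 _ h1', ?_⟩
  rw [mul_sub, sub_mul, ← mul_assoc, ← mul_assoc, h2, h2', mul_assoc, mul_assoc, h3, h3']
  simp

theorem t7_ZE (hid : ∀ X ∈ I, ∀ Y ∈ I, X * Y - Y * X ∈ I) {a b : K} {W X : R}
    (hW : W ∈ t7Z I y) (hX : X ∈ t7E I y a b) : W * X - X * W ∈ t7E I y a b := by
  obtain ⟨h1, h2⟩ := hW
  obtain ⟨h3, h4, h5⟩ := hX
  refine ⟨hid _ h1 _ h3, ?_, ?_⟩
  · rw [mul_sub, ← mul_assoc, ← mul_assoc, h2, h4, mul_assoc, h4, smul_sub, mul_smul_comm,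
      smul_mul_assoc]
  · rw [sub_mul, mul_assoc, mul_assoc, h5, ← h2, ← mul_assoc, h5, smul_sub, mul_smul_comm,
      smul_mul_assoc]

theorem t7_ZB (hid : ∀ X ∈ I, ∀ Y ∈ I, X * Y - Y * X ∈ I) {W X : R}
    (hW : W ∈ t7Z I y) (hX : X ∈ t7B I y) : W * X - X * W ∈ t7B I y := by
  unfold t7B at hX
  induction hX using Submodule.span_induction with
  | mem b hb =>
    obtain ⟨X, hX, X', hX', rfl⟩ := hb
    have e : W * (X * X' - X' * X) - (X * X' - X' * X) * W =
        ((W * X - X * W) * X' - X' * (W * X - X * W)) +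
          (X * (W * X' - X' * W) - (W * X' - X' * W) * X) := by noncomm_ring
    rw [e]
    refine Submodule.add_mem _ (Submodule.subset_span ?_) (Submodule.subset_span ?_)
    · exact ⟨_, t7_ZE hid hW hX, _, hX', rfl⟩
    · exact ⟨_, hX, _, t7_ZE hid hW hX', rfl⟩
  | zero => rw [mul_zero, zero_mul, sub_zero]; exact Submodule.zero_mem _
  | add a b _ _ ha hb =>
    have e : W * (a + b) - (a + b) * W = (W * a - a * W) + (W * b - b * W) := by noncomm_ring
    rw [e]
    exact Submodule.add_mem _ ha hb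
  | smul c a _ ha =>
    have e : W * (c • a) - (c • a) * W = c • (W * a - a * W) := by
      rw [mul_smul_comm, smul_mul_assoc, smul_sub]
    rw [e]
    exact Submodule.smul_mem _ _ ha

variable [CharZero K]

theorem t7_EE {a : K} (ha : a ≠ 0) {W X : R} (hW : W ∈ t7E I y a (-a)) (hX : X ∈ t7E I y a (-a)) :
    W * X = 0 := by
  obtain ⟨-, -, h2⟩ := hW
  obtain ⟨-, h3, -⟩ := hX
  have h4 : W * y * X = W * (y * X) := mul_assoc _ _ _
  rw [h2, h3, mul_smul_comm, smul_mul_assoc, neg_smul] at h4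
  have h5 : (2 * a) • (W * X) = 0 := by
    rw [two_mul, add_smul]
    nth_rw 1 [← h4]
    rw [neg_add_cancel]
  exact (smul_eq_zero.1 h5).resolve_left (by simpa using ha)

/-- the submodule is stable under the three parts -/
theorem t7_stab (hid : ∀ X ∈ I, ∀ Y ∈ I, X * Y - Y * X ∈ I) {W : R}
    (hW : W ∈ t7E I y (1 : K) (-1) ∨ W ∈ t7E I y (-1 : K) 1 ∨ W ∈ t7Z I y) :
    ∀ X ∈ t7M I y, W * X - X * W ∈ t7M I y := by
  have hP : t7E I y (1 : K) (-1) ≤ t7M I y := le_sup_left
  have hB : t7B I y ≤ t7M I y := le_sup_left.trans le_sup_right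
  have hN : t7E I y (-1 : K) 1 ≤ t7M I y := le_sup_right.trans le_sup_right
  -- the three kinds of elements
  have key : ∀ X, (X ∈ t7E I y (1 : K) (-1) ∨ X ∈ t7B I y ∨ X ∈ t7E I y (-1 : K) 1) →
      W * X - X * W ∈ t7M I y := by
    intro X hX
    rcases hW with hW | hW | hW
    · rcases hX with hX | hX | hX
      · rw [t7_EE one_ne_zero hW hX, t7_EE one_ne_zero hX hW, sub_zero]
        exact Submodule.zero_mem _
      · rw [← neg_sub]
        exact Submodule.neg_mem _ (hP (t7_ZE hid (t7_BZ hid hX) hW))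
      · exact hB (Submodule.subset_span ⟨W, hW, X, hX, rfl⟩)
    · rcases hX with hX | hX | hX
      · rw [← neg_sub]
        exact Submodule.neg_mem _ (hB (Submodule.subset_span ⟨X, hX, W, hW, rfl⟩))
      · rw [← neg_sub]
        exact Submodule.neg_mem _ (hN (t7_ZE hid (t7_BZ hid hX) hW))
      · have h0 : (-1 : K) ≠ 0 := neg_ne_zero.2 one_ne_zero
        have hW' : W ∈ t7E I y (-1 : K) (-(-1)) := by rw [neg_neg]; exact hW
        have hX' : X ∈ t7E I y (-1 : K) (-(-1)) := by rw [neg_neg]; exact hX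
        rw [t7_EE h0 hW' hX', t7_EE h0 hX' hW', sub_zero]
        exact Submodule.zero_mem _
    · rcases hX with hX | hX | hX
      · exact hP (t7_ZE hid hW hX)
      · exact hB (t7_ZB hid hW hX)
      · exact hN (t7_ZE hid hW hX)
  have hlin : ∀ A B : R, W * A - A * W ∈ t7M I y → W * B - B * W ∈ t7M I y →
      W * (A + B) - (A + B) * W ∈ t7M I y := by
    intro A B hA hB
    have e : W * (A + B) - (A + B) * W = (W * A - A * W) + (W * B - B * W) := by noncomm_ring
    rw [e]
    exact Submodule.add_mem _ hA hB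
  intro X hX
  obtain ⟨A, hA, X', hX', rfl⟩ := Submodule.mem_sup.1 hX
  obtain ⟨B, hB', C, hC, rfl⟩ := Submodule.mem_sup.1 hX'
  exact hlin _ _ (key A (Or.inl hA)) (hlin _ _ (key B (Or.inr (Or.inl hB')))
    (key C (Or.inr (Or.inr hC))))

theorem t7_le (hid : ∀ X ∈ I, ∀ Y ∈ I, X * Y - Y * X ∈ I) : t7M I y ≤ I := by
  refine sup_le (fun X hX => hX.1) (sup_le (fun X hX => (t7_BZ hid hX).1) (fun X hX => hX.1))

/-- the decomposition -/
theorem t7_dec (hy : ∀ W ∈ I, y * W - W * y ∈ I) (hyy : y * y = 1) {W : R}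
    (hW : W ∈ I) : ∃ A ∈ t7E I y (1 : K) (-1), ∃ B ∈ t7E I y (-1 : K) 1, ∃ C ∈ t7Z I y,
      W = A + B + C ∧ y * W - W * y = (2 : K) • A - (2 : K) • B := by
  have h1 : y * W - W * y ∈ I := hy _ hW
  have h2 : W - y * W * y ∈ I := by
    have h3 : y * (y * W - W * y) - (y * W - W * y) * y ∈ I := hy _ h1
    have e : y * (y * W - W * y) - (y * W - W * y) * y = (2 : K) • (W - y * W * y) := by
      rw [mul_sub, sub_mul, ← mul_assoc, hyy, one_mul, mul_assoc W y y, hyy, mul_one, two_smul,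
        ← mul_assoc]
      abel
    rw [e] at h3
    have h4 := I.smul_mem (2 : K)⁻¹ h3
    rwa [smul_smul, inv_mul_cancel₀ (two_ne_zero), one_smul] at h4
  have y1 : y * (y * W * y) = W * y := by rw [← mul_assoc, ← mul_assoc, hyy, one_mul]
  have y2 : y * W * y * y = y * W := by rw [mul_assoc, hyy, mul_one]
  have y3 : y * (y * W) = W := by rw [← mul_assoc, hyy, one_mul]
  have y4 : W * y * y = W := by rw [mul_assoc, hyy, mul_one]
  have y5 : y * (W * y) = y * W * y := by rw [mul_assoc]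
  refine ⟨(4 : K)⁻¹ • ((W - y * W * y) + (y * W - W * y)), ⟨I.smul_mem _ (I.add_mem h2 h1), ?_, ?_⟩,
    (4 : K)⁻¹ • ((W - y * W * y) - (y * W - W * y)), ⟨I.smul_mem _ (I.sub_mem h2 h1), ?_, ?_⟩,
    W - (2 : K)⁻¹ • (W - y * W * y), ⟨I.sub_mem hW (I.smul_mem _ h2), ?_⟩, ?_, ?_⟩
  · rw [mul_smul_comm, one_smul, mul_add, mul_sub, mul_sub, y1, y3, y5]
    congr 1
    abel
  · rw [smul_mul_assoc, add_mul, sub_mul, sub_mul, y2, y4, smul_comm, neg_smul, one_smul]
    congr 1
    abel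
  · rw [mul_smul_comm, mul_sub, mul_sub, mul_sub, y1, y3, y5, smul_comm, neg_smul, one_smul]
    congr 1
    abel
  · rw [smul_mul_assoc, sub_mul, sub_mul, sub_mul, y2, y4, one_smul]
    congr 1
    abel
  · rw [mul_sub, sub_mul, mul_smul_comm, smul_mul_assoc, mul_sub, sub_mul, y1, y2]
    module
  · module
  · module

/-- the abstract form -/
theorem t7_abs (hIL : I ≤ L) (hid : ∀ X ∈ L, ∀ Y ∈ I, X * Y - Y * X ∈ I)
    (hy : ∀ W ∈ I, y * W - W * y ∈ I)
    (hyy : y * y = 1)
    (hL : ∀ S : Submodule K R, I ≤ S → (∀ W, (∀ X ∈ I, W * X = X * W) → W ∈ S) → L ≤ S)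
    (hmin : ∀ J : Submodule K R, J ≤ L → (∀ X ∈ L, ∀ Y ∈ J, X * Y - Y * X ∈ J) → J ≤ I →
      J = ⊥ ∨ J = I)
    (hnc : ∃ W ∈ I, y * W ≠ W * y) {Z : R}
    (hZ : ∀ X ∈ I, (y * X - X * y = (2 : K) • X ∨ y * X - X * y = (-2 : K) • X) →
      Z * X = X * Z) :
    ∀ X ∈ I, Z * X = X * Z := by
  have hid' : ∀ X ∈ I, ∀ Y ∈ I, X * Y - Y * X ∈ I := fun X hX => hid X (hIL hX)
  have hle : t7M I y ≤ I := t7_le hid'
  let S : Submodule K R :=
    { carrier := {W | ∀ X ∈ t7M I y, W * X - X * W ∈ t7M I y}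
      add_mem' := by
        intro A B hA hB X hX
        have e : (A + B) * X - X * (A + B) = (A * X - X * A) + (B * X - X * B) := by noncomm_ring
        rw [e]
        exact Submodule.add_mem _ (hA X hX) (hB X hX)
      zero_mem' := by
        intro X hX
        rw [zero_mul, mul_zero, sub_zero]
        exact Submodule.zero_mem _
      smul_mem' := by
        intro c A hA X hX
        rw [smul_mul_assoc, mul_smul_comm, ← smul_sub]
        exact Submodule.smul_mem _ _ (hA X hX) }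
  have hS : L ≤ S := by
    apply hL
    · intro W hW
      obtain ⟨A, hA, B, hB, C, hC, rfl, -⟩ := t7_dec hy hyy hW
      exact S.add_mem (S.add_mem (t7_stab hid' (Or.inl hA)) (t7_stab hid' (Or.inr (Or.inl hB))))
        (t7_stab hid' (Or.inr (Or.inr hC)))
    · intro W hW X hX
      rw [hW X (hle hX), sub_self]
      exact Submodule.zero_mem _
  rcases hmin (t7M I y) (hle.trans hIL) (fun X hX Y hY => hS hX Y hY) hle with h0 | h0
  · exfalso
    obtain ⟨W, hW, hW2⟩ := hnc
    obtain ⟨A, hA, B, hB, C, -, -, h1⟩ := t7_dec hy hyy hW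
    have hA0 : A ∈ t7M I y := Submodule.mem_sup_left hA
    have hB0 : B ∈ t7M I y := Submodule.mem_sup_right (Submodule.mem_sup_right hB)
    rw [h0, Submodule.mem_bot] at hA0 hB0
    rw [hA0, hB0, smul_zero, sub_zero] at h1
    exact hW2 (sub_eq_zero.1 h1)
  · have hP : ∀ X ∈ t7E I y (1 : K) (-1), Z * X = X * Z := by
      rintro X ⟨h1, h2, h3⟩
      refine hZ X h1 (Or.inl ?_)
      rw [h2, h3]
      module
    have hN : ∀ X ∈ t7E I y (-1 : K) 1, Z * X = X * Z := by
      rintro X ⟨h1, h2, h3⟩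
      refine hZ X h1 (Or.inr ?_)
      rw [h2, h3]
      module
    have hB : ∀ X ∈ t7B I y, Z * X = X * Z := by
      intro X hX
      unfold t7B at hX
      induction hX using Submodule.span_induction with
      | mem b hb =>
        obtain ⟨X, hX, X', hX', rfl⟩ := hb
        have e1 := hP X hX
        have e2 := hN X' hX'
        rw [mul_sub, sub_mul, ← mul_assoc, ← mul_assoc, e1, e2, mul_assoc, mul_assoc, e1, e2,
          mul_assoc, mul_assoc]
      | zero => rw [mul_zero, zero_mul]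
      | add a b _ _ ha hb => rw [mul_add, add_mul, ha, hb]
      | smul c a _ ha => rw [mul_smul_comm, smul_mul_assoc, ha]
    intro X hX
    rw [← h0] at hX
    obtain ⟨A, hA, X', hX', rfl⟩ := Submodule.mem_sup.1 hX
    obtain ⟨B, hB', C, hC, rfl⟩ := Submodule.mem_sup.1 hX'
    rw [mul_add, add_mul, mul_add, add_mul, hP A hA, hB B hB', hN C hC]

end Abs

variable {κ : Type*} {K : Type*} [Field K] [CharZero K] [Fintype κ] [DecidableEq κ]
  {L : Submodule K (Module.End K (κ → K))} {J : Matrix κ κ K}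
variable [IsAlgClosed K] [Nonempty κ] {m : ℕ} {I : Fin m → Submodule K (Module.End K (κ → K))}

/-- PROOF. Write `ad X = y * X - X * y`.  As `y * y = 1`, `ad (ad X) = 2 X - 2 y X y` and `ad (ad (ad X)) = 4 ad X`.
For `X ∈ I j` put `X₊ = (1 / 8) (ad (ad X) + 2 ad X)`, `X₋ = (1 / 8) (ad (ad X) - 2 ad X)`, `X₀ = X - X₊ - X₋`; all in `I j` (`y ∈ I j ≤ L`),
`ad X₊ = 2 X₊`, `ad X₋ = -2 X₋`, `ad X₀ = 0`.  Let `P = {X ∈ I j | ad X = 2 X}`, `N = {X ∈ I j | ad X = -2 X}`, and let `B` be the span of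
the `X * X' - X' * X`, `X ∈ P`, `X' ∈ N`; `M = P + B + N`.  `M` is an ideal of `L`: elements of `I i`, `i ≠ j`, commute with `I j`
(`hF.comm`, `hF.sup`: induction over the supremum), and for `X ∈ I j` treat `X₀`, `X₊`, `X₋` separately.  `[X₀, P] ⊆ P`,
`[X₀, N] ⊆ N` and `[X₀, B] ⊆ B` by the Jacobi identity.  `[P, P] = 0`: `ad X = 2 X` means `X = p X (1 - p)` with the idempotent
`p = (1 + y) / 2`, so `X X' = 0` for `X`, `X' ∈ P`; in the same way `[N, N] = 0`.  `[P, N] ⊆ B`.  `[P, B] ⊆ P`: `ad` of an element of `B` is `0`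
(Jacobi), so `ad [X, Z] = 2 [X, Z]` for `X ∈ P`, `Z ∈ B`, and `[X, Z] ∈ I j`.  The same for `N`.
`M ≠ ⊥`: otherwise `X₊ = X₋ = 0` for all `X ∈ I j`, `y` commutes with `I j`, hence with `L`, so `y` is a scalar (`h.gen`) of trace zero
(`h.tr`), so `y = 0`, contradiction to `y * y = 1`.  So `M = I j` (`hF.min`).  `Z` commutes with `P`, `N`, hence with `B` and with `M`. -/
theorem gen_of_grading (h : CmpN L) (hF : Fam L I) {j : Fin m} {y : Module.End K (κ → K)}
    (hy : y ∈ I j) (hy0 : y ≠ 0) {c : K} (hyy : (y + c • 1) * (y + c • 1) = 1) {Z : Module.End K (κ → K)}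
    (hZ : ∀ X ∈ I j, (y * X - X * y = (2 : K) • X ∨ y * X - X * y = (-2 : K) • X) →
      Z * X = X * Z) :
    ∀ X ∈ I j, Z * X = X * Z := by
  have hbr : ∀ W : Module.End K (κ → K), (y + c • 1) * W - W * (y + c • 1) = y * W - W * y := by
    intro W
    rw [add_mul, mul_add, smul_mul_assoc, mul_smul_comm, one_mul, mul_one]
    abel
  refine t7_abs (y := y + c • 1) (hF.ideal j).1 (hF.ideal j).2 (fun W hW => ?_) hyy ?_ ?_ ?_
    (fun X hX hyX => hZ X hX ?_)
  · rw [hbr]
    exact (hF.ideal j).2 y ((hF.ideal j).1 hy) W hW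
  · intro S hS1 hS2
    rw [← hF.sup]
    refine iSup_le fun i => ?_
    by_cases hij : i = j
    · rw [hij]
      exact hS1
    · intro W hW
      exact hS2 W fun X hX => hF.comm i j hij W hW X hX
  · intro J' h1 h2 h3
    exact hF.min j J' ⟨h1, h2⟩ h3
  · by_contra hcon
    push Not at hcon
    refine hy0 (t4_zero h hF ((hF.ideal j).1 hy) fun i Y hY => ?_)
    by_cases hij : i = j
    · subst hij
      have h2 := hcon Y hY
      rw [← sub_eq_zero, hbr, sub_eq_zero] at h2
      exact h2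
    · exact hF.comm j i (Ne.symm hij) y hy Y hY
  · rwa [hbr] at hyX

end Pool.Agent.H25U
end

-- from Lib.H25U.T8
section

/-!
# T8: a mixed root
-/

set_option autoImplicit false
set_option linter.unusedSectionVars false
namespace Pool.Agent.H25U
open Pool.Agent.H76P Pool.Agent.H76V Pool.Agent.H76Q
open Module Matrix Pool.Agent.H53Toric
open Pool.Agent.H76T (IsIdeal Fam)
open Pool.Agent.H76V (Cmp alg calg)

variable {κ : Type*} {K : Type*} [Field K] [CharZero K] [Fintype κ] [DecidableEq κ]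
  {L : Submodule K (Module.End K (κ → K))} {J : Matrix κ κ K}
variable [IsAlgClosed K] [Nonempty κ] {m : ℕ} {I : Fin m → Submodule K (Module.End K (κ → K))}

/-- PROOF. Suppose there is no such `X`.  Let `Z = dq f`, `y = dq ε`.  Claim: `Z` commutes with every `X ∈ I j` with `[y, X] = 2 X` or `= -2 X`:
`X` is the sum of its weight components `wc L δ X` (`wc_sum`), which are in `I j` (`wc_mem`, `hF.ideal j`); if `wc L δ X ≠ 0`, the
matrix of `X` has an entry `(a, b)`, not zero, with `pt L a - pt L b = δ`, and `[y, X] = ±2 X` gives `ε a - ε b = ±2`, so `ε a ≠ ε b`.  By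
assumption `f a = f b`, so `[Z, wc L δ X] = (f a - f b) wc L δ X = 0` (`wc_wt`).  So `Z` commutes with `X`.  By
`gen_of_grading` `Z` commutes with `I j`; `Z ∈ I j` commutes with `I i`, `i ≠ j`, so `Z` commutes with `L` (`hF.sup`), so it is a scalar
(`h.gen`) and `f` is constant; the sum of its values is `0` (`Yo_sum`), so `f = 0`. -/
theorem mixed_root (h : CmpN L) (hF : Fam L I) {j : Fin m} {ε : κ → ℚ} (hε : ε ∈ Hs L)
    (hε0 : ε ≠ 0) (hεj : dq ε ∈ I j) {f : κ → ℚ} (hf : f ∈ Yo L) (hfj : dq f ∈ I j) (hf0 : f ≠ 0) :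
    ∃ X ∈ I j, ∃ a b : κ, X ≠ 0 ∧ ε a ≠ ε b ∧ f a ≠ f b ∧ IsWt L (pt L a - pt L b) X := by
  classical
  by_contra hcon
  push Not at hcon
  have hεY : ε ∈ Yo L := Submodule.subset_span hε
  have claim : ∀ X ∈ I j, (dq ε * X - X * dq ε = (2 : K) • X ∨
      dq ε * X - X * dq ε = (-2 : K) • X) → dq f * X = X * dq f := by
    intro X hX hyX
    obtain ⟨s, -, hs⟩ := wc_sum (L := L) X
    have h1 : ∀ δ ∈ s, dq f * wc L δ X = wc L δ X * dq f := by
      intro δ _
      by_cases h0 : wc L δ X = 0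
      · rw [h0, mul_zero, zero_mul]
      · have h2 : ∃ a b, LinearMap.toMatrix' (wc L δ X) a b ≠ 0 := by
          by_contra h3
          push Not at h3
          apply h0
          refine t5_ext fun a b => ?_
          rw [h3 a b, map_zero, Matrix.zero_apply]
        obtain ⟨a, b, hab⟩ := h2
        rw [t5_wc] at hab
        by_cases h3 : pt L a - pt L b = δ
        swap
        · rw [if_neg h3] at hab
          exact absurd rfl hab
        rw [if_pos h3] at hab
        have h4 : ε a ≠ ε b := by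
          intro h5
          have h6 := t5_comm (L := L) ⟨ε, hεY⟩ X a b
          rw [LinearMap.sub_apply, pt_apply, pt_apply] at h6
          change LinearMap.toMatrix' (dq ε * X - X * dq ε) a b =
            ((ε a - ε b : ℚ) : K) * LinearMap.toMatrix' X a b at h6
          rw [h5, sub_self, Rat.cast_zero, zero_mul] at h6
          rcases hyX with h7 | h7 <;> rw [h7, map_smul, Matrix.smul_apply, smul_eq_mul] at h6
          · exact hab ((mul_eq_zero.1 h6).resolve_left two_ne_zero)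
          · exact hab ((mul_eq_zero.1 h6).resolve_left (neg_ne_zero.2 two_ne_zero))
        have h5 : IsWt L (pt L a - pt L b) (wc L δ X) := by
          rw [h3]
          exact wc_wt δ X
        have h6 : f a = f b := by
          by_contra h7
          exact hcon _ (wc_mem (hF.ideal j) hX δ) a b h0 h4 h7 h5
        have h7 := h5 ⟨f, hf⟩
        rw [LinearMap.sub_apply, pt_apply, pt_apply] at h7
        change dq f * wc L δ X - wc L δ X * dq f = ((f a - f b : ℚ) : K) • wc L δ X at h7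
        rw [h6, sub_self, Rat.cast_zero, zero_smul, sub_eq_zero] at h7
        exact h7
    rw [← hs, Finset.mul_sum, Finset.sum_mul]
    exact Finset.sum_congr rfl h1
  obtain ⟨⟨c, hc⟩, -⟩ := id hε
  have hd0 : (dq ε : Module.End K (κ → K)) ≠ 0 := by
    intro h0
    apply hε0
    apply dq_inj (K := K)
    rw [h0]
    refine LinearMap.ext fun v => funext fun a => ?_
    simp [dq, dg_apply]
  have h2 := gen_of_grading h hF hεj hd0 (dq_sqU hc) claim
  have h3 : (dq f : Module.End K (κ → K)) = 0 := t4_zero h hF ((hF.ideal j).1 hfj) fun i Y hY => by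
    by_cases hij : i = j
    · subst hij
      exact h2 Y hY
    · exact hF.comm j i (Ne.symm hij) _ hfj Y hY
  apply hf0
  apply dq_inj (K := K)
  rw [h3]
  refine LinearMap.ext fun v => funext fun a => ?_
  simp [dq, dg_apply]

end Pool.Agent.H25U
end

-- from Lib.H25U.T3
section

/-!
# T3: mixing of coordinates
-/

set_option autoImplicit false
set_option linter.unusedSectionVars false
namespace Pool.Agent.H25U
open Pool.Agent.H76P Pool.Agent.H76V Pool.Agent.H76Q
open Module Matrix Pool.Agent.H53Toric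
open Pool.Agent.H76T (IsIdeal Fam)
open Pool.Agent.H76V (Cmp alg calg)

variable {κ : Type*} {K : Type*} [Field K] [CharZero K] [Fintype κ] [DecidableEq κ]
  {L : Submodule K (Module.End K (κ → K))} {J : Matrix κ κ K} {ν : κ → ℚ}

/-- Indicators. PROOF. For `c` with `∃ f ∈ S, f c ≠ f b` choose such an `f = f_c`; the product over these `c` of the operators
`(f_c b - f_c c)⁻¹ • (dq f_c - f_c c • 1)` is `dg` of a function which is `1` at all `d` with `f d = f b` for all `f ∈ S`, and `0` at all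
other points. -/
theorem indicator_mem {A : Subalgebra K (Module.End K (κ → K))} {S : Set (κ → ℚ)}
    (hS : ∀ f ∈ S, dq f ∈ A) (b : κ) : ∃ g : κ → K, dg g ∈ A ∧ g b = 1 ∧
      ∀ c, g c ≠ 0 → ∀ f ∈ S, f c = f b := by
  have key : ∀ s : Finset κ, ∃ g : κ → K, dg g ∈ A ∧ g b = 1 ∧
      ∀ c ∈ s, g c ≠ 0 → ∀ f ∈ S, f c = f b := by
    intro s
    induction s using Finset.induction_on with
    | empty =>
      refine ⟨1, ?_, rfl, fun c hc => absurd hc (Finset.notMem_empty c)⟩
      rw [dg_one]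
      exact A.one_mem
    | insert c s hcs ih =>
      obtain ⟨g, hg, hgb, hgs⟩ := ih
      by_cases hc : ∀ f ∈ S, f c = f b
      · refine ⟨g, hg, hgb, fun d hd hgd => ?_⟩
        rcases Finset.mem_insert.1 hd with h1 | h1
        · rw [h1]
          exact hc
        · exact hgs d h1 hgd
      · push Not at hc
        obtain ⟨f, hf, hne⟩ := hc
        have hfb : ((f b : K) - (f c : K)) ≠ 0 := by
          intro h1
          apply hne
          have h2 : (f b : K) = (f c : K) := sub_eq_zero.1 h1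
          exact_mod_cast h2.symm
        have hmem : dg (fun d => ((f b : K) - (f c : K))⁻¹ * ((f d : K) - (f c : K))) ∈ A := by
          have e : dg (fun d => ((f b : K) - (f c : K))⁻¹ * ((f d : K) - (f c : K))) =
              ((f b : K) - (f c : K))⁻¹ • ((dq f : Module.End K (κ → K)) - (f c : K) • 1) := by
            refine LinearMap.ext fun v => funext fun d => ?_
            unfold dq
            simp only [dg_apply, LinearMap.smul_apply, LinearMap.sub_apply, Pi.smul_apply,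
              Pi.sub_apply, Module.End.one_apply, smul_eq_mul]
            ring
          rw [e]
          exact A.smul_mem (A.sub_mem (hS f hf) (A.smul_mem A.one_mem _)) _
        refine ⟨(fun d => ((f b : K) - (f c : K))⁻¹ * ((f d : K) - (f c : K))) * g, ?_, ?_, ?_⟩
        · rw [← dg_mul]
          exact A.mul_mem hmem hg
        · rw [Pi.mul_apply, hgb, mul_one]
          exact inv_mul_cancel₀ hfb
        · intro d hd hgd
          rw [Pi.mul_apply] at hgd
          rcases Finset.mem_insert.1 hd with h1 | h1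
          · exfalso
            apply hgd
            rw [h1]
            show ((f b : K) - (f c : K))⁻¹ * ((f c : K) - (f c : K)) * g c = 0
            rw [sub_self, mul_zero, zero_mul]
          · exact hgs d h1 (right_ne_zero_of_mul hgd)
  obtain ⟨g, h1, h2, h3⟩ := key Finset.univ
  exact ⟨g, h1, h2, fun c hc => h3 c (Finset.mem_univ c) hc⟩

variable [IsAlgClosed K] [Nonempty κ] {m : ℕ} {I : Fin m → Submodule K (Module.End K (κ → K))}

/-- PROOF. `indicator_mem` for `A = alg I j`, `S = {f | dq f ∈ I j}` and `b`: `p = dg g`; and for `A = calg I j`,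
`S = {f | ∃ i ≠ j, dq f ∈ I i}` and `a`: `q = dg g'`.  Both are nonzero (value at `b`, at `a`), so `p * q ≠ 0` by `nonvan`
(`Fam.calg_comm`, `Fam.calg_top`), i.e. there is `c` with `g c ≠ 0`, `g' c ≠ 0`. -/
theorem mix (h : CmpN L) (hF : Fam L I) (j : Fin m) (a b : κ) :
    ∃ c, (∀ f : κ → ℚ, dq f ∈ I j → f c = f b) ∧
      ∀ i, i ≠ j → ∀ f : κ → ℚ, dq f ∈ I i → f c = f a := by
  obtain ⟨g, hg, hgb, hgS⟩ := indicator_mem (A := alg I j)
    (S := {f : κ → ℚ | (dq f : Module.End K (κ → K)) ∈ I j}) (fun f hf => Pool.Agent.H76V.mem_alg hf) b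
  obtain ⟨g', hg', hga, hgS'⟩ := indicator_mem (A := calg I j)
    (S := {f : κ → ℚ | ∃ i, i ≠ j ∧ (dq f : Module.End K (κ → K)) ∈ I i})
    (fun f hf => by
      obtain ⟨i, hij, hfi⟩ := hf
      exact Pool.Agent.H76V.mem_calg hij hfi) a
  have hp0 : dg g ≠ (0 : Module.End K (κ → K)) := by
    intro h0
    have h1 := congrFun (congrArg (fun T : Module.End K (κ → K) => T (Pi.single b 1)) h0) b
    simp only [dg_apply, Pi.single_eq_same, hgb, LinearMap.zero_apply, Pi.zero_apply, mul_one] at h1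
    exact one_ne_zero h1
  have hq0 : dg g' ≠ (0 : Module.End K (κ → K)) := by
    intro h0
    have h1 := congrFun (congrArg (fun T : Module.End K (κ → K) => T (Pi.single a 1)) h0) a
    simp only [dg_apply, Pi.single_eq_same, hga, LinearMap.zero_apply, Pi.zero_apply, mul_one] at h1
    exact one_ne_zero h1
  have hpq := nonvan (Pool.Agent.H76V.Fam.calg_comm hF j) (Pool.Agent.H76V.Fam.calg_top hF h.irr j) hg hg' hp0 hq0
  rw [dg_mul] at hpq
  have hex : ∃ c, (g * g') c ≠ 0 := by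
    by_contra hcon
    push Not at hcon
    apply hpq
    refine LinearMap.ext fun v => funext fun c => ?_
    rw [dg_apply, hcon c, zero_mul]
    rfl
  obtain ⟨c, hc⟩ := hex
  rw [Pi.mul_apply] at hc
  refine ⟨c, fun f hf => hgS c (left_ne_zero_of_mul hc) f hf, fun i hij f hf => ?_⟩
  exact hgS' c (right_ne_zero_of_mul hc) f ⟨i, hij, hf⟩

end Pool.Agent.H25U
end

-- from Lib.H25U.T13
section

/-!
# T13: the decomposition of the space of functions
-/

set_option autoImplicit false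
set_option linter.unusedSectionVars false
namespace Pool.Agent.H25U
open Pool.Agent.H76P Pool.Agent.H76V Pool.Agent.H76Q
open Module Matrix Pool.Agent.H53Toric
open Pool.Agent.H76T (IsIdeal Fam)
open Pool.Agent.H76V (Cmp alg calg)

variable {κ : Type*} {K : Type*} [Field K] [CharZero K] [Fintype κ] [DecidableEq κ]
  {L : Submodule K (Module.End K (κ → K))} {J : Matrix κ κ K} {ν : κ → ℚ}
variable [IsAlgClosed K] [Nonempty κ] {m : ℕ} {I : Fin m → Submodule K (Module.End K (κ → K))}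

theorem t13_zero : (dq (0 : κ → ℚ) : Module.End K (κ → K)) = 0 := by
  have h2 := dq_smul (K := K) (0 : ℚ) (0 : κ → ℚ)
  rw [zero_smul, Rat.cast_zero, zero_smul] at h2
  exact h2

/-- `g` is a decomposition of `f` -/
def t13D (L : Submodule K (Module.End K (κ → K))) (I : Fin m → Submodule K (Module.End K (κ → K)))
    (f : κ → ℚ) (g : Fin m → κ → ℚ) : Prop :=
  (∀ i, g i ∈ Yo L ∧ dq (g i) ∈ I i) ∧ ∑ i, g i = f

theorem t13_single {f : κ → ℚ} (hf : f ∈ Yo L) {j : Fin m} (hj : dq f ∈ I j) :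
    t13D L I f (fun i => if i = j then f else 0) := by
  refine ⟨fun i => ?_, ?_⟩
  · dsimp only
    by_cases hij : i = j
    · rw [if_pos hij, hij]
      exact ⟨hf, hj⟩
    · rw [if_neg hij, t13_zero]
      exact ⟨Submodule.zero_mem _, Submodule.zero_mem _⟩
  · rw [Finset.sum_ite_eq' Finset.univ j (fun _ => f), if_pos (Finset.mem_univ j)]

theorem t13_add {f f' : κ → ℚ} {g g' : Fin m → κ → ℚ} (h : t13D L I f g) (h' : t13D L I f' g') :
    t13D L I (f + f') (g + g') := by
  refine ⟨fun i => ⟨Submodule.add_mem _ (h.1 i).1 (h'.1 i).1, ?_⟩, ?_⟩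
  · rw [Pi.add_apply, dq_add]
    exact Submodule.add_mem _ (h.1 i).2 (h'.1 i).2
  · rw [← h.2, ← h'.2, ← Finset.sum_add_distrib]
    rfl

theorem t13_smul (c : ℚ) {f : κ → ℚ} {g : Fin m → κ → ℚ} (h : t13D L I f g) :
    t13D L I (c • f) (c • g) := by
  refine ⟨fun i => ⟨Submodule.smul_mem _ c (h.1 i).1, ?_⟩, ?_⟩
  · rw [Pi.smul_apply, dq_smul]
    exact Submodule.smul_mem _ _ (h.1 i).2
  · rw [← h.2, Finset.smul_sum]
    rfl

theorem t13_dq_sum (g : Fin m → κ → ℚ) (s : Finset (Fin m)) :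
    (dq (∑ i ∈ s, g i) : Module.End K (κ → K)) = ∑ i ∈ s, dq (g i) := by
  induction s using Finset.induction_on with
  | empty => rw [Finset.sum_empty, Finset.sum_empty, t13_zero]
  | insert a s ha ih => rw [Finset.sum_insert ha, Finset.sum_insert ha, dq_add, ih]

theorem t13_unique (h : CmpN L) (hF : Fam L I) {f : κ → ℚ} {g g' : Fin m → κ → ℚ}
    (hg : t13D L I f g) (hg' : t13D L I f g') (j : Fin m) : g j = g' j := by
  have h1 := indep h hF (X := fun i => dq (g i) - dq (g' i))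
    (fun i => Submodule.sub_mem _ (hg.1 i).2 (hg'.1 i).2) (by
      rw [Finset.sum_sub_distrib, ← t13_dq_sum, ← t13_dq_sum, hg.2, hg'.2, sub_self]) j
  exact dq_inj (K := K) (sub_eq_zero.1 h1)

/-- PROOF. Every element of `Hs L` is in one of the `I j` (`Hs_mem`); span induction. -/
theorem exists_decomp (h : CmpN L) (hF : Fam L I) {f : κ → ℚ} (hf : f ∈ Yo L) :
    ∃ g : Fin m → κ → ℚ, (∀ i, g i ∈ Yo L ∧ dq (g i) ∈ I i) ∧ ∑ i, g i = f := by
  have key : f ∈ Submodule.span ℚ (Hs L) := hf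
  induction key using Submodule.span_induction with
  | mem ε hε =>
    by_cases h0 : (dq ε : Module.End K (κ → K)) = 0
    · have h1 : ε = 0 := dq_inj (K := K) (by rw [h0, t13_zero])
      subst h1
      refine ⟨0, fun i => ⟨Submodule.zero_mem _, ?_⟩, Finset.sum_const_zero⟩
      rw [Pi.zero_apply, t13_zero]
      exact Submodule.zero_mem _
    obtain ⟨j, hj⟩ := Hs_mem h hF hε h0
    exact ⟨_, t13_single (Submodule.subset_span hε) hj⟩
  | zero =>
    refine ⟨0, fun i => ⟨Submodule.zero_mem _, ?_⟩, Finset.sum_const_zero⟩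
    rw [Pi.zero_apply, t13_zero]
    exact Submodule.zero_mem _
  | add x y hx hy ihx ihy =>
    obtain ⟨g, hg⟩ := ihx hx
    obtain ⟨g', hg'⟩ := ihy hy
    exact ⟨_, t13_add hg hg'⟩
  | smul c x hx ihx =>
    obtain ⟨g, hg⟩ := ihx hx
    exact ⟨_, t13_smul c hg⟩

/-- PROOF. `P f = g j` with `g` as in `exists_decomp`; `g` is unique by `indep` and `dq_inj`, so `P` is linear, `P f = f` if
`dq f ∈ I j` and `P f = 0` if `dq f ∈ I i`, `i ≠ j`.  (Or: the subspaces `{f : Yo L | dq f ∈ I i}` are independent with sum `⊤`.)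
`P * P = P`, so `P.dualMap` is idempotent.  Splitting: for `a`, `b` let `c` be as in `mix`; for `f : Yo L` with the components
`g i`: `f c = g j c + ∑_{i ≠ j} g i c = g j b + ∑_{i ≠ j} g i a = f a + (P f) b - (P f) a`. -/
theorem exists_proj (h : CmpN L) (hF : Fam L I) (j : Fin m) :
    ∃ P : Module.End ℚ (Yo L), (∀ f, dq (P f : κ → ℚ) ∈ I j) ∧
      (∀ f : Yo L, dq (f : κ → ℚ) ∈ I j → P f = f) ∧
      (∀ i, i ≠ j → ∀ f : Yo L, dq (f : κ → ℚ) ∈ I i → P f = 0) ∧
      Spl (pt L) P.dualMap := by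
  choose G hG using fun f : Yo L => exists_decomp h hF f.2
  have hG' : ∀ f : Yo L, t13D L I (f : κ → ℚ) (G f) := hG
  let P : Module.End ℚ (Yo L) :=
    { toFun := fun f => ⟨G f j, ((hG' f).1 j).1⟩
      map_add' := fun f f' => Subtype.ext
        (t13_unique h hF (hG' (f + f')) (t13_add (hG' f) (hG' f')) j)
      map_smul' := fun c f => Subtype.ext
        (t13_unique h hF (hG' (c • f)) (t13_smul c (hG' f)) j) }
  have hP : ∀ f, ((P f : Yo L) : κ → ℚ) = G f j := fun f => rfl
  have hP1 : ∀ f, dq (P f : κ → ℚ) ∈ I j := fun f => ((hG' f).1 j).2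
  have hP2 : ∀ f : Yo L, dq (f : κ → ℚ) ∈ I j → P f = f := by
    intro f hf
    apply Subtype.ext
    rw [hP, t13_unique h hF (hG' f) (t13_single f.2 hf) j, if_pos rfl]
  have hP3 : ∀ i, i ≠ j → ∀ f : Yo L, dq (f : κ → ℚ) ∈ I i → P f = 0 := by
    intro i hij f hf
    apply Subtype.ext
    rw [hP, t13_unique h hF (hG' f) (t13_single f.2 hf) j, if_neg (Ne.symm hij)]
    rfl
  refine ⟨P, hP1, hP2, hP3, ?_, fun a b => ?_⟩
  · refine LinearMap.ext fun φ => LinearMap.ext fun f => ?_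
    show φ (P (P f)) = φ (P f)
    rw [hP2 (P f) (hP1 f)]
  · obtain ⟨c, hc1, hc2⟩ := mix h hF j a b
    refine ⟨c, LinearMap.ext fun f => ?_⟩
    show (f : κ → ℚ) c = (f : κ → ℚ) a + ((P f : κ → ℚ) b - (P f : κ → ℚ) a)
    rw [hP]
    have hs : ∀ x, (f : κ → ℚ) x = G f j x + ∑ i ∈ Finset.univ.erase j, G f i x := by
      intro x
      rw [Finset.add_sum_erase Finset.univ (fun i => G f i x) (Finset.mem_univ j),
        ← Finset.sum_apply, (hG' f).2]
    rw [hs c, hs a, hc1 _ ((hG' f).1 j).2]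
    have h5 : ∑ i ∈ Finset.univ.erase j, G f i c = ∑ i ∈ Finset.univ.erase j, G f i a :=
      Finset.sum_congr rfl fun i hi => hc2 i (Finset.ne_of_mem_erase hi) _ ((hG' f).1 i).2
    rw [h5]
    ring

end Pool.Agent.H25U
end

-- from Lib.H25U.A1c
section

/-!
# A1: the component without assumption on the valuation (copies of parts of H76P.T1, T2, T4, T10, T11)
-/

set_option autoImplicit false
set_option linter.unusedSectionVars false
namespace Pool.Agent.H25U
open Pool.Agent.H76P Pool.Agent.H76V Pool.Agent.H76Q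
open Module Matrix Pool.Agent.H53Toric
open Pool.Agent.H76P
open Pool.Agent.H76T (IsIdeal Fam)
open Pool.Agent.H76V (Cmp alg calg)

variable {κ : Type*} {K : Type*} [Field K] [CharZero K] [Fintype κ] [DecidableEq κ]
  {L : Submodule K (Module.End K (κ → K))} {J : Matrix κ κ K}

/-- PROOF. The entry `(a, b)` of the matrix of `X` (`a ≠ b`) is zero: with `f` as in `TM.sep` compare the entries `(a, b)` of
`X * dq f` and `dq f * X`. -/
theorem TM.diag_of_comm (h : TM L) {X : Module.End K (κ → K)}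
    (hX : ∀ f ∈ Yo L, X * dq f = dq f * X) : ∃ g : κ → K, X = dg g := by
  have hz : ∀ a b : κ, a ≠ b → X (Pi.single b 1) a = 0 := by
    intro a b hab
    obtain ⟨f, hf, hne⟩ := h.sep a b hab
    have h1 := congrFun (congrArg (fun T : Module.End K (κ → K) => T (Pi.single b 1)) (hX f hf)) a
    simp only [Module.End.mul_apply] at h1
    have h2 : (dq f : Module.End K (κ → K)) (Pi.single b 1) = (f b : K) • Pi.single b (1 : K) := by
      funext c
      unfold dq
      rw [dg_apply, Pi.smul_apply, smul_eq_mul]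
      by_cases hc : c = b
      · rw [hc]
      · rw [Pi.single_eq_of_ne hc, mul_zero, mul_zero]
    rw [h2, map_smul, Pi.smul_apply, smul_eq_mul] at h1
    unfold dq at h1
    rw [dg_apply] at h1
    have h3 : ((f b : K) - (f a : K)) * X (Pi.single b 1) a = 0 := by
      rw [sub_mul, h1, sub_self]
    rcases mul_eq_zero.1 h3 with h4 | h4
    · exfalso
      apply hne
      have h5 : (f b : K) = (f a : K) := sub_eq_zero.1 h4
      exact_mod_cast h5.symm
    · exact h4
  refine ⟨fun a => X (Pi.single a 1) a, ?_⟩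
  refine LinearMap.pi_ext' fun b => LinearMap.ext_ring (funext fun a => ?_)
  show X (Pi.single b 1) a = dg (fun a => X (Pi.single a 1) a) (Pi.single b 1) a
  rw [dg_apply]
  by_cases hab : a = b
  · rw [hab, Pi.single_eq_same, mul_one]
  · rw [hz a b hab, Pi.single_eq_of_ne hab, mul_zero]

/-- PROOF. `TM.sep`. -/
theorem TM.pt_inj (h : TM L) : Function.Injective (pt L) := by
  intro a b hab
  by_contra hne
  obtain ⟨f, hf, hfab⟩ := h.sep a b hne
  apply hfab
  have h1 := congrArg (fun φ : Module.Dual ℚ (Yo L) => φ ⟨f, hf⟩) hab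
  exact h1

variable [IsAlgClosed K] [Nonempty κ] {m : ℕ} {I : Fin m → Submodule K (Module.End K (κ → K))}

/-- PROOF. If not, every `ε ∈ Hs L` is in some `I i` with `i ≠ j` (`Hs_mem`), so `dq ε` commutes with all `X ∈ I j` (`hF.comm`), so
`dq f` commutes with `X` for all `f ∈ Yo L`, so all elements of `I j` are diagonal (`TM.diag_of_comm`) and commute with each other.
They commute with the elements of `I i`, `i ≠ j`, too, so they commute with `L`; they are scalars of trace zero, and `I j = ⊥`,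
contradiction to `hF.ne_bot`. -/
theorem TM.exists_diag (h : TM L) (hF : Fam L I) (j : Fin m) :
    ∃ f ∈ Yo L, f ≠ 0 ∧ dq f ∈ I j := by
  by_contra hcon
  push Not at hcon
  have h1 : ∀ X ∈ I j, ∀ f ∈ Yo L, X * dq f = dq f * X := by
    intro X hX f hf
    unfold Yo at hf
    induction hf using Submodule.span_induction with
    | mem ε hε =>
      by_cases h00 : ε = 0
      · rw [h00, t13_zero, mul_zero, zero_mul]
      obtain ⟨i, hi⟩ := Hs_mem h.cmp hF hε (fun h0 => h00 (dq_inj (K := K) (by rw [h0, t13_zero])))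
      have hij : j ≠ i := by
        rintro rfl
        exact hcon ε (Submodule.subset_span hε) h00 hi
      exact hF.comm j i hij X hX _ hi
    | zero =>
      have h2 : (dq (0 : κ → ℚ) : Module.End K (κ → K)) = 0 := by
        refine LinearMap.ext fun v => funext fun a => ?_
        simp [dq, dg_apply]
      rw [h2, mul_zero, zero_mul]
    | add f g _ _ hf hg => rw [dq_add, mul_add, add_mul, hf, hg]
    | smul c f _ hf => rw [dq_smul, mul_smul_comm, smul_mul_assoc, hf]
  apply hF.ne_bot j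
  rw [eq_bot_iff]
  intro X hX
  rw [Submodule.mem_bot]
  refine t4_zero h.cmp hF ((hF.ideal j).1 hX) fun i Y hY => ?_
  by_cases hij : i = j
  · subst hij
    obtain ⟨g, rfl⟩ := h.diag_of_comm (h1 X hX)
    obtain ⟨g', rfl⟩ := h.diag_of_comm (h1 Y hY)
    rw [dg_mul, dg_mul, mul_comm]
  · exact hF.comm j i (Ne.symm hij) X hX Y hY

/-- an operator of weight zero is diagonal -/
theorem ts_diag (h : TM L) {δ : Module.Dual ℚ (Yo L)} (hδ : δ = 0)
    {X : Module.End K (κ → K)} (hX : IsWt L δ X) : ∃ g : κ → K, X = dg g := by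
  apply h.diag_of_comm
  intro f hf
  have h1 := hX ⟨f, hf⟩
  rw [hδ, LinearMap.zero_apply, Rat.cast_zero, zero_smul, sub_eq_zero] at h1
  exact h1.symm

/-- PROOF. `e = X * Y` and `e' = Y * X` are idempotent, `e * e' = X Y Y X = 0`, `e' * e = Y X X Y = 0`; both have weight `0`
(`IsWt.mul`), i.e. they commute with all `dq f`, `f ∈ Yo L`, so `e = dg g`, `e' = dg g'` (`TM.diag_of_comm`) with `g a, g' a ∈ {0, 1}`,
`g a * g' a = 0` (`dg_mul`, `dg_inj`).  Let `fv a = (if g a = 1 then 1 else 0) - (if g' a = 1 then 1 else 0)`.  `dq fv = e - e' = [X, Y] ∈ I j ≤ L`, so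
`fv ∈ Yo L` (`h.diag`).  `e' ≠ 0` since `X * e' = X ≠ 0`, so there is `a` with `g' a = 1`, `fv a = -1`.  If `fv c = -1` then `g' c = 1`; let `u` be the
basis vector `Pi.single c 1`, `w = X u`; `Y w = e' u = u`, so `w ≠ 0`; let `w d ≠ 0`: the entry `(d, c)` of `X` is not zero, so
`pt L d - pt L c = δ` (`IsWt.entry`); `e w = X Y X u = w`, so `g d * w d = w d`, `g d = 1`, `fv d = 1`.  The same for `fv c = 1` with `Y`, `e`. -/
theorem TM.coroot (h : TM L) (hF : Fam L I) {j : Fin m} {X Y : Module.End K (κ → K)}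
    (hX : X ∈ I j) (hY : Y ∈ I j) (hX0 : X ≠ 0) {δ : Module.Dual ℚ (Yo L)}
    (hwX : IsWt L δ X) (hwY : IsWt L (-δ) Y) (hXX : X * X = 0) (hYY : Y * Y = 0)
    (hXYX : X * Y * X = X) (hYXY : Y * X * Y = Y) :
    ∃ fv ∈ Yo L, (∀ a, fv a = -1 ∨ fv a = 0 ∨ fv a = 1) ∧ (∃ a, fv a = -1) ∧
      (∀ c, fv c = -1 → ∃ d, pt L d = pt L c + δ ∧ fv d = 1) ∧
      (∀ c, fv c = 1 → ∃ d, pt L d = pt L c - δ ∧ fv d = -1) := by
  classical
  obtain ⟨g, hg⟩ := ts_diag h (add_neg_cancel δ) (hwX.mul hwY)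
  obtain ⟨g', hg'⟩ := ts_diag h (neg_add_cancel δ) (hwY.mul hwX)
  have hgg : ∀ a, g a = 0 ∨ g a = 1 := by
    intro a
    have h1 : dg (g * g) = dg g := by
      rw [← dg_mul, ← hg, ← mul_assoc, hXYX]
    have h2 := congrFun (dg_inj h1) a
    rw [Pi.mul_apply] at h2
    have h3 : g a * (g a - 1) = 0 := by linear_combination h2
    rcases mul_eq_zero.1 h3 with h4 | h4
    · exact Or.inl h4
    · exact Or.inr (sub_eq_zero.1 h4)
  have hgg' : ∀ a, g' a = 0 ∨ g' a = 1 := by
    intro a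
    have h1 : dg (g' * g') = dg g' := by
      rw [← dg_mul, ← hg', ← mul_assoc, hYXY]
    have h2 := congrFun (dg_inj h1) a
    rw [Pi.mul_apply] at h2
    have h3 : g' a * (g' a - 1) = 0 := by linear_combination h2
    rcases mul_eq_zero.1 h3 with h4 | h4
    · exact Or.inl h4
    · exact Or.inr (sub_eq_zero.1 h4)
  have hmul : ∀ a, g a * g' a = 0 := by
    intro a
    have h1 : dg (g * g') = dg (0 : κ → K) := by
      rw [← dg_mul, ← hg, ← hg']
      have h2 : X * Y * (Y * X) = X * (Y * Y) * X := by noncomm_ring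
      rw [h2, hYY, mul_zero, zero_mul]
      refine LinearMap.ext fun v => funext fun b => ?_
      simp [dg_apply]
    exact congrFun (dg_inj h1) a
  set fv : κ → ℚ := fun a => (if g a = 1 then 1 else 0) - (if g' a = 1 then 1 else 0) with hfv
  have hval : ∀ a, (g a = 0 ∧ g' a = 0 ∧ fv a = 0) ∨ (g a = 1 ∧ g' a = 0 ∧ fv a = 1) ∨
      (g a = 0 ∧ g' a = 1 ∧ fv a = -1) := by
    intro a
    have h0 := hmul a
    rcases hgg a with h1 | h1 <;> rcases hgg' a with h2 | h2
    · left
      exact ⟨h1, h2, by simp [hfv, h1, h2]⟩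
    · right; right
      exact ⟨h1, h2, by simp [hfv, h1, h2]⟩
    · right; left
      exact ⟨h1, h2, by simp [hfv, h1, h2]⟩
    · rw [h1, h2, mul_one] at h0
      exact absurd h0 one_ne_zero
  have hdq : (dq fv : Module.End K (κ → K)) = X * Y - Y * X := by
    rw [hg, hg']
    refine LinearMap.ext fun v => funext fun a => ?_
    rw [LinearMap.sub_apply, Pi.sub_apply, dg_apply, dg_apply, dq, dg_apply]
    rcases hval a with ⟨h1, h2, h3⟩ | ⟨h1, h2, h3⟩ | ⟨h1, h2, h3⟩ <;> rw [h1, h2, h3] <;>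
      push_cast <;> ring
  have hL : (dq fv : Module.End K (κ → K)) ∈ L := by
    rw [hdq]
    exact (hF.ideal j).1 ((hF.ideal j).2 X ((hF.ideal j).1 hX) Y hY)
  refine ⟨fv, h.diag fv hL, ?_, ?_, ?_, ?_⟩
  · intro a
    rcases hval a with ⟨-, -, h3⟩ | ⟨-, -, h3⟩ | ⟨-, -, h3⟩
    · exact Or.inr (Or.inl h3)
    · exact Or.inr (Or.inr h3)
    · exact Or.inl h3
  · by_contra hcon
    push Not at hcon
    apply hX0
    have h1 : g' = 0 := by
      ext a
      rcases hval a with ⟨-, h2, -⟩ | ⟨-, h2, -⟩ | ⟨-, -, h3⟩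
      · exact h2
      · exact h2
      · exact absurd h3 (hcon a)
    have h2 : Y * X = 0 := by
      rw [hg', h1]
      refine LinearMap.ext fun v => funext fun b => ?_
      simp [dg_apply]
    rw [← hXYX, mul_assoc, h2, mul_zero]
  · intro c hc
    have hc' : g' c = 1 := by
      rcases hval c with ⟨-, -, h3⟩ | ⟨-, -, h3⟩ | ⟨-, h2, -⟩
      · rw [h3] at hc; norm_num at hc
      · rw [h3] at hc; norm_num at hc
      · exact h2
    obtain ⟨d, hd1, hd2⟩ := t10_entry hwX hXYX hg hg' hc'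
    refine ⟨d, ?_, ?_⟩
    · rw [← hd1]; abel
    · rcases hval d with ⟨h1, -, -⟩ | ⟨-, -, h3⟩ | ⟨h1, -, -⟩
      · rw [h1] at hd2; exact absurd hd2 zero_ne_one
      · exact h3
      · rw [h1] at hd2; exact absurd hd2 zero_ne_one
  · intro c hc
    have hc' : g c = 1 := by
      rcases hval c with ⟨-, -, h3⟩ | ⟨h1, -, -⟩ | ⟨-, -, h3⟩
      · rw [h3] at hc; norm_num at hc
      · exact h1
      · rw [h3] at hc; norm_num at hc
    obtain ⟨d, hd1, hd2⟩ := t10_entry hwY hYXY hg' hg hc'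
    refine ⟨d, ?_, ?_⟩
    · rw [sub_eq_iff_eq_add'] at hd1
      rw [hd1, sub_eq_add_neg]
    · rcases hval d with ⟨-, h2, -⟩ | ⟨-, h2, -⟩ | ⟨-, -, h3⟩
      · rw [h2] at hd2; exact absurd hd2 zero_ne_one
      · rw [h2] at hd2; exact absurd hd2 zero_ne_one
      · exact h3

/-- PROOF. Notation: `V = Dual ℚ (Yo L)`, `π = P.dualMap`, so `(π u) f = u (P f)`; `q * π = q`; by `Spl.comm` also `π * q = q`.
(1) There is `ε ∈ Hs L` with `(q u) ε = u ε` for all `u`: `q ≠ 0`, so there are `u`, `f` with `(q u) f ≠ 0`; `f` is in the span of `Hs L`, so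
`(q u) ε ≠ 0` for some `ε ∈ Hs L` (as an element of `Yo L`); apply `two_values` (C6) with the functional `u ↦ u ε` on `V`.
For all `u`: `u (P ε) = (π u) ε = (q (π u)) ε = ((q * π) u) ε = (q u) ε = u ε`, so `P ε = ε` and `dq ε ∈ I j` (`hP1`).
(2) There is `f' : Yo L`, `f' ≠ 0`, `P f' = f'`, `(q u) f' = 0` for all `u`: `r = π - q ≠ 0`, so `(r u) f ≠ 0` for some `u`, `f`.  As `Yo L` is finite
dimensional, there is `f'` with `u f' = (r u) f` for all `u` (the functional `u ↦ (r u) f` on `V`, reflexivity).  `f' ≠ 0`.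
`(q u) f' = (r (q u)) f = ((π * q - q * q) u) f = 0`.  `u (P f') = (π u) f' = (r (π u)) f = ((π * π - q * π) u) f = (r u) f = u f'`, so `P f' = f'` and
`dq f' ∈ I j`.
(3) `mixed_root` for `ε`, `f'` gives `X`, `a`, `b`; let `δ = pt L a - pt L b`.  `(q δ) ε = δ ε = ε a - ε b ≠ 0`, so `q δ ≠ 0`.
`((1 - q) δ) f' = δ f' = f' a - f' b ≠ 0`, so `(1 - q) δ ≠ 0`.
(4) `sl2_pair`, `coroot` give `fv`; `root_two` (C7) with the functional `u ↦ u fv`. -/
theorem TM.atom_two (h : TM L) (hF : Fam L I) {j : Fin m} {P : Module.End ℚ (Yo L)}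
    (hP1 : ∀ f, dq (P f : κ → ℚ) ∈ I j)
    (hP2 : ∀ f : Yo L, dq (f : κ → ℚ) ∈ I j → P f = f) (hPS : Spl (pt L) P.dualMap)
    {q : Module.End ℚ (Module.Dual ℚ (Yo L))} (hq : Atom (pt L) q) (hqP : q * P.dualMap = q)
    (hne : q ≠ P.dualMap) : cnt (pt L) q = 2 := by
  have hs : Spans (pt L) := pt_spans h.cmp
  have hcomm := Spl.comm hs hq.1 hPS
  have hπq : ∀ u, P.dualMap (q u) = q u := fun u => by
    have h1 : (P.dualMap * q) u = q u := by rw [← hcomm, hqP]
    exact h1
  have hqπ : ∀ u, q (P.dualMap u) = q u := fun u => by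
    have h1 : (q * P.dualMap) u = q u := by rw [hqP]
    exact h1
  have hππ : ∀ u, P.dualMap (P.dualMap u) = P.dualMap u := fun u => by
    have h1 : (P.dualMap * P.dualMap) u = P.dualMap u := by rw [hPS.1]
    exact h1
  have hqq : ∀ u, q (q u) = q u := fun u => by
    have h1 : (q * q) u = q u := by rw [hq.1.1]
    exact h1
  have hπ : ∀ (u : Module.Dual ℚ (Yo L)) (f : Yo L), u (P f) = P.dualMap u f := fun u f => by
    rw [LinearMap.dualMap_apply]
  have hsep : ∀ f g : Yo L, (∀ u : Module.Dual ℚ (Yo L), u f = u g) → f = g := by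
    intro f g hfg
    rw [← sub_eq_zero, ← Module.forall_dual_apply_eq_zero_iff ℚ]
    intro u
    rw [map_sub, hfg u, sub_self]
  -- (1)
  have hstep1 : ∃ (ε : κ → ℚ) (hε : ε ∈ Hs L), ε ≠ 0 ∧ ∀ u : Module.Dual ℚ (Yo L),
      q u ⟨ε, Submodule.subset_span hε⟩ = u ⟨ε, Submodule.subset_span hε⟩ := by
    have h1 : ∃ u, q u ≠ 0 := by
      by_contra h2
      push Not at h2
      exact hq.2.1 (LinearMap.ext h2)
    obtain ⟨u, hu⟩ := h1
    have h2 : ∃ (ε : κ → ℚ) (hε : ε ∈ Hs L), q u ⟨ε, Submodule.subset_span hε⟩ ≠ 0 := by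
      by_contra h3
      push Not at h3
      apply hu
      refine LinearMap.ext fun f => ?_
      obtain ⟨f, hf⟩ := f
      rw [LinearMap.zero_apply]
      have key : ∀ (f : κ → ℚ) (hf : f ∈ Submodule.span ℚ (Hs L)), q u ⟨f, hf⟩ = 0 := by
        intro f hf
        induction hf using Submodule.span_induction with
        | mem ε hε => exact h3 ε hε
        | zero => exact map_zero (q u)
        | add a b ha hb ha' hb' =>
          have e : (⟨a + b, Submodule.add_mem _ ha hb⟩ : Yo L) = ⟨a, ha⟩ + ⟨b, hb⟩ := rfl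
          exact (congrArg (q u) e).trans (by rw [map_add, ha', hb', add_zero])
        | smul c a ha ha' =>
          have e : (⟨c • a, Submodule.smul_mem _ c ha⟩ : Yo L) = c • ⟨a, ha⟩ := rfl
          exact (congrArg (q u) e).trans (by rw [map_smul, ha', smul_zero])
      exact key f hf
    obtain ⟨ε, hε, h3⟩ := h2
    refine ⟨ε, hε, ?_, ?_⟩
    · rintro rfl
      exact h3 (map_zero (q u))
    obtain ⟨⟨c₀, hc₀⟩, -⟩ := id hε
    rcases two_values hs hq.1
      (ε := Module.Dual.eval ℚ (Yo L) ⟨ε, Submodule.subset_span hε⟩) (e := fun a => ε a - c₀)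
      (fun a b => by
        have e1 : Module.Dual.eval ℚ (Yo L) ⟨ε, Submodule.subset_span hε⟩ (pt L b - pt L a) = ε b - ε a := rfl
        rw [e1]
        ring) (fun a => by
        rcases hc₀ a with h5 | h5
        · left
          rw [h5]
          ring
        · right
          rw [h5]
          ring) with h4 | h4
    · exact h4
    · exact absurd (h4 u) h3
  obtain ⟨ε, hε, hε0, hqε⟩ := hstep1
  have hPε : P ⟨ε, Submodule.subset_span hε⟩ = ⟨ε, Submodule.subset_span hε⟩ := by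
    apply hsep
    intro u
    rw [hπ, ← hqε (P.dualMap u), hqπ, hqε]
  have hεj : dq ε ∈ I j := by
    have h1 := hP1 ⟨ε, Submodule.subset_span hε⟩
    rwa [hPε] at h1
  -- (2)
  have hstep2 : ∃ f' : Yo L, f' ≠ 0 ∧ P f' = f' ∧ ∀ u, q u f' = 0 := by
    have h1 : ∃ u, P.dualMap u - q u ≠ 0 := by
      by_contra h2
      push Not at h2
      apply hne
      refine LinearMap.ext fun u => ?_
      exact (sub_eq_zero.1 (h2 u)).symm
    obtain ⟨u₀, hu₀⟩ := h1
    have h2 : ∃ f₀, (P.dualMap u₀ - q u₀) f₀ ≠ 0 := by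
      by_contra h3
      push Not at h3
      exact hu₀ (LinearMap.ext h3)
    obtain ⟨f₀, hf₀⟩ := h2
    let φ : Module.Dual ℚ (Module.Dual ℚ (Yo L)) :=
      (Module.Dual.eval ℚ (Yo L) f₀) ∘ₗ (P.dualMap - q)
    let f' : Yo L := (Module.evalEquiv ℚ (Yo L)).symm φ
    have hf' : ∀ u : Module.Dual ℚ (Yo L), u f' = (P.dualMap u - q u) f₀ := by
      intro u
      have h3 : u f' = φ u := Module.apply_evalEquiv_symm_apply ℚ (Yo L) u φ
      rw [h3]
      rfl
    refine ⟨f', ?_, ?_, ?_⟩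
    · intro h3
      apply hf₀
      rw [← hf' u₀, h3, map_zero]
    · apply hsep
      intro u
      rw [hπ, hf', hππ, hqπ, ← hf']
    · intro u
      rw [hf', hπq, hqq, sub_self, LinearMap.zero_apply]
  obtain ⟨f', hf'0, hPf', hqf'⟩ := hstep2
  have hf'j : dq (f' : κ → ℚ) ∈ I j := by
    have h1 := hP1 f'
    rwa [hPf'] at h1
  -- (3)
  obtain ⟨X, hX, a, b, hX0, hab, hab', hw⟩ := mixed_root h.cmp hF hε hε0 hεj f'.2 hf'j
    (fun h0 => hf'0 (Subtype.ext h0))
  -- (4)
  obtain ⟨Y, hY, hwY, hXX, hYY, hXYX, hYXY⟩ := sl2_pair h.cmp hF hX hε hab hw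
  obtain ⟨fv, hfv, hv1, hv2, hv3, hv4⟩ := h.coroot hF hX hY hX0 hw hwY hXX hYY hXYX hYXY
  refine root_two hs hq (δ := pt L a - pt L b) (f := Module.Dual.eval ℚ (Yo L) ⟨fv, hfv⟩)
    (fv := fv) (fun a b => rfl) hv1 hv2 hv3 hv4 ?_ ?_
  · intro h0
    have h1 := hqε (pt L a - pt L b)
    rw [h0, LinearMap.zero_apply, LinearMap.sub_apply, pt_apply, pt_apply] at h1
    exact hab (sub_eq_zero.1 h1.symm)
  · intro h0
    have h1 := LinearMap.congr_fun h0 f'
    rw [LinearMap.sub_apply, Module.End.one_apply, LinearMap.sub_apply, hqf', sub_zero,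
      LinearMap.sub_apply, pt_apply, pt_apply, LinearMap.zero_apply] at h1
    exact hab' (sub_eq_zero.1 h1)

end Pool.Agent.H25U
end

-- from Lib.H76Y.T14
section

/-!
# T14: ideals are spanned by brackets
-/

set_option autoImplicit false
set_option linter.unusedSectionVars false
namespace Pool.Agent.H76Y
open Pool.Agent.H76P Pool.Agent.H76V Pool.Agent.H76Q
open Module Matrix Pool.Agent.H53Toric
open Pool.Agent.H76T (IsIdeal Fam)

variable {κ : Type*} {K : Type*} [Field K] [CharZero K] [Fintype κ] [DecidableEq κ]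
  {L : Submodule K (Module.End K (κ → K))} [IsAlgClosed K] [Nonempty κ]

/-- A minimal ideal is spanned by its brackets. -/
theorem t14_min (h : CmpN L) {m : ℕ} {I : Fin m → Submodule K (Module.End K (κ → K))} (hF : Fam L I) (j : Fin m) :
    I j ≤ Submodule.span K {W | ∃ X ∈ I j, ∃ Y ∈ I j, W = X * Y - Y * X} := by
  have hj := hF.ideal j
  have hle : Submodule.span K {W | ∃ X ∈ I j, ∃ Y ∈ I j, W = X * Y - Y * X} ≤ I j := by
    rw [Submodule.span_le]
    rintro W ⟨X, hX, Y, hY, rfl⟩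
    exact hj.2 X (hj.1 hX) Y hY
  have hid : IsIdeal L (Submodule.span K {W | ∃ X ∈ I j, ∃ Y ∈ I j, W = X * Y - Y * X}) := by
    refine ⟨hle.trans hj.1, fun A hA W hW => ?_⟩
    induction hW using Submodule.span_induction with
    | mem W hW =>
      obtain ⟨X, hX, Y, hY, rfl⟩ := hW
      have e : A * (X * Y - Y * X) - (X * Y - Y * X) * A =
          ((A * X - X * A) * Y - Y * (A * X - X * A)) + (X * (A * Y - Y * A) - (A * Y - Y * A) * X) := by
        simp only [mul_sub, sub_mul, mul_assoc]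
        abel
      rw [e]
      exact Submodule.add_mem _ (Submodule.subset_span ⟨_, hj.2 A hA X hX, Y, hY, rfl⟩)
        (Submodule.subset_span ⟨X, hX, _, hj.2 A hA Y hY, rfl⟩)
    | zero =>
      rw [mul_zero, zero_mul, sub_zero]
      exact Submodule.zero_mem _
    | add a b _ _ ha hb =>
      have e : A * (a + b) - (a + b) * A = (A * a - a * A) + (A * b - b * A) := by noncomm_ring
      rw [e]
      exact Submodule.add_mem _ ha hb
    | smul c a _ ha =>
      have e : A * (c • a) - (c • a) * A = c • (A * a - a * A) := by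
        rw [mul_smul_comm, smul_mul_assoc, smul_sub]
      rw [e]
      exact Submodule.smul_mem _ _ ha
  rcases hF.min j _ hid hle with h1 | h1
  · exfalso
    refine hF.ne_bot j ((Submodule.eq_bot_iff _).2 fun X hX => t4_zero h hF (hj.1 hX) fun i Y hY => ?_)
    by_cases hij : i = j
    · subst hij
      have h2 : X * Y - Y * X ∈ Submodule.span K {W | ∃ X ∈ I i, ∃ Y ∈ I i, W = X * Y - Y * X} :=
        Submodule.subset_span ⟨X, hX, Y, hY, rfl⟩
      rw [h1, Submodule.mem_bot, sub_eq_zero] at h2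
      exact h2
    · exact (hF.comm i j hij Y hY X hX).symm
  · exact h1.ge

/-- PROOF. Let `(I j)` be the minimal ideals (`H76T.exists_fam` or however the existence of a `Fam` is called: see `c1_min`, `IsBlock.comp` in H76Q.BL2 for a use).
The span `[I j, I j]` of the brackets is an ideal in `I j` (Jacobi), so `⊥` or `I j`; in the first case `I j` commutes with itself and with the other
ideals, so with `L` (`Fam.sup`), so it is `0` (`t4_zero`), a contradiction.  Now let `Z` be an ideal, `X ∈ Z`, `X = ∑ X j` with `X j ∈ I j` (`Fam.sup`).  If `X j ≠ 0`, some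
`W ∈ I j` does not commute with `X j` (`t4_zero`), and `X W - W X = X j W - W X j ≠ 0` is in `Z ⊓ I j`, an ideal, so `I j ≤ Z` and `X j` is in the span of the brackets of
elements of `I j ≤ Z`. -/
theorem ideal_span (h : CmpN L) {Z : Submodule K (Module.End K (κ → K))} (hZ : IsIdeal L Z) :
    Z ≤ Submodule.span K {W | ∃ X ∈ Z, ∃ Y ∈ Z, W = X * Y - Y * X} := by
  classical
  obtain ⟨m, I, hF⟩ := H76T.exists_fam h.lie h.irr h.tr
  intro X hX
  have hXL : X ∈ ⨆ j, I j := by
    rw [hF.sup]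
    exact hZ.1 hX
  obtain ⟨f, hf, hsum0⟩ := (Submodule.mem_iSup_iff_exists_finsupp I X).1 hXL
  have hsum : ∑ i ∈ f.support, f i = X := hsum0
  rw [← hsum]
  refine Submodule.sum_mem _ fun j _ => ?_
  by_cases h0 : f j = 0
  · rw [h0]
    exact Submodule.zero_mem _
  have hw : ∃ W ∈ I j, f j * W ≠ W * f j := by
    by_contra hcon
    push Not at hcon
    refine h0 (t4_zero h hF ((hF.ideal j).1 (hf j)) fun i Y hY => ?_)
    by_cases hij : i = j
    · subst hij
      exact hcon Y hY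
    · exact (hF.comm i j hij Y hY (f j) (hf j)).symm
  obtain ⟨W, hW, hne⟩ := hw
  have hWL : W ∈ L := (hF.ideal j).1 hW
  have hbr : X * W - W * X = f j * W - W * f j := by
    have h1 : ∀ i ∈ f.support, i ≠ j → f i * W - W * f i = 0 := fun i _ hij =>
      sub_eq_zero.2 (hF.comm i j hij (f i) (hf i) W hW)
    have h2 : X * W - W * X = ∑ i ∈ f.support, (f i * W - W * f i) := by
      rw [← hsum, Finset.sum_mul, Finset.mul_sum, ← Finset.sum_sub_distrib]
    rw [h2]
    exact Finset.sum_eq_single_of_mem j (Finsupp.mem_support_iff.2 h0) h1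
  have hmemZ : f j * W - W * f j ∈ Z := by
    rw [← hbr, ← neg_sub]
    exact Submodule.neg_mem _ (hZ.2 W hWL X hX)
  have hmemI : f j * W - W * f j ∈ I j := (hF.ideal j).2 (f j) ((hF.ideal j).1 (hf j)) W hW
  have hid : IsIdeal L (Z ⊓ I j) := by
    refine ⟨inf_le_left.trans hZ.1, fun A hA B hB => ⟨hZ.2 A hA B hB.1, (hF.ideal j).2 A hA B hB.2⟩⟩
  have hIZ : I j ≤ Z := by
    rcases hF.min j _ hid inf_le_right with h1 | h1
    · exfalso
      have h2 : f j * W - W * f j ∈ Z ⊓ I j := ⟨hmemZ, hmemI⟩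
      rw [h1, Submodule.mem_bot, sub_eq_zero] at h2
      exact hne h2
    · rw [← h1]
      exact inf_le_left
  refine Submodule.span_mono ?_ (t14_min h hF j (hf j))
  rintro V ⟨A, hA, B, hB, rfl⟩
  exact ⟨A, hIZ hA, B, hIZ hB, rfl⟩

end Pool.Agent.H76Y
end

-- from Lib.H25U.T14
section

/-!
# T14: ideals are spanned by brackets
-/

set_option autoImplicit false
set_option linter.unusedSectionVars false
namespace Pool.Agent.H25U
open Pool.Agent.H76P Pool.Agent.H76V Pool.Agent.H76Q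
open Module Matrix Pool.Agent.H53Toric
open Pool.Agent.H76T (IsIdeal Fam)

variable {κ : Type*} {K : Type*} [Field K] [CharZero K] [Fintype κ] [DecidableEq κ]
  {L : Submodule K (Module.End K (κ → K))} [IsAlgClosed K] [Nonempty κ]

/-- A minimal ideal is spanned by its brackets. -/
theorem t14_min (h : CmpN L) {m : ℕ} {I : Fin m → Submodule K (Module.End K (κ → K))} (hF : Fam L I) (j : Fin m) :
    I j ≤ Submodule.span K {W | ∃ X ∈ I j, ∃ Y ∈ I j, W = X * Y - Y * X} := by
  have hj := hF.ideal j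
  have hle : Submodule.span K {W | ∃ X ∈ I j, ∃ Y ∈ I j, W = X * Y - Y * X} ≤ I j := by
    rw [Submodule.span_le]
    rintro W ⟨X, hX, Y, hY, rfl⟩
    exact hj.2 X (hj.1 hX) Y hY
  have hid : IsIdeal L (Submodule.span K {W | ∃ X ∈ I j, ∃ Y ∈ I j, W = X * Y - Y * X}) := by
    refine ⟨hle.trans hj.1, fun A hA W hW => ?_⟩
    induction hW using Submodule.span_induction with
    | mem W hW =>
      obtain ⟨X, hX, Y, hY, rfl⟩ := hW
      have e : A * (X * Y - Y * X) - (X * Y - Y * X) * A =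
          ((A * X - X * A) * Y - Y * (A * X - X * A)) + (X * (A * Y - Y * A) - (A * Y - Y * A) * X) := by
        simp only [mul_sub, sub_mul, mul_assoc]
        abel
      rw [e]
      exact Submodule.add_mem _ (Submodule.subset_span ⟨_, hj.2 A hA X hX, Y, hY, rfl⟩)
        (Submodule.subset_span ⟨X, hX, _, hj.2 A hA Y hY, rfl⟩)
    | zero =>
      rw [mul_zero, zero_mul, sub_zero]
      exact Submodule.zero_mem _
    | add a b _ _ ha hb =>
      have e : A * (a + b) - (a + b) * A = (A * a - a * A) + (A * b - b * A) := by noncomm_ring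
      rw [e]
      exact Submodule.add_mem _ ha hb
    | smul c a _ ha =>
      have e : A * (c • a) - (c • a) * A = c • (A * a - a * A) := by
        rw [mul_smul_comm, smul_mul_assoc, smul_sub]
      rw [e]
      exact Submodule.smul_mem _ _ ha
  rcases hF.min j _ hid hle with h1 | h1
  · exfalso
    refine hF.ne_bot j ((Submodule.eq_bot_iff _).2 fun X hX => t4_zero h hF (hj.1 hX) fun i Y hY => ?_)
    by_cases hij : i = j
    · subst hij
      have h2 : X * Y - Y * X ∈ Submodule.span K {W | ∃ X ∈ I i, ∃ Y ∈ I i, W = X * Y - Y * X} :=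
        Submodule.subset_span ⟨X, hX, Y, hY, rfl⟩
      rw [h1, Submodule.mem_bot, sub_eq_zero] at h2
      exact h2
    · exact (hF.comm i j hij Y hY X hX).symm
  · exact h1.ge

/-- PROOF. Let `(I j)` be the minimal ideals (`H76T.exists_fam` or however the existence of a `Fam` is called: see `c1_min`, `IsBlock.comp` in H76Q.BL2 for a use).
The span `[I j, I j]` of the brackets is an ideal in `I j` (Jacobi), so `⊥` or `I j`; in the first case `I j` commutes with itself and with the other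
ideals, so with `L` (`Fam.sup`), so it is `0` (`t4_zero`), a contradiction.  Now let `Z` be an ideal, `X ∈ Z`, `X = ∑ X j` with `X j ∈ I j` (`Fam.sup`).  If `X j ≠ 0`, some
`W ∈ I j` does not commute with `X j` (`t4_zero`), and `X W - W X = X j W - W X j ≠ 0` is in `Z ⊓ I j`, an ideal, so `I j ≤ Z` and `X j` is in the span of the brackets of
elements of `I j ≤ Z`. -/
theorem ideal_span (h : CmpN L) {Z : Submodule K (Module.End K (κ → K))} (hZ : IsIdeal L Z) :
    Z ≤ Submodule.span K {W | ∃ X ∈ Z, ∃ Y ∈ Z, W = X * Y - Y * X} := by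
  classical
  obtain ⟨m, I, hF⟩ := H76T.exists_fam h.lie h.irr h.tr
  intro X hX
  have hXL : X ∈ ⨆ j, I j := by
    rw [hF.sup]
    exact hZ.1 hX
  obtain ⟨f, hf, hsum0⟩ := (Submodule.mem_iSup_iff_exists_finsupp I X).1 hXL
  have hsum : ∑ i ∈ f.support, f i = X := hsum0
  rw [← hsum]
  refine Submodule.sum_mem _ fun j _ => ?_
  by_cases h0 : f j = 0
  · rw [h0]
    exact Submodule.zero_mem _
  have hw : ∃ W ∈ I j, f j * W ≠ W * f j := by
    by_contra hcon
    push Not at hcon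
    refine h0 (t4_zero h hF ((hF.ideal j).1 (hf j)) fun i Y hY => ?_)
    by_cases hij : i = j
    · subst hij
      exact hcon Y hY
    · exact (hF.comm i j hij Y hY (f j) (hf j)).symm
  obtain ⟨W, hW, hne⟩ := hw
  have hWL : W ∈ L := (hF.ideal j).1 hW
  have hbr : X * W - W * X = f j * W - W * f j := by
    have h1 : ∀ i ∈ f.support, i ≠ j → f i * W - W * f i = 0 := fun i _ hij =>
      sub_eq_zero.2 (hF.comm i j hij (f i) (hf i) W hW)
    have h2 : X * W - W * X = ∑ i ∈ f.support, (f i * W - W * f i) := by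
      rw [← hsum, Finset.sum_mul, Finset.mul_sum, ← Finset.sum_sub_distrib]
    rw [h2]
    exact Finset.sum_eq_single_of_mem j (Finsupp.mem_support_iff.2 h0) h1
  have hmemZ : f j * W - W * f j ∈ Z := by
    rw [← hbr, ← neg_sub]
    exact Submodule.neg_mem _ (hZ.2 W hWL X hX)
  have hmemI : f j * W - W * f j ∈ I j := (hF.ideal j).2 (f j) ((hF.ideal j).1 (hf j)) W hW
  have hid : IsIdeal L (Z ⊓ I j) := by
    refine ⟨inf_le_left.trans hZ.1, fun A hA B hB => ⟨hZ.2 A hA B hB.1, (hF.ideal j).2 A hA B hB.2⟩⟩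
  have hIZ : I j ≤ Z := by
    rcases hF.min j _ hid inf_le_right with h1 | h1
    · exfalso
      have h2 : f j * W - W * f j ∈ Z ⊓ I j := ⟨hmemZ, hmemI⟩
      rw [h1, Submodule.mem_bot, sub_eq_zero] at h2
      exact hne h2
    · rw [← h1]
      exact inf_le_left
  refine Submodule.span_mono ?_ (t14_min h hF j (hf j))
  rintro V ⟨A, hA, B, hB, rfl⟩
  exact ⟨A, hIZ hA, B, hIZ hB, rfl⟩

end Pool.Agent.H25U
end

-- from Lib.H76Y.EN2
section

/-!
# EN2: determinants on a component and multipliers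
-/

set_option autoImplicit false
set_option linter.unusedSectionVars false
namespace Pool.Agent.H76Y.EN
open Module Matrix
open Pool.Agent.H76Q
open Pool.Agent.H76U (cmp)

variable {ι : Type*} [Fintype ι] [DecidableEq ι] {K : Type*} [Field K] {n : ℕ}

/-- The multiplier of `t ^ h`. -/
theorem mult_par {J h : Matrix ι ι K} (hh : h * h = h) (hJ : hᵀ * J + J * h = J) (t : K) :
    (1 + (t - 1) • h)ᵀ * J * (1 + (t - 1) • h) = t • J := by
  have h1 : hᵀ * J = J - J * h := eq_sub_of_add_eq hJ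
  have h2 : hᵀ * J * h = 0 := by
    rw [h1, Matrix.sub_mul, Matrix.mul_assoc, hh, sub_self]
  rw [Matrix.transpose_add, Matrix.transpose_one, Matrix.transpose_smul, Matrix.add_mul, Matrix.one_mul,
    Matrix.smul_mul, Matrix.add_mul, Matrix.mul_add, Matrix.mul_one, Matrix.mul_add, Matrix.mul_one,
    Matrix.mul_smul, Matrix.smul_mul, Matrix.mul_smul, h2, h1]
  module

theorem rank_cmp {e : Matrix ι ι K} {U : Matrix ι (Fin n) K} {V : Matrix (Fin n) ι K} (hUV : e = U * V)
    (hVU : V * U = 1) {h : Matrix ι ι K} (he : h * e = e * h) : (cmp U V h).rank = (h * e).rank := by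
  have hee : e * e = e := by
    rw [hUV]
    calc U * V * (U * V) = U * (V * U) * V := by simp only [Matrix.mul_assoc]
      _ = U * V := by rw [hVU, Matrix.mul_one]
  have h1 : h * e = U * cmp U V h * V := by
    rw [Pool.Agent.H76U.cmp_apply]
    calc h * e = h * (e * e) := by rw [hee]
      _ = (h * e) * e := (Matrix.mul_assoc _ _ _).symm
      _ = (e * h) * e := by rw [he]
      _ = U * (V * h * U) * V := by
        rw [hUV]
        simp only [Matrix.mul_assoc]
  have h2 : cmp U V h = V * (h * e) * U := by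
    rw [h1]
    calc cmp U V h = (V * U) * cmp U V h * (V * U) := by rw [hVU, Matrix.one_mul, Matrix.mul_one]
      _ = V * (U * cmp U V h * V) * U := by simp only [Matrix.mul_assoc]
  apply le_antisymm
  · rw [h2]
    exact (Matrix.rank_mul_le_left _ _).trans (Matrix.rank_mul_le_right _ _)
  · nth_rw 1 [h1]
    exact (Matrix.rank_mul_le_left _ _).trans (Matrix.rank_mul_le_right _ _)

/-- The square of the determinant on a component is a power of the multiplier, for the elements of the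
group generated by the one parameter groups of balanced projectors. -/
theorem tgen_det {J e : Matrix ι ι K} {U : Matrix ι (Fin n) K} {V : Matrix (Fin n) ι K} (hUV : e = U * V)
    (hVU : V * U = 1) {𝓗 : Set (Matrix ι ι K)}
    (hpar : ∀ h ∈ 𝓗, h * h = h ∧ h * e = e * h ∧ hᵀ * J + J * h = J ∧ 2 * (h * e).rank = n)
    {g : Matrix ι ι K} (hg : g ∈ Submonoid.closure {y | ∃ h ∈ 𝓗, ∃ t : K, t ≠ 0 ∧ y = 1 + (t - 1) • h}) :
    g * e = e * g ∧ ∃ c : K, c ≠ 0 ∧ gᵀ * J * g = c • J ∧ (cmp U V g).det ^ 2 = c ^ n := by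
  induction hg using Submonoid.closure_induction with
  | mem y hy =>
    obtain ⟨h, hh, t, ht, rfl⟩ := hy
    obtain ⟨h1, h2, h3, h4⟩ := hpar h hh
    refine ⟨?_, t, ht, mult_par h1 h3 t, ?_⟩
    · rw [add_mul, mul_add, one_mul, mul_one, smul_mul_assoc, mul_smul_comm, h2]
    · have h5 : cmp U V (1 + (t - 1) • h) = 1 + (t - 1) • cmp U V h := by
        rw [map_add, map_smul, Pool.Agent.H76U.cmp_one hUV hVU]
      have h6 : cmp U V h * cmp U V h = cmp U V h := by
        rw [← Pool.Agent.H76U.cmp_mul hUV hVU h2, h1]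
      rw [h5, det_par h6, rank_cmp hUV hVU h2, ← pow_mul, mul_comm _ 2, h4]
  | one =>
    refine ⟨by rw [one_mul, mul_one], 1, one_ne_zero, ?_, ?_⟩
    · rw [Matrix.transpose_one, Matrix.one_mul, Matrix.mul_one, one_smul]
    · rw [Pool.Agent.H76U.cmp_one hUV hVU, Matrix.det_one, one_pow, one_pow]
  | mul a b _ _ iha ihb =>
    obtain ⟨ha, c, hc, hca, hda⟩ := iha
    obtain ⟨hb, c', hc', hcb, hdb⟩ := ihb
    refine ⟨by rw [mul_assoc, hb, ← mul_assoc, ha, mul_assoc], c * c', mul_ne_zero hc hc', ?_, ?_⟩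
    · calc (a * b)ᵀ * J * (a * b) = bᵀ * (aᵀ * J * a) * b := by
            rw [Matrix.transpose_mul]
            simp only [Matrix.mul_assoc]
        _ = (c * c') • J := by
            rw [hca, Matrix.mul_smul, Matrix.smul_mul, hcb, smul_smul]
    · rw [Pool.Agent.H76U.cmp_mul hUV hVU hb, Matrix.det_mul, mul_pow, mul_pow, hda, hdb]

end Pool.Agent.H76Y.EN
end

-- from Lib.H76Y.A1
section

/-!
# A1: the component without assumption on the valuation (copies of parts of H76P.T1, T2, T4, T10, T11)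
-/

set_option autoImplicit false
set_option linter.unusedSectionVars false
namespace Pool.Agent.H76Y
open Pool.Agent.H76P Pool.Agent.H76V Pool.Agent.H76Q
open Module Matrix Pool.Agent.H53Toric
open Pool.Agent.H76P
open Pool.Agent.H76T (IsIdeal Fam)
open Pool.Agent.H76V (Cmp alg calg)

variable {κ : Type*} {K : Type*} [Field K] [CharZero K] [Fintype κ] [DecidableEq κ]
  {L : Submodule K (Module.End K (κ → K))} {J : Matrix κ κ K}

/-- PROOF. The entry `(a, b)` of the matrix of `X` (`a ≠ b`) is zero: with `f` as in `TM.sep` compare the entries `(a, b)` of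
`X * dq f` and `dq f * X`. -/
theorem TM.diag_of_comm (h : TM L) {X : Module.End K (κ → K)}
    (hX : ∀ f ∈ Yo L, X * dq f = dq f * X) : ∃ g : κ → K, X = dg g := by
  have hz : ∀ a b : κ, a ≠ b → X (Pi.single b 1) a = 0 := by
    intro a b hab
    obtain ⟨f, hf, hne⟩ := h.sep a b hab
    have h1 := congrFun (congrArg (fun T : Module.End K (κ → K) => T (Pi.single b 1)) (hX f hf)) a
    simp only [Module.End.mul_apply] at h1
    have h2 : (dq f : Module.End K (κ → K)) (Pi.single b 1) = (f b : K) • Pi.single b (1 : K) := by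
      funext c
      unfold dq
      rw [dg_apply, Pi.smul_apply, smul_eq_mul]
      by_cases hc : c = b
      · rw [hc]
      · rw [Pi.single_eq_of_ne hc, mul_zero, mul_zero]
    rw [h2, map_smul, Pi.smul_apply, smul_eq_mul] at h1
    unfold dq at h1
    rw [dg_apply] at h1
    have h3 : ((f b : K) - (f a : K)) * X (Pi.single b 1) a = 0 := by
      rw [sub_mul, h1, sub_self]
    rcases mul_eq_zero.1 h3 with h4 | h4
    · exfalso
      apply hne
      have h5 : (f b : K) = (f a : K) := sub_eq_zero.1 h4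
      exact_mod_cast h5.symm
    · exact h4
  refine ⟨fun a => X (Pi.single a 1) a, ?_⟩
  refine LinearMap.pi_ext' fun b => LinearMap.ext_ring (funext fun a => ?_)
  show X (Pi.single b 1) a = dg (fun a => X (Pi.single a 1) a) (Pi.single b 1) a
  rw [dg_apply]
  by_cases hab : a = b
  · rw [hab, Pi.single_eq_same, mul_one]
  · rw [hz a b hab, Pi.single_eq_of_ne hab, mul_zero]

/-- PROOF. `TM.sep`. -/
theorem TM.pt_inj (h : TM L) : Function.Injective (pt L) := by
  intro a b hab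
  by_contra hne
  obtain ⟨f, hf, hfab⟩ := h.sep a b hne
  apply hfab
  have h1 := congrArg (fun φ : Module.Dual ℚ (Yo L) => φ ⟨f, hf⟩) hab
  exact h1

variable [IsAlgClosed K] [Nonempty κ] {m : ℕ} {I : Fin m → Submodule K (Module.End K (κ → K))}

/-- PROOF. If not, every `ε ∈ Hs L` is in some `I i` with `i ≠ j` (`Hs_mem`), so `dq ε` commutes with all `X ∈ I j` (`hF.comm`), so
`dq f` commutes with `X` for all `f ∈ Yo L`, so all elements of `I j` are diagonal (`TM.diag_of_comm`) and commute with each other.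
They commute with the elements of `I i`, `i ≠ j`, too, so they commute with `L`; they are scalars of trace zero, and `I j = ⊥`,
contradiction to `hF.ne_bot`. -/
theorem TM.exists_diag (h : TM L) (hF : Fam L I) (j : Fin m) :
    ∃ f ∈ Yo L, f ≠ 0 ∧ dq f ∈ I j := by
  by_contra hcon
  push Not at hcon
  have h1 : ∀ X ∈ I j, ∀ f ∈ Yo L, X * dq f = dq f * X := by
    intro X hX f hf
    unfold Yo at hf
    induction hf using Submodule.span_induction with
    | mem ε hε =>
      obtain ⟨i, hi⟩ := Hs_mem h.cmp hF hε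
      have hij : j ≠ i := by
        rintro rfl
        refine hcon ε (Submodule.subset_span hε) ?_ hi
        intro h0
        obtain ⟨a⟩ := ‹Nonempty κ›
        have h2 := congrFun h0 a
        rcases hε.1 a with h3 | h3 <;> rw [h3] at h2 <;> simp at h2
      exact hF.comm j i hij X hX _ hi
    | zero =>
      have h2 : (dq (0 : κ → ℚ) : Module.End K (κ → K)) = 0 := by
        refine LinearMap.ext fun v => funext fun a => ?_
        simp [dq, dg_apply]
      rw [h2, mul_zero, zero_mul]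
    | add f g _ _ hf hg => rw [dq_add, mul_add, add_mul, hf, hg]
    | smul c f _ hf => rw [dq_smul, mul_smul_comm, smul_mul_assoc, hf]
  apply hF.ne_bot j
  rw [eq_bot_iff]
  intro X hX
  rw [Submodule.mem_bot]
  refine t4_zero h.cmp hF ((hF.ideal j).1 hX) fun i Y hY => ?_
  by_cases hij : i = j
  · subst hij
    obtain ⟨g, rfl⟩ := h.diag_of_comm (h1 X hX)
    obtain ⟨g', rfl⟩ := h.diag_of_comm (h1 Y hY)
    rw [dg_mul, dg_mul, mul_comm]
  · exact hF.comm j i (Ne.symm hij) X hX Y hY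

/-- an operator of weight zero is diagonal -/
theorem ts_diag (h : TM L) {δ : Module.Dual ℚ (Yo L)} (hδ : δ = 0)
    {X : Module.End K (κ → K)} (hX : IsWt L δ X) : ∃ g : κ → K, X = dg g := by
  apply h.diag_of_comm
  intro f hf
  have h1 := hX ⟨f, hf⟩
  rw [hδ, LinearMap.zero_apply, Rat.cast_zero, zero_smul, sub_eq_zero] at h1
  exact h1.symm

/-- PROOF. `e = X * Y` and `e' = Y * X` are idempotent, `e * e' = X Y Y X = 0`, `e' * e = Y X X Y = 0`; both have weight `0`
(`IsWt.mul`), i.e. they commute with all `dq f`, `f ∈ Yo L`, so `e = dg g`, `e' = dg g'` (`TM.diag_of_comm`) with `g a, g' a ∈ {0, 1}`,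
`g a * g' a = 0` (`dg_mul`, `dg_inj`).  Let `fv a = (if g a = 1 then 1 else 0) - (if g' a = 1 then 1 else 0)`.  `dq fv = e - e' = [X, Y] ∈ I j ≤ L`, so
`fv ∈ Yo L` (`h.diag`).  `e' ≠ 0` since `X * e' = X ≠ 0`, so there is `a` with `g' a = 1`, `fv a = -1`.  If `fv c = -1` then `g' c = 1`; let `u` be the
basis vector `Pi.single c 1`, `w = X u`; `Y w = e' u = u`, so `w ≠ 0`; let `w d ≠ 0`: the entry `(d, c)` of `X` is not zero, so
`pt L d - pt L c = δ` (`IsWt.entry`); `e w = X Y X u = w`, so `g d * w d = w d`, `g d = 1`, `fv d = 1`.  The same for `fv c = 1` with `Y`, `e`. -/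
theorem TM.coroot (h : TM L) (hF : Fam L I) {j : Fin m} {X Y : Module.End K (κ → K)}
    (hX : X ∈ I j) (hY : Y ∈ I j) (hX0 : X ≠ 0) {δ : Module.Dual ℚ (Yo L)}
    (hwX : IsWt L δ X) (hwY : IsWt L (-δ) Y) (hXX : X * X = 0) (hYY : Y * Y = 0)
    (hXYX : X * Y * X = X) (hYXY : Y * X * Y = Y) :
    ∃ fv ∈ Yo L, (∀ a, fv a = -1 ∨ fv a = 0 ∨ fv a = 1) ∧ (∃ a, fv a = -1) ∧
      (∀ c, fv c = -1 → ∃ d, pt L d = pt L c + δ ∧ fv d = 1) ∧
      (∀ c, fv c = 1 → ∃ d, pt L d = pt L c - δ ∧ fv d = -1) := by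
  classical
  obtain ⟨g, hg⟩ := ts_diag h (add_neg_cancel δ) (hwX.mul hwY)
  obtain ⟨g', hg'⟩ := ts_diag h (neg_add_cancel δ) (hwY.mul hwX)
  have hgg : ∀ a, g a = 0 ∨ g a = 1 := by
    intro a
    have h1 : dg (g * g) = dg g := by
      rw [← dg_mul, ← hg, ← mul_assoc, hXYX]
    have h2 := congrFun (dg_inj h1) a
    rw [Pi.mul_apply] at h2
    have h3 : g a * (g a - 1) = 0 := by linear_combination h2
    rcases mul_eq_zero.1 h3 with h4 | h4
    · exact Or.inl h4
    · exact Or.inr (sub_eq_zero.1 h4)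
  have hgg' : ∀ a, g' a = 0 ∨ g' a = 1 := by
    intro a
    have h1 : dg (g' * g') = dg g' := by
      rw [← dg_mul, ← hg', ← mul_assoc, hYXY]
    have h2 := congrFun (dg_inj h1) a
    rw [Pi.mul_apply] at h2
    have h3 : g' a * (g' a - 1) = 0 := by linear_combination h2
    rcases mul_eq_zero.1 h3 with h4 | h4
    · exact Or.inl h4
    · exact Or.inr (sub_eq_zero.1 h4)
  have hmul : ∀ a, g a * g' a = 0 := by
    intro a
    have h1 : dg (g * g') = dg (0 : κ → K) := by
      rw [← dg_mul, ← hg, ← hg']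
      have h2 : X * Y * (Y * X) = X * (Y * Y) * X := by noncomm_ring
      rw [h2, hYY, mul_zero, zero_mul]
      refine LinearMap.ext fun v => funext fun b => ?_
      simp [dg_apply]
    exact congrFun (dg_inj h1) a
  set fv : κ → ℚ := fun a => (if g a = 1 then 1 else 0) - (if g' a = 1 then 1 else 0) with hfv
  have hval : ∀ a, (g a = 0 ∧ g' a = 0 ∧ fv a = 0) ∨ (g a = 1 ∧ g' a = 0 ∧ fv a = 1) ∨
      (g a = 0 ∧ g' a = 1 ∧ fv a = -1) := by
    intro a
    have h0 := hmul a
    rcases hgg a with h1 | h1 <;> rcases hgg' a with h2 | h2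
    · left
      exact ⟨h1, h2, by simp [hfv, h1, h2]⟩
    · right; right
      exact ⟨h1, h2, by simp [hfv, h1, h2]⟩
    · right; left
      exact ⟨h1, h2, by simp [hfv, h1, h2]⟩
    · rw [h1, h2, mul_one] at h0
      exact absurd h0 one_ne_zero
  have hdq : (dq fv : Module.End K (κ → K)) = X * Y - Y * X := by
    rw [hg, hg']
    refine LinearMap.ext fun v => funext fun a => ?_
    rw [LinearMap.sub_apply, Pi.sub_apply, dg_apply, dg_apply, dq, dg_apply]
    rcases hval a with ⟨h1, h2, h3⟩ | ⟨h1, h2, h3⟩ | ⟨h1, h2, h3⟩ <;> rw [h1, h2, h3] <;>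
      push_cast <;> ring
  have hL : (dq fv : Module.End K (κ → K)) ∈ L := by
    rw [hdq]
    exact (hF.ideal j).1 ((hF.ideal j).2 X ((hF.ideal j).1 hX) Y hY)
  refine ⟨fv, h.diag fv hL, ?_, ?_, ?_, ?_⟩
  · intro a
    rcases hval a with ⟨-, -, h3⟩ | ⟨-, -, h3⟩ | ⟨-, -, h3⟩
    · exact Or.inr (Or.inl h3)
    · exact Or.inr (Or.inr h3)
    · exact Or.inl h3
  · by_contra hcon
    push Not at hcon
    apply hX0
    have h1 : g' = 0 := by
      ext a
      rcases hval a with ⟨-, h2, -⟩ | ⟨-, h2, -⟩ | ⟨-, -, h3⟩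
      · exact h2
      · exact h2
      · exact absurd h3 (hcon a)
    have h2 : Y * X = 0 := by
      rw [hg', h1]
      refine LinearMap.ext fun v => funext fun b => ?_
      simp [dg_apply]
    rw [← hXYX, mul_assoc, h2, mul_zero]
  · intro c hc
    have hc' : g' c = 1 := by
      rcases hval c with ⟨-, -, h3⟩ | ⟨-, -, h3⟩ | ⟨-, h2, -⟩
      · rw [h3] at hc; norm_num at hc
      · rw [h3] at hc; norm_num at hc
      · exact h2
    obtain ⟨d, hd1, hd2⟩ := t10_entry hwX hXYX hg hg' hc'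
    refine ⟨d, ?_, ?_⟩
    · rw [← hd1]; abel
    · rcases hval d with ⟨h1, -, -⟩ | ⟨-, -, h3⟩ | ⟨h1, -, -⟩
      · rw [h1] at hd2; exact absurd hd2 zero_ne_one
      · exact h3
      · rw [h1] at hd2; exact absurd hd2 zero_ne_one
  · intro c hc
    have hc' : g c = 1 := by
      rcases hval c with ⟨-, -, h3⟩ | ⟨h1, -, -⟩ | ⟨-, -, h3⟩
      · rw [h3] at hc; norm_num at hc
      · exact h1
      · rw [h3] at hc; norm_num at hc
    obtain ⟨d, hd1, hd2⟩ := t10_entry hwY hYXY hg' hg hc'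
    refine ⟨d, ?_, ?_⟩
    · rw [sub_eq_iff_eq_add'] at hd1
      rw [hd1, sub_eq_add_neg]
    · rcases hval d with ⟨-, h2, -⟩ | ⟨-, h2, -⟩ | ⟨-, -, h3⟩
      · rw [h2] at hd2; exact absurd hd2 zero_ne_one
      · rw [h2] at hd2; exact absurd hd2 zero_ne_one
      · exact h3

/-- PROOF. Notation: `V = Dual ℚ (Yo L)`, `π = P.dualMap`, so `(π u) f = u (P f)`; `q * π = q`; by `Spl.comm` also `π * q = q`.
(1) There is `ε ∈ Hs L` with `(q u) ε = u ε` for all `u`: `q ≠ 0`, so there are `u`, `f` with `(q u) f ≠ 0`; `f` is in the span of `Hs L`, so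
`(q u) ε ≠ 0` for some `ε ∈ Hs L` (as an element of `Yo L`); apply `two_values` (C6) with the functional `u ↦ u ε` on `V`.
For all `u`: `u (P ε) = (π u) ε = (q (π u)) ε = ((q * π) u) ε = (q u) ε = u ε`, so `P ε = ε` and `dq ε ∈ I j` (`hP1`).
(2) There is `f' : Yo L`, `f' ≠ 0`, `P f' = f'`, `(q u) f' = 0` for all `u`: `r = π - q ≠ 0`, so `(r u) f ≠ 0` for some `u`, `f`.  As `Yo L` is finite
dimensional, there is `f'` with `u f' = (r u) f` for all `u` (the functional `u ↦ (r u) f` on `V`, reflexivity).  `f' ≠ 0`.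
`(q u) f' = (r (q u)) f = ((π * q - q * q) u) f = 0`.  `u (P f') = (π u) f' = (r (π u)) f = ((π * π - q * π) u) f = (r u) f = u f'`, so `P f' = f'` and
`dq f' ∈ I j`.
(3) `mixed_root` for `ε`, `f'` gives `X`, `a`, `b`; let `δ = pt L a - pt L b`.  `(q δ) ε = δ ε = ε a - ε b ≠ 0`, so `q δ ≠ 0`.
`((1 - q) δ) f' = δ f' = f' a - f' b ≠ 0`, so `(1 - q) δ ≠ 0`.
(4) `sl2_pair`, `coroot` give `fv`; `root_two` (C7) with the functional `u ↦ u fv`. -/
theorem TM.atom_two (h : TM L) (hF : Fam L I) {j : Fin m} {P : Module.End ℚ (Yo L)}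
    (hP1 : ∀ f, dq (P f : κ → ℚ) ∈ I j)
    (hP2 : ∀ f : Yo L, dq (f : κ → ℚ) ∈ I j → P f = f) (hPS : Spl (pt L) P.dualMap)
    {q : Module.End ℚ (Module.Dual ℚ (Yo L))} (hq : Atom (pt L) q) (hqP : q * P.dualMap = q)
    (hne : q ≠ P.dualMap) : cnt (pt L) q = 2 := by
  have hs : Spans (pt L) := pt_spans h.cmp
  have hcomm := Spl.comm hs hq.1 hPS
  have hπq : ∀ u, P.dualMap (q u) = q u := fun u => by
    have h1 : (P.dualMap * q) u = q u := by rw [← hcomm, hqP]
    exact h1
  have hqπ : ∀ u, q (P.dualMap u) = q u := fun u => by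
    have h1 : (q * P.dualMap) u = q u := by rw [hqP]
    exact h1
  have hππ : ∀ u, P.dualMap (P.dualMap u) = P.dualMap u := fun u => by
    have h1 : (P.dualMap * P.dualMap) u = P.dualMap u := by rw [hPS.1]
    exact h1
  have hqq : ∀ u, q (q u) = q u := fun u => by
    have h1 : (q * q) u = q u := by rw [hq.1.1]
    exact h1
  have hπ : ∀ (u : Module.Dual ℚ (Yo L)) (f : Yo L), u (P f) = P.dualMap u f := fun u f => by
    rw [LinearMap.dualMap_apply]
  have hsep : ∀ f g : Yo L, (∀ u : Module.Dual ℚ (Yo L), u f = u g) → f = g := by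
    intro f g hfg
    rw [← sub_eq_zero, ← Module.forall_dual_apply_eq_zero_iff ℚ]
    intro u
    rw [map_sub, hfg u, sub_self]
  -- (1)
  have hstep1 : ∃ (ε : κ → ℚ) (hε : ε ∈ Hs L), ∀ u : Module.Dual ℚ (Yo L),
      q u ⟨ε, Submodule.subset_span hε⟩ = u ⟨ε, Submodule.subset_span hε⟩ := by
    have h1 : ∃ u, q u ≠ 0 := by
      by_contra h2
      push Not at h2
      exact hq.2.1 (LinearMap.ext h2)
    obtain ⟨u, hu⟩ := h1
    have h2 : ∃ (ε : κ → ℚ) (hε : ε ∈ Hs L), q u ⟨ε, Submodule.subset_span hε⟩ ≠ 0 := by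
      by_contra h3
      push Not at h3
      apply hu
      refine LinearMap.ext fun f => ?_
      obtain ⟨f, hf⟩ := f
      rw [LinearMap.zero_apply]
      have key : ∀ (f : κ → ℚ) (hf : f ∈ Submodule.span ℚ (Hs L)), q u ⟨f, hf⟩ = 0 := by
        intro f hf
        induction hf using Submodule.span_induction with
        | mem ε hε => exact h3 ε hε
        | zero => exact map_zero (q u)
        | add a b ha hb ha' hb' =>
          have e : (⟨a + b, Submodule.add_mem _ ha hb⟩ : Yo L) = ⟨a, ha⟩ + ⟨b, hb⟩ := rfl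
          exact (congrArg (q u) e).trans (by rw [map_add, ha', hb', add_zero])
        | smul c a ha ha' =>
          have e : (⟨c • a, Submodule.smul_mem _ c ha⟩ : Yo L) = c • ⟨a, ha⟩ := rfl
          exact (congrArg (q u) e).trans (by rw [map_smul, ha', smul_zero])
      exact key f hf
    obtain ⟨ε, hε, h3⟩ := h2
    refine ⟨ε, hε, ?_⟩
    rcases two_values hs hq.1
      (ε := Module.Dual.eval ℚ (Yo L) ⟨ε, Submodule.subset_span hε⟩) (e := ε)
      (fun a b => rfl) hε.1 with h4 | h4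
    · exact h4
    · exact absurd (h4 u) h3
  obtain ⟨ε, hε, hqε⟩ := hstep1
  have hPε : P ⟨ε, Submodule.subset_span hε⟩ = ⟨ε, Submodule.subset_span hε⟩ := by
    apply hsep
    intro u
    rw [hπ, ← hqε (P.dualMap u), hqπ, hqε]
  have hεj : dq ε ∈ I j := by
    have h1 := hP1 ⟨ε, Submodule.subset_span hε⟩
    rwa [hPε] at h1
  -- (2)
  have hstep2 : ∃ f' : Yo L, f' ≠ 0 ∧ P f' = f' ∧ ∀ u, q u f' = 0 := by
    have h1 : ∃ u, P.dualMap u - q u ≠ 0 := by
      by_contra h2
      push Not at h2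
      apply hne
      refine LinearMap.ext fun u => ?_
      exact (sub_eq_zero.1 (h2 u)).symm
    obtain ⟨u₀, hu₀⟩ := h1
    have h2 : ∃ f₀, (P.dualMap u₀ - q u₀) f₀ ≠ 0 := by
      by_contra h3
      push Not at h3
      exact hu₀ (LinearMap.ext h3)
    obtain ⟨f₀, hf₀⟩ := h2
    let φ : Module.Dual ℚ (Module.Dual ℚ (Yo L)) :=
      (Module.Dual.eval ℚ (Yo L) f₀) ∘ₗ (P.dualMap - q)
    let f' : Yo L := (Module.evalEquiv ℚ (Yo L)).symm φ
    have hf' : ∀ u : Module.Dual ℚ (Yo L), u f' = (P.dualMap u - q u) f₀ := by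
      intro u
      have h3 : u f' = φ u := Module.apply_evalEquiv_symm_apply ℚ (Yo L) u φ
      rw [h3]
      rfl
    refine ⟨f', ?_, ?_, ?_⟩
    · intro h3
      apply hf₀
      rw [← hf' u₀, h3, map_zero]
    · apply hsep
      intro u
      rw [hπ, hf', hππ, hqπ, ← hf']
    · intro u
      rw [hf', hπq, hqq, sub_self, LinearMap.zero_apply]
  obtain ⟨f', hf'0, hPf', hqf'⟩ := hstep2
  have hf'j : dq (f' : κ → ℚ) ∈ I j := by
    have h1 := hP1 f'
    rwa [hPf'] at h1
  -- (3)
  obtain ⟨X, hX, a, b, hX0, hab, hab', hw⟩ := mixed_root h.cmp hF hε hεj f'.2 hf'j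
    (fun h0 => hf'0 (Subtype.ext h0))
  -- (4)
  obtain ⟨Y, hY, hwY, hXX, hYY, hXYX, hYXY⟩ := sl2_pair h.cmp hF hX hε hab hw
  obtain ⟨fv, hfv, hv1, hv2, hv3, hv4⟩ := h.coroot hF hX hY hX0 hw hwY hXX hYY hXYX hYXY
  refine root_two hs hq (δ := pt L a - pt L b) (f := Module.Dual.eval ℚ (Yo L) ⟨fv, hfv⟩)
    (fv := fv) (fun a b => rfl) hv1 hv2 hv3 hv4 ?_ ?_
  · intro h0
    have h1 := hqε (pt L a - pt L b)
    rw [h0, LinearMap.zero_apply, LinearMap.sub_apply, pt_apply, pt_apply] at h1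
    exact hab (sub_eq_zero.1 h1.symm)
  · intro h0
    have h1 := LinearMap.congr_fun h0 f'
    rw [LinearMap.sub_apply, Module.End.one_apply, LinearMap.sub_apply, hqf', sub_zero,
      LinearMap.sub_apply, pt_apply, pt_apply, LinearMap.zero_apply] at h1
    exact hab' (sub_eq_zero.1 h1)

end Pool.Agent.H76Y
end

-- from Lib.H76Z.Z1
section

/-!
# Z1: splittings
-/

set_option autoImplicit false
set_option linter.unusedSectionVars false
namespace Pool.Agent.H76Z
open Module Matrix Polynomial Pool.Agent.H53Toric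
open Pool.Agent.H76P Pool.Agent.H76Q Pool.Agent.H76Y
open Pool.Agent.H76U (cmp preL Lb Split4 IsSplitting)
open Pool.Agent.H76RM (spanK similD)

variable {ι : Type*} [Fintype ι] [DecidableEq ι] {K : Type*} [Field K] [Algebra ℚ K]
  {D : Subalgebra ℚ (Matrix ι ι ℚ)} {ψ : Matrix ι ι ℚ} {m : ℕ} {cl : Fin m → Cl}
  {bar : Fin m → Fin m} {e : Fin m → Matrix ι ι K} {u : Matrix ι ι K}

/-- The splitting without the condition on the adjoints. -/
theorem Splits.zero (h : Splits D ψ cl bar e u) : IsSplitting D (0 : Matrix ι ι ℚ) bar e where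
  mem := h.mem
  idem := h.idem
  ne_zero := h.ne_zero
  barbar := h.barbar
  adj := fun b => by
    have h1 : (0 : Matrix ι ι ℚ).map (algebraMap ℚ K) = 0 := by
      ext i j
      simp
    rw [h1, Matrix.mul_zero, Matrix.zero_mul]
  corner := h.corner
  orth := h.orth
  full := h.full

theorem Splits.map {K K' : Type*} [Field K] [CharZero K] [Field K'] [CharZero K']
    {e : Fin m → Matrix ι ι K} {u : Matrix ι ι K} (h : Splits D ψ cl bar e u)
    (i : K →+* K') : Splits D ψ cl bar (fun b => (e b).map i) (u.map i) := by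
  have h0 := h.zero.map i
  have hψ : (ψ.map (algebraMap ℚ K)).map i = ψ.map (algebraMap ℚ K') := by
    ext a b
    simp
  have hm : (ψ.map (algebraMap ℚ K) * u).map i = ψ.map (algebraMap ℚ K') * u.map i := by
    rw [H76U.map_mul', hψ]
  refine ⟨h0.mem, h0.idem, h0.ne_zero, h0.barbar, h0.corner, h0.orth, h0.full,
    H76U.spanK_map i h.umem, ?_, ?_, h.self, ?_, ?_⟩
  · have h1 : (u.map i).det = i u.det := (RingHom.map_det _ _).symm
    rw [h1]
    exact h.unit.map i
  · intro b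
    have h1 := congrArg (fun z : Matrix ι ι K => z.map i) (h.adj b)
    simp only [H76U.map_mul', Matrix.transpose_map, hψ] at h1
    exact h1
  · intro b hb
    have h1 := congrArg (fun z : Matrix ι ι K => z.map i) (h.alt b hb)
    beta_reduce at h1
    have h2 : (-((e b)ᵀ * (ψ.map (algebraMap ℚ K) * u) * e b)).map i =
        -(((e b)ᵀ * (ψ.map (algebraMap ℚ K) * u) * e b).map i) := by
      ext a c
      rw [Matrix.map_apply, Matrix.neg_apply, Matrix.neg_apply, map_neg, Matrix.map_apply]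
    rw [h2, H76U.map_mul', H76U.map_mul', H76U.map_mul', H76U.map_mul', Matrix.transpose_map,
      Matrix.transpose_map, hm] at h1
    exact h1
  · intro b hb
    have h1 := congrArg (fun z : Matrix ι ι K => z.map i) (h.sym b hb)
    beta_reduce at h1
    rw [H76U.map_mul', H76U.map_mul', H76U.map_mul', H76U.map_mul', Matrix.transpose_map,
      Matrix.transpose_map, hm] at h1
    exact h1

theorem Splits.split4 (h : Splits D ψ cl bar e u) :
    Split4 (ψ.map (algebraMap ℚ K) * u) (spanK K D) bar e := by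
  have h0 := Pool.Agent.H76U.split4_of h.zero
  exact ⟨h0.one, h0.mem, h0.idem, h0.barbar, h.adj, h0.corner, h0.orth, h0.full⟩


end Pool.Agent.H76Z
end

-- from Lib.H76Y.C1
section

/-!
# the algebras of the two factors commute
-/

set_option autoImplicit false
set_option linter.unusedSectionVars false
namespace Pool.Agent.H76Y
open Pool.Agent.H76P Pool.Agent.H76V Pool.Agent.H76Q
open Module Matrix Pool.Agent.H53Toric
open Pool.Agent.H76P
open Pool.Agent.H76T (IsIdeal Fam)

variable {κ : Type*} {K : Type*} [Field K] [CharZero K] [Fintype κ] [DecidableEq κ]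
  {L : Submodule K (Module.End K (κ → K))} {J : Matrix κ κ K} [IsAlgClosed K] [Nonempty κ]
  {Y : Submodule ℚ (κ → ℚ)} {P : Module.End ℚ Y}

theorem c1_min (h : CmpN L) {m : ℕ} {I : Fin m → Submodule K (Module.End K (κ → K))}
    (hF : Fam L I) {Z : Submodule K (Module.End K (κ → K))} (hZ : IsIdeal L Z) (hZ0 : Z ≠ ⊥) :
    ∃ j, I j ≤ Z := by
  obtain ⟨X, hX, hX0⟩ := (Submodule.ne_bot_iff _).1 hZ0
  have h1 : ∃ i, ∃ Y ∈ I i, X * Y ≠ Y * X := by
    by_contra hcon
    push Not at hcon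
    exact hX0 (t4_zero h hF (hZ.1 hX) hcon)
  obtain ⟨i, Y, hY, hXY⟩ := h1
  refine ⟨i, ?_⟩
  have h2 : X * Y - Y * X ∈ I i := (hF.ideal i).2 X (hZ.1 hX) Y hY
  have h3 : X * Y - Y * X ∈ Z := by
    have h4 := hZ.2 Y ((hF.ideal i).1 hY) X hX
    have h5 := Z.neg_mem h4
    rwa [neg_sub] at h5
  have h6 : IsIdeal L (Z ⊓ I i) := by
    refine ⟨inf_le_left.trans hZ.1, fun A hA B hB => ?_⟩
    exact ⟨hZ.2 A hA B hB.1, (hF.ideal i).2 A hA B hB.2⟩
  rcases hF.min i (Z ⊓ I i) h6 inf_le_right with h7 | h7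
  · exfalso
    have h8 : X * Y - Y * X ∈ Z ⊓ I i := ⟨h3, h2⟩
    rw [h7, Submodule.mem_bot, sub_eq_zero] at h8
    exact hXY h8
  · exact inf_eq_right.1 h7

theorem c1_bot (h : TM L) (hY : Yo L = Y) (hP : Sp P)
    {Z Z' : Submodule K (Module.End K (κ → K))} (hZ : IsIdeal L Z) (hZ' : IsIdeal L Z')
    (h1 : InP P Z) (h2 : InP (1 - P) Z') : Z ⊓ Z' = ⊥ := by
  by_contra hne
  obtain ⟨m, I, hF⟩ := H76T.exists_fam h.cmp.lie h.cmp.irr h.cmp.tr
  have hid : IsIdeal L (Z ⊓ Z') := by
    refine ⟨inf_le_left.trans hZ.1, fun A hA B hB => ?_⟩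
    exact ⟨hZ.2 A hA B hB.1, hZ'.2 A hA B hB.2⟩
  obtain ⟨j, hj⟩ := c1_min h.cmp hF hid hne
  obtain ⟨f, hf, hf0, hfj⟩ := h.exists_diag hF j
  have h3 := hj hfj
  apply hf0
  have hfY : f ∈ Y := hY ▸ hf
  exact FunP_both hP (Yo_sum h.cmp hf) (h1 f hfY h3.1) (h2 f hfY h3.2)

theorem c1_gen (h : TM L) (hY : Yo L = Y) (hP : Sp P)
    {Z Z' : Submodule K (Module.End K (κ → K))} (hZ : IsIdeal L Z) (hZ' : IsIdeal L Z')
    (h1 : InP P Z) (h2 : InP (1 - P) Z') {X X' : Module.End K (κ → K)} (hX : X ∈ Z)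
    (hX' : X' ∈ Z') : X * X' = X' * X := by
  have h3 := c1_bot h hY hP hZ hZ' h1 h2
  have h4 : X * X' - X' * X ∈ Z' := hZ'.2 X (hZ.1 hX) X' hX'
  have h5 : X * X' - X' * X ∈ Z := by
    have h6 := Z.neg_mem (hZ.2 X' (hZ'.1 hX') X hX)
    rwa [neg_sub] at h6
  have h6 : X * X' - X' * X ∈ Z ⊓ Z' := ⟨h5, h4⟩
  rw [h3, Submodule.mem_bot, sub_eq_zero] at h6
  exact h6

/-- PROOF. `AZ` is generated by ideals.  Let `I`, `I'` be ideals of `L`, `InP P I`, `InP (1 - P) I'`.  A diagonal `dq f`, `f ∈ Y`, in `I ⊓ I'`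
has `f = 0` (`FunP_both`, `Yo_sum`).  If `I ⊓ I' ≠ ⊥` it contains some `I j` of the family of minimal ideals (`exists_fam`; for `X ∈ I ⊓ I'` which does not commute
with `I j` the ideal spanned by the brackets is `I j`; if `X` commutes with all `I j` it is `0`, `t4_zero`), and `TM.exists_diag` gives `f ≠ 0`.  So
`I ⊓ I' = ⊥`, and brackets of `I` with `I'` are in `I ⊓ I'`. -/
theorem AZ_comm (h : TM L) (hY : Yo L = Y) (hP : Sp P) :
    ∀ X ∈ AZ L P, ∀ X' ∈ AZ L (1 - P), X * X' = X' * X := by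
  set S1 : Set (Module.End K (κ → K)) := {X | ∃ I, IsIdeal L I ∧ InP P I ∧ X ∈ I} with hS1
  set S2 : Set (Module.End K (κ → K)) := {X | ∃ I, IsIdeal L I ∧ InP (1 - P) I ∧ X ∈ I} with hS2
  have h0 : ∀ X ∈ S1, ∀ X' ∈ S2, X * X' = X' * X := by
    rintro X ⟨Z, hZ, h1, hX⟩ X' ⟨Z', hZ', h2, hX'⟩
    exact c1_gen h hY hP hZ hZ' h1 h2 hX hX'
  have h1 : Algebra.adjoin K S1 ≤ Subalgebra.centralizer K S2 := by
    refine Algebra.adjoin_le fun X hX => ?_
    rw [SetLike.mem_coe, Subalgebra.mem_centralizer_iff]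
    intro X' hX'
    exact (h0 X hX X' hX').symm
  have h2 : Algebra.adjoin K S2 ≤ Subalgebra.centralizer K (Algebra.adjoin K S1 : Set (Module.End K (κ → K))) := by
    refine Algebra.adjoin_le fun X' hX' => ?_
    rw [SetLike.mem_coe, Subalgebra.mem_centralizer_iff]
    intro X hX
    exact ((Subalgebra.mem_centralizer_iff K).1 (h1 hX) X' hX').symm
  intro X hX X' hX'
  exact (Subalgebra.mem_centralizer_iff K).1 (h2 hX') X hX

end Pool.Agent.H76Y
end

-- from Lib.H76Y.C2
section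

/-!
# they generate all operators
-/

set_option autoImplicit false
set_option linter.unusedSectionVars false
namespace Pool.Agent.H76Y
open Pool.Agent.H76P Pool.Agent.H76V Pool.Agent.H76Q
open Module Matrix Pool.Agent.H53Toric
open Pool.Agent.H76P
open Pool.Agent.H76T (IsIdeal Fam)

variable {κ : Type*} {K : Type*} [Field K] [CharZero K] [Fintype κ] [DecidableEq κ]
  {L : Submodule K (Module.End K (κ → K))} {J : Matrix κ κ K} [IsAlgClosed K] [Nonempty κ]
  {Y : Submodule ℚ (κ → ℚ)} {P : Module.End ℚ Y}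

/-- PROOF. `exists_fam`, `Fam.top` (H76T.TA2): each `I j` is in `AZ L P` or in `AZ L (1 - P)`. -/
theorem AZ_top (h : TM L) (hc : Comp L P) : AZ L P ⊔ AZ L (1 - P) = ⊤ := by
  obtain ⟨m, I, hF⟩ := H76T.exists_fam h.cmp.lie h.cmp.irr h.cmp.tr
  rw [eq_top_iff, ← H76T.Fam.top hF h.cmp.irr]
  refine Algebra.adjoin_le fun X hX => ?_
  obtain ⟨j, hj⟩ := Set.mem_iUnion.1 hX
  rcases hc m I hF j with h1 | h1
  · have h2 : X ∈ AZ L P := Algebra.subset_adjoin ⟨I j, hF.ideal j, h1, hj⟩
    exact (le_sup_left : AZ L P ≤ AZ L P ⊔ AZ L (1 - P)) h2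
  · have h2 : X ∈ AZ L (1 - P) := Algebra.subset_adjoin ⟨I j, hF.ideal j, h1, hj⟩
    exact (le_sup_right : AZ L (1 - P) ≤ AZ L P ⊔ AZ L (1 - P)) h2

/-- PROOF. `X` commutes with `AZ L P ⊔ AZ L (1 - P) = ⊤`, so with all elements of `L`; `CmpN.gen`. -/
theorem AZ_scalar (h : TM L) (hc : Comp L P) {X : Module.End K (κ → K)}
    (h1 : ∀ A ∈ AZ L P, X * A = A * X) (h2 : ∀ A ∈ AZ L (1 - P), X * A = A * X) :
    ∃ c : K, X = c • 1 := by
  have h3 : AZ L P ⊔ AZ L (1 - P) ≤ Subalgebra.centralizer K {X} := by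
    refine sup_le ?_ ?_
    · intro A hA
      rw [Subalgebra.mem_centralizer_iff]
      intro X' hX'
      rw [Set.mem_singleton_iff.1 hX']
      exact h1 A hA
    · intro A hA
      rw [Subalgebra.mem_centralizer_iff]
      intro X' hX'
      rw [Set.mem_singleton_iff.1 hX']
      exact h2 A hA
  refine h.cmp.gen X fun y _ _ => ?_
  have h4 : y ∈ AZ L P ⊔ AZ L (1 - P) := by
    rw [AZ_top h hc]
    exact Algebra.mem_top
  exact (Subalgebra.mem_centralizer_iff K).1 (h3 h4) X (Set.mem_singleton X)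

end Pool.Agent.H76Y
end

-- from Lib.H76Y.C3
section

/-!
# diagonal elements in the algebras
-/

set_option autoImplicit false
set_option linter.unusedSectionVars false
namespace Pool.Agent.H76Y
open Pool.Agent.H76P Pool.Agent.H76V Pool.Agent.H76Q
open Module Matrix Pool.Agent.H53Toric
open Pool.Agent.H76P
open Pool.Agent.H76T (IsIdeal Fam)

variable {κ : Type*} {K : Type*} [Field K] [CharZero K] [Fintype κ] [DecidableEq κ]
  {L : Submodule K (Module.End K (κ → K))} {J : Matrix κ κ K} [IsAlgClosed K] [Nonempty κ]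
  {Y : Submodule ℚ (κ → ℚ)} {P : Module.End ℚ Y}

theorem c3_fsum {ι : Type*} (s : Finset ι) {Q : Module.End ℚ Y} {g : ι → κ → ℚ}
    (hg : ∀ i ∈ s, FunP Q (g i)) : FunP Q (∑ i ∈ s, g i) := by
  intro k k' hk
  rw [Finset.sum_apply, Finset.sum_apply]
  exact Finset.sum_congr rfl fun i hi => hg i hi k k' hk

theorem c3_dsum {ι : Type*} (s : Finset ι) (g : ι → κ → ℚ) :
    (dq (∑ i ∈ s, g i) : Module.End K (κ → K)) = ∑ i ∈ s, dq (g i) := by
  classical
  induction s using Finset.induction_on with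
  | empty =>
    rw [Finset.sum_empty, Finset.sum_empty]
    refine LinearMap.ext fun v => funext fun a => ?_
    simp [dq, dg_apply]
  | insert a s ha ih => rw [Finset.sum_insert ha, Finset.sum_insert ha, dq_add, ih]

/-- PROOF. `exists_fam`; `exists_decomp` (H76P.T13): `f = ∑ g j`, `g j ∈ Yo L`, `dq (g j) ∈ I j`.  Let `g'` be the sum of the `g j` with `InP P (I j)`,
`g'' = f - g'`.  `g''` depends only on the first coordinate (`f` and `g'` do) and only on the second (`hc`), so `g'' = 0` (`FunP_both`, `Yo_sum`).  So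
`dq f = ∑ dq (g j)`, `j` with `InP P (I j)`, is in `AZ L P`. -/
theorem dq_AZ (h : TM L) (hY : Yo L = Y) (hP : Sp P) (hc : Comp L P) {f : κ → ℚ} (hf : f ∈ Y)
    (hfP : FunP P f) : dq f ∈ AZ L P := by
  classical
  obtain ⟨m, I, hF⟩ := H76T.exists_fam h.cmp.lie h.cmp.irr h.cmp.tr
  have hf' : f ∈ Yo L := by rw [hY]; exact hf
  obtain ⟨g, hg, hsum⟩ := exists_decomp h.cmp hF hf'
  set S : Finset (Fin m) := Finset.univ.filter fun j => InP P (I j) with hS
  have hSg : ∀ i ∈ S, FunP P (g i) := by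
    intro i hi
    have h1 : InP P (I i) := (Finset.mem_filter.1 hi).2
    exact h1 (g i) (hY ▸ (hg i).1) (hg i).2
  have hSg' : ∀ i ∈ Sᶜ, FunP (1 - P) (g i) := by
    intro i hi
    have h1 : ¬ InP P (I i) := by
      intro h2
      rw [Finset.mem_compl] at hi
      exact hi (Finset.mem_filter.2 ⟨Finset.mem_univ i, h2⟩)
    rcases hc m I hF i with h2 | h2
    · exact absurd h2 h1
    · exact h2 (g i) (hY ▸ (hg i).1) (hg i).2
  have hsplit : f = ∑ i ∈ S, g i + ∑ i ∈ Sᶜ, g i := by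
    rw [Finset.sum_add_sum_compl, hsum]
  have h1 : FunP P (∑ i ∈ Sᶜ, g i) := by
    have h2 : ∑ i ∈ Sᶜ, g i = f - ∑ i ∈ S, g i := by
      rw [hsplit]
      abel
    rw [h2]
    intro k k' hk
    rw [Pi.sub_apply, Pi.sub_apply, hfP k k' hk, c3_fsum S hSg k k' hk]
  have h2 : FunP (1 - P) (∑ i ∈ Sᶜ, g i) := c3_fsum _ hSg'
  have h3 : ∑ i ∈ Sᶜ, g i ∈ Yo L := Submodule.sum_mem _ fun i _ => (hg i).1
  have h4 := FunP_both hP (Yo_sum h.cmp h3) h1 h2
  rw [hsplit, h4, add_zero, c3_dsum]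
  refine (AZ L P).sum_mem fun i hi => ?_
  exact Algebra.subset_adjoin ⟨I i, hF.ideal i, (Finset.mem_filter.1 hi).2, (hg i).2⟩

/-- PROOF. `exists_fam`, `Fam.one` (H76T.TA2) with `a = 0`, `b = -1`: `y ∈ I j`; `hc`. -/
theorem inv_AZ (h : TM L) (hc : Comp L P) {y : Module.End K (κ → K)} (hy : y ∈ L)
    (hyy : y * y = 1) : ∃ I, IsIdeal L I ∧ y ∈ I ∧ (InP P I ∨ InP (1 - P) I) := by
  obtain ⟨m, I, hF⟩ := H76T.exists_fam h.cmp.lie h.cmp.irr h.cmp.tr
  have hy0 : y ≠ 0 := by
    intro h0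
    rw [h0, mul_zero] at hyy
    exact zero_ne_one hyy
  obtain ⟨j, hj⟩ := hF.one h.cmp.irr h.cmp.tr hy hy0 (a := 0) (b := -1) (by rw [hyy]; module)
  exact ⟨I j, hF.ideal j, hj, hc m I hF j⟩

end Pool.Agent.H76Y
end

-- from Lib.H76Y.C5
section

/-!
# C5: pure tensors with determinants
-/

set_option autoImplicit false
set_option linter.unusedSectionVars false
namespace Pool.Agent.H76Y
open Pool.Agent.H76P Pool.Agent.H76V Pool.Agent.H76Q
open Module Matrix Pool.Agent.H53Toric
open Pool.Agent.H76T (IsIdeal Fam)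

variable {κ : Type*} {K : Type*} [Field K] [CharZero K] [Fintype κ] [DecidableEq κ]
  {L : Submodule K (Module.End K (κ → K))} [IsAlgClosed K] [Nonempty κ]
  {Y : Submodule ℚ (κ → ℚ)} {P : Module.End ℚ Y}

theorem PTN.pu {X u r : Module.End K (κ → K)} {t : K} (h : PTN L P X u r t) : EN.PU (AZ L P) (AZ L (1 - P)) X u r :=
  ⟨h.1, h.2.1, h.2.2.1, by rw [h.2.2.2.2.1]; exact h.2.2.2.1, h.2.2.2.2.2⟩

theorem ptn_of {X u r : Module.End K (κ → K)} (h : EN.PU (AZ L P) (AZ L (1 - P)) X u r) :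
    PTN L P X u r (LinearMap.det u) :=
  ⟨h.1, h.2.1, h.2.2.1, h.2.2.2.1, rfl, h.2.2.2.2⟩

theorem PT_one (_h : TM L) : PTN L P 1 1 1 1 := by
  have h := ptn_of (L := L) (P := P) EN.PU.one
  rwa [map_one] at h

/-- The scalars are the common elements of the two algebras. -/
theorem AZ_inter (h : TM L) (hY : Yo L = Y) (hP : Sp P) (hc : Comp L P) :
    ∀ X ∈ AZ L P, X ∈ AZ L (1 - P) → ∃ c : K, X = c • 1 := by
  intro X h1 h2
  exact AZ_scalar h hc (fun A hA => (AZ_comm h hY hP A hA X h2).symm) (fun A hA => AZ_comm h hY hP X h1 A hA)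

theorem PT_mul (h : TM L) (hY : Yo L = Y) (hP : Sp P) {X u r X' u' r' : Module.End K (κ → K)}
    {t t' : K} (h1 : PTN L P X u r t) (h2 : PTN L P X' u' r' t') :
    PTN L P (X * X') (u * u') (r * r') (t * t') := by
  have h3 := ptn_of (EN.PU.mul (AZ_comm h hY hP) h1.pu h2.pu)
  rwa [map_mul, h1.2.2.2.2.1, h2.2.2.2.2.1] at h3


theorem PT_inv (h : TM L) (hY : Yo L = Y) (hP : Sp P) {X X' u r : Module.End K (κ → K)} {t : K}
    (h1 : PTN L P X u r t) (hX : X * X' = 1) :
    ∃ w r', u * w = 1 ∧ PTN L P X' w r' t⁻¹ := by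
  obtain ⟨w, hw, huw, hwu⟩ := EN.exists_inv h1.1 h1.pu.2.2.2.1
  obtain ⟨r', h2⟩ := EN.PU.inv (AZ_comm h hY hP) h1.pu hX hw huw
  refine ⟨w, r', huw, ?_⟩
  have h3 := ptn_of h2
  have h4 : LinearMap.det w = t⁻¹ := by
    have h5 := congrArg LinearMap.det huw
    rw [map_mul, map_one, h1.2.2.2.2.1] at h5
    exact eq_inv_of_mul_eq_one_right h5
  rwa [h4] at h3


theorem det_par (h : TM L) {y : Module.End K (κ → K)} (hy : y ∈ L) (hyy : y * y = 1) (t : K) :
    LinearMap.det (((1 + t) / 2) • (1 : Module.End K (κ → K)) + ((t - 1) / 2) • y) =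
      t ^ (Fintype.card κ / 2) := by
  set E : Module.End K (κ → K) := (1 / 2 : K) • (1 + y) with hE
  have h1 : ((1 + t) / 2) • (1 : Module.End K (κ → K)) + ((t - 1) / 2) • y = 1 + (t - 1) • E := by
    rw [hE, smul_smul, smul_add]
    module
  have h2 : E * E = E := half_idem hyy
  have h3 : LinearMap.toMatrix' E * LinearMap.toMatrix' E = LinearMap.toMatrix' E := by
    rw [← LinearMap.toMatrix'_mul, h2]
  have h4 := EN.det_par h3 t
  have h5 : LinearMap.toMatrix' (1 + (t - 1) • E) = 1 + (t - 1) • LinearMap.toMatrix' E := by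
    rw [map_add, map_smul, LinearMap.toMatrix'_one]
  have h6 := half_rank hyy (h.cmp.tr y hy)
  rw [← hE, Module.finrank_fintype_fun_eq_card] at h6
  have h7 : (LinearMap.toMatrix' E).rank = finrank K (LinearMap.range E) := by
    rw [Matrix.rank, ← Matrix.toLin'_apply', Matrix.toLin'_toMatrix']
  rw [h1, ← LinearMap.det_toMatrix', h5, h4, h7]
  congr 1
  omega

theorem PT_par (h : TM L) (hc : Comp L P) {y : Module.End K (κ → K)} (hy : y ∈ L)
    (hyy : y * y = 1) {t : K} (ht : t ≠ 0) :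
    PTN L P (((1 + t) / 2) • 1 + ((t - 1) / 2) • y) (((1 + t) / 2) • 1 + ((t - 1) / 2) • y) 1
      (t ^ (Fintype.card κ / 2)) ∨
    PTN L P (((1 + t) / 2) • 1 + ((t - 1) / 2) • y) 1 (((1 + t) / 2) • 1 + ((t - 1) / 2) • y) 1 := by
  have hdet : LinearMap.det (((1 + t) / 2) • (1 : Module.End K (κ → K)) + ((t - 1) / 2) • y) ≠ 0 := by
    rw [det_par h hy hyy]
    exact pow_ne_zero _ ht
  obtain ⟨I, hI, hyI, hIP⟩ := inv_AZ h hc hy hyy
  have hone : LinearMap.det (1 : Module.End K (κ → K)) ≠ 0 := by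
    rw [map_one]
    exact one_ne_zero
  rcases hIP with h1 | h1
  · left
    have h2 := ptn_of (L := L) (P := P) (X := ((1 + t) / 2) • (1 : Module.End K (κ → K)) + ((t - 1) / 2) • y)
      (u := ((1 + t) / 2) • (1 : Module.End K (κ → K)) + ((t - 1) / 2) • y) (r := 1)
      ⟨add_mem ((AZ L P).smul_mem (one_mem _) _) ((AZ L P).smul_mem (Algebra.subset_adjoin ⟨I, hI, h1, hyI⟩) _),
        one_mem _, (mul_one _).symm, hdet, hone⟩
    rwa [det_par h hy hyy] at h2
  · right
    refine ⟨one_mem _, ?_, (one_mul _).symm, one_ne_zero, map_one _, hdet⟩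
    exact add_mem ((AZ L (1 - P)).smul_mem (one_mem _) _)
      ((AZ L (1 - P)).smul_mem (Algebra.subset_adjoin ⟨I, hI, h1, hyI⟩) _)

theorem PT_unique (h : TM L) (hY : Yo L = Y) (hP : Sp P) (hc : Comp L P)
    {X u r u' r' : Module.End K (κ → K)} {t t' : K} (h1 : PTN L P X u r t)
    (h2 : PTN L P X u' r' t') : ∃ c : K, c ≠ 0 ∧ u' = c • u ∧ t' = c ^ Fintype.card κ * t := by
  obtain ⟨c, hc0, hcu⟩ := EN.PU.unique (AZ_comm h hY hP) (AZ_inter h hY hP hc) h1.pu h2.pu
  refine ⟨c, hc0, hcu, ?_⟩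
  rw [← h2.2.2.2.2.1, ← h1.2.2.2.2.1, hcu, LinearMap.det_smul, Module.finrank_fintype_fun_eq_card]

end Pool.Agent.H76Y
end

-- from Lib.H76Z.E4
section

/-!
# elements of the group are pure tensors
-/

set_option autoImplicit false
set_option linter.unusedSectionVars false
namespace Pool.Agent.H76Z
open Pool.Agent.H76Y
open Pool.Agent.H76P Pool.Agent.H76V Pool.Agent.H76Q
open Module Matrix Polynomial Pool.Agent.H53Toric
open Pool.Agent.H76P
open Pool.Agent.H76T (IsIdeal Fam Lc)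
open Pool.Agent.H76U (cmp preL IsSplitting)
open Pool.Agent.H76RM (spanK similD)

variable {ι : Type*} [Fintype ι] [DecidableEq ι] {K : Type*} [Field K] [CharZero K]
  [IsAlgClosed K] {ct : Cl} {J : Matrix ι ι K} {S 𝓗 : Set (Matrix ι ι K)} {e x : Matrix ι ι K} {q : K} {n : ℕ}
  {U : Matrix ι (Fin n) K} {V : Matrix (Fin n) ι K} {d : Fin n → K}
  {Y : Submodule ℚ (Fin n → ℚ)}

/-- PROOF. `cmp` is multiplicative on elements which commute with `e` (`H76U.cmp_mul`). -/
theorem cmp_comm (h : LocN ct J S 𝓗 e x q U V d Y) {g : Matrix ι ι K}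
    (hg : g ∈ Submonoid.closure {y | ∃ k ∈ 𝓗, ∃ t : K, t ≠ 0 ∧ y = 1 + (t - 1) • k}) :
    g * e = e * g := by
  refine Submonoid.closure_induction (motive := fun m _ => m * e = e * m) ?_ ?_ ?_ hg
  · rintro _ ⟨k, hk, t, -, rfl⟩
    rw [add_mul, mul_add, one_mul, mul_one, smul_mul_assoc, mul_smul_comm, (h.par k hk).2.1]
  · rw [one_mul, mul_one]
  · intro a b _ _ ha hb
    rw [mul_assoc, hb, ← mul_assoc, ha, mul_assoc]

/-- PROOF. `Submonoid.closure_induction`: `PT_one`, `PT_mul` (with `cmp_mul`), `PT_par` for `y = phi (cmp U V (2 k - 1))`, `y * y = 1`,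
`cmp (1 + (t - 1) k) = ((1 + t) / 2) + ((t - 1) / 2) y` (`h.par`). -/
theorem gen_PT (h : LocN ct J S 𝓗 e x q U V d Y) {P : Module.End ℚ Y} (hP : Sp P)
    (hc : Comp (LcN J S U V) P) {g : Matrix ι ι K}
    (hg : g ∈ Submonoid.closure {y | ∃ k ∈ 𝓗, ∃ t : K, t ≠ 0 ∧ y = 1 + (t - 1) • k}) :
    ∃ u r t, PTN (LcN J S U V) P (phi (cmp U V g)) u r t := by
  have hne : Nonempty (Fin n) := ⟨⟨0, h.pos⟩⟩
  refine Submonoid.closure_induction (motive := fun m _ => ∃ u r t,
    PTN (LcN J S U V) P (phi (cmp U V m)) u r t) ?_ ?_ ?_ hg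
  · rintro _ ⟨k, hk, t, ht, rfl⟩
    obtain ⟨hkk, hke, -, hkL⟩ := h.par k hk
    have h2 : ((2 : K) • k - 1) * e = e * ((2 : K) • k - 1) := by
      rw [sub_mul, mul_sub, one_mul, mul_one, smul_mul_assoc, mul_smul_comm, hke]
    have h3 : ((2 : K) • k - 1) * ((2 : K) • k - 1) = 1 := by
      simp only [sub_mul, mul_sub, smul_mul_assoc, mul_smul_comm, hkk, mul_one, one_mul]
      module
    have hyy : phi (cmp U V ((2 : K) • k - 1)) * phi (cmp U V ((2 : K) • k - 1)) = 1 := by
      rw [← map_mul, ← H76U.cmp_mul h.UV h.VU h2, h3, H76U.cmp_one h.UV h.VU, map_one]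
    have h4 : phi (cmp U V (1 + (t - 1) • k)) =
        ((1 + t) / 2) • (1 : Module.End K (Fin n → K)) + ((t - 1) / 2) • phi (cmp U V ((2 : K) • k - 1)) := by
      have h5 : 1 + (t - 1) • k = ((1 + t) / 2) • (1 : Matrix ι ι K) + ((t - 1) / 2) • ((2 : K) • k - 1) := by
        rw [smul_sub, smul_smul]
        module
      rw [h5, map_add, map_smul, map_smul, H76U.cmp_one h.UV h.VU, map_add, map_smul, map_smul, map_one]
    rw [h4]
    rcases PT_par h.ts hc hkL hyy ht with h6 | h6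
    · exact ⟨_, _, _, h6⟩
    · exact ⟨_, _, _, h6⟩
  · rw [H76U.cmp_one h.UV h.VU, map_one]
    exact ⟨_, _, _, PT_one h.ts⟩
  · rintro a b ha hb ⟨u, r, t, h1⟩ ⟨u', r', t', h2⟩
    rw [H76U.cmp_mul h.UV h.VU (cmp_comm h hb), map_mul]
    exact ⟨_, _, _, PT_mul h.ts h.yo hP h1 h2⟩

end Pool.Agent.H76Z
end
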