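import Pool.Agent.Lib.H1M.RC.D_H45U_U1
import Pool.Agent.Lib.H1M.RC.M048
import Pool.Agent.Lib.H1M.RC.M049
import Pool.Agent.Lib.H1M.RC.M051
import Pool.Agent.Lib.H1M.RC.M056
import Pool.Agent.Lib.H1M.RC.M057
import Pool.Agent.Lib.H1M.RC.M059

/-! Merged copies (to shorten the build) of Lib.H25U.C1, Lib.H25U.C2, Lib.H25U.C3, Lib.H25U.C4, Lib.H45U.U2, Lib.H76Q.W4, Lib.H76Q.F5, Lib.H76Q.F8, Lib.H76Q.W5, Lib.H76Q.W6, Lib.H76Y.E1, Lib.H76Z.E3, Lib.H76Z.W1. -/

-- from Lib.H25U.C1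
section

/-!
# the algebras of the two factors commute
-/

set_option autoImplicit false
set_option linter.unusedSectionVars false
namespace Pool.Agent.H25U
open Pool.Agent.H76P Pool.Agent.H76V Pool.Agent.H76Q
open Module Matrix Pool.Agent.H53Toric
open Pool.Agent.H76P
open Pool.Agent.H76T (IsIdeal Fam)

variable {κ : Type*} {K : Type*} [Field K] [CharZero K] [Fintype κ] [DecidableEq κ]
  {L : Submodule K (Module.End K (κ → K))} {J : Matrix κ κ K} [IsAlgClosed K] [Nonempty κ]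
  {Y : Submodule ℚ (κ → ℚ)} {P : Module.End ℚ Y}

theorem c1_min (h : CmpN L) {m : ℕ} {I : Fin m → Submodule K (Module.End K (κ → K))}
    (hF : Fam L I) {Z : Submodule K (Module.End K (κ → K))} (hZ : IsIdeal L Z) (hZ0 : Z ≠ ⊥) :
    ∃ j, I j ≤ Z := by
  obtain ⟨X, hX, hX0⟩ := (Submodule.ne_bot_iff _).1 hZ0
  have h1 : ∃ i, ∃ Y ∈ I i, X * Y ≠ Y * X := by
    by_contra hcon
    push Not at hcon
    exact hX0 (t4_zero h hF (hZ.1 hX) hcon)
  obtain ⟨i, Y, hY, hXY⟩ := h1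
  refine ⟨i, ?_⟩
  have h2 : X * Y - Y * X ∈ I i := (hF.ideal i).2 X (hZ.1 hX) Y hY
  have h3 : X * Y - Y * X ∈ Z := by
    have h4 := hZ.2 Y ((hF.ideal i).1 hY) X hX
    have h5 := Z.neg_mem h4
    rwa [neg_sub] at h5
  have h6 : IsIdeal L (Z ⊓ I i) := by
    refine ⟨inf_le_left.trans hZ.1, fun A hA B hB => ?_⟩
    exact ⟨hZ.2 A hA B hB.1, (hF.ideal i).2 A hA B hB.2⟩
  rcases hF.min i (Z ⊓ I i) h6 inf_le_right with h7 | h7
  · exfalso
    have h8 : X * Y - Y * X ∈ Z ⊓ I i := ⟨h3, h2⟩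
    rw [h7, Submodule.mem_bot, sub_eq_zero] at h8
    exact hXY h8
  · exact inf_eq_right.1 h7

theorem c1_bot (h : TM L) (hY : Yo L = Y) (hP : Sp P)
    {Z Z' : Submodule K (Module.End K (κ → K))} (hZ : IsIdeal L Z) (hZ' : IsIdeal L Z')
    (h1 : InP P Z) (h2 : InP (1 - P) Z') : Z ⊓ Z' = ⊥ := by
  by_contra hne
  obtain ⟨m, I, hF⟩ := H76T.exists_fam h.cmp.lie h.cmp.irr h.cmp.tr
  have hid : IsIdeal L (Z ⊓ Z') := by
    refine ⟨inf_le_left.trans hZ.1, fun A hA B hB => ?_⟩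
    exact ⟨hZ.2 A hA B hB.1, hZ'.2 A hA B hB.2⟩
  obtain ⟨j, hj⟩ := c1_min h.cmp hF hid hne
  obtain ⟨f, hf, hf0, hfj⟩ := h.exists_diag hF j
  have h3 := hj hfj
  apply hf0
  have hfY : f ∈ Y := hY ▸ hf
  exact FunP_both hP (Yo_sum h.cmp hf) (h1 f hfY h3.1) (h2 f hfY h3.2)

theorem c1_gen (h : TM L) (hY : Yo L = Y) (hP : Sp P)
    {Z Z' : Submodule K (Module.End K (κ → K))} (hZ : IsIdeal L Z) (hZ' : IsIdeal L Z')
    (h1 : InP P Z) (h2 : InP (1 - P) Z') {X X' : Module.End K (κ → K)} (hX : X ∈ Z)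
    (hX' : X' ∈ Z') : X * X' = X' * X := by
  have h3 := c1_bot h hY hP hZ hZ' h1 h2
  have h4 : X * X' - X' * X ∈ Z' := hZ'.2 X (hZ.1 hX) X' hX'
  have h5 : X * X' - X' * X ∈ Z := by
    have h6 := Z.neg_mem (hZ.2 X' (hZ'.1 hX') X hX)
    rwa [neg_sub] at h6
  have h6 : X * X' - X' * X ∈ Z ⊓ Z' := ⟨h5, h4⟩
  rw [h3, Submodule.mem_bot, sub_eq_zero] at h6
  exact h6

/-- PROOF. `AZ` is generated by ideals.  Let `I`, `I'` be ideals of `L`, `InP P I`, `InP (1 - P) I'`.  A diagonal `dq f`, `f ∈ Y`, in `I ⊓ I'`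
has `f = 0` (`FunP_both`, `Yo_sum`).  If `I ⊓ I' ≠ ⊥` it contains some `I j` of the family of minimal ideals (`exists_fam`; for `X ∈ I ⊓ I'` which does not commute
with `I j` the ideal spanned by the brackets is `I j`; if `X` commutes with all `I j` it is `0`, `t4_zero`), and `TM.exists_diag` gives `f ≠ 0`.  So
`I ⊓ I' = ⊥`, and brackets of `I` with `I'` are in `I ⊓ I'`. -/
theorem AZ_comm (h : TM L) (hY : Yo L = Y) (hP : Sp P) :
    ∀ X ∈ AZ L P, ∀ X' ∈ AZ L (1 - P), X * X' = X' * X := by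
  set S1 : Set (Module.End K (κ → K)) := {X | ∃ I, IsIdeal L I ∧ InP P I ∧ X ∈ I} with hS1
  set S2 : Set (Module.End K (κ → K)) := {X | ∃ I, IsIdeal L I ∧ InP (1 - P) I ∧ X ∈ I} with hS2
  have h0 : ∀ X ∈ S1, ∀ X' ∈ S2, X * X' = X' * X := by
    rintro X ⟨Z, hZ, h1, hX⟩ X' ⟨Z', hZ', h2, hX'⟩
    exact c1_gen h hY hP hZ hZ' h1 h2 hX hX'
  have h1 : Algebra.adjoin K S1 ≤ Subalgebra.centralizer K S2 := by
    refine Algebra.adjoin_le fun X hX => ?_
    rw [SetLike.mem_coe, Subalgebra.mem_centralizer_iff]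
    intro X' hX'
    exact (h0 X hX X' hX').symm
  have h2 : Algebra.adjoin K S2 ≤ Subalgebra.centralizer K (Algebra.adjoin K S1 : Set (Module.End K (κ → K))) := by
    refine Algebra.adjoin_le fun X' hX' => ?_
    rw [SetLike.mem_coe, Subalgebra.mem_centralizer_iff]
    intro X hX
    exact ((Subalgebra.mem_centralizer_iff K).1 (h1 hX) X' hX').symm
  intro X hX X' hX'
  exact (Subalgebra.mem_centralizer_iff K).1 (h2 hX') X hX

end Pool.Agent.H25U
end

-- from Lib.H25U.C2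
section

/-!
# they generate all operators
-/

set_option autoImplicit false
set_option linter.unusedSectionVars false
namespace Pool.Agent.H25U
open Pool.Agent.H76P Pool.Agent.H76V Pool.Agent.H76Q
open Module Matrix Pool.Agent.H53Toric
open Pool.Agent.H76P
open Pool.Agent.H76T (IsIdeal Fam)

variable {κ : Type*} {K : Type*} [Field K] [CharZero K] [Fintype κ] [DecidableEq κ]
  {L : Submodule K (Module.End K (κ → K))} {J : Matrix κ κ K} [IsAlgClosed K] [Nonempty κ]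
  {Y : Submodule ℚ (κ → ℚ)} {P : Module.End ℚ Y}

/-- PROOF. `exists_fam`, `Fam.top` (H76T.TA2): each `I j` is in `AZ L P` or in `AZ L (1 - P)`. -/
theorem AZ_top (h : TM L) (hc : Comp L P) : AZ L P ⊔ AZ L (1 - P) = ⊤ := by
  obtain ⟨m, I, hF⟩ := H76T.exists_fam h.cmp.lie h.cmp.irr h.cmp.tr
  rw [eq_top_iff, ← H76T.Fam.top hF h.cmp.irr]
  refine Algebra.adjoin_le fun X hX => ?_
  obtain ⟨j, hj⟩ := Set.mem_iUnion.1 hX
  rcases hc m I hF j with h1 | h1
  · have h2 : X ∈ AZ L P := Algebra.subset_adjoin ⟨I j, hF.ideal j, h1, hj⟩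
    exact (le_sup_left : AZ L P ≤ AZ L P ⊔ AZ L (1 - P)) h2
  · have h2 : X ∈ AZ L (1 - P) := Algebra.subset_adjoin ⟨I j, hF.ideal j, h1, hj⟩
    exact (le_sup_right : AZ L (1 - P) ≤ AZ L P ⊔ AZ L (1 - P)) h2

/-- PROOF. `X` commutes with `AZ L P ⊔ AZ L (1 - P) = ⊤`, so with all elements of `L`; `CmpN.gen`. -/
theorem AZ_scalar (h : TM L) (hc : Comp L P) {X : Module.End K (κ → K)}
    (h1 : ∀ A ∈ AZ L P, X * A = A * X) (h2 : ∀ A ∈ AZ L (1 - P), X * A = A * X) :
    ∃ c : K, X = c • 1 := by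
  have h3 : AZ L P ⊔ AZ L (1 - P) ≤ Subalgebra.centralizer K {X} := by
    refine sup_le ?_ ?_
    · intro A hA
      rw [Subalgebra.mem_centralizer_iff]
      intro X' hX'
      rw [Set.mem_singleton_iff.1 hX']
      exact h1 A hA
    · intro A hA
      rw [Subalgebra.mem_centralizer_iff]
      intro X' hX'
      rw [Set.mem_singleton_iff.1 hX']
      exact h2 A hA
  refine h.cmp.gen X fun y _ _ => ?_
  have h4 : y ∈ AZ L P ⊔ AZ L (1 - P) := by
    rw [AZ_top h hc]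
    exact Algebra.mem_top
  exact (Subalgebra.mem_centralizer_iff K).1 (h3 h4) X (Set.mem_singleton X)

end Pool.Agent.H25U
end

-- from Lib.H25U.C3
section

/-!
# diagonal elements in the algebras
-/

set_option autoImplicit false
set_option linter.unusedSectionVars false
namespace Pool.Agent.H25U
open Pool.Agent.H76P Pool.Agent.H76V Pool.Agent.H76Q
open Module Matrix Pool.Agent.H53Toric
open Pool.Agent.H76P
open Pool.Agent.H76T (IsIdeal Fam)

variable {κ : Type*} {K : Type*} [Field K] [CharZero K] [Fintype κ] [DecidableEq κ]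
  {L : Submodule K (Module.End K (κ → K))} {J : Matrix κ κ K} [IsAlgClosed K] [Nonempty κ]
  {Y : Submodule ℚ (κ → ℚ)} {P : Module.End ℚ Y}

theorem c3_fsum {ι : Type*} (s : Finset ι) {Q : Module.End ℚ Y} {g : ι → κ → ℚ}
    (hg : ∀ i ∈ s, FunP Q (g i)) : FunP Q (∑ i ∈ s, g i) := by
  intro k k' hk
  rw [Finset.sum_apply, Finset.sum_apply]
  exact Finset.sum_congr rfl fun i hi => hg i hi k k' hk

theorem c3_dsum {ι : Type*} (s : Finset ι) (g : ι → κ → ℚ) :
    (dq (∑ i ∈ s, g i) : Module.End K (κ → K)) = ∑ i ∈ s, dq (g i) := by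
  classical
  induction s using Finset.induction_on with
  | empty =>
    rw [Finset.sum_empty, Finset.sum_empty]
    refine LinearMap.ext fun v => funext fun a => ?_
    simp [dq, dg_apply]
  | insert a s ha ih => rw [Finset.sum_insert ha, Finset.sum_insert ha, dq_add, ih]

/-- PROOF. `exists_fam`; `exists_decomp` (H76P.T13): `f = ∑ g j`, `g j ∈ Yo L`, `dq (g j) ∈ I j`.  Let `g'` be the sum of the `g j` with `InP P (I j)`,
`g'' = f - g'`.  `g''` depends only on the first coordinate (`f` and `g'` do) and only on the second (`hc`), so `g'' = 0` (`FunP_both`, `Yo_sum`).  So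
`dq f = ∑ dq (g j)`, `j` with `InP P (I j)`, is in `AZ L P`. -/
theorem dq_AZ (h : TM L) (hY : Yo L = Y) (hP : Sp P) (hc : Comp L P) {f : κ → ℚ} (hf : f ∈ Y)
    (hfP : FunP P f) : dq f ∈ AZ L P := by
  classical
  obtain ⟨m, I, hF⟩ := H76T.exists_fam h.cmp.lie h.cmp.irr h.cmp.tr
  have hf' : f ∈ Yo L := by rw [hY]; exact hf
  obtain ⟨g, hg, hsum⟩ := exists_decomp h.cmp hF hf'
  set S : Finset (Fin m) := Finset.univ.filter fun j => InP P (I j) with hS
  have hSg : ∀ i ∈ S, FunP P (g i) := by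
    intro i hi
    have h1 : InP P (I i) := (Finset.mem_filter.1 hi).2
    exact h1 (g i) (hY ▸ (hg i).1) (hg i).2
  have hSg' : ∀ i ∈ Sᶜ, FunP (1 - P) (g i) := by
    intro i hi
    have h1 : ¬ InP P (I i) := by
      intro h2
      rw [Finset.mem_compl] at hi
      exact hi (Finset.mem_filter.2 ⟨Finset.mem_univ i, h2⟩)
    rcases hc m I hF i with h2 | h2
    · exact absurd h2 h1
    · exact h2 (g i) (hY ▸ (hg i).1) (hg i).2
  have hsplit : f = ∑ i ∈ S, g i + ∑ i ∈ Sᶜ, g i := by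
    rw [Finset.sum_add_sum_compl, hsum]
  have h1 : FunP P (∑ i ∈ Sᶜ, g i) := by
    have h2 : ∑ i ∈ Sᶜ, g i = f - ∑ i ∈ S, g i := by
      rw [hsplit]
      abel
    rw [h2]
    intro k k' hk
    rw [Pi.sub_apply, Pi.sub_apply, hfP k k' hk, c3_fsum S hSg k k' hk]
  have h2 : FunP (1 - P) (∑ i ∈ Sᶜ, g i) := c3_fsum _ hSg'
  have h3 : ∑ i ∈ Sᶜ, g i ∈ Yo L := Submodule.sum_mem _ fun i _ => (hg i).1
  have h4 := FunP_both hP (Yo_sum h.cmp h3) h1 h2
  rw [hsplit, h4, add_zero, c3_dsum]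
  refine (AZ L P).sum_mem fun i hi => ?_
  exact Algebra.subset_adjoin ⟨I i, hF.ideal i, (Finset.mem_filter.1 hi).2, (hg i).2⟩

/-- An element of degree two, different from zero, is in a minimal ideal which belongs to one of the two factors. -/
theorem inv_AZ_ne (h : TM L) (hc : Comp L P) {y : Module.End K (κ → K)} (hy : y ∈ L) (hy0 : y ≠ 0)
    {c : K} (hyy : (y + c • 1) * (y + c • 1) = 1) : ∃ I, IsIdeal L I ∧ y ∈ I ∧ (InP P I ∨ InP (1 - P) I) := by
  obtain ⟨m, I, hF⟩ := H76T.exists_fam h.cmp.lie h.cmp.irr h.cmp.tr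
  obtain ⟨j, hj⟩ := h.cmp.one hF hy hyy hy0
  exact ⟨I j, hF.ideal j, hj, hc m I hF j⟩

/-- An element of degree two is in an ideal which belongs to one of the two factors. -/
theorem inv_AZ (h : TM L) (hc : Comp L P) {y : Module.End K (κ → K)} (hy : y ∈ L)
    {c : K} (hyy : (y + c • 1) * (y + c • 1) = 1) : ∃ I, IsIdeal L I ∧ y ∈ I ∧ (InP P I ∨ InP (1 - P) I) := by
  by_cases hy0 : y = 0
  · refine ⟨⊥, ⟨bot_le, fun X _ Y hY => ?_⟩, by rw [hy0]; exact Submodule.zero_mem _, Or.inl ?_⟩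
    · rw [(Submodule.mem_bot K).1 hY, mul_zero, zero_mul, sub_zero]
      exact Submodule.zero_mem _
    · intro f _ hf2
      have h1 : f = 0 := dq_inj (K := K) (by rw [(Submodule.mem_bot K).1 hf2, t13_zero])
      rw [h1]
      intro k k' _
      rfl
  · exact inv_AZ_ne h hc hy hy0 hyy

end Pool.Agent.H25U
end

-- from Lib.H25U.C4
section

/-!
# matrix entries
-/

set_option autoImplicit false
set_option linter.unusedSectionVars false
namespace Pool.Agent.H25U
open Pool.Agent.H76P Pool.Agent.H76V Pool.Agent.H76Q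
open Module Matrix Pool.Agent.H53Toric
open Pool.Agent.H76P
open Pool.Agent.H76T (IsIdeal Fam)

variable {κ : Type*} {K : Type*} [Field K] [CharZero K] [Fintype κ] [DecidableEq κ]
  {L : Submodule K (Module.End K (κ → K))} {J : Matrix κ κ K} [IsAlgClosed K] [Nonempty κ]
  {Y : Submodule ℚ (κ → ℚ)} {P : Module.End ℚ Y}

/-- PROOF. `dq f ∈ AZ L P` for `f ∈ Y` with `FunP P f` (`dq_AZ`); it commutes with `B` (`AZ_comm`); compare the entries `(c, k)` of
`dq f * B` and `B * dq f` (`H76P.t5_left`, `t5_right`): `f c = f k`.  For `f : Y` apply this to `P f`. -/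
theorem entry_cz (h : TM L) (hY : Yo L = Y) (hP : Sp P) (hc : Comp L P)
    {B : Module.End K (κ → K)} (hB : B ∈ AZ L (1 - P)) {c k : κ}
    (hck : LinearMap.toMatrix' B c k ≠ 0) : cz P c k := by
  intro f
  have h1 : (dq (P f : κ → ℚ) : Module.End K (κ → K)) ∈ AZ L P := by
    refine dq_AZ h hY hP hc (P f).2 ?_
    intro a b hab
    exact hab f
  have h2 := AZ_comm h hY hP _ h1 B hB
  have h3 := congrArg (fun X : Module.End K (κ → K) => LinearMap.toMatrix' X c k) h2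
  change LinearMap.toMatrix' (dq (P f : κ → ℚ) * B) c k
    = LinearMap.toMatrix' (B * dq (P f : κ → ℚ)) c k at h3
  rw [H76P.t5_left, H76P.t5_right] at h3
  have h4 := mul_right_cancel₀ hck h3
  exact_mod_cast h4

theorem c4_compl (hP : Sp P) : Sp (1 - P) where
  idem := by
    refine LinearMap.ext fun f => ?_
    have h2 : P (P f) = P f := LinearMap.congr_fun hP.idem f
    change (f - P f) - P (f - P f) = f - P f
    rw [map_sub, h2, sub_self, sub_zero]
  mix := by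
    intro a b
    obtain ⟨c, hc⟩ := hP.mix b a
    refine ⟨c, fun f => ?_⟩
    have h1 : (((1 - P) f : Y) : κ → ℚ) = (f : κ → ℚ) - (P f : κ → ℚ) := rfl
    rw [hc f, h1, Pi.sub_apply, Pi.sub_apply]
    ring

theorem c4_top (h : TM L) (hY : Yo L = Y) (hP : Sp P) (hc : Comp L P)
    (X : Module.End K (κ → K)) :
    X ∈ Subalgebra.toSubmodule (AZ L P) * Subalgebra.toSubmodule (AZ L (1 - P)) := by
  set M := Subalgebra.toSubmodule (AZ L P) * Subalgebra.toSubmodule (AZ L (1 - P)) with hM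
  have h1 : (1 : Module.End K (κ → K)) ∈ M := by
    have := Submodule.mul_mem_mul (M := Subalgebra.toSubmodule (AZ L P))
      (N := Subalgebra.toSubmodule (AZ L (1 - P))) (AZ L P).one_mem (AZ L (1 - P)).one_mem
    rwa [mul_one] at this
  have h2 : ∀ x y, x ∈ M → y ∈ M → x * y ∈ M := by
    intro x y hx hy
    refine Submodule.mul_induction_on hx (fun a ha b hb => ?_) (fun x x' h1 h2 => ?_)
    · refine Submodule.mul_induction_on hy (fun a' ha' b' hb' => ?_) (fun y y' h1 h2 => ?_)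
      · have h3 := AZ_comm h hY hP a' ha' b hb
        have h4 : a * b * (a' * b') = a * a' * (b * b') := by
          rw [mul_assoc, ← mul_assoc b a' b', ← h3, mul_assoc a' b b', ← mul_assoc a a']
        rw [h4]
        exact Submodule.mul_mem_mul ((AZ L P).mul_mem ha ha') ((AZ L (1 - P)).mul_mem hb hb')
      · rw [mul_add]
        exact M.add_mem h1 h2
    · rw [add_mul]
      exact M.add_mem h1 h2
  have h3 : AZ L P ⊔ AZ L (1 - P) ≤ M.toSubalgebra h1 h2 := by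
    refine sup_le ?_ ?_
    · intro a ha
      have := Submodule.mul_mem_mul (M := Subalgebra.toSubmodule (AZ L P))
        (N := Subalgebra.toSubmodule (AZ L (1 - P))) ha (AZ L (1 - P)).one_mem
      rw [mul_one] at this
      exact this
    · intro b hb
      have := Submodule.mul_mem_mul (M := Subalgebra.toSubmodule (AZ L P))
        (N := Subalgebra.toSubmodule (AZ L (1 - P))) (AZ L P).one_mem hb
      rw [one_mul] at this
      exact this
  rw [AZ_top h hc] at h3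
  exact h3 (Algebra.mem_top (x := X))

theorem c4_compl2 : (1 - (1 - P) : Module.End ℚ Y) = P := sub_sub_cancel 1 P

/-- PROOF. `AZ L P ⊔ AZ L (1 - P) = ⊤` (`AZ_top`) and the algebras commute (`AZ_comm`), so each operator is a sum of products `A * B`.  So there are
`A ∈ AZ L P`, `B ∈ AZ L (1 - P)` with `(A * B) k' k ≠ 0`, so `A k' c ≠ 0`, `B c k ≠ 0` for some `c`.  `entry_cz` for `P`: `c ~ k` in the first
coordinate, so `c ~ k'`; `entry_cz` for `1 - P`: `k' ~ c` in the second coordinate.  So `c = k'` (`cz_both`, `TM.sep`). -/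
theorem exB (h : TM L) (hY : Yo L = Y) (hP : Sp P) (hc : Comp L P) {k k' : κ}
    (hk : cz P k k') : ∃ B ∈ AZ L (1 - P), LinearMap.toMatrix' B k' k ≠ 0 := by
  have h1 : ∃ A ∈ AZ L P, ∃ B ∈ AZ L (1 - P), LinearMap.toMatrix' (A * B) k' k ≠ 0 := by
    by_contra hcon
    push Not at hcon
    have h2 : ∀ X : Module.End K (κ → K), LinearMap.toMatrix' X k' k = 0 := by
      intro X
      refine Submodule.mul_induction_on (c4_top h hY hP hc X) (fun a ha b hb => ?_)
        (fun x y hx hy => ?_)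
      · exact hcon a ha b hb
      · rw [map_add, Matrix.add_apply, hx, hy, add_zero]
    have h3 := h2 (Matrix.toLin' (Matrix.single k' k (1 : K)))
    rw [LinearMap.toMatrix'_toLin', Matrix.single_apply_same] at h3
    exact one_ne_zero h3
  obtain ⟨A, hA, B, hB, hAB⟩ := h1
  have h4 : LinearMap.toMatrix' (A * B) = LinearMap.toMatrix' A * LinearMap.toMatrix' B :=
    LinearMap.toMatrix'_mul A B
  rw [h4, Matrix.mul_apply] at hAB
  obtain ⟨c, -, hcne⟩ := Finset.exists_ne_zero_of_sum_ne_zero hAB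
  have hA0 : LinearMap.toMatrix' A k' c ≠ 0 := left_ne_zero_of_mul hcne
  have hB0 : LinearMap.toMatrix' B c k ≠ 0 := right_ne_zero_of_mul hcne
  have h5 : cz P c k := entry_cz h hY hP hc hB hB0
  have h6 : cz (1 - P) k' c := by
    refine entry_cz h hY (c4_compl hP) hc.compl (B := A) ?_ hA0
    rw [c4_compl2]
    exact hA
  have h7 : c = k' := by
    refine cz_both ?_ (cz_trans h5 hk) (cz_symm h6)
    intro a b hab
    obtain ⟨f, hf, hne⟩ := h.sep a b hab
    exact ⟨f, hY ▸ hf, hne⟩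
  exact ⟨B, hB, h7 ▸ hB0⟩

theorem c4_left (f : κ → K) (X : Module.End K (κ → K)) (c d : κ) :
    LinearMap.toMatrix' (dg f * X) c d = f c * LinearMap.toMatrix' X c d := by
  rw [LinearMap.toMatrix'_apply, LinearMap.toMatrix'_apply]
  rfl

theorem c4_right (f : κ → K) (X : Module.End K (κ → K)) (c d : κ) :
    LinearMap.toMatrix' (X * dg f) c d = f d * LinearMap.toMatrix' X c d := by
  rw [LinearMap.toMatrix'_apply, LinearMap.toMatrix'_apply, Module.End.mul_apply]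
  have h : (dg f : Module.End K (κ → K)) (Pi.single d 1) = f d • Pi.single d 1 := by
    ext a
    rw [dg_apply, Pi.smul_apply, smul_eq_mul]
    by_cases h : a = d
    · subst h
      rfl
    · rw [Pi.single_eq_of_ne h, mul_zero, mul_zero]
  rw [h, map_smul, Pi.smul_apply, smul_eq_mul]

/-- PROOF. With `B` as in `exB` compare the entries `(k', k)` of `dg g * B = B * dg g`. -/
theorem diag_AZ (h : TM L) (hY : Yo L = Y) (hP : Sp P) (hc : Comp L P) {g : κ → K}
    (hg : dg g ∈ AZ L P) : FunP P g := by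
  intro k k' hk
  obtain ⟨B, hB, hB0⟩ := exB h hY hP hc hk
  have h1 := AZ_comm h hY hP _ hg B hB
  have h2 := congrArg (fun X : Module.End K (κ → K) => LinearMap.toMatrix' X k' k) h1
  change LinearMap.toMatrix' (dg g * B) k' k = LinearMap.toMatrix' (B * dg g) k' k at h2
  rw [c4_left, c4_right] at h2
  exact (mul_right_cancel₀ hB0 h2).symm

end Pool.Agent.H25U
end

-- from Lib.H45U.U2
section

/-!
# U2: algebras which respect a form
-/

set_option autoImplicit false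
set_option linter.unusedSectionVars false
namespace Pool.Agent.H45U
open Module Matrix Polynomial Pool.Agent.H53Toric
open Pool.Agent.H76P (dg dq dg_mul dg_one)
open Pool.Agent.H76Y (SyL NsL)
open Pool.Agent.H76Z (Cl OrL Cls)

variable {κ : Type*} {K : Type*} [Field K] [CharZero K] [Fintype κ] [DecidableEq κ]
  {L : Submodule K (Module.End K (κ → K))}

theorem adj_one {J : Matrix κ κ K} (hd : IsUnit J.det) :
    adjE J (1 : Module.End K (κ → K)) = 1 := by
  have h1 : (1 : Module.End K (κ → K)) = phi (1 : Matrix κ κ K) := (map_one _).symm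
  rw [h1, adjE_phi, Matrix.transpose_one, Matrix.mul_one, Matrix.nonsing_inv_mul _ hd]

theorem form_shift {J : Matrix κ κ K} (hd : IsUnit J.det) {y : Module.End K (κ → K)}
    (hy : adjE J y = -y) {c : K} (hyy : (y + c • 1) * (y + c • 1) = 1) : c • y = 0 := by
  have h1 : adjE J (y + c • 1) = -y + c • 1 := by
    rw [map_add, map_smul, adj_one hd, hy]
  have h2 : (-y + c • 1) * (-y + c • 1) = (1 : Module.End K (κ → K)) := by
    rw [← h1, ← adjE_mul hd, hyy, adj_one hd]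
  have h3 : (y + c • 1) * (y + c • 1) - (-y + c • 1) * (-y + c • 1) = (4 : K) • (c • y) := by
    have e1 : (y + c • 1) * (y + c • 1) = y * y + (2 * c) • y + (c * c) • (1 : Module.End K (κ → K)) := by
      rw [add_mul, mul_add, mul_add, smul_mul_assoc, smul_mul_assoc, mul_smul_comm, one_mul, one_mul,
        mul_one]
      module
    have e2 : (-y + c • 1) * (-y + c • 1) =
        y * y - (2 * c) • y + (c * c) • (1 : Module.End K (κ → K)) := by
      have e3 : -y * -y = y * y := neg_mul_neg y y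
      rw [add_mul, mul_add, mul_add, smul_mul_assoc, smul_mul_assoc, mul_smul_comm, one_mul, one_mul,
        mul_one, e3]
      module
    rw [e1, e2]
    module
  rw [hyy, h2, sub_self] at h3
  exact (smul_eq_zero.1 h3.symm).resolve_left (by norm_num)

theorem skew_form (h : SyL L ∨ OrL L) :
    ∃ J : Matrix κ κ K, IsUnit J.det ∧ ∀ X ∈ L, adjE J X = -X := by
  rcases h with ⟨J, -, h1, h2⟩ | ⟨J, -, h1, h2⟩
  · exact ⟨J, h1, h2⟩
  · exact ⟨J, h1, h2⟩

theorem dq_shift (ε : κ → ℚ) {c : ℚ} (h : ∀ a, ε a = c + 1 ∨ ε a = c - 1) :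
    ((dq ε : Module.End K (κ → K)) + ((-c : ℚ) : K) • 1) * (dq ε + ((-c : ℚ) : K) • 1) = 1 := by
  have h1 : (dq ε : Module.End K (κ → K)) + ((-c : ℚ) : K) • 1 = dq (fun a => ε a - c) := by
    have h2 : (dq (fun a => ε a - c) : Module.End K (κ → K)) = dq ε + dq (fun _ : κ => -c) := by
      rw [← H76Y.dq_add]
      congr 1
      funext a
      show ε a - c = ε a + -c
      ring
    rw [h2]
    congr 1
  rw [h1]
  refine H76Y.dq_sq fun a => ?_
  rcases h a with h2 | h2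
  · left
    rw [h2]
    ring
  · right
    rw [h2]
    ring

/-- If `L` respects a form, the two configurations are equal. -/
theorem Yo_eq (h : SyL L ∨ OrL L) : H25U.Yo L = H76P.Yo L := by
  obtain ⟨J, hd, hs⟩ := skew_form h
  apply le_antisymm
  · refine Submodule.span_le.2 ?_
    rintro ε ⟨⟨c, hc⟩, hε⟩
    have h1 := form_shift hd (hs _ hε) (dq_shift (K := K) ε hc)
    rcases smul_eq_zero.1 h1 with h2 | h2
    · have h3 : c = 0 := by
        have h4 : (-c : ℚ) = 0 := by exact_mod_cast h2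
        linarith
      refine Submodule.subset_span ⟨fun a => ?_, hε⟩
      have h4 := hc a
      rw [h3] at h4
      simpa using h4
    · have h3 : ε = 0 := by
        refine H76Y.dq_inj (K := K) ?_
        rw [h2]
        unfold dq
        refine LinearMap.ext fun w => funext fun a => ?_
        rw [H76P.dg_apply]
        simp
      rw [h3]
      exact Submodule.zero_mem _
  · refine Submodule.span_le.2 ?_
    rintro ε ⟨h1, hε⟩
    exact Submodule.subset_span ⟨⟨0, fun a => by simpa using h1 a⟩, hε⟩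

theorem tm_iff (h : SyL L ∨ OrL L) : H25U.TM L ↔ H76Y.TM L := by
  have hY := Yo_eq h
  obtain ⟨J, hd, hs⟩ := skew_form h
  constructor
  · intro hT
    refine ⟨⟨hT.cmp.lie, hT.cmp.irr, hT.cmp.tr, fun T hc => hT.cmp.gen T fun y hy => ?_⟩, ?_, ?_⟩
    · rintro ⟨c, hyy⟩
      rcases smul_eq_zero.1 (form_shift hd (hs y hy) hyy) with h1 | h1
      · refine hc y hy ?_
        rwa [h1, zero_smul, add_zero] at hyy
      · rw [h1, mul_zero, zero_mul]
    · intro f hf
      rw [← hY]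
      exact hT.diag f hf
    · intro a b hab
      rw [← hY]
      exact hT.sep a b hab
  · intro hT
    refine ⟨⟨hT.cmp.lie, hT.cmp.irr, hT.cmp.tr, fun T hc => hT.cmp.gen T fun y hy hyy => ?_⟩, ?_, ?_⟩
    · exact hc y hy ⟨0, by rwa [zero_smul, add_zero]⟩
    · intro f hf
      rw [hY]
      exact hT.diag f hf
    · intro a b hab
      rw [hY]
      exact hT.sep a b hab

end Pool.Agent.H45U
end

-- from Lib.H76Q.W4
section

/-!
# reciprocity
-/

set_option autoImplicit false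

/-!
# reciprocity
-/
set_option linter.unusedSectionVars false
namespace Pool.Agent.H76Q
open Module Matrix Polynomial Pool.Agent.H53Toric
open Pool.Agent.H76P
open Pool.Agent.H76T (IsIdeal Fam Lc)
open Pool.Agent.H76V (Cmp)
open Pool.Agent.H76U (cmp preL IsSplitting)
open Pool.Agent.H76RM (spanK similD)

variable {ι : Type*} [Fintype ι] [DecidableEq ι] {ψ : Matrix ι ι ℚ}
    {D : Subalgebra ℚ (Matrix ι ι ℚ)} {M : Type*} [Field M] [NumberField M]
    {m : ℕ} {e : Fin m → Matrix ι ι M} {G : Type*} [Group G]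
    {ρ : ∀ (l : ℕ) [Fact l.Prime], G →* Matrix.GeneralLinearGroup ι ℚ_[l]}
    {p : ℕ} [Fact p.Prime] {σ : G} {q : ℚ} {f : ℚ[X]} {F : Fin m → M[X]}
    {φ μ ν : Matrix ι ι (AlgebraicClosure ℚ_[p])} {v : AlgebraicClosure ℚ_[p] → ℚ}
    {Δ : Set (AlgebraicClosure ℚ_[p] ≃+* AlgebraicClosure ℚ_[p])}
    {Ω : Type*} [Field Ω] [CharZero Ω] [IsAlgClosed Ω] [Algebra.IsAlgebraic ℚ Ω] {j : M →+* Ω}
    {R : Finset Ω} {N : Set ℕ} (C : Core2 ψ D e ρ p σ q f F φ μ ν v Δ j R N)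

include C

/-- The multiplier is not zero. -/
theorem Core2.w4_q (b : Fin m) : q ≠ 0 := by
  intro hq0
  have hι : Nonempty ι := by
    by_contra hemp
    rw [not_nonempty_iff] at hemp
    apply C.hspl.ne_zero b
    ext i
    exact (hemp.false i).elim
  obtain ⟨l, hl1, hl2⟩ := Nat.exists_infinite_primes (p + 1)
  have : Fact l.Prime := ⟨hl2⟩
  have h1 := C.mult l (by omega)
  rw [hq0, map_zero, zero_smul] at h1
  have h2 := congrArg Matrix.det h1
  rw [Matrix.det_mul, Matrix.det_mul, Matrix.det_transpose, Matrix.det_zero] at h2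
  have h3 : (ρ l σ).1.det ≠ 0 := by
    have := (Matrix.isUnits_det_units (ρ l σ)).ne_zero
    exact this
  have h4 : (ψ.map (algebraMap ℚ ℚ_[l])).det ≠ 0 := by
    have h5 : (ψ.map (algebraMap ℚ ℚ_[l])).det = algebraMap ℚ ℚ_[l] ψ.det := by
      rw [RingHom.map_det]
      rfl
    rw [h5]
    exact (_root_.map_ne_zero _).2 C.hψ0
  rcases mul_eq_zero.1 h2 with h6 | h6
  · rcases mul_eq_zero.1 h6 with h7 | h7
    · exact h3 h7
    · exact h4 h7
  · exact h3 h6

/-- PROOF. `C.arith.cheb` for the subgroup of `exists_gam` (D3), `gam_open`; `m₀ ≠ 0`, fixed: `Lift.exists_m` (D2, with `Core2.ld`).  Let `l ∉ N` (so `l ≠ p`), `i` with `Dec`, all `i r` squares: `Core2.locl`, and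
`square_at` (E6) for `C.arith.recl`; `hJ`: `ψ` is rational; `hdec`: for `τ` let `s` be as in `exists_res` (E5); `s ∈ Γ` by `Dec`; so `s` fixes `j M` (hence `he`) and has a permutation with `StabP`. -/
theorem Core2.recl (b : Fin m)
    {n : ℕ} {a : Fin n → Ω} (ha : Function.Injective a)
    (hroot : ∀ y : Ω, (F b).eval₂ j y = 0 ↔ ∃ k, y = a k)
    {bar : Equiv.Perm (Fin n)} (hbar : ∀ k, a k * a (bar k) = algebraMap ℚ Ω q)
    {P : Module.End ℚ (YS a)} (hP : Sp P) (hg : Good P) {t : Fin n → Ω} (ht : Lift P a t)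
    {m₀ : Ω} (hm : ∀ k, t k * t (bar k) = m₀) :
    ∃ R' ⊆ R, ∃ c : Ω, (∀ s ∈ GamP j R a P, s c = c) ∧ m₀ = (∏ r ∈ R', r) * c ^ 2 := by
  classical
  -- preparations
  have hq0 : algebraMap ℚ Ω q ≠ 0 := (_root_.map_ne_zero _).2 (C.w4_q b)
  have ha0 : ∀ k, a k ≠ 0 := by
    intro k h0
    apply hq0
    rw [← hbar k, h0, zero_mul]
  let i₀ : Ω →+* AlgebraicClosure ℚ_[p] := (IsAlgClosed.lift : Ω →ₐ[ℚ] AlgebraicClosure ℚ_[p]).toRingHom
  obtain ⟨H₁, U₁, V₁, -, hL₁⟩ := C.locp b ha hroot i₀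
  have : Nonempty (Fin n) := ⟨⟨0, hL₁.pos⟩⟩
  obtain ⟨u, r, t', hld, hut⟩ := C.ld b ha hroot hbar hP hg i₀
  obtain ⟨m', hm'0, hm', hinv⟩ := ht.exists_m ha ha0 hP hbar hld hut
  have hmm : m' = m₀ := by rw [← hm' ⟨0, hL₁.pos⟩, hm ⟨0, hL₁.pos⟩]
  rw [hmm] at hm'0 hinv
  obtain ⟨Γ, hΓ⟩ := exists_gam (a := a) (P := P) j R
  obtain ⟨T, hT⟩ := gam_open (a := a) (P := P) j R
  have hrat : ∀ s : Ω ≃+* Ω, s (algebraMap ℚ Ω q) = algebraMap ℚ Ω q := by
    intro s
    rw [eq_ratCast, map_ratCast]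
  have hm0 : ∀ s ∈ Γ, s m₀ = m₀ := by
    intro s hs
    obtain ⟨-, -, σ', h1, h2⟩ := (hΓ s).1 hs
    exact hinv s σ' (hrat s) h1 h2
  obtain ⟨R', hR', c, hc, hmc⟩ := C.arith.cheb Γ ⟨T, fun s hs => (hΓ s).2 (hT s hs)⟩
    (fun s hs r hr => ((hΓ s).1 hs).2.1 r hr) m₀ hm'0 hm0 (by
      intro l _ hl i hdec hsq
      have hlp : l ≠ p := by
        intro h
        apply hl
        rw [h]
        exact C.hN
      obtain ⟨H₀, U, V, hfin, hL⟩ := C.locl b ha hroot l hlp i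
      have hres : ∀ τ : AlgebraicClosure ℚ_[l] ≃ₐ[ℚ_[l]] AlgebraicClosure ℚ_[l], ∃ s : Ω ≃+* Ω,
          (∀ y, τ (i y) = i (s y)) ∧ s ∈ Γ := by
        intro τ
        obtain ⟨s, hs⟩ := exists_res i τ.toRingEquiv
        exact ⟨s, hs, hdec τ s hs⟩
      refine square_at (ρ l) hL (C.gen l) (C.arith.recl l hl i hsq) hP (hg _ _ _ hL.ts hL.yo) ?_ ?_ ?_ ht
        (bar := bar) ?_ hm
      · intro τ
        ext x y
        simp
      · intro τ
        obtain ⟨s, hs, hsΓ⟩ := hres τ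
        ext x y
        show τ (i (j (e b x y))) = i (j (e b x y))
        rw [hs, ((hΓ s).1 hsΓ).1]
      · intro τ
        obtain ⟨s, hs, hsΓ⟩ := hres τ
        obtain ⟨-, -, σ', h1, h2⟩ := (hΓ s).1 hsΓ
        exact ⟨s, σ', hs, h1, h2⟩
      · intro k
        rw [← map_mul, hbar k, eq_ratCast, eq_ratCast, map_ratCast])
  exact ⟨R', hR', c, fun s hs => hc s ((hΓ s).2 hs), hmc⟩

end Pool.Agent.H76Q
end

-- from Lib.H76Q.F5
section

/-!
# comparison of two pure tensors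
-/

set_option autoImplicit false
set_option linter.unusedSectionVars false
namespace Pool.Agent.H76Q
open Module Matrix Pool.Agent.H53Toric
open Pool.Agent.H76P
open Pool.Agent.H76T (IsIdeal Fam)
open Pool.Agent.H76V (Cmp)

variable {κ : Type*} {K : Type*} [Field K] [CharZero K] [Fintype κ] [DecidableEq κ]
  {L : Submodule K (Module.End K (κ → K))} {J : Matrix κ κ K} [IsAlgClosed K] [Nonempty κ]
  {Y : Submodule ℚ (κ → ℚ)} {P : Module.End ℚ Y}

/-- PROOF. Let `y' = t''⁻¹ • adjE J y` (`PT_inv`: `y * y' = 1`).  `X' * (Ξ * Φ * Ξ')` is a pure tensor with first factor `u⁻¹ * (y * w * y')` (`PT_inv`, `PT_mul`); its second factor commutes with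
`AZ L P`, so `s = u⁻¹ * (y * w * y')` commutes with `AZ L P`; as `s ∈ AZ L P` it commutes with `AZ L (1 - P)`, too (`AZ_comm`), so `s` is a scalar (`AZ_scalar`), not `0`.  Multipliers: that of `y * w * y'` is `t'`. -/
theorem unr_u (h : TS L J) (hY : Yo L = Y) (hP : Sp P) (hc : Comp L P)
    {X X' Φ Ξ Ξ' u r w r' y r'' : Module.End K (κ → K)} {t t' t'' : K} (h1 : PT L J P X u r t)
    (h2 : PT L J P Φ w r' t') (h3 : PT L J P Ξ y r'' t'') (hΞ : Ξ * Ξ' = 1) (hX : X * X' = 1)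
    (hz : ∀ A ∈ AZ L P, (X' * (Ξ * Φ * Ξ')) * A = A * (X' * (Ξ * Φ * Ξ'))) :
    ∃ (c : K) (y' : Module.End K (κ → K)), c ≠ 0 ∧ y * y' = 1 ∧ u = c • (y * w * y') ∧
      t = c ^ 2 * t' := by
  obtain ⟨r3, h3'⟩ := PT_inv h hY hP h3 hΞ
  obtain ⟨r1, h1'⟩ := PT_inv h hY hP h1 hX
  set y' := t''⁻¹ • adjE J y with hy'
  set u' := t⁻¹ • adjE J u with hu'
  have hyy : y * y' = 1 := by
    apply mul_eq_one_comm.1
    rw [hy', smul_mul_assoc, h3.2.2.2.2.1, smul_smul, inv_mul_cancel₀ h3.2.2.2.1, one_smul]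
  have huu : u * u' = 1 := by
    apply mul_eq_one_comm.1
    rw [hu', smul_mul_assoc, h1.2.2.2.2.1, smul_smul, inv_mul_cancel₀ h1.2.2.2.1, one_smul]
  have h4 := PT_mul h hY hP (PT_mul h hY hP h3 h2) h3'
  have h5 := PT_mul h hY hP h1' h4
  set ρ := r1 * (r'' * r' * r3) with hρ
  set s := u' * (y * w * y') with hs
  obtain ⟨hsA, hρA, hprod, _, _, t3, ht3, hadj⟩ := h5
  have hρinv : ρ * (t3⁻¹ • adjE J ρ) = 1 := by
    apply mul_eq_one_comm.1
    rw [smul_mul_assoc, hadj, smul_smul, inv_mul_cancel₀ ht3, one_smul]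
  have hs1 : ∀ A ∈ AZ L P, s * A = A * s := by
    intro A hA
    have e1 := hz A hA
    rw [hprod] at e1
    have e2 : A * ρ = ρ * A := AZ_comm h hY hP A hA ρ hρA
    have e3 : (s * A) * ρ = (A * s) * ρ := by
      calc (s * A) * ρ = s * (A * ρ) := mul_assoc _ _ _
        _ = s * (ρ * A) := by rw [e2]
        _ = (s * ρ) * A := (mul_assoc _ _ _).symm
        _ = A * (s * ρ) := e1
        _ = (A * s) * ρ := (mul_assoc _ _ _).symm
    calc s * A = (s * A) * (ρ * (t3⁻¹ • adjE J ρ)) := by rw [hρinv, mul_one]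
      _ = ((s * A) * ρ) * (t3⁻¹ • adjE J ρ) := (mul_assoc _ _ _).symm
      _ = ((A * s) * ρ) * (t3⁻¹ • adjE J ρ) := by rw [e3]
      _ = (A * s) * (ρ * (t3⁻¹ • adjE J ρ)) := mul_assoc _ _ _
      _ = A * s := by rw [hρinv, mul_one]
  have hs2 : ∀ A ∈ AZ L (1 - P), s * A = A * s := fun A hA => AZ_comm h hY hP s hsA A hA
  obtain ⟨c, hcs⟩ := AZ_scalar h hc hs1 hs2
  have h6 : y * w * y' = c • u := by
    calc y * w * y' = (u * u') * (y * w * y') := by rw [huu, one_mul]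
      _ = u * s := by rw [hs, mul_assoc]
      _ = c • u := by rw [hcs, mul_smul_comm, mul_one]
  have h7 := h4.2.2.2.2.1
  have hone : (1 : Module.End K (κ → K)) ≠ 0 := one_ne_zero
  have ht : t'' * t' * t''⁻¹ = t' := by
    rw [mul_comm t'' t', mul_assoc, mul_inv_cancel₀ h3.2.2.2.1, mul_one]
  rw [ht] at h7
  have hc0 : c ≠ 0 := by
    intro hc0
    rw [h6, hc0, zero_smul, mul_zero] at h7
    have := h7.symm
    rcases smul_eq_zero.1 this with h8 | h8
    · exact h2.2.2.2.1 h8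
    · exact hone h8
  have hu : u = c⁻¹ • (y * w * y') := by
    rw [h6, smul_smul, inv_mul_cancel₀ hc0, one_smul]
  refine ⟨c⁻¹, y', inv_ne_zero hc0, hyy, hu, ?_⟩
  have h8 := h1.2.2.2.2.1
  rw [hu, map_smul, smul_mul_smul_comm, h7, smul_smul] at h8
  have h9 : c⁻¹ * c⁻¹ * t' = t := smul_left_injective K hone h8
  rw [← h9]
  ring

theorem f5_dg_unit (g : κ → K) : IsUnit (dg g : Module.End K (κ → K)) ↔ ∀ k, g k ≠ 0 := by
  constructor
  · intro hu k hk
    obtain ⟨B, hB⟩ := hu.exists_left_inv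
    have h1 : (dg g : Module.End K (κ → K)) (Pi.single k 1) = 0 := by
      funext a
      rw [dg_apply]
      by_cases hab : a = k
      · rw [hab, hk, zero_mul]
        rfl
      · rw [Pi.single_eq_of_ne hab, mul_zero]
        rfl
    have h2 : (B * dg g) (Pi.single k (1 : K)) = 0 := by
      rw [Module.End.mul_apply, h1, map_zero]
    rw [hB] at h2
    have h3 := congrFun h2 k
    rw [Module.End.one_apply, Pi.single_eq_same] at h3
    exact one_ne_zero h3
  · intro hg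
    have h1 : (dg g : Module.End K (κ → K)) * dg (fun k => (g k)⁻¹) = 1 := by
      refine LinearMap.ext fun v => funext fun a => ?_
      rw [Module.End.mul_apply, dg_apply, dg_apply, Module.End.one_apply, ← mul_assoc,
        mul_inv_cancel₀ (hg a), one_mul]
    exact IsUnit.of_mul_eq_one _ h1

/-- PROOF. `u - l • 1 = y * dg (fun k => c * u₀ k - l) * y'`; a diagonal operator is invertible iff no entry is zero. -/
theorem spec_conj {u y y' : Module.End K (κ → K)} {u₀ : κ → K} {c : K} (hy : y * y' = 1)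
    (hu : u = c • (y * dg u₀ * y')) (l : K) : ¬ IsUnit (u - l • 1) ↔ ∃ k, l = c * u₀ k := by
  have hy' : y' * y = 1 := mul_eq_one_comm.1 hy
  have hyu : IsUnit y := ⟨⟨y, y', hy, hy'⟩, rfl⟩
  have hyu' : IsUnit y' := ⟨⟨y', y, hy', hy⟩, rfl⟩
  have h1 : u - l • 1 = y * dg (fun k => c * u₀ k - l) * y' := by
    have e1 : (dg (fun k => c * u₀ k - l) : Module.End K (κ → K)) = c • dg u₀ - l • 1 := by
      refine LinearMap.ext fun v => funext fun a => ?_
      rw [LinearMap.sub_apply, LinearMap.smul_apply, LinearMap.smul_apply, Pi.sub_apply,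
        Pi.smul_apply, Pi.smul_apply, dg_apply, dg_apply, Module.End.one_apply, smul_eq_mul,
        smul_eq_mul]
      ring
    rw [e1, mul_sub, sub_mul, mul_smul_comm, smul_mul_assoc, mul_smul_comm, smul_mul_assoc, mul_one,
      hy, hu]
  have h2 : IsUnit (y * dg (fun k => c * u₀ k - l) * y') ↔
      IsUnit (dg (fun k => c * u₀ k - l) : Module.End K (κ → K)) := by
    constructor
    · intro h
      have h3 := (hyu'.mul h).mul hyu
      have e : y' * (y * dg (fun k => c * u₀ k - l) * y') * y = dg (fun k => c * u₀ k - l) := by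
        calc y' * (y * dg (fun k => c * u₀ k - l) * y') * y
            = (y' * y) * dg (fun k => c * u₀ k - l) * (y' * y) := by simp only [mul_assoc]
          _ = dg (fun k => c * u₀ k - l) := by rw [hy', one_mul, mul_one]
      rwa [e] at h3
    · intro h
      exact (hyu.mul h).mul hyu'
  rw [h1, h2, f5_dg_unit]
  constructor
  · intro hcon
    push Not at hcon
    obtain ⟨k, hk⟩ := hcon
    exact ⟨k, (sub_eq_zero.1 hk).symm⟩
  · rintro ⟨k, hk⟩ hcon
    exact hcon k (by rw [hk, sub_self])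

/-- PROOF. `θ (u - l • 1) = u - τ l • 1`, and `θ` maps units to units. -/
theorem Theta.spec {θ : Module.End K (κ → K) ≃+* Module.End K (κ → K)} {τ : K ≃+* K}
    {σ : Equiv.Perm κ} (hθ : Theta L J θ τ σ) {u : Module.End K (κ → K)} (hu : θ u = u) (l : K)
    (hl : ¬ IsUnit (u - l • 1)) : ¬ IsUnit (u - τ l • 1) := by
  intro hcon
  apply hl
  have h1 : θ (u - l • 1) = u - τ l • 1 := by
    rw [map_sub, hu, hθ.smul, map_one]
  rw [← h1] at hcon
  have h2 := hcon.map θ.symm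
  rwa [θ.symm_apply_apply] at h2

end Pool.Agent.H76Q
end

-- from Lib.H76Q.F8
section

/-!
# the even lemma
-/

set_option autoImplicit false
set_option linter.unusedSectionVars false
namespace Pool.Agent.H76Q
open Module Matrix Polynomial Pool.Agent.H53Toric
open Pool.Agent.H76P
open Pool.Agent.H76T (IsIdeal Fam Lc)
open Pool.Agent.H76V (Cmp)
open Pool.Agent.H76U (cmp preL IsSplitting)
open Pool.Agent.H76RM (spanK similD)

variable {ι : Type*} [Fintype ι] [DecidableEq ι] {K : Type*} [Field K] [CharZero K]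
  [IsAlgClosed K]

/-- PROOF. Section 6 (b) of PROOF.md.  `int_PT` (F1) for `g = ρ σ₀` (`hint`): `u`, `u'`, `r`, `t₁`; `phi (cmp U V φ) = dg (i ∘ a)` (`H76P.cmp_phi`) is a pure tensor `(w, r', t')` (`gen_PT`, `hφ`), `w = dg u₀`
(`PT_diag`), `u₀ k * u₀ (bar k) = t'` (`lam_diag`, `pair_bar`), `u₀ k = c₀ * i (t k)` (`Lift.eq_c`), `t' = c₀ ^ 2 * i m`; `ξ` is a pure tensor (`gen_PT`).  `unr_comm` (F4) for
`z = (ρ σ₀)⁻¹ * (ξ * φ * ξ')`, `unr_u` (F5): `u = c • (y * w * y')`, `t₁ = c ^ 2 * t'`, so `t₁ = (c c₀) ^ 2 * i m`, and `¬ IsUnit (u - l)` iff `l = c c₀ i (t k)` for some `k` (`spec_conj`).  `exists_unit_entry` (F2) for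
`A = U u V`, `B = U u' V`: `A k l ≠ 0`, `v (A k l) = 0`; `u₁ = (A k l)⁻¹ • u`.  For `δ ∈ Δ` let `θ` be as in `exists_theta` (E3); `θ u = d • u` (`Theta.pt`, `PT_unique`, `θ (phi (cmp (ρ σ₀))) = phi (cmp (ρ σ₀))`), so
`θ u₁ = u₁` (compare the entry `(k, l)`).  So (`Theta.spec`) the set of the numbers `c₃ * i (t k)`, `c₃ = c c₀ / A k l`, is stable under `δ`; `δ (i (t k)) = i (t (σ k))` (`Lift.eqv`), so `ζ = δ c₃ / c₃`
satisfies the condition of `zeta_one` (F6); `δ c₃ = c₃`.  `hdval`: `v c₃` is an integer `n`, `v (c c₀) = n`, `0 = v t₁ = 2 n + v (i m)`. -/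
theorem even_lemma {L : Type*} [Field L] [CharZero L] [Algebra L K] {G : Type*} [Group G]
    (ρ : G →* Matrix.GeneralLinearGroup ι L) {J : Matrix ι ι K} {H₀ : Subgroup G}
    {e φ μ : Matrix ι ι K} {q : K} {n : ℕ} {U : Matrix ι (Fin n) K} {V : Matrix (Fin n) ι K}
    {Ω : Type*} [Field Ω] [CharZero Ω] {a : Fin n → Ω} {i : Ω →+* K}
    {Y : Submodule ℚ (Fin n → ℚ)} {σ₀ : G}
    (h : Loc J (img K ρ H₀) (properProj K ρ) e φ q U V (fun k => i (a k)) Y)
    (hφ : φ ∈ tgen K ρ) {v : K → ℚ} (hv : IsVal v) (hev : IntMat v e) (hμ : μ ∈ properProj K ρ)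
    (hμφ : μ * φ = φ * μ) {ε : Fin n → ℚ} (hε : IsHT μ φ e (fun k => i (a k)) ε)
    {P : Module.End ℚ Y} (hP : Sp P) (hc : Comp (Lc J (img K ρ H₀) U V) P)
    (hεP : FunP (1 - P) ε) (hρe : ∀ g : G, (ρ g).1.map (algebraMap L K) * e =
      e * (ρ g).1.map (algebraMap L K)) {ξ ξ' : Matrix ι ι K} (hξ : ξ ∈ tgen K ρ)
    (hξξ : ξ * ξ' = 1)
    (hunr : ∀ I : Submodule K (Matrix ι ι K), adStable (zlie (img K ρ H₀)) I →
      (∀ X ∈ I, μ * X = X * μ) → ∀ X ∈ I,
        ((ρ σ₀)⁻¹.1.map (algebraMap L K) * (ξ * φ * ξ')) * X =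
          X * ((ρ σ₀)⁻¹.1.map (algebraMap L K) * (ξ * φ * ξ')))
    (hint : (ρ σ₀).1.map (algebraMap L K) ∈ Submonoid.closure
      {x | ∃ h ∈ properProj K ρ, IntMat v h ∧ ∃ t : K, t ≠ 0 ∧ v t = 0 ∧ x = 1 + (t - 1) • h})
    {Δ : Set (K ≃+* K)} (hfix : ∀ δ ∈ Δ, ∀ c : L, δ (algebraMap L K c) = algebraMap L K c)
    (hφΔ : ∀ δ ∈ Δ, φ.map δ = φ) (hJΔ : ∀ δ ∈ Δ, J.map δ = J) (heΔ : ∀ δ ∈ Δ, e.map δ = e)
    (hdval : ∀ x : K, x ≠ 0 → (∀ δ ∈ Δ, δ x = x) → ∃ n : ℤ, v x = n)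
    (hdec : ∀ δ ∈ Δ, ∃ (s : Ω ≃+* Ω) (σ : Equiv.Perm (Fin n)), (∀ y, δ (i y) = i (s y)) ∧
      (∀ k, s (a k) = a (σ k)) ∧ StabP P σ)
    (htor : ∀ k l : Fin n, ∀ N : ℕ, N ≠ 0 → a k ^ N = a l ^ N → k = l)
    {t : Fin n → Ω} (ht : Lift P a t) {bar : Equiv.Perm (Fin n)}
    (hbar : ∀ k, i (a k) * i (a (bar k)) = q) {m : Ω} (hm : ∀ k, t k * t (bar k) = m) :
    ∃ n : ℤ, v (i m) = 2 * n := by
  classical
  have : Nonempty (Fin n) := ⟨⟨0, h.pos⟩⟩
  set g : Matrix ι ι K := (ρ σ₀).1.map (algebraMap L K) with hgdef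
  set g' : Matrix ι ι K := (ρ σ₀)⁻¹.1.map (algebraMap L K) with hg'def
  have hgg : g * g' = 1 := by
    rw [hgdef, hg'def, ← Matrix.map_mul, ← Units.val_mul, mul_inv_cancel]
    exact Matrix.map_one _ (map_zero _) (map_one _)
  have hge : g * e = e * g := hρe σ₀
  have hg'e : g' * e = e * g' := by
    have h1 := hρe σ₀⁻¹
    rwa [map_inv] at h1
  have hφe : φ * e = e * φ := h.ex.symm
  have hξe : ξ * e = e * ξ := cmp_comm h hξ
  have hξ'e : ξ' * e = e * ξ' := by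
    have h0 : ξ' * ξ = 1 := _root_.mul_eq_one_comm.1 hξξ
    calc ξ' * e = ξ' * (e * (ξ * ξ')) := by rw [hξξ, Matrix.mul_one]
      _ = ξ' * ((e * ξ) * ξ') := by rw [Matrix.mul_assoc e ξ ξ']
      _ = ξ' * ((ξ * e) * ξ') := by rw [hξe]
      _ = (ξ' * ξ) * (e * ξ') := by simp only [Matrix.mul_assoc]
      _ = e * ξ' := by rw [h0, Matrix.one_mul]
  have hmul : ∀ A B : Matrix ι ι K, B * e = e * B → phi (cmp U V (A * B)) = phi (cmp U V A) * phi (cmp U V B) := by
    intro A B hB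
    rw [Pool.Agent.H76U.cmp_mul h.UV h.VU hB, map_mul]
  have hone : phi (cmp U V (1 : Matrix ι ι K)) = 1 := by
    rw [Pool.Agent.H76U.cmp_one h.UV h.VU, map_one]
  -- the pure tensors
  obtain ⟨u, u', r, t₁, hX, hvt, huu, hA, hB⟩ := int_PT h hv hev hP hc hint
  obtain ⟨w, r', t', hΦ⟩ := gen_PT h hP hc hφ
  obtain ⟨y, r'', t'', hΞ⟩ := gen_PT h hP hc hξ
  have hcphi : phi (cmp U V φ) = dg (fun k => i (a k)) := by
    rw [H76P.cmp_phi h.VU h.ec, H76P.phi_diag]
  rw [hcphi] at hΦ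
  obtain ⟨u₀, r₀, rfl, rfl, hfu, hfr, hprod⟩ := PT_diag h.ts h.yo hP hc h.ec.inj hΦ
  have hia0 : ∀ k, i (a k) ≠ 0 := h.ec.ne
  have ha0 : ∀ k, a k ≠ 0 := fun k hk => hia0 k (by rw [hk, map_zero])
  have hlam : ∀ k, u₀ k * u₀ (bar k) = t' :=
    lam_diag h.ts.cmp.Jd (fun k l hkl => pair_bar h hbar hia0 k l hkl) hΦ.2.2.2.2.1
  have hLD : LD P a i u₀ r₀ := ⟨hprod, hfu, hfr⟩
  obtain ⟨c₀, hc₀, hu₀⟩ := ht.eq_c ha0 hP hLD
  have ht'm : t' = c₀ ^ 2 * i m := by
    obtain ⟨k⟩ := this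
    rw [← hlam k, hu₀ k, hu₀ (bar k), ← hm k, map_mul]
    ring
  -- the relation between `u` and `w`
  have hz : ∀ A ∈ AZ (Lc J (img K ρ H₀) U V) P,
      (phi (cmp U V g') * (phi (cmp U V ξ) * dg (fun k => i (a k)) * phi (cmp U V ξ'))) * A =
        A * (phi (cmp U V g') * (phi (cmp U V ξ) * dg (fun k => i (a k)) * phi (cmp U V ξ'))) := by
    have h1 : phi (cmp U V (g' * (ξ * φ * ξ'))) =
        phi (cmp U V g') * (phi (cmp U V ξ) * dg (fun k => i (a k)) * phi (cmp U V ξ')) := by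
      have h2 : (ξ * φ * ξ') * e = e * (ξ * φ * ξ') := by
        calc (ξ * φ * ξ') * e = ξ * φ * (ξ' * e) := by rw [Matrix.mul_assoc]
          _ = ξ * φ * (e * ξ') := by rw [hξ'e]
          _ = ξ * (φ * e) * ξ' := by simp only [Matrix.mul_assoc]
          _ = ξ * (e * φ) * ξ' := by rw [hφe]
          _ = (ξ * e) * φ * ξ' := by simp only [Matrix.mul_assoc]
          _ = (e * ξ) * φ * ξ' := by rw [hξe]
          _ = e * (ξ * φ * ξ') := by simp only [Matrix.mul_assoc]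
      rw [hmul _ _ h2, hmul _ _ hξ'e, hmul _ _ hφe, hcphi]
    rw [← h1]
    refine unr_comm h hμ hμφ hε hP hc hεP ?_ hunr
    calc g' * (ξ * φ * ξ') * e = g' * (ξ * φ * (ξ' * e)) := by simp only [Matrix.mul_assoc]
      _ = g' * (ξ * φ * (e * ξ')) := by rw [hξ'e]
      _ = g' * (ξ * (φ * e) * ξ') := by simp only [Matrix.mul_assoc]
      _ = g' * (ξ * (e * φ) * ξ') := by rw [hφe]
      _ = g' * ((ξ * e) * φ * ξ') := by simp only [Matrix.mul_assoc]
      _ = g' * ((e * ξ) * φ * ξ') := by rw [hξe]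
      _ = (g' * e) * (ξ * φ * ξ') := by simp only [Matrix.mul_assoc]
      _ = (e * g') * (ξ * φ * ξ') := by rw [hg'e]
      _ = e * (g' * (ξ * φ * ξ')) := by simp only [Matrix.mul_assoc]
  have hΞΞ : phi (cmp U V ξ) * phi (cmp U V ξ') = 1 := by
    rw [← hmul _ _ hξ'e, hξξ, hone]
  have hXX : phi (cmp U V g) * phi (cmp U V g') = 1 := by
    rw [← hmul _ _ hg'e, hgg, hone]
  obtain ⟨c, y', hc0, hyy, hu, ht₁⟩ := unr_u h.ts h.yo hP hc hX hΦ hΞ hΞΞ hXX hz
  -- the unit entry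
  have hUV : U * V * (U * V) = U * V := by
    calc U * V * (U * V) = U * (V * U) * V := by simp only [Matrix.mul_assoc]
      _ = U * V := by rw [h.VU, Matrix.mul_one]
  have he : e * e = e := by rw [h.UV, hUV]
  have he0 : e ≠ 0 := by
    intro h0
    have h1 : V * e * U = 1 := by
      rw [h.UV]
      calc V * (U * V) * U = (V * U) * (V * U) := by simp only [Matrix.mul_assoc]
        _ = 1 := by rw [h.VU, Matrix.one_mul]
    rw [h0, Matrix.mul_zero, Matrix.zero_mul] at h1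
    exact zero_ne_one h1
  have hAB : (U * LinearMap.toMatrix' u * V) * (U * LinearMap.toMatrix' u' * V) = e := by
    calc (U * LinearMap.toMatrix' u * V) * (U * LinearMap.toMatrix' u' * V) =
          U * LinearMap.toMatrix' u * (V * U) * LinearMap.toMatrix' u' * V := by simp only [Matrix.mul_assoc]
      _ = U * (LinearMap.toMatrix' u * LinearMap.toMatrix' u') * V := by
          rw [h.VU, Matrix.mul_one]
          simp only [Matrix.mul_assoc]
      _ = U * LinearMap.toMatrix' (u * u') * V := by rw [LinearMap.toMatrix'_mul]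
      _ = e := by
          rw [huu, LinearMap.toMatrix'_one, Matrix.mul_one, h.UV]
  obtain ⟨k₀, l₀, hA0, hvA⟩ := exists_unit_entry hv he he0 hA hB hAB
  set α : K := (U * LinearMap.toMatrix' u * V) k₀ l₀ with hα
  set u₁ : Module.End K (Fin n → K) := α⁻¹ • u with hu₁
  set c₃ : K := α⁻¹ * c * c₀ with hc₃
  have hc₃0 : c₃ ≠ 0 := mul_ne_zero (mul_ne_zero (inv_ne_zero hA0) hc0) hc₀
  have hu₁' : u₁ = (α⁻¹ * c) • (y * dg u₀ * y') := by rw [hu₁, hu, smul_smul]
  have hspec : ∀ l, ¬ IsUnit (u₁ - l • 1) ↔ ∃ k, l = c₃ * i (t k) := by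
    intro l
    rw [spec_conj hyy hu₁' l]
    refine exists_congr fun k => ?_
    rw [hu₀ k, hc₃, mul_assoc (α⁻¹ * c)]
  have hfixc : ∀ δ ∈ Δ, δ c₃ = c₃ := by
    intro δ hδ
    obtain ⟨s, π, hs, hsa, hst⟩ := hdec δ hδ
    have hσ : ∀ k, δ (i (a k)) = i (a (π k)) := fun k => by rw [hs, hsa]
    have hfg : ∀ γ : G, ((ρ γ).1.map (algebraMap L K)).map δ = (ρ γ).1.map (algebraMap L K) := by
      intro γ
      ext k l
      exact hfix δ hδ _
    obtain ⟨θ, hθ, hθU⟩ := exists_theta h (heΔ δ hδ) (hφΔ δ hδ) (hJΔ δ hδ)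
      (by rintro _ ⟨γ, -, rfl⟩; exact hfg γ) hσ
    -- `θ` fixes the operator of `g`
    have hθX : θ (phi (cmp U V g)) = phi (cmp U V g) := by
      have h1 := hθU (phi (cmp U V g))
      have h2 : LinearMap.toMatrix' (phi (cmp U V g)) = cmp U V g := LinearMap.toMatrix'_toLin' _
      have h3 : U * cmp U V g * V = g * e := by
        rw [Pool.Agent.H76U.P_cmp h.UV h.VU hge, Matrix.mul_assoc, ← h.UV]
      rw [h2, h3] at h1
      have h4 : (g * e).map δ = g * e := by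
        rw [Matrix.map_mul, heΔ δ hδ, hgdef]
        rw [hfg σ₀]
      rw [h4] at h1
      have h5 : V * (g * e) * U = LinearMap.toMatrix' (θ (phi (cmp U V g))) := by
        rw [h1]
        calc V * (U * LinearMap.toMatrix' (θ (phi (cmp U V g))) * V) * U =
            (V * U) * LinearMap.toMatrix' (θ (phi (cmp U V g))) * (V * U) := by simp only [Matrix.mul_assoc]
          _ = _ := by rw [h.VU, Matrix.mul_one, Matrix.one_mul]
      have h6 : V * (g * e) * U = cmp U V g := by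
        rw [← h3]
        calc V * (U * cmp U V g * V) * U = (V * U) * cmp U V g * (V * U) := by simp only [Matrix.mul_assoc]
          _ = _ := by rw [h.VU, Matrix.mul_one, Matrix.one_mul]
      rw [h6] at h5
      exact (LinearMap.toMatrix'.injective (h2.trans h5)).symm
    have hpt := hθ.pt h.yo hst hX
    rw [hθX] at hpt
    obtain ⟨c', hc', hθu, -⟩ := PT_unique h.ts h.yo hP hc hX hpt
    have hδα : δ α = c' * α := by
      have h1 := congrFun (congrFun (hθU u) k₀) l₀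
      rw [Matrix.map_apply] at h1
      rw [hα, h1, hθu, map_smul, Matrix.mul_smul, Matrix.smul_mul, Matrix.smul_apply, smul_eq_mul]
    have hθu₁ : θ u₁ = u₁ := by
      rw [hu₁, hθ.smul, hθu, map_inv₀, hδα, smul_smul]
      have h1 : (c' * α)⁻¹ * c' = α⁻¹ := by
        field_simp
      rw [h1]
    have hζ : ∀ k, ∃ k', (δ c₃ / c₃) * i (t k) = i (t k') := by
      intro k
      have h1 : ¬ IsUnit (u₁ - (c₃ * i (t (π.symm k))) • 1) := (hspec _).2 ⟨_, rfl⟩
      obtain ⟨k', hk'⟩ := (hspec _).1 (hθ.spec hθu₁ _ h1)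
      refine ⟨k', ?_⟩
      have h2 : s (t (π.symm k)) = t k := by
        rw [ht.eqv s π hsa hst, Equiv.apply_symm_apply]
      rw [map_mul, hs, h2] at hk'
      rw [div_mul_eq_mul_div, hk', mul_div_assoc, mul_div_cancel₀]
      exact hc₃0
    have h1 := zeta_one ht ha0 hP htor i hζ
    exact (div_eq_one_iff_eq hc₃0).1 h1
  obtain ⟨N, hN⟩ := hdval c₃ hc₃0 hfixc
  -- the valuation
  have hm0 : m ≠ 0 := by
    obtain ⟨k⟩ := this
    rw [← hm k]
    exact mul_ne_zero (ht.ne k) (ht.ne (bar k))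
  have him0 : i m ≠ 0 := (_root_.map_ne_zero i).2 hm0
  have hcc : v (c * c₀) = N := by
    have h1 : c * c₀ = α * c₃ := by
      rw [hc₃]
      field_simp
    rw [h1, hv.mul _ _ hA0 hc₃0, hvA, hN, zero_add]
  have ht₁' : t₁ = (c * c₀) ^ 2 * i m := by
    rw [ht₁, ht'm]
    ring
  have hcc0 : c * c₀ ≠ 0 := mul_ne_zero hc0 hc₀
  rw [ht₁', hv.mul _ _ (pow_ne_zero 2 hcc0) him0, sq, hv.mul _ _ hcc0 hcc0, hcc] at hvt
  refine ⟨-N, ?_⟩
  push_cast
  linarith

end Pool.Agent.H76Q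
end

-- from Lib.H76Q.W5
section

/-!
# inertia
-/

set_option autoImplicit false
set_option linter.unusedSectionVars false
namespace Pool.Agent.H76Q
open Module Matrix Polynomial Pool.Agent.H53Toric
open Pool.Agent.H76P
open Pool.Agent.H76T (IsIdeal Fam Lc)
open Pool.Agent.H76V (Cmp)
open Pool.Agent.H76U (cmp preL IsSplitting)
open Pool.Agent.H76RM (spanK similD)

variable {ι : Type*} [Fintype ι] [DecidableEq ι] {ψ : Matrix ι ι ℚ}
    {D : Subalgebra ℚ (Matrix ι ι ℚ)} {M : Type*} [Field M] [NumberField M]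
    {m : ℕ} {e : Fin m → Matrix ι ι M} {G : Type*} [Group G]
    {ρ : ∀ (l : ℕ) [Fact l.Prime], G →* Matrix.GeneralLinearGroup ι ℚ_[l]}
    {p : ℕ} [Fact p.Prime] {σ : G} {q : ℚ} {f : ℚ[X]} {F : Fin m → M[X]}
    {φ μ ν : Matrix ι ι (AlgebraicClosure ℚ_[p])} {v : AlgebraicClosure ℚ_[p] → ℚ}
    {Δ : Set (AlgebraicClosure ℚ_[p] ≃+* AlgebraicClosure ℚ_[p])}
    {Ω : Type*} [Field Ω] [CharZero Ω] [IsAlgClosed Ω] [Algebra.IsAlgebraic ℚ Ω] {j : M →+* Ω}
    {R : Finset Ω} {N : Set ℕ} (C : Core2 ψ D e ρ p σ q f F φ μ ν v Δ j R N)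

/-- rational matrices are fixed -/
theorem w5_mapQ {K : Type*} [Field K] [CharZero K] (δ : K ≃+* K) (y : Matrix ι ι ℚ) :
    (y.map (algebraMap ℚ K)).map δ = y.map (algebraMap ℚ K) := by
  ext k l
  simp only [Matrix.map_apply]
  exact map_ratCast δ (y k l)

include C

/-- PROOF. `Core2.locp` (`H₀`, `U`, `V`), `s` as in `exists_res` (E5); `s` fixes `j M` (`C.crys.dM`: `i (s (j c)) = δ (i (j c)) = i (j c)`) and `R` (`C.Rfix`); `exists_perm` (E5) gives the permutation `π`;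
`exists_theta` (E3: `e.map δ = e` by `dM`, `φ.map δ = φ` by `dphi`, `ψ` rational, the image by `dfix`), `theta_ideal` (F7, `hid`: `C.crys.dideal`), `stab_of_theta` (F7). -/
theorem Core2.inert (b : Fin m)
    {n : ℕ} {a : Fin n → Ω} (ha : Function.Injective a)
    (hroot : ∀ y : Ω, (F b).eval₂ j y = 0 ↔ ∃ k, y = a k)
    {P : Module.End ℚ (YS a)} (hP : Sp P) (hg : Good P) (i : Ω →+* AlgebraicClosure ℚ_[p])
    {δ : AlgebraicClosure ℚ_[p] ≃+* AlgebraicClosure ℚ_[p]} (hδ : δ ∈ Δ) :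
    ∃ (s : Ω ≃+* Ω) (π : Equiv.Perm (Fin n)), (∀ y, δ (i y) = i (s y)) ∧
      (∀ k, s (a k) = a (π k)) ∧ StabP P π ∧ s ∈ GamP j R a P := by
  obtain ⟨H₀, U, V, hH₀, h⟩ := C.locp b ha hroot i
  obtain ⟨s, hs⟩ := exists_res i δ
  have hsj : ∀ c, s (j c) = j c := by
    intro c
    apply i.injective
    rw [← hs]
    exact C.crys.dM δ hδ (i.comp j) c
  have hsR : ∀ r ∈ R, s r = r := by
    intro r hr
    apply i.injective
    rw [← hs]
    exact C.Rfix i r hr δ hδ
  obtain ⟨π, hπ⟩ := exists_perm ha hroot hsj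
  have he : ((e b).map (i.comp j)).map δ = (e b).map (i.comp j) := by
    ext k l
    simp only [Matrix.map_apply]
    exact C.crys.dM δ hδ (i.comp j) _
  have hS : ∀ s ∈ img (AlgebraicClosure ℚ_[p]) (ρ p) H₀, s.map δ = s := by
    rintro _ ⟨g, -, rfl⟩
    ext k l
    simp only [Matrix.map_apply]
    exact C.crys.dfix δ hδ _
  obtain ⟨θ, hθ, hθU⟩ := exists_theta h (τ := δ) he (C.crys.dphi δ hδ) (w5_mapQ δ ψ) hS
    (σ := π) (fun k => by rw [hs, hπ])
  have hI := theta_ideal h he hθ hθU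
    (fun I hI1 hI2 X hX => C.crys.dideal δ hδ H₀ hH₀ I hI1 hI2 X hX)
  have hcomp : Comp (Lc (ψ.map (algebraMap ℚ (AlgebraicClosure ℚ_[p])))
      (img (AlgebraicClosure ℚ_[p]) (ρ p) H₀) U V) P := hg _ _ _ h.ts h.yo
  have hstab := stab_of_theta h hθ hP hcomp hI
  exact ⟨s, π, hs, hπ, hstab, hsj, hsR, π, hπ, hstab⟩

/-- PROOF. `Core2.inert`: `δ (i c) = i (s c) = i c`; `C.crys.dval`. -/
theorem Core2.int_val (b : Fin m)
    {n : ℕ} {a : Fin n → Ω} (ha : Function.Injective a)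
    (hroot : ∀ y : Ω, (F b).eval₂ j y = 0 ↔ ∃ k, y = a k)
    {P : Module.End ℚ (YS a)} (hP : Sp P) (hg : Good P) (i : Ω →+* AlgebraicClosure ℚ_[p])
    {c : Ω} (hc0 : c ≠ 0) (hc : ∀ s ∈ GamP j R a P, s c = c) : ∃ n : ℤ, v (i c) = n := by
  refine C.crys.dval (i c) ?_ (fun δ hδ => ?_)
  · rw [Ne, map_eq_zero]
    exact hc0
  · obtain ⟨s, π, hs, _, _, hsG⟩ := C.inert b ha hroot hP hg i hδ
    rw [hs, hc s hsG]

/-- PROOF. `Core2.locp`, `even_lemma` (F8) with `C.crys` and `Core2.inert`. -/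
theorem Core2.even (b : Fin m)
    {n : ℕ} {a : Fin n → Ω} (ha : Function.Injective a)
    (hroot : ∀ y : Ω, (F b).eval₂ j y = 0 ↔ ∃ k, y = a k)
    {bar : Equiv.Perm (Fin n)} (hbar : ∀ k, a k * a (bar k) = algebraMap ℚ Ω q)
    {P : Module.End ℚ (YS a)} (hP : Sp P) (hg : Good P) {t : Fin n → Ω} (ht : Lift P a t)
    {m₀ : Ω} (hm : ∀ k, t k * t (bar k) = m₀) (i : Ω →+* AlgebraicClosure ℚ_[p])
    {ε : Fin n → ℚ} (hε : IsHT μ φ ((e b).map (i.comp j)) (fun k => i (a k)) ε)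
    (hεP : FunP (1 - P) ε) : ∃ n : ℤ, v (i m₀) = 2 * n := by
  obtain ⟨H₀, U, V, hH₀, h⟩ := C.locp b ha hroot i
  have hcomp : Comp (Lc (ψ.map (algebraMap ℚ (AlgebraicClosure ℚ_[p])))
      (img (AlgebraicClosure ℚ_[p]) (ρ p) H₀) U V) P := hg _ _ _ h.ts h.yo
  obtain ⟨ξ, ξ', hξ, hξξ, hunr⟩ := C.crys.unr
  have hlinK : ∀ g : G, ∀ d ∈ D, (ρ p g).1.map (algebraMap ℚ_[p] (AlgebraicClosure ℚ_[p])) *
      d.map (algebraMap ℚ (AlgebraicClosure ℚ_[p])) =
      d.map (algebraMap ℚ (AlgebraicClosure ℚ_[p])) *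
        (ρ p g).1.map (algebraMap ℚ_[p] (AlgebraicClosure ℚ_[p])) := by
    intro g d hd
    have h1 := congrArg (fun m : Matrix ι ι ℚ_[p] =>
      m.map (algebraMap ℚ_[p] (AlgebraicClosure ℚ_[p]))) (C.lin p g d hd)
    have h2 : (d.map (algebraMap ℚ ℚ_[p])).map (algebraMap ℚ_[p] (AlgebraicClosure ℚ_[p])) =
        d.map (algebraMap ℚ (AlgebraicClosure ℚ_[p])) := by
      ext k l
      simp
    simp only [Matrix.map_mul] at h1
    rw [h2] at h1
    exact h1
  have heK : (e b).map (i.comp j) ∈ spanK (AlgebraicClosure ℚ_[p]) D :=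
    H76U.spanK_map (i.comp j) (C.hspl.mem b)
  have hρe : ∀ g : G, (ρ p g).1.map (algebraMap ℚ_[p] (AlgebraicClosure ℚ_[p])) *
      (e b).map (i.comp j) = (e b).map (i.comp j) *
        (ρ p g).1.map (algebraMap ℚ_[p] (AlgebraicClosure ℚ_[p])) :=
    fun g => H76RM.comm_span (hlinK g) _ heK
  have hed : ∀ δ ∈ Δ, ((e b).map (i.comp j)).map δ = (e b).map (i.comp j) := by
    intro δ hδ
    ext k l
    simp only [Matrix.map_apply]
    exact C.crys.dM δ hδ (i.comp j) _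
  have hai : ∀ k, (F b).eval₂ j (a k) = 0 := fun k => (hroot (a k)).mpr ⟨k, rfl⟩
  refine even_lemma (ρ p) (σ₀ := σ) h C.crys.phigen C.crys.val (C.crys.eint (i.comp j) b) C.crys.mu
    C.crys.muphi hε hP hcomp hεP hρe hξ hξξ (hunr H₀ hH₀) C.crys.int C.crys.dfix C.crys.dphi
    (fun δ _ => w5_mapQ δ ψ) hed C.crys.dval ?_ ?_ ht ?_ hm
  · intro δ hδ
    obtain ⟨s, π, hs, hπ, hst, _⟩ := C.inert b ha hroot hP hg i hδ
    exact ⟨s, π, hs, hπ, hst⟩
  · intro k l N' hN' hkl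
    exact ha (C.tor b (hai k) (hai l) hN' hkl)
  · intro k
    rw [← map_mul, hbar k]
    exact (map_ratCast i q).trans (map_ratCast (algebraMap ℚ (AlgebraicClosure ℚ_[p])) q).symm

end Pool.Agent.H76Q
end

-- from Lib.H76Q.W6
section

/-!
# the Hodge-Tate type at a block
-/

set_option autoImplicit false
set_option linter.unusedSectionVars false
namespace Pool.Agent.H76Q
open Module Matrix Polynomial Pool.Agent.H53Toric
open Pool.Agent.H76P
open Pool.Agent.H76T (IsIdeal Fam Lc)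
open Pool.Agent.H76V (Cmp)
open Pool.Agent.H76U (cmp preL IsSplitting)
open Pool.Agent.H76RM (spanK similD)

section
variable {K : Type*} [Field K] {v : K → ℚ}

theorem w6_v1 (hv : IsVal v) : v 1 = 0 := by
  have h := hv.mul 1 1 one_ne_zero one_ne_zero
  rw [mul_one] at h
  linarith

theorem w6_vprod (hv : IsVal v) {Ω : Type*} [Field Ω] (i : Ω →+* K) (s : Finset Ω)
    (hs : ∀ r ∈ s, r ≠ 0) : v (i (∏ r ∈ s, r)) = ∑ r ∈ s, v (i r) := by
  classical
  induction s using Finset.induction_on with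
  | empty => simp [w6_v1 hv]
  | insert a s ha ih =>
    have h1 : ∀ r ∈ s, r ≠ 0 := fun r hr => hs r (Finset.mem_insert_of_mem hr)
    have ha0 : a ≠ 0 := hs a (Finset.mem_insert_self a s)
    have h2 : (∏ r ∈ s, r) ≠ 0 := Finset.prod_ne_zero_iff.2 h1
    rw [Finset.prod_insert ha, Finset.sum_insert ha, map_mul,
      hv.mul _ _ ((map_ne_zero i).2 ha0) ((map_ne_zero i).2 h2), ih h1]

theorem w6_vsq (hv : IsVal v) {x : K} (hx : x ≠ 0) : v (x ^ 2) = 2 * v x := by
  rw [pow_two, hv.mul x x hx hx]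
  ring

end

variable {ι : Type*} [Fintype ι] [DecidableEq ι] {ψ : Matrix ι ι ℚ}
    {D : Subalgebra ℚ (Matrix ι ι ℚ)} {M : Type*} [Field M] [NumberField M]
    {m : ℕ} {e : Fin m → Matrix ι ι M} {G : Type*} [Group G]
    {ρ : ∀ (l : ℕ) [Fact l.Prime], G →* Matrix.GeneralLinearGroup ι ℚ_[l]}
    {p : ℕ} [Fact p.Prime] {σ : G} {q : ℚ} {f : ℚ[X]} {F : Fin m → M[X]}
    {φ μ ν : Matrix ι ι (AlgebraicClosure ℚ_[p])} {v : AlgebraicClosure ℚ_[p] → ℚ}
    {Δ : Set (AlgebraicClosure ℚ_[p] ≃+* AlgebraicClosure ℚ_[p])}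
    {Ω : Type*} [Field Ω] [CharZero Ω] [IsAlgClosed Ω] [Algebra.IsAlgebraic ℚ Ω] {j : M →+* Ω}
    {R : Finset Ω} {N : Set ℕ} (C : Core2 ψ D e ρ p σ q f F φ μ ν v Δ j R N)

include C

/-- PROOF. Section 6 (c) of PROOF.md.  Let `t`, `t'` be lifts for `P`, `1 - P` (`exists_lift`, D1, with `Core2.ld`; for `1 - P` exchange `u` and `r`; `Good (1 - P)` by `Comp.compl`), `m₀`, `m₁` the numbers of
`Lift.exists_m`, `m₀ * m₁ = x ^ 2 * q` (`Lift.exists_x`).  `RP = R'` of `Core2.recl` for `P`, `m₀ = ∏ r * c ^ 2`, `c ≠ 0`, so `v (i m₀) = (1 if the r with v (i r) = 1 is in R', else 0) + 2 v (i c)`, `v (i c)` an integer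
(`Core2.int_val`).  If `FunP (1 - P) ε` then `v (i m₀)` is even (`Core2.even`).  If `FunP P ε`, i.e. `FunP (1 - (1 - P)) ε`, then `v (i m₁)` is even, `v (i x)` an integer (`gam_compl`), `v q = 1`, so `v (i m₀)` is odd.  One
of the two cases holds (`HT_or`, F3), and not both (`FunP_both`, `HT_spec`). -/
theorem Core2.ht_iff (b : Fin m)
    {n : ℕ} {a : Fin n → Ω} (ha : Function.Injective a)
    (hroot : ∀ y : Ω, (F b).eval₂ j y = 0 ↔ ∃ k, y = a k)
    {P : Module.End ℚ (YS a)} (hP : Sp P) (hg : Good P) :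
    ∃ RP ⊆ R, ∀ (i : Ω →+* AlgebraicClosure ℚ_[p]) (ε : Fin n → ℚ),
      IsHT μ φ ((e b).map (i.comp j)) (fun k => i (a k)) ε →
        (FunP P ε ↔ ∃ r ∈ RP, v (i r) = 1) := by
  classical
  have hv : IsVal v := C.crys.val
  obtain ⟨bar, hbar⟩ := C.bar b ha hroot
  have i₀ : Ω →+* AlgebraicClosure ℚ_[p] :=
    (IsAlgClosed.lift (R := ℚ) (S := Ω) (M := AlgebraicClosure ℚ_[p])).toRingHom
  obtain ⟨H₀, U₀, V₀, hH₀, hl₀⟩ := C.locp b ha hroot i₀
  haveI : Nonempty (Fin n) := ⟨⟨0, hl₀.pos⟩⟩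
  have ha0 : ∀ k, a k ≠ 0 := fun k h0 => hl₀.ec.ne k (by rw [h0, map_zero])
  have hsep : ∀ x y : Fin n, x ≠ y → ∃ f ∈ YS a, f x ≠ f y := by
    intro x y hxy
    obtain ⟨f, hf, hne⟩ := hl₀.ts.sep x y hxy
    exact ⟨f, hl₀.yo ▸ hf, hne⟩
  have hg' : Good (1 - P) := fun K _ _ _ L J h1 h2 => (hg K L J h1 h2).compl
  obtain ⟨u, r, l, hld, hu⟩ := C.ld b ha hroot hbar hP hg i₀
  obtain ⟨u', r', l', hld', hu'⟩ := C.ld b ha hroot hbar hP.compl hg' i₀
  obtain ⟨t, ht⟩ := exists_lift ha ha0 hP hsep hld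
  obtain ⟨t', ht'⟩ := exists_lift ha ha0 hP.compl hsep hld'
  obtain ⟨m₀, hm0, hm, -⟩ := ht.exists_m ha ha0 hP hbar hld hu
  obtain ⟨m₁, hm10, hm1, -⟩ := ht'.exists_m ha ha0 hP.compl hbar hld' hu'
  obtain ⟨x, hx0, hxs, hx⟩ := ht.exists_x ht' ha0 hP hbar hld
  have hxm : m₀ * m₁ = x ^ 2 * algebraMap ℚ Ω q := hx m₀ m₁ hm hm1
  obtain ⟨R', hR', c, hc, hmc⟩ := C.recl b ha hroot hbar hP hg ht hm
  have hc0 : c ≠ 0 := by
    rintro rfl
    apply hm0
    rw [hmc]
    ring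
  have hprod0 : (∏ r ∈ R', r) ≠ 0 := by
    intro h0
    apply hm0
    rw [hmc, h0, zero_mul]
  have hR0 : ∀ r ∈ R', r ≠ 0 := Finset.prod_ne_zero_iff.1 hprod0
  refine ⟨R', hR', fun i ε hε => ?_⟩
  obtain ⟨H₁, U, V, hH₁, hl⟩ := C.locp b ha hroot i
  have hcomp : Comp (Lc _ _ U V) P := hg _ _ _ hl.ts hl.yo
  obtain ⟨r₀, hr₀, hr1, hr2⟩ := C.Rval i
  obtain ⟨n₁, hn₁⟩ := C.int_val b ha hroot hP hg i hc0 hc
  -- the value of `i m₀`
  have hvm : v (i m₀) = ∑ r ∈ R', v (i r) + 2 * v (i c) := by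
    rw [hmc, map_mul, map_pow, hv.mul _ _ ((map_ne_zero i).2 hprod0)
      (pow_ne_zero 2 ((map_ne_zero i).2 hc0)), w6_vprod hv i R' hR0,
      w6_vsq hv ((map_ne_zero i).2 hc0)]
  have hsum1 : r₀ ∈ R' → ∑ r ∈ R', v (i r) = 1 := by
    intro hmem
    rw [Finset.sum_eq_single_of_mem r₀ hmem, hr1]
    intro r hr hne
    exact hr2 r (hR' hr) hne
  have hsum0 : r₀ ∉ R' → ∑ r ∈ R', v (i r) = 0 := by
    intro hmem
    refine Finset.sum_eq_zero fun r hr => hr2 r (hR' hr) ?_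
    rintro rfl
    exact hmem hr
  have hex : (∃ r ∈ R', v (i r) = 1) ↔ r₀ ∈ R' := by
    constructor
    · rintro ⟨r, hr, hr'⟩
      by_contra hcon
      have hne : r ≠ r₀ := by
        rintro rfl
        exact hcon hr
      rw [hr2 r (hR' hr) hne] at hr'
      exact zero_ne_one hr'
    · intro h
      exact ⟨r₀, h, hr1⟩
  -- first case
  have hcase1 : FunP (1 - P) ε → r₀ ∉ R' := by
    intro hε1 hmem
    obtain ⟨n₂, hn₂⟩ := C.even b ha hroot hbar hP hg ht hm i hε hε1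
    rw [hvm, hsum1 hmem, hn₁] at hn₂
    have h3 : (1 : ℤ) + 2 * n₁ = 2 * n₂ := by exact_mod_cast hn₂
    omega
  -- second case
  have hcase2 : FunP P ε → r₀ ∈ R' := by
    intro hε1
    by_contra hmem
    have hε2 : FunP (1 - (1 - P)) ε := by
      have h1 : (1 - (1 - P) : Module.End ℚ (YS a)) = P := sub_sub_cancel 1 P
      rw [h1]
      exact hε1
    obtain ⟨n₂, hn₂⟩ := C.even b ha hroot hbar hP.compl hg' ht' hm1 i hε hε2
    have hxG : ∀ s ∈ GamP j R a P, s x = x := by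
      rintro s ⟨-, -, π, hπ, hst⟩
      exact hxs s π hπ hst
    obtain ⟨n₃, hn₃⟩ := C.int_val b ha hroot hP hg i hx0 hxG
    have hq0 : algebraMap ℚ Ω q ≠ 0 := by
      intro h0
      rw [h0, mul_zero] at hxm
      exact mul_ne_zero hm0 hm10 hxm
    have hiq : i (algebraMap ℚ Ω q) = algebraMap ℚ (AlgebraicClosure ℚ_[p]) q := by
      rw [← RingHom.comp_apply]
      exact congrArg (fun g : ℚ →+* AlgebraicClosure ℚ_[p] => g q) (Subsingleton.elim _ _)
    have h4 : v (i m₀) + v (i m₁) = 2 * v (i x) + 1 := by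
      rw [← hv.mul _ _ ((map_ne_zero i).2 hm0) ((map_ne_zero i).2 hm10), ← map_mul, hxm, map_mul,
        map_pow, hv.mul _ _ (pow_ne_zero 2 ((map_ne_zero i).2 hx0)) ((map_ne_zero i).2 hq0),
        w6_vsq hv ((map_ne_zero i).2 hx0), hiq, C.vq]
    rw [hvm, hsum0 hmem, hn₁, hn₂, hn₃] at h4
    have h5 : (0 : ℤ) + 2 * n₁ + 2 * n₂ = 2 * n₃ + 1 := by exact_mod_cast h4
    omega
  rw [hex]
  constructor
  · exact hcase2
  · intro hmem
    rcases HT_or hl C.crys.mu C.crys.muphi hε hcomp with h | h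
    · exact h
    · exact absurd hmem (hcase1 h)

end Pool.Agent.H76Q
end

-- from Lib.H76Y.E1
section

/-!
# semilinear automorphisms
-/

set_option autoImplicit false
set_option linter.unusedSectionVars false
namespace Pool.Agent.H76Y
open Pool.Agent.H76P Pool.Agent.H76V Pool.Agent.H76Q
open Module Matrix Pool.Agent.H53Toric
open Pool.Agent.H76P
open Pool.Agent.H76T (IsIdeal Fam)

variable {κ : Type*} {K : Type*} [Field K] [CharZero K] [Fintype κ] [DecidableEq κ]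
  {L : Submodule K (Module.End K (κ → K))} {J : Matrix κ κ K} [IsAlgClosed K] [Nonempty κ]
  {Y : Submodule ℚ (κ → ℚ)} {P : Module.End ℚ Y}

theorem e1_dq {θ : Module.End K (κ → K) ≃+* Module.End K (κ → K)} {τ : K ≃+* K}
    {σ : Equiv.Perm κ} (hθ : ThetaN L θ τ σ) (f : κ → ℚ) : θ (dq (f ∘ σ)) = dq f := by
  unfold dq
  rw [hθ.diag]
  congr 1
  funext k
  rw [Function.comp_apply, Equiv.apply_symm_apply, map_ratCast]

theorem e1_ideal {θ : Module.End K (κ → K) ≃+* Module.End K (κ → K)} {τ : K ≃+* K}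
    {σ : Equiv.Perm κ} (hθ : ThetaN L θ τ σ) {M : Submodule K (Module.End K (κ → K))}
    (hM : IsIdeal L M) : IsIdeal L (H76T.mv τ θ hθ.smul M) := by
  refine ⟨fun X hX => ?_, fun X hX Y hY => ?_⟩
  · have h1 := (hθ.mem _).2 (hM.1 (H76T.mem_mv.1 hX))
    rwa [RingEquiv.apply_symm_apply] at h1
  · rw [H76T.mem_mv, map_sub, map_mul, map_mul]
    refine hM.2 _ ((hθ.mem _).1 ?_) _ (H76T.mem_mv.1 hY)
    rwa [RingEquiv.apply_symm_apply]

/-- PROOF. `Yo L` is spanned by `Hs L`; for `ε ∈ Hs L` `θ (dq (ε ∘ σ)) = dq ε` (`ThetaN.diag`: the values are rational), so `dq (ε ∘ σ) ∈ L` (`ThetaN.mem`). -/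
theorem ThetaN.perm {θ : Module.End K (κ → K) ≃+* Module.End K (κ → K)} {τ : K ≃+* K}
    {σ : Equiv.Perm κ} (hθ : ThetaN L θ τ σ) {f : κ → ℚ} (hf : f ∈ Yo L) : f ∘ σ ∈ Yo L := by
  unfold Yo at hf ⊢
  induction hf using Submodule.span_induction with
  | mem ε hε =>
    refine Submodule.subset_span ⟨fun a => hε.1 (σ a), (hθ.mem _).1 ?_⟩
    rw [e1_dq hθ]
    exact hε.2
  | zero => exact Submodule.zero_mem _
  | add f g _ _ hf hg => exact Submodule.add_mem _ hf hg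
  | smul c f _ hf => exact Submodule.smul_mem _ c hf

/-- PROOF. Let `I` be an ideal of `L` with `InP P I`; the image `I'` of `I` under `θ` (`H76T.mv`) is an ideal (`ThetaN.mem`); if `f ∈ Y` and `dq f ∈ I'`, then
`dq (f ∘ σ) ∈ I` (`ThetaN.diag`), `f ∘ σ ∈ Y` (`ThetaN.perm`), so `f ∘ σ` depends only on the first coordinate, and so does `f` (`StabP`). -/
theorem ThetaN.AZ {θ : Module.End K (κ → K) ≃+* Module.End K (κ → K)} {τ : K ≃+* K}
    {σ : Equiv.Perm κ} (hθ : ThetaN L θ τ σ) (hY : Yo L = Y) (hst : StabP P σ)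
    {X : Module.End K (κ → K)} (hX : X ∈ AZ L P) : θ X ∈ AZ L P := by
  unfold H76Q.AZ at hX ⊢
  induction hX using Algebra.adjoin_induction with
  | mem X hX =>
    obtain ⟨I, hI, hP, hXI⟩ := hX
    refine Algebra.subset_adjoin ⟨_, e1_ideal hθ hI, ?_, (H76T.mem_mv' (hθ := hθ.smul)).2 hXI⟩
    intro f hf hfI k k' hkk
    have h1 : dq (f ∘ σ) ∈ I := by
      have h2 := H76T.mem_mv.1 hfI
      rwa [← e1_dq hθ f, RingEquiv.symm_apply_apply] at h2
    have h3 : f ∘ σ ∈ Y := by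
      rw [← hY]
      exact hθ.perm (hY ▸ hf)
    have h4 := hP (f ∘ σ) h3 h1 (σ.symm k) (σ.symm k') ((hst.1 _ _).2 (by
      rwa [Equiv.apply_symm_apply, Equiv.apply_symm_apply]))
    rwa [Function.comp_apply, Function.comp_apply, Equiv.apply_symm_apply, Equiv.apply_symm_apply] at h4
  | algebraMap r =>
    rw [Algebra.algebraMap_eq_smul_one, hθ.smul, map_one]
    exact Subalgebra.smul_mem _ (Subalgebra.one_mem _) _
  | add X X' _ _ h h' => rw [map_add]; exact Subalgebra.add_mem _ h h'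
  | mul X X' _ _ h h' => rw [map_mul]; exact Subalgebra.mul_mem _ h h'

/-- PROOF. `θ X = θ u * θ r` is a pure tensor with multiplier `τ t` (`ThetaN.AZ` for `P` and for `1 - P`, `ThetaN.adj`, `ThetaN.smul`). -/
theorem ThetaN.pt {θ : Module.End K (κ → K) ≃+* Module.End K (κ → K)} {τ : K ≃+* K}
    {σ : Equiv.Perm κ} (hθ : ThetaN L θ τ σ) (hY : Yo L = Y) (hst : StabP P σ)
    {X u r : Module.End K (κ → K)} {t : K} (h1 : PTN L P X u r t) :
    PTN L P (θ X) (θ u) (θ r) (τ t) := by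
  obtain ⟨hu, hr, hX, ht, hut, hrt⟩ := h1
  have hPP : (1 : Module.End ℚ Y) - (1 - P) = P := sub_sub_cancel 1 P
  have hst' : StabP (1 - P) σ := ⟨hst.2, fun k k' => hPP.symm ▸ hst.1 k k'⟩
  refine ⟨hθ.AZ hY hst hu, hθ.AZ hY hst' hr, by rw [hX, map_mul], ?_, ?_, ?_⟩
  · exact fun h0 => ht ((map_eq_zero τ).1 h0)
  · rw [hθ.det, hut]
  · rw [hθ.det]
    exact fun h0 => hrt ((map_eq_zero τ).1 h0)

end Pool.Agent.H76Y
end

-- from Lib.H76Z.E3
section

/-!
# the semilinear automorphism of an automorphism of the field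
-/

set_option autoImplicit false
set_option linter.unusedSectionVars false
namespace Pool.Agent.H76Z
open Pool.Agent.H76Y
open Pool.Agent.H76Q
open Module Matrix Polynomial Pool.Agent.H53Toric
open Pool.Agent.H76P
open Pool.Agent.H76T (IsIdeal Fam Lc)
open Pool.Agent.H76V (Cmp)
open Pool.Agent.H76U (cmp preL IsSplitting)
open Pool.Agent.H76RM (spanK similD)

theorem det_phi {K : Type*} [Field K] {n : ℕ} (A : Matrix (Fin n) (Fin n) K) :
    LinearMap.det (phi A : Module.End K (Fin n → K)) = A.det := by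
  have : (phi A : Module.End K (Fin n → K)) = Matrix.toLin' A := rfl
  rw [this, LinearMap.det_toLin']

theorem trace_phi {K : Type*} [Field K] {n : ℕ} (A : Matrix (Fin n) (Fin n) K) :
    LinearMap.trace K (Fin n → K) (phi A : Module.End K (Fin n → K)) = A.trace := by
  have : (phi A : Module.End K (Fin n → K)) = Matrix.toLin' A := rfl
  rw [this, Matrix.trace_toLin'_eq]

variable {ι : Type*} [Fintype ι] [DecidableEq ι] {K : Type*} [Field K] [CharZero K]
  [IsAlgClosed K] {J : Matrix ι ι K} {S 𝓗 : Set (Matrix ι ι K)} {e x : Matrix ι ι K} {q : K} {n : ℕ}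
  {U : Matrix ι (Fin n) K} {V : Matrix (Fin n) ι K} {d : Fin n → K}
  {Y : Submodule ℚ (Fin n → ℚ)}

theorem exists_theta {ct : Cl} (h : LocN ct J S 𝓗 e x q U V d Y) {τ : K ≃+* K} (he : e.map τ = e)
    (hx : x.map τ = x) (hJ : J.map τ = J) (hS : ∀ s ∈ S, s.map τ = s)
    {σ : Equiv.Perm (Fin n)} (hσ : ∀ k, τ (d k) = d (σ k)) :
    ∃ θ : Module.End K (Fin n → K) ≃+* Module.End K (Fin n → K),
      ThetaN (LcN J S U V) θ τ σ ∧
      ∀ X, (U * LinearMap.toMatrix' X * V).map τ = U * LinearMap.toMatrix' (θ X) * V := by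
  have hUV := h.UV
  have hVU := h.VU
  have hVe : V * e = V := by rw [hUV, ← Matrix.mul_assoc, hVU, Matrix.one_mul]
  have heU : e * U = U := by rw [hUV, Matrix.mul_assoc, hVU, Matrix.mul_one]
  have heUt : e * U.map τ = U.map τ := by
    nth_rw 1 [← he]
    rw [← e3_map_mul, heU]
  have hVte : V.map τ * e = V.map τ := by
    nth_rw 1 [← he]
    rw [← e3_map_mul, hVe]
  have hUVt : U.map τ * V.map τ = e := by rw [← e3_map_mul, ← hUV, he]
  obtain ⟨C, hC⟩ : ∃ C, C = V * U.map τ := ⟨_, rfl⟩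
  obtain ⟨C', hC'⟩ : ∃ C', C' = V.map τ * U := ⟨_, rfl⟩
  have hCC : C * C' = 1 := by
    calc C * C' = V * (U.map τ * V.map τ) * U := by rw [hC, hC']; simp only [Matrix.mul_assoc]
      _ = 1 := by rw [hUVt, hVe, hVU]
  have hCl : ∀ l k, C l k ≠ 0 → l = σ k := by
    intro l k hne
    have hVx : V * x = Matrix.diagonal d * V := by
      calc V * x = V * e * x := by rw [hVe]
        _ = V * (x * U) * V := by
            rw [Matrix.mul_assoc V e x, h.ex, hUV]
            simp only [Matrix.mul_assoc]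
        _ = V * U * Matrix.diagonal d * V := by rw [h.ec.eig]; simp only [Matrix.mul_assoc]
        _ = _ := by rw [hVU, Matrix.one_mul]
    have hxU : x * U.map τ = U.map τ * Matrix.diagonal (fun k => d (σ k)) := by
      have h1 := congrArg (fun M : Matrix ι (Fin n) K => M.map τ) h.ec.eig
      beta_reduce at h1
      rw [e3_map_mul, e3_map_mul, hx] at h1
      rw [h1]
      congr 1
      ext a b
      rw [Matrix.map_apply, Matrix.diagonal_apply, Matrix.diagonal_apply]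
      split_ifs
      · exact hσ a
      · exact map_zero τ
    have h2 : Matrix.diagonal d * C = C * Matrix.diagonal (fun k => d (σ k)) := by
      rw [hC, ← Matrix.mul_assoc, ← hVx, Matrix.mul_assoc, hxU, Matrix.mul_assoc]
    have h3 := congrFun (congrFun h2 l) k
    rw [Matrix.diagonal_mul, Matrix.mul_diagonal, mul_comm (C l k)] at h3
    exact h.ec.inj (mul_right_cancel₀ hne h3)
  have hmat : ∀ X : Module.End K (Fin n → K), ∃ y : Matrix (Fin n) (Fin n) K, X = phi y ∧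
      LinearMap.toMatrix' X = y := by
    intro X
    obtain ⟨y, rfl⟩ := (phi (ι := Fin n) (K := K)).surjective X
    exact ⟨y, rfl, (phi (ι := Fin n) (K := K)).symm_apply_apply y⟩
  have hC'C : C' * C = 1 := _root_.mul_eq_one_comm.1 hCC
  have htr : ∀ X : Module.End K (Fin n → K), LinearMap.trace K (Fin n → K) (H76T.tht τ hCC X) =
      τ (LinearMap.trace K (Fin n → K) X) := by
    intro X
    obtain ⟨y, rfl, -⟩ := hmat X
    rw [H76T.tht_apply, trace_phi, trace_phi, Matrix.trace_mul_comm, ← Matrix.mul_assoc, hC'C, Matrix.one_mul]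
    exact (AddMonoidHom.map_trace (τ : K →+* K).toAddMonoidHom y).symm
  have hdet : ∀ X : Module.End K (Fin n → K), LinearMap.det (H76T.tht τ hCC X) =
      τ (LinearMap.det X) := by
    intro X
    obtain ⟨y, rfl, -⟩ := hmat X
    rw [H76T.tht_apply, det_phi, det_phi, Matrix.det_mul, Matrix.det_mul, mul_right_comm, ← Matrix.det_mul, hCC, Matrix.det_one, one_mul]
    exact (RingHom.map_det (τ : K →+* K) y).symm
  have hcmp : ∀ A : Matrix ι ι K, H76T.tht τ hCC (phi (cmp U V A)) = phi (cmp U V (A.map τ)) := by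
    intro A
    rw [H76T.tht_apply]
    congr 1
    rw [H76U.cmp_apply, H76U.cmp_apply, e3_map_mul, e3_map_mul, hC, hC']
    calc V * U.map τ * (V.map τ * A.map τ * U.map τ) * (V.map τ * U) =
        V * (U.map τ * V.map τ) * A.map τ * ((U.map τ * V.map τ) * U) := by
          simp only [Matrix.mul_assoc]
      _ = _ := by rw [hUVt, hVe, heU]
  have hS' : ∀ s ∈ S, s.map τ.symm = s := by
    intro s hs
    nth_rw 1 [← hS s hs]
    exact H76T.map_symmm τ s
  have hJs : J.map τ.symm = J := by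
    nth_rw 1 [← hJ]
    exact H76T.map_symmm τ J
  have hLb : ∀ X : Module.End K (Fin n → K), H76T.tht τ hCC X ∈ H76U.Lb J S U V ↔ X ∈ H76U.Lb J S U V := by
    intro X
    constructor
    · intro hX
      obtain ⟨y, hy, -⟩ := hmat (H76T.tht τ hCC X)
      rw [hy] at hX
      obtain ⟨A, hA, hAy⟩ := H76U.mem_Lb.1 hX
      have h1 : H76T.tht τ hCC (phi (cmp U V (A.map τ.symm))) = H76T.tht τ hCC X := by
        rw [hcmp, H76T.map_symmm', hAy, hy]
      rw [← (H76T.tht τ hCC).injective h1]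
      exact H76U.mem_Lb.2 ⟨_, e3_preL hJs hS' hA, rfl⟩
    · intro hX
      obtain ⟨y, rfl, -⟩ := hmat X
      obtain ⟨A, hA, rfl⟩ := H76U.mem_Lb.1 hX
      rw [hcmp]
      exact H76U.mem_Lb.2 ⟨_, e3_preL hJ hS hA, rfl⟩
  refine ⟨H76T.tht τ hCC, ⟨H76T.tht_smul τ hCC, fun g => ?_, fun X => ?_, fun X => ?_⟩, fun X => ?_⟩
  · rw [← phi_diag, H76T.tht_apply, ← phi_diag]
    congr 1
    have h1 : C * (Matrix.diagonal g).map τ = Matrix.diagonal (fun k => τ (g (σ.symm k))) * C := by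
      have h2 : (Matrix.diagonal g).map τ = Matrix.diagonal (fun k => τ (g k)) := by
        ext a b
        rw [Matrix.map_apply, Matrix.diagonal_apply, Matrix.diagonal_apply]
        split_ifs
        · rfl
        · exact map_zero τ
      rw [h2]
      ext l k
      rw [Matrix.diagonal_mul, Matrix.mul_diagonal]
      by_cases hz : C l k = 0
      · rw [hz, zero_mul, mul_zero]
      · rw [hCl l k hz, Equiv.symm_apply_apply, mul_comm]
    rw [h1, Matrix.mul_assoc, hCC, Matrix.mul_one]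
  · show (_ ∧ _) ↔ (_ ∧ _)
    rw [hLb, htr, map_eq_zero]
  · exact hdet X
  · obtain ⟨y, rfl, hy⟩ := hmat X
    rw [hy, H76T.tht_apply]
    have h1 : LinearMap.toMatrix' (phi (C * y.map τ * C')) = C * y.map τ * C' :=
      (phi (ι := Fin n) (K := K)).symm_apply_apply _
    rw [h1, e3_map_mul, e3_map_mul, hC, hC']
    calc U.map τ * y.map τ * V.map τ = (e * U.map τ) * y.map τ * (V.map τ * e) := by rw [heUt, hVte]
      _ = _ := by
          rw [hUV]
          simp only [Matrix.mul_assoc]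

end Pool.Agent.H76Z
end

-- from Lib.H76Z.W1
section

/-!
# the eigenvalues
-/

set_option autoImplicit false
set_option linter.unusedSectionVars false
namespace Pool.Agent.H76Z
open Pool.Agent.H76Y
open Pool.Agent.H76P Pool.Agent.H76V Pool.Agent.H76Q
open Module Matrix Polynomial Pool.Agent.H53Toric
open Pool.Agent.H76P
open Pool.Agent.H76T (IsIdeal Fam Lc)
open Pool.Agent.H76U (cmp preL IsSplitting)
open Pool.Agent.H76RM (spanK similD)

variable {ι : Type*} [Fintype ι] [DecidableEq ι] {ψ : Matrix ι ι ℚ}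
    {D : Subalgebra ℚ (Matrix ι ι ℚ)} {M : Type*} [Field M] [NumberField M]
    {m : ℕ} {cl : Fin m → Cl} {bar : Fin m → Fin m} {e : Fin m → Matrix ι ι M} {u₀ : Matrix ι ι M} {G : Type*} [Group G]
    {ρ : ∀ (l : ℕ) [Fact l.Prime], G →* Matrix.GeneralLinearGroup ι ℚ_[l]}
    {p : ℕ} [Fact p.Prime] {σ : G} {q : ℚ} {F : Fin m → M[X]}
    {φ μ ν : Matrix ι ι (AlgebraicClosure ℚ_[p])} {v : AlgebraicClosure ℚ_[p] → ℚ}
    {Δ : Set (AlgebraicClosure ℚ_[p] ≃+* AlgebraicClosure ℚ_[p])}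
    {Ω : Type*} [Field Ω] [CharZero Ω] [IsAlgClosed Ω] [Algebra.IsAlgebraic ℚ Ω] {j : M →+* Ω}
    {R : Finset Ω} {N : Set ℕ} (C : Core3 ψ D cl bar e u₀ ρ p σ q F φ μ ν v Δ j R N)

include C

theorem w1_lin (s : G) : ∀ d ∈ D, (ρ p s).1.map (algebraMap ℚ_[p] (AlgebraicClosure ℚ_[p])) *
      d.map (algebraMap ℚ (AlgebraicClosure ℚ_[p])) =
      d.map (algebraMap ℚ (AlgebraicClosure ℚ_[p])) *
        (ρ p s).1.map (algebraMap ℚ_[p] (AlgebraicClosure ℚ_[p])) := by
  intro d hd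
  have h1 := congrArg (fun m : Matrix ι ι ℚ_[p] => m.map (algebraMap ℚ_[p] (AlgebraicClosure ℚ_[p])))
    (C.lin p s d hd)
  have h2 : (d.map (algebraMap ℚ ℚ_[p])).map (algebraMap ℚ_[p] (AlgebraicClosure ℚ_[p])) =
      d.map (algebraMap ℚ (AlgebraicClosure ℚ_[p])) := by
    ext i j
    simp
  simp only [Matrix.map_mul] at h1
  rw [h2] at h1
  exact h1

theorem w1_phiD : ∀ d ∈ spanK (AlgebraicClosure ℚ_[p]) D, φ * d = d * φ := by
  intro d hd
  refine Pool.Agent.H76RM.zar_commute ?_ (C.frobp.idc.2 ⊤ inferInstance)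
  rintro _ ⟨s, -, rfl⟩
  exact Pool.Agent.H76RM.comm_span (w1_lin C s) d hd

theorem w1_ne (i : Ω →+* AlgebraicClosure ℚ_[p]) (b : Fin m) {a : Ω}
    (ha : (F b).eval₂ j a = 0) : i a ≠ 0 := by
  intro h0
  have h1 : (F b).eval₂ (i.comp j) (i a) = 0 := by
    rw [← Polynomial.hom_eval₂, ha, map_zero]
  obtain ⟨z, hz, -, hφ⟩ := (C.frobp.eig (i.comp j) b (i a)).2 h1
  rw [h0, zero_smul] at hφ
  exact hz (Matrix.eq_zero_of_mulVec_eq_zero C.frobp.idc.1 hφ)

/-- PROOF. If `a ≠ a'` then `v (i a) ≠ v (i a')` for some `i` (`C.gal`), but `N v (i a) = v (i (a ^ N)) = N v (i a')` (`IsVal.basic`; the roots are not `0`, because `φ` is invertible). -/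
theorem Core3.tor (b : Fin m) {a a' : Ω} (ha : (F b).eval₂ j a = 0) (ha' : (F b).eval₂ j a' = 0)
    {n : ℕ} (hn : n ≠ 0) (h : a ^ n = a' ^ n) : a = a' := by
  by_contra hne
  obtain ⟨i, hi⟩ := C.gal b a a' ha ha' hne
  have hb := (IsVal.basic C.crys.val).2.2.2
  have h1 := hb _ (w1_ne C i b ha) n
  have h2 := hb _ (w1_ne C i b ha') n
  rw [← map_pow, h, map_pow, h2] at h1
  have hn' : (n : ℚ) ≠ 0 := Nat.cast_ne_zero.2 hn
  exact hi (mul_left_cancel₀ hn' h1).symm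

/-- PROOF. `exists_enum` (A6) for `φ` and any `i : Ω →+* closure of ℚ_[p]` (`IsAlgClosed.lift`); `φ` commutes with `(e b).map _` (`C.frobp.idc`, `C.lin`, as in `at_p`, H76P/G15). -/
theorem Core3.enum (b : Fin m) : ∃ a : Fin (e b).rank → Ω, Function.Injective a ∧
      ∀ y : Ω, (F b).eval₂ j y = 0 ↔ ∃ k, y = a k := by
  let i : Ω →+* AlgebraicClosure ℚ_[p] :=
    (IsAlgClosed.lift (R := ℚ) (S := Ω) (M := AlgebraicClosure ℚ_[p])).toRingHom
  have hspl : Splits D ψ cl bar (fun c => (e c).map (i.comp j)) (u₀.map (i.comp j)) := C.hspl.map (i.comp j)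
  exact exists_enum C.frobp j i b (C.hspl.idem b) (w1_phiD C _ (hspl.mem b)).symm

end Pool.Agent.H76Z
end
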