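import Pool.Agent.Lib.H1M.RC.D_H76P_G0
import Pool.Agent.Lib.H1M.RC.M040
import Pool.Agent.Lib.H1M.RC.M042

/-! Merged copies (to shorten the build) of Lib.H76P.G1, Lib.H76P.G2, Lib.H76P.G3, Lib.H76P.G4, Lib.H76P.G13, Lib.H76P.G14, Lib.H76P.G11, Lib.H76P.G5, Lib.H76P.G6, Lib.H76P.G7, Lib.H76P.G9, Lib.H76P.G15. -/

-- from Lib.H76P.G1
section

/-!
# G1: conjugation; infinitesimal similitudes
-/

set_option autoImplicit false
set_option linter.unusedSectionVars false
namespace Pool.Agent.H76P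
open Module Matrix Pool.Agent.H53Toric
open Pool.Agent.H76RM (van zlie_commute)
open Pool.Agent.H76U (preL cmp Split4)
open Pool.Agent.H76V (SH)
open Pool.Agent.H76T (Lc mem_Lc)
open Pool.Agent.H76U (tw)

variable {ι : Type*} [Fintype ι] [DecidableEq ι] {K : Type*} [Field K] [CharZero K]

/-- PROOF. `H76F.zlie_conj'`: for `f ∈ van S`, `s ∈ S` the matrix `x * s * x'` is in `zar S` (`H53Toric.zar_mul`, `H53Toric.subset_zar`, and
`H76U.zar_inv` for `x'`), so `ev (x * s * x') f = 0`; the same for `x' * s * x`. -/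
theorem zlie_cnj {S : Set (Matrix ι ι K)} (hS1 : (1 : Matrix ι ι K) ∈ S)
    (hS : ∀ a ∈ S, ∀ b ∈ S, a * b ∈ S) {x x' : Matrix ι ι K} (hx : x ∈ zar S)
    (hxx : x * x' = 1) {A : Matrix ι ι K} (hA : A ∈ zlie S) : x * A * x' ∈ zlie S := by
  have hx' : x' ∈ zar S := Pool.Agent.H76U.zar_inv hS1 hS hx (mul_eq_one_comm.1 hxx)
  refine Pool.Agent.H76F.zlie_conj' hxx ?_ ?_ hA
  · intro f hf s hs
    exact zar_mul hS (zar_mul hS hx (subset_zar S hs)) hx' f hf
  · intro f hf s hs
    exact zar_mul hS (zar_mul hS hx' (subset_zar S hs)) hx f hf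

theorem g1_der {A : Matrix ι ι K} {f : MvPolynomial (ι × ι) K} {p : Polynomial K}
    (h : ∀ t : K, ev (1 + t • A) f = p.eval t) :
    ev (1 : Matrix ι ι K) (der A f) = (Polynomial.derivative p).eval 0 := by
  rw [← eval_derivative_lin]
  have h1 : lin (1 : Matrix ι ι K) (1 * A) f = p := by
    apply Polynomial.funext
    intro t
    rw [eval_lin, one_mul, h]
  rw [h1]

/-- the polynomial whose value at `s` is the entry of `sᵀ * J * s` -/
noncomputable def g1_pol (J : Matrix ι ι K) (i j : ι) : MvPolynomial (ι × ι) K :=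
  ∑ a, (∑ b, MvPolynomial.X (b, i) * MvPolynomial.C (J b a)) * MvPolynomial.X (a, j)

theorem g1_ev (J s : Matrix ι ι K) (i j : ι) : ev s (g1_pol J i j) = (sᵀ * J * s) i j := by
  unfold g1_pol
  rw [map_sum, Matrix.mul_apply]
  refine Finset.sum_congr rfl fun a _ ↦ ?_
  rw [map_mul, map_sum, ev_X, Matrix.mul_apply]
  congr 1
  refine Finset.sum_congr rfl fun b _ ↦ ?_
  rw [map_mul, ev_C, ev_X, Matrix.transpose_apply]

theorem g1_exp (J A : Matrix ι ι K) (t : K) :
    (1 + t • A)ᵀ * J * (1 + t • A) = J + t • (Aᵀ * J + J * A) + (t * t) • (Aᵀ * J * A) := by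
  rw [Matrix.transpose_add, Matrix.transpose_one, Matrix.transpose_smul]
  simp only [add_mul, mul_add, one_mul, mul_one, smul_mul_assoc, mul_smul_comm, smul_add, smul_smul]
  abel

/-- PROOF. Let `J k l ≠ 0`.  For all `i`, `j` the polynomial function `s ↦ J k l * (sᵀ * J * s) i j - J i j * (sᵀ * J * s) k l` vanishes on `S`
(on `S` it is `J k l * c * J i j - J i j * c * J k l`).  Its derivative in the direction `A` at `1 ∈ S` is
`J k l * (Aᵀ * J + J * A) i j - J i j * (Aᵀ * J + J * A) k l`, so this is `0` and `c = (Aᵀ * J + J * A) k l / J k l` works.  (Work with a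
polynomial in `MvPolynomial (ι × ι) K`, `der`, `der_X`, `Derivation.leibniz` as in `H53Toric.Zar`, or use
`H53Toric.eval_derivative_lin`: the derivative at `0` of the polynomial `t ↦ f (1 + t A)`.) -/
theorem zlie_sim {S : Set (Matrix ι ι K)} (hS1 : (1 : Matrix ι ι K) ∈ S) {J : Matrix ι ι K}
    (hJ : J ≠ 0) (hsim : ∀ s ∈ S, ∃ c : K, sᵀ * J * s = c • J) {A : Matrix ι ι K}
    (hA : A ∈ zlie S) : ∃ c : K, Aᵀ * J + J * A = c • J := by
  obtain ⟨k, l, hkl⟩ : ∃ k l, J k l ≠ 0 := by
    by_contra hcon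
    push Not at hcon
    exact hJ (by ext i j; exact hcon i j)
  refine ⟨(Aᵀ * J + J * A) k l / J k l, ?_⟩
  ext i j
  set f : MvPolynomial (ι × ι) K := MvPolynomial.C (J k l) * g1_pol J i j -
    MvPolynomial.C (J i j) * g1_pol J k l with hf
  have hev : ∀ s : Matrix ι ι K, ev s f = J k l * (sᵀ * J * s) i j - J i j * (sᵀ * J * s) k l := by
    intro s
    rw [hf, map_sub, map_mul, map_mul, ev_C, ev_C, g1_ev, g1_ev]
  have h0 : ∀ s ∈ S, ev s f = 0 := by
    intro s hs
    obtain ⟨c, hc⟩ := hsim s hs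
    rw [hev, hc, Matrix.smul_apply, Matrix.smul_apply, smul_eq_mul, smul_eq_mul]
    ring
  have h1 := hA f h0 1 hS1
  have h2 := g1_der (A := A) (f := f) (p := Polynomial.X * Polynomial.C (J k l * (Aᵀ * J + J * A) i j -
    J i j * (Aᵀ * J + J * A) k l) + Polynomial.X ^ 2 * Polynomial.C (J k l * (Aᵀ * J * A) i j -
    J i j * (Aᵀ * J * A) k l)) (by
      intro t
      rw [hev, g1_exp]
      simp only [Matrix.add_apply, Matrix.smul_apply, smul_eq_mul, Polynomial.eval_add, Polynomial.eval_mul,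
        Polynomial.eval_X, Polynomial.eval_C, Polynomial.eval_pow]
      ring)
  rw [h1] at h2
  simp only [Polynomial.derivative_add, Polynomial.derivative_mul, Polynomial.derivative_X,
    Polynomial.derivative_C, Polynomial.derivative_X_pow, Polynomial.eval_add, Polynomial.eval_mul,
    Polynomial.eval_X, Polynomial.eval_C, Polynomial.eval_pow, one_mul, mul_zero, add_zero, zero_mul,
    Polynomial.eval_one, Polynomial.eval_zero] at h2
  norm_num at h2
  rw [Matrix.smul_apply, smul_eq_mul, div_mul_eq_mul_div, eq_div_iff hkl, Matrix.add_apply, Matrix.add_apply]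
  linear_combination -h2

end Pool.Agent.H76P
end

-- from Lib.H76P.G2
section

/-!
# G2: the Lie algebra of the closure of the powers of a diagonalisable matrix
-/

set_option autoImplicit false
set_option linter.unusedSectionVars false
namespace Pool.Agent.H76P
open Module Matrix Pool.Agent.H53Toric
open Pool.Agent.H76RM (van zlie_commute)
open Pool.Agent.H76U (preL cmp Split4)
open Pool.Agent.H76V (SH)
open Pool.Agent.H76T (Lc mem_Lc)
open Pool.Agent.H76U (tw)

variable {ι : Type*} [Fintype ι] [DecidableEq ι] {K : Type*} [Field K] [CharZero K]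

theorem g2_prod (f : ι → K) (m : ι → ℕ) :
    (Polynomial.derivative (∏ k, (1 + Polynomial.X * Polynomial.C (f k)) ^ m k)).eval 0 =
      ∑ k, (m k : K) * f k := by
  rw [Polynomial.derivative_prod_finset, Polynomial.eval_finsetSum]
  refine Finset.sum_congr rfl fun k _ => ?_
  rw [Polynomial.eval_mul, Polynomial.eval_prod, Finset.prod_eq_one]
  · rw [Polynomial.derivative_pow]
    simp
  · intro j _
    simp

/-- PROOF. Put `S = {φ ^ n}`; `1 ∈ S`; `Q * φ ^ n * P = (diagonal d) ^ n` (`H76T.diag_pow'`).  For each polynomial function `f` which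
vanishes on `S` the derivative at `1` in the direction `X` vanishes: `ev 1 (der X f) = 0` (`H53Toric.eval_derivative_lin` with `x = 1`: this is the
derivative at `t = 0` of `f (1 + t X)`).  The entries of `Q * y * P` are (linear) polynomials in `y` (`H76T.entry_poly`).
(1) `i ≠ j`: `f y = (Q * y * P) i j` vanishes on `S`, so `(Q * X * P) i j = 0`.  So `Q * X * P = diagonal f` with
`f k = (Q * X * P) k k` and `X = P * diagonal f * Q`.
(2) Let `m : ι → ℤ`, `∏ k, d k ^ m k = 1`, `m = m₊ - m₋` with natural numbers.  The polynomial function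
`∏ k, (Q * y * P) k k ^ m₊ k - ∏ k, (Q * y * P) k k ^ m₋ k` vanishes on `S` (`H76T.pow_mul_rel` says this for the closure).  Its derivative at
`y = 1`, where `(Q * 1 * P) k k = 1`, in the direction `X` is `∑ k, m₊ k * f k - ∑ k, m₋ k * f k = ∑ k, m k * f k`. -/
theorem zlie_pow {P Q : Matrix ι ι K} {d : ι → K} (hPQ : P * Q = 1) (hQP : Q * P = 1)
    (hd : ∀ k, d k ≠ 0) {φ : Matrix ι ι K} (hφ : φ = P * Matrix.diagonal d * Q)
    {X : Matrix ι ι K} (hX : X ∈ zlie {m | ∃ n : ℕ, m = φ ^ n}) :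
    ∃ f : ι → K, X = P * Matrix.diagonal f * Q ∧ LogLin d f := by
  have h1S : (1 : Matrix ι ι K) ∈ {m | ∃ n : ℕ, m = φ ^ n} := ⟨0, by rw [pow_zero]⟩
  have hline : ∀ (t : K) (i j : ι), (Q * (1 + t • X) * P) i j = (1 : Matrix ι ι K) i j + t * (Q * X * P) i j := by
    intro t i j
    rw [mul_add, add_mul, mul_one, hQP, Matrix.add_apply, mul_smul_comm, smul_mul_assoc, Matrix.smul_apply,
      smul_eq_mul]
  choose g hg using fun i j => Pool.Agent.H76T.entry_poly P Q i j
  have hoff : ∀ i j, i ≠ j → (Q * X * P) i j = 0 := by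
    intro i j hij
    have h0 : ∀ s ∈ {m | ∃ n : ℕ, m = φ ^ n}, ev s (g i j) = 0 := by
      rintro _ ⟨n, rfl⟩
      rw [hg, Pool.Agent.H76T.diag_pow' hφ hPQ hQP, Matrix.diagonal_pow, Matrix.diagonal_apply_ne _ hij]
    have h1 := hX (g i j) h0 1 h1S
    have h2 := g1_der (A := X) (f := g i j) (p := Polynomial.X * Polynomial.C ((Q * X * P) i j)) (by
      intro t
      rw [hg, hline, Matrix.one_apply_ne hij, Polynomial.eval_mul, Polynomial.eval_X, Polynomial.eval_C, zero_add, mul_comm])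
    rw [h1] at h2
    simpa using h2.symm
  set f : ι → K := fun k => (Q * X * P) k k with hf
  have hdiag : Q * X * P = Matrix.diagonal f := by
    ext i j
    by_cases hij : i = j
    · subst hij
      rw [Matrix.diagonal_apply_eq]
    · rw [Matrix.diagonal_apply_ne _ hij, hoff i j hij]
  refine ⟨f, ?_, ?_⟩
  · rw [← hdiag]
    calc X = (P * Q) * X * (P * Q) := by rw [hPQ, one_mul, mul_one]
      _ = P * (Q * X * P) * Q := by noncomm_ring
  · intro m hm
    have hm2 : ∏ k, d k ^ (m k).toNat = ∏ k, d k ^ (-m k).toNat := by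
      have h1 : ∀ k, d k ^ m k = d k ^ (m k).toNat / d k ^ (-m k).toNat := by
        intro k
        rw [← zpow_natCast, ← zpow_natCast, ← zpow_sub₀ (hd k)]
        congr 1
        omega
      have h2 : ∏ k, d k ^ (-m k).toNat ≠ 0 := Finset.prod_ne_zero_iff.2 fun k _ => pow_ne_zero _ (hd k)
      rw [Finset.prod_congr rfl fun k _ => h1 k, Finset.prod_div_distrib, div_eq_one_iff_eq h2] at hm
      exact hm
    set F : MvPolynomial (ι × ι) K := ∏ k, g k k ^ (m k).toNat - ∏ k, g k k ^ (-m k).toNat with hF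
    have hev : ∀ y : Matrix ι ι K, ev y F = ∏ k, (Q * y * P) k k ^ (m k).toNat -
        ∏ k, (Q * y * P) k k ^ (-m k).toNat := by
      intro y
      rw [hF, map_sub, map_prod, map_prod]
      simp only [map_pow, hg]
    have h0 : ∀ s ∈ {m | ∃ n : ℕ, m = φ ^ n}, ev s F = 0 := by
      intro s hs
      rw [hev, Pool.Agent.H76T.pow_mul_rel hφ hPQ hQP (subset_zar _ hs) hm2, sub_self]
    have h1 := hX F h0 1 h1S
    have h2 := g1_der (A := X) (f := F) (p := ∏ k, (1 + Polynomial.X * Polynomial.C (f k)) ^ (m k).toNat -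
        ∏ k, (1 + Polynomial.X * Polynomial.C (f k)) ^ (-m k).toNat) (by
      intro t
      rw [hev]
      simp only [hline, Matrix.one_apply_eq, Polynomial.eval_sub, Polynomial.eval_prod, Polynomial.eval_pow,
        Polynomial.eval_add, Polynomial.eval_mul, Polynomial.eval_X, Polynomial.eval_C, Polynomial.eval_one]
      rfl)
    rw [h1, Polynomial.derivative_sub, Polynomial.eval_sub, g2_prod, g2_prod, ← Finset.sum_sub_distrib] at h2
    rw [← h2.symm]
    refine Finset.sum_congr rfl fun k _ => ?_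
    rw [← sub_mul]
    congr 1
    have h3 : (m k : ℤ) = ((m k).toNat : ℤ) - ((-m k).toNat : ℤ) := by omega
    conv_lhs => rw [h3]
    push_cast
    rfl

end Pool.Agent.H76P
end

-- from Lib.H76P.G3
section

/-!
# G3: the part of an element of the Lie algebra which commutes with a given operator
-/

set_option autoImplicit false
set_option linter.unusedSectionVars false
namespace Pool.Agent.H76P
open Module Matrix Pool.Agent.H53Toric
open Pool.Agent.H76RM (van zlie_commute)
open Pool.Agent.H76U (preL cmp Split4)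
open Pool.Agent.H76V (SH)
open Pool.Agent.H76T (Lc mem_Lc)
open Pool.Agent.H76U (tw)

variable {ι : Type*} [Fintype ι] [DecidableEq ι] {K : Type*} [Field K] [CharZero K]

theorem g3_step {S : Set (Matrix ι ι K)} {φ φ' P Q : Matrix ι ι K} {d : ι → K}
    (hcnj : ∀ A ∈ zlie S, φ * A * φ' ∈ zlie S)
    (hent : ∀ (C : Matrix ι ι K) (i j : ι), (Q * (φ * C * φ') * P) i j = d i / d j * (Q * C * P) i j)
    (hinv : φ * φ' = 1) {A : Matrix ι ι K} (hA : A ∈ zlie S) (Λ : Finset K) :
    (1 : K) ∉ Λ → ∃ C ∈ zlie S, (∀ i j, d i / d j ∈ Λ → (Q * C * P) i j = 0) ∧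
      ∀ p : Matrix ι ι K, p * φ = φ * p → (A * p) * φ = φ * (A * p) → C * p = A * p := by
  classical
  refine Finset.induction_on Λ ?_ ?_
  · intro _
    exact ⟨A, hA, fun i j h => absurd h (Finset.notMem_empty _), fun p _ _ => rfl⟩
  · intro l Λ' hl ih h1
    rw [Finset.mem_insert, not_or] at h1
    obtain ⟨C, hC, hC1, hC2⟩ := ih h1.2
    have hl1 : (1 - l) ≠ 0 := sub_ne_zero.2 h1.1
    refine ⟨(1 - l)⁻¹ • (φ * C * φ' - l • C), ?_, ?_, ?_⟩
    · exact (zlie S).smul_mem _ ((zlie S).sub_mem (hcnj C hC) ((zlie S).smul_mem _ hC))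
    · intro i j hij
      have h2 : (Q * ((1 - l)⁻¹ • (φ * C * φ' - l • C)) * P) i j =
          (1 - l)⁻¹ * ((d i / d j - l) * (Q * C * P) i j) := by
        rw [mul_smul_comm, smul_mul_assoc, Matrix.smul_apply, mul_sub, sub_mul, Matrix.sub_apply, hent,
          mul_smul_comm, smul_mul_assoc, Matrix.smul_apply, smul_eq_mul, smul_eq_mul, sub_mul]
      rw [h2]
      rcases Finset.mem_insert.1 hij with h3 | h3
      · rw [h3, sub_self, zero_mul, mul_zero]
      · rw [hC1 i j h3, mul_zero, mul_zero]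
    · intro p hp hAp
      have h2 := hC2 p hp hAp
      have hφ'φ : φ' * φ = 1 := mul_eq_one_comm.1 hinv
      have hp' : φ' * p = p * φ' := by
        calc φ' * p = φ' * p * (φ * φ') := by rw [hinv, mul_one]
          _ = φ' * (p * φ) * φ' := by noncomm_ring
          _ = φ' * φ * p * φ' := by rw [hp]; noncomm_ring
          _ = p * φ' := by rw [hφ'φ, one_mul]
      have h3 : φ * C * φ' * p = A * p := by
        calc φ * C * φ' * p = φ * C * (φ' * p) := by noncomm_ring
          _ = φ * (C * p) * φ' := by rw [hp']; noncomm_ring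
          _ = (φ * (A * p)) * φ' := by rw [h2]
          _ = A * p * (φ * φ') := by rw [← hAp]; noncomm_ring
          _ = A * p := by rw [hinv, mul_one]
      rw [smul_mul_assoc, sub_mul, h3, smul_mul_assoc, h2]
      have h4 : A * p - l • (A * p) = (1 - l) • (A * p) := by rw [sub_smul, one_smul]
      rw [h4, smul_smul, inv_mul_cancel₀ hl1, one_smul]

/-- PROOF. `φ = P * diagonal d * Q` with `P * Q = 1`, all `d i ≠ 0`, `φ' = P * diagonal (d⁻¹) * Q`.  `Ad X = φ * X * φ'` is a linear map; on the entries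
of `Q * X * P` it is multiplication of the entry `(i, j)` with `d i / d j`.  So `Ad` is diagonalisable; let `Λ` be the finite set of the values
`d i / d j` different from `1`, and `Π = ∏_{l ∈ Λ} (1 - l)⁻¹ • (Ad - l)` (a polynomial in `Ad`): `Q * (Π X) * P` has the entries
`(Q * X * P) i j` if `d i = d j` and `0` else.  `C = Π A` is in `zlie S` (`hcnj`), commutes with `φ`.  Let `p` commute with `φ`, hence with `φ'`:
`Ad (X * p) = Ad X * p`, so `Π (A * p) = Π A * p = C * p`.  If `A * p` commutes with `φ`, then `Ad (A * p) = A * p` and `Π (A * p) = A * p`. -/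
theorem zero_part {S : Set (Matrix ι ι K)} {φ φ' : Matrix ι ι K} (hinv : φ * φ' = 1)
    (hdg : Diagonalisable φ) (hcnj : ∀ A ∈ zlie S, φ * A * φ' ∈ zlie S)
    {A : Matrix ι ι K} (hA : A ∈ zlie S) :
    ∃ C ∈ zlie S, C * φ = φ * C ∧ ∀ p : Matrix ι ι K, p * φ = φ * p →
      (A * p) * φ = φ * (A * p) → C * p = A * p := by
  classical
  obtain ⟨P, Q, d, hPQ, hQP, hφ⟩ := hdg
  have hQφP : Q * φ * P = Matrix.diagonal d := by
    rw [hφ]
    calc Q * (P * Matrix.diagonal d * Q) * P = (Q * P) * Matrix.diagonal d * (Q * P) := by noncomm_ring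
      _ = Matrix.diagonal d := by rw [hQP, one_mul, mul_one]
  have hprod : Matrix.diagonal d * (Q * φ' * P) = 1 := by
    rw [← hQφP]
    calc Q * φ * P * (Q * φ' * P) = Q * φ * (P * Q) * φ' * P := by noncomm_ring
      _ = Q * (φ * φ') * P := by rw [hPQ]; noncomm_ring
      _ = 1 := by rw [hinv, mul_one, hQP]
  have hY : ∀ i j, d i * (Q * φ' * P) i j = (1 : Matrix ι ι K) i j := by
    intro i j
    rw [← hprod, Matrix.diagonal_mul]
  have hd : ∀ i, d i ≠ 0 := by
    intro i h0
    have := hY i i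
    rw [h0, zero_mul, Matrix.one_apply_eq] at this
    exact one_ne_zero this.symm
  have hY2 : Q * φ' * P = Matrix.diagonal (fun i => (d i)⁻¹) := by
    ext i j
    have h1 := hY i j
    by_cases hij : i = j
    · subst hij
      rw [Matrix.one_apply_eq] at h1
      rw [Matrix.diagonal_apply_eq]
      exact eq_inv_of_mul_eq_one_right h1
    · rw [Matrix.one_apply_ne hij] at h1
      rw [Matrix.diagonal_apply_ne _ hij]
      exact (mul_eq_zero.1 h1).resolve_left (hd i)
  have hent : ∀ (C : Matrix ι ι K) (i j : ι), (Q * (φ * C * φ') * P) i j = d i / d j * (Q * C * P) i j := by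
    intro C i j
    have h1 : Q * (φ * C * φ') * P = Matrix.diagonal d * (Q * C * P) * Matrix.diagonal (fun i => (d i)⁻¹) := by
      rw [← hQφP, ← hY2]
      calc Q * (φ * C * φ') * P = Q * φ * 1 * C * 1 * φ' * P := by noncomm_ring
        _ = Q * φ * (P * Q) * C * (P * Q) * φ' * P := by rw [hPQ]
        _ = _ := by noncomm_ring
    rw [h1, Matrix.mul_diagonal, Matrix.diagonal_mul]
    field_simp
  obtain ⟨C, hC, hC1, hC2⟩ := g3_step hcnj hent hinv hA
    (((Finset.univ : Finset (ι × ι)).image (fun q => d q.1 / d q.2)).erase 1) (Finset.notMem_erase _ _)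
  refine ⟨C, hC, ?_, hC2⟩
  have hzero : ∀ i j, d i ≠ d j → (Q * C * P) i j = 0 := by
    intro i j hij
    refine hC1 i j (Finset.mem_erase.2 ⟨?_, Finset.mem_image.2 ⟨(i, j), Finset.mem_univ _, rfl⟩⟩)
    intro h
    exact hij ((div_eq_one_iff_eq (hd j)).1 h)
  have hcomm : (Q * C * P) * Matrix.diagonal d = Matrix.diagonal d * (Q * C * P) := by
    ext i j
    rw [Matrix.mul_diagonal, Matrix.diagonal_mul]
    by_cases hij : d i = d j
    · rw [hij, mul_comm]
    · rw [hzero i j hij, zero_mul, mul_zero]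
  calc C * φ = P * ((Q * C * P) * Matrix.diagonal d) * Q := by
        rw [hφ]
        calc C * (P * Matrix.diagonal d * Q) = 1 * C * P * Matrix.diagonal d * Q := by noncomm_ring
          _ = (P * Q) * C * P * Matrix.diagonal d * Q := by rw [hPQ]
          _ = _ := by noncomm_ring
    _ = φ * C := by
        rw [hcomm, hφ]
        calc P * (Matrix.diagonal d * (Q * C * P)) * Q = P * Matrix.diagonal d * Q * C * (P * Q) := by noncomm_ring
          _ = _ := by rw [hPQ, mul_one]

end Pool.Agent.H76P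
end

-- from Lib.H76P.G4
section

/-!
# G4: the component in an eigenbasis
-/

set_option autoImplicit false
set_option linter.unusedSectionVars false
namespace Pool.Agent.H76P
open Module Matrix Pool.Agent.H53Toric
open Pool.Agent.H76RM (van zlie_commute)
open Pool.Agent.H76U (preL cmp Split4)
open Pool.Agent.H76V (SH)
open Pool.Agent.H76T (Lc mem_Lc)
open Pool.Agent.H76U (tw)

variable {ι : Type*} [Fintype ι] [DecidableEq ι] {K : Type*} [Field K]
  [CharZero K] [IsAlgClosed K] {B : Type*} [Fintype B] [DecidableEq B]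
  {J : Matrix ι ι K} {DD : Submodule K (Matrix ι ι K)}
  {bar : B → B} {e : B → Matrix ι ι K} (h : Split4 J DD bar e) {b : B} (hb : bar b = b)
  (hJ : Jᵀ = -J) (hdet : IsUnit J.det)
  {n : ℕ} {P : Matrix ι (Fin n) K} {Q : Matrix (Fin n) ι K}
  (hPQ : e b = P * Q) (hQP : Q * P = 1)
  {S : Set (Matrix ι ι K)} {𝓗 : Set (Matrix ι ι K)} {φ φ' : Matrix ι ι K}
  (g : PH S J DD 𝓗 φ φ') {d : Fin n → K} (E : EC φ P d)

theorem phi_diag {n : ℕ} (f : Fin n → K) : phi (Matrix.diagonal f) = dg f := by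
  refine LinearMap.ext fun v => funext fun a => ?_
  rw [phi_apply, Matrix.mulVec_diagonal, dg_apply]

include hQP E in
theorem cmp_phi : cmp P Q φ = Matrix.diagonal d := by
  rw [Pool.Agent.H76U.cmp_apply, Matrix.mul_assoc, E.eig, ← Matrix.mul_assoc, hQP, Matrix.one_mul]

include h hPQ hQP g E in
/-- PROOF. `φ` and `A` commute with `e b` (`g.φD`, `h.mem`), so `cmp` is multiplicative (`H76U.cmp_mul`): `cmp A` commutes with
`cmp φ = diagonal d`, and `d` is injective. -/
theorem cmp_diag {A : Matrix ι ι K} (hAe : A * e b = e b * A) (hAφ : A * φ = φ * A) :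
    ∃ f : Fin n → K, cmp P Q A = Matrix.diagonal f := by
  have hφe : φ * e b = e b * φ := g.φD _ (h.mem b)
  have h1 := Pool.Agent.H76U.cmp_mul hPQ hQP (A := A) (C := φ) hφe
  have h2 := Pool.Agent.H76U.cmp_mul hPQ hQP (A := φ) (C := A) hAe
  rw [hAφ, h2, cmp_phi hQP E] at h1
  refine ⟨fun k => cmp P Q A k k, ?_⟩
  ext i j
  by_cases hij : i = j
  · subst hij
    rw [Matrix.diagonal_apply_eq]
  · rw [Matrix.diagonal_apply_ne _ hij]
    have h3 := congrFun (congrFun h1 i) j
    rw [Matrix.diagonal_mul, Matrix.mul_diagonal] at h3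
    have h4 : (d i - d j) * cmp P Q A i j = 0 := by
      rw [sub_mul, h3]
      ring
    exact (mul_eq_zero.1 h4).resolve_left (sub_ne_zero.2 fun h5 => hij (E.inj h5))

include h hb hdet hPQ hQP g in
theorem g4_mem {A : Matrix ι ι K} (hA : ∃ c : K, ∃ C ∈ zlie S, A = C + c • 1) (hs : Aᵀ * J + J * A = 0) :
    phi (cmp P Q A) ∈ Lc J S P Q := by
  have hpJ : (e b)ᵀ * J = J * e b := by
    have := h.adj b
    rwa [hb] at this
  have hdb := Pool.Agent.H76U.det_cmp hPQ hQP hpJ hdet
  have hAL : A ∈ preL J S := ⟨hA, 0, by rw [hs, zero_smul]⟩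
  have hAe := Pool.Agent.H76V.preL_ec (b := b) h g.sh hAL
  refine ⟨Pool.Agent.H76U.mem_Lb.2 ⟨A, hAL, rfl⟩, ?_⟩
  rw [skew_iff hdb, Pool.Agent.H76U.cmp_sim hPQ hQP hpJ hAe, hs, Matrix.mul_zero, Matrix.zero_mul]

include h hb hdet hPQ hQP g in
/-- PROOF. `zlie_sim`: `Cᵀ * J + J * C = (2 * c) • J`; so `C - c • 1 ∈ preL J S` is skew.  `mem_Lc`, `H76U.mem_Lb`, `skew_iff`, `H76U.cmp_sim`
(compare `H76V.nil_mem`).  (`J ≠ 0` since otherwise `hdet` shows that `ι` is empty, and then `n = 0`.) -/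
theorem lc_of_zlie {C : Matrix ι ι K} (hC : C ∈ zlie S) :
    ∃ c : K, phi (cmp P Q (C - c • 1)) ∈ Lc J S P Q := by
  obtain ⟨c, hc⟩ : ∃ c : K, Cᵀ * J + J * C = c • J := by
    by_cases hJ0 : J = 0
    · exact ⟨0, by rw [hJ0]; simp⟩
    · exact zlie_sim g.sh.one hJ0 g.Ssim hC
  refine ⟨c / 2, g4_mem h hb hdet hPQ hQP g ⟨-(c / 2), C, hC, ?_⟩ ?_⟩
  · rw [neg_smul, sub_eq_add_neg]
  · rw [Matrix.transpose_sub, Matrix.transpose_smul, Matrix.transpose_one, sub_mul, mul_sub, smul_mul_assoc,
      one_mul, mul_smul_comm, mul_one]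
    have h1 : Cᵀ * J - (c / 2) • J + (J * C - (c / 2) • J) = (Cᵀ * J + J * C) - (c / 2 + c / 2) • J := by
      rw [add_smul]
      abel
    rw [h1, hc, add_halves, sub_self]

include h hb hdet hPQ hQP g E in
/-- PROOF. `x ∈ zlie S` (`g.sh.hz`) commutes with `e b` and `φ`; `cmp x = diagonal f` (`cmp_diag`) with `f * f = f` (`g.sh.hi`), so
`f k ∈ {0, 1}`; `ε k = if f k = 1 then 1 else -1`.  `2 x - 1` is in `preL J S` and skew (`g.sh.hs`), so its compression is in `Lc`. -/
theorem eps_mem {x : Matrix ι ι K} (hx : x ∈ 𝓗) (hxφ : x * φ = φ * x) :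
    ∃ ε ∈ Hs (Lc J S P Q), phi (cmp P Q ((2 : K) • x - 1)) = dq ε := by
  classical
  have hxz := g.sh.hz x hx
  have hxs := g.sh.hs x hx
  have hxL : x ∈ preL J S := ⟨⟨0, x, hxz, by rw [zero_smul, add_zero]⟩, 1, by rw [hxs, one_smul]⟩
  have hxe := Pool.Agent.H76V.preL_ec (b := b) h g.sh hxL
  obtain ⟨f, hf⟩ := cmp_diag h hPQ hQP g E hxe hxφ
  have hff : ∀ k, f k = 0 ∨ f k = 1 := by
    intro k
    have h1 := Pool.Agent.H76U.cmp_mul hPQ hQP (A := x) (C := x) hxe
    rw [g.sh.hi x hx, hf, Matrix.diagonal_mul_diagonal] at h1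
    have h2 := congrFun (congrFun h1 k) k
    rw [Matrix.diagonal_apply_eq, Matrix.diagonal_apply_eq] at h2
    have h3 : f k * (f k - 1) = 0 := by rw [mul_sub, mul_one, ← h2, sub_self]
    rcases mul_eq_zero.1 h3 with h4 | h4
    · exact Or.inl h4
    · exact Or.inr (sub_eq_zero.1 h4)
  have hmem := g4_mem h hb hdet hPQ hQP g (A := (2 : K) • x - 1)
    ⟨-1, (2 : K) • x, (zlie S).smul_mem _ hxz, by rw [neg_smul, one_smul, sub_eq_add_neg]⟩ (by
      rw [Matrix.transpose_sub, Matrix.transpose_smul, Matrix.transpose_one, sub_mul, mul_sub, smul_mul_assoc,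
        one_mul, mul_smul_comm, mul_one]
      have h1 : (2 : K) • (xᵀ * J) - J + ((2 : K) • (J * x) - J) = (2 : K) • (xᵀ * J + J * x - J) := by
        rw [smul_sub, smul_add, two_smul K J]
        abel
      rw [h1, hxs, sub_self, smul_zero])
  have hval : phi (cmp P Q ((2 : K) • x - 1)) = dq (fun k => if f k = 1 then (1 : ℚ) else -1) := by
    have h1 : cmp P Q ((2 : K) • x - 1) = Matrix.diagonal (fun k => 2 * f k - 1) := by
      rw [map_sub, map_smul, Pool.Agent.H76U.cmp_one hPQ hQP, hf]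
      ext i j
      by_cases hij : i = j
      · subst hij
        simp
      · simp [Matrix.diagonal_apply_ne _ hij, Matrix.one_apply_ne hij]
    rw [h1, phi_diag]
    unfold dq
    congr 1
    ext k
    change 2 * f k - 1 = (((if f k = 1 then (1 : ℚ) else -1) : ℚ) : K)
    rcases hff k with h2 | h2
    · have h3 : ¬ f k = 1 := by rw [h2]; exact zero_ne_one
      rw [if_neg h3, h2]
      norm_num
    · rw [if_pos h2, h2]
      norm_num
  refine ⟨fun k => if f k = 1 then (1 : ℚ) else -1, ⟨fun a => ?_, ?_⟩, hval⟩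
  · simp only
    split_ifs
    · exact Or.inl rfl
    · exact Or.inr rfl
  · rw [← hval]
    exact hmem

include h hb hdet hPQ hQP g E in
/-- PROOF. `dg f = phi (cmp A)` with `A = C + c • 1`, `C ∈ zlie S` (`mem_Lc`, `mem_Lb`).  `A`, `C` commute with `e b`; `C * e b = P * diagonal (f - c) * Q`
commutes with `φ` (`φ * P = P * diagonal d` and `Q * φ = diagonal d * Q`, because `φ` commutes with `e b = P * Q`).  `zero_part` (`p = e b`) gives
`C₁ ∈ zlie S` which commutes with `φ` and `C₁ * e b = C * e b`.  By `g.torus` and `zlie_pow` (`g.dgb`; the eigenvalues of `φ` are not zero because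
of `g.inv`) `C₁ = P₀ * diagonal f₀ * Q₀`, `φ = P₀ * diagonal d₀ * Q₀`, `LogLin d₀ f₀`.  For `i`, `j` with `d₀ i = d₀ j` the relation
`d₀ i * (d₀ j)⁻¹ = 1` gives `f₀ i = f₀ j`.  The column `k` of `P` is an eigenvector of `φ` with eigenvalue `d k` and of `C₁` with eigenvalue
`f k - c`; so there is `i = i k` with `d₀ i = d k` and `f₀ i = f k - c` (take `i` with `(Q₀ * P) i k ≠ 0`).  `k ↦ i k` is injective.  A relation
`∏ k, d k ^ m k = 1` gives a relation between the `d₀ i` (with exponent `0` outside the image of `k ↦ i k`), hence `∑ k, m k * (f k - c) = 0`. -/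
theorem loglin_of_mem {f : Fin n → K} (hf : dg f ∈ Lc J S P Q) :
    ∃ c : K, LogLin d (fun k => f k - c) := by
  classical
  have hf1 : phi (Matrix.diagonal f) ∈ Pool.Agent.H76U.Lb J S P Q := by
    rw [phi_diag]
    exact hf.1
  obtain ⟨A, hAL, hAf⟩ := Pool.Agent.H76U.mem_Lb.1 hf1
  have hAe := Pool.Agent.H76V.preL_ec (b := b) h g.sh hAL
  obtain ⟨c, C, hC, rfl⟩ := hAL.1
  refine ⟨c, ?_⟩
  have hCe : C * e b = e b * C := by
    rw [add_mul, mul_add, smul_mul_assoc, one_mul, mul_smul_comm, mul_one] at hAe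
    exact add_right_cancel hAe
  have hCf : cmp P Q C = Matrix.diagonal (fun k => f k - c) := by
    rw [map_add, map_smul, Pool.Agent.H76U.cmp_one hPQ hQP] at hAf
    have h1 : cmp P Q C = Matrix.diagonal f - c • 1 := by rw [← hAf, add_sub_cancel_right]
    rw [h1]
    ext i j
    by_cases hij : i = j
    · subst hij
      simp
    · simp [Matrix.diagonal_apply_ne _ hij, Matrix.one_apply_ne hij]
  have hφe : φ * e b = e b * φ := g.φD _ (h.mem b)
  have hφP := E.eig
  have hQφ : Q * φ = Matrix.diagonal d * Q := by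
    rw [← Pool.Agent.H76U.cmp_Q hPQ hQP hφe, cmp_phi hQP E]
  have hCP : C * P = P * Matrix.diagonal (fun k => f k - c) := by
    rw [← hCf, Pool.Agent.H76U.P_cmp hPQ hQP hCe]
  have hCeb : C * e b = P * Matrix.diagonal (fun k => f k - c) * Q := by
    rw [hPQ, ← Matrix.mul_assoc, hCP]
  have hcomm : (C * e b) * φ = φ * (C * e b) := by
    rw [hCeb]
    calc P * Matrix.diagonal (fun k => f k - c) * Q * φ =
        P * Matrix.diagonal (fun k => f k - c) * (Q * φ) := by rw [Matrix.mul_assoc]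
      _ = P * (Matrix.diagonal (fun k => f k - c) * Matrix.diagonal d) * Q := by
          rw [hQφ, Matrix.mul_assoc, Matrix.mul_assoc, Matrix.mul_assoc]
      _ = P * (Matrix.diagonal d * Matrix.diagonal (fun k => f k - c)) * Q := by
          rw [Matrix.diagonal_mul_diagonal, Matrix.diagonal_mul_diagonal]
          congr 3
          ext k
          ring
      _ = (P * Matrix.diagonal d) * Matrix.diagonal (fun k => f k - c) * Q := by
          rw [Matrix.mul_assoc, Matrix.mul_assoc, Matrix.mul_assoc, Matrix.mul_assoc]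
      _ = (φ * P) * Matrix.diagonal (fun k => f k - c) * Q := by rw [hφP]
      _ = _ := by rw [Matrix.mul_assoc, Matrix.mul_assoc, Matrix.mul_assoc]
  obtain ⟨C₁, hC₁, hC₁φ, hC₁p⟩ := zero_part g.inv g.dgb g.cnj hC
  have hC₁e := hC₁p (e b) hφe.symm hcomm
  obtain ⟨P₀, Q₀, d₀, hPQ₀, hQP₀, hφ₀⟩ := g.dgb
  have hQφP₀ : Q₀ * φ * P₀ = Matrix.diagonal d₀ := by
    rw [hφ₀]
    calc Q₀ * (P₀ * Matrix.diagonal d₀ * Q₀) * P₀ = (Q₀ * P₀) * Matrix.diagonal d₀ * (Q₀ * P₀) := by noncomm_ring
      _ = Matrix.diagonal d₀ := by rw [hQP₀, one_mul, mul_one]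
  have hd₀ : ∀ i, d₀ i ≠ 0 := by
    have hprod : Matrix.diagonal d₀ * (Q₀ * φ' * P₀) = 1 := by
      rw [← hQφP₀]
      calc Q₀ * φ * P₀ * (Q₀ * φ' * P₀) = Q₀ * φ * (P₀ * Q₀) * φ' * P₀ := by noncomm_ring
        _ = Q₀ * (φ * φ') * P₀ := by rw [hPQ₀]; noncomm_ring
        _ = 1 := by rw [g.inv, mul_one, hQP₀]
    intro i h0
    have h1 := congrFun (congrFun hprod i) i
    rw [Matrix.diagonal_mul, h0, zero_mul, Matrix.one_apply_eq] at h1
    exact one_ne_zero h1.symm
  obtain ⟨f₀, hf₀, hlog⟩ := zlie_pow hPQ₀ hQP₀ hd₀ hφ₀ (g.torus C₁ hC₁ hC₁φ)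
  -- the matrix `R`
  have hebP : e b * P = P := by rw [hPQ, Matrix.mul_assoc, hQP, Matrix.mul_one]
  have hC₁P : C₁ * P = P * Matrix.diagonal (fun k => f k - c) := by
    calc C₁ * P = C₁ * (e b * P) := by rw [hebP]
      _ = (C₁ * e b) * P := by rw [Matrix.mul_assoc]
      _ = C * (e b * P) := by rw [hC₁e, Matrix.mul_assoc]
      _ = _ := by rw [hebP, hCP]
  have hR1 : ∀ i k, d₀ i * (Q₀ * P) i k = (Q₀ * P) i k * d k := by
    intro i k
    have h1 : Matrix.diagonal d₀ * (Q₀ * P) = (Q₀ * P) * Matrix.diagonal d := by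
      have h2 : Q₀ * φ = Matrix.diagonal d₀ * Q₀ := by
        rw [hφ₀]
        calc Q₀ * (P₀ * Matrix.diagonal d₀ * Q₀) = (Q₀ * P₀) * Matrix.diagonal d₀ * Q₀ := by noncomm_ring
          _ = _ := by rw [hQP₀, one_mul]
      rw [← Matrix.mul_assoc, ← h2, Matrix.mul_assoc, hφP, Matrix.mul_assoc]
    have h3 := congrFun (congrFun h1 i) k
    rwa [Matrix.diagonal_mul, Matrix.mul_diagonal] at h3
  have hR2 : ∀ i k, f₀ i * (Q₀ * P) i k = (Q₀ * P) i k * (f k - c) := by
    intro i k
    have h1 : Matrix.diagonal f₀ * (Q₀ * P) = (Q₀ * P) * Matrix.diagonal (fun k => f k - c) := by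
      have h2 : Q₀ * C₁ = Matrix.diagonal f₀ * Q₀ := by
        rw [hf₀]
        calc Q₀ * (P₀ * Matrix.diagonal f₀ * Q₀) = (Q₀ * P₀) * Matrix.diagonal f₀ * Q₀ := by noncomm_ring
          _ = _ := by rw [hQP₀, one_mul]
      rw [← Matrix.mul_assoc, ← h2, Matrix.mul_assoc, hC₁P, Matrix.mul_assoc]
    have h3 := congrFun (congrFun h1 i) k
    rwa [Matrix.diagonal_mul, Matrix.mul_diagonal] at h3
  have hR3 : ∀ k, ∃ i, (Q₀ * P) i k ≠ 0 := by
    intro k
    by_contra hcon
    push Not at hcon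
    have h1 : (Q * P₀) * (Q₀ * P) = 1 := by
      calc (Q * P₀) * (Q₀ * P) = Q * (P₀ * Q₀) * P := by
            rw [Matrix.mul_assoc, Matrix.mul_assoc, Matrix.mul_assoc]
        _ = 1 := by rw [hPQ₀, Matrix.mul_one, hQP]
    have h2 := congrFun (congrFun h1 k) k
    rw [Matrix.mul_apply, Matrix.one_apply_eq, Finset.sum_eq_zero] at h2
    · exact one_ne_zero h2.symm
    · intro i _
      rw [hcon i, mul_zero]
  choose i hi using hR3
  have hdi : ∀ k, d₀ (i k) = d k := by
    intro k
    have h1 := hR1 (i k) k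
    rw [mul_comm] at h1
    exact mul_left_cancel₀ (hi k) h1
  have hfi : ∀ k, f₀ (i k) = f k - c := by
    intro k
    have h1 := hR2 (i k) k
    rw [mul_comm] at h1
    exact mul_left_cancel₀ (hi k) h1
  intro m hm
  have h1 : ∏ j, d₀ j ^ (∑ k ∈ Finset.univ.filter (fun k => i k = j), m k) = 1 := by
    rw [← hm, ← Finset.prod_fiberwise Finset.univ i (fun k => d k ^ m k)]
    refine Finset.prod_congr rfl fun j _ => ?_
    have h2 : ∀ s : Finset (Fin n), d₀ j ^ (∑ k ∈ s, m k) = ∏ k ∈ s, d₀ j ^ m k := by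
      intro s
      refine Finset.induction_on s ?_ ?_
      · rw [Finset.sum_empty, Finset.prod_empty, zpow_zero]
      · intro a s ha ih
        rw [Finset.sum_insert ha, Finset.prod_insert ha, zpow_add₀ (hd₀ j), ih]
    rw [h2]
    refine Finset.prod_congr rfl fun k hk => ?_
    rw [← hdi k, (Finset.mem_filter.1 hk).2]
  have h2 := hlog _ h1
  rw [← h2, ← Finset.sum_fiberwise Finset.univ i (fun k => (m k : K) * (f k - c))]
  refine Finset.sum_congr rfl fun j _ => ?_
  rw [Int.cast_sum, Finset.sum_mul]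
  refine Finset.sum_congr rfl fun k hk => ?_
  rw [← hfi k, (Finset.mem_filter.1 hk).2]

end Pool.Agent.H76P
end

-- from Lib.H76P.G13
section

/-!
# G13: consequences of the torus condition, in terms of the Lie algebra
-/

set_option autoImplicit false
set_option linter.unusedSectionVars false
namespace Pool.Agent.H76P
open Module Matrix Polynomial Pool.Agent.H53Toric
open Pool.Agent.H76U (IsSplitting split4_of Split4 idem_factor rank_idem_map tw preL cmp)
open Pool.Agent.H76RM (van spanK similD Seed Setup Split comm_span split_of)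
open Pool.Agent.H76T (rK rK_apply img_sub_inf nil_of_zar seed_of_fu monodromy_seed Lc AllIndep
  nroots)
open Pool.Agent.H49M (idc)

theorem G13_eq {ι : Type*} [Fintype ι] [DecidableEq ι] {K : Type*} [Field K] {d f : ι → K}
    (hd : ∀ k, d k ≠ 0) (hf : LogLin d f) {i j : ι} (hij : d i = d j) : f i = f j := by
  have h1 := hf (fun k => Pi.single (M := fun _ => ℤ) i 1 k - Pi.single (M := fun _ => ℤ) j 1 k) (by
    have h2 : ∀ i : ι, ∏ k, d k ^ (Pi.single (M := fun _ => ℤ) i 1 k) = d i := by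
      intro i
      rw [Finset.prod_eq_single i]
      · rw [Pi.single_eq_same, zpow_one]
      · intro k _ hk
        rw [Pi.single_eq_of_ne hk, _root_.zpow_zero]
      · intro hi
        exact absurd (Finset.mem_univ i) hi
    simp only [zpow_sub₀ (hd _)]
    rw [Finset.prod_div_distrib, h2, h2, hij, div_self (hd j)])
  have h3 : ∀ i : ι, ∑ k, ((Pi.single (M := fun _ => ℤ) i 1 k : ℤ) : K) * f k = f i := by
    intro i
    rw [Finset.sum_eq_single i]
    · rw [Pi.single_eq_same, Int.cast_one, one_mul]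
    · intro k _ hk
      rw [Pi.single_eq_of_ne hk, Int.cast_zero, zero_mul]
    · intro hi
      exact absurd (Finset.mem_univ i) hi
  simp only [Int.cast_sub, sub_mul, Finset.sum_sub_distrib] at h1
  rw [h3, h3] at h1
  exact sub_eq_zero.1 h1

theorem G13_act {ι : Type*} [Fintype ι] [DecidableEq ι] {K : Type*} [Field K]
    {P Q x X : Matrix ι ι K} {d f : ι → K}
    (hPQ : P * Q = 1) (hQP : Q * P = 1) (hd : ∀ k, d k ≠ 0)
    (hx : x = P * Matrix.diagonal d * Q) (hX : X = P * Matrix.diagonal f * Q)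
    (hf : LogLin d f) {k : ι} {z : ι → K} (hz : x *ᵥ z = d k • z) : X *ᵥ z = f k • z := by
  have h1 : Matrix.diagonal d *ᵥ (Q *ᵥ z) = d k • (Q *ᵥ z) := by
    rw [← Matrix.mulVec_smul, ← hz, hx, Matrix.mulVec_mulVec, Matrix.mulVec_mulVec,
      ← mul_assoc, ← mul_assoc, hQP, one_mul]
  have h2 : Matrix.diagonal f *ᵥ (Q *ᵥ z) = f k • (Q *ᵥ z) := by
    ext j
    have h3 := congrFun h1 j
    rw [Matrix.mulVec_diagonal, Pi.smul_apply, smul_eq_mul] at h3
    rw [Matrix.mulVec_diagonal, Pi.smul_apply, smul_eq_mul]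
    by_cases hj : (Q *ᵥ z) j = 0
    · rw [hj, mul_zero, mul_zero]
    · rw [G13_eq hd hf (mul_right_cancel₀ hj h3)]
  rw [hX, ← Matrix.mulVec_mulVec, ← Matrix.mulVec_mulVec, h2, Matrix.mulVec_smul,
    Matrix.mulVec_mulVec, hPQ, Matrix.one_mulVec]

variable {ι : Type*} [Fintype ι] [DecidableEq ι] {K : Type*} [Field K] [CharZero K]
variable {B : Type*} [Fintype B] [DecidableEq B] {J : Matrix ι ι K}
  {DD : Submodule K (Matrix ι ι K)} {e : B → Matrix ι ι K} (h : Split J DD e)
  (hJ : Jᵀ = -J) (hdet : IsUnit J.det) {x : Matrix ι ι K} {q : K} (hq : q ≠ 0)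
  (hsim : xᵀ * J * x = q • J) (hxD : ∀ d ∈ DD, x * d = d * x)
  {P Q : Matrix ι ι K} {d : ι → K}
  (hx : x = P * Matrix.diagonal d * Q) (hPQ : P * Q = 1) (hQP : Q * P = 1)
  (hd : ∀ k, d k ≠ 0) {S : Set (Matrix ι ι K)}
  (hlie : ∀ b u, e b *ᵥ u = u → ∃ X ∈ zlie S, (∀ d ∈ DD, X * d = d * X) ∧
    (∀ z, X *ᵥ (e b *ᵥ z) = om J z u • u) ∧ ∀ c, c ≠ b → X * e c = 0)
  (htor : ∀ X ∈ zlie S, X * x = x * X → X ∈ zlie {m | ∃ n : ℕ, m = x ^ n})

include h hJ hq hsim hxD hlie htor in
/-- PROOF. `X = X_{v + w} - X_v - X_w` with `X_u` as in `hlie`.  On `e b z`: `om z (v + w) • (v + w) - om z v • v - om z w • w =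
om z w • v + om z v • w`.  `X` commutes with `x`: both `X * x` and `x * X` commute with `DD`; by `Split.ext_comm` it is enough to compare
`X * x * e c` and `x * X * e c`.  `x` commutes with `e c`; for `c ≠ b` both are `0`; for `c = b` apply them to `z`: with `H76T.eig_form`
`om (x z) w = a * om z w` and `om (x z) v = a' * om z v`, so both are `(a * om z w) • v + (a' * om z v) • w`.  `htor`. -/
theorem lie_pair {b : B} {v w : ι → K} {a a' : K} (haa : a * a' = q) (ha : a ≠ 0)
    (ha' : a' ≠ 0) (hbv : e b *ᵥ v = v) (hbw : e b *ᵥ w = w) (hv : x *ᵥ v = a • v)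
    (hw : x *ᵥ w = a' • w) :
    ∃ X ∈ zlie {m : Matrix ι ι K | ∃ n : ℕ, m = x ^ n},
      (∀ z, X *ᵥ (e b *ᵥ z) = om J z w • v + om J z v • w) ∧ ∀ c, c ≠ b → X * e c = 0 := by
  obtain ⟨X₁, hs1, hD1, hX1, hc1⟩ := hlie b (v + w) (by rw [Matrix.mulVec_add, hbv, hbw])
  obtain ⟨X₂, hs2, hD2, hX2, hc2⟩ := hlie b v hbv
  obtain ⟨X₃, hs3, hD3, hX3, hc3⟩ := hlie b w hbw
  set X := X₁ - X₂ - X₃ with hX
  have hXs : X ∈ zlie S := Submodule.sub_mem _ (Submodule.sub_mem _ hs1 hs2) hs3
  have hXD : ∀ d ∈ DD, X * d = d * X := by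
    intro d hd
    rw [hX, sub_mul, sub_mul, mul_sub, mul_sub, hD1 d hd, hD2 d hd, hD3 d hd]
  have hXc : ∀ c, c ≠ b → X * e c = 0 := by
    intro c hc
    rw [hX, sub_mul, sub_mul, hc1 c hc, hc2 c hc, hc3 c hc]
    simp
  have hXb : ∀ z, X *ᵥ (e b *ᵥ z) = om J z w • v + om J z v • w := by
    intro z
    rw [hX, Matrix.sub_mulVec, Matrix.sub_mulVec, hX1, hX2, hX3, map_add]
    module
  have hxe : ∀ c, x * e c = e c * x := fun c => hxD _ (h.mem c)
  have hXx : X * x = x * X := by
    apply h.ext_comm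
    · intro d hd
      rw [mul_assoc, hxD d hd, ← mul_assoc, hXD d hd, mul_assoc]
    · intro d hd
      rw [mul_assoc, hXD d hd, ← mul_assoc, hxD d hd, mul_assoc]
    · intro c
      by_cases hc : c = b
      · subst hc
        apply H76T.mat_ext
        intro z
        have e1 : om J (x *ᵥ z) w = a * om J z w :=
          H76T.eig_form hsim (by rw [mul_comm]; exact haa) ha' hw z
        have e2 : om J (x *ᵥ z) v = a' * om J z v := H76T.eig_form hsim haa ha hv z
        rw [mul_assoc, hxe, ← mul_assoc, ← Matrix.mulVec_mulVec, ← Matrix.mulVec_mulVec, hXb,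
          mul_assoc, ← Matrix.mulVec_mulVec, ← Matrix.mulVec_mulVec, hXb, Matrix.mulVec_add,
          Matrix.mulVec_smul, Matrix.mulVec_smul, hv, hw, e1, e2]
        module
      · rw [mul_assoc, hxe, ← mul_assoc, hXc c hc, zero_mul, mul_assoc, hXc c hc, mul_zero]
  exact ⟨X, htor X hXs hXx, hXb, hXc⟩

include h hJ hdet hq hsim hxD hx hPQ hQP hd hlie htor in
/-- PROOF. `lie_pair` gives `X`; `zlie_pow` gives `X = P * diagonal f * Q`, `LogLin d f`; for `d i = d j` the relation
`d i * (d j)⁻¹ = 1` gives `f i = f j`; so `X` acts on each eigenspace of `x` by a scalar: `x z = d k • z` implies `X z = f k • z` (expand `z` in the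
basis of the columns of `P`).  `X v = om v w • v + om v v • w = v`, so `f k₀ = 1`.  `X w = -w`.  If `d k₀ * d k₀ = q` then `w` has eigenvalue
`q / d k₀ = d k₀`, so `X w = w = -w`, `w = 0`, contradiction.  Let `x z = d k₀ • z`.  `c ≠ b`: `e c z` has the same eigenvalue, so
`e c z = X (e c z) = 0`.  `b`: `e b z = X (e b z) = om z w • v + om z v • w` and `om z v = 0`: `q * om z v = om (x z) (x v) = d k₀ ^ 2 * om z v`. -/
theorem torus_simple' {b : B} {v w : ι → K} {k₀ : ι}
    (hbv : e b *ᵥ v = v) (hbw : e b *ᵥ w = w) (hv : x *ᵥ v = d k₀ • v)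
    (hw : x *ᵥ w = (q / d k₀) • w) (hvw : om J v w = 1) :
    (∀ c, c ≠ b → ∀ z, x *ᵥ z = d k₀ • z → e c *ᵥ z = 0) ∧
    (∀ z, x *ᵥ z = d k₀ • z → e b *ᵥ z = om J z w • v) ∧ d k₀ * d k₀ ≠ q := by
  have haa : d k₀ * (q / d k₀) = q := mul_div_cancel₀ q (hd k₀)
  obtain ⟨X, hXz, hXb, hXc⟩ := lie_pair h hJ hq hsim hxD hlie htor haa (hd k₀)
    (div_ne_zero hq (hd k₀)) hbv hbw hv hw
  obtain ⟨f, hXf, hf⟩ := zlie_pow hPQ hQP hd hx hXz
  have hwv : om J w v = -1 := by rw [omega_antisymm (om_alt hJ), hvw]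
  have halt : ∀ u, om J u u = 0 := om_alt hJ
  have hv0 : v ≠ 0 := by
    rintro rfl
    rw [map_zero, LinearMap.zero_apply] at hvw
    exact zero_ne_one hvw
  have hw0 : w ≠ 0 := by
    rintro rfl
    rw [map_zero] at hvw
    exact zero_ne_one hvw
  have hXv : X *ᵥ v = v := by
    have := hXb v
    rwa [hbv, hvw, halt, one_smul, zero_smul, add_zero] at this
  have hXw : X *ᵥ w = -w := by
    have := hXb w
    rwa [hbw, hwv, halt, zero_smul, neg_smul, one_smul, zero_add] at this
  have hact : ∀ {k : ι} {z : ι → K}, x *ᵥ z = d k • z → X *ᵥ z = f k • z :=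
    fun hz => G13_act hPQ hQP hd hx hXf hf hz
  have hfk : f k₀ = 1 := by
    have h1 := hact hv
    rw [hXv] at h1
    have h2 : (f k₀ - 1) • v = 0 := by rw [sub_smul, one_smul, ← h1, sub_self]
    exact sub_eq_zero.1 ((smul_eq_zero.1 h2).resolve_right hv0)
  have hne : d k₀ * d k₀ ≠ q := by
    intro hsq
    have e1 : q / d k₀ = d k₀ := by rw [← hsq, mul_div_assoc, div_self (hd k₀), mul_one]
    rw [e1] at hw
    have e2 := hact hw
    rw [hXw, hfk, one_smul] at e2
    have e3 : (2 : K) • w = 0 := by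
      have : (2 : K) • w = w - (-w) := by module
      rw [this, e2, sub_self]
    exact hw0 ((smul_eq_zero.1 e3).resolve_left (by norm_num))
  have hxe : ∀ c, x * e c = e c * x := fun c => hxD _ (h.mem c)
  have hez : ∀ c z, x *ᵥ z = d k₀ • z → x *ᵥ (e c *ᵥ z) = d k₀ • (e c *ᵥ z) := by
    intro c z hz
    rw [Matrix.mulVec_mulVec, hxe, ← Matrix.mulVec_mulVec, hz, Matrix.mulVec_smul]
  refine ⟨?_, ?_, hne⟩
  · intro c hc z hz
    have h1 := hact (hez c z hz)
    rw [Matrix.mulVec_mulVec, hXc c hc, Matrix.zero_mulVec, hfk, one_smul] at h1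
    exact h1.symm
  · intro z hz
    have h1 := hact (hez b z hz)
    have h2 : om J z v = 0 := by
      have e5 : om J (x *ᵥ z) (x *ᵥ v) = q * om J z v := by
        rw [om_mul, hsim, om_apply, om_apply, Matrix.smul_mulVec, dotProduct_smul, smul_eq_mul]
      rw [hz, hv, map_smul, map_smul, LinearMap.smul_apply, smul_eq_mul, smul_eq_mul] at e5
      have e6 : (d k₀ * d k₀ - q) * om J z v = 0 := by linear_combination e5
      exact (mul_eq_zero.1 e6).resolve_left (sub_ne_zero.2 hne)
    rw [hXb, hfk, one_smul, h2, zero_smul, add_zero] at h1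
    exact h1.symm

open Classical in
include h hJ hdet hq hsim hxD hx hPQ hQP hd hlie htor in
/-- PROOF. `H76T.eig_pair` gives `b`, `v`, `w`; `lie_pair`, `zlie_pow` give `X = P * diagonal f * Q`, `LogLin d f`; as in `torus_simple'` `f k = 1` if
`d k = d k₀`, `f k = -1` if `d k = q / d k₀`, and `f k = 0` for all other `k` (`H76T.eig_comp` gives an eigenvector `z = e c z`; if `c ≠ b` then
`X z = 0`; if `c = b` then `om z w = 0 = om z v`, see the proof of `H76T.torus_rel`).  So `LogLin` for `m` is the assertion. -/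
theorem torus_rel' (k₀ : ι) (m : ι → ℤ) (hm : ∏ k, d k ^ m k = 1) :
    ∑ k, (if d k = d k₀ then m k else 0) = ∑ k, (if d k = q / d k₀ then m k else 0) := by
  obtain ⟨b, v, w, hbv, hbw, hv, hw, hvw⟩ :=
    H76T.eig_pair h hdet hq hsim hxD hx hPQ hQP hd k₀
  have haa : d k₀ * (q / d k₀) = q := mul_div_cancel₀ q (hd k₀)
  obtain ⟨X, hXz, hXb, hXc⟩ := lie_pair h hJ hq hsim hxD hlie htor haa (hd k₀)
    (div_ne_zero hq (hd k₀)) hbv hbw hv hw
  obtain ⟨-, -, hne⟩ := torus_simple' h hJ hdet hq hsim hxD hx hPQ hQP hd hlie htor hbv hbw hv hw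
    hvw
  obtain ⟨f, hXf, hf⟩ := zlie_pow hPQ hQP hd hx hXz
  have hne' : q / d k₀ ≠ d k₀ := by
    intro h0
    apply hne
    nth_rw 2 [← h0]
    exact haa
  have hwv : om J w v = -1 := by rw [omega_antisymm (om_alt hJ), hvw]
  have halt : ∀ u, om J u u = 0 := om_alt hJ
  have hv0 : v ≠ 0 := by
    rintro rfl
    rw [map_zero, LinearMap.zero_apply] at hvw
    exact zero_ne_one hvw
  have hw0 : w ≠ 0 := by
    rintro rfl
    rw [map_zero] at hvw
    exact zero_ne_one hvw
  have hXv : X *ᵥ v = v := by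
    have := hXb v
    rwa [hbv, hvw, halt, one_smul, zero_smul, add_zero] at this
  have hXw : X *ᵥ w = -w := by
    have := hXb w
    rwa [hbw, hwv, halt, zero_smul, neg_smul, one_smul, zero_add] at this
  have hact : ∀ {k : ι} {z : ι → K}, x *ᵥ z = d k • z → X *ᵥ z = f k • z :=
    fun hz => G13_act hPQ hQP hd hx hXf hf hz
  have hc1 : ∀ k, d k = d k₀ → f k = 1 := by
    intro k hk
    have e1 : x *ᵥ v = d k • v := by rw [hk]; exact hv
    have h1 := hact e1
    rw [hXv] at h1
    have h2 : (f k - 1) • v = 0 := by rw [sub_smul, one_smul, ← h1, sub_self]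
    exact sub_eq_zero.1 ((smul_eq_zero.1 h2).resolve_right hv0)
  have hc2 : ∀ k, d k = q / d k₀ → f k = -1 := by
    intro k hk
    have e1 : x *ᵥ w = d k • w := by rw [hk]; exact hw
    have h1 := hact e1
    rw [hXw] at h1
    have h2 : (f k + 1) • w = 0 := by rw [add_smul, one_smul, ← h1, neg_add_cancel]
    exact eq_neg_of_add_eq_zero_left ((smul_eq_zero.1 h2).resolve_right hw0)
  have hc3 : ∀ k, d k ≠ d k₀ → d k ≠ q / d k₀ → f k = 0 := by
    intro k hk1 hk2
    obtain ⟨c, z, hz0, hcz, hz⟩ := H76T.eig_comp h hxD hx hPQ hQP k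
    have e2 := hact hz
    have e3 : X *ᵥ z = 0 := by
      by_cases hc : c = b
      · subst hc
        have e4 : ∀ {u : ι → K} {a : K}, x *ᵥ u = a • u → d k * a ≠ q → om J z u = 0 := by
          intro u a hu hne
          have e5 : om J (x *ᵥ z) (x *ᵥ u) = q * om J z u := by
            rw [om_mul, hsim, om_apply, om_apply, Matrix.smul_mulVec, dotProduct_smul,
              smul_eq_mul]
          rw [hz, hu, map_smul, map_smul, LinearMap.smul_apply, smul_eq_mul, smul_eq_mul] at e5
          have e6 : (d k * a - q) * om J z u = 0 := by linear_combination e5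
          exact (mul_eq_zero.1 e6).resolve_left (sub_ne_zero.2 hne)
        have e5 := hXb z
        rw [hcz, e4 hw (fun h0 => hk1 (mul_right_cancel₀ (div_ne_zero hq (hd k₀))
          (h0.trans haa.symm))), e4 hv (fun h0 => hk2 (by
            rw [← h0, mul_div_assoc, div_self (hd k₀), mul_one]))] at e5
        rw [e5, zero_smul, zero_smul, add_zero]
      · have e4 := congrArg (fun X => X *ᵥ z) (hXc c hc)
        simp only [← Matrix.mulVec_mulVec, hcz, Matrix.zero_mulVec] at e4
        exact e4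
    rw [e3] at e2
    exact (smul_eq_zero.1 e2.symm).resolve_right hz0
  have hc : ∀ k, (m k : K) * f k = (((if d k = d k₀ then m k else 0) -
      (if d k = q / d k₀ then m k else 0) : ℤ) : K) := by
    intro k
    by_cases h4 : d k = d k₀
    · have h5 : d k ≠ q / d k₀ := fun h6 => hne' (h6.symm.trans h4)
      rw [hc1 k h4, if_pos h4, if_neg h5, sub_zero, mul_one]
    · by_cases h5 : d k = q / d k₀
      · rw [hc2 k h5, if_neg h4, if_pos h5, zero_sub, Int.cast_neg, mul_neg, mul_one]
      · rw [hc3 k h4 h5, if_neg h4, if_neg h5, sub_zero, Int.cast_zero, mul_zero]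
  have h6 := hf m hm
  simp only [hc] at h6
  rw [← Int.cast_sum, Int.cast_eq_zero, Finset.sum_sub_distrib] at h6
  exact sub_eq_zero.1 h6

end Pool.Agent.H76P
end

-- from Lib.H76P.G14
section

/-!
# G14: independence of the roots
-/

set_option autoImplicit false
set_option linter.unusedSectionVars false
namespace Pool.Agent.H76P
open Module Matrix Polynomial Pool.Agent.H53Toric
open Pool.Agent.H76U (IsSplitting split4_of Split4 idem_factor rank_idem_map tw preL cmp)
open Pool.Agent.H76RM (van spanK similD Seed Setup Split comm_span split_of)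
open Pool.Agent.H76T (rK rK_apply img_sub_inf nil_of_zar seed_of_fu monodromy_seed Lc AllIndep
  nroots)
open Pool.Agent.H76T (eig_pair pj pj_comm x_pj pj_eig rank_pos_of_ne rank_total mat_ext root_iff aeval_emb
  embQ eig_mem others)
open Pool.Agent.H49M (idc)

section
variable {ι : Type*} [Fintype ι] [DecidableEq ι] {K : Type*} [Field K] [CharZero K]
variable {B : Type*} [Fintype B] [DecidableEq B] {J : Matrix ι ι K}
  {DD : Submodule K (Matrix ι ι K)} {e : B → Matrix ι ι K} (h : Split J DD e)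
  (hJ : Jᵀ = -J) (hdet : IsUnit J.det) {x : Matrix ι ι K} {q : K} (hq : q ≠ 0)
  (hsim : xᵀ * J * x = q • J) (hxD : ∀ d ∈ DD, x * d = d * x)
  {P Q : Matrix ι ι K} {d : ι → K}
  (hx : x = P * Matrix.diagonal d * Q) (hPQ : P * Q = 1) (hQP : Q * P = 1)
  (hd : ∀ k, d k ≠ 0) {S : Set (Matrix ι ι K)}
  (hlie : ∀ b u, e b *ᵥ u = u → ∃ X ∈ zlie S, (∀ d ∈ DD, X * d = d * X) ∧
    (∀ z, X *ᵥ (e b *ᵥ z) = om J z u • u) ∧ ∀ c, c ≠ b → X * e c = 0)
  (htor : ∀ X ∈ zlie S, X * x = x * X → X ∈ zlie {m | ∃ n : ℕ, m = x ^ n})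

include h hJ hdet hq hsim hxD hx hPQ hQP hd hlie htor in
/-- PROOF. Copy of `H76T.mult_one` (H76T/TD5.lean) with `torus_simple'`. -/
theorem mult_one' (k : ι) : ∑ b, (H76T.pj P Q d (d k) * e b).rank = 1 := by
  obtain ⟨b, v, w, hbv, hbw, hv, hw, hvw⟩ := eig_pair h hdet hq hsim hxD hx hPQ hQP hd k
  obtain ⟨h1, h2, -⟩ := torus_simple' h hJ hdet hq hsim hxD hx hPQ hQP hd hlie htor hbv hbw hv hw
    hvw
  have hxpj : ∀ z, x *ᵥ (pj P Q d (d k) *ᵥ z) = d k • (pj P Q d (d k) *ᵥ z) := by
    intro z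
    rw [Matrix.mulVec_mulVec, x_pj hx hQP, Matrix.smul_mulVec]
  have hc : ∀ c, pj P Q d (d k) * e c = e c * pj P Q d (d k) := fun c =>
    (pj_comm hx hQP hPQ (hxD _ (h.mem c)).symm (d k)).symm
  rw [Finset.sum_eq_single b]
  · apply le_antisymm
    · have h3 : (pj P Q d (d k) * e b).rank ≤ 1 := by
        apply finrank_le_one (R := K) (M := LinearMap.range (pj P Q d (d k) * e b).mulVecLin)
          ⟨v, ⟨v, by
            rw [Matrix.mulVecLin_apply, ← Matrix.mulVec_mulVec, hbv, pj_eig hx hQP hPQ hv]⟩⟩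
        rintro ⟨_, ⟨z, rfl⟩⟩
        refine ⟨om J (pj P Q d (d k) *ᵥ z) w, ?_⟩
        apply Subtype.ext
        change om J (pj P Q d (d k) *ᵥ z) w • v = (pj P Q d (d k) * e b) *ᵥ z
        rw [hc, ← Matrix.mulVec_mulVec, h2 _ (hxpj z)]
      exact h3
    · apply rank_pos_of_ne
      intro h0
      have hv0 : v ≠ 0 := by
        rintro rfl
        rw [map_zero, LinearMap.zero_apply] at hvw
        exact zero_ne_one hvw
      apply hv0
      have h3 := congrArg (fun X => X *ᵥ v) h0
      simp only [← Matrix.mulVec_mulVec, hbv, Matrix.zero_mulVec] at h3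
      rwa [pj_eig hx hQP hPQ hv] at h3
  · intro c _ hcb
    have h3 : pj P Q d (d k) * e c = 0 := by
      apply mat_ext
      intro z
      rw [hc, ← Matrix.mulVec_mulVec, h1 c hcb _ (hxpj z), Matrix.zero_mulVec]
    rw [h3, Matrix.rank_zero]
  · intro hb
    exact absurd (Finset.mem_univ b) hb

open Classical in
include h hJ hdet hq hsim hxD hx hPQ hQP hd hlie htor in
/-- PROOF. Copy of `H76T.card_eig`. -/
theorem card_eig' : (Finset.univ.image d).card = ∑ b, (e b).rank := by
  rw [rank_total h hxD hx hPQ hQP, Finset.card_eq_sum_ones]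
  apply Finset.sum_congr rfl
  intro a ha
  obtain ⟨k, -, rfl⟩ := Finset.mem_image.1 ha
  exact (mult_one' h hJ hdet hq hsim hxD hx hPQ hQP hd hlie htor k).symm

end

section
variable {ι : Type*} [Fintype ι] [DecidableEq ι] {K : Type*} [Field K] [CharZero K]
variable {B : Type*} [Fintype B] [DecidableEq B] {J : Matrix ι ι K}
  {DD : Submodule K (Matrix ι ι K)} {e : B → Matrix ι ι K} (h : Split J DD e)
  (hJ : Jᵀ = -J) (hdet : IsUnit J.det) {x : Matrix ι ι K} {q : ℚ} (hq : algebraMap ℚ K q ≠ 0)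
  (hsim : xᵀ * J * x = algebraMap ℚ K q • J) (hxD : ∀ d ∈ DD, x * d = d * x)
  {P Q : Matrix ι ι K} {d : ι → K}
  (hx : x = P * Matrix.diagonal d * Q) (hPQ : P * Q = 1) (hQP : Q * P = 1)
  (hd : ∀ k, d k ≠ 0) {S : Set (Matrix ι ι K)}
  (hlie : ∀ b u, e b *ᵥ u = u → ∃ X ∈ zlie S, (∀ d ∈ DD, X * d = d * X) ∧
    (∀ z, X *ᵥ (e b *ᵥ z) = om J z u • u) ∧ ∀ c, c ≠ b → X * e c = 0)
  (htor : ∀ X ∈ zlie S, X * x = x * X → X ∈ zlie {m | ∃ n : ℕ, m = x ^ n})

variable [IsAlgClosed K] {F : ℚ[X]} (hchar : F.map (algebraMap ℚ K) = ∏ k, (X - C (d k)))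

include h hJ hdet hq hsim hxD hx hPQ hQP hd hlie htor hchar in
/-- PROOF. Copy of `H76T.all_indep` (H76T/TD7.lean) with `torus_simple'` and `torus_rel'`. -/
theorem all_indep' : AllIndep F q (AlgebraicClosure ℚ) := by
  classical
  intro α hα
  obtain ⟨k₀, hk₀⟩ := (root_iff hchar).1 ((aeval_emb (K := K) (α : AlgebraicClosure ℚ)).2 hα)
  obtain ⟨b, v, w, hbv, hbw, hv, hw, hvw⟩ := eig_pair h hdet hq hsim hxD hx hPQ hQP hd k₀
  obtain ⟨-, -, hne⟩ := torus_simple' h hJ hdet hq hsim hxD hx hPQ hQP hd hlie htor hbv hbw hv hw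
    hvw
  have hw0 : w ≠ 0 := by
    rintro rfl
    rw [map_zero] at hvw
    exact zero_ne_one hvw
  obtain ⟨k₁, hk₁⟩ := eig_mem hx hPQ hQP hw hw0
  have haa : d k₀ * (algebraMap ℚ K q / d k₀) = algebraMap ℚ K q := mul_div_cancel₀ _ (hd k₀)
  have hne' : algebraMap ℚ K q / d k₀ ≠ d k₀ := by
    intro h0
    apply hne
    nth_rw 2 [← h0]
    exact haa
  have hrel := torus_rel' h hJ hdet hq hsim hxD hx hPQ hQP hd hlie htor k₀
  constructor
  · intro h1
    have h2 := congrArg (embQ K) h1
    rw [map_mul, AlgHom.commutes, ← hk₀] at h2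
    exact hne h2
  intro n hn hmem
  have key : ∀ u ∈ others F q α, ∃ m : ι → ℤ,
      ∑ k, (if d k = d k₀ then m k else 0) =
        ∑ k, (if d k = algebraMap ℚ K q / d k₀ then m k else 0) ∧
      embQ K (u : AlgebraicClosure ℚ) = ∏ k, d k ^ m k := by
    intro u hu
    induction hu using Subgroup.closure_induction with
    | mem u hu =>
      rcases hu with hu | ⟨h1, h2, h3⟩
      · refine ⟨Pi.single k₀ 1 + Pi.single k₁ 1, ?_, ?_⟩
        · simp only [Pi.add_apply, ite_add_zero]
          rw [Finset.sum_add_distrib, Finset.sum_add_distrib]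
          have e1 : ∀ (a : K) (k' : ι), ∑ k, (if d k = a then
              (Pi.single k' (1 : ℤ) : ι → ℤ) k else 0) = if d k' = a then 1 else 0 := by
            intro a k'
            rw [Finset.sum_eq_single k']
            · rw [Pi.single_eq_same]
            · intro k _ hk
              rw [Pi.single_eq_of_ne hk]
              split_ifs <;> rfl
            · intro hk
              exact absurd (Finset.mem_univ _) hk
          rw [e1, e1, e1, e1, if_pos rfl, hk₁, if_neg hne', if_neg (Ne.symm hne'), if_pos rfl]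
          norm_num
        · rw [hu, AlgHom.commutes]
          have e1 : ∏ k, d k ^ (Pi.single k₀ (1 : ℤ) + Pi.single k₁ (1 : ℤ) : ι → ℤ) k =
              (∏ k, d k ^ (Pi.single k₀ (1 : ℤ) : ι → ℤ) k) *
              ∏ k, d k ^ (Pi.single k₁ (1 : ℤ) : ι → ℤ) k := by
            rw [← Finset.prod_mul_distrib]
            exact Finset.prod_congr rfl fun k _ => by rw [Pi.add_apply, zpow_add₀ (hd k)]
          have e2 : ∀ k' : ι, ∏ k, d k ^ (Pi.single k' (1 : ℤ) : ι → ℤ) k = d k' := by
            intro k'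
            rw [Finset.prod_eq_single k']
            · rw [Pi.single_eq_same, zpow_one]
            · intro k _ hk
              rw [Pi.single_eq_of_ne hk, _root_.zpow_zero]
            · intro hk
              exact absurd (Finset.mem_univ _) hk
          rw [e1, e2, e2, hk₁, haa]
      · obtain ⟨k, hk⟩ := (root_iff hchar).1 ((aeval_emb (K := K) (u : AlgebraicClosure ℚ)).2 h1)
        have hinj : Function.Injective (embQ K) := (embQ K).toRingHom.injective
        have hk1 : d k ≠ d k₀ := by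
          intro h4
          apply h2
          apply Units.ext
          apply hinj
          rw [← hk, h4, hk₀]
        have hk2 : d k ≠ algebraMap ℚ K q / d k₀ := by
          intro h4
          apply h3
          apply hinj
          rw [map_mul, AlgHom.commutes, ← hk, ← hk₀, h4, mul_comm, haa]
        refine ⟨Pi.single k 1, ?_, ?_⟩
        · have e1 : ∀ (a : K), d k ≠ a → ∑ k'', (if d k'' = a then
              (Pi.single k (1 : ℤ) : ι → ℤ) k'' else 0) = 0 := by
            intro a ha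
            apply Finset.sum_eq_zero
            intro k'' _
            by_cases h5 : k'' = k
            · rw [h5, if_neg ha]
            · rw [Pi.single_eq_of_ne h5]
              split_ifs <;> rfl
          rw [e1 _ hk1, e1 _ hk2]
        · rw [← hk, Finset.prod_eq_single k]
          · rw [Pi.single_eq_same, zpow_one]
          · intro k'' _ hk''
            rw [Pi.single_eq_of_ne hk'', _root_.zpow_zero]
          · intro hk''
            exact absurd (Finset.mem_univ _) hk''
    | one => exact ⟨fun _ => 0, by simp, by simp⟩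
    | mul u v _ _ hu hv =>
      obtain ⟨m, h1, h2⟩ := hu
      obtain ⟨m', h1', h2'⟩ := hv
      refine ⟨m + m', ?_, ?_⟩
      · simp only [Pi.add_apply, ite_add_zero]
        rw [Finset.sum_add_distrib, Finset.sum_add_distrib, h1, h1']
      · rw [Units.val_mul, map_mul, h2, h2', ← Finset.prod_mul_distrib]
        exact Finset.prod_congr rfl fun k _ => by rw [Pi.add_apply, zpow_add₀ (hd k)]
    | inv u _ hu =>
      obtain ⟨m, h1, h2⟩ := hu
      refine ⟨-m, ?_, ?_⟩
      · have e1 : ∀ a : K, ∑ k, (if d k = a then (-m) k else 0) =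
            -∑ k, (if d k = a then m k else 0) := by
          intro a
          rw [← Finset.sum_neg_distrib]
          apply Finset.sum_congr rfl
          intro k _
          split_ifs
          · rfl
          · rw [neg_zero]
        rw [e1, e1, h1]
      · rw [Units.val_inv_eq_inv_val, map_inv₀, h2, ← Finset.prod_inv_distrib]
        exact Finset.prod_congr rfl fun k _ => by rw [Pi.neg_apply, _root_.zpow_neg]
  obtain ⟨m, h1, h2⟩ := key _ hmem
  have h3 : ∏ k, d k ^ (m - Pi.single k₀ n : ι → ℤ) k = 1 := by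
    have e1 : ∏ k, d k ^ (m - Pi.single k₀ n : ι → ℤ) k =
        (∏ k, d k ^ m k) / ∏ k, d k ^ (Pi.single k₀ n : ι → ℤ) k := by
      rw [← Finset.prod_div_distrib]
      exact Finset.prod_congr rfl fun k _ => by rw [Pi.sub_apply, zpow_sub₀ (hd k)]
    have e2 : ∏ k, d k ^ (Pi.single k₀ n : ι → ℤ) k = d k₀ ^ n := by
      rw [Finset.prod_eq_single k₀]
      · rw [Pi.single_eq_same]
      · intro k _ hk
        rw [Pi.single_eq_of_ne hk, _root_.zpow_zero]
      · intro hk
        exact absurd (Finset.mem_univ _) hk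
    rw [e1, e2, ← h2, Units.val_zpow_eq_zpow_val, map_zpow₀, ← hk₀,
      div_self (zpow_ne_zero _ (hd k₀))]
  have h4 := hrel _ h3
  have e1 : ∀ a : K, ∑ k, (if d k = a then (m - Pi.single k₀ n : ι → ℤ) k else 0) =
      ∑ k, (if d k = a then m k else 0) - (if d k₀ = a then n else 0) := by
    intro a
    have e2 : ∑ k, (if d k = a then (Pi.single k₀ n : ι → ℤ) k else 0) =
        if d k₀ = a then n else 0 := by
      rw [Finset.sum_eq_single k₀]
      · rw [Pi.single_eq_same]
      · intro k _ hk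
        rw [Pi.single_eq_of_ne hk]
        split_ifs <;> rfl
      · intro hk
        exact absurd (Finset.mem_univ _) hk
    rw [← e2, ← Finset.sum_sub_distrib]
    apply Finset.sum_congr rfl
    intro k _
    split_ifs
    · rfl
    · rw [sub_zero]
  rw [e1, e1, h1, if_pos rfl, if_neg (Ne.symm hne')] at h4
  omega

end

end Pool.Agent.H76P
end

-- from Lib.H76P.G11
section

/-!
# G11: eigenbases of the components
-/

set_option autoImplicit false
set_option linter.unusedSectionVars false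
namespace Pool.Agent.H76P
open Module Matrix Polynomial Pool.Agent.H53Toric
open Pool.Agent.H76U (IsSplitting split4_of Split4 idem_factor rank_idem_map tw preL cmp)
open Pool.Agent.H76RM (van spanK similD Seed Setup Split comm_span split_of)
open Pool.Agent.H76T (rK rK_apply img_sub_inf nil_of_zar seed_of_fu monodromy_seed Lc AllIndep
  nroots)
open Pool.Agent.H49M (idc)

variable {ι : Type*} [Fintype ι] [DecidableEq ι] {K : Type*} [Field K] [CharZero K]

/-- `idem_factor` for a given basis of the range. -/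
theorem g11_factor {p : Matrix ι ι K} (hp : p * p = p)
    (bs : Basis (Fin p.rank) K (LinearMap.range p.mulVecLin)) :
    ∃ Q : Matrix (Fin p.rank) ι K, p = (Matrix.of fun i j => (bs j).1 i) * Q ∧
      Q * (Matrix.of fun i j => (bs j).1 i) = 1 := by
  set P : Matrix ι (Fin p.rank) K := Matrix.of fun i j => (bs j).1 i with hP
  set Q : Matrix (Fin p.rank) ι K :=
    Matrix.of fun j i => bs.repr ⟨p *ᵥ Pi.single i 1, ⟨Pi.single i 1, rfl⟩⟩ j with hQ
  have hpb : ∀ j, p *ᵥ (bs j).1 = (bs j).1 := by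
    intro j
    obtain ⟨z, hz⟩ := (bs j).2
    rw [← hz, Matrix.mulVecLin_apply, Matrix.mulVec_mulVec, hp]
  have hPQ : p = P * Q := by
    ext i k
    rw [Matrix.mul_apply]
    have h1 := congrArg Subtype.val (bs.sum_repr ⟨p *ᵥ Pi.single k 1, ⟨Pi.single k 1, rfl⟩⟩)
    rw [Submodule.coe_sum] at h1
    have h2 := congrFun h1 i
    rw [Finset.sum_apply] at h2
    have h3 : (p *ᵥ Pi.single k 1) i = p i k := by
      rw [Matrix.mulVec_single_one]; rfl
    rw [← h3]
    change (p *ᵥ Pi.single k 1) i = _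
    have h4 : (⟨p *ᵥ Pi.single k 1, ⟨Pi.single k 1, rfl⟩⟩ : LinearMap.range p.mulVecLin).1 = p *ᵥ Pi.single k 1 := rfl
    rw [← h4, ← h2]
    apply Finset.sum_congr rfl
    intro j _
    simp only [hP, hQ, Matrix.of_apply, Submodule.coe_smul, Pi.smul_apply, smul_eq_mul]
    rw [mul_comm]
  refine ⟨Q, hPQ, ?_⟩
  -- `P` is injective
  have hinj : ∀ v : Fin p.rank → K, P *ᵥ v = 0 → v = 0 := by
    intro v hv
    have h1 : ∑ j, v j • bs j = 0 := by
      apply Subtype.ext
      rw [Submodule.coe_sum]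
      funext i
      have h2 := congrFun hv i
      rw [Matrix.mulVec, dotProduct] at h2
      rw [Finset.sum_apply]
      simp only [Submodule.coe_smul, Pi.smul_apply, smul_eq_mul]
      have h5 : ((0 : LinearMap.range p.mulVecLin) : ι → K) i = (0 : ι → K) i := rfl
      rw [h5, ← h2]
      apply Finset.sum_congr rfl
      intro j _
      simp only [hP, Matrix.of_apply]
      ring
    have h2 := Fintype.linearIndependent_iff.1 bs.linearIndependent v h1
    funext j
    exact h2 j
  have hpP : p * P = P := by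
    ext i j
    have := congrFun (hpb j) i
    rw [Matrix.mul_apply]
    rw [Matrix.mulVec, dotProduct] at this
    exact this
  set R : Matrix (Fin p.rank) (Fin p.rank) K := Q * P - 1 with hR
  have h3 : P * R = 0 := by
    rw [hR, Matrix.mul_sub, ← Matrix.mul_assoc, ← hPQ, hpP, Matrix.mul_one, sub_self]
  rw [← sub_eq_zero, ← hR]
  ext i j
  have h4 := hinj (fun k => R k j) (by
    funext k
    have := congrFun (congrFun h3 k) j
    rw [Matrix.mul_apply] at this
    rw [Matrix.mulVec, dotProduct]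
    exact this)
  exact congrFun h4 i

/-- PROOF. The range `W` of `p` is stable under `φ` and `φ` is diagonalisable, so `W` has a basis of eigenvectors of `φ`: the projectors on the
eigenspaces of `φ` are polynomials in `φ` (or `H76T.pj`), commute with `p`, and their sum is `1`, so `W` is the direct sum of its intersections
with the eigenspaces; by `hsimple` each of these has dimension at most one.  The columns of `P` are these eigenvectors
(`p.rank` = the dimension of `W`), `Q = ` the coordinates of `p z`: since the columns of `P` are a basis of the range of `p` there is a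
matrix `Q` with `p = P * Q`, and `p * P = P` gives `P * (Q * P) = P`, so `Q * P = 1` (the columns are linearly independent).  Different
columns have different eigenvalues by `hsimple`; eigenvalues are not zero because of `hdet`.  (Compare `H76U.idem_factor`; one can
also start with `P₀`, `Q₀` from `idem_factor`, diagonalise `Q₀ * φ * P₀ = A * diagonal d * A⁻¹` and take `P = P₀ * A`, `Q = A⁻¹ * Q₀`.) -/
theorem exists_ec {φ p : Matrix ι ι K} (hp : p * p = p) (hc : p * φ = φ * p)
    (hdg : Diagonalisable φ) (hdet : φ.det ≠ 0)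
    (hsimple : ∀ (c : K) (z z' : ι → K), p *ᵥ z = z → p *ᵥ z' = z' → φ *ᵥ z = c • z →
      φ *ᵥ z' = c • z' → z ≠ 0 → ∃ t : K, z' = t • z) :
    ∃ (P : Matrix ι (Fin p.rank) K) (Q : Matrix (Fin p.rank) ι K) (d : Fin p.rank → K),
      p = P * Q ∧ Q * P = 1 ∧ EC φ P d := by
  obtain ⟨A, B, δ, hAB, hBA, hφ⟩ := hdg
  -- the columns of A
  have hcol : ∀ j, φ *ᵥ (fun i => A i j) = δ j • (fun i => A i j) := by
    intro j
    have h1 : φ * A = A * Matrix.diagonal δ := by
      rw [hφ, Matrix.mul_assoc, hBA, Matrix.mul_one]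
    funext i
    have h2 := congrFun (congrFun h1 i) j
    rw [Matrix.mul_apply] at h2
    rw [Matrix.mulVec, dotProduct, h2, Matrix.mul_diagonal, Pi.smul_apply, smul_eq_mul, mul_comm]
  have hpcol : ∀ j, φ *ᵥ (p *ᵥ (fun i => A i j)) = δ j • (p *ᵥ (fun i => A i j)) := by
    intro j
    rw [Matrix.mulVec_mulVec, ← hc, ← Matrix.mulVec_mulVec, hcol, Matrix.mulVec_smul]
  let W := LinearMap.range p.mulVecLin
  let g : ι → W := fun j => ⟨p *ᵥ (fun i => A i j), ⟨fun i => A i j, rfl⟩⟩
  have hspan : ⊤ ≤ Submodule.span K (Set.range g) := by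
    rintro ⟨z, w, hw⟩ -
    have h1 : w = ∑ j, (B *ᵥ w) j • (fun i => A i j) := by
      have h2 : A *ᵥ (B *ᵥ w) = w := by rw [Matrix.mulVec_mulVec, hAB, Matrix.one_mulVec]
      conv_lhs => rw [← h2]
      funext i
      rw [Matrix.mulVec, dotProduct, Finset.sum_apply]
      refine Finset.sum_congr rfl fun j _ => ?_
      rw [Pi.smul_apply, smul_eq_mul, mul_comm]
    have h3 : (⟨z, w, hw⟩ : W) = ∑ j, (B *ᵥ w) j • g j := by
      apply Subtype.ext
      show z = _
      rw [Submodule.coe_sum]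
      have h4 : z = p.mulVecLin w := hw.symm
      rw [h4]
      conv_lhs => rw [h1]
      rw [map_sum]
      refine Finset.sum_congr rfl fun j _ => ?_
      rw [map_smul]
      rfl
    rw [h3]
    exact Submodule.sum_mem _ fun j _ => Submodule.smul_mem _ _ (Submodule.subset_span ⟨j, rfl⟩)
  let b0 := Basis.ofSpan hspan
  have hft := FiniteDimensional.fintypeBasisIndex b0
  have hcard : Fintype.card ((linearIndepOn_empty K id).extend (Set.empty_subset (Set.range g))) = p.rank :=
    (Module.finrank_eq_card_basis b0).symm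
  let bs : Basis (Fin p.rank) K W := b0.reindex (Fintype.equivFinOfCardEq hcard)
  have hbs : ∀ k, ∃ j, bs k = g j := by
    intro k
    have h1 : bs k ∈ Set.range b0 := by
      rw [← Basis.range_reindex b0 (Fintype.equivFinOfCardEq hcard)]
      exact ⟨k, rfl⟩
    obtain ⟨j, hj⟩ := Basis.ofSpan_subset hspan h1
    exact ⟨j, hj.symm⟩
  choose jj hjj using hbs
  obtain ⟨Q, hPQ, hQP⟩ := g11_factor hp bs
  set P : Matrix ι (Fin p.rank) K := Matrix.of fun i j => (bs j).1 i with hP
  have hPcol : ∀ k, (fun i => P i k) = (bs k).1 := fun k => rfl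
  have hne : ∀ k, (bs k).1 ≠ 0 := fun k h => bs.ne_zero k (Subtype.ext h)
  have heig : ∀ k, φ *ᵥ (bs k).1 = δ (jj k) • (bs k).1 := by
    intro k
    rw [hjj k]
    exact hpcol (jj k)
  have hpb : ∀ k, p *ᵥ (bs k).1 = (bs k).1 := by
    intro k
    obtain ⟨z, hz⟩ := (bs k).2
    rw [← hz, Matrix.mulVecLin_apply, Matrix.mulVec_mulVec, hp]
  refine ⟨P, Q, fun k => δ (jj k), hPQ, hQP, ?_, ?_, ?_⟩
  · ext i k
    have h1 := congrFun (heig k) i
    rw [Matrix.mulVec, dotProduct, Pi.smul_apply, smul_eq_mul] at h1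
    rw [Matrix.mul_apply, Matrix.mul_diagonal, mul_comm (P i k)]
    exact h1
  · intro k l hkl
    by_contra hne2
    have hkl' : δ (jj k) = δ (jj l) := hkl
    obtain ⟨t, ht⟩ := hsimple (δ (jj k)) (bs k).1 (bs l).1 (hpb k) (hpb l) (heig k)
      (by rw [hkl']; exact heig l) (hne k)
    have h2 : bs l = t • bs k := Subtype.ext ht
    have h3 := congrArg (fun x => bs.repr x l) h2
    simp only [Basis.repr_self, map_smul, Finsupp.smul_apply, Finsupp.single_eq_same, smul_eq_mul] at h3
    rw [Finsupp.single_eq_of_ne (fun h => hne2 h.symm), mul_zero] at h3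
    exact one_ne_zero h3
  · intro k hk
    have h1 := heig k
    have hk : δ (jj k) = 0 := hk
    rw [hk, zero_smul] at h1
    have h2 : (bs k).1 = 0 := by
      have h3 : φ⁻¹ *ᵥ (φ *ᵥ (bs k).1) = φ⁻¹ *ᵥ 0 := by rw [h1]
      rw [Matrix.mulVec_mulVec, Matrix.nonsing_inv_mul _ (isUnit_iff_ne_zero.2 hdet), Matrix.one_mulVec,
        Matrix.mulVec_zero] at h3
      exact h3
    exact hne k h2



end Pool.Agent.H76P
end

-- from Lib.H76P.G5
section

/-!
# G5: linear algebra over Q
-/

set_option autoImplicit false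
set_option linter.unusedSectionVars false
namespace Pool.Agent.H76P
open Module Matrix

variable {K : Type*} [Field K] [CharZero K] {κ : Type*} [Fintype κ] [DecidableEq κ]

/-- The cast of a rational vector. -/
def cst (K : Type*) [Field K] {κ : Type*} (f : κ → ℚ) : κ → K := fun k => (f k : K)

/-- A vector which is killed by all forms killing `s` is in the span of `s`. -/
theorem g5_mem {F : Type*} [Field F] {κ : Type*} [Fintype κ] [DecidableEq κ] {s : Set (κ → F)} {g : κ → F}
    (h : ∀ m : κ → F, (∀ u ∈ s, ∑ k, m k * u k = 0) → ∑ k, m k * g k = 0) : g ∈ Submodule.span F s := by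
  by_contra hg
  obtain ⟨φ, h1, h2⟩ := Submodule.exists_le_ker_of_notMem hg
  have key : ∀ v : κ → F, φ v = ∑ k, φ (Pi.single k 1) * v k := by
    intro v
    have e : v = ∑ k, v k • (Pi.single k (1 : F) : κ → F) := by
      ext x
      simp [Finset.sum_apply, Pi.single_apply]
    conv_lhs => rw [e]
    rw [map_sum]
    refine Finset.sum_congr rfl fun k _ => ?_
    rw [map_smul, smul_eq_mul, mul_comm]
  apply h1
  rw [key]
  apply h
  intro u hu
  rw [← key]
  exact h2 (Submodule.subset_span hu)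

/-- common denominator -/
theorem g5_den {κ : Type*} [Fintype κ] (c : κ → ℚ) : ∃ (n : ℤ) (m : κ → ℤ), n ≠ 0 ∧ ∀ k, (n : ℚ) * c k = m k := by
  classical
  refine ⟨∏ k, ((c k).den : ℤ), fun k => (∏ j ∈ Finset.univ.erase k, ((c j).den : ℤ)) * (c k).num, ?_, ?_⟩
  · exact Finset.prod_ne_zero_iff.2 fun k _ => by exact_mod_cast (c k).den_nz
  · intro k
    have h1 := Finset.prod_erase_mul Finset.univ (fun j => ((c j).den : ℤ)) (Finset.mem_univ k)
    rw [← h1]
    push_cast
    rw [mul_assoc, mul_comm ((c k).den : ℚ), Rat.mul_den_eq_num]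

/-- PROOF. Let `U = span ℚ s` and choose a basis `(k_i)` of `K` over `ℚ`; write `f = ∑ k_i f_i` with `f_i : κ → ℚ`.  For each `m : κ → ℤ` which is
orthogonal to `s`, `∑ m_k f_k = 0` implies `∑ m_k (f_i)_k = 0` for all `i`.  So `f_i` is orthogonal to all integral, hence to all rational vectors
which are orthogonal to `U`, and `f_i ∈ U` (a subspace of `ℚ ^ κ` is the orthogonal of its orthogonal).  (Alternatively: choose a basis of the
orthogonal of `U` and compare dimensions over `K`.) -/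
theorem mem_spanK {s : Set (κ → ℚ)} {f : κ → K}
    (h : ∀ m : κ → ℤ, (∀ u ∈ s, ∑ k, (m k : ℚ) * u k = 0) → ∑ k, (m k : K) * f k = 0) :
    f ∈ Submodule.span K (cst K '' s) := by
  apply g5_mem
  intro M hM
  let b := Module.Free.chooseBasis ℚ K
  let I := Finset.univ.biUnion fun k => (b.repr (M k)).support
  have hexp : ∀ k, M k = ∑ i ∈ I, (b.repr (M k) i) • b i := by
    intro k
    conv_lhs => rw [← b.linearCombination_repr (M k)]
    rw [Finsupp.linearCombination_apply]
    refine Finsupp.sum_of_support_subset _ (Finset.subset_biUnion_of_mem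
      (fun k => (b.repr (M k)).support) (Finset.mem_univ k)) _ ?_
    intro i _
    rw [zero_smul]
  have horth : ∀ i, ∀ u ∈ s, ∑ k, (b.repr (M k) i) * u k = 0 := by
    intro i u hu
    have h1 := hM (cst K u) ⟨u, hu, rfl⟩
    have h2 : b.repr (∑ k, M k * cst K u k) i = ∑ k, (b.repr (M k) i) * u k := by
      rw [map_sum, Finsupp.finsetSum_apply]
      refine Finset.sum_congr rfl fun k _ => ?_
      have h3 : M k * cst K u k = (u k) • M k := by
        rw [Algebra.smul_def, mul_comm]
        rfl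
      rw [h3, map_smul, Finsupp.smul_apply, smul_eq_mul, mul_comm]
    rw [← h2, h1, map_zero]
    rfl
  have hker : ∀ i, ∑ k, ((b.repr (M k) i : ℚ) : K) * f k = 0 := by
    intro i
    obtain ⟨n, m, hn, hm⟩ := g5_den fun k => b.repr (M k) i
    have h1 := h m (fun u hu => by
      have h2 := horth i u hu
      calc ∑ k, (m k : ℚ) * u k = ∑ k, (n : ℚ) * ((b.repr (M k) i) * u k) := by
            refine Finset.sum_congr rfl fun k _ => ?_
            rw [← hm k, mul_assoc]
        _ = 0 := by rw [← Finset.mul_sum, h2, mul_zero])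
    have h3 : (n : K) * ∑ k, ((b.repr (M k) i : ℚ) : K) * f k = 0 := by
      rw [← h1, Finset.mul_sum]
      refine Finset.sum_congr rfl fun k _ => ?_
      have h4 : (m k : K) = (n : K) * ((b.repr (M k) i : ℚ) : K) := by
        have h5 := congrArg (Rat.cast : ℚ → K) (hm k)
        push_cast at h5
        exact h5.symm
      rw [h4, mul_assoc]
    have hnK : (n : K) ≠ 0 := by exact_mod_cast hn
    exact (mul_eq_zero.1 h3).resolve_left hnK
  calc ∑ k, M k * f k = ∑ k, ∑ i ∈ I, b i * (((b.repr (M k) i : ℚ) : K) * f k) := by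
        refine Finset.sum_congr rfl fun k _ => ?_
        conv_lhs => rw [hexp k]
        rw [Finset.sum_mul]
        refine Finset.sum_congr rfl fun i _ => ?_
        rw [Algebra.smul_def]
        show ((b.repr (M k) i : ℚ) : K) * b i * f k = _
        ring
    _ = ∑ i ∈ I, b i * ∑ k, ((b.repr (M k) i : ℚ) : K) * f k := by
        rw [Finset.sum_comm]
        refine Finset.sum_congr rfl fun i _ => ?_
        rw [Finset.mul_sum]
    _ = 0 := by
        refine Finset.sum_eq_zero fun i _ => ?_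
        rw [hker i, mul_zero]

/-- PROOF. Every rational `m` orthogonal to `s` is orthogonal to `f` (over `K`, hence over `ℚ`), so `f` is in the orthogonal of the
orthogonal of `span ℚ s`. -/
theorem rat_of_spanK {s : Set (κ → ℚ)} {f : κ → ℚ}
    (h : cst K f ∈ Submodule.span K (cst K '' s)) : f ∈ Submodule.span ℚ s := by
  apply g5_mem
  intro m hm
  let φ : (κ → K) →ₗ[K] K := ∑ k, (m k : K) • LinearMap.proj k
  have hφ : ∀ v, φ v = ∑ k, (m k : K) * v k := by
    intro v
    simp [φ, LinearMap.sum_apply]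
  have hle : Submodule.span K (cst K '' s) ≤ LinearMap.ker φ := by
    rw [Submodule.span_le]
    rintro _ ⟨u, hu, rfl⟩
    show φ (cst K u) = 0
    rw [hφ]
    have h1 := congrArg (Rat.cast : ℚ → K) (hm u hu)
    push_cast at h1
    exact h1
  have h2 : φ (cst K f) = 0 := hle h
  rw [hφ] at h2
  have h3 : ((∑ k, m k * f k : ℚ) : K) = ((0 : ℚ) : K) := by
    push_cast
    exact h2
  exact Rat.cast_injective h3

end Pool.Agent.H76P
end

-- from Lib.H76P.G6
section

/-!
# G6: the log linear functions are spanned by the functions of the projectors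
-/

set_option autoImplicit false
set_option linter.unusedSectionVars false
namespace Pool.Agent.H76P
open Module Matrix Pool.Agent.H53Toric
open Pool.Agent.H76RM (van zlie_commute)
open Pool.Agent.H76U (preL cmp Split4)
open Pool.Agent.H76V (SH)
open Pool.Agent.H76T (Lc mem_Lc)
open Pool.Agent.H76U (tw)

variable {ι : Type*} [Fintype ι] [DecidableEq ι] {K : Type*} [Field K]
  [CharZero K] [IsAlgClosed K] {B : Type*} [Fintype B] [DecidableEq B]
  {J : Matrix ι ι K} {DD : Submodule K (Matrix ι ι K)}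
  {bar : B → B} {e : B → Matrix ι ι K} (h : Split4 J DD bar e) {b : B} (hb : bar b = b)
  (hJ : Jᵀ = -J) (hdet : IsUnit J.det)
  {n : ℕ} {P : Matrix ι (Fin n) K} {Q : Matrix (Fin n) ι K}
  (hPQ : e b = P * Q) (hQP : Q * P = 1)
  {S : Set (Matrix ι ι K)} {𝓗 : Set (Matrix ι ι K)} {φ φ' : Matrix ι ι K}
  (g : PH S J DD 𝓗 φ φ') {d : Fin n → K} (E : EC φ P d)

/-- entries of the compression are polynomial -/
theorem g6_entry (P : Matrix ι (Fin n) K) (Q : Matrix (Fin n) ι K) (i j : Fin n) :
    ∃ g : MvPolynomial (ι × ι) K, ∀ m : Matrix ι ι K, ev m g = (Q * m * P) i j := by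
  refine ⟨∑ b, (∑ a, MvPolynomial.C (Q i a) * MvPolynomial.X (a, b)) * MvPolynomial.C (P b j),
    fun m ↦ ?_⟩
  rw [map_sum, Matrix.mul_apply]
  refine Finset.sum_congr rfl fun b _ ↦ ?_
  rw [map_mul, map_sum, ev_C, Matrix.mul_apply]
  congr 1
  refine Finset.sum_congr rfl fun a _ ↦ ?_
  rw [map_mul, ev_C, ev_X]

/-- powers of one number -/
theorem g6_prod_zpow {F : Type*} [Field F] {κ : Type*} {t : F} (ht : t ≠ 0) (A : Finset κ)
    (s : κ → ℤ) : ∏ k ∈ A, t ^ s k = t ^ ∑ k ∈ A, s k := by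
  classical
  induction A using Finset.induction_on with
  | empty => simp
  | insert a A ha ih => rw [Finset.prod_insert ha, Finset.sum_insert ha, zpow_add₀ ht, ih]

/-- natural and integral exponents -/
theorem g6_nat {F : Type*} [Field F] {κ : Type*} [Fintype κ] {f : κ → F} (hf : ∀ k, f k ≠ 0)
    (m : κ → ℤ) : ∏ k, f k ^ m k = 1 ↔ ∏ k, f k ^ (m k).toNat = ∏ k, f k ^ (-m k).toNat := by
  have h1 : ∏ k, f k ^ (m k).toNat = (∏ k, f k ^ m k) * ∏ k, f k ^ (-m k).toNat := by
    rw [← Finset.prod_mul_distrib]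
    refine Finset.prod_congr rfl fun k _ => ?_
    rw [← zpow_natCast (f k) (m k).toNat, ← zpow_natCast (f k) (-m k).toNat, ← zpow_add₀ (hf k)]
    congr 1
    omega
  have h2 : ∏ k, f k ^ (-m k).toNat ≠ 0 := Finset.prod_ne_zero_iff.2 fun k _ => pow_ne_zero _ (hf k)
  rw [h1]
  constructor
  · intro h3
    rw [h3, one_mul]
  · intro h3
    exact mul_right_cancel₀ h2 (by rw [h3, one_mul])

include h hb hdet hPQ hQP g E in
theorem g6_gen {m : Fin n → ℤ}
    (hm : ∀ u ∈ insert 1 (Hs (Lc J S P Q)), ∑ k, (m k : ℚ) * u k = 0)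
    {x : Matrix ι ι K} (hx : x ∈ 𝓗) (hxφ : x * φ = φ * x) {t : K} (ht : t ≠ 0) :
    ∃ f : Fin n → K, cmp P Q (1 + (t - 1) • x) = Matrix.diagonal f ∧ (∀ k, f k ≠ 0) ∧
      ∏ k, f k ^ m k = 1 := by
  obtain ⟨ε, hε, he⟩ := eps_mem h hb hdet hPQ hQP g E hx hxφ
  have h1 : cmp P Q ((2 : K) • x - 1) = Matrix.diagonal (fun k => (ε k : K)) := by
    have : phi (cmp P Q ((2 : K) • x - 1)) = phi (Matrix.diagonal (fun k => (ε k : K))) := by
      rw [he, phi_diag]; rfl
    exact phi.injective this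
  have h2 : cmp P Q (1 : Matrix ι ι K) = 1 := H76U.cmp_one hPQ hQP
  have h3 : (2 : K) • cmp P Q x = 1 + Matrix.diagonal (fun k => (ε k : K)) := by
    rw [← h1, map_sub, map_smul, h2]
    abel
  have h4 : cmp P Q x = Matrix.diagonal (fun k => (1 + (ε k : K)) / 2) := by
    have h5 : cmp P Q x = (2 : K)⁻¹ • ((2 : K) • cmp P Q x) := by
      rw [smul_smul, inv_mul_cancel₀ two_ne_zero, one_smul]
    rw [h5, h3]
    ext i j
    by_cases hij : i = j
    · subst hij
      simp [Matrix.diagonal_apply_eq]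
      ring
    · simp [Matrix.diagonal_apply_ne _ hij, Matrix.one_apply_ne hij]
  have hpm : ∀ k, ε k = 1 ∨ ε k = -1 := hε.1
  refine ⟨fun k => if ε k = 1 then t else 1, ?_, ?_, ?_⟩
  · rw [map_add, h2, map_smul, h4]
    ext i j
    by_cases hij : i = j
    · subst hij
      rcases hpm i with h5 | h5
      · simp [Matrix.diagonal_apply_eq, h5]
      · have h6 : ¬ ((-1 : ℚ) = 1) := by norm_num
        simp [Matrix.diagonal_apply_eq, h5, h6]
    · simp [Matrix.diagonal_apply_ne _ hij, Matrix.one_apply_ne hij]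
  · intro k
    dsimp only
    split_ifs
    · exact ht
    · exact one_ne_zero
  · have h5 : ∀ k, (if ε k = 1 then t else 1) ^ m k = t ^ (if ε k = 1 then m k else 0) := by
      intro k
      split_ifs <;> simp
    rw [Finset.prod_congr rfl (fun k _ => h5 k), g6_prod_zpow ht]
    have h6 : ∑ k, (if ε k = 1 then m k else 0) = 0 := by
      have h7 := hm ε (Set.mem_insert_of_mem _ hε)
      have h8 := hm 1 (Set.mem_insert _ _)
      have h9 : ((∑ k, (if ε k = 1 then m k else 0) : ℤ) : ℚ) = 0 := by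
        push_cast
        have h10 : ∀ k, (if ε k = 1 then (m k : ℚ) else 0) =
            ((m k : ℚ) * (1 : Fin n → ℚ) k + (m k : ℚ) * ε k) / 2 := by
          intro k
          rcases hpm k with h11 | h11
          · rw [if_pos h11, h11, Pi.one_apply]; ring
          · rw [if_neg (by rw [h11]; norm_num), h11, Pi.one_apply]; ring
        rw [Finset.sum_congr rfl (fun k _ => h10 k), ← Finset.sum_div, Finset.sum_add_distrib, h7, h8]
        simp
      exact_mod_cast h9
    rw [h6, zpow_zero]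

include h hb hdet hPQ hQP g E in
/-- PROOF. `mem_spanK` for `s = insert 1 (Hs L)`, `L = Lc J S P Q`.  Let `m : Fin n → ℤ` be orthogonal to `1` and to `Hs L`.  Let `m = m₊ - m₋`
(natural numbers) and consider the polynomial function `F y = ∏ k, (Q * y * P) k k ^ m₊ k - ∏ k, (Q * y * P) k k ^ m₋ k`.  Claim: `F` vanishes on the
submonoid `M` generated by the `1 + (t - 1) • x`, `x ∈ 𝓗` commuting with `φ`, `t ≠ 0`.  All elements `y` of `M` commute with `e b` and with `φ`, so
`Q * y * P` is diagonal (`cmp_diag`), and `y ↦ Q * y * P` is multiplicative on `M`; so it is enough that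
`∏ k, (Q * y * P) k k ^ m k = 1` for the generators (all entries are nonzero).  For `y = 1 + (t - 1) • x`, `cmp (2 x - 1) = diagonal ε`, `ε ∈ Hs L`
(`eps_mem`), `(Q * y * P) k k` is `t` if `ε k = 1` and `1` if `ε k = -1`, i.e. `t ^ ((1 + ε k) / 2)`, and `∑ m k (1 + ε k) / 2 = 0`.
So `F` vanishes on `zar M ∋ φ ^ N` (`g.torgen`); `Q * φ ^ N * P = diagonal (d ^ N)` (`cmp_phi`).  So `∏ k, d k ^ (N * m k) = 1`, and `LogLin` gives
`∑ N * m k * f k = 0`, so `∑ m k * f k = 0`.  (If there is no `x ∈ 𝓗` commuting with `φ` the argument is the same.) -/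
theorem span_of_loglin {f : Fin n → K} (hf : LogLin d f) :
    f ∈ Submodule.span K (cst K '' (insert 1 (Hs (Lc J S P Q)))) := by
  refine mem_spanK fun m hm => ?_
  obtain ⟨N, hN, hNz⟩ := g.torgen
  have key : ∀ y ∈ Submonoid.closure {m : Matrix ι ι K | ∃ h ∈ 𝓗, h * φ = φ * h ∧
      ∃ t : K, t ≠ 0 ∧ m = 1 + (t - 1) • h}, y * e b = e b * y ∧
      ∃ f : Fin n → K, cmp P Q y = Matrix.diagonal f ∧ (∀ k, f k ≠ 0) ∧ ∏ k, f k ^ m k = 1 := by
    intro y hy
    induction hy using Submonoid.closure_induction with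
    | mem y hy =>
      obtain ⟨x, hx, hxφ, t, ht, rfl⟩ := hy
      refine ⟨?_, g6_gen h hb hdet hPQ hQP g E hm hx hxφ ht⟩
      have h1 : x * e b = e b * x :=
        zlie_commute g.sh.one (fun s hs => g.sh.SD s hs _ (h.mem b)) (g.sh.hz x hx)
      rw [add_mul, mul_add, one_mul, mul_one, Matrix.smul_mul, Matrix.mul_smul, h1]
    | one =>
      refine ⟨by rw [one_mul, mul_one], fun _ => 1, ?_, fun _ => one_ne_zero, by simp⟩
      rw [H76U.cmp_one hPQ hQP]
      ext i j
      by_cases hij : i = j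
      · subst hij; simp
      · simp [Matrix.diagonal_apply_ne _ hij, Matrix.one_apply_ne hij]
    | mul x y _ _ hx hy =>
      obtain ⟨hx1, fx, hx2, hx3, hx4⟩ := hx
      obtain ⟨hy1, fy, hy2, hy3, hy4⟩ := hy
      refine ⟨by rw [Matrix.mul_assoc, hy1, ← Matrix.mul_assoc, hx1, Matrix.mul_assoc],
        fun k => fx k * fy k, ?_, fun k => mul_ne_zero (hx3 k) (hy3 k), ?_⟩
      · rw [H76U.cmp_mul hPQ hQP hy1, hx2, hy2, Matrix.diagonal_mul_diagonal]
      · simp only [mul_zpow]
        rw [Finset.prod_mul_distrib, hx4, hy4, one_mul]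
  choose G hG using fun k => g6_entry P Q k k
  have h1 : ev (φ ^ N) (∏ k, G k ^ (m k).toNat - ∏ k, G k ^ (-m k).toNat) = 0 := by
    apply hNz
    intro y hy
    obtain ⟨-, f, h2, h3, h4⟩ := key y hy
    rw [map_sub, map_prod, map_prod]
    simp only [map_pow, hG]
    have h5 : ∀ k, (Q * y * P) k k = f k := fun k => by
      have : Q * y * P = Matrix.diagonal f := h2
      rw [this, Matrix.diagonal_apply_eq]
    simp only [h5]
    rw [sub_eq_zero]
    exact (g6_nat h3 m).1 h4
  have h6 : φ ^ N * P = P * Matrix.diagonal (fun k => d k ^ N) := by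
    clear h1 hNz hN
    induction N with
    | zero => simp
    | succ N ih =>
      rw [pow_succ, Matrix.mul_assoc, E.eig, ← Matrix.mul_assoc, ih, Matrix.mul_assoc,
        Matrix.diagonal_mul_diagonal]
      simp only [pow_succ]
  have h7 : ∀ k, (Q * φ ^ N * P) k k = d k ^ N := fun k => by
    rw [Matrix.mul_assoc, h6, ← Matrix.mul_assoc, hQP, Matrix.one_mul, Matrix.diagonal_apply_eq]
  rw [map_sub, map_prod, map_prod] at h1
  simp only [map_pow, hG, h7] at h1
  rw [sub_eq_zero] at h1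
  have h8 : ∏ k, (d k ^ N) ^ m k = 1 := (g6_nat (fun k => pow_ne_zero _ (E.ne k)) m).2 h1
  have h9 := hf (fun k => N * m k) (by
    rw [← h8]
    refine Finset.prod_congr rfl fun k _ => ?_
    rw [_root_.zpow_mul, zpow_natCast])
  have h10 : (N : K) * ∑ k, (m k : K) * f k = 0 := by
    rw [Finset.mul_sum, ← h9]
    refine Finset.sum_congr rfl fun k _ => ?_
    push_cast
    ring
  rcases mul_eq_zero.1 h10 with h11 | h11
  · exact absurd h11 (by exact_mod_cast hN)
  · exact h11

end Pool.Agent.H76P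
end

-- from Lib.H76P.G7
section

/-!
# G7: diagonal elements, field automorphisms
-/

set_option autoImplicit false
set_option linter.unusedSectionVars false
namespace Pool.Agent.H76P
open Module Matrix Pool.Agent.H53Toric
open Pool.Agent.H76RM (van zlie_commute)
open Pool.Agent.H76U (preL cmp Split4)
open Pool.Agent.H76V (SH)
open Pool.Agent.H76T (Lc mem_Lc)
open Pool.Agent.H76U (tw)

variable {ι : Type*} [Fintype ι] [DecidableEq ι] {K : Type*} [Field K]
  [CharZero K] [IsAlgClosed K] {B : Type*} [Fintype B] [DecidableEq B]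
  {J : Matrix ι ι K} {DD : Submodule K (Matrix ι ι K)}
  {bar : B → B} {e : B → Matrix ι ι K} (h : Split4 J DD bar e) {b : B} (hb : bar b = b)
  (hJ : Jᵀ = -J) (hdet : IsUnit J.det)
  {n : ℕ} {P : Matrix ι (Fin n) K} {Q : Matrix (Fin n) ι K}
  (hPQ : e b = P * Q) (hQP : Q * P = 1)
  {S : Set (Matrix ι ι K)} {𝓗 : Set (Matrix ι ι K)} {φ φ' : Matrix ι ι K}
  (g : PH S J DD 𝓗 φ φ') {d : Fin n → K} (E : EC φ P d)

include h hb hJ hdet hPQ hQP g in
/-- PROOF. `H76V.cmp_comp` for `g.sh` (`Γ = Unit`). -/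
theorem cmp_unit (hn : 0 < n) : H76V.Cmp (Lc J S P Q) (Pᵀ * J * P) :=
  H76V.cmp_comp h hb hJ hdet hPQ hQP g.sh hn

include h hb hJ hdet hPQ hQP g E in
/-- PROOF. By `span_of_loglin` and `rat_of_spanK` `f + constant` is in `span ℚ (insert 1 (Hs L))`: `f - c` is log linear with `c : K`, so
`cst K f = (f - c) + c • 1` is in the span over `K` of `cst K '' (insert 1 (Hs L))`, so `f ∈ span ℚ (insert 1 (Hs L))`, `f = y + r • 1` with `y ∈ Yo L`
(`Submodule.mem_span_insert`).  The sum of the values of `f` is `0`, that of `y` too (`Yo_sum`, `cmp_unit`), so `r * n = 0`, `r = 0`. -/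
theorem mem_Yo (hn : 0 < n) {f : Fin n → ℚ} {c : K}
    (hf : LogLin d (fun k => (f k : K) - c)) (hs : ∑ k, f k = 0) : f ∈ Yo (Lc J S P Q) := by
  have h1 := span_of_loglin h hb hdet hPQ hQP g E hf
  have h2 : cst K f ∈ Submodule.span K (cst K '' (insert 1 (Hs (Lc J S P Q)))) := by
    have h3 : cst K f = (fun k => (f k : K) - c) + c • cst K (1 : Fin n → ℚ) := by
      funext k
      simp [cst]
    rw [h3]
    exact Submodule.add_mem _ h1
      (Submodule.smul_mem _ _ (Submodule.subset_span ⟨1, Set.mem_insert _ _, rfl⟩))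
  have h4 := rat_of_spanK h2
  obtain ⟨r, y, hy, hfy⟩ := Submodule.mem_span_insert.1 h4
  have hy' : y ∈ Yo (Lc J S P Q) := hy
  have h5 := Yo_sum (cmp_unit h hb hJ hdet hPQ hQP g hn) hy'
  have h6 : r * (n : ℚ) = 0 := by
    have h7 : ∑ k, f k = r * n + ∑ k, y k := by
      rw [hfy]
      simp [Finset.sum_add_distrib, mul_comm]
    rw [hs, h5, add_zero] at h7
    exact h7.symm
  have hr : r = 0 := by
    rcases mul_eq_zero.1 h6 with h8 | h8
    · exact h8
    · exact absurd h8 (by exact_mod_cast hn.ne')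
  rw [hfy, hr, zero_smul, zero_add]
  exact hy'

include h hb hJ hdet hPQ hQP g E in
/-- PROOF. `loglin_of_mem` and `mem_Yo`; the sum is `0` by `Cmp.tr` and `dg_trace`. -/
theorem diag_mem (hn : 0 < n) {f : Fin n → ℚ} (hf : dq f ∈ Lc J S P Q) :
    f ∈ Yo (Lc J S P Q) := by
  obtain ⟨c, hc⟩ := loglin_of_mem h hb hdet hPQ hQP g E (f := fun k => (f k : K)) hf
  refine mem_Yo h hb hJ hdet hPQ hQP g E hn hc ?_
  have h1 := (cmp_unit h hb hJ hdet hPQ hQP g hn).tr _ hf
  unfold dq at h1
  rw [dg_trace] at h1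
  exact_mod_cast h1


end Pool.Agent.H76P
end

-- from Lib.H76P.G9
section

/-!
# G9: the component is full
-/

set_option autoImplicit false
set_option linter.unusedSectionVars false
namespace Pool.Agent.H76P
open Module Matrix Pool.Agent.H53Toric
open Pool.Agent.H76RM (van zlie_commute)
open Pool.Agent.H76U (preL cmp Split4)
open Pool.Agent.H76V (SH)
open Pool.Agent.H76T (Lc mem_Lc)
open Pool.Agent.H76U
open Pool.Agent.H76F

variable {ι : Type*} [Fintype ι] [DecidableEq ι] {K : Type*} [Field K]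
  [CharZero K] [IsAlgClosed K] {B : Type*} [Fintype B] [DecidableEq B]
  {J : Matrix ι ι K} {DD : Submodule K (Matrix ι ι K)}
  {bar : B → B} {e : B → Matrix ι ι K} (h : Split4 J DD bar e) {b : B} (hb : bar b = b)
  (hJ : Jᵀ = -J) (hdet : IsUnit J.det)
  {n : ℕ} {P : Matrix ι (Fin n) K} {Q : Matrix (Fin n) ι K}
  (hPQ : e b = P * Q) (hQP : Q * P = 1)
  {S : Set (Matrix ι ι K)} {𝓗 : Set (Matrix ι ι K)} {φ φ' : Matrix ι ι K}
  (g : PH S J DD 𝓗 φ φ') {d : Fin n → K} (E : EC φ P d)



include h hb hJ hdet hPQ hQP g in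
/-- PROOF. Copy the proof of `H76V.fu_tor` (H76V/VB2.lean); there `hfull` comes from `H76V.comp_full`, here it is an assumption. -/
theorem fu_of_full (hn : 0 < n)
    (hfull : ∀ {X : Module.End K (Fin n → K)}, adjE (Pᵀ * J * P) X = -X → X ∈ Lc J S P Q)
    {u : ι → K} (hu : e b *ᵥ u = u) :
    ∃ A ∈ zlie S, Aᵀ * J + J * A = 0 ∧ phi A * phi (e b) = tw (om J) u u := by
  have hpJ : (e b)ᵀ * J = J * e b := by
    have := h.adj b
    rwa [hb] at this
  have hdb := det_cmp hPQ hQP hpJ hdet
  have hJb : (Pᵀ * J * P)ᵀ = -(Pᵀ * J * P) := by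
    rw [Matrix.transpose_mul, Matrix.transpose_mul, Matrix.transpose_transpose, hJ,
      Matrix.neg_mul, Matrix.mul_neg, Matrix.mul_assoc]
  have : Nonempty (Fin n) := ⟨⟨0, hn⟩⟩
  have hcomp := cmp_unit h hb hJ hdet hPQ hQP g hn
  set d := Q *ᵥ u with hd
  have hPd : P *ᵥ d = u := by rw [hd, Matrix.mulVec_mulVec, ← hPQ, hu]
  set X := Matrix.vecMulVec d ((Pᵀ * J * P) *ᵥ d) with hX
  have hXphi : phi X = trv (om (Pᵀ * J * P)) d := phi_trv _ _
  have hX2 : X * X = 0 := by
    apply (phi (ι := Fin n) (K := K)).injective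
    rw [map_mul, hXphi, map_zero, trv_sq (om_alt hJb)]
  have hXg := hfull ((skew_iff hdb X).2 (trv_skew hJb d))
  obtain ⟨M, hM, hXMX⟩ := exists_partner hcomp.lie hcomp.irr hcomp.tr hXg
    (by rw [← map_mul, hX2, map_zero])
  obtain ⟨m, rfl⟩ := (phi (ι := Fin n) (K := K)).surjective M
  obtain ⟨A, hA, hAX⟩ := mem_Lb.1 hXg.1
  obtain ⟨C, hC, hCm⟩ := mem_Lb.1 hM.1
  have e1 : X * m * X = X := by
    apply (phi (ι := Fin n) (K := K)).injective
    rw [map_mul, map_mul, hXMX]
  have hAe := H76V.preL_ec (b := b) h g.sh hA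
  have hCe := H76V.preL_ec (b := b) h g.sh hC
  obtain ⟨h1, h2⟩ := preL_bracket hA hC
  have hE : A * C - C * A ∈ preL J S :=
    ⟨⟨0, _, h1, by rw [zero_smul, add_zero]⟩, 0, by rw [h2, zero_smul]⟩
  have hEe := H76V.preL_ec (b := b) h g.sh hE
  obtain ⟨h3, h4⟩ := preL_bracket hE hA
  have e2 : cmp P Q ((A * C - C * A) * A - A * (A * C - C * A)) = (2 : K) • X := by
    rw [map_sub, cmp_mul hPQ hQP hAe, cmp_mul hPQ hQP hEe, map_sub, cmp_mul hPQ hQP hCe,
      cmp_mul hPQ hQP hAe, hAX, hCm]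
    have : (X * m - m * X) * X - X * (X * m - m * X) =
        (2 : K) • (X * m * X) - m * (X * X) - (X * X) * m := by
      rw [two_smul]; noncomm_ring
    rw [this, e1, hX2]; simp
  set E := (A * C - C * A) * A - A * (A * C - C * A) with hEdef
  have hEL : E ∈ preL J S :=
    ⟨⟨0, _, h3, by rw [zero_smul, add_zero]⟩, 0, by rw [h4, zero_smul]⟩
  have hEe' := H76V.preL_ec (b := b) h g.sh hEL
  refine ⟨(1 / 2 : K) • E, (zlie S).smul_mem _ h3, ?_, ?_⟩
  · rw [Matrix.transpose_smul, smul_mul_assoc, mul_smul_comm, ← smul_add, h4, smul_zero]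
  · rw [← map_mul]
    apply LinearMap.ext
    intro v
    rw [phi_apply, tw_apply, smul_mul_assoc, Matrix.smul_mulVec]
    have h5 : E * e b = P * cmp P Q E * Q := by
      rw [P_cmp hPQ hQP hEe', Matrix.mul_assoc, ← hPQ]
    rw [h5, e2, Matrix.mul_smul, Matrix.smul_mul, Matrix.smul_mulVec, smul_smul]
    norm_num
    rw [← Matrix.mulVec_mulVec, ← Matrix.mulVec_mulVec, ← phi_apply X, hXphi, trv_apply,
      Matrix.mulVec_smul, hPd, om_cmp hPQ hQP hpJ, hPd, Matrix.mulVec_mulVec _ P Q, ← hPQ,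
      h.self, hb, hu]


end Pool.Agent.H76P
end

-- from Lib.H76P.G15
section

/-!
# G15: the theorem at p
-/

set_option autoImplicit false
set_option linter.unusedSectionVars false
namespace Pool.Agent.H76P
open Module Matrix Polynomial Pool.Agent.H53Toric
open Pool.Agent.H76U (IsSplitting split4_of Split4 idem_factor rank_idem_map tw preL cmp)
open Pool.Agent.H76RM (van spanK similD Seed Setup Split comm_span split_of)
open Pool.Agent.H76T (rK rK_apply img_sub_inf nil_of_zar seed_of_fu monodromy_seed Lc AllIndep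
  nroots)
open Pool.Agent.H49M (idc)

variable {ι : Type*} [Fintype ι] [DecidableEq ι]
variable {L : Type*} [Field L] {K : Type*} [Field K] [Algebra L K] {G : Type*} [Group G]

/-- PROOF. `hdg : φ = P * diagonal d * Q`: the characteristic polynomial of `φ` is `∏ k, (X - C (d k))` (similar to a diagonal matrix; see the
proof of `H76T.diag_data`, H76T/TE3.lean), the `d k` are not zero (`F.idc.1`). -/
theorem diag_data' [CharZero K] {φ : Matrix ι ι K} (hdet : φ.det ≠ 0) (hdg : Diagonalisable φ)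
    {f : ℚ[X]} (hf : φ.charpoly = f.map (algebraMap ℚ K)) :
    ∃ (P Q : Matrix ι ι K) (d : ι → K), P * Q = 1 ∧ Q * P = 1 ∧
      φ = P * Matrix.diagonal d * Q ∧ (∀ k, d k ≠ 0) ∧
      f.map (algebraMap ℚ K) = ∏ k, (X - C (d k)) := by
  obtain ⟨P, Q, d₀, hPQ, hQP, hσ⟩ := hdg
  refine ⟨P, Q, d₀, hPQ, hQP, hσ, ?_, ?_⟩
  · intro k hk
    apply hdet
    have h1 : P.det * Q.det = 1 := by rw [← Matrix.det_mul, hPQ, Matrix.det_one]
    rw [hσ, Matrix.det_mul, Matrix.det_mul, Matrix.det_diagonal,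
      Finset.prod_eq_zero (Finset.mem_univ k) hk, mul_zero, zero_mul]
  · rw [← hf, hσ, Matrix.charpoly_mul_comm, ← mul_assoc, hQP, one_mul, Matrix.charpoly_diagonal]


end Pool.Agent.H76P
end
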