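import Pool.Agent.Lib.H1M.RC.M002
import Pool.Agent.Lib.H1M.RC.M005
import Pool.Agent.Lib.H1M.RC.M020
import Pool.Agent.Lib.H1M.RC.M022
import Pool.Agent.Lib.H1M.RC.M026

/-! Merged copies (to shorten the build) of Lib.H25U.A3, Lib.H25U.A3s, Lib.H25U.A3v, Lib.H25U.P4, Lib.H34Z.G01. -/

-- from Lib.H25U.A3
section

/-!
# A3: the graded pieces are irreducible
-/

set_option autoImplicit false
set_option linter.unusedSectionVars false
namespace Pool.Agent.H25U
open Module Pool.Agent.H53Toric Pool.Agent.H49M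
open Pool.Agent.H86N (CoreN)

variable {K : Type*} [Field K] {V : Type*} [AddCommGroup V] [Module K V]

variable {L : Submodule K (Module.End K V)}

theorem A3_pm [CharZero K] (h : CoreN L) {s X Y : Module.End K V} (hX : X ∈ Lp L s)
    (hY : Y ∈ Lm L s) : X * Y - Y * X ∈ L0 L s := by
  refine ⟨h.lie X hX.1 Y hY.1, ?_⟩
  rw [mul_sub, sub_mul, ← mul_assoc, ← mul_assoc, hX.2.1, hY.2.1, mul_assoc X Y s, hY.2.2,
    mul_assoc Y X s, hX.2.2]
  noncomm_ring

theorem A3_0m (h : CoreN L) {s Z Y : Module.End K V} (hZ : Z ∈ L0 L s)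
    (hY : Y ∈ Lm L s) : Z * Y - Y * Z ∈ Lm L s := by
  refine ⟨h.lie Z hZ.1 Y hY.1, ?_, ?_⟩
  · rw [mul_sub, ← mul_assoc, ← mul_assoc, hZ.2, hY.2.1, mul_assoc, hY.2.1]
    noncomm_ring
  · rw [sub_mul, mul_assoc, mul_assoc, ← hZ.2, hY.2.2, ← mul_assoc, hY.2.2]

theorem A3_0p (h : CoreN L) {s Z X : Module.End K V} (hZ : Z ∈ L0 L s)
    (hX : X ∈ Lp L s) : Z * X - X * Z ∈ Lp L s := by
  refine ⟨h.lie Z hZ.1 X hX.1, ?_, ?_⟩
  · rw [mul_sub, ← mul_assoc, ← mul_assoc, hZ.2, hX.2.1, mul_assoc, hX.2.1]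
  · rw [sub_mul, mul_assoc, mul_assoc, ← hZ.2, hX.2.2, ← mul_assoc, hX.2.2]
    noncomm_ring

/-- Chunk A3. Write `[X, Y] = X Y - Y X`. Let `I` be the span of `𝒳`, of all `[X, Y]` and of all
`[[X, Y], Y']` with `X ∈ 𝒳`, `Y, Y' ∈ Lm`. It is an ideal of `L`: by `A2_decomp` it is enough
to bracket with `Z ∈ Lp, L0, Lm`.
`Z ∈ L0`: Jacobi, `[L0, 𝒳] ⊆ 𝒳`, `[L0, Lm] ⊆ Lm`.
`Z ∈ Lm`: clear, and `[[[X, Y], Y'], Z] = 0` because `[[X,Y],Y'] ∈ Lm` and `Lm Lm = 0`.
`Z ∈ Lp`: `[Z, X] = 0`; `[Z, [X, Y]] = [X, [Z, Y]]` (as `[Z, X] = 0`) and `[Z, Y] ∈ L0`, so this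
is in `𝒳`; `[Z, [[X, Y], Y']] = [[Z, [X, Y]], Y'] + [[X, Y], [Z, Y']]`, the first is in
`[𝒳, Lm]`, the second is `[[X,Y],W]`, `W = [Z, Y'] ∈ L0`, which is in `[𝒳, Lm]` by Jacobi.
`I ≠ 0`, so `I = L` by simplicity. Every element of `I` is `x + b + c` with `x ∈ 𝒳`, `b ∈ L0`,
`c ∈ Lm`; an element `a` of `Lp` of this form equals `x`: apply `T ↦ (1 + s) T (1 - s)`, which is
multiplication by `4` on `Lp` and zero on `L0` and `Lm`. -/
theorem A3_irr [CharZero K] [IsAlgClosed K] [FiniteDimensional K V] [Nontrivial V]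
    (h : CoreN L) {s : Module.End K V} (hs : InL L s) (hs2 : s * s = 1)
    {X₀ : Submodule K (Module.End K V)} (hle : X₀ ≤ Lp L s) (h0 : X₀ ≠ ⊥)
    (hst : ∀ Z ∈ L0 L s, ∀ X ∈ X₀, Z * X - X * Z ∈ X₀) : X₀ = Lp L s := by
  let S : Set (Module.End K V) := {T | T ∈ X₀ ∨ (∃ X ∈ X₀, ∃ Y ∈ Lm L s, T = X * Y - Y * X) ∨
    ∃ X ∈ X₀, ∃ Y ∈ Lm L s, ∃ Y' ∈ Lm L s,
      T = (X * Y - Y * X) * Y' - Y' * (X * Y - Y * X)}
  have hS1 : ∀ X ∈ X₀, X ∈ Submodule.span K S := fun X hX =>
    Submodule.subset_span (Or.inl hX)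
  have hS2 : ∀ X ∈ X₀, ∀ Y ∈ Lm L s, X * Y - Y * X ∈ Submodule.span K S := fun X hX Y hY =>
    Submodule.subset_span (Or.inr (Or.inl ⟨X, hX, Y, hY, rfl⟩))
  have hS3 : ∀ X ∈ X₀, ∀ Y ∈ Lm L s, ∀ Y' ∈ Lm L s,
      (X * Y - Y * X) * Y' - Y' * (X * Y - Y * X) ∈ Submodule.span K S :=
    fun X hX Y hY Y' hY' => Submodule.subset_span (Or.inr (Or.inr ⟨X, hX, Y, hY, Y', hY', rfl⟩))
  have hSL : Submodule.span K S ≤ L := by
    refine Submodule.span_le.2 ?_
    rintro T (hT | ⟨X, hX, Y, hY, rfl⟩ | ⟨X, hX, Y, hY, Y', hY', rfl⟩)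
    · exact (hle hT).1
    · exact h.lie X (hle hX).1 Y hY.1
    · exact h.lie _ (h.lie X (hle hX).1 Y hY.1) Y' hY'.1
  -- brackets with the three parts
  have b0 : ∀ Z ∈ L0 L s, ∀ T ∈ S, Z * T - T * Z ∈ Submodule.span K S := by
    rintro Z hZ T (hT | ⟨X, hX, Y, hY, rfl⟩ | ⟨X, hX, Y, hY, Y', hY', rfl⟩)
    · exact hS1 _ (hst Z hZ T hT)
    · have e : Z * (X * Y - Y * X) - (X * Y - Y * X) * Z =
          ((Z * X - X * Z) * Y - Y * (Z * X - X * Z)) +
          (X * (Z * Y - Y * Z) - (Z * Y - Y * Z) * X) := by noncomm_ring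
      rw [e]
      exact Submodule.add_mem _ (hS2 _ (hst Z hZ X hX) Y hY) (hS2 X hX _ (A3_0m h hZ hY))
    · have e : Z * ((X * Y - Y * X) * Y' - Y' * (X * Y - Y * X)) -
          ((X * Y - Y * X) * Y' - Y' * (X * Y - Y * X)) * Z =
          (((Z * X - X * Z) * Y - Y * (Z * X - X * Z)) * Y' -
            Y' * ((Z * X - X * Z) * Y - Y * (Z * X - X * Z))) +
          ((X * (Z * Y - Y * Z) - (Z * Y - Y * Z) * X) * Y' -
            Y' * (X * (Z * Y - Y * Z) - (Z * Y - Y * Z) * X)) +
          ((X * Y - Y * X) * (Z * Y' - Y' * Z) - (Z * Y' - Y' * Z) * (X * Y - Y * X)) := by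
        noncomm_ring
      rw [e]
      exact Submodule.add_mem _ (Submodule.add_mem _ (hS3 _ (hst Z hZ X hX) Y hY Y' hY')
        (hS3 X hX _ (A3_0m h hZ hY) Y' hY')) (hS3 X hX Y hY _ (A3_0m h hZ hY'))
  have bm : ∀ Z ∈ Lm L s, ∀ T ∈ S, Z * T - T * Z ∈ Submodule.span K S := by
    rintro Z hZ T (hT | ⟨X, hX, Y, hY, rfl⟩ | ⟨X, hX, Y, hY, Y', hY', rfl⟩)
    · have := Submodule.neg_mem _ (hS2 T hT Z hZ)
      rwa [neg_sub] at this
    · have := Submodule.neg_mem _ (hS3 X hX Y hY Z hZ)
      rwa [neg_sub] at this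
    · have h1 := A3_0m h (A3_pm h (hle hX) hY) hY'
      rw [A2_mm hZ h1, A2_mm h1 hZ, sub_self]
      exact Submodule.zero_mem _
  have bp : ∀ Z ∈ Lp L s, ∀ T ∈ S, Z * T - T * Z ∈ Submodule.span K S := by
    have key : ∀ Z ∈ Lp L s, ∀ X ∈ X₀, ∀ Y ∈ Lm L s,
        Z * (X * Y - Y * X) - (X * Y - Y * X) * Z =
          -((Z * Y - Y * Z) * X - X * (Z * Y - Y * Z)) := by
      intro Z hZ X hX Y hY
      have e : Z * (X * Y - Y * X) - (X * Y - Y * X) * Z =
          ((Z * X - X * Z) * Y - Y * (Z * X - X * Z)) -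
          ((Z * Y - Y * Z) * X - X * (Z * Y - Y * Z)) := by noncomm_ring
      rw [e, A2_pp hZ (hle hX), A2_pp (hle hX) hZ]
      noncomm_ring
    rintro Z hZ T (hT | ⟨X, hX, Y, hY, rfl⟩ | ⟨X, hX, Y, hY, Y', hY', rfl⟩)
    · rw [A2_pp hZ (hle hT), A2_pp (hle hT) hZ, sub_self]
      exact Submodule.zero_mem _
    · rw [key Z hZ X hX Y hY]
      exact Submodule.neg_mem _ (hS1 _ (hst _ (A3_pm h hZ hY) X hX))
    · have e : Z * ((X * Y - Y * X) * Y' - Y' * (X * Y - Y * X)) -
          ((X * Y - Y * X) * Y' - Y' * (X * Y - Y * X)) * Z =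
          ((Z * (X * Y - Y * X) - (X * Y - Y * X) * Z) * Y' -
            Y' * (Z * (X * Y - Y * X) - (X * Y - Y * X) * Z)) -
          (((Z * Y' - Y' * Z) * X - X * (Z * Y' - Y' * Z)) * Y -
            Y * ((Z * Y' - Y' * Z) * X - X * (Z * Y' - Y' * Z))) -
          (X * ((Z * Y' - Y' * Z) * Y - Y * (Z * Y' - Y' * Z)) -
            ((Z * Y' - Y' * Z) * Y - Y * (Z * Y' - Y' * Z)) * X) := by noncomm_ring
      rw [e, key Z hZ X hX Y hY]
      have hW := A3_pm h hZ hY'
      have e2 : -((Z * Y - Y * Z) * X - X * (Z * Y - Y * Z)) * Y' -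
          Y' * -((Z * Y - Y * Z) * X - X * (Z * Y - Y * Z)) =
          -(((Z * Y - Y * Z) * X - X * (Z * Y - Y * Z)) * Y' -
          Y' * ((Z * Y - Y * Z) * X - X * (Z * Y - Y * Z))) := by noncomm_ring
      rw [e2]
      exact Submodule.sub_mem _ (Submodule.sub_mem _ (Submodule.neg_mem _
        (hS2 _ (hst _ (A3_pm h hZ hY) X hX) Y' hY')) (hS2 _ (hst _ hW X hX) Y hY))
        (hS2 X hX _ (A3_0m h hW hY))
  have hid : ∀ Z ∈ L, ∀ T ∈ Submodule.span K S, Z * T - T * Z ∈ Submodule.span K S := by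
    intro Z hZ T hT
    obtain ⟨a, ha, b, hb, c, hc, rfl⟩ := A2_decomp h hs hs2 hZ
    induction hT using Submodule.span_induction with
    | mem T hT =>
      have e : (a + b + c) * T - T * (a + b + c) = (a * T - T * a) + (b * T - T * b) +
          (c * T - T * c) := by noncomm_ring
      rw [e]
      exact Submodule.add_mem _ (Submodule.add_mem _ (bp a ha T hT) (b0 b hb T hT))
        (bm c hc T hT)
    | zero => simp
    | add x y _ _ hx hy =>
      have e : (a + b + c) * (x + y) - (x + y) * (a + b + c) =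
          ((a + b + c) * x - x * (a + b + c)) + ((a + b + c) * y - y * (a + b + c)) := by
        noncomm_ring
      rw [e]
      exact Submodule.add_mem _ hx hy
    | smul r x _ hx =>
      rw [mul_smul_comm, smul_mul_assoc, ← smul_sub]
      exact Submodule.smul_mem _ r hx
  have hL : L ≤ Submodule.span K S := by
    rcases h.simple _ hSL hid with h1 | h1
    · exfalso
      apply h0
      rw [eq_bot_iff, ← h1]
      exact hS1
    · exact h1.ge
  have hφ : ∀ T ∈ Submodule.span K S, (1 + s) * T * (1 - s) ∈ X₀ := by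
    intro T hT
    induction hT using Submodule.span_induction with
    | mem T hT =>
      rcases hT with hT | ⟨X, hX, Y, hY, rfl⟩ | ⟨X, hX, Y, hY, Y', hY', rfl⟩
      · have e : (1 + s) * T * (1 - s) = (4 : K) • T := by
          have : (1 + s) * T * (1 - s) = T + s * T - T * s - (s * T) * s := by noncomm_ring
          rw [this, (hle hT).2.1, (hle hT).2.2]
          module
        rw [e]
        exact X₀.smul_mem _ hT
      · have h1 := A3_pm h (hle hX) hY
        have e : (1 + s) * (X * Y - Y * X) * (1 - s) = 0 := by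
          generalize X * Y - Y * X = Z at h1
          have : (1 + s) * Z * (1 - s) = Z - Z * s + s * Z - (s * Z) * s := by noncomm_ring
          rw [this, h1.2, mul_assoc, hs2]
          noncomm_ring
        rw [e]
        exact X₀.zero_mem
      · have h1 := A3_0m h (A3_pm h (hle hX) hY) hY'
        have e : (1 + s) * ((X * Y - Y * X) * Y' - Y' * (X * Y - Y * X)) * (1 - s) = 0 := by
          generalize (X * Y - Y * X) * Y' - Y' * (X * Y - Y * X) = Z at h1
          have : (1 + s) * Z * (1 - s) = (Z + s * Z) * (1 - s) := by noncomm_ring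
          rw [this, h1.2.1]
          simp
        rw [e]
        exact X₀.zero_mem
    | zero => simp
    | add x y _ _ hx hy =>
      rw [mul_add, add_mul]
      exact X₀.add_mem hx hy
    | smul r x _ hx =>
      rw [mul_smul_comm, smul_mul_assoc]
      exact X₀.smul_mem r hx
  apply le_antisymm hle
  intro a ha
  have h1 := hφ a (hL ha.1)
  have e : (1 + s) * a * (1 - s) = (4 : K) • a := by
    have : (1 + s) * a * (1 - s) = a + s * a - a * s - (s * a) * s := by noncomm_ring
    rw [this, ha.2.1, ha.2.2]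
    module
  rw [e] at h1
  have h2 := X₀.smul_mem (1 / 4 : K) h1
  rw [smul_smul] at h2
  norm_num at h2
  exact h2

/-- The same for the negative part: apply `A3_irr` to the involution `-s`;
`Lp L (-s) = Lm L s` and `L0 L (-s) = L0 L s`. -/
theorem A3_irr' [CharZero K] [IsAlgClosed K] [FiniteDimensional K V] [Nontrivial V]
    (h : CoreN L) {s : Module.End K V} (hs : InL L s) (hs2 : s * s = 1)
    {X₀ : Submodule K (Module.End K V)} (hle : X₀ ≤ Lm L s) (h0 : X₀ ≠ ⊥)
    (hst : ∀ Z ∈ L0 L s, ∀ X ∈ X₀, Z * X - X * Z ∈ X₀) : X₀ = Lm L s := by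
  have hp : Lp L (-s) = Lm L s := by
    ext X
    rw [mem_Lp, mem_Lm, neg_mul, mul_neg, neg_eq_iff_eq_neg, neg_inj]
  have h00 : L0 L (-s) = L0 L s := by
    ext X
    rw [mem_L0, mem_L0, neg_mul, mul_neg, neg_inj]
  have := A3_irr h (InL.neg hs) (s := -s) (by rw [neg_mul_neg, hs2]) (X₀ := X₀)
    (by rw [hp]; exact hle) h0 (by rw [h00]; exact hst)
  rw [this, hp]

end Pool.Agent.H25U
end

-- from Lib.H25U.A3s
section

/-!
# A3s: `L0` is spanned by brackets
-/

set_option autoImplicit false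
set_option linter.unusedSectionVars false
namespace Pool.Agent.H25U
open Module Pool.Agent.H53Toric Pool.Agent.H49M
open Pool.Agent.H86N (CoreN)

variable {K : Type*} [Field K] {V : Type*} [AddCommGroup V] [Module K V]

variable {L : Submodule K (Module.End K V)}

/-- Chunk A3s. The span `I` of `Lp`, `Lm` and all `[X, Y]`, `X ∈ Lp`, `Y ∈ Lm`, is a nonzero ideal
(`[Lp, Lp] = 0`, `[Lm, Lm] = 0`, `[L0, Lp] ⊆ Lp`, `[[X, Y], Lp] ⊆ Lp`, Jacobi), hence `I = L`;
compare the components commuting with `s`: for `Z = a + b + c ∈ I` with `Z ∈ L0` apply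
`T ↦ T - (1/4)(1+s)T(1-s) - (1/4)(1-s)T(1+s)`, which kills `Lp` and `Lm` and is the identity on
operators commuting with `s`. -/
theorem A3_span [CharZero K] [IsAlgClosed K] [FiniteDimensional K V] [Nontrivial V]
    (h : CoreN L) {s : Module.End K V} (hs : InL L s) (hs2 : s * s = 1)
    {Z : Module.End K V} (hZ : Z ∈ L0 L s) :
    Z ∈ Submodule.span K {W | ∃ X ∈ Lp L s, ∃ Y ∈ Lm L s, W = X * Y - Y * X} := by
  set B := Submodule.span K {W | ∃ X ∈ Lp L s, ∃ Y ∈ Lm L s, W = X * Y - Y * X} with hB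
  let I : Submodule K (Module.End K V) := Lp L s ⊔ B ⊔ Lm L s
  have hBm : ∀ X ∈ Lp L s, ∀ Y ∈ Lm L s, X * Y - Y * X ∈ B := fun X hX Y hY =>
    Submodule.subset_span ⟨X, hX, Y, hY, rfl⟩
  have hI1 : Lp L s ≤ I := le_sup_left.trans le_sup_left
  have hI2 : B ≤ I := le_sup_right.trans le_sup_left
  have hI3 : Lm L s ≤ I := le_sup_right
  have hBL0 : B ≤ L0 L s := by
    refine Submodule.span_le.2 ?_
    rintro _ ⟨X, hX, Y, hY, rfl⟩
    exact A3_pm h hX hY
  have hIL : I ≤ L := by
    refine sup_le (sup_le (fun X hX => hX.1) fun X hX => (hBL0 hX).1) fun X hX => hX.1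
  have h0B : ∀ Z ∈ L0 L s, ∀ T ∈ B, Z * T - T * Z ∈ B := by
    intro Z hZ T hT
    induction hT using Submodule.span_induction with
    | mem T hT =>
      obtain ⟨X, hX, Y, hY, rfl⟩ := hT
      have e : Z * (X * Y - Y * X) - (X * Y - Y * X) * Z =
          ((Z * X - X * Z) * Y - Y * (Z * X - X * Z)) +
          (X * (Z * Y - Y * Z) - (Z * Y - Y * Z) * X) := by noncomm_ring
      rw [e]
      exact B.add_mem (hBm _ (A3_0p h hZ hX) Y hY) (hBm X hX _ (A3_0m h hZ hY))
    | zero => simp
    | add x y _ _ hx hy =>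
      have e : Z * (x + y) - (x + y) * Z = (Z * x - x * Z) + (Z * y - y * Z) := by noncomm_ring
      rw [e]
      exact B.add_mem hx hy
    | smul r x _ hx =>
      rw [mul_smul_comm, smul_mul_assoc, ← smul_sub]
      exact B.smul_mem r hx
  have hid : ∀ Z ∈ L, ∀ T ∈ I, Z * T - T * Z ∈ I := by
    intro Z hZ T hT
    obtain ⟨a, ha, b, hb, c, hc, rfl⟩ := A2_decomp h hs hs2 hZ
    obtain ⟨T', hT', x3, hx3, rfl⟩ := Submodule.mem_sup.1 hT
    obtain ⟨x1, hx1, x2, hx2, rfl⟩ := Submodule.mem_sup.1 hT'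
    have e : (a + b + c) * (x1 + x2 + x3) - (x1 + x2 + x3) * (a + b + c) =
        (a * x1 - x1 * a) + -(x2 * a - a * x2) + (a * x3 - x3 * a) +
        (b * x1 - x1 * b) + (b * x2 - x2 * b) + (b * x3 - x3 * b) +
        -(x1 * c - c * x1) + -(x2 * c - c * x2) + (c * x3 - x3 * c) := by noncomm_ring
    rw [e, A2_pp ha hx1, A2_pp hx1 ha, A2_mm hc hx3, A2_mm hx3 hc, sub_self, zero_add, add_zero]
    have hx2' := hBL0 hx2
    exact I.add_mem (I.add_mem (I.add_mem (I.add_mem (I.add_mem (I.add_mem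
      (I.neg_mem (hI1 (A3_0p h hx2' ha))) (hI2 (hBm a ha x3 hx3))) (hI1 (A3_0p h hb hx1)))
      (hI2 (h0B b hb x2 hx2))) (hI3 (A3_0m h hb hx3))) (I.neg_mem (hI2 (hBm x1 hx1 c hc))))
      (I.neg_mem (hI3 (A3_0m h hx2' hc)))
  have hL : L ≤ I := by
    rcases h.simple I hIL hid with h1 | h1
    · exfalso
      apply A2_ne h hs hs2
      rw [eq_bot_iff, ← h1]
      exact hI1
    · exact h1.ge
  obtain ⟨T', hT', c, hc, hZe⟩ := Submodule.mem_sup.1 (hL hZ.1)
  obtain ⟨a, ha, b, hb, rfl⟩ := Submodule.mem_sup.1 hT'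
  have hb' := hBL0 hb
  -- compare the weights
  have h1 : s * Z = Z * s := hZ.2
  rw [← hZe] at h1
  have h2 : a - c = 0 := by
    have e : s * (a + b + c) - (a + b + c) * s = (s * a - a * s) + (s * b - b * s) +
        (s * c - c * s) := by noncomm_ring
    rw [← sub_eq_zero, e, ha.2.1, ha.2.2, hb'.2, hc.2.1, hc.2.2] at h1
    have e2 : a - -a + (b * s - b * s) + (-c - c) = (2 : K) • (a - c) := by module
    rw [e2] at h1
    exact (smul_eq_zero.1 h1).resolve_left (by norm_num)
  have h3 : a = 0 := by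
    have h4 : s * a = s * c := by rw [sub_eq_zero.1 h2]
    rw [ha.2.1, hc.2.1, ← sub_eq_zero.1 h2] at h4
    have h5 : (2 : K) • a = 0 := by
      rw [two_smul]
      nth_rw 1 [h4]
      exact neg_add_cancel _
    exact (smul_eq_zero.1 h5).resolve_left (by norm_num)
  have h4 : c = 0 := by rw [← sub_eq_zero.1 h2, h3]
  rw [← hZe, h3, h4, zero_add, add_zero]
  exact hb

end Pool.Agent.H25U
end

-- from Lib.H25U.A3v
section

/-!
# A3v: the plus space is irreducible
-/

set_option autoImplicit false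
set_option linter.unusedSectionVars false
namespace Pool.Agent.H25U
open Module Pool.Agent.H53Toric Pool.Agent.H49M
open Pool.Agent.H86N (CoreN)

variable {K : Type*} [Field K] {V : Type*} [AddCommGroup V] [Module K V]

variable {L : Submodule K (Module.End K V)}

/-- Chunk A3v. `V₊` is irreducible under `L0`. Let `U = W + span {Y w : Y ∈ Lm, w ∈ W}`. It is stable under
`L = Lp + L0 + Lm`: `Lp W = 0` (`X w = X s w = - X w`), `X Y w = (X Y - Y X) w ∈ W` for
`X ∈ Lp` as `X w = 0` and `X Y - Y X ∈ L0`; `Z Y w = (Z Y - Y Z) w + Y (Z w)` for `Z ∈ L0`;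
`Y' Y = 0`. So `U = V` by irreducibility; if `s v = v`, `v = w + Σ Y w`, apply `1 + s`:
`(1 + s) Y w = 0`, hence `2 v = 2 w`. -/
theorem A3_vec [CharZero K] [IsAlgClosed K] [FiniteDimensional K V] [Nontrivial V]
    (h : CoreN L) {s : Module.End K V} (hs : InL L s) (hs2 : s * s = 1)
    {W : Submodule K V} (hW : ∀ w ∈ W, s w = w) (hW0 : W ≠ ⊥)
    (hst : ∀ Z ∈ L0 L s, ∀ w ∈ W, Z w ∈ W) {v : V} (hv : s v = v) : v ∈ W := by
  let B := Submodule.span K {u | ∃ Y ∈ Lm L s, ∃ w ∈ W, u = Y w}
  have hB : ∀ Y ∈ Lm L s, ∀ w ∈ W, Y w ∈ B := fun Y hY w hw =>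
    Submodule.subset_span ⟨Y, hY, w, hw, rfl⟩
  let U := W ⊔ B
  have hU1 : W ≤ U := le_sup_left
  have hU2 : B ≤ U := le_sup_right
  have hp0 : ∀ X ∈ Lp L s, ∀ w ∈ W, X w = 0 := by
    intro X hX w hw
    have h1 : X (s w) = -(X w) := by
      change (X * s) w = _
      rw [hX.2.2]; rfl
    rw [hW w hw] at h1
    have h2 : (2 : K) • X w = 0 := by
      rw [two_smul]
      nth_rw 1 [h1]
      exact neg_add_cancel _
    exact (smul_eq_zero.1 h2).resolve_left (by norm_num)
  have hWst : ∀ X ∈ L, ∀ w ∈ W, X w ∈ U := by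
    intro X hX w hw
    obtain ⟨a, ha, b, hb, c, hc, rfl⟩ := A2_decomp h hs hs2 hX
    rw [LinearMap.add_apply, LinearMap.add_apply, hp0 a ha w hw, zero_add]
    exact U.add_mem (hU1 (hst b hb w hw)) (hU2 (hB c hc w hw))
  have hBst : ∀ X ∈ L, ∀ t ∈ B, X t ∈ U := by
    intro X hX t ht
    obtain ⟨a, ha, b, hb, c, hc, rfl⟩ := A2_decomp h hs hs2 hX
    induction ht using Submodule.span_induction with
    | mem t ht =>
      obtain ⟨Y, hY, w', hw', rfl⟩ := ht
      rw [LinearMap.add_apply, LinearMap.add_apply]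
      have e1 : a (Y w') = (a * Y - Y * a) w' := by
        rw [LinearMap.sub_apply, Module.End.mul_apply, Module.End.mul_apply, hp0 a ha w' hw',
          map_zero, sub_zero]
      have e2 : b (Y w') = (b * Y - Y * b) w' + Y (b w') := by
        rw [LinearMap.sub_apply, Module.End.mul_apply, Module.End.mul_apply, sub_add_cancel]
      have e3 : c (Y w') = 0 := by
        change (c * Y) w' = 0
        rw [A2_mm hc hY]; rfl
      rw [e1, e2, e3, add_zero]
      exact U.add_mem (hU1 (hst _ (A3_pm h ha hY) w' hw')) (U.add_mem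
        (hU2 (hB _ (A3_0m h hb hY) w' hw')) (hU2 (hB Y hY _ (hst b hb w' hw'))))
    | zero => simp
    | add x y _ _ hx hy =>
      rw [map_add]
      exact U.add_mem hx hy
    | smul r x _ hx =>
      rw [map_smul]
      exact U.smul_mem r hx
  have hst' : ∀ X ∈ L, ∀ u ∈ U, X u ∈ U := by
    intro X hX u hu
    obtain ⟨w, hw, t, ht, rfl⟩ := Submodule.mem_sup.1 hu
    rw [map_add]
    exact U.add_mem (hWst X hX w hw) (hBst X hX t ht)
  have hUtop : U = ⊤ := by
    rcases h.irr U hst' with h1 | h1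
    · exfalso
      apply hW0
      rw [eq_bot_iff, ← h1]
      exact hU1
    · exact h1
  have hst0 : ∀ t ∈ B, s t = -t := by
    intro t ht
    induction ht using Submodule.span_induction with
    | mem t ht =>
      obtain ⟨Y, hY, w', hw', rfl⟩ := ht
      change (s * Y) w' = _
      rw [hY.2.1]; rfl
    | zero => simp
    | add x y _ _ hx hy => rw [map_add, hx, hy, neg_add]
    | smul r x _ hx => rw [map_smul, hx, smul_neg]
  have hvU : v ∈ U := by rw [hUtop]; trivial
  obtain ⟨w, hw, t, ht, rfl⟩ := Submodule.mem_sup.1 hvU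
  rw [map_add, hW w hw, hst0 t ht] at hv
  have h1 : (2 : K) • t = 0 := by
    rw [two_smul]
    have := add_left_cancel hv
    nth_rw 1 [← this]
    exact neg_add_cancel _
  have h2 : t = 0 := (smul_eq_zero.1 h1).resolve_left (by norm_num)
  rw [h2, add_zero]
  exact hw

end Pool.Agent.H25U
end

-- from Lib.H25U.P4
section

/-!
# P4: the corner of a frame is irreducible; Burnside
-/

set_option autoImplicit false
set_option linter.unusedSectionVars false
namespace Pool.Agent.H25U
open Module Pool.Agent.H53Toric Pool.Agent.H49M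
open Pool.Agent.H86N (CoreN)

variable {K : Type*} [Field K] {V : Type*} [AddCommGroup V] [Module K V]

variable {L : Submodule K (Module.End K V)}

/-- Moving a lowering operator through a word. -/
theorem P4_move {g : Submodule K (Module.End K V)} (hg : IsLie g) {E : Module.End K V}
    {U : Submodule K V} {n : ℕ}
    (hn : ∀ l : List (Module.End K V), l.length ≤ n → (∀ x ∈ l, x ∈ g) → ∀ u ∈ U,
      E (l.prod u) ∈ U) {w : Module.End K V} (hw : w ∈ g) (hw0 : E * w = 0)
    (l₁ : List (Module.End K V)) :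
    ∀ l₂ : List (Module.End K V), l₁.length + l₂.length ≤ n → (∀ x ∈ l₁, x ∈ g) →
      (∀ x ∈ l₂, x ∈ g) → ∀ u ∈ U, E ((l₁.prod * w * l₂.prod) u) ∈ U := by
  induction l₁ using List.reverseRecOn with
  | nil =>
    intro l₂ _ _ _ u _
    rw [List.prod_nil, one_mul]
    change (E * (w * l₂.prod)) u ∈ U
    rw [← mul_assoc, hw0, zero_mul]
    exact U.zero_mem
  | append_singleton l₁ x ih =>
    intro l₂ hlen h1 h2 u hu
    have hx : x ∈ g := h1 x (by simp)
    have h1' : ∀ x ∈ l₁, x ∈ g := fun y hy => h1 y (by simp [hy])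
    have hlen' : l₁.length + 1 + l₂.length ≤ n := by
      rwa [List.length_append, List.length_singleton] at hlen
    have e : (l₁ ++ [x]).prod * w * l₂.prod = l₁.prod * w * (x :: l₂).prod +
        (l₁ ++ (x * w - w * x) :: l₂).prod := by
      simp only [List.prod_append, List.prod_cons, List.prod_nil]
      noncomm_ring
    rw [e, LinearMap.add_apply, map_add]
    apply U.add_mem
    · exact ih (x :: l₂) (by simp only [List.length_cons]; omega) h1' (by
        intro y hy
        rcases List.mem_cons.1 hy with rfl | hy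
        · exact hx
        · exact h2 y hy) u hu
    · apply hn _ _ _ u hu
      · simp only [List.length_append, List.length_cons]; omega
      · intro y hy
        rcases List.mem_append.1 hy with hy | hy
        · exact h1' y hy
        · rcases List.mem_cons.1 hy with rfl | hy
          · exact hg x hx w hw
          · exact h2 y hy

theorem P4_words {g : Submodule K (Module.End K V)} (hg : IsLie g) {E : Module.End K V}
    (low : ∀ z ∈ g, ∃ w ∈ g, E * w = 0 ∧ z * E = E * z * E + w * E) {U : Submodule K V}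
    (hU : ∀ u ∈ U, E u = u) (hst : ∀ C ∈ g, ∀ u ∈ U, E (C u) ∈ U) (n : ℕ) :
    ∀ l : List (Module.End K V), l.length ≤ n → (∀ x ∈ l, x ∈ g) → ∀ u ∈ U,
      E (l.prod u) ∈ U := by
  induction n with
  | zero =>
    intro l hl _ u hu
    have : l = [] := List.eq_nil_of_length_eq_zero (Nat.le_zero.1 hl)
    rw [this, List.prod_nil]
    change E u ∈ U
    rw [hU u hu]; exact hu
  | succ n ih =>
    intro l hl hlg u hu
    rcases List.eq_nil_or_concat l with rfl | ⟨l', z, rfl⟩
    · rw [List.prod_nil]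
      change E u ∈ U
      rw [hU u hu]; exact hu
    · rw [List.concat_eq_append] at hl hlg ⊢
      rw [List.length_append, List.length_singleton] at hl
      have hz : z ∈ g := hlg z (by simp)
      have hl' : ∀ x ∈ l', x ∈ g := fun y hy => hlg y (by simp [hy])
      obtain ⟨w, hw, hw0, hzw⟩ := low z hz
      have hzu : z u = E (z u) + w u := by
        have := LinearMap.congr_fun hzw u
        change z (E u) = E (z (E u)) + w (E u) at this
        rwa [hU u hu] at this
      have e : (l' ++ [z]).prod u = l'.prod (z u) := by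
        simp only [List.prod_append, List.prod_cons, List.prod_nil, mul_one]
        rfl
      rw [e, hzu, map_add, map_add]
      apply U.add_mem
      · exact ih l' (by omega) hl' _ (hst z hz u hu)
      · have h1 := P4_move hg ih hw hw0 l' [] (by simp; omega) hl' (by simp) u hu
        simpa using h1

theorem P4_irr_aux {g : Submodule K (Module.End K V)} (hg : IsLie g) (hirr : Irr g)
    {E : Module.End K V}
    (low : ∀ z ∈ g, ∃ w ∈ g, E * w = 0 ∧ z * E = E * z * E + w * E) {U : Submodule K V}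
    (hU : ∀ u ∈ U, E u = u) (hU0 : U ≠ ⊥) (hst : ∀ C ∈ g, ∀ u ∈ U, E (C u) ∈ U) (v : V) :
    E v ∈ U := by
  let W : Submodule K V :=
    { carrier := {v | ∀ l : List (Module.End K V), (∀ x ∈ l, x ∈ g) → E (l.prod v) ∈ U}
      add_mem' := by
        intro a b ha hb l hl
        rw [map_add, map_add]
        exact U.add_mem (ha l hl) (hb l hl)
      zero_mem' := by
        intro l _
        rw [map_zero, map_zero]; exact U.zero_mem
      smul_mem' := by
        intro c a ha l hl
        rw [map_smul, map_smul]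
        exact U.smul_mem c (ha l hl) }
  have hUW : U ≤ W := fun u hu l hl => P4_words hg low hU hst _ l le_rfl hl u hu
  have hWst : ∀ X ∈ g, ∀ w ∈ W, X w ∈ W := by
    intro X hX w hw l hl
    have := hw (l ++ [X]) (by
      intro x hx
      rcases List.mem_append.1 hx with hx | hx
      · exact hl x hx
      · rw [List.mem_singleton.1 hx]; exact hX)
    simpa using this
  rcases hirr W hWst with hW | hW
  · exact absurd (le_bot_iff.1 (hW ▸ hUW)) hU0
  · have hv : v ∈ W := by rw [hW]; trivial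
    simpa using hv [] (by simp)

/-- The lowering part. -/
theorem P4_low [CharZero K] (h : CoreN L) {s e f : Module.End K V} (F : Frame L s e f)
    {z : Module.End K V} (hz : z ∈ L) :
    ∃ w ∈ L, e * f * w = 0 ∧ z * (e * f) = e * f * z * (e * f) + w * (e * f) := by
  have hee : e * e = 0 := A2_pp F.e_mem F.e_mem
  have hff : f * f = 0 := A2_mm F.f_mem F.f_mem
  have pp : e * f * (e * f) = e * f := by rw [← mul_assoc, F.efe]
  have qq : f * e * (f * e) = f * e := by rw [← mul_assoc, F.fef]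
  have pq : e * f * (f * e) = 0 := by
    rw [mul_assoc, ← mul_assoc f f, hff, zero_mul, mul_zero]
  have qp : f * e * (e * f) = 0 := by
    rw [mul_assoc, ← mul_assoc e e, hee, zero_mul, mul_zero]
  have key := fun n => P0_block h.lie (c := ![e * f, 1 - e * f - f * e, f * e]) (w := ![1, 0, -1])
    (by
      intro i j
      fin_cases i <;> fin_cases j <;> simp [mul_sub, sub_mul, pp, qq, pq, qp])
    (by
      simp [Fin.sum_univ_succ])
    (by
      have := K0_H h.lie F
      simp [Fin.sum_univ_succ]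
      rwa [← sub_eq_add_neg]) hz n
  have k1 := key (-1)
  have k2 := key (-2)
  simp [Fin.sum_univ_succ] at k1 k2
  refine ⟨_, L.add_mem k1 k2, ?_, ?_⟩
  · simp only [mul_add, ← mul_assoc]
    have a1 : e * f * f = 0 := by rw [mul_assoc, hff, mul_zero]
    have a2 : e * f * (1 - e * f - f * e) = 0 := by
      rw [mul_sub, mul_sub, pp, pq]; simp
    rw [a1, a2]; simp
  · have e1 : z * (e * f) = (e * f + (1 - e * f - f * e) + f * e) * z * (e * f) := by
      have : e * f + (1 - e * f - f * e) + f * e = 1 := by abel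
      rw [this, one_mul]
    have e2 : (1 - e * f - f * e) * (e * f) = 0 := by
      rw [sub_mul, sub_mul, pp, qp]; simp
    rw [e1]
    simp only [add_mul, mul_assoc] at *
    rw [e2, pp]
    simp only [mul_zero, add_zero]
    abel

theorem P4_sub [IsAlgClosed K] {U : Type*} [AddCommGroup U] [Module K U]
    [FiniteDimensional K U] [Nontrivial U] (B : Subalgebra K (Module.End K U))
    (hirr : ∀ W : Submodule K U, (∀ b ∈ B, ∀ w ∈ W, b w ∈ W) → W = ⊥ ∨ W = ⊤)
    (f : Module.End K U) : f ∈ B := by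
  classical
  have : IsSimpleModule B U := by
    have : Nontrivial (Submodule B U) := by
      refine ⟨⊥, ⊤, ?_⟩
      intro h
      obtain ⟨u, hu⟩ := exists_ne (0 : U)
      have : u ∈ (⊥ : Submodule B U) := by rw [h]; trivial
      exact hu ((Submodule.mem_bot B).mp this)
    have : IsSimpleOrder (Submodule B U) := ⟨fun W => by
      have h1 := hirr (W.restrictScalars K) (fun b hb w hw => W.smul_mem ⟨b, hb⟩ hw)
      rcases h1 with h1 | h1
      · left
        rw [eq_bot_iff]
        intro w hw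
        have : w ∈ W.restrictScalars K := hw
        rw [h1, Submodule.mem_bot] at this
        rw [this]; exact Submodule.zero_mem _
      · right
        rw [eq_top_iff]
        intro w _
        have : w ∈ W.restrictScalars K := by rw [h1]; trivial
        exact this⟩
    exact IsSimpleModule.mk
  have hbij := IsSimpleModule.algebraMap_end_bijective_of_isAlgClosed (A := B) (V := U) K
  let f' : Module.End (Module.End B U) U :=
    { toFun := f
      map_add' := f.map_add
      map_smul' := by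
        intro φ m
        obtain ⟨k, rfl⟩ := hbij.2 φ
        simp }
  let b := Module.finBasis K U
  obtain ⟨r, hr⟩ := jacobson_density f' (Finset.univ.image b)
  have : f = (r : Module.End K U) := by
    apply b.ext
    intro i
    exact hr (b i) (Finset.mem_image_of_mem _ (Finset.mem_univ i))
  rw [this]; exact r.2

/-- Chunk P4a. The range of `p = e f` is irreducible under the corners `p X p`, `X ∈ L`. This is
`Peirce.irr` in H53Toric.Core4 (with `Peirce.words`, `Peirce.word_move`, `Peirce.lower`), whose proof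
does not use the parity; either copy it, or argue with the grading by `H = e f - f e`:
`V = V₁ + V₀ + V₋₁` (ranges of `p`, of `1 - p - q`, of `q = f e`), `L = ⊕ L_n`, `-2 ≤ n ≤ 2`
(`P0_block` with `c = (p, 1 - p - q, q)`, `w = (1, 0, -1)`). For `W ≤ V₁` stable under `L_0` (whose
elements act on `V₁` through `p X p`) the space
`W' = W + span L_{-1} W + span L_{-2} W + span L_{-1} L_{-1} W` is stable under `L`
(`L_1 W = L_2 W = 0`; move the raising operators to the right by brackets; degrees below `-1` vanish).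
So `W' = V`, and taking the component in `V₁` (multiply by `p`) gives `W = V₁`. -/
theorem P4_irr [CharZero K] [IsAlgClosed K] [FiniteDimensional K V] [Nontrivial V]
    (h : CoreN L) {s e f : Module.End K V} (F : Frame L s e f) {W : Submodule K V}
    (hW : ∀ w ∈ W, (e * f) w = w) (hW0 : W ≠ ⊥) (hst : ∀ X ∈ L, ∀ w ∈ W, (e * f) (X w) ∈ W)
    (v : V) : (e * f) v ∈ W :=
  P4_irr_aux h.lie h.irr (fun _ hz => P4_low h F hz) hW hW0 hst v

/-- Chunk P4b. Burnside's theorem in a corner. Let `U = range p`. The restrictions of the elements of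
`A` to `U` form an algebra of operators of `U` containing the identity (`p ∈ A`) which is
irreducible, so it is everything (Burnside; e.g. from `jacobson_density` and
`IsSimpleModule.algebraMap_end_bijective_of_isAlgClosed`, see `burnside_surj` in
Pool/Agent/Lib/Helper71/Kolchin.lean). -/
theorem P4_burnside [IsAlgClosed K] [FiniteDimensional K V] {p : Module.End K V} (hp : p * p = p)
    (hp0 : p ≠ 0) (A : NonUnitalSubalgebra K (Module.End K V)) (hpA : p ∈ A)
    (hA : ∀ a ∈ A, p * a = a ∧ a * p = a)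
    (hirr : ∀ W : Submodule K V, (∀ w ∈ W, p w = w) → W ≠ ⊥ → (∀ a ∈ A, ∀ w ∈ W, a w ∈ W) →
      ∀ v, p v ∈ W) (T : Module.End K V) : p * T * p ∈ A := by
  set U := LinearMap.range p with hU
  have hpU : ∀ u ∈ U, p u = u := by
    rintro _ ⟨v, rfl⟩
    rw [← Module.End.mul_apply, hp]
  have haU : ∀ a ∈ A, ∀ u : V, a u ∈ U := fun a ha u => ⟨a u, by
    rw [← Module.End.mul_apply, (hA a ha).1]⟩
  have : Nontrivial U := by
    rw [Submodule.nontrivial_iff_ne_bot]
    intro h
    exact hp0 (LinearMap.range_eq_bot.mp h)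
  let B : Subalgebra K (Module.End K U) :=
    { carrier := {T | ∃ a ∈ A, ∀ u : U, ((T u : U) : V) = a u}
      mul_mem' := by
        rintro S T ⟨a, ha, h1⟩ ⟨b, hb, h2⟩
        exact ⟨a * b, A.mul_mem ha hb, fun u => by
          rw [Module.End.mul_apply, h1, h2, Module.End.mul_apply]⟩
      add_mem' := by
        rintro S T ⟨a, ha, h1⟩ ⟨b, hb, h2⟩
        exact ⟨a + b, A.add_mem ha hb, fun u => by
          rw [LinearMap.add_apply, LinearMap.add_apply, Submodule.coe_add, h1, h2]⟩
      algebraMap_mem' := fun r => ⟨r • p, SMulMemClass.smul_mem r hpA, fun u => by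
        rw [LinearMap.smul_apply, hpU u u.2]; rfl⟩ }
  have hT : ∀ v, (p * T * p) v ∈ U := fun v => ⟨T (p v), rfl⟩
  have hmem := P4_sub B (by
    intro W hW
    by_cases hW0 : W = ⊥
    · exact Or.inl hW0
    · right
      rw [eq_top_iff]
      rintro ⟨u, hu⟩ -
      have := hirr (W.map U.subtype) (by
        rintro _ ⟨w, _, rfl⟩
        exact hpU w w.2) (by
        intro h0
        apply hW0
        rw [eq_bot_iff]
        intro w hw
        have h4 : (w : V) ∈ W.map U.subtype := ⟨w, hw, rfl⟩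
        rw [h0, Submodule.mem_bot] at h4
        exact Subtype.ext h4) (by
        rintro a ha _ ⟨w, hw, rfl⟩
        exact ⟨_, hW (a.restrict (fun u _ => haU a ha u) : Module.End K U)
          ⟨a, ha, fun u => rfl⟩ w hw, rfl⟩) u
      rw [hpU u hu] at this
      obtain ⟨w, hw, hwv⟩ := this
      have : w = ⟨u, hu⟩ := Subtype.ext hwv
      rwa [← this])
    ((p * T * p).restrict (p := U) (q := U) (fun u _ => hT u))
  obtain ⟨a, ha, h1⟩ := hmem
  have : p * T * p = a := by
    ext v
    have h2 := h1 ⟨p v, v, rfl⟩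
    have h3 : (p * T * p) (p v) = a (p v) := h2
    rw [← Module.End.mul_apply, ← Module.End.mul_apply, mul_assoc _ p p, hp, (hA a ha).2] at h3
    exact h3
  rw [this]; exact ha

end Pool.Agent.H25U
end

-- from Lib.H34Z.G01
section

/-!
# G01: generation of the special linear and the symplectic group
-/

set_option autoImplicit false
set_option linter.unusedSectionVars false
namespace Pool.Agent.H34Z
open Matrix Module Pool.Agent.H53Toric

variable {κ : Type*} [Fintype κ] [DecidableEq κ] {K : Type*} [Field K] [CharZero K] {J : Matrix κ κ K} {Z : Set (Matrix κ κ K)}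

/-- PROOF. `H76U.sl_gen`; `transvection i j c = 1 + single i j c`, and `single i j c` (`i ≠ j`) has square zero
(`Matrix.single_mul_single_of_ne`) and trace zero. -/
theorem gen_sl (h1 : (1 : Matrix κ κ K) ∈ Z) (hmul : ∀ a ∈ Z, ∀ b ∈ Z, a * b ∈ Z)
    (hexp : ∀ N : Matrix κ κ K, N * N = 0 → N.trace = 0 → 1 + N ∈ Z) {M : Matrix κ κ K} (hM : M.det = 1) : M ∈ Z := by
  refine Pool.Agent.H76U.sl_gen h1 hmul (fun i j hij c => ?_) hM
  rw [transvection]
  refine hexp _ ?_ ?_
  · exact single_mul_single_of_ne _ _ _ _ (Ne.symm hij) _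
  · exact Matrix.trace_single_eq_of_ne i j c hij

/-- PROOF. `H53Toric.sp_mem` for `ω = om J` and the set `{x | ∃ N ∈ Z, x = phi N}`: `om_alt hJ`, `om_nd hdet`; `1 + a • trv (om J) d = phi (1 + a •
vecMulVec d (J *ᵥ d))` (`phi_trv`), and `N = a • vecMulVec d (J *ᵥ d)` has square zero (`trv_sq`) and is skew (`trv_skew`).  `x = phi M` preserves
`om J` by `om_mul`.  See `H76U/Grp4.lean`, `comp_self`, for the same application. -/
theorem gen_sp (hJ : Jᵀ = -J) (hdet : IsUnit J.det) (hZ : Zs J Z) {M : Matrix κ κ K} (hM : Mᵀ * J * M = J) : M ∈ Z := by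
  have h1 := sp_mem (ω := om J) (Z := {X | (phi (ι := κ) (K := K)).symm X ∈ Z})
    (om_alt hJ) (om_nd hdet) (by
      change (phi (ι := κ) (K := K)).symm 1 ∈ Z
      rw [map_one]; exact hZ.one) (by
      intro a ha b hb
      change (phi (ι := κ) (K := K)).symm (a * b) ∈ Z
      rw [map_mul]; exact hZ.mul _ ha _ hb) (by
      intro a d
      change (phi (ι := κ) (K := K)).symm (1 + a • trv (om J) d) ∈ Z
      rw [← phi_trv, ← map_smul, ← map_one (phi (ι := κ) (K := K)), ← map_add,
        AlgEquiv.symm_apply_apply]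
      have h2 : Matrix.vecMulVec d (J *ᵥ d) * Matrix.vecMulVec d (J *ᵥ d) = 0 := by
        apply (phi (ι := κ) (K := K)).injective
        rw [map_mul, phi_trv, map_zero, trv_sq (om_alt hJ)]
      refine hZ.exp _ ?_ ?_
      · rw [smul_mul_assoc, mul_smul_comm, h2, smul_zero, smul_zero]
      · rw [Matrix.transpose_smul, smul_mul_assoc, mul_smul_comm, ← smul_add, trv_skew hJ d, smul_zero])
    (finrank K (κ → K)) (phi M) (by
      intro v w
      rw [phi_apply, phi_apply, om_mul, hM]) (Nat.le_add_left _ _)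
  change (phi (ι := κ) (K := K)).symm (phi M) ∈ Z at h1
  rwa [AlgEquiv.symm_apply_apply] at h1

end Pool.Agent.H34Z
end
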