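import Pool.Agent.Lib.H1M.RC.M020
import Pool.Agent.Lib.H1M.RC.M021
import Pool.Agent.Lib.H1M.RC.M025
import Pool.Agent.Lib.H1M.RC.M026

/-! Merged copies (to shorten the build) of Lib.H25U.P2, Lib.H86N.E2. -/

-- from Lib.H25U.P2
section

/-!
# P2: the block decomposition of a grid
-/

set_option autoImplicit false
set_option linter.unusedSectionVars false
namespace Pool.Agent.H25U
open Module Pool.Agent.H53Toric Pool.Agent.H49M
open Pool.Agent.H86N (CoreN)

variable {K : Type*} [Field K] {V : Type*} [AddCommGroup V] [Module K V]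

variable {L : Submodule K (Module.End K V)}

/-- As `H49M.P0_block`, membership modulo scalars. -/
theorem P0_block [CharZero K] {L : Submodule K (Module.End K V)} (hl : IsLie L) {m : ℕ}
    {c : Fin m → Module.End K V} (hc : ∀ i j, c i * c j = if i = j then c i else 0)
    (hsum : ∑ i, c i = 1) {w : Fin m → ℤ} (hD : InW L (∑ i, (w i : K) • c i))
    {X : Module.End K V} (hX : X ∈ L) (n : ℤ) :
    ∑ i, ∑ j, (if w i - w j = n then c i * X * c j else 0) ∈ L := by
  classical
  set D := ∑ i, (w i : K) • c i with hDdef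
  have hDc : ∀ i, D * c i = (w i : K) • c i := by
    intro i
    rw [hDdef, Finset.sum_mul]
    simp [hc]
  have hcD : ∀ i, c i * D = (w i : K) • c i := by
    intro i
    rw [hDdef, Finset.mul_sum]
    simp [hc]
  set F : ℤ → Module.End K V := fun n =>
    ∑ i, ∑ j, (if w i - w j = n then c i * X * c j else 0) with hF
  set T : Module.End K V →ₗ[K] Module.End K V :=
    LinearMap.mulLeft K D - LinearMap.mulRight K D with hT
  have hTapp : ∀ Y, T Y = D * Y - Y * D := fun Y => rfl
  set S : Finset ℤ := (Finset.univ ×ˢ Finset.univ : Finset (Fin m × Fin m)).image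
    (fun q => w q.1 - w q.2) with hS
  have hTL : ∀ Y ∈ L, T Y ∈ L := fun Y hY => hD.br hl hY
  have hTF : ∀ n ∈ S, T (F n) = (n : K) • F n := by
    intro k _
    rw [hF]
    simp only
    rw [map_sum, Finset.smul_sum]
    refine Finset.sum_congr rfl fun i _ => ?_
    rw [map_sum, Finset.smul_sum]
    refine Finset.sum_congr rfl fun j _ => ?_
    split
    · rename_i hk
      rw [hTapp, ← mul_assoc, ← mul_assoc, hDc, mul_assoc _ (c j) D, hcD, smul_mul_assoc,
        smul_mul_assoc, mul_smul_comm, ← sub_smul, ← hk]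
      push_cast; rfl
    · rw [map_zero, smul_zero]
  have hsumF : ∑ k ∈ S, F k = X := by
    rw [hF]
    simp only
    rw [Finset.sum_comm]
    have : ∀ i ∈ (Finset.univ : Finset (Fin m)), ∑ k ∈ S, ∑ j, (if w i - w j = k then
        c i * X * c j else 0) = ∑ j, c i * X * c j := by
      intro i _
      rw [Finset.sum_comm]
      refine Finset.sum_congr rfl fun j _ => ?_
      rw [Finset.sum_ite_eq, if_pos]
      rw [hS, Finset.mem_image]
      exact ⟨(i, j), by simp, rfl⟩
    rw [Finset.sum_congr rfl this]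
    simp_rw [← Finset.mul_sum, hsum, mul_one, ← Finset.sum_mul, hsum, one_mul]
  by_cases hn : n ∈ S
  · exact P0_elim L T hTL S F hTF (by rw [hsumF]; exact hX) n hn
  · have : F n = 0 := by
      rw [hF]
      simp only
      refine Finset.sum_eq_zero fun i _ => Finset.sum_eq_zero fun j _ => ?_
      rw [if_neg]
      intro h
      apply hn
      rw [hS, Finset.mem_image]
      exact ⟨(i, j), by simp, h⟩
    change F n ∈ L
    rw [this]; exact L.zero_mem

/-- The block components of `L`. -/
theorem P2_aux [CharZero K] (hl : IsLie L) {p q : Fin 3 → Module.End K V}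
    (hpp : ∀ i j, p i * p j = if i = j then p i else 0)
    (hqq : ∀ i j, q i * q j = if i = j then q i else 0)
    (hpq : ∀ i j, p i * q j = 0) (hqp : ∀ i j, q i * p j = 0)
    (hsum : p 0 + p 1 + p 2 + (q 0 + q 1 + q 2) = 1)
    (hmem : ∀ i, InW L (p i - q i)) {X : Module.End K V} (hX : X ∈ L) (n : ℤ) :
    ∑ i, ∑ j, (if (![1, 10, 100, -1, -10, -100] : Fin 6 → ℤ) i -
      (![1, 10, 100, -1, -10, -100] : Fin 6 → ℤ) j = n then
      (![p 0, p 1, p 2, q 0, q 1, q 2] : Fin 6 → Module.End K V) i * X *
      (![p 0, p 1, p 2, q 0, q 1, q 2] : Fin 6 → Module.End K V) j else 0) ∈ L := by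
  refine P0_block hl (c := ![p 0, p 1, p 2, q 0, q 1, q 2]) ?_ ?_
    (w := ![1, 10, 100, -1, -10, -100]) ?_ hX n
  · intro i j
    fin_cases i <;> fin_cases j <;> simp [hpp, hqq, hpq, hqp]
  · rw [← hsum]
    simp [Fin.sum_univ_succ]
    abel
  · have h1 : ∑ i, (((![1, 10, 100, -1, -10, -100] : Fin 6 → ℤ) i : ℤ) : K) •
        (![p 0, p 1, p 2, q 0, q 1, q 2] : Fin 6 → Module.End K V) i =
        (p 0 - q 0) + (10 : K) • (p 1 - q 1) + (100 : K) • (p 2 - q 2) := by
      simp [Fin.sum_univ_succ]
      module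
    rw [h1]
    exact ((hmem 0).add (InW.smul _ (hmem 1))).add (InW.smul _ (hmem 2))

/-- Chunk P2. The idempotents: `e f`, `e' f'` are idempotent, orthogonal (`e f e' = 0`), absorbed
by `(1+s)/2`; same on the other side. `adj s = -s`, `adj (e f) = adj f adj e = f e` (`A0_mul`,
`Core.skew`). `mem`: `p 1 - q 1 = e f - f e`, `p 2 - q 2 = e' f' - f' e'` (`K0_H`) and
`p 0 - q 0 = s - (p 1 - q 1) - (p 2 - q 2)`. The other fields follow from `P0_block` with
`c = (p 0, p 1, p 2, q 0, q 1, q 2)` (`Fin 6`) and weights `(1, 10, 100, -1, -10, -100)`: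
`D = (p 0 - q 0) + 10 (p 1 - q 1) + 100 (p 2 - q 2)`; the difference `w (p i) - w (p j)`, `i ≠ j`,
occurs only for `p i X p j` and `q j X q i`, the difference `w (p i) + w (p j)` only for
`p i X q j`, `p j X q i`, and `0` only for the diagonal blocks. -/
theorem P2_blocks [CharZero K] (h : CoreN L) {s e f e' f' u : Module.End K V}
    (G : Grid L s e f e' f' u) : BlocksN L (pp s e f e' f') (qq s e f e' f') := by
  obtain ⟨P, hP⟩ : ∃ P : Module.End K V, P = (1 / 2 : K) • (1 + s) := ⟨_, rfl⟩
  obtain ⟨Q, hQ⟩ : ∃ Q : Module.End K V, Q = (1 / 2 : K) • (1 - s) := ⟨_, rfl⟩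
  have hs2 := G.F.s_sq
  have hPP : P * P = P := by
    rw [hP, smul_mul_smul_comm]
    have : (1 + s) * (1 + s) = (2 : K) • (1 + s) := by
      have e1 : (1 + s) * (1 + s) = 1 + s + s + s * s := by noncomm_ring
      rw [e1, hs2, two_smul]; abel
    rw [this, smul_smul]; norm_num
  have hQQ : Q * Q = Q := by
    rw [hQ, smul_mul_smul_comm]
    have : (1 - s) * (1 - s) = (2 : K) • (1 - s) := by
      have e1 : (1 - s) * (1 - s) = 1 - s - s + s * s := by noncomm_ring
      rw [e1, hs2, two_smul]; abel
    rw [this, smul_smul]; norm_num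
  have hPQ : P * Q = 0 := by
    rw [hP, hQ, smul_mul_smul_comm]
    have e1 : (1 + s) * (1 - s) = 1 - s * s := by noncomm_ring
    rw [e1, hs2, sub_self, smul_zero]
  have hQP : Q * P = 0 := by
    rw [hP, hQ, smul_mul_smul_comm]
    have e1 : (1 - s) * (1 + s) = 1 - s * s := by noncomm_ring
    rw [e1, hs2, sub_self, smul_zero]
  have hPpQ : P + Q = 1 := by
    rw [hP, hQ, ← smul_add]
    have : (1 + s + (1 - s)) = (2 : K) • (1 : Module.End K V) := by rw [two_smul]; abel
    rw [this, smul_smul]; norm_num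
  -- absorption
  have aP : ∀ {X : Module.End K V}, s * X = X → P * X = X := by
    intro X hX
    rw [hP, smul_mul_assoc, add_mul, one_mul, hX, ← two_smul K, smul_smul]; norm_num
  have aP' : ∀ {X : Module.End K V}, X * s = X → X * P = X := by
    intro X hX
    rw [hP, mul_smul_comm, mul_add, mul_one, hX, ← two_smul K, smul_smul]; norm_num
  have aQ : ∀ {X : Module.End K V}, s * X = -X → Q * X = X := by
    intro X hX
    rw [hQ, smul_mul_assoc, sub_mul, one_mul, hX, sub_neg_eq_add, ← two_smul K, smul_smul]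
    norm_num
  have aQ' : ∀ {X : Module.End K V}, X * s = -X → X * Q = X := by
    intro X hX
    rw [hQ, mul_smul_comm, mul_sub, mul_one, hX, sub_neg_eq_add, ← two_smul K, smul_smul]
    norm_num
  have ePe : P * e = e := aP G.F.e_mem.2.1
  have eQe : e * Q = e := aQ' G.F.e_mem.2.2
  have fQf : Q * f = f := aQ G.F.f_mem.2.1
  have fPf : f * P = f := aP' G.F.f_mem.2.2
  have ePe' : P * e' = e' := aP G.F'.e_mem.2.1
  have eQe' : e' * Q = e' := aQ' G.F'.e_mem.2.2
  have fQf' : Q * f' = f' := aQ G.F'.f_mem.2.1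
  have fPf' : f' * P = f' := aP' G.F'.f_mem.2.2
  -- idempotents
  have t1 : e * f * (e * f) = e * f := by rw [← mul_assoc, G.F.efe]
  have t2 : e' * f' * (e' * f') = e' * f' := by rw [← mul_assoc, G.F'.efe]
  have t3 : e * f * (e' * f') = 0 := by
    rw [mul_assoc, ← mul_assoc f, G.o4, zero_mul, mul_zero]
  have t4 : e' * f' * (e * f) = 0 := by
    rw [mul_assoc, ← mul_assoc f', G.o2, zero_mul, mul_zero]
  have t5 : P * (e * f) = e * f := by rw [← mul_assoc, ePe]
  have t6 : e * f * P = e * f := by rw [mul_assoc, fPf]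
  have t7 : P * (e' * f') = e' * f' := by rw [← mul_assoc, ePe']
  have t8 : e' * f' * P = e' * f' := by rw [mul_assoc, fPf']
  have r1 : f * e * (f * e) = f * e := by rw [← mul_assoc, G.F.fef]
  have r2 : f' * e' * (f' * e') = f' * e' := by rw [← mul_assoc, G.F'.fef]
  have r3 : f * e * (f' * e') = 0 := by
    rw [mul_assoc, ← mul_assoc e, G.o1, zero_mul, mul_zero]
  have r4 : f' * e' * (f * e) = 0 := by
    rw [mul_assoc, ← mul_assoc e', G.o3, zero_mul, mul_zero]
  have r5 : Q * (f * e) = f * e := by rw [← mul_assoc, fQf]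
  have r6 : f * e * Q = f * e := by rw [mul_assoc, eQe]
  have r7 : Q * (f' * e') = f' * e' := by rw [← mul_assoc, fQf']
  have r8 : f' * e' * Q = f' * e' := by rw [mul_assoc, eQe']
  have epp : pp s e f e' f' = ![P - e * f - e' * f', e * f, e' * f'] := by rw [pp, hP]
  have eqq : qq s e f e' f' = ![Q - f * e - f' * e', f * e, f' * e'] := by rw [qq, hQ]
  obtain ⟨p, hp⟩ : ∃ p, p = pp s e f e' f' := ⟨_, rfl⟩
  obtain ⟨q, hq⟩ : ∃ q, q = qq s e f e' f' := ⟨_, rfl⟩
  have p0 : p 0 = P - e * f - e' * f' := by rw [hp, epp]; rfl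
  have p1 : p 1 = e * f := by rw [hp, epp]; rfl
  have p2 : p 2 = e' * f' := by rw [hp, epp]; rfl
  have q0 : q 0 = Q - f * e - f' * e' := by rw [hq, eqq]; rfl
  have q1 : q 1 = f * e := by rw [hq, eqq]; rfl
  have q2 : q 2 = f' * e' := by rw [hq, eqq]; rfl
  rw [← hp, ← hq]
  have hpp : ∀ i j, p i * p j = if i = j then p i else 0 := by
    intro i j
    fin_cases i <;> fin_cases j <;>
      simp [p0, p1, p2, sub_mul, mul_sub, hPP, t1, t2, t3, t4, t5, t6, t7, t8]
  have hqq : ∀ i j, q i * q j = if i = j then q i else 0 := by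
    intro i j
    fin_cases i <;> fin_cases j <;>
      simp [q0, q1, q2, sub_mul, mul_sub, hQQ, r1, r2, r3, r4, r5, r6, r7, r8]
  have hpP : ∀ i, p i * P = p i ∧ P * p i = p i := by
    intro i
    fin_cases i <;> simp [p0, p1, p2, sub_mul, mul_sub, hPP, t5, t6, t7, t8]
  have hqQ : ∀ i, q i * Q = q i ∧ Q * q i = q i := by
    intro i
    fin_cases i <;> simp [q0, q1, q2, sub_mul, mul_sub, hQQ, r5, r6, r7, r8]
  have hpq : ∀ i j, p i * q j = 0 := by
    intro i j
    rw [← (hpP i).1, ← (hqQ j).2, mul_assoc, ← mul_assoc P, hPQ, zero_mul, mul_zero]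
  have hqp : ∀ i j, q i * p j = 0 := by
    intro i j
    rw [← (hqQ i).1, ← (hpP j).2, mul_assoc, ← mul_assoc Q, hQP, zero_mul, mul_zero]
  have hsum : p 0 + p 1 + p 2 + (q 0 + q 1 + q 2) = 1 := by
    rw [p0, p1, p2, q0, q1, q2, ← hPpQ]; abel
  have hl := h.lie
  have H1 : e * f - f * e ∈ L := K0_H hl G.F
  have H2 : e' * f' - f' * e' ∈ L := K0_H hl G.F'
  have hmem : ∀ i, InW L (p i - q i) := by
    have h0 : p 0 - q 0 = s - (e * f - f * e) - (e' * f' - f' * e') := by
      have : s = P - Q := by
        rw [hP, hQ, ← smul_sub]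
        have : (1 + s - (1 - s)) = (2 : K) • s := by rw [two_smul]; abel
        rw [this, smul_smul]; norm_num
      rw [this, p0, q0]; abel
    intro i
    fin_cases i
    · change InW L (p 0 - q 0)
      rw [h0]
      exact (G.F.s_mem.mem.sub (InW.of_mem H1)).sub (InW.of_mem H2)
    · change InW L (p 1 - q 1)
      rw [p1, q1]; exact InW.of_mem H1
    · change InW L (p 2 - q 2)
      rw [p2, q2]; exact InW.of_mem H2
  have key := fun {X : Module.End K V} (hX : X ∈ L) (n : ℤ) =>
    P2_aux hl hpp hqq hpq hqp hsum hmem hX n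
  refine ⟨hpp, hqq, hpq, hqp, hsum, hmem, ?_, ?_, ?_, ?_, ?_, ?_⟩
  · intro X hX i j hij
    fin_cases i <;> fin_cases j
    · exact absurd rfl hij
    · have := key hX (-9)
      simp [Fin.sum_univ_succ] at this
      first | (simpa using this) | (rw [add_comm]; simpa using this)
    · have := key hX (-99)
      simp [Fin.sum_univ_succ] at this
      first | (simpa using this) | (rw [add_comm]; simpa using this)
    · have := key hX 9
      simp [Fin.sum_univ_succ] at this
      first | (simpa using this) | (rw [add_comm]; simpa using this)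
    · exact absurd rfl hij
    · have := key hX (-90)
      simp [Fin.sum_univ_succ] at this
      first | (simpa using this) | (rw [add_comm]; simpa using this)
    · have := key hX 99
      simp [Fin.sum_univ_succ] at this
      first | (simpa using this) | (rw [add_comm]; simpa using this)
    · have := key hX 90
      simp [Fin.sum_univ_succ] at this
      first | (simpa using this) | (rw [add_comm]; simpa using this)
    · exact absurd rfl hij
  · intro X hX i j hij
    fin_cases i <;> fin_cases j
    · exact absurd rfl hij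
    · have := key hX 11
      simp [Fin.sum_univ_succ] at this
      first | (simpa using this) | (rw [add_comm]; simpa using this)
    · have := key hX 101
      simp [Fin.sum_univ_succ] at this
      first | (simpa using this) | (rw [add_comm]; simpa using this)
    · have := key hX 11
      simp [Fin.sum_univ_succ] at this
      first | (simpa using this) | (rw [add_comm]; simpa using this)
    · exact absurd rfl hij
    · have := key hX 110
      simp [Fin.sum_univ_succ] at this
      first | (simpa using this) | (rw [add_comm]; simpa using this)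
    · have := key hX 101
      simp [Fin.sum_univ_succ] at this
      first | (simpa using this) | (rw [add_comm]; simpa using this)
    · have := key hX 110
      simp [Fin.sum_univ_succ] at this
      first | (simpa using this) | (rw [add_comm]; simpa using this)
    · exact absurd rfl hij
  · intro X hX i j hij
    fin_cases i <;> fin_cases j
    · exact absurd rfl hij
    · have := key hX (-11)
      simp [Fin.sum_univ_succ] at this
      first | (simpa using this) | (rw [add_comm]; simpa using this)
    · have := key hX (-101)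
      simp [Fin.sum_univ_succ] at this
      first | (simpa using this) | (rw [add_comm]; simpa using this)
    · have := key hX (-11)
      simp [Fin.sum_univ_succ] at this
      first | (simpa using this) | (rw [add_comm]; simpa using this)
    · exact absurd rfl hij
    · have := key hX (-110)
      simp [Fin.sum_univ_succ] at this
      first | (simpa using this) | (rw [add_comm]; simpa using this)
    · have := key hX (-101)
      simp [Fin.sum_univ_succ] at this
      first | (simpa using this) | (rw [add_comm]; simpa using this)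
    · have := key hX (-110)
      simp [Fin.sum_univ_succ] at this
      first | (simpa using this) | (rw [add_comm]; simpa using this)
    · exact absurd rfl hij
  · intro X hX i
    fin_cases i
    · have := key hX 2
      simp [Fin.sum_univ_succ] at this
      simpa using this
    · have := key hX 20
      simp [Fin.sum_univ_succ] at this
      simpa using this
    · have := key hX 200
      simp [Fin.sum_univ_succ] at this
      simpa using this
  · intro X hX i
    fin_cases i
    · have := key hX (-2)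
      simp [Fin.sum_univ_succ] at this
      simpa using this
    · have := key hX (-20)
      simp [Fin.sum_univ_succ] at this
      simpa using this
    · have := key hX (-200)
      simp [Fin.sum_univ_succ] at this
      simpa using this
  · intro X hX
    have := key hX 0
    simp [Fin.sum_univ_succ] at this
    simpa [add_assoc] using this

end Pool.Agent.H25U
end

-- from Lib.H86N.E2
section

/-!
# E2: the block between the two frames is everything: the orthogonal algebra
-/

set_option autoImplicit false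
set_option linter.unusedSectionVars false
namespace Pool.Agent.H86N
open Module Pool.Agent.H53Toric Pool.Agent.H49M

variable {K : Type*} [Field K] {V : Type*} [AddCommGroup V] [Module K V]
variable {L : Submodule K (Module.End K V)}

/-- The operator of `v` and `w` in the orthogonal algebra. -/
def dd (B : V →ₗ[K] V →ₗ[K] K) (v w : V) : Module.End K V :=
  (B w).smulRight v - (B v).smulRight w

theorem dd_apply (B : V →ₗ[K] V →ₗ[K] K) (v w x : V) : dd B v w x = B w x • v - B v x • w := rfl

theorem dd_swap (B : V →ₗ[K] V →ₗ[K] K) (v w : V) : dd B w v = -dd B v w := by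
  ext x
  rw [LinearMap.neg_apply, dd_apply, dd_apply, neg_sub]

theorem dd_add_left (B : V →ₗ[K] V →ₗ[K] K) (v v' w : V) : dd B (v + v') w = dd B v w + dd B v' w := by
  ext x
  rw [LinearMap.add_apply, dd_apply, dd_apply, dd_apply, map_add, LinearMap.add_apply, smul_add, add_smul]
  abel

theorem dd_add_right (B : V →ₗ[K] V →ₗ[K] K) (v w w' : V) : dd B v (w + w') = dd B v w + dd B v w' := by
  ext x
  rw [LinearMap.add_apply, dd_apply, dd_apply, dd_apply, map_add, LinearMap.add_apply, smul_add, add_smul]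
  abel

theorem dd_smul_left (B : V →ₗ[K] V →ₗ[K] K) (c : K) (v w : V) : dd B (c • v) w = c • dd B v w := by
  ext x
  rw [LinearMap.smul_apply, dd_apply, dd_apply, map_smul, LinearMap.smul_apply, smul_eq_mul]
  module

theorem dd_smul_right (B : V →ₗ[K] V →ₗ[K] K) (c : K) (v w : V) : dd B v (c • w) = c • dd B v w := by
  ext x
  rw [LinearMap.smul_apply, dd_apply, dd_apply, map_smul, LinearMap.smul_apply, smul_eq_mul]
  module

theorem dd_zero_left (B : V →ₗ[K] V →ₗ[K] K) (w : V) : dd B 0 w = 0 := by
  ext x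
  simp [dd_apply]

theorem dd_zero_right (B : V →ₗ[K] V →ₗ[K] K) (w : V) : dd B w 0 = 0 := by
  ext x
  simp [dd_apply]

theorem dd_br {B : V →ₗ[K] V →ₗ[K] K} {X : Module.End K V}
    (hX : ∀ v w, B (X v) w + B v (X w) = 0) (v w : V) :
    X * dd B v w - dd B v w * X = dd B (X v) w + dd B v (X w) := by
  ext x
  rw [LinearMap.sub_apply, LinearMap.add_apply, Module.End.mul_apply, Module.End.mul_apply, dd_apply,
    dd_apply, dd_apply, dd_apply, map_sub, map_smul, map_smul]
  have h1 : B (X v) x = -B v (X x) := eq_neg_of_add_eq_zero_left (hX v x)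
  have h2 : B (X w) x = -B w (X x) := eq_neg_of_add_eq_zero_left (hX w x)
  rw [h1, h2]
  module


/-- If the block between the two frames is everything and there is a nonzero symmetric invariant form,
`L` is the orthogonal algebra. -/
theorem full_so' [CharZero K] [IsAlgClosed K] [FiniteDimensional K V] [Nontrivial V]
    (h : CoreN L) {s e f e' f' u : Module.End K V} (G : Grid L s e f e' f' u)
    (hall : ∀ T : Module.End K V, e * f * T * (e * f) * (u * f') ∈ LL L (e * f) (e' * f'))
    {B : V →ₗ[K] V →ₗ[K] K} (hB : B ≠ 0) (hsym : ∀ v w, B v w = B w v)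
    (hinv : ∀ X ∈ L, ∀ v w, B (X v) w + B v (X w) = 0)
    {X : Module.End K V} (hX : ∀ v w, B (X v) w + B v (X w) = 0) : X ∈ L := by
  have hs := G.F.s_mem
  have hs2 := G.F.s_sq
  have eL := G.F.e_mem.1
  have fL := G.F.f_mem.1
  have e'L := G.F'.e_mem.1
  have f'L := G.F'.f_mem.1
  have BL := P2_blocks h G
  obtain ⟨p, hp⟩ : ∃ p, p = H49M.pp s e f e' f' := ⟨_, rfl⟩
  obtain ⟨q, hq⟩ : ∃ q, q = H49M.qq s e f e' f' := ⟨_, rfl⟩
  rw [← hp, ← hq] at BL
  have p0 : p 0 = (1 / 2 : K) • (1 + s) - e * f - e' * f' := by rw [hp]; rfl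
  have p1 : p 1 = e * f := by rw [hp]; rfl
  have p2 : p 2 = e' * f' := by rw [hp]; rfl
  have q0 : q 0 = (1 / 2 : K) • (1 - s) - f * e - f' * e' := by rw [hq]; rfl
  have q1 : q 1 = f * e := by rw [hq]; rfl
  have q2 : q 2 = f' * e' := by rw [hq]; rfl
  -- the form is nondegenerate
  have nd : ∀ v, (∀ w, B v w = 0) → v = 0 := by
    let R : Submodule K V := LinearMap.ker B
    have hR : ∀ X ∈ L, ∀ w ∈ R, X w ∈ R := by
      intro X hX w hw
      rw [LinearMap.mem_ker] at hw ⊢
      ext y
      have h1 := hinv X hX w y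
      rw [hw, LinearMap.zero_apply, add_zero] at h1
      exact h1
    rcases h.irr R hR with h1 | h1
    · intro v hv
      have : v ∈ R := LinearMap.mem_ker.2 (LinearMap.ext hv)
      rw [h1, Submodule.mem_bot] at this
      exact this
    · exact absurd (LinearMap.ker_eq_top.1 h1) hB
  -- the idempotents are adjoint to each other
  have a1 : ∀ v w, B (e (f v)) w = B v (f (e w)) := by
    intro v w
    have h1 := hinv e eL (f v) w
    have h2 := hinv f fL v (e w)
    linear_combination h1 - h2
  have a2 : ∀ v w, B (e' (f' v)) w = B v (f' (e' w)) := by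
    intro v w
    have h1 := hinv e' e'L (f' v) w
    have h2 := hinv f' f'L v (e' w)
    linear_combination h1 - h2
  have adj : ∀ i v w, B (p i v) w = B v (q i w) := by
    intro i v w
    fin_cases i
    · show B (p 0 v) w = B v (q 0 w)
      rw [p0, q0]
      simp only [LinearMap.sub_apply, LinearMap.smul_apply, LinearMap.add_apply, Module.End.one_apply,
        Module.End.mul_apply, map_sub, map_smul, map_add, a1, a2]
      have h1 := hinv s hs v w
      simp only [smul_eq_mul]
      linear_combination (1 / 2 : K) * h1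
    · show B (p 1 v) w = B v (q 1 w)
      rw [p1, q1]
      exact a1 v w
    · show B (p 2 v) w = B v (q 2 w)
      rw [p2, q2]
      exact a2 v w
  have adj' : ∀ i v w, B (q i v) w = B v (p i w) := by
    intro i v w
    rw [hsym, ← adj, hsym]
  have pf : ∀ i v, p i (p i v) = p i v := by
    intro i v
    have := BL.pp i i
    rw [if_pos rfl] at this
    exact LinearMap.congr_fun this v
  have qf : ∀ i v, q i (q i v) = q i v := by
    intro i v
    have := BL.qq i i
    rw [if_pos rfl] at this
    exact LinearMap.congr_fun this v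
  have pz : ∀ i j v, i ≠ j → p i (p j v) = 0 := by
    intro i j v hij
    have := BL.pp i j
    rw [if_neg hij] at this
    exact LinearMap.congr_fun this v
  have qz : ∀ i j v, i ≠ j → q i (q j v) = 0 := by
    intro i j v hij
    have := BL.qq i j
    rw [if_neg hij] at this
    exact LinearMap.congr_fun this v
  have pqz : ∀ i j v, p i (q j v) = 0 := fun i j v => LinearMap.congr_fun (BL.pq i j) v
  have qpz : ∀ i j v, q i (p j v) = 0 := fun i j v => LinearMap.congr_fun (BL.qp i j) v
  have hext : ∀ S T : Module.End K V, (∀ x y, B (S x) y = B (T x) y) → S = T := by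
    intro S T hST
    ext x
    rw [← sub_eq_zero]
    apply nd
    intro y
    rw [map_sub, LinearMap.sub_apply, hST, sub_self]
  -- the step F2
  have F2 : ∀ v w, p 1 v = v → q 2 w = w → dd B v w ∈ L := by
    intro v w hv hw
    obtain ⟨X, hX, hX'⟩ := hall (dd B v w * (u * f))
    have e1 : e * f * (dd B v w * (u * f)) * (e * f) * (u * f') = p 1 * dd B v w * p 2 := by
      have h1 : u * f * (e * f) = u * f := by rw [mul_assoc, ← mul_assoc f, G.F.fef]
      calc e * f * (dd B v w * (u * f)) * (e * f) * (u * f') =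
          e * f * dd B v w * (u * f * (e * f)) * (u * f') := by noncomm_ring
        _ = e * f * dd B v w * (u * f * (u * f')) := by rw [h1]; noncomm_ring
        _ = _ := by rw [(P3_u12 G).2, p1, p2]
    rw [e1, ← p1, ← p2] at hX'
    have hm := BL.m0 X hX 1 2 (by decide)
    have e2 : dd B v w = p 1 * X * p 2 + q 2 * X * q 1 := by
      apply hext
      intro x y
      have h1 : p 1 (X (p 2 x)) = B w x • v := by
        have h2 := LinearMap.congr_fun hX' x
        simp only [Module.End.mul_apply] at h2
        rw [← h2, dd_apply, map_sub, map_smul, map_smul, hv]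
        have h3 : B w (p 2 x) = B w x := by rw [← adj', hw]
        have h4 : B v (p 2 x) = 0 := by rw [← adj', ← hv, qpz, map_zero, LinearMap.zero_apply]
        rw [h3, h4, zero_smul, sub_zero]
      have h1' : p 1 (X (p 2 y)) = B w y • v := by
        have h2 := LinearMap.congr_fun hX' y
        simp only [Module.End.mul_apply] at h2
        rw [← h2, dd_apply, map_sub, map_smul, map_smul, hv]
        have h3 : B w (p 2 y) = B w y := by rw [← adj', hw]
        have h4 : B v (p 2 y) = 0 := by rw [← adj', ← hv, qpz, map_zero, LinearMap.zero_apply]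
        rw [h3, h4, zero_smul, sub_zero]
      rw [LinearMap.add_apply, map_add, LinearMap.add_apply]
      simp only [Module.End.mul_apply]
      rw [h1, adj' 2]
      have h5 : B (X (q 1 x)) (p 2 y) = -B x (B w y • v) := by
        rw [eq_neg_of_add_eq_zero_left (hinv X hX (q 1 x) (p 2 y)), adj' 1, h1']
      rw [h5, dd_apply]
      simp only [map_sub, map_smul, LinearMap.sub_apply, LinearMap.smul_apply, smul_eq_mul]
      rw [hsym x v]
      ring
    rw [e2]
    exact hm
  -- brackets
  have br : ∀ Y ∈ L, ∀ v w, dd B v w ∈ L → dd B (Y v) w + dd B v (Y w) ∈ L := by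
    intro Y hY v w hd
    rw [← dd_br (hinv Y hY)]
    exact h.lie Y hY _ hd
  have ep : ∀ v, p 1 v = v → e' v = 0 := by
    intro v hv
    rw [← hv, p1]
    exact LinearMap.congr_fun (by
      rw [← mul_assoc, A2_pp G.F'.e_mem G.F.e_mem, zero_mul] : e' * (e * f) = 0) v
  have F3 : ∀ v w, p 1 v = v → p 2 w = w → dd B v w ∈ L := by
    intro v w hv hw
    have hq : q 2 (f' w) = f' w := by
      rw [q2]
      exact LinearMap.congr_fun G.F'.fef w
    have h1 := br e' e'L v (f' w) (F2 v (f' w) hv hq)
    rw [ep v hv, dd_zero_left, zero_add] at h1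
    rw [p2] at hw
    have hw' : e' (f' w) = w := hw
    rwa [hw'] at h1
  -- a pair with nonzero product
  obtain ⟨a, w₀, ha, hw₀, haw⟩ : ∃ a w, p 2 a = a ∧ q 2 w = w ∧ B a w ≠ 0 := by
    have h1 : e' ≠ 0 := G.F'.e_ne
    obtain ⟨x, hx⟩ : ∃ x, e' x ≠ 0 := by
      by_contra hcon
      push Not at hcon
      exact h1 (LinearMap.ext hcon)
    have hx1 : p 2 (e' x) = e' x := by
      rw [p2]
      exact LinearMap.congr_fun G.F'.efe x
    obtain ⟨w, hw⟩ : ∃ w, B (e' x) w ≠ 0 := by
      by_contra hcon
      push Not at hcon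
      exact hx (nd _ hcon)
    refine ⟨e' x, q 2 w, hx1, qf 2 w, ?_⟩
    rw [← adj, hx1]
    exact hw
  -- F0
  have F0 : ∀ v v', p 1 v = v → p 1 v' = v' → dd B v v' ∈ L := by
    intro v v' hv hv'
    have h1 := br _ (F2 v w₀ hv hw₀) v' a (F3 v' a hv' ha)
    have z1 : B w₀ v' = 0 := by rw [← hw₀, adj', ← hv', pz 2 1 _ (by decide), map_zero]
    have z2 : B v v' = 0 := by rw [← hv, adj, ← hv', qpz, map_zero]
    have z3 : B v a = 0 := by rw [← hv, adj, ← ha, qpz, map_zero]
    rw [dd_apply, dd_apply, z1, z2, z3] at h1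
    simp only [zero_smul, sub_zero] at h1
    rw [dd_zero_left, zero_add, dd_smul_right, hsym w₀ a] at h1
    have h2 := L.smul_mem (B a w₀)⁻¹ h1
    rw [smul_smul, inv_mul_cancel₀ haw, one_smul, dd_swap] at h2
    have h3 := L.neg_mem h2
    rwa [neg_neg] at h3
  -- the submodule N
  let N : Submodule K V :=
    { carrier := {w | ∀ v, p 1 v = v → dd B v w ∈ L}
      add_mem' := by
        intro a b ha hb v hv
        rw [dd_add_right]
        exact L.add_mem (ha v hv) (hb v hv)
      zero_mem' := by
        intro v _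
        rw [dd_zero_right]
        exact L.zero_mem
      smul_mem' := by
        intro c a ha v hv
        rw [dd_smul_right]
        exact L.smul_mem c (ha v hv) }
  have N1 : ∀ w, p 1 w ∈ N := fun w v hv => F0 v _ hv (pf 1 w)
  have N2 : ∀ w, p 2 w ∈ N := fun w v hv => F3 v _ hv (pf 2 w)
  have N2' : ∀ w, q 2 w ∈ N := fun w v hv => F2 v _ hv (qf 2 w)
  have N02 : ∀ Y ∈ L, ∀ w, p 0 (Y (p 2 w)) ∈ N := by
    intro Y hY w v hv
    have hm := BL.m0 Y hY 0 2 (by decide)
    have h1 := br _ hm v (p 2 w) (N2 w v hv)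
    have z1 : (p 0 * Y * p 2 + q 2 * Y * q 0) v = 0 := by
      rw [LinearMap.add_apply]
      simp only [Module.End.mul_apply]
      rw [← hv, pz 2 1 _ (by decide), qpz]
      simp only [map_zero, add_zero]
    have z2 : (p 0 * Y * p 2 + q 2 * Y * q 0) (p 2 w) = p 0 (Y (p 2 w)) := by
      rw [LinearMap.add_apply]
      simp only [Module.End.mul_apply]
      rw [pf, qpz]
      simp only [map_zero, add_zero]
    rwa [z1, z2, dd_zero_left, zero_add] at h1
  have N02' : ∀ Y ∈ L, ∀ w, q 0 (Y (q 2 w)) ∈ N := by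
    intro Y hY w v hv
    have hm := BL.m0 Y hY 2 0 (by decide)
    have h1 := br _ hm v (q 2 w) (N2' w v hv)
    have z1 : (p 2 * Y * p 0 + q 0 * Y * q 2) v = 0 := by
      rw [LinearMap.add_apply]
      simp only [Module.End.mul_apply]
      rw [← hv, pz 0 1 _ (by decide), qpz]
      simp only [map_zero, add_zero]
    have z2 : (p 2 * Y * p 0 + q 0 * Y * q 2) (q 2 w) = q 0 (Y (q 2 w)) := by
      rw [LinearMap.add_apply]
      simp only [Module.End.mul_apply]
      rw [qf, pqz]
      simp only [map_zero, zero_add]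
    rwa [z1, z2, dd_zero_left, zero_add] at h1
  have ND : ∀ Y ∈ L, ∀ w, w ∈ N → (p 0 * Y * p 0 + p 1 * Y * p 1 + p 2 * Y * p 2 +
      (q 0 * Y * q 0 + q 1 * Y * q 1 + q 2 * Y * q 2)) w ∈ N := by
    intro Y hY w hw v hv
    have hm := BL.md Y hY
    have h1 := br _ hm v w (hw v hv)
    have z1 : (p 0 * Y * p 0 + p 1 * Y * p 1 + p 2 * Y * p 2 +
      (q 0 * Y * q 0 + q 1 * Y * q 1 + q 2 * Y * q 2)) v = p 1 (Y v) := by
      simp only [LinearMap.add_apply, Module.End.mul_apply]
      have y1 : p 0 v = 0 := by rw [← hv]; exact pz 0 1 _ (by decide)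
      have y2 : p 2 v = 0 := by rw [← hv]; exact pz 2 1 _ (by decide)
      have y3 : ∀ i, q i v = 0 := fun i => by rw [← hv]; exact qpz i 1 _
      rw [y1, y2, y3, y3, y3, hv]
      simp only [map_zero, add_zero, zero_add]
    rw [z1] at h1
    have h2 := hw _ (pf 1 (Y v))
    have h3 := L.sub_mem h1 h2
    rwa [add_sub_cancel_left] at h3
  -- products of blocks
  have u12 : p 1 = (u * f') * (u * f) := by rw [(P3_u12 G).1, p1]
  obtain ⟨⟨Z₁, hZ₁, hZ₁'⟩, -, -, -⟩ := P3_u1 h G
  obtain ⟨⟨Z₂, hZ₂, hZ₂'⟩, hu1, hu2⟩ := P3_u2 h G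
  have N01 : ∀ Y ∈ L, ∀ w, p 0 (Y (p 1 w)) ∈ N := by
    intro Y hY w
    have h1 : p 0 * Y * p 1 ∈ LL L (p 0) (p 1) := ⟨Y, hY, rfl⟩
    have h2 : u * f' ∈ LL L (p 1) (p 2) := by rw [p1, p2]; exact (P3_u1 h G).1
    obtain ⟨Y', hY', h3⟩ := P3_mul h.lie BL (by decide) (by decide) (by decide) h1 h2
    have h4 : p 0 * Y * p 1 = p 0 * Y' * p 2 * (u * f) := by
      rw [← h3]
      calc p 0 * Y * p 1 = p 0 * Y * p 1 * p 1 := by
            rw [mul_assoc (p 0 * Y), BL.pp, if_pos rfl]
        _ = p 0 * Y * p 1 * ((u * f') * (u * f)) := by rw [← u12]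
        _ = _ := by noncomm_ring
    have h5 := LinearMap.congr_fun h4 w
    simp only [Module.End.mul_apply] at h5
    rw [h5]
    exact N02 Y' hY' _
  have N01' : ∀ Y ∈ L, ∀ w, q 0 (Y (q 1 w)) ∈ N := by
    intro Y hY w
    -- `q 1 = (f u) (f' u)`
    have fu1 : q 1 = (f * u) * (f' * u) := by
      rw [q1]
      have : f * u * (f' * u) = f * (u * f' * u) := by noncomm_ring
      rw [this, G.ufu']
    -- the block of `u f - f u`
    have hW : u * f - f * u ∈ L := h.lie _ G.u_mem.1 _ fL
    have hm1 := BL.m0 Y hY 1 0 (by decide)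
    have hm2 := BL.m0 _ hW 2 1 (by decide)
    have hm3 := h.lie _ hm1 _ hm2
    have e1 : q 1 * (u * f - f * u) * q 2 = -(f * u * q 2) := by
      have z1 : q 1 * (u * f) = 0 := by
        have : q 1 * u = 0 := by
          rw [q1, mul_assoc, A2_pp G.F.e_mem G.u_mem, mul_zero]
        rw [← mul_assoc, this, zero_mul]
      have z2 : q 1 * (f * u) = f * u := by
        rw [q1, ← mul_assoc, G.F.fef]
      rw [mul_sub, z1, z2, zero_sub, neg_mul]
    have e2 : q 0 * ((p 1 * Y * p 0 + q 0 * Y * q 1) * (p 2 * (u * f - f * u) * p 1 +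
        q 1 * (u * f - f * u) * q 2) - (p 2 * (u * f - f * u) * p 1 + q 1 * (u * f - f * u) * q 2) *
        (p 1 * Y * p 0 + q 0 * Y * q 1)) * q 2 = -(q 0 * Y * q 1 * (f * u) * q 2) := by
      have r1 : q 0 * p 1 = 0 := BL.qp 0 1
      have r2 : q 0 * q 0 = q 0 := by rw [BL.qq, if_pos rfl]
      have r3 : q 1 * p 2 = 0 := BL.qp 1 2
      have r4 : q 1 * q 1 = q 1 := by rw [BL.qq, if_pos rfl]
      have r5 : q 2 * q 2 = q 2 := by rw [BL.qq, if_pos rfl]
      have r6 : q 0 * p 2 = 0 := BL.qp 0 2
      have r7 : q 0 * q 1 = 0 := by rw [BL.qq, if_neg (by decide)]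
      obtain ⟨W, hWd⟩ : ∃ W, W = u * f - f * u := ⟨_, rfl⟩
      rw [← hWd] at e1 ⊢
      calc q 0 * ((p 1 * Y * p 0 + q 0 * Y * q 1) * (p 2 * W * p 1 + q 1 * W * q 2) -
          (p 2 * W * p 1 + q 1 * W * q 2) * (p 1 * Y * p 0 + q 0 * Y * q 1)) * q 2 =
          ((q 0 * p 1) * Y * p 0 + (q 0 * q 0) * Y * q 1) * (p 2 * W * p 1 + q 1 * W * q 2) * q 2 -
          ((q 0 * p 2) * W * p 1 + (q 0 * q 1) * W * q 2) * (p 1 * Y * p 0 + q 0 * Y * q 1) * q 2 := by
            noncomm_ring
        _ = q 0 * Y * (q 1 * p 2) * W * p 1 * q 2 + q 0 * Y * (q 1 * q 1) * W * (q 2 * q 2) := by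
            rw [r1, r2, r6, r7]
            noncomm_ring
        _ = q 0 * Y * (q 1 * W * q 2) := by
            rw [r3, r4, r5]
            noncomm_ring
        _ = _ := by rw [e1]; 
                    have : q 1 * (f * u) = f * u := by rw [q1, ← mul_assoc, G.F.fef]
                    rw [mul_neg, mul_assoc (q 0 * Y) (q 1), this]
                    noncomm_ring
    have q2u : q 2 * (f' * u) = f' * u := by rw [q2, ← mul_assoc, G.F'.fef]
    have h4 : q 0 * Y * q 1 = q 0 * (-((p 1 * Y * p 0 + q 0 * Y * q 1) * (p 2 * (u * f - f * u) * p 1 +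
        q 1 * (u * f - f * u) * q 2) - (p 2 * (u * f - f * u) * p 1 + q 1 * (u * f - f * u) * q 2) *
        (p 1 * Y * p 0 + q 0 * Y * q 1))) * q 2 * (f' * u) := by
      rw [mul_neg, neg_mul, neg_mul, e2, neg_mul, neg_neg, mul_assoc (q 0 * Y * q 1 * (f * u)), q2u,
        mul_assoc (q 0 * Y * q 1), ← fu1, mul_assoc (q 0 * Y), BL.qq, if_pos rfl]
    have h5 := LinearMap.congr_fun h4 w
    rw [Module.End.mul_apply, Module.End.mul_apply] at h5
    rw [h5, Module.End.mul_apply, Module.End.mul_apply, Module.End.mul_apply]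
    exact N02' _ (L.neg_mem hm3) _
  -- the parts `p 0` and `q 0`
  have sump : ∀ w, s w = w → w = p 0 w + p 1 w + p 2 w := by
    intro w hw
    rw [p0, p1, p2]
    simp only [LinearMap.sub_apply, LinearMap.smul_apply, LinearMap.add_apply, Module.End.one_apply, hw]
    module
  have sumq : ∀ w, s w = -w → w = q 0 w + q 1 w + q 2 w := by
    intro w hw
    rw [q0, q1, q2]
    simp only [LinearMap.sub_apply, LinearMap.smul_apply, Module.End.one_apply, hw]
    module
  have sp : ∀ i w, s (p i w) = p i w := by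
    intro i w
    have hsi : s * p i = p i := by
      fin_cases i
      · show s * p 0 = p 0
        rw [p0, mul_sub, mul_sub, mul_smul_comm, mul_add, hs2, mul_one, ← mul_assoc, ← mul_assoc,
          G.F.e_mem.2.1, G.F'.e_mem.2.1, add_comm s 1]
      · show s * p 1 = p 1
        rw [p1, ← mul_assoc, G.F.e_mem.2.1]
      · show s * p 2 = p 2
        rw [p2, ← mul_assoc, G.F'.e_mem.2.1]
    exact LinearMap.congr_fun hsi w
  have sq : ∀ i w, s (q i w) = -q i w := by
    intro i w
    have hsi : s * q i = -q i := by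
      fin_cases i
      · show s * q 0 = -q 0
        rw [q0, mul_sub, mul_sub, mul_smul_comm, mul_sub, hs2, mul_one, ← mul_assoc, ← mul_assoc,
          G.F.f_mem.2.1, G.F'.f_mem.2.1]
        rw [neg_mul, neg_mul]
        module
      · show s * q 1 = -q 1
        rw [q1, ← mul_assoc, G.F.f_mem.2.1, neg_mul]
      · show s * q 2 = -q 2
        rw [q2, ← mul_assoc, G.F'.f_mem.2.1, neg_mul]
    exact LinearMap.congr_fun hsi w
  have NP : ∀ w, p 0 w ∈ N := by
    let W : Submodule K V :=
      { carrier := {w | s w = w ∧ p 0 w ∈ N}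
        add_mem' := by
          rintro a b ⟨h1, h2⟩ ⟨h3, h4⟩
          exact ⟨by rw [map_add, h1, h3], by rw [map_add]; exact N.add_mem h2 h4⟩
        zero_mem' := ⟨map_zero s, by rw [map_zero]; exact N.zero_mem⟩
        smul_mem' := by
          rintro c a ⟨h1, h2⟩
          exact ⟨by rw [map_smul, h1], by rw [map_smul]; exact N.smul_mem c h2⟩ }
    have hW0 : W ≠ ⊥ := by
      intro h0
      have h1 : a ∈ W := by
        refine ⟨by rw [← ha]; exact sp 2 a, ?_⟩
        rw [← ha, pz 0 2 _ (by decide)]
        exact N.zero_mem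
      rw [h0, Submodule.mem_bot] at h1
      rw [h1, map_zero, LinearMap.zero_apply] at haw
      exact haw rfl
    have hWst : ∀ Z ∈ L0 L s, ∀ w ∈ W, Z w ∈ W := by
      rintro Z hZ w ⟨h1, h2⟩
      refine ⟨?_, ?_⟩
      · have := LinearMap.congr_fun hZ.2 w
        rw [Module.End.mul_apply, Module.End.mul_apply, h1] at this
        exact this
      · have h3 := ND Z hZ.1 _ h2
        have z1 : (p 0 * Z * p 0 + p 1 * Z * p 1 + p 2 * Z * p 2 +
            (q 0 * Z * q 0 + q 1 * Z * q 1 + q 2 * Z * q 2)) (p 0 w) = p 0 (Z (p 0 w)) := by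
          simp only [LinearMap.add_apply, Module.End.mul_apply]
          rw [pf, pz 1 0 _ (by decide), pz 2 0 _ (by decide), qpz, qpz, qpz]
          simp
        rw [z1] at h3
        have h4 : p 0 (Z w) = p 0 (Z (p 0 w)) + p 0 (Z (p 1 w)) + p 0 (Z (p 2 w)) := by
          nth_rw 1 [sump w h1]
          rw [map_add, map_add, map_add, map_add]
        rw [h4]
        exact N.add_mem (N.add_mem h3 (N01 Z hZ.1 w)) (N02 Z hZ.1 w)
    intro w
    have h1 := A3_vec h hs hs2 (W := W) (fun w hw => hw.1) hW0 hWst (sp 0 w)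
    have h2 := h1.2
    rwa [pf] at h2
  have NQ : ∀ w, q 0 w ∈ N := by
    let W : Submodule K V :=
      { carrier := {w | s w = -w ∧ q 0 w ∈ N}
        add_mem' := by
          rintro a b ⟨h1, h2⟩ ⟨h3, h4⟩
          exact ⟨by rw [map_add, h1, h3]; abel, by rw [map_add]; exact N.add_mem h2 h4⟩
        zero_mem' := ⟨by simp, by rw [map_zero]; exact N.zero_mem⟩
        smul_mem' := by
          rintro c a ⟨h1, h2⟩
          exact ⟨by rw [map_smul, h1, smul_neg], by rw [map_smul]; exact N.smul_mem c h2⟩ }
    have hW0 : W ≠ ⊥ := by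
      intro h0
      have h1 : w₀ ∈ W := by
        refine ⟨by rw [← hw₀]; exact sq 2 w₀, ?_⟩
        rw [← hw₀, qz 0 2 _ (by decide)]
        exact N.zero_mem
      rw [h0, Submodule.mem_bot] at h1
      rw [h1, map_zero] at haw
      exact haw rfl
    have hWst : ∀ Z ∈ L0 L s, ∀ w ∈ W, Z w ∈ W := by
      rintro Z hZ w ⟨h1, h2⟩
      refine ⟨?_, ?_⟩
      · have := LinearMap.congr_fun hZ.2 w
        rw [Module.End.mul_apply, Module.End.mul_apply, h1, map_neg] at this
        exact this
      · have h3 := ND Z hZ.1 _ h2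
        have z1 : (p 0 * Z * p 0 + p 1 * Z * p 1 + p 2 * Z * p 2 +
            (q 0 * Z * q 0 + q 1 * Z * q 1 + q 2 * Z * q 2)) (q 0 w) = q 0 (Z (q 0 w)) := by
          simp only [LinearMap.add_apply, Module.End.mul_apply]
          rw [qf, qz 1 0 _ (by decide), qz 2 0 _ (by decide), pqz, pqz, pqz]
          simp
        rw [z1] at h3
        have h4 : q 0 (Z w) = q 0 (Z (q 0 w)) + q 0 (Z (q 1 w)) + q 0 (Z (q 2 w)) := by
          nth_rw 1 [sumq w h1]
          rw [map_add, map_add, map_add, map_add]
        rw [h4]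
        exact N.add_mem (N.add_mem h3 (N01' Z hZ.1 w)) (N02' Z hZ.1 w)
    intro w
    have h1 := A3_vec h (L.neg_mem hs) (by rw [neg_mul_neg, hs2]) (W := W)
      (fun w hw => by rw [LinearMap.neg_apply, hw.1, neg_neg]) hW0
      (fun Z hZ => by rw [K0_L0] at hZ; exact hWst Z hZ) (v := q 0 w)
      (by rw [LinearMap.neg_apply, sq, neg_neg])
    have h2 := h1.2
    rwa [qf] at h2
  -- F6
  have fq : ∀ v, q 1 (f v) = f v := by
    intro v
    rw [q1]
    exact LinearMap.congr_fun G.F.fef v
  have F6a : ∀ v, p 1 v = v → dd B v (f v) ∈ L := by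
    intro v hv
    -- `dd b a ∈ L`, `b = f v`
    have z0 : f a = 0 := by
      rw [← ha, p2]
      exact LinearMap.congr_fun (by rw [← mul_assoc, G.o4, zero_mul] : f * (e' * f') = 0) a
    have h1 := br f fL v a (F3 v a hv ha)
    rw [z0, dd_zero_right, add_zero] at h1
    have h2 : dd B a (f v) ∈ L := by
      rw [dd_swap]
      exact L.neg_mem h1
    have h3 := br _ h2 v w₀ (F2 v w₀ hv hw₀)
    have z1 : B (f v) v = 0 := by
      have h4 := hinv f fL v v
      rw [hsym v (f v)] at h4
      have h5 : (2 : K) * B (f v) v = 0 := by linear_combination h4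
      exact (mul_eq_zero.1 h5).resolve_left (by norm_num)
    have z2 : B a v = 0 := by rw [← ha, adj, ← hv, qpz, map_zero]
    have z3 : B (f v) w₀ = 0 := by rw [← fq, adj', ← hw₀, pqz, map_zero]
    rw [dd_apply, dd_apply, z1, z2, z3] at h3
    simp only [zero_smul, sub_zero, zero_sub] at h3
    rw [dd_zero_left, zero_add] at h3
    have e1 : dd B v (-(B a w₀ • f v)) = (-(B a w₀)) • dd B v (f v) := by
      rw [← neg_smul, dd_smul_right]
    rw [e1] at h3
    have h4 := L.smul_mem (-(B a w₀))⁻¹ h3
    rwa [smul_smul, inv_mul_cancel₀ (neg_ne_zero.2 haw), one_smul] at h4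
  have N3 : ∀ w, q 1 w ∈ N := by
    intro w v hv
    obtain ⟨v', hv'⟩ : ∃ v', v' = e w := ⟨_, rfl⟩
    have hv1 : p 1 v' = v' := by
      rw [hv', p1]
      exact LinearMap.congr_fun G.F.efe w
    have hw : q 1 w = f v' := by rw [q1, hv']; rfl
    rw [hw]
    have h1 := F6a (v + v') (by rw [map_add, hv, hv1])
    have h2 := F6a v hv
    have h3 := F6a v' hv1
    have h4 := br f fL v v' (F0 v v' hv hv1)
    rw [map_add, dd_add_left, dd_add_right, dd_add_right] at h1
    rw [dd_swap B v' (f v)] at h4
    have h5 : (2 : K) • dd B v (f v') = (dd B v (f v) + dd B v (f v') + (dd B v' (f v) + dd B v' (f v'))) -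
        dd B v (f v) - dd B v' (f v') + (-dd B v' (f v) + dd B v (f v')) := by module
    have h6 : (2 : K) • dd B v (f v') ∈ L := by
      rw [h5]
      exact L.add_mem (L.sub_mem (L.sub_mem h1 h2) h3) h4
    have h7 := L.smul_mem (2 : K)⁻¹ h6
    rwa [smul_smul, inv_mul_cancel₀ (by norm_num), one_smul] at h7
  have Nall : ∀ w, w ∈ N := by
    intro w
    have h1 : w = p 0 w + p 1 w + p 2 w + (q 0 w + q 1 w + q 2 w) := by
      have := LinearMap.congr_fun BL.sum w
      simpa using this.symm
    rw [h1]
    exact N.add_mem (N.add_mem (N.add_mem (NP w) (N1 w)) (N2 w))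
      (N.add_mem (N.add_mem (NQ w) (N3 w)) (N2' w))
  -- all operators `dd`
  let Q : Submodule K V :=
    { carrier := {v | ∀ w, dd B v w ∈ L}
      add_mem' := by
        intro a b ha hb w
        rw [dd_add_left]
        exact L.add_mem (ha w) (hb w)
      zero_mem' := by
        intro w
        rw [dd_zero_left]
        exact L.zero_mem
      smul_mem' := by
        intro c a ha w
        rw [dd_smul_left]
        exact L.smul_mem c (ha w) }
  have hQ : ∀ v, v ∈ Q := by
    rcases h.irr Q (fun Y hY v hv w => by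
      have h1 := br Y hY v w (hv w)
      have h2 := L.sub_mem h1 (hv (Y w))
      rwa [add_sub_cancel_right] at h2) with h1 | h1
    · exfalso
      apply G.F.e_ne
      ext x
      have h2 : e x ∈ Q := fun w => Nall w (e x) (by
        rw [p1]
        exact LinearMap.congr_fun G.F.efe x)
      rw [h1, Submodule.mem_bot] at h2
      exact h2
    · intro v
      rw [h1]
      exact Submodule.mem_top
  -- the end
  let φ : L →ₗ[K] K := (LinearMap.trace K V) ∘ₗ (LinearMap.mulLeft K X) ∘ₗ L.subtype
  obtain ⟨Z, hZ, hφ⟩ := exists_trace_repr h.lie h.irr h.tr φ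
  have hφ' : ∀ Y ∈ L, LinearMap.trace K V (X * Y) = LinearMap.trace K V (Z * Y) :=
    fun Y hY => hφ ⟨Y, hY⟩
  have hT : ∀ v w, B ((X - Z) v) w = 0 := by
    intro v w
    have h1 := hφ' _ (hQ v w)
    have h2 : LinearMap.trace K V ((X - Z) * dd B v w) = 0 := by
      rw [sub_mul, map_sub, h1, sub_self]
    have h3 : (X - Z) * dd B v w = (B w).smulRight ((X - Z) v) - (B v).smulRight ((X - Z) w) := by
      ext x
      rw [Module.End.mul_apply, dd_apply, map_sub, map_smul, map_smul]
      rfl
    rw [h3, map_sub, LinearMap.trace_smulRight, LinearMap.trace_smulRight] at h2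
    have h4 : B ((X - Z) v) w + B v ((X - Z) w) = 0 := by
      rw [LinearMap.sub_apply, LinearMap.sub_apply, map_sub, map_sub, LinearMap.sub_apply]
      linear_combination hX v w - hinv Z hZ v w
    rw [hsym w] at h2
    have h5 : (2 : K) * B ((X - Z) v) w = 0 := by linear_combination h2 + h4
    exact (mul_eq_zero.1 h5).resolve_left (by norm_num)
  have hXZ : X = Z := by
    ext v
    have := nd _ (hT v)
    rw [LinearMap.sub_apply, sub_eq_zero] at this
    exact this
  rw [hXZ]
  exact hZ


end Pool.Agent.H86N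
end
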