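import Pool.Agent.Lib.H1M.RC.M009
import Pool.Agent.Lib.H1M.RC.M028
import Pool.Agent.Lib.H1M.RC.M030
import Pool.Agent.Lib.H1M.RC.M031
import Pool.Agent.Lib.H1M.RC.M035
import Pool.Agent.Lib.H1M.RC.M037
import Pool.Agent.Lib.H1M.RC.M044

/-! Merged copies (to shorten the build) of Lib.H34Z.S01, Lib.H34Z.S02, Lib.H34Z.S03, Lib.H34Z.S04, Lib.H34Z.G07, Lib.H34V.V07, Lib.H86N.O1, Lib.H86N.O2. -/

-- from Lib.H34Z.S01
section

/-!
# S01: the Lie algebra of all operators of trace zero is simple
-/

set_option autoImplicit false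
set_option linter.unusedSectionVars false
namespace Pool.Agent.H34Z
open Module Matrix Pool.Agent.H53Toric Pool.Agent.H76P
open Pool.Agent.H76T (IsIdeal)

variable {κ : Type*} [Fintype κ] [DecidableEq κ] {K : Type*} [Field K] [CharZero K]
  {L I : Submodule K (Module.End K (κ → K))}

theorem s01_tr (y : Matrix κ κ K) : LinearMap.trace K (κ → K) (phi y) = y.trace :=
  Matrix.trace_toLin'_eq y

theorem s01_sq {V : Type*} [Ring V] {R X : V} (h : R * R = 0) :
    R * (R * X - X * R) - (R * X - X * R) * R = -(R * X * R + R * X * R) := by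
  have e1 : R * (R * X - X * R) - (R * X - X * R) * R = R * R * X + X * (R * R) - (R * X * R + R * X * R) := by
    noncomm_ring
  rw [e1, h, zero_mul, mul_zero, add_zero, zero_sub]

theorem s01_two (hI : IsIdeal L I) {R : Module.End K (κ → K)} (hR : R ∈ L) (h2 : R * R = 0)
    {X : Module.End K (κ → K)} (hX : X ∈ I) : R * X * R ∈ I := by
  have h1 := hI.2 R hR _ (hI.2 R hR X hX)
  rw [s01_sq h2] at h1
  have h3 : R * X * R = (-(1 / 2 : K)) • (-(R * X * R + R * X * R)) := by
    module
  rw [h3]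
  exact I.smul_mem _ h1

theorem s01_mem (hL : ∀ X, X ∈ L ↔ LinearMap.trace K (κ → K) X = 0) {i j : κ} (hij : i ≠ j) (c : K) :
    phi (Matrix.single i j c) ∈ L := by
  rw [hL, s01_tr, Matrix.trace_single_eq_of_ne i j _ hij]

theorem s01_sym (hL : ∀ X, X ∈ L ↔ LinearMap.trace K (κ → K) X = 0) (hI : IsIdeal L I) {x : Matrix κ κ K}
    (hx : phi x ∈ I) {i j : κ} (hij : i ≠ j) (h : x j i ≠ 0) : phi (Matrix.single i j (1 : K)) ∈ I := by
  have h1 := s01_two hI (s01_mem hL hij 1) (by
    rw [← map_mul, Matrix.single_mul_single_of_ne _ _ _ _ (Ne.symm hij), map_zero]) hx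
  rw [← map_mul, ← map_mul, Matrix.single_mul_mul_single, one_mul, mul_one] at h1
  have h2 : phi (Matrix.single i j (1 : K)) = (x j i)⁻¹ • phi (Matrix.single i j (x j i)) := by
    rw [← map_smul, Matrix.smul_single, smul_eq_mul, inv_mul_cancel₀ h]
  rw [h2]
  exact I.smul_mem _ h1

theorem s01_ex (hL : ∀ X, X ∈ L ↔ LinearMap.trace K (κ → K) X = 0) (hI : IsIdeal L I) (h0 : I ≠ ⊥) :
    ∃ i j : κ, i ≠ j ∧ phi (Matrix.single i j (1 : K)) ∈ I := by
  obtain ⟨X, hX, hX0⟩ := I.ne_bot_iff.1 h0
  obtain ⟨x, rfl⟩ := (phi (ι := κ) (K := K)).surjective X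
  by_cases hd : ∃ i j, i ≠ j ∧ x j i ≠ 0
  · obtain ⟨i, j, hij, hne⟩ := hd
    exact ⟨i, j, hij, s01_sym hL hI hX hij hne⟩
  push Not at hd
  by_cases hc : ∃ i j, x i i ≠ x j j
  · obtain ⟨i, j, hne⟩ := hc
    have hij : i ≠ j := fun h => hne (by rw [h])
    refine ⟨i, j, hij, ?_⟩
    have h1 := hI.2 _ (s01_mem hL hij 1) _ hX
    have h2 : Matrix.single i j (1 : K) * x - x * Matrix.single i j (1 : K) = (x j j - x i i) • Matrix.single i j (1 : K) := by
      ext a b
      rw [Matrix.sub_apply, Matrix.smul_apply, Matrix.single_apply, smul_eq_mul]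
      by_cases ha : a = i
      · subst ha
        rw [Matrix.single_mul_apply_same, one_mul]
        by_cases hb : b = j
        · subst hb
          rw [Matrix.mul_single_apply_same, mul_one, if_pos ⟨rfl, rfl⟩, mul_one]
        · rw [Matrix.mul_single_apply_of_ne _ _ _ _ _ hb, if_neg (fun h => hb h.2.symm), mul_zero, sub_zero]
          exact hd b j hb
      · rw [Matrix.single_mul_apply_of_ne _ _ _ _ _ ha, zero_sub, if_neg (fun h => ha h.1.symm), mul_zero]
        by_cases hb : b = j
        · subst hb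
          rw [Matrix.mul_single_apply_same, mul_one, hd i a (Ne.symm ha), neg_zero]
        · rw [Matrix.mul_single_apply_of_ne _ _ _ _ _ hb, neg_zero]
    rw [← map_mul, ← map_mul, ← map_sub, h2, map_smul] at h1
    have h3 := I.smul_mem (x j j - x i i)⁻¹ h1
    rwa [smul_smul, inv_mul_cancel₀ (sub_ne_zero.2 (Ne.symm hne)), one_smul] at h3
  · push Not at hc
    exfalso
    apply hX0
    have h1 : x.trace = 0 := by
      rw [← s01_tr]; exact (hL _).1 (hI.1 hX)
    have h2 : x = 0 := by
      ext a b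
      rw [Matrix.zero_apply]
      by_cases hab : a = b
      · subst hab
        rw [Matrix.trace] at h1
        have h3 : ∑ i, x.diag i = ∑ _i : κ, x a a := Finset.sum_congr rfl fun i _ => by
          rw [Matrix.diag_apply, hc i a]
        rw [h3, Finset.sum_const, nsmul_eq_mul] at h1
        refine (mul_eq_zero.1 h1).resolve_left ?_
        exact Nat.cast_ne_zero.2 (Finset.card_ne_zero.2 ⟨a, Finset.mem_univ a⟩)
      · exact hd b a (Ne.symm hab)
    rw [h2, map_zero]

theorem s01_r1 (hL : ∀ X, X ∈ L ↔ LinearMap.trace K (κ → K) X = 0) (hI : IsIdeal L I) {a i j : κ}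
    (h : phi (Matrix.single i j (1 : K)) ∈ I) (h1 : a ≠ j) (h2 : a ≠ i) : phi (Matrix.single a j (1 : K)) ∈ I := by
  have h3 := hI.2 _ (s01_mem hL h2 1) _ h
  rw [← map_mul, ← map_mul, ← map_sub, Matrix.single_mul_single_same,
    Matrix.single_mul_single_of_ne _ _ _ _ (Ne.symm h1), sub_zero, mul_one] at h3
  exact h3

theorem s01_r2 (hL : ∀ X, X ∈ L ↔ LinearMap.trace K (κ → K) X = 0) (hI : IsIdeal L I) {b i j : κ}
    (h : phi (Matrix.single i j (1 : K)) ∈ I) (h1 : b ≠ i) (h2 : b ≠ j) : phi (Matrix.single i b (1 : K)) ∈ I := by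
  have h3 := hI.2 _ (s01_mem hL (Ne.symm h2) 1) _ h
  rw [← map_mul, ← map_mul, ← map_sub, Matrix.single_mul_single_same,
    Matrix.single_mul_single_of_ne _ _ _ _ h1, zero_sub, mul_one, map_neg] at h3
  exact (Submodule.neg_mem_iff I).1 h3

theorem s01_all (hL : ∀ X, X ∈ L ↔ LinearMap.trace K (κ → K) X = 0) (hI : IsIdeal L I) (h0 : I ≠ ⊥)
    {a b : κ} (hab : a ≠ b) : phi (Matrix.single a b (1 : K)) ∈ I := by
  obtain ⟨i, j, hij, h⟩ := s01_ex hL hI h0
  have hstep : ∀ {i j : κ}, i ≠ j → phi (Matrix.single i j (1 : K)) ∈ I → b ≠ i → phi (Matrix.single a b (1 : K)) ∈ I := by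
    intro i j _ h hb
    have h1 : phi (Matrix.single i b (1 : K)) ∈ I := by
      by_cases h2 : b = j
      · rw [h2]; exact h
      · exact s01_r2 hL hI h hb h2
    by_cases h2 : a = i
    · rw [h2]; exact h1
    · exact s01_r1 hL hI h1 hab h2
  by_cases hb : b = i
  · refine hstep (Ne.symm hij) (s01_sym hL hI h (Ne.symm hij) ?_) (by rw [hb]; exact hij)
    rw [Matrix.single_apply_same]; exact one_ne_zero
  · exact hstep hij h hb

theorem s01_diag (hL : ∀ X, X ∈ L ↔ LinearMap.trace K (κ → K) X = 0) (hI : IsIdeal L I) (h0 : I ≠ ⊥)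
    (a b : κ) : phi (Matrix.single a a (1 : K)) - phi (Matrix.single b b (1 : K)) ∈ I := by
  by_cases hab : a = b
  · rw [hab, sub_self]; exact I.zero_mem
  have h3 := hI.2 _ (s01_mem hL hab 1) _ (s01_all hL hI h0 (Ne.symm hab))
  rw [← map_mul, ← map_mul, Matrix.single_mul_single_same, Matrix.single_mul_single_same, mul_one] at h3
  exact h3

/-- Notation: `E i j = phi (Matrix.single i j 1)`; `L` is the set of all operators of trace zero.
PROOF. (1) `I` contains some `E i j`, `i ≠ j`.  Let `X ∈ I`, `X ≠ 0`, with the matrix `x`.  If `x j i ≠ 0` for some `i ≠ j`: for `R = E i j`,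
`[R, [R, X]] = R² X - 2 R X R + X R² = -2 x j i • R` (`single i j 1 * x * single i j 1 = x j i • single i j 1`), which is in `I`, so `E i j ∈ I`.
Otherwise `x` is diagonal, not a scalar (a scalar of trace zero is zero, char zero), so `x i i ≠ x j j` for some `i ≠ j`, and
`[X, E i j] = (x i i - x j j) • E i j ∈ I`.
(2) All `E a b`, `a ≠ b`, are in `I`.  Let `E i j ∈ I`.  `[E a i, E i j] = E a j` for `a ≠ j`, `a ≠ i`; `[E i j, E j b] = E i b` for `b ≠ i`, `b ≠ j`;
and `[E j i, [E j i, E i j]] = -2 E j i` (from (1): `-2 (single i j 1) i j • E j i`).  So from `(i, j)` one reaches `(a, j)` for all `a ≠ j`, `(i, b)` for all `b ≠ i`,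
and `(j, i)`.  Let `a ≠ b`: if `b ≠ i`: `(i, j) → (i, b) → (a, b)`.  If `b = i`: `(i, j) → (j, i) → (a, i)`.
(3) `[E a b, E b a] = E a a - E b b ∈ I`.  Each `X` of trace zero is `∑_{a ≠ b} x a b • E a b + ∑_a x a a • (E a a - E c c)` for a fixed `c`
(`∑ x a a = 0`).  So `I = L`. -/
theorem simple_n (hL : ∀ X, X ∈ L ↔ LinearMap.trace K (κ → K) X = 0) (hI : IsIdeal L I) (h0 : I ≠ ⊥) : I = L := by
  refine le_antisymm hI.1 fun X hX => ?_
  obtain ⟨x, rfl⟩ := (phi (ι := κ) (K := K)).surjective X
  obtain ⟨c, -, -, -⟩ := s01_ex hL hI h0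
  have ht : x.trace = 0 := by
    rw [← s01_tr]; exact (hL _).1 hX
  have h2 : phi x = ∑ a, ∑ b, x a b • phi (Matrix.single a b (1 : K)) := by
    conv_lhs => rw [Matrix.matrix_eq_sum_single x]
    rw [map_sum]
    refine Finset.sum_congr rfl fun a _ => ?_
    rw [map_sum]
    refine Finset.sum_congr rfl fun b _ => ?_
    rw [← map_smul, Matrix.smul_single, smul_eq_mul, mul_one]
  have h3 : ∑ a, x a a • phi (Matrix.single c c (1 : K)) = 0 := by
    rw [← Finset.sum_smul]
    have : ∑ a, x a a = 0 := ht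
    rw [this, zero_smul]
  have h4 : phi x = ∑ a, ((∑ b, x a b • phi (Matrix.single a b (1 : K))) - x a a • phi (Matrix.single c c (1 : K))) := by
    rw [Finset.sum_sub_distrib, h3, sub_zero, h2]
  rw [h4]
  refine I.sum_mem fun a _ => ?_
  rw [← Finset.add_sum_erase Finset.univ _ (Finset.mem_univ a), add_sub_right_comm]
  refine I.add_mem ?_ (I.sum_mem fun b hb => I.smul_mem _ (s01_all hL hI h0 ?_))
  · have h5 := I.smul_mem (x a a) (s01_diag hL hI h0 a c)
    rwa [smul_sub] at h5
  exact Ne.symm (Finset.ne_of_mem_erase hb)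

end Pool.Agent.H34Z
end

-- from Lib.H34Z.S02
section

/-!
# S02: the symplectic Lie algebra is simple
-/

set_option autoImplicit false
set_option linter.unusedSectionVars false
namespace Pool.Agent.H34Z
open Module Matrix Pool.Agent.H53Toric Pool.Agent.H76P
open Pool.Agent.H76T (IsIdeal)

variable {κ : Type*} [Fintype κ] [DecidableEq κ] {K : Type*} [Field K] [CharZero K] {J : Matrix κ κ K}
  {L I : Submodule K (Module.End K (κ → K))}

/-- The double commutator with an operator of square zero. -/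
theorem s02_dbl (hI : IsIdeal L I) {T X : Module.End K (κ → K)} (hT : T ∈ L) (hX : X ∈ I) (h2 : T * T = 0) :
    T * X * T ∈ I := by
  have h3 := hI.2 T hT _ (hI.2 T hT X hX)
  have h4 : T * (T * X - X * T) - (T * X - X * T) * T = (-2 : K) • (T * X * T) := by
    have h5 : T * (T * X - X * T) - (T * X - X * T) * T = (T * T) * X - (T * X * T) - (T * X * T) + X * (T * T) := by
      rw [mul_sub, sub_mul, ← mul_assoc, ← mul_assoc, mul_assoc X T T]
      abel
    rw [h5, h2, zero_mul, mul_zero]
    module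
  rw [h4] at h3
  have h6 := I.smul_mem ((-2 : K)⁻¹) h3
  rw [smul_smul, inv_mul_cancel₀ (by norm_num), one_smul] at h6
  exact h6

theorem s02_skew (hdet : IsUnit J.det) {X : Module.End K (κ → K)} (hX : adjE J X = -X) (v v' : κ → K) :
    om J (X v) v' = -om J v (X v') := by
  obtain ⟨x, rfl⟩ := (phi (ι := κ) (K := K)).surjective X
  have h1 := (skew_iff hdet x).1 hX
  have h2 : xᵀ * J = -(J * x) := eq_neg_of_add_eq_zero_left h1
  rw [phi_apply, phi_apply, om_apply, om_apply, dotProduct_comm, Matrix.dotProduct_mulVec,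
    ← Matrix.mulVec_transpose, Matrix.mulVec_mulVec, dotProduct_comm, h2, Matrix.neg_mulVec, dotProduct_neg,
    ← Matrix.mulVec_mulVec]

theorem s02_tL (hJ : Jᵀ = -J) (hdet : IsUnit J.det) (hL : ∀ X, X ∈ L ↔ adjE J X = -X) (u : κ → K) :
    trv (om J) u ∈ L := by
  rw [hL, ← phi_trv]
  exact (skew_iff hdet _).2 (trv_skew hJ u)

theorem s02_txt (u : κ → K) (X : Module.End K (κ → K)) :
    trv (om J) u * X * trv (om J) u = om J (X u) u • trv (om J) u := by
  refine LinearMap.ext fun y => ?_
  simp only [Module.End.mul_apply, LinearMap.smul_apply, trv_apply, map_smul, smul_smul, smul_eq_mul]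
  rw [mul_comm]

theorem s02_one (hJ : Jᵀ = -J) (hdet : IsUnit J.det) (hL : ∀ X, X ∈ L ↔ adjE J X = -X) (hI : IsIdeal L I)
    {u : κ → K} {X : Module.End K (κ → K)} (hX : X ∈ I) (hne : om J (X u) u ≠ 0) : trv (om J) u ∈ I := by
  have h1 := s02_dbl hI (s02_tL hJ hdet hL u) hX (trv_sq (om_alt hJ) u)
  rw [s02_txt] at h1
  have h2 := I.smul_mem ((om J (X u) u)⁻¹) h1
  rw [smul_smul, inv_mul_cancel₀ hne, one_smul] at h2
  exact h2

theorem s02_step (hJ : Jᵀ = -J) (hdet : IsUnit J.det) (hL : ∀ X, X ∈ L ↔ adjE J X = -X) (hI : IsIdeal L I)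
    {u v : κ → K} (hu : trv (om J) u ∈ I) (hne : om J u v ≠ 0) : trv (om J) v ∈ I := by
  refine s02_one hJ hdet hL hI hu ?_
  rw [trv_apply, map_smul, LinearMap.smul_apply, smul_eq_mul, omega_antisymm (om_alt hJ) v u]
  exact mul_ne_zero (neg_ne_zero.2 hne) hne

theorem s02_nd2 (hJ : Jᵀ = -J) (hdet : IsUnit J.det) {u : κ → K} (hu : ∀ w, om J u w = 0) : u = 0 := by
  apply om_nd hdet
  intro w
  rw [omega_antisymm (om_alt hJ), hu, neg_zero]

theorem s02_all (hJ : Jᵀ = -J) (hdet : IsUnit J.det) (hL : ∀ X, X ∈ L ↔ adjE J X = -X) (hI : IsIdeal L I)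
    {u : κ → K} (hu : trv (om J) u ∈ I) (hu0 : u ≠ 0) (v : κ → K) : trv (om J) v ∈ I := by
  by_cases hv : v = 0
  · have h1 : trv (om J) v = 0 := by
      refine LinearMap.ext fun y => ?_
      rw [trv_apply, hv, smul_zero, LinearMap.zero_apply]
    rw [h1]
    exact I.zero_mem
  by_cases huv : om J u v = 0
  · obtain ⟨z₁, hz₁⟩ : ∃ z, om J u z ≠ 0 := by
      by_contra hcon
      push Not at hcon
      exact hu0 (s02_nd2 hJ hdet hcon)
    obtain ⟨z₂, hz₂⟩ : ∃ z, om J z v ≠ 0 := by
      by_contra hcon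
      push Not at hcon
      exact hv (om_nd hdet v hcon)
    obtain ⟨z, h1, h2⟩ : ∃ z, om J u z ≠ 0 ∧ om J z v ≠ 0 := by
      by_cases h3 : om J z₁ v = 0
      · by_cases h4 : om J u z₂ = 0
        · refine ⟨z₁ + z₂, ?_, ?_⟩
          · rw [map_add, h4, add_zero]
            exact hz₁
          · rw [map_add, LinearMap.add_apply, h3, zero_add]
            exact hz₂
        · exact ⟨z₂, h4, hz₂⟩
      · exact ⟨z₁, hz₁, h3⟩
    exact s02_step hJ hdet hL hI (s02_step hJ hdet hL hI hu h1) h2
  · exact s02_step hJ hdet hL hI hu huv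

theorem s02_coord (hdet : IsUnit J.det) (x : κ → K) (a : κ) :
    om J x (J⁻¹ *ᵥ Pi.single a 1) = x a := by
  rw [om_apply, Matrix.mulVec_mulVec, Matrix.mul_nonsing_inv _ hdet, Matrix.one_mulVec,
    dotProduct_single_one]

theorem s02_sum (X : Module.End K (κ → K)) (x : κ → K) :
    ∑ a, x a • X (Pi.single a 1) = X x := by
  conv_rhs => rw [pi_eq_sum_univ' x]
  rw [map_sum]
  refine Finset.sum_congr rfl fun a _ => ?_
  rw [map_smul]

/-- Notation: `w(u, v) = u ⬝ᵥ J *ᵥ v = om J u v`; `t u = phi (Matrix.vecMulVec u (J *ᵥ u))`-type operators `v ↦ w(v, u) • u = trv (om J) u v`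
(`H53Toric`: `trv`, `phi_trv`, `trv_skew`, used in `H76Y/AS2.as2_sp`).  `adjE J X = -X` iff `w(X v, v') = -w(v, X v')`.
PROOF. (1) `I` contains some `t u ≠ 0`.  Let `X ∈ I`, `X ≠ 0`.  The form `b(u, v) = w(u, X v)` is symmetric (`w(u, X v) = -w(X u, v) = w(v, X u)`)
and not zero, so there is `u` with `b(u, u) ≠ 0` (otherwise `b(u + v, u + v) = 2 b(u, v) = 0` for all `u, v`).  `t u * X * t u = w(X u, u) • t u`
(`t u (X (t u v)) = w(v, u) w(X u, u) u`), `t u * t u = 0`, so `[t u, [t u, X]] = -2 w(X u, u) • t u` is in `I`; so `t u ∈ I`, `u ≠ 0`.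
(2) All `t v` are in `I`.  If `w(u, v) ≠ 0`: `t v * t u * t v = w(v, u) w(u, v) • t v` so `[t v, [t v, t u]] = 2 w(u, v)² • t v ∈ I`, `t v ∈ I`.  If
`w(u, v) = 0`, `v ≠ 0`: there is `z` with `w(u, z) ≠ 0`, `w(z, v) ≠ 0` (take `z₁` with `w(u, z₁) ≠ 0`, `z₂` with `w(z₂, v) ≠ 0`; one of `z₁`, `z₂`, `z₁ + z₂` is
good); `t z ∈ I`, then `t v ∈ I`.
(3) `L` is spanned by the `t v`.  `t (u + v) - t u - t v` is the operator `s u v : x ↦ w(x, u) v + w(x, v) u`, so all `s u v ∈ I`.  Let `X ∈ L`, `(e a)` the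
standard basis, `(f a)` the dual basis: `w(f a, e b) = δ`, i.e. `x = ∑ w(x, e' a) e a` where `e' a = J⁻¹ *ᵥ Pi.single a 1` (`w(x, e' a) = x a`).
`X x = ∑_a w(x, e' a) X (e a)`, and `w(x, X v) = -w(X x, v)`; so
`∑_a s (e' a) (X (e a)) x = ∑_a w(x, e' a) X (e a) + ∑_a w(x, X (e a)) e' a = X x + ∑_a w(x, X (e a)) e' a`, and the last sum is `X x`:
for all `y`: `w(∑_a w(x, X (e a)) e' a, y) = ∑_a -w(X x, e a) w(e' a, y) = ∑_a w(X x, e a) w(y, e' a) = w(X x, y)` (`y = ∑ w(y, e' a) e a`).
So `2 X = ∑_a s (e' a) (X (e a)) ∈ I`.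
(If `H53Toric` has the statement that all skew operators are in a subspace that contains all `trv`, use it: look at `H53Toric/Core10.lean`,
`Assemble.lean`.) -/
theorem simple_s (hJ : Jᵀ = -J) (hdet : IsUnit J.det) (hL : ∀ X, X ∈ L ↔ adjE J X = -X) (hI : IsIdeal L I)
    (h0 : I ≠ ⊥) : I = L := by
  refine le_antisymm hI.1 fun X hX => ?_
  obtain ⟨Y, hY, hY0⟩ := I.ne_bot_iff.1 h0
  have hYs := s02_skew hdet ((hL Y).1 (hI.1 hY))
  obtain ⟨u, hu⟩ : ∃ u, om J (Y u) u ≠ 0 := by
    by_contra hcon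
    push Not at hcon
    apply hY0
    refine LinearMap.ext fun u => ?_
    rw [LinearMap.zero_apply]
    refine s02_nd2 hJ hdet fun v => ?_
    have h1 := hcon (u + v)
    rw [map_add, map_add, map_add, LinearMap.add_apply, LinearMap.add_apply, hcon u, hcon v, zero_add,
      add_zero, hYs v u, omega_antisymm (om_alt hJ) v (Y u), neg_neg] at h1
    have h2 : (2 : K) * om J (Y u) v = 0 := by linear_combination h1
    exact (mul_eq_zero.1 h2).resolve_left (by norm_num)
  have hu0 : u ≠ 0 := by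
    intro h
    rw [h] at hu
    exact hu (by rw [map_zero])
  have hall := s02_all hJ hdet hL hI (s02_one hJ hdet hL hI hY hu) hu0
  have hXs := s02_skew hdet ((hL X).1 hX)
  have hs : ∀ u v : κ → K, trv (om J) (u + v) - trv (om J) u - trv (om J) v ∈ I :=
    fun u v => I.sub_mem (I.sub_mem (hall _) (hall _)) (hall _)
  have hsa : ∀ u v x : κ → K, (trv (om J) (u + v) - trv (om J) u - trv (om J) v) x =
      om J x u • v + om J x v • u := by
    intro u v x
    rw [LinearMap.sub_apply, LinearMap.sub_apply, trv_apply, trv_apply, trv_apply, map_add]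
    module
  have hsum : (2 : K) • X = ∑ a, (trv (om J) ((J⁻¹ *ᵥ Pi.single a 1) + X (Pi.single a 1)) -
      trv (om J) (J⁻¹ *ᵥ Pi.single a 1) - trv (om J) (X (Pi.single a 1))) := by
    refine LinearMap.ext fun x => ?_
    rw [LinearMap.sum_apply]
    simp only [hsa]
    rw [Finset.sum_add_distrib]
    simp only [s02_coord hdet]
    rw [s02_sum, LinearMap.smul_apply, two_smul]
    congr 1
    have h1 : X x - ∑ a, om J x (X (Pi.single a 1)) • (J⁻¹ *ᵥ Pi.single a 1) = 0 := by
      apply om_nd hdet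
      intro y
      rw [map_sub, map_sum]
      simp only [map_smul, s02_coord hdet, smul_eq_mul]
      have h2 : om J x (X y) = ∑ a, om J x (X (Pi.single a 1)) * y a := by
        conv_lhs => rw [← s02_sum X y, map_sum]
        refine Finset.sum_congr rfl fun a _ => ?_
        rw [map_smul, smul_eq_mul, mul_comm]
      rw [← h2, omega_antisymm (om_alt hJ) y (X x), hXs]
      ring
    exact sub_eq_zero.1 h1
  have h2X : (2 : K) • X ∈ I := by
    rw [hsum]
    exact I.sum_mem fun a _ => hs _ _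
  have h3 := I.smul_mem ((2 : K)⁻¹) h2X
  rw [smul_smul, inv_mul_cancel₀ (by norm_num), one_smul] at h3
  exact h3

end Pool.Agent.H34Z
end

-- from Lib.H34Z.S03
section

/-!
# S03: the orthogonal Lie algebra is simple
-/

set_option autoImplicit false
set_option linter.unusedSectionVars false
namespace Pool.Agent.H34Z
open Module Matrix Pool.Agent.H53Toric Pool.Agent.H76P
open Pool.Agent.H76T (IsIdeal)

variable {κ : Type*} [Fintype κ] [DecidableEq κ] {K : Type*} [Field K] [CharZero K] {J : Matrix κ κ K} {π : κ → κ}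
  {L I : Submodule K (Module.End K (κ → K))}

/-- The operator `x ↦ B(x, u) v - B(x, v) u`. -/
private noncomputable def s03D (J : Matrix κ κ K) (u v : κ → K) : Module.End K (κ → K) :=
  ((om J).flip u).smulRight v - ((om J).flip v).smulRight u

private theorem s03D_apply (J : Matrix κ κ K) (u v x : κ → K) :
    s03D J u v x = om J x u • v - om J x v • u := rfl

private theorem s03_symm (hJ : Jᵀ = J) (x y : κ → K) : om J x y = om J y x := by
  rw [om_apply, om_apply, Matrix.dotProduct_mulVec, ← Matrix.mulVec_transpose, hJ, dotProduct_comm]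

private theorem s03_single (J : Matrix κ κ K) (a b : κ) :
    om J (Pi.single a 1) (Pi.single b 1) = J a b := by
  rw [om_apply, Matrix.mulVec_single_one, single_one_dotProduct]
  rfl

private theorem s03_skew (hdet : IsUnit J.det) (X : Module.End K (κ → K)) :
    adjE J X = -X ↔ ∀ x y, om J (X x) y = -om J x (X y) := by
  obtain ⟨M, rfl⟩ := (phi (ι := κ) (K := K)).surjective X
  rw [skew_iff hdet]
  have h1 : ∀ x y : κ → K, om J (phi M x) y + om J x (phi M y) = x ⬝ᵥ ((Mᵀ * J + J * M) *ᵥ y) := by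
    intro x y
    rw [om_apply, om_apply, phi_apply, phi_apply, Matrix.add_mulVec, dotProduct_add,
      ← Matrix.mulVec_mulVec, ← Matrix.mulVec_mulVec]
    congr 1
    rw [Matrix.dotProduct_mulVec x, Matrix.vecMul_transpose]
  constructor
  · intro h x y
    have h2 := h1 x y
    rw [h, Matrix.zero_mulVec, dotProduct_zero] at h2
    exact eq_neg_of_add_eq_zero_left h2
  · intro h
    ext a b
    have h2 := h1 (Pi.single a 1) (Pi.single b 1)
    rw [h, neg_add_cancel, Matrix.mulVec_single_one, single_one_dotProduct] at h2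
    exact h2.symm

private theorem s03D_skew (hJ : Jᵀ = J) (u v x y : κ → K) :
    om J (s03D J u v x) y = -om J x (s03D J u v y) := by
  rw [s03D_apply, s03D_apply]
  simp only [map_sub, map_smul, LinearMap.sub_apply, LinearMap.smul_apply, smul_eq_mul]
  rw [s03_symm hJ v y, s03_symm hJ u y]
  ring

private theorem s03_comm (hJ : Jᵀ = J) {X : Module.End K (κ → K)}
    (hX : ∀ x y, om J (X x) y = -om J x (X y)) (u v : κ → K) :
    X * s03D J u v - s03D J u v * X = s03D J (X u) v + s03D J u (X v) := by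
  refine LinearMap.ext fun x => ?_
  rw [LinearMap.sub_apply, LinearMap.add_apply, Module.End.mul_apply, Module.End.mul_apply,
    s03D_apply, s03D_apply, s03D_apply, s03D_apply, map_sub, map_smul, map_smul, hX, hX]
  module

private theorem s03D_neg (J : Matrix κ κ K) (u v : κ → K) : s03D J v u = -s03D J u v := by
  refine LinearMap.ext fun x => ?_
  rw [LinearMap.neg_apply, s03D_apply, s03D_apply]
  module

private theorem s03D_smul_left (J : Matrix κ κ K) (c : K) (u v : κ → K) :
    s03D J (c • u) v = c • s03D J u v := by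
  refine LinearMap.ext fun x => ?_
  rw [LinearMap.smul_apply, s03D_apply, s03D_apply, map_smul, smul_eq_mul]
  module

private theorem s03D_smul_right (J : Matrix κ κ K) (c : K) (u v : κ → K) :
    s03D J u (c • v) = c • s03D J u v := by
  refine LinearMap.ext fun x => ?_
  rw [LinearMap.smul_apply, s03D_apply, s03D_apply, map_smul, smul_eq_mul]
  module

private theorem s03D_zero_right (J : Matrix κ κ K) (u : κ → K) : s03D J u 0 = 0 := by
  have := s03D_smul_right J (0 : K) u 0
  rwa [zero_smul, zero_smul] at this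

private theorem s03D_self (J : Matrix κ κ K) (u : κ → K) : s03D J u u = 0 := by
  refine LinearMap.ext fun x => ?_
  rw [s03D_apply, sub_self]
  rfl

/-- The square of an isotropic `D`. -/
private theorem s03_sq (hJ : Jᵀ = J) {u v : κ → K} (huu : om J u u = 0) (huv : om J u v = 0)
    (hvv : om J v v = 0) : s03D J u v * s03D J u v = 0 := by
  refine LinearMap.ext fun x => ?_
  rw [Module.End.mul_apply, s03D_apply J u v x, map_sub, map_smul, map_smul, s03D_apply, s03D_apply,
    huu, huv, hvv, s03_symm hJ v u, huv]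
  simp

private theorem s03_dxd (hJ : Jᵀ = J) {X : Module.End K (κ → K)}
    (hX : ∀ x y, om J (X x) y = -om J x (X y)) (u v : κ → K) :
    s03D J u v * X * s03D J u v = -(om J (X u) v) • s03D J u v := by
  have h0 : ∀ w, om J (X w) w = 0 := by
    intro w
    have h1 := hX w w
    rw [s03_symm hJ w (X w)] at h1
    have h2 : (2 : K) * om J (X w) w = 0 := by linear_combination h1
    exact (mul_eq_zero.1 h2).resolve_left two_ne_zero
  refine LinearMap.ext fun x => ?_
  rw [Module.End.mul_apply, Module.End.mul_apply, s03D_apply J u v x, map_sub, map_smul, map_smul,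
    map_sub, map_smul, map_smul, s03D_apply, s03D_apply, h0, h0, hX v u, s03_symm hJ v (X u),
    LinearMap.smul_apply, s03D_apply]
  module

/-- Notation: `i' = π i`, `c i = J i i' = J i' i ≠ 0`; `D i j = phi (c i • single j i' 1 - c j • single i j' 1)` (`= 0` if `i = j`; `D j i = -D i j`); `D i j` is the
operator `x ↦ B(x, e i) e j - B(x, e j) e i` for `B(x, y) = x ⬝ᵥ J *ᵥ y`, `e i = Pi.single i 1`, `B(e i, e j) = c i` if `j = i'`, else `0`.
General formula: for `X` with `adjE J X = -X`: `[X, D i j] = D' (X e i) (e j) + D' (e i) (X e j)`, `D' u v : x ↦ B(x, u) v - B(x, v) u`.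
PROOF. (0) `D' u v` is skew for all `u, v`, and for `X ∈ L` with matrix `x`: `X = (1/2) ∑_{a, b} (x a b / c b) • D (π b) a`
(`∑ x a b / c b • (c b • single a b 1 - c a • single b' a' 1) = x - ∑ (x a b * c a / c b) • single b' a' 1`, and skewness of `X` says
`x b' a' = -x a b * c a / c b`).
(1) `I` contains some `D i j` with `j ≠ i`, `j ≠ i'`.  For such `i, j` the operator `D = D i j` satisfies `D * D = 0` and
`D * X * D = -B(X (e i), e j) • D` for `X ∈ L`, so `[D, [D, X]] = 2 B(X (e i), e j) • D`.  Let `X ∈ I`, `X ≠ 0`, with matrix `x`.  If `x k i ≠ 0` for some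
`k ≠ i`: `k ≠ i'` since `x i' i = 0` by skewness; `j = k'` satisfies `j ≠ i`, `j ≠ i'`, `B(X (e i), e j) = x k i * c k ≠ 0`; so `D i j ∈ I`.  If `x` is diagonal with
the entries `f i`, `f i' = -f i`, let `f i ≠ 0` and `j ≠ i, i'` (`card ≥ 5`): `[X, D i j] = (f i + f j) • D i j`, `[X, D i j'] = (f i - f j) • D i j'`, and one
of `f i + f j`, `f i - f j` is not zero.
(2) If `D i j ∈ I` (`j ≠ i, i'`) and `k ∉ {i, i', j, j'}` then `D k j ∈ I`: `[D i' k, D i j] = c i • D k j` (`X = D i' k`: `X (e i) = B(e i, e i') e k = c i • e k`,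
`X (e j) = 0`).  As `card ≥ 5` there is such a `k`, and from `(k, j)` one comes to `(i', j)` (`i' ∉ {k, k', j, j'}`) as well.  So `D a j ∈ I` for all
`a ∉ {j, j'}` (`a = i` itself included).  By symmetry `D i b ∈ I` for all `b ∉ {i, i'}`.  So for all `a`, `b ∉ {a, a'}`: if `b ∉ {i, i'}`: `(i, j) → (i, b) → (a, b)`; if
`b ∈ {i, i'}`: choose `k ∉ {i, i', j, j'}`: `(i, j) → (k, j) → (k, b) → (a, b)`.
(3) `D i i' ∈ I`: `[D i j, D i' j']` for `j ≠ i, i'`: with `X = D i j`: `X (e i') = B(e i', e i) e j = c i • e j`, `X (e j') = -B(e j', e j) e i = -c j • e i`, so the bracket is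
`c i • D j j' - c j • D i' i = c i • D j j' + c j • D i i'`.  With `j'` in place of `j`: `[D i j', D i' j] = c i • D j' j + c j • D i i' = -c i • D j j' + c j • D i i'`.  The
sum is `2 c j • D i i'`.
(4) So all `D a b ∈ I` and `I = L` by (0). -/
theorem simple_o (hJ : Jᵀ = J) (hdet : IsUnit J.det) (hm : Mon J π) (hne : ∀ i, π i ≠ i)
    (hL : ∀ X, X ∈ L ↔ adjE J X = -X) (h5 : 5 ≤ Fintype.card κ) (hI : IsIdeal L I) (h0 : I ≠ ⊥) : I = L := by
  have hL' : ∀ X, X ∈ L ↔ ∀ x y, om J (X x) y = -om J x (X y) := fun X => (hL X).trans (s03_skew hdet X)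
  obtain ⟨D, hD⟩ : ∃ D : κ → κ → Module.End K (κ → K),
      ∀ a b, D a b = s03D J (Pi.single a 1) (Pi.single b 1) := ⟨_, fun _ _ => rfl⟩
  have hDL : ∀ a b, D a b ∈ L := fun a b => by
    rw [hL', hD]
    exact s03D_skew hJ _ _
  have hDn : ∀ a b, D b a = -D a b := fun a b => by rw [hD, hD, s03D_neg]
  have hB : ∀ a b, b ≠ π a → om J (Pi.single a 1) (Pi.single b 1) = 0 := fun a b h => by
    rw [s03_single]; exact hm.zero a b h
  have hc : ∀ a, J (π a) a = J a (π a) := fun a => by
    have h1 := congrFun (congrFun hJ (π a)) a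
    rw [Matrix.transpose_apply] at h1
    exact h1.symm
  have hinj : ∀ a b, π a = π b → a = b := fun a b h => by rw [← hm.inv a, h, hm.inv]
  have hπ : ∀ a b, a = π b ↔ π a = b := fun a b =>
    ⟨fun h => by rw [h, hm.inv], fun h => by rw [← h, hm.inv]⟩
  -- the values of D a b on the basis
  have hval : ∀ a b c, D a b (Pi.single c 1) = J c a • Pi.single b (1 : K) - J c b • Pi.single a (1 : K) :=
    fun a b c => by rw [hD, s03D_apply, s03_single, s03_single]
  have hbr : ∀ X ∈ L, ∀ a b, X * D a b - D a b * X =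
      s03D J (X (Pi.single a 1)) (Pi.single b 1) + s03D J (Pi.single a 1) (X (Pi.single b 1)) :=
    fun X hX a b => by rw [hD]; exact s03_comm hJ ((hL' X).1 hX) _ _
  have hkey : ∀ a b, b ≠ π a → b ≠ a → ∀ k, k ≠ a → k ≠ π a → k ≠ b → k ≠ π b → D a b ∈ I →
      D k b ∈ I := by
    intro i j hj hj' k hki hki' hkj hkj' hm'
    have h1 := hI.2 (D (π i) k) (hDL _ _) _ hm'
    have e1 : D (π i) k (Pi.single i 1) = J i (π i) • Pi.single k (1 : K) := by
      rw [hval, hm.zero i k hki', zero_smul, sub_zero]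
    have e2 : D (π i) k (Pi.single j 1) = 0 := by
      rw [hval, hm.zero j k hkj', hm.zero j (π i) (fun h => hj' (hinj _ _ h).symm), zero_smul,
        zero_smul, sub_zero]
    rw [hbr _ (hDL _ _), e1, e2, s03D_zero_right, add_zero, s03D_smul_left, ← hD] at h1
    exact (I.smul_mem_iff (hm.ne i)).1 h1
  have hex : ∀ i j : κ, ∃ k, k ≠ i ∧ k ≠ π i ∧ k ≠ j ∧ k ≠ π j := by
    intro i j
    by_contra hcon
    push Not at hcon
    have h1 : (Finset.univ : Finset κ) ⊆ {i, π i, j, π j} := by
      intro k _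
      simp only [Finset.mem_insert, Finset.mem_singleton]
      by_cases e1 : k = i
      · exact Or.inl e1
      by_cases e2 : k = π i
      · exact Or.inr (Or.inl e2)
      by_cases e3 : k = j
      · exact Or.inr (Or.inr (Or.inl e3))
      exact Or.inr (Or.inr (Or.inr (hcon k e1 e2 e3)))
    have h2 := (Finset.card_le_card h1).trans Finset.card_le_four
    rw [Finset.card_univ] at h2
    omega
  -- first index
  have hfst : ∀ i j, j ≠ i → j ≠ π i → D i j ∈ I → ∀ a, a ≠ j → a ≠ π j → D a j ∈ I := by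
    intro i j hj hj' hm' a ha ha'
    by_cases e1 : a = i
    · rw [e1]; exact hm'
    by_cases e2 : a = π i
    · obtain ⟨k, k1, k2, k3, k4⟩ := hex i j
      have h1 := hkey i j hj' hj k k1 k2 k3 k4 hm'
      refine hkey k j (fun h => k4 ((hπ _ _).2 h.symm)) k3.symm a ?_ ?_ ha ha' h1
      · rw [e2]; exact k2.symm
      · rw [e2]; exact fun h => k1 (hinj _ _ h).symm
    · exact hkey i j hj' hj a e1 e2 ha ha' hm'
  have hsnd : ∀ i j, j ≠ i → j ≠ π i → D i j ∈ I → ∀ b, b ≠ i → b ≠ π i → D i b ∈ I := by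
    intro i j hj hj' hm' b hb hb'
    have h1 : D j i ∈ I := by rw [hDn i j]; exact I.neg_mem hm'
    have h2 := hfst j i hj.symm (fun h => hj' ((hπ _ _).1 h).symm) h1 b hb hb'
    rw [hDn b i]
    exact I.neg_mem h2
  -- some D i j
  obtain ⟨X, hXI, hX0⟩ := (Submodule.ne_bot_iff I).1 h0
  have hXL := hI.1 hXI
  have hXs := (hL' X).1 hXL
  have hsome : ∃ i j, j ≠ i ∧ j ≠ π i ∧ D i j ∈ I := by
    by_cases hA : ∃ i j, j ≠ π i ∧ om J (X (Pi.single i 1)) (Pi.single j 1) ≠ 0
    · obtain ⟨i, j, hj, hne'⟩ := hA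
      have hji : j ≠ i := by
        rintro rfl
        apply hne'
        have h1 := hXs (Pi.single j 1) (Pi.single j 1)
        rw [s03_symm hJ (Pi.single j 1) (X _)] at h1
        have h2 : (2 : K) * om J (X (Pi.single j 1)) (Pi.single j 1) = 0 := by linear_combination h1
        exact (mul_eq_zero.1 h2).resolve_left two_ne_zero
      refine ⟨i, j, hji, hj, ?_⟩
      have h1 := hI.2 (D i j) (hDL i j) _ (hI.2 (D i j) (hDL i j) X hXI)
      have h2 : D i j * D i j = 0 := by
        rw [hD]
        exact s03_sq hJ (hB _ _ (hne i).symm) (hB _ _ hj) (hB _ _ (hne j).symm)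
      have h3 : D i j * X * D i j = -(om J (X (Pi.single i 1)) (Pi.single j 1)) • D i j := by
        rw [hD]
        exact s03_dxd hJ hXs _ _
      have h4 : D i j * (D i j * X - X * D i j) - (D i j * X - X * D i j) * D i j =
          (2 * om J (X (Pi.single i 1)) (Pi.single j 1)) • D i j := by
        have h5 : D i j * (D i j * X - X * D i j) - (D i j * X - X * D i j) * D i j =
            (D i j * D i j) * X + X * (D i j * D i j) - (D i j * X * D i j + D i j * X * D i j) := by
          simp only [mul_sub, sub_mul, mul_assoc]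
          abel
        rw [h5, h2, h3]
        simp only [zero_mul, mul_zero, zero_add, add_zero]
        module
      rw [h4] at h1
      exact (I.smul_mem_iff (mul_ne_zero two_ne_zero hne')).1 h1
    · push Not at hA
      -- X is diagonal
      have hco : ∀ (x : κ → K) (j : κ), om J x (Pi.single j 1) = x (π j) * J (π j) j := by
        intro x j
        rw [om_apply, Matrix.mulVec_single_one]
        show ∑ b, x b * J b j = _
        rw [Finset.sum_eq_single (π j)]
        · intro b _ hb
          rw [hm.zero b j (fun h => hb ((hπ _ _).1 h).symm), mul_zero]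
        · intro h
          exact absurd (Finset.mem_univ _) h
      have hJne : ∀ j, J (π j) j ≠ 0 := fun j => by rw [hc]; exact hm.ne j
      have hdiag : ∀ i, X (Pi.single i 1) = X (Pi.single i 1) i • Pi.single i (1 : K) := by
        intro i
        funext b
        by_cases hb : b = i
        · subst hb; simp
        · have h1 := hA i (π b) (fun h => hb (hinj _ _ h))
          rw [hco, hm.inv] at h1
          have h2 := hJne (π b)
          rw [hm.inv] at h2
          rw [(mul_eq_zero.1 h1).resolve_right h2]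
          simp [Pi.single_eq_of_ne hb]
      obtain ⟨i, hi⟩ : ∃ i, X (Pi.single i 1) i ≠ 0 := by
        by_contra hcon
        push Not at hcon
        apply hX0
        refine LinearMap.pi_ext' fun i => LinearMap.ext_ring ?_
        rw [LinearMap.comp_apply, LinearMap.comp_apply, LinearMap.single_apply]
        show X (Pi.single i 1) = 0
        rw [hdiag i, hcon i, zero_smul]
      obtain ⟨j, j1, j2, -, -⟩ := hex i i
      have j3 : π j ≠ i := fun h => j2 ((hπ _ _).2 h)
      have j4 : π j ≠ π i := fun h => j1 (hinj _ _ h)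
      have hbr' : ∀ a b, (X (Pi.single a 1) a + X (Pi.single b 1) b) • D a b ∈ I := by
        intro a b
        have h1 := hI.2 (D a b) (hDL a b) X hXI
        have h2 := hbr X hXL a b
        rw [hdiag a, hdiag b, s03D_smul_left, s03D_smul_right, ← hD] at h2
        have h3 : (X (Pi.single a 1) a + X (Pi.single b 1) b) • D a b = -(D a b * X - X * D a b) := by
          rw [neg_sub, h2]
          have e1 : (X (Pi.single a 1) a • Pi.single a (1 : K) : κ → K) a = X (Pi.single a 1) a := by simp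
          have e2 : (X (Pi.single b 1) b • Pi.single b (1 : K) : κ → K) b = X (Pi.single b 1) b := by simp
          module
        rw [h3]
        exact I.neg_mem h1
      have hfπ : X (Pi.single (π j) 1) (π j) = -X (Pi.single j 1) j := by
        have h1 := hXs (Pi.single j 1) (Pi.single (π j) 1)
        rw [s03_symm hJ (Pi.single j 1) (X _), hco, hco, hm.inv, hc] at h1
        have h2 := hm.ne j
        have h3 : (X (Pi.single j 1) j + X (Pi.single (π j) 1) (π j)) * J j (π j) = 0 := by
          linear_combination h1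
        exact eq_neg_of_add_eq_zero_right ((mul_eq_zero.1 h3).resolve_right h2)
      by_cases h6 : X (Pi.single i 1) i + X (Pi.single j 1) j = 0
      · refine ⟨i, π j, j3, j4, ?_⟩
        have h7 := hbr' i (π j)
        rw [hfπ] at h7
        refine (I.smul_mem_iff ?_).1 h7
        intro h8
        apply hi
        have h9 : (2 : K) * X (Pi.single i 1) i = 0 := by linear_combination h6 + h8
        exact (mul_eq_zero.1 h9).resolve_left two_ne_zero
      · exact ⟨i, j, j1, j2, (I.smul_mem_iff h6).1 (hbr' i j)⟩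
  obtain ⟨i, j, hj, hj', hij⟩ := hsome
  -- all D a b with b not in {a, a'}
  have hall : ∀ a b, b ≠ a → b ≠ π a → D a b ∈ I := by
    intro a b hb hb'
    have hab' : a ≠ π b := fun h => hb' ((hπ _ _).1 h).symm
    by_cases h1 : b = i ∨ b = π i
    · obtain ⟨k, k1, k2, k3, k4⟩ := hex i j
      have h2 := hkey i j hj' hj k k1 k2 k3 k4 hij
      have hbk : b ≠ k := by
        rcases h1 with h1 | h1 <;> rw [h1]
        · exact k1.symm
        · exact k2.symm
      have hbk' : b ≠ π k := by
        rcases h1 with h1 | h1 <;> rw [h1]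
        · exact fun h => k2 ((hπ _ _).1 h).symm
        · exact fun h => k1 (hinj _ _ h).symm
      have h3 := hsnd k j k3.symm (fun h => k4 ((hπ _ _).2 h.symm)) h2 b hbk hbk'
      exact hfst k b hbk hbk' h3 a hb.symm hab'
    · push Not at h1
      have h2 := hsnd i j hj hj' hij b h1.1 h1.2
      exact hfst i b h1.1 h1.2 h2 a hb.symm hab'
  -- D i i'
  have hself : ∀ i, D i (π i) ∈ I := by
    intro i
    obtain ⟨j, j1, j2, -, -⟩ := hex i i
    have j3 : π j ≠ i := fun h => j2 ((hπ _ _).2 h)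
    have j4 : π j ≠ π i := fun h => j1 (hinj _ _ h)
    have h1 := hI.2 (D i j) (hDL _ _) _ (hall (π i) (π j) j4 (by rw [hm.inv]; exact j3))
    have h2 := hI.2 (D i (π j)) (hDL _ _) _ (hall (π i) j j2 (by rw [hm.inv]; exact j1))
    have e1 : D i j (Pi.single (π i) 1) = J i (π i) • Pi.single j (1 : K) := by
      rw [hval, hc, hm.zero (π i) j (by rw [hm.inv]; exact j1), zero_smul, sub_zero]
    have e2 : D i j (Pi.single (π j) 1) = -(J j (π j)) • Pi.single i (1 : K) := by
      rw [hval, hc, hm.zero (π j) i (by rw [hm.inv]; exact j1.symm), zero_smul, zero_sub, neg_smul]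
    have e3 : D i (π j) (Pi.single (π i) 1) = J i (π i) • Pi.single (π j) (1 : K) := by
      rw [hval, hc, hm.zero (π i) (π j) (by rw [hm.inv]; exact j3), zero_smul, sub_zero]
    have e4 : D i (π j) (Pi.single j 1) = -(J j (π j)) • Pi.single i (1 : K) := by
      rw [hval, hm.zero j i (fun h => j3 h.symm), zero_smul, zero_sub, neg_smul]
    rw [hbr _ (hDL _ _), e1, e2, s03D_smul_left, s03D_smul_right, ← hD, ← hD] at h1
    rw [hbr _ (hDL _ _), e3, e4, s03D_smul_left, s03D_smul_right, ← hD, ← hD] at h2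
    have h3 := I.add_mem h1 h2
    rw [hDn j (π j), hDn i (π i)] at h3
    have h4 : J i (π i) • D j (π j) + -J j (π j) • -D i (π i) + (J i (π i) • -D j (π j) + -J j (π j) • -D i (π i)) =
        (2 * J j (π j)) • D i (π i) := by module
    rw [h4] at h3
    exact (I.smul_mem_iff (mul_ne_zero two_ne_zero (hm.ne j))).1 h3
  have htot : ∀ a b, D a b ∈ I := by
    intro a b
    by_cases h1 : b = a
    · rw [h1, hD, s03D_self]
      exact I.zero_mem
    by_cases h2 : b = π a
    · rw [h2]
      exact hself a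
    · exact hall a b h1 h2
  refine le_antisymm hI.1 fun Y hY => ?_
  have hYs := (hL' Y).1 hY
  have hco : ∀ (x : κ → K) (a : κ), om J x (Pi.single (π a) 1) = x a * J a (π a) := by
    intro x a
    rw [om_apply, Matrix.mulVec_single_one]
    show ∑ b, x b * J b (π a) = _
    rw [Finset.sum_eq_single a]
    · intro b _ hb
      rw [hm.zero b (π a) (fun h => hb (hinj _ _ h).symm), mul_zero]
    · intro h
      exact absurd (Finset.mem_univ _) h
  have hco' : ∀ (x : κ → K) (a : κ), om J x (Pi.single a 1) = x (π a) * J a (π a) := by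
    intro x a
    have h1 := hco x (π a)
    rw [hm.inv, hc] at h1
    exact h1
  have hsum : (2 : K) • Y = ∑ a, (J a (π a))⁻¹ • s03D J (Pi.single (π a) 1) (Y (Pi.single a 1)) := by
    refine LinearMap.ext fun x => ?_
    rw [LinearMap.smul_apply, LinearMap.sum_apply]
    have h1 : ∀ a, ((J a (π a))⁻¹ • s03D J (Pi.single (π a) 1) (Y (Pi.single a 1))) x =
        x a • Y (Pi.single a 1) + Y x (π a) • Pi.single (π a) (1 : K) := by
      intro a
      rw [LinearMap.smul_apply, s03D_apply, hco]
      have h2 : om J x (Y (Pi.single a 1)) = -(Y x (π a) * J a (π a)) := by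
        rw [← hco', hYs x, neg_neg]
      rw [h2, smul_sub, smul_smul, smul_smul]
      have h3 := hm.ne a
      have e1 : (J a (π a))⁻¹ * (x a * J a (π a)) = x a := by field_simp
      have e2 : (J a (π a))⁻¹ * -(Y x (π a) * J a (π a)) = -Y x (π a) := by field_simp
      rw [e1, e2, neg_smul, sub_neg_eq_add]
    rw [Finset.sum_congr rfl fun a _ => h1 a, Finset.sum_add_distrib, two_smul]
    congr 1
    · have h2 : x = ∑ a, x a • Pi.single a (1 : K) := by
        funext b
        rw [Finset.sum_apply, Finset.sum_eq_single b]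
        · simp
        · intro c _ hcb
          simp [Pi.single_eq_of_ne hcb.symm]
        · intro h
          exact absurd (Finset.mem_univ _) h
      conv_lhs => rw [h2, map_sum]
      exact Finset.sum_congr rfl fun a _ => by rw [map_smul]
    · funext b
      rw [Finset.sum_apply, Finset.sum_eq_single (π b)]
      · rw [hm.inv]; simp
      · intro c _ hcb
        have h3 : b ≠ π c := fun h => hcb ((hπ _ _).1 h).symm
        simp [Pi.single_eq_of_ne h3]
      · intro h
        exact absurd (Finset.mem_univ _) h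
  have hmem : (2 : K) • Y ∈ I := by
    rw [hsum]
    refine I.sum_mem fun a _ => I.smul_mem _ ?_
    have h2 : Y (Pi.single a 1) = ∑ b, Y (Pi.single a 1) b • Pi.single b (1 : K) := by
      funext b
      rw [Finset.sum_apply, Finset.sum_eq_single b]
      · simp
      · intro c _ hcb
        simp [Pi.single_eq_of_ne hcb.symm]
      · intro h
        exact absurd (Finset.mem_univ _) h
    have h3 : s03D J (Pi.single (π a) 1) (Y (Pi.single a 1)) =
        ∑ b, Y (Pi.single a 1) b • D (π a) b := by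
      rw [h2]
      refine LinearMap.ext fun x => ?_
      rw [s03D_apply, LinearMap.sum_apply, map_sum, Finset.smul_sum, Finset.sum_smul, ← Finset.sum_sub_distrib]
      refine Finset.sum_congr rfl fun b _ => ?_
      rw [LinearMap.smul_apply, hD, s03D_apply, map_smul, smul_eq_mul, ← h2]
      module
    rw [h3]
    exact I.sum_mem fun b _ => I.smul_mem _ (htot _ _)
  exact (I.smul_mem_iff two_ne_zero).1 hmem

end Pool.Agent.H34Z
end

-- from Lib.H34Z.S04
section

/-!
# S04: the full algebras are simple and perfect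
-/

set_option autoImplicit false
set_option linter.unusedSectionVars false
namespace Pool.Agent.H34Z
open Module Matrix Pool.Agent.H53Toric Pool.Agent.H76P
open Pool.Agent.H76T (IsIdeal)

variable {κ : Type*} [Fintype κ] [DecidableEq κ] {K : Type*} [Field K] [CharZero K] {t : Prop} {J : Matrix κ κ K}
  {L I : Submodule K (Module.End K (κ → K))} {ε : κ → K}

private theorem s04_trace (g : κ → K) : LinearMap.trace K (κ → K) (dg g) = ∑ a, g a := by
  have h : (dg g : Module.End K (κ → K)) = Matrix.toLin' (Matrix.diagonal g) := by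
    refine LinearMap.ext fun v => funext fun a => ?_
    rw [dg_apply, Matrix.toLin'_apply, Matrix.mulVec_diagonal]
  rw [h, Matrix.trace_toLin'_eq, Matrix.trace_diagonal]

private theorem s04_neg {x : K} (h : x = 1 ∨ x = -1) : x ≠ -x := by
  intro e
  have h2 : (2 : K) * x = 0 := by linear_combination e
  rcases mul_eq_zero.1 h2 with h3 | h3
  · exact two_ne_zero h3
  · rcases h with h | h
    · rw [h] at h3
      exact one_ne_zero h3
    · rw [h] at h3
      exact one_ne_zero (neg_eq_zero.1 h3)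

/-- PROOF. Cases: `simple_s`, `simple_o` (`π i ≠ i`: `ε (π i) = -ε i` by `dg_skew`, `hεL`, and `ε i = ±1`), `simple_n`. -/
theorem FB.simple (hL : FB t L J) (hεL : dg ε ∈ L) (hε : ∀ k, ε k = 1 ∨ ε k = -1) (hI : IsIdeal L I) (h0 : I ≠ ⊥) :
    I = L := by
  rcases hL with ⟨ht, π, hJ, hdet, hm, hL⟩ | ⟨ht, π, hJ, hdet, hm, hL, h6, h8⟩ | ⟨ht, hL, h2⟩
  · exact simple_s hJ hdet hL hI h0
  · refine simple_o hJ hdet hm (fun i hi => ?_) hL (by omega) hI h0
    have h1 := (dg_skew hm hdet ε).1 ((hL _).1 hεL) i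
    rw [hi] at h1
    exact s04_neg (hε i) h1
  · exact simple_n hL hI h0

private theorem s04_main {L : Submodule K (Module.End K (κ → K))}
    (hlie : ∀ X ∈ L, ∀ Y ∈ L, X * Y - Y * X ∈ L)
    (hs : ∀ I : Submodule K (Module.End K (κ → K)), IsIdeal L I → I ≠ ⊥ → I = L) {h : κ → K} (hc : Cor L ε h) {i : κ}
    (hi : h i = 1) :
    L = Submodule.span K {Z | ∃ X ∈ L, ∃ Y ∈ L, Z = X * Y - Y * X} := by
  symm
  apply hs
  · have h1 : Submodule.span K {Z | ∃ X ∈ L, ∃ Y ∈ L, Z = X * Y - Y * X} ≤ L := by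
      rw [Submodule.span_le]
      rintro Z ⟨X, hX, Y, hY, rfl⟩
      exact hlie X hX Y hY
    exact ⟨h1, fun X hX Y hY => Submodule.subset_span ⟨X, hX, Y, h1 hY, rfl⟩⟩
  · intro hb
    obtain ⟨E, hE, F, hF, hT⟩ := hc
    have h1 : E * F - F * E ∈ Submodule.span K {Z | ∃ X ∈ L, ∃ Y ∈ L, Z = X * Y - Y * X} :=
      Submodule.subset_span ⟨E, hE, F, hF, rfl⟩
    rw [hb, Submodule.mem_bot, hT.co] at h1
    have h2 : dg h (fun _ => (1 : K)) i = 0 := by rw [h1]; rfl
    rw [dg_apply, hi, mul_one] at h2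
    exact one_ne_zero h2

/-- PROOF. There are `i`, `j` such that `L` contains two elements which do not commute: the span of the brackets is an ideal of `L`
(`L` is a Lie algebra: in the cases `s`, `o` `adjE J` is an antiautomorphism (`adjE_mul`), in the case `n` `LinearMap.trace_mul_comm`), it is not zero:
case `s`: `cor_s` (for `i` with `ε i = 1`, which exists since `ε` changes the sign under `π`, and `κ` is not empty) gives `E, F ∈ L` with
`[E, F] = dg (1_i - 1_(π i)) ≠ 0`; case `o`: `cor_o` (two elements `i ≠ j` with `ε = 1`: half of the at least `6` elements); case `n`: `cor_n`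
(`ε` has sum zero by the trace, so it has both values).  Then `FB.simple`. -/
theorem FB.perfect [Nonempty κ] (hL : FB t L J) (hεL : dg ε ∈ L) (hε : ∀ k, ε k = 1 ∨ ε k = -1) :
    L = Submodule.span K {Z | ∃ X ∈ L, ∃ Y ∈ L, Z = X * Y - Y * X} := by
  have hs : ∀ I : Submodule K (Module.End K (κ → K)), IsIdeal L I → I ≠ ⊥ → I = L :=
    fun I hI h0 => hL.simple hεL hε hI h0
  have hlieJ : ∀ {J : Matrix κ κ K}, IsUnit J.det → (∀ X, X ∈ L ↔ adjE J X = -X) →
      ∀ X ∈ L, ∀ Y ∈ L, X * Y - Y * X ∈ L := by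
    intro J hdet hL X hX Y hY
    rw [hL] at hX hY ⊢
    have e1 : ∀ a b : Module.End K (κ → K), (-a) * (-b) = a * b := fun a b => by
      refine LinearMap.ext fun v => ?_
      simp only [Module.End.mul_apply, LinearMap.neg_apply, map_neg, neg_neg]
    rw [map_sub, adjE_mul hdet, adjE_mul hdet, hX, hY, e1, e1, neg_sub]
  rcases hL with ⟨ht, π, hJ, hdet, hm, hL⟩ | ⟨ht, π, hJ, hdet, hm, hL, h6, h8⟩ | ⟨ht, hL, h2⟩
  · have hsk := (dg_skew hm hdet ε).1 ((hL _).1 hεL)
    have hex : ∃ i, ε i = 1 := by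
      obtain ⟨a⟩ := ‹Nonempty κ›
      rcases hε a with h | h
      · exact ⟨a, h⟩
      · exact ⟨π a, by rw [hsk a, h, neg_neg]⟩
    obtain ⟨i, hi⟩ := hex
    have hc := cor_s hJ hdet hm (L := L) (fun X hX => (hL X).2 hX) hi (by rw [hsk i, hi])
    refine s04_main (hlieJ hdet hL) hs hc (i := i) ?_
    rw [Pi.sub_apply, Pi.single_eq_same, Pi.single_eq_of_ne (hm.ne_self hJ i).symm, sub_zero]
  · have hsk := (dg_skew hm hdet ε).1 ((hL _).1 hεL)
    have hex : ∀ a, ∃ i, (i = a ∨ i = π a) ∧ ε i = 1 := by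
      intro a
      rcases hε a with h | h
      · exact ⟨a, Or.inl rfl, h⟩
      · exact ⟨π a, Or.inr rfl, by rw [hsk a, h, neg_neg]⟩
    obtain ⟨a⟩ := ‹Nonempty κ›
    obtain ⟨i, hia, hi⟩ := hex a
    have hb : ∃ b, b ∉ ({a, π a} : Finset κ) := by
      by_contra hcon
      push Not at hcon
      have h1 : (Finset.univ : Finset κ) ⊆ {a, π a} := fun b _ => hcon b
      have h2 := Finset.card_le_card h1
      have h3 := Finset.card_le_two (a := a) (b := π a)
      rw [Finset.card_univ] at h2
      omega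
    obtain ⟨b, hb⟩ := hb
    rw [Finset.mem_insert, Finset.mem_singleton, not_or] at hb
    obtain ⟨j, hjb, hj⟩ := hex b
    have hij : i ≠ j := by
      rintro rfl
      rcases hia with rfl | rfl
      · rcases hjb with h | h
        · exact hb.1 h.symm
        · apply hb.2
          rw [h, hm.inv]
      · rcases hjb with h | h
        · exact hb.2 h.symm
        · apply hb.1
          rw [← hm.inv b, ← h, hm.inv]
    have hc := cor_o hJ hdet hm (L := L) (fun X hX => (hL X).2 hX) hij hi hj (by rw [hsk i, hi]) (by rw [hsk j, hj])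
    refine s04_main (hlieJ hdet hL) hs hc (i := i) ?_
    have h1 : i ≠ π i := by
      intro h
      have h1 := hsk i
      rw [← h] at h1
      exact s04_neg (hε i) h1
    have h2 : i ≠ π j := by
      intro h
      have h1 := hsk j
      rw [← h, hi, hj] at h1
      exact s04_neg (Or.inl rfl) h1
    rw [Pi.sub_apply, Pi.sub_apply, Pi.add_apply, Pi.single_eq_same, Pi.single_eq_of_ne hij, Pi.single_eq_of_ne h1,
      Pi.single_eq_of_ne h2]
    ring
  · have hsum : ∑ a, ε a = 0 := by rw [← s04_trace]; exact (hL _).1 hεL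
    have hcard : (Fintype.card κ : K) ≠ 0 := by
      have : Fintype.card κ ≠ 0 := by omega
      exact_mod_cast this
    have h1 : ∃ i, ε i = 1 := by
      by_contra hcon
      push Not at hcon
      have h3 : ∀ i, ε i = -1 := fun i => (hε i).resolve_left (hcon i)
      have h4 : ∑ a, ε a = -(Fintype.card κ : K) := by
        rw [Finset.sum_congr rfl fun a _ => h3 a]
        simp
      rw [h4, neg_eq_zero] at hsum
      exact hcard hsum
    have h2 : ∃ i, ε i = -1 := by
      by_contra hcon
      push Not at hcon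
      have h3 : ∀ i, ε i = 1 := fun i => (hε i).resolve_right (hcon i)
      have h4 : ∑ a, ε a = (Fintype.card κ : K) := by
        rw [Finset.sum_congr rfl fun a _ => h3 a]
        simp
      rw [h4] at hsum
      exact hcard hsum
    obtain ⟨i, hi⟩ := h1
    obtain ⟨j, hj⟩ := h2
    have hij : i ≠ j := by
      rintro rfl
      rw [hi] at hj
      exact s04_neg (Or.inl rfl) hj
    have hc := cor_n (L := L) (fun X hX => (hL X).2 hX) hi hj
    refine s04_main ?_ hs hc (i := i) ?_
    · intro X hX Y hY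
      rw [hL, map_sub, LinearMap.trace_mul_comm, sub_self]
    · rw [Pi.sub_apply, Pi.single_eq_same, Pi.single_eq_of_ne hij, sub_zero]

end Pool.Agent.H34Z
end

-- from Lib.H34Z.G07
section

/-!
# G07: generation of the groups of the full Lie algebras
-/

set_option autoImplicit false
set_option linter.unusedSectionVars false
namespace Pool.Agent.H34Z
open Matrix Module Pool.Agent.H53Toric Pool.Agent.H76P

variable {κ : Type*} [Fintype κ] [DecidableEq κ] {K : Type*} [Field K] [CharZero K] {J : Matrix κ κ K} {Z : Set (Matrix κ κ K)}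

/-- PROOF. Let `m = {i // ε i = 1}` (classical), `r` its cardinality, and identify `Fin r` with `m` (`Fintype.equivFin`, call it `s : Fin r → κ`, injective with
range `{ε = 1}`); below `i`, `j` stand for elements of `m`.  `P` has the columns `Pi.single i 1` (`inl i`) and `(J i (π i))⁻¹ • Pi.single (π i) 1` (`inr i`), `Q` the rows `Pi.single i 1` (`inl i`) and
`J i (π i) • Pi.single (π i) 1` (`inr i`).  `Q * P = 1` (`π i ≠ j` for `ε i = ε j = 1`), `P * Q = 1` (each `k : κ` is `i` or `π i` for exactly one `i` with `ε i = 1`;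
or `Matrix.mul_eq_one_comm_of_card_eq`).  `(Pᵀ J P)`: `(inl i, inl j)`: `J i j = 0` (`ε (π i) = -1 ≠ ε j`), `(inl i, inr j)`: `J i (π j) * (J j (π j))⁻¹ = δ i j`,
`(inr i, inl j)`: by symmetry, `(inr i, inr j)`: `J (π i) (π j) = 0` since `π (π i) = i ≠ π j`. -/
theorem exists_std {π : κ → κ} (hJ : Jᵀ = J) (hm : Mon J π) {ε : κ → K} (hε : ∀ k, ε k = 1 ∨ ε k = -1) (hπ : ∀ k, ε (π k) = -ε k) :
    ∃ (r : ℕ) (P : Matrix κ (Fin r ⊕ Fin r) K) (Q : Matrix (Fin r ⊕ Fin r) κ K),
      P * Q = 1 ∧ Q * P = 1 ∧ Pᵀ * J * P = J0 (Fin r) K ∧ Fintype.card κ = 2 * r := by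
  classical
  have h11 : (1 : K) ≠ -1 := by
    intro h
    have h2 : (2 : K) = 0 := by linear_combination h
    exact two_ne_zero h2
  obtain ⟨r, hr⟩ : ∃ r, r = Fintype.card {i : κ // ε i = 1} := ⟨_, rfl⟩
  have eF : Fin r ≃ {i : κ // ε i = 1} := Fintype.equivOfCardEq (by rw [Fintype.card_fin, hr])
  obtain ⟨s, hs⟩ : ∃ s : Fin r → κ, s = fun x => (eF x : κ) := ⟨_, rfl⟩
  have hs1 : ∀ x, ε (s x) = 1 := fun x => by
    rw [hs]
    exact (eF x).2
  have hsi : Function.Injective s := by
    intro x y hxy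
    rw [hs] at hxy
    exact eF.injective (Subtype.ext hxy)
  have hss : ∀ k, ε k = 1 → ∃ x, s x = k := by
    intro k hk
    refine ⟨eF.symm ⟨k, hk⟩, ?_⟩
    rw [hs]
    change ((eF (eF.symm ⟨k, hk⟩) : {i : κ // ε i = 1}) : κ) = k
    rw [Equiv.apply_symm_apply]
  have hπi : Function.Injective π := fun x y h => by
    rw [← hm.inv x, h, hm.inv]
  have hs2 : ∀ x, ε (π (s x)) = -1 := fun x => by rw [hπ, hs1]
  have hbij : Function.Bijective (Sum.elim s fun x => π (s x)) := by
    constructor
    · rintro (x | x) (y | y) hxy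
      · exact congrArg Sum.inl (hsi hxy)
      · exact absurd (((hs1 x).symm.trans (congrArg ε hxy)).trans (hs2 y)) h11
      · exact absurd (((hs1 y).symm.trans (congrArg ε hxy.symm)).trans (hs2 x)) h11
      · exact congrArg Sum.inr (hsi (hπi hxy))
    · intro k
      rcases hε k with h | h
      · obtain ⟨x, hx⟩ := hss k h
        exact ⟨Sum.inl x, hx⟩
      · obtain ⟨x, hx⟩ := hss (π k) (by rw [hπ, h, neg_neg])
        refine ⟨Sum.inr x, ?_⟩
        change π (s x) = k
        rw [hx, hm.inv]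
  obtain ⟨e, he⟩ : ∃ e : Fin r ⊕ Fin r ≃ κ, (e : Fin r ⊕ Fin r → κ) = Sum.elim s fun x => π (s x) :=
    ⟨Equiv.ofBijective _ hbij, rfl⟩
  have hel : ∀ x, e (Sum.inl x) = s x := fun x => congrFun he (Sum.inl x)
  have her : ∀ x, e (Sum.inr x) = π (s x) := fun x => congrFun he (Sum.inr x)
  obtain ⟨u, hu⟩ : ∃ u : Fin r ⊕ Fin r → K, u = Sum.elim (fun _ => 1) fun x => (J (s x) (π (s x)))⁻¹ := ⟨_, rfl⟩
  have hu0 : ∀ x, u x ≠ 0 := by
    rw [hu]
    rintro (x | x)
    · exact one_ne_zero
    · exact inv_ne_zero (hm.ne (s x))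
  have key : ∀ x y, u x * J (e x) (e y) * u y = J0 (Fin r) K x y := by
    unfold J0
    rw [hu]
    rintro (x | x) (y | y)
    · rw [hel, hel, Matrix.fromBlocks_apply₁₁, Matrix.zero_apply, hm.zero, mul_zero, zero_mul]
      intro h
      exact h11 (((hs1 y).symm.trans (congrArg ε h)).trans (hs2 x))
    · rw [hel, her, Matrix.fromBlocks_apply₁₂]
      change 1 * J (s x) (π (s y)) * (J (s y) (π (s y)))⁻¹ = _
      by_cases hxy : x = y
      · rw [hxy, Matrix.one_apply_eq, one_mul, mul_inv_cancel₀ (hm.ne (s y))]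
      · rw [Matrix.one_apply_ne hxy, hm.zero, mul_zero, zero_mul]
        intro h
        exact hxy (hsi (hπi h)).symm
    · rw [hel, her, Matrix.fromBlocks_apply₂₁]
      change (J (s x) (π (s x)))⁻¹ * J (π (s x)) (s y) * 1 = _
      have h3 : J (π (s x)) (s y) = J (s y) (π (s x)) := congrFun (congrFun hJ (s y)) (π (s x))
      rw [h3]
      by_cases hxy : x = y
      · rw [hxy, Matrix.one_apply_eq, mul_one, inv_mul_cancel₀ (hm.ne (s y))]
      · rw [Matrix.one_apply_ne hxy, hm.zero (s y), mul_zero, zero_mul]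
        intro h
        exact hxy (hsi (hπi h))
    · rw [her, her, Matrix.fromBlocks_apply₂₂, Matrix.zero_apply, hm.zero (π (s x)), mul_zero, zero_mul]
      rw [hm.inv]
      intro h
      exact h11 (((hs1 x).symm.trans (congrArg ε h.symm)).trans (hs2 y))
  refine ⟨r, Matrix.of fun k x => if k = e x then u x else 0, Matrix.of fun x k => if k = e x then (u x)⁻¹ else 0, ?_, ?_, ?_, ?_⟩
  · ext k l
    rw [Matrix.mul_apply]
    simp only [Matrix.of_apply]
    rw [Finset.sum_eq_single (e.symm k)]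
    · rw [Equiv.apply_symm_apply, if_pos rfl]
      by_cases hkl : k = l
      · rw [hkl, if_pos rfl, Matrix.one_apply_eq, mul_inv_cancel₀ (hu0 _)]
      · rw [if_neg (fun h => hkl h.symm), mul_zero, Matrix.one_apply_ne hkl]
    · intro x _ hx
      rw [if_neg, zero_mul]
      rintro rfl
      exact hx (Equiv.symm_apply_apply e x).symm
    · intro h
      exact absurd (Finset.mem_univ _) h
  · ext x y
    rw [Matrix.mul_apply]
    simp only [Matrix.of_apply]
    rw [Finset.sum_eq_single (e x)]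
    · rw [if_pos rfl]
      by_cases hxy : x = y
      · rw [hxy, if_pos rfl, Matrix.one_apply_eq, inv_mul_cancel₀ (hu0 _)]
      · rw [if_neg (fun h => hxy (e.injective h)), mul_zero, Matrix.one_apply_ne hxy]
    · intro k _ hk
      rw [if_neg hk, zero_mul]
    · intro h
      exact absurd (Finset.mem_univ _) h
  · ext x y
    rw [← key, Matrix.mul_apply, Finset.sum_eq_single (e y)]
    · rw [Matrix.mul_apply, Finset.sum_eq_single (e x)]
      · rw [Matrix.transpose_apply, Matrix.of_apply, Matrix.of_apply, if_pos rfl, if_pos rfl]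
      · intro k _ hk
        rw [Matrix.transpose_apply, Matrix.of_apply, if_neg hk, zero_mul]
      · intro h
        exact absurd (Finset.mem_univ _) h
    · intro k _ hk
      rw [Matrix.of_apply, if_neg hk, mul_zero]
    · intro h
      exact absurd (Finset.mem_univ _) h
  · rw [← Fintype.card_congr e, Fintype.card_sum, Fintype.card_fin]
    ring

/-- PROOF. `gen_so0` for the set `{X | P * X * Q ∈ Z}` (`exists_std`): if `N * N = 0`, `Nᵀ * J0 + J0 * N = 0` then `P * N * Q` has square zero and is skew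
for `J` (`(P N Q)ᵀ J + J (P N Q) = Qᵀ (Nᵀ Pᵀ J P + Pᵀ J P N) Q`), `1 + P N Q = P (1 + N) Q`.  The element `Q * M * P` preserves `J0` and has
determinant `1` (`Matrix.det_mul_comm`-like: `det (Q * M * P) = det (M * (P * Q))`; the index types have the same cardinality, use
`Matrix.det_comm'`), and `P * (Q * M * P) * Q = M`. -/
theorem gen_orth [IsAlgClosed K] {π : κ → κ} (hJ : Jᵀ = J) (hm : Mon J π) {ε : κ → K} (hε : ∀ k, ε k = 1 ∨ ε k = -1)
    (hπ : ∀ k, ε (π k) = -ε k) (h3 : 3 ≤ Fintype.card κ) (hZ : Zs J Z) {M : Matrix κ κ K} (hM : Mᵀ * J * M = J)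
    (hdet : M.det = 1) : M ∈ Z := by
  obtain ⟨r, P, Q, hPQ, hQP, hPJ, hr⟩ := exists_std hJ hm hε hπ
  have hZ' : Zs (J0 (Fin r) K) {X | P * X * Q ∈ Z} := by
    refine ⟨?_, ?_, ?_⟩
    · change P * (1 : Matrix (Fin r ⊕ Fin r) (Fin r ⊕ Fin r) K) * Q ∈ Z
      rw [Matrix.mul_one, hPQ]
      exact hZ.one
    · intro a ha b hb
      have h1 : P * (a * b) * Q = P * a * Q * (P * b * Q) := by
        calc P * (a * b) * Q = P * a * (1 : Matrix (Fin r ⊕ Fin r) (Fin r ⊕ Fin r) K) * (b * Q) := by simp only [Matrix.mul_assoc, Matrix.one_mul]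
          _ = P * a * (Q * P) * (b * Q) := by rw [hQP]
          _ = P * a * Q * (P * b * Q) := by simp only [Matrix.mul_assoc]
      change P * (a * b) * Q ∈ Z
      rw [h1]
      exact hZ.mul _ ha _ hb
    · intro N hN hs
      change P * ((1 : Matrix (Fin r ⊕ Fin r) (Fin r ⊕ Fin r) K) + N) * Q ∈ Z
      have h1 : P * ((1 : Matrix (Fin r ⊕ Fin r) (Fin r ⊕ Fin r) K) + N) * Q = 1 + P * N * Q := by
        rw [Matrix.mul_add, Matrix.add_mul, Matrix.mul_one, hPQ]
      rw [h1]
      refine hZ.exp _ ?_ ?_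
      · calc P * N * Q * (P * N * Q) = P * N * (Q * P) * (N * Q) := by simp only [Matrix.mul_assoc]
          _ = P * (N * N) * Q := by
            rw [hQP]
            simp only [Matrix.mul_assoc, Matrix.one_mul]
          _ = 0 := by rw [hN, Matrix.mul_zero, Matrix.zero_mul]
      · have h2 : (P * N * Q)ᵀ * J = Qᵀ * (Nᵀ * (Pᵀ * J * P)) * Q := by
          calc (P * N * Q)ᵀ * J = Qᵀ * (Nᵀ * (Pᵀ * J)) * (1 : Matrix κ κ K) := by
                rw [Matrix.transpose_mul, Matrix.transpose_mul, Matrix.mul_one]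
                simp only [Matrix.mul_assoc]
            _ = Qᵀ * (Nᵀ * (Pᵀ * J)) * (P * Q) := by rw [hPQ]
            _ = Qᵀ * (Nᵀ * (Pᵀ * J * P)) * Q := by simp only [Matrix.mul_assoc]
        have h3 : J * (P * N * Q) = Qᵀ * (Pᵀ * J * P * N) * Q := by
          have h4 : Qᵀ * Pᵀ = (1 : Matrix κ κ K) := by rw [← Matrix.transpose_mul, hPQ, Matrix.transpose_one]
          calc J * (P * N * Q) = (1 : Matrix κ κ K) * (J * (P * N * Q)) := by rw [Matrix.one_mul]
            _ = Qᵀ * Pᵀ * (J * (P * N * Q)) := by rw [h4]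
            _ = Qᵀ * (Pᵀ * J * P * N) * Q := by simp only [Matrix.mul_assoc]
        rw [h2, h3, hPJ, ← Matrix.add_mul, ← Matrix.mul_add, hs, Matrix.mul_zero, Matrix.zero_mul]
  have hQJ : Qᵀ * J0 (Fin r) K * Q = J := by
    rw [← hPJ]
    calc Qᵀ * (Pᵀ * J * P) * Q = (Qᵀ * Pᵀ) * J * (P * Q) := by simp only [Matrix.mul_assoc]
      _ = J := by rw [← Matrix.transpose_mul, hPQ, Matrix.transpose_one, Matrix.one_mul, Matrix.mul_one]
  have h5 : (Q * M * P)ᵀ * J0 (Fin r) K * (Q * M * P) = J0 (Fin r) K := by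
    calc (Q * M * P)ᵀ * J0 (Fin r) K * (Q * M * P) = Pᵀ * (Mᵀ * (Qᵀ * J0 (Fin r) K * Q) * M) * P := by
          rw [Matrix.transpose_mul, Matrix.transpose_mul]
          simp only [Matrix.mul_assoc]
      _ = J0 (Fin r) K := by rw [hQJ, hM, hPJ]
  have h6 : (Q * M * P).det = 1 := by
    rw [Matrix.det_conj_of_mul_eq_one hQP hPQ, hdet]
  have h7 : 2 ≤ Fintype.card (Fin r) := by
    rw [Fintype.card_fin]
    omega
  have h8 : P * (Q * M * P) * Q ∈ Z := gen_so0 hZ' h7 h5 h6
  have h9 : P * (Q * M * P) * Q = M := by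
    calc P * (Q * M * P) * Q = (P * Q) * M * (P * Q) := by simp only [Matrix.mul_assoc]
      _ = M := by rw [hPQ, Matrix.one_mul, Matrix.mul_one]
  rwa [h9] at h8

/-- PROOF. Cases of `hL`: `s`: `gen_sp` (`Zs`: `skew_iff`), `o`: `gen_orth` (`hπ` from `dg_skew`, `hεL`), `n`: `gen_sl` (the trace of `phi N` is `N.trace`). -/
theorem FB.gen [IsAlgClosed K] {t : Prop} {L : Submodule K (Module.End K (κ → K))} (hL : FB t L J) {ε : κ → K}
    (hεL : dg ε ∈ L) (hε : ∀ k, ε k = 1 ∨ ε k = -1)
    (h1 : (1 : Matrix κ κ K) ∈ Z) (hmul : ∀ a ∈ Z, ∀ b ∈ Z, a * b ∈ Z)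
    (hexp : ∀ N : Matrix κ κ K, N * N = 0 → phi N ∈ L → 1 + N ∈ Z)
    {M : Matrix κ κ K} (hM : t → Mᵀ * J * M = J) (hdet : M.det = 1) : M ∈ Z := by
  rcases hL with ⟨ht, π, hJ, hJd, hm, hL⟩ | ⟨ht, π, hJ, hJd, hm, hL, h6, h8⟩ | ⟨ht, hL, h2⟩
  · exact gen_sp hJ hJd ⟨h1, hmul, fun N hN hs => hexp N hN ((hL _).2 ((skew_iff hJd N).2 hs))⟩ (hM ht)
  · exact gen_orth hJ hm hε ((dg_skew hm hJd ε).1 ((hL _).1 hεL)) (by omega)
      ⟨h1, hmul, fun N hN hs => hexp N hN ((hL _).2 ((skew_iff hJd N).2 hs))⟩ (hM ht) hdet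
  · refine gen_sl h1 hmul (fun N hN hs => hexp N hN ((hL _).2 ?_)) hdet
    have h3 : LinearMap.trace K (κ → K) (phi N) = N.trace := Matrix.trace_toLin'_eq N
    rw [h3, hs]

end Pool.Agent.H34Z
end

-- from Lib.H34V.V07
section

/-!
# V07: the full algebras, without an involution
-/

set_option autoImplicit false
set_option linter.unusedSectionVars false
namespace Pool.Agent.H34V
open Module Matrix Pool.Agent.H53Toric Pool.Agent.H76P Pool.Agent.H34Z

variable {κ κ' : Type*} [Fintype κ] [DecidableEq κ] [Fintype κ'] [DecidableEq κ'] {K : Type*} [Field K] [CharZero K]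
  {𝓛 : Submodule K (Module.End K (κ → K) × Module.End K (κ' → K))}
  {L : Submodule K (Module.End K (κ → K))} {L' : Submodule K (Module.End K (κ' → K))}
  {d ε : κ → K} {d' ε' : κ' → K}

/-- PROOF. All fields except `eps`, `val`, `val'` are those of `Gz`. -/
theorem Gz.gr (h : Gz 𝓛 L L' d d') (hε : (dg ε, dg ε') ∈ 𝓛) (hv : ∀ k, ε k = 1 ∨ ε k = -1)
    (hv' : ∀ k, ε' k = 1 ∨ ε' k = -1) : Gr 𝓛 L L' d d' ε ε' where
  lie := h.lie
  fst := h.fst
  snd := h.snd
  left := h.left
  right := h.right
  inj := h.inj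
  inj' := h.inj'
  ne := h.ne
  ne' := h.ne'
  cnj := h.cnj
  eps := hε
  val := hv
  val' := hv'

/-- PROOF. Constructor by constructor. -/
theorem FV.fb {t : Prop} {J : Matrix κ κ K} (hL : FV t L J) : FB t L J := by
  rcases hL with ⟨ht, π, hJ, hdet, hm, hL, h2⟩ | ⟨ht, π, hJ, hdet, hm, hne, hL, h6, h8⟩ | ⟨ht, hL, h2⟩
  · exact FB.s ht π hJ hdet hm hL
  · exact FB.o ht π hJ hdet hm hL h6 h8
  · exact FB.n ht hL h2

/-- An involution without fixed points has an odd function with the values `1`, `-1`.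
PROOF. `ε i = 1` iff `Fintype.equivFin κ i < Fintype.equivFin κ (π i)`. -/
theorem exists_odd {π : κ → κ} (hinv : ∀ i, π (π i) = i) (hne : ∀ i, π i ≠ i) :
    ∃ ε : κ → K, (∀ k, ε k = 1 ∨ ε k = -1) ∧ ∀ k, ε (π k) = -ε k := by
  classical
  refine ⟨fun i => if Fintype.equivFin κ i < Fintype.equivFin κ (π i) then 1 else -1, fun k => ?_, fun k => ?_⟩
  · by_cases h : Fintype.equivFin κ k < Fintype.equivFin κ (π k)
    · exact Or.inl (if_pos h)
    · exact Or.inr (if_neg h)
  · have hne' : Fintype.equivFin κ k ≠ Fintype.equivFin κ (π k) := fun h => hne k ((Fintype.equivFin κ).injective h).symm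
    change (if Fintype.equivFin κ (π k) < Fintype.equivFin κ (π (π k)) then (1 : K) else -1) =
      -(if Fintype.equivFin κ k < Fintype.equivFin κ (π k) then (1 : K) else -1)
    rw [hinv]
    rcases lt_or_gt_of_ne hne' with h | h
    · rw [if_neg (not_lt_of_gt h), if_pos h]
    · rw [if_pos h, if_neg (not_lt_of_gt h), neg_neg]

/-- PROOF. Cases: `simple_s`, `simple_o`, `simple_n` (H34Z/S01 - S03), as in `H34Z.FB.simple` (H34Z/S04). -/
theorem FV.simple {t : Prop} {J : Matrix κ κ K} {I : Submodule K (Module.End K (κ → K))} (hL : FV t L J)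
    (hI : Pool.Agent.H76T.IsIdeal L I) (h0 : I ≠ ⊥) : I = L := by
  rcases hL with ⟨ht, π, hJ, hdet, hm, hL, h2⟩ | ⟨ht, π, hJ, hdet, hm, hne, hL, h6, h8⟩ | ⟨ht, hL, h2⟩
  · exact simple_s hJ hdet hL hI h0
  · exact simple_o hJ hdet hm hne hL (by omega) hI h0
  · exact simple_n hL hI h0

/-- PROOF. Cases `s`, `o`: `FB.perfect` (H34Z/S04) with `hL.fb` and the `ε` of `exists_odd` (case `s`: `π i ≠ i` by `Mon.ne_self`), `dg ε ∈ L` by `dg_skew`.  Case `n`: the span of the brackets is
an ideal (see the proof of `FB.perfect`, `LinearMap.trace_mul_comm`), not zero: for `i ≠ j` (`h2`) the bracket of `phi (Matrix.single i j 1)` and `phi (Matrix.single j i 1)` is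
`dg (1_i - 1_j) ≠ 0`; `FV.simple`. -/
theorem FV.perfect {t : Prop} {J : Matrix κ κ K} (hL : FV t L J) :
    L = Submodule.span K {Z | ∃ X ∈ L, ∃ Y ∈ L, Z = X * Y - Y * X} := by
  rcases hL with ⟨ht, π, hJ, hdet, hm, hL, h2⟩ | ⟨ht, π, hJ, hdet, hm, hne, hL, h6, h8⟩ | ⟨ht, hL, h2⟩
  · haveI : Nonempty κ := Fintype.card_pos_iff.1 (by omega)
    obtain ⟨ε, hε, hπ⟩ := exists_odd (K := K) hm.inv (fun i => hm.ne_self hJ i)
    exact (FB.s ht π hJ hdet hm hL : FB t L J).perfect ((hL _).2 ((dg_skew hm hdet ε).2 hπ)) hε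
  · haveI : Nonempty κ := Fintype.card_pos_iff.1 (by omega)
    obtain ⟨ε, hε, hπ⟩ := exists_odd (K := K) hm.inv hne
    exact (FB.o ht π hJ hdet hm hL h6 h8 : FB t L J).perfect ((hL _).2 ((dg_skew hm hdet ε).2 hπ)) hε
  · symm
    have h1 : Submodule.span K {Z | ∃ X ∈ L, ∃ Y ∈ L, Z = X * Y - Y * X} ≤ L := by
      rw [Submodule.span_le]
      rintro Z ⟨X, hX, Y, hY, rfl⟩
      refine (hL _).2 ?_
      rw [map_sub, LinearMap.trace_mul_comm, sub_self]
    refine simple_n hL ⟨h1, fun X hX Y hY => Submodule.subset_span ⟨X, hX, Y, h1 hY, rfl⟩⟩ ?_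
    intro hb
    obtain ⟨i, j, hij⟩ := Fintype.one_lt_card_iff.1 (by omega : 1 < Fintype.card κ)
    have h3 : phi (Matrix.single i j (1 : K)) * phi (Matrix.single j i (1 : K)) -
        phi (Matrix.single j i (1 : K)) * phi (Matrix.single i j (1 : K)) ∈
          Submodule.span K {Z | ∃ X ∈ L, ∃ Y ∈ L, Z = X * Y - Y * X} :=
      Submodule.subset_span ⟨_, s01_mem hL hij 1, _, s01_mem hL (Ne.symm hij) 1, rfl⟩
    rw [hb, Submodule.mem_bot, ← map_mul, ← map_mul, ← map_sub, Matrix.single_mul_single_same,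
      Matrix.single_mul_single_same, one_mul] at h3
    have h4 : Matrix.single i i (1 : K) - Matrix.single j j (1 : K) = 0 :=
      (phi (ι := κ) (K := K)).injective (by rw [h3, map_zero])
    have h5 := congrFun (congrFun h4 i) i
    rw [Matrix.sub_apply, Matrix.single_apply_same, Matrix.single_apply_of_ne, sub_zero, Matrix.zero_apply] at h5
    · exact one_ne_zero h5
    · rintro ⟨h6, -⟩
      exact hij h6.symm

/-- PROOF. Cases `s`, `o`: `FB.gen` (H34Z/G07) with `hL.fb` and the `ε` of `exists_odd` (`dg ε ∈ L` by `dg_skew`).  Case `n`: `gen_sl`, as in `FB.gen`. -/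
theorem FV.gen [IsAlgClosed K] {t : Prop} {J : Matrix κ κ K} (hL : FV t L J) {Z : Set (Matrix κ κ K)}
    (h1 : (1 : Matrix κ κ K) ∈ Z) (hmul : ∀ a ∈ Z, ∀ b ∈ Z, a * b ∈ Z)
    (hexp : ∀ N : Matrix κ κ K, N * N = 0 → phi N ∈ L → 1 + N ∈ Z)
    {M : Matrix κ κ K} (hM : t → Mᵀ * J * M = J) (hdet : M.det = 1) : M ∈ Z := by
  rcases hL with ⟨ht, π, hJ, hJd, hm, hL, h2⟩ | ⟨ht, π, hJ, hJd, hm, hne, hL, h6, h8⟩ | ⟨ht, hL, h2⟩
  · obtain ⟨ε, hε, hπ⟩ := exists_odd (K := K) hm.inv (fun i => hm.ne_self hJ i)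
    exact (FB.s ht π hJ hJd hm hL : FB t L J).gen ((hL _).2 ((dg_skew hm hJd ε).2 hπ)) hε h1 hmul hexp hM hdet
  · obtain ⟨ε, hε, hπ⟩ := exists_odd (K := K) hm.inv hne
    exact (FB.o ht π hJ hJd hm hL h6 h8 : FB t L J).gen ((hL _).2 ((dg_skew hm hJd ε).2 hπ)) hε h1 hmul hexp hM hdet
  · refine gen_sl h1 hmul (fun N hN hs => hexp N hN ((hL _).2 ?_)) hdet
    rw [s01_tr, hs]

end Pool.Agent.H34V
end

-- from Lib.H86N.O1
section

/-!
# O1: symmetric forms: general facts and dimension six
-/

set_option autoImplicit false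
set_option linter.unusedSectionVars false
namespace Pool.Agent.H86N
open Module Pool.Agent.H53Toric Pool.Agent.H49M

variable {K : Type*} [Field K] {V : Type*} [AddCommGroup V] [Module K V]
variable {L : Submodule K (Module.End K V)}

/-- A nonzero invariant symmetric form is nondegenerate. -/
theorem o1_nd (hirr : Irr L) {B : V →ₗ[K] V →ₗ[K] K} (hB : B ≠ 0)
    (hinv : ∀ X ∈ L, ∀ v w, B (X v) w + B v (X w) = 0) {v : V} (hv : ∀ w, B v w = 0) : v = 0 := by
  rcases hirr (LinearMap.ker B) (by
    intro X hX u hu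
    rw [LinearMap.mem_ker] at hu ⊢
    ext w
    have h1 := hinv X hX u w
    rw [hu, LinearMap.zero_apply, add_zero] at h1
    rw [h1, LinearMap.zero_apply]) with h1 | h1
  · have h2 : v ∈ LinearMap.ker B := by
      rw [LinearMap.mem_ker]
      ext w
      exact hv w
    rw [h1, Submodule.mem_bot] at h2
    exact h2
  · exact absurd (LinearMap.ker_eq_top.1 h1) hB

/-- Skew operators have trace zero. -/
theorem o1_trace [CharZero K] [FiniteDimensional K V] {B : V →ₗ[K] V →ₗ[K] K}
    (hnd : ∀ v, (∀ w, B v w = 0) → v = 0) {X : Module.End K V}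
    (hX : ∀ v w, B (X v) w + B v (X w) = 0) : LinearMap.trace K V X = 0 := by
  have hinj : Function.Injective B := by
    rw [injective_iff_map_eq_zero]
    intro v hv
    exact hnd v fun w => by rw [hv]; rfl
  let Φ : V ≃ₗ[K] Module.Dual K V := LinearEquiv.ofInjectiveOfFinrankEq B hinj (Subspace.dual_finrank_eq).symm
  have hΦ : ∀ v, Φ v = B v := fun v => rfl
  have h1 : (Φ.conj X : Module.End K (Module.Dual K V)) = -X.dualMap := by
    apply LinearMap.ext
    intro φ
    obtain ⟨v, rfl⟩ := Φ.surjective φ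
    rw [LinearEquiv.conj_apply_apply, LinearEquiv.symm_apply_apply]
    ext w
    rw [hΦ, LinearMap.neg_apply, LinearMap.neg_apply, LinearMap.dualMap_apply, hΦ]
    exact eq_neg_of_add_eq_zero_left (hX v w)
  have h2 := LinearMap.trace_conj' X Φ
  rw [h1] at h2
  have h3 : LinearMap.trace K (Module.Dual K V) X.dualMap = LinearMap.trace K V X := LinearMap.trace_transpose' X
  have h5 : LinearMap.trace K (Module.Dual K V) (-X.dualMap) = -LinearMap.trace K (Module.Dual K V) X.dualMap :=
    (LinearMap.trace K (Module.Dual K V)).map_neg (X.dualMap : Module.End K (Module.Dual K V))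
  rw [h5, h3] at h2
  have h4 : (2 : K) * LinearMap.trace K V X = 0 := by linear_combination -h2
  exact (mul_eq_zero.1 h4).resolve_left two_ne_zero


/-- The eigenspaces of an involution are isotropic. -/
theorem o1_iso [CharZero K] {B : V →ₗ[K] V →ₗ[K] K} {s : Module.End K V}
    (hs : ∀ v w, B (s v) w + B v (s w) = 0) {c : K} (hc : c * c = 1) {v w : V} (hv : s v = c • v) (hw : s w = c • w) :
    B v w = 0 := by
  have h1 := hs v w
  rw [hv, hw, map_smul, map_smul, LinearMap.smul_apply, smul_eq_mul] at h1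
  have h2 : (2 * c) * B v w = 0 := by linear_combination h1
  have hc0 : c ≠ 0 := by
    rintro rfl
    rw [zero_mul] at hc
    exact zero_ne_one hc
  exact (mul_eq_zero.1 h2).resolve_left (mul_ne_zero two_ne_zero hc0)

/-- If the eigenspaces of `s` have dimension three and `L` contains three independent operators of weight one, it
contains all skew operators of weight one. -/
theorem o1_weight [CharZero K] [FiniteDimensional K V] {B : V →ₗ[K] V →ₗ[K] K}
    (hnd : ∀ v, (∀ w, B v w = 0) → v = 0) (hsym : ∀ v w, B v w = B w v) {s : Module.End K V}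
    (hss : s * s = 1) (hs : ∀ v w, B (s v) w + B v (s w) = 0) (h3 : finrank K (eig s (-1)) = 3)
    (hinv : ∀ X ∈ L, ∀ v w, B (X v) w + B v (X w) = 0) {x : Fin 3 → Module.End K V}
    (hx : ∀ i, x i ∈ Lp L s) (hli : LinearIndependent K x) {X : Module.End K V}
    (hX : ∀ v w, B (X v) w + B v (X w) = 0) (h1 : s * X = X) (h2 : X * s = -X) : X ∈ L := by
  let S : Submodule K (Module.End K V) :=
    { carrier := {X | (∀ v w, B (X v) w + B v (X w) = 0) ∧ s * X = X ∧ X * s = -X}
      add_mem' := by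
        rintro a b ⟨h1, h2, h3⟩ ⟨h4, h5, h6⟩
        refine ⟨fun v w => ?_, by rw [mul_add, h2, h5], by rw [add_mul, h3, h6]; abel⟩
        simp only [LinearMap.add_apply, map_add]
        linear_combination h1 v w + h4 v w
      zero_mem' := ⟨fun v w => by simp, by simp, by simp⟩
      smul_mem' := by
        rintro c a ⟨h1, h2, h3⟩
        refine ⟨fun v w => ?_, by rw [mul_smul_comm, h2], by rw [smul_mul_assoc, h3, smul_neg]⟩
        simp only [LinearMap.smul_apply, map_smul, smul_eq_mul]
        linear_combination c * h1 v w }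
  have hLS : Submodule.span K (Set.range x) ≤ S := by
    rw [Submodule.span_le]
    rintro _ ⟨i, rfl⟩
    exact ⟨hinv _ (hx i).1, (hx i).2.1, (hx i).2.2⟩
  -- the dimension of S
  let b := Module.finBasisOfFinrankEq K (eig s (-1)) h3
  have m1 : ∀ {v : V}, v ∈ eig s (-1) ↔ s v = (-1 : K) • v := by
    intro v
    rw [eig, LinearMap.mem_ker, LinearMap.sub_apply, sub_eq_zero, LinearMap.smul_apply, Module.End.one_apply]
  let T : S →ₗ[K] (Fin 3 → K) :=
    { toFun := fun X => ![B (X.1 (b 0)) (b 1), B (X.1 (b 0)) (b 2), B (X.1 (b 1)) (b 2)]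
      map_add' := by
        intro X Y
        ext i
        fin_cases i <;> simp
      map_smul' := by
        intro c X
        ext i
        fin_cases i <;> simp }
  have hT : Function.Injective T := by
    rw [injective_iff_map_eq_zero]
    rintro ⟨X, hX1, hX2, hX3⟩ h0
    have t0 : B (X (b 0)) (b 1) = 0 := congrFun h0 0
    have t1 : B (X (b 0)) (b 2) = 0 := congrFun h0 1
    have t2 : B (X (b 1)) (b 2) = 0 := congrFun h0 2
    have hsk : ∀ i j, B (X (b i)) (b j) = -B (X (b j)) (b i) := by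
      intro i j
      rw [eq_neg_of_add_eq_zero_left (hX1 (b i) (b j)), hsym (X (b j)) (b i)]
    have hall : ∀ i j, B (X (b i)) (b j) = 0 := by
      intro i j
      have hd : ∀ i, B (X (b i)) (b i) = 0 := by
        intro i
        have := hsk i i
        have h4 : (2 : K) * B (X (b i)) (b i) = 0 := by linear_combination this
        exact (mul_eq_zero.1 h4).resolve_left two_ne_zero
      fin_cases i <;> fin_cases j
      · exact hd 0
      · exact t0
      · exact t1
      · show B (X (b 1)) (b 0) = 0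
        rw [hsk, t0, neg_zero]
      · exact hd 1
      · exact t2
      · show B (X (b 2)) (b 0) = 0
        rw [hsk, t1, neg_zero]
      · show B (X (b 2)) (b 1) = 0
        rw [hsk, t2, neg_zero]
      · exact hd 2
    have hsX : ∀ v, s (X v) = (1 : K) • X v := by
      intro v
      rw [one_smul, ← Module.End.mul_apply, hX2]
    have hXb : ∀ i, X (b i) = 0 := by
      intro i
      apply hnd
      intro w
      -- decompose w
      have hw : w = (1 / 2 : K) • (w + s w) + (1 / 2 : K) • (w - s w) := by module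
      have ss : ∀ v, s (s v) = v := fun v => LinearMap.congr_fun hss v
      have hw1 : s ((1 / 2 : K) • (w + s w)) = (1 : K) • ((1 / 2 : K) • (w + s w)) := by
        rw [map_smul, map_add, ss, one_smul, add_comm]
      have hw2 : (1 / 2 : K) • (w - s w) ∈ eig s (-1) := by
        rw [m1, map_smul, map_sub, ss]
        module
      have e1 : B (X (b i)) ((1 / 2 : K) • (w + s w)) = 0 :=
        o1_iso hs (one_mul 1) (hsX _) hw1
      have e2 : ∀ w' : eig s (-1), B (X (b i)) w' = 0 := by
        intro w'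
        have h5 : ((B (X (b i))) ∘ₗ (eig s (-1)).subtype) = 0 := by
          apply b.ext
          intro j
          exact hall i j
        exact LinearMap.congr_fun h5 w'
      rw [hw, map_add, e1, zero_add]
      exact e2 ⟨_, hw2⟩
    have hXm : ∀ v ∈ eig s (-1), X v = 0 := by
      intro v hv
      have h5 : X ∘ₗ (eig s (-1)).subtype = 0 := b.ext hXb
      exact LinearMap.congr_fun h5 ⟨v, hv⟩
    apply Subtype.ext
    apply LinearMap.ext
    intro v
    have ss : ∀ v, s (s v) = v := fun v => LinearMap.congr_fun hss v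
    have hv2 : (1 / 2 : K) • (v - s v) ∈ eig s (-1) := by
      rw [m1, map_smul, map_sub, ss]
      module
    have h5 := hXm _ hv2
    have h6 : X (s v) = -X v := LinearMap.congr_fun hX3 v
    rw [map_smul, map_sub, h6, sub_neg_eq_add, ← two_smul K, smul_smul] at h5
    norm_num at h5
    exact h5
  have hS3 : finrank K S ≤ 3 := by
    have := LinearMap.finrank_le_finrank_of_injective hT
    rwa [Module.finrank_fin_fun] at this
  have hsp3 : finrank K (Submodule.span K (Set.range x)) = 3 := by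
    rw [finrank_span_eq_card hli, Fintype.card_fin]
  have heq : Submodule.span K (Set.range x) = S :=
    Submodule.eq_of_le_of_finrank_le hLS (by rw [hsp3]; exact hS3)
  have hXS : X ∈ S := ⟨hX, h1, h2⟩
  rw [← heq] at hXS
  refine (Submodule.span_le.2 ?_ : Submodule.span K (Set.range x) ≤ L) hXS
  rintro _ ⟨i, rfl⟩
  exact (hx i).1

/-- The generators of a Kemmer system are independent. -/
theorem o1_li [CharZero K] {s : Module.End K V} {n : ℕ} {x y : Fin (n + 1) → Module.End K V} (h : Kemmer s x y)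
    (hx0 : x 0 ≠ 0) : LinearIndependent K x := by
  have hne : ∀ j, x j ≠ 0 := by
    intro j hj
    by_cases h0 : j = 0
    · rw [h0] at hj; exact hx0 hj
    · apply hx0
      have h1 := h.r1 j j 0
      rw [hj, if_pos rfl, if_neg (Ne.symm h0)] at h1
      simp only [zero_mul, mul_zero, add_zero] at h1
      exact h1.symm
  rw [Fintype.linearIndependent_iff]
  intro c hc j
  have h1 : (∑ i, c i • x i) * y j * x j + x j * y j * (∑ i, c i • x i) = c j • x j + ∑ i, c i • x i := by
    have h2 : ∀ i, (c i • x i) * y j * x j + x j * y j * (c i • x i) = (if i = j then c i • x j else 0) + c i • x i := by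
      intro i
      have h3 := h.r1 i j j
      rw [if_pos rfl] at h3
      rw [smul_mul_assoc, smul_mul_assoc, mul_smul_comm, ← smul_add, h3, smul_add]
      congr 1
      split_ifs
      · rfl
      · rw [smul_zero]
    rw [Finset.sum_mul, Finset.sum_mul, Finset.mul_sum, ← Finset.sum_add_distrib]
    simp only [h2]
    rw [Finset.sum_add_distrib]
    congr 1
    simp
  rw [hc] at h1
  simp only [zero_mul, mul_zero, add_zero] at h1
  exact (smul_eq_zero.1 h1.symm).resolve_right (hne j)

end Pool.Agent.H86N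
end

-- from Lib.H86N.O2
section

/-!
# O2: symmetric forms, the case of a rank one Jordan pair
-/

set_option autoImplicit false
set_option linter.unusedSectionVars false
namespace Pool.Agent.H86N
open Module Pool.Agent.H53Toric Pool.Agent.H49M

variable {K : Type*} [Field K] {V : Type*} [AddCommGroup V] [Module K V]
variable {L : Submodule K (Module.End K V)}

/-- The Kemmer case with a symmetric form: `k` is even, and `k = 2` is the orthogonal algebra. -/
theorem o2_alpha [CharZero K] [IsAlgClosed K] [FiniteDimensional K V] [Nontrivial V]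
    (h : CoreN L) {B : V →ₗ[K] V →ₗ[K] K} (hB : B ≠ 0) (hsym : ∀ v w, B v w = B w v)
    (hinv : ∀ X ∈ L, ∀ v w, B (X v) w + B v (X w) = 0)
    {s e f : Module.End K V} (F : Frame L s e f) (ha : ∀ u ∈ J1 L s e f, u * f * u = 0) :
    (∀ X : Module.End K V, (∀ v w, B (X v) w + B v (X w) = 0) → X ∈ L) ∨
    ∃ k : ℕ, 4 ≤ k ∧ Even k ∧ finrank K V = k.centralBinom ∧
      finrank K (LinearMap.range e) = (k - 1).centralBinom := by
  have hall := fun (x : Module.End K V) (hx : x ∈ Lp L s) (y : Module.End K V)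
    (hy : y ∈ Lm L s) => K2_all h F ha hx hy
  obtain ⟨n, x, y, hK, hx, hy, hxL, hyL, -, -⟩ := K3_system h F hall
  have hx0 : x 0 ≠ 0 := by rw [hx]; exact F.e_ne
  obtain ⟨k, hk1, hk2, h1, h2, h3, hcnt⟩ := R2_rank hK hx0
  obtain ⟨h4, h5⟩ := K5_eig h F.s_mem F.s_sq
  obtain ⟨j', hj1, hj2⟩ : ∃ j : ℕ, n + 1 = 2 * j + 1 ∧ (1 : K) = (-1) ^ (j + 1) := by
    have hform : ∀ X ∈ L, ∀ v w, B (X v) w = -B v (X w) := fun X hX v w =>
      eq_neg_of_add_eq_zero_left (hinv X hX v w)
    exact K6_sign (n + 1) V hK B 1 hB (fun v w => by rw [hsym]; ring)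
      (fun i => hform _ (hxL i)) (fun i => hform _ (hyL i)) (hform _ F.s_mem)
  obtain ⟨j, rfl⟩ : ∃ j, k = j + 1 := ⟨k - 1, by omega⟩
  rw [Nat.add_sub_cancel] at h2 h3
  rw [h1, h2] at h4
  have h6 := Nat.choose_succ_right_eq (n + 1) j
  rw [h4] at h6
  have h7 : 0 < (n + 1).choose j := Nat.choose_pos (by omega)
  have h8 : j + 1 = n + 1 - j := Nat.eq_of_mul_eq_mul_left h7 h6
  have h9 : n = 2 * j := by omega
  have h10 : finrank K (LinearMap.range e) = j.centralBinom := by
    rw [← hx, h3, h9, Nat.centralBinom]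
  have h11 : finrank K V = (j + 1).centralBinom := by
    have e1 : (2 * (j + 1)).choose (j + 1) = (2 * j + 1).choose j + (2 * j + 1).choose (j + 1) := by
      rw [show 2 * (j + 1) = (2 * j + 1) + 1 by ring, Nat.choose_succ_succ]
    rw [h5, h1, Nat.centralBinom, e1, ← h9, h4]
    ring
  have hjj : j' = j := by omega
  have heven : Even (j + 1) := by
    by_contra hne
    rw [Nat.not_even_iff_odd] at hne
    rw [hjj, hne.neg_one_pow] at hj2
    have h12 : (2 : K) = 0 := by linear_combination hj2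
    exact two_ne_zero h12
  rcases Nat.lt_or_ge (j + 1) 4 with hj4 | hj4
  swap
  · exact Or.inr ⟨j + 1, hj4, heven, h11, by rw [Nat.add_sub_cancel]; exact h10⟩
  left
  have hj : j = 1 := by
    obtain ⟨a, ha⟩ := heven
    omega
  subst hj
  subst h9
  -- dimension six
  have hnd : ∀ v, (∀ w, B v w = 0) → v = 0 := fun v hv => o1_nd h.irr hB hinv hv
  have hss := hinv s F.s_mem
  have d1 : finrank K (eig s (-1)) = 3 := by rw [h2]; rfl
  have d2 : finrank K (eig s 1) = 3 := by rw [h1]; rfl
  have hns : ∀ v w, B ((-s) v) w + B v ((-s) w) = 0 := by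
    intro v w
    rw [LinearMap.neg_apply, LinearMap.neg_apply, map_neg, map_neg, LinearMap.neg_apply]
    linear_combination -hss v w
  have xp : ∀ i, x i ∈ Lp L s := fun i => ⟨hxL i, hK.sx i, hK.xs i⟩
  have ym : ∀ i, y i ∈ Lp L (-s) := fun i => ⟨hyL i, by rw [neg_mul, hK.sy, neg_neg], by rw [mul_neg, hK.ys]⟩
  have y0 : y 0 ≠ 0 := by
    intro h0
    apply hx0
    rw [← K4a_xyx hK 0, h0]
    simp
  have hpos : ∀ X : Module.End K V, (∀ v w, B (X v) w + B v (X w) = 0) → s * X = X → X * s = -X → X ∈ L :=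
    fun X hX a1 a2 => o1_weight hnd hsym F.s_sq hss d1 hinv xp (o1_li hK hx0) hX a1 a2
  have hneg : ∀ X : Module.End K V, (∀ v w, B (X v) w + B v (X w) = 0) → s * X = -X → X * s = X → X ∈ L := by
    intro X hX a1 a2
    have e1 : eig (-s) (-1) = eig s 1 := by
      ext v
      rw [eig, eig, LinearMap.mem_ker, LinearMap.mem_ker, LinearMap.sub_apply, LinearMap.sub_apply,
        LinearMap.neg_apply, LinearMap.smul_apply, LinearMap.smul_apply, Module.End.one_apply, neg_one_smul,
        one_smul, sub_neg_eq_add, sub_eq_zero, neg_add_eq_zero]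
    exact o1_weight hnd hsym (by rw [neg_mul_neg, F.s_sq]) hns (by rw [e1]; exact d2) hinv ym
      (o1_li (K4a_swap hK) y0) hX (by rw [neg_mul, a1, neg_neg]) (by rw [mul_neg, a2])
  -- brackets of skew operators are skew
  have hbr : ∀ X Y : Module.End K V, (∀ v w, B (X v) w + B v (X w) = 0) → (∀ v w, B (Y v) w + B v (Y w) = 0) →
      ∀ v w, B ((X * Y - Y * X) v) w + B v ((X * Y - Y * X) w) = 0 := by
    intro X Y hX hY v w
    have a1 := hX (Y v) w
    have a2 := hY v (X w)
    have a3 := hY (X v) w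
    have a4 := hX v (Y w)
    simp only [LinearMap.sub_apply, Module.End.mul_apply, map_sub]
    linear_combination a1 - a2 - a3 + a4
  intro X hX
  have hs2 := F.s_sq
  -- the part of weight zero
  have hsX : ∀ v w, B ((s * X * s) v) w + B v ((s * X * s) w) = 0 := by
    intro v w
    have a1 := hss (X (s v)) w
    have a2 := hX (s v) (s w)
    have a3 := hss v (X (s w))
    simp only [Module.End.mul_apply]
    linear_combination a1 - a2 + a3
  obtain ⟨Z, hZ⟩ : ∃ Z : Module.End K V, Z = (1 / 2 : K) • (X + s * X * s) := ⟨_, rfl⟩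
  have hZs : ∀ v w, B (Z v) w + B v (Z w) = 0 := by
    intro v w
    rw [hZ]
    simp only [LinearMap.smul_apply, LinearMap.add_apply, map_smul, map_add, smul_eq_mul]
    linear_combination (1 / 2 : K) * hX v w + (1 / 2 : K) * hsX v w
  have hsZ : s * Z = Z * s := by
    rw [hZ, mul_smul_comm, smul_mul_assoc]
    congr 1
    calc s * (X + s * X * s) = s * X + (s * s) * X * s := by noncomm_ring
      _ = s * X * (s * s) + X * s := by rw [hs2]; noncomm_ring
      _ = _ := by noncomm_ring
  have hZL : Z ∈ L := by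
    have kp : ∀ Y ∈ Lp L s, Z * Y - Y * Z ∈ L := by
      intro Y hY
      refine hpos _ (hbr Z Y hZs (hinv Y hY.1)) ?_ ?_
      · calc s * (Z * Y - Y * Z) = (s * Z) * Y - (s * Y) * Z := by noncomm_ring
          _ = (Z * s) * Y - Y * Z := by rw [hsZ, hY.2.1]
          _ = Z * (s * Y) - Y * Z := by rw [mul_assoc Z s Y]
          _ = _ := by rw [hY.2.1]
      · calc (Z * Y - Y * Z) * s = Z * (Y * s) - Y * (Z * s) := by noncomm_ring
          _ = Z * (-Y) - Y * (s * Z) := by rw [hY.2.2, ← hsZ]
          _ = -(Z * Y) - (Y * s) * Z := by noncomm_ring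
          _ = -(Z * Y) - (-Y) * Z := by rw [hY.2.2]
          _ = _ := by noncomm_ring
    have km : ∀ Y ∈ Lm L s, Z * Y - Y * Z ∈ L := by
      intro Y hY
      refine hneg _ (hbr Z Y hZs (hinv Y hY.1)) ?_ ?_
      · calc s * (Z * Y - Y * Z) = (s * Z) * Y - (s * Y) * Z := by noncomm_ring
          _ = (Z * s) * Y - (-Y) * Z := by rw [hsZ, hY.2.1]
          _ = Z * (s * Y) + Y * Z := by noncomm_ring
          _ = Z * (-Y) + Y * Z := by rw [hY.2.1]
          _ = _ := by noncomm_ring
      · calc (Z * Y - Y * Z) * s = Z * (Y * s) - Y * (Z * s) := by noncomm_ring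
          _ = Z * Y - Y * (s * Z) := by rw [hY.2.2, ← hsZ]
          _ = Z * Y - (Y * s) * Z := by rw [mul_assoc Y s Z]
          _ = _ := by rw [hY.2.2]
    have k0 : ∀ Y ∈ L0 L s, Z * Y - Y * Z ∈ L := by
      intro Y hY
      refine Submodule.span_induction (p := fun Y _ => Z * Y - Y * Z ∈ L) ?_ (by simp) ?_ ?_
        (A3_span h F.s_mem F.s_sq hY)
      · rintro _ ⟨P, hP, Q, hQ, rfl⟩
        have e1 : Z * (P * Q - Q * P) - (P * Q - Q * P) * Z =
            ((Z * P - P * Z) * Q - Q * (Z * P - P * Z)) + (P * (Z * Q - Q * Z) - (Z * Q - Q * Z) * P) := by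
          noncomm_ring
        rw [e1]
        exact L.add_mem (h.lie _ (kp P hP) _ hQ.1) (h.lie _ hP.1 _ (km Q hQ))
      · intro a b _ _ h1 h2
        have e1 : Z * (a + b) - (a + b) * Z = (Z * a - a * Z) + (Z * b - b * Z) := by noncomm_ring
        rw [e1]
        exact L.add_mem h1 h2
      · intro c a _ h1
        have e1 : Z * (c • a) - (c • a) * Z = c • (Z * a - a * Z) := by
          rw [mul_smul_comm, smul_mul_assoc, smul_sub]
        rw [e1]
        exact L.smul_mem c h1
    refine Pool.Agent.H25Y.norm_mem h.lie h.irr h.tr (fun Y hY => ?_) (o1_trace hnd hZs)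
    obtain ⟨a, ha, b, hb, c, hc, rfl⟩ := A2_decomp h F.s_mem F.s_sq hY
    have e1 : Z * (a + b + c) - (a + b + c) * Z = (Z * a - a * Z) + (Z * b - b * Z) + (Z * c - c * Z) := by
      noncomm_ring
    rw [e1]
    exact L.add_mem (L.add_mem (kp a ha) (k0 b hb)) (km c hc)
  -- the parts of weight one and minus one
  obtain ⟨P, hP⟩ : ∃ P : Module.End K V, P = (1 / 4 : K) • (X + s * X - X * s - s * X * s) := ⟨_, rfl⟩
  obtain ⟨Q, hQ⟩ : ∃ Q : Module.End K V, Q = (1 / 4 : K) • (X - s * X + X * s - s * X * s) := ⟨_, rfl⟩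
  have hc : ∀ v w, B ((s * X - X * s) v) w + B v ((s * X - X * s) w) = 0 := hbr s X hss hX
  have hPL : P ∈ L := by
    refine hpos P (fun v w => ?_) ?_ ?_
    · have a1 := hX v w
      have a2 := hsX v w
      have a3 := hc v w
      rw [hP]
      simp only [LinearMap.smul_apply, LinearMap.add_apply, LinearMap.sub_apply, map_smul, map_add, map_sub,
        smul_eq_mul] at a3 ⊢
      linear_combination (1 / 4 : K) * a1 - (1 / 4 : K) * a2 + (1 / 4 : K) * a3
    · rw [hP, mul_smul_comm]
      congr 1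
      calc s * (X + s * X - X * s - s * X * s) = s * X + (s * s) * X - s * X * s - (s * s) * X * s := by noncomm_ring
        _ = _ := by rw [hs2]; noncomm_ring
    · rw [hP, smul_mul_assoc, ← smul_neg]
      congr 1
      calc (X + s * X - X * s - s * X * s) * s = X * s + s * X * s - X * (s * s) - s * X * (s * s) := by noncomm_ring
        _ = _ := by rw [hs2]; noncomm_ring
  have hQL : Q ∈ L := by
    refine hneg Q (fun v w => ?_) ?_ ?_
    · have a1 := hX v w
      have a2 := hsX v w
      have a3 := hc v w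
      rw [hQ]
      simp only [LinearMap.smul_apply, LinearMap.add_apply, LinearMap.sub_apply, map_smul, map_add, map_sub,
        smul_eq_mul] at a3 ⊢
      linear_combination (1 / 4 : K) * a1 - (1 / 4 : K) * a2 - (1 / 4 : K) * a3
    · rw [hQ, mul_smul_comm, ← smul_neg]
      congr 1
      calc s * (X - s * X + X * s - s * X * s) = s * X - (s * s) * X + s * X * s - (s * s) * X * s := by noncomm_ring
        _ = _ := by rw [hs2]; noncomm_ring
    · rw [hQ, smul_mul_assoc]
      congr 1
      calc (X - s * X + X * s - s * X * s) * s = X * s - s * X * s + X * (s * s) - s * X * (s * s) := by noncomm_ring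
        _ = _ := by rw [hs2]; noncomm_ring
  have hfin : X = Z + P + Q := by
    rw [hZ, hP, hQ]
    module
  rw [hfin]
  exact L.add_mem (L.add_mem hZL hPL) hQL

end Pool.Agent.H86N
end
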