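import Pool.Agent.Lib.H1M.RC.M004
import Pool.Agent.Lib.H1M.RC.M005
import Pool.Agent.Lib.H1M.RC.M037
import Pool.Agent.Lib.H1M.RC.M044
import Pool.Agent.Lib.H1M.RC.M045
import Pool.Agent.Lib.H1M.RC.M046
import Pool.Agent.Lib.H1M.RC.M048
import Pool.Agent.Lib.H1M.RC.M049

/-! Merged copies (to shorten the build) of Lib.H34V.V06, Lib.H34V.V08, Lib.H76Q.X10, Lib.H86N.O3, Lib.H86N.O4, Lib.H76Y.D2, Lib.H76Y.DN1. -/

-- from Lib.H34V.V06
section

/-!
# V06: an orthogonal block and a linear block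
-/

set_option autoImplicit false
set_option linter.unusedSectionVars false
namespace Pool.Agent.H34V
open Module Matrix Pool.Agent.H53Toric Pool.Agent.H76P Pool.Agent.H34Z

variable {κ κ' : Type*} [Fintype κ] [DecidableEq κ] [Fintype κ'] [DecidableEq κ'] {K : Type*} [Field K] [CharZero K]
  {𝓛 : Submodule K (Module.End K (κ → K) × Module.End K (κ' → K))}
  {L : Submodule K (Module.End K (κ → K))} {L' : Submodule K (Module.End K (κ' → K))}
  {d ε : κ → K} {d' ε' : κ' → K}

theorem v06_sum {ι : Type*} (T : Finset ι) (f : ι → κ → K) : dg (∑ i ∈ T, f i) = ∑ i ∈ T, dg (f i) := by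
  classical
  induction T using Finset.induction_on with
  | empty =>
    rw [Finset.sum_empty, Finset.sum_empty]
    refine LinearMap.ext fun v => funext fun a => ?_
    simp [dg_apply]
  | insert a s ha ih => rw [Finset.sum_insert ha, Finset.sum_insert ha, dg_add, ih]

/-- PROOF. `T = {i | ε i = 1}`, `h i = 1_i - 1_(π i)`, `(dg (h i), dg (g i)) ∈ 𝓛` (as in `s_zero`, V04).  By `cor_o`, `Gz.cor` for `h i + h j`, `i ≠ j` in `T`:
`g i k + g j k ∈ {0, 1}` if `ε' k = 1`, `∈ {0, -1}` if `ε' k = -1`.  For each `k` let `lam i = ε' k * g i k`: `comb_four` applies (`2 * T.card = card κ ≥ 6`: `π` is a bijection of `T` and its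
complement).  `ε' - c' = ∑ i ∈ T, g i`, so `∑ i ∈ T, lam i = 1 - ε' k * c'`.  Let `m = T.card` (`m ≥ 3`, `m ≠ 4`).  The sum is `0`, `1`, `m / 2` or `m / 2 - 1` in the four
alternatives.  The first is impossible: `g' k = 0` for all diagonal pairs, see `s_zero`.  So `1 - ε' k * c' ∈ {1, m / 2, m / 2 - 1}` for all `k`.  With `k₁` (`ε' k₁ = 1`) and `k₂`
(`ε' k₂ = -1`): `(1 - c') + (1 + c') = 2` is a sum `x + y` with `x, y ∈ {1, m/2, m/2 - 1}`.  If `x = 1` or `y = 1` then `c' = 0` (done).  Otherwise `2 ∈ {m, m - 1, m - 2}`, so `m = 3`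
(`m = 2, 4` excluded) and `{x, y} = {3/2, 1/2}`, `card κ = 6`.
It remains to see `card κ' = 4`.  Say `1 - c' = 3/2` (`c' = -1/2`); for all `k` with `ε' k = 1` the third alternative holds (sum `3/2`, `m = 3`): `g i k = 1/2` for all `i ∈ T`; two such
`k` have the same value at all diagonal pairs (`dec_pi`), so there is exactly one such `k` (`1_k - 1_l` separates, `hL'`).  For `ε' k = -1` the sum is `1/2`, the fourth alternative:
determined by `i₀ ∈ T`, so at most `3` such `k`.  `∑ (ε' k - c') = 0` (trace): `p - q = c' (p + q)` with the numbers `p = 1`, `q ≤ 3` of the `k` with `ε' k = 1, -1`: `1 - q = -(1 + q) / 2`, `q = 3`.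
The case `1 - c' = 1/2` is the same with the signs exchanged. -/
theorem o_zero (h : Gz 𝓛 L L' d d') {J : Matrix κ κ K} {π : κ → κ} (hJ : Jᵀ = J) (hdet : IsUnit J.det) (hm : Mon J π)
    (hL : ∀ X, X ∈ L ↔ adjE J X = -X) (h6 : 6 ≤ Fintype.card κ) (h8 : Fintype.card κ ≠ 8)
    (hL' : ∀ X, X ∈ L' ↔ LinearMap.trace K (κ' → K) X = 0)
    {c' : K} (hε : (dg ε, dg (fun k => ε' k - c')) ∈ 𝓛) (hv : ∀ k, ε k = 1 ∨ ε k = -1) (hv' : ∀ k, ε' k = 1 ∨ ε' k = -1)
    (hne' : (∃ k, ε' k = 1) ∧ ∃ k, ε' k = -1) : c' = 0 ∨ (Fintype.card κ = 6 ∧ Fintype.card κ' = 4) := by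
  classical
  have hεL : dg ε ∈ L := (h.fst _).2 ⟨_, hε⟩
  have hεπ : ∀ i, ε (π i) = -ε i := (dg_skew hm hdet ε).1 ((hL _).1 hεL)
  have hinj : ∀ {i j : κ}, π i = π j → i = j := by
    intro i j h
    have h1 := congrArg π h
    rwa [hm.inv, hm.inv] at h1
  have hne : (-1 : K) ≠ 1 := by
    intro h
    have h1 : (2 : K) = 0 := by
      linear_combination -h
    exact two_ne_zero h1
  obtain ⟨T, hTd⟩ : ∃ T : Finset κ, T = Finset.univ.filter (fun i => ε i = 1) := ⟨_, rfl⟩
  have hTm : ∀ i, i ∈ T ↔ ε i = 1 := by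
    intro i
    rw [hTd, Finset.mem_filter]
    exact ⟨fun h => h.2, fun h => ⟨Finset.mem_univ _, h⟩⟩
  have hT : ∀ i, i ∈ T ↔ π i ∉ T := by
    intro i
    rw [hTm, hTm, hεπ]
    rcases hv i with h | h
    · rw [h]
      exact ⟨fun _ => hne, fun _ => rfl⟩
    · rw [h, neg_neg]
      exact ⟨fun h1 => absurd h1 hne, fun h1 => absurd rfl h1⟩
  obtain ⟨hh, hhd⟩ : ∃ hh : κ → κ → K, ∀ i, hh i = Pi.single i 1 - Pi.single (π i) 1 := ⟨_, fun _ => rfl⟩
  have hodd : ∀ i k, hh i (π k) = -hh i k := by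
    intro i k
    rw [hhd, Pi.sub_apply, Pi.sub_apply]
    have e1 : (Pi.single i (1 : K) : κ → K) (π k) = (Pi.single (π i) (1 : K) : κ → K) k := by
      rw [Pi.single_apply, Pi.single_apply]
      by_cases h1 : π k = i
      · rw [if_pos h1, if_pos (by rw [← h1, hm.inv])]
      · rw [if_neg h1, if_neg (fun h2 => h1 (by rw [h2, hm.inv]))]
    have e2 : (Pi.single (π i) (1 : K) : κ → K) (π k) = (Pi.single i (1 : K) : κ → K) k := by
      rw [Pi.single_apply, Pi.single_apply]
      by_cases h1 : k = i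
      · rw [if_pos h1, if_pos (by rw [h1])]
      · rw [if_neg h1, if_neg (fun h2 => h1 (hinj h2))]
    rw [e1, e2]
    ring
  have hdgh : ∀ i, dg (hh i) ∈ L := fun i => (hL _).2 ((dg_skew hm hdet (hh i)).2 (hodd i))
  have hex : ∀ i, ∃ g' : κ' → K, (dg (hh i), dg g') ∈ 𝓛 := by
    intro i
    obtain ⟨X', hX'⟩ := (h.fst _).1 (hdgh i)
    obtain ⟨g', rfl⟩ := h.diag hX'
    exact ⟨g', hX'⟩
  choose G hG using hex
  -- the values of the diagonal pairs
  have hval : ∀ (g : κ → K) (g' : κ' → K), (dg g, dg g') ∈ 𝓛 → ∀ k, g' k = ∑ i ∈ T, g i * G i k := by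
    intro g g' hgg k
    have hg := (dg_skew hm hdet g).1 ((hL _).1 ((h.fst _).2 ⟨_, hgg⟩))
    have h1 : ∑ i ∈ T, g i • ((dg (hh i), dg (G i)) : Module.End K (κ → K) × Module.End K (κ' → K)) ∈ 𝓛 :=
      𝓛.sum_mem fun i _ => 𝓛.smul_mem _ (hG i)
    have h2 : ∑ i ∈ T, g i • ((dg (hh i), dg (G i)) : Module.End K (κ → K) × Module.End K (κ' → K)) =
        (dg g, dg (∑ i ∈ T, g i • G i)) := by
      refine Prod.ext ?_ ?_
      · rw [Prod.fst_sum]
        have h3 := dec_pi hm.inv hT hg
        have h4 : dg g = ∑ i ∈ T, dg (g i • (Pi.single i 1 - Pi.single (π i) 1 : κ → K)) := by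
          conv_lhs => rw [h3]
          exact v06_sum T _
        change _ = dg g
        rw [h4]
        refine Finset.sum_congr rfl fun i _ => ?_
        rw [Prod.smul_fst, hhd, dg_smul]
      · rw [Prod.snd_sum]
        change _ = dg (∑ i ∈ T, g i • G i)
        rw [v06_sum T]
        refine Finset.sum_congr rfl fun i _ => ?_
        rw [Prod.smul_snd, dg_smul]
    rw [h2] at h1
    have h3 := 𝓛.sub_mem hgg h1
    rw [Prod.mk_sub_mk, sub_self] at h3
    have h4 := dg_inj (sub_eq_zero.1 (h.right _ h3))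
    have h5 := congrFun h4 k
    rw [h5, Finset.sum_apply]
    rfl
  have hsum : ∀ k, ∑ i ∈ T, G i k = ε' k - c' := by
    intro k
    have h1 := hval _ _ hε k
    rw [h1]
    refine Finset.sum_congr rfl fun i hi => ?_
    rw [(hTm i).1 hi, one_mul]
  -- separation
  have hsep : ∀ k l : κ', k ≠ l → ∃ (g : κ → K) (g' : κ' → K), (dg g, dg g') ∈ 𝓛 ∧ g' k = 1 ∧ g' l = -1 := by
    intro k l hkl
    have h1 : dg (Pi.single k 1 - Pi.single l 1 : κ' → K) ∈ L' := by
      rw [hL', trace_dg]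
      simp only [Pi.sub_apply, Finset.sum_sub_distrib]
      rw [Finset.sum_pi_single', Finset.sum_pi_single', if_pos (Finset.mem_univ _), if_pos (Finset.mem_univ _), sub_self]
    obtain ⟨X, hX⟩ := (h.snd _).1 h1
    obtain ⟨g, hg⟩ := h.symm.diag (mem_sw.2 hX)
    rw [hg] at hX
    refine ⟨g, _, hX, ?_, ?_⟩
    · rw [Pi.sub_apply, Pi.single_eq_same, Pi.single_eq_of_ne hkl, sub_zero]
    · rw [Pi.sub_apply, Pi.single_eq_same, Pi.single_eq_of_ne hkl.symm, zero_sub]
  have hsep2 : ∀ k l : κ', (∀ i ∈ T, G i k = G i l) → k = l := by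
    intro k l hkl
    by_contra hne'
    obtain ⟨g, g', hg, h1, h2⟩ := hsep k l hne'
    rw [hval g g' hg k] at h1
    rw [hval g g' hg l] at h2
    have h3 : ∑ i ∈ T, g i * G i k = ∑ i ∈ T, g i * G i l := Finset.sum_congr rfl fun i hi => by rw [hkl i hi]
    exact hne ((h2.symm.trans h3.symm).trans h1)
  have hnz : ∀ k, ¬ ∀ i ∈ T, G i k = 0 := by
    intro k hk
    obtain ⟨l, hl⟩ : ∃ l, l ≠ k := by
      obtain ⟨⟨k₁, hk₁⟩, k₂, hk₂⟩ := hne'
      by_cases h1 : k₁ = k
      · refine ⟨k₂, fun h2 => ?_⟩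
        rw [h1] at hk₁
        rw [h2, hk₁] at hk₂
        exact hne hk₂.symm
      · exact ⟨k₁, h1⟩
    obtain ⟨g, g', hg, h1, -⟩ := hsep k l hl.symm
    rw [hval g g' hg k, Finset.sum_eq_zero] at h1
    · exact one_ne_zero h1.symm
    · intro i hi
      rw [hk i hi, mul_zero]
  have hcard : T.card * 2 = Fintype.card κ := by
    have h1 : T.image π = Tᶜ := by
      ext k
      rw [Finset.mem_image, Finset.mem_compl]
      constructor
      · rintro ⟨i, hi, rfl⟩
        exact (hT i).1 hi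
      · intro hk
        refine ⟨π k, (hT (π k)).2 ?_, hm.inv k⟩
        rw [hm.inv]
        exact hk
    have h2 : (T.image π).card = T.card := Finset.card_image_of_injective T fun i j hij => hinj hij
    rw [h1, Finset.card_compl] at h2
    have h3 := Finset.card_le_univ T
    omega
  have hε0 : (dg (fun k => ε k - 0), dg (fun k => ε' k - c')) ∈ 𝓛 := by
    have : (fun k => ε k - 0) = ε := funext fun k => sub_zero _
    rw [this]
    exact hε
  have hsq : ∀ k, ε' k * ε' k = 1 := by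
    intro k
    rcases hv' k with h1 | h1
    · rw [h1, one_mul]
    · rw [h1, neg_mul_neg, one_mul]
  have hpair : ∀ k, ∀ i ∈ T, ∀ j ∈ T, i ≠ j → ε' k * G i k + ε' k * G j k = 0 ∨ ε' k * G i k + ε' k * G j k = 1 := by
    intro k i hi j hj hij
    have hi1 := (hTm i).1 hi
    have hj1 := (hTm j).1 hj
    have h1 := cor_o hJ hdet hm (fun X hX => (hL X).2 hX) hij hi1 hj1 (by rw [hεπ, hi1]) (by rw [hεπ, hj1])
    have h2 : (Pi.single i 1 + Pi.single j 1 - Pi.single (π i) 1 - Pi.single (π j) 1 : κ → K) = hh i + hh j := by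
      rw [hhd, hhd]
      abel
    rw [h2] at h1
    have h3 : (dg (hh i + hh j), dg (G i + G j)) ∈ 𝓛 := by
      have h4 := 𝓛.add_mem (hG i) (hG j)
      rw [Prod.mk_add_mk, ← dg_add, ← dg_add] at h4
      exact h4
    obtain ⟨h4, h5⟩ := h.cor hε0 hv' h1 h3 k
    rcases hv' k with h6 | h6
    · rw [h6, one_mul, one_mul]
      exact h4 h6
    · rw [h6]
      rcases h5 h6 with h7 | h7
      · left
        rw [Pi.add_apply] at h7
        linear_combination -h7
      · right
        rw [Pi.add_apply] at h7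
        linear_combination -h7
  have hm3 : 3 ≤ T.card := by omega
  have hm4 : T.card ≠ 4 := by omega
  have hsl : ∀ k, ∑ i ∈ T, ε' k * G i k = 1 - ε' k * c' := by
    intro k
    rw [← Finset.mul_sum, hsum k]
    linear_combination hsq k
  -- the four alternatives
  have halt : ∀ k, (1 - ε' k * c' = 1) ∨ (1 - ε' k * c' = (T.card : K) / 2 ∧ ∀ i ∈ T, ε' k * G i k = 1 / 2) ∨
      (1 - ε' k * c' = (T.card : K) / 2 - 1) := by
    intro k
    rcases comb_four (hpair k) hm3 with h1 | ⟨i₀, hi₀, h1, h2⟩ | h1 | ⟨i₀, hi₀, h1, h2⟩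
    · exfalso
      apply hnz k
      intro i hi
      have h2 := h1 i hi
      have h3 : ε' k ≠ 0 := by
        intro h4
        have h5 := hsq k
        rw [h4, zero_mul] at h5
        exact zero_ne_one h5
      exact (mul_eq_zero.1 h2).resolve_left h3
    · left
      rw [← hsl k, Finset.sum_eq_single i₀ h2 (fun h3 => absurd hi₀ h3), h1]
    · right; left
      refine ⟨?_, h1⟩
      rw [← hsl k, Finset.sum_congr rfl h1, Finset.sum_const, nsmul_eq_mul]
      ring
    · right; right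
      rw [← hsl k, ← Finset.add_sum_erase T _ hi₀, h1,
        Finset.sum_congr rfl (fun i hi => h2 i (Finset.mem_of_mem_erase hi) (Finset.ne_of_mem_erase hi)),
        Finset.sum_const, nsmul_eq_mul, Finset.card_erase_of_mem hi₀, Nat.cast_sub (by omega)]
      push_cast
      ring
  by_cases hc0 : c' = 0
  · exact Or.inl hc0
  right
  have halt' : ∀ k, (1 - ε' k * c' = (T.card : K) / 2 ∧ ∀ i ∈ T, ε' k * G i k = 1 / 2) ∨
      (1 - ε' k * c' = (T.card : K) / 2 - 1) := by
    intro k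
    rcases halt k with h1 | h1
    · exfalso
      apply hc0
      have h2 : ε' k * c' = 0 := by linear_combination -h1
      have h3 := hsq k
      linear_combination ε' k * h2 - c' * h3
    · exact h1
  obtain ⟨⟨k₁, hk₁⟩, k₂, hk₂⟩ := hne'
  have hm3' : T.card = 3 := by
    have e1 := halt' k₁
    have e2 := halt' k₂
    rw [hk₁] at e1
    rw [hk₂] at e2
    have hcases : (T.card : K) = ((2 : ℕ) : K) ∨ (T.card : K) = ((3 : ℕ) : K) ∨ (T.card : K) = ((4 : ℕ) : K) := by
      rcases e1 with ⟨e1, -⟩ | e1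
      · rcases e2 with ⟨e2, -⟩ | e2
        · left
          push_cast
          linear_combination -e1 - e2
        · right; left
          push_cast
          linear_combination -e1 - e2
      · rcases e2 with ⟨e2, -⟩ | e2
        · right; left
          push_cast
          linear_combination -e1 - e2
        · right; right
          push_cast
          linear_combination -e1 - e2
    rcases hcases with h1 | h1 | h1
    · have := Nat.cast_injective h1
      omega
    · exact Nat.cast_injective h1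
    · exact absurd (Nat.cast_injective h1) hm4
  refine ⟨by omega, ?_⟩
  -- the sign with a unique index
  have hT3 : (T.card : K) = 3 := by rw [hm3']; norm_num
  obtain ⟨k₀, hk₀, hc⟩ : ∃ k₀, c' = -ε' k₀ / 2 ∧ True := by
    rcases halt' k₁ with ⟨h1, -⟩ | h1
    · refine ⟨k₁, ?_, trivial⟩
      rw [hT3, hk₁] at h1
      rw [hk₁]
      linear_combination -h1
    · refine ⟨k₂, ?_, trivial⟩
      rw [hT3, hk₁] at h1
      rw [hk₂]
      linear_combination -h1
  have huniq : ∀ k, ε' k = ε' k₀ → k = k₀ := by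
    intro k hk
    apply hsep2
    have hhalf : ∀ l, ε' l = ε' k₀ → ∀ i ∈ T, ε' l * G i l = 1 / 2 := by
      intro l hl
      rcases halt' l with ⟨-, h1⟩ | h1
      · exact h1
      · exfalso
        rw [hT3, hk₀, hl] at h1
        have h2 := hsq k₀
        have h3 : (1 : K) = 0 := by linear_combination h1 - (1 / 2) * h2
        exact one_ne_zero h3
    intro i hi
    have h1 := hhalf k hk i hi
    have h2 := hhalf k₀ rfl i hi
    rw [hk] at h1
    have h3 := hsq k₀
    linear_combination ε' k₀ * h1 - ε' k₀ * h2 - (G i k - G i k₀) * h3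
  have hother : ∀ k, k ≠ k₀ → ε' k = -ε' k₀ := by
    intro k hk
    rcases hv' k with h1 | h1
    · rcases hv' k₀ with h2 | h2
      · exact absurd (huniq k (by rw [h1, h2])) hk
      · rw [h1, h2, neg_neg]
    · rcases hv' k₀ with h2 | h2
      · rw [h1, h2]
      · exact absurd (huniq k (by rw [h1, h2])) hk
  have htr : ∑ k, (ε' k - c') = 0 := by
    have h1 := (hL' _).1 ((h.snd _).2 ⟨_, hε⟩)
    rw [trace_dg] at h1
    exact h1
  rw [← Finset.add_sum_erase Finset.univ _ (Finset.mem_univ k₀),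
    Finset.sum_congr rfl (fun k hk => by rw [hother k (Finset.ne_of_mem_erase hk)] : ∀ k ∈ Finset.univ.erase k₀, ε' k - c' = -ε' k₀ - c'),
    Finset.sum_const, Finset.card_erase_of_mem (Finset.mem_univ k₀), Finset.card_univ, nsmul_eq_mul,
    Nat.cast_sub (Fintype.card_pos_iff.2 ⟨k₀⟩), hk₀] at htr
  have h3 := hsq k₀
  have h4 : ((Fintype.card κ' : ℕ) : K) = ((4 : ℕ) : K) := by
    push_cast
    push_cast at htr
    linear_combination (-2) * ε' k₀ * htr + (3 + (Fintype.card κ' : K) * (-1) + 1) * h3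
  exact Nat.cast_injective h4

end Pool.Agent.H34V
end

-- from Lib.H34V.V08
section

/-!
# V08: graphs and isomorphisms, any signature
-/

set_option autoImplicit false
set_option linter.unusedSectionVars false
namespace Pool.Agent.H34V
open Module Matrix Pool.Agent.H53Toric Pool.Agent.H76P Pool.Agent.H34Z

variable {κ κ' : Type*} [Fintype κ] [DecidableEq κ] [Fintype κ'] [DecidableEq κ'] {K : Type*} [Field K] [CharZero K]
  {𝓛 : Submodule K (Module.End K (κ → K) × Module.End K (κ' → K))}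
  {L : Submodule K (Module.End K (κ → K))} {L' : Submodule K (Module.End K (κ' → K))}
  {d ε : κ → K} {d' ε' : κ' → K}

/-- The constant is zero if there is a form. -/
theorem v08_zero {κ : Type*} [Fintype κ] [DecidableEq κ] {K : Type*} [Field K] [CharZero K] {L : Submodule K (Module.End K (κ → K))}
    {ε : κ → K} {t : Prop} {J : Matrix κ κ K} (hL : FV t L J) (ht : t) {c : K} (hcL : dg (fun k => ε k - c) ∈ L)
    (hv : ∀ k, ε k = 1 ∨ ε k = -1) (hne : (∃ k, ε k = 1) ∧ ∃ k, ε k = -1) : c = 0 := by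
  cases hL with
  | s ht1 π hJ hdet hm hL1 h2 => exact form_zero hdet hm ((hL1 _).1 hcL) hv hne
  | o ht1 π hJ hdet hm hne1 hL1 h6 h8 => exact form_zero hdet hm ((hL1 _).1 hcL) hv hne
  | n ht1 hL1 h2 => exact absurd ht ht1

theorem v08_n {κ : Type*} [Fintype κ] [DecidableEq κ] {K : Type*} [Field K] {L : Submodule K (Module.End K (κ → K))}
    {t : Prop} {J : Matrix κ κ K} (hL : FV t L J) (ht : ¬ t) :
    (∀ X, X ∈ L ↔ LinearMap.trace K (κ → K) X = 0) ∧ 2 ≤ Fintype.card κ := by
  cases hL with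
  | s ht1 π hJ hdet hm hL1 h2 => exact absurd ht1 ht
  | o ht1 π hJ hdet hm hne1 hL1 h6 h8 => exact absurd ht1 ht
  | n ht1 hL1 h2 => exact ⟨hL1, h2⟩

theorem v08_sub (f : κ → K) : (fun k => f k - (0 : K)) = f := by
  funext k
  rw [sub_zero]

/-- One block with a form, the other one linear. -/
theorem v08_mix (h : Gz 𝓛 L L' d d') {t : Prop} {J : Matrix κ κ K} (hL : FV t L J) (ht : t)
    (hL' : ∀ X, X ∈ L' ↔ LinearMap.trace K (κ' → K) X = 0) {c' : K} (hε : (dg ε, dg (fun k => ε' k - c')) ∈ 𝓛)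
    (hv : ∀ k, ε k = 1 ∨ ε k = -1) (hv' : ∀ k, ε' k = 1 ∨ ε' k = -1) (hne' : (∃ k, ε' k = 1) ∧ ∃ k, ε' k = -1)
    (hex : Jᵀ = J → Fintype.card κ = 6 → Fintype.card κ' = 4 → c' = 0) : c' = 0 := by
  cases hL with
  | s ht1 π hJ hdet hm hL1 h2 => exact s_zero h hJ hdet hm hL1 hL' hε hv hv' hne'
  | o ht1 π hJ hdet hm hne1 hL1 h6 h8 =>
    rcases o_zero h hJ hdet hm hL1 h6 h8 hL' hε hv hv' hne' with h1 | h1
    · exact h1
    · exact hex hJ h1.1 h1.2
  | n ht1 hL1 h2 => exact absurd ht ht1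

/-- PROOF. Cases of `hL`, `hL'`.
Both `n`: `Gz.iso` (V03).
`L` with a form (`t` true): `c = 0` (`form_zero`: `dg (ε - c) ∈ L` by `h.fst`).  If `L'` has a form too: `c' = 0` in the same way.  If `L'` is `n`: `c' = 0` by `s_zero` or `o_zero`
(in the exceptional case of `o_zero`: `hex`).  Then `(dg ε, dg ε') ∈ 𝓛` (`fun k => ε k - 0` is `ε`), `Gz.gr`, `H34Z.Gr.iso` with `FV.fb`.
`L` is `n`, `L'` has a form: `c' = 0` (`form_zero`), `c = 0` by `s_zero` / `o_zero` for `h.symm` (`mem_sw`; in the exceptional case `hex'`), then again `Gz.gr`, `Gr.iso`. -/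
theorem Gz.iso_all (h : Gz 𝓛 L L' d d') [Nonempty κ'] {t t' : Prop} {J : Matrix κ κ K} {J' : Matrix κ' κ' K}
    (hL : FV t L J) (hL' : FV t' L' J') (hirr : Irr L) (hirr' : Irr L') {c c' : K}
    (hε : (dg (fun k => ε k - c), dg (fun k => ε' k - c')) ∈ 𝓛) (hv : ∀ k, ε k = 1 ∨ ε k = -1)
    (hv' : ∀ k, ε' k = 1 ∨ ε' k = -1) (hne : (∃ k, ε k = 1) ∧ ∃ k, ε k = -1) (hne' : (∃ k, ε' k = 1) ∧ ∃ k, ε' k = -1)
    (hex : t → ¬ t' → Jᵀ = J → Fintype.card κ = 6 → Fintype.card κ' = 4 → c' = 0)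
    (hex' : ¬ t → t' → J'ᵀ = J' → Fintype.card κ = 4 → Fintype.card κ' = 6 → c = 0) :
    (∃ T : (κ → K) →ₗ[K] (κ' → K), Function.Bijective T ∧ ∀ p ∈ 𝓛, ∀ v, T (p.1 v) = p.2 (T v)) ∨
    ∃ T : (κ → K) →ₗ[K] (κ' → K), Function.Bijective T ∧
      ∀ p ∈ 𝓛, ∀ v, T (adjE (1 : Matrix κ κ K) p.1 v) = -p.2 (T v) := by
  have key : c = 0 → c' = 0 →
      (∃ T : (κ → K) →ₗ[K] (κ' → K), Function.Bijective T ∧ ∀ p ∈ 𝓛, ∀ v, T (p.1 v) = p.2 (T v)) ∨
      ∃ T : (κ → K) →ₗ[K] (κ' → K), Function.Bijective T ∧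
        ∀ p ∈ 𝓛, ∀ v, T (adjE (1 : Matrix κ κ K) p.1 v) = -p.2 (T v) := by
    intro hc hc'
    rw [hc, hc', v08_sub, v08_sub] at hε
    exact (h.gr hε hv hv').iso hL.fb hL'.fb hirr hirr'
  have hm1 := (h.fst _).2 ⟨_, hε⟩
  have hm2 := (h.snd _).2 ⟨_, hε⟩
  by_cases ht : t
  · have hc := v08_zero hL ht hm1 hv hne
    by_cases ht' : t'
    · exact key hc (v08_zero hL' ht' hm2 hv' hne')
    · refine key hc (v08_mix h hL ht (v08_n hL' ht').1 ?_ hv hv' hne' (hex ht ht'))
      rw [hc, v08_sub] at hε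
      exact hε
  · by_cases ht' : t'
    · have hc' := v08_zero hL' ht' hm2 hv' hne'
      refine key (v08_mix h.symm hL' ht' (v08_n hL ht).1 ?_ hv' hv hne (fun h1 h2 h3 => hex' ht ht' h1 h3 h2)) hc'
      rw [hc', v08_sub] at hε
      exact mem_sw.2 hε
    · exact Gz.iso h (v08_n hL ht).1 (v08_n hL' ht').1 (v08_n hL ht).2 hirr hirr'


end Pool.Agent.H34V
end

-- from Lib.H76Q.X10
section

/-!
# permutations without odd cycles
-/

set_option autoImplicit false
set_option linter.unusedSectionVars false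
namespace Pool.Agent.H76Q
open Module Matrix Polynomial TensorProduct Pool.Agent.H53Toric
open Pool.Agent.H76P
open Pool.Agent.H76T (IsIdeal Fam Lc)
open Pool.Agent.H76V (Cmp)
open Pool.Agent.H76U (cmp preL IsSplitting)
open Pool.Agent.H76RM (spanK similD)

theorem x10_odd {α : Type*} (g : Equiv.Perm α)
    (hg : ∀ n : ℕ, Odd n → ∀ x, (g ^ n) x ≠ x) (n : ℤ) (hn : Odd n) (x : α) : (g ^ n) x ≠ x := by
  intro h
  rcases Int.natAbs_eq n with h1 | h1
  · refine hg n.natAbs (Int.natAbs_odd.2 hn) x ?_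
    rw [h1, zpow_natCast] at h
    exact h
  · refine hg n.natAbs (Int.natAbs_odd.2 hn) x ?_
    rw [h1, _root_.zpow_neg, zpow_natCast, Equiv.Perm.inv_eq_iff_eq] at h
    exact h.symm

/-- PROOF. Choose a point `r x` in each cycle (`r (g x) = r x`, and `x = (g ^ n) (r x)` for some natural number `n`: the group is finite).  `T` = the set of the `x` with `x = (g ^ n) (r x)` for an even `n`.  If `x = (g ^ n) (r x) = (g ^ n') (r x)` with `n` even and `n'`
odd then `(g ^ |n - n'|) (r x) = r x`, which `hg` excludes.  So `x ∈ T ↔ g x ∉ T`. -/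
theorem exists_half {α : Type*} [Finite α] (g : Equiv.Perm α)
    (hg : ∀ n : ℕ, Odd n → ∀ x, (g ^ n) x ≠ x) : ∃ T : Set α, ∀ x, g x ∈ T ↔ x ∉ T := by
  classical
  let st := Equiv.Perm.SameCycle.setoid g
  let r : α → α := fun x => (Quotient.mk st x).out
  have hr : ∀ x, ∃ i : ℤ, (g ^ i) (r x) = x := by
    intro x
    have h1 : st.r (Quotient.mk st x).out x := Quotient.mk_out (s := st) x
    exact h1
  have hrg : ∀ x, r (g x) = r x := by
    intro x
    have h1 : Quotient.mk st (g x) = Quotient.mk st x := by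
      apply Quotient.sound
      change Equiv.Perm.SameCycle g (g x) x
      exact Equiv.Perm.sameCycle_apply_left.2 (Equiv.Perm.SameCycle.refl g x)
    change (Quotient.mk st (g x)).out = (Quotient.mk st x).out
    rw [h1]
  refine ⟨{x | ∃ i : ℤ, Even i ∧ (g ^ i) (r x) = x}, fun x => ⟨?_, ?_⟩⟩
  · rintro ⟨j, hj, hj'⟩ ⟨i, hi, hi'⟩
    rw [hrg] at hj'
    have h2 : (g ^ (j - 1)) (r x) = x := by
      have h3 : (g ^ j) (r x) = g ((g ^ (j - 1)) (r x)) := by
        rw [← Equiv.Perm.mul_apply, ← _root_.zpow_one_add]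
        congr 2
        ring
      rw [h3] at hj'
      exact g.injective hj'
    apply x10_odd g hg (-i + (j - 1)) (Even.add_odd hi.neg (Even.sub_odd hj odd_one)) (r x)
    rw [_root_.zpow_add, Equiv.Perm.mul_apply, h2, _root_.zpow_neg, Equiv.Perm.inv_eq_iff_eq]
    exact hi'.symm
  · intro hx
    obtain ⟨i, hi⟩ := hr x
    have hodd : Odd i := by
      rw [← Int.not_even_iff_odd]
      intro he
      exact hx ⟨i, he, hi⟩
    refine ⟨1 + i, Odd.add_odd odd_one hodd, ?_⟩
    rw [hrg, _root_.zpow_one_add, Equiv.Perm.mul_apply, hi]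

end Pool.Agent.H76Q
end

-- from Lib.H86N.O3
section

/-!
# O3: symmetric forms, the spin case
-/

set_option autoImplicit false
set_option linter.unusedSectionVars false
namespace Pool.Agent.H86N
open Module Pool.Agent.H53Toric Pool.Agent.H49M

variable {K : Type*} [Field K] {V : Type*} [AddCommGroup V] [Module K V]

variable {L : Submodule K (Module.End K V)}

theorem o3_mod {K : Type*} [Field K] [CharZero K] {t : ℕ}
    (h : (-1 : K) ^ (t.choose 2) = -1) : t % 4 = 2 ∨ t % 4 = 3 := by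
  have ho : ¬ Even (t.choose 2) := by
    intro he
    rw [he.neg_one_pow] at h
    have h2 : (2 : K) = 0 := by linear_combination h
    exact two_ne_zero h2
  obtain ⟨q, r, hr, rfl⟩ : ∃ q r, r < 4 ∧ t = 4 * q + r :=
    ⟨t / 4, t % 4, Nat.mod_lt _ (by norm_num), (Nat.div_add_mod t 4).symm⟩
  have h2 : (4 * q + r) % 4 = r := by omega
  rw [h2]
  interval_cases r
  · exfalso
    apply ho
    rcases Nat.eq_zero_or_pos q with hq | hq
    · rw [hq]; decide
    have e1 : (4 * q + 0).choose 2 = 2 * (q * (4 * q - 1)) := by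
      rw [Nat.choose_two_right]
      have : (4 * q + 0) * (4 * q + 0 - 1) = 2 * (2 * (q * (4 * q - 1))) := by
        rw [show 4 * q + 0 - 1 = 4 * q - 1 by omega]; ring
      rw [this, Nat.mul_div_cancel_left _ (by norm_num)]
    rw [e1]
    exact even_two_mul _
  · exfalso
    apply ho
    have e1 : (4 * q + 1).choose 2 = 2 * (q * (4 * q + 1)) := by
      rw [Nat.choose_two_right]
      have : (4 * q + 1) * (4 * q + 1 - 1) = 2 * (2 * (q * (4 * q + 1))) := by
        rw [show 4 * q + 1 - 1 = 4 * q by omega]; ring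
      rw [this, Nat.mul_div_cancel_left _ (by norm_num)]
    rw [e1]
    exact even_two_mul _
  · exact Or.inl rfl
  · exact Or.inr rfl

/-- The spin case with a symmetric form. -/
theorem o3_spin [CharZero K] [IsAlgClosed K] [FiniteDimensional K V] [Nontrivial V]
    (h : CoreN L) {B : V →ₗ[K] V →ₗ[K] K} (hB : B ≠ 0) (hsym : ∀ v w, B v w = B w v)
    (hinv : ∀ X ∈ L, ∀ v w, B (X v) w + B v (X w) = 0)
    {s e f e' f' u : Module.End K V} (G : Grid L s e f e' f' u)
    (h0 : (1 / 2 : K) • (1 + s) = e * f + e' * f') :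
    ∃ t : ℕ, finrank K (eig s 1) = 2 ^ t ∧ (t % 4 = 2 ∨ t % 4 = 3) := by
  have hl := h.lie
  obtain ⟨P, hP⟩ : ∃ P : Module.End K V, P = (1 / 2 : K) • (1 + s) := ⟨_, rfl⟩
  obtain ⟨Q, hQ⟩ : ∃ Q : Module.End K V, Q = (1 / 2 : K) • (1 - s) := ⟨_, rfl⟩
  have hPe : P = e * f + e' * f' := by rw [hP, h0]
  have hs2 := G.F.s_sq
  have hQe : Q = f * e + f' * e' := by
    -- the difference is an idempotent of trace zero
    have B := P2_blocks h G
    have q0 : (qq s e f e' f' : Fin 3 → Module.End K V) 0 = (1 / 2 : K) • (1 - s) - f * e - f' * e' := rfl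
    have p0 : (pp s e f e' f' : Fin 3 → Module.End K V) 0 = (1 / 2 : K) • (1 + s) - e * f - e' * f' := rfl
    have t1 : LinearMap.trace K V ((pp s e f e' f' : Fin 3 → Module.End K V) 0 -
        (qq s e f e' f' : Fin 3 → Module.End K V) 0) = 0 := h.tr _ (B.mem 0)
    have t2 : (pp s e f e' f' : Fin 3 → Module.End K V) 0 = 0 := by rw [p0, h0]; abel
    rw [t2, zero_sub, map_neg, neg_eq_zero] at t1
    have t3 := trace_idem (V := V) (K := K) (show (qq s e f e' f' : Fin 3 → Module.End K V) 0 *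
      (qq s e f e' f' : Fin 3 → Module.End K V) 0 = (qq s e f e' f' : Fin 3 → Module.End K V) 0 by
        rw [B.qq, if_pos rfl])
    rw [t1] at t3
    have t4 : finrank K (LinearMap.range ((qq s e f e' f' : Fin 3 → Module.End K V) 0)) = 0 := by
      exact_mod_cast t3.symm
    have t5 := LinearMap.range_eq_bot.1 (Submodule.finrank_eq_zero.1 t4)
    rw [q0] at t5
    rw [hQ]
    have t6 := sub_eq_zero.1 (show (1 / 2 : K) • (1 - s) - (f * e + f' * e') = 0 by rw [← t5]; abel)
    exact t6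
  have ePx : ∀ X ∈ Lp L s, P * X = X := by
    intro X hX
    rw [hP, smul_mul_assoc, add_mul, one_mul, hX.2.1, ← two_smul K, smul_smul]; norm_num
  have eXQ : ∀ X ∈ Lp L s, X * Q = X := by
    intro X hX
    rw [hQ, mul_smul_comm, mul_sub, mul_one, hX.2.2, sub_neg_eq_add, ← two_smul K, smul_smul]
    norm_num
  have eYP : ∀ Y ∈ Lm L s, Y * P = Y := by
    intro X hX
    rw [hP, mul_smul_comm, mul_add, mul_one, hX.2.2, ← two_smul K, smul_smul]; norm_num
  have hPv : ∀ v, s v = v → P v = v := by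
    intro v hv
    rw [hP, LinearMap.smul_apply, LinearMap.add_apply, hv, Module.End.one_apply, ← two_smul K,
      smul_smul]
    norm_num
  have m1 : ∀ {v : V}, v ∈ eig s 1 ↔ s v = v := by
    intro v
    rw [eig, LinearMap.mem_ker, LinearMap.sub_apply, sub_eq_zero, one_smul, Module.End.one_apply]
  have ff' : f * f' = 0 := A2_mm G.F.f_mem G.F'.f_mem
  have f'f : f' * f = 0 := A2_mm G.F'.f_mem G.F.f_mem
  have efe := G.F.efe
  have fef := G.F.fef
  have efe' := G.F'.efe
  have fef' := G.F'.fef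
  have e'f := G.o3
  have ef' := G.o1
  have hgj : (e + e') * (f + f') = P := by
    rw [hPe, add_mul, mul_add, mul_add, ef', e'f]; simp
  have hjg : (f + f') * (e + e') = Q := by
    rw [hQe, add_mul, mul_add, mul_add, G.o4, G.o2]; simp
  have p1ne : e * f ≠ 0 := by
    intro h1
    apply G.F.e_ne
    rw [← efe, h1, zero_mul]
  -- the space of operators
  let J : Submodule K (Module.End K (eig s 1)) :=
    { carrier := {T | ∃ x ∈ Lp L s, ∃ c₁ c₂ : K, e * f * x * (f * e) = c₁ • e ∧
        e' * f' * x * (f' * e') = c₂ • e' ∧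
        ∀ v : eig s 1, ((T v : eig s 1) : V) = x ((f + f') (v : V)) - ((c₁ + c₂) / 2) • (v : V)}
      add_mem' := by
        rintro S T ⟨x, hx, c₁, c₂, h1, h2, h3⟩ ⟨y, hy, d₁, d₂, h4, h5, h6⟩
        refine ⟨x + y, (Lp L s).add_mem hx hy, c₁ + d₁, c₂ + d₂, ?_, ?_, ?_⟩
        · rw [mul_add, add_mul, h1, h4, add_smul]
        · rw [mul_add, add_mul, h2, h5, add_smul]
        · intro v
          have e1 : (x + y) ((f + f') (v : V)) = x ((f + f') (v : V)) + y ((f + f') (v : V)) := rfl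
          rw [LinearMap.add_apply, Submodule.coe_add, h3, h6, e1]
          module
      zero_mem' := ⟨0, (Lp L s).zero_mem, 0, 0, by simp, by simp, by simp⟩
      smul_mem' := by
        rintro c T ⟨x, hx, c₁, c₂, h1, h2, h3⟩
        refine ⟨c • x, (Lp L s).smul_mem c hx, c * c₁, c * c₂, ?_, ?_, ?_⟩
        · rw [mul_smul_comm, smul_mul_assoc, h1, smul_smul]
        · rw [mul_smul_comm, smul_mul_assoc, h2, smul_smul]
        · intro v
          have e1 : (c • x) ((f + f') (v : V)) = c • x ((f + f') (v : V)) := rfl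
          rw [LinearMap.smul_apply, Submodule.coe_smul, h3, e1]
          module }
  have hsq : ∀ w ∈ J, ∃ c : K, w * w = c • 1 := by
    rintro T ⟨x, hx, c₁, c₂, h1, h2, h3⟩
    have hxx : x * x = 0 := A2_pp hx hx
    obtain ⟨A, hA⟩ : ∃ A, A = e * f * x * f' := ⟨_, rfl⟩
    obtain ⟨B, hB⟩ : ∃ B, B = e' * f' * x * f := ⟨_, rfl⟩
    -- the operator
    have hxj : x * (f + f') = c₁ • (e * f) + c₂ • (e' * f') + A + B := by
      have e1 : e * f * x * f = c₁ • (e * f) := by
        calc e * f * x * f = e * f * x * (f * e) * f := by rw [mul_assoc _ (f * e) f, fef]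
          _ = c₁ • (e * f) := by rw [h1, smul_mul_assoc]
      have e2 : e' * f' * x * f' = c₂ • (e' * f') := by
        calc e' * f' * x * f' = e' * f' * x * (f' * e') * f' := by
              rw [mul_assoc _ (f' * e') f', fef']
          _ = c₂ • (e' * f') := by rw [h2, smul_mul_assoc]
      calc x * (f + f') = P * x * (f + f') := by rw [ePx x hx]
        _ = e * f * x * f + e' * f' * x * f' + e * f * x * f' + e' * f' * x * f := by
            rw [hPe]; noncomm_ring
        _ = _ := by rw [e1, e2, hA, hB]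
    obtain ⟨a, ha⟩ := K0_ext hl G.F (hl.sandwich hx.1 hxx G.F'.f_mem.1)
    obtain ⟨b, hb⟩ := K0_ext hl G.F' (hl.sandwich hx.1 hxx G.F.f_mem.1)
    have hAB : A * B = a • (e * f) := by
      calc A * B = e * f * x * (f' * e' * f') * x * f := by rw [hA, hB]; noncomm_ring
        _ = e * f * (x * f' * x) * (f * e) * f := by
          rw [fef', mul_assoc _ (f * e) f, fef]; noncomm_ring
        _ = _ := by rw [ha, smul_mul_assoc]
    have hBA : B * A = b • (e' * f') := by
      calc B * A = e' * f' * x * (f * e * f) * x * f' := by rw [hA, hB]; noncomm_ring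
        _ = e' * f' * (x * f * x) * (f' * e') * f' := by
          rw [fef, mul_assoc _ (f' * e') f', fef']; noncomm_ring
        _ = _ := by rw [hb, smul_mul_assoc]
    have hp1A : e * f * A = A := by rw [hA]; simp only [← mul_assoc]; rw [efe]
    have hAp2 : A * (e' * f') = A := by rw [hA, mul_assoc, ← mul_assoc f', fef']
    have hp2B : e' * f' * B = B := by rw [hB]; simp only [← mul_assoc]; rw [efe']
    have hBp1 : B * (e * f) = B := by rw [hB, mul_assoc, ← mul_assoc f, fef]
    have hAA : A * A = 0 := by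
      calc A * A = e * f * x * (f' * e) * f * x * f' := by rw [hA]; noncomm_ring
        _ = 0 := by rw [G.o2]; simp
    have hBB : B * B = 0 := by
      calc B * B = e' * f' * x * (f * e') * f' * x * f := by rw [hB]; noncomm_ring
        _ = 0 := by rw [G.o4]; simp
    have hab : a = b := by
      by_cases hA0 : A = 0
      · rw [hA0, zero_mul] at hAB
        rw [hA0, mul_zero] at hBA
        have ha0 := (smul_eq_zero.mp hAB.symm).resolve_right p1ne
        have p2ne : e' * f' ≠ 0 := by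
          intro h1
          apply G.F'.e_ne
          rw [← efe', h1, zero_mul]
        have hb0 := (smul_eq_zero.mp hBA.symm).resolve_right p2ne
        rw [ha0, hb0]
      · have e1 : (a - b) • A = 0 := by
          have e2 : A * B * A = a • A := by rw [hAB, smul_mul_assoc, hp1A]
          have e3 : A * B * A = b • A := by rw [mul_assoc, hBA, mul_smul_comm, hAp2]
          rw [sub_smul, ← e2, ← e3, sub_self]
        exact sub_eq_zero.mp ((smul_eq_zero.mp e1).resolve_right hA0)
    -- the square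
    obtain ⟨D, hD⟩ : ∃ D : Module.End K V, D = x * (f + f') - ((c₁ + c₂) / 2) • P := ⟨_, rfl⟩
    obtain ⟨d, hd⟩ : ∃ d : K, d = (c₁ - c₂) / 2 := ⟨_, rfl⟩
    have hD2 : D = d • (e * f - e' * f') + (A + B) := by
      rw [hD, hxj, hPe, hd]; module
    have t12 : e * f * (e' * f') = 0 := by
      rw [mul_assoc, ← mul_assoc f, G.o4, zero_mul, mul_zero]
    have t21 : e' * f' * (e * f) = 0 := by
      rw [mul_assoc, ← mul_assoc f', G.o2, zero_mul, mul_zero]
    have t11 : e * f * (e * f) = e * f := by rw [← mul_assoc, efe]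
    have t22 : e' * f' * (e' * f') = e' * f' := by rw [← mul_assoc, efe']
    have hp2A : e' * f' * A = 0 := by rw [← hp1A, ← mul_assoc, t21, zero_mul]
    have hp1B : e * f * B = 0 := by rw [← hp2B, ← mul_assoc, t12, zero_mul]
    have hAp1 : A * (e * f) = 0 := by rw [← hAp2, mul_assoc, t21, mul_zero]
    have hBp2 : B * (e' * f') = 0 := by rw [← hBp1, mul_assoc, t12, mul_zero]
    have hDD : D * D = (d * d + a) • P := by
      rw [hD2]
      simp only [add_mul, mul_add, sub_mul, mul_sub, smul_mul_assoc, mul_smul_comm, smul_sub,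
        t11, t12, t21, t22, hp1A, hAp2, hp2B, hBp1, hp2A, hp1B, hAp1, hBp2, hAA, hBB, hAB, hBA,
        ← hab, hPe]
      module
    refine ⟨d * d + a, ?_⟩
    have hTD : ∀ v : eig s 1, ((T v : eig s 1) : V) = D v := by
      intro v
      rw [h3, hD, LinearMap.sub_apply, LinearMap.smul_apply, hPv v (m1.mp v.2)]
      rfl
    ext v
    rw [Module.End.mul_apply, hTD, hTD, ← Module.End.mul_apply, hDD, LinearMap.smul_apply,
      hPv v (m1.mp v.2)]
    rfl
  have hfin := (K5_eig h G.F.s_mem G.F.s_sq).2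
  have hpos : 0 < finrank K V := finrank_pos
  have hpos1 : 0 < finrank K (eig s 1) := by omega
  have : Nontrivial (eig s 1) := (Module.finrank_pos_iff (R := K)).mp hpos1
  have hirrJ : ∀ U : Submodule K (eig s 1), (∀ w ∈ J, ∀ u ∈ U, w u ∈ U) → U = ⊥ ∨ U = ⊤ := by
    intro U hU
    by_cases hU0 : U = ⊥
    · exact Or.inl hU0
    right
    obtain ⟨W, hW⟩ : ∃ W : Submodule K V, W = U.map (eig s 1).subtype := ⟨_, rfl⟩
    have hWs : ∀ w ∈ W, s w = w := by
      rw [hW]; rintro _ ⟨u, _, rfl⟩; exact m1.mp u.2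
    have hW0 : W ≠ ⊥ := by
      intro h1
      apply hU0
      rw [eq_bot_iff]
      intro y hy
      have h4 : (y : V) ∈ W := by rw [hW]; exact ⟨y, hy, rfl⟩
      rw [h1, Submodule.mem_bot] at h4
      exact Subtype.ext h4
    have hst1 : ∀ x ∈ Lp L s, ∀ w ∈ W, (x * (f + f')) w ∈ W := by
      intro x hx w hw
      obtain ⟨c₁, h1⟩ := K0_ext hl G.F hx.1
      obtain ⟨c₂, h2⟩ := K0_ext hl G.F' hx.1
      have hstab : ∀ v ∈ eig s 1, (x * (f + f') - ((c₁ + c₂) / 2) • 1) v ∈ eig s 1 := by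
        intro v hv
        rw [m1] at hv ⊢
        rw [LinearMap.sub_apply, map_sub, ← Module.End.mul_apply, ← mul_assoc, hx.2.1,
          LinearMap.smul_apply, map_smul, Module.End.one_apply, hv]
      rw [hW] at hw ⊢
      obtain ⟨u, hu, rfl⟩ := hw
      have h5 := hU ((x * (f + f') - ((c₁ + c₂) / 2) • 1).restrict hstab)
        ⟨x, hx, c₁, c₂, h1, h2, fun v => rfl⟩ u hu
      have h6 : (x * (f + f')) (u : V) = (((x * (f + f') - ((c₁ + c₂) / 2) • 1).restrict hstab u +
          ((c₁ + c₂) / 2) • u : eig s 1) : V) := by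
        rw [Submodule.coe_add, Submodule.coe_smul, LinearMap.coe_restrict_apply]
        simp
      change (x * (f + f')) (u : V) ∈ _
      rw [h6]
      exact ⟨_, U.add_mem h5 (U.smul_mem _ hu), rfl⟩
    rw [eq_top_iff]
    rintro ⟨u, hu⟩ -
    have huW : u ∈ W := by
      refine A3_vec h G.F.s_mem G.F.s_sq hWs hW0 ?_ (m1.mp hu)
      intro Z hZ
      have hsp := A3_span h G.F.s_mem G.F.s_sq hZ
      refine Submodule.span_induction (p := fun Z _ => ∀ w ∈ W, Z w ∈ W) ?_ ?_ ?_ ?_ hsp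
      · rintro _ ⟨X, hX, Y, hY, rfl⟩ w hw
        have hXw : X w = 0 := by
          have e1 : X w = -(X w) := by
            conv_lhs => rw [← hWs w hw, ← Module.End.mul_apply, hX.2.2]
            rfl
          have e2 : (2 : K) • X w = 0 := by
            rw [two_smul]
            nth_rewrite 1 [e1]
            exact neg_add_cancel _
          exact (smul_eq_zero.mp e2).resolve_left two_ne_zero
        have hgL : e + e' ∈ Lp L s := (Lp L s).add_mem G.F.e_mem G.F'.e_mem
        have hgg : (e + e') * (e + e') = 0 := A2_pp hgL hgL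
        have hgYg : (e + e') * Y * (e + e') ∈ Lp L s := by
          refine ⟨hl.sandwich hgL.1 hgg hY.1, ?_, ?_⟩
          · rw [← mul_assoc, ← mul_assoc, hgL.2.1]
          · rw [mul_assoc, hgL.2.2, mul_neg]
        have e3 : X * Y = (X * (f + f')) * (((e + e') * Y * (e + e')) * (f + f')) := by
          calc X * Y = (X * Q) * (Y * P) := by rw [eXQ X hX, eYP Y hY]
            _ = (X * ((f + f') * (e + e'))) * (Y * ((e + e') * (f + f'))) := by rw [hgj, hjg]
            _ = _ := by noncomm_ring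
        rw [LinearMap.sub_apply, Module.End.mul_apply Y X, hXw, map_zero, sub_zero, e3,
          Module.End.mul_apply]
        exact hst1 X hX _ (hst1 _ hgYg w hw)
      · intro w _; rw [LinearMap.zero_apply]; exact W.zero_mem
      · intro a b _ _ h1 h2 w hw
        rw [LinearMap.add_apply]
        exact W.add_mem (h1 w hw) (h2 w hw)
      · intro c a _ h1 w hw
        rw [LinearMap.smul_apply]
        exact W.smul_mem _ (h1 w hw)
    rw [hW] at huW
    obtain ⟨y, hy, hyu⟩ := huW
    have : y = ⟨u, hu⟩ := Subtype.ext hyu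
    rwa [← this]
  have hnd : ∀ v, (∀ w, B v w = 0) → v = 0 := fun v hv => o1_nd h.irr hB hinv hv
  have hjL : f + f' ∈ L := L.add_mem G.F.f_mem.1 G.F'.f_mem.1
  obtain ⟨b, hb⟩ : ∃ b : eig s 1 →ₗ[K] eig s 1 →ₗ[K] K, ∀ v w : eig s 1, b v w = B v ((f + f') (w : V)) :=
    ⟨B.compl₁₂ (eig s 1).subtype ((f + f') ∘ₗ (eig s 1).subtype), fun v w => rfl⟩
  have hb0 : b ≠ 0 := by
    rintro rfl
    obtain ⟨v, hv⟩ := exists_ne (0 : eig s 1)
    apply hv
    apply Subtype.ext
    apply hnd
    intro w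
    have ss : ∀ v, s (s v) = v := fun v => LinearMap.congr_fun hs2 v
    have hw : w = P w + Q w := by
      rw [hP, hQ, LinearMap.smul_apply, LinearMap.smul_apply, LinearMap.add_apply, LinearMap.sub_apply,
        Module.End.one_apply]
      module
    have e1 : B (v : V) (P w) = 0 := by
      refine o1_iso (hinv s G.F.s_mem) (one_mul (1 : K)) ?_ ?_
      · rw [m1.mp v.2, one_smul]
      · rw [hP, LinearMap.smul_apply, LinearMap.add_apply, Module.End.one_apply, map_smul, map_add, ss, one_smul,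
          add_comm]
    have hgw : (e + e') w ∈ eig s 1 := by
      rw [m1, ← Module.End.mul_apply]
      have : s * (e + e') = e + e' := by rw [mul_add, G.F.e_mem.2.1, G.F'.e_mem.2.1]
      rw [this]
    have e2 : B (v : V) (Q w) = 0 := by
      have h1 := hb v ⟨(e + e') w, hgw⟩
      rw [← hjg]
      exact h1.symm
    rw [hw, map_add, e1, e2, add_zero]
  obtain ⟨t, ht, hts⟩ := P7_sign (finrank K (eig s 1)) (eig s 1) J rfl hsq hirrJ b (-1) 1 hb0
    (by
      intro v w
      rw [hb, hb]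
      have h1 := hinv _ hjL (v : V) (w : V)
      rw [hsym ((f + f') (v : V)) w] at h1
      linear_combination h1)
    (by
      rintro T ⟨x, hx, c₁, c₂, h1, h2, h3⟩ v w
      rw [hb, hb, h3, h3]
      simp only [map_sub, map_smul, LinearMap.sub_apply, LinearMap.smul_apply]
      have e1 := hinv x hx.1 ((f + f') (v : V)) ((f + f') (w : V))
      have e2 := hinv _ hjL (v : V) (x ((f + f') (w : V)))
      simp only [smul_eq_mul]
      linear_combination e1 - e2)
    (by norm_num)
  refine ⟨t, ht, o3_mod (K := K) ?_⟩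
  rw [one_pow, mul_one] at hts
  linear_combination -hts

end Pool.Agent.H86N
end

-- from Lib.H86N.O4
section

/-!
# O4: simple irreducible Lie algebras with an involution and an invariant symmetric form
-/

set_option autoImplicit false
set_option linter.unusedSectionVars false
namespace Pool.Agent.H86N
open Module Pool.Agent.H53Toric Pool.Agent.H49M

variable {K : Type*} [Field K] {V : Type*} [AddCommGroup V] [Module K V]
variable {L : Submodule K (Module.End K V)}

/-- The rank of an extremal element. -/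
theorem o4_ext [CharZero K] [IsAlgClosed K] [FiniteDimensional K V] [Nontrivial V]
    (h : CoreN L) {B : V →ₗ[K] V →ₗ[K] K} (hB : B ≠ 0) (hsym : ∀ v w, B v w = B w v)
    (hinv : ∀ X ∈ L, ∀ v w, B (X v) w + B v (X w) = 0) {s : Module.End K V} (hs : s ∈ L) (hs2 : s * s = 1)
    (hnot : ¬ ∀ X : Module.End K V, (∀ v w, B (X v) w + B v (X w) = 0) → X ∈ L) {N : Module.End K V} (hN : N ∈ L)
    (hN2 : N * N = 0) (hN0 : N ≠ 0) (hext : ∀ X ∈ L, ∃ c : K, N * X * N = c • N) :
    (∃ k : ℕ, 4 ≤ k ∧ Even k ∧ finrank K V = k.centralBinom ∧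
      finrank K (LinearMap.range N) = (k - 1).centralBinom) ∨
    (∃ m : ℕ, 3 ≤ m ∧ (m % 4 = 0 ∨ m % 4 = 3) ∧ finrank K V = 2 ^ m ∧
      4 * finrank K (LinearMap.range N) = finrank K V) := by
  have hset := A1_setup h hs hs2
  obtain ⟨y, e, f, hy, hy2, he, hf, c1, c2, c3, c4, hee, hff, hefe, hfef, hrk, hext'⟩ :=
    A4_frame_aux hset hN hN2 hN0 hext
  have he0 : e ≠ 0 := by
    intro h0
    have h1 : finrank K (LinearMap.range N) = 0 := by
      rw [← hrk, h0, LinearMap.range_zero, finrank_bot]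
    exact hN0 (LinearMap.range_eq_bot.mp (Submodule.finrank_eq_zero.mp h1))
  have F : Frame L y e f := ⟨hy, hy2, ⟨he, c1, c2⟩, ⟨hf, c3, c4⟩, he0, hefe, hfef, hext'⟩
  rw [← hrk]
  by_cases ha : ∀ u ∈ J1 L y e f, u * f * u = 0
  · left
    rcases o2_alpha h hB hsym hinv F ha with h1 | h1
    · exact absurd h1 hnot
    · exact h1
  · right
    push Not at ha
    obtain ⟨u, hu, hu0⟩ := ha
    obtain ⟨e', f', G⟩ := P1_grid h F hu hu0
    by_cases hall : ∀ T : Module.End K V, e * f * T * (e * f) * (u * f') ∈ LL L (e * f) (e' * f')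
    · exact absurd (fun X hX => full_so' h G hall hB hsym hinv hX) hnot
    · have h1 := (P5_dich h G).resolve_left hall
      have h4 := P8_four h G h1
      obtain ⟨t, ht, ht2⟩ := o3_spin h hB hsym hinv G h1
      have h5 := (K5_eig h G.F.s_mem G.F.s_sq).2
      have h6 : finrank K V = 2 ^ (t + 1) := by rw [h5, ht, pow_succ]; ring
      exact ⟨t + 1, by omega, by omega, h6, h4.symm⟩

/-- A simple irreducible Lie algebra of skew operators of a space with a symmetric form containing an involution is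
the full orthogonal Lie algebra, except if the dimension is `2 ^ m` with `m ≡ 0, 3 mod 4`, `m ≥ 3`, and all square
zero elements have rank a quarter or a half of the dimension, or the dimension is `C(2k, k)` with `k ≥ 4` even and
all square zero elements have rank `C(2k-2, k-1)`. -/
theorem coreO [CharZero K] [IsAlgClosed K] [FiniteDimensional K V] [Nontrivial V]
    (h : CoreN L) {B : V →ₗ[K] V →ₗ[K] K} (hB : B ≠ 0) (hsym : ∀ v w, B v w = B w v)
    (hinv : ∀ X ∈ L, ∀ v w, B (X v) w + B v (X w) = 0) {s : Module.End K V} (hs : s ∈ L) (hs2 : s * s = 1) :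
    (∀ X : Module.End K V, (∀ v w, B (X v) w + B v (X w) = 0) → X ∈ L) ∨
    (∃ m : ℕ, 3 ≤ m ∧ (m % 4 = 0 ∨ m % 4 = 3) ∧ finrank K V = 2 ^ m ∧
      ∀ N ∈ L, N * N = 0 → N ≠ 0 → 4 * finrank K (LinearMap.range N) = finrank K V ∨
        2 * finrank K (LinearMap.range N) = finrank K V) ∨
    (∃ k : ℕ, 4 ≤ k ∧ Even k ∧ finrank K V = k.centralBinom ∧
      ∀ N ∈ L, N * N = 0 → N ≠ 0 →
        finrank K (LinearMap.range N) = (k - 1).centralBinom) := by
  by_cases hfull : ∀ X : Module.End K V, (∀ v w, B (X v) w + B v (X w) = 0) → X ∈ L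
  · exact Or.inl hfull
  right
  have hset := A1_setup h hs hs2
  obtain ⟨N₁, hN₁, hN₁0⟩ := Submodule.exists_mem_ne_zero_of_ne_bot (A2_ne h hs hs2)
  obtain ⟨N₀, hN₀, hN₀2, hN₀0, -, hext₀⟩ := A4_extremal h.lie h.irr hset.tr hN₁.1
    (A2_pp hN₁ hN₁) hN₁0
  rcases o4_ext h hB hsym hinv hs hs2 hfull hN₀ hN₀2 hN₀0 hext₀ with ⟨k, hk3, hk, hdim, -⟩ |
    ⟨m, hm5, hm, hdim, hr0⟩
  · right
    refine ⟨k, hk3, hk, hdim, fun N hN hN2 hN0 => ?_⟩
    obtain ⟨c, hc1, hc⟩ := R1_sum h.lie h.irr hset.tr (r := (k - 1).centralBinom) (by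
      intro N' hN' hN'2 hN'0 hext'
      rcases o4_ext h hB hsym hinv hs hs2 hfull hN' hN'2 hN'0 hext' with ⟨k', -, -, hdim', hr'⟩ |
        ⟨m, -, -, hdim', -⟩
      · rw [hdim] at hdim'
        rw [Nat.centralBinom_strictMono.injective hdim']
        exact hr'
      · rw [hdim] at hdim'
        exact absurd hdim' (R3_binom_pow (by omega))) _ N hN hN2 rfl hN0
    have h1 := R1_half hN2
    obtain ⟨j, rfl⟩ : ∃ j, k = j + 1 := ⟨k - 1, by omega⟩
    have h2 := R3_binom_lt j
    rw [Nat.add_sub_cancel] at hc ⊢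
    have hc2 : c < 2 := by
      by_contra hcon
      push Not at hcon
      have h3 : 2 * j.centralBinom ≤ c * j.centralBinom := Nat.mul_le_mul_right _ hcon
      omega
    have : c = 1 := by omega
    rw [hc, this, one_mul]
  · left
    refine ⟨m, hm5, hm, hdim, fun N hN hN2 hN0 => ?_⟩
    obtain ⟨c, hc1, hc⟩ := R1_sum h.lie h.irr hset.tr (r := finrank K (LinearMap.range N₀)) (by
      intro N' hN' hN'2 hN'0 hext'
      rcases o4_ext h hB hsym hinv hs hs2 hfull hN' hN'2 hN'0 hext' with ⟨k', hk', -, hdim', -⟩ |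
        ⟨m', -, -, -, hr'⟩
      · rw [hdim] at hdim'
        exact absurd hdim'.symm (R3_binom_pow (by omega))
      · omega) _ N hN hN2 rfl hN0
    have h1 := R1_half hN2
    have hpos : 0 < finrank K (LinearMap.range N₀) := by
      rw [Nat.pos_iff_ne_zero]
      intro h0
      exact hN₀0 (LinearMap.range_eq_bot.mp (Submodule.finrank_eq_zero.mp h0))
    have hc2 : c < 3 := by
      by_contra hcon
      push Not at hcon
      have h3 : 3 * finrank K (LinearMap.range N₀) ≤ c * finrank K (LinearMap.range N₀) :=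
        Nat.mul_le_mul_right _ hcon
      omega
    have : c = 1 ∨ c = 2 := by omega
    rcases this with rfl | rfl
    · left; omega
    · right; omega

end Pool.Agent.H86N
end

-- from Lib.H76Y.D2
section

/-!
# D2: the number `m = ∏ t`
-/

set_option autoImplicit false
set_option linter.unusedSectionVars false
namespace Pool.Agent.H76Y
open Pool.Agent.H76P Pool.Agent.H76V Pool.Agent.H76Q
open Module Matrix Pool.Agent.H53Toric

variable {κ : Type*} [Fintype κ] [DecidableEq κ] [Nonempty κ] {Y : Submodule ℚ (κ → ℚ)}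
  {P : Module.End ℚ Y} {Ω : Type*} [Field Ω] {a : κ → Ω}

theorem lift_prod {t : κ → Ω} (ht : Lift P a t) (s : Ω ≃+* Ω) (σ : Equiv.Perm κ)
    (hs : ∀ k, s (a k) = a (σ k)) (hσ : StabP P σ) : s (∏ k, t k) = ∏ k, t k := by
  rw [map_prod]
  simp only [ht.eqv s σ hs hσ]
  exact Equiv.prod_comp σ t

theorem lift_prod_ne {t : κ → Ω} (ht : Lift P a t) : ∏ k, t k ≠ 0 :=
  Finset.prod_ne_zero_iff.2 fun k _ => ht.ne k

theorem exists_xN {t t' : κ → Ω} (ht : Lift P a t) (ht' : Lift (1 - P) a t')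
    (ha0 : ∀ k, a k ≠ 0) (hP : Sp P) {K : Type*} [Field K] {i : Ω →+* K}
    {u r : κ → K} (hl : LD P a i u r) :
    ∃ x : Ω, x ≠ 0 ∧ (∀ (s : Ω ≃+* Ω) (σ : Equiv.Perm κ), (∀ k, s (a k) = a (σ k)) → StabP P σ →
        s x = x) ∧ (∏ k, t k) * (∏ k, t' k) = x ^ Fintype.card κ * ∏ k, a k := by
  obtain ⟨k0⟩ := (inferInstance : Nonempty κ)
  obtain ⟨c, hc, huc⟩ := ht.eq_c ha0 hP hl
  have hl' : LD (1 - P) a i r u := by
    refine ⟨fun k => by rw [hl.prod k, mul_comm], hl.fr, ?_⟩
    rw [d2_sub]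
    exact hl.fu
  obtain ⟨c', hc', hrc⟩ := ht'.eq_c ha0 hP.compl hl'
  have key : ∀ k, t k * t' k = t k0 * t' k0 / a k0 * a k := by
    intro k
    apply i.injective
    have h1 := hl.prod k
    have h2 := hl.prod k0
    rw [huc k, hrc k] at h1
    rw [huc k0, hrc k0] at h2
    have h3 : i (a k0) ≠ 0 := (map_ne_zero i).2 (ha0 k0)
    have h4 : i (t k0 * t' k0 / a k0 * a k) = i (t k0) * i (t' k0) / i (a k0) * i (a k) := by
      simp only [map_mul, map_div₀]
    rw [h4, map_mul, div_mul_eq_mul_div, eq_div_iff h3, h1, h2]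
    ring
  refine ⟨t k0 * t' k0 / a k0, div_ne_zero (mul_ne_zero (ht.ne _) (ht'.ne _)) (ha0 _),
    fun s σ hs hσ => ?_, ?_⟩
  · rw [map_div₀, map_mul, ht.eqv s σ hs hσ k0, ht'.eqv s σ hs (d2_stab hσ) k0, hs k0,
      key (σ k0), mul_div_assoc, div_self (ha0 (σ k0)), mul_one]
  · rw [← Finset.prod_mul_distrib, Finset.prod_congr rfl fun k _ => key k, Finset.prod_mul_distrib,
      Finset.prod_const, Finset.card_univ]

end Pool.Agent.H76Y
end

-- from Lib.H76Y.DN1
section

/-!
# DN1: the determinant of the lift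
-/

set_option autoImplicit false
set_option linter.unusedSectionVars false
namespace Pool.Agent.H76Q
open Module Matrix Pool.Agent.H53Toric
open Pool.Agent.H76P

variable {κ : Type*} [Fintype κ] [DecidableEq κ] [Nonempty κ] {Y : Submodule ℚ (κ → ℚ)}
  {P : Module.End ℚ Y} {Ω : Type*} [Field Ω] {a : κ → Ω}

/-- The relation between the lift and the local factorisation. -/
theorem Lift.prod_eq {t : κ → Ω} (ht : Lift P a t) (ha0 : ∀ k, a k ≠ 0) (hP : Sp P) {K : Type*}
    [Field K] {i : Ω →+* K} {u r : κ → K} (hl : LD P a i u r) :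
    ∃ c : K, c ≠ 0 ∧ (∀ k, u k = c * i (t k)) ∧ ∏ k, u k = c ^ Fintype.card κ * i (∏ k, t k) := by
  obtain ⟨c, hc, huc⟩ := ht.eq_c ha0 hP hl
  refine ⟨c, hc, huc, ?_⟩
  rw [Finset.prod_congr rfl fun k _ => huc k, Finset.prod_mul_distrib, Finset.prod_const, Finset.card_univ, map_prod]

end Pool.Agent.H76Q
end
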