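import Pool.Agent.Lib.H1M.RC.M043
import Pool.Agent.Lib.H1M.RC.M048
import Pool.Agent.Lib.H1M.RC.M049
import Pool.Agent.Lib.H1M.RC.M050
import Pool.Agent.Lib.H1M.RC.M051
import Pool.Agent.Lib.H1M.RC.M056
import Pool.Agent.Lib.H1M.RC.M057

/-! Merged copies (to shorten the build) of Lib.H86K.K8, Lib.H45Q.S2, Lib.H76W.Pr, Lib.H76Q.X4a, Lib.H76Q.X4c, Lib.H76Q.X5, Lib.H76Q.X7, Lib.H76Q.W10a, Lib.H76Y.W10a, Lib.H45U.W10, Lib.H76Q.W10b, Lib.H76Y.A8, Lib.H76Q.W7, Lib.H76Q.W8. -/

-- from Lib.H86K.K8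
section

/-!
# K8: one block, all odd functions: the component is full
-/

set_option autoImplicit false
set_option linter.unusedSectionVars false
namespace Pool.Agent.H86K
open Module Matrix Pool.Agent.H53Toric Pool.Agent.H49M Pool.Agent.H76P Pool.Agent.H76Q
open Pool.Agent.H76T (IsIdeal Fam)
open Pool.Agent.H76V (Cmp)

variable {κ : Type*} {K : Type*} [Field K] [CharZero K] [Fintype κ] [DecidableEq κ]
  {L : Submodule K (Module.End K (κ → K))} {J : Matrix κ κ K} [IsAlgClosed K] [Nonempty κ]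
  {Y : Submodule ℚ (κ → ℚ)}

/-- One block: the component is simple. -/
theorem simple_of_one (h : TS L J) (hY : Yo L = Y) (h1 : IsBlock (1 : Module.End ℚ Y))
    (two : ∀ k : ℕ, 4 ≤ k → Fintype.card κ ≠ 2 ^ k) :
    ∃ I : Fin 1 → Submodule K (Module.End K (κ → K)), Fam L I := by
  classical
  subst hY
  obtain ⟨m, I, hF⟩ := Pool.Agent.H76T.exists_fam h.cmp.lie h.cmp.irr h.cmp.tr
  rcases Nat.lt_or_ge m 2 with hm | hm
  · interval_cases m
    · exfalso
      have hL : L = ⊥ := by
        rw [← hF.sup]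
        exact iSup_of_empty _
      have h2 : ∀ y ∈ L, y * y = 1 → False := by
        intro y hy hy2
        rw [hL, Submodule.mem_bot] at hy
        rw [hy, mul_zero] at hy2
        exact zero_ne_one hy2
      -- every operator is scalar, hence the space has dimension one, which contradicts the symplectic form
      have h3 : Subsingleton κ := by
        refine ⟨fun a b => ?_⟩
        by_contra hab
        obtain ⟨f, hf, hfab⟩ := h.sep a b hab
        obtain ⟨c', hc'⟩ := h.cmp.gen (dq f) fun y hy hy2 => (h2 y hy hy2).elim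
        apply hfab
        have h4 := congrFun (congrArg (fun T : Module.End K (κ → K) => T fun _ => 1) hc') a
        have h5 := congrFun (congrArg (fun T : Module.End K (κ → K) => T fun _ => 1) hc') b
        unfold dq at h4 h5
        simp only [dg_apply, LinearMap.smul_apply, Module.End.one_apply, Pi.smul_apply, smul_eq_mul, mul_one] at h4 h5
        have h6 : ((f a : ℚ) : K) = ((f b : ℚ) : K) := by rw [h4, h5]
        exact_mod_cast h6
      obtain ⟨a⟩ := ‹Nonempty κ›
      have h4 : J.det = J a a := by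
        have : Unique κ := ⟨⟨a⟩, fun b => Subsingleton.elim b a⟩
        exact Matrix.det_eq_elem_of_subsingleton J a
      have h5 : J a a = -J a a := by
        have h6 := congrFun (congrFun h.cmp.Jt a) a
        rwa [Matrix.transpose_apply, Matrix.neg_apply] at h6
      have h6 : J a a = 0 := self_eq_neg.1 h5
      have h7 := h.cmp.Jd
      rw [h4, h6] at h7
      exact not_isUnit_zero h7
    · exact ⟨I, hF⟩
  · exfalso
    have hs : Spans (pt L) := pt_spans h.cmp
    have hij : (⟨0, by omega⟩ : Fin m) ≠ ⟨1, by omega⟩ := by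
      intro e
      exact absurd (congrArg Fin.val e) (by norm_num)
    set i : Fin m := ⟨0, by omega⟩ with hi
    set j : Fin m := ⟨1, by omega⟩ with hj
    -- an atom equal to one is impossible
    have caseA : Atom (pt L) (1 : Module.End ℚ (Module.Dual ℚ (Yo L))) → False := by
      intro hA
      obtain ⟨P, hP1, hP2, hP3, hPS⟩ := exists_proj h.cmp hF i
      have g1 : P.dualMap = 1 := by
        rcases hA.2.2 P.dualMap hPS (mul_one _) with h2 | h2
        · exfalso
          obtain ⟨f, hf, hf0, hfi⟩ := h.exists_diag hF i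
          have h3 : P = 0 := dualMap_inj (by rw [h2, dualMap_zero])
          have h4 := hP2 ⟨f, hf⟩ hfi
          rw [h3, LinearMap.zero_apply] at h4
          exact hf0 (congrArg Subtype.val h4).symm
        · exact h2
      have g2 : P = 1 := dualMap_inj (by rw [g1, dualMap_one])
      obtain ⟨f, hf, hf0, hfi⟩ := h.exists_diag hF j
      have h3 := hP3 j (Ne.symm hij) ⟨f, hf⟩ hfi
      rw [g2, Module.End.one_apply] at h3
      exact hf0 (congrArg Subtype.val h3)
    rcases h1 with ⟨h8, hA⟩ | ⟨-, hA, hc⟩ | ⟨h8, hS, -, hat⟩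
    · rw [dualMap_one] at hA
      exact caseA hA
    · rw [dualMap_one] at hA
      exact caseA hA
    · obtain ⟨s, hsm, hsum⟩ := atoms_sum hs
      have hcard : Fintype.card κ = 2 ^ s.card := by
        rw [card_prod hs h.pt_inj (s := s) (fun q hq => (hsm q).1 hq) hsum]
        rw [← Finset.prod_const]
        refine Finset.prod_congr rfl fun q hq => ?_
        refine (hat q ((hsm q).1 hq)).1 ?_
        rw [dualMap_one, mul_one]
      obtain ⟨a, d, ha, hd, hV, ha2, hd2, -, -⟩ := h.cmp.dims hF (i := i) (j := j) hij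
      rw [Module.finrank_fintype_fun_eq_card] at hV
      have hs4 : s.card < 4 := by
        by_contra hcon
        push Not at hcon
        exact two _ hcon hcard
      have hs3 : s.card ≠ 3 := by
        intro e
        rw [e] at hcard
        exact h8 hcard
      have hle : Fintype.card κ ≤ 4 := by
        rw [hcard]
        calc 2 ^ s.card ≤ 2 ^ 2 := Nat.pow_le_pow_right (by norm_num) (by omega)
          _ = 4 := by norm_num
      have hpos : 0 < Fintype.card κ := Fintype.card_pos
      have ha0 : a = 2 := by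
        obtain ⟨a', rfl⟩ := ha2
        obtain ⟨d', rfl⟩ := hd2
        have ha' : 0 < a' := by
          rcases Nat.eq_zero_or_pos a' with e | e
          · rw [e] at hV
            simp at hV
          · exact e
        have hd' : 0 < d' := by
          rcases Nat.eq_zero_or_pos d' with e | e
          · rw [e] at hV
            simp at hV
          · exact e
        have h5 : a' * d' ≤ 1 := by
          have h6 : (a' + a') * (d' + d') ≤ 4 := by rw [← hV]; exact hle
          nlinarith
        have h6 : a' ≤ 1 := by nlinarith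
        omega
      obtain ⟨u, hu, hu0, hu2⟩ := h.cmp.nil hF j
      have h5 : 4 ∣ finrank K (LinearMap.range u) := h.cmp.four hF hij ha ha0 hu
      have h6 : finrank K (LinearMap.range u) ≤ finrank K (LinearMap.ker u) := by
        refine Submodule.finrank_mono ?_
        rintro _ ⟨x, rfl⟩
        rw [LinearMap.mem_ker]
        exact congrArg (fun T : Module.End K (κ → K) => T x) hu2
      have h7 := LinearMap.finrank_range_add_finrank_ker u
      rw [Module.finrank_fintype_fun_eq_card] at h7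
      have h8 : finrank K (LinearMap.range u) = 0 := by
        obtain ⟨c, hc⟩ := h5
        omega
      apply hu0
      rw [Submodule.finrank_eq_zero] at h8
      exact LinearMap.range_eq_bot.1 h8

/-- Polynomials of the bracket with a diagonal element. -/
theorem poly_diag (hl : IsLie L) {f : κ → K} (hf : dg f ∈ L) (p : Polynomial K) :
    ∀ X ∈ L, ∃ Z ∈ L, ∀ a b, LinearMap.toMatrix' Z a b = p.eval (f a - f b) * LinearMap.toMatrix' X a b := by
  induction p using Polynomial.induction_on' with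
  | add p q hp hq =>
    intro X hX
    obtain ⟨Z, hZ, h1⟩ := hp X hX
    obtain ⟨Z', hZ', h2⟩ := hq X hX
    refine ⟨Z + Z', L.add_mem hZ hZ', fun a b => ?_⟩
    rw [map_add, Matrix.add_apply, h1, h2, Polynomial.eval_add, add_mul]
  | monomial n c =>
    induction n with
    | zero =>
      intro X hX
      refine ⟨c • X, L.smul_mem c hX, fun a b => ?_⟩
      rw [map_smul, Matrix.smul_apply, Polynomial.eval_monomial, pow_zero, mul_one, smul_eq_mul]
    | succ n ih =>
      intro X hX
      obtain ⟨Z, hZ, h1⟩ := ih X hX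
      refine ⟨dg f * Z - Z * dg f, hl _ hf _ hZ, fun a b => ?_⟩
      rw [map_sub, Matrix.sub_apply, c6_left, c6_right, h1, Polynomial.eval_monomial, Polynomial.eval_monomial,
        pow_succ]
      ring

/-- If all odd functions are diagonal elements, there is an element of small rank. -/
theorem exists_small (h : Cmp L J) {bar : Equiv.Perm κ} (hbb : ∀ k, bar (bar k) = k) (hbne : ∀ k, bar k ≠ k)
    (hodd : ∀ f : κ → ℚ, (∀ k, f (bar k) = -f k) → dq f ∈ L) (hn : 3 ≤ Fintype.card κ) :
    ∃ N ∈ L, N * N = 0 ∧ N ≠ 0 ∧ finrank K (LinearMap.range N) ≤ 2 := by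
  classical
  obtain ⟨k₀⟩ := ‹Nonempty κ›
  -- a nonzero entry outside the plane of `k₀`
  obtain ⟨X, hX, k, l, hk1, hk2, hlS, hXkl⟩ : ∃ X ∈ L, ∃ k l, k ≠ k₀ ∧ k ≠ bar k₀ ∧ (l = k₀ ∨ l = bar k₀) ∧
      LinearMap.toMatrix' X k l ≠ 0 := by
    by_contra hcon
    push Not at hcon
    let W : Submodule K (κ → K) :=
      { carrier := {v | ∀ a, a ≠ k₀ → a ≠ bar k₀ → v a = 0}
        add_mem' := fun {u v} hu hv a h1 h2 => by
          rw [Pi.add_apply, hu a h1 h2, hv a h1 h2, add_zero]
        zero_mem' := fun a _ _ => rfl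
        smul_mem' := fun c v hv a h1 h2 => by rw [Pi.smul_apply, hv a h1 h2, smul_zero] }
    have hW : W = ⊥ ∨ W = ⊤ := by
      refine h.irr W fun X hX w hw a h1 h2 => ?_
      have h3 : X w a = ∑ b, LinearMap.toMatrix' X a b * w b := by
        have h4 : X w = LinearMap.toMatrix' X *ᵥ w := by
          rw [← Matrix.toLin'_apply, Matrix.toLin'_toMatrix']
        rw [h4]
        rfl
      rw [h3]
      refine Finset.sum_eq_zero fun b _ => ?_
      by_cases hb : b = k₀ ∨ b = bar k₀
      · rw [hcon X hX a b h1 h2 hb, zero_mul]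
      · push Not at hb
        rw [hw b hb.1 hb.2, mul_zero]
    rcases hW with hW | hW
    · have h1 : (Pi.single k₀ 1 : κ → K) ∈ W := by
        intro a ha _
        rw [Pi.single_eq_of_ne ha]
      rw [hW, Submodule.mem_bot] at h1
      have h2 := congrFun h1 k₀
      rw [Pi.single_eq_same] at h2
      exact one_ne_zero h2
    · obtain ⟨a, ha1, ha2⟩ : ∃ a, a ≠ k₀ ∧ a ≠ bar k₀ := by
        by_contra hcon
        push Not at hcon
        have h1 : Fintype.card κ ≤ ({k₀, bar k₀} : Finset κ).card := by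
          rw [← Finset.card_univ]
          refine Finset.card_le_card fun a _ => ?_
          rw [Finset.mem_insert, Finset.mem_singleton]
          by_cases h2 : a = k₀
          · exact Or.inl h2
          · exact Or.inr (hcon a h2)
        have h2 := Finset.card_le_two (a := k₀) (b := bar k₀)
        omega
      have h1 : (Pi.single a 1 : κ → K) ∈ W := by rw [hW]; exact Submodule.mem_top
      have h2 := h1 a ha1 ha2
      rw [Pi.single_eq_same] at h2
      exact one_ne_zero h2
  have hlk : l ≠ k := by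
    rintro rfl
    rcases hlS with h1 | h1
    · exact hk1 h1
    · exact hk2 h1
  have hlbk : l ≠ bar k := by
    intro h1
    rcases hlS with h2 | h2
    · apply hk2
      rw [← h2, h1, hbb]
    · apply hk1
      have h3 : bar k = bar k₀ := by rw [← h1, h2]
      exact bar.injective h3
  -- the two diagonal elements
  let F : κ → κ → ℚ := fun x a => if a = x then 1 else if a = bar x then -1 else 0
  have hF : ∀ x, dq (F x) ∈ L := by
    intro x
    refine hodd _ fun a => ?_
    show (if bar a = x then (1 : ℚ) else if bar a = bar x then -1 else 0) =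
      -(if a = x then (1 : ℚ) else if a = bar x then -1 else 0)
    by_cases h1 : a = x
    · rw [h1, if_neg (hbne x), if_pos rfl, if_pos rfl]
    · by_cases h2 : a = bar x
      · rw [h2, hbb, if_pos rfl, if_neg (hbne x), if_pos rfl, neg_neg]
      · have h3 : bar a ≠ x := by
          intro h4
          apply h2
          rw [← h4, hbb]
        have h4 : bar a ≠ bar x := fun h5 => h1 (bar.injective h5)
        rw [if_neg h3, if_neg h4, if_neg h1, if_neg h2, neg_zero]
  have hFv : ∀ x a, F x a = 1 ∨ F x a = -1 ∨ F x a = 0 := by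
    intro x a
    show (if a = x then (1 : ℚ) else if a = bar x then -1 else 0) = 1 ∨ _ ∨ _
    by_cases h1 : a = x
    · left; rw [if_pos h1]
    · by_cases h2 : a = bar x
      · right; left
        show (if a = x then (1 : ℚ) else if a = bar x then -1 else 0) = -1
        rw [if_neg h1, if_pos h2]
      · right; right
        show (if a = x then (1 : ℚ) else if a = bar x then -1 else 0) = 0
        rw [if_neg h1, if_neg h2]
  have hF1 : ∀ x a, F x a = 1 → a = x := by
    intro x a h1
    by_contra h2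
    have h3 : F x a = if a = bar x then -1 else 0 := if_neg h2
    rw [h3] at h1
    split_ifs at h1 <;> norm_num at h1
  have hFm : ∀ x a, F x a = -1 → a = bar x := by
    intro x a h1
    by_contra h2
    have h3 : F x a = if a = x then 1 else 0 := by
      show (if a = x then (1 : ℚ) else if a = bar x then -1 else 0) = _
      rw [if_neg h2]
    rw [h3] at h1
    split_ifs at h1 <;> norm_num at h1
  -- the polynomials
  let p : Polynomial K := Polynomial.C (-(1 / 6 : K)) * ((Polynomial.X + Polynomial.C 2) * (Polynomial.X + Polynomial.C 1) *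
    Polynomial.X * (Polynomial.X - Polynomial.C 2))
  let p' : Polynomial K := Polynomial.C ((1 / 6 : K)) * ((Polynomial.X - Polynomial.C 2) * (Polynomial.X - Polynomial.C 1) *
    Polynomial.X * (Polynomial.X + Polynomial.C 2))
  have hp : ∀ t : K, p.eval t = -(1 / 6) * ((t + 2) * (t + 1) * t * (t - 2)) := by
    intro t
    show Polynomial.eval t (Polynomial.C (-(1 / 6 : K)) * ((Polynomial.X + Polynomial.C 2) * (Polynomial.X + Polynomial.C 1) *
      Polynomial.X * (Polynomial.X - Polynomial.C 2))) = _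
    simp only [Polynomial.eval_mul, Polynomial.eval_C, Polynomial.eval_add, Polynomial.eval_sub, Polynomial.eval_X]
  have hp' : ∀ t : K, p'.eval t = (1 / 6) * ((t - 2) * (t - 1) * t * (t + 2)) := by
    intro t
    show Polynomial.eval t (Polynomial.C ((1 / 6 : K)) * ((Polynomial.X - Polynomial.C 2) * (Polynomial.X - Polynomial.C 1) *
      Polynomial.X * (Polynomial.X + Polynomial.C 2))) = _
    simp only [Polynomial.eval_mul, Polynomial.eval_C, Polynomial.eval_add, Polynomial.eval_sub, Polynomial.eval_X]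
  obtain ⟨Z, hZ, hZe⟩ := poly_diag h.lie (f := fun a => (F k a : K)) (hF k) p X hX
  obtain ⟨N, hN, hNe⟩ := poly_diag h.lie (f := fun a => (F l a : K)) (hF l) p' Z hZ
  have hpv : ∀ a b, p.eval ((F k a : K) - (F k b : K)) ≠ 0 → F k a - F k b = 1 := by
    intro a b h1
    rw [hp] at h1
    rcases hFv k a with e1 | e1 | e1 <;> rcases hFv k b with e2 | e2 | e2 <;> rw [e1, e2] at h1 ⊢ <;>
      first
        | (exfalso; norm_num at h1; done)
        | (norm_num; done)
  have hpv' : ∀ a b, p'.eval ((F l a : K) - (F l b : K)) ≠ 0 → F l a - F l b = -1 := by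
    intro a b h1
    rw [hp'] at h1
    rcases hFv l a with e1 | e1 | e1 <;> rcases hFv l b with e2 | e2 | e2 <;> rw [e1, e2] at h1 ⊢ <;>
      first
        | (exfalso; norm_num at h1; done)
        | (norm_num; done)
  -- the entries
  have hentry : ∀ a b, LinearMap.toMatrix' N a b ≠ 0 → (a = k ∧ b = l) ∨ (a = bar l ∧ b = bar k) := by
    intro a b hab
    rw [hNe, hZe] at hab
    have h1 := left_ne_zero_of_mul hab
    have h2 := left_ne_zero_of_mul (right_ne_zero_of_mul hab)
    have h3 := hpv a b h2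
    have h4 := hpv' a b h1
    rcases hFv k a with e1 | e1 | e1
    · left
      have ha := hF1 k a e1
      refine ⟨ha, ?_⟩
      rcases hFv l b with e2 | e2 | e2
      · exact hF1 l b e2
      · exfalso
        rw [e2] at h4
        rcases hFv l a with e3 | e3 | e3 <;> rw [e3] at h4 <;> norm_num at h4
      · exfalso
        rw [e2] at h4
        have e3 : F l a = -1 := by linarith
        have h5 := hFm l a e3
        rw [ha] at h5
        apply hlbk
        rw [h5, hbb]
    · exfalso
      rw [e1] at h3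
      rcases hFv k b with e3 | e3 | e3 <;> rw [e3] at h3 <;> norm_num at h3
    · right
      rw [e1] at h3
      have e2 : F k b = -1 := by linarith
      have hb := hFm k b e2
      refine ⟨?_, hb⟩
      rcases hFv l a with e3 | e3 | e3
      · exfalso
        rw [e3] at h4
        rcases hFv l b with e4 | e4 | e4 <;> rw [e4] at h4 <;> norm_num at h4
      · exact hFm l a e3
      · exfalso
        rw [e3] at h4
        have e4 : F l b = 1 := by linarith
        have h5 := hF1 l b e4
        apply hlbk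
        rw [← h5, hb]
  have hNkl : LinearMap.toMatrix' N k l ≠ 0 := by
    have e1 : F k k = 1 := if_pos rfl
    have e2 : F k l = 0 := by
      show (if l = k then (1 : ℚ) else if l = bar k then -1 else 0) = 0
      rw [if_neg hlk, if_neg hlbk]
    have e3 : F l l = 1 := if_pos rfl
    have e4 : F l k = 0 := by
      show (if k = l then (1 : ℚ) else if k = bar l then -1 else 0) = 0
      have : k ≠ bar l := by
        intro h5
        apply hlbk
        rw [h5, hbb]
      rw [if_neg (Ne.symm hlk), if_neg this]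
    rw [hNe, hZe, hp, hp', e1, e2, e3, e4]
    norm_num
    exact hXkl
  have hbl : bar l ≠ l := hbne l
  refine ⟨N, hN, ?_, ?_, ?_⟩
  · apply LinearMap.toMatrix'.injective
    rw [LinearMap.toMatrix'_mul, map_zero]
    ext a b
    rw [Matrix.mul_apply, Matrix.zero_apply]
    refine Finset.sum_eq_zero fun c _ => ?_
    by_contra h1
    rcases hentry a c (left_ne_zero_of_mul h1) with ⟨-, h2⟩ | ⟨-, h2⟩ <;>
      rcases hentry c b (right_ne_zero_of_mul h1) with ⟨h3, -⟩ | ⟨h3, -⟩
    · exact hlk (h2.symm.trans h3)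
    · exact hbl (h3.symm.trans h2)
    · exact hbne k (h2.symm.trans h3)
    · exact hlk (bar.injective (h3.symm.trans h2))
  · intro h0
    rw [h0, map_zero] at hNkl
    exact hNkl rfl
  · have h1 : LinearMap.range N ≤ Submodule.span K (({Pi.single k 1, Pi.single (bar l) 1} : Finset (κ → K)) : Set (κ → K)) := by
      rintro _ ⟨v, rfl⟩
      have h2 : N v = (N v k) • Pi.single k 1 + (N v (bar l)) • Pi.single (bar l) 1 := by
        ext a
        rw [Pi.add_apply, Pi.smul_apply, Pi.smul_apply, smul_eq_mul, smul_eq_mul]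
        have h3 : ∀ a, N v a = ∑ b, LinearMap.toMatrix' N a b * v b := by
          intro a
          have h4 : N v = LinearMap.toMatrix' N *ᵥ v := by
            rw [← Matrix.toLin'_apply, Matrix.toLin'_toMatrix']
          rw [h4]
          rfl
        have hkbl : k ≠ bar l := by
          intro h5
          apply hlbk
          rw [h5, hbb]
        by_cases ha : a = k
        · rw [ha, Pi.single_eq_same, Pi.single_eq_of_ne hkbl, mul_one, mul_zero, add_zero]
        · by_cases ha' : a = bar l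
          · rw [ha', Pi.single_eq_same, Pi.single_eq_of_ne (Ne.symm hkbl), mul_one, mul_zero, zero_add]
          · rw [Pi.single_eq_of_ne ha, Pi.single_eq_of_ne ha', mul_zero, mul_zero, add_zero, h3]
            refine Finset.sum_eq_zero fun b _ => ?_
            by_contra h5
            rcases hentry a b (left_ne_zero_of_mul h5) with ⟨h6, -⟩ | ⟨h6, -⟩
            · exact ha h6
            · exact ha' h6
      rw [h2]
      refine Submodule.add_mem _ (Submodule.smul_mem _ _ (Submodule.subset_span ?_))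
        (Submodule.smul_mem _ _ (Submodule.subset_span ?_))
      · simp
      · simp
    calc finrank K (LinearMap.range N) ≤ finrank K (Submodule.span K
          (({Pi.single k 1, Pi.single (bar l) 1} : Finset (κ → K)) : Set (κ → K))) := Submodule.finrank_mono h1
      _ ≤ ({Pi.single k 1, Pi.single (bar l) 1} : Finset (κ → K)).card := finrank_span_finset_le_card _
      _ ≤ 2 := Finset.card_le_two

/-- **One block, all odd functions.** -/
theorem full_of_odd (h : TS L J) (hY : Yo L = Y) (h1 : IsBlock (1 : Module.End ℚ Y))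
    (two : ∀ k : ℕ, 4 ≤ k → Fintype.card κ ≠ 2 ^ k)
    {bar : Equiv.Perm κ} (hbb : ∀ k, bar (bar k) = k) (hbne : ∀ k, bar k ≠ k)
    (hodd : ∀ f : κ → ℚ, (∀ k, f (bar k) = -f k) → f ∈ Y)
    {X : Module.End K (κ → K)} (hX : adjE J X = -X) : X ∈ L := by
  obtain ⟨I, hF⟩ := simple_of_one h hY h1 two
  subst hY
  rcases Cmp.simple h.cmp hF with h2 | ⟨n, hn, -, hn2, -⟩ | ⟨k, hk, hk2, hk3, hk4⟩
  · exact h2 X hX
  · rw [Module.finrank_fintype_fun_eq_card] at hn2
    exact absurd hn2 (two n (by omega))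
  · exfalso
    rw [Module.finrank_fintype_fun_eq_card] at hk3
    have h5 : 6 ≤ (k - 1).centralBinom := by
      have h6 : Nat.centralBinom 2 ≤ (k - 1).centralBinom := Nat.centralBinom_strictMono.monotone (by omega)
      have h7 : Nat.centralBinom 2 = 6 := by decide
      omega
    have h6 : (k - 1).centralBinom ≤ k.centralBinom := Nat.centralBinom_strictMono.monotone (by omega)
    obtain ⟨N, hN, hN2, hN0, hr⟩ := exists_small h.cmp hbb hbne (fun f hf => Yo_mem (hodd f hf)) (by omega)
    have h7 := hk4 N hN hN2 hN0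
    omega

end Pool.Agent.H86K
end

-- from Lib.H45Q.S2
section

/-!
# S2: all odd functions are in the configuration: the component is full
-/

set_option autoImplicit false
set_option linter.unusedSectionVars false
namespace Pool.Agent.H45Q
open Module Matrix Pool.Agent.H53Toric Pool.Agent.H76P Pool.Agent.H76Q
open Pool.Agent.H76T (IsIdeal Fam)
open Pool.Agent.H76V (Cmp alg calg)

section
variable {κ : Type*} [Fintype κ] [DecidableEq κ] {Y : Submodule ℚ (κ → ℚ)} {P : Module.End ℚ Y}

/-- The elementary odd functions. -/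
def od (bar : Equiv.Perm κ) (k : κ) : κ → ℚ := fun x => if x = k then 1 else if x = bar k then -1 else 0

theorem od_self (bar : Equiv.Perm κ) (k : κ) : od bar k k = 1 := if_pos rfl

theorem od_odd {bar : Equiv.Perm κ} (hbb : ∀ k, bar (bar k) = k) (hbne : ∀ k, bar k ≠ k) (k x : κ) :
    od bar k (bar x) = -od bar k x := by
  unfold od
  by_cases h1 : x = k
  · subst h1
    rw [if_neg (hbne x), if_pos rfl, if_pos rfl]
  · by_cases h2 : x = bar k
    · subst h2
      rw [hbb, if_pos rfl, if_neg (hbne k), if_pos rfl, neg_neg]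
    · rw [if_neg h1, if_neg h2, if_neg, if_neg, neg_zero]
      · exact fun h => h1 (bar.injective h)
      · intro h
        apply h2
        rw [← h, hbb]

theorem od_cases (bar : Equiv.Perm κ) (k x : κ) : (x = k ∧ od bar k x = 1) ∨ (x ≠ k ∧ (od bar k x = 0 ∨ od bar k x = -1)) := by
  unfold od
  by_cases h1 : x = k
  · exact Or.inl ⟨h1, if_pos h1⟩
  · refine Or.inr ⟨h1, ?_⟩
    rw [if_neg h1]
    by_cases h2 : x = bar k
    · exact Or.inr (if_pos h2)
    · exact Or.inl (if_neg h2)

theorem cz_symm {k k' : κ} (h : cz P k k') : cz P k' k := fun f => (h f).symm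

theorem cz_trans {k k' k'' : κ} (h : cz P k k') (h' : cz P k' k'') : cz P k k'' := fun f => (h f).trans (h' f)

/-- The configuration of all odd functions does not split. -/
theorem sp_odd {bar : Equiv.Perm κ} (hbb : ∀ k, bar (bar k) = k) (hbne : ∀ k, bar k ≠ k)
    (hodd : ∀ f : κ → ℚ, (∀ k, f (bar k) = -f k) → f ∈ Y) (hsk : ∀ f ∈ Y, ∀ k, f (bar k) = -f k)
    (hn : 4 < Fintype.card κ) (hP : Sp P) : P = 0 ∨ P = 1 := by
  have hpair : ∀ k k', k' ≠ k → k' ≠ bar k → cz P k k' ∨ cz (1 - P) k k' := by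
    intro k k' h1 h2
    obtain ⟨c, hc⟩ := hP.mix k k'
    obtain ⟨c', hc'⟩ := hP.mix k' k
    have hsum : ∀ f : Y, (f : κ → ℚ) c + (f : κ → ℚ) c' = (f : κ → ℚ) k + (f : κ → ℚ) k' := by
      intro f
      rw [hc f, hc' f]
      ring
    have key : ∀ x x', x' ≠ x → x' ≠ bar x → (∀ f : Y, (f : κ → ℚ) c + (f : κ → ℚ) c' = (f : κ → ℚ) x + (f : κ → ℚ) x') →
        c = x ∨ c' = x := by
      intro x x' h1 h2 h3
      have h4 := h3 ⟨od bar x, hodd _ (od_odd hbb hbne x)⟩
      have h5 : od bar x x' = 0 := by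
        unfold od
        rw [if_neg h1, if_neg h2]
      change od bar x c + od bar x c' = od bar x x + od bar x x' at h4
      rw [h5, od_self, add_zero] at h4
      rcases od_cases bar x c with ⟨h6, -⟩ | ⟨-, h6⟩
      · exact Or.inl h6
      · rcases od_cases bar x c' with ⟨h7, -⟩ | ⟨-, h7⟩
        · exact Or.inr h7
        · exfalso
          rcases h6 with h6 | h6 <;> rcases h7 with h7 | h7 <;> rw [h6, h7] at h4 <;> norm_num at h4
    have h3 : c = k → cz P k k' := by
      rintro rfl f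
      have h4 := hc f
      linarith
    have h4 : c = k' → cz (1 - P) k k' := by
      intro h4 f
      have h5 := hc f
      rw [h4] at h5
      change (f : κ → ℚ) k - (P f : κ → ℚ) k = (f : κ → ℚ) k' - (P f : κ → ℚ) k'
      linarith
    rcases key k k' h1 h2 hsum with h5 | h5
    · exact Or.inl (h3 h5)
    · rcases key k' k (Ne.symm h1) (fun h => h2 (by rw [h, hbb])) (fun f => by rw [hsum f, add_comm]) with h6 | h6
      · exact Or.inr (h4 h6)
      · exact absurd (h6.symm.trans h5) h1
  have hboth : ∀ k k', cz P k k' → cz (1 - P) k k' → k' = k := by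
    intro k k' h1 h2
    have h3 := h1 ⟨od bar k, hodd _ (od_odd hbb hbne k)⟩
    have h4 := h2 ⟨od bar k, hodd _ (od_odd hbb hbne k)⟩
    have h5 : od bar k k = od bar k k' := by
      change od bar k k - _ = od bar k k' - _ at h4
      linarith
    rw [od_self] at h5
    rcases od_cases bar k k' with ⟨h6, -⟩ | ⟨-, h6⟩
    · exact h6
    · exfalso
      rcases h6 with h6 | h6 <;> rw [h6] at h5 <;> norm_num at h5
  by_cases hP0 : P = 0
  · exact Or.inl hP0
  right
  obtain ⟨k, hk⟩ : ∃ k, ¬ cz P k (bar k) := by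
    by_contra hcon
    push Not at hcon
    apply hP0
    refine LinearMap.ext fun f => Subtype.ext (funext fun k => ?_)
    have h1 := hcon k f
    have h2 := hsk _ (P f).2 k
    rw [h2] at h1
    change (P f : κ → ℚ) k = 0
    linarith
  have hex : ∀ x, ∃ y, y ≠ k ∧ y ≠ bar k ∧ y ≠ x ∧ y ≠ bar x := by
    intro x
    by_contra hcon
    push Not at hcon
    have h1 : (Finset.univ : Finset κ) ⊆ {k, bar k, x, bar x} := by
      intro y _
      rw [Finset.mem_insert, Finset.mem_insert, Finset.mem_insert, Finset.mem_singleton]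
      by_contra h2
      push Not at h2
      exact h2.2.2.2 (hcon y h2.1 h2.2.1 h2.2.2.1)
    have h2 := Finset.card_le_card h1
    rw [Finset.card_univ] at h2
    have h3 := Finset.card_le_four (a := k) (b := bar k) (c := x) (d := bar x)
    omega
  have hstep : ∀ k, ¬ cz P k (bar k) → (∀ x, ∃ y, y ≠ k ∧ y ≠ bar k ∧ y ≠ x ∧ y ≠ bar x) →
      ∀ x, x ≠ k → x ≠ bar k → ¬ cz P k x := by
    intro k hk hex x hx1 hx2 hA
    obtain ⟨y, hy1, hy2, hy3, hy4⟩ := hex x
    have hb2 : ∀ z, z ≠ k → z ≠ bar (bar k) := fun z h => by rwa [hbb]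
    have h1 : cz (1 - P) (bar k) x := by
      rcases hpair (bar k) x hx2 (hb2 x hx1) with h | h
      · exact absurd (cz_trans hA (cz_symm h)) hk
      · exact h
    rcases hpair k y hy1 hy2 with h2 | h2
    · have h3 : cz (1 - P) (bar k) y := by
        rcases hpair (bar k) y hy2 (hb2 y hy1) with h | h
        · exact absurd (cz_trans h2 (cz_symm h)) hk
        · exact h
      exact hy3 (hboth x y (cz_trans (cz_symm hA) h2) (cz_trans (cz_symm h1) h3))
    · rcases hpair (bar k) y hy2 (hb2 y hy1) with h3 | h3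
      · rcases hpair x y hy3 hy4 with h4 | h4
        · exact hk (cz_trans hA (cz_trans h4 (cz_symm h3)))
        · exact hy2 (hboth (bar k) y h3 (cz_trans h1 h4))
      · have h4 : cz (1 - P) k x := cz_trans h2 (cz_trans (cz_symm h3) h1)
        exact hx1 (hboth k x hA h4)
  have h1 := hstep k hk hex
  have h2 : ∀ x, x ≠ bar k → x ≠ k → ¬ cz P (bar k) x := by
    intro x hx1 hx2
    refine hstep (bar k) (fun h => hk (cz_symm (by rwa [hbb] at h))) (fun x => ?_) x hx1 (by rwa [hbb])
    obtain ⟨y, hy1, hy2, hy3, hy4⟩ := hex x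
    exact ⟨y, hy2, by rwa [hbb], hy3, hy4⟩
  have h3 : ∀ x, x ≠ k → x ≠ bar k → cz (1 - P) k x := fun x hx1 hx2 =>
    (hpair k x hx1 hx2).resolve_left (h1 x hx1 hx2)
  have h4 : ∀ x, x ≠ k → x ≠ bar k → cz (1 - P) (bar k) x := fun x hx1 hx2 =>
    (hpair (bar k) x hx2 (by rwa [hbb])).resolve_left (h2 x hx2 hx1)
  have h5 : cz (1 - P) k (bar k) := by
    obtain ⟨y, hy1, hy2, -, -⟩ := hex k
    exact cz_trans (h3 y hy1 hy2) (cz_symm (h4 y hy1 hy2))
  have h6 : ∀ x, cz (1 - P) k x := by
    intro x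
    by_cases hx1 : x = k
    · subst hx1
      exact fun f => rfl
    · by_cases hx2 : x = bar k
      · subst hx2
        exact h5
      · exact h3 x hx1 hx2
  have h7 : (1 : Module.End ℚ Y) - P = 0 := by
    refine LinearMap.ext fun f => Subtype.ext (funext fun x => ?_)
    have h8 := h6 x f
    have h9 := h6 (bar x) f
    have h10 := hsk _ ((1 - P) f).2 x
    change (((1 - P) f : Y) : κ → ℚ) x = 0
    linarith
  exact (sub_eq_zero.1 h7).symm

end

section
variable {κ : Type*} {K : Type*} [Field K] [CharZero K] [Fintype κ] [DecidableEq κ]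
  {L : Submodule K (Module.End K (κ → K))} {J : Matrix κ κ K} [IsAlgClosed K] [Nonempty κ]
  {Y : Submodule ℚ (κ → ℚ)}

theorem full_odd (h : TS L J) (hY : Yo L = Y)
    {bar : Equiv.Perm κ} (hbb : ∀ k, bar (bar k) = k) (hbne : ∀ k, bar k ≠ k)
    (hodd : ∀ f : κ → ℚ, (∀ k, f (bar k) = -f k) → f ∈ Y) (hsk : ∀ f ∈ Y, ∀ k, f (bar k) = -f k)
    {X : Module.End K (κ → K)} (hX : adjE J X = -X) : X ∈ L := by
  classical
  subst hY
  obtain ⟨m, I, hF⟩ := Pool.Agent.H76T.exists_fam h.cmp.lie h.cmp.irr h.cmp.tr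
  rcases Nat.lt_or_ge m 2 with hm | hm
  · interval_cases m
    · exfalso
      have hL : L = ⊥ := by
        rw [← hF.sup]
        exact iSup_of_empty _
      have h2 : ∀ y ∈ L, y * y = 1 → False := by
        intro y hy hy2
        rw [hL, Submodule.mem_bot] at hy
        rw [hy, mul_zero] at hy2
        exact zero_ne_one hy2
      obtain ⟨c, hc⟩ := h.cmp.gen X fun y hy hy2 => (h2 y hy hy2).elim
      -- every operator is scalar, hence the space has dimension one, which contradicts the symplectic form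
      have h3 : Subsingleton κ := by
        refine ⟨fun a b => ?_⟩
        by_contra hab
        obtain ⟨f, hf, hfab⟩ := h.sep a b hab
        obtain ⟨c', hc'⟩ := h.cmp.gen (dq f) fun y hy hy2 => (h2 y hy hy2).elim
        apply hfab
        have h4 := congrFun (congrArg (fun T : Module.End K (κ → K) => T fun _ => 1) hc') a
        have h5 := congrFun (congrArg (fun T : Module.End K (κ → K) => T fun _ => 1) hc') b
        unfold dq at h4 h5
        simp only [dg_apply, LinearMap.smul_apply, Module.End.one_apply, Pi.smul_apply, smul_eq_mul, mul_one] at h4 h5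
        have h6 : ((f a : ℚ) : K) = ((f b : ℚ) : K) := by rw [h4, h5]
        exact_mod_cast h6
      obtain ⟨a⟩ := ‹Nonempty κ›
      have h4 : J.det = J a a := by
        have : Unique κ := ⟨⟨a⟩, fun b => Subsingleton.elim b a⟩
        exact Matrix.det_eq_elem_of_subsingleton J a
      have h5 : J a a = -J a a := by
        have h6 := congrFun (congrFun h.cmp.Jt a) a
        rwa [Matrix.transpose_apply, Matrix.neg_apply] at h6
      have h6 : J a a = 0 := self_eq_neg.1 h5
      have h7 := h.cmp.Jd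
      rw [h4, h6] at h7
      exact not_isUnit_zero h7
    · have hcase : ∀ N ∈ L, N * N = 0 → N ≠ 0 → 3 ≤ Fintype.card κ →
          ∃ N ∈ L, N * N = 0 ∧ N ≠ 0 ∧ finrank K (LinearMap.range N) ≤ 2 := fun N _ _ _ hn =>
        Pool.Agent.H86K.exists_small h.cmp hbb hbne (fun f hf => Yo_mem (hodd f hf)) hn
      rcases Cmp.simple h.cmp hF with h2 | ⟨n, hn, -, hn2, hn3⟩ | ⟨k, hk, hk2, hk3, hk4⟩
      · exact h2 X hX
      · exfalso
        rw [Module.finrank_fintype_fun_eq_card] at hn2
        have h32 : 2 ^ 5 ≤ 2 ^ n := Nat.pow_le_pow_right (by norm_num) hn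
        have h5 : 32 ≤ Fintype.card κ := by
          rw [hn2]
          exact h32
        obtain ⟨N, hN, hN2, hN0, hr⟩ := Pool.Agent.H86K.exists_small h.cmp hbb hbne
          (fun f hf => Yo_mem (hodd f hf)) (by omega)
        have h7 := hn3 N hN hN2 hN0
        rw [Module.finrank_fintype_fun_eq_card] at h7
        omega
      · exfalso
        rw [Module.finrank_fintype_fun_eq_card] at hk3
        have h5 : 6 ≤ (k - 1).centralBinom := by
          have h6 : Nat.centralBinom 2 ≤ (k - 1).centralBinom := Nat.centralBinom_strictMono.monotone (by omega)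
          have h7 : Nat.centralBinom 2 = 6 := by decide
          omega
        have h6 : (k - 1).centralBinom ≤ k.centralBinom := Nat.centralBinom_strictMono.monotone (by omega)
        obtain ⟨N, hN, hN2, hN0, hr⟩ := Pool.Agent.H86K.exists_small h.cmp hbb hbne
          (fun f hf => Yo_mem (hodd f hf)) (by omega)
        have h7 := hk4 N hN hN2 hN0
        omega
  · exfalso
    have hij : (⟨0, by omega⟩ : Fin m) ≠ ⟨1, by omega⟩ := by
      intro e
      exact absurd (congrArg Fin.val e) (by norm_num)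
    set i : Fin m := ⟨0, by omega⟩ with hi
    set j : Fin m := ⟨1, by omega⟩ with hj
    rcases Nat.lt_or_ge 4 (Fintype.card κ) with hn | hle
    · obtain ⟨P, hP1, hP2, hP3, hPS⟩ := exists_proj h.cmp hF i
      have hSp : Sp P := Sp_iff.2 hPS
      obtain ⟨f, hf, hf0, hfi⟩ := h.exists_diag hF i
      obtain ⟨f', hf', hf0', hfi'⟩ := h.exists_diag hF j
      rcases sp_odd hbb hbne hodd hsk hn hSp with h3 | h3
      · have h4 := hP2 ⟨f, hf⟩ hfi
        rw [h3, LinearMap.zero_apply] at h4
        exact hf0 (congrArg Subtype.val h4).symm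
      · have h4 := hP3 j (Ne.symm hij) ⟨f', hf'⟩ hfi'
        rw [h3, Module.End.one_apply] at h4
        exact hf0' (congrArg Subtype.val h4)
    · obtain ⟨a, d, ha, hd, hV, ha2, hd2, -, -⟩ := h.cmp.dims hF (i := i) (j := j) hij
      rw [Module.finrank_fintype_fun_eq_card] at hV
      have hpos : 0 < Fintype.card κ := Fintype.card_pos
      have ha0 : a = 2 := by
        obtain ⟨a', rfl⟩ := ha2
        obtain ⟨d', rfl⟩ := hd2
        have ha' : 0 < a' := by
          rcases Nat.eq_zero_or_pos a' with e | e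
          · rw [e] at hV
            simp at hV
          · exact e
        have hd' : 0 < d' := by
          rcases Nat.eq_zero_or_pos d' with e | e
          · rw [e] at hV
            simp at hV
          · exact e
        have h5 : a' * d' ≤ 1 := by
          have h6 : (a' + a') * (d' + d') ≤ 4 := by rw [← hV]; exact hle
          nlinarith
        have h6 : a' ≤ 1 := by nlinarith
        omega
      obtain ⟨u, hu, hu0, hu2⟩ := h.cmp.nil hF j
      have h5 : 4 ∣ finrank K (LinearMap.range u) := h.cmp.four hF hij ha ha0 hu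
      have h6 : finrank K (LinearMap.range u) ≤ finrank K (LinearMap.ker u) := by
        refine Submodule.finrank_mono ?_
        rintro _ ⟨x, rfl⟩
        rw [LinearMap.mem_ker]
        exact congrArg (fun T : Module.End K (κ → K) => T x) hu2
      have h7 := LinearMap.finrank_range_add_finrank_ker u
      rw [Module.finrank_fintype_fun_eq_card] at h7
      have h8 : finrank K (LinearMap.range u) = 0 := by
        obtain ⟨c, hc⟩ := h5
        omega
      apply hu0
      rw [Submodule.finrank_eq_zero] at h8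
      exact LinearMap.range_eq_bot.1 h8

end

end Pool.Agent.H45Q
end

-- from Lib.H76W.Pr
section

/-!
# linked idempotents of two components
-/

set_option autoImplicit false
set_option linter.unusedSectionVars false
namespace Pool.Agent.H76W
open Module Matrix Polynomial TensorProduct Pool.Agent.H53Toric
open Pool.Agent.H76P Pool.Agent.H76Q Pool.Agent.H76Y
open Pool.Agent.H76T (IsIdeal Fam Lc)
open Pool.Agent.H76V (Cmp)
open Pool.Agent.H76U (cmp preL IsSplitting)
open Pool.Agent.H76RM (spanK similD)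

variable {ι : Type*} [Fintype ι] [DecidableEq ι] {D : Subalgebra ℚ (Matrix ι ι ℚ)}

theorem pr_of_linked2 {ψ : Matrix ι ι ℚ} {M : Type*} [Field M] [NumberField M] {m : ℕ} {bar : Fin m → Fin m}
    {e : Fin m → Matrix ι ι M} (hspl : IsSplitting D ψ bar e) {Ω : Type*} [Field Ω] [CharZero Ω]
    (j : M →+* Ω) (s : Ω ≃+* Ω) (c₀ b : Fin m)
    (h : Linked D ((e c₀).map j) ((e b).map (s.toRingHom.comp j))) :
    Pr D ((e c₀).map j) ((e b).map (s.toRingHom.comp j)) := by
  obtain ⟨d, hd, hne⟩ := h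
  have S1 := hspl.map j
  have S2 := hspl.map (s.toRingHom.comp j)
  set e₁ : Matrix ι ι Ω := (e c₀).map j with he₁
  set e₂ : Matrix ι ι Ω := (e b).map (s.toRingHom.comp j) with he₂
  have m1 : e₁ ∈ spanK Ω D := S1.mem c₀
  have m2 : e₂ ∈ spanK Ω D := S2.mem b
  have i1 : e₁ * e₁ = e₁ := S1.idem c₀
  have i2 : e₂ * e₂ = e₂ := S2.idem b
  have n1 : e₁ ≠ 0 := S1.ne_zero c₀
  have n2 : e₂ ≠ 0 := S2.ne_zero b
  -- a generator on which `w` does not vanish
  obtain ⟨x, hx, b', hb'⟩ : ∃ x ∈ spanK Ω D, ∃ b', e₁ * d * e₂ * x * (e b').map j ≠ 0 := by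
    by_contra hcon
    push Not at hcon
    apply hne
    have h1 : ∀ v : ι → Ω, (e₁ * d * e₂) *ᵥ v = 0 := by
      intro v
      refine Submodule.span_induction (p := fun v _ => (e₁ * d * e₂) *ᵥ v = 0) ?_ ?_ ?_ ?_
        (S1.full v)
      · rintro _ ⟨x, hx, b', u, rfl⟩
        rw [Matrix.mulVec_mulVec, Matrix.mulVec_mulVec, hcon x hx b', Matrix.zero_mulVec]
      · rw [Matrix.mulVec_zero]
      · intro y z _ _ hy hz
        rw [Matrix.mulVec_add, hy, hz, add_zero]
      · intro c y _ hy
        rw [Matrix.mulVec_smul, hy, smul_zero]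
    ext i k
    have h2 := congrFun (h1 (Pi.single k 1)) i
    rw [Matrix.mulVec_single_one] at h2
    exact h2
  have hbb : b' = c₀ := by
    by_contra hcon
    apply hb'
    have h1 := S1.orth c₀ b' (Ne.symm hcon) (d * (e₂ * x))
      (H76U.spanK_mul hd (H76U.spanK_mul m2 hx))
    rw [← h1]
    simp only [Matrix.mul_assoc, he₁]
  subst hbb
  have hb'' : e₁ * (d * (e₂ * x)) * e₁ ≠ 0 := by
    intro h1
    apply hb'
    rw [← h1]
    simp only [Matrix.mul_assoc, he₁]
  obtain ⟨c, hc⟩ := S1.corner b' (d * (e₂ * x)) (H76U.spanK_mul hd (H76U.spanK_mul m2 hx))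
  change e₁ * (d * (e₂ * x)) * e₁ = c • e₁ at hc
  have hc0 : c ≠ 0 := by
    intro h1
    apply hb''
    rw [hc, h1, zero_smul]
  obtain ⟨c', hc'⟩ := S2.corner b (x * (e₁ * d)) (H76U.spanK_mul hx (H76U.spanK_mul m1 hd))
  change e₂ * (x * (e₁ * d)) * e₂ = c' • e₂ at hc'
  have ha'a : e₁ * d * e₂ * (c⁻¹ • (e₂ * x * e₁)) = e₁ := by
    rw [Matrix.mul_smul]
    calc c⁻¹ • (e₁ * d * e₂ * (e₂ * x * e₁)) = c⁻¹ • (e₁ * (d * ((e₂ * e₂) * x)) * e₁) := by
          simp only [Matrix.mul_assoc]
      _ = e₁ := by rw [i2, hc, smul_smul, inv_mul_cancel₀ hc0, one_smul]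
  have haa' : c⁻¹ • (e₂ * x * e₁) * (e₁ * d * e₂) = (c⁻¹ * c') • e₂ := by
    rw [Matrix.smul_mul]
    calc c⁻¹ • (e₂ * x * e₁ * (e₁ * d * e₂)) = c⁻¹ • (e₂ * (x * ((e₁ * e₁) * d)) * e₂) := by
          simp only [Matrix.mul_assoc]
      _ = (c⁻¹ * c') • e₂ := by rw [i1, hc', smul_smul]
  have ht : c⁻¹ * c' = 1 := by
    set t := c⁻¹ * c' with ht
    set A := c⁻¹ • (e₂ * x * e₁) with hA
    set A' := e₁ * d * e₂ with hA'
    have h1 : A * A' * (A * A') = A * A' := by
      calc A * A' * (A * A') = A * ((A' * A) * A') := by simp only [Matrix.mul_assoc]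
        _ = A * (e₁ * A') := by rw [ha'a]
        _ = A * A' := by
          have h7 : e₁ * A' = A' := by
            rw [hA']
            calc e₁ * (e₁ * d * e₂) = (e₁ * e₁) * d * e₂ := by simp only [Matrix.mul_assoc]
              _ = e₁ * d * e₂ := by rw [i1]
          rw [h7]
    rw [haa', Matrix.smul_mul, Matrix.mul_smul, i2, smul_smul] at h1
    have h2 : (t * t - t) • e₂ = 0 := by rw [sub_smul, h1, sub_self]
    have h3 : t * t - t = 0 := (smul_eq_zero.1 h2).resolve_right n2
    have h4 : t ≠ 0 := by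
      intro h0
      apply n1
      have h5 : A' * A * (A' * A) = 0 := by
        calc A' * A * (A' * A) = A' * ((A * A') * A) := by simp only [Matrix.mul_assoc]
          _ = 0 := by rw [haa', h0, zero_smul, Matrix.zero_mul, Matrix.mul_zero]
      rw [ha'a, i1] at h5
      exact h5
    have h5 : t * (t - 1) = 0 := by rw [← h3]; ring
    exact sub_eq_zero.1 ((mul_eq_zero.1 h5).resolve_left h4)
  rw [ht, one_smul] at haa'
  refine ⟨c⁻¹ • (e₂ * x * e₁), (spanK Ω D).smul_mem _ (H76U.spanK_mul (H76U.spanK_mul m2 hx) m1),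
    e₁ * d * e₂, H76U.spanK_mul (H76U.spanK_mul m1 hd) m2, haa', ha'a, ?_, ?_, ?_, ?_⟩
  · rw [← Matrix.mul_assoc, ← Matrix.mul_assoc, i1]
  · rw [Matrix.mul_assoc, i2]
  · rw [Matrix.mul_smul, ← Matrix.mul_assoc, ← Matrix.mul_assoc, i2]
  · rw [Matrix.smul_mul, Matrix.mul_assoc, i1]

end Pool.Agent.H76W
end

-- from Lib.H76Q.X4a
section

/-!
# the dimension of the algebra of the first factor
-/

set_option autoImplicit false
set_option linter.unusedSectionVars false
namespace Pool.Agent.H76Q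
open Module Matrix Polynomial TensorProduct Pool.Agent.H53Toric
open Pool.Agent.H76P
open Pool.Agent.H76T (IsIdeal Fam Lc)
open Pool.Agent.H76V (Cmp)
open Pool.Agent.H76U (cmp preL IsSplitting)
open Pool.Agent.H76RM (spanK similD)

variable {κ : Type*} {K : Type*} [Field K] [CharZero K] [Fintype κ] [DecidableEq κ]
  {L : Submodule K (Module.End K (κ → K))} {J : Matrix κ κ K} [IsAlgClosed K] [Nonempty κ]
  {Y : Submodule ℚ (κ → ℚ)} {P : Module.End ℚ Y}

/-- PROOF. `C` = the set of the `k` with `cz (1 - P) k k₀`, finite with `N` elements.  The linear map which sends `X ∈ AZ L P` to the family of the entries `(c', k')`, `c', k' ∈ C`, of its matrix, is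
injective: let these entries of `X` be `0`, and let `c`, `k` be arbitrary.  If `X c k ≠ 0` then `cz (1 - P) c k` (`entry_cz` for `1 - P`, note `1 - (1 - P) = P`).  By `Sp.exists_mx` there are `k'`, `c' ∈ C` with `cz P k' k`,
`cz P c' c`, and (`exB`) `B ∈ AZ L (1 - P)` with `B c' c ≠ 0`.  The entry `(c', k)` of `B * X`: `B c' d * X d k ≠ 0` implies `cz P c' d`, `cz (1 - P) d k`, so `cz P d c` and `cz (1 - P) d c`, `d = c` (`cz_both`, `h.sep`); so it is
`B c' c * X c k`.  The entry `(c', k)` of `X * B` (`AZ_comm`): `X c' d * B d k ≠ 0` implies `cz (1 - P) c' d`, `cz P d k`, so `d = k'`, and `X c' k' = 0`.  So `X c k = 0`. -/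
theorem az_dim (h : TS L J) (hY : Yo L = Y) (hP : Sp P) (hc : Comp L P) (k₀ : κ) {N : ℕ}
    (hN : Nat.card {k // cz (1 - P) k k₀} = N) : finrank K (AZ L P) ≤ N ^ 2 := by
  classical
  have hsep : ∀ a b : κ, a ≠ b → ∃ f ∈ Y, f a ≠ f b := by
    rw [← hY]
    exact h.sep
  have hc' : Comp L (1 - P) := by
    intro m I hI j
    rcases hc m I hI j with h1 | h1
    · right
      rw [c4_compl2]
      exact h1
    · left
      exact h1
  have hent : ∀ X ∈ AZ L P, ∀ c k : κ, LinearMap.toMatrix' X c k ≠ 0 → cz (1 - P) c k := by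
    intro X hX c k hne
    refine entry_cz h hY (c4_compl hP) hc' (B := X) ?_ hne
    rw [c4_compl2]
    exact hX
  have hinj0 : ∀ X ∈ AZ L P, (∀ c k : κ, cz (1 - P) c k₀ → cz (1 - P) k k₀ →
      LinearMap.toMatrix' X c k = 0) → X = 0 := by
    intro X hX hX0
    have hall : ∀ c k : κ, LinearMap.toMatrix' X c k = 0 := by
      intro c k
      by_contra hne
      have hck := hent X hX c k hne
      obtain ⟨k', hk1, hk2⟩ := hP.exists_mx k k₀
      obtain ⟨c', hc1, hc2⟩ := hP.exists_mx c k₀
      obtain ⟨B, hB, hB0⟩ := exB h hY hP hc (cz_symm hc1)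
      have hcomm : B * X = X * B := (AZ_comm h hY hP X hX B hB).symm
      have e1 : LinearMap.toMatrix' (B * X) c' k =
          LinearMap.toMatrix' B c' c * LinearMap.toMatrix' X c k := by
        rw [LinearMap.toMatrix'_mul, Matrix.mul_apply, Finset.sum_eq_single c]
        · intro d _ hd
          by_contra h0
          have h1 : LinearMap.toMatrix' B c' d ≠ 0 := left_ne_zero_of_mul h0
          have h2 : LinearMap.toMatrix' X d k ≠ 0 := right_ne_zero_of_mul h0
          apply hd
          exact cz_both hsep (cz_trans (cz_symm (entry_cz h hY hP hc hB h1)) hc1)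
            (cz_trans (hent X hX d k h2) (cz_symm hck))
        · intro hn
          exact absurd (Finset.mem_univ c) hn
      have e2 : LinearMap.toMatrix' (X * B) c' k = 0 := by
        rw [LinearMap.toMatrix'_mul, Matrix.mul_apply]
        refine Finset.sum_eq_zero fun d _ => ?_
        by_contra h0
        have h1 : LinearMap.toMatrix' X c' d ≠ 0 := left_ne_zero_of_mul h0
        have h2 : LinearMap.toMatrix' B d k ≠ 0 := right_ne_zero_of_mul h0
        have h3 : cz (1 - P) d k₀ := cz_trans (cz_symm (hent X hX c' d h1)) hc2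
        exact h1 (hX0 c' d hc2 h3)
      rw [hcomm, e2] at e1
      rcases mul_eq_zero.1 e1.symm with h1 | h1
      · exact hB0 h1
      · exact hne h1
    have h3 : LinearMap.toMatrix' X = 0 := by
      ext c k
      exact hall c k
    exact (LinearEquiv.map_eq_zero_iff _).1 h3
  let C := {k // cz (1 - P) k k₀}
  have : Fintype C := Fintype.ofFinite C
  let ρ : AZ L P →ₗ[K] (C × C → K) :=
    { toFun := fun X q => LinearMap.toMatrix' (X : Module.End K (κ → K)) q.1 q.2
      map_add' := fun X X' => by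
        funext q
        simp
      map_smul' := fun a X => by
        funext q
        simp }
  have hρ : Function.Injective ρ := by
    rw [injective_iff_map_eq_zero]
    intro X hX
    apply Subtype.ext
    refine hinj0 X X.2 fun c k h1 h2 => ?_
    exact congrFun hX (⟨c, h1⟩, ⟨k, h2⟩)
  have h4 := LinearMap.finrank_le_finrank_of_injective hρ
  rw [Module.finrank_fintype_fun_eq_card, Fintype.card_prod, ← Nat.card_eq_fintype_card] at h4
  rw [sq, ← hN]
  exact h4

end Pool.Agent.H76Q
end

-- from Lib.H76Q.X4c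
section

/-!
# the two algebras and the tensor product
-/

set_option autoImplicit false
set_option linter.unusedSectionVars false
namespace Pool.Agent.H76Q
open Module Matrix Polynomial TensorProduct Pool.Agent.H53Toric
open Pool.Agent.H76P
open Pool.Agent.H76T (IsIdeal Fam Lc)
open Pool.Agent.H76V (Cmp)
open Pool.Agent.H76U (cmp preL IsSplitting)
open Pool.Agent.H76RM (spanK similD)

variable {κ : Type*} {K : Type*} [Field K] [CharZero K] [Fintype κ] [DecidableEq κ]
  {L : Submodule K (Module.End K (κ → K))} {J : Matrix κ κ K} [IsAlgClosed K] [Nonempty κ]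
  {Y : Submodule ℚ (κ → ℚ)} {P : Module.End ℚ Y}

theorem x4c_inj {K V W : Type*} [Field K] [AddCommMonoid V] [Module K V] [Module.Free K V]
    [Module.Finite K V] [AddCommMonoid W] [Module K W] [Module.Free K W] [Module.Finite K W]
    (h : finrank K V = finrank K W) (f : V →ₗ[K] W) (hf : Function.Surjective f) :
    Function.Injective f := by
  have b1 := Module.Free.chooseBasis K V
  have b2 := Module.Free.chooseBasis K W
  let e1 := b1.equivFun
  let e2 := b2.equivFun
  have h1 : Function.Surjective ((e2.toLinearMap ∘ₗ f) ∘ₗ e1.symm.toLinearMap) := by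
    intro w
    obtain ⟨v, hv⟩ := hf (e2.symm w)
    refine ⟨e1 v, ?_⟩
    show e2 (f (e1.symm (e1 v))) = w
    rw [LinearEquiv.symm_apply_apply, hv, LinearEquiv.apply_symm_apply]
  have h2 : finrank K (Module.Free.ChooseBasisIndex K V → K) =
      finrank K (Module.Free.ChooseBasisIndex K W → K) := by
    rw [← e1.finrank_eq, ← e2.finrank_eq, h]
  have h3 := (LinearMap.injective_iff_surjective_of_finrank_eq_finrank h2).2 h1
  intro x y hxy
  apply e1.injective
  apply h3
  show e2 (f (e1.symm (e1 x))) = e2 (f (e1.symm (e1 y)))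
  rw [LinearEquiv.symm_apply_apply, LinearEquiv.symm_apply_apply, hxy]

/-- PROOF. The bilinear map `(a, b) ↦ a * b` gives a linear map `Φ` from the tensor product; it is onto by `c4_top`; the dimension of the tensor product is at most `N ^ 2 * N' ^ 2 = (card κ) ^ 2` (`az_dim` for `P` and for
`1 - P` with the same `k₀`, `card_mul_cz`), which is the dimension of the target, so `Φ` is bijective (`LinearMap.linearEquivOfInjective` or `LinearEquiv.ofBijective`; a surjective map between finite dimensional spaces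
with `finrank source ≤ finrank target` is injective). -/
theorem az_tensor (h : TS L J) (hY : Yo L = Y) (hP : Sp P) (hc : Comp L P) :
    ∃ Φ : (AZ L P ⊗[K] AZ L (1 - P)) ≃ₗ[K] Module.End K (κ → K),
      ∀ (a : AZ L P) (b : AZ L (1 - P)), Φ (a ⊗ₜ[K] b) = (a : Module.End K (κ → K)) * b := by
  obtain ⟨k₀⟩ := ‹Nonempty κ›
  have : Nonempty κ := ⟨k₀⟩
  let B : AZ L P →ₗ[K] AZ L (1 - P) →ₗ[K] Module.End K (κ → K) :=
    (LinearMap.mul K (Module.End K (κ → K))).compl₁₂ (AZ L P).val.toLinearMap
      (AZ L (1 - P)).val.toLinearMap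
  let Φ : (AZ L P ⊗[K] AZ L (1 - P)) →ₗ[K] Module.End K (κ → K) := TensorProduct.lift B
  have hΦ : ∀ (a : AZ L P) (b : AZ L (1 - P)), Φ (a ⊗ₜ[K] b) = (a : Module.End K (κ → K)) * b := by
    intro a b
    rfl
  have hsurj : Function.Surjective Φ := by
    have h1 : Subalgebra.toSubmodule (AZ L P) * Subalgebra.toSubmodule (AZ L (1 - P)) ≤
        LinearMap.range Φ := by
      rw [Submodule.mul_le]
      intro m hm n hn
      exact ⟨(⟨m, hm⟩ : AZ L P) ⊗ₜ[K] (⟨n, hn⟩ : AZ L (1 - P)), hΦ _ _⟩
    intro X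
    exact h1 (c4_top h hY hP hc X)
  have hc' : Comp L (1 - P) := by
    intro m I hI j
    rcases hc m I hI j with h1 | h1
    · right
      rw [c4_compl2]
      exact h1
    · left
      exact h1
  have d1 := az_dim h hY hP hc k₀ rfl
  have d2 := az_dim h hY (c4_compl hP) hc' k₀ rfl
  rw [c4_compl2] at d2
  have hsep : ∀ a b : κ, a ≠ b → ∃ f ∈ Y, f a ≠ f b := by
    rw [← hY]
    exact h.sep
  have hcard := card_mul_cz hsep hP k₀
  have f1 : Module.Free K (AZ L P) := by
    exact Module.Free.of_divisionRing K (AZ L P)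
  have f2 : Module.Free K (AZ L (1 - P)) := by
    exact Module.Free.of_divisionRing K (AZ L (1 - P))
  have hle : finrank K (AZ L P ⊗[K] AZ L (1 - P)) ≤ finrank K (Module.End K (κ → K)) := by
    rw [Module.finrank_tensorProduct]
    have h2 : finrank K (Module.End K (κ → K)) = Fintype.card κ * Fintype.card κ := by
      rw [Module.finrank_linearMap, Module.finrank_fintype_fun_eq_card]
    rw [h2]
    calc finrank K (AZ L P) * finrank K (AZ L (1 - P))
        ≤ Nat.card {k // cz (1 - P) k k₀} ^ 2 * Nat.card {k // cz P k k₀} ^ 2 :=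
          Nat.mul_le_mul d1 d2
      _ = Fintype.card κ * Fintype.card κ := by
          rw [hcard]
          ring
  have hge : finrank K (Module.End K (κ → K)) ≤ finrank K (AZ L P ⊗[K] AZ L (1 - P)) := by
    have h3 := LinearMap.finrank_range_le Φ
    rw [LinearMap.range_eq_top.2 hsurj, finrank_top] at h3
    exact h3
  have hinj : Function.Injective Φ := x4c_inj (le_antisymm hle hge) Φ hsurj
  exact ⟨LinearEquiv.ofBijective Φ ⟨hinj, hsurj⟩, fun a b => hΦ a b⟩

end Pool.Agent.H76Q
end

-- from Lib.H76Q.X5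
section

/-!
# the product of the two traces
-/

set_option autoImplicit false
set_option linter.unusedSectionVars false
namespace Pool.Agent.H76Q
open Module Matrix Polynomial TensorProduct Pool.Agent.H53Toric
open Pool.Agent.H76P
open Pool.Agent.H76T (IsIdeal Fam Lc)
open Pool.Agent.H76V (Cmp)
open Pool.Agent.H76U (cmp preL IsSplitting)
open Pool.Agent.H76RM (spanK similD)

variable {κ : Type*} {K : Type*} [Field K] [CharZero K] [Fintype κ] [DecidableEq κ]
  {L : Submodule K (Module.End K (κ → K))} {J : Matrix κ κ K} [IsAlgClosed K] [Nonempty κ]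
  {Y : Submodule ℚ (κ → ℚ)} {P : Module.End ℚ Y}

theorem x5_trace {K V W : Type*} [Field K] [AddCommMonoid V] [Module K V] [Module.Free K V]
    [Module.Finite K V] [AddCommMonoid W] [Module K W] [Module.Free K W] [Module.Finite K W]
    (f : V →ₗ[K] V) (g : W →ₗ[K] W) : LinearMap.trace K (V ⊗[K] W) (TensorProduct.map f g) =
      LinearMap.trace K V f * LinearMap.trace K W g := by
  let i1 : AddCommGroup V := Module.addCommMonoidToAddCommGroup K
  let i2 : AddCommGroup W := Module.addCommMonoidToAddCommGroup K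
  exact LinearMap.trace_tensorProduct' f g

theorem x5_conj {K V W : Type*} [Field K] [AddCommMonoid V] [Module K V] [AddCommMonoid W]
    [Module K W] (f : V →ₗ[K] V) (e : V ≃ₗ[K] W) :
    LinearMap.trace K W (e.conj f) = LinearMap.trace K V f := by
  let i1 : AddCommGroup V := Module.addCommMonoidToAddCommGroup K
  let i2 : AddCommGroup W := Module.addCommMonoidToAddCommGroup K
  exact LinearMap.trace_conj' f e

/-- PROOF. `Φ` as in `az_tensor`.  `adjE J (a * b) = adjE J b * adjE J a = adjE J a * adjE J b` (`adjE_mul`, `AZ_comm`, `adj_AZ`), so `adjE J ∘ Φ = Φ ∘ (f ⊗ g)` (`TensorProduct.ext'`), and the trace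
of `adjE J` is the trace of `TensorProduct.map f g` (`LinearMap.trace_conj'`), i.e. the product (`LinearMap.trace_tensorProduct'`).  `tr_adj` with `h.cmp.Jt`, `h.cmp.Jd`. -/
theorem tr_prod (h : TS L J) (hY : Yo L = Y) (hP : Sp P) (hc : Comp L P)
    (f : AZ L P →ₗ[K] AZ L P) (hf : ∀ X : AZ L P, (f X : Module.End K (κ → K)) = adjE J X)
    (g : AZ L (1 - P) →ₗ[K] AZ L (1 - P))
    (hg : ∀ X : AZ L (1 - P), (g X : Module.End K (κ → K)) = adjE J X) :
    LinearMap.trace K (AZ L P) f * LinearMap.trace K (AZ L (1 - P)) g = -(Fintype.card κ : K) := by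
  obtain ⟨Φ, hΦ⟩ := az_tensor h hY hP hc
  have h1 : Φ.conj (TensorProduct.map f g) = adjE J := by
    have h2 : adjE J ∘ₗ Φ.toLinearMap = Φ.toLinearMap ∘ₗ TensorProduct.map f g := by
      refine TensorProduct.ext' fun a b => ?_
      show adjE J (Φ (a ⊗ₜ[K] b)) = Φ (TensorProduct.map f g (a ⊗ₜ[K] b))
      rw [TensorProduct.map_tmul, hΦ, hΦ, hf, hg, adjE_mul h.cmp.Jd]
      exact (AZ_comm h hY hP _ (adj_AZ h a.2) _ (adj_AZ h b.2)).symm
    refine LinearMap.ext fun X => ?_
    obtain ⟨y, rfl⟩ := Φ.surjective X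
    rw [LinearEquiv.conj_apply_apply, LinearEquiv.symm_apply_apply]
    exact (LinearMap.congr_fun h2 y).symm
  have f1 : Module.Free K (AZ L P) := by
    exact Module.Free.of_divisionRing K (AZ L P)
  have f2 : Module.Free K (AZ L (1 - P)) := by
    exact Module.Free.of_divisionRing K (AZ L (1 - P))
  rw [← x5_trace f g, ← x5_conj (TensorProduct.map f g) Φ, h1]
  exact tr_adj h.cmp.Jt h.cmp.Jd

end Pool.Agent.H76Q
end

-- from Lib.H76Q.X7
section

/-!
# no semilinear automorphism exchanges the two factors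
-/

set_option autoImplicit false
set_option linter.unusedSectionVars false
namespace Pool.Agent.H76Q
open Module Matrix Polynomial TensorProduct Pool.Agent.H53Toric
open Pool.Agent.H76P
open Pool.Agent.H76T (IsIdeal Fam Lc)
open Pool.Agent.H76V (Cmp)
open Pool.Agent.H76U (cmp preL IsSplitting)
open Pool.Agent.H76RM (spanK similD)

variable {κ : Type*} {K : Type*} [Field K] [CharZero K] [Fintype κ] [DecidableEq κ]
  {L : Submodule K (Module.End K (κ → K))} {J : Matrix κ κ K} [IsAlgClosed K] [Nonempty κ]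
  {Y : Submodule ℚ (κ → ℚ)} {P : Module.End ℚ Y}

/-- PROOF. `f`, `g` = the restrictions of `adjE J` to `AZ L P`, `AZ L (1 - P)` (`adj_AZ`).  `f (f X) = X` (`adjE` is an involution because `Jᵀ = -J`; there is a lemma `adjE_adjE` or the like in H53Toric), so `trace f = t`,
`t` an integer (`tr_int`).  `θ` restricts to an additive bijection `AZ L P ≃+ AZ L (1 - P)` (`theta_AZ_mv`) which satisfies `θ (f X) = g (θ X)` (`Theta.adj`), so `trace g = τ t = t` (`tr_semi`).  `tr_prod`: `t * t = - card κ` in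
`K`, so in `ℤ`; but `card κ > 0`. -/
theorem no_swap (h : TS L J) (hY : Yo L = Y) (hP : Sp P) (hc : Comp L P)
    {θ : Module.End K (κ → K) ≃+* Module.End K (κ → K)} {τ : K ≃+* K}
    {σ : Equiv.Perm κ} (hθ : Theta L J θ τ σ) (hmv : MvP σ P (1 - P)) : False := by
  have hJJ : ∀ X : Module.End K (κ → K), adjE J (adjE J X) = X := fun X =>
    adjE_adjE h.cmp.Jt h.cmp.Jd X
  let f : AZ L P →ₗ[K] AZ L P :=
    { toFun := fun X => ⟨adjE J X, adj_AZ h X.2⟩
      map_add' := fun X X' => Subtype.ext (map_add (adjE J) _ _)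
      map_smul' := fun c X => Subtype.ext (map_smul (adjE J) c _) }
  let g : AZ L (1 - P) →ₗ[K] AZ L (1 - P) :=
    { toFun := fun X => ⟨adjE J X, adj_AZ h X.2⟩
      map_add' := fun X X' => Subtype.ext (map_add (adjE J) _ _)
      map_smul' := fun c X => Subtype.ext (map_smul (adjE J) c _) }
  let Θ : AZ L P ≃+ AZ L (1 - P) :=
    { toFun := fun X => ⟨θ X, (theta_AZ_mv hθ hY hmv _).1 X.2⟩
      invFun := fun X => ⟨θ.symm X, (theta_AZ_mv hθ hY hmv _).2 (by
        rw [RingEquiv.apply_symm_apply]; exact X.2)⟩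
      left_inv := fun X => Subtype.ext (θ.symm_apply_apply _)
      right_inv := fun X => Subtype.ext (θ.apply_symm_apply _)
      map_add' := fun X X' => Subtype.ext (map_add θ _ _) }
  have hsm : ∀ (c : K) (X : AZ L P), Θ (c • X) = τ c • Θ X := fun c X =>
    Subtype.ext (hθ.smul c (X : Module.End K (κ → K)))
  have hfg : ∀ X : AZ L P, Θ (f X) = g (Θ X) := fun X =>
    Subtype.ext (hθ.adj (X : Module.End K (κ → K)))
  have hff : ∀ X : AZ L P, f (f X) = X := fun X =>
    Subtype.ext (hJJ (X : Module.End K (κ → K)))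
  have h1 : LinearMap.trace K (AZ L (1 - P)) g = τ (LinearMap.trace K (AZ L P) f) :=
    tr_semi (V := AZ L P) (V' := AZ L (1 - P)) τ Θ hsm f g hfg
  obtain ⟨n, hn⟩ := tr_int (V := AZ L P) f hff
  have h2 := tr_prod h hY hP hc f (fun X => rfl) g (fun X => rfl)
  rw [h1, hn, map_intCast] at h2
  have h3 : ((n * n : ℤ) : K) = ((-(Fintype.card κ : ℤ) : ℤ) : K) := by
    push_cast
    exact h2
  have h4 : n * n = -(Fintype.card κ : ℤ) := Int.cast_injective h3
  have h5 : 0 < (Fintype.card κ : ℤ) := by exact_mod_cast Fintype.card_pos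
  nlinarith [mul_self_nonneg n]

end Pool.Agent.H76Q
end

-- from Lib.H76Q.W10a
section

/-!
# the number of classes of a decomposition
-/

set_option autoImplicit false
set_option linter.unusedSectionVars false
namespace Pool.Agent.H76Q
open Module Matrix Polynomial TensorProduct Pool.Agent.H53Toric
open Pool.Agent.H76P
open Pool.Agent.H76T (IsIdeal Fam Lc)
open Pool.Agent.H76V (Cmp)
open Pool.Agent.H76U (cmp preL IsSplitting)
open Pool.Agent.H76RM (spanK similD)

variable {κ : Type*} [Fintype κ] [DecidableEq κ] {Y : Submodule ℚ (κ → ℚ)} {P : Module.End ℚ Y}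

/-- The number of values of the first coordinate. -/
noncomputable def nz (P : Module.End ℚ Y) : ℕ := Nat.card (Quot (cz P))

/-- PROOF. `π` induces a bijection of the quotients (`MvP.1`). -/
theorem nz_mv {π : Equiv.Perm κ} {P' : Module.End ℚ Y} (hmv : MvP π P P') : nz P = nz P' := by
  unfold nz
  exact Nat.card_congr (Quot.congr π fun k k' => hmv.1 k k')

theorem w10a_equiv (P : Module.End ℚ Y) : Equivalence (cz P) :=
  ⟨fun _ _ => rfl, fun h => cz_symm h, fun h h' => cz_trans h h'⟩

/-- PROOF. `bar` induces an involution without fixed points on the quotient (`cz P` is an equivalence relation, `Quot.sound`, `Quot.exact` through `cz_symm`, `cz_trans`); a finite set with such an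
involution has an even number of elements (`Finset.card_involution`-type lemmas, or `Equiv.Perm` API; e.g. the sum of `1` over the set in `ZMod 2` is `0` by `Finset.sum_involution`). -/
theorem nz_even (bar : Equiv.Perm κ) (hbb : ∀ k, bar (bar k) = k)
    (hbar : ∀ k k', cz P k k' → cz P (bar k) (bar k')) (hne : ∀ k, ¬ cz P k (bar k)) :
    Even (nz P) := by
  classical
  have hE := w10a_equiv P
  have hfin : Finite (Quot (cz P)) := Finite.of_surjective (Quot.mk (cz P)) Quot.mk_surjective
  have : Fintype (Quot (cz P)) := Fintype.ofFinite _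
  obtain ⟨g, hg⟩ : ∃ g : Quot (cz P) → Quot (cz P), ∀ k, g (Quot.mk _ k) = Quot.mk _ (bar k) :=
    ⟨Quot.map bar hbar, fun k => rfl⟩
  have h1 : ∑ x : Quot (cz P), (1 : ZMod 2) = 0 := by
    refine Finset.sum_involution (fun x _ => g x) ?_ ?_ ?_ ?_
    · intro x _
      decide
    · intro x _ _
      obtain ⟨k, rfl⟩ := Quot.mk_surjective x
      rw [hg]
      intro h2
      have h3 := (hE.quot_mk_eq_iff _ _).1 h2
      exact hne k (cz_symm h3)
    · intro x _
      exact Finset.mem_univ _
    · intro x _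
      obtain ⟨k, rfl⟩ := Quot.mk_surjective x
      rw [hg, hg, hbb]
  rw [Finset.sum_const, Finset.card_univ, nsmul_eq_mul, mul_one] at h1
  rw [nz, Nat.card_eq_fintype_card]
  exact (ZMod.natCast_eq_zero_iff_even).1 h1

end Pool.Agent.H76Q
end

-- from Lib.H76Y.W10a
section

/-!
# the number of classes is even
-/

set_option autoImplicit false
set_option linter.unusedSectionVars false
namespace Pool.Agent.H76Y
open Module Matrix Polynomial Pool.Agent.H53Toric
open Pool.Agent.H76P Pool.Agent.H76Q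

variable {κ : Type*} [Fintype κ] [DecidableEq κ] {Y : Submodule ℚ (κ → ℚ)} {P : Module.End ℚ Y}

theorem w10a_fib (hsep : ∀ a b : κ, a ≠ b → ∃ f ∈ Y, f a ≠ f b) (hP : Sp P) (k₀ k₁ : κ) :
    Nat.card {k // cz P k k₀} ≤ Nat.card {k // cz P k k₁} := by
  choose m hm1 hm2 using hP.exists_mx
  let f : {k // cz P k k₀} → {k // cz P k k₁} := fun k => ⟨m k₁ k.1, hm1 k₁ k.1⟩
  refine Nat.card_le_card_of_injective f ?_
  rintro ⟨k, hk⟩ ⟨l, hl⟩ hkl
  have h1 : m k₁ k = m k₁ l := congrArg Subtype.val hkl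
  have a1 := hm2 k₁ k
  have a2 := hm2 k₁ l
  rw [← h1] at a2
  exact Subtype.ext (cz_both hsep (cz_trans hk (cz_symm hl)) (cz_trans (cz_symm a1) a2))

/-- If a function with the values `1`, `-1` and the sum `0` depends only on the first coordinate, then
the number of values of the first coordinate is even. -/
theorem nz_even2 (hsep : ∀ a b : κ, a ≠ b → ∃ f ∈ Y, f a ≠ f b) (hP : Sp P) {ε : κ → ℚ}
    (hε : FunP P ε) (hε1 : ∀ k, ε k = 1 ∨ ε k = -1) (hs : ∑ k, ε k = 0) [Nonempty κ] :
    Even (nz P) := by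
  classical
  have hE := w10a_equiv P
  have hfin : Finite (Quot (cz P)) := Finite.of_surjective (Quot.mk (cz P)) Quot.mk_surjective
  have : Fintype (Quot (cz P)) := Fintype.ofFinite _
  obtain ⟨k₀⟩ : Nonempty κ := inferInstance
  set N := Nat.card {k // cz P k k₀} with hN
  have hN0 : N ≠ 0 := by
    have h1 : Nonempty {k // cz P k k₀} := ⟨⟨k₀, hE.refl k₀⟩⟩
    exact Nat.card_pos.ne'
  have hNk : ∀ k₁, Nat.card {k // cz P k k₁} = N := fun k₁ =>
    le_antisymm (w10a_fib hsep hP k₁ k₀) (w10a_fib hsep hP k₀ k₁)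
  let g : Quot (cz P) → ℚ := Quot.lift ε fun k k' h => hε k k' h
  have hg : ∀ k, g (Quot.mk _ k) = ε k := fun k => rfl
  have h1 : ∑ k, ε k = ∑ x : Quot (cz P), (N : ℚ) * g x := by
    rw [← Finset.sum_fiberwise Finset.univ (fun k => Quot.mk (cz P) k) ε]
    refine Finset.sum_congr rfl fun x _ => ?_
    obtain ⟨k₁, rfl⟩ := Quot.mk_surjective x
    have h2 : ∀ k ∈ Finset.univ.filter (fun k => Quot.mk (cz P) k = Quot.mk (cz P) k₁), ε k = ε k₁ := by
      intro k hk
      exact hε k k₁ ((hE.quot_mk_eq_iff _ _).1 (Finset.mem_filter.1 hk).2)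
    rw [Finset.sum_congr rfl h2, Finset.sum_const, nsmul_eq_mul, hg]
    congr 1
    rw [← hNk k₁, Nat.card_eq_fintype_card, Fintype.card_subtype]
    norm_cast
    congr 1
    ext k
    rw [Finset.mem_filter, Finset.mem_filter]
    simp only [Finset.mem_univ, true_and]
    exact hE.quot_mk_eq_iff _ _
  rw [hs, ← Finset.mul_sum] at h1
  have h2 : ∑ x, g x = 0 := by
    rcases mul_eq_zero.1 h1.symm with h3 | h3
    · exact absurd h3 (by exact_mod_cast hN0)
    · exact h3
  have hg1 : ∀ x, g x = 1 ∨ g x = -1 := by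
    intro x
    obtain ⟨k, rfl⟩ := Quot.mk_surjective x
    exact hε1 k
  have h3 : ∑ x, g x = 2 * ((Finset.univ.filter (fun x => g x = 1)).card : ℚ) -
      (Fintype.card (Quot (cz P)) : ℚ) := by
    have h4 : ∀ x, g x = 2 * (if g x = 1 then 1 else 0) - 1 := by
      intro x
      rcases hg1 x with h5 | h5
      · rw [h5]; norm_num
      · rw [h5]; norm_num
    rw [Finset.sum_congr rfl fun x _ => h4 x, Finset.sum_sub_distrib, ← Finset.mul_sum,
      Finset.sum_boole, Finset.sum_const, Finset.card_univ, nsmul_eq_mul, mul_one]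
  rw [h2] at h3
  have h4 : ((Fintype.card (Quot (cz P)) : ℕ) : ℚ) =
      ((2 * (Finset.univ.filter (fun x => g x = 1)).card : ℕ) : ℚ) := by
    push_cast
    linarith
  have h5 := Nat.cast_injective h4
  rw [nz, Nat.card_eq_fintype_card, h5]
  exact even_two_mul _

end Pool.Agent.H76Y
end

-- from Lib.H45U.W10
section

/-!
# the classes of the first coordinate have the same number of elements
-/

set_option autoImplicit false
set_option linter.unusedSectionVars false
namespace Pool.Agent.H45U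
open Module Matrix Polynomial Pool.Agent.H53Toric
open Pool.Agent.H76P Pool.Agent.H76Q Pool.Agent.H76Y

variable {κ : Type*} [Fintype κ] [DecidableEq κ] {Y : Submodule ℚ (κ → ℚ)} {P : Module.End ℚ Y}

theorem w10_fib (hsep : ∀ a b : κ, a ≠ b → ∃ f ∈ Y, f a ≠ f b) (hP : Sp P) [Nonempty κ] :
    ∃ N : ℕ, Fintype.card κ = N * nz P ∧ ∀ f : κ → ℕ, FunP P f → N ∣ ∑ k, f k := by
  classical
  have hE := w10a_equiv P
  have hfin : Finite (Quot (cz P)) := Finite.of_surjective (Quot.mk (cz P)) Quot.mk_surjective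
  have : Fintype (Quot (cz P)) := Fintype.ofFinite _
  obtain ⟨k₀⟩ : Nonempty κ := inferInstance
  set N := Nat.card {k // cz P k k₀} with hN
  have hNk : ∀ k₁, Nat.card {k // cz P k k₁} = N := fun k₁ =>
    le_antisymm (w10a_fib hsep hP k₁ k₀) (w10a_fib hsep hP k₀ k₁)
  have key : ∀ f : κ → ℕ, ∀ g : Quot (cz P) → ℕ, (∀ k, g (Quot.mk _ k) = f k) →
      ∑ k, f k = N * ∑ x, g x := by
    intro f g hg
    rw [← Finset.sum_fiberwise Finset.univ (fun k => Quot.mk (cz P) k) f, Finset.mul_sum]
    refine Finset.sum_congr rfl fun x _ => ?_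
    obtain ⟨k₁, rfl⟩ := Quot.mk_surjective x
    have h2 : ∀ k ∈ Finset.univ.filter (fun k => Quot.mk (cz P) k = Quot.mk (cz P) k₁), f k = f k₁ := by
      intro k hk
      rw [← hg, ← hg, (Finset.mem_filter.1 hk).2]
    rw [Finset.sum_congr rfl h2, Finset.sum_const, smul_eq_mul, hg]
    congr 1
    rw [← hNk k₁, Nat.card_eq_fintype_card, Fintype.card_subtype]
    congr 1
    ext k
    rw [Finset.mem_filter, Finset.mem_filter]
    simp only [Finset.mem_univ, true_and]
    exact hE.quot_mk_eq_iff _ _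
  refine ⟨N, ?_, fun f hf => ?_⟩
  · have h1 := key (fun _ => 1) (fun _ => 1) fun _ => rfl
    rw [Finset.sum_const, Finset.sum_const, Finset.card_univ, Finset.card_univ, smul_eq_mul, mul_one,
      smul_eq_mul, mul_one] at h1
    rw [h1, nz, Nat.card_eq_fintype_card]
  · rw [key f (Quot.lift f fun k k' h => hf k k' h) fun _ => rfl]
    exact dvd_mul_right _ _

/-- The number of elements divides the number of values `1` times the number of classes. -/
theorem nz_dvd (hsep : ∀ a b : κ, a ≠ b → ∃ f ∈ Y, f a ≠ f b) (hP : Sp P) {ε : κ → ℚ}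
    (hε : FunP P ε) [Nonempty κ] :
    Fintype.card κ ∣ (Finset.univ.filter fun k => ε k = 1).card * nz P := by
  classical
  obtain ⟨N, h1, h2⟩ := w10_fib hsep hP
  obtain ⟨m, hm⟩ := h2 (fun k => if ε k = 1 then 1 else 0) fun k k' h => by
    show (if ε k = 1 then 1 else 0) = if ε k' = 1 then 1 else 0
    rw [hε k k' h]
  rw [← Finset.card_filter] at hm
  rw [h1, hm]
  exact ⟨m, by ring⟩

/-- A block which is not zero has at least two classes. -/
theorem nz_two {ε : κ → ℚ} (hε : FunP P ε) {k k' : κ} (hne : ε k ≠ ε k') : 2 ≤ nz P := by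
  have hE := w10a_equiv P
  have hfin : Finite (Quot (cz P)) := Finite.of_surjective (Quot.mk (cz P)) Quot.mk_surjective
  have h1 : Quot.mk (cz P) k ≠ Quot.mk (cz P) k' := fun h =>
    hne (hε k k' ((hE.quot_mk_eq_iff _ _).1 h))
  have h2 : Nontrivial (Quot (cz P)) := ⟨_, _, h1⟩
  exact Finite.one_lt_card

end Pool.Agent.H45U
end

-- from Lib.H76Q.W10b
section

/-!
# the number of points is the product over the blocks
-/

set_option autoImplicit false
set_option linter.unusedSectionVars false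
namespace Pool.Agent.H76Q
open Module Matrix Polynomial TensorProduct Pool.Agent.H53Toric
open Pool.Agent.H76P
open Pool.Agent.H76T (IsIdeal Fam Lc)
open Pool.Agent.H76V (Cmp)
open Pool.Agent.H76U (cmp preL IsSplitting)
open Pool.Agent.H76RM (spanK similD)

variable {κ : Type*} [Fintype κ] [DecidableEq κ] {Y : Submodule ℚ (κ → ℚ)}

/-- PROOF. `cnt` (file H76P/C0) is the number of values of `P.dualMap ∘ ptS Y`, and `P.dualMap (ptS Y k) = P.dualMap (ptS Y k')` is `cz P k k'`. -/
theorem nz_eq (P : Module.End ℚ Y) : nz P = cnt (ptS Y) P.dualMap := by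
  classical
  have hE := w10a_equiv P
  have hiff : ∀ k k', cz P k k' ↔ P.dualMap (ptS Y k) = P.dualMap (ptS Y k') := by
    intro k k'
    constructor
    · intro h
      exact LinearMap.ext fun f => h f
    · intro h f
      exact congrArg (fun φ : Module.Dual ℚ Y => φ f) h
  unfold nz cnt
  have h1 : ∀ k k', cz P k k' → P.dualMap (ptS Y k) = P.dualMap (ptS Y k') := fun k k' => (hiff k k').1
  have hfin : Finite (Quot (cz P)) := Finite.of_surjective (Quot.mk (cz P)) Quot.mk_surjective
  have : Fintype (Quot (cz P)) := Fintype.ofFinite _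
  rw [Nat.card_eq_fintype_card, ← Finset.card_univ]
  refine Finset.card_bij (fun x _ => Quot.lift (fun k => P.dualMap (ptS Y k)) h1 x) ?_ ?_ ?_
  · intro x _
    obtain ⟨k, rfl⟩ := Quot.mk_surjective x
    exact Finset.mem_image_of_mem _ (Finset.mem_univ k)
  · intro x _ y _ hxy
    obtain ⟨k, rfl⟩ := Quot.mk_surjective x
    obtain ⟨k', rfl⟩ := Quot.mk_surjective y
    exact Quot.sound ((hiff k k').2 hxy)
  · intro w hw
    obtain ⟨k, -, rfl⟩ := Finset.mem_image.1 hw
    exact ⟨Quot.mk _ k, Finset.mem_univ _, rfl⟩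

/-- PROOF. As in `count_blocks` (file G10): induction over the subsets with `cnt_add`, `Spl.add`; `cnt_one` for the sum `1` (`ptS_inj`). -/
theorem prod_nz [Nonempty κ] (hs : ∀ g ∈ Y, ∑ k, g k = 0)
    (hsep : ∀ k l : κ, k ≠ l → ∃ g ∈ Y, g k ≠ g l)
    {FF : Finset (Module.End ℚ Y)} (hFF : ∀ P ∈ FF, Sp P)
    (horth : ∀ P ∈ FF, ∀ P' ∈ FF, P ≠ P' → P * P' = 0) (hsum : ∑ P ∈ FF, P = 1) :
    Fintype.card κ = ∏ P ∈ FF, nz P := by
  classical
  have hS : Spans (ptS Y) := ptS_spans hs
  have hinj : Function.Injective (ptS Y) := ptS_inj hsep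
  have key : ∀ t : Finset (Module.End ℚ Y), t ⊆ FF → Spl (ptS Y) (∑ q ∈ t, q.dualMap) ∧
      cnt (ptS Y) (∑ q ∈ t, q.dualMap) = ∏ q ∈ t, cnt (ptS Y) q.dualMap := by
    intro t
    induction t using Finset.induction_on with
    | empty =>
      intro _
      rw [Finset.sum_empty, Finset.prod_empty]
      exact ⟨Spl.zero _, cnt_zero _⟩
    | insert a t ha ih =>
      intro hsub
      obtain ⟨i1, i2⟩ := ih ((Finset.subset_insert _ _).trans hsub)
      have haF : a ∈ FF := hsub (Finset.mem_insert_self _ _)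
      have hA := Sp_iff.1 (hFF a haF)
      have h0 : a.dualMap * ∑ q ∈ t, q.dualMap = 0 := by
        rw [Finset.mul_sum]
        refine Finset.sum_eq_zero fun q hq => ?_
        have hqF : q ∈ FF := hsub (Finset.mem_insert_of_mem hq)
        rw [← dualMap_mul, horth q hqF a haF, dualMap_zero]
        rintro rfl
        exact ha hq
      rw [Finset.sum_insert ha, Finset.prod_insert ha]
      exact ⟨Spl.add hS hA i1 h0, by rw [cnt_add hS hA i1 h0, i2]⟩
  have h3 := (key FF (Finset.Subset.refl _)).2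
  rw [← dualMap_sum, hsum, dualMap_one, cnt_one hinj] at h3
  rw [h3]
  exact Finset.prod_congr rfl fun P _ => (nz_eq P).symm

end Pool.Agent.H76Q
end

-- from Lib.H76Y.A8
section

/-!
# the local data for a component which is its own conjugate
-/

set_option autoImplicit false
set_option linter.unusedSectionVars false
namespace Pool.Agent.H76Y
open Module Matrix Polynomial Pool.Agent.H53Toric
open Pool.Agent.H76P Pool.Agent.H76Q
open Pool.Agent.H76T (IsIdeal Fam Lc)
open Pool.Agent.H76V (Cmp)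
open Pool.Agent.H76U (cmp preL IsSplitting)
open Pool.Agent.H76RM (spanK similD)

variable {ι : Type*} [Fintype ι] [DecidableEq ι] {K : Type*} [Field K] [CharZero K]
  [IsAlgClosed K]

variable {L : Type*} [Field L] [CharZero L] [Algebra L K] {G : Type*} [Group G]

/-- PROOF. `J = ψ.map`, `S = img K ρ H₀`, `𝓗 = properProj K ρ`.  `gram_basic`, `split4_of (hspl.map _)`, `mk_phT` (A4); `ts`: `mk_ts`, `yo`: `Yo_eq_YS` (A5), `YS_map` (A2);
`par`: fields `hi`, `hs` of `g.sh`, `H76V.preL_ec`, and `g4_mem` (see the proof of `eps_mem` in H76P/G4); `lie`: `lc_of_zlie` (G4); `C ∈ zlie S` commutes with `e` (`H76V.preL_ec` or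
`zlie_commute`).  `pos`: `e ≠ 0` (`hspl.ne_zero`).  `ht` gives the hypothesis of `mk_ts` (`i` is injective). -/
theorem mk_loc_old {ψ : Matrix ι ι ℚ}
    (hψ : ψᵀ = -ψ) (hψ0 : ψ.det ≠ 0) (D : Subalgebra ℚ (Matrix ι ι ℚ))
    (ρ : G →* Matrix.GeneralLinearGroup ι L)
    (lin : ∀ σ : G, ∀ d ∈ D, (ρ σ).1 * d.map (algebraMap ℚ L) =
      d.map (algebraMap ℚ L) * (ρ σ).1)
    (sim : ∀ σ : G, ∃ c : L, (ρ σ).1ᵀ * ψ.map (algebraMap ℚ L) * (ρ σ).1 =
      c • ψ.map (algebraMap ℚ L))
    (semis : ∀ H : Subgroup G, H.FiniteIndex → ∀ W : Submodule K (ι → K),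
      (∀ s ∈ img K ρ H, ∀ w ∈ W, s *ᵥ w ∈ W) →
      ∃ W' : Submodule K (ι → K), (∀ s ∈ img K ρ H, ∀ w ∈ W', s *ᵥ w ∈ W') ∧ IsCompl W W')
    (commt : ∀ H : Subgroup G, H.FiniteIndex → ∀ y : Matrix ι ι K,
      (∀ s ∈ img K ρ H, y * s = s * y) → y ∈ spanK K D)
    (gen : ∀ g : G, (ρ g).1.map (algebraMap L K) ∈ tgen K ρ)
    {M : Type*} [Field M] [CharZero M] {m : ℕ} {bar : Fin m → Fin m} {e : Fin m → Matrix ι ι M} {F : Fin m → M[X]}
    (hspl : IsSplitting D ψ bar e) {x : Matrix ι ι K} (hF : FrobT K ρ e F x) {q : ℚ}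
    (hmult : xᵀ * ψ.map (algebraMap ℚ K) * x = algebraMap ℚ K q • ψ.map (algebraMap ℚ K))
    {H₀ : Subgroup G} (hfin : H₀.FiniteIndex) (hprime : (H76RM.van (img K ρ H₀)).IsPrime)
    {Ω : Type*} [Field Ω] [IsAlgClosed Ω] (j : M →+* Ω) (i : Ω →+* K) (b : Fin m) (hb : bar b = b)
    {n : ℕ} {a : Fin n → Ω} (ha : Function.Injective a)
    (hroot : ∀ y : Ω, (F b).eval₂ j y = 0 ↔ ∃ k, y = a k)
    (ht : ∀ k l : Fin n, ∀ N : ℕ, N ≠ 0 → a k ^ N = a l ^ N → k = l) :
    ∃ (U : Matrix ι (Fin n) K) (V : Matrix (Fin n) ι K),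
      H76Q.Loc (ψ.map (algebraMap ℚ K)) (img K ρ H₀) (properProj K ρ) ((e b).map (i.comp j)) x
        (algebraMap ℚ K q) U V (fun k => i (a k)) (YS a) := by
  classical
  obtain ⟨hJ, hdet⟩ := gram_basic hψ hψ0 K
  have hsplK : IsSplitting D ψ bar (fun c => (e c).map (i.comp j)) := hspl.map (i.comp j)
  have hspl4 := Pool.Agent.H76U.split4_of hsplK
  have hι : Nonempty ι := by
    by_contra hemp
    rw [not_nonempty_iff] at hemp
    apply hsplK.ne_zero b
    ext i'
    exact (hemp.false i').elim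
  obtain ⟨φ', g⟩ := mk_phT (K := K) hψ hψ0 D ρ lin sim semis commt gen hF hfin hprime
  have hφe : x * (e b).map (i.comp j) = (e b).map (i.comp j) * x := g.φD _ (hspl4.mem b)
  obtain ⟨U, V, hUV, hVU, E⟩ := exists_ecT hF j i b (hspl.idem b) hφe.symm ha hroot
  have hn : 0 < n := by
    rw [Nat.pos_iff_ne_zero]
    rintro rfl
    apply hsplK.ne_zero b
    rw [hUV]
    ext i' j'
    rw [Matrix.mul_apply, Finset.univ_eq_empty, Finset.sum_empty]
    rfl
  have hadj : ((e b).map (i.comp j))ᵀ * ψ.map (algebraMap ℚ K) = ψ.map (algebraMap ℚ K) * (e b).map (i.comp j) := by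
    have h1 := hspl4.adj b
    rwa [hb] at h1
  refine ⟨U, V, ?_⟩
  refine
    { pos := hn
      UV := hUV
      VU := hVU
      ec := E
      ex := hφe.symm
      Jt := hJ
      Jd := hdet
      adj := hadj
      mult := hmult
      ts := ?_
      yo := ?_
      par := ?_
      lie := ?_ }
  · refine H76Q.mk_ts (b := b) hspl4 hb hJ hdet hUV hVU g E hn ?_
    intro k l N hN hkl
    refine ht k l N hN (i.injective ?_)
    rw [map_pow, map_pow]
    exact hkl
  · rw [H76Q.Yo_eq_YS (b := b) hspl4 hb hJ hdet hUV hVU g E hn]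
    exact YS_map i a
  · intro h hh
    have hxz := g.sh.hz h hh
    have hxs := g.sh.hs h hh
    have hxL : h ∈ preL (ψ.map (algebraMap ℚ K)) (img K ρ H₀) :=
      ⟨⟨0, h, hxz, by rw [zero_smul, add_zero]⟩, 1, by rw [hxs, one_smul]⟩
    refine ⟨g.sh.hi h hh, Pool.Agent.H76V.preL_ec (b := b) hspl4 g.sh hxL, hxs, ?_⟩
    refine H76P.g4_mem (b := b) hspl4 hb hdet hUV hVU g (A := (2 : K) • h - 1)
      ⟨-1, (2 : K) • h, (zlie (img K ρ H₀)).smul_mem _ hxz, by rw [neg_smul, one_smul, sub_eq_add_neg]⟩ ?_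
    rw [Matrix.transpose_sub, Matrix.transpose_smul, Matrix.transpose_one, sub_mul, mul_sub, smul_mul_assoc,
      one_mul, mul_smul_comm, mul_one]
    have h1 : (2 : K) • (hᵀ * ψ.map (algebraMap ℚ K)) - ψ.map (algebraMap ℚ K) +
        ((2 : K) • (ψ.map (algebraMap ℚ K) * h) - ψ.map (algebraMap ℚ K)) =
        (2 : K) • (hᵀ * ψ.map (algebraMap ℚ K) + ψ.map (algebraMap ℚ K) * h - ψ.map (algebraMap ℚ K)) := by
      rw [smul_sub, smul_add, two_smul K (ψ.map (algebraMap ℚ K))]
      abel
    rw [h1, hxs, sub_self, smul_zero]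
  · intro C hC
    refine ⟨?_, H76P.lc_of_zlie (b := b) hspl4 hb hdet hUV hVU g hC⟩
    exact Pool.Agent.H76RM.zlie_commute g.sh.one (fun s hs => g.sh.SD s hs _ (hspl4.mem b)) hC

end Pool.Agent.H76Y
end

-- from Lib.H76Q.W7
section

/-!
# the Newton function
-/

set_option autoImplicit false
set_option linter.unusedSectionVars false
namespace Pool.Agent.H76Q
open Module Matrix Polynomial Pool.Agent.H53Toric
open Pool.Agent.H76P
open Pool.Agent.H76T (IsIdeal Fam Lc)
open Pool.Agent.H76V (Cmp)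
open Pool.Agent.H76U (cmp preL IsSplitting)
open Pool.Agent.H76RM (spanK similD)

variable {ι : Type*} [Fintype ι] [DecidableEq ι] {ψ : Matrix ι ι ℚ}
    {D : Subalgebra ℚ (Matrix ι ι ℚ)} {M : Type*} [Field M] [NumberField M]
    {m : ℕ} {e : Fin m → Matrix ι ι M} {G : Type*} [Group G]
    {ρ : ∀ (l : ℕ) [Fact l.Prime], G →* Matrix.GeneralLinearGroup ι ℚ_[l]}
    {p : ℕ} [Fact p.Prime] {σ : G} {q : ℚ} {f : ℚ[X]} {F : Fin m → M[X]}
    {φ μ ν : Matrix ι ι (AlgebraicClosure ℚ_[p])} {v : AlgebraicClosure ℚ_[p] → ℚ}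
    {Δ : Set (AlgebraicClosure ℚ_[p] ≃+* AlgebraicClosure ℚ_[p])}
    {Ω : Type*} [Field Ω] [CharZero Ω] [IsAlgClosed Ω] [Algebra.IsAlgebraic ℚ Ω] {j : M →+* Ω}
    {R : Finset Ω} {N : Set ℕ} (C : Core2 ψ D e ρ p σ q f F φ μ ν v Δ j R N)

include C

/-- PROOF. `Core2.locp`.  `dq ε` is in an ideal `I` of `L = Lc J S U V` with `InP P I` or `InP (1 - P) I` (`inv_AZ`, `HT_spec`); the first is impossible (`ε` would be constant, `FunP_both`).  As in `H76P.vid_mem` (G8): the space
`{A | A commutes with e and phi (cmp U V A) ∈ I}` or `{U X V : X ∈ I}` is `adStable`, contains `(2 μ - 1) e`, so (`C.crys.newton`) `(ν - c) e`, so `dq (fun k => v (d k) - c) ∈ I` (`C.crys.nu`); `c` is the average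
(trace zero) and rational; so this function is in `Y` (`h.ts.diag`) and depends only on the second coordinate. -/
theorem Core2.newt (b : Fin m)
    {n : ℕ} {a : Fin n → Ω} (ha : Function.Injective a)
    (hroot : ∀ y : Ω, (F b).eval₂ j y = 0 ↔ ∃ k, y = a k)
    {P : Module.End ℚ (YS a)} (hP : Sp P) (hg : Good P) (i : Ω →+* AlgebraicClosure ℚ_[p])
    {ε : Fin n → ℚ} (hε : IsHT μ φ ((e b).map (i.comp j)) (fun k => i (a k)) ε)
    (hεP : FunP (1 - P) ε) : FunP (1 - P) (fun k => v (i (a k))) := by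
  obtain ⟨H₀, U, V, hfin, h⟩ := C.locp b ha hroot i
  have hμ := C.crys.mu
  have hμφ := C.crys.muphi
  obtain ⟨hphi, hεY, hε1⟩ := HT_spec h hμ hμφ hε
  obtain ⟨hμμ, hμe, -, hμL⟩ := h.par μ hμ
  have : Nonempty (Fin n) := ⟨⟨0, h.pos⟩⟩
  have hc : Comp (Lc (ψ.map (algebraMap ℚ (AlgebraicClosure ℚ_[p])))
      (img (AlgebraicClosure ℚ_[p]) (ρ p) H₀) U V) P := hg _ _ _ h.ts h.yo
  rw [hphi] at hμL
  have hsq : (dq ε : Module.End (AlgebraicClosure ℚ_[p]) (Fin n → AlgebraicClosure ℚ_[p])) * dq ε
      = 1 := by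
    unfold dq
    rw [dg_mul, ← dg_one]
    congr 1
    funext k
    rcases hε1 k with h1 | h1 <;> simp [h1]
  obtain ⟨I, hI, hεI, hIP⟩ := inv_AZ h.ts hc hμL hsq
  have hIP' : InP (1 - P) I := by
    rcases hIP with h1 | h1
    · exfalso
      have h2 : ε = 0 := FunP_both hP hεY.1 (h1 ε hεY hεI) hεP
      have h3 := hε1 ⟨0, h.pos⟩
      rw [h2] at h3
      rcases h3 with h3 | h3 <;> simp at h3
    · exact h1
  set E := (e b).map (i.comp j) with hE
  have hEE : E * E = E := by
    rw [h.UV]
    calc U * V * (U * V) = U * (V * U) * V := by simp only [Matrix.mul_assoc]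
      _ = U * V := by rw [h.VU, Matrix.mul_one]
  have heU : E * U = U := by rw [h.UV, Matrix.mul_assoc, h.VU, Matrix.mul_one]
  let I' : Submodule (AlgebraicClosure ℚ_[p]) (Matrix ι ι (AlgebraicClosure ℚ_[p])) :=
    { carrier := {A | A * E = A ∧ E * A = A ∧ phi (cmp U V A) ∈ I}
      add_mem' := by
        rintro A A' ⟨h1, h2, h3⟩ ⟨h4, h5, h6⟩
        refine ⟨by rw [Matrix.add_mul, h1, h4], by rw [Matrix.mul_add, h2, h5], ?_⟩
        rw [map_add, map_add]
        exact I.add_mem h3 h6
      zero_mem' := by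
        refine ⟨Matrix.zero_mul _, Matrix.mul_zero _, ?_⟩
        rw [map_zero, map_zero]
        exact I.zero_mem
      smul_mem' := by
        rintro c A ⟨h1, h2, h3⟩
        refine ⟨by rw [Matrix.smul_mul, h1], by rw [Matrix.mul_smul, h2], ?_⟩
        rw [map_smul, map_smul]
        exact I.smul_mem _ h3 }
  have hmem : ∀ A, A ∈ I' ↔ A * E = A ∧ E * A = A ∧ phi (cmp U V A) ∈ I := fun A => Iff.rfl
  have hstab : adStable (zlie (img (AlgebraicClosure ℚ_[p]) (ρ p) H₀)) I' := by
    intro Z hZ A hA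
    obtain ⟨h1, h2, h3⟩ := (hmem A).1 hA
    obtain ⟨hCe, c, hc⟩ := h.lie Z hZ
    rw [hmem]
    refine ⟨?_, ?_, ?_⟩
    · rw [Matrix.sub_mul, Matrix.mul_assoc, h1, Matrix.mul_assoc, hCe, ← Matrix.mul_assoc, h1]
    · rw [Matrix.mul_sub, ← Matrix.mul_assoc, ← Matrix.mul_assoc, h2, ← hCe, Matrix.mul_assoc, h2]
    · have hC' : (Z - c • 1) * E = E * (Z - c • 1) := by
        rw [Matrix.sub_mul, Matrix.mul_sub, hCe, Matrix.smul_mul, Matrix.mul_smul, Matrix.one_mul,
          Matrix.mul_one]
      have hA' : A * E = E * A := by rw [h1, h2]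
      have e1 : Z * A - A * Z = (Z - c • 1) * A - A * (Z - c • 1) := by
        rw [Matrix.sub_mul, Matrix.mul_sub, Matrix.smul_mul, Matrix.mul_smul, Matrix.one_mul,
          Matrix.mul_one]
        abel
      rw [e1, map_sub, H76U.cmp_mul h.UV h.VU hA', H76U.cmp_mul h.UV h.VU hC', map_sub, map_mul,
        map_mul]
      exact hI.2 _ hc _ h3
  have hbase : ((2 : AlgebraicClosure ℚ_[p]) • μ - 1) * E ∈ I' := by
    have hye : ((2 : AlgebraicClosure ℚ_[p]) • μ - 1) * E =
        E * ((2 : AlgebraicClosure ℚ_[p]) • μ - 1) := by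
      rw [Matrix.sub_mul, Matrix.mul_sub, Matrix.smul_mul, Matrix.mul_smul, Matrix.one_mul,
        Matrix.mul_one, hμe]
    rw [hmem]
    refine ⟨by rw [Matrix.mul_assoc, hEE], by rw [← Matrix.mul_assoc, ← hye, Matrix.mul_assoc, hEE], ?_⟩
    have e2 : cmp U V (((2 : AlgebraicClosure ℚ_[p]) • μ - 1) * E) =
        cmp U V ((2 : AlgebraicClosure ℚ_[p]) • μ - 1) := by
      rw [H76U.cmp_apply, H76U.cmp_apply]
      rw [← Matrix.mul_assoc V, Matrix.mul_assoc _ E U, heU]
    rw [e2, hphi]
    exact hεI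
  obtain ⟨c, hc⟩ := C.crys.newton (i.comp j) b H₀ hfin I' hstab hbase
  have hc2 := ((hmem _).1 hc).2.2
  have hν : ν * U = U * Matrix.diagonal (fun k => (v (i (a k)) : AlgebraicClosure ℚ_[p])) := by
    ext x k
    have h1 : φ *ᵥ (fun x => U x k) = (i (a k)) • (fun x => U x k) := by
      have h2 := h.ec.eig
      funext y
      have h3 := congrFun (congrFun h2 y) k
      rw [Matrix.mul_diagonal] at h3
      rw [Pi.smul_apply, smul_eq_mul, mul_comm, ← h3]
      rfl
    have h2 := congrFun (C.crys.nu _ _ h1) x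
    rw [Matrix.mul_diagonal, mul_comm]
    exact h2
  have e3 : cmp U V ((ν - c • 1) * E) =
      Matrix.diagonal (fun k => (v (i (a k)) : AlgebraicClosure ℚ_[p]) - c) := by
    rw [H76U.cmp_apply, ← Matrix.mul_assoc V, Matrix.mul_assoc _ E U, heU, Matrix.mul_sub,
      Matrix.sub_mul, Matrix.mul_assoc, hν, ← Matrix.mul_assoc, h.VU, Matrix.one_mul, Matrix.mul_smul,
      Matrix.mul_one, Matrix.smul_mul, h.VU]
    ext i j
    by_cases hij : i = j
    · subst hij
      simp
    · simp [Matrix.diagonal_apply_ne _ hij, Matrix.one_apply_ne hij]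
  rw [e3, phi_diag] at hc2
  have htr := h.ts.cmp.tr _ (hI.1 hc2)
  rw [dg_trace, Finset.sum_sub_distrib, Finset.sum_const, Finset.card_univ, Fintype.card_fin,
    nsmul_eq_mul] at htr
  have hn0 : (n : AlgebraicClosure ℚ_[p]) ≠ 0 := by exact_mod_cast h.pos.ne'
  have hcv : c = (∑ k, (v (i (a k)) : AlgebraicClosure ℚ_[p])) / n := by
    rw [eq_div_iff hn0]
    linear_combination -htr
  have e4 : (dq (fun k => v (i (a k)) - (∑ l, v (i (a l))) / n) :
      Module.End (AlgebraicClosure ℚ_[p]) (Fin n → AlgebraicClosure ℚ_[p])) =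
      dg (fun k => (v (i (a k)) : AlgebraicClosure ℚ_[p]) - c) := by
    unfold dq
    congr 1
    funext k
    rw [hcv]
    push_cast
    ring
  rw [← e4] at hc2
  have hY := h.ts.diag _ (hI.1 hc2)
  rw [h.yo] at hY
  have hfun := hIP' _ hY hc2
  intro k k' hk
  have h5 := hfun k k' hk
  exact sub_left_injective h5

/-- PROOF. Otherwise `FunP (1 - P) ε` for all `i`, `ε` (`HT_or`), so `v (i (a k)) = v (i (a k'))` for all `i` if `cz (1 - P) k k'` (`Core2.newt`), so `k = k'` (`C.gal`).  But `P ≠ 0`, so `cz P k k'` fails for some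
`k`, `k'`; `c` with `cz P c k`, `cz (1 - P) c k'` (`Sp.exists_mx`) is `k'`: contradiction.  (`i`, `ε` exist: `Core2.locp`, `exists_HT`.) -/
theorem Core2.onto (b : Fin m)
    {n : ℕ} {a : Fin n → Ω} (ha : Function.Injective a)
    (hroot : ∀ y : Ω, (F b).eval₂ j y = 0 ↔ ∃ k, y = a k)
    {P : Module.End ℚ (YS a)} (hP : Sp P) (hg : Good P) (hP0 : P ≠ 0) :
    ∃ (i : Ω →+* AlgebraicClosure ℚ_[p]) (ε : Fin n → ℚ),
      IsHT μ φ ((e b).map (i.comp j)) (fun k => i (a k)) ε ∧ FunP P ε := by
  by_contra hcon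
  push Not at hcon
  have hμ := C.crys.mu
  have hμφ := C.crys.muphi
  have hall : ∀ i : Ω →+* AlgebraicClosure ℚ_[p], FunP (1 - P) (fun k => v (i (a k))) := by
    intro i
    obtain ⟨H₀, U, V, hfin, h⟩ := C.locp b ha hroot i
    obtain ⟨ε, hε⟩ := exists_HT h hμ hμφ
    have hc : Comp (Lc (ψ.map (algebraMap ℚ (AlgebraicClosure ℚ_[p])))
      (img (AlgebraicClosure ℚ_[p]) (ρ p) H₀) U V) P := hg _ _ _ h.ts h.yo
    rcases HT_or h hμ hμφ hε hc with h1 | h1
    · exact absurd h1 (hcon i ε hε)
    · exact C.newt b ha hroot hP hg i hε h1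
  have hkk : ∀ k k', cz (1 - P) k k' → k = k' := by
    intro k k' hk
    by_contra hne
    obtain ⟨i, hi⟩ := C.gal b (a k) (a k') ((hroot _).2 ⟨k, rfl⟩) ((hroot _).2 ⟨k', rfl⟩)
      (fun h1 => hne (ha h1))
    exact hi (hall i k k' hk)
  apply hP0
  refine LinearMap.ext fun f => Subtype.ext ?_
  have hconst : ∀ k k', (P f : Fin n → ℚ) k = (P f : Fin n → ℚ) k' := by
    intro k k'
    obtain ⟨c, hc1, hc2⟩ := hP.exists_mx k k'
    have h1 := hkk c k' hc2
    rw [h1] at hc1
    exact (hc1 f).symm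
  have hsum := (P f).2.1
  funext k
  have h1 : (n : ℚ) * (P f : Fin n → ℚ) k = 0 := by
    rw [← hsum, Finset.sum_congr rfl fun l _ => hconst l k, Finset.sum_const, Finset.card_univ,
      nsmul_eq_mul, Fintype.card_fin]
  have hn0 : (n : ℚ) ≠ 0 := by
    have := k.pos
    positivity
  exact (mul_eq_zero.1 h1).resolve_left hn0

end Pool.Agent.H76Q
end

-- from Lib.H76Q.W8
section

/-!
# linked idempotents
-/

set_option autoImplicit false
set_option linter.unusedSectionVars false
namespace Pool.Agent.H76Q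
open Module Matrix Polynomial Pool.Agent.H53Toric
open Pool.Agent.H76P
open Pool.Agent.H76T (IsIdeal Fam Lc)
open Pool.Agent.H76V (Cmp)
open Pool.Agent.H76U (cmp preL IsSplitting)
open Pool.Agent.H76RM (spanK similD)

variable {ι : Type*} [Fintype ι] [DecidableEq ι] {ψ : Matrix ι ι ℚ}
    {D : Subalgebra ℚ (Matrix ι ι ℚ)} {M : Type*} [Field M] [NumberField M]
    {m : ℕ} {e : Fin m → Matrix ι ι M} {G : Type*} [Group G]
    {ρ : ∀ (l : ℕ) [Fact l.Prime], G →* Matrix.GeneralLinearGroup ι ℚ_[l]}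
    {p : ℕ} [Fact p.Prime] {σ : G} {q : ℚ} {f : ℚ[X]} {F : Fin m → M[X]}
    {φ μ ν : Matrix ι ι (AlgebraicClosure ℚ_[p])} {v : AlgebraicClosure ℚ_[p] → ℚ}
    {Δ : Set (AlgebraicClosure ℚ_[p] ≃+* AlgebraicClosure ℚ_[p])}
    {Ω : Type*} [Field Ω] [CharZero Ω] [IsAlgClosed Ω] [Algebra.IsAlgebraic ℚ Ω] {j : M →+* Ω}
    {R : Finset Ω} {N : Set ℕ} (C : Core2 ψ D e ρ p σ q f F φ μ ν v Δ j R N)

include C

theorem Core2.w8_lin (s : G) : ∀ d ∈ D, (ρ p s).1.map (algebraMap ℚ_[p] (AlgebraicClosure ℚ_[p])) *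
    d.map (algebraMap ℚ (AlgebraicClosure ℚ_[p])) =
      d.map (algebraMap ℚ (AlgebraicClosure ℚ_[p])) *
        (ρ p s).1.map (algebraMap ℚ_[p] (AlgebraicClosure ℚ_[p])) := by
  intro d hd
  have h1 := congrArg (fun m : Matrix ι ι ℚ_[p] =>
    m.map (algebraMap ℚ_[p] (AlgebraicClosure ℚ_[p]))) (C.lin p s d hd)
  have h2 : (d.map (algebraMap ℚ ℚ_[p])).map (algebraMap ℚ_[p] (AlgebraicClosure ℚ_[p])) =
      d.map (algebraMap ℚ (AlgebraicClosure ℚ_[p])) := by
    ext i j
    simp
  simp only [Matrix.map_mul] at h1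
  rw [h2] at h1
  exact h1

theorem Core2.w8_img (H : Subgroup G) {s : Matrix ι ι (AlgebraicClosure ℚ_[p])}
    (hs : s ∈ img (AlgebraicClosure ℚ_[p]) (ρ p) H) {d : Matrix ι ι (AlgebraicClosure ℚ_[p])}
    (hd : d ∈ spanK (AlgebraicClosure ℚ_[p]) D) : s * d = d * s := by
  obtain ⟨g, -, rfl⟩ := hs
  exact H76RM.comm_span (C.w8_lin g) d hd

theorem Core2.w8_phi {d : Matrix ι ι (AlgebraicClosure ℚ_[p])}
    (hd : d ∈ spanK (AlgebraicClosure ℚ_[p]) D) : φ * d = d * φ :=
  H76RM.zar_commute (fun _ hs => C.w8_img ⊤ hs hd) (C.frobp.idc.2 ⊤ inferInstance)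

theorem Core2.w8_mu {d : Matrix ι ι (AlgebraicClosure ℚ_[p])}
    (hd : d ∈ spanK (AlgebraicClosure ℚ_[p]) D) : μ * d = d * μ := by
  have h1 := C.crys.mu.1.2 2 two_ne_zero
  have h2 := H76RM.zar_commute (fun _ hs => C.w8_img ⊤ hs hd) h1
  rw [add_mul, mul_add, one_mul, mul_one, smul_mul_assoc, mul_smul_comm] at h2
  have h3 := add_left_cancel h2
  have h4 : ((2 : AlgebraicClosure ℚ_[p]) - 1) = 1 := by norm_num
  rwa [h4, one_smul, one_smul] at h3

/-- The operator `E' d` is injective on the range of `e`. -/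
theorem Core2.w8_key (b : Fin m) {n : ℕ} {a : Fin n → Ω} (ha : Function.Injective a)
    (hroot : ∀ y : Ω, (F b).eval₂ j y = 0 ↔ ∃ k, y = a k) (i : Ω →+* AlgebraicClosure ℚ_[p])
    {T : Matrix ι ι (AlgebraicClosure ℚ_[p])}
    (hT : ∀ A : Matrix ι ι (AlgebraicClosure ℚ_[p]),
      (∀ d ∈ spanK (AlgebraicClosure ℚ_[p]) D, A * d = d * A) → A * T = T * A)
    (hne : T * (e b).map (i.comp j) ≠ 0) {z : ι → AlgebraicClosure ℚ_[p]}
    (hz0 : z ≠ 0) (hz : (e b).map (i.comp j) *ᵥ z = z) : T *ᵥ z ≠ 0 := by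
  obtain ⟨H₀, U, V, hfin, h⟩ := C.locp b ha hroot i
  have hE : (e b).map (i.comp j) ∈ spanK (AlgebraicClosure ℚ_[p]) D :=
    H76U.spanK_map (i.comp j) (C.hspl.mem b)
  have h1S : (1 : Matrix ι ι (AlgebraicClosure ℚ_[p])) ∈
      img (AlgebraicClosure ℚ_[p]) (ρ p) H₀ := by
    refine ⟨1, H₀.one_mem, ?_⟩
    rw [map_one]
    simp
  set W : Submodule (AlgebraicClosure ℚ_[p]) (Fin n → AlgebraicClosure ℚ_[p]) :=
    LinearMap.ker (Matrix.mulVecLin (T * U)) with hW
  have hmem : ∀ w, w ∈ W ↔ (T * U) *ᵥ w = 0 := fun w => by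
    rw [hW, LinearMap.mem_ker, Matrix.mulVecLin_apply]
  have hirr := h.ts.cmp.irr W (by
    intro X hX w hw
    rw [hmem] at hw ⊢
    obtain ⟨_, ⟨A, hA, rfl⟩, hX2⟩ := hX.1
    rw [← hX2]
    have hcomm : ∀ d ∈ spanK (AlgebraicClosure ℚ_[p]) D, A * d = d * A := fun d hd =>
      H76U.preL_commute h1S (fun s hs => C.w8_img H₀ hs hd) hA
    show (T * U) *ᵥ ((cmp U V A) *ᵥ w) = 0
    rw [Matrix.mulVec_mulVec, Matrix.mul_assoc, H76U.P_cmp h.UV h.VU (hcomm _ hE),
      ← Matrix.mul_assoc, ← hT A hcomm, Matrix.mul_assoc, ← Matrix.mulVec_mulVec, hw,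
      Matrix.mulVec_zero])
  rcases hirr with h1 | h1
  · intro h2
    have h3 : V *ᵥ z ∈ W := by
      rw [hmem, Matrix.mulVec_mulVec, Matrix.mul_assoc, ← h.UV, ← Matrix.mulVec_mulVec, hz, h2]
    rw [h1, Submodule.mem_bot] at h3
    apply hz0
    rw [← hz, h.UV, ← Matrix.mulVec_mulVec, h3, Matrix.mulVec_zero]
  · exfalso
    apply hne
    have h2 : T * U = 0 := by
      ext x y
      have h3 : Pi.single y (1 : AlgebraicClosure ℚ_[p]) ∈ W := by rw [h1]; exact Submodule.mem_top
      rw [hmem, Matrix.mulVec_single_one] at h3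
      exact congrFun h3 x
    rw [h.UV, ← Matrix.mul_assoc, h2, Matrix.zero_mul]

/-- Transport of eigenvectors. -/
theorem Core2.w8_vec (b : Fin m) {n : ℕ} {a : Fin n → Ω} (ha : Function.Injective a)
    (hroot : ∀ y : Ω, (F b).eval₂ j y = 0 ↔ ∃ k, y = a k) {s : Ω ≃+* Ω}
    (hlink : Linked D ((e b).map j) ((e b).map (s.toRingHom.comp j)))
    (i : Ω →+* AlgebraicClosure ℚ_[p]) : ∃ T : Matrix ι ι (AlgebraicClosure ℚ_[p]),
      φ * T = T * φ ∧ μ * T = T * μ ∧
      (∀ z, (e b).map ((i.comp s.symm.toRingHom).comp j) *ᵥ (T *ᵥ z) = T *ᵥ z) ∧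
      ∀ z, z ≠ 0 → (e b).map (i.comp j) *ᵥ z = z → T *ᵥ z ≠ 0 := by
  obtain ⟨d, hd, hne⟩ := hlink
  set i' : Ω →+* AlgebraicClosure ℚ_[p] := i.comp s.symm.toRingHom with hi'
  set E' := (e b).map (i'.comp j) with hE'
  have hE : E' ∈ spanK (AlgebraicClosure ℚ_[p]) D := H76U.spanK_map (i'.comp j) (C.hspl.mem b)
  have hd' : d.map i' ∈ spanK (AlgebraicClosure ℚ_[p]) D := H76U.spanK_map i' hd
  have hEE : E' * E' = E' := by
    rw [hE', ← H76U.map_mul', C.hspl.idem]
  have hT : ∀ A : Matrix ι ι (AlgebraicClosure ℚ_[p]),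
      (∀ d ∈ spanK (AlgebraicClosure ℚ_[p]) D, A * d = d * A) →
        A * (E' * d.map i') = E' * d.map i' * A := by
    intro A hA
    rw [← Matrix.mul_assoc, hA _ hE, Matrix.mul_assoc, hA _ hd', Matrix.mul_assoc]
  refine ⟨E' * d.map i', hT _ fun d hd => C.w8_phi hd, hT _ fun d hd => C.w8_mu hd, ?_, ?_⟩
  · intro z
    rw [Matrix.mulVec_mulVec, ← Matrix.mul_assoc, hEE]
  · intro z hz0 hz
    refine C.w8_key b ha hroot i hT ?_ hz0 hz
    have h1 : E' = ((e b).map j).map i' := by
      ext x y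
      rfl
    have h2 : (e b).map (i.comp j) = ((e b).map (s.toRingHom.comp j)).map i' := by
      ext x y
      simp [hi']
    rw [h1, h2, ← H76U.map_mul', ← H76U.map_mul']
    intro h3
    apply hne
    ext x y
    have h4 := congrFun (congrFun h3 x) y
    rw [Matrix.map_apply, Matrix.zero_apply] at h4
    rw [Matrix.zero_apply]
    exact (map_eq_zero i').1 h4

/-- PROOF. `E = (e b).map (i.comp j)`, `E' = (e b).map ((i.comp s⁻¹).comp j)`.  Apply `i ∘ s⁻¹` to `hlink`: `E' * d * E ≠ 0` for some `d` in the span of `D` over the closure.  The map `z ↦ E' (d z)` from the range of `E`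
to the range of `E'` is not zero and commutes with `φ`, `μ` and `zlie S` (they commute with `D`).  Its kernel is stable under `zlie S`, so zero (`Core2.locp` for `i`: `h.ts.cmp.irr`).  So eigenvectors go to eigenvectors.  `hperm`: a root `y` of `F b` gives
(`C.frobp.eig`) an eigenvalue `i y` of `φ` on the range of `E`, so on the range of `E'`, so `eval₂ (i s⁻¹ j) (i y) = 0`, i.e. `s y` is a root; `s` permutes the finite set of roots.  `IsHT` for `i s⁻¹`: the eigenvalue
`i s⁻¹ (a (π k)) = i (a k)`. -/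
theorem Core2.linked (b : Fin m)
    {n : ℕ} {a : Fin n → Ω} (ha : Function.Injective a)
    (hroot : ∀ y : Ω, (F b).eval₂ j y = 0 ↔ ∃ k, y = a k)
    {s : Ω ≃+* Ω} (hlink : Linked D ((e b).map j) ((e b).map (s.toRingHom.comp j))) :
    ∃ π : Equiv.Perm (Fin n), (∀ k, s (a k) = a (π k)) ∧
      ∀ (i : Ω →+* AlgebraicClosure ℚ_[p]) (ε : Fin n → ℚ),
        IsHT μ φ ((e b).map (i.comp j)) (fun k => i (a k)) ε →
        IsHT μ φ ((e b).map ((i.comp s.symm.toRingHom).comp j))
          (fun k => i.comp s.symm.toRingHom (a k)) (fun k => ε (π.symm k)) := by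
  have hmap : ∀ k, ∃ k', s (a k) = a k' := by
    intro k
    let i : Ω →+* AlgebraicClosure ℚ_[p] :=
      (IsAlgClosed.lift (R := ℚ) (S := Ω) (M := AlgebraicClosure ℚ_[p])).toRingHom
    obtain ⟨T, hTφ, -, hTE, hT0⟩ := C.w8_vec b ha hroot hlink i
    have h1 : (F b).eval₂ (i.comp j) (i (a k)) = 0 := by
      rw [← Polynomial.hom_eval₂, (hroot _).2 ⟨k, rfl⟩, map_zero]
    obtain ⟨z, hz0, hz, hφz⟩ := (C.frobp.eig (i.comp j) b (i (a k))).2 h1
    have h2 : (F b).eval₂ ((i.comp s.symm.toRingHom).comp j) (i (a k)) = 0 := by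
      apply (C.frobp.eig ((i.comp s.symm.toRingHom).comp j) b (i (a k))).1
      refine ⟨T *ᵥ z, hT0 z hz0 hz, hTE z, ?_⟩
      rw [Matrix.mulVec_mulVec, hTφ, ← Matrix.mulVec_mulVec, hφz, Matrix.mulVec_smul]
    have h3 : i (a k) = (i.comp s.symm.toRingHom) (s (a k)) := by simp
    rw [h3, ← Polynomial.hom_eval₂, map_eq_zero] at h2
    exact (hroot _).1 h2
  choose g hg using hmap
  have hginj : Function.Injective g := by
    intro k k' hkk
    apply ha
    apply s.injective
    rw [hg, hg, hkk]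
  let π : Equiv.Perm (Fin n) := Equiv.ofBijective g (Finite.injective_iff_bijective.1 hginj)
  refine ⟨π, hg, ?_⟩
  intro i ε hε k
  obtain ⟨T, hTφ, hTμ, hTE, hT0⟩ := C.w8_vec b ha hroot hlink i
  set k₀ := π.symm k with hk₀
  have hk : π k₀ = k := by rw [hk₀, Equiv.apply_symm_apply]
  have hval : (i.comp s.symm.toRingHom) (a k) = i (a k₀) := by
    have h1 : s (a k₀) = a k := by
      rw [hg k₀, ← hk]
      rfl
    rw [← h1]
    simp
  rcases hε k₀ with ⟨h1, z, hz0, hz, hφz, hμz⟩ | ⟨h1, z, hz0, hz, hφz, hμz⟩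
  · left
    refine ⟨h1, T *ᵥ z, hT0 z hz0 hz, hTE z, ?_, ?_⟩
    · show φ *ᵥ (T *ᵥ z) = ((i.comp s.symm.toRingHom) (a k)) • (T *ᵥ z)
      rw [hval, Matrix.mulVec_mulVec, hTφ, ← Matrix.mulVec_mulVec, hφz, Matrix.mulVec_smul]
    · rw [Matrix.mulVec_mulVec, hTμ, ← Matrix.mulVec_mulVec, hμz]
  · right
    refine ⟨h1, T *ᵥ z, hT0 z hz0 hz, hTE z, ?_, ?_⟩
    · show φ *ᵥ (T *ᵥ z) = ((i.comp s.symm.toRingHom) (a k)) • (T *ᵥ z)
      rw [hval, Matrix.mulVec_mulVec, hTφ, ← Matrix.mulVec_mulVec, hφz, Matrix.mulVec_smul]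
    · rw [Matrix.mulVec_mulVec, hTμ, ← Matrix.mulVec_mulVec, hμz, Matrix.mulVec_zero]

end Pool.Agent.H76Q
end
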