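import Pool.Agent.Lib.H1M.RC.M047
import Pool.Agent.Lib.H1M.RC.M048
import Pool.Agent.Lib.H1M.RC.M049
import Pool.Agent.Lib.H1M.RC.M051
import Pool.Agent.Lib.H1M.RC.M059

/-! Merged copies (to shorten the build) of Lib.H76Y.G4, Lib.H76Y.G6, Lib.H76Y.G5, Lib.H76Y.G7, Lib.H76Y.A5, Lib.H76Z.A7, Lib.H76Y.C4, Lib.H76Y.C6, Lib.H76Y.F5, Lib.H76Z.F1, Lib.H76Z.F3, Lib.H76Z.F4. -/

-- from Lib.H76Y.G4
section

/-!
# G4: the component in an eigenbasis
-/

set_option autoImplicit false
set_option linter.unusedSectionVars false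
namespace Pool.Agent.H76Y
open Pool.Agent.H76P Pool.Agent.H76V Pool.Agent.H76Q
open Module Matrix Pool.Agent.H53Toric
open Pool.Agent.H76RM (van zlie_commute)
open Pool.Agent.H76U (preL cmp Split4)
open Pool.Agent.H76V (SH)
open Pool.Agent.H76T (Lc mem_Lc)
open Pool.Agent.H76U (tw)

theorem g4_trace {K : Type*} [Field K] {n : ℕ} (A : Matrix (Fin n) (Fin n) K) :
    LinearMap.trace K (Fin n → K) (phi A) = A.trace := by
  exact Matrix.trace_toLin'_eq A

variable {ι : Type*} [Fintype ι] [DecidableEq ι] {K : Type*} [Field K]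
  [CharZero K] [IsAlgClosed K] {B : Type*} [Fintype B] [DecidableEq B]
  {J : Matrix ι ι K} {DD : Submodule K (Matrix ι ι K)}
  {bar : B → B} {e : B → Matrix ι ι K} (h : Split4 J DD bar e) {b : B}
  {n : ℕ} {S : Set (Matrix ι ι K)} {𝓗 : Set (Matrix ι ι K)} {φ φ' : Matrix ι ι K}
  (hb : ∀ x ∈ 𝓗, 2 * (x * e b).rank = n)
  (hJ : Jᵀ = -J) (hdet : IsUnit J.det)
  {P : Matrix ι (Fin n) K} {Q : Matrix (Fin n) ι K}
  (hPQ : e b = P * Q) (hQP : Q * P = 1)
  (g : PH S J DD 𝓗 φ φ') {d : Fin n → K} (E : EC φ P d)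

include h hPQ hQP g in
theorem g4_mem {A : Matrix ι ι K} (hA : A ∈ preL J S) (ht : (cmp P Q A).trace = 0) :
    phi (cmp P Q A) ∈ LcN J S P Q := by
  refine ⟨Pool.Agent.H76U.mem_Lb.2 ⟨A, hA, rfl⟩, ?_⟩
  rw [g4_trace]
  exact ht

include g hdet in
theorem g4_preL {C : Matrix ι ι K} (hC : C ∈ zlie S) (c : K) : C - c • 1 ∈ preL J S := by
  obtain ⟨d, hd⟩ : ∃ d : K, Cᵀ * J + J * C = d • J := by
    by_cases hJ0 : J = 0
    · exact ⟨0, by rw [hJ0]; simp⟩
    · exact zlie_sim g.sh.one hJ0 g.Ssim hC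
  refine ⟨⟨-c, C, hC, by rw [neg_smul, sub_eq_add_neg]⟩, d - 2 * c, ?_⟩
  rw [Matrix.transpose_sub, Matrix.transpose_smul, Matrix.transpose_one, sub_mul, mul_sub, smul_mul_assoc,
    one_mul, mul_smul_comm, mul_one]
  have h1 : Cᵀ * J - c • J + (J * C - c • J) = (Cᵀ * J + J * C) - (2 * c) • J := by
    rw [two_mul, add_smul]
    abel
  rw [h1, hd, sub_smul]

include h hdet hPQ hQP g in
theorem lc_of_zlie (hn : 0 < n) {C : Matrix ι ι K} (hC : C ∈ zlie S) :
    ∃ c : K, phi (cmp P Q (C - c • 1)) ∈ LcN J S P Q := by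
  refine ⟨(cmp P Q C).trace / n, g4_mem h hPQ hQP g (g4_preL hdet g hC _) ?_⟩
  have hn' : (n : K) ≠ 0 := by exact_mod_cast hn.ne'
  rw [map_sub, map_smul, Pool.Agent.H76U.cmp_one hPQ hQP, Matrix.trace_sub, Matrix.trace_smul,
    Matrix.trace_one, Fintype.card_fin, smul_eq_mul, div_mul_cancel₀ _ hn', sub_self]

include h hPQ hQP g hb in
theorem g4_bal {x : Matrix ι ι K} (hx : x ∈ 𝓗) (hxe : x * e b = e b * x) :
    (cmp P Q ((2 : K) • x - 1)).trace = 0 := by
  have h1 : cmp P Q x * cmp P Q x = cmp P Q x := by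
    rw [← Pool.Agent.H76U.cmp_mul hPQ hQP hxe, g.sh.hi x hx]
  have h2 : (cmp P Q x).trace = ((cmp P Q x).rank : K) := by
    have h3 : phi (cmp P Q x) * phi (cmp P Q x) = phi (cmp P Q x) := by rw [← map_mul, h1]
    have h4 := trace_idem h3
    rw [g4_trace] at h4
    exact h4
  have h5 : (cmp P Q x).rank = (x * e b).rank := Pool.Agent.H76U.rank_cmp hPQ hQP hxe
  have h6 : ((2 * (x * e b).rank : ℕ) : K) = (n : K) := by rw [hb x hx]
  rw [map_sub, map_smul, Pool.Agent.H76U.cmp_one hPQ hQP, Matrix.trace_sub, Matrix.trace_smul, h2, h5,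
    Matrix.trace_one, Fintype.card_fin, smul_eq_mul, ← h6]
  push_cast
  ring

include h hb hdet hPQ hQP g E in
/-- PROOF. `x ∈ zlie S` (`g.sh.hz`) commutes with `e b` and `φ`; `cmp x = diagonal f` (`cmp_diag`) with `f * f = f` (`g.sh.hi`), so
`f k ∈ {0, 1}`; `ε k = if f k = 1 then 1 else -1`.  `2 x - 1` is in `preL J S` and skew (`g.sh.hs`), so its compression is in `Lc`. -/
theorem eps_mem {x : Matrix ι ι K} (hx : x ∈ 𝓗) (hxφ : x * φ = φ * x) :
    ∃ ε ∈ Hs (LcN J S P Q), phi (cmp P Q ((2 : K) • x - 1)) = dq ε := by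
  classical
  have hxz := g.sh.hz x hx
  have hxs := g.sh.hs x hx
  have hxL : x ∈ preL J S := ⟨⟨0, x, hxz, by rw [zero_smul, add_zero]⟩, 1, by rw [hxs, one_smul]⟩
  have hxe := Pool.Agent.H76V.preL_ec (b := b) h g.sh hxL
  obtain ⟨f, hf⟩ := cmp_diag h hPQ hQP g E hxe hxφ
  have hff : ∀ k, f k = 0 ∨ f k = 1 := by
    intro k
    have h1 := Pool.Agent.H76U.cmp_mul hPQ hQP (A := x) (C := x) hxe
    rw [g.sh.hi x hx, hf, Matrix.diagonal_mul_diagonal] at h1
    have h2 := congrFun (congrFun h1 k) k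
    rw [Matrix.diagonal_apply_eq, Matrix.diagonal_apply_eq] at h2
    have h3 : f k * (f k - 1) = 0 := by rw [mul_sub, mul_one, ← h2, sub_self]
    rcases mul_eq_zero.1 h3 with h4 | h4
    · exact Or.inl h4
    · exact Or.inr (sub_eq_zero.1 h4)
  have hmem := g4_mem h hPQ hQP g (A := (2 : K) • x - 1)
    (by
      have h1 := g4_preL hdet g ((zlie S).smul_mem (2 : K) hxz) 1
      rwa [one_smul] at h1) (g4_bal h hb hPQ hQP g hx hxe)
  have hval : phi (cmp P Q ((2 : K) • x - 1)) = dq (fun k => if f k = 1 then (1 : ℚ) else -1) := by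
    have h1 : cmp P Q ((2 : K) • x - 1) = Matrix.diagonal (fun k => 2 * f k - 1) := by
      rw [map_sub, map_smul, Pool.Agent.H76U.cmp_one hPQ hQP, hf]
      ext i j
      by_cases hij : i = j
      · subst hij
        simp
      · simp [Matrix.diagonal_apply_ne _ hij, Matrix.one_apply_ne hij]
    rw [h1, phi_diag]
    unfold dq
    congr 1
    ext k
    change 2 * f k - 1 = (((if f k = 1 then (1 : ℚ) else -1) : ℚ) : K)
    rcases hff k with h2 | h2
    · have h3 : ¬ f k = 1 := by rw [h2]; exact zero_ne_one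
      rw [if_neg h3, h2]
      norm_num
    · rw [if_pos h2, h2]
      norm_num
  refine ⟨fun k => if f k = 1 then (1 : ℚ) else -1, ⟨fun a => ?_, ?_⟩, hval⟩
  · simp only
    split_ifs
    · exact Or.inl rfl
    · exact Or.inr rfl
  · rw [← hval]
    exact hmem

include h hb hdet hPQ hQP g E in
/-- PROOF. `dg f = phi (cmp A)` with `A = C + c • 1`, `C ∈ zlie S` (`mem_Lc`, `mem_Lb`).  `A`, `C` commute with `e b`; `C * e b = P * diagonal (f - c) * Q`
commutes with `φ` (`φ * P = P * diagonal d` and `Q * φ = diagonal d * Q`, because `φ` commutes with `e b = P * Q`).  `zero_part` (`p = e b`) gives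
`C₁ ∈ zlie S` which commutes with `φ` and `C₁ * e b = C * e b`.  By `g.torus` and `zlie_pow` (`g.dgb`; the eigenvalues of `φ` are not zero because
of `g.inv`) `C₁ = P₀ * diagonal f₀ * Q₀`, `φ = P₀ * diagonal d₀ * Q₀`, `LogLin d₀ f₀`.  For `i`, `j` with `d₀ i = d₀ j` the relation
`d₀ i * (d₀ j)⁻¹ = 1` gives `f₀ i = f₀ j`.  The column `k` of `P` is an eigenvector of `φ` with eigenvalue `d k` and of `C₁` with eigenvalue
`f k - c`; so there is `i = i k` with `d₀ i = d k` and `f₀ i = f k - c` (take `i` with `(Q₀ * P) i k ≠ 0`).  `k ↦ i k` is injective.  A relation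
`∏ k, d k ^ m k = 1` gives a relation between the `d₀ i` (with exponent `0` outside the image of `k ↦ i k`), hence `∑ k, m k * (f k - c) = 0`. -/
theorem loglin_of_mem {f : Fin n → K} (hf : dg f ∈ LcN J S P Q) :
    ∃ c : K, LogLin d (fun k => f k - c) := by
  classical
  have hf1 : phi (Matrix.diagonal f) ∈ Pool.Agent.H76U.Lb J S P Q := by
    rw [phi_diag]
    exact hf.1
  obtain ⟨A, hAL, hAf⟩ := Pool.Agent.H76U.mem_Lb.1 hf1
  have hAe := Pool.Agent.H76V.preL_ec (b := b) h g.sh hAL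
  obtain ⟨c, C, hC, rfl⟩ := hAL.1
  refine ⟨c, ?_⟩
  have hCe : C * e b = e b * C := by
    rw [add_mul, mul_add, smul_mul_assoc, one_mul, mul_smul_comm, mul_one] at hAe
    exact add_right_cancel hAe
  have hCf : cmp P Q C = Matrix.diagonal (fun k => f k - c) := by
    rw [map_add, map_smul, Pool.Agent.H76U.cmp_one hPQ hQP] at hAf
    have h1 : cmp P Q C = Matrix.diagonal f - c • 1 := by rw [← hAf, add_sub_cancel_right]
    rw [h1]
    ext i j
    by_cases hij : i = j
    · subst hij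
      simp
    · simp [Matrix.diagonal_apply_ne _ hij, Matrix.one_apply_ne hij]
  have hφe : φ * e b = e b * φ := g.φD _ (h.mem b)
  have hφP := E.eig
  have hQφ : Q * φ = Matrix.diagonal d * Q := by
    rw [← Pool.Agent.H76U.cmp_Q hPQ hQP hφe, cmp_phi hQP E]
  have hCP : C * P = P * Matrix.diagonal (fun k => f k - c) := by
    rw [← hCf, Pool.Agent.H76U.P_cmp hPQ hQP hCe]
  have hCeb : C * e b = P * Matrix.diagonal (fun k => f k - c) * Q := by
    rw [hPQ, ← Matrix.mul_assoc, hCP]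
  have hcomm : (C * e b) * φ = φ * (C * e b) := by
    rw [hCeb]
    calc P * Matrix.diagonal (fun k => f k - c) * Q * φ =
        P * Matrix.diagonal (fun k => f k - c) * (Q * φ) := by rw [Matrix.mul_assoc]
      _ = P * (Matrix.diagonal (fun k => f k - c) * Matrix.diagonal d) * Q := by
          rw [hQφ, Matrix.mul_assoc, Matrix.mul_assoc, Matrix.mul_assoc]
      _ = P * (Matrix.diagonal d * Matrix.diagonal (fun k => f k - c)) * Q := by
          rw [Matrix.diagonal_mul_diagonal, Matrix.diagonal_mul_diagonal]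
          congr 3
          ext k
          ring
      _ = (P * Matrix.diagonal d) * Matrix.diagonal (fun k => f k - c) * Q := by
          rw [Matrix.mul_assoc, Matrix.mul_assoc, Matrix.mul_assoc, Matrix.mul_assoc]
      _ = (φ * P) * Matrix.diagonal (fun k => f k - c) * Q := by rw [hφP]
      _ = _ := by rw [Matrix.mul_assoc, Matrix.mul_assoc, Matrix.mul_assoc]
  obtain ⟨C₁, hC₁, hC₁φ, hC₁p⟩ := zero_part g.inv g.dgb g.cnj hC
  have hC₁e := hC₁p (e b) hφe.symm hcomm
  obtain ⟨P₀, Q₀, d₀, hPQ₀, hQP₀, hφ₀⟩ := g.dgb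
  have hQφP₀ : Q₀ * φ * P₀ = Matrix.diagonal d₀ := by
    rw [hφ₀]
    calc Q₀ * (P₀ * Matrix.diagonal d₀ * Q₀) * P₀ = (Q₀ * P₀) * Matrix.diagonal d₀ * (Q₀ * P₀) := by noncomm_ring
      _ = Matrix.diagonal d₀ := by rw [hQP₀, one_mul, mul_one]
  have hd₀ : ∀ i, d₀ i ≠ 0 := by
    have hprod : Matrix.diagonal d₀ * (Q₀ * φ' * P₀) = 1 := by
      rw [← hQφP₀]
      calc Q₀ * φ * P₀ * (Q₀ * φ' * P₀) = Q₀ * φ * (P₀ * Q₀) * φ' * P₀ := by noncomm_ring
        _ = Q₀ * (φ * φ') * P₀ := by rw [hPQ₀]; noncomm_ring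
        _ = 1 := by rw [g.inv, mul_one, hQP₀]
    intro i h0
    have h1 := congrFun (congrFun hprod i) i
    rw [Matrix.diagonal_mul, h0, zero_mul, Matrix.one_apply_eq] at h1
    exact one_ne_zero h1.symm
  obtain ⟨f₀, hf₀, hlog⟩ := zlie_pow hPQ₀ hQP₀ hd₀ hφ₀ (g.torus C₁ hC₁ hC₁φ)
  -- the matrix `R`
  have hebP : e b * P = P := by rw [hPQ, Matrix.mul_assoc, hQP, Matrix.mul_one]
  have hC₁P : C₁ * P = P * Matrix.diagonal (fun k => f k - c) := by
    calc C₁ * P = C₁ * (e b * P) := by rw [hebP]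
      _ = (C₁ * e b) * P := by rw [Matrix.mul_assoc]
      _ = C * (e b * P) := by rw [hC₁e, Matrix.mul_assoc]
      _ = _ := by rw [hebP, hCP]
  have hR1 : ∀ i k, d₀ i * (Q₀ * P) i k = (Q₀ * P) i k * d k := by
    intro i k
    have h1 : Matrix.diagonal d₀ * (Q₀ * P) = (Q₀ * P) * Matrix.diagonal d := by
      have h2 : Q₀ * φ = Matrix.diagonal d₀ * Q₀ := by
        rw [hφ₀]
        calc Q₀ * (P₀ * Matrix.diagonal d₀ * Q₀) = (Q₀ * P₀) * Matrix.diagonal d₀ * Q₀ := by noncomm_ring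
          _ = _ := by rw [hQP₀, one_mul]
      rw [← Matrix.mul_assoc, ← h2, Matrix.mul_assoc, hφP, Matrix.mul_assoc]
    have h3 := congrFun (congrFun h1 i) k
    rwa [Matrix.diagonal_mul, Matrix.mul_diagonal] at h3
  have hR2 : ∀ i k, f₀ i * (Q₀ * P) i k = (Q₀ * P) i k * (f k - c) := by
    intro i k
    have h1 : Matrix.diagonal f₀ * (Q₀ * P) = (Q₀ * P) * Matrix.diagonal (fun k => f k - c) := by
      have h2 : Q₀ * C₁ = Matrix.diagonal f₀ * Q₀ := by
        rw [hf₀]
        calc Q₀ * (P₀ * Matrix.diagonal f₀ * Q₀) = (Q₀ * P₀) * Matrix.diagonal f₀ * Q₀ := by noncomm_ring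
          _ = _ := by rw [hQP₀, one_mul]
      rw [← Matrix.mul_assoc, ← h2, Matrix.mul_assoc, hC₁P, Matrix.mul_assoc]
    have h3 := congrFun (congrFun h1 i) k
    rwa [Matrix.diagonal_mul, Matrix.mul_diagonal] at h3
  have hR3 : ∀ k, ∃ i, (Q₀ * P) i k ≠ 0 := by
    intro k
    by_contra hcon
    push Not at hcon
    have h1 : (Q * P₀) * (Q₀ * P) = 1 := by
      calc (Q * P₀) * (Q₀ * P) = Q * (P₀ * Q₀) * P := by
            rw [Matrix.mul_assoc, Matrix.mul_assoc, Matrix.mul_assoc]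
        _ = 1 := by rw [hPQ₀, Matrix.mul_one, hQP]
    have h2 := congrFun (congrFun h1 k) k
    rw [Matrix.mul_apply, Matrix.one_apply_eq, Finset.sum_eq_zero] at h2
    · exact one_ne_zero h2.symm
    · intro i _
      rw [hcon i, mul_zero]
  choose i hi using hR3
  have hdi : ∀ k, d₀ (i k) = d k := by
    intro k
    have h1 := hR1 (i k) k
    rw [mul_comm] at h1
    exact mul_left_cancel₀ (hi k) h1
  have hfi : ∀ k, f₀ (i k) = f k - c := by
    intro k
    have h1 := hR2 (i k) k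
    rw [mul_comm] at h1
    exact mul_left_cancel₀ (hi k) h1
  intro m hm
  have h1 : ∏ j, d₀ j ^ (∑ k ∈ Finset.univ.filter (fun k => i k = j), m k) = 1 := by
    rw [← hm, ← Finset.prod_fiberwise Finset.univ i (fun k => d k ^ m k)]
    refine Finset.prod_congr rfl fun j _ => ?_
    have h2 : ∀ s : Finset (Fin n), d₀ j ^ (∑ k ∈ s, m k) = ∏ k ∈ s, d₀ j ^ m k := by
      intro s
      refine Finset.induction_on s ?_ ?_
      · rw [Finset.sum_empty, Finset.prod_empty, zpow_zero]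
      · intro a s ha ih
        rw [Finset.sum_insert ha, Finset.prod_insert ha, zpow_add₀ (hd₀ j), ih]
    rw [h2]
    refine Finset.prod_congr rfl fun k hk => ?_
    rw [← hdi k, (Finset.mem_filter.1 hk).2]
  have h2 := hlog _ h1
  rw [← h2, ← Finset.sum_fiberwise Finset.univ i (fun k => (m k : K) * (f k - c))]
  refine Finset.sum_congr rfl fun j _ => ?_
  rw [Int.cast_sum, Finset.sum_mul]
  refine Finset.sum_congr rfl fun k hk => ?_
  rw [← hfi k, (Finset.mem_filter.1 hk).2]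

end Pool.Agent.H76Y
end

-- from Lib.H76Y.G6
section

/-!
# G6: the log linear functions are spanned by the functions of the projectors
-/

set_option autoImplicit false
set_option linter.unusedSectionVars false
namespace Pool.Agent.H76Y
open Pool.Agent.H76P Pool.Agent.H76V Pool.Agent.H76Q
open Module Matrix Pool.Agent.H53Toric
open Pool.Agent.H76RM (van zlie_commute)
open Pool.Agent.H76U (preL cmp Split4)
open Pool.Agent.H76V (SH)
open Pool.Agent.H76T (Lc mem_Lc)
open Pool.Agent.H76U (tw)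

variable {ι : Type*} [Fintype ι] [DecidableEq ι] {K : Type*} [Field K]
  [CharZero K] [IsAlgClosed K] {B : Type*} [Fintype B] [DecidableEq B]
  {J : Matrix ι ι K} {DD : Submodule K (Matrix ι ι K)}
  {bar : B → B} {e : B → Matrix ι ι K} (h : Split4 J DD bar e) {b : B}
  {n : ℕ} {S : Set (Matrix ι ι K)} {𝓗 : Set (Matrix ι ι K)} {φ φ' : Matrix ι ι K}
  (hb : ∀ x ∈ 𝓗, 2 * (x * e b).rank = n)
  (hJ : Jᵀ = -J) (hdet : IsUnit J.det)
  {P : Matrix ι (Fin n) K} {Q : Matrix (Fin n) ι K}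
  (hPQ : e b = P * Q) (hQP : Q * P = 1)
  (g : PH S J DD 𝓗 φ φ') {d : Fin n → K} (E : EC φ P d)

include h hb hdet hPQ hQP g E in
theorem g6_gen {m : Fin n → ℤ}
    (hm : ∀ u ∈ insert 1 (Hs (LcN J S P Q)), ∑ k, (m k : ℚ) * u k = 0)
    {x : Matrix ι ι K} (hx : x ∈ 𝓗) (hxφ : x * φ = φ * x) {t : K} (ht : t ≠ 0) :
    ∃ f : Fin n → K, cmp P Q (1 + (t - 1) • x) = Matrix.diagonal f ∧ (∀ k, f k ≠ 0) ∧
      ∏ k, f k ^ m k = 1 := by
  obtain ⟨ε, hε, he⟩ := eps_mem h hb hdet hPQ hQP g E hx hxφ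
  have h1 : cmp P Q ((2 : K) • x - 1) = Matrix.diagonal (fun k => (ε k : K)) := by
    have : phi (cmp P Q ((2 : K) • x - 1)) = phi (Matrix.diagonal (fun k => (ε k : K))) := by
      rw [he, phi_diag]; rfl
    exact phi.injective this
  have h2 : cmp P Q (1 : Matrix ι ι K) = 1 := H76U.cmp_one hPQ hQP
  have h3 : (2 : K) • cmp P Q x = 1 + Matrix.diagonal (fun k => (ε k : K)) := by
    rw [← h1, map_sub, map_smul, h2]
    abel
  have h4 : cmp P Q x = Matrix.diagonal (fun k => (1 + (ε k : K)) / 2) := by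
    have h5 : cmp P Q x = (2 : K)⁻¹ • ((2 : K) • cmp P Q x) := by
      rw [smul_smul, inv_mul_cancel₀ two_ne_zero, one_smul]
    rw [h5, h3]
    ext i j
    by_cases hij : i = j
    · subst hij
      simp [Matrix.diagonal_apply_eq]
      ring
    · simp [Matrix.diagonal_apply_ne _ hij, Matrix.one_apply_ne hij]
  have hpm : ∀ k, ε k = 1 ∨ ε k = -1 := hε.1
  refine ⟨fun k => if ε k = 1 then t else 1, ?_, ?_, ?_⟩
  · rw [map_add, h2, map_smul, h4]
    ext i j
    by_cases hij : i = j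
    · subst hij
      rcases hpm i with h5 | h5
      · simp [Matrix.diagonal_apply_eq, h5]
      · have h6 : ¬ ((-1 : ℚ) = 1) := by norm_num
        simp [Matrix.diagonal_apply_eq, h5, h6]
    · simp [Matrix.diagonal_apply_ne _ hij, Matrix.one_apply_ne hij]
  · intro k
    dsimp only
    split_ifs
    · exact ht
    · exact one_ne_zero
  · have h5 : ∀ k, (if ε k = 1 then t else 1) ^ m k = t ^ (if ε k = 1 then m k else 0) := by
      intro k
      split_ifs <;> simp
    rw [Finset.prod_congr rfl (fun k _ => h5 k), g6_prod_zpow ht]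
    have h6 : ∑ k, (if ε k = 1 then m k else 0) = 0 := by
      have h7 := hm ε (Set.mem_insert_of_mem _ hε)
      have h8 := hm 1 (Set.mem_insert _ _)
      have h9 : ((∑ k, (if ε k = 1 then m k else 0) : ℤ) : ℚ) = 0 := by
        push_cast
        have h10 : ∀ k, (if ε k = 1 then (m k : ℚ) else 0) =
            ((m k : ℚ) * (1 : Fin n → ℚ) k + (m k : ℚ) * ε k) / 2 := by
          intro k
          rcases hpm k with h11 | h11
          · rw [if_pos h11, h11, Pi.one_apply]; ring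
          · rw [if_neg (by rw [h11]; norm_num), h11, Pi.one_apply]; ring
        rw [Finset.sum_congr rfl (fun k _ => h10 k), ← Finset.sum_div, Finset.sum_add_distrib, h7, h8]
        simp
      exact_mod_cast h9
    rw [h6, zpow_zero]

include h hb hdet hPQ hQP g E in
/-- PROOF. `mem_spanK` for `s = insert 1 (Hs L)`, `L = LcN J S P Q`.  Let `m : Fin n → ℤ` be orthogonal to `1` and to `Hs L`.  Let `m = m₊ - m₋`
(natural numbers) and consider the polynomial function `F y = ∏ k, (Q * y * P) k k ^ m₊ k - ∏ k, (Q * y * P) k k ^ m₋ k`.  Claim: `F` vanishes on the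
submonoid `M` generated by the `1 + (t - 1) • x`, `x ∈ 𝓗` commuting with `φ`, `t ≠ 0`.  All elements `y` of `M` commute with `e b` and with `φ`, so
`Q * y * P` is diagonal (`cmp_diag`), and `y ↦ Q * y * P` is multiplicative on `M`; so it is enough that
`∏ k, (Q * y * P) k k ^ m k = 1` for the generators (all entries are nonzero).  For `y = 1 + (t - 1) • x`, `cmp (2 x - 1) = diagonal ε`, `ε ∈ Hs L`
(`eps_mem`), `(Q * y * P) k k` is `t` if `ε k = 1` and `1` if `ε k = -1`, i.e. `t ^ ((1 + ε k) / 2)`, and `∑ m k (1 + ε k) / 2 = 0`.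
So `F` vanishes on `zar M ∋ φ ^ N` (`g.torgen`); `Q * φ ^ N * P = diagonal (d ^ N)` (`cmp_phi`).  So `∏ k, d k ^ (N * m k) = 1`, and `LogLin` gives
`∑ N * m k * f k = 0`, so `∑ m k * f k = 0`.  (If there is no `x ∈ 𝓗` commuting with `φ` the argument is the same.) -/
theorem span_of_loglin {f : Fin n → K} (hf : LogLin d f) :
    f ∈ Submodule.span K (cst K '' (insert 1 (Hs (LcN J S P Q)))) := by
  refine mem_spanK fun m hm => ?_
  obtain ⟨N, hN, hNz⟩ := g.torgen
  have key : ∀ y ∈ Submonoid.closure {m : Matrix ι ι K | ∃ h ∈ 𝓗, h * φ = φ * h ∧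
      ∃ t : K, t ≠ 0 ∧ m = 1 + (t - 1) • h}, y * e b = e b * y ∧
      ∃ f : Fin n → K, cmp P Q y = Matrix.diagonal f ∧ (∀ k, f k ≠ 0) ∧ ∏ k, f k ^ m k = 1 := by
    intro y hy
    induction hy using Submonoid.closure_induction with
    | mem y hy =>
      obtain ⟨x, hx, hxφ, t, ht, rfl⟩ := hy
      refine ⟨?_, g6_gen h hb hdet hPQ hQP g E hm hx hxφ ht⟩
      have h1 : x * e b = e b * x :=
        zlie_commute g.sh.one (fun s hs => g.sh.SD s hs _ (h.mem b)) (g.sh.hz x hx)
      rw [add_mul, mul_add, one_mul, mul_one, Matrix.smul_mul, Matrix.mul_smul, h1]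
    | one =>
      refine ⟨by rw [one_mul, mul_one], fun _ => 1, ?_, fun _ => one_ne_zero, by simp⟩
      rw [H76U.cmp_one hPQ hQP]
      ext i j
      by_cases hij : i = j
      · subst hij; simp
      · simp [Matrix.diagonal_apply_ne _ hij, Matrix.one_apply_ne hij]
    | mul x y _ _ hx hy =>
      obtain ⟨hx1, fx, hx2, hx3, hx4⟩ := hx
      obtain ⟨hy1, fy, hy2, hy3, hy4⟩ := hy
      refine ⟨by rw [Matrix.mul_assoc, hy1, ← Matrix.mul_assoc, hx1, Matrix.mul_assoc],
        fun k => fx k * fy k, ?_, fun k => mul_ne_zero (hx3 k) (hy3 k), ?_⟩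
      · rw [H76U.cmp_mul hPQ hQP hy1, hx2, hy2, Matrix.diagonal_mul_diagonal]
      · simp only [mul_zpow]
        rw [Finset.prod_mul_distrib, hx4, hy4, one_mul]
  choose G hG using fun k => g6_entry P Q k k
  have h1 : ev (φ ^ N) (∏ k, G k ^ (m k).toNat - ∏ k, G k ^ (-m k).toNat) = 0 := by
    apply hNz
    intro y hy
    obtain ⟨-, f, h2, h3, h4⟩ := key y hy
    rw [map_sub, map_prod, map_prod]
    simp only [map_pow, hG]
    have h5 : ∀ k, (Q * y * P) k k = f k := fun k => by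
      have : Q * y * P = Matrix.diagonal f := h2
      rw [this, Matrix.diagonal_apply_eq]
    simp only [h5]
    rw [sub_eq_zero]
    exact (g6_nat h3 m).1 h4
  have h6 : φ ^ N * P = P * Matrix.diagonal (fun k => d k ^ N) := by
    clear h1 hNz hN
    induction N with
    | zero => simp
    | succ N ih =>
      rw [pow_succ, Matrix.mul_assoc, E.eig, ← Matrix.mul_assoc, ih, Matrix.mul_assoc,
        Matrix.diagonal_mul_diagonal]
      simp only [pow_succ]
  have h7 : ∀ k, (Q * φ ^ N * P) k k = d k ^ N := fun k => by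
    rw [Matrix.mul_assoc, h6, ← Matrix.mul_assoc, hQP, Matrix.one_mul, Matrix.diagonal_apply_eq]
  rw [map_sub, map_prod, map_prod] at h1
  simp only [map_pow, hG, h7] at h1
  rw [sub_eq_zero] at h1
  have h8 : ∏ k, (d k ^ N) ^ m k = 1 := (g6_nat (fun k => pow_ne_zero _ (E.ne k)) m).2 h1
  have h9 := hf (fun k => N * m k) (by
    rw [← h8]
    refine Finset.prod_congr rfl fun k _ => ?_
    rw [_root_.zpow_mul, zpow_natCast])
  have h10 : (N : K) * ∑ k, (m k : K) * f k = 0 := by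
    rw [Finset.mul_sum, ← h9]
    refine Finset.sum_congr rfl fun k _ => ?_
    push_cast
    ring
  rcases mul_eq_zero.1 h10 with h11 | h11
  · exact absurd h11 (by exact_mod_cast hN)
  · exact h11

end Pool.Agent.H76Y
end

-- from Lib.H76Y.G5
section

/-!
# G5: the Lie algebra of a component satisfies `CmpN`
-/

set_option autoImplicit false
set_option linter.unusedSectionVars false
namespace Pool.Agent.H76Y
open Pool.Agent.H76P Pool.Agent.H76V Pool.Agent.H76Q
open Module Matrix Polynomial Pool.Agent.H53Toric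
open Pool.Agent.H76U (Split4 preL preL_e P_cmp irr_comp p_P mem_Lb preL_bracket cmp_mul cmp_one cmp)
open Pool.Agent.H76V (SH)

variable {ι : Type*} [Fintype ι] [DecidableEq ι] {K : Type*} [Field K]
  [CharZero K] [IsAlgClosed K] {B : Type*} [Fintype B] [DecidableEq B]
  {J : Matrix ι ι K} {DD : Submodule K (Matrix ι ι K)}
  {bar : B → B} {e : B → Matrix ι ι K} (h : Split4 J DD bar e) {b : B}
  {n : ℕ} {S : Set (Matrix ι ι K)} {𝓗 : Set (Matrix ι ι K)} {φ φ' : Matrix ι ι K}
  (hb : ∀ x ∈ 𝓗, 2 * (x * e b).rank = n)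
  (hJ : Jᵀ = -J) (hdet : IsUnit J.det)
  {P : Matrix ι (Fin n) K} {Q : Matrix (Fin n) ι K}
  (hPQ : e b = P * Q) (hQP : Q * P = 1)
  (g : PH S J DD 𝓗 φ φ')

include g in
theorem g5_preL {x : Matrix ι ι K} (hx : x ∈ 𝓗) : x ∈ preL J S :=
  ⟨⟨0, x, g.sh.hz x hx, by rw [zero_smul, add_zero]⟩, 1, by rw [g.sh.hs x hx, one_smul]⟩

include h g in
theorem g5_comm {x : Matrix ι ι K} (hx : x ∈ 𝓗) : x * e b = e b * x :=
  preL_e (b := b) h g.sh.one g.sh.SD (g5_preL g hx)

include h hPQ hQP g in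
theorem g5_irr {W : Submodule K (Fin n → K)}
    (h1 : ∀ x ∈ 𝓗, ∀ w ∈ W, cmp P Q x *ᵥ w ∈ W) : W = ⊥ ∨ W = ⊤ := by
  set U : Submodule K (ι → K) := W.map P.mulVecLin with hU
  have hUst : ∀ s ∈ S, ∀ w ∈ U, s *ᵥ w ∈ U := by
    intro s hs
    refine zar_stable ?_ (g.sh.gen hs)
    intro m hm
    refine Submonoid.closure_induction (motive := fun m _ => ∀ w ∈ U, m *ᵥ w ∈ U)
      ?_ ?_ ?_ hm
    · rintro _ ⟨x, hx, t, -, rfl⟩ _ ⟨w, hw, rfl⟩
      rw [Matrix.mulVecLin_apply, Matrix.add_mulVec, Matrix.one_mulVec, Matrix.smul_mulVec]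
      apply U.add_mem ⟨w, hw, rfl⟩
      apply U.smul_mem
      refine ⟨cmp P Q x *ᵥ w, h1 x hx w hw, ?_⟩
      rw [Matrix.mulVecLin_apply, Matrix.mulVec_mulVec, Matrix.mulVec_mulVec,
        P_cmp hPQ hQP (g5_comm h g hx)]
    · intro w hw
      rw [Matrix.one_mulVec]; exact hw
    · intro x y _ _ hx hy w hw
      rw [← Matrix.mulVec_mulVec]
      exact hx _ (hy w hw)
  have hUb : ∀ w ∈ U, e b *ᵥ w = w := by
    rintro _ ⟨w, -, rfl⟩
    rw [Matrix.mulVecLin_apply, Matrix.mulVec_mulVec, p_P hPQ hQP]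
  rcases irr_comp h b g.sh.semis g.sh.commt hUst hUb with h2 | h2
  · left
    rw [eq_bot_iff]
    intro w hw
    have h3 : P *ᵥ w ∈ U := ⟨w, hw, rfl⟩
    rw [h2, Submodule.mem_bot] at h3
    rw [Submodule.mem_bot]
    have h4 : w = Q *ᵥ (P *ᵥ w) := by rw [Matrix.mulVec_mulVec, hQP, Matrix.one_mulVec]
    rw [h4, h3, Matrix.mulVec_zero]
  · right
    rw [eq_top_iff]
    intro w _
    obtain ⟨w', hw', hww⟩ := h2 (P *ᵥ w) (by
      rw [Matrix.mulVec_mulVec, p_P hPQ hQP])
    rw [Matrix.mulVecLin_apply] at hww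
    have h4 : w' = w := by
      have h5 := congrArg (fun v => Q *ᵥ v) hww
      simp only [Matrix.mulVec_mulVec, hQP, Matrix.one_mulVec] at h5
      exact h5
    rw [← h4]
    exact hw'

include h hb hdet hPQ hQP g in
theorem g5_inv {x : Matrix ι ι K} (hx : x ∈ 𝓗) :
    phi (cmp P Q ((2 : K) • x - 1)) ∈ LcN J S P Q ∧
      phi (cmp P Q ((2 : K) • x - 1)) * phi (cmp P Q ((2 : K) • x - 1)) = 1 := by
  have hxe := g5_comm (b := b) h g hx
  refine ⟨g4_mem h hPQ hQP g ?_ (g4_bal h hb hPQ hQP g hx hxe), ?_⟩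
  · have h1 := g4_preL hdet g ((zlie S).smul_mem (2 : K) (g.sh.hz x hx)) 1
    rwa [one_smul] at h1
  · rw [← map_mul, map_sub, map_smul, cmp_one hPQ hQP, ← map_one (phi (ι := Fin n) (K := K))]
    congr 1
    have h3 : cmp P Q x * cmp P Q x = cmp P Q x := by
      rw [← cmp_mul hPQ hQP hxe, g.sh.hi x hx]
    simp only [sub_mul, mul_sub, smul_mul_assoc, mul_smul_comm, h3, mul_one, one_mul]
    module

include h hPQ hQP g in
theorem g5_of {W : Submodule K (Fin n → K)} (hinv : ∀ x ∈ 𝓗, ∀ w ∈ W,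
    phi (cmp P Q ((2 : K) • x - 1)) w ∈ W) : W = ⊥ ∨ W = ⊤ := by
  refine g5_irr h hPQ hQP g fun x hx w hw => ?_
  have h3 := hinv x hx w hw
  rw [map_sub, map_smul, cmp_one hPQ hQP, phi_apply, Matrix.sub_mulVec, Matrix.smul_mulVec,
    Matrix.one_mulVec] at h3
  have h4 := W.smul_mem (1 / 2 : K) (W.add_mem h3 hw)
  rw [sub_add_cancel, smul_smul] at h4
  norm_num at h4
  exact h4

include h hb hdet hPQ hQP g in
theorem cmp_unit (hn : 0 < n) : CmpN (LcN J S P Q) := by
  have : Nonempty (Fin n) := ⟨⟨0, hn⟩⟩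
  refine ⟨?_, ?_, fun X hX => hX.2, ?_⟩
  · intro X hX Y hY
    refine ⟨?_, ?_⟩
    · obtain ⟨x, rfl⟩ := (phi (ι := Fin n) (K := K)).surjective X
      obtain ⟨y, rfl⟩ := (phi (ι := Fin n) (K := K)).surjective Y
      obtain ⟨A, hA, rfl⟩ := mem_Lb.1 hX.1
      obtain ⟨A', hA', rfl⟩ := mem_Lb.1 hY.1
      rw [← map_mul (phi (ι := Fin n) (K := K)), ← map_mul (phi (ι := Fin n) (K := K)),
        ← map_sub (phi (ι := Fin n) (K := K)), ← cmp_mul hPQ hQP (preL_e h g.sh.one g.sh.SD hA'),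
        ← cmp_mul hPQ hQP (preL_e h g.sh.one g.sh.SD hA), ← map_sub]
      obtain ⟨h1, h2⟩ := preL_bracket hA hA'
      exact mem_Lb.2 ⟨_, ⟨⟨0, _, h1, by rw [zero_smul, add_zero]⟩, 0, by rw [h2, zero_smul]⟩, rfl⟩
    · rw [map_sub, LinearMap.trace_mul_comm, sub_self]
  · intro W hW
    exact g5_of h hPQ hQP g fun x hx w hw => hW _ (g5_inv h hb hdet hPQ hQP g hx).1 w hw
  · intro T hT
    obtain ⟨c, hc⟩ := Module.End.exists_eigenvalue T
    refine ⟨c, ?_⟩
    have h1 : Module.End.eigenspace T c = ⊤ := by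
      rcases g5_of h hPQ hQP g (W := Module.End.eigenspace T c) (fun x hx w hw => by
        rw [Module.End.mem_eigenspace_iff] at hw ⊢
        have h2 := hT _ (g5_inv h hb hdet hPQ hQP g hx).1 (g5_inv h hb hdet hPQ hQP g hx).2
        have h3 := congrArg (fun f : Module.End K (Fin n → K) => f w) h2
        change T ((phi (cmp P Q ((2 : K) • x - 1))) w) = (phi (cmp P Q ((2 : K) • x - 1))) (T w) at h3
        rw [h3, hw, map_smul]) with h2 | h2
      · exact absurd h2 hc
      · exact h2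
    apply LinearMap.ext
    intro w
    have h2 : w ∈ Module.End.eigenspace T c := by rw [h1]; trivial
    rw [Module.End.mem_eigenspace_iff] at h2
    exact h2

end Pool.Agent.H76Y
end

-- from Lib.H76Y.G7
section

/-!
# G7: diagonal elements, field automorphisms
-/

set_option autoImplicit false
set_option linter.unusedSectionVars false
namespace Pool.Agent.H76Y
open Pool.Agent.H76P Pool.Agent.H76V Pool.Agent.H76Q
open Module Matrix Pool.Agent.H53Toric
open Pool.Agent.H76RM (van zlie_commute)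
open Pool.Agent.H76U (preL cmp Split4)
open Pool.Agent.H76V (SH)
open Pool.Agent.H76T (Lc mem_Lc)
open Pool.Agent.H76U (tw)

variable {ι : Type*} [Fintype ι] [DecidableEq ι] {K : Type*} [Field K]
  [CharZero K] [IsAlgClosed K] {B : Type*} [Fintype B] [DecidableEq B]
  {J : Matrix ι ι K} {DD : Submodule K (Matrix ι ι K)}
  {bar : B → B} {e : B → Matrix ι ι K} (h : Split4 J DD bar e) {b : B}
  {n : ℕ} {S : Set (Matrix ι ι K)} {𝓗 : Set (Matrix ι ι K)} {φ φ' : Matrix ι ι K}
  (hb : ∀ x ∈ 𝓗, 2 * (x * e b).rank = n)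
  (hJ : Jᵀ = -J) (hdet : IsUnit J.det)
  {P : Matrix ι (Fin n) K} {Q : Matrix (Fin n) ι K}
  (hPQ : e b = P * Q) (hQP : Q * P = 1)
  (g : PH S J DD 𝓗 φ φ') {d : Fin n → K} (E : EC φ P d)

include h hb hdet hPQ hQP g E in
/-- PROOF. By `span_of_loglin` and `rat_of_spanK` `f + constant` is in `span ℚ (insert 1 (Hs L))`: `f - c` is log linear with `c : K`, so
`cst K f = (f - c) + c • 1` is in the span over `K` of `cst K '' (insert 1 (Hs L))`, so `f ∈ span ℚ (insert 1 (Hs L))`, `f = y + r • 1` with `y ∈ Yo L`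
(`Submodule.mem_span_insert`).  The sum of the values of `f` is `0`, that of `y` too (`Yo_sum`, `cmp_unit`), so `r * n = 0`, `r = 0`. -/
theorem mem_Yo (hn : 0 < n) {f : Fin n → ℚ} {c : K}
    (hf : LogLin d (fun k => (f k : K) - c)) (hs : ∑ k, f k = 0) : f ∈ Yo (LcN J S P Q) := by
  have h1 := span_of_loglin h hb hdet hPQ hQP g E hf
  have h2 : cst K f ∈ Submodule.span K (cst K '' (insert 1 (Hs (LcN J S P Q)))) := by
    have h3 : cst K f = (fun k => (f k : K) - c) + c • cst K (1 : Fin n → ℚ) := by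
      funext k
      simp [cst]
    rw [h3]
    exact Submodule.add_mem _ h1
      (Submodule.smul_mem _ _ (Submodule.subset_span ⟨1, Set.mem_insert _ _, rfl⟩))
  have h4 := rat_of_spanK h2
  obtain ⟨r, y, hy, hfy⟩ := Submodule.mem_span_insert.1 h4
  have hy' : y ∈ Yo (LcN J S P Q) := hy
  have h5 := Yo_sum (cmp_unit h hb hdet hPQ hQP g hn) hy'
  have h6 : r * (n : ℚ) = 0 := by
    have h7 : ∑ k, f k = r * n + ∑ k, y k := by
      rw [hfy]
      simp [Finset.sum_add_distrib, mul_comm]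
    rw [hs, h5, add_zero] at h7
    exact h7.symm
  have hr : r = 0 := by
    rcases mul_eq_zero.1 h6 with h8 | h8
    · exact h8
    · exact absurd h8 (by exact_mod_cast hn.ne')
  rw [hfy, hr, zero_smul, zero_add]
  exact hy'

include h hb hdet hPQ hQP g E in
/-- PROOF. `loglin_of_mem` and `mem_Yo`; the sum is `0` by `CmpN.tr` and `dg_trace`. -/
theorem diag_mem (hn : 0 < n) {f : Fin n → ℚ} (hf : dq f ∈ LcN J S P Q) :
    f ∈ Yo (LcN J S P Q) := by
  obtain ⟨c, hc⟩ := loglin_of_mem h hb hdet hPQ hQP g E (f := fun k => (f k : K)) hf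
  refine mem_Yo h hb hdet hPQ hQP g E hn hc ?_
  have h1 := (cmp_unit h hb hdet hPQ hQP g hn).tr _ hf
  unfold dq at h1
  rw [dg_trace] at h1
  exact_mod_cast h1


end Pool.Agent.H76Y
end

-- from Lib.H76Y.A5
section

/-!
# the configuration of the Lie algebra
-/

set_option autoImplicit false
set_option linter.unusedSectionVars false
namespace Pool.Agent.H76Y
open Pool.Agent.H76P Pool.Agent.H76V Pool.Agent.H76Q
open Module Matrix Polynomial Pool.Agent.H53Toric
open Pool.Agent.H76P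
open Pool.Agent.H76T (IsIdeal Fam Lc)
open Pool.Agent.H76U (cmp preL IsSplitting)
open Pool.Agent.H76RM (spanK similD)

variable {ι : Type*} [Fintype ι] [DecidableEq ι] {K : Type*} [Field K] [CharZero K]
  [IsAlgClosed K]

variable {B : Type*} [Fintype B] [DecidableEq B]
  {J : Matrix ι ι K} {DD : Submodule K (Matrix ι ι K)}
  {bar : B → B} {e : B → Matrix ι ι K} (h : H76U.Split4 J DD bar e) {b : B}
  {n : ℕ} {S : Set (Matrix ι ι K)} {𝓗 : Set (Matrix ι ι K)} {φ φ' : Matrix ι ι K}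
  (hb : ∀ x ∈ 𝓗, 2 * (x * e b).rank = n)
  (hdet : IsUnit J.det)
  {P : Matrix ι (Fin n) K} {Q : Matrix (Fin n) ι K}
  (hPQ : e b = P * Q) (hQP : Q * P = 1)
  (g : PH S J DD 𝓗 φ φ') {d : Fin n → K} (E : EC φ P d)

include h hb hdet hPQ hQP g E in
/-- PROOF. `≤`: `f ∈ Yo` has sum `0` (`Yo_sum`) and `dq f ∈ L` (`Yo_mem`), so `f - c` is log linear for some `c : K` (`loglin_of_mem`, see the proof of `diag_mem`).
If all relations `m` have `∑ m = 0`, the same holds with `c = 0`; otherwise `c = ∑ m f / ∑ m` is rational.  `≥`: `mem_Yo`. -/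
theorem Yo_eq_YS (hn : 0 < n) : Yo (LcN J S P Q) = YS d := by
  apply le_antisymm
  · intro f hf
    have h1 := Yo_mem hf
    have h2 := Yo_sum (cmp_unit h hb hdet hPQ hQP g hn) hf
    obtain ⟨c, hc⟩ := loglin_of_mem h hb hdet hPQ hQP g E (f := fun k => (f k : K)) h1
    have hexp : ∀ m : Fin n → ℤ, ∑ k, (m k : K) * ((f k : K) - c) =
        ((∑ k, (m k : ℚ) * f k : ℚ) : K) - c * ((∑ k, m k : ℤ) : K) := by
      intro m
      push_cast
      rw [Finset.mul_sum, ← Finset.sum_sub_distrib]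
      exact Finset.sum_congr rfl fun k _ => by ring
    refine ⟨h2, ?_⟩
    by_cases hz : ∀ m : Fin n → ℤ, ∏ k, d k ^ m k = 1 → ∑ k, m k = 0
    · refine ⟨0, fun m hm => ?_⟩
      have h3 : ∑ k, (m k : K) * ((f k : K) - c) = 0 := hc m hm
      rw [hexp, hz m hm, Int.cast_zero, mul_zero, sub_zero] at h3
      have h4 : ∑ k, (m k : ℚ) * f k = 0 := by exact_mod_cast h3
      have h5 : ∑ k, (m k : ℚ) * (f k - 0) = ∑ k, (m k : ℚ) * f k :=
        Finset.sum_congr rfl fun k _ => by rw [sub_zero]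
      exact h5.trans h4
    · push Not at hz
      obtain ⟨m0, hm0, hm1⟩ := hz
      have h3 : ∑ k, (m0 k : K) * ((f k : K) - c) = 0 := hc m0 hm0
      rw [hexp, sub_eq_zero] at h3
      have hne : ((∑ k, m0 k : ℤ) : K) ≠ 0 := by exact_mod_cast hm1
      have hcr : c = (((∑ k, (m0 k : ℚ) * f k) / ((∑ k, m0 k : ℤ) : ℚ) : ℚ) : K) := by
        rw [Rat.cast_div, Rat.cast_intCast, h3, mul_div_assoc, div_self hne, mul_one]
      refine ⟨(∑ k, (m0 k : ℚ) * f k) / ((∑ k, m0 k : ℤ) : ℚ), fun m hm => ?_⟩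
      have h4 : ∑ k, (m k : K) * ((f k : K) - c) = 0 := hc m hm
      rw [hcr] at h4
      exact_mod_cast h4
  · rintro f ⟨h1, c, h2⟩
    refine mem_Yo h hb hdet hPQ hQP g E hn (c := (c : K)) ?_ h1
    intro m hm
    have h3 := congrArg (Rat.cast : ℚ → K) (h2 m hm)
    show ∑ k, (m k : K) * ((f k : K) - (c : K)) = 0
    exact_mod_cast h3

include h hb hdet hPQ hQP g E in
/-- PROOF. `cmp_unit`, `diag_mem`; `sep`: `YS_sep` (A3) and `Yo_eq_YS`. -/
theorem mk_tm (hn : 0 < n)
    (ht : ∀ a b : Fin n, ∀ N : ℕ, N ≠ 0 → d a ^ N = d b ^ N → a = b) :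
    TM (LcN J S P Q) := by
  refine ⟨cmp_unit h hb hdet hPQ hQP g hn,
    fun f hf => diag_mem h hb hdet hPQ hQP g E hn hf, ?_⟩
  intro a b hab
  rw [Yo_eq_YS h hb hdet hPQ hQP g E hn]
  exact YS_sep E.ne ht a b hab

end Pool.Agent.H76Y
end

-- from Lib.H76Z.A7
section

/-!
# existence of the local data
-/

set_option autoImplicit false
set_option linter.unusedSectionVars false
namespace Pool.Agent.H76Z
open Pool.Agent.H76Y
open Pool.Agent.H76P Pool.Agent.H76V Pool.Agent.H76Q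
open Module Matrix Polynomial Pool.Agent.H53Toric
open Pool.Agent.H76T (IsIdeal Fam Lc)
open Pool.Agent.H76U (cmp preL IsSplitting Lb)
open Pool.Agent.H76RM (spanK similD)

variable {ι : Type*} [Fintype ι] [DecidableEq ι] {K : Type*} [Field K] [CharZero K]
  [IsAlgClosed K]

section
variable {B : Type*} [Fintype B] [DecidableEq B]
  {J : Matrix ι ι K} {DD : Submodule K (Matrix ι ι K)}
  {bar : B → B} {e : B → Matrix ι ι K} (h : H76U.Split4 J DD bar e) {b : B}
  {n : ℕ} {S : Set (Matrix ι ι K)} {𝓗 : Set (Matrix ι ι K)} {φ φ' : Matrix ι ι K}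
  {P : Matrix ι (Fin n) K} {Q : Matrix (Fin n) ι K}
  (hPQ : e b = P * Q) (hQP : Q * P = 1)
  (g : PH S J DD 𝓗 φ φ')

include h hPQ hQP g in
/-- A component which is its own conjugate respects the form induced by `J`. -/
theorem form_inv (hb : bar b = b) (hdet : IsUnit J.det) (hn : 0 < n) :
    IsUnit (Pᵀ * J * P).det ∧ ∀ X ∈ LcN J S P Q, adjE (Pᵀ * J * P) X = -X := by
  have hpJ : (e b)ᵀ * J = J * e b := by
    have := h.adj b
    rwa [hb] at this
  have hdb : IsUnit (Pᵀ * J * P).det := Pool.Agent.H76U.det_cmp hPQ hQP hpJ hdet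
  refine ⟨hdb, ?_⟩
  rintro X ⟨hX, htr⟩
  obtain ⟨x, rfl⟩ := (phi (ι := Fin n) (K := K)).surjective X
  obtain ⟨A, hA, rfl⟩ := Pool.Agent.H76U.mem_Lb.1 hX
  have hAe := Pool.Agent.H76V.preL_ec (b := b) h g.sh hA
  obtain ⟨-, d, hd⟩ := hA
  have h1 := Pool.Agent.H76U.cmp_sim hPQ hQP hpJ hAe
  rw [hd, Matrix.mul_smul, Matrix.smul_mul] at h1
  rw [H76Y.g4_trace] at htr
  obtain ⟨A', hA'⟩ : ∃ A', A' = cmp P Q A := ⟨_, rfl⟩
  obtain ⟨J', hJ'⟩ : ∃ J', J' = Pᵀ * J * P := ⟨_, rfl⟩
  rw [← hA'] at h1 htr ⊢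
  rw [← hJ'] at h1 hdb ⊢
  have h2 : J'⁻¹ * A'ᵀ * J' + A' = d • 1 := by
    have h3 := congrArg (fun z => J'⁻¹ * z) h1
    simp only [Matrix.mul_add, Matrix.mul_smul, ← Matrix.mul_assoc,
      Matrix.nonsing_inv_mul _ hdb, Matrix.one_mul] at h3
    exact h3
  have h4 : d * (n : K) = 0 := by
    have h3 := congrArg Matrix.trace h2
    rw [Matrix.trace_add, Matrix.mul_assoc, Matrix.trace_mul_comm, Matrix.mul_assoc,
      Matrix.mul_nonsing_inv _ hdb, Matrix.mul_one, Matrix.trace_transpose, htr, add_zero,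
      Matrix.trace_smul, Matrix.trace_one, Fintype.card_fin, smul_eq_mul] at h3
    exact h3.symm
  have h5 : d = 0 := by
    rcases mul_eq_zero.1 h4 with h6 | h6
    · exact h6
    · exact absurd h6 (by exact_mod_cast hn.ne')
  rw [h5, zero_smul] at h2
  rw [adjE_phi, eq_neg_of_add_eq_zero_left h2, map_neg]

end

theorem preL_unit {J : Matrix ι ι K} {S : Set (Matrix ι ι K)} {u : Matrix ι ι K}
    (h1 : (1 : Matrix ι ι K) ∈ S) (hu : ∀ s ∈ S, s * u = u * s) (hd : IsUnit u.det) :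
    preL (J * u) S = preL J S := by
  have hz : ∀ A : Matrix ι ι K, (∃ c : K, ∃ C ∈ zlie S, A = C + c • 1) → A * u = u * A := by
    rintro A ⟨c, C, hC, rfl⟩
    have h2 := Pool.Agent.H76RM.zlie_commute h1 hu hC
    rw [Matrix.add_mul, Matrix.mul_add, h2, Matrix.smul_mul, Matrix.mul_smul, Matrix.one_mul,
      Matrix.mul_one]
  have key : ∀ A : Matrix ι ι K, A * u = u * A → ∀ c : K,
      (Aᵀ * (J * u) + J * u * A = c • (J * u) ↔ Aᵀ * J + J * A = c • J) := by
    intro A hA c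
    have h2 : Aᵀ * (J * u) + J * u * A = (Aᵀ * J + J * A) * u := by
      rw [Matrix.add_mul, Matrix.mul_assoc J u A, ← hA]
      simp only [Matrix.mul_assoc]
    rw [h2, ← Matrix.smul_mul]
    constructor
    · intro h3
      have h4 := congrArg (fun z => z * u⁻¹) h3
      simp only [Matrix.mul_assoc, Matrix.mul_nonsing_inv _ hd, Matrix.mul_one] at h4
      exact h4
    · intro h3
      rw [h3]
  ext A
  constructor
  · rintro ⟨h2, c, hc⟩
    exact ⟨h2, c, (key A (hz A h2) c).1 hc⟩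
  · rintro ⟨h2, c, hc⟩
    exact ⟨h2, c, (key A (hz A h2) c).2 hc⟩

theorem lcN_unit {J : Matrix ι ι K} {S : Set (Matrix ι ι K)} {u : Matrix ι ι K}
    (h1 : (1 : Matrix ι ι K) ∈ S) (hu : ∀ s ∈ S, s * u = u * s) (hd : IsUnit u.det)
    {n : ℕ} (P : Matrix ι (Fin n) K) (Q : Matrix (Fin n) ι K) :
    LcN (J * u) S P Q = LcN J S P Q := by
  have h2 : Lb (J * u) S P Q = Lb J S P Q := by
    unfold Lb
    rw [preL_unit h1 hu hd]
  ext X
  constructor
  · rintro ⟨h3, h4⟩
    exact ⟨h2 ▸ h3, h4⟩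
  · rintro ⟨h3, h4⟩
    exact ⟨h2.symm ▸ h3, h4⟩

/-- The hypotheses on `J` imply the same for `J u`. -/
theorem ph_unit {S : Set (Matrix ι ι K)} {J : Matrix ι ι K} {DD : Submodule K (Matrix ι ι K)}
    {𝓗 : Set (Matrix ι ι K)} {φ φ' : Matrix ι ι K} (g : PH S J DD 𝓗 φ φ') {u : Matrix ι ι K}
    (hu : u ∈ DD) : PH S (J * u) DD 𝓗 φ φ' := by
  have hus : ∀ s ∈ S, s * u = u * s := fun s hs => g.sh.SD s hs u hu
  refine ⟨⟨g.sh.one, g.sh.SD, g.sh.semis, g.sh.commt, g.sh.cnj, fun γ => ⟨1, one_ne_zero, by simp⟩,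
    g.sh.rD, g.sh.hz, g.sh.hi, fun x hx => ?_, g.sh.gen⟩, fun s hs => ?_, g.inv, g.φD, g.cnj, g.dgb,
    g.torus, g.torgen⟩
  · have h1 := Pool.Agent.H76RM.zlie_commute g.sh.one hus (g.sh.hz x hx)
    rw [Matrix.mul_assoc J u x, ← h1, ← Matrix.mul_assoc, ← Matrix.mul_assoc, ← Matrix.add_mul,
      g.sh.hs x hx]
  · obtain ⟨c, hc⟩ := g.Ssim s hs
    refine ⟨c, ?_⟩
    calc sᵀ * (J * u) * s = (sᵀ * J * s) * u := by
          rw [Matrix.mul_assoc _ _ s, Matrix.mul_assoc J u s, ← hus s hs]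
          simp only [Matrix.mul_assoc]
      _ = c • (J * u) := by rw [hc, Matrix.smul_mul]

variable {L : Type*} [Field L] [CharZero L] [Algebra L K] {G : Type*} [Group G]

/-- The hypotheses of this section are those of `H76Q.mk_loc`, with the condition `bal` of balance. -/
theorem mk_loc {ψ : Matrix ι ι ℚ}
    (hψ : ψᵀ = -ψ) (hψ0 : ψ.det ≠ 0) (D : Subalgebra ℚ (Matrix ι ι ℚ))
    (ρ : G →* Matrix.GeneralLinearGroup ι L)
    (lin : ∀ σ : G, ∀ d ∈ D, (ρ σ).1 * d.map (algebraMap ℚ L) =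
      d.map (algebraMap ℚ L) * (ρ σ).1)
    (sim : ∀ σ : G, ∃ c : L, (ρ σ).1ᵀ * ψ.map (algebraMap ℚ L) * (ρ σ).1 =
      c • ψ.map (algebraMap ℚ L))
    (semis : ∀ H : Subgroup G, H.FiniteIndex → ∀ W : Submodule K (ι → K),
      (∀ s ∈ img K ρ H, ∀ w ∈ W, s *ᵥ w ∈ W) →
      ∃ W' : Submodule K (ι → K), (∀ s ∈ img K ρ H, ∀ w ∈ W', s *ᵥ w ∈ W') ∧ IsCompl W W')
    (commt : ∀ H : Subgroup G, H.FiniteIndex → ∀ y : Matrix ι ι K,
      (∀ s ∈ img K ρ H, y * s = s * y) → y ∈ spanK K D)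
    (gen : ∀ g : G, (ρ g).1.map (algebraMap L K) ∈ tgen K ρ)
    {M : Type*} [Field M] [CharZero M] {m : ℕ} {cl : Fin m → Cl} {bar : Fin m → Fin m}
    {e : Fin m → Matrix ι ι M} {u₀ : Matrix ι ι M} {F : Fin m → M[X]}
    (hspl : Splits D ψ cl bar e u₀) {x : Matrix ι ι K} (hF : FrobT K ρ e F x)
    (hx : x ∈ tgen K ρ) {q : ℚ}
    (hmult : xᵀ * ψ.map (algebraMap ℚ K) * x = algebraMap ℚ K q • ψ.map (algebraMap ℚ K))
    {H₀ : Subgroup G} (hfin : H₀.FiniteIndex) (hprime : (H76RM.van (img K ρ H₀)).IsPrime)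
    {Ω : Type*} [Field Ω] [IsAlgClosed Ω] (j : M →+* Ω) (i : Ω →+* K) (b : Fin m)
    {n : ℕ} (bal : ∀ h ∈ properProj K ρ, 2 * (h * (e b).map (i.comp j)).rank = n)
    {a : Fin n → Ω} (ha : Function.Injective a)
    (hroot : ∀ y : Ω, (F b).eval₂ j y = 0 ↔ ∃ k, y = a k)
    (ht : ∀ k l : Fin n, ∀ N : ℕ, N ≠ 0 → a k ^ N = a l ^ N → k = l) :
    ∃ (U : Matrix ι (Fin n) K) (V : Matrix (Fin n) ι K),
      LocN (cl b) (ψ.map (algebraMap ℚ K)) (img K ρ H₀) (properProj K ρ) ((e b).map (i.comp j)) x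
        (algebraMap ℚ K q) U V (fun k => i (a k)) (YS a) := by
  classical
  obtain ⟨hJ, hdet0⟩ := gram_basic hψ hψ0 K
  have hsplK : Splits D ψ cl bar (fun c => (e c).map (i.comp j)) (u₀.map (i.comp j)) :=
    hspl.map (i.comp j)
  have hspl4 := hsplK.split4
  have hι : Nonempty ι := by
    by_contra hemp
    rw [not_nonempty_iff] at hemp
    apply hsplK.ne_zero b
    ext i'
    exact (hemp.false i').elim
  obtain ⟨φ', g₀⟩ := mk_phT (K := K) hψ hψ0 D ρ lin sim semis commt gen hF hfin hprime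
  have g := ph_unit g₀ hsplK.umem
  have hus : ∀ s ∈ img K ρ H₀, s * u₀.map (i.comp j) = u₀.map (i.comp j) * s := fun s hs =>
    g₀.sh.SD s hs _ hsplK.umem
  have hdet : IsUnit (ψ.map (algebraMap ℚ K) * u₀.map (i.comp j)).det := by
    rw [Matrix.det_mul]
    exact hdet0.mul hsplK.unit
  have hφe : x * (e b).map (i.comp j) = (e b).map (i.comp j) * x := g.φD _ (hspl4.mem b)
  obtain ⟨U, V, hUV, hVU, E⟩ := exists_ecT hF j i b (hspl.idem b) hφe.symm ha hroot
  have hn : 0 < n := by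
    rw [Nat.pos_iff_ne_zero]
    rintro rfl
    apply hsplK.ne_zero b
    rw [hUV]
    ext i' j'
    rw [Matrix.mul_apply, Finset.univ_eq_empty, Finset.sum_empty]
    rfl
  have hL : LcN (ψ.map (algebraMap ℚ K) * u₀.map (i.comp j)) (img K ρ H₀) U V =
      LcN (ψ.map (algebraMap ℚ K)) (img K ρ H₀) U V :=
    lcN_unit g₀.sh.one hus hsplK.unit U V
  have hts := H76Y.mk_tm (b := b) hspl4 bal hdet hUV hVU g E hn (by
    intro k l N hN hkl
    refine ht k l N hN (i.injective ?_)
    rw [map_pow, map_pow]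
    exact hkl)
  have heP : (e b).map (i.comp j) * U = U := by
    rw [hUV, Matrix.mul_assoc, hVU, Matrix.mul_one]
  -- the transposed form on the component
  have htr : ∀ A : Matrix ι ι K, Uᵀ * A * U =
      Uᵀ * (((e b).map (i.comp j))ᵀ * A * (e b).map (i.comp j)) * U := by
    intro A
    have h1 : Uᵀ * ((e b).map (i.comp j))ᵀ = Uᵀ := by rw [← Matrix.transpose_mul, heP]
    calc Uᵀ * A * U = (Uᵀ * ((e b).map (i.comp j))ᵀ) * A * ((e b).map (i.comp j) * U) := by
          rw [h1, heP]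
      _ = _ := by simp only [Matrix.mul_assoc]
  refine ⟨U, V, ?_⟩
  refine
    { pos := hn
      UV := hUV
      VU := hVU
      ec := E
      ex := hφe.symm
      ts := hL ▸ hts
      cls := ?_
      yo := ?_
      par := ?_
      lie := ?_
      prod := ?_ }
  · rw [← hL]
    refine ⟨fun hb => ?_, fun hb => ?_, fun hb => ?_⟩
    · have hbar : bar b = b := (hspl.self b).2 (by rw [hb]; decide)
      obtain ⟨h1, h2⟩ := form_inv (b := b) hspl4 hUV hVU g hbar hdet hn
      refine ⟨_, ?_, h1, h2⟩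
      rw [Matrix.transpose_mul, Matrix.transpose_mul, Matrix.transpose_transpose, ← Matrix.mul_assoc,
        htr, hsplK.alt b hb, Matrix.mul_neg, Matrix.neg_mul, ← htr]
    · have hbar : bar b = b := (hspl.self b).2 (by rw [hb]; decide)
      obtain ⟨h1, h2⟩ := form_inv (b := b) hspl4 hUV hVU g hbar hdet hn
      refine ⟨_, ?_, h1, h2⟩
      rw [Matrix.transpose_mul, Matrix.transpose_mul, Matrix.transpose_transpose, ← Matrix.mul_assoc,
        htr, hsplK.sym b hb, ← htr]
    · have hbar : bar b ≠ b := fun h => (hspl.self b).1 h hb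
      exact H76Y.nsl (b := b) hspl4 hUV hVU g.sh hbar hdet bal
  · rw [← hL, H76Y.Yo_eq_YS (b := b) hspl4 bal hdet hUV hVU g E hn]
    exact YS_map i a
  · intro h hh
    rw [← hL]
    exact ⟨g.sh.hi h hh, H76Y.g5_comm (b := b) hspl4 g hh, bal h hh,
      (H76Y.g5_inv (b := b) hspl4 bal hdet hUV hVU g hh).1⟩
  · intro C hC
    rw [← hL]
    refine ⟨?_, H76Y.lc_of_zlie (b := b) hspl4 hdet hUV hVU g hn hC⟩
    exact Pool.Agent.H76RM.zlie_commute g.sh.one (fun s hs => g.sh.SD s hs _ (hspl4.mem b)) hC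
  · obtain ⟨-, c, -, hc, hd⟩ := EN.tgen_det (n := n) (J := ψ.map (algebraMap ℚ K)) hUV hVU
      (𝓗 := properProj K ρ) (fun h hh => ⟨g.sh.hi h hh, H76Y.g5_comm (b := b) hspl4 g hh,
        g₀.sh.hs h hh, bal h hh⟩) hx
    have hJ0 : ψ.map (algebraMap ℚ K) ≠ 0 := by
      intro h0
      rw [h0] at hdet0
      rw [Matrix.det_zero] at hdet0
      exact not_isUnit_zero hdet0
    have hcq : c = algebraMap ℚ K q := smul_left_injective K hJ0 (by
      show c • ψ.map (algebraMap ℚ K) = algebraMap ℚ K q • ψ.map (algebraMap ℚ K)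
      rw [← hc, hmult])
    have hdg : cmp U V x = Matrix.diagonal (fun k => i (a k)) := cmp_phi hVU E
    rw [hdg, Matrix.det_diagonal, hcq] at hd
    exact hd

end Pool.Agent.H76Z
end

-- from Lib.H76Y.C4
section

/-!
# matrix entries
-/

set_option autoImplicit false
set_option linter.unusedSectionVars false
namespace Pool.Agent.H76Y
open Pool.Agent.H76P Pool.Agent.H76V Pool.Agent.H76Q
open Module Matrix Pool.Agent.H53Toric
open Pool.Agent.H76P
open Pool.Agent.H76T (IsIdeal Fam)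

variable {κ : Type*} {K : Type*} [Field K] [CharZero K] [Fintype κ] [DecidableEq κ]
  {L : Submodule K (Module.End K (κ → K))} {J : Matrix κ κ K} [IsAlgClosed K] [Nonempty κ]
  {Y : Submodule ℚ (κ → ℚ)} {P : Module.End ℚ Y}

/-- PROOF. `dq f ∈ AZ L P` for `f ∈ Y` with `FunP P f` (`dq_AZ`); it commutes with `B` (`AZ_comm`); compare the entries `(c, k)` of
`dq f * B` and `B * dq f` (`H76P.t5_left`, `t5_right`): `f c = f k`.  For `f : Y` apply this to `P f`. -/
theorem entry_cz (h : TM L) (hY : Yo L = Y) (hP : Sp P) (hc : Comp L P)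
    {B : Module.End K (κ → K)} (hB : B ∈ AZ L (1 - P)) {c k : κ}
    (hck : LinearMap.toMatrix' B c k ≠ 0) : cz P c k := by
  intro f
  have h1 : (dq (P f : κ → ℚ) : Module.End K (κ → K)) ∈ AZ L P := by
    refine dq_AZ h hY hP hc (P f).2 ?_
    intro a b hab
    exact hab f
  have h2 := AZ_comm h hY hP _ h1 B hB
  have h3 := congrArg (fun X : Module.End K (κ → K) => LinearMap.toMatrix' X c k) h2
  change LinearMap.toMatrix' (dq (P f : κ → ℚ) * B) c k
    = LinearMap.toMatrix' (B * dq (P f : κ → ℚ)) c k at h3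
  rw [t5_left, t5_right] at h3
  have h4 := mul_right_cancel₀ hck h3
  exact_mod_cast h4

theorem c4_compl (hP : Sp P) : Sp (1 - P) where
  idem := by
    refine LinearMap.ext fun f => ?_
    have h2 : P (P f) = P f := LinearMap.congr_fun hP.idem f
    change (f - P f) - P (f - P f) = f - P f
    rw [map_sub, h2, sub_self, sub_zero]
  mix := by
    intro a b
    obtain ⟨c, hc⟩ := hP.mix b a
    refine ⟨c, fun f => ?_⟩
    have h1 : (((1 - P) f : Y) : κ → ℚ) = (f : κ → ℚ) - (P f : κ → ℚ) := rfl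
    rw [hc f, h1, Pi.sub_apply, Pi.sub_apply]
    ring

theorem c4_top (h : TM L) (hY : Yo L = Y) (hP : Sp P) (hc : Comp L P)
    (X : Module.End K (κ → K)) :
    X ∈ Subalgebra.toSubmodule (AZ L P) * Subalgebra.toSubmodule (AZ L (1 - P)) := by
  set M := Subalgebra.toSubmodule (AZ L P) * Subalgebra.toSubmodule (AZ L (1 - P)) with hM
  have h1 : (1 : Module.End K (κ → K)) ∈ M := by
    have := Submodule.mul_mem_mul (M := Subalgebra.toSubmodule (AZ L P))
      (N := Subalgebra.toSubmodule (AZ L (1 - P))) (AZ L P).one_mem (AZ L (1 - P)).one_mem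
    rwa [mul_one] at this
  have h2 : ∀ x y, x ∈ M → y ∈ M → x * y ∈ M := by
    intro x y hx hy
    refine Submodule.mul_induction_on hx (fun a ha b hb => ?_) (fun x x' h1 h2 => ?_)
    · refine Submodule.mul_induction_on hy (fun a' ha' b' hb' => ?_) (fun y y' h1 h2 => ?_)
      · have h3 := AZ_comm h hY hP a' ha' b hb
        have h4 : a * b * (a' * b') = a * a' * (b * b') := by
          rw [mul_assoc, ← mul_assoc b a' b', ← h3, mul_assoc a' b b', ← mul_assoc a a']
        rw [h4]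
        exact Submodule.mul_mem_mul ((AZ L P).mul_mem ha ha') ((AZ L (1 - P)).mul_mem hb hb')
      · rw [mul_add]
        exact M.add_mem h1 h2
    · rw [add_mul]
      exact M.add_mem h1 h2
  have h3 : AZ L P ⊔ AZ L (1 - P) ≤ M.toSubalgebra h1 h2 := by
    refine sup_le ?_ ?_
    · intro a ha
      have := Submodule.mul_mem_mul (M := Subalgebra.toSubmodule (AZ L P))
        (N := Subalgebra.toSubmodule (AZ L (1 - P))) ha (AZ L (1 - P)).one_mem
      rw [mul_one] at this
      exact this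
    · intro b hb
      have := Submodule.mul_mem_mul (M := Subalgebra.toSubmodule (AZ L P))
        (N := Subalgebra.toSubmodule (AZ L (1 - P))) (AZ L P).one_mem hb
      rw [one_mul] at this
      exact this
  rw [AZ_top h hc] at h3
  exact h3 (Algebra.mem_top (x := X))

theorem c4_compl2 : (1 - (1 - P) : Module.End ℚ Y) = P := sub_sub_cancel 1 P

/-- PROOF. `AZ L P ⊔ AZ L (1 - P) = ⊤` (`AZ_top`) and the algebras commute (`AZ_comm`), so each operator is a sum of products `A * B`.  So there are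
`A ∈ AZ L P`, `B ∈ AZ L (1 - P)` with `(A * B) k' k ≠ 0`, so `A k' c ≠ 0`, `B c k ≠ 0` for some `c`.  `entry_cz` for `P`: `c ~ k` in the first
coordinate, so `c ~ k'`; `entry_cz` for `1 - P`: `k' ~ c` in the second coordinate.  So `c = k'` (`cz_both`, `TM.sep`). -/
theorem exB (h : TM L) (hY : Yo L = Y) (hP : Sp P) (hc : Comp L P) {k k' : κ}
    (hk : cz P k k') : ∃ B ∈ AZ L (1 - P), LinearMap.toMatrix' B k' k ≠ 0 := by
  have h1 : ∃ A ∈ AZ L P, ∃ B ∈ AZ L (1 - P), LinearMap.toMatrix' (A * B) k' k ≠ 0 := by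
    by_contra hcon
    push Not at hcon
    have h2 : ∀ X : Module.End K (κ → K), LinearMap.toMatrix' X k' k = 0 := by
      intro X
      refine Submodule.mul_induction_on (c4_top h hY hP hc X) (fun a ha b hb => ?_)
        (fun x y hx hy => ?_)
      · exact hcon a ha b hb
      · rw [map_add, Matrix.add_apply, hx, hy, add_zero]
    have h3 := h2 (Matrix.toLin' (Matrix.single k' k (1 : K)))
    rw [LinearMap.toMatrix'_toLin', Matrix.single_apply_same] at h3
    exact one_ne_zero h3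
  obtain ⟨A, hA, B, hB, hAB⟩ := h1
  have h4 : LinearMap.toMatrix' (A * B) = LinearMap.toMatrix' A * LinearMap.toMatrix' B :=
    LinearMap.toMatrix'_mul A B
  rw [h4, Matrix.mul_apply] at hAB
  obtain ⟨c, -, hcne⟩ := Finset.exists_ne_zero_of_sum_ne_zero hAB
  have hA0 : LinearMap.toMatrix' A k' c ≠ 0 := left_ne_zero_of_mul hcne
  have hB0 : LinearMap.toMatrix' B c k ≠ 0 := right_ne_zero_of_mul hcne
  have h5 : cz P c k := entry_cz h hY hP hc hB hB0
  have h6 : cz (1 - P) k' c := by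
    refine entry_cz h hY (c4_compl hP) hc.compl (B := A) ?_ hA0
    rw [c4_compl2]
    exact hA
  have h7 : c = k' := by
    refine cz_both ?_ (cz_trans h5 hk) (cz_symm h6)
    intro a b hab
    obtain ⟨f, hf, hne⟩ := h.sep a b hab
    exact ⟨f, hY ▸ hf, hne⟩
  exact ⟨B, hB, h7 ▸ hB0⟩

theorem c4_left (f : κ → K) (X : Module.End K (κ → K)) (c d : κ) :
    LinearMap.toMatrix' (dg f * X) c d = f c * LinearMap.toMatrix' X c d := by
  rw [LinearMap.toMatrix'_apply, LinearMap.toMatrix'_apply]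
  rfl

theorem c4_right (f : κ → K) (X : Module.End K (κ → K)) (c d : κ) :
    LinearMap.toMatrix' (X * dg f) c d = f d * LinearMap.toMatrix' X c d := by
  rw [LinearMap.toMatrix'_apply, LinearMap.toMatrix'_apply, Module.End.mul_apply]
  have h : (dg f : Module.End K (κ → K)) (Pi.single d 1) = f d • Pi.single d 1 := by
    ext a
    rw [dg_apply, Pi.smul_apply, smul_eq_mul]
    by_cases h : a = d
    · subst h
      rfl
    · rw [Pi.single_eq_of_ne h, mul_zero, mul_zero]
  rw [h, map_smul, Pi.smul_apply, smul_eq_mul]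

/-- PROOF. With `B` as in `exB` compare the entries `(k', k)` of `dg g * B = B * dg g`. -/
theorem diag_AZ (h : TM L) (hY : Yo L = Y) (hP : Sp P) (hc : Comp L P) {g : κ → K}
    (hg : dg g ∈ AZ L P) : FunP P g := by
  intro k k' hk
  obtain ⟨B, hB, hB0⟩ := exB h hY hP hc hk
  have h1 := AZ_comm h hY hP _ hg B hB
  have h2 := congrArg (fun X : Module.End K (κ → K) => LinearMap.toMatrix' X k' k) h1
  change LinearMap.toMatrix' (dg g * B) k' k = LinearMap.toMatrix' (B * dg g) k' k at h2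
  rw [c4_left, c4_right] at h2
  exact (mul_right_cancel₀ hB0 h2).symm

end Pool.Agent.H76Y
end

-- from Lib.H76Y.C6
section

/-!
# diagonal pure tensors
-/

set_option autoImplicit false
set_option linter.unusedSectionVars false
namespace Pool.Agent.H76Y
open Pool.Agent.H76P Pool.Agent.H76V Pool.Agent.H76Q
open Module Matrix Pool.Agent.H53Toric
open Pool.Agent.H76P
open Pool.Agent.H76T (IsIdeal Fam)

variable {κ : Type*} {K : Type*} [Field K] [CharZero K] [Fintype κ] [DecidableEq κ]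
  {L : Submodule K (Module.End K (κ → K))} {J : Matrix κ κ K} [IsAlgClosed K] [Nonempty κ]
  {Y : Submodule ℚ (κ → ℚ)} {P : Module.End ℚ Y}

theorem c6_left (f : κ → K) (X : Module.End K (κ → K)) (c d : κ) :
    LinearMap.toMatrix' (dg f * X) c d = f c * LinearMap.toMatrix' X c d := by
  rw [LinearMap.toMatrix'_apply, LinearMap.toMatrix'_apply]
  rfl

theorem c6_right (f : κ → K) (X : Module.End K (κ → K)) (c d : κ) :
    LinearMap.toMatrix' (X * dg f) c d = f d * LinearMap.toMatrix' X c d := by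
  rw [LinearMap.toMatrix'_apply, LinearMap.toMatrix'_apply, Module.End.mul_apply]
  have h : (dg f : Module.End K (κ → K)) (Pi.single d 1) = f d • Pi.single d 1 := by
    ext a
    rw [dg_apply, Pi.smul_apply, smul_eq_mul]
    by_cases h : a = d
    · subst h
      rfl
    · rw [Pi.single_eq_of_ne h, mul_zero, mul_zero]
  rw [h, map_smul, Pi.smul_apply, smul_eq_mul]

theorem c6_mat (f : κ → K) : LinearMap.toMatrix' (dg f) = Matrix.diagonal f := by
  ext a b
  rw [LinearMap.toMatrix'_apply, dg_apply, Matrix.diagonal_apply]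
  by_cases hab : a = b
  · subst hab
    rw [if_pos rfl, Pi.single_eq_same, mul_one]
  · rw [if_neg hab, Pi.single_eq_of_ne hab, mul_zero]

theorem c6_comm {g : κ → K} (hg : Function.Injective g) {X : Module.End K (κ → K)}
    (hX : dg g * X = X * dg g) : ∃ f : κ → K, X = dg f := by
  refine ⟨fun a => LinearMap.toMatrix' X a a, ?_⟩
  apply LinearMap.toMatrix'.injective
  rw [c6_mat]
  ext a b
  rw [Matrix.diagonal_apply]
  by_cases hab : a = b
  · subst hab
    rw [if_pos rfl]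
  · rw [if_neg hab]
    have h1 := congrArg (fun X : Module.End K (κ → K) => LinearMap.toMatrix' X a b) hX
    change LinearMap.toMatrix' (dg g * X) a b = LinearMap.toMatrix' (X * dg g) a b at h1
    rw [c6_left, c6_right, ← sub_eq_zero, ← sub_mul] at h1
    rcases mul_eq_zero.1 h1 with h2 | h2
    · exact absurd (hg (sub_eq_zero.1 h2)) hab
    · exact h2

/-- PROOF. `u`, `r` commute with `dg g = u * r`, `g` is injective, so `u = dg u₀`, `r = dg r₀` (see `H76P.cmp_diag`); `diag_AZ` for `P` and `1 - P`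
(`Comp.compl`, `Sp.compl`). -/
theorem PT_diag (h : TM L) (hY : Yo L = Y) (hP : Sp P) (hc : Comp L P) {g : κ → K}
    (hg : Function.Injective g) {u r : Module.End K (κ → K)} {t : K}
    (h1 : PTN L P (dg g) u r t) :
    ∃ u₀ r₀ : κ → K, u = dg u₀ ∧ r = dg r₀ ∧ FunP P u₀ ∧ FunP (1 - P) r₀ ∧
      ∀ k, g k = u₀ k * r₀ k := by
  obtain ⟨hu, hr, hX, -⟩ := h1
  have hur : u * r = r * u := AZ_comm h hY hP u hu r hr
  have h2 : dg g * u = u * dg g := by
    rw [hX, mul_assoc, ← hur]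
  have h3 : dg g * r = r * dg g := by
    rw [hX, hur, mul_assoc, hur]
  obtain ⟨u₀, hu₀⟩ := c6_comm hg h2
  obtain ⟨r₀, hr₀⟩ := c6_comm hg h3
  refine ⟨u₀, r₀, hu₀, hr₀, ?_, ?_, ?_⟩
  · refine diag_AZ h hY hP hc ?_
    rw [← hu₀]
    exact hu
  · refine diag_AZ h hY (c4_compl hP) hc.compl ?_
    rw [← hr₀]
    exact hr
  · intro k
    rw [hu₀, hr₀, dg_mul] at hX
    exact congrFun (dg_inj hX) k

theorem det_dg (g : κ → K) :
    LinearMap.det (dg g : Module.End K (κ → K)) = ∏ k, g k := by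
  rw [← LinearMap.det_toMatrix', c6_mat, Matrix.det_diagonal]

end Pool.Agent.H76Y
end

-- from Lib.H76Y.F5
section

/-!
# comparison of two pure tensors
-/

set_option autoImplicit false
set_option linter.unusedSectionVars false
namespace Pool.Agent.H76Y
open Pool.Agent.H76P Pool.Agent.H76V Pool.Agent.H76Q
open Module Matrix Pool.Agent.H53Toric
open Pool.Agent.H76P
open Pool.Agent.H76T (IsIdeal Fam)

variable {κ : Type*} {K : Type*} [Field K] [CharZero K] [Fintype κ] [DecidableEq κ]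
  {L : Submodule K (Module.End K (κ → K))} {J : Matrix κ κ K} [IsAlgClosed K] [Nonempty κ]
  {Y : Submodule ℚ (κ → ℚ)} {P : Module.End ℚ Y}

/-- PROOF. As `H76Q.unr_u` (F5).  `PT_inv` gives `y'`, `u'` with `y y' = 1`, `u u' = 1` and factorisations of `Ξ'`, `X'`.  `X' * (Ξ * Φ * Ξ')` is a pure tensor with first factor
`s = u' * (y * w * y')` (`PT_mul`); its second factor `ρ` has `det ρ ≠ 0`, so is invertible (`LinearMap.isUnit_iff_isUnit_det` or `LinearMap.equivOfDetNeZero`); `s ρ` commutes with `AZ L P`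
and so does `ρ` (`AZ_comm`), so `s` commutes with `AZ L P`; as `s ∈ AZ L P` it commutes with `AZ L (1 - P)`, too (`AZ_comm`), so `s` is a scalar (`AZ_scalar`), not `0`.
Determinants: `det (y * w * y') = t'`, `det (c • z) = c ^ n det z` (`LinearMap.det_smul`, `Module.finrank_pi`). -/
theorem unr_u (h : TM L) (hY : Yo L = Y) (hP : Sp P) (hc : Comp L P)
    {X X' Φ Ξ Ξ' u r w r' y r'' : Module.End K (κ → K)} {t t' t'' : K} (h1 : PTN L P X u r t)
    (h2 : PTN L P Φ w r' t') (h3 : PTN L P Ξ y r'' t'') (hΞ : Ξ * Ξ' = 1) (hX : X * X' = 1)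
    (hz : ∀ A ∈ AZ L P, (X' * (Ξ * Φ * Ξ')) * A = A * (X' * (Ξ * Φ * Ξ'))) :
    ∃ (c : K) (y' : Module.End K (κ → K)), c ≠ 0 ∧ y * y' = 1 ∧ u = c • (y * w * y') ∧
      t = c ^ Fintype.card κ * t' := by
  obtain ⟨y', r3, hyy, h3'⟩ := PT_inv h hY hP h3 hΞ
  obtain ⟨u', r1, huu, h1'⟩ := PT_inv h hY hP h1 hX
  have h4 := PT_mul h hY hP (PT_mul h hY hP h3 h2) h3'
  have h5 := PT_mul h hY hP h1' h4
  set ρ := r1 * (r'' * r' * r3) with hρ
  set s := u' * (y * w * y') with hs
  obtain ⟨hsA, hρA, hprod, -, -, hρd⟩ := h5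
  obtain ⟨ρ', -, hρinv, -⟩ := EN.exists_inv hρA hρd
  have hs1 : ∀ A ∈ AZ L P, s * A = A * s := by
    intro A hA
    have e1 := hz A hA
    rw [hprod] at e1
    have e2 : A * ρ = ρ * A := AZ_comm h hY hP A hA ρ hρA
    have e3 : (s * A) * ρ = (A * s) * ρ := by
      calc (s * A) * ρ = s * (A * ρ) := mul_assoc _ _ _
        _ = s * (ρ * A) := by rw [e2]
        _ = (s * ρ) * A := (mul_assoc _ _ _).symm
        _ = A * (s * ρ) := e1
        _ = (A * s) * ρ := (mul_assoc _ _ _).symm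
    calc s * A = (s * A) * (ρ * ρ') := by rw [hρinv, mul_one]
      _ = ((s * A) * ρ) * ρ' := (mul_assoc _ _ _).symm
      _ = ((A * s) * ρ) * ρ' := by rw [e3]
      _ = (A * s) * (ρ * ρ') := mul_assoc _ _ _
      _ = A * s := by rw [hρinv, mul_one]
  have hs2 : ∀ A ∈ AZ L (1 - P), s * A = A * s := fun A hA => AZ_comm h hY hP s hsA A hA
  obtain ⟨c, hcs⟩ := AZ_scalar h hc hs1 hs2
  have h6 : y * w * y' = c • u := by
    calc y * w * y' = (u * u') * (y * w * y') := by rw [huu, one_mul]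
      _ = u * s := by rw [hs, mul_assoc]
      _ = c • u := by rw [hcs, mul_smul_comm, mul_one]
  have h7 : LinearMap.det (y * w * y') = t' := by
    have h8 := h4.2.2.2.2.1
    rw [h8, mul_comm t'' t', mul_assoc, mul_inv_cancel₀ h3.2.2.2.1, mul_one]
  have hc0 : c ≠ 0 := by
    intro hc0
    rw [hc0, zero_smul] at h6
    rw [h6] at h7
    exact h2.2.2.2.1 (by rw [← h7]; exact LinearMap.det_zero'')
  have hu : u = c⁻¹ • (y * w * y') := by
    rw [h6, smul_smul, inv_mul_cancel₀ hc0, one_smul]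
  refine ⟨c⁻¹, y', inv_ne_zero hc0, hyy, hu, ?_⟩
  rw [← h1.2.2.2.2.1, hu, LinearMap.det_smul, h7, Module.finrank_fintype_fun_eq_card]

theorem f5_dg_unit (g : κ → K) : IsUnit (dg g : Module.End K (κ → K)) ↔ ∀ k, g k ≠ 0 := by
  constructor
  · intro hu k hk
    obtain ⟨B, hB⟩ := hu.exists_left_inv
    have h1 : (dg g : Module.End K (κ → K)) (Pi.single k 1) = 0 := by
      funext a
      rw [dg_apply]
      by_cases hab : a = k
      · rw [hab, hk, zero_mul]
        rfl
      · rw [Pi.single_eq_of_ne hab, mul_zero]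
        rfl
    have h2 : (B * dg g) (Pi.single k (1 : K)) = 0 := by
      rw [Module.End.mul_apply, h1, map_zero]
    rw [hB] at h2
    have h3 := congrFun h2 k
    rw [Module.End.one_apply, Pi.single_eq_same] at h3
    exact one_ne_zero h3
  · intro hg
    have h1 : (dg g : Module.End K (κ → K)) * dg (fun k => (g k)⁻¹) = 1 := by
      refine LinearMap.ext fun v => funext fun a => ?_
      rw [Module.End.mul_apply, dg_apply, dg_apply, Module.End.one_apply, ← mul_assoc,
        mul_inv_cancel₀ (hg a), one_mul]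
    exact IsUnit.of_mul_eq_one _ h1

/-- PROOF. `u - l • 1 = y * dg (fun k => c * u₀ k - l) * y'`; a diagonal operator is invertible iff no entry is zero. -/
theorem spec_conj {u y y' : Module.End K (κ → K)} {u₀ : κ → K} {c : K} (hy : y * y' = 1)
    (hu : u = c • (y * dg u₀ * y')) (l : K) : ¬ IsUnit (u - l • 1) ↔ ∃ k, l = c * u₀ k := by
  have hy' : y' * y = 1 := mul_eq_one_comm.1 hy
  have hyu : IsUnit y := ⟨⟨y, y', hy, hy'⟩, rfl⟩
  have hyu' : IsUnit y' := ⟨⟨y', y, hy', hy⟩, rfl⟩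
  have h1 : u - l • 1 = y * dg (fun k => c * u₀ k - l) * y' := by
    have e1 : (dg (fun k => c * u₀ k - l) : Module.End K (κ → K)) = c • dg u₀ - l • 1 := by
      refine LinearMap.ext fun v => funext fun a => ?_
      rw [LinearMap.sub_apply, LinearMap.smul_apply, LinearMap.smul_apply, Pi.sub_apply,
        Pi.smul_apply, Pi.smul_apply, dg_apply, dg_apply, Module.End.one_apply, smul_eq_mul,
        smul_eq_mul]
      ring
    rw [e1, mul_sub, sub_mul, mul_smul_comm, smul_mul_assoc, mul_smul_comm, smul_mul_assoc, mul_one,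
      hy, hu]
  have h2 : IsUnit (y * dg (fun k => c * u₀ k - l) * y') ↔
      IsUnit (dg (fun k => c * u₀ k - l) : Module.End K (κ → K)) := by
    constructor
    · intro h
      have h3 := (hyu'.mul h).mul hyu
      have e : y' * (y * dg (fun k => c * u₀ k - l) * y') * y = dg (fun k => c * u₀ k - l) := by
        calc y' * (y * dg (fun k => c * u₀ k - l) * y') * y
            = (y' * y) * dg (fun k => c * u₀ k - l) * (y' * y) := by simp only [mul_assoc]
          _ = dg (fun k => c * u₀ k - l) := by rw [hy', one_mul, mul_one]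
      rwa [e] at h3
    · intro h
      exact (hyu.mul h).mul hyu'
  rw [h1, h2, f5_dg_unit]
  constructor
  · intro hcon
    push Not at hcon
    obtain ⟨k, hk⟩ := hcon
    exact ⟨k, (sub_eq_zero.1 hk).symm⟩
  · rintro ⟨k, hk⟩ hcon
    exact hcon k (by rw [hk, sub_self])

/-- PROOF. `θ (u - l • 1) = u - τ l • 1`, and `θ` maps units to units. -/
theorem ThetaN.spec {θ : Module.End K (κ → K) ≃+* Module.End K (κ → K)} {τ : K ≃+* K}
    {σ : Equiv.Perm κ} (hθ : ThetaN L θ τ σ) {u : Module.End K (κ → K)} (hu : θ u = u) (l : K)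
    (hl : ¬ IsUnit (u - l • 1)) : ¬ IsUnit (u - τ l • 1) := by
  intro hcon
  apply hl
  have h1 : θ (u - l • 1) = u - τ l • 1 := by
    rw [map_sub, hu, hθ.smul, map_one]
  rw [← h1] at hcon
  have h2 := hcon.map θ.symm
  rwa [θ.symm_apply_apply] at h2

end Pool.Agent.H76Y
end

-- from Lib.H76Z.F1
section

/-!
# integral elements
-/

set_option autoImplicit false
set_option linter.unusedSectionVars false
namespace Pool.Agent.H76Z
open Pool.Agent.H76Y
open Pool.Agent.H76P Pool.Agent.H76V Pool.Agent.H76Q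
open Module Matrix Polynomial Pool.Agent.H53Toric
open Pool.Agent.H76P
open Pool.Agent.H76T (IsIdeal Fam Lc)
open Pool.Agent.H76U (cmp preL IsSplitting)
open Pool.Agent.H76RM (spanK similD)

variable {ι : Type*} [Fintype ι] [DecidableEq ι] {K : Type*} [Field K] [CharZero K]
  [IsAlgClosed K] {ct : Cl} {J : Matrix ι ι K} {S 𝓗 : Set (Matrix ι ι K)} {e x : Matrix ι ι K} {q : K} {n : ℕ}
  {U : Matrix ι (Fin n) K} {V : Matrix (Fin n) ι K} {d : Fin n → K}
  {Y : Submodule ℚ (Fin n → ℚ)}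

theorem f1_one {v : K → ℚ} (hv : IsVal v) : v 1 = 0 ∧ v (-1) = 0 := by
  have h1 : v 1 = 0 := by
    have := hv.mul 1 1 one_ne_zero one_ne_zero
    rw [mul_one] at this
    linarith
  refine ⟨h1, ?_⟩
  have hm : (-1 : K) ≠ 0 := neg_ne_zero.2 one_ne_zero
  have := hv.mul (-1) (-1) hm hm
  rw [neg_one_mul, neg_neg, h1] at this
  linarith

theorem f1_inv {v : K → ℚ} (hv : IsVal v) {t : K} (ht : t ≠ 0) : v t⁻¹ = - v t := by
  have := hv.mul t t⁻¹ ht (inv_ne_zero ht)
  rw [mul_inv_cancel₀ ht, (f1_one hv).1] at this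
  linarith

theorem f1_sum {v : K → ℚ} (hv : IsVal v) {α : Type*} (s : Finset α) (f : α → K) :
    (∀ i ∈ s, f i ≠ 0 → 0 ≤ v (f i)) → ∑ i ∈ s, f i ≠ 0 → 0 ≤ v (∑ i ∈ s, f i) := by
  classical
  induction s using Finset.induction_on with
  | empty => intro _ h; simp at h
  | insert a s ha ih =>
    intro h hne
    rw [Finset.sum_insert ha] at hne ⊢
    have ih' := ih (fun i hi => h i (Finset.mem_insert_of_mem hi))
    by_cases h1 : f a = 0
    · rw [h1, zero_add] at hne ⊢
      exact ih' hne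
    · by_cases h2 : ∑ i ∈ s, f i = 0
      · rw [h2, add_zero]
        exact h a (Finset.mem_insert_self _ _) h1
      · exact le_trans (le_min (h a (Finset.mem_insert_self _ _) h1) (ih' h2)) (hv.add _ _ h1 h2 hne)

theorem f1_mul {v : K → ℚ} (hv : IsVal v) {A B : Matrix ι ι K} (hA : IntMat v A)
    (hB : IntMat v B) : IntMat v (A * B) := by
  intro i j hij
  rw [Matrix.mul_apply] at hij ⊢
  apply f1_sum hv _ _ _ hij
  intro k _ hk
  have h1 : A i k ≠ 0 := left_ne_zero_of_mul hk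
  have h2 : B k j ≠ 0 := right_ne_zero_of_mul hk
  rw [hv.mul _ _ h1 h2]
  exact add_nonneg (hA i k h1) (hB k j h2)

theorem f1_add {v : K → ℚ} (hv : IsVal v) {A B : Matrix ι ι K} (hA : IntMat v A)
    (hB : IntMat v B) : IntMat v (A + B) := by
  intro i j hij
  rw [Matrix.add_apply] at hij ⊢
  by_cases h1 : A i j = 0
  · rw [h1, zero_add] at hij ⊢
    exact hB i j hij
  · by_cases h2 : B i j = 0
    · rw [h2, add_zero]
      exact hA i j h1
    · exact le_trans (le_min (hA i j h1) (hB i j h2)) (hv.add _ _ h1 h2 hij)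

theorem f1_id {v : K → ℚ} (hv : IsVal v) : IntMat v (1 : Matrix ι ι K) := by
  intro i j hij
  by_cases h : i = j
  · rw [h, Matrix.one_apply_eq, (f1_one hv).1]
  · rw [Matrix.one_apply_ne h] at hij
    exact absurd rfl hij

theorem f1_gen {v : K → ℚ} (hv : IsVal v) {k : Matrix ι ι K} (hk : IntMat v k) {t : K}
    (ht : t ≠ 0) (hvt : v t = 0) : IntMat v (1 + (t - 1) • k) := by
  apply f1_add hv (f1_id hv)
  intro i j hij
  rw [Matrix.smul_apply, smul_eq_mul] at hij ⊢
  have h1 : t - 1 ≠ 0 := left_ne_zero_of_mul hij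
  have h2 : k i j ≠ 0 := right_ne_zero_of_mul hij
  rw [hv.mul _ _ h1 h2]
  have h3 : 0 ≤ v (t - 1) := by
    have h4 := hv.add t (-1) ht (neg_ne_zero.2 one_ne_zero) (by rwa [← sub_eq_add_neg])
    rw [hvt, (f1_one hv).2, min_self, ← sub_eq_add_neg] at h4
    exact h4
  exact add_nonneg h3 (hk i j h2)

theorem f1_mat (A : Matrix (Fin n) (Fin n) K) : LinearMap.toMatrix' (phi A) = A := by
  have : (phi A : Module.End K (Fin n → K)) = Matrix.toLin' A := rfl
  rw [this, LinearMap.toMatrix'_toLin']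

theorem f1_conj (hVU : V * U = 1) (A B : Matrix (Fin n) (Fin n) K) :
    U * (A * B) * V = (U * A * V) * (U * B * V) := by
  have h1 : (U * A * V) * (U * B * V) = U * A * (V * U) * B * V := by
    simp only [Matrix.mul_assoc]
  rw [h1, hVU, Matrix.mul_one]
  simp only [Matrix.mul_assoc]

/-- the compression of a generator -/
theorem f1_cmp (h : LocN ct J S 𝓗 e x q U V d Y) {k : Matrix ι ι K} (t : K) :
    phi (cmp U V (1 + (t - 1) • k)) =
      ((1 + t) / 2) • (1 : Module.End K (Fin n → K)) +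
        ((t - 1) / 2) • phi (cmp U V ((2 : K) • k - 1)) := by
  have h1 : cmp U V (1 + (t - 1) • k) = ((1 + t) / 2) • (1 : Matrix (Fin n) (Fin n) K) +
      ((t - 1) / 2) • cmp U V ((2 : K) • k - 1) := by
    rw [map_add, map_sub, map_smul, map_smul, Pool.Agent.H76U.cmp_one h.UV h.VU, smul_sub, smul_smul]
    have e1 : (t - 1) / 2 * 2 = t - 1 := by
      field_simp
    rw [e1]
    have e2 : (1 : Matrix (Fin n) (Fin n) K) = ((1 + t) / 2) • (1 : Matrix (Fin n) (Fin n) K) -
        ((t - 1) / 2) • (1 : Matrix (Fin n) (Fin n) K) := by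
      rw [← sub_smul]
      have : (1 + t) / 2 - (t - 1) / 2 = 1 := by
        field_simp
        ring
      rw [this, one_smul]
    nth_rw 1 [e2]
    abel
  rw [h1, map_add, map_smul, map_smul, map_one]

/-- PROOF. `Submonoid.closure_induction`.  For a generator `y = 1 + (t - 1) k` put `y' = 1 + (t⁻¹ - 1) k`; `v t⁻¹ = 0`.  With `PT_par`: if the first alternative holds take
`u = phi (cmp U V y)`, `u' = phi (cmp U V y')`: `U * cmp U V y * V = e * y * e = y * e` has integral entries (`IsVal`: sums and products of integral numbers are integral, `v 1 = 0`, `v (t - 1) ≥ 0` or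
`t = 1`).  Otherwise `u = u' = 1` and `U * V = e`.  Products: `U * (A * B) * V = (U * A * V) * (U * B * V)`; `PT_mul`. -/
theorem int_PT (h : LocN ct J S 𝓗 e x q U V d Y) {v : K → ℚ} (hv : IsVal v) (he : IntMat v e)
    {P : Module.End ℚ Y} (hP : Sp P) (hc : Comp (LcN J S U V) P) {g : Matrix ι ι K}
    (hg : g ∈ Submonoid.closure {y | ∃ k ∈ 𝓗, IntMat v k ∧ ∃ t : K, t ≠ 0 ∧ v t = 0 ∧
      y = 1 + (t - 1) • k}) :
    ∃ u u' r t, PTN (LcN J S U V) P (phi (cmp U V g)) u r t ∧ v t = 0 ∧ u * u' = 1 ∧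
      IntMat v (U * LinearMap.toMatrix' u * V) ∧ IntMat v (U * LinearMap.toMatrix' u' * V) := by
  have : Nonempty (Fin n) := ⟨⟨0, h.pos⟩⟩
  have key : g * e = e * g ∧
    ∃ u u' r t, PTN (LcN J S U V) P (phi (cmp U V g)) u r t ∧ v t = 0 ∧ u * u' = 1 ∧
      IntMat v (U * LinearMap.toMatrix' u * V) ∧ IntMat v (U * LinearMap.toMatrix' u' * V) := by
    induction hg using Submonoid.closure_induction with
    | mem y hy =>
      obtain ⟨k, hk, hki, t, ht, hvt, rfl⟩ := hy
      obtain ⟨hkk, hke, _, hkL⟩ := h.par k hk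
      have hye : ∀ t : K, (1 + (t - 1) • k) * e = e * (1 + (t - 1) • k) := by
        intro t
        rw [add_mul, mul_add, one_mul, mul_one, smul_mul_assoc, mul_smul_comm, hke]
      refine ⟨hye t, ?_⟩
      set y0 := phi (cmp U V ((2 : K) • k - 1)) with hy0
      have h2e : ((2 : K) • k - 1) * e = e * ((2 : K) • k - 1) := by
        rw [sub_mul, mul_sub, one_mul, mul_one, smul_mul_assoc, mul_smul_comm, hke]
      have hyy : y0 * y0 = 1 := by
        rw [hy0, ← map_mul, ← Pool.Agent.H76U.cmp_mul h.UV h.VU h2e]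
        have e1 : ((2 : K) • k - 1) * ((2 : K) • k - 1) = 1 := by
          rw [sub_mul, mul_sub, one_mul, mul_one, smul_mul_assoc, mul_smul_comm, hkk, smul_smul]
          have : (2 * 2 : K) • k = (2 : K) • k + (2 : K) • k := by
            rw [← add_smul]
            norm_num
          rw [this]
          abel
        rw [e1, Pool.Agent.H76U.cmp_one h.UV h.VU, map_one]
      rcases PT_par (P := P) h.ts hc hkL hyy ht with h1 | h1
      · rw [← f1_cmp h t] at h1
        refine ⟨_, phi (cmp U V (1 + (t⁻¹ - 1) • k)), _, _, h1, by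
          rw [(IsVal.basic hv).2.2.2 t ht, hvt, mul_zero], ?_, ?_, ?_⟩
        · rw [← map_mul, ← Pool.Agent.H76U.cmp_mul h.UV h.VU (hye t⁻¹)]
          have e1 : (1 + (t - 1) • k) * (1 + (t⁻¹ - 1) • k) = 1 := by
            rw [add_mul, one_mul, mul_add, mul_one, smul_mul_assoc, mul_smul_comm, hkk, smul_smul,
              add_assoc, ← add_smul, ← add_smul]
            have : t⁻¹ - 1 + (t - 1 + (t - 1) * (t⁻¹ - 1)) = 0 := by
              field_simp
              ring
            rw [this, zero_smul, add_zero]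
          rw [e1, Pool.Agent.H76U.cmp_one h.UV h.VU, map_one]
        · rw [f1_mat, Pool.Agent.H76U.cmp_apply]
          have e1 : U * (V * (1 + (t - 1) • k) * U) * V = e * (1 + (t - 1) • k) * e := by
            rw [h.UV]
            simp only [Matrix.mul_assoc]
          rw [e1]
          exact f1_mul hv (f1_mul hv he (f1_gen hv hki ht hvt)) he
        · rw [f1_mat, Pool.Agent.H76U.cmp_apply]
          have e1 : U * (V * (1 + (t⁻¹ - 1) • k) * U) * V = e * (1 + (t⁻¹ - 1) • k) * e := by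
            rw [h.UV]
            simp only [Matrix.mul_assoc]
          rw [e1]
          exact f1_mul hv (f1_mul hv he (f1_gen hv hki (inv_ne_zero ht)
            (by rw [f1_inv hv ht, hvt, neg_zero]))) he
      · rw [← f1_cmp h t] at h1
        refine ⟨_, 1, _, _, h1, (f1_one hv).1, one_mul 1, ?_, ?_⟩
        · rw [LinearMap.toMatrix'_one, Matrix.mul_one, ← h.UV]
          exact he
        · rw [LinearMap.toMatrix'_one, Matrix.mul_one, ← h.UV]
          exact he
    | one =>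
      refine ⟨by rw [one_mul, mul_one], 1, 1, 1, 1, ?_, (f1_one hv).1, one_mul 1, ?_, ?_⟩
      · rw [Pool.Agent.H76U.cmp_one h.UV h.VU, map_one]
        exact PT_one h.ts
      · rw [LinearMap.toMatrix'_one, Matrix.mul_one, ← h.UV]
        exact he
      · rw [LinearMap.toMatrix'_one, Matrix.mul_one, ← h.UV]
        exact he
    | mul g1 g2 _ _ h1 h2 =>
      obtain ⟨hc1, u1, u1', r1, t1, hp1, hv1, hu1, hi1, hi1'⟩ := h1
      obtain ⟨hc2, u2, u2', r2, t2, hp2, hv2, hu2, hi2, hi2'⟩ := h2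
      refine ⟨?_, u1 * u2, u2' * u1', r1 * r2, t1 * t2, ?_, ?_, ?_, ?_, ?_⟩
      · rw [mul_assoc, hc2, ← mul_assoc, hc1, mul_assoc]
      · rw [Pool.Agent.H76U.cmp_mul h.UV h.VU hc2, map_mul]
        exact PT_mul h.ts h.yo hP hp1 hp2
      · rw [hv.mul _ _ hp1.2.2.2.1 hp2.2.2.2.1, hv1, hv2, add_zero]
      · calc u1 * u2 * (u2' * u1') = u1 * (u2 * u2') * u1' := by simp only [mul_assoc]
          _ = 1 := by rw [hu2, mul_one, hu1]
      · have e1 : U * LinearMap.toMatrix' (u1 * u2) * V =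
            (U * LinearMap.toMatrix' u1 * V) * (U * LinearMap.toMatrix' u2 * V) := by
          rw [LinearMap.toMatrix'_mul]
          exact f1_conj h.VU _ _
        rw [e1]
        exact f1_mul hv hi1 hi2
      · have e1 : U * LinearMap.toMatrix' (u2' * u1') * V =
            (U * LinearMap.toMatrix' u2' * V) * (U * LinearMap.toMatrix' u1' * V) := by
          rw [LinearMap.toMatrix'_mul]
          exact f1_conj h.VU _ _
        rw [e1]
        exact f1_mul hv hi2' hi1'
  exact key.2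

end Pool.Agent.H76Z
end

-- from Lib.H76Z.F3
section

/-!
# the Hodge-Tate projector
-/

set_option autoImplicit false
set_option linter.unusedSectionVars false
namespace Pool.Agent.H76Z
open Pool.Agent.H76Y
open Pool.Agent.H76P Pool.Agent.H76V Pool.Agent.H76Q
open Module Matrix Polynomial Pool.Agent.H53Toric
open Pool.Agent.H76P
open Pool.Agent.H76T (IsIdeal Fam Lc)
open Pool.Agent.H76U (cmp preL IsSplitting)
open Pool.Agent.H76RM (spanK similD)

variable {ι : Type*} [Fintype ι] [DecidableEq ι] {K : Type*} [Field K] [CharZero K]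
  [IsAlgClosed K]

/-- The signs of the projector `μ` on the eigenvectors of `x` on the range of `e`. -/
def IsHT (μ x e : Matrix ι ι K) {n : ℕ} (d : Fin n → K) (ε : Fin n → ℚ) : Prop :=
  ∀ k, (ε k = 1 ∧ ∃ z : ι → K, z ≠ 0 ∧ e *ᵥ z = z ∧ x *ᵥ z = d k • z ∧ μ *ᵥ z = z) ∨
    (ε k = -1 ∧ ∃ z : ι → K, z ≠ 0 ∧ e *ᵥ z = z ∧ x *ᵥ z = d k • z ∧ μ *ᵥ z = 0)

/-- the compression of `μ` is diagonal with entries `0` and `1` -/
theorem f3_diag {ct : Cl} {J : Matrix ι ι K} {S 𝓗 : Set (Matrix ι ι K)} {e x : Matrix ι ι K} {q : K}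
    {n : ℕ} {U : Matrix ι (Fin n) K} {V : Matrix (Fin n) ι K} {d : Fin n → K}
    {Y : Submodule ℚ (Fin n → ℚ)} (h : LocN ct J S 𝓗 e x q U V d Y) {μ : Matrix ι ι K} (hμ : μ ∈ 𝓗)
    (hμx : μ * x = x * μ) : ∃ f : Fin n → K, cmp U V μ = Matrix.diagonal f ∧
      ∀ k, f k = 0 ∨ f k = 1 := by
  obtain ⟨hmm, hme, _, _⟩ := h.par μ hμ
  have hUM := Pool.Agent.H76U.P_cmp h.UV h.VU hme
  have hxU := h.ec.eig
  set M := cmp U V μ with hM
  have hcomm : Matrix.diagonal d * M = M * Matrix.diagonal d := by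
    have h1 : U * (Matrix.diagonal d * M) = U * (M * Matrix.diagonal d) := by
      calc U * (Matrix.diagonal d * M) = (U * Matrix.diagonal d) * M := (Matrix.mul_assoc _ _ _).symm
        _ = (x * U) * M := by rw [hxU]
        _ = x * (U * M) := Matrix.mul_assoc _ _ _
        _ = x * (μ * U) := by rw [hUM]
        _ = (x * μ) * U := (Matrix.mul_assoc _ _ _).symm
        _ = (μ * x) * U := by rw [hμx]
        _ = μ * (x * U) := Matrix.mul_assoc _ _ _
        _ = μ * (U * Matrix.diagonal d) := by rw [hxU]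
        _ = (μ * U) * Matrix.diagonal d := (Matrix.mul_assoc _ _ _).symm
        _ = (U * M) * Matrix.diagonal d := by rw [hUM]
        _ = U * (M * Matrix.diagonal d) := Matrix.mul_assoc _ _ _
    have h2 := congrArg (fun A => V * A) h1
    simp only [← Matrix.mul_assoc V U, h.VU, Matrix.one_mul] at h2
    exact h2
  have hdiag : M = Matrix.diagonal fun k => M k k := by
    ext i j
    by_cases hij : i = j
    · subst hij
      rw [Matrix.diagonal_apply_eq]
    · rw [Matrix.diagonal_apply_ne _ hij]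
      have h1 := congrFun (congrFun hcomm i) j
      rw [Matrix.diagonal_mul, Matrix.mul_diagonal] at h1
      have h2 : (d i - d j) * M i j = 0 := by
        rw [sub_mul, h1]
        ring
      rcases mul_eq_zero.1 h2 with h3 | h3
      · exact absurd (h.ec.inj (sub_eq_zero.1 h3)) hij
      · exact h3
  refine ⟨fun k => M k k, hdiag, ?_⟩
  intro k
  have h1 := Pool.Agent.H76U.cmp_mul h.UV h.VU (A := μ) (C := μ) hme
  rw [hmm, ← hM, hdiag, Matrix.diagonal_mul_diagonal] at h1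
  have h2 := congrFun (congrFun h1 k) k
  rw [Matrix.diagonal_apply_eq, Matrix.diagonal_apply_eq] at h2
  have h3 : M k k * (M k k - 1) = 0 := by rw [mul_sub, mul_one, ← h2, sub_self]
  rcases mul_eq_zero.1 h3 with h4 | h4
  · exact Or.inl h4
  · exact Or.inr (sub_eq_zero.1 h4)

/-- `μ` acts on an eigenvector of `x` in the range of `e` by the entry of the compression -/
theorem f3_act {ct : Cl} {J : Matrix ι ι K} {S 𝓗 : Set (Matrix ι ι K)} {e x : Matrix ι ι K} {q : K}
    {n : ℕ} {U : Matrix ι (Fin n) K} {V : Matrix (Fin n) ι K} {d : Fin n → K}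
    {Y : Submodule ℚ (Fin n → ℚ)} (h : LocN ct J S 𝓗 e x q U V d Y) {μ : Matrix ι ι K} (hμ : μ ∈ 𝓗)
    {f : Fin n → K} (hf : cmp U V μ = Matrix.diagonal f) {k : Fin n} {z : ι → K}
    (hez : e *ᵥ z = z) (hxz : x *ᵥ z = d k • z) : μ *ᵥ z = f k • z := by
  obtain ⟨hmm, hme, _, _⟩ := h.par μ hμ
  have hUM := Pool.Agent.H76U.P_cmp h.UV h.VU hme
  rw [hf] at hUM
  have hxU := h.ec.eig
  set w : Fin n → K := V *ᵥ z with hw
  have hzw : z = U *ᵥ w := by
    rw [hw, Matrix.mulVec_mulVec, ← h.UV, hez]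
  have hVU : ∀ y : Fin n → K, V *ᵥ (U *ᵥ y) = y := by
    intro y
    rw [Matrix.mulVec_mulVec, h.VU, Matrix.one_mulVec]
  have h1 : Matrix.diagonal d *ᵥ w = d k • w := by
    have h2 : U *ᵥ (Matrix.diagonal d *ᵥ w) = U *ᵥ (d k • w) := by
      rw [Matrix.mulVec_mulVec, ← hxU, ← Matrix.mulVec_mulVec, ← hzw, hxz, Matrix.mulVec_smul, ← hzw]
    have h3 := congrArg (fun y => V *ᵥ y) h2
    simp only [hVU] at h3
    exact h3
  have hw0 : ∀ l, l ≠ k → w l = 0 := by
    intro l hl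
    have h2 := congrFun h1 l
    rw [Matrix.mulVec_diagonal, Pi.smul_apply, smul_eq_mul] at h2
    have h3 : (d l - d k) * w l = 0 := by
      rw [sub_mul, h2, sub_self]
    rcases mul_eq_zero.1 h3 with h4 | h4
    · exact absurd (h.ec.inj (sub_eq_zero.1 h4)) hl
    · exact h4
  have h4 : Matrix.diagonal f *ᵥ w = f k • w := by
    funext l
    rw [Matrix.mulVec_diagonal, Pi.smul_apply, smul_eq_mul]
    by_cases hl : l = k
    · rw [hl]
    · rw [hw0 l hl, mul_zero, mul_zero]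
  rw [hzw, Matrix.mulVec_mulVec, ← hUM, ← Matrix.mulVec_mulVec, h4, Matrix.mulVec_smul]

/-- PROOF. The columns of `U` are eigenvectors of `x` with different eigenvalues; `μ` commutes with `x` and `e`, so it maps the column `k` to a multiple, by `0` or `1`. -/
theorem exists_HT {ct : Cl} {J : Matrix ι ι K} {S 𝓗 : Set (Matrix ι ι K)} {e x : Matrix ι ι K} {q : K}
    {n : ℕ} {U : Matrix ι (Fin n) K} {V : Matrix (Fin n) ι K} {d : Fin n → K}
    {Y : Submodule ℚ (Fin n → ℚ)} (h : LocN ct J S 𝓗 e x q U V d Y) {μ : Matrix ι ι K} (hμ : μ ∈ 𝓗)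
    (hμx : μ * x = x * μ) : ∃ ε, IsHT μ x e d ε := by
  classical
  obtain ⟨f, hf, hf01⟩ := f3_diag h hμ hμx
  refine ⟨fun k => if f k = 1 then 1 else -1, ?_⟩
  intro k
  set z : ι → K := U *ᵥ (Pi.single k 1) with hz
  have hVU : V *ᵥ z = Pi.single k 1 := by
    rw [hz, Matrix.mulVec_mulVec, h.VU, Matrix.one_mulVec]
  have hz0 : z ≠ 0 := by
    intro h0
    rw [h0, Matrix.mulVec_zero] at hVU
    have := congrFun hVU k
    rw [Pi.single_eq_same] at this
    exact zero_ne_one this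
  have hez : e *ᵥ z = z := by
    rw [h.UV, ← Matrix.mulVec_mulVec, hVU]
  have hxz : x *ᵥ z = d k • z := by
    rw [hz, Matrix.mulVec_mulVec, h.ec.eig, ← Matrix.mulVec_mulVec, ← Matrix.mulVec_smul]
    congr 1
    funext l
    rw [Matrix.mulVec_diagonal, Pi.smul_apply, smul_eq_mul]
    by_cases hl : l = k
    · rw [hl]
    · rw [Pi.single_eq_of_ne hl, mul_zero, mul_zero]
  have hact := f3_act h hμ hf hez hxz
  rcases hf01 k with h0 | h1
  · right
    refine ⟨?_, z, hz0, hez, hxz, ?_⟩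
    · show (if f k = 1 then (1 : ℚ) else -1) = -1
      rw [h0, if_neg zero_ne_one]
    · rw [hact, h0, zero_smul]
  · left
    refine ⟨?_, z, hz0, hez, hxz, ?_⟩
    · show (if f k = 1 then (1 : ℚ) else -1) = 1
      rw [if_pos h1]
    · rw [hact, h1, one_smul]

/-- PROOF. See `H76P.eps_mem`: `cmp U V μ` is the diagonal matrix with entries `(1 + ε k) / 2`: an eigenvector of `x` in the range of `e` with eigenvalue `d k` is a multiple of the column `k` of `U`. -/
theorem HT_spec {ct : Cl} {J : Matrix ι ι K} {S 𝓗 : Set (Matrix ι ι K)} {e x : Matrix ι ι K} {q : K}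
    {n : ℕ} {U : Matrix ι (Fin n) K} {V : Matrix (Fin n) ι K} {d : Fin n → K}
    {Y : Submodule ℚ (Fin n → ℚ)} (h : LocN ct J S 𝓗 e x q U V d Y) {μ : Matrix ι ι K} (hμ : μ ∈ 𝓗)
    (hμx : μ * x = x * μ) {ε : Fin n → ℚ} (hε : IsHT μ x e d ε) :
    phi (cmp U V ((2 : K) • μ - 1)) = dq ε ∧ ε ∈ Y ∧ (∀ k, ε k = 1 ∨ ε k = -1) := by
  obtain ⟨f, hf, hf01⟩ := f3_diag h hμ hμx
  have hfe : ∀ k, 2 * f k - 1 = (ε k : K) := by
    intro k
    rcases hε k with ⟨h1, z, hz0, hez, hxz, hμz⟩ | ⟨h1, z, hz0, hez, hxz, hμz⟩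
    · have hact := f3_act h hμ hf hez hxz
      rw [hμz] at hact
      have h2 : f k = 1 := by
        rcases hf01 k with h0 | h0
        · rw [h0, zero_smul] at hact
          exact absurd hact hz0
        · exact h0
      rw [h1, h2]
      norm_num
    · have hact := f3_act h hμ hf hez hxz
      rw [hμz] at hact
      have h2 : f k = 0 := by
        rcases smul_eq_zero.1 hact.symm with h0 | h0
        · exact h0
        · exact absurd h0 hz0
      rw [h1, h2]
      norm_num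
  have h1 : cmp U V ((2 : K) • μ - 1) = Matrix.diagonal (fun k => 2 * f k - 1) := by
    rw [map_sub, map_smul, Pool.Agent.H76U.cmp_one h.UV h.VU, hf]
    ext i j
    by_cases hij : i = j
    · subst hij
      simp
    · simp [Matrix.diagonal_apply_ne _ hij, Matrix.one_apply_ne hij]
  have hval : phi (cmp U V ((2 : K) • μ - 1)) = dq ε := by
    rw [h1, phi_diag]
    unfold dq
    congr 1
    ext k
    exact hfe k
  refine ⟨hval, ?_, ?_⟩
  · have h2 := (h.par μ hμ).2.2.2
    rw [hval] at h2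
    have h3 := h.ts.diag ε h2
    rw [h.yo] at h3
    exact h3
  · intro k
    rcases hε k with ⟨h1, _⟩ | ⟨h1, _⟩
    · exact Or.inl h1
    · exact Or.inr h1

/-- PROOF. `dq ε ∈ L`, `dq ε * dq ε = 1`: `inv_AZ` (C3): `dq ε` is in an ideal with `InP P` or `InP (1 - P)`. -/
theorem HT_or {ct : Cl} {J : Matrix ι ι K} {S 𝓗 : Set (Matrix ι ι K)} {e x : Matrix ι ι K} {q : K}
    {n : ℕ} {U : Matrix ι (Fin n) K} {V : Matrix (Fin n) ι K} {d : Fin n → K}
    {Y : Submodule ℚ (Fin n → ℚ)} (h : LocN ct J S 𝓗 e x q U V d Y) {μ : Matrix ι ι K} (hμ : μ ∈ 𝓗)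
    (hμx : μ * x = x * μ) {ε : Fin n → ℚ} (hε : IsHT μ x e d ε) {P : Module.End ℚ Y}
    (hc : Comp (LcN J S U V) P) : FunP P ε ∨ FunP (1 - P) ε := by
  have : Nonempty (Fin n) := ⟨⟨0, h.pos⟩⟩
  obtain ⟨hval, hY, h01⟩ := HT_spec h hμ hμx hε
  have hL := (h.par μ hμ).2.2.2
  rw [hval] at hL
  have hsq : (dq ε : Module.End K (Fin n → K)) * dq ε = 1 := by
    unfold dq
    rw [dg_mul, ← dg_one]
    congr 1
    funext k
    rw [Pi.mul_apply, Pi.one_apply]
    rcases h01 k with h1 | h1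
    · rw [h1]
      norm_num
    · rw [h1]
      norm_num
  obtain ⟨I, _, hI, hor⟩ := inv_AZ h.ts hc hL hsq
  rcases hor with h1 | h1
  · exact Or.inl (h1 ε hY hI)
  · exact Or.inr (h1 ε hY hI)

end Pool.Agent.H76Z
end

-- from Lib.H76Z.F4
section

/-!
# unramified factors
-/

set_option autoImplicit false
set_option linter.unusedSectionVars false
namespace Pool.Agent.H76Z
open Pool.Agent.H76Y
open Pool.Agent.H76P Pool.Agent.H76V Pool.Agent.H76Q
open Module Matrix Polynomial Pool.Agent.H53Toric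
open Pool.Agent.H76P
open Pool.Agent.H76T (IsIdeal Fam Lc)
open Pool.Agent.H76U (cmp preL IsSplitting)
open Pool.Agent.H76RM (spanK similD)

variable {ι : Type*} [Fintype ι] [DecidableEq ι] {K : Type*} [Field K] [CharZero K]
  [IsAlgClosed K] {ct : Cl} {J : Matrix ι ι K} {S 𝓗 : Set (Matrix ι ι K)} {e x : Matrix ι ι K} {q : K} {n : ℕ}
  {U : Matrix ι (Fin n) K} {V : Matrix (Fin n) ι K} {d : Fin n → K}
  {Y : Submodule ℚ (Fin n → ℚ)}

/-- The linear map `X ↦ U X V`. -/
noncomputable def f4_T (U : Matrix ι (Fin n) K) (V : Matrix (Fin n) ι K) :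
    Module.End K (Fin n → K) →ₗ[K] Matrix ι ι K where
  toFun X := U * (phi.symm X) * V
  map_add' := by
    intro X X'
    rw [map_add, Matrix.mul_add, Matrix.add_mul]
  map_smul' := by
    intro c X
    rw [map_smul, Matrix.mul_smul, Matrix.smul_mul]
    rfl

theorem f4_T_apply (U : Matrix ι (Fin n) K) (V : Matrix (Fin n) ι K) (X : Module.End K (Fin n → K)) :
    f4_T U V X = U * (phi.symm X) * V := rfl

theorem f4_left (hUV : e = U * V) (hVU : V * U = 1) {C : Matrix ι ι K} (hC : C * e = e * C)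
    (X : Module.End K (Fin n → K)) :
    C * f4_T U V X = f4_T U V (phi (cmp U V C) * X) := by
  rw [f4_T_apply, f4_T_apply, map_mul, AlgEquiv.symm_apply_apply]
  calc C * (U * phi.symm X * V) = (C * U) * phi.symm X * V := by simp only [Matrix.mul_assoc]
    _ = (U * cmp U V C) * phi.symm X * V := by rw [Pool.Agent.H76U.P_cmp hUV hVU hC]
    _ = U * (cmp U V C * phi.symm X) * V := by simp only [Matrix.mul_assoc]

theorem f4_right (hUV : e = U * V) (hVU : V * U = 1) {C : Matrix ι ι K} (hC : C * e = e * C)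
    (X : Module.End K (Fin n → K)) :
    f4_T U V X * C = f4_T U V (X * phi (cmp U V C)) := by
  rw [f4_T_apply, f4_T_apply, map_mul, AlgEquiv.symm_apply_apply]
  calc U * phi.symm X * V * C = U * phi.symm X * (V * C) := by simp only [Matrix.mul_assoc]
    _ = U * phi.symm X * (cmp U V C * V) := by rw [Pool.Agent.H76U.cmp_Q hUV hVU hC]
    _ = U * (phi.symm X * cmp U V C) * V := by simp only [Matrix.mul_assoc]

theorem f4_inj (hVU : V * U = 1) {X X' : Module.End K (Fin n → K)}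
    (h : f4_T U V X = f4_T U V X') : X = X' := by
  have h1 : ∀ Z : Module.End K (Fin n → K), V * f4_T U V Z * U = phi.symm Z := by
    intro Z
    rw [f4_T_apply]
    calc V * (U * phi.symm Z * V) * U = (V * U) * phi.symm Z * (V * U) := by
          simp only [Matrix.mul_assoc]
      _ = phi.symm Z := by rw [hVU, Matrix.one_mul, Matrix.mul_one]
  have h2 := congrArg (fun A => V * A * U) h
  simp only [h1] at h2
  exact phi.symm.injective h2

/-- PROOF. Let `I'` be an ideal of `L = LcN J S U V`, `InP P I'`, and `I = {U * toMatrix' X * V : X ∈ I'}`.  `I` is `adStable` for `zlie S`: `C ∈ zlie S` commutes with `e`, so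
`C * U X V - U X V * C = U (cmp C * X - X * cmp C) V`, and `cmp C = X' + c` with `X' ∈ L` (`h.lie`).  `μ` commutes with `I`: `μ * U X V = U (cmp μ) X V`, `phi (cmp μ) = (1 + dq ε) / 2`
(`HT_spec`), `dq ε ∈ AZ L (1 - P)` (`dq_AZ` for `1 - P`, `Comp.compl`, `Sp.compl`), `X ∈ AZ L P`, `AZ_comm`.  So `hz` gives `z * U X V = U X V * z`; multiply with `V`, `U`. -/
theorem unr_comm (h : LocN ct J S 𝓗 e x q U V d Y) {μ : Matrix ι ι K} (hμ : μ ∈ 𝓗)
    (hμx : μ * x = x * μ) {ε : Fin n → ℚ} (hε : IsHT μ x e d ε) {P : Module.End ℚ Y}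
    (hP : Sp P) (hc : Comp (LcN J S U V) P) (hεP : FunP (1 - P) ε) {z : Matrix ι ι K}
    (hze : z * e = e * z)
    (hz : ∀ I : Submodule K (Matrix ι ι K), adStable (zlie S) I → (∀ X ∈ I, μ * X = X * μ) →
      ∀ X ∈ I, z * X = X * z) :
    ∀ A ∈ AZ (LcN J S U V) P, phi (cmp U V z) * A = A * phi (cmp U V z) := by
  have : Nonempty (Fin n) := ⟨⟨0, h.pos⟩⟩
  have key : ∀ X ∈ {X | ∃ I, IsIdeal (LcN J S U V) I ∧ InP P I ∧ X ∈ I},
      phi (cmp U V z) * X = X * phi (cmp U V z) := by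
    rintro X ⟨I', hI', hIP, hX⟩
    obtain ⟨_, hμe, _, _⟩ := h.par μ hμ
    have h1 := hz (I'.map (f4_T U V)) ?_ ?_ (f4_T U V X) (Submodule.mem_map_of_mem hX)
    · rw [f4_left h.UV h.VU hze, f4_right h.UV h.VU hze] at h1
      exact f4_inj h.VU h1
    · rintro C hC _ ⟨X', hX', rfl⟩
      obtain ⟨hCe, c, hc1⟩ := h.lie C hC
      rw [f4_left h.UV h.VU hCe, f4_right h.UV h.VU hCe, ← map_sub]
      refine Submodule.mem_map_of_mem ?_
      have h2 := hI'.2 _ hc1 X' hX'
      have h3 : phi (cmp U V (C - c • 1)) = phi (cmp U V C) - c • 1 := by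
        rw [map_sub, map_smul, Pool.Agent.H76U.cmp_one h.UV h.VU, map_sub, map_smul, map_one]
      have h4 : phi (cmp U V C) * X' - X' * phi (cmp U V C)
          = phi (cmp U V (C - c • 1)) * X' - X' * phi (cmp U V (C - c • 1)) := by
        rw [h3, sub_mul, mul_sub, smul_mul_assoc, mul_smul_comm, one_mul, mul_one]
        abel
      rw [h4]
      exact h2
    · rintro _ ⟨X', hX', rfl⟩
      rw [f4_left h.UV h.VU hμe, f4_right h.UV h.VU hμe]
      congr 1
      obtain ⟨hval, hY, _⟩ := HT_spec h hμ hμx hε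
      have h5 : X' ∈ AZ (LcN J S U V) P := Algebra.subset_adjoin ⟨I', hI', hIP, hX'⟩
      have h6 : dq ε ∈ AZ (LcN J S U V) (1 - P) := dq_AZ h.ts h.yo hP.compl hc.compl hY hεP
      have h7 := Pool.Agent.H76Y.AZ_comm h.ts h.yo hP X' h5 _ h6
      rw [← hval] at h7
      have h8 : phi (cmp U V ((2 : K) • μ - 1)) = (2 : K) • phi (cmp U V μ) - 1 := by
        rw [map_sub, map_smul, Pool.Agent.H76U.cmp_one h.UV h.VU, map_sub, map_smul, map_one]
      rw [h8, mul_sub, sub_mul, mul_one, one_mul, sub_left_inj, mul_smul_comm, smul_mul_assoc] at h7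
      exact (smul_right_injective _ (two_ne_zero : (2 : K) ≠ 0) h7).symm
  intro A hA
  have h9 : AZ (LcN J S U V) P ≤ Subalgebra.centralizer K {phi (cmp U V z)} := by
    unfold AZ
    refine Algebra.adjoin_le fun X hX => ?_
    rw [SetLike.mem_coe, Subalgebra.mem_centralizer_iff]
    intro Z hZ
    rw [Set.mem_singleton_iff.1 hZ]
    exact key X hX
  have h10 := h9 hA
  rw [Subalgebra.mem_centralizer_iff] at h10
  exact h10 _ (Set.mem_singleton _)

end Pool.Agent.H76Z
end
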