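import Mathlib.Analysis.Complex.Polynomial.Basic
import Pool.Agent.Lib.H1M.RC.D_H45U_U1
import Pool.Agent.Lib.H1M.RC.M040
import Pool.Agent.Lib.H1M.RC.M047
import Pool.Agent.Lib.H1M.RC.M048
import Pool.Agent.Lib.H1M.RC.M049
import Pool.Agent.Lib.H1M.RC.M051
import Pool.Agent.Lib.H1M.RC.M053
import Pool.Agent.Lib.H1M.RC.M055
import Pool.Agent.Lib.H1M.RC.M056
import Pool.Agent.Lib.H1M.RC.M057
import Pool.Agent.Lib.H1M.RC.M058
import Pool.Agent.Lib.H1M.RC.M060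
import Pool.Agent.Lib.H1M.RC.M061
import Pool.Agent.Lib.H1M.RC.M064

/-! Merged copies (to shorten the build) of Lib.H45U.G4, Lib.H45U.G6, Lib.H45U.G7, Lib.H45U.A7, Lib.H76Q.G3, Lib.H76Q.G4, Lib.H76Q.G5, Lib.H76Q.G6, Lib.H76Q.G9, Lib.H76Q.G11, Lib.H76Q.G12, Lib.H76Q.W9, Lib.H76Q.W13a, Lib.H76Q.W13b, Lib.H76Q.W14, Lib.H76Q.W11a, Lib.H76Q.W11, Lib.H76Q.W12, Lib.H76Q.W13, Lib.H86K.K11. -/

-- from Lib.H45U.G4
section

/-!
# G4: the component in an eigenbasis, without a condition of balance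
-/

set_option autoImplicit false
set_option linter.unusedSectionVars false
namespace Pool.Agent.H45U
open Module Matrix Polynomial Pool.Agent.H53Toric
open Pool.Agent.H25U (CmpN TM Hs Yo)
open Pool.Agent.H76P hiding Hs Yo pt pt_apply wc IsWt
open Pool.Agent.H76V Pool.Agent.H76Q
open Pool.Agent.H76Y hiding CmpN TM LocN GoodN Cls Core3 PartN MumN
open Pool.Agent.H76RM (van zlie_commute)
open Pool.Agent.H76U (preL cmp Split4 preL_e P_cmp irr_comp p_P mem_Lb preL_bracket cmp_mul cmp_one)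
open Pool.Agent.H76V (SH)

variable {ι : Type*} [Fintype ι] [DecidableEq ι] {K : Type*} [Field K]
  [CharZero K] [IsAlgClosed K] {B : Type*} [Fintype B] [DecidableEq B]
  {J : Matrix ι ι K} {DD : Submodule K (Matrix ι ι K)}
  {bar : B → B} {e : B → Matrix ι ι K} (h : Split4 J DD bar e) {b : B}
  {n : ℕ} {S : Set (Matrix ι ι K)} {𝓗 : Set (Matrix ι ι K)} {φ φ' : Matrix ι ι K}
  (hdet : IsUnit J.det)
  {P : Matrix ι (Fin n) K} {Q : Matrix (Fin n) ι K}
  (hPQ : e b = P * Q) (hQP : Q * P = 1)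
  (g : PH S J DD 𝓗 φ φ') {d : Fin n → K} (E : EC φ P d)


/-- The constant by which the projector of rank `r` on a space of dimension `n` is shifted. -/
def sc (n r : ℕ) : ℚ := 2 * r / n

include h hdet hPQ hQP g in
/-- `2 x - c` has trace zero on the component if `c = 2 rank (x e_b) / n`. -/
theorem shift_mem (hn : 0 < n) {x : Matrix ι ι K} (hx : x ∈ 𝓗) :
    phi (cmp P Q ((2 : K) • x - ((sc n (x * e b).rank : ℚ) : K) • 1)) ∈ LcN J S P Q := by
  have hxe := g5_comm (b := b) h g hx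
  refine g4_mem h hPQ hQP g (g4_preL hdet g ((zlie S).smul_mem (2 : K) (g.sh.hz x hx)) _) ?_
  have h1 : cmp P Q x * cmp P Q x = cmp P Q x := by
    rw [← Pool.Agent.H76U.cmp_mul hPQ hQP hxe, g.sh.hi x hx]
  have h2 : (cmp P Q x).trace = ((cmp P Q x).rank : K) := by
    have h3 : phi (cmp P Q x) * phi (cmp P Q x) = phi (cmp P Q x) := by rw [← map_mul, h1]
    have h4 := trace_idem h3
    rw [g4_trace] at h4
    exact h4
  have h5 : (cmp P Q x).rank = (x * e b).rank := Pool.Agent.H76U.rank_cmp hPQ hQP hxe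
  have hn' : (n : K) ≠ 0 := by exact_mod_cast hn.ne'
  rw [map_sub, map_smul, map_smul, Pool.Agent.H76U.cmp_one hPQ hQP, Matrix.trace_sub,
    Matrix.trace_smul, Matrix.trace_smul, h2, h5, Matrix.trace_one, Fintype.card_fin, smul_eq_mul,
    smul_eq_mul]
  unfold sc
  push_cast
  rw [div_mul_cancel₀ _ hn', sub_self]

include h hPQ hQP g in
/-- `2 x - c`, shifted by `c - 1`, has square `1`. -/
theorem shift_sq {x : Matrix ι ι K} (hx : x ∈ 𝓗) (c : K) :
    (phi (cmp P Q ((2 : K) • x - c • 1)) + (c - 1) • 1) *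
      (phi (cmp P Q ((2 : K) • x - c • 1)) + (c - 1) • 1) = 1 := by
  have hxe := g5_comm (b := b) h g hx
  have h3 : cmp P Q x * cmp P Q x = cmp P Q x := by
    rw [← cmp_mul hPQ hQP hxe, g.sh.hi x hx]
  have h4 : phi (cmp P Q ((2 : K) • x - c • 1)) + (c - 1) • (1 : Module.End K (Fin n → K)) =
      phi ((2 : K) • cmp P Q x - 1) := by
    rw [map_sub (cmp P Q), map_smul (cmp P Q), map_smul (cmp P Q), cmp_one hPQ hQP,
      map_sub (phi (ι := Fin n) (K := K)), map_sub (phi (ι := Fin n) (K := K)),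
      map_smul (phi (ι := Fin n) (K := K)) c, map_one (phi (ι := Fin n) (K := K))]
    module
  rw [h4, ← map_mul, ← map_one (phi (ι := Fin n) (K := K))]
  congr 1
  simp only [sub_mul, mul_sub, smul_mul_assoc, mul_smul_comm, h3, mul_one, one_mul]
  module

include h hPQ hQP g in
theorem shift_of {W : Submodule K (Fin n → K)} (c : Matrix ι ι K → K) (hinv : ∀ x ∈ 𝓗, ∀ w ∈ W,
    phi (cmp P Q ((2 : K) • x - c x • 1)) w ∈ W) : W = ⊥ ∨ W = ⊤ := by
  refine g5_irr h hPQ hQP g fun x hx w hw => ?_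
  have h3 := hinv x hx w hw
  rw [map_sub, map_smul, map_smul, cmp_one hPQ hQP, phi_apply, Matrix.sub_mulVec, Matrix.smul_mulVec,
    Matrix.smul_mulVec, Matrix.one_mulVec] at h3
  have h4 := W.smul_mem (1 / 2 : K) (W.add_mem h3 (W.smul_mem (c x) hw))
  rw [sub_add_cancel, smul_smul] at h4
  norm_num at h4
  exact h4

include h hdet hPQ hQP g in
theorem cmp_unitU (hn : 0 < n) : CmpN (LcN J S P Q) := by
  have : Nonempty (Fin n) := ⟨⟨0, hn⟩⟩
  refine ⟨?_, ?_, fun X hX => hX.2, ?_⟩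
  · intro X hX Y hY
    refine ⟨?_, ?_⟩
    · obtain ⟨x, rfl⟩ := (phi (ι := Fin n) (K := K)).surjective X
      obtain ⟨y, rfl⟩ := (phi (ι := Fin n) (K := K)).surjective Y
      obtain ⟨A, hA, rfl⟩ := mem_Lb.1 hX.1
      obtain ⟨A', hA', rfl⟩ := mem_Lb.1 hY.1
      rw [← map_mul (phi (ι := Fin n) (K := K)), ← map_mul (phi (ι := Fin n) (K := K)),
        ← map_sub (phi (ι := Fin n) (K := K)), ← cmp_mul hPQ hQP (preL_e h g.sh.one g.sh.SD hA'),
        ← cmp_mul hPQ hQP (preL_e h g.sh.one g.sh.SD hA), ← map_sub]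
      obtain ⟨h1, h2⟩ := preL_bracket hA hA'
      exact mem_Lb.2 ⟨_, ⟨⟨0, _, h1, by rw [zero_smul, add_zero]⟩, 0, by rw [h2, zero_smul]⟩, rfl⟩
    · rw [map_sub, LinearMap.trace_mul_comm, sub_self]
  · intro W hW
    exact shift_of h hPQ hQP g (fun x => ((sc n (x * e b).rank : ℚ) : K))
      fun x hx w hw => hW _ (shift_mem h hdet hPQ hQP g hn hx) w hw
  · intro T hT
    obtain ⟨c, hc⟩ := Module.End.exists_eigenvalue T
    refine ⟨c, ?_⟩
    have h1 : Module.End.eigenspace T c = ⊤ := by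
      rcases shift_of h hPQ hQP g (W := Module.End.eigenspace T c)
        (fun x => ((sc n (x * e b).rank : ℚ) : K)) (fun x hx w hw => by
        rw [Module.End.mem_eigenspace_iff] at hw ⊢
        have h2 := hT _ (shift_mem h hdet hPQ hQP g hn hx) ⟨_, shift_sq h hPQ hQP g hx _⟩
        have h3 := congrArg (fun f : Module.End K (Fin n → K) => f w) h2
        change T ((phi (cmp P Q ((2 : K) • x - ((sc n (x * e b).rank : ℚ) : K) • 1))) w) =
          (phi (cmp P Q ((2 : K) • x - ((sc n (x * e b).rank : ℚ) : K) • 1))) (T w) at h3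
        rw [h3, hw, map_smul]) with h2 | h2
      · exact absurd h2 hc
      · exact h2
    apply LinearMap.ext
    intro w
    have h2 : w ∈ Module.End.eigenspace T c := by rw [h1]; trivial
    rw [Module.End.mem_eigenspace_iff] at h2
    exact h2

include h hdet hPQ hQP g E in
/-- PROOF. `x` commutes with `e b` and `φ`, so its compression is diagonal with entries `0` and `1`. -/
theorem eps_memU (hn : 0 < n) {x : Matrix ι ι K} (hx : x ∈ 𝓗) (hxφ : x * φ = φ * x) :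
    ∃ (c : ℚ) (ε : Fin n → ℚ), (∀ a, ε a = c + 1 ∨ ε a = c - 1) ∧ ε ∈ Hs (LcN J S P Q) ∧
      cmp P Q x = Matrix.diagonal (fun k => if ε k = c + 1 then (1 : K) else 0) := by
  classical
  have hxe := g5_comm (b := b) h g hx
  obtain ⟨f, hf⟩ := cmp_diag h hPQ hQP g E hxe hxφ
  have hff : ∀ k, f k = 0 ∨ f k = 1 := by
    intro k
    have h1 := Pool.Agent.H76U.cmp_mul hPQ hQP (A := x) (C := x) hxe
    rw [g.sh.hi x hx, hf, Matrix.diagonal_mul_diagonal] at h1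
    have h2 := congrFun (congrFun h1 k) k
    rw [Matrix.diagonal_apply_eq, Matrix.diagonal_apply_eq] at h2
    have h3 : f k * (f k - 1) = 0 := by rw [mul_sub, mul_one, ← h2, sub_self]
    rcases mul_eq_zero.1 h3 with h4 | h4
    · exact Or.inl h4
    · exact Or.inr (sub_eq_zero.1 h4)
  have hmem := shift_mem h hdet hPQ hQP g hn hx
  obtain ⟨s, hs⟩ : ∃ s : ℚ, s = sc n (x * e b).rank := ⟨_, rfl⟩
  rw [← hs] at hmem
  have h01 : ¬ (0 : K) = 1 := zero_ne_one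
  obtain ⟨ε, hε⟩ : ∃ ε : Fin n → ℚ, ∀ k, ε k = if f k = 1 then 2 - s else -s := ⟨_, fun _ => rfl⟩
  have hval : phi (cmp P Q ((2 : K) • x - (s : K) • 1)) = dq ε := by
    have h1 : cmp P Q ((2 : K) • x - (s : K) • 1) = Matrix.diagonal (fun k => 2 * f k - (s : K)) := by
      rw [map_sub, map_smul, map_smul, Pool.Agent.H76U.cmp_one hPQ hQP, hf]
      ext i j
      by_cases hij : i = j
      · subst hij
        simp
      · simp [Matrix.diagonal_apply_ne _ hij, Matrix.one_apply_ne hij]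
    rw [h1, phi_diag]
    unfold dq
    congr 1
    ext k
    rw [hε k]
    rcases hff k with h2 | h2
    · have h3 : ¬ f k = 1 := by rw [h2]; exact zero_ne_one
      rw [if_neg h3, h2]
      push_cast
      ring
    · rw [if_pos h2, h2]
      push_cast
      ring
  have hpm : ∀ a, ε a = (1 - s) + 1 ∨ ε a = (1 - s) - 1 := by
    intro a
    rw [hε a]
    split_ifs
    · left
      ring
    · right
      ring
  refine ⟨1 - s, ε, hpm, ⟨⟨1 - s, hpm⟩, ?_⟩, ?_⟩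
  · rw [← hval]
    exact hmem
  · rw [hf]
    congr 1
    funext k
    rcases hff k with h2 | h2
    · have h3 : ¬ f k = 1 := by rw [h2]; exact zero_ne_one
      have h4 : ¬ (ε k = 1 - s + 1) := by
        rw [hε k, if_neg h3]
        intro h5
        linarith
      rw [if_neg h4]
      exact h2
    · have h4 : ε k = 1 - s + 1 := by
        rw [hε k, if_pos h2]
        ring
      rw [if_pos h4]
      exact h2

include h hdet hPQ hQP g E in
/-- The proof is that of `H76Y.loglin_of_mem`, which does not use the balance. -/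
theorem loglin_of_memU {f : Fin n → K} (hf : dg f ∈ LcN J S P Q) :
    ∃ c : K, LogLin d (fun k => f k - c) := by
  classical
  have hf1 : phi (Matrix.diagonal f) ∈ Pool.Agent.H76U.Lb J S P Q := by
    rw [phi_diag]
    exact hf.1
  obtain ⟨A, hAL, hAf⟩ := Pool.Agent.H76U.mem_Lb.1 hf1
  have hAe := Pool.Agent.H76V.preL_ec (b := b) h g.sh hAL
  obtain ⟨c, C, hC, rfl⟩ := hAL.1
  refine ⟨c, ?_⟩
  have hCe : C * e b = e b * C := by
    rw [add_mul, mul_add, smul_mul_assoc, one_mul, mul_smul_comm, mul_one] at hAe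
    exact add_right_cancel hAe
  have hCf : cmp P Q C = Matrix.diagonal (fun k => f k - c) := by
    rw [map_add, map_smul, Pool.Agent.H76U.cmp_one hPQ hQP] at hAf
    have h1 : cmp P Q C = Matrix.diagonal f - c • 1 := by rw [← hAf, add_sub_cancel_right]
    rw [h1]
    ext i j
    by_cases hij : i = j
    · subst hij
      simp
    · simp [Matrix.diagonal_apply_ne _ hij, Matrix.one_apply_ne hij]
  have hφe : φ * e b = e b * φ := g.φD _ (h.mem b)
  have hφP := E.eig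
  have hQφ : Q * φ = Matrix.diagonal d * Q := by
    rw [← Pool.Agent.H76U.cmp_Q hPQ hQP hφe, cmp_phi hQP E]
  have hCP : C * P = P * Matrix.diagonal (fun k => f k - c) := by
    rw [← hCf, Pool.Agent.H76U.P_cmp hPQ hQP hCe]
  have hCeb : C * e b = P * Matrix.diagonal (fun k => f k - c) * Q := by
    rw [hPQ, ← Matrix.mul_assoc, hCP]
  have hcomm : (C * e b) * φ = φ * (C * e b) := by
    rw [hCeb]
    calc P * Matrix.diagonal (fun k => f k - c) * Q * φ =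
        P * Matrix.diagonal (fun k => f k - c) * (Q * φ) := by rw [Matrix.mul_assoc]
      _ = P * (Matrix.diagonal (fun k => f k - c) * Matrix.diagonal d) * Q := by
          rw [hQφ, Matrix.mul_assoc, Matrix.mul_assoc, Matrix.mul_assoc]
      _ = P * (Matrix.diagonal d * Matrix.diagonal (fun k => f k - c)) * Q := by
          rw [Matrix.diagonal_mul_diagonal, Matrix.diagonal_mul_diagonal]
          congr 3
          ext k
          ring
      _ = (P * Matrix.diagonal d) * Matrix.diagonal (fun k => f k - c) * Q := by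
          rw [Matrix.mul_assoc, Matrix.mul_assoc, Matrix.mul_assoc, Matrix.mul_assoc]
      _ = (φ * P) * Matrix.diagonal (fun k => f k - c) * Q := by rw [hφP]
      _ = _ := by rw [Matrix.mul_assoc, Matrix.mul_assoc, Matrix.mul_assoc]
  obtain ⟨C₁, hC₁, hC₁φ, hC₁p⟩ := zero_part g.inv g.dgb g.cnj hC
  have hC₁e := hC₁p (e b) hφe.symm hcomm
  obtain ⟨P₀, Q₀, d₀, hPQ₀, hQP₀, hφ₀⟩ := g.dgb
  have hQφP₀ : Q₀ * φ * P₀ = Matrix.diagonal d₀ := by
    rw [hφ₀]
    calc Q₀ * (P₀ * Matrix.diagonal d₀ * Q₀) * P₀ = (Q₀ * P₀) * Matrix.diagonal d₀ * (Q₀ * P₀) := by noncomm_ring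
      _ = Matrix.diagonal d₀ := by rw [hQP₀, one_mul, mul_one]
  have hd₀ : ∀ i, d₀ i ≠ 0 := by
    have hprod : Matrix.diagonal d₀ * (Q₀ * φ' * P₀) = 1 := by
      rw [← hQφP₀]
      calc Q₀ * φ * P₀ * (Q₀ * φ' * P₀) = Q₀ * φ * (P₀ * Q₀) * φ' * P₀ := by noncomm_ring
        _ = Q₀ * (φ * φ') * P₀ := by rw [hPQ₀]; noncomm_ring
        _ = 1 := by rw [g.inv, mul_one, hQP₀]
    intro i h0
    have h1 := congrFun (congrFun hprod i) i
    rw [Matrix.diagonal_mul, h0, zero_mul, Matrix.one_apply_eq] at h1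
    exact one_ne_zero h1.symm
  obtain ⟨f₀, hf₀, hlog⟩ := zlie_pow hPQ₀ hQP₀ hd₀ hφ₀ (g.torus C₁ hC₁ hC₁φ)
  -- the matrix `R`
  have hebP : e b * P = P := by rw [hPQ, Matrix.mul_assoc, hQP, Matrix.mul_one]
  have hC₁P : C₁ * P = P * Matrix.diagonal (fun k => f k - c) := by
    calc C₁ * P = C₁ * (e b * P) := by rw [hebP]
      _ = (C₁ * e b) * P := by rw [Matrix.mul_assoc]
      _ = C * (e b * P) := by rw [hC₁e, Matrix.mul_assoc]
      _ = _ := by rw [hebP, hCP]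
  have hR1 : ∀ i k, d₀ i * (Q₀ * P) i k = (Q₀ * P) i k * d k := by
    intro i k
    have h1 : Matrix.diagonal d₀ * (Q₀ * P) = (Q₀ * P) * Matrix.diagonal d := by
      have h2 : Q₀ * φ = Matrix.diagonal d₀ * Q₀ := by
        rw [hφ₀]
        calc Q₀ * (P₀ * Matrix.diagonal d₀ * Q₀) = (Q₀ * P₀) * Matrix.diagonal d₀ * Q₀ := by noncomm_ring
          _ = _ := by rw [hQP₀, one_mul]
      rw [← Matrix.mul_assoc, ← h2, Matrix.mul_assoc, hφP, Matrix.mul_assoc]
    have h3 := congrFun (congrFun h1 i) k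
    rwa [Matrix.diagonal_mul, Matrix.mul_diagonal] at h3
  have hR2 : ∀ i k, f₀ i * (Q₀ * P) i k = (Q₀ * P) i k * (f k - c) := by
    intro i k
    have h1 : Matrix.diagonal f₀ * (Q₀ * P) = (Q₀ * P) * Matrix.diagonal (fun k => f k - c) := by
      have h2 : Q₀ * C₁ = Matrix.diagonal f₀ * Q₀ := by
        rw [hf₀]
        calc Q₀ * (P₀ * Matrix.diagonal f₀ * Q₀) = (Q₀ * P₀) * Matrix.diagonal f₀ * Q₀ := by noncomm_ring
          _ = _ := by rw [hQP₀, one_mul]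
      rw [← Matrix.mul_assoc, ← h2, Matrix.mul_assoc, hC₁P, Matrix.mul_assoc]
    have h3 := congrFun (congrFun h1 i) k
    rwa [Matrix.diagonal_mul, Matrix.mul_diagonal] at h3
  have hR3 : ∀ k, ∃ i, (Q₀ * P) i k ≠ 0 := by
    intro k
    by_contra hcon
    push Not at hcon
    have h1 : (Q * P₀) * (Q₀ * P) = 1 := by
      calc (Q * P₀) * (Q₀ * P) = Q * (P₀ * Q₀) * P := by
            rw [Matrix.mul_assoc, Matrix.mul_assoc, Matrix.mul_assoc]
        _ = 1 := by rw [hPQ₀, Matrix.mul_one, hQP]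
    have h2 := congrFun (congrFun h1 k) k
    rw [Matrix.mul_apply, Matrix.one_apply_eq, Finset.sum_eq_zero] at h2
    · exact one_ne_zero h2.symm
    · intro i _
      rw [hcon i, mul_zero]
  choose i hi using hR3
  have hdi : ∀ k, d₀ (i k) = d k := by
    intro k
    have h1 := hR1 (i k) k
    rw [mul_comm] at h1
    exact mul_left_cancel₀ (hi k) h1
  have hfi : ∀ k, f₀ (i k) = f k - c := by
    intro k
    have h1 := hR2 (i k) k
    rw [mul_comm] at h1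
    exact mul_left_cancel₀ (hi k) h1
  intro m hm
  have h1 : ∏ j, d₀ j ^ (∑ k ∈ Finset.univ.filter (fun k => i k = j), m k) = 1 := by
    rw [← hm, ← Finset.prod_fiberwise Finset.univ i (fun k => d k ^ m k)]
    refine Finset.prod_congr rfl fun j _ => ?_
    have h2 : ∀ s : Finset (Fin n), d₀ j ^ (∑ k ∈ s, m k) = ∏ k ∈ s, d₀ j ^ m k := by
      intro s
      refine Finset.induction_on s ?_ ?_
      · rw [Finset.sum_empty, Finset.prod_empty, zpow_zero]
      · intro a s ha ih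
        rw [Finset.sum_insert ha, Finset.prod_insert ha, zpow_add₀ (hd₀ j), ih]
    rw [h2]
    refine Finset.prod_congr rfl fun k hk => ?_
    rw [← hdi k, (Finset.mem_filter.1 hk).2]
  have h2 := hlog _ h1
  rw [← h2, ← Finset.sum_fiberwise Finset.univ i (fun k => (m k : K) * (f k - c))]
  refine Finset.sum_congr rfl fun j _ => ?_
  rw [Int.cast_sum, Finset.sum_mul]
  refine Finset.sum_congr rfl fun k hk => ?_
  rw [← hfi k, (Finset.mem_filter.1 hk).2]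

end Pool.Agent.H45U
end

-- from Lib.H45U.G6
section

/-!
# G6: the log linear functions are spanned by the functions of the projectors
-/

set_option autoImplicit false
set_option linter.unusedSectionVars false
namespace Pool.Agent.H45U
open Module Matrix Pool.Agent.H53Toric
open Pool.Agent.H25U (CmpN TM Hs Yo)
open Pool.Agent.H76P hiding Hs Yo pt pt_apply wc IsWt
open Pool.Agent.H76V Pool.Agent.H76Q
open Pool.Agent.H76Y hiding CmpN TM LocN GoodN Cls Core3 PartN MumN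
open Pool.Agent.H76RM (van zlie_commute)
open Pool.Agent.H76U (preL cmp Split4)
open Pool.Agent.H76V (SH)

variable {ι : Type*} [Fintype ι] [DecidableEq ι] {K : Type*} [Field K]
  [CharZero K] [IsAlgClosed K] {B : Type*} [Fintype B] [DecidableEq B]
  {J : Matrix ι ι K} {DD : Submodule K (Matrix ι ι K)}
  {bar : B → B} {e : B → Matrix ι ι K} (h : Split4 J DD bar e) {b : B}
  {n : ℕ} {S : Set (Matrix ι ι K)} {𝓗 : Set (Matrix ι ι K)} {φ φ' : Matrix ι ι K}
  (hdet : IsUnit J.det)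
  {P : Matrix ι (Fin n) K} {Q : Matrix (Fin n) ι K}
  (hPQ : e b = P * Q) (hQP : Q * P = 1)
  (g : PH S J DD 𝓗 φ φ') {d : Fin n → K} (E : EC φ P d)

include h hdet hPQ hQP g E in
theorem g6_genU (hn : 0 < n) {m : Fin n → ℤ}
    (hm : ∀ u ∈ insert 1 (Hs (LcN J S P Q)), ∑ k, (m k : ℚ) * u k = 0)
    {x : Matrix ι ι K} (hx : x ∈ 𝓗) (hxφ : x * φ = φ * x) {t : K} (ht : t ≠ 0) :
    ∃ f : Fin n → K, cmp P Q (1 + (t - 1) • x) = Matrix.diagonal f ∧ (∀ k, f k ≠ 0) ∧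
      ∏ k, f k ^ m k = 1 := by
  obtain ⟨c, ε, hpm, hε, h4⟩ := eps_memU h hdet hPQ hQP g E hn hx hxφ
  have h2 : cmp P Q (1 : Matrix ι ι K) = 1 := H76U.cmp_one hPQ hQP
  refine ⟨fun k => if ε k = c + 1 then t else 1, ?_, ?_, ?_⟩
  · rw [map_add, h2, map_smul, h4]
    ext i j
    by_cases hij : i = j
    · subst hij
      by_cases h5 : ε i = c + 1
      · simp [Matrix.diagonal_apply_eq, h5]
      · simp [Matrix.diagonal_apply_eq, h5]
    · simp [Matrix.diagonal_apply_ne _ hij, Matrix.one_apply_ne hij]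
  · intro k
    dsimp only
    split_ifs
    · exact ht
    · exact one_ne_zero
  · have h5 : ∀ k, (if ε k = c + 1 then t else 1) ^ m k = t ^ (if ε k = c + 1 then m k else 0) := by
      intro k
      split_ifs <;> simp
    rw [Finset.prod_congr rfl (fun k _ => h5 k), g6_prod_zpow ht]
    have h6 : ∑ k, (if ε k = c + 1 then m k else 0) = 0 := by
      have h7 := hm ε (Set.mem_insert_of_mem _ hε)
      have h8 := hm 1 (Set.mem_insert _ _)
      have h9 : ((∑ k, (if ε k = c + 1 then m k else 0) : ℤ) : ℚ) = 0 := by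
        push_cast
        have h10 : ∀ k, (if ε k = c + 1 then (m k : ℚ) else 0) =
            ((1 - c) * ((m k : ℚ) * (1 : Fin n → ℚ) k) + (m k : ℚ) * ε k) / 2 := by
          intro k
          rcases hpm k with h11 | h11
          · rw [if_pos h11, h11, Pi.one_apply]; ring
          · rw [if_neg (by rw [h11]; intro h12; linarith), h11, Pi.one_apply]; ring
        rw [Finset.sum_congr rfl (fun k _ => h10 k), ← Finset.sum_div, Finset.sum_add_distrib,
          ← Finset.mul_sum, h7, h8]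
        simp
      exact_mod_cast h9
    rw [h6, zpow_zero]

include h hdet hPQ hQP g E in
/-- The proof is that of `H76Y.span_of_loglin`. -/
theorem span_of_loglinU (hn : 0 < n) {f : Fin n → K} (hf : LogLin d f) :
    f ∈ Submodule.span K (cst K '' (insert 1 (Hs (LcN J S P Q)))) := by
  refine mem_spanK fun m hm => ?_
  obtain ⟨N, hN, hNz⟩ := g.torgen
  have key : ∀ y ∈ Submonoid.closure {m : Matrix ι ι K | ∃ h ∈ 𝓗, h * φ = φ * h ∧
      ∃ t : K, t ≠ 0 ∧ m = 1 + (t - 1) • h}, y * e b = e b * y ∧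
      ∃ f : Fin n → K, cmp P Q y = Matrix.diagonal f ∧ (∀ k, f k ≠ 0) ∧ ∏ k, f k ^ m k = 1 := by
    intro y hy
    induction hy using Submonoid.closure_induction with
    | mem y hy =>
      obtain ⟨x, hx, hxφ, t, ht, rfl⟩ := hy
      refine ⟨?_, g6_genU h hdet hPQ hQP g E hn hm hx hxφ ht⟩
      have h1 : x * e b = e b * x :=
        zlie_commute g.sh.one (fun s hs => g.sh.SD s hs _ (h.mem b)) (g.sh.hz x hx)
      rw [add_mul, mul_add, one_mul, mul_one, Matrix.smul_mul, Matrix.mul_smul, h1]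
    | one =>
      refine ⟨by rw [one_mul, mul_one], fun _ => 1, ?_, fun _ => one_ne_zero, by simp⟩
      rw [H76U.cmp_one hPQ hQP]
      ext i j
      by_cases hij : i = j
      · subst hij; simp
      · simp [Matrix.diagonal_apply_ne _ hij, Matrix.one_apply_ne hij]
    | mul x y _ _ hx hy =>
      obtain ⟨hx1, fx, hx2, hx3, hx4⟩ := hx
      obtain ⟨hy1, fy, hy2, hy3, hy4⟩ := hy
      refine ⟨by rw [Matrix.mul_assoc, hy1, ← Matrix.mul_assoc, hx1, Matrix.mul_assoc],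
        fun k => fx k * fy k, ?_, fun k => mul_ne_zero (hx3 k) (hy3 k), ?_⟩
      · rw [H76U.cmp_mul hPQ hQP hy1, hx2, hy2, Matrix.diagonal_mul_diagonal]
      · simp only [mul_zpow]
        rw [Finset.prod_mul_distrib, hx4, hy4, one_mul]
  choose G hG using fun k => g6_entry P Q k k
  have h1 : ev (φ ^ N) (∏ k, G k ^ (m k).toNat - ∏ k, G k ^ (-m k).toNat) = 0 := by
    apply hNz
    intro y hy
    obtain ⟨-, f, h2, h3, h4⟩ := key y hy
    rw [map_sub, map_prod, map_prod]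
    simp only [map_pow, hG]
    have h5 : ∀ k, (Q * y * P) k k = f k := fun k => by
      have : Q * y * P = Matrix.diagonal f := h2
      rw [this, Matrix.diagonal_apply_eq]
    simp only [h5]
    rw [sub_eq_zero]
    exact (g6_nat h3 m).1 h4
  have h6 : φ ^ N * P = P * Matrix.diagonal (fun k => d k ^ N) := by
    clear h1 hNz hN
    induction N with
    | zero => simp
    | succ N ih =>
      rw [pow_succ, Matrix.mul_assoc, E.eig, ← Matrix.mul_assoc, ih, Matrix.mul_assoc,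
        Matrix.diagonal_mul_diagonal]
      simp only [pow_succ]
  have h7 : ∀ k, (Q * φ ^ N * P) k k = d k ^ N := fun k => by
    rw [Matrix.mul_assoc, h6, ← Matrix.mul_assoc, hQP, Matrix.one_mul, Matrix.diagonal_apply_eq]
  rw [map_sub, map_prod, map_prod] at h1
  simp only [map_pow, hG, h7] at h1
  rw [sub_eq_zero] at h1
  have h8 : ∏ k, (d k ^ N) ^ m k = 1 := (g6_nat (fun k => pow_ne_zero _ (E.ne k)) m).2 h1
  have h9 := hf (fun k => N * m k) (by
    rw [← h8]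
    refine Finset.prod_congr rfl fun k _ => ?_
    rw [_root_.zpow_mul, zpow_natCast])
  have h10 : (N : K) * ∑ k, (m k : K) * f k = 0 := by
    rw [Finset.mul_sum, ← h9]
    refine Finset.sum_congr rfl fun k _ => ?_
    push_cast
    ring
  rcases mul_eq_zero.1 h10 with h11 | h11
  · exact absurd h11 (by exact_mod_cast hN)
  · exact h11

end Pool.Agent.H45U
end

-- from Lib.H45U.G7
section

/-!
# G7: the configuration of the Lie algebra, without a condition of balance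
-/

set_option autoImplicit false
set_option linter.unusedSectionVars false
namespace Pool.Agent.H45U
open Module Matrix Polynomial Pool.Agent.H53Toric
open Pool.Agent.H25U (CmpN TM Hs Yo)
open Pool.Agent.H76P hiding Hs Yo pt pt_apply wc IsWt
open Pool.Agent.H76V Pool.Agent.H76Q
open Pool.Agent.H76Y hiding CmpN TM LocN GoodN Cls Core3 PartN MumN
open Pool.Agent.H76RM (van zlie_commute spanK similD)
open Pool.Agent.H76U (preL cmp Split4)
open Pool.Agent.H76V (SH)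

variable {ι : Type*} [Fintype ι] [DecidableEq ι] {K : Type*} [Field K]
  [CharZero K] [IsAlgClosed K] {B : Type*} [Fintype B] [DecidableEq B]
  {J : Matrix ι ι K} {DD : Submodule K (Matrix ι ι K)}
  {bar : B → B} {e : B → Matrix ι ι K} (h : Split4 J DD bar e) {b : B}
  {n : ℕ} {S : Set (Matrix ι ι K)} {𝓗 : Set (Matrix ι ι K)} {φ φ' : Matrix ι ι K}
  (hdet : IsUnit J.det)
  {P : Matrix ι (Fin n) K} {Q : Matrix (Fin n) ι K}
  (hPQ : e b = P * Q) (hQP : Q * P = 1)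
  (g : PH S J DD 𝓗 φ φ') {d : Fin n → K} (E : EC φ P d)

include h hdet hPQ hQP g E in
/-- PROOF. By `span_of_loglin` and `rat_of_spanK` `f + constant` is in `span ℚ (insert 1 (Hs L))`: `f - c` is log linear with `c : K`, so
`cst K f = (f - c) + c • 1` is in the span over `K` of `cst K '' (insert 1 (Hs L))`, so `f ∈ span ℚ (insert 1 (Hs L))`, `f = y + r • 1` with `y ∈ Yo L`
(`Submodule.mem_span_insert`).  The sum of the values of `f` is `0`, that of `y` too (`Yo_sum`, `cmp_unit`), so `r * n = 0`, `r = 0`. -/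
theorem mem_YoU (hn : 0 < n) {f : Fin n → ℚ} {c : K}
    (hf : LogLin d (fun k => (f k : K) - c)) (hs : ∑ k, f k = 0) : f ∈ Yo (LcN J S P Q) := by
  have h1 := span_of_loglinU h hdet hPQ hQP g E hn hf
  have h2 : cst K f ∈ Submodule.span K (cst K '' (insert 1 (Hs (LcN J S P Q)))) := by
    have h3 : cst K f = (fun k => (f k : K) - c) + c • cst K (1 : Fin n → ℚ) := by
      funext k
      simp [cst]
    rw [h3]
    exact Submodule.add_mem _ h1
      (Submodule.smul_mem _ _ (Submodule.subset_span ⟨1, Set.mem_insert _ _, rfl⟩))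
  have h4 := rat_of_spanK h2
  obtain ⟨r, y, hy, hfy⟩ := Submodule.mem_span_insert.1 h4
  have hy' : y ∈ Yo (LcN J S P Q) := hy
  have h5 := H25U.Yo_sum (cmp_unitU h hdet hPQ hQP g hn) hy'
  have h6 : r * (n : ℚ) = 0 := by
    have h7 : ∑ k, f k = r * n + ∑ k, y k := by
      rw [hfy]
      simp [Finset.sum_add_distrib, mul_comm]
    rw [hs, h5, add_zero] at h7
    exact h7.symm
  have hr : r = 0 := by
    rcases mul_eq_zero.1 h6 with h8 | h8
    · exact h8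
    · exact absurd h8 (by exact_mod_cast hn.ne')
  rw [hfy, hr, zero_smul, zero_add]
  exact hy'

include h hdet hPQ hQP g E in
/-- PROOF. `loglin_of_mem` and `mem_Yo`; the sum is `0` by `CmpN.tr` and `dg_trace`. -/
theorem diag_memU (hn : 0 < n) {f : Fin n → ℚ} (hf : dq f ∈ LcN J S P Q) :
    f ∈ Yo (LcN J S P Q) := by
  obtain ⟨c, hc⟩ := loglin_of_memU h hdet hPQ hQP g E (f := fun k => (f k : K)) hf
  refine mem_YoU h hdet hPQ hQP g E hn hc ?_
  have h1 := (cmp_unitU h hdet hPQ hQP g hn).tr _ hf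
  unfold dq at h1
  rw [H25U.dg_trace] at h1
  exact_mod_cast h1

include h hdet hPQ hQP g E in
/-- PROOF. `≤`: `f ∈ Yo` has sum `0` (`Yo_sum`) and `dq f ∈ L` (`Yo_mem`), so `f - c` is log linear for some `c : K` (`loglin_of_mem`, see the proof of `diag_mem`).
If all relations `m` have `∑ m = 0`, the same holds with `c = 0`; otherwise `c = ∑ m f / ∑ m` is rational.  `≥`: `mem_Yo`. -/
theorem Yo_eq_YSU (hn : 0 < n) : Yo (LcN J S P Q) = YS d := by
  apply le_antisymm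
  · intro f hf
    have h1 := H25U.Yo_mem hf
    have h2 := H25U.Yo_sum (cmp_unitU h hdet hPQ hQP g hn) hf
    obtain ⟨c, hc⟩ := loglin_of_memU h hdet hPQ hQP g E (f := fun k => (f k : K)) h1
    have hexp : ∀ m : Fin n → ℤ, ∑ k, (m k : K) * ((f k : K) - c) =
        ((∑ k, (m k : ℚ) * f k : ℚ) : K) - c * ((∑ k, m k : ℤ) : K) := by
      intro m
      push_cast
      rw [Finset.mul_sum, ← Finset.sum_sub_distrib]
      exact Finset.sum_congr rfl fun k _ => by ring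
    refine ⟨h2, ?_⟩
    by_cases hz : ∀ m : Fin n → ℤ, ∏ k, d k ^ m k = 1 → ∑ k, m k = 0
    · refine ⟨0, fun m hm => ?_⟩
      have h3 : ∑ k, (m k : K) * ((f k : K) - c) = 0 := hc m hm
      rw [hexp, hz m hm, Int.cast_zero, mul_zero, sub_zero] at h3
      have h4 : ∑ k, (m k : ℚ) * f k = 0 := by exact_mod_cast h3
      have h5 : ∑ k, (m k : ℚ) * (f k - 0) = ∑ k, (m k : ℚ) * f k :=
        Finset.sum_congr rfl fun k _ => by rw [sub_zero]
      exact h5.trans h4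
    · push Not at hz
      obtain ⟨m0, hm0, hm1⟩ := hz
      have h3 : ∑ k, (m0 k : K) * ((f k : K) - c) = 0 := hc m0 hm0
      rw [hexp, sub_eq_zero] at h3
      have hne : ((∑ k, m0 k : ℤ) : K) ≠ 0 := by exact_mod_cast hm1
      have hcr : c = (((∑ k, (m0 k : ℚ) * f k) / ((∑ k, m0 k : ℤ) : ℚ) : ℚ) : K) := by
        rw [Rat.cast_div, Rat.cast_intCast, h3, mul_div_assoc, div_self hne, mul_one]
      refine ⟨(∑ k, (m0 k : ℚ) * f k) / ((∑ k, m0 k : ℤ) : ℚ), fun m hm => ?_⟩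
      have h4 : ∑ k, (m k : K) * ((f k : K) - c) = 0 := hc m hm
      rw [hcr] at h4
      exact_mod_cast h4
  · rintro f ⟨h1, c, h2⟩
    refine mem_YoU h hdet hPQ hQP g E hn (c := (c : K)) ?_ h1
    intro m hm
    have h3 := congrArg (Rat.cast : ℚ → K) (h2 m hm)
    show ∑ k, (m k : K) * ((f k : K) - (c : K)) = 0
    exact_mod_cast h3

include h hdet hPQ hQP g E in
/-- PROOF. `cmp_unit`, `diag_mem`; `sep`: `YS_sep` (A3) and `Yo_eq_YS`. -/
theorem mk_tmU (hn : 0 < n)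
    (ht : ∀ a b : Fin n, ∀ N : ℕ, N ≠ 0 → d a ^ N = d b ^ N → a = b) :
    TM (LcN J S P Q) := by
  refine ⟨cmp_unitU h hdet hPQ hQP g hn,
    fun f hf => diag_memU h hdet hPQ hQP g E hn hf, ?_⟩
  intro a b hab
  rw [Yo_eq_YSU h hdet hPQ hQP g E hn]
  exact YS_sep E.ne ht a b hab

end Pool.Agent.H45U
end

-- from Lib.H45U.A7
section

/-!
# A7: existence of the local data, without a condition of balance
-/

set_option autoImplicit false
set_option linter.unusedSectionVars false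
namespace Pool.Agent.H45U
open Module Matrix Polynomial Pool.Agent.H53Toric
open Pool.Agent.H25U
open Pool.Agent.H76P hiding Hs Yo pt pt_apply wc IsWt
open Pool.Agent.H76Q
open Pool.Agent.H76Y hiding CmpN TM LocN GoodN Cls Core3 PartN MumN
open Pool.Agent.H76Z hiding LocN GoodN Cls Core3
open Pool.Agent.H76U (cmp preL Lb)
open Pool.Agent.H76RM (spanK similD)

/-- The hypotheses are those of `H76Z.mk_loc` without `bal`.  With balance the algebra satisfies the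
old conditions, too. -/
theorem mk_locU {ι : Type*} [Fintype ι] [DecidableEq ι] {K : Type*} [Field K] [CharZero K]
    [IsAlgClosed K] {L : Type*} [Field L] [CharZero L] [Algebra L K] {G : Type*} [Group G]
    {ψ : Matrix ι ι ℚ}
    (hψ : ψᵀ = -ψ) (hψ0 : ψ.det ≠ 0) (D : Subalgebra ℚ (Matrix ι ι ℚ))
    (ρ : G →* Matrix.GeneralLinearGroup ι L)
    (lin : ∀ σ : G, ∀ d ∈ D, (ρ σ).1 * d.map (algebraMap ℚ L) =
      d.map (algebraMap ℚ L) * (ρ σ).1)
    (sim : ∀ σ : G, ∃ c : L, (ρ σ).1ᵀ * ψ.map (algebraMap ℚ L) * (ρ σ).1 =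
      c • ψ.map (algebraMap ℚ L))
    (semis : ∀ H : Subgroup G, H.FiniteIndex → ∀ W : Submodule K (ι → K),
      (∀ s ∈ img K ρ H, ∀ w ∈ W, s *ᵥ w ∈ W) →
      ∃ W' : Submodule K (ι → K), (∀ s ∈ img K ρ H, ∀ w ∈ W', s *ᵥ w ∈ W') ∧ IsCompl W W')
    (commt : ∀ H : Subgroup G, H.FiniteIndex → ∀ y : Matrix ι ι K,
      (∀ s ∈ img K ρ H, y * s = s * y) → y ∈ spanK K D)
    (gen : ∀ g : G, (ρ g).1.map (algebraMap L K) ∈ tgen K ρ)
    {M : Type*} [Field M] [CharZero M] {m : ℕ} {cl : Fin m → Cl} {bar : Fin m → Fin m}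
    {e : Fin m → Matrix ι ι M} {u₀ : Matrix ι ι M} {F : Fin m → M[X]}
    (hspl : Splits D ψ cl bar e u₀) {x : Matrix ι ι K} (hF : FrobT K ρ e F x)
    (hx : x ∈ tgen K ρ) {q : ℚ}
    (hmult : xᵀ * ψ.map (algebraMap ℚ K) * x = algebraMap ℚ K q • ψ.map (algebraMap ℚ K))
    {H₀ : Subgroup G} (hfin : H₀.FiniteIndex) (hprime : (H76RM.van (img K ρ H₀)).IsPrime)
    {Ω : Type*} [Field Ω] [IsAlgClosed Ω] (j : M →+* Ω) (i : Ω →+* K) (b : Fin m)
    {n : ℕ} {a : Fin n → Ω} (ha : Function.Injective a)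
    (hroot : ∀ y : Ω, (F b).eval₂ j y = 0 ↔ ∃ k, y = a k)
    (ht : ∀ k l : Fin n, ∀ N : ℕ, N ≠ 0 → a k ^ N = a l ^ N → k = l) :
    ∃ (U : Matrix ι (Fin n) K) (V : Matrix (Fin n) ι K),
      LocU (ψ.map (algebraMap ℚ K)) (img K ρ H₀) (properProj K ρ) ((e b).map (i.comp j)) x
        U V (fun k => i (a k)) (YS a) ∧
      (cl b = .s → SyL (LcN (ψ.map (algebraMap ℚ K)) (img K ρ H₀) U V)) ∧
      (cl b = .o → OrL (LcN (ψ.map (algebraMap ℚ K)) (img K ρ H₀) U V)) ∧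
      ((∀ h ∈ properProj K ρ, 2 * (h * (e b).map (i.comp j)).rank = n) →
        (∏ k, i (a k)) ^ 2 = algebraMap ℚ K q ^ n ∧
        H76Y.TM (LcN (ψ.map (algebraMap ℚ K)) (img K ρ H₀) U V) ∧
        H76P.Yo (LcN (ψ.map (algebraMap ℚ K)) (img K ρ H₀) U V) = YS a ∧
        (cl b = .n → NsL (LcN (ψ.map (algebraMap ℚ K)) (img K ρ H₀) U V))) := by
  classical
  obtain ⟨hJ, hdet0⟩ := gram_basic hψ hψ0 K
  have hsplK : Splits D ψ cl bar (fun c => (e c).map (i.comp j)) (u₀.map (i.comp j)) :=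
    hspl.map (i.comp j)
  have hspl4 := hsplK.split4
  have hι : Nonempty ι := by
    by_contra hemp
    rw [not_nonempty_iff] at hemp
    apply hsplK.ne_zero b
    ext i'
    exact (hemp.false i').elim
  obtain ⟨φ', g₀⟩ := mk_phT (K := K) hψ hψ0 D ρ lin sim semis commt gen hF hfin hprime
  have g := ph_unit g₀ hsplK.umem
  have hus : ∀ s ∈ img K ρ H₀, s * u₀.map (i.comp j) = u₀.map (i.comp j) * s := fun s hs =>
    g₀.sh.SD s hs _ hsplK.umem
  have hdet : IsUnit (ψ.map (algebraMap ℚ K) * u₀.map (i.comp j)).det := by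
    rw [Matrix.det_mul]
    exact hdet0.mul hsplK.unit
  have hφe : x * (e b).map (i.comp j) = (e b).map (i.comp j) * x := g.φD _ (hspl4.mem b)
  obtain ⟨U, V, hUV, hVU, E⟩ := exists_ecT hF j i b (hspl.idem b) hφe.symm ha hroot
  have hn : 0 < n := by
    rw [Nat.pos_iff_ne_zero]
    rintro rfl
    apply hsplK.ne_zero b
    rw [hUV]
    ext i' j'
    rw [Matrix.mul_apply, Finset.univ_eq_empty, Finset.sum_empty]
    rfl
  have hL : LcN (ψ.map (algebraMap ℚ K) * u₀.map (i.comp j)) (img K ρ H₀) U V =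
      LcN (ψ.map (algebraMap ℚ K)) (img K ρ H₀) U V :=
    lcN_unit g₀.sh.one hus hsplK.unit U V
  have hti : ∀ k l : Fin n, ∀ N : ℕ, N ≠ 0 → i (a k) ^ N = i (a l) ^ N → k = l := by
    intro k l N hN hkl
    refine ht k l N hN (i.injective ?_)
    rw [map_pow, map_pow]
    exact hkl
  have heP : (e b).map (i.comp j) * U = U := by
    rw [hUV, Matrix.mul_assoc, hVU, Matrix.mul_one]
  -- the transposed form on the component
  have htr : ∀ A : Matrix ι ι K, Uᵀ * A * U =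
      Uᵀ * (((e b).map (i.comp j))ᵀ * A * (e b).map (i.comp j)) * U := by
    intro A
    have h1 : Uᵀ * ((e b).map (i.comp j))ᵀ = Uᵀ := by rw [← Matrix.transpose_mul, heP]
    calc Uᵀ * A * U = (Uᵀ * ((e b).map (i.comp j))ᵀ) * A * ((e b).map (i.comp j) * U) := by
          rw [h1, heP]
      _ = _ := by simp only [Matrix.mul_assoc]
  refine ⟨U, V, ?_, fun hb => ?_, fun hb => ?_, fun bal => ⟨?_, ?_, ?_, fun hb => ?_⟩⟩
  · refine
      { pos := hn
        UV := hUV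
        VU := hVU
        ec := E
        ex := hφe.symm
        ts := hL ▸ mk_tmU (b := b) hspl4 hdet hUV hVU g E hn hti
        yo := ?_
        par := ?_
        lie := ?_ }
    · rw [← hL, Yo_eq_YSU (b := b) hspl4 hdet hUV hVU g E hn]
      exact YS_map i a
    · intro h hh
      rw [← hL]
      exact ⟨g.sh.hi h hh, H76Y.g5_comm (b := b) hspl4 g hh, _,
        shift_mem (b := b) hspl4 hdet hUV hVU g hn hh⟩
    · intro C hC
      rw [← hL]
      refine ⟨?_, H76Y.lc_of_zlie (b := b) hspl4 hdet hUV hVU g hn hC⟩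
      exact Pool.Agent.H76RM.zlie_commute g.sh.one (fun s hs => g.sh.SD s hs _ (hspl4.mem b)) hC
  · rw [← hL]
    have hbar : bar b = b := (hspl.self b).2 (by rw [hb]; decide)
    obtain ⟨h1, h2⟩ := form_inv (b := b) hspl4 hUV hVU g hbar hdet hn
    refine ⟨_, ?_, h1, h2⟩
    rw [Matrix.transpose_mul, Matrix.transpose_mul, Matrix.transpose_transpose, ← Matrix.mul_assoc,
      htr, hsplK.alt b hb, Matrix.mul_neg, Matrix.neg_mul, ← htr]
  · rw [← hL]
    have hbar : bar b = b := (hspl.self b).2 (by rw [hb]; decide)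
    obtain ⟨h1, h2⟩ := form_inv (b := b) hspl4 hUV hVU g hbar hdet hn
    refine ⟨_, ?_, h1, h2⟩
    rw [Matrix.transpose_mul, Matrix.transpose_mul, Matrix.transpose_transpose, ← Matrix.mul_assoc,
      htr, hsplK.sym b hb, ← htr]
  · obtain ⟨-, c, -, hc, hd⟩ := EN.tgen_det (n := n) (J := ψ.map (algebraMap ℚ K)) hUV hVU
      (𝓗 := properProj K ρ) (fun h hh => ⟨g.sh.hi h hh, H76Y.g5_comm (b := b) hspl4 g hh,
        g₀.sh.hs h hh, bal h hh⟩) hx
    have hJ0 : ψ.map (algebraMap ℚ K) ≠ 0 := by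
      intro h0
      rw [h0] at hdet0
      rw [Matrix.det_zero] at hdet0
      exact not_isUnit_zero hdet0
    have hcq : c = algebraMap ℚ K q := smul_left_injective K hJ0 (by
      show c • ψ.map (algebraMap ℚ K) = algebraMap ℚ K q • ψ.map (algebraMap ℚ K)
      rw [← hc, hmult])
    have hdg : cmp U V x = Matrix.diagonal (fun k => i (a k)) := cmp_phi hVU E
    rw [hdg, Matrix.det_diagonal, hcq] at hd
    exact hd
  · rw [← hL]
    exact H76Y.mk_tm (b := b) hspl4 bal hdet hUV hVU g E hn hti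
  · rw [← hL, H76Y.Yo_eq_YS (b := b) hspl4 bal hdet hUV hVU g E hn]
    exact YS_map i a
  · have hbar : bar b ≠ b := fun h => (hspl.self b).1 h hb
    rw [← hL]
    exact H76Y.nsl (b := b) hspl4 hUV hVU g.sh hbar hdet bal

end Pool.Agent.H45U
end

-- from Lib.H76Q.G3
section

/-!
# the lift
-/

set_option autoImplicit false
set_option linter.unusedSectionVars false
namespace Pool.Agent.H76Q
open Module Matrix Polynomial Pool.Agent.H53Toric
open Pool.Agent.H76P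
open Pool.Agent.H76T (IsIdeal Fam Lc)
open Pool.Agent.H76V (Cmp)
open Pool.Agent.H76U (cmp preL IsSplitting)
open Pool.Agent.H76RM (spanK similD)

variable {ι : Type*} [Fintype ι] [DecidableEq ι] {ψ : Matrix ι ι ℚ}
    {D : Subalgebra ℚ (Matrix ι ι ℚ)} {M : Type*} [Field M] [NumberField M]
    {m : ℕ} {e : Fin m → Matrix ι ι M} {G : Type*} [Group G]
    {ρ : ∀ (l : ℕ) [Fact l.Prime], G →* Matrix.GeneralLinearGroup ι ℚ_[l]}
    {p : ℕ} [Fact p.Prime] {σ : G} {q : ℚ} {f : ℚ[X]} {F : Fin m → M[X]}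
    {φ μ ν : Matrix ι ι (AlgebraicClosure ℚ_[p])} {v : AlgebraicClosure ℚ_[p] → ℚ}
    {Δ : Set (AlgebraicClosure ℚ_[p] ≃+* AlgebraicClosure ℚ_[p])}
    {Ω : Type*} [Field Ω] [CharZero Ω] [IsAlgClosed Ω] [Algebra.IsAlgebraic ℚ Ω] {j : M →+* Ω}
    {R : Finset Ω} {N : Set ℕ} (C : Core ψ D e ρ p σ q f F φ μ ν v Δ j R N)

include C

/-- PROOF. `Core.locp`, `exists_bar` (E4); `i` is injective. -/
theorem Core.bar (b : Fin m)
    {n : ℕ} {a : Fin n → Ω} (ha : Function.Injective a)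
    (hroot : ∀ y : Ω, (F b).eval₂ j y = 0 ↔ ∃ k, y = a k) :
    ∃ bar : Equiv.Perm (Fin n), ∀ k, a k * a (bar k) = algebraMap ℚ Ω q := by
  let i : Ω →+* AlgebraicClosure ℚ_[p] :=
    (IsAlgClosed.lift (R := ℚ) (S := Ω) (M := AlgebraicClosure ℚ_[p])).toRingHom
  obtain ⟨H₀, U, V, -, hL⟩ := C.locp b ha hroot i
  obtain ⟨bar, hbar⟩ := exists_bar hL
  refine ⟨bar, fun k => i.injective ?_⟩
  rw [map_mul, hbar k, eq_ratCast, eq_ratCast, map_ratCast]

/-- Local data with multiplier at `p`. PROOF. `Core.locp`, `gen_PT` (E4) for `φ` (`C.crys.phigen`), `H76P.cmp_phi`, `phi_diag`, `PT_diag`, `lam_diag` (C6), `pair_bar` (E4). -/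
theorem Core.ld (b : Fin m)
    {n : ℕ} {a : Fin n → Ω} (ha : Function.Injective a)
    (hroot : ∀ y : Ω, (F b).eval₂ j y = 0 ↔ ∃ k, y = a k)
    {bar : Equiv.Perm (Fin n)} (hbar : ∀ k, a k * a (bar k) = algebraMap ℚ Ω q)
    {P : Module.End ℚ (YS a)} (hP : Sp P) (hg : Good P) (i : Ω →+* AlgebraicClosure ℚ_[p]) :
    ∃ (u r : Fin n → AlgebraicClosure ℚ_[p]) (t : AlgebraicClosure ℚ_[p]), LD P a i u r ∧
      ∀ k, u k * u (bar k) = t := by
  obtain ⟨H₀, U, V, -, hL⟩ := C.locp b ha hroot i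
  have hc : Comp (Lc (ψ.map (algebraMap ℚ (AlgebraicClosure ℚ_[p])))
      (img (AlgebraicClosure ℚ_[p]) (ρ p) H₀) U V) P :=
    hg (AlgebraicClosure ℚ_[p]) _ _ hL.ts hL.yo
  obtain ⟨u, r, t, hPT⟩ := gen_PT hL hP hc C.crys.phigen
  rw [cmp_phi hL.VU hL.ec, phi_diag] at hPT
  have hne : Nonempty (Fin n) := ⟨⟨0, hL.pos⟩⟩
  obtain ⟨u₀, r₀, hu, hr, fu, fr, hprod⟩ := PT_diag hL.ts hL.yo hP hc hL.ec.inj hPT
  have hadj := hPT.2.2.2.2.1
  rw [hu] at hadj
  have hbar' : ∀ k, i (a k) * i (a (bar k)) = algebraMap ℚ (AlgebraicClosure ℚ_[p]) q := by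
    intro k
    rw [← map_mul, hbar k, eq_ratCast, eq_ratCast, map_ratCast]
  refine ⟨u₀, r₀, t, ⟨hprod, fu, fr⟩, ?_⟩
  exact lam_diag hL.ts.cmp.Jd (pair_bar hL hbar' hL.ec.ne) hadj

end Pool.Agent.H76Q
end

-- from Lib.H76Q.G4
section

/-!
# reciprocity
-/

set_option autoImplicit false

/-!
# reciprocity
-/
set_option linter.unusedSectionVars false
namespace Pool.Agent.H76Q
open Module Matrix Polynomial Pool.Agent.H53Toric
open Pool.Agent.H76P
open Pool.Agent.H76T (IsIdeal Fam Lc)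
open Pool.Agent.H76V (Cmp)
open Pool.Agent.H76U (cmp preL IsSplitting)
open Pool.Agent.H76RM (spanK similD)

variable {ι : Type*} [Fintype ι] [DecidableEq ι] {ψ : Matrix ι ι ℚ}
    {D : Subalgebra ℚ (Matrix ι ι ℚ)} {M : Type*} [Field M] [NumberField M]
    {m : ℕ} {e : Fin m → Matrix ι ι M} {G : Type*} [Group G]
    {ρ : ∀ (l : ℕ) [Fact l.Prime], G →* Matrix.GeneralLinearGroup ι ℚ_[l]}
    {p : ℕ} [Fact p.Prime] {σ : G} {q : ℚ} {f : ℚ[X]} {F : Fin m → M[X]}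
    {φ μ ν : Matrix ι ι (AlgebraicClosure ℚ_[p])} {v : AlgebraicClosure ℚ_[p] → ℚ}
    {Δ : Set (AlgebraicClosure ℚ_[p] ≃+* AlgebraicClosure ℚ_[p])}
    {Ω : Type*} [Field Ω] [CharZero Ω] [IsAlgClosed Ω] [Algebra.IsAlgebraic ℚ Ω] {j : M →+* Ω}
    {R : Finset Ω} {N : Set ℕ} (C : Core ψ D e ρ p σ q f F φ μ ν v Δ j R N)

include C

/-- The multiplier is not zero. -/
theorem Core.g4_q (b : Fin m) : q ≠ 0 := by
  intro hq0
  have hι : Nonempty ι := by
    by_contra hemp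
    rw [not_nonempty_iff] at hemp
    apply C.hspl.ne_zero b
    ext i
    exact (hemp.false i).elim
  obtain ⟨l, hl1, hl2⟩ := Nat.exists_infinite_primes (p + 1)
  have : Fact l.Prime := ⟨hl2⟩
  have h1 := C.mult l (by omega)
  rw [hq0, map_zero, zero_smul] at h1
  have h2 := congrArg Matrix.det h1
  rw [Matrix.det_mul, Matrix.det_mul, Matrix.det_transpose, Matrix.det_zero] at h2
  have h3 : (ρ l σ).1.det ≠ 0 := by
    have := (Matrix.isUnits_det_units (ρ l σ)).ne_zero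
    exact this
  have h4 : (ψ.map (algebraMap ℚ ℚ_[l])).det ≠ 0 := by
    have h5 : (ψ.map (algebraMap ℚ ℚ_[l])).det = algebraMap ℚ ℚ_[l] ψ.det := by
      rw [RingHom.map_det]
      rfl
    rw [h5]
    exact (_root_.map_ne_zero _).2 C.hψ0
  rcases mul_eq_zero.1 h2 with h6 | h6
  · rcases mul_eq_zero.1 h6 with h7 | h7
    · exact h3 h7
    · exact h4 h7
  · exact h3 h6

/-- PROOF. `C.arith.cheb` for the subgroup of `exists_gam` (D3), `gam_open`; `m₀ ≠ 0`, fixed: `Lift.exists_m` (D2, with `Core.ld`).  Let `l ∉ N` (so `l ≠ p`), `i` with `Dec`, all `i r` squares: `Core.locl`, and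
`square_at` (E6) for `C.arith.recl`; `hJ`: `ψ` is rational; `hdec`: for `τ` let `s` be as in `exists_res` (E5); `s ∈ Γ` by `Dec`; so `s` fixes `j M` (hence `he`) and has a permutation with `StabP`. -/
theorem Core.recl (b : Fin m)
    {n : ℕ} {a : Fin n → Ω} (ha : Function.Injective a)
    (hroot : ∀ y : Ω, (F b).eval₂ j y = 0 ↔ ∃ k, y = a k)
    {bar : Equiv.Perm (Fin n)} (hbar : ∀ k, a k * a (bar k) = algebraMap ℚ Ω q)
    {P : Module.End ℚ (YS a)} (hP : Sp P) (hg : Good P) {t : Fin n → Ω} (ht : Lift P a t)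
    {m₀ : Ω} (hm : ∀ k, t k * t (bar k) = m₀) :
    ∃ R' ⊆ R, ∃ c : Ω, (∀ s ∈ GamP j R a P, s c = c) ∧ m₀ = (∏ r ∈ R', r) * c ^ 2 := by
  classical
  -- preparations
  have hq0 : algebraMap ℚ Ω q ≠ 0 := (_root_.map_ne_zero _).2 (C.g4_q b)
  have ha0 : ∀ k, a k ≠ 0 := by
    intro k h0
    apply hq0
    rw [← hbar k, h0, zero_mul]
  let i₀ : Ω →+* AlgebraicClosure ℚ_[p] := (IsAlgClosed.lift : Ω →ₐ[ℚ] AlgebraicClosure ℚ_[p]).toRingHom
  obtain ⟨H₁, U₁, V₁, -, hL₁⟩ := C.locp b ha hroot i₀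
  have : Nonempty (Fin n) := ⟨⟨0, hL₁.pos⟩⟩
  obtain ⟨u, r, t', hld, hut⟩ := C.ld b ha hroot hbar hP hg i₀
  obtain ⟨m', hm'0, hm', hinv⟩ := ht.exists_m ha ha0 hP hbar hld hut
  have hmm : m' = m₀ := by rw [← hm' ⟨0, hL₁.pos⟩, hm ⟨0, hL₁.pos⟩]
  rw [hmm] at hm'0 hinv
  obtain ⟨Γ, hΓ⟩ := exists_gam (a := a) (P := P) j R
  obtain ⟨T, hT⟩ := gam_open (a := a) (P := P) j R
  have hrat : ∀ s : Ω ≃+* Ω, s (algebraMap ℚ Ω q) = algebraMap ℚ Ω q := by
    intro s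
    rw [eq_ratCast, map_ratCast]
  have hm0 : ∀ s ∈ Γ, s m₀ = m₀ := by
    intro s hs
    obtain ⟨-, -, σ', h1, h2⟩ := (hΓ s).1 hs
    exact hinv s σ' (hrat s) h1 h2
  obtain ⟨R', hR', c, hc, hmc⟩ := C.arith.cheb Γ ⟨T, fun s hs => (hΓ s).2 (hT s hs)⟩
    (fun s hs r hr => ((hΓ s).1 hs).2.1 r hr) m₀ hm'0 hm0 (by
      intro l _ hl i hdec hsq
      have hlp : l ≠ p := by
        intro h
        apply hl
        rw [h]
        exact C.hN
      obtain ⟨H₀, U, V, hfin, hL⟩ := C.locl b ha hroot l hlp i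
      have hres : ∀ τ : AlgebraicClosure ℚ_[l] ≃ₐ[ℚ_[l]] AlgebraicClosure ℚ_[l], ∃ s : Ω ≃+* Ω,
          (∀ y, τ (i y) = i (s y)) ∧ s ∈ Γ := by
        intro τ
        obtain ⟨s, hs⟩ := exists_res i τ.toRingEquiv
        exact ⟨s, hs, hdec τ s hs⟩
      refine square_at (ρ l) hL (C.gen l) (C.arith.recl l hl i hsq) hP (hg _ _ _ hL.ts hL.yo) ?_ ?_ ?_ ht
        (bar := bar) ?_ hm
      · intro τ
        ext x y
        simp
      · intro τ
        obtain ⟨s, hs, hsΓ⟩ := hres τ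
        ext x y
        show τ (i (j (e b x y))) = i (j (e b x y))
        rw [hs, ((hΓ s).1 hsΓ).1]
      · intro τ
        obtain ⟨s, hs, hsΓ⟩ := hres τ
        obtain ⟨-, -, σ', h1, h2⟩ := (hΓ s).1 hsΓ
        exact ⟨s, σ', hs, h1, h2⟩
      · intro k
        rw [← map_mul, hbar k, eq_ratCast, eq_ratCast, map_ratCast])
  exact ⟨R', hR', c, fun s hs => hc s ((hΓ s).2 hs), hmc⟩

end Pool.Agent.H76Q
end

-- from Lib.H76Q.G5
section

/-!
# inertia
-/

set_option autoImplicit false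
set_option linter.unusedSectionVars false
namespace Pool.Agent.H76Q
open Module Matrix Polynomial Pool.Agent.H53Toric
open Pool.Agent.H76P
open Pool.Agent.H76T (IsIdeal Fam Lc)
open Pool.Agent.H76V (Cmp)
open Pool.Agent.H76U (cmp preL IsSplitting)
open Pool.Agent.H76RM (spanK similD)

variable {ι : Type*} [Fintype ι] [DecidableEq ι] {ψ : Matrix ι ι ℚ}
    {D : Subalgebra ℚ (Matrix ι ι ℚ)} {M : Type*} [Field M] [NumberField M]
    {m : ℕ} {e : Fin m → Matrix ι ι M} {G : Type*} [Group G]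
    {ρ : ∀ (l : ℕ) [Fact l.Prime], G →* Matrix.GeneralLinearGroup ι ℚ_[l]}
    {p : ℕ} [Fact p.Prime] {σ : G} {q : ℚ} {f : ℚ[X]} {F : Fin m → M[X]}
    {φ μ ν : Matrix ι ι (AlgebraicClosure ℚ_[p])} {v : AlgebraicClosure ℚ_[p] → ℚ}
    {Δ : Set (AlgebraicClosure ℚ_[p] ≃+* AlgebraicClosure ℚ_[p])}
    {Ω : Type*} [Field Ω] [CharZero Ω] [IsAlgClosed Ω] [Algebra.IsAlgebraic ℚ Ω] {j : M →+* Ω}
    {R : Finset Ω} {N : Set ℕ} (C : Core ψ D e ρ p σ q f F φ μ ν v Δ j R N)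

/-- rational matrices are fixed -/
theorem g5_mapQ {K : Type*} [Field K] [CharZero K] (δ : K ≃+* K) (y : Matrix ι ι ℚ) :
    (y.map (algebraMap ℚ K)).map δ = y.map (algebraMap ℚ K) := by
  ext k l
  simp only [Matrix.map_apply]
  exact map_ratCast δ (y k l)

include C

/-- PROOF. `Core.locp` (`H₀`, `U`, `V`), `s` as in `exists_res` (E5); `s` fixes `j M` (`C.crys.dM`: `i (s (j c)) = δ (i (j c)) = i (j c)`) and `R` (`C.Rfix`); `exists_perm` (E5) gives the permutation `π`;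
`exists_theta` (E3: `e.map δ = e` by `dM`, `φ.map δ = φ` by `dphi`, `ψ` rational, the image by `dfix`), `theta_ideal` (F7, `hid`: `C.crys.dideal`), `stab_of_theta` (F7). -/
theorem Core.inert (b : Fin m)
    {n : ℕ} {a : Fin n → Ω} (ha : Function.Injective a)
    (hroot : ∀ y : Ω, (F b).eval₂ j y = 0 ↔ ∃ k, y = a k)
    {P : Module.End ℚ (YS a)} (hP : Sp P) (hg : Good P) (i : Ω →+* AlgebraicClosure ℚ_[p])
    {δ : AlgebraicClosure ℚ_[p] ≃+* AlgebraicClosure ℚ_[p]} (hδ : δ ∈ Δ) :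
    ∃ (s : Ω ≃+* Ω) (π : Equiv.Perm (Fin n)), (∀ y, δ (i y) = i (s y)) ∧
      (∀ k, s (a k) = a (π k)) ∧ StabP P π ∧ s ∈ GamP j R a P := by
  obtain ⟨H₀, U, V, hH₀, h⟩ := C.locp b ha hroot i
  obtain ⟨s, hs⟩ := exists_res i δ
  have hsj : ∀ c, s (j c) = j c := by
    intro c
    apply i.injective
    rw [← hs]
    exact C.crys.dM δ hδ (i.comp j) c
  have hsR : ∀ r ∈ R, s r = r := by
    intro r hr
    apply i.injective
    rw [← hs]
    exact C.Rfix i r hr δ hδ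
  obtain ⟨π, hπ⟩ := exists_perm ha hroot hsj
  have he : ((e b).map (i.comp j)).map δ = (e b).map (i.comp j) := by
    ext k l
    simp only [Matrix.map_apply]
    exact C.crys.dM δ hδ (i.comp j) _
  have hS : ∀ s ∈ img (AlgebraicClosure ℚ_[p]) (ρ p) H₀, s.map δ = s := by
    rintro _ ⟨g, -, rfl⟩
    ext k l
    simp only [Matrix.map_apply]
    exact C.crys.dfix δ hδ _
  obtain ⟨θ, hθ, hθU⟩ := exists_theta h (τ := δ) he (C.crys.dphi δ hδ) (g5_mapQ δ ψ) hS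
    (σ := π) (fun k => by rw [hs, hπ])
  have hI := theta_ideal h he hθ hθU
    (fun I hI1 hI2 X hX => C.crys.dideal δ hδ H₀ hH₀ I hI1 hI2 X hX)
  have hcomp : Comp (Lc (ψ.map (algebraMap ℚ (AlgebraicClosure ℚ_[p])))
      (img (AlgebraicClosure ℚ_[p]) (ρ p) H₀) U V) P := hg _ _ _ h.ts h.yo
  have hstab := stab_of_theta h hθ hP hcomp hI
  exact ⟨s, π, hs, hπ, hstab, hsj, hsR, π, hπ, hstab⟩

/-- PROOF. `Core.inert`: `δ (i c) = i (s c) = i c`; `C.crys.dval`. -/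
theorem Core.int_val (b : Fin m)
    {n : ℕ} {a : Fin n → Ω} (ha : Function.Injective a)
    (hroot : ∀ y : Ω, (F b).eval₂ j y = 0 ↔ ∃ k, y = a k)
    {P : Module.End ℚ (YS a)} (hP : Sp P) (hg : Good P) (i : Ω →+* AlgebraicClosure ℚ_[p])
    {c : Ω} (hc0 : c ≠ 0) (hc : ∀ s ∈ GamP j R a P, s c = c) : ∃ n : ℤ, v (i c) = n := by
  refine C.crys.dval (i c) ?_ (fun δ hδ => ?_)
  · rw [Ne, map_eq_zero]
    exact hc0
  · obtain ⟨s, π, hs, _, _, hsG⟩ := C.inert b ha hroot hP hg i hδ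
    rw [hs, hc s hsG]

/-- PROOF. `Core.locp`, `even_lemma` (F8) with `C.crys` and `Core.inert`. -/
theorem Core.even (b : Fin m)
    {n : ℕ} {a : Fin n → Ω} (ha : Function.Injective a)
    (hroot : ∀ y : Ω, (F b).eval₂ j y = 0 ↔ ∃ k, y = a k)
    {bar : Equiv.Perm (Fin n)} (hbar : ∀ k, a k * a (bar k) = algebraMap ℚ Ω q)
    {P : Module.End ℚ (YS a)} (hP : Sp P) (hg : Good P) {t : Fin n → Ω} (ht : Lift P a t)
    {m₀ : Ω} (hm : ∀ k, t k * t (bar k) = m₀) (i : Ω →+* AlgebraicClosure ℚ_[p])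
    {ε : Fin n → ℚ} (hε : IsHT μ φ ((e b).map (i.comp j)) (fun k => i (a k)) ε)
    (hεP : FunP (1 - P) ε) : ∃ n : ℤ, v (i m₀) = 2 * n := by
  obtain ⟨H₀, U, V, hH₀, h⟩ := C.locp b ha hroot i
  have hcomp : Comp (Lc (ψ.map (algebraMap ℚ (AlgebraicClosure ℚ_[p])))
      (img (AlgebraicClosure ℚ_[p]) (ρ p) H₀) U V) P := hg _ _ _ h.ts h.yo
  obtain ⟨ξ, ξ', hξ, hξξ, hunr⟩ := C.crys.unr
  have hlinK : ∀ g : G, ∀ d ∈ D, (ρ p g).1.map (algebraMap ℚ_[p] (AlgebraicClosure ℚ_[p])) *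
      d.map (algebraMap ℚ (AlgebraicClosure ℚ_[p])) =
      d.map (algebraMap ℚ (AlgebraicClosure ℚ_[p])) *
        (ρ p g).1.map (algebraMap ℚ_[p] (AlgebraicClosure ℚ_[p])) := by
    intro g d hd
    have h1 := congrArg (fun m : Matrix ι ι ℚ_[p] =>
      m.map (algebraMap ℚ_[p] (AlgebraicClosure ℚ_[p]))) (C.lin p g d hd)
    have h2 : (d.map (algebraMap ℚ ℚ_[p])).map (algebraMap ℚ_[p] (AlgebraicClosure ℚ_[p])) =
        d.map (algebraMap ℚ (AlgebraicClosure ℚ_[p])) := by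
      ext k l
      simp
    simp only [Matrix.map_mul] at h1
    rw [h2] at h1
    exact h1
  have heK : (e b).map (i.comp j) ∈ spanK (AlgebraicClosure ℚ_[p]) D :=
    H76U.spanK_map (i.comp j) (C.hspl.mem b)
  have hρe : ∀ g : G, (ρ p g).1.map (algebraMap ℚ_[p] (AlgebraicClosure ℚ_[p])) *
      (e b).map (i.comp j) = (e b).map (i.comp j) *
        (ρ p g).1.map (algebraMap ℚ_[p] (AlgebraicClosure ℚ_[p])) :=
    fun g => H76RM.comm_span (hlinK g) _ heK
  have hed : ∀ δ ∈ Δ, ((e b).map (i.comp j)).map δ = (e b).map (i.comp j) := by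
    intro δ hδ
    ext k l
    simp only [Matrix.map_apply]
    exact C.crys.dM δ hδ (i.comp j) _
  have hai : ∀ k, (F b).eval₂ j (a k) = 0 := fun k => (hroot (a k)).mpr ⟨k, rfl⟩
  refine even_lemma (ρ p) (σ₀ := σ) h C.crys.phigen C.crys.val (C.crys.eint (i.comp j) b) C.crys.mu
    C.crys.muphi hε hP hcomp hεP hρe hξ hξξ (hunr H₀ hH₀) C.crys.int C.crys.dfix C.crys.dphi
    (fun δ _ => g5_mapQ δ ψ) hed C.crys.dval ?_ ?_ ht ?_ hm
  · intro δ hδ
    obtain ⟨s, π, hs, hπ, hst, _⟩ := C.inert b ha hroot hP hg i hδ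
    exact ⟨s, π, hs, hπ, hst⟩
  · intro k l N' hN' hkl
    exact ha (C.tor b (hai k) (hai l) hN' hkl)
  · intro k
    rw [← map_mul, hbar k]
    exact (map_ratCast i q).trans (map_ratCast (algebraMap ℚ (AlgebraicClosure ℚ_[p])) q).symm

end Pool.Agent.H76Q
end

-- from Lib.H76Q.G6
section

/-!
# the Hodge-Tate type at a block
-/

set_option autoImplicit false
set_option linter.unusedSectionVars false
namespace Pool.Agent.H76Q
open Module Matrix Polynomial Pool.Agent.H53Toric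
open Pool.Agent.H76P
open Pool.Agent.H76T (IsIdeal Fam Lc)
open Pool.Agent.H76V (Cmp)
open Pool.Agent.H76U (cmp preL IsSplitting)
open Pool.Agent.H76RM (spanK similD)

section
variable {K : Type*} [Field K] {v : K → ℚ}

theorem g6_v1 (hv : IsVal v) : v 1 = 0 := by
  have h := hv.mul 1 1 one_ne_zero one_ne_zero
  rw [mul_one] at h
  linarith

theorem g6_vprod (hv : IsVal v) {Ω : Type*} [Field Ω] (i : Ω →+* K) (s : Finset Ω)
    (hs : ∀ r ∈ s, r ≠ 0) : v (i (∏ r ∈ s, r)) = ∑ r ∈ s, v (i r) := by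
  classical
  induction s using Finset.induction_on with
  | empty => simp [g6_v1 hv]
  | insert a s ha ih =>
    have h1 : ∀ r ∈ s, r ≠ 0 := fun r hr => hs r (Finset.mem_insert_of_mem hr)
    have ha0 : a ≠ 0 := hs a (Finset.mem_insert_self a s)
    have h2 : (∏ r ∈ s, r) ≠ 0 := Finset.prod_ne_zero_iff.2 h1
    rw [Finset.prod_insert ha, Finset.sum_insert ha, map_mul,
      hv.mul _ _ ((map_ne_zero i).2 ha0) ((map_ne_zero i).2 h2), ih h1]

theorem g6_vsq (hv : IsVal v) {x : K} (hx : x ≠ 0) : v (x ^ 2) = 2 * v x := by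
  rw [pow_two, hv.mul x x hx hx]
  ring

end

variable {ι : Type*} [Fintype ι] [DecidableEq ι] {ψ : Matrix ι ι ℚ}
    {D : Subalgebra ℚ (Matrix ι ι ℚ)} {M : Type*} [Field M] [NumberField M]
    {m : ℕ} {e : Fin m → Matrix ι ι M} {G : Type*} [Group G]
    {ρ : ∀ (l : ℕ) [Fact l.Prime], G →* Matrix.GeneralLinearGroup ι ℚ_[l]}
    {p : ℕ} [Fact p.Prime] {σ : G} {q : ℚ} {f : ℚ[X]} {F : Fin m → M[X]}
    {φ μ ν : Matrix ι ι (AlgebraicClosure ℚ_[p])} {v : AlgebraicClosure ℚ_[p] → ℚ}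
    {Δ : Set (AlgebraicClosure ℚ_[p] ≃+* AlgebraicClosure ℚ_[p])}
    {Ω : Type*} [Field Ω] [CharZero Ω] [IsAlgClosed Ω] [Algebra.IsAlgebraic ℚ Ω] {j : M →+* Ω}
    {R : Finset Ω} {N : Set ℕ} (C : Core ψ D e ρ p σ q f F φ μ ν v Δ j R N)

include C

/-- PROOF. Section 6 (c) of PROOF.md.  Let `t`, `t'` be lifts for `P`, `1 - P` (`exists_lift`, D1, with `Core.ld`; for `1 - P` exchange `u` and `r`; `Good (1 - P)` by `Comp.compl`), `m₀`, `m₁` the numbers of
`Lift.exists_m`, `m₀ * m₁ = x ^ 2 * q` (`Lift.exists_x`).  `RP = R'` of `Core.recl` for `P`, `m₀ = ∏ r * c ^ 2`, `c ≠ 0`, so `v (i m₀) = (1 if the r with v (i r) = 1 is in R', else 0) + 2 v (i c)`, `v (i c)` an integer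
(`Core.int_val`).  If `FunP (1 - P) ε` then `v (i m₀)` is even (`Core.even`).  If `FunP P ε`, i.e. `FunP (1 - (1 - P)) ε`, then `v (i m₁)` is even, `v (i x)` an integer (`gam_compl`), `v q = 1`, so `v (i m₀)` is odd.  One
of the two cases holds (`HT_or`, F3), and not both (`FunP_both`, `HT_spec`). -/
theorem Core.ht_iff (b : Fin m)
    {n : ℕ} {a : Fin n → Ω} (ha : Function.Injective a)
    (hroot : ∀ y : Ω, (F b).eval₂ j y = 0 ↔ ∃ k, y = a k)
    {P : Module.End ℚ (YS a)} (hP : Sp P) (hg : Good P) :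
    ∃ RP ⊆ R, ∀ (i : Ω →+* AlgebraicClosure ℚ_[p]) (ε : Fin n → ℚ),
      IsHT μ φ ((e b).map (i.comp j)) (fun k => i (a k)) ε →
        (FunP P ε ↔ ∃ r ∈ RP, v (i r) = 1) := by
  classical
  have hv : IsVal v := C.crys.val
  obtain ⟨bar, hbar⟩ := C.bar b ha hroot
  have i₀ : Ω →+* AlgebraicClosure ℚ_[p] :=
    (IsAlgClosed.lift (R := ℚ) (S := Ω) (M := AlgebraicClosure ℚ_[p])).toRingHom
  obtain ⟨H₀, U₀, V₀, hH₀, hl₀⟩ := C.locp b ha hroot i₀
  haveI : Nonempty (Fin n) := ⟨⟨0, hl₀.pos⟩⟩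
  have ha0 : ∀ k, a k ≠ 0 := fun k h0 => hl₀.ec.ne k (by rw [h0, map_zero])
  have hsep : ∀ x y : Fin n, x ≠ y → ∃ f ∈ YS a, f x ≠ f y := by
    intro x y hxy
    obtain ⟨f, hf, hne⟩ := hl₀.ts.sep x y hxy
    exact ⟨f, hl₀.yo ▸ hf, hne⟩
  have hg' : Good (1 - P) := fun K _ _ _ L J h1 h2 => (hg K L J h1 h2).compl
  obtain ⟨u, r, l, hld, hu⟩ := C.ld b ha hroot hbar hP hg i₀
  obtain ⟨u', r', l', hld', hu'⟩ := C.ld b ha hroot hbar hP.compl hg' i₀
  obtain ⟨t, ht⟩ := exists_lift ha ha0 hP hsep hld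
  obtain ⟨t', ht'⟩ := exists_lift ha ha0 hP.compl hsep hld'
  obtain ⟨m₀, hm0, hm, -⟩ := ht.exists_m ha ha0 hP hbar hld hu
  obtain ⟨m₁, hm10, hm1, -⟩ := ht'.exists_m ha ha0 hP.compl hbar hld' hu'
  obtain ⟨x, hx0, hxs, hx⟩ := ht.exists_x ht' ha0 hP hbar hld
  have hxm : m₀ * m₁ = x ^ 2 * algebraMap ℚ Ω q := hx m₀ m₁ hm hm1
  obtain ⟨R', hR', c, hc, hmc⟩ := C.recl b ha hroot hbar hP hg ht hm
  have hc0 : c ≠ 0 := by
    rintro rfl
    apply hm0
    rw [hmc]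
    ring
  have hprod0 : (∏ r ∈ R', r) ≠ 0 := by
    intro h0
    apply hm0
    rw [hmc, h0, zero_mul]
  have hR0 : ∀ r ∈ R', r ≠ 0 := Finset.prod_ne_zero_iff.1 hprod0
  refine ⟨R', hR', fun i ε hε => ?_⟩
  obtain ⟨H₁, U, V, hH₁, hl⟩ := C.locp b ha hroot i
  have hcomp : Comp (Lc _ _ U V) P := hg _ _ _ hl.ts hl.yo
  obtain ⟨r₀, hr₀, hr1, hr2⟩ := C.Rval i
  obtain ⟨n₁, hn₁⟩ := C.int_val b ha hroot hP hg i hc0 hc
  -- the value of `i m₀`
  have hvm : v (i m₀) = ∑ r ∈ R', v (i r) + 2 * v (i c) := by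
    rw [hmc, map_mul, map_pow, hv.mul _ _ ((map_ne_zero i).2 hprod0)
      (pow_ne_zero 2 ((map_ne_zero i).2 hc0)), g6_vprod hv i R' hR0,
      g6_vsq hv ((map_ne_zero i).2 hc0)]
  have hsum1 : r₀ ∈ R' → ∑ r ∈ R', v (i r) = 1 := by
    intro hmem
    rw [Finset.sum_eq_single_of_mem r₀ hmem, hr1]
    intro r hr hne
    exact hr2 r (hR' hr) hne
  have hsum0 : r₀ ∉ R' → ∑ r ∈ R', v (i r) = 0 := by
    intro hmem
    refine Finset.sum_eq_zero fun r hr => hr2 r (hR' hr) ?_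
    rintro rfl
    exact hmem hr
  have hex : (∃ r ∈ R', v (i r) = 1) ↔ r₀ ∈ R' := by
    constructor
    · rintro ⟨r, hr, hr'⟩
      by_contra hcon
      have hne : r ≠ r₀ := by
        rintro rfl
        exact hcon hr
      rw [hr2 r (hR' hr) hne] at hr'
      exact zero_ne_one hr'
    · intro h
      exact ⟨r₀, h, hr1⟩
  -- first case
  have hcase1 : FunP (1 - P) ε → r₀ ∉ R' := by
    intro hε1 hmem
    obtain ⟨n₂, hn₂⟩ := C.even b ha hroot hbar hP hg ht hm i hε hε1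
    rw [hvm, hsum1 hmem, hn₁] at hn₂
    have h3 : (1 : ℤ) + 2 * n₁ = 2 * n₂ := by exact_mod_cast hn₂
    omega
  -- second case
  have hcase2 : FunP P ε → r₀ ∈ R' := by
    intro hε1
    by_contra hmem
    have hε2 : FunP (1 - (1 - P)) ε := by
      have h1 : (1 - (1 - P) : Module.End ℚ (YS a)) = P := sub_sub_cancel 1 P
      rw [h1]
      exact hε1
    obtain ⟨n₂, hn₂⟩ := C.even b ha hroot hbar hP.compl hg' ht' hm1 i hε hε2
    have hxG : ∀ s ∈ GamP j R a P, s x = x := by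
      rintro s ⟨-, -, π, hπ, hst⟩
      exact hxs s π hπ hst
    obtain ⟨n₃, hn₃⟩ := C.int_val b ha hroot hP hg i hx0 hxG
    have hq0 : algebraMap ℚ Ω q ≠ 0 := by
      intro h0
      rw [h0, mul_zero] at hxm
      exact mul_ne_zero hm0 hm10 hxm
    have hiq : i (algebraMap ℚ Ω q) = algebraMap ℚ (AlgebraicClosure ℚ_[p]) q := by
      rw [← RingHom.comp_apply]
      exact congrArg (fun g : ℚ →+* AlgebraicClosure ℚ_[p] => g q) (Subsingleton.elim _ _)
    have h4 : v (i m₀) + v (i m₁) = 2 * v (i x) + 1 := by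
      rw [← hv.mul _ _ ((map_ne_zero i).2 hm0) ((map_ne_zero i).2 hm10), ← map_mul, hxm, map_mul,
        map_pow, hv.mul _ _ (pow_ne_zero 2 ((map_ne_zero i).2 hx0)) ((map_ne_zero i).2 hq0),
        g6_vsq hv ((map_ne_zero i).2 hx0), hiq, C.vq]
    rw [hvm, hsum0 hmem, hn₁, hn₂, hn₃] at h4
    have h5 : (0 : ℤ) + 2 * n₁ + 2 * n₂ = 2 * n₃ + 1 := by exact_mod_cast h4
    omega
  rw [hex]
  constructor
  · exact hcase2
  · intro hmem
    rcases HT_or hl C.crys.mu C.crys.muphi hε hcomp with h | h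
    · exact h
    · exact absurd hmem (hcase1 h)

end Pool.Agent.H76Q
end

-- from Lib.H76Q.G9
section

/-!
# the numbers of blocks
-/

set_option autoImplicit false
set_option linter.unusedSectionVars false
namespace Pool.Agent.H76Q
open Module Matrix Polynomial Pool.Agent.H53Toric
open Pool.Agent.H76P
open Pool.Agent.H76T (IsIdeal Fam Lc)
open Pool.Agent.H76V (Cmp)
open Pool.Agent.H76U (cmp preL IsSplitting)
open Pool.Agent.H76RM (spanK similD)

variable {ι : Type*} [Fintype ι] [DecidableEq ι] {ψ : Matrix ι ι ℚ}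
    {D : Subalgebra ℚ (Matrix ι ι ℚ)} {M : Type*} [Field M] [NumberField M]
    {m : ℕ} {e : Fin m → Matrix ι ι M} {G : Type*} [Group G]
    {ρ : ∀ (l : ℕ) [Fact l.Prime], G →* Matrix.GeneralLinearGroup ι ℚ_[l]}
    {p : ℕ} [Fact p.Prime] {σ : G} {q : ℚ} {f : ℚ[X]} {F : Fin m → M[X]}
    {φ μ ν : Matrix ι ι (AlgebraicClosure ℚ_[p])} {v : AlgebraicClosure ℚ_[p] → ℚ}
    {Δ : Set (AlgebraicClosure ℚ_[p] ≃+* AlgebraicClosure ℚ_[p])}
    {Ω : Type*} [Field Ω] [CharZero Ω] [IsAlgClosed Ω] [Algebra.IsAlgebraic ℚ Ω] {j : M →+* Ω}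
    {R : Finset Ω} {N : Set ℕ} (C : Core ψ D e ρ p σ q f F φ μ ν v Δ j R N)

include C

omit C in
theorem g9_exists_i (p : ℕ) [Fact p.Prime] (Ω : Type*) [Field Ω] [CharZero Ω] [IsAlgClosed Ω]
    [Algebra.IsAlgebraic ℚ Ω] : Nonempty (Ω →+* AlgebraicClosure ℚ_[p]) := by
  exact ⟨(IsAlgClosed.lift (R := ℚ) (S := Ω) (M := AlgebraicClosure ℚ_[p])).toRingHom⟩

theorem Core.g9_i (b : Fin m) {r : Ω} (hr : r ∈ R) :
    ∃ i : Ω →+* AlgebraicClosure ℚ_[p], v (i r) = 1 := by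
  obtain ⟨i₀⟩ := g9_exists_i p Ω
  obtain ⟨r₀, hr₀, h1, -⟩ := C.Rval i₀
  obtain ⟨s, hs, -⟩ := C.trans b r hr r₀ hr₀
  refine ⟨i₀.comp s.toRingHom, ?_⟩
  show v (i₀ (s r)) = 1
  rw [hs, h1]

theorem Core.g9_uniq {r r' : Ω} (hr : r ∈ R) (hr' : r' ∈ R)
    (i : Ω →+* AlgebraicClosure ℚ_[p]) (h : v (i r) = 1) (h' : v (i r') = 1) : r = r' := by
  obtain ⟨r₁, -, -, h2⟩ := C.Rval i
  have h3 : ∀ x ∈ R, v (i x) = 1 → x = r₁ := by
    intro x hx hv
    by_contra hne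
    rw [h2 x hx hne] at hv
    exact zero_ne_one hv
  rw [h3 r hr h, h3 r' hr' h']

theorem Core.g9_HT (b : Fin m) {n : ℕ} {a : Fin n → Ω} (ha : Function.Injective a)
    (hroot : ∀ y : Ω, (F b).eval₂ j y = 0 ↔ ∃ k, y = a k) (i : Ω →+* AlgebraicClosure ℚ_[p]) :
    0 < n ∧ ∃ ε : Fin n → ℚ, IsHT μ φ ((e b).map (i.comp j)) (fun k => i (a k)) ε ∧
      ε ∈ YS a ∧ (∀ k, ε k = 1 ∨ ε k = -1) ∧
      ∀ P : Module.End ℚ (YS a), Good P → FunP P ε ∨ FunP (1 - P) ε := by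
  obtain ⟨H₀, U, V, -, hloc⟩ := C.locp b ha hroot i
  obtain ⟨ε, hε⟩ := exists_HT hloc C.crys.mu C.crys.muphi
  obtain ⟨-, h2, h3⟩ := HT_spec hloc C.crys.mu C.crys.muphi hε
  refine ⟨hloc.pos, ε, hε, h2, h3, fun P hP => ?_⟩
  exact HT_or hloc C.crys.mu C.crys.muphi hε
    (hP (AlgebraicClosure ℚ_[p]) _ _ hloc.ts hloc.yo)

/-- PROOF. Section 6 (f).  `RP P` = the set of `Core.ht_iff`, intersected with `R`.  `disj`: let `r ∈ RP P`, `r ∈ RP P'`; there is `i` with `v (i r) = 1` (`C.Rval` for any `i₀`: `v (i₀ r₀) = 1`; `s r = r₀` (`C.trans`), `i = i₀ ∘ s`); let `ε` be as in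
`exists_HT`; then `FunP P ε`, `FunP P' ε`; `P * P' = 0` gives `ε = P ε = P P' ε = 0` (`FunP_iff`).  `cover`: `ε = ∑ P ε`, so `P ε ≠ 0` for some `P ∈ FF`, so `FunP P ε` (`HT_or`).  `nonempty`: `Core.onto`.  `mv`: `r ∈ RP P`, `r' ∈ RP P'`; `s r = r'` as in
`C.trans`, `π` as in `Core.linked`; by `hperm` there is `P'' ∈ FF` with `MvP π P P''`.  For each `r₁ ∈ RP P`: `i` with `v (i r₁) = 1`, `ε`; `FunP P ε`; `i' = i ∘ s⁻¹` has `v (i' (s r₁)) = 1` and the type `ε ∘ π⁻¹`, which satisfies `FunP P''`, so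
`s r₁ ∈ RP P''`.  For `r₁ = r` we get `P'' = P'` (`disj`). -/
theorem Core.types (b : Fin m)
    {n : ℕ} {a : Fin n → Ω} (ha : Function.Injective a)
    (hroot : ∀ y : Ω, (F b).eval₂ j y = 0 ↔ ∃ k, y = a k)
    {FF : Finset (Module.End ℚ (YS a))} (hFF : ∀ P ∈ FF, Sp P ∧ P ≠ 0 ∧ Good P)
    (horth : ∀ P ∈ FF, ∀ P' ∈ FF, P ≠ P' → P * P' = 0) (hsum : ∑ P ∈ FF, P = 1)
    (hperm : ∀ π : Equiv.Perm (Fin n), (∀ g ∈ YS a, g ∘ π ∈ YS a) → ∀ P ∈ FF,
      ∃ P' ∈ FF, MvP π P P') :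
    ∃ RP : Module.End ℚ (YS a) → Finset Ω, (∀ P ∈ FF, RP P ⊆ R ∧ (RP P).Nonempty) ∧
      (∀ r ∈ R, ∃ P ∈ FF, r ∈ RP P) ∧
      (∀ P ∈ FF, ∀ P' ∈ FF, ∀ r, r ∈ RP P → r ∈ RP P' → P = P') ∧
      ∀ P ∈ FF, ∀ P' ∈ FF, ∃ π : Equiv.Perm (Fin n), (∀ g ∈ YS a, g ∘ π ∈ YS a) ∧
        MvP π P P' ∧ (RP P).card ≤ (RP P').card := by
  classical
  have hSum : ∀ g ∈ YS a, ∑ k, g k = 0 := fun g hg => hg.1
  have h1 : ∀ P : Module.End ℚ (YS a), ∃ RP : Finset Ω, P ∈ FF → (RP ⊆ R ∧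
      ∀ (i : Ω →+* AlgebraicClosure ℚ_[p]) (ε : Fin n → ℚ),
        IsHT μ φ ((e b).map (i.comp j)) (fun k => i (a k)) ε →
          (FunP P ε ↔ ∃ r ∈ RP, v (i r) = 1)) := by
    intro P
    by_cases hP : P ∈ FF
    · obtain ⟨RP, h2, h3⟩ := C.ht_iff b ha hroot (hFF P hP).1 (hFF P hP).2.2
      exact ⟨RP, fun _ => ⟨h2, h3⟩⟩
    · exact ⟨∅, fun h => absurd h hP⟩
  choose RP hRP using h1
  have hK : ∀ P ∈ FF, ∀ r ∈ R, ∀ (i : Ω →+* AlgebraicClosure ℚ_[p]) (ε : Fin n → ℚ),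
      v (i r) = 1 → IsHT μ φ ((e b).map (i.comp j)) (fun k => i (a k)) ε →
        (FunP P ε ↔ r ∈ RP P) := by
    intro P hP r hr i ε hv hε
    rw [(hRP P hP).2 i ε hε]
    constructor
    · rintro ⟨r', hr', hv'⟩
      rw [C.g9_uniq hr ((hRP P hP).1 hr') i hv hv']
      exact hr'
    · intro h
      exact ⟨r, h, hv⟩
  have hdisj : ∀ P ∈ FF, ∀ P' ∈ FF, ∀ r, r ∈ RP P → r ∈ RP P' → P = P' := by
    intro P hP P' hP' r hr hr'
    by_contra hne
    have hrR := (hRP P hP).1 hr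
    obtain ⟨i, hi⟩ := C.g9_i b hrR
    obtain ⟨hn, ε, hε, hεY, hε1, -⟩ := C.g9_HT b ha hroot i
    haveI : Nonempty (Fin n) := ⟨⟨0, hn⟩⟩
    have h2 := (hK P hP r hrR i ε hi hε).2 hr
    have h3 := (hK P' hP' r hrR i ε hi hε).2 hr'
    have h4 : P ⟨ε, hεY⟩ = ⟨ε, hεY⟩ := (FunP_iff (hFF P hP).1 hSum ⟨ε, hεY⟩).1 h2
    have h5 : P' ⟨ε, hεY⟩ = ⟨ε, hεY⟩ := (FunP_iff (hFF P' hP').1 hSum ⟨ε, hεY⟩).1 h3
    have h6 : (P * P') ⟨ε, hεY⟩ = ⟨ε, hεY⟩ := by
      show P (P' ⟨ε, hεY⟩) = ⟨ε, hεY⟩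
      rw [h5, h4]
    rw [horth P hP P' hP' hne] at h6
    have h7 : (0 : Fin n → ℚ) = ε := congrArg Subtype.val h6
    have h8 := congrFun h7 ⟨0, hn⟩
    rcases hε1 ⟨0, hn⟩ with h9 | h9 <;> rw [h9] at h8 <;> simp at h8
  have hnon : ∀ P ∈ FF, (RP P).Nonempty := by
    intro P hP
    obtain ⟨i, ε, h2, h3⟩ := C.onto b ha hroot (hFF P hP).1 (hFF P hP).2.2 (hFF P hP).2.1
    obtain ⟨r, hr, -⟩ := ((hRP P hP).2 i ε h2).1 h3
    exact ⟨r, hr⟩
  refine ⟨RP, fun P hP => ⟨(hRP P hP).1, hnon P hP⟩, ?_, hdisj, ?_⟩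
  · intro r hr
    obtain ⟨i, hi⟩ := C.g9_i b hr
    obtain ⟨hn, ε, hε, hεY, hε1, hor⟩ := C.g9_HT b ha hroot i
    haveI : Nonempty (Fin n) := ⟨⟨0, hn⟩⟩
    have h2 : ∃ P ∈ FF, P ⟨ε, hεY⟩ ≠ 0 := by
      by_contra hcon
      push Not at hcon
      have h3 : (∑ P ∈ FF, P) ⟨ε, hεY⟩ = 0 := by
        rw [LinearMap.sum_apply]
        exact Finset.sum_eq_zero hcon
      rw [hsum] at h3
      have h7 : ε = (0 : Fin n → ℚ) := congrArg Subtype.val h3
      have h8 := congrFun h7 ⟨0, hn⟩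
      rcases hε1 ⟨0, hn⟩ with h9 | h9 <;> rw [h9] at h8 <;> simp at h8
    obtain ⟨P, hP, hPε⟩ := h2
    refine ⟨P, hP, (hK P hP r hr i ε hi hε).1 ?_⟩
    rcases hor P (hFF P hP).2.2 with h3 | h3
    · exact h3
    · exfalso
      have h4 := (FunP_iff (hFF P hP).1.compl hSum ⟨ε, hεY⟩).1 h3
      apply hPε
      have h5 : (⟨ε, hεY⟩ : YS a) - P ⟨ε, hεY⟩ = ⟨ε, hεY⟩ := h4
      rwa [sub_eq_self] at h5
  · intro P hP P' hP'
    obtain ⟨r, hr⟩ := hnon P hP
    obtain ⟨r', hr'⟩ := hnon P' hP'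
    obtain ⟨s, hs, hlink⟩ := C.trans b r ((hRP P hP).1 hr) r' ((hRP P' hP').1 hr')
    obtain ⟨π, hπ, hπ2⟩ := C.linked b ha hroot hlink
    have hY : ∀ g ∈ YS a, g ∘ π ∈ YS a := fun g hg =>
      YS_perm (s := s.toRingHom) (fun k => (hπ k).symm) hg
    obtain ⟨P'', hP'', hmv⟩ := hperm π hY P hP
    have hcl : ∀ r₁ ∈ RP P, s r₁ ∈ RP P'' := by
      intro r₁ hr₁
      have hr₁R := (hRP P hP).1 hr₁
      obtain ⟨i, hi⟩ := C.g9_i b hr₁R
      obtain ⟨hn, ε, hε, hεY, hε1, hor⟩ := C.g9_HT b ha hroot i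
      have h2 := (hK P hP r₁ hr₁R i ε hi hε).2 hr₁
      have h3 := hπ2 i ε hε
      refine (hK P'' hP'' (s r₁) (C.Rstab s r₁ hr₁R) (i.comp s.symm.toRingHom) _ ?_ h3).1 ?_
      · show v (i (s.symm (s r₁))) = 1
        rw [s.symm_apply_apply, hi]
      · intro k k' hk
        apply h2
        rw [hmv.1, π.apply_symm_apply, π.apply_symm_apply]
        exact hk
    have h2 : P'' = P' := by
      refine hdisj P'' hP'' P' hP' r' ?_ hr'
      rw [← hs]
      exact hcl r hr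
    subst h2
    refine ⟨π, hY, hmv, ?_⟩
    exact Finset.card_le_card_of_injOn (fun x => s x) hcl (fun x _ y _ hxy => s.injective hxy)

end Pool.Agent.H76Q
end

-- from Lib.H76Q.G11
section

/-!
# the component theorem at p
-/

set_option autoImplicit false
set_option linter.unusedSectionVars false
namespace Pool.Agent.H76Q
open Module Matrix Polynomial Pool.Agent.H53Toric
open Pool.Agent.H76P
open Pool.Agent.H76T (IsIdeal Fam Lc)
open Pool.Agent.H76V (Cmp)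
open Pool.Agent.H76U (cmp preL IsSplitting)
open Pool.Agent.H76RM (spanK similD)

variable {ι : Type*} [Fintype ι] [DecidableEq ι] {ψ : Matrix ι ι ℚ}
    {D : Subalgebra ℚ (Matrix ι ι ℚ)} {M : Type*} [Field M] [NumberField M]
    {m : ℕ} {e : Fin m → Matrix ι ι M} {G : Type*} [Group G]
    {ρ : ∀ (l : ℕ) [Fact l.Prime], G →* Matrix.GeneralLinearGroup ι ℚ_[l]}
    {p : ℕ} [Fact p.Prime] {σ : G} {q : ℚ} {f : ℚ[X]} {F : Fin m → M[X]}
    {φ μ ν : Matrix ι ι (AlgebraicClosure ℚ_[p])} {v : AlgebraicClosure ℚ_[p] → ℚ}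
    {Δ : Set (AlgebraicClosure ℚ_[p] ≃+* AlgebraicClosure ℚ_[p])}
    {Ω : Type*} [Field Ω] [CharZero Ω] [IsAlgClosed Ω] [Algebra.IsAlgebraic ℚ Ω] {j : M →+* Ω}
    {R : Finset Ω} {N : Set ℕ} (C : Core ψ D e ρ p σ q f F φ μ ν v Δ j R N)

include C

/-- PROOF. `Core.enum`, `n = (e b).rank`; `exists_blocks` (G10) for `Y = YS a` (`hs` by definition, `hsep`: `YS_sep`, A3, with `Core.tor`), `Core.types` (G9), `count_blocks`: `n = a' ^ k`, `k = FF.card`, `k ∣ R.card`, so `k = 1` by `power` (`k ≠ 0`: otherwise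
`1 = ∑ P = 0`, `YS a = 0`, `n ≤ 1` by `hsep`; but `n` is even and `> 0`, because `Uᵀ J U` of `Core.locp` is alternating and invertible).  For any local data `L` is full. -/
theorem Core.comp (power : ∀ b (a k : ℕ), 2 ≤ k → k ∣ R.card → (e b).rank ≠ a ^ k)
    (two : ∀ b (k : ℕ), 4 ≤ k → (e b).rank ≠ 2 ^ k)
    (binom : ∀ b (k : ℕ), 3 ≤ k → Odd k → (e b).rank ≠ k.centralBinom) (b : Fin m) :
    ∃ a : Fin (e b).rank → Ω, Function.Injective a ∧
      (∀ y : Ω, (F b).eval₂ j y = 0 ↔ ∃ k, y = a k) ∧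
      ∀ (K : Type) [Field K] [CharZero K] [IsAlgClosed K]
        (L : Submodule K (Module.End K (Fin (e b).rank → K)))
        (J : Matrix (Fin (e b).rank) (Fin (e b).rank) K),
        TS L J → Yo L = YS a → ∀ X, adjE J X = -X → X ∈ L := by
  obtain ⟨a, ha, hroot⟩ := C.enum b
  refine ⟨a, ha, hroot, fun K _ _ _ L J hT hY X hX => ?_⟩
  rcases Nat.eq_zero_or_pos (e b).rank with hn | hn
  · have : IsEmpty (Fin (e b).rank) := by rw [hn]; infer_instance
    have h0 : X = 0 := LinearMap.ext fun z => Subsingleton.elim _ _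
    rw [h0]
    exact L.zero_mem
  have hq0 : q ≠ 0 := by
    obtain ⟨l, hl, hlp⟩ : ∃ l : ℕ, l.Prime ∧ l ≠ p := by
      obtain ⟨l, hl, hlp⟩ := Nat.exists_infinite_primes (p + 1)
      exact ⟨l, hlp, by omega⟩
    have : Fact l.Prime := ⟨hl⟩
    rintro rfl
    have h1 := congrArg Matrix.det (C.mult l hlp)
    rw [map_zero, zero_smul, Matrix.det_mul, Matrix.det_mul, Matrix.det_transpose] at h1
    have h2 : (ρ l σ).1.det ≠ 0 := by
      have h3 : IsUnit (ρ l σ).1.det := (Matrix.isUnit_iff_isUnit_det _).1 (ρ l σ).isUnit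
      exact h3.ne_zero
    have h4 : (ψ.map (algebraMap ℚ ℚ_[l])).det ≠ 0 := by
      have h5 : (ψ.map (algebraMap ℚ ℚ_[l])).det = algebraMap ℚ ℚ_[l] ψ.det := (RingHom.map_det _ _).symm
      rw [h5]
      exact (_root_.map_ne_zero _).2 C.hψ0
    have h6 : Nonempty ι := by
      by_contra hcon
      rw [not_nonempty_iff] at hcon
      have h7 := (e b).rank_le_card_width
      rw [Fintype.card_eq_zero] at h7
      omega
    rw [Matrix.det_zero] at h1
    exact mul_ne_zero (mul_ne_zero h2 h4) h2 h1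
  obtain ⟨bar, hbar⟩ := C.bar b ha hroot
  have ha0 : ∀ k, a k ≠ 0 := by
    intro k hk
    have h1 := hbar k
    rw [hk, zero_mul] at h1
    exact (_root_.map_ne_zero _).2 hq0 h1.symm
  have hsep : ∀ k l, k ≠ l → ∃ g ∈ YS a, g k ≠ g l :=
    YS_sep ha0 fun k l n hn h => ha (C.tor b ((hroot _).2 ⟨k, rfl⟩) ((hroot _).2 ⟨l, rfl⟩) hn h)
  have hs : ∀ g ∈ YS a, ∑ k, g k = 0 := fun g hg => hg.1
  obtain ⟨FF, hFF, horth, hsum, hperm, hone⟩ := exists_blocks hn hs hsep (two b) (binom b)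
  obtain ⟨RP, h1, h2, h3, h4⟩ := C.types b ha hroot hFF horth hsum hperm
  have : Nonempty (Fin (e b).rank) := ⟨⟨0, hn⟩⟩
  obtain ⟨a', hcard, hdvd⟩ := count_blocks hs hsep (fun P hP => ⟨(hFF P hP).1, (hFF P hP).2.1⟩) horth hsum
    h1 h2 h3 h4
  rw [Fintype.card_fin] at hcard
  have hF1 : FF.card = 1 := by
    rcases Nat.lt_or_ge FF.card 2 with h5 | h5
    · interval_cases h6 : FF.card
      · exfalso
        rw [pow_zero] at hcard
        -- one point: there is no symplectic form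
        have h7 : J.det = 0 := by
          have h8 : J.det = -J.det := by
            have h9 := congrArg Matrix.det hT.cmp.Jt
            rw [Matrix.det_transpose, Matrix.det_neg, Fintype.card_fin] at h9
            have h10 : ((-1 : K)) ^ (e b).rank = -1 := by rw [hcard, pow_one]
            rwa [h10, neg_one_mul] at h9
          exact self_eq_neg.1 h8
        have h8 := hT.cmp.Jd
        rw [h7] at h8
        exact not_isUnit_zero h8
      · rfl
    · exact absurd hcard (power b a' FF.card h5 hdvd)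
  exact hone hF1 K L J hT hY X hX

end Pool.Agent.H76Q
end

-- from Lib.H76Q.G12
section

/-!
# seeds at p
-/

set_option autoImplicit false
set_option linter.unusedSectionVars false
namespace Pool.Agent.H76Q
open Module Matrix Polynomial Pool.Agent.H53Toric
open Pool.Agent.H76P
open Pool.Agent.H76T (IsIdeal Fam Lc)
open Pool.Agent.H76V (Cmp)
open Pool.Agent.H76U (cmp preL IsSplitting)
open Pool.Agent.H76RM (spanK similD)

variable {ι : Type*} [Fintype ι] [DecidableEq ι] {ψ : Matrix ι ι ℚ}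
    {D : Subalgebra ℚ (Matrix ι ι ℚ)} {M : Type*} [Field M] [NumberField M]
    {m : ℕ} {e : Fin m → Matrix ι ι M} {G : Type*} [Group G]
    {ρ : ∀ (l : ℕ) [Fact l.Prime], G →* Matrix.GeneralLinearGroup ι ℚ_[l]}
    {p : ℕ} [Fact p.Prime] {σ : G} {q : ℚ} {f : ℚ[X]} {F : Fin m → M[X]}
    {φ μ ν : Matrix ι ι (AlgebraicClosure ℚ_[p])} {v : AlgebraicClosure ℚ_[p] → ℚ}
    {Δ : Set (AlgebraicClosure ℚ_[p] ≃+* AlgebraicClosure ℚ_[p])}
    {Ω : Type*} [Field Ω] [CharZero Ω] [IsAlgClosed Ω] [Algebra.IsAlgebraic ℚ Ω] {j : M →+* Ω}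
    {R : Finset Ω} {N : Set ℕ} (C : Core ψ D e ρ p σ q f F φ μ ν v Δ j R N)

include C

omit C in
theorem g12_ext {M Ω K : Type*} [Field M] [NumberField M] [Field Ω] [CharZero Ω]
    [Algebra.IsAlgebraic ℚ Ω] [Field K] [IsAlgClosed K] (j : M →+* Ω) (i₀ : M →+* K) :
    ∃ i : Ω →+* K, i.comp j = i₀ := by
  letI : Algebra M Ω := j.toAlgebra
  letI : Algebra M K := i₀.toAlgebra
  haveI : IsScalarTower ℚ M Ω := IsScalarTower.of_algebraMap_eq' (Subsingleton.elim _ _)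
  haveI : Algebra.IsAlgebraic M Ω := Algebra.IsAlgebraic.tower_top (K := ℚ) M
  refine ⟨(IsAlgClosed.lift (R := M) (S := Ω) (M := K)).toRingHom, ?_⟩
  ext x
  exact (IsAlgClosed.lift (R := M) (S := Ω) (M := K)).commutes x


end Pool.Agent.H76Q
end

-- from Lib.H76Q.W9
section

/-!
# the numbers of blocks
-/

set_option autoImplicit false
set_option linter.unusedSectionVars false
namespace Pool.Agent.H76Q
open Module Matrix Polynomial Pool.Agent.H53Toric
open Pool.Agent.H76P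
open Pool.Agent.H76T (IsIdeal Fam Lc)
open Pool.Agent.H76V (Cmp)
open Pool.Agent.H76U (cmp preL IsSplitting)
open Pool.Agent.H76RM (spanK similD)

variable {ι : Type*} [Fintype ι] [DecidableEq ι] {ψ : Matrix ι ι ℚ}
    {D : Subalgebra ℚ (Matrix ι ι ℚ)} {M : Type*} [Field M] [NumberField M]
    {m : ℕ} {e : Fin m → Matrix ι ι M} {G : Type*} [Group G]
    {ρ : ∀ (l : ℕ) [Fact l.Prime], G →* Matrix.GeneralLinearGroup ι ℚ_[l]}
    {p : ℕ} [Fact p.Prime] {σ : G} {q : ℚ} {f : ℚ[X]} {F : Fin m → M[X]}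
    {φ μ ν : Matrix ι ι (AlgebraicClosure ℚ_[p])} {v : AlgebraicClosure ℚ_[p] → ℚ}
    {Δ : Set (AlgebraicClosure ℚ_[p] ≃+* AlgebraicClosure ℚ_[p])}
    {Ω : Type*} [Field Ω] [CharZero Ω] [IsAlgClosed Ω] [Algebra.IsAlgebraic ℚ Ω] {j : M →+* Ω}
    {R : Finset Ω} {N : Set ℕ} (C : Core2 ψ D e ρ p σ q f F φ μ ν v Δ j R N)

include C

omit C in
theorem w9_exists_i (p : ℕ) [Fact p.Prime] (Ω : Type*) [Field Ω] [CharZero Ω] [IsAlgClosed Ω]
    [Algebra.IsAlgebraic ℚ Ω] : Nonempty (Ω →+* AlgebraicClosure ℚ_[p]) := by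
  exact ⟨(IsAlgClosed.lift (R := ℚ) (S := Ω) (M := AlgebraicClosure ℚ_[p])).toRingHom⟩

theorem Core2.w9_i (b : Fin m) {r : Ω} (hr : r ∈ R) :
    ∃ i : Ω →+* AlgebraicClosure ℚ_[p], v (i r) = 1 := by
  obtain ⟨i₀⟩ := w9_exists_i p Ω
  obtain ⟨r₀, hr₀, h1, -⟩ := C.Rval i₀
  obtain ⟨s, hs⟩ := C.Rtrans r hr r₀ hr₀
  refine ⟨i₀.comp s.toRingHom, ?_⟩
  show v (i₀ (s r)) = 1
  rw [hs, h1]

theorem Core2.w9_uniq {r r' : Ω} (hr : r ∈ R) (hr' : r' ∈ R)
    (i : Ω →+* AlgebraicClosure ℚ_[p]) (h : v (i r) = 1) (h' : v (i r') = 1) : r = r' := by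
  obtain ⟨r₁, -, -, h2⟩ := C.Rval i
  have h3 : ∀ x ∈ R, v (i x) = 1 → x = r₁ := by
    intro x hx hv
    by_contra hne
    rw [h2 x hx hne] at hv
    exact zero_ne_one hv
  rw [h3 r hr h, h3 r' hr' h']

theorem Core2.w9_HT (b : Fin m) {n : ℕ} {a : Fin n → Ω} (ha : Function.Injective a)
    (hroot : ∀ y : Ω, (F b).eval₂ j y = 0 ↔ ∃ k, y = a k) (i : Ω →+* AlgebraicClosure ℚ_[p]) :
    0 < n ∧ ∃ ε : Fin n → ℚ, IsHT μ φ ((e b).map (i.comp j)) (fun k => i (a k)) ε ∧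
      ε ∈ YS a ∧ (∀ k, ε k = 1 ∨ ε k = -1) ∧
      ∀ P : Module.End ℚ (YS a), Good P → FunP P ε ∨ FunP (1 - P) ε := by
  obtain ⟨H₀, U, V, -, hloc⟩ := C.locp b ha hroot i
  obtain ⟨ε, hε⟩ := exists_HT hloc C.crys.mu C.crys.muphi
  obtain ⟨-, h2, h3⟩ := HT_spec hloc C.crys.mu C.crys.muphi hε
  refine ⟨hloc.pos, ε, hε, h2, h3, fun P hP => ?_⟩
  exact HT_or hloc C.crys.mu C.crys.muphi hε
    (hP (AlgebraicClosure ℚ_[p]) _ _ hloc.ts hloc.yo)

theorem Core2.types2 (b : Fin m)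
    {n : ℕ} {a : Fin n → Ω} (ha : Function.Injective a)
    (hroot : ∀ y : Ω, (F b).eval₂ j y = 0 ↔ ∃ k, y = a k)
    {FF : Finset (Module.End ℚ (YS a))} (hFF : ∀ P ∈ FF, Sp P ∧ P ≠ 0 ∧ Good P)
    (horth : ∀ P ∈ FF, ∀ P' ∈ FF, P ≠ P' → P * P' = 0) (hsum : ∑ P ∈ FF, P = 1)
    (hperm : ∀ π : Equiv.Perm (Fin n), (∀ g ∈ YS a, g ∘ π ∈ YS a) → ∀ P ∈ FF,
      ∃ P' ∈ FF, MvP π P P') :
    ∃ RP : Module.End ℚ (YS a) → Finset Ω, (∀ P ∈ FF, RP P ⊆ R ∧ (RP P).Nonempty) ∧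
      (∀ r ∈ R, ∃ P ∈ FF, r ∈ RP P) ∧
      (∀ P ∈ FF, ∀ P' ∈ FF, ∀ r, r ∈ RP P → r ∈ RP P' → P = P') ∧
      ∀ s : Ω ≃+* Ω, Linked D ((e b).map j) ((e b).map (s.toRingHom.comp j)) →
        ∃ π : Equiv.Perm (Fin n), (∀ k, s (a k) = a (π k)) ∧ (∀ g ∈ YS a, g ∘ π ∈ YS a) ∧
          ∀ P ∈ FF, ∃ P' ∈ FF, MvP π P P' ∧ ∀ r ∈ RP P, s r ∈ RP P' := by
  classical
  have hSum : ∀ g ∈ YS a, ∑ k, g k = 0 := fun g hg => hg.1
  have h1 : ∀ P : Module.End ℚ (YS a), ∃ RP : Finset Ω, P ∈ FF → (RP ⊆ R ∧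
      ∀ (i : Ω →+* AlgebraicClosure ℚ_[p]) (ε : Fin n → ℚ),
        IsHT μ φ ((e b).map (i.comp j)) (fun k => i (a k)) ε →
          (FunP P ε ↔ ∃ r ∈ RP, v (i r) = 1)) := by
    intro P
    by_cases hP : P ∈ FF
    · obtain ⟨RP, h2, h3⟩ := C.ht_iff b ha hroot (hFF P hP).1 (hFF P hP).2.2
      exact ⟨RP, fun _ => ⟨h2, h3⟩⟩
    · exact ⟨∅, fun h => absurd h hP⟩
  choose RP hRP using h1
  have hK : ∀ P ∈ FF, ∀ r ∈ R, ∀ (i : Ω →+* AlgebraicClosure ℚ_[p]) (ε : Fin n → ℚ),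
      v (i r) = 1 → IsHT μ φ ((e b).map (i.comp j)) (fun k => i (a k)) ε →
        (FunP P ε ↔ r ∈ RP P) := by
    intro P hP r hr i ε hv hε
    rw [(hRP P hP).2 i ε hε]
    constructor
    · rintro ⟨r', hr', hv'⟩
      rw [C.w9_uniq hr ((hRP P hP).1 hr') i hv hv']
      exact hr'
    · intro h
      exact ⟨r, h, hv⟩
  have hdisj : ∀ P ∈ FF, ∀ P' ∈ FF, ∀ r, r ∈ RP P → r ∈ RP P' → P = P' := by
    intro P hP P' hP' r hr hr'
    by_contra hne
    have hrR := (hRP P hP).1 hr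
    obtain ⟨i, hi⟩ := C.w9_i b hrR
    obtain ⟨hn, ε, hε, hεY, hε1, -⟩ := C.w9_HT b ha hroot i
    haveI : Nonempty (Fin n) := ⟨⟨0, hn⟩⟩
    have h2 := (hK P hP r hrR i ε hi hε).2 hr
    have h3 := (hK P' hP' r hrR i ε hi hε).2 hr'
    have h4 : P ⟨ε, hεY⟩ = ⟨ε, hεY⟩ := (FunP_iff (hFF P hP).1 hSum ⟨ε, hεY⟩).1 h2
    have h5 : P' ⟨ε, hεY⟩ = ⟨ε, hεY⟩ := (FunP_iff (hFF P' hP').1 hSum ⟨ε, hεY⟩).1 h3
    have h6 : (P * P') ⟨ε, hεY⟩ = ⟨ε, hεY⟩ := by
      show P (P' ⟨ε, hεY⟩) = ⟨ε, hεY⟩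
      rw [h5, h4]
    rw [horth P hP P' hP' hne] at h6
    have h7 : (0 : Fin n → ℚ) = ε := congrArg Subtype.val h6
    have h8 := congrFun h7 ⟨0, hn⟩
    rcases hε1 ⟨0, hn⟩ with h9 | h9 <;> rw [h9] at h8 <;> simp at h8
  have hnon : ∀ P ∈ FF, (RP P).Nonempty := by
    intro P hP
    obtain ⟨i, ε, h2, h3⟩ := C.onto b ha hroot (hFF P hP).1 (hFF P hP).2.2 (hFF P hP).2.1
    obtain ⟨r, hr, -⟩ := ((hRP P hP).2 i ε h2).1 h3
    exact ⟨r, hr⟩
  refine ⟨RP, fun P hP => ⟨(hRP P hP).1, hnon P hP⟩, ?_, hdisj, ?_⟩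
  · intro r hr
    obtain ⟨i, hi⟩ := C.w9_i b hr
    obtain ⟨hn, ε, hε, hεY, hε1, hor⟩ := C.w9_HT b ha hroot i
    haveI : Nonempty (Fin n) := ⟨⟨0, hn⟩⟩
    have h2 : ∃ P ∈ FF, P ⟨ε, hεY⟩ ≠ 0 := by
      by_contra hcon
      push Not at hcon
      have h3 : (∑ P ∈ FF, P) ⟨ε, hεY⟩ = 0 := by
        rw [LinearMap.sum_apply]
        exact Finset.sum_eq_zero hcon
      rw [hsum] at h3
      have h7 : ε = (0 : Fin n → ℚ) := congrArg Subtype.val h3
      have h8 := congrFun h7 ⟨0, hn⟩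
      rcases hε1 ⟨0, hn⟩ with h9 | h9 <;> rw [h9] at h8 <;> simp at h8
    obtain ⟨P, hP, hPε⟩ := h2
    refine ⟨P, hP, (hK P hP r hr i ε hi hε).1 ?_⟩
    rcases hor P (hFF P hP).2.2 with h3 | h3
    · exact h3
    · exfalso
      have h4 := (FunP_iff (hFF P hP).1.compl hSum ⟨ε, hεY⟩).1 h3
      apply hPε
      have h5 : (⟨ε, hεY⟩ : YS a) - P ⟨ε, hεY⟩ = ⟨ε, hεY⟩ := h4
      rwa [sub_eq_self] at h5
  · intro s hlink
    obtain ⟨π, hπ, hπ2⟩ := C.linked b ha hroot hlink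
    have hY : ∀ g ∈ YS a, g ∘ π ∈ YS a := fun g hg =>
      YS_perm (s := s.toRingHom) (fun k => (hπ k).symm) hg
    refine ⟨π, hπ, hY, fun P hP => ?_⟩
    obtain ⟨P'', hP'', hmv⟩ := hperm π hY P hP
    refine ⟨P'', hP'', hmv, ?_⟩
    intro r₁ hr₁
    have hr₁R := (hRP P hP).1 hr₁
    obtain ⟨i, hi⟩ := C.w9_i b hr₁R
    obtain ⟨hn, ε, hε, hεY, hε1, hor⟩ := C.w9_HT b ha hroot i
    have h2 := (hK P hP r₁ hr₁R i ε hi hε).2 hr₁
    have h3 := hπ2 i ε hε
    refine (hK P'' hP'' (s r₁) (C.Rstab s r₁ hr₁R) (i.comp s.symm.toRingHom) _ ?_ h3).1 ?_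
    · show v (i (s.symm (s r₁))) = 1
      rw [s.symm_apply_apply, hi]
    · intro k k' hk
      apply h2
      rw [hmv.1, π.apply_symm_apply, π.apply_symm_apply]
      exact hk

end Pool.Agent.H76Q
end

-- from Lib.H76Q.W13a
section

/-!
# the adjoint of an element of the algebra
-/

set_option autoImplicit false
set_option linter.unusedSectionVars false
namespace Pool.Agent.H76Q
open Module Matrix Polynomial TensorProduct Pool.Agent.H53Toric
open Pool.Agent.H76P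
open Pool.Agent.H76T (IsIdeal Fam Lc)
open Pool.Agent.H76V (Cmp)
open Pool.Agent.H76U (cmp preL IsSplitting)
open Pool.Agent.H76RM (spanK similD)

variable {ι : Type*} [Fintype ι] [DecidableEq ι] {ψ : Matrix ι ι ℚ}
    {D : Subalgebra ℚ (Matrix ι ι ℚ)} {M : Type*} [Field M] [NumberField M]
    {m : ℕ} {e : Fin m → Matrix ι ι M} {G : Type*} [Group G]
    {ρ : ∀ (l : ℕ) [Fact l.Prime], G →* Matrix.GeneralLinearGroup ι ℚ_[l]}
    {p : ℕ} [Fact p.Prime] {σ : G} {q : ℚ} {f : ℚ[X]} {F : Fin m → M[X]}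
    {φ μ ν : Matrix ι ι (AlgebraicClosure ℚ_[p])} {v : AlgebraicClosure ℚ_[p] → ℚ}
    {Δ : Set (AlgebraicClosure ℚ_[p] ≃+* AlgebraicClosure ℚ_[p])}
    {Ω : Type*} [Field Ω] [CharZero Ω] [IsAlgClosed Ω] [Algebra.IsAlgebraic ℚ Ω] {j : M →+* Ω}
    {R : Finset Ω} {N : Set ℕ} (C : Core2 ψ D e ρ p σ q f F φ μ ν v Δ j R N)

include C


/-- PROOF. `y' = J⁻¹ * yᵀ * J` with `J` = the image of `ψ` (`C.hψ0`: `J.det` is a unit).  It commutes with all elements `s` of `img K (ρ l) ⊤`: `sᵀ * J * s = c • J` (`C.sim`), `c ≠ 0`, and `y * s = s * y` (`C.lin`: elements of `spanK` are linear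
combinations of elements of `D`), so `y' * s = s * y'`: from `s y = y s` take the transpose, `yᵀ sᵀ = sᵀ yᵀ`, multiply by `J * s` on the right: `yᵀ (c • J) = sᵀ yᵀ J s`, and `sᵀ = c • J * s⁻¹ * J⁻¹`.  Then `C.commt l ⊤`. -/
theorem Core2.adj_mem (l : ℕ) [Fact l.Prime] {y : Matrix ι ι (AlgebraicClosure ℚ_[l])}
    (hy : y ∈ spanK (AlgebraicClosure ℚ_[l]) D) :
    ∃ y' ∈ spanK (AlgebraicClosure ℚ_[l]) D,
      yᵀ * ψ.map (algebraMap ℚ (AlgebraicClosure ℚ_[l])) =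
        ψ.map (algebraMap ℚ (AlgebraicClosure ℚ_[l])) * y' := by
  obtain ⟨-, hdet⟩ := gram_basic C.hψ C.hψ0 (AlgebraicClosure ℚ_[l])
  obtain ⟨J, hJ⟩ : ∃ J, J = ψ.map (algebraMap ℚ (AlgebraicClosure ℚ_[l])) := ⟨_, rfl⟩
  rw [← hJ] at hdet ⊢
  have h1 : J * (J⁻¹ * yᵀ * J) = yᵀ * J := by
    rw [← Matrix.mul_assoc, ← Matrix.mul_assoc, Matrix.mul_nonsing_inv _ hdet, Matrix.one_mul]
  refine ⟨J⁻¹ * yᵀ * J, ?_, h1.symm⟩
  refine C.commt l ⊤ inferInstance _ ?_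
  obtain ⟨y', hy'⟩ : ∃ y', y' = J⁻¹ * yᵀ * J := ⟨_, rfl⟩
  rw [← hy'] at h1 ⊢
  rintro s ⟨g, -, rfl⟩
  obtain ⟨s, hs⟩ : ∃ s, s = (ρ l g).1.map (algebraMap ℚ_[l] (AlgebraicClosure ℚ_[l])) := ⟨_, rfl⟩
  rw [← hs]
  have hlin : ∀ d ∈ D, s * d.map (algebraMap ℚ (AlgebraicClosure ℚ_[l])) =
      d.map (algebraMap ℚ (AlgebraicClosure ℚ_[l])) * s := by
    intro d hd
    have h2 := congrArg (fun m : Matrix ι ι ℚ_[l] =>
      m.map (algebraMap ℚ_[l] (AlgebraicClosure ℚ_[l]))) (C.lin l g d hd)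
    have h3 : (d.map (algebraMap ℚ ℚ_[l])).map (algebraMap ℚ_[l] (AlgebraicClosure ℚ_[l])) =
        d.map (algebraMap ℚ (AlgebraicClosure ℚ_[l])) := by
      ext i j
      simp
    simp only [Matrix.map_mul] at h2
    rw [h3, ← hs] at h2
    exact h2
  have hsy : s * y = y * s := H76RM.comm_span hlin y hy
  obtain ⟨c, hc⟩ := C.sim l g
  have hsim : sᵀ * J * s = algebraMap ℚ_[l] (AlgebraicClosure ℚ_[l]) c • J := by
    rw [hs, hJ]
    exact sim_map hc
  have hsu : IsUnit s := by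
    rw [hs]
    have h2 : IsUnit (ρ l g).1 := (ρ l g).isUnit
    exact h2.map (algebraMap ℚ_[l] (AlgebraicClosure ℚ_[l])).mapMatrix
  have hsd : IsUnit (sᵀ * J).det := by
    rw [Matrix.det_mul, Matrix.det_transpose]
    exact ((Matrix.isUnit_iff_isUnit_det _).1 hsu).mul hdet
  have h4 : (sᵀ * J) * (y' * s) = (sᵀ * J) * (s * y') := by
    calc (sᵀ * J) * (y' * s) = sᵀ * (J * y') * s := by simp only [Matrix.mul_assoc]
      _ = (y * s)ᵀ * J * s := by rw [h1, Matrix.transpose_mul]; simp only [Matrix.mul_assoc]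
      _ = yᵀ * (sᵀ * J * s) := by rw [← hsy, Matrix.transpose_mul]; simp only [Matrix.mul_assoc]
      _ = algebraMap ℚ_[l] (AlgebraicClosure ℚ_[l]) c • (yᵀ * J) := by rw [hsim, Matrix.mul_smul]
      _ = (sᵀ * J * s) * y' := by rw [hsim, Matrix.smul_mul, h1]
      _ = _ := by simp only [Matrix.mul_assoc]
  calc y' * s = ((sᵀ * J)⁻¹ * (sᵀ * J)) * (y' * s) := by
        rw [Matrix.nonsing_inv_mul _ hsd, Matrix.one_mul]
    _ = (sᵀ * J)⁻¹ * ((sᵀ * J) * (s * y')) := by rw [Matrix.mul_assoc, h4]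
    _ = s * y' := by rw [← Matrix.mul_assoc, Matrix.nonsing_inv_mul _ hsd, Matrix.one_mul]

/-- PROOF. `y'` as in `Core2.adj_mem` for `y = a'`.  `eᵀ * J = J * e`, `e'ᵀ * J = J * e'` (`C.hspl.adj` with `bar = id`, mapped by `i₁`, `i₂`), `a' = e * a' * e'`, so `J * y' = a'ᵀ * J = e'ᵀ * a'ᵀ * eᵀ * J = J * (e' * y' * e)`, `y' = e' * y' * e`, and
`a'ᵀ * J * a' = J * y' * a' = J * (e' * (y' * a') * e') = c • (J * e')` by `C.hspl.corner` for the family of `i₂` (the image of `hspl` under `i₂`; spanK is mapped to spanK, see `pr_of_linked` and file G8). -/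
theorem Core2.pr_form (l : ℕ) [Fact l.Prime] (b : Fin m) (i₁ i₂ : M →+* AlgebraicClosure ℚ_[l])
    {a' : Matrix ι ι (AlgebraicClosure ℚ_[l])} (ha' : a' ∈ spanK (AlgebraicClosure ℚ_[l]) D)
    (h3 : (e b).map i₁ * a' = a') (h4 : a' * (e b).map i₂ = a') :
    ∃ c : AlgebraicClosure ℚ_[l], a'ᵀ * ψ.map (algebraMap ℚ (AlgebraicClosure ℚ_[l])) * a' =
      c • (ψ.map (algebraMap ℚ (AlgebraicClosure ℚ_[l])) * (e b).map i₂) := by
  obtain ⟨-, hdet⟩ := gram_basic C.hψ C.hψ0 (AlgebraicClosure ℚ_[l])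
  obtain ⟨y', hy', h1⟩ := C.adj_mem l ha'
  have hs1 := C.hspl.map i₁
  have hs2 := C.hspl.map i₂
  have ha1 := hs1.adj b
  have ha2 := hs2.adj b
  simp only [id] at ha1 ha2
  obtain ⟨J, hJ⟩ : ∃ J, J = ψ.map (algebraMap ℚ (AlgebraicClosure ℚ_[l])) := ⟨_, rfl⟩
  rw [← hJ] at hdet h1 ha1 ha2 ⊢
  obtain ⟨E, hE⟩ : ∃ E, E = (e b).map i₁ := ⟨_, rfl⟩
  obtain ⟨E', hE'⟩ : ∃ E', E' = (e b).map i₂ := ⟨_, rfl⟩
  rw [← hE] at ha1 h3
  have hcor := hs2.corner b (y' * a') (H76U.spanK_mul hy' ha')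
  rw [← hE'] at ha2 h4 hcor ⊢
  obtain ⟨c, hc⟩ := hcor
  refine ⟨c, ?_⟩
  have h5 : J * y' = J * (E' * y') := by
    calc J * y' = a'ᵀ * J := h1.symm
      _ = (a' * E')ᵀ * J := by rw [h4]
      _ = E'ᵀ * (a'ᵀ * J) := by rw [Matrix.transpose_mul, Matrix.mul_assoc]
      _ = (E'ᵀ * J) * y' := by rw [h1, Matrix.mul_assoc]
      _ = _ := by rw [ha2, Matrix.mul_assoc]
  calc a'ᵀ * J * a' = J * (E' * y') * (a' * E') := by rw [h1, h5, h4]
    _ = J * (E' * (y' * a') * E') := by simp only [Matrix.mul_assoc]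
    _ = _ := by rw [hc, Matrix.mul_smul]

end Pool.Agent.H76Q
end

-- from Lib.H76Q.W13b
section

/-!
# no block is exchanged with its complement
-/

set_option autoImplicit false
set_option linter.unusedSectionVars false
namespace Pool.Agent.H76Q
open Module Matrix Polynomial TensorProduct Pool.Agent.H53Toric
open Pool.Agent.H76P
open Pool.Agent.H76T (IsIdeal Fam Lc)
open Pool.Agent.H76V (Cmp)
open Pool.Agent.H76U (cmp preL IsSplitting)
open Pool.Agent.H76RM (spanK similD)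

variable {ι : Type*} [Fintype ι] [DecidableEq ι] {ψ : Matrix ι ι ℚ}
    {D : Subalgebra ℚ (Matrix ι ι ℚ)} {M : Type*} [Field M] [NumberField M]
    {m : ℕ} {e : Fin m → Matrix ι ι M} {G : Type*} [Group G]
    {ρ : ∀ (l : ℕ) [Fact l.Prime], G →* Matrix.GeneralLinearGroup ι ℚ_[l]}
    {p : ℕ} [Fact p.Prime] {σ : G} {q : ℚ} {f : ℚ[X]} {F : Fin m → M[X]}
    {φ μ ν : Matrix ι ι (AlgebraicClosure ℚ_[p])} {v : AlgebraicClosure ℚ_[p] → ℚ}
    {Δ : Set (AlgebraicClosure ℚ_[p] ≃+* AlgebraicClosure ℚ_[p])}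
    {Ω : Type*} [Field Ω] [CharZero Ω] [IsAlgClosed Ω] [Algebra.IsAlgebraic ℚ Ω] {j : M →+* Ω}
    {R : Finset Ω} {N : Set ℕ} (C : Core2 ψ D e ρ p σ q f F φ μ ν v Δ j R N)

include C


/-- PROOF. `Loc` at `(l, i)` from `C.locl`; `τ = t.toRingEquiv`; `(e b).map (i.comp j)` is `e` of X8, its image under `τ` is `(e b).map (i.comp (s.toRingHom.comp j))` (`ht2`); `Pr.map i hpr` gives `a`, `a'`; they commute with `ρ_l` and with `zlie S` (`C.lin`, elements of `zlie` commute with what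
commutes with `S`: `zlie_commute`), `hja` is `C.pr_form`.  `x`, `J`, `S` are fixed by `τ` (`e6_fix`).  `exists_theta'` gives `θ` for `π` (`ht1`, `hπ`: `τ (i (a k)) = i (a (π k))`).  `no_swap` with `P = z`, `Y = YS a` (`hloc.ts`, `hloc.yo`, `hG` for `Comp`; note `n > 0`: `hloc.pos`) is the
contradiction. -/
theorem Core2.no_half (b : Fin m) {n : ℕ} {a : Fin n → Ω} (ha : Function.Injective a)
    (hroot : ∀ y : Ω, (F b).eval₂ j y = 0 ↔ ∃ k, y = a k) {z : Module.End ℚ (YS a)}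
    (hz : Sp z) (hG : ∀ (K : Type) [Field K] [CharZero K] [IsAlgClosed K]
      (L : Submodule K (Module.End K (Fin n → K))) (J : Matrix (Fin n) (Fin n) K),
      TS L J → Yo L = YS a → Comp L z) {s : Ω ≃+* Ω}
    (hpr : Pr D ((e b).map j) ((e b).map (s.toRingHom.comp j)))
    {π : Equiv.Perm (Fin n)} (hπ : ∀ k, s (a k) = a (π k)) (hmv : MvP π z (1 - z))
    (l : ℕ) [Fact l.Prime] (hl : l ≠ p) (i : Ω →+* AlgebraicClosure ℚ_[l])
    (t : AlgebraicClosure ℚ_[l] ≃ₐ[ℚ_[l]] AlgebraicClosure ℚ_[l])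
    (ht1 : ∀ k, t (i (a k)) = i (s (a k))) (ht2 : ∀ c : M, t (i (j c)) = i (s (j c))) : False := by
  classical
  have hSp := hz
  obtain ⟨H₀, U, V, hfin, hloc⟩ := C.locl b ha hroot l hl i
  have hne : Nonempty (Fin n) := ⟨⟨0, hloc.pos⟩⟩
  obtain ⟨a₁, ha₁, a', ha', h1, h2, h3, h4, h5, h6⟩ := hpr.map i
  have e1 : ((e b).map j).map i = (e b).map (i.comp j) := by
    ext x y
    rfl
  have e2 : ((e b).map (s.toRingHom.comp j)).map i = (e b).map (i.comp (s.toRingHom.comp j)) := by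
    ext x y
    rfl
  have e3 : (e b).map (i.comp (s.toRingHom.comp j)) = ((e b).map (i.comp j)).map t.toRingEquiv := by
    ext x y
    exact (ht2 _).symm
  rw [e1] at h2 h3 h6
  rw [e2] at h1 h4 h5
  obtain ⟨c, hc⟩ := C.pr_form l b (i.comp j) (i.comp (s.toRingHom.comp j)) ha' h3 h4
  rw [e3] at h1 h4 h5 hc
  have hlinS : ∀ y ∈ spanK (AlgebraicClosure ℚ_[l]) D, ∀ g : G,
      (ρ l g).1.map (algebraMap ℚ_[l] (AlgebraicClosure ℚ_[l])) * y =
        y * (ρ l g).1.map (algebraMap ℚ_[l] (AlgebraicClosure ℚ_[l])) := by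
    intro y hy g
    refine Submodule.span_induction (p := fun y _ => (ρ l g).1.map (algebraMap ℚ_[l] (AlgebraicClosure ℚ_[l])) * y =
        y * (ρ l g).1.map (algebraMap ℚ_[l] (AlgebraicClosure ℚ_[l]))) ?_ ?_ ?_ ?_ hy
    · rintro _ ⟨d, hd, rfl⟩
      have h7 := congrArg (fun m : Matrix ι ι ℚ_[l] => m.map (algebraMap ℚ_[l] (AlgebraicClosure ℚ_[l]))) (C.lin l g d hd)
      have h8 : (d.map (algebraMap ℚ ℚ_[l])).map (algebraMap ℚ_[l] (AlgebraicClosure ℚ_[l])) =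
          d.map (algebraMap ℚ (AlgebraicClosure ℚ_[l])) := by
        ext i j
        simp
      simp only [Matrix.map_mul] at h7
      rw [h8] at h7
      exact h7
    · rw [Matrix.mul_zero, Matrix.zero_mul]
    · intro y y' _ _ h7 h8
      rw [Matrix.mul_add, Matrix.add_mul, h7, h8]
    · intro c y _ h7
      rw [Matrix.mul_smul, Matrix.smul_mul, h7]
  have hz : ∀ y ∈ spanK (AlgebraicClosure ℚ_[l]) D, ∀ A ∈ zlie (img (AlgebraicClosure ℚ_[l]) (ρ l) H₀), y * A = A * y := by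
    intro y hy A hA
    refine (H76RM.zlie_commute (img_one (ρ l) H₀) ?_ hA).symm
    rintro _ ⟨g, -, rfl⟩
    exact hlinS y hy g
  obtain ⟨θ, hθ⟩ := exists_theta' hloc (τ := t.toRingEquiv) h1 h2 h3 h4 h5 h6 (hlinS a' ha' σ) (hz a₁ ha₁) (hz a' ha') hc
    (e6_fix t _) (by
      ext x y
      show t (algebraMap ℚ (AlgebraicClosure ℚ_[l]) (ψ x y)) = algebraMap ℚ (AlgebraicClosure ℚ_[l]) (ψ x y)
      rw [IsScalarTower.algebraMap_apply ℚ ℚ_[l] (AlgebraicClosure ℚ_[l]), t.commutes]) (fun x hx => by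
      obtain ⟨g, -, rfl⟩ := hx
      exact e6_fix t _) (σ := π) (fun k => by
      show t (i (a k)) = i (a (π k))
      rw [ht1, hπ])
  exact no_swap hloc.ts hloc.yo hSp (hG _ _ _ hloc.ts hloc.yo) hθ hmv

end Pool.Agent.H76Q
end

-- from Lib.H76Q.W14
section

/-!
# an odd cycle on the blocks
-/

set_option autoImplicit false
set_option linter.unusedSectionVars false
namespace Pool.Agent.H76Q
open Module Matrix Polynomial TensorProduct Pool.Agent.H53Toric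
open Pool.Agent.H76P
open Pool.Agent.H76T (IsIdeal Fam Lc)
open Pool.Agent.H76V (Cmp)
open Pool.Agent.H76U (cmp preL IsSplitting)
open Pool.Agent.H76RM (spanK similD)

variable {ι : Type*} [Fintype ι] [DecidableEq ι] {ψ : Matrix ι ι ℚ}
    {D : Subalgebra ℚ (Matrix ι ι ℚ)} {M : Type*} [Field M] [NumberField M]
    {m : ℕ} {e : Fin m → Matrix ι ι M} {G : Type*} [Group G]
    {ρ : ∀ (l : ℕ) [Fact l.Prime], G →* Matrix.GeneralLinearGroup ι ℚ_[l]}
    {p : ℕ} [Fact p.Prime] {σ : G} {q : ℚ} {f : ℚ[X]} {F : Fin m → M[X]}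
    {φ μ ν : Matrix ι ι (AlgebraicClosure ℚ_[p])} {v : AlgebraicClosure ℚ_[p] → ℚ}
    {Δ : Set (AlgebraicClosure ℚ_[p] ≃+* AlgebraicClosure ℚ_[p])}
    {Ω : Type*} [Field Ω] [CharZero Ω] [IsAlgClosed Ω] [Algebra.IsAlgebraic ℚ Ω] {j : M →+* Ω}
    {R : Finset Ω} {N : Set ℕ} (C : Core2 ψ D e ρ p σ q f F φ μ ν v Δ j R N)

include C


/-- PROOF. Suppose not.  `T₀` = the `a k` and the images under `j` of a basis of `M` over `ℚ`; `C.dec s T₀` gives an odd `u`, `l ∉ N` (so `l ≠ p`, `C.hN`), `i`, `t` with `t (i x) = i ((s ^ u) x)` on `T₀`, so for all `x = j c` (both sides are `ℚ`-linear in `c`).  `g` is injective on `FF`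
(`g10_ext`), so it induces a permutation `g'` of the finite type `{P // P ∈ FF}`, and `(g' ^ u) ^ n`, `n` odd, has no fixed points.  `exists_half (g' ^ u)` gives `T`; `half_sum` for `π ^ u` and `g^[u]` (`MvP (π ^ u) P (g^[u] P)` by induction) gives `T' ⊆ FF` with `MvP (π ^ u) z (1 - z)`,
`z` the sum over `T'`.  `sp_sum`, `comp_sum` (with `hFF.2.2`), `pr_pow` (`C.hspl`), `(s ^ u) (a k) = a ((π ^ u) k)`, `C.no_half`. -/
theorem Core2.odd (b : Fin m) {n : ℕ} {a : Fin n → Ω} (ha : Function.Injective a)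
    (hroot : ∀ y : Ω, (F b).eval₂ j y = 0 ↔ ∃ k, y = a k) (hn : 0 < n)
    {FF : Finset (Module.End ℚ (YS a))} (hFF : ∀ P ∈ FF, Sp P ∧ P ≠ 0 ∧ Good P)
    (horth : ∀ P ∈ FF, ∀ P' ∈ FF, P ≠ P' → P * P' = 0) (hsum : ∑ P ∈ FF, P = 1)
    {s : Ω ≃+* Ω} (hlink : Linked D ((e b).map j) ((e b).map (s.toRingHom.comp j)))
    {π : Equiv.Perm (Fin n)} (hπ : ∀ k, s (a k) = a (π k))
    (g : Module.End ℚ (YS a) → Module.End ℚ (YS a)) (hg : ∀ P ∈ FF, g P ∈ FF ∧ MvP π P (g P)) :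
    ∃ u : ℕ, Odd u ∧ ∃ P ∈ FF, g^[u] P = P := by
  classical
  by_contra hcon
  push Not at hcon
  have : Nonempty (Fin n) := ⟨⟨0, hn⟩⟩
  have h0 : ∀ f ∈ YS a, ∑ k, f k = 0 := fun f hf => hf.1
  have hSp : ∀ P ∈ FF, Sp P := fun P hP => (hFF P hP).1
  obtain ⟨T₀, hT₀⟩ : ∃ T₀ : Finset Ω, T₀ = Finset.univ.image a ∪ Finset.univ.image (fun i => j (Module.finBasis ℚ M i)) := ⟨_, rfl⟩
  obtain ⟨u, hu, l, hl, hlN, i, t, hit⟩ := C.dec s T₀
  have hlp : l ≠ p := fun h => hlN (h ▸ C.hN)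
  have ht1 : ∀ k, t (i (a k)) = i ((s ^ u) (a k)) := fun k => hit (a k) (by
    rw [hT₀, Finset.mem_union]
    exact Or.inl (Finset.mem_image_of_mem a (Finset.mem_univ k)))
  have ht2 : ∀ c : M, t (i (j c)) = i ((s ^ u) (j c)) := by
    intro c
    obtain ⟨f1, hf1⟩ : ∃ f1 : M →+* AlgebraicClosure ℚ_[l], ∀ x, f1 x = t (i (j x)) :=
      ⟨(t.toRingEquiv.toRingHom.comp i).comp j, fun _ => rfl⟩
    obtain ⟨f2, hf2⟩ : ∃ f2 : M →+* AlgebraicClosure ℚ_[l], ∀ x, f2 x = i ((s ^ u) (j x)) :=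
      ⟨(i.comp (s ^ u).toRingHom).comp j, fun _ => rfl⟩
    rw [← hf1, ← hf2]
    conv_lhs => rw [← (Module.finBasis ℚ M).sum_repr c]
    conv_rhs => rw [← (Module.finBasis ℚ M).sum_repr c]
    rw [map_sum, map_sum]
    refine Finset.sum_congr rfl fun x _ => ?_
    rw [map_rat_smul f1, map_rat_smul f2]
    congr 1
    rw [hf1, hf2]
    exact hit _ (by
      rw [hT₀, Finset.mem_union]
      exact Or.inr (Finset.mem_image_of_mem (fun i => j (Module.finBasis ℚ M i)) (Finset.mem_univ x)))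
  have hmem : ∀ (k : ℕ), ∀ P ∈ FF, g^[k] P ∈ FF ∧ MvP (π ^ k) P (g^[k] P) := by
    intro k
    induction k with
    | zero =>
      intro P hP
      exact ⟨hP, fun _ _ => Iff.rfl, fun _ _ => Iff.rfl⟩
    | succ k ih =>
      intro P hP
      obtain ⟨h1, h2⟩ := ih P hP
      obtain ⟨h3, h4⟩ := hg _ h1
      rw [Function.iterate_succ_apply', pow_succ']
      refine ⟨h3, fun x y => ?_, fun x y => ?_⟩
      · rw [h2.1 x y, h4.1 _ _]
        rfl
      · rw [h2.2 x y, h4.2 _ _]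
        rfl
  have hinj : ∀ P ∈ FF, ∀ P' ∈ FF, g P = g P' → P = P' := by
    intro P hP P' hP' h
    have h1 := (hg P hP).2
    have h2 := (hg P' hP').2
    rw [← h] at h2
    exact g10_ext h0 (hSp P hP) (hSp P' hP') (fun k k' => (h1.1 k k').trans (h2.1 k k').symm)
      fun k k' => (h1.2 k k').trans (h2.2 k k').symm
  let G' : {P // P ∈ FF} → {P // P ∈ FF} := fun P => ⟨g P.1, (hg P.1 P.2).1⟩
  have hG'inj : Function.Injective G' := fun P P' h => Subtype.ext (hinj P.1 P.2 P'.1 P'.2 (congrArg Subtype.val h))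
  obtain ⟨g', hg'⟩ : ∃ g' : Equiv.Perm {P // P ∈ FF}, ∀ P, (g' P).1 = g P.1 :=
    ⟨Equiv.ofBijective G' (Finite.injective_iff_bijective.1 hG'inj), fun _ => rfl⟩
  have hg'pow : ∀ (k : ℕ) (P : {P // P ∈ FF}), ((g' ^ k) P).1 = g^[k] P.1 := by
    intro k
    induction k with
    | zero => intro P; rfl
    | succ k ih =>
      intro P
      rw [Function.iterate_succ_apply', pow_succ', Equiv.Perm.mul_apply, hg', ih]
  obtain ⟨T, hT⟩ := exists_half (g' ^ u) fun k hk x hx => by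
    rw [← pow_mul] at hx
    have h1 := congrArg Subtype.val hx
    rw [hg'pow] at h1
    exact hcon (u * k) (hu.mul hk) x.1 x.2 h1
  obtain ⟨T', hT', hmv⟩ := half_sum (T := {P | ∃ h : P ∈ FF, (⟨P, h⟩ : {P // P ∈ FF}) ∈ T}) h0 hSp horth hsum (g^[u]) (hmem u) (by
    intro P hP
    have h1 := hT ⟨P, hP⟩
    have h2 : (g' ^ u) ⟨P, hP⟩ = ⟨g^[u] P, (hmem u P hP).1⟩ := Subtype.ext (hg'pow u ⟨P, hP⟩)
    rw [h2] at h1
    constructor
    · rintro ⟨_, h3⟩ ⟨_, h4⟩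
      exact h1.1 h3 h4
    · intro h3
      exact ⟨(hmem u P hP).1, h1.2 fun h4 => h3 ⟨hP, h4⟩⟩)
  have hπ' : ∀ (m : ℕ) (k), (s ^ m) (a k) = a ((π ^ m) k) := by
    intro m
    induction m with
    | zero => intro k; rfl
    | succ m ih =>
      intro k
      rw [pow_succ', pow_succ', Equiv.Perm.mul_apply, ← hπ, ← ih]
      rfl
  exact C.no_half b ha hroot (sp_sum h0 hSp horth hT')
    (fun K _ _ _ L J h1 h2 => comp_sum h0 hSp horth hT' fun P hP => (hFF P hP).2.2 K L J h1 h2)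
    (pr_pow C.hspl j s b hlink u) (hπ' u) hmv l hlp i t ht1 ht2

end Pool.Agent.H76Q
end

-- from Lib.H76Q.W11a
section

/-!
# the partition
-/

set_option autoImplicit false
set_option linter.unusedSectionVars false
namespace Pool.Agent.H76Q
open Module Matrix Polynomial TensorProduct Pool.Agent.H53Toric
open Pool.Agent.H76P
open Pool.Agent.H76T (IsIdeal Fam Lc)
open Pool.Agent.H76V (Cmp)
open Pool.Agent.H76U (cmp preL IsSplitting)
open Pool.Agent.H76RM (spanK similD)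

variable {ι : Type*} [Fintype ι] [DecidableEq ι] {ψ : Matrix ι ι ℚ}
    {D : Subalgebra ℚ (Matrix ι ι ℚ)} {M : Type*} [Field M] [NumberField M]
    {m : ℕ} {e : Fin m → Matrix ι ι M} {G : Type*} [Group G]
    {ρ : ∀ (l : ℕ) [Fact l.Prime], G →* Matrix.GeneralLinearGroup ι ℚ_[l]}
    {p : ℕ} [Fact p.Prime] {σ : G} {q : ℚ} {f : ℚ[X]} {F : Fin m → M[X]}
    {φ μ ν : Matrix ι ι (AlgebraicClosure ℚ_[p])} {v : AlgebraicClosure ℚ_[p] → ℚ}
    {Δ : Set (AlgebraicClosure ℚ_[p] ≃+* AlgebraicClosure ℚ_[p])}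
    {Ω : Type*} [Field Ω] [CharZero Ω] [IsAlgClosed Ω] [Algebra.IsAlgebraic ℚ Ω] {j : M →+* Ω}
    {R : Finset Ω} {N : Set ℕ} (C : Core2 ψ D e ρ p σ q f F φ μ ν v Δ j R N)

include C


/-- PROOF. `RP` from `C.types2`; `ε' = FF.equivFin`; `c r` = the number of the `P ∈ FF` with `r ∈ RP P` (for `r ∈ R`; unique; any value otherwise); `A x = nz (ε'.symm x)`.  `surj`: `RP P` is not empty.  `even`: `nz_even` with `bar` from `C.bar` (`f (bar k) = - f k` for `f ∈ YS a`: `YS_bar`,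
so `cz P k k' → cz P (bar k) (bar k')`; `bar (bar k) = k` because `a` is injective; if `cz P k (bar k)`, then `P f k = 0` for all `f`; by `C.onto` there are `i`, `ε` with `FunP P ε`, `ε ∈ YS a`, `ε k = ± 1` (`HT_spec` via `C.locp`), so `ε k = ε (bar k) = - ε k`).  `perm`: for `s` take `π₀` (permutation of `Fin n`)
and `g P` = the `P'` of `types2`; `g` is injective on `FF` (`g10_ext` or: `RP P` nonempty and `s` injective), so it induces `π : Perm (Fin FF.card)`; `c (s r) = π (c r)`; `A (π x) = A x` by `nz_mv`; if `s y * y = q` for all roots then `π₀ = bar`, `MvP bar P P` and `MvP bar P (g P)`, so `g P = P`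
(`g10_ext` again); the odd cycle is `C.odd`.  The product: `prod_nz`, `Fintype.card_fin`. -/
theorem Core2.partd (b : Fin m) {n : ℕ} {a : Fin n → Ω} (ha : Function.Injective a)
    (hroot : ∀ y : Ω, (F b).eval₂ j y = 0 ↔ ∃ k, y = a k) (hn : 0 < n)
    {FF : Finset (Module.End ℚ (YS a))} (hFF : ∀ P ∈ FF, Sp P ∧ P ≠ 0 ∧ Good P)
    (horth : ∀ P ∈ FF, ∀ P' ∈ FF, P ≠ P' → P * P' = 0) (hsum : ∑ P ∈ FF, P = 1)
    (hperm : ∀ π : Equiv.Perm (Fin n), (∀ g ∈ YS a, g ∘ π ∈ YS a) → ∀ P ∈ FF,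
      ∃ P' ∈ FF, MvP π P P') (h2 : 0 < FF.card) :
    ∃ (c : Ω → Fin FF.card) (A : Fin FF.card → ℕ), PartD D j (e b) (F b) q R c A ∧
      n = ∏ x, A x := by
  classical
  have hne : Nonempty (Fin n) := ⟨⟨0, hn⟩⟩
  have h0 : ∀ f ∈ YS a, ∑ k, f k = 0 := fun f hf => hf.1
  have hSp : ∀ P ∈ FF, Sp P := fun P hP => (hFF P hP).1
  obtain ⟨RP, hRP, hcov, hdis, hmove⟩ := C.types2 b ha hroot hFF horth hsum hperm
  obtain ⟨bar, hbar⟩ := C.bar b ha hroot
  obtain ⟨i₀⟩ := w9_exists_i p Ω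
  have ha0 : ∀ k, a k ≠ 0 := by
    intro k hk
    obtain ⟨H₀, U, V, -, hloc⟩ := C.locp b ha hroot i₀
    exact hloc.ec.ne k (by rw [hk, map_zero])
  have hbb : ∀ k, bar (bar k) = k := by
    intro k
    apply ha
    have h1 := hbar k
    have h3 := hbar (bar k)
    rw [← h1, mul_comm (a k)] at h3
    exact mul_left_cancel₀ (ha0 _) h3
  have hneg : ∀ (f : YS a) (k : Fin n), (f : Fin n → ℚ) (bar k) = -(f : Fin n → ℚ) k := fun f k => YS_bar ha0 hbar f.2 k
  have hczb : ∀ (P : Module.End ℚ (YS a)) (k k' : Fin n), cz P k k' → cz P (bar k) (bar k') := by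
    intro P k k' h f
    rw [hneg, hneg, h f]
  have hmvb : ∀ P : Module.End ℚ (YS a), MvP bar P P := by
    intro P
    refine ⟨fun k k' => ⟨hczb P k k', fun h => ?_⟩, fun k k' => ⟨hczb (1 - P) k k', fun h => ?_⟩⟩
    · have h1 := hczb P _ _ h
      rwa [hbb, hbb] at h1
    · have h1 := hczb (1 - P) _ _ h
      rwa [hbb, hbb] at h1
  obtain ⟨E⟩ : Nonempty ({P // P ∈ FF} ≃ Fin FF.card) := ⟨FF.equivFin⟩
  obtain ⟨P₀, hP₀⟩ := Finset.card_pos.1 h2
  obtain ⟨c, hc⟩ : ∃ c : Ω → Fin FF.card, ∀ (P : Module.End ℚ (YS a)) (hP : P ∈ FF) (r : Ω), r ∈ RP P → c r = E ⟨P, hP⟩ := by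
    refine ⟨fun r => if h : ∃ P : {P // P ∈ FF}, r ∈ RP P.1 then E h.choose else E ⟨P₀, hP₀⟩, fun P hP r hr => ?_⟩
    have h : ∃ P : {P // P ∈ FF}, r ∈ RP P.1 := ⟨⟨P, hP⟩, hr⟩
    simp only [dif_pos h]
    congr 1
    exact Subtype.ext (hdis _ h.choose.2 _ hP r h.choose_spec hr)
  refine ⟨c, fun x => nz (E.symm x).1, ⟨?_, ?_, ?_⟩, ?_⟩
  · intro x
    obtain ⟨r, hr⟩ := (hRP (E.symm x).1 (E.symm x).2).2
    refine ⟨r, (hRP (E.symm x).1 (E.symm x).2).1 hr, ?_⟩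
    rw [hc _ (E.symm x).2 r hr, Subtype.coe_eta, Equiv.apply_symm_apply]
  · intro x
    obtain ⟨P, hP⟩ := E.symm x
    show Even (nz P)
    refine nz_even bar hbb (hczb P) fun k hk => ?_
    obtain ⟨i, ε, hε, hf⟩ := C.onto b ha hroot (hFF P hP).1 (hFF P hP).2.2 (hFF P hP).2.1
    obtain ⟨H₀, U, V, -, hloc⟩ := C.locp b ha hroot i
    obtain ⟨-, h3, h4⟩ := HT_spec hloc C.crys.mu C.crys.muphi hε
    have h5 := hf k (bar k) hk
    have h6 := hneg ⟨ε, h3⟩ k
    have h7 : ε (bar k) = -ε k := h6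
    rw [h7] at h5
    rcases h4 k with h8 | h8 <;> rw [h8] at h5 <;> norm_num at h5
  · intro s hlink
    obtain ⟨π₀, hs1, hs2, hs3⟩ := hmove s hlink
    obtain ⟨g, hg⟩ : ∃ g : Module.End ℚ (YS a) → Module.End ℚ (YS a), ∀ P ∈ FF, g P ∈ FF ∧ MvP π₀ P (g P) ∧ ∀ r ∈ RP P, s r ∈ RP (g P) := by
      refine ⟨fun P => if h : P ∈ FF then (hs3 P h).choose else P, fun P hP => ?_⟩
      simp only [dif_pos hP]
      exact (hs3 P hP).choose_spec
    have hinj : ∀ P ∈ FF, ∀ P' ∈ FF, g P = g P' → P = P' := by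
      intro P hP P' hP' h
      have h3 := (hg P hP).2.1
      have h4 := (hg P' hP').2.1
      rw [← h] at h4
      exact g10_ext h0 (hSp P hP) (hSp P' hP') (fun k k' => (h3.1 k k').trans (h4.1 k k').symm)
        fun k k' => (h3.2 k k').trans (h4.2 k k').symm
    let G' : {P // P ∈ FF} → {P // P ∈ FF} := fun P => ⟨g P.1, (hg P.1 P.2).1⟩
    have hG'inj : Function.Injective G' := fun P P' h => Subtype.ext (hinj P.1 P.2 P'.1 P'.2 (congrArg Subtype.val h))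
    obtain ⟨g', hg'⟩ : ∃ g' : Equiv.Perm {P // P ∈ FF}, ∀ P, (g' P).1 = g P.1 :=
      ⟨Equiv.ofBijective G' (Finite.injective_iff_bijective.1 hG'inj), fun _ => rfl⟩
    have hg'pow : ∀ (k : ℕ) (P : {P // P ∈ FF}), ((g' ^ k) P).1 = g^[k] P.1 := by
      intro k
      induction k with
      | zero => intro P; rfl
      | succ k ih =>
        intro P
        rw [Function.iterate_succ_apply', pow_succ', Equiv.Perm.mul_apply, hg', ih]
    obtain ⟨π, hπ⟩ : ∃ π : Equiv.Perm (Fin FF.card), ∀ x, π x = E (g' (E.symm x)) :=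
      ⟨(E.symm.trans g').trans E, fun _ => rfl⟩
    have hπpow : ∀ (k : ℕ) (x : Fin FF.card), (π ^ k) x = E ((g' ^ k) (E.symm x)) := by
      intro k
      induction k with
      | zero => intro x; exact (E.apply_symm_apply x).symm
      | succ k ih =>
        intro x
        rw [pow_succ', Equiv.Perm.mul_apply, ih, hπ, Equiv.symm_apply_apply, pow_succ', Equiv.Perm.mul_apply]
    refine ⟨π, ?_, ?_, ?_, ?_⟩
    · intro r hr
      obtain ⟨P, hP, hrP⟩ := hcov r hr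
      rw [hc P hP r hrP, hπ, Equiv.symm_apply_apply, hc (g P) (hg P hP).1 (s r) ((hg P hP).2.2 r hrP)]
      congr 1
      exact Subtype.ext (hg' ⟨P, hP⟩).symm
    · intro x
      show nz (E.symm (π x)).1 = nz (E.symm x).1
      rw [hπ, Equiv.symm_apply_apply, hg']
      exact (nz_mv (hg _ (E.symm x).2).2.1).symm
    · intro hy
      have h3 : ∀ k, π₀ k = bar k := by
        intro k
        apply ha
        have h4 := hy (a k) ((hroot _).2 ⟨k, rfl⟩)
        rw [hs1, ← hbar k, mul_comm (a k)] at h4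
        exact mul_right_cancel₀ (ha0 k) h4
      have h4 : π₀ = bar := Equiv.ext h3
      have h5 : ∀ P ∈ FF, g P = P := by
        intro P hP
        have h6 := (hg P hP).2.1
        rw [h4] at h6
        refine g10_ext h0 (hSp _ (hg P hP).1) (hSp P hP) (fun k k' => ?_) fun k k' => ?_
        · have h7 := h6.1 (bar k) (bar k')
          rw [hbb, hbb] at h7
          rw [← h7, ← (hmvb P).1 k k']
        · have h7 := h6.2 (bar k) (bar k')
          rw [hbb, hbb] at h7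
          rw [← h7, ← (hmvb P).2 k k']
      ext x
      rw [hπ, Equiv.Perm.one_apply]
      have h6 : g' (E.symm x) = E.symm x := Subtype.ext ((hg' _).trans (h5 _ (E.symm x).2))
      rw [h6, Equiv.apply_symm_apply]
    · obtain ⟨u, hu, P, hP, hgu⟩ := C.odd b ha hroot hn hFF horth hsum hlink hs1 g fun P hP => ⟨(hg P hP).1, (hg P hP).2.1⟩
      refine ⟨u, E ⟨P, hP⟩, hu, ?_⟩
      rw [hπpow, Equiv.symm_apply_apply]
      congr 1
      exact Subtype.ext ((hg'pow u ⟨P, hP⟩).trans hgu)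
  · have hsep : ∀ k l, k ≠ l → ∃ g ∈ YS a, g k ≠ g l :=
      YS_sep ha0 fun k l n hn h => ha (C.tor b ((hroot _).2 ⟨k, rfl⟩) ((hroot _).2 ⟨l, rfl⟩) hn h)
    have h7 := prod_nz h0 hsep hSp horth hsum
    rw [Fintype.card_fin] at h7
    refine h7.trans ?_
    rw [← Finset.prod_coe_sort]
    exact Fintype.prod_equiv E _ _ fun P => by rw [Equiv.symm_apply_apply]

end Pool.Agent.H76Q
end

-- from Lib.H76Q.W11
section

/-!
# the component theorem at p
-/

set_option autoImplicit false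
set_option linter.unusedSectionVars false
namespace Pool.Agent.H76Q
open Module Matrix Polynomial Pool.Agent.H53Toric
open Pool.Agent.H76P
open Pool.Agent.H76T (IsIdeal Fam Lc)
open Pool.Agent.H76V (Cmp)
open Pool.Agent.H76U (cmp preL IsSplitting)
open Pool.Agent.H76RM (spanK similD)

variable {ι : Type*} [Fintype ι] [DecidableEq ι] {ψ : Matrix ι ι ℚ}
    {D : Subalgebra ℚ (Matrix ι ι ℚ)} {M : Type*} [Field M] [NumberField M]
    {m : ℕ} {e : Fin m → Matrix ι ι M} {G : Type*} [Group G]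
    {ρ : ∀ (l : ℕ) [Fact l.Prime], G →* Matrix.GeneralLinearGroup ι ℚ_[l]}
    {p : ℕ} [Fact p.Prime] {σ : G} {q : ℚ} {f : ℚ[X]} {F : Fin m → M[X]}
    {φ μ ν : Matrix ι ι (AlgebraicClosure ℚ_[p])} {v : AlgebraicClosure ℚ_[p] → ℚ}
    {Δ : Set (AlgebraicClosure ℚ_[p] ≃+* AlgebraicClosure ℚ_[p])}
    {Ω : Type*} [Field Ω] [CharZero Ω] [IsAlgClosed Ω] [Algebra.IsAlgebraic ℚ Ω] {j : M →+* Ω}
    {R : Finset Ω} {N : Set ℕ} (C : Core2 ψ D e ρ p σ q f F φ μ ν v Δ j R N)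

include C

/-- PROOF. `Core2.enum`, `n = (e b).rank`; `exists_blocks` (G10) for `Y = YS a` (`hs` by definition, `hsep`: `YS_sep`, A3, with `Core2.tor`), `Core2.types` (G9), `count_blocks`: `n = a' ^ k`, `k = FF.card`, `k ∣ R.card`, so `k = 1` by `part` (`k ≠ 0`: otherwise
`1 = ∑ P = 0`, `YS a = 0`, `n ≤ 1` by `hsep`; but `n` is even and `> 0`, because `Uᵀ J U` of `Core2.locp` is alternating and invertible).  For any local data `L` is full. -/
theorem Core2.comp (part : ∀ b (k : ℕ) (c : Ω → Fin k) (A : Fin k → ℕ), 2 ≤ k →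
      PartD D j (e b) (F b) q R c A → (e b).rank ≠ ∏ x, A x)
    (two : ∀ b (k : ℕ), 4 ≤ k → (e b).rank ≠ 2 ^ k)
    (binom : ∀ b (k : ℕ), 3 ≤ k → Odd k → (e b).rank ≠ k.centralBinom) (b : Fin m) :
    ∃ a : Fin (e b).rank → Ω, Function.Injective a ∧
      (∀ y : Ω, (F b).eval₂ j y = 0 ↔ ∃ k, y = a k) ∧
      ∀ (K : Type) [Field K] [CharZero K] [IsAlgClosed K]
        (L : Submodule K (Module.End K (Fin (e b).rank → K)))
        (J : Matrix (Fin (e b).rank) (Fin (e b).rank) K),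
        TS L J → Yo L = YS a → ∀ X, adjE J X = -X → X ∈ L := by
  obtain ⟨a, ha, hroot⟩ := C.enum b
  refine ⟨a, ha, hroot, fun K _ _ _ L J hT hY X hX => ?_⟩
  rcases Nat.eq_zero_or_pos (e b).rank with hn | hn
  · have : IsEmpty (Fin (e b).rank) := by rw [hn]; infer_instance
    have h0 : X = 0 := LinearMap.ext fun z => Subsingleton.elim _ _
    rw [h0]
    exact L.zero_mem
  have hq0 : q ≠ 0 := by
    obtain ⟨l, hl, hlp⟩ : ∃ l : ℕ, l.Prime ∧ l ≠ p := by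
      obtain ⟨l, hl, hlp⟩ := Nat.exists_infinite_primes (p + 1)
      exact ⟨l, hlp, by omega⟩
    have : Fact l.Prime := ⟨hl⟩
    rintro rfl
    have h1 := congrArg Matrix.det (C.mult l hlp)
    rw [map_zero, zero_smul, Matrix.det_mul, Matrix.det_mul, Matrix.det_transpose] at h1
    have h2 : (ρ l σ).1.det ≠ 0 := by
      have h3 : IsUnit (ρ l σ).1.det := (Matrix.isUnit_iff_isUnit_det _).1 (ρ l σ).isUnit
      exact h3.ne_zero
    have h4 : (ψ.map (algebraMap ℚ ℚ_[l])).det ≠ 0 := by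
      have h5 : (ψ.map (algebraMap ℚ ℚ_[l])).det = algebraMap ℚ ℚ_[l] ψ.det := (RingHom.map_det _ _).symm
      rw [h5]
      exact (_root_.map_ne_zero _).2 C.hψ0
    have h6 : Nonempty ι := by
      by_contra hcon
      rw [not_nonempty_iff] at hcon
      have h7 := (e b).rank_le_card_width
      rw [Fintype.card_eq_zero] at h7
      omega
    rw [Matrix.det_zero] at h1
    exact mul_ne_zero (mul_ne_zero h2 h4) h2 h1
  obtain ⟨bar, hbar⟩ := C.bar b ha hroot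
  have ha0 : ∀ k, a k ≠ 0 := by
    intro k hk
    have h1 := hbar k
    rw [hk, zero_mul] at h1
    exact (_root_.map_ne_zero _).2 hq0 h1.symm
  have hsep : ∀ k l, k ≠ l → ∃ g ∈ YS a, g k ≠ g l :=
    YS_sep ha0 fun k l n hn h => ha (C.tor b ((hroot _).2 ⟨k, rfl⟩) ((hroot _).2 ⟨l, rfl⟩) hn h)
  have hs : ∀ g ∈ YS a, ∑ k, g k = 0 := fun g hg => hg.1
  obtain ⟨FF, hFF, horth, hsum, hperm, hone⟩ := exists_blocks hn hs hsep (two b) (binom b)
  have : Nonempty (Fin (e b).rank) := ⟨⟨0, hn⟩⟩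
  have hF1 : FF.card = 1 := by
    rcases Nat.lt_or_ge FF.card 2 with h5 | h5
    · interval_cases h6 : FF.card
      · exfalso
        have hcard : (e b).rank = 1 := by
          have h7 := prod_nz hs hsep (fun P hP => (hFF P hP).1) horth hsum
          rw [Finset.card_eq_zero.1 h6, Finset.prod_empty, Fintype.card_fin] at h7
          exact h7
        -- one point: there is no symplectic form
        have h7 : J.det = 0 := by
          have h8 : J.det = -J.det := by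
            have h9 := congrArg Matrix.det hT.cmp.Jt
            rw [Matrix.det_transpose, Matrix.det_neg, Fintype.card_fin] at h9
            have h10 : ((-1 : K)) ^ (e b).rank = -1 := by rw [hcard, pow_one]
            rwa [h10, neg_one_mul] at h9
          exact self_eq_neg.1 h8
        have h8 := hT.cmp.Jd
        rw [h7] at h8
        exact not_isUnit_zero h8
      · rfl
    · exfalso
      obtain ⟨c, A, h7, h8⟩ := C.partd b ha hroot hn hFF horth hsum hperm (by omega)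
      exact part b FF.card c A h5 h7 h8
  exact hone hF1 K L J hT hY X hX

end Pool.Agent.H76Q
end

-- from Lib.H76Q.W12
section

/-!
# seeds at p
-/

set_option autoImplicit false
set_option linter.unusedSectionVars false
namespace Pool.Agent.H76Q
open Module Matrix Polynomial Pool.Agent.H53Toric
open Pool.Agent.H76P
open Pool.Agent.H76T (IsIdeal Fam Lc)
open Pool.Agent.H76V (Cmp)
open Pool.Agent.H76U (cmp preL IsSplitting)
open Pool.Agent.H76RM (spanK similD)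

variable {ι : Type*} [Fintype ι] [DecidableEq ι] {ψ : Matrix ι ι ℚ}
    {D : Subalgebra ℚ (Matrix ι ι ℚ)} {M : Type*} [Field M] [NumberField M]
    {m : ℕ} {e : Fin m → Matrix ι ι M} {G : Type*} [Group G]
    {ρ : ∀ (l : ℕ) [Fact l.Prime], G →* Matrix.GeneralLinearGroup ι ℚ_[l]}
    {p : ℕ} [Fact p.Prime] {σ : G} {q : ℚ} {f : ℚ[X]} {F : Fin m → M[X]}
    {φ μ ν : Matrix ι ι (AlgebraicClosure ℚ_[p])} {v : AlgebraicClosure ℚ_[p] → ℚ}
    {Δ : Set (AlgebraicClosure ℚ_[p] ≃+* AlgebraicClosure ℚ_[p])}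
    {Ω : Type*} [Field Ω] [CharZero Ω] [IsAlgClosed Ω] [Algebra.IsAlgebraic ℚ Ω] {j : M →+* Ω}
    {R : Finset Ω} {N : Set ℕ} (C : Core2 ψ D e ρ p σ q f F φ μ ν v Δ j R N)

include C

omit C in
theorem w12_ext {M Ω K : Type*} [Field M] [NumberField M] [Field Ω] [CharZero Ω]
    [Algebra.IsAlgebraic ℚ Ω] [Field K] [IsAlgClosed K] (j : M →+* Ω) (i₀ : M →+* K) :
    ∃ i : Ω →+* K, i.comp j = i₀ := by
  letI : Algebra M Ω := j.toAlgebra
  letI : Algebra M K := i₀.toAlgebra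
  haveI : IsScalarTower ℚ M Ω := IsScalarTower.of_algebraMap_eq' (Subsingleton.elim _ _)
  haveI : Algebra.IsAlgebraic M Ω := Algebra.IsAlgebraic.tower_top (K := ℚ) M
  refine ⟨(IsAlgClosed.lift (R := M) (S := Ω) (M := K)).toRingHom, ?_⟩
  ext x
  exact (IsAlgClosed.lift (R := M) (S := Ω) (M := K)).commutes x

/-- PROOF. Copy of `H76P.seed_p` (Lib/H76P/G12.lean).  Let `i : Ω →+* closure` be any embedding with `i ∘ j = i₀` (extension of `i₀ ∘ j⁻¹` to the algebraic extension `Ω` of `j M`, `IsAlgClosed.lift`).  `mk_loc`/`Core2.comp` give `U`, `V` and that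
`Lc J (img ..) U V` is full; then `fu_of_full`, `seed_of_fu` (with `h₀ = μ`, `C.crys.mu`) as there. -/
theorem Core2.seed (part : ∀ b (k : ℕ) (c : Ω → Fin k) (A : Fin k → ℕ), 2 ≤ k →
      PartD D j (e b) (F b) q R c A → (e b).rank ≠ ∏ x, A x)
    (two : ∀ b (k : ℕ), 4 ≤ k → (e b).rank ≠ 2 ^ k)
    (binom : ∀ b (k : ℕ), 3 ≤ k → Odd k → (e b).rank ≠ k.centralBinom)
    (i₀ : M →+* AlgebraicClosure ℚ_[p])
    (H₀ : Subgroup G) (hfin : H₀.FiniteIndex)
    (hprime : (H76RM.van (img (AlgebraicClosure ℚ_[p]) (ρ p) H₀)).IsPrime) (b : Fin m) :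
    H76RM.Seed (om (ψ.map (algebraMap ℚ (AlgebraicClosure ℚ_[p])))) (fun b => phi ((e b).map i₀))
        (lieE (ψ.map (algebraMap ℚ (AlgebraicClosure ℚ_[p])))
          (img (AlgebraicClosure ℚ_[p]) (ρ p) H₀)) b := by
  classical
  obtain ⟨i, rfl⟩ := w12_ext j i₀
  obtain ⟨hJ, hdet⟩ := gram_basic C.hψ C.hψ0 (AlgebraicClosure ℚ_[p])
  have hspl : IsSplitting D ψ id (fun c => (e c).map (i.comp j)) := C.hspl.map (i.comp j)
  have hspl4 := Pool.Agent.H76U.split4_of hspl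
  have hι : Nonempty ι := by
    by_contra hemp
    rw [not_nonempty_iff] at hemp
    apply hspl.ne_zero b
    ext i'
    exact (hemp.false i').elim
  obtain ⟨φ', g⟩ := mk_phT (K := AlgebraicClosure ℚ_[p]) C.hψ C.hψ0 D (ρ p) (C.lin p) (C.sim p)
    (C.semis p) (C.commt p) (C.gen p) C.frobp hfin hprime
  obtain ⟨a, ha, hroot, hfull0⟩ := C.comp part two binom b
  obtain ⟨U, V, hL⟩ := mk_loc C.hψ C.hψ0 D (ρ p) (C.lin p) (C.sim p) (C.semis p) (C.commt p)
    (C.gen p) C.hspl C.frobp C.multp hfin hprime j i b ha hroot (fun k l N hN h =>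
      ha (C.tor b ((hroot _).2 ⟨k, rfl⟩) ((hroot _).2 ⟨l, rfl⟩) hN h))
  have hfull : ∀ {X : Module.End (AlgebraicClosure ℚ_[p]) (Fin (e b).rank → AlgebraicClosure ℚ_[p])},
      adjE (Uᵀ * ψ.map (algebraMap ℚ (AlgebraicClosure ℚ_[p])) * U) X = -X →
        X ∈ Lc (ψ.map (algebraMap ℚ (AlgebraicClosure ℚ_[p])))
          (img (AlgebraicClosure ℚ_[p]) (ρ p) H₀) U V := fun {X} hX =>
    hfull0 (AlgebraicClosure ℚ_[p]) _ _ hL.ts hL.yo X hX
  have hh₀ := C.crys.mu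
  refine Pool.Agent.H76T.seed_of_fu hJ hdet (g.sh.hz μ hh₀) (g.sh.hi μ hh₀) (g.sh.hs μ hh₀)
    (hspl.idem b) (hspl.adj b) (hspl.ne_zero b) ?_ ?_
  · exact (hL.par μ hh₀).2.1
  · intro u hu
    exact fu_of_full (b := b) hspl4 rfl hJ hdet hL.UV hL.VU g hL.pos hfull hu

end Pool.Agent.H76Q
end

-- from Lib.H76Q.W13
section

/-!
# the theorem
-/

set_option autoImplicit false
set_option linter.unusedSectionVars false
namespace Pool.Agent.H76Q
open Module Matrix Polynomial Pool.Agent.H53Toric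
open Pool.Agent.H76P
open Pool.Agent.H76T (IsIdeal Fam Lc)
open Pool.Agent.H76V (Cmp)
open Pool.Agent.H76U (cmp preL IsSplitting)
open Pool.Agent.H76RM (spanK similD)

section
open Pool.Agent.H76U (IsSplitting split4_of Split4 idem_factor rank_idem_map tw preL cmp)
open Pool.Agent.H76RM (van spanK similD Seed Setup Split comm_span split_of)
open Pool.Agent.H76T (rK rK_apply img_sub_inf nil_of_zar seed_of_fu monodromy_seed Lc AllIndep
  nroots full_other)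
open Pool.Agent.H49M (idc)

variable {ι : Type*} [Fintype ι] [DecidableEq ι]
variable {L : Type*} [Field L] {K : Type*} [Field K] [Algebra L K] {G : Type*} [Group G]

theorem w13_lie [CharZero L] [CharZero K] [IsAlgClosed K] {ψ : Matrix ι ι ℚ}
    (hψ : ψᵀ = -ψ) (hψ0 : ψ.det ≠ 0) (D : Subalgebra ℚ (Matrix ι ι ℚ))
    (ρ : G →* Matrix.GeneralLinearGroup ι L)
    (lin : ∀ σ : G, ∀ d ∈ D, (ρ σ).1 * d.map (algebraMap ℚ L) =
      d.map (algebraMap ℚ L) * (ρ σ).1)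
    (sim : ∀ σ : G, ∃ c : L, (ρ σ).1ᵀ * ψ.map (algebraMap ℚ L) * (ρ σ).1 =
      c • ψ.map (algebraMap ℚ L))
    (semis : ∀ H : Subgroup G, H.FiniteIndex → ∀ W : Submodule K (ι → K),
      (∀ s ∈ img K ρ H, ∀ w ∈ W, s *ᵥ w ∈ W) →
      ∃ W' : Submodule K (ι → K), (∀ s ∈ img K ρ H, ∀ w ∈ W', s *ᵥ w ∈ W') ∧ IsCompl W W')
    (commt : ∀ H : Subgroup G, H.FiniteIndex → ∀ y : Matrix ι ι K,
      (∀ s ∈ img K ρ H, y * s = s * y) → y ∈ spanK K D)
    {m : ℕ} {e : Fin m → Matrix ι ι K} (hspl : IsSplitting D ψ id e)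
    (seed₀ : ∀ (H₀ : Subgroup G), H₀.FiniteIndex → (van (img K ρ H₀)).IsPrime → ∀ b : Fin m,
      Seed (om (ψ.map (algebraMap ℚ K))) (fun b => phi (e b))
        (lieE (ψ.map (algebraMap ℚ K)) (img K ρ H₀)) b) :
    ∃ H₀ : Subgroup G, H₀.FiniteIndex ∧ ∀ (b : Fin m) (u : ι → K), e b *ᵥ u = u →
      ∃ X ∈ zlie (img K ρ H₀), (∀ d ∈ spanK K D, X * d = d * X) ∧
      (∀ z, X *ᵥ (e b *ᵥ z) = om (ψ.map (algebraMap ℚ K)) z u • u) ∧
      ∀ c, c ≠ b → X * e c = 0 := by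
  classical
  obtain ⟨H₀, -, hfin, hprime⟩ := H76RM.exists_prime (K := K) ρ ⊤ inferInstance
  refine ⟨H₀, hfin, ?_⟩
  intro b u hu
  have seed := fun b => seed₀ H₀ hfin hprime b
  obtain ⟨hJ, hdet⟩ := gram_basic hψ hψ0 K
  have hsplR : H76RM.IsSplitting D ψ e :=
    ⟨hspl.mem, hspl.idem, hspl.adj, hspl.corner, hspl.orth, hspl.full⟩
  have hspl' := split_of hsplR
  set J : Matrix ι ι K := ψ.map (algebraMap ℚ K) with hJdef
  have hlinK : ∀ σ : G, ∀ d ∈ D, (ρ σ).1.map (algebraMap L K) * d.map (algebraMap ℚ K) =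
      d.map (algebraMap ℚ K) * (ρ σ).1.map (algebraMap L K) := by
    intro σ d hd
    have h1 := congrArg (fun m : Matrix ι ι L => m.map (algebraMap L K)) (lin σ d hd)
    have h2 : (d.map (algebraMap ℚ L)).map (algebraMap L K) = d.map (algebraMap ℚ K) := by
      ext i j
      simp
    simp only [Matrix.map_mul] at h1
    rw [h2] at h1
    exact h1
  have hsimG : ∀ x : G, ∃ c : K, ((ρ x).1.map (algebraMap L K))ᵀ * J *
      (ρ x).1.map (algebraMap L K) = c • J := by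
    intro x
    obtain ⟨c, hc⟩ := sim x
    exact ⟨_, sim_map hc⟩
  have hne : J ≠ 0 := by
    intro h0
    apply hspl.ne_zero b
    have hι : IsEmpty ι := by
      by_contra hcon
      rw [not_isEmpty_iff] at hcon
      rw [h0, Matrix.det_zero] at hdet
      exact not_isUnit_zero hdet
    ext i
    exact (hι.false i).elim
  have hrange := range_rep K ρ H₀
  set R := rep K ρ H₀ with hR
  have hsetup : Setup (om J) (fun b => phi (e b)) (lieE J (Set.range R)) (H76RM.opr R) := by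
    apply H76RM.mk_setup hspl' hJ hdet hne R
    · intro y
      exact hsimG y.1
    · intro y d hd
      exact comm_span (hlinK y.1) d hd
    · rw [hrange]; exact hprime
    · intro W hW
      obtain ⟨W', h1, h2⟩ := semis H₀ hfin W (by
        rw [← hrange]
        rintro _ ⟨y, rfl⟩ w hw
        exact hW y w hw)
      refine ⟨W', ?_, h2⟩
      intro y w hw
      apply h1 _ _ _ hw
      rw [← hrange]
      exact Set.mem_range_self y
    · intro y hy
      apply commt H₀ hfin y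
      rw [← hrange]
      rintro _ ⟨z, rfl⟩
      exact hy z
  rw [hrange] at hsetup
  obtain ⟨A, hA, h1, h2⟩ := hsetup.main seed (b := b) (w := u)
    (by rw [phi_apply]; exact hu)
  obtain ⟨X, rfl⟩ := (phi (ι := ι) (K := K)).surjective A
  obtain ⟨hX1, hX2⟩ := mem_lieE.1 hA
  refine ⟨X, hX1, ?_, ?_, ?_⟩
  · intro d hd
    refine H76RM.zlie_commute (img_one ρ H₀) ?_ hX1
    rintro _ ⟨y, -, rfl⟩
    exact comm_span (hlinK y) d hd
  · intro z
    have h3 : (phi X * phi (e b)) z = trv (om J) u z :=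
      congrArg (fun f : Module.End K (ι → K) => f z) h1
    rw [← phi_apply, ← phi_apply]
    exact h3
  · intro c hc
    apply (phi (ι := ι) (K := K)).injective
    rw [map_mul, map_zero]
    exact h2 c hc


theorem w13_at [CharZero L] [CharZero K] [IsAlgClosed K] {ψ : Matrix ι ι ℚ}
    (hψ : ψᵀ = -ψ) (hψ0 : ψ.det ≠ 0) (D : Subalgebra ℚ (Matrix ι ι ℚ))
    (ρ : G →* Matrix.GeneralLinearGroup ι L)
    (lin : ∀ σ : G, ∀ d ∈ D, (ρ σ).1 * d.map (algebraMap ℚ L) =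
      d.map (algebraMap ℚ L) * (ρ σ).1)
    (sim : ∀ σ : G, ∃ c : L, (ρ σ).1ᵀ * ψ.map (algebraMap ℚ L) * (ρ σ).1 =
      c • ψ.map (algebraMap ℚ L))
    (cyc : ∃ σ : G, ∃ c : L, (ρ σ).1ᵀ * ψ.map (algebraMap ℚ L) * (ρ σ).1 =
      c • ψ.map (algebraMap ℚ L) ∧ ∀ n : ℕ, n ≠ 0 → c ^ n ≠ 1)
    (semis : ∀ H : Subgroup G, H.FiniteIndex → ∀ W : Submodule K (ι → K),
      (∀ s ∈ img K ρ H, ∀ w ∈ W, s *ᵥ w ∈ W) →
      ∃ W' : Submodule K (ι → K), (∀ s ∈ img K ρ H, ∀ w ∈ W', s *ᵥ w ∈ W') ∧ IsCompl W W')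
    (commt : ∀ H : Subgroup G, H.FiniteIndex → ∀ y : Matrix ι ι K,
      (∀ s ∈ img K ρ H, y * s = s * y) → y ∈ spanK K D)
    {m : ℕ} {e : Fin m → Matrix ι ι K} (hspl : IsSplitting D ψ id e)
    (seed₀ : ∀ (H₀ : Subgroup G), H₀.FiniteIndex → (van (img K ρ H₀)).IsPrime → ∀ b : Fin m,
      Seed (om (ψ.map (algebraMap ℚ K))) (fun b => phi (e b))
        (lieE (ψ.map (algebraMap ℚ K)) (img K ρ H₀)) b)
    {φ : Matrix ι ι K} (Fidc : φ ∈ H49M.idc K ρ) (Fdgb : Diagonalisable φ)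
    (Ftorus : ∀ H : Subgroup G, H.FiniteIndex → ∀ X ∈ zlie (img K ρ H), X * φ = φ * X →
      X ∈ zlie {x | ∃ n : ℕ, x = φ ^ n})
    {q : ℚ} (hq0 : q ≠ 0)
    (hmult : φᵀ * ψ.map (algebraMap ℚ K) * φ = algebraMap ℚ K q • ψ.map (algebraMap ℚ K))
    {f : ℚ[X]} (hchar : φ.charpoly = f.map (algebraMap ℚ K)) :
    (∀ H : Subgroup G, H.FiniteIndex → monodromy K ρ H = similD K ψ D) ∧
      AllIndep f q (AlgebraicClosure ℚ) ∧
      nroots f (AlgebraicClosure ℚ) = ∑ b, (e b).rank := by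
  classical
  have hsplR0 : H76RM.IsSplitting D ψ e :=
    ⟨hspl.mem, hspl.idem, hspl.adj, hspl.corner, hspl.orth, hspl.full⟩
  refine ⟨fun H hH => monodromy_seed hψ hψ0 D ρ lin sim cyc semis commt hsplR0
    (fun H₀ hfin hprime _ b => seed₀ H₀ hfin hprime b) H hH, ?_⟩
  obtain ⟨H₀, hfin, hlie⟩ := w13_lie hψ hψ0 D ρ lin sim semis commt hspl seed₀
  obtain ⟨hJ, hdet⟩ := gram_basic hψ hψ0 K
  obtain ⟨P, Q, d, hPQ, hQP, hx, hd, hF⟩ := diag_data' Fidc.1 Fdgb hchar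
  have hsplR : H76RM.IsSplitting D ψ e :=
    ⟨hspl.mem, hspl.idem, hspl.adj, hspl.corner, hspl.orth, hspl.full⟩
  have hspl' := split_of hsplR
  set J : Matrix ι ι K := ψ.map (algebraMap ℚ K) with hJdef
  have hlinK : ∀ σ : G, ∀ d ∈ D, (ρ σ).1.map (algebraMap L K) * d.map (algebraMap ℚ K) =
      d.map (algebraMap ℚ K) * (ρ σ).1.map (algebraMap L K) := by
    intro σ d hd
    have h1 := congrArg (fun m : Matrix ι ι L => m.map (algebraMap L K)) (lin σ d hd)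
    have h2 : (d.map (algebraMap ℚ L)).map (algebraMap L K) = d.map (algebraMap ℚ K) := by
      ext i j
      simp
    simp only [Matrix.map_mul] at h1
    rw [h2] at h1
    exact h1
  have hxD : ∀ d ∈ spanK K D, φ * d = d * φ := by
    intro d hd
    refine H76RM.zar_commute ?_ (Fidc.2 ⊤ inferInstance)
    rintro _ ⟨σ, -, rfl⟩
    exact comm_span (hlinK σ) d hd
  have hq0K : algebraMap ℚ K q ≠ 0 := by
    rw [Ne, map_eq_zero]
    exact hq0
  have htor := Ftorus H₀ hfin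
  constructor
  · exact all_indep' hspl' hJ hdet hq0K hmult hxD hx hPQ hQP hd hlie htor hF
  · rw [← H76T.nroots_eq hF]
    exact card_eig' hspl' hJ hdet hq0K hmult hxD hx hPQ hQP hd hlie htor


end

variable {ι : Type*} [Fintype ι] [DecidableEq ι] {ψ : Matrix ι ι ℚ}
    {D : Subalgebra ℚ (Matrix ι ι ℚ)} {M : Type*} [Field M] [NumberField M]
    {m : ℕ} {e : Fin m → Matrix ι ι M} {G : Type*} [Group G]
    {ρ : ∀ (l : ℕ) [Fact l.Prime], G →* Matrix.GeneralLinearGroup ι ℚ_[l]}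
    {p : ℕ} [Fact p.Prime] {σ : G} {q : ℚ} {f : ℚ[X]} {F : Fin m → M[X]}
    {φ μ ν : Matrix ι ι (AlgebraicClosure ℚ_[p])} {v : AlgebraicClosure ℚ_[p] → ℚ}
    {Δ : Set (AlgebraicClosure ℚ_[p] ≃+* AlgebraicClosure ℚ_[p])}
    {Ω : Type*} [Field Ω] [CharZero Ω] [IsAlgClosed Ω] [Algebra.IsAlgebraic ℚ Ω] {j : M →+* Ω}
    {R : Finset Ω} {N : Set ℕ} (C : Core2 ψ D e ρ p σ q f F φ μ ν v Δ j R N)

include C

/-- PROOF. Copy of `H76P.mono_p`, `lie_p` (G12), `at_p` (G15) and `finalP` (G16) with `Core2.seed` instead of `seed_p`. -/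
theorem Core2.final (part : ∀ b (k : ℕ) (c : Ω → Fin k) (A : Fin k → ℕ), 2 ≤ k →
      PartD D j (e b) (F b) q R c A → (e b).rank ≠ ∏ x, A x)
    (two : ∀ b (k : ℕ), 4 ≤ k → (e b).rank ≠ 2 ^ k)
    (binom : ∀ b (k : ℕ), 3 ≤ k → Odd k → (e b).rank ≠ k.centralBinom) :
    ∀ (l : ℕ) [Fact l.Prime], ∀ H : Subgroup G, H.FiniteIndex →
      monodromy (AlgebraicClosure ℚ_[l]) (ρ l) H = similD (AlgebraicClosure ℚ_[l]) ψ D := by
  classical
  let i₀ : M →+* AlgebraicClosure ℚ_[p] := (IsAlgClosed.lift : M →ₐ[ℚ] AlgebraicClosure ℚ_[p])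
  have hspl1 : IsSplitting D ψ id (fun b => (e b).map i₀) := C.hspl.map i₀
  have hrank1 : ∀ b, ((e b).map i₀).rank = (e b).rank := fun b =>
    Pool.Agent.H76U.rank_idem_map (C.hspl.idem b) _
  rcases isEmpty_or_nonempty ι with hι | hι
  · intro l _ H hH
    ext x
    have hx : x = 1 := Subsingleton.elim _ _
    subst hx
    refine ⟨fun _ => ⟨by rw [Matrix.det_one]; exact one_ne_zero, fun d _ => by rw [one_mul, mul_one],
      1, Subsingleton.elim _ _⟩, fun _ => ⟨by rw [Matrix.det_one]; exact one_ne_zero, ?_⟩⟩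
    exact Pool.Agent.H53Toric.subset_zar _ (img_one (ρ l) H)
  have hq0 : q ≠ 0 := by
    intro h0
    have h1 := C.multp
    rw [h0, map_zero, zero_smul] at h1
    have h2 := congrArg Matrix.det h1
    rw [Matrix.det_mul, Matrix.det_mul, Matrix.det_transpose, Matrix.det_zero] at h2
    exact mul_ne_zero (mul_ne_zero C.frobp.idc.1
      (gram_basic C.hψ C.hψ0 (AlgebraicClosure ℚ_[p])).2.ne_zero) C.frobp.idc.1 h2
  obtain ⟨hmon, hind, hcard⟩ := w13_at C.hψ C.hψ0 D (ρ p) (C.lin p) (C.sim p) C.cyc (C.semis p)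
    (C.commt p) hspl1 (fun H₀ hfin hprime b => C.seed part two binom i₀ H₀ hfin hprime b)
    C.frobp.idc C.frobp.dgb C.frobp.torus hq0 C.multp C.charp
  intro l _ H hH
  by_cases hlp : l = p
  · subst hlp
    exact hmon H hH
  let j' : M →+* AlgebraicClosure ℚ_[l] := (IsAlgClosed.lift : M →ₐ[ℚ] AlgebraicClosure ℚ_[l])
  have hspl2 : IsSplitting D ψ id (fun b => (e b).map j') := C.hspl.map j'
  refine Pool.Agent.H76T.full_other C.hψ C.hψ0 D (ρ l) (C.lin l) (C.sim l) (C.semis l) (C.commt l)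
    hspl2 hq0 C.hq (C.mult l hlp) (C.char l hlp) (C.frob l hlp).dgb hind ?_ H hH
  rw [hcard]
  exact Finset.sum_congr rfl fun b _ => by
    rw [hrank1, Pool.Agent.H76U.rank_idem_map (C.hspl.idem b)]

end Pool.Agent.H76Q
end

-- from Lib.H86K.K11
section

/-!
# K11: number fields with a real place
-/

set_option autoImplicit false
set_option linter.unusedSectionVars false
namespace Pool.Agent.H86K
open Module Matrix Polynomial Pool.Agent.H53Toric Pool.Agent.H76P Pool.Agent.H76Q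

/-- A homomorphism whose values are in the range of an injective homomorphism factors. -/
theorem exists_factor {A B C : Type*} [Ring A] [Ring B] [Ring C] (f : A →+* C) (g : B →+* C)
    (hg : Function.Injective g) (h : ∀ x, ∃ y, f x = g y) : Nonempty (A →+* B) := by
  choose s hs using h
  exact ⟨{ toFun := s
           map_one' := hg (by rw [← hs, map_one, map_one])
           map_mul' := fun x y => hg (by rw [← hs, map_mul, map_mul, ← hs, ← hs])
           map_zero' := hg (by rw [← hs, map_zero, map_zero])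
           map_add' := fun x y => hg (by rw [← hs, map_add, map_add, ← hs, ← hs]) }⟩


end Pool.Agent.H86K
end
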