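import Mathlib
import Pool.Agent.Lib.H1M.RC.D_H76Q_Q1
import Pool.Agent.Lib.H1M.RC.D_H76Q_Q5
import Pool.Agent.Lib.H1M.RC.D_H76Q_Q7
import Pool.Agent.Lib.H1M.RC.M012
import Pool.Agent.Lib.H1M.RC.M038
import Pool.Agent.Lib.H1M.RC.M050
import Pool.Agent.Lib.H1M.RC.M051
import Pool.Agent.Lib.H1M.RC.M052
import Pool.Agent.Lib.H1M.RC.M054
import Pool.Agent.Lib.H1M.RC.M055
import Pool.Agent.Lib.H1M.RC.M056
import Pool.Agent.Lib.H1M.RC.M057
import Pool.Agent.Lib.H1M.RC.M058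
import Pool.Agent.Lib.H1M.RC.M064
import Pool.Agent.Lib.H1M.RC.M067

/-!
# F3b: the conditions of the third version over a number field
-/

set_option autoImplicit false
set_option linter.unusedSectionVars false
namespace Pool.Agent.H45Q
open Module Matrix Polynomial Pool.Agent.H53Toric NumberField ST32
open Pool.Agent.H76Q
open Pool.Agent.H76P (properProj EigOn)
open Pool.Agent.H76U (IsSplitting)
open Pool.Agent.H76RM (spanK similD)

/-- The conditions at `p`, third version: `φ` is the inverse of the crystalline Frobenius, `μ` a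
Hodge-Tate projector which commutes with it, `ν` the logarithm of the absolute values of `φ`. -/
structure CrysF3 {G : Type*} [Group G] {ι : Type*} [Fintype ι] [DecidableEq ι]
    (p : ℕ) [Fact p.Prime] (ρ : G →* Matrix.GeneralLinearGroup ι ℚ_[p])
    {M : Type*} [Field M] {m : ℕ} (e : Fin m → Matrix ι ι M) (σ : G)
    (φ μ ν : Matrix ι ι (AlgebraicClosure ℚ_[p])) (v : AlgebraicClosure ℚ_[p] → ℚ) : Prop where
  mu : μ ∈ properProj (AlgebraicClosure ℚ_[p]) ρ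
  muphi : μ * φ = φ * μ
  phigen : φ ∈ tgen (AlgebraicClosure ℚ_[p]) ρ
  nu : ∀ (c : AlgebraicClosure ℚ_[p]) (z : ι → AlgebraicClosure ℚ_[p]), φ *ᵥ z = c • z →
    ν *ᵥ z = (v c : AlgebraicClosure ℚ_[p]) • z
  newton : ∀ (i : M →+* AlgebraicClosure ℚ_[p]) (b : Fin m) (H : Subgroup G), H.FiniteIndex →
    ∀ I : Submodule (AlgebraicClosure ℚ_[p]) (Matrix ι ι (AlgebraicClosure ℚ_[p])),
      adStable (zlie (img (AlgebraicClosure ℚ_[p]) ρ H)) I →
      ((2 : AlgebraicClosure ℚ_[p]) • μ - 1) * (e b).map i ∈ I →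
        ∃ c : AlgebraicClosure ℚ_[p], (ν - c • 1) * (e b).map i ∈ I
  unr : ∃ ξ ξ' : Matrix ι ι (AlgebraicClosure ℚ_[p]), ξ ∈ tgen (AlgebraicClosure ℚ_[p]) ρ ∧
    ξ * ξ' = 1 ∧ ∀ (H : Subgroup G), H.FiniteIndex →
      ∀ I : Submodule (AlgebraicClosure ℚ_[p]) (Matrix ι ι (AlgebraicClosure ℚ_[p])),
        adStable (zlie (img (AlgebraicClosure ℚ_[p]) ρ H)) I → (∀ X ∈ I, μ * X = X * μ) →
        ∀ X ∈ I, ((ρ σ)⁻¹.1.map (algebraMap ℚ_[p] _) * (ξ * φ * ξ')) * X =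
          X * ((ρ σ)⁻¹.1.map (algebraMap ℚ_[p] _) * (ξ * φ * ξ'))
  int : (ρ σ).1.map (algebraMap ℚ_[p] _) ∈ Submonoid.closure
    {x | ∃ h ∈ properProj (AlgebraicClosure ℚ_[p]) ρ, IntMat v h ∧
      ∃ t : AlgebraicClosure ℚ_[p], t ≠ 0 ∧ v t = 0 ∧ x = 1 + (t - 1) • h}
  eint : ∀ (i : M →+* AlgebraicClosure ℚ_[p]) (b : Fin m), IntMat v ((e b).map i)
  dphi : ∀ δ ∈ inertia p v, φ.map δ = φ
  dideal : ∀ δ ∈ inertia p v, ∀ H : Subgroup G, H.FiniteIndex →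
    ∀ I : Submodule (AlgebraicClosure ℚ_[p]) (Matrix ι ι (AlgebraicClosure ℚ_[p])),
      I ≤ zlie (img (AlgebraicClosure ℚ_[p]) ρ H) →
      adStable (zlie (img (AlgebraicClosure ℚ_[p]) ρ H)) I → ∀ X ∈ I, ∀ Y ∈ I,
        (X * Y - Y * X).map δ ∈ I



end Pool.Agent.H45Q
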