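import Pool.Agent.Lib.H1M.RC.M050
import Pool.Agent.Lib.H1M.RC.M051
import Pool.Agent.Lib.H1M.RC.M055
import Pool.Agent.Lib.H1M.RC.M056
import Pool.Agent.Lib.H1M.RC.M057
import Pool.Agent.Lib.H1M.RC.M058
import Pool.Agent.Lib.H1M.RC.M064
import Pool.Agent.Lib.H1M.RC.M067

/-!
# S3: the component theorem with one class of Hodge-Tate cocharacters
-/

set_option autoImplicit false
set_option linter.unusedSectionVars false
namespace Pool.Agent.H45Q
open Module Matrix Polynomial Pool.Agent.H53Toric Pool.Agent.H76P Pool.Agent.H76Q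
open Pool.Agent.H76T (IsIdeal Fam Lc)
open Pool.Agent.H76V (Cmp)
open Pool.Agent.H76U (cmp preL IsSplitting)
open Pool.Agent.H76RM (spanK similD)

/-- At some prime `l` the image of the group is contained in the group generated by the conjugates of one
Hodge-Tate cocharacter `t ↦ 1 + (t - 1) h`. -/
def Gen1 {ι : Type*} [Fintype ι] [DecidableEq ι] {G : Type*} [Group G]
    (ρ : ∀ (l : ℕ) [Fact l.Prime], G →* Matrix.GeneralLinearGroup ι ℚ_[l]) : Prop :=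
  ∃ (l : ℕ) (_ : Fact l.Prime), ∃ h ∈ properProj (AlgebraicClosure ℚ_[l]) (ρ l), ∀ g : G,
    (ρ l g).1.map (algebraMap ℚ_[l] (AlgebraicClosure ℚ_[l])) ∈ Submonoid.closure
      {x | ∃ y y' : Matrix ι ι (AlgebraicClosure ℚ_[l]), y ∈ tgen (AlgebraicClosure ℚ_[l]) (ρ l) ∧ y * y' = 1 ∧
        ∃ t : AlgebraicClosure ℚ_[l], t ≠ 0 ∧ x = 1 + (t - 1) • (y * h * y')}

section
variable {ι : Type*} [Fintype ι] [DecidableEq ι] {K : Type*} [Field K] [CharZero K]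
  [IsAlgClosed K] {J : Matrix ι ι K} {S 𝓗 : Set (Matrix ι ι K)} {e x : Matrix ι ι K} {q : K} {n : ℕ}
  {U : Matrix ι (Fin n) K} {V : Matrix (Fin n) ι K} {d : Fin n → K}
  {Y : Submodule ℚ (Fin n → ℚ)}


end

section
variable {ι : Type*} [Fintype ι] [DecidableEq ι] {ψ : Matrix ι ι ℚ}
    {D : Subalgebra ℚ (Matrix ι ι ℚ)} {M : Type} [Field M] [NumberField M]
    {m : ℕ} {e : Fin m → Matrix ι ι M} {G : Type*} [Group G]
    {ρ : ∀ (l : ℕ) [Fact l.Prime], G →* Matrix.GeneralLinearGroup ι ℚ_[l]}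
    {p : ℕ} [Fact p.Prime] {σ : G} {q : ℚ} {f : ℚ[X]} {F : Fin m → M[X]}
    {φ μ ν : Matrix ι ι (AlgebraicClosure ℚ_[p])} {v : AlgebraicClosure ℚ_[p] → ℚ}
    {Δ : Set (AlgebraicClosure ℚ_[p] ≃+* AlgebraicClosure ℚ_[p])}
    {Ω : Type} [Field Ω] [CharZero Ω] [IsAlgClosed Ω] [Algebra.IsAlgebraic ℚ Ω] {j : M →+* Ω}
    {R : Finset Ω} {N : Set ℕ} (C : Core2 ψ D e ρ p σ q f F φ μ ν v Δ j R N)

include C





end

end Pool.Agent.H45Q
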