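import Pool.Agent.Lib.H1M.RC.M020
import Pool.Agent.Lib.H1M.RC.M021
import Pool.Agent.Lib.H1M.RC.M025
import Pool.Agent.Lib.H1M.RC.M026
import Pool.Agent.Lib.H1M.RC.M029

/-! Merged copies (to shorten the build) of Lib.H25U.B1, Lib.H25U.P1, Lib.H86N.E1. -/

-- from Lib.H25U.B1
section

/-!
# B1: a frame for a given involution
-/

set_option autoImplicit false
set_option linter.unusedSectionVars false
namespace Pool.Agent.H25U
open Pool.Agent.H86N (CoreN)
open Module Pool.Agent.H53Toric Polynomial Pool.Agent.H49M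

variable {K : Type*} [Field K] {V : Type*} [AddCommGroup V] [Module K V]

variable {L : Submodule K (Module.End K V)}

theorem B1_ext_aux [IsAlgClosed K] [CharZero K] [FiniteDimensional K V] [Nontrivial V]
    {g : Submodule K (Module.End K V)} (hg : IsLie g) (hirr : Irr g)
    (htr : ∀ X ∈ g, LinearMap.trace K V X = 0) (n : ℕ) :
    ∀ N ∈ g, N * N = 0 → finrank K (LinearMap.range N) = n → N ≠ 0 →
    ∃ N' ∈ g, N' * N' = 0 ∧ N' ≠ 0 ∧ ((∃ c, N' = c * N) ∧ ∃ d, N' = N * d) ∧
      ∀ X ∈ g, ∃ c : K, N' * X * N' = c • N' := by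
  induction n using Nat.strong_induction_on with
  | _ n ih =>
  intro N hN hN2 hrk hN0
  obtain ⟨M, hM, hNMN⟩ := exists_partner hg hirr htr hN hN2
  have hee : (N * M) * (N * M) = N * M := by
    calc (N * M) * (N * M) = (N * M * N) * M := by noncomm_ring
      _ = N * M := by rw [hNMN]
  have heJ : N * M ∈ JJ g N (N * M) := ⟨hee, hee, by rw [hNMN]; exact hN⟩
  have he0 : N * M ≠ 0 := by
    intro h
    rw [h, zero_mul] at hNMN
    exact hN0 hNMN.symm
  have hrkN : finrank K (LinearMap.range (N * M)) = n := by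
    rw [← hrk]
    exact rank_eq_of_dvd (a := N * M) (b := N) rfl hNMN.symm
  by_cases hf : ∃ f ∈ JJ g N (N * M), f * f = f ∧ f ≠ 0 ∧ f ≠ N * M
  · obtain ⟨f, hfJ, hff, hf0, hfe⟩ := hf
    -- both parts
    have hpart : ∀ f ∈ JJ g N (N * M), f * f = f →
        (f * N) * (f * N) = 0 ∧ (finrank K (LinearMap.range (f * N)) : K) =
          LinearMap.trace K V f := by
      intro f hfJ hff
      refine ⟨?_, ?_⟩
      · calc (f * N) * (f * N) = f * (N * f) * N := by noncomm_ring
          _ = 0 := by rw [JJ_N_mul hN2 hfJ, mul_zero, zero_mul]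
      · rw [trace_idem hff]
        congr 1
        apply rank_eq_of_dvd (c := N) (d := M) rfl
        rw [mul_assoc, hfJ.2.1]
    have hf'J : N * M - f ∈ JJ g N (N * M) := (JJ g N (N * M)).sub_mem heJ hfJ
    have hff' : (N * M - f) * (N * M - f) = N * M - f := by
      have : (N * M - f) * (N * M - f) = (N * M) * (N * M) - (N * M) * f - f * (N * M) + f * f := by
        noncomm_ring
      rw [this, hee, hfJ.1, hfJ.2.1, hff]
      abel
    obtain ⟨h1, h2⟩ := hpart f hfJ hff
    obtain ⟨h3, h4⟩ := hpart _ hf'J hff'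
    have hsum : (finrank K (LinearMap.range (f * N)) : K) +
        (finrank K (LinearMap.range ((N * M - f) * N)) : K) = (n : K) := by
      rw [h2, h4, ← map_add, add_sub_cancel, trace_idem hee, hrkN]
    have hsum' : finrank K (LinearMap.range (f * N)) +
        finrank K (LinearMap.range ((N * M - f) * N)) = n := by
      exact_mod_cast hsum
    have hne : ∀ f ∈ JJ g N (N * M), f ≠ 0 → 0 < finrank K (LinearMap.range (f * N)) := by
      intro f hfJ hf0
      rw [Nat.pos_iff_ne_zero]
      intro h
      have h0 := LinearMap.range_eq_bot.1 (Submodule.finrank_eq_zero.1 h)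
      apply hf0
      rw [← hfJ.2.1, ← mul_assoc, h0, zero_mul]
    have hp1 := hne f hfJ hf0
    have hp2 := hne _ hf'J (by
      intro h
      exact hfe (sub_eq_zero.1 h).symm)
    have hfN : f * N ≠ 0 := by
      intro h0
      rw [h0, LinearMap.range_zero, finrank_bot] at hp1
      exact lt_irrefl 0 hp1
    obtain ⟨N', a1, a2, a3, a4, a5⟩ := ih _ (by omega) _ hfJ.2.2 h1 rfl hfN
    obtain ⟨⟨c', hc'⟩, d', hd'⟩ := a4
    refine ⟨N', a1, a2, a3, ⟨⟨c' * f, by rw [hc', mul_assoc]⟩, M * f * N * d', ?_⟩, a5⟩
    calc N' = f * N * d' := hd'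
      _ = (N * M * f) * N * d' := by rw [hfJ.1]
      _ = _ := by noncomm_ring
  · -- extremal case
    refine ⟨N, hN, hN2, hN0, ⟨⟨1, (one_mul _).symm⟩, 1, (mul_one _).symm⟩, ?_⟩
    have hall : ∀ a ∈ JJ g N (N * M), ∃ t : K, IsNilpotent (a - t • (N * M)) := by
      intro a ha
      -- an eigenvalue on the range of e
      let W : Submodule K V := LinearMap.range (N * M)
      have hW : W ≠ ⊥ := by
        intro h
        exact he0 (LinearMap.range_eq_bot.1 h)
      have haW : ∀ x ∈ W, a x ∈ W := by
        intro x _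
        refine ⟨a x, ?_⟩
        change (N * M * a) x = a x
        rw [ha.1]
      have : Nontrivial W := Submodule.nontrivial_iff_ne_bot.2 hW
      obtain ⟨t, ht⟩ := Module.End.exists_eigenvalue (a.restrict haW)
      obtain ⟨u, hu⟩ := ht.exists_hasEigenvector
      have hu1 : a u.1 = t • u.1 := by
        have := hu.apply_eq_smul
        exact congrArg Subtype.val this
      have hu0 : u.1 ≠ 0 := by
        intro h
        exact hu.2 (Subtype.ext h)
      have heu : (N * M) u.1 = u.1 := by
        obtain ⟨v, hv⟩ := u.2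
        rw [← hv]
        change (N * M * (N * M)) v = (N * M) v
        rw [hee]
      refine ⟨t, ?_⟩
      by_contra hnn
      have hb : a - t • (N * M) ∈ JJ g N (N * M) :=
        (JJ g N (N * M)).sub_mem ha ((JJ g N (N * M)).smul_mem t heJ)
      set b := a - t • (N * M) with hbdef
      have hbu : b u.1 = 0 := by
        rw [hbdef, LinearMap.sub_apply, LinearMap.smul_apply, heu, hu1, sub_self]
      obtain ⟨p, k, hp1, hp2⟩ := fitting b
      apply hf
      refine ⟨aeval b (X * p), JJ_aeval hg hM hN2 hb p, hp1, ?_, ?_⟩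
      · intro h
        apply hnn
        refine ⟨k, ?_⟩
        rw [← hp2, h, mul_zero]
      · intro h
        have h1 : (aeval b (X * p)) u.1 = 0 := by
          rw [mul_comm, map_mul, aeval_X]
          change (aeval b p) (b u.1) = 0
          rw [hbu, map_zero]
        rw [h, heu] at h1
        exact hu0 h1
    intro X hX
    obtain ⟨t, ht⟩ := JJ_scalar hirr htr hN0 hg hN hM hN2 hNMN hall _
      (JJ_of_mem hg hN hN2 hNMN hX)
    refine ⟨t, ?_⟩
    calc N * X * N = N * X * (N * M * N) := by rw [hNMN]
      _ = (N * X * N * M) * N := by noncomm_ring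
      _ = t • N := by rw [ht, smul_mul_assoc, hNMN]


/-- **A frame for the given involution.** -/
theorem frame_at [IsAlgClosed K] [CharZero K] [FiniteDimensional K V] [Nontrivial V]
    (h : CoreN L) {s : Module.End K V} (hs : InL L s) (hs2 : s * s = 1) :
    ∃ e f : Module.End K V, Frame L s e f := by
  obtain ⟨N, hN, hN0⟩ := Submodule.exists_mem_ne_zero_of_ne_bot (A2_ne h hs hs2)
  obtain ⟨N', a1, a2, a3, ⟨⟨c, hc⟩, d, hd⟩, a5⟩ :=
    B1_ext_aux h.lie h.irr h.tr _ N hN.1 (A2_pp hN hN) rfl hN0
  have hyN : s * N' = N' := by rw [hd, ← mul_assoc, hN.2.1]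
  have hNy : N' * s = -N' := by rw [hc, mul_assoc, hN.2.2, mul_neg]
  obtain ⟨X, hX, hNX⟩ := exists_partner h.lie h.irr h.tr a1 a2
  obtain ⟨M₁, hM₁⟩ : ∃ M₁, M₁ = (1 / 4 : K) • ((1 - s) * X * (1 + s)) := ⟨_, rfl⟩
  have hM₁g : M₁ ∈ L := by rw [hM₁]; exact L.smul_mem _ (InL.minus h.lie hs hs2 hX)
  have hyM : s * M₁ = -M₁ := by
    rw [hM₁, mul_smul_comm, ← smul_neg]
    congr 1
    calc s * ((1 - s) * X * (1 + s)) = (s - s * s) * X * (1 + s) := by noncomm_ring
      _ = _ := by rw [hs2]; noncomm_ring
  have hMy : M₁ * s = M₁ := by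
    rw [hM₁, smul_mul_assoc]
    congr 1
    calc (1 - s) * X * (1 + s) * s = (1 - s) * X * (s + s * s) := by noncomm_ring
      _ = _ := by rw [hs2, add_comm]
  have hM₁L : M₁ ∈ Lm L s := ⟨hM₁g, hyM, hMy⟩
  have hM₁2 : M₁ * M₁ = 0 := A2_mm hM₁L hM₁L
  have hNMN : N' * M₁ * N' = N' := by
    have h1 : N' * (1 - s) = (2 : K) • N' := by
      rw [mul_sub, hNy, mul_one, two_smul]; abel
    have h2 : (1 + s) * N' = (2 : K) • N' := by
      rw [add_mul, hyN, one_mul, two_smul]
    calc N' * M₁ * N' = (1 / 4 : K) • ((N' * (1 - s)) * X * ((1 + s) * N')) := by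
          rw [hM₁, mul_smul_comm, smul_mul_assoc]; congr 1
      _ = N' := by
          rw [h1, h2, smul_mul_assoc, smul_mul_assoc, mul_smul_comm, smul_smul, smul_smul, hNX]
          norm_num
  refine ⟨N', M₁ * N' * M₁, hs, hs2, ⟨a1, hyN, hNy⟩,
    ⟨h.lie.sandwich hM₁g hM₁2 a1, ?_, ?_⟩, a3, ?_, ?_, a5⟩
  · rw [← mul_assoc, ← mul_assoc, hyM]; noncomm_ring
  · rw [mul_assoc, hMy]
  · calc N' * (M₁ * N' * M₁) * N' = (N' * M₁ * N') * M₁ * N' := by noncomm_ring
      _ = N' := by rw [hNMN, hNMN]
  · calc M₁ * N' * M₁ * N' * (M₁ * N' * M₁) = M₁ * ((N' * M₁ * N') * M₁ * N') * M₁ := by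
          noncomm_ring
      _ = _ := by rw [hNMN, hNMN]

end Pool.Agent.H25U
end

-- from Lib.H25U.P1
section

/-!
# P1: a second frame
-/

set_option autoImplicit false
set_option linter.unusedSectionVars false
namespace Pool.Agent.H25U
open Module Pool.Agent.H53Toric Pool.Agent.H49M
open Pool.Agent.H86N (CoreN)

variable {K : Type*} [Field K] {V : Type*} [AddCommGroup V] [Module K V]

variable {L : Submodule K (Module.End K V)}

/-- Chunk P1. Put `e' = u f u ∈ L` (`IsLie.sandwich`), `p = e f`, `q = f e`, `p' = (1+s)/2 - p`,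
`q' = (1-s)/2 - q`. From `u = p u + u q` and `u ∈ Lp`: `u = p u q' + p' u q`, so
`e' = p' u q f p u q' = p' e' q'`. By `exists_partner` (H53Toric.Core1; traces vanish by
`(A1_setup h F.s_mem F.s_sq).tr`) there is `X ∈ L` with `e' X e' = e'`; `X' = q' X p' ∈ L`
(block component: `peirce_mem` in H53Toric.Core3 or `P0_block` with `c = (p, p', q', q)`,
`w = (3, 1, -1, -3)` : `D = s + 2 (p - q) ∈ L`; the difference `-2` occurs for `q' X p'`,
`p' X p` and `q X q'`, so first pass to the part of weight `-1` for `s`), `e' X' e' = e'`, and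
`f' = X' e' X'` satisfies `e' f' e' = e'`, `f' e' f' = f'`, `f' = q' f' p'`.
`u f' u ∈ L` equals `p (u f' u) q`, so it is `c e` (`K0_ext`), and
`e' = e' f' e' = u f (u f' u) f u = c u f e f u = c e'`, so `c = 1`: `u f' u = e`.
Extremality of `e'`: `e' X e' = u (f (u X u) f) u = c u f u`, as `f` is extremal (`K0_swap`).
Orthogonality: `e f' = e q' f' = 0` etc. `u2`: `e' f' u = u f (u f' u) = u f e = u q` and
`u f' e' = (u f' u) f u = e f u = p u`, sum `= u`. -/
theorem P1_grid [CharZero K] [IsAlgClosed K] [FiniteDimensional K V] [Nontrivial V]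
    (h : CoreN L) {s e f u : Module.End K V} (F : Frame L s e f) (hu : u ∈ J1 L s e f)
    (hu0 : u * f * u ≠ 0) : ∃ e' f' : Module.End K V, Grid L s e f e' f' u := by
  have hl := h.lie
  obtain ⟨huP, hu1⟩ := hu
  have huu : u * u = 0 := A2_pp huP huP
  have hff : f * f = 0 := A2_mm F.f_mem F.f_mem
  have hee : e * e = 0 := A2_pp F.e_mem F.e_mem
  have hset := A1_setup h F.s_mem F.s_sq
  have hFs := K0_swap hl F
  -- `p u q = 0`
  have hpuq : e * f * u * (f * e) = 0 := by
    have h1 : e * f * u * (f * e) = e * f * u * (f * e) + e * f * u * (f * e) := by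
      calc e * f * u * (f * e) = e * f * (e * f * u + u * (f * e)) * (f * e) := by rw [hu1]
        _ = (e * f * e) * f * u * (f * e) + e * f * u * ((f * e * f) * e) := by noncomm_ring
        _ = _ := by rw [F.efe, F.fef]
    have h2 : e * f * u * (f * e) + 0 = e * f * u * (f * e) + e * f * u * (f * e) := by
      rw [add_zero]; exact h1
    exact (add_left_cancel h2).symm
  have hfuf : f * u * f = 0 := by
    calc f * u * f = (f * e * f) * u * (f * e * f) := by rw [F.fef]
      _ = f * (e * f * u * (f * e)) * f := by noncomm_ring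
      _ = 0 := by rw [hpuq]; simp
  -- the element `e'`
  obtain ⟨e', he'⟩ : ∃ e', e' = u * f * u := ⟨_, rfl⟩
  have he'L : e' ∈ L := by rw [he']; exact hl.sandwich huP.1 huu F.f_mem.1
  have he's : s * e' = e' := by rw [he', ← mul_assoc, ← mul_assoc, huP.2.1]
  have hse' : e' * s = -e' := by rw [he', mul_assoc (u * f), huP.2.2, mul_neg]
  have he'P : e' ∈ Lp L s := ⟨he'L, he's, hse'⟩
  have he'e' : e' * e' = 0 := A2_pp he'P he'P
  have o3 : e' * f = 0 := by
    rw [he']
    calc u * f * u * f = u * (f * u * f) := by noncomm_ring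
      _ = 0 := by rw [hfuf, mul_zero]
  have o4 : f * e' = 0 := by
    rw [he']
    calc f * (u * f * u) = (f * u * f) * u := by noncomm_ring
      _ = 0 := by rw [hfuf, zero_mul]
  -- a partner
  obtain ⟨X, hX, hXe⟩ := exists_partner hl h.irr hset.tr he'L he'e'
  obtain ⟨a, ha, b, hb, c, hc, hXabc⟩ := A2_decomp h F.s_mem F.s_sq hX
  have hcc : c * c = 0 := A2_mm hc hc
  have hebe : e' * b * e' = 0 := by
    have h1 : e' * b * e' = -(e' * b * e') := by
      calc e' * b * e' = e' * b * (s * e') := by rw [he's]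
        _ = e' * (b * s) * e' := by noncomm_ring
        _ = e' * (s * b) * e' := by rw [hb.2]
        _ = (e' * s) * b * e' := by noncomm_ring
        _ = _ := by rw [hse']; noncomm_ring
    have h2 : (2 : K) • (e' * b * e') = 0 := by
      rw [two_smul]
      nth_rewrite 1 [h1]
      exact neg_add_cancel _
    exact (smul_eq_zero.mp h2).resolve_left two_ne_zero
  have hece : e' * c * e' = e' := by
    have h1 : e' * X * e' = e' * a * e' + e' * b * e' + e' * c * e' := by
      rw [hXabc]; noncomm_ring
    rw [hXe, A2_pp he'P ha, zero_mul, hebe, zero_add, zero_add] at h1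
    exact h1.symm
  have hfc : f * c = 0 := A2_mm F.f_mem hc
  have hcf : c * f = 0 := A2_mm hc F.f_mem
  obtain ⟨l, hlc⟩ := F.ext c hc.1
  -- the corrected partner
  obtain ⟨Y, hY⟩ : ∃ Y, Y = c - f * e * c - c * e * f + l • f := ⟨_, rfl⟩
  have hYL : Y ∈ L := by
    have h1 : Y = c + ((e * f - f * e) * c - c * (e * f - f * e)) + l • f := by
      rw [hY]
      have : (e * f - f * e) * c - c * (e * f - f * e) =
          e * (f * c) - f * e * c - c * e * f + (c * f) * e := by noncomm_ring
      rw [this, hfc, hcf]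
      noncomm_ring
    rw [h1]
    exact L.add_mem (L.add_mem hc.1 (hl _ (K0_H hl F) _ hc.1)) (L.smul_mem _ F.f_mem.1)
  have hY2 : Y = (1 - f * e) * c * (1 - e * f) := by
    have : (1 - f * e) * c * (1 - e * f) = c - f * e * c - c * e * f + f * (e * c * e) * f := by
      noncomm_ring
    rw [this, hlc, hY]
    rw [mul_smul_comm, smul_mul_assoc, F.fef]
  have hYs : s * Y = -Y := by
    rw [hY2, ← mul_assoc, ← mul_assoc]
    have : s * (1 - f * e) = (1 - f * e) * s := by
      rw [mul_sub, sub_mul, mul_one, one_mul, ← mul_assoc, F.f_mem.2.1, mul_assoc f e s,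
        F.e_mem.2.2]
      noncomm_ring
    rw [this, mul_assoc (1 - f * e) s c, hc.2.1]
    noncomm_ring
  have hsY : Y * s = Y := by
    rw [hY2, mul_assoc]
    have : (1 - e * f) * s = s * (1 - e * f) := by
      rw [mul_sub, sub_mul, mul_one, one_mul, ← mul_assoc, F.e_mem.2.1, mul_assoc e f s,
        F.f_mem.2.2]
    rw [this, ← mul_assoc, mul_assoc _ c s, hc.2.2]
  have hYm : Y ∈ Lm L s := ⟨hYL, hYs, hsY⟩
  have hYY : Y * Y = 0 := A2_mm hYm hYm
  have heYe : e' * Y * e' = e' := by
    rw [hY2]
    have : e' * ((1 - f * e) * c * (1 - e * f)) * e' = (e' - (e' * f) * e) * c *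
        (e' - e * (f * e')) := by noncomm_ring
    rw [this, o3, o4, zero_mul, mul_zero, sub_zero, hece]
  obtain ⟨f', hf'⟩ : ∃ f', f' = Y * e' * Y := ⟨_, rfl⟩
  have hf'L : f' ∈ L := by rw [hf']; exact hl.sandwich hYL hYY he'L
  have o1 : e * f' = 0 := by
    have : e * Y = 0 := by
      rw [hY2]
      calc e * ((1 - f * e) * c * (1 - e * f)) = (e - e * f * e) * c * (1 - e * f) := by
            noncomm_ring
        _ = 0 := by rw [F.efe, sub_self, zero_mul, zero_mul]
    rw [hf', ← mul_assoc, ← mul_assoc, this, zero_mul, zero_mul]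
  have o2 : f' * e = 0 := by
    have : Y * e = 0 := by
      rw [hY2]
      calc ((1 - f * e) * c * (1 - e * f)) * e = (1 - f * e) * c * (e - e * f * e) := by
            noncomm_ring
        _ = 0 := by rw [F.efe, sub_self, mul_zero]
    rw [hf', mul_assoc, this, mul_zero]
  have hf'm : f' ∈ Lm L s := ⟨hf'L, by rw [hf', ← mul_assoc, ← mul_assoc, hYs]; noncomm_ring,
    by rw [hf', mul_assoc, hsY]⟩
  have hefe' : e' * f' * e' = e' := by
    rw [hf']
    calc e' * (Y * e' * Y) * e' = (e' * Y * e') * Y * e' := by noncomm_ring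
      _ = e' := by rw [heYe, heYe]
  have hfef' : f' * e' * f' = f' := by
    rw [hf']
    calc Y * e' * Y * e' * (Y * e' * Y) = Y * ((e' * Y * e') * Y * e') * Y := by noncomm_ring
      _ = _ := by rw [heYe, heYe]
  -- `u f' u = e`
  have hufu : u * f' * u = e := by
    have hf'f : f' * f = 0 := A2_mm hf'm F.f_mem
    have hff' : f * f' = 0 := A2_mm F.f_mem hf'm
    have h1 : u * f' = e * f * u * f' := by
      calc u * f' = (e * f * u + u * (f * e)) * f' := by rw [hu1]
        _ = e * f * u * f' + u * f * (e * f') := by noncomm_ring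
        _ = _ := by rw [o1, mul_zero, add_zero]
    have h2 : f' * u = f' * u * (f * e) := by
      calc f' * u = f' * (e * f * u + u * (f * e)) := by rw [hu1]
        _ = (f' * e) * f * u + f' * u * (f * e) := by noncomm_ring
        _ = _ := by rw [o2, zero_mul, zero_mul, zero_add]
    obtain ⟨k, hk⟩ := K0_ext hl F (hl.sandwich huP.1 huu hf'L)
    have h3 : u * f' * u = k • e := by
      rw [← hk]
      calc u * f' * u = (e * f * u * f') * u := by rw [← h1]
        _ = e * f * u * (f' * u) := by noncomm_ring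
        _ = e * f * u * (f' * u * (f * e)) := by rw [← h2]
        _ = _ := by noncomm_ring
    have h4 : e' = k • e' := by
      calc e' = e' * f' * e' := hefe'.symm
        _ = u * f * (u * f' * u) * f * u := by rw [he']; noncomm_ring
        _ = k • (u * (f * e * f) * u) := by
          rw [h3]
          simp only [mul_smul_comm, smul_mul_assoc, mul_assoc]
        _ = k • e' := by rw [F.fef, ← he']
    have h5 : (k - 1) • e' = 0 := by rw [sub_smul, one_smul, ← h4, sub_self]
    have h6 : e' ≠ 0 := by rw [he']; exact hu0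
    have h7 : k = 1 := sub_eq_zero.mp ((smul_eq_zero.mp h5).resolve_right h6)
    rw [h3, h7, one_smul]
  refine ⟨e', f', F, ⟨F.s_mem, F.s_sq, he'P, hf'm, by rw [he']; exact hu0, hefe', hfef', ?_⟩,
    o1, o2, o3, o4, huP, he'.symm, hufu, hu1, ?_⟩
  · intro X hX
    obtain ⟨k, hk⟩ := hFs.ext _ (hl.sandwich huP.1 huu hX)
    refine ⟨k, ?_⟩
    rw [he']
    calc u * f * u * X * (u * f * u) = u * (f * (u * X * u) * f) * u := by noncomm_ring
      _ = k • (u * f * u) := by rw [hk, mul_smul_comm, smul_mul_assoc]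
  · calc e' * f' * u + u * (f' * e') = u * f * (u * f' * u) + (u * f' * u) * f * u := by
          rw [he']; noncomm_ring
      _ = e * f * u + u * (f * e) := by rw [hufu]; noncomm_ring
      _ = u := hu1

end Pool.Agent.H25U
end

-- from Lib.H86N.E1
section

/-!
# E1: rank one and no invariant form: the special linear algebra
-/

set_option autoImplicit false
set_option linter.unusedSectionVars false
namespace Pool.Agent.H86N
open Module Pool.Agent.H53Toric Pool.Agent.H49M

variable {K : Type*} [Field K] {V : Type*} [AddCommGroup V] [Module K V]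
variable {L : Submodule K (Module.End K V)}

/-- A rank one idempotent. -/
theorem E1_vec [FiniteDimensional K V] {p : Module.End K V} (hp : p * p = p)
    (h : finrank K (LinearMap.range p) = 1) :
    ∃ (v : V) (χ : Module.Dual K V), χ v = 1 ∧ ∀ x, p x = χ x • v := by
  obtain ⟨w, hw0, hw⟩ := finrank_eq_one_iff'.1 h
  have hpw : p (w : V) = w := by
    obtain ⟨y, hy⟩ := w.2
    rw [← hy]
    exact LinearMap.congr_fun hp y
  have hw0' : (w : V) ≠ 0 := fun h => hw0 (Subtype.ext h)
  obtain ⟨φ, hφ⟩ := Module.Projective.exists_dual_ne_zero (R := K) hw0'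
  refine ⟨w, ((φ (w : V))⁻¹ • φ) ∘ₗ p, ?_, fun x => ?_⟩
  · rw [LinearMap.comp_apply, hpw, LinearMap.smul_apply, smul_eq_mul, inv_mul_cancel₀ hφ]
  · obtain ⟨c, hc⟩ := hw ⟨p x, LinearMap.mem_range_self p x⟩
    have hc' : c • (w : V) = p x := congrArg Subtype.val hc
    rw [LinearMap.comp_apply, ← hc', LinearMap.smul_apply, map_smul, smul_eq_mul, smul_eq_mul,
      mul_comm c, inv_mul_cancel_left₀ hφ]

theorem E1_tr [FiniteDimensional K V] {p : Module.End K V} {v : V} {χ : Module.Dual K V}
    (h : ∀ x, p x = χ x • v) (X : Module.End K V) : LinearMap.trace K V (p * X) = χ (X v) := by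
  have e : p * X = (χ ∘ₗ X).smulRight v := by
    ext x
    rw [Module.End.mul_apply, h, LinearMap.smulRight_apply, LinearMap.comp_apply]
  rw [e, LinearMap.trace_smulRight, LinearMap.comp_apply]

theorem E1_sand {p : Module.End K V} {v : V} {χ : Module.Dual K V}
    (h : ∀ x, p x = χ x • v) (X : Module.End K V) : p * X * p = χ (X v) • p := by
  ext x
  rw [Module.End.mul_apply, Module.End.mul_apply, LinearMap.smul_apply, h x, map_smul, map_smul, h,
    smul_comm]

/-- The functional `tr ((e f + f e) X)` vanishes if the Peirce one parts are in duality. -/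
theorem E1_zero [CharZero K] [IsAlgClosed K] [FiniteDimensional K V] [Nontrivial V]
    (h : CoreN L) {s e f : Module.End K V} (F : Frame L s e f)
    (H : ∀ u ∈ J1 L s e f, ∀ g ∈ J1 L (-s) f e,
      LinearMap.trace K V (e * f * u * g) = LinearMap.trace K V (f * e * g * u))
    {X : Module.End K V} (hX : X ∈ L) : LinearMap.trace K V ((e * f + f * e) * X) = 0 := by
  have hee := K0_ee F
  have hff := K0_ff F
  have pp : e * f * (e * f) = e * f := by rw [← mul_assoc, F.efe]
  have qq : f * e * (f * e) = f * e := by rw [← mul_assoc, F.fef]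
  have two : (2 : K) ≠ 0 := by norm_num
  -- the main computation
  have main : ∀ X' ∈ Lp L s, ∀ Y' ∈ Lm L s,
      LinearMap.trace K V (e * f * (X' * Y')) = LinearMap.trace K V (f * e * (Y' * X')) := by
    intro X' hX' Y' hY'
    have hu := K1_comp h.lie F hX'
    have hg := K1_comp h.lie (K0_swap h.lie F) (W := Y') (by rw [K0_Lp]; exact hY')
    have h1 := H _ hu _ hg
    obtain ⟨p, hp⟩ : ∃ p, p = e * f := ⟨_, rfl⟩
    obtain ⟨q, hq⟩ : ∃ q, q = f * e := ⟨_, rfl⟩
    rw [← hp, ← hq] at h1 ⊢
    rw [← hp] at pp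
    rw [← hq] at qq
    have pq : p * q = 0 := by rw [hp, hq, mul_assoc, ← mul_assoc f, hff]; simp
    have qp : q * p = 0 := by rw [hp, hq, mul_assoc, ← mul_assoc e, hee]; simp
    have fY : f * Y' = 0 := A2_mm F.f_mem hY'
    have eX : e * X' = 0 := A2_pp F.e_mem hX'
    have pY : p * Y' = 0 := by rw [hp, mul_assoc, fY, mul_zero]
    have qX : q * X' = 0 := by rw [hq, mul_assoc, eX, mul_zero]
    -- trace of the left side
    have e1 : LinearMap.trace K V (p * (p * X' + X' * q - (2 : K) • (p * X' * q)) *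
        (q * Y' + Y' * p - (2 : K) • (q * Y' * p))) =
        LinearMap.trace K V (p * (X' * Y')) - LinearMap.trace K V (p * X' * q * Y') := by
      have a1 : p * (p * X' + X' * q - (2 : K) • (p * X' * q)) = p * X' - p * X' * q := by
        calc p * (p * X' + X' * q - (2 : K) • (p * X' * q)) =
            (p * p) * X' + p * X' * q - (2 : K) • ((p * p) * X' * q) := by
              rw [mul_sub, mul_add, mul_smul_comm]; noncomm_ring
          _ = p * X' - p * X' * q := by rw [pp]; module
      have a2 : LinearMap.trace K V ((p * X' - p * X' * q) * (q * Y' + Y' * p - (2 : K) • (q * Y' * p))) =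
          LinearMap.trace K V (((p * X' - p * X' * q) * (q * Y' + Y' * p - (2 : K) • (q * Y' * p))) * p) := by
        have a3 : (p * X' - p * X' * q) * (q * Y' + Y' * p - (2 : K) • (q * Y' * p)) =
            p * ((X' - X' * q) * (q * Y' + Y' * p - (2 : K) • (q * Y' * p))) := by noncomm_ring
        have a4 : p * ((p * X' - p * X' * q) * (q * Y' + Y' * p - (2 : K) • (q * Y' * p))) =
            (p * p) * ((X' - X' * q) * (q * Y' + Y' * p - (2 : K) • (q * Y' * p))) := by noncomm_ring
        rw [LinearMap.trace_mul_comm K _ p, a4, pp, ← a3]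
      have a5 : (p * X' - p * X' * q) * (q * Y' + Y' * p - (2 : K) • (q * Y' * p)) * p =
          p * X' * Y' * p - p * X' * q * Y' * p := by
        have b1 : (q * Y' + Y' * p - (2 : K) • (q * Y' * p)) * p = Y' * p - q * Y' * p := by
          calc (q * Y' + Y' * p - (2 : K) • (q * Y' * p)) * p =
              q * Y' * p + Y' * (p * p) - (2 : K) • (q * Y' * (p * p)) := by
                rw [sub_mul, add_mul, smul_mul_assoc]; noncomm_ring
            _ = _ := by rw [pp]; module
        rw [mul_assoc (p * X' - p * X' * q), b1]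
        calc (p * X' - p * X' * q) * (Y' * p - q * Y' * p) =
            p * X' * Y' * p - p * X' * q * Y' * p - p * X' * q * Y' * p + p * X' * (q * q) * Y' * p := by
              noncomm_ring
          _ = _ := by rw [qq]; noncomm_ring
      rw [a1, a2, a5, map_sub]
      congr 1
      · rw [LinearMap.trace_mul_comm]
        have : p * (p * X' * Y') = (p * p) * (X' * Y') := by noncomm_ring
        rw [this, pp]
      · rw [LinearMap.trace_mul_comm]
        have : p * (p * X' * q * Y') = (p * p) * X' * q * Y' := by noncomm_ring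
        rw [this, pp]
    have e2 : LinearMap.trace K V (q * (q * Y' + Y' * p - (2 : K) • (q * Y' * p)) *
        (p * X' + X' * q - (2 : K) • (p * X' * q))) =
        LinearMap.trace K V (q * (Y' * X')) - LinearMap.trace K V (q * Y' * p * X') := by
      have a1 : q * (q * Y' + Y' * p - (2 : K) • (q * Y' * p)) = q * Y' - q * Y' * p := by
        calc q * (q * Y' + Y' * p - (2 : K) • (q * Y' * p)) =
            (q * q) * Y' + q * Y' * p - (2 : K) • ((q * q) * Y' * p) := by
              rw [mul_sub, mul_add, mul_smul_comm]; noncomm_ring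
          _ = q * Y' - q * Y' * p := by rw [qq]; module
      have a2 : LinearMap.trace K V ((q * Y' - q * Y' * p) * (p * X' + X' * q - (2 : K) • (p * X' * q))) =
          LinearMap.trace K V (((q * Y' - q * Y' * p) * (p * X' + X' * q - (2 : K) • (p * X' * q))) * q) := by
        have a3 : (q * Y' - q * Y' * p) * (p * X' + X' * q - (2 : K) • (p * X' * q)) =
            q * ((Y' - Y' * p) * (p * X' + X' * q - (2 : K) • (p * X' * q))) := by noncomm_ring
        have a4 : q * ((q * Y' - q * Y' * p) * (p * X' + X' * q - (2 : K) • (p * X' * q))) =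
            (q * q) * ((Y' - Y' * p) * (p * X' + X' * q - (2 : K) • (p * X' * q))) := by noncomm_ring
        rw [LinearMap.trace_mul_comm K _ q, a4, qq, ← a3]
      have a5 : (q * Y' - q * Y' * p) * (p * X' + X' * q - (2 : K) • (p * X' * q)) * q =
          q * Y' * X' * q - q * Y' * p * X' * q := by
        have b1 : (p * X' + X' * q - (2 : K) • (p * X' * q)) * q = X' * q - p * X' * q := by
          calc (p * X' + X' * q - (2 : K) • (p * X' * q)) * q =
              p * X' * q + X' * (q * q) - (2 : K) • (p * X' * (q * q)) := by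
                rw [sub_mul, add_mul, smul_mul_assoc]; noncomm_ring
            _ = _ := by rw [qq]; module
        rw [mul_assoc (q * Y' - q * Y' * p), b1]
        calc (q * Y' - q * Y' * p) * (X' * q - p * X' * q) =
            q * Y' * X' * q - q * Y' * p * X' * q - q * Y' * p * X' * q + q * Y' * (p * p) * X' * q := by
              noncomm_ring
          _ = _ := by rw [pp]; noncomm_ring
      rw [a1, a2, a5, map_sub]
      congr 1
      · rw [LinearMap.trace_mul_comm]
        have : q * (q * Y' * X') = (q * q) * (Y' * X') := by noncomm_ring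
        rw [this, qq]
      · rw [LinearMap.trace_mul_comm]
        have : q * (q * Y' * p * X') = (q * q) * Y' * p * X' := by noncomm_ring
        rw [this, qq]
    have e3 : LinearMap.trace K V (p * X' * q * Y') = LinearMap.trace K V (q * Y' * p * X') := by
      have : p * X' * q * Y' = (p * X') * (q * Y') := by noncomm_ring
      rw [this, LinearMap.trace_mul_comm]
      congr 1
    rw [e1, e2, e3] at h1
    linear_combination h1
  -- the decomposition of X
  obtain ⟨a, ha, b, hb, c, hc, rfl⟩ := A2_decomp h F.s_mem F.s_sq hX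
  have es : e * s = -e := F.e_mem.2.2
  have se : s * e = e := F.e_mem.2.1
  have fs : f * s = f := F.f_mem.2.2
  have sf : s * f = -f := F.f_mem.2.1
  have hz : ∀ t : K, t = -t → t = 0 := by
    intro t ht
    have : (2 : K) * t = 0 := by linear_combination ht
    exact (mul_eq_zero.1 this).resolve_left two
  have ta : LinearMap.trace K V ((e * f + f * e) * a) = 0 := by
    have h1 : f * e * a = 0 := by rw [mul_assoc, A2_pp F.e_mem ha, mul_zero]
    rw [add_mul, h1, add_zero]
    apply hz
    have h2 : e * f * a = s * (e * f * a) := by rw [← mul_assoc, ← mul_assoc, se]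
    nth_rw 1 [h2]
    rw [LinearMap.trace_mul_comm, mul_assoc, ha.2.2, mul_neg, map_neg]
  have tc : LinearMap.trace K V ((e * f + f * e) * c) = 0 := by
    have h1 : e * f * c = 0 := by rw [mul_assoc, A2_mm F.f_mem hc, mul_zero]
    rw [add_mul, h1, zero_add]
    apply hz
    have h2 : f * e * c = -(s * (f * e * c)) := by rw [← mul_assoc, ← mul_assoc, sf]; noncomm_ring
    nth_rw 1 [h2]
    rw [map_neg, LinearMap.trace_mul_comm, mul_assoc, hc.2.2]
  have tb : LinearMap.trace K V ((e * f + f * e) * b) = 0 := by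
    have key : ∀ b ∈ Submodule.span K {W | ∃ X ∈ Lp L s, ∃ Y ∈ Lm L s, W = X * Y - Y * X},
        LinearMap.trace K V ((e * f + f * e) * b) = 0 := by
      intro b hb
      induction hb using Submodule.span_induction with
      | mem b hb =>
        obtain ⟨X', hX', Y', hY', rfl⟩ := hb
        have h1 : (e * f + f * e) * (X' * Y' - Y' * X') =
            e * f * (X' * Y') - f * e * (Y' * X') - e * (f * Y') * X' + f * (e * X') * Y' := by
          noncomm_ring
        rw [h1, A2_mm F.f_mem hY', A2_pp F.e_mem hX', mul_zero, mul_zero, zero_mul, zero_mul,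
          sub_zero, add_zero, map_sub, main X' hX' Y' hY', sub_self]
      | zero => rw [mul_zero, map_zero]
      | add a b _ _ ha hb => rw [mul_add, map_add, ha, hb, add_zero]
      | smul c a _ ha => rw [mul_smul_comm, map_smul, ha, smul_zero]
    exact key b (A3_span h F.s_mem F.s_sq hb)
  rw [mul_add, mul_add, map_add, map_add, ta, tb, tc, add_zero, add_zero]

/-- If the Peirce one parts are not in duality, the two halves of `u` are in `L`. -/
theorem E1_split [CharZero K] (hl : IsLie L) {s e f : Module.End K V} (F : Frame L s e f)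
    {u g : Module.End K V} (hu : u ∈ J1 L s e f) (hg : g ∈ J1 L (-s) f e) {c₁ c₂ : K}
    (h1 : e * f * u * g * (e * f) = c₁ • (e * f)) (h2 : f * e * g * u * (f * e) = c₂ • (f * e))
    (hne : c₁ ≠ c₂) : e * f * u ∈ L ∧ u * (f * e) ∈ L := by
  have hee := K0_ee F
  have hff := K0_ff F
  have hup : u ∈ Lp L s := hu.1
  have hgm : g ∈ Lm L s := by
    have := hg.1
    rwa [K0_Lp] at this
  have eu : e * u = 0 := A2_pp F.e_mem hup
  have ue : u * e = 0 := A2_pp hup F.e_mem
  have uu : u * u = 0 := A2_pp hup hup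
  have hm : u * f * u ∈ L := hl.sandwich hup.1 uu F.f_mem.1
  have h3 := hl _ (hl _ hgm.1 _ hm) _ F.e_mem.1
  have e1 : (g * (u * f * u) - u * f * u * g) * e - e * (g * (u * f * u) - u * f * u * g) =
      -(c₁ • (u * (f * e))) - c₂ • (e * f * u) := by
    have a1 : u * f * u * g * e = c₁ • (u * (f * e)) := by
      calc u * f * u * g * e = u * f * (e * f * u * g * (e * f)) * e := by
            have b1 : u * (f * e * f) * u * g * (e * f * e) = u * f * u * g * e := by
              rw [F.fef, F.efe]
            rw [← b1]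
            noncomm_ring
        _ = c₁ • (u * (f * e) * (f * e)) := by
            rw [h1, mul_smul_comm, smul_mul_assoc]
            congr 1
        _ = c₁ • (u * (f * e)) := by
            have b2 : u * (f * e) * (f * e) = u * (f * e * f) * e := by noncomm_ring
            rw [b2, F.fef, mul_assoc]
    have a2 : e * g * u * f * u = c₂ • (e * f * u) := by
      calc e * g * u * f * u = e * (f * e * g * u * (f * e)) * f * u := by
            have b1 : (e * f * e) * g * u * (f * e * f) * u = e * g * u * f * u := by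
              rw [F.fef, F.efe]
            rw [← b1]
            noncomm_ring
        _ = c₂ • (e * (f * e) * f * u) := by
            rw [h2, mul_smul_comm, smul_mul_assoc, smul_mul_assoc]
        _ = c₂ • (e * f * u) := by
            have b2 : e * (f * e) * f * u = e * (f * e * f) * u := by noncomm_ring
            rw [b2, F.fef]
    calc (g * (u * f * u) - u * f * u * g) * e - e * (g * (u * f * u) - u * f * u * g) =
        g * u * f * (u * e) - u * f * u * g * e - e * g * u * f * u + (e * u) * f * u * g := by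
          noncomm_ring
      _ = _ := by rw [ue, eu, a1, a2]; simp
  rw [e1] at h3
  have h4 : u * (f * e) = u - e * f * u := eq_sub_of_add_eq' hu.2
  have h5 : (c₁ - c₂) • (e * f * u) ∈ L := by
    have e2 : (c₁ - c₂) • (e * f * u) = (-(c₁ • (u * (f * e))) - c₂ • (e * f * u)) + c₁ • u := by
      rw [h4]
      module
    rw [e2]
    exact L.add_mem h3 (L.smul_mem _ hup.1)
  have h6 : e * f * u ∈ L := by
    have h7 := L.smul_mem (c₁ - c₂)⁻¹ h5
    rwa [smul_smul, inv_mul_cancel₀ (sub_ne_zero.2 hne), one_smul] at h7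
  refine ⟨h6, ?_⟩
  rw [h4]
  exact L.sub_mem hup.1 h6

/-- The idempotent `e f` multiplies the part of weight one. -/
theorem E1_left [CharZero K] (hl : IsLie L) {s e f : Module.End K V} (F : Frame L s e f)
    {u g : Module.End K V} (hu : u ∈ J1 L s e f) (hg : g ∈ J1 L (-s) f e) {c₂ : K}
    (h2 : f * e * g * u * (f * e) = c₂ • (f * e)) (hc : c₂ ≠ 0)
    (hu' : u * (f * e) ∈ L) (hg' : f * e * g ∈ L) {X : Module.End K V} (hX : X ∈ Lp L s) :
    e * f * X ∈ Lp L s := by
  have hee := K0_ee F
  have hff := K0_ff F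
  have hup : u ∈ Lp L s := hu.1
  have hgm : g ∈ Lm L s := by
    have := hg.1
    rwa [K0_Lp] at this
  have pp : e * f * (e * f) = e * f := by rw [← mul_assoc, F.efe]
  have qq : f * e * (f * e) = f * e := by rw [← mul_assoc, F.fef]
  have puq : e * f * u * (f * e) = 0 := by
    have h3 : e * f * (e * f * u + u * (f * e)) = e * f * u := by rw [hu.2]
    rw [mul_add, ← mul_assoc (e * f), pp, ← mul_assoc (e * f)] at h3
    exact left_eq_add.1 h3.symm
  have qgp : f * e * g * (e * f) = 0 := by
    have h3 : f * e * (f * e * g + g * (e * f)) = f * e * g := by rw [hg.2]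
    rw [mul_add, ← mul_assoc (f * e), qq, ← mul_assoc (f * e)] at h3
    exact left_eq_add.1 h3.symm
  -- the two operators of weight zero
  have m1 : u * f ∈ L := by
    have h3 := hl _ hu' _ F.f_mem.1
    have e1 : u * (f * e) * f - f * (u * (f * e)) = u * (f * e * f) - f * (e * f * u * (f * e)) := by
      have b : f * (u * (f * e)) = (f * e * f) * (u * (f * e)) := by
        rw [F.fef]
      rw [b]
      noncomm_ring
    rw [e1, F.fef, puq, mul_zero, sub_zero] at h3
    exact h3
  have m2 : e * g ∈ L := by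
    have h3 := hl _ F.e_mem.1 _ hg'
    have e1 : e * (f * e * g) - f * e * g * e = (e * f * e) * g - (f * e * g * (e * f)) * e := by
      have b : f * e * g * e = f * e * g * (e * f * e) := by rw [F.efe]
      rw [b]
      noncomm_ring
    rw [e1, F.efe, qgp, zero_mul, sub_zero] at h3
    exact h3
  have Xu : X * u = 0 := A2_pp hX hup
  have n1 : u * f * X ∈ L := by
    have h3 := hl _ m1 _ hX.1
    have e1 : u * f * X - X * (u * f) = u * f * X := by
      rw [← mul_assoc, Xu, zero_mul, sub_zero]
    rwa [e1] at h3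
  have n2 : e * g * (u * f * X) ∈ L := by
    have h3 := hl _ m2 _ n1
    have e1 : e * g * (u * f * X) - u * f * X * (e * g) = e * g * (u * f * X) := by
      have b : u * f * X * (e * g) = u * f * (X * e) * g := by noncomm_ring
      rw [b, A2_pp hX F.e_mem, mul_zero, zero_mul, sub_zero]
    rwa [e1] at h3
  have e2 : e * g * (u * f * X) = c₂ • (e * f * X) := by
    calc e * g * (u * f * X) = e * (f * e * g * u * (f * e)) * f * X := by
          have b : (e * f * e) * g * u * (f * e * f) * X = e * g * (u * f * X) := by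
            rw [F.efe, F.fef]
            noncomm_ring
          rw [← b]
          noncomm_ring
      _ = c₂ • (e * (f * e * f) * X) := by
          rw [h2, mul_smul_comm, smul_mul_assoc, smul_mul_assoc]
          congr 1
      _ = c₂ • (e * f * X) := by rw [F.fef]
  rw [e2] at n2
  have n3 : e * f * X ∈ L := by
    have h7 := L.smul_mem c₂⁻¹ n2
    rwa [smul_smul, inv_mul_cancel₀ hc, one_smul] at h7
  refine ⟨n3, ?_, ?_⟩
  · rw [← mul_assoc, ← mul_assoc, F.e_mem.2.1]
  · rw [mul_assoc, hX.2.2, mul_neg]

/-- If `e f` multiplies the part of weight one, this part is everything. -/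
theorem E1_full [CharZero K] [IsAlgClosed K] [FiniteDimensional K V] [Nontrivial V]
    (h : CoreN L) {s e f : Module.End K V} (F : Frame L s e f)
    {v₁ : V} {χ : Module.Dual K V} (hχ : χ v₁ = 1) (hp : ∀ x, (e * f) x = χ x • v₁)
    (hL : ∀ X ∈ Lp L s, e * f * X ∈ Lp L s) {T : Module.End K V} (hT : s * T = T)
    (hT' : T * s = -T) : T ∈ Lp L s := by
  have pv : (e * f) v₁ = v₁ := by rw [hp, hχ, one_smul]
  have sp : s * (e * f) = e * f := by rw [← mul_assoc, F.e_mem.2.1]
  have ps : e * f * s = e * f := by rw [mul_assoc, F.f_mem.2.2]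
  have sv : s v₁ = v₁ := by
    have := LinearMap.congr_fun sp v₁
    rwa [Module.End.mul_apply, pv] at this
  have hv0 : v₁ ≠ 0 := by
    rintro rfl
    rw [map_zero] at hχ
    exact zero_ne_one hχ
  have χs : ∀ x, χ (s x) = χ x := by
    intro x
    have h1 := LinearMap.congr_fun ps x
    rw [Module.End.mul_apply, hp, hp] at h1
    have h2 := congrArg χ h1
    rwa [map_smul, map_smul, hχ, smul_eq_mul, smul_eq_mul, mul_one, mul_one] at h2
  -- the multipliers
  let W : Submodule K V :=
    { carrier := {a | s a = a ∧ ∀ X ∈ Lp L s, (χ.smulRight a : Module.End K V) * X ∈ Lp L s}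
      add_mem' := by
        rintro a b ⟨h1, h2⟩ ⟨h3, h4⟩
        refine ⟨by rw [map_add, h1, h3], fun X hX => ?_⟩
        have e1 : (χ.smulRight (a + b) : Module.End K V) = χ.smulRight a + χ.smulRight b := by
          ext x
          simp
        rw [e1, add_mul]
        exact (Lp L s).add_mem (h2 X hX) (h4 X hX)
      zero_mem' := by
        refine ⟨map_zero s, fun X hX => ?_⟩
        have e1 : (χ.smulRight (0 : V) : Module.End K V) = 0 := by
          ext x
          simp
        rw [e1, zero_mul]
        exact (Lp L s).zero_mem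
      smul_mem' := by
        rintro c a ⟨h1, h2⟩
        refine ⟨by rw [map_smul, h1], fun X hX => ?_⟩
        have e1 : (χ.smulRight (c • a) : Module.End K V) = c • χ.smulRight a := by
          ext x
          rw [LinearMap.smulRight_apply, LinearMap.smul_apply, LinearMap.smulRight_apply, smul_comm]
        rw [e1, smul_mul_assoc]
        exact (Lp L s).smul_mem _ (h2 X hX) }
  have hpe : (e * f : Module.End K V) = χ.smulRight v₁ := by
    ext x
    rw [hp, LinearMap.smulRight_apply]
  have hW1 : v₁ ∈ W := ⟨sv, fun X hX => by rw [← hpe]; exact hL X hX⟩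
  have hWst : ∀ Z ∈ L0 L s, ∀ w ∈ W, Z w ∈ W := by
    rintro Z hZ a ⟨h1, h2⟩
    refine ⟨?_, fun X hX => ?_⟩
    · have := LinearMap.congr_fun hZ.2 a
      rw [Module.End.mul_apply, Module.End.mul_apply, h1] at this
      exact this
    · -- `(Z a) χ = (Z (a χ) - (a χ) Z) p + χ(Z v₁) a χ`
      have h3 : e * f * X ∈ Lp L s := hL X hX
      have h4 := A3_0p h hZ (h2 _ h3)
      have h5 := h2 _ (A3_0p h hZ h3)
      have e1 : (χ.smulRight (Z a) : Module.End K V) * X =
          (Z * (χ.smulRight a * (e * f * X)) - χ.smulRight a * (e * f * X) * Z) -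
            χ.smulRight a * (Z * (e * f * X) - e * f * X * Z) +
            χ (Z v₁) • (χ.smulRight a * X) := by
        ext x
        simp only [Module.End.mul_apply, LinearMap.add_apply, LinearMap.sub_apply, LinearMap.smul_apply,
          LinearMap.smulRight_apply, map_sub, map_smul]
        have hp' : ∀ x, e (f x) = χ x • v₁ := hp
        simp only [hp', map_smul, hχ, smul_eq_mul, mul_one, smul_smul]
        module
      rw [e1]
      exact (Lp L s).add_mem ((Lp L s).sub_mem h4 h5) ((Lp L s).smul_mem _ (h2 X hX))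
  have hWall : ∀ a, s a = a → a ∈ W := fun a ha =>
    A3_vec h F.s_mem F.s_sq (W := W) (fun w hw => hw.1) (fun h0 => hv0 (by
      rw [h0] at hW1
      exact (Submodule.mem_bot K).1 hW1)) hWst ha
  -- the covectors
  let Ψ : Submodule K (Module.Dual K V) :=
    { carrier := {ψ | ∀ a, s a = a → (ψ.smulRight a : Module.End K V) ∈ Lp L s}
      add_mem' := by
        intro ψ ψ' h1 h2 a ha
        have e1 : ((ψ + ψ').smulRight a : Module.End K V) = ψ.smulRight a + ψ'.smulRight a := by
          ext x
          simp [add_smul]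
        rw [e1]
        exact (Lp L s).add_mem (h1 a ha) (h2 a ha)
      zero_mem' := by
        intro a ha
        have e1 : ((0 : Module.Dual K V).smulRight a : Module.End K V) = 0 := by
          ext x
          simp
        rw [e1]
        exact (Lp L s).zero_mem
      smul_mem' := by
        intro c ψ h1 a ha
        have e1 : ((c • ψ).smulRight a : Module.End K V) = c • ψ.smulRight a := by
          ext x
          simp [smul_smul]
        rw [e1]
        exact (Lp L s).smul_mem _ (h1 a ha) }
  have hΨs : ∀ ψ ∈ Ψ, ∀ x, ψ (s x) = -ψ x := by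
    intro ψ hψ x
    have h1 := LinearMap.congr_fun (hψ v₁ sv).2.2 x
    rw [Module.End.mul_apply, LinearMap.neg_apply, LinearMap.smulRight_apply,
      LinearMap.smulRight_apply] at h1
    have h2 := congrArg χ h1
    rwa [map_neg, map_smul, map_smul, hχ, smul_eq_mul, smul_eq_mul, mul_one, mul_one] at h2
  have hΨ1 : χ ∘ₗ e ∈ Ψ := by
    intro a ha
    have e1 : ((χ ∘ₗ e).smulRight a : Module.End K V) = χ.smulRight a * e := by
      ext x
      simp
    rw [e1]
    exact (hWall a ha).2 e F.e_mem
  have hΨst : ∀ Z ∈ L0 L s, ∀ ψ ∈ Ψ, ψ ∘ₗ Z ∈ Ψ := by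
    intro Z hZ ψ hψ a ha
    have h1 := A3_0p h hZ (hψ a ha)
    have ha' : s (Z a) = Z a := by
      have := LinearMap.congr_fun hZ.2 a
      rw [Module.End.mul_apply, Module.End.mul_apply, ha] at this
      exact this
    have h2 := hψ _ ha'
    have e1 : ((ψ ∘ₗ Z).smulRight a : Module.End K V) = ψ.smulRight (Z a) -
        (Z * ψ.smulRight a - ψ.smulRight a * Z) := by
      ext x
      simp
    rw [e1]
    exact (Lp L s).sub_mem h2 h1
  have hN : ∀ v, s v = -v → (∀ ψ ∈ Ψ, ψ v = 0) → v = 0 := by
    let N : Submodule K V :=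
      { carrier := {v | s v = -v ∧ ∀ ψ ∈ Ψ, ψ v = 0}
        add_mem' := by
          rintro a b ⟨h1, h2⟩ ⟨h3, h4⟩
          exact ⟨by rw [map_add, h1, h3]; abel, fun ψ hψ => by rw [map_add, h2 ψ hψ, h4 ψ hψ, add_zero]⟩
        zero_mem' := ⟨by simp, fun ψ _ => map_zero ψ⟩
        smul_mem' := by
          rintro c a ⟨h1, h2⟩
          exact ⟨by rw [map_smul, h1, smul_neg], fun ψ hψ => by rw [map_smul, h2 ψ hψ, smul_zero]⟩ }
    by_contra hcon
    push Not at hcon
    obtain ⟨v, hv1, hv2, hv3⟩ := hcon
    have hN0 : N ≠ ⊥ := by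
      intro h0
      have : v ∈ N := ⟨hv1, hv2⟩
      rw [h0] at this
      exact hv3 ((Submodule.mem_bot K).1 this)
    have hall : ∀ w, (-s) w = w → w ∈ N := fun w hw =>
      A3_vec h (L.neg_mem F.s_mem) (by rw [neg_mul_neg, F.s_sq]) (W := N)
        (fun w hw => by rw [LinearMap.neg_apply, hw.1, neg_neg]) hN0
        (fun Z hZ w hw => by
          rw [K0_L0] at hZ
          refine ⟨?_, fun ψ hψ => hw.2 _ (hΨst Z hZ ψ hψ)⟩
          have := LinearMap.congr_fun hZ.2 w
          rw [Module.End.mul_apply, Module.End.mul_apply, hw.1, map_neg] at this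
          exact this) hw
    have hf : (-s) (f v₁) = f v₁ := by
      have := LinearMap.congr_fun F.f_mem.2.1 v₁
      rw [Module.End.mul_apply, LinearMap.neg_apply] at this
      rw [LinearMap.neg_apply, this, neg_neg]
    have h1 := (hall _ hf).2 _ hΨ1
    rw [LinearMap.comp_apply] at h1
    have h2 : e (f v₁) = v₁ := pv
    rw [h2, hχ] at h1
    exact one_ne_zero h1
  have hΨall : ∀ ψ : Module.Dual K V, (∀ x, ψ (s x) = -ψ x) → ψ ∈ Ψ := by
    intro ψ hψ
    rw [← Subspace.dualCoannihilator_dualAnnihilator_eq (K := K) (V := V) (W := Ψ),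
      Submodule.mem_dualAnnihilator]
    intro v hv
    rw [Submodule.mem_dualCoannihilator] at hv
    have h1 : v - s v = 0 := by
      refine hN _ ?_ fun φ hφ => ?_
      · rw [map_sub]
        have : s (s v) = v := LinearMap.congr_fun F.s_sq v
        rw [this]
        abel
      · rw [map_sub, hΨs φ hφ, hv φ hφ]
        simp
    have h2 := hψ v
    rw [← sub_eq_zero.1 h1] at h2
    have h3 : (2 : K) * ψ v = 0 := by linear_combination h2
    exact (mul_eq_zero.1 h3).resolve_left (by norm_num)
  -- the assembly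
  let b := Module.finBasis K V
  have e1 : T = ∑ i, ((b.coord i) ∘ₗ T).smulRight ((1 / 2 : K) • (b i + s (b i))) := by
    ext x
    have h1 : T x = ∑ i, b.repr (T x) i • b i := (b.sum_repr (T x)).symm
    have h2 : s (T x) = T x := LinearMap.congr_fun hT x
    have h3 : T x = (1 / 2 : K) • (T x + s (T x)) := by
      rw [h2, ← two_smul K (T x), smul_smul]
      norm_num
    have h4 : T x + s (T x) = ∑ i, b.repr (T x) i • (b i + s (b i)) := by
      nth_rw 1 2 [h1]
      rw [map_sum, ← Finset.sum_add_distrib]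
      refine Finset.sum_congr rfl fun i _ => ?_
      rw [map_smul, smul_add]
    rw [LinearMap.sum_apply]
    nth_rw 1 [h3]
    rw [h4, Finset.smul_sum]
    refine Finset.sum_congr rfl fun i _ => ?_
    rw [LinearMap.smulRight_apply, LinearMap.comp_apply, Module.Basis.coord_apply, smul_comm]
  rw [e1]
  refine Submodule.sum_mem _ fun i _ => hΨall _ (fun x => ?_) _ ?_
  · rw [LinearMap.comp_apply, LinearMap.comp_apply, ← map_neg]
    congr 1
    exact LinearMap.congr_fun hT' x
  · have : s (s (b i)) = b i := LinearMap.congr_fun F.s_sq (b i)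
    rw [map_smul, map_add, this, add_comm]

theorem E1_nd {D : Module.End K V} [FiniteDimensional K V]
    (hD : ∀ T : Module.End K V, LinearMap.trace K V (D * T) = 0) : D = 0 := by
  ext w
  by_contra hne
  obtain ⟨φ, hφ⟩ := Module.Projective.exists_dual_ne_zero (R := K) hne
  apply hφ
  have h1 := hD (φ.smulRight w)
  have e : D * (φ.smulRight w : Module.End K V) = φ.smulRight (D w) := by
    ext x
    rw [Module.End.mul_apply, LinearMap.smulRight_apply, LinearMap.smulRight_apply, map_smul]
  rw [e, LinearMap.trace_smulRight] at h1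
  exact h1

/-- If the part of weight one is everything, so is the part of weight minus one. -/
theorem E1_dual [CharZero K] [IsAlgClosed K] [FiniteDimensional K V] [Nontrivial V]
    (h : CoreN L) {s : Module.End K V} (hs : s ∈ L) (hs2 : s * s = 1)
    (hfull : ∀ T : Module.End K V, s * T = T → T * s = -T → T ∈ L)
    {Y : Module.End K V} (hY : s * Y = -Y) (hY' : Y * s = Y) : Y ∈ L := by
  let φ : L →ₗ[K] K := (LinearMap.trace K V) ∘ₗ (LinearMap.mulLeft K Y) ∘ₗ L.subtype
  obtain ⟨Z, hZ, hφ⟩ := exists_trace_repr h.lie h.irr h.tr φ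
  have hφ' : ∀ X ∈ L, LinearMap.trace K V (Y * X) = LinearMap.trace K V (Z * X) :=
    fun X hX => hφ ⟨X, hX⟩
  obtain ⟨a, ha, b, hb, c, hc, rfl⟩ := A2_decomp h hs hs2 hZ
  have key : Y - c = 0 := by
    apply E1_nd
    intro T
    obtain ⟨A, hA⟩ : ∃ A, A = (1 / 4 : K) • ((1 + s) * T * (1 - s)) := ⟨_, rfl⟩
    have sA : s * A = A := by
      rw [hA, mul_smul_comm]
      congr 1
      have : s * ((1 + s) * T * (1 - s)) = (s + s * s) * T * (1 - s) := by noncomm_ring
      rw [this, hs2, add_comm s 1]
    have As : A * s = -A := by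
      rw [hA, smul_mul_assoc, ← smul_neg]
      congr 1
      have : (1 + s) * T * (1 - s) * s = (1 + s) * T * (s - s * s) := by noncomm_ring
      rw [this, hs2]
      noncomm_ring
    have hAL : A ∈ L := hfull A sA As
    have hAp : A ∈ Lp L s := ⟨hAL, sA, As⟩
    have h1 : LinearMap.trace K V ((Y - c) * T) = LinearMap.trace K V ((Y - c) * A) := by
      obtain ⟨D, hD⟩ : ∃ D, D = Y - c := ⟨_, rfl⟩
      have sD : s * D = -D := by rw [hD, mul_sub, hY, hc.2.1]; abel
      have Ds : D * s = D := by rw [hD, sub_mul, hY', hc.2.2]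
      rw [← hD, hA, mul_smul_comm, map_smul]
      have e1 : D * ((1 + s) * T * (1 - s)) = (D + D * s) * T * (1 - s) := by noncomm_ring
      rw [e1, Ds, LinearMap.trace_mul_comm K ((D + D) * T) (1 - s)]
      have e2 : (1 - s) * ((D + D) * T) = (D + D - (s * D + s * D)) * T := by noncomm_ring
      rw [e2, sD]
      have e3 : (D + D - (-D + -D)) * T = (4 : K) • (D * T) := by
        have : (D + D - (-D + -D)) = (4 : K) • D := by module
        rw [this, smul_mul_assoc]
      rw [e3, map_smul, smul_eq_mul, smul_eq_mul]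
      ring
    rw [h1, sub_mul, map_sub, hφ' A hAL, add_mul, add_mul, map_add, map_add, A2_pp ha hAp, map_zero]
    have h2 : LinearMap.trace K V (b * A) = 0 := by
      have h3 : LinearMap.trace K V (b * A) = -LinearMap.trace K V (b * A) := by
        nth_rw 1 [← sA]
        rw [← mul_assoc, ← hb.2, mul_assoc, LinearMap.trace_mul_comm, mul_assoc, As, mul_neg, map_neg]
      have : (2 : K) * LinearMap.trace K V (b * A) = 0 := by linear_combination h3
      exact (mul_eq_zero.1 this).resolve_left (by norm_num)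
    rw [h2]
    ring
  rw [sub_eq_zero.1 key]
  exact hc.1

/-- If both parts are everything, `L` is the special linear algebra. -/
theorem E1_end [CharZero K] [IsAlgClosed K] [FiniteDimensional K V] [Nontrivial V]
    (h : CoreN L) {s : Module.End K V} (hs2 : s * s = 1)
    (h1 : ∀ T : Module.End K V, s * T = T → T * s = -T → T ∈ L)
    (h2 : ∀ T : Module.End K V, s * T = -T → T * s = T → T ∈ L)
    {v w : V} (hv : v ≠ 0) (hsv : s v = v) (hw : w ≠ 0) (hsw : s w = -w)
    {X : Module.End K V} (hX : LinearMap.trace K V X = 0) : X ∈ L := by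
  let φ : L →ₗ[K] K := (LinearMap.trace K V) ∘ₗ (LinearMap.mulLeft K X) ∘ₗ L.subtype
  obtain ⟨Z, hZ, hφ⟩ := exists_trace_repr h.lie h.irr h.tr φ
  obtain ⟨D, hD⟩ : ∃ D, D = X - Z := ⟨_, rfl⟩
  have hDL : ∀ Y ∈ L, LinearMap.trace K V (D * Y) = 0 := by
    intro Y hY
    have h3 : LinearMap.trace K V (X * Y) = LinearMap.trace K V (Z * Y) := hφ ⟨Y, hY⟩
    rw [hD, sub_mul, map_sub, h3, sub_self]
  obtain ⟨P, hP⟩ : ∃ P, P = (1 / 2 : K) • (1 + s) := ⟨_, rfl⟩
  obtain ⟨Q, hQ⟩ : ∃ Q, Q = (1 / 2 : K) • (1 - s) := ⟨_, rfl⟩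
  have PQ : P + Q = 1 := by rw [hP, hQ]; module
  have sP : s * P = P := by rw [hP, mul_smul_comm, mul_add, hs2, mul_one, add_comm]
  have Ps : P * s = P := by rw [hP, smul_mul_assoc, add_mul, hs2, one_mul, add_comm]
  have sQ : s * Q = -Q := by rw [hQ, mul_smul_comm, mul_sub, hs2, mul_one, ← smul_neg, neg_sub]
  have Qs : Q * s = -Q := by rw [hQ, smul_mul_assoc, sub_mul, hs2, one_mul, ← smul_neg, neg_sub]
  have PP : P * P = P := by
    nth_rw 1 [hP]
    rw [smul_mul_assoc, add_mul, one_mul, sP, ← two_smul K P, smul_smul]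
    norm_num
  have QQ : Q * Q = Q := by
    nth_rw 1 [hQ]
    rw [smul_mul_assoc, sub_mul, one_mul, sQ, sub_neg_eq_add, ← two_smul K Q, smul_smul]
    norm_num
  have mA : ∀ T : Module.End K V, P * T * Q ∈ L := fun T => h1 _ (by
    rw [← mul_assoc, ← mul_assoc, sP]) (by rw [mul_assoc, Qs, mul_neg])
  have mB : ∀ T : Module.End K V, Q * T * P ∈ L := fun T => h2 _ (by
    rw [← mul_assoc, ← mul_assoc, sQ, neg_mul, neg_mul]) (by rw [mul_assoc, Ps])
  have d1 : Q * D * P = 0 := by
    apply E1_nd
    intro T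
    have e : Q * D * P * T = Q * (D * P * T) := by noncomm_ring
    rw [e, LinearMap.trace_mul_comm]
    have e' : D * P * T * Q = D * (P * T * Q) := by noncomm_ring
    rw [e']
    exact hDL _ (mA T)
  have d2 : P * D * Q = 0 := by
    apply E1_nd
    intro T
    have e : P * D * Q * T = P * (D * Q * T) := by noncomm_ring
    rw [e, LinearMap.trace_mul_comm]
    have e' : D * Q * T * P = D * (Q * T * P) := by noncomm_ring
    rw [e']
    exact hDL _ (mB T)
  have d3 : ∀ T : Module.End K V, P * D * P * T * Q = P * T * Q * D * Q := by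
    intro T
    rw [← sub_eq_zero]
    apply E1_nd
    intro S
    have h3 := hDL _ (h.lie _ (mA T) _ (mB S))
    have e1 : D * (P * T * Q * (Q * S * P) - Q * S * P * (P * T * Q)) =
        D * P * T * (Q * Q) * S * P - (D * Q * S) * ((P * P) * T * Q) := by noncomm_ring
    rw [e1, QQ, PP, map_sub] at h3
    have e2 : LinearMap.trace K V (D * P * T * Q * S * P) =
        LinearMap.trace K V (P * D * P * T * Q * S) := by
      rw [LinearMap.trace_mul_comm]
      congr 1
    have e3 : LinearMap.trace K V (D * Q * S * (P * T * Q)) =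
        LinearMap.trace K V (P * T * Q * D * Q * S) := by
      rw [LinearMap.trace_mul_comm]
      congr 1
    rw [e2, e3] at h3
    rw [sub_mul, map_sub]
    exact h3
  have Pv : P v = v := by
    rw [hP, LinearMap.smul_apply, LinearMap.add_apply, Module.End.one_apply, hsv, ← two_smul K v,
      smul_smul]
    norm_num
  have Qw : Q w = w := by
    rw [hQ, LinearMap.smul_apply, LinearMap.sub_apply, Module.End.one_apply, hsw, sub_neg_eq_add,
      ← two_smul K w, smul_smul]
    norm_num
  obtain ⟨ψ, hψ⟩ := Module.Projective.exists_dual_ne_zero (R := K) hw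
  obtain ⟨c, hc⟩ : ∃ c, c = (ψ w)⁻¹ * ψ (Q (D (Q w))) := ⟨_, rfl⟩
  have d4 : ∀ x, P (D (P x)) = c • P x := by
    intro x
    have h3 := LinearMap.congr_fun (d3 (ψ.smulRight x)) w
    simp only [Module.End.mul_apply, LinearMap.smulRight_apply, map_smul] at h3
    rw [Qw] at h3
    have h4 := congrArg (fun t => (ψ w)⁻¹ • t) h3
    simp only [smul_smul, inv_mul_cancel₀ hψ, one_smul] at h4
    rw [h4, hc, Qw]
  have d5 : ∀ x, Q (D (Q x)) = c • Q x := by
    intro x
    rw [← sub_eq_zero]
    by_contra hne
    obtain ⟨φ, hφ⟩ := Module.Projective.exists_dual_ne_zero (R := K) hne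
    apply hφ
    have h3 := LinearMap.congr_fun (d3 (φ.smulRight v)) x
    simp only [Module.End.mul_apply, LinearMap.smulRight_apply, map_smul] at h3
    rw [d4, Pv, smul_smul, ← sub_eq_zero, ← sub_smul] at h3
    have h4 := (smul_eq_zero.1 h3).resolve_right hv
    rw [map_sub, map_smul, smul_eq_mul]
    linear_combination -h4
  have d6 : D = c • 1 := by
    ext x
    have e1 : D x = P (D (P x)) + P (D (Q x)) + (Q (D (P x)) + Q (D (Q x))) := by
      have h3 : ∀ y, P y + Q y = y := fun y => LinearMap.congr_fun PQ y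
      rw [← map_add P, ← map_add Q, ← map_add D, h3, h3]
    have e2 : P (D (Q x)) = 0 := LinearMap.congr_fun d2 x
    have e3 : Q (D (P x)) = 0 := LinearMap.congr_fun d1 x
    rw [e1, e2, e3, d4, d5, add_zero, zero_add, ← smul_add, LinearMap.smul_apply, Module.End.one_apply]
    congr 1
    exact LinearMap.congr_fun PQ x
  have d7 : LinearMap.trace K V D = 0 := by rw [hD, map_sub, hX, h.tr Z hZ, sub_zero]
  rw [d6, map_smul, LinearMap.trace_one, smul_eq_mul] at d7
  have hn : (finrank K V : K) ≠ 0 := by
    rw [Nat.cast_ne_zero]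
    exact (Module.finrank_pos (R := K) (M := V)).ne'
  have hc0 : c = 0 := (mul_eq_zero.1 d7).resolve_right hn
  rw [hc0, zero_smul] at d6
  rw [d6] at hD
  rw [sub_eq_zero.1 hD.symm]
  exact hZ

/-- If the extremal element has rank one and there is no invariant bilinear form, `L` is `sl(V)`. -/
theorem full_sl [CharZero K] [IsAlgClosed K] [FiniteDimensional K V] [Nontrivial V]
    (h : CoreN L) {s e f : Module.End K V} (F : Frame L s e f) (hr : finrank K (LinearMap.range e) = 1)
    (hNS : ∀ B : V →ₗ[K] V →ₗ[K] K, (∀ X ∈ L, ∀ v w, B (X v) w + B v (X w) = 0) → B = 0)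
    {X : Module.End K V} (hX : LinearMap.trace K V X = 0) : X ∈ L := by
  have F' := K0_swap h.lie F
  have hr' : finrank K (LinearMap.range f) = 1 := by rw [(K0_rank F).2.1, hr]
  have pp : e * f * (e * f) = e * f := by rw [← mul_assoc, F.efe]
  have qq : f * e * (f * e) = f * e := by rw [← mul_assoc, F.fef]
  obtain ⟨v, χ, hχ, hp⟩ := E1_vec pp (by rw [(K0_rank F).1, hr])
  obtain ⟨w, φ, hφ, hq⟩ := E1_vec qq (by rw [(K0_rank F').1, hr'])
  have hv : v ≠ 0 := by
    rintro rfl
    rw [map_zero] at hχ
    exact zero_ne_one hχ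
  have hw : w ≠ 0 := by
    rintro rfl
    rw [map_zero] at hφ
    exact zero_ne_one hφ
  have pv : (e * f) v = v := by rw [hp, hχ, one_smul]
  have qw : (f * e) w = w := by rw [hq, hφ, one_smul]
  have sv : s v = v := by
    have h1 : s * (e * f) = e * f := by rw [← mul_assoc, F.e_mem.2.1]
    have := LinearMap.congr_fun h1 v
    rwa [Module.End.mul_apply, pv] at this
  have sw : s w = -w := by
    have h1 : s * (f * e) = -(f * e) := by rw [← mul_assoc, F.f_mem.2.1, neg_mul]
    have := LinearMap.congr_fun h1 w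
    rwa [Module.End.mul_apply, LinearMap.neg_apply, qw] at this
  -- a failing pair
  have hex : ∃ u ∈ J1 L s e f, ∃ g ∈ J1 L (-s) f e, χ (u (g v)) ≠ φ (g (u w)) := by
    by_contra hcon
    push Not at hcon
    have hz := fun X (hX : X ∈ L) => E1_zero h F (fun u hu g hg => by
      rw [mul_assoc (e * f), mul_assoc (f * e), E1_tr hp, E1_tr hq]
      exact hcon u hu g hg) hX
    let β : V →ₗ[K] V →ₗ[K] K := χ.smulRight φ
    have hβ : ∀ x y, β x y = χ x * φ y := fun x y => rfl
    have χp : ∀ x, χ (e (f x)) = χ x := by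
      intro x
      have := hp x
      rw [Module.End.mul_apply] at this
      rw [this, map_smul, hχ, smul_eq_mul, mul_one]
    have φq : ∀ x, φ (f (e x)) = φ x := by
      intro x
      have := hq x
      rw [Module.End.mul_apply] at this
      rw [this, map_smul, hφ, smul_eq_mul, mul_one]
    obtain ⟨B, hB1, hB2⟩ := exists_form h F β (fun x y => by rw [hβ, hβ, χp])
      (fun x y => by rw [hβ, hβ, φq]) (fun X hX x y => by
        have h1 := hz X hX
        rw [add_mul, map_add, E1_tr hp, E1_tr hq] at h1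
        have e1 : e (f x) = χ x • v := hp x
        have e2 : f (e y) = φ y • w := hq y
        rw [hβ, hβ, e1, e2, map_smul, map_smul, map_smul, map_smul, smul_eq_mul, smul_eq_mul]
        linear_combination (χ x * φ y) * h1)
    have h1 := hNS B hB2
    have h2 := hB1 v w
    rw [h1, hβ, hχ, hφ] at h2
    simp at h2
  obtain ⟨u, hu, g, hg, hne⟩ := hex
  have c1 : e * f * u * g * (e * f) = χ (u (g v)) • (e * f) := by
    rw [mul_assoc (e * f) u g, E1_sand hp]
    rfl
  have c2 : f * e * g * u * (f * e) = φ (g (u w)) • (f * e) := by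
    rw [mul_assoc (f * e) g u, E1_sand hq]
    rfl
  obtain ⟨u1, u2⟩ := E1_split h.lie F hu hg c1 c2 hne
  have hu' : u ∈ J1 L (-(-s)) e f := by rw [neg_neg]; exact hu
  obtain ⟨g1, g2⟩ := E1_split h.lie F' hg hu' c2 c1 hne.symm
  by_cases hc : φ (g (u w)) = 0
  · have hc' : χ (u (g v)) ≠ 0 := fun h0 => hne (by rw [h0, hc])
    have h3 : ∀ X ∈ Lp L (-s), f * e * X ∈ Lp L (-s) := fun X hX =>
      E1_left h.lie F' hg hu' c1 hc' g2 u1 hX
    have h4 : ∀ T : Module.End K V, s * T = -T → T * s = T → T ∈ L := fun T hT hT' =>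
      (E1_full h F' hφ hq h3 (T := T) (by rw [neg_mul, hT, neg_neg]) (by rw [mul_neg, hT'])).1
    have h5 : ∀ T : Module.End K V, s * T = T → T * s = -T → T ∈ L := fun T hT hT' =>
      E1_dual h (L.neg_mem F.s_mem) (by rw [neg_mul_neg, F.s_sq])
        (fun T hT hT' => h4 T (by rw [neg_mul] at hT; exact neg_eq_iff_eq_neg.1 hT)
          (by rw [mul_neg] at hT'; exact neg_inj.1 hT'))
        (by rw [neg_mul, hT]) (by rw [mul_neg, hT', neg_neg])
    exact E1_end h F.s_sq h5 h4 hv sv hw sw hX
  · have h3 : ∀ X ∈ Lp L s, e * f * X ∈ Lp L s := fun X hX => E1_left h.lie F hu hg c2 hc u2 g1 hX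
    have h4 : ∀ T : Module.End K V, s * T = T → T * s = -T → T ∈ L := fun T hT hT' =>
      (E1_full h F hχ hp h3 hT hT').1
    exact E1_end h F.s_sq h4 (fun T hT hT' => E1_dual h F.s_mem F.s_sq h4 hT hT') hv sv hw sw hX

end Pool.Agent.H86N
end
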