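import Pool.Agent.Lib.H1M.RC.M022
import Pool.Agent.Lib.H1M.RC.M028
import Pool.Agent.Lib.H1M.RC.M029
import Pool.Agent.Lib.H1M.RC.M034
import Pool.Agent.Lib.H1M.RC.M036
import Pool.Agent.Lib.H1M.RC.M037

/-! Merged copies (to shorten the build) of Lib.H25U.K2, Lib.H25U.K5, Lib.H25U.R2, Lib.H25U.B2, Lib.H25U.E1, Lib.H25U.CoreU. -/

-- from Lib.H25U.K2
section

/-!
# K2: rank one Jordan pairs, all products
-/

set_option autoImplicit false
set_option linter.unusedSectionVars false
namespace Pool.Agent.H25U
open Module Pool.Agent.H53Toric Pool.Agent.H49M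
open Pool.Agent.H86N (CoreN)

variable {K : Type*} [Field K] {V : Type*} [AddCommGroup V] [Module K V]

variable {L : Submodule K (Module.End K V)}

/-- Chunk K2a. Let `S` be the set of `y ∈ Lm` for which there is a linear form
`λ : End V → K` with `x y x = λ(x) x` for all `x ∈ Lp`. It is a subspace. `f ∈ S`: choose a
linear form `φ` on `End V` with `φ e = 1` and put `λ X = φ (e f X f e)`; by `K0_ext`,
`e f x f e = c e`, `c = λ x`, and the hypothesis gives `x f x = λ(x) x`. `S` is stable under
`L0`: for `Z ∈ L0`, `y ∈ S`, put `x' = Z x - x Z ∈ Lp`; polarising,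
`x y x' + x' y x = λ(x) x' + λ(x') x`, and the left side is `- x (Z y - y Z) x + Z (x y x) -
(x y x) Z = - x (Z y - y Z) x + λ(x) x'`, so `x (Z y - y Z) x = - λ(Z x - x Z) x`. By `A3_irr'`
(`f ≠ 0`) `S = Lm`. -/
theorem K2_form [CharZero K] [IsAlgClosed K] [FiniteDimensional K V] [Nontrivial V]
    (h : CoreN L) {s e f : Module.End K V} (F : Frame L s e f)
    (hq : ∀ x ∈ Lp L s, ∀ c : K, e * f * x * (f * e) = c • e → x * f * x = c • x)
    {y : Module.End K V} (hy : y ∈ Lm L s) :
    ∃ l : Module.End K V →ₗ[K] K, ∀ x ∈ Lp L s, x * y * x = l x • x := by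
  let S : Submodule K (Module.End K V) :=
    { carrier := {y | y ∈ Lm L s ∧ ∃ l : Module.End K V →ₗ[K] K, ∀ x ∈ Lp L s,
        x * y * x = l x • x}
      add_mem' := by
        rintro a b ⟨h1, l, h2⟩ ⟨h3, m, h4⟩
        refine ⟨(Lm L s).add_mem h1 h3, l + m, fun x hx => ?_⟩
        rw [mul_add, add_mul, h2 x hx, h4 x hx, LinearMap.add_apply, add_smul]
      zero_mem' := ⟨(Lm L s).zero_mem, 0, fun x hx => by simp⟩
      smul_mem' := by
        rintro c a ⟨h1, l, h2⟩
        refine ⟨(Lm L s).smul_mem c h1, c • l, fun x hx => ?_⟩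
        rw [mul_smul_comm, smul_mul_assoc, h2 x hx, LinearMap.smul_apply, smul_smul, smul_eq_mul] }
  have hfS : f ∈ S := by
    refine ⟨F.f_mem, ?_⟩
    have h1 : ∃ φ : Module.Dual K (Module.End K V), φ e ≠ 0 := by
      by_contra hcon
      push Not at hcon
      exact F.e_ne ((Module.forall_dual_apply_eq_zero_iff K e).1 hcon)
    obtain ⟨φ, hφ⟩ := h1
    refine ⟨((φ e)⁻¹ • φ) ∘ₗ (LinearMap.mulRight K (f * e)) ∘ₗ (LinearMap.mulLeft K (e * f)),
      fun x hx => ?_⟩
    obtain ⟨c, hc⟩ := K0_ext h.lie F hx.1
    have h2 := hq x hx c hc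
    rw [h2]
    congr 1
    change c = (φ e)⁻¹ * φ (e * f * x * (f * e))
    rw [hc, map_smul, smul_eq_mul, mul_comm c, ← mul_assoc, inv_mul_cancel₀ hφ, one_mul]
  have hst : ∀ Z ∈ L0 L s, ∀ Y ∈ S, Z * Y - Y * Z ∈ S := by
    rintro Z hZ y ⟨hy, l, hl⟩
    refine ⟨A3_0m h hZ hy, -(l ∘ₗ (LinearMap.mulLeft K Z - LinearMap.mulRight K Z)),
      fun x hx => ?_⟩
    have hx' := A3_0p h hZ hx
    have h1 : x * y * (Z * x - x * Z) + (Z * x - x * Z) * y * x =
        l x • (Z * x - x * Z) + l (Z * x - x * Z) • x := by
      have h2 := hl _ ((Lp L s).add_mem hx hx')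
      generalize Z * x - x * Z = x' at hx' h2
      have e1 : (x + x') * y * (x + x') = x * y * x + x' * y * x' + (x * y * x' + x' * y * x) := by
        noncomm_ring
      rw [e1, hl x hx, hl x' hx', map_add] at h2
      have e2 : x * y * x' + x' * y * x = (l x • x + l x' • x' + (x * y * x' + x' * y * x)) -
          (l x • x + l x' • x') := by abel
      rw [e2, h2]
      module
    have h3 : x * (Z * y - y * Z) * x = Z * (x * y * x) - (x * y * x) * Z -
        (x * y * (Z * x - x * Z) + (Z * x - x * Z) * y * x) := by noncomm_ring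
    rw [h3, h1, hl x hx, mul_smul_comm, smul_mul_assoc]
    change _ = (-(l (Z * x - x * Z))) • x
    module
  have hS : S = Lm L s := by
    refine A3_irr' h F.s_mem F.s_sq (fun x hx => hx.1) ?_ hst
    intro h0
    rw [h0, Submodule.mem_bot] at hfS
    have := F.efe
    rw [hfS, mul_zero, zero_mul] at this
    exact F.e_ne this.symm
  have hyS : y ∈ S := by rw [hS]; exact hy
  exact hyS.2

/-- Chunk K2. By `K1_quad` and `K2_form`, `x y x = λ_y(x) x` for all `x ∈ Lp`, `y ∈ Lm`, hence
(polarise) (*) `x y x' + x' y x = λ_y(x) x' + λ_y(x') x`.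
Claim: `b e b = 0` for `b ∈ J1 L (-s) f e` (i.e. `b ∈ Lm`, `f e b + b (e f) = b`). Multiply by
`f e` on the left and `e f` on the right: `f e b e f = 0`, so `e b e = e (f e b e f) e = 0` and
`λ_b(e) = 0` (`e ≠ 0`). By (*) with `x' = e`: `x b e + e b x = λ_b(x) e`. Multiply on the right by
`b` and take traces: `tr (x b e b) + tr (e b x b) = 2 tr (x (b e b)) = λ_b(x) tr (e b)` and
`tr (e b) = tr (e f e b) = tr (f e b e) = 0`. So `tr (x (b e b)) = 0` for all `x ∈ Lp` and
`b e b = 0` by `A2_nondeg'` (`b e b ∈ Lm`, `IsLie.sandwich`).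
Hence `K1_quad` and `K2_form` apply to the frame `(-s, f, e)` (`K0_swap`, `K0_Lp`, `K0_Lm`):
`y x y = μ_x(y) y`. Finally `λ_y(x) = μ_x(y)` if `x, y ≠ 0`:
`(y x)(y x) = y (x y x) = λ_y(x) y x = (y x y) x = μ_x(y) y x`, so they are equal if `y x ≠ 0`; if
`y x = 0`, then `λ_y(x) x = x y x = 0` and `μ_x(y) y = 0`, both scalars vanish. If `x = 0` or
`y = 0` choose the other scalar. -/
theorem K2_all [CharZero K] [IsAlgClosed K] [FiniteDimensional K V] [Nontrivial V]
    (h : CoreN L) {s e f : Module.End K V} (F : Frame L s e f)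
    (ha : ∀ u ∈ J1 L s e f, u * f * u = 0) {x y : Module.End K V} (hx : x ∈ Lp L s)
    (hy : y ∈ Lm L s) : ∃ c : K, x * y * x = c • x ∧ y * x * y = c • y := by
  have hq := fun (x : Module.End K V) (hx : x ∈ Lp L s) (c : K)
    (hc : e * f * x * (f * e) = c • e) => K1_quad h F ha hx hc
  have hb : ∀ b ∈ J1 L (-s) f e, b * e * b = 0 := by
    rintro b ⟨hb, hbe⟩
    rw [K0_Lp] at hb
    obtain ⟨l, hl⟩ := K2_form h F hq hb
    have h1 : f * e * b * (e * f) = 0 := by
      have i1 : (f * e) * (f * e) = f * e := by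
        calc (f * e) * (f * e) = (f * e * f) * e := by noncomm_ring
          _ = f * e := by rw [F.fef]
      have i2 : (e * f) * (e * f) = e * f := by
        calc (e * f) * (e * f) = (e * f * e) * f := by noncomm_ring
          _ = e * f := by rw [F.efe]
      have h2 : f * e * b * (e * f) = f * e * b * (e * f) + f * e * b * (e * f) := by
        nth_rw 1 [← hbe]
        calc f * e * (f * e * b + b * (e * f)) * (e * f) =
            ((f * e) * (f * e)) * b * (e * f) + f * e * b * ((e * f) * (e * f)) := by noncomm_ring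
          _ = _ := by rw [i1, i2]
      exact left_eq_add.1 h2
    have h2 : e * b * e = 0 := by
      calc e * b * e = (e * f * e) * b * (e * f * e) := by rw [F.efe]
        _ = e * (f * e * b * (e * f)) * e := by noncomm_ring
        _ = 0 := by rw [h1, mul_zero, zero_mul]
    have h3 : l e = 0 := by
      have h4 := hl e F.e_mem
      rw [h2] at h4
      exact (smul_eq_zero.1 h4.symm).resolve_right F.e_ne
    have htr : LinearMap.trace K V (e * b) = 0 := by
      calc LinearMap.trace K V (e * b) = LinearMap.trace K V (e * (f * e * b)) := by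
            congr 1
            calc e * b = (e * f * e) * b := by rw [F.efe]
              _ = _ := by noncomm_ring
        _ = LinearMap.trace K V ((f * e * b) * e) := LinearMap.trace_mul_comm K _ _
        _ = LinearMap.trace K V (f * (e * b * e)) := by congr 1
        _ = 0 := by rw [h2, mul_zero, map_zero]
    apply A2_nondeg' h F.s_mem F.s_sq
    · refine ⟨h.lie.sandwich hb.1 (A2_mm hb hb) F.e_mem.1, ?_, ?_⟩
      · rw [← mul_assoc, ← mul_assoc, hb.2.1, neg_mul, neg_mul]
      · rw [mul_assoc, hb.2.2]
    · intro x hx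
      have h4 : x * b * e + e * b * x = l x • e := by
        have h5 := hl _ ((Lp L s).add_mem hx F.e_mem)
        have e1 : (x + e) * b * (x + e) = x * b * x + e * b * e + (x * b * e + e * b * x) := by
          noncomm_ring
        rw [e1, hl x hx, h2, map_add, h3, add_zero, add_zero, smul_add] at h5
        exact add_left_cancel h5
      have h5 : LinearMap.trace K V (x * b * e * b + e * b * x * b) = 0 := by
        have e1 : x * b * e * b + e * b * x * b = (x * b * e + e * b * x) * b := by noncomm_ring
        rw [e1, h4, smul_mul_assoc, map_smul, htr, smul_zero]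
      have h6 : LinearMap.trace K V (e * b * x * b) = LinearMap.trace K V (x * (b * e * b)) := by
        calc LinearMap.trace K V (e * b * x * b) = LinearMap.trace K V ((e * b) * (x * b)) := by
              congr 1
          _ = LinearMap.trace K V ((x * b) * (e * b)) := LinearMap.trace_mul_comm K _ _
          _ = _ := by congr 1
      have h7 : LinearMap.trace K V (x * b * e * b) = LinearMap.trace K V (x * (b * e * b)) := by
        congr 1
      rw [map_add, h6, h7] at h5
      have h8 : (2 : K) * LinearMap.trace K V (x * (b * e * b)) = 0 := by rw [two_mul]; exact h5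
      exact (mul_eq_zero.1 h8).resolve_left (by norm_num)
  have F' := K0_swap h.lie F
  have hq' := fun (x : Module.End K V) (hx : x ∈ Lp L (-s)) (c : K)
    (hc : f * e * x * (e * f) = c • f) => K1_quad h F' hb hx hc
  obtain ⟨l, hl⟩ := K2_form h F hq hy
  obtain ⟨m, hm⟩ := K2_form h F' hq' (y := x) (by rw [K0_Lm]; exact hx)
  have h1 := hl x hx
  have h2 := hm y (by rw [K0_Lp]; exact hy)
  by_cases hx0 : x = 0
  · exact ⟨m y, by rw [hx0]; simp, h2⟩
  by_cases hy0 : y = 0
  · exact ⟨l x, h1, by rw [hy0]; simp⟩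
  refine ⟨l x, h1, ?_⟩
  by_cases hyx : y * x = 0
  · have h3 : l x = 0 := by
      rw [mul_assoc, hyx, mul_zero] at h1
      exact (smul_eq_zero.1 h1.symm).resolve_right hx0
    rw [h3, hyx]
    simp
  · have h3 : (l x - m y) • (y * x) = 0 := by
      have h4 : y * (x * y * x) = (y * x * y) * x := by noncomm_ring
      rw [h1, h2, mul_smul_comm, smul_mul_assoc] at h4
      rw [sub_smul, h4, sub_self]
    have h4 := (smul_eq_zero.1 h3).resolve_right hyx
    rw [h2, sub_eq_zero.1 h4]

end Pool.Agent.H25U
end

-- from Lib.H25U.K5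
section

/-!
# K5: conclusion in the case of a rank one Jordan pair
-/

set_option autoImplicit false
set_option linter.unusedSectionVars false
namespace Pool.Agent.H25U
open Module Pool.Agent.H53Toric Pool.Agent.H49M
open Pool.Agent.H86N (CoreN)

variable {K : Type*} [Field K] {V : Type*} [AddCommGroup V] [Module K V]

variable {L : Submodule K (Module.End K V)}

theorem K5_range [CharZero K] {s : Module.End K V} (hs2 : s * s = 1) {c : K} (hc : c * c = 1) :
    LinearMap.range ((1 / 2 : K) • (1 + c • s)) = eig s c := by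
  ext v
  rw [eig, LinearMap.mem_ker, LinearMap.sub_apply, LinearMap.smul_apply, Module.End.one_apply,
    sub_eq_zero]
  constructor
  · rintro ⟨w, rfl⟩
    have h1 : s * ((1 / 2 : K) • (1 + c • s)) = c • ((1 / 2 : K) • (1 + c • s)) := by
      have h2 : c • (1 + c • s) = s + c • (1 : Module.End K V) := by
        rw [smul_add, smul_smul, hc, one_smul, add_comm]
      rw [mul_smul_comm, mul_add, mul_smul_comm, hs2, mul_one, smul_comm c, h2]
    exact LinearMap.congr_fun h1 w
  · intro h1
    refine ⟨v, ?_⟩
    rw [LinearMap.smul_apply, LinearMap.add_apply, LinearMap.smul_apply, h1, smul_smul, hc,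
      Module.End.one_apply]
    module

/-- The dimensions of the eigenspaces add up. -/
theorem K5_sum [CharZero K] [FiniteDimensional K V] {s : Module.End K V} (hs2 : s * s = 1) :
    finrank K (eig s 1) + finrank K (eig s (-1)) = finrank K V := by
  have hi : ∀ c : K, c * c = 1 → (finrank K (eig s c) : K) =
      LinearMap.trace K V ((1 / 2 : K) • (1 + c • s)) := by
    intro c hc
    have h1 : ((1 / 2 : K) • (1 + c • s)) * ((1 / 2 : K) • (1 + c • s)) = (1 / 2 : K) • (1 + c • s) := by
      have h2 : (1 + c • s) * (1 + c • s) = (2 : K) • (1 + c • s) := by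
        have h3 : (c • s) * (c • s) = 1 := by rw [smul_mul_smul_comm, hc, hs2, one_smul]
        generalize c • s = t at h3 ⊢
        have h4 : (1 + t) * (1 + t) = 1 + t + t + t * t := by noncomm_ring
        rw [h4, h3, two_smul]
        abel
      rw [smul_mul_smul_comm, h2, smul_smul]
      norm_num
    have h2 := trace_idem h1
    rw [K5_range hs2 hc] at h2
    exact h2.symm
  have h1 := hi 1 (one_mul 1)
  have h2 := hi (-1) (by ring)
  have h3 : (finrank K (eig s 1) : K) + (finrank K (eig s (-1)) : K) = (finrank K V : K) := by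
    rw [h1, h2, ← map_add]
    have e : (1 / 2 : K) • (1 + (1 : K) • s) + (1 / 2 : K) • (1 + (-1 : K) • s) = 1 := by
      rw [← smul_add, one_smul, neg_one_smul]
      have : (1 + s + (1 + -s)) = (2 : K) • (1 : Module.End K V) := by rw [two_smul]; abel
      rw [this, smul_smul]
      norm_num
    rw [e, LinearMap.trace_one]
  exact_mod_cast h3

/-- The Kemmer case: exterior powers. -/
theorem K5_final [CharZero K] [IsAlgClosed K] [FiniteDimensional K V] [Nontrivial V]
    (h : CoreN L) {s e f : Module.End K V} (F : Frame L s e f)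
    (ha : ∀ u ∈ J1 L s e f, u * f * u = 0) :
    finrank K (LinearMap.range e) = 1 ∨
    ∃ n k : ℕ, 2 ≤ k ∧ k ≤ n ∧ finrank K (eig s 1) = (n + 1).choose k ∧
      finrank K (eig s (-1)) = (n + 1).choose (k - 1) ∧ finrank K V = (n + 2).choose k ∧
      finrank K (LinearMap.range e) = n.choose (k - 1) := by
  have hall := fun (x : Module.End K V) (hx : x ∈ Lp L s) (y : Module.End K V)
    (hy : y ∈ Lm L s) => K2_all h F ha hx hy
  obtain ⟨n, x, y, hK, hx, hy, -, -, -, -⟩ := K3_system h F hall
  obtain ⟨k, hk1, hk2, h1, h2, h3, -⟩ := R2_rank hK (by rw [hx]; exact F.e_ne)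
  have h4 := K5_sum (K := K) F.s_sq
  rw [hx] at h3
  obtain ⟨j, rfl⟩ : ∃ j, k = j + 1 := ⟨k - 1, by omega⟩
  rw [Nat.add_sub_cancel] at h2 h3
  by_cases hj0 : j = 0
  · left
    rw [h3, hj0, Nat.choose_zero_right]
  by_cases hjn : j = n
  · left
    rw [h3, hjn, Nat.choose_self]
  · right
    refine ⟨n, j + 1, by omega, by omega, h1, by rw [Nat.add_sub_cancel]; exact h2, ?_,
      by rw [Nat.add_sub_cancel]; exact h3⟩
    rw [← h4, h1, h2, Nat.choose_succ_succ (n + 1) j, add_comm]

end Pool.Agent.H25U
end

-- from Lib.H25U.R2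
section

/-!
# R2: in rank two there is an invariant form
-/

set_option autoImplicit false
set_option linter.unusedSectionVars false
namespace Pool.Agent.H25U
open Module Pool.Agent.H53Toric Pool.Agent.H49M
open Pool.Agent.H86N (CoreN)

variable {K : Type*} [Field K] {V : Type*} [AddCommGroup V] [Module K V]
variable {L : Submodule K (Module.End K V)}

theorem r2_tr2 (A B : Module.End K V) : LinearMap.trace K V (A * B) = LinearMap.trace K V (B * A) :=
  LinearMap.trace_mul_comm K A B

/-- The traces of the corners at `p 1` and `q 1` are opposite: the case of a bracket. -/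
theorem r2_bracket [CharZero K] [IsAlgClosed K] [FiniteDimensional K V] [Nontrivial V] (h : CoreN L)
    {s e f e' f' u : Module.End K V} (G : Grid L s e f e' f' u) (hr : finrank K (LinearMap.range e) = 2)
    {X Y : Module.End K V} (hX : X ∈ Lp L s) (hY : Y ∈ Lm L s) :
    LinearMap.trace K V (e * f * X * Y) = LinearMap.trace K V (f * e * Y * X) := by
  have hl := h.lie
  have hadj := r1_adj h G hr
  have hpp : e * f * (e * f) = e * f := by rw [← mul_assoc, G.F.efe]
  obtain ⟨-, g1, g2, -⟩ := P3_u1 h G
  obtain ⟨-, g3, g4⟩ := P3_u2 h G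
  obtain ⟨g5, g6⟩ := P3_u12 G
  have hff' : f * f' = 0 := A2_mm G.F.f_mem G.F'.f_mem
  have hf'f : f' * f = 0 := A2_mm G.F'.f_mem G.F.f_mem
  have huu : u * u = 0 := A2_pp G.u_mem G.u_mem
  have hue : u * e = 0 := A2_pp G.u_mem G.F.e_mem
  have heu : e * u = 0 := A2_pp G.F.e_mem G.u_mem
  have he'e : e' * e = 0 := A2_pp G.F'.e_mem G.F.e_mem
  have hee' : e * e' = 0 := A2_pp G.F.e_mem G.F'.e_mem
  have he'u : e' * u = 0 := A2_pp G.F'.e_mem G.u_mem
  have hee : e * e = 0 := A2_pp G.F.e_mem G.F.e_mem
  have hff : f * f = 0 := A2_mm G.F.f_mem G.F.f_mem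
  have htp : LinearMap.trace K V (e * f) = 2 := by
    rw [(K0_rank G.F).2.2, hr]; norm_num
  have B := P2_blocks h G
  obtain ⟨p, hp⟩ : ∃ p, p = pp s e f e' f' := ⟨_, rfl⟩
  obtain ⟨q, hq⟩ : ∃ q, q = qq s e f e' f' := ⟨_, rfl⟩
  rw [← hp, ← hq] at B
  have p0d : p 0 = (1 / 2 : K) • (1 + s) - e * f - e' * f' := by rw [hp]; rfl
  have q0d : q 0 = (1 / 2 : K) • (1 - s) - f * e - f' * e' := by rw [hq]; rfl
  have p1 : p 1 = e * f := by rw [hp]; rfl
  have p2 : p 2 = e' * f' := by rw [hp]; rfl
  have q1 : q 1 = f * e := by rw [hq]; rfl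
  have q2 : q 2 = f' * e' := by rw [hq]; rfl
  have hX1 : e * X = 0 := A2_pp G.F.e_mem hX
  have hY1 : f * Y = 0 := A2_mm G.F.f_mem hY
  -- X = X (q 0 + q 1 + q 2), Y = Y (p 0 + p 1 + p 2)
  have hXs : X * ((1 / 2 : K) • (1 - s)) = X := by
    rw [mul_smul_comm, mul_sub, mul_one, hX.2.2, sub_neg_eq_add, ← two_smul K X, smul_smul]
    norm_num
  have hYs : Y * ((1 / 2 : K) • (1 + s)) = Y := by
    rw [mul_smul_comm, mul_add, mul_one, hY.2.2, ← two_smul K Y, smul_smul]
    norm_num
  have hXq : X = X * q 0 + X * q 1 + X * q 2 := by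
    calc X = X * ((1 / 2 : K) • (1 - s)) := hXs.symm
      _ = X * (q 0 + q 1 + q 2) := by rw [q0d, q1, q2]; congr 1; abel
      _ = _ := by rw [mul_add, mul_add]
  have hYp : Y = Y * p 0 + Y * p 1 + Y * p 2 := by
    calc Y = Y * ((1 / 2 : K) • (1 + s)) := hYs.symm
      _ = Y * (p 0 + p 1 + p 2) := by rw [p0d, p1, p2]; congr 1; abel
      _ = _ := by rw [mul_add, mul_add]
  have hl1 : e * f * X * Y = e * f * X * q 0 * Y + e * f * X * q 1 * Y + e * f * X * q 2 * Y := by
    calc e * f * X * Y = e * f * (X * q 0 + X * q 1 + X * q 2) * Y := by rw [← hXq]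
      _ = _ := by noncomm_ring
  have hl2 : f * e * Y * X = f * e * Y * p 0 * X + f * e * Y * p 1 * X + f * e * Y * p 2 * X := by
    calc f * e * Y * X = f * e * (Y * p 0 + Y * p 1 + Y * p 2) * X := by rw [← hYp]
      _ = _ := by noncomm_ring
  have t1 : LinearMap.trace K V (e * f * X * q 1 * Y) = LinearMap.trace K V (f * e * Y * p 1 * X) := by
    rw [q1, p1]
    calc LinearMap.trace K V (e * f * X * (f * e) * Y) = LinearMap.trace K V ((e * f * X) * (f * e * Y)) := by
          congr 1 <;> noncomm_ring
      _ = LinearMap.trace K V ((f * e * Y) * (e * f * X)) := r2_tr2 _ _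
      _ = _ := by congr 1 <;> noncomm_ring
  -- the index two
  have t2 : LinearMap.trace K V (e * f * X * q 2 * Y) = LinearMap.trace K V (f * e * Y * p 2 * X) := by
    rw [q2, p2]
    obtain ⟨A, hA⟩ : ∃ A, A = e * f * X * f' * (u * f) := ⟨_, rfl⟩
    obtain ⟨D, hD⟩ : ∃ D, D = u * f' * e' * Y * (e * f) := ⟨_, rfl⟩
    obtain ⟨C, hC⟩ : ∃ C, C = e * Y * (u * f) := ⟨_, rfl⟩
    obtain ⟨M, hM⟩ : ∃ M, M = u * f' * X * f := ⟨_, rfl⟩
    have i1 : -M = A - LinearMap.trace K V A • (e * f) := by
      have h1 := hadj _ (hl _ hX.1 _ G.F'.f_mem.1)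
      have h2 : u * f' * e' * (X * f' - f' * X) * f = -M := by
        rw [hM]
        calc u * f' * e' * (X * f' - f' * X) * f = u * f' * e' * X * (f' * f) - u * (f' * e' * f') * X * f := by
              noncomm_ring
          _ = _ := by rw [hf'f, G.F'.fef]; simp
      have h3 : e * f * (X * f' - f' * X) * (u * f) = A := by
        rw [hA]
        calc e * f * (X * f' - f' * X) * (u * f) = e * f * X * f' * (u * f) - e * (f * f') * X * (u * f) := by
              noncomm_ring
          _ = _ := by rw [hff']; simp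
      rw [h2, h3] at h1
      exact h1
    have i2 : D = -C + LinearMap.trace K V C • (e * f) := by
      have h1 := hadj _ (hl _ hY.1 _ G.F.e_mem.1)
      have h2 : u * f' * e' * (Y * e - e * Y) * f = D := by
        rw [hD]
        calc u * f' * e' * (Y * e - e * Y) * f = u * f' * e' * Y * (e * f) - u * f' * (e' * e) * Y * f := by
              noncomm_ring
          _ = _ := by rw [he'e]; simp
      have h3 : e * f * (Y * e - e * Y) * (u * f) = -C := by
        rw [hC]
        calc e * f * (Y * e - e * Y) * (u * f) = e * f * Y * (e * u) * f - (e * f * e) * Y * (u * f) := by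
              noncomm_ring
          _ = _ := by rw [heu, G.F.efe]; simp
      rw [h2, h3, map_neg, neg_smul, sub_neg_eq_add] at h1
      exact h1
    have hAp : A * (e * f) = A := by
      rw [hA]
      calc e * f * X * f' * (u * f) * (e * f) = e * f * X * f' * (u * f * (e * f)) := by noncomm_ring
        _ = _ := by rw [g4]
    have hCp : C * (e * f) = C := by
      rw [hC]
      calc e * Y * (u * f) * (e * f) = e * Y * (u * f * (e * f)) := by noncomm_ring
        _ = _ := by rw [g4]
    calc LinearMap.trace K V (e * f * X * (f' * e') * Y) = LinearMap.trace K V (A * D) := by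
          have h1 : A * D = (e * f * X * (f' * e') * Y) * (e * f) := by
            rw [hA, hD]
            calc e * f * X * f' * (u * f) * (u * f' * e' * Y * (e * f)) =
                  e * f * X * f' * (u * f * (u * f')) * e' * Y * (e * f) := by noncomm_ring
              _ = e * f * X * (f' * e' * f') * e' * Y * (e * f) := by rw [g6]; noncomm_ring
              _ = _ := by rw [G.F'.fef]; noncomm_ring
          rw [h1, r2_tr2 (e * f * X * (f' * e') * Y) (e * f)]
          congr 1
          calc e * f * X * (f' * e') * Y = (e * f * (e * f)) * X * (f' * e') * Y := by rw [hpp]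
            _ = _ := by noncomm_ring
      _ = LinearMap.trace K V C * LinearMap.trace K V A - LinearMap.trace K V (A * C) := by
          rw [i2, mul_add, mul_smul_comm, hAp, map_add, map_smul, mul_neg, map_neg, smul_eq_mul]
          ring
      _ = LinearMap.trace K V (C * M) := by
          have h1 : M = LinearMap.trace K V A • (e * f) - A := by
            have h2 : M = -(-M) := (neg_neg M).symm
            rw [h2, i1]
            abel
          rw [h1, mul_sub, mul_smul_comm, hCp, map_sub, map_smul, smul_eq_mul, r2_tr2 A C]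
          ring
      _ = _ := by
          have h1 : C * M = e * (Y * (e' * f') * X * f) := by
            rw [hC, hM, ← g6]
            noncomm_ring
          rw [h1, r2_tr2]
          have h2 : Y * (e' * f') * X * f * e = (Y * (e' * f') * X) * (f * e) := by noncomm_ring
          rw [h2, r2_tr2]
          congr 1 <;> noncomm_ring
  -- the index zero
  have t0 : LinearMap.trace K V (e * f * X * q 0 * Y) = LinearMap.trace K V (f * e * Y * p 0 * X) := by
    have hX' := B.mp X hX.1 1 0 (by decide)
    have hY' := B.mm Y hY.1 0 1 (by decide)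
    rw [p1, q1] at hX' hY'
    obtain ⟨X', hXd⟩ : ∃ X', X' = e * f * X * q 0 + p 0 * X * (f * e) := ⟨_, rfl⟩
    obtain ⟨Y', hYd⟩ : ∃ Y', Y' = q 0 * Y * (e * f) + f * e * Y * p 0 := ⟨_, rfl⟩
    obtain ⟨Z, hZd⟩ : ∃ Z, Z = u * f' - f' * u := ⟨_, rfl⟩
    have hZ : Z ∈ L := by rw [hZd]; exact hl _ G.u_mem.1 _ G.F'.f_mem.1
    rw [← hXd] at hX'
    rw [← hYd] at hY'
    have h1 := hadj _ (hl _ hX' _ (hl _ hY' _ hZ))
    -- products with p 0, q 0
    have k1 : e * f * p 0 = 0 := by rw [← p1, B.pp, if_neg (by decide)]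
    have k2 : q 0 * (f * e) = 0 := by rw [← q1, B.qq, if_neg (by decide)]
    have k3 : f * e * q 0 = 0 := by rw [← q1, B.qq, if_neg (by decide)]
    have k4 : p 0 * (e * f) = 0 := by rw [← p1, B.pp, if_neg (by decide)]
    have k5 : e' * f' * p 0 = 0 := by rw [← p2, B.pp, if_neg (by decide)]
    have k6 : f' * e' * q 0 = 0 := by rw [← q2, B.qq, if_neg (by decide)]
    have k7 : q 0 * (f' * e') = 0 := by rw [← q2, B.qq, if_neg (by decide)]
    have k8 : q 0 * q 0 = q 0 := by rw [B.qq, if_pos rfl]
    have k9 : p 0 * p 0 = p 0 := by rw [B.pp, if_pos rfl]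
    have l1 : q 0 * f = 0 := by
      calc q 0 * f = q 0 * (f * e) * f := by
            rw [mul_assoc, G.F.fef]
        _ = 0 := by rw [k2, zero_mul]
    have l2 : e * q 0 = 0 := by
      calc e * q 0 = e * (f * e * q 0) := by
            rw [← mul_assoc, ← mul_assoc, G.F.efe]
        _ = 0 := by rw [k3, mul_zero]
    have l3 : e' * q 0 = 0 := by
      calc e' * q 0 = e' * (f' * e' * q 0) := by
            rw [← mul_assoc, ← mul_assoc, G.F'.efe]
        _ = 0 := by rw [k6, mul_zero]
    have l4 : q 0 * f' = 0 := by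
      calc q 0 * f' = q 0 * (f' * e') * f' := by
            rw [mul_assoc, G.F'.fef]
        _ = 0 := by rw [k7, zero_mul]
    have hse : s * e = e := G.F.e_mem.2.1
    have hse' : s * e' = e' := G.F'.e_mem.2.1
    have hsu : s * u = u := G.u_mem.2.1
    have hes : e * s = -e := G.F.e_mem.2.2
    have hes' : e' * s = -e' := G.F'.e_mem.2.2
    have l5 : q 0 * u = 0 := by
      rw [q0d, sub_mul, sub_mul, smul_mul_assoc, sub_mul, one_mul, hsu, mul_assoc f e u, heu,
        mul_assoc f' e' u, he'u]
      simp
    have l6 : e * p 0 = 0 := by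
      rw [p0d, mul_sub, mul_sub, mul_smul_comm, mul_add, mul_one, hes, ← mul_assoc, hee, ← mul_assoc, hee']
      simp
    have he'e' : e' * e' = 0 := A2_pp G.F'.e_mem G.F'.e_mem
    have l7 : e' * p 0 = 0 := by
      rw [p0d, mul_sub, mul_sub, mul_smul_comm, mul_add, mul_one, hes', ← mul_assoc, he'e, ← mul_assoc, he'e']
      simp
    -- the elements
    have m1 : e * f * X' = e * f * X * q 0 := by
      rw [hXd]
      calc e * f * (e * f * X * q 0 + p 0 * X * (f * e)) = (e * f * (e * f)) * X * q 0 +
            (e * f * p 0) * X * (f * e) := by noncomm_ring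
        _ = _ := by rw [hpp, k1]; simp
    have m2 : X' * (u * f) = 0 := by
      rw [hXd]
      calc (e * f * X * q 0 + p 0 * X * (f * e)) * (u * f) = e * f * X * (q 0 * u) * f +
            p 0 * X * f * (e * u) * f := by noncomm_ring
        _ = 0 := by rw [l5, heu]; simp
    have m3 : Z * (u * f) = e * f := by
      rw [hZd]
      calc (u * f' - f' * u) * (u * f) = (u * f' * u) * f - f' * (u * u) * f := by noncomm_ring
        _ = _ := by rw [G.ufu', huu]; simp
    have m4 : q 0 * Z = 0 := by
      rw [hZd]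
      calc q 0 * (u * f' - f' * u) = (q 0 * u) * f' - (q 0 * f') * u := by noncomm_ring
        _ = 0 := by rw [l5, l4]; simp
    have m5 : q 0 * Y' * (e * f) = q 0 * Y * (e * f) := by
      rw [hYd]
      calc q 0 * (q 0 * Y * (e * f) + f * e * Y * p 0) * (e * f) = (q 0 * q 0) * Y * (e * f * (e * f)) +
            (q 0 * (f * e)) * Y * p 0 * (e * f) := by noncomm_ring
        _ = _ := by rw [k8, hpp, k2]; simp
    have n1 : e * f * (X' * (Y' * Z - Z * Y') - (Y' * Z - Z * Y') * X') * (u * f) =
        e * f * X * q 0 * Y * (e * f) := by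
      calc e * f * (X' * (Y' * Z - Z * Y') - (Y' * Z - Z * Y') * X') * (u * f) =
            (e * f * X') * Y' * (Z * (u * f)) - (e * f * X') * Z * Y' * (u * f) -
            e * f * (Y' * Z - Z * Y') * (X' * (u * f)) := by noncomm_ring
        _ = e * f * X * (q 0 * Y' * (e * f)) - e * f * X * (q 0 * Z) * Y' * (u * f) := by
            rw [m1, m2, m3]; noncomm_ring
        _ = _ := by rw [m5, m4]; simp only [mul_zero, zero_mul, sub_zero]; noncomm_ring
    have o1 : e' * X' = 0 := by
      rw [hXd]
      calc e' * (e * f * X * q 0 + p 0 * X * (f * e)) = (e' * e) * f * X * q 0 + (e' * p 0) * X * (f * e) := by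
            noncomm_ring
        _ = 0 := by rw [he'e, l7]; simp
    have o2 : e' * Y' = 0 := by
      rw [hYd]
      calc e' * (q 0 * Y * (e * f) + f * e * Y * p 0) = (e' * q 0) * Y * (e * f) + (e' * f) * e * Y * p 0 := by
            noncomm_ring
        _ = 0 := by rw [l3, G.o3]; simp
    have o3 : u * f' * e' * Z = -e := by
      rw [hZd]
      calc u * f' * e' * (u * f' - f' * u) = u * f' * (e' * u) * f' - u * (f' * e' * f') * u := by noncomm_ring
        _ = _ := by rw [he'u, G.F'.fef, G.ufu']; simp
    have o4 : e * Y' = e * Y * p 0 := by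
      rw [hYd]
      calc e * (q 0 * Y * (e * f) + f * e * Y * p 0) = (e * q 0) * Y * (e * f) + (e * f * e) * Y * p 0 := by
            noncomm_ring
        _ = _ := by rw [l2, G.F.efe]; simp
    have o5 : X' * f = p 0 * X * f := by
      rw [hXd]
      calc (e * f * X * q 0 + p 0 * X * (f * e)) * f = e * f * X * (q 0 * f) + p 0 * X * (f * e * f) := by
            noncomm_ring
        _ = _ := by rw [l1, G.F.fef]; simp
    have n2 : u * f' * e' * (X' * (Y' * Z - Z * Y') - (Y' * Z - Z * Y') * X') * f = -(e * Y * p 0 * X * f) := by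
      calc u * f' * e' * (X' * (Y' * Z - Z * Y') - (Y' * Z - Z * Y') * X') * f =
            u * f' * (e' * X') * (Y' * Z - Z * Y') * f - u * f' * (e' * Y') * Z * X' * f +
            (u * f' * e' * Z) * Y' * (X' * f) := by noncomm_ring
        _ = -(e * Y' * (X' * f)) := by rw [o1, o2, o3]; simp
        _ = -(e * Y * (p 0 * p 0) * X * f) := by rw [o4, o5]; noncomm_ring
        _ = _ := by rw [k9]
    rw [n1, n2] at h1
    have h2 := congrArg (LinearMap.trace K V) h1
    rw [map_neg, map_sub, map_smul, htp, smul_eq_mul] at h2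
    have h3 : LinearMap.trace K V (e * f * X * q 0 * Y * (e * f)) = LinearMap.trace K V (e * f * X * q 0 * Y) := by
      rw [r2_tr2]
      congr 1
      calc e * f * (e * f * X * q 0 * Y) = (e * f * (e * f)) * X * q 0 * Y := by noncomm_ring
        _ = _ := by rw [hpp]
    have h4 : LinearMap.trace K V (e * Y * p 0 * X * f) = LinearMap.trace K V (f * e * Y * p 0 * X) := by
      rw [r2_tr2]
      congr 1 <;> noncomm_ring
    rw [h3, h4] at h2
    linear_combination h2
  rw [hl1, hl2, map_add, map_add, map_add, map_add, t0, t1, t2]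

/-- The traces of the corners at `p 1` and `q 1` are opposite. -/
theorem r2_tau [CharZero K] [IsAlgClosed K] [FiniteDimensional K V] [Nontrivial V] (h : CoreN L)
    {s e f e' f' u : Module.End K V} (G : Grid L s e f e' f' u) (hr : finrank K (LinearMap.range e) = 2)
    {X : Module.End K V} (hX : X ∈ L) :
    LinearMap.trace K V (e * f * X) + LinearMap.trace K V (f * e * X) = 0 := by
  obtain ⟨a, ha, b, hb, c, hc, rfl⟩ := A2_decomp h G.F.s_mem G.F.s_sq hX
  have h1 : LinearMap.trace K V (e * f * a) = 0 := by
    have h2 : e * f * a = e * (f * a) := by noncomm_ring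
    rw [h2, r2_tr2]
    have h3 : f * a * e = f * (a * e) := by noncomm_ring
    rw [h3, A2_pp ha G.F.e_mem, mul_zero, map_zero]
  have h2 : LinearMap.trace K V (f * e * a) = 0 := by
    rw [mul_assoc, A2_pp G.F.e_mem ha, mul_zero, map_zero]
  have h3 : LinearMap.trace K V (e * f * c) = 0 := by
    rw [mul_assoc, A2_mm G.F.f_mem hc, mul_zero, map_zero]
  have h4 : LinearMap.trace K V (f * e * c) = 0 := by
    have h2 : f * e * c = f * (e * c) := by noncomm_ring
    rw [h2, r2_tr2]
    have h3 : e * c * f = e * (c * f) := by noncomm_ring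
    rw [h3, A2_mm hc G.F.f_mem, mul_zero, map_zero]
  have h5 : LinearMap.trace K V (e * f * b) + LinearMap.trace K V (f * e * b) = 0 := by
    have hspan := A3_span h G.F.s_mem G.F.s_sq hb
    refine Submodule.span_induction (p := fun b _ => LinearMap.trace K V (e * f * b) +
      LinearMap.trace K V (f * e * b) = 0) ?_ ?_ ?_ ?_ hspan
    · rintro _ ⟨X, hX, Y, hY, rfl⟩
      have k1 : LinearMap.trace K V (e * f * (Y * X)) = 0 := by
        have h2 : e * f * (Y * X) = e * (f * Y * X) := by noncomm_ring
        rw [h2, r2_tr2]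
        have h3 : f * Y * X * e = f * Y * (X * e) := by noncomm_ring
        rw [h3, A2_pp hX G.F.e_mem, mul_zero, map_zero]
      have k2 : LinearMap.trace K V (f * e * (X * Y)) = 0 := by
        have h2 : f * e * (X * Y) = f * (e * X) * Y := by noncomm_ring
        rw [h2, A2_pp G.F.e_mem hX, mul_zero, zero_mul, map_zero]
      have k3 := r2_bracket h G hr hX hY
      rw [mul_sub, mul_sub, map_sub, map_sub, k1, k2]
      rw [mul_assoc (e * f), mul_assoc (f * e)] at k3
      rw [k3]
      ring
    · simp
    · intro x y _ _ h1 h2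
      rw [mul_add, mul_add, map_add, map_add]
      linear_combination h1 + h2
    · intro t x _ h1
      rw [mul_smul_comm, mul_smul_comm, map_smul, map_smul, smul_eq_mul, smul_eq_mul]
      linear_combination t * h1
  rw [mul_add, mul_add, mul_add, mul_add, map_add, map_add, map_add, map_add, h1, h2, h3, h4]
  linear_combination h5

/-- In rank two there is a nonzero invariant form. -/
theorem r2_form [CharZero K] [IsAlgClosed K] [FiniteDimensional K V] [Nontrivial V] (h : CoreN L)
    {s e f e' f' u : Module.End K V} (G : Grid L s e f e' f' u) (hr : finrank K (LinearMap.range e) = 2) :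
    ∃ B : V →ₗ[K] V →ₗ[K] K, B ≠ 0 ∧ ∀ X ∈ L, ∀ v w, B (X v) w + B v (X w) = 0 := by
  have hpp : e * f * (e * f) = e * f := by rw [← mul_assoc, G.F.efe]
  obtain ⟨p, hp⟩ : ∃ p, p = e * f := ⟨_, rfl⟩
  have hppp : p * p = p := by rw [hp]; exact hpp
  have hpe : p * e = e := by rw [hp, G.F.efe]
  have hr2 : finrank K (LinearMap.range p) = 2 := by rw [hp, (K0_rank G.F).1, hr]
  have htp : LinearMap.trace K V p = 2 := by
    rw [hp, (K0_rank G.F).2.2, hr]; norm_num
  obtain ⟨κ, hκ0, hκ⟩ := r1_form (K := K) hr2
  -- the lower corner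
  have hD : ∀ X ∈ L, e * X * f = p * X * p - LinearMap.trace K V (p * X * p) • p := by
    intro X hX
    obtain ⟨c, hc⟩ := K0_ext h.lie G.F (h.lie _ hX _ G.F.e_mem.1)
    have h1 : e * f * (X * e - e * X) * (f * e) = (p * X * p - e * X * f) * e := by
      rw [hp]
      calc e * f * (X * e - e * X) * (f * e) = e * f * X * (e * f * e) - (e * f * e) * X * (f * e) := by
            noncomm_ring
        _ = e * f * X * (e * f * e) - e * X * f * e := by rw [G.F.efe]; noncomm_ring
        _ = _ := by noncomm_ring
    rw [h1] at hc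
    have h2 : p * X * p - e * X * f = c • p := by
      have h3 := congrArg (· * f) hc
      rw [smul_mul_assoc, ← hp] at h3
      rw [← h3]
      calc p * X * p - e * X * f = p * X * (p * p) - e * X * (f * e * f) := by rw [hppp, G.F.fef]
        _ = (p * X * p - e * X * f) * p := by rw [hp]; noncomm_ring
        _ = _ := by rw [hp]; noncomm_ring
    have h3 := congrArg (LinearMap.trace K V) h2
    rw [map_sub, map_smul, htp, smul_eq_mul] at h3
    have h4 : LinearMap.trace K V (p * X * p) = LinearMap.trace K V (e * f * X) := by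
      rw [r2_tr2, ← mul_assoc, hppp, hp]
    have h5 : LinearMap.trace K V (e * X * f) = LinearMap.trace K V (f * e * X) := by
      rw [r2_tr2, mul_assoc]
    have h6 := r2_tau h G hr hX
    have h7 : c = LinearMap.trace K V (p * X * p) := by
      have h8 : (2 : K) * (c - LinearMap.trace K V (p * X * p)) = 0 := by
        linear_combination -h3 - h4 - h5 - h6
      have h9 := (mul_eq_zero.1 h8).resolve_left two_ne_zero
      linear_combination h9
    rw [← h7, ← h2]
    abel
  let ρ : V →ₗ[K] LinearMap.range p := p.rangeRestrict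
  have hρ : ∀ v, ((ρ v : LinearMap.range p) : V) = p v := fun v => rfl
  have hρp : ∀ v, ρ (p v) = ρ v := by
    intro v
    apply Subtype.ext
    rw [hρ, hρ, ← Module.End.mul_apply, hppp]
  have hρe : ∀ v, ((ρ (e v) : LinearMap.range p) : V) = e v := by
    intro v
    rw [hρ, ← Module.End.mul_apply, hpe]
  let β : V →ₗ[K] V →ₗ[K] K := κ.compl₁₂ ρ (ρ ∘ₗ e)
  have hβ : ∀ v w, β v w = κ (ρ v) (ρ (e w)) := fun v w => rfl
  obtain ⟨B, hB1, hB2⟩ := exists_form h G.F β
    (by
      intro v w
      rw [hβ, hβ]
      have : e (f v) = p v := by rw [hp]; rfl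
      rw [this, hρp])
    (by
      intro v w
      rw [hβ, hβ]
      have : e (f (e w)) = e w := LinearMap.congr_fun G.F.efe w
      rw [this])
    (by
      intro X hX v w
      rw [hβ, hβ]
      have h1 : ρ (X (e (f v))) = res p (p * X * p) (ρ v) := by
        apply Subtype.ext
        rw [res_coe, hρ, hρ, hp]
        show e (f (X (e (f v)))) = e (f (e (f (X (e (f (e (f v))))))))
        have e1 : ∀ v, e (f (e v)) = e v := fun v => LinearMap.congr_fun G.F.efe v
        rw [e1, e1]
      have h2 : ρ (e (X (f (e w)))) = res p (p * X * p) (ρ (e w)) -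
          LinearMap.trace K (LinearMap.range p) (res p (p * X * p)) • ρ (e w) := by
        apply Subtype.ext
        rw [hρe, Submodule.coe_sub, Submodule.coe_smul, res_coe, hρe,
          res_trace (by rw [← mul_assoc, ← mul_assoc, hppp])]
        have h3 := LinearMap.congr_fun (hD X hX) (e w)
        rw [LinearMap.sub_apply, LinearMap.smul_apply] at h3
        have h4 : p (e w) = e w := by rw [← Module.End.mul_apply, hpe]
        rw [h4] at h3
        have h5 : p ((p * X * p) (e w)) = (p * X * p) (e w) := by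
          rw [← Module.End.mul_apply, ← mul_assoc, ← mul_assoc, hppp]
        rw [h5, ← h3]
        rfl
      rw [h1, h2, map_sub, map_smul, smul_eq_mul]
      have h3 := hκ (res p (p * X * p)) (ρ v) (ρ (e w))
      linear_combination h3)
  refine ⟨B, ?_, hB2⟩
  rintro rfl
  apply hκ0
  ext ⟨_, ⟨x, rfl⟩⟩ ⟨_, ⟨y, rfl⟩⟩
  have h1 := hB1 x (f y)
  rw [hβ] at h1
  have h2 : ρ (e (f y)) = ⟨p y, y, rfl⟩ := by
    apply Subtype.ext
    rw [hρe, hp]
    rfl
  rw [h2] at h1
  exact h1.symm

end Pool.Agent.H25U
end

-- from Lib.H25U.B2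
section

/-!
# B2: the component theorem for one frame, no balance condition
-/

set_option autoImplicit false
set_option linter.unusedSectionVars false
namespace Pool.Agent.H25U
open Module Pool.Agent.H53Toric Pool.Agent.H49M
open Pool.Agent.H86N (CoreN)

variable {K : Type*} [Field K] {V : Type*} [AddCommGroup V] [Module K V]

variable {L : Submodule K (Module.End K V)}

theorem eig_dim [CharZero K] [FiniteDimensional K V] {s : Module.End K V} (hs2 : s * s = 1) {c : K}
    (hc : c * c = 1) : (finrank K (eig s c) : K) = LinearMap.trace K V ((1 / 2 : K) • (1 + c • s)) := by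
  have h1 : ((1 / 2 : K) • (1 + c • s)) * ((1 / 2 : K) • (1 + c • s)) = (1 / 2 : K) • (1 + c • s) := by
    have h2 : (1 + c • s) * (1 + c • s) = (2 : K) • (1 + c • s) := by
      have h3 : (c • s) * (c • s) = 1 := by rw [smul_mul_smul_comm, hc, hs2, one_smul]
      generalize c • s = t at h3 ⊢
      have h4 : (1 + t) * (1 + t) = 1 + t + t + t * t := by noncomm_ring
      rw [h4, h3, two_smul]
      abel
    rw [smul_mul_smul_comm, h2, smul_smul]
    norm_num
  have h2 := trace_idem h1
  rw [K5_range hs2 hc] at h2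
  exact h2.symm

theorem eig_diff [CharZero K] [FiniteDimensional K V] {s : Module.End K V} (hs2 : s * s = 1) :
    (finrank K (eig s 1) : K) - (finrank K (eig s (-1)) : K) = LinearMap.trace K V s := by
  rw [eig_dim hs2 (one_mul 1), eig_dim hs2 (show (-1 : K) * -1 = 1 by ring), ← map_sub]
  congr 1
  rw [← smul_sub, one_smul, neg_one_smul]
  have : (1 + s - (1 + -s)) = (2 : K) • s := by rw [two_smul]; abel
  rw [this, smul_smul]
  norm_num

theorem eig_neg {s : Module.End K V} (c : K) : eig (-s) c = eig s (-c) := by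
  ext v
  rw [eig, eig, LinearMap.mem_ker, LinearMap.mem_ker, LinearMap.sub_apply, LinearMap.sub_apply,
    LinearMap.neg_apply, LinearMap.smul_apply, LinearMap.smul_apply, Module.End.one_apply, neg_smul,
    sub_neg_eq_add, ← neg_eq_zero, neg_sub, sub_neg_eq_add, add_comm]


/-- An invariant form forces equal dimensions. -/
theorem bal_of_form [CharZero K] [FiniteDimensional K V] (h : CoreN L) {s : Module.End K V}
    (hs : InL L s) (hs2 : s * s = 1) {B : V →ₗ[K] V →ₗ[K] K} (hB : B ≠ 0)
    (hinv : ∀ X ∈ L, ∀ v w, B (X v) w + B v (X w) = 0) :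
    finrank K (eig s 1) = finrank K (eig s (-1)) := by
  obtain ⟨c, hc⟩ := hs.mem
  have hker : ∀ v, B v = 0 → v = 0 := by
    intro v hv
    rcases h.irr (LinearMap.ker B) (by
      intro X hX v hv
      rw [LinearMap.mem_ker] at hv ⊢
      ext w
      have h1 := hinv X hX v w
      rw [hv, LinearMap.zero_apply, add_zero] at h1
      exact h1) with h1 | h1
    · have h2 : v ∈ LinearMap.ker B := hv
      rw [h1, Submodule.mem_bot] at h2
      exact h2
    · exact absurd (LinearMap.ker_eq_top.1 h1) hB
  have key : ∀ (a b : K) (v w : V), s v = a • v → s w = b • w → (a + b + 2 * c) * B v w = 0 := by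
    intro a b v w hv hw
    have h1 := hinv _ hc v w
    rw [LinearMap.add_apply, LinearMap.add_apply, hv, hw, LinearMap.smul_apply, LinearMap.smul_apply,
      Module.End.one_apply, Module.End.one_apply, ← add_smul, ← add_smul, map_smul, map_smul,
      LinearMap.smul_apply, smul_eq_mul, smul_eq_mul] at h1
    linear_combination h1
  -- the decomposition of a vector
  have hdec : ∀ v : V, ∃ a b : V, s a = (1 : K) • a ∧ s b = (-1 : K) • b ∧ v = a + b := by
    intro v
    have hss : s (s v) = v := LinearMap.congr_fun hs2 v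
    refine ⟨(1 / 2 : K) • (v + s v), (1 / 2 : K) • (v - s v), ?_, ?_, ?_⟩
    · rw [map_smul, map_add, hss, one_smul, add_comm]
    · rw [map_smul, map_sub, hss, smul_comm, neg_one_smul, neg_sub]
    · rw [← smul_add]
      have : v + s v + (v - s v) = (2 : K) • v := by rw [two_smul]; abel
      rw [this, smul_smul]
      norm_num
  by_cases hc0 : c = 0
  · rw [hc0, zero_smul, add_zero] at hc
    have h1 := eig_diff (K := K) hs2
    rw [h.tr s hc, sub_eq_zero] at h1
    exact_mod_cast h1
  exfalso
  have hmix : ∀ v w : V, s v = (1 : K) • v → s w = (-1 : K) • w → B v w = 0 ∧ B w v = 0 := by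
    intro v w hv hw
    constructor
    · have h1 := key 1 (-1) v w hv hw
      have h2 : (2 * c) * B v w = 0 := by linear_combination h1
      exact (mul_eq_zero.1 h2).resolve_left (mul_ne_zero two_ne_zero hc0)
    · have h1 := key (-1) 1 w v hw hv
      have h2 : (2 * c) * B w v = 0 := by linear_combination h1
      exact (mul_eq_zero.1 h2).resolve_left (mul_ne_zero two_ne_zero hc0)
  by_cases hc1 : c = -1
  · -- the minus part vanishes
    apply hs.ne1
    ext v
    obtain ⟨a, b, ha, hb, rfl⟩ := hdec v
    have hb0 : b = 0 := by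
      apply hker
      ext w
      obtain ⟨a', b', ha', hb', rfl⟩ := hdec w
      rw [map_add, (hmix a' b ha' hb).2, zero_add, LinearMap.zero_apply]
      have h1 := key (-1) (-1) b b' hb hb'
      have h2 : (-4 : K) * B b b' = 0 := by rw [hc1] at h1; linear_combination h1
      exact (mul_eq_zero.1 h2).resolve_left (by norm_num)
    rw [hb0, add_zero, ha, one_smul, Module.End.one_apply]
  · apply hs.ne2
    ext v
    obtain ⟨a, b, ha, hb, rfl⟩ := hdec v
    have ha0 : a = 0 := by
      apply hker
      ext w
      obtain ⟨a', b', ha', hb', rfl⟩ := hdec w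
      rw [map_add, (hmix a b' ha hb').1, add_zero, LinearMap.zero_apply]
      have h1 := key 1 1 a a' ha ha'
      have h2 : (1 + c) * B a a' = 0 := by linear_combination (1 / 2 : K) * h1
      refine (mul_eq_zero.1 h2).resolve_left fun h3 => hc1 ?_
      exact (neg_eq_of_add_eq_zero_right h3).symm
    rw [ha0, zero_add, hb, neg_one_smul, LinearMap.neg_apply, Module.End.one_apply]

/-- The dimension of the plus space if two frames fill it. -/
theorem eig_two [CharZero K] [IsAlgClosed K] [FiniteDimensional K V] [Nontrivial V]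
    {s e f e' f' u : Module.End K V} (G : Grid L s e f e' f' u)
    (h0 : (1 / 2 : K) • (1 + s) = e * f + e' * f') :
    finrank K (eig s 1) = 2 * finrank K (LinearMap.range e) := by
  have h1 := eig_dim (K := K) G.F.s_sq (one_mul (1 : K))
  rw [one_smul, h0, map_add, (K0_rank G.F).2.2, (K0_rank G.F').2.2] at h1
  have h2 : finrank K (LinearMap.range e') = finrank K (LinearMap.range e) := by
    apply le_antisymm
    · have e1 : finrank K (LinearMap.range (u * f * u)) ≤ finrank K (LinearMap.range f) :=
        (finrank_range_mul_le_left _ _).trans (finrank_range_mul_le_right _ _)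
      rw [G.ufu] at e1
      have e2 : finrank K (LinearMap.range f) ≤ finrank K (LinearMap.range e) := by
        calc finrank K (LinearMap.range f) = finrank K (LinearMap.range (f * e * f)) := by rw [G.F.fef]
          _ ≤ finrank K (LinearMap.range (f * e)) := finrank_range_mul_le_left _ _
          _ ≤ _ := finrank_range_mul_le_right _ _
      exact e1.trans e2
    · have e1 : finrank K (LinearMap.range (u * f' * u)) ≤ finrank K (LinearMap.range f') :=
        (finrank_range_mul_le_left _ _).trans (finrank_range_mul_le_right _ _)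
      rw [G.ufu'] at e1
      have e2 : finrank K (LinearMap.range f') ≤ finrank K (LinearMap.range e') := by
        calc finrank K (LinearMap.range f') = finrank K (LinearMap.range (f' * e' * f')) := by rw [G.F'.fef]
          _ ≤ finrank K (LinearMap.range (f' * e')) := finrank_range_mul_le_left _ _
          _ ≤ _ := finrank_range_mul_le_right _ _
      exact e1.trans e2
  rw [h2] at h1
  have h3 : (finrank K (eig s 1) : K) = ((2 * finrank K (LinearMap.range e) : ℕ) : K) := by
    rw [h1]
    push_cast
    ring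
  exact_mod_cast h3

/-- **The component theorem for one frame, unequal dimensions.** -/
theorem coreU_frame [CharZero K] [IsAlgClosed K] [FiniteDimensional K V] [Nontrivial V]
    (h : CoreN L) {s e f : Module.End K V} (F : Frame L s e f)
    (hne : finrank K (eig s 1) ≠ finrank K (eig s (-1))) :
    finrank K (LinearMap.range e) = 1 ∨
    ∃ n k : ℕ, 2 ≤ k ∧ k ≤ n ∧ finrank K (eig s 1) = (n + 1).choose k ∧
      finrank K (eig s (-1)) = (n + 1).choose (k - 1) ∧ finrank K V = (n + 2).choose k ∧
      finrank K (LinearMap.range e) = n.choose (k - 1) := by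
  have hnf : ∀ B : V →ₗ[K] V →ₗ[K] K, B ≠ 0 → (∀ X ∈ L, ∀ v w, B (X v) w + B v (X w) = 0) → False :=
    fun B hB hinv => hne (bal_of_form h F.s_mem F.s_sq hB hinv)
  by_cases ha : ∀ u ∈ J1 L s e f, u * f * u = 0
  · exact K5_final h F ha
  push Not at ha
  obtain ⟨u, hu, hu0⟩ := ha
  obtain ⟨e', f', G⟩ := P1_grid h F hu hu0
  rcases P5_dich h G with hall | hp0
  · rcases P6_two h G hall with h1 | ⟨h1, -⟩
    · exact Or.inl h1
    · obtain ⟨B, hB, hinv⟩ := r2_form h G h1
      exact (hnf B hB hinv).elim
  have Fs := K0_swap h.lie F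
  have hrk : finrank K (LinearMap.range f) = finrank K (LinearMap.range e) := by
    apply le_antisymm
    · calc finrank K (LinearMap.range f) = finrank K (LinearMap.range (f * e * f)) := by rw [F.fef]
        _ ≤ finrank K (LinearMap.range (f * e)) := finrank_range_mul_le_left _ _
        _ ≤ _ := finrank_range_mul_le_right _ _
    · calc finrank K (LinearMap.range e) = finrank K (LinearMap.range (e * f * e)) := by rw [F.efe]
        _ ≤ finrank K (LinearMap.range (e * f)) := finrank_range_mul_le_left _ _
        _ ≤ _ := finrank_range_mul_le_right _ _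
  by_cases ha' : ∀ w ∈ J1 L (-s) f e, w * e * w = 0
  · rcases K5_final h Fs ha' with h1 | ⟨n, k, hk2, hkn, h1, h2, h3, h4⟩
    · exact Or.inl (hrk ▸ h1)
    · right
      rw [eig_neg] at h1 h2
      rw [neg_neg] at h2
      refine ⟨n, n + 2 - k, by omega, by omega, ?_, ?_, ?_, ?_⟩
      · rw [h2, show n + 2 - k = n + 1 - (k - 1) by omega, Nat.choose_symm (by omega)]
      · rw [h1, show n + 2 - k - 1 = n + 1 - k by omega, Nat.choose_symm (by omega)]
      · rw [h3, Nat.choose_symm (by omega)]
      · rw [← hrk, h4, show n + 2 - k - 1 = n - (k - 1) by omega, Nat.choose_symm (by omega)]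
  push Not at ha'
  obtain ⟨w, hw, hw0⟩ := ha'
  obtain ⟨e'', f'', G'⟩ := P1_grid h Fs hw hw0
  rcases P5_dich h G' with hall | hq0
  · rcases P6_two h G' hall with h1 | ⟨h1, -⟩
    · exact Or.inl (hrk ▸ h1)
    · obtain ⟨B, hB, hinv⟩ := r2_form h G' h1
      exact (hnf B hB hinv).elim
  · exfalso
    have h1 := eig_two G hp0
    have h2 := eig_two G' hq0
    rw [eig_neg] at h2
    exact hne (by rw [h1, h2, hrk])

end Pool.Agent.H25U
end

-- from Lib.H25U.E1
section

/-!
# E1: rank one and no invariant form: the special linear algebra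
-/

set_option autoImplicit false
set_option linter.unusedSectionVars false
namespace Pool.Agent.H25U
open Module Pool.Agent.H53Toric Pool.Agent.H49M
open Pool.Agent.H86N (CoreN)

variable {K : Type*} [Field K] {V : Type*} [AddCommGroup V] [Module K V]
variable {L : Submodule K (Module.End K V)}

/-- A rank one idempotent. -/
theorem E1_vec [FiniteDimensional K V] {p : Module.End K V} (hp : p * p = p)
    (h : finrank K (LinearMap.range p) = 1) :
    ∃ (v : V) (χ : Module.Dual K V), χ v = 1 ∧ ∀ x, p x = χ x • v := by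
  obtain ⟨w, hw0, hw⟩ := finrank_eq_one_iff'.1 h
  have hpw : p (w : V) = w := by
    obtain ⟨y, hy⟩ := w.2
    rw [← hy]
    exact LinearMap.congr_fun hp y
  have hw0' : (w : V) ≠ 0 := fun h => hw0 (Subtype.ext h)
  obtain ⟨φ, hφ⟩ := Module.Projective.exists_dual_ne_zero (R := K) hw0'
  refine ⟨w, ((φ (w : V))⁻¹ • φ) ∘ₗ p, ?_, fun x => ?_⟩
  · rw [LinearMap.comp_apply, hpw, LinearMap.smul_apply, smul_eq_mul, inv_mul_cancel₀ hφ]
  · obtain ⟨c, hc⟩ := hw ⟨p x, LinearMap.mem_range_self p x⟩
    have hc' : c • (w : V) = p x := congrArg Subtype.val hc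
    rw [LinearMap.comp_apply, ← hc', LinearMap.smul_apply, map_smul, smul_eq_mul, smul_eq_mul,
      mul_comm c, inv_mul_cancel_left₀ hφ]

theorem E1_tr [FiniteDimensional K V] {p : Module.End K V} {v : V} {χ : Module.Dual K V}
    (h : ∀ x, p x = χ x • v) (X : Module.End K V) : LinearMap.trace K V (p * X) = χ (X v) := by
  have e : p * X = (χ ∘ₗ X).smulRight v := by
    ext x
    rw [Module.End.mul_apply, h, LinearMap.smulRight_apply, LinearMap.comp_apply]
  rw [e, LinearMap.trace_smulRight, LinearMap.comp_apply]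

theorem E1_sand {p : Module.End K V} {v : V} {χ : Module.Dual K V}
    (h : ∀ x, p x = χ x • v) (X : Module.End K V) : p * X * p = χ (X v) • p := by
  ext x
  rw [Module.End.mul_apply, Module.End.mul_apply, LinearMap.smul_apply, h x, map_smul, map_smul, h,
    smul_comm]

/-- The functional `tr ((e f + f e) X)` vanishes if the Peirce one parts are in duality. -/
theorem E1_zero [CharZero K] [IsAlgClosed K] [FiniteDimensional K V] [Nontrivial V]
    (h : CoreN L) {s e f : Module.End K V} (F : Frame L s e f)
    (H : ∀ u ∈ J1 L s e f, ∀ g ∈ J1 L (-s) f e,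
      LinearMap.trace K V (e * f * u * g) = LinearMap.trace K V (f * e * g * u))
    {X : Module.End K V} (hX : X ∈ L) : LinearMap.trace K V ((e * f + f * e) * X) = 0 := by
  have hee := K0_ee F
  have hff := K0_ff F
  have pp : e * f * (e * f) = e * f := by rw [← mul_assoc, F.efe]
  have qq : f * e * (f * e) = f * e := by rw [← mul_assoc, F.fef]
  have two : (2 : K) ≠ 0 := by norm_num
  -- the main computation
  have main : ∀ X' ∈ Lp L s, ∀ Y' ∈ Lm L s,
      LinearMap.trace K V (e * f * (X' * Y')) = LinearMap.trace K V (f * e * (Y' * X')) := by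
    intro X' hX' Y' hY'
    have hu := K1_comp h.lie F hX'
    have hg := K1_comp h.lie (K0_swap h.lie F) (W := Y') (by rw [K0_Lp]; exact hY')
    have h1 := H _ hu _ hg
    obtain ⟨p, hp⟩ : ∃ p, p = e * f := ⟨_, rfl⟩
    obtain ⟨q, hq⟩ : ∃ q, q = f * e := ⟨_, rfl⟩
    rw [← hp, ← hq] at h1 ⊢
    rw [← hp] at pp
    rw [← hq] at qq
    have pq : p * q = 0 := by rw [hp, hq, mul_assoc, ← mul_assoc f, hff]; simp
    have qp : q * p = 0 := by rw [hp, hq, mul_assoc, ← mul_assoc e, hee]; simp
    have fY : f * Y' = 0 := A2_mm F.f_mem hY'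
    have eX : e * X' = 0 := A2_pp F.e_mem hX'
    have pY : p * Y' = 0 := by rw [hp, mul_assoc, fY, mul_zero]
    have qX : q * X' = 0 := by rw [hq, mul_assoc, eX, mul_zero]
    -- trace of the left side
    have e1 : LinearMap.trace K V (p * (p * X' + X' * q - (2 : K) • (p * X' * q)) *
        (q * Y' + Y' * p - (2 : K) • (q * Y' * p))) =
        LinearMap.trace K V (p * (X' * Y')) - LinearMap.trace K V (p * X' * q * Y') := by
      have a1 : p * (p * X' + X' * q - (2 : K) • (p * X' * q)) = p * X' - p * X' * q := by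
        calc p * (p * X' + X' * q - (2 : K) • (p * X' * q)) =
            (p * p) * X' + p * X' * q - (2 : K) • ((p * p) * X' * q) := by
              rw [mul_sub, mul_add, mul_smul_comm]; noncomm_ring
          _ = p * X' - p * X' * q := by rw [pp]; module
      have a2 : LinearMap.trace K V ((p * X' - p * X' * q) * (q * Y' + Y' * p - (2 : K) • (q * Y' * p))) =
          LinearMap.trace K V (((p * X' - p * X' * q) * (q * Y' + Y' * p - (2 : K) • (q * Y' * p))) * p) := by
        have a3 : (p * X' - p * X' * q) * (q * Y' + Y' * p - (2 : K) • (q * Y' * p)) =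
            p * ((X' - X' * q) * (q * Y' + Y' * p - (2 : K) • (q * Y' * p))) := by noncomm_ring
        have a4 : p * ((p * X' - p * X' * q) * (q * Y' + Y' * p - (2 : K) • (q * Y' * p))) =
            (p * p) * ((X' - X' * q) * (q * Y' + Y' * p - (2 : K) • (q * Y' * p))) := by noncomm_ring
        rw [LinearMap.trace_mul_comm K _ p, a4, pp, ← a3]
      have a5 : (p * X' - p * X' * q) * (q * Y' + Y' * p - (2 : K) • (q * Y' * p)) * p =
          p * X' * Y' * p - p * X' * q * Y' * p := by
        have b1 : (q * Y' + Y' * p - (2 : K) • (q * Y' * p)) * p = Y' * p - q * Y' * p := by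
          calc (q * Y' + Y' * p - (2 : K) • (q * Y' * p)) * p =
              q * Y' * p + Y' * (p * p) - (2 : K) • (q * Y' * (p * p)) := by
                rw [sub_mul, add_mul, smul_mul_assoc]; noncomm_ring
            _ = _ := by rw [pp]; module
        rw [mul_assoc (p * X' - p * X' * q), b1]
        calc (p * X' - p * X' * q) * (Y' * p - q * Y' * p) =
            p * X' * Y' * p - p * X' * q * Y' * p - p * X' * q * Y' * p + p * X' * (q * q) * Y' * p := by
              noncomm_ring
          _ = _ := by rw [qq]; noncomm_ring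
      rw [a1, a2, a5, map_sub]
      congr 1
      · rw [LinearMap.trace_mul_comm]
        have : p * (p * X' * Y') = (p * p) * (X' * Y') := by noncomm_ring
        rw [this, pp]
      · rw [LinearMap.trace_mul_comm]
        have : p * (p * X' * q * Y') = (p * p) * X' * q * Y' := by noncomm_ring
        rw [this, pp]
    have e2 : LinearMap.trace K V (q * (q * Y' + Y' * p - (2 : K) • (q * Y' * p)) *
        (p * X' + X' * q - (2 : K) • (p * X' * q))) =
        LinearMap.trace K V (q * (Y' * X')) - LinearMap.trace K V (q * Y' * p * X') := by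
      have a1 : q * (q * Y' + Y' * p - (2 : K) • (q * Y' * p)) = q * Y' - q * Y' * p := by
        calc q * (q * Y' + Y' * p - (2 : K) • (q * Y' * p)) =
            (q * q) * Y' + q * Y' * p - (2 : K) • ((q * q) * Y' * p) := by
              rw [mul_sub, mul_add, mul_smul_comm]; noncomm_ring
          _ = q * Y' - q * Y' * p := by rw [qq]; module
      have a2 : LinearMap.trace K V ((q * Y' - q * Y' * p) * (p * X' + X' * q - (2 : K) • (p * X' * q))) =
          LinearMap.trace K V (((q * Y' - q * Y' * p) * (p * X' + X' * q - (2 : K) • (p * X' * q))) * q) := by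
        have a3 : (q * Y' - q * Y' * p) * (p * X' + X' * q - (2 : K) • (p * X' * q)) =
            q * ((Y' - Y' * p) * (p * X' + X' * q - (2 : K) • (p * X' * q))) := by noncomm_ring
        have a4 : q * ((q * Y' - q * Y' * p) * (p * X' + X' * q - (2 : K) • (p * X' * q))) =
            (q * q) * ((Y' - Y' * p) * (p * X' + X' * q - (2 : K) • (p * X' * q))) := by noncomm_ring
        rw [LinearMap.trace_mul_comm K _ q, a4, qq, ← a3]
      have a5 : (q * Y' - q * Y' * p) * (p * X' + X' * q - (2 : K) • (p * X' * q)) * q =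
          q * Y' * X' * q - q * Y' * p * X' * q := by
        have b1 : (p * X' + X' * q - (2 : K) • (p * X' * q)) * q = X' * q - p * X' * q := by
          calc (p * X' + X' * q - (2 : K) • (p * X' * q)) * q =
              p * X' * q + X' * (q * q) - (2 : K) • (p * X' * (q * q)) := by
                rw [sub_mul, add_mul, smul_mul_assoc]; noncomm_ring
            _ = _ := by rw [qq]; module
        rw [mul_assoc (q * Y' - q * Y' * p), b1]
        calc (q * Y' - q * Y' * p) * (X' * q - p * X' * q) =
            q * Y' * X' * q - q * Y' * p * X' * q - q * Y' * p * X' * q + q * Y' * (p * p) * X' * q := by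
              noncomm_ring
          _ = _ := by rw [pp]; noncomm_ring
      rw [a1, a2, a5, map_sub]
      congr 1
      · rw [LinearMap.trace_mul_comm]
        have : q * (q * Y' * X') = (q * q) * (Y' * X') := by noncomm_ring
        rw [this, qq]
      · rw [LinearMap.trace_mul_comm]
        have : q * (q * Y' * p * X') = (q * q) * Y' * p * X' := by noncomm_ring
        rw [this, qq]
    have e3 : LinearMap.trace K V (p * X' * q * Y') = LinearMap.trace K V (q * Y' * p * X') := by
      have : p * X' * q * Y' = (p * X') * (q * Y') := by noncomm_ring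
      rw [this, LinearMap.trace_mul_comm]
      congr 1
    rw [e1, e2, e3] at h1
    linear_combination h1
  -- the decomposition of X
  obtain ⟨a, ha, b, hb, c, hc, rfl⟩ := A2_decomp h F.s_mem F.s_sq hX
  have es : e * s = -e := F.e_mem.2.2
  have se : s * e = e := F.e_mem.2.1
  have fs : f * s = f := F.f_mem.2.2
  have sf : s * f = -f := F.f_mem.2.1
  have hz : ∀ t : K, t = -t → t = 0 := by
    intro t ht
    have : (2 : K) * t = 0 := by linear_combination ht
    exact (mul_eq_zero.1 this).resolve_left two
  have ta : LinearMap.trace K V ((e * f + f * e) * a) = 0 := by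
    have h1 : f * e * a = 0 := by rw [mul_assoc, A2_pp F.e_mem ha, mul_zero]
    rw [add_mul, h1, add_zero]
    apply hz
    have h2 : e * f * a = s * (e * f * a) := by rw [← mul_assoc, ← mul_assoc, se]
    nth_rw 1 [h2]
    rw [LinearMap.trace_mul_comm, mul_assoc, ha.2.2, mul_neg, map_neg]
  have tc : LinearMap.trace K V ((e * f + f * e) * c) = 0 := by
    have h1 : e * f * c = 0 := by rw [mul_assoc, A2_mm F.f_mem hc, mul_zero]
    rw [add_mul, h1, zero_add]
    apply hz
    have h2 : f * e * c = -(s * (f * e * c)) := by rw [← mul_assoc, ← mul_assoc, sf]; noncomm_ring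
    nth_rw 1 [h2]
    rw [map_neg, LinearMap.trace_mul_comm, mul_assoc, hc.2.2]
  have tb : LinearMap.trace K V ((e * f + f * e) * b) = 0 := by
    have key : ∀ b ∈ Submodule.span K {W | ∃ X ∈ Lp L s, ∃ Y ∈ Lm L s, W = X * Y - Y * X},
        LinearMap.trace K V ((e * f + f * e) * b) = 0 := by
      intro b hb
      induction hb using Submodule.span_induction with
      | mem b hb =>
        obtain ⟨X', hX', Y', hY', rfl⟩ := hb
        have h1 : (e * f + f * e) * (X' * Y' - Y' * X') =
            e * f * (X' * Y') - f * e * (Y' * X') - e * (f * Y') * X' + f * (e * X') * Y' := by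
          noncomm_ring
        rw [h1, A2_mm F.f_mem hY', A2_pp F.e_mem hX', mul_zero, mul_zero, zero_mul, zero_mul,
          sub_zero, add_zero, map_sub, main X' hX' Y' hY', sub_self]
      | zero => rw [mul_zero, map_zero]
      | add a b _ _ ha hb => rw [mul_add, map_add, ha, hb, add_zero]
      | smul c a _ ha => rw [mul_smul_comm, map_smul, ha, smul_zero]
    exact key b (A3_span h F.s_mem F.s_sq hb)
  rw [mul_add, mul_add, map_add, map_add, ta, tb, tc, add_zero, add_zero]

/-- If the Peirce one parts are not in duality, the two halves of `u` are in `L`. -/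
theorem E1_split [CharZero K] (hl : IsLie L) {s e f : Module.End K V} (F : Frame L s e f)
    {u g : Module.End K V} (hu : u ∈ J1 L s e f) (hg : g ∈ J1 L (-s) f e) {c₁ c₂ : K}
    (h1 : e * f * u * g * (e * f) = c₁ • (e * f)) (h2 : f * e * g * u * (f * e) = c₂ • (f * e))
    (hne : c₁ ≠ c₂) : e * f * u ∈ L ∧ u * (f * e) ∈ L := by
  have hee := K0_ee F
  have hff := K0_ff F
  have hup : u ∈ Lp L s := hu.1
  have hgm : g ∈ Lm L s := by
    have := hg.1
    rwa [K0_Lp] at this
  have eu : e * u = 0 := A2_pp F.e_mem hup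
  have ue : u * e = 0 := A2_pp hup F.e_mem
  have uu : u * u = 0 := A2_pp hup hup
  have hm : u * f * u ∈ L := hl.sandwich hup.1 uu F.f_mem.1
  have h3 := hl _ (hl _ hgm.1 _ hm) _ F.e_mem.1
  have e1 : (g * (u * f * u) - u * f * u * g) * e - e * (g * (u * f * u) - u * f * u * g) =
      -(c₁ • (u * (f * e))) - c₂ • (e * f * u) := by
    have a1 : u * f * u * g * e = c₁ • (u * (f * e)) := by
      calc u * f * u * g * e = u * f * (e * f * u * g * (e * f)) * e := by
            have b1 : u * (f * e * f) * u * g * (e * f * e) = u * f * u * g * e := by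
              rw [F.fef, F.efe]
            rw [← b1]
            noncomm_ring
        _ = c₁ • (u * (f * e) * (f * e)) := by
            rw [h1, mul_smul_comm, smul_mul_assoc]
            congr 1
        _ = c₁ • (u * (f * e)) := by
            have b2 : u * (f * e) * (f * e) = u * (f * e * f) * e := by noncomm_ring
            rw [b2, F.fef, mul_assoc]
    have a2 : e * g * u * f * u = c₂ • (e * f * u) := by
      calc e * g * u * f * u = e * (f * e * g * u * (f * e)) * f * u := by
            have b1 : (e * f * e) * g * u * (f * e * f) * u = e * g * u * f * u := by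
              rw [F.fef, F.efe]
            rw [← b1]
            noncomm_ring
        _ = c₂ • (e * (f * e) * f * u) := by
            rw [h2, mul_smul_comm, smul_mul_assoc, smul_mul_assoc]
        _ = c₂ • (e * f * u) := by
            have b2 : e * (f * e) * f * u = e * (f * e * f) * u := by noncomm_ring
            rw [b2, F.fef]
    calc (g * (u * f * u) - u * f * u * g) * e - e * (g * (u * f * u) - u * f * u * g) =
        g * u * f * (u * e) - u * f * u * g * e - e * g * u * f * u + (e * u) * f * u * g := by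
          noncomm_ring
      _ = _ := by rw [ue, eu, a1, a2]; simp
  rw [e1] at h3
  have h4 : u * (f * e) = u - e * f * u := eq_sub_of_add_eq' hu.2
  have h5 : (c₁ - c₂) • (e * f * u) ∈ L := by
    have e2 : (c₁ - c₂) • (e * f * u) = (-(c₁ • (u * (f * e))) - c₂ • (e * f * u)) + c₁ • u := by
      rw [h4]
      module
    rw [e2]
    exact L.add_mem h3 (L.smul_mem _ hup.1)
  have h6 : e * f * u ∈ L := by
    have h7 := L.smul_mem (c₁ - c₂)⁻¹ h5
    rwa [smul_smul, inv_mul_cancel₀ (sub_ne_zero.2 hne), one_smul] at h7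
  refine ⟨h6, ?_⟩
  rw [h4]
  exact L.sub_mem hup.1 h6

/-- The idempotent `e f` multiplies the part of weight one. -/
theorem E1_left [CharZero K] (hl : IsLie L) {s e f : Module.End K V} (F : Frame L s e f)
    {u g : Module.End K V} (hu : u ∈ J1 L s e f) (hg : g ∈ J1 L (-s) f e) {c₂ : K}
    (h2 : f * e * g * u * (f * e) = c₂ • (f * e)) (hc : c₂ ≠ 0)
    (hu' : u * (f * e) ∈ L) (hg' : f * e * g ∈ L) {X : Module.End K V} (hX : X ∈ Lp L s) :
    e * f * X ∈ Lp L s := by
  have hee := K0_ee F
  have hff := K0_ff F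
  have hup : u ∈ Lp L s := hu.1
  have hgm : g ∈ Lm L s := by
    have := hg.1
    rwa [K0_Lp] at this
  have pp : e * f * (e * f) = e * f := by rw [← mul_assoc, F.efe]
  have qq : f * e * (f * e) = f * e := by rw [← mul_assoc, F.fef]
  have puq : e * f * u * (f * e) = 0 := by
    have h3 : e * f * (e * f * u + u * (f * e)) = e * f * u := by rw [hu.2]
    rw [mul_add, ← mul_assoc (e * f), pp, ← mul_assoc (e * f)] at h3
    exact left_eq_add.1 h3.symm
  have qgp : f * e * g * (e * f) = 0 := by
    have h3 : f * e * (f * e * g + g * (e * f)) = f * e * g := by rw [hg.2]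
    rw [mul_add, ← mul_assoc (f * e), qq, ← mul_assoc (f * e)] at h3
    exact left_eq_add.1 h3.symm
  -- the two operators of weight zero
  have m1 : u * f ∈ L := by
    have h3 := hl _ hu' _ F.f_mem.1
    have e1 : u * (f * e) * f - f * (u * (f * e)) = u * (f * e * f) - f * (e * f * u * (f * e)) := by
      have b : f * (u * (f * e)) = (f * e * f) * (u * (f * e)) := by
        rw [F.fef]
      rw [b]
      noncomm_ring
    rw [e1, F.fef, puq, mul_zero, sub_zero] at h3
    exact h3
  have m2 : e * g ∈ L := by
    have h3 := hl _ F.e_mem.1 _ hg'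
    have e1 : e * (f * e * g) - f * e * g * e = (e * f * e) * g - (f * e * g * (e * f)) * e := by
      have b : f * e * g * e = f * e * g * (e * f * e) := by rw [F.efe]
      rw [b]
      noncomm_ring
    rw [e1, F.efe, qgp, zero_mul, sub_zero] at h3
    exact h3
  have Xu : X * u = 0 := A2_pp hX hup
  have n1 : u * f * X ∈ L := by
    have h3 := hl _ m1 _ hX.1
    have e1 : u * f * X - X * (u * f) = u * f * X := by
      rw [← mul_assoc, Xu, zero_mul, sub_zero]
    rwa [e1] at h3
  have n2 : e * g * (u * f * X) ∈ L := by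
    have h3 := hl _ m2 _ n1
    have e1 : e * g * (u * f * X) - u * f * X * (e * g) = e * g * (u * f * X) := by
      have b : u * f * X * (e * g) = u * f * (X * e) * g := by noncomm_ring
      rw [b, A2_pp hX F.e_mem, mul_zero, zero_mul, sub_zero]
    rwa [e1] at h3
  have e2 : e * g * (u * f * X) = c₂ • (e * f * X) := by
    calc e * g * (u * f * X) = e * (f * e * g * u * (f * e)) * f * X := by
          have b : (e * f * e) * g * u * (f * e * f) * X = e * g * (u * f * X) := by
            rw [F.efe, F.fef]
            noncomm_ring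
          rw [← b]
          noncomm_ring
      _ = c₂ • (e * (f * e * f) * X) := by
          rw [h2, mul_smul_comm, smul_mul_assoc, smul_mul_assoc]
          congr 1
      _ = c₂ • (e * f * X) := by rw [F.fef]
  rw [e2] at n2
  have n3 : e * f * X ∈ L := by
    have h7 := L.smul_mem c₂⁻¹ n2
    rwa [smul_smul, inv_mul_cancel₀ hc, one_smul] at h7
  refine ⟨n3, ?_, ?_⟩
  · rw [← mul_assoc, ← mul_assoc, F.e_mem.2.1]
  · rw [mul_assoc, hX.2.2, mul_neg]

/-- If `e f` multiplies the part of weight one, this part is everything. -/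
theorem E1_full [CharZero K] [IsAlgClosed K] [FiniteDimensional K V] [Nontrivial V]
    (h : CoreN L) {s e f : Module.End K V} (F : Frame L s e f)
    {v₁ : V} {χ : Module.Dual K V} (hχ : χ v₁ = 1) (hp : ∀ x, (e * f) x = χ x • v₁)
    (hL : ∀ X ∈ Lp L s, e * f * X ∈ Lp L s) {T : Module.End K V} (hT : s * T = T)
    (hT' : T * s = -T) : T ∈ Lp L s := by
  have pv : (e * f) v₁ = v₁ := by rw [hp, hχ, one_smul]
  have sp : s * (e * f) = e * f := by rw [← mul_assoc, F.e_mem.2.1]
  have ps : e * f * s = e * f := by rw [mul_assoc, F.f_mem.2.2]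
  have sv : s v₁ = v₁ := by
    have := LinearMap.congr_fun sp v₁
    rwa [Module.End.mul_apply, pv] at this
  have hv0 : v₁ ≠ 0 := by
    rintro rfl
    rw [map_zero] at hχ
    exact zero_ne_one hχ
  have χs : ∀ x, χ (s x) = χ x := by
    intro x
    have h1 := LinearMap.congr_fun ps x
    rw [Module.End.mul_apply, hp, hp] at h1
    have h2 := congrArg χ h1
    rwa [map_smul, map_smul, hχ, smul_eq_mul, smul_eq_mul, mul_one, mul_one] at h2
  -- the multipliers
  let W : Submodule K V :=
    { carrier := {a | s a = a ∧ ∀ X ∈ Lp L s, (χ.smulRight a : Module.End K V) * X ∈ Lp L s}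
      add_mem' := by
        rintro a b ⟨h1, h2⟩ ⟨h3, h4⟩
        refine ⟨by rw [map_add, h1, h3], fun X hX => ?_⟩
        have e1 : (χ.smulRight (a + b) : Module.End K V) = χ.smulRight a + χ.smulRight b := by
          ext x
          simp
        rw [e1, add_mul]
        exact (Lp L s).add_mem (h2 X hX) (h4 X hX)
      zero_mem' := by
        refine ⟨map_zero s, fun X hX => ?_⟩
        have e1 : (χ.smulRight (0 : V) : Module.End K V) = 0 := by
          ext x
          simp
        rw [e1, zero_mul]
        exact (Lp L s).zero_mem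
      smul_mem' := by
        rintro c a ⟨h1, h2⟩
        refine ⟨by rw [map_smul, h1], fun X hX => ?_⟩
        have e1 : (χ.smulRight (c • a) : Module.End K V) = c • χ.smulRight a := by
          ext x
          rw [LinearMap.smulRight_apply, LinearMap.smul_apply, LinearMap.smulRight_apply, smul_comm]
        rw [e1, smul_mul_assoc]
        exact (Lp L s).smul_mem _ (h2 X hX) }
  have hpe : (e * f : Module.End K V) = χ.smulRight v₁ := by
    ext x
    rw [hp, LinearMap.smulRight_apply]
  have hW1 : v₁ ∈ W := ⟨sv, fun X hX => by rw [← hpe]; exact hL X hX⟩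
  have hWst : ∀ Z ∈ L0 L s, ∀ w ∈ W, Z w ∈ W := by
    rintro Z hZ a ⟨h1, h2⟩
    refine ⟨?_, fun X hX => ?_⟩
    · have := LinearMap.congr_fun hZ.2 a
      rw [Module.End.mul_apply, Module.End.mul_apply, h1] at this
      exact this
    · -- `(Z a) χ = (Z (a χ) - (a χ) Z) p + χ(Z v₁) a χ`
      have h3 : e * f * X ∈ Lp L s := hL X hX
      have h4 := A3_0p h hZ (h2 _ h3)
      have h5 := h2 _ (A3_0p h hZ h3)
      have e1 : (χ.smulRight (Z a) : Module.End K V) * X =
          (Z * (χ.smulRight a * (e * f * X)) - χ.smulRight a * (e * f * X) * Z) -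
            χ.smulRight a * (Z * (e * f * X) - e * f * X * Z) +
            χ (Z v₁) • (χ.smulRight a * X) := by
        ext x
        simp only [Module.End.mul_apply, LinearMap.add_apply, LinearMap.sub_apply, LinearMap.smul_apply,
          LinearMap.smulRight_apply, map_sub, map_smul]
        have hp' : ∀ x, e (f x) = χ x • v₁ := hp
        simp only [hp', map_smul, hχ, smul_eq_mul, mul_one, smul_smul]
        module
      rw [e1]
      exact (Lp L s).add_mem ((Lp L s).sub_mem h4 h5) ((Lp L s).smul_mem _ (h2 X hX))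
  have hWall : ∀ a, s a = a → a ∈ W := fun a ha =>
    A3_vec h F.s_mem F.s_sq (W := W) (fun w hw => hw.1) (fun h0 => hv0 (by
      rw [h0] at hW1
      exact (Submodule.mem_bot K).1 hW1)) hWst ha
  -- the covectors
  let Ψ : Submodule K (Module.Dual K V) :=
    { carrier := {ψ | ∀ a, s a = a → (ψ.smulRight a : Module.End K V) ∈ Lp L s}
      add_mem' := by
        intro ψ ψ' h1 h2 a ha
        have e1 : ((ψ + ψ').smulRight a : Module.End K V) = ψ.smulRight a + ψ'.smulRight a := by
          ext x
          simp [add_smul]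
        rw [e1]
        exact (Lp L s).add_mem (h1 a ha) (h2 a ha)
      zero_mem' := by
        intro a ha
        have e1 : ((0 : Module.Dual K V).smulRight a : Module.End K V) = 0 := by
          ext x
          simp
        rw [e1]
        exact (Lp L s).zero_mem
      smul_mem' := by
        intro c ψ h1 a ha
        have e1 : ((c • ψ).smulRight a : Module.End K V) = c • ψ.smulRight a := by
          ext x
          simp [smul_smul]
        rw [e1]
        exact (Lp L s).smul_mem _ (h1 a ha) }
  have hΨs : ∀ ψ ∈ Ψ, ∀ x, ψ (s x) = -ψ x := by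
    intro ψ hψ x
    have h1 := LinearMap.congr_fun (hψ v₁ sv).2.2 x
    rw [Module.End.mul_apply, LinearMap.neg_apply, LinearMap.smulRight_apply,
      LinearMap.smulRight_apply] at h1
    have h2 := congrArg χ h1
    rwa [map_neg, map_smul, map_smul, hχ, smul_eq_mul, smul_eq_mul, mul_one, mul_one] at h2
  have hΨ1 : χ ∘ₗ e ∈ Ψ := by
    intro a ha
    have e1 : ((χ ∘ₗ e).smulRight a : Module.End K V) = χ.smulRight a * e := by
      ext x
      simp
    rw [e1]
    exact (hWall a ha).2 e F.e_mem
  have hΨst : ∀ Z ∈ L0 L s, ∀ ψ ∈ Ψ, ψ ∘ₗ Z ∈ Ψ := by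
    intro Z hZ ψ hψ a ha
    have h1 := A3_0p h hZ (hψ a ha)
    have ha' : s (Z a) = Z a := by
      have := LinearMap.congr_fun hZ.2 a
      rw [Module.End.mul_apply, Module.End.mul_apply, ha] at this
      exact this
    have h2 := hψ _ ha'
    have e1 : ((ψ ∘ₗ Z).smulRight a : Module.End K V) = ψ.smulRight (Z a) -
        (Z * ψ.smulRight a - ψ.smulRight a * Z) := by
      ext x
      simp
    rw [e1]
    exact (Lp L s).sub_mem h2 h1
  have hN : ∀ v, s v = -v → (∀ ψ ∈ Ψ, ψ v = 0) → v = 0 := by
    let N : Submodule K V :=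
      { carrier := {v | s v = -v ∧ ∀ ψ ∈ Ψ, ψ v = 0}
        add_mem' := by
          rintro a b ⟨h1, h2⟩ ⟨h3, h4⟩
          exact ⟨by rw [map_add, h1, h3]; abel, fun ψ hψ => by rw [map_add, h2 ψ hψ, h4 ψ hψ, add_zero]⟩
        zero_mem' := ⟨by simp, fun ψ _ => map_zero ψ⟩
        smul_mem' := by
          rintro c a ⟨h1, h2⟩
          exact ⟨by rw [map_smul, h1, smul_neg], fun ψ hψ => by rw [map_smul, h2 ψ hψ, smul_zero]⟩ }
    by_contra hcon
    push Not at hcon
    obtain ⟨v, hv1, hv2, hv3⟩ := hcon
    have hN0 : N ≠ ⊥ := by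
      intro h0
      have : v ∈ N := ⟨hv1, hv2⟩
      rw [h0] at this
      exact hv3 ((Submodule.mem_bot K).1 this)
    have hall : ∀ w, (-s) w = w → w ∈ N := fun w hw =>
      A3_vec h (InL.neg F.s_mem) (by rw [neg_mul_neg, F.s_sq]) (W := N)
        (fun w hw => by rw [LinearMap.neg_apply, hw.1, neg_neg]) hN0
        (fun Z hZ w hw => by
          rw [K0_L0] at hZ
          refine ⟨?_, fun ψ hψ => hw.2 _ (hΨst Z hZ ψ hψ)⟩
          have := LinearMap.congr_fun hZ.2 w
          rw [Module.End.mul_apply, Module.End.mul_apply, hw.1, map_neg] at this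
          exact this) hw
    have hf : (-s) (f v₁) = f v₁ := by
      have := LinearMap.congr_fun F.f_mem.2.1 v₁
      rw [Module.End.mul_apply, LinearMap.neg_apply] at this
      rw [LinearMap.neg_apply, this, neg_neg]
    have h1 := (hall _ hf).2 _ hΨ1
    rw [LinearMap.comp_apply] at h1
    have h2 : e (f v₁) = v₁ := pv
    rw [h2, hχ] at h1
    exact one_ne_zero h1
  have hΨall : ∀ ψ : Module.Dual K V, (∀ x, ψ (s x) = -ψ x) → ψ ∈ Ψ := by
    intro ψ hψ
    rw [← Subspace.dualCoannihilator_dualAnnihilator_eq (K := K) (V := V) (W := Ψ),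
      Submodule.mem_dualAnnihilator]
    intro v hv
    rw [Submodule.mem_dualCoannihilator] at hv
    have h1 : v - s v = 0 := by
      refine hN _ ?_ fun φ hφ => ?_
      · rw [map_sub]
        have : s (s v) = v := LinearMap.congr_fun F.s_sq v
        rw [this]
        abel
      · rw [map_sub, hΨs φ hφ, hv φ hφ]
        simp
    have h2 := hψ v
    rw [← sub_eq_zero.1 h1] at h2
    have h3 : (2 : K) * ψ v = 0 := by linear_combination h2
    exact (mul_eq_zero.1 h3).resolve_left (by norm_num)
  -- the assembly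
  let b := Module.finBasis K V
  have e1 : T = ∑ i, ((b.coord i) ∘ₗ T).smulRight ((1 / 2 : K) • (b i + s (b i))) := by
    ext x
    have h1 : T x = ∑ i, b.repr (T x) i • b i := (b.sum_repr (T x)).symm
    have h2 : s (T x) = T x := LinearMap.congr_fun hT x
    have h3 : T x = (1 / 2 : K) • (T x + s (T x)) := by
      rw [h2, ← two_smul K (T x), smul_smul]
      norm_num
    have h4 : T x + s (T x) = ∑ i, b.repr (T x) i • (b i + s (b i)) := by
      nth_rw 1 2 [h1]
      rw [map_sum, ← Finset.sum_add_distrib]
      refine Finset.sum_congr rfl fun i _ => ?_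
      rw [map_smul, smul_add]
    rw [LinearMap.sum_apply]
    nth_rw 1 [h3]
    rw [h4, Finset.smul_sum]
    refine Finset.sum_congr rfl fun i _ => ?_
    rw [LinearMap.smulRight_apply, LinearMap.comp_apply, Module.Basis.coord_apply, smul_comm]
  rw [e1]
  refine Submodule.sum_mem _ fun i _ => hΨall _ (fun x => ?_) _ ?_
  · rw [LinearMap.comp_apply, LinearMap.comp_apply, ← map_neg]
    congr 1
    exact LinearMap.congr_fun hT' x
  · have : s (s (b i)) = b i := LinearMap.congr_fun F.s_sq (b i)
    rw [map_smul, map_add, this, add_comm]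

theorem E1_nd {D : Module.End K V} [FiniteDimensional K V]
    (hD : ∀ T : Module.End K V, LinearMap.trace K V (D * T) = 0) : D = 0 := by
  ext w
  by_contra hne
  obtain ⟨φ, hφ⟩ := Module.Projective.exists_dual_ne_zero (R := K) hne
  apply hφ
  have h1 := hD (φ.smulRight w)
  have e : D * (φ.smulRight w : Module.End K V) = φ.smulRight (D w) := by
    ext x
    rw [Module.End.mul_apply, LinearMap.smulRight_apply, LinearMap.smulRight_apply, map_smul]
  rw [e, LinearMap.trace_smulRight] at h1
  exact h1

/-- If the part of weight one is everything, so is the part of weight minus one. -/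
theorem E1_dual [CharZero K] [IsAlgClosed K] [FiniteDimensional K V] [Nontrivial V]
    (h : CoreN L) {s : Module.End K V} (hs : InL L s) (hs2 : s * s = 1)
    (hfull : ∀ T : Module.End K V, s * T = T → T * s = -T → T ∈ L)
    {Y : Module.End K V} (hY : s * Y = -Y) (hY' : Y * s = Y) : Y ∈ L := by
  let φ : L →ₗ[K] K := (LinearMap.trace K V) ∘ₗ (LinearMap.mulLeft K Y) ∘ₗ L.subtype
  obtain ⟨Z, hZ, hφ⟩ := exists_trace_repr h.lie h.irr h.tr φ
  have hφ' : ∀ X ∈ L, LinearMap.trace K V (Y * X) = LinearMap.trace K V (Z * X) :=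
    fun X hX => hφ ⟨X, hX⟩
  obtain ⟨a, ha, b, hb, c, hc, rfl⟩ := A2_decomp h hs hs2 hZ
  have key : Y - c = 0 := by
    apply E1_nd
    intro T
    obtain ⟨A, hA⟩ : ∃ A, A = (1 / 4 : K) • ((1 + s) * T * (1 - s)) := ⟨_, rfl⟩
    have sA : s * A = A := by
      rw [hA, mul_smul_comm]
      congr 1
      have : s * ((1 + s) * T * (1 - s)) = (s + s * s) * T * (1 - s) := by noncomm_ring
      rw [this, hs2, add_comm s 1]
    have As : A * s = -A := by
      rw [hA, smul_mul_assoc, ← smul_neg]
      congr 1
      have : (1 + s) * T * (1 - s) * s = (1 + s) * T * (s - s * s) := by noncomm_ring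
      rw [this, hs2]
      noncomm_ring
    have hAL : A ∈ L := hfull A sA As
    have hAp : A ∈ Lp L s := ⟨hAL, sA, As⟩
    have h1 : LinearMap.trace K V ((Y - c) * T) = LinearMap.trace K V ((Y - c) * A) := by
      obtain ⟨D, hD⟩ : ∃ D, D = Y - c := ⟨_, rfl⟩
      have sD : s * D = -D := by rw [hD, mul_sub, hY, hc.2.1]; abel
      have Ds : D * s = D := by rw [hD, sub_mul, hY', hc.2.2]
      rw [← hD, hA, mul_smul_comm, map_smul]
      have e1 : D * ((1 + s) * T * (1 - s)) = (D + D * s) * T * (1 - s) := by noncomm_ring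
      rw [e1, Ds, LinearMap.trace_mul_comm K ((D + D) * T) (1 - s)]
      have e2 : (1 - s) * ((D + D) * T) = (D + D - (s * D + s * D)) * T := by noncomm_ring
      rw [e2, sD]
      have e3 : (D + D - (-D + -D)) * T = (4 : K) • (D * T) := by
        have : (D + D - (-D + -D)) = (4 : K) • D := by module
        rw [this, smul_mul_assoc]
      rw [e3, map_smul, smul_eq_mul, smul_eq_mul]
      ring
    rw [h1, sub_mul, map_sub, hφ' A hAL, add_mul, add_mul, map_add, map_add, A2_pp ha hAp, map_zero]
    have h2 : LinearMap.trace K V (b * A) = 0 := by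
      have h3 : LinearMap.trace K V (b * A) = -LinearMap.trace K V (b * A) := by
        nth_rw 1 [← sA]
        rw [← mul_assoc, ← hb.2, mul_assoc, LinearMap.trace_mul_comm, mul_assoc, As, mul_neg, map_neg]
      have : (2 : K) * LinearMap.trace K V (b * A) = 0 := by linear_combination h3
      exact (mul_eq_zero.1 this).resolve_left (by norm_num)
    rw [h2]
    ring
  rw [sub_eq_zero.1 key]
  exact hc.1

/-- If both parts are everything, `L` is the special linear algebra. -/
theorem E1_end [CharZero K] [IsAlgClosed K] [FiniteDimensional K V] [Nontrivial V]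
    (h : CoreN L) {s : Module.End K V} (hs2 : s * s = 1)
    (h1 : ∀ T : Module.End K V, s * T = T → T * s = -T → T ∈ L)
    (h2 : ∀ T : Module.End K V, s * T = -T → T * s = T → T ∈ L)
    {v w : V} (hv : v ≠ 0) (hsv : s v = v) (hw : w ≠ 0) (hsw : s w = -w)
    {X : Module.End K V} (hX : LinearMap.trace K V X = 0) : X ∈ L := by
  let φ : L →ₗ[K] K := (LinearMap.trace K V) ∘ₗ (LinearMap.mulLeft K X) ∘ₗ L.subtype
  obtain ⟨Z, hZ, hφ⟩ := exists_trace_repr h.lie h.irr h.tr φ
  obtain ⟨D, hD⟩ : ∃ D, D = X - Z := ⟨_, rfl⟩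
  have hDL : ∀ Y ∈ L, LinearMap.trace K V (D * Y) = 0 := by
    intro Y hY
    have h3 : LinearMap.trace K V (X * Y) = LinearMap.trace K V (Z * Y) := hφ ⟨Y, hY⟩
    rw [hD, sub_mul, map_sub, h3, sub_self]
  obtain ⟨P, hP⟩ : ∃ P, P = (1 / 2 : K) • (1 + s) := ⟨_, rfl⟩
  obtain ⟨Q, hQ⟩ : ∃ Q, Q = (1 / 2 : K) • (1 - s) := ⟨_, rfl⟩
  have PQ : P + Q = 1 := by rw [hP, hQ]; module
  have sP : s * P = P := by rw [hP, mul_smul_comm, mul_add, hs2, mul_one, add_comm]
  have Ps : P * s = P := by rw [hP, smul_mul_assoc, add_mul, hs2, one_mul, add_comm]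
  have sQ : s * Q = -Q := by rw [hQ, mul_smul_comm, mul_sub, hs2, mul_one, ← smul_neg, neg_sub]
  have Qs : Q * s = -Q := by rw [hQ, smul_mul_assoc, sub_mul, hs2, one_mul, ← smul_neg, neg_sub]
  have PP : P * P = P := by
    nth_rw 1 [hP]
    rw [smul_mul_assoc, add_mul, one_mul, sP, ← two_smul K P, smul_smul]
    norm_num
  have QQ : Q * Q = Q := by
    nth_rw 1 [hQ]
    rw [smul_mul_assoc, sub_mul, one_mul, sQ, sub_neg_eq_add, ← two_smul K Q, smul_smul]
    norm_num
  have mA : ∀ T : Module.End K V, P * T * Q ∈ L := fun T => h1 _ (by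
    rw [← mul_assoc, ← mul_assoc, sP]) (by rw [mul_assoc, Qs, mul_neg])
  have mB : ∀ T : Module.End K V, Q * T * P ∈ L := fun T => h2 _ (by
    rw [← mul_assoc, ← mul_assoc, sQ, neg_mul, neg_mul]) (by rw [mul_assoc, Ps])
  have d1 : Q * D * P = 0 := by
    apply E1_nd
    intro T
    have e : Q * D * P * T = Q * (D * P * T) := by noncomm_ring
    rw [e, LinearMap.trace_mul_comm]
    have e' : D * P * T * Q = D * (P * T * Q) := by noncomm_ring
    rw [e']
    exact hDL _ (mA T)
  have d2 : P * D * Q = 0 := by
    apply E1_nd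
    intro T
    have e : P * D * Q * T = P * (D * Q * T) := by noncomm_ring
    rw [e, LinearMap.trace_mul_comm]
    have e' : D * Q * T * P = D * (Q * T * P) := by noncomm_ring
    rw [e']
    exact hDL _ (mB T)
  have d3 : ∀ T : Module.End K V, P * D * P * T * Q = P * T * Q * D * Q := by
    intro T
    rw [← sub_eq_zero]
    apply E1_nd
    intro S
    have h3 := hDL _ (h.lie _ (mA T) _ (mB S))
    have e1 : D * (P * T * Q * (Q * S * P) - Q * S * P * (P * T * Q)) =
        D * P * T * (Q * Q) * S * P - (D * Q * S) * ((P * P) * T * Q) := by noncomm_ring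
    rw [e1, QQ, PP, map_sub] at h3
    have e2 : LinearMap.trace K V (D * P * T * Q * S * P) =
        LinearMap.trace K V (P * D * P * T * Q * S) := by
      rw [LinearMap.trace_mul_comm]
      congr 1
    have e3 : LinearMap.trace K V (D * Q * S * (P * T * Q)) =
        LinearMap.trace K V (P * T * Q * D * Q * S) := by
      rw [LinearMap.trace_mul_comm]
      congr 1
    rw [e2, e3] at h3
    rw [sub_mul, map_sub]
    exact h3
  have Pv : P v = v := by
    rw [hP, LinearMap.smul_apply, LinearMap.add_apply, Module.End.one_apply, hsv, ← two_smul K v,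
      smul_smul]
    norm_num
  have Qw : Q w = w := by
    rw [hQ, LinearMap.smul_apply, LinearMap.sub_apply, Module.End.one_apply, hsw, sub_neg_eq_add,
      ← two_smul K w, smul_smul]
    norm_num
  obtain ⟨ψ, hψ⟩ := Module.Projective.exists_dual_ne_zero (R := K) hw
  obtain ⟨c, hc⟩ : ∃ c, c = (ψ w)⁻¹ * ψ (Q (D (Q w))) := ⟨_, rfl⟩
  have d4 : ∀ x, P (D (P x)) = c • P x := by
    intro x
    have h3 := LinearMap.congr_fun (d3 (ψ.smulRight x)) w
    simp only [Module.End.mul_apply, LinearMap.smulRight_apply, map_smul] at h3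
    rw [Qw] at h3
    have h4 := congrArg (fun t => (ψ w)⁻¹ • t) h3
    simp only [smul_smul, inv_mul_cancel₀ hψ, one_smul] at h4
    rw [h4, hc, Qw]
  have d5 : ∀ x, Q (D (Q x)) = c • Q x := by
    intro x
    rw [← sub_eq_zero]
    by_contra hne
    obtain ⟨φ, hφ⟩ := Module.Projective.exists_dual_ne_zero (R := K) hne
    apply hφ
    have h3 := LinearMap.congr_fun (d3 (φ.smulRight v)) x
    simp only [Module.End.mul_apply, LinearMap.smulRight_apply, map_smul] at h3
    rw [d4, Pv, smul_smul, ← sub_eq_zero, ← sub_smul] at h3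
    have h4 := (smul_eq_zero.1 h3).resolve_right hv
    rw [map_sub, map_smul, smul_eq_mul]
    linear_combination -h4
  have d6 : D = c • 1 := by
    ext x
    have e1 : D x = P (D (P x)) + P (D (Q x)) + (Q (D (P x)) + Q (D (Q x))) := by
      have h3 : ∀ y, P y + Q y = y := fun y => LinearMap.congr_fun PQ y
      rw [← map_add P, ← map_add Q, ← map_add D, h3, h3]
    have e2 : P (D (Q x)) = 0 := LinearMap.congr_fun d2 x
    have e3 : Q (D (P x)) = 0 := LinearMap.congr_fun d1 x
    rw [e1, e2, e3, d4, d5, add_zero, zero_add, ← smul_add, LinearMap.smul_apply, Module.End.one_apply]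
    congr 1
    exact LinearMap.congr_fun PQ x
  have d7 : LinearMap.trace K V D = 0 := by rw [hD, map_sub, hX, h.tr Z hZ, sub_zero]
  rw [d6, map_smul, LinearMap.trace_one, smul_eq_mul] at d7
  have hn : (finrank K V : K) ≠ 0 := by
    rw [Nat.cast_ne_zero]
    exact (Module.finrank_pos (R := K) (M := V)).ne'
  have hc0 : c = 0 := (mul_eq_zero.1 d7).resolve_right hn
  rw [hc0, zero_smul] at d6
  rw [d6] at hD
  rw [sub_eq_zero.1 hD.symm]
  exact hZ

/-- If the extremal element has rank one and there is no invariant bilinear form, `L` is `sl(V)`. -/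
theorem full_sl [CharZero K] [IsAlgClosed K] [FiniteDimensional K V] [Nontrivial V]
    (h : CoreN L) {s e f : Module.End K V} (F : Frame L s e f) (hr : finrank K (LinearMap.range e) = 1)
    (hNS : ∀ B : V →ₗ[K] V →ₗ[K] K, (∀ X ∈ L, ∀ v w, B (X v) w + B v (X w) = 0) → B = 0)
    {X : Module.End K V} (hX : LinearMap.trace K V X = 0) : X ∈ L := by
  have F' := K0_swap h.lie F
  have hr' : finrank K (LinearMap.range f) = 1 := by rw [(K0_rank F).2.1, hr]
  have pp : e * f * (e * f) = e * f := by rw [← mul_assoc, F.efe]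
  have qq : f * e * (f * e) = f * e := by rw [← mul_assoc, F.fef]
  obtain ⟨v, χ, hχ, hp⟩ := E1_vec pp (by rw [(K0_rank F).1, hr])
  obtain ⟨w, φ, hφ, hq⟩ := E1_vec qq (by rw [(K0_rank F').1, hr'])
  have hv : v ≠ 0 := by
    rintro rfl
    rw [map_zero] at hχ
    exact zero_ne_one hχ
  have hw : w ≠ 0 := by
    rintro rfl
    rw [map_zero] at hφ
    exact zero_ne_one hφ
  have pv : (e * f) v = v := by rw [hp, hχ, one_smul]
  have qw : (f * e) w = w := by rw [hq, hφ, one_smul]
  have sv : s v = v := by
    have h1 : s * (e * f) = e * f := by rw [← mul_assoc, F.e_mem.2.1]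
    have := LinearMap.congr_fun h1 v
    rwa [Module.End.mul_apply, pv] at this
  have sw : s w = -w := by
    have h1 : s * (f * e) = -(f * e) := by rw [← mul_assoc, F.f_mem.2.1, neg_mul]
    have := LinearMap.congr_fun h1 w
    rwa [Module.End.mul_apply, LinearMap.neg_apply, qw] at this
  -- a failing pair
  have hex : ∃ u ∈ J1 L s e f, ∃ g ∈ J1 L (-s) f e, χ (u (g v)) ≠ φ (g (u w)) := by
    by_contra hcon
    push Not at hcon
    have hz := fun X (hX : X ∈ L) => E1_zero h F (fun u hu g hg => by
      rw [mul_assoc (e * f), mul_assoc (f * e), E1_tr hp, E1_tr hq]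
      exact hcon u hu g hg) hX
    let β : V →ₗ[K] V →ₗ[K] K := χ.smulRight φ
    have hβ : ∀ x y, β x y = χ x * φ y := fun x y => rfl
    have χp : ∀ x, χ (e (f x)) = χ x := by
      intro x
      have := hp x
      rw [Module.End.mul_apply] at this
      rw [this, map_smul, hχ, smul_eq_mul, mul_one]
    have φq : ∀ x, φ (f (e x)) = φ x := by
      intro x
      have := hq x
      rw [Module.End.mul_apply] at this
      rw [this, map_smul, hφ, smul_eq_mul, mul_one]
    obtain ⟨B, hB1, hB2⟩ := exists_form h F β (fun x y => by rw [hβ, hβ, χp])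
      (fun x y => by rw [hβ, hβ, φq]) (fun X hX x y => by
        have h1 := hz X hX
        rw [add_mul, map_add, E1_tr hp, E1_tr hq] at h1
        have e1 : e (f x) = χ x • v := hp x
        have e2 : f (e y) = φ y • w := hq y
        rw [hβ, hβ, e1, e2, map_smul, map_smul, map_smul, map_smul, smul_eq_mul, smul_eq_mul]
        linear_combination (χ x * φ y) * h1)
    have h1 := hNS B hB2
    have h2 := hB1 v w
    rw [h1, hβ, hχ, hφ] at h2
    simp at h2
  obtain ⟨u, hu, g, hg, hne⟩ := hex
  have c1 : e * f * u * g * (e * f) = χ (u (g v)) • (e * f) := by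
    rw [mul_assoc (e * f) u g, E1_sand hp]
    rfl
  have c2 : f * e * g * u * (f * e) = φ (g (u w)) • (f * e) := by
    rw [mul_assoc (f * e) g u, E1_sand hq]
    rfl
  obtain ⟨u1, u2⟩ := E1_split h.lie F hu hg c1 c2 hne
  have hu' : u ∈ J1 L (-(-s)) e f := by rw [neg_neg]; exact hu
  obtain ⟨g1, g2⟩ := E1_split h.lie F' hg hu' c2 c1 hne.symm
  by_cases hc : φ (g (u w)) = 0
  · have hc' : χ (u (g v)) ≠ 0 := fun h0 => hne (by rw [h0, hc])
    have h3 : ∀ X ∈ Lp L (-s), f * e * X ∈ Lp L (-s) := fun X hX =>
      E1_left h.lie F' hg hu' c1 hc' g2 u1 hX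
    have h4 : ∀ T : Module.End K V, s * T = -T → T * s = T → T ∈ L := fun T hT hT' =>
      (E1_full h F' hφ hq h3 (T := T) (by rw [neg_mul, hT, neg_neg]) (by rw [mul_neg, hT'])).1
    have h5 : ∀ T : Module.End K V, s * T = T → T * s = -T → T ∈ L := fun T hT hT' =>
      E1_dual h (InL.neg F.s_mem) (by rw [neg_mul_neg, F.s_sq])
        (fun T hT hT' => h4 T (by rw [neg_mul] at hT; exact neg_eq_iff_eq_neg.1 hT)
          (by rw [mul_neg] at hT'; exact neg_inj.1 hT'))
        (by rw [neg_mul, hT]) (by rw [mul_neg, hT', neg_neg])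
    exact E1_end h F.s_sq h5 h4 hv sv hw sw hX
  · have h3 : ∀ X ∈ Lp L s, e * f * X ∈ Lp L s := fun X hX => E1_left h.lie F hu hg c2 hc u2 g1 hX
    have h4 : ∀ T : Module.End K V, s * T = T → T * s = -T → T ∈ L := fun T hT hT' =>
      (E1_full h F hχ hp h3 hT hT').1
    exact E1_end h F.s_sq h4 (fun T hT hT' => E1_dual h F.s_mem F.s_sq h4 hT hT') hv sv hw sw hX

end Pool.Agent.H25U
end

-- from Lib.H25U.CoreU
section

/-!
# CoreU: simple irreducible Lie algebras containing an unbalanced involution modulo scalars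
-/

set_option autoImplicit false
set_option linter.unusedSectionVars false
namespace Pool.Agent.H25U
open Module Pool.Agent.H53Toric Pool.Agent.H49M
open Pool.Agent.H86N (CoreN)

variable {K : Type*} [Field K] {V : Type*} [AddCommGroup V] [Module K V]

variable {L : Submodule K (Module.End K V)}

/-- **The component theorem without a balance condition.** Let `L` be an irreducible simple Lie algebra
of operators of trace zero, and `s` an operator with `s² = 1`, `s + c ∈ L` for a scalar `c`, whose two
eigenspaces are nonzero and have different dimensions `a = dim V(s = 1)`, `b = dim V(s = -1)`. Then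
`L = sl(V)`, or there are `2 ≤ k ≤ n` with `a = C(n + 1, k)`, `b = C(n + 1, k - 1)`,
`dim V = C(n + 2, k)`. -/
theorem coreU [CharZero K] [IsAlgClosed K] [FiniteDimensional K V] [Nontrivial V]
    (h : CoreN L) {s : Module.End K V} (hs : InL L s) (hs2 : s * s = 1)
    (hne : finrank K (eig s 1) ≠ finrank K (eig s (-1))) :
    (∀ X : Module.End K V, LinearMap.trace K V X = 0 → X ∈ L) ∨
    ∃ n k : ℕ, 2 ≤ k ∧ k ≤ n ∧ finrank K (eig s 1) = (n + 1).choose k ∧
      finrank K (eig s (-1)) = (n + 1).choose (k - 1) ∧ finrank K V = (n + 2).choose k := by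
  obtain ⟨e, f, F⟩ := frame_at h hs hs2
  rcases coreU_frame h F hne with h1 | ⟨n, k, h1, h2, h3, h4, h5, -⟩
  · left
    intro X hX
    refine full_sl h F h1 (fun B hinv => ?_) hX
    by_contra hB
    exact hne (bal_of_form h hs hs2 hB hinv)
  · exact Or.inr ⟨n, k, h1, h2, h3, h4, h5⟩

end Pool.Agent.H25U
end
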