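import Pool.Agent.Lib.H1M.RC.M037
import Pool.Agent.Lib.H1M.RC.M040

/-! Merged copies (to shorten the build) of Lib.H86K.K1, Lib.H86K.K2, Lib.H86K.K3, Lib.H86K.K4, Lib.H86K.K5, Lib.H86K.K6. -/

-- from Lib.H86K.K1
section

/-!
# K1: a frame for a given involution
-/

set_option autoImplicit false
set_option linter.unusedSectionVars false
namespace Pool.Agent.H86K
open Module Polynomial Pool.Agent.H53Toric Pool.Agent.H49M

variable {K : Type*} [Field K] {V : Type*} [AddCommGroup V] [Module K V]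

variable {L : Submodule K (Module.End K V)} {ω : V →ₗ[K] V →ₗ[K] K}
  {adj : Module.End K V →ₗ[K] Module.End K V}

/-- An extremal element of weight one for the given involution. -/
theorem ext_aux [IsAlgClosed K] [CharZero K] [FiniteDimensional K V] [Nontrivial V]
    {g : Submodule K (Module.End K V)} (hg : IsLie g) (hirr : Irr g)
    (htr : ∀ X ∈ g, LinearMap.trace K V X = 0) (s : Module.End K V) (n : ℕ) :
    ∀ N ∈ Lp g s, N * N = 0 → finrank K (LinearMap.range N) = n → N ≠ 0 →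
    ∃ N' ∈ Lp g s, N' * N' = 0 ∧ N' ≠ 0 ∧
      ∀ X ∈ g, ∃ c : K, N' * X * N' = c • N' := by
  induction n using Nat.strong_induction_on with
  | _ n ih =>
  intro N hNp hN2 hrk hN0
  have hN : N ∈ g := hNp.1
  obtain ⟨M, hM, hNMN⟩ := exists_partner hg hirr htr hN hN2
  have hee : (N * M) * (N * M) = N * M := by
    calc (N * M) * (N * M) = (N * M * N) * M := by noncomm_ring
      _ = N * M := by rw [hNMN]
  have heJ : N * M ∈ JJ g N (N * M) := ⟨hee, hee, by rw [hNMN]; exact hN⟩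
  have he0 : N * M ≠ 0 := by
    intro h
    rw [h, zero_mul] at hNMN
    exact hN0 hNMN.symm
  have hrkN : finrank K (LinearMap.range (N * M)) = n := by
    rw [← hrk]
    exact rank_eq_of_dvd (a := N * M) (b := N) rfl hNMN.symm
  by_cases hf : ∃ f ∈ JJ g N (N * M), f * f = f ∧ f ≠ 0 ∧ f ≠ N * M
  · obtain ⟨f, hfJ, hff, hf0, hfe⟩ := hf
    -- both parts
    have hpart : ∀ f ∈ JJ g N (N * M), f * f = f →
        (f * N) * (f * N) = 0 ∧ (finrank K (LinearMap.range (f * N)) : K) =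
          LinearMap.trace K V f := by
      intro f hfJ hff
      refine ⟨?_, ?_⟩
      · calc (f * N) * (f * N) = f * (N * f) * N := by noncomm_ring
          _ = 0 := by rw [JJ_N_mul hN2 hfJ, mul_zero, zero_mul]
      · rw [trace_idem hff]
        congr 1
        apply rank_eq_of_dvd (c := N) (d := M) rfl
        rw [mul_assoc, hfJ.2.1]
    have hf'J : N * M - f ∈ JJ g N (N * M) := (JJ g N (N * M)).sub_mem heJ hfJ
    have hff' : (N * M - f) * (N * M - f) = N * M - f := by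
      have : (N * M - f) * (N * M - f) = (N * M) * (N * M) - (N * M) * f - f * (N * M) + f * f := by
        noncomm_ring
      rw [this, hee, hfJ.1, hfJ.2.1, hff]
      abel
    obtain ⟨h1, h2⟩ := hpart f hfJ hff
    obtain ⟨h3, h4⟩ := hpart _ hf'J hff'
    have hsum : (finrank K (LinearMap.range (f * N)) : K) +
        (finrank K (LinearMap.range ((N * M - f) * N)) : K) = (n : K) := by
      rw [h2, h4, ← map_add, add_sub_cancel, trace_idem hee, hrkN]
    have hsum' : finrank K (LinearMap.range (f * N)) +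
        finrank K (LinearMap.range ((N * M - f) * N)) = n := by
      exact_mod_cast hsum
    have hne : ∀ f ∈ JJ g N (N * M), f ≠ 0 → 0 < finrank K (LinearMap.range (f * N)) := by
      intro f hfJ hf0
      rw [Nat.pos_iff_ne_zero]
      intro h
      have h0 := LinearMap.range_eq_bot.1 (Submodule.finrank_eq_zero.1 h)
      apply hf0
      rw [← hfJ.2.1, ← mul_assoc, h0, zero_mul]
    have hp1 := hne f hfJ hf0
    have hp2 := hne _ hf'J (by
      intro h
      exact hfe (sub_eq_zero.1 h).symm)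
    have hfN : f * N ≠ 0 := by
      intro h0
      rw [h0, LinearMap.range_zero, finrank_bot] at hp1
      exact lt_irrefl 0 hp1
    have hsf : s * f = f := by
      rw [← hfJ.1, ← mul_assoc, ← mul_assoc, hNp.2.1]
    exact ih _ (by omega) _ ⟨hfJ.2.2, by rw [← mul_assoc, hsf], by rw [mul_assoc, hNp.2.2, mul_neg]⟩ h1 rfl hfN
  · -- extremal case
    refine ⟨N, hNp, hN2, hN0, ?_⟩
    have hall : ∀ a ∈ JJ g N (N * M), ∃ t : K, IsNilpotent (a - t • (N * M)) := by
      intro a ha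
      -- an eigenvalue on the range of e
      let W : Submodule K V := LinearMap.range (N * M)
      have hW : W ≠ ⊥ := by
        intro h
        exact he0 (LinearMap.range_eq_bot.1 h)
      have haW : ∀ x ∈ W, a x ∈ W := by
        intro x _
        refine ⟨a x, ?_⟩
        change (N * M * a) x = a x
        rw [ha.1]
      have : Nontrivial W := Submodule.nontrivial_iff_ne_bot.2 hW
      obtain ⟨t, ht⟩ := Module.End.exists_eigenvalue (a.restrict haW)
      obtain ⟨u, hu⟩ := ht.exists_hasEigenvector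
      have hu1 : a u.1 = t • u.1 := by
        have := hu.apply_eq_smul
        exact congrArg Subtype.val this
      have hu0 : u.1 ≠ 0 := by
        intro h
        exact hu.2 (Subtype.ext h)
      have heu : (N * M) u.1 = u.1 := by
        obtain ⟨v, hv⟩ := u.2
        rw [← hv]
        change (N * M * (N * M)) v = (N * M) v
        rw [hee]
      refine ⟨t, ?_⟩
      by_contra hnn
      have hb : a - t • (N * M) ∈ JJ g N (N * M) :=
        (JJ g N (N * M)).sub_mem ha ((JJ g N (N * M)).smul_mem t heJ)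
      set b := a - t • (N * M) with hbdef
      have hbu : b u.1 = 0 := by
        rw [hbdef, LinearMap.sub_apply, LinearMap.smul_apply, heu, hu1, sub_self]
      obtain ⟨p, k, hp1, hp2⟩ := fitting b
      apply hf
      refine ⟨aeval b (X * p), JJ_aeval hg hM hN2 hb p, hp1, ?_, ?_⟩
      · intro h
        apply hnn
        refine ⟨k, ?_⟩
        rw [← hp2, h, mul_zero]
      · intro h
        have h1 : (aeval b (X * p)) u.1 = 0 := by
          rw [mul_comm, map_mul, aeval_X]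
          change (aeval b p) (b u.1) = 0
          rw [hbu, map_zero]
        rw [h, heu] at h1
        exact hu0 h1
    intro X hX
    obtain ⟨t, ht⟩ := JJ_scalar hirr htr hN0 hg hN hM hN2 hNMN hall _
      (JJ_of_mem hg hN hN2 hNMN hX)
    refine ⟨t, ?_⟩
    calc N * X * N = N * X * (N * M * N) := by rw [hNMN]
      _ = (N * X * N * M) * N := by noncomm_ring
      _ = t • N := by rw [ht, smul_mul_assoc, hNMN]

/-- A frame for the given involution. -/
theorem frame_at [IsAlgClosed K] [CharZero K] [FiniteDimensional K V] [Nontrivial V]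
    (h : Core L ω adj) {y : Module.End K V} (hyg : y ∈ L) (hy2 : y * y = 1) :
    ∃ e f : Module.End K V, Frame L y e f := by
  have hS := A1_setup h hyg hy2
  obtain ⟨N₀, hN₀, hN₀0⟩ := Submodule.exists_mem_ne_zero_of_ne_bot (A2_ne h hyg hy2)
  obtain ⟨N₁, hN₁p, hN₁2, hN₁0, hext₁⟩ := ext_aux h.lie h.irr hS.tr y _ N₀ hN₀ (A2_pp hN₀ hN₀) rfl hN₀0
  have hN₁g := hN₁p.1
  have hyN := hN₁p.2.1
  have hNy' := hN₁p.2.2
  obtain ⟨X, hX, hNX⟩ := exists_partner h.lie h.irr hS.tr hN₁g hN₁2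
  set M₁ := (1 / 4 : K) • ((1 - y) * X * (1 + y)) with hM₁
  have hM₁g : M₁ ∈ L := L.smul_mem _ (h.lie.minus hyg hy2 hX)
  have hyM : y * M₁ = -M₁ := by
    rw [hM₁, mul_smul_comm, ← smul_neg]
    congr 1
    calc y * ((1 - y) * X * (1 + y)) = (y - y * y) * X * (1 + y) := by noncomm_ring
      _ = _ := by rw [hy2]; noncomm_ring
  have hMy : M₁ * y = M₁ := by
    rw [hM₁, smul_mul_assoc]
    congr 1
    calc (1 - y) * X * (1 + y) * y = (1 - y) * X * (y + y * y) := by noncomm_ring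
      _ = _ := by rw [hy2, add_comm]
  have hM₁2 : M₁ * M₁ = 0 := by
    have h1 : M₁ * (y * M₁) = M₁ * M₁ := by rw [← mul_assoc, hMy]
    rw [hyM, mul_neg] at h1
    have h2 : (2 : K) • (M₁ * M₁) = 0 := by
      rw [two_smul]
      nth_rw 1 [← h1]
      simp
    exact (smul_eq_zero.1 h2).resolve_left (by norm_num)
  have hNMN : N₁ * M₁ * N₁ = N₁ := by
    have h1 : N₁ * (1 - y) = (2 : K) • N₁ := by
      rw [mul_sub, hNy', mul_one, two_smul]; abel
    have h2 : (1 + y) * N₁ = (2 : K) • N₁ := by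
      rw [add_mul, hyN, one_mul, two_smul]
    calc N₁ * M₁ * N₁ = (1 / 4 : K) • ((N₁ * (1 - y)) * X * ((1 + y) * N₁)) := by
          rw [hM₁, mul_smul_comm, smul_mul_assoc]; congr 1
      _ = N₁ := by
          rw [h1, h2, smul_mul_assoc, smul_mul_assoc, mul_smul_comm, smul_smul, smul_smul, hNX]
          norm_num
  refine ⟨N₁, M₁ * N₁ * M₁, hyg, hy2, hN₁p, ⟨h.lie.sandwich hM₁g hM₁2 hN₁g, ?_, ?_⟩, hN₁0, ?_, ?_, hext₁⟩
  · rw [← mul_assoc, ← mul_assoc, hyM]; noncomm_ring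
  · rw [mul_assoc, hMy]
  · calc N₁ * (M₁ * N₁ * M₁) * N₁ = (N₁ * M₁ * N₁) * M₁ * N₁ := by noncomm_ring
      _ = N₁ := by rw [hNMN, hNMN]
  · calc M₁ * N₁ * M₁ * N₁ * (M₁ * N₁ * M₁) = M₁ * ((N₁ * M₁ * N₁) * M₁ * N₁) * M₁ := by
          noncomm_ring
      _ = _ := by rw [hNMN, hNMN]

/-- The binomial case, for the given involution. -/
theorem alpha_at [IsAlgClosed K] [CharZero K] [FiniteDimensional K V] [Nontrivial V]
    (h : Core L ω adj) {s : Module.End K V} (hs : s ∈ L) (hs2 : s * s = 1)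
    (hnot : ¬ ∀ X : Module.End K V, adj X = -X → X ∈ L) (hpow : ∀ m : ℕ, finrank K V ≠ 2 ^ m) :
    ∃ e f : Module.End K V, Frame L s e f ∧
      (∀ x ∈ Lp L s, ∀ y ∈ Lm L s, ∃ c : K, x * y * x = c • x ∧ y * x * y = c • y) ∧
      2 ≤ finrank K (Lm L s) := by
  obtain ⟨e, f, F⟩ := frame_at h hs hs2
  have hset := A1_setup h hs hs2
  have hee : e * e = 0 := A2_pp F.e_mem F.e_mem
  have hr1 : finrank K (LinearMap.range e) ≠ 1 := by
    intro hr
    apply hnot
    intro X hX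
    exact Setup.full hset F.e_mem.1 hee (by rw [hr]; decide) hX
  have ha : ∀ u ∈ J1 L s e f, u * f * u = 0 := by
    by_contra ha
    push Not at ha
    obtain ⟨u, hu, hu0⟩ := ha
    obtain ⟨e', f', G⟩ := P1_grid h F hu hu0
    rcases P5_dich h G with h1 | h1
    · exact absurd (P6_one h G h1) hr1
    · obtain ⟨t, ht, ht2⟩ := P8_powS h G h1
      have h5 := (K5_eig h G.F.s_mem G.F.s_sq).2
      have h6 : finrank K V = 2 ^ (t + 1) := by rw [h5, ht, pow_succ]; ring
      exact hpow _ h6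
  have hall := fun (x : Module.End K V) (hx : x ∈ Lp L s) (y : Module.End K V)
    (hy : y ∈ Lm L s) => K2_all h F ha hx hy
  refine ⟨e, f, F, hall, ?_⟩
  -- the dimension of the part of weight `-1`
  obtain ⟨n, x, y, hK, hx, hy, hxL, hyL⟩ := R2_system h F hall
  obtain ⟨k, hk1, hk2, h1, h2, h3, hcnt⟩ := R2_rank hK (by rw [hx]; exact F.e_ne)
  obtain ⟨-, h5⟩ := K5_eig h F.s_mem F.s_sq
  have hn : n ≠ 0 := by
    rintro rfl
    have hk : k = 1 := by omega
    rw [hk, Nat.choose_self] at h1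
    rw [h1, mul_one] at h5
    exact hpow 1 (by rw [h5, pow_one])
  obtain ⟨n', rfl⟩ := Nat.exists_eq_succ_of_ne_zero hn
  have h01 : (0 : Fin (n' + 1 + 1)) ≠ 1 := by
    intro e
    exact absurd (congrArg Fin.val e) (by norm_num)
  have hf0 : f ≠ 0 := by
    rintro rfl
    have h6 := F.efe
    rw [mul_zero, zero_mul] at h6
    exact F.e_ne h6.symm
  -- `y 0` and `y 1` are independent
  have hind : ∀ c : K, y 1 ≠ c • y 0 := by
    intro c hc
    have e1 := hK.r2 1 0 1
    rw [if_neg (Ne.symm h01), add_zero] at e1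
    have e0 := hK.r2 0 0 0
    rw [if_pos rfl] at e0
    rw [hc] at e1
    have e2 : (c * c) • (y 0 * x 0 * y 0 + y 0 * x 0 * y 0) = 0 := by
      rw [← e1, smul_add]
      simp only [smul_mul_assoc, mul_smul_comm, smul_smul]
    rw [e0, smul_eq_zero] at e2
    have e3 : c = 0 := by
      rcases e2 with e2 | e2
      · exact mul_self_eq_zero.1 e2
      · exfalso
        apply hf0
        rw [← hy]
        have e4 : (2 : K) • y 0 = 0 := by rw [two_smul]; exact e2
        exact (smul_eq_zero.1 e4).resolve_left (by norm_num)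
    rw [e3, zero_smul] at hc
    have e5 := hK.r1 0 1 1
    rw [if_neg h01, if_pos rfl, hc, mul_zero, zero_mul, mul_zero, zero_mul, zero_add, zero_add] at e5
    exact F.e_ne (by rw [← hx, ← e5])
  by_contra hlt
  push Not at hlt
  have hfin : finrank K (Lm L s) ≤ 1 := by omega
  obtain ⟨v, hv⟩ := finrank_le_one_iff.1 hfin
  obtain ⟨c0, hc0⟩ := hv ⟨y 0, hyL 0⟩
  obtain ⟨c1, hc1⟩ := hv ⟨y 1, hyL 1⟩
  have hc0' : c0 • (v : Module.End K V) = y 0 := congrArg Subtype.val hc0
  have hc1' : c1 • (v : Module.End K V) = y 1 := congrArg Subtype.val hc1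
  have hc0n : c0 ≠ 0 := by
    rintro rfl
    apply hf0
    rw [← hy, ← hc0', zero_smul]
  apply hind (c1 * c0⁻¹)
  rw [← hc0', smul_smul, mul_assoc, inv_mul_cancel₀ hc0n, mul_one, hc1']

end Pool.Agent.H86K
end

-- from Lib.H86K.K2
section

/-!
# K2: the representation on `K × L₋`
-/

set_option autoImplicit false
set_option linter.unusedSectionVars false
namespace Pool.Agent.H86K
open Module Pool.Agent.H53Toric Pool.Agent.H49M

variable {K : Type*} [Field K] {V : Type*} [AddCommGroup V] [Module K V]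

variable {L : Submodule K (Module.End K V)} {s : Module.End K V}

theorem br0m (hl : IsLie L) {Z y : Module.End K V} (hZ : Z ∈ L0 L s) (hy : y ∈ Lm L s) :
    Z * y - y * Z ∈ Lm L s := by
  refine ⟨hl _ hZ.1 _ hy.1, ?_, ?_⟩
  · rw [mul_sub, ← mul_assoc, hZ.2, mul_assoc, hy.2.1, ← mul_assoc, hy.2.1]
    noncomm_ring
  · rw [sub_mul, mul_assoc, hy.2.2, mul_assoc, ← hZ.2, ← mul_assoc, hy.2.2]

theorem br0p (hl : IsLie L) {Z x : Module.End K V} (hZ : Z ∈ L0 L s) (hx : x ∈ Lp L s) :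
    Z * x - x * Z ∈ Lp L s := by
  refine ⟨hl _ hZ.1 _ hx.1, ?_, ?_⟩
  · rw [mul_sub, ← mul_assoc, hZ.2, mul_assoc, hx.2.1, ← mul_assoc, hx.2.1]
  · rw [sub_mul, mul_assoc, hx.2.2, mul_assoc, ← hZ.2, ← mul_assoc, hx.2.2]
    noncomm_ring

theorem brpm (hl : IsLie L) {x y : Module.End K V} (hx : x ∈ Lp L s) (hy : y ∈ Lm L s) :
    x * y - y * x ∈ L0 L s := by
  refine ⟨hl _ hx.1 _ hy.1, ?_⟩
  rw [mul_sub, sub_mul, ← mul_assoc, hx.2.1, ← mul_assoc, hy.2.1, mul_assoc, hy.2.2, mul_assoc, hx.2.2]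
  noncomm_ring

theorem br00 (hl : IsLie L) {Z Z' : Module.End K V} (hZ : Z ∈ L0 L s) (hZ' : Z' ∈ L0 L s) :
    Z * Z' - Z' * Z ∈ L0 L s := by
  refine ⟨hl _ hZ.1 _ hZ'.1, ?_⟩
  have h1 : s * (Z * Z') = Z * Z' * s := by
    rw [← mul_assoc, hZ.2, mul_assoc, hZ'.2, ← mul_assoc]
  have h2 : s * (Z' * Z) = Z' * Z * s := by
    rw [← mul_assoc, hZ'.2, mul_assoc, hZ.2, ← mul_assoc]
  rw [mul_sub, sub_mul, h1, h2]

/-- The action of the part of weight zero. -/
def adQ (hl : IsLie L) (s : Module.End K V) : L0 L s →ₗ[K] Module.End K (Lm L s) where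
  toFun Z :=
    { toFun := fun y => ⟨Z.1 * y.1 - y.1 * Z.1, br0m hl Z.2 y.2⟩
      map_add' := fun a b => Subtype.ext (by
        show Z.1 * (a.1 + b.1) - (a.1 + b.1) * Z.1 = (Z.1 * a.1 - a.1 * Z.1) + (Z.1 * b.1 - b.1 * Z.1)
        rw [mul_add, add_mul]; abel)
      map_smul' := fun c a => Subtype.ext (by
        show Z.1 * (c • a.1) - (c • a.1) * Z.1 = c • (Z.1 * a.1 - a.1 * Z.1)
        rw [mul_smul_comm, smul_mul_assoc, smul_sub]) }
  map_add' Z Z' := LinearMap.ext fun a => Subtype.ext (by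
    show (Z.1 + Z'.1) * a.1 - a.1 * (Z.1 + Z'.1) = (Z.1 * a.1 - a.1 * Z.1) + (Z'.1 * a.1 - a.1 * Z'.1)
    rw [mul_add, add_mul]; abel)
  map_smul' c Z := LinearMap.ext fun a => Subtype.ext (by
    show (c • Z.1) * a.1 - a.1 * (c • Z.1) = c • (Z.1 * a.1 - a.1 * Z.1)
    rw [mul_smul_comm, smul_mul_assoc, smul_sub])

theorem adQ_apply (hl : IsLie L) (Z : L0 L s) (y : Lm L s) :
    ((adQ hl s Z y : Lm L s) : Module.End K V) = Z.1 * y.1 - y.1 * Z.1 := rfl

/-- The character of the part of weight zero. -/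
noncomputable def lam (hl : IsLie L) (s : Module.End K V) : L0 L s →ₗ[K] K :=
  (-((finrank K (Lm L s) : K) + 1)⁻¹) • (LinearMap.trace K (Lm L s) ∘ₗ adQ hl s)

/-- The pairing. -/
noncomputable def bet (L : Submodule K (Module.End K V)) (s : Module.End K V) (r : K) :
    Lp L s →ₗ[K] Lm L s →ₗ[K] K :=
  LinearMap.mk₂ K (fun x y => r⁻¹ * LinearMap.trace K V (x.1 * y.1))
    (fun x x' y => by
      show r⁻¹ * LinearMap.trace K V ((x.1 + x'.1) * y.1) = _
      rw [add_mul, map_add, mul_add])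
    (fun c x y => by
      show r⁻¹ * LinearMap.trace K V ((c • x.1) * y.1) = _
      rw [smul_mul_assoc, map_smul, smul_eq_mul, smul_eq_mul]; ring)
    (fun x y y' => by
      show r⁻¹ * LinearMap.trace K V (x.1 * (y.1 + y'.1)) = _
      rw [mul_add, map_add, mul_add])
    (fun c x y => by
      show r⁻¹ * LinearMap.trace K V (x.1 * (c • y.1)) = _
      rw [mul_smul_comm, map_smul, smul_eq_mul, smul_eq_mul]; ring)

theorem bet_apply (r : K) (x : Lp L s) (y : Lm L s) :
    bet L s r x y = r⁻¹ * LinearMap.trace K V (x.1 * y.1) := rfl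

/-- Operators of weight one. -/
noncomputable def opE (L : Submodule K (Module.End K V)) (s : Module.End K V) (r : K) :
    Lp L s →ₗ[K] Module.End K (K × Lm L s) where
  toFun u := (LinearMap.inl K K (Lm L s)) ∘ₗ (bet L s r u) ∘ₗ (LinearMap.snd K K (Lm L s))
  map_add' u u' := by
    rw [map_add, LinearMap.add_comp, LinearMap.comp_add]
  map_smul' c u := by
    rw [map_smul, LinearMap.smul_comp, LinearMap.comp_smul]
    rfl

/-- Operators of weight minus one. -/
noncomputable def opF (L : Submodule K (Module.End K V)) (s : Module.End K V) :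
    Lm L s →ₗ[K] Module.End K (K × Lm L s) where
  toFun v := (LinearMap.inr K K (Lm L s)) ∘ₗ (LinearMap.toSpanSingleton K (Lm L s) v) ∘ₗ (LinearMap.fst K K (Lm L s))
  map_add' v v' := by
    refine LinearMap.ext fun z => ?_
    refine Prod.ext ?_ ?_
    · simp
    · simp [smul_add]
  map_smul' c v := by
    refine LinearMap.ext fun z => ?_
    refine Prod.ext ?_ ?_
    · simp
    · simp [smul_smul, mul_comm]

/-- Operators of weight zero. -/
noncomputable def opD (hl : IsLie L) (s : Module.End K V) :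
    L0 L s →ₗ[K] Module.End K (K × Lm L s) where
  toFun Z := (LinearMap.inr K K (Lm L s)) ∘ₗ (adQ hl s Z) ∘ₗ (LinearMap.snd K K (Lm L s)) + lam hl s Z • 1
  map_add' Z Z' := by
    rw [map_add, map_add, add_smul, LinearMap.add_comp, LinearMap.comp_add]
    abel
  map_smul' c Z := by
    rw [map_smul, map_smul, LinearMap.smul_comp, LinearMap.comp_smul, RingHom.id_apply, smul_add, smul_smul]
    rfl

theorem opE_apply (r : K) (u : Lp L s) (z : K × Lm L s) : opE L s r u z = (bet L s r u z.2, 0) := rfl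

theorem opF_apply (v : Lm L s) (z : K × Lm L s) : opF L s v z = (0, z.1 • v) := rfl

theorem opD_apply (hl : IsLie L) (Z : L0 L s) (z : K × Lm L s) :
    opD hl s Z z = (lam hl s Z * z.1, adQ hl s Z z.2 + lam hl s Z • z.2) := by
  show (0, adQ hl s Z z.2) + lam hl s Z • z = _
  refine Prod.ext ?_ ?_
  · show (0 : K) + lam hl s Z • z.1 = _
    rw [zero_add, smul_eq_mul]
  · rfl

end Pool.Agent.H86K
end

-- from Lib.H86K.K3
section

/-!
# K3: the representation, commutation relations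
-/

set_option autoImplicit false
set_option linter.unusedSectionVars false
namespace Pool.Agent.H86K
open Module Pool.Agent.H53Toric Pool.Agent.H49M

variable {K : Type*} [Field K] [CharZero K] {V : Type*} [AddCommGroup V] [Module K V] [FiniteDimensional K V]

variable {L : Submodule K (Module.End K V)} {s : Module.End K V} {r : K}

/-- The binomial case. -/
structure AH (L : Submodule K (Module.End K V)) (s : Module.End K V) (r : K) : Prop where
  lie : IsLie L
  s_mem : s ∈ L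
  s_sq : s * s = 1
  quad1 : ∀ (x : Lp L s) (y : Lm L s), x.1 * y.1 * x.1 = bet L s r x y • x.1
  quad2 : ∀ (x : Lp L s) (y : Lm L s), y.1 * x.1 * y.1 = bet L s r x y • y.1

theorem AH.lin2 (h : AH L s r) (x : Lp L s) (y y' : Lm L s) :
    y.1 * x.1 * y'.1 + y'.1 * x.1 * y.1 = bet L s r x y • y'.1 + bet L s r x y' • y.1 := by
  have h1 := h.quad2 x (y + y')
  have h2 := h.quad2 x y
  have h3 := h.quad2 x y'
  rw [map_add] at h1
  have h4 : (y + y' : Lm L s).1 = y.1 + y'.1 := rfl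
  rw [h4] at h1
  have h5 : (y.1 + y'.1) * x.1 * (y.1 + y'.1) = y.1 * x.1 * y.1 + (y.1 * x.1 * y'.1 + y'.1 * x.1 * y.1) +
      y'.1 * x.1 * y'.1 := by noncomm_ring
  rw [h5, h2, h3, add_smul, smul_add, smul_add] at h1
  have h6 : bet L s r x y • y.1 + (y.1 * x.1 * y'.1 + y'.1 * x.1 * y.1) + bet L s r x y' • y'.1 =
      bet L s r x y • y.1 + (bet L s r x y • y'.1 + bet L s r x y' • y.1) + bet L s r x y' • y'.1 := by
    rw [h1]; abel
  exact add_left_cancel (add_right_cancel h6)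

/-- The bracket of weight one and weight minus one. -/
def brE (h : IsLie L) (x : Lp L s) (y : Lm L s) : L0 L s := ⟨x.1 * y.1 - y.1 * x.1, brpm h x.2 y.2⟩

theorem AH.act (h : AH L s r) (x : Lp L s) (y w : Lm L s) :
    adQ h.lie s (brE h.lie x y) w = -(bet L s r x y • w + bet L s r x w • y) := by
  refine Subtype.ext ?_
  rw [adQ_apply]
  show (x.1 * y.1 - y.1 * x.1) * w.1 - w.1 * (x.1 * y.1 - y.1 * x.1) = -(bet L s r x y • w.1 + bet L s r x w • y.1)
  have h1 : y.1 * w.1 = 0 := A2_mm y.2 w.2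
  have h2 : w.1 * y.1 = 0 := A2_mm w.2 y.2
  have h3 := h.lin2 x y w
  calc (x.1 * y.1 - y.1 * x.1) * w.1 - w.1 * (x.1 * y.1 - y.1 * x.1) =
        x.1 * (y.1 * w.1) - (y.1 * x.1 * w.1 + w.1 * x.1 * y.1) + (w.1 * y.1) * x.1 := by noncomm_ring
    _ = _ := by rw [h1, h2, mul_zero, zero_mul, add_zero, zero_sub, h3]

theorem AH.lam_br (h : AH L s r) (x : Lp L s) (y : Lm L s) :
    lam h.lie s (brE h.lie x y) = bet L s r x y := by
  have h1 : adQ h.lie s (brE h.lie x y) = (-1 : K) • (bet L s r x y • (1 : Module.End K (Lm L s)) +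
      (bet L s r x).smulRight y) := by
    refine LinearMap.ext fun w => ?_
    rw [h.act, LinearMap.smul_apply, neg_one_smul]
    rfl
  unfold lam
  rw [LinearMap.smul_apply, LinearMap.comp_apply, h1, map_smul, map_add, map_smul, LinearMap.trace_one,
    LinearMap.trace_smulRight, smul_eq_mul, smul_eq_mul, smul_eq_mul]
  have h2 : (finrank K (Lm L s) : K) + 1 ≠ 0 := by
    have : ((finrank K (Lm L s) + 1 : ℕ) : K) ≠ 0 := Nat.cast_ne_zero.2 (Nat.succ_ne_zero _)
    push_cast at this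
    exact this
  field_simp

theorem AH.inv (h : AH L s r) (Z : L0 L s) (x : Lp L s) (y : Lm L s) :
    bet L s r ⟨Z.1 * x.1 - x.1 * Z.1, br0p h.lie Z.2 x.2⟩ y + bet L s r x (adQ h.lie s Z y) = 0 := by
  rw [bet_apply, bet_apply, adQ_apply, ← mul_add, ← map_add]
  have h1 : (Z.1 * x.1 - x.1 * Z.1) * y.1 + x.1 * (Z.1 * y.1 - y.1 * Z.1) =
      Z.1 * (x.1 * y.1) - (x.1 * y.1) * Z.1 := by noncomm_ring
  show r⁻¹ * LinearMap.trace K V ((Z.1 * x.1 - x.1 * Z.1) * y.1 + x.1 * (Z.1 * y.1 - y.1 * Z.1)) = 0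
  rw [h1, map_sub, LinearMap.trace_mul_comm, sub_self, mul_zero]

theorem AH.adQ_comm (h : AH L s r) (Z Z' : L0 L s) :
    adQ h.lie s ⟨Z.1 * Z'.1 - Z'.1 * Z.1, br00 h.lie Z.2 Z'.2⟩ =
      adQ h.lie s Z * adQ h.lie s Z' - adQ h.lie s Z' * adQ h.lie s Z := by
  refine LinearMap.ext fun w => Subtype.ext ?_
  show (Z.1 * Z'.1 - Z'.1 * Z.1) * w.1 - w.1 * (Z.1 * Z'.1 - Z'.1 * Z.1) =
    (Z.1 * (Z'.1 * w.1 - w.1 * Z'.1) - (Z'.1 * w.1 - w.1 * Z'.1) * Z.1) -
      (Z'.1 * (Z.1 * w.1 - w.1 * Z.1) - (Z.1 * w.1 - w.1 * Z.1) * Z'.1)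
  noncomm_ring

theorem AH.lam_comm (h : AH L s r) (Z Z' : L0 L s) :
    lam h.lie s ⟨Z.1 * Z'.1 - Z'.1 * Z.1, br00 h.lie Z.2 Z'.2⟩ = 0 := by
  have h1 := h.adQ_comm Z Z'
  have h2 : adQ h.lie s ⟨Z.1 * Z'.1 - Z'.1 * Z.1, br00 h.lie Z.2 Z'.2⟩ + adQ h.lie s Z' * adQ h.lie s Z =
      adQ h.lie s Z * adQ h.lie s Z' := by
    refine LinearMap.ext fun w => ?_
    have h0 := LinearMap.congr_fun h1 w
    rw [LinearMap.add_apply, h0, LinearMap.sub_apply]
    exact sub_add_cancel _ _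
  have h3 := congrArg (LinearMap.trace K (Lm L s)) h2
  rw [map_add, LinearMap.trace_mul_comm K (adQ h.lie s Z) (adQ h.lie s Z')] at h3
  have h4 := add_eq_right.1 h3
  unfold lam
  rw [LinearMap.smul_apply, LinearMap.comp_apply, h4, smul_zero]

theorem opE_opE (u u' : Lp L s) : opE L s r u * opE L s r u' = 0 := by
  refine LinearMap.ext fun z => ?_
  rw [Module.End.mul_apply, opE_apply, opE_apply, map_zero]
  rfl

theorem opF_opF (v v' : Lm L s) : opF L s v * opF L s v' = 0 := by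
  refine LinearMap.ext fun z => ?_
  rw [Module.End.mul_apply, opF_apply, opF_apply, zero_smul]
  rfl

theorem AH.DE (h : AH L s r) (Z : L0 L s) (u : Lp L s) :
    opD h.lie s Z * opE L s r u - opE L s r u * opD h.lie s Z =
      opE L s r ⟨Z.1 * u.1 - u.1 * Z.1, br0p h.lie Z.2 u.2⟩ := by
  refine LinearMap.ext fun z => ?_
  rw [LinearMap.sub_apply, Module.End.mul_apply, Module.End.mul_apply, opE_apply, opD_apply, opD_apply,
    opE_apply, opE_apply, map_add, map_smul, map_zero, smul_zero, add_zero]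
  refine Prod.ext ?_ ?_
  · show lam h.lie s Z * bet L s r u z.2 - (bet L s r u (adQ h.lie s Z z.2) + lam h.lie s Z • bet L s r u z.2) = _
    have h1 := h.inv Z u z.2
    rw [eq_neg_of_add_eq_zero_left h1, smul_eq_mul]
    ring
  · show (0 : Lm L s) - 0 = 0
    rw [sub_zero]

theorem AH.DF (h : AH L s r) (Z : L0 L s) (v : Lm L s) :
    opD h.lie s Z * opF L s v - opF L s v * opD h.lie s Z = opF L s (adQ h.lie s Z v) := by
  refine LinearMap.ext fun z => ?_
  rw [LinearMap.sub_apply, Module.End.mul_apply, Module.End.mul_apply, opF_apply, opD_apply, opD_apply,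
    opF_apply, opF_apply, map_smul, mul_zero]
  refine Prod.ext ?_ ?_
  · show (0 : K) - 0 = 0
    rw [sub_zero]
  · show z.1 • adQ h.lie s Z v + lam h.lie s Z • z.1 • v - (lam h.lie s Z * z.1) • v = z.1 • adQ h.lie s Z v
    rw [smul_smul, add_sub_cancel_right]

theorem AH.EF (h : AH L s r) (u : Lp L s) (v : Lm L s) :
    opE L s r u * opF L s v - opF L s v * opE L s r u = opD h.lie s (brE h.lie u v) := by
  refine LinearMap.ext fun z => ?_
  rw [LinearMap.sub_apply, Module.End.mul_apply, Module.End.mul_apply, opF_apply, opE_apply, opE_apply,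
    opF_apply, opD_apply, h.lam_br, h.act, map_smul]
  refine Prod.ext ?_ ?_
  · show z.1 • bet L s r u v - 0 = bet L s r u v * z.1
    rw [sub_zero, smul_eq_mul, mul_comm]
  · show (0 : Lm L s) - bet L s r u z.2 • v = -(bet L s r u v • z.2 + bet L s r u z.2 • v) + bet L s r u v • z.2
    abel

theorem AH.DD (h : AH L s r) (Z Z' : L0 L s) :
    opD h.lie s Z * opD h.lie s Z' - opD h.lie s Z' * opD h.lie s Z =
      opD h.lie s ⟨Z.1 * Z'.1 - Z'.1 * Z.1, br00 h.lie Z.2 Z'.2⟩ := by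
  refine LinearMap.ext fun z => ?_
  rw [LinearMap.sub_apply, Module.End.mul_apply, Module.End.mul_apply, opD_apply, opD_apply, opD_apply,
    opD_apply, opD_apply, h.lam_comm, h.adQ_comm, zero_mul, zero_smul, add_zero]
  refine Prod.ext ?_ ?_
  · show lam h.lie s Z * (lam h.lie s Z' * z.1) - lam h.lie s Z' * (lam h.lie s Z * z.1) = 0
    ring
  · show adQ h.lie s Z (adQ h.lie s Z' z.2 + lam h.lie s Z' • z.2) +
        lam h.lie s Z • (adQ h.lie s Z' z.2 + lam h.lie s Z' • z.2) -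
      (adQ h.lie s Z' (adQ h.lie s Z z.2 + lam h.lie s Z • z.2) +
        lam h.lie s Z' • (adQ h.lie s Z z.2 + lam h.lie s Z • z.2)) =
      adQ h.lie s Z (adQ h.lie s Z' z.2) - adQ h.lie s Z' (adQ h.lie s Z z.2)
    rw [map_add, map_add, map_smul, map_smul, smul_add, smul_add, smul_smul, smul_smul, mul_comm (lam h.lie s Z')]
    abel

end Pool.Agent.H86K
end

-- from Lib.H86K.K4
section

/-!
# K4: the cubic invariant
-/

set_option autoImplicit false
set_option linter.unusedSectionVars false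
namespace Pool.Agent.H86K
open Module Pool.Agent.H53Toric Pool.Agent.H49M

variable {K : Type*} [Field K] [CharZero K] {V : Type*} [AddCommGroup V] [Module K V] [FiniteDimensional K V]

variable {L : Submodule K (Module.End K V)} {s : Module.End K V} {r : K}

section pieces
variable (hl : IsLie L) (hs : s ∈ L) (hs2 : s * s = 1)

theorem mP (hl : IsLie L) (hs : s ∈ L) (hs2 : s * s = 1) {X : Module.End K V} (hX : X ∈ L) :
    (1 / 4 : K) • ((1 + s) * X * (1 - s)) ∈ Lp L s := by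
  refine (Lp L s).smul_mem _ ⟨hl.plus hs hs2 hX, ?_, ?_⟩
  · calc s * ((1 + s) * X * (1 - s)) = (s + s * s) * X * (1 - s) := by noncomm_ring
      _ = _ := by rw [hs2, add_comm]
  · calc (1 + s) * X * (1 - s) * s = (1 + s) * X * (s - s * s) := by noncomm_ring
      _ = _ := by rw [hs2]; noncomm_ring

theorem mQ (hl : IsLie L) (hs : s ∈ L) (hs2 : s * s = 1) {X : Module.End K V} (hX : X ∈ L) :
    (1 / 4 : K) • ((1 - s) * X * (1 + s)) ∈ Lm L s := by
  refine (Lm L s).smul_mem _ ⟨hl.minus hs hs2 hX, ?_, ?_⟩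
  · calc s * ((1 - s) * X * (1 + s)) = (s - s * s) * X * (1 + s) := by noncomm_ring
      _ = _ := by rw [hs2]; noncomm_ring
  · calc (1 - s) * X * (1 + s) * s = (1 - s) * X * (s + s * s) := by noncomm_ring
      _ = _ := by rw [hs2, add_comm]

theorem sum_parts (hs2 : s * s = 1) (X : Module.End K V) :
    X = (1 / 4 : K) • ((1 + s) * X * (1 - s)) + (1 / 2 : K) • (X + s * X * s) +
      (1 / 4 : K) • ((1 - s) * X * (1 + s)) := by
  have h1 : (1 + s) * X * (1 - s) + (1 - s) * X * (1 + s) = (2 : K) • X - (2 : K) • (s * X * s) := by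
    rw [two_smul, two_smul]; noncomm_ring
  have h2 : (1 / 4 : K) • ((1 + s) * X * (1 - s)) + (1 / 4 : K) • ((1 - s) * X * (1 + s)) =
      (1 / 2 : K) • (X - s * X * s) := by
    rw [← smul_add, h1, ← smul_sub, smul_smul]
    norm_num
  have h3 : X = (1 / 2 : K) • (X - s * X * s) + (1 / 2 : K) • (X + s * X * s) := by
    rw [← smul_add]
    have h4 : X - s * X * s + (X + s * X * s) = (2 : K) • X := by rw [two_smul]; abel
    rw [h4, smul_smul]
    norm_num
  calc X = (1 / 2 : K) • (X - s * X * s) + (1 / 2 : K) • (X + s * X * s) := h3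
    _ = _ := by rw [← h2]; abel

theorem m0 (hl : IsLie L) (hs : s ∈ L) (hs2 : s * s = 1) {X : Module.End K V} (hX : X ∈ L) :
    (1 / 2 : K) • (X + s * X * s) ∈ L0 L s := by
  refine (L0 L s).smul_mem _ ⟨?_, ?_⟩
  · have h1 := sum_parts (K := K) hs2 X
    have h2 : (1 / 2 : K) • (X + s * X * s) = X - (1 / 4 : K) • ((1 + s) * X * (1 - s)) -
        (1 / 4 : K) • ((1 - s) * X * (1 + s)) := by
      rw [sub_sub, eq_sub_iff_add_eq]
      refine Eq.trans ?_ h1.symm
      abel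
    have h3 : (1 / 2 : K) • (X + s * X * s) ∈ L := by
      rw [h2]
      exact L.sub_mem (L.sub_mem hX (mP hl hs hs2 hX).1) (mQ hl hs hs2 hX).1
    have h4 := L.smul_mem (2 : K) h3
    rw [smul_smul] at h4
    norm_num at h4
    exact h4
  · rw [mul_add, add_mul]
    have h1 : s * (s * X * s) = X * s := by
      rw [← mul_assoc, ← mul_assoc, hs2, one_mul]
    have h2 : s * X * s * s = s * X := by
      rw [mul_assoc, hs2, mul_one]
    rw [h1, h2, add_comm]

end pieces

/-- The projections. -/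
noncomputable def prP (h : AH L s r) : L →ₗ[K] Lp L s where
  toFun X := ⟨(1 / 4 : K) • ((1 + s) * X.1 * (1 - s)), mP h.lie h.s_mem h.s_sq X.2⟩
  map_add' X Y := Subtype.ext (by
    show (1 / 4 : K) • ((1 + s) * (X.1 + Y.1) * (1 - s)) = (1 / 4 : K) • ((1 + s) * X.1 * (1 - s)) +
      (1 / 4 : K) • ((1 + s) * Y.1 * (1 - s))
    rw [mul_add, add_mul, smul_add])
  map_smul' c X := Subtype.ext (by
    show (1 / 4 : K) • ((1 + s) * (c • X.1) * (1 - s)) = c • ((1 / 4 : K) • ((1 + s) * X.1 * (1 - s)))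
    rw [mul_smul_comm, smul_mul_assoc, smul_comm])

noncomputable def prQ (h : AH L s r) : L →ₗ[K] Lm L s where
  toFun X := ⟨(1 / 4 : K) • ((1 - s) * X.1 * (1 + s)), mQ h.lie h.s_mem h.s_sq X.2⟩
  map_add' X Y := Subtype.ext (by
    show (1 / 4 : K) • ((1 - s) * (X.1 + Y.1) * (1 + s)) = (1 / 4 : K) • ((1 - s) * X.1 * (1 + s)) +
      (1 / 4 : K) • ((1 - s) * Y.1 * (1 + s))
    rw [mul_add (1 - s), add_mul, smul_add])
  map_smul' c X := Subtype.ext (by
    show (1 / 4 : K) • ((1 - s) * (c • X.1) * (1 + s)) = c • ((1 / 4 : K) • ((1 - s) * X.1 * (1 + s)))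
    rw [mul_smul_comm, smul_mul_assoc, smul_comm])

noncomputable def pr0 (h : AH L s r) : L →ₗ[K] L0 L s where
  toFun X := ⟨(1 / 2 : K) • (X.1 + s * X.1 * s), m0 h.lie h.s_mem h.s_sq X.2⟩
  map_add' X Y := Subtype.ext (by
    show (1 / 2 : K) • ((X.1 + Y.1) + s * (X.1 + Y.1) * s) = (1 / 2 : K) • (X.1 + s * X.1 * s) +
      (1 / 2 : K) • (Y.1 + s * Y.1 * s)
    rw [mul_add, add_mul, ← smul_add]; congr 1; abel)
  map_smul' c X := Subtype.ext (by
    show (1 / 2 : K) • ((c • X.1) + s * (c • X.1) * s) = c • ((1 / 2 : K) • (X.1 + s * X.1 * s))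
    rw [mul_smul_comm, smul_mul_assoc, ← smul_add, smul_comm])

/-- The representation. -/
noncomputable def rho (h : AH L s r) : L →ₗ[K] Module.End K (K × Lm L s) :=
  opE L s r ∘ₗ prP h + opD h.lie s ∘ₗ pr0 h + opF L s ∘ₗ prQ h

theorem rho_def (h : AH L s r) (X : L) :
    rho h X = opE L s r (prP h X) + opD h.lie s (pr0 h X) + opF L s (prQ h X) := rfl

theorem rho_p (h : AH L s r) (u : Lp L s) : rho h ⟨u.1, u.2.1⟩ = opE L s r u := by
  have h1 : prP h ⟨u.1, u.2.1⟩ = u := Subtype.ext (by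
    show (1 / 4 : K) • ((1 + s) * u.1 * (1 - s)) = u.1
    have e1 : (1 + s) * u.1 = (2 : K) • u.1 := by rw [add_mul, u.2.2.1, one_mul, two_smul]
    have e2 : u.1 * (1 - s) = (2 : K) • u.1 := by rw [mul_sub, u.2.2.2, mul_one, two_smul]; abel
    rw [e1, smul_mul_assoc, e2, smul_smul, smul_smul]
    norm_num)
  have h2 : pr0 h ⟨u.1, u.2.1⟩ = 0 := Subtype.ext (by
    show (1 / 2 : K) • (u.1 + s * u.1 * s) = 0
    rw [u.2.2.1, u.2.2.2, add_neg_cancel, smul_zero])
  have h3 : prQ h ⟨u.1, u.2.1⟩ = 0 := Subtype.ext (by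
    show (1 / 4 : K) • ((1 - s) * u.1 * (1 + s)) = 0
    have e1 : (1 - s) * u.1 = 0 := by rw [sub_mul, u.2.2.1, one_mul, sub_self]
    rw [e1, zero_mul, smul_zero])
  rw [rho_def, h1, h2, h3, map_zero, map_zero, add_zero, add_zero]

theorem rho_m (h : AH L s r) (u : Lm L s) : rho h ⟨u.1, u.2.1⟩ = opF L s u := by
  have h1 : prQ h ⟨u.1, u.2.1⟩ = u := Subtype.ext (by
    show (1 / 4 : K) • ((1 - s) * u.1 * (1 + s)) = u.1
    have e1 : (1 - s) * u.1 = (2 : K) • u.1 := by rw [sub_mul, u.2.2.1, one_mul, two_smul]; abel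
    have e2 : u.1 * (1 + s) = (2 : K) • u.1 := by rw [mul_add, u.2.2.2, mul_one, two_smul]
    rw [e1, smul_mul_assoc, e2, smul_smul, smul_smul]
    norm_num)
  have h2 : pr0 h ⟨u.1, u.2.1⟩ = 0 := Subtype.ext (by
    show (1 / 2 : K) • (u.1 + s * u.1 * s) = 0
    rw [u.2.2.1, neg_mul, u.2.2.2, add_neg_cancel, smul_zero])
  have h3 : prP h ⟨u.1, u.2.1⟩ = 0 := Subtype.ext (by
    show (1 / 4 : K) • ((1 + s) * u.1 * (1 - s)) = 0
    have e1 : (1 + s) * u.1 = 0 := by rw [add_mul, u.2.2.1, one_mul, add_neg_cancel]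
    rw [e1, zero_mul, smul_zero])
  rw [rho_def, h1, h2, h3, map_zero, map_zero, zero_add, zero_add]

theorem rho_0 (h : AH L s r) (u : L0 L s) : rho h ⟨u.1, u.2.1⟩ = opD h.lie s u := by
  have h1 : pr0 h ⟨u.1, u.2.1⟩ = u := Subtype.ext (by
    show (1 / 2 : K) • (u.1 + s * u.1 * s) = u.1
    have e1 : s * u.1 * s = u.1 := by rw [u.2.2, mul_assoc, h.s_sq, mul_one]
    rw [e1, ← two_smul K, smul_smul]
    norm_num)
  have h2 : prP h ⟨u.1, u.2.1⟩ = 0 := Subtype.ext (by
    show (1 / 4 : K) • ((1 + s) * u.1 * (1 - s)) = 0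
    have e1 : (1 + s) * u.1 * (1 - s) = u.1 - u.1 * (s * s) + (s * u.1 - u.1 * s) -
        (s * u.1 - u.1 * s) * s := by noncomm_ring
    rw [e1, h.s_sq, mul_one, u.2.2, sub_self, sub_self, zero_mul, add_zero, sub_zero, smul_zero])
  have h3 : prQ h ⟨u.1, u.2.1⟩ = 0 := Subtype.ext (by
    show (1 / 4 : K) • ((1 - s) * u.1 * (1 + s)) = 0
    have e1 : (1 - s) * u.1 * (1 + s) = u.1 - u.1 * (s * s) - (s * u.1 - u.1 * s) -
        (s * u.1 - u.1 * s) * s := by noncomm_ring
    rw [e1, h.s_sq, mul_one, u.2.2, sub_self, sub_self, zero_mul, sub_zero, sub_zero, smul_zero])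
  rw [rho_def, h1, h2, h3, map_zero, map_zero, zero_add, add_zero]

/-- The bracket of `L`. -/
def brL (hl : IsLie L) (X Y : L) : L := ⟨X.1 * Y.1 - Y.1 * X.1, hl _ X.2 _ Y.2⟩

theorem brL_add1 (hl : IsLie L) (X X' Y : L) : brL hl (X + X') Y = brL hl X Y + brL hl X' Y :=
  Subtype.ext (by
    show (X.1 + X'.1) * Y.1 - Y.1 * (X.1 + X'.1) = (X.1 * Y.1 - Y.1 * X.1) + (X'.1 * Y.1 - Y.1 * X'.1)
    noncomm_ring)


theorem brL_anti (hl : IsLie L) (X Y : L) : brL hl X Y + brL hl Y X = 0 :=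
  Subtype.ext (by
    show (X.1 * Y.1 - Y.1 * X.1) + (Y.1 * X.1 - X.1 * Y.1) = 0
    abel)

/-- The compatibility with the bracket. -/
def Hom2 (h : AH L s r) (X Y : L) : Prop := rho h (brL h.lie X Y) + rho h Y * rho h X = rho h X * rho h Y

theorem Hom2.symm {h : AH L s r} {X Y : L} (h1 : Hom2 h X Y) : Hom2 h Y X := by
  unfold Hom2 at h1 ⊢
  rw [← h1, ← add_assoc, ← map_add, add_comm (brL h.lie Y X), brL_anti, map_zero, zero_add]

theorem Hom2.add1 {h : AH L s r} {X X' Y : L} (h1 : Hom2 h X Y) (h2 : Hom2 h X' Y) : Hom2 h (X + X') Y := by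
  unfold Hom2 at h1 h2 ⊢
  rw [brL_add1, map_add, map_add, mul_add, add_mul, ← h1, ← h2]
  abel

theorem Hom2.add2 {h : AH L s r} {X Y Y' : L} (h1 : Hom2 h X Y) (h2 : Hom2 h X Y') : Hom2 h X (Y + Y') :=
  (h1.symm.add1 h2.symm).symm

theorem hom_pp (h : AH L s r) (u v : Lp L s) : Hom2 h ⟨u.1, u.2.1⟩ ⟨v.1, v.2.1⟩ := by
  unfold Hom2
  have h1 : brL h.lie ⟨u.1, u.2.1⟩ ⟨v.1, v.2.1⟩ = 0 := Subtype.ext (by
    show u.1 * v.1 - v.1 * u.1 = 0
    rw [A2_pp u.2 v.2, A2_pp v.2 u.2, sub_zero])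
  rw [h1, map_zero, rho_p, rho_p, opE_opE, opE_opE, add_zero]

theorem hom_mm (h : AH L s r) (u v : Lm L s) : Hom2 h ⟨u.1, u.2.1⟩ ⟨v.1, v.2.1⟩ := by
  unfold Hom2
  have h1 : brL h.lie ⟨u.1, u.2.1⟩ ⟨v.1, v.2.1⟩ = 0 := Subtype.ext (by
    show u.1 * v.1 - v.1 * u.1 = 0
    rw [A2_mm u.2 v.2, A2_mm v.2 u.2, sub_zero])
  rw [h1, map_zero, rho_m, rho_m, opF_opF, opF_opF, add_zero]

theorem hom_pm (h : AH L s r) (u : Lp L s) (v : Lm L s) : Hom2 h ⟨u.1, u.2.1⟩ ⟨v.1, v.2.1⟩ := by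
  unfold Hom2
  have h1 := rho_0 h (brE h.lie u v)
  have h2 : brL h.lie ⟨u.1, u.2.1⟩ ⟨v.1, v.2.1⟩ = ⟨(brE h.lie u v).1, (brE h.lie u v).2.1⟩ := rfl
  rw [h2, h1, rho_p, rho_m, ← h.EF]
  refine LinearMap.ext fun z => ?_
  rw [LinearMap.add_apply, LinearMap.sub_apply]
  exact sub_add_cancel _ _

theorem hom_0p (h : AH L s r) (Z : L0 L s) (u : Lp L s) : Hom2 h ⟨Z.1, Z.2.1⟩ ⟨u.1, u.2.1⟩ := by
  unfold Hom2
  have h1 := rho_p h ⟨Z.1 * u.1 - u.1 * Z.1, br0p h.lie Z.2 u.2⟩
  have h2 : brL h.lie ⟨Z.1, Z.2.1⟩ ⟨u.1, u.2.1⟩ =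
    ⟨Z.1 * u.1 - u.1 * Z.1, (br0p h.lie Z.2 u.2).1⟩ := rfl
  rw [h2, h1, rho_p, rho_0, ← h.DE]
  refine LinearMap.ext fun z => ?_
  rw [LinearMap.add_apply, LinearMap.sub_apply]
  exact sub_add_cancel _ _

theorem hom_0m (h : AH L s r) (Z : L0 L s) (u : Lm L s) : Hom2 h ⟨Z.1, Z.2.1⟩ ⟨u.1, u.2.1⟩ := by
  unfold Hom2
  have h1 := rho_m h (adQ h.lie s Z u)
  have h2 : brL h.lie ⟨Z.1, Z.2.1⟩ ⟨u.1, u.2.1⟩ = ⟨(adQ h.lie s Z u).1, (adQ h.lie s Z u).2.1⟩ := rfl
  rw [h2, h1, rho_m, rho_0, ← h.DF]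
  refine LinearMap.ext fun z => ?_
  rw [LinearMap.add_apply, LinearMap.sub_apply]
  exact sub_add_cancel _ _

theorem hom_00 (h : AH L s r) (Z Z' : L0 L s) : Hom2 h ⟨Z.1, Z.2.1⟩ ⟨Z'.1, Z'.2.1⟩ := by
  unfold Hom2
  have h1 := rho_0 h ⟨Z.1 * Z'.1 - Z'.1 * Z.1, br00 h.lie Z.2 Z'.2⟩
  have h2 : brL h.lie ⟨Z.1, Z.2.1⟩ ⟨Z'.1, Z'.2.1⟩ =
    ⟨Z.1 * Z'.1 - Z'.1 * Z.1, (br00 h.lie Z.2 Z'.2).1⟩ := rfl
  rw [h2, h1, rho_0, rho_0, ← h.DD]
  refine LinearMap.ext fun z => ?_
  rw [LinearMap.add_apply, LinearMap.sub_apply]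
  exact sub_add_cancel _ _

theorem decL (h : AH L s r) (X : L) : X = ⟨(prP h X).1, (prP h X).2.1⟩ + ⟨(pr0 h X).1, (pr0 h X).2.1⟩ +
    ⟨(prQ h X).1, (prQ h X).2.1⟩ := Subtype.ext (sum_parts h.s_sq X.1)

theorem rho_lie (h : AH L s r) (X Y : L) : Hom2 h X Y := by
  rw [decL h X, decL h Y]
  refine Hom2.add1 (Hom2.add1 ?_ ?_) ?_ <;> refine Hom2.add2 (Hom2.add2 ?_ ?_) ?_
  · exact hom_pp h _ _
  · exact (hom_0p h _ _).symm
  · exact hom_pm h _ _
  · exact hom_0p h _ _
  · exact hom_00 h _ _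
  · exact hom_0m h _ _
  · exact (hom_pm h _ _).symm
  · exact (hom_0m h _ _).symm
  · exact hom_mm h _ _

end Pool.Agent.H86K
end

-- from Lib.H86K.K5
section

/-!
# K5: an involution is not conjugate to its negative
-/

set_option autoImplicit false
set_option linter.unusedSectionVars false
namespace Pool.Agent.H86K
open Module Pool.Agent.H53Toric Pool.Agent.H49M

variable {K : Type*} [Field K] [CharZero K] {V : Type*} [AddCommGroup V] [Module K V] [FiniteDimensional K V]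

variable {L : Submodule K (Module.End K V)} {s : Module.End K V} {r : K}

/-- The trilinear form. -/
noncomputable def tri (h : AH L s r) (X Y Z : L) : K :=
  LinearMap.trace K (K × Lm L s) (rho h X * rho h Y * rho h Z)

theorem tri_add1 (h : AH L s r) (X X' Y Z : L) : tri h (X + X') Y Z = tri h X Y Z + tri h X' Y Z := by
  unfold tri
  rw [map_add, add_mul, add_mul, map_add]

theorem tri_add2 (h : AH L s r) (X Y Y' Z : L) : tri h X (Y + Y') Z = tri h X Y Z + tri h X Y' Z := by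
  unfold tri
  rw [map_add, mul_add, add_mul, map_add]

theorem tri_add3 (h : AH L s r) (X Y Z Z' : L) : tri h X Y (Z + Z') = tri h X Y Z + tri h X Y Z' := by
  unfold tri
  rw [map_add, mul_add, map_add]

theorem tri_smul1 (h : AH L s r) (c : K) (X Y Z : L) : tri h (c • X) Y Z = c * tri h X Y Z := by
  unfold tri
  rw [map_smul, smul_mul_assoc, smul_mul_assoc, map_smul, smul_eq_mul]

theorem tri_smul2 (h : AH L s r) (c : K) (X Y Z : L) : tri h X (c • Y) Z = c * tri h X Y Z := by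
  unfold tri
  rw [map_smul, mul_smul_comm, smul_mul_assoc, map_smul, smul_eq_mul]

theorem tri_smul3 (h : AH L s r) (c : K) (X Y Z : L) : tri h X Y (c • Z) = c * tri h X Y Z := by
  unfold tri
  rw [map_smul, mul_smul_comm, map_smul, smul_eq_mul]

theorem tri_wt (h : AH L s r) {z X Y Z : L} {a b c : K} (hX : brL h.lie z X = a • X)
    (hY : brL h.lie z Y = b • Y) (hZ : brL h.lie z Z = c • Z) : (a + b + c) * tri h X Y Z = 0 := by
  have h1 := rho_lie h z X
  have h2 := rho_lie h z Y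
  have h3 := rho_lie h z Z
  unfold Hom2 at h1 h2 h3
  rw [hX, map_smul] at h1
  rw [hY, map_smul] at h2
  rw [hZ, map_smul] at h3
  have h4 : rho h z * (rho h X * rho h Y * rho h Z) = (a + b + c) • (rho h X * rho h Y * rho h Z) +
      (rho h X * rho h Y * rho h Z) * rho h z := by
    calc rho h z * (rho h X * rho h Y * rho h Z) = (rho h z * rho h X) * rho h Y * rho h Z := by
          simp only [mul_assoc]
      _ = a • (rho h X * rho h Y * rho h Z) + rho h X * (rho h z * rho h Y) * rho h Z := by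
          rw [← h1, add_mul, add_mul, smul_mul_assoc, smul_mul_assoc]
          simp only [mul_assoc]
      _ = a • (rho h X * rho h Y * rho h Z) + (b • (rho h X * rho h Y * rho h Z) +
            rho h X * rho h Y * (rho h z * rho h Z)) := by
          rw [← h2, mul_add, add_mul, mul_smul_comm, smul_mul_assoc]
          simp only [mul_assoc]
      _ = a • (rho h X * rho h Y * rho h Z) + (b • (rho h X * rho h Y * rho h Z) +
            (c • (rho h X * rho h Y * rho h Z) + rho h X * rho h Y * rho h Z * rho h z)) := by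
          rw [← h3, mul_add, mul_smul_comm]
          simp only [mul_assoc]
      _ = _ := by
          rw [add_smul, add_smul]
          simp only [add_assoc]
  have h5 := congrArg (LinearMap.trace K (K × Lm L s)) h4
  rw [LinearMap.trace_mul_comm, map_add, map_smul, smul_eq_mul] at h5
  exact right_eq_add.1 h5

/-- The cubic form. -/
noncomputable def cub (h : AH L s r) (X : L) : K := tri h X X X

theorem cub_wt (h : AH L s r) {z A B C : L} (hA : brL h.lie z A = (2 : K) • A)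
    (hB : brL h.lie z B = (0 : K) • B) (hC : brL h.lie z C = (-2 : K) • C) {t : K} (ht : t ≠ 0) :
    cub h (t • A + B + t⁻¹ • C) = cub h (A + B + C) := by
  have z1 : tri h A A A = 0 := by
    have := tri_wt h hA hA hA
    exact (mul_eq_zero.1 this).resolve_left (by norm_num)
  have z2 : tri h A A B = 0 := (mul_eq_zero.1 (tri_wt h hA hA hB)).resolve_left (by norm_num)
  have z3 : tri h A B A = 0 := (mul_eq_zero.1 (tri_wt h hA hB hA)).resolve_left (by norm_num)
  have z4 : tri h B A A = 0 := (mul_eq_zero.1 (tri_wt h hB hA hA)).resolve_left (by norm_num)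
  have z5 : tri h A A C = 0 := (mul_eq_zero.1 (tri_wt h hA hA hC)).resolve_left (by norm_num)
  have z6 : tri h A C A = 0 := (mul_eq_zero.1 (tri_wt h hA hC hA)).resolve_left (by norm_num)
  have z7 : tri h C A A = 0 := (mul_eq_zero.1 (tri_wt h hC hA hA)).resolve_left (by norm_num)
  have z8 : tri h A B B = 0 := (mul_eq_zero.1 (tri_wt h hA hB hB)).resolve_left (by norm_num)
  have z9 : tri h B A B = 0 := (mul_eq_zero.1 (tri_wt h hB hA hB)).resolve_left (by norm_num)
  have z10 : tri h B B A = 0 := (mul_eq_zero.1 (tri_wt h hB hB hA)).resolve_left (by norm_num)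
  have z11 : tri h C C C = 0 := (mul_eq_zero.1 (tri_wt h hC hC hC)).resolve_left (by norm_num)
  have z12 : tri h C C B = 0 := (mul_eq_zero.1 (tri_wt h hC hC hB)).resolve_left (by norm_num)
  have z13 : tri h C B C = 0 := (mul_eq_zero.1 (tri_wt h hC hB hC)).resolve_left (by norm_num)
  have z14 : tri h B C C = 0 := (mul_eq_zero.1 (tri_wt h hB hC hC)).resolve_left (by norm_num)
  have z15 : tri h C C A = 0 := (mul_eq_zero.1 (tri_wt h hC hC hA)).resolve_left (by norm_num)
  have z16 : tri h C A C = 0 := (mul_eq_zero.1 (tri_wt h hC hA hC)).resolve_left (by norm_num)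
  have z17 : tri h A C C = 0 := (mul_eq_zero.1 (tri_wt h hA hC hC)).resolve_left (by norm_num)
  have z18 : tri h C B B = 0 := (mul_eq_zero.1 (tri_wt h hC hB hB)).resolve_left (by norm_num)
  have z19 : tri h B C B = 0 := (mul_eq_zero.1 (tri_wt h hB hC hB)).resolve_left (by norm_num)
  have z20 : tri h B B C = 0 := (mul_eq_zero.1 (tri_wt h hB hB hC)).resolve_left (by norm_num)
  unfold cub
  simp only [tri_add1, tri_add2, tri_add3, tri_smul1, tri_smul2, tri_smul3, z1, z2, z3, z4, z5, z6, z7, z8, z9,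
    z10, z11, z12, z13, z14, z15, z16, z17, z18, z19, z20, mul_zero, add_zero, zero_add]
  field_simp

/-- The one parameter groups of the involutions of `L`. -/
def tset (L : Submodule K (Module.End K V)) : Set (Module.End K V) :=
  {X | ∃ z ∈ L, z * z = 1 ∧ ∃ t : K, t ≠ 0 ∧ X = ((1 + t) / 2) • 1 + ((t - 1) / 2) • z}

theorem tset_inv {z : Module.End K V} (hz : z * z = 1) {t : K} (ht : t ≠ 0) :
    (((1 + t) / 2) • (1 : Module.End K V) + ((t - 1) / 2) • z) *
      (((1 + t⁻¹) / 2) • 1 + ((t⁻¹ - 1) / 2) • z) = 1 := by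
  have h1 : (((1 + t) / 2) • (1 : Module.End K V) + ((t - 1) / 2) • z) *
      (((1 + t⁻¹) / 2) • 1 + ((t⁻¹ - 1) / 2) • z) =
      (((1 + t) / 2) * ((1 + t⁻¹) / 2) + ((t - 1) / 2) * ((t⁻¹ - 1) / 2)) • (1 : Module.End K V) +
      (((1 + t) / 2) * ((t⁻¹ - 1) / 2) + ((t - 1) / 2) * ((1 + t⁻¹) / 2)) • z := by
    rw [add_mul, mul_add, mul_add]
    simp only [smul_mul_assoc, mul_smul_comm, one_mul, mul_one, smul_smul, hz]
    module
  have h2 : ((1 + t) / 2) * ((1 + t⁻¹) / 2) + ((t - 1) / 2) * ((t⁻¹ - 1) / 2) = 1 := by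
    field_simp
    ring
  have h3 : ((1 + t) / 2) * ((t⁻¹ - 1) / 2) + ((t - 1) / 2) * ((1 + t⁻¹) / 2) = 0 := by
    field_simp
    ring
  rw [h1, h2, h3, one_smul, zero_smul, add_zero]

theorem inv_unique {A B B' : Module.End K V} (h : A * B = 1) (h' : A * B' = 1) : B = B' := by
  have h1 : B * A = 1 := _root_.mul_eq_one_comm.1 h
  calc B = B * (A * B') := by rw [h', mul_one]
    _ = B' := by rw [← mul_assoc, h1, one_mul]

theorem gen_inv (h : AH L s r) {z : Module.End K V} (hz : z ∈ L) (hz2 : z * z = 1) {t : K} (ht : t ≠ 0)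
    {G G' : Module.End K V} (hG : G = ((1 + t) / 2) • 1 + ((t - 1) / 2) • z) (hGG : G * G' = 1) (X : L) :
    ∃ Y : L, Y.1 = G * X.1 * G' ∧ cub h Y = cub h X := by
  have hG' : G' = ((1 + t⁻¹) / 2) • 1 + ((t⁻¹ - 1) / 2) • z := by
    refine inv_unique hGG ?_
    rw [hG]
    exact tset_inv hz2 ht
  have hp := mP h.lie hz hz2 X.2
  have h0 := m0 h.lie hz hz2 X.2
  have hm := mQ h.lie hz hz2 X.2
  have hsum := sum_parts (K := K) hz2 X.1
  set a := (1 / 4 : K) • ((1 + z) * X.1 * (1 - z)) with ha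
  set b := (1 / 2 : K) • (X.1 + z * X.1 * z) with hb
  set c := (1 / 4 : K) • ((1 - z) * X.1 * (1 + z)) with hc
  have hX : X = (⟨a, hp.1⟩ : L) + ⟨b, h0.1⟩ + ⟨c, hm.1⟩ := Subtype.ext hsum
  refine ⟨t • (⟨a, hp.1⟩ : L) + ⟨b, h0.1⟩ + t⁻¹ • ⟨c, hm.1⟩, ?_, ?_⟩
  · show t • a + b + t⁻¹ • c = G * X.1 * G'
    have ea : G * a = t • a := by
      rw [hG, add_mul, smul_mul_assoc, smul_mul_assoc, one_mul, hp.2.1, ← add_smul]
      congr 1
      ring
    have ea' : a * G' = a := by
      rw [hG', mul_add, mul_smul_comm, mul_smul_comm, mul_one, hp.2.2, smul_neg, ← sub_eq_add_neg, ← sub_smul]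
      have : (1 + t⁻¹) / 2 - (t⁻¹ - 1) / 2 = 1 := by ring
      rw [this, one_smul]
    have ec : G * c = c := by
      rw [hG, add_mul, smul_mul_assoc, smul_mul_assoc, one_mul, hm.2.1, smul_neg, ← sub_eq_add_neg, ← sub_smul]
      have : (1 + t) / 2 - (t - 1) / 2 = 1 := by ring
      rw [this, one_smul]
    have ec' : c * G' = t⁻¹ • c := by
      rw [hG', mul_add, mul_smul_comm, mul_smul_comm, mul_one, hm.2.2, ← add_smul]
      congr 1
      ring
    have eb : G * b = b * G := by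
      have e0 : z * b = b * z := h0.2
      rw [hG, add_mul, mul_add, smul_mul_assoc, smul_mul_assoc, mul_smul_comm ((1 + t) / 2) b,
        mul_smul_comm ((t - 1) / 2) b, one_mul, mul_one, e0]
    rw [hsum, mul_add, mul_add, add_mul, add_mul, ea, eb, ec, smul_mul_assoc, ea', mul_assoc, hGG, mul_one, ec']
  · have hcomm : ∀ {w : Module.End K V} (hw : w ∈ L) {d : K}, z * w - w * z = d • w →
        brL h.lie ⟨z, hz⟩ ⟨w, hw⟩ = d • ⟨w, hw⟩ := by
      intro w hw d hd
      exact Subtype.ext hd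
    rw [cub_wt h (hcomm hp.1 (d := 2) ?_) (hcomm h0.1 (d := 0) ?_) (hcomm hm.1 (d := -2) ?_) ht, ← hX]
    · rw [hp.2.1, hp.2.2, two_smul, sub_neg_eq_add]
    · rw [h0.2, sub_self, zero_smul]
    · rw [hm.2.1, hm.2.2, neg_smul, two_smul]
      abel

theorem clo_inv (h : AH L s r) {G : Module.End K V} (hG : G ∈ Submonoid.closure (tset L)) :
    ∃ G', G * G' = 1 ∧ ∀ X : L, ∃ Y : L, Y.1 = G * X.1 * G' ∧ cub h Y = cub h X := by
  induction hG using Submonoid.closure_induction with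
  | mem G hG =>
    obtain ⟨z, hz, hz2, t, ht, rfl⟩ := hG
    exact ⟨_, tset_inv hz2 ht, fun X => gen_inv h hz hz2 ht rfl (tset_inv hz2 ht) X⟩
  | one => exact ⟨1, one_mul 1, fun X => ⟨X, by rw [one_mul, mul_one], rfl⟩⟩
  | mul A B _ _ hA hB =>
    obtain ⟨A', hAA, hA'⟩ := hA
    obtain ⟨B', hBB, hB'⟩ := hB
    refine ⟨B' * A', ?_, fun X => ?_⟩
    · calc A * B * (B' * A') = A * (B * B') * A' := by simp only [mul_assoc]
        _ = 1 := by rw [hBB, mul_one, hAA]
    · obtain ⟨Y, hY, hYX⟩ := hB' X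
      obtain ⟨Z, hZ, hZY⟩ := hA' Y
      refine ⟨Z, ?_, hZY.trans hYX⟩
      rw [hZ, hY]
      simp only [mul_assoc]

theorem cub_s (h : AH L s r) : cub h ⟨s, h.s_mem⟩ =
    (2 * (finrank K (Lm L s) : K) / (finrank K (Lm L s) + 1)) ^ 3 +
      (finrank K (Lm L s) : K) * (2 * (finrank K (Lm L s) : K) / (finrank K (Lm L s) + 1) - 2) ^ 3 := by
  have hs0 : s ∈ L0 L s := ⟨h.s_mem, rfl⟩
  have h1 : rho h ⟨s, h.s_mem⟩ = opD h.lie s ⟨s, hs0⟩ := rho_0 h ⟨s, hs0⟩
  have h2 : adQ h.lie s ⟨s, hs0⟩ = (-2 : K) • 1 := by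
    refine LinearMap.ext fun w => Subtype.ext ?_
    rw [adQ_apply]
    show s * w.1 - w.1 * s = (-2 : K) • w.1
    rw [w.2.2.1, w.2.2.2, neg_smul, two_smul]
    abel
  have hne : (finrank K (Lm L s) : K) + 1 ≠ 0 := by
    have : ((finrank K (Lm L s) + 1 : ℕ) : K) ≠ 0 := Nat.cast_ne_zero.2 (Nat.succ_ne_zero _)
    push_cast at this
    exact this
  have h3 : lam h.lie s ⟨s, hs0⟩ = 2 * (finrank K (Lm L s) : K) / (finrank K (Lm L s) + 1) := by
    unfold lam
    rw [LinearMap.smul_apply, LinearMap.comp_apply, h2, map_smul, LinearMap.trace_one, smul_eq_mul, smul_eq_mul]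
    field_simp
  set l : K := 2 * (finrank K (Lm L s) : K) / (finrank K (Lm L s) + 1) with hl
  have h4 : rho h ⟨s, h.s_mem⟩ = LinearMap.prodMap (l • (1 : Module.End K K)) ((l - 2) • (1 : Module.End K (Lm L s))) := by
    rw [h1]
    refine LinearMap.ext fun w => ?_
    rw [opD_apply, h2, h3]
    refine Prod.ext rfl ?_
    show (-2 : K) • w.2 + l • w.2 = (l - 2) • w.2
    rw [← add_smul]
    congr 1
    ring
  have h5 : rho h ⟨s, h.s_mem⟩ * rho h ⟨s, h.s_mem⟩ * rho h ⟨s, h.s_mem⟩ =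
      LinearMap.prodMap ((l ^ 3) • (1 : Module.End K K)) (((l - 2) ^ 3) • (1 : Module.End K (Lm L s))) := by
    rw [h4]
    refine LinearMap.ext fun w => Prod.ext ?_ ?_
    · show l • (l • (l • w.1)) = (l ^ 3) • w.1
      rw [smul_smul, smul_smul]
      congr 1
      ring
    · show (l - 2) • ((l - 2) • ((l - 2) • w.2)) = ((l - 2) ^ 3) • w.2
      rw [smul_smul, smul_smul]
      congr 1
      ring
  unfold cub tri
  rw [h5, LinearMap.trace_prodMap', map_smul, map_smul, LinearMap.trace_one, LinearMap.trace_one, finrank_self,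
    Nat.cast_one, smul_eq_mul, smul_eq_mul]
  ring

/-- **An involution is not conjugate to its negative.** -/
theorem no_flip (h : AH L s r) (hm : 2 ≤ finrank K (Lm L s)) {G G' : Module.End K V}
    (hG : G ∈ Submonoid.closure (tset L)) (hGG : G * G' = 1) : G * s * G' ≠ -s := by
  intro hflip
  obtain ⟨G₁, hG₁, hinv⟩ := clo_inv h hG
  obtain rfl := inv_unique hG₁ hGG
  obtain ⟨Y, hY, hYs⟩ := hinv ⟨s, h.s_mem⟩
  have hY' : Y = (-1 : K) • ⟨s, h.s_mem⟩ := Subtype.ext (by
    rw [hY, hflip]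
    show -s = (-1 : K) • s
    rw [neg_one_smul])
  have h1 : cub h ((-1 : K) • ⟨s, h.s_mem⟩) = -cub h ⟨s, h.s_mem⟩ := by
    unfold cub
    rw [tri_smul1, tri_smul2, tri_smul3]
    ring
  rw [hY', h1] at hYs
  have h2 : cub h ⟨s, h.s_mem⟩ = 0 := neg_eq_self.1 hYs
  rw [cub_s] at h2
  set m : K := (finrank K (Lm L s) : K) with hmdef
  have hne : m + 1 ≠ 0 := by
    have : ((finrank K (Lm L s) + 1 : ℕ) : K) ≠ 0 := Nat.cast_ne_zero.2 (Nat.succ_ne_zero _)
    push_cast at this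
    exact this
  have hm0 : m ≠ 0 := by
    rw [hmdef, Nat.cast_ne_zero]
    omega
  have hm1 : m - 1 ≠ 0 := by
    rw [sub_ne_zero, hmdef, Ne, Nat.cast_eq_one]
    omega
  have h3 : (2 * m / (m + 1)) ^ 3 + m * (2 * m / (m + 1) - 2) ^ 3 = 8 * m * (m - 1) / (m + 1) ^ 2 := by
    field_simp
    ring
  rw [h3, div_eq_zero_iff] at h2
  rcases h2 with h2 | h2
  · rcases mul_eq_zero.1 h2 with h4 | h4
    · rcases mul_eq_zero.1 h4 with h5 | h5
      · norm_num at h5
      · exact hm0 h5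
    · exact hm1 h4
  · exact hne (pow_eq_zero_iff (two_ne_zero) |>.1 h2)

end Pool.Agent.H86K
end

-- from Lib.H86K.K6
section

/-!
# K6: a flipped involution: the component is full
-/

set_option autoImplicit false
set_option linter.unusedSectionVars false
namespace Pool.Agent.H86K
open Module Matrix Pool.Agent.H53Toric Pool.Agent.H49M
open Pool.Agent.H76T (IsIdeal Fam)
open Pool.Agent.H76V (Cmp)

/-- The data of the binomial case. -/
theorem ah_of {K : Type*} [Field K] [CharZero K] [IsAlgClosed K] {V : Type*} [AddCommGroup V] [Module K V]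
    [FiniteDimensional K V] [Nontrivial V] {L : Submodule K (Module.End K V)} {ω : V →ₗ[K] V →ₗ[K] K}
    {adj : Module.End K V →ₗ[K] Module.End K V} (h : Core L ω adj) {s : Module.End K V} (hs : s ∈ L)
    (hs2 : s * s = 1) (hnot : ¬ ∀ X : Module.End K V, adj X = -X → X ∈ L) (hpow : ∀ m : ℕ, finrank K V ≠ 2 ^ m) :
    ∃ r : K, AH L s r ∧ 2 ≤ finrank K (Lm L s) := by
  obtain ⟨e, f, F, hall, h2⟩ := alpha_at h hs hs2 hnot hpow
  have hr0 : (finrank K (LinearMap.range e) : K) ≠ 0 := by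
    rw [Nat.cast_ne_zero]
    intro h0
    exact F.e_ne (LinearMap.range_eq_bot.1 (Submodule.finrank_eq_zero.1 h0))
  refine ⟨(finrank K (LinearMap.range e) : K), ⟨h.lie, hs, hs2, fun x y => ?_, fun x y => ?_⟩, h2⟩
  · have h3 := (K3_trace h F hall x.2 y.2).1
    rw [bet_apply, ← smul_smul, ← h3, smul_smul, inv_mul_cancel₀ hr0, one_smul]
  · have h3 := (K3_trace h F hall x.2 y.2).2
    rw [bet_apply, ← smul_smul, ← h3, smul_smul, inv_mul_cancel₀ hr0, one_smul]

variable {κ : Type*} [Fintype κ] [DecidableEq κ] {K : Type*} [Field K]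
variable [CharZero K] {L : Submodule K (Module.End K (κ → K))} {J : Matrix κ κ K}
variable [IsAlgClosed K] [Nonempty κ]

theorem core_of (h : Cmp L J) {I : Fin 1 → Submodule K (Module.End K (κ → K))} (hF : Fam L I) :
    H49M.Core L (om J) (adjE J) := by
  have hL : I 0 = L := by
    rw [← hF.sup]
    apply le_antisymm
    · exact le_iSup I 0
    · apply iSup_le
      intro j
      rw [Subsingleton.elim j 0]
  exact
    { lie := h.lie
      irr := h.irr
      simple := fun M hM hM' => by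
        have h1 := hF.min 0 M ⟨hM, hM'⟩ (by rw [hL]; exact hM)
        rwa [hL] at h1
      alt := om_alt h.Jt
      nd := by
        intro v hv
        apply om_nd h.Jd
        intro w
        rw [omega_antisymm (om_alt h.Jt), hv, neg_zero]
      spec := H49M.C0_spec h.Jd
      skew := h.skew }

/-- **A flipped involution.** -/
theorem flip_full (h : Cmp L J) {I : Fin 1 → Submodule K (Module.End K (κ → K))} (hF : Fam L I)
    {y : Module.End K (κ → K)} (hy : y ∈ L) (hy2 : y * y = 1) (hpow : ∀ m : ℕ, Fintype.card κ ≠ 2 ^ m)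
    {G G' : Module.End K (κ → K)} (hG : G ∈ Submonoid.closure (tset L)) (hGG : G * G' = 1)
    (hflip : G * y * G' = -y) {X : Module.End K (κ → K)} (hX : adjE J X = -X) : X ∈ L := by
  by_contra hX'
  have hcore := core_of h hF
  obtain ⟨r, hAH, hm⟩ := ah_of hcore hy hy2 (fun hall => hX' (hall X hX)) fun m => by
    rw [Module.finrank_fintype_fun_eq_card]
    exact hpow m
  exact no_flip hAH hm hG hGG hflip

end Pool.Agent.H86K
end
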