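import Pool.Agent.Lib.H1M.RC.M039
import Pool.Agent.Lib.H1M.RC.M048
import Pool.Agent.Lib.H1M.RC.M049
import Pool.Agent.Lib.H1M.RC.M051
import Pool.Agent.Lib.H1M.RC.M053
import Pool.Agent.Lib.H1M.RC.M056
import Pool.Agent.Lib.H1M.RC.M057
import Pool.Agent.Lib.H1M.RC.M059

/-! Merged copies (to shorten the build) of Lib.H25Y.BLN, Lib.H25U.BLN, Lib.H25U.BLO, Lib.H76Y.BL2, Lib.H76Y.G10, Lib.H25U.Bridge, Lib.H25U.FullN, Lib.H25U.FullD, Lib.H76Q.X11, Lib.H76Y.SimpleO, Lib.H76Y.W1, Lib.H76Z.F7. -/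

-- from Lib.H25Y.BLN
section

/-!
# BLN: blocks and ideals without an invariant form
-/

set_option autoImplicit false
set_option linter.unusedSectionVars false
namespace Pool.Agent.H25Y
open Module Pool.Agent.H76P

section config

variable {κ : Type*} [Fintype κ] [DecidableEq κ] {V : Type*} [AddCommGroup V] [Module ℚ V]

/-- A splitting with two values and mean zero takes opposite values. -/
theorem two_opp [Nonempty κ] {pt : κ → V} (hinj : Function.Injective pt) (h0 : ∑ k, pt k = 0)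
    {q : Module.End ℚ V} (hq : Spl pt q) (h2 : cnt pt q = 2) (a : κ) :
    ∃ b, q (pt b) = -q (pt a) := by
  classical
  have h3 : ((Finset.univ : Finset κ).image fun a => q (pt a)).card = 2 := by
    unfold cnt at h2
    exact h2
  obtain ⟨x, y, hxy, himg⟩ := Finset.card_eq_two.1 h3
  have hmem : ∀ a, q (pt a) = x ∨ q (pt a) = y := by
    intro a
    have : q (pt a) ∈ ((Finset.univ : Finset κ).image fun a => q (pt a)) :=
      Finset.mem_image_of_mem _ (Finset.mem_univ a)
    rw [himg, Finset.mem_insert, Finset.mem_singleton] at this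
    exact this
  have hx : ∃ a, q (pt a) = x := by
    have : x ∈ ((Finset.univ : Finset κ).image fun a => q (pt a)) := by
      rw [himg]
      exact Finset.mem_insert_self _ _
    obtain ⟨a, -, ha⟩ := Finset.mem_image.1 this
    exact ⟨a, ha⟩
  have hy : ∃ a, q (pt a) = y := by
    have : y ∈ ((Finset.univ : Finset κ).image fun a => q (pt a)) := by
      rw [himg]
      exact Finset.mem_insert_of_mem (Finset.mem_singleton_self _)
    obtain ⟨a, -, ha⟩ := Finset.mem_image.1 this
    exact ⟨a, ha⟩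
  have hqq : ∀ u, q (q u) = q u := fun u => LinearMap.congr_fun hq.1 u
  have hoth : ∀ a, ∃ b, q (pt b) = (x + y) - q (pt a) := by
    intro a
    rcases hmem a with h | h
    · obtain ⟨b, hb⟩ := hy
      exact ⟨b, by rw [h, hb]; abel⟩
    · obtain ⟨b, hb⟩ := hx
      exact ⟨b, by rw [h, hb]; abel⟩
  have hτ : ∀ a, ∃ c, pt c = pt a + ((x + y) - q (pt a) - q (pt a)) := by
    intro a
    obtain ⟨b, hb⟩ := hoth a
    obtain ⟨c, hc⟩ := hq.2 a b
    exact ⟨c, by rw [hc, map_sub, hb]⟩
  choose τ hτ using hτ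
  have hqx : q (x + y) = x + y := by
    obtain ⟨a, ha⟩ := hx
    obtain ⟨b, hb⟩ := hy
    rw [map_add, ← ha, ← hb, hqq, hqq]
  have hqτ : ∀ a, q (pt (τ a)) = (x + y) - q (pt a) := by
    intro a
    rw [hτ, map_add, map_sub, map_sub, hqx, hqq]
    abel
  have hττ : Function.Involutive τ := by
    intro a
    apply hinj
    rw [hτ (τ a), hqτ, hτ a]
    abel
  have hsum : ∑ a, q (pt a) = 0 := by rw [← map_sum, h0, map_zero]
  have hsum' : ∑ a, q (pt (τ a)) = 0 := by
    rw [← hsum]
    exact Fintype.sum_bijective τ hττ.bijective _ _ fun a => rfl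
  have h4 : (Fintype.card κ : ℚ) • (x + y) = 0 := by
    have h5 : ∑ a, q (pt (τ a)) = ∑ a : κ, ((x + y) - q (pt a)) :=
      Finset.sum_congr rfl fun a _ => hqτ a
    rw [hsum', Finset.sum_sub_distrib, hsum, sub_zero, Finset.sum_const, Finset.card_univ] at h5
    rw [h5, Nat.cast_smul_eq_nsmul]
  have h6 : x + y = 0 := by
    rcases smul_eq_zero.1 h4 with h | h
    · exact absurd h (by exact_mod_cast Fintype.card_ne_zero)
    · exact h
  obtain ⟨b, hb⟩ := hoth a
  exact ⟨b, by rw [hb, h6, zero_sub]⟩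

/-- If all atoms have two values, the configuration is symmetric. -/
theorem sym_of_two [Nonempty κ] {pt : κ → V} (hs : Spans pt) (hinj : Function.Injective pt)
    (h0 : ∑ k, pt k = 0) (h2 : ∀ q, Atom pt q → cnt pt q = 2) (k : κ) : ∃ k', pt k' = -pt k := by
  classical
  obtain ⟨s, hsm, hsum⟩ := atoms_sum hs
  have key : ∀ t : Finset (Module.End ℚ V), t ⊆ s → ∃ c, pt c = pt k - (2 : ℚ) • ∑ q ∈ t, q (pt k) := by
    intro t
    induction t using Finset.induction_on with
    | empty => exact fun _ => ⟨k, by simp⟩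
    | insert q t hqt ih =>
      intro hts
      obtain ⟨c, hc⟩ := ih fun r hr => hts (Finset.mem_insert_of_mem hr)
      have hq : Atom pt q := (hsm q).1 (hts (Finset.mem_insert_self q t))
      obtain ⟨b, hb⟩ := two_opp hinj h0 hq.1 (h2 q hq) k
      obtain ⟨c', hc'⟩ := hq.1.2 c b
      refine ⟨c', ?_⟩
      have h3 : q (pt c) = q (pt k) := by
        rw [hc, map_sub, map_smul, map_sum]
        have h4 : ∑ r ∈ t, q (r (pt k)) = 0 := by
          refine Finset.sum_eq_zero fun r hr => ?_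
          have hr' : Atom pt r := (hsm r).1 (hts (Finset.mem_insert_of_mem hr))
          have h5 := Atom.orth hs hq hr' fun h => hqt (h ▸ hr)
          exact LinearMap.congr_fun h5 (pt k)
        rw [h4, smul_zero, sub_zero]
      rw [hc', map_sub, hb, h3, hc, Finset.sum_insert hqt]
      module
  obtain ⟨c, hc⟩ := key s (Finset.Subset.refl s)
  refine ⟨c, ?_⟩
  have h3 : ∑ q ∈ s, q (pt k) = pt k := by
    have := LinearMap.congr_fun hsum (pt k)
    rwa [LinearMap.sum_apply, Module.End.one_apply] at this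
  rw [hc, h3]
  module

/-- In eight points, two atoms with two values force all atoms to have two values. -/
theorem all_two [Nonempty κ] {pt : κ → V} (hs : Spans pt) (hinj : Function.Injective pt)
    (h8 : Fintype.card κ = 8) {q q' : Module.End ℚ V} (hq : Atom pt q) (hq' : Atom pt q')
    (hne : q ≠ q') (h1 : cnt pt q = 2) (h2 : cnt pt q' = 2) : ∀ r, Atom pt r → cnt pt r = 2 := by
  classical
  obtain ⟨s, hsm, hsum⟩ := atoms_sum hs
  have hprod := card_prod hs hinj (fun r hr => (hsm r).1 hr) hsum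
  rw [h8, ← Finset.mul_prod_erase s _ ((hsm q).2 hq), h1,
    ← Finset.mul_prod_erase (s.erase q) _ (Finset.mem_erase.2 ⟨hne.symm, (hsm q').2 hq'⟩), h2] at hprod
  intro r hr
  by_cases hrq : r = q
  · rw [hrq, h1]
  by_cases hrq' : r = q'
  · rw [hrq', h2]
  have hrm : r ∈ (s.erase q).erase q' :=
    Finset.mem_erase.2 ⟨hrq', Finset.mem_erase.2 ⟨hrq, (hsm r).2 hr⟩⟩
  have hdvd : cnt pt r ∣ 2 := by
    have h3 := Finset.dvd_prod_of_mem (fun r => cnt pt r) hrm
    have h4 : ∏ r ∈ (s.erase q).erase q', cnt pt r = 2 := by omega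
    rwa [h4] at h3
  have hge : 2 ≤ cnt pt r := by
    obtain ⟨a, b, hab⟩ := cnt_ne_one hs hr.2.1
    unfold cnt
    have h3 : ({r (pt a), r (pt b)} : Finset V) ⊆ Finset.univ.image fun a => r (pt a) := by
      intro x hx
      rw [Finset.mem_insert, Finset.mem_singleton] at hx
      rcases hx with rfl | rfl
      · exact Finset.mem_image_of_mem _ (Finset.mem_univ a)
      · exact Finset.mem_image_of_mem _ (Finset.mem_univ b)
    have h4 := Finset.card_le_card h3
    rw [Finset.card_pair hab] at h4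
    exact h4
  have hle := Nat.le_of_dvd (by norm_num) hdvd
  omega

end config

end Pool.Agent.H25Y

namespace Pool.Agent.H76Y
open Module Matrix Pool.Agent.H53Toric Pool.Agent.H76P
open Pool.Agent.H76T (IsIdeal Fam)
open Pool.Agent.H76Q (IsBlock Comp InP cz ptS dualMap_mul dualMap_zero spl_eq_sum dualMap_inj)

variable {κ : Type*} {K : Type*} [Field K] [CharZero K] [Fintype κ] [DecidableEq κ]
  {L : Submodule K (Module.End K (κ → K))} [IsAlgClosed K] [Nonempty κ]
  {Y : Submodule ℚ (κ → ℚ)} {P : Module.End ℚ Y}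

theorem sum_pt (h : TM L) : ∑ k, pt L k = 0 := by
  ext f
  rw [LinearMap.sum_apply, LinearMap.zero_apply]
  exact Yo_sum h.cmp f.2

/-- Dimension eight: a simple ideal acts on one atom. -/
theorem eight_atomN (h : TM L) (hns : NsL L) {m : ℕ} {I : Fin m → Submodule K (Module.End K (κ → K))}
    (hF : Fam L I) {j : Fin m} {P : Module.End ℚ (Yo L)}
    (hP1 : ∀ f, dq (P f : κ → ℚ) ∈ I j)
    (hP2 : ∀ f : Yo L, dq (f : κ → ℚ) ∈ I j → P f = f) (hPS : Spl (pt L) P.dualMap)
    (h8 : Fintype.card κ = 8)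
    {q : Module.End ℚ (Module.Dual ℚ (Yo L))} (hq : Atom (pt L) q) (hqP : q * P.dualMap = q) :
    q = P.dualMap := by
  by_contra hne
  have hs : Spans (pt L) := pt_spans h.cmp
  have h1 := h.atom_two hF hP1 hP2 hPS hq hqP hne
  -- a second atom
  have hS2 : Spl (pt L) ((1 - q) * P.dualMap) := Spl.mul hs hq.1.compl hPS
  have h0 : (1 - q) * P.dualMap ≠ 0 := by
    intro h0
    apply hne
    rw [sub_mul, one_mul, sub_eq_zero, hqP] at h0
    exact h0.symm
  obtain ⟨q', hq', hq'P⟩ := exists_atom hs hS2 h0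
  have hq'1 : q' * P.dualMap = q' := by
    nth_rw 1 [← hq'P]
    rw [mul_assoc, mul_assoc, hPS.1, hq'P]
  have hq'q : q' * q = 0 := by
    have h2 : q' * (1 - q) = q' := by
      nth_rw 1 [← hq'P]
      have hc : (1 - q) * P.dualMap = P.dualMap * (1 - q) := Spl.comm hs hq.1.compl hPS
      rw [hc, ← mul_assoc, mul_assoc (q' * P.dualMap), hq.1.compl.1, mul_assoc, ← hc, hq'P]
    rw [mul_sub, mul_one, sub_eq_self] at h2
    exact h2
  have hneq : q ≠ q' := by
    rintro rfl
    rw [hq.1.1] at hq'q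
    exact hq.2.1 hq'q
  have hq'ne : q' ≠ P.dualMap := by
    rintro h3
    rw [h3] at hq'q
    have h4 : q = 0 := by rw [← hqP, Spl.comm hs hq.1 hPS, hq'q]
    exact hq.2.1 h4
  have h2 := h.atom_two hF hP1 hP2 hPS hq' hq'1 hq'ne
  have h3 := H25Y.all_two hs h.pt_inj h8 hq hq' hneq h1 h2
  refine h.not_ns (fun k => ?_) hns
  obtain ⟨k', hk'⟩ := H25Y.sym_of_two hs h.pt_inj (sum_pt h) h3 k
  refine ⟨k', fun f hf => ?_⟩
  have := LinearMap.congr_fun hk' ⟨f, hf⟩
  exact this

/-- Each simple ideal acts on one side of a block. -/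
theorem compN (hP : IsBlock P) (h : TM L) (hns : NsL L) (hY : Yo L = Y) : Comp L P := by
  classical
  subst hY
  have hs : Spans (pt L) := pt_spans h.cmp
  intro m I hF j
  obtain ⟨Pj, hP1, hP2, -, hPS⟩ := exists_proj h.cmp hF j
  -- the two possibilities
  have caseA : Pj.dualMap * P.dualMap = Pj.dualMap → InP P (I j) := by
    intro h1 f hf hfj k k' hk
    have h2 : P * Pj = Pj := dualMap_inj (by rw [dualMap_mul]; exact h1)
    have h3 : P ⟨f, hf⟩ = ⟨f, hf⟩ := by
      have h4 := congrArg (fun T : Module.End ℚ (Yo L) => T ⟨f, hf⟩) h2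
      simp only [Module.End.mul_apply] at h4
      rwa [hP2 ⟨f, hf⟩ hfj] at h4
    have h5 := hk ⟨f, hf⟩
    rwa [h3] at h5
  have caseB : Pj.dualMap * P.dualMap = 0 → InP (1 - P) (I j) := by
    intro h1 f hf hfj k k' hk
    have h2 : P * Pj = 0 := dualMap_inj (by rw [dualMap_mul, dualMap_zero]; exact h1)
    have h3 : P ⟨f, hf⟩ = 0 := by
      have h4 := congrArg (fun T : Module.End ℚ (Yo L) => T ⟨f, hf⟩) h2
      simp only [Module.End.mul_apply] at h4
      rwa [hP2 ⟨f, hf⟩ hfj] at h4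
    have h5 := hk ⟨f, hf⟩
    rwa [LinearMap.sub_apply, Module.End.one_apply, h3, sub_zero] at h5
  rcases hP with ⟨h8, hA⟩ | ⟨-, hA, hc⟩ | ⟨-, hS, -, hat⟩
  · rcases hA.le_or hs hPS with h1 | h1
    · left
      have h2 := eight_atomN h hns hF hP1 hP2 hPS h8 hA h1
      refine caseA ?_
      rw [h2]
      exact hPS.1
    · right
      exact caseB (by rw [← Spl.comm hs hA.1 hPS]; exact h1)
  · rcases hA.le_or hs hPS with h1 | h1
    · left
      have h2 : P.dualMap = Pj.dualMap := by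
        by_contra hne
        exact hc (h.atom_two hF hP1 hP2 hPS hA h1 hne)
      refine caseA ?_
      rw [h2]
      exact hPS.1
    · right
      exact caseB (by rw [← Spl.comm hs hA.1 hPS]; exact h1)
  · by_cases hj : Atom (pt L) Pj.dualMap
    · rcases hj.le_or hs hS with h1 | h1
      · exact Or.inl (caseA h1)
      · exact Or.inr (caseB h1)
    · left
      refine caseA ?_
      obtain ⟨s, hsm, hsum⟩ := atoms_sum hs
      have h1 := spl_eq_sum hs hPS s hsm hsum (fun q => q * Pj.dualMap = q) fun q _ => Iff.rfl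
      calc Pj.dualMap * P.dualMap = (∑ q ∈ s.filter (fun q => q * Pj.dualMap = q), q) * P.dualMap := by rw [← h1]
        _ = ∑ q ∈ s.filter (fun q => q * Pj.dualMap = q), q := by
            rw [Finset.sum_mul]
            refine Finset.sum_congr rfl fun q hq => ?_
            rw [Finset.mem_filter, hsm] at hq
            refine (hat q hq.1).2 (h.atom_two hF hP1 hP2 hPS hq.1 hq.2 ?_)
            rintro rfl
            exact hj hq.1
        _ = Pj.dualMap := h1.symm

end Pool.Agent.H76Y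
end

-- from Lib.H25U.BLN
section

/-!
# BLN: blocks and ideals without an invariant form
-/

set_option autoImplicit false
set_option linter.unusedSectionVars false
namespace Pool.Agent.H25U
open Module Matrix Pool.Agent.H53Toric Pool.Agent.H76P
open Pool.Agent.H76T (IsIdeal Fam)
open Pool.Agent.H76Q (IsBlock Comp InP cz ptS dualMap_mul dualMap_zero spl_eq_sum dualMap_inj)
open Pool.Agent.H76Y (NsL)

variable {κ : Type*} {K : Type*} [Field K] [CharZero K] [Fintype κ] [DecidableEq κ]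
  {L : Submodule K (Module.End K (κ → K))} [IsAlgClosed K] [Nonempty κ]
  {Y : Submodule ℚ (κ → ℚ)} {P : Module.End ℚ Y}

theorem sum_pt (h : TM L) : ∑ k, pt L k = 0 := by
  ext f
  rw [LinearMap.sum_apply, LinearMap.zero_apply]
  exact Yo_sum h.cmp f.2

/-- Dimension eight: a simple ideal acts on one atom. -/
theorem eight_atomN (h : TM L) (hns : NsL L) {m : ℕ} {I : Fin m → Submodule K (Module.End K (κ → K))}
    (hF : Fam L I) {j : Fin m} {P : Module.End ℚ (Yo L)}
    (hP1 : ∀ f, dq (P f : κ → ℚ) ∈ I j)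
    (hP2 : ∀ f : Yo L, dq (f : κ → ℚ) ∈ I j → P f = f) (hPS : Spl (pt L) P.dualMap)
    (h8 : Fintype.card κ = 8)
    {q : Module.End ℚ (Module.Dual ℚ (Yo L))} (hq : Atom (pt L) q) (hqP : q * P.dualMap = q) :
    q = P.dualMap := by
  by_contra hne
  have hs : Spans (pt L) := pt_spans h.cmp
  have h1 := h.atom_two hF hP1 hP2 hPS hq hqP hne
  -- a second atom
  have hS2 : Spl (pt L) ((1 - q) * P.dualMap) := Spl.mul hs hq.1.compl hPS
  have h0 : (1 - q) * P.dualMap ≠ 0 := by
    intro h0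
    apply hne
    rw [sub_mul, one_mul, sub_eq_zero, hqP] at h0
    exact h0.symm
  obtain ⟨q', hq', hq'P⟩ := exists_atom hs hS2 h0
  have hq'1 : q' * P.dualMap = q' := by
    nth_rw 1 [← hq'P]
    rw [mul_assoc, mul_assoc, hPS.1, hq'P]
  have hq'q : q' * q = 0 := by
    have h2 : q' * (1 - q) = q' := by
      nth_rw 1 [← hq'P]
      have hc : (1 - q) * P.dualMap = P.dualMap * (1 - q) := Spl.comm hs hq.1.compl hPS
      rw [hc, ← mul_assoc, mul_assoc (q' * P.dualMap), hq.1.compl.1, mul_assoc, ← hc, hq'P]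
    rw [mul_sub, mul_one, sub_eq_self] at h2
    exact h2
  have hneq : q ≠ q' := by
    rintro rfl
    rw [hq.1.1] at hq'q
    exact hq.2.1 hq'q
  have hq'ne : q' ≠ P.dualMap := by
    rintro h3
    rw [h3] at hq'q
    have h4 : q = 0 := by rw [← hqP, Spl.comm hs hq.1 hPS, hq'q]
    exact hq.2.1 h4
  have h2 := h.atom_two hF hP1 hP2 hPS hq' hq'1 hq'ne
  have h3 := H25Y.all_two hs h.pt_inj h8 hq hq' hneq h1 h2
  refine h.not_ns (fun k => ?_) hns
  obtain ⟨k', hk'⟩ := H25Y.sym_of_two hs h.pt_inj (sum_pt h) h3 k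
  refine ⟨k', fun f hf => ?_⟩
  have := LinearMap.congr_fun hk' ⟨f, hf⟩
  exact this

/-- Each simple ideal acts on one side of a block. -/
theorem compN (hP : IsBlock P) (h : TM L) (hns : NsL L) (hY : Yo L = Y) : Comp L P := by
  classical
  subst hY
  have hs : Spans (pt L) := pt_spans h.cmp
  intro m I hF j
  obtain ⟨Pj, hP1, hP2, -, hPS⟩ := exists_proj h.cmp hF j
  -- the two possibilities
  have caseA : Pj.dualMap * P.dualMap = Pj.dualMap → InP P (I j) := by
    intro h1 f hf hfj k k' hk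
    have h2 : P * Pj = Pj := dualMap_inj (by rw [dualMap_mul]; exact h1)
    have h3 : P ⟨f, hf⟩ = ⟨f, hf⟩ := by
      have h4 := congrArg (fun T : Module.End ℚ (Yo L) => T ⟨f, hf⟩) h2
      simp only [Module.End.mul_apply] at h4
      rwa [hP2 ⟨f, hf⟩ hfj] at h4
    have h5 := hk ⟨f, hf⟩
    rwa [h3] at h5
  have caseB : Pj.dualMap * P.dualMap = 0 → InP (1 - P) (I j) := by
    intro h1 f hf hfj k k' hk
    have h2 : P * Pj = 0 := dualMap_inj (by rw [dualMap_mul, dualMap_zero]; exact h1)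
    have h3 : P ⟨f, hf⟩ = 0 := by
      have h4 := congrArg (fun T : Module.End ℚ (Yo L) => T ⟨f, hf⟩) h2
      simp only [Module.End.mul_apply] at h4
      rwa [hP2 ⟨f, hf⟩ hfj] at h4
    have h5 := hk ⟨f, hf⟩
    rwa [LinearMap.sub_apply, Module.End.one_apply, h3, sub_zero] at h5
  rcases hP with ⟨h8, hA⟩ | ⟨-, hA, hc⟩ | ⟨-, hS, -, hat⟩
  · rcases hA.le_or hs hPS with h1 | h1
    · left
      have h2 := eight_atomN h hns hF hP1 hP2 hPS h8 hA h1
      refine caseA ?_
      rw [h2]
      exact hPS.1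
    · right
      exact caseB (by rw [← Spl.comm hs hA.1 hPS]; exact h1)
  · rcases hA.le_or hs hPS with h1 | h1
    · left
      have h2 : P.dualMap = Pj.dualMap := by
        by_contra hne
        exact hc (h.atom_two hF hP1 hP2 hPS hA h1 hne)
      refine caseA ?_
      rw [h2]
      exact hPS.1
    · right
      exact caseB (by rw [← Spl.comm hs hA.1 hPS]; exact h1)
  · by_cases hj : Atom (pt L) Pj.dualMap
    · rcases hj.le_or hs hS with h1 | h1
      · exact Or.inl (caseA h1)
      · exact Or.inr (caseB h1)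
    · left
      refine caseA ?_
      obtain ⟨s, hsm, hsum⟩ := atoms_sum hs
      have h1 := spl_eq_sum hs hPS s hsm hsum (fun q => q * Pj.dualMap = q) fun q _ => Iff.rfl
      calc Pj.dualMap * P.dualMap = (∑ q ∈ s.filter (fun q => q * Pj.dualMap = q), q) * P.dualMap := by rw [← h1]
        _ = ∑ q ∈ s.filter (fun q => q * Pj.dualMap = q), q := by
            rw [Finset.sum_mul]
            refine Finset.sum_congr rfl fun q hq => ?_
            rw [Finset.mem_filter, hsm] at hq
            refine (hat q hq.1).2 (h.atom_two hF hP1 hP2 hPS hq.1 hq.2 ?_)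
            rintro rfl
            exact hj hq.1
        _ = Pj.dualMap := h1.symm

end Pool.Agent.H25U
end

-- from Lib.H25U.BLO
section

/-!
# BLO: blocks and ideals, the number of points is not eight
-/

set_option autoImplicit false
set_option linter.unusedSectionVars false
namespace Pool.Agent.H25U
open Module Matrix Pool.Agent.H53Toric Pool.Agent.H76P
open Pool.Agent.H76T (IsIdeal Fam)
open Pool.Agent.H76Q (IsBlock Comp InP cz ptS dualMap_mul dualMap_zero spl_eq_sum dualMap_inj)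
open Pool.Agent.H76Y (NsL)

variable {κ : Type*} {K : Type*} [Field K] [CharZero K] [Fintype κ] [DecidableEq κ]
  {L : Submodule K (Module.End K (κ → K))} [IsAlgClosed K] [Nonempty κ]
  {Y : Submodule ℚ (κ → ℚ)} {P : Module.End ℚ Y}

/-- Each simple ideal acts on one side of a block, if the number of points is not eight. No form is needed. -/
theorem comp_ne8 (hP : IsBlock P) (h : TM L) (h8 : Fintype.card κ ≠ 8) (hY : Yo L = Y) : Comp L P := by
  classical
  subst hY
  have hs : Spans (pt L) := pt_spans h.cmp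
  intro m I hF j
  obtain ⟨Pj, hP1, hP2, -, hPS⟩ := exists_proj h.cmp hF j
  -- the two possibilities
  have caseA : Pj.dualMap * P.dualMap = Pj.dualMap → InP P (I j) := by
    intro h1 f hf hfj k k' hk
    have h2 : P * Pj = Pj := dualMap_inj (by rw [dualMap_mul]; exact h1)
    have h3 : P ⟨f, hf⟩ = ⟨f, hf⟩ := by
      have h4 := congrArg (fun T : Module.End ℚ (Yo L) => T ⟨f, hf⟩) h2
      simp only [Module.End.mul_apply] at h4
      rwa [hP2 ⟨f, hf⟩ hfj] at h4
    have h5 := hk ⟨f, hf⟩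
    rwa [h3] at h5
  have caseB : Pj.dualMap * P.dualMap = 0 → InP (1 - P) (I j) := by
    intro h1 f hf hfj k k' hk
    have h2 : P * Pj = 0 := dualMap_inj (by rw [dualMap_mul, dualMap_zero]; exact h1)
    have h3 : P ⟨f, hf⟩ = 0 := by
      have h4 := congrArg (fun T : Module.End ℚ (Yo L) => T ⟨f, hf⟩) h2
      simp only [Module.End.mul_apply] at h4
      rwa [hP2 ⟨f, hf⟩ hfj] at h4
    have h5 := hk ⟨f, hf⟩
    rwa [LinearMap.sub_apply, Module.End.one_apply, h3, sub_zero] at h5
  rcases hP with ⟨h8', -⟩ | ⟨-, hA, hc⟩ | ⟨-, hS, -, hat⟩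
  · exact absurd h8' h8
  · rcases hA.le_or hs hPS with h1 | h1
    · left
      have h2 : P.dualMap = Pj.dualMap := by
        by_contra hne
        exact hc (h.atom_two hF hP1 hP2 hPS hA h1 hne)
      refine caseA ?_
      rw [h2]
      exact hPS.1
    · right
      exact caseB (by rw [← Spl.comm hs hA.1 hPS]; exact h1)
  · by_cases hj : Atom (pt L) Pj.dualMap
    · rcases hj.le_or hs hS with h1 | h1
      · exact Or.inl (caseA h1)
      · exact Or.inr (caseB h1)
    · left
      refine caseA ?_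
      obtain ⟨s, hsm, hsum⟩ := atoms_sum hs
      have h1 := spl_eq_sum hs hPS s hsm hsum (fun q => q * Pj.dualMap = q) fun q _ => Iff.rfl
      calc Pj.dualMap * P.dualMap = (∑ q ∈ s.filter (fun q => q * Pj.dualMap = q), q) * P.dualMap := by rw [← h1]
        _ = ∑ q ∈ s.filter (fun q => q * Pj.dualMap = q), q := by
            rw [Finset.sum_mul]
            refine Finset.sum_congr rfl fun q hq => ?_
            rw [Finset.mem_filter, hsm] at hq
            refine (hat q hq.1).2 (h.atom_two hF hP1 hP2 hPS hq.1 hq.2 ?_)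
            rintro rfl
            exact hj hq.1
        _ = Pj.dualMap := h1.symm

end Pool.Agent.H25U
end

-- from Lib.H76Y.BL2
section

/-!
# BL2: blocks are compatible with the simple ideals
-/

set_option autoImplicit false
set_option linter.unusedSectionVars false
namespace Pool.Agent.H76Y
open Pool.Agent.H76P Pool.Agent.H76V Pool.Agent.H76Q
open Module Matrix Pool.Agent.H53Toric
open Pool.Agent.H76T (IsIdeal Fam)

variable {κ : Type*} {K : Type*} [Field K] [CharZero K] [Fintype κ] [DecidableEq κ]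
  {L : Submodule K (Module.End K (κ → K))} [IsAlgClosed K] [Nonempty κ]
  {Y : Submodule ℚ (κ → ℚ)} {P : Module.End ℚ Y}

theorem ts_of_sy (h : TM L) (hs : SyL L) : ∃ J : Matrix κ κ K, TS L J := by
  obtain ⟨J, h1, h2, h3⟩ := hs
  exact ⟨J, ⟨h.cmp.lie, h.cmp.irr, h1, h2, h3, h.cmp.gen⟩, h.diag, h.sep⟩

theorem IsBlock.comp_cls {t : Prop} (hP : IsBlock P) (h : TM L) (ht : Cls t L) (hY : Yo L = Y) :
    Comp L P := by
  by_cases h1 : t
  · obtain ⟨J, hJ⟩ := ts_of_sy h (ht.1 h1)
    exact H76Q.IsBlock.comp hP hJ hY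
  · exact compN hP h (ht.2 h1) hY

theorem IsBlock.good {n : ℕ} (hn : 0 < n) {Y : Submodule ℚ (Fin n → ℚ)} {P : Module.End ℚ Y} (t : Prop)
    (hP : IsBlock P) : GoodN t P := by
  intro K _ _ _ L h ht hY
  have : Nonempty (Fin n) := ⟨⟨0, hn⟩⟩
  exact IsBlock.comp_cls hP h ht hY

end Pool.Agent.H76Y
end

-- from Lib.H76Y.G10
section

/-!
# the blocks of a configuration
-/

set_option autoImplicit false
set_option linter.unusedSectionVars false
namespace Pool.Agent.H76Y
open Pool.Agent.H76P Pool.Agent.H76V Pool.Agent.H76Q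
open Module Matrix Pool.Agent.H53Toric
open Pool.Agent.H76T (IsIdeal Fam)

/-- The blocks of a configuration are good for both classes. -/
theorem exists_blocksN {n : ℕ} (hn : 0 < n) {Y : Submodule ℚ (Fin n → ℚ)}
    (hs : ∀ g ∈ Y, ∑ k, g k = 0) (t : Prop) :
    ∃ FF : Finset (Module.End ℚ Y), (∀ P ∈ FF, Sp P ∧ P ≠ 0 ∧ GoodN t P) ∧
      (∀ P ∈ FF, ∀ P' ∈ FF, P ≠ P' → P * P' = 0) ∧ ∑ P ∈ FF, P = 1 ∧
      (∀ π : Equiv.Perm (Fin n), (∀ g ∈ Y, g ∘ π ∈ Y) → ∀ P ∈ FF, ∃ P' ∈ FF, MvP π P P') ∧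
      (FF.card = 1 → IsBlock (1 : Module.End ℚ Y)) := by
  classical
  have : Nonempty (Fin n) := ⟨⟨0, hn⟩⟩
  obtain ⟨B, hB, hsum, horth, hsp⟩ := exists_isBlock (Y := Y) hs
  refine ⟨B, fun P hP => ⟨(hsp P hP).1, (hsp P hP).2, ?_⟩, horth, hsum, fun π hπ P hP => ?_,
    fun h1 => isBlock_one hs hB h1⟩
  · exact IsBlock.good hn t ((hB P).1 hP)
  · obtain ⟨P', -, hP', -, -, h1, h2⟩ := ((hB P).1 hP).perm hπ
    exact ⟨P', (hB P').2 hP', h1, h2⟩

variable {κ : Type*} {K : Type*} [Field K] [CharZero K] [Fintype κ] [DecidableEq κ]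
  {L : Submodule K (Module.End K (κ → K))} [IsAlgClosed K] [Nonempty κ]
  {Y : Submodule ℚ (κ → ℚ)} {P : Module.End ℚ Y}

/-- A Lie algebra without a form whose configuration is one block is simple and contains an operator of
rank one, unless the dimension is a power of `4`. -/
theorem one_ns' (h : TM L) (hns : NsL L) (hY : Yo L = Y) (h1 : IsBlock (1 : Module.End ℚ Y))
    (two : ∀ k : ℕ, 4 ≤ k → Even k → Fintype.card κ ≠ 2 ^ k) :
    (∃ N ∈ L, N * N = 0 ∧ finrank K (LinearMap.range N) = 1) ∧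
      ∀ X : Module.End K (κ → K), LinearMap.trace K (κ → K) X = 0 → X ∈ L := by
  classical
  subst hY
  obtain ⟨m, I, hF⟩ := Pool.Agent.H76T.exists_fam h.cmp.lie h.cmp.irr h.cmp.tr
  rcases Nat.lt_or_ge m 2 with hm | hm
  · interval_cases m
    · exfalso
      have hL : L = ⊥ := by
        rw [← hF.sup]
        exact iSup_of_empty _
      obtain ⟨a⟩ := ‹Nonempty κ›
      let b : (κ → K) →ₗ[K] (κ → K) →ₗ[K] K := LinearMap.mk₂ K (fun v w => v a * w a)
        (fun v v' w => by simp only [Pi.add_apply]; ring)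
        (fun c v w => by simp only [Pi.smul_apply, smul_eq_mul]; ring)
        (fun v w w' => by simp only [Pi.add_apply]; ring)
        (fun c v w => by simp only [Pi.smul_apply, smul_eq_mul]; ring)
      have hb : b = 0 := hns b fun X hX v w => by
        rw [hL, Submodule.mem_bot] at hX
        rw [hX]
        simp
      have h2 := congrArg (fun b : (κ → K) →ₗ[K] (κ → K) →ₗ[K] K => b (fun _ => 1) (fun _ => 1)) hb
      have h3 : b (fun _ => 1) (fun _ => 1) = 1 * 1 := rfl
      simp only [h3, LinearMap.zero_apply, mul_one] at h2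
      exact one_ne_zero h2
    · rcases CmpN.simple h.cmp hF hns with h2 | ⟨k, hk, hk2, hk3, -⟩
      · exact h2
      · exact absurd hk3 (two k hk hk2)
  · exfalso
    have hs : Spans (pt L) := pt_spans h.cmp
    have hij : (⟨0, by omega⟩ : Fin m) ≠ ⟨1, by omega⟩ := by
      intro e
      exact absurd (congrArg Fin.val e) (by norm_num)
    set i : Fin m := ⟨0, by omega⟩ with hi
    set j : Fin m := ⟨1, by omega⟩ with hj
    -- an atom equal to one is impossible
    have caseA : Atom (pt L) (1 : Module.End ℚ (Module.Dual ℚ (Yo L))) → False := by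
      intro hA
      obtain ⟨P, hP1, hP2, hP3, hPS⟩ := exists_proj h.cmp hF i
      have g1 : P.dualMap = 1 := by
        rcases hA.2.2 P.dualMap hPS (mul_one _) with h2 | h2
        · exfalso
          obtain ⟨f, hf, hf0, hfi⟩ := h.exists_diag hF i
          have h3 : P = 0 := dualMap_inj (by rw [h2, dualMap_zero])
          have h4 := hP2 ⟨f, hf⟩ hfi
          rw [h3, LinearMap.zero_apply] at h4
          exact hf0 (congrArg Subtype.val h4).symm
        · exact h2
      have g2 : P = 1 := dualMap_inj (by rw [g1, dualMap_one])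
      obtain ⟨f, hf, hf0, hfi⟩ := h.exists_diag hF j
      have h3 := hP3 j (Ne.symm hij) ⟨f, hf⟩ hfi
      rw [g2, Module.End.one_apply] at h3
      exact hf0 (congrArg Subtype.val h3)
    rcases h1 with ⟨h8, hA⟩ | ⟨-, hA, hc⟩ | ⟨h8, hS, -, hat⟩
    · rw [dualMap_one] at hA
      exact caseA hA
    · rw [dualMap_one] at hA
      exact caseA hA
    · refine h.not_ns (fun k => ?_) hns
      obtain ⟨k', hk'⟩ := H25Y.sym_of_two hs h.pt_inj (sum_pt h) (fun q hq => (hat q hq).1 (by
        rw [dualMap_one, mul_one])) k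
      refine ⟨k', fun f hf => ?_⟩
      have h2 := congrArg (fun φ : Module.Dual ℚ (Yo L) => φ ⟨f, hf⟩) hk'
      exact h2

theorem one_ns (h : TM L) (hns : NsL L) (hY : Yo L = Y) (h1 : IsBlock (1 : Module.End ℚ Y))
    (two : ∀ k : ℕ, 4 ≤ k → Even k → Fintype.card κ ≠ 2 ^ k) :
    ∃ N ∈ L, N * N = 0 ∧ finrank K (LinearMap.range N) = 1 :=
  (one_ns' h hns hY h1 two).1

theorem one_nsX (h : TM L) (hns : NsL L) (hY : Yo L = Y) (h1 : IsBlock (1 : Module.End ℚ Y))
    (two : ∀ k : ℕ, 4 ≤ k → Even k → Fintype.card κ ≠ 2 ^ k) :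
    ∀ X : Module.End K (κ → K), LinearMap.trace K (κ → K) X = 0 → X ∈ L :=
  (one_ns' h hns hY h1 two).2

end Pool.Agent.H76Y
end

-- from Lib.H25U.Bridge
section

/-!
# Bridge: with an invariant form the new notions are the old ones
-/

set_option autoImplicit false
set_option linter.unusedSectionVars false
namespace Pool.Agent.H25U
open Module Matrix Pool.Agent.H53Toric Pool.Agent.H49M
open Pool.Agent.H76P (dg dq dg_apply)

section gen
variable {K : Type*} [Field K] {V : Type*} [AddCommGroup V] [Module K V]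

/-- An invariant form forces the scalar to be zero. -/
theorem form_shift [CharZero K] {L : Submodule K (Module.End K V)} (hirr : Irr L) {s : Module.End K V}
    {c : K} (hc : s + c • 1 ∈ L) (hs2 : s * s = 1) (h1 : s ≠ 1) (h2 : s ≠ -1) {B : V →ₗ[K] V →ₗ[K] K}
    (hB : B ≠ 0) (hinv : ∀ X ∈ L, ∀ v w, B (X v) w + B v (X w) = 0) : c = 0 := by
  by_contra hc0
  have hker : ∀ v, B v = 0 → v = 0 := by
    intro v hv
    rcases hirr (LinearMap.ker B) (by
      intro X hX v hv
      rw [LinearMap.mem_ker] at hv ⊢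
      ext w
      have h1 := hinv X hX v w
      rw [hv, LinearMap.zero_apply, add_zero] at h1
      exact h1) with h1 | h1
    · have h2 : v ∈ LinearMap.ker B := hv
      rw [h1, Submodule.mem_bot] at h2
      exact h2
    · exact absurd (LinearMap.ker_eq_top.1 h1) hB
  have key : ∀ (a b : K) (v w : V), s v = a • v → s w = b • w → (a + b + 2 * c) * B v w = 0 := by
    intro a b v w hv hw
    have h1 := hinv _ hc v w
    rw [LinearMap.add_apply, LinearMap.add_apply, hv, hw, LinearMap.smul_apply, LinearMap.smul_apply,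
      Module.End.one_apply, Module.End.one_apply, ← add_smul, ← add_smul, map_smul, map_smul,
      LinearMap.smul_apply, smul_eq_mul, smul_eq_mul] at h1
    linear_combination h1
  have hdec : ∀ v : V, ∃ a b : V, s a = (1 : K) • a ∧ s b = (-1 : K) • b ∧ v = a + b := by
    intro v
    have hss : s (s v) = v := LinearMap.congr_fun hs2 v
    refine ⟨(1 / 2 : K) • (v + s v), (1 / 2 : K) • (v - s v), ?_, ?_, ?_⟩
    · rw [map_smul, map_add, hss, one_smul, add_comm]
    · rw [map_smul, map_sub, hss, smul_comm, neg_one_smul, neg_sub]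
    · rw [← smul_add]
      have : v + s v + (v - s v) = (2 : K) • v := by rw [two_smul]; abel
      rw [this, smul_smul]
      norm_num
  have hmix : ∀ v w : V, s v = (1 : K) • v → s w = (-1 : K) • w → B v w = 0 ∧ B w v = 0 := by
    intro v w hv hw
    constructor
    · have h1 := key 1 (-1) v w hv hw
      have h2 : (2 * c) * B v w = 0 := by linear_combination h1
      exact (mul_eq_zero.1 h2).resolve_left (mul_ne_zero two_ne_zero hc0)
    · have h1 := key (-1) 1 w v hw hv
      have h2 : (2 * c) * B w v = 0 := by linear_combination h1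
      exact (mul_eq_zero.1 h2).resolve_left (mul_ne_zero two_ne_zero hc0)
  by_cases hc1 : c = -1
  · apply h1
    ext v
    obtain ⟨a, b, ha, hb, rfl⟩ := hdec v
    have hb0 : b = 0 := by
      apply hker
      ext w
      obtain ⟨a', b', ha', hb', rfl⟩ := hdec w
      rw [map_add, (hmix a' b ha' hb).2, zero_add, LinearMap.zero_apply]
      have h1 := key (-1) (-1) b b' hb hb'
      have h2 : (-4 : K) * B b b' = 0 := by rw [hc1] at h1; linear_combination h1
      exact (mul_eq_zero.1 h2).resolve_left (by norm_num)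
    rw [hb0, add_zero, ha, one_smul, Module.End.one_apply]
  · apply h2
    ext v
    obtain ⟨a, b, ha, hb, rfl⟩ := hdec v
    have ha0 : a = 0 := by
      apply hker
      ext w
      obtain ⟨a', b', ha', hb', rfl⟩ := hdec w
      rw [map_add, (hmix a b' ha hb').1, add_zero, LinearMap.zero_apply]
      have h1 := key 1 1 a a' ha ha'
      have h2 : (1 + c) * B a a' = 0 := by linear_combination (1 / 2 : K) * h1
      refine (mul_eq_zero.1 h2).resolve_left fun h3 => hc1 ?_
      exact (neg_eq_of_add_eq_zero_right h3).symm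
    rw [ha0, zero_add, hb, neg_one_smul, LinearMap.neg_apply, Module.End.one_apply]

end gen

variable {κ : Type*} [Fintype κ] [DecidableEq κ] {K : Type*} [Field K] [CharZero K] [Nonempty κ]
  {L : Submodule K (Module.End K (κ → K))}

/-- The shift of an element of degree two, different from zero, is zero. -/
theorem CmpN.shift_zero (h : CmpN L) {B : (κ → K) →ₗ[K] (κ → K) →ₗ[K] K}
    (hB : B ≠ 0) (hinv : ∀ X ∈ L, ∀ v w, B (X v) w + B v (X w) = 0) {y : Module.End K (κ → K)}
    (hy : y ∈ L) (hy0 : y ≠ 0) {c : K} (hc : (y + c • 1) * (y + c • 1) = 1) : c = 0 := by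
  obtain ⟨h1, h2⟩ := shift_ne (c := c) (h.tr y hy) hy0
  have e : y + c • (1 : Module.End K (κ → K)) + (-c) • (1 : Module.End K (κ → K)) = y := by module
  have h3 := form_shift (c := -c) h.irr (s := y + c • 1) (by rw [e]; exact hy) hc h1 h2 hB hinv
  exact neg_eq_zero.1 h3

/-- If no element of degree two is shifted, the new `CmpN` is the old one. -/
theorem CmpN.old_of (h : CmpN L)
    (h0 : ∀ y ∈ L, y ≠ 0 → ∀ c : K, (y + c • 1) * (y + c • 1) = 1 → c = 0) : H76Y.CmpN L where
  lie := h.lie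
  irr := h.irr
  tr := h.tr
  gen := fun T hT => h.gen T fun y hy hy2 => by
    obtain ⟨c, hc⟩ := hy2
    by_cases hy0 : y = 0
    · rw [hy0, mul_zero, zero_mul]
    have h1 := h0 y hy hy0 c hc
    rw [h1, zero_smul, add_zero] at hc
    exact hT y hy hc

theorem yo_old_of (h0 : ∀ y ∈ L, y ≠ 0 → ∀ c : K, (y + c • 1) * (y + c • 1) = 1 → c = 0) :
    Yo L = H76P.Yo L := by
  apply le_antisymm
  · unfold Yo
    rw [Submodule.span_le]
    rintro ε ⟨⟨c, hc⟩, hε⟩
    by_cases h00 : ε = 0
    · rw [h00]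
      exact Submodule.zero_mem _
    refine Submodule.subset_span ⟨?_, hε⟩
    have hd0 : (dq ε : Module.End K (κ → K)) ≠ 0 := by
      intro h1
      apply h00
      apply dq_inj (K := K)
      rw [h1]
      refine LinearMap.ext fun v => funext fun a => ?_
      simp [dq, dg_apply]
    have h1 := h0 _ hε hd0 _ (dq_sqU hc)
    have h2 : c = 0 := by
      have h3 : -c = 0 := by exact_mod_cast h1
      exact neg_eq_zero.1 h3
    intro a
    rcases hc a with h3 | h3
    · left
      rw [h3, h2, zero_add]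
    · right
      rw [h3, h2, zero_sub]
  · unfold H76P.Yo
    rw [Submodule.span_le]
    rintro ε ⟨hc, hε⟩
    refine Submodule.subset_span ⟨⟨0, fun a => ?_⟩, hε⟩
    rcases hc a with h3 | h3
    · left
      rw [h3, zero_add]
    · right
      rw [h3, zero_sub]

/-- If no element of degree two is shifted, the new `TM` is the old one. -/
theorem TM.old_of (h : TM L)
    (h0 : ∀ y ∈ L, y ≠ 0 → ∀ c : K, (y + c • 1) * (y + c • 1) = 1 → c = 0) : H76Y.TM L where
  cmp := h.cmp.old_of h0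
  diag := fun f hf => by
    rw [← yo_old_of h0]
    exact h.diag f hf
  sep := fun a b hab => by
    rw [← yo_old_of h0]
    exact h.sep a b hab

/-- With an invariant form the new `CmpN` is the old one. -/
theorem CmpN.old (h : CmpN L) {B : (κ → K) →ₗ[K] (κ → K) →ₗ[K] K}
    (hB : B ≠ 0) (hinv : ∀ X ∈ L, ∀ v w, B (X v) w + B v (X w) = 0) : H76Y.CmpN L :=
  h.old_of fun _ hy hy0 _ hc => h.shift_zero hB hinv hy hy0 hc


/-- With an invariant form the new `TM` is the old one. -/
theorem TM.old (h : TM L) {B : (κ → K) →ₗ[K] (κ → K) →ₗ[K] K}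
    (hB : B ≠ 0) (hinv : ∀ X ∈ L, ∀ v w, B (X v) w + B v (X w) = 0) : H76Y.TM L :=
  h.old_of fun _ hy hy0 _ hc => h.cmp.shift_zero hB hinv hy hy0 hc


end Pool.Agent.H25U
end

-- from Lib.H25U.FullN
section

/-!
# FullN: one block, no form: the component is full
-/

set_option autoImplicit false
set_option linter.unusedSectionVars false
namespace Pool.Agent.H25U
open Pool.Agent.H76P Pool.Agent.H76V Pool.Agent.H76Q
open Module Matrix Pool.Agent.H53Toric
open Pool.Agent.H76T (IsIdeal Fam)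
open Pool.Agent.H76Y (NsL)

variable {κ : Type*} {K : Type*} [Field K] [CharZero K] [Fintype κ] [DecidableEq κ]
  {L : Submodule K (Module.End K (κ → K))} [IsAlgClosed K] [Nonempty κ]
  {Y : Submodule ℚ (κ → ℚ)} {P : Module.End ℚ Y}

theorem CmpN.coreN (h : CmpN L) {I : Fin 1 → Submodule K (Module.End K (κ → K))} (hF : Fam L I) :
    H86N.CoreN L := by
  have hL : I 0 = L := by
    rw [← hF.sup]
    apply le_antisymm
    · exact le_iSup I 0
    · apply iSup_le
      intro j
      rw [Subsingleton.elim j 0]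
  exact { lie := h.lie
          irr := h.irr
          tr := h.tr
          simple := fun M hM hM' => by
            have h1 := hF.min 0 M ⟨hM, hM'⟩ (by rw [hL]; exact hM)
            rwa [hL] at h1 }

/-- A Lie algebra without a form whose configuration is one block has one minimal ideal. -/
theorem one_fam (h : TM L) (hns : NsL L) (hY : Yo L = Y) (h1 : IsBlock (1 : Module.End ℚ Y)) :
    ∃ I : Fin 1 → Submodule K (Module.End K (κ → K)), Fam L I := by
  classical
  subst hY
  obtain ⟨m, I, hF⟩ := Pool.Agent.H76T.exists_fam h.cmp.lie h.cmp.irr h.cmp.tr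
  rcases Nat.lt_or_ge m 2 with hm | hm
  · interval_cases m
    · exfalso
      have hL : L = ⊥ := by
        rw [← hF.sup]
        exact iSup_of_empty _
      obtain ⟨a⟩ := ‹Nonempty κ›
      let b : (κ → K) →ₗ[K] (κ → K) →ₗ[K] K := LinearMap.mk₂ K (fun v w => v a * w a)
        (fun v v' w => by simp only [Pi.add_apply]; ring)
        (fun c v w => by simp only [Pi.smul_apply, smul_eq_mul]; ring)
        (fun v w w' => by simp only [Pi.add_apply]; ring)
        (fun c v w => by simp only [Pi.smul_apply, smul_eq_mul]; ring)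
      have hb : b = 0 := hns b fun X hX v w => by
        rw [hL, Submodule.mem_bot] at hX
        rw [hX]
        simp
      have h2 := congrArg (fun b : (κ → K) →ₗ[K] (κ → K) →ₗ[K] K => b (fun _ => 1) (fun _ => 1)) hb
      have h3 : b (fun _ => 1) (fun _ => 1) = 1 * 1 := rfl
      simp only [h3, LinearMap.zero_apply, mul_one] at h2
      exact one_ne_zero h2
    · exact ⟨I, hF⟩
  · exfalso
    have hs : Spans (pt L) := pt_spans h.cmp
    have hij : (⟨0, by omega⟩ : Fin m) ≠ ⟨1, by omega⟩ := by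
      intro e
      exact absurd (congrArg Fin.val e) (by norm_num)
    obtain ⟨i, hi⟩ : ∃ i : Fin m, i = ⟨0, by omega⟩ := ⟨_, rfl⟩
    obtain ⟨j, hj⟩ : ∃ j : Fin m, j = ⟨1, by omega⟩ := ⟨_, rfl⟩
    rw [← hi, ← hj] at hij
    -- an atom equal to one is impossible
    have caseA : Atom (pt L) (1 : Module.End ℚ (Module.Dual ℚ (Yo L))) → False := by
      intro hA
      obtain ⟨P, hP1, hP2, hP3, hPS⟩ := exists_proj h.cmp hF i
      have g1 : P.dualMap = 1 := by
        rcases hA.2.2 P.dualMap hPS (mul_one _) with h2 | h2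
        · exfalso
          obtain ⟨f, hf, hf0, hfi⟩ := h.exists_diag hF i
          have h3 : P = 0 := dualMap_inj (by rw [h2, dualMap_zero])
          have h4 := hP2 ⟨f, hf⟩ hfi
          rw [h3, LinearMap.zero_apply] at h4
          exact hf0 (congrArg Subtype.val h4).symm
        · exact h2
      have g2 : P = 1 := dualMap_inj (by rw [g1, dualMap_one])
      obtain ⟨f, hf, hf0, hfi⟩ := h.exists_diag hF j
      have h3 := hP3 j (Ne.symm hij) ⟨f, hf⟩ hfi
      rw [g2, Module.End.one_apply] at h3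
      exact hf0 (congrArg Subtype.val h3)
    rcases h1 with ⟨h8, hA⟩ | ⟨-, hA, hc⟩ | ⟨h8, hS, -, hat⟩
    · rw [dualMap_one] at hA
      exact caseA hA
    · rw [dualMap_one] at hA
      exact caseA hA
    · refine h.not_ns (fun k => ?_) hns
      obtain ⟨k', hk'⟩ := H25Y.sym_of_two hs h.pt_inj (sum_pt h) (fun q hq => (hat q hq).1 (by
        rw [dualMap_one, mul_one])) k
      refine ⟨k', fun f hf => ?_⟩
      have h2 := congrArg (fun φ : Module.Dual ℚ (Yo L) => φ ⟨f, hf⟩) hk'
      exact h2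

/-- The rank of the idempotent is the dimension of the eigenspace. -/
theorem rank_eig {y : Module.End K (κ → K)} {c : K} (hc : (y + c • 1) * (y + c • 1) = 1) :
    finrank K (LinearMap.range ((1 / 2 : K) • (1 + (y + c • 1)))) = finrank K (H49M.eig (y + c • 1) 1) := by
  have h1 := K5_range (K := K) hc (one_mul (1 : K))
  rw [one_smul] at h1
  rw [h1]

/-- One ideal and a shifted element of degree two: the component is full, or an exterior power. -/
theorem full_unb (h : CmpN L) {I : Fin 1 → Submodule K (Module.End K (κ → K))} (hF : Fam L I)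
    {y : Module.End K (κ → K)} (hy : y ∈ L) (hy0 : y ≠ 0) {c : K} (hc0 : c ≠ 0)
    (hc : (y + c • 1) * (y + c • 1) = 1)
    (bin : ∀ N k : ℕ, 2 ≤ k → k + 2 ≤ N → Fintype.card κ = N.choose k →
      finrank K (LinearMap.range ((1 / 2 : K) • (1 + (y + c • 1)))) ≠ (N - 1).choose k) :
    ∀ X : Module.End K (κ → K), LinearMap.trace K (κ → K) X = 0 → X ∈ L := by
  have hcore := h.coreN hF
  obtain ⟨n1, n2⟩ := shift_ne (c := c) (h.tr y hy) hy0
  have hs : InL L (y + c • 1) := ⟨⟨-c, by
    have e : y + c • (1 : Module.End K (κ → K)) + (-c) • (1 : Module.End K (κ → K)) = y := by module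
    rw [e]
    exact hy⟩, n1, n2⟩
  have hne : finrank K (H49M.eig (y + c • 1) 1) ≠ finrank K (H49M.eig (y + c • 1) (-1)) := by
    intro h0
    have h1 := eig_diff (K := K) hc
    rw [h0, sub_self, map_add, h.tr y hy, zero_add, map_smul, LinearMap.trace_one, smul_eq_mul] at h1
    rcases mul_eq_zero.1 h1.symm with h2 | h2
    · exact hc0 h2
    · exact absurd h2 (by exact_mod_cast (finrank_pos (R := K) (M := κ → K)).ne')
  rcases coreU hcore hs hc hne with h1 | ⟨n, k, hk2, hkn, h1, -, h3⟩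
  · exact h1
  · exfalso
    rw [Module.finrank_fintype_fun_eq_card] at h3
    refine bin (n + 2) k hk2 (by omega) h3 ?_
    rw [rank_eig hc, h1]
    rfl

/-- **One block, no form, a shifted element of degree two.** -/
theorem one_nsY (h : TM L) (hns : NsL L) (hY : Yo L = Y) (h1 : IsBlock (1 : Module.End ℚ Y))
    {y : Module.End K (κ → K)} (hy : y ∈ L) (hy0 : y ≠ 0) {c : K} (hc0 : c ≠ 0)
    (hc : (y + c • 1) * (y + c • 1) = 1)
    (bin : ∀ N k : ℕ, 2 ≤ k → k + 2 ≤ N → Fintype.card κ = N.choose k →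
      finrank K (LinearMap.range ((1 / 2 : K) • (1 + (y + c • 1)))) ≠ (N - 1).choose k) :
    ∀ X : Module.End K (κ → K), LinearMap.trace K (κ → K) X = 0 → X ∈ L := by
  obtain ⟨I, hF⟩ := one_fam h hns hY h1
  exact full_unb h.cmp hF hy hy0 hc0 hc bin


end Pool.Agent.H25U
end

-- from Lib.H25U.FullD
section

/-!
# FullD: a component which contains all diagonal operators of trace zero is full
-/

set_option autoImplicit false
set_option linter.unusedSectionVars false
namespace Pool.Agent.H25U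
open Pool.Agent.H76P Pool.Agent.H76V Pool.Agent.H76Q
open Module Matrix Pool.Agent.H53Toric
open Pool.Agent.H76T (IsIdeal Fam)
open Pool.Agent.H76Y (NsL)

variable {κ : Type*} {K : Type*} [Field K] [CharZero K] [Fintype κ] [DecidableEq κ]
  {L : Submodule K (Module.End K (κ → K))}

/-- The matrix unit. -/
noncomputable def mu (a b : κ) : Module.End K (κ → K) := Matrix.toLin' (Matrix.single a b (1 : K))

theorem mu_mat (a b : κ) : LinearMap.toMatrix' (mu a b : Module.End K (κ → K)) = Matrix.single a b 1 := by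
  rw [mu, LinearMap.toMatrix'_toLin']

theorem mu_mul (a b c : κ) : (mu a b : Module.End K (κ → K)) * mu b c = mu a c := by
  rw [mu, mu, mu]
  show Matrix.toLin' _ ∘ₗ Matrix.toLin' _ = _
  rw [← Matrix.toLin'_mul, Matrix.single_mul_single_same, mul_one]

theorem mu_mul_ne (a : κ) {b b' : κ} (c : κ) (h : b ≠ b') : (mu a b : Module.End K (κ → K)) * mu b' c = 0 := by
  rw [mu, mu]
  show Matrix.toLin' _ ∘ₗ Matrix.toLin' _ = _
  rw [← Matrix.toLin'_mul, Matrix.single_mul_single_of_ne _ _ _ _ h, map_zero]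

theorem mu_apply (a b : κ) (v : κ → K) : mu a b v = Pi.single a (v b) := by
  ext c
  rw [mu, Matrix.toLin'_apply, Matrix.single_mulVec, one_mul]
  simp [Function.update_apply, Pi.single_apply]

/-- All diagonal operators of trace zero: the component is full. -/
theorem full_of_Yo (h : TM L) (hYo : ∀ f : κ → ℚ, ∑ k, f k = 0 → f ∈ Yo L) :
    ∀ X : Module.End K (κ → K), LinearMap.trace K (κ → K) X = 0 → X ∈ L := by
  classical
  have hLid : IsIdeal L L := ⟨le_rfl, fun X hX Y hY => h.cmp.lie X hX Y hY⟩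
  -- differences
  have hd : ∀ a b : κ, (fun k => (if k = a then (1 : ℚ) else 0) - (if k = b then 1 else 0)) ∈ Yo L := by
    intro a b
    apply hYo
    rw [Finset.sum_sub_distrib, Finset.sum_ite_eq' Finset.univ a, Finset.sum_ite_eq' Finset.univ b,
      if_pos (Finset.mem_univ _), if_pos (Finset.mem_univ _), sub_self]
  -- the weights of the matrix units are different
  have hdiff : ∀ a b c d : κ, a ≠ b → pt L c - pt L d = pt L a - pt L b → c = a ∧ d = b := by
    intro a b c d hab hcd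
    have key : ∀ x y : κ, ((if c = x then (1 : ℚ) else 0) - (if c = y then 1 else 0)) -
        ((if d = x then (1 : ℚ) else 0) - (if d = y then 1 else 0)) =
        ((if a = x then (1 : ℚ) else 0) - (if a = y then 1 else 0)) -
        ((if b = x then (1 : ℚ) else 0) - (if b = y then 1 else 0)) := by
      intro x y
      have h1 := LinearMap.congr_fun hcd ⟨_, hd x y⟩
      rw [LinearMap.sub_apply, LinearMap.sub_apply, pt_apply, pt_apply, pt_apply, pt_apply] at h1
      exact h1
    have h1 := key a b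
    rw [if_pos rfl, if_neg hab, if_neg (Ne.symm hab), if_pos rfl] at h1
    by_cases hca : c = a
    · refine ⟨hca, ?_⟩
      by_contra hdb
      rw [if_pos hca, if_neg hdb, hca, if_neg hab] at h1
      by_cases hda : d = a
      · rw [if_pos hda] at h1
        norm_num at h1
      · rw [if_neg hda] at h1
        norm_num at h1
    · exfalso
      rw [if_neg hca] at h1
      by_cases hdb : d = b
      · rw [if_pos hdb, hdb, if_neg (Ne.symm hab)] at h1
        by_cases hcb : c = b
        · rw [if_pos hcb] at h1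
          norm_num at h1
        · rw [if_neg hcb] at h1
          norm_num at h1
      · rw [if_neg hdb] at h1
        by_cases hcb : c = b
        · rw [if_pos hcb] at h1
          by_cases hda : d = a
          · rw [if_pos hda] at h1
            norm_num at h1
          · rw [if_neg hda] at h1
            norm_num at h1
        · rw [if_neg hcb] at h1
          by_cases hda : d = a
          · rw [if_pos hda] at h1
            norm_num at h1
          · rw [if_neg hda] at h1
            norm_num at h1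
  -- the entries of elements of L
  have hent : ∀ X ∈ L, ∀ a b, a ≠ b → LinearMap.toMatrix' X a b ≠ 0 → (mu a b : Module.End K (κ → K)) ∈ L := by
    intro X hX a b hab hne
    have h1 : wc L (pt L a - pt L b) X ∈ L := wc_mem hLid hX _
    have h2 : wc L (pt L a - pt L b) X = LinearMap.toMatrix' X a b • mu a b := by
      refine t5_ext fun c d => ?_
      rw [t5_wc, map_smul, mu_mat, Matrix.smul_apply, smul_eq_mul]
      by_cases hcd : pt L c - pt L d = pt L a - pt L b
      · obtain ⟨rfl, rfl⟩ := hdiff a b c d hab hcd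
        rw [if_pos rfl, Matrix.single_apply_same, mul_one]
      · rw [if_neg hcd, Matrix.single_apply_of_ne, mul_zero]
        rintro ⟨rfl, rfl⟩
        exact hcd rfl
    rw [h2] at h1
    have h3 := L.smul_mem (LinearMap.toMatrix' X a b)⁻¹ h1
    rwa [smul_smul, inv_mul_cancel₀ hne, one_smul] at h3
  -- all matrix units
  have hall : ∀ a b : κ, a ≠ b → (mu a b : Module.End K (κ → K)) ∈ L := by
    intro a b hab
    have hst := h.cmp.irr (Submodule.span K {v | ∃ c, (c = b ∨ (mu c b : Module.End K (κ → K)) ∈ L) ∧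
      v = Pi.single c (1 : K)}) (by
      intro X hX w hw
      induction hw using Submodule.span_induction with
      | mem v hv =>
        obtain ⟨c, hc, rfl⟩ := hv
        have e : X (Pi.single c (1 : K)) = ∑ d, LinearMap.toMatrix' X d c • (Pi.single d (1 : K) : κ → K) := by
          ext d
          rw [Finset.sum_apply, ← LinearMap.toMatrix'_apply]
          simp [Pi.single_apply]
        rw [e]
        refine Submodule.sum_mem _ fun d _ => ?_
        by_cases h0 : LinearMap.toMatrix' X d c = 0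
        · rw [h0, zero_smul]
          exact Submodule.zero_mem _
        refine Submodule.smul_mem _ _ (Submodule.subset_span ⟨d, ?_, rfl⟩)
        by_cases hdb : d = b
        · exact Or.inl hdb
        right
        rcases hc with rfl | hc
        · exact hent X hX _ _ hdb h0
        · by_cases hdc : d = c
          · rw [hdc]
            exact hc
          have h1 := hent X hX d c hdc h0
          have h2 := h.cmp.lie _ h1 _ hc
          rw [mu_mul, mu_mul_ne _ _ (Ne.symm hdb), sub_zero] at h2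
          exact h2
      | zero => rw [map_zero]; exact Submodule.zero_mem _
      | add u v _ _ hu hv => rw [map_add]; exact Submodule.add_mem _ hu hv
      | smul t v _ hv => rw [map_smul]; exact Submodule.smul_mem _ _ hv)
    rcases hst with h1 | h1
    · exfalso
      have h2 : (Pi.single b (1 : K) : κ → K) ∈ Submodule.span K {v | ∃ c, (c = b ∨
          (mu c b : Module.End K (κ → K)) ∈ L) ∧ v = Pi.single c (1 : K)} :=
        Submodule.subset_span ⟨b, Or.inl rfl, rfl⟩
      rw [h1, Submodule.mem_bot] at h2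
      have h3 := congrFun h2 b
      rw [Pi.single_eq_same, Pi.zero_apply] at h3
      exact one_ne_zero h3
    · by_contra hcon
      have h2 : Submodule.span K {v | ∃ c, (c = b ∨
          (mu c b : Module.End K (κ → K)) ∈ L) ∧ v = Pi.single c (1 : K)} ≤
          LinearMap.ker (LinearMap.proj (R := K) (φ := fun _ : κ => K) a) := by
        rw [Submodule.span_le]
        rintro v ⟨c, hc, rfl⟩
        show (Pi.single c (1 : K) : κ → K) a = 0
        refine Pi.single_eq_of_ne ?_ _
        rintro rfl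
        rcases hc with hc | hc
        · exact hab hc
        · exact hcon hc
      rw [h1] at h2
      have h4 : (Pi.single a (1 : K) : κ → K) ∈ LinearMap.ker (LinearMap.proj (R := K) (φ := fun _ : κ => K) a) :=
        h2 Submodule.mem_top
      have h3 : (Pi.single a (1 : K) : κ → K) a = 0 := h4
      rw [Pi.single_eq_same] at h3
      exact one_ne_zero h3
  -- the conclusion
  intro X hX
  by_cases hne : Nonempty κ
  swap
  · have h0 : X = 0 := by
      refine LinearMap.ext fun v => funext fun a => (hne ⟨a⟩).elim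
    rw [h0]
    exact L.zero_mem
  obtain ⟨o⟩ := hne
  obtain ⟨A, hA⟩ : ∃ A : Matrix κ κ K, X = Matrix.toLin' A := ⟨LinearMap.toMatrix' X, (Matrix.toLin'_toMatrix' X).symm⟩
  have htr : ∑ a, A a a = 0 := by
    rw [hA, Matrix.trace_toLin'_eq] at hX
    exact hX
  have hX1 : X = ∑ a, ∑ b, A a b • (mu a b : Module.End K (κ → K)) := by
    rw [hA]
    nth_rw 1 [Matrix.matrix_eq_sum_single A]
    rw [map_sum]
    refine Finset.sum_congr rfl fun a _ => ?_
    rw [map_sum]
    refine Finset.sum_congr rfl fun b _ => ?_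
    rw [mu, ← map_smul, Matrix.smul_single, smul_eq_mul, mul_one]
  have h2 : ∑ a, ∑ b, A a b • (if a = b then (mu o o : Module.End K (κ → K)) else 0) = 0 := by
    have h3 : ∀ a, ∑ b, A a b • (if a = b then (mu o o : Module.End K (κ → K)) else 0) = A a a • mu o o := by
      intro a
      rw [Finset.sum_eq_single_of_mem a (Finset.mem_univ a), if_pos rfl]
      intro b _ hb
      rw [if_neg (Ne.symm hb), smul_zero]
    rw [Finset.sum_congr rfl fun a _ => h3 a, ← Finset.sum_smul, htr, zero_smul]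
  have hX2 : X = ∑ a, ∑ b, A a b • ((mu a b : Module.End K (κ → K)) - if a = b then mu o o else 0) := by
    simp only [smul_sub, Finset.sum_sub_distrib]
    rw [h2, sub_zero]
    exact hX1
  have hmu : ∀ a : κ, (mu a a : Module.End K (κ → K)) - mu o o =
      dq (fun k => (if k = a then (1 : ℚ) else 0) - (if k = o then 1 else 0)) := by
    intro a
    refine LinearMap.ext fun v => funext fun c => ?_
    rw [LinearMap.sub_apply, Pi.sub_apply, mu_apply, mu_apply, dq, dg_apply, Pi.single_apply, Pi.single_apply]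
    push_cast
    rw [sub_mul]
    congr 1
    · by_cases hc : c = a
      · rw [if_pos hc, if_pos hc, hc, Rat.cast_one, one_mul]
      · rw [if_neg hc, if_neg hc, Rat.cast_zero, zero_mul]
    · by_cases hc : c = o
      · rw [if_pos hc, if_pos hc, hc, Rat.cast_one, one_mul]
      · rw [if_neg hc, if_neg hc, Rat.cast_zero, zero_mul]
  rw [hX2]
  refine Submodule.sum_mem _ fun a _ => Submodule.sum_mem _ fun b _ => L.smul_mem _ ?_
  by_cases hab : a = b
  · rw [if_pos hab, ← hab, hmu]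
    exact Yo_mem (hd a o)
  · rw [if_neg hab, sub_zero]
    exact hall a b hab

/-- A full component contains all functions of sum zero. -/
theorem Yo_of_full (h : TM L) (hfull : ∀ X : Module.End K (κ → K), LinearMap.trace K (κ → K) X = 0 → X ∈ L)
    {f : κ → ℚ} (hf : ∑ k, f k = 0) : f ∈ Yo L := by
  refine h.diag f (hfull _ ?_)
  unfold dq
  rw [dg_trace]
  exact_mod_cast hf

end Pool.Agent.H25U
end

-- from Lib.H76Q.X11
section

/-!
# sums over half of the blocks
-/

set_option autoImplicit false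
set_option linter.unusedSectionVars false
namespace Pool.Agent.H76Q
open Module Matrix Polynomial TensorProduct Pool.Agent.H53Toric
open Pool.Agent.H76P
open Pool.Agent.H76T (IsIdeal Fam Lc)
open Pool.Agent.H76V (Cmp)
open Pool.Agent.H76U (cmp preL IsSplitting)
open Pool.Agent.H76RM (spanK similD)

variable {κ : Type*} {K : Type*} [Field K] [CharZero K] [Fintype κ] [DecidableEq κ]
  {L : Submodule K (Module.End K (κ → K))} {J : Matrix κ κ K} [IsAlgClosed K] [Nonempty κ]
  {Y : Submodule ℚ (κ → ℚ)} {P : Module.End ℚ Y}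

theorem x11_add (h0 : ∀ f ∈ Y, ∑ k, f k = 0) {P Q : Module.End ℚ Y} (hP : Sp P) (hQ : Sp Q)
    (hPQ : P * Q = 0) : Sp (P + Q) := by
  have hs := ptS_spans (Y := Y) h0
  rw [Sp_iff]
  have h1 : (P + Q).dualMap = Q.dualMap + P.dualMap := by
    refine LinearMap.ext fun φ => LinearMap.ext fun f => ?_
    show φ ((P + Q) f) = φ (Q f) + φ (P f)
    rw [LinearMap.add_apply, map_add, add_comm]
  rw [h1]
  refine Spl.add hs (Sp_iff.1 hQ) (Sp_iff.1 hP) ?_
  rw [← b1_mul, hPQ, dualMap_zero]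

theorem x11_sum_mul {FF T : Finset (Module.End ℚ Y)}
    (hFF : ∀ P ∈ FF, Sp P) (horth : ∀ P ∈ FF, ∀ P' ∈ FF, P ≠ P' → P * P' = 0) (hT : T ⊆ FF)
    {P : Module.End ℚ Y} (hP : P ∈ T) : (∑ Q ∈ T, Q) * P = P := by
  rw [Finset.sum_mul, Finset.sum_eq_single P]
  · exact (hFF P (hT hP)).idem
  · intro Q hQ hne
    exact horth Q (hT hQ) P (hT hP) hne
  · intro h
    exact absurd hP h

/-- PROOF. Induction over the subset with `Spl.add` (`Sp_iff`, `ptS_spans`; `dualMap_sum`); orthogonality of a sum and a further element of `FF`. -/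
theorem sp_sum (h0 : ∀ f ∈ Y, ∑ k, f k = 0) {FF T : Finset (Module.End ℚ Y)}
    (hFF : ∀ P ∈ FF, Sp P) (horth : ∀ P ∈ FF, ∀ P' ∈ FF, P ≠ P' → P * P' = 0) (hT : T ⊆ FF) :
    Sp (∑ P ∈ T, P) := by
  classical
  induction T using Finset.induction_on with
  | empty =>
    rw [Finset.sum_empty]
    exact ⟨by rw [mul_zero], fun a b => ⟨a, fun f => by simp⟩⟩
  | insert Q T hQ ih =>
    rw [Finset.sum_insert hQ]
    have hQF : Q ∈ FF := hT (Finset.mem_insert_self Q T)
    have hTF : T ⊆ FF := (Finset.subset_insert Q T).trans hT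
    refine x11_add h0 (hFF Q hQF) (ih hTF) ?_
    rw [Finset.mul_sum]
    refine Finset.sum_eq_zero fun P hP => horth Q hQF P (hTF hP) ?_
    rintro rfl
    exact hQ hP

/-- PROOF. `→`: `P f = (∑ P) (P f)` (orthogonality and `P * P = P`).  `←`: sum. -/
theorem cz_sum {FF T : Finset (Module.End ℚ Y)}
    (hFF : ∀ P ∈ FF, Sp P) (horth : ∀ P ∈ FF, ∀ P' ∈ FF, P ≠ P' → P * P' = 0) (hT : T ⊆ FF)
    (k k' : κ) : cz (∑ P ∈ T, P) k k' ↔ ∀ P ∈ T, cz P k k' := by
  constructor
  · intro h P hP f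
    have h1 := h (P f)
    have h2 : (∑ Q ∈ T, Q) (P f) = P f :=
      congrArg (fun S : Module.End ℚ Y => S f) (x11_sum_mul hFF horth hT hP)
    rw [h2] at h1
    exact h1
  · intro h f
    have h1 : ∀ l : κ, (((∑ Q ∈ T, Q) f : Y) : κ → ℚ) l = ∑ Q ∈ T, (Q f : κ → ℚ) l := by
      intro l
      rw [LinearMap.sum_apply, Submodule.coe_sum, Finset.sum_apply]
    rw [h1, h1]
    exact Finset.sum_congr rfl fun Q hQ => h Q hQ f

/-- PROOF. Let `I` be one of the simple ideals.  If `InP P I` for some `P ∈ T`, then `InP (∑ P) I` (`cz_sum`).  If not, then `InP (1 - P) I` for all `P ∈ T`; for `f ∈ Y` with `dq f ∈ I` we get `(1 - P) f = f` (`FunP_iff` for `1 - P`), `P f = 0` for all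
`P ∈ T`, so `(1 - ∑ P) f = f` and `FunP (1 - ∑ P) f`. -/
theorem comp_sum (h0 : ∀ f ∈ Y, ∑ k, f k = 0) {FF T : Finset (Module.End ℚ Y)}
    (hFF : ∀ P ∈ FF, Sp P) (horth : ∀ P ∈ FF, ∀ P' ∈ FF, P ≠ P' → P * P' = 0) (hT : T ⊆ FF)
    (hc : ∀ P ∈ FF, Comp L P) : Comp L (∑ P ∈ T, P) := by
  intro m I hI j
  by_cases h : ∃ P ∈ T, InP P (I j)
  · obtain ⟨P, hP, hIP⟩ := h
    left
    intro f hf hfI k k' hk
    exact hIP f hf hfI k k' ((cz_sum hFF horth hT k k').1 hk P hP)
  · push Not at h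
    right
    intro f hf hfI k k' hk
    have h1 : ∀ P ∈ T, P ⟨f, hf⟩ = 0 := by
      intro P hP
      have h2 : InP (1 - P) (I j) := (hc P (hT hP) m I hI j).resolve_left (h P hP)
      have h3 : (1 - P) (⟨f, hf⟩ : Y) = ⟨f, hf⟩ :=
        (FunP_iff (hFF P (hT hP)).compl h0 ⟨f, hf⟩).1 (h2 f hf hfI)
      rw [LinearMap.sub_apply, Module.End.one_apply] at h3
      exact sub_eq_self.1 h3
    have h4 : (1 - ∑ P ∈ T, P) (⟨f, hf⟩ : Y) = ⟨f, hf⟩ := by
      rw [LinearMap.sub_apply, Module.End.one_apply, LinearMap.sum_apply,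
        Finset.sum_eq_zero h1, sub_zero]
    have h5 := hk ⟨f, hf⟩
    rw [h4] at h5
    exact h5

/-- PROOF. `z` = the sum over `T' = FF.filter (· ∈ T)`.  `1 - z` = the sum over the rest.  `g` is injective on `FF` (`g10_ext`: `MvP π P Q`, `MvP π P' Q` imply `cz P = cz P'`, `cz (1 - P) = cz (1 - P')`), so a bijection of `FF`, and it maps `T'` onto `FF \ T'` and `FF \ T'` onto `T'`.  By
`cz_sum`: `cz z k k' ↔ ∀ P ∈ T', cz P k k' ↔ ∀ P ∈ T', cz (g P) (π k) (π k') ↔ cz (1 - z) (π k) (π k')`; the same for `1 - z`. -/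
theorem half_sum (h0 : ∀ f ∈ Y, ∑ k, f k = 0) {FF : Finset (Module.End ℚ Y)}
    (hFF : ∀ P ∈ FF, Sp P) (horth : ∀ P ∈ FF, ∀ P' ∈ FF, P ≠ P' → P * P' = 0)
    (hsum : ∑ P ∈ FF, P = 1) {π : Equiv.Perm κ} (g : Module.End ℚ Y → Module.End ℚ Y)
    (hg : ∀ P ∈ FF, g P ∈ FF ∧ MvP π P (g P)) {T : Set (Module.End ℚ Y)}
    (hT : ∀ P ∈ FF, g P ∈ T ↔ P ∉ T) :
    ∃ T' ⊆ FF, MvP π (∑ P ∈ T', P) (1 - ∑ P ∈ T', P) := by
  classical
  have hinj : Set.InjOn g (FF : Set (Module.End ℚ Y)) := by
    intro P hP P' hP' hgg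
    have hP1 : P ∈ FF := hP
    have hP2 : P' ∈ FF := hP'
    have m1 := (hg P hP1).2
    have m2 := (hg P' hP2).2
    have hgg' : g P = g P' := hgg
    rw [← hgg'] at m2
    refine g10_ext h0 (hFF P hP1) (hFF P' hP2) (fun k k' => ?_) (fun k k' => ?_)
    · rw [m1.1 k k', m2.1 k k']
    · rw [m1.2 k k', m2.2 k k']
  have hsurj : ∀ Q ∈ FF, ∃ P ∈ FF, g P = Q := by
    intro Q hQ
    have h1 : FF.image g ⊆ FF := by
      intro R hR
      obtain ⟨P, hP, rfl⟩ := Finset.mem_image.1 hR
      exact (hg P hP).1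
    have h2 : FF.image g = FF :=
      Finset.eq_of_subset_of_card_le h1 (by rw [Finset.card_image_of_injOn hinj])
    rw [← h2] at hQ
    obtain ⟨P, hP, hPQ⟩ := Finset.mem_image.1 hQ
    exact ⟨P, hP, hPQ⟩
  set T1 : Finset (Module.End ℚ Y) := FF.filter fun P => P ∈ T with hT1
  set T2 : Finset (Module.End ℚ Y) := FF.filter fun P => ¬ P ∈ T with hT2
  have hs1 : T1 ⊆ FF := Finset.filter_subset _ _
  have hs2 : T2 ⊆ FF := Finset.filter_subset _ _
  have hz : (1 - ∑ P ∈ T1, P : Module.End ℚ Y) = ∑ P ∈ T2, P := by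
    have h1 : (∑ P ∈ T1, P) + ∑ P ∈ T2, P = (1 : Module.End ℚ Y) := by
      rw [hT1, hT2, Finset.sum_filter_add_sum_filter_not FF (fun P => P ∈ T) (fun P => P), hsum]
    rw [← h1]
    exact add_sub_cancel_left (∑ P ∈ T1, P) (∑ P ∈ T2, P)
  have hz2 : (1 - (1 - ∑ P ∈ T1, P) : Module.End ℚ Y) = ∑ P ∈ T1, P :=
    sub_sub_cancel 1 (∑ P ∈ T1, P)
  have e1 : ∀ k k', (∀ P ∈ T1, cz P k k') ↔ ∀ Q ∈ T2, cz Q (π k) (π k') := by
    intro k k'
    constructor
    · intro h Q hQ
      obtain ⟨hQ1, hQ2⟩ := Finset.mem_filter.1 hQ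
      obtain ⟨P, hP, rfl⟩ := hsurj Q hQ1
      have hPT : P ∈ T := by
        by_contra hn
        exact hQ2 ((hT P hP).2 hn)
      exact ((hg P hP).2.1 k k').1 (h P (Finset.mem_filter.2 ⟨hP, hPT⟩))
    · intro h P hP
      obtain ⟨hP1, hP2⟩ := Finset.mem_filter.1 hP
      have hgT : g P ∉ T := fun hh => ((hT P hP1).1 hh) hP2
      exact ((hg P hP1).2.1 k k').2 (h (g P) (Finset.mem_filter.2 ⟨(hg P hP1).1, hgT⟩))
  have e2 : ∀ k k', (∀ P ∈ T2, cz P k k') ↔ ∀ Q ∈ T1, cz Q (π k) (π k') := by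
    intro k k'
    constructor
    · intro h Q hQ
      obtain ⟨hQ1, hQ2⟩ := Finset.mem_filter.1 hQ
      obtain ⟨P, hP, rfl⟩ := hsurj Q hQ1
      have hPT : P ∉ T := (hT P hP).1 hQ2
      exact ((hg P hP).2.1 k k').1 (h P (Finset.mem_filter.2 ⟨hP, hPT⟩))
    · intro h P hP
      obtain ⟨hP1, hP2⟩ := Finset.mem_filter.1 hP
      have hgT : g P ∈ T := (hT P hP1).2 hP2
      exact ((hg P hP1).2.1 k k').2 (h (g P) (Finset.mem_filter.2 ⟨(hg P hP1).1, hgT⟩))
  refine ⟨T1, hs1, fun k k' => ?_, fun k k' => ?_⟩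
  · rw [hz, cz_sum hFF horth hs1, cz_sum hFF horth hs2]
    exact e1 k k'
  · rw [hz2, hz, cz_sum hFF horth hs1, cz_sum hFF horth hs2]
    exact e2 k k'

end Pool.Agent.H76Q
end

-- from Lib.H76Y.SimpleO
section

/-!
# The component theorem with a symmetric form, one ideal
-/

set_option autoImplicit false
set_option linter.unusedSectionVars false
namespace Pool.Agent.H76Y
open Pool.Agent.H76P Pool.Agent.H76V Pool.Agent.H76Q
open Module Matrix Pool.Agent.H53Toric
open Pool.Agent.H76T (IsIdeal Fam)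

variable {κ : Type*} [Fintype κ] [DecidableEq κ] {K : Type*} [Field K]

theorem om_sym {J : Matrix κ κ K} (hJ : Jᵀ = J) (v w : κ → K) : om J v w = om J w v := by
  rw [om_apply, om_apply, Matrix.dotProduct_mulVec, ← Matrix.mulVec_transpose, hJ, dotProduct_comm]

theorem skew_om {J : Matrix κ κ K} (hdet : IsUnit J.det) {X : Module.End K (κ → K)} :
    adjE J X = -X ↔ ∀ v w, om J (X v) w + om J v (X w) = 0 := by
  constructor
  · intro h v w
    rw [H49M.C0_spec hdet, h, LinearMap.neg_apply, map_neg, neg_add_cancel]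
  · intro h
    apply LinearMap.ext
    intro w
    rw [LinearMap.neg_apply, ← sub_eq_zero, sub_neg_eq_add]
    apply om_nd hdet
    intro v
    rw [map_add, ← H49M.C0_spec hdet]
    exact h v w

variable [CharZero K] {L : Submodule K (Module.End K (κ → K))}

variable [IsAlgClosed K] [Nonempty κ]

/-- A component which is simple and respects a symmetric form is everything, or its rank is `2 ^ m` with
`m ≡ 0, 3 mod 4`, `m ≥ 3`, or a central binomial coefficient `C(2k, k)` with `k ≥ 4` even. -/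
theorem CmpN.simpleO (h : CmpN L) {I : Fin 1 → Submodule K (Module.End K (κ → K))} (hF : Fam L I)
    {J : Matrix κ κ K} (hJ : Jᵀ = J) (hdet : IsUnit J.det) (hskew : ∀ X ∈ L, adjE J X = -X) :
    (∀ X : Module.End K (κ → K), adjE J X = -X → X ∈ L) ∨
    (∃ m : ℕ, 3 ≤ m ∧ (m % 4 = 0 ∨ m % 4 = 3) ∧ Fintype.card κ = 2 ^ m ∧
      ∀ N ∈ L, N * N = 0 → N ≠ 0 → 4 * finrank K (LinearMap.range N) = Fintype.card κ ∨
        2 * finrank K (LinearMap.range N) = Fintype.card κ) ∨
    (∃ k : ℕ, 4 ≤ k ∧ Even k ∧ Fintype.card κ = k.centralBinom ∧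
      ∀ N ∈ L, N * N = 0 → N ≠ 0 → finrank K (LinearMap.range N) = (k - 1).centralBinom) := by
  have hcard : finrank K (κ → K) = Fintype.card κ := Module.finrank_fintype_fun_eq_card K
  have hcore := h.coreN hF
  obtain ⟨y, hy, hy2⟩ := h.inv_mem hF 0
  have hyL := (hF.ideal 0).1 hy
  have hB : om J ≠ 0 := by
    intro h0
    obtain ⟨k⟩ := ‹Nonempty κ›
    have h1 : (Pi.single k (1 : K) : κ → K) = 0 := om_nd hdet _ (fun w => by rw [h0]; rfl)
    have h2 := congrFun h1 k
    rw [Pi.single_eq_same] at h2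
    exact one_ne_zero h2
  have h1 := H86N.coreO hcore hB (om_sym hJ) (fun X hX => (skew_om hdet).1 (hskew X hX)) hyL hy2
  rw [hcard] at h1
  rcases h1 with h1 | h1 | h1
  · exact Or.inl fun X hX => h1 X ((skew_om hdet).1 hX)
  · exact Or.inr (Or.inl h1)
  · exact Or.inr (Or.inr h1)

end Pool.Agent.H76Y
end

-- from Lib.H76Y.W1
section

/-!
# the eigenvalues
-/

set_option autoImplicit false
set_option linter.unusedSectionVars false
namespace Pool.Agent.H76Y
open Pool.Agent.H76P Pool.Agent.H76V Pool.Agent.H76Q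
open Module Matrix Polynomial Pool.Agent.H53Toric
open Pool.Agent.H76P
open Pool.Agent.H76T (IsIdeal Fam Lc)
open Pool.Agent.H76U (cmp preL IsSplitting)
open Pool.Agent.H76RM (spanK similD)

variable {ι : Type*} [Fintype ι] [DecidableEq ι] {ψ : Matrix ι ι ℚ}
    {D : Subalgebra ℚ (Matrix ι ι ℚ)} {M : Type*} [Field M] [NumberField M]
    {m : ℕ} {bar : Fin m → Fin m} {e : Fin m → Matrix ι ι M} {G : Type*} [Group G]
    {ρ : ∀ (l : ℕ) [Fact l.Prime], G →* Matrix.GeneralLinearGroup ι ℚ_[l]}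
    {p : ℕ} [Fact p.Prime] {σ : G} {q : ℚ} {F : Fin m → M[X]}
    {φ μ ν : Matrix ι ι (AlgebraicClosure ℚ_[p])} {v : AlgebraicClosure ℚ_[p] → ℚ}
    {Δ : Set (AlgebraicClosure ℚ_[p] ≃+* AlgebraicClosure ℚ_[p])}
    {Ω : Type*} [Field Ω] [CharZero Ω] [IsAlgClosed Ω] [Algebra.IsAlgebraic ℚ Ω] {j : M →+* Ω}
    {R : Finset Ω} {N : Set ℕ} (C : Core3 ψ D bar e ρ p σ q F φ μ ν v Δ j R N)

include C

theorem w1_lin (s : G) : ∀ d ∈ D, (ρ p s).1.map (algebraMap ℚ_[p] (AlgebraicClosure ℚ_[p])) *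
      d.map (algebraMap ℚ (AlgebraicClosure ℚ_[p])) =
      d.map (algebraMap ℚ (AlgebraicClosure ℚ_[p])) *
        (ρ p s).1.map (algebraMap ℚ_[p] (AlgebraicClosure ℚ_[p])) := by
  intro d hd
  have h1 := congrArg (fun m : Matrix ι ι ℚ_[p] => m.map (algebraMap ℚ_[p] (AlgebraicClosure ℚ_[p])))
    (C.lin p s d hd)
  have h2 : (d.map (algebraMap ℚ ℚ_[p])).map (algebraMap ℚ_[p] (AlgebraicClosure ℚ_[p])) =
      d.map (algebraMap ℚ (AlgebraicClosure ℚ_[p])) := by
    ext i j
    simp
  simp only [Matrix.map_mul] at h1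
  rw [h2] at h1
  exact h1

theorem w1_phiD : ∀ d ∈ spanK (AlgebraicClosure ℚ_[p]) D, φ * d = d * φ := by
  intro d hd
  refine Pool.Agent.H76RM.zar_commute ?_ (C.frobp.idc.2 ⊤ inferInstance)
  rintro _ ⟨s, -, rfl⟩
  exact Pool.Agent.H76RM.comm_span (w1_lin C s) d hd

theorem w1_ne (i : Ω →+* AlgebraicClosure ℚ_[p]) (b : Fin m) {a : Ω}
    (ha : (F b).eval₂ j a = 0) : i a ≠ 0 := by
  intro h0
  have h1 : (F b).eval₂ (i.comp j) (i a) = 0 := by
    rw [← Polynomial.hom_eval₂, ha, map_zero]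
  obtain ⟨z, hz, -, hφ⟩ := (C.frobp.eig (i.comp j) b (i a)).2 h1
  rw [h0, zero_smul] at hφ
  exact hz (Matrix.eq_zero_of_mulVec_eq_zero C.frobp.idc.1 hφ)

/-- PROOF. If `a ≠ a'` then `v (i a) ≠ v (i a')` for some `i` (`C.gal`), but `N v (i a) = v (i (a ^ N)) = N v (i a')` (`IsVal.basic`; the roots are not `0`, because `φ` is invertible). -/
theorem Core3.tor (b : Fin m) {a a' : Ω} (ha : (F b).eval₂ j a = 0) (ha' : (F b).eval₂ j a' = 0)
    {n : ℕ} (hn : n ≠ 0) (h : a ^ n = a' ^ n) : a = a' := by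
  by_contra hne
  obtain ⟨i, hi⟩ := C.gal b a a' ha ha' hne
  have hb := (IsVal.basic C.crys.val).2.2.2
  have h1 := hb _ (w1_ne C i b ha) n
  have h2 := hb _ (w1_ne C i b ha') n
  rw [← map_pow, h, map_pow, h2] at h1
  have hn' : (n : ℚ) ≠ 0 := Nat.cast_ne_zero.2 hn
  exact hi (mul_left_cancel₀ hn' h1).symm

/-- PROOF. `exists_enum` (A6) for `φ` and any `i : Ω →+* closure of ℚ_[p]` (`IsAlgClosed.lift`); `φ` commutes with `(e b).map _` (`C.frobp.idc`, `C.lin`, as in `at_p`, H76P/G15). -/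
theorem Core3.enum (b : Fin m) : ∃ a : Fin (e b).rank → Ω, Function.Injective a ∧
      ∀ y : Ω, (F b).eval₂ j y = 0 ↔ ∃ k, y = a k := by
  let i : Ω →+* AlgebraicClosure ℚ_[p] :=
    (IsAlgClosed.lift (R := ℚ) (S := Ω) (M := AlgebraicClosure ℚ_[p])).toRingHom
  have hspl : IsSplitting D ψ bar (fun c => (e c).map (i.comp j)) := C.hspl.map (i.comp j)
  exact exists_enum C.frobp j i b (C.hspl.idem b) (w1_phiD C _ (hspl.mem b)).symm

end Pool.Agent.H76Y
end

-- from Lib.H76Z.F7
section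

/-!
# inertia preserves the factors
-/

set_option autoImplicit false
set_option linter.unusedSectionVars false
namespace Pool.Agent.H76Z
open Pool.Agent.H76Y
open Pool.Agent.H76P Pool.Agent.H76V Pool.Agent.H76Q
open Module Matrix Polynomial Pool.Agent.H53Toric
open Pool.Agent.H76P
open Pool.Agent.H76T (IsIdeal Fam Lc)
open Pool.Agent.H76U (cmp preL IsSplitting)
open Pool.Agent.H76RM (spanK similD)

variable {ι : Type*} [Fintype ι] [DecidableEq ι] {K : Type*} [Field K] [CharZero K]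
  [IsAlgClosed K] {ct : Cl} {J : Matrix ι ι K} {S 𝓗 : Set (Matrix ι ι K)} {e x : Matrix ι ι K} {q : K} {n : ℕ}
  {U : Matrix ι (Fin n) K} {V : Matrix (Fin n) ι K} {d : Fin n → K}
  {Y : Submodule ℚ (Fin n → ℚ)}




theorem f7_map_mul (τ : K ≃+* K) (A B : Matrix ι ι K) : (A * B).map τ = A.map τ * B.map τ := by
  have := Matrix.map_mul (f := (τ : K →+* K)) (L := A) (M := B)
  exact this

/-- The subspace of `zlie S` attached to an ideal. -/
noncomputable def f7_I (S : Set (Matrix ι ι K)) (U : Matrix ι (Fin n) K) (V : Matrix (Fin n) ι K)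
    (I' : Submodule K (Module.End K (Fin n → K))) : Submodule K (Matrix ι ι K) where
  carrier := {C | C ∈ zlie S ∧ ∃ c : K, phi (cmp U V (C - c • 1)) ∈ I'}
  add_mem' := by
    rintro A B ⟨hA, a, ha⟩ ⟨hB, b, hb⟩
    refine ⟨(zlie S).add_mem hA hB, a + b, ?_⟩
    have h1 : A + B - (a + b) • (1 : Matrix ι ι K) = (A - a • 1) + (B - b • 1) := by module
    rw [h1, map_add, map_add]
    exact I'.add_mem ha hb
  zero_mem' := by
    refine ⟨(zlie S).zero_mem, 0, ?_⟩
    rw [zero_smul, sub_zero, map_zero, map_zero]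
    exact I'.zero_mem
  smul_mem' := by
    rintro r A ⟨hA, a, ha⟩
    refine ⟨(zlie S).smul_mem r hA, r * a, ?_⟩
    have h1 : r • A - (r * a) • (1 : Matrix ι ι K) = r • (A - a • 1) := by module
    rw [h1, map_smul, map_smul]
    exact I'.smul_mem r ha

theorem f7_mem {I' : Submodule K (Module.End K (Fin n → K))} {C : Matrix ι ι K} :
    C ∈ f7_I S U V I' ↔ C ∈ zlie S ∧ ∃ c : K, phi (cmp U V (C - c • 1)) ∈ I' := Iff.rfl

/-- PROOF. See `H76Q.theta_ideal` (F7), where `hid` is stronger.  `{X | θ X ∈ I'}` is closed under sums and scalar multiples (`hθ.smul`), so by `ideal_span` (T14) we can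
assume that `X = X₁ X₂ - X₂ X₁`, `X₁, X₂ ∈ I'`.  As there take preimages `C₁, C₂ ∈ f7_I S U V I'` (`phi (cmp U V (C₁ - c₁ • 1)) = X₁`, ...); `C = C₁ C₂ - C₂ C₁ ∈ f7_I S U V I'` and
`phi (cmp U V C) = X`, and `hid` gives `C.map τ ∈ f7_I S U V I'`.  The rest is the old proof with `A = C`, `c = 0`. -/
theorem theta_ideal (h : LocN ct J S 𝓗 e x q U V d Y) {τ : K ≃+* K} (he : e.map τ = e)
    {θ : Module.End K (Fin n → K) ≃+* Module.End K (Fin n → K)} {σ : Equiv.Perm (Fin n)}
    (hθ : ThetaN (LcN J S U V) θ τ σ)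
    (hθU : ∀ X, (U * LinearMap.toMatrix' X * V).map τ = U * LinearMap.toMatrix' (θ X) * V)
    (hid : ∀ I : Submodule K (Matrix ι ι K), I ≤ zlie S → adStable (zlie S) I →
      ∀ X ∈ I, ∀ Y ∈ I, (X * Y - Y * X).map τ ∈ I) :
    ∀ I, IsIdeal (LcN J S U V) I → ∀ X ∈ I, θ X ∈ I := by
  intro I' hI X hX
  have hne : Nonempty (Fin n) := ⟨⟨0, h.pos⟩⟩
  have hmulp : ∀ A B : Matrix (Fin n) (Fin n) K, phi (A * B) = phi A * phi B := fun A B => map_mul phi A B
  have hcm : ∀ A C : Matrix ι ι K, C * e = e * C → cmp U V (A * C) = cmp U V A * cmp U V C :=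
    fun A C hC => H76U.cmp_mul h.UV h.VU hC
  have hone : cmp U V (1 : Matrix ι ι K) = 1 := H76U.cmp_one h.UV h.VU
  have hbr : ∀ (A C : Matrix ι ι K) (a c : K), A * e = e * A → C * e = e * C →
      phi (cmp U V (C * A - A * C)) =
        phi (cmp U V (C - c • 1)) * phi (cmp U V (A - a • 1)) -
          phi (cmp U V (A - a • 1)) * phi (cmp U V (C - c • 1)) := by
    intro A C a c hAe hCe
    rw [map_sub (cmp U V), hcm C A hAe, hcm A C hCe, map_sub (cmp U V), map_sub (cmp U V),
      map_smul (cmp U V), map_smul (cmp U V), hone, ← hmulp, ← hmulp, ← map_sub]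
    congr 1
    simp only [mul_sub, sub_mul, smul_mul_assoc, mul_smul_comm, one_mul, mul_one]
    module
  have hst : adStable (zlie S) (f7_I S U V I') := by
    intro C hC A hA
    obtain ⟨hA1, a, hA2⟩ := f7_mem.1 hA
    obtain ⟨hCe, c, hc⟩ := h.lie C hC
    obtain ⟨hAe, -⟩ := h.lie A hA1
    refine f7_mem.2 ⟨zlie_comm hC hA1, 0, ?_⟩
    have e1 : C * A - A * C - (0 : K) • (1 : Matrix ι ι K) = C * A - A * C := by
      rw [zero_smul, sub_zero]
    rw [e1, hbr A C a c hAe hCe]
    exact hI.2 _ hc _ hA2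
  have hle : f7_I S U V I' ≤ zlie S := fun C hC => hC.1
  have hpre : ∀ X ∈ I', ∃ C ∈ f7_I S U V I', ∃ c : K, phi (cmp U V (C - c • 1)) = X := by
    intro X hX
    obtain ⟨Z, hZ⟩ : ∃ Z : Matrix (Fin n) (Fin n) K, phi Z = X := (phi (ι := Fin n) (K := K)).surjective X
    have hXL := hI.1 hX
    have hXb : X ∈ H76U.Lb J S U V := hXL.1
    rw [← hZ] at hXb
    obtain ⟨A, hA, hAZ⟩ := H76U.mem_Lb.1 hXb
    obtain ⟨⟨c, C, hC, hAC⟩, -⟩ := hA
    have e1 : C - (-c) • (1 : Matrix ι ι K) = A := by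
      rw [hAC]
      module
    have e2 : phi (cmp U V (C - (-c) • 1)) = X := by
      rw [e1, hAZ, hZ]
    refine ⟨C, f7_mem.2 ⟨hC, -c, ?_⟩, -c, e2⟩
    rw [e2]
    exact hX
  have hspan := ideal_span h.ts.cmp hI hX
  induction hspan using Submodule.span_induction with
  | mem X hXs =>
    obtain ⟨X₁, hX₁, X₂, hX₂, rfl⟩ := hXs
    obtain ⟨C₁, hC₁, c₁, e₁⟩ := hpre X₁ hX₁
    obtain ⟨C₂, hC₂, c₂, e₂⟩ := hpre X₂ hX₂
    have hC₁e := (h.lie C₁ hC₁.1).1
    have hC₂e := (h.lie C₂ hC₂.1).1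
    obtain ⟨A, hA⟩ : ∃ A : Matrix ι ι K, A = C₁ * C₂ - C₂ * C₁ := ⟨_, rfl⟩
    have hX0 : X₁ * X₂ - X₂ * X₁ = phi (cmp U V A) := by
      rw [hA, hbr C₂ C₁ c₂ c₁ hC₂e hC₁e, e₁, e₂]
    have hAe : A * e = e * A := by
      have h1 : C₁ * C₂ * e = e * (C₁ * C₂) := by
        rw [Matrix.mul_assoc, hC₂e, ← Matrix.mul_assoc, hC₁e, Matrix.mul_assoc]
      have h2 : C₂ * C₁ * e = e * (C₂ * C₁) := by
        rw [Matrix.mul_assoc, hC₁e, ← Matrix.mul_assoc, hC₂e, Matrix.mul_assoc]
      rw [hA, sub_mul, mul_sub, h1, h2]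
    obtain ⟨-, c', hc'⟩ := f7_mem.1 (hid _ hle hst C₁ hC₁ C₂ hC₂)
    rw [← hA] at hc'
    have htm : ∀ M : Matrix (Fin n) (Fin n) K, LinearMap.toMatrix' (phi M) = M := fun M =>
      LinearMap.toMatrix'_toLin' M
    have hUAV : U * LinearMap.toMatrix' (X₁ * X₂ - X₂ * X₁) * V = A * e := by
      rw [hX0, htm, H76U.P_cmp h.UV h.VU hAe, Matrix.mul_assoc, ← h.UV]
    obtain ⟨W, hW⟩ : ∃ W : Matrix (Fin n) (Fin n) K, phi W = θ (X₁ * X₂ - X₂ * X₁) :=
      (phi (ι := Fin n) (K := K)).surjective (θ (X₁ * X₂ - X₂ * X₁))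
    have hθX : W = cmp U V (A.map τ) := by
      have h1 := hθU (X₁ * X₂ - X₂ * X₁)
      rw [hUAV, f7_map_mul, he, ← hW, htm] at h1
      have h2 : V * (U * W * V) * U = W := by
        calc V * (U * W * V) * U = (V * U) * W * (V * U) := by simp only [Matrix.mul_assoc]
          _ = W := by rw [h.VU, Matrix.one_mul, Matrix.mul_one]
      have h3 : V * (A.map τ * e) * U = cmp U V (A.map τ) := by
        rw [H76U.cmp_apply]
        have h4 : e * U = U := H76U.p_P h.UV h.VU
        calc V * (A.map τ * e) * U = V * A.map τ * (e * U) := by simp only [Matrix.mul_assoc]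
          _ = V * A.map τ * U := by rw [h4]
      rw [← h2, ← h1, h3]
    have hdec : θ (X₁ * X₂ - X₂ * X₁) = phi (cmp U V (A.map τ - c' • 1)) + c' • 1 := by
      rw [← hW, hθX]
      have e1 : A.map τ = (A.map τ - c' • (1 : Matrix ι ι K)) + c' • 1 := by module
      conv_lhs => rw [e1]
      rw [map_add, map_add, map_smul, map_smul, hone, map_one]
    have hXI : X₁ * X₂ - X₂ * X₁ ∈ I' := hI.2 X₁ (hI.1 hX₁) X₂ hX₂
    have hθL : θ (X₁ * X₂ - X₂ * X₁) ∈ LcN J S U V := (hθ.mem _).2 (hI.1 hXI)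
    have hsc : (c' • (1 : Module.End K (Fin n → K))) ∈ LcN J S U V := by
      have e1 : (c' • (1 : Module.End K (Fin n → K))) =
          θ (X₁ * X₂ - X₂ * X₁) - phi (cmp U V (A.map τ - c' • 1)) := by
        rw [hdec]
        abel
      rw [e1]
      exact Submodule.sub_mem _ hθL (hI.1 hc')
    have hz : c' = 0 := by
      have h1 := h.ts.cmp.tr _ hsc
      rw [map_smul, LinearMap.trace_one, smul_eq_mul, mul_eq_zero] at h1
      rcases h1 with h1 | h1
      · exact h1
      · exact absurd h1 (by exact_mod_cast (finrank_pos (R := K) (M := Fin n → K)).ne')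
    have e0 : c' • (1 : Module.End K (Fin n → K)) = 0 := by rw [hz, zero_smul]
    rw [hdec, e0, add_zero]
    exact hc'
  | zero =>
    rw [map_zero]
    exact I'.zero_mem
  | add a b ha hb iha ihb =>
    have hle2 : Submodule.span K {W | ∃ X ∈ I', ∃ Y ∈ I', W = X * Y - Y * X} ≤ I' := by
      rw [Submodule.span_le]
      rintro W ⟨X, hX, Y, hY, rfl⟩
      exact hI.2 X (hI.1 hX) Y hY
    rw [map_add]
    exact I'.add_mem (iha (hle2 ha)) (ihb (hle2 hb))
  | smul c a ha iha =>
    have hle2 : Submodule.span K {W | ∃ X ∈ I', ∃ Y ∈ I', W = X * Y - Y * X} ≤ I' := by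
      rw [Submodule.span_le]
      rintro W ⟨X, hX, Y, hY, rfl⟩
      exact hI.2 X (hI.1 hX) Y hY
    rw [hθ.smul]
    exact I'.smul_mem _ (iha (hle2 ha))

theorem f7_funP (h : LocN ct J S 𝓗 e x q U V d Y) {τ : K ≃+* K}
    {θ : Module.End K (Fin n → K) ≃+* Module.End K (Fin n → K)} {σ : Equiv.Perm (Fin n)}
    (hθ : ThetaN (LcN J S U V) θ τ σ) {P : Module.End ℚ Y} (hP : Sp P)
    (hc : Comp (LcN J S U V) P) (hI : ∀ I, IsIdeal (LcN J S U V) I → ∀ X ∈ I, θ X ∈ I)
    {f : Fin n → ℚ} (hf : f ∈ Y) (hfP : FunP P f) :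
    (fun k => f (σ⁻¹ k)) ∈ Y ∧ FunP P (fun k => f (σ⁻¹ k)) := by
  classical
  have hne : Nonempty (Fin n) := ⟨⟨0, h.pos⟩⟩
  have hYL : Yo (LcN J S U V) = Y := h.yo
  obtain ⟨m, I, hF⟩ := H76T.exists_fam h.ts.cmp.lie h.ts.cmp.irr h.ts.cmp.tr
  have hf' : f ∈ Yo (LcN J S U V) := by rw [hYL]; exact hf
  obtain ⟨g, hg, hsum⟩ := exists_decomp h.ts.cmp hF hf'
  set T : Finset (Fin m) := Finset.univ.filter fun j => InP P (I j) with hT
  have hTg : ∀ i ∈ T, FunP P (g i) := by
    intro i hi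
    have h1 : InP P (I i) := (Finset.mem_filter.1 hi).2
    exact h1 (g i) (hYL ▸ (hg i).1) (hg i).2
  have hTg' : ∀ i ∈ Tᶜ, FunP (1 - P) (g i) := by
    intro i hi
    have h1 : ¬ InP P (I i) := by
      intro h2
      rw [Finset.mem_compl] at hi
      exact hi (Finset.mem_filter.2 ⟨Finset.mem_univ i, h2⟩)
    rcases hc m I hF i with h2 | h2
    · exact absurd h2 h1
    · exact h2 (g i) (hYL ▸ (hg i).1) (hg i).2
  have hsplit : f = ∑ i ∈ T, g i + ∑ i ∈ Tᶜ, g i := by
    rw [Finset.sum_add_sum_compl, hsum]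
  have h1 : FunP P (∑ i ∈ Tᶜ, g i) := by
    have h2 : ∑ i ∈ Tᶜ, g i = f - ∑ i ∈ T, g i := by
      rw [hsplit]
      abel
    rw [h2]
    intro k k' hk
    rw [Pi.sub_apply, Pi.sub_apply, hfP k k' hk, H76Y.c3_fsum T hTg k k' hk]
  have h2 : FunP (1 - P) (∑ i ∈ Tᶜ, g i) := H76Y.c3_fsum _ hTg'
  have h3 : ∑ i ∈ Tᶜ, g i ∈ Yo (LcN J S U V) := Submodule.sum_mem _ fun i _ => (hg i).1
  have h4 := FunP_both hP (Yo_sum h.ts.cmp h3) h1 h2
  rw [h4, add_zero] at hsplit
  have hdq : ∀ u : Fin n → ℚ, θ (dq u) = dq (fun k => u (σ⁻¹ k)) := by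
    intro u
    unfold dq
    rw [hθ.diag]
    congr 1
    funext k
    exact map_ratCast τ _
  have hgi : ∀ i ∈ T, (fun k => g i (σ⁻¹ k)) ∈ Y ∧ FunP P (fun k => g i (σ⁻¹ k)) := by
    intro i hi
    have h5 : (dq (fun k => g i (σ⁻¹ k)) : Module.End K (Fin n → K)) ∈ I i := by
      rw [← hdq]
      exact hI _ (hF.ideal i) _ (hg i).2
    have h6 : (fun k => g i (σ⁻¹ k)) ∈ Y := by
      rw [← hYL]
      exact h.ts.diag _ ((hF.ideal i).1 h5)
    exact ⟨h6, (Finset.mem_filter.1 hi).2 _ h6 h5⟩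
  have hsum' : (fun k => f (σ⁻¹ k)) = ∑ i ∈ T, fun k => g i (σ⁻¹ k) := by
    funext k
    rw [hsplit, Finset.sum_apply, Finset.sum_apply]
  rw [hsum']
  exact ⟨Submodule.sum_mem _ fun i hi => (hgi i hi).1, H76Y.c3_fsum T fun i hi => (hgi i hi).2⟩

theorem f7_funP_pow (h : LocN ct J S 𝓗 e x q U V d Y) {τ : K ≃+* K}
    {θ : Module.End K (Fin n → K) ≃+* Module.End K (Fin n → K)} {σ : Equiv.Perm (Fin n)}
    (hθ : ThetaN (LcN J S U V) θ τ σ) {P : Module.End ℚ Y} (hP : Sp P)
    (hc : Comp (LcN J S U V) P) (hI : ∀ I, IsIdeal (LcN J S U V) I → ∀ X ∈ I, θ X ∈ I)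
    (N : ℕ) : ∀ {f : Fin n → ℚ}, f ∈ Y → FunP P f →
    (fun k => f ((σ⁻¹ ^ N) k)) ∈ Y ∧ FunP P (fun k => f ((σ⁻¹ ^ N) k)) := by
  induction N with
  | zero =>
    intro f hf hfP
    exact ⟨hf, hfP⟩
  | succ N ih =>
    intro f hf hfP
    obtain ⟨h1, h2⟩ := ih hf hfP
    have h3 := f7_funP h hθ hP hc hI h1 h2
    have e1 : (fun k => f ((σ⁻¹ ^ (N + 1)) k)) = fun k => (fun k => f ((σ⁻¹ ^ N) k)) (σ⁻¹ k) := by
      funext k
      rw [pow_succ, Equiv.Perm.mul_apply]
    rw [e1]
    exact h3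

theorem f7_half (h : LocN ct J S 𝓗 e x q U V d Y) {τ : K ≃+* K}
    {θ : Module.End K (Fin n → K) ≃+* Module.End K (Fin n → K)} {σ : Equiv.Perm (Fin n)}
    (hθ : ThetaN (LcN J S U V) θ τ σ) {P : Module.End ℚ Y} (hP : Sp P)
    (hc : Comp (LcN J S U V) P) (hI : ∀ I, IsIdeal (LcN J S U V) I → ∀ X ∈ I, θ X ∈ I)
    (k k' : Fin n) : cz P k k' ↔ cz P (σ k) (σ k') := by
  have hne : Nonempty (Fin n) := ⟨⟨0, h.pos⟩⟩
  have hY0 : ∀ f ∈ Y, ∑ k, f k = 0 := by
    intro f hf
    rw [← h.yo] at hf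
    exact Yo_sum h.ts.cmp hf
  have hPf : ∀ f : Y, FunP P (P f : Fin n → ℚ) := by
    intro f a b hab
    exact hab f
  have hfix : ∀ f : Y, FunP P (f : Fin n → ℚ) → P f = f := fun f hf => (FunP_iff hP hY0 f).1 hf
  constructor
  · intro hk f
    -- `P f ∘ σ` is in `Y` and depends only on the first coordinate
    have h1 : ∀ k, (P f : Fin n → ℚ) (σ k) = (P f : Fin n → ℚ) ((σ⁻¹ ^ (orderOf σ - 1)) k) := by
      intro k
      have h2 : σ⁻¹ ^ (orderOf σ - 1) = σ := by
        have h3 : σ⁻¹ ^ (orderOf σ - 1) * σ⁻¹ = 1 := by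
          rw [← pow_succ, Nat.sub_add_cancel (orderOf_pos σ), inv_pow, pow_orderOf_eq_one, inv_one]
        exact mul_inv_eq_one.1 h3
      rw [h2]
    rw [h1 k, h1 k']
    obtain ⟨h4, h5⟩ := f7_funP_pow h hθ hP hc hI (orderOf σ - 1) (P f).2 (hPf f)
    exact h5 k k' hk
  · intro hk f
    obtain ⟨h4, h5⟩ := f7_funP h hθ hP hc hI (P f).2 (hPf f)
    have h6 := h5 (σ k) (σ k') hk
    have e : ∀ k, σ⁻¹ (σ k) = k := fun k => σ.symm_apply_apply k
    change (P f : Fin n → ℚ) (σ⁻¹ (σ k)) = (P f : Fin n → ℚ) (σ⁻¹ (σ k')) at h6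
    rw [e, e] at h6
    exact h6

/-- PROOF. `Y₁ = {f ∈ Y | FunP P f}` is the range of `P` (`FunP_iff`), so `cz P k k'` iff `f k = f k'` for all `f ∈ Y₁`.  `exists_fam`, `exists_decomp`: `f ∈ Y₁` is the sum of the `g j` with `InP P (I j)`
(see `dq_AZ`), `θ (dq (g j)) = dq (g j ∘ σ⁻¹) ∈ I j`, so `g j ∘ σ⁻¹` is in `Y` and depends only on the first coordinate.  So `f ↦ f ∘ σ⁻¹` maps `Y₁` into `Y₁`; it is injective and `Y₁` is finite
dimensional, so it is bijective and `f ∘ σ ∈ Y₁`, too.  This gives the first half of `StabP`; the second half is the same for `1 - P` (`Comp.compl`, `Sp.compl`). -/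
theorem stab_of_theta (h : LocN ct J S 𝓗 e x q U V d Y) {τ : K ≃+* K}
    {θ : Module.End K (Fin n → K) ≃+* Module.End K (Fin n → K)} {σ : Equiv.Perm (Fin n)}
    (hθ : ThetaN (LcN J S U V) θ τ σ) {P : Module.End ℚ Y} (hP : Sp P)
    (hc : Comp (LcN J S U V) P) (hI : ∀ I, IsIdeal (LcN J S U V) I → ∀ X ∈ I, θ X ∈ I) :
    StabP P σ := by
  have hne : Nonempty (Fin n) := ⟨⟨0, h.pos⟩⟩
  exact ⟨f7_half h hθ hP hc hI, f7_half h hθ hP.compl hc.compl hI⟩

end Pool.Agent.H76Z
end
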