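import Pool.Agent.Lib.H1M.RC.M035
import Pool.Agent.Lib.H1M.RC.M041
import Pool.Agent.Lib.H1M.RC.M043
import Pool.Agent.Lib.H1M.RC.M049
import Pool.Agent.Lib.H1M.RC.M051
import Pool.Agent.Lib.H1M.RC.M053
import Pool.Agent.Lib.H1M.RC.M058
import Pool.Agent.Lib.H1M.RC.M059
import Pool.Agent.Lib.H1M.RC.M060

/-! Merged copies (to shorten the build) of Lib.H25U.FullU, Lib.H25U.FullV, Lib.H76W.Big, Lib.H76Y.BAL, Lib.H25Y.FullO, Lib.H86L.L6, Lib.H86L.L7, Lib.H86L.M1. -/

-- from Lib.H25U.FullU
section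

/-!
# FullU: one block, no form, given a function with two values
-/

set_option autoImplicit false
set_option linter.unusedSectionVars false
namespace Pool.Agent.H25U
open Pool.Agent.H76P Pool.Agent.H76V Pool.Agent.H76Q
open Module Matrix Pool.Agent.H53Toric
open Pool.Agent.H76T (IsIdeal Fam)
open Pool.Agent.H76Y (NsL)

variable {κ : Type*} {K : Type*} [Field K] [CharZero K] [Fintype κ] [DecidableEq κ]
  {L : Submodule K (Module.End K (κ → K))} [IsAlgClosed K] [Nonempty κ]
  {Y : Submodule ℚ (κ → ℚ)}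

/-- One ideal, no form, an element of degree two. -/
theorem full_y (h : CmpN L) (hns : NsL L) {I : Fin 1 → Submodule K (Module.End K (κ → K))} (hF : Fam L I)
    {y : Module.End K (κ → K)} (hy : y ∈ L) (hy0 : y ≠ 0) {c : K}
    (hc : (y + c • 1) * (y + c • 1) = 1)
    (two : c = 0 → ∀ k : ℕ, 4 ≤ k → Even k → Fintype.card κ ≠ 2 ^ k)
    (bin : c ≠ 0 → ∀ N k : ℕ, 2 ≤ k → k + 2 ≤ N → Fintype.card κ = N.choose k →
      finrank K (LinearMap.range ((1 / 2 : K) • (1 + (y + c • 1)))) ≠ (N - 1).choose k) :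
    ∀ X : Module.End K (κ → K), LinearMap.trace K (κ → K) X = 0 → X ∈ L := by
  by_cases hc0 : c = 0
  · have hcore := h.coreN hF
    have hy2 : y * y = 1 := by
      rw [hc0, zero_smul, add_zero] at hc
      exact hc
    obtain ⟨s', e, f, F, hr⟩ := H86N.coreNS hcore hns hy hy2 (Or.inr fun k hk hk2 => by
      rw [Module.finrank_fintype_fun_eq_card]
      exact two hc0 k hk hk2)
    exact fun X hX => H86N.full_sl hcore F hr hns hX
  · exact full_unb h hF hy hy0 hc0 hc (bin hc0)

/-- **One block, no form, given a function with two values.** Let `ε` be a function with the values `1`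
and `-1`, not constant, `ε - c ∈ Y`, and `s` the number of the points where `ε` is `1`.  Then the component
is full unless `2 s = n = 2 ^ k` with `k ≥ 4` even, or `2 s ≠ n`, `n = C(N, k)`, `2 ≤ k ≤ N - 2` and `s` is
`C(N - 1, k - 1)` or `C(N - 1, k)`. -/
theorem full_of_oneU (h : TM L) (hns : NsL L) (hY : Yo L = Y) (h1 : IsBlock (1 : Module.End ℚ Y))
    {ε : κ → ℚ} (hε : ∀ k, ε k = 1 ∨ ε k = -1) (hne : ∃ a b, ε a ≠ ε b) {c : ℚ}
    (hc : (fun k => ε k - c) ∈ Y)
    (two : 2 * (Finset.univ.filter fun k => ε k = 1).card = Fintype.card κ →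
      ∀ k : ℕ, 4 ≤ k → Even k → Fintype.card κ ≠ 2 ^ k)
    (bin : 2 * (Finset.univ.filter fun k => ε k = 1).card ≠ Fintype.card κ →
      ∀ N k : ℕ, 2 ≤ k → k + 2 ≤ N → Fintype.card κ = N.choose k →
        (Finset.univ.filter fun k => ε k = 1).card ≠ (N - 1).choose (k - 1) ∧
        (Finset.univ.filter fun k => ε k = 1).card ≠ (N - 1).choose k) :
    ∀ X : Module.End K (κ → K), LinearMap.trace K (κ → K) X = 0 → X ∈ L := by
  classical
  obtain ⟨I, hF⟩ := one_fam h hns hY h1
  obtain ⟨s, hs⟩ : ∃ s, s = (Finset.univ.filter fun k => ε k = 1).card := ⟨_, rfl⟩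
  rw [← hs] at two bin
  have hsum : ∑ k, ε k = 2 * (s : ℚ) - Fintype.card κ := by
    have e1 : ∀ k, ε k = 2 * (if ε k = 1 then (1 : ℚ) else 0) - 1 := by
      intro k
      rcases hε k with h2 | h2
      · rw [if_pos h2, h2]
        norm_num
      · rw [if_neg (by rw [h2]; norm_num), h2]
        norm_num
    rw [Finset.sum_congr rfl fun k _ => e1 k, Finset.sum_sub_distrib, ← Finset.mul_sum, Finset.sum_boole,
      Finset.sum_const, Finset.card_univ, ← hs]
    simp
  have hYo : (fun k => ε k - c) ∈ Yo L := by rw [hY]; exact hc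
  have hcn : (Fintype.card κ : ℚ) * c = 2 * (s : ℚ) - Fintype.card κ := by
    have h2 := Yo_sum h.cmp hYo
    rw [Finset.sum_sub_distrib, hsum, Finset.sum_const, Finset.card_univ, nsmul_eq_mul, sub_eq_zero] at h2
    exact h2.symm
  have hcard : (Fintype.card κ : ℚ) ≠ 0 := by exact_mod_cast Fintype.card_ne_zero
  have hc0 : c = 0 ↔ 2 * s = Fintype.card κ := by
    constructor
    · intro h2
      rw [h2, mul_zero] at hcn
      have h3 : (2 * (s : ℚ)) = Fintype.card κ := (sub_eq_zero.1 hcn.symm)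
      exact_mod_cast h3
    · intro h2
      have h3 : (2 * (s : ℚ)) = Fintype.card κ := by exact_mod_cast h2
      rw [h3, sub_self] at hcn
      exact (mul_eq_zero.1 hcn).resolve_left hcard
  have hyL : (dq (fun k => ε k - c) : Module.End K (κ → K)) ∈ L := Yo_mem hYo
  have hshift : (dq (fun k => ε k - c) : Module.End K (κ → K)) + (c : K) • 1 = dq ε := by
    unfold dq
    rw [← dg_one, ← dg_smul, ← dg_add]
    congr 1
    funext a
    rw [Pi.add_apply, Pi.smul_apply, Pi.one_apply, smul_eq_mul, mul_one]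
    push_cast
    ring
  have hy0 : (dq (fun k => ε k - c) : Module.End K (κ → K)) ≠ 0 := by
    intro h0
    obtain ⟨a, b, hab⟩ := hne
    have h2 : (fun k => ε k - c) = 0 := dq_inj (K := K) (by rw [h0, t13_zero])
    have ha := congrFun h2 a
    have hb := congrFun h2 b
    simp only [Pi.zero_apply, sub_eq_zero] at ha hb
    exact hab (ha.trans hb.symm)
  have hyy : ((dq (fun k => ε k - c) : Module.End K (κ → K)) + (c : K) • 1) *
      (dq (fun k => ε k - c) + (c : K) • 1) = 1 := by
    rw [hshift]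
    exact dq_sq hε
  have hrank : finrank K (LinearMap.range ((1 / 2 : K) • (1 + ((dq (fun k => ε k - c) : Module.End K (κ → K)) +
      (c : K) • 1)))) = s := by
    have h2 := eig_dim (K := K) hyy (one_mul (1 : K))
    rw [← rank_eig hyy, one_smul, hshift] at h2
    rw [hshift]
    have h3 : LinearMap.trace K (κ → K) ((1 / 2 : K) • (1 + (dq ε : Module.End K (κ → K)))) = (s : K) := by
      rw [map_smul, map_add, LinearMap.trace_one, Module.finrank_fintype_fun_eq_card]
      unfold dq
      rw [dg_trace]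
      have h4 : ∑ a, ((ε a : ℚ) : K) = ((∑ a, ε a : ℚ) : K) := by push_cast; rfl
      rw [h4, hsum, smul_eq_mul]
      push_cast
      ring
    rw [h3] at h2
    exact_mod_cast h2
  refine full_y h.cmp hns hF hyL hy0 hyy (fun h2 => two (hc0.1 ?_)) fun h2 N k hk hN hNk => ?_
  · exact_mod_cast h2
  · rw [hrank]
    refine (bin (fun h3 => h2 ?_) N k hk hN hNk).2
    rw [hc0.2 h3, Rat.cast_zero]

end Pool.Agent.H25U
end

-- from Lib.H25U.FullV
section

/-!
# FullV: one block, no form, the exceptional case is rigid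
-/

set_option autoImplicit false
set_option linter.unusedSectionVars false
namespace Pool.Agent.H25U
open Pool.Agent.H76P Pool.Agent.H76V Pool.Agent.H76Q
open Module Matrix Pool.Agent.H53Toric
open Pool.Agent.H76T (IsIdeal Fam)
open Pool.Agent.H76Y (NsL)

variable {κ : Type*} {K : Type*} [Field K] [CharZero K] [Fintype κ] [DecidableEq κ]
  {L : Submodule K (Module.End K (κ → K))} [IsAlgClosed K] [Nonempty κ]
  {Y : Submodule ℚ (κ → ℚ)}

/-- A function with two values in the configuration gives an involution of `L` modulo scalars. -/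
theorem inv_of_eps (hY : Yo L = Y) {ε : κ → ℚ} (hε : ∀ k, ε k = 1 ∨ ε k = -1) (hne : ∃ a b, ε a ≠ ε b) {c : ℚ}
    (hc : (fun k => ε k - c) ∈ Y) :
    InL L (dq ε : Module.End K (κ → K)) ∧ (dq ε : Module.End K (κ → K)) * dq ε = 1 ∧
      finrank K (H49M.eig (dq ε : Module.End K (κ → K)) 1) = (Finset.univ.filter fun k => ε k = 1).card ∧
      finrank K (H49M.eig (dq ε : Module.End K (κ → K)) (-1)) =
        Fintype.card κ - (Finset.univ.filter fun k => ε k = 1).card := by
  classical
  have hYo : (fun k => ε k - c) ∈ Yo L := by rw [hY]; exact hc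
  have hyL : (dq (fun k => ε k - c) : Module.End K (κ → K)) ∈ L := Yo_mem hYo
  have hsq : (dq ε : Module.End K (κ → K)) * dq ε = 1 := dq_sq hε
  have hshift : (dq ε : Module.End K (κ → K)) + (-(c : K)) • 1 = dq (fun k => ε k - c) := by
    unfold dq
    rw [← dg_one, ← dg_smul, ← dg_add]
    congr 1
    funext a
    rw [Pi.add_apply, Pi.smul_apply, Pi.one_apply, smul_eq_mul, mul_one]
    push_cast
    ring
  have hone : ∀ t : ℚ, (dq (fun _ : κ => t) : Module.End K (κ → K)) = (t : K) • 1 := by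
    intro t
    unfold dq
    rw [← dg_one, ← dg_smul]
    congr 1
    funext a
    simp
  have hconst : ∀ t : ℚ, (dq ε : Module.End K (κ → K)) ≠ (t : K) • 1 := by
    intro t h0
    rw [← hone] at h0
    obtain ⟨a, b, hab⟩ := hne
    have h1 := dq_inj (K := K) h0
    exact hab (by rw [congrFun h1 a, congrFun h1 b])
  have hsum : ∑ k, ε k = 2 * ((Finset.univ.filter fun k => ε k = 1).card : ℚ) - Fintype.card κ := by
    have e1 : ∀ k, ε k = 2 * (if ε k = 1 then (1 : ℚ) else 0) - 1 := by
      intro k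
      rcases hε k with h2 | h2
      · rw [if_pos h2, h2]
        norm_num
      · rw [if_neg (by rw [h2]; norm_num), h2]
        norm_num
    rw [Finset.sum_congr rfl fun k _ => e1 k, Finset.sum_sub_distrib, ← Finset.mul_sum, Finset.sum_boole,
      Finset.sum_const, Finset.card_univ]
    simp
  have hd1 : finrank K (H49M.eig (dq ε : Module.End K (κ → K)) 1) =
      (Finset.univ.filter fun k => ε k = 1).card := by
    have h2 := eig_dim (K := K) hsq (one_mul (1 : K))
    have h3 : LinearMap.trace K (κ → K) ((1 / 2 : K) • (1 + (dq ε : Module.End K (κ → K)))) =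
        ((Finset.univ.filter fun k => ε k = 1).card : K) := by
      rw [map_smul, map_add, LinearMap.trace_one, Module.finrank_fintype_fun_eq_card]
      unfold dq
      rw [dg_trace]
      have h4 : ∑ a, ((ε a : ℚ) : K) = ((∑ a, ε a : ℚ) : K) := by push_cast; rfl
      rw [h4, hsum, smul_eq_mul]
      push_cast
      ring
    rw [one_smul, h3] at h2
    exact_mod_cast h2
  refine ⟨⟨⟨-(c : K), by rw [hshift]; exact hyL⟩, ?_, ?_⟩, hsq, hd1, ?_⟩
  · have := hconst 1
    rwa [Rat.cast_one, one_smul] at this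
  · intro h0
    apply hconst (-1)
    rw [h0]
    push_cast
    module
  · have h5 := K5_sum (K := K) hsq
    rw [Module.finrank_fintype_fun_eq_card, hd1] at h5
    omega

/-- **One block, no form, given a function with two values with different multiplicities: the component is
full, or an exterior power, and then all functions with two values of the configuration have the
multiplicities of the exterior power.** -/
theorem rigid_of_oneU (h : TM L) (hns : NsL L) (hY : Yo L = Y) (h1 : IsBlock (1 : Module.End ℚ Y))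
    {ε : κ → ℚ} (hε : ∀ k, ε k = 1 ∨ ε k = -1) (hne : ∃ a b, ε a ≠ ε b) {c : ℚ}
    (hc : (fun k => ε k - c) ∈ Y)
    (hu : 2 * (Finset.univ.filter fun k => ε k = 1).card ≠ Fintype.card κ) :
    (∀ X : Module.End K (κ → K), LinearMap.trace K (κ → K) X = 0 → X ∈ L) ∨
    ∃ N k : ℕ, 2 ≤ k ∧ k + 2 ≤ N ∧ Fintype.card κ = N.choose k ∧
      ∀ (ε' : κ → ℚ), (∀ k, ε' k = 1 ∨ ε' k = -1) → (∃ a b, ε' a ≠ ε' b) → ∀ c' : ℚ,
        (fun k => ε' k - c') ∈ Y →
        (Finset.univ.filter fun k => ε' k = 1).card = (N - 1).choose k ∨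
        (Finset.univ.filter fun k => ε' k = 1).card = (N - 1).choose (k - 1) := by
  classical
  obtain ⟨I, hF⟩ := one_fam h hns hY h1
  have hcore := h.cmp.coreN hF
  obtain ⟨g1, g2, g3, g4⟩ := inv_of_eps (K := K) hY hε hne hc
  have hle : (Finset.univ.filter fun k => ε k = 1).card ≤ Fintype.card κ := Finset.card_le_univ _
  rcases coreV hcore g1 g2 (by rw [g3, g4]; omega) with h2 | ⟨n, k, hk, hkn, h3, h4⟩
  · exact Or.inl h2
  · right
    rw [Module.finrank_fintype_fun_eq_card] at h3
    refine ⟨n + 2, k, hk, by omega, h3, fun ε' hε' hne' c' hc' => ?_⟩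
    obtain ⟨f1, f2, f3, -⟩ := inv_of_eps (K := K) hY hε' hne' hc'
    rcases h4 _ f1 f2 with ⟨h5, -⟩ | ⟨h5, -⟩
    · exact Or.inl (f3.symm.trans h5)
    · exact Or.inr (f3.symm.trans h5)


end Pool.Agent.H25U
end

-- from Lib.H76W.Big
section

/-!
# the numbers of points of the blocks
-/

set_option autoImplicit false
set_option linter.unusedSectionVars false
namespace Pool.Agent.H76W
open Module Matrix Pool.Agent.H53Toric Pool.Agent.H76P Pool.Agent.H76Q

section
variable {κ : Type*} [Fintype κ] {V : Type*} [AddCommGroup V] [Module ℚ V] {pt : κ → V}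

/-- An atom is not the product of two configurations of two points. -/
theorem atom_four {q : Module.End ℚ V} (hq : Atom pt q) {w₁ w₂ : V} (h1 : q w₁ = w₁) (h2 : q w₂ = w₂)
    (hw1 : w₁ ≠ 0) (hw2 : w₂ ≠ 0) (l : V →ₗ[ℚ] ℚ) (l1 : l w₁ = 1) (l2 : l w₂ = 0)
    (hS : ∀ a, q (pt a) = w₁ + w₂ ∨ q (pt a) = w₁ - w₂ ∨ q (pt a) = -w₁ + w₂ ∨ q (pt a) = -w₁ - w₂)
    (hS' : ∀ x y : ℚ, (x = 1 ∨ x = -1) → (y = 1 ∨ y = -1) → ∃ a, q (pt a) = x • w₁ + y • w₂) : False := by
  classical
  obtain ⟨hsp, hq0, hmin⟩ := hq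
  obtain ⟨p, hp⟩ : ∃ p : Module.End ℚ V, ∀ x, p x = l (q x) • w₁ :=
    ⟨(l.comp q).smulRight w₁, fun x => rfl⟩
  have hqq : ∀ x, q (q x) = q x := fun x => congrArg (fun f : Module.End ℚ V => f x) hsp.1
  have hpw1 : p w₁ = w₁ := by rw [hp, h1, l1, one_smul]
  have hpw2 : p w₂ = 0 := by rw [hp, h2, l2, zero_smul]
  have hval : ∀ a, ∃ x y : ℚ, (x = 1 ∨ x = -1) ∧ (y = 1 ∨ y = -1) ∧ q (pt a) = x • w₁ + y • w₂ := by
    intro a
    rcases hS a with h | h | h | h
    · exact ⟨1, 1, Or.inl rfl, Or.inl rfl, by rw [h, one_smul, one_smul]⟩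
    · exact ⟨1, -1, Or.inl rfl, Or.inr rfl, by rw [h]; module⟩
    · exact ⟨-1, 1, Or.inr rfl, Or.inl rfl, by rw [h]; module⟩
    · exact ⟨-1, -1, Or.inr rfl, Or.inr rfl, by rw [h]; module⟩
  have hsplit : Spl pt p := by
    refine ⟨?_, fun a b => ?_⟩
    · ext x
      rw [Module.End.mul_apply, hp (p x), hp x, map_smul, map_smul, h1, l1, smul_eq_mul, mul_one]
    · obtain ⟨x, y, hx, hy, hxy⟩ := hval a
      obtain ⟨x', y', hx', hy', hxy'⟩ := hval b
      obtain ⟨d, hd⟩ := hS' x' y hx' hy
      obtain ⟨c, hc⟩ := hsp.2 a d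
      refine ⟨c, ?_⟩
      rw [hc, hp, map_sub, map_sub, hd, hxy, hxy', map_sub, map_add, map_add, map_smul, map_smul,
        map_smul, map_smul, l1, l2]
      simp only [smul_eq_mul]
      module
  rcases hmin p hsplit (by
    ext x
    rw [Module.End.mul_apply, hp, hp, hqq]) with h | h
  · apply hw1
    rw [← hpw1, h, LinearMap.zero_apply]
  · apply hw2
    rw [← h2, ← h, hpw2]

end

section
variable {κ : Type*} [Fintype κ] [DecidableEq κ] {Y : Submodule ℚ (κ → ℚ)} {P : Module.End ℚ Y}

/-- A symmetric atom with a function with two values has not three, four or five points. -/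
theorem atom_six [Nonempty κ] (hP : Atom (ptS Y) P.dualMap) (bar : Equiv.Perm κ)
    (hbb : ∀ k, bar (bar k) = k) (hbar : ∀ f ∈ Y, ∀ k, f (bar k) = -f k) {f : Y} (hf : P f = f) (hf0 : f ≠ 0)
    {c : ℚ} (hf2 : ∀ k, (f : κ → ℚ) k = c + 1 ∨ (f : κ → ℚ) k = c - 1) (h3 : 3 ≤ nz P) : 6 ≤ nz P := by
  classical
  have hfb : ∀ k, (f : κ → ℚ) (bar k) = -(f : κ → ℚ) k := hbar f f.2
  have hc : c = 0 := by
    by_contra hc
    apply hf0
    apply Subtype.ext
    funext k
    show (f : κ → ℚ) k = 0
    have h1 := hf2 k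
    have h2 := hf2 (bar k)
    rw [hfb] at h2
    rcases h1 with h1 | h1 <;> rcases h2 with h2 | h2
    · linarith
    · exact absurd (by linarith) hc
    · exact absurd (by linarith) hc
    · linarith
  have hpm : ∀ k, (f : κ → ℚ) k = 1 ∨ (f : κ → ℚ) k = -1 := by
    intro k
    rcases hf2 k with h | h
    · left; rw [h, hc]; norm_num
    · right; rw [h, hc]; norm_num
  have hcz : ∀ k k', cz P k k' → (f : κ → ℚ) k = (f : κ → ℚ) k' := by
    intro k k' h
    have := h f
    rwa [hf] at this
  have heven : Even (nz P) := by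
    refine nz_even bar hbb (fun k k' h g => ?_) fun k h => ?_
    · rw [hbar _ (P g).2, hbar _ (P g).2, h g]
    · have h1 := hcz _ _ h
      rw [hfb] at h1
      rcases hpm k with h2 | h2 <;> rw [h2] at h1 <;> norm_num at h1
  by_contra hcon
  push Not at hcon
  have h4 : nz P = 4 := by
    obtain ⟨r, hr⟩ := heven
    omega
  -- the four points
  obtain ⟨v, hv⟩ : ∃ v : κ → Module.Dual ℚ Y, ∀ k, v k = P.dualMap (ptS Y k) := ⟨_, fun _ => rfl⟩
  have hvf : ∀ k (g : Y), v k g = (P g : κ → ℚ) k := fun k g => by rw [hv]; rfl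
  have hvff : ∀ k, v k f = (f : κ → ℚ) k := fun k => by rw [hvf, hf]
  have hvb : ∀ k, v (bar k) = -v k := by
    intro k
    ext g
    rw [hvf, LinearMap.neg_apply, hvf, hbar _ (P g).2]
  have hvq : ∀ k, P.dualMap (v k) = v k := by
    intro k
    rw [hv]
    exact congrArg (fun q : Module.End ℚ (Module.Dual ℚ Y) => q (ptS Y k)) hP.1.1
  have hcard : (Finset.univ.image v).card = 4 := by
    have h5 := nz_eq P
    rw [h4] at h5
    rw [h5]
    unfold cnt
    congr 1
    ext x
    simp only [Finset.mem_image, hv]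
  obtain ⟨k₀⟩ := ‹Nonempty κ›
  -- another point which is not `± v k₀`
  obtain ⟨k₁, hk₁, hk₁'⟩ : ∃ k₁, v k₁ ≠ v k₀ ∧ v k₁ ≠ -v k₀ := by
    by_contra hno
    push Not at hno
    have h5 : Finset.univ.image v ⊆ {v k₀, -v k₀} := by
      intro x hx
      obtain ⟨k, -, rfl⟩ := Finset.mem_image.1 hx
      rw [Finset.mem_insert, Finset.mem_singleton]
      by_cases h6 : v k = v k₀
      · exact Or.inl h6
      · exact Or.inr (hno k h6)
    have h6 := Finset.card_le_card h5
    have h7 := Finset.card_le_two (a := v k₀) (b := -v k₀)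
    omega
  -- all points
  have hne0 : ∀ k, v k ≠ -v k := by
    intro k h
    have h5 := congrArg (fun φ : Module.Dual ℚ Y => φ f) h
    simp only [LinearMap.neg_apply] at h5
    rw [hvff] at h5
    rcases hpm k with h6 | h6 <;> rw [h6] at h5 <;> norm_num at h5
  have hall : ∀ k, v k = v k₀ ∨ v k = -v k₀ ∨ v k = v k₁ ∨ v k = -v k₁ := by
    have h5 : ({v k₀, -v k₀, v k₁, -v k₁} : Finset (Module.Dual ℚ Y)) ⊆ Finset.univ.image v := by
      intro x hx
      simp only [Finset.mem_insert, Finset.mem_singleton] at hx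
      rw [Finset.mem_image]
      rcases hx with rfl | rfl | rfl | rfl
      · exact ⟨k₀, Finset.mem_univ _, rfl⟩
      · exact ⟨bar k₀, Finset.mem_univ _, hvb k₀⟩
      · exact ⟨k₁, Finset.mem_univ _, rfl⟩
      · exact ⟨bar k₁, Finset.mem_univ _, hvb k₁⟩
    have h6 : ({v k₀, -v k₀, v k₁, -v k₁} : Finset (Module.Dual ℚ Y)).card = 4 := by
      rw [Finset.card_insert_of_notMem, Finset.card_insert_of_notMem, Finset.card_insert_of_notMem,
        Finset.card_singleton]
      · rw [Finset.mem_singleton]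
        exact hne0 k₁
      · simp only [Finset.mem_insert, Finset.mem_singleton, not_or]
        exact ⟨fun h => hk₁' h.symm, fun h => hk₁ (neg_injective h).symm⟩
      · simp only [Finset.mem_insert, Finset.mem_singleton, not_or]
        exact ⟨hne0 k₀, fun h => hk₁ h.symm, fun h => hk₁' (by rw [h, neg_neg])⟩
    have h7 : ({v k₀, -v k₀, v k₁, -v k₁} : Finset (Module.Dual ℚ Y)) = Finset.univ.image v :=
      Finset.eq_of_subset_of_card_le h5 (by rw [h6, hcard])
    intro k
    have h8 : v k ∈ Finset.univ.image v := Finset.mem_image_of_mem v (Finset.mem_univ k)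
    rw [← h7] at h8
    simpa only [Finset.mem_insert, Finset.mem_singleton] using h8
  -- the two vectors
  obtain ⟨w₁, hw₁⟩ : ∃ w₁, w₁ = (1 / 2 : ℚ) • (v k₀ + v k₁) := ⟨_, rfl⟩
  obtain ⟨w₂, hw₂⟩ : ∃ w₂, w₂ = (1 / 2 : ℚ) • (v k₀ - v k₁) := ⟨_, rfl⟩
  have e0 : v k₀ = w₁ + w₂ := by rw [hw₁, hw₂]; module
  have e1 : v k₁ = w₁ - w₂ := by rw [hw₁, hw₂]; module
  have hw1 : w₁ ≠ 0 := by
    intro h
    apply hk₁'
    rw [e0, e1, h]
    module
  have hw2 : w₂ ≠ 0 := by
    intro h
    apply hk₁
    rw [e0, e1, h]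
    module
  -- a functional with `l w₁ = 1`, `l w₂ = 0`
  obtain ⟨g, hg1, hg2⟩ : ∃ g : Y, w₁ g ≠ 0 ∧ w₂ g = 0 := by
    by_contra hno
    push Not at hno
    -- `ker w₂ ≤ ker w₁`, so `w₁` is a multiple of `w₂`
    have h5 : LinearMap.ker w₂ ≤ LinearMap.ker w₁ := by
      intro g hg
      rw [LinearMap.mem_ker] at hg ⊢
      by_contra h6
      exact hno g h6 hg
    obtain ⟨t, ht⟩ : ∃ t : ℚ, w₁ = t • w₂ := by
      have h7 : w₁ ∈ Submodule.span ℚ (Set.range fun _ : Unit => w₂) :=
        mem_span_of_iInf_ker_le_ker (by rw [iInf_const]; exact h5)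
      rw [Set.range_const] at h7
      obtain ⟨t, ht⟩ := Submodule.mem_span_singleton.1 h7
      exact ⟨t, ht.symm⟩
    have h6 : (f : κ → ℚ) k₀ = (t + 1) * w₂ f := by
      rw [← hvff, e0, ht, LinearMap.add_apply, LinearMap.smul_apply, smul_eq_mul]
      ring
    have h7 : (f : κ → ℚ) k₁ = (t - 1) * w₂ f := by
      rw [← hvff, e1, ht, LinearMap.sub_apply, LinearMap.smul_apply, smul_eq_mul]
      ring
    have h8 : t ≠ 0 := by
      rintro rfl
      rw [zero_smul] at ht
      exact hw1 ht
    have h9 : w₂ f ≠ 0 := by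
      intro h
      rw [h, mul_zero] at h6
      rcases hpm k₀ with h10 | h10 <;> rw [h10] at h6 <;> norm_num at h6
    have h10 : (f : κ → ℚ) k₀ * (f : κ → ℚ) k₀ = 1 := by
      rcases hpm k₀ with h | h <;> rw [h] <;> norm_num
    have h11 : (f : κ → ℚ) k₁ * (f : κ → ℚ) k₁ = 1 := by
      rcases hpm k₁ with h | h <;> rw [h] <;> norm_num
    rw [h6] at h10
    rw [h7] at h11
    have h12 : 4 * t * (w₂ f * w₂ f) = 0 := by linear_combination h10 - h11
    rcases mul_eq_zero.1 h12 with h13 | h13
    · exact h8 (by linarith)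
    · exact h9 (mul_self_eq_zero.1 h13)
  refine atom_four (q := P.dualMap) hP (w₁ := w₁) (w₂ := w₂) ?_ ?_ hw1 hw2
    ((w₁ g)⁻¹ • LinearMap.applyₗ (R := ℚ) g) ?_ ?_ (fun a => ?_) fun x y hx hy => ?_
  · rw [hw₁, map_smul, map_add, hvq, hvq]
  · rw [hw₂, map_smul, map_sub, hvq, hvq]
  · rw [LinearMap.smul_apply, LinearMap.applyₗ_apply_apply, smul_eq_mul, inv_mul_cancel₀ hg1]
  · rw [LinearMap.smul_apply, LinearMap.applyₗ_apply_apply, hg2, smul_zero]
  · rw [← hv]
    rcases hall a with h | h | h | h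
    · left; rw [h, e0]
    · right; right; right; rw [h, e0]; module
    · right; left; rw [h, e1]
    · right; right; left; rw [h, e1]; module
  · rcases hx with rfl | rfl <;> rcases hy with rfl | rfl
    · exact ⟨k₀, by rw [← hv, e0]; module⟩
    · exact ⟨k₁, by rw [← hv, e1]; module⟩
    · exact ⟨bar k₁, by rw [← hv, hvb, e1]; module⟩
    · exact ⟨bar k₀, by rw [← hv, hvb, e0]; module⟩

/-- At most one block has two points. -/
theorem block_two [Nonempty κ] (h0 : ∀ f ∈ Y, ∑ k, f k = 0) (h8 : Fintype.card κ ≠ 8) {P P' : Module.End ℚ Y}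
    (hP : IsBlock P) (hP' : IsBlock P') (hn : ¬ (Atom (ptS Y) P.dualMap ∧ cnt (ptS Y) P.dualMap ≠ 2))
    (hn' : ¬ (Atom (ptS Y) P'.dualMap ∧ cnt (ptS Y) P'.dualMap ≠ 2)) : P = P' := by
  classical
  have hs := ptS_spans h0
  obtain ⟨s, hsm, hsum⟩ := atoms_sum hs
  have key : ∀ P : Module.End ℚ Y, IsBlock P → ¬ (Atom (ptS Y) P.dualMap ∧ cnt (ptS Y) P.dualMap ≠ 2) →
      P.dualMap = ∑ q ∈ s.filter fun q => cnt (ptS Y) q = 2, q := by
    intro P hP hn
    rcases hP with h | h | h
    · exact absurd h.1 h8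
    · exact absurd h.2 hn
    · exact spl_eq_sum hs h.2.1 s hsm hsum _ fun q hq => h.2.2.2 q ((hsm q).1 hq)
  exact dualMap_inj ((key P hP hn).trans (key P' hP' hn').symm)

end

end Pool.Agent.H76W
end

-- from Lib.H76Y.BAL
section

/-!
# balance is automatic for a component which is its own conjugate
-/

set_option autoImplicit false
set_option linter.unusedSectionVars false
namespace Pool.Agent.H76Y
open Module Matrix Polynomial Pool.Agent.H53Toric
open Pool.Agent.H76P Pool.Agent.H76Q
open Pool.Agent.H76U (cmp)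

variable {ι : Type*} [Fintype ι] [DecidableEq ι] {K : Type*} [Field K] [CharZero K]

theorem bal_aux {n : ℕ} {J e h : Matrix ι ι K} (hJ : IsUnit J.det) (hadj : eᵀ * J = J * e)
    (hh : h * h = h) (hhe : h * e = e * h) (hs : hᵀ * J + J * h = J)
    {P : Matrix ι (Fin n) K} {Q : Matrix (Fin n) ι K} (hPQ : e = P * Q) (hQP : Q * P = 1) :
    2 * (h * e).rank = n := by
  have h1 : (cmp P Q h).rank = (h * e).rank := EN.rank_cmp hPQ hQP hhe
  have hA : cmp P Q h * cmp P Q h = cmp P Q h := by
    rw [← Pool.Agent.H76U.cmp_mul hPQ hQP hhe, hh]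
  have hJb : IsUnit (Pᵀ * J * P).det := Pool.Agent.H76U.det_cmp hPQ hQP hadj hJ
  have h2 := Pool.Agent.H76U.cmp_sim hPQ hQP hadj hhe
  rw [hs] at h2
  obtain ⟨A, hAdef⟩ : ∃ A, A = cmp P Q h := ⟨_, rfl⟩
  obtain ⟨J', hJ'⟩ : ∃ J', J' = Pᵀ * J * P := ⟨_, rfl⟩
  rw [← hAdef] at h1 hA h2
  rw [← hJ'] at hJb h2
  have h3 : J'⁻¹ * Aᵀ * J' + A = 1 := by
    have h4 := congrArg (fun z => J'⁻¹ * z) h2
    simp only [Matrix.mul_add, ← Matrix.mul_assoc, Matrix.nonsing_inv_mul _ hJb, Matrix.one_mul] at h4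
    exact h4
  have h4 : 2 * A.trace = (n : K) := by
    have h5 := congrArg Matrix.trace h3
    rw [Matrix.trace_add, Matrix.mul_assoc, Matrix.trace_mul_comm, Matrix.mul_assoc,
      Matrix.mul_nonsing_inv _ hJb, Matrix.mul_one, Matrix.trace_transpose, Matrix.trace_one,
      Fintype.card_fin] at h5
    rw [two_mul]
    exact h5
  have h5 : A.trace = (A.rank : K) := by
    have h6 : phi A * phi A = phi A := by rw [← map_mul, hA]
    have h7 := trace_idem h6
    have h8 : LinearMap.trace K (Fin n → K) (phi A) = A.trace := Matrix.trace_toLin'_eq A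
    rw [h8] at h7
    exact h7
  rw [h5, h1] at h4
  exact_mod_cast h4

/-- If `J` is nondegenerate, `e` is an idempotent which is its own adjoint, and `h` is an idempotent
which commutes with `e` and has the adjoint `1 - h`, then `2 rank (h e) = rank e`. -/
theorem bal_self {J e h : Matrix ι ι K} (hJ : IsUnit J.det) (he : e * e = e) (hadj : eᵀ * J = J * e)
    (hh : h * h = h) (hhe : h * e = e * h) (hs : hᵀ * J + J * h = J) :
    2 * (h * e).rank = e.rank := by
  obtain ⟨P, Q, hPQ, hQP⟩ := Pool.Agent.H76U.idem_factor he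
  exact bal_aux hJ hadj hh hhe hs hPQ hQP

end Pool.Agent.H76Y
end

-- from Lib.H25Y.FullO
section

/-!
# FullO: one block and a symmetric form: the component is full
-/

set_option autoImplicit false
set_option linter.unusedSectionVars false
namespace Pool.Agent.H76Y
open Pool.Agent.H76P Pool.Agent.H76V Pool.Agent.H76Q
open Module Matrix Pool.Agent.H53Toric
open Pool.Agent.H76T (IsIdeal Fam)

section nil
variable {κ : Type*} [Fintype κ] [DecidableEq κ] {K : Type*} [Field K]
variable [CharZero K] {L : Submodule K (Module.End K (κ → K))}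
variable [IsAlgClosed K] [Nonempty κ] {m : ℕ} {I : Fin m → Submodule K (Module.End K (κ → K))}

/-- Every minimal ideal contains an element of square zero. -/
theorem CmpN.nil (h : CmpN L) (hF : Fam L I) (i : Fin m) : ∃ u ∈ I i, u ≠ 0 ∧ u * u = 0 := by
  obtain ⟨y, hy, hy2⟩ := h.inv_mem hF i
  have hyL := (hF.ideal i).1 hy
  obtain ⟨X, hX, hXy⟩ : ∃ X ∈ L, y * X ≠ X * y := by
    by_contra hcon
    push Not at hcon
    obtain ⟨c, hc⟩ := h.gen y (fun z hz _ => hcon z hz)
    have h1 : y = 0 := by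
      have h2 := h.tr y hyL
      rw [hc, map_smul, LinearMap.trace_one, smul_eq_mul, mul_eq_zero] at h2
      rcases h2 with h2 | h2
      · rw [hc, h2, zero_smul]
      · exact absurd h2 (by exact_mod_cast (finrank_pos (R := K) (M := κ → K)).ne')
    rw [h1, mul_zero] at hy2
    exact zero_ne_one hy2
  obtain ⟨Z, hZ⟩ : ∃ Z, Z = y * X - X * y := ⟨_, rfl⟩
  have hZ0 : Z ≠ 0 := by rw [hZ]; exact sub_ne_zero.2 hXy
  have hZI : Z ∈ I i := by
    have h1 := (hF.ideal i).2 X hX y hy
    have h2 : Z = -(X * y - y * X) := by rw [hZ]; abel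
    rw [h2]
    exact (I i).neg_mem h1
  have hZy : Z * y = -(y * Z) := by
    rw [hZ, mul_sub, sub_mul, ← mul_assoc, hy2, one_mul, mul_assoc X y y, hy2, mul_one]
    noncomm_ring
  have hW : y * Z - Z * y ∈ I i := (hF.ideal i).2 y hyL Z hZI
  -- the two components
  have key : ∀ ε : K, ε * ε = 1 → ((2 : K) • Z + ε • (y * Z - Z * y)) *
      ((2 : K) • Z + ε • (y * Z - Z * y)) = 0 := by
    intro ε hε
    have e1 : y * Z - Z * y = (2 : K) • (y * Z) := by
      rw [hZy, two_smul]; abel
    have e2 : y * Z * (y * Z) = -(Z * Z) := by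
      calc y * Z * (y * Z) = y * (Z * y) * Z := by noncomm_ring
        _ = -(y * y * Z * Z) := by rw [hZy, mn, nm]; noncomm_ring
        _ = _ := by rw [hy2, one_mul]
    have e3 : Z * (y * Z) = -(y * Z * Z) := by
      rw [← mul_assoc, hZy, nm]
    rw [e1, smul_smul, mul_add, add_mul, add_mul]
    simp only [smul_mul_assoc, mul_smul_comm, smul_smul]
    rw [e2, e3]
    have e4 : ε * 2 * (ε * 2) = 4 := by linear_combination 4 * hε
    rw [e4]
    module
  by_cases h1 : (2 : K) • Z + (1 : K) • (y * Z - Z * y) = 0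
  · refine ⟨(2 : K) • Z + (-1 : K) • (y * Z - Z * y), (I i).add_mem ((I i).smul_mem _ hZI)
      ((I i).smul_mem _ hW), ?_, key (-1) (by ring)⟩
    intro h2
    apply hZ0
    have h3 : (4 : K) • Z = 0 := by
      calc (4 : K) • Z = ((2 : K) • Z + (1 : K) • (y * Z - Z * y)) +
            ((2 : K) • Z + (-1 : K) • (y * Z - Z * y)) := by module
        _ = 0 := by rw [h1, h2, add_zero]
    exact (smul_eq_zero.1 h3).resolve_left (by norm_num)
  · exact ⟨_, (I i).add_mem ((I i).smul_mem _ hZI) ((I i).smul_mem _ hW), h1, key 1 (by ring)⟩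

/-- Every minimal ideal contains three independent elements. -/
theorem CmpN.three (h : CmpN L) (hF : Fam L I) (i : Fin m) : ∃ x : Fin 3 → Module.End K (κ → K),
    (∀ k, x k ∈ I i) ∧ ∀ c : Fin 3 → K, c 0 • x 0 + c 1 • x 1 + c 2 • x 2 = 0 → c = 0 := by
  obtain ⟨u, hu, hu0, hu2⟩ := h.nil hF i
  obtain ⟨X, hX, huX⟩ := h.partner hF hu hu2
  refine ⟨![u, X, u * X - X * u], ?_, ?_⟩
  · intro k
    fin_cases k
    · exact hu
    · exact hX
    · exact (hF.ideal i).2 u ((hF.ideal i).1 hu) X hX
  · intro c hc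
    have hc' : c 0 • u + c 1 • X + c 2 • (u * X - X * u) = 0 := hc
    have h1 : c 1 • u = 0 := by
      calc c 1 • u = u * (c 0 • u + c 1 • X + c 2 • (u * X - X * u)) * u := by
            have e1 : u * (c 0 • u + c 1 • X + c 2 • (u * X - X * u)) * u =
                c 0 • (u * u * u) + c 1 • (u * X * u) + c 2 • (u * u * X * u - u * X * (u * u)) := by
              simp only [mul_add, add_mul, mul_smul_comm, smul_mul_assoc, mul_sub, sub_mul, mul_assoc]
            rw [e1, hu2, huX]
            simp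
        _ = 0 := by rw [hc', mul_zero, zero_mul]
    have c1 : c 1 = 0 := (smul_eq_zero.1 h1).resolve_right hu0
    rw [c1, zero_smul, add_zero] at hc'
    have h2 : c 2 • u = 0 := by
      calc c 2 • u = -(u * (c 0 • u + c 2 • (u * X - X * u))) := by
            have e1 : u * (c 0 • u + c 2 • (u * X - X * u)) =
                c 0 • (u * u) + c 2 • (u * u * X - u * X * u) := by
              simp only [mul_add, mul_smul_comm, mul_sub, mul_assoc]
            rw [e1, hu2, huX]
            simp
        _ = 0 := by rw [hc', mul_zero, neg_zero]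
    have c2 : c 2 = 0 := (smul_eq_zero.1 h2).resolve_right hu0
    rw [c2, zero_smul, add_zero] at hc'
    have c0 : c 0 = 0 := (smul_eq_zero.1 hc').resolve_right hu0
    funext k
    fin_cases k
    · exact c0
    · exact c1
    · exact c2

/-- Two ideals: the dimension is at least six. -/
theorem CmpN.six (h : CmpN L) (hF : Fam L I) {i j : Fin m} (hij : i ≠ j) : 6 ≤ finrank K L := by
  obtain ⟨x, hx, hx0⟩ := h.three hF i
  obtain ⟨y, hy, hy0⟩ := h.three hF j
  let X : (Fin 3 → K) →ₗ[K] Module.End K (κ → K) :=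
    { toFun := fun c => c 0 • x 0 + c 1 • x 1 + c 2 • x 2
      map_add' := fun c d => by simp only [Pi.add_apply]; module
      map_smul' := fun t c => by simp only [Pi.smul_apply, smul_eq_mul, RingHom.id_apply]; module }
  let Y : (Fin 3 → K) →ₗ[K] Module.End K (κ → K) :=
    { toFun := fun c => c 0 • y 0 + c 1 • y 1 + c 2 • y 2
      map_add' := fun c d => by simp only [Pi.add_apply]; module
      map_smul' := fun t c => by simp only [Pi.smul_apply, smul_eq_mul, RingHom.id_apply]; module }
  have hX : ∀ c, X c ∈ I i := fun c =>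
    (I i).add_mem ((I i).add_mem ((I i).smul_mem _ (hx 0)) ((I i).smul_mem _ (hx 1))) ((I i).smul_mem _ (hx 2))
  have hY : ∀ c, Y c ∈ I j := fun c =>
    (I j).add_mem ((I j).add_mem ((I j).smul_mem _ (hy 0)) ((I j).smul_mem _ (hy 1))) ((I j).smul_mem _ (hy 2))
  let T : (Fin 3 → K) × (Fin 3 → K) →ₗ[K] L :=
    (X.coprod Y).codRestrict L fun p => by
      rw [LinearMap.coprod_apply]
      exact L.add_mem ((hF.ideal i).1 (hX _)) ((hF.ideal j).1 (hY _))
  have hT : ∀ p, ((T p : L) : Module.End K (κ → K)) = X p.1 + Y p.2 := fun p => by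
    show (X.coprod Y) p = _
    rw [LinearMap.coprod_apply]
  have hinj : Function.Injective T := by
    rw [injective_iff_map_eq_zero]
    rintro ⟨c, d⟩ hcd
    have h1 : X c + Y d = 0 := by
      rw [← hT (c, d), hcd]
      rfl
    have h2 : X c ∈ I j := by
      rw [eq_neg_of_add_eq_zero_left h1]
      exact (I j).neg_mem (hY d)
    have h3 : X c = 0 := Fam.disj hF hij (hX c) h2
    have h4 : Y d = 0 := by rw [h3, zero_add] at h1; exact h1
    rw [hx0 c h3, hy0 d h4]
    rfl
  have h1 := LinearMap.finrank_le_finrank_of_injective hinj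
  rw [Module.finrank_prod, Module.finrank_fin_fun] at h1
  exact h1

end nil

section so4
variable {κ : Type*} [Fintype κ] [DecidableEq κ] {K : Type*} [Field K] [CharZero K]

/-- The skew operators. -/
noncomputable def skS (J : Matrix κ κ K) : Submodule K (Module.End K (κ → K)) :=
  LinearMap.ker (adjE J + LinearMap.id)

theorem mem_skS {J : Matrix κ κ K} {X : Module.End K (κ → K)} : X ∈ skS J ↔ adjE J X = -X := by
  rw [skS, LinearMap.mem_ker, LinearMap.add_apply, LinearMap.id_apply]
  exact add_eq_zero_iff_eq_neg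

/-- In dimension four the skew operators for a symmetric form have dimension at most six. -/
theorem skS_six {J : Matrix κ κ K} (hJ : Jᵀ = J) (hdet : IsUnit J.det) (h4 : Fintype.card κ = 4) :
    finrank K (skS J) ≤ 6 := by
  classical
  have e : κ ≃ Fin 4 := Fintype.equivFinOfCardEq h4
  let T : Module.End K (κ → K) →ₗ[K] ({p : Fin 4 × Fin 4 // p.1 < p.2} → K) :=
    { toFun := fun X p => (J * (phi (ι := κ) (K := K)).symm X) (e.symm p.1.1) (e.symm p.1.2)
      map_add' := fun X Y => by
        funext p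
        rw [map_add, mul_add, Matrix.add_apply, Pi.add_apply]
      map_smul' := fun c X => by
        funext p
        rw [map_smul, mul_smul_comm, Matrix.smul_apply, Pi.smul_apply]
        rfl }
  have hinj : Function.Injective (T.domRestrict (skS J)) := by
    rw [injective_iff_map_eq_zero]
    rintro ⟨X, hX⟩ h0
    apply Subtype.ext
    show X = 0
    obtain ⟨x, rfl⟩ := (phi (ι := κ) (K := K)).surjective X
    have h1 := (skew_iff hdet x).1 (mem_skS.1 hX)
    have hA : (J * x)ᵀ = -(J * x) := by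
      rw [Matrix.transpose_mul, hJ]
      exact eq_neg_of_add_eq_zero_left h1
    have hA' : ∀ a b, (J * x) b a = -(J * x) a b := fun a b => congrFun (congrFun hA a) b
    have hT : ∀ i j : Fin 4, i < j → (J * x) (e.symm i) (e.symm j) = 0 := by
      intro i j hij
      have h2 := congrFun h0 ⟨(i, j), hij⟩
      have h3 : T (phi x) ⟨(i, j), hij⟩ = 0 := h2
      have h4 : T (phi x) ⟨(i, j), hij⟩ = (J * (phi (ι := κ) (K := K)).symm (phi x)) (e.symm i) (e.symm j) := rfl
      rw [h4, AlgEquiv.symm_apply_apply] at h3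
      exact h3
    have hA0 : J * x = 0 := by
      ext a b
      obtain ⟨i, rfl⟩ := e.symm.surjective a
      obtain ⟨j, rfl⟩ := e.symm.surjective b
      rcases lt_trichotomy i j with h2 | h2 | h2
      · exact hT i j h2
      · subst h2
        have h3 := hA' (e.symm i) (e.symm i)
        exact self_eq_neg.1 h3
      · rw [hA', hT j i h2, neg_zero]
        rfl
    have h5 : x = 0 := by
      calc x = J⁻¹ * (J * x) := by rw [← mul_assoc, Matrix.nonsing_inv_mul _ hdet, one_mul]
        _ = 0 := by rw [hA0, mul_zero]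
    rw [h5, map_zero]
  have h1 := LinearMap.finrank_le_finrank_of_injective hinj
  rw [Module.finrank_fintype_fun_eq_card] at h1
  have h2 : Fintype.card {p : Fin 4 × Fin 4 // p.1 < p.2} = 6 := by decide
  rw [h2] at h1
  exact h1

end so4

variable {κ : Type*} {K : Type*} [Field K] [CharZero K] [Fintype κ] [DecidableEq κ]
  {L : Submodule K (Module.End K (κ → K))} {J : Matrix κ κ K} [IsAlgClosed K] [Nonempty κ]
  {Y : Submodule ℚ (κ → ℚ)}

/-- **One block, symmetric form.** -/
theorem full_of_oneO (h : TM L) (hJ : Jᵀ = J) (hdet : IsUnit J.det) (hsk : ∀ X ∈ L, adjE J X = -X)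
    (hY : Yo L = Y) (h1 : Pool.Agent.H76Q.IsBlock (1 : Module.End ℚ Y))
    (two : ∀ k : ℕ, 3 ≤ k → Fintype.card κ ≠ 2 ^ k)
    (binom : ∀ k : ℕ, 4 ≤ k → Even k → Fintype.card κ ≠ k.centralBinom)
    {X : Module.End K (κ → K)} (hX : adjE J X = -X) : X ∈ L := by
  classical
  subst hY
  obtain ⟨m, I, hF⟩ := Pool.Agent.H76T.exists_fam h.cmp.lie h.cmp.irr h.cmp.tr
  rcases Nat.lt_or_ge m 2 with hm | hm
  · interval_cases m
    · have hL : L = ⊥ := by
        rw [← hF.sup]
        exact iSup_of_empty _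
      have h2 : ∀ y ∈ L, y * y = 1 → False := by
        intro y hy hy2
        rw [hL, Submodule.mem_bot] at hy
        rw [hy, mul_zero] at hy2
        exact zero_ne_one hy2
      obtain ⟨c, hc⟩ := h.cmp.gen X fun y hy hy2 => (h2 y hy hy2).elim
      have h3 : adjE J (1 : Module.End K (κ → K)) = 1 := by
        have h4 := adjE_phi J (1 : Matrix κ κ K)
        have h5 : phi (1 : Matrix κ κ K) = 1 := map_one _
        rw [Matrix.transpose_one, mul_one, Matrix.nonsing_inv_mul _ hdet, h5] at h4
        exact h4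
      rw [hc, map_smul, h3] at hX
      have h4 : (2 : K) • (c • (1 : Module.End K (κ → K))) = 0 := by
        rw [two_smul]
        nth_rw 1 [hX]
        exact neg_add_cancel _
      rw [hc, (smul_eq_zero.1 h4).resolve_left two_ne_zero]
      exact L.zero_mem
    · rcases CmpN.simpleO h.cmp hF hJ hdet hsk with h2 | ⟨n, hn, -, hn2, -⟩ | ⟨k, hk, hk2, hk3, -⟩
      · exact h2 X hX
      · exact absurd hn2 (two n hn)
      · exact absurd hk3 (binom k hk hk2)
  · have hs : Spans (pt L) := pt_spans h.cmp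
    have hij : (⟨0, by omega⟩ : Fin m) ≠ ⟨1, by omega⟩ := by
      intro e
      exact absurd (congrArg Fin.val e) (by norm_num)
    obtain ⟨i, hi⟩ : ∃ i : Fin m, i = ⟨0, by omega⟩ := ⟨_, rfl⟩
    obtain ⟨j, hj⟩ : ∃ j : Fin m, j = ⟨1, by omega⟩ := ⟨_, rfl⟩
    rw [← hi, ← hj] at hij
    -- an atom equal to one is impossible
    have caseA : Atom (pt L) (1 : Module.End ℚ (Module.Dual ℚ (Yo L))) → False := by
      intro hA
      obtain ⟨P, hP1, hP2, hP3, hPS⟩ := exists_proj h.cmp hF i
      have g1 : P.dualMap = 1 := by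
        rcases hA.2.2 P.dualMap hPS (mul_one _) with h2 | h2
        · exfalso
          obtain ⟨f, hf, hf0, hfi⟩ := h.exists_diag hF i
          have h3 : P = 0 := dualMap_inj (by rw [h2, dualMap_zero])
          have h4 := hP2 ⟨f, hf⟩ hfi
          rw [h3, LinearMap.zero_apply] at h4
          exact hf0 (congrArg Subtype.val h4).symm
        · exact h2
      have g2 : P = 1 := dualMap_inj (by rw [g1, dualMap_one])
      obtain ⟨f, hf, hf0, hfi⟩ := h.exists_diag hF j
      have h3 := hP3 j (Ne.symm hij) ⟨f, hf⟩ hfi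
      rw [g2, Module.End.one_apply] at h3
      exact hf0 (congrArg Subtype.val h3)
    rcases h1 with ⟨h8, hA⟩ | ⟨-, hA, hc⟩ | ⟨h8, hS, -, hat⟩
    · rw [dualMap_one] at hA
      exact (caseA hA).elim
    · rw [dualMap_one] at hA
      exact (caseA hA).elim
    · obtain ⟨s, hsm, hsum⟩ := atoms_sum hs
      have hcard : Fintype.card κ = 2 ^ s.card := by
        rw [card_prod hs h.pt_inj (s := s) (fun q hq => (hsm q).1 hq) hsum]
        rw [← Finset.prod_const]
        refine Finset.prod_congr rfl fun q hq => ?_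
        refine (hat q ((hsm q).1 hq)).1 ?_
        rw [dualMap_one, mul_one]
      obtain ⟨a, d, ha, hd, hV, ha2, hd2, -, -⟩ := h.cmp.dims hF (i := i) (j := j) hij
      rw [Module.finrank_fintype_fun_eq_card] at hV
      have hs3 : s.card < 3 := by
        by_contra hcon
        push Not at hcon
        exact two _ hcon hcard
      have h4 : 4 ∣ Fintype.card κ := by
        obtain ⟨a', rfl⟩ := ha2
        obtain ⟨d', rfl⟩ := hd2
        exact ⟨a' * d', by rw [hV]; ring⟩
      have hle : Fintype.card κ ≤ 4 := by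
        rw [hcard]
        calc 2 ^ s.card ≤ 2 ^ 2 := Nat.pow_le_pow_right (by norm_num) (by omega)
          _ = 4 := by norm_num
      have hpos : 0 < Fintype.card κ := Fintype.card_pos
      have hc4 : Fintype.card κ = 4 := by
        obtain ⟨c, hc⟩ := h4
        omega
      have hLS : L ≤ skS J := fun Z hZ => mem_skS.2 (hsk Z hZ)
      have h5 : L = skS J := Submodule.eq_of_le_of_finrank_le hLS
        ((skS_six hJ hdet hc4).trans (h.cmp.six hF hij))
      rw [h5]
      exact mem_skS.2 hX

end Pool.Agent.H76Y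
end

-- from Lib.H86L.L6
section

/-!
# L6: a frame for a given involution, symmetric forms
-/

set_option autoImplicit false
set_option linter.unusedSectionVars false
namespace Pool.Agent.H86L
open Module Polynomial Pool.Agent.H53Toric Pool.Agent.H49M Pool.Agent.H86N
open Pool.Agent.H86K (ext_aux AH bet bet_apply no_flip tset)

variable {K : Type*} [Field K] {V : Type*} [AddCommGroup V] [Module K V]

variable {L : Submodule K (Module.End K V)}

/-- A frame for the given involution. -/
theorem frame_atN [IsAlgClosed K] [CharZero K] [FiniteDimensional K V] [Nontrivial V]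
    (h : CoreN L) {y : Module.End K V} (hyg : y ∈ L) (hy2 : y * y = 1) :
    ∃ e f : Module.End K V, Frame L y e f := by
  have hS := A1_setup h hyg hy2
  obtain ⟨N₀, hN₀, hN₀0⟩ := Submodule.exists_mem_ne_zero_of_ne_bot (A2_ne h hyg hy2)
  obtain ⟨N₁, hN₁p, hN₁2, hN₁0, hext₁⟩ := ext_aux h.lie h.irr hS.tr y _ N₀ hN₀ (H86N.A2_pp hN₀ hN₀) rfl hN₀0
  have hN₁g := hN₁p.1
  have hyN := hN₁p.2.1
  have hNy' := hN₁p.2.2
  obtain ⟨X, hX, hNX⟩ := exists_partner h.lie h.irr hS.tr hN₁g hN₁2
  set M₁ := (1 / 4 : K) • ((1 - y) * X * (1 + y)) with hM₁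
  have hM₁g : M₁ ∈ L := L.smul_mem _ (h.lie.minus hyg hy2 hX)
  have hyM : y * M₁ = -M₁ := by
    rw [hM₁, mul_smul_comm, ← smul_neg]
    congr 1
    calc y * ((1 - y) * X * (1 + y)) = (y - y * y) * X * (1 + y) := by noncomm_ring
      _ = _ := by rw [hy2]; noncomm_ring
  have hMy : M₁ * y = M₁ := by
    rw [hM₁, smul_mul_assoc]
    congr 1
    calc (1 - y) * X * (1 + y) * y = (1 - y) * X * (y + y * y) := by noncomm_ring
      _ = _ := by rw [hy2, add_comm]
  have hM₁2 : M₁ * M₁ = 0 := by
    have h1 : M₁ * (y * M₁) = M₁ * M₁ := by rw [← mul_assoc, hMy]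
    rw [hyM, mul_neg] at h1
    have h2 : (2 : K) • (M₁ * M₁) = 0 := by
      rw [two_smul]
      nth_rw 1 [← h1]
      simp
    exact (smul_eq_zero.1 h2).resolve_left (by norm_num)
  have hNMN : N₁ * M₁ * N₁ = N₁ := by
    have h1 : N₁ * (1 - y) = (2 : K) • N₁ := by
      rw [mul_sub, hNy', mul_one, two_smul]; abel
    have h2 : (1 + y) * N₁ = (2 : K) • N₁ := by
      rw [add_mul, hyN, one_mul, two_smul]
    calc N₁ * M₁ * N₁ = (1 / 4 : K) • ((N₁ * (1 - y)) * X * ((1 + y) * N₁)) := by
          rw [hM₁, mul_smul_comm, smul_mul_assoc]; congr 1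
      _ = N₁ := by
          rw [h1, h2, smul_mul_assoc, smul_mul_assoc, mul_smul_comm, smul_smul, smul_smul, hNX]
          norm_num
  refine ⟨N₁, M₁ * N₁ * M₁, hyg, hy2, hN₁p, ⟨h.lie.sandwich hM₁g hM₁2 hN₁g, ?_, ?_⟩, hN₁0, ?_, ?_, hext₁⟩
  · rw [← mul_assoc, ← mul_assoc, hyM]; noncomm_ring
  · rw [mul_assoc, hMy]
  · calc N₁ * (M₁ * N₁ * M₁) * N₁ = (N₁ * M₁ * N₁) * M₁ * N₁ := by noncomm_ring
      _ = N₁ := by rw [hNMN, hNMN]
  · calc M₁ * N₁ * M₁ * N₁ * (M₁ * N₁ * M₁) = M₁ * ((N₁ * M₁ * N₁) * M₁ * N₁) * M₁ := by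
          noncomm_ring
      _ = _ := by rw [hNMN, hNMN]

/-- The binomial case, for the given involution. -/
theorem alpha_atO [IsAlgClosed K] [CharZero K] [FiniteDimensional K V] [Nontrivial V]
    (h : CoreN L) {B : V →ₗ[K] V →ₗ[K] K} (hB : B ≠ 0) (hsym : ∀ v w, B v w = B w v)
    (hinv : ∀ X ∈ L, ∀ v w, B (X v) w + B v (X w) = 0) {s : Module.End K V} (hs : s ∈ L) (hs2 : s * s = 1)
    (hnot : ¬ ∀ X : Module.End K V, (∀ v w, B (X v) w + B v (X w) = 0) → X ∈ L)
    (hpow : ∀ m : ℕ, finrank K V ≠ 2 ^ m) :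
    ∃ e f : Module.End K V, Frame L s e f ∧
      (∀ x ∈ Lp L s, ∀ y ∈ Lm L s, ∃ c : K, x * y * x = c • x ∧ y * x * y = c • y) ∧
      2 ≤ finrank K (Lm L s) := by
  obtain ⟨e, f, F⟩ := frame_atN h hs hs2
  have ha : ∀ u ∈ J1 L s e f, u * f * u = 0 := by
    by_contra ha
    push Not at ha
    obtain ⟨u, hu, hu0⟩ := ha
    obtain ⟨e', f', G⟩ := P1_grid h F hu hu0
    by_cases hall : ∀ T : Module.End K V, e * f * T * (e * f) * (u * f') ∈ LL L (e * f) (e' * f')
    · exact hnot fun X hX => full_so' h G hall hB hsym hinv hX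
    · have h1 := (P5_dich h G).resolve_left hall
      obtain ⟨t, ht, ht2⟩ := o3_spin h hB hsym hinv G h1
      have h5 := (K5_eig h G.F.s_mem G.F.s_sq).2
      have h6 : finrank K V = 2 ^ (t + 1) := by rw [h5, ht, pow_succ]; ring
      exact hpow _ h6
  have hall := fun (x : Module.End K V) (hx : x ∈ Lp L s) (y : Module.End K V)
    (hy : y ∈ Lm L s) => K2_all h F ha hx hy
  refine ⟨e, f, F, hall, ?_⟩
  -- the dimension of the part of weight `-1`
  obtain ⟨n, x, y, hK, hx, hy, -, hyL', -, -⟩ := K3_system h F hall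
  have hyL : ∀ i, y i ∈ Lm L s := fun i => ⟨hyL' i, hK.sy i, hK.ys i⟩
  obtain ⟨k, hk1, hk2, h1, h2, h3, hcnt⟩ := R2_rank hK (by rw [hx]; exact F.e_ne)
  obtain ⟨-, h5⟩ := K5_eig h F.s_mem F.s_sq
  have hn : n ≠ 0 := by
    rintro rfl
    have hk : k = 1 := by omega
    rw [hk, Nat.choose_self] at h1
    rw [h1, mul_one] at h5
    exact hpow 1 (by rw [h5, pow_one])
  obtain ⟨n', rfl⟩ := Nat.exists_eq_succ_of_ne_zero hn
  have h01 : (0 : Fin (n' + 1 + 1)) ≠ 1 := by
    intro e
    exact absurd (congrArg Fin.val e) (by norm_num)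
  have hf0 : f ≠ 0 := by
    rintro rfl
    have h6 := F.efe
    rw [mul_zero, zero_mul] at h6
    exact F.e_ne h6.symm
  -- `y 0` and `y 1` are independent
  have hind : ∀ c : K, y 1 ≠ c • y 0 := by
    intro c hc
    have e1 := hK.r2 1 0 1
    rw [if_neg (Ne.symm h01), add_zero] at e1
    have e0 := hK.r2 0 0 0
    rw [if_pos rfl] at e0
    rw [hc] at e1
    have e2 : (c * c) • (y 0 * x 0 * y 0 + y 0 * x 0 * y 0) = 0 := by
      rw [← e1, smul_add]
      simp only [smul_mul_assoc, mul_smul_comm, smul_smul]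
    rw [e0, smul_eq_zero] at e2
    have e3 : c = 0 := by
      rcases e2 with e2 | e2
      · exact mul_self_eq_zero.1 e2
      · exfalso
        apply hf0
        rw [← hy]
        have e4 : (2 : K) • y 0 = 0 := by rw [two_smul]; exact e2
        exact (smul_eq_zero.1 e4).resolve_left (by norm_num)
    rw [e3, zero_smul] at hc
    have e5 := hK.r1 0 1 1
    rw [if_neg h01, if_pos rfl, hc, mul_zero, zero_mul, mul_zero, zero_mul, zero_add, zero_add] at e5
    exact F.e_ne (by rw [← hx, ← e5])
  by_contra hlt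
  push Not at hlt
  have hfin : finrank K (Lm L s) ≤ 1 := by omega
  obtain ⟨v, hv⟩ := finrank_le_one_iff.1 hfin
  obtain ⟨c0, hc0⟩ := hv ⟨y 0, hyL 0⟩
  obtain ⟨c1, hc1⟩ := hv ⟨y 1, hyL 1⟩
  have hc0' : c0 • (v : Module.End K V) = y 0 := congrArg Subtype.val hc0
  have hc1' : c1 • (v : Module.End K V) = y 1 := congrArg Subtype.val hc1
  have hc0n : c0 ≠ 0 := by
    rintro rfl
    apply hf0
    rw [← hy, ← hc0', zero_smul]
  apply hind (c1 * c0⁻¹)
  rw [← hc0', smul_smul, mul_assoc, inv_mul_cancel₀ hc0n, mul_one, hc1']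

/-- The data of the binomial case. -/
theorem ah_ofO [IsAlgClosed K] [CharZero K] [FiniteDimensional K V] [Nontrivial V]
    (h : CoreN L) {B : V →ₗ[K] V →ₗ[K] K} (hB : B ≠ 0) (hsym : ∀ v w, B v w = B w v)
    (hinv : ∀ X ∈ L, ∀ v w, B (X v) w + B v (X w) = 0) {s : Module.End K V} (hs : s ∈ L) (hs2 : s * s = 1)
    (hnot : ¬ ∀ X : Module.End K V, (∀ v w, B (X v) w + B v (X w) = 0) → X ∈ L)
    (hpow : ∀ m : ℕ, finrank K V ≠ 2 ^ m) :
    ∃ r : K, AH L s r ∧ 2 ≤ finrank K (Lm L s) := by
  obtain ⟨e, f, F, hall, h2⟩ := alpha_atO h hB hsym hinv hs hs2 hnot hpow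
  have hr0 : (finrank K (LinearMap.range e) : K) ≠ 0 := by
    rw [Nat.cast_ne_zero]
    intro h0
    exact F.e_ne (LinearMap.range_eq_bot.1 (Submodule.finrank_eq_zero.1 h0))
  refine ⟨(finrank K (LinearMap.range e) : K), ⟨h.lie, hs, hs2, fun x y => ?_, fun x y => ?_⟩, h2⟩
  · have h3 := (K3_trace h F hall x.2 y.2).1
    rw [bet_apply, ← smul_smul, ← h3, smul_smul, inv_mul_cancel₀ hr0, one_smul]
  · have h3 := (K3_trace h F hall x.2 y.2).2
    rw [bet_apply, ← smul_smul, ← h3, smul_smul, inv_mul_cancel₀ hr0, one_smul]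

/-- **A flipped involution**, symmetric forms. -/
theorem flip_fullO [IsAlgClosed K] [CharZero K] [FiniteDimensional K V] [Nontrivial V]
    (h : CoreN L) {B : V →ₗ[K] V →ₗ[K] K} (hB : B ≠ 0) (hsym : ∀ v w, B v w = B w v)
    (hinv : ∀ X ∈ L, ∀ v w, B (X v) w + B v (X w) = 0)
    {y : Module.End K V} (hy : y ∈ L) (hy2 : y * y = 1) (hpow : ∀ m : ℕ, finrank K V ≠ 2 ^ m)
    {G G' : Module.End K V} (hG : G ∈ Submonoid.closure (tset L)) (hGG : G * G' = 1)
    (hflip : G * y * G' = -y) : ∀ X : Module.End K V, (∀ v w, B (X v) w + B v (X w) = 0) → X ∈ L := by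
  by_contra hX'
  obtain ⟨r, hAH, hm⟩ := ah_ofO h hB hsym hinv hy hy2 hX' hpow
  exact no_flip hAH hm hG hGG hflip

end Pool.Agent.H86L
end

-- from Lib.H86L.L7
section

/-!
# L7: all odd functions or a flipped involution, symmetric forms
-/

set_option autoImplicit false
set_option linter.unusedSectionVars false
namespace Pool.Agent.H86L
open Module Matrix Pool.Agent.H53Toric Pool.Agent.H76P Pool.Agent.H76Y
open Pool.Agent.H76T (IsIdeal Fam)
open Pool.Agent.H86K (poly_diag tset)

variable {κ : Type*} [Fintype κ] [DecidableEq κ] {K : Type*} [Field K] [CharZero K]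
  {L : Submodule K (Module.End K (κ → K))} [Nonempty κ] [IsAlgClosed K]

/-- If all odd functions are diagonal elements, there is an element of small rank. -/
theorem exists_smallN (h : CmpN L) {bar : Equiv.Perm κ} (hbb : ∀ k, bar (bar k) = k) (hbne : ∀ k, bar k ≠ k)
    (hodd : ∀ f : κ → ℚ, (∀ k, f (bar k) = -f k) → dq f ∈ L) (hn : 3 ≤ Fintype.card κ) :
    ∃ N ∈ L, N * N = 0 ∧ N ≠ 0 ∧ finrank K (LinearMap.range N) ≤ 2 := by
  classical
  obtain ⟨k₀⟩ := ‹Nonempty κ›
  -- a nonzero entry outside the plane of `k₀`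
  obtain ⟨X, hX, k, l, hk1, hk2, hlS, hXkl⟩ : ∃ X ∈ L, ∃ k l, k ≠ k₀ ∧ k ≠ bar k₀ ∧ (l = k₀ ∨ l = bar k₀) ∧
      LinearMap.toMatrix' X k l ≠ 0 := by
    by_contra hcon
    push Not at hcon
    let W : Submodule K (κ → K) :=
      { carrier := {v | ∀ a, a ≠ k₀ → a ≠ bar k₀ → v a = 0}
        add_mem' := fun {u v} hu hv a h1 h2 => by
          rw [Pi.add_apply, hu a h1 h2, hv a h1 h2, add_zero]
        zero_mem' := fun a _ _ => rfl
        smul_mem' := fun c v hv a h1 h2 => by rw [Pi.smul_apply, hv a h1 h2, smul_zero] }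
    have hW : W = ⊥ ∨ W = ⊤ := by
      refine h.irr W fun X hX w hw a h1 h2 => ?_
      have h3 : X w a = ∑ b, LinearMap.toMatrix' X a b * w b := by
        have h4 : X w = LinearMap.toMatrix' X *ᵥ w := by
          rw [← Matrix.toLin'_apply, Matrix.toLin'_toMatrix']
        rw [h4]
        rfl
      rw [h3]
      refine Finset.sum_eq_zero fun b _ => ?_
      by_cases hb : b = k₀ ∨ b = bar k₀
      · rw [hcon X hX a b h1 h2 hb, zero_mul]
      · push Not at hb
        rw [hw b hb.1 hb.2, mul_zero]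
    rcases hW with hW | hW
    · have h1 : (Pi.single k₀ 1 : κ → K) ∈ W := by
        intro a ha _
        rw [Pi.single_eq_of_ne ha]
      rw [hW, Submodule.mem_bot] at h1
      have h2 := congrFun h1 k₀
      rw [Pi.single_eq_same] at h2
      exact one_ne_zero h2
    · obtain ⟨a, ha1, ha2⟩ : ∃ a, a ≠ k₀ ∧ a ≠ bar k₀ := by
        by_contra hcon
        push Not at hcon
        have h1 : Fintype.card κ ≤ ({k₀, bar k₀} : Finset κ).card := by
          rw [← Finset.card_univ]
          refine Finset.card_le_card fun a _ => ?_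
          rw [Finset.mem_insert, Finset.mem_singleton]
          by_cases h2 : a = k₀
          · exact Or.inl h2
          · exact Or.inr (hcon a h2)
        have h2 := Finset.card_le_two (a := k₀) (b := bar k₀)
        omega
      have h1 : (Pi.single a 1 : κ → K) ∈ W := by rw [hW]; exact Submodule.mem_top
      have h2 := h1 a ha1 ha2
      rw [Pi.single_eq_same] at h2
      exact one_ne_zero h2
  have hlk : l ≠ k := by
    rintro rfl
    rcases hlS with h1 | h1
    · exact hk1 h1
    · exact hk2 h1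
  have hlbk : l ≠ bar k := by
    intro h1
    rcases hlS with h2 | h2
    · apply hk2
      rw [← h2, h1, hbb]
    · apply hk1
      have h3 : bar k = bar k₀ := by rw [← h1, h2]
      exact bar.injective h3
  -- the two diagonal elements
  let F : κ → κ → ℚ := fun x a => if a = x then 1 else if a = bar x then -1 else 0
  have hF : ∀ x, dq (F x) ∈ L := by
    intro x
    refine hodd _ fun a => ?_
    show (if bar a = x then (1 : ℚ) else if bar a = bar x then -1 else 0) =
      -(if a = x then (1 : ℚ) else if a = bar x then -1 else 0)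
    by_cases h1 : a = x
    · rw [h1, if_neg (hbne x), if_pos rfl, if_pos rfl]
    · by_cases h2 : a = bar x
      · rw [h2, hbb, if_pos rfl, if_neg (hbne x), if_pos rfl, neg_neg]
      · have h3 : bar a ≠ x := by
          intro h4
          apply h2
          rw [← h4, hbb]
        have h4 : bar a ≠ bar x := fun h5 => h1 (bar.injective h5)
        rw [if_neg h3, if_neg h4, if_neg h1, if_neg h2, neg_zero]
  have hFv : ∀ x a, F x a = 1 ∨ F x a = -1 ∨ F x a = 0 := by
    intro x a
    show (if a = x then (1 : ℚ) else if a = bar x then -1 else 0) = 1 ∨ _ ∨ _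
    by_cases h1 : a = x
    · left; rw [if_pos h1]
    · by_cases h2 : a = bar x
      · right; left
        show (if a = x then (1 : ℚ) else if a = bar x then -1 else 0) = -1
        rw [if_neg h1, if_pos h2]
      · right; right
        show (if a = x then (1 : ℚ) else if a = bar x then -1 else 0) = 0
        rw [if_neg h1, if_neg h2]
  have hF1 : ∀ x a, F x a = 1 → a = x := by
    intro x a h1
    by_contra h2
    have h3 : F x a = if a = bar x then -1 else 0 := if_neg h2
    rw [h3] at h1
    split_ifs at h1 <;> norm_num at h1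
  have hFm : ∀ x a, F x a = -1 → a = bar x := by
    intro x a h1
    by_contra h2
    have h3 : F x a = if a = x then 1 else 0 := by
      show (if a = x then (1 : ℚ) else if a = bar x then -1 else 0) = _
      rw [if_neg h2]
    rw [h3] at h1
    split_ifs at h1 <;> norm_num at h1
  -- the polynomials
  let p : Polynomial K := Polynomial.C (-(1 / 6 : K)) * ((Polynomial.X + Polynomial.C 2) * (Polynomial.X + Polynomial.C 1) *
    Polynomial.X * (Polynomial.X - Polynomial.C 2))
  let p' : Polynomial K := Polynomial.C ((1 / 6 : K)) * ((Polynomial.X - Polynomial.C 2) * (Polynomial.X - Polynomial.C 1) *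
    Polynomial.X * (Polynomial.X + Polynomial.C 2))
  have hp : ∀ t : K, p.eval t = -(1 / 6) * ((t + 2) * (t + 1) * t * (t - 2)) := by
    intro t
    show Polynomial.eval t (Polynomial.C (-(1 / 6 : K)) * ((Polynomial.X + Polynomial.C 2) * (Polynomial.X + Polynomial.C 1) *
      Polynomial.X * (Polynomial.X - Polynomial.C 2))) = _
    simp only [Polynomial.eval_mul, Polynomial.eval_C, Polynomial.eval_add, Polynomial.eval_sub, Polynomial.eval_X]
  have hp' : ∀ t : K, p'.eval t = (1 / 6) * ((t - 2) * (t - 1) * t * (t + 2)) := by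
    intro t
    show Polynomial.eval t (Polynomial.C ((1 / 6 : K)) * ((Polynomial.X - Polynomial.C 2) * (Polynomial.X - Polynomial.C 1) *
      Polynomial.X * (Polynomial.X + Polynomial.C 2))) = _
    simp only [Polynomial.eval_mul, Polynomial.eval_C, Polynomial.eval_add, Polynomial.eval_sub, Polynomial.eval_X]
  obtain ⟨Z, hZ, hZe⟩ := poly_diag h.lie (f := fun a => (F k a : K)) (hF k) p X hX
  obtain ⟨N, hN, hNe⟩ := poly_diag h.lie (f := fun a => (F l a : K)) (hF l) p' Z hZ
  have hpv : ∀ a b, p.eval ((F k a : K) - (F k b : K)) ≠ 0 → F k a - F k b = 1 := by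
    intro a b h1
    rw [hp] at h1
    rcases hFv k a with e1 | e1 | e1 <;> rcases hFv k b with e2 | e2 | e2 <;> rw [e1, e2] at h1 ⊢ <;>
      first
        | (exfalso; norm_num at h1; done)
        | (norm_num; done)
  have hpv' : ∀ a b, p'.eval ((F l a : K) - (F l b : K)) ≠ 0 → F l a - F l b = -1 := by
    intro a b h1
    rw [hp'] at h1
    rcases hFv l a with e1 | e1 | e1 <;> rcases hFv l b with e2 | e2 | e2 <;> rw [e1, e2] at h1 ⊢ <;>
      first
        | (exfalso; norm_num at h1; done)
        | (norm_num; done)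
  -- the entries
  have hentry : ∀ a b, LinearMap.toMatrix' N a b ≠ 0 → (a = k ∧ b = l) ∨ (a = bar l ∧ b = bar k) := by
    intro a b hab
    rw [hNe, hZe] at hab
    have h1 := left_ne_zero_of_mul hab
    have h2 := left_ne_zero_of_mul (right_ne_zero_of_mul hab)
    have h3 := hpv a b h2
    have h4 := hpv' a b h1
    rcases hFv k a with e1 | e1 | e1
    · left
      have ha := hF1 k a e1
      refine ⟨ha, ?_⟩
      rcases hFv l b with e2 | e2 | e2
      · exact hF1 l b e2
      · exfalso
        rw [e2] at h4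
        rcases hFv l a with e3 | e3 | e3 <;> rw [e3] at h4 <;> norm_num at h4
      · exfalso
        rw [e2] at h4
        have e3 : F l a = -1 := by linarith
        have h5 := hFm l a e3
        rw [ha] at h5
        apply hlbk
        rw [h5, hbb]
    · exfalso
      rw [e1] at h3
      rcases hFv k b with e3 | e3 | e3 <;> rw [e3] at h3 <;> norm_num at h3
    · right
      rw [e1] at h3
      have e2 : F k b = -1 := by linarith
      have hb := hFm k b e2
      refine ⟨?_, hb⟩
      rcases hFv l a with e3 | e3 | e3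
      · exfalso
        rw [e3] at h4
        rcases hFv l b with e4 | e4 | e4 <;> rw [e4] at h4 <;> norm_num at h4
      · exact hFm l a e3
      · exfalso
        rw [e3] at h4
        have e4 : F l b = 1 := by linarith
        have h5 := hF1 l b e4
        apply hlbk
        rw [← h5, hb]
  have hNkl : LinearMap.toMatrix' N k l ≠ 0 := by
    have e1 : F k k = 1 := if_pos rfl
    have e2 : F k l = 0 := by
      show (if l = k then (1 : ℚ) else if l = bar k then -1 else 0) = 0
      rw [if_neg hlk, if_neg hlbk]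
    have e3 : F l l = 1 := if_pos rfl
    have e4 : F l k = 0 := by
      show (if k = l then (1 : ℚ) else if k = bar l then -1 else 0) = 0
      have : k ≠ bar l := by
        intro h5
        apply hlbk
        rw [h5, hbb]
      rw [if_neg (Ne.symm hlk), if_neg this]
    rw [hNe, hZe, hp, hp', e1, e2, e3, e4]
    norm_num
    exact hXkl
  have hbl : bar l ≠ l := hbne l
  refine ⟨N, hN, ?_, ?_, ?_⟩
  · apply LinearMap.toMatrix'.injective
    rw [LinearMap.toMatrix'_mul, map_zero]
    ext a b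
    rw [Matrix.mul_apply, Matrix.zero_apply]
    refine Finset.sum_eq_zero fun c _ => ?_
    by_contra h1
    rcases hentry a c (left_ne_zero_of_mul h1) with ⟨-, h2⟩ | ⟨-, h2⟩ <;>
      rcases hentry c b (right_ne_zero_of_mul h1) with ⟨h3, -⟩ | ⟨h3, -⟩
    · exact hlk (h2.symm.trans h3)
    · exact hbl (h3.symm.trans h2)
    · exact hbne k (h2.symm.trans h3)
    · exact hlk (bar.injective (h3.symm.trans h2))
  · intro h0
    rw [h0, map_zero] at hNkl
    exact hNkl rfl
  · have h1 : LinearMap.range N ≤ Submodule.span K (({Pi.single k 1, Pi.single (bar l) 1} : Finset (κ → K)) : Set (κ → K)) := by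
      rintro _ ⟨v, rfl⟩
      have h2 : N v = (N v k) • Pi.single k 1 + (N v (bar l)) • Pi.single (bar l) 1 := by
        ext a
        rw [Pi.add_apply, Pi.smul_apply, Pi.smul_apply, smul_eq_mul, smul_eq_mul]
        have h3 : ∀ a, N v a = ∑ b, LinearMap.toMatrix' N a b * v b := by
          intro a
          have h4 : N v = LinearMap.toMatrix' N *ᵥ v := by
            rw [← Matrix.toLin'_apply, Matrix.toLin'_toMatrix']
          rw [h4]
          rfl
        have hkbl : k ≠ bar l := by
          intro h5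
          apply hlbk
          rw [h5, hbb]
        by_cases ha : a = k
        · rw [ha, Pi.single_eq_same, Pi.single_eq_of_ne hkbl, mul_one, mul_zero, add_zero]
        · by_cases ha' : a = bar l
          · rw [ha', Pi.single_eq_same, Pi.single_eq_of_ne (Ne.symm hkbl), mul_one, mul_zero, zero_add]
          · rw [Pi.single_eq_of_ne ha, Pi.single_eq_of_ne ha', mul_zero, mul_zero, add_zero, h3]
            refine Finset.sum_eq_zero fun b _ => ?_
            by_contra h5
            rcases hentry a b (left_ne_zero_of_mul h5) with ⟨h6, -⟩ | ⟨h6, -⟩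
            · exact ha h6
            · exact ha' h6
      rw [h2]
      refine Submodule.add_mem _ (Submodule.smul_mem _ _ (Submodule.subset_span ?_))
        (Submodule.smul_mem _ _ (Submodule.subset_span ?_))
      · simp
      · simp
    calc finrank K (LinearMap.range N) ≤ finrank K (Submodule.span K
          (({Pi.single k 1, Pi.single (bar l) 1} : Finset (κ → K)) : Set (κ → K))) := Submodule.finrank_mono h1
      _ ≤ ({Pi.single k 1, Pi.single (bar l) 1} : Finset (κ → K)).card := finrank_span_finset_le_card _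
      _ ≤ 2 := Finset.card_le_two




theorem om_ne {J : Matrix κ κ K} (hdet : IsUnit J.det) : om J ≠ 0 := by
  intro h0
  obtain ⟨k⟩ := ‹Nonempty κ›
  have h1 : (Pi.single k (1 : K) : κ → K) = 0 := om_nd hdet _ (fun w => by rw [h0]; rfl)
  have h2 := congrFun h1 k
  rw [Pi.single_eq_same] at h2
  exact one_ne_zero h2

/-- **One ideal, all odd functions**, symmetric forms. -/
theorem full_of_oddO (h : CmpN L) {I : Fin 1 → Submodule K (Module.End K (κ → K))} (hF : Fam L I)
    {J : Matrix κ κ K} (hJ : Jᵀ = J) (hdet : IsUnit J.det) (hskew : ∀ X ∈ L, adjE J X = -X)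
    (hpow : ∀ m : ℕ, Fintype.card κ ≠ 2 ^ m)
    {bar : Equiv.Perm κ} (hbb : ∀ k, bar (bar k) = k) (hbne : ∀ k, bar k ≠ k)
    (hodd : ∀ f : κ → ℚ, (∀ k, f (bar k) = -f k) → dq f ∈ L)
    {X : Module.End K (κ → K)} (hX : adjE J X = -X) : X ∈ L := by
  rcases h.simpleO hF hJ hdet hskew with h1 | ⟨m, -, -, h1, -⟩ | ⟨k, hk, -, hk3, hk4⟩
  · exact h1 X hX
  · exact absurd h1 (hpow m)
  · exfalso
    have h5 : 20 ≤ (k - 1).centralBinom := by
      have h6 : Nat.centralBinom 3 ≤ (k - 1).centralBinom := Nat.centralBinom_strictMono.monotone (by omega)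
      have h7 : Nat.centralBinom 3 = 20 := by decide
      omega
    have h6 : (k - 1).centralBinom ≤ k.centralBinom := Nat.centralBinom_strictMono.monotone (by omega)
    obtain ⟨N, hN, hN2, hN0, hr⟩ := exists_smallN h hbb hbne hodd (by omega)
    have h7 := hk4 N hN hN2 hN0
    omega

/-- **One ideal, a flipped involution**, symmetric forms. -/
theorem flip_fullJ (h : CmpN L) {I : Fin 1 → Submodule K (Module.End K (κ → K))} (hF : Fam L I)
    {J : Matrix κ κ K} (hJ : Jᵀ = J) (hdet : IsUnit J.det) (hskew : ∀ X ∈ L, adjE J X = -X)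
    (hpow : ∀ m : ℕ, Fintype.card κ ≠ 2 ^ m)
    {y : Module.End K (κ → K)} (hy : y ∈ L) (hy2 : y * y = 1)
    {G G' : Module.End K (κ → K)} (hG : G ∈ Submonoid.closure (tset L)) (hGG : G * G' = 1)
    (hflip : G * y * G' = -y) {X : Module.End K (κ → K)} (hX : adjE J X = -X) : X ∈ L := by
  have hcore := h.coreN hF
  exact flip_fullO hcore (om_ne hdet) (om_sym hJ) (fun X hX => (skew_om hdet).1 (hskew X hX)) hy hy2
    (fun m => by rw [Module.finrank_fintype_fun_eq_card]; exact hpow m) hG hGG hflip X ((skew_om hdet).1 hX)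

end Pool.Agent.H86L
end

-- from Lib.H86L.M1
section

/-!
# M1: one block and a symmetric form: one simple ideal; the opposition on the configuration
-/

set_option autoImplicit false
set_option linter.unusedSectionVars false
namespace Pool.Agent.H86L
open Module Matrix Pool.Agent.H53Toric Pool.Agent.H76P Pool.Agent.H76Q Pool.Agent.H76Y
open Pool.Agent.H76T (IsIdeal Fam)

section
variable {κ : Type*} {K : Type*} [Field K] [CharZero K] [Fintype κ] [DecidableEq κ]
  {L : Submodule K (Module.End K (κ → K))} {J : Matrix κ κ K} [IsAlgClosed K] [Nonempty κ]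
  {Y : Submodule ℚ (κ → ℚ)}

/-- One block, and the dimension is not a power of two: the component is simple. -/
theorem simple_of_oneN (h : TM L) (hY : Yo L = Y) (h1 : Pool.Agent.H76Q.IsBlock (1 : Module.End ℚ Y))
    (two : ∀ k : ℕ, Fintype.card κ ≠ 2 ^ k) :
    ∃ I : Fin 1 → Submodule K (Module.End K (κ → K)), Fam L I := by
  classical
  subst hY
  obtain ⟨m, I, hF⟩ := Pool.Agent.H76T.exists_fam h.cmp.lie h.cmp.irr h.cmp.tr
  rcases Nat.lt_or_ge m 2 with hm | hm
  · interval_cases m
    · exfalso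
      have hL : L = ⊥ := by
        rw [← hF.sup]
        exact iSup_of_empty _
      have h2 : ∀ y ∈ L, y * y = 1 → False := by
        intro y hy hy2
        rw [hL, Submodule.mem_bot] at hy
        rw [hy, mul_zero] at hy2
        exact zero_ne_one hy2
      have h3 : Subsingleton κ := by
        refine ⟨fun a b => ?_⟩
        by_contra hab
        obtain ⟨f, hf, hfab⟩ := h.sep a b hab
        obtain ⟨c', hc'⟩ := h.cmp.gen (dq f) fun y hy hy2 => (h2 y hy hy2).elim
        apply hfab
        have h4 := congrFun (congrArg (fun T : Module.End K (κ → K) => T fun _ => 1) hc') a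
        have h5 := congrFun (congrArg (fun T : Module.End K (κ → K) => T fun _ => 1) hc') b
        unfold dq at h4 h5
        simp only [dg_apply, LinearMap.smul_apply, Module.End.one_apply, Pi.smul_apply, smul_eq_mul, mul_one] at h4 h5
        have h6 : ((f a : ℚ) : K) = ((f b : ℚ) : K) := by rw [h4, h5]
        exact_mod_cast h6
      obtain ⟨a⟩ := ‹Nonempty κ›
      have : Unique κ := ⟨⟨a⟩, fun b => Subsingleton.elim b a⟩
      exact two 0 (by rw [pow_zero]; exact Fintype.card_unique)
    · exact ⟨I, hF⟩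
  · exfalso
    have hs : Spans (pt L) := pt_spans h.cmp
    have hij : (⟨0, by omega⟩ : Fin m) ≠ ⟨1, by omega⟩ := by
      intro e
      exact absurd (congrArg Fin.val e) (by norm_num)
    obtain ⟨i, hi⟩ : ∃ i : Fin m, i = ⟨0, by omega⟩ := ⟨_, rfl⟩
    obtain ⟨j, hj⟩ : ∃ j : Fin m, j = ⟨1, by omega⟩ := ⟨_, rfl⟩
    rw [← hi, ← hj] at hij
    -- an atom equal to one is impossible
    have caseA : Atom (pt L) (1 : Module.End ℚ (Module.Dual ℚ (Yo L))) → False := by
      intro hA
      obtain ⟨P, hP1, hP2, hP3, hPS⟩ := exists_proj h.cmp hF i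
      have g1 : P.dualMap = 1 := by
        rcases hA.2.2 P.dualMap hPS (mul_one _) with h2 | h2
        · exfalso
          obtain ⟨f, hf, hf0, hfi⟩ := h.exists_diag hF i
          have h3 : P = 0 := dualMap_inj (by rw [h2, dualMap_zero])
          have h4 := hP2 ⟨f, hf⟩ hfi
          rw [h3, LinearMap.zero_apply] at h4
          exact hf0 (congrArg Subtype.val h4).symm
        · exact h2
      have g2 : P = 1 := dualMap_inj (by rw [g1, dualMap_one])
      obtain ⟨f, hf, hf0, hfi⟩ := h.exists_diag hF j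
      have h3 := hP3 j (Ne.symm hij) ⟨f, hf⟩ hfi
      rw [g2, Module.End.one_apply] at h3
      exact hf0 (congrArg Subtype.val h3)
    rcases h1 with ⟨h8, hA⟩ | ⟨-, hA, hc⟩ | ⟨h8, hS, -, hat⟩
    · rw [dualMap_one] at hA
      exact (caseA hA).elim
    · rw [dualMap_one] at hA
      exact (caseA hA).elim
    · obtain ⟨s, hsm, hsum⟩ := atoms_sum hs
      have hcard : Fintype.card κ = 2 ^ s.card := by
        rw [card_prod hs h.pt_inj (s := s) (fun q hq => (hsm q).1 hq) hsum]
        rw [← Finset.prod_const]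
        refine Finset.prod_congr rfl fun q hq => ?_
        refine (hat q ((hsm q).1 hq)).1 ?_
        rw [dualMap_one, mul_one]
      exact two _ hcard

theorem phi_diagN {κ : Type*} [Fintype κ] [DecidableEq κ] {K : Type*} [Field K] (f : κ → K) :
    phi (Matrix.diagonal f) = dg f := by
  refine LinearMap.ext fun v => funext fun a => ?_
  rw [phi_apply, Matrix.mulVec_diagonal, dg_apply]

/-- A diagonal element is skew for a form: opposite values on the pairs with a nonzero entry of the form. -/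
theorem opp_entry (hdet : IsUnit J.det) (hsk : ∀ X ∈ L, adjE J X = -X) {f : κ → ℚ} (hf : dq f ∈ L) {k l : κ}
    (hkl : J k l ≠ 0) : f l = -f k := by
  have h1 := hsk _ hf
  unfold dq at h1
  rw [← phi_diagN] at h1
  have h2 := (skew_iff hdet _).1 h1
  have h3 := congrFun (congrFun h2 k) l
  rw [Matrix.diagonal_transpose, Matrix.add_apply, Matrix.diagonal_mul, Matrix.mul_diagonal, Matrix.zero_apply] at h3
  have h4 : (((f k + f l : ℚ) : K)) * J k l = 0 := by
    push_cast
    linear_combination h3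
  have h5 : f k + f l = 0 := by exact_mod_cast (mul_eq_zero.1 h4).resolve_right hkl
  linarith

/-- The opposition given by the form. -/
theorem entry_bar (h : TM L) (hdet : IsUnit J.det) (hsk : ∀ X ∈ L, adjE J X = -X) {bar : κ → κ}
    (hopp : ∀ f ∈ Yo L, ∀ k, f (bar k) = -f k) {k l : κ} (hkl : J k l ≠ 0) : l = bar k := by
  by_contra hne
  obtain ⟨f, hf, hfn⟩ := h.sep l (bar k) hne
  apply hfn
  rw [hopp f hf k, opp_entry hdet hsk (H76P.Yo_mem hf) hkl]

/-- The diagonal operator of an odd function is skew. -/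
theorem dq_skew (hdet : IsUnit J.det) {bar : κ → κ} (hJb : ∀ k l, J k l ≠ 0 → l = bar k) {f : κ → ℚ}
    (hf : ∀ k, f (bar k) = -f k) : adjE J (dq f : Module.End K (κ → K)) = -dq f := by
  unfold dq
  rw [← phi_diagN]
  refine (skew_iff hdet _).2 ?_
  ext k l
  rw [Matrix.diagonal_transpose, Matrix.add_apply, Matrix.diagonal_mul, Matrix.mul_diagonal, Matrix.zero_apply]
  by_cases hkl : J k l = 0
  · rw [hkl, mul_zero, zero_mul, add_zero]
  · have h1 := hJb k l hkl
    have h2 : ((f l : ℚ) : K) = -((f k : ℚ) : K) := by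
      rw [h1, hf k]
      push_cast
      ring
    rw [h2]
    ring

/-- **One block, all odd functions**, symmetric forms. -/
theorem full_of_oddM (h : TM L) (hJ : Jᵀ = J) (hdet : IsUnit J.det) (hsk : ∀ X ∈ L, adjE J X = -X)
    (hY : Yo L = Y) (h1 : Pool.Agent.H76Q.IsBlock (1 : Module.End ℚ Y)) (two : ∀ k : ℕ, Fintype.card κ ≠ 2 ^ k)
    {bar : Equiv.Perm κ} (hbb : ∀ k, bar (bar k) = k) (hbne : ∀ k, bar k ≠ k)
    (hodd : ∀ f : κ → ℚ, (∀ k, f (bar k) = -f k) → f ∈ Y)
    {X : Module.End K (κ → K)} (hX : adjE J X = -X) : X ∈ L := by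
  obtain ⟨I, hF⟩ := simple_of_oneN h hY h1 two
  subst hY
  exact full_of_oddO h.cmp hF hJ hdet hsk two hbb hbne (fun f hf => H76P.Yo_mem (hodd f hf)) hX

end

/-- The opposition on the configuration. -/
theorem YS_opp {κ : Type*} [Fintype κ] [DecidableEq κ] [Nonempty κ] {K : Type*} [Field K] {d : κ → K} {q : K}
    (hq : q ≠ 0) {bar : κ → κ} (hbar : ∀ k, d k * d (bar k) = q) (hinj : Function.Injective bar) {f : κ → ℚ}
    (hf : f ∈ YS d) (k : κ) : f (bar k) = -f k := by
  classical
  have hd : ∀ k, d k ≠ 0 := by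
    intro k h0
    have h1 := hbar k
    rw [h0, zero_mul] at h1
    exact hq h1.symm
  obtain ⟨h1, c, h2⟩ := a2_mem.1 hf
  have h3 : ∀ k l, f k + f (bar k) = f l + f (bar l) := by
    intro k l
    have h4 := h2 (Pi.single k 1 + Pi.single (bar k) 1 - Pi.single l 1 - Pi.single (bar l) 1) (by
      have e1 : ∀ j, d j ^ ((Pi.single k 1 + Pi.single (bar k) 1 - Pi.single l 1 - Pi.single (bar l) 1 : κ → ℤ) j) =
          d j ^ (Pi.single k (1 : ℤ) : κ → ℤ) j * d j ^ (Pi.single (bar k) (1 : ℤ) : κ → ℤ) j *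
            (d j ^ (Pi.single l (1 : ℤ) : κ → ℤ) j)⁻¹ * (d j ^ (Pi.single (bar l) (1 : ℤ) : κ → ℤ) j)⁻¹ := by
        intro j
        rw [Pi.sub_apply, Pi.sub_apply, Pi.add_apply, zpow_sub₀ (hd j), zpow_sub₀ (hd j), zpow_add₀ (hd j),
          div_eq_mul_inv, div_eq_mul_inv]
      rw [Finset.prod_congr rfl fun j _ => e1 j, Finset.prod_mul_distrib, Finset.prod_mul_distrib,
        Finset.prod_mul_distrib, Finset.prod_inv_distrib, Finset.prod_inv_distrib, a2_single, a2_single, a2_single,
        a2_single, hbar k, mul_assoc, ← mul_inv, hbar l]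
      exact mul_inv_cancel₀ hq)
    have e2 : ∀ x : κ, ∑ j, ((Pi.single x (1 : ℤ) : κ → ℤ) j : ℚ) * (f j - c) = f x - c := by
      intro x
      rw [Fintype.sum_eq_single x]
      · rw [Pi.single_eq_same, Int.cast_one, one_mul]
      · intro j hj
        rw [Pi.single_eq_of_ne hj, Int.cast_zero, zero_mul]
    have e3 : ∑ j, (((Pi.single k 1 + Pi.single (bar k) 1 - Pi.single l 1 - Pi.single (bar l) 1 : κ → ℤ) j : ℤ) : ℚ) *
        (f j - c) = (f k - c) + (f (bar k) - c) - (f l - c) - (f (bar l) - c) := by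
      rw [← e2 k, ← e2 (bar k), ← e2 l, ← e2 (bar l), ← Finset.sum_add_distrib, ← Finset.sum_sub_distrib,
        ← Finset.sum_sub_distrib]
      refine Finset.sum_congr rfl fun j _ => ?_
      rw [Pi.sub_apply, Pi.sub_apply, Pi.add_apply]
      push_cast
      ring
    rw [e3] at h4
    linarith
  have h5 : ∑ l, (f l + f (bar l)) = 0 := by
    rw [Finset.sum_add_distrib, h1, zero_add]
    have h6 : ∑ l, f (bar l) = ∑ l, f l := by
      have hb : Function.Bijective bar := Finite.injective_iff_bijective.1 hinj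
      exact Function.Bijective.sum_comp hb f
    rw [h6, h1]
  rw [Finset.sum_congr rfl fun l _ => h3 l k, Finset.sum_const, Finset.card_univ, nsmul_eq_mul] at h5
  have h6 : ((Fintype.card κ : ℕ) : ℚ) ≠ 0 := by exact_mod_cast Fintype.card_ne_zero
  have h7 := (mul_eq_zero.1 h5).resolve_left h6
  linarith

end Pool.Agent.H86L
end
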