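import Pool.Agent.Lib.H1M.RC.D_H45U_U1
import Pool.Agent.Lib.H1M.RC.M032
import Pool.Agent.Lib.H1M.RC.M044
import Pool.Agent.Lib.H1M.RC.M047
import Pool.Agent.Lib.H1M.RC.M048
import Pool.Agent.Lib.H1M.RC.M049
import Pool.Agent.Lib.H1M.RC.M050
import Pool.Agent.Lib.H1M.RC.M051
import Pool.Agent.Lib.H1M.RC.M055
import Pool.Agent.Lib.H1M.RC.M056
import Pool.Agent.Lib.H1M.RC.M059
import Pool.Agent.Lib.H1M.RC.M060
import Pool.Agent.Lib.H1M.RC.M061
import Pool.Agent.Lib.H1M.RC.M064

/-! Merged copies (to shorten the build) of Lib.H25W.Tor, Lib.H34Z.MD, Lib.H34V.ND, Lib.H34V.N01, Lib.H45U.NS, Lib.H76Y.A7, Lib.H76Y.W2, Lib.H25Y.BLO, Lib.H76W.FixS, Lib.H76Y.E3, Lib.H86L.L8. -/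

-- from Lib.H25W.Tor
section

/-!
# Tor: the torus of Frobenius and the characters of the group
-/

set_option autoImplicit false
set_option linter.unusedSectionVars false
namespace Pool.Agent.H25W
open Module Matrix Pool.Agent.H53Toric
open Pool.Agent.H76P (LogLin zlie_pow G13_eq G13_act EC PH zlie_sim)

variable {ι : Type*} [Fintype ι] [DecidableEq ι] {K : Type*} [Field K] [CharZero K]

theorem tr_step {S : Set (Matrix ι ι K)} {φ φ' P Q : Matrix ι ι K} {d : ι → K}
    (hcnj : ∀ A ∈ zlie S, φ * A * φ' ∈ zlie S)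
    (hent : ∀ (C : Matrix ι ι K) (i j : ι), (Q * (φ * C * φ') * P) i j = d i / d j * (Q * C * P) i j)
    (hinv : φ * φ' = 1) {A : Matrix ι ι K} (hA : A ∈ zlie S) (Λ : Finset K) :
    (1 : K) ∉ Λ → ∃ C ∈ zlie S, (∀ i j, d i / d j ∈ Λ → (Q * C * P) i j = 0) ∧
      ∀ p : Matrix ι ι K, p * φ = φ * p → (C * p).trace = (A * p).trace := by
  classical
  refine Finset.induction_on Λ ?_ ?_
  · intro _
    exact ⟨A, hA, fun i j h => absurd h (Finset.notMem_empty _), fun p _ => rfl⟩
  · intro l Λ' hl ih h1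
    rw [Finset.mem_insert, not_or] at h1
    obtain ⟨C, hC, hC1, hC2⟩ := ih h1.2
    have hl1 : (1 - l) ≠ 0 := sub_ne_zero.2 h1.1
    refine ⟨(1 - l)⁻¹ • (φ * C * φ' - l • C), ?_, ?_, ?_⟩
    · exact (zlie S).smul_mem _ ((zlie S).sub_mem (hcnj C hC) ((zlie S).smul_mem _ hC))
    · intro i j hij
      have h2 : (Q * ((1 - l)⁻¹ • (φ * C * φ' - l • C)) * P) i j =
          (1 - l)⁻¹ * ((d i / d j - l) * (Q * C * P) i j) := by
        rw [mul_smul_comm, smul_mul_assoc, Matrix.smul_apply, mul_sub, sub_mul, Matrix.sub_apply, hent,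
          mul_smul_comm, smul_mul_assoc, Matrix.smul_apply, smul_eq_mul, smul_eq_mul, sub_mul]
      rw [h2]
      rcases Finset.mem_insert.1 hij with h3 | h3
      · rw [h3, sub_self, zero_mul, mul_zero]
      · rw [hC1 i j h3, mul_zero, mul_zero]
    · intro p hp
      have hφ'φ : φ' * φ = 1 := _root_.mul_eq_one_comm.1 hinv
      have hp' : φ' * p = p * φ' := by
        calc φ' * p = φ' * p * (φ * φ') := by rw [hinv, mul_one]
          _ = φ' * (p * φ) * φ' := by noncomm_ring
          _ = φ' * φ * p * φ' := by rw [hp]; noncomm_ring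
          _ = p * φ' := by rw [hφ'φ, one_mul]
      have h3 : (φ * C * φ' * p).trace = (C * p).trace := by
        have e1 : φ * C * φ' * p = φ * (C * p * φ') := by
          calc φ * C * φ' * p = φ * C * (φ' * p) := by noncomm_ring
            _ = _ := by rw [hp']; noncomm_ring
        rw [e1, Matrix.trace_mul_comm, mul_assoc, hφ'φ, mul_one]
      rw [smul_mul_assoc, sub_mul, smul_mul_assoc, Matrix.trace_smul, Matrix.trace_sub, Matrix.trace_smul, h3,
        ← hC2 p hp, smul_eq_mul, smul_eq_mul]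
      have h4 : (C * p).trace - l * (C * p).trace = (1 - l) * (C * p).trace := by ring
      rw [h4, ← mul_assoc, inv_mul_cancel₀ hl1, one_mul]

/-- The part of an element of the Lie algebra which commutes with `φ`. -/
theorem zero_part_tr {S : Set (Matrix ι ι K)} {φ φ' : Matrix ι ι K} (hinv : φ * φ' = 1)
    (hdg : Diagonalisable φ) (hcnj : ∀ A ∈ zlie S, φ * A * φ' ∈ zlie S)
    {A : Matrix ι ι K} (hA : A ∈ zlie S) :
    ∃ C ∈ zlie S, C * φ = φ * C ∧ ∀ p : Matrix ι ι K, p * φ = φ * p → (C * p).trace = (A * p).trace := by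
  classical
  obtain ⟨P, Q, d, hPQ, hQP, hφ⟩ := hdg
  have hQφP : Q * φ * P = Matrix.diagonal d := by
    rw [hφ]
    calc Q * (P * Matrix.diagonal d * Q) * P = (Q * P) * Matrix.diagonal d * (Q * P) := by noncomm_ring
      _ = Matrix.diagonal d := by rw [hQP, one_mul, mul_one]
  have hprod : Matrix.diagonal d * (Q * φ' * P) = 1 := by
    rw [← hQφP]
    calc Q * φ * P * (Q * φ' * P) = Q * φ * (P * Q) * φ' * P := by noncomm_ring
      _ = Q * (φ * φ') * P := by rw [hPQ]; noncomm_ring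
      _ = 1 := by rw [hinv, mul_one, hQP]
  have hY : ∀ i j, d i * (Q * φ' * P) i j = (1 : Matrix ι ι K) i j := by
    intro i j
    rw [← hprod, Matrix.diagonal_mul]
  have hd : ∀ i, d i ≠ 0 := by
    intro i h0
    have := hY i i
    rw [h0, zero_mul, Matrix.one_apply_eq] at this
    exact one_ne_zero this.symm
  have hY2 : Q * φ' * P = Matrix.diagonal (fun i => (d i)⁻¹) := by
    ext i j
    have h1 := hY i j
    by_cases hij : i = j
    · subst hij
      rw [Matrix.one_apply_eq] at h1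
      rw [Matrix.diagonal_apply_eq]
      exact eq_inv_of_mul_eq_one_right h1
    · rw [Matrix.one_apply_ne hij] at h1
      rw [Matrix.diagonal_apply_ne _ hij]
      exact (mul_eq_zero.1 h1).resolve_left (hd i)
  have hent : ∀ (C : Matrix ι ι K) (i j : ι), (Q * (φ * C * φ') * P) i j = d i / d j * (Q * C * P) i j := by
    intro C i j
    have h1 : Q * (φ * C * φ') * P = Matrix.diagonal d * (Q * C * P) * Matrix.diagonal (fun i => (d i)⁻¹) := by
      rw [← hQφP, ← hY2]
      calc Q * (φ * C * φ') * P = Q * φ * 1 * C * 1 * φ' * P := by noncomm_ring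
        _ = Q * φ * (P * Q) * C * (P * Q) * φ' * P := by rw [hPQ]
        _ = _ := by noncomm_ring
    rw [h1, Matrix.mul_diagonal, Matrix.diagonal_mul]
    field_simp
  obtain ⟨C, hC, hC1, hC2⟩ := tr_step hcnj hent hinv hA
    (((Finset.univ : Finset (ι × ι)).image (fun q => d q.1 / d q.2)).erase 1) (Finset.notMem_erase _ _)
  refine ⟨C, hC, ?_, hC2⟩
  have hzero : ∀ i j, d i ≠ d j → (Q * C * P) i j = 0 := by
    intro i j hij
    refine hC1 i j (Finset.mem_erase.2 ⟨?_, Finset.mem_image.2 ⟨(i, j), Finset.mem_univ _, rfl⟩⟩)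
    intro h
    exact hij ((div_eq_one_iff_eq (hd j)).1 h)
  have hcomm : (Q * C * P) * Matrix.diagonal d = Matrix.diagonal d * (Q * C * P) := by
    ext i j
    rw [Matrix.mul_diagonal, Matrix.diagonal_mul]
    by_cases hij : d i = d j
    · rw [hij, mul_comm]
    · rw [hzero i j hij, zero_mul, mul_zero]
  calc C * φ = P * ((Q * C * P) * Matrix.diagonal d) * Q := by
        rw [hφ]
        calc C * (P * Matrix.diagonal d * Q) = 1 * C * P * Matrix.diagonal d * Q := by noncomm_ring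
          _ = (P * Q) * C * P * Matrix.diagonal d * Q := by rw [hPQ]
          _ = _ := by noncomm_ring
    _ = φ * C := by
        rw [hcomm, hφ]
        calc P * (Matrix.diagonal d * (Q * C * P)) * Q = P * Matrix.diagonal d * Q * C * (P * Q) := by noncomm_ring
          _ = _ := by rw [hPQ, mul_one]

/-- An element of the Lie algebra of the torus acts on the eigenvectors of `x` by a function of the eigenvalue which
satisfies all linear relations that come from multiplicative relations between eigenvalues. -/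
theorem tor_fun {x X : Matrix ι ι K} (hdg : Diagonalisable x) (hdet : x.det ≠ 0)
    (hX : X ∈ zlie {m | ∃ n : ℕ, m = x ^ n}) :
    ∃ f : K → K, (∀ (c : K) (z : ι → K), x *ᵥ z = c • z → X *ᵥ z = f c • z) ∧
      ∀ (I : Type) [Fintype I] (lam : I → K) (m : I → ℤ), (∀ s, ∃ z : ι → K, z ≠ 0 ∧ x *ᵥ z = lam s • z) →
        ∏ s, lam s ^ m s = 1 → ∑ s, (m s : K) * f (lam s) = 0 := by
  classical
  obtain ⟨P, Q, d, hPQ, hQP, hx⟩ := hdg
  have hd : ∀ k, d k ≠ 0 := by
    intro k hk
    apply hdet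
    rw [hx, Matrix.det_mul, Matrix.det_mul, Matrix.det_diagonal,
      Finset.prod_eq_zero (Finset.mem_univ k) hk, mul_zero, zero_mul]
  obtain ⟨f₀, hXf, hf⟩ := zlie_pow hPQ hQP hd hx hX
  have hev : ∀ (c : K) (z : ι → K), z ≠ 0 → x *ᵥ z = c • z → ∃ k, d k = c := by
    intro c z hz hxz
    have h1 : Matrix.diagonal d *ᵥ (Q *ᵥ z) = c • (Q *ᵥ z) := by
      rw [← Matrix.mulVec_smul, ← hxz, hx, Matrix.mulVec_mulVec, Matrix.mulVec_mulVec,
        ← mul_assoc, ← mul_assoc, hQP, one_mul]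
    obtain ⟨k, hk⟩ : ∃ k, (Q *ᵥ z) k ≠ 0 := by
      by_contra hcon
      push Not at hcon
      apply hz
      have h2 : Q *ᵥ z = 0 := funext hcon
      have h3 : P *ᵥ (Q *ᵥ z) = z := by rw [Matrix.mulVec_mulVec, hPQ, Matrix.one_mulVec]
      rw [← h3, h2, Matrix.mulVec_zero]
    have h2 := congrFun h1 k
    rw [Matrix.mulVec_diagonal, Pi.smul_apply, smul_eq_mul] at h2
    exact ⟨k, mul_right_cancel₀ hk h2⟩
  obtain ⟨f, hfd⟩ : ∃ f : K → K, ∀ k, f (d k) = f₀ k := by
    refine ⟨fun c => if h : ∃ k, d k = c then f₀ h.choose else 0, fun k => ?_⟩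
    have h1 : ∃ k', d k' = d k := ⟨k, rfl⟩
    beta_reduce
    rw [dif_pos h1]
    exact G13_eq hd hf h1.choose_spec
  refine ⟨f, fun c z hxz => ?_, fun I _ lam m hlam hprod => ?_⟩
  · by_cases hz : z = 0
    · rw [hz, Matrix.mulVec_zero, smul_zero]
    · obtain ⟨k, rfl⟩ := hev c z hz hxz
      rw [hfd]
      exact G13_act hPQ hQP hd hx hXf hf hxz
  · have h1 : ∀ s, ∃ k, d k = lam s := fun s => by
      obtain ⟨z, hz, hxz⟩ := hlam s
      exact hev _ z hz hxz
    choose κ hκ using h1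
    have h2 : ∏ k, d k ^ (∑ s ∈ Finset.univ.filter (fun s => κ s = k), m s) = 1 := by
      rw [← hprod]
      have e1 : ∀ k, d k ^ (∑ s ∈ Finset.univ.filter (fun s => κ s = k), m s) =
          ∏ s ∈ Finset.univ.filter (fun s => κ s = k), lam s ^ m s := by
        intro k
        have e2 : ∀ s ∈ Finset.univ.filter (fun s => κ s = k), lam s ^ m s = d k ^ m s := by
          intro s hs
          rw [← hκ s, (Finset.mem_filter.1 hs).2]
        rw [Finset.prod_congr rfl e2]
        generalize Finset.univ.filter (fun s => κ s = k) = T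
        induction T using Finset.induction_on with
        | empty => simp
        | insert a T ha ih => rw [Finset.sum_insert ha, Finset.prod_insert ha, zpow_add₀ (hd k), ih]
      rw [Finset.prod_congr rfl fun k _ => e1 k]
      exact Finset.prod_fiberwise Finset.univ κ fun s => lam s ^ m s
    have h3 := hf _ h2
    have e3 : ∀ k, ((∑ s ∈ Finset.univ.filter (fun s => κ s = k), m s : ℤ) : K) * f₀ k =
        ∑ s ∈ Finset.univ.filter (fun s => κ s = k), (m s : K) * f (lam s) := by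
      intro k
      rw [Int.cast_sum, Finset.sum_mul]
      refine Finset.sum_congr rfl fun s hs => ?_
      rw [← hκ s, (Finset.mem_filter.1 hs).2, hfd]
    rw [Finset.sum_congr rfl fun k _ => e3 k] at h3
    rw [← h3]
    exact (Finset.sum_fiberwise Finset.univ κ fun s => (m s : K) * f (lam s)).symm

end Pool.Agent.H25W
end

-- from Lib.H34Z.MD
section

/-!
# MD: the situation at one prime
-/

set_option autoImplicit false
set_option linter.unusedSectionVars false
namespace Pool.Agent.H34Z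
open Module Matrix Pool.Agent.H53Toric Pool.Agent.H76P
open Pool.Agent.H76U (cmp preL Lb Split4)
open Pool.Agent.H76Y (LcN)

section
variable {ι : Type*} [Fintype ι] [DecidableEq ι] {K : Type*} [Field K]

/-- The set of the matrices `t ^ h`. -/
def par (𝓗 : Set (Matrix ι ι K)) : Set (Matrix ι ι K) := {m | ∃ h ∈ 𝓗, ∃ t : K, t ≠ 0 ∧ m = 1 + (t - 1) • h}

/-- The situation at one prime, for the image `S` of one subgroup of finite index: `J` is the form, `u` a unit of `DD` such that the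
adjoint of `e b` for the form `J * u` is `e (bar b)`; `𝓗` the projectors; `x` a product of elements `t ^ h`; the columns of `U b` are
eigenvectors of `x`; all components of the Lie algebra are full. -/
structure Sit (J u : Matrix ι ι K) (DD : Submodule K (Matrix ι ι K)) (S 𝓗 : Set (Matrix ι ι K)) (x : Matrix ι ι K)
    {B : Type*} [Fintype B] [DecidableEq B] (bar : B → B) (e : B → Matrix ι ι K) (n : B → ℕ)
    (U : ∀ b, Matrix ι (Fin (n b)) K) (V : ∀ b, Matrix (Fin (n b)) ι K) (d : ∀ b, Fin (n b) → K) : Prop where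
  one : (1 : Matrix ι ι K) ∈ S
  mul : ∀ a ∈ S, ∀ b ∈ S, a * b ∈ S
  SD : ∀ s ∈ S, ∀ y ∈ DD, s * y = y * s
  commt : ∀ y : Matrix ι ι K, (∀ s ∈ S, y * s = s * y) → y ∈ DD
  hi : ∀ h ∈ 𝓗, h * h = h
  hs : ∀ h ∈ 𝓗, hᵀ * J + J * h = J
  hz : ∀ h ∈ 𝓗, h ∈ zlie S
  gen : S ⊆ zar (Submonoid.closure (par 𝓗) : Set (Matrix ι ι K))
  spl : Split4 (J * u) DD bar e
  hu : u ∈ DD
  hJ : IsUnit J.det
  hu0 : IsUnit u.det
  UV : ∀ b, e b = U b * V b
  VU : ∀ b, V b * U b = 1
  pos : ∀ b, 0 < n b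
  ec : ∀ b, EC x (U b) (d b)
  hx : x ∈ Submonoid.closure (par 𝓗)
  hh : ∃ h ∈ 𝓗, h * x = x * h
  bal : ∀ h ∈ 𝓗, ∀ b, 2 * (h * e b).rank = n b
  irr : ∀ b, Irr (LcN J S (U b) (V b))
  full : ∀ b, FB (bar b = b) (LcN J S (U b) (V b)) ((U b)ᵀ * (J * u) * U b)

/-- The span of the brackets of the infinitesimal similitudes in the Lie algebra. -/
def brk (J : Matrix ι ι K) (S : Set (Matrix ι ι K)) : Submodule K (Matrix ι ι K) :=
  Submodule.span K {C | ∃ A ∈ preL J S, ∃ A' ∈ preL J S, C = A * A' - A' * A}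

/-- The block of a matrix, as an operator. -/
noncomputable def pb {n : ℕ} (U : Matrix ι (Fin n) K) (V : Matrix (Fin n) ι K) :
    Matrix ι ι K →ₗ[K] Module.End K (Fin n → K) :=
  (phi (ι := Fin n) (K := K)).toLinearMap ∘ₗ cmp U V

theorem pb_apply {n : ℕ} (U : Matrix ι (Fin n) K) (V : Matrix (Fin n) ι K) (A : Matrix ι ι K) :
    pb U V A = phi (V * A * U) := rfl

end

end Pool.Agent.H34Z
end

-- from Lib.H34V.ND
section

/-!
# ND: the situation at one prime, any signature
-/

set_option autoImplicit false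
set_option linter.unusedSectionVars false
namespace Pool.Agent.H34V
open Module Matrix Pool.Agent.H53Toric Pool.Agent.H76P Pool.Agent.H34Z
open Pool.Agent.H76U (cmp preL Lb Split4)
open Pool.Agent.H76Y (LcN)

section
variable {ι : Type*} [Fintype ι] [DecidableEq ι] {K : Type*} [Field K]

/-- The situation at one prime, for the image `S` of one subgroup of finite index: `J` is the form, `u` a unit of `DD` such that the
adjoint of `e b` for the form `J * u` is `e (bar b)`; `𝓗` the projectors; `x` a product of elements `t ^ h`; the columns of `U b` are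
eigenvectors of `x`; all components of the Lie algebra of rank at least two are full; `hh`: every such component has a projector which
commutes with `x` and is not trivial on it; `six`, `twi`, `twd`: no exceptional isogenies or twists. -/
structure Sit5 (J u : Matrix ι ι K) (DD : Submodule K (Matrix ι ι K)) (S 𝓗 : Set (Matrix ι ι K)) (x : Matrix ι ι K)
    {B : Type*} [Fintype B] [DecidableEq B] (bar : B → B) (e : B → Matrix ι ι K) (n : B → ℕ)
    (U : ∀ b, Matrix ι (Fin (n b)) K) (V : ∀ b, Matrix (Fin (n b)) ι K) (d : ∀ b, Fin (n b) → K) : Prop where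
  one : (1 : Matrix ι ι K) ∈ S
  mul : ∀ a ∈ S, ∀ b ∈ S, a * b ∈ S
  SD : ∀ s ∈ S, ∀ y ∈ DD, s * y = y * s
  commt : ∀ y : Matrix ι ι K, (∀ s ∈ S, y * s = s * y) → y ∈ DD
  hi : ∀ h ∈ 𝓗, h * h = h
  hs : ∀ h ∈ 𝓗, hᵀ * J + J * h = J
  hz : ∀ h ∈ 𝓗, h ∈ zlie S
  gen : S ⊆ zar (Submonoid.closure (par 𝓗) : Set (Matrix ι ι K))
  spl : Split4 (J * u) DD bar e
  hu : u ∈ DD
  hJ : IsUnit J.det
  hu0 : IsUnit u.det
  UV : ∀ b, e b = U b * V b
  VU : ∀ b, V b * U b = 1
  pos : ∀ b, 0 < n b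
  ec : ∀ b, EC x (U b) (d b)
  hx : x ∈ Submonoid.closure (par 𝓗)
  hh : ∀ b, 2 ≤ n b → ∃ h ∈ 𝓗, h * x = x * h ∧ (h * e b).rank ≠ 0 ∧ (h * e b).rank ≠ n b
  irr : ∀ b, Irr (LcN J S (U b) (V b))
  full : ∀ b, 2 ≤ n b → FV (bar b = b) (LcN J S (U b) (V b)) ((U b)ᵀ * (J * u) * U b)
  six : ∀ b c, bar b = b → bar c ≠ c → ((U b)ᵀ * (J * u) * U b)ᵀ = (U b)ᵀ * (J * u) * U b → n b = 6 → n c = 4 →
    ∀ f f' : Fin (n b) → Fin (n c), (∀ i, f i ≠ f' i) →
      ∃ i j, d b i * d c (f j) * d c (f' j) ≠ d b j * d c (f i) * d c (f' i)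
  twi : ∀ b c, c ≠ b → c ≠ bar b → 2 ≤ n b → n c = n b → (∀ h ∈ 𝓗, (h * e b).rank = (h * e c).rank) ∨
    ∀ π : Fin (n b) → Fin (n c), ∃ k k', d c (π k) * d b k' ≠ d c (π k') * d b k
  twd : ∀ b c, c ≠ b → c ≠ bar b → 2 ≤ n b → n c = n b → (∀ h ∈ 𝓗, (h * e b).rank + (h * e c).rank = n b) ∨
    ∀ π : Fin (n b) → Fin (n c), ∃ k k', d c (π k) * d b k ≠ d c (π k') * d b k'

/-- The mean value of the block of `2 h - 1`. -/
noncomputable def shf (h p : Matrix ι ι K) (n : ℕ) : K := 2 * ((h * p).rank : K) / (n : K) - 1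

end

end Pool.Agent.H34V
end

-- from Lib.H34V.N01
section

/-!
# N01: basic facts (port of H34Z/M01)
-/

set_option autoImplicit false
set_option linter.unusedSectionVars false
namespace Pool.Agent.H34V
open Module Matrix Pool.Agent.H53Toric Pool.Agent.H76P Pool.Agent.H34Z
open Pool.Agent.H76U (cmp preL Lb Split4)
open Pool.Agent.H76Y (LcN)
open Pool.Agent.H76RM (zar_commute zlie_commute)

variable {ι : Type*} [Fintype ι] [DecidableEq ι] {K : Type*} [Field K] [CharZero K] [IsAlgClosed K]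
  {J u : Matrix ι ι K} {DD : Submodule K (Matrix ι ι K)} {S 𝓗 : Set (Matrix ι ι K)} {x : Matrix ι ι K}
  {B : Type*} [Fintype B] [DecidableEq B] {bar : B → B} {e : B → Matrix ι ι K} {n : B → ℕ}
  {U : ∀ b, Matrix ι (Fin (n b)) K} {V : ∀ b, Matrix (Fin (n b)) ι K} {d : ∀ b, Fin (n b) → K}

namespace Sit5
variable (g : Sit5 J u DD S 𝓗 x bar e n U V d)
include g

/-- PROOF. `zlie_commute g.one` and `g.SD`. -/
theorem zD {A : Matrix ι ι K} (hA : A ∈ zlie S) {y : Matrix ι ι K} (hy : y ∈ DD) : A * y = y * A := by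
  haveI : Infinite K := inferInstance
  exact zlie_commute g.one (fun s hs => g.SD s hs y hy) hA

/-- PROOF. `A = C + c • 1` with `C ∈ zlie S`. -/
theorem pD {A : Matrix ι ι K} (hA : A ∈ preL J S) {y : Matrix ι ι K} (hy : y ∈ DD) : A * y = y * A := by
  obtain ⟨⟨c, C, hC, rfl⟩, -⟩ := hA
  rw [add_mul, mul_add, g.zD hC hy, smul_mul_assoc, mul_smul_comm, one_mul, mul_one]

/-- PROOF. `⟨⟨0, h, _, _⟩, 1, _⟩` with `g.hz`, `g.hs`. -/
theorem hpre {h : Matrix ι ι K} (hh : h ∈ 𝓗) : h ∈ preL J S := by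
  refine ⟨⟨0, h, g.hz h hh, ?_⟩, 1, ?_⟩
  · rw [zero_smul, add_zero]
  · rw [one_smul]
    exact g.hs h hh

/-- PROOF. `preL J S` is a submodule and contains `1` (`⟨⟨1, 0, ..⟩, 2, ..⟩`). -/
theorem ypre {h : Matrix ι ι K} (hh : h ∈ 𝓗) : (2 : K) • h - 1 ∈ preL J S := by
  have h1 : (1 : Matrix ι ι K) ∈ preL J S := by
    refine ⟨⟨1, 0, (zlie S).zero_mem, ?_⟩, 2, ?_⟩
    · rw [one_smul, zero_add]
    · rw [Matrix.transpose_one, one_mul, mul_one, two_smul]
  exact (preL J S).sub_mem ((preL J S).smul_mem 2 (g.hpre hh)) h1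

/-- PROOF. `(2h-1)ᵀ J + J (2h-1) = 2 J - 2 J = 0` (`g.hs`); multiply with `u`, which commutes with `h`. -/
theorem yskew {h : Matrix ι ι K} (hh : h ∈ 𝓗) : ((2 : K) • h - 1)ᵀ * (J * u) + J * u * ((2 : K) • h - 1) = 0 := by
  have h1 : h * u = u * h := g.zD (g.hz h hh) g.hu
  have h2 := g.hs h hh
  have h3 : J * u * ((2 : K) • h - 1) = J * ((2 : K) • h - 1) * u := by
    rw [mul_sub, mul_sub, sub_mul, mul_one, mul_one, mul_smul_comm, mul_smul_comm, smul_mul_assoc,
      mul_assoc J u h, ← h1, mul_assoc J h u]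
  rw [h3, ← mul_assoc, ← add_mul, Matrix.transpose_sub, Matrix.transpose_smul, Matrix.transpose_one,
    sub_mul, mul_sub, one_mul, mul_one, smul_mul_assoc, mul_smul_comm]
  have h4 : (2 : K) • (hᵀ * J) - J + ((2 : K) • (J * h) - J) = 0 := by
    have h5 : (2 : K) • (hᵀ * J) - J + ((2 : K) • (J * h) - J) = (2 : K) • (hᵀ * J + J * h) - (2 : K) • J := by
      rw [smul_add, two_smul K J]
      abel
    rw [h5, h2, sub_self]
  rw [h4, zero_mul]

/-- PROOF. `Aᵀ * (J * u) = (Aᵀ * J) * u`, `J * u * A = J * A * u` (`pD`, `g.hu`). -/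
theorem pskew {A : Matrix ι ι K} (hA : A ∈ preL J S) {c : K} (hc : Aᵀ * J + J * A = c • J) :
    Aᵀ * (J * u) + J * u * A = c • (J * u) := by
  have h1 : A * u = u * A := g.pD hA g.hu
  rw [mul_assoc J u A, ← h1, ← mul_assoc, ← mul_assoc, ← add_mul, hc, smul_mul_assoc]

/-- PROOF. `Matrix.det_mul`, `IsUnit.mul`. -/
theorem det' : IsUnit (J * u).det := by
  rw [Matrix.det_mul]
  exact g.hJ.mul g.hu0

/-- PROOF. `(y * e b)`...: `U b = e b * U b` (`g.UV`, `g.VU`). -/
theorem eU (b : B) : e b * U b = U b := by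
  rw [g.UV b, Matrix.mul_assoc, g.VU b, Matrix.mul_one]

theorem Ve (b : B) : V b * e b = V b := by
  rw [g.UV b, ← Matrix.mul_assoc, g.VU b, Matrix.one_mul]

/-- PROOF. Closure induction (`Submonoid.closure_induction`): `(1 + (t-1) h) (1 + (t⁻¹-1) h) = 1` as `h h = h`; `1 + (t-1) h` commutes with `DD` (`zD`,
`g.hz`) and `(1 + (t-1) h)ᵀ J (1 + (t-1) h) = t J` (`H76Y.EN.mult_par` in H76Y/EN2.lean, proof: `hᵀ J h = 0`).  Products: multiply the inverses in the opposite
order, multiply the factors. -/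
theorem cl {y : Matrix ι ι K} (hy : y ∈ Submonoid.closure (par 𝓗)) :
    (∃ y', y' ∈ Submonoid.closure (par 𝓗) ∧ y * y' = 1 ∧ y' * y = 1) ∧ (∀ z ∈ DD, y * z = z * y) ∧
      ∃ c : K, c ≠ 0 ∧ yᵀ * J * y = c • J := by
  induction hy using Submonoid.closure_induction with
  | mem y hy =>
    obtain ⟨h, hh, t, ht, rfl⟩ := hy
    have hi := g.hi h hh
    have hs := g.hs h hh
    have key : ∀ a b : K, a + b + a * b = 0 → (1 + a • h) * (1 + b • h) = 1 := by
      intro a b hab
      have h1 : (1 + a • h) * (1 + b • h) = 1 + (a + b + a * b) • h := by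
        rw [add_mul, one_mul, mul_add, mul_one, smul_mul_smul_comm, hi, add_smul, add_smul]
        abel
      rw [h1, hab, zero_smul, add_zero]
    refine ⟨⟨1 + (t⁻¹ - 1) • h, Submonoid.subset_closure ⟨h, hh, t⁻¹, inv_ne_zero ht, rfl⟩, ?_, ?_⟩, ?_, t, ht, ?_⟩
    · refine key _ _ ?_
      field_simp
      ring
    · refine key _ _ ?_
      field_simp
      ring
    · intro z hz
      rw [add_mul, mul_add, one_mul, mul_one, smul_mul_assoc, mul_smul_comm, g.zD (g.hz h hh) hz]
    · have h1 : hᵀ * J * h = 0 := by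
        have h2 := congrArg (fun m => m * h) hs
        have h3 : (hᵀ * J + J * h) * h = J * h := h2
        rw [add_mul, mul_assoc J h h, hi] at h3
        exact add_eq_right.1 h3
      rw [Matrix.transpose_add, Matrix.transpose_one, Matrix.transpose_smul]
      have h4 : (1 + (t - 1) • hᵀ) * J * (1 + (t - 1) • h) =
          J + (t - 1) • (hᵀ * J + J * h) + ((t - 1) * (t - 1)) • (hᵀ * J * h) := by
        rw [add_mul, one_mul, mul_add, mul_one, add_mul, smul_mul_assoc, mul_smul_comm, smul_mul_assoc,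
          mul_smul_comm, smul_smul, smul_add]
        abel
      rw [h4, h1, hs, smul_zero, add_zero, sub_smul, one_smul]
      abel
  | one =>
    refine ⟨⟨1, Submonoid.one_mem _, one_mul 1, one_mul 1⟩, fun z _ => ?_, 1, one_ne_zero, ?_⟩
    · rw [one_mul, mul_one]
    · rw [Matrix.transpose_one, one_mul, mul_one, one_smul]
  | mul y z hy hz ihy ihz =>
    obtain ⟨⟨y', hy', hy1, hy2⟩, hy3, c, hc, hy4⟩ := ihy
    obtain ⟨⟨z', hz', hz1, hz2⟩, hz3, c', hc', hz4⟩ := ihz
    refine ⟨⟨z' * y', Submonoid.mul_mem _ hz' hy', ?_, ?_⟩, fun w hw => ?_, c * c', mul_ne_zero hc hc', ?_⟩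
    · calc y * z * (z' * y') = y * (z * z') * y' := by simp only [mul_assoc]
        _ = 1 := by rw [hz1, mul_one, hy1]
    · calc z' * y' * (y * z) = z' * (y' * y) * z := by simp only [mul_assoc]
        _ = 1 := by rw [hy2, mul_one, hz2]
    · rw [mul_assoc, hz3 w hw, ← mul_assoc, hy3 w hw, mul_assoc]
    · rw [Matrix.transpose_mul]
      calc zᵀ * yᵀ * J * (y * z) = zᵀ * (yᵀ * J * y) * z := by simp only [mul_assoc]
        _ = (c * c') • J := by
          rw [hy4, mul_smul_comm, smul_mul_assoc, hz4, smul_smul]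

end Sit5

end Pool.Agent.H34V
end

-- from Lib.H45U.NS
section

/-!
# NS: a component respects no form if the eigenvalues of Frobenius are not dual to themselves
-/

set_option autoImplicit false
set_option linter.unusedSectionVars false
namespace Pool.Agent.H45U
open Module Matrix Polynomial Pool.Agent.H53Toric
open Pool.Agent.H25U
open Pool.Agent.H76P hiding Hs Yo pt pt_apply wc IsWt
open Pool.Agent.H76Q
open Pool.Agent.H76Y hiding CmpN TM LocN GoodN Cls Core3 PartN MumN
open Pool.Agent.H76Z hiding LocN GoodN Cls Core3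
open Pool.Agent.H76U (cmp preL Lb)
open Pool.Agent.H45Q (cmp_par cmp_inv inv_comm)

section
variable {ι : Type*} [Fintype ι] [DecidableEq ι] {K : Type*} [Field K] [CharZero K]
  {e : Matrix ι ι K} {n : ℕ} {U : Matrix ι (Fin n) K} {V : Matrix (Fin n) ι K}

/-- The group generated by the one parameter groups preserves an invariant form up to scalars. -/
theorem form_tgen [Nonempty (Fin n)] (hUV : e = U * V) (hVU : V * U = 1) {𝓗 : Set (Matrix ι ι K)}
    {L : Submodule K (Module.End K (Fin n → K))} (hL : CmpN L)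
    (par : ∀ k ∈ 𝓗, k * k = k ∧ k * e = e * k ∧ ∃ c : ℚ, phi (cmp U V ((2 : K) • k - (c : K) • 1)) ∈ L)
    {B : (Fin n → K) →ₗ[K] (Fin n → K) →ₗ[K] K} (hB : B ≠ 0)
    (hinv : ∀ X ∈ L, ∀ v w, B (X v) w + B v (X w) = 0)
    {y : Matrix ι ι K} (hy : y ∈ Submonoid.closure {x | ∃ k ∈ 𝓗, ∃ t : K, t ≠ 0 ∧ x = 1 + (t - 1) • k}) :
    y * e = e * y ∧ ∃ c : K, ∀ v w, B (phi (cmp U V y) v) (phi (cmp U V y) w) = c * B v w := by
  induction hy using Submonoid.closure_induction with
  | mem y hy =>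
    obtain ⟨k, hk, t, ht, rfl⟩ := hy
    obtain ⟨hkk, hke, c, hc⟩ := par k hk
    refine ⟨by rw [add_mul, mul_add, one_mul, mul_one, smul_mul_assoc, mul_smul_comm, hke], ?_⟩
    obtain ⟨z, hz⟩ : ∃ z, z = phi (cmp U V ((2 : K) • k - (c : K) • 1)) := ⟨_, rfl⟩
    obtain ⟨w, hw⟩ : ∃ w, w = phi (cmp U V ((2 : K) • k - 1)) := ⟨_, rfl⟩
    rw [← hz] at hc
    have hww : w * w = 1 := by rw [hw]; exact cmp_inv hUV hVU hkk hke
    have hzw : w = z + ((c : K) - 1) • 1 := by
      have e1 : (2 : K) • k - 1 = ((2 : K) • k - (c : K) • 1) + ((c : K) - 1) • (1 : Matrix ι ι K) := by module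
      rw [hw, hz, e1, map_add, map_smul, Pool.Agent.H76U.cmp_one hUV hVU, map_add, map_smul, map_one]
    have hpar := cmp_par hUV hVU k t
    rw [← hw] at hpar
    rw [hpar]
    by_cases hz0 : z = 0
    · rw [hz0, zero_add] at hzw
      refine ⟨((1 + t) / 2 + (t - 1) / 2 * ((c : K) - 1)) * ((1 + t) / 2 + (t - 1) / 2 * ((c : K) - 1)), fun v u => ?_⟩
      have h1 : ∀ v : Fin n → K, (((1 + t) / 2) • (1 : Module.End K (Fin n → K)) + ((t - 1) / 2) • w) v =
          ((1 + t) / 2 + (t - 1) / 2 * ((c : K) - 1)) • v := by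
        intro v
        rw [hzw, LinearMap.add_apply, LinearMap.smul_apply, LinearMap.smul_apply, LinearMap.smul_apply,
          Module.End.one_apply]
        module
      rw [h1, h1, map_smul, map_smul, LinearMap.smul_apply, smul_eq_mul, smul_eq_mul]
      ring
    · have h0 : (c : K) - 1 = 0 := hL.shift_zero hB hinv hc hz0 (by rw [← hzw]; exact hww)
      rw [h0, zero_smul, add_zero] at hzw
      refine ⟨t, fun v u => ?_⟩
      have h1 : ∀ v u, B (w v) u = -B v (w u) := fun v u => by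
        rw [hzw]
        exact eq_neg_of_add_eq_zero_left (hinv z hc v u)
      have h2 : ∀ v, w (w v) = v := fun v => LinearMap.congr_fun hww v
      have h3 : B (w v) (w u) = -B v u := by rw [h1, h2]
      simp only [LinearMap.add_apply, LinearMap.smul_apply, Module.End.one_apply, map_add, map_smul, smul_eq_mul]
      rw [h3, h1 v u]
      ring
  | one =>
    refine ⟨by rw [one_mul, mul_one], 1, fun v w => ?_⟩
    rw [Pool.Agent.H76U.cmp_one hUV hVU, map_one, one_mul, Module.End.one_apply, Module.End.one_apply]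
  | mul a b _ _ iha ihb =>
    obtain ⟨ha, c, hc⟩ := iha
    obtain ⟨hb, c', hc'⟩ := ihb
    refine ⟨by rw [mul_assoc, hb, ← mul_assoc, ha, mul_assoc], c * c', fun v w => ?_⟩
    rw [Pool.Agent.H76U.cmp_mul hUV hVU hb, map_mul, Module.End.mul_apply, Module.End.mul_apply, hc, hc', mul_assoc]

/-- The component respects no form if the eigenvalues of an element of the group are not dual to themselves. -/
theorem ns_roots {Ω : Type*} [Field Ω] (i : Ω →+* K) [Nonempty (Fin n)] {J : Matrix ι ι K} {S 𝓗 : Set (Matrix ι ι K)}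
    {x : Matrix ι ι K} {a : Fin n → Ω} {Y : Submodule ℚ (Fin n → ℚ)}
    (h : LocU J S 𝓗 e x U V (fun k => i (a k)) Y)
    (hx : x ∈ Submonoid.closure {x | ∃ k ∈ 𝓗, ∃ t : K, t ≠ 0 ∧ x = 1 + (t - 1) • k})
    (hno : ¬ ∃ z : Ω, ∀ k, ∃ k', a k * a k' = z) : NsL (LcN J S U V) := by
  classical
  intro B hinv
  by_contra hB
  obtain ⟨-, c, hc⟩ := form_tgen h.UV h.VU h.ts.cmp h.par hB hinv hx
  have hker : ∀ v, B v = 0 → v = 0 := by
    intro v hv
    rcases h.ts.cmp.irr (LinearMap.ker B) (by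
      intro X hX v hv
      rw [LinearMap.mem_ker] at hv ⊢
      ext w
      have h1 := hinv X hX v (Pi.single w 1)
      rw [hv, LinearMap.zero_apply, add_zero] at h1
      exact h1) with h1 | h1
    · have h2 : v ∈ LinearMap.ker B := hv
      rw [h1, Submodule.mem_bot] at h2
      exact h2
    · exact absurd (LinearMap.ker_eq_top.1 h1) hB
  have hd : ∀ k, phi (cmp U V x) (Pi.single k 1) = i (a k) • Pi.single k (1 : K) := by
    intro k
    have h1 : cmp U V x = Matrix.diagonal (fun k => i (a k)) := by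
      show V * x * U = _
      rw [Matrix.mul_assoc, h.ec.eig, ← Matrix.mul_assoc, h.VU, Matrix.one_mul]
    rw [h1]
    show Matrix.toLin' (Matrix.diagonal fun k => i (a k)) (Pi.single k 1) = _
    rw [Matrix.toLin'_apply]
    ext l
    rw [Matrix.mulVec_diagonal]
    by_cases hkl : l = k
    · subst hkl
      simp
    · simp [hkl]
  have hex : ∀ k, ∃ k', B (Pi.single k 1) (Pi.single k' 1) ≠ 0 := by
    intro k
    by_contra hcon
    push Not at hcon
    have h1 : B (Pi.single k 1) = 0 := by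
      apply LinearMap.ext
      intro w
      have h2 : w = ∑ l, w l • (Pi.single l (1 : K)) := by
        ext l
        rw [Finset.sum_apply]
        simp [Pi.single_apply]
      rw [h2, map_sum, LinearMap.zero_apply]
      refine Finset.sum_eq_zero fun l _ => ?_
      rw [map_smul, hcon l, smul_zero]
    have h3 := congrFun (hker _ h1) k
    rw [Pi.single_eq_same, Pi.zero_apply] at h3
    exact one_ne_zero h3
  have hprod : ∀ k k', B (Pi.single k 1) (Pi.single k' 1) ≠ 0 → i (a k) * i (a k') = c := by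
    intro k k' hne
    have h1 := hc (Pi.single k 1) (Pi.single k' 1)
    rw [hd, hd, map_smul, map_smul, LinearMap.smul_apply, smul_eq_mul, smul_eq_mul, ← mul_assoc] at h1
    rw [mul_comm (i (a k)), mul_right_cancel₀ hne h1]
  obtain ⟨k₀⟩ := ‹Nonempty (Fin n)›
  obtain ⟨k₁, hk₁⟩ := hex k₀
  refine hno ⟨a k₀ * a k₁, fun k => ?_⟩
  obtain ⟨k', hk'⟩ := hex k
  refine ⟨k', i.injective ?_⟩
  rw [map_mul, map_mul, hprod _ _ hk', hprod _ _ hk₁]

end

end Pool.Agent.H45U
end

-- from Lib.H76Y.A7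
section

/-!
# existence of the local data
-/

set_option autoImplicit false
set_option linter.unusedSectionVars false
namespace Pool.Agent.H76Y
open Pool.Agent.H76P Pool.Agent.H76V Pool.Agent.H76Q
open Module Matrix Polynomial Pool.Agent.H53Toric
open Pool.Agent.H76T (IsIdeal Fam Lc)
open Pool.Agent.H76U (cmp preL IsSplitting Lb)
open Pool.Agent.H76RM (spanK similD)

variable {ι : Type*} [Fintype ι] [DecidableEq ι] {K : Type*} [Field K] [CharZero K]
  [IsAlgClosed K]

section
variable {B : Type*} [Fintype B] [DecidableEq B]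
  {J : Matrix ι ι K} {DD : Submodule K (Matrix ι ι K)}
  {bar : B → B} {e : B → Matrix ι ι K} (h : H76U.Split4 J DD bar e) {b : B}
  {n : ℕ} {S : Set (Matrix ι ι K)} {𝓗 : Set (Matrix ι ι K)} {φ φ' : Matrix ι ι K}
  {P : Matrix ι (Fin n) K} {Q : Matrix (Fin n) ι K}
  (hPQ : e b = P * Q) (hQP : Q * P = 1)
  (g : PH S J DD 𝓗 φ φ')

include h hPQ hQP g in
/-- A component which is its own conjugate respects an alternating form. -/
theorem syl (hb : bar b = b) (hJ : Jᵀ = -J) (hdet : IsUnit J.det) (hn : 0 < n) :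
    SyL (LcN J S P Q) := by
  have hpJ : (e b)ᵀ * J = J * e b := by
    have := h.adj b
    rwa [hb] at this
  have hdb : IsUnit (Pᵀ * J * P).det := Pool.Agent.H76U.det_cmp hPQ hQP hpJ hdet
  refine ⟨Pᵀ * J * P, ?_, hdb, ?_⟩
  · rw [Matrix.transpose_mul, Matrix.transpose_mul, Matrix.transpose_transpose, hJ,
      Matrix.neg_mul, Matrix.mul_neg, Matrix.mul_assoc]
  · rintro X ⟨hX, htr⟩
    obtain ⟨x, rfl⟩ := (phi (ι := Fin n) (K := K)).surjective X
    obtain ⟨A, hA, rfl⟩ := Pool.Agent.H76U.mem_Lb.1 hX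
    have hAe := Pool.Agent.H76V.preL_ec (b := b) h g.sh hA
    obtain ⟨-, d, hd⟩ := hA
    have h1 := Pool.Agent.H76U.cmp_sim hPQ hQP hpJ hAe
    rw [hd, Matrix.mul_smul, Matrix.smul_mul] at h1
    rw [g4_trace] at htr
    set A' := cmp P Q A with hA'
    set J' := Pᵀ * J * P with hJ'
    have h2 : J'⁻¹ * A'ᵀ * J' + A' = d • 1 := by
      have h3 := congrArg (fun z => J'⁻¹ * z) h1
      simp only [Matrix.mul_add, Matrix.mul_smul, ← Matrix.mul_assoc,
        Matrix.nonsing_inv_mul _ hdb, Matrix.one_mul] at h3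
      exact h3
    have h4 : d * (n : K) = 0 := by
      have h3 := congrArg Matrix.trace h2
      rw [Matrix.trace_add, Matrix.mul_assoc, Matrix.trace_mul_comm, Matrix.mul_assoc,
        Matrix.mul_nonsing_inv _ hdb, Matrix.mul_one, Matrix.trace_transpose, htr, add_zero,
        Matrix.trace_smul, Matrix.trace_one, Fintype.card_fin, smul_eq_mul] at h3
      exact h3.symm
    have h5 : d = 0 := by
      rcases mul_eq_zero.1 h4 with h6 | h6
      · exact h6
      · exact absurd h6 (by exact_mod_cast hn.ne')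
    rw [h5, zero_smul] at h2
    rw [adjE_phi, eq_neg_of_add_eq_zero_left h2, map_neg]

end

variable {L : Type*} [Field L] [CharZero L] [Algebra L K] {G : Type*} [Group G]

/-- The hypotheses of this section are those of `H76Q.mk_loc`, with the condition `bal` of balance. -/
theorem mk_loc {ψ : Matrix ι ι ℚ}
    (hψ : ψᵀ = -ψ) (hψ0 : ψ.det ≠ 0) (D : Subalgebra ℚ (Matrix ι ι ℚ))
    (ρ : G →* Matrix.GeneralLinearGroup ι L)
    (lin : ∀ σ : G, ∀ d ∈ D, (ρ σ).1 * d.map (algebraMap ℚ L) =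
      d.map (algebraMap ℚ L) * (ρ σ).1)
    (sim : ∀ σ : G, ∃ c : L, (ρ σ).1ᵀ * ψ.map (algebraMap ℚ L) * (ρ σ).1 =
      c • ψ.map (algebraMap ℚ L))
    (semis : ∀ H : Subgroup G, H.FiniteIndex → ∀ W : Submodule K (ι → K),
      (∀ s ∈ img K ρ H, ∀ w ∈ W, s *ᵥ w ∈ W) →
      ∃ W' : Submodule K (ι → K), (∀ s ∈ img K ρ H, ∀ w ∈ W', s *ᵥ w ∈ W') ∧ IsCompl W W')
    (commt : ∀ H : Subgroup G, H.FiniteIndex → ∀ y : Matrix ι ι K,
      (∀ s ∈ img K ρ H, y * s = s * y) → y ∈ spanK K D)
    (gen : ∀ g : G, (ρ g).1.map (algebraMap L K) ∈ tgen K ρ)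
    {M : Type*} [Field M] [CharZero M] {m : ℕ} {bar : Fin m → Fin m}
    {e : Fin m → Matrix ι ι M} {F : Fin m → M[X]}
    (hspl : IsSplitting D ψ bar e) {x : Matrix ι ι K} (hF : FrobT K ρ e F x)
    (hx : x ∈ tgen K ρ) {q : ℚ}
    (hmult : xᵀ * ψ.map (algebraMap ℚ K) * x = algebraMap ℚ K q • ψ.map (algebraMap ℚ K))
    {H₀ : Subgroup G} (hfin : H₀.FiniteIndex) (hprime : (H76RM.van (img K ρ H₀)).IsPrime)
    {Ω : Type*} [Field Ω] [IsAlgClosed Ω] (j : M →+* Ω) (i : Ω →+* K) (b : Fin m)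
    {n : ℕ} (bal : ∀ h ∈ properProj K ρ, 2 * (h * (e b).map (i.comp j)).rank = n)
    {a : Fin n → Ω} (ha : Function.Injective a)
    (hroot : ∀ y : Ω, (F b).eval₂ j y = 0 ↔ ∃ k, y = a k)
    (ht : ∀ k l : Fin n, ∀ N : ℕ, N ≠ 0 → a k ^ N = a l ^ N → k = l) :
    ∃ (U : Matrix ι (Fin n) K) (V : Matrix (Fin n) ι K),
      LocN (bar b = b) (ψ.map (algebraMap ℚ K)) (img K ρ H₀) (properProj K ρ) ((e b).map (i.comp j)) x
        (algebraMap ℚ K q) U V (fun k => i (a k)) (YS a) := by
  classical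
  obtain ⟨hJ, hdet⟩ := gram_basic hψ hψ0 K
  have hsplK : IsSplitting D ψ bar (fun c => (e c).map (i.comp j)) := hspl.map (i.comp j)
  have hspl4 := Pool.Agent.H76U.split4_of hsplK
  have hι : Nonempty ι := by
    by_contra hemp
    rw [not_nonempty_iff] at hemp
    apply hsplK.ne_zero b
    ext i'
    exact (hemp.false i').elim
  obtain ⟨φ', g⟩ := mk_phT (K := K) hψ hψ0 D ρ lin sim semis commt gen hF hfin hprime
  have hφe : x * (e b).map (i.comp j) = (e b).map (i.comp j) * x := g.φD _ (hspl4.mem b)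
  obtain ⟨U, V, hUV, hVU, E⟩ := exists_ecT hF j i b (hspl.idem b) hφe.symm ha hroot
  have hn : 0 < n := by
    rw [Nat.pos_iff_ne_zero]
    rintro rfl
    apply hsplK.ne_zero b
    rw [hUV]
    ext i' j'
    rw [Matrix.mul_apply, Finset.univ_eq_empty, Finset.sum_empty]
    rfl
  refine ⟨U, V, ?_⟩
  refine
    { pos := hn
      UV := hUV
      VU := hVU
      ec := E
      ex := hφe.symm
      ts := ?_
      cls := ⟨fun hb => syl (b := b) hspl4 hUV hVU g hb hJ hdet hn, fun hb =>
        nsl (b := b) hspl4 hUV hVU g.sh hb hdet bal⟩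
      yo := ?_
      par := ?_
      lie := ?_
      prod := ?_ }
  · refine mk_tm (b := b) hspl4 bal hdet hUV hVU g E hn ?_
    intro k l N hN hkl
    refine ht k l N hN (i.injective ?_)
    rw [map_pow, map_pow]
    exact hkl
  · rw [Yo_eq_YS (b := b) hspl4 bal hdet hUV hVU g E hn]
    exact YS_map i a
  · intro h hh
    exact ⟨g.sh.hi h hh, g5_comm (b := b) hspl4 g hh, bal h hh,
      (g5_inv (b := b) hspl4 bal hdet hUV hVU g hh).1⟩
  · intro C hC
    refine ⟨?_, lc_of_zlie (b := b) hspl4 hdet hUV hVU g hn hC⟩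
    exact Pool.Agent.H76RM.zlie_commute g.sh.one (fun s hs => g.sh.SD s hs _ (hspl4.mem b)) hC
  · obtain ⟨-, c, -, hc, hd⟩ := EN.tgen_det (n := n) (J := ψ.map (algebraMap ℚ K)) hUV hVU
      (𝓗 := properProj K ρ) (fun h hh => ⟨g.sh.hi h hh, g5_comm (b := b) hspl4 g hh, g.sh.hs h hh,
        bal h hh⟩) hx
    have hJ0 : ψ.map (algebraMap ℚ K) ≠ 0 := by
      intro h0
      rw [h0] at hdet
      rw [Matrix.det_zero] at hdet
      exact not_isUnit_zero hdet
    have hcq : c = algebraMap ℚ K q := smul_left_injective K hJ0 (by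
      show c • ψ.map (algebraMap ℚ K) = algebraMap ℚ K q • ψ.map (algebraMap ℚ K)
      rw [← hc, hmult])
    have hdg : cmp U V x = Matrix.diagonal (fun k => i (a k)) := cmp_phi hVU E
    rw [hdg, Matrix.det_diagonal, hcq] at hd
    exact hd

end Pool.Agent.H76Y
end

-- from Lib.H76Y.W2
section

/-!
# the local data
-/

set_option autoImplicit false

/-!
# the local data
-/
set_option linter.unusedSectionVars false
namespace Pool.Agent.H76Y
open Pool.Agent.H76P Pool.Agent.H76V Pool.Agent.H76Q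
open Module Matrix Polynomial Pool.Agent.H53Toric
open Pool.Agent.H76P
open Pool.Agent.H76T (IsIdeal Fam Lc)
open Pool.Agent.H76U (cmp preL IsSplitting)
open Pool.Agent.H76RM (spanK similD)

variable {ι : Type*} [Fintype ι] [DecidableEq ι] {ψ : Matrix ι ι ℚ}
    {D : Subalgebra ℚ (Matrix ι ι ℚ)} {M : Type*} [Field M] [NumberField M]
    {m : ℕ} {bar : Fin m → Fin m} {e : Fin m → Matrix ι ι M} {G : Type*} [Group G]
    {ρ : ∀ (l : ℕ) [Fact l.Prime], G →* Matrix.GeneralLinearGroup ι ℚ_[l]}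
    {p : ℕ} [Fact p.Prime] {σ : G} {q : ℚ} {F : Fin m → M[X]}
    {φ μ ν : Matrix ι ι (AlgebraicClosure ℚ_[p])} {v : AlgebraicClosure ℚ_[p] → ℚ}
    {Δ : Set (AlgebraicClosure ℚ_[p] ≃+* AlgebraicClosure ℚ_[p])}
    {Ω : Type*} [Field Ω] [CharZero Ω] [IsAlgClosed Ω] [Algebra.IsAlgebraic ℚ Ω] {j : M →+* Ω}
    {R : Finset Ω} {N : Set ℕ} (C : Core3 ψ D bar e ρ p σ q F φ μ ν v Δ j R N)

include C

/-- The number of eigenvalues is the rank of the idempotent. -/
theorem Core3.card (b : Fin m)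
    {n : ℕ} {a : Fin n → Ω} (ha : Function.Injective a)
    (hroot : ∀ y : Ω, (F b).eval₂ j y = 0 ↔ ∃ k, y = a k) : n = (e b).rank := by
  obtain ⟨a', ha', hroot'⟩ := C.enum b
  have h1 : ∀ k, ∃ k', a k = a' k' := fun k => (hroot' _).1 ((hroot _).2 ⟨k, rfl⟩)
  have h2 : ∀ k, ∃ k', a' k = a k' := fun k => (hroot _).1 ((hroot' _).2 ⟨k, rfl⟩)
  choose f hf using h1
  choose g hg using h2
  have hfi : Function.Injective f := fun x y h => ha (by rw [hf, hf, h])
  have hgi : Function.Injective g := fun x y h => ha' (by rw [hg, hg, h])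
  have h3 := Fintype.card_le_of_injective f hfi
  have h4 := Fintype.card_le_of_injective g hgi
  rw [Fintype.card_fin, Fintype.card_fin] at h3 h4
  exact le_antisymm h3 h4

/-- PROOF. `mk_loc` (A7) with `H76RM.exists_prime` (see `lie_p` in H76P/G12); `Core3.tor`. -/
theorem Core3.locp (b : Fin m)
    {n : ℕ} {a : Fin n → Ω} (ha : Function.Injective a)
    (hroot : ∀ y : Ω, (F b).eval₂ j y = 0 ↔ ∃ k, y = a k)
    (i : Ω →+* AlgebraicClosure ℚ_[p]) :
    ∃ (H₀ : Subgroup G) (U : Matrix ι (Fin n) (AlgebraicClosure ℚ_[p]))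
      (V : Matrix (Fin n) ι (AlgebraicClosure ℚ_[p])), H₀.FiniteIndex ∧
      LocN (bar b = b) (ψ.map (algebraMap ℚ (AlgebraicClosure ℚ_[p]))) (img (AlgebraicClosure ℚ_[p]) (ρ p) H₀)
        (properProj (AlgebraicClosure ℚ_[p]) (ρ p)) ((e b).map (i.comp j)) φ
        (algebraMap ℚ (AlgebraicClosure ℚ_[p]) q) U V (fun k => i (a k)) (YS a) := by
  obtain ⟨H₀, -, hfin, hprime⟩ := H76RM.exists_prime (K := AlgebraicClosure ℚ_[p]) (ρ p) ⊤ inferInstance
  have hc := C.card b ha hroot
  obtain ⟨U, V, hL⟩ := mk_loc C.hψ C.hψ0 D (ρ p) (C.lin p) (C.sim p) (C.semis p) (C.commt p) (C.gen p) C.hspl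
    C.frobp C.crys.phigen C.multp hfin hprime j i b (fun h hh => by rw [C.bal p h hh (i.comp j) b, hc]) ha hroot (fun k l N hN h =>
      ha (C.tor b ((hroot _).2 ⟨k, rfl⟩) ((hroot _).2 ⟨l, rfl⟩) hN h))
  exact ⟨H₀, U, V, hfin, hL⟩

/-- PROOF. The same for `l ≠ p`; `C.mult` mapped to the closure. -/
theorem Core3.locl (b : Fin m)
    {n : ℕ} {a : Fin n → Ω} (ha : Function.Injective a)
    (hroot : ∀ y : Ω, (F b).eval₂ j y = 0 ↔ ∃ k, y = a k)
    (l : ℕ) [Fact l.Prime] (hl : l ≠ p) (i : Ω →+* AlgebraicClosure ℚ_[l]) :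
    ∃ (H₀ : Subgroup G) (U : Matrix ι (Fin n) (AlgebraicClosure ℚ_[l]))
      (V : Matrix (Fin n) ι (AlgebraicClosure ℚ_[l])), H₀.FiniteIndex ∧
      LocN (bar b = b) (ψ.map (algebraMap ℚ (AlgebraicClosure ℚ_[l]))) (img (AlgebraicClosure ℚ_[l]) (ρ l) H₀)
        (properProj (AlgebraicClosure ℚ_[l]) (ρ l)) ((e b).map (i.comp j))
        ((ρ l σ).1.map (algebraMap ℚ_[l] (AlgebraicClosure ℚ_[l])))
        (algebraMap ℚ (AlgebraicClosure ℚ_[l]) q) U V (fun k => i (a k)) (YS a) := by
  obtain ⟨H₀, -, hfin, hprime⟩ := H76RM.exists_prime (K := AlgebraicClosure ℚ_[l]) (ρ l) ⊤ inferInstance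
  have hmult : ((ρ l σ).1.map (algebraMap ℚ_[l] (AlgebraicClosure ℚ_[l])))ᵀ *
      ψ.map (algebraMap ℚ (AlgebraicClosure ℚ_[l])) * (ρ l σ).1.map (algebraMap ℚ_[l] (AlgebraicClosure ℚ_[l])) =
      algebraMap ℚ (AlgebraicClosure ℚ_[l]) q • ψ.map (algebraMap ℚ (AlgebraicClosure ℚ_[l])) := by
    have h1 := congrArg (fun m : Matrix ι ι ℚ_[l] => m.map (algebraMap ℚ_[l] (AlgebraicClosure ℚ_[l]))) (C.mult l hl)
    have h2 : (ψ.map (algebraMap ℚ ℚ_[l])).map (algebraMap ℚ_[l] (AlgebraicClosure ℚ_[l])) =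
        ψ.map (algebraMap ℚ (AlgebraicClosure ℚ_[l])) := by
      ext i j
      simp
    have h3 : (algebraMap ℚ ℚ_[l] q • ψ.map (algebraMap ℚ ℚ_[l])).map
        (algebraMap ℚ_[l] (AlgebraicClosure ℚ_[l])) =
        algebraMap ℚ (AlgebraicClosure ℚ_[l]) q • ψ.map (algebraMap ℚ (AlgebraicClosure ℚ_[l])) := by
      ext i j
      simp
    simp only [Matrix.map_mul] at h1
    rw [h2, h3, Matrix.transpose_map] at h1
    exact h1
  have hc := C.card b ha hroot
  obtain ⟨U, V, hL⟩ := mk_loc C.hψ C.hψ0 D (ρ l) (C.lin l) (C.sim l) (C.semis l) (C.commt l) (C.gen l) C.hspl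
    (C.frob l hl) (C.gen l σ) hmult hfin hprime j i b (fun h hh => by rw [C.bal l h hh (i.comp j) b, hc]) ha hroot (fun k l N hN h =>
      ha (C.tor b ((hroot _).2 ⟨k, rfl⟩) ((hroot _).2 ⟨l, rfl⟩) hN h))
  exact ⟨H₀, U, V, hfin, hL⟩

end Pool.Agent.H76Y
end

-- from Lib.H25Y.BLO
section

/-!
# BLO: blocks and ideals, the number of points is not eight
-/

set_option autoImplicit false
set_option linter.unusedSectionVars false
namespace Pool.Agent.H76Y
open Module Matrix Pool.Agent.H53Toric Pool.Agent.H76P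
open Pool.Agent.H76T (IsIdeal Fam)
open Pool.Agent.H76Q (IsBlock Comp InP cz ptS dualMap_mul dualMap_zero spl_eq_sum dualMap_inj)

variable {κ : Type*} {K : Type*} [Field K] [CharZero K] [Fintype κ] [DecidableEq κ]
  {L : Submodule K (Module.End K (κ → K))} [IsAlgClosed K] [Nonempty κ]
  {Y : Submodule ℚ (κ → ℚ)} {P : Module.End ℚ Y}

/-- Each simple ideal acts on one side of a block, if the number of points is not eight. No form is needed. -/
theorem comp_ne8 (hP : Pool.Agent.H76Q.IsBlock P) (h : TM L) (h8 : Fintype.card κ ≠ 8) (hY : Yo L = Y) : Comp L P := by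
  classical
  subst hY
  have hs : Spans (pt L) := pt_spans h.cmp
  intro m I hF j
  obtain ⟨Pj, hP1, hP2, -, hPS⟩ := exists_proj h.cmp hF j
  -- the two possibilities
  have caseA : Pj.dualMap * P.dualMap = Pj.dualMap → InP P (I j) := by
    intro h1 f hf hfj k k' hk
    have h2 : P * Pj = Pj := dualMap_inj (by rw [dualMap_mul]; exact h1)
    have h3 : P ⟨f, hf⟩ = ⟨f, hf⟩ := by
      have h4 := congrArg (fun T : Module.End ℚ (Yo L) => T ⟨f, hf⟩) h2
      simp only [Module.End.mul_apply] at h4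
      rwa [hP2 ⟨f, hf⟩ hfj] at h4
    have h5 := hk ⟨f, hf⟩
    rwa [h3] at h5
  have caseB : Pj.dualMap * P.dualMap = 0 → InP (1 - P) (I j) := by
    intro h1 f hf hfj k k' hk
    have h2 : P * Pj = 0 := dualMap_inj (by rw [dualMap_mul, dualMap_zero]; exact h1)
    have h3 : P ⟨f, hf⟩ = 0 := by
      have h4 := congrArg (fun T : Module.End ℚ (Yo L) => T ⟨f, hf⟩) h2
      simp only [Module.End.mul_apply] at h4
      rwa [hP2 ⟨f, hf⟩ hfj] at h4
    have h5 := hk ⟨f, hf⟩
    rwa [LinearMap.sub_apply, Module.End.one_apply, h3, sub_zero] at h5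
  rcases hP with ⟨h8', -⟩ | ⟨-, hA, hc⟩ | ⟨-, hS, -, hat⟩
  · exact absurd h8' h8
  · rcases hA.le_or hs hPS with h1 | h1
    · left
      have h2 : P.dualMap = Pj.dualMap := by
        by_contra hne
        exact hc (h.atom_two hF hP1 hP2 hPS hA h1 hne)
      refine caseA ?_
      rw [h2]
      exact hPS.1
    · right
      exact caseB (by rw [← Spl.comm hs hA.1 hPS]; exact h1)
  · by_cases hj : Atom (pt L) Pj.dualMap
    · rcases hj.le_or hs hS with h1 | h1
      · exact Or.inl (caseA h1)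
      · exact Or.inr (caseB h1)
    · left
      refine caseA ?_
      obtain ⟨s, hsm, hsum⟩ := atoms_sum hs
      have h1 := spl_eq_sum hs hPS s hsm hsum (fun q => q * Pj.dualMap = q) fun q _ => Iff.rfl
      calc Pj.dualMap * P.dualMap = (∑ q ∈ s.filter (fun q => q * Pj.dualMap = q), q) * P.dualMap := by rw [← h1]
        _ = ∑ q ∈ s.filter (fun q => q * Pj.dualMap = q), q := by
            rw [Finset.sum_mul]
            refine Finset.sum_congr rfl fun q hq => ?_
            rw [Finset.mem_filter, hsm] at hq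
            refine (hat q hq.1).2 (h.atom_two hF hP1 hP2 hPS hq.1 hq.2 ?_)
            rintro rfl
            exact hj hq.1
        _ = Pj.dualMap := h1.symm

end Pool.Agent.H76Y
end

-- from Lib.H76W.FixS
section

/-!
# A square zero element whose support is stable fixes a block
-/

set_option autoImplicit false
set_option linter.unusedSectionVars false
namespace Pool.Agent.H76W
open Module Matrix Pool.Agent.H53Toric
open Pool.Agent.H25U
open Pool.Agent.H76P hiding Hs Yo pt pt_apply wc IsWt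
open Pool.Agent.H76Q
open Pool.Agent.H76T (IsIdeal Fam)

variable {κ : Type*} {K : Type*} [Field K] [CharZero K] [IsAlgClosed K] [Fintype κ] [DecidableEq κ] [Nonempty κ]
  {L : Submodule K (Module.End K (κ → K))} {Y : Submodule ℚ (κ → ℚ)}

theorem fix_supp (h : TM L) (hY : Yo L = Y)
    {FF : Finset (Module.End ℚ Y)} (hFF : ∀ P ∈ FF, Sp P ∧ Comp L P)
    (horth : ∀ P ∈ FF, ∀ P' ∈ FF, P ≠ P' → P * P' = 0) (hsum : ∑ P ∈ FF, P = 1)
    {X : Module.End K (κ → K)} (hX : X ∈ L) (hX0 : X ≠ 0) (hXX : X * X = 0) {σ : Equiv.Perm κ}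
    (hsup : (∀ k l, LinearMap.toMatrix' X k l ≠ 0 ↔ LinearMap.toMatrix' X (σ k) (σ l) ≠ 0) ∨
      ∀ k l, LinearMap.toMatrix' X k l ≠ 0 ↔ LinearMap.toMatrix' X (σ l) (σ k) ≠ 0)
    (g : Module.End ℚ Y → Module.End ℚ Y) (hg : ∀ P ∈ FF, g P ∈ FF ∧ MvP σ P (g P)) :
    ∃ P ∈ FF, g P = P := by
  classical
  obtain ⟨m, I, hF⟩ := H76T.exists_fam h.cmp.lie h.cmp.irr h.cmp.tr
  obtain ⟨j, hj⟩ := hF.one h.cmp.irr h.cmp.tr hX hX0 (a := 0) (b := 0) (by rw [hXX, zero_smul, zero_smul, add_zero, add_zero])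
  obtain ⟨f₀, hf₀Y, hf₀, hf₀I⟩ := h.exists_diag hF j
  rw [hY] at hf₀Y
  have hs : ∀ f ∈ Y, ∑ k, f k = 0 := fun f hf => Yo_sum h.cmp (hY ▸ hf)
  have hex : ∃ P ∈ FF, InP P (I j) := by
    by_contra hcon
    push Not at hcon
    have h1 : ∀ P ∈ FF, P ⟨f₀, hf₀Y⟩ = 0 := by
      intro P hP
      rcases (hFF P hP).2 m I hF j with h2 | h2
      · exact absurd h2 (hcon P hP)
      · have h3 := (FunP_iff (hFF P hP).1.compl hs ⟨f₀, hf₀Y⟩).1 (h2 f₀ hf₀Y hf₀I)
        rw [LinearMap.sub_apply, Module.End.one_apply, sub_eq_self] at h3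
        exact h3
    have h2 : (⟨f₀, hf₀Y⟩ : Y) = 0 := by
      have h3 : (∑ P ∈ FF, P) (⟨f₀, hf₀Y⟩ : Y) = ⟨f₀, hf₀Y⟩ := by rw [hsum, Module.End.one_apply]
      rw [← h3, LinearMap.sum_apply]
      exact Finset.sum_eq_zero h1
    exact hf₀ (congrArg Subtype.val h2)
  obtain ⟨P, hP, hPI⟩ := hex
  have hXP : X ∈ AZ L P := Algebra.subset_adjoin ⟨I j, hF.ideal j, hPI, hj⟩
  have hent : ∀ k l, LinearMap.toMatrix' X k l ≠ 0 → cz (1 - P) k l := by
    intro k l hkl
    refine Pool.Agent.H25U.entry_cz h hY (hFF P hP).1.compl (hFF P hP).2.compl (B := X) ?_ hkl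
    rw [Pool.Agent.H25U.c4_compl2]
    exact hXP
  have hoff : ∃ k l, k ≠ l ∧ LinearMap.toMatrix' X k l ≠ 0 := by
    by_contra hcon
    push Not at hcon
    apply hX0
    have h1 : LinearMap.toMatrix' X * LinearMap.toMatrix' X = 0 := by
      rw [← LinearMap.toMatrix'_mul, hXX, map_zero]
    have h2 : LinearMap.toMatrix' X = 0 := by
      ext k l
      by_cases hkl : k = l
      · subst hkl
        have h3 := congrFun (congrFun h1 k) k
        rw [Matrix.mul_apply, Finset.sum_eq_single k] at h3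
        · exact mul_self_eq_zero.1 h3
        · intro l _ hl
          rw [hcon k l (Ne.symm hl), zero_mul]
        · intro h4; exact absurd (Finset.mem_univ _) h4
      · exact hcon k l hkl
    exact (LinearMap.toMatrix' (R := K) (m := κ) (n := κ)).injective (by rw [h2, map_zero])
  obtain ⟨k, l, hkl, hne⟩ := hoff
  refine ⟨P, hP, ?_⟩
  by_contra hgP
  have h1 : cz (1 - P) k l := hent k l hne
  have h2 : cz (1 - g P) k l := by
    rcases hsup with hs1 | hs1
    · have h3 : LinearMap.toMatrix' X (σ.symm k) (σ.symm l) ≠ 0 := by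
        rw [hs1, Equiv.apply_symm_apply, Equiv.apply_symm_apply]
        exact hne
      have h4 := ((hg P hP).2.2 _ _).1 (hent _ _ h3)
      rwa [Equiv.apply_symm_apply, Equiv.apply_symm_apply] at h4
    · have h3 : LinearMap.toMatrix' X (σ.symm l) (σ.symm k) ≠ 0 := by
        rw [hs1, Equiv.apply_symm_apply, Equiv.apply_symm_apply]
        exact hne
      have h4 := ((hg P hP).2.2 _ _).1 (hent _ _ h3)
      rw [Equiv.apply_symm_apply, Equiv.apply_symm_apply] at h4
      exact fun f => (h4 f).symm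
  have hor := horth (g P) (hg P hP).1 P hP hgP
  have h5 : ∀ f : Y, (f : κ → ℚ) k = (f : κ → ℚ) l := by
    intro f
    have h6 := h1 f
    have h7 := h2 (P f)
    have h8 : (1 - g P) (P f) = P f := by
      have h9 := congrArg (fun T : Module.End ℚ Y => T f) hor
      simp only [Module.End.mul_apply, LinearMap.zero_apply] at h9
      rw [LinearMap.sub_apply, Module.End.one_apply, h9, sub_zero]
    rw [h8] at h7
    have h10 : ∀ c, (f : κ → ℚ) c = (P f : κ → ℚ) c + ((1 - P) f : κ → ℚ) c := by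
      intro c
      rw [LinearMap.sub_apply, Module.End.one_apply]
      show _ = _ + ((f : κ → ℚ) c - (P f : κ → ℚ) c)
      ring
    rw [h10, h10, h6, h7]
  obtain ⟨f, hf, hfne⟩ := h.sep k l hkl
  exact hfne (h5 ⟨f, hY ▸ hf⟩)

end Pool.Agent.H76W
end

-- from Lib.H76Y.E3
section

/-!
# the semilinear automorphism of an automorphism of the field
-/

set_option autoImplicit false
set_option linter.unusedSectionVars false
namespace Pool.Agent.H76Y
open Pool.Agent.H76Q
open Module Matrix Polynomial Pool.Agent.H53Toric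
open Pool.Agent.H76P
open Pool.Agent.H76T (IsIdeal Fam Lc)
open Pool.Agent.H76V (Cmp)
open Pool.Agent.H76U (cmp preL IsSplitting)
open Pool.Agent.H76RM (spanK similD)

theorem det_phi {K : Type*} [Field K] {n : ℕ} (A : Matrix (Fin n) (Fin n) K) :
    LinearMap.det (phi A : Module.End K (Fin n → K)) = A.det := by
  have : (phi A : Module.End K (Fin n → K)) = Matrix.toLin' A := rfl
  rw [this, LinearMap.det_toLin']

theorem trace_phi {K : Type*} [Field K] {n : ℕ} (A : Matrix (Fin n) (Fin n) K) :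
    LinearMap.trace K (Fin n → K) (phi A : Module.End K (Fin n → K)) = A.trace := by
  have : (phi A : Module.End K (Fin n → K)) = Matrix.toLin' A := rfl
  rw [this, Matrix.trace_toLin'_eq]

variable {ι : Type*} [Fintype ι] [DecidableEq ι] {K : Type*} [Field K] [CharZero K]
  [IsAlgClosed K] {J : Matrix ι ι K} {S 𝓗 : Set (Matrix ι ι K)} {e x : Matrix ι ι K} {q : K} {n : ℕ}
  {U : Matrix ι (Fin n) K} {V : Matrix (Fin n) ι K} {d : Fin n → K}
  {Y : Submodule ℚ (Fin n → ℚ)}

theorem exists_theta {ct : Prop} (h : LocN ct J S 𝓗 e x q U V d Y) {τ : K ≃+* K} (he : e.map τ = e)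
    (hx : x.map τ = x) (hJ : J.map τ = J) (hS : ∀ s ∈ S, s.map τ = s)
    {σ : Equiv.Perm (Fin n)} (hσ : ∀ k, τ (d k) = d (σ k)) :
    ∃ θ : Module.End K (Fin n → K) ≃+* Module.End K (Fin n → K),
      ThetaN (LcN J S U V) θ τ σ ∧
      ∀ X, (U * LinearMap.toMatrix' X * V).map τ = U * LinearMap.toMatrix' (θ X) * V := by
  have hUV := h.UV
  have hVU := h.VU
  have hVe : V * e = V := by rw [hUV, ← Matrix.mul_assoc, hVU, Matrix.one_mul]
  have heU : e * U = U := by rw [hUV, Matrix.mul_assoc, hVU, Matrix.mul_one]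
  have heUt : e * U.map τ = U.map τ := by
    nth_rw 1 [← he]
    rw [← e3_map_mul, heU]
  have hVte : V.map τ * e = V.map τ := by
    nth_rw 1 [← he]
    rw [← e3_map_mul, hVe]
  have hUVt : U.map τ * V.map τ = e := by rw [← e3_map_mul, ← hUV, he]
  obtain ⟨C, hC⟩ : ∃ C, C = V * U.map τ := ⟨_, rfl⟩
  obtain ⟨C', hC'⟩ : ∃ C', C' = V.map τ * U := ⟨_, rfl⟩
  have hCC : C * C' = 1 := by
    calc C * C' = V * (U.map τ * V.map τ) * U := by rw [hC, hC']; simp only [Matrix.mul_assoc]
      _ = 1 := by rw [hUVt, hVe, hVU]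
  have hCl : ∀ l k, C l k ≠ 0 → l = σ k := by
    intro l k hne
    have hVx : V * x = Matrix.diagonal d * V := by
      calc V * x = V * e * x := by rw [hVe]
        _ = V * (x * U) * V := by
            rw [Matrix.mul_assoc V e x, h.ex, hUV]
            simp only [Matrix.mul_assoc]
        _ = V * U * Matrix.diagonal d * V := by rw [h.ec.eig]; simp only [Matrix.mul_assoc]
        _ = _ := by rw [hVU, Matrix.one_mul]
    have hxU : x * U.map τ = U.map τ * Matrix.diagonal (fun k => d (σ k)) := by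
      have h1 := congrArg (fun M : Matrix ι (Fin n) K => M.map τ) h.ec.eig
      beta_reduce at h1
      rw [e3_map_mul, e3_map_mul, hx] at h1
      rw [h1]
      congr 1
      ext a b
      rw [Matrix.map_apply, Matrix.diagonal_apply, Matrix.diagonal_apply]
      split_ifs
      · exact hσ a
      · exact map_zero τ
    have h2 : Matrix.diagonal d * C = C * Matrix.diagonal (fun k => d (σ k)) := by
      rw [hC, ← Matrix.mul_assoc, ← hVx, Matrix.mul_assoc, hxU, Matrix.mul_assoc]
    have h3 := congrFun (congrFun h2 l) k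
    rw [Matrix.diagonal_mul, Matrix.mul_diagonal, mul_comm (C l k)] at h3
    exact h.ec.inj (mul_right_cancel₀ hne h3)
  have hmat : ∀ X : Module.End K (Fin n → K), ∃ y : Matrix (Fin n) (Fin n) K, X = phi y ∧
      LinearMap.toMatrix' X = y := by
    intro X
    obtain ⟨y, rfl⟩ := (phi (ι := Fin n) (K := K)).surjective X
    exact ⟨y, rfl, (phi (ι := Fin n) (K := K)).symm_apply_apply y⟩
  have hC'C : C' * C = 1 := _root_.mul_eq_one_comm.1 hCC
  have htr : ∀ X : Module.End K (Fin n → K), LinearMap.trace K (Fin n → K) (H76T.tht τ hCC X) =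
      τ (LinearMap.trace K (Fin n → K) X) := by
    intro X
    obtain ⟨y, rfl, -⟩ := hmat X
    rw [H76T.tht_apply, trace_phi, trace_phi, Matrix.trace_mul_comm, ← Matrix.mul_assoc, hC'C, Matrix.one_mul]
    exact (AddMonoidHom.map_trace (τ : K →+* K).toAddMonoidHom y).symm
  have hdet : ∀ X : Module.End K (Fin n → K), LinearMap.det (H76T.tht τ hCC X) =
      τ (LinearMap.det X) := by
    intro X
    obtain ⟨y, rfl, -⟩ := hmat X
    rw [H76T.tht_apply, det_phi, det_phi, Matrix.det_mul, Matrix.det_mul, mul_right_comm, ← Matrix.det_mul, hCC, Matrix.det_one, one_mul]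
    exact (RingHom.map_det (τ : K →+* K) y).symm
  have hcmp : ∀ A : Matrix ι ι K, H76T.tht τ hCC (phi (cmp U V A)) = phi (cmp U V (A.map τ)) := by
    intro A
    rw [H76T.tht_apply]
    congr 1
    rw [H76U.cmp_apply, H76U.cmp_apply, e3_map_mul, e3_map_mul, hC, hC']
    calc V * U.map τ * (V.map τ * A.map τ * U.map τ) * (V.map τ * U) =
        V * (U.map τ * V.map τ) * A.map τ * ((U.map τ * V.map τ) * U) := by
          simp only [Matrix.mul_assoc]
      _ = _ := by rw [hUVt, hVe, heU]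
  have hS' : ∀ s ∈ S, s.map τ.symm = s := by
    intro s hs
    nth_rw 1 [← hS s hs]
    exact H76T.map_symmm τ s
  have hJs : J.map τ.symm = J := by
    nth_rw 1 [← hJ]
    exact H76T.map_symmm τ J
  have hLb : ∀ X : Module.End K (Fin n → K), H76T.tht τ hCC X ∈ H76U.Lb J S U V ↔ X ∈ H76U.Lb J S U V := by
    intro X
    constructor
    · intro hX
      obtain ⟨y, hy, -⟩ := hmat (H76T.tht τ hCC X)
      rw [hy] at hX
      obtain ⟨A, hA, hAy⟩ := H76U.mem_Lb.1 hX
      have h1 : H76T.tht τ hCC (phi (cmp U V (A.map τ.symm))) = H76T.tht τ hCC X := by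
        rw [hcmp, H76T.map_symmm', hAy, hy]
      rw [← (H76T.tht τ hCC).injective h1]
      exact H76U.mem_Lb.2 ⟨_, e3_preL hJs hS' hA, rfl⟩
    · intro hX
      obtain ⟨y, rfl, -⟩ := hmat X
      obtain ⟨A, hA, rfl⟩ := H76U.mem_Lb.1 hX
      rw [hcmp]
      exact H76U.mem_Lb.2 ⟨_, e3_preL hJ hS hA, rfl⟩
  refine ⟨H76T.tht τ hCC, ⟨H76T.tht_smul τ hCC, fun g => ?_, fun X => ?_, fun X => ?_⟩, fun X => ?_⟩
  · rw [← phi_diag, H76T.tht_apply, ← phi_diag]
    congr 1
    have h1 : C * (Matrix.diagonal g).map τ = Matrix.diagonal (fun k => τ (g (σ.symm k))) * C := by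
      have h2 : (Matrix.diagonal g).map τ = Matrix.diagonal (fun k => τ (g k)) := by
        ext a b
        rw [Matrix.map_apply, Matrix.diagonal_apply, Matrix.diagonal_apply]
        split_ifs
        · rfl
        · exact map_zero τ
      rw [h2]
      ext l k
      rw [Matrix.diagonal_mul, Matrix.mul_diagonal]
      by_cases hz : C l k = 0
      · rw [hz, zero_mul, mul_zero]
      · rw [hCl l k hz, Equiv.symm_apply_apply, mul_comm]
    rw [h1, Matrix.mul_assoc, hCC, Matrix.mul_one]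
  · show (_ ∧ _) ↔ (_ ∧ _)
    rw [hLb, htr, map_eq_zero]
  · exact hdet X
  · obtain ⟨y, rfl, hy⟩ := hmat X
    rw [hy, H76T.tht_apply]
    have h1 : LinearMap.toMatrix' (phi (C * y.map τ * C')) = C * y.map τ * C' :=
      (phi (ι := Fin n) (K := K)).symm_apply_apply _
    rw [h1, e3_map_mul, e3_map_mul, hC, hC']
    calc U.map τ * y.map τ * V.map τ = (e * U.map τ) * y.map τ * (V.map τ * e) := by rw [heUt, hVte]
      _ = _ := by
          rw [hUV]
          simp only [Matrix.mul_assoc]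

end Pool.Agent.H76Y
end

-- from Lib.H86L.L8
section

/-!
# L8: the semilinear automorphism for linked idempotents, algebras without a form
-/

set_option autoImplicit false
set_option linter.unusedSectionVars false
namespace Pool.Agent.H86L
open Module Matrix Polynomial TensorProduct Pool.Agent.H53Toric
open Pool.Agent.H76P Pool.Agent.H76Q
open Pool.Agent.H76Y (LcN ThetaN det_phi trace_phi)
open Pool.Agent.H76T (IsIdeal Fam Lc)
open Pool.Agent.H76V (Cmp)
open Pool.Agent.H76U (cmp preL IsSplitting)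
open Pool.Agent.H76RM (spanK similD)

variable {ι : Type*} [Fintype ι] [DecidableEq ι] {K : Type*} [Field K] [CharZero K]
  [IsAlgClosed K] {J : Matrix ι ι K} {S : Set (Matrix ι ι K)} {e x : Matrix ι ι K} {n : ℕ}
  {U : Matrix ι (Fin n) K} {V : Matrix (Fin n) ι K} {d : Fin n → K}

/-- The semilinear automorphism for linked idempotents, with its values on the operators which commute with `a`;
no form. -/
theorem exists_theta2N (hUV : e = U * V) (hVU : V * U = 1) (hec : EC x U d) (hex : e * x = x * e)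
    {τ : K ≃+* K} {a a' : Matrix ι ι K}
    (h1 : a * a' = e.map τ) (h2 : a' * a = e) (h3 : e * a' = a') (h4 : a' * e.map τ = a')
    (h5 : e.map τ * a = a) (hxa : x * a' = a' * x)
    (hza : ∀ A ∈ zlie S, a * A = A * a)
    (hx : x.map τ = x) (hJ : J.map τ = J) (hS : ∀ s ∈ S, s.map τ = s)
    {σ : Equiv.Perm (Fin n)} (hσ : ∀ k, τ (d k) = d (σ k)) :
    ∃ θ : Module.End K (Fin n → K) ≃+* Module.End K (Fin n → K),
      ThetaN (LcN J S U V) θ τ σ ∧
      ∀ A : Matrix ι ι K, a * A.map τ = A.map τ * a → θ (phi (cmp U V A)) = phi (cmp U V (A.map τ)) := by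
  have hVe : V * e = V := by rw [hUV, ← Matrix.mul_assoc, hVU, Matrix.one_mul]
  have heU : e * U = U := by rw [hUV, Matrix.mul_assoc, hVU, Matrix.mul_one]
  have heUt : e.map τ * U.map τ = U.map τ := by rw [← e3_map_mul, heU]
  have hUVt : U.map τ * V.map τ = e.map τ := by rw [← e3_map_mul, ← hUV]
  obtain ⟨C, hC⟩ : ∃ C, C = V * a' * U.map τ := ⟨_, rfl⟩
  obtain ⟨C', hC'⟩ : ∃ C', C' = V.map τ * a * U := ⟨_, rfl⟩
  have hCC : C * C' = 1 := by
    calc C * C' = V * (a' * (U.map τ * V.map τ)) * a * U := by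
          rw [hC, hC']; simp only [Matrix.mul_assoc]
      _ = V * (a' * a) * U := by rw [hUVt, h4]; simp only [Matrix.mul_assoc]
      _ = 1 := by rw [h2, hVe, hVU]
  have hUC : U * C = a' * U.map τ := by
    calc U * C = (U * V) * a' * U.map τ := by rw [hC]; simp only [Matrix.mul_assoc]
      _ = _ := by rw [← hUV, h3]
  have hCl : ∀ l k, C l k ≠ 0 → l = σ k := by
    intro l k hne
    have hVx : V * x = Matrix.diagonal d * V := by
      calc V * x = V * e * x := by rw [hVe]
        _ = V * (x * U) * V := by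
            rw [Matrix.mul_assoc V e x, hex, hUV]
            simp only [Matrix.mul_assoc]
        _ = V * U * Matrix.diagonal d * V := by rw [hec.eig]; simp only [Matrix.mul_assoc]
        _ = _ := by rw [hVU, Matrix.one_mul]
    have hxU : x * U.map τ = U.map τ * Matrix.diagonal (fun k => d (σ k)) := by
      have g1 := congrArg (fun M : Matrix ι (Fin n) K => M.map τ) hec.eig
      beta_reduce at g1
      rw [e3_map_mul, e3_map_mul, hx] at g1
      rw [g1]
      congr 1
      ext a b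
      rw [Matrix.map_apply, Matrix.diagonal_apply, Matrix.diagonal_apply]
      split_ifs
      · exact hσ a
      · exact map_zero τ
    have g2 : Matrix.diagonal d * C = C * Matrix.diagonal (fun k => d (σ k)) := by
      calc Matrix.diagonal d * C = (Matrix.diagonal d * V) * a' * U.map τ := by
            rw [hC]; simp only [Matrix.mul_assoc]
        _ = V * (x * a') * U.map τ := by rw [← hVx]; simp only [Matrix.mul_assoc]
        _ = V * a' * (x * U.map τ) := by rw [hxa]; simp only [Matrix.mul_assoc]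
        _ = C * Matrix.diagonal (fun k => d (σ k)) := by
            rw [hxU, hC]; simp only [Matrix.mul_assoc]
    have g3 := congrFun (congrFun g2 l) k
    rw [Matrix.diagonal_mul, Matrix.mul_diagonal, mul_comm (C l k)] at g3
    exact hec.inj (mul_right_cancel₀ hne g3)
  have hmat : ∀ X : Module.End K (Fin n → K), ∃ y : Matrix (Fin n) (Fin n) K, X = phi y ∧
      LinearMap.toMatrix' X = y := by
    intro X
    obtain ⟨y, rfl⟩ := (phi (ι := Fin n) (K := K)).surjective X
    exact ⟨y, rfl, (phi (ι := Fin n) (K := K)).symm_apply_apply y⟩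
  have hC'C : C' * C = 1 := _root_.mul_eq_one_comm.1 hCC
  have htr : ∀ X : Module.End K (Fin n → K), LinearMap.trace K (Fin n → K) (H76T.tht τ hCC X) =
      τ (LinearMap.trace K (Fin n → K) X) := by
    intro X
    obtain ⟨y, rfl, -⟩ := hmat X
    rw [H76T.tht_apply, trace_phi, trace_phi, Matrix.trace_mul_comm, ← Matrix.mul_assoc, hC'C, Matrix.one_mul]
    exact (AddMonoidHom.map_trace (τ : K →+* K).toAddMonoidHom y).symm
  have hdet : ∀ X : Module.End K (Fin n → K), LinearMap.det (H76T.tht τ hCC X) =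
      τ (LinearMap.det X) := by
    intro X
    obtain ⟨y, rfl, -⟩ := hmat X
    rw [H76T.tht_apply, det_phi, det_phi, Matrix.det_mul, Matrix.det_mul, mul_right_comm, ← Matrix.det_mul, hCC, Matrix.det_one, one_mul]
    exact (RingHom.map_det (τ : K →+* K) y).symm
  have hcma : ∀ A ∈ preL J S, a * A = A * a := by
    rintro A ⟨⟨c₁, C₁, hC₁, hAC⟩, -⟩
    rw [hAC, Matrix.mul_add, Matrix.add_mul, hza C₁ hC₁, Matrix.mul_smul, Matrix.smul_mul,
      Matrix.mul_one, Matrix.one_mul]
  have hcmp' : ∀ A : Matrix ι ι K, a * A.map τ = A.map τ * a →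
      H76T.tht τ hCC (phi (cmp U V A)) = phi (cmp U V (A.map τ)) := by
    intro A g1
    rw [H76T.tht_apply]
    congr 1
    rw [H76U.cmp_apply, H76U.cmp_apply, e3_map_mul, e3_map_mul, hC, hC']
    calc V * a' * U.map τ * (V.map τ * A.map τ * U.map τ) * (V.map τ * a * U) =
        V * (a' * (U.map τ * V.map τ)) * A.map τ * (((U.map τ * V.map τ) * a) * U) := by
          simp only [Matrix.mul_assoc]
      _ = V * a' * (A.map τ * a) * U := by rw [hUVt, h4, h5]; simp only [Matrix.mul_assoc]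
      _ = V * (a' * a) * A.map τ * U := by rw [← g1]; simp only [Matrix.mul_assoc]
      _ = _ := by rw [h2, hVe]
  have hcmp : ∀ A : Matrix ι ι K, A ∈ preL J S →
      H76T.tht τ hCC (phi (cmp U V A)) = phi (cmp U V (A.map τ)) :=
    fun A hA => hcmp' A (hcma _ (e3_preL hJ hS hA))
  have hS' : ∀ s ∈ S, s.map τ.symm = s := by
    intro s hs
    nth_rw 1 [← hS s hs]
    exact H76T.map_symmm τ s
  have hJs : J.map τ.symm = J := by
    nth_rw 1 [← hJ]
    exact H76T.map_symmm τ J
  have hLb : ∀ X : Module.End K (Fin n → K), H76T.tht τ hCC X ∈ H76U.Lb J S U V ↔ X ∈ H76U.Lb J S U V := by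
    intro X
    constructor
    · intro hX
      obtain ⟨y, hy, -⟩ := hmat (H76T.tht τ hCC X)
      rw [hy] at hX
      obtain ⟨A, hA, hAy⟩ := H76U.mem_Lb.1 hX
      have g1 : H76T.tht τ hCC (phi (cmp U V (A.map τ.symm))) = H76T.tht τ hCC X := by
        rw [hcmp _ (e3_preL hJs hS' hA), H76T.map_symmm', hAy, hy]
      rw [← (H76T.tht τ hCC).injective g1]
      exact H76U.mem_Lb.2 ⟨_, e3_preL hJs hS' hA, rfl⟩
    · intro hX
      obtain ⟨y, rfl, -⟩ := hmat X
      obtain ⟨A, hA, rfl⟩ := H76U.mem_Lb.1 hX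
      rw [hcmp _ hA]
      exact H76U.mem_Lb.2 ⟨_, e3_preL hJ hS hA, rfl⟩
  refine ⟨H76T.tht τ hCC, ⟨H76T.tht_smul τ hCC, fun g => ?_, fun X => ?_, fun X => ?_⟩, hcmp'⟩
  · rw [← phi_diag, H76T.tht_apply, ← phi_diag]
    congr 1
    have g1 : C * (Matrix.diagonal g).map τ = Matrix.diagonal (fun k => τ (g (σ.symm k))) * C := by
      have g2 : (Matrix.diagonal g).map τ = Matrix.diagonal (fun k => τ (g k)) := by
        ext a b
        rw [Matrix.map_apply, Matrix.diagonal_apply, Matrix.diagonal_apply]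
        split_ifs
        · rfl
        · exact map_zero τ
      rw [g2]
      ext l k
      rw [Matrix.diagonal_mul, Matrix.mul_diagonal]
      by_cases hz : C l k = 0
      · rw [hz, zero_mul, mul_zero]
      · rw [hCl l k hz, Equiv.symm_apply_apply, mul_comm]
    rw [g1, Matrix.mul_assoc, hCC, Matrix.mul_one]
  · show (_ ∧ _) ↔ (_ ∧ _)
    rw [hLb, htr, map_eq_zero]
  · exact hdet X

end Pool.Agent.H86L
end
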