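import Pool.Agent.Lib.H1M.RC.M044
import Pool.Agent.Lib.H1M.RC.M046
import Pool.Agent.Lib.H1M.RC.M048
import Pool.Agent.Lib.H1M.RC.M051
import Pool.Agent.Lib.H1M.RC.M056
import Pool.Agent.Lib.H1M.RC.M059
import Pool.Agent.Lib.H1M.RC.M062
import Pool.Agent.Lib.H1M.RC.M066

/-! Merged copies (to shorten the build) of Lib.H34Z.M01, Lib.H34Z.M02, Lib.H34V.N02, Lib.H34V.N03, Lib.H34Z.M03, Lib.H34Z.M04, Lib.H76Y.W8, Lib.H76Y.W8d. -/

-- from Lib.H34Z.M01
section

/-!
# M01: basic facts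
-/

set_option autoImplicit false
set_option linter.unusedSectionVars false
namespace Pool.Agent.H34Z
open Module Matrix Pool.Agent.H53Toric Pool.Agent.H76P
open Pool.Agent.H76U (cmp preL Lb Split4)
open Pool.Agent.H76Y (LcN)
open Pool.Agent.H76RM (zar_commute zlie_commute)

variable {ι : Type*} [Fintype ι] [DecidableEq ι] {K : Type*} [Field K] [CharZero K] [IsAlgClosed K]
  {J u : Matrix ι ι K} {DD : Submodule K (Matrix ι ι K)} {S 𝓗 : Set (Matrix ι ι K)} {x : Matrix ι ι K}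
  {B : Type*} [Fintype B] [DecidableEq B] {bar : B → B} {e : B → Matrix ι ι K} {n : B → ℕ}
  {U : ∀ b, Matrix ι (Fin (n b)) K} {V : ∀ b, Matrix (Fin (n b)) ι K} {d : ∀ b, Fin (n b) → K}

namespace Sit
variable (g : Sit J u DD S 𝓗 x bar e n U V d)
include g

/-- PROOF. `zlie_commute g.one` and `g.SD`. -/
theorem zD {A : Matrix ι ι K} (hA : A ∈ zlie S) {y : Matrix ι ι K} (hy : y ∈ DD) : A * y = y * A := by
  haveI : Infinite K := inferInstance
  exact zlie_commute g.one (fun s hs => g.SD s hs y hy) hA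

/-- PROOF. `A = C + c • 1` with `C ∈ zlie S`. -/
theorem pD {A : Matrix ι ι K} (hA : A ∈ preL J S) {y : Matrix ι ι K} (hy : y ∈ DD) : A * y = y * A := by
  obtain ⟨⟨c, C, hC, rfl⟩, -⟩ := hA
  rw [add_mul, mul_add, g.zD hC hy, smul_mul_assoc, mul_smul_comm, one_mul, mul_one]

/-- PROOF. `⟨⟨0, h, _, _⟩, 1, _⟩` with `g.hz`, `g.hs`. -/
theorem hpre {h : Matrix ι ι K} (hh : h ∈ 𝓗) : h ∈ preL J S := by
  refine ⟨⟨0, h, g.hz h hh, ?_⟩, 1, ?_⟩
  · rw [zero_smul, add_zero]
  · rw [one_smul]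
    exact g.hs h hh

/-- PROOF. `preL J S` is a submodule and contains `1` (`⟨⟨1, 0, ..⟩, 2, ..⟩`). -/
theorem ypre {h : Matrix ι ι K} (hh : h ∈ 𝓗) : (2 : K) • h - 1 ∈ preL J S := by
  have h1 : (1 : Matrix ι ι K) ∈ preL J S := by
    refine ⟨⟨1, 0, (zlie S).zero_mem, ?_⟩, 2, ?_⟩
    · rw [one_smul, zero_add]
    · rw [Matrix.transpose_one, one_mul, mul_one, two_smul]
  exact (preL J S).sub_mem ((preL J S).smul_mem 2 (g.hpre hh)) h1

/-- PROOF. `(2h-1)ᵀ J + J (2h-1) = 2 J - 2 J = 0` (`g.hs`); multiply with `u`, which commutes with `h`. -/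
theorem yskew {h : Matrix ι ι K} (hh : h ∈ 𝓗) : ((2 : K) • h - 1)ᵀ * (J * u) + J * u * ((2 : K) • h - 1) = 0 := by
  have h1 : h * u = u * h := g.zD (g.hz h hh) g.hu
  have h2 := g.hs h hh
  have h3 : J * u * ((2 : K) • h - 1) = J * ((2 : K) • h - 1) * u := by
    rw [mul_sub, mul_sub, sub_mul, mul_one, mul_one, mul_smul_comm, mul_smul_comm, smul_mul_assoc,
      mul_assoc J u h, ← h1, mul_assoc J h u]
  rw [h3, ← mul_assoc, ← add_mul, Matrix.transpose_sub, Matrix.transpose_smul, Matrix.transpose_one,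
    sub_mul, mul_sub, one_mul, mul_one, smul_mul_assoc, mul_smul_comm]
  have h4 : (2 : K) • (hᵀ * J) - J + ((2 : K) • (J * h) - J) = 0 := by
    have h5 : (2 : K) • (hᵀ * J) - J + ((2 : K) • (J * h) - J) = (2 : K) • (hᵀ * J + J * h) - (2 : K) • J := by
      rw [smul_add, two_smul K J]
      abel
    rw [h5, h2, sub_self]
  rw [h4, zero_mul]

/-- PROOF. `Aᵀ * (J * u) = (Aᵀ * J) * u`, `J * u * A = J * A * u` (`pD`, `g.hu`). -/
theorem pskew {A : Matrix ι ι K} (hA : A ∈ preL J S) {c : K} (hc : Aᵀ * J + J * A = c • J) :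
    Aᵀ * (J * u) + J * u * A = c • (J * u) := by
  have h1 : A * u = u * A := g.pD hA g.hu
  rw [mul_assoc J u A, ← h1, ← mul_assoc, ← mul_assoc, ← add_mul, hc, smul_mul_assoc]

/-- PROOF. `Matrix.det_mul`, `IsUnit.mul`. -/
theorem det' : IsUnit (J * u).det := by
  rw [Matrix.det_mul]
  exact g.hJ.mul g.hu0

/-- PROOF. `(y * e b)`...: `U b = e b * U b` (`g.UV`, `g.VU`). -/
theorem eU (b : B) : e b * U b = U b := by
  rw [g.UV b, Matrix.mul_assoc, g.VU b, Matrix.mul_one]

theorem Ve (b : B) : V b * e b = V b := by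
  rw [g.UV b, ← Matrix.mul_assoc, g.VU b, Matrix.one_mul]

/-- PROOF. Closure induction (`Submonoid.closure_induction`): `(1 + (t-1) h) (1 + (t⁻¹-1) h) = 1` as `h h = h`; `1 + (t-1) h` commutes with `DD` (`zD`,
`g.hz`) and `(1 + (t-1) h)ᵀ J (1 + (t-1) h) = t J` (`H76Y.EN.mult_par` in H76Y/EN2.lean, proof: `hᵀ J h = 0`).  Products: multiply the inverses in the opposite
order, multiply the factors. -/
theorem cl {y : Matrix ι ι K} (hy : y ∈ Submonoid.closure (par 𝓗)) :
    (∃ y', y' ∈ Submonoid.closure (par 𝓗) ∧ y * y' = 1 ∧ y' * y = 1) ∧ (∀ z ∈ DD, y * z = z * y) ∧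
      ∃ c : K, c ≠ 0 ∧ yᵀ * J * y = c • J := by
  induction hy using Submonoid.closure_induction with
  | mem y hy =>
    obtain ⟨h, hh, t, ht, rfl⟩ := hy
    have hi := g.hi h hh
    have hs := g.hs h hh
    have key : ∀ a b : K, a + b + a * b = 0 → (1 + a • h) * (1 + b • h) = 1 := by
      intro a b hab
      have h1 : (1 + a • h) * (1 + b • h) = 1 + (a + b + a * b) • h := by
        rw [add_mul, one_mul, mul_add, mul_one, smul_mul_smul_comm, hi, add_smul, add_smul]
        abel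
      rw [h1, hab, zero_smul, add_zero]
    refine ⟨⟨1 + (t⁻¹ - 1) • h, Submonoid.subset_closure ⟨h, hh, t⁻¹, inv_ne_zero ht, rfl⟩, ?_, ?_⟩, ?_, t, ht, ?_⟩
    · refine key _ _ ?_
      field_simp
      ring
    · refine key _ _ ?_
      field_simp
      ring
    · intro z hz
      rw [add_mul, mul_add, one_mul, mul_one, smul_mul_assoc, mul_smul_comm, g.zD (g.hz h hh) hz]
    · have h1 : hᵀ * J * h = 0 := by
        have h2 := congrArg (fun m => m * h) hs
        have h3 : (hᵀ * J + J * h) * h = J * h := h2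
        rw [add_mul, mul_assoc J h h, hi] at h3
        exact add_eq_right.1 h3
      rw [Matrix.transpose_add, Matrix.transpose_one, Matrix.transpose_smul]
      have h4 : (1 + (t - 1) • hᵀ) * J * (1 + (t - 1) • h) =
          J + (t - 1) • (hᵀ * J + J * h) + ((t - 1) * (t - 1)) • (hᵀ * J * h) := by
        rw [add_mul, one_mul, mul_add, mul_one, add_mul, smul_mul_assoc, mul_smul_comm, smul_mul_assoc,
          mul_smul_comm, smul_smul, smul_add]
        abel
      rw [h4, h1, hs, smul_zero, add_zero, sub_smul, one_smul]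
      abel
  | one =>
    refine ⟨⟨1, Submonoid.one_mem _, one_mul 1, one_mul 1⟩, fun z _ => ?_, 1, one_ne_zero, ?_⟩
    · rw [one_mul, mul_one]
    · rw [Matrix.transpose_one, one_mul, mul_one, one_smul]
  | mul y z hy hz ihy ihz =>
    obtain ⟨⟨y', hy', hy1, hy2⟩, hy3, c, hc, hy4⟩ := ihy
    obtain ⟨⟨z', hz', hz1, hz2⟩, hz3, c', hc', hz4⟩ := ihz
    refine ⟨⟨z' * y', Submonoid.mul_mem _ hz' hy', ?_, ?_⟩, fun w hw => ?_, c * c', mul_ne_zero hc hc', ?_⟩
    · calc y * z * (z' * y') = y * (z * z') * y' := by simp only [mul_assoc]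
        _ = 1 := by rw [hz1, mul_one, hy1]
    · calc z' * y' * (y * z) = z' * (y' * y) * z := by simp only [mul_assoc]
        _ = 1 := by rw [hy2, mul_one, hz2]
    · rw [mul_assoc, hz3 w hw, ← mul_assoc, hy3 w hw, mul_assoc]
    · rw [Matrix.transpose_mul]
      calc zᵀ * yᵀ * J * (y * z) = zᵀ * (yᵀ * J * y) * z := by simp only [mul_assoc]
        _ = (c * c') • J := by
          rw [hy4, mul_smul_comm, smul_mul_assoc, hz4, smul_smul]

end Sit

end Pool.Agent.H34Z
end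

-- from Lib.H34Z.M02
section

/-!
# M02: the span of the brackets
-/

set_option autoImplicit false
set_option linter.unusedSectionVars false
namespace Pool.Agent.H34Z
open Module Matrix Pool.Agent.H53Toric Pool.Agent.H76P
open Pool.Agent.H76U (cmp preL Lb Split4)
open Pool.Agent.H76Y (LcN)
open Pool.Agent.H76RM (zar_commute zlie_commute)

variable {ι : Type*} [Fintype ι] [DecidableEq ι] {K : Type*} [Field K] [CharZero K] [IsAlgClosed K]
  {J u : Matrix ι ι K} {DD : Submodule K (Matrix ι ι K)} {S 𝓗 : Set (Matrix ι ι K)} {x : Matrix ι ι K}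
  {B : Type*} [Fintype B] [DecidableEq B] {bar : B → B} {e : B → Matrix ι ι K} {n : B → ℕ}
  {U : ∀ b, Matrix ι (Fin (n b)) K} {V : ∀ b, Matrix (Fin (n b)) ι K} {d : ∀ b, Fin (n b) → K}

/-- PROOF. `H76U.preL_bracket`, `Submodule.span_le`. -/
theorem brk_zlie : brk J S ≤ zlie S := by
  refine Submodule.span_le.2 ?_
  rintro C ⟨A, hA, A', hA', rfl⟩
  exact (Pool.Agent.H76U.preL_bracket hA hA').1

/-- PROOF. `Submodule.span_induction`, `H76U.preL_bracket`. -/
theorem brk_skew {A : Matrix ι ι K} (hA : A ∈ brk J S) : Aᵀ * J + J * A = 0 := by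
  refine Submodule.span_induction (p := fun A _ => Aᵀ * J + J * A = 0) ?_ ?_ ?_ ?_ hA
  · rintro C ⟨A, hA, A', hA', rfl⟩
    exact (Pool.Agent.H76U.preL_bracket hA hA').2
  · rw [Matrix.transpose_zero, Matrix.zero_mul, Matrix.mul_zero, add_zero]
  · intro A C _ _ h1 h2
    rw [Matrix.transpose_add, Matrix.add_mul, Matrix.mul_add]
    calc Aᵀ * J + Cᵀ * J + (J * A + J * C) = (Aᵀ * J + J * A) + (Cᵀ * J + J * C) := by abel
      _ = 0 := by rw [h1, h2, add_zero]
  · intro a A _ h1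
    rw [Matrix.transpose_smul, Matrix.smul_mul, Matrix.mul_smul, ← smul_add, h1, smul_zero]

/-- PROOF. `brk_zlie`, `brk_skew`. -/
theorem brk_pre : brk J S ≤ preL J S := by
  intro A hA
  exact ⟨⟨0, A, brk_zlie hA, by rw [zero_smul, add_zero]⟩, 0, by rw [brk_skew hA, zero_smul]⟩

/-- PROOF. `A' ∈ brk ≤ preL`, so `A * A' - A' * A` is one of the generators. -/
theorem brk_ad {A A' : Matrix ι ι K} (hA : A ∈ preL J S) (hA' : A' ∈ preL J S) : A * A' - A' * A ∈ brk J S := by
  exact Submodule.subset_span ⟨A, hA, A', hA', rfl⟩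

/-- The block is multiplicative on the commutant of `U * V`.  PROOF. `V * (A * C) * U = (V * A * U) * (V * C * U)` since `C * U = C * (U * V) * U = U * V * C * U`
(`V * U = 1`). -/
theorem pb_mul {k : ℕ} {P : Matrix ι (Fin k) K} {Q : Matrix (Fin k) ι K} (hQP : Q * P = 1) {A C : Matrix ι ι K}
    (hC : C * (P * Q) = P * Q * C) : pb P Q (A * C) = pb P Q A * pb P Q C := by
  have h1 := Pool.Agent.H76U.cmp_mul (p := P * Q) rfl hQP (A := A) hC
  calc pb P Q (A * C) = phi (cmp P Q (A * C)) := rfl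
    _ = phi (cmp P Q A * cmp P Q C) := by rw [h1]
    _ = phi (cmp P Q A) * phi (cmp P Q C) := map_mul _ _ _
    _ = pb P Q A * pb P Q C := rfl

theorem pb_one {k : ℕ} {P : Matrix ι (Fin k) K} {Q : Matrix (Fin k) ι K} (hQP : Q * P = 1) : pb P Q 1 = 1 := by
  rw [pb_apply, Matrix.mul_one, hQP, map_one]

namespace Sit
variable (g : Sit J u DD S 𝓗 x bar e n U V d)
include g

/-- PROOF. `pb_mul`, `g.UV`, `pD` with `g.spl.mem b`. -/
theorem pb_bracket (b : B) {A A' : Matrix ι ι K} (hA : A ∈ preL J S) (hA' : A' ∈ preL J S) :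
    pb (U b) (V b) (A * A' - A' * A) = pb (U b) (V b) A * pb (U b) (V b) A' - pb (U b) (V b) A' * pb (U b) (V b) A := by
  have h1 : A * (U b * V b) = U b * V b * A := by
    have h := g.pD hA (g.spl.mem b)
    rwa [g.UV b] at h
  have h2 : A' * (U b * V b) = U b * V b * A' := by
    have h := g.pD hA' (g.spl.mem b)
    rwa [g.UV b] at h
  rw [map_sub, pb_mul (g.VU b) h2, pb_mul (g.VU b) h1]

/-- PROOF. `H76U.mem_Lb`; the trace of a commutator is zero (`pb_bracket`, `LinearMap.trace_mul_comm`). -/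
theorem pb_mem (b : B) {A : Matrix ι ι K} (hA : A ∈ brk J S) : pb (U b) (V b) A ∈ LcN J S (U b) (V b) := by
  refine ⟨Pool.Agent.H76U.mem_Lb.2 ⟨A, brk_pre hA, rfl⟩, ?_⟩
  refine Submodule.span_induction
    (p := fun A _ => LinearMap.trace K (Fin (n b) → K) (pb (U b) (V b) A) = 0) ?_ ?_ ?_ ?_ hA
  · rintro C ⟨A, hA, A', hA', rfl⟩
    rw [g.pb_bracket b hA hA', map_sub, LinearMap.trace_mul_comm, sub_self]
  · rw [map_zero, map_zero]
  · intro A C _ _ h1 h2
    rw [map_add, map_add, h1, h2, add_zero]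
  · intro a A _ h1
    rw [map_smul, map_smul, h1, smul_zero]

/-- PROOF. `pb_mem`: `H76U.mem_Lb` for `2h - 1 ∈ preL` (`ypre`); the trace of the block of `2h - 1` is `2 rank (h * e b) - n b = 0`: see `H76Y.g4_bal` (H76Y/G4.lean), the
block `V h U` is an idempotent with the rank `(h * e b).rank` (`H76U.rank_cmp`) and the trace of an idempotent is its rank.  Square: `(2h-1)² = 1`, `pb_mul`. -/
theorem y_mem (b : B) {h : Matrix ι ι K} (hh : h ∈ 𝓗) : pb (U b) (V b) ((2 : K) • h - 1) ∈ LcN J S (U b) (V b) ∧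
    pb (U b) (V b) ((2 : K) • h - 1) * pb (U b) (V b) ((2 : K) • h - 1) = 1 := by
  have hc : h * e b = e b * h := g.zD (g.hz h hh) (g.spl.mem b)
  have hUV := g.UV b
  have hVU := g.VU b
  have hy : ((2 : K) • h - 1) * (U b * V b) = U b * V b * ((2 : K) • h - 1) := by
    have h1 := g.pD (g.ypre hh) (g.spl.mem b)
    rwa [hUV] at h1
  refine ⟨⟨Pool.Agent.H76U.mem_Lb.2 ⟨_, g.ypre hh, rfl⟩, ?_⟩, ?_⟩
  · have h1 : cmp (U b) (V b) h * cmp (U b) (V b) h = cmp (U b) (V b) h := by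
      rw [← Pool.Agent.H76U.cmp_mul hUV hVU hc, g.hi h hh]
    have h2 : (cmp (U b) (V b) h).trace = ((cmp (U b) (V b) h).rank : K) := by
      have h3 : phi (cmp (U b) (V b) h) * phi (cmp (U b) (V b) h) = phi (cmp (U b) (V b) h) := by
        rw [← map_mul, h1]
      have h4 := trace_idem h3
      rw [Pool.Agent.H76Y.g4_trace] at h4
      exact h4
    have h5 : (cmp (U b) (V b) h).rank = (h * e b).rank := Pool.Agent.H76U.rank_cmp hUV hVU hc
    have h6 : ((2 * (h * e b).rank : ℕ) : K) = (n b : K) := by rw [g.bal h hh b]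
    have h7 : (cmp (U b) (V b) ((2 : K) • h - 1)).trace = 0 := by
      rw [map_sub, map_smul, Pool.Agent.H76U.cmp_one hUV hVU, Matrix.trace_sub, Matrix.trace_smul, h2, h5,
        Matrix.trace_one, Fintype.card_fin, smul_eq_mul, ← h6]
      push_cast
      ring
    rw [← Pool.Agent.H76Y.g4_trace] at h7
    exact h7
  · rw [← pb_mul hVU hy]
    have h1 : ((2 : K) • h - 1) * ((2 : K) • h - 1) = 1 := by
      have h2 : ((2 : K) • h - 1) * ((2 : K) • h - 1) = (4 : K) • (h * h) - (4 : K) • h + 1 := by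
        simp only [sub_mul, mul_sub, smul_mul_assoc, mul_smul_comm, one_mul, mul_one]
        module
      rw [h2, g.hi h hh, sub_self, zero_add]
    rw [h1, pb_one hVU]

/-- PROOF. The block `M = V b * (2h-1) * U b` commutes with `V b * x * U b = Matrix.diagonal (d b)` (`g.ec`: `x * U b = U b * diagonal (d b)`; `H76P.cmp_phi`), `d b`
is injective, so `M` is diagonal (entries `M i j (d j - d i) = 0`), `M = diagonal ε`, `phi M = dg ε`; `M * M = 1` (`y_mem`) gives `ε k ^ 2 = 1`. -/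
theorem y_diag (b : B) {h : Matrix ι ι K} (hh : h ∈ 𝓗) (hx : h * x = x * h) :
    ∃ ε : Fin (n b) → K, pb (U b) (V b) ((2 : K) • h - 1) = dg ε ∧ ∀ k, ε k = 1 ∨ ε k = -1 := by
  have hUV := g.UV b
  have hVU := g.VU b
  have hye : ((2 : K) • h - 1) * e b = e b * ((2 : K) • h - 1) := g.pD (g.ypre hh) (g.spl.mem b)
  have hxe : x * e b = e b * x := (g.cl g.hx).2.1 _ (g.spl.mem b)
  have hyx : ((2 : K) • h - 1) * x = x * ((2 : K) • h - 1) := by
    rw [sub_mul, mul_sub, smul_mul_assoc, mul_smul_comm, hx, one_mul, mul_one]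
  have h1 := Pool.Agent.H76U.cmp_mul hUV hVU (A := (2 : K) • h - 1) (C := x) hxe
  have h2 := Pool.Agent.H76U.cmp_mul hUV hVU (A := x) (C := (2 : K) • h - 1) hye
  rw [hyx, h2, Pool.Agent.H76P.cmp_phi hVU (g.ec b)] at h1
  let M : Matrix (Fin (n b)) (Fin (n b)) K := cmp (U b) (V b) ((2 : K) • h - 1)
  have hM : M = Matrix.diagonal (fun k => M k k) := by
    ext i j
    by_cases hij : i = j
    · subst hij
      rw [Matrix.diagonal_apply_eq]
    · rw [Matrix.diagonal_apply_ne _ hij]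
      have h3 := congrFun (congrFun h1 i) j
      rw [Matrix.diagonal_mul, Matrix.mul_diagonal] at h3
      have h4 : (d b i - d b j) * M i j = 0 := by
        have h5 : d b i * M i j = M i j * d b j := h3
        rw [sub_mul, h5]
        ring
      exact (mul_eq_zero.1 h4).resolve_left (sub_ne_zero.2 fun h5 => hij ((g.ec b).inj h5))
  have hp : pb (U b) (V b) ((2 : K) • h - 1) = dg (fun k => M k k) := by
    have h3 : pb (U b) (V b) ((2 : K) • h - 1) = phi M := rfl
    rw [h3, hM, Pool.Agent.H76P.phi_diag]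
    congr 1
    ext k
    exact (Matrix.diagonal_apply_eq _ _).symm
  refine ⟨fun k => M k k, hp, fun k => ?_⟩
  have h3 := (g.y_mem b hh).2
  rw [hp, dg_mul, ← dg_one] at h3
  have h4 := congrFun (dg_inj h3) k
  exact mul_self_eq_one_iff.1 h4

end Sit

end Pool.Agent.H34Z
end

-- from Lib.H34V.N02
section

/-!
# N02: the blocks of the projectors (port of H34Z/M02)
-/

set_option autoImplicit false
set_option linter.unusedSectionVars false
namespace Pool.Agent.H34V
open Module Matrix Pool.Agent.H53Toric Pool.Agent.H76P Pool.Agent.H34Z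
open Pool.Agent.H76U (cmp preL Lb Split4)
open Pool.Agent.H76Y (LcN)
open Pool.Agent.H76RM (zar_commute zlie_commute)

variable {ι : Type*} [Fintype ι] [DecidableEq ι] {K : Type*} [Field K] [CharZero K] [IsAlgClosed K]
  {J u : Matrix ι ι K} {DD : Submodule K (Matrix ι ι K)} {S 𝓗 : Set (Matrix ι ι K)} {x : Matrix ι ι K}
  {B : Type*} [Fintype B] [DecidableEq B] {bar : B → B} {e : B → Matrix ι ι K} {n : B → ℕ}
  {U : ∀ b, Matrix ι (Fin (n b)) K} {V : ∀ b, Matrix (Fin (n b)) ι K} {d : ∀ b, Fin (n b) → K}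

namespace Sit5
variable (g : Sit5 J u DD S 𝓗 x bar e n U V d)
include g

/-- PROOF. `pb_mul`, `g.UV`, `pD` with `g.spl.mem b`. -/
theorem pb_bracket (b : B) {A A' : Matrix ι ι K} (hA : A ∈ preL J S) (hA' : A' ∈ preL J S) :
    pb (U b) (V b) (A * A' - A' * A) = pb (U b) (V b) A * pb (U b) (V b) A' - pb (U b) (V b) A' * pb (U b) (V b) A := by
  have h1 : A * (U b * V b) = U b * V b * A := by
    have h := g.pD hA (g.spl.mem b)
    rwa [g.UV b] at h
  have h2 : A' * (U b * V b) = U b * V b * A' := by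
    have h := g.pD hA' (g.spl.mem b)
    rwa [g.UV b] at h
  rw [map_sub, pb_mul (g.VU b) h2, pb_mul (g.VU b) h1]

/-- PROOF. `H76U.mem_Lb`; the trace of a commutator is zero (`pb_bracket`, `LinearMap.trace_mul_comm`). -/
theorem pb_mem (b : B) {A : Matrix ι ι K} (hA : A ∈ brk J S) : pb (U b) (V b) A ∈ LcN J S (U b) (V b) := by
  refine ⟨Pool.Agent.H76U.mem_Lb.2 ⟨A, brk_pre hA, rfl⟩, ?_⟩
  refine Submodule.span_induction
    (p := fun A _ => LinearMap.trace K (Fin (n b) → K) (pb (U b) (V b) A) = 0) ?_ ?_ ?_ ?_ hA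
  · rintro C ⟨A, hA, A', hA', rfl⟩
    rw [g.pb_bracket b hA hA', map_sub, LinearMap.trace_mul_comm, sub_self]
  · rw [map_zero, map_zero]
  · intro A C _ _ h1 h2
    rw [map_add, map_add, h1, h2, add_zero]
  · intro a A _ h1
    rw [map_smul, map_smul, h1, smul_zero]

/-- The block of a projector is an idempotent with the same rank. -/
theorem h_idem (b : B) {h : Matrix ι ι K} (hh : h ∈ 𝓗) :
    pb (U b) (V b) h * pb (U b) (V b) h = pb (U b) (V b) h ∧
      LinearMap.trace K (Fin (n b) → K) (pb (U b) (V b) h) = ((h * e b).rank : K) ∧ (h * e b).rank ≤ n b := by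
  have hc : h * e b = e b * h := g.zD (g.hz h hh) (g.spl.mem b)
  have hUV := g.UV b
  have hVU := g.VU b
  have h0 : pb (U b) (V b) h = phi (cmp (U b) (V b) h) := rfl
  have h1 : cmp (U b) (V b) h * cmp (U b) (V b) h = cmp (U b) (V b) h := by
    rw [← Pool.Agent.H76U.cmp_mul hUV hVU hc, g.hi h hh]
  have h3 : phi (cmp (U b) (V b) h) * phi (cmp (U b) (V b) h) = phi (cmp (U b) (V b) h) := by
    rw [← map_mul, h1]
  have h5 : (cmp (U b) (V b) h).rank = (h * e b).rank := Pool.Agent.H76U.rank_cmp hUV hVU hc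
  refine ⟨h3, ?_, ?_⟩
  · have h4 := trace_idem h3
    rw [h0, h4, ← h5]
    rfl
  · rw [← h5]
    exact (Matrix.rank_le_card_height _).trans (Fintype.card_fin _).le

/-- PROOF. `2 h - 1 - c • 1 ∈ preL` (`ypre`); the trace of the block of `2h - 1` is `2 rank (h * e b) - n b`.  Square: `(2h-1)² = 1`, `pb_mul`. -/
theorem y_mem (b : B) {h : Matrix ι ι K} (hh : h ∈ 𝓗) :
    pb (U b) (V b) ((2 : K) • h - 1) - shf h (e b) (n b) • 1 ∈ LcN J S (U b) (V b) ∧
    pb (U b) (V b) ((2 : K) • h - 1) * pb (U b) (V b) ((2 : K) • h - 1) = 1 := by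
  have hUV := g.UV b
  have hVU := g.VU b
  have hy : ((2 : K) • h - 1) * (U b * V b) = U b * V b * ((2 : K) • h - 1) := by
    have h1 := g.pD (g.ypre hh) (g.spl.mem b)
    rwa [hUV] at h1
  have hn : (n b : K) ≠ 0 := Nat.cast_ne_zero.2 (g.pos b).ne'
  refine ⟨⟨?_, ?_⟩, ?_⟩
  · have h1 : (1 : Matrix ι ι K) ∈ preL J S := by
      refine ⟨⟨1, 0, (zlie S).zero_mem, ?_⟩, 2, ?_⟩
      · rw [one_smul, zero_add]
      · rw [Matrix.transpose_one, one_mul, mul_one, two_smul]
    have h2 : (2 : K) • h - 1 - shf h (e b) (n b) • 1 ∈ preL J S :=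
      (preL J S).sub_mem (g.ypre hh) ((preL J S).smul_mem _ h1)
    have h3 : pb (U b) (V b) ((2 : K) • h - 1) - shf h (e b) (n b) • 1 =
        pb (U b) (V b) ((2 : K) • h - 1 - shf h (e b) (n b) • 1) := by
      rw [map_sub (pb (U b) (V b)) ((2 : K) • h - 1), map_smul (pb (U b) (V b)) (shf h (e b) (n b)), pb_one hVU]
    rw [h3]
    exact Pool.Agent.H76U.mem_Lb.2 ⟨_, h2, rfl⟩
  · rw [map_sub, map_smul, map_sub, map_smul, pb_one hVU, map_sub, map_smul, (g.h_idem b hh).2.1,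
      LinearMap.trace_one, Module.finrank_fintype_fun_eq_card, Fintype.card_fin, smul_eq_mul, smul_eq_mul, shf]
    field_simp
    ring
  · rw [← pb_mul hVU hy]
    have h1 : ((2 : K) • h - 1) * ((2 : K) • h - 1) = 1 := by
      have h2 : ((2 : K) • h - 1) * ((2 : K) • h - 1) = (4 : K) • (h * h) - (4 : K) • h + 1 := by
        simp only [sub_mul, mul_sub, smul_mul_assoc, mul_smul_comm, one_mul, mul_one]
        module
      rw [h2, g.hi h hh, sub_self, zero_add]
    rw [h1, pb_one hVU]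

/-- PROOF. The block `M = V b * (2h-1) * U b` commutes with `V b * x * U b = Matrix.diagonal (d b)` (`g.ec`: `x * U b = U b * diagonal (d b)`; `H76P.cmp_phi`), `d b`
is injective, so `M` is diagonal (entries `M i j (d j - d i) = 0`), `M = diagonal ε`, `phi M = dg ε`; `M * M = 1` (`y_mem`) gives `ε k ^ 2 = 1`. -/
theorem y_diag (b : B) {h : Matrix ι ι K} (hh : h ∈ 𝓗) (hx : h * x = x * h) :
    ∃ ε : Fin (n b) → K, pb (U b) (V b) ((2 : K) • h - 1) = dg ε ∧ ∀ k, ε k = 1 ∨ ε k = -1 := by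
  have hUV := g.UV b
  have hVU := g.VU b
  have hye : ((2 : K) • h - 1) * e b = e b * ((2 : K) • h - 1) := g.pD (g.ypre hh) (g.spl.mem b)
  have hxe : x * e b = e b * x := (g.cl g.hx).2.1 _ (g.spl.mem b)
  have hyx : ((2 : K) • h - 1) * x = x * ((2 : K) • h - 1) := by
    rw [sub_mul, mul_sub, smul_mul_assoc, mul_smul_comm, hx, one_mul, mul_one]
  have h1 := Pool.Agent.H76U.cmp_mul hUV hVU (A := (2 : K) • h - 1) (C := x) hxe
  have h2 := Pool.Agent.H76U.cmp_mul hUV hVU (A := x) (C := (2 : K) • h - 1) hye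
  rw [hyx, h2, Pool.Agent.H76P.cmp_phi hVU (g.ec b)] at h1
  let M : Matrix (Fin (n b)) (Fin (n b)) K := cmp (U b) (V b) ((2 : K) • h - 1)
  have hM : M = Matrix.diagonal (fun k => M k k) := by
    ext i j
    by_cases hij : i = j
    · subst hij
      rw [Matrix.diagonal_apply_eq]
    · rw [Matrix.diagonal_apply_ne _ hij]
      have h3 := congrFun (congrFun h1 i) j
      rw [Matrix.diagonal_mul, Matrix.mul_diagonal] at h3
      have h4 : (d b i - d b j) * M i j = 0 := by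
        have h5 : d b i * M i j = M i j * d b j := h3
        rw [sub_mul, h5]
        ring
      exact (mul_eq_zero.1 h4).resolve_left (sub_ne_zero.2 fun h5 => hij ((g.ec b).inj h5))
  have hp : pb (U b) (V b) ((2 : K) • h - 1) = dg (fun k => M k k) := by
    have h3 : pb (U b) (V b) ((2 : K) • h - 1) = phi M := rfl
    rw [h3, hM, Pool.Agent.H76P.phi_diag]
    congr 1
    ext k
    exact (Matrix.diagonal_apply_eq _ _).symm
  refine ⟨fun k => M k k, hp, fun k => ?_⟩
  have h3 := (g.y_mem b hh).2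
  rw [hp, dg_mul, ← dg_one] at h3
  have h4 := congrFun (dg_inj h3) k
  exact mul_self_eq_one_iff.1 h4

/-- The signs. -/
theorem y_sgn (b : B) {h : Matrix ι ι K} (hh : h ∈ 𝓗) {ε : Fin (n b) → K}
    (hε : pb (U b) (V b) ((2 : K) • h - 1) = dg ε) (hv : ∀ k, ε k = 1 ∨ ε k = -1) :
    ((h * e b).rank ≠ 0 → ∃ k, ε k = 1) ∧ ((h * e b).rank ≠ n b → ∃ k, ε k = -1) := by
  have hVU := g.VU b
  have h1 : pb (U b) (V b) ((2 : K) • h - 1) = (2 : K) • pb (U b) (V b) h - 1 := by
    rw [map_sub, map_smul, pb_one hVU]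
  have htr := (g.h_idem b hh).2.1
  constructor
  · intro hr
    by_contra hcon
    push Not at hcon
    have h2 : ε = fun _ => (-1 : K) := funext fun k => (hv k).resolve_left (hcon k)
    have h3 : (dg (fun _ => (-1 : K)) : Module.End K (Fin (n b) → K)) = -1 := by
      refine LinearMap.ext fun v => funext fun a => ?_
      rw [dg_apply]
      simp
    rw [h1, h2, h3] at hε
    have h4 : pb (U b) (V b) h = 0 := by
      have h5 : (2 : K) • pb (U b) (V b) h = 0 := by
        have h6 := congrArg (fun m => m + 1) hε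
        simp only [sub_add_cancel, neg_add_cancel] at h6
        exact h6
      exact (smul_eq_zero.1 h5).resolve_left two_ne_zero
    rw [h4, map_zero] at htr
    exact hr (Nat.cast_eq_zero.1 htr.symm)
  · intro hr
    by_contra hcon
    push Not at hcon
    have h2 : ε = fun _ => (1 : K) := funext fun k => (hv k).resolve_right (hcon k)
    have h3 : (dg (fun _ => (1 : K)) : Module.End K (Fin (n b) → K)) = 1 := by
      refine LinearMap.ext fun v => funext fun a => ?_
      rw [dg_apply]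
      simp
    rw [h1, h2, h3] at hε
    have h4 : pb (U b) (V b) h = 1 := by
      have h5 : (2 : K) • pb (U b) (V b) h = (2 : K) • 1 := by
        have h6 := congrArg (fun m => m + 1) hε
        simp only [sub_add_cancel] at h6
        rw [h6, two_smul]
      exact smul_right_injective _ (two_ne_zero (α := K)) h5
    rw [h4, LinearMap.trace_one, Module.finrank_fintype_fun_eq_card, Fintype.card_fin] at htr
    exact hr (Nat.cast_injective htr.symm)

end Sit5

end Pool.Agent.H34V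
end

-- from Lib.H34V.N03
section

/-!
# N03: the blocks of the brackets; conjugation (port of H34Z/M03)
-/

set_option autoImplicit false
set_option linter.unusedSectionVars false
namespace Pool.Agent.H34V
open Module Matrix Pool.Agent.H53Toric Pool.Agent.H76P Pool.Agent.H34Z
open Pool.Agent.H76U (cmp preL Lb Split4)
open Pool.Agent.H76Y (LcN)
open Pool.Agent.H76RM (zar_commute zlie_commute)

variable {ι : Type*} [Fintype ι] [DecidableEq ι] {K : Type*} [Field K] [CharZero K] [IsAlgClosed K]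
  {J u : Matrix ι ι K} {DD : Submodule K (Matrix ι ι K)} {S 𝓗 : Set (Matrix ι ι K)} {x : Matrix ι ι K}
  {B : Type*} [Fintype B] [DecidableEq B] {bar : B → B} {e : B → Matrix ι ι K} {n : B → ℕ}
  {U : ∀ b, Matrix ι (Fin (n b)) K} {V : ∀ b, Matrix (Fin (n b)) ι K} {d : ∀ b, Fin (n b) → K}

/-- In rank one a trace zero operator is zero. -/
theorem tr_one {k : ℕ} (hk : k = 1) {X : Module.End K (Fin k → K)} (hX : LinearMap.trace K (Fin k → K) X = 0) :
    X = 0 := by
  subst hk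
  have h1 : X = phi (LinearMap.toMatrix' X) := by
    refine LinearMap.ext fun v => ?_
    rw [phi_apply, ← Matrix.toLin'_apply, Matrix.toLin'_toMatrix']
  have h2 : LinearMap.trace K (Fin 1 → K) X = (LinearMap.toMatrix' X).trace := by
    conv_lhs => rw [h1]
    exact Pool.Agent.H76Y.g4_trace _
  rw [h2, Matrix.trace_fin_one] at hX
  rw [h1]
  have h3 : LinearMap.toMatrix' X = 0 := by
    ext i j
    rw [Subsingleton.elim i 0, Subsingleton.elim j 0, hX]
    rfl
  rw [h3, map_zero]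

namespace Sit5
variable (g : Sit5 J u DD S 𝓗 x bar e n U V d)
include g

/-- PROOF. As `Sit.pb_brk`; rank one: both sides are zero. -/
theorem pb_brk (b : B) : (brk J S).map (pb (U b) (V b)) = LcN J S (U b) (V b) := by
  refine le_antisymm (Submodule.map_le_iff_le_comap.2 fun A hA => g.pb_mem b hA) ?_
  intro X hX
  have hpos := g.pos b
  by_cases h2 : 2 ≤ n b
  · have h4 := (g.full b h2).perfect
    rw [h4] at hX
    refine (Submodule.span_le (p := (brk J S).map (pb (U b) (V b)))).2 ?_ hX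
    rintro Z ⟨X, hX, Y, hY, rfl⟩
    obtain ⟨_, ⟨A, hA, rfl⟩, hAX⟩ := hX.1
    obtain ⟨_, ⟨A', hA', rfl⟩, hAY⟩ := hY.1
    refine ⟨A * A' - A' * A, brk_ad hA hA', ?_⟩
    rw [← hAX, ← hAY]
    exact g.pb_bracket b hA hA'
  · rw [tr_one (by omega) hX.2]
    exact Submodule.zero_mem _

/-- PROOF. For `y = 1 + (t-1) h`, `y' = 1 + (t⁻¹-1) h`: with `A₁ = h A (1-h)`, `A₂ = (1-h) A h`: `y A y' = A + (t-1) A₁ + (t⁻¹-1) A₂`, `[h, A] = A₁ - A₂`,
`[h, [h, A]] = A₁ + A₂`, so `y A y'` is a combination of `A`, `[h, A]`, `[h, [h, A]]`, all in `preL J S` (`brk_ad`, `brk_pre`, `hpre`).  Closure induction: for every `y` in the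
closure there is `y'` with `y y' = 1` and `y A y' ∈ preL` for all `A ∈ preL`; as `y'` is determined by `y` (`y y' = 1`), this holds for every `y'` with `y * y' = 1`. -/
theorem conj_pre {y y' : Matrix ι ι K} (hy : y ∈ Submonoid.closure (par 𝓗)) (hyy : y * y' = 1) {A : Matrix ι ι K}
    (hA : A ∈ preL J S) : y * A * y' ∈ preL J S := by
  have key : ∃ y'' : Matrix ι ι K, y * y'' = 1 ∧ ∀ A ∈ preL J S, y * A * y'' ∈ preL J S := by
    refine Submonoid.closure_induction
      (motive := fun y _ => ∃ y'' : Matrix ι ι K, y * y'' = 1 ∧ ∀ A ∈ preL J S, y * A * y'' ∈ preL J S)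
      ?_ ?_ ?_ hy
    · rintro y ⟨h, hh, t, ht, rfl⟩
      have hi := g.hi h hh
      refine ⟨1 + (t⁻¹ - 1) • h, ?_, fun A hA => ?_⟩
      · have e1 : (1 + (t - 1) • h) * (1 + (t⁻¹ - 1) • h) =
            1 + ((t - 1) + (t⁻¹ - 1)) • h + ((t - 1) * (t⁻¹ - 1)) • (h * h) := by
          simp only [add_mul, mul_add, smul_mul_assoc, mul_smul_comm, one_mul, mul_one]
          module
        have e2 : (t - 1) * (t⁻¹ - 1) = -((t - 1) + (t⁻¹ - 1)) := by
          field_simp
          ring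
        rw [e1, hi, e2, neg_smul, add_assoc, add_neg_cancel, add_zero]
      · have e2 : (t - 1) * (t⁻¹ - 1) = -((t - 1) + (t⁻¹ - 1)) := by
          field_simp
          ring
        have e3 : (1 + (t - 1) • h) * A * (1 + (t⁻¹ - 1) • h) =
            A + (t - 1) • (h * A) + (t⁻¹ - 1) • (A * h) + ((t - 1) * (t⁻¹ - 1)) • (h * A * h) := by
          simp only [add_mul, mul_add, smul_mul_assoc, mul_smul_comm, one_mul, mul_one]
          module
        have e4 : h * (h * A - A * h) - (h * A - A * h) * h = h * A + A * h - (2 : K) • (h * A * h) := by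
          have e5 : h * (h * A - A * h) - (h * A - A * h) * h =
              (h * h) * A + A * (h * h) - (h * A * h + h * A * h) := by noncomm_ring
          rw [e5, hi, two_smul]
        have e6 : (1 + (t - 1) • h) * A * (1 + (t⁻¹ - 1) • h) =
            A + (((t - 1) - (t⁻¹ - 1)) / 2) • (h * A - A * h) +
              (((t - 1) + (t⁻¹ - 1)) / 2) • (h * (h * A - A * h) - (h * A - A * h) * h) := by
          rw [e3, e4, e2]
          module
        have m1 : h * A - A * h ∈ preL J S := brk_pre (brk_ad (g.hpre hh) hA)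
        have m2 : h * (h * A - A * h) - (h * A - A * h) * h ∈ preL J S := brk_pre (brk_ad (g.hpre hh) m1)
        rw [e6]
        exact (preL J S).add_mem ((preL J S).add_mem hA ((preL J S).smul_mem _ m1))
          ((preL J S).smul_mem _ m2)
    · exact ⟨1, by rw [one_mul], fun A hA => by rw [one_mul, mul_one]; exact hA⟩
    · rintro a c _ _ ⟨a', ha, ha2⟩ ⟨c', hc, hc2⟩
      refine ⟨c' * a', ?_, fun A hA => ?_⟩
      · calc a * c * (c' * a') = a * (c * c') * a' := by simp only [Matrix.mul_assoc]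
          _ = 1 := by rw [hc, Matrix.mul_one, ha]
      · have e1 : a * c * A * (c' * a') = a * (c * A * c') * a' := by simp only [Matrix.mul_assoc]
        rw [e1]
        exact ha2 _ (hc2 _ hA)
  obtain ⟨y'', h1, h2⟩ := key
  have h3 : y' = y'' := by
    have h4 : y' * y = 1 := mul_eq_one_comm.1 hyy
    calc y' = y' * (y * y'') := by rw [h1, Matrix.mul_one]
      _ = y'' := by rw [← Matrix.mul_assoc, h4, Matrix.one_mul]
  rw [h3]
  exact h2 A hA

/-- PROOF. `Submodule.span_induction`: `y (A A' - A' A) y' = [y A y', y A' y']` (`y' y = 1`), `conj_pre`. -/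
theorem conj_brk {y y' : Matrix ι ι K} (hy : y ∈ Submonoid.closure (par 𝓗)) (hyy : y * y' = 1) {A : Matrix ι ι K}
    (hA : A ∈ brk J S) : y * A * y' ∈ brk J S := by
  have hy1 : y' * y = 1 := mul_eq_one_comm.1 hyy
  refine Submodule.span_induction (p := fun A _ => y * A * y' ∈ brk J S) ?_ ?_ ?_ ?_ hA
  · rintro C ⟨A, hA, A', hA', rfl⟩
    have e1 : y * (A * A' - A' * A) * y' = (y * A * y') * (y * A' * y') - (y * A' * y') * (y * A * y') := by
      have e2 : (y * A * y') * (y * A' * y') = y * A * (y' * y) * A' * y' := by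
        simp only [Matrix.mul_assoc]
      have e3 : (y * A' * y') * (y * A * y') = y * A' * (y' * y) * A * y' := by
        simp only [Matrix.mul_assoc]
      rw [e2, e3, hy1, Matrix.mul_one, Matrix.mul_one, Matrix.mul_sub, Matrix.sub_mul]
      simp only [Matrix.mul_assoc]
    rw [e1]
    exact brk_ad (g.conj_pre hy hyy hA) (g.conj_pre hy hyy hA')
  · rw [Matrix.mul_zero, Matrix.zero_mul]
    exact (brk J S).zero_mem
  · intro A C _ _ h1 h2
    rw [Matrix.mul_add, Matrix.add_mul]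
    exact (brk J S).add_mem h1 h2
  · intro a A _ h1
    rw [Matrix.mul_smul, Matrix.smul_mul]
    exact (brk J S).smul_mem a h1

/-- PROOF. `x * U b = U b * diagonal (d b)` (`g.ec`), `V b * x = diagonal (d b) * V b` (`x` commutes with `e b`: `V b * x = V b * e b * x = V b * x * U b * V b`), so
`x' * U b = U b * diagonal (d b)⁻¹`, `V b * x * A * x' * U b = diagonal (d b) * (V b * A * U b) * diagonal (d b)⁻¹`; `phi (diagonal f) = dg f`. -/
theorem pb_conj (b : B) {x' : Matrix ι ι K} (hxx : x * x' = 1) {A : Matrix ι ι K} :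
    pb (U b) (V b) (x * A * x') = dg (d b) * pb (U b) (V b) A * dg (fun k => (d b k)⁻¹) := by
  have hx1 : x' * x = 1 := mul_eq_one_comm.1 hxx
  have hUV := g.UV b
  have hVU := g.VU b
  have hxe : x * e b = e b * x := (g.cl g.hx).2.1 _ (g.spl.mem b)
  have hE := (g.ec b).eig
  have hDD : Matrix.diagonal (d b) * Matrix.diagonal (fun k => (d b k)⁻¹) = 1 := by
    rw [Matrix.diagonal_mul_diagonal, ← Matrix.diagonal_one]
    congr 1
    ext k
    exact mul_inv_cancel₀ ((g.ec b).ne k)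
  have h1 : x' * U b = U b * Matrix.diagonal (fun k => (d b k)⁻¹) := by
    calc x' * U b = x' * (U b * (Matrix.diagonal (d b) * Matrix.diagonal (fun k => (d b k)⁻¹))) := by
          rw [hDD, Matrix.mul_one]
      _ = x' * ((U b * Matrix.diagonal (d b)) * Matrix.diagonal (fun k => (d b k)⁻¹)) := by
          rw [Matrix.mul_assoc]
      _ = (x' * x) * U b * Matrix.diagonal (fun k => (d b k)⁻¹) := by
          rw [← hE]
          simp only [Matrix.mul_assoc]
      _ = _ := by rw [hx1, Matrix.one_mul]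
  have h2 : V b * x = Matrix.diagonal (d b) * V b := by
    have h3 := Pool.Agent.H76U.cmp_Q hUV hVU hxe
    rw [Pool.Agent.H76P.cmp_phi hVU (g.ec b)] at h3
    exact h3.symm
  have h3 : V b * (x * A * x') * U b =
      Matrix.diagonal (d b) * (V b * A * U b) * Matrix.diagonal (fun k => (d b k)⁻¹) := by
    calc V b * (x * A * x') * U b = (V b * x) * A * (x' * U b) := by simp only [Matrix.mul_assoc]
      _ = _ := by
          rw [h1, h2]
          simp only [Matrix.mul_assoc]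
  rw [pb_apply, pb_apply, h3, map_mul, map_mul, Pool.Agent.H76P.phi_diag, Pool.Agent.H76P.phi_diag]

end Sit5

end Pool.Agent.H34V
end

-- from Lib.H34Z.M03
section

/-!
# M03: the blocks of the brackets; conjugation
-/

set_option autoImplicit false
set_option linter.unusedSectionVars false
namespace Pool.Agent.H34Z
open Module Matrix Pool.Agent.H53Toric Pool.Agent.H76P
open Pool.Agent.H76U (cmp preL Lb Split4)
open Pool.Agent.H76Y (LcN)
open Pool.Agent.H76RM (zar_commute zlie_commute)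

variable {ι : Type*} [Fintype ι] [DecidableEq ι] {K : Type*} [Field K] [CharZero K] [IsAlgClosed K]
  {J u : Matrix ι ι K} {DD : Submodule K (Matrix ι ι K)} {S 𝓗 : Set (Matrix ι ι K)} {x : Matrix ι ι K}
  {B : Type*} [Fintype B] [DecidableEq B] {bar : B → B} {e : B → Matrix ι ι K} {n : B → ℕ}
  {U : ∀ b, Matrix ι (Fin (n b)) K} {V : ∀ b, Matrix (Fin (n b)) ι K} {d : ∀ b, Fin (n b) → K}

namespace Sit
variable (g : Sit J u DD S 𝓗 x bar e n U V d)
include g

/-- PROOF. `≤`: `pb_mem`.  `≥`: `L = LcN J S (U b) (V b)` is spanned by brackets `Y * Z - Z * Y`, `Y, Z ∈ L` (`FB.perfect` with `g.full b`; `ε` from `y_diag`, `y_mem` for the `h`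
of `g.hh`; `Fin (n b)` is not empty, `g.pos`); `Y`, `Z` are blocks of `A, A' ∈ preL J S` (`H76U.mem_Lb`), and `[Y, Z]` is the block of `[A, A'] ∈ brk` (`pb_bracket`). -/
theorem pb_brk (b : B) : (brk J S).map (pb (U b) (V b)) = LcN J S (U b) (V b) := by
  obtain ⟨h, hh, hx⟩ := g.hh
  obtain ⟨ε, h1, h2⟩ := g.y_diag b hh hx
  have : Nonempty (Fin (n b)) := ⟨⟨0, g.pos b⟩⟩
  have h3 : dg ε ∈ LcN J S (U b) (V b) := by
    rw [← h1]
    exact (g.y_mem b hh).1
  have h4 := (g.full b).perfect h3 h2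
  refine le_antisymm (Submodule.map_le_iff_le_comap.2 fun A hA => g.pb_mem b hA) ?_
  intro X hX
  rw [h4] at hX
  refine (Submodule.span_le (p := (brk J S).map (pb (U b) (V b)))).2 ?_ hX
  rintro Z ⟨X, hX, Y, hY, rfl⟩
  obtain ⟨_, ⟨A, hA, rfl⟩, hAX⟩ := hX.1
  obtain ⟨_, ⟨A', hA', rfl⟩, hAY⟩ := hY.1
  refine ⟨A * A' - A' * A, brk_ad hA hA', ?_⟩
  rw [← hAX, ← hAY]
  exact g.pb_bracket b hA hA'

/-- PROOF. For `y = 1 + (t-1) h`, `y' = 1 + (t⁻¹-1) h`: with `A₁ = h A (1-h)`, `A₂ = (1-h) A h`: `y A y' = A + (t-1) A₁ + (t⁻¹-1) A₂`, `[h, A] = A₁ - A₂`,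
`[h, [h, A]] = A₁ + A₂`, so `y A y'` is a combination of `A`, `[h, A]`, `[h, [h, A]]`, all in `preL J S` (`brk_ad`, `brk_pre`, `hpre`).  Closure induction: for every `y` in the
closure there is `y'` with `y y' = 1` and `y A y' ∈ preL` for all `A ∈ preL`; as `y'` is determined by `y` (`y y' = 1`), this holds for every `y'` with `y * y' = 1`. -/
theorem conj_pre {y y' : Matrix ι ι K} (hy : y ∈ Submonoid.closure (par 𝓗)) (hyy : y * y' = 1) {A : Matrix ι ι K}
    (hA : A ∈ preL J S) : y * A * y' ∈ preL J S := by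
  have key : ∃ y'' : Matrix ι ι K, y * y'' = 1 ∧ ∀ A ∈ preL J S, y * A * y'' ∈ preL J S := by
    refine Submonoid.closure_induction
      (motive := fun y _ => ∃ y'' : Matrix ι ι K, y * y'' = 1 ∧ ∀ A ∈ preL J S, y * A * y'' ∈ preL J S)
      ?_ ?_ ?_ hy
    · rintro y ⟨h, hh, t, ht, rfl⟩
      have hi := g.hi h hh
      refine ⟨1 + (t⁻¹ - 1) • h, ?_, fun A hA => ?_⟩
      · have e1 : (1 + (t - 1) • h) * (1 + (t⁻¹ - 1) • h) =
            1 + ((t - 1) + (t⁻¹ - 1)) • h + ((t - 1) * (t⁻¹ - 1)) • (h * h) := by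
          simp only [add_mul, mul_add, smul_mul_assoc, mul_smul_comm, one_mul, mul_one]
          module
        have e2 : (t - 1) * (t⁻¹ - 1) = -((t - 1) + (t⁻¹ - 1)) := by
          field_simp
          ring
        rw [e1, hi, e2, neg_smul, add_assoc, add_neg_cancel, add_zero]
      · have e2 : (t - 1) * (t⁻¹ - 1) = -((t - 1) + (t⁻¹ - 1)) := by
          field_simp
          ring
        have e3 : (1 + (t - 1) • h) * A * (1 + (t⁻¹ - 1) • h) =
            A + (t - 1) • (h * A) + (t⁻¹ - 1) • (A * h) + ((t - 1) * (t⁻¹ - 1)) • (h * A * h) := by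
          simp only [add_mul, mul_add, smul_mul_assoc, mul_smul_comm, one_mul, mul_one]
          module
        have e4 : h * (h * A - A * h) - (h * A - A * h) * h = h * A + A * h - (2 : K) • (h * A * h) := by
          have e5 : h * (h * A - A * h) - (h * A - A * h) * h =
              (h * h) * A + A * (h * h) - (h * A * h + h * A * h) := by noncomm_ring
          rw [e5, hi, two_smul]
        have e6 : (1 + (t - 1) • h) * A * (1 + (t⁻¹ - 1) • h) =
            A + (((t - 1) - (t⁻¹ - 1)) / 2) • (h * A - A * h) +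
              (((t - 1) + (t⁻¹ - 1)) / 2) • (h * (h * A - A * h) - (h * A - A * h) * h) := by
          rw [e3, e4, e2]
          module
        have m1 : h * A - A * h ∈ preL J S := brk_pre (brk_ad (g.hpre hh) hA)
        have m2 : h * (h * A - A * h) - (h * A - A * h) * h ∈ preL J S := brk_pre (brk_ad (g.hpre hh) m1)
        rw [e6]
        exact (preL J S).add_mem ((preL J S).add_mem hA ((preL J S).smul_mem _ m1))
          ((preL J S).smul_mem _ m2)
    · exact ⟨1, by rw [one_mul], fun A hA => by rw [one_mul, mul_one]; exact hA⟩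
    · rintro a c _ _ ⟨a', ha, ha2⟩ ⟨c', hc, hc2⟩
      refine ⟨c' * a', ?_, fun A hA => ?_⟩
      · calc a * c * (c' * a') = a * (c * c') * a' := by simp only [Matrix.mul_assoc]
          _ = 1 := by rw [hc, Matrix.mul_one, ha]
      · have e1 : a * c * A * (c' * a') = a * (c * A * c') * a' := by simp only [Matrix.mul_assoc]
        rw [e1]
        exact ha2 _ (hc2 _ hA)
  obtain ⟨y'', h1, h2⟩ := key
  have h3 : y' = y'' := by
    have h4 : y' * y = 1 := mul_eq_one_comm.1 hyy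
    calc y' = y' * (y * y'') := by rw [h1, Matrix.mul_one]
      _ = y'' := by rw [← Matrix.mul_assoc, h4, Matrix.one_mul]
  rw [h3]
  exact h2 A hA

/-- PROOF. `Submodule.span_induction`: `y (A A' - A' A) y' = [y A y', y A' y']` (`y' y = 1`), `conj_pre`. -/
theorem conj_brk {y y' : Matrix ι ι K} (hy : y ∈ Submonoid.closure (par 𝓗)) (hyy : y * y' = 1) {A : Matrix ι ι K}
    (hA : A ∈ brk J S) : y * A * y' ∈ brk J S := by
  have hy1 : y' * y = 1 := mul_eq_one_comm.1 hyy
  refine Submodule.span_induction (p := fun A _ => y * A * y' ∈ brk J S) ?_ ?_ ?_ ?_ hA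
  · rintro C ⟨A, hA, A', hA', rfl⟩
    have e1 : y * (A * A' - A' * A) * y' = (y * A * y') * (y * A' * y') - (y * A' * y') * (y * A * y') := by
      have e2 : (y * A * y') * (y * A' * y') = y * A * (y' * y) * A' * y' := by
        simp only [Matrix.mul_assoc]
      have e3 : (y * A' * y') * (y * A * y') = y * A' * (y' * y) * A * y' := by
        simp only [Matrix.mul_assoc]
      rw [e2, e3, hy1, Matrix.mul_one, Matrix.mul_one, Matrix.mul_sub, Matrix.sub_mul]
      simp only [Matrix.mul_assoc]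
    rw [e1]
    exact brk_ad (g.conj_pre hy hyy hA) (g.conj_pre hy hyy hA')
  · rw [Matrix.mul_zero, Matrix.zero_mul]
    exact (brk J S).zero_mem
  · intro A C _ _ h1 h2
    rw [Matrix.mul_add, Matrix.add_mul]
    exact (brk J S).add_mem h1 h2
  · intro a A _ h1
    rw [Matrix.mul_smul, Matrix.smul_mul]
    exact (brk J S).smul_mem a h1

/-- PROOF. `x * U b = U b * diagonal (d b)` (`g.ec`), `V b * x = diagonal (d b) * V b` (`x` commutes with `e b`: `V b * x = V b * e b * x = V b * x * U b * V b`), so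
`x' * U b = U b * diagonal (d b)⁻¹`, `V b * x * A * x' * U b = diagonal (d b) * (V b * A * U b) * diagonal (d b)⁻¹`; `phi (diagonal f) = dg f`. -/
theorem pb_conj (b : B) {x' : Matrix ι ι K} (hxx : x * x' = 1) {A : Matrix ι ι K} :
    pb (U b) (V b) (x * A * x') = dg (d b) * pb (U b) (V b) A * dg (fun k => (d b k)⁻¹) := by
  have hx1 : x' * x = 1 := mul_eq_one_comm.1 hxx
  have hUV := g.UV b
  have hVU := g.VU b
  have hxe : x * e b = e b * x := (g.cl g.hx).2.1 _ (g.spl.mem b)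
  have hE := (g.ec b).eig
  have hDD : Matrix.diagonal (d b) * Matrix.diagonal (fun k => (d b k)⁻¹) = 1 := by
    rw [Matrix.diagonal_mul_diagonal, ← Matrix.diagonal_one]
    congr 1
    ext k
    exact mul_inv_cancel₀ ((g.ec b).ne k)
  have h1 : x' * U b = U b * Matrix.diagonal (fun k => (d b k)⁻¹) := by
    calc x' * U b = x' * (U b * (Matrix.diagonal (d b) * Matrix.diagonal (fun k => (d b k)⁻¹))) := by
          rw [hDD, Matrix.mul_one]
      _ = x' * ((U b * Matrix.diagonal (d b)) * Matrix.diagonal (fun k => (d b k)⁻¹)) := by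
          rw [Matrix.mul_assoc]
      _ = (x' * x) * U b * Matrix.diagonal (fun k => (d b k)⁻¹) := by
          rw [← hE]
          simp only [Matrix.mul_assoc]
      _ = _ := by rw [hx1, Matrix.one_mul]
  have h2 : V b * x = Matrix.diagonal (d b) * V b := by
    have h3 := Pool.Agent.H76U.cmp_Q hUV hVU hxe
    rw [Pool.Agent.H76P.cmp_phi hVU (g.ec b)] at h3
    exact h3.symm
  have h3 : V b * (x * A * x') * U b =
      Matrix.diagonal (d b) * (V b * A * U b) * Matrix.diagonal (fun k => (d b k)⁻¹) := by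
    calc V b * (x * A * x') * U b = (V b * x) * A * (x' * U b) := by simp only [Matrix.mul_assoc]
      _ = _ := by
          rw [h1, h2]
          simp only [Matrix.mul_assoc]
  rw [pb_apply, pb_apply, h3, map_mul, map_mul, Pool.Agent.H76P.phi_diag, Pool.Agent.H76P.phi_diag]

end Sit

end Pool.Agent.H34Z
end

-- from Lib.H34Z.M04
section

/-!
# M04: two blocks
-/

set_option autoImplicit false
set_option linter.unusedSectionVars false
namespace Pool.Agent.H34Z
open Module Matrix Pool.Agent.H53Toric Pool.Agent.H76P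
open Pool.Agent.H76U (cmp preL Lb Split4)
open Pool.Agent.H76Y (LcN)
open Pool.Agent.H76RM (zar_commute zlie_commute)

variable {ι : Type*} [Fintype ι] [DecidableEq ι] {K : Type*} [Field K] [CharZero K] [IsAlgClosed K]
  {J u : Matrix ι ι K} {DD : Submodule K (Matrix ι ι K)} {S 𝓗 : Set (Matrix ι ι K)} {x : Matrix ι ι K}
  {B : Type*} [Fintype B] [DecidableEq B] {bar : B → B} {e : B → Matrix ι ι K} {n : B → ℕ}
  {U : ∀ b, Matrix ι (Fin (n b)) K} {V : ∀ b, Matrix (Fin (n b)) ι K} {d : ∀ b, Fin (n b) → K}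

/-- The Lie algebra of the pairs of blocks. -/
noncomputable def pr2 (J : Matrix ι ι K) (S : Set (Matrix ι ι K)) {k l : ℕ} (P : Matrix ι (Fin k) K) (Q : Matrix (Fin k) ι K)
    (P' : Matrix ι (Fin l) K) (Q' : Matrix (Fin l) ι K) :
    Submodule K (Module.End K (Fin k → K) × Module.End K (Fin l → K)) :=
  (brk J S).map ((pb P Q).prod (pb P' Q'))

namespace Sit
variable (g : Sit J u DD S 𝓗 x bar e n U V d)
include g

/-- PROOF. `dich` (R01) for `𝔤 = brk J S`, `p = pb (U b) (V b)`, `q = pb (U c) (V c)`: `brk_ad`, `brk_pre`, `pb_bracket`, `pb_brk`; simplicity: `FB.simple` with `g.full`, `ε` from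
`g.hh`, `y_diag`, `y_mem`. -/
theorem two (b c : B) : (∀ X ∈ LcN J S (U b) (V b), ∃ A ∈ brk J S, pb (U b) (V b) A = X ∧ pb (U c) (V c) A = 0) ∨
    ∀ A ∈ brk J S, pb (U b) (V b) A = 0 ↔ pb (U c) (V c) A = 0 := by
  obtain ⟨h, hh, hx⟩ := g.hh
  obtain ⟨ε, hε1, hε2⟩ := g.y_diag b hh hx
  obtain ⟨ε', hε1', hε2'⟩ := g.y_diag c hh hx
  refine dich (𝔤 := brk J S) (fun A hA A' hA' => brk_ad (brk_pre hA) (brk_pre hA'))
    (p := pb (U b) (V b)) (q := pb (U c) (V c))
    (fun A hA A' hA' => g.pb_bracket b (brk_pre hA) (brk_pre hA'))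
    (fun A hA A' hA' => g.pb_bracket c (brk_pre hA) (brk_pre hA'))
    (g.pb_brk b) (g.pb_brk c) (fun I hI h0 => ?_) (fun I hI h0 => ?_)
  · refine (g.full b).simple (ε := ε) ?_ hε2 hI h0
    rw [← hε1]
    exact (g.y_mem b hh).1
  · refine (g.full c).simple (ε := ε') ?_ hε2' hI h0
    rw [← hε1']
    exact (g.y_mem c hh).1

/-- PROOF. Let `y = 2h - 1`.  `pb b y ∈ LcN b` (`y_mem`), so there is `A ∈ brk` with `pb b A = pb b y` (`pb_brk`).  For all `X ∈ brk`: `[y - A, X] ∈ brk` (`brk_ad`, `ypre`, `brk_pre`) and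
its block `b` is `[0, pb b X] = 0`, so by `hgr` its block `c` is zero: `T = pb c (y - A)` commutes with `pb c X` for all `X ∈ brk`, i.e. with all elements of `LcN c`
(`pb_brk`).  `LcN c` is irreducible (`g.irr c`), `K` is algebraically closed: `T` has an eigenvalue, the eigenspace is stable, so `T = t • 1`.  The trace of `T` is zero
(`pb c y` and `pb c A` are in `LcN c`), so `t * n c = 0`, `t = 0`.  So `pb c y = pb c A`. -/
theorem y_pair {b c : B} (hgr : ∀ A ∈ brk J S, pb (U b) (V b) A = 0 ↔ pb (U c) (V c) A = 0) {h : Matrix ι ι K}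
    (hh : h ∈ 𝓗) : (pb (U b) (V b) ((2 : K) • h - 1), pb (U c) (V c) ((2 : K) • h - 1)) ∈ pr2 J S (U b) (V b) (U c) (V c) := by
  have : Nonempty (Fin (n c)) := ⟨⟨0, g.pos c⟩⟩
  have hy := g.ypre hh
  have h1 : pb (U b) (V b) ((2 : K) • h - 1) ∈ (brk J S).map (pb (U b) (V b)) := by
    rw [g.pb_brk b]
    exact (g.y_mem b hh).1
  obtain ⟨A, hA, hAb⟩ := Submodule.mem_map.1 h1
  have hAp : A ∈ preL J S := brk_pre hA
  have hyA : (2 : K) • h - 1 - A ∈ preL J S := (preL J S).sub_mem hy hAp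
  have hcomm : ∀ X' ∈ LcN J S (U c) (V c), pb (U c) (V c) ((2 : K) • h - 1 - A) * X' =
      X' * pb (U c) (V c) ((2 : K) • h - 1 - A) := by
    intro X' hX'
    rw [← g.pb_brk c] at hX'
    obtain ⟨X, hX, rfl⟩ := Submodule.mem_map.1 hX'
    have hXp := brk_pre hX
    have h2 := brk_ad hyA hXp
    have h3 : pb (U b) (V b) (((2 : K) • h - 1 - A) * X - X * ((2 : K) • h - 1 - A)) = 0 := by
      rw [g.pb_bracket b hyA hXp]
      have h4 : pb (U b) (V b) ((2 : K) • h - 1 - A) = 0 := by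
        rw [map_sub, hAb, sub_self]
      rw [h4, zero_mul, mul_zero, sub_zero]
    have h5 := (hgr _ h2).1 h3
    rw [g.pb_bracket c hyA hXp] at h5
    exact sub_eq_zero.1 h5
  obtain ⟨t, ht⟩ := Pool.Agent.H25Y.scalar_of_comm (g.irr c) hcomm
  have htr : LinearMap.trace K (Fin (n c) → K) (pb (U c) (V c) ((2 : K) • h - 1 - A)) = 0 := by
    rw [map_sub, map_sub, ((g.y_mem c hh).1).2, (g.pb_mem c hA).2, sub_zero]
  have ht0 : t = 0 := by
    rw [ht, map_smul, LinearMap.trace_one, Module.finrank_fintype_fun_eq_card, Fintype.card_fin,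
      smul_eq_mul] at htr
    rcases mul_eq_zero.1 htr with h6 | h6
    · exact h6
    · exact absurd h6 (Nat.cast_ne_zero.2 (g.pos c).ne')
  rw [ht0, zero_smul, map_sub] at ht
  have h7 : pb (U c) (V c) ((2 : K) • h - 1) = pb (U c) (V c) A := sub_eq_zero.1 ht
  refine Submodule.mem_map.2 ⟨A, hA, ?_⟩
  exact Prod.ext hAb h7.symm

/-- PROOF. `h` from `g.hh`, `ε`, `ε'` from `y_diag` for `b`, `c`; `eps`: `y_pair`.  `lie`: `pb_bracket`, `brk_ad`.  `fst`, `snd`: `pb_brk`.  `left`, `right`: `hgr`.  `inj`, `ne`: `g.ec`.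
`cnj`: `pb_conj`, `conj_brk` with `g.hx` and the inverse `x'` from `Sit.cl g.hx`. -/
theorem gr {b c : B} (hgr : ∀ A ∈ brk J S, pb (U b) (V b) A = 0 ↔ pb (U c) (V c) A = 0) :
    ∃ ε ε', Gr (pr2 J S (U b) (V b) (U c) (V c)) (LcN J S (U b) (V b)) (LcN J S (U c) (V c)) (d b) (d c) ε ε' := by
  obtain ⟨h, hh, hx⟩ := g.hh
  obtain ⟨ε, hε1, hε2⟩ := g.y_diag b hh hx
  obtain ⟨ε', hε1', hε2'⟩ := g.y_diag c hh hx
  have hmem : ∀ {X : Module.End K (Fin (n b) → K)} {X' : Module.End K (Fin (n c) → K)},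
      (X, X') ∈ pr2 J S (U b) (V b) (U c) (V c) ↔
        ∃ A ∈ brk J S, pb (U b) (V b) A = X ∧ pb (U c) (V c) A = X' := by
    intro X X'
    constructor
    · intro hm
      obtain ⟨A, hA, hAe⟩ := Submodule.mem_map.1 hm
      exact ⟨A, hA, congrArg Prod.fst hAe, congrArg Prod.snd hAe⟩
    · rintro ⟨A, hA, rfl, rfl⟩
      exact Submodule.mem_map.2 ⟨A, hA, rfl⟩
  refine ⟨ε, ε', ?_⟩
  refine
    { lie := ?_, fst := ?_, snd := ?_, left := ?_, right := ?_, inj := (g.ec b).inj, inj' := (g.ec c).inj,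
      ne := (g.ec b).ne, ne' := (g.ec c).ne, cnj := ?_, eps := ?_, val := hε2, val' := hε2' }
  · rintro ⟨X, X'⟩ hp ⟨Y, Y'⟩ hq
    obtain ⟨A, hA, rfl, rfl⟩ := hmem.1 hp
    obtain ⟨A', hA', rfl, rfl⟩ := hmem.1 hq
    refine hmem.2 ⟨A * A' - A' * A, brk_ad (brk_pre hA) (brk_pre hA'), ?_, ?_⟩
    · exact g.pb_bracket b (brk_pre hA) (brk_pre hA')
    · exact g.pb_bracket c (brk_pre hA) (brk_pre hA')
  · intro X
    constructor
    · intro hX
      rw [← g.pb_brk b] at hX
      obtain ⟨A, hA, rfl⟩ := Submodule.mem_map.1 hX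
      exact ⟨_, hmem.2 ⟨A, hA, rfl, rfl⟩⟩
    · rintro ⟨X', hX⟩
      obtain ⟨A, hA, rfl, -⟩ := hmem.1 hX
      exact g.pb_mem b hA
  · intro X'
    constructor
    · intro hX
      rw [← g.pb_brk c] at hX
      obtain ⟨A, hA, rfl⟩ := Submodule.mem_map.1 hX
      exact ⟨_, hmem.2 ⟨A, hA, rfl, rfl⟩⟩
    · rintro ⟨X, hX⟩
      obtain ⟨A, hA, -, rfl⟩ := hmem.1 hX
      exact g.pb_mem c hA
  · intro X hX
    obtain ⟨A, hA, rfl, h2⟩ := hmem.1 hX
    exact (hgr A hA).2 h2
  · intro X' hX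
    obtain ⟨A, hA, h2, rfl⟩ := hmem.1 hX
    exact (hgr A hA).1 h2
  · intro X X' hX
    obtain ⟨A, hA, rfl, rfl⟩ := hmem.1 hX
    obtain ⟨⟨x', hx', hxx, -⟩, -, -⟩ := g.cl g.hx
    refine hmem.2 ⟨x * A * x', g.conj_brk g.hx hxx hA, g.pb_conj b hxx, g.pb_conj c hxx⟩
  · rw [← hε1, ← hε1']
    exact g.y_pair hgr hh

end Sit

end Pool.Agent.H34Z
end

-- from Lib.H76Y.W8
section

/-!
# linked idempotents
-/

set_option autoImplicit false
set_option linter.unusedSectionVars false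
namespace Pool.Agent.H76Y
open Pool.Agent.H76P Pool.Agent.H76V Pool.Agent.H76Q
open Module Matrix Polynomial Pool.Agent.H53Toric
open Pool.Agent.H76P
open Pool.Agent.H76T (IsIdeal Fam Lc)
open Pool.Agent.H76U (cmp preL IsSplitting)
open Pool.Agent.H76RM (spanK similD)

variable {ι : Type*} [Fintype ι] [DecidableEq ι] {ψ : Matrix ι ι ℚ}
    {D : Subalgebra ℚ (Matrix ι ι ℚ)} {M : Type*} [Field M] [NumberField M]
    {m : ℕ} {bar : Fin m → Fin m} {e : Fin m → Matrix ι ι M} {G : Type*} [Group G]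
    {ρ : ∀ (l : ℕ) [Fact l.Prime], G →* Matrix.GeneralLinearGroup ι ℚ_[l]}
    {p : ℕ} [Fact p.Prime] {σ : G} {q : ℚ} {F : Fin m → M[X]}
    {φ μ ν : Matrix ι ι (AlgebraicClosure ℚ_[p])} {v : AlgebraicClosure ℚ_[p] → ℚ}
    {Δ : Set (AlgebraicClosure ℚ_[p] ≃+* AlgebraicClosure ℚ_[p])}
    {Ω : Type*} [Field Ω] [CharZero Ω] [IsAlgClosed Ω] [Algebra.IsAlgebraic ℚ Ω] {j : M →+* Ω}
    {R : Finset Ω} {N : Set ℕ} (C : Core3 ψ D bar e ρ p σ q F φ μ ν v Δ j R N)

include C

theorem Core3.w8_lin (s : G) : ∀ d ∈ D, (ρ p s).1.map (algebraMap ℚ_[p] (AlgebraicClosure ℚ_[p])) *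
    d.map (algebraMap ℚ (AlgebraicClosure ℚ_[p])) =
      d.map (algebraMap ℚ (AlgebraicClosure ℚ_[p])) *
        (ρ p s).1.map (algebraMap ℚ_[p] (AlgebraicClosure ℚ_[p])) := by
  intro d hd
  have h1 := congrArg (fun m : Matrix ι ι ℚ_[p] =>
    m.map (algebraMap ℚ_[p] (AlgebraicClosure ℚ_[p]))) (C.lin p s d hd)
  have h2 : (d.map (algebraMap ℚ ℚ_[p])).map (algebraMap ℚ_[p] (AlgebraicClosure ℚ_[p])) =
      d.map (algebraMap ℚ (AlgebraicClosure ℚ_[p])) := by
    ext i j
    simp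
  simp only [Matrix.map_mul] at h1
  rw [h2] at h1
  exact h1

theorem Core3.w8_img (H : Subgroup G) {s : Matrix ι ι (AlgebraicClosure ℚ_[p])}
    (hs : s ∈ img (AlgebraicClosure ℚ_[p]) (ρ p) H) {d : Matrix ι ι (AlgebraicClosure ℚ_[p])}
    (hd : d ∈ spanK (AlgebraicClosure ℚ_[p]) D) : s * d = d * s := by
  obtain ⟨g, -, rfl⟩ := hs
  exact H76RM.comm_span (C.w8_lin g) d hd

theorem Core3.w8_phi {d : Matrix ι ι (AlgebraicClosure ℚ_[p])}
    (hd : d ∈ spanK (AlgebraicClosure ℚ_[p]) D) : φ * d = d * φ :=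
  H76RM.zar_commute (fun _ hs => C.w8_img ⊤ hs hd) (C.frobp.idc.2 ⊤ inferInstance)

theorem Core3.w8_mu {d : Matrix ι ι (AlgebraicClosure ℚ_[p])}
    (hd : d ∈ spanK (AlgebraicClosure ℚ_[p]) D) : μ * d = d * μ := by
  have h1 := C.crys.mu.1.2 2 two_ne_zero
  have h2 := H76RM.zar_commute (fun _ hs => C.w8_img ⊤ hs hd) h1
  rw [add_mul, mul_add, one_mul, mul_one, smul_mul_assoc, mul_smul_comm] at h2
  have h3 := add_left_cancel h2
  have h4 : ((2 : AlgebraicClosure ℚ_[p]) - 1) = 1 := by norm_num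
  rwa [h4, one_smul, one_smul] at h3

/-- The operator `E' d` is injective on the range of `e`. -/
theorem Core3.w8_key (b : Fin m) {n : ℕ} {a : Fin n → Ω} (ha : Function.Injective a)
    (hroot : ∀ y : Ω, (F b).eval₂ j y = 0 ↔ ∃ k, y = a k) (i : Ω →+* AlgebraicClosure ℚ_[p])
    {T : Matrix ι ι (AlgebraicClosure ℚ_[p])}
    (hT : ∀ A : Matrix ι ι (AlgebraicClosure ℚ_[p]),
      (∀ d ∈ spanK (AlgebraicClosure ℚ_[p]) D, A * d = d * A) → A * T = T * A)
    (hne : T * (e b).map (i.comp j) ≠ 0) {z : ι → AlgebraicClosure ℚ_[p]}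
    (hz0 : z ≠ 0) (hz : (e b).map (i.comp j) *ᵥ z = z) : T *ᵥ z ≠ 0 := by
  obtain ⟨H₀, U, V, hfin, h⟩ := C.locp b ha hroot i
  have hE : (e b).map (i.comp j) ∈ spanK (AlgebraicClosure ℚ_[p]) D :=
    H76U.spanK_map (i.comp j) (C.hspl.mem b)
  have h1S : (1 : Matrix ι ι (AlgebraicClosure ℚ_[p])) ∈
      img (AlgebraicClosure ℚ_[p]) (ρ p) H₀ := by
    refine ⟨1, H₀.one_mem, ?_⟩
    rw [map_one]
    simp
  set W : Submodule (AlgebraicClosure ℚ_[p]) (Fin n → AlgebraicClosure ℚ_[p]) :=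
    LinearMap.ker (Matrix.mulVecLin (T * U)) with hW
  have hmem : ∀ w, w ∈ W ↔ (T * U) *ᵥ w = 0 := fun w => by
    rw [hW, LinearMap.mem_ker, Matrix.mulVecLin_apply]
  have hirr := h.ts.cmp.irr W (by
    intro X hX w hw
    rw [hmem] at hw ⊢
    obtain ⟨_, ⟨A, hA, rfl⟩, hX2⟩ := hX.1
    rw [← hX2]
    have hcomm : ∀ d ∈ spanK (AlgebraicClosure ℚ_[p]) D, A * d = d * A := fun d hd =>
      H76U.preL_commute h1S (fun s hs => C.w8_img H₀ hs hd) hA
    show (T * U) *ᵥ ((cmp U V A) *ᵥ w) = 0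
    rw [Matrix.mulVec_mulVec, Matrix.mul_assoc, H76U.P_cmp h.UV h.VU (hcomm _ hE),
      ← Matrix.mul_assoc, ← hT A hcomm, Matrix.mul_assoc, ← Matrix.mulVec_mulVec, hw,
      Matrix.mulVec_zero])
  rcases hirr with h1 | h1
  · intro h2
    have h3 : V *ᵥ z ∈ W := by
      rw [hmem, Matrix.mulVec_mulVec, Matrix.mul_assoc, ← h.UV, ← Matrix.mulVec_mulVec, hz, h2]
    rw [h1, Submodule.mem_bot] at h3
    apply hz0
    rw [← hz, h.UV, ← Matrix.mulVec_mulVec, h3, Matrix.mulVec_zero]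
  · exfalso
    apply hne
    have h2 : T * U = 0 := by
      ext x y
      have h3 : Pi.single y (1 : AlgebraicClosure ℚ_[p]) ∈ W := by rw [h1]; exact Submodule.mem_top
      rw [hmem, Matrix.mulVec_single_one] at h3
      exact congrFun h3 x
    rw [h.UV, ← Matrix.mul_assoc, h2, Matrix.zero_mul]

/-- Transport of eigenvectors. -/
theorem Core3.w8_vec (b : Fin m) {n : ℕ} {a : Fin n → Ω} (ha : Function.Injective a)
    (hroot : ∀ y : Ω, (F b).eval₂ j y = 0 ↔ ∃ k, y = a k) {s : Ω ≃+* Ω}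
    (hlink : Linked D ((e b).map j) ((e b).map (s.toRingHom.comp j)))
    (i : Ω →+* AlgebraicClosure ℚ_[p]) : ∃ T : Matrix ι ι (AlgebraicClosure ℚ_[p]),
      φ * T = T * φ ∧ μ * T = T * μ ∧
      (∀ z, (e b).map ((i.comp s.symm.toRingHom).comp j) *ᵥ (T *ᵥ z) = T *ᵥ z) ∧
      ∀ z, z ≠ 0 → (e b).map (i.comp j) *ᵥ z = z → T *ᵥ z ≠ 0 := by
  obtain ⟨d, hd, hne⟩ := hlink
  set i' : Ω →+* AlgebraicClosure ℚ_[p] := i.comp s.symm.toRingHom with hi'
  set E' := (e b).map (i'.comp j) with hE'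
  have hE : E' ∈ spanK (AlgebraicClosure ℚ_[p]) D := H76U.spanK_map (i'.comp j) (C.hspl.mem b)
  have hd' : d.map i' ∈ spanK (AlgebraicClosure ℚ_[p]) D := H76U.spanK_map i' hd
  have hEE : E' * E' = E' := by
    rw [hE', ← H76U.map_mul', C.hspl.idem]
  have hT : ∀ A : Matrix ι ι (AlgebraicClosure ℚ_[p]),
      (∀ d ∈ spanK (AlgebraicClosure ℚ_[p]) D, A * d = d * A) →
        A * (E' * d.map i') = E' * d.map i' * A := by
    intro A hA
    rw [← Matrix.mul_assoc, hA _ hE, Matrix.mul_assoc, hA _ hd', Matrix.mul_assoc]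
  refine ⟨E' * d.map i', hT _ fun d hd => C.w8_phi hd, hT _ fun d hd => C.w8_mu hd, ?_, ?_⟩
  · intro z
    rw [Matrix.mulVec_mulVec, ← Matrix.mul_assoc, hEE]
  · intro z hz0 hz
    refine C.w8_key b ha hroot i hT ?_ hz0 hz
    have h1 : E' = ((e b).map j).map i' := by
      ext x y
      rfl
    have h2 : (e b).map (i.comp j) = ((e b).map (s.toRingHom.comp j)).map i' := by
      ext x y
      simp [hi']
    rw [h1, h2, ← H76U.map_mul', ← H76U.map_mul']
    intro h3
    apply hne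
    ext x y
    have h4 := congrFun (congrFun h3 x) y
    rw [Matrix.map_apply, Matrix.zero_apply] at h4
    rw [Matrix.zero_apply]
    exact (map_eq_zero i').1 h4

/-- PROOF. `E = (e b).map (i.comp j)`, `E' = (e b).map ((i.comp s⁻¹).comp j)`.  Apply `i ∘ s⁻¹` to `hlink`: `E' * d * E ≠ 0` for some `d` in the span of `D` over the closure.  The map `z ↦ E' (d z)` from the range of `E`
to the range of `E'` is not zero and commutes with `φ`, `μ` and `zlie S` (they commute with `D`).  Its kernel is stable under `zlie S`, so zero (`Core3.locp` for `i`: `h.ts.cmp.irr`).  So eigenvectors go to eigenvectors.  `hperm`: a root `y` of `F b` gives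
(`C.frobp.eig`) an eigenvalue `i y` of `φ` on the range of `E`, so on the range of `E'`, so `eval₂ (i s⁻¹ j) (i y) = 0`, i.e. `s y` is a root; `s` permutes the finite set of roots.  `IsHT` for `i s⁻¹`: the eigenvalue
`i s⁻¹ (a (π k)) = i (a k)`. -/
theorem Core3.linked (b : Fin m)
    {n : ℕ} {a : Fin n → Ω} (ha : Function.Injective a)
    (hroot : ∀ y : Ω, (F b).eval₂ j y = 0 ↔ ∃ k, y = a k)
    {s : Ω ≃+* Ω} (hlink : Linked D ((e b).map j) ((e b).map (s.toRingHom.comp j))) :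
    ∃ π : Equiv.Perm (Fin n), (∀ k, s (a k) = a (π k)) ∧
      ∀ (i : Ω →+* AlgebraicClosure ℚ_[p]) (ε : Fin n → ℚ),
        Pool.Agent.H76Q.IsHT μ φ ((e b).map (i.comp j)) (fun k => i (a k)) ε →
        Pool.Agent.H76Q.IsHT μ φ ((e b).map ((i.comp s.symm.toRingHom).comp j))
          (fun k => i.comp s.symm.toRingHom (a k)) (fun k => ε (π.symm k)) := by
  have hmap : ∀ k, ∃ k', s (a k) = a k' := by
    intro k
    let i : Ω →+* AlgebraicClosure ℚ_[p] :=
      (IsAlgClosed.lift (R := ℚ) (S := Ω) (M := AlgebraicClosure ℚ_[p])).toRingHom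
    obtain ⟨T, hTφ, -, hTE, hT0⟩ := C.w8_vec b ha hroot hlink i
    have h1 : (F b).eval₂ (i.comp j) (i (a k)) = 0 := by
      rw [← Polynomial.hom_eval₂, (hroot _).2 ⟨k, rfl⟩, map_zero]
    obtain ⟨z, hz0, hz, hφz⟩ := (C.frobp.eig (i.comp j) b (i (a k))).2 h1
    have h2 : (F b).eval₂ ((i.comp s.symm.toRingHom).comp j) (i (a k)) = 0 := by
      apply (C.frobp.eig ((i.comp s.symm.toRingHom).comp j) b (i (a k))).1
      refine ⟨T *ᵥ z, hT0 z hz0 hz, hTE z, ?_⟩
      rw [Matrix.mulVec_mulVec, hTφ, ← Matrix.mulVec_mulVec, hφz, Matrix.mulVec_smul]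
    have h3 : i (a k) = (i.comp s.symm.toRingHom) (s (a k)) := by simp
    rw [h3, ← Polynomial.hom_eval₂, map_eq_zero] at h2
    exact (hroot _).1 h2
  choose g hg using hmap
  have hginj : Function.Injective g := by
    intro k k' hkk
    apply ha
    apply s.injective
    rw [hg, hg, hkk]
  let π : Equiv.Perm (Fin n) := Equiv.ofBijective g (Finite.injective_iff_bijective.1 hginj)
  refine ⟨π, hg, ?_⟩
  intro i ε hε k
  obtain ⟨T, hTφ, hTμ, hTE, hT0⟩ := C.w8_vec b ha hroot hlink i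
  set k₀ := π.symm k with hk₀
  have hk : π k₀ = k := by rw [hk₀, Equiv.apply_symm_apply]
  have hval : (i.comp s.symm.toRingHom) (a k) = i (a k₀) := by
    have h1 : s (a k₀) = a k := by
      rw [hg k₀, ← hk]
      rfl
    rw [← h1]
    simp
  rcases hε k₀ with ⟨h1, z, hz0, hz, hφz, hμz⟩ | ⟨h1, z, hz0, hz, hφz, hμz⟩
  · left
    refine ⟨h1, T *ᵥ z, hT0 z hz0 hz, hTE z, ?_, ?_⟩
    · show φ *ᵥ (T *ᵥ z) = ((i.comp s.symm.toRingHom) (a k)) • (T *ᵥ z)
      rw [hval, Matrix.mulVec_mulVec, hTφ, ← Matrix.mulVec_mulVec, hφz, Matrix.mulVec_smul]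
    · rw [Matrix.mulVec_mulVec, hTμ, ← Matrix.mulVec_mulVec, hμz]
  · right
    refine ⟨h1, T *ᵥ z, hT0 z hz0 hz, hTE z, ?_, ?_⟩
    · show φ *ᵥ (T *ᵥ z) = ((i.comp s.symm.toRingHom) (a k)) • (T *ᵥ z)
      rw [hval, Matrix.mulVec_mulVec, hTφ, ← Matrix.mulVec_mulVec, hφz, Matrix.mulVec_smul]
    · rw [Matrix.mulVec_mulVec, hTμ, ← Matrix.mulVec_mulVec, hμz, Matrix.mulVec_zero]

end Pool.Agent.H76Y
end

-- from Lib.H76Y.W8d
section

/-!
# automorphisms which exchange a component and its conjugate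
-/

set_option autoImplicit false
set_option linter.unusedSectionVars false
namespace Pool.Agent.H76Y
open Pool.Agent.H76P Pool.Agent.H76V Pool.Agent.H76Q
open Module Matrix Polynomial Pool.Agent.H53Toric
open Pool.Agent.H76P
open Pool.Agent.H76T (IsIdeal Fam Lc)
open Pool.Agent.H76U (cmp preL IsSplitting)
open Pool.Agent.H76RM (spanK similD)

variable {ι : Type*} [Fintype ι] [DecidableEq ι] {ψ : Matrix ι ι ℚ}
    {D : Subalgebra ℚ (Matrix ι ι ℚ)} {M : Type*} [Field M] [NumberField M]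
    {m : ℕ} {bar : Fin m → Fin m} {e : Fin m → Matrix ι ι M} {G : Type*} [Group G]
    {ρ : ∀ (l : ℕ) [Fact l.Prime], G →* Matrix.GeneralLinearGroup ι ℚ_[l]}
    {p : ℕ} [Fact p.Prime] {σ : G} {q : ℚ} {F : Fin m → M[X]}
    {φ μ ν : Matrix ι ι (AlgebraicClosure ℚ_[p])} {v : AlgebraicClosure ℚ_[p] → ℚ}
    {Δ : Set (AlgebraicClosure ℚ_[p] ≃+* AlgebraicClosure ℚ_[p])}
    {Ω : Type*} [Field Ω] [CharZero Ω] [IsAlgClosed Ω] [Algebra.IsAlgebraic ℚ Ω] {j : M →+* Ω}
    {R : Finset Ω} {N : Set ℕ} (C : Core3 ψ D bar e ρ p σ q F φ μ ν v Δ j R N)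

include C

theorem Core3.hs_mu (b : Fin m) : μᵀ * ψ.map (algebraMap ℚ (AlgebraicClosure ℚ_[p])) +
    ψ.map (algebraMap ℚ (AlgebraicClosure ℚ_[p])) * μ =
      ψ.map (algebraMap ℚ (AlgebraicClosure ℚ_[p])) := by
  have hι : Nonempty ι := by
    by_contra hemp
    rw [not_nonempty_iff] at hemp
    apply C.hspl.ne_zero b
    ext i'
    exact (hemp.false i').elim
  obtain ⟨H₀, -, hfin, hprime⟩ := H76RM.exists_prime (K := AlgebraicClosure ℚ_[p]) (ρ p) ⊤ inferInstance
  obtain ⟨φ', g⟩ := mk_phT (K := AlgebraicClosure ℚ_[p]) C.hψ C.hψ0 D (ρ p) (C.lin p) (C.sim p)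
    (C.semis p) (C.commt p) (C.gen p) C.frobp hfin hprime
  exact g.sh.hs μ C.crys.mu

omit C in
theorem dot_mul {n : Type*} [Fintype n] {K : Type*} [Field K] (A B C : Matrix n n K)
    (x y : n → K) : (A *ᵥ x) ⬝ᵥ (B *ᵥ (C *ᵥ y)) = x ⬝ᵥ ((Aᵀ * B * C) *ᵥ y) := by
  rw [Matrix.mulVec_mulVec, ← Matrix.vecMul_transpose, ← Matrix.dotProduct_mulVec,
    Matrix.mulVec_mulVec, Matrix.mul_assoc]

/-- An eigenvector of `φ` in the conjugate component pairs with an eigenvector in the component. -/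
theorem Core3.dual_vec (b : Fin m) {n : ℕ} {a : Fin n → Ω} (ha : Function.Injective a)
    (hroot : ∀ y : Ω, (F b).eval₂ j y = 0 ↔ ∃ k, y = a k) (i : Ω →+* AlgebraicClosure ℚ_[p])
    {z' : ι → AlgebraicClosure ℚ_[p]} (hz0 : z' ≠ 0)
    (hz : (e (bar b)).map (i.comp j) *ᵥ z' = z') {c : AlgebraicClosure ℚ_[p]}
    (hφ : φ *ᵥ z' = c • z') : ∃ k, c * i (a k) = algebraMap ℚ (AlgebraicClosure ℚ_[p]) q ∧
      ∃ w : ι → AlgebraicClosure ℚ_[p], w ≠ 0 ∧ (e b).map (i.comp j) *ᵥ w = w ∧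
        φ *ᵥ w = i (a k) • w ∧ (μ *ᵥ z' = z' → μ *ᵥ w = 0) ∧ (μ *ᵥ z' = 0 → μ *ᵥ w = w) := by
  classical
  obtain ⟨H₀, U, V, hfin, h⟩ := C.locp b ha hroot i
  obtain ⟨-, hdet⟩ := gram_basic C.hψ C.hψ0 (AlgebraicClosure ℚ_[p])
  have hs := C.hs_mu b
  have hadj := (C.hspl.map (i.comp j)).adj b
  have hm := C.multp
  obtain ⟨J, hJ⟩ : ∃ J, J = ψ.map (algebraMap ℚ (AlgebraicClosure ℚ_[p])) := ⟨_, rfl⟩
  rw [← hJ] at hdet hs hadj hm
  set E := (e b).map (i.comp j) with hE
  -- the functional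
  have hJz : J *ᵥ z' ≠ 0 := by
    intro h0
    apply hz0
    have h1 : J⁻¹ *ᵥ (J *ᵥ z') = z' := by
      rw [Matrix.mulVec_mulVec, Matrix.nonsing_inv_mul _ hdet, Matrix.one_mulVec]
    rw [← h1, h0, Matrix.mulVec_zero]
  have hfE : ∀ x : ι → AlgebraicClosure ℚ_[p], (E *ᵥ x) ⬝ᵥ (J *ᵥ z') = x ⬝ᵥ (J *ᵥ z') := by
    intro x
    have h1 := dot_mul E J 1 x z'
    rw [Matrix.one_mulVec, Matrix.mul_one, hadj, ← Matrix.mulVec_mulVec, hz] at h1
    exact h1
  have hfφ : ∀ x : ι → AlgebraicClosure ℚ_[p], c * ((φ *ᵥ x) ⬝ᵥ (J *ᵥ z')) =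
      algebraMap ℚ (AlgebraicClosure ℚ_[p]) q * (x ⬝ᵥ (J *ᵥ z')) := by
    intro x
    have h1 := dot_mul φ J φ x z'
    rw [hφ, Matrix.mulVec_smul, dotProduct_smul, hm, Matrix.smul_mulVec, dotProduct_smul] at h1
    exact h1
  -- an eigenvector on which it does not vanish
  have hex : ∃ k, (U *ᵥ (Pi.single k 1)) ⬝ᵥ (J *ᵥ z') ≠ 0 := by
    by_contra hcon
    push Not at hcon
    apply hJz
    have h1 : ∀ x : ι → AlgebraicClosure ℚ_[p], x ⬝ᵥ (J *ᵥ z') = 0 := by
      intro x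
      rw [← hfE, h.UV, ← Matrix.mulVec_mulVec]
      set y := V *ᵥ x
      have h2 : y = ∑ k, y k • (Pi.single k (1 : AlgebraicClosure ℚ_[p])) := by
        ext l
        rw [Finset.sum_apply]
        simp [Pi.single_apply]
      rw [h2, Matrix.mulVec_sum, sum_dotProduct]
      refine Finset.sum_eq_zero fun k _ => ?_
      rw [Matrix.mulVec_smul, smul_dotProduct, hcon k, smul_zero]
    ext x
    have h2 := h1 (Pi.single x 1)
    rw [single_one_dotProduct] at h2
    exact h2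
  obtain ⟨k, hk⟩ := hex
  set u : ι → AlgebraicClosure ℚ_[p] := U *ᵥ (Pi.single k 1) with hu
  have hφu : φ *ᵥ u = i (a k) • u := by
    have h1 : Matrix.diagonal (fun k => i (a k)) *ᵥ Pi.single k (1 : AlgebraicClosure ℚ_[p]) =
        i (a k) • Pi.single k (1 : AlgebraicClosure ℚ_[p]) := by
      ext l
      rw [Matrix.mulVec_diagonal]
      by_cases hkl : l = k
      · subst hkl
        simp
      · simp [Pi.single_apply, hkl]
    rw [hu, Matrix.mulVec_mulVec, h.ec.eig, ← Matrix.mulVec_mulVec, h1, Matrix.mulVec_smul]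
  have hEu : E *ᵥ u = u := by
    rw [hu, Matrix.mulVec_mulVec]
    have h1 : E * U = U := by rw [h.UV, Matrix.mul_assoc, h.VU, Matrix.mul_one]
    rw [h1]
  have hck : c * i (a k) = algebraMap ℚ (AlgebraicClosure ℚ_[p]) q := by
    have h1 := hfφ u
    rw [hφu, smul_dotProduct, smul_eq_mul, ← mul_assoc] at h1
    exact mul_right_cancel₀ hk h1
  refine ⟨k, hck, ?_⟩
  obtain ⟨ε, hε⟩ := exists_HT h C.crys.mu C.crys.muphi
  have hlin : ∀ w : ι → AlgebraicClosure ℚ_[p], E *ᵥ w = w → φ *ᵥ w = i (a k) • w → w ≠ 0 →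
      w ⬝ᵥ (J *ᵥ z') ≠ 0 := by
    intro w hw hφw hw0
    have hu0 : u ≠ 0 := by
      intro h0
      rw [h0, zero_dotProduct] at hk
      exact hk rfl
    obtain ⟨t, ht⟩ := C.frobp.simple (i.comp j) b (i (a k)) u w hEu hw hφu hφw hu0
    rw [ht, smul_dotProduct, smul_eq_mul]
    refine mul_ne_zero ?_ hk
    rintro rfl
    rw [zero_smul] at ht
    exact hw0 ht
  have hss : ∀ w : ι → AlgebraicClosure ℚ_[p], (μ *ᵥ w) ⬝ᵥ (J *ᵥ z') + w ⬝ᵥ (J *ᵥ (μ *ᵥ z')) =
      w ⬝ᵥ (J *ᵥ z') := by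
    intro w
    have h1 := dot_mul μ J 1 w z'
    rw [Matrix.one_mulVec, Matrix.mul_one] at h1
    rw [h1, Matrix.mulVec_mulVec, ← dotProduct_add, ← Matrix.add_mulVec, hs]
  rcases hε k with ⟨-, w, hw0, hEw, hφw, hμw⟩ | ⟨-, w, hw0, hEw, hφw, hμw⟩
  · refine ⟨w, hw0, hEw, hφw, fun h1 => ?_, fun _ => hμw⟩
    exfalso
    have h2 := hss w
    rw [hμw, h1, add_eq_left] at h2
    exact hlin w hEw hφw hw0 h2
  · refine ⟨w, hw0, hEw, hφw, fun _ => hμw, fun h1 => ?_⟩
    exfalso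
    have h2 := hss w
    rw [hμw, h1, Matrix.mulVec_zero, dotProduct_zero, zero_dotProduct, add_zero] at h2
    exact hlin w hEw hφw hw0 h2.symm

theorem Core3.w8d_vec (b : Fin m) {n : ℕ} {a : Fin n → Ω} (ha : Function.Injective a)
    (hroot : ∀ y : Ω, (F b).eval₂ j y = 0 ↔ ∃ k, y = a k) {s : Ω ≃+* Ω}
    (hlink : Linked D ((e (bar b)).map j) ((e b).map (s.toRingHom.comp j)))
    (i : Ω →+* AlgebraicClosure ℚ_[p]) : ∃ T : Matrix ι ι (AlgebraicClosure ℚ_[p]),
      φ * T = T * φ ∧ μ * T = T * μ ∧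
      (∀ z, (e (bar b)).map ((i.comp s.symm.toRingHom).comp j) *ᵥ (T *ᵥ z) = T *ᵥ z) ∧
      ∀ z, z ≠ 0 → (e b).map (i.comp j) *ᵥ z = z → T *ᵥ z ≠ 0 := by
  obtain ⟨d, hd, hne⟩ := hlink
  set i' : Ω →+* AlgebraicClosure ℚ_[p] := i.comp s.symm.toRingHom with hi'
  set E' := (e (bar b)).map (i'.comp j) with hE'
  have hE : E' ∈ spanK (AlgebraicClosure ℚ_[p]) D := H76U.spanK_map (i'.comp j) (C.hspl.mem (bar b))
  have hd' : d.map i' ∈ spanK (AlgebraicClosure ℚ_[p]) D := H76U.spanK_map i' hd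
  have hEE : E' * E' = E' := by
    rw [hE', ← H76U.map_mul', C.hspl.idem]
  have hT : ∀ A : Matrix ι ι (AlgebraicClosure ℚ_[p]),
      (∀ d ∈ spanK (AlgebraicClosure ℚ_[p]) D, A * d = d * A) →
        A * (E' * d.map i') = E' * d.map i' * A := by
    intro A hA
    rw [← Matrix.mul_assoc, hA _ hE, Matrix.mul_assoc, hA _ hd', Matrix.mul_assoc]
  refine ⟨E' * d.map i', hT _ fun d hd => C.w8_phi hd, hT _ fun d hd => C.w8_mu hd, ?_, ?_⟩
  · intro z
    rw [Matrix.mulVec_mulVec, ← Matrix.mul_assoc, hEE]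
  · intro z hz0 hz
    refine C.w8_key b ha hroot i hT ?_ hz0 hz
    have h1 : E' = ((e (bar b)).map j).map i' := by
      ext x y
      rfl
    have h2 : (e b).map (i.comp j) = ((e b).map (s.toRingHom.comp j)).map i' := by
      ext x y
      simp [hi']
    rw [h1, h2, ← H76U.map_mul', ← H76U.map_mul']
    intro h3
    apply hne
    ext x y
    have h4 := congrFun (congrFun h3 x) y
    rw [Matrix.map_apply, Matrix.zero_apply] at h4
    rw [Matrix.zero_apply]
    exact (map_eq_zero i').1 h4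

/-- An automorphism `s` such that the image of the component under `s` is linked with the conjugate of
the component: `s` maps the eigenvalues to the numbers `q / a`, and the Hodge-Tate type to the opposite
type. -/
theorem Core3.dual_linked (b : Fin m)
    {n : ℕ} {a : Fin n → Ω} (ha : Function.Injective a)
    (hroot : ∀ y : Ω, (F b).eval₂ j y = 0 ↔ ∃ k, y = a k)
    {s : Ω ≃+* Ω} (hlink : Linked D ((e (bar b)).map j) ((e b).map (s.toRingHom.comp j))) :
    ∃ π : Equiv.Perm (Fin n), (∀ k, s (a k) * a (π k) = algebraMap ℚ Ω q) ∧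
      ∀ (i : Ω →+* AlgebraicClosure ℚ_[p]) (ε : Fin n → ℚ),
        IsHT μ φ ((e b).map (i.comp j)) (fun k => i (a k)) ε →
        IsHT μ φ ((e b).map ((i.comp s.symm.toRingHom).comp j))
          (fun k => i.comp s.symm.toRingHom (a k)) (fun k => - ε (π.symm k)) := by
  have hq : ∀ i' : Ω →+* AlgebraicClosure ℚ_[p], algebraMap ℚ (AlgebraicClosure ℚ_[p]) q =
      i' (algebraMap ℚ Ω q) := fun i' => by
    simp
  have hmap : ∀ k, ∃ k', s (a k) * a k' = algebraMap ℚ Ω q := by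
    intro k
    let i : Ω →+* AlgebraicClosure ℚ_[p] :=
      (IsAlgClosed.lift (R := ℚ) (S := Ω) (M := AlgebraicClosure ℚ_[p])).toRingHom
    obtain ⟨T, hTφ, -, hTE, hT0⟩ := C.w8d_vec b ha hroot hlink i
    have h1 : (F b).eval₂ (i.comp j) (i (a k)) = 0 := by
      rw [← Polynomial.hom_eval₂, (hroot _).2 ⟨k, rfl⟩, map_zero]
    obtain ⟨z, hz0, hz, hφz⟩ := (C.frobp.eig (i.comp j) b (i (a k))).2 h1
    obtain ⟨k', hk', -⟩ := C.dual_vec b ha hroot (i.comp s.symm.toRingHom) (hT0 z hz0 hz) (hTE z)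
      (c := i (a k)) (by
        rw [Matrix.mulVec_mulVec, hTφ, ← Matrix.mulVec_mulVec, hφz, Matrix.mulVec_smul])
    refine ⟨k', ?_⟩
    have h3 : i (a k) = (i.comp s.symm.toRingHom) (s (a k)) := by simp
    rw [h3, hq (i.comp s.symm.toRingHom), ← map_mul] at hk'
    exact (i.comp s.symm.toRingHom).injective hk'
  choose g hg using hmap
  have hq0 : algebraMap ℚ Ω q ≠ 0 := by
    intro h0
    have h1 : q = 0 := by
      rw [← map_zero (algebraMap ℚ Ω)] at h0
      exact (algebraMap ℚ Ω).injective h0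
    have h2 := C.vq
    exact absurd (C.multp) (by
      rw [h1, map_zero, zero_smul]
      intro h3
      have h4 := congrArg Matrix.det h3
      obtain ⟨-, hdet⟩ := gram_basic C.hψ C.hψ0 (AlgebraicClosure ℚ_[p])
      have hι : Nonempty ι := by
        by_contra hemp
        rw [not_nonempty_iff] at hemp
        apply C.hspl.ne_zero b
        ext i'
        exact (hemp.false i').elim
      rw [Matrix.det_mul, Matrix.det_mul, Matrix.det_transpose, Matrix.det_zero] at h4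
      exact mul_ne_zero (mul_ne_zero C.frobp.idc.1 hdet.ne_zero) C.frobp.idc.1 h4)
  have hginj : Function.Injective g := by
    intro k k' hkk
    apply ha
    apply s.injective
    have h1 := hg k
    have h2 := hg k'
    rw [← hkk, ← h1] at h2
    have h3 : a (g k) ≠ 0 := by
      intro h0
      rw [h0, mul_zero] at h1
      exact hq0 h1.symm
    exact (mul_right_cancel₀ h3 h2).symm
  let π : Equiv.Perm (Fin n) := Equiv.ofBijective g (Finite.injective_iff_bijective.1 hginj)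
  refine ⟨π, hg, ?_⟩
  intro i ε hε k
  obtain ⟨T, hTφ, hTμ, hTE, hT0⟩ := C.w8d_vec b ha hroot hlink i
  set k₀ := π.symm k with hk₀
  have hk : π k₀ = k := by rw [hk₀, Equiv.apply_symm_apply]
  have hak : s (a k₀) * a k = algebraMap ℚ Ω q := by
    have h1 := hg k₀
    have h2 : g k₀ = k := hk
    rwa [h2] at h1
  have hT2 : ∀ z, z ≠ 0 → (e b).map (i.comp j) *ᵥ z = z → φ *ᵥ z = i (a k₀) • z →
      ∃ w : ι → AlgebraicClosure ℚ_[p], w ≠ 0 ∧
        (e b).map ((i.comp s.symm.toRingHom).comp j) *ᵥ w = w ∧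
        φ *ᵥ w = i.comp s.symm.toRingHom (a k) • w ∧
        (μ *ᵥ z = z → μ *ᵥ w = 0) ∧ (μ *ᵥ z = 0 → μ *ᵥ w = w) := by
    intro z hz0 hz hφz
    obtain ⟨k', hk', w, hw0, hEw, hφw, hμ1, hμ2⟩ := C.dual_vec b ha hroot (i.comp s.symm.toRingHom)
      (hT0 z hz0 hz) (hTE z) (c := i (a k₀)) (by
        rw [Matrix.mulVec_mulVec, hTφ, ← Matrix.mulVec_mulVec, hφz, Matrix.mulVec_smul])
    have hkk : k' = k := by
      have h3 : i (a k₀) = (i.comp s.symm.toRingHom) (s (a k₀)) := by simp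
      rw [h3, hq (i.comp s.symm.toRingHom), ← map_mul] at hk'
      have h4 := (i.comp s.symm.toRingHom).injective hk'
      rw [← hak] at h4
      have h5 : s (a k₀) ≠ 0 := by
        intro h0
        rw [h0, zero_mul] at hak
        exact hq0 hak.symm
      exact ha (mul_left_cancel₀ h5 h4)
    subst hkk
    refine ⟨w, hw0, hEw, hφw, fun h1 => hμ1 ?_, fun h1 => hμ2 ?_⟩
    · rw [Matrix.mulVec_mulVec, hTμ, ← Matrix.mulVec_mulVec, h1]
    · rw [Matrix.mulVec_mulVec, hTμ, ← Matrix.mulVec_mulVec, h1, Matrix.mulVec_zero]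
  rcases hε k₀ with ⟨h1, z, hz0, hz, hφz, hμz⟩ | ⟨h1, z, hz0, hz, hφz, hμz⟩
  · obtain ⟨w, hw0, hEw, hφw, hμ1, -⟩ := hT2 z hz0 hz hφz
    right
    refine ⟨?_, w, hw0, hEw, hφw, hμ1 hμz⟩
    show -ε k₀ = -1
    rw [h1]
  · obtain ⟨w, hw0, hEw, hφw, -, hμ2⟩ := hT2 z hz0 hz hφz
    left
    refine ⟨?_, w, hw0, hEw, hφw, hμ2 hμz⟩
    show -ε k₀ = 1
    rw [h1, neg_neg]

end Pool.Agent.H76Y
end
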