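import Pool.Agent.Lib.H1M.RC.M048
import Pool.Agent.Lib.H1M.RC.M049
import Pool.Agent.Lib.H1M.RC.M051
import Pool.Agent.Lib.H1M.RC.M053
import Pool.Agent.Lib.H1M.RC.M056
import Pool.Agent.Lib.H1M.RC.M057
import Pool.Agent.Lib.H1M.RC.M059
import Pool.Agent.Lib.H1M.RC.M060
import Pool.Agent.Lib.H1M.RC.M061
import Pool.Agent.Lib.H1M.RC.M064

/-! Merged copies (to shorten the build) of Lib.H76Z.W2, Lib.H76Z.A2d, Lib.H76Z.W7, Lib.H76Z.E6, Lib.H76Z.W3, Lib.H76Z.W4, Lib.H76Z.F8, Lib.H76Z.W5, Lib.H76Z.W6, Lib.H76Z.W8, Lib.H76Z.W8d. -/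

-- from Lib.H76Z.W2
section

/-!
# the local data
-/

set_option autoImplicit false

/-!
# the local data
-/
set_option linter.unusedSectionVars false
namespace Pool.Agent.H76Z
open Pool.Agent.H76Y
open Pool.Agent.H76P Pool.Agent.H76V Pool.Agent.H76Q
open Module Matrix Polynomial Pool.Agent.H53Toric
open Pool.Agent.H76P
open Pool.Agent.H76T (IsIdeal Fam Lc)
open Pool.Agent.H76U (cmp preL IsSplitting)
open Pool.Agent.H76RM (spanK similD)

variable {ι : Type*} [Fintype ι] [DecidableEq ι] {ψ : Matrix ι ι ℚ}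
    {D : Subalgebra ℚ (Matrix ι ι ℚ)} {M : Type*} [Field M] [NumberField M]
    {m : ℕ} {cl : Fin m → Cl} {bar : Fin m → Fin m} {e : Fin m → Matrix ι ι M} {u₀ : Matrix ι ι M} {G : Type*} [Group G]
    {ρ : ∀ (l : ℕ) [Fact l.Prime], G →* Matrix.GeneralLinearGroup ι ℚ_[l]}
    {p : ℕ} [Fact p.Prime] {σ : G} {q : ℚ} {F : Fin m → M[X]}
    {φ μ ν : Matrix ι ι (AlgebraicClosure ℚ_[p])} {v : AlgebraicClosure ℚ_[p] → ℚ}
    {Δ : Set (AlgebraicClosure ℚ_[p] ≃+* AlgebraicClosure ℚ_[p])}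
    {Ω : Type*} [Field Ω] [CharZero Ω] [IsAlgClosed Ω] [Algebra.IsAlgebraic ℚ Ω] {j : M →+* Ω}
    {R : Finset Ω} {N : Set ℕ} (C : Core3 ψ D cl bar e u₀ ρ p σ q F φ μ ν v Δ j R N)

include C

/-- The number of eigenvalues is the rank of the idempotent. -/
theorem Core3.card (b : Fin m)
    {n : ℕ} {a : Fin n → Ω} (ha : Function.Injective a)
    (hroot : ∀ y : Ω, (F b).eval₂ j y = 0 ↔ ∃ k, y = a k) : n = (e b).rank := by
  obtain ⟨a', ha', hroot'⟩ := C.enum b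
  have h1 : ∀ k, ∃ k', a k = a' k' := fun k => (hroot' _).1 ((hroot _).2 ⟨k, rfl⟩)
  have h2 : ∀ k, ∃ k', a' k = a k' := fun k => (hroot _).1 ((hroot' _).2 ⟨k, rfl⟩)
  choose f hf using h1
  choose g hg using h2
  have hfi : Function.Injective f := fun x y h => ha (by rw [hf, hf, h])
  have hgi : Function.Injective g := fun x y h => ha' (by rw [hg, hg, h])
  have h3 := Fintype.card_le_of_injective f hfi
  have h4 := Fintype.card_le_of_injective g hgi
  rw [Fintype.card_fin, Fintype.card_fin] at h3 h4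
  exact le_antisymm h3 h4

/-- PROOF. `mk_loc` (A7) with `H76RM.exists_prime` (see `lie_p` in H76P/G12); `Core3.tor`. -/
theorem Core3.locp (b : Fin m)
    {n : ℕ} {a : Fin n → Ω} (ha : Function.Injective a)
    (hroot : ∀ y : Ω, (F b).eval₂ j y = 0 ↔ ∃ k, y = a k)
    (i : Ω →+* AlgebraicClosure ℚ_[p]) :
    ∃ (H₀ : Subgroup G) (U : Matrix ι (Fin n) (AlgebraicClosure ℚ_[p]))
      (V : Matrix (Fin n) ι (AlgebraicClosure ℚ_[p])), H₀.FiniteIndex ∧
      LocN (cl b) (ψ.map (algebraMap ℚ (AlgebraicClosure ℚ_[p]))) (img (AlgebraicClosure ℚ_[p]) (ρ p) H₀)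
        (properProj (AlgebraicClosure ℚ_[p]) (ρ p)) ((e b).map (i.comp j)) φ
        (algebraMap ℚ (AlgebraicClosure ℚ_[p]) q) U V (fun k => i (a k)) (YS a) := by
  obtain ⟨H₀, -, hfin, hprime⟩ := H76RM.exists_prime (K := AlgebraicClosure ℚ_[p]) (ρ p) ⊤ inferInstance
  have hc := C.card b ha hroot
  obtain ⟨U, V, hL⟩ := mk_loc C.hψ C.hψ0 D (ρ p) (C.lin p) (C.sim p) (C.semis p) (C.commt p) (C.gen p) C.hspl
    C.frobp C.crys.phigen C.multp hfin hprime j i b (fun h hh => by rw [C.bal p h hh (i.comp j) b, hc]) ha hroot (fun k l N hN h =>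
      ha (C.tor b ((hroot _).2 ⟨k, rfl⟩) ((hroot _).2 ⟨l, rfl⟩) hN h))
  exact ⟨H₀, U, V, hfin, hL⟩

/-- PROOF. The same for `l ≠ p`; `C.mult` mapped to the closure. -/
theorem Core3.locl (b : Fin m)
    {n : ℕ} {a : Fin n → Ω} (ha : Function.Injective a)
    (hroot : ∀ y : Ω, (F b).eval₂ j y = 0 ↔ ∃ k, y = a k)
    (l : ℕ) [Fact l.Prime] (hl : l ≠ p) (i : Ω →+* AlgebraicClosure ℚ_[l]) :
    ∃ (H₀ : Subgroup G) (U : Matrix ι (Fin n) (AlgebraicClosure ℚ_[l]))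
      (V : Matrix (Fin n) ι (AlgebraicClosure ℚ_[l])), H₀.FiniteIndex ∧
      LocN (cl b) (ψ.map (algebraMap ℚ (AlgebraicClosure ℚ_[l]))) (img (AlgebraicClosure ℚ_[l]) (ρ l) H₀)
        (properProj (AlgebraicClosure ℚ_[l]) (ρ l)) ((e b).map (i.comp j))
        ((ρ l σ).1.map (algebraMap ℚ_[l] (AlgebraicClosure ℚ_[l])))
        (algebraMap ℚ (AlgebraicClosure ℚ_[l]) q) U V (fun k => i (a k)) (YS a) := by
  obtain ⟨H₀, -, hfin, hprime⟩ := H76RM.exists_prime (K := AlgebraicClosure ℚ_[l]) (ρ l) ⊤ inferInstance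
  have hmult : ((ρ l σ).1.map (algebraMap ℚ_[l] (AlgebraicClosure ℚ_[l])))ᵀ *
      ψ.map (algebraMap ℚ (AlgebraicClosure ℚ_[l])) * (ρ l σ).1.map (algebraMap ℚ_[l] (AlgebraicClosure ℚ_[l])) =
      algebraMap ℚ (AlgebraicClosure ℚ_[l]) q • ψ.map (algebraMap ℚ (AlgebraicClosure ℚ_[l])) := by
    have h1 := congrArg (fun m : Matrix ι ι ℚ_[l] => m.map (algebraMap ℚ_[l] (AlgebraicClosure ℚ_[l]))) (C.mult l hl)
    have h2 : (ψ.map (algebraMap ℚ ℚ_[l])).map (algebraMap ℚ_[l] (AlgebraicClosure ℚ_[l])) =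
        ψ.map (algebraMap ℚ (AlgebraicClosure ℚ_[l])) := by
      ext i j
      simp
    have h3 : (algebraMap ℚ ℚ_[l] q • ψ.map (algebraMap ℚ ℚ_[l])).map
        (algebraMap ℚ_[l] (AlgebraicClosure ℚ_[l])) =
        algebraMap ℚ (AlgebraicClosure ℚ_[l]) q • ψ.map (algebraMap ℚ (AlgebraicClosure ℚ_[l])) := by
      ext i j
      simp
    simp only [Matrix.map_mul] at h1
    rw [h2, h3, Matrix.transpose_map] at h1
    exact h1
  have hc := C.card b ha hroot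
  obtain ⟨U, V, hL⟩ := mk_loc C.hψ C.hψ0 D (ρ l) (C.lin l) (C.sim l) (C.semis l) (C.commt l) (C.gen l) C.hspl
    (C.frob l hl) (C.gen l σ) hmult hfin hprime j i b (fun h hh => by rw [C.bal l h hh (i.comp j) b, hc]) ha hroot (fun k l N hN h =>
      ha (C.tor b ((hroot _).2 ⟨k, rfl⟩) ((hroot _).2 ⟨l, rfl⟩) hN h))
  exact ⟨H₀, U, V, hfin, hL⟩

end Pool.Agent.H76Z
end

-- from Lib.H76Z.A2d
section

/-!
# the configuration under an automorphism which inverts the eigenvalues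
-/

set_option autoImplicit false
set_option linter.unusedSectionVars false
namespace Pool.Agent.H76Z
open Pool.Agent.H76Y
open Module Matrix Polynomial Pool.Agent.H53Toric
open Pool.Agent.H76P Pool.Agent.H76Q

theorem a2d_zpow {κ : Type*} {K : Type*} [Field K] {t : K} (ht : t ≠ 0)
    (s : Finset κ) (m : κ → ℤ) : ∏ k ∈ s, t ^ m k = t ^ ∑ k ∈ s, m k := by
  classical
  induction s using Finset.induction_on with
  | empty => simp
  | insert a s ha ih => rw [Finset.prod_insert ha, Finset.sum_insert ha, zpow_add₀ ht, ih]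

theorem YS_dual {κ : Type*} [Fintype κ] [DecidableEq κ] [Nonempty κ] {K : Type*} [Field K]
    {d : κ → K} (hd : ∀ k, d k ≠ 0)
    {s : K →+* K} {σ : Equiv.Perm κ} {q : K} (hq0 : q ≠ 0)
    (hσ : ∀ k, s (d k) * d (σ k) = q) (hprod : (∏ k, d k) ^ 2 = q ^ Fintype.card κ) {f : κ → ℚ}
    (hf : f ∈ YS d) : f ∘ σ ∈ YS d := by
  obtain ⟨h1, c, h2⟩ := a2_mem.1 hf
  refine a2_mem.2 ⟨?_, -c, fun m hm => ?_⟩
  · rw [← h1]
    exact Equiv.sum_comp σ f
  · set N : ℕ := Fintype.card κ with hN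
    have hN0 : (N : ℚ) ≠ 0 := by exact_mod_cast Fintype.card_ne_zero
    set S : ℤ := ∑ k, m k with hS
    -- the relation for the image
    have h3 : ∏ k, d (σ k) ^ m k = q ^ S := by
      have h4 : ∏ k, (s (d k)) ^ m k = 1 := by
        have h5 : ∏ k, (s (d k)) ^ m k = s (∏ k, d k ^ m k) := by
          rw [map_prod]
          exact Finset.prod_congr rfl fun k _ => (map_zpow₀ s _ _).symm
        rw [h5, hm, map_one]
      have h5 : ∏ k, (s (d k) * d (σ k)) ^ m k = q ^ S := by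
        rw [Finset.prod_congr rfl fun k _ => by rw [hσ k], hS]
        exact a2d_zpow hq0 _ m
      simp only [mul_zpow] at h5
      rw [Finset.prod_mul_distrib, h4, one_mul] at h5
      exact h5
    have h6 : ∏ k, d k ^ ((N : ℤ) * m (σ.symm k) - 2 * S) = 1 := by
      have h7 : ∏ k, d k ^ ((N : ℤ) * m (σ.symm k) - 2 * S) =
          (∏ k, d k ^ m (σ.symm k)) ^ (N : ℤ) * ((∏ k, d k) ^ (2 * S))⁻¹ := by
        rw [← Finset.prod_zpow, ← Finset.prod_zpow, ← Finset.prod_inv_distrib, ← Finset.prod_mul_distrib]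
        refine Finset.prod_congr rfl fun k _ => ?_
        rw [zpow_sub₀ (hd k), mul_comm (N : ℤ), _root_.zpow_mul, div_eq_mul_inv]
      have h8 : ∏ k, d k ^ m (σ.symm k) = q ^ S := by
        rw [← h3, ← Equiv.prod_comp σ fun k => d k ^ m (σ.symm k)]
        exact Finset.prod_congr rfl fun k _ => by rw [Equiv.symm_apply_apply]
      have h9 : (∏ k, d k) ^ (2 * S) = q ^ ((N : ℤ) * S) := by
        rw [_root_.zpow_mul, _root_.zpow_mul, zpow_natCast q N, ← hprod]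
        norm_cast
      rw [h7, h8, h9, ← _root_.zpow_mul, mul_comm S]
      exact mul_inv_cancel₀ (zpow_ne_zero _ hq0)
    have h7 := h2 _ h6
    have h8 : ∑ k, (((N : ℤ) * m (σ.symm k) - 2 * S : ℤ) : ℚ) * (f k - c) =
        (N : ℚ) * (∑ k, (m k : ℚ) * (f (σ k) - c) + 2 * (S : ℚ) * c) := by
      have h9 : ∑ k, (m k : ℚ) * (f (σ k) - c) = ∑ k, (m (σ.symm k) : ℚ) * (f k - c) := by
        rw [← Equiv.sum_comp σ fun k => (m (σ.symm k) : ℚ) * (f k - c)]
        exact Finset.sum_congr rfl fun k _ => by rw [Equiv.symm_apply_apply]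
      have h10 : ∑ k, (f k - c) = -((N : ℚ) * c) := by
        rw [Finset.sum_sub_distrib, h1, Finset.sum_const, Finset.card_univ, nsmul_eq_mul, zero_sub]
      rw [h9]
      have h11 : ∀ k, (((N : ℤ) * m (σ.symm k) - 2 * S : ℤ) : ℚ) * (f k - c) =
          (N : ℚ) * ((m (σ.symm k) : ℚ) * (f k - c)) - 2 * (S : ℚ) * (f k - c) := by
        intro k
        push_cast
        ring
      rw [Finset.sum_congr rfl fun k _ => h11 k, Finset.sum_sub_distrib, ← Finset.mul_sum,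
        ← Finset.mul_sum, h10]
      ring
    rw [h8] at h7
    have h9 := (mul_eq_zero.1 h7).resolve_left hN0
    have h10 : ∑ k, (m k : ℚ) * ((f ∘ σ) k - -c) = ∑ k, (m k : ℚ) * (f (σ k) - c) + 2 * (S : ℚ) * c := by
      have h11 : ∀ k, (m k : ℚ) * ((f ∘ σ) k - -c) = (m k : ℚ) * (f (σ k) - c) + (m k : ℚ) * (2 * c) := by
        intro k
        rw [Function.comp_apply]
        ring
      rw [Finset.sum_congr rfl fun k _ => h11 k, Finset.sum_add_distrib, ← Finset.sum_mul, hS]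
      push_cast
      ring
    rw [h10, h9]

end Pool.Agent.H76Z
end

-- from Lib.H76Z.W7
section

/-!
# the Newton function
-/

set_option autoImplicit false
set_option linter.unusedSectionVars false
namespace Pool.Agent.H76Z
open Pool.Agent.H76Y
open Pool.Agent.H76P Pool.Agent.H76V Pool.Agent.H76Q
open Module Matrix Polynomial Pool.Agent.H53Toric
open Pool.Agent.H76P
open Pool.Agent.H76T (IsIdeal Fam Lc)
open Pool.Agent.H76U (cmp preL IsSplitting)
open Pool.Agent.H76RM (spanK similD)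

variable {ι : Type*} [Fintype ι] [DecidableEq ι] {ψ : Matrix ι ι ℚ}
    {D : Subalgebra ℚ (Matrix ι ι ℚ)} {M : Type*} [Field M] [NumberField M]
    {m : ℕ} {cl : Fin m → Cl} {bar : Fin m → Fin m} {e : Fin m → Matrix ι ι M} {u₀ : Matrix ι ι M} {G : Type*} [Group G]
    {ρ : ∀ (l : ℕ) [Fact l.Prime], G →* Matrix.GeneralLinearGroup ι ℚ_[l]}
    {p : ℕ} [Fact p.Prime] {σ : G} {q : ℚ} {F : Fin m → M[X]}
    {φ μ ν : Matrix ι ι (AlgebraicClosure ℚ_[p])} {v : AlgebraicClosure ℚ_[p] → ℚ}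
    {Δ : Set (AlgebraicClosure ℚ_[p] ≃+* AlgebraicClosure ℚ_[p])}
    {Ω : Type*} [Field Ω] [CharZero Ω] [IsAlgClosed Ω] [Algebra.IsAlgebraic ℚ Ω] {j : M →+* Ω}
    {R : Finset Ω} {N : Set ℕ} (C : Core3 ψ D cl bar e u₀ ρ p σ q F φ μ ν v Δ j R N)

include C

/-- PROOF. `Core3.locp`.  `dq ε` is in an ideal `I` of `L = LcN J S U V` with `InP P I` or `InP (1 - P) I` (`inv_AZ`, `HT_spec`); the first is impossible (`ε` would be constant, `FunP_both`).  As in `H76P.vid_mem` (G8): the space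
`{A | A commutes with e and phi (cmp U V A) ∈ I}` or `{U X V : X ∈ I}` is `adStable`, contains `(2 μ - 1) e`, so (`C.crys.newton`) `(ν - c) e`, so `dq (fun k => v (d k) - c) ∈ I` (`C.crys.nu`); `c` is the average
(trace zero) and rational; so this function is in `Y` (`h.ts.diag`) and depends only on the second coordinate. -/
theorem Core3.newt (b : Fin m)
    {n : ℕ} {a : Fin n → Ω} (ha : Function.Injective a)
    (hroot : ∀ y : Ω, (F b).eval₂ j y = 0 ↔ ∃ k, y = a k)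
    {P : Module.End ℚ (YS a)} (hP : Sp P) (hg : GoodN (cl b) P) (i : Ω →+* AlgebraicClosure ℚ_[p])
    {ε : Fin n → ℚ} (hε : IsHT μ φ ((e b).map (i.comp j)) (fun k => i (a k)) ε)
    (hεP : FunP (1 - P) ε) : FunP (1 - P) (fun k => v (i (a k))) := by
  obtain ⟨H₀, U, V, hfin, h⟩ := C.locp b ha hroot i
  have hμ := C.crys.mu
  have hμφ := C.crys.muphi
  obtain ⟨hphi, hεY, hε1⟩ := HT_spec h hμ hμφ hε
  obtain ⟨hμμ, hμe, -, hμL⟩ := h.par μ hμ
  have : Nonempty (Fin n) := ⟨⟨0, h.pos⟩⟩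
  have hc : Comp (LcN (ψ.map (algebraMap ℚ (AlgebraicClosure ℚ_[p])))
      (img (AlgebraicClosure ℚ_[p]) (ρ p) H₀) U V) P := hg _ _ h.ts h.cls h.yo
  rw [hphi] at hμL
  have hsq : (dq ε : Module.End (AlgebraicClosure ℚ_[p]) (Fin n → AlgebraicClosure ℚ_[p])) * dq ε
      = 1 := by
    unfold dq
    rw [dg_mul, ← dg_one]
    congr 1
    funext k
    rcases hε1 k with h1 | h1 <;> simp [h1]
  obtain ⟨I, hI, hεI, hIP⟩ := inv_AZ h.ts hc hμL hsq
  have hIP' : InP (1 - P) I := by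
    rcases hIP with h1 | h1
    · exfalso
      have h2 : ε = 0 := FunP_both hP hεY.1 (h1 ε hεY hεI) hεP
      have h3 := hε1 ⟨0, h.pos⟩
      rw [h2] at h3
      rcases h3 with h3 | h3 <;> simp at h3
    · exact h1
  set E := (e b).map (i.comp j) with hE
  have hEE : E * E = E := by
    rw [h.UV]
    calc U * V * (U * V) = U * (V * U) * V := by simp only [Matrix.mul_assoc]
      _ = U * V := by rw [h.VU, Matrix.mul_one]
  have heU : E * U = U := by rw [h.UV, Matrix.mul_assoc, h.VU, Matrix.mul_one]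
  let I' : Submodule (AlgebraicClosure ℚ_[p]) (Matrix ι ι (AlgebraicClosure ℚ_[p])) :=
    { carrier := {A | A * E = A ∧ E * A = A ∧ phi (cmp U V A) ∈ I}
      add_mem' := by
        rintro A A' ⟨h1, h2, h3⟩ ⟨h4, h5, h6⟩
        refine ⟨by rw [Matrix.add_mul, h1, h4], by rw [Matrix.mul_add, h2, h5], ?_⟩
        rw [map_add, map_add]
        exact I.add_mem h3 h6
      zero_mem' := by
        refine ⟨Matrix.zero_mul _, Matrix.mul_zero _, ?_⟩
        rw [map_zero, map_zero]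
        exact I.zero_mem
      smul_mem' := by
        rintro c A ⟨h1, h2, h3⟩
        refine ⟨by rw [Matrix.smul_mul, h1], by rw [Matrix.mul_smul, h2], ?_⟩
        rw [map_smul, map_smul]
        exact I.smul_mem _ h3 }
  have hmem : ∀ A, A ∈ I' ↔ A * E = A ∧ E * A = A ∧ phi (cmp U V A) ∈ I := fun A => Iff.rfl
  have hstab : adStable (zlie (img (AlgebraicClosure ℚ_[p]) (ρ p) H₀)) I' := by
    intro Z hZ A hA
    obtain ⟨h1, h2, h3⟩ := (hmem A).1 hA
    obtain ⟨hCe, c, hc⟩ := h.lie Z hZ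
    rw [hmem]
    refine ⟨?_, ?_, ?_⟩
    · rw [Matrix.sub_mul, Matrix.mul_assoc, h1, Matrix.mul_assoc, hCe, ← Matrix.mul_assoc, h1]
    · rw [Matrix.mul_sub, ← Matrix.mul_assoc, ← Matrix.mul_assoc, h2, ← hCe, Matrix.mul_assoc, h2]
    · have hC' : (Z - c • 1) * E = E * (Z - c • 1) := by
        rw [Matrix.sub_mul, Matrix.mul_sub, hCe, Matrix.smul_mul, Matrix.mul_smul, Matrix.one_mul,
          Matrix.mul_one]
      have hA' : A * E = E * A := by rw [h1, h2]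
      have e1 : Z * A - A * Z = (Z - c • 1) * A - A * (Z - c • 1) := by
        rw [Matrix.sub_mul, Matrix.mul_sub, Matrix.smul_mul, Matrix.mul_smul, Matrix.one_mul,
          Matrix.mul_one]
        abel
      rw [e1, map_sub, H76U.cmp_mul h.UV h.VU hA', H76U.cmp_mul h.UV h.VU hC', map_sub, map_mul,
        map_mul]
      exact hI.2 _ hc _ h3
  have hbase : ((2 : AlgebraicClosure ℚ_[p]) • μ - 1) * E ∈ I' := by
    have hye : ((2 : AlgebraicClosure ℚ_[p]) • μ - 1) * E =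
        E * ((2 : AlgebraicClosure ℚ_[p]) • μ - 1) := by
      rw [Matrix.sub_mul, Matrix.mul_sub, Matrix.smul_mul, Matrix.mul_smul, Matrix.one_mul,
        Matrix.mul_one, hμe]
    rw [hmem]
    refine ⟨by rw [Matrix.mul_assoc, hEE], by rw [← Matrix.mul_assoc, ← hye, Matrix.mul_assoc, hEE], ?_⟩
    have e2 : cmp U V (((2 : AlgebraicClosure ℚ_[p]) • μ - 1) * E) =
        cmp U V ((2 : AlgebraicClosure ℚ_[p]) • μ - 1) := by
      rw [H76U.cmp_apply, H76U.cmp_apply]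
      rw [← Matrix.mul_assoc V, Matrix.mul_assoc _ E U, heU]
    rw [e2, hphi]
    exact hεI
  obtain ⟨c, hc⟩ := C.crys.newton (i.comp j) b H₀ hfin I' hstab hbase
  have hc2 := ((hmem _).1 hc).2.2
  have hν : ν * U = U * Matrix.diagonal (fun k => (v (i (a k)) : AlgebraicClosure ℚ_[p])) := by
    ext x k
    have h1 : φ *ᵥ (fun x => U x k) = (i (a k)) • (fun x => U x k) := by
      have h2 := h.ec.eig
      funext y
      have h3 := congrFun (congrFun h2 y) k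
      rw [Matrix.mul_diagonal] at h3
      rw [Pi.smul_apply, smul_eq_mul, mul_comm, ← h3]
      rfl
    have h2 := congrFun (C.crys.nu _ _ h1) x
    rw [Matrix.mul_diagonal, mul_comm]
    exact h2
  have e3 : cmp U V ((ν - c • 1) * E) =
      Matrix.diagonal (fun k => (v (i (a k)) : AlgebraicClosure ℚ_[p]) - c) := by
    rw [H76U.cmp_apply, ← Matrix.mul_assoc V, Matrix.mul_assoc _ E U, heU, Matrix.mul_sub,
      Matrix.sub_mul, Matrix.mul_assoc, hν, ← Matrix.mul_assoc, h.VU, Matrix.one_mul, Matrix.mul_smul,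
      Matrix.mul_one, Matrix.smul_mul, h.VU]
    ext i j
    by_cases hij : i = j
    · subst hij
      simp
    · simp [Matrix.diagonal_apply_ne _ hij, Matrix.one_apply_ne hij]
  rw [e3, phi_diag] at hc2
  have htr := h.ts.cmp.tr _ (hI.1 hc2)
  rw [H76Y.dg_trace, Finset.sum_sub_distrib, Finset.sum_const, Finset.card_univ, Fintype.card_fin,
    nsmul_eq_mul] at htr
  have hn0 : (n : AlgebraicClosure ℚ_[p]) ≠ 0 := by exact_mod_cast h.pos.ne'
  have hcv : c = (∑ k, (v (i (a k)) : AlgebraicClosure ℚ_[p])) / n := by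
    rw [eq_div_iff hn0]
    linear_combination -htr
  have e4 : (dq (fun k => v (i (a k)) - (∑ l, v (i (a l))) / n) :
      Module.End (AlgebraicClosure ℚ_[p]) (Fin n → AlgebraicClosure ℚ_[p])) =
      dg (fun k => (v (i (a k)) : AlgebraicClosure ℚ_[p]) - c) := by
    unfold dq
    congr 1
    funext k
    rw [hcv]
    push_cast
    ring
  rw [← e4] at hc2
  have hY := h.ts.diag _ (hI.1 hc2)
  rw [h.yo] at hY
  have hfun := hIP' _ hY hc2
  intro k k' hk
  have h5 := hfun k k' hk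
  exact sub_left_injective h5

/-- PROOF. Otherwise `FunP (1 - P) ε` for all `i`, `ε` (`HT_or`), so `v (i (a k)) = v (i (a k'))` for all `i` if `cz (1 - P) k k'` (`Core3.newt`), so `k = k'` (`C.gal`).  But `P ≠ 0`, so `cz P k k'` fails for some
`k`, `k'`; `c` with `cz P c k`, `cz (1 - P) c k'` (`Sp.exists_mx`) is `k'`: contradiction.  (`i`, `ε` exist: `Core3.locp`, `exists_HT`.) -/
theorem Core3.onto (b : Fin m)
    {n : ℕ} {a : Fin n → Ω} (ha : Function.Injective a)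
    (hroot : ∀ y : Ω, (F b).eval₂ j y = 0 ↔ ∃ k, y = a k)
    {P : Module.End ℚ (YS a)} (hP : Sp P) (hg : GoodN (cl b) P) (hP0 : P ≠ 0) :
    ∃ (i : Ω →+* AlgebraicClosure ℚ_[p]) (ε : Fin n → ℚ),
      IsHT μ φ ((e b).map (i.comp j)) (fun k => i (a k)) ε ∧ FunP P ε := by
  by_contra hcon
  push Not at hcon
  have hμ := C.crys.mu
  have hμφ := C.crys.muphi
  have hall : ∀ i : Ω →+* AlgebraicClosure ℚ_[p], FunP (1 - P) (fun k => v (i (a k))) := by
    intro i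
    obtain ⟨H₀, U, V, hfin, h⟩ := C.locp b ha hroot i
    obtain ⟨ε, hε⟩ := exists_HT h hμ hμφ
    have hc : Comp (LcN (ψ.map (algebraMap ℚ (AlgebraicClosure ℚ_[p])))
      (img (AlgebraicClosure ℚ_[p]) (ρ p) H₀) U V) P := hg _ _ h.ts h.cls h.yo
    rcases HT_or h hμ hμφ hε hc with h1 | h1
    · exact absurd h1 (hcon i ε hε)
    · exact C.newt b ha hroot hP hg i hε h1
  have hkk : ∀ k k', cz (1 - P) k k' → k = k' := by
    intro k k' hk
    by_contra hne
    obtain ⟨i, hi⟩ := C.gal b (a k) (a k') ((hroot _).2 ⟨k, rfl⟩) ((hroot _).2 ⟨k', rfl⟩)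
      (fun h1 => hne (ha h1))
    exact hi (hall i k k' hk)
  apply hP0
  refine LinearMap.ext fun f => Subtype.ext ?_
  have hconst : ∀ k k', (P f : Fin n → ℚ) k = (P f : Fin n → ℚ) k' := by
    intro k k'
    obtain ⟨c, hc1, hc2⟩ := hP.exists_mx k k'
    have h1 := hkk c k' hc2
    rw [h1] at hc1
    exact (hc1 f).symm
  have hsum := (P f).2.1
  funext k
  have h1 : (n : ℚ) * (P f : Fin n → ℚ) k = 0 := by
    rw [← hsum, Finset.sum_congr rfl fun l _ => hconst l k, Finset.sum_const, Finset.card_univ,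
      nsmul_eq_mul, Fintype.card_fin]
  have hn0 : (n : ℚ) ≠ 0 := by
    have := k.pos
    positivity
  exact (mul_eq_zero.1 h1).resolve_left hn0

end Pool.Agent.H76Z
end

-- from Lib.H76Z.E6
section

/-!
# the reciprocity law at l
-/

set_option autoImplicit false
set_option linter.unusedSectionVars false
namespace Pool.Agent.H76Z
open Pool.Agent.H76Y
open Pool.Agent.H76Q
open Module Matrix Polynomial Pool.Agent.H53Toric
open Pool.Agent.H76P
open Pool.Agent.H76T (IsIdeal Fam Lc)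
open Pool.Agent.H76V (Cmp)
open Pool.Agent.H76U (cmp preL IsSplitting)
open Pool.Agent.H76RM (spanK similD)
open H45P (PC PowIn)

/-- The group generated by the `m`-th powers and the commutators, as a monoid. -/
theorem pc_mono {G : Type*} [Group G] {H : Type*} [Group H] {m : ℕ} (ρ : G →* H) {y : H}
    (hy : y ∈ PC m ρ) :
    y ∈ Submonoid.closure ((Set.range fun g => ρ (g ^ m)) ∪ {x | ∃ g h : G, x = ρ (g * h * g⁻¹ * h⁻¹)}) := by
  have h0 : ((Set.range fun g => ρ g ^ m) ∪ {x | ∃ g h, x = ρ g * ρ h * (ρ g)⁻¹ * (ρ h)⁻¹}) =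
      ((Set.range fun g => ρ (g ^ m)) ∪ {x | ∃ g h : G, x = ρ (g * h * g⁻¹ * h⁻¹)}) := by
    simp only [map_mul, map_inv, map_pow]
  have h1 : y ∈ (PC m ρ).toSubmonoid := hy
  rw [PC, h0, Subgroup.closure_toSubmonoid] at h1
  refine Submonoid.closure_mono ?_ h1
  rintro z (hz | hz)
  · exact hz
  · rw [Set.mem_inv] at hz
    rcases hz with ⟨g, hg⟩ | ⟨g, h, hg⟩
    · left
      refine ⟨g⁻¹, ?_⟩
      show ρ (g⁻¹ ^ m) = z
      have h3 : ρ (g ^ m) = z⁻¹ := hg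
      rw [inv_pow, map_inv, h3, inv_inv]
    · right
      refine ⟨h, g, ?_⟩
      rw [← inv_inv z, hg, ← map_inv]
      congr 1
      group

theorem power_at {ι : Type*} [Fintype ι] [DecidableEq ι] {L : Type*} [Field L] [CharZero L]
    {G : Type*} [Group G] (ρ : G →* Matrix.GeneralLinearGroup ι L)
    {ct : Cl} {J : Matrix ι ι (AlgebraicClosure L)} {H₀ : Subgroup G} {e : Matrix ι ι (AlgebraicClosure L)}
    {q : AlgebraicClosure L} {n : ℕ} {U : Matrix ι (Fin n) (AlgebraicClosure L)}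
    {V : Matrix (Fin n) ι (AlgebraicClosure L)} {Ω : Type*} [Field Ω] [CharZero Ω]
    {a : Fin n → Ω} {i : Ω →+* AlgebraicClosure L} {Y : Submodule ℚ (Fin n → ℚ)} {σ₀ : G}
    (h : LocN ct J (img (AlgebraicClosure L) ρ H₀) (properProj (AlgebraicClosure L) ρ) e
      ((ρ σ₀).1.map (algebraMap L (AlgebraicClosure L))) q U V (fun k => i (a k)) Y)
    (gen : ∀ g : G, (ρ g).1.map (algebraMap L (AlgebraicClosure L)) ∈
      tgen (AlgebraicClosure L) ρ)
    (hsq : ρ σ₀ ∈ PC n ρ)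
    {P : Module.End ℚ Y} (hP : Sp P) (hc : Comp (LcN J (img (AlgebraicClosure L) ρ H₀) U V) P)
    (hJ : ∀ τ : AlgebraicClosure L ≃ₐ[L] AlgebraicClosure L, J.map τ = J)
    (he : ∀ τ : AlgebraicClosure L ≃ₐ[L] AlgebraicClosure L, e.map τ = e)
    (hdec : ∀ τ : AlgebraicClosure L ≃ₐ[L] AlgebraicClosure L, ∃ (s : Ω ≃+* Ω)
      (σ : Equiv.Perm (Fin n)), (∀ y, τ (i y) = i (s y)) ∧ (∀ k, s (a k) = a (σ k)) ∧ StabP P σ)
    {t : Fin n → Ω} (ht : Lift P a t) :
    PowIn n L (i (∏ k, t k)) := by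
  classical
  have hVU := h.VU
  have hne : Nonempty (Fin n) := ⟨⟨0, h.pos⟩⟩
  -- the semilinear automorphisms
  have hth : ∀ τ : AlgebraicClosure L ≃ₐ[L] AlgebraicClosure L,
      ∃ (θ : Module.End (AlgebraicClosure L) (Fin n → AlgebraicClosure L) ≃+*
          Module.End (AlgebraicClosure L) (Fin n → AlgebraicClosure L)) (s : Ω ≃+* Ω)
        (σ : Equiv.Perm (Fin n)), (∀ y, τ (i y) = i (s y)) ∧ (∀ k, s (a k) = a (σ k)) ∧
        StabP P σ ∧ ThetaN (LcN J (img (AlgebraicClosure L) ρ H₀) U V) θ τ.toRingEquiv σ ∧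
        ∀ X, (U * LinearMap.toMatrix' X * V).map τ.toRingEquiv = U * LinearMap.toMatrix' (θ X) * V := by
    intro τ
    obtain ⟨s, σ, h1, h2, h3⟩ := hdec τ
    obtain ⟨θ, h4, h5⟩ := exists_theta h (τ := τ.toRingEquiv) (he τ) (e6_fix τ _) (hJ τ)
      (fun x hx => by
        obtain ⟨g, -, rfl⟩ := hx
        exact e6_fix τ _) (σ := σ) (fun k => by
        show τ (i (a k)) = i (a (σ k))
        rw [h1, h2])
    exact ⟨θ, s, σ, h1, h2, h3, h4, h5⟩
  choose θ s σ h1 h2 h3 h4 h5 using hth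
  obtain ⟨T, hT⟩ : ∃ T : Set ((Module.End (AlgebraicClosure L) (Fin n → AlgebraicClosure L) ≃+*
      Module.End (AlgebraicClosure L) (Fin n → AlgebraicClosure L)) ×
      (AlgebraicClosure L ≃+* AlgebraicClosure L)),
      T = Set.range fun τ : AlgebraicClosure L ≃ₐ[L] AlgebraicClosure L => (θ τ, τ.toRingEquiv) := ⟨_, rfl⟩
  obtain ⟨W, hW⟩ : ∃ W : Set (Module.End (AlgebraicClosure L) (Fin n → AlgebraicClosure L) →ₗ[AlgebraicClosure L]
      AlgebraicClosure L), W = Set.range (e6_w U V) := ⟨_, rfl⟩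
  have hTS : EN.TS0 (AZ (LcN J (img (AlgebraicClosure L) ρ H₀) U V) P) (AZ (LcN J (img (AlgebraicClosure L) ρ H₀) U V) (1 - P)) T W := by
    refine ⟨?_, ?_, ?_, ?_, ?_, ?_⟩
    · intro x hx
      rw [hT] at hx
      obtain ⟨τ, rfl⟩ := hx
      exact (h4 τ).smul
    · intro x hx X hX
      rw [hT] at hx
      obtain ⟨τ, rfl⟩ := hx
      exact (h4 τ).AZ h.yo (h3 τ) hX
    · intro x hx X hX
      rw [hT] at hx
      obtain ⟨τ, rfl⟩ := hx
      have hPP : (1 : Module.End ℚ Y) - (1 - P) = P := sub_sub_cancel 1 P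
      exact (h4 τ).AZ h.yo ⟨(h3 τ).2, fun k k' => hPP.symm ▸ (h3 τ).1 k k'⟩ hX
    · intro x hx
      rw [hT] at hx
      obtain ⟨τ, rfl⟩ := hx
      exact (h4 τ).det
    · intro x hx w hw X
      rw [hT] at hx
      rw [hW] at hw
      obtain ⟨τ, rfl⟩ := hx
      obtain ⟨p, rfl⟩ := hw
      rw [e6_w_apply, e6_w_apply, ← h5 τ X]
      rfl
    · intro X hX
      by_contra hcon
      push Not at hcon
      apply hX
      have h6 : U * LinearMap.toMatrix' X * V = U * (0 : Matrix (Fin n) (Fin n) (AlgebraicClosure L)) * V := by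
        ext b b'
        rw [Matrix.mul_zero, Matrix.zero_mul, Matrix.zero_apply]
        exact hcon (e6_w U V (b, b')) (by rw [hW]; exact ⟨(b, b'), rfl⟩)
      have h7 := e6_can hVU h6
      exact LinearMap.toMatrix'.injective (by rw [h7, map_zero])
  obtain ⟨A, hA⟩ : ∃ A : Set (Module.End (AlgebraicClosure L) (Fin n → AlgebraicClosure L)),
      A = Set.range fun g : G => phi (cmp U V ((ρ g).1.map (algebraMap L (AlgebraicClosure L)))) := ⟨_, rfl⟩
  have comm : ∀ g : G, (ρ g).1.map (algebraMap L (AlgebraicClosure L)) * e =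
      e * (ρ g).1.map (algebraMap L (AlgebraicClosure L)) := fun g => cmp_comm h (gen g)
  have hAp : ∀ X ∈ A, (∃ u r, EN.PU (AZ (LcN J (img (AlgebraicClosure L) ρ H₀) U V) P)
      (AZ (LcN J (img (AlgebraicClosure L) ρ H₀) U V) (1 - P)) X u r) ∧ ∀ x ∈ T, x.1 X = X := by
    intro X hX
    rw [hA] at hX
    obtain ⟨g, rfl⟩ := hX
    refine ⟨by
      obtain ⟨u, r, t, h6⟩ := gen_PT h hP hc (gen g)
      exact ⟨u, r, h6.pu⟩, ?_⟩
    intro x hx
    rw [hT] at hx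
    obtain ⟨τ, rfl⟩ := hx
    apply LinearMap.toMatrix'.injective
    apply e6_can hVU
    rw [← h5 τ, e6_mat, Pool.Agent.H76U.cmp_apply]
    have h6 : U * (V * (ρ g).1.map (algebraMap L (AlgebraicClosure L)) * U) * V =
        e * (ρ g).1.map (algebraMap L (AlgebraicClosure L)) * e := by
      rw [h.UV]
      simp only [Matrix.mul_assoc]
    rw [h6]
    have h7 : (e * (ρ g).1.map (algebraMap L (AlgebraicClosure L)) * e).map τ.toRingEquiv =
        e.map τ.toRingEquiv * ((ρ g).1.map (algebraMap L (AlgebraicClosure L))).map τ.toRingEquiv *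
          e.map τ.toRingEquiv := by
      rw [← Matrix.map_mul, ← Matrix.map_mul]
    have h8 : e.map τ.toRingEquiv = e := he τ
    rw [h7, h8, e6_fix]
  -- the element
  have hmul : ∀ g g' : G, phi (cmp U V ((ρ (g * g')).1.map (algebraMap L (AlgebraicClosure L)))) =
      phi (cmp U V ((ρ g).1.map (algebraMap L (AlgebraicClosure L)))) *
        phi (cmp U V ((ρ g').1.map (algebraMap L (AlgebraicClosure L)))) := by
    intro g g'
    have h6 : (ρ (g * g')).1.map (algebraMap L (AlgebraicClosure L)) =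
        (ρ g).1.map (algebraMap L (AlgebraicClosure L)) *
          (ρ g').1.map (algebraMap L (AlgebraicClosure L)) := by
      rw [map_mul, ← Matrix.map_mul]
      rfl
    rw [h6, Pool.Agent.H76U.cmp_mul h.UV hVU (comm g'), map_mul]
  have hgone : phi (cmp U V ((ρ 1).1.map (algebraMap L (AlgebraicClosure L)))) = 1 := by
    have h6 : ((ρ 1).1.map (algebraMap L (AlgebraicClosure L))) = 1 := by
      rw [map_one]
      show (1 : Matrix ι ι L).map (algebraMap L (AlgebraicClosure L)) = 1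
      rw [Matrix.map_one _ (map_zero _) (map_one _)]
    rw [h6, Pool.Agent.H76U.cmp_one h.UV hVU, map_one]
  have hgpow : ∀ (g : G) (k : ℕ), phi (cmp U V ((ρ (g ^ k)).1.map (algebraMap L (AlgebraicClosure L)))) =
      phi (cmp U V ((ρ g).1.map (algebraMap L (AlgebraicClosure L)))) ^ k := by
    intro g k
    induction k with
    | zero => rw [pow_zero, pow_zero, hgone]
    | succ k ih => rw [pow_succ, hmul, ih, pow_succ]
  have hginv : ∀ g : G, phi (cmp U V ((ρ g).1.map (algebraMap L (AlgebraicClosure L)))) *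
      phi (cmp U V ((ρ g⁻¹).1.map (algebraMap L (AlgebraicClosure L)))) = 1 := by
    intro g
    rw [← hmul, mul_inv_cancel, hgone]
  have hclo : ∀ y ∈ Submonoid.closure ((Set.range fun g => ρ (g ^ n)) ∪ {x | ∃ g h : G, x = ρ (g * h * g⁻¹ * h⁻¹)}),
      (∃ g, y = ρ g) ∧
      phi (cmp U V (y.1.map (algebraMap L (AlgebraicClosure L)))) ∈
        Submonoid.closure ({Z | ∃ X ∈ A, Z = X ^ n} ∪
          {Z | ∃ X ∈ A, ∃ Y ∈ A, ∃ X' Y', X * X' = 1 ∧ Y * Y' = 1 ∧ Z = X * Y * X' * Y'}) := by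
    intro y hy
    induction hy using Submonoid.closure_induction with
    | mem y hy =>
      rcases hy with ⟨g, rfl⟩ | ⟨g, g', rfl⟩
      · refine ⟨⟨g ^ n, rfl⟩, Submonoid.subset_closure (Or.inl ⟨_, ?_, hgpow g n⟩)⟩
        rw [hA]
        exact ⟨g, rfl⟩
      · refine ⟨⟨g * g' * g⁻¹ * g'⁻¹, rfl⟩, Submonoid.subset_closure (Or.inr
          ⟨_, ?_, _, ?_, _, _, hginv g, hginv g', ?_⟩)⟩
        · rw [hA]
          exact ⟨g, rfl⟩
        · rw [hA]
          exact ⟨g', rfl⟩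
        · rw [hmul, hmul, hmul]
    | one =>
      refine ⟨⟨1, (map_one _).symm⟩, ?_⟩
      have h6 : ((1 : Matrix.GeneralLinearGroup ι L)).1.map (algebraMap L (AlgebraicClosure L)) = 1 := by
        show (1 : Matrix ι ι L).map (algebraMap L (AlgebraicClosure L)) = 1
        rw [Matrix.map_one _ (map_zero _) (map_one _)]
      rw [h6, Pool.Agent.H76U.cmp_one h.UV hVU, map_one]
      exact Submonoid.one_mem _
    | mul y y' _ _ ih ih' =>
      obtain ⟨⟨g, rfl⟩, h6⟩ := ih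
      obtain ⟨⟨g', rfl⟩, h7⟩ := ih'
      refine ⟨⟨g * g', (map_mul _ _ _).symm⟩, ?_⟩
      rw [← map_mul, hmul]
      exact Submonoid.mul_mem _ h6 h7
  have hX := (hclo _ (pc_mono ρ hsq)).2
  obtain ⟨u, r, c, h6, hdc, hc0, hfix⟩ := EN.powers (AZ_comm h.ts h.yo hP) (AZ_inter h.ts h.yo hP hc) hTS hAp n hX
  have h6 := ptn_of h6
  rw [hdc, H76P.cmp_phi hVU h.ec, H76P.phi_diag] at h6
  obtain ⟨u₀, r₀, hu, hr, hfu, hfr, hprod⟩ := PT_diag h.ts h.yo hP hc h.ec.inj h6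
  have hdu : ∏ k, u₀ k = c ^ n := by
    rw [← det_dg, ← hu]
    exact h6.2.2.2.2.1
  have ha0 : ∀ k, a k ≠ 0 := by
    intro k h0
    apply h.ec.ne k
    rw [h0, map_zero]
  obtain ⟨c', hc', huc, hpu⟩ := Lift.prod_eq ht ha0 hP (i := i) (u := u₀) (r := r₀) ⟨hprod, hfu, hfr⟩
  have hit : ∀ k, i (t k) ≠ 0 := fun k h0 => ht.ne k ((map_eq_zero i).1 h0)
  -- invariance
  have inv1 : ∀ τ : AlgebraicClosure L ≃ₐ[L] AlgebraicClosure L, τ c = c := by
    intro τ
    exact (hfix _ (by rw [hT]; exact ⟨τ, rfl⟩)).2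
  have inv2 : ∀ τ : AlgebraicClosure L ≃ₐ[L] AlgebraicClosure L, τ c' = c' := by
    intro τ
    have h7 := (hfix _ (by rw [hT]; exact ⟨τ, rfl⟩ : (θ τ, τ.toRingEquiv) ∈ T)).1
    have h8 : θ τ u = u := h7
    rw [hu, (h4 τ).diag] at h8
    have h9 := congrFun (H76P.dg_inj h8) (σ τ (Classical.arbitrary (Fin n)))
    simp only [Equiv.symm_apply_apply] at h9
    have h10 : τ (u₀ (Classical.arbitrary (Fin n))) = u₀ (σ τ (Classical.arbitrary (Fin n))) := h9
    rw [huc, huc, map_mul, h1 τ, ht.eqv (s τ) (σ τ) (h2 τ) (h3 τ)] at h10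
    exact mul_right_cancel₀ (hit _) h10
  obtain ⟨y, hy⟩ := fixed_mem inv1
  obtain ⟨y', hy'⟩ := fixed_mem inv2
  refine ⟨y / y', ?_⟩
  rw [hdu, Fintype.card_fin] at hpu
  have h13 : i (∏ k, t k) = c ^ n / c' ^ n := by
    rw [eq_div_iff (pow_ne_zero n hc'), mul_comm]
    exact hpu.symm
  rw [h13, hy, hy', map_div₀, div_pow]

end Pool.Agent.H76Z
end

-- from Lib.H76Z.W3
section

/-!
# W3: the factorisation at p
-/

set_option autoImplicit false
set_option linter.unusedSectionVars false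
namespace Pool.Agent.H76Z
open Pool.Agent.H76Y
open Pool.Agent.H76P Pool.Agent.H76V Pool.Agent.H76Q
open Module Matrix Polynomial Pool.Agent.H53Toric
open Pool.Agent.H76P
open Pool.Agent.H76T (IsIdeal Fam Lc)
open Pool.Agent.H76U (cmp preL IsSplitting)
open Pool.Agent.H76RM (spanK similD)

variable {ι : Type*} [Fintype ι] [DecidableEq ι] {ψ : Matrix ι ι ℚ}
    {D : Subalgebra ℚ (Matrix ι ι ℚ)} {M : Type*} [Field M] [NumberField M]
    {m : ℕ} {cl : Fin m → Cl} {bar : Fin m → Fin m} {e : Fin m → Matrix ι ι M} {u₀ : Matrix ι ι M} {G : Type*} [Group G]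
    {ρ : ∀ (l : ℕ) [Fact l.Prime], G →* Matrix.GeneralLinearGroup ι ℚ_[l]}
    {p : ℕ} [Fact p.Prime] {σ : G} {q : ℚ} {F : Fin m → M[X]}
    {φ μ ν : Matrix ι ι (AlgebraicClosure ℚ_[p])} {v : AlgebraicClosure ℚ_[p] → ℚ}
    {Δ : Set (AlgebraicClosure ℚ_[p] ≃+* AlgebraicClosure ℚ_[p])}
    {Ω : Type*} [Field Ω] [CharZero Ω] [IsAlgClosed Ω] [Algebra.IsAlgebraic ℚ Ω] {j : M →+* Ω}
    {R : Finset Ω} {N : Set ℕ} (C : Core3 ψ D cl bar e u₀ ρ p σ q F φ μ ν v Δ j R N)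

include C

/-- Local data at `p`. -/
theorem Core3.ld (b : Fin m)
    {n : ℕ} {a : Fin n → Ω} (ha : Function.Injective a)
    (hroot : ∀ y : Ω, (F b).eval₂ j y = 0 ↔ ∃ k, y = a k)
    {P : Module.End ℚ (YS a)} (hP : Sp P) (hg : GoodN (cl b) P) (i : Ω →+* AlgebraicClosure ℚ_[p]) :
    ∃ (u r : Fin n → AlgebraicClosure ℚ_[p]), LD P a i u r := by
  obtain ⟨H₀, U, V, -, hL⟩ := C.locp b ha hroot i
  have hc : Comp (LcN (ψ.map (algebraMap ℚ (AlgebraicClosure ℚ_[p])))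
      (img (AlgebraicClosure ℚ_[p]) (ρ p) H₀) U V) P :=
    hg (AlgebraicClosure ℚ_[p]) _ hL.ts hL.cls hL.yo
  obtain ⟨u, r, t, hPT⟩ := gen_PT hL hP hc C.crys.phigen
  rw [cmp_phi hL.VU hL.ec, phi_diag] at hPT
  have hne : Nonempty (Fin n) := ⟨⟨0, hL.pos⟩⟩
  obtain ⟨u₀, r₀, hu, hr, fu, fr, hprod⟩ := Pool.Agent.H76Y.PT_diag hL.ts hL.yo hP hc hL.ec.inj hPT
  exact ⟨u₀, r₀, ⟨hprod, fu, fr⟩⟩

/-- The eigenvalues are not zero. -/
theorem Core3.ne (b : Fin m) {n : ℕ} {a : Fin n → Ω}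
    (hroot : ∀ y : Ω, (F b).eval₂ j y = 0 ↔ ∃ k, y = a k) (k : Fin n) : a k ≠ 0 := by
  let i : Ω →+* AlgebraicClosure ℚ_[p] := (IsAlgClosed.lift : Ω →ₐ[ℚ] AlgebraicClosure ℚ_[p]).toRingHom
  intro h0
  exact w1_ne C i b ((hroot (a k)).2 ⟨k, rfl⟩) (by rw [h0, map_zero])

/-- The product of the eigenvalues. -/
theorem Core3.prod (b : Fin m)
    {n : ℕ} {a : Fin n → Ω} (ha : Function.Injective a)
    (hroot : ∀ y : Ω, (F b).eval₂ j y = 0 ↔ ∃ k, y = a k) : (∏ k, a k) ^ 2 = algebraMap ℚ Ω q ^ n := by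
  let i : Ω →+* AlgebraicClosure ℚ_[p] := (IsAlgClosed.lift : Ω →ₐ[ℚ] AlgebraicClosure ℚ_[p]).toRingHom
  obtain ⟨H₀, U, V, -, hL⟩ := C.locp b ha hroot i
  apply i.injective
  have h1 := hL.prod
  rw [map_pow, map_prod, h1, map_pow, eq_ratCast, eq_ratCast, map_ratCast]

end Pool.Agent.H76Z
end

-- from Lib.H76Z.W4
section

/-!
# W4: reciprocity
-/

set_option autoImplicit false
set_option linter.unusedSectionVars false
namespace Pool.Agent.H76Z
open Pool.Agent.H76Y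
open Pool.Agent.H76P Pool.Agent.H76V Pool.Agent.H76Q
open Module Matrix Polynomial Pool.Agent.H53Toric
open Pool.Agent.H76P
open Pool.Agent.H76T (IsIdeal Fam Lc)
open Pool.Agent.H76U (cmp preL IsSplitting)
open Pool.Agent.H76RM (spanK similD)

/-- The automorphisms which fix the `n`-th roots of unity. -/
def fixMu (n : ℕ) (Ω : Type*) [Field Ω] : Subgroup (Ω ≃+* Ω) where
  carrier := {s | ∀ z : Ω, z ^ n = 1 → s z = z}
  mul_mem' := by
    intro s t hs ht z hz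
    show s (t z) = z
    rw [ht z hz, hs z hz]
  one_mem' := fun z _ => rfl
  inv_mem' := by
    intro s hs z hz
    show s.symm z = z
    rw [RingEquiv.symm_apply_eq]
    exact (hs z hz).symm

variable {ι : Type*} [Fintype ι] [DecidableEq ι] {ψ : Matrix ι ι ℚ}
    {D : Subalgebra ℚ (Matrix ι ι ℚ)} {M : Type*} [Field M] [NumberField M]
    {m : ℕ} {cl : Fin m → Cl} {bar : Fin m → Fin m} {e : Fin m → Matrix ι ι M} {u₀ : Matrix ι ι M} {G : Type*} [Group G]
    {ρ : ∀ (l : ℕ) [Fact l.Prime], G →* Matrix.GeneralLinearGroup ι ℚ_[l]}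
    {p : ℕ} [Fact p.Prime] {σ : G} {q : ℚ} {F : Fin m → M[X]}
    {φ μ ν : Matrix ι ι (AlgebraicClosure ℚ_[p])} {v : AlgebraicClosure ℚ_[p] → ℚ}
    {Δ : Set (AlgebraicClosure ℚ_[p] ≃+* AlgebraicClosure ℚ_[p])}
    {Ω : Type*} [Field Ω] [CharZero Ω] [IsAlgClosed Ω] [Algebra.IsAlgebraic ℚ Ω] {j : M →+* Ω}
    {R : Finset Ω} {N : Set ℕ} (C : Core3 ψ D cl bar e u₀ ρ p σ q F φ μ ν v Δ j R N)

include C

theorem Core3.recl (b : Fin m)
    {n : ℕ} {a : Fin n → Ω} (ha : Function.Injective a)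
    (hroot : ∀ y : Ω, (F b).eval₂ j y = 0 ↔ ∃ k, y = a k)
    {P : Module.End ℚ (YS a)} (hP : Sp P) (hg : GoodN (cl b) P) {t : Fin n → Ω} (ht : Lift P a t) :
    ∃ (x : Ω → ℕ) (c : Ω), c ≠ 0 ∧ (∀ s ∈ GamP j R a P, s ∈ fixMu n Ω → s c = c) ∧
      ∏ k, t k = (∏ r ∈ R, r ^ x r) * c ^ n := by
  classical
  let i₀ : Ω →+* AlgebraicClosure ℚ_[p] := (IsAlgClosed.lift : Ω →ₐ[ℚ] AlgebraicClosure ℚ_[p]).toRingHom
  obtain ⟨H₁, U₁, V₁, -, hL₁⟩ := C.locp b ha hroot i₀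
  have : Nonempty (Fin n) := ⟨⟨0, hL₁.pos⟩⟩
  have hn := C.card b ha hroot
  obtain ⟨Γ₀, hΓ₀⟩ := exists_gam (a := a) (P := P) j R
  obtain ⟨T₀, hT₀⟩ := gam_open (a := a) (P := P) j R
  have hA := C.arith b
  rw [← hn] at hA
  have hmem : ∀ s, s ∈ Γ₀ ⊓ fixMu n Ω ↔ s ∈ GamP j R a P ∧ s ∈ fixMu n Ω := by
    intro s
    rw [Subgroup.mem_inf, hΓ₀]
  obtain ⟨x, c, hc0, hc, hprod⟩ := hA.cheb (Γ₀ ⊓ fixMu n Ω)
    ⟨T₀ ∪ (Polynomial.nthRoots n (1 : Ω)).toFinset, fun s hs => (hmem s).2 ⟨hT₀ s fun y hy =>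
      hs y (Finset.mem_union_left _ hy), fun z hz => hs z (Finset.mem_union_right _ (by
        rw [Multiset.mem_toFinset, Polynomial.mem_nthRoots hL₁.pos]
        exact hz))⟩⟩
    (fun s hs => ((hmem s).1 hs).2) (fun s hs r hr => ((hmem s).1 hs).1.2.1 r hr) (∏ k, t k) (lift_prod_ne ht)
    (by
      intro s hs
      obtain ⟨⟨-, -, σ', h1, h2⟩, -⟩ := (hmem s).1 hs
      exact lift_prod ht s σ' h1 h2)
    (by
      intro l _ hl i hdec hsq
      have hlp : l ≠ p := by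
        intro h
        apply hl
        rw [h]
        exact C.hN
      obtain ⟨H₀, U, V, hfin, hL⟩ := C.locl b ha hroot l hlp i
      have hres : ∀ τ : AlgebraicClosure ℚ_[l] ≃ₐ[ℚ_[l]] AlgebraicClosure ℚ_[l], ∃ s : Ω ≃+* Ω,
          (∀ y, τ (i y) = i (s y)) ∧ s ∈ GamP j R a P := by
        intro τ
        obtain ⟨s, hs⟩ := exists_res i τ.toRingEquiv
        exact ⟨s, hs, ((hmem s).1 (hdec τ s hs)).1⟩
      refine power_at (ρ l) hL (C.gen l) (hA.recl l hl i hsq) hP (hg _ _ hL.ts hL.cls hL.yo) ?_ ?_ ?_ ht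
      · intro τ
        ext x y
        simp
      · intro τ
        obtain ⟨s, hs, hsΓ⟩ := hres τ
        ext x y
        show τ (i (j (e b x y))) = i (j (e b x y))
        rw [hs, hsΓ.1]
      · intro τ
        obtain ⟨s, hs, hsΓ⟩ := hres τ
        obtain ⟨-, -, σ', h1, h2⟩ := hsΓ
        exact ⟨s, σ', hs, h1, h2⟩)
  exact ⟨x, c, hc0, fun s hs hs' => hc s ((hmem s).2 ⟨hs, hs'⟩), hprod⟩

end Pool.Agent.H76Z
end

-- from Lib.H76Z.F8
section

/-!
# F8: the valuation of `m` is divisible by `n` if the Hodge-Tate cocharacter is in the other factor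
-/

set_option autoImplicit false
set_option linter.unusedSectionVars false
namespace Pool.Agent.H76Z
open Pool.Agent.H76Y
open Pool.Agent.H76P Pool.Agent.H76V Pool.Agent.H76Q
open Module Matrix Pool.Agent.H53Toric
open Pool.Agent.H76T (IsIdeal Fam)
open Pool.Agent.H76U (cmp preL Lb)

variable {ι : Type*} [Fintype ι] [DecidableEq ι] {K : Type*} [Field K] [CharZero K]
  [IsAlgClosed K]

/-- PROOF. As `H76Q.even_lemma` (F8), with determinants: `int_PT`, `gen_PT`, `PT_diag`, `unr_u` give `det u = t₁`, `v t₁ = 0`, `t₁ = c ^ n * t'`, `t' = det (dg u₀) = c₀ ^ n * i (∏ t)`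
(`det_dg`, `Lift.eq_c`).  With `α` a unit entry of `U u V` and `c₃ = α⁻¹ c c₀`: `δ c₃ = c₃` for `δ ∈ Δ` (the same argument), so `v c₃ = N` is an integer, and
`0 = v t₁ = n v (c c₀) + v (i ∏ t) = n N + v (i ∏ t)`. -/
theorem even_lemma {L : Type*} [Field L] [CharZero L] [Algebra L K] {G : Type*} [Group G]
    (ρ : G →* Matrix.GeneralLinearGroup ι L) {ct : Cl} {J : Matrix ι ι K} {H₀ : Subgroup G}
    {e φ μ : Matrix ι ι K} {q : K} {n : ℕ} {U : Matrix ι (Fin n) K} {V : Matrix (Fin n) ι K}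
    {Ω : Type*} [Field Ω] [CharZero Ω] {a : Fin n → Ω} {i : Ω →+* K}
    {Y : Submodule ℚ (Fin n → ℚ)} {σ₀ : G}
    (h : LocN ct J (img K ρ H₀) (properProj K ρ) e φ q U V (fun k => i (a k)) Y)
    (hφ : φ ∈ tgen K ρ) {v : K → ℚ} (hv : IsVal v) (hev : IntMat v e) (hμ : μ ∈ properProj K ρ)
    (hμφ : μ * φ = φ * μ) {ε : Fin n → ℚ} (hε : IsHT μ φ e (fun k => i (a k)) ε)
    {P : Module.End ℚ Y} (hP : Sp P) (hc : Comp (LcN J (img K ρ H₀) U V) P)
    (hεP : FunP (1 - P) ε) (hρe : ∀ g : G, (ρ g).1.map (algebraMap L K) * e =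
      e * (ρ g).1.map (algebraMap L K)) {ξ ξ' : Matrix ι ι K} (hξ : ξ ∈ tgen K ρ)
    (hξξ : ξ * ξ' = 1)
    (hunr : ∀ I : Submodule K (Matrix ι ι K), adStable (zlie (img K ρ H₀)) I →
      (∀ X ∈ I, μ * X = X * μ) → ∀ X ∈ I,
        ((ρ σ₀)⁻¹.1.map (algebraMap L K) * (ξ * φ * ξ')) * X =
          X * ((ρ σ₀)⁻¹.1.map (algebraMap L K) * (ξ * φ * ξ')))
    (hint : (ρ σ₀).1.map (algebraMap L K) ∈ Submonoid.closure
      {x | ∃ h ∈ properProj K ρ, IntMat v h ∧ ∃ t : K, t ≠ 0 ∧ v t = 0 ∧ x = 1 + (t - 1) • h})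
    {Δ : Set (K ≃+* K)} (hfix : ∀ δ ∈ Δ, ∀ c : L, δ (algebraMap L K c) = algebraMap L K c)
    (hφΔ : ∀ δ ∈ Δ, φ.map δ = φ) (hJΔ : ∀ δ ∈ Δ, J.map δ = J) (heΔ : ∀ δ ∈ Δ, e.map δ = e)
    (hdval : ∀ x : K, x ≠ 0 → (∀ δ ∈ Δ, δ x = x) → ∃ n : ℤ, v x = n)
    (hdec : ∀ δ ∈ Δ, ∃ (s : Ω ≃+* Ω) (σ : Equiv.Perm (Fin n)), (∀ y, δ (i y) = i (s y)) ∧
      (∀ k, s (a k) = a (σ k)) ∧ StabP P σ)
    (htor : ∀ k l : Fin n, ∀ N : ℕ, N ≠ 0 → a k ^ N = a l ^ N → k = l)
    {t : Fin n → Ω} (ht : Lift P a t) : ∃ N : ℤ, v (i (∏ k, t k)) = n * N := by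
  classical
  have : Nonempty (Fin n) := ⟨⟨0, h.pos⟩⟩
  set g : Matrix ι ι K := (ρ σ₀).1.map (algebraMap L K) with hgdef
  set g' : Matrix ι ι K := (ρ σ₀)⁻¹.1.map (algebraMap L K) with hg'def
  have hgg : g * g' = 1 := by
    rw [hgdef, hg'def, ← Matrix.map_mul, ← Units.val_mul, mul_inv_cancel]
    exact Matrix.map_one _ (map_zero _) (map_one _)
  have hge : g * e = e * g := hρe σ₀
  have hg'e : g' * e = e * g' := by
    have h1 := hρe σ₀⁻¹
    rwa [map_inv] at h1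
  have hφe : φ * e = e * φ := h.ex.symm
  have hξe : ξ * e = e * ξ := cmp_comm h hξ
  have hξ'e : ξ' * e = e * ξ' := by
    have h0 : ξ' * ξ = 1 := _root_.mul_eq_one_comm.1 hξξ
    calc ξ' * e = ξ' * (e * (ξ * ξ')) := by rw [hξξ, Matrix.mul_one]
      _ = ξ' * ((e * ξ) * ξ') := by rw [Matrix.mul_assoc e ξ ξ']
      _ = ξ' * ((ξ * e) * ξ') := by rw [hξe]
      _ = (ξ' * ξ) * (e * ξ') := by simp only [Matrix.mul_assoc]
      _ = e * ξ' := by rw [h0, Matrix.one_mul]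
  have hmul : ∀ A B : Matrix ι ι K, B * e = e * B → phi (cmp U V (A * B)) = phi (cmp U V A) * phi (cmp U V B) := by
    intro A B hB
    rw [Pool.Agent.H76U.cmp_mul h.UV h.VU hB, map_mul]
  have hone : phi (cmp U V (1 : Matrix ι ι K)) = 1 := by
    rw [Pool.Agent.H76U.cmp_one h.UV h.VU, map_one]
  -- the pure tensors
  obtain ⟨u, u', r, t₁, hX, hvt, huu, hA, hB⟩ := int_PT h hv hev hP hc hint
  obtain ⟨w, r', t', hΦ⟩ := gen_PT h hP hc hφ
  obtain ⟨y, r'', t'', hΞ⟩ := gen_PT h hP hc hξ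
  have hcphi : phi (cmp U V φ) = dg (fun k => i (a k)) := by
    rw [H76P.cmp_phi h.VU h.ec, H76P.phi_diag]
  rw [hcphi] at hΦ
  obtain ⟨u₀, r₀, rfl, rfl, hfu, hfr, hprod⟩ := Pool.Agent.H76Y.PT_diag h.ts h.yo hP hc h.ec.inj hΦ
  have hia0 : ∀ k, i (a k) ≠ 0 := h.ec.ne
  have ha0 : ∀ k, a k ≠ 0 := fun k hk => hia0 k (by rw [hk, map_zero])
  have hLD : LD P a i u₀ r₀ := ⟨hprod, hfu, hfr⟩
  obtain ⟨c₀, hc₀, hu₀, hpu⟩ := Lift.prod_eq ht ha0 hP hLD
  have ht'm : t' = c₀ ^ n * i (∏ k, t k) := by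
    rw [← hΦ.2.2.2.2.1, det_dg, hpu, Fintype.card_fin]
  -- the relation between `u` and `w`
  have hz : ∀ A ∈ AZ (LcN J (img K ρ H₀) U V) P,
      (phi (cmp U V g') * (phi (cmp U V ξ) * dg (fun k => i (a k)) * phi (cmp U V ξ'))) * A =
        A * (phi (cmp U V g') * (phi (cmp U V ξ) * dg (fun k => i (a k)) * phi (cmp U V ξ'))) := by
    have h1 : phi (cmp U V (g' * (ξ * φ * ξ'))) =
        phi (cmp U V g') * (phi (cmp U V ξ) * dg (fun k => i (a k)) * phi (cmp U V ξ')) := by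
      have h2 : (ξ * φ * ξ') * e = e * (ξ * φ * ξ') := by
        calc (ξ * φ * ξ') * e = ξ * φ * (ξ' * e) := by rw [Matrix.mul_assoc]
          _ = ξ * φ * (e * ξ') := by rw [hξ'e]
          _ = ξ * (φ * e) * ξ' := by simp only [Matrix.mul_assoc]
          _ = ξ * (e * φ) * ξ' := by rw [hφe]
          _ = (ξ * e) * φ * ξ' := by simp only [Matrix.mul_assoc]
          _ = (e * ξ) * φ * ξ' := by rw [hξe]
          _ = e * (ξ * φ * ξ') := by simp only [Matrix.mul_assoc]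
      rw [hmul _ _ h2, hmul _ _ hξ'e, hmul _ _ hφe, hcphi]
    rw [← h1]
    refine unr_comm h hμ hμφ hε hP hc hεP ?_ hunr
    calc g' * (ξ * φ * ξ') * e = g' * (ξ * φ * (ξ' * e)) := by simp only [Matrix.mul_assoc]
      _ = g' * (ξ * φ * (e * ξ')) := by rw [hξ'e]
      _ = g' * (ξ * (φ * e) * ξ') := by simp only [Matrix.mul_assoc]
      _ = g' * (ξ * (e * φ) * ξ') := by rw [hφe]
      _ = g' * ((ξ * e) * φ * ξ') := by simp only [Matrix.mul_assoc]
      _ = g' * ((e * ξ) * φ * ξ') := by rw [hξe]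
      _ = (g' * e) * (ξ * φ * ξ') := by simp only [Matrix.mul_assoc]
      _ = (e * g') * (ξ * φ * ξ') := by rw [hg'e]
      _ = e * (g' * (ξ * φ * ξ')) := by simp only [Matrix.mul_assoc]
  have hΞΞ : phi (cmp U V ξ) * phi (cmp U V ξ') = 1 := by
    rw [← hmul _ _ hξ'e, hξξ, hone]
  have hXX : phi (cmp U V g) * phi (cmp U V g') = 1 := by
    rw [← hmul _ _ hg'e, hgg, hone]
  obtain ⟨c, y', hc0, hyy, hu, ht₁⟩ := Pool.Agent.H76Y.unr_u h.ts h.yo hP hc hX hΦ hΞ hΞΞ hXX hz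
  -- the unit entry
  have hUV : U * V * (U * V) = U * V := by
    calc U * V * (U * V) = U * (V * U) * V := by simp only [Matrix.mul_assoc]
      _ = U * V := by rw [h.VU, Matrix.mul_one]
  have he : e * e = e := by rw [h.UV, hUV]
  have he0 : e ≠ 0 := by
    intro h0
    have h1 : V * e * U = 1 := by
      rw [h.UV]
      calc V * (U * V) * U = (V * U) * (V * U) := by simp only [Matrix.mul_assoc]
        _ = 1 := by rw [h.VU, Matrix.one_mul]
    rw [h0, Matrix.mul_zero, Matrix.zero_mul] at h1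
    exact zero_ne_one h1
  have hAB : (U * LinearMap.toMatrix' u * V) * (U * LinearMap.toMatrix' u' * V) = e := by
    calc (U * LinearMap.toMatrix' u * V) * (U * LinearMap.toMatrix' u' * V) =
          U * LinearMap.toMatrix' u * (V * U) * LinearMap.toMatrix' u' * V := by simp only [Matrix.mul_assoc]
      _ = U * (LinearMap.toMatrix' u * LinearMap.toMatrix' u') * V := by
          rw [h.VU, Matrix.mul_one]
          simp only [Matrix.mul_assoc]
      _ = U * LinearMap.toMatrix' (u * u') * V := by rw [LinearMap.toMatrix'_mul]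
      _ = e := by
          rw [huu, LinearMap.toMatrix'_one, Matrix.mul_one, h.UV]
  obtain ⟨k₀, l₀, hA0, hvA⟩ := exists_unit_entry hv he he0 hA hB hAB
  set α : K := (U * LinearMap.toMatrix' u * V) k₀ l₀ with hα
  set u₁ : Module.End K (Fin n → K) := α⁻¹ • u with hu₁
  set c₃ : K := α⁻¹ * c * c₀ with hc₃
  have hc₃0 : c₃ ≠ 0 := mul_ne_zero (mul_ne_zero (inv_ne_zero hA0) hc0) hc₀
  have hu₁' : u₁ = (α⁻¹ * c) • (y * dg u₀ * y') := by rw [hu₁, hu, smul_smul]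
  have hspec : ∀ l, ¬ IsUnit (u₁ - l • 1) ↔ ∃ k, l = c₃ * i (t k) := by
    intro l
    rw [Pool.Agent.H76Y.spec_conj hyy hu₁' l]
    refine exists_congr fun k => ?_
    rw [hu₀ k, hc₃, mul_assoc (α⁻¹ * c)]
  have hfixc : ∀ δ ∈ Δ, δ c₃ = c₃ := by
    intro δ hδ
    obtain ⟨s, π, hs, hsa, hst⟩ := hdec δ hδ
    have hσ : ∀ k, δ (i (a k)) = i (a (π k)) := fun k => by rw [hs, hsa]
    have hfg : ∀ γ : G, ((ρ γ).1.map (algebraMap L K)).map δ = (ρ γ).1.map (algebraMap L K) := by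
      intro γ
      ext k l
      exact hfix δ hδ _
    obtain ⟨θ, hθ, hθU⟩ := exists_theta h (heΔ δ hδ) (hφΔ δ hδ) (hJΔ δ hδ)
      (by rintro _ ⟨γ, -, rfl⟩; exact hfg γ) hσ
    -- `θ` fixes the operator of `g`
    have hθX : θ (phi (cmp U V g)) = phi (cmp U V g) := by
      have h1 := hθU (phi (cmp U V g))
      have h2 : LinearMap.toMatrix' (phi (cmp U V g)) = cmp U V g := LinearMap.toMatrix'_toLin' _
      have h3 : U * cmp U V g * V = g * e := by
        rw [Pool.Agent.H76U.P_cmp h.UV h.VU hge, Matrix.mul_assoc, ← h.UV]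
      rw [h2, h3] at h1
      have h4 : (g * e).map δ = g * e := by
        rw [Matrix.map_mul, heΔ δ hδ, hgdef]
        rw [hfg σ₀]
      rw [h4] at h1
      have h5 : V * (g * e) * U = LinearMap.toMatrix' (θ (phi (cmp U V g))) := by
        rw [h1]
        calc V * (U * LinearMap.toMatrix' (θ (phi (cmp U V g))) * V) * U =
            (V * U) * LinearMap.toMatrix' (θ (phi (cmp U V g))) * (V * U) := by simp only [Matrix.mul_assoc]
          _ = _ := by rw [h.VU, Matrix.mul_one, Matrix.one_mul]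
      have h6 : V * (g * e) * U = cmp U V g := by
        rw [← h3]
        calc V * (U * cmp U V g * V) * U = (V * U) * cmp U V g * (V * U) := by simp only [Matrix.mul_assoc]
          _ = _ := by rw [h.VU, Matrix.mul_one, Matrix.one_mul]
      rw [h6] at h5
      exact (LinearMap.toMatrix'.injective (h2.trans h5)).symm
    have hpt := hθ.pt h.yo hst hX
    rw [hθX] at hpt
    obtain ⟨c', hc', hθu, -⟩ := PT_unique h.ts h.yo hP hc hX hpt
    have hδα : δ α = c' * α := by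
      have h1 := congrFun (congrFun (hθU u) k₀) l₀
      rw [Matrix.map_apply] at h1
      rw [hα, h1, hθu, map_smul, Matrix.mul_smul, Matrix.smul_mul, Matrix.smul_apply, smul_eq_mul]
    have hθu₁ : θ u₁ = u₁ := by
      rw [hu₁, hθ.smul, hθu, map_inv₀, hδα, smul_smul]
      have h1 : (c' * α)⁻¹ * c' = α⁻¹ := by
        field_simp
      rw [h1]
    have hζ : ∀ k, ∃ k', (δ c₃ / c₃) * i (t k) = i (t k') := by
      intro k
      have h1 : ¬ IsUnit (u₁ - (c₃ * i (t (π.symm k))) • 1) := (hspec _).2 ⟨_, rfl⟩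
      obtain ⟨k', hk'⟩ := (hspec _).1 (hθ.spec hθu₁ _ h1)
      refine ⟨k', ?_⟩
      have h2 : s (t (π.symm k)) = t k := by
        rw [ht.eqv s π hsa hst, Equiv.apply_symm_apply]
      rw [map_mul, hs, h2] at hk'
      rw [div_mul_eq_mul_div, hk', mul_div_assoc, mul_div_cancel₀]
      exact hc₃0
    have h1 := zeta_one ht ha0 hP htor i hζ
    exact (div_eq_one_iff_eq hc₃0).1 h1
  obtain ⟨N, hN⟩ := hdval c₃ hc₃0 hfixc
  -- the valuation
  have him0 : i (∏ k, t k) ≠ 0 := (_root_.map_ne_zero i).2 (lift_prod_ne ht)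
  have hcc : v (c * c₀) = N := by
    have h1 : c * c₀ = α * c₃ := by
      rw [hc₃]
      field_simp
    rw [h1, hv.mul _ _ hA0 hc₃0, hvA, hN, zero_add]
  have ht₁' : t₁ = (c * c₀) ^ n * i (∏ k, t k) := by
    rw [ht₁, ht'm, Fintype.card_fin, mul_pow]
    ring
  have hcc0 : c * c₀ ≠ 0 := mul_ne_zero hc0 hc₀
  have hpow : ∀ k : ℕ, v ((c * c₀) ^ k) = k * v (c * c₀) := by
    intro k
    induction k with
    | zero => rw [pow_zero, (f1_one hv).1, Nat.cast_zero, zero_mul]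
    | succ k ih =>
      rw [pow_succ, hv.mul _ _ (pow_ne_zero k hcc0) hcc0, ih, Nat.cast_succ]
      ring
  rw [ht₁', hv.mul _ _ (pow_ne_zero n hcc0) him0, hpow, hcc] at hvt
  refine ⟨-N, ?_⟩
  push_cast
  linarith

end Pool.Agent.H76Z
end

-- from Lib.H76Z.W5
section

/-!
# W5: inertia
-/

set_option autoImplicit false
set_option linter.unusedSectionVars false
namespace Pool.Agent.H76Z
open Pool.Agent.H76Y
open Pool.Agent.H76P Pool.Agent.H76V Pool.Agent.H76Q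
open Module Matrix Polynomial Pool.Agent.H53Toric
open Pool.Agent.H76P
open Pool.Agent.H76T (IsIdeal Fam Lc)
open Pool.Agent.H76U (cmp preL IsSplitting)
open Pool.Agent.H76RM (spanK similD)

variable {ι : Type*} [Fintype ι] [DecidableEq ι] {ψ : Matrix ι ι ℚ}
    {D : Subalgebra ℚ (Matrix ι ι ℚ)} {M : Type*} [Field M] [NumberField M]
    {m : ℕ} {cl : Fin m → Cl} {bar : Fin m → Fin m} {e : Fin m → Matrix ι ι M} {u₀ : Matrix ι ι M} {G : Type*} [Group G]
    {ρ : ∀ (l : ℕ) [Fact l.Prime], G →* Matrix.GeneralLinearGroup ι ℚ_[l]}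
    {p : ℕ} [Fact p.Prime] {σ : G} {q : ℚ} {F : Fin m → M[X]}
    {φ μ ν : Matrix ι ι (AlgebraicClosure ℚ_[p])} {v : AlgebraicClosure ℚ_[p] → ℚ}
    {Δ : Set (AlgebraicClosure ℚ_[p] ≃+* AlgebraicClosure ℚ_[p])}
    {Ω : Type*} [Field Ω] [CharZero Ω] [IsAlgClosed Ω] [Algebra.IsAlgebraic ℚ Ω] {j : M →+* Ω}
    {R : Finset Ω} {N : Set ℕ} (C : Core3 ψ D cl bar e u₀ ρ p σ q F φ μ ν v Δ j R N)

include C

theorem Core3.inert (b : Fin m)
    {n : ℕ} {a : Fin n → Ω} (ha : Function.Injective a)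
    (hroot : ∀ y : Ω, (F b).eval₂ j y = 0 ↔ ∃ k, y = a k)
    {P : Module.End ℚ (YS a)} (hP : Sp P) (hg : GoodN (cl b) P) (i : Ω →+* AlgebraicClosure ℚ_[p])
    {δ : AlgebraicClosure ℚ_[p] ≃+* AlgebraicClosure ℚ_[p]} (hδ : δ ∈ Δ) :
    ∃ (s : Ω ≃+* Ω) (π : Equiv.Perm (Fin n)), (∀ y, δ (i y) = i (s y)) ∧
      (∀ k, s (a k) = a (π k)) ∧ StabP P π ∧ s ∈ GamP j R a P ∧ s ∈ fixMu n Ω := by
  obtain ⟨H₀, U, V, hH₀, h⟩ := C.locp b ha hroot i
  obtain ⟨s, hs⟩ := exists_res i δ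
  have hsj : ∀ c, s (j c) = j c := by
    intro c
    apply i.injective
    rw [← hs]
    exact C.crys.dM δ hδ (i.comp j) c
  have hsR : ∀ r ∈ R, s r = r := by
    intro r hr
    apply i.injective
    rw [← hs]
    exact C.Rfix i r hr δ hδ
  obtain ⟨π, hπ⟩ := exists_perm ha hroot hsj
  have he : ((e b).map (i.comp j)).map δ = (e b).map (i.comp j) := by
    ext k l
    simp only [Matrix.map_apply]
    exact C.crys.dM δ hδ (i.comp j) _
  have hS : ∀ s ∈ img (AlgebraicClosure ℚ_[p]) (ρ p) H₀, s.map δ = s := by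
    rintro _ ⟨g, -, rfl⟩
    ext k l
    simp only [Matrix.map_apply]
    exact C.crys.dfix δ hδ _
  obtain ⟨θ, hθ, hθU⟩ := exists_theta h (τ := δ) he (C.crys.dphi δ hδ) (w5_mapQ δ ψ) hS
    (σ := π) (fun k => by rw [hs, hπ])
  have hI := theta_ideal h he hθ hθU
    (fun I hI1 hI2 X hX Y hY => C.crys.dideal δ hδ H₀ hH₀ I hI1 hI2 X hX Y hY)
  have hcomp : Comp (LcN (ψ.map (algebraMap ℚ (AlgebraicClosure ℚ_[p])))
      (img (AlgebraicClosure ℚ_[p]) (ρ p) H₀) U V) P := hg _ _ h.ts h.cls h.yo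
  have hstab := stab_of_theta h hθ hP hcomp hI
  refine ⟨s, π, hs, hπ, hstab, ⟨hsj, hsR, π, hπ, hstab⟩, fun z hz => ?_⟩
  apply i.injective
  rw [← hs]
  refine C.munr b δ hδ (i z) ?_
  rw [← C.card b ha hroot, ← map_pow, hz, map_one]

theorem Core3.int_val (b : Fin m)
    {n : ℕ} {a : Fin n → Ω} (ha : Function.Injective a)
    (hroot : ∀ y : Ω, (F b).eval₂ j y = 0 ↔ ∃ k, y = a k)
    {P : Module.End ℚ (YS a)} (hP : Sp P) (hg : GoodN (cl b) P) (i : Ω →+* AlgebraicClosure ℚ_[p])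
    {c : Ω} (hc0 : c ≠ 0) (hc : ∀ s ∈ GamP j R a P, s ∈ fixMu n Ω → s c = c) : ∃ n : ℤ, v (i c) = n := by
  refine C.crys.dval (i c) ?_ (fun δ hδ => ?_)
  · rw [Ne, map_eq_zero]
    exact hc0
  · obtain ⟨s, π, hs, _, _, hsG, hsμ⟩ := C.inert b ha hroot hP hg i hδ
    rw [hs, hc s hsG hsμ]

theorem Core3.even (b : Fin m)
    {n : ℕ} {a : Fin n → Ω} (ha : Function.Injective a)
    (hroot : ∀ y : Ω, (F b).eval₂ j y = 0 ↔ ∃ k, y = a k)
    {P : Module.End ℚ (YS a)} (hP : Sp P) (hg : GoodN (cl b) P) {t : Fin n → Ω} (ht : Lift P a t)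
    (i : Ω →+* AlgebraicClosure ℚ_[p])
    {ε : Fin n → ℚ} (hε : IsHT μ φ ((e b).map (i.comp j)) (fun k => i (a k)) ε)
    (hεP : FunP (1 - P) ε) : ∃ N : ℤ, v (i (∏ k, t k)) = n * N := by
  obtain ⟨H₀, U, V, hH₀, h⟩ := C.locp b ha hroot i
  have hcomp : Comp (LcN (ψ.map (algebraMap ℚ (AlgebraicClosure ℚ_[p])))
      (img (AlgebraicClosure ℚ_[p]) (ρ p) H₀) U V) P := hg _ _ h.ts h.cls h.yo
  obtain ⟨ξ, ξ', hξ, hξξ, hunr⟩ := C.crys.unr
  have heK : (e b).map (i.comp j) ∈ spanK (AlgebraicClosure ℚ_[p]) D :=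
    H76U.spanK_map (i.comp j) (C.hspl.mem b)
  have hρe : ∀ g : G, (ρ p g).1.map (algebraMap ℚ_[p] (AlgebraicClosure ℚ_[p])) *
      (e b).map (i.comp j) = (e b).map (i.comp j) *
        (ρ p g).1.map (algebraMap ℚ_[p] (AlgebraicClosure ℚ_[p])) :=
    fun g => H76RM.comm_span (w1_lin C g) _ heK
  have hed : ∀ δ ∈ Δ, ((e b).map (i.comp j)).map δ = (e b).map (i.comp j) := by
    intro δ hδ
    ext k l
    simp only [Matrix.map_apply]
    exact C.crys.dM δ hδ (i.comp j) _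
  have hai : ∀ k, (F b).eval₂ j (a k) = 0 := fun k => (hroot (a k)).mpr ⟨k, rfl⟩
  refine even_lemma (ρ p) (σ₀ := σ) h C.crys.phigen C.crys.val (C.crys.eint (i.comp j) b) C.crys.mu
    C.crys.muphi hε hP hcomp hεP hρe hξ hξξ (hunr H₀ hH₀) C.crys.int C.crys.dfix C.crys.dphi
    (fun δ _ => w5_mapQ δ ψ) hed C.crys.dval ?_ ?_ ht
  · intro δ hδ
    obtain ⟨s, π, hs, hπ, hst, _⟩ := C.inert b ha hroot hP hg i hδ
    exact ⟨s, π, hs, hπ, hst⟩
  · intro k l N' hN' hkl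
    exact ha (C.tor b (hai k) (hai l) hN' hkl)

end Pool.Agent.H76Z
end

-- from Lib.H76Z.W6
section

/-!
# the Hodge-Tate type at a block
-/

set_option autoImplicit false
set_option linter.unusedSectionVars false
namespace Pool.Agent.H76Z
open Pool.Agent.H76Y
open Pool.Agent.H76P Pool.Agent.H76V Pool.Agent.H76Q
open Module Matrix Polynomial Pool.Agent.H53Toric
open Pool.Agent.H76P
open Pool.Agent.H76T (IsIdeal Fam Lc)
open Pool.Agent.H76U (cmp preL IsSplitting)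
open Pool.Agent.H76RM (spanK similD)

theorem w6y_vpow {K : Type*} [Field K] {v : K → ℚ} (hv : IsVal v) {x : K} (hx : x ≠ 0) (k : ℕ) :
    v (x ^ k) = k * v x := by
  induction k with
  | zero => rw [pow_zero, w6_v1 hv, Nat.cast_zero, zero_mul]
  | succ k ih =>
    rw [pow_succ, hv.mul _ _ (pow_ne_zero k hx) hx, ih, Nat.cast_succ]
    ring

theorem w6y_vprod {K : Type*} [Field K] {v : K → ℚ} (hv : IsVal v) {Ω : Type*} [Field Ω] (i : Ω →+* K)
    (s : Finset Ω) (x : Ω → ℕ) (hs : ∀ r ∈ s, r ^ x r ≠ 0) :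
    v (i (∏ r ∈ s, r ^ x r)) = ∑ r ∈ s, (x r : ℚ) * v (i r) := by
  classical
  induction s using Finset.induction_on with
  | empty => simp [w6_v1 hv]
  | insert a s ha ih =>
    have h1 : ∀ r ∈ s, r ^ x r ≠ 0 := fun r hr => hs r (Finset.mem_insert_of_mem hr)
    have ha0 : a ^ x a ≠ 0 := hs a (Finset.mem_insert_self a s)
    have h2 : (∏ r ∈ s, r ^ x r) ≠ 0 := Finset.prod_ne_zero_iff.2 h1
    have h3 : v (i (a ^ x a)) = x a * v (i a) := by
      by_cases h4 : x a = 0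
      · rw [h4, pow_zero, map_one, w6_v1 hv, Nat.cast_zero, zero_mul]
      · have h5 : a ≠ 0 := by
          rintro rfl
          exact ha0 (zero_pow h4)
        rw [map_pow, w6y_vpow hv ((map_ne_zero i).2 h5)]
    rw [Finset.prod_insert ha, Finset.sum_insert ha, map_mul,
      hv.mul _ _ ((map_ne_zero i).2 ha0) ((map_ne_zero i).2 h2), ih h1, h3]

variable {ι : Type*} [Fintype ι] [DecidableEq ι] {ψ : Matrix ι ι ℚ}
    {D : Subalgebra ℚ (Matrix ι ι ℚ)} {M : Type*} [Field M] [NumberField M]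
    {m : ℕ} {cl : Fin m → Cl} {bar : Fin m → Fin m} {e : Fin m → Matrix ι ι M} {u₀ : Matrix ι ι M} {G : Type*} [Group G]
    {ρ : ∀ (l : ℕ) [Fact l.Prime], G →* Matrix.GeneralLinearGroup ι ℚ_[l]}
    {p : ℕ} [Fact p.Prime] {σ : G} {q : ℚ} {F : Fin m → M[X]}
    {φ μ ν : Matrix ι ι (AlgebraicClosure ℚ_[p])} {v : AlgebraicClosure ℚ_[p] → ℚ}
    {Δ : Set (AlgebraicClosure ℚ_[p] ≃+* AlgebraicClosure ℚ_[p])}
    {Ω : Type*} [Field Ω] [CharZero Ω] [IsAlgClosed Ω] [Algebra.IsAlgebraic ℚ Ω] {j : M →+* Ω}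
    {R : Finset Ω} {N : Set ℕ} (C : Core3 ψ D cl bar e u₀ ρ p σ q F φ μ ν v Δ j R N)

include C

/-- See `H76Q.Core2.ht_iff`. -/
theorem Core3.ht_iff (b : Fin m)
    {n : ℕ} {a : Fin n → Ω} (ha : Function.Injective a)
    (hroot : ∀ y : Ω, (F b).eval₂ j y = 0 ↔ ∃ k, y = a k)
    {P : Module.End ℚ (YS a)} (hP : Sp P) (hg : GoodN (cl b) P) :
    ∃ RP ⊆ R, ∀ (i : Ω →+* AlgebraicClosure ℚ_[p]) (ε : Fin n → ℚ),
      IsHT μ φ ((e b).map (i.comp j)) (fun k => i (a k)) ε →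
        (FunP P ε ↔ ∃ r ∈ RP, v (i r) = 1) := by
  classical
  have hv : IsVal v := C.crys.val
  have i₀ : Ω →+* AlgebraicClosure ℚ_[p] :=
    (IsAlgClosed.lift (R := ℚ) (S := Ω) (M := AlgebraicClosure ℚ_[p])).toRingHom
  obtain ⟨H₀, U₀, V₀, hH₀, hl₀⟩ := C.locp b ha hroot i₀
  have : Nonempty (Fin n) := ⟨⟨0, hl₀.pos⟩⟩
  have hn0 : (n : ℚ) ≠ 0 := Nat.cast_ne_zero.2 hl₀.pos.ne'
  have ha0 : ∀ k, a k ≠ 0 := fun k h0 => hl₀.ec.ne k (by rw [h0, map_zero])
  have hsep : ∀ x y : Fin n, x ≠ y → ∃ f ∈ YS a, f x ≠ f y := by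
    intro x y hxy
    obtain ⟨f, hf, hne⟩ := hl₀.ts.sep x y hxy
    exact ⟨f, hl₀.yo ▸ hf, hne⟩
  have hg' : GoodN (cl b) (1 - P) := fun K _ _ _ L h1 h2 h3 => (hg K L h1 h2 h3).compl
  obtain ⟨u, r, hld⟩ := C.ld b ha hroot hP hg i₀
  obtain ⟨u', r', hld'⟩ := C.ld b ha hroot hP.compl hg' i₀
  obtain ⟨t, ht⟩ := exists_lift ha ha0 hP hsep hld
  obtain ⟨t', ht'⟩ := exists_lift ha ha0 hP.compl hsep hld'
  have hm0 : (∏ k, t k) ≠ 0 := lift_prod_ne ht
  have hm10 : (∏ k, t' k) ≠ 0 := lift_prod_ne ht'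
  obtain ⟨x, hx0, hxs, hxm⟩ := exists_xN ht ht' ha0 hP hld
  obtain ⟨y, c, hc0, hc, hmc⟩ := C.recl b ha hroot hP hg ht
  have hprod0 : (∏ r ∈ R, r ^ y r) ≠ 0 := by
    intro h0
    apply hm0
    rw [hmc, h0, zero_mul]
  have hR0 : ∀ r ∈ R, r ^ y r ≠ 0 := Finset.prod_ne_zero_iff.1 hprod0
  have hpa : (∏ k, a k) ^ 2 = algebraMap ℚ Ω q ^ n := C.prod b ha hroot
  refine ⟨R.filter fun r => ¬ n ∣ y r, Finset.filter_subset _ _, fun i ε hε => ?_⟩
  obtain ⟨H₁, U, V, hH₁, hl⟩ := C.locp b ha hroot i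
  have hcomp : Comp (LcN _ _ U V) P := hg _ _ hl.ts hl.cls hl.yo
  obtain ⟨r₀, hr₀, hr1, hr2⟩ := C.Rval i
  obtain ⟨n₁, hn₁⟩ := C.int_val b ha hroot hP hg i hc0 hc
  have hi : ∀ {z : Ω}, z ≠ 0 → i z ≠ 0 := fun hz => (map_ne_zero i).2 hz
  have hrat : i (algebraMap ℚ Ω q) = algebraMap ℚ (AlgebraicClosure ℚ_[p]) q := by
    rw [eq_ratCast, eq_ratCast, map_ratCast]
  have hpa0 : (∏ k, a k) ≠ 0 := Finset.prod_ne_zero_iff.2 fun k _ => ha0 k
  have hq0 : algebraMap ℚ Ω q ≠ 0 := by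
    intro h0
    rw [h0, zero_pow hl₀.pos.ne'] at hpa
    exact pow_ne_zero 2 hpa0 hpa
  have hva : 2 * v (i (∏ k, a k)) = n := by
    have h1 := w6y_vpow hv (hi hpa0) 2
    rw [← map_pow, hpa, map_pow, w6y_vpow hv (hi hq0), hrat, C.vq] at h1
    push_cast at h1
    linarith
  -- the value of `i (∏ t)`
  have hvm : v (i (∏ k, t k)) = y r₀ + n * n₁ := by
    rw [hmc, map_mul, map_pow, hv.mul _ _ (hi hprod0) (pow_ne_zero n (hi hc0)), w6y_vprod hv i R y hR0,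
      w6y_vpow hv (hi hc0), hn₁, Finset.sum_eq_single_of_mem r₀ hr₀, hr1, mul_one]
    intro r hr hne
    rw [hr2 r hr hne, mul_zero]
  have hex : (∃ r ∈ R.filter fun r => ¬ n ∣ y r, v (i r) = 1) ↔ ¬ n ∣ y r₀ := by
    constructor
    · rintro ⟨r, hr, hr'⟩
      obtain ⟨hrR, hrn⟩ := Finset.mem_filter.1 hr
      have hne : r = r₀ := by
        by_contra hne
        rw [hr2 r hrR hne] at hr'
        exact zero_ne_one hr'
      rw [← hne]
      exact hrn
    · intro h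
      exact ⟨r₀, Finset.mem_filter.2 ⟨hr₀, h⟩, hr1⟩
  -- first case
  have hcase1 : FunP (1 - P) ε → n ∣ y r₀ := by
    intro hε1
    obtain ⟨n₂, hn₂⟩ := C.even b ha hroot hP hg ht i hε hε1
    rw [hvm] at hn₂
    have h3 : (y r₀ : ℤ) = n * (n₂ - n₁) := by
      have h4 : ((y r₀ : ℤ) : ℚ) = ((n * (n₂ - n₁) : ℤ) : ℚ) := by
        push_cast
        linarith
      exact_mod_cast h4
    exact Int.natCast_dvd_natCast.1 ⟨_, h3⟩
  -- second case
  have hcase2 : FunP P ε → ¬ n ∣ y r₀ := by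
    intro hε1 hdiv
    have hε2 : FunP (1 - (1 - P)) ε := by
      have h1 : (1 - (1 - P) : Module.End ℚ (YS a)) = P := sub_sub_cancel 1 P
      rw [h1]
      exact hε1
    obtain ⟨n₂, hn₂⟩ := C.even b ha hroot hP.compl hg' ht' i hε hε2
    have hxG : ∀ s ∈ GamP j R a P, s ∈ fixMu n Ω → s x = x := by
      rintro s ⟨-, -, π, hπ, hst⟩ -
      exact hxs s π hπ hst
    obtain ⟨n₃, hn₃⟩ := C.int_val b ha hroot hP hg i hx0 hxG
    have h4 : v (i (∏ k, t k)) + v (i (∏ k, t' k)) = n * v (i x) + v (i (∏ k, a k)) := by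
      rw [← hv.mul _ _ (hi hm0) (hi hm10), ← map_mul, hxm, Fintype.card_fin, map_mul,
        map_pow, hv.mul _ _ (pow_ne_zero n (hi hx0)) (hi hpa0), w6y_vpow hv (hi hx0)]
    obtain ⟨w, hw⟩ := hdiv
    rw [hvm, hn₂, hn₃, hw] at h4
    push_cast at h4
    have h5 : (n : ℚ) * (2 * (w + n₁ + n₂ - n₃) - 1) = 0 := by linarith
    have h6 : (2 * ((w : ℚ) + n₁ + n₂ - n₃) - 1) = 0 := (mul_eq_zero.1 h5).resolve_left hn0
    have h7 : (2 * ((w : ℤ) + n₁ + n₂ - n₃) - 1) = 0 := by exact_mod_cast h6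
    omega
  rw [hex]
  constructor
  · exact hcase2
  · intro hmem
    rcases HT_or hl C.crys.mu C.crys.muphi hε hcomp with h | h
    · exact h
    · exact absurd (hcase1 h) hmem

end Pool.Agent.H76Z
end

-- from Lib.H76Z.W8
section

/-!
# linked idempotents
-/

set_option autoImplicit false
set_option linter.unusedSectionVars false
namespace Pool.Agent.H76Z
open Pool.Agent.H76Y
open Pool.Agent.H76P Pool.Agent.H76V Pool.Agent.H76Q
open Module Matrix Polynomial Pool.Agent.H53Toric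
open Pool.Agent.H76P
open Pool.Agent.H76T (IsIdeal Fam Lc)
open Pool.Agent.H76U (cmp preL IsSplitting)
open Pool.Agent.H76RM (spanK similD)

variable {ι : Type*} [Fintype ι] [DecidableEq ι] {ψ : Matrix ι ι ℚ}
    {D : Subalgebra ℚ (Matrix ι ι ℚ)} {M : Type*} [Field M] [NumberField M]
    {m : ℕ} {cl : Fin m → Cl} {bar : Fin m → Fin m} {e : Fin m → Matrix ι ι M} {u₀ : Matrix ι ι M} {G : Type*} [Group G]
    {ρ : ∀ (l : ℕ) [Fact l.Prime], G →* Matrix.GeneralLinearGroup ι ℚ_[l]}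
    {p : ℕ} [Fact p.Prime] {σ : G} {q : ℚ} {F : Fin m → M[X]}
    {φ μ ν : Matrix ι ι (AlgebraicClosure ℚ_[p])} {v : AlgebraicClosure ℚ_[p] → ℚ}
    {Δ : Set (AlgebraicClosure ℚ_[p] ≃+* AlgebraicClosure ℚ_[p])}
    {Ω : Type*} [Field Ω] [CharZero Ω] [IsAlgClosed Ω] [Algebra.IsAlgebraic ℚ Ω] {j : M →+* Ω}
    {R : Finset Ω} {N : Set ℕ} (C : Core3 ψ D cl bar e u₀ ρ p σ q F φ μ ν v Δ j R N)

include C

theorem Core3.w8_lin (s : G) : ∀ d ∈ D, (ρ p s).1.map (algebraMap ℚ_[p] (AlgebraicClosure ℚ_[p])) *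
    d.map (algebraMap ℚ (AlgebraicClosure ℚ_[p])) =
      d.map (algebraMap ℚ (AlgebraicClosure ℚ_[p])) *
        (ρ p s).1.map (algebraMap ℚ_[p] (AlgebraicClosure ℚ_[p])) := by
  intro d hd
  have h1 := congrArg (fun m : Matrix ι ι ℚ_[p] =>
    m.map (algebraMap ℚ_[p] (AlgebraicClosure ℚ_[p]))) (C.lin p s d hd)
  have h2 : (d.map (algebraMap ℚ ℚ_[p])).map (algebraMap ℚ_[p] (AlgebraicClosure ℚ_[p])) =
      d.map (algebraMap ℚ (AlgebraicClosure ℚ_[p])) := by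
    ext i j
    simp
  simp only [Matrix.map_mul] at h1
  rw [h2] at h1
  exact h1

theorem Core3.w8_img (H : Subgroup G) {s : Matrix ι ι (AlgebraicClosure ℚ_[p])}
    (hs : s ∈ img (AlgebraicClosure ℚ_[p]) (ρ p) H) {d : Matrix ι ι (AlgebraicClosure ℚ_[p])}
    (hd : d ∈ spanK (AlgebraicClosure ℚ_[p]) D) : s * d = d * s := by
  obtain ⟨g, -, rfl⟩ := hs
  exact H76RM.comm_span (C.w8_lin g) d hd

theorem Core3.w8_phi {d : Matrix ι ι (AlgebraicClosure ℚ_[p])}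
    (hd : d ∈ spanK (AlgebraicClosure ℚ_[p]) D) : φ * d = d * φ :=
  H76RM.zar_commute (fun _ hs => C.w8_img ⊤ hs hd) (C.frobp.idc.2 ⊤ inferInstance)

theorem Core3.w8_mu {d : Matrix ι ι (AlgebraicClosure ℚ_[p])}
    (hd : d ∈ spanK (AlgebraicClosure ℚ_[p]) D) : μ * d = d * μ := by
  have h1 := C.crys.mu.1.2 2 two_ne_zero
  have h2 := H76RM.zar_commute (fun _ hs => C.w8_img ⊤ hs hd) h1
  rw [add_mul, mul_add, one_mul, mul_one, smul_mul_assoc, mul_smul_comm] at h2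
  have h3 := add_left_cancel h2
  have h4 : ((2 : AlgebraicClosure ℚ_[p]) - 1) = 1 := by norm_num
  rwa [h4, one_smul, one_smul] at h3

/-- The operator `E' d` is injective on the range of `e`. -/
theorem Core3.w8_key (b : Fin m) {n : ℕ} {a : Fin n → Ω} (ha : Function.Injective a)
    (hroot : ∀ y : Ω, (F b).eval₂ j y = 0 ↔ ∃ k, y = a k) (i : Ω →+* AlgebraicClosure ℚ_[p])
    {T : Matrix ι ι (AlgebraicClosure ℚ_[p])}
    (hT : ∀ A : Matrix ι ι (AlgebraicClosure ℚ_[p]),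
      (∀ d ∈ spanK (AlgebraicClosure ℚ_[p]) D, A * d = d * A) → A * T = T * A)
    (hne : T * (e b).map (i.comp j) ≠ 0) {z : ι → AlgebraicClosure ℚ_[p]}
    (hz0 : z ≠ 0) (hz : (e b).map (i.comp j) *ᵥ z = z) : T *ᵥ z ≠ 0 := by
  obtain ⟨H₀, U, V, hfin, h⟩ := C.locp b ha hroot i
  have hE : (e b).map (i.comp j) ∈ spanK (AlgebraicClosure ℚ_[p]) D :=
    H76U.spanK_map (i.comp j) (C.hspl.mem b)
  have h1S : (1 : Matrix ι ι (AlgebraicClosure ℚ_[p])) ∈
      img (AlgebraicClosure ℚ_[p]) (ρ p) H₀ := by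
    refine ⟨1, H₀.one_mem, ?_⟩
    rw [map_one]
    simp
  set W : Submodule (AlgebraicClosure ℚ_[p]) (Fin n → AlgebraicClosure ℚ_[p]) :=
    LinearMap.ker (Matrix.mulVecLin (T * U)) with hW
  have hmem : ∀ w, w ∈ W ↔ (T * U) *ᵥ w = 0 := fun w => by
    rw [hW, LinearMap.mem_ker, Matrix.mulVecLin_apply]
  have hirr := h.ts.cmp.irr W (by
    intro X hX w hw
    rw [hmem] at hw ⊢
    obtain ⟨_, ⟨A, hA, rfl⟩, hX2⟩ := hX.1
    rw [← hX2]
    have hcomm : ∀ d ∈ spanK (AlgebraicClosure ℚ_[p]) D, A * d = d * A := fun d hd =>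
      H76U.preL_commute h1S (fun s hs => C.w8_img H₀ hs hd) hA
    show (T * U) *ᵥ ((cmp U V A) *ᵥ w) = 0
    rw [Matrix.mulVec_mulVec, Matrix.mul_assoc, H76U.P_cmp h.UV h.VU (hcomm _ hE),
      ← Matrix.mul_assoc, ← hT A hcomm, Matrix.mul_assoc, ← Matrix.mulVec_mulVec, hw,
      Matrix.mulVec_zero])
  rcases hirr with h1 | h1
  · intro h2
    have h3 : V *ᵥ z ∈ W := by
      rw [hmem, Matrix.mulVec_mulVec, Matrix.mul_assoc, ← h.UV, ← Matrix.mulVec_mulVec, hz, h2]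
    rw [h1, Submodule.mem_bot] at h3
    apply hz0
    rw [← hz, h.UV, ← Matrix.mulVec_mulVec, h3, Matrix.mulVec_zero]
  · exfalso
    apply hne
    have h2 : T * U = 0 := by
      ext x y
      have h3 : Pi.single y (1 : AlgebraicClosure ℚ_[p]) ∈ W := by rw [h1]; exact Submodule.mem_top
      rw [hmem, Matrix.mulVec_single_one] at h3
      exact congrFun h3 x
    rw [h.UV, ← Matrix.mul_assoc, h2, Matrix.zero_mul]

/-- Transport of eigenvectors. -/
theorem Core3.w8_vec (b : Fin m) {n : ℕ} {a : Fin n → Ω} (ha : Function.Injective a)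
    (hroot : ∀ y : Ω, (F b).eval₂ j y = 0 ↔ ∃ k, y = a k) {s : Ω ≃+* Ω}
    (hlink : Linked D ((e b).map j) ((e b).map (s.toRingHom.comp j)))
    (i : Ω →+* AlgebraicClosure ℚ_[p]) : ∃ T : Matrix ι ι (AlgebraicClosure ℚ_[p]),
      φ * T = T * φ ∧ μ * T = T * μ ∧
      (∀ z, (e b).map ((i.comp s.symm.toRingHom).comp j) *ᵥ (T *ᵥ z) = T *ᵥ z) ∧
      ∀ z, z ≠ 0 → (e b).map (i.comp j) *ᵥ z = z → T *ᵥ z ≠ 0 := by
  obtain ⟨d, hd, hne⟩ := hlink
  set i' : Ω →+* AlgebraicClosure ℚ_[p] := i.comp s.symm.toRingHom with hi'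
  set E' := (e b).map (i'.comp j) with hE'
  have hE : E' ∈ spanK (AlgebraicClosure ℚ_[p]) D := H76U.spanK_map (i'.comp j) (C.hspl.mem b)
  have hd' : d.map i' ∈ spanK (AlgebraicClosure ℚ_[p]) D := H76U.spanK_map i' hd
  have hEE : E' * E' = E' := by
    rw [hE', ← H76U.map_mul', C.hspl.idem]
  have hT : ∀ A : Matrix ι ι (AlgebraicClosure ℚ_[p]),
      (∀ d ∈ spanK (AlgebraicClosure ℚ_[p]) D, A * d = d * A) →
        A * (E' * d.map i') = E' * d.map i' * A := by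
    intro A hA
    rw [← Matrix.mul_assoc, hA _ hE, Matrix.mul_assoc, hA _ hd', Matrix.mul_assoc]
  refine ⟨E' * d.map i', hT _ fun d hd => C.w8_phi hd, hT _ fun d hd => C.w8_mu hd, ?_, ?_⟩
  · intro z
    rw [Matrix.mulVec_mulVec, ← Matrix.mul_assoc, hEE]
  · intro z hz0 hz
    refine C.w8_key b ha hroot i hT ?_ hz0 hz
    have h1 : E' = ((e b).map j).map i' := by
      ext x y
      rfl
    have h2 : (e b).map (i.comp j) = ((e b).map (s.toRingHom.comp j)).map i' := by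
      ext x y
      simp [hi']
    rw [h1, h2, ← H76U.map_mul', ← H76U.map_mul']
    intro h3
    apply hne
    ext x y
    have h4 := congrFun (congrFun h3 x) y
    rw [Matrix.map_apply, Matrix.zero_apply] at h4
    rw [Matrix.zero_apply]
    exact (map_eq_zero i').1 h4

/-- PROOF. `E = (e b).map (i.comp j)`, `E' = (e b).map ((i.comp s⁻¹).comp j)`.  Apply `i ∘ s⁻¹` to `hlink`: `E' * d * E ≠ 0` for some `d` in the span of `D` over the closure.  The map `z ↦ E' (d z)` from the range of `E`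
to the range of `E'` is not zero and commutes with `φ`, `μ` and `zlie S` (they commute with `D`).  Its kernel is stable under `zlie S`, so zero (`Core3.locp` for `i`: `h.ts.cmp.irr`).  So eigenvectors go to eigenvectors.  `hperm`: a root `y` of `F b` gives
(`C.frobp.eig`) an eigenvalue `i y` of `φ` on the range of `E`, so on the range of `E'`, so `eval₂ (i s⁻¹ j) (i y) = 0`, i.e. `s y` is a root; `s` permutes the finite set of roots.  `IsHT` for `i s⁻¹`: the eigenvalue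
`i s⁻¹ (a (π k)) = i (a k)`. -/
theorem Core3.linked (b : Fin m)
    {n : ℕ} {a : Fin n → Ω} (ha : Function.Injective a)
    (hroot : ∀ y : Ω, (F b).eval₂ j y = 0 ↔ ∃ k, y = a k)
    {s : Ω ≃+* Ω} (hlink : Linked D ((e b).map j) ((e b).map (s.toRingHom.comp j))) :
    ∃ π : Equiv.Perm (Fin n), (∀ k, s (a k) = a (π k)) ∧
      ∀ (i : Ω →+* AlgebraicClosure ℚ_[p]) (ε : Fin n → ℚ),
        Pool.Agent.H76Q.IsHT μ φ ((e b).map (i.comp j)) (fun k => i (a k)) ε →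
        Pool.Agent.H76Q.IsHT μ φ ((e b).map ((i.comp s.symm.toRingHom).comp j))
          (fun k => i.comp s.symm.toRingHom (a k)) (fun k => ε (π.symm k)) := by
  have hmap : ∀ k, ∃ k', s (a k) = a k' := by
    intro k
    let i : Ω →+* AlgebraicClosure ℚ_[p] :=
      (IsAlgClosed.lift (R := ℚ) (S := Ω) (M := AlgebraicClosure ℚ_[p])).toRingHom
    obtain ⟨T, hTφ, -, hTE, hT0⟩ := C.w8_vec b ha hroot hlink i
    have h1 : (F b).eval₂ (i.comp j) (i (a k)) = 0 := by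
      rw [← Polynomial.hom_eval₂, (hroot _).2 ⟨k, rfl⟩, map_zero]
    obtain ⟨z, hz0, hz, hφz⟩ := (C.frobp.eig (i.comp j) b (i (a k))).2 h1
    have h2 : (F b).eval₂ ((i.comp s.symm.toRingHom).comp j) (i (a k)) = 0 := by
      apply (C.frobp.eig ((i.comp s.symm.toRingHom).comp j) b (i (a k))).1
      refine ⟨T *ᵥ z, hT0 z hz0 hz, hTE z, ?_⟩
      rw [Matrix.mulVec_mulVec, hTφ, ← Matrix.mulVec_mulVec, hφz, Matrix.mulVec_smul]
    have h3 : i (a k) = (i.comp s.symm.toRingHom) (s (a k)) := by simp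
    rw [h3, ← Polynomial.hom_eval₂, map_eq_zero] at h2
    exact (hroot _).1 h2
  choose g hg using hmap
  have hginj : Function.Injective g := by
    intro k k' hkk
    apply ha
    apply s.injective
    rw [hg, hg, hkk]
  let π : Equiv.Perm (Fin n) := Equiv.ofBijective g (Finite.injective_iff_bijective.1 hginj)
  refine ⟨π, hg, ?_⟩
  intro i ε hε k
  obtain ⟨T, hTφ, hTμ, hTE, hT0⟩ := C.w8_vec b ha hroot hlink i
  set k₀ := π.symm k with hk₀
  have hk : π k₀ = k := by rw [hk₀, Equiv.apply_symm_apply]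
  have hval : (i.comp s.symm.toRingHom) (a k) = i (a k₀) := by
    have h1 : s (a k₀) = a k := by
      rw [hg k₀, ← hk]
      rfl
    rw [← h1]
    simp
  rcases hε k₀ with ⟨h1, z, hz0, hz, hφz, hμz⟩ | ⟨h1, z, hz0, hz, hφz, hμz⟩
  · left
    refine ⟨h1, T *ᵥ z, hT0 z hz0 hz, hTE z, ?_, ?_⟩
    · show φ *ᵥ (T *ᵥ z) = ((i.comp s.symm.toRingHom) (a k)) • (T *ᵥ z)
      rw [hval, Matrix.mulVec_mulVec, hTφ, ← Matrix.mulVec_mulVec, hφz, Matrix.mulVec_smul]
    · rw [Matrix.mulVec_mulVec, hTμ, ← Matrix.mulVec_mulVec, hμz]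
  · right
    refine ⟨h1, T *ᵥ z, hT0 z hz0 hz, hTE z, ?_, ?_⟩
    · show φ *ᵥ (T *ᵥ z) = ((i.comp s.symm.toRingHom) (a k)) • (T *ᵥ z)
      rw [hval, Matrix.mulVec_mulVec, hTφ, ← Matrix.mulVec_mulVec, hφz, Matrix.mulVec_smul]
    · rw [Matrix.mulVec_mulVec, hTμ, ← Matrix.mulVec_mulVec, hμz, Matrix.mulVec_zero]

end Pool.Agent.H76Z
end

-- from Lib.H76Z.W8d
section

/-!
# automorphisms which exchange a component and its conjugate
-/

set_option autoImplicit false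
set_option linter.unusedSectionVars false
namespace Pool.Agent.H76Z
open Pool.Agent.H76Y
open Pool.Agent.H76P Pool.Agent.H76V Pool.Agent.H76Q
open Module Matrix Polynomial Pool.Agent.H53Toric
open Pool.Agent.H76P
open Pool.Agent.H76T (IsIdeal Fam Lc)
open Pool.Agent.H76U (cmp preL IsSplitting)
open Pool.Agent.H76RM (spanK similD)

variable {ι : Type*} [Fintype ι] [DecidableEq ι] {ψ : Matrix ι ι ℚ}
    {D : Subalgebra ℚ (Matrix ι ι ℚ)} {M : Type*} [Field M] [NumberField M]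
    {m : ℕ} {cl : Fin m → Cl} {bar : Fin m → Fin m} {e : Fin m → Matrix ι ι M} {u₀ : Matrix ι ι M} {G : Type*} [Group G]
    {ρ : ∀ (l : ℕ) [Fact l.Prime], G →* Matrix.GeneralLinearGroup ι ℚ_[l]}
    {p : ℕ} [Fact p.Prime] {σ : G} {q : ℚ} {F : Fin m → M[X]}
    {φ μ ν : Matrix ι ι (AlgebraicClosure ℚ_[p])} {v : AlgebraicClosure ℚ_[p] → ℚ}
    {Δ : Set (AlgebraicClosure ℚ_[p] ≃+* AlgebraicClosure ℚ_[p])}
    {Ω : Type*} [Field Ω] [CharZero Ω] [IsAlgClosed Ω] [Algebra.IsAlgebraic ℚ Ω] {j : M →+* Ω}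
    {R : Finset Ω} {N : Set ℕ} (C : Core3 ψ D cl bar e u₀ ρ p σ q F φ μ ν v Δ j R N)

include C

theorem Core3.hs_mu (b : Fin m) : μᵀ * ψ.map (algebraMap ℚ (AlgebraicClosure ℚ_[p])) +
    ψ.map (algebraMap ℚ (AlgebraicClosure ℚ_[p])) * μ =
      ψ.map (algebraMap ℚ (AlgebraicClosure ℚ_[p])) := by
  have hι : Nonempty ι := by
    by_contra hemp
    rw [not_nonempty_iff] at hemp
    apply C.hspl.ne_zero b
    ext i'
    exact (hemp.false i').elim
  obtain ⟨H₀, -, hfin, hprime⟩ := H76RM.exists_prime (K := AlgebraicClosure ℚ_[p]) (ρ p) ⊤ inferInstance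
  obtain ⟨φ', g⟩ := mk_phT (K := AlgebraicClosure ℚ_[p]) C.hψ C.hψ0 D (ρ p) (C.lin p) (C.sim p)
    (C.semis p) (C.commt p) (C.gen p) C.frobp hfin hprime
  exact g.sh.hs μ C.crys.mu

omit C in
theorem dot_mul {n : Type*} [Fintype n] {K : Type*} [Field K] (A B C : Matrix n n K)
    (x y : n → K) : (A *ᵥ x) ⬝ᵥ (B *ᵥ (C *ᵥ y)) = x ⬝ᵥ ((Aᵀ * B * C) *ᵥ y) := by
  rw [Matrix.mulVec_mulVec, ← Matrix.vecMul_transpose, ← Matrix.dotProduct_mulVec,
    Matrix.mulVec_mulVec, Matrix.mul_assoc]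

/-- An eigenvector of `φ` in the conjugate component pairs with an eigenvector in the component. -/
theorem Core3.dual_vec (b : Fin m) {n : ℕ} {a : Fin n → Ω} (ha : Function.Injective a)
    (hroot : ∀ y : Ω, (F b).eval₂ j y = 0 ↔ ∃ k, y = a k) (i : Ω →+* AlgebraicClosure ℚ_[p])
    {z' : ι → AlgebraicClosure ℚ_[p]} (hz0 : z' ≠ 0)
    (hz : (e (bar b)).map (i.comp j) *ᵥ z' = z') {c : AlgebraicClosure ℚ_[p]}
    (hφ : φ *ᵥ z' = c • z') : ∃ k, c * i (a k) = algebraMap ℚ (AlgebraicClosure ℚ_[p]) q ∧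
      ∃ w : ι → AlgebraicClosure ℚ_[p], w ≠ 0 ∧ (e b).map (i.comp j) *ᵥ w = w ∧
        φ *ᵥ w = i (a k) • w ∧ (μ *ᵥ z' = z' → μ *ᵥ w = 0) ∧ (μ *ᵥ z' = 0 → μ *ᵥ w = w) := by
  classical
  obtain ⟨H₀, U, V, hfin, h⟩ := C.locp b ha hroot i
  obtain ⟨-, hdet0⟩ := gram_basic C.hψ C.hψ0 (AlgebraicClosure ℚ_[p])
  have hs0 := C.hs_mu b
  have hadj := (C.hspl.map (i.comp j)).adj b
  have hm0 := C.multp
  have huD := (C.hspl.map (i.comp j)).umem
  have hφu := C.w8_phi huD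
  have hμu := C.w8_mu huD
  have hdet : IsUnit (ψ.map (algebraMap ℚ (AlgebraicClosure ℚ_[p])) * u₀.map (i.comp j)).det := by
    rw [Matrix.det_mul]
    exact hdet0.mul (C.hspl.map (i.comp j)).unit
  have hs : μᵀ * (ψ.map (algebraMap ℚ (AlgebraicClosure ℚ_[p])) * u₀.map (i.comp j)) +
      ψ.map (algebraMap ℚ (AlgebraicClosure ℚ_[p])) * u₀.map (i.comp j) * μ =
        ψ.map (algebraMap ℚ (AlgebraicClosure ℚ_[p])) * u₀.map (i.comp j) := by
    rw [Matrix.mul_assoc _ (u₀.map (i.comp j)) μ, ← hμu, ← Matrix.mul_assoc, ← Matrix.mul_assoc,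
      ← Matrix.add_mul, hs0]
  have hm : φᵀ * (ψ.map (algebraMap ℚ (AlgebraicClosure ℚ_[p])) * u₀.map (i.comp j)) * φ =
      algebraMap ℚ (AlgebraicClosure ℚ_[p]) q •
        (ψ.map (algebraMap ℚ (AlgebraicClosure ℚ_[p])) * u₀.map (i.comp j)) := by
    calc φᵀ * (ψ.map (algebraMap ℚ (AlgebraicClosure ℚ_[p])) * u₀.map (i.comp j)) * φ =
        (φᵀ * ψ.map (algebraMap ℚ (AlgebraicClosure ℚ_[p])) * φ) * u₀.map (i.comp j) := by
          rw [Matrix.mul_assoc _ _ φ, Matrix.mul_assoc _ (u₀.map (i.comp j)) φ, ← hφu]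
          simp only [Matrix.mul_assoc]
      _ = _ := by rw [hm0, Matrix.smul_mul]
  clear hφu hμu huD
  obtain ⟨J, hJ⟩ : ∃ J, J = ψ.map (algebraMap ℚ (AlgebraicClosure ℚ_[p])) * u₀.map (i.comp j) :=
    ⟨_, rfl⟩
  rw [← hJ] at hdet hs hadj hm
  set E := (e b).map (i.comp j) with hE
  -- the functional
  have hJz : J *ᵥ z' ≠ 0 := by
    intro h0
    apply hz0
    have h1 : J⁻¹ *ᵥ (J *ᵥ z') = z' := by
      rw [Matrix.mulVec_mulVec, Matrix.nonsing_inv_mul _ hdet, Matrix.one_mulVec]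
    rw [← h1, h0, Matrix.mulVec_zero]
  have hfE : ∀ x : ι → AlgebraicClosure ℚ_[p], (E *ᵥ x) ⬝ᵥ (J *ᵥ z') = x ⬝ᵥ (J *ᵥ z') := by
    intro x
    have h1 := dot_mul E J 1 x z'
    rw [Matrix.one_mulVec, Matrix.mul_one, hadj, ← Matrix.mulVec_mulVec, hz] at h1
    exact h1
  have hfφ : ∀ x : ι → AlgebraicClosure ℚ_[p], c * ((φ *ᵥ x) ⬝ᵥ (J *ᵥ z')) =
      algebraMap ℚ (AlgebraicClosure ℚ_[p]) q * (x ⬝ᵥ (J *ᵥ z')) := by
    intro x
    have h1 := dot_mul φ J φ x z'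
    rw [hφ, Matrix.mulVec_smul, dotProduct_smul, hm, Matrix.smul_mulVec, dotProduct_smul] at h1
    exact h1
  -- an eigenvector on which it does not vanish
  have hex : ∃ k, (U *ᵥ (Pi.single k 1)) ⬝ᵥ (J *ᵥ z') ≠ 0 := by
    by_contra hcon
    push Not at hcon
    apply hJz
    have h1 : ∀ x : ι → AlgebraicClosure ℚ_[p], x ⬝ᵥ (J *ᵥ z') = 0 := by
      intro x
      rw [← hfE, h.UV, ← Matrix.mulVec_mulVec]
      set y := V *ᵥ x
      have h2 : y = ∑ k, y k • (Pi.single k (1 : AlgebraicClosure ℚ_[p])) := by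
        ext l
        rw [Finset.sum_apply]
        simp [Pi.single_apply]
      rw [h2, Matrix.mulVec_sum, sum_dotProduct]
      refine Finset.sum_eq_zero fun k _ => ?_
      rw [Matrix.mulVec_smul, smul_dotProduct, hcon k, smul_zero]
    ext x
    have h2 := h1 (Pi.single x 1)
    rw [single_one_dotProduct] at h2
    exact h2
  obtain ⟨k, hk⟩ := hex
  set u : ι → AlgebraicClosure ℚ_[p] := U *ᵥ (Pi.single k 1) with hu
  have hφu : φ *ᵥ u = i (a k) • u := by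
    have h1 : Matrix.diagonal (fun k => i (a k)) *ᵥ Pi.single k (1 : AlgebraicClosure ℚ_[p]) =
        i (a k) • Pi.single k (1 : AlgebraicClosure ℚ_[p]) := by
      ext l
      rw [Matrix.mulVec_diagonal]
      by_cases hkl : l = k
      · subst hkl
        simp
      · simp [Pi.single_apply, hkl]
    rw [hu, Matrix.mulVec_mulVec, h.ec.eig, ← Matrix.mulVec_mulVec, h1, Matrix.mulVec_smul]
  have hEu : E *ᵥ u = u := by
    rw [hu, Matrix.mulVec_mulVec]
    have h1 : E * U = U := by rw [h.UV, Matrix.mul_assoc, h.VU, Matrix.mul_one]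
    rw [h1]
  have hck : c * i (a k) = algebraMap ℚ (AlgebraicClosure ℚ_[p]) q := by
    have h1 := hfφ u
    rw [hφu, smul_dotProduct, smul_eq_mul, ← mul_assoc] at h1
    exact mul_right_cancel₀ hk h1
  refine ⟨k, hck, ?_⟩
  obtain ⟨ε, hε⟩ := exists_HT h C.crys.mu C.crys.muphi
  have hlin : ∀ w : ι → AlgebraicClosure ℚ_[p], E *ᵥ w = w → φ *ᵥ w = i (a k) • w → w ≠ 0 →
      w ⬝ᵥ (J *ᵥ z') ≠ 0 := by
    intro w hw hφw hw0
    have hu0 : u ≠ 0 := by
      intro h0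
      rw [h0, zero_dotProduct] at hk
      exact hk rfl
    obtain ⟨t, ht⟩ := C.frobp.simple (i.comp j) b (i (a k)) u w hEu hw hφu hφw hu0
    rw [ht, smul_dotProduct, smul_eq_mul]
    refine mul_ne_zero ?_ hk
    rintro rfl
    rw [zero_smul] at ht
    exact hw0 ht
  have hss : ∀ w : ι → AlgebraicClosure ℚ_[p], (μ *ᵥ w) ⬝ᵥ (J *ᵥ z') + w ⬝ᵥ (J *ᵥ (μ *ᵥ z')) =
      w ⬝ᵥ (J *ᵥ z') := by
    intro w
    have h1 := dot_mul μ J 1 w z'
    rw [Matrix.one_mulVec, Matrix.mul_one] at h1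
    rw [h1, Matrix.mulVec_mulVec, ← dotProduct_add, ← Matrix.add_mulVec, hs]
  rcases hε k with ⟨-, w, hw0, hEw, hφw, hμw⟩ | ⟨-, w, hw0, hEw, hφw, hμw⟩
  · refine ⟨w, hw0, hEw, hφw, fun h1 => ?_, fun _ => hμw⟩
    exfalso
    have h2 := hss w
    rw [hμw, h1, add_eq_left] at h2
    exact hlin w hEw hφw hw0 h2
  · refine ⟨w, hw0, hEw, hφw, fun _ => hμw, fun h1 => ?_⟩
    exfalso
    have h2 := hss w
    rw [hμw, h1, Matrix.mulVec_zero, dotProduct_zero, zero_dotProduct, add_zero] at h2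
    exact hlin w hEw hφw hw0 h2.symm

theorem Core3.w8d_vec (b : Fin m) {n : ℕ} {a : Fin n → Ω} (ha : Function.Injective a)
    (hroot : ∀ y : Ω, (F b).eval₂ j y = 0 ↔ ∃ k, y = a k) {s : Ω ≃+* Ω}
    (hlink : Linked D ((e (bar b)).map j) ((e b).map (s.toRingHom.comp j)))
    (i : Ω →+* AlgebraicClosure ℚ_[p]) : ∃ T : Matrix ι ι (AlgebraicClosure ℚ_[p]),
      φ * T = T * φ ∧ μ * T = T * μ ∧
      (∀ z, (e (bar b)).map ((i.comp s.symm.toRingHom).comp j) *ᵥ (T *ᵥ z) = T *ᵥ z) ∧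
      ∀ z, z ≠ 0 → (e b).map (i.comp j) *ᵥ z = z → T *ᵥ z ≠ 0 := by
  obtain ⟨d, hd, hne⟩ := hlink
  set i' : Ω →+* AlgebraicClosure ℚ_[p] := i.comp s.symm.toRingHom with hi'
  set E' := (e (bar b)).map (i'.comp j) with hE'
  have hE : E' ∈ spanK (AlgebraicClosure ℚ_[p]) D := H76U.spanK_map (i'.comp j) (C.hspl.mem (bar b))
  have hd' : d.map i' ∈ spanK (AlgebraicClosure ℚ_[p]) D := H76U.spanK_map i' hd
  have hEE : E' * E' = E' := by
    rw [hE', ← H76U.map_mul', C.hspl.idem]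
  have hT : ∀ A : Matrix ι ι (AlgebraicClosure ℚ_[p]),
      (∀ d ∈ spanK (AlgebraicClosure ℚ_[p]) D, A * d = d * A) →
        A * (E' * d.map i') = E' * d.map i' * A := by
    intro A hA
    rw [← Matrix.mul_assoc, hA _ hE, Matrix.mul_assoc, hA _ hd', Matrix.mul_assoc]
  refine ⟨E' * d.map i', hT _ fun d hd => C.w8_phi hd, hT _ fun d hd => C.w8_mu hd, ?_, ?_⟩
  · intro z
    rw [Matrix.mulVec_mulVec, ← Matrix.mul_assoc, hEE]
  · intro z hz0 hz
    refine C.w8_key b ha hroot i hT ?_ hz0 hz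
    have h1 : E' = ((e (bar b)).map j).map i' := by
      ext x y
      rfl
    have h2 : (e b).map (i.comp j) = ((e b).map (s.toRingHom.comp j)).map i' := by
      ext x y
      simp [hi']
    rw [h1, h2, ← H76U.map_mul', ← H76U.map_mul']
    intro h3
    apply hne
    ext x y
    have h4 := congrFun (congrFun h3 x) y
    rw [Matrix.map_apply, Matrix.zero_apply] at h4
    rw [Matrix.zero_apply]
    exact (map_eq_zero i').1 h4

/-- An automorphism `s` such that the image of the component under `s` is linked with the conjugate of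
the component: `s` maps the eigenvalues to the numbers `q / a`, and the Hodge-Tate type to the opposite
type. -/
theorem Core3.dual_linked (b : Fin m)
    {n : ℕ} {a : Fin n → Ω} (ha : Function.Injective a)
    (hroot : ∀ y : Ω, (F b).eval₂ j y = 0 ↔ ∃ k, y = a k)
    {s : Ω ≃+* Ω} (hlink : Linked D ((e (bar b)).map j) ((e b).map (s.toRingHom.comp j))) :
    ∃ π : Equiv.Perm (Fin n), (∀ k, s (a k) * a (π k) = algebraMap ℚ Ω q) ∧
      ∀ (i : Ω →+* AlgebraicClosure ℚ_[p]) (ε : Fin n → ℚ),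
        IsHT μ φ ((e b).map (i.comp j)) (fun k => i (a k)) ε →
        IsHT μ φ ((e b).map ((i.comp s.symm.toRingHom).comp j))
          (fun k => i.comp s.symm.toRingHom (a k)) (fun k => - ε (π.symm k)) := by
  have hq : ∀ i' : Ω →+* AlgebraicClosure ℚ_[p], algebraMap ℚ (AlgebraicClosure ℚ_[p]) q =
      i' (algebraMap ℚ Ω q) := fun i' => by
    simp
  have hmap : ∀ k, ∃ k', s (a k) * a k' = algebraMap ℚ Ω q := by
    intro k
    let i : Ω →+* AlgebraicClosure ℚ_[p] :=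
      (IsAlgClosed.lift (R := ℚ) (S := Ω) (M := AlgebraicClosure ℚ_[p])).toRingHom
    obtain ⟨T, hTφ, -, hTE, hT0⟩ := C.w8d_vec b ha hroot hlink i
    have h1 : (F b).eval₂ (i.comp j) (i (a k)) = 0 := by
      rw [← Polynomial.hom_eval₂, (hroot _).2 ⟨k, rfl⟩, map_zero]
    obtain ⟨z, hz0, hz, hφz⟩ := (C.frobp.eig (i.comp j) b (i (a k))).2 h1
    obtain ⟨k', hk', -⟩ := C.dual_vec b ha hroot (i.comp s.symm.toRingHom) (hT0 z hz0 hz) (hTE z)
      (c := i (a k)) (by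
        rw [Matrix.mulVec_mulVec, hTφ, ← Matrix.mulVec_mulVec, hφz, Matrix.mulVec_smul])
    refine ⟨k', ?_⟩
    have h3 : i (a k) = (i.comp s.symm.toRingHom) (s (a k)) := by simp
    rw [h3, hq (i.comp s.symm.toRingHom), ← map_mul] at hk'
    exact (i.comp s.symm.toRingHom).injective hk'
  choose g hg using hmap
  have hq0 : algebraMap ℚ Ω q ≠ 0 := by
    intro h0
    have h1 : q = 0 := by
      rw [← map_zero (algebraMap ℚ Ω)] at h0
      exact (algebraMap ℚ Ω).injective h0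
    have h2 := C.vq
    exact absurd (C.multp) (by
      rw [h1, map_zero, zero_smul]
      intro h3
      have h4 := congrArg Matrix.det h3
      obtain ⟨-, hdet⟩ := gram_basic C.hψ C.hψ0 (AlgebraicClosure ℚ_[p])
      have hι : Nonempty ι := by
        by_contra hemp
        rw [not_nonempty_iff] at hemp
        apply C.hspl.ne_zero b
        ext i'
        exact (hemp.false i').elim
      rw [Matrix.det_mul, Matrix.det_mul, Matrix.det_transpose, Matrix.det_zero] at h4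
      exact mul_ne_zero (mul_ne_zero C.frobp.idc.1 hdet.ne_zero) C.frobp.idc.1 h4)
  have hginj : Function.Injective g := by
    intro k k' hkk
    apply ha
    apply s.injective
    have h1 := hg k
    have h2 := hg k'
    rw [← hkk, ← h1] at h2
    have h3 : a (g k) ≠ 0 := by
      intro h0
      rw [h0, mul_zero] at h1
      exact hq0 h1.symm
    exact (mul_right_cancel₀ h3 h2).symm
  let π : Equiv.Perm (Fin n) := Equiv.ofBijective g (Finite.injective_iff_bijective.1 hginj)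
  refine ⟨π, hg, ?_⟩
  intro i ε hε k
  obtain ⟨T, hTφ, hTμ, hTE, hT0⟩ := C.w8d_vec b ha hroot hlink i
  set k₀ := π.symm k with hk₀
  have hk : π k₀ = k := by rw [hk₀, Equiv.apply_symm_apply]
  have hak : s (a k₀) * a k = algebraMap ℚ Ω q := by
    have h1 := hg k₀
    have h2 : g k₀ = k := hk
    rwa [h2] at h1
  have hT2 : ∀ z, z ≠ 0 → (e b).map (i.comp j) *ᵥ z = z → φ *ᵥ z = i (a k₀) • z →
      ∃ w : ι → AlgebraicClosure ℚ_[p], w ≠ 0 ∧
        (e b).map ((i.comp s.symm.toRingHom).comp j) *ᵥ w = w ∧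
        φ *ᵥ w = i.comp s.symm.toRingHom (a k) • w ∧
        (μ *ᵥ z = z → μ *ᵥ w = 0) ∧ (μ *ᵥ z = 0 → μ *ᵥ w = w) := by
    intro z hz0 hz hφz
    obtain ⟨k', hk', w, hw0, hEw, hφw, hμ1, hμ2⟩ := C.dual_vec b ha hroot (i.comp s.symm.toRingHom)
      (hT0 z hz0 hz) (hTE z) (c := i (a k₀)) (by
        rw [Matrix.mulVec_mulVec, hTφ, ← Matrix.mulVec_mulVec, hφz, Matrix.mulVec_smul])
    have hkk : k' = k := by
      have h3 : i (a k₀) = (i.comp s.symm.toRingHom) (s (a k₀)) := by simp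
      rw [h3, hq (i.comp s.symm.toRingHom), ← map_mul] at hk'
      have h4 := (i.comp s.symm.toRingHom).injective hk'
      rw [← hak] at h4
      have h5 : s (a k₀) ≠ 0 := by
        intro h0
        rw [h0, zero_mul] at hak
        exact hq0 hak.symm
      exact ha (mul_left_cancel₀ h5 h4)
    subst hkk
    refine ⟨w, hw0, hEw, hφw, fun h1 => hμ1 ?_, fun h1 => hμ2 ?_⟩
    · rw [Matrix.mulVec_mulVec, hTμ, ← Matrix.mulVec_mulVec, h1]
    · rw [Matrix.mulVec_mulVec, hTμ, ← Matrix.mulVec_mulVec, h1, Matrix.mulVec_zero]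
  rcases hε k₀ with ⟨h1, z, hz0, hz, hφz, hμz⟩ | ⟨h1, z, hz0, hz, hφz, hμz⟩
  · obtain ⟨w, hw0, hEw, hφw, hμ1, -⟩ := hT2 z hz0 hz hφz
    right
    refine ⟨?_, w, hw0, hEw, hφw, hμ1 hμz⟩
    show -ε k₀ = -1
    rw [h1]
  · obtain ⟨w, hw0, hEw, hφw, -, hμ2⟩ := hT2 z hz0 hz hφz
    left
    refine ⟨?_, w, hw0, hEw, hφw, hμ2 hμz⟩
    show -ε k₀ = 1
    rw [h1, neg_neg]

end Pool.Agent.H76Z
end
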