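import Pool.Agent.Lib.H1M.RC.D_H45Q_S3
import Pool.Agent.Lib.H1M.RC.M045
import Pool.Agent.Lib.H1M.RC.M046
import Pool.Agent.Lib.H1M.RC.M048
import Pool.Agent.Lib.H1M.RC.M049
import Pool.Agent.Lib.H1M.RC.M051
import Pool.Agent.Lib.H1M.RC.M056
import Pool.Agent.Lib.H1M.RC.M057
import Pool.Agent.Lib.H1M.RC.M058
import Pool.Agent.Lib.H1M.RC.M059
import Pool.Agent.Lib.H1M.RC.M060
import Pool.Agent.Lib.H1M.RC.M061
import Pool.Agent.Lib.H1M.RC.M062
import Pool.Agent.Lib.H1M.RC.M063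
import Pool.Agent.Lib.H1M.RC.M065
import Pool.Agent.Lib.H1M.RC.M066
import Pool.Agent.Lib.H1M.RC.M070
import Pool.Agent.Lib.H1M.RC.M072

/-! Merged copies (to shorten the build) of Lib.H34Z.M05, Lib.H34Z.M06, Lib.H76Y.W7, Lib.H76Y.W9, Lib.H76Y.W11a, Lib.H76Y.W11, Lib.H45Q.S5, Lib.H76Z.BL2, Lib.H45U.BL2, Lib.H76Z.G10, Lib.H86L.M2. -/

-- from Lib.H34Z.M05
section

/-!
# M05: different blocks are independent
-/

set_option autoImplicit false
set_option linter.unusedSectionVars false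
namespace Pool.Agent.H34Z
open Module Matrix Pool.Agent.H53Toric Pool.Agent.H76P
open Pool.Agent.H76U (cmp preL Lb Split4)
open Pool.Agent.H76Y (LcN)
open Pool.Agent.H76RM (zar_commute zlie_commute)

variable {ι : Type*} [Fintype ι] [DecidableEq ι] {K : Type*} [Field K] [CharZero K] [IsAlgClosed K]
  {J u : Matrix ι ι K} {DD : Submodule K (Matrix ι ι K)} {S 𝓗 : Set (Matrix ι ι K)} {x : Matrix ι ι K}
  {B : Type*} [Fintype B] [DecidableEq B] {bar : B → B} {e : B → Matrix ι ι K} {n : B → ℕ}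
  {U : ∀ b, Matrix ι (Fin (n b)) K} {V : ∀ b, Matrix (Fin (n b)) ι K} {d : ∀ b, Fin (n b) → K}

namespace Sit
variable (g : Sit J u DD S 𝓗 x bar e n U V d)
include g

/-- A matrix which commutes with all projectors is in `DD`.  PROOF. It commutes with `1 + (t-1) h`, so with the closure (`zar_commute`; first with the monoid
`Submonoid.closure (par 𝓗)` by closure induction), so with `S` (`g.gen`); `g.commt`. -/
theorem mem_DD {Z : Matrix ι ι K} (hZ : ∀ h ∈ 𝓗, Z * h = h * Z) : Z ∈ DD := by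
  refine g.commt Z fun s hs => ?_
  have key : ∀ y ∈ (Submonoid.closure (par 𝓗) : Set (Matrix ι ι K)), y * Z = Z * y := by
    intro y hy
    refine Submonoid.closure_induction (motive := fun y _ => y * Z = Z * y) ?_ ?_ ?_ hy
    · rintro _ ⟨h, hh, t, ht, rfl⟩
      rw [add_mul, mul_add, one_mul, mul_one, smul_mul_assoc, mul_smul_comm, hZ h hh]
    · rw [one_mul, mul_one]
    · intro a c _ _ ha hc
      rw [mul_assoc, hc, ← mul_assoc, ha, mul_assoc]
  exact (zar_commute key (g.gen hs)).symm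

private theorem m05_bij (b : B) {c : B} {T : (Fin (n b) → K) →ₗ[K] (Fin (n c) → K)} (hb : Function.Bijective T)
    (h0 : ∀ v, T v = 0) : False := by
  have h1 : (fun _ => 1 : Fin (n b) → K) = 0 := hb.1 (by rw [h0, h0])
  exact one_ne_zero (congrFun h1 ⟨0, g.pos b⟩)

/-- PROOF. Let `M` be the matrix of `T` (`LinearMap.toMatrix' T`, `T v = M *ᵥ v`), `Z = U c * M * V b`.  For `h ∈ 𝓗`, `y = 2h-1`: `hT` with `y_pair` says
`M * (V b * y * U b) = (V c * y * U c) * M`, so `M * (V b * h * U b) = (V c * h * U c) * M`.  `Z * h = U c * M * (V b * h * U b) * V b` (`V b * h = V b * e b * h = V b * h * e b`) and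
`h * Z = U c * (V c * h * U c) * M * V b` (`h * U c = e c * h * U c`), so `Z h = h Z`, `Z ∈ DD` (`mem_DD`).  `e c * Z * e b = Z` (`eU`, `Ve`), and `e c * Z * e b = 0` by
`g.spl.orth c b`.  So `M = V c * Z * U b = 0`, but `T` is bijective and `Fin (n b)` is not empty. -/
theorem no_iso {b c : B} (hbc : c ≠ b) (hgr : ∀ A ∈ brk J S, pb (U b) (V b) A = 0 ↔ pb (U c) (V c) A = 0)
    {T : (Fin (n b) → K) →ₗ[K] (Fin (n c) → K)} (hb : Function.Bijective T)
    (hT : ∀ p ∈ pr2 J S (U b) (V b) (U c) (V c), ∀ v, T (p.1 v) = p.2 (T v)) : False := by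
  have hM : ∀ v, T v = (LinearMap.toMatrix' T) *ᵥ v := fun v => by
    rw [← Matrix.toLin'_apply, Matrix.toLin'_toMatrix']
  generalize LinearMap.toMatrix' T = M at hM
  have hcomm : ∀ h ∈ 𝓗, M * (V b * h * U b) = V c * h * U c * M := by
    intro h hh
    have h1 := hT _ (g.y_pair hgr hh)
    have h2 : M * (V b * ((2 : K) • h - 1) * U b) = V c * ((2 : K) • h - 1) * U c * M := by
      refine Matrix.toLin'.injective (LinearMap.ext fun v => ?_)
      have h3 := h1 v
      simp only [pb_apply, phi_apply, hM] at h3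
      rw [Matrix.toLin'_apply, Matrix.toLin'_apply, ← Matrix.mulVec_mulVec v M, h3, Matrix.mulVec_mulVec]
    rw [Matrix.mul_sub, Matrix.sub_mul, Matrix.mul_smul, Matrix.smul_mul, Matrix.mul_one, g.VU b, Matrix.mul_sub, Matrix.mul_smul, Matrix.mul_one,
      Matrix.mul_sub, Matrix.sub_mul, Matrix.sub_mul, Matrix.mul_smul, Matrix.smul_mul, Matrix.smul_mul, Matrix.mul_one, g.VU c, Matrix.one_mul] at h2
    exact smul_right_injective _ (two_ne_zero (α := K)) (sub_left_injective h2)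
  have hZ : U c * M * V b ∈ DD := by
    refine g.mem_DD fun h hh => ?_
    have h1 : V b * h = V b * h * U b * V b := by
      have h3 := g.zD (g.hz h hh) (g.spl.mem b)
      calc V b * h = V b * e b * h := by rw [g.Ve b]
        _ = V b * (e b * h) := by rw [Matrix.mul_assoc]
        _ = V b * (h * (U b * V b)) := by rw [← h3, g.UV b]
        _ = V b * h * U b * V b := by simp only [Matrix.mul_assoc]
    have h2 : h * U c = U c * (V c * h * U c) := by
      have h3 := g.zD (g.hz h hh) (g.spl.mem c)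
      calc h * U c = h * (e c * U c) := by rw [g.eU c]
        _ = h * e c * U c := by rw [Matrix.mul_assoc]
        _ = U c * V c * h * U c := by rw [h3, g.UV c]
        _ = U c * (V c * h * U c) := by simp only [Matrix.mul_assoc]
    calc U c * M * V b * h = U c * M * (V b * h) := by rw [Matrix.mul_assoc]
      _ = U c * M * (V b * h * U b * V b) := by rw [← h1]
      _ = U c * (M * (V b * h * U b)) * V b := by simp only [Matrix.mul_assoc]
      _ = U c * (V c * h * U c * M) * V b := by rw [hcomm h hh]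
      _ = U c * (V c * h * U c) * M * V b := by simp only [Matrix.mul_assoc]
      _ = h * U c * M * V b := by rw [← h2]
      _ = h * (U c * M * V b) := by simp only [Matrix.mul_assoc]
  have h0 := g.spl.orth c b hbc _ hZ
  have h1 : e c * (U c * M * V b) * e b = U c * M * V b := by
    calc e c * (U c * M * V b) * e b = e c * U c * M * (V b * e b) := by simp only [Matrix.mul_assoc]
      _ = U c * M * V b := by rw [g.eU c, g.Ve b]
  rw [h1] at h0
  have h2 : M = 0 := by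
    calc M = V c * U c * M * (V b * U b) := by rw [g.VU c, g.VU b, Matrix.one_mul, Matrix.mul_one]
      _ = V c * (U c * M * V b) * U b := by simp only [Matrix.mul_assoc]
      _ = 0 := by rw [h0, Matrix.mul_zero, Matrix.zero_mul]
  exact g.m05_bij b hb (fun v => by rw [hM, h2, Matrix.zero_mulVec])

/-- PROOF. Let `M` be the matrix of `T`, `Z = U c * M * (U b)ᵀ * (J * u)`.  For `h ∈ 𝓗`, `y = 2h-1`: `hT` with `y_pair` and `adjE 1 (phi A) = phi Aᵀ` says
`M * (V b * y * U b)ᵀ = -(V c * y * U c) * M`.  `yᵀ * (J*u) = -(J*u) * y` (`yskew`), so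
`(U b)ᵀ * (J*u) * y = -(y * U b)ᵀ * (J*u) = -(U b * (V b * y * U b))ᵀ * (J*u) = -(V b * y * U b)ᵀ * (U b)ᵀ * (J*u)`, and
`Z * y = -U c * M * (V b * y * U b)ᵀ * (U b)ᵀ * (J*u) = U c * (V c * y * U c) * M * (U b)ᵀ * (J*u) = y * Z`.  So `Z` commutes with `h`, `Z ∈ DD`.
`(U b)ᵀ * (J*u) * e (bar b) = (U b)ᵀ * (e b)ᵀ * (J*u) = (e b * U b)ᵀ * (J*u) = (U b)ᵀ * (J*u)` (`g.spl.adj`), so `Z = e c * Z * e (bar b) = 0` by `g.spl.orth c (bar b)`.  Multiply with
`V c` from the left and `(J*u)⁻¹ * (V b)ᵀ` from the right: `M * (V b * U b)ᵀ = M = 0`, contradiction. -/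
theorem no_dual {b c : B} (hbc : c ≠ bar b) (hgr : ∀ A ∈ brk J S, pb (U b) (V b) A = 0 ↔ pb (U c) (V c) A = 0)
    {T : (Fin (n b) → K) →ₗ[K] (Fin (n c) → K)} (hb : Function.Bijective T)
    (hT : ∀ p ∈ pr2 J S (U b) (V b) (U c) (V c), ∀ v, T (adjE (1 : Matrix (Fin (n b)) (Fin (n b)) K) p.1 v) = -p.2 (T v)) :
    False := by
  have hM : ∀ v, T v = (LinearMap.toMatrix' T) *ᵥ v := fun v => by
    rw [← Matrix.toLin'_apply, Matrix.toLin'_toMatrix']
  generalize LinearMap.toMatrix' T = M at hM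
  have hcomm : ∀ h ∈ 𝓗, M * (V b * ((2 : K) • h - 1) * U b)ᵀ = -(V c * ((2 : K) • h - 1) * U c * M) := by
    intro h hh
    have h1 := hT _ (g.y_pair hgr hh)
    refine Matrix.toLin'.injective (LinearMap.ext fun v => ?_)
    have h3 := h1 v
    simp only [pb_apply, adjE_phi, phi_apply, hM, inv_one, Matrix.one_mul, Matrix.mul_one] at h3
    rw [Matrix.toLin'_apply, Matrix.toLin'_apply, ← Matrix.mulVec_mulVec v M, Matrix.neg_mulVec, h3, Matrix.mulVec_mulVec]
  have hcommy : ∀ h ∈ 𝓗, U c * M * (U b)ᵀ * (J * u) * ((2 : K) • h - 1) = ((2 : K) • h - 1) * (U c * M * (U b)ᵀ * (J * u)) := by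
    intro h hh
    generalize hy : (2 : K) • h - 1 = y
    have hcy : ∀ a, y * e a = e a * y := fun a => by
      rw [← hy, sub_mul, mul_sub, one_mul, mul_one, smul_mul_assoc, mul_smul_comm, g.zD (g.hz h hh) (g.spl.mem a)]
    have hyU : ∀ a, y * U a = U a * (V a * y * U a) := fun a => by
      calc y * U a = y * (e a * U a) := by rw [g.eU a]
        _ = y * e a * U a := by rw [Matrix.mul_assoc]
        _ = U a * V a * y * U a := by rw [hcy a, g.UV a]
        _ = U a * (V a * y * U a) := by simp only [Matrix.mul_assoc]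
    have h1 := g.yskew hh
    have h2 := hcomm h hh
    rw [hy] at h1 h2
    have h3 : J * u * y = -(yᵀ * (J * u)) := (neg_eq_of_add_eq_zero_right h1).symm
    have h4 : (U b)ᵀ * (J * u) * y = -((V b * y * U b)ᵀ * (U b)ᵀ * (J * u)) := by
      rw [Matrix.mul_assoc, h3, Matrix.mul_neg, ← Matrix.mul_assoc, ← Matrix.transpose_mul, hyU b, Matrix.transpose_mul]
    calc U c * M * (U b)ᵀ * (J * u) * y = U c * M * ((U b)ᵀ * (J * u) * y) := by simp only [Matrix.mul_assoc]
      _ = -(U c * (M * (V b * y * U b)ᵀ) * ((U b)ᵀ * (J * u))) := by rw [h4, Matrix.mul_neg]; simp only [Matrix.mul_assoc]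
      _ = U c * (V c * y * U c) * (M * ((U b)ᵀ * (J * u))) := by
        rw [h2, Matrix.mul_neg, Matrix.neg_mul, neg_neg]; simp only [Matrix.mul_assoc]
      _ = y * (U c * M * (U b)ᵀ * (J * u)) := by rw [← hyU c]; simp only [Matrix.mul_assoc]
  have hZ : U c * M * (U b)ᵀ * (J * u) ∈ DD := by
    refine g.mem_DD fun h hh => ?_
    have h1 := hcommy h hh
    rw [mul_sub, sub_mul, mul_one, one_mul, mul_smul_comm, smul_mul_assoc] at h1
    exact smul_right_injective _ (two_ne_zero (α := K)) (sub_left_injective h1)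
  have h0 := g.spl.orth c (bar b) hbc _ hZ
  have h3 : (U b)ᵀ * (J * u) * e (bar b) = (U b)ᵀ * (J * u) := by
    rw [Matrix.mul_assoc, ← g.spl.adj b, ← Matrix.mul_assoc, ← Matrix.transpose_mul, g.eU b]
  have h1 : e c * (U c * M * (U b)ᵀ * (J * u)) * e (bar b) = U c * M * (U b)ᵀ * (J * u) := by
    calc e c * (U c * M * (U b)ᵀ * (J * u)) * e (bar b) = e c * U c * M * ((U b)ᵀ * (J * u) * e (bar b)) := by simp only [Matrix.mul_assoc]
      _ = U c * M * (U b)ᵀ * (J * u) := by rw [h3, g.eU c]; simp only [Matrix.mul_assoc]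
  rw [h1] at h0
  have h2 : M = 0 := by
    calc M = V c * U c * M * (V b * U b)ᵀ := by rw [g.VU c, g.VU b, Matrix.transpose_one, Matrix.one_mul, Matrix.mul_one]
      _ = V c * (U c * M * (U b)ᵀ * (J * u)) * (J * u)⁻¹ * (V b)ᵀ := by
        have h5 : (J * u) * (J * u)⁻¹ = 1 := Matrix.mul_nonsing_inv _ g.det'
        rw [Matrix.transpose_mul]
        calc V c * U c * M * ((U b)ᵀ * (V b)ᵀ) = V c * U c * M * (U b)ᵀ * (1 : Matrix ι ι K) * (V b)ᵀ := by rw [Matrix.mul_one]; simp only [Matrix.mul_assoc]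
          _ = V c * U c * M * (U b)ᵀ * ((J * u) * (J * u)⁻¹) * (V b)ᵀ := by rw [h5]
          _ = _ := by simp only [Matrix.mul_assoc]
      _ = 0 := by rw [h0, Matrix.mul_zero, Matrix.zero_mul, Matrix.zero_mul]
  exact g.m05_bij b hb (fun v => by rw [hM, h2, Matrix.zero_mulVec])

/-- PROOF. `two b c`; the second alternative is impossible by `gr`, `Gr.iso` (A14, `g.full`, `g.irr`), `no_iso`, `no_dual`. -/
theorem pair {b c : B} (hbc : c ≠ b) (hbc' : c ≠ bar b) {X : Module.End K (Fin (n b) → K)}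
    (hX : X ∈ LcN J S (U b) (V b)) : ∃ A ∈ brk J S, pb (U b) (V b) A = X ∧ pb (U c) (V c) A = 0 := by
  rcases g.two b c with h1 | h1
  · exact h1 X hX
  · exfalso
    obtain ⟨ε, ε', G⟩ := g.gr h1
    have hne : Nonempty (Fin (n c)) := ⟨⟨0, g.pos c⟩⟩
    rcases G.iso (g.full b) (g.full c) (g.irr b) (g.irr c) with ⟨T, hT, hT2⟩ | ⟨T, hT, hT2⟩
    · exact g.no_iso hbc h1 hT hT2
    · exact g.no_dual hbc' h1 hT hT2

/-- PROOF. `ribet` (R01) for `𝔤 = brk J S`, `p = pb (U b) (V b)`, `q c = pb (U c) (V c)`, `T = Finset.univ.filter (fun c => c ≠ b ∧ c ≠ bar b)`; `pb_brk`, `FB.perfect`, `pair`. -/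
theorem indep (b : B) {X : Module.End K (Fin (n b) → K)} (hX : X ∈ LcN J S (U b) (V b)) :
    ∃ A ∈ brk J S, pb (U b) (V b) A = X ∧ ∀ c, c ≠ b → c ≠ bar b → pb (U c) (V c) A = 0 := by
  have hne : Nonempty (Fin (n b)) := ⟨⟨0, g.pos b⟩⟩
  obtain ⟨h, hh, hx⟩ := g.hh
  obtain ⟨ε, hε, hε1⟩ := g.y_diag b hh hx
  have hεL : dg ε ∈ LcN J S (U b) (V b) := by
    rw [← hε]
    exact (g.y_mem b hh).1
  have h1 := ribet (𝔤 := brk J S) (fun A hA A' hA' => brk_ad (brk_pre hA) (brk_pre hA')) (p := pb (U b) (V b))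
    (fun A hA A' hA' => g.pb_bracket b (brk_pre hA) (brk_pre hA')) (q := fun c => pb (U c) (V c))
    (fun c A hA A' hA' => g.pb_bracket c (brk_pre hA) (brk_pre hA')) (g.pb_brk b) (FB.perfect (g.full b) hεL hε1)
    (Finset.univ.filter fun c => c ≠ b ∧ c ≠ bar b) (fun c hc Y hY => by
      rw [Finset.mem_filter] at hc
      exact g.pair hc.2.1 hc.2.2 hY) X hX
  obtain ⟨A, hA, hAX, hA0⟩ := h1
  exact ⟨A, hA, hAX, fun c hc hc' => hA0 c (Finset.mem_filter.2 ⟨Finset.mem_univ _, hc, hc'⟩)⟩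

end Sit

end Pool.Agent.H34Z
end

-- from Lib.H34Z.M06
section

/-!
# M06: elements of the closure with one nontrivial block
-/

set_option autoImplicit false
set_option linter.unusedSectionVars false
namespace Pool.Agent.H34Z
open Module Matrix Pool.Agent.H53Toric Pool.Agent.H76P
open Pool.Agent.H76U (cmp preL Lb Split4)
open Pool.Agent.H76Y (LcN)
open Pool.Agent.H76RM (zar_commute zlie_commute)

variable {ι : Type*} [Fintype ι] [DecidableEq ι] {K : Type*} [Field K] [CharZero K] [IsAlgClosed K]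
  {J u : Matrix ι ι K} {DD : Submodule K (Matrix ι ι K)} {S 𝓗 : Set (Matrix ι ι K)} {x : Matrix ι ι K}
  {B : Type*} [Fintype B] [DecidableEq B] {bar : B → B} {e : B → Matrix ι ι K} {n : B → ℕ}
  {U : ∀ b, Matrix ι (Fin (n b)) K} {V : ∀ b, Matrix (Fin (n b)) ι K} {d : ∀ b, Fin (n b) → K}

/-- Cancellation of an invertible matrix. -/
theorem m06_canc {Q M : Matrix ι ι K} (hQ : IsUnit Q.det) (hM : Q * M = 0) : M = 0 := by
  calc M = Q⁻¹ * (Q * M) := by rw [← Matrix.mul_assoc, Matrix.nonsing_inv_mul _ hQ, Matrix.one_mul]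
    _ = 0 := by rw [hM, Matrix.mul_zero]

namespace Sit
variable (g : Sit J u DD S 𝓗 x bar e n U V d)
include g

/-- PROOF. `A ∈ brk` with `pb b A = phi N`, `pb c A = 0` for `c ≠ b, bar b` (`indep`).  `A ∈ zlie S` (`brk_zlie`), `A` commutes with `DD`, `Aᵀ (J u) + J u A = 0` (`brk_skew`, `pskew`).
`A * e c = U c * (V c * A * U c) * V c` for all `c`, so `A * e c = 0` for `c ≠ b, bar b`, and `A * A * e b = U b * N * N * V b = 0`.  `(A * A)ᵀ * (J*u) = J*u * (A * A)`, so
`J*u * e (bar b) * (A * A) = (e b)ᵀ * (J*u) * (A*A) = (e b)ᵀ * (A*A)ᵀ * (J*u) = (A * A * e b)ᵀ * (J*u) = 0` and `e (bar b) * A * A = 0` (`det'`), `A * A * e (bar b) = 0`.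
So `A * A = 0` by `g.spl.ext_comm`.  `y = 1 + A ∈ zar S` (`zlie_exp` with `x = 1`, `t = 1`).  `yᵀ (J u) y = J u + (Aᵀ J u + J u A) + Aᵀ J u A`, and `Aᵀ J u A = -J u A A = 0`.
`y * U b = U b + A * U b = U b + U b * N`. -/
theorem one_add {b : B} {N : Matrix (Fin (n b)) (Fin (n b)) K} (hN : N * N = 0) (hNL : phi N ∈ LcN J S (U b) (V b)) :
    ∃ y ∈ zar S, yᵀ * (J * u) * y = J * u ∧ y * U b = U b * (1 + N) ∧ ∀ c, c ≠ b → c ≠ bar b → y * e c = e c := by
  obtain ⟨A, hA, hAb, hAc⟩ := g.indep b hNL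
  have hAz : A ∈ zlie S := brk_zlie hA
  have hAD : ∀ z ∈ DD, A * z = z * A := fun z hz => g.zD hAz hz
  have hAs : Aᵀ * (J * u) + J * u * A = 0 := by
    have h1 := g.pskew (brk_pre hA) (c := 0) (by rw [brk_skew hA, zero_smul])
    rwa [zero_smul] at h1
  have hsk : Aᵀ * (J * u) = -(J * u * A) := eq_neg_of_add_eq_zero_left hAs
  have hAbm : V b * A * U b = N := by
    have h1 : phi (V b * A * U b) = phi N := hAb
    exact (phi (ι := Fin (n b)) (K := K)).injective h1
  have hAcm : ∀ c, c ≠ b → c ≠ bar b → V c * A * U c = 0 := by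
    intro c h1 h2
    have h3 : phi (V c * A * U c) = 0 := hAc c h1 h2
    apply (phi (ι := Fin (n c)) (K := K)).injective
    rw [h3, map_zero]
  have hblk : ∀ c, A * e c = U c * (V c * A * U c) * V c := by
    intro c
    calc A * e c = A * (e c * e c) := by rw [g.spl.idem]
      _ = A * e c * e c := by rw [Matrix.mul_assoc]
      _ = e c * A * e c := by rw [hAD _ (g.spl.mem c)]
      _ = (U c * V c) * A * (U c * V c) := by rw [← g.UV c]
      _ = U c * (V c * A * U c) * V c := by simp only [Matrix.mul_assoc]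
  have hAU : A * U b = U b * N := by
    calc A * U b = A * (e b * U b) := by rw [g.eU b]
      _ = (A * e b) * U b := by rw [Matrix.mul_assoc]
      _ = U b * N * V b * U b := by rw [hblk b, hAbm]
      _ = U b * N * (V b * U b) := by rw [Matrix.mul_assoc (U b * N)]
      _ = U b * N := by rw [g.VU b, Matrix.mul_one]
  have hA0 : ∀ c, c ≠ b → c ≠ bar b → A * e c = 0 := by
    intro c h1 h2
    rw [hblk c, hAcm c h1 h2, Matrix.mul_zero, Matrix.zero_mul]
  have hAAb : A * A * e b = 0 := by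
    calc A * A * e b = A * (A * e b) := by rw [Matrix.mul_assoc]
      _ = A * (U b * N * V b) := by rw [hblk b, hAbm]
      _ = (A * U b) * N * V b := by simp only [Matrix.mul_assoc]
      _ = U b * (N * N) * V b := by
        rw [hAU]
        simp only [Matrix.mul_assoc]
      _ = 0 := by rw [hN, Matrix.mul_zero, Matrix.zero_mul]
  have hAAT : (A * A)ᵀ * (J * u) = J * u * (A * A) := by
    rw [Matrix.transpose_mul, Matrix.mul_assoc, hsk, Matrix.mul_neg, ← Matrix.mul_assoc, hsk, Matrix.neg_mul, neg_neg,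
      Matrix.mul_assoc]
  have hAAb' : e (bar b) * (A * A) = 0 := by
    apply m06_canc g.det'
    calc J * u * (e (bar b) * (A * A)) = (J * u * e (bar b)) * (A * A) := by rw [Matrix.mul_assoc (J * u)]
      _ = (e b)ᵀ * (J * u * (A * A)) := by rw [← g.spl.adj b, Matrix.mul_assoc ((e b)ᵀ)]
      _ = (e b)ᵀ * (A * A)ᵀ * (J * u) := by rw [← hAAT, Matrix.mul_assoc ((e b)ᵀ)]
      _ = (A * A * e b)ᵀ * (J * u) := by rw [Matrix.transpose_mul (A * A)]
      _ = 0 := by rw [hAAb, Matrix.transpose_zero, Matrix.zero_mul]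
  have hAAD : ∀ z ∈ DD, A * A * z = z * (A * A) := by
    intro z hz
    rw [Matrix.mul_assoc, hAD z hz, ← Matrix.mul_assoc, hAD z hz, Matrix.mul_assoc]
  have hAA : A * A = 0 := by
    apply g.spl.ext_comm hAAD
    · intro z _
      rw [Matrix.zero_mul, Matrix.mul_zero]
    · intro c
      rw [Matrix.zero_mul]
      by_cases h1 : c = b
      · rw [h1]
        exact hAAb
      by_cases h2 : c = bar b
      · rw [h2, hAAD _ (g.spl.mem _)]
        exact hAAb'
      rw [Matrix.mul_assoc, hA0 c h1 h2, Matrix.mul_zero]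
  refine ⟨1 + A, ?_, ?_, ?_, ?_⟩
  · have h1 := zlie_exp hAz hAA 1 g.one 1
    rwa [one_smul, Matrix.one_mul] at h1
  · have h1 : J * u * A * A = 0 := by rw [Matrix.mul_assoc, hAA, Matrix.mul_zero]
    rw [Matrix.transpose_add, Matrix.transpose_one, Matrix.add_mul, Matrix.one_mul, hsk, Matrix.mul_add, Matrix.mul_one,
      Matrix.add_mul, Matrix.neg_mul, h1]
    abel
  · rw [Matrix.add_mul, Matrix.one_mul, hAU, Matrix.mul_add, Matrix.mul_one]
  · intro c h1 h2
    rw [Matrix.add_mul, Matrix.one_mul, hA0 c h1 h2, add_zero]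

/-- PROOF. `FB.gen` (G07) with `g.full b` for the set `Z` of all `M` such that the claim holds: `1`: `y = 1` (`subset_zar`, `g.one`); products: `zar_mul g.mul`; `1 + N`: `one_add`; `ε`: `g.hh`,
`y_diag`, `y_mem`. -/
theorem comp {b : B} {M : Matrix (Fin (n b)) (Fin (n b)) K}
    (hM : bar b = b → Mᵀ * ((U b)ᵀ * (J * u) * U b) * M = (U b)ᵀ * (J * u) * U b) (hdet : M.det = 1) :
    ∃ y ∈ zar S, yᵀ * (J * u) * y = J * u ∧ y * U b = U b * M ∧ ∀ c, c ≠ b → c ≠ bar b → y * e c = e c := by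
  obtain ⟨h, hh, hx⟩ := g.hh
  obtain ⟨ε, hε, hε1⟩ := g.y_diag b hh hx
  have hεL : dg ε ∈ LcN J S (U b) (V b) := by
    rw [← hε]
    exact (g.y_mem b hh).1
  have key : M ∈ {M : Matrix (Fin (n b)) (Fin (n b)) K | ∃ y ∈ zar S, yᵀ * (J * u) * y = J * u ∧ y * U b = U b * M ∧
      ∀ c, c ≠ b → c ≠ bar b → y * e c = e c} := by
    refine FB.gen (g.full b) hεL hε1 ?_ ?_ ?_ hM hdet
    · exact ⟨1, subset_zar S g.one, by rw [Matrix.transpose_one, Matrix.one_mul, Matrix.mul_one],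
        by rw [Matrix.one_mul, Matrix.mul_one], fun c _ _ => Matrix.one_mul _⟩
    · rintro a ⟨ya, hya, hia, h2, h3⟩ c ⟨yc, hyc, hic, h4, h5⟩
      refine ⟨ya * yc, zar_mul g.mul hya hyc, ?_, ?_, ?_⟩
      · calc (ya * yc)ᵀ * (J * u) * (ya * yc) = ycᵀ * (yaᵀ * (J * u) * ya) * yc := by
              rw [Matrix.transpose_mul]
              simp only [Matrix.mul_assoc]
          _ = J * u := by rw [hia, hic]
      · rw [Matrix.mul_assoc, h4, ← Matrix.mul_assoc, h2, Matrix.mul_assoc]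
      · intro k hk hk'
        rw [Matrix.mul_assoc, h5 k hk hk', h3 k hk hk']
    · intro N hN hNL
      exact g.one_add hN hNL
  exact key

/-- PROOF. `M = V b * Y * U b`; its determinant is `(1 - e b + Y * e b).det = 1` (`H76U.det_on` with `g.UV`, `g.VU`; see `H76U.comp_fac`); if `bar b = b`:
`Mᵀ (U bᵀ J u U b) M = (U b M)ᵀ (J u) (U b M)` and `U b * M = e b * Y * U b = Y * U b`, so it is `U bᵀ Yᵀ (J u) Y U b = U bᵀ (J u) U b`.  `comp` gives `y` with `y * U b = Y * U b`, so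
`y * e b = Y * e b`.  At `bar b`: `Yᵀ (J u) Y = J u = yᵀ (J u) y`.  `(Y * e b)ᵀ (J u) Y = (e b)ᵀ (J u) = J u * e (bar b)` and `(y * e b)ᵀ (J u) y = J u * e (bar b)`; let
`W = (Y * e b)ᵀ * (J u) = (y * e b)ᵀ * (J u)`; so `W * Y = W * y`; and `W = (e b)ᵀ * Yᵀ * (J u) = (e b)ᵀ * (J u) * Y⁻¹ = J u * e (bar b) * Y⁻¹ = J u * Y⁻¹ * e (bar b)` (`Y` is invertible by
`det'`, `Y⁻¹` commutes with `DD`), so `e (bar b) * Y = e (bar b) * y`, and `y * e (bar b) = Y * e (bar b)` (`y` commutes with `DD`: `zar_commute`). -/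
theorem fac {Y : Matrix ι ι K} (hY : Yᵀ * (J * u) * Y = J * u) (hYD : ∀ z ∈ DD, Y * z = z * Y)
    (hdet : ∀ b, (1 - e b + Y * e b).det = 1) (b : B) :
    ∃ z ∈ zar S, z * e b = Y * e b ∧ z * e (bar b) = Y * e (bar b) ∧ ∀ c, c ≠ b → c ≠ bar b → z * e c = e c := by
  have hUM : U b * (V b * Y * U b) = Y * U b := by
    calc U b * (V b * Y * U b) = (U b * V b) * Y * U b := by simp only [Matrix.mul_assoc]
      _ = e b * Y * U b := by rw [← g.UV b]
      _ = Y * e b * U b := by rw [hYD _ (g.spl.mem b)]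
      _ = Y * U b := by rw [Matrix.mul_assoc, g.eU b]
  have hMdet : (V b * Y * U b).det = 1 := by
    rw [← Pool.Agent.H76U.det_on (g.UV b) (g.VU b) (hYD _ (g.spl.mem b))]
    exact hdet b
  obtain ⟨y, hy, hyJ, hyU, hyc⟩ := g.comp (b := b) (M := V b * Y * U b) (fun _ => by
    have h1 : (V b * Y * U b)ᵀ * ((U b)ᵀ * (J * u) * U b) * (V b * Y * U b) =
        (U b * (V b * Y * U b))ᵀ * (J * u) * (U b * (V b * Y * U b)) := by
      rw [Matrix.transpose_mul (U b)]
      simp only [Matrix.mul_assoc]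
    rw [h1, hUM, Matrix.transpose_mul]
    calc (U b)ᵀ * Yᵀ * (J * u) * (Y * U b) = (U b)ᵀ * (Yᵀ * (J * u) * Y) * U b := by simp only [Matrix.mul_assoc]
      _ = (U b)ᵀ * (J * u) * U b := by rw [hY]) hMdet
  have hyD : ∀ z ∈ DD, y * z = z * y := fun z hz => zar_commute (fun s hs => g.SD s hs z hz) hy
  have h4 : y * e b = Y * e b := by
    calc y * e b = y * (U b * V b) := by rw [← g.UV b]
      _ = (y * U b) * V b := by rw [Matrix.mul_assoc]
      _ = Y * U b * V b := by rw [hyU, hUM]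
      _ = Y * (U b * V b) := by rw [Matrix.mul_assoc]
      _ = Y * e b := by rw [← g.UV b]
  refine ⟨y, hy, h4, ?_, hyc⟩
  have h5 : (Y * e b)ᵀ * (J * u) * Y = J * u * e (bar b) := by
    rw [Matrix.transpose_mul, Matrix.mul_assoc, Matrix.mul_assoc, ← Matrix.mul_assoc Yᵀ, hY, g.spl.adj b]
  have h6 : (y * e b)ᵀ * (J * u) * y = J * u * e (bar b) := by
    rw [Matrix.transpose_mul, Matrix.mul_assoc, Matrix.mul_assoc, ← Matrix.mul_assoc yᵀ, hyJ, g.spl.adj b]
  have h7 : (Y * e b)ᵀ * (J * u) = Yᵀ * (J * u) * e (bar b) := by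
    rw [hYD _ (g.spl.mem b), Matrix.transpose_mul, Matrix.mul_assoc, g.spl.adj b, ← Matrix.mul_assoc]
  have h8 : Yᵀ * (J * u) * (e (bar b) * (y - Y)) = 0 := by
    rw [← Matrix.mul_assoc, ← h7, Matrix.mul_sub, h5, ← h4, h6, sub_self]
  have h9 : IsUnit (Yᵀ * (J * u)).det := by
    have h10 : (Yᵀ * (J * u)).det * Y.det = (J * u).det := by rw [← Matrix.det_mul, hY]
    have h11 : IsUnit ((Yᵀ * (J * u)).det * Y.det) := by
      rw [h10]
      exact g.det'
    exact isUnit_of_mul_isUnit_left h11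
  have h12 := m06_canc h9 h8
  rw [Matrix.mul_sub, sub_eq_zero] at h12
  rw [hyD _ (g.spl.mem _), hYD _ (g.spl.mem _), h12]

/-- PROOF. Copy of the proof of `H76U.iso_mem4` (H76U/Grp4.lean, 60 lines), with `fac` in place of `comp_fac`. -/
theorem iso_mem {Y : Matrix ι ι K} (hY : Yᵀ * (J * u) * Y = J * u) (hYD : ∀ z ∈ DD, Y * z = z * Y)
    (hdet : ∀ b, (1 - e b + Y * e b).det = 1) : Y ∈ zar S := by
  have key : ∀ T : Finset B, ∃ z ∈ zar S, ∀ c,
      ((c ∈ T ∨ bar c ∈ T) → z * e c = Y * e c) ∧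
      (¬ (c ∈ T ∨ bar c ∈ T) → z * e c = e c) := by
    intro T
    induction T using Finset.induction_on with
    | empty =>
      refine ⟨1, subset_zar S g.one, fun c => ⟨fun hc => ?_, fun _ => one_mul _⟩⟩
      rcases hc with hc | hc <;> exact absurd hc (Finset.notMem_empty _)
    | insert b T hbT ih =>
      obtain ⟨z, hz, hzc⟩ := ih
      by_cases hbb : bar b ∈ T
      · refine ⟨z, hz, fun c => ⟨fun hc => ?_, fun hc => ?_⟩⟩
        · apply (hzc c).1
          rcases hc with hc | hc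
          · rcases Finset.mem_insert.1 hc with rfl | hc
            · exact Or.inr hbb
            · exact Or.inl hc
          · rcases Finset.mem_insert.1 hc with hc | hc
            · left
              rw [← hc, g.spl.barbar] at hbb
              exact hbb
            · exact Or.inr hc
        · apply (hzc c).2
          rintro (hc' | hc')
          · exact hc (Or.inl (Finset.mem_insert_of_mem hc'))
          · exact hc (Or.inr (Finset.mem_insert_of_mem hc'))
      · obtain ⟨z', hz', h1, h2, h3⟩ := g.fac hY hYD hdet b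
        have hz'D : ∀ d ∈ DD, z' * d = d * z' := fun d hd =>
          zar_commute (fun s hs => g.SD s hs d hd) hz'
        have hprod : ∀ c, z * e c = e c → z * z' * e c = z' * e c := by
          intro c hc
          rw [mul_assoc, hz'D _ (g.spl.mem c), ← mul_assoc, hc]
        have hb1 : z * e b = e b := (hzc b).2 (by
          rintro (hc | hc)
          · exact hbT hc
          · exact hbb hc)
        have hb2 : z * e (bar b) = e (bar b) := (hzc (bar b)).2 (by
          rintro (hc | hc)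
          · exact hbb hc
          · rw [g.spl.barbar] at hc
            exact hbT hc)
        refine ⟨z * z', zar_mul g.mul hz hz', fun c => ⟨fun hc => ?_, fun hc => ?_⟩⟩
        · by_cases hcb : c = b
          · subst hcb
            rw [hprod _ hb1, h1]
          by_cases hcb' : c = bar b
          · subst hcb'
            rw [hprod _ hb2, h2]
          rw [mul_assoc, h3 c hcb hcb']
          apply (hzc c).1
          rcases hc with hc | hc
          · rcases Finset.mem_insert.1 hc with hc | hc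
            · exact absurd hc hcb
            · exact Or.inl hc
          · rcases Finset.mem_insert.1 hc with hc | hc
            · exact absurd (by rw [← hc, g.spl.barbar]) hcb'
            · exact Or.inr hc
        · have hcb : c ≠ b := by
            rintro rfl
            exact hc (Or.inl (Finset.mem_insert_self _ _))
          have hcb' : c ≠ bar b := by
            rintro rfl
            rw [g.spl.barbar] at hc
            exact hc (Or.inr (Finset.mem_insert_self _ _))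
          rw [mul_assoc, h3 c hcb hcb']
          apply (hzc c).2
          rintro (hc' | hc')
          · exact hc (Or.inl (Finset.mem_insert_of_mem hc'))
          · exact hc (Or.inr (Finset.mem_insert_of_mem hc'))
  obtain ⟨z, hz, hzc⟩ := key Finset.univ
  have hzY : z = Y := by
    apply g.spl.ext_comm (fun d hd => zar_commute (fun s hs => g.SD s hs d hd) hz) hYD
    intro b
    exact (hzc b).1 (Or.inl (Finset.mem_univ b))
  rw [← hzY]
  exact hz

end Sit

end Pool.Agent.H34Z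
end

-- from Lib.H76Y.W7
section

/-!
# the Newton function
-/

set_option autoImplicit false
set_option linter.unusedSectionVars false
namespace Pool.Agent.H76Y
open Pool.Agent.H76P Pool.Agent.H76V Pool.Agent.H76Q
open Module Matrix Polynomial Pool.Agent.H53Toric
open Pool.Agent.H76P
open Pool.Agent.H76T (IsIdeal Fam Lc)
open Pool.Agent.H76U (cmp preL IsSplitting)
open Pool.Agent.H76RM (spanK similD)

variable {ι : Type*} [Fintype ι] [DecidableEq ι] {ψ : Matrix ι ι ℚ}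
    {D : Subalgebra ℚ (Matrix ι ι ℚ)} {M : Type*} [Field M] [NumberField M]
    {m : ℕ} {bar : Fin m → Fin m} {e : Fin m → Matrix ι ι M} {G : Type*} [Group G]
    {ρ : ∀ (l : ℕ) [Fact l.Prime], G →* Matrix.GeneralLinearGroup ι ℚ_[l]}
    {p : ℕ} [Fact p.Prime] {σ : G} {q : ℚ} {F : Fin m → M[X]}
    {φ μ ν : Matrix ι ι (AlgebraicClosure ℚ_[p])} {v : AlgebraicClosure ℚ_[p] → ℚ}
    {Δ : Set (AlgebraicClosure ℚ_[p] ≃+* AlgebraicClosure ℚ_[p])}
    {Ω : Type*} [Field Ω] [CharZero Ω] [IsAlgClosed Ω] [Algebra.IsAlgebraic ℚ Ω] {j : M →+* Ω}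
    {R : Finset Ω} {N : Set ℕ} (C : Core3 ψ D bar e ρ p σ q F φ μ ν v Δ j R N)

include C

/-- PROOF. `Core3.locp`.  `dq ε` is in an ideal `I` of `L = LcN J S U V` with `InP P I` or `InP (1 - P) I` (`inv_AZ`, `HT_spec`); the first is impossible (`ε` would be constant, `FunP_both`).  As in `H76P.vid_mem` (G8): the space
`{A | A commutes with e and phi (cmp U V A) ∈ I}` or `{U X V : X ∈ I}` is `adStable`, contains `(2 μ - 1) e`, so (`C.crys.newton`) `(ν - c) e`, so `dq (fun k => v (d k) - c) ∈ I` (`C.crys.nu`); `c` is the average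
(trace zero) and rational; so this function is in `Y` (`h.ts.diag`) and depends only on the second coordinate. -/
theorem Core3.newt (b : Fin m)
    {n : ℕ} {a : Fin n → Ω} (ha : Function.Injective a)
    (hroot : ∀ y : Ω, (F b).eval₂ j y = 0 ↔ ∃ k, y = a k)
    {P : Module.End ℚ (YS a)} (hP : Sp P) (hg : GoodN (bar b = b) P) (i : Ω →+* AlgebraicClosure ℚ_[p])
    {ε : Fin n → ℚ} (hε : IsHT μ φ ((e b).map (i.comp j)) (fun k => i (a k)) ε)
    (hεP : FunP (1 - P) ε) : FunP (1 - P) (fun k => v (i (a k))) := by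
  obtain ⟨H₀, U, V, hfin, h⟩ := C.locp b ha hroot i
  have hμ := C.crys.mu
  have hμφ := C.crys.muphi
  obtain ⟨hphi, hεY, hε1⟩ := HT_spec h hμ hμφ hε
  obtain ⟨hμμ, hμe, -, hμL⟩ := h.par μ hμ
  have : Nonempty (Fin n) := ⟨⟨0, h.pos⟩⟩
  have hc : Comp (LcN (ψ.map (algebraMap ℚ (AlgebraicClosure ℚ_[p])))
      (img (AlgebraicClosure ℚ_[p]) (ρ p) H₀) U V) P := hg _ _ h.ts h.cls h.yo
  rw [hphi] at hμL
  have hsq : (dq ε : Module.End (AlgebraicClosure ℚ_[p]) (Fin n → AlgebraicClosure ℚ_[p])) * dq ε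
      = 1 := by
    unfold dq
    rw [dg_mul, ← dg_one]
    congr 1
    funext k
    rcases hε1 k with h1 | h1 <;> simp [h1]
  obtain ⟨I, hI, hεI, hIP⟩ := inv_AZ h.ts hc hμL hsq
  have hIP' : InP (1 - P) I := by
    rcases hIP with h1 | h1
    · exfalso
      have h2 : ε = 0 := FunP_both hP hεY.1 (h1 ε hεY hεI) hεP
      have h3 := hε1 ⟨0, h.pos⟩
      rw [h2] at h3
      rcases h3 with h3 | h3 <;> simp at h3
    · exact h1
  set E := (e b).map (i.comp j) with hE
  have hEE : E * E = E := by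
    rw [h.UV]
    calc U * V * (U * V) = U * (V * U) * V := by simp only [Matrix.mul_assoc]
      _ = U * V := by rw [h.VU, Matrix.mul_one]
  have heU : E * U = U := by rw [h.UV, Matrix.mul_assoc, h.VU, Matrix.mul_one]
  let I' : Submodule (AlgebraicClosure ℚ_[p]) (Matrix ι ι (AlgebraicClosure ℚ_[p])) :=
    { carrier := {A | A * E = A ∧ E * A = A ∧ phi (cmp U V A) ∈ I}
      add_mem' := by
        rintro A A' ⟨h1, h2, h3⟩ ⟨h4, h5, h6⟩
        refine ⟨by rw [Matrix.add_mul, h1, h4], by rw [Matrix.mul_add, h2, h5], ?_⟩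
        rw [map_add, map_add]
        exact I.add_mem h3 h6
      zero_mem' := by
        refine ⟨Matrix.zero_mul _, Matrix.mul_zero _, ?_⟩
        rw [map_zero, map_zero]
        exact I.zero_mem
      smul_mem' := by
        rintro c A ⟨h1, h2, h3⟩
        refine ⟨by rw [Matrix.smul_mul, h1], by rw [Matrix.mul_smul, h2], ?_⟩
        rw [map_smul, map_smul]
        exact I.smul_mem _ h3 }
  have hmem : ∀ A, A ∈ I' ↔ A * E = A ∧ E * A = A ∧ phi (cmp U V A) ∈ I := fun A => Iff.rfl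
  have hstab : adStable (zlie (img (AlgebraicClosure ℚ_[p]) (ρ p) H₀)) I' := by
    intro Z hZ A hA
    obtain ⟨h1, h2, h3⟩ := (hmem A).1 hA
    obtain ⟨hCe, c, hc⟩ := h.lie Z hZ
    rw [hmem]
    refine ⟨?_, ?_, ?_⟩
    · rw [Matrix.sub_mul, Matrix.mul_assoc, h1, Matrix.mul_assoc, hCe, ← Matrix.mul_assoc, h1]
    · rw [Matrix.mul_sub, ← Matrix.mul_assoc, ← Matrix.mul_assoc, h2, ← hCe, Matrix.mul_assoc, h2]
    · have hC' : (Z - c • 1) * E = E * (Z - c • 1) := by
        rw [Matrix.sub_mul, Matrix.mul_sub, hCe, Matrix.smul_mul, Matrix.mul_smul, Matrix.one_mul,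
          Matrix.mul_one]
      have hA' : A * E = E * A := by rw [h1, h2]
      have e1 : Z * A - A * Z = (Z - c • 1) * A - A * (Z - c • 1) := by
        rw [Matrix.sub_mul, Matrix.mul_sub, Matrix.smul_mul, Matrix.mul_smul, Matrix.one_mul,
          Matrix.mul_one]
        abel
      rw [e1, map_sub, H76U.cmp_mul h.UV h.VU hA', H76U.cmp_mul h.UV h.VU hC', map_sub, map_mul,
        map_mul]
      exact hI.2 _ hc _ h3
  have hbase : ((2 : AlgebraicClosure ℚ_[p]) • μ - 1) * E ∈ I' := by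
    have hye : ((2 : AlgebraicClosure ℚ_[p]) • μ - 1) * E =
        E * ((2 : AlgebraicClosure ℚ_[p]) • μ - 1) := by
      rw [Matrix.sub_mul, Matrix.mul_sub, Matrix.smul_mul, Matrix.mul_smul, Matrix.one_mul,
        Matrix.mul_one, hμe]
    rw [hmem]
    refine ⟨by rw [Matrix.mul_assoc, hEE], by rw [← Matrix.mul_assoc, ← hye, Matrix.mul_assoc, hEE], ?_⟩
    have e2 : cmp U V (((2 : AlgebraicClosure ℚ_[p]) • μ - 1) * E) =
        cmp U V ((2 : AlgebraicClosure ℚ_[p]) • μ - 1) := by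
      rw [H76U.cmp_apply, H76U.cmp_apply]
      rw [← Matrix.mul_assoc V, Matrix.mul_assoc _ E U, heU]
    rw [e2, hphi]
    exact hεI
  obtain ⟨c, hc⟩ := C.crys.newton (i.comp j) b H₀ hfin I' hstab hbase
  have hc2 := ((hmem _).1 hc).2.2
  have hν : ν * U = U * Matrix.diagonal (fun k => (v (i (a k)) : AlgebraicClosure ℚ_[p])) := by
    ext x k
    have h1 : φ *ᵥ (fun x => U x k) = (i (a k)) • (fun x => U x k) := by
      have h2 := h.ec.eig
      funext y
      have h3 := congrFun (congrFun h2 y) k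
      rw [Matrix.mul_diagonal] at h3
      rw [Pi.smul_apply, smul_eq_mul, mul_comm, ← h3]
      rfl
    have h2 := congrFun (C.crys.nu _ _ h1) x
    rw [Matrix.mul_diagonal, mul_comm]
    exact h2
  have e3 : cmp U V ((ν - c • 1) * E) =
      Matrix.diagonal (fun k => (v (i (a k)) : AlgebraicClosure ℚ_[p]) - c) := by
    rw [H76U.cmp_apply, ← Matrix.mul_assoc V, Matrix.mul_assoc _ E U, heU, Matrix.mul_sub,
      Matrix.sub_mul, Matrix.mul_assoc, hν, ← Matrix.mul_assoc, h.VU, Matrix.one_mul, Matrix.mul_smul,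
      Matrix.mul_one, Matrix.smul_mul, h.VU]
    ext i j
    by_cases hij : i = j
    · subst hij
      simp
    · simp [Matrix.diagonal_apply_ne _ hij, Matrix.one_apply_ne hij]
  rw [e3, phi_diag] at hc2
  have htr := h.ts.cmp.tr _ (hI.1 hc2)
  rw [dg_trace, Finset.sum_sub_distrib, Finset.sum_const, Finset.card_univ, Fintype.card_fin,
    nsmul_eq_mul] at htr
  have hn0 : (n : AlgebraicClosure ℚ_[p]) ≠ 0 := by exact_mod_cast h.pos.ne'
  have hcv : c = (∑ k, (v (i (a k)) : AlgebraicClosure ℚ_[p])) / n := by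
    rw [eq_div_iff hn0]
    linear_combination -htr
  have e4 : (dq (fun k => v (i (a k)) - (∑ l, v (i (a l))) / n) :
      Module.End (AlgebraicClosure ℚ_[p]) (Fin n → AlgebraicClosure ℚ_[p])) =
      dg (fun k => (v (i (a k)) : AlgebraicClosure ℚ_[p]) - c) := by
    unfold dq
    congr 1
    funext k
    rw [hcv]
    push_cast
    ring
  rw [← e4] at hc2
  have hY := h.ts.diag _ (hI.1 hc2)
  rw [h.yo] at hY
  have hfun := hIP' _ hY hc2
  intro k k' hk
  have h5 := hfun k k' hk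
  exact sub_left_injective h5

/-- PROOF. Otherwise `FunP (1 - P) ε` for all `i`, `ε` (`HT_or`), so `v (i (a k)) = v (i (a k'))` for all `i` if `cz (1 - P) k k'` (`Core3.newt`), so `k = k'` (`C.gal`).  But `P ≠ 0`, so `cz P k k'` fails for some
`k`, `k'`; `c` with `cz P c k`, `cz (1 - P) c k'` (`Sp.exists_mx`) is `k'`: contradiction.  (`i`, `ε` exist: `Core3.locp`, `exists_HT`.) -/
theorem Core3.onto (b : Fin m)
    {n : ℕ} {a : Fin n → Ω} (ha : Function.Injective a)
    (hroot : ∀ y : Ω, (F b).eval₂ j y = 0 ↔ ∃ k, y = a k)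
    {P : Module.End ℚ (YS a)} (hP : Sp P) (hg : GoodN (bar b = b) P) (hP0 : P ≠ 0) :
    ∃ (i : Ω →+* AlgebraicClosure ℚ_[p]) (ε : Fin n → ℚ),
      IsHT μ φ ((e b).map (i.comp j)) (fun k => i (a k)) ε ∧ FunP P ε := by
  by_contra hcon
  push Not at hcon
  have hμ := C.crys.mu
  have hμφ := C.crys.muphi
  have hall : ∀ i : Ω →+* AlgebraicClosure ℚ_[p], FunP (1 - P) (fun k => v (i (a k))) := by
    intro i
    obtain ⟨H₀, U, V, hfin, h⟩ := C.locp b ha hroot i
    obtain ⟨ε, hε⟩ := exists_HT h hμ hμφ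
    have hc : Comp (LcN (ψ.map (algebraMap ℚ (AlgebraicClosure ℚ_[p])))
      (img (AlgebraicClosure ℚ_[p]) (ρ p) H₀) U V) P := hg _ _ h.ts h.cls h.yo
    rcases HT_or h hμ hμφ hε hc with h1 | h1
    · exact absurd h1 (hcon i ε hε)
    · exact C.newt b ha hroot hP hg i hε h1
  have hkk : ∀ k k', cz (1 - P) k k' → k = k' := by
    intro k k' hk
    by_contra hne
    obtain ⟨i, hi⟩ := C.gal b (a k) (a k') ((hroot _).2 ⟨k, rfl⟩) ((hroot _).2 ⟨k', rfl⟩)
      (fun h1 => hne (ha h1))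
    exact hi (hall i k k' hk)
  apply hP0
  refine LinearMap.ext fun f => Subtype.ext ?_
  have hconst : ∀ k k', (P f : Fin n → ℚ) k = (P f : Fin n → ℚ) k' := by
    intro k k'
    obtain ⟨c, hc1, hc2⟩ := hP.exists_mx k k'
    have h1 := hkk c k' hc2
    rw [h1] at hc1
    exact (hc1 f).symm
  have hsum := (P f).2.1
  funext k
  have h1 : (n : ℚ) * (P f : Fin n → ℚ) k = 0 := by
    rw [← hsum, Finset.sum_congr rfl fun l _ => hconst l k, Finset.sum_const, Finset.card_univ,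
      nsmul_eq_mul, Fintype.card_fin]
  have hn0 : (n : ℚ) ≠ 0 := by
    have := k.pos
    positivity
  exact (mul_eq_zero.1 h1).resolve_left hn0

end Pool.Agent.H76Y
end

-- from Lib.H76Y.W9
section

/-!
# the numbers of blocks
-/

set_option autoImplicit false
set_option linter.unusedSectionVars false
namespace Pool.Agent.H76Y
open Pool.Agent.H76P Pool.Agent.H76V Pool.Agent.H76Q
open Module Matrix Polynomial Pool.Agent.H53Toric
open Pool.Agent.H76P
open Pool.Agent.H76T (IsIdeal Fam Lc)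
open Pool.Agent.H76U (cmp preL IsSplitting)
open Pool.Agent.H76RM (spanK similD)

variable {ι : Type*} [Fintype ι] [DecidableEq ι] {ψ : Matrix ι ι ℚ}
    {D : Subalgebra ℚ (Matrix ι ι ℚ)} {M : Type*} [Field M] [NumberField M]
    {m : ℕ} {bar : Fin m → Fin m} {e : Fin m → Matrix ι ι M} {G : Type*} [Group G]
    {ρ : ∀ (l : ℕ) [Fact l.Prime], G →* Matrix.GeneralLinearGroup ι ℚ_[l]}
    {p : ℕ} [Fact p.Prime] {σ : G} {q : ℚ} {F : Fin m → M[X]}
    {φ μ ν : Matrix ι ι (AlgebraicClosure ℚ_[p])} {v : AlgebraicClosure ℚ_[p] → ℚ}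
    {Δ : Set (AlgebraicClosure ℚ_[p] ≃+* AlgebraicClosure ℚ_[p])}
    {Ω : Type*} [Field Ω] [CharZero Ω] [IsAlgClosed Ω] [Algebra.IsAlgebraic ℚ Ω] {j : M →+* Ω}
    {R : Finset Ω} {N : Set ℕ} (C : Core3 ψ D bar e ρ p σ q F φ μ ν v Δ j R N)

include C

omit C in
theorem w9_exists_i (p : ℕ) [Fact p.Prime] (Ω : Type*) [Field Ω] [CharZero Ω] [IsAlgClosed Ω]
    [Algebra.IsAlgebraic ℚ Ω] : Nonempty (Ω →+* AlgebraicClosure ℚ_[p]) := by
  exact ⟨(IsAlgClosed.lift (R := ℚ) (S := Ω) (M := AlgebraicClosure ℚ_[p])).toRingHom⟩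

theorem Core3.w9_i (b : Fin m) {r : Ω} (hr : r ∈ R) :
    ∃ i : Ω →+* AlgebraicClosure ℚ_[p], v (i r) = 1 := by
  obtain ⟨i₀⟩ := w9_exists_i p Ω
  obtain ⟨r₀, hr₀, h1, -⟩ := C.Rval i₀
  obtain ⟨s, hs⟩ := C.Rtrans r hr r₀ hr₀
  refine ⟨i₀.comp s.toRingHom, ?_⟩
  show v (i₀ (s r)) = 1
  rw [hs, h1]

theorem Core3.w9_uniq {r r' : Ω} (hr : r ∈ R) (hr' : r' ∈ R)
    (i : Ω →+* AlgebraicClosure ℚ_[p]) (h : v (i r) = 1) (h' : v (i r') = 1) : r = r' := by
  obtain ⟨r₁, -, -, h2⟩ := C.Rval i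
  have h3 : ∀ x ∈ R, v (i x) = 1 → x = r₁ := by
    intro x hx hv
    by_contra hne
    rw [h2 x hx hne] at hv
    exact zero_ne_one hv
  rw [h3 r hr h, h3 r' hr' h']

theorem Core3.w9_HT (b : Fin m) {n : ℕ} {a : Fin n → Ω} (ha : Function.Injective a)
    (hroot : ∀ y : Ω, (F b).eval₂ j y = 0 ↔ ∃ k, y = a k) (i : Ω →+* AlgebraicClosure ℚ_[p]) :
    0 < n ∧ ∃ ε : Fin n → ℚ, IsHT μ φ ((e b).map (i.comp j)) (fun k => i (a k)) ε ∧
      ε ∈ YS a ∧ (∀ k, ε k = 1 ∨ ε k = -1) ∧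
      ∀ P : Module.End ℚ (YS a), GoodN (bar b = b) P → FunP P ε ∨ FunP (1 - P) ε := by
  obtain ⟨H₀, U, V, -, hloc⟩ := C.locp b ha hroot i
  obtain ⟨ε, hε⟩ := exists_HT hloc C.crys.mu C.crys.muphi
  obtain ⟨-, h2, h3⟩ := HT_spec hloc C.crys.mu C.crys.muphi hε
  refine ⟨hloc.pos, ε, hε, h2, h3, fun P hP => ?_⟩
  exact HT_or hloc C.crys.mu C.crys.muphi hε
    (hP (AlgebraicClosure ℚ_[p]) _ hloc.ts hloc.cls hloc.yo)

/-- The eigenvalues in the closure of `ℚ`. -/
theorem Core3.w9_prod (b : Fin m) {n : ℕ} {a : Fin n → Ω} (ha : Function.Injective a)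
    (hroot : ∀ y : Ω, (F b).eval₂ j y = 0 ↔ ∃ k, y = a k) :
    0 < n ∧ (∀ k, a k ≠ 0) ∧ (∏ k, a k) ^ 2 = (algebraMap ℚ Ω q) ^ n ∧ algebraMap ℚ Ω q ≠ 0 := by
  obtain ⟨i⟩ := w9_exists_i p Ω
  obtain ⟨H₀, U, V, -, h⟩ := C.locp b ha hroot i
  have ha0 : ∀ k, a k ≠ 0 := fun k h0 => h.ec.ne k (by rw [h0, map_zero])
  have h1 := h.prod
  have h2 : (∏ k, a k) ^ 2 = (algebraMap ℚ Ω q) ^ n := by
    apply i.injective
    rw [map_pow, map_pow, map_prod, h1]
    simp
  refine ⟨h.pos, ha0, h2, ?_⟩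
  intro h0
  rw [h0, zero_pow h.pos.ne'] at h2
  have h3 : ∏ k, a k = 0 := by
    exact pow_eq_zero_iff (two_ne_zero) |>.1 h2
  exact Finset.prod_ne_zero_iff.2 (fun k _ => ha0 k) h3

theorem Core3.types3 (b : Fin m)
    {n : ℕ} {a : Fin n → Ω} (ha : Function.Injective a)
    (hroot : ∀ y : Ω, (F b).eval₂ j y = 0 ↔ ∃ k, y = a k)
    {FF : Finset (Module.End ℚ (YS a))} (hFF : ∀ P ∈ FF, Sp P ∧ P ≠ 0 ∧ GoodN (bar b = b) P)
    (horth : ∀ P ∈ FF, ∀ P' ∈ FF, P ≠ P' → P * P' = 0) (hsum : ∑ P ∈ FF, P = 1)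
    (hperm : ∀ π : Equiv.Perm (Fin n), (∀ g ∈ YS a, g ∘ π ∈ YS a) → ∀ P ∈ FF,
      ∃ P' ∈ FF, MvP π P P') :
    ∃ RP : Module.End ℚ (YS a) → Finset Ω, (∀ P ∈ FF, RP P ⊆ R ∧ (RP P).Nonempty) ∧
      (∀ r ∈ R, ∃ P ∈ FF, r ∈ RP P) ∧
      (∀ P ∈ FF, ∀ P' ∈ FF, ∀ r, r ∈ RP P → r ∈ RP P' → P = P') ∧
      ∀ s : Ω ≃+* Ω, Linked D ((e b).map j) ((e b).map (s.toRingHom.comp j)) ∨
          Linked D ((e (bar b)).map j) ((e b).map (s.toRingHom.comp j)) →
        ∃ π : Equiv.Perm (Fin n), ((∀ k, s (a k) = a (π k)) ∧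
            Linked D ((e b).map j) ((e b).map (s.toRingHom.comp j)) ∨
          bar b ≠ b ∧ ∀ k, s (a k) * a (π k) = algebraMap ℚ Ω q) ∧
          (∀ g ∈ YS a, g ∘ π ∈ YS a) ∧
          ∀ P ∈ FF, ∃ P' ∈ FF, MvP π P P' ∧ ∀ r ∈ RP P, s r ∈ RP P' := by
  classical
  have hSum : ∀ g ∈ YS a, ∑ k, g k = 0 := fun g hg => hg.1
  have h1 : ∀ P : Module.End ℚ (YS a), ∃ RP : Finset Ω, P ∈ FF → (RP ⊆ R ∧
      ∀ (i : Ω →+* AlgebraicClosure ℚ_[p]) (ε : Fin n → ℚ),
        IsHT μ φ ((e b).map (i.comp j)) (fun k => i (a k)) ε →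
          (FunP P ε ↔ ∃ r ∈ RP, v (i r) = 1)) := by
    intro P
    by_cases hP : P ∈ FF
    · obtain ⟨RP, h2, h3⟩ := C.ht_iff b ha hroot (hFF P hP).1 (hFF P hP).2.2
      exact ⟨RP, fun _ => ⟨h2, h3⟩⟩
    · exact ⟨∅, fun h => absurd h hP⟩
  choose RP hRP using h1
  have hK : ∀ P ∈ FF, ∀ r ∈ R, ∀ (i : Ω →+* AlgebraicClosure ℚ_[p]) (ε : Fin n → ℚ),
      v (i r) = 1 → IsHT μ φ ((e b).map (i.comp j)) (fun k => i (a k)) ε →
        (FunP P ε ↔ r ∈ RP P) := by
    intro P hP r hr i ε hv hε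
    rw [(hRP P hP).2 i ε hε]
    constructor
    · rintro ⟨r', hr', hv'⟩
      rw [C.w9_uniq hr ((hRP P hP).1 hr') i hv hv']
      exact hr'
    · intro h
      exact ⟨r, h, hv⟩
  have hdisj : ∀ P ∈ FF, ∀ P' ∈ FF, ∀ r, r ∈ RP P → r ∈ RP P' → P = P' := by
    intro P hP P' hP' r hr hr'
    by_contra hne
    have hrR := (hRP P hP).1 hr
    obtain ⟨i, hi⟩ := C.w9_i b hrR
    obtain ⟨hn, ε, hε, hεY, hε1, -⟩ := C.w9_HT b ha hroot i
    haveI : Nonempty (Fin n) := ⟨⟨0, hn⟩⟩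
    have h2 := (hK P hP r hrR i ε hi hε).2 hr
    have h3 := (hK P' hP' r hrR i ε hi hε).2 hr'
    have h4 : P ⟨ε, hεY⟩ = ⟨ε, hεY⟩ := (FunP_iff (hFF P hP).1 hSum ⟨ε, hεY⟩).1 h2
    have h5 : P' ⟨ε, hεY⟩ = ⟨ε, hεY⟩ := (FunP_iff (hFF P' hP').1 hSum ⟨ε, hεY⟩).1 h3
    have h6 : (P * P') ⟨ε, hεY⟩ = ⟨ε, hεY⟩ := by
      show P (P' ⟨ε, hεY⟩) = ⟨ε, hεY⟩
      rw [h5, h4]
    rw [horth P hP P' hP' hne] at h6
    have h7 : (0 : Fin n → ℚ) = ε := congrArg Subtype.val h6
    have h8 := congrFun h7 ⟨0, hn⟩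
    rcases hε1 ⟨0, hn⟩ with h9 | h9 <;> rw [h9] at h8 <;> simp at h8
  have hnon : ∀ P ∈ FF, (RP P).Nonempty := by
    intro P hP
    obtain ⟨i, ε, h2, h3⟩ := C.onto b ha hroot (hFF P hP).1 (hFF P hP).2.2 (hFF P hP).2.1
    obtain ⟨r, hr, -⟩ := ((hRP P hP).2 i ε h2).1 h3
    exact ⟨r, hr⟩
  refine ⟨RP, fun P hP => ⟨(hRP P hP).1, hnon P hP⟩, ?_, hdisj, ?_⟩
  · intro r hr
    obtain ⟨i, hi⟩ := C.w9_i b hr
    obtain ⟨hn, ε, hε, hεY, hε1, hor⟩ := C.w9_HT b ha hroot i
    haveI : Nonempty (Fin n) := ⟨⟨0, hn⟩⟩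
    have h2 : ∃ P ∈ FF, P ⟨ε, hεY⟩ ≠ 0 := by
      by_contra hcon
      push Not at hcon
      have h3 : (∑ P ∈ FF, P) ⟨ε, hεY⟩ = 0 := by
        rw [LinearMap.sum_apply]
        exact Finset.sum_eq_zero hcon
      rw [hsum] at h3
      have h7 : ε = (0 : Fin n → ℚ) := congrArg Subtype.val h3
      have h8 := congrFun h7 ⟨0, hn⟩
      rcases hε1 ⟨0, hn⟩ with h9 | h9 <;> rw [h9] at h8 <;> simp at h8
    obtain ⟨P, hP, hPε⟩ := h2
    refine ⟨P, hP, (hK P hP r hr i ε hi hε).1 ?_⟩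
    rcases hor P (hFF P hP).2.2 with h3 | h3
    · exact h3
    · exfalso
      have h4 := (FunP_iff (hFF P hP).1.compl hSum ⟨ε, hεY⟩).1 h3
      apply hPε
      have h5 : (⟨ε, hεY⟩ : YS a) - P ⟨ε, hεY⟩ = ⟨ε, hεY⟩ := h4
      rwa [sub_eq_self] at h5
  · intro s hlink
    have key : ∀ (π : Equiv.Perm (Fin n)), (∀ g ∈ YS a, g ∘ π ∈ YS a) →
        (∀ (i : Ω →+* AlgebraicClosure ℚ_[p]) (ε : Fin n → ℚ),
          IsHT μ φ ((e b).map (i.comp j)) (fun k => i (a k)) ε →
          ∃ ε' : Fin n → ℚ, (∀ k k', ε (π.symm k) = ε (π.symm k') → ε' k = ε' k') ∧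
            IsHT μ φ ((e b).map ((i.comp s.symm.toRingHom).comp j))
              (fun k => i.comp s.symm.toRingHom (a k)) ε') →
        ∀ P ∈ FF, ∃ P' ∈ FF, MvP π P P' ∧ ∀ r ∈ RP P, s r ∈ RP P' := by
      intro π hY hπ2 P hP
      obtain ⟨P'', hP'', hmv⟩ := hperm π hY P hP
      refine ⟨P'', hP'', hmv, ?_⟩
      intro r₁ hr₁
      have hr₁R := (hRP P hP).1 hr₁
      obtain ⟨i, hi⟩ := C.w9_i b hr₁R
      obtain ⟨hn, ε, hε, hεY, hε1, hor⟩ := C.w9_HT b ha hroot i
      have h2 := (hK P hP r₁ hr₁R i ε hi hε).2 hr₁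
      obtain ⟨ε', hεε, h3⟩ := hπ2 i ε hε
      refine (hK P'' hP'' (s r₁) (C.Rstab s r₁ hr₁R) (i.comp s.symm.toRingHom) _ ?_ h3).1 ?_
      · show v (i (s.symm (s r₁))) = 1
        rw [s.symm_apply_apply, hi]
      · intro k k' hk
        apply hεε
        apply h2
        rw [hmv.1, π.apply_symm_apply, π.apply_symm_apply]
        exact hk
    have hlink' : Linked D ((e b).map j) ((e b).map (s.toRingHom.comp j)) ∨
        bar b ≠ b ∧ Linked D ((e (bar b)).map j) ((e b).map (s.toRingHom.comp j)) := by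
      rcases hlink with h | h
      · exact Or.inl h
      · by_cases hb : bar b = b
        · rw [hb] at h
          exact Or.inl h
        · exact Or.inr ⟨hb, h⟩
    rcases hlink' with hlink | ⟨hb, hlink⟩
    · obtain ⟨π, hπ, hπ2⟩ := C.linked b ha hroot hlink
      have hY : ∀ g ∈ YS a, g ∘ π ∈ YS a := fun g hg =>
        YS_perm (s := s.toRingHom) (fun k => (hπ k).symm) hg
      exact ⟨π, Or.inl ⟨hπ, hlink⟩, hY, key π hY fun i ε hε =>
        ⟨_, fun k k' h => h, hπ2 i ε hε⟩⟩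
    · obtain ⟨π, hπ, hπ2⟩ := C.dual_linked b ha hroot hlink
      obtain ⟨hn, ha0, hpr, hq0⟩ := C.w9_prod b ha hroot
      haveI : Nonempty (Fin n) := ⟨⟨0, hn⟩⟩
      have hY : ∀ g ∈ YS a, g ∘ π ∈ YS a := fun g hg =>
        YS_dual (s := s.toRingHom) ha0 hq0 hπ (by rw [hpr, Fintype.card_fin]) hg
      exact ⟨π, Or.inr ⟨hb, hπ⟩, hY, key π hY fun i ε hε =>
        ⟨_, fun k k' h => congrArg Neg.neg h, hπ2 i ε hε⟩⟩

end Pool.Agent.H76Y
end

-- from Lib.H76Y.W11a
section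

/-!
# the partition
-/

set_option autoImplicit false
set_option linter.unusedSectionVars false
namespace Pool.Agent.H76Y
open Pool.Agent.H76P Pool.Agent.H76V Pool.Agent.H76Q
open Module Matrix Polynomial TensorProduct Pool.Agent.H53Toric
open Pool.Agent.H76P
open Pool.Agent.H76T (IsIdeal Fam Lc)
open Pool.Agent.H76U (cmp preL IsSplitting)
open Pool.Agent.H76RM (spanK similD)

variable {ι : Type*} [Fintype ι] [DecidableEq ι] {ψ : Matrix ι ι ℚ}
    {D : Subalgebra ℚ (Matrix ι ι ℚ)} {M : Type*} [Field M] [NumberField M]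
    {m : ℕ} {bar : Fin m → Fin m} {e : Fin m → Matrix ι ι M} {G : Type*} [Group G]
    {ρ : ∀ (l : ℕ) [Fact l.Prime], G →* Matrix.GeneralLinearGroup ι ℚ_[l]}
    {p : ℕ} [Fact p.Prime] {σ : G} {q : ℚ} {F : Fin m → M[X]}
    {φ μ ν : Matrix ι ι (AlgebraicClosure ℚ_[p])} {v : AlgebraicClosure ℚ_[p] → ℚ}
    {Δ : Set (AlgebraicClosure ℚ_[p] ≃+* AlgebraicClosure ℚ_[p])}
    {Ω : Type*} [Field Ω] [CharZero Ω] [IsAlgClosed Ω] [Algebra.IsAlgebraic ℚ Ω] {j : M →+* Ω}
    {R : Finset Ω} {N : Set ℕ} (C : Core3 ψ D bar e ρ p σ q F φ μ ν v Δ j R N)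

include C


/-- The decomposition of the set `R` given by a family of good blocks. -/
theorem Core3.partd (b : Fin m) {n : ℕ} {a : Fin n → Ω} (ha : Function.Injective a)
    (hroot : ∀ y : Ω, (F b).eval₂ j y = 0 ↔ ∃ k, y = a k) (hn : 0 < n)
    {FF : Finset (Module.End ℚ (YS a))} (hFF : ∀ P ∈ FF, Sp P ∧ P ≠ 0 ∧ GoodN (bar b = b) P)
    (horth : ∀ P ∈ FF, ∀ P' ∈ FF, P ≠ P' → P * P' = 0) (hsum : ∑ P ∈ FF, P = 1)
    (hperm : ∀ π : Equiv.Perm (Fin n), (∀ g ∈ YS a, g ∘ π ∈ YS a) → ∀ P ∈ FF,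
      ∃ P' ∈ FF, MvP π P P') (h2 : 0 < FF.card) :
    ∃ (c : Ω → Fin FF.card) (A : Fin FF.card → ℕ),
      PartN D j (bar b = b) (e b) (e (bar b)) (F b) q R c A ∧
      n = ∏ x, A x := by
  classical
  have hne : Nonempty (Fin n) := ⟨⟨0, hn⟩⟩
  have h0 : ∀ f ∈ YS a, ∑ k, f k = 0 := fun f hf => hf.1
  have hSp : ∀ P ∈ FF, Sp P := fun P hP => (hFF P hP).1
  obtain ⟨RP, hRP, hcov, hdis, hmove⟩ := C.types3 b ha hroot hFF horth hsum hperm
  obtain ⟨-, ha0, hprod, hq0⟩ := C.w9_prod b ha hroot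
  obtain ⟨i₀⟩ := w9_exists_i p Ω
  have hsep : ∀ k l, k ≠ l → ∃ g ∈ YS a, g k ≠ g l :=
    YS_sep ha0 fun k l n hn h => ha (C.tor b ((hroot _).2 ⟨k, rfl⟩) ((hroot _).2 ⟨l, rfl⟩) hn h)
  obtain ⟨E⟩ : Nonempty ({P // P ∈ FF} ≃ Fin FF.card) := ⟨FF.equivFin⟩
  obtain ⟨P₀, hP₀⟩ := Finset.card_pos.1 h2
  obtain ⟨c, hc⟩ : ∃ c : Ω → Fin FF.card, ∀ (P : Module.End ℚ (YS a)) (hP : P ∈ FF) (r : Ω), r ∈ RP P → c r = E ⟨P, hP⟩ := by
    refine ⟨fun r => if h : ∃ P : {P // P ∈ FF}, r ∈ RP P.1 then E h.choose else E ⟨P₀, hP₀⟩, fun P hP r hr => ?_⟩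
    have h : ∃ P : {P // P ∈ FF}, r ∈ RP P.1 := ⟨⟨P, hP⟩, hr⟩
    simp only [dif_pos h]
    congr 1
    exact Subtype.ext (hdis _ h.choose.2 _ hP r h.choose_spec hr)
  refine ⟨c, fun x => nz (E.symm x).1, ⟨?_, ?_, ?_⟩, ?_⟩
  · intro x
    obtain ⟨r, hr⟩ := (hRP (E.symm x).1 (E.symm x).2).2
    refine ⟨r, (hRP (E.symm x).1 (E.symm x).2).1 hr, ?_⟩
    rw [hc _ (E.symm x).2 r hr, Subtype.coe_eta, Equiv.apply_symm_apply]
  · intro x
    obtain ⟨P, hP⟩ := E.symm x
    show Even (nz P)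
    obtain ⟨i, ε, hε, hf⟩ := C.onto b ha hroot (hFF P hP).1 (hFF P hP).2.2 (hFF P hP).2.1
    obtain ⟨H₀, U, V, -, hloc⟩ := C.locp b ha hroot i
    obtain ⟨-, h3, h4⟩ := HT_spec hloc C.crys.mu C.crys.muphi hε
    exact nz_even2 hsep (hSp P hP) hf h4 (h0 ε h3)
  · intro s hlink
    obtain ⟨π₀, hs1, hs2, hs3⟩ := hmove s hlink
    -- a permutation which acts trivially or as an inversion fixes all blocks
    have htriv : ∀ P : Module.End ℚ (YS a), (∀ k, π₀ k = k) ∨
        (∀ k, a k * a (π₀ k) = algebraMap ℚ Ω q) → MvP π₀ P P := by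
      intro P h
      rcases h with h | h
      · exact ⟨fun k k' => by rw [h, h], fun k k' => by rw [h, h]⟩
      · have hbb : ∀ k, π₀ (π₀ k) = k := by
          intro k
          apply ha
          have h1 := h k
          have h3 := h (π₀ k)
          rw [← h1, mul_comm (a k)] at h3
          exact mul_left_cancel₀ (ha0 _) h3
        have hneg : ∀ (f : YS a) (k : Fin n), (f : Fin n → ℚ) (π₀ k) = -(f : Fin n → ℚ) k :=
          fun f k => YS_bar ha0 h f.2 k
        have hczb : ∀ (P : Module.End ℚ (YS a)) (k k' : Fin n), cz P k k' → cz P (π₀ k) (π₀ k') := by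
          intro P k k' h f
          rw [hneg, hneg, h f]
        refine ⟨fun k k' => ⟨hczb P k k', fun h => ?_⟩, fun k k' => ⟨hczb (1 - P) k k', fun h => ?_⟩⟩
        · have h1 := hczb P _ _ h
          rwa [hbb, hbb] at h1
        · have h1 := hczb (1 - P) _ _ h
          rwa [hbb, hbb] at h1
    obtain ⟨g, hg⟩ : ∃ g : Module.End ℚ (YS a) → Module.End ℚ (YS a), ∀ P ∈ FF, g P ∈ FF ∧ MvP π₀ P (g P) ∧ ∀ r ∈ RP P, s r ∈ RP (g P) := by
      refine ⟨fun P => if h : P ∈ FF then (hs3 P h).choose else P, fun P hP => ?_⟩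
      simp only [dif_pos hP]
      exact (hs3 P hP).choose_spec
    have hinj : ∀ P ∈ FF, ∀ P' ∈ FF, g P = g P' → P = P' := by
      intro P hP P' hP' h
      have h3 := (hg P hP).2.1
      have h4 := (hg P' hP').2.1
      rw [← h] at h4
      exact g10_ext h0 (hSp P hP) (hSp P' hP') (fun k k' => (h3.1 k k').trans (h4.1 k k').symm)
        fun k k' => (h3.2 k k').trans (h4.2 k k').symm
    let G' : {P // P ∈ FF} → {P // P ∈ FF} := fun P => ⟨g P.1, (hg P.1 P.2).1⟩
    have hG'inj : Function.Injective G' := fun P P' h => Subtype.ext (hinj P.1 P.2 P'.1 P'.2 (congrArg Subtype.val h))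
    obtain ⟨g', hg'⟩ : ∃ g' : Equiv.Perm {P // P ∈ FF}, ∀ P, (g' P).1 = g P.1 :=
      ⟨Equiv.ofBijective G' (Finite.injective_iff_bijective.1 hG'inj), fun _ => rfl⟩
    have hg'pow : ∀ (k : ℕ) (P : {P // P ∈ FF}), ((g' ^ k) P).1 = g^[k] P.1 := by
      intro k
      induction k with
      | zero => intro P; rfl
      | succ k ih =>
        intro P
        rw [Function.iterate_succ_apply', pow_succ', Equiv.Perm.mul_apply, hg', ih]
    obtain ⟨π, hπ⟩ : ∃ π : Equiv.Perm (Fin FF.card), ∀ x, π x = E (g' (E.symm x)) :=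
      ⟨(E.symm.trans g').trans E, fun _ => rfl⟩
    have hπpow : ∀ (k : ℕ) (x : Fin FF.card), (π ^ k) x = E ((g' ^ k) (E.symm x)) := by
      intro k
      induction k with
      | zero => intro x; exact (E.apply_symm_apply x).symm
      | succ k ih =>
        intro x
        rw [pow_succ', Equiv.Perm.mul_apply, ih, hπ, Equiv.symm_apply_apply, pow_succ', Equiv.Perm.mul_apply]
    refine ⟨π, ?_, ?_, ?_, ?_⟩
    · intro r hr
      obtain ⟨P, hP, hrP⟩ := hcov r hr
      rw [hc P hP r hrP, hπ, Equiv.symm_apply_apply, hc (g P) (hg P hP).1 (s r) ((hg P hP).2.2 r hrP)]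
      congr 1
      exact Subtype.ext (hg' ⟨P, hP⟩).symm
    · intro x
      show nz (E.symm (π x)).1 = nz (E.symm x).1
      rw [hπ, Equiv.symm_apply_apply, hg']
      exact (nz_mv (hg _ (E.symm x).2).2.1).symm
    · intro hy
      have h3 : (∀ k, π₀ k = k) ∨ (∀ k, a k * a (π₀ k) = algebraMap ℚ Ω q) := by
        rcases hs1 with ⟨hs1, -⟩ | ⟨-, hs1⟩
        · right
          intro k
          rw [← hs1, mul_comm]
          exact hy (a k) ((hroot _).2 ⟨k, rfl⟩)
        · left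
          intro k
          apply ha
          have h4 := hy (a k) ((hroot _).2 ⟨k, rfl⟩)
          rw [← hs1 k] at h4
          have h5 : s (a k) ≠ 0 := fun h0 => ha0 k (by rwa [_root_.map_eq_zero] at h0)
          exact (mul_left_cancel₀ h5 h4).symm
      have h5 : ∀ P ∈ FF, g P = P := by
        intro P hP
        have h6 := (hg P hP).2.1
        have h7 := htriv P h3
        refine g10_ext h0 (hSp _ (hg P hP).1) (hSp P hP) (fun k k' => ?_) fun k k' => ?_
        · have h8 := h6.1 (π₀.symm k) (π₀.symm k')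
          have h9 := h7.1 (π₀.symm k) (π₀.symm k')
          rw [Equiv.apply_symm_apply, Equiv.apply_symm_apply] at h8 h9
          exact h8.symm.trans h9
        · have h8 := h6.2 (π₀.symm k) (π₀.symm k')
          have h9 := h7.2 (π₀.symm k) (π₀.symm k')
          rw [Equiv.apply_symm_apply, Equiv.apply_symm_apply] at h8 h9
          exact h8.symm.trans h9
      ext x
      rw [hπ, Equiv.Perm.one_apply]
      have h6 : g' (E.symm x) = E.symm x := Subtype.ext ((hg' _).trans (h5 _ (E.symm x).2))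
      rw [h6, Equiv.apply_symm_apply]
    · intro hb
      rcases hs1 with ⟨hs1, hlink'⟩ | ⟨hb', -⟩
      · obtain ⟨u, hu, P, hP, hgu⟩ := C.odd b hb ha hroot hn hFF horth hsum hlink' hs1 g
          fun P hP => ⟨(hg P hP).1, (hg P hP).2.1⟩
        refine ⟨u, E ⟨P, hP⟩, hu, ?_⟩
        rw [hπpow, Equiv.symm_apply_apply]
        congr 1
        exact Subtype.ext ((hg'pow u ⟨P, hP⟩).trans hgu)
      · exact absurd hb hb'
  · have h7 := prod_nz h0 hsep hSp horth hsum
    rw [Fintype.card_fin] at h7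
    refine h7.trans ?_
    rw [← Finset.prod_coe_sort]
    exact Fintype.prod_equiv E _ _ fun P => by rw [Equiv.symm_apply_apply]

end Pool.Agent.H76Y
end

-- from Lib.H76Y.W11
section

/-!
# the Lie algebra of a component
-/

set_option autoImplicit false
set_option linter.unusedSectionVars false
namespace Pool.Agent.H76Y
open Pool.Agent.H76P Pool.Agent.H76V Pool.Agent.H76Q
open Module Matrix Polynomial Pool.Agent.H53Toric
open Pool.Agent.H76P
open Pool.Agent.H76T (IsIdeal Fam Lc)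
open Pool.Agent.H76U (cmp preL IsSplitting)
open Pool.Agent.H76RM (spanK similD)

variable {ι : Type*} [Fintype ι] [DecidableEq ι] {ψ : Matrix ι ι ℚ}
    {D : Subalgebra ℚ (Matrix ι ι ℚ)} {M : Type*} [Field M] [NumberField M]
    {m : ℕ} {bar : Fin m → Fin m} {e : Fin m → Matrix ι ι M} {G : Type*} [Group G]
    {ρ : ∀ (l : ℕ) [Fact l.Prime], G →* Matrix.GeneralLinearGroup ι ℚ_[l]}
    {p : ℕ} [Fact p.Prime] {σ : G} {q : ℚ} {F : Fin m → M[X]}
    {φ μ ν : Matrix ι ι (AlgebraicClosure ℚ_[p])} {v : AlgebraicClosure ℚ_[p] → ℚ}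
    {Δ : Set (AlgebraicClosure ℚ_[p] ≃+* AlgebraicClosure ℚ_[p])}
    {Ω : Type*} [Field Ω] [CharZero Ω] [IsAlgClosed Ω] [Algebra.IsAlgebraic ℚ Ω] {j : M →+* Ω}
    {R : Finset Ω} {N : Set ℕ} (C : Core3 ψ D bar e ρ p σ q F φ μ ν v Δ j R N)

include C


/-- The rank of the idempotent is even and positive. -/
theorem Core3.rank_even (b : Fin m) : 0 < (e b).rank ∧ Even (e b).rank := by
  obtain ⟨a, ha, hroot⟩ := C.enum b
  obtain ⟨h1, -⟩ := C.w9_prod b ha hroot
  obtain ⟨i⟩ := w9_exists_i p Ω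
  refine ⟨h1, ?_⟩
  rw [← C.bal p μ C.crys.mu (i.comp j) b]
  exact even_two_mul _

/-- The component theorem: if the decompositions of the set of embeddings are excluded, the Lie algebra
of the component is the whole symplectic algebra if the component is its own conjugate, and contains an
operator of rank one if not. -/
theorem Core3.comp (part : ∀ b (k : ℕ) (c : Ω → Fin k) (A : Fin k → ℕ), 2 ≤ k →
      PartN D j (bar b = b) (e b) (e (bar b)) (F b) q R c A → (e b).rank ≠ ∏ x, A x)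
    (two : ∀ b (k : ℕ), 4 ≤ k → (bar b = b ∨ Even k) → (e b).rank ≠ 2 ^ k)
    (binom : ∀ b (k : ℕ), bar b = b → 3 ≤ k → Odd k → (e b).rank ≠ k.centralBinom) (b : Fin m) :
    ∃ a : Fin (e b).rank → Ω, Function.Injective a ∧
      (∀ y : Ω, (F b).eval₂ j y = 0 ↔ ∃ k, y = a k) ∧
      ∀ (K : Type) [Field K] [CharZero K] [IsAlgClosed K]
        (L : Submodule K (Module.End K (Fin (e b).rank → K))), TM L → Yo L = YS a →
        (bar b = b → ∀ J : Matrix (Fin (e b).rank) (Fin (e b).rank) K, Jᵀ = -J → IsUnit J.det →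
          (∀ X ∈ L, adjE J X = -X) → ∀ X, adjE J X = -X → X ∈ L) ∧
        (bar b ≠ b → NsL L → ∃ N ∈ L, N * N = 0 ∧ finrank K (LinearMap.range N) = 1) := by
  obtain ⟨a, ha, hroot⟩ := C.enum b
  obtain ⟨hn, hev⟩ := C.rank_even b
  obtain ⟨-, ha0, -, -⟩ := C.w9_prod b ha hroot
  have hsep : ∀ k l, k ≠ l → ∃ g ∈ YS a, g k ≠ g l :=
    YS_sep ha0 fun k l n hn h => ha (C.tor b ((hroot _).2 ⟨k, rfl⟩) ((hroot _).2 ⟨l, rfl⟩) hn h)
  have hs : ∀ g ∈ YS a, ∑ k, g k = 0 := fun g hg => hg.1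
  obtain ⟨FF, hFF, horth, hsum, hperm, hone⟩ := exists_blocksN hn hs (bar b = b)
  have : Nonempty (Fin (e b).rank) := ⟨⟨0, hn⟩⟩
  have hF1 : FF.card = 1 := by
    rcases Nat.lt_or_ge FF.card 2 with h5 | h5
    · interval_cases h6 : FF.card
      · exfalso
        have hcard : (e b).rank = 1 := by
          have h7 := prod_nz hs hsep (fun P hP => (hFF P hP).1) horth hsum
          rw [Finset.card_eq_zero.1 h6, Finset.prod_empty, Fintype.card_fin] at h7
          exact h7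
        rw [hcard] at hev
        exact absurd hev (by decide)
      · rfl
    · exfalso
      obtain ⟨c, A, h7, h8⟩ := C.partd b ha hroot hn hFF horth hsum hperm (by omega)
      exact part b FF.card c A h5 h7 h8
  have hB := hone hF1
  refine ⟨a, ha, hroot, fun K _ _ _ L hT hY => ⟨fun hb J hJ hJd hsk X hX => ?_, fun hb hns => ?_⟩⟩
  · have hTS : TS L J := ⟨⟨hT.cmp.lie, hT.cmp.irr, hJ, hJd, hsk, hT.cmp.gen⟩, hT.diag, hT.sep⟩
    refine full_of_one hTS hY hB (fun k hk => ?_) (fun k hk hk2 => ?_) hX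
    · rw [Fintype.card_fin]
      exact two b k hk (Or.inl hb)
    · rw [Fintype.card_fin]
      exact binom b k hb hk hk2
  · refine one_ns hT hns hY hB fun k hk hk2 => ?_
    rw [Fintype.card_fin]
    exact two b k hk (Or.inr hk2)

end Pool.Agent.H76Y
end

-- from Lib.H45Q.S5
section

/-!
# S5: the component theorem of the third version with one class of Hodge-Tate cocharacters
-/

set_option autoImplicit false
set_option linter.unusedSectionVars false
namespace Pool.Agent.H45Q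
open Module Matrix Polynomial Pool.Agent.H53Toric Pool.Agent.H76P Pool.Agent.H76Q
open Pool.Agent.H76T (IsIdeal Fam Lc)
open Pool.Agent.H76V (Cmp)
open Pool.Agent.H76U (cmp preL IsSplitting)
open Pool.Agent.H76RM (spanK similD)

section
variable {κ : Type*} {K : Type*} [Field K] [CharZero K] [Fintype κ] [DecidableEq κ]
  {L : Submodule K (Module.End K (κ → K))} {J : Matrix κ κ K} [IsAlgClosed K] [Nonempty κ]

/-- The configuration of the whole symplectic algebra is the space of all odd functions. -/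
theorem exists_odd (h : TS L J) (hfull : ∀ X : Module.End K (κ → K), adjE J X = -X → X ∈ L) :
    ∃ bar : Equiv.Perm κ, (∀ k, bar (bar k) = k) ∧ (∀ k, bar k ≠ k) ∧
      (∀ f : κ → ℚ, (∀ k, f (bar k) = -f k) → f ∈ Yo L) ∧ ∀ f ∈ Yo L, ∀ k, f (bar k) = -f k := by
  have hex : ∀ k, ∃ l, J k l ≠ 0 := by
    intro k
    by_contra hcon
    push Not at hcon
    have h3 := h.cmp.Jd
    rw [Matrix.det_eq_zero_of_row_eq_zero k hcon] at h3
    exact not_isUnit_zero h3
  choose b hb using hex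
  have hopp : ∀ k l, J k l ≠ 0 → ∀ f ∈ Yo L, f l = -f k := fun k l hkl f hf =>
    Pool.Agent.Lib.H86E.opp h.cmp hf hkl
  have huniq : ∀ k l l', J k l ≠ 0 → J k l' ≠ 0 → l = l' := by
    intro k l l' h1 h2
    by_contra hne
    obtain ⟨f, hf, hf2⟩ := h.sep l l' hne
    exact hf2 (by rw [hopp k l h1 f hf, hopp k l' h2 f hf])
  have hsym : ∀ k l, J k l ≠ 0 → J l k ≠ 0 := by
    intro k l hkl h0
    have h1 := congrFun (congrFun h.cmp.Jt k) l
    rw [Matrix.transpose_apply, Matrix.neg_apply, h0] at h1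
    exact hkl (neg_eq_zero.1 h1.symm)
  have hbb : ∀ k, b (b k) = k := fun k => huniq (b k) _ _ (hb (b k)) (hsym _ _ (hb k))
  refine ⟨⟨b, b, hbb, hbb⟩, hbb, fun k hk => ?_, fun f hf => ?_, fun f hf k => hopp k (b k) (hb k) f hf⟩
  · have h1 := congrFun (congrFun h.cmp.Jt k) k
    rw [Matrix.transpose_apply, Matrix.neg_apply] at h1
    have h2 := hb k
    have h3 : b k = k := hk
    rw [h3] at h2
    exact h2 (self_eq_neg.1 h1)
  · refine h.diag f (hfull _ (Pool.Agent.Lib.H86E.skew_of_opp h.cmp fun k l hkl => ?_))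
    rw [huniq k l (b k) hkl (hb k)]
    exact hf k

end

section
variable {ι : Type*} [Fintype ι] [DecidableEq ι] {ψ : Matrix ι ι ℚ}
    {D : Subalgebra ℚ (Matrix ι ι ℚ)} {M : Type*} [Field M] [NumberField M]
    {m : ℕ} {bar : Fin m → Fin m} {e : Fin m → Matrix ι ι M} {G : Type*} [Group G]
    {ρ : ∀ (l : ℕ) [Fact l.Prime], G →* Matrix.GeneralLinearGroup ι ℚ_[l]}
    {p : ℕ} [Fact p.Prime] {σ : G} {q : ℚ} {F : Fin m → M[X]}
    {φ μ ν : Matrix ι ι (AlgebraicClosure ℚ_[p])} {v : AlgebraicClosure ℚ_[p] → ℚ}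
    {Δ : Set (AlgebraicClosure ℚ_[p] ≃+* AlgebraicClosure ℚ_[p])}
    {Ω : Type*} [Field Ω] [CharZero Ω] [IsAlgClosed Ω] [Algebra.IsAlgebraic ℚ Ω] {j : M →+* Ω}
    {R : Finset Ω} {N : Set ℕ} (C : H76Y.Core3 ψ D bar e ρ p σ q F φ μ ν v Δ j R N)

include C






end

end Pool.Agent.H45Q
end

-- from Lib.H76Z.BL2
section

/-!
# BL2: blocks are compatible with the simple ideals
-/

set_option autoImplicit false
set_option linter.unusedSectionVars false
namespace Pool.Agent.H76Z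
open Pool.Agent.H76Y
open Pool.Agent.H76P Pool.Agent.H76V Pool.Agent.H76Q
open Module Matrix Pool.Agent.H53Toric
open Pool.Agent.H76T (IsIdeal Fam)

variable {κ : Type*} {K : Type*} [Field K] [CharZero K] [Fintype κ] [DecidableEq κ]
  {L : Submodule K (Module.End K (κ → K))} [IsAlgClosed K] [Nonempty κ]
  {Y : Submodule ℚ (κ → ℚ)} {P : Module.End ℚ Y}

theorem IsBlock.comp_cls {t : Cl} (hP : IsBlock P) (h : TM L) (ht : Cls t L) (hY : Yo L = Y)
    (h8 : t = .o → Fintype.card κ ≠ 8) : Comp L P := by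
  cases t with
  | s =>
    obtain ⟨J, hJ⟩ := ts_of_sy h (ht.1 rfl)
    exact H76Q.IsBlock.comp hP hJ hY
  | o => exact comp_ne8 hP h (h8 rfl) hY
  | n => exact compN hP h (ht.2.2 rfl) hY

theorem IsBlock.good {n : ℕ} (hn : 0 < n) {Y : Submodule ℚ (Fin n → ℚ)} {P : Module.End ℚ Y} (t : Cl)
    (h8 : t = .o → n ≠ 8) (hP : IsBlock P) : GoodN t P := by
  intro K _ _ _ L h ht hY
  have : Nonempty (Fin n) := ⟨⟨0, hn⟩⟩
  exact IsBlock.comp_cls hP h ht hY fun h1 => by
    rw [Fintype.card_fin]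
    exact h8 h1

end Pool.Agent.H76Z
end

-- from Lib.H45U.BL2
section

/-!
# BL2: blocks are compatible with the simple ideals
-/

set_option autoImplicit false
set_option linter.unusedSectionVars false
namespace Pool.Agent.H45U
open Pool.Agent.H76P Pool.Agent.H76V Pool.Agent.H76Q Pool.Agent.H76Y Pool.Agent.H76Z
open Module Matrix Pool.Agent.H53Toric
open Pool.Agent.H76T (IsIdeal Fam)

variable {κ : Type*} {K : Type*} [Field K] [CharZero K] [Fintype κ] [DecidableEq κ]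
  {L : Submodule K (Module.End K (κ → K))} [IsAlgClosed K] [Nonempty κ]
  {Y : Submodule ℚ (κ → ℚ)} {P : Module.End ℚ Y}

/-- In dimension two all matrices with trace zero respect an alternating form. -/
theorem sy_two {κ : Type*} {K : Type*} [Field K] [Fintype κ] [DecidableEq κ]
    {L : Submodule K (Module.End K (κ → K))} (h2 : Fintype.card κ = 2)
    (htr : ∀ X ∈ L, LinearMap.trace K (κ → K) X = 0) : SyL L := by
  classical
  obtain ⟨a, b, hab, huniv⟩ := Finset.card_eq_two.1 (Finset.card_univ (α := κ) ▸ h2)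
  have hall : ∀ k : κ, k = a ∨ k = b := fun k => by
    have h1 := Finset.mem_univ k
    rw [huniv, Finset.mem_insert, Finset.mem_singleton] at h1
    exact h1
  have hsum : ∀ f : κ → K, ∑ k, f k = f a + f b := fun f => by
    rw [huniv, Finset.sum_pair hab]
  obtain ⟨J, hJ⟩ : ∃ J : Matrix κ κ K, J a a = 0 ∧ J a b = 1 ∧ J b a = -1 ∧ J b b = 0 := by
    refine ⟨Matrix.of fun k l => if k = a then (if l = b then 1 else 0) else (if l = a then -1 else 0), ?_⟩
    simp [hab, hab.symm]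
  obtain ⟨haa, hab', hba, hbb⟩ := hJ
  have hJJ : J * (-J) = 1 := by
    ext k l
    rw [Matrix.mul_apply, hsum]
    rcases hall k with rfl | rfl <;> rcases hall l with rfl | rfl <;>
      simp [haa, hab', hba, hbb, hab, hab.symm]
  have hdet : IsUnit J.det := Matrix.isUnit_det_of_right_inverse hJJ
  refine ⟨J, ?_, hdet, fun X hX => ?_⟩
  · ext k l
    rw [Matrix.transpose_apply, Matrix.neg_apply]
    rcases hall k with rfl | rfl <;> rcases hall l with rfl | rfl <;> simp [haa, hab', hba, hbb]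
  · obtain ⟨A, rfl⟩ : ∃ A : Matrix κ κ K, X = phi A := ⟨phi.symm X, by simp⟩
    have h3 : A a a + A b b = 0 := by
      have h4 := htr _ hX
      have h5 : LinearMap.trace K (κ → K) (phi A) = A.trace := Matrix.trace_toLin'_eq _
      rw [h5, Matrix.trace, hsum] at h4
      exact h4
    rw [skew_iff hdet]
    ext k l
    rw [Matrix.add_apply, Matrix.mul_apply, Matrix.mul_apply, hsum, hsum, Matrix.zero_apply]
    simp only [Matrix.transpose_apply]
    rcases hall k with rfl | rfl <;> rcases hall l with rfl | rfl <;>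
      simp only [haa, hab', hba, hbb] <;>
      first | ring1 | linear_combination h3 | linear_combination (-1 : K) * h3

theorem block_comp {t : Cl} (hP : IsBlock P) (h : TM L) (ht : ClsU t L) (hY : Yo L = Y)
    (h8 : t = .o → Fintype.card κ ≠ 8) : Comp L P := by
  cases t with
  | s =>
    obtain ⟨J, hJ⟩ := ts_of_sy ((tm_iff (Or.inl (ht.1 rfl))).1 h) (ht.1 rfl)
    exact H76Q.IsBlock.comp hP hJ ((Yo_eq (Or.inl (ht.1 rfl))).symm.trans hY)
  | o =>
    exact H76Y.comp_ne8 hP ((tm_iff (Or.inr (ht.2.1 rfl))).1 h) (h8 rfl)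
      ((Yo_eq (Or.inr (ht.2.1 rfl))).symm.trans hY)
  | n =>
    rcases Nat.lt_or_ge 2 (Fintype.card κ) with h1 | h1
    · exact H25U.compN hP h (ht.2.2 rfl h1) hY
    rcases Nat.lt_or_ge 1 (Fintype.card κ) with h2 | h1
    · have hsy := sy_two (by omega) h.cmp.tr
      obtain ⟨J, hJ⟩ := ts_of_sy ((tm_iff (Or.inl hsy)).1 h) hsy
      exact H76Q.IsBlock.comp hP hJ ((Yo_eq (Or.inl hsy)).symm.trans hY)
    · intro m I _ i
      left
      intro f _ _ k k' _
      have : Subsingleton κ := Fintype.card_le_one_iff_subsingleton.1 h1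
      rw [Subsingleton.elim k k']

theorem block_good {n : ℕ} (hn : 0 < n) {Y : Submodule ℚ (Fin n → ℚ)} {P : Module.End ℚ Y} (t : Cl)
    (h8 : t = .o → n ≠ 8) (hP : IsBlock P) : GoodU t P := by
  intro K _ _ _ L h ht hY
  have : Nonempty (Fin n) := ⟨⟨0, hn⟩⟩
  exact block_comp hP h ht hY fun h1 => by
    rw [Fintype.card_fin]
    exact h8 h1


end Pool.Agent.H45U
end

-- from Lib.H76Z.G10
section

/-!
# the blocks of a configuration
-/

set_option autoImplicit false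
set_option linter.unusedSectionVars false
namespace Pool.Agent.H76Z
open Pool.Agent.H76Y
open Pool.Agent.H76P Pool.Agent.H76V Pool.Agent.H76Q
open Module Matrix Pool.Agent.H53Toric
open Pool.Agent.H76T (IsIdeal Fam)

/-- The blocks of a configuration are good for both classes. -/
theorem exists_blocksN {n : ℕ} (hn : 0 < n) {Y : Submodule ℚ (Fin n → ℚ)}
    (hs : ∀ g ∈ Y, ∑ k, g k = 0) (t : Cl) (h8 : t = .o → n ≠ 8) :
    ∃ FF : Finset (Module.End ℚ Y), (∀ P ∈ FF, Sp P ∧ P ≠ 0 ∧ GoodN t P) ∧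
      (∀ P ∈ FF, ∀ P' ∈ FF, P ≠ P' → P * P' = 0) ∧ ∑ P ∈ FF, P = 1 ∧
      (∀ π : Equiv.Perm (Fin n), (∀ g ∈ Y, g ∘ π ∈ Y) → ∀ P ∈ FF, ∃ P' ∈ FF, MvP π P P') ∧
      (FF.card = 1 → IsBlock (1 : Module.End ℚ Y)) := by
  classical
  have : Nonempty (Fin n) := ⟨⟨0, hn⟩⟩
  obtain ⟨B, hB, hsum, horth, hsp⟩ := exists_isBlock (Y := Y) hs
  refine ⟨B, fun P hP => ⟨(hsp P hP).1, (hsp P hP).2, ?_⟩, horth, hsum, fun π hπ P hP => ?_,
    fun h1 => isBlock_one hs hB h1⟩
  · exact IsBlock.good hn t h8 ((hB P).1 hP)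
  · obtain ⟨P', -, hP', -, -, h1, h2⟩ := ((hB P).1 hP).perm hπ
    exact ⟨P', (hB P').2 hP', h1, h2⟩

end Pool.Agent.H76Z
end

-- from Lib.H86L.M2
section

/-!
# M2: the local situation at a prime where the automorphism acts as the opposition, components with a form
-/

set_option autoImplicit false
set_option linter.unusedSectionVars false
namespace Pool.Agent.H86L
open Module Matrix Polynomial Pool.Agent.H53Toric Pool.Agent.H76P Pool.Agent.H76Q
open Pool.Agent.H86K (tset simple_of_one flip_full)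
open Pool.Agent.H76Y (LcN ThetaN TM CmpN)
open Pool.Agent.H76Z (Cl LocN)
open Pool.Agent.H76T (IsIdeal Fam)
open Pool.Agent.H76U (cmp preL)
open Pool.Agent.H76RM (spanK similD)

variable {ι : Type*} [Fintype ι] [DecidableEq ι] {K : Type*} [Field K] [CharZero K]
  [IsAlgClosed K] {ct : Cl} {J : Matrix ι ι K} {S 𝓗 : Set (Matrix ι ι K)} {e x : Matrix ι ι K} {q : K} {n : ℕ}
  {U : Matrix ι (Fin n) K} {V : Matrix (Fin n) ι K} {d : Fin n → K}
  {Y : Submodule ℚ (Fin n → ℚ)}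

/-- The elements of the group are products of one parameter groups. -/
theorem gen_tsetM (h : LocN ct J S 𝓗 e x q U V d Y) {g : Matrix ι ι K}
    (hg : g ∈ Submonoid.closure {y | ∃ k ∈ 𝓗, ∃ t : K, t ≠ 0 ∧ y = 1 + (t - 1) • k}) :
    phi (cmp U V g) ∈ Submonoid.closure (tset (LcN J S U V)) := by
  refine Submonoid.closure_induction (motive := fun m _ =>
    phi (cmp U V m) ∈ Submonoid.closure (tset (LcN J S U V))) ?_ ?_ ?_ hg
  · rintro _ ⟨k, hk, t, ht, rfl⟩
    obtain ⟨hkk, hke, -, hkL⟩ := h.par k hk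
    have h2 : ((2 : K) • k - 1) * e = e * ((2 : K) • k - 1) := by
      rw [sub_mul, mul_sub, one_mul, mul_one, smul_mul_assoc, mul_smul_comm, hke]
    have h3 : ((2 : K) • k - 1) * ((2 : K) • k - 1) = 1 := by
      simp only [sub_mul, mul_sub, smul_mul_assoc, mul_smul_comm, hkk, mul_one, one_mul]
      module
    have hyy : phi (cmp U V ((2 : K) • k - 1)) * phi (cmp U V ((2 : K) • k - 1)) = 1 := by
      rw [← map_mul, ← H76U.cmp_mul h.UV h.VU h2, h3, H76U.cmp_one h.UV h.VU, map_one]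
    have h4 : phi (cmp U V (1 + (t - 1) • k)) =
        ((1 + t) / 2) • (1 : Module.End K (Fin n → K)) + ((t - 1) / 2) • phi (cmp U V ((2 : K) • k - 1)) := by
      have h5 : 1 + (t - 1) • k = ((1 + t) / 2) • (1 : Matrix ι ι K) + ((t - 1) / 2) • ((2 : K) • k - 1) := by
        rw [smul_sub, smul_smul]
        module
      rw [h5, map_add, map_smul, map_smul, H76U.cmp_one h.UV h.VU, map_add, map_smul, map_smul, map_one]
    rw [h4]
    exact Submonoid.subset_closure ⟨_, hkL, hyy, t, ht, rfl⟩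
  · rw [H76U.cmp_one h.UV h.VU, map_one]
    exact Submonoid.one_mem _
  · rintro a b ha hb h1 h2
    rw [H76U.cmp_mul h.UV h.VU (H76Z.cmp_comm h hb), map_mul]
    exact Submonoid.mul_mem _ h1 h2

/-- The local situation at a prime where the automorphism acts as the opposition. -/
theorem full_localM (h : LocN ct J S 𝓗 e x q U V d Y) (hct : ct ≠ .n) (hone : IsBlock (1 : Module.End ℚ Y))
    (two : ∀ k : ℕ, n ≠ 2 ^ k) {τ : K ≃+* K} {a a' : Matrix ι ι K}
    (h1 : a * a' = e.map τ) (h2 : a' * a = e) (h3 : e * a' = a') (h4 : a' * e.map τ = a')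
    (h5 : e.map τ * a = a) (hxa : x * a' = a' * x)
    (hza : ∀ A ∈ zlie S, a * A = A * a)
    (hx : x.map τ = x) (hJ : J.map τ = J) (hS : ∀ s ∈ S, s.map τ = s)
    {bar : Equiv.Perm (Fin n)} (hσ : ∀ k, τ (d k) = d (bar k)) (hopp : ∀ f ∈ Y, ∀ k, f (bar k) = -f k)
    {y : Matrix ι ι K} (hy : y ∈ 𝓗) (hyx : y * x = x * y) {g g' : Matrix ι ι K}
    (hg : g ∈ Submonoid.closure {y | ∃ k ∈ 𝓗, ∃ t : K, t ≠ 0 ∧ y = 1 + (t - 1) • k})
    (hgg : g * g' = 1) (hconj : y.map τ = g * y * g') (hay : a * y.map τ = y.map τ * a) :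
    ∀ f : Fin n → ℚ, (∀ k, f (bar k) = -f k) → f ∈ Y := by
  classical
  have hne : Nonempty (Fin n) := ⟨⟨0, h.pos⟩⟩
  intro f hf
  -- the involution
  obtain ⟨ε, hε⟩ := H76Z.exists_HT h hy hyx
  obtain ⟨hval, hεY, hε1⟩ := H76Z.HT_spec h hy hyx hε
  obtain ⟨hyy, hye, -, hyL⟩ := h.par y hy
  rw [hval] at hyL
  have hsq : (dq ε : Module.End K (Fin n → K)) * dq ε = 1 := by
    unfold dq
    rw [dg_mul, ← dg_one]
    congr 1
    funext k
    rw [Pi.mul_apply, Pi.one_apply]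
    rcases hε1 k with h1 | h1
    · rw [h1]
      norm_num
    · rw [h1]
      norm_num
  -- the semilinear automorphism
  obtain ⟨θ, hθ, hθA⟩ := exists_theta2N h.UV h.VU h.ec h.ex h1 h2 h3 h4 h5 hxa hza hx hJ hS hσ
  have hneg : θ (dq ε) = -dq ε := by
    unfold dq
    rw [hθ.diag]
    have h1 : ∀ k, (τ ((ε (bar.symm k) : ℚ) : K)) = -((ε k : ℚ) : K) := by
      intro k
      rw [map_ratCast]
      have h2 : ε k = -ε (bar.symm k) := by
        have h3 := hopp ε hεY (bar.symm k)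
        rwa [Equiv.apply_symm_apply] at h3
      rw [h2]
      push_cast
      ring
    have h2 : (fun k => τ ((ε (bar.symm k) : ℚ) : K)) = fun k => -((ε k : ℚ) : K) := funext h1
    rw [h2]
    refine LinearMap.ext fun z => ?_
    funext k
    simp [dg_apply]
  have hge : g * e = e * g := H76Z.cmp_comm h hg
  have hg'g : g' * g = 1 := _root_.mul_eq_one_comm.1 hgg
  have hg'e : g' * e = e * g' := by
    calc g' * e = g' * (e * (g * g')) := by rw [hgg, Matrix.mul_one]
      _ = g' * ((e * g) * g') := by rw [Matrix.mul_assoc e g g']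
      _ = g' * ((g * e) * g') := by rw [hge]
      _ = (g' * g) * (e * g') := by simp only [Matrix.mul_assoc]
      _ = e * g' := by rw [hg'g, Matrix.one_mul]
  have hmul : ∀ A B : Matrix ι ι K, B * e = e * B → phi (cmp U V (A * B)) = phi (cmp U V A) * phi (cmp U V B) := by
    intro A B hB
    rw [Pool.Agent.H76U.cmp_mul h.UV h.VU hB, map_mul]
  have h2y : ((2 : K) • y - 1) * e = e * ((2 : K) • y - 1) := by
    rw [sub_mul, mul_sub, one_mul, mul_one, smul_mul_assoc, mul_smul_comm, hye]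
  have hGG : phi (cmp U V g) * phi (cmp U V g') = 1 := by
    rw [← hmul _ _ hg'e, hgg, Pool.Agent.H76U.cmp_one h.UV h.VU, map_one]
  have hflip : phi (cmp U V g) * dq ε * phi (cmp U V g') = -(dq ε : Module.End K (Fin n → K)) := by
    have h4' : ((2 : K) • y - 1).map τ = (2 : K) • y.map τ - 1 := by
      ext a b
      rw [Matrix.map_apply, Matrix.sub_apply, Matrix.sub_apply, Matrix.smul_apply, Matrix.smul_apply, Matrix.map_apply,
        smul_eq_mul, smul_eq_mul, map_sub, map_mul, map_ofNat]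
      congr 1
      by_cases hab : a = b
      · rw [hab, Matrix.one_apply_eq, map_one]
      · rw [Matrix.one_apply_ne hab, map_zero]
    have h5' : a * ((2 : K) • y - 1).map τ = ((2 : K) • y - 1).map τ * a := by
      rw [h4', Matrix.mul_sub, Matrix.sub_mul, Matrix.mul_smul, Matrix.smul_mul, hay, Matrix.mul_one, Matrix.one_mul]
    have h6' := hθA _ h5'
    rw [hval, hneg, h4', hconj] at h6'
    have h7' : (2 : K) • (g * y * g') - 1 = g * ((2 : K) • y - 1) * g' := by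
      rw [Matrix.mul_sub, Matrix.sub_mul, Matrix.mul_one, hgg, Matrix.mul_smul, Matrix.smul_mul]
    rw [h7', hmul _ _ hg'e, hmul _ _ h2y, hval] at h6'
    exact h6'.symm
  have hG := gen_tsetM h hg
  have hopp' : ∀ f ∈ Yo (LcN J S U V), ∀ k, f (bar k) = -f k := by
    intro f hf
    rw [h.yo] at hf
    exact hopp f hf
  rw [← h.yo]
  -- the Lie algebra is full
  cases ct with
  | n => exact absurd rfl hct
  | s =>
    obtain ⟨J', hJt, hJd, hsk⟩ := h.cls.1 rfl
    have hTS : TS (LcN J S U V) J' := ⟨⟨h.ts.cmp.lie, h.ts.cmp.irr, hJt, hJd, hsk, h.ts.cmp.gen⟩, h.ts.diag, h.ts.sep⟩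
    obtain ⟨I, hF⟩ := simple_of_one hTS h.yo hone fun k _ => by rw [Fintype.card_fin]; exact two k
    exact h.ts.diag f (flip_full hTS.cmp hF hyL hsq (fun m => by rw [Fintype.card_fin]; exact two m) hG hGG hflip
      (dq_skew hJd (fun k l hkl => entry_bar h.ts hJd hsk hopp' hkl) hf))
  | o =>
    obtain ⟨J', hJt, hJd, hsk⟩ := h.cls.2.1 rfl
    obtain ⟨I, hF⟩ := simple_of_oneN h.ts h.yo hone fun k => by rw [Fintype.card_fin]; exact two k
    exact h.ts.diag f (flip_fullJ h.ts.cmp hF hJt hJd hsk (fun m => by rw [Fintype.card_fin]; exact two m) hyL hsq hG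
      hGG hflip (dq_skew hJd (fun k l hkl => entry_bar h.ts hJd hsk hopp' hkl) hf))

end Pool.Agent.H86L
end
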