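import Pool.Agent.Lib.H1M.RC.M048
import Pool.Agent.Lib.H1M.RC.M049
import Pool.Agent.Lib.H1M.RC.M051
import Pool.Agent.Lib.H1M.RC.M053
import Pool.Agent.Lib.H1M.RC.M056
import Pool.Agent.Lib.H1M.RC.M057
import Pool.Agent.Lib.H1M.RC.M059
import Pool.Agent.Lib.H1M.RC.M060
import Pool.Agent.Lib.H1M.RC.M061
import Pool.Agent.Lib.H1M.RC.M065
import Pool.Agent.Lib.H1M.RC.M066
import Pool.Agent.Lib.H1M.RC.M067
import Pool.Agent.Lib.H1M.RC.M068

/-! Merged copies (to shorten the build) of Lib.H76Z.W9, Lib.H45U.W2a, Lib.H25W.Rel, Lib.H25W.Hodge, Lib.H45U.WH, Lib.H45U.W2, Lib.H45U.W3, Lib.H45U.E6, Lib.H45U.W4. -/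

-- from Lib.H76Z.W9
section

/-!
# the numbers of blocks
-/

set_option autoImplicit false
set_option linter.unusedSectionVars false
namespace Pool.Agent.H76Z
open Pool.Agent.H76Y
open Pool.Agent.H76P Pool.Agent.H76V Pool.Agent.H76Q
open Module Matrix Polynomial Pool.Agent.H53Toric
open Pool.Agent.H76P
open Pool.Agent.H76T (IsIdeal Fam Lc)
open Pool.Agent.H76U (cmp preL IsSplitting)
open Pool.Agent.H76RM (spanK similD)

variable {ι : Type*} [Fintype ι] [DecidableEq ι] {ψ : Matrix ι ι ℚ}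
    {D : Subalgebra ℚ (Matrix ι ι ℚ)} {M : Type*} [Field M] [NumberField M]
    {m : ℕ} {cl : Fin m → Cl} {bar : Fin m → Fin m} {e : Fin m → Matrix ι ι M} {u₀ : Matrix ι ι M} {G : Type*} [Group G]
    {ρ : ∀ (l : ℕ) [Fact l.Prime], G →* Matrix.GeneralLinearGroup ι ℚ_[l]}
    {p : ℕ} [Fact p.Prime] {σ : G} {q : ℚ} {F : Fin m → M[X]}
    {φ μ ν : Matrix ι ι (AlgebraicClosure ℚ_[p])} {v : AlgebraicClosure ℚ_[p] → ℚ}
    {Δ : Set (AlgebraicClosure ℚ_[p] ≃+* AlgebraicClosure ℚ_[p])}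
    {Ω : Type*} [Field Ω] [CharZero Ω] [IsAlgClosed Ω] [Algebra.IsAlgebraic ℚ Ω] {j : M →+* Ω}
    {R : Finset Ω} {N : Set ℕ} (C : Core3 ψ D cl bar e u₀ ρ p σ q F φ μ ν v Δ j R N)

include C

omit C in
theorem w9_exists_i (p : ℕ) [Fact p.Prime] (Ω : Type*) [Field Ω] [CharZero Ω] [IsAlgClosed Ω]
    [Algebra.IsAlgebraic ℚ Ω] : Nonempty (Ω →+* AlgebraicClosure ℚ_[p]) := by
  exact ⟨(IsAlgClosed.lift (R := ℚ) (S := Ω) (M := AlgebraicClosure ℚ_[p])).toRingHom⟩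

theorem Core3.w9_i (b : Fin m) {r : Ω} (hr : r ∈ R) :
    ∃ i : Ω →+* AlgebraicClosure ℚ_[p], v (i r) = 1 := by
  obtain ⟨i₀⟩ := w9_exists_i p Ω
  obtain ⟨r₀, hr₀, h1, -⟩ := C.Rval i₀
  obtain ⟨s, hs⟩ := C.Rtrans r hr r₀ hr₀
  refine ⟨i₀.comp s.toRingHom, ?_⟩
  show v (i₀ (s r)) = 1
  rw [hs, h1]

theorem Core3.w9_uniq {r r' : Ω} (hr : r ∈ R) (hr' : r' ∈ R)
    (i : Ω →+* AlgebraicClosure ℚ_[p]) (h : v (i r) = 1) (h' : v (i r') = 1) : r = r' := by
  obtain ⟨r₁, -, -, h2⟩ := C.Rval i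
  have h3 : ∀ x ∈ R, v (i x) = 1 → x = r₁ := by
    intro x hx hv
    by_contra hne
    rw [h2 x hx hne] at hv
    exact zero_ne_one hv
  rw [h3 r hr h, h3 r' hr' h']

theorem Core3.w9_HT (b : Fin m) {n : ℕ} {a : Fin n → Ω} (ha : Function.Injective a)
    (hroot : ∀ y : Ω, (F b).eval₂ j y = 0 ↔ ∃ k, y = a k) (i : Ω →+* AlgebraicClosure ℚ_[p]) :
    0 < n ∧ ∃ ε : Fin n → ℚ, IsHT μ φ ((e b).map (i.comp j)) (fun k => i (a k)) ε ∧
      ε ∈ YS a ∧ (∀ k, ε k = 1 ∨ ε k = -1) ∧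
      ∀ P : Module.End ℚ (YS a), GoodN (cl b) P → FunP P ε ∨ FunP (1 - P) ε := by
  obtain ⟨H₀, U, V, -, hloc⟩ := C.locp b ha hroot i
  obtain ⟨ε, hε⟩ := exists_HT hloc C.crys.mu C.crys.muphi
  obtain ⟨-, h2, h3⟩ := HT_spec hloc C.crys.mu C.crys.muphi hε
  refine ⟨hloc.pos, ε, hε, h2, h3, fun P hP => ?_⟩
  exact HT_or hloc C.crys.mu C.crys.muphi hε
    (hP (AlgebraicClosure ℚ_[p]) _ hloc.ts hloc.cls hloc.yo)

/-- The eigenvalues in the closure of `ℚ`. -/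
theorem Core3.w9_prod (b : Fin m) {n : ℕ} {a : Fin n → Ω} (ha : Function.Injective a)
    (hroot : ∀ y : Ω, (F b).eval₂ j y = 0 ↔ ∃ k, y = a k) :
    0 < n ∧ (∀ k, a k ≠ 0) ∧ (∏ k, a k) ^ 2 = (algebraMap ℚ Ω q) ^ n ∧ algebraMap ℚ Ω q ≠ 0 := by
  obtain ⟨i⟩ := w9_exists_i p Ω
  obtain ⟨H₀, U, V, -, h⟩ := C.locp b ha hroot i
  have ha0 : ∀ k, a k ≠ 0 := fun k h0 => h.ec.ne k (by rw [h0, map_zero])
  have h1 := h.prod
  have h2 : (∏ k, a k) ^ 2 = (algebraMap ℚ Ω q) ^ n := by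
    apply i.injective
    rw [map_pow, map_pow, map_prod, h1]
    simp
  refine ⟨h.pos, ha0, h2, ?_⟩
  intro h0
  rw [h0, zero_pow h.pos.ne'] at h2
  have h3 : ∏ k, a k = 0 := by
    exact pow_eq_zero_iff (two_ne_zero) |>.1 h2
  exact Finset.prod_ne_zero_iff.2 (fun k _ => ha0 k) h3

theorem Core3.types3 (b : Fin m)
    {n : ℕ} {a : Fin n → Ω} (ha : Function.Injective a)
    (hroot : ∀ y : Ω, (F b).eval₂ j y = 0 ↔ ∃ k, y = a k)
    {FF : Finset (Module.End ℚ (YS a))} (hFF : ∀ P ∈ FF, Sp P ∧ P ≠ 0 ∧ GoodN (cl b) P)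
    (horth : ∀ P ∈ FF, ∀ P' ∈ FF, P ≠ P' → P * P' = 0) (hsum : ∑ P ∈ FF, P = 1)
    (hperm : ∀ π : Equiv.Perm (Fin n), (∀ g ∈ YS a, g ∘ π ∈ YS a) → ∀ P ∈ FF,
      ∃ P' ∈ FF, MvP π P P') :
    ∃ RP : Module.End ℚ (YS a) → Finset Ω, (∀ P ∈ FF, RP P ⊆ R ∧ (RP P).Nonempty) ∧
      (∀ r ∈ R, ∃ P ∈ FF, r ∈ RP P) ∧
      (∀ P ∈ FF, ∀ P' ∈ FF, ∀ r, r ∈ RP P → r ∈ RP P' → P = P') ∧
      ∀ s : Ω ≃+* Ω, Linked D ((e b).map j) ((e b).map (s.toRingHom.comp j)) ∨
          Linked D ((e (bar b)).map j) ((e b).map (s.toRingHom.comp j)) →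
        ∃ π : Equiv.Perm (Fin n), ((∀ k, s (a k) = a (π k)) ∧
            Linked D ((e b).map j) ((e b).map (s.toRingHom.comp j)) ∨
          bar b ≠ b ∧ ∀ k, s (a k) * a (π k) = algebraMap ℚ Ω q) ∧
          (∀ g ∈ YS a, g ∘ π ∈ YS a) ∧
          ∀ P ∈ FF, ∃ P' ∈ FF, MvP π P P' ∧ ∀ r ∈ RP P, s r ∈ RP P' := by
  classical
  have hSum : ∀ g ∈ YS a, ∑ k, g k = 0 := fun g hg => hg.1
  have h1 : ∀ P : Module.End ℚ (YS a), ∃ RP : Finset Ω, P ∈ FF → (RP ⊆ R ∧
      ∀ (i : Ω →+* AlgebraicClosure ℚ_[p]) (ε : Fin n → ℚ),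
        IsHT μ φ ((e b).map (i.comp j)) (fun k => i (a k)) ε →
          (FunP P ε ↔ ∃ r ∈ RP, v (i r) = 1)) := by
    intro P
    by_cases hP : P ∈ FF
    · obtain ⟨RP, h2, h3⟩ := C.ht_iff b ha hroot (hFF P hP).1 (hFF P hP).2.2
      exact ⟨RP, fun _ => ⟨h2, h3⟩⟩
    · exact ⟨∅, fun h => absurd h hP⟩
  choose RP hRP using h1
  have hK : ∀ P ∈ FF, ∀ r ∈ R, ∀ (i : Ω →+* AlgebraicClosure ℚ_[p]) (ε : Fin n → ℚ),
      v (i r) = 1 → IsHT μ φ ((e b).map (i.comp j)) (fun k => i (a k)) ε →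
        (FunP P ε ↔ r ∈ RP P) := by
    intro P hP r hr i ε hv hε
    rw [(hRP P hP).2 i ε hε]
    constructor
    · rintro ⟨r', hr', hv'⟩
      rw [C.w9_uniq hr ((hRP P hP).1 hr') i hv hv']
      exact hr'
    · intro h
      exact ⟨r, h, hv⟩
  have hdisj : ∀ P ∈ FF, ∀ P' ∈ FF, ∀ r, r ∈ RP P → r ∈ RP P' → P = P' := by
    intro P hP P' hP' r hr hr'
    by_contra hne
    have hrR := (hRP P hP).1 hr
    obtain ⟨i, hi⟩ := C.w9_i b hrR
    obtain ⟨hn, ε, hε, hεY, hε1, -⟩ := C.w9_HT b ha hroot i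
    haveI : Nonempty (Fin n) := ⟨⟨0, hn⟩⟩
    have h2 := (hK P hP r hrR i ε hi hε).2 hr
    have h3 := (hK P' hP' r hrR i ε hi hε).2 hr'
    have h4 : P ⟨ε, hεY⟩ = ⟨ε, hεY⟩ := (FunP_iff (hFF P hP).1 hSum ⟨ε, hεY⟩).1 h2
    have h5 : P' ⟨ε, hεY⟩ = ⟨ε, hεY⟩ := (FunP_iff (hFF P' hP').1 hSum ⟨ε, hεY⟩).1 h3
    have h6 : (P * P') ⟨ε, hεY⟩ = ⟨ε, hεY⟩ := by
      show P (P' ⟨ε, hεY⟩) = ⟨ε, hεY⟩
      rw [h5, h4]
    rw [horth P hP P' hP' hne] at h6
    have h7 : (0 : Fin n → ℚ) = ε := congrArg Subtype.val h6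
    have h8 := congrFun h7 ⟨0, hn⟩
    rcases hε1 ⟨0, hn⟩ with h9 | h9 <;> rw [h9] at h8 <;> simp at h8
  have hnon : ∀ P ∈ FF, (RP P).Nonempty := by
    intro P hP
    obtain ⟨i, ε, h2, h3⟩ := C.onto b ha hroot (hFF P hP).1 (hFF P hP).2.2 (hFF P hP).2.1
    obtain ⟨r, hr, -⟩ := ((hRP P hP).2 i ε h2).1 h3
    exact ⟨r, hr⟩
  refine ⟨RP, fun P hP => ⟨(hRP P hP).1, hnon P hP⟩, ?_, hdisj, ?_⟩
  · intro r hr
    obtain ⟨i, hi⟩ := C.w9_i b hr
    obtain ⟨hn, ε, hε, hεY, hε1, hor⟩ := C.w9_HT b ha hroot i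
    haveI : Nonempty (Fin n) := ⟨⟨0, hn⟩⟩
    have h2 : ∃ P ∈ FF, P ⟨ε, hεY⟩ ≠ 0 := by
      by_contra hcon
      push Not at hcon
      have h3 : (∑ P ∈ FF, P) ⟨ε, hεY⟩ = 0 := by
        rw [LinearMap.sum_apply]
        exact Finset.sum_eq_zero hcon
      rw [hsum] at h3
      have h7 : ε = (0 : Fin n → ℚ) := congrArg Subtype.val h3
      have h8 := congrFun h7 ⟨0, hn⟩
      rcases hε1 ⟨0, hn⟩ with h9 | h9 <;> rw [h9] at h8 <;> simp at h8
    obtain ⟨P, hP, hPε⟩ := h2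
    refine ⟨P, hP, (hK P hP r hr i ε hi hε).1 ?_⟩
    rcases hor P (hFF P hP).2.2 with h3 | h3
    · exact h3
    · exfalso
      have h4 := (FunP_iff (hFF P hP).1.compl hSum ⟨ε, hεY⟩).1 h3
      apply hPε
      have h5 : (⟨ε, hεY⟩ : YS a) - P ⟨ε, hεY⟩ = ⟨ε, hεY⟩ := h4
      rwa [sub_eq_self] at h5
  · intro s hlink
    have key : ∀ (π : Equiv.Perm (Fin n)), (∀ g ∈ YS a, g ∘ π ∈ YS a) →
        (∀ (i : Ω →+* AlgebraicClosure ℚ_[p]) (ε : Fin n → ℚ),
          IsHT μ φ ((e b).map (i.comp j)) (fun k => i (a k)) ε →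
          ∃ ε' : Fin n → ℚ, (∀ k k', ε (π.symm k) = ε (π.symm k') → ε' k = ε' k') ∧
            IsHT μ φ ((e b).map ((i.comp s.symm.toRingHom).comp j))
              (fun k => i.comp s.symm.toRingHom (a k)) ε') →
        ∀ P ∈ FF, ∃ P' ∈ FF, MvP π P P' ∧ ∀ r ∈ RP P, s r ∈ RP P' := by
      intro π hY hπ2 P hP
      obtain ⟨P'', hP'', hmv⟩ := hperm π hY P hP
      refine ⟨P'', hP'', hmv, ?_⟩
      intro r₁ hr₁
      have hr₁R := (hRP P hP).1 hr₁
      obtain ⟨i, hi⟩ := C.w9_i b hr₁R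
      obtain ⟨hn, ε, hε, hεY, hε1, hor⟩ := C.w9_HT b ha hroot i
      have h2 := (hK P hP r₁ hr₁R i ε hi hε).2 hr₁
      obtain ⟨ε', hεε, h3⟩ := hπ2 i ε hε
      refine (hK P'' hP'' (s r₁) (C.Rstab s r₁ hr₁R) (i.comp s.symm.toRingHom) _ ?_ h3).1 ?_
      · show v (i (s.symm (s r₁))) = 1
        rw [s.symm_apply_apply, hi]
      · intro k k' hk
        apply hεε
        apply h2
        rw [hmv.1, π.apply_symm_apply, π.apply_symm_apply]
        exact hk
    have hlink' : Linked D ((e b).map j) ((e b).map (s.toRingHom.comp j)) ∨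
        bar b ≠ b ∧ Linked D ((e (bar b)).map j) ((e b).map (s.toRingHom.comp j)) := by
      rcases hlink with h | h
      · exact Or.inl h
      · by_cases hb : bar b = b
        · rw [hb] at h
          exact Or.inl h
        · exact Or.inr ⟨hb, h⟩
    rcases hlink' with hlink | ⟨hb, hlink⟩
    · obtain ⟨π, hπ, hπ2⟩ := C.linked b ha hroot hlink
      have hY : ∀ g ∈ YS a, g ∘ π ∈ YS a := fun g hg =>
        YS_perm (s := s.toRingHom) (fun k => (hπ k).symm) hg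
      exact ⟨π, Or.inl ⟨hπ, hlink⟩, hY, key π hY fun i ε hε =>
        ⟨_, fun k k' h => h, hπ2 i ε hε⟩⟩
    · obtain ⟨π, hπ, hπ2⟩ := C.dual_linked b ha hroot hlink
      obtain ⟨hn, ha0, hpr, hq0⟩ := C.w9_prod b ha hroot
      haveI : Nonempty (Fin n) := ⟨⟨0, hn⟩⟩
      have hY : ∀ g ∈ YS a, g ∘ π ∈ YS a := fun g hg =>
        YS_dual (s := s.toRingHom) ha0 hq0 hπ (by rw [hpr, Fintype.card_fin]) hg
      exact ⟨π, Or.inr ⟨hb, hπ⟩, hY, key π hY fun i ε hε =>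
        ⟨_, fun k k' h => congrArg Neg.neg h, hπ2 i ε hε⟩⟩

end Pool.Agent.H76Z
end

-- from Lib.H45U.W2a
section

/-!
# the local data
-/

set_option autoImplicit false
set_option linter.unusedSectionVars false
namespace Pool.Agent.H45U
open Pool.Agent.H76Y Pool.Agent.H76Z
open Pool.Agent.H76P Pool.Agent.H76V Pool.Agent.H76Q
open Module Matrix Polynomial Pool.Agent.H53Toric
open Pool.Agent.H76P
open Pool.Agent.H76T (IsIdeal Fam Lc)
open Pool.Agent.H76U (cmp preL IsSplitting)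
open Pool.Agent.H76RM (spanK similD)

/-- An element with two values and unequal multiplicities excludes all invariant forms. -/
theorem ns_of {κ : Type*} {K : Type*} [Field K] [CharZero K] [IsAlgClosed K] [Fintype κ] [DecidableEq κ]
    {L : Submodule K (Module.End K (κ → K))} [Nonempty κ] {Y : Submodule ℚ (κ → ℚ)}
    (h : TM L) (hY : Yo L = Y) {ε : κ → ℚ} {c : ℚ} (h1 : ∀ k, ε k = 1 ∨ ε k = -1)
    (hc : (fun k => ε k - c) ∈ Y) (hs : 2 * (Finset.univ.filter fun k => ε k = 1).card ≠ Fintype.card κ)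
    (hs0 : (Finset.univ.filter fun k => ε k = 1).card ≠ 0)
    (hs1 : (Finset.univ.filter fun k => ε k = 1).card ≠ Fintype.card κ) : NsL L := by
  intro B hinv
  by_contra hB
  have hmem : (dq (fun k => ε k - c) : Module.End K (κ → K)) ∈ L := Yo_mem (by rw [hY]; exact hc)
  have hsum0 : ∑ k, (ε k - c) = 0 := Yo_sum h.cmp (by rw [hY]; exact hc)
  have hsum : ∑ k, ε k = 2 * ((Finset.univ.filter fun k => ε k = 1).card : ℚ) - Fintype.card κ := by
    have e1 : ∀ k, ε k = 2 * (if ε k = 1 then 1 else 0) - 1 := by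
      intro k
      rcases h1 k with h2 | h2
      · rw [h2, if_pos rfl]
        norm_num
      · rw [h2, if_neg (by norm_num)]
        norm_num
    rw [Finset.sum_congr rfl fun k _ => e1 k, Finset.sum_sub_distrib, ← Finset.mul_sum,
      Finset.sum_boole, Finset.sum_const, Finset.card_univ, nsmul_eq_mul, mul_one]
  have hy0 : (dq (fun k => ε k - c) : Module.End K (κ → K)) ≠ 0 := by
    intro h0
    have h2 : (fun k => ε k - c) = 0 := H76Y.dq_inj (K := K) (by rw [h0, H25U.t13_zero])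
    have h3 : ∀ k, ε k = c := fun k => sub_eq_zero.1 (congrFun h2 k)
    by_cases hcc : c = 1
    · apply hs1
      rw [Finset.filter_true_of_mem fun k _ => by rw [h3, hcc], Finset.card_univ]
    · apply hs0
      rw [Finset.filter_false_of_mem fun k _ => by rw [h3]; exact hcc, Finset.card_empty]
  have hsq : ((dq (fun k => ε k - c) : Module.End K (κ → K)) + (c : K) • 1) *
      (dq (fun k => ε k - c) + (c : K) • 1) = 1 := by
    rw [dq_sub_const, sub_add_cancel]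
    exact H76Y.dq_sq h1
  have h4 := h.cmp.shift_zero hB hinv hmem hy0 hsq
  have h5 : c = 0 := by exact_mod_cast h4
  rw [h5] at hsum0
  simp only [sub_zero] at hsum0
  rw [hsum0] at hsum
  apply hs
  have h6 : (2 * ((Finset.univ.filter fun k => ε k = 1).card : ℚ)) = Fintype.card κ := by linarith
  exact_mod_cast h6

/-- The determinant on a component. -/
theorem det_comp {ι : Type*} [Fintype ι] [DecidableEq ι] {K : Type*} [Field K] {n : ℕ}
    {e x : Matrix ι ι K} {U : Matrix ι (Fin n) K} {V : Matrix (Fin n) ι K} {d : Fin n → K}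
    (hUV : e = U * V) (hVU : V * U = 1) (hx : x * U = U * Matrix.diagonal d) :
    (1 - e + x * e).det = ∏ k, d k := by
  have h1 : 1 - e + x * e = 1 + U * ((Matrix.diagonal d - 1) * V) := by
    rw [hUV, ← Matrix.mul_assoc x, hx, Matrix.sub_mul, Matrix.mul_sub, Matrix.one_mul,
      Matrix.mul_assoc]
    abel
  rw [h1, Matrix.det_one_add_mul_comm, Matrix.mul_assoc, hVU, Matrix.mul_one, add_sub_cancel,
    Matrix.det_diagonal]

variable {ι : Type*} [Fintype ι] [DecidableEq ι] {ψ : Matrix ι ι ℚ}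
    {D : Subalgebra ℚ (Matrix ι ι ℚ)} {M : Type*} [Field M] [NumberField M]
    {m : ℕ} {cl : Fin m → Cl} {bar : Fin m → Fin m} {e : Fin m → Matrix ι ι M} {u₀ : Matrix ι ι M} {G : Type*} [Group G]
    {ρ : ∀ (l : ℕ) [Fact l.Prime], G →* Matrix.GeneralLinearGroup ι ℚ_[l]}
    {p : ℕ} [Fact p.Prime] {σ : G} {q : ℚ} {F : Fin m → M[X]}
    {φ μ ν : Matrix ι ι (AlgebraicClosure ℚ_[p])} {v : AlgebraicClosure ℚ_[p] → ℚ}
    {Δ : Set (AlgebraicClosure ℚ_[p] ≃+* AlgebraicClosure ℚ_[p])}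
    {Ω : Type*} [Field Ω] [CharZero Ω] [IsAlgClosed Ω] [Algebra.IsAlgebraic ℚ Ω] {j : M →+* Ω}
    {R : Finset Ω} {N : Set ℕ} {hd : Fin m → Ω → ℕ} {ub : Fin m → Prop}
    (C : Core5a ψ D cl bar e u₀ ρ p σ q F φ μ ν v Δ j R N hd ub)

include C

/-- The number of eigenvalues is the rank of the idempotent. -/
theorem Core5a.card (b : Fin m)
    {n : ℕ} {a : Fin n → Ω} (ha : Function.Injective a)
    (hroot : ∀ y : Ω, (F b).eval₂ j y = 0 ↔ ∃ k, y = a k) : n = (e b).rank := by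
  obtain ⟨a', ha', hroot'⟩ := C.enum b
  have h1 : ∀ k, ∃ k', a k = a' k' := fun k => (hroot' _).1 ((hroot _).2 ⟨k, rfl⟩)
  have h2 : ∀ k, ∃ k', a' k = a k' := fun k => (hroot _).1 ((hroot' _).2 ⟨k, rfl⟩)
  choose f hf using h1
  choose g hg using h2
  have hfi : Function.Injective f := fun x y h => ha (by rw [hf, hf, h])
  have hgi : Function.Injective g := fun x y h => ha' (by rw [hg, hg, h])
  have h3 := Fintype.card_le_of_injective f hfi
  have h4 := Fintype.card_le_of_injective g hgi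
  rw [Fintype.card_fin, Fintype.card_fin] at h3 h4
  exact le_antisymm h3 h4

/-- The local data at `p`, with the old data if the component is balanced. -/
theorem Core5a.locp0 (b : Fin m)
    {n : ℕ} {a : Fin n → Ω} (ha : Function.Injective a)
    (hroot : ∀ y : Ω, (F b).eval₂ j y = 0 ↔ ∃ k, y = a k)
    (i : Ω →+* AlgebraicClosure ℚ_[p]) :
    ∃ (H₀ : Subgroup G) (U : Matrix ι (Fin n) (AlgebraicClosure ℚ_[p]))
      (V : Matrix (Fin n) ι (AlgebraicClosure ℚ_[p])), H₀.FiniteIndex ∧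
      LocU (ψ.map (algebraMap ℚ (AlgebraicClosure ℚ_[p]))) (img (AlgebraicClosure ℚ_[p]) (ρ p) H₀)
        (properProj (AlgebraicClosure ℚ_[p]) (ρ p)) ((e b).map (i.comp j)) φ
        U V (fun k => i (a k)) (YS a) ∧
      (cl b = .s → SyL (LcN (ψ.map (algebraMap ℚ (AlgebraicClosure ℚ_[p])))
        (img (AlgebraicClosure ℚ_[p]) (ρ p) H₀) U V)) ∧
      (cl b = .o → OrL (LcN (ψ.map (algebraMap ℚ (AlgebraicClosure ℚ_[p])))
        (img (AlgebraicClosure ℚ_[p]) (ρ p) H₀) U V)) ∧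
      ((∀ h ∈ properProj (AlgebraicClosure ℚ_[p]) (ρ p), 2 * (h * (e b).map (i.comp j)).rank = n) →
        (∏ k, i (a k)) ^ 2 = algebraMap ℚ (AlgebraicClosure ℚ_[p]) q ^ n ∧
        H76Y.TM (LcN (ψ.map (algebraMap ℚ (AlgebraicClosure ℚ_[p])))
          (img (AlgebraicClosure ℚ_[p]) (ρ p) H₀) U V) ∧
        H76P.Yo (LcN (ψ.map (algebraMap ℚ (AlgebraicClosure ℚ_[p])))
          (img (AlgebraicClosure ℚ_[p]) (ρ p) H₀) U V) = YS a ∧
        (cl b = .n → NsL (LcN (ψ.map (algebraMap ℚ (AlgebraicClosure ℚ_[p])))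
          (img (AlgebraicClosure ℚ_[p]) (ρ p) H₀) U V))) := by
  obtain ⟨H₀, -, hfin, hprime⟩ := H76RM.exists_prime (K := AlgebraicClosure ℚ_[p]) (ρ p) ⊤ inferInstance
  obtain ⟨U, V, hL⟩ := mk_locU C.hψ C.hψ0 D (ρ p) (C.lin p) (C.sim p) (C.semis p) (C.commt p) (C.gen p) C.hspl
    C.frobp C.crys.phigen C.multp hfin hprime j i b ha hroot (fun k l N hN h =>
      ha (C.tor b ((hroot _).2 ⟨k, rfl⟩) ((hroot _).2 ⟨l, rfl⟩) hN h))
  exact ⟨H₀, U, V, hfin, hL⟩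

/-- The same for `l ≠ p`. -/
theorem Core5a.locl0 (b : Fin m)
    {n : ℕ} {a : Fin n → Ω} (ha : Function.Injective a)
    (hroot : ∀ y : Ω, (F b).eval₂ j y = 0 ↔ ∃ k, y = a k)
    (l : ℕ) [Fact l.Prime] (hl : l ≠ p) (i : Ω →+* AlgebraicClosure ℚ_[l]) :
    ∃ (H₀ : Subgroup G) (U : Matrix ι (Fin n) (AlgebraicClosure ℚ_[l]))
      (V : Matrix (Fin n) ι (AlgebraicClosure ℚ_[l])), H₀.FiniteIndex ∧
      LocU (ψ.map (algebraMap ℚ (AlgebraicClosure ℚ_[l]))) (img (AlgebraicClosure ℚ_[l]) (ρ l) H₀)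
        (properProj (AlgebraicClosure ℚ_[l]) (ρ l)) ((e b).map (i.comp j))
        ((ρ l σ).1.map (algebraMap ℚ_[l] (AlgebraicClosure ℚ_[l])))
        U V (fun k => i (a k)) (YS a) ∧
      (cl b = .s → SyL (LcN (ψ.map (algebraMap ℚ (AlgebraicClosure ℚ_[l])))
        (img (AlgebraicClosure ℚ_[l]) (ρ l) H₀) U V)) ∧
      (cl b = .o → OrL (LcN (ψ.map (algebraMap ℚ (AlgebraicClosure ℚ_[l])))
        (img (AlgebraicClosure ℚ_[l]) (ρ l) H₀) U V)) ∧
      ((∀ h ∈ properProj (AlgebraicClosure ℚ_[l]) (ρ l), 2 * (h * (e b).map (i.comp j)).rank = n) →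
        (∏ k, i (a k)) ^ 2 = algebraMap ℚ (AlgebraicClosure ℚ_[l]) q ^ n ∧
        H76Y.TM (LcN (ψ.map (algebraMap ℚ (AlgebraicClosure ℚ_[l])))
          (img (AlgebraicClosure ℚ_[l]) (ρ l) H₀) U V) ∧
        H76P.Yo (LcN (ψ.map (algebraMap ℚ (AlgebraicClosure ℚ_[l])))
          (img (AlgebraicClosure ℚ_[l]) (ρ l) H₀) U V) = YS a ∧
        (cl b = .n → NsL (LcN (ψ.map (algebraMap ℚ (AlgebraicClosure ℚ_[l])))
          (img (AlgebraicClosure ℚ_[l]) (ρ l) H₀) U V))) := by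
  obtain ⟨H₀, -, hfin, hprime⟩ := H76RM.exists_prime (K := AlgebraicClosure ℚ_[l]) (ρ l) ⊤ inferInstance
  have hmult : ((ρ l σ).1.map (algebraMap ℚ_[l] (AlgebraicClosure ℚ_[l])))ᵀ *
      ψ.map (algebraMap ℚ (AlgebraicClosure ℚ_[l])) * (ρ l σ).1.map (algebraMap ℚ_[l] (AlgebraicClosure ℚ_[l])) =
      algebraMap ℚ (AlgebraicClosure ℚ_[l]) q • ψ.map (algebraMap ℚ (AlgebraicClosure ℚ_[l])) := by
    have h1 := congrArg (fun m : Matrix ι ι ℚ_[l] => m.map (algebraMap ℚ_[l] (AlgebraicClosure ℚ_[l]))) (C.mult l hl)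
    have h2 : (ψ.map (algebraMap ℚ ℚ_[l])).map (algebraMap ℚ_[l] (AlgebraicClosure ℚ_[l])) =
        ψ.map (algebraMap ℚ (AlgebraicClosure ℚ_[l])) := by
      ext i j
      simp
    have h3 : (algebraMap ℚ ℚ_[l] q • ψ.map (algebraMap ℚ ℚ_[l])).map
        (algebraMap ℚ_[l] (AlgebraicClosure ℚ_[l])) =
        algebraMap ℚ (AlgebraicClosure ℚ_[l]) q • ψ.map (algebraMap ℚ (AlgebraicClosure ℚ_[l])) := by
      ext i j
      simp
    simp only [Matrix.map_mul] at h1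
    rw [h2, h3, Matrix.transpose_map] at h1
    exact h1
  obtain ⟨U, V, hL⟩ := mk_locU C.hψ C.hψ0 D (ρ l) (C.lin l) (C.sim l) (C.semis l) (C.commt l) (C.gen l) C.hspl
    (C.frob l hl) (C.gen l σ) hmult hfin hprime j i b ha hroot (fun k l N hN h =>
      ha (C.tor b ((hroot _).2 ⟨k, rfl⟩) ((hroot _).2 ⟨l, rfl⟩) hN h))
  exact ⟨H₀, U, V, hfin, hL⟩

/-- For each element `r` of `R` there is an embedding at which the valuation of `r` is `1`. -/
theorem Core5a.w2_i {r : Ω} (hr : r ∈ R) :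
    ∃ i : Ω →+* AlgebraicClosure ℚ_[p], v (i r) = 1 := by
  obtain ⟨i₀⟩ := H76Z.w9_exists_i p Ω
  obtain ⟨r₀, hr₀, h1, -⟩ := C.Rval i₀
  obtain ⟨s, hs⟩ := C.Rtrans r hr r₀ hr₀
  refine ⟨i₀.comp s.toRingHom, ?_⟩
  show v (i₀ (s r)) = 1
  rw [hs, h1]

/-- The function of the signs at an element of `R`. -/
theorem Core5a.ht_at (b : Fin m)
    {n : ℕ} {a : Fin n → Ω} (ha : Function.Injective a)
    (hroot : ∀ y : Ω, (F b).eval₂ j y = 0 ↔ ∃ k, y = a k) {r : Ω} (hr : r ∈ R) :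
    ∃ (ε : Fin n → ℚ) (c : ℚ), (∀ k, ε k = 1 ∨ ε k = -1) ∧ (fun k => ε k - c) ∈ YS a ∧
      (Finset.univ.filter fun k => ε k = 1).card = hd b r := by
  obtain ⟨i, hi⟩ := C.w2_i hr
  obtain ⟨H₀, U, V, -, hL, -⟩ := C.locp0 b ha hroot i
  obtain ⟨ε, hε⟩ := exists_HT hL C.crys.mu C.crys.muphi
  obtain ⟨-, h1, c, h2, -⟩ := HT_spec hL C.crys.mu C.crys.muphi hε
  refine ⟨ε, c, h1, h2, ?_⟩
  rw [← HT_rank hL C.crys.mu C.crys.muphi hε]
  exact C.hdg b i r hr hi

/-- In the class without a form all algebras with the configuration of a component with unequal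
multiplicities respect no form. -/
theorem Core5a.cls_n (b : Fin m)
    {n : ℕ} {a : Fin n → Ω} (ha : Function.Injective a)
    (hroot : ∀ y : Ω, (F b).eval₂ j y = 0 ↔ ∃ k, y = a k) {r : Ω} (hr : r ∈ R)
    (h0 : hd b r ≠ 0) (h1 : hd b r ≠ (e b).rank) (h2 : 2 * hd b r ≠ (e b).rank)
    {K : Type*} [Field K] [CharZero K] [IsAlgClosed K]
    {L : Submodule K (Module.End K (Fin n → K))} [Nonempty (Fin n)]
    (hT : TM L) (hY : Yo L = YS a) : NsL L := by
  obtain ⟨ε, c, h3, h4, h5⟩ := C.ht_at b ha hroot hr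
  have hn := C.card b ha hroot
  refine ns_of hT hY h3 h4 ?_ ?_ ?_
  · rw [h5, Fintype.card_fin, hn]
    exact h2
  · rw [h5]
    exact h0
  · rw [h5, Fintype.card_fin, hn]
    exact h1

/-- The eigenvalues are not zero. -/
theorem Core5a.ne (b : Fin m) {n : ℕ} {a : Fin n → Ω}
    (hroot : ∀ y : Ω, (F b).eval₂ j y = 0 ↔ ∃ k, y = a k) (k : Fin n) : a k ≠ 0 := by
  let i : Ω →+* AlgebraicClosure ℚ_[p] := (IsAlgClosed.lift : Ω →ₐ[ℚ] AlgebraicClosure ℚ_[p]).toRingHom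
  intro h0
  exact w1_ne C i b ((hroot (a k)).2 ⟨k, rfl⟩) (by rw [h0, map_zero])

/-- The multiplier is not zero. -/
theorem Core5a.q_ne (b : Fin m) : algebraMap ℚ Ω q ≠ 0 := by
  intro h0
  have h1 : q = 0 := by
    rw [← map_zero (algebraMap ℚ Ω)] at h0
    exact (algebraMap ℚ Ω).injective h0
  exact absurd (C.multp) (by
    rw [h1, map_zero, zero_smul]
    intro h3
    have h4 := congrArg Matrix.det h3
    obtain ⟨-, hdet⟩ := gram_basic C.hψ C.hψ0 (AlgebraicClosure ℚ_[p])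
    have hι : Nonempty ι := by
      by_contra hemp
      rw [not_nonempty_iff] at hemp
      apply C.hspl.ne_zero b
      ext i'
      exact (hemp.false i').elim
    rw [Matrix.det_mul, Matrix.det_mul, Matrix.det_transpose, Matrix.det_zero] at h4
    exact mul_ne_zero (mul_ne_zero C.frobp.idc.1 hdet.ne_zero) C.frobp.idc.1 h4)

/-- The valuation of the product of the eigenvalues is the multiplicity. -/
theorem Core5a.vprod (b : Fin m)
    {n : ℕ} {a : Fin n → Ω} (ha : Function.Injective a)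
    (hroot : ∀ y : Ω, (F b).eval₂ j y = 0 ↔ ∃ k, y = a k) (i : Ω →+* AlgebraicClosure ℚ_[p]) :
    v (i (∏ k, a k)) = (μ * (e b).map (i.comp j)).rank := by
  have hv : IsVal v := C.crys.val
  obtain ⟨H₀, U, V, -, hL, -, -, h3⟩ := C.locp0 b ha hroot i
  by_cases hb : cl b = .n
  · rw [← C.wa b hb (i.comp j), det_comp hL.UV hL.VU hL.ec.eig, map_prod]
  · have hc := C.card b ha hroot
    have hbal := fun h hh => (C.bal p h hh (i.comp j) b hb).trans hc.symm
    obtain ⟨h1, -⟩ := h3 hbal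
    have hi : ∀ {z : Ω}, z ≠ 0 → i z ≠ 0 := fun hz => (map_ne_zero i).2 hz
    have hpa0 : (∏ k, a k) ≠ 0 := Finset.prod_ne_zero_iff.2 fun k _ => C.ne b hroot k
    have hq0 : algebraMap ℚ (AlgebraicClosure ℚ_[p]) q ≠ 0 := by
      intro h0
      have h2 := hi (C.q_ne b)
      apply h2
      rw [eq_ratCast, map_ratCast, ← eq_ratCast (algebraMap ℚ (AlgebraicClosure ℚ_[p]))]
      exact h0
    have h2 : 2 * v (i (∏ k, a k)) = n := by
      have h4 := H76Z.w6y_vpow hv (hi hpa0) 2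
      rw [map_prod, h1, H76Z.w6y_vpow hv hq0, C.vq, ← map_prod] at h4
      push_cast at h4
      linarith
    have h5 : ((2 * (μ * (e b).map (i.comp j)).rank : ℕ) : ℚ) = n := by
      rw [hbal μ C.crys.mu]
    push_cast at h5
    linarith

end Pool.Agent.H45U
end

-- from Lib.H25W.Rel
section

/-!
# Rel: relations between the ranks and multiplicative relations between the eigenvalues
-/

set_option autoImplicit false
set_option linter.unusedSectionVars false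
namespace Pool.Agent.H25W
open Module Matrix Pool.Agent.H53Toric
open Pool.Agent.H76P (LogLin zlie_pow G13_eq G13_act EC PH zlie_sim)

variable {ι : Type*} [Fintype ι] [DecidableEq ι] {K : Type*} [Field K] [CharZero K]

/-- There are two eigenvectors which are not orthogonal. -/
theorem eig_pair {J φ : Matrix ι ι K} (hdg : Diagonalisable φ) (hJ : J ≠ 0) :
    ∃ (z z' : ι → K) (c c' : K), z ≠ 0 ∧ z' ≠ 0 ∧ φ *ᵥ z = c • z ∧ φ *ᵥ z' = c' • z' ∧
      z ⬝ᵥ (J *ᵥ z') ≠ 0 := by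
  obtain ⟨P, Q, d, hPQ, hQP, hφ⟩ := hdg
  have h1 : ∃ i j, (Pᵀ * J * P) i j ≠ 0 := by
    by_contra hcon
    push Not at hcon
    apply hJ
    have h2 : Pᵀ * J * P = 0 := by ext i j; exact hcon i j
    have h3 : (P * Q)ᵀ * J * (P * Q) = Qᵀ * (Pᵀ * J * P) * Q := by
      rw [Matrix.transpose_mul]
      noncomm_ring
    rw [hPQ, Matrix.transpose_one, one_mul, mul_one, h2, mul_zero, zero_mul] at h3
    exact h3
  obtain ⟨i, j, hij⟩ := h1
  have hcol : ∀ k, φ *ᵥ (fun x => P x k) = d k • (fun x => P x k) := by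
    intro k
    have h2 : φ * P = P * Matrix.diagonal d := by
      rw [hφ, Matrix.mul_assoc, hQP, Matrix.mul_one]
    funext x
    have h3 := congrFun (congrFun h2 x) k
    rw [Matrix.mul_diagonal] at h3
    rw [Pi.smul_apply, smul_eq_mul, mul_comm, ← h3]
    rfl
  have hdot : (fun x => P x i) ⬝ᵥ (J *ᵥ (fun x => P x j)) = (Pᵀ * J * P) i j := by
    rw [Matrix.mul_assoc]
    rfl
  refine ⟨fun x => P x i, fun x => P x j, d i, d j, ?_, ?_, hcol i, hcol j, by rw [hdot]; exact hij⟩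
  · intro h0
    rw [← hdot, h0, zero_dotProduct] at hij
    exact hij rfl
  · intro h0
    rw [← hdot, h0, Matrix.mulVec_zero, dotProduct_zero] at hij
    exact hij rfl

theorem tr_mult {C J : Matrix ι ι K} {c : K} (hC : Cᵀ * J + J * C = c • J) (hJ : J.det ≠ 0) :
    2 * C.trace = c * Fintype.card ι := by
  have h1 : J⁻¹ * J = 1 := Matrix.nonsing_inv_mul J (isUnit_iff_ne_zero.2 hJ)
  have h1' : J * J⁻¹ = 1 := Matrix.mul_nonsing_inv J (isUnit_iff_ne_zero.2 hJ)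
  have h2 : (J⁻¹ * (Cᵀ * J + J * C)).trace = c * Fintype.card ι := by
    rw [hC, mul_smul_comm, h1, Matrix.trace_smul, Matrix.trace_one, smul_eq_mul]
  rw [mul_add, ← mul_assoc J⁻¹ J C, h1, one_mul, Matrix.trace_add, Matrix.trace_mul_comm, mul_assoc, h1',
    mul_one, Matrix.trace_transpose] at h2
  rw [two_mul, h2]

section
variable [Nonempty ι] {S 𝓗 : Set (Matrix ι ι K)} {J φ φ' : Matrix ι ι K}
  {DD : Submodule K (Matrix ι ι K)} (g : PH S J DD 𝓗 φ φ') (hJ : J.det ≠ 0) {q : K}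
  (hq : φᵀ * J * φ = q • J)
  {m : ℕ} {n : Fin m → ℕ} {e : Fin m → Matrix ι ι K} (hD : ∀ b, e b ∈ DD)
  (U : ∀ b, Matrix ι (Fin (n b)) K) (V : ∀ b, Matrix (Fin (n b)) ι K)
  (hUV : ∀ b, e b = U b * V b) (hVU : ∀ b, V b * U b = 1) (d : ∀ b, Fin (n b) → K)
  (heig : ∀ b, φ * U b = U b * Matrix.diagonal (d b)) (a : Fin m → ℤ) (a₀ : ℤ)

include g in
theorem ph_comm {h : Matrix ι ι K} (hh : h ∈ 𝓗) {p : Matrix ι ι K} (hp : p ∈ DD) : h * p = p * h := by
  exact Pool.Agent.H76RM.zlie_commute g.sh.one (fun s hs => g.sh.SD s hs p hp) (g.sh.hz h hh)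

include g hJ hq hD hUV hVU heig in
/-- A multiplicative relation between the determinants of `φ` gives a linear relation for the
ranks. -/
theorem rel_lie (hrel : (∏ b, (∏ k, d b k) ^ a b) * q ^ a₀ = 1) {h : Matrix ι ι K} (hh : h ∈ 𝓗) :
    ∑ b, a b * ((h * e b).rank : ℤ) + a₀ = 0 := by
  classical
  have hφφ' := g.inv
  have hdetφ : φ.det ≠ 0 := by
    intro h0
    have h1 := congrArg Matrix.det hφφ'
    rw [Matrix.det_mul, h0, zero_mul, Matrix.det_one] at h1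
    exact zero_ne_one h1
  have hJ0 : J ≠ 0 := by
    rintro rfl
    rw [Matrix.det_zero] at hJ
    exact hJ rfl
  obtain ⟨C, hC, hCφ, hCtr⟩ := zero_part_tr hφφ' g.dgb g.cnj (g.sh.hz h hh)
  obtain ⟨f, hf, hfrel⟩ := tor_fun g.dgb hdetφ (g.torus C hC hCφ)
  obtain ⟨c, hc⟩ := zlie_sim g.sh.one hJ0 g.Ssim hC
  -- the multiplier is one
  have hc1 : c = 1 := by
    have h1 := tr_mult hc hJ
    have h2 := tr_mult (c := 1) (by rw [one_smul]; exact g.sh.hs h hh) hJ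
    have h3 := hCtr 1 (by rw [one_mul, mul_one])
    rw [mul_one, mul_one] at h3
    rw [h3, h2] at h1
    have h4 : (Fintype.card ι : K) ≠ 0 := Nat.cast_ne_zero.2 Fintype.card_ne_zero
    exact (mul_right_cancel₀ h4 h1).symm
  rw [hc1, one_smul] at hc
  obtain ⟨z, z', l, l', hz, hz', hzl, hzl', hzz⟩ := eig_pair g.dgb hJ0
  have hdot : ∀ (X : Matrix ι ι K) (s t : K), X *ᵥ z = s • z → X *ᵥ z' = t • z' →
      z ⬝ᵥ ((Xᵀ * J + J * X) *ᵥ z') = (s + t) * (z ⬝ᵥ (J *ᵥ z')) := by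
    intro X s t h1 h2
    rw [Matrix.add_mulVec, dotProduct_add, ← Matrix.mulVec_mulVec, ← Matrix.mulVec_mulVec, h2,
      Matrix.mulVec_smul, dotProduct_smul, Matrix.dotProduct_mulVec, Matrix.vecMul_transpose, h1,
      smul_dotProduct, smul_eq_mul, smul_eq_mul, add_mul]
  have hff : f l + f l' = 1 := by
    have h1 := hdot C (f l) (f l') (hf l z hzl) (hf l' z' hzl')
    rw [hc] at h1
    have h2 : 1 * (z ⬝ᵥ (J *ᵥ z')) = (f l + f l') * (z ⬝ᵥ (J *ᵥ z')) := by rw [one_mul]; exact h1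
    exact (mul_right_cancel₀ hzz h2).symm
  have hqll : q = l * l' := by
    have h1 : z ⬝ᵥ ((φᵀ * J * φ) *ᵥ z') = (l * l') * (z ⬝ᵥ (J *ᵥ z')) := by
      rw [← Matrix.mulVec_mulVec, hzl', Matrix.mulVec_smul, dotProduct_smul, ← Matrix.mulVec_mulVec,
        Matrix.dotProduct_mulVec, Matrix.vecMul_transpose, hzl, smul_dotProduct, smul_eq_mul, smul_eq_mul]
      ring
    rw [hq, Matrix.smul_mulVec, dotProduct_smul, smul_eq_mul] at h1
    exact mul_right_cancel₀ hzz h1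
  -- the action on the columns
  have hUcol : ∀ b k, φ *ᵥ (fun x => U b x k) = d b k • (fun x => U b x k) := by
    intro b k
    funext x
    have h3 := congrFun (congrFun (heig b) x) k
    rw [Matrix.mul_diagonal] at h3
    rw [Pi.smul_apply, smul_eq_mul, mul_comm, ← h3]
    rfl
  have hUne : ∀ b k, (fun x => U b x k) ≠ 0 := by
    intro b k h0
    have h1 := congrFun (congrFun (hVU b) k) k
    rw [Matrix.one_apply_eq, Matrix.mul_apply] at h1
    rw [Finset.sum_eq_zero fun x _ => by rw [congrFun h0 x, Pi.zero_apply, mul_zero]] at h1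
    exact zero_ne_one h1
  have hCU : ∀ b, C * U b = U b * Matrix.diagonal (fun k => f (d b k)) := by
    intro b
    ext x k
    have h1 := congrFun (hf _ _ (hUcol b k)) x
    rw [Pi.smul_apply, smul_eq_mul] at h1
    rw [Matrix.mul_diagonal, mul_comm (U b x k), ← h1]
    rfl
  have heφ : ∀ b, e b * φ = φ * e b := fun b => (g.φD (e b) (hD b)).symm
  have hidem : ∀ b, e b * e b = e b := by
    intro b
    rw [hUV b]
    calc U b * V b * (U b * V b) = U b * (V b * U b) * V b := by simp only [Matrix.mul_assoc]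
      _ = U b * V b := by rw [hVU, Matrix.mul_one]
  have hrank : ∀ b, ((h * e b).rank : K) = ∑ k, f (d b k) := by
    intro b
    have h1 : h * e b * (h * e b) = h * e b := by
      have h2 := ph_comm g hh (hD b)
      calc h * e b * (h * e b) = h * (e b * h) * e b := by noncomm_ring
        _ = (h * h) * (e b * e b) := by rw [← h2]; noncomm_ring
        _ = h * e b := by rw [g.sh.hi h hh, hidem]
    rw [Pool.Agent.H76T.rank_eq_trace h1]
    have h3 : LinearMap.trace K (ι → K) (phi (h * e b)) = (h * e b).trace := by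
      exact Matrix.trace_toLin'_eq _
    rw [h3, ← hCtr (e b) (heφ b)]
    have h4 : C * e b = U b * (Matrix.diagonal (fun k => f (d b k)) * V b) := by
      rw [hUV b, ← Matrix.mul_assoc, hCU, Matrix.mul_assoc]
    rw [h4, Matrix.trace_mul_comm, Matrix.mul_assoc, hVU, Matrix.mul_one, Matrix.trace_diagonal]
  -- the relation
  have h5 := hfrel ((Σ b : Fin m, Fin (n b)) ⊕ Fin 2)
    (Sum.elim (fun s => d s.1 s.2) ![l, l']) (Sum.elim (fun s => a s.1) ![a₀, a₀]) (by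
      rintro (s | s)
      · exact ⟨_, hUne s.1 s.2, hUcol s.1 s.2⟩
      · fin_cases s
        · exact ⟨z, hz, hzl⟩
        · exact ⟨z', hz', hzl'⟩) (by
      rw [Fintype.prod_sum_type, Fin.prod_univ_two, Fintype.prod_sigma, ← hrel, hqll]
      congr 1
      · refine Finset.prod_congr rfl fun b _ => ?_
        rw [← Finset.prod_zpow]
        rfl
      · exact (mul_zpow l l' a₀).symm)
  rw [Fintype.sum_sum_type, Fin.sum_univ_two, Fintype.sum_sigma] at h5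
  have h6 : ∑ b, (a b : K) * ((h * e b).rank : K) + a₀ = 0 := by
    rw [← h5]
    congr 1
    · refine Finset.sum_congr rfl fun b _ => ?_
      rw [hrank, Finset.mul_sum]
      rfl
    · show (a₀ : K) = (a₀ : K) * f l + (a₀ : K) * f l'
      rw [← mul_add, hff, mul_one]
  exact_mod_cast h6

include g hJ hq hD hUV hVU heig in
/-- A linear relation for the ranks gives a multiplicative relation up to torsion. -/
theorem rel_tor (ha : ∀ h ∈ 𝓗, ∑ b, a b * ((h * e b).rank : ℤ) + a₀ = 0) :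
    ∃ N : ℕ, N ≠ 0 ∧ ((∏ b, (∏ k, d b k) ^ a b) * q ^ a₀) ^ N = 1 := by
  classical
  obtain ⟨N, hN, hz⟩ := g.torgen
  refine ⟨N, hN, ?_⟩
  have hφφ' := g.inv
  have hdetφ : φ.det ≠ 0 := by
    intro h0
    have h1 := congrArg Matrix.det hφφ'
    rw [Matrix.det_mul, h0, zero_mul, Matrix.det_one] at h1
    exact zero_ne_one h1
  have hJ0 : ∃ k l, J k l ≠ 0 := by
    by_contra hcon
    push Not at hcon
    have h1 : J = 0 := by ext i j; exact hcon i j
    rw [h1, Matrix.det_zero] at hJ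
    exact hJ rfl
  obtain ⟨k, l, hkl⟩ := hJ0
  have hidem : ∀ b, e b * e b = e b := by
    intro b
    rw [hUV b]
    calc U b * V b * (U b * V b) = U b * (V b * U b) * V b := by simp only [Matrix.mul_assoc]
      _ = U b * V b := by rw [hVU, Matrix.mul_one]
  have hq0 : q ≠ 0 := by
    rintro rfl
    rw [zero_smul] at hq
    have h1 := congrArg Matrix.det hq
    rw [Matrix.det_mul, Matrix.det_mul, Matrix.det_transpose, Matrix.det_zero] at h1
    exact mul_ne_zero (mul_ne_zero hdetφ hJ) hdetφ h1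
  have hpow : ∀ N : ℕ, (φ ^ N)ᵀ * J * φ ^ N = q ^ N • J := by
    intro N
    induction N with
    | zero => simp
    | succ N ih =>
      rw [pow_succ', Matrix.transpose_mul, pow_succ']
      calc (φ ^ N)ᵀ * φᵀ * J * (φ * φ ^ N) = (φ ^ N)ᵀ * (φᵀ * J * φ) * φ ^ N := by noncomm_ring
        _ = q • ((φ ^ N)ᵀ * J * φ ^ N) := by rw [hq]; simp only [mul_smul_comm, smul_mul_assoc]
        _ = (q * q ^ N) • J := by rw [ih, smul_smul]
  have hpowU : ∀ b (N : ℕ), φ ^ N * U b = U b * Matrix.diagonal (fun k => d b k ^ N) := by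
    intro b N
    induction N with
    | zero => simp
    | succ N ih =>
      rw [pow_succ, Matrix.mul_assoc, heig, ← Matrix.mul_assoc, ih, Matrix.mul_assoc,
        Matrix.diagonal_mul_diagonal]
      simp only [pow_succ]
  have h𝓗 : ∀ h ∈ 𝓗, ∀ b, h * e b = e b * h := fun h hh b => ph_comm g hh (hD b)
  have hadj : ∀ x ∈ {h | h ∈ 𝓗 ∧ h * φ = φ * h}, xᵀ * J * x = 0 ∧ xᵀ * J + J * x = J := by
    rintro x ⟨hx, -⟩
    have h1 := g.sh.hs x hx
    refine ⟨?_, h1⟩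
    have h2 : (xᵀ * J + J * x) * x = J * x := by rw [h1]
    rw [add_mul, mul_assoc J x x, g.sh.hi x hx] at h2
    exact left_eq_add.1 (h2.symm.trans (add_comm _ _))
  have hchar := Pool.Agent.H76U.char_zar (B := Fin m) (J := J) hkl hidem (S := S ∪ {m | ∃ h ∈ 𝓗, ∃ t : K,
      t ≠ 0 ∧ m = 1 + (t - 1) • h}) (by
        rintro s (hs | ⟨h, hh, t, -, rfl⟩) b
        · exact g.sh.SD s hs (e b) (hD b)
        · rw [add_mul, mul_add, one_mul, mul_one, smul_mul_assoc, mul_smul_comm, h𝓗 h hh b])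
    (𝓗 := {h | h ∈ 𝓗 ∧ h * φ = φ * h}) (by
        rintro x ⟨hx, -⟩
        exact ⟨g.sh.hi x hx, fun t ht => subset_zar _ (Or.inr ⟨x, hx, t, ht, rfl⟩)⟩)
    hadj (x := φ ^ N) (by rw [Matrix.det_pow]; exact pow_ne_zero _ hdetφ)
    (fun b => ((show Commute φ (e b) from g.φD (e b) (hD b)).pow_left N).eq) (c := q ^ N) (pow_ne_zero _ hq0) (hpow N)
    (by
      refine zar_mono ?_ hz
      refine Submonoid.closure_mono ?_
      rintro m ⟨h, hh, hc, t, ht, rfl⟩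
      exact ⟨h, ⟨hh, hc⟩, t, ht, rfl⟩) a a₀ (fun y hy => ha y hy.1)
  have hdb : ∀ b, Pool.Agent.H76U.detb (e b) (φ ^ N) = (∏ k, d b k) ^ N := by
    intro b
    rw [Pool.Agent.H76U.detb, Pool.Agent.H45U.det_comp (hUV b) (hVU b) (hpowU b N), Finset.prod_pow]
  rw [← hchar, mul_pow, ← Finset.prod_pow]
  congr 1
  · refine Finset.prod_congr rfl fun b _ => ?_
    rw [hdb, ← zpow_natCast, ← zpow_natCast, ← _root_.zpow_mul, ← _root_.zpow_mul, mul_comm]
  · rw [← zpow_natCast, ← zpow_natCast, ← _root_.zpow_mul, ← _root_.zpow_mul, mul_comm]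

end

end Pool.Agent.H25W
end

-- from Lib.H25W.Hodge
section

/-!
# Hodge: linear relations between the ranks of the Hodge projectors do not depend on `l`
-/

set_option autoImplicit false
set_option linter.unusedSectionVars false
namespace Pool.Agent.H45U
open Pool.Agent.H76Y Pool.Agent.H76Z
open Pool.Agent.H76P Pool.Agent.H76V Pool.Agent.H76Q
open Module Matrix Polynomial Pool.Agent.H53Toric
open Pool.Agent.H76P
open Pool.Agent.H76T (IsIdeal Fam Lc)
open Pool.Agent.H76U (cmp preL IsSplitting)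
open Pool.Agent.H76RM (spanK similD)

theorem hg_vz {K : Type*} [Field K] [CharZero K] [IsAlgClosed K] {v : K → ℚ} (hv : IsVal v) {x : K} (hx : x ≠ 0) (a : ℤ) :
    v (x ^ a) = a * v x := by
  obtain ⟨-, -, h1, h2⟩ := IsVal.basic hv
  rcases a with n | n
  · rw [Int.ofNat_eq_natCast, zpow_natCast, h2 x hx n, Int.cast_natCast]
  · rw [zpow_negSucc, h1 _ (pow_ne_zero _ hx), h2 x hx, Int.cast_negSucc]
    push_cast
    ring

theorem hg_vprod {K : Type*} [Field K] [CharZero K] [IsAlgClosed K] {v : K → ℚ} (hv : IsVal v) {B : Type*} (s : Finset B) (x : B → K)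
    (hx : ∀ b, x b ≠ 0) : v (∏ b ∈ s, x b) = ∑ b ∈ s, v (x b) := by
  classical
  induction s using Finset.induction_on with
  | empty => rw [Finset.prod_empty, Finset.sum_empty, (IsVal.basic hv).1]
  | insert c s hc ih =>
    rw [Finset.prod_insert hc, Finset.sum_insert hc, hv.mul _ _ (hx c) (Finset.prod_ne_zero_iff.2 fun b _ => hx b), ih]

variable {ι : Type*} [Fintype ι] [DecidableEq ι] {ψ : Matrix ι ι ℚ}
    {D : Subalgebra ℚ (Matrix ι ι ℚ)} {M : Type*} [Field M] [NumberField M]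
    {m : ℕ} {cl : Fin m → Cl} {bar : Fin m → Fin m} {e : Fin m → Matrix ι ι M} {u₀ : Matrix ι ι M} {G : Type*} [Group G]
    {ρ : ∀ (l : ℕ) [Fact l.Prime], G →* Matrix.GeneralLinearGroup ι ℚ_[l]}
    {p : ℕ} [Fact p.Prime] {σ : G} {q : ℚ} {F : Fin m → M[X]}
    {φ μ ν : Matrix ι ι (AlgebraicClosure ℚ_[p])} {v : AlgebraicClosure ℚ_[p] → ℚ}
    {Δ : Set (AlgebraicClosure ℚ_[p] ≃+* AlgebraicClosure ℚ_[p])}
    {Ω : Type*} [Field Ω] [CharZero Ω] [IsAlgClosed Ω] [Algebra.IsAlgebraic ℚ Ω] {j : M →+* Ω}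
    {R : Finset Ω} {N : Set ℕ} {hd : Fin m → Ω → ℕ} {ub : Fin m → Prop}
    (C : Core5a ψ D cl bar e u₀ ρ p σ q F φ μ ν v Δ j R N hd ub)

include C

/-- The data at the prime `l` for all components. -/
theorem Core5a.at_l (l : ℕ) [Fact l.Prime] (i : Ω →+* AlgebraicClosure ℚ_[l]) :
    ∃ (x x' : Matrix ι ι (AlgebraicClosure ℚ_[l])) (H : Subgroup G), H.FiniteIndex ∧
      PH (img (AlgebraicClosure ℚ_[l]) (ρ l) H) (ψ.map (algebraMap ℚ (AlgebraicClosure ℚ_[l])))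
        (spanK (AlgebraicClosure ℚ_[l]) D) (properProj (AlgebraicClosure ℚ_[l]) (ρ l)) x x' ∧
      xᵀ * ψ.map (algebraMap ℚ (AlgebraicClosure ℚ_[l])) * x =
        algebraMap ℚ (AlgebraicClosure ℚ_[l]) q • ψ.map (algebraMap ℚ (AlgebraicClosure ℚ_[l])) ∧
      ∀ (b : Fin m) {n : ℕ} {a : Fin n → Ω}, Function.Injective a →
        (∀ y : Ω, (F b).eval₂ j y = 0 ↔ ∃ k, y = a k) →
        ∃ (U : Matrix ι (Fin n) (AlgebraicClosure ℚ_[l])) (V : Matrix (Fin n) ι (AlgebraicClosure ℚ_[l])),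
          (e b).map (i.comp j) = U * V ∧ V * U = 1 ∧ x * U = U * Matrix.diagonal (fun k => i (a k)) := by
  have hne : Nonempty ι := by
    by_contra hemp
    rw [not_nonempty_iff] at hemp
    exact C.crys.mu.2.1 (by ext i; exact (hemp.false i).elim)
  obtain ⟨H, -, hfin, hprime⟩ := H76RM.exists_prime (K := AlgebraicClosure ℚ_[l]) (ρ l) ⊤ inferInstance
  by_cases hl : l = p
  · subst hl
    obtain ⟨x', hPH⟩ := mk_phT C.hψ C.hψ0 D (ρ l) (C.lin l) (C.sim l) (C.semis l) (C.commt l) (C.gen l)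
      C.frobp hfin hprime
    refine ⟨φ, x', H, hfin, hPH, C.multp, fun b n a ha hroot => ?_⟩
    obtain ⟨H₀, U, V, -, hL, -⟩ := C.locp0 b ha hroot i
    exact ⟨U, V, hL.UV, hL.VU, hL.ec.eig⟩
  · obtain ⟨x', hPH⟩ := mk_phT C.hψ C.hψ0 D (ρ l) (C.lin l) (C.sim l) (C.semis l) (C.commt l) (C.gen l)
      (C.frob l hl) hfin hprime
    have hmult : ((ρ l σ).1.map (algebraMap ℚ_[l] (AlgebraicClosure ℚ_[l])))ᵀ *
        ψ.map (algebraMap ℚ (AlgebraicClosure ℚ_[l])) * (ρ l σ).1.map (algebraMap ℚ_[l] (AlgebraicClosure ℚ_[l])) =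
        algebraMap ℚ (AlgebraicClosure ℚ_[l]) q • ψ.map (algebraMap ℚ (AlgebraicClosure ℚ_[l])) := by
      have h1 := congrArg (fun m : Matrix ι ι ℚ_[l] => m.map (algebraMap ℚ_[l] (AlgebraicClosure ℚ_[l]))) (C.mult l hl)
      have h2 : (ψ.map (algebraMap ℚ ℚ_[l])).map (algebraMap ℚ_[l] (AlgebraicClosure ℚ_[l])) =
          ψ.map (algebraMap ℚ (AlgebraicClosure ℚ_[l])) := by
        ext i j
        simp
      have h3 : (algebraMap ℚ ℚ_[l] q • ψ.map (algebraMap ℚ ℚ_[l])).map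
          (algebraMap ℚ_[l] (AlgebraicClosure ℚ_[l])) =
          algebraMap ℚ (AlgebraicClosure ℚ_[l]) q • ψ.map (algebraMap ℚ (AlgebraicClosure ℚ_[l])) := by
        ext i j
        simp
      simp only [Matrix.map_mul] at h1
      rw [h2, h3, Matrix.transpose_map] at h1
      exact h1
    refine ⟨_, x', H, hfin, hPH, hmult, fun b n a ha hroot => ?_⟩
    obtain ⟨H₀, U, V, -, hL, -⟩ := C.locl0 b ha hroot l hl i
    exact ⟨U, V, hL.UV, hL.VU, hL.ec.eig⟩

/-- The linear relations between the ranks of the Hodge projectors on the components at any prime `l`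
are the relations between the multiplicities `hd`. -/
theorem Core5a.hodge_iff (l : ℕ) [Fact l.Prime] (i : Ω →+* AlgebraicClosure ℚ_[l])
    (a : Fin m → ℤ) (a₀ : ℤ) :
    (∀ h ∈ properProj (AlgebraicClosure ℚ_[l]) (ρ l),
      ∑ b, a b * ((h * (e b).map (i.comp j)).rank : ℤ) + a₀ = 0) ↔
      ∀ r ∈ R, ∑ b, a b * (hd b r : ℤ) + a₀ = 0 := by
  classical
  have hne : Nonempty ι := by
    by_contra hemp
    rw [not_nonempty_iff] at hemp
    exact C.crys.mu.2.1 (by ext i; exact (hemp.false i).elim)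
  have hv : IsVal v := C.crys.val
  choose A hA hroot using fun b => C.enum b
  have hA0 : ∀ b k, A b k ≠ 0 := fun b k => C.ne b (hroot b) k
  have hP0 : ∀ b, (∏ k, A b k) ≠ 0 := fun b => Finset.prod_ne_zero_iff.2 fun k _ => hA0 b k
  obtain ⟨hJt, hJdet⟩ := gram_basic C.hψ C.hψ0 (AlgebraicClosure ℚ_[l])
  have hiq : ∀ {E : Type} [Field E] [CharZero E] (i' : Ω →+* E), i' (algebraMap ℚ Ω q) = algebraMap ℚ E q := by
    intro E _ _ i'
    rw [eq_ratCast, map_ratCast, eq_ratCast]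
  have hq0 : algebraMap ℚ Ω q ≠ 0 := by
    intro h0
    have h1 : q = 0 := by
      rw [← map_zero (algebraMap ℚ Ω)] at h0
      exact (algebraMap ℚ Ω).injective h0
    have h2 := C.vq
    have h3 := C.multp
    rw [h1, map_zero, zero_smul] at h3
    have h4 := congrArg Matrix.det h3
    obtain ⟨-, hdet⟩ := gram_basic C.hψ C.hψ0 (AlgebraicClosure ℚ_[p])
    rw [Matrix.det_mul, Matrix.det_mul, Matrix.det_transpose, Matrix.det_zero] at h4
    exact mul_ne_zero (mul_ne_zero C.frobp.idc.1 hdet.ne_zero) C.frobp.idc.1 h4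
  obtain ⟨z, hz⟩ : ∃ z : Ω, z = (∏ b, (∏ k, A b k) ^ a b) * (algebraMap ℚ Ω q) ^ a₀ := ⟨_, rfl⟩
  have hz0 : z ≠ 0 := by
    rw [hz]
    exact mul_ne_zero (Finset.prod_ne_zero_iff.2 fun b _ => zpow_ne_zero _ (hP0 b)) (zpow_ne_zero _ hq0)
  have hiz : ∀ {E : Type} [Field E] [CharZero E] (i' : Ω →+* E),
      i' z = (∏ b, (∏ k, i' (A b k)) ^ a b) * (algebraMap ℚ E q) ^ a₀ := by
    intro E _ _ i'
    rw [hz, map_mul, map_prod, map_zpow₀, hiq]
    congr 1
    exact Finset.prod_congr rfl fun b _ => by rw [map_zpow₀, map_prod]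
  obtain ⟨x, x', H, hfin, hPH, hmult, hUV⟩ := C.at_l l i
  choose U V hUV1 hVU1 heig using fun b => hUV b (hA b) (hroot b)
  have hspl : Splits D ψ cl bar (fun c => (e c).map (i.comp j)) (u₀.map (i.comp j)) := C.hspl.map (i.comp j)
  have hD : ∀ b, (e b).map (i.comp j) ∈ spanK (AlgebraicClosure ℚ_[l]) D := fun b => hspl.mem b
  -- first step
  have step1 : (∀ h ∈ properProj (AlgebraicClosure ℚ_[l]) (ρ l),
      ∑ b, a b * ((h * (e b).map (i.comp j)).rank : ℤ) + a₀ = 0) ↔ ∃ N : ℕ, N ≠ 0 ∧ z ^ N = 1 := by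
    constructor
    · intro h1
      obtain ⟨N, hN, hN1⟩ := H25W.rel_tor hPH hJdet.ne_zero hmult hD U V hUV1 hVU1
        (fun b k => i (A b k)) heig a a₀ h1
      refine ⟨N, hN, ?_⟩
      rw [← hiz i, ← map_pow] at hN1
      exact i.injective (by rw [hN1, map_one])
    · rintro ⟨N, hN, hzN⟩ h hh
      have h2 := H25W.rel_lie hPH hJdet.ne_zero hmult hD U V hUV1 hVU1
        (fun b k => i (A b k)) heig (fun b => (N : ℤ) * a b) ((N : ℤ) * a₀) (by
          have h3 := congrArg i hzN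
          rw [map_pow, map_one, hiz i, mul_pow, ← Finset.prod_pow] at h3
          rw [← h3]
          congr 1
          · refine Finset.prod_congr rfl fun b _ => ?_
            rw [mul_comm (N : ℤ), _root_.zpow_mul, zpow_natCast]
          · rw [mul_comm (N : ℤ), _root_.zpow_mul, zpow_natCast]) hh
      have h4 : (N : ℤ) * (∑ b, a b * ((h * (e b).map (i.comp j)).rank : ℤ) + a₀) = 0 := by
        rw [← h2, mul_add, Finset.mul_sum]
        congr 1
        exact Finset.sum_congr rfl fun b _ => by ring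
      exact (mul_eq_zero.1 h4).resolve_left (Nat.cast_ne_zero.2 hN)
  -- second step
  have hi0 : ∀ (i' : Ω →+* AlgebraicClosure ℚ_[p]) {y : Ω}, y ≠ 0 → i' y ≠ 0 := fun i' y hy => (map_ne_zero i').2 hy
  have step2 : (∃ N : ℕ, N ≠ 0 ∧ z ^ N = 1) ↔ ∀ i' : Ω →+* AlgebraicClosure ℚ_[p], v (i' z) = 0 := by
    constructor
    · rintro ⟨N, hN, hzN⟩ i'
      have h1 := (IsVal.basic hv).2.2.2 (i' z) (hi0 i' hz0) N
      rw [← map_pow, hzN, map_one, (IsVal.basic hv).1] at h1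
      exact (mul_eq_zero.1 h1.symm).resolve_left (Nat.cast_ne_zero.2 hN)
    · intro h1
      obtain ⟨N, hN, hN1⟩ := C.tors (Units.mk0 z hz0) (by
        have h2 : Units.mk0 z hz0 = (∏ b, (∏ k, Units.mk0 (A b k) (hA0 b k)) ^ a b) *
            (Units.mk0 (algebraMap ℚ Ω q) hq0) ^ a₀ := by
          apply Units.ext
          rw [Units.val_mk0, hz, Units.val_mul, Units.coe_prod, Units.val_zpow_eq_zpow_val, Units.val_mk0]
          congr 1
          refine Finset.prod_congr rfl fun b _ => ?_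
          rw [Units.val_zpow_eq_zpow_val, Units.coe_prod]
          simp only [Units.val_mk0]
        rw [h2]
        refine mul_mem (prod_mem fun b _ => zpow_mem (prod_mem fun k _ => Subgroup.subset_closure ?_) _)
          (zpow_mem (Subgroup.subset_closure ?_) _)
        · exact Or.inr ⟨b, (hroot b _).2 ⟨k, rfl⟩⟩
        · exact Or.inl rfl) h1
      refine ⟨N, hN, ?_⟩
      have h3 := congrArg (fun u : Ωˣ => (u : Ω)) hN1
      simpa using h3
  -- third step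
  have hval : ∀ (i' : Ω →+* AlgebraicClosure ℚ_[p]) (r : Ω), r ∈ R → v (i' r) = 1 →
      v (i' z) = ((∑ b, a b * (hd b r : ℤ) + a₀ : ℤ) : ℚ) := by
    intro i' r hr hvr
    have hQ0 : algebraMap ℚ (AlgebraicClosure ℚ_[p]) q ≠ 0 := by
      rw [← hiq i']
      exact hi0 i' hq0
    have hb0 : ∀ b, (∏ k, i' (A b k)) ≠ 0 := fun b =>
      Finset.prod_ne_zero_iff.2 fun k _ => hi0 i' (hA0 b k)
    rw [hiz i', hv.mul _ _ (Finset.prod_ne_zero_iff.2 fun b _ => zpow_ne_zero _ (hb0 b)) (zpow_ne_zero _ hQ0),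
      hg_vprod hv _ _ (fun b => zpow_ne_zero _ (hb0 b)), hg_vz hv hQ0, C.vq, mul_one]
    push_cast
    congr 1
    refine Finset.sum_congr rfl fun b _ => ?_
    rw [hg_vz hv (hb0 b), ← map_prod, C.vprod b (hA b) (hroot b) i', C.hdg b i' r hr hvr]
  rw [step1, step2]
  constructor
  · intro h1 r hr
    obtain ⟨i', hi'⟩ := C.w2_i hr
    have h2 := hval i' r hr hi'
    rw [h1 i'] at h2
    exact_mod_cast h2.symm
  · intro h1 i'
    obtain ⟨r, hr, hr1, -⟩ := C.Rval i'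
    rw [hval i' r hr hr1, h1 r hr, Int.cast_zero]

end Pool.Agent.H45U
end

-- from Lib.H45U.WH
section

/-!
# the characters of the group and the multiplicities
-/

set_option autoImplicit false
set_option linter.unusedSectionVars false
namespace Pool.Agent.H45U
open Pool.Agent.H76Y Pool.Agent.H76Z
open Pool.Agent.H76P Pool.Agent.H76V Pool.Agent.H76Q
open Module Matrix Polynomial Pool.Agent.H53Toric
open Pool.Agent.H76P
open Pool.Agent.H76T (IsIdeal Fam Lc)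
open Pool.Agent.H76U (cmp preL IsSplitting)
open Pool.Agent.H76RM (spanK similD)

variable {ι : Type*} [Fintype ι] [DecidableEq ι] {ψ : Matrix ι ι ℚ}
    {D : Subalgebra ℚ (Matrix ι ι ℚ)} {M : Type*} [Field M] [NumberField M]
    {m : ℕ} {cl : Fin m → Cl} {bar : Fin m → Fin m} {e : Fin m → Matrix ι ι M} {u₀ : Matrix ι ι M} {G : Type*} [Group G]
    {ρ : ∀ (l : ℕ) [Fact l.Prime], G →* Matrix.GeneralLinearGroup ι ℚ_[l]}
    {p : ℕ} [Fact p.Prime] {σ : G} {q : ℚ} {F : Fin m → M[X]}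
    {φ μ ν : Matrix ι ι (AlgebraicClosure ℚ_[p])} {v : AlgebraicClosure ℚ_[p] → ℚ}
    {Δ : Set (AlgebraicClosure ℚ_[p] ≃+* AlgebraicClosure ℚ_[p])}
    {Ω : Type*} [Field Ω] [CharZero Ω] [IsAlgClosed Ω] [Algebra.IsAlgebraic ℚ Ω] {j : M →+* Ω}
    {R : Finset Ω} {N : Set ℕ} {hd : Fin m → Ω → ℕ} {ub : Fin m → Prop}
    (C : Core5a ψ D cl bar e u₀ ρ p σ q F φ μ ν v Δ j R N hd ub)

include C

/-- A linear relation between the multiplicities at `p` holds for all projectors at all `l`. -/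
theorem Core5a.hodge_of (a : Fin m → ℤ) (a₀ : ℤ)
    (hR : ∀ r ∈ R, ∑ b, a b * (hd b r : ℤ) + a₀ = 0)
    (l : ℕ) [Fact l.Prime] {h : Matrix ι ι (AlgebraicClosure ℚ_[l])}
    (hh : h ∈ properProj (AlgebraicClosure ℚ_[l]) (ρ l)) (i : M →+* AlgebraicClosure ℚ_[l]) :
    ∑ b, a b * ((h * (e b).map i).rank : ℤ) + a₀ = 0 := by
  obtain ⟨i', rfl⟩ := Pool.Agent.H76Q.g12_ext j i
  exact (C.hodge_iff l i' a a₀).2 hR h hh

/-- A component without a form which is balanced at `p` is balanced. -/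
theorem Core5a.bal_n (b : Fin m) (hR : ∀ r ∈ R, 2 * hd b r = (e b).rank)
    (l : ℕ) [Fact l.Prime] (h : Matrix ι ι (AlgebraicClosure ℚ_[l]))
    (hh : h ∈ properProj (AlgebraicClosure ℚ_[l]) (ρ l)) (i : M →+* AlgebraicClosure ℚ_[l]) :
    2 * (h * (e b).map i).rank = (e b).rank := by
  have h1 := C.hodge_of (fun b' => if b' = b then 2 else 0) (-((e b).rank : ℤ)) (fun r hr => by
    have h2 := hR r hr
    simp only [ite_mul, zero_mul, Finset.sum_ite_eq', Finset.mem_univ, if_true]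
    omega) l hh i
  simp only [ite_mul, zero_mul, Finset.sum_ite_eq', Finset.mem_univ, if_true] at h1
  omega

end Pool.Agent.H45U
end

-- from Lib.H45U.W2
section

/-!
# the local data
-/

set_option autoImplicit false
set_option linter.unusedSectionVars false
namespace Pool.Agent.H45U
open Pool.Agent.H76Y Pool.Agent.H76Z
open Pool.Agent.H76P Pool.Agent.H76V Pool.Agent.H76Q
open Module Matrix Polynomial Pool.Agent.H53Toric
open Pool.Agent.H76P
open Pool.Agent.H76T (IsIdeal Fam Lc)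
open Pool.Agent.H76U (cmp preL IsSplitting)
open Pool.Agent.H76RM (spanK similD)

theorem nodual_fin {M Ω : Type*} [Field M] [Field Ω] {j : M →+* Ω} {F : M[X]} {n : ℕ} {a : Fin n → Ω}
    (hroot : ∀ y : Ω, F.eval₂ j y = 0 ↔ ∃ k, y = a k) (h : NoDual j F) :
    ¬ ∃ z : Ω, ∀ k, ∃ k', a k * a k' = z := by
  rintro ⟨z, hz⟩
  refine h ⟨z, fun y hy => ?_⟩
  obtain ⟨k, rfl⟩ := (hroot y).1 hy
  obtain ⟨k', hk'⟩ := hz k
  exact ⟨a k', (hroot _).2 ⟨k', rfl⟩, hk'⟩

variable {ι : Type*} [Fintype ι] [DecidableEq ι] {ψ : Matrix ι ι ℚ}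
    {D : Subalgebra ℚ (Matrix ι ι ℚ)} {M : Type*} [Field M] [NumberField M]
    {m : ℕ} {cl : Fin m → Cl} {bar : Fin m → Fin m} {e : Fin m → Matrix ι ι M} {u₀ : Matrix ι ι M} {G : Type*} [Group G]
    {ρ : ∀ (l : ℕ) [Fact l.Prime], G →* Matrix.GeneralLinearGroup ι ℚ_[l]}
    {p : ℕ} [Fact p.Prime] {σ : G} {q : ℚ} {F : Fin m → M[X]}
    {φ μ ν : Matrix ι ι (AlgebraicClosure ℚ_[p])} {v : AlgebraicClosure ℚ_[p] → ℚ}
    {Δ : Set (AlgebraicClosure ℚ_[p] ≃+* AlgebraicClosure ℚ_[p])}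
    {Ω : Type*} [Field Ω] [CharZero Ω] [IsAlgClosed Ω] [Algebra.IsAlgebraic ℚ Ω] {j : M →+* Ω}
    {R : Finset Ω} {N : Set ℕ} {hd : Fin m → Ω → ℕ} {ub : Fin m → Prop}
    (C : Core5 ψ D cl bar e u₀ ρ p σ q F φ μ ν v Δ j R N hd ub)

include C

theorem Core5.locp (b : Fin m)
    {n : ℕ} {a : Fin n → Ω} (ha : Function.Injective a)
    (hroot : ∀ y : Ω, (F b).eval₂ j y = 0 ↔ ∃ k, y = a k)
    (i : Ω →+* AlgebraicClosure ℚ_[p]) :
    ∃ (H₀ : Subgroup G) (U : Matrix ι (Fin n) (AlgebraicClosure ℚ_[p]))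
      (V : Matrix (Fin n) ι (AlgebraicClosure ℚ_[p])), H₀.FiniteIndex ∧
      LocU (ψ.map (algebraMap ℚ (AlgebraicClosure ℚ_[p]))) (img (AlgebraicClosure ℚ_[p]) (ρ p) H₀)
        (properProj (AlgebraicClosure ℚ_[p]) (ρ p)) ((e b).map (i.comp j)) φ
        U V (fun k => i (a k)) (YS a) ∧
      ClsU (cl b) (LcN (ψ.map (algebraMap ℚ (AlgebraicClosure ℚ_[p])))
        (img (AlgebraicClosure ℚ_[p]) (ρ p) H₀) U V) := by
  obtain ⟨H₀, U, V, hfin, hL, h1, h2, h3⟩ := C.locp0 b ha hroot i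
  refine ⟨H₀, U, V, hfin, hL, h1, h2, fun hb h4 => ?_⟩
  have hn := C.card b ha hroot
  have : Nonempty (Fin n) := ⟨⟨0, hL.pos⟩⟩
  rw [Fintype.card_fin] at h4
  rcases C.alt b hb with h5 | h5 | ⟨r, hr, h5, h6, h7⟩ | h5
  · omega
  · exact (h3 fun h hh => by rw [C.bal_n b h5 p h hh (i.comp j), hn]).2.2.2 hb
  · exact C.cls_n b ha hroot hr h5 h6 h7 hL.ts hL.yo
  · exact ns_roots i hL C.crys.phigen (nodual_fin hroot h5)

theorem Core5.locl (b : Fin m)
    {n : ℕ} {a : Fin n → Ω} (ha : Function.Injective a)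
    (hroot : ∀ y : Ω, (F b).eval₂ j y = 0 ↔ ∃ k, y = a k)
    (l : ℕ) [Fact l.Prime] (hl : l ≠ p) (i : Ω →+* AlgebraicClosure ℚ_[l]) :
    ∃ (H₀ : Subgroup G) (U : Matrix ι (Fin n) (AlgebraicClosure ℚ_[l]))
      (V : Matrix (Fin n) ι (AlgebraicClosure ℚ_[l])), H₀.FiniteIndex ∧
      LocU (ψ.map (algebraMap ℚ (AlgebraicClosure ℚ_[l]))) (img (AlgebraicClosure ℚ_[l]) (ρ l) H₀)
        (properProj (AlgebraicClosure ℚ_[l]) (ρ l)) ((e b).map (i.comp j))
        ((ρ l σ).1.map (algebraMap ℚ_[l] (AlgebraicClosure ℚ_[l])))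
        U V (fun k => i (a k)) (YS a) ∧
      ClsU (cl b) (LcN (ψ.map (algebraMap ℚ (AlgebraicClosure ℚ_[l])))
        (img (AlgebraicClosure ℚ_[l]) (ρ l) H₀) U V) := by
  obtain ⟨H₀, U, V, hfin, hL, h1, h2, h3⟩ := C.locl0 b ha hroot l hl i
  refine ⟨H₀, U, V, hfin, hL, h1, h2, fun hb h4 => ?_⟩
  have hn := C.card b ha hroot
  have : Nonempty (Fin n) := ⟨⟨0, hL.pos⟩⟩
  rw [Fintype.card_fin] at h4
  rcases C.alt b hb with h5 | h5 | ⟨r, hr, h5, h6, h7⟩ | h5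
  · omega
  · exact (h3 fun h hh => by rw [C.bal_n b h5 l h hh (i.comp j), hn]).2.2.2 hb
  · exact C.cls_n b ha hroot hr h5 h6 h7 hL.ts hL.yo
  · exact ns_roots i hL (C.gen l σ) (nodual_fin hroot h5)

end Pool.Agent.H45U
end

-- from Lib.H45U.W3
section

/-!
# W3: the factorisation at p, the valuation of the determinant
-/

set_option autoImplicit false
set_option linter.unusedSectionVars false
namespace Pool.Agent.H45U
open Pool.Agent.H76Y Pool.Agent.H76Z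
open Pool.Agent.H76P Pool.Agent.H76V Pool.Agent.H76Q
open Module Matrix Polynomial Pool.Agent.H53Toric
open Pool.Agent.H76P
open Pool.Agent.H76T (IsIdeal Fam Lc)
open Pool.Agent.H76U (cmp preL IsSplitting)
open Pool.Agent.H76RM (spanK similD)

variable {ι : Type*} [Fintype ι] [DecidableEq ι] {ψ : Matrix ι ι ℚ}
    {D : Subalgebra ℚ (Matrix ι ι ℚ)} {M : Type*} [Field M] [NumberField M]
    {m : ℕ} {cl : Fin m → Cl} {bar : Fin m → Fin m} {e : Fin m → Matrix ι ι M} {u₀ : Matrix ι ι M} {G : Type*} [Group G]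
    {ρ : ∀ (l : ℕ) [Fact l.Prime], G →* Matrix.GeneralLinearGroup ι ℚ_[l]}
    {p : ℕ} [Fact p.Prime] {σ : G} {q : ℚ} {F : Fin m → M[X]}
    {φ μ ν : Matrix ι ι (AlgebraicClosure ℚ_[p])} {v : AlgebraicClosure ℚ_[p] → ℚ}
    {Δ : Set (AlgebraicClosure ℚ_[p] ≃+* AlgebraicClosure ℚ_[p])}
    {Ω : Type*} [Field Ω] [CharZero Ω] [IsAlgClosed Ω] [Algebra.IsAlgebraic ℚ Ω] {j : M →+* Ω}
    {R : Finset Ω} {N : Set ℕ} {hd : Fin m → Ω → ℕ} {ub : Fin m → Prop}
    (C : Core5 ψ D cl bar e u₀ ρ p σ q F φ μ ν v Δ j R N hd ub)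

include C

/-- Local data at `p`. -/
theorem Core5.ld (b : Fin m)
    {n : ℕ} {a : Fin n → Ω} (ha : Function.Injective a)
    (hroot : ∀ y : Ω, (F b).eval₂ j y = 0 ↔ ∃ k, y = a k)
    {P : Module.End ℚ (YS a)} (hP : Sp P) (hg : GoodU (cl b) P) (i : Ω →+* AlgebraicClosure ℚ_[p]) :
    ∃ (u r : Fin n → AlgebraicClosure ℚ_[p]), LD P a i u r := by
  obtain ⟨H₀, U, V, -, hL, hcls⟩ := C.locp b ha hroot i
  have hc : Comp (LcN (ψ.map (algebraMap ℚ (AlgebraicClosure ℚ_[p])))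
      (img (AlgebraicClosure ℚ_[p]) (ρ p) H₀) U V) P :=
    hg (AlgebraicClosure ℚ_[p]) _ hL.ts hcls hL.yo
  obtain ⟨u, r, t, hPT⟩ := gen_PT hL hP hc C.crys.phigen
  rw [cmp_phi hL.VU hL.ec, phi_diag] at hPT
  have hne : Nonempty (Fin n) := ⟨⟨0, hL.pos⟩⟩
  obtain ⟨u₀, r₀, hu, hr, fu, fr, hprod⟩ := PT_diag hL.ts hL.yo hP hc hL.ec.inj hPT
  exact ⟨u₀, r₀, ⟨hprod, fu, fr⟩⟩

end Pool.Agent.H45U
end

-- from Lib.H45U.E6
section

/-!
# the reciprocity law at l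
-/

set_option autoImplicit false
set_option linter.unusedSectionVars false
namespace Pool.Agent.H45U
open Pool.Agent.H76Y Pool.Agent.H76Z
open Pool.Agent.H76Q
open Module Matrix Polynomial Pool.Agent.H53Toric
open Pool.Agent.H76P
open Pool.Agent.H76T (IsIdeal Fam Lc)
open Pool.Agent.H76V (Cmp)
open Pool.Agent.H76U (cmp preL IsSplitting)
open Pool.Agent.H76RM (spanK similD)
open H45P (PC PowIn)

/-- The group generated by the `m`-th powers and the commutators, as a monoid. -/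
theorem pc_mono {G : Type*} [Group G] {H : Type*} [Group H] {m : ℕ} (ρ : G →* H) {y : H}
    (hy : y ∈ PC m ρ) :
    y ∈ Submonoid.closure ((Set.range fun g => ρ (g ^ m)) ∪ {x | ∃ g h : G, x = ρ (g * h * g⁻¹ * h⁻¹)}) := by
  have h0 : ((Set.range fun g => ρ g ^ m) ∪ {x | ∃ g h, x = ρ g * ρ h * (ρ g)⁻¹ * (ρ h)⁻¹}) =
      ((Set.range fun g => ρ (g ^ m)) ∪ {x | ∃ g h : G, x = ρ (g * h * g⁻¹ * h⁻¹)}) := by
    simp only [map_mul, map_inv, map_pow]
  have h1 : y ∈ (PC m ρ).toSubmonoid := hy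
  rw [PC, h0, Subgroup.closure_toSubmonoid] at h1
  refine Submonoid.closure_mono ?_ h1
  rintro z (hz | hz)
  · exact hz
  · rw [Set.mem_inv] at hz
    rcases hz with ⟨g, hg⟩ | ⟨g, h, hg⟩
    · left
      refine ⟨g⁻¹, ?_⟩
      show ρ (g⁻¹ ^ m) = z
      have h3 : ρ (g ^ m) = z⁻¹ := hg
      rw [inv_pow, map_inv, h3, inv_inv]
    · right
      refine ⟨h, g, ?_⟩
      rw [← inv_inv z, hg, ← map_inv]
      congr 1
      group

theorem power_at {ι : Type*} [Fintype ι] [DecidableEq ι] {L : Type*} [Field L] [CharZero L]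
    {G : Type*} [Group G] (ρ : G →* Matrix.GeneralLinearGroup ι L)
    {J : Matrix ι ι (AlgebraicClosure L)} {H₀ : Subgroup G} {e : Matrix ι ι (AlgebraicClosure L)}
    {n : ℕ} {U : Matrix ι (Fin n) (AlgebraicClosure L)}
    {V : Matrix (Fin n) ι (AlgebraicClosure L)} {Ω : Type*} [Field Ω] [CharZero Ω]
    {a : Fin n → Ω} {i : Ω →+* AlgebraicClosure L} {Y : Submodule ℚ (Fin n → ℚ)} {σ₀ : G}
    (h : LocU J (img (AlgebraicClosure L) ρ H₀) (properProj (AlgebraicClosure L) ρ) e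
      ((ρ σ₀).1.map (algebraMap L (AlgebraicClosure L))) U V (fun k => i (a k)) Y)
    (gen : ∀ g : G, (ρ g).1.map (algebraMap L (AlgebraicClosure L)) ∈
      tgen (AlgebraicClosure L) ρ)
    (hsq : ρ σ₀ ∈ PC n ρ)
    {P : Module.End ℚ Y} (hP : Sp P) (hc : Comp (LcN J (img (AlgebraicClosure L) ρ H₀) U V) P)
    (hJ : ∀ τ : AlgebraicClosure L ≃ₐ[L] AlgebraicClosure L, J.map τ = J)
    (he : ∀ τ : AlgebraicClosure L ≃ₐ[L] AlgebraicClosure L, e.map τ = e)
    (hdec : ∀ τ : AlgebraicClosure L ≃ₐ[L] AlgebraicClosure L, ∃ (s : Ω ≃+* Ω)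
      (σ : Equiv.Perm (Fin n)), (∀ y, τ (i y) = i (s y)) ∧ (∀ k, s (a k) = a (σ k)) ∧ StabP P σ)
    {t : Fin n → Ω} (ht : Lift P a t) :
    PowIn n L (i (∏ k, t k)) := by
  classical
  have hVU := h.VU
  have hne : Nonempty (Fin n) := ⟨⟨0, h.pos⟩⟩
  -- the semilinear automorphisms
  have hth : ∀ τ : AlgebraicClosure L ≃ₐ[L] AlgebraicClosure L,
      ∃ (θ : Module.End (AlgebraicClosure L) (Fin n → AlgebraicClosure L) ≃+*
          Module.End (AlgebraicClosure L) (Fin n → AlgebraicClosure L)) (s : Ω ≃+* Ω)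
        (σ : Equiv.Perm (Fin n)), (∀ y, τ (i y) = i (s y)) ∧ (∀ k, s (a k) = a (σ k)) ∧
        StabP P σ ∧ ThetaN (LcN J (img (AlgebraicClosure L) ρ H₀) U V) θ τ.toRingEquiv σ ∧
        ∀ X, (U * LinearMap.toMatrix' X * V).map τ.toRingEquiv = U * LinearMap.toMatrix' (θ X) * V := by
    intro τ
    obtain ⟨s, σ, h1, h2, h3⟩ := hdec τ
    obtain ⟨θ, h4, h5⟩ := exists_theta h (τ := τ.toRingEquiv) (he τ) (e6_fix τ _) (hJ τ)
      (fun x hx => by
        obtain ⟨g, -, rfl⟩ := hx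
        exact e6_fix τ _) (σ := σ) (fun k => by
        show τ (i (a k)) = i (a (σ k))
        rw [h1, h2])
    exact ⟨θ, s, σ, h1, h2, h3, h4, h5⟩
  choose θ s σ h1 h2 h3 h4 h5 using hth
  obtain ⟨T, hT⟩ : ∃ T : Set ((Module.End (AlgebraicClosure L) (Fin n → AlgebraicClosure L) ≃+*
      Module.End (AlgebraicClosure L) (Fin n → AlgebraicClosure L)) ×
      (AlgebraicClosure L ≃+* AlgebraicClosure L)),
      T = Set.range fun τ : AlgebraicClosure L ≃ₐ[L] AlgebraicClosure L => (θ τ, τ.toRingEquiv) := ⟨_, rfl⟩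
  obtain ⟨W, hW⟩ : ∃ W : Set (Module.End (AlgebraicClosure L) (Fin n → AlgebraicClosure L) →ₗ[AlgebraicClosure L]
      AlgebraicClosure L), W = Set.range (e6_w U V) := ⟨_, rfl⟩
  have hTS : EN.TS0 (AZ (LcN J (img (AlgebraicClosure L) ρ H₀) U V) P) (AZ (LcN J (img (AlgebraicClosure L) ρ H₀) U V) (1 - P)) T W := by
    refine ⟨?_, ?_, ?_, ?_, ?_, ?_⟩
    · intro x hx
      rw [hT] at hx
      obtain ⟨τ, rfl⟩ := hx
      exact (h4 τ).smul
    · intro x hx X hX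
      rw [hT] at hx
      obtain ⟨τ, rfl⟩ := hx
      exact thetaAZ (h4 τ) h.yo (h3 τ) hX
    · intro x hx X hX
      rw [hT] at hx
      obtain ⟨τ, rfl⟩ := hx
      have hPP : (1 : Module.End ℚ Y) - (1 - P) = P := sub_sub_cancel 1 P
      exact thetaAZ (h4 τ) h.yo ⟨(h3 τ).2, fun k k' => hPP.symm ▸ (h3 τ).1 k k'⟩ hX
    · intro x hx
      rw [hT] at hx
      obtain ⟨τ, rfl⟩ := hx
      exact (h4 τ).det
    · intro x hx w hw X
      rw [hT] at hx
      rw [hW] at hw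
      obtain ⟨τ, rfl⟩ := hx
      obtain ⟨p, rfl⟩ := hw
      rw [e6_w_apply, e6_w_apply, ← h5 τ X]
      rfl
    · intro X hX
      by_contra hcon
      push Not at hcon
      apply hX
      have h6 : U * LinearMap.toMatrix' X * V = U * (0 : Matrix (Fin n) (Fin n) (AlgebraicClosure L)) * V := by
        ext b b'
        rw [Matrix.mul_zero, Matrix.zero_mul, Matrix.zero_apply]
        exact hcon (e6_w U V (b, b')) (by rw [hW]; exact ⟨(b, b'), rfl⟩)
      have h7 := e6_can hVU h6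
      exact LinearMap.toMatrix'.injective (by rw [h7, map_zero])
  obtain ⟨A, hA⟩ : ∃ A : Set (Module.End (AlgebraicClosure L) (Fin n → AlgebraicClosure L)),
      A = Set.range fun g : G => phi (cmp U V ((ρ g).1.map (algebraMap L (AlgebraicClosure L)))) := ⟨_, rfl⟩
  have comm : ∀ g : G, (ρ g).1.map (algebraMap L (AlgebraicClosure L)) * e =
      e * (ρ g).1.map (algebraMap L (AlgebraicClosure L)) := fun g => cmp_comm h (gen g)
  have hAp : ∀ X ∈ A, (∃ u r, EN.PU (AZ (LcN J (img (AlgebraicClosure L) ρ H₀) U V) P)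
      (AZ (LcN J (img (AlgebraicClosure L) ρ H₀) U V) (1 - P)) X u r) ∧ ∀ x ∈ T, x.1 X = X := by
    intro X hX
    rw [hA] at hX
    obtain ⟨g, rfl⟩ := hX
    refine ⟨by
      obtain ⟨u, r, t, h6⟩ := gen_PT h hP hc (gen g)
      exact ⟨u, r, h6.pu⟩, ?_⟩
    intro x hx
    rw [hT] at hx
    obtain ⟨τ, rfl⟩ := hx
    apply LinearMap.toMatrix'.injective
    apply e6_can hVU
    rw [← h5 τ, e6_mat, Pool.Agent.H76U.cmp_apply]
    have h6 : U * (V * (ρ g).1.map (algebraMap L (AlgebraicClosure L)) * U) * V =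
        e * (ρ g).1.map (algebraMap L (AlgebraicClosure L)) * e := by
      rw [h.UV]
      simp only [Matrix.mul_assoc]
    rw [h6]
    have h7 : (e * (ρ g).1.map (algebraMap L (AlgebraicClosure L)) * e).map τ.toRingEquiv =
        e.map τ.toRingEquiv * ((ρ g).1.map (algebraMap L (AlgebraicClosure L))).map τ.toRingEquiv *
          e.map τ.toRingEquiv := by
      rw [← Matrix.map_mul, ← Matrix.map_mul]
    have h8 : e.map τ.toRingEquiv = e := he τ
    rw [h7, h8, e6_fix]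
  -- the element
  have hmul : ∀ g g' : G, phi (cmp U V ((ρ (g * g')).1.map (algebraMap L (AlgebraicClosure L)))) =
      phi (cmp U V ((ρ g).1.map (algebraMap L (AlgebraicClosure L)))) *
        phi (cmp U V ((ρ g').1.map (algebraMap L (AlgebraicClosure L)))) := by
    intro g g'
    have h6 : (ρ (g * g')).1.map (algebraMap L (AlgebraicClosure L)) =
        (ρ g).1.map (algebraMap L (AlgebraicClosure L)) *
          (ρ g').1.map (algebraMap L (AlgebraicClosure L)) := by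
      rw [map_mul, ← Matrix.map_mul]
      rfl
    rw [h6, Pool.Agent.H76U.cmp_mul h.UV hVU (comm g'), map_mul]
  have hgone : phi (cmp U V ((ρ 1).1.map (algebraMap L (AlgebraicClosure L)))) = 1 := by
    have h6 : ((ρ 1).1.map (algebraMap L (AlgebraicClosure L))) = 1 := by
      rw [map_one]
      show (1 : Matrix ι ι L).map (algebraMap L (AlgebraicClosure L)) = 1
      rw [Matrix.map_one _ (map_zero _) (map_one _)]
    rw [h6, Pool.Agent.H76U.cmp_one h.UV hVU, map_one]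
  have hgpow : ∀ (g : G) (k : ℕ), phi (cmp U V ((ρ (g ^ k)).1.map (algebraMap L (AlgebraicClosure L)))) =
      phi (cmp U V ((ρ g).1.map (algebraMap L (AlgebraicClosure L)))) ^ k := by
    intro g k
    induction k with
    | zero => rw [pow_zero, pow_zero, hgone]
    | succ k ih => rw [pow_succ, hmul, ih, pow_succ]
  have hginv : ∀ g : G, phi (cmp U V ((ρ g).1.map (algebraMap L (AlgebraicClosure L)))) *
      phi (cmp U V ((ρ g⁻¹).1.map (algebraMap L (AlgebraicClosure L)))) = 1 := by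
    intro g
    rw [← hmul, mul_inv_cancel, hgone]
  have hclo : ∀ y ∈ Submonoid.closure ((Set.range fun g => ρ (g ^ n)) ∪ {x | ∃ g h : G, x = ρ (g * h * g⁻¹ * h⁻¹)}),
      (∃ g, y = ρ g) ∧
      phi (cmp U V (y.1.map (algebraMap L (AlgebraicClosure L)))) ∈
        Submonoid.closure ({Z | ∃ X ∈ A, Z = X ^ n} ∪
          {Z | ∃ X ∈ A, ∃ Y ∈ A, ∃ X' Y', X * X' = 1 ∧ Y * Y' = 1 ∧ Z = X * Y * X' * Y'}) := by
    intro y hy
    induction hy using Submonoid.closure_induction with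
    | mem y hy =>
      rcases hy with ⟨g, rfl⟩ | ⟨g, g', rfl⟩
      · refine ⟨⟨g ^ n, rfl⟩, Submonoid.subset_closure (Or.inl ⟨_, ?_, hgpow g n⟩)⟩
        rw [hA]
        exact ⟨g, rfl⟩
      · refine ⟨⟨g * g' * g⁻¹ * g'⁻¹, rfl⟩, Submonoid.subset_closure (Or.inr
          ⟨_, ?_, _, ?_, _, _, hginv g, hginv g', ?_⟩)⟩
        · rw [hA]
          exact ⟨g, rfl⟩
        · rw [hA]
          exact ⟨g', rfl⟩
        · rw [hmul, hmul, hmul]
    | one =>
      refine ⟨⟨1, (map_one _).symm⟩, ?_⟩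
      have h6 : ((1 : Matrix.GeneralLinearGroup ι L)).1.map (algebraMap L (AlgebraicClosure L)) = 1 := by
        show (1 : Matrix ι ι L).map (algebraMap L (AlgebraicClosure L)) = 1
        rw [Matrix.map_one _ (map_zero _) (map_one _)]
      rw [h6, Pool.Agent.H76U.cmp_one h.UV hVU, map_one]
      exact Submonoid.one_mem _
    | mul y y' _ _ ih ih' =>
      obtain ⟨⟨g, rfl⟩, h6⟩ := ih
      obtain ⟨⟨g', rfl⟩, h7⟩ := ih'
      refine ⟨⟨g * g', (map_mul _ _ _).symm⟩, ?_⟩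
      rw [← map_mul, hmul]
      exact Submonoid.mul_mem _ h6 h7
  have hX := (hclo _ (pc_mono ρ hsq)).2
  obtain ⟨u, r, c, h6, hdc, hc0, hfix⟩ := EN.powers (AZ_comm h.ts h.yo hP) (AZ_inter h.ts h.yo hP hc) hTS hAp n hX
  have h6 := ptn_of h6
  rw [hdc, H76P.cmp_phi hVU h.ec, H76P.phi_diag] at h6
  obtain ⟨u₀, r₀, hu, hr, hfu, hfr, hprod⟩ := PT_diag h.ts h.yo hP hc h.ec.inj h6
  have hdu : ∏ k, u₀ k = c ^ n := by
    rw [← det_dg, ← hu]
    exact h6.2.2.2.2.1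
  have ha0 : ∀ k, a k ≠ 0 := by
    intro k h0
    apply h.ec.ne k
    rw [h0, map_zero]
  obtain ⟨c', hc', huc, hpu⟩ := Lift.prod_eq ht ha0 hP (i := i) (u := u₀) (r := r₀) ⟨hprod, hfu, hfr⟩
  have hit : ∀ k, i (t k) ≠ 0 := fun k h0 => ht.ne k ((map_eq_zero i).1 h0)
  -- invariance
  have inv1 : ∀ τ : AlgebraicClosure L ≃ₐ[L] AlgebraicClosure L, τ c = c := by
    intro τ
    exact (hfix _ (by rw [hT]; exact ⟨τ, rfl⟩)).2
  have inv2 : ∀ τ : AlgebraicClosure L ≃ₐ[L] AlgebraicClosure L, τ c' = c' := by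
    intro τ
    have h7 := (hfix _ (by rw [hT]; exact ⟨τ, rfl⟩ : (θ τ, τ.toRingEquiv) ∈ T)).1
    have h8 : θ τ u = u := h7
    rw [hu, (h4 τ).diag] at h8
    have h9 := congrFun (H76P.dg_inj h8) (σ τ (Classical.arbitrary (Fin n)))
    simp only [Equiv.symm_apply_apply] at h9
    have h10 : τ (u₀ (Classical.arbitrary (Fin n))) = u₀ (σ τ (Classical.arbitrary (Fin n))) := h9
    rw [huc, huc, map_mul, h1 τ, ht.eqv (s τ) (σ τ) (h2 τ) (h3 τ)] at h10
    exact mul_right_cancel₀ (hit _) h10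
  obtain ⟨y, hy⟩ := fixed_mem inv1
  obtain ⟨y', hy'⟩ := fixed_mem inv2
  refine ⟨y / y', ?_⟩
  rw [hdu, Fintype.card_fin] at hpu
  have h13 : i (∏ k, t k) = c ^ n / c' ^ n := by
    rw [eq_div_iff (pow_ne_zero n hc'), mul_comm]
    exact hpu.symm
  rw [h13, hy, hy', map_div₀, div_pow]

end Pool.Agent.H45U
end

-- from Lib.H45U.W4
section

/-!
# W4: reciprocity
-/

set_option autoImplicit false
set_option linter.unusedSectionVars false
namespace Pool.Agent.H45U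
open Pool.Agent.H76Y Pool.Agent.H76Z
open Pool.Agent.H76P Pool.Agent.H76V Pool.Agent.H76Q
open Module Matrix Polynomial Pool.Agent.H53Toric
open Pool.Agent.H76P
open Pool.Agent.H76T (IsIdeal Fam Lc)
open Pool.Agent.H76U (cmp preL IsSplitting)
open Pool.Agent.H76RM (spanK similD)

variable {ι : Type*} [Fintype ι] [DecidableEq ι] {ψ : Matrix ι ι ℚ}
    {D : Subalgebra ℚ (Matrix ι ι ℚ)} {M : Type*} [Field M] [NumberField M]
    {m : ℕ} {cl : Fin m → Cl} {bar : Fin m → Fin m} {e : Fin m → Matrix ι ι M} {u₀ : Matrix ι ι M} {G : Type*} [Group G]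
    {ρ : ∀ (l : ℕ) [Fact l.Prime], G →* Matrix.GeneralLinearGroup ι ℚ_[l]}
    {p : ℕ} [Fact p.Prime] {σ : G} {q : ℚ} {F : Fin m → M[X]}
    {φ μ ν : Matrix ι ι (AlgebraicClosure ℚ_[p])} {v : AlgebraicClosure ℚ_[p] → ℚ}
    {Δ : Set (AlgebraicClosure ℚ_[p] ≃+* AlgebraicClosure ℚ_[p])}
    {Ω : Type*} [Field Ω] [CharZero Ω] [IsAlgClosed Ω] [Algebra.IsAlgebraic ℚ Ω] {j : M →+* Ω}
    {R : Finset Ω} {N : Set ℕ} {hd : Fin m → Ω → ℕ} {ub : Fin m → Prop}
    (C : Core5 ψ D cl bar e u₀ ρ p σ q F φ μ ν v Δ j R N hd ub)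

include C

theorem Core5.recl (b : Fin m)
    {n : ℕ} {a : Fin n → Ω} (ha : Function.Injective a)
    (hroot : ∀ y : Ω, (F b).eval₂ j y = 0 ↔ ∃ k, y = a k)
    {P : Module.End ℚ (YS a)} (hP : Sp P) (hg : GoodU (cl b) P) {t : Fin n → Ω} (ht : Lift P a t) :
    ∃ (x : Ω → ℕ) (c : Ω), c ≠ 0 ∧ (∀ s ∈ GamP j R a P, s ∈ fixMu n Ω → s c = c) ∧
      ∏ k, t k = (∏ r ∈ R, r ^ x r) * c ^ n := by
  classical
  let i₀ : Ω →+* AlgebraicClosure ℚ_[p] := (IsAlgClosed.lift : Ω →ₐ[ℚ] AlgebraicClosure ℚ_[p]).toRingHom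
  obtain ⟨H₁, U₁, V₁, -, hL₁, -⟩ := C.locp b ha hroot i₀
  have : Nonempty (Fin n) := ⟨⟨0, hL₁.pos⟩⟩
  have hn := C.card b ha hroot
  obtain ⟨Γ₀, hΓ₀⟩ := exists_gam (a := a) (P := P) j R
  obtain ⟨T₀, hT₀⟩ := gam_open (a := a) (P := P) j R
  have hA := C.arith b
  rw [← hn] at hA
  have hmem : ∀ s, s ∈ Γ₀ ⊓ fixMu n Ω ↔ s ∈ GamP j R a P ∧ s ∈ fixMu n Ω := by
    intro s
    rw [Subgroup.mem_inf, hΓ₀]
  obtain ⟨x, c, hc0, hc, hprod⟩ := hA.cheb (Γ₀ ⊓ fixMu n Ω)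
    ⟨T₀ ∪ (Polynomial.nthRoots n (1 : Ω)).toFinset, fun s hs => (hmem s).2 ⟨hT₀ s fun y hy =>
      hs y (Finset.mem_union_left _ hy), fun z hz => hs z (Finset.mem_union_right _ (by
        rw [Multiset.mem_toFinset, Polynomial.mem_nthRoots hL₁.pos]
        exact hz))⟩⟩
    (fun s hs => ((hmem s).1 hs).2) (fun s hs r hr => ((hmem s).1 hs).1.2.1 r hr) (∏ k, t k) (lift_prod_ne ht)
    (by
      intro s hs
      obtain ⟨⟨-, -, σ', h1, h2⟩, -⟩ := (hmem s).1 hs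
      exact lift_prod ht s σ' h1 h2)
    (by
      intro l _ hl i hdec hsq
      have hlp : l ≠ p := by
        intro h
        apply hl
        rw [h]
        exact C.hN
      obtain ⟨H₀, U, V, hfin, hL, hcls⟩ := C.locl b ha hroot l hlp i
      have hres : ∀ τ : AlgebraicClosure ℚ_[l] ≃ₐ[ℚ_[l]] AlgebraicClosure ℚ_[l], ∃ s : Ω ≃+* Ω,
          (∀ y, τ (i y) = i (s y)) ∧ s ∈ GamP j R a P := by
        intro τ
        obtain ⟨s, hs⟩ := exists_res i τ.toRingEquiv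
        exact ⟨s, hs, ((hmem s).1 (hdec τ s hs)).1⟩
      refine power_at (ρ l) hL (C.gen l) (hA.recl l hl i hsq) hP (hg _ _ hL.ts hcls hL.yo) ?_ ?_ ?_ ht
      · intro τ
        ext x y
        simp
      · intro τ
        obtain ⟨s, hs, hsΓ⟩ := hres τ
        ext x y
        show τ (i (j (e b x y))) = i (j (e b x y))
        rw [hs, hsΓ.1]
      · intro τ
        obtain ⟨s, hs, hsΓ⟩ := hres τ
        obtain ⟨-, -, σ', h1, h2⟩ := hsΓ
        exact ⟨s, σ', hs, h1, h2⟩)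
  exact ⟨x, c, hc0, fun s hs hs' => hc s ((hmem s).2 ⟨hs, hs'⟩), hprod⟩

end Pool.Agent.H45U
end
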