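import Pool.Agent.Lib.H1M.RC.M037
import Pool.Agent.Lib.H1M.RC.M048
import Pool.Agent.Lib.H1M.RC.M049
import Pool.Agent.Lib.H1M.RC.M051
import Pool.Agent.Lib.H1M.RC.M053
import Pool.Agent.Lib.H1M.RC.M055
import Pool.Agent.Lib.H1M.RC.M056
import Pool.Agent.Lib.H1M.RC.M057
import Pool.Agent.Lib.H1M.RC.M058
import Pool.Agent.Lib.H1M.RC.M059
import Pool.Agent.Lib.H1M.RC.M060
import Pool.Agent.Lib.H1M.RC.M064
import Pool.Agent.Lib.H1M.RC.M065
import Pool.Agent.Lib.H1M.RC.M066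
import Pool.Agent.Lib.H1M.RC.M068
import Pool.Agent.Lib.H1M.RC.M069
import Pool.Agent.Lib.H1M.RC.M071
import Pool.Agent.Lib.H1M.RC.M072

/-! Merged copies (to shorten the build) of Lib.H45U.W13b, Lib.H45U.W14, Lib.H45U.W7, Lib.H45U.W5, Lib.H45U.W6, Lib.H45U.W8, Lib.H45U.W8d, Lib.H45U.W9, Lib.H45U.WFix, Lib.H45U.W11a. -/

-- from Lib.H45U.W13b
section

/-!
# no block is exchanged with its complement
-/

set_option autoImplicit false
set_option linter.unusedSectionVars false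
namespace Pool.Agent.H45U
open Pool.Agent.H76Y Pool.Agent.H76Z
open Pool.Agent.H76P Pool.Agent.H76V Pool.Agent.H76Q
open Module Matrix Polynomial Pool.Agent.H53Toric
open Pool.Agent.H76P
open Pool.Agent.H76T (IsIdeal Fam Lc)
open Pool.Agent.H76U (cmp preL IsSplitting)
open Pool.Agent.H76RM (spanK similD)

variable {ι : Type*} [Fintype ι] [DecidableEq ι] {ψ : Matrix ι ι ℚ}
    {D : Subalgebra ℚ (Matrix ι ι ℚ)} {M : Type*} [Field M] [NumberField M]
    {m : ℕ} {cl : Fin m → Cl} {bar : Fin m → Fin m} {e : Fin m → Matrix ι ι M} {u₀ : Matrix ι ι M} {G : Type*} [Group G]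
    {ρ : ∀ (l : ℕ) [Fact l.Prime], G →* Matrix.GeneralLinearGroup ι ℚ_[l]}
    {p : ℕ} [Fact p.Prime] {σ : G} {q : ℚ} {F : Fin m → M[X]}
    {φ μ ν : Matrix ι ι (AlgebraicClosure ℚ_[p])} {v : AlgebraicClosure ℚ_[p] → ℚ}
    {Δ : Set (AlgebraicClosure ℚ_[p] ≃+* AlgebraicClosure ℚ_[p])}
    {Ω : Type*} [Field Ω] [CharZero Ω] [IsAlgClosed Ω] [Algebra.IsAlgebraic ℚ Ω] {j : M →+* Ω}
    {R : Finset Ω} {N : Set ℕ} {hd : Fin m → Ω → ℕ} {ub : Fin m → Prop}
    (C : Core5 ψ D cl bar e u₀ ρ p σ q F φ μ ν v Δ j R N hd ub)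

include C

theorem Core5.no_half (b : Fin m) (hb : cl b = .s) {n : ℕ} {a : Fin n → Ω} (ha : Function.Injective a)
    (hroot : ∀ y : Ω, (F b).eval₂ j y = 0 ↔ ∃ k, y = a k) {z : Module.End ℚ (YS a)}
    (hz : Sp z) (hG : ∀ (K : Type) [Field K] [CharZero K] [IsAlgClosed K]
      (L : Submodule K (Module.End K (Fin n → K))) (J : Matrix (Fin n) (Fin n) K),
      H76Q.TS L J → H76P.Yo L = YS a → Comp L z) {s : Ω ≃+* Ω}
    (hpr : Pr D ((e b).map j) ((e b).map (s.toRingHom.comp j)))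
    {π : Equiv.Perm (Fin n)} (hπ : ∀ k, s (a k) = a (π k)) (hmv : MvP π z (1 - z))
    (l : ℕ) [Fact l.Prime] (hl : l ≠ p) (i : Ω →+* AlgebraicClosure ℚ_[l])
    (t : AlgebraicClosure ℚ_[l] ≃ₐ[ℚ_[l]] AlgebraicClosure ℚ_[l])
    (ht1 : ∀ k, t (i (a k)) = i (s (a k))) (ht2 : ∀ c : M, t (i (j c)) = i (s (j c))) : False := by
  classical
  obtain ⟨H₀, U, V, hfin, hloc, hcls⟩ := C.locl b ha hroot l hl i
  have hne : Nonempty (Fin n) := ⟨⟨0, hloc.pos⟩⟩
  obtain ⟨J₀, hTS⟩ := ts_of_sy ((tm_iff (Or.inl (hcls.1 hb))).1 hloc.ts) (hcls.1 hb)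
  obtain ⟨a₁, ha₁, a', ha', h1, h2, h3, h4, h5, h6⟩ := hpr.map i
  have e1 : ((e b).map j).map i = (e b).map (i.comp j) := by
    ext x y
    rfl
  have e2 : ((e b).map (s.toRingHom.comp j)).map i = (e b).map (i.comp (s.toRingHom.comp j)) := by
    ext x y
    rfl
  have e3 : (e b).map (i.comp (s.toRingHom.comp j)) = ((e b).map (i.comp j)).map t.toRingEquiv := by
    ext x y
    exact (ht2 _).symm
  rw [e1] at h2 h3 h6
  rw [e2] at h1 h4 h5
  rw [e3] at h1 h4 h5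
  have hlinS : ∀ y ∈ spanK (AlgebraicClosure ℚ_[l]) D, ∀ g : G,
      (ρ l g).1.map (algebraMap ℚ_[l] (AlgebraicClosure ℚ_[l])) * y =
        y * (ρ l g).1.map (algebraMap ℚ_[l] (AlgebraicClosure ℚ_[l])) := by
    intro y hy g
    refine Submodule.span_induction (p := fun y _ => (ρ l g).1.map (algebraMap ℚ_[l] (AlgebraicClosure ℚ_[l])) * y =
        y * (ρ l g).1.map (algebraMap ℚ_[l] (AlgebraicClosure ℚ_[l]))) ?_ ?_ ?_ ?_ hy
    · rintro _ ⟨d, hd, rfl⟩
      have h7 := congrArg (fun m : Matrix ι ι ℚ_[l] => m.map (algebraMap ℚ_[l] (AlgebraicClosure ℚ_[l]))) (C.lin l g d hd)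
      have h8 : (d.map (algebraMap ℚ ℚ_[l])).map (algebraMap ℚ_[l] (AlgebraicClosure ℚ_[l])) =
          d.map (algebraMap ℚ (AlgebraicClosure ℚ_[l])) := by
        ext i j
        simp
      simp only [Matrix.map_mul] at h7
      rw [h8] at h7
      exact h7
    · rw [Matrix.mul_zero, Matrix.zero_mul]
    · intro y y' _ _ h7 h8
      rw [Matrix.mul_add, Matrix.add_mul, h7, h8]
    · intro c y _ h7
      rw [Matrix.mul_smul, Matrix.smul_mul, h7]
  have hzl : ∀ y ∈ spanK (AlgebraicClosure ℚ_[l]) D, ∀ A ∈ zlie (img (AlgebraicClosure ℚ_[l]) (ρ l) H₀), y * A = A * y := by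
    intro y hy A hA
    refine (H76RM.zlie_commute (img_one (ρ l) H₀) ?_ hA).symm
    rintro _ ⟨g, -, rfl⟩
    exact hlinS y hy g
  obtain ⟨θ, hθ, -⟩ := H86L.exists_theta2N (J := ψ.map (algebraMap ℚ (AlgebraicClosure ℚ_[l])))
    (S := img (AlgebraicClosure ℚ_[l]) (ρ l) H₀) hloc.UV hloc.VU hloc.ec hloc.ex (τ := t.toRingEquiv)
    h1 h2 h3 h4 h5 (hlinS a' ha' σ) (hzl a₁ ha₁)
    (H76Q.e6_fix t _) (by
      ext x y
      show t (algebraMap ℚ (AlgebraicClosure ℚ_[l]) (ψ x y)) = algebraMap ℚ (AlgebraicClosure ℚ_[l]) (ψ x y)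
      rw [IsScalarTower.algebraMap_apply ℚ ℚ_[l] (AlgebraicClosure ℚ_[l]), t.commutes]) (fun x hx => by
      obtain ⟨g, -, rfl⟩ := hx
      exact H76Q.e6_fix t _) (σ := π) (fun k => by
      show t (i (a k)) = i (a (π k))
      rw [ht1, hπ])
  have hyo : H76P.Yo (LcN (ψ.map (algebraMap ℚ (AlgebraicClosure ℚ_[l])))
      (img (AlgebraicClosure ℚ_[l]) (ρ l) H₀) U V) = YS a :=
    (Yo_eq (Or.inl (hcls.1 hb))).symm.trans hloc.yo
  exact H76Q.no_swap hTS hyo hz (hG _ _ _ hTS hyo) (theta_adj hTS hθ) hmv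

end Pool.Agent.H45U
end

-- from Lib.H45U.W14
section

/-!
# an odd cycle on the blocks
-/

set_option autoImplicit false
set_option linter.unusedSectionVars false
namespace Pool.Agent.H45U
open Pool.Agent.H76Y Pool.Agent.H76Z
open Pool.Agent.H76P Pool.Agent.H76V Pool.Agent.H76Q
open Module Matrix Polynomial TensorProduct Pool.Agent.H53Toric
open Pool.Agent.H76P
open Pool.Agent.H76T (IsIdeal Fam Lc)
open Pool.Agent.H76U (cmp preL IsSplitting)
open Pool.Agent.H76RM (spanK similD)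

variable {ι : Type*} [Fintype ι] [DecidableEq ι] {ψ : Matrix ι ι ℚ}
    {D : Subalgebra ℚ (Matrix ι ι ℚ)} {M : Type*} [Field M] [NumberField M]
    {m : ℕ} {cl : Fin m → Cl} {bar : Fin m → Fin m} {e : Fin m → Matrix ι ι M} {u₀ : Matrix ι ι M} {G : Type*} [Group G]
    {ρ : ∀ (l : ℕ) [Fact l.Prime], G →* Matrix.GeneralLinearGroup ι ℚ_[l]}
    {p : ℕ} [Fact p.Prime] {σ : G} {q : ℚ} {F : Fin m → M[X]}
    {φ μ ν : Matrix ι ι (AlgebraicClosure ℚ_[p])} {v : AlgebraicClosure ℚ_[p] → ℚ}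
    {Δ : Set (AlgebraicClosure ℚ_[p] ≃+* AlgebraicClosure ℚ_[p])}
    {Ω : Type*} [Field Ω] [CharZero Ω] [IsAlgClosed Ω] [Algebra.IsAlgebraic ℚ Ω] {j : M →+* Ω}
    {R : Finset Ω} {N : Set ℕ} {hd : Fin m → Ω → ℕ} {ub : Fin m → Prop}
    (C : Core5 ψ D cl bar e u₀ ρ p σ q F φ μ ν v Δ j R N hd ub)

omit C in
/-- A block which is compatible with all Lie algebras of the class of alternating forms is good in the
first sense. -/
theorem GoodU.old {t : Cl} (ht : t = .s) {n : ℕ} {Y : Submodule ℚ (Fin n → ℚ)} {P : Module.End ℚ Y}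
    (h : GoodU t P) : Good P := by
  intro K _ _ _ L J hT hY
  have hsy : SyL L := ⟨J, hT.cmp.Jt, hT.cmp.Jd, hT.cmp.skew⟩
  have hT' : H76Y.TM L :=
    ⟨⟨hT.cmp.lie, hT.cmp.irr, fun X hX => hT.cmp.tr X hX, hT.cmp.gen⟩, hT.diag, hT.sep⟩
  refine h K L ((tm_iff (Or.inl hsy)).2 hT') ⟨fun _ => hsy, fun hn => ?_, fun hn => ?_⟩
    ((Yo_eq (Or.inl hsy)).trans hY)
  · rw [ht] at hn
    cases hn
  · rw [ht] at hn
    cases hn

include C


/-- PROOF. Suppose not.  `T₀` = the `a k` and the images under `j` of a basis of `M` over `ℚ`; `C.dec s T₀` gives an odd `u`, `l ∉ N` (so `l ≠ p`, `C.hN`), `i`, `t` with `t (i x) = i ((s ^ u) x)` on `T₀`, so for all `x = j c` (both sides are `ℚ`-linear in `c`).  `g` is injective on `FF`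
(`g10_ext`), so it induces a permutation `g'` of the finite type `{P // P ∈ FF}`, and `(g' ^ u) ^ n`, `n` odd, has no fixed points.  `exists_half (g' ^ u)` gives `T`; `half_sum` for `π ^ u` and `g^[u]` (`MvP (π ^ u) P (g^[u] P)` by induction) gives `T' ⊆ FF` with `MvP (π ^ u) z (1 - z)`,
`z` the sum over `T'`.  `sp_sum`, `comp_sum` (with `hFF.2.2`), `pr_pow` (`C.hspl`), `(s ^ u) (a k) = a ((π ^ u) k)`, `C.no_half`. -/
theorem Core5.odd (b : Fin m) (hb : cl b = .s) {n : ℕ} {a : Fin n → Ω} (ha : Function.Injective a)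
    (hroot : ∀ y : Ω, (F b).eval₂ j y = 0 ↔ ∃ k, y = a k) (hn : 0 < n)
    {FF : Finset (Module.End ℚ (YS a))} (hFF : ∀ P ∈ FF, Sp P ∧ P ≠ 0 ∧ GoodU (cl b) P)
    (horth : ∀ P ∈ FF, ∀ P' ∈ FF, P ≠ P' → P * P' = 0) (hsum : ∑ P ∈ FF, P = 1)
    {s : Ω ≃+* Ω} (hlink : Linked D ((e b).map j) ((e b).map (s.toRingHom.comp j)))
    {π : Equiv.Perm (Fin n)} (hπ : ∀ k, s (a k) = a (π k))
    (g : Module.End ℚ (YS a) → Module.End ℚ (YS a)) (hg : ∀ P ∈ FF, g P ∈ FF ∧ MvP π P (g P)) :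
    ∃ u : ℕ, Odd u ∧ ∃ P ∈ FF, g^[u] P = P := by
  classical
  by_contra hcon
  push Not at hcon
  have : Nonempty (Fin n) := ⟨⟨0, hn⟩⟩
  have h0 : ∀ f ∈ YS a, ∑ k, f k = 0 := fun f hf => hf.1
  have hSp : ∀ P ∈ FF, Sp P := fun P hP => (hFF P hP).1
  obtain ⟨T₀, hT₀⟩ : ∃ T₀ : Finset Ω, T₀ = Finset.univ.image a ∪ Finset.univ.image (fun i => j (Module.finBasis ℚ M i)) := ⟨_, rfl⟩
  obtain ⟨u, hu, l, hl, hlN, i, t, hit⟩ : ∃ u : ℕ, Odd u ∧ ∃ (l : ℕ) (_ : Fact l.Prime), l ∉ N ∧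
      ∃ (i : Ω →+* AlgebraicClosure ℚ_[l])
        (t : AlgebraicClosure ℚ_[l] ≃ₐ[ℚ_[l]] AlgebraicClosure ℚ_[l]),
        ∀ x ∈ T₀, t (i x) = i ((s ^ u) x) := by
    obtain ⟨l, hl, h1, i, t, h2⟩ := C.dec s T₀
    exact ⟨1, odd_one, l, hl, h1, i, t, fun x hx => by rw [pow_one]; exact h2 x hx⟩
  have hlp : l ≠ p := fun h => hlN (h ▸ C.hN)
  have ht1 : ∀ k, t (i (a k)) = i ((s ^ u) (a k)) := fun k => hit (a k) (by
    rw [hT₀, Finset.mem_union]
    exact Or.inl (Finset.mem_image_of_mem a (Finset.mem_univ k)))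
  have ht2 : ∀ c : M, t (i (j c)) = i ((s ^ u) (j c)) := by
    intro c
    obtain ⟨f1, hf1⟩ : ∃ f1 : M →+* AlgebraicClosure ℚ_[l], ∀ x, f1 x = t (i (j x)) :=
      ⟨(t.toRingEquiv.toRingHom.comp i).comp j, fun _ => rfl⟩
    obtain ⟨f2, hf2⟩ : ∃ f2 : M →+* AlgebraicClosure ℚ_[l], ∀ x, f2 x = i ((s ^ u) (j x)) :=
      ⟨(i.comp (s ^ u).toRingHom).comp j, fun _ => rfl⟩
    rw [← hf1, ← hf2]
    conv_lhs => rw [← (Module.finBasis ℚ M).sum_repr c]
    conv_rhs => rw [← (Module.finBasis ℚ M).sum_repr c]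
    rw [map_sum, map_sum]
    refine Finset.sum_congr rfl fun x _ => ?_
    rw [map_rat_smul f1, map_rat_smul f2]
    congr 1
    rw [hf1, hf2]
    exact hit _ (by
      rw [hT₀, Finset.mem_union]
      exact Or.inr (Finset.mem_image_of_mem (fun i => j (Module.finBasis ℚ M i)) (Finset.mem_univ x)))
  have hmem : ∀ (k : ℕ), ∀ P ∈ FF, g^[k] P ∈ FF ∧ MvP (π ^ k) P (g^[k] P) := by
    intro k
    induction k with
    | zero =>
      intro P hP
      exact ⟨hP, fun _ _ => Iff.rfl, fun _ _ => Iff.rfl⟩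
    | succ k ih =>
      intro P hP
      obtain ⟨h1, h2⟩ := ih P hP
      obtain ⟨h3, h4⟩ := hg _ h1
      rw [Function.iterate_succ_apply', pow_succ']
      refine ⟨h3, fun x y => ?_, fun x y => ?_⟩
      · rw [h2.1 x y, h4.1 _ _]
        rfl
      · rw [h2.2 x y, h4.2 _ _]
        rfl
  have hinj : ∀ P ∈ FF, ∀ P' ∈ FF, g P = g P' → P = P' := by
    intro P hP P' hP' h
    have h1 := (hg P hP).2
    have h2 := (hg P' hP').2
    rw [← h] at h2
    exact g10_ext h0 (hSp P hP) (hSp P' hP') (fun k k' => (h1.1 k k').trans (h2.1 k k').symm)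
      fun k k' => (h1.2 k k').trans (h2.2 k k').symm
  let G' : {P // P ∈ FF} → {P // P ∈ FF} := fun P => ⟨g P.1, (hg P.1 P.2).1⟩
  have hG'inj : Function.Injective G' := fun P P' h => Subtype.ext (hinj P.1 P.2 P'.1 P'.2 (congrArg Subtype.val h))
  obtain ⟨g', hg'⟩ : ∃ g' : Equiv.Perm {P // P ∈ FF}, ∀ P, (g' P).1 = g P.1 :=
    ⟨Equiv.ofBijective G' (Finite.injective_iff_bijective.1 hG'inj), fun _ => rfl⟩
  have hg'pow : ∀ (k : ℕ) (P : {P // P ∈ FF}), ((g' ^ k) P).1 = g^[k] P.1 := by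
    intro k
    induction k with
    | zero => intro P; rfl
    | succ k ih =>
      intro P
      rw [Function.iterate_succ_apply', pow_succ', Equiv.Perm.mul_apply, hg', ih]
  obtain ⟨T, hT⟩ := exists_half (g' ^ u) fun k hk x hx => by
    rw [← pow_mul] at hx
    have h1 := congrArg Subtype.val hx
    rw [hg'pow] at h1
    exact hcon (u * k) (hu.mul hk) x.1 x.2 h1
  obtain ⟨T', hT', hmv⟩ := half_sum (T := {P | ∃ h : P ∈ FF, (⟨P, h⟩ : {P // P ∈ FF}) ∈ T}) h0 hSp horth hsum (g^[u]) (hmem u) (by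
    intro P hP
    have h1 := hT ⟨P, hP⟩
    have h2 : (g' ^ u) ⟨P, hP⟩ = ⟨g^[u] P, (hmem u P hP).1⟩ := Subtype.ext (hg'pow u ⟨P, hP⟩)
    rw [h2] at h1
    constructor
    · rintro ⟨_, h3⟩ ⟨_, h4⟩
      exact h1.1 h3 h4
    · intro h3
      exact ⟨(hmem u P hP).1, h1.2 fun h4 => h3 ⟨hP, h4⟩⟩)
  have hπ' : ∀ (m : ℕ) (k), (s ^ m) (a k) = a ((π ^ m) k) := by
    intro m
    induction m with
    | zero => intro k; rfl
    | succ m ih =>
      intro k
      rw [pow_succ', pow_succ', Equiv.Perm.mul_apply, ← hπ, ← ih]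
      rfl
  exact C.no_half b hb ha hroot (sp_sum h0 hSp horth hT')
    (fun K _ _ _ L J h1 h2 => comp_sum h0 hSp horth hT' fun P hP => (hFF P hP).2.2.old hb K L J h1 h2)
    (H76Y.pr_pow C.hspl.zero j s b hlink u) (hπ' u) hmv l hlp i t ht1 ht2

end Pool.Agent.H45U
end

-- from Lib.H45U.W7
section

/-!
# the Newton function
-/

set_option autoImplicit false
set_option linter.unusedSectionVars false
namespace Pool.Agent.H45U
open Pool.Agent.H76Y Pool.Agent.H76Z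
open Pool.Agent.H76P Pool.Agent.H76V Pool.Agent.H76Q
open Module Matrix Polynomial Pool.Agent.H53Toric
open Pool.Agent.H76P
open Pool.Agent.H76T (IsIdeal Fam Lc)
open Pool.Agent.H76U (cmp preL IsSplitting)
open Pool.Agent.H76RM (spanK similD)

variable {ι : Type*} [Fintype ι] [DecidableEq ι] {ψ : Matrix ι ι ℚ}
    {D : Subalgebra ℚ (Matrix ι ι ℚ)} {M : Type*} [Field M] [NumberField M]
    {m : ℕ} {cl : Fin m → Cl} {bar : Fin m → Fin m} {e : Fin m → Matrix ι ι M} {u₀ : Matrix ι ι M} {G : Type*} [Group G]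
    {ρ : ∀ (l : ℕ) [Fact l.Prime], G →* Matrix.GeneralLinearGroup ι ℚ_[l]}
    {p : ℕ} [Fact p.Prime] {σ : G} {q : ℚ} {F : Fin m → M[X]}
    {φ μ ν : Matrix ι ι (AlgebraicClosure ℚ_[p])} {v : AlgebraicClosure ℚ_[p] → ℚ}
    {Δ : Set (AlgebraicClosure ℚ_[p] ≃+* AlgebraicClosure ℚ_[p])}
    {Ω : Type*} [Field Ω] [CharZero Ω] [IsAlgClosed Ω] [Algebra.IsAlgebraic ℚ Ω] {j : M →+* Ω}
    {R : Finset Ω} {N : Set ℕ} {hd : Fin m → Ω → ℕ} {ub : Fin m → Prop}
    (C : Core5 ψ D cl bar e u₀ ρ p σ q F φ μ ν v Δ j R N hd ub)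

include C

/-- PROOF. `Core5.locp`.  `dq ε` is in an ideal `I` of `L = LcN J S U V` with `InP P I` or `InP (1 - P) I` (`inv_AZ`, `HT_spec`); the first is impossible (`ε` would be constant, `FunP_both`).  As in `H76P.vid_mem` (G8): the space
`{A | A commutes with e and phi (cmp U V A) ∈ I}` or `{U X V : X ∈ I}` is `adStable`, contains `(2 μ - 1) e`, so (`C.crys.newton`) `(ν - c) e`, so `dq (fun k => v (d k) - c) ∈ I` (`C.crys.nu`); `c` is the average
(trace zero) and rational; so this function is in `Y` (`h.ts.diag`) and depends only on the second coordinate. -/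
theorem Core5.newt (b : Fin m)
    {n : ℕ} {a : Fin n → Ω} (ha : Function.Injective a)
    (hroot : ∀ y : Ω, (F b).eval₂ j y = 0 ↔ ∃ k, y = a k)
    {P : Module.End ℚ (YS a)} (hP : Sp P) (hg : GoodU (cl b) P) (i : Ω →+* AlgebraicClosure ℚ_[p])
    {ε : Fin n → ℚ} (hε : IsHT μ φ ((e b).map (i.comp j)) (fun k => i (a k)) ε)
    (hεP : FunP (1 - P) ε) : FunP (1 - P) (fun k => v (i (a k))) := by
  obtain ⟨H₀, U, V, hfin, h, hcls⟩ := C.locp b ha hroot i
  have hμ := C.crys.mu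
  have hμφ := C.crys.muphi
  obtain ⟨hphi, hε1, c₀, hεY, hεL⟩ := HT_spec h hμ hμφ hε
  obtain ⟨hμμ, hμe, -⟩ := h.par μ hμ
  have : Nonempty (Fin n) := ⟨⟨0, h.pos⟩⟩
  have hc : Comp (LcN (ψ.map (algebraMap ℚ (AlgebraicClosure ℚ_[p])))
      (img (AlgebraicClosure ℚ_[p]) (ρ p) H₀) U V) P := hg _ _ h.ts hcls h.yo
  have hsq := ht_square (K := AlgebraicClosure ℚ_[p]) hε1 c₀
  have hεP' : FunP (1 - P) (fun k => ε k - c₀) := fun k k' hk => by
    show ε k - c₀ = ε k' - c₀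
    rw [hεP k k' hk]
  obtain ⟨I, hI, hεI, hIP'⟩ : ∃ I, IsIdeal (LcN (ψ.map (algebraMap ℚ (AlgebraicClosure ℚ_[p])))
      (img (AlgebraicClosure ℚ_[p]) (ρ p) H₀) U V) I ∧
      (dq (fun k => ε k - c₀) : Module.End (AlgebraicClosure ℚ_[p]) (Fin n → AlgebraicClosure ℚ_[p])) ∈ I ∧
        InP (1 - P) I := by
    by_cases h0 : (dq (fun k => ε k - c₀) :
        Module.End (AlgebraicClosure ℚ_[p]) (Fin n → AlgebraicClosure ℚ_[p])) = 0
    · refine ⟨⊥, ⟨bot_le, fun X _ Y hY => ?_⟩, by rw [h0]; exact Submodule.zero_mem _, ?_⟩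
      · rw [(Submodule.mem_bot (AlgebraicClosure ℚ_[p])).1 hY, mul_zero, zero_mul, sub_zero]
        exact Submodule.zero_mem _
      · intro f _ hf2
        have h1 : f = 0 := H76Y.dq_inj (K := AlgebraicClosure ℚ_[p]) (by
          rw [(Submodule.mem_bot (AlgebraicClosure ℚ_[p])).1 hf2, H25U.t13_zero])
        rw [h1]
        intro k k' _
        rfl
    · obtain ⟨I, hI, hεI, hIP⟩ := inv_AZ h.ts hc hεL hsq
      refine ⟨I, hI, hεI, ?_⟩
      rcases hIP with h1 | h1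
      · exfalso
        apply h0
        have h2 : (fun k => ε k - c₀) = 0 := FunP_both hP hεY.1 (h1 _ hεY hεI) hεP'
        rw [h2, H25U.t13_zero]
      · exact h1
  set E := (e b).map (i.comp j) with hE
  have hEE : E * E = E := by
    rw [h.UV]
    calc U * V * (U * V) = U * (V * U) * V := by simp only [Matrix.mul_assoc]
      _ = U * V := by rw [h.VU, Matrix.mul_one]
  have heU : E * U = U := by rw [h.UV, Matrix.mul_assoc, h.VU, Matrix.mul_one]
  have hcE : cmp U V E = 1 := by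
    rw [H76U.cmp_apply, h.UV]
    calc V * (U * V) * U = (V * U) * (V * U) := by simp only [Matrix.mul_assoc]
      _ = 1 := by rw [h.VU, Matrix.one_mul]
  let I' : Submodule (AlgebraicClosure ℚ_[p]) (Matrix ι ι (AlgebraicClosure ℚ_[p])) :=
    { carrier := {A | A * E = A ∧ E * A = A ∧ ∃ c : AlgebraicClosure ℚ_[p], phi (cmp U V (A - c • E)) ∈ I}
      add_mem' := by
        rintro A A' ⟨h1, h2, c, h3⟩ ⟨h4, h5, c', h6⟩
        refine ⟨by rw [Matrix.add_mul, h1, h4], by rw [Matrix.mul_add, h2, h5], c + c', ?_⟩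
        have h7 : A + A' - (c + c') • E = (A - c • E) + (A' - c' • E) := by module
        rw [h7, map_add, map_add]
        exact I.add_mem h3 h6
      zero_mem' := by
        refine ⟨Matrix.zero_mul _, Matrix.mul_zero _, 0, ?_⟩
        rw [zero_smul, sub_zero, map_zero, map_zero]
        exact I.zero_mem
      smul_mem' := by
        rintro c A ⟨h1, h2, c', h3⟩
        refine ⟨by rw [Matrix.smul_mul, h1], by rw [Matrix.mul_smul, h2], c * c', ?_⟩
        have h7 : c • A - (c * c') • E = c • (A - c' • E) := by module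
        rw [h7, map_smul, map_smul]
        exact I.smul_mem _ h3 }
  have hmem : ∀ A, A ∈ I' ↔ A * E = A ∧ E * A = A ∧
      ∃ c : AlgebraicClosure ℚ_[p], phi (cmp U V (A - c • E)) ∈ I := fun A => Iff.rfl
  have hstab : adStable (zlie (img (AlgebraicClosure ℚ_[p]) (ρ p) H₀)) I' := by
    intro Z hZ A hA
    obtain ⟨h1, h2, c', h3⟩ := (hmem A).1 hA
    obtain ⟨hCe, c, hc⟩ := h.lie Z hZ
    rw [hmem]
    refine ⟨?_, ?_, 0, ?_⟩
    · rw [Matrix.sub_mul, Matrix.mul_assoc, h1, Matrix.mul_assoc, hCe, ← Matrix.mul_assoc, h1]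
    · rw [Matrix.mul_sub, ← Matrix.mul_assoc, ← Matrix.mul_assoc, h2, ← hCe, Matrix.mul_assoc, h2]
    · have hC' : (Z - c • 1) * E = E * (Z - c • 1) := by
        rw [Matrix.sub_mul, Matrix.mul_sub, hCe, Matrix.smul_mul, Matrix.mul_smul, Matrix.one_mul,
          Matrix.mul_one]
      have hA' : (A - c' • E) * E = E * (A - c' • E) := by
        rw [Matrix.sub_mul, Matrix.mul_sub, h1, h2, Matrix.smul_mul, Matrix.mul_smul]
      have e1 : Z * A - A * Z - (0 : AlgebraicClosure ℚ_[p]) • E =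
          (Z - c • 1) * (A - c' • E) - (A - c' • E) * (Z - c • 1) := by
        simp only [zero_smul, sub_zero, Matrix.sub_mul, Matrix.mul_sub, Matrix.smul_mul, Matrix.mul_smul,
          Matrix.one_mul, Matrix.mul_one, hCe]
        module
      rw [e1, map_sub, H76U.cmp_mul h.UV h.VU hA', H76U.cmp_mul h.UV h.VU hC', map_sub, map_mul,
        map_mul]
      exact hI.2 _ hc _ h3
  have hbase : ((2 : AlgebraicClosure ℚ_[p]) • μ - 1) * E ∈ I' := by
    have hye : ((2 : AlgebraicClosure ℚ_[p]) • μ - 1) * E =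
        E * ((2 : AlgebraicClosure ℚ_[p]) • μ - 1) := by
      rw [Matrix.sub_mul, Matrix.mul_sub, Matrix.smul_mul, Matrix.mul_smul, Matrix.one_mul,
        Matrix.mul_one, hμe]
    rw [hmem]
    refine ⟨by rw [Matrix.mul_assoc, hEE], by rw [← Matrix.mul_assoc, ← hye, Matrix.mul_assoc, hEE],
      (c₀ : AlgebraicClosure ℚ_[p]), ?_⟩
    have e2 : cmp U V (((2 : AlgebraicClosure ℚ_[p]) • μ - 1) * E) =
        cmp U V ((2 : AlgebraicClosure ℚ_[p]) • μ - 1) := by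
      rw [H76U.cmp_apply, H76U.cmp_apply]
      rw [← Matrix.mul_assoc V, Matrix.mul_assoc _ E U, heU]
    rw [map_sub, map_smul, hcE, e2, map_sub, map_smul, map_one, hphi, ← dq_sub_const]
    exact hεI
  obtain ⟨c₁, hc₁⟩ := C.crys.newton (i.comp j) b H₀ hfin I' hstab hbase
  obtain ⟨-, -, c₂, hc2⟩ := (hmem _).1 hc₁
  have e6 : (ν - c₁ • 1) * E - c₂ • E = (ν - (c₁ + c₂) • 1) * E := by
    rw [Matrix.sub_mul, Matrix.sub_mul, Matrix.smul_mul, Matrix.smul_mul, Matrix.one_mul]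
    module
  rw [e6] at hc2
  obtain ⟨c, hcdef⟩ : ∃ c, c = c₁ + c₂ := ⟨_, rfl⟩
  rw [← hcdef] at hc2
  have hν : ν * U = U * Matrix.diagonal (fun k => (v (i (a k)) : AlgebraicClosure ℚ_[p])) := by
    ext x k
    have h1 : φ *ᵥ (fun x => U x k) = (i (a k)) • (fun x => U x k) := by
      have h2 := h.ec.eig
      funext y
      have h3 := congrFun (congrFun h2 y) k
      rw [Matrix.mul_diagonal] at h3
      rw [Pi.smul_apply, smul_eq_mul, mul_comm, ← h3]
      rfl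
    have h2 := congrFun (C.crys.nu _ _ h1) x
    rw [Matrix.mul_diagonal, mul_comm]
    exact h2
  have e3 : cmp U V ((ν - c • 1) * E) =
      Matrix.diagonal (fun k => (v (i (a k)) : AlgebraicClosure ℚ_[p]) - c) := by
    rw [H76U.cmp_apply, ← Matrix.mul_assoc V, Matrix.mul_assoc _ E U, heU, Matrix.mul_sub,
      Matrix.sub_mul, Matrix.mul_assoc, hν, ← Matrix.mul_assoc, h.VU, Matrix.one_mul, Matrix.mul_smul,
      Matrix.mul_one, Matrix.smul_mul, h.VU]
    ext i j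
    by_cases hij : i = j
    · subst hij
      simp
    · simp [Matrix.diagonal_apply_ne _ hij, Matrix.one_apply_ne hij]
  rw [e3, phi_diag] at hc2
  have htr := h.ts.cmp.tr _ (hI.1 hc2)
  rw [H76Y.dg_trace, Finset.sum_sub_distrib, Finset.sum_const, Finset.card_univ, Fintype.card_fin,
    nsmul_eq_mul] at htr
  have hn0 : (n : AlgebraicClosure ℚ_[p]) ≠ 0 := by exact_mod_cast h.pos.ne'
  have hcv : c = (∑ k, (v (i (a k)) : AlgebraicClosure ℚ_[p])) / n := by
    rw [eq_div_iff hn0]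
    linear_combination -htr
  have e4 : (dq (fun k => v (i (a k)) - (∑ l, v (i (a l))) / n) :
      Module.End (AlgebraicClosure ℚ_[p]) (Fin n → AlgebraicClosure ℚ_[p])) =
      dg (fun k => (v (i (a k)) : AlgebraicClosure ℚ_[p]) - c) := by
    unfold dq
    congr 1
    funext k
    rw [hcv]
    push_cast
    ring
  rw [← e4] at hc2
  have hY := h.ts.diag _ (hI.1 hc2)
  rw [h.yo] at hY
  have hfun := hIP' _ hY hc2
  intro k k' hk
  have h5 := hfun k k' hk
  exact sub_left_injective h5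

/-- PROOF. Otherwise `FunP (1 - P) ε` for all `i`, `ε` (`HT_or`), so `v (i (a k)) = v (i (a k'))` for all `i` if `cz (1 - P) k k'` (`Core5.newt`), so `k = k'` (`C.gal`).  But `P ≠ 0`, so `cz P k k'` fails for some
`k`, `k'`; `c` with `cz P c k`, `cz (1 - P) c k'` (`Sp.exists_mx`) is `k'`: contradiction.  (`i`, `ε` exist: `Core5.locp`, `exists_HT`.) -/
theorem Core5.onto (b : Fin m)
    {n : ℕ} {a : Fin n → Ω} (ha : Function.Injective a)
    (hroot : ∀ y : Ω, (F b).eval₂ j y = 0 ↔ ∃ k, y = a k)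
    {P : Module.End ℚ (YS a)} (hP : Sp P) (hg : GoodU (cl b) P) (hP0 : P ≠ 0) :
    ∃ (i : Ω →+* AlgebraicClosure ℚ_[p]) (ε : Fin n → ℚ),
      IsHT μ φ ((e b).map (i.comp j)) (fun k => i (a k)) ε ∧ FunP P ε ∧ ∃ k k', ε k ≠ ε k' := by
  by_contra hcon
  push Not at hcon
  have hμ := C.crys.mu
  have hμφ := C.crys.muphi
  have hall : ∀ i : Ω →+* AlgebraicClosure ℚ_[p], FunP (1 - P) (fun k => v (i (a k))) := by
    intro i
    obtain ⟨H₀, U, V, hfin, h, hcls⟩ := C.locp b ha hroot i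
    obtain ⟨ε, hε⟩ := exists_HT h hμ hμφ
    have hc : Comp (LcN (ψ.map (algebraMap ℚ (AlgebraicClosure ℚ_[p])))
      (img (AlgebraicClosure ℚ_[p]) (ρ p) H₀) U V) P := hg _ _ h.ts hcls h.yo
    rcases HT_or h hμ hμφ hε hc with h1 | h1
    · exact C.newt b ha hroot hP hg i hε fun k k' _ => hcon i ε hε h1 k k'
    · exact C.newt b ha hroot hP hg i hε h1
  have hkk : ∀ k k', cz (1 - P) k k' → k = k' := by
    intro k k' hk
    by_contra hne
    obtain ⟨i, hi⟩ := C.gal b (a k) (a k') ((hroot _).2 ⟨k, rfl⟩) ((hroot _).2 ⟨k', rfl⟩)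
      (fun h1 => hne (ha h1))
    exact hi (hall i k k' hk)
  apply hP0
  refine LinearMap.ext fun f => Subtype.ext ?_
  have hconst : ∀ k k', (P f : Fin n → ℚ) k = (P f : Fin n → ℚ) k' := by
    intro k k'
    obtain ⟨c, hc1, hc2⟩ := hP.exists_mx k k'
    have h1 := hkk c k' hc2
    rw [h1] at hc1
    exact (hc1 f).symm
  have hsum := (P f).2.1
  funext k
  have h1 : (n : ℚ) * (P f : Fin n → ℚ) k = 0 := by
    rw [← hsum, Finset.sum_congr rfl fun l _ => hconst l k, Finset.sum_const, Finset.card_univ,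
      nsmul_eq_mul, Fintype.card_fin]
  have hn0 : (n : ℚ) ≠ 0 := by
    have := k.pos
    positivity
  exact (mul_eq_zero.1 h1).resolve_left hn0

end Pool.Agent.H45U
end

-- from Lib.H45U.W5
section

/-!
# W5: inertia
-/

set_option autoImplicit false
set_option linter.unusedSectionVars false
namespace Pool.Agent.H45U
open Pool.Agent.H76Y Pool.Agent.H76Z
open Pool.Agent.H76P Pool.Agent.H76V Pool.Agent.H76Q
open Module Matrix Polynomial Pool.Agent.H53Toric
open Pool.Agent.H76P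
open Pool.Agent.H76T (IsIdeal Fam Lc)
open Pool.Agent.H76U (cmp preL IsSplitting)
open Pool.Agent.H76RM (spanK similD)

variable {ι : Type*} [Fintype ι] [DecidableEq ι] {ψ : Matrix ι ι ℚ}
    {D : Subalgebra ℚ (Matrix ι ι ℚ)} {M : Type*} [Field M] [NumberField M]
    {m : ℕ} {cl : Fin m → Cl} {bar : Fin m → Fin m} {e : Fin m → Matrix ι ι M} {u₀ : Matrix ι ι M} {G : Type*} [Group G]
    {ρ : ∀ (l : ℕ) [Fact l.Prime], G →* Matrix.GeneralLinearGroup ι ℚ_[l]}
    {p : ℕ} [Fact p.Prime] {σ : G} {q : ℚ} {F : Fin m → M[X]}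
    {φ μ ν : Matrix ι ι (AlgebraicClosure ℚ_[p])} {v : AlgebraicClosure ℚ_[p] → ℚ}
    {Δ : Set (AlgebraicClosure ℚ_[p] ≃+* AlgebraicClosure ℚ_[p])}
    {Ω : Type*} [Field Ω] [CharZero Ω] [IsAlgClosed Ω] [Algebra.IsAlgebraic ℚ Ω] {j : M →+* Ω}
    {R : Finset Ω} {N : Set ℕ} {hd : Fin m → Ω → ℕ} {ub : Fin m → Prop}
    (C : Core5 ψ D cl bar e u₀ ρ p σ q F φ μ ν v Δ j R N hd ub)

include C

theorem Core5.inert (b : Fin m)
    {n : ℕ} {a : Fin n → Ω} (ha : Function.Injective a)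
    (hroot : ∀ y : Ω, (F b).eval₂ j y = 0 ↔ ∃ k, y = a k)
    {P : Module.End ℚ (YS a)} (hP : Sp P) (hg : GoodU (cl b) P) (i : Ω →+* AlgebraicClosure ℚ_[p])
    {δ : AlgebraicClosure ℚ_[p] ≃+* AlgebraicClosure ℚ_[p]} (hδ : δ ∈ Δ) :
    ∃ (s : Ω ≃+* Ω) (π : Equiv.Perm (Fin n)), (∀ y, δ (i y) = i (s y)) ∧
      (∀ k, s (a k) = a (π k)) ∧ StabP P π ∧ s ∈ GamP j R a P ∧ s ∈ Pool.Agent.H76Z.fixMu n Ω := by
  obtain ⟨H₀, U, V, hH₀, h, hcls⟩ := C.locp b ha hroot i
  obtain ⟨s, hs⟩ := exists_res i δ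
  have hsj : ∀ c, s (j c) = j c := by
    intro c
    apply i.injective
    rw [← hs]
    exact C.crys.dM δ hδ (i.comp j) c
  have hsR : ∀ r ∈ R, s r = r := by
    intro r hr
    apply i.injective
    rw [← hs]
    exact C.Rfix i r hr δ hδ
  obtain ⟨π, hπ⟩ := exists_perm ha hroot hsj
  have he : ((e b).map (i.comp j)).map δ = (e b).map (i.comp j) := by
    ext k l
    simp only [Matrix.map_apply]
    exact C.crys.dM δ hδ (i.comp j) _
  have hS : ∀ s ∈ img (AlgebraicClosure ℚ_[p]) (ρ p) H₀, s.map δ = s := by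
    rintro _ ⟨g, -, rfl⟩
    ext k l
    simp only [Matrix.map_apply]
    exact C.crys.dfix δ hδ _
  obtain ⟨θ, hθ, hθU⟩ := exists_theta h (τ := δ) he (C.crys.dphi δ hδ) (w5_mapQ δ ψ) hS
    (σ := π) (fun k => by rw [hs, hπ])
  have hI := theta_ideal h he hθ hθU
    (fun I hI1 hI2 X hX Y hY => C.crys.dideal δ hδ H₀ hH₀ I hI1 hI2 X hX Y hY)
  have hcomp : Comp (LcN (ψ.map (algebraMap ℚ (AlgebraicClosure ℚ_[p])))
      (img (AlgebraicClosure ℚ_[p]) (ρ p) H₀) U V) P := hg _ _ h.ts hcls h.yo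
  have hstab := stab_of_theta h hθ hP hcomp hI
  refine ⟨s, π, hs, hπ, hstab, ⟨hsj, hsR, π, hπ, hstab⟩, fun z hz => ?_⟩
  apply i.injective
  rw [← hs]
  refine C.munr b δ hδ (i z) ?_
  rw [← C.card b ha hroot, ← map_pow, hz, map_one]

theorem Core5.int_val (b : Fin m)
    {n : ℕ} {a : Fin n → Ω} (ha : Function.Injective a)
    (hroot : ∀ y : Ω, (F b).eval₂ j y = 0 ↔ ∃ k, y = a k)
    {P : Module.End ℚ (YS a)} (hP : Sp P) (hg : GoodU (cl b) P) (i : Ω →+* AlgebraicClosure ℚ_[p])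
    {c : Ω} (hc0 : c ≠ 0) (hc : ∀ s ∈ GamP j R a P, s ∈ Pool.Agent.H76Z.fixMu n Ω → s c = c) : ∃ n : ℤ, v (i c) = n := by
  refine C.crys.dval (i c) ?_ (fun δ hδ => ?_)
  · rw [Ne, map_eq_zero]
    exact hc0
  · obtain ⟨s, π, hs, _, _, hsG, hsμ⟩ := C.inert b ha hroot hP hg i hδ
    rw [hs, hc s hsG hsμ]

theorem Core5.even (b : Fin m)
    {n : ℕ} {a : Fin n → Ω} (ha : Function.Injective a)
    (hroot : ∀ y : Ω, (F b).eval₂ j y = 0 ↔ ∃ k, y = a k)
    {P : Module.End ℚ (YS a)} (hP : Sp P) (hg : GoodU (cl b) P) {t : Fin n → Ω} (ht : Lift P a t)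
    (i : Ω →+* AlgebraicClosure ℚ_[p])
    {ε : Fin n → ℚ} (hε : IsHT μ φ ((e b).map (i.comp j)) (fun k => i (a k)) ε)
    (hεP : FunP (1 - P) ε) : ∃ N : ℤ, v (i (∏ k, t k)) = n * N := by
  obtain ⟨H₀, U, V, hH₀, h, hcls⟩ := C.locp b ha hroot i
  have hcomp : Comp (LcN (ψ.map (algebraMap ℚ (AlgebraicClosure ℚ_[p])))
      (img (AlgebraicClosure ℚ_[p]) (ρ p) H₀) U V) P := hg _ _ h.ts hcls h.yo
  obtain ⟨ξ, ξ', hξ, hξξ, hunr⟩ := C.crys.unr
  have heK : (e b).map (i.comp j) ∈ spanK (AlgebraicClosure ℚ_[p]) D :=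
    H76U.spanK_map (i.comp j) (C.hspl.mem b)
  have hρe : ∀ g : G, (ρ p g).1.map (algebraMap ℚ_[p] (AlgebraicClosure ℚ_[p])) *
      (e b).map (i.comp j) = (e b).map (i.comp j) *
        (ρ p g).1.map (algebraMap ℚ_[p] (AlgebraicClosure ℚ_[p])) :=
    fun g => H76RM.comm_span (w1_lin C.toCore5a g) _ heK
  have hed : ∀ δ ∈ Δ, ((e b).map (i.comp j)).map δ = (e b).map (i.comp j) := by
    intro δ hδ
    ext k l
    simp only [Matrix.map_apply]
    exact C.crys.dM δ hδ (i.comp j) _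
  have hai : ∀ k, (F b).eval₂ j (a k) = 0 := fun k => (hroot (a k)).mpr ⟨k, rfl⟩
  refine even_lemma (ρ p) (σ₀ := σ) h C.crys.phigen C.crys.val (C.crys.eint (i.comp j) b) C.crys.mu
    C.crys.muphi hε hP hcomp hεP hρe hξ hξξ (hunr H₀ hH₀) C.crys.int C.crys.dfix C.crys.dphi
    (fun δ _ => w5_mapQ δ ψ) hed C.crys.dval ?_ ?_ ht
  · intro δ hδ
    obtain ⟨s, π, hs, hπ, hst, _⟩ := C.inert b ha hroot hP hg i hδ
    exact ⟨s, π, hs, hπ, hst⟩
  · intro k l N' hN' hkl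
    exact ha (C.tor b (hai k) (hai l) hN' hkl)

end Pool.Agent.H45U
end

-- from Lib.H45U.W6
section

/-!
# the Hodge-Tate type at a block
-/

set_option autoImplicit false
set_option linter.unusedSectionVars false
namespace Pool.Agent.H45U
open Pool.Agent.H76Y Pool.Agent.H76Z
open Pool.Agent.H76P Pool.Agent.H76V Pool.Agent.H76Q
open Module Matrix Polynomial Pool.Agent.H53Toric
open Pool.Agent.H76P
open Pool.Agent.H76T (IsIdeal Fam Lc)
open Pool.Agent.H76U (cmp preL IsSplitting)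
open Pool.Agent.H76RM (spanK similD)

variable {ι : Type*} [Fintype ι] [DecidableEq ι] {ψ : Matrix ι ι ℚ}
    {D : Subalgebra ℚ (Matrix ι ι ℚ)} {M : Type*} [Field M] [NumberField M]
    {m : ℕ} {cl : Fin m → Cl} {bar : Fin m → Fin m} {e : Fin m → Matrix ι ι M} {u₀ : Matrix ι ι M} {G : Type*} [Group G]
    {ρ : ∀ (l : ℕ) [Fact l.Prime], G →* Matrix.GeneralLinearGroup ι ℚ_[l]}
    {p : ℕ} [Fact p.Prime] {σ : G} {q : ℚ} {F : Fin m → M[X]}
    {φ μ ν : Matrix ι ι (AlgebraicClosure ℚ_[p])} {v : AlgebraicClosure ℚ_[p] → ℚ}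
    {Δ : Set (AlgebraicClosure ℚ_[p] ≃+* AlgebraicClosure ℚ_[p])}
    {Ω : Type*} [Field Ω] [CharZero Ω] [IsAlgClosed Ω] [Algebra.IsAlgebraic ℚ Ω] {j : M →+* Ω}
    {R : Finset Ω} {N : Set ℕ} {hd : Fin m → Ω → ℕ} {ub : Fin m → Prop}
    (C : Core5 ψ D cl bar e u₀ ρ p σ q F φ μ ν v Δ j R N hd ub)

include C

/-- See `H76Q.Core2.ht_iff`. -/
theorem Core5.ht_iff (b : Fin m)
    {n : ℕ} {a : Fin n → Ω} (ha : Function.Injective a)
    (hroot : ∀ y : Ω, (F b).eval₂ j y = 0 ↔ ∃ k, y = a k)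
    {P : Module.End ℚ (YS a)} (hP : Sp P) (hg : GoodU (cl b) P) :
    ∃ RP ⊆ R, ∀ (i : Ω →+* AlgebraicClosure ℚ_[p]) (ε : Fin n → ℚ),
      IsHT μ φ ((e b).map (i.comp j)) (fun k => i (a k)) ε →
        ((FunP P ε ∧ ∃ k k', ε k ≠ ε k') ↔ ∃ r ∈ RP, v (i r) = 1) := by
  classical
  have hv : IsVal v := C.crys.val
  have i₀ : Ω →+* AlgebraicClosure ℚ_[p] :=
    (IsAlgClosed.lift (R := ℚ) (S := Ω) (M := AlgebraicClosure ℚ_[p])).toRingHom
  obtain ⟨H₀, U₀, V₀, hH₀, hl₀, -⟩ := C.locp b ha hroot i₀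
  have : Nonempty (Fin n) := ⟨⟨0, hl₀.pos⟩⟩
  have hn0 : (n : ℚ) ≠ 0 := Nat.cast_ne_zero.2 hl₀.pos.ne'
  have ha0 : ∀ k, a k ≠ 0 := fun k h0 => hl₀.ec.ne k (by rw [h0, map_zero])
  have hsep : ∀ x y : Fin n, x ≠ y → ∃ f ∈ YS a, f x ≠ f y := by
    intro x y hxy
    obtain ⟨f, hf, hne⟩ := hl₀.ts.sep x y hxy
    exact ⟨f, hl₀.yo ▸ hf, hne⟩
  have hg' : GoodU (cl b) (1 - P) := fun K _ _ _ L h1 h2 h3 => (hg K L h1 h2 h3).compl
  obtain ⟨u, r, hld⟩ := C.ld b ha hroot hP hg i₀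
  obtain ⟨u', r', hld'⟩ := C.ld b ha hroot hP.compl hg' i₀
  obtain ⟨t, ht⟩ := exists_lift ha ha0 hP hsep hld
  obtain ⟨t', ht'⟩ := exists_lift ha ha0 hP.compl hsep hld'
  have hm0 : (∏ k, t k) ≠ 0 := lift_prod_ne ht
  have hm10 : (∏ k, t' k) ≠ 0 := lift_prod_ne ht'
  obtain ⟨x, hx0, hxs, hxm⟩ := exists_xN ht ht' ha0 hP hld
  obtain ⟨y, c, hc0, hc, hmc⟩ := C.recl b ha hroot hP hg ht
  have hprod0 : (∏ r ∈ R, r ^ y r) ≠ 0 := by
    intro h0
    apply hm0
    rw [hmc, h0, zero_mul]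
  have hR0 : ∀ r ∈ R, r ^ y r ≠ 0 := Finset.prod_ne_zero_iff.1 hprod0
  refine ⟨R.filter fun r => ¬ n ∣ y r, Finset.filter_subset _ _, fun i ε hε => ?_⟩
  obtain ⟨H₁, U, V, hH₁, hl, hcls⟩ := C.locp b ha hroot i
  have hcomp : Comp (LcN _ _ U V) P := hg _ _ hl.ts hcls hl.yo
  obtain ⟨r₀, hr₀, hr1, hr2⟩ := C.Rval i
  obtain ⟨n₁, hn₁⟩ := C.int_val b ha hroot hP hg i hc0 hc
  have hi : ∀ {z : Ω}, z ≠ 0 → i z ≠ 0 := fun hz => (map_ne_zero i).2 hz
  have hpa0 : (∏ k, a k) ≠ 0 := Finset.prod_ne_zero_iff.2 fun k _ => ha0 k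
  have hva := C.vprod b ha hroot i
  rw [HT_rank hl C.crys.mu C.crys.muphi hε] at hva
  obtain ⟨-, h01, -⟩ := HT_spec hl C.crys.mu C.crys.muphi hε
  have hconst : (∃ k k', ε k ≠ ε k') → ¬ n ∣ (Finset.univ.filter fun k => ε k = 1).card := by
    rintro ⟨k, k', hkk⟩ hdvd
    have h1 : (Finset.univ.filter fun k => ε k = 1).card ≤ n := by
      have h2 := Finset.card_le_univ (Finset.univ.filter fun k : Fin n => ε k = 1)
      rwa [Fintype.card_fin] at h2
    rcases Nat.eq_zero_or_pos (Finset.univ.filter fun k => ε k = 1).card with h2 | h2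
    · rw [Finset.card_eq_zero, Finset.filter_eq_empty_iff] at h2
      apply hkk
      rw [(h01 k).resolve_left (h2 (Finset.mem_univ k)), (h01 k').resolve_left (h2 (Finset.mem_univ k'))]
    · have h3 := le_antisymm h1 (Nat.le_of_dvd h2 hdvd)
      have h4 : (Finset.univ.filter fun k : Fin n => ε k = 1) = Finset.univ := by
        rw [← Finset.card_eq_iff_eq_univ, h3, Fintype.card_fin]
      rw [Finset.filter_eq_self] at h4
      apply hkk
      rw [h4 k (Finset.mem_univ k), h4 k' (Finset.mem_univ k')]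
  -- the value of `i (∏ t)`
  have hvm : v (i (∏ k, t k)) = y r₀ + n * n₁ := by
    rw [hmc, map_mul, map_pow, hv.mul _ _ (hi hprod0) (pow_ne_zero n (hi hc0)), Pool.Agent.H76Z.w6y_vprod hv i R y hR0,
      Pool.Agent.H76Z.w6y_vpow hv (hi hc0), hn₁, Finset.sum_eq_single_of_mem r₀ hr₀, hr1, mul_one]
    intro r hr hne
    rw [hr2 r hr hne, mul_zero]
  have hex : (∃ r ∈ R.filter fun r => ¬ n ∣ y r, v (i r) = 1) ↔ ¬ n ∣ y r₀ := by
    constructor
    · rintro ⟨r, hr, hr'⟩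
      obtain ⟨hrR, hrn⟩ := Finset.mem_filter.1 hr
      have hne : r = r₀ := by
        by_contra hne
        rw [hr2 r hrR hne] at hr'
        exact zero_ne_one hr'
      rw [← hne]
      exact hrn
    · intro h
      exact ⟨r₀, Finset.mem_filter.2 ⟨hr₀, h⟩, hr1⟩
  -- first case
  have hcase1 : FunP (1 - P) ε → n ∣ y r₀ := by
    intro hε1
    obtain ⟨n₂, hn₂⟩ := C.even b ha hroot hP hg ht i hε hε1
    rw [hvm] at hn₂
    have h3 : (y r₀ : ℤ) = n * (n₂ - n₁) := by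
      have h4 : ((y r₀ : ℤ) : ℚ) = ((n * (n₂ - n₁) : ℤ) : ℚ) := by
        push_cast
        linarith
      exact_mod_cast h4
    exact Int.natCast_dvd_natCast.1 ⟨_, h3⟩
  -- second case
  have hcase2 : FunP P ε → (∃ k k', ε k ≠ ε k') → ¬ n ∣ y r₀ := by
    intro hε1 hne hdiv
    apply hconst hne
    have hε2 : FunP (1 - (1 - P)) ε := by
      have h1 : (1 - (1 - P) : Module.End ℚ (YS a)) = P := sub_sub_cancel 1 P
      rw [h1]
      exact hε1
    obtain ⟨n₂, hn₂⟩ := C.even b ha hroot hP.compl hg' ht' i hε hε2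
    have hxG : ∀ s ∈ GamP j R a P, s ∈ Pool.Agent.H76Z.fixMu n Ω → s x = x := by
      rintro s ⟨-, -, π, hπ, hst⟩ -
      exact hxs s π hπ hst
    obtain ⟨n₃, hn₃⟩ := C.int_val b ha hroot hP hg i hx0 hxG
    have h4 : v (i (∏ k, t k)) + v (i (∏ k, t' k)) = n * v (i x) + v (i (∏ k, a k)) := by
      rw [← hv.mul _ _ (hi hm0) (hi hm10), ← map_mul, hxm, Fintype.card_fin, map_mul,
        map_pow, hv.mul _ _ (pow_ne_zero n (hi hx0)) (hi hpa0), Pool.Agent.H76Z.w6y_vpow hv (hi hx0)]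
    obtain ⟨w, hw⟩ := hdiv
    rw [hvm, hn₂, hn₃, hw, hva] at h4
    push_cast at h4
    have h5 : (((Finset.univ.filter fun k => ε k = 1).card : ℤ) : ℚ) = ((n * (w + n₁ + n₂ - n₃) : ℤ) : ℚ) := by
      push_cast
      linarith
    have h6 : ((Finset.univ.filter fun k => ε k = 1).card : ℤ) = n * (w + n₁ + n₂ - n₃) := by
      exact_mod_cast h5
    exact Int.natCast_dvd_natCast.1 ⟨_, h6⟩
  rw [hex]
  constructor
  · rintro ⟨h1, h2⟩
    exact hcase2 h1 h2
  · intro hmem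
    refine ⟨?_, ?_⟩
    · rcases HT_or hl C.crys.mu C.crys.muphi hε hcomp with h | h
      · exact h
      · exact absurd (hcase1 h) hmem
    · by_contra hcon
      push Not at hcon
      exact hmem (hcase1 fun k k' _ => hcon k k')

end Pool.Agent.H45U
end

-- from Lib.H45U.W8
section

/-!
# linked idempotents
-/

set_option autoImplicit false
set_option linter.unusedSectionVars false
namespace Pool.Agent.H45U
open Pool.Agent.H76Y Pool.Agent.H76Z
open Pool.Agent.H76P Pool.Agent.H76V Pool.Agent.H76Q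
open Module Matrix Polynomial Pool.Agent.H53Toric
open Pool.Agent.H76P
open Pool.Agent.H76T (IsIdeal Fam Lc)
open Pool.Agent.H76U (cmp preL IsSplitting)
open Pool.Agent.H76RM (spanK similD)

variable {ι : Type*} [Fintype ι] [DecidableEq ι] {ψ : Matrix ι ι ℚ}
    {D : Subalgebra ℚ (Matrix ι ι ℚ)} {M : Type*} [Field M] [NumberField M]
    {m : ℕ} {cl : Fin m → Cl} {bar : Fin m → Fin m} {e : Fin m → Matrix ι ι M} {u₀ : Matrix ι ι M} {G : Type*} [Group G]
    {ρ : ∀ (l : ℕ) [Fact l.Prime], G →* Matrix.GeneralLinearGroup ι ℚ_[l]}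
    {p : ℕ} [Fact p.Prime] {σ : G} {q : ℚ} {F : Fin m → M[X]}
    {φ μ ν : Matrix ι ι (AlgebraicClosure ℚ_[p])} {v : AlgebraicClosure ℚ_[p] → ℚ}
    {Δ : Set (AlgebraicClosure ℚ_[p] ≃+* AlgebraicClosure ℚ_[p])}
    {Ω : Type*} [Field Ω] [CharZero Ω] [IsAlgClosed Ω] [Algebra.IsAlgebraic ℚ Ω] {j : M →+* Ω}
    {R : Finset Ω} {N : Set ℕ} {hd : Fin m → Ω → ℕ} {ub : Fin m → Prop}
    (C : Core5 ψ D cl bar e u₀ ρ p σ q F φ μ ν v Δ j R N hd ub)

include C

theorem Core5.w8_lin (s : G) : ∀ d ∈ D, (ρ p s).1.map (algebraMap ℚ_[p] (AlgebraicClosure ℚ_[p])) *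
    d.map (algebraMap ℚ (AlgebraicClosure ℚ_[p])) =
      d.map (algebraMap ℚ (AlgebraicClosure ℚ_[p])) *
        (ρ p s).1.map (algebraMap ℚ_[p] (AlgebraicClosure ℚ_[p])) := by
  intro d hd
  have h1 := congrArg (fun m : Matrix ι ι ℚ_[p] =>
    m.map (algebraMap ℚ_[p] (AlgebraicClosure ℚ_[p]))) (C.lin p s d hd)
  have h2 : (d.map (algebraMap ℚ ℚ_[p])).map (algebraMap ℚ_[p] (AlgebraicClosure ℚ_[p])) =
      d.map (algebraMap ℚ (AlgebraicClosure ℚ_[p])) := by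
    ext i j
    simp
  simp only [Matrix.map_mul] at h1
  rw [h2] at h1
  exact h1

theorem Core5.w8_img (H : Subgroup G) {s : Matrix ι ι (AlgebraicClosure ℚ_[p])}
    (hs : s ∈ img (AlgebraicClosure ℚ_[p]) (ρ p) H) {d : Matrix ι ι (AlgebraicClosure ℚ_[p])}
    (hd : d ∈ spanK (AlgebraicClosure ℚ_[p]) D) : s * d = d * s := by
  obtain ⟨g, -, rfl⟩ := hs
  exact H76RM.comm_span (C.w8_lin g) d hd

theorem Core5.w8_phi {d : Matrix ι ι (AlgebraicClosure ℚ_[p])}
    (hd : d ∈ spanK (AlgebraicClosure ℚ_[p]) D) : φ * d = d * φ :=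
  H76RM.zar_commute (fun _ hs => C.w8_img ⊤ hs hd) (C.frobp.idc.2 ⊤ inferInstance)

theorem Core5.w8_mu {d : Matrix ι ι (AlgebraicClosure ℚ_[p])}
    (hd : d ∈ spanK (AlgebraicClosure ℚ_[p]) D) : μ * d = d * μ := by
  have h1 := C.crys.mu.1.2 2 two_ne_zero
  have h2 := H76RM.zar_commute (fun _ hs => C.w8_img ⊤ hs hd) h1
  rw [add_mul, mul_add, one_mul, mul_one, smul_mul_assoc, mul_smul_comm] at h2
  have h3 := add_left_cancel h2
  have h4 : ((2 : AlgebraicClosure ℚ_[p]) - 1) = 1 := by norm_num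
  rwa [h4, one_smul, one_smul] at h3

/-- The operator `E' d` is injective on the range of `e`. -/
theorem Core5.w8_key (b : Fin m) {n : ℕ} {a : Fin n → Ω} (ha : Function.Injective a)
    (hroot : ∀ y : Ω, (F b).eval₂ j y = 0 ↔ ∃ k, y = a k) (i : Ω →+* AlgebraicClosure ℚ_[p])
    {T : Matrix ι ι (AlgebraicClosure ℚ_[p])}
    (hT : ∀ A : Matrix ι ι (AlgebraicClosure ℚ_[p]),
      (∀ d ∈ spanK (AlgebraicClosure ℚ_[p]) D, A * d = d * A) → A * T = T * A)
    (hne : T * (e b).map (i.comp j) ≠ 0) {z : ι → AlgebraicClosure ℚ_[p]}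
    (hz0 : z ≠ 0) (hz : (e b).map (i.comp j) *ᵥ z = z) : T *ᵥ z ≠ 0 := by
  obtain ⟨H₀, U, V, hfin, h, -⟩ := C.locp b ha hroot i
  have hE : (e b).map (i.comp j) ∈ spanK (AlgebraicClosure ℚ_[p]) D :=
    H76U.spanK_map (i.comp j) (C.hspl.mem b)
  have h1S : (1 : Matrix ι ι (AlgebraicClosure ℚ_[p])) ∈
      img (AlgebraicClosure ℚ_[p]) (ρ p) H₀ := by
    refine ⟨1, H₀.one_mem, ?_⟩
    rw [map_one]
    simp
  set W : Submodule (AlgebraicClosure ℚ_[p]) (Fin n → AlgebraicClosure ℚ_[p]) :=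
    LinearMap.ker (Matrix.mulVecLin (T * U)) with hW
  have hmem : ∀ w, w ∈ W ↔ (T * U) *ᵥ w = 0 := fun w => by
    rw [hW, LinearMap.mem_ker, Matrix.mulVecLin_apply]
  have hirr := h.ts.cmp.irr W (by
    intro X hX w hw
    rw [hmem] at hw ⊢
    obtain ⟨_, ⟨A, hA, rfl⟩, hX2⟩ := hX.1
    rw [← hX2]
    have hcomm : ∀ d ∈ spanK (AlgebraicClosure ℚ_[p]) D, A * d = d * A := fun d hd =>
      H76U.preL_commute h1S (fun s hs => C.w8_img H₀ hs hd) hA
    show (T * U) *ᵥ ((cmp U V A) *ᵥ w) = 0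
    rw [Matrix.mulVec_mulVec, Matrix.mul_assoc, H76U.P_cmp h.UV h.VU (hcomm _ hE),
      ← Matrix.mul_assoc, ← hT A hcomm, Matrix.mul_assoc, ← Matrix.mulVec_mulVec, hw,
      Matrix.mulVec_zero])
  rcases hirr with h1 | h1
  · intro h2
    have h3 : V *ᵥ z ∈ W := by
      rw [hmem, Matrix.mulVec_mulVec, Matrix.mul_assoc, ← h.UV, ← Matrix.mulVec_mulVec, hz, h2]
    rw [h1, Submodule.mem_bot] at h3
    apply hz0
    rw [← hz, h.UV, ← Matrix.mulVec_mulVec, h3, Matrix.mulVec_zero]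
  · exfalso
    apply hne
    have h2 : T * U = 0 := by
      ext x y
      have h3 : Pi.single y (1 : AlgebraicClosure ℚ_[p]) ∈ W := by rw [h1]; exact Submodule.mem_top
      rw [hmem, Matrix.mulVec_single_one] at h3
      exact congrFun h3 x
    rw [h.UV, ← Matrix.mul_assoc, h2, Matrix.zero_mul]

/-- Transport of eigenvectors. -/
theorem Core5.w8_vec (b : Fin m) {n : ℕ} {a : Fin n → Ω} (ha : Function.Injective a)
    (hroot : ∀ y : Ω, (F b).eval₂ j y = 0 ↔ ∃ k, y = a k) {s : Ω ≃+* Ω}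
    (hlink : Linked D ((e b).map j) ((e b).map (s.toRingHom.comp j)))
    (i : Ω →+* AlgebraicClosure ℚ_[p]) : ∃ T : Matrix ι ι (AlgebraicClosure ℚ_[p]),
      φ * T = T * φ ∧ μ * T = T * μ ∧
      (∀ z, (e b).map ((i.comp s.symm.toRingHom).comp j) *ᵥ (T *ᵥ z) = T *ᵥ z) ∧
      ∀ z, z ≠ 0 → (e b).map (i.comp j) *ᵥ z = z → T *ᵥ z ≠ 0 := by
  obtain ⟨d, hd, hne⟩ := hlink
  set i' : Ω →+* AlgebraicClosure ℚ_[p] := i.comp s.symm.toRingHom with hi'
  set E' := (e b).map (i'.comp j) with hE'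
  have hE : E' ∈ spanK (AlgebraicClosure ℚ_[p]) D := H76U.spanK_map (i'.comp j) (C.hspl.mem b)
  have hd' : d.map i' ∈ spanK (AlgebraicClosure ℚ_[p]) D := H76U.spanK_map i' hd
  have hEE : E' * E' = E' := by
    rw [hE', ← H76U.map_mul', C.hspl.idem]
  have hT : ∀ A : Matrix ι ι (AlgebraicClosure ℚ_[p]),
      (∀ d ∈ spanK (AlgebraicClosure ℚ_[p]) D, A * d = d * A) →
        A * (E' * d.map i') = E' * d.map i' * A := by
    intro A hA
    rw [← Matrix.mul_assoc, hA _ hE, Matrix.mul_assoc, hA _ hd', Matrix.mul_assoc]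
  refine ⟨E' * d.map i', hT _ fun d hd => C.w8_phi hd, hT _ fun d hd => C.w8_mu hd, ?_, ?_⟩
  · intro z
    rw [Matrix.mulVec_mulVec, ← Matrix.mul_assoc, hEE]
  · intro z hz0 hz
    refine C.w8_key b ha hroot i hT ?_ hz0 hz
    have h1 : E' = ((e b).map j).map i' := by
      ext x y
      rfl
    have h2 : (e b).map (i.comp j) = ((e b).map (s.toRingHom.comp j)).map i' := by
      ext x y
      simp [hi']
    rw [h1, h2, ← H76U.map_mul', ← H76U.map_mul']
    intro h3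
    apply hne
    ext x y
    have h4 := congrFun (congrFun h3 x) y
    rw [Matrix.map_apply, Matrix.zero_apply] at h4
    rw [Matrix.zero_apply]
    exact (map_eq_zero i').1 h4

/-- PROOF. `E = (e b).map (i.comp j)`, `E' = (e b).map ((i.comp s⁻¹).comp j)`.  Apply `i ∘ s⁻¹` to `hlink`: `E' * d * E ≠ 0` for some `d` in the span of `D` over the closure.  The map `z ↦ E' (d z)` from the range of `E`
to the range of `E'` is not zero and commutes with `φ`, `μ` and `zlie S` (they commute with `D`).  Its kernel is stable under `zlie S`, so zero (`Core5.locp` for `i`: `h.ts.cmp.irr`).  So eigenvectors go to eigenvectors.  `hperm`: a root `y` of `F b` gives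
(`C.frobp.eig`) an eigenvalue `i y` of `φ` on the range of `E`, so on the range of `E'`, so `eval₂ (i s⁻¹ j) (i y) = 0`, i.e. `s y` is a root; `s` permutes the finite set of roots.  `IsHT` for `i s⁻¹`: the eigenvalue
`i s⁻¹ (a (π k)) = i (a k)`. -/
theorem Core5.linked (b : Fin m)
    {n : ℕ} {a : Fin n → Ω} (ha : Function.Injective a)
    (hroot : ∀ y : Ω, (F b).eval₂ j y = 0 ↔ ∃ k, y = a k)
    {s : Ω ≃+* Ω} (hlink : Linked D ((e b).map j) ((e b).map (s.toRingHom.comp j))) :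
    ∃ π : Equiv.Perm (Fin n), (∀ k, s (a k) = a (π k)) ∧
      ∀ (i : Ω →+* AlgebraicClosure ℚ_[p]) (ε : Fin n → ℚ),
        IsHT μ φ ((e b).map (i.comp j)) (fun k => i (a k)) ε →
        IsHT μ φ ((e b).map ((i.comp s.symm.toRingHom).comp j))
          (fun k => i.comp s.symm.toRingHom (a k)) (fun k => ε (π.symm k)) := by
  have hmap : ∀ k, ∃ k', s (a k) = a k' := by
    intro k
    let i : Ω →+* AlgebraicClosure ℚ_[p] :=
      (IsAlgClosed.lift (R := ℚ) (S := Ω) (M := AlgebraicClosure ℚ_[p])).toRingHom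
    obtain ⟨T, hTφ, -, hTE, hT0⟩ := C.w8_vec b ha hroot hlink i
    have h1 : (F b).eval₂ (i.comp j) (i (a k)) = 0 := by
      rw [← Polynomial.hom_eval₂, (hroot _).2 ⟨k, rfl⟩, map_zero]
    obtain ⟨z, hz0, hz, hφz⟩ := (C.frobp.eig (i.comp j) b (i (a k))).2 h1
    have h2 : (F b).eval₂ ((i.comp s.symm.toRingHom).comp j) (i (a k)) = 0 := by
      apply (C.frobp.eig ((i.comp s.symm.toRingHom).comp j) b (i (a k))).1
      refine ⟨T *ᵥ z, hT0 z hz0 hz, hTE z, ?_⟩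
      rw [Matrix.mulVec_mulVec, hTφ, ← Matrix.mulVec_mulVec, hφz, Matrix.mulVec_smul]
    have h3 : i (a k) = (i.comp s.symm.toRingHom) (s (a k)) := by simp
    rw [h3, ← Polynomial.hom_eval₂, map_eq_zero] at h2
    exact (hroot _).1 h2
  choose g hg using hmap
  have hginj : Function.Injective g := by
    intro k k' hkk
    apply ha
    apply s.injective
    rw [hg, hg, hkk]
  let π : Equiv.Perm (Fin n) := Equiv.ofBijective g (Finite.injective_iff_bijective.1 hginj)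
  refine ⟨π, hg, ?_⟩
  intro i ε hε k
  obtain ⟨T, hTφ, hTμ, hTE, hT0⟩ := C.w8_vec b ha hroot hlink i
  set k₀ := π.symm k with hk₀
  have hk : π k₀ = k := by rw [hk₀, Equiv.apply_symm_apply]
  have hval : (i.comp s.symm.toRingHom) (a k) = i (a k₀) := by
    have h1 : s (a k₀) = a k := by
      rw [hg k₀, ← hk]
      rfl
    rw [← h1]
    simp
  rcases hε k₀ with ⟨h1, z, hz0, hz, hφz, hμz⟩ | ⟨h1, z, hz0, hz, hφz, hμz⟩
  · left
    refine ⟨h1, T *ᵥ z, hT0 z hz0 hz, hTE z, ?_, ?_⟩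
    · show φ *ᵥ (T *ᵥ z) = ((i.comp s.symm.toRingHom) (a k)) • (T *ᵥ z)
      rw [hval, Matrix.mulVec_mulVec, hTφ, ← Matrix.mulVec_mulVec, hφz, Matrix.mulVec_smul]
    · rw [Matrix.mulVec_mulVec, hTμ, ← Matrix.mulVec_mulVec, hμz]
  · right
    refine ⟨h1, T *ᵥ z, hT0 z hz0 hz, hTE z, ?_, ?_⟩
    · show φ *ᵥ (T *ᵥ z) = ((i.comp s.symm.toRingHom) (a k)) • (T *ᵥ z)
      rw [hval, Matrix.mulVec_mulVec, hTφ, ← Matrix.mulVec_mulVec, hφz, Matrix.mulVec_smul]
    · rw [Matrix.mulVec_mulVec, hTμ, ← Matrix.mulVec_mulVec, hμz, Matrix.mulVec_zero]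

end Pool.Agent.H45U
end

-- from Lib.H45U.W8d
section

/-!
# automorphisms which exchange a component and its conjugate
-/

set_option autoImplicit false
set_option linter.unusedSectionVars false
namespace Pool.Agent.H45U
open Pool.Agent.H76Y Pool.Agent.H76Z
open Pool.Agent.H76P Pool.Agent.H76V Pool.Agent.H76Q
open Module Matrix Polynomial Pool.Agent.H53Toric
open Pool.Agent.H76P
open Pool.Agent.H76T (IsIdeal Fam Lc)
open Pool.Agent.H76U (cmp preL IsSplitting)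
open Pool.Agent.H76RM (spanK similD)

variable {ι : Type*} [Fintype ι] [DecidableEq ι] {ψ : Matrix ι ι ℚ}
    {D : Subalgebra ℚ (Matrix ι ι ℚ)} {M : Type*} [Field M] [NumberField M]
    {m : ℕ} {cl : Fin m → Cl} {bar : Fin m → Fin m} {e : Fin m → Matrix ι ι M} {u₀ : Matrix ι ι M} {G : Type*} [Group G]
    {ρ : ∀ (l : ℕ) [Fact l.Prime], G →* Matrix.GeneralLinearGroup ι ℚ_[l]}
    {p : ℕ} [Fact p.Prime] {σ : G} {q : ℚ} {F : Fin m → M[X]}
    {φ μ ν : Matrix ι ι (AlgebraicClosure ℚ_[p])} {v : AlgebraicClosure ℚ_[p] → ℚ}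
    {Δ : Set (AlgebraicClosure ℚ_[p] ≃+* AlgebraicClosure ℚ_[p])}
    {Ω : Type*} [Field Ω] [CharZero Ω] [IsAlgClosed Ω] [Algebra.IsAlgebraic ℚ Ω] {j : M →+* Ω}
    {R : Finset Ω} {N : Set ℕ} {hd : Fin m → Ω → ℕ} {ub : Fin m → Prop}
    (C : Core5 ψ D cl bar e u₀ ρ p σ q F φ μ ν v Δ j R N hd ub)

include C

theorem Core5.hs_mu (b : Fin m) : μᵀ * ψ.map (algebraMap ℚ (AlgebraicClosure ℚ_[p])) +
    ψ.map (algebraMap ℚ (AlgebraicClosure ℚ_[p])) * μ =
      ψ.map (algebraMap ℚ (AlgebraicClosure ℚ_[p])) := by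
  have hι : Nonempty ι := by
    by_contra hemp
    rw [not_nonempty_iff] at hemp
    apply C.hspl.ne_zero b
    ext i'
    exact (hemp.false i').elim
  obtain ⟨H₀, -, hfin, hprime⟩ := H76RM.exists_prime (K := AlgebraicClosure ℚ_[p]) (ρ p) ⊤ inferInstance
  obtain ⟨φ', g⟩ := mk_phT (K := AlgebraicClosure ℚ_[p]) C.hψ C.hψ0 D (ρ p) (C.lin p) (C.sim p)
    (C.semis p) (C.commt p) (C.gen p) C.frobp hfin hprime
  exact g.sh.hs μ C.crys.mu

omit C in
theorem dot_mul {n : Type*} [Fintype n] {K : Type*} [Field K] (A B C : Matrix n n K)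
    (x y : n → K) : (A *ᵥ x) ⬝ᵥ (B *ᵥ (C *ᵥ y)) = x ⬝ᵥ ((Aᵀ * B * C) *ᵥ y) := by
  rw [Matrix.mulVec_mulVec, ← Matrix.vecMul_transpose, ← Matrix.dotProduct_mulVec,
    Matrix.mulVec_mulVec, Matrix.mul_assoc]

/-- An eigenvector of `φ` in the conjugate component pairs with an eigenvector in the component. -/
theorem Core5.dual_vec (b : Fin m) {n : ℕ} {a : Fin n → Ω} (ha : Function.Injective a)
    (hroot : ∀ y : Ω, (F b).eval₂ j y = 0 ↔ ∃ k, y = a k) (i : Ω →+* AlgebraicClosure ℚ_[p])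
    {z' : ι → AlgebraicClosure ℚ_[p]} (hz0 : z' ≠ 0)
    (hz : (e (bar b)).map (i.comp j) *ᵥ z' = z') {c : AlgebraicClosure ℚ_[p]}
    (hφ : φ *ᵥ z' = c • z') : ∃ k, c * i (a k) = algebraMap ℚ (AlgebraicClosure ℚ_[p]) q ∧
      ∃ w : ι → AlgebraicClosure ℚ_[p], w ≠ 0 ∧ (e b).map (i.comp j) *ᵥ w = w ∧
        φ *ᵥ w = i (a k) • w ∧ (μ *ᵥ z' = z' → μ *ᵥ w = 0) ∧ (μ *ᵥ z' = 0 → μ *ᵥ w = w) := by
  classical
  obtain ⟨H₀, U, V, hfin, h, -⟩ := C.locp b ha hroot i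
  obtain ⟨-, hdet0⟩ := gram_basic C.hψ C.hψ0 (AlgebraicClosure ℚ_[p])
  have hs0 := C.hs_mu b
  have hadj := (C.hspl.map (i.comp j)).adj b
  have hm0 := C.multp
  have huD := (C.hspl.map (i.comp j)).umem
  have hφu := C.w8_phi huD
  have hμu := C.w8_mu huD
  have hdet : IsUnit (ψ.map (algebraMap ℚ (AlgebraicClosure ℚ_[p])) * u₀.map (i.comp j)).det := by
    rw [Matrix.det_mul]
    exact hdet0.mul (C.hspl.map (i.comp j)).unit
  have hs : μᵀ * (ψ.map (algebraMap ℚ (AlgebraicClosure ℚ_[p])) * u₀.map (i.comp j)) +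
      ψ.map (algebraMap ℚ (AlgebraicClosure ℚ_[p])) * u₀.map (i.comp j) * μ =
        ψ.map (algebraMap ℚ (AlgebraicClosure ℚ_[p])) * u₀.map (i.comp j) := by
    rw [Matrix.mul_assoc _ (u₀.map (i.comp j)) μ, ← hμu, ← Matrix.mul_assoc, ← Matrix.mul_assoc,
      ← Matrix.add_mul, hs0]
  have hm : φᵀ * (ψ.map (algebraMap ℚ (AlgebraicClosure ℚ_[p])) * u₀.map (i.comp j)) * φ =
      algebraMap ℚ (AlgebraicClosure ℚ_[p]) q •
        (ψ.map (algebraMap ℚ (AlgebraicClosure ℚ_[p])) * u₀.map (i.comp j)) := by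
    calc φᵀ * (ψ.map (algebraMap ℚ (AlgebraicClosure ℚ_[p])) * u₀.map (i.comp j)) * φ =
        (φᵀ * ψ.map (algebraMap ℚ (AlgebraicClosure ℚ_[p])) * φ) * u₀.map (i.comp j) := by
          rw [Matrix.mul_assoc _ _ φ, Matrix.mul_assoc _ (u₀.map (i.comp j)) φ, ← hφu]
          simp only [Matrix.mul_assoc]
      _ = _ := by rw [hm0, Matrix.smul_mul]
  clear hφu hμu huD
  obtain ⟨J, hJ⟩ : ∃ J, J = ψ.map (algebraMap ℚ (AlgebraicClosure ℚ_[p])) * u₀.map (i.comp j) :=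
    ⟨_, rfl⟩
  rw [← hJ] at hdet hs hadj hm
  set E := (e b).map (i.comp j) with hE
  -- the functional
  have hJz : J *ᵥ z' ≠ 0 := by
    intro h0
    apply hz0
    have h1 : J⁻¹ *ᵥ (J *ᵥ z') = z' := by
      rw [Matrix.mulVec_mulVec, Matrix.nonsing_inv_mul _ hdet, Matrix.one_mulVec]
    rw [← h1, h0, Matrix.mulVec_zero]
  have hfE : ∀ x : ι → AlgebraicClosure ℚ_[p], (E *ᵥ x) ⬝ᵥ (J *ᵥ z') = x ⬝ᵥ (J *ᵥ z') := by
    intro x
    have h1 := dot_mul E J 1 x z'
    rw [Matrix.one_mulVec, Matrix.mul_one, hadj, ← Matrix.mulVec_mulVec, hz] at h1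
    exact h1
  have hfφ : ∀ x : ι → AlgebraicClosure ℚ_[p], c * ((φ *ᵥ x) ⬝ᵥ (J *ᵥ z')) =
      algebraMap ℚ (AlgebraicClosure ℚ_[p]) q * (x ⬝ᵥ (J *ᵥ z')) := by
    intro x
    have h1 := dot_mul φ J φ x z'
    rw [hφ, Matrix.mulVec_smul, dotProduct_smul, hm, Matrix.smul_mulVec, dotProduct_smul] at h1
    exact h1
  -- an eigenvector on which it does not vanish
  have hex : ∃ k, (U *ᵥ (Pi.single k 1)) ⬝ᵥ (J *ᵥ z') ≠ 0 := by
    by_contra hcon
    push Not at hcon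
    apply hJz
    have h1 : ∀ x : ι → AlgebraicClosure ℚ_[p], x ⬝ᵥ (J *ᵥ z') = 0 := by
      intro x
      rw [← hfE, h.UV, ← Matrix.mulVec_mulVec]
      set y := V *ᵥ x
      have h2 : y = ∑ k, y k • (Pi.single k (1 : AlgebraicClosure ℚ_[p])) := by
        ext l
        rw [Finset.sum_apply]
        simp [Pi.single_apply]
      rw [h2, Matrix.mulVec_sum, sum_dotProduct]
      refine Finset.sum_eq_zero fun k _ => ?_
      rw [Matrix.mulVec_smul, smul_dotProduct, hcon k, smul_zero]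
    ext x
    have h2 := h1 (Pi.single x 1)
    rw [single_one_dotProduct] at h2
    exact h2
  obtain ⟨k, hk⟩ := hex
  set u : ι → AlgebraicClosure ℚ_[p] := U *ᵥ (Pi.single k 1) with hu
  have hφu : φ *ᵥ u = i (a k) • u := by
    have h1 : Matrix.diagonal (fun k => i (a k)) *ᵥ Pi.single k (1 : AlgebraicClosure ℚ_[p]) =
        i (a k) • Pi.single k (1 : AlgebraicClosure ℚ_[p]) := by
      ext l
      rw [Matrix.mulVec_diagonal]
      by_cases hkl : l = k
      · subst hkl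
        simp
      · simp [Pi.single_apply, hkl]
    rw [hu, Matrix.mulVec_mulVec, h.ec.eig, ← Matrix.mulVec_mulVec, h1, Matrix.mulVec_smul]
  have hEu : E *ᵥ u = u := by
    rw [hu, Matrix.mulVec_mulVec]
    have h1 : E * U = U := by rw [h.UV, Matrix.mul_assoc, h.VU, Matrix.mul_one]
    rw [h1]
  have hck : c * i (a k) = algebraMap ℚ (AlgebraicClosure ℚ_[p]) q := by
    have h1 := hfφ u
    rw [hφu, smul_dotProduct, smul_eq_mul, ← mul_assoc] at h1
    exact mul_right_cancel₀ hk h1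
  refine ⟨k, hck, ?_⟩
  obtain ⟨ε, hε⟩ := exists_HT h C.crys.mu C.crys.muphi
  have hlin : ∀ w : ι → AlgebraicClosure ℚ_[p], E *ᵥ w = w → φ *ᵥ w = i (a k) • w → w ≠ 0 →
      w ⬝ᵥ (J *ᵥ z') ≠ 0 := by
    intro w hw hφw hw0
    have hu0 : u ≠ 0 := by
      intro h0
      rw [h0, zero_dotProduct] at hk
      exact hk rfl
    obtain ⟨t, ht⟩ := C.frobp.simple (i.comp j) b (i (a k)) u w hEu hw hφu hφw hu0
    rw [ht, smul_dotProduct, smul_eq_mul]
    refine mul_ne_zero ?_ hk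
    rintro rfl
    rw [zero_smul] at ht
    exact hw0 ht
  have hss : ∀ w : ι → AlgebraicClosure ℚ_[p], (μ *ᵥ w) ⬝ᵥ (J *ᵥ z') + w ⬝ᵥ (J *ᵥ (μ *ᵥ z')) =
      w ⬝ᵥ (J *ᵥ z') := by
    intro w
    have h1 := dot_mul μ J 1 w z'
    rw [Matrix.one_mulVec, Matrix.mul_one] at h1
    rw [h1, Matrix.mulVec_mulVec, ← dotProduct_add, ← Matrix.add_mulVec, hs]
  rcases hε k with ⟨-, w, hw0, hEw, hφw, hμw⟩ | ⟨-, w, hw0, hEw, hφw, hμw⟩
  · refine ⟨w, hw0, hEw, hφw, fun h1 => ?_, fun _ => hμw⟩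
    exfalso
    have h2 := hss w
    rw [hμw, h1, add_eq_left] at h2
    exact hlin w hEw hφw hw0 h2
  · refine ⟨w, hw0, hEw, hφw, fun _ => hμw, fun h1 => ?_⟩
    exfalso
    have h2 := hss w
    rw [hμw, h1, Matrix.mulVec_zero, dotProduct_zero, zero_dotProduct, add_zero] at h2
    exact hlin w hEw hφw hw0 h2.symm

theorem Core5.w8d_vec (b : Fin m) {n : ℕ} {a : Fin n → Ω} (ha : Function.Injective a)
    (hroot : ∀ y : Ω, (F b).eval₂ j y = 0 ↔ ∃ k, y = a k) {s : Ω ≃+* Ω}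
    (hlink : Linked D ((e (bar b)).map j) ((e b).map (s.toRingHom.comp j)))
    (i : Ω →+* AlgebraicClosure ℚ_[p]) : ∃ T : Matrix ι ι (AlgebraicClosure ℚ_[p]),
      φ * T = T * φ ∧ μ * T = T * μ ∧
      (∀ z, (e (bar b)).map ((i.comp s.symm.toRingHom).comp j) *ᵥ (T *ᵥ z) = T *ᵥ z) ∧
      ∀ z, z ≠ 0 → (e b).map (i.comp j) *ᵥ z = z → T *ᵥ z ≠ 0 := by
  obtain ⟨d, hd, hne⟩ := hlink
  set i' : Ω →+* AlgebraicClosure ℚ_[p] := i.comp s.symm.toRingHom with hi'
  set E' := (e (bar b)).map (i'.comp j) with hE'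
  have hE : E' ∈ spanK (AlgebraicClosure ℚ_[p]) D := H76U.spanK_map (i'.comp j) (C.hspl.mem (bar b))
  have hd' : d.map i' ∈ spanK (AlgebraicClosure ℚ_[p]) D := H76U.spanK_map i' hd
  have hEE : E' * E' = E' := by
    rw [hE', ← H76U.map_mul', C.hspl.idem]
  have hT : ∀ A : Matrix ι ι (AlgebraicClosure ℚ_[p]),
      (∀ d ∈ spanK (AlgebraicClosure ℚ_[p]) D, A * d = d * A) →
        A * (E' * d.map i') = E' * d.map i' * A := by
    intro A hA
    rw [← Matrix.mul_assoc, hA _ hE, Matrix.mul_assoc, hA _ hd', Matrix.mul_assoc]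
  refine ⟨E' * d.map i', hT _ fun d hd => C.w8_phi hd, hT _ fun d hd => C.w8_mu hd, ?_, ?_⟩
  · intro z
    rw [Matrix.mulVec_mulVec, ← Matrix.mul_assoc, hEE]
  · intro z hz0 hz
    refine C.w8_key b ha hroot i hT ?_ hz0 hz
    have h1 : E' = ((e (bar b)).map j).map i' := by
      ext x y
      rfl
    have h2 : (e b).map (i.comp j) = ((e b).map (s.toRingHom.comp j)).map i' := by
      ext x y
      simp [hi']
    rw [h1, h2, ← H76U.map_mul', ← H76U.map_mul']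
    intro h3
    apply hne
    ext x y
    have h4 := congrFun (congrFun h3 x) y
    rw [Matrix.map_apply, Matrix.zero_apply] at h4
    rw [Matrix.zero_apply]
    exact (map_eq_zero i').1 h4

/-- An automorphism `s` such that the image of the component under `s` is linked with the conjugate of
the component: `s` maps the eigenvalues to the numbers `q / a`, and the Hodge-Tate type to the opposite
type. -/
theorem Core5.dual_linked (b : Fin m)
    {n : ℕ} {a : Fin n → Ω} (ha : Function.Injective a)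
    (hroot : ∀ y : Ω, (F b).eval₂ j y = 0 ↔ ∃ k, y = a k)
    {s : Ω ≃+* Ω} (hlink : Linked D ((e (bar b)).map j) ((e b).map (s.toRingHom.comp j))) :
    ∃ π : Equiv.Perm (Fin n), (∀ k, s (a k) * a (π k) = algebraMap ℚ Ω q) ∧
      ∀ (i : Ω →+* AlgebraicClosure ℚ_[p]) (ε : Fin n → ℚ),
        IsHT μ φ ((e b).map (i.comp j)) (fun k => i (a k)) ε →
        IsHT μ φ ((e b).map ((i.comp s.symm.toRingHom).comp j))
          (fun k => i.comp s.symm.toRingHom (a k)) (fun k => - ε (π.symm k)) := by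
  have hq : ∀ i' : Ω →+* AlgebraicClosure ℚ_[p], algebraMap ℚ (AlgebraicClosure ℚ_[p]) q =
      i' (algebraMap ℚ Ω q) := fun i' => by
    simp
  have hmap : ∀ k, ∃ k', s (a k) * a k' = algebraMap ℚ Ω q := by
    intro k
    let i : Ω →+* AlgebraicClosure ℚ_[p] :=
      (IsAlgClosed.lift (R := ℚ) (S := Ω) (M := AlgebraicClosure ℚ_[p])).toRingHom
    obtain ⟨T, hTφ, -, hTE, hT0⟩ := C.w8d_vec b ha hroot hlink i
    have h1 : (F b).eval₂ (i.comp j) (i (a k)) = 0 := by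
      rw [← Polynomial.hom_eval₂, (hroot _).2 ⟨k, rfl⟩, map_zero]
    obtain ⟨z, hz0, hz, hφz⟩ := (C.frobp.eig (i.comp j) b (i (a k))).2 h1
    obtain ⟨k', hk', -⟩ := C.dual_vec b ha hroot (i.comp s.symm.toRingHom) (hT0 z hz0 hz) (hTE z)
      (c := i (a k)) (by
        rw [Matrix.mulVec_mulVec, hTφ, ← Matrix.mulVec_mulVec, hφz, Matrix.mulVec_smul])
    refine ⟨k', ?_⟩
    have h3 : i (a k) = (i.comp s.symm.toRingHom) (s (a k)) := by simp
    rw [h3, hq (i.comp s.symm.toRingHom), ← map_mul] at hk'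
    exact (i.comp s.symm.toRingHom).injective hk'
  choose g hg using hmap
  have hq0 : algebraMap ℚ Ω q ≠ 0 := by
    intro h0
    have h1 : q = 0 := by
      rw [← map_zero (algebraMap ℚ Ω)] at h0
      exact (algebraMap ℚ Ω).injective h0
    have h2 := C.vq
    exact absurd (C.multp) (by
      rw [h1, map_zero, zero_smul]
      intro h3
      have h4 := congrArg Matrix.det h3
      obtain ⟨-, hdet⟩ := gram_basic C.hψ C.hψ0 (AlgebraicClosure ℚ_[p])
      have hι : Nonempty ι := by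
        by_contra hemp
        rw [not_nonempty_iff] at hemp
        apply C.hspl.ne_zero b
        ext i'
        exact (hemp.false i').elim
      rw [Matrix.det_mul, Matrix.det_mul, Matrix.det_transpose, Matrix.det_zero] at h4
      exact mul_ne_zero (mul_ne_zero C.frobp.idc.1 hdet.ne_zero) C.frobp.idc.1 h4)
  have hginj : Function.Injective g := by
    intro k k' hkk
    apply ha
    apply s.injective
    have h1 := hg k
    have h2 := hg k'
    rw [← hkk, ← h1] at h2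
    have h3 : a (g k) ≠ 0 := by
      intro h0
      rw [h0, mul_zero] at h1
      exact hq0 h1.symm
    exact (mul_right_cancel₀ h3 h2).symm
  let π : Equiv.Perm (Fin n) := Equiv.ofBijective g (Finite.injective_iff_bijective.1 hginj)
  refine ⟨π, hg, ?_⟩
  intro i ε hε k
  obtain ⟨T, hTφ, hTμ, hTE, hT0⟩ := C.w8d_vec b ha hroot hlink i
  set k₀ := π.symm k with hk₀
  have hk : π k₀ = k := by rw [hk₀, Equiv.apply_symm_apply]
  have hak : s (a k₀) * a k = algebraMap ℚ Ω q := by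
    have h1 := hg k₀
    have h2 : g k₀ = k := hk
    rwa [h2] at h1
  have hT2 : ∀ z, z ≠ 0 → (e b).map (i.comp j) *ᵥ z = z → φ *ᵥ z = i (a k₀) • z →
      ∃ w : ι → AlgebraicClosure ℚ_[p], w ≠ 0 ∧
        (e b).map ((i.comp s.symm.toRingHom).comp j) *ᵥ w = w ∧
        φ *ᵥ w = i.comp s.symm.toRingHom (a k) • w ∧
        (μ *ᵥ z = z → μ *ᵥ w = 0) ∧ (μ *ᵥ z = 0 → μ *ᵥ w = w) := by
    intro z hz0 hz hφz
    obtain ⟨k', hk', w, hw0, hEw, hφw, hμ1, hμ2⟩ := C.dual_vec b ha hroot (i.comp s.symm.toRingHom)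
      (hT0 z hz0 hz) (hTE z) (c := i (a k₀)) (by
        rw [Matrix.mulVec_mulVec, hTφ, ← Matrix.mulVec_mulVec, hφz, Matrix.mulVec_smul])
    have hkk : k' = k := by
      have h3 : i (a k₀) = (i.comp s.symm.toRingHom) (s (a k₀)) := by simp
      rw [h3, hq (i.comp s.symm.toRingHom), ← map_mul] at hk'
      have h4 := (i.comp s.symm.toRingHom).injective hk'
      rw [← hak] at h4
      have h5 : s (a k₀) ≠ 0 := by
        intro h0
        rw [h0, zero_mul] at hak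
        exact hq0 hak.symm
      exact ha (mul_left_cancel₀ h5 h4)
    subst hkk
    refine ⟨w, hw0, hEw, hφw, fun h1 => hμ1 ?_, fun h1 => hμ2 ?_⟩
    · rw [Matrix.mulVec_mulVec, hTμ, ← Matrix.mulVec_mulVec, h1]
    · rw [Matrix.mulVec_mulVec, hTμ, ← Matrix.mulVec_mulVec, h1, Matrix.mulVec_zero]
  rcases hε k₀ with ⟨h1, z, hz0, hz, hφz, hμz⟩ | ⟨h1, z, hz0, hz, hφz, hμz⟩
  · obtain ⟨w, hw0, hEw, hφw, hμ1, -⟩ := hT2 z hz0 hz hφz
    right
    refine ⟨?_, w, hw0, hEw, hφw, hμ1 hμz⟩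
    show -ε k₀ = -1
    rw [h1]
  · obtain ⟨w, hw0, hEw, hφw, -, hμ2⟩ := hT2 z hz0 hz hφz
    left
    refine ⟨?_, w, hw0, hEw, hφw, hμ2 hμz⟩
    show -ε k₀ = 1
    rw [h1, neg_neg]

end Pool.Agent.H45U
end

-- from Lib.H45U.W9
section

/-!
# the numbers of blocks
-/

set_option autoImplicit false
set_option linter.unusedSectionVars false
namespace Pool.Agent.H45U
open Pool.Agent.H76Y Pool.Agent.H76Z
open Pool.Agent.H76P Pool.Agent.H76V Pool.Agent.H76Q
open Module Matrix Polynomial Pool.Agent.H53Toric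
open Pool.Agent.H76P
open Pool.Agent.H76T (IsIdeal Fam Lc)
open Pool.Agent.H76U (cmp preL IsSplitting)
open Pool.Agent.H76RM (spanK similD)

variable {ι : Type*} [Fintype ι] [DecidableEq ι] {ψ : Matrix ι ι ℚ}
    {D : Subalgebra ℚ (Matrix ι ι ℚ)} {M : Type*} [Field M] [NumberField M]
    {m : ℕ} {cl : Fin m → Cl} {bar : Fin m → Fin m} {e : Fin m → Matrix ι ι M} {u₀ : Matrix ι ι M} {G : Type*} [Group G]
    {ρ : ∀ (l : ℕ) [Fact l.Prime], G →* Matrix.GeneralLinearGroup ι ℚ_[l]}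
    {p : ℕ} [Fact p.Prime] {σ : G} {q : ℚ} {F : Fin m → M[X]}
    {φ μ ν : Matrix ι ι (AlgebraicClosure ℚ_[p])} {v : AlgebraicClosure ℚ_[p] → ℚ}
    {Δ : Set (AlgebraicClosure ℚ_[p] ≃+* AlgebraicClosure ℚ_[p])}
    {Ω : Type*} [Field Ω] [CharZero Ω] [IsAlgClosed Ω] [Algebra.IsAlgebraic ℚ Ω] {j : M →+* Ω}
    {R : Finset Ω} {N : Set ℕ} {hd : Fin m → Ω → ℕ} {ub : Fin m → Prop}
    (C : Core5 ψ D cl bar e u₀ ρ p σ q F φ μ ν v Δ j R N hd ub)

include C

theorem Core5.w9_i (b : Fin m) {r : Ω} (hr : r ∈ R) :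
    ∃ i : Ω →+* AlgebraicClosure ℚ_[p], v (i r) = 1 := by
  obtain ⟨i₀⟩ := Pool.Agent.H76Z.w9_exists_i p Ω
  obtain ⟨r₀, hr₀, h1, -⟩ := C.Rval i₀
  obtain ⟨s, hs⟩ := C.Rtrans r hr r₀ hr₀
  refine ⟨i₀.comp s.toRingHom, ?_⟩
  show v (i₀ (s r)) = 1
  rw [hs, h1]

theorem Core5.w9_uniq {r r' : Ω} (hr : r ∈ R) (hr' : r' ∈ R)
    (i : Ω →+* AlgebraicClosure ℚ_[p]) (h : v (i r) = 1) (h' : v (i r') = 1) : r = r' := by
  obtain ⟨r₁, -, -, h2⟩ := C.Rval i
  have h3 : ∀ x ∈ R, v (i x) = 1 → x = r₁ := by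
    intro x hx hv
    by_contra hne
    rw [h2 x hx hne] at hv
    exact zero_ne_one hv
  rw [h3 r hr h, h3 r' hr' h']

theorem Core5.w9_HT (b : Fin m) {n : ℕ} {a : Fin n → Ω} (ha : Function.Injective a)
    (hroot : ∀ y : Ω, (F b).eval₂ j y = 0 ↔ ∃ k, y = a k) (i : Ω →+* AlgebraicClosure ℚ_[p]) :
    0 < n ∧ ∃ (ε : Fin n → ℚ) (c : ℚ), IsHT μ φ ((e b).map (i.comp j)) (fun k => i (a k)) ε ∧
      (fun k => ε k - c) ∈ YS a ∧ (∀ k, ε k = 1 ∨ ε k = -1) ∧
      (∀ P : Module.End ℚ (YS a), GoodU (cl b) P → FunP P ε ∨ FunP (1 - P) ε) ∧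
      (μ * (e b).map (i.comp j)).rank = (Finset.univ.filter fun k => ε k = 1).card := by
  obtain ⟨H₀, U, V, -, hloc, hcls⟩ := C.locp b ha hroot i
  obtain ⟨ε, hε⟩ := exists_HT hloc C.crys.mu C.crys.muphi
  obtain ⟨-, h2, c, h3, -⟩ := HT_spec hloc C.crys.mu C.crys.muphi hε
  exact ⟨hloc.pos, ε, c, hε, h3, h2, fun P hP =>
    HT_or hloc C.crys.mu C.crys.muphi hε (hP (AlgebraicClosure ℚ_[p]) _ hloc.ts hcls hloc.yo),
    HT_rank hloc C.crys.mu C.crys.muphi hε⟩

omit C in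
/-- A function with values `1`, `-1` is constant iff the number of values `1` is `0` or all. -/
theorem w9_const {n : ℕ} {ε : Fin n → ℚ} (h1 : ∀ k, ε k = 1 ∨ ε k = -1) :
    (∃ k k', ε k ≠ ε k') ↔ (Finset.univ.filter fun k => ε k = 1).card ≠ 0 ∧
      (Finset.univ.filter fun k => ε k = 1).card ≠ n := by
  classical
  constructor
  · rintro ⟨k, k', hkk⟩
    constructor
    · intro h0
      rw [Finset.card_eq_zero, Finset.filter_eq_empty_iff] at h0
      have h2 : ∀ k, ε k = -1 := fun k => (h1 k).resolve_left (h0 (Finset.mem_univ k))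
      exact hkk (by rw [h2, h2])
    · intro h0
      have h2 : (Finset.univ.filter fun k => ε k = 1).card = (Finset.univ : Finset (Fin n)).card := by
        rw [h0, Finset.card_univ, Fintype.card_fin]
      rw [Finset.card_filter_eq_iff] at h2
      exact hkk (by rw [h2 k (Finset.mem_univ k), h2 k' (Finset.mem_univ k')])
  · rintro ⟨h2, h3⟩
    have h4 : ∃ k, ε k = 1 := by
      by_contra hcon
      push Not at hcon
      apply h2
      rw [Finset.card_eq_zero, Finset.filter_eq_empty_iff]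
      exact fun k _ => hcon k
    have h5 : ∃ k, ε k ≠ 1 := by
      by_contra hcon
      push Not at hcon
      apply h3
      have h6 : (Finset.univ.filter fun k => ε k = 1) = Finset.univ := by
        rw [Finset.filter_eq_self]
        exact fun k _ => hcon k
      rw [h6, Finset.card_univ, Fintype.card_fin]
    obtain ⟨k, hk⟩ := h4
    obtain ⟨k', hk'⟩ := h5
    exact ⟨k, k', fun h6 => hk' (by rw [← h6, hk])⟩

theorem Core5.types5 (b : Fin m)
    {n : ℕ} {a : Fin n → Ω} (ha : Function.Injective a)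
    (hroot : ∀ y : Ω, (F b).eval₂ j y = 0 ↔ ∃ k, y = a k)
    {FF : Finset (Module.End ℚ (YS a))} (hFF : ∀ P ∈ FF, Sp P ∧ P ≠ 0 ∧ GoodU (cl b) P)
    (horth : ∀ P ∈ FF, ∀ P' ∈ FF, P ≠ P' → P * P' = 0) (hsum : ∑ P ∈ FF, P = 1)
    (hperm : ∀ π : Equiv.Perm (Fin n), (∀ g ∈ YS a, g ∘ π ∈ YS a) → ∀ P ∈ FF,
      ∃ P' ∈ FF, MvP π P P') :
    ∃ RP : Module.End ℚ (YS a) → Finset Ω, (∀ P ∈ FF, RP P ⊆ R ∧ (RP P).Nonempty) ∧
      (∀ r ∈ R, (∃ P ∈ FF, r ∈ RP P) ↔ hd b r ≠ 0 ∧ hd b r ≠ (e b).rank) ∧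
      (∀ P ∈ FF, ∀ P' ∈ FF, ∀ r, r ∈ RP P → r ∈ RP P' → P = P') ∧
      (∀ P ∈ FF, ∀ r ∈ RP P, ∀ (i : Ω →+* AlgebraicClosure ℚ_[p]) (ε : Fin n → ℚ), v (i r) = 1 →
        IsHT μ φ ((e b).map (i.comp j)) (fun k => i (a k)) ε → FunP P ε) ∧
      ∀ s : Ω ≃+* Ω, Linked D ((e b).map j) ((e b).map (s.toRingHom.comp j)) ∨
          Linked D ((e (bar b)).map j) ((e b).map (s.toRingHom.comp j)) →
        ∃ π : Equiv.Perm (Fin n), ((∀ k, s (a k) = a (π k)) ∧
            Linked D ((e b).map j) ((e b).map (s.toRingHom.comp j)) ∨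
          bar b ≠ b ∧ (∀ k, s (a k) * a (π k) = algebraMap ℚ Ω q) ∧
            Linked D ((e (bar b)).map j) ((e b).map (s.toRingHom.comp j))) ∧
          (∀ g ∈ YS a, g ∘ π ∈ YS a) ∧
          ∀ P ∈ FF, ∃ P' ∈ FF, MvP π P P' ∧ ∀ r ∈ RP P, s r ∈ RP P' := by
  classical
  have hSum : ∀ g ∈ YS a, ∑ k, g k = 0 := fun g hg => hg.1
  have hcard := C.card b ha hroot
  have h1 : ∀ P : Module.End ℚ (YS a), ∃ RP : Finset Ω, P ∈ FF → (RP ⊆ R ∧
      ∀ (i : Ω →+* AlgebraicClosure ℚ_[p]) (ε : Fin n → ℚ),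
        IsHT μ φ ((e b).map (i.comp j)) (fun k => i (a k)) ε →
          ((FunP P ε ∧ ∃ k k', ε k ≠ ε k') ↔ ∃ r ∈ RP, v (i r) = 1)) := by
    intro P
    by_cases hP : P ∈ FF
    · obtain ⟨RP, h2, h3⟩ := C.ht_iff b ha hroot (hFF P hP).1 (hFF P hP).2.2
      exact ⟨RP, fun _ => ⟨h2, h3⟩⟩
    · exact ⟨∅, fun h => absurd h hP⟩
  choose RP hRP using h1
  have hK : ∀ P ∈ FF, ∀ r ∈ R, ∀ (i : Ω →+* AlgebraicClosure ℚ_[p]) (ε : Fin n → ℚ),
      v (i r) = 1 → IsHT μ φ ((e b).map (i.comp j)) (fun k => i (a k)) ε →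
        ((FunP P ε ∧ ∃ k k', ε k ≠ ε k') ↔ r ∈ RP P) := by
    intro P hP r hr i ε hv hε
    rw [(hRP P hP).2 i ε hε]
    constructor
    · rintro ⟨r', hr', hv'⟩
      rw [C.w9_uniq hr ((hRP P hP).1 hr') i hv hv']
      exact hr'
    · intro h
      exact ⟨r, h, hv⟩
  have hsub : ∀ (P : Module.End ℚ (YS a)) (ε : Fin n → ℚ) (c : ℚ), FunP P ε →
      FunP P (fun k => ε k - c) := by
    intro P ε c h k k' hk
    show ε k - c = ε k' - c
    rw [h k k' hk]
  have hdisj : ∀ P ∈ FF, ∀ P' ∈ FF, ∀ r, r ∈ RP P → r ∈ RP P' → P = P' := by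
    intro P hP P' hP' r hr hr'
    by_contra hne
    have hrR := (hRP P hP).1 hr
    obtain ⟨i, hi⟩ := C.w9_i b hrR
    obtain ⟨hn, ε, c, hε, hεY, hε1, -⟩ := C.w9_HT b ha hroot i
    have : Nonempty (Fin n) := ⟨⟨0, hn⟩⟩
    obtain ⟨h2, k, k', hkk⟩ := (hK P hP r hrR i ε hi hε).2 hr
    obtain ⟨h3, -⟩ := (hK P' hP' r hrR i ε hi hε).2 hr'
    have h4 := (FunP_iff (hFF P hP).1 hSum ⟨_, hεY⟩).1 (hsub P ε c h2)
    have h5 := (FunP_iff (hFF P' hP').1 hSum ⟨_, hεY⟩).1 (hsub P' ε c h3)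
    have h6 : (P * P') ⟨_, hεY⟩ = ⟨_, hεY⟩ := by
      show P (P' ⟨_, hεY⟩) = ⟨_, hεY⟩
      rw [h5, h4]
    rw [horth P hP P' hP' hne] at h6
    have h7 : (0 : Fin n → ℚ) = fun k => ε k - c := congrArg Subtype.val h6
    have h8 := congrFun h7 k
    have h9 := congrFun h7 k'
    simp only [Pi.zero_apply] at h8 h9
    exact hkk (by linarith)
  have hnon : ∀ P ∈ FF, (RP P).Nonempty := by
    intro P hP
    obtain ⟨i, ε, h2, h3, h4⟩ := C.onto b ha hroot (hFF P hP).1 (hFF P hP).2.2 (hFF P hP).2.1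
    obtain ⟨r, hr, -⟩ := ((hRP P hP).2 i ε h2).1 ⟨h3, h4⟩
    exact ⟨r, hr⟩
  refine ⟨RP, fun P hP => ⟨(hRP P hP).1, hnon P hP⟩, ?_, hdisj, fun P hP r hr i ε hi hε =>
    ((hK P hP r ((hRP P hP).1 hr) i ε hi hε).2 hr).1, ?_⟩
  · intro r hr
    obtain ⟨i, hi⟩ := C.w9_i b hr
    obtain ⟨hn, ε, c, hε, hεY, hε1, hor, hcnt⟩ := C.w9_HT b ha hroot i
    have hhd := C.hdg b i r hr hi
    rw [hcnt] at hhd
    have hco : (∃ k k', ε k ≠ ε k') ↔ hd b r ≠ 0 ∧ hd b r ≠ (e b).rank := by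
      rw [← hcard, ← hhd]
      exact w9_const hε1
    constructor
    · rintro ⟨P, hP, hrP⟩
      exact hco.1 ((hK P hP r hr i ε hi hε).2 hrP).2
    · intro h0
      have hnc := hco.2 h0
      obtain ⟨k, k', hkk⟩ := hnc
      have : Nonempty (Fin n) := ⟨k⟩
      have h2 : ∃ P ∈ FF, P ⟨_, hεY⟩ ≠ 0 := by
        by_contra hcon
        push Not at hcon
        have h3 : (∑ P ∈ FF, P) ⟨_, hεY⟩ = 0 := by
          rw [LinearMap.sum_apply]
          exact Finset.sum_eq_zero hcon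
        rw [hsum] at h3
        have h7 : (fun k => ε k - c) = (0 : Fin n → ℚ) := congrArg Subtype.val h3
        have h8 := congrFun h7 k
        have h9 := congrFun h7 k'
        simp only [Pi.zero_apply] at h8 h9
        exact hkk (by linarith)
      obtain ⟨P, hP, hPε⟩ := h2
      refine ⟨P, hP, (hK P hP r hr i ε hi hε).1 ⟨?_, k, k', hkk⟩⟩
      rcases hor P (hFF P hP).2.2 with h3 | h3
      · exact h3
      · exfalso
        have h4 := (FunP_iff (hFF P hP).1.compl hSum ⟨_, hεY⟩).1 (hsub _ ε c h3)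
        apply hPε
        have h5 : (⟨_, hεY⟩ : YS a) - P ⟨_, hεY⟩ = ⟨_, hεY⟩ := h4
        rwa [sub_eq_self] at h5
  · intro s hlink
    have key : ∀ (π : Equiv.Perm (Fin n)), (∀ g ∈ YS a, g ∘ π ∈ YS a) →
        (∀ (i : Ω →+* AlgebraicClosure ℚ_[p]) (ε : Fin n → ℚ),
          IsHT μ φ ((e b).map (i.comp j)) (fun k => i (a k)) ε →
          ∃ ε' : Fin n → ℚ, (∀ k k', ε (π.symm k) = ε (π.symm k') ↔ ε' k = ε' k') ∧
            IsHT μ φ ((e b).map ((i.comp s.symm.toRingHom).comp j))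
              (fun k => i.comp s.symm.toRingHom (a k)) ε') →
        ∀ P ∈ FF, ∃ P' ∈ FF, MvP π P P' ∧ ∀ r ∈ RP P, s r ∈ RP P' := by
      intro π hY hπ2 P hP
      obtain ⟨P'', hP'', hmv⟩ := hperm π hY P hP
      refine ⟨P'', hP'', hmv, ?_⟩
      intro r₁ hr₁
      have hr₁R := (hRP P hP).1 hr₁
      obtain ⟨i, hi⟩ := C.w9_i b hr₁R
      obtain ⟨hn, ε, c, hε, hεY, hε1, hor, -⟩ := C.w9_HT b ha hroot i
      obtain ⟨h2, k₁, k₂, hkk⟩ := (hK P hP r₁ hr₁R i ε hi hε).2 hr₁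
      obtain ⟨ε', hεε, h3⟩ := hπ2 i ε hε
      refine (hK P'' hP'' (s r₁) (C.Rstab s r₁ hr₁R) (i.comp s.symm.toRingHom) _ ?_ h3).1 ⟨?_, ?_⟩
      · show v (i (s.symm (s r₁))) = 1
        rw [s.symm_apply_apply, hi]
      · intro k k' hk
        apply (hεε k k').1
        apply h2
        rw [hmv.1, π.apply_symm_apply, π.apply_symm_apply]
        exact hk
      · refine ⟨π k₁, π k₂, fun h4 => hkk ?_⟩
        have h5 := (hεε _ _).2 h4
        rwa [π.symm_apply_apply, π.symm_apply_apply] at h5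
    have hlink' : Linked D ((e b).map j) ((e b).map (s.toRingHom.comp j)) ∨
        bar b ≠ b ∧ Linked D ((e (bar b)).map j) ((e b).map (s.toRingHom.comp j)) := by
      rcases hlink with h | h
      · exact Or.inl h
      · by_cases hb : bar b = b
        · rw [hb] at h
          exact Or.inl h
        · exact Or.inr ⟨hb, h⟩
    rcases hlink' with hlink | ⟨hb, hlink⟩
    · obtain ⟨π, hπ, hπ2⟩ := C.linked b ha hroot hlink
      have hY : ∀ g ∈ YS a, g ∘ π ∈ YS a := fun g hg =>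
        YS_perm (s := s.toRingHom) (fun k => (hπ k).symm) hg
      exact ⟨π, Or.inl ⟨hπ, hlink⟩, hY, key π hY fun i ε hε =>
        ⟨_, fun k k' => Iff.rfl, hπ2 i ε hε⟩⟩
    · obtain ⟨π, hπ, hπ2⟩ := C.dual_linked b ha hroot hlink
      have hY : ∀ g ∈ YS a, g ∘ π ∈ YS a := fun g hg =>
        YS_dual (s := s.toRingHom) (C.ne b hroot) (C.q_ne b) hπ hg
      exact ⟨π, Or.inr ⟨hb, hπ, hlink⟩, hY, key π hY fun i ε hε =>
        ⟨_, fun k k' => ⟨fun h => congrArg Neg.neg h, fun h => neg_injective h⟩, hπ2 i ε hε⟩⟩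

end Pool.Agent.H45U
end

-- from Lib.H45U.WFix
section

/-!
# a component with bad reduction at almost all primes: a block is fixed
-/

set_option autoImplicit false
set_option linter.unusedSectionVars false
namespace Pool.Agent.H45U
open Pool.Agent.H76Y Pool.Agent.H76Z
open Pool.Agent.H76P Pool.Agent.H76V Pool.Agent.H76Q
open Module Matrix Polynomial Pool.Agent.H53Toric
open Pool.Agent.H76P
open Pool.Agent.H76T (IsIdeal Fam Lc)
open Pool.Agent.H76U (cmp preL IsSplitting)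
open Pool.Agent.H76RM (spanK similD)

variable {ι : Type*} [Fintype ι] [DecidableEq ι] {ψ : Matrix ι ι ℚ}
    {D : Subalgebra ℚ (Matrix ι ι ℚ)} {M : Type*} [Field M] [NumberField M]
    {m : ℕ} {cl : Fin m → Cl} {bar : Fin m → Fin m} {e : Fin m → Matrix ι ι M} {u₀ : Matrix ι ι M} {G : Type*} [Group G]
    {ρ : ∀ (l : ℕ) [Fact l.Prime], G →* Matrix.GeneralLinearGroup ι ℚ_[l]}
    {p : ℕ} [Fact p.Prime] {σ : G} {q : ℚ} {F : Fin m → M[X]}
    {φ μ ν : Matrix ι ι (AlgebraicClosure ℚ_[p])} {v : AlgebraicClosure ℚ_[p] → ℚ}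
    {Δ : Set (AlgebraicClosure ℚ_[p] ≃+* AlgebraicClosure ℚ_[p])}
    {Ω : Type*} [Field Ω] [CharZero Ω] [IsAlgClosed Ω] [Algebra.IsAlgebraic ℚ Ω] {j : M →+* Ω}
    {R : Finset Ω} {N : Set ℕ} {hd : Fin m → Ω → ℕ} {ub : Fin m → Prop}
    (C : Core5 ψ D cl bar e u₀ ρ p σ q F φ μ ν v Δ j R N hd ub)

/-- The trace of a square zero matrix is zero. -/
theorem fx_trace {n : ℕ} {K : Type*} [Field K] {B : Matrix (Fin n) (Fin n) K} (hB : B * B = 0) :
    B.trace = 0 := by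
  have h1 : IsNilpotent B := ⟨2, by rw [pow_two, hB]⟩
  exact (Matrix.isNilpotent_trace_of_isNilpotent h1).eq_zero

theorem fx_trace' {K : Type*} [Field K] {B : Matrix ι ι K} (hB : B * B = 0) :
    B.trace = 0 := by
  have h1 : IsNilpotent B := ⟨2, by rw [pow_two, hB]⟩
  exact (Matrix.isNilpotent_trace_of_isNilpotent h1).eq_zero

include C

/-- A component with bad reduction at almost all primes has a block which is fixed. -/
theorem Core5.fixb (b : Fin m) (hb : ub b) {n : ℕ} {a : Fin n → Ω} (ha : Function.Injective a)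
    (hroot : ∀ y : Ω, (F b).eval₂ j y = 0 ↔ ∃ k, y = a k) (_hn : 0 < n)
    {FF : Finset (Module.End ℚ (YS a))} (hFF : ∀ P ∈ FF, Sp P ∧ P ≠ 0 ∧ GoodU (cl b) P)
    (horth : ∀ P ∈ FF, ∀ P' ∈ FF, P ≠ P' → P * P' = 0) (hsum : ∑ P ∈ FF, P = 1)
    {s : Ω ≃+* Ω} {π : Equiv.Perm (Fin n)}
    (hs1 : (∀ k, s (a k) = a (π k)) ∧ Linked D ((e b).map j) ((e b).map (s.toRingHom.comp j)) ∨
      bar b ≠ b ∧ (∀ k, s (a k) * a (π k) = algebraMap ℚ Ω q) ∧
        Linked D ((e (bar b)).map j) ((e b).map (s.toRingHom.comp j)))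
    (_hY : ∀ g ∈ YS a, g ∘ π ∈ YS a)
    (g : Module.End ℚ (YS a) → Module.End ℚ (YS a)) (hg : ∀ P ∈ FF, g P ∈ FF ∧ MvP π P (g P)) :
    ∃ P ∈ FF, g P = P := by
  classical
  obtain ⟨T₀, hT₀⟩ : ∃ T₀ : Finset Ω, T₀ = Finset.univ.image a ∪ Finset.univ.image (fun i => j (Module.finBasis ℚ M i)) := ⟨_, rfl⟩
  obtain ⟨l, hl, hlN, i, t, hit⟩ := C.dec s T₀
  have hlp : l ≠ p := fun h => hlN (h ▸ C.hN)
  have ht1 : ∀ k, t (i (a k)) = i (s (a k)) := fun k => hit (a k) (by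
    rw [hT₀, Finset.mem_union]
    exact Or.inl (Finset.mem_image_of_mem a (Finset.mem_univ k)))
  have ht2 : ∀ c : M, t (i (j c)) = i (s (j c)) := by
    intro c
    obtain ⟨f1, hf1⟩ : ∃ f1 : M →+* AlgebraicClosure ℚ_[l], ∀ x, f1 x = t (i (j x)) :=
      ⟨(t.toRingEquiv.toRingHom.comp i).comp j, fun _ => rfl⟩
    obtain ⟨f2, hf2⟩ : ∃ f2 : M →+* AlgebraicClosure ℚ_[l], ∀ x, f2 x = i (s (j x)) :=
      ⟨(i.comp s.toRingHom).comp j, fun _ => rfl⟩
    rw [← hf1, ← hf2]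
    conv_lhs => rw [← (Module.finBasis ℚ M).sum_repr c]
    conv_rhs => rw [← (Module.finBasis ℚ M).sum_repr c]
    rw [map_sum, map_sum]
    refine Finset.sum_congr rfl fun x _ => ?_
    rw [map_rat_smul f1, map_rat_smul f2]
    congr 1
    rw [hf1, hf2]
    exact hit _ (by
      rw [hT₀, Finset.mem_union]
      exact Or.inr (Finset.mem_image_of_mem (fun i => j (Module.finBasis ℚ M i)) (Finset.mem_univ x)))
  obtain ⟨H₀, U, V, hfin, hloc, hcls⟩ := C.locl b ha hroot l hlp i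
  obtain ⟨X, hXX, hXz, hXe⟩ := C.bad b hb l hlN
  have hne : Nonempty (Fin n) := ⟨⟨0, hloc.pos⟩⟩
  obtain ⟨A, hA⟩ : ∃ A, A = X.map (algebraMap ℚ_[l] (AlgebraicClosure ℚ_[l])) := ⟨_, rfl⟩
  have hAz : A ∈ zlie (img (AlgebraicClosure ℚ_[l]) (ρ l) H₀) := hA ▸ hXz H₀ hfin
  have hAe : A * (e b).map (i.comp j) ≠ 0 := hA ▸ hXe (i.comp j)
  have hAA : A * A = 0 := by
    rw [hA, ← Matrix.map_mul, hXX]
    ext x y
    simp
  have hAt : A.map t.toRingEquiv = A := hA ▸ H76Q.e6_fix t _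
  clear hXe hXz
  obtain ⟨hcom, c, hc⟩ := hloc.lie A hAz
  -- the matrix in the component
  obtain ⟨B, hB⟩ : ∃ B, B = V * A * U := ⟨_, rfl⟩
  have hBB : B * B = 0 := by
    calc B * B = V * (A * (U * V)) * A * U := by
          rw [hB]
          simp only [Matrix.mul_assoc]
      _ = V * (U * V) * (A * A) * U := by
          rw [← hloc.UV, hcom]
          simp only [Matrix.mul_assoc]
      _ = 0 := by rw [hAA, Matrix.mul_zero, Matrix.zero_mul]
  have hB0 : B ≠ 0 := by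
    intro h0
    apply hAe
    calc A * (e b).map (i.comp j) = A * (e b).map (i.comp j) * (e b).map (i.comp j) := by
          rw [Matrix.mul_assoc, (C.hspl.map (i.comp j)).idem b]
      _ = (e b).map (i.comp j) * A * (e b).map (i.comp j) := by rw [hcom]
      _ = U * B * V := by
          rw [hloc.UV, hB]
          simp only [Matrix.mul_assoc]
      _ = 0 := by rw [h0, Matrix.mul_zero, Matrix.zero_mul]
  have hcmp : cmp U V (A - c • 1) = B - c • 1 := by
    rw [Pool.Agent.H76U.cmp_apply, Matrix.mul_sub, Matrix.sub_mul, hB, Matrix.mul_smul, Matrix.mul_one,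
      Matrix.smul_mul, hloc.VU]
  rw [hcmp] at hc
  have hc0 : c = 0 := by
    have h1 := hloc.ts.cmp.tr _ hc
    have h2 : LinearMap.trace (AlgebraicClosure ℚ_[l]) (Fin n → AlgebraicClosure ℚ_[l]) (phi (B - c • 1)) =
        (B - c • 1).trace := Matrix.trace_toLin'_eq _
    rw [h2, Matrix.trace_sub, fx_trace hBB, Matrix.trace_smul, Matrix.trace_one, zero_sub, neg_eq_zero,
      Fintype.card_fin, smul_eq_mul, mul_eq_zero] at h1
    rcases h1 with h1 | h1
    · exact h1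
    · exact absurd (Nat.cast_eq_zero.1 h1) hloc.pos.ne'
  rw [hc0, zero_smul, sub_zero] at hc
  -- the linear data
  have e1 : ∀ b' : Fin m, ((e b').map j).map i = (e b').map (i.comp j) := by
    intro b'
    ext x y
    rfl
  have e2 : ((e b).map (s.toRingHom.comp j)).map i = (e b).map (i.comp (s.toRingHom.comp j)) := by
    ext x y
    rfl
  have e3 : (e b).map (i.comp (s.toRingHom.comp j)) = ((e b).map (i.comp j)).map t.toRingEquiv := by
    ext x y
    exact (ht2 _).symm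
  have hlinS : ∀ y ∈ spanK (AlgebraicClosure ℚ_[l]) D, ∀ g : G,
      (ρ l g).1.map (algebraMap ℚ_[l] (AlgebraicClosure ℚ_[l])) * y =
        y * (ρ l g).1.map (algebraMap ℚ_[l] (AlgebraicClosure ℚ_[l])) := by
    intro y hy g
    refine Submodule.span_induction (p := fun y _ => (ρ l g).1.map (algebraMap ℚ_[l] (AlgebraicClosure ℚ_[l])) * y =
        y * (ρ l g).1.map (algebraMap ℚ_[l] (AlgebraicClosure ℚ_[l]))) ?_ ?_ ?_ ?_ hy
    · rintro _ ⟨d, hd, rfl⟩
      have h7 := congrArg (fun m : Matrix ι ι ℚ_[l] => m.map (algebraMap ℚ_[l] (AlgebraicClosure ℚ_[l]))) (C.lin l g d hd)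
      have h8 : (d.map (algebraMap ℚ ℚ_[l])).map (algebraMap ℚ_[l] (AlgebraicClosure ℚ_[l])) =
          d.map (algebraMap ℚ (AlgebraicClosure ℚ_[l])) := by
        ext i j
        simp
      simp only [Matrix.map_mul] at h7
      rw [h8] at h7
      exact h7
    · rw [Matrix.mul_zero, Matrix.zero_mul]
    · intro y y' _ _ h7 h8
      rw [Matrix.mul_add, Matrix.add_mul, h7, h8]
    · intro c y _ h7
      rw [Matrix.mul_smul, Matrix.smul_mul, h7]
  have hzl : ∀ y ∈ spanK (AlgebraicClosure ℚ_[l]) D, y * A = A * y := by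
    intro y hy
    refine (H76RM.zlie_commute (img_one (ρ l) H₀) ?_ hAz).symm
    rintro _ ⟨g, -, rfl⟩
    exact hlinS y hy g
  have hσt : ((ρ l σ).1.map (algebraMap ℚ_[l] (AlgebraicClosure ℚ_[l]))).map t.toRingEquiv =
      (ρ l σ).1.map (algebraMap ℚ_[l] (AlgebraicClosure ℚ_[l])) := H76Q.e6_fix t _
  have hBp : LinearMap.toMatrix' (phi B : Module.End (AlgebraicClosure ℚ_[l]) (Fin n → AlgebraicClosure ℚ_[l])) = B :=
    LinearMap.toMatrix'_toLin' B
  have hsup : (∀ k l', LinearMap.toMatrix' (phi B : Module.End (AlgebraicClosure ℚ_[l]) (Fin n → AlgebraicClosure ℚ_[l])) k l' ≠ 0 ↔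
        LinearMap.toMatrix' (phi B : Module.End (AlgebraicClosure ℚ_[l]) (Fin n → AlgebraicClosure ℚ_[l])) (π k) (π l') ≠ 0) ∨
      ∀ k l', LinearMap.toMatrix' (phi B : Module.End (AlgebraicClosure ℚ_[l]) (Fin n → AlgebraicClosure ℚ_[l])) k l' ≠ 0 ↔
        LinearMap.toMatrix' (phi B : Module.End (AlgebraicClosure ℚ_[l]) (Fin n → AlgebraicClosure ℚ_[l])) (π l') (π k) ≠ 0 := by
    rw [hBp]
    rcases hs1 with ⟨hπ, hlink⟩ | ⟨-, hπ, hlink⟩
    · left
      intro k l'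
      obtain ⟨a₁, ha₁, a', ha', h1, h2, h3, h4, h5, h6⟩ := (H76W.pr_of_linked2 C.hspl.zero j s b b hlink).map i
      rw [e1] at h2 h3 h6
      rw [e2] at h1 h4 h5
      rw [e3] at h1 h4 h5
      rw [hB]
      exact H76W.supp_link (t := t.toRingEquiv) (π := π) hloc.UV hloc.VU hloc.ec hcom.symm h1 h3 (hlinS a' ha' σ)
        (hzl a' ha').symm hσt hAt (fun k => by
          show t (i (a k)) = i (a (π k))
          rw [ht1, hπ]) k l'
    · right
      intro k l'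
      obtain ⟨a₁, ha₁, a', ha', h1, h2, h3, h4, h5, h6⟩ := (H76W.pr_of_linked2 C.hspl.zero j s (bar b) b hlink).map i
      rw [e1] at h2 h3 h6
      rw [e2] at h1 h4 h5
      rw [e3] at h1 h4 h5
      obtain ⟨-, hdet0⟩ := gram_basic C.hψ C.hψ0 (AlgebraicClosure ℚ_[l])
      have huD := (C.hspl.map (i.comp j)).umem
      have hdet : IsUnit (ψ.map (algebraMap ℚ (AlgebraicClosure ℚ_[l])) * u₀.map (i.comp j)).det := by
        rw [Matrix.det_mul]
        exact hdet0.mul (C.hspl.map (i.comp j)).unit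
      have hadj := (C.hspl.map (i.comp j)).adj (bar b)
      rw [C.hspl.barbar b] at hadj
      have hm0 : ((ρ l σ).1.map (algebraMap ℚ_[l] (AlgebraicClosure ℚ_[l])))ᵀ *
          ψ.map (algebraMap ℚ (AlgebraicClosure ℚ_[l])) * (ρ l σ).1.map (algebraMap ℚ_[l] (AlgebraicClosure ℚ_[l])) =
          algebraMap ℚ (AlgebraicClosure ℚ_[l]) q • ψ.map (algebraMap ℚ (AlgebraicClosure ℚ_[l])) := by
        have h1 := congrArg (fun m : Matrix ι ι ℚ_[l] => m.map (algebraMap ℚ_[l] (AlgebraicClosure ℚ_[l]))) (C.mult l hlp)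
        have h2 : (ψ.map (algebraMap ℚ ℚ_[l])).map (algebraMap ℚ_[l] (AlgebraicClosure ℚ_[l])) =
            ψ.map (algebraMap ℚ (AlgebraicClosure ℚ_[l])) := by
          ext i j
          simp
        have h3 : (algebraMap ℚ ℚ_[l] q • ψ.map (algebraMap ℚ ℚ_[l])).map
            (algebraMap ℚ_[l] (AlgebraicClosure ℚ_[l])) =
            algebraMap ℚ (AlgebraicClosure ℚ_[l]) q • ψ.map (algebraMap ℚ (AlgebraicClosure ℚ_[l])) := by
          ext i j
          simp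
        simp only [Matrix.map_mul] at h1
        rw [h2, h3, Matrix.transpose_map] at h1
        exact h1
      have hm : ((ρ l σ).1.map (algebraMap ℚ_[l] (AlgebraicClosure ℚ_[l])))ᵀ *
          (ψ.map (algebraMap ℚ (AlgebraicClosure ℚ_[l])) * u₀.map (i.comp j)) *
            (ρ l σ).1.map (algebraMap ℚ_[l] (AlgebraicClosure ℚ_[l])) =
          algebraMap ℚ (AlgebraicClosure ℚ_[l]) q •
            (ψ.map (algebraMap ℚ (AlgebraicClosure ℚ_[l])) * u₀.map (i.comp j)) := by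
        rw [← Matrix.smul_mul, ← hm0]
        simp only [Matrix.mul_assoc]
        rw [← hlinS _ huD σ]
      have hψne : ψ.map (algebraMap ℚ (AlgebraicClosure ℚ_[l])) ≠ 0 := by
        intro h0
        have hι : Nonempty ι := by
          by_contra hemp
          rw [not_nonempty_iff] at hemp
          apply C.hspl.ne_zero b
          ext i'
          exact (hemp.false i').elim
        rw [h0, Matrix.det_zero] at hdet0
        exact hdet0.ne_zero rfl
      obtain ⟨c', hc'⟩ := H76P.zlie_sim (img_one (ρ l) H₀) hψne (by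
        rintro _ ⟨g, -, rfl⟩
        obtain ⟨c', hc'⟩ := C.sim l g
        refine ⟨algebraMap ℚ_[l] _ c', ?_⟩
        have h1 := congrArg (fun m : Matrix ι ι ℚ_[l] => m.map (algebraMap ℚ_[l] (AlgebraicClosure ℚ_[l]))) hc'
        have h2 : (ψ.map (algebraMap ℚ ℚ_[l])).map (algebraMap ℚ_[l] (AlgebraicClosure ℚ_[l])) =
            ψ.map (algebraMap ℚ (AlgebraicClosure ℚ_[l])) := by
          ext i j
          simp
        have h3 : (c' • ψ.map (algebraMap ℚ ℚ_[l])).map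
            (algebraMap ℚ_[l] (AlgebraicClosure ℚ_[l])) =
            algebraMap ℚ_[l] (AlgebraicClosure ℚ_[l]) c' • ψ.map (algebraMap ℚ (AlgebraicClosure ℚ_[l])) := by
          ext i j
          simp
        simp only [Matrix.map_mul] at h1
        rw [h2, h3, Matrix.transpose_map] at h1
        exact h1) hAz
      have hc'0 : c' = 0 := by
        have h7 : Aᵀ + ψ.map (algebraMap ℚ (AlgebraicClosure ℚ_[l])) * A *
            (ψ.map (algebraMap ℚ (AlgebraicClosure ℚ_[l])))⁻¹ = c' • 1 := by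
          have h8 := congrArg (fun m => m * (ψ.map (algebraMap ℚ (AlgebraicClosure ℚ_[l])))⁻¹) hc'
          beta_reduce at h8
          rwa [Matrix.add_mul, Matrix.mul_assoc, Matrix.mul_nonsing_inv _ hdet0, Matrix.mul_one,
            Matrix.smul_mul, Matrix.mul_nonsing_inv _ hdet0] at h8
        have h8 := congrArg Matrix.trace h7
        rw [Matrix.trace_add, Matrix.trace_transpose, fx_trace' hAA, Matrix.trace_mul_comm, ← Matrix.mul_assoc,
          Matrix.nonsing_inv_mul _ hdet0, Matrix.one_mul, fx_trace' hAA, Matrix.trace_smul, Matrix.trace_one,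
          add_zero, smul_eq_mul] at h8
        rcases mul_eq_zero.1 h8.symm with h9 | h9
        · exact h9
        · have hι : Nonempty ι := by
            by_contra hemp
            rw [not_nonempty_iff] at hemp
            apply C.hspl.ne_zero b
            ext i'
            exact (hemp.false i').elim
          exact absurd (Nat.cast_eq_zero.1 h9) Fintype.card_ne_zero
      rw [hc'0, zero_smul] at hc'
      have hNJ : Aᵀ * (ψ.map (algebraMap ℚ (AlgebraicClosure ℚ_[l])) * u₀.map (i.comp j)) =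
          -(ψ.map (algebraMap ℚ (AlgebraicClosure ℚ_[l])) * u₀.map (i.comp j) * A) := by
        rw [← Matrix.mul_assoc, eq_neg_of_add_eq_zero_left hc', Matrix.neg_mul, Matrix.mul_assoc _ A,
          ← hzl _ huD, Matrix.mul_assoc]
      have hq0 : algebraMap ℚ (AlgebraicClosure ℚ_[l]) q ≠ 0 := by
        intro h0
        have h1 : q = 0 := by
          rw [← map_zero (algebraMap ℚ (AlgebraicClosure ℚ_[l]))] at h0
          exact (algebraMap ℚ (AlgebraicClosure ℚ_[l])).injective h0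
        have h2 := C.vq
        have hι : Nonempty ι := by
          by_contra hemp
          rw [not_nonempty_iff] at hemp
          apply C.hspl.ne_zero b
          ext i'
          exact (hemp.false i').elim
        exact absurd (C.multp) (by
          rw [h1, map_zero, zero_smul]
          intro h3
          have h4 := congrArg Matrix.det h3
          obtain ⟨-, hdet⟩ := gram_basic C.hψ C.hψ0 (AlgebraicClosure ℚ_[p])
          rw [Matrix.det_mul, Matrix.det_mul, Matrix.det_transpose, Matrix.det_zero] at h4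
          exact mul_ne_zero (mul_ne_zero C.frobp.idc.1 hdet.ne_zero) C.frobp.idc.1 h4)
      rw [hB]
      exact H76W.supp_dual (t := t.toRingEquiv) (π := π) hloc.UV hloc.VU hloc.ec hcom.symm h1 h3
        (hlinS a' ha' σ) (hzl a' ha').symm hσt hAt hadj hdet hm hNJ hq0 (fun k => by
          show t (i (a k)) * i (a (π k)) = algebraMap ℚ (AlgebraicClosure ℚ_[l]) q
          rw [ht1, ← map_mul, hπ]
          simp) k l'
  exact H76W.fix_supp hloc.ts hloc.yo (fun P hP => ⟨(hFF P hP).1, (hFF P hP).2.2 _ _ hloc.ts hcls hloc.yo⟩)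
    horth hsum hc (fun h0 => hB0 (by
      rw [← hBp, h0, map_zero])) (by
      rw [← map_mul, hBB, map_zero]) hsup g hg

end Pool.Agent.H45U
end

-- from Lib.H45U.W11a
section

/-!
# the partition
-/

set_option autoImplicit false
set_option linter.unusedSectionVars false
namespace Pool.Agent.H45U
open Pool.Agent.H76Y Pool.Agent.H76Z
open Pool.Agent.H76P Pool.Agent.H76V Pool.Agent.H76Q
open Module Matrix Polynomial TensorProduct Pool.Agent.H53Toric
open Pool.Agent.H76P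
open Pool.Agent.H76T (IsIdeal Fam Lc)
open Pool.Agent.H76U (cmp preL IsSplitting)
open Pool.Agent.H76RM (spanK similD)

variable {ι : Type*} [Fintype ι] [DecidableEq ι] {ψ : Matrix ι ι ℚ}
    {D : Subalgebra ℚ (Matrix ι ι ℚ)} {M : Type*} [Field M] [NumberField M]
    {m : ℕ} {cl : Fin m → Cl} {bar : Fin m → Fin m} {e : Fin m → Matrix ι ι M} {u₀ : Matrix ι ι M} {G : Type*} [Group G]
    {ρ : ∀ (l : ℕ) [Fact l.Prime], G →* Matrix.GeneralLinearGroup ι ℚ_[l]}
    {p : ℕ} [Fact p.Prime] {σ : G} {q : ℚ} {F : Fin m → M[X]}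
    {φ μ ν : Matrix ι ι (AlgebraicClosure ℚ_[p])} {v : AlgebraicClosure ℚ_[p] → ℚ}
    {Δ : Set (AlgebraicClosure ℚ_[p] ≃+* AlgebraicClosure ℚ_[p])}
    {Ω : Type*} [Field Ω] [CharZero Ω] [IsAlgClosed Ω] [Algebra.IsAlgebraic ℚ Ω] {j : M →+* Ω}
    {R : Finset Ω} {N : Set ℕ} {hd : Fin m → Ω → ℕ} {ub : Fin m → Prop}
    (C : Core5 ψ D cl bar e u₀ ρ p σ q F φ μ ν v Δ j R N hd ub)

include C


/-- The decomposition of the set `R` given by a family of good blocks. -/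
theorem Core5.partd2 (b : Fin m) {n : ℕ} {a : Fin n → Ω} (ha : Function.Injective a)
    (hroot : ∀ y : Ω, (F b).eval₂ j y = 0 ↔ ∃ k, y = a k) (hn : 0 < n)
    {FF : Finset (Module.End ℚ (YS a))} (hFF : ∀ P ∈ FF, Sp P ∧ P ≠ 0 ∧ GoodU (cl b) P)
    (horth : ∀ P ∈ FF, ∀ P' ∈ FF, P ≠ P' → P * P' = 0) (hsum : ∑ P ∈ FF, P = 1)
    (hperm : ∀ π : Equiv.Perm (Fin n), (∀ g ∈ YS a, g ∘ π ∈ YS a) → ∀ P ∈ FF,
      ∃ P' ∈ FF, MvP π P P') (E : {P // P ∈ FF} ≃ Fin FF.card) :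
    ∃ c : Ω → Option (Fin FF.card),
      PartU D j (cl b = .s) (ub b) (e b) (e (bar b)) (F b) q R (hd b) c (fun x => nz (E.symm x).1) ∧
      n = ∏ x, nz (E.symm x).1 := by
  classical
  have hne : Nonempty (Fin n) := ⟨⟨0, hn⟩⟩
  have h0 : ∀ f ∈ YS a, ∑ k, f k = 0 := fun f hf => hf.1
  have hSp : ∀ P ∈ FF, Sp P := fun P hP => (hFF P hP).1
  have hcard := C.card b ha hroot
  obtain ⟨RP, hRP, hcov, hdis, hRP2, hmove⟩ := C.types5 b ha hroot hFF horth hsum hperm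
  have ha0 := C.ne b hroot
  have hq0 := C.q_ne b
  obtain ⟨i₀⟩ := Pool.Agent.H76Z.w9_exists_i p Ω
  have hsep : ∀ k l, k ≠ l → ∃ g ∈ YS a, g k ≠ g l :=
    YS_sep ha0 fun k l n hn h => ha (C.tor b ((hroot _).2 ⟨k, rfl⟩) ((hroot _).2 ⟨l, rfl⟩) hn h)
  obtain ⟨c, hc, hcn⟩ : ∃ c : Ω → Option (Fin FF.card), (∀ (P : Module.End ℚ (YS a)) (hP : P ∈ FF) (r : Ω),
      r ∈ RP P → c r = some (E ⟨P, hP⟩)) ∧ ∀ r, (¬ ∃ P ∈ FF, r ∈ RP P) → c r = none := by
    refine ⟨fun r => if h : ∃ P : {P // P ∈ FF}, r ∈ RP P.1 then some (E h.choose) else none,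
      fun P hP r hr => ?_, fun r hr => ?_⟩
    · have h : ∃ P : {P // P ∈ FF}, r ∈ RP P.1 := ⟨⟨P, hP⟩, hr⟩
      simp only [dif_pos h]
      congr 2
      exact Subtype.ext (hdis _ h.choose.2 _ hP r h.choose_spec hr)
    · have h : ¬ ∃ P : {P // P ∈ FF}, r ∈ RP P.1 := fun ⟨P, h⟩ => hr ⟨P.1, P.2, h⟩
      simp only [dif_neg h]
  have hcs : ∀ r x, c r = some x → r ∈ RP (E.symm x).1 := by
    intro r x h
    by_cases hr : ∃ P ∈ FF, r ∈ RP P
    · obtain ⟨P, hP, hrP⟩ := hr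
      rw [hc P hP r hrP, Option.some_inj] at h
      rw [← h, Equiv.symm_apply_apply]
      exact hrP
    · rw [hcn r hr] at h
      exact absurd h (by simp)
  refine ⟨c, ⟨?_, ?_, ?_, ?_, ?_⟩, ?_⟩
  · intro r hr
    have h1 := hcov r hr
    by_cases h2 : ∃ P ∈ FF, r ∈ RP P
    · have h3 := h1.1 h2
      obtain ⟨P, hP, hrP⟩ := h2
      rw [hc P hP r hrP]
      constructor
      · intro h4
        exact absurd h4 (by simp)
      · rintro (h4 | h4)
        · exact absurd h4 h3.1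
        · exact absurd h4 h3.2
    · rw [hcn r h2]
      constructor
      · intro _
        by_contra h4
        exact h2 (h1.2 ⟨fun h5 => h4 (Or.inl h5), fun h5 => h4 (Or.inr h5)⟩)
      · intro _
        rfl
  · intro x
    obtain ⟨r, hr⟩ := (hRP (E.symm x).1 (E.symm x).2).2
    refine ⟨r, (hRP (E.symm x).1 (E.symm x).2).1 hr, ?_⟩
    rw [hc _ (E.symm x).2 r hr, Subtype.coe_eta, Equiv.apply_symm_apply]
  · intro r hr x hx
    have hrP := hcs r x hx
    obtain ⟨i, hi⟩ := C.w9_i b hr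
    obtain ⟨-, ε, c', hε, -, hε1, -, hcnt⟩ := C.w9_HT b ha hroot i
    have hf := hRP2 (E.symm x).1 (E.symm x).2 r hrP i ε hi hε
    rw [← hcard, ← C.hdg b i r hr hi, hcnt]
    have h1 := nz_dvd hsep (hSp _ (E.symm x).2) hf
    rwa [Fintype.card_fin] at h1
  · intro x
    obtain ⟨i, ε, hε, hf, k, k', hkk⟩ := C.onto b ha hroot (hFF _ (E.symm x).2).1
      (hFF _ (E.symm x).2).2.2 (hFF _ (E.symm x).2).2.1
    exact nz_two hf hkk
  · intro s hlink
    obtain ⟨π₀, hs1, hs2, hs3⟩ := hmove s hlink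
    -- a permutation which acts trivially or as an inversion fixes all blocks
    have htriv : ∀ P : Module.End ℚ (YS a), (∀ k, π₀ k = k) ∨
        (∀ k, a k * a (π₀ k) = algebraMap ℚ Ω q) → MvP π₀ P P := by
      intro P h
      rcases h with h | h
      · exact ⟨fun k k' => by rw [h, h], fun k k' => by rw [h, h]⟩
      · have hbb : ∀ k, π₀ (π₀ k) = k := by
          intro k
          apply ha
          have h1 := h k
          have h3 := h (π₀ k)
          rw [← h1, mul_comm (a k)] at h3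
          exact mul_left_cancel₀ (ha0 _) h3
        have hneg : ∀ (f : YS a) (k : Fin n), (f : Fin n → ℚ) (π₀ k) = -(f : Fin n → ℚ) k :=
          fun f k => YS_bar ha0 h f.2 k
        have hczb : ∀ (P : Module.End ℚ (YS a)) (k k' : Fin n), cz P k k' → cz P (π₀ k) (π₀ k') := by
          intro P k k' h f
          rw [hneg, hneg, h f]
        refine ⟨fun k k' => ⟨hczb P k k', fun h => ?_⟩, fun k k' => ⟨hczb (1 - P) k k', fun h => ?_⟩⟩
        · have h1 := hczb P _ _ h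
          rwa [hbb, hbb] at h1
        · have h1 := hczb (1 - P) _ _ h
          rwa [hbb, hbb] at h1
    obtain ⟨g, hg⟩ : ∃ g : Module.End ℚ (YS a) → Module.End ℚ (YS a), ∀ P ∈ FF, g P ∈ FF ∧ MvP π₀ P (g P) ∧ ∀ r ∈ RP P, s r ∈ RP (g P) := by
      refine ⟨fun P => if h : P ∈ FF then (hs3 P h).choose else P, fun P hP => ?_⟩
      simp only [dif_pos hP]
      exact (hs3 P hP).choose_spec
    have hinj : ∀ P ∈ FF, ∀ P' ∈ FF, g P = g P' → P = P' := by
      intro P hP P' hP' h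
      have h3 := (hg P hP).2.1
      have h4 := (hg P' hP').2.1
      rw [← h] at h4
      exact g10_ext h0 (hSp P hP) (hSp P' hP') (fun k k' => (h3.1 k k').trans (h4.1 k k').symm)
        fun k k' => (h3.2 k k').trans (h4.2 k k').symm
    let G' : {P // P ∈ FF} → {P // P ∈ FF} := fun P => ⟨g P.1, (hg P.1 P.2).1⟩
    have hG'inj : Function.Injective G' := fun P P' h => Subtype.ext (hinj P.1 P.2 P'.1 P'.2 (congrArg Subtype.val h))
    obtain ⟨g', hg'⟩ : ∃ g' : Equiv.Perm {P // P ∈ FF}, ∀ P, (g' P).1 = g P.1 :=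
      ⟨Equiv.ofBijective G' (Finite.injective_iff_bijective.1 hG'inj), fun _ => rfl⟩
    have hg'pow : ∀ (k : ℕ) (P : {P // P ∈ FF}), ((g' ^ k) P).1 = g^[k] P.1 := by
      intro k
      induction k with
      | zero => intro P; rfl
      | succ k ih =>
        intro P
        rw [Function.iterate_succ_apply', pow_succ', Equiv.Perm.mul_apply, hg', ih]
    obtain ⟨π, hπ⟩ : ∃ π : Equiv.Perm (Fin FF.card), ∀ x, π x = E (g' (E.symm x)) :=
      ⟨(E.symm.trans g').trans E, fun _ => rfl⟩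
    have hπpow : ∀ (k : ℕ) (x : Fin FF.card), (π ^ k) x = E ((g' ^ k) (E.symm x)) := by
      intro k
      induction k with
      | zero => intro x; exact (E.apply_symm_apply x).symm
      | succ k ih =>
        intro x
        rw [pow_succ', Equiv.Perm.mul_apply, ih, hπ, Equiv.symm_apply_apply, pow_succ', Equiv.Perm.mul_apply]
    refine ⟨π, ?_, ?_, ?_, ?_, ?_⟩
    · intro r hr
      by_cases hex : ∃ P ∈ FF, r ∈ RP P
      · obtain ⟨P, hP, hrP⟩ := hex
        rw [hc P hP r hrP, Option.map_some, hπ, Equiv.symm_apply_apply,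
          hc (g P) (hg P hP).1 (s r) ((hg P hP).2.2 r hrP)]
        congr 2
        exact Subtype.ext (hg' ⟨P, hP⟩).symm
      · rw [hcn r hex, Option.map_none]
        refine hcn _ fun h3 => hex ?_
        -- `s` permutes the finite set of the elements which belong to a block
        let T : Finset Ω := R.filter fun r => ∃ P ∈ FF, r ∈ RP P
        have hT : T.image s ⊆ T := by
          intro y hy
          obtain ⟨x, hx, rfl⟩ := Finset.mem_image.1 hy
          obtain ⟨hxR, P, hP, hxP⟩ := Finset.mem_filter.1 hx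
          exact Finset.mem_filter.2 ⟨C.Rstab s x hxR, g P, (hg P hP).1, (hg P hP).2.2 x hxP⟩
        have hT' : T.image s = T := Finset.eq_of_subset_of_card_le hT
          (by rw [Finset.card_image_of_injective _ s.injective])
        have h4 : s r ∈ T.image s := by
          rw [hT']
          exact Finset.mem_filter.2 ⟨C.Rstab s r hr, h3⟩
        obtain ⟨x, hx, hxr⟩ := Finset.mem_image.1 h4
        rw [← s.injective hxr]
        exact (Finset.mem_filter.1 hx).2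
    · intro x
      show nz (E.symm (π x)).1 = nz (E.symm x).1
      rw [hπ, Equiv.symm_apply_apply, hg']
      exact (nz_mv (hg _ (E.symm x).2).2.1).symm
    · intro hy
      have h3 : (∀ k, π₀ k = k) ∨ (∀ k, a k * a (π₀ k) = algebraMap ℚ Ω q) := by
        rcases hs1 with ⟨hs1, -⟩ | ⟨-, hs1, -⟩
        · right
          intro k
          rw [← hs1, mul_comm]
          exact hy (a k) ((hroot _).2 ⟨k, rfl⟩)
        · left
          intro k
          apply ha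
          have h4 := hy (a k) ((hroot _).2 ⟨k, rfl⟩)
          rw [← hs1 k] at h4
          have h5 : s (a k) ≠ 0 := fun h0 => ha0 k (by rwa [_root_.map_eq_zero] at h0)
          exact (mul_left_cancel₀ h5 h4).symm
      have h5 : ∀ P ∈ FF, g P = P := by
        intro P hP
        have h6 := (hg P hP).2.1
        have h7 := htriv P h3
        refine g10_ext h0 (hSp _ (hg P hP).1) (hSp P hP) (fun k k' => ?_) fun k k' => ?_
        · have h8 := h6.1 (π₀.symm k) (π₀.symm k')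
          have h9 := h7.1 (π₀.symm k) (π₀.symm k')
          rw [Equiv.apply_symm_apply, Equiv.apply_symm_apply] at h8 h9
          exact h8.symm.trans h9
        · have h8 := h6.2 (π₀.symm k) (π₀.symm k')
          have h9 := h7.2 (π₀.symm k) (π₀.symm k')
          rw [Equiv.apply_symm_apply, Equiv.apply_symm_apply] at h8 h9
          exact h8.symm.trans h9
      ext x
      rw [hπ, Equiv.Perm.one_apply]
      have h6 : g' (E.symm x) = E.symm x := Subtype.ext ((hg' _).trans (h5 _ (E.symm x).2))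
      rw [h6, Equiv.apply_symm_apply]
    · intro hb
      have hbar : bar b = b := (C.hspl.self b).2 (by rw [hb]; decide)
      rcases hs1 with ⟨hs1, hlink'⟩ | ⟨hb', -⟩
      · obtain ⟨u, hu, P, hP, hgu⟩ := C.odd b hb ha hroot hn hFF horth hsum hlink' hs1 g
          fun P hP => ⟨(hg P hP).1, (hg P hP).2.1⟩
        refine ⟨u, E ⟨P, hP⟩, hu, ?_⟩
        rw [hπpow, Equiv.symm_apply_apply]
        congr 1
        exact Subtype.ext ((hg'pow u ⟨P, hP⟩).trans hgu)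
      · exact absurd hbar hb'
    · intro hb
      obtain ⟨P, hP, hgP⟩ := C.fixb b hb ha hroot hn hFF horth hsum hs1 hs2 g
        fun P hP => ⟨(hg P hP).1, (hg P hP).2.1⟩
      refine ⟨E ⟨P, hP⟩, ?_⟩
      rw [hπ, Equiv.symm_apply_apply]
      congr 1
      exact Subtype.ext ((hg' ⟨P, hP⟩).trans hgP)
  · have h7 := prod_nz h0 hsep hSp horth hsum
    rw [Fintype.card_fin] at h7
    refine h7.trans ?_
    rw [← Finset.prod_coe_sort]
    exact Fintype.prod_equiv E _ _ fun P => by rw [Equiv.symm_apply_apply]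


end Pool.Agent.H45U
end
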