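import Pool.Agent.Lib.H1M.RC.M044
import Pool.Agent.Lib.H1M.RC.M050
import Pool.Agent.Lib.H1M.RC.M052
import Pool.Agent.Lib.H1M.RC.M053
import Pool.Agent.Lib.H1M.RC.M061
import Pool.Agent.Lib.H1M.RC.M066
import Pool.Agent.Lib.H1M.RC.M067
import Pool.Agent.Lib.H1M.RC.M068
import Pool.Agent.Lib.H1M.RC.M070

/-! Merged copies (to shorten the build) of Lib.H34V.N04, Lib.H34V.N05, Lib.H34V.N06, Lib.H34V.P02. -/

-- from Lib.H34V.N04
section

/-!
# N04: two blocks (port of H34Z/M04)
-/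

set_option autoImplicit false
set_option linter.unusedSectionVars false
namespace Pool.Agent.H34V
open Module Matrix Pool.Agent.H53Toric Pool.Agent.H76P Pool.Agent.H34Z
open Pool.Agent.H76U (cmp preL Lb Split4)
open Pool.Agent.H76Y (LcN)
open Pool.Agent.H76RM (zar_commute zlie_commute)

variable {ι : Type*} [Fintype ι] [DecidableEq ι] {K : Type*} [Field K] [CharZero K] [IsAlgClosed K]
  {J u : Matrix ι ι K} {DD : Submodule K (Matrix ι ι K)} {S 𝓗 : Set (Matrix ι ι K)} {x : Matrix ι ι K}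
  {B : Type*} [Fintype B] [DecidableEq B] {bar : B → B} {e : B → Matrix ι ι K} {n : B → ℕ}
  {U : ∀ b, Matrix ι (Fin (n b)) K} {V : ∀ b, Matrix (Fin (n b)) ι K} {d : ∀ b, Fin (n b) → K}

namespace Sit5
variable (g : Sit5 J u DD S 𝓗 x bar e n U V d)
include g

/-- PROOF. `dich` (R01), as `Sit.two`, with `FV.simple`. -/
theorem two {b c : B} (hb : 2 ≤ n b) (hc : 2 ≤ n c) :
    (∀ X ∈ LcN J S (U b) (V b), ∃ A ∈ brk J S, pb (U b) (V b) A = X ∧ pb (U c) (V c) A = 0) ∨
    ∀ A ∈ brk J S, pb (U b) (V b) A = 0 ↔ pb (U c) (V c) A = 0 :=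
  dich (𝔤 := brk J S) (fun A hA A' hA' => brk_ad (brk_pre hA) (brk_pre hA'))
    (p := pb (U b) (V b)) (q := pb (U c) (V c))
    (fun A hA A' hA' => g.pb_bracket b (brk_pre hA) (brk_pre hA'))
    (fun A hA A' hA' => g.pb_bracket c (brk_pre hA) (brk_pre hA'))
    (g.pb_brk b) (g.pb_brk c) (fun _ hI h0 => (g.full b hb).simple hI h0)
    (fun _ hI h0 => (g.full c hc).simple hI h0)

/-- Membership in the Lie algebra of pairs. -/
theorem mem_pr2 {b c : B} {X : Module.End K (Fin (n b) → K)} {X' : Module.End K (Fin (n c) → K)} :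
    (X, X') ∈ pr2 J S (U b) (V b) (U c) (V c) ↔
      ∃ A ∈ brk J S, pb (U b) (V b) A = X ∧ pb (U c) (V c) A = X' := by
  constructor
  · intro hm
    obtain ⟨A, hA, hAe⟩ := Submodule.mem_map.1 hm
    exact ⟨A, hA, congrArg Prod.fst hAe, congrArg Prod.snd hAe⟩
  · rintro ⟨A, hA, rfl, rfl⟩
    exact Submodule.mem_map.2 ⟨A, hA, rfl⟩

/-- PROOF. As `Sit.y_pair`: let `y = 2h - 1`, `c_b = shf h (e b) (n b)`.  `pb b y - c_b • 1 ∈ LcN b` (`y_mem`), so there is `A ∈ brk` with `pb b A = pb b y - c_b`.  For all `X ∈ brk` the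
block `b` of `[y - A, X]` is zero (a scalar commutes), so its block `c` is zero: `pb c (y - A)` commutes with `LcN c`, so it is a scalar `t`; the traces of `pb c y - c_c` and of `pb c A`
are zero, so `t = c_c`. -/
theorem y_pair {b c : B} (hgr : ∀ A ∈ brk J S, pb (U b) (V b) A = 0 ↔ pb (U c) (V c) A = 0) {h : Matrix ι ι K}
    (hh : h ∈ 𝓗) : (pb (U b) (V b) ((2 : K) • h - 1) - shf h (e b) (n b) • 1,
      pb (U c) (V c) ((2 : K) • h - 1) - shf h (e c) (n c) • 1) ∈ pr2 J S (U b) (V b) (U c) (V c) := by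
  have : Nonempty (Fin (n c)) := ⟨⟨0, g.pos c⟩⟩
  have hy := g.ypre hh
  have h1 : pb (U b) (V b) ((2 : K) • h - 1) - shf h (e b) (n b) • 1 ∈ (brk J S).map (pb (U b) (V b)) := by
    rw [g.pb_brk b]
    exact (g.y_mem b hh).1
  obtain ⟨A, hA, hAb⟩ := Submodule.mem_map.1 h1
  have hAp : A ∈ preL J S := brk_pre hA
  have hyA : (2 : K) • h - 1 - A ∈ preL J S := (preL J S).sub_mem hy hAp
  have hcomm : ∀ X' ∈ LcN J S (U c) (V c), pb (U c) (V c) ((2 : K) • h - 1 - A) * X' =
      X' * pb (U c) (V c) ((2 : K) • h - 1 - A) := by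
    intro X' hX'
    rw [← g.pb_brk c] at hX'
    obtain ⟨X, hX, rfl⟩ := Submodule.mem_map.1 hX'
    have hXp := brk_pre hX
    have h2 := brk_ad hyA hXp
    have h3 : pb (U b) (V b) (((2 : K) • h - 1 - A) * X - X * ((2 : K) • h - 1 - A)) = 0 := by
      rw [g.pb_bracket b hyA hXp]
      have h4 : pb (U b) (V b) ((2 : K) • h - 1 - A) = shf h (e b) (n b) • 1 := by
        rw [map_sub (pb (U b) (V b)) ((2 : K) • h - 1) A, hAb, sub_sub_cancel]
      rw [h4, smul_mul_assoc, mul_smul_comm, one_mul, mul_one, sub_self]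
    have h5 := (hgr _ h2).1 h3
    rw [g.pb_bracket c hyA hXp] at h5
    exact sub_eq_zero.1 h5
  obtain ⟨t, ht⟩ := Pool.Agent.H25Y.scalar_of_comm (g.irr c) hcomm
  have htr : LinearMap.trace K (Fin (n c) → K) (pb (U c) (V c) ((2 : K) • h - 1 - A) - shf h (e c) (n c) • 1) = 0 := by
    have h6 := ((g.y_mem c hh).1).2
    rw [map_sub (pb (U c) (V c)) ((2 : K) • h - 1) A, sub_right_comm, map_sub, h6, (g.pb_mem c hA).2, sub_zero]
  have ht0 : t = shf h (e c) (n c) := by
    rw [ht, map_sub, map_smul, map_smul, LinearMap.trace_one, Module.finrank_fintype_fun_eq_card, Fintype.card_fin,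
      smul_eq_mul, smul_eq_mul, ← sub_mul] at htr
    rcases mul_eq_zero.1 htr with h6 | h6
    · exact sub_eq_zero.1 h6
    · exact absurd h6 (Nat.cast_ne_zero.2 (g.pos c).ne')
  rw [ht0, map_sub (pb (U c) (V c)) ((2 : K) • h - 1) A] at ht
  have h7 : pb (U c) (V c) A = pb (U c) (V c) ((2 : K) • h - 1) - shf h (e c) (n c) • 1 := by
    rw [← ht, sub_sub_cancel]
  exact g.mem_pr2.2 ⟨A, hA, hAb, h7⟩

/-- PROOF. As `Sit.gr`. -/
theorem gz {b c : B} (hgr : ∀ A ∈ brk J S, pb (U b) (V b) A = 0 ↔ pb (U c) (V c) A = 0) :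
    Gz (pr2 J S (U b) (V b) (U c) (V c)) (LcN J S (U b) (V b)) (LcN J S (U c) (V c)) (d b) (d c) := by
  refine
    { lie := ?_, fst := ?_, snd := ?_, left := ?_, right := ?_, inj := (g.ec b).inj, inj' := (g.ec c).inj,
      ne := (g.ec b).ne, ne' := (g.ec c).ne, cnj := ?_ }
  · rintro ⟨X, X'⟩ hp ⟨Y, Y'⟩ hq
    obtain ⟨A, hA, rfl, rfl⟩ := g.mem_pr2.1 hp
    obtain ⟨A', hA', rfl, rfl⟩ := g.mem_pr2.1 hq
    refine g.mem_pr2.2 ⟨A * A' - A' * A, brk_ad (brk_pre hA) (brk_pre hA'), ?_, ?_⟩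
    · exact g.pb_bracket b (brk_pre hA) (brk_pre hA')
    · exact g.pb_bracket c (brk_pre hA) (brk_pre hA')
  · intro X
    constructor
    · intro hX
      rw [← g.pb_brk b] at hX
      obtain ⟨A, hA, rfl⟩ := Submodule.mem_map.1 hX
      exact ⟨_, g.mem_pr2.2 ⟨A, hA, rfl, rfl⟩⟩
    · rintro ⟨X', hX⟩
      obtain ⟨A, hA, rfl, -⟩ := g.mem_pr2.1 hX
      exact g.pb_mem b hA
  · intro X'
    constructor
    · intro hX
      rw [← g.pb_brk c] at hX
      obtain ⟨A, hA, rfl⟩ := Submodule.mem_map.1 hX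
      exact ⟨_, g.mem_pr2.2 ⟨A, hA, rfl, rfl⟩⟩
    · rintro ⟨X, hX⟩
      obtain ⟨A, hA, -, rfl⟩ := g.mem_pr2.1 hX
      exact g.pb_mem c hA
  · intro X hX
    obtain ⟨A, hA, rfl, h2⟩ := g.mem_pr2.1 hX
    exact (hgr A hA).2 h2
  · intro X' hX
    obtain ⟨A, hA, h2, rfl⟩ := g.mem_pr2.1 hX
    exact (hgr A hA).1 h2
  · intro X X' hX
    obtain ⟨A, hA, rfl, rfl⟩ := g.mem_pr2.1 hX
    obtain ⟨⟨x', hx', hxx, -⟩, -, -⟩ := g.cl g.hx
    exact g.mem_pr2.2 ⟨x * A * x', g.conj_brk g.hx hxx hA, g.pb_conj b hxx, g.pb_conj c hxx⟩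

end Sit5

end Pool.Agent.H34V
end

-- from Lib.H34V.N05
section

/-!
# N05: no isomorphisms between different blocks (port of H34Z/M05)
-/

set_option autoImplicit false
set_option linter.unusedSectionVars false
namespace Pool.Agent.H34V
open Module Matrix Pool.Agent.H53Toric Pool.Agent.H76P Pool.Agent.H34Z
open Pool.Agent.H76U (cmp preL Lb Split4)
open Pool.Agent.H76Y (LcN)
open Pool.Agent.H76RM (zar_commute zlie_commute)

variable {ι : Type*} [Fintype ι] [DecidableEq ι] {K : Type*} [Field K] [CharZero K] [IsAlgClosed K]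
  {J u : Matrix ι ι K} {DD : Submodule K (Matrix ι ι K)} {S 𝓗 : Set (Matrix ι ι K)} {x : Matrix ι ι K}
  {B : Type*} [Fintype B] [DecidableEq B] {bar : B → B} {e : B → Matrix ι ι K} {n : B → ℕ}
  {U : ∀ b, Matrix ι (Fin (n b)) K} {V : ∀ b, Matrix (Fin (n b)) ι K} {d : ∀ b, Fin (n b) → K}

/-- The matrix of a bijective map has an inverse. -/
theorem mat_inv {k l : ℕ} {T : (Fin k → K) →ₗ[K] (Fin l → K)} (hb : Function.Bijective T) :
    k = l ∧ ∃ (M : Matrix (Fin l) (Fin k) K) (M' : Matrix (Fin k) (Fin l) K),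
      (∀ v, T v = M *ᵥ v) ∧ M * M' = 1 ∧ M' * M = 1 := by
  let E := LinearEquiv.ofBijective T hb
  refine ⟨?_, LinearMap.toMatrix' T, LinearMap.toMatrix' E.symm.toLinearMap, ?_, ?_, ?_⟩
  · have h1 := E.finrank_eq
    rwa [Module.finrank_fintype_fun_eq_card, Module.finrank_fintype_fun_eq_card, Fintype.card_fin,
      Fintype.card_fin] at h1
  · intro v
    rw [← Matrix.toLin'_apply, Matrix.toLin'_toMatrix']
  · rw [← LinearMap.toMatrix'_comp, ← LinearMap.toMatrix'_id]
    congr 1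
    refine LinearMap.ext fun v => ?_
    exact E.apply_symm_apply v
  · rw [← LinearMap.toMatrix'_comp, ← LinearMap.toMatrix'_id]
    congr 1
    refine LinearMap.ext fun v => ?_
    exact E.symm_apply_apply v

namespace Sit5
variable (g : Sit5 J u DD S 𝓗 x bar e n U V d)
include g

/-- A matrix which commutes with all projectors is in `DD`. -/
theorem mem_DD {Z : Matrix ι ι K} (hZ : ∀ h ∈ 𝓗, Z * h = h * Z) : Z ∈ DD := by
  refine g.commt Z fun s hs => ?_
  have key : ∀ y ∈ (Submonoid.closure (par 𝓗) : Set (Matrix ι ι K)), y * Z = Z * y := by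
    intro y hy
    refine Submonoid.closure_induction (motive := fun y _ => y * Z = Z * y) ?_ ?_ ?_ hy
    · rintro _ ⟨h, hh, t, ht, rfl⟩
      rw [add_mul, mul_add, one_mul, mul_one, smul_mul_assoc, mul_smul_comm, hZ h hh]
    · rw [one_mul, mul_one]
    · intro a c _ _ ha hc
      rw [mul_assoc, hc, ← mul_assoc, ha, mul_assoc]
  exact (zar_commute key (g.gen hs)).symm

/-- The block of `2 h - 1` minus its mean value. -/
theorem pb_shf (b : B) (h : Matrix ι ι K) :
    pb (U b) (V b) ((2 : K) • h - 1) - shf h (e b) (n b) • 1 =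
      phi ((2 : K) • (V b * h * U b - (((h * e b).rank : K) / (n b : K)) • 1)) := by
  rw [map_sub, map_smul, pb_one (g.VU b), pb_apply, map_smul, map_sub, map_smul, map_one, shf]
  module

/-- PROOF. The argument of `Sit.no_iso` if all ranks are equal; otherwise `twi` and `Gz.perm`. -/
theorem no_iso {b c : B} (hbc : c ≠ b) (hbc' : c ≠ bar b) (hb2 : 2 ≤ n b)
    (hgr : ∀ A ∈ brk J S, pb (U b) (V b) A = 0 ↔ pb (U c) (V c) A = 0)
    {T : (Fin (n b) → K) →ₗ[K] (Fin (n c) → K)} (hb : Function.Bijective T)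
    (hT : ∀ p ∈ pr2 J S (U b) (V b) (U c) (V c), ∀ v, T (p.1 v) = p.2 (T v)) : False := by
  obtain ⟨hn, M, M', hM, hMM, hMM'⟩ := mat_inv hb
  rcases g.twi b c hbc hbc' hb2 hn.symm with hall | hno
  swap
  · have : Nonempty (Fin (n c)) := ⟨⟨0, g.pos c⟩⟩
    obtain ⟨π, hπ⟩ := (g.gz hgr).perm (g.irr c) hb hT
    obtain ⟨k, k', hk⟩ := hno π
    exact hk (hπ k k')
  have hcomm : ∀ h ∈ 𝓗, M * (V b * h * U b) = V c * h * U c * M := by
    intro h hh
    have h3 := hT _ (g.y_pair hgr hh)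
    simp only [g.pb_shf] at h3
    have h4 : M * (V b * h * U b - (((h * e b).rank : K) / (n b : K)) • 1) =
        (V c * h * U c - (((h * e c).rank : K) / (n c : K)) • 1) * M := by
      refine smul_right_injective _ (two_ne_zero (α := K)) ?_
      change (2 : K) • _ = (2 : K) • _
      rw [← Matrix.mul_smul, ← Matrix.smul_mul]
      refine Matrix.toLin'.injective (LinearMap.ext fun v => ?_)
      have h5 := h3 v
      simp only [phi_apply, hM] at h5
      rw [Matrix.toLin'_apply, Matrix.toLin'_apply, ← Matrix.mulVec_mulVec v M, h5, Matrix.mulVec_mulVec]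
    have hn' : (n b : K) = (n c : K) := by rw [hn]
    rw [Matrix.mul_sub, Matrix.mul_smul, Matrix.mul_one, Matrix.sub_mul, Matrix.smul_mul, Matrix.one_mul,
      hall h hh, hn'] at h4
    exact sub_left_injective h4
  have hZ : U c * M * V b ∈ DD := by
    refine g.mem_DD fun h hh => ?_
    have h1 : V b * h = V b * h * U b * V b := by
      have h3 := g.zD (g.hz h hh) (g.spl.mem b)
      calc V b * h = V b * e b * h := by rw [g.Ve b]
        _ = V b * (e b * h) := by rw [Matrix.mul_assoc]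
        _ = V b * (h * (U b * V b)) := by rw [← h3, g.UV b]
        _ = V b * h * U b * V b := by simp only [Matrix.mul_assoc]
    have h2 : h * U c = U c * (V c * h * U c) := by
      have h3 := g.zD (g.hz h hh) (g.spl.mem c)
      calc h * U c = h * (e c * U c) := by rw [g.eU c]
        _ = h * e c * U c := by rw [Matrix.mul_assoc]
        _ = U c * V c * h * U c := by rw [h3, g.UV c]
        _ = U c * (V c * h * U c) := by simp only [Matrix.mul_assoc]
    calc U c * M * V b * h = U c * M * (V b * h) := by rw [Matrix.mul_assoc]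
      _ = U c * M * (V b * h * U b * V b) := by rw [← h1]
      _ = U c * (M * (V b * h * U b)) * V b := by simp only [Matrix.mul_assoc]
      _ = U c * (V c * h * U c * M) * V b := by rw [hcomm h hh]
      _ = U c * (V c * h * U c) * M * V b := by simp only [Matrix.mul_assoc]
      _ = h * U c * M * V b := by rw [← h2]
      _ = h * (U c * M * V b) := by simp only [Matrix.mul_assoc]
  have h0 := g.spl.orth c b hbc _ hZ
  have h1 : e c * (U c * M * V b) * e b = U c * M * V b := by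
    calc e c * (U c * M * V b) * e b = e c * U c * M * (V b * e b) := by simp only [Matrix.mul_assoc]
      _ = U c * M * V b := by rw [g.eU c, g.Ve b]
  rw [h1] at h0
  have h2 : M = 0 := by
    calc M = V c * U c * M * (V b * U b) := by rw [g.VU c, g.VU b, Matrix.one_mul, Matrix.mul_one]
      _ = V c * (U c * M * V b) * U b := by simp only [Matrix.mul_assoc]
      _ = 0 := by rw [h0, Matrix.mul_zero, Matrix.zero_mul]
  rw [h2, Matrix.mul_zero] at hMM'
  have h3 := congrFun (congrFun hMM' ⟨0, g.pos b⟩) ⟨0, g.pos b⟩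
  rw [Matrix.one_apply_eq] at h3
  exact zero_ne_one h3

/-- The matrix identity for a dual isomorphism. -/
theorem dual_mat {b c : B} (hgr : ∀ A ∈ brk J S, pb (U b) (V b) A = 0 ↔ pb (U c) (V c) A = 0)
    {T : (Fin (n b) → K) →ₗ[K] (Fin (n c) → K)} {M : Matrix (Fin (n c)) (Fin (n b)) K} (hM : ∀ v, T v = M *ᵥ v)
    (hT : ∀ p ∈ pr2 J S (U b) (V b) (U c) (V c), ∀ v, T (adjE (1 : Matrix (Fin (n b)) (Fin (n b)) K) p.1 v) = -p.2 (T v))
    {h : Matrix ι ι K} (hh : h ∈ 𝓗) :
    M * (V b * h * U b)ᵀ = (1 - V c * h * U c) * M +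
      (((h * e b).rank : K) / (n b : K) + ((h * e c).rank : K) / (n c : K) - 1) • M := by
  have h3 := hT _ (g.y_pair hgr hh)
  simp only [g.pb_shf] at h3
  have h4 : M * (V b * h * U b - (((h * e b).rank : K) / (n b : K)) • 1)ᵀ =
      -((V c * h * U c - (((h * e c).rank : K) / (n c : K)) • 1) * M) := by
    refine smul_right_injective _ (two_ne_zero (α := K)) ?_
    change (2 : K) • _ = (2 : K) • _
    rw [← Matrix.mul_smul, ← Matrix.transpose_smul, smul_neg, ← Matrix.smul_mul]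
    refine Matrix.toLin'.injective (LinearMap.ext fun v => ?_)
    have h5 := h3 v
    simp only [adjE_phi, phi_apply, hM, inv_one, Matrix.one_mul, Matrix.mul_one] at h5
    rw [Matrix.toLin'_apply, Matrix.toLin'_apply, ← Matrix.mulVec_mulVec v M, Matrix.neg_mulVec, h5, Matrix.mulVec_mulVec]
  rw [Matrix.transpose_sub, Matrix.transpose_smul, Matrix.transpose_one, Matrix.mul_sub, Matrix.mul_smul, Matrix.mul_one,
    Matrix.sub_mul, Matrix.smul_mul, Matrix.one_mul, sub_eq_iff_eq_add] at h4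
  rw [h4, Matrix.sub_mul, Matrix.one_mul]
  module

/-- PROOF. The argument of `Sit.no_dual` if all sums of ranks are `n b`; otherwise `twd` and `Gz.perm_dual`. -/
theorem no_dual {b c : B} (hbc : c ≠ b) (hbc' : c ≠ bar b) (hb2 : 2 ≤ n b)
    (hgr : ∀ A ∈ brk J S, pb (U b) (V b) A = 0 ↔ pb (U c) (V c) A = 0)
    {T : (Fin (n b) → K) →ₗ[K] (Fin (n c) → K)} (hb : Function.Bijective T)
    (hT : ∀ p ∈ pr2 J S (U b) (V b) (U c) (V c), ∀ v, T (adjE (1 : Matrix (Fin (n b)) (Fin (n b)) K) p.1 v) = -p.2 (T v)) :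
    False := by
  obtain ⟨hn, M, M', hM, hMM, hMM'⟩ := mat_inv hb
  rcases g.twd b c hbc hbc' hb2 hn.symm with hall | hno
  swap
  · have : Nonempty (Fin (n c)) := ⟨⟨0, g.pos c⟩⟩
    obtain ⟨π, hπ⟩ := (g.gz hgr).perm_dual (g.irr c) hb hT
    obtain ⟨k, k', hk⟩ := hno π
    exact hk (hπ k k')
  have hcomm : ∀ h ∈ 𝓗, M * (V b * h * U b)ᵀ = M - V c * h * U c * M := by
    intro h hh
    have h3 := g.dual_mat hgr hM hT hh
    have h4 : ((h * e b).rank : K) / (n b : K) + ((h * e c).rank : K) / (n c : K) - 1 = 0 := by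
      have hn0 : (n b : K) ≠ 0 := Nat.cast_ne_zero.2 (g.pos b).ne'
      have hn' : (n c : K) = (n b : K) := by rw [hn]
      rw [hn', ← add_div, sub_eq_zero, div_eq_one_iff_eq hn0]
      exact_mod_cast hall h hh
    rw [h3, h4, zero_smul, add_zero, Matrix.sub_mul, Matrix.one_mul]
  have hcommy : ∀ h ∈ 𝓗, U c * M * (U b)ᵀ * (J * u) * ((2 : K) • h - 1) = ((2 : K) • h - 1) * (U c * M * (U b)ᵀ * (J * u)) := by
    intro h hh
    have h2 : M * (V b * ((2 : K) • h - 1) * U b)ᵀ = -(V c * ((2 : K) • h - 1) * U c * M) := by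
      have h3 := hcomm h hh
      have h4 : V b * ((2 : K) • h - 1) * U b = (2 : K) • (V b * h * U b) - 1 := by
        rw [Matrix.mul_sub, Matrix.sub_mul, Matrix.mul_smul, Matrix.smul_mul, Matrix.mul_one, g.VU b]
      have h5 : V c * ((2 : K) • h - 1) * U c = (2 : K) • (V c * h * U c) - 1 := by
        rw [Matrix.mul_sub, Matrix.sub_mul, Matrix.mul_smul, Matrix.smul_mul, Matrix.mul_one, g.VU c]
      rw [h4, h5, Matrix.transpose_sub, Matrix.transpose_smul, Matrix.transpose_one, Matrix.mul_sub, Matrix.mul_smul, h3,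
        Matrix.mul_one, Matrix.sub_mul, Matrix.smul_mul, Matrix.one_mul]
      module
    generalize hy : (2 : K) • h - 1 = y
    have hcy : ∀ a, y * e a = e a * y := fun a => by
      rw [← hy, sub_mul, mul_sub, one_mul, mul_one, smul_mul_assoc, mul_smul_comm, g.zD (g.hz h hh) (g.spl.mem a)]
    have hyU : ∀ a, y * U a = U a * (V a * y * U a) := fun a => by
      calc y * U a = y * (e a * U a) := by rw [g.eU a]
        _ = y * e a * U a := by rw [Matrix.mul_assoc]
        _ = U a * V a * y * U a := by rw [hcy a, g.UV a]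
        _ = U a * (V a * y * U a) := by simp only [Matrix.mul_assoc]
    have h1 := g.yskew hh
    rw [hy] at h1 h2
    have h3 : J * u * y = -(yᵀ * (J * u)) := (neg_eq_of_add_eq_zero_right h1).symm
    have h4 : (U b)ᵀ * (J * u) * y = -((V b * y * U b)ᵀ * (U b)ᵀ * (J * u)) := by
      rw [Matrix.mul_assoc, h3, Matrix.mul_neg, ← Matrix.mul_assoc, ← Matrix.transpose_mul, hyU b, Matrix.transpose_mul]
    calc U c * M * (U b)ᵀ * (J * u) * y = U c * M * ((U b)ᵀ * (J * u) * y) := by simp only [Matrix.mul_assoc]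
      _ = -(U c * (M * (V b * y * U b)ᵀ) * ((U b)ᵀ * (J * u))) := by rw [h4, Matrix.mul_neg]; simp only [Matrix.mul_assoc]
      _ = U c * (V c * y * U c) * (M * ((U b)ᵀ * (J * u))) := by
        rw [h2, Matrix.mul_neg, Matrix.neg_mul, neg_neg]; simp only [Matrix.mul_assoc]
      _ = y * (U c * M * (U b)ᵀ * (J * u)) := by rw [← hyU c]; simp only [Matrix.mul_assoc]
  have hZ : U c * M * (U b)ᵀ * (J * u) ∈ DD := by
    refine g.mem_DD fun h hh => ?_
    have h1 := hcommy h hh
    rw [mul_sub, sub_mul, mul_one, one_mul, mul_smul_comm, smul_mul_assoc] at h1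
    exact smul_right_injective _ (two_ne_zero (α := K)) (sub_left_injective h1)
  have h0 := g.spl.orth c (bar b) hbc' _ hZ
  have h3 : (U b)ᵀ * (J * u) * e (bar b) = (U b)ᵀ * (J * u) := by
    rw [Matrix.mul_assoc, ← g.spl.adj b, ← Matrix.mul_assoc, ← Matrix.transpose_mul, g.eU b]
  have h1 : e c * (U c * M * (U b)ᵀ * (J * u)) * e (bar b) = U c * M * (U b)ᵀ * (J * u) := by
    calc e c * (U c * M * (U b)ᵀ * (J * u)) * e (bar b) = e c * U c * M * ((U b)ᵀ * (J * u) * e (bar b)) := by simp only [Matrix.mul_assoc]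
      _ = U c * M * (U b)ᵀ * (J * u) := by rw [h3, g.eU c]; simp only [Matrix.mul_assoc]
  rw [h1] at h0
  have h2 : M = 0 := by
    calc M = V c * U c * M * (V b * U b)ᵀ := by rw [g.VU c, g.VU b, Matrix.transpose_one, Matrix.one_mul, Matrix.mul_one]
      _ = V c * (U c * M * (U b)ᵀ * (J * u)) * (J * u)⁻¹ * (V b)ᵀ := by
        have h5 : (J * u) * (J * u)⁻¹ = 1 := Matrix.mul_nonsing_inv _ g.det'
        rw [Matrix.transpose_mul]
        calc V c * U c * M * ((U b)ᵀ * (V b)ᵀ) = V c * U c * M * (U b)ᵀ * (1 : Matrix ι ι K) * (V b)ᵀ := by rw [Matrix.mul_one]; simp only [Matrix.mul_assoc]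
          _ = V c * U c * M * (U b)ᵀ * ((J * u) * (J * u)⁻¹) * (V b)ᵀ := by rw [h5]
          _ = _ := by simp only [Matrix.mul_assoc]
      _ = 0 := by rw [h0, Matrix.mul_zero, Matrix.zero_mul, Matrix.zero_mul]
  rw [h2, Matrix.mul_zero] at hMM'
  have h5 := congrFun (congrFun hMM' ⟨0, g.pos b⟩) ⟨0, g.pos b⟩
  rw [Matrix.one_apply_eq] at h5
  exact zero_ne_one h5

end Sit5

end Pool.Agent.H34V
end

-- from Lib.H34V.N06
section

/-!
# N06: different blocks are independent
-/

set_option autoImplicit false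
set_option linter.unusedSectionVars false
namespace Pool.Agent.H34V
open Module Matrix Pool.Agent.H53Toric Pool.Agent.H76P Pool.Agent.H34Z
open Pool.Agent.H76U (cmp preL Lb Split4)
open Pool.Agent.H76Y (LcN)
open Pool.Agent.H76RM (zar_commute zlie_commute)

section
variable {K : Type*} [Field K] [CharZero K]

/-- A scalar idempotent. -/
theorem sc_idem {k : ℕ} (hk : 0 < k) {a : K}
    (h : (a • (1 : Matrix (Fin k) (Fin k) K)) * (a • (1 : Matrix (Fin k) (Fin k) K)) = a • 1) : a = 0 ∨ a = 1 := by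
  have h1 := congrFun (congrFun h ⟨0, hk⟩) ⟨0, hk⟩
  rw [smul_mul_smul_comm, Matrix.one_mul, Matrix.smul_apply, Matrix.smul_apply, Matrix.one_apply_eq, smul_eq_mul,
    smul_eq_mul, mul_one, mul_one] at h1
  have h2 : a * (a - 1) = 0 := by rw [mul_sub, h1, mul_one, sub_self]
  rcases mul_eq_zero.1 h2 with h3 | h3
  · exact Or.inl h3
  · exact Or.inr (sub_eq_zero.1 h3)

/-- An idempotent with trace zero. -/
theorem idem_zero {k : ℕ} {P : Module.End K (Fin k → K)} (hP : P * P = P) (ht : LinearMap.trace K (Fin k → K) P = 0) :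
    P = 0 := by
  rw [trace_idem hP, Nat.cast_eq_zero] at ht
  exact LinearMap.range_eq_bot.1 (Submodule.finrank_eq_zero.1 ht)

end

variable {ι : Type*} [Fintype ι] [DecidableEq ι] {K : Type*} [Field K] [CharZero K] [IsAlgClosed K]
  {J u : Matrix ι ι K} {DD : Submodule K (Matrix ι ι K)} {S 𝓗 : Set (Matrix ι ι K)} {x : Matrix ι ι K}
  {B : Type*} [Fintype B] [DecidableEq B] {bar : B → B} {e : B → Matrix ι ι K} {n : B → ℕ}
  {U : ∀ b, Matrix ι (Fin (n b)) K} {V : ∀ b, Matrix (Fin (n b)) ι K} {d : ∀ b, Fin (n b) → K}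

namespace Sit5
variable (g : Sit5 J u DD S 𝓗 x bar e n U V d)
include g

/-- The block of a projector is trivial if the rank is. -/
theorem blk_triv (b : B) {h : Matrix ι ι K} (hh : h ∈ 𝓗) (hr : (h * e b).rank = 0 ∨ (h * e b).rank = n b) :
    pb (U b) (V b) ((2 : K) • h - 1) - shf h (e b) (n b) • 1 = 0 := by
  obtain ⟨h1, h2, -⟩ := g.h_idem b hh
  have hn0 : (n b : K) ≠ 0 := Nat.cast_ne_zero.2 (g.pos b).ne'
  have h3 : pb (U b) (V b) ((2 : K) • h - 1) = (2 : K) • pb (U b) (V b) h - 1 := by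
    rw [map_sub, map_smul, pb_one (g.VU b)]
  rcases hr with hr | hr
  · rw [hr, Nat.cast_zero] at h2
    rw [h3, idem_zero h1 h2, smul_zero, zero_sub, shf, hr, Nat.cast_zero, mul_zero, zero_div, zero_sub]
    refine LinearMap.ext fun v => ?_
    simp
  · have h4 : (1 - pb (U b) (V b) h) * (1 - pb (U b) (V b) h) = 1 - pb (U b) (V b) h := by
      rw [sub_mul, one_mul, mul_sub, mul_one, h1, sub_self, sub_zero]
    have h5 : LinearMap.trace K (Fin (n b) → K) (1 - pb (U b) (V b) h) = 0 := by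
      rw [map_sub, h2, LinearMap.trace_one, Module.finrank_fintype_fun_eq_card, Fintype.card_fin, hr, sub_self]
    have h6 : pb (U b) (V b) h = 1 := (sub_eq_zero.1 (idem_zero h4 h5)).symm
    have h7 : (2 : K) * (n b : K) / (n b : K) - 1 = 1 := by
      rw [mul_div_assoc, div_self hn0]
      ring
    rw [h3, h6, shf, hr, h7, one_smul, two_smul]
    abel

/-- Conversely. -/
theorem blk_triv' (b : B) {h : Matrix ι ι K} (hh : h ∈ 𝓗)
    (hr : pb (U b) (V b) ((2 : K) • h - 1) - shf h (e b) (n b) • 1 = 0) :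
    (h * e b).rank = 0 ∨ (h * e b).rank = n b := by
  have hn0 : (n b : K) ≠ 0 := Nat.cast_ne_zero.2 (g.pos b).ne'
  rw [g.pb_shf] at hr
  have h1 : V b * h * U b - (((h * e b).rank : K) / (n b : K)) • 1 = 0 := by
    have h2 : phi ((2 : K) • (V b * h * U b - (((h * e b).rank : K) / (n b : K)) • 1)) = phi 0 := by
      rw [hr, map_zero]
    exact (smul_eq_zero.1 ((phi (ι := Fin (n b)) (K := K)).injective h2)).resolve_left two_ne_zero
  have h3 : V b * h * U b * (V b * h * U b) = V b * h * U b := by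
    obtain ⟨h4, -, -⟩ := g.h_idem b hh
    rw [pb_apply, ← map_mul] at h4
    exact (phi (ι := Fin (n b)) (K := K)).injective h4
  rw [sub_eq_zero.1 h1] at h3
  rcases sc_idem (g.pos b) h3 with h4 | h4
  · left
    rcases div_eq_zero_iff.1 h4 with h5 | h5
    · exact Nat.cast_eq_zero.1 h5
    · exact absurd h5 hn0
  · right
    exact Nat.cast_injective ((div_eq_one_iff_eq hn0).1 h4)

/-- On a graph, both blocks of a projector are trivial or none. -/
theorem nt {b c : B} (hgr : ∀ A ∈ brk J S, pb (U b) (V b) A = 0 ↔ pb (U c) (V c) A = 0) {h : Matrix ι ι K}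
    (hh : h ∈ 𝓗) (hr : (h * e b).rank = 0 ∨ (h * e b).rank = n b) : (h * e c).rank = 0 ∨ (h * e c).rank = n c := by
  have h1 := g.y_pair hgr hh
  rw [g.blk_triv b hh hr] at h1
  exact g.blk_triv' c hh ((g.gz hgr).right _ h1)

/-- PROOF. `six_rel` and `g.six`. -/
theorem six_abs {b c : B} (hgr : ∀ A ∈ brk J S, pb (U b) (V b) A = 0 ↔ pb (U c) (V c) A = 0) (hb : bar b = b)
    (hc : bar c ≠ c) (hJ : ((U b)ᵀ * (J * u) * U b)ᵀ = (U b)ᵀ * (J * u) * U b) (h6 : n b = 6) (h4 : n c = 4) : False := by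
  have hLb := g.full b (by omega)
  have hLc := g.full c (by omega)
  rcases hLc with ⟨ht, -⟩ | ⟨ht, -⟩ | ⟨-, hLc, -⟩
  · exact hc ht
  · exact hc ht
  rcases hLb with ⟨-, π, hJs, hdet, hm, hL, -⟩ | ⟨-, π, hJs, hdet, hm, hne, hL, -, -⟩ | ⟨ht, -⟩
  · have h1 : (2 : K) • ((U b)ᵀ * (J * u) * U b) = 0 := by
      have h2 : (U b)ᵀ * (J * u) * U b = -((U b)ᵀ * (J * u) * U b) := hJ.symm.trans hJs
      rw [two_smul]
      exact eq_neg_iff_add_eq_zero.1 h2
    have h2 : (U b)ᵀ * (J * u) * U b = 0 := (smul_eq_zero.1 h1).resolve_left two_ne_zero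
    have : Nonempty (Fin (n b)) := ⟨⟨0, g.pos b⟩⟩
    rw [h2, Matrix.det_zero] at hdet
    exact not_isUnit_zero hdet
  · obtain ⟨f, f', h1, h2⟩ := six_rel (g.gz hgr) hJs hdet hm hne hL (by rw [Fintype.card_fin, h6]) hLc
      (by rw [Fintype.card_fin, h4])
    obtain ⟨i, j, h3⟩ := g.six b c hb hc hJ h6 h4 f f' h1
    exact h3 (h2 i j)
  · exact ht hb

/-- PROOF. Rank one: trivial.  `two b c`; the second alternative is impossible by `gz`, `Gz.iso_all` for a projector which is not trivial on `c` (`g.hh`), `no_iso`, `no_dual`, `six_abs`. -/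
theorem pair {b c : B} (hbc : c ≠ b) (hbc' : c ≠ bar b) {X : Module.End K (Fin (n b) → K)}
    (hX : X ∈ LcN J S (U b) (V b)) : ∃ A ∈ brk J S, pb (U b) (V b) A = X ∧ pb (U c) (V c) A = 0 := by
  have hpb := g.pos b
  have hpc := g.pos c
  by_cases hb2 : 2 ≤ n b
  swap
  · refine ⟨0, Submodule.zero_mem _, ?_, map_zero _⟩
    rw [map_zero, tr_one (by omega) hX.2]
  by_cases hc2 : 2 ≤ n c
  swap
  · rw [← g.pb_brk b] at hX
    obtain ⟨A, hA, rfl⟩ := Submodule.mem_map.1 hX
    exact ⟨A, hA, rfl, tr_one (by omega) (g.pb_mem c hA).2⟩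
  rcases g.two hb2 hc2 with h1 | h1
  · exact h1 X hX
  exfalso
  have hgr' : ∀ A ∈ brk J S, pb (U c) (V c) A = 0 ↔ pb (U b) (V b) A = 0 := fun A hA => (h1 A hA).symm
  obtain ⟨h, hh, hx, hr0, hr1⟩ := g.hh c hc2
  have hrb : ¬ ((h * e b).rank = 0 ∨ (h * e b).rank = n b) := by
    intro hr
    rcases g.nt h1 hh hr with h2 | h2
    · exact hr0 h2
    · exact hr1 h2
  rw [not_or] at hrb
  obtain ⟨ε, hε, hv⟩ := g.y_diag b hh hx
  obtain ⟨ε', hε', hv'⟩ := g.y_diag c hh hx
  have hs := g.y_sgn b hh hε hv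
  have hs' := g.y_sgn c hh hε' hv'
  have hpair := g.y_pair h1 hh
  have hdgc : ∀ {k : ℕ} (f : Fin k → K) (t : K), (dg f - t • (1 : Module.End K (Fin k → K))) = dg (fun i => f i - t) := by
    intro k f t
    refine LinearMap.ext fun v => funext fun a => ?_
    rw [LinearMap.sub_apply, LinearMap.smul_apply, Pi.sub_apply, Pi.smul_apply, dg_apply, dg_apply,
      Module.End.one_apply, smul_eq_mul, sub_mul]
  rw [hε, hε', hdgc, hdgc] at hpair
  have hne : Nonempty (Fin (n c)) := ⟨⟨0, g.pos c⟩⟩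
  rcases Gz.iso_all (g.gz h1) (g.full b hb2) (g.full c hc2) (g.irr b) (g.irr c) hpair hv hv'
    ⟨hs.1 hrb.1, hs.2 hrb.2⟩ ⟨hs'.1 hr0, hs'.2 hr1⟩
    (fun t1 t2 t3 t4 t5 => by
      rw [Fintype.card_fin] at t4 t5
      exact (g.six_abs h1 t1 t2 t3 t4 t5).elim)
    (fun t1 t2 t3 t4 t5 => by
      rw [Fintype.card_fin] at t4 t5
      exact (g.six_abs hgr' t2 t1 t3 t5 t4).elim) with ⟨T, hT, hT2⟩ | ⟨T, hT, hT2⟩
  · exact g.no_iso hbc hbc' hb2 h1 hT hT2
  · exact g.no_dual hbc hbc' hb2 h1 hT hT2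

/-- PROOF. `ribet` (R01), `FV.perfect`, `pair`. -/
theorem indep (b : B) {X : Module.End K (Fin (n b) → K)} (hX : X ∈ LcN J S (U b) (V b)) :
    ∃ A ∈ brk J S, pb (U b) (V b) A = X ∧ ∀ c, c ≠ b → c ≠ bar b → pb (U c) (V c) A = 0 := by
  have hpb := g.pos b
  by_cases hb2 : 2 ≤ n b
  swap
  · refine ⟨0, Submodule.zero_mem _, ?_, fun c _ _ => map_zero _⟩
    rw [map_zero, tr_one (by omega) hX.2]
  have h1 := ribet (𝔤 := brk J S) (fun A hA A' hA' => brk_ad (brk_pre hA) (brk_pre hA')) (p := pb (U b) (V b))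
    (fun A hA A' hA' => g.pb_bracket b (brk_pre hA) (brk_pre hA')) (q := fun c => pb (U c) (V c))
    (fun c A hA A' hA' => g.pb_bracket c (brk_pre hA) (brk_pre hA')) (g.pb_brk b) (g.full b hb2).perfect
    (Finset.univ.filter fun c => c ≠ b ∧ c ≠ bar b) (fun c hc Y hY => by
      rw [Finset.mem_filter] at hc
      exact g.pair hc.2.1 hc.2.2 hY) X hX
  obtain ⟨A, hA, hAX, hA0⟩ := h1
  exact ⟨A, hA, hAX, fun c hc hc' => hA0 c (Finset.mem_filter.2 ⟨Finset.mem_univ _, hc, hc'⟩)⟩

end Sit5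

end Pool.Agent.H34V
end

-- from Lib.H34V.P02
section

/-!
# P02: the situation at one prime, from the components (version 5)
-/

set_option autoImplicit false
set_option linter.unusedSectionVars false
namespace Pool.Agent.H34V
open Module Matrix Polynomial Pool.Agent.H53Toric
open Pool.Agent.H25U
open Pool.Agent.H76P hiding Hs Yo pt pt_apply wc IsWt
open Pool.Agent.H76Q
open Pool.Agent.H76Y hiding CmpN TM LocN GoodN Cls Core3 PartN MumN
open Pool.Agent.H76Z hiding LocN GoodN Cls Core3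
open Pool.Agent.H34Z
open Pool.Agent.H45U
open Pool.Agent.H76U (cmp preL Lb Split4 IsSplitting)
open Pool.Agent.H76RM (spanK)

variable {ι : Type*} [Fintype ι] [DecidableEq ι]

section
variable {K : Type*} [Field K] [CharZero K]

/-- The block of an idempotent of rank zero or of full rank. -/
theorem triv_blk {n : ℕ} {U : Matrix ι (Fin n) K} {V : Matrix (Fin n) ι K} {e h : Matrix ι ι K} (hUV : e = U * V)
    (hVU : V * U = 1) (hc : h * e = e * h) (hh : h * h = h) (hr : (h * e).rank = 0 ∨ (h * e).rank = n) :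
    V * h * U = 0 ∨ V * h * U = 1 := by
  have h1 : cmp U V h * cmp U V h = cmp U V h := by
    rw [← Pool.Agent.H76U.cmp_mul hUV hVU hc, hh]
  have h3 : phi (cmp U V h) * phi (cmp U V h) = phi (cmp U V h) := by
    rw [← map_mul, h1]
  have h5 : (cmp U V h).rank = (h * e).rank := Pool.Agent.H76U.rank_cmp hUV hVU hc
  have h6 : LinearMap.trace K (Fin n → K) (phi (cmp U V h)) = ((h * e).rank : K) := by
    rw [trace_idem h3, ← h5]
    rfl
  rcases hr with hr | hr
  · left
    rw [hr, Nat.cast_zero] at h6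
    have h7 := idem_zero h3 h6
    apply (phi (ι := Fin n) (K := K)).injective
    rw [map_zero]
    exact h7
  · right
    have h4 : (1 - phi (cmp U V h)) * (1 - phi (cmp U V h)) = 1 - phi (cmp U V h) := by
      rw [sub_mul, one_mul, mul_sub, mul_one, h3, sub_self, sub_zero]
    have h7 : LinearMap.trace K (Fin n → K) (1 - phi (cmp U V h)) = 0 := by
      rw [map_sub, h6, LinearMap.trace_one, Module.finrank_fintype_fun_eq_card, Fintype.card_fin, hr, sub_self]
    have h8 : phi (cmp U V h) = 1 := (sub_eq_zero.1 (idem_zero h4 h7)).symm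
    apply (phi (ι := Fin n) (K := K)).injective
    rw [map_one]
    exact h8

/-- Some projector which commutes with the Frobenius element is not trivial on the component. -/
theorem exists_nt {L : Type*} [Field L] [Algebra L K] {G : Type*} [Group G]
    {ρ : G →* Matrix.GeneralLinearGroup ι L} {x : Matrix ι ι K} {n : ℕ} {U : Matrix ι (Fin n) K}
    {V : Matrix (Fin n) ι K} {e : Matrix ι ι K} {d : Fin n → K} (hUV : e = U * V) (hVU : V * U = 1) (hec : EC x U d)
    (hxe : e * x = x * e) (hn : 2 ≤ n) (ht : ∀ k l : Fin n, ∀ N : ℕ, N ≠ 0 → d k ^ N = d l ^ N → k = l)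
    (hhe : ∀ h ∈ properProj K ρ, h * e = e * h)
    (tor : ∃ N : ℕ, N ≠ 0 ∧ x ^ N ∈ zar (Submonoid.closure
      {y | ∃ h ∈ properProj K ρ, h * x = x * h ∧ ∃ t : K, t ≠ 0 ∧ y = 1 + (t - 1) • h} : Set (Matrix ι ι K))) :
    ∃ h ∈ properProj K ρ, h * x = x * h ∧ (h * e).rank ≠ 0 ∧ (h * e).rank ≠ n := by
  by_contra hcon
  push Not at hcon
  obtain ⟨N, hN0, hN⟩ := tor
  have htriv : ∀ h ∈ properProj K ρ, h * x = x * h → V * h * U = 0 ∨ V * h * U = 1 := fun h hh hx =>
    triv_blk hUV hVU (hhe h hh) hh.1.1 (by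
      by_cases h0 : (h * e).rank = 0
      · exact Or.inl h0
      · exact Or.inr (hcon h hh hx h0))
  have hcomm : ∀ Z : Matrix (Fin n) (Fin n) K, x ^ N * (U * Z * V) = U * Z * V * x ^ N := by
    intro Z
    refine Pool.Agent.H76RM.zar_commute (fun y hy => ?_) hN
    refine Submonoid.closure_induction (motive := fun y _ => y * (U * Z * V) = U * Z * V * y) ?_ ?_ ?_ hy
    · rintro _ ⟨h, hh, hx, t, -, rfl⟩
      obtain ⟨P, hP⟩ : ∃ P, P = V * h * U := ⟨_, rfl⟩
      have hU : h * U = U * P := by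
        calc h * U = h * (e * U) := by rw [hUV, Matrix.mul_assoc U V U, hVU, Matrix.mul_one]
          _ = e * h * U := by rw [← Matrix.mul_assoc, hhe h hh]
          _ = U * P := by rw [hUV, hP]; simp only [Matrix.mul_assoc]
      have hV : V * h = P * V := by
        calc V * h = (V * e) * h := by rw [hUV, ← Matrix.mul_assoc, hVU, Matrix.one_mul]
          _ = V * (h * e) := by rw [Matrix.mul_assoc, ← hhe h hh]
          _ = P * V := by rw [hUV, hP]; simp only [Matrix.mul_assoc]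
      have h1 : h * (U * Z * V) = U * Z * V * h := by
        calc h * (U * Z * V) = (h * U) * Z * V := by simp only [Matrix.mul_assoc]
          _ = U * (P * Z) * V := by rw [hU]; simp only [Matrix.mul_assoc]
          _ = U * (Z * P) * V := by
            rcases htriv h hh hx with h2 | h2
            · rw [hP, h2, Matrix.zero_mul Z, Matrix.mul_zero Z]
            · rw [hP, h2, Matrix.one_mul Z, Matrix.mul_one Z]
          _ = U * Z * (P * V) := by simp only [Matrix.mul_assoc]
          _ = U * Z * V * h := by rw [← hV]; simp only [Matrix.mul_assoc]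
      rw [add_mul, mul_add, one_mul, mul_one, smul_mul_assoc, mul_smul_comm, h1]
    · rw [one_mul, mul_one]
    · intro a c _ _ ha hc
      rw [mul_assoc, hc, ← mul_assoc, ha, mul_assoc]
  have hpow : ∀ N : ℕ, x ^ N * U = U * Matrix.diagonal (fun k => d k ^ N) := by
    intro N
    induction N with
    | zero =>
      have h1 : Matrix.diagonal (fun k => d k ^ 0) = (1 : Matrix (Fin n) (Fin n) K) := by
        rw [← Matrix.diagonal_one]
        exact congrArg Matrix.diagonal (funext fun k => pow_zero (d k))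
      rw [pow_zero, Matrix.one_mul, h1, Matrix.mul_one]
    | succ N ih =>
      rw [pow_succ x, Matrix.mul_assoc, hec.eig, ← Matrix.mul_assoc, ih, Matrix.mul_assoc, Matrix.diagonal_mul_diagonal]
      exact congrArg (fun f => U * Matrix.diagonal f) (funext fun k => (pow_succ (d k) N).symm)
  have hxN : x ^ N * e = e * x ^ N := by
    have h1 : Commute (x ^ N) e := (Commute.pow_left (show Commute x e from hxe.symm) N)
    exact h1
  have hpowV : V * x ^ N = Matrix.diagonal (fun k => d k ^ N) * V := by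
    calc V * x ^ N = V * e * x ^ N := by rw [hUV, ← Matrix.mul_assoc, hVU, Matrix.one_mul]
      _ = V * (x ^ N * U) * V := by rw [Matrix.mul_assoc, ← hxN, hUV]; simp only [Matrix.mul_assoc]
      _ = (V * U) * Matrix.diagonal (fun k => d k ^ N) * V := by rw [hpow]; simp only [Matrix.mul_assoc]
      _ = _ := by rw [hVU, Matrix.one_mul]
  have hdd : ∀ k l : Fin n, d k ^ N = d l ^ N := by
    intro k l
    have h1 := hcomm (Matrix.single k l 1)
    have h2 : Matrix.diagonal (fun k => d k ^ N) * Matrix.single k l (1 : K) =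
        Matrix.single k l (1 : K) * Matrix.diagonal (fun k => d k ^ N) := by
      have h3 : V * (x ^ N * (U * Matrix.single k l (1 : K) * V)) * U =
          V * (U * Matrix.single k l (1 : K) * V * x ^ N) * U := by rw [h1]
      have h4 : V * (x ^ N * (U * Matrix.single k l (1 : K) * V)) * U =
          (V * U) * (Matrix.diagonal (fun k => d k ^ N) * Matrix.single k l (1 : K)) * (V * U) := by
        calc V * (x ^ N * (U * Matrix.single k l (1 : K) * V)) * U =
            V * (x ^ N * U) * Matrix.single k l (1 : K) * V * U := by simp only [Matrix.mul_assoc]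
          _ = _ := by rw [hpow]; simp only [Matrix.mul_assoc]
      have h5 : V * (U * Matrix.single k l (1 : K) * V * x ^ N) * U =
          (V * U) * (Matrix.single k l (1 : K) * Matrix.diagonal (fun k => d k ^ N)) * (V * U) := by
        calc V * (U * Matrix.single k l (1 : K) * V * x ^ N) * U =
            V * U * Matrix.single k l (1 : K) * (V * x ^ N) * U := by simp only [Matrix.mul_assoc]
          _ = _ := by rw [hpowV]; simp only [Matrix.mul_assoc]
      rw [h4, h5, hVU, Matrix.one_mul, Matrix.one_mul, Matrix.mul_one, Matrix.mul_one] at h3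
      exact h3
    have h3 := congrFun (congrFun h2 k) l
    rw [Matrix.diagonal_mul, Matrix.mul_diagonal, Matrix.single_apply_same, mul_one, one_mul] at h3
    exact h3
  have h1 := ht ⟨0, by omega⟩ ⟨1, by omega⟩ N hN0 (hdd _ _)
  exact absurd (congrArg Fin.val h1) (by norm_num)

end

variable {L : Type*} [Field L] [CharZero L] {K : Type} [Field K] [CharZero K] [IsAlgClosed K] [Algebra L K]
  {G : Type*} [Group G]

/-- **The situation at one prime, version 5.** -/
theorem mk_sit5 [Nonempty ι] {ψ : Matrix ι ι ℚ}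
    (hψ : ψᵀ = -ψ) (hψ0 : ψ.det ≠ 0) (D : Subalgebra ℚ (Matrix ι ι ℚ))
    (ρ : G →* Matrix.GeneralLinearGroup ι L)
    (lin : ∀ σ : G, ∀ d ∈ D, (ρ σ).1 * d.map (algebraMap ℚ L) =
      d.map (algebraMap ℚ L) * (ρ σ).1)
    (sim : ∀ σ : G, ∃ c : L, (ρ σ).1ᵀ * ψ.map (algebraMap ℚ L) * (ρ σ).1 =
      c • ψ.map (algebraMap ℚ L))
    (semis : ∀ H : Subgroup G, H.FiniteIndex → ∀ W : Submodule K (ι → K),
      (∀ s ∈ img K ρ H, ∀ w ∈ W, s *ᵥ w ∈ W) →
      ∃ W' : Submodule K (ι → K), (∀ s ∈ img K ρ H, ∀ w ∈ W', s *ᵥ w ∈ W') ∧ IsCompl W W')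
    (commt : ∀ H : Subgroup G, H.FiniteIndex → ∀ y : Matrix ι ι K,
      (∀ s ∈ img K ρ H, y * s = s * y) → y ∈ spanK K D)
    (gen : ∀ g : G, (ρ g).1.map (algebraMap L K) ∈ tgen K ρ)
    {M : Type*} [Field M] [CharZero M] {m : ℕ} {cl : Fin m → Cl} {bar : Fin m → Fin m}
    {e : Fin m → Matrix ι ι M} {u₀ : Matrix ι ι M} {F : Fin m → M[X]}
    (hspl : Splits D ψ cl bar e u₀) {x : Matrix ι ι K} (hF : FrobT K ρ e F x)
    (hx : x ∈ tgen K ρ) {q : ℚ}
    (hmult : xᵀ * ψ.map (algebraMap ℚ K) * x = algebraMap ℚ K q • ψ.map (algebraMap ℚ K))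
    {H₀ : Subgroup G} (hfin : H₀.FiniteIndex) (hprime : (H76RM.van (img K ρ H₀)).IsPrime)
    {Ω : Type*} [Field Ω] [IsAlgClosed Ω] (j : M →+* Ω) (i : Ω →+* K)
    (bal : ∀ h ∈ properProj K ρ, ∀ b, cl b ≠ .n → 2 * (h * (e b).map (i.comp j)).rank = (e b).rank)
    {a : ∀ b, Fin (e b).rank → Ω} (ha : ∀ b, Function.Injective (a b))
    (hroot : ∀ b, ∀ y : Ω, (F b).eval₂ j y = 0 ↔ ∃ k, y = a b k)
    (ht : ∀ b, ∀ k l : Fin (e b).rank, ∀ N : ℕ, N ≠ 0 → a b k ^ N = a b l ^ N → k = l)
    (four : ∀ b, cl b = .o → (e b).rank ≠ 4 ∧ (e b).rank ≠ 8)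
    (hfull : ∀ b, ∀ L : Submodule K (Module.End K (Fin (e b).rank → K)), TM L → Yo L = YS (a b) →
        (cl b = .s → ∀ J : Matrix (Fin (e b).rank) (Fin (e b).rank) K, Jᵀ = -J → IsUnit J.det →
          (∀ X ∈ L, adjE J X = -X) → ∀ X, adjE J X = -X → X ∈ L) ∧
        (cl b = .o → ∀ J : Matrix (Fin (e b).rank) (Fin (e b).rank) K, Jᵀ = J → IsUnit J.det →
          (∀ X ∈ L, adjE J X = -X) → ∀ X, adjE J X = -X → X ∈ L) ∧
        (cl b = .n → ∀ X : Module.End K (Fin (e b).rank → K),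
          LinearMap.trace K (Fin (e b).rank → K) X = 0 → X ∈ L))
    (six : ∀ b c, cl b = .o → cl c = .n → (e b).rank = 6 → (e c).rank = 4 →
      ∀ f f' : Fin (e b).rank → Fin (e c).rank, (∀ i, f i ≠ f' i) →
        ∃ k l, a b k * a c (f l) * a c (f' l) ≠ a b l * a c (f k) * a c (f' k))
    (twi : ∀ b c, c ≠ b → c ≠ bar b → 2 ≤ (e b).rank → (e c).rank = (e b).rank →
      (∀ h ∈ properProj K ρ, (h * (e b).map (i.comp j)).rank = (h * (e c).map (i.comp j)).rank) ∨
      ∀ π : Fin (e b).rank → Fin (e c).rank, ∃ k k', a c (π k) * a b k' ≠ a c (π k') * a b k)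
    (twd : ∀ b c, c ≠ b → c ≠ bar b → 2 ≤ (e b).rank → (e c).rank = (e b).rank →
      (∀ h ∈ properProj K ρ, (h * (e b).map (i.comp j)).rank + (h * (e c).map (i.comp j)).rank = (e b).rank) ∨
      ∀ π : Fin (e b).rank → Fin (e c).rank, ∃ k k', a c (π k) * a b k ≠ a c (π k') * a b k') :
    ∃ (U : ∀ b, Matrix ι (Fin (e b).rank) K) (V : ∀ b, Matrix (Fin (e b).rank) ι K),
      Sit5 (ψ.map (algebraMap ℚ K)) (u₀.map (i.comp j)) (spanK K D) (img K ρ H₀) (properProj K ρ) x bar
        (fun b => (e b).map (i.comp j)) (fun b => (e b).rank) U V (fun b k => i (a b k)) := by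
  classical
  obtain ⟨hJ, hdet0⟩ := gram_basic hψ hψ0 K
  have hsplK : Splits D ψ cl bar (fun c => (e c).map (i.comp j)) (u₀.map (i.comp j)) :=
    hspl.map (i.comp j)
  have hspl4 := hsplK.split4
  obtain ⟨φ', g₀⟩ := mk_phT (K := K) hψ hψ0 D ρ lin sim semis commt gen hF hfin hprime
  have g := H76Z.ph_unit g₀ hsplK.umem
  have hloc := fun b => mk_locU hψ hψ0 D ρ lin sim semis commt gen hspl hF hx hmult hfin hprime j i b
    (ha b) (hroot b) (ht b)
  choose U V hL hLs hLo hLn using hloc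
  have hus : ∀ s ∈ img K ρ H₀, s * u₀.map (i.comp j) = u₀.map (i.comp j) * s := fun s hs =>
    g₀.sh.SD s hs _ hsplK.umem
  have hdet : IsUnit (ψ.map (algebraMap ℚ K) * u₀.map (i.comp j)).det := by
    rw [Matrix.det_mul]
    exact hdet0.mul hsplK.unit
  have hLc : ∀ b, LcN (ψ.map (algebraMap ℚ K) * u₀.map (i.comp j)) (img K ρ H₀) (U b) (V b) =
      LcN (ψ.map (algebraMap ℚ K)) (img K ρ H₀) (U b) (V b) := fun b =>
    H76Z.lcN_unit g₀.sh.one hus hsplK.unit (U b) (V b)
  have heP : ∀ b, (e b).map (i.comp j) * U b = U b := by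
    intro b
    rw [(hL b).UV, Matrix.mul_assoc, (hL b).VU, Matrix.mul_one]
  have htr : ∀ b, ∀ A : Matrix ι ι K, (U b)ᵀ * A * U b =
      (U b)ᵀ * (((e b).map (i.comp j))ᵀ * A * (e b).map (i.comp j)) * U b := by
    intro b A
    have h1 : (U b)ᵀ * ((e b).map (i.comp j))ᵀ = (U b)ᵀ := by rw [← Matrix.transpose_mul, heP]
    calc (U b)ᵀ * A * U b = ((U b)ᵀ * ((e b).map (i.comp j))ᵀ) * A * ((e b).map (i.comp j) * U b) := by
          rw [h1, heP]
      _ = _ := by simp only [Matrix.mul_assoc]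
  have heven : ∀ b, cl b ≠ .n → ∀ h ∈ properProj K ρ, Even (e b).rank := by
    intro b hb h hh
    rw [← bal h hh b hb]
    exact even_two_mul _
  -- the form on a component is monomial
  have hxu : x * u₀.map (i.comp j) = u₀.map (i.comp j) * x := g₀.φD _ hsplK.umem
  have hsimJ : xᵀ * (ψ.map (algebraMap ℚ K) * u₀.map (i.comp j)) * x =
      algebraMap ℚ K q • (ψ.map (algebraMap ℚ K) * u₀.map (i.comp j)) := by
    calc xᵀ * (ψ.map (algebraMap ℚ K) * u₀.map (i.comp j)) * x =
        (xᵀ * ψ.map (algebraMap ℚ K) * x) * u₀.map (i.comp j) := by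
          rw [Matrix.mul_assoc _ _ x, Matrix.mul_assoc _ (u₀.map (i.comp j)) x, ← hxu]
          simp only [Matrix.mul_assoc]
      _ = _ := by rw [hmult, Matrix.smul_mul]
  have hDJ : ∀ b, Matrix.diagonal (fun k => i (a b k)) * ((U b)ᵀ * (ψ.map (algebraMap ℚ K) * u₀.map (i.comp j)) * U b) *
      Matrix.diagonal (fun k => i (a b k)) =
      algebraMap ℚ K q • ((U b)ᵀ * (ψ.map (algebraMap ℚ K) * u₀.map (i.comp j)) * U b) := by
    intro b
    have h1 := (hL b).ec.eig
    calc Matrix.diagonal (fun k => i (a b k)) * ((U b)ᵀ * (ψ.map (algebraMap ℚ K) * u₀.map (i.comp j)) * U b) *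
          Matrix.diagonal (fun k => i (a b k)) =
        (U b * Matrix.diagonal (fun k => i (a b k)))ᵀ * (ψ.map (algebraMap ℚ K) * u₀.map (i.comp j)) *
          (U b * Matrix.diagonal (fun k => i (a b k))) := by
          rw [Matrix.transpose_mul, Matrix.diagonal_transpose]
          simp only [Matrix.mul_assoc]
      _ = (U b)ᵀ * (xᵀ * (ψ.map (algebraMap ℚ K) * u₀.map (i.comp j)) * x) * U b := by
          rw [← h1, Matrix.transpose_mul]
          simp only [Matrix.mul_assoc]
      _ = _ := by rw [hsimJ, Matrix.mul_smul, Matrix.smul_mul]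
  have hmon : ∀ b, bar b = b → (∀ k l, ((U b)ᵀ * (ψ.map (algebraMap ℚ K) * u₀.map (i.comp j)) * U b) k l ≠ 0 →
      ((U b)ᵀ * (ψ.map (algebraMap ℚ K) * u₀.map (i.comp j)) * U b) l k ≠ 0) →
      ∃ π, Mon ((U b)ᵀ * (ψ.map (algebraMap ℚ K) * u₀.map (i.comp j)) * U b) π := by
    intro b hb hs
    obtain ⟨hdb, -⟩ := H76Z.form_inv (b := b) hspl4 (hL b).UV (hL b).VU g hb hdet (hL b).pos
    exact mon_of hs hdb (hL b).ec.inj (hL b).ec.ne (c := algebraMap ℚ K q) (diag_sim (hDJ b))
  have hbarn : ∀ b, bar b = b ↔ cl b ≠ .n := hspl.self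
  refine ⟨U, V, ?_⟩
  have hnt : ∀ b, 2 ≤ (e b).rank → ∃ h ∈ properProj K ρ, h * x = x * h ∧
      (h * (e b).map (i.comp j)).rank ≠ 0 ∧ (h * (e b).map (i.comp j)).rank ≠ (e b).rank := by
    intro b hb
    refine exists_nt (hL b).UV (hL b).VU (hL b).ec (hL b).ex hb (fun k l N hN h => ht b k l N hN ?_)
      (fun h hh => ((hL b).par h hh).2.1) hF.torgen
    apply i.injective
    rw [map_pow, map_pow]
    exact h
  refine
    { one := img_one ρ H₀
      mul := img_mul ρ H₀
      SD := g₀.sh.SD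
      commt := g₀.sh.commt
      hi := g₀.sh.hi
      hs := g₀.sh.hs
      hz := g₀.sh.hz
      gen := g₀.sh.gen
      spl := hspl4
      hu := hsplK.umem
      hJ := hdet0
      hu0 := hsplK.unit
      UV := fun b => (hL b).UV
      VU := fun b => (hL b).VU
      pos := fun b => (hL b).pos
      ec := fun b => (hL b).ec
      hx := hx
      hh := hnt
      irr := fun b => (hL b).ts.cmp.irr
      full := ?_
      six := ?_
      twi := ?_
      twd := ?_ }
  · intro b hb2
    obtain ⟨f1, f2, f3⟩ := hfull b _ (hL b).ts (hL b).yo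
    have hsk : bar b = b → IsUnit ((U b)ᵀ * (ψ.map (algebraMap ℚ K) * u₀.map (i.comp j)) * U b).det ∧
        ∀ X ∈ LcN (ψ.map (algebraMap ℚ K)) (img K ρ H₀) (U b) (V b),
          adjE ((U b)ᵀ * (ψ.map (algebraMap ℚ K) * u₀.map (i.comp j)) * U b) X = -X := by
      intro hb
      obtain ⟨h1, h2⟩ := H76Z.form_inv (b := b) hspl4 (hL b).UV (hL b).VU g hb hdet (hL b).pos
      exact ⟨h1, by rw [← hLc]; exact h2⟩
    cases hcl : cl b with
    | s =>
      have hb : bar b = b := (hbarn b).2 (by rw [hcl]; decide)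
      obtain ⟨h1, h2⟩ := hsk hb
      have h3 : ((U b)ᵀ * (ψ.map (algebraMap ℚ K) * u₀.map (i.comp j)) * U b)ᵀ =
          -((U b)ᵀ * (ψ.map (algebraMap ℚ K) * u₀.map (i.comp j)) * U b) := by
        rw [Matrix.transpose_mul, Matrix.transpose_mul, Matrix.transpose_transpose, ← Matrix.mul_assoc,
          htr, hsplK.alt b hcl, Matrix.mul_neg, Matrix.neg_mul, ← htr]
      obtain ⟨π, hπ⟩ := hmon b hb (by
        intro k l hkl h0
        apply hkl
        have h4 := congrFun (congrFun h3 k) l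
        rw [Matrix.transpose_apply, Matrix.neg_apply, h0] at h4
        rw [← neg_eq_zero, ← h4])
      exact FV.s hb π h3 h1 hπ (fun X => ⟨h2 X, f1 hcl _ h3 h1 h2 X⟩) (by rw [Fintype.card_fin]; exact hb2)
    | o =>
      have hb : bar b = b := (hbarn b).2 (by rw [hcl]; decide)
      obtain ⟨h1, h2⟩ := hsk hb
      have h3 : ((U b)ᵀ * (ψ.map (algebraMap ℚ K) * u₀.map (i.comp j)) * U b)ᵀ =
          ((U b)ᵀ * (ψ.map (algebraMap ℚ K) * u₀.map (i.comp j)) * U b) := by
        rw [Matrix.transpose_mul, Matrix.transpose_mul, Matrix.transpose_transpose, ← Matrix.mul_assoc,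
          htr, hsplK.sym b hcl, ← htr]
      obtain ⟨π, hπ⟩ := hmon b hb (by
        intro k l hkl h0
        apply hkl
        have h4 := congrFun (congrFun h3 k) l
        rw [Matrix.transpose_apply, h0] at h4
        exact h4.symm)
      obtain ⟨h4, h8⟩ := four b hcl
      have h5 : (e b).rank ≠ 2 := by
        intro h6
        exact so_two (by rw [Fintype.card_fin, h6]) h3 h1 h2 (hL b).ts.cmp.irr
      have h6 := (hL b).pos
      obtain ⟨h₀, hh₀, hh₀x, hr0, hr1⟩ := hnt b hb2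
      have hclb : cl b ≠ .n := by rw [hcl]; decide
      obtain ⟨r, hr⟩ := heven b hclb h₀ hh₀
      -- the involution has no fixed points
      have hsq : ∀ k, π k = k → i (a b k) * i (a b k) = algebraMap ℚ K q := by
        intro k hk
        have h7 := congrFun (congrFun (hDJ b) k) k
        rw [Matrix.mul_diagonal, Matrix.diagonal_mul, Matrix.smul_apply, smul_eq_mul] at h7
        have h9 := hπ.ne k
        rw [hk] at h9
        refine mul_right_cancel₀ h9 ?_
        rw [← h7]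
        ring
      have hne : ∀ k, π k ≠ k := by
        intro k hk
        have huniq : ∀ l, π l = l → l = k := by
          intro l hl
          refine ht b l k 2 two_ne_zero (i.injective ?_)
          rw [map_pow, map_pow, pow_two, pow_two, hsq l hl, hsq k hk]
        have h7 : ∑ x ∈ Finset.univ.erase k, (1 : ZMod 2) = 0 :=
          Finset.sum_involution (fun x _ => π x) (fun _ _ => by decide)
            (fun x hx _ hfix => (Finset.mem_erase.1 hx).1 (huniq x hfix))
            (fun x hx => Finset.mem_erase.2 ⟨fun h => (Finset.mem_erase.1 hx).1 (by rw [← hπ.inv x, h, hk]),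
              Finset.mem_univ _⟩) (fun x _ => hπ.inv x)
        rw [Finset.sum_const, nsmul_eq_mul, mul_one, Finset.card_erase_of_mem (Finset.mem_univ _), Finset.card_univ,
          Fintype.card_fin, ZMod.natCast_eq_zero_iff] at h7
        omega
      refine FV.o hb π h3 h1 hπ hne (fun X => ⟨h2 X, f2 hcl _ h3 h1 h2 X⟩) ?_ ?_
      · rw [Fintype.card_fin]
        omega
      · rw [Fintype.card_fin]
        exact h8
    | n =>
      have hb : bar b ≠ b := fun h => (hbarn b).1 h hcl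
      refine FV.n hb (fun X => ⟨fun h => h.2, f3 hcl X⟩) ?_
      rw [Fintype.card_fin]
      exact hb2
  · intro b c hb hc hJb h6 h4 f f' hff
    have hclb : cl b ≠ .n := (hbarn b).1 hb
    have hclc : cl c = .n := by
      by_contra h
      exact hc ((hbarn c).2 h)
    have hclo : cl b = .o := by
      cases hcl : cl b with
      | o => rfl
      | n => exact absurd hcl hclb
      | s =>
        exfalso
        have h3 : ((U b)ᵀ * (ψ.map (algebraMap ℚ K) * u₀.map (i.comp j)) * U b)ᵀ =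
            -((U b)ᵀ * (ψ.map (algebraMap ℚ K) * u₀.map (i.comp j)) * U b) := by
          rw [Matrix.transpose_mul, Matrix.transpose_mul, Matrix.transpose_transpose, ← Matrix.mul_assoc,
            htr, hsplK.alt b hcl, Matrix.mul_neg, Matrix.neg_mul, ← htr]
        obtain ⟨h1, -⟩ := H76Z.form_inv (b := b) hspl4 (hL b).UV (hL b).VU g hb hdet (hL b).pos
        have h5 : (U b)ᵀ * (ψ.map (algebraMap ℚ K) * u₀.map (i.comp j)) * U b = 0 := by
          have h7 : (2 : K) • ((U b)ᵀ * (ψ.map (algebraMap ℚ K) * u₀.map (i.comp j)) * U b) = 0 := by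
            rw [two_smul]
            exact eq_neg_iff_add_eq_zero.1 (hJb.symm.trans h3)
          exact (smul_eq_zero.1 h7).resolve_left two_ne_zero
        have : Nonempty (Fin (e b).rank) := ⟨⟨0, (hL b).pos⟩⟩
        rw [h5, Matrix.det_zero] at h1
        exact not_isUnit_zero h1
    obtain ⟨k, l, h1⟩ := six b c hclo hclc h6 h4 f f' hff
    refine ⟨k, l, fun h => h1 (i.injective ?_)⟩
    rw [map_mul, map_mul, map_mul, map_mul]
    exact h
  · intro b c hbc hbc' hb2 hn
    rcases twi b c hbc hbc' hb2 hn with h1 | h1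
    · exact Or.inl h1
    · right
      intro π
      obtain ⟨k, k', h2⟩ := h1 π
      refine ⟨k, k', fun h => h2 (i.injective ?_)⟩
      rw [map_mul, map_mul]
      exact h
  · intro b c hbc hbc' hb2 hn
    rcases twd b c hbc hbc' hb2 hn with h1 | h1
    · exact Or.inl h1
    · right
      intro π
      obtain ⟨k, k', h2⟩ := h1 π
      refine ⟨k, k', fun h => h2 (i.injective ?_)⟩
      rw [map_mul, map_mul]
      exact h

end Pool.Agent.H34V
end
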