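import Pool.Agent.Lib.H1M.RC.D_H45Q_F3b
import Pool.Agent.Lib.H1M.RC.D_H76V_VC1
import Pool.Agent.Lib.H1M.RC.M031
import Pool.Agent.Lib.H1M.RC.M032
import Pool.Agent.Lib.H1M.RC.M038
import Pool.Agent.Lib.H1M.RC.M048
import Pool.Agent.Lib.H1M.RC.M049
import Pool.Agent.Lib.H1M.RC.M051
import Pool.Agent.Lib.H1M.RC.M052
import Pool.Agent.Lib.H1M.RC.M054
import Pool.Agent.Lib.H1M.RC.M055
import Pool.Agent.Lib.H1M.RC.M056
import Pool.Agent.Lib.H1M.RC.M058
import Pool.Agent.Lib.H1M.RC.M059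
import Pool.Agent.Lib.H1M.RC.M060
import Pool.Agent.Lib.H1M.RC.M063
import Pool.Agent.Lib.H1M.RC.M064
import Pool.Agent.Lib.H1M.RC.M067
import Pool.Agent.Lib.H1M.RC.M068
import Pool.Agent.Lib.H1M.RC.M070
import Pool.Agent.Lib.H1M.RC.M071
import Pool.Agent.Lib.H1M.RC.M072
import Pool.Agent.Lib.H1M.RC.M073
import Pool.Agent.Lib.H1M.RC.M074

/-! Merged copies (to shorten the build) of Lib.H25W.Pairs, Lib.H86L.L3, Lib.H76Z.W11a, Lib.H76Z.W11, Lib.H86L.M4, Lib.H86L.N6, Lib.H76W.G5c, Lib.H34V.N07, Lib.H34V.N08, Lib.H45Q.F4b, Lib.H45U.N2. -/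

-- from Lib.H25W.Pairs
section

/-!
# Pairs: multiplicative relations between the eigenvalues on two components
-/

set_option autoImplicit false
set_option linter.unusedSectionVars false
namespace Pool.Agent.H45U
open Pool.Agent.H76Y Pool.Agent.H76Z
open Pool.Agent.H76P Pool.Agent.H76V Pool.Agent.H76Q
open Module Matrix Polynomial Pool.Agent.H53Toric
open Pool.Agent.H76P
open Pool.Agent.H76T (IsIdeal Fam Lc)
open Pool.Agent.H76U (cmp preL IsSplitting)
open Pool.Agent.H76RM (spanK similD)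

variable {ι : Type*} [Fintype ι] [DecidableEq ι] {ψ : Matrix ι ι ℚ}
    {D : Subalgebra ℚ (Matrix ι ι ℚ)} {M : Type*} [Field M] [NumberField M]
    {m : ℕ} {cl : Fin m → Cl} {bar : Fin m → Fin m} {e : Fin m → Matrix ι ι M} {u₀ : Matrix ι ι M} {G : Type*} [Group G]
    {ρ : ∀ (l : ℕ) [Fact l.Prime], G →* Matrix.GeneralLinearGroup ι ℚ_[l]}
    {p : ℕ} [Fact p.Prime] {σ : G} {q : ℚ} {F : Fin m → M[X]}
    {φ μ ν : Matrix ι ι (AlgebraicClosure ℚ_[p])} {v : AlgebraicClosure ℚ_[p] → ℚ}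
    {Δ : Set (AlgebraicClosure ℚ_[p] ≃+* AlgebraicClosure ℚ_[p])}
    {Ω : Type*} [Field Ω] [CharZero Ω] [IsAlgClosed Ω] [Algebra.IsAlgebraic ℚ Ω] {j : M →+* Ω}
    {R : Finset Ω} {N : Set ℕ} {hd : Fin m → Ω → ℕ} {ub : Fin m → Prop}
    (C : Core5a ψ D cl bar e u₀ ρ p σ q F φ μ ν v Δ j R N hd ub)

include C

/-- The Hodge-Tate projector as a function of the eigenvalues of Frobenius. -/
theorem Core5a.tor_r {r : Ω} (hr : r ∈ R) :
    ∃ f : Ω → ℤ, (∀ (b : Fin m) {n : ℕ} {a : Fin n → Ω}, Function.Injective a →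
        (∀ y : Ω, (F b).eval₂ j y = 0 ↔ ∃ k, y = a k) →
        (∀ k, f (a k) = 0 ∨ f (a k) = 1) ∧ ∑ k, f (a k) = hd b r) ∧
      ∀ (I : Type) [Fintype I] (lam : I → Ω) (s : I → ℤ), (∀ x, ∃ b, (F b).eval₂ j (lam x) = 0) →
        ∏ x, lam x ^ s x = 1 → ∑ x, s x * f (lam x) = 0 := by
  classical
  obtain ⟨i, hi⟩ := C.w2_i hr
  obtain ⟨H, -, hfin, hprime⟩ := H76RM.exists_prime (K := AlgebraicClosure ℚ_[p]) (ρ p) ⊤ inferInstance
  have hne : Nonempty ι := by
    by_contra hemp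
    rw [not_nonempty_iff] at hemp
    exact C.crys.mu.2.1 (by ext i; exact (hemp.false i).elim)
  obtain ⟨x', g⟩ := mk_phT C.hψ C.hψ0 D (ρ p) (C.lin p) (C.sim p) (C.semis p) (C.commt p) (C.gen p)
      C.frobp hfin hprime
  have hμz : μ ∈ zlie {y | ∃ n : ℕ, y = φ ^ n} := g.torus μ (g.sh.hz μ C.crys.mu) C.crys.muphi
  obtain ⟨f₀, hf₀, hrel⟩ := H25W.tor_fun g.dgb C.frobp.idc.1 hμz
  have hμμ : μ * μ = μ := g.sh.hi μ C.crys.mu
  have hspl : Splits D ψ cl bar (fun c => (e c).map (i.comp j)) (u₀.map (i.comp j)) := C.hspl.map (i.comp j)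
  have hval : ∀ (c : AlgebraicClosure ℚ_[p]) (z : ι → AlgebraicClosure ℚ_[p]), z ≠ 0 → φ *ᵥ z = c • z →
      f₀ c = 0 ∨ f₀ c = 1 := by
    intro c z hz hcz
    have h1 := hf₀ c z hcz
    have h2 : (f₀ c * f₀ c) • z = f₀ c • z := by
      calc (f₀ c * f₀ c) • z = μ *ᵥ (μ *ᵥ z) := by rw [h1, Matrix.mulVec_smul, h1, smul_smul]
        _ = f₀ c • z := by rw [Matrix.mulVec_mulVec, hμμ, h1]
    have h3 : f₀ c * f₀ c - f₀ c = 0 := by
      have h4 : (f₀ c * f₀ c - f₀ c) • z = 0 := by rw [sub_smul, h2, sub_self]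
      exact (smul_eq_zero.1 h4).resolve_right hz
    have h5 : f₀ c * (f₀ c - 1) = 0 := by rw [mul_sub, mul_one, h3]
    rcases mul_eq_zero.1 h5 with h6 | h6
    · exact Or.inl h6
    · exact Or.inr (sub_eq_zero.1 h6)
  have hroot0 : ∀ (b : Fin m) (a : Ω), (F b).eval₂ j a = 0 →
      ∃ z : ι → AlgebraicClosure ℚ_[p], z ≠ 0 ∧ φ *ᵥ z = i a • z := by
    intro b a ha
    have h1 : (F b).eval₂ (i.comp j) (i a) = 0 := by
      rw [← Polynomial.hom_eval₂, ha, map_zero]
    obtain ⟨z, hz, -, hφ⟩ := (C.frobp.eig (i.comp j) b (i a)).2 h1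
    exact ⟨z, hz, hφ⟩
  obtain ⟨f, hf⟩ : ∃ f : Ω → ℤ, ∀ (b : Fin m) (a : Ω), (F b).eval₂ j a = 0 →
      ((f a : AlgebraicClosure ℚ_[p]) = f₀ (i a) ∧ (f a = 0 ∨ f a = 1)) := by
    refine ⟨fun y => if f₀ (i y) = 1 then 1 else 0, fun b a ha => ?_⟩
    obtain ⟨z, hz, hφz⟩ := hroot0 b a ha
    dsimp only
    rcases hval _ z hz hφz with h1 | h1
    · rw [h1, if_neg zero_ne_one]
      exact ⟨by simp, Or.inl rfl⟩
    · rw [h1, if_pos rfl]
      exact ⟨by simp, Or.inr rfl⟩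
  refine ⟨f, fun b n a ha hroot => ⟨fun k => (hf b (a k) ((hroot _).2 ⟨k, rfl⟩)).2, ?_⟩, ?_⟩
  · obtain ⟨H₀, U, V, -, hL, -⟩ := C.locp0 b ha hroot i
    have hμU : μ * U = U * Matrix.diagonal (fun k => f₀ (i (a k))) := by
      ext x k
      have h1 : φ *ᵥ (fun x => U x k) = i (a k) • (fun x => U x k) := by
        funext x
        have h3 := congrFun (congrFun hL.ec.eig x) k
        rw [Matrix.mul_diagonal] at h3
        rw [Pi.smul_apply, smul_eq_mul, mul_comm, ← h3]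
        rfl
      have h2 := congrFun (hf₀ _ _ h1) x
      rw [Pi.smul_apply, smul_eq_mul] at h2
      rw [Matrix.mul_diagonal, mul_comm (U x k), ← h2]
      rfl
    have hee : μ * (e b).map (i.comp j) * (μ * (e b).map (i.comp j)) = μ * (e b).map (i.comp j) := by
      have h2 := H25W.ph_comm g C.crys.mu (hspl.mem b)
      calc μ * (e b).map (i.comp j) * (μ * (e b).map (i.comp j))
          = μ * ((e b).map (i.comp j) * μ) * (e b).map (i.comp j) := by noncomm_ring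
        _ = (μ * μ) * ((e b).map (i.comp j) * (e b).map (i.comp j)) := by rw [← h2]; noncomm_ring
        _ = μ * (e b).map (i.comp j) := by rw [hμμ, hspl.idem b]
    have h1 : ((μ * (e b).map (i.comp j)).rank : AlgebraicClosure ℚ_[p]) = ∑ k, f₀ (i (a k)) := by
      rw [Pool.Agent.H76T.rank_eq_trace hee]
      have h3 : LinearMap.trace _ (ι → AlgebraicClosure ℚ_[p]) (phi (μ * (e b).map (i.comp j))) =
          (μ * (e b).map (i.comp j)).trace := Matrix.trace_toLin'_eq _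
      have h4 : μ * (e b).map (i.comp j) = U * (Matrix.diagonal (fun k => f₀ (i (a k))) * V) := by
        rw [hL.UV, ← Matrix.mul_assoc, hμU, Matrix.mul_assoc]
      rw [h3, h4, Matrix.trace_mul_comm, Matrix.mul_assoc, hL.VU, Matrix.mul_one, Matrix.trace_diagonal]
    rw [C.hdg b i r hr hi] at h1
    have h2 : ((∑ k, f (a k) : ℤ) : AlgebraicClosure ℚ_[p]) = ((hd b r : ℤ) : AlgebraicClosure ℚ_[p]) := by
      rw [Int.cast_sum, Int.cast_natCast, h1]
      exact Finset.sum_congr rfl fun k _ => (hf b (a k) ((hroot _).2 ⟨k, rfl⟩)).1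
    exact_mod_cast h2
  · intro I _ lam s hlam hprod
    have h1 := hrel I (fun x => i (lam x)) s (fun x => by
      obtain ⟨b, hb⟩ := hlam x
      exact hroot0 b _ hb) (by
        have h2 := congrArg i hprod
        rw [map_one, map_prod] at h2
        rw [← h2]
        exact Finset.prod_congr rfl fun x _ => by rw [map_zpow₀])
    have h3 : ((∑ x, s x * f (lam x) : ℤ) : AlgebraicClosure ℚ_[p]) = 0 := by
      rw [← h1, Int.cast_sum]
      refine Finset.sum_congr rfl fun x _ => ?_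
      obtain ⟨b, hb⟩ := hlam x
      rw [Int.cast_mul, (hf b _ hb).1]
    exact_mod_cast h3

/-- If the eigenvalues on `c` are those on `b` multiplied by a constant then the multiplicities of the
two components are equal, or `0` and `n`. -/
theorem Core5a.pair_dir {b c : Fin m} {n n' : ℕ} {a : Fin n → Ω} (ha : Function.Injective a)
    (hroot : ∀ y : Ω, (F b).eval₂ j y = 0 ↔ ∃ k, y = a k) {a' : Fin n' → Ω} (ha' : Function.Injective a')
    (hroot' : ∀ y : Ω, (F c).eval₂ j y = 0 ↔ ∃ k, y = a' k) (hnn : n' = n) (π : Fin n → Fin n')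
    (hπ : ∀ k k', a' (π k) * a k' = a' (π k') * a k) {r : Ω} (hr : r ∈ R) :
    hd b r = hd c r ∨ (hd b r = 0 ∧ hd c r = n) ∨ (hd b r = n ∧ hd c r = 0) := by
  classical
  obtain ⟨f, hf, hrel⟩ := C.tor_r hr
  have h0 : ∀ k, a k ≠ 0 := fun k => C.ne b hroot k
  have h0' : ∀ k, a' k ≠ 0 := fun k => C.ne c hroot' k
  obtain ⟨hf1, hf2⟩ := hf b ha hroot
  obtain ⟨hf1', hf2'⟩ := hf c ha' hroot'
  have hinj : Function.Injective π := by
    intro k k' hkk
    have h1 := hπ k k'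
    rw [hkk] at h1
    exact (ha (mul_left_cancel₀ (h0' _) h1)).symm
  have hbij : Function.Bijective π := (Fintype.bijective_iff_injective_and_card π).2 ⟨hinj, by
    rw [Fintype.card_fin, Fintype.card_fin, hnn]⟩
  have hsum : ∑ k, f (a' (π k)) = hd c r := by
    rw [← hf2']
    exact hbij.sum_comp fun k => f (a' k)
  have hconst : ∀ k k', f (a' (π k)) - f (a k) = f (a' (π k')) - f (a k') := by
    intro k k'
    have h1 := hrel (Fin 4) ![a' (π k), a k', a' (π k'), a k] ![1, 1, -1, -1] (by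
      intro x
      fin_cases x
      · exact ⟨c, (hroot' _).2 ⟨_, rfl⟩⟩
      · exact ⟨b, (hroot _).2 ⟨_, rfl⟩⟩
      · exact ⟨c, (hroot' _).2 ⟨_, rfl⟩⟩
      · exact ⟨b, (hroot _).2 ⟨_, rfl⟩⟩) (by
      have h3 := h0 k
      have h4 := h0' (π k')
      have h5 := hπ k k'
      simp [Fin.prod_univ_succ]
      field_simp
      exact h5)
    simp [Fin.sum_univ_succ] at h1
    linarith
  by_cases hn : n = 0
  · subst hn
    subst hnn
    have e1 : (hd b r : ℤ) = 0 := by rw [← hf2]; simp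
    have e2 : (hd c r : ℤ) = 0 := by rw [← hf2']; simp
    left
    omega
  have k₀ : Fin n := ⟨0, Nat.pos_of_ne_zero hn⟩
  have h1 : (hd c r : ℤ) - hd b r = n * (f (a' (π k₀)) - f (a k₀)) := by
    rw [← hsum, ← hf2, ← Finset.sum_sub_distrib, Finset.sum_congr rfl fun k _ => hconst k k₀, Finset.sum_const,
      Finset.card_univ, Fintype.card_fin, nsmul_eq_mul]
  have hle : ∀ (g : Fin n → ℤ), (∀ k, g k = 0 ∨ g k = 1) → 0 ≤ ∑ k, g k ∧ ∑ k, g k ≤ n := by
    intro g hg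
    refine ⟨Finset.sum_nonneg fun k _ => by rcases hg k with h | h <;> omega, ?_⟩
    calc ∑ k, g k ≤ ∑ _k : Fin n, (1 : ℤ) := Finset.sum_le_sum fun k _ => by rcases hg k with h | h <;> omega
      _ = n := by simp
  have h2 := hle (fun k => f (a k)) hf1
  have h3 := hle (fun k => f (a' (π k))) (fun k => hf1' _)
  rw [hf2] at h2
  rw [hsum] at h3
  rcases hf1 k₀ with h4 | h4 <;> rcases hf1' (π k₀) with h5 | h5 <;> rw [h4, h5] at h1
  · left; omega
  · right; left; omega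
  · right; right; omega
  · left; omega

/-- The dual statement. -/
theorem Core5a.pair_dual {b c : Fin m} {n n' : ℕ} {a : Fin n → Ω} (ha : Function.Injective a)
    (hroot : ∀ y : Ω, (F b).eval₂ j y = 0 ↔ ∃ k, y = a k) {a' : Fin n' → Ω} (ha' : Function.Injective a')
    (hroot' : ∀ y : Ω, (F c).eval₂ j y = 0 ↔ ∃ k, y = a' k) (hnn : n' = n) (π : Fin n → Fin n')
    (hπ : ∀ k k', a' (π k) * a k = a' (π k') * a k') {r : Ω} (hr : r ∈ R) :
    hd b r + hd c r = n ∨ (hd b r = 0 ∧ hd c r = 0) ∨ (hd b r = n ∧ hd c r = n) := by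
  classical
  obtain ⟨f, hf, hrel⟩ := C.tor_r hr
  have h0 : ∀ k, a k ≠ 0 := fun k => C.ne b hroot k
  have h0' : ∀ k, a' k ≠ 0 := fun k => C.ne c hroot' k
  obtain ⟨hf1, hf2⟩ := hf b ha hroot
  obtain ⟨hf1', hf2'⟩ := hf c ha' hroot'
  have hinj : Function.Injective π := by
    intro k k' hkk
    have h1 := hπ k k'
    rw [hkk] at h1
    exact ha (mul_left_cancel₀ (h0' _) h1)
  have hbij : Function.Bijective π := (Fintype.bijective_iff_injective_and_card π).2 ⟨hinj, by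
    rw [Fintype.card_fin, Fintype.card_fin, hnn]⟩
  have hsum : ∑ k, f (a' (π k)) = hd c r := by
    rw [← hf2']
    exact hbij.sum_comp fun k => f (a' k)
  have hconst : ∀ k k', f (a' (π k)) + f (a k) = f (a' (π k')) + f (a k') := by
    intro k k'
    have h1 := hrel (Fin 4) ![a' (π k), a k, a' (π k'), a k'] ![1, 1, -1, -1] (by
      intro x
      fin_cases x
      · exact ⟨c, (hroot' _).2 ⟨_, rfl⟩⟩
      · exact ⟨b, (hroot _).2 ⟨_, rfl⟩⟩
      · exact ⟨c, (hroot' _).2 ⟨_, rfl⟩⟩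
      · exact ⟨b, (hroot _).2 ⟨_, rfl⟩⟩) (by
      have h3 := h0 k'
      have h4 := h0' (π k')
      have h5 := hπ k k'
      simp [Fin.prod_univ_succ]
      field_simp
      exact h5)
    simp [Fin.sum_univ_succ] at h1
    linarith
  by_cases hn : n = 0
  · subst hn
    subst hnn
    have e1 : (hd b r : ℤ) = 0 := by rw [← hf2]; simp
    have e2 : (hd c r : ℤ) = 0 := by rw [← hf2']; simp
    left
    omega
  have k₀ : Fin n := ⟨0, Nat.pos_of_ne_zero hn⟩
  have h1 : (hd c r : ℤ) + hd b r = n * (f (a' (π k₀)) + f (a k₀)) := by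
    rw [← hsum, ← hf2, ← Finset.sum_add_distrib, Finset.sum_congr rfl fun k _ => hconst k k₀, Finset.sum_const,
      Finset.card_univ, Fintype.card_fin, nsmul_eq_mul]
  have hle : ∀ (g : Fin n → ℤ), (∀ k, g k = 0 ∨ g k = 1) → 0 ≤ ∑ k, g k ∧ ∑ k, g k ≤ n := by
    intro g hg
    refine ⟨Finset.sum_nonneg fun k _ => by rcases hg k with h | h <;> omega, ?_⟩
    calc ∑ k, g k ≤ ∑ _k : Fin n, (1 : ℤ) := Finset.sum_le_sum fun k _ => by rcases hg k with h | h <;> omega
      _ = n := by simp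
  have h2 := hle (fun k => f (a k)) hf1
  have h3 := hle (fun k => f (a' (π k))) (fun k => hf1' _)
  rw [hf2] at h2
  rw [hsum] at h3
  rcases hf1 k₀ with h4 | h4 <;> rcases hf1' (π k₀) with h5 | h5 <;> rw [h4, h5] at h1
  · right; left; omega
  · left; omega
  · left; omega
  · right; right; omega

omit [Fintype ι] [DecidableEq ι] [NumberField M] [Group G] [Fact p.Prime] [IsAlgClosed Ω] [Algebra.IsAlgebraic ℚ Ω] C in
theorem six_sum (w : Fin 4 → ℤ) (f g : Fin 6 → Fin 4) (hfg : ∀ i, f i ≠ g i)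
    (hinj : ∀ i j, ({f i, g i} : Finset (Fin 4)) = {f j, g j} → i = j) :
    ∑ i, (w (f i) + w (g i)) = 3 * ∑ k, w k := by
  classical
  have h1 : ∀ i, w (f i) + w (g i) = ∑ x ∈ ({f i, g i} : Finset (Fin 4)), w x := fun i =>
    (Finset.sum_pair (hfg i)).symm
  have h2 : Finset.univ.image (fun i => ({f i, g i} : Finset (Fin 4))) = Finset.powersetCard 2 Finset.univ := by
    apply Finset.eq_of_subset_of_card_le
    · intro s hs
      obtain ⟨i, -, rfl⟩ := Finset.mem_image.1 hs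
      rw [Finset.mem_powersetCard]
      exact ⟨Finset.subset_univ _, Finset.card_pair (hfg i)⟩
    · rw [Finset.card_image_of_injective _ (fun i j h => hinj i j h), Finset.card_powersetCard]
      simp
      decide
  rw [Finset.sum_congr rfl fun i _ => h1 i]
  have h3 : ∑ s ∈ Finset.univ.image (fun i => ({f i, g i} : Finset (Fin 4))), ∑ x ∈ s, w x =
      ∑ i, ∑ x ∈ ({f i, g i} : Finset (Fin 4)), w x :=
    Finset.sum_image fun i _ j _ h => hinj i j h
  rw [← h3, h2]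
  have h4 : Finset.powersetCard 2 (Finset.univ : Finset (Fin 4)) =
      {{0, 1}, {0, 2}, {0, 3}, {1, 2}, {1, 3}, {2, 3}} := by decide
  have h5 : ∀ W : Finset (Fin 4) → ℤ, ∑ s ∈ ({{0, 1}, {0, 2}, {0, 3}, {1, 2}, {1, 3}, {2, 3}} :
      Finset (Finset (Fin 4))), W s = W {0, 1} + (W {0, 2} + (W {0, 3} + (W {1, 2} + (W {1, 3} + W {2, 3})))) := by
    intro W
    rw [Finset.sum_insert (by decide), Finset.sum_insert (by decide), Finset.sum_insert (by decide),
      Finset.sum_insert (by decide), Finset.sum_insert (by decide), Finset.sum_singleton]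
  have h6 : ∀ x y : Fin 4, x ≠ y → ∑ x ∈ ({x, y} : Finset (Fin 4)), w x = w x + w y := fun x y h =>
    Finset.sum_pair h
  rw [h4, h5, h6 0 1 (by decide), h6 0 2 (by decide), h6 0 3 (by decide), h6 1 2 (by decide),
    h6 1 3 (by decide), h6 2 3 (by decide), Fin.sum_univ_four]
  ring

/-- If the eigenvalues on the component `b` with a form, of rank `6`, are, up to a constant, the products of
two eigenvalues on the component `c` of rank `4`, then the multiplicity of `c` is `1` or `3`. -/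
theorem Core5a.pair_six {b c : Fin m} (hb : cl b ≠ .n) {n n' : ℕ} {a : Fin n → Ω} (ha : Function.Injective a)
    (hroot : ∀ y : Ω, (F b).eval₂ j y = 0 ↔ ∃ k, y = a k) {a' : Fin n' → Ω} (ha' : Function.Injective a')
    (hroot' : ∀ y : Ω, (F c).eval₂ j y = 0 ↔ ∃ k, y = a' k) (hn : n = 6) (hn' : n' = 4)
    (f g : Fin n → Fin n') (hfg : ∀ i, f i ≠ g i)
    (hrel : ∀ i j, a i * a' (f j) * a' (g j) = a j * a' (f i) * a' (g i)) {r : Ω} (hr : r ∈ R) :
    hd c r = 1 ∨ hd c r = 3 := by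
  classical
  subst hn hn'
  obtain ⟨w, hw, hwrel⟩ := C.tor_r hr
  have h0 : ∀ k, a k ≠ 0 := fun k => C.ne b hroot k
  have h0' : ∀ k, a' k ≠ 0 := fun k => C.ne c hroot' k
  obtain ⟨hf1, hf2⟩ := hw b ha hroot
  obtain ⟨hf1', hf2'⟩ := hw c ha' hroot'
  have hinj : ∀ i j, ({f i, g i} : Finset (Fin 4)) = {f j, g j} → i = j := by
    intro i j hij
    have h1 : a' (f i) * a' (g i) = a' (f j) * a' (g j) := by
      rw [← Finset.prod_pair (f := a') (hfg i), ← Finset.prod_pair (f := a') (hfg j), hij]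
    have h2 := hrel i j
    rw [mul_assoc, mul_assoc, h1] at h2
    exact ha (mul_right_cancel₀ (mul_ne_zero (h0' _) (h0' _)) h2)
  have hconst : ∀ i j, w (a' (f i)) + w (a' (g i)) - w (a i) = w (a' (f j)) + w (a' (g j)) - w (a j) := by
    intro i j
    have h1 := hwrel (Fin 6) ![a i, a' (f j), a' (g j), a j, a' (f i), a' (g i)] ![1, 1, 1, -1, -1, -1] (by
      intro x
      fin_cases x
      · exact ⟨b, (hroot _).2 ⟨_, rfl⟩⟩
      · exact ⟨c, (hroot' _).2 ⟨_, rfl⟩⟩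
      · exact ⟨c, (hroot' _).2 ⟨_, rfl⟩⟩
      · exact ⟨b, (hroot _).2 ⟨_, rfl⟩⟩
      · exact ⟨c, (hroot' _).2 ⟨_, rfl⟩⟩
      · exact ⟨c, (hroot' _).2 ⟨_, rfl⟩⟩) (by
      have h3 := h0 j
      have h4 := h0' (f i)
      have h5 := h0' (g i)
      have h6 := hrel i j
      simp [Fin.prod_univ_succ]
      field_simp
      linear_combination h6)
    simp [Fin.sum_univ_succ] at h1
    linarith
  have h1 : ∑ i, (w (a' (f i)) + w (a' (g i))) = 3 * ∑ k, w (a' k) :=
    six_sum (fun k => w (a' k)) f g hfg hinj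
  have h2 : ∑ i, (w (a' (f i)) + w (a' (g i)) - w (a i)) = 6 * (w (a' (f 0)) + w (a' (g 0)) - w (a 0)) := by
    rw [Finset.sum_congr rfl fun i _ => hconst i 0, Finset.sum_const, Finset.card_univ, Fintype.card_fin,
      nsmul_eq_mul]
    rfl
  rw [Finset.sum_sub_distrib, h1, hf2, hf2'] at h2
  have h3 : 2 * hd b r = 6 := by
    obtain ⟨i, hi⟩ := C.w2_i hr
    rw [← C.hdg b i r hr hi, C.bal p μ C.crys.mu (i.comp j) b hb]
    exact (C.card b ha hroot).symm
  have h4 : ∑ k, w (a' k) ≤ 4 := by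
    calc ∑ k, w (a' k) ≤ ∑ _k : Fin 4, (1 : ℤ) := Finset.sum_le_sum fun k _ => by rcases hf1' k with h | h <;> omega
      _ = 4 := by simp
  rw [hf2'] at h4
  omega

end Pool.Agent.H45U
end

-- from Lib.H86L.L3
section

/-!
# L3: fields with a real place, third version: one block which is its own conjugate
-/

set_option autoImplicit false
set_option linter.unusedSectionVars false
namespace Pool.Agent.H86L
open Module Matrix Polynomial Pool.Agent.H53Toric Pool.Agent.H76P Pool.Agent.H76Q Pool.Agent.H86K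
open Pool.Agent.H76Y (Core3)
open Pool.Agent.H76T (IsIdeal Fam Lc)
open Pool.Agent.H76V (Cmp)
open Pool.Agent.H76U (cmp preL IsSplitting)
open Pool.Agent.H76RM (spanK similD)

/-- Complex conjugation `c` on `Ω`: it maps the roots of the polynomials to the opposite roots; the image of the
component `b` is linked with its conjugate component; and the condition on the Hodge-Tate projectors: for almost all
`l` for which the elements of `T₀` are in `ℚ_l` there is a Hodge-Tate projector which commutes with the Frobenius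
element and whose class is rational over `ℚ_l`. -/
structure Real3 {Ω M : Type*} [Field Ω] [CharZero Ω] [Field M] {ι : Type*} [Fintype ι] [DecidableEq ι] {G : Type*}
    [Group G] (D : Subalgebra ℚ (Matrix ι ι ℚ))
    (ρ : ∀ (l : ℕ) [Fact l.Prime], G →* Matrix.GeneralLinearGroup ι ℚ_[l]) (σ : G) (q : ℚ) {m : ℕ}
    (bar : Fin m → Fin m) (e : Fin m → Matrix ι ι M) (F : Fin m → M[X])
    (j : M →+* Ω) (c : Ω ≃+* Ω) (T₀ : Finset Ω) (N : Set ℕ) : Prop where
  cc : ∀ x, c (c x) = x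
  link : ∀ b, Linked D ((e (bar b)).map j) ((e b).map (c.toRingHom.comp j))
  cT : ∀ x ∈ T₀, c x = x
  weil : ∀ b, ∀ y : Ω, (F b).eval₂ j y = 0 → y * c y = algebraMap ℚ Ω q
  fin : N.Finite
  ht : ∀ (l : ℕ) [Fact l.Prime], l ∉ N → ∀ i : Ω →+* AlgebraicClosure ℚ_[l],
    (∀ x ∈ T₀, ∃ y : ℚ_[l], i x = algebraMap ℚ_[l] (AlgebraicClosure ℚ_[l]) y) →
    ∃ h ∈ properProj (AlgebraicClosure ℚ_[l]) (ρ l),
      h * (ρ l σ).1.map (algebraMap ℚ_[l] (AlgebraicClosure ℚ_[l])) =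
        (ρ l σ).1.map (algebraMap ℚ_[l] (AlgebraicClosure ℚ_[l])) * h ∧
      ∀ t : AlgebraicClosure ℚ_[l] ≃ₐ[ℚ_[l]] AlgebraicClosure ℚ_[l],
        ∃ g g' : Matrix ι ι (AlgebraicClosure ℚ_[l]), g ∈ tgen (AlgebraicClosure ℚ_[l]) (ρ l) ∧ g * g' = 1 ∧
          h.map t = g * h * g'

variable {ι : Type*} [Fintype ι] [DecidableEq ι] {ψ : Matrix ι ι ℚ}
    {D : Subalgebra ℚ (Matrix ι ι ℚ)} {M : Type*} [Field M] [NumberField M]
    {m : ℕ} {bar : Fin m → Fin m} {e : Fin m → Matrix ι ι M} {G : Type*} [Group G]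
    {ρ : ∀ (l : ℕ) [Fact l.Prime], G →* Matrix.GeneralLinearGroup ι ℚ_[l]}
    {p : ℕ} [Fact p.Prime] {σ : G} {q : ℚ} {F : Fin m → M[X]}
    {φ μ ν : Matrix ι ι (AlgebraicClosure ℚ_[p])} {v : AlgebraicClosure ℚ_[p] → ℚ}
    {Δ : Set (AlgebraicClosure ℚ_[p] ≃+* AlgebraicClosure ℚ_[p])}
    {Ω : Type} [Field Ω] [CharZero Ω] [IsAlgClosed Ω] [Algebra.IsAlgebraic ℚ Ω] {j : M →+* Ω}
    {R : Finset Ω} {N : Set ℕ} (C : Core3 ψ D bar e ρ p σ q F φ μ ν v Δ j R N)

include C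









end Pool.Agent.H86L
end

-- from Lib.H76Z.W11a
section

/-!
# the partition
-/

set_option autoImplicit false
set_option linter.unusedSectionVars false
namespace Pool.Agent.H76Z
open Pool.Agent.H76Y
open Pool.Agent.H76P Pool.Agent.H76V Pool.Agent.H76Q
open Module Matrix Polynomial TensorProduct Pool.Agent.H53Toric
open Pool.Agent.H76P
open Pool.Agent.H76T (IsIdeal Fam Lc)
open Pool.Agent.H76U (cmp preL IsSplitting)
open Pool.Agent.H76RM (spanK similD)

variable {ι : Type*} [Fintype ι] [DecidableEq ι] {ψ : Matrix ι ι ℚ}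
    {D : Subalgebra ℚ (Matrix ι ι ℚ)} {M : Type*} [Field M] [NumberField M]
    {m : ℕ} {cl : Fin m → Cl} {bar : Fin m → Fin m} {e : Fin m → Matrix ι ι M} {u₀ : Matrix ι ι M} {G : Type*} [Group G]
    {ρ : ∀ (l : ℕ) [Fact l.Prime], G →* Matrix.GeneralLinearGroup ι ℚ_[l]}
    {p : ℕ} [Fact p.Prime] {σ : G} {q : ℚ} {F : Fin m → M[X]}
    {φ μ ν : Matrix ι ι (AlgebraicClosure ℚ_[p])} {v : AlgebraicClosure ℚ_[p] → ℚ}
    {Δ : Set (AlgebraicClosure ℚ_[p] ≃+* AlgebraicClosure ℚ_[p])}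
    {Ω : Type*} [Field Ω] [CharZero Ω] [IsAlgClosed Ω] [Algebra.IsAlgebraic ℚ Ω] {j : M →+* Ω}
    {R : Finset Ω} {N : Set ℕ} (C : Core3 ψ D cl bar e u₀ ρ p σ q F φ μ ν v Δ j R N)

include C


/-- The decomposition of the set `R` given by a family of good blocks. -/
theorem Core3.partd (b : Fin m) {n : ℕ} {a : Fin n → Ω} (ha : Function.Injective a)
    (hroot : ∀ y : Ω, (F b).eval₂ j y = 0 ↔ ∃ k, y = a k) (hn : 0 < n)
    {FF : Finset (Module.End ℚ (YS a))} (hFF : ∀ P ∈ FF, Sp P ∧ P ≠ 0 ∧ GoodN (cl b) P)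
    (horth : ∀ P ∈ FF, ∀ P' ∈ FF, P ≠ P' → P * P' = 0) (hsum : ∑ P ∈ FF, P = 1)
    (hperm : ∀ π : Equiv.Perm (Fin n), (∀ g ∈ YS a, g ∘ π ∈ YS a) → ∀ P ∈ FF,
      ∃ P' ∈ FF, MvP π P P') (h2 : 0 < FF.card) :
    ∃ (c : Ω → Fin FF.card) (A : Fin FF.card → ℕ),
      PartN D j (cl b = .s) (e b) (e (bar b)) (F b) q R c A ∧
      n = ∏ x, A x := by
  classical
  have hne : Nonempty (Fin n) := ⟨⟨0, hn⟩⟩
  have h0 : ∀ f ∈ YS a, ∑ k, f k = 0 := fun f hf => hf.1
  have hSp : ∀ P ∈ FF, Sp P := fun P hP => (hFF P hP).1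
  obtain ⟨RP, hRP, hcov, hdis, hmove⟩ := C.types3 b ha hroot hFF horth hsum hperm
  obtain ⟨-, ha0, hprod, hq0⟩ := C.w9_prod b ha hroot
  obtain ⟨i₀⟩ := w9_exists_i p Ω
  have hsep : ∀ k l, k ≠ l → ∃ g ∈ YS a, g k ≠ g l :=
    YS_sep ha0 fun k l n hn h => ha (C.tor b ((hroot _).2 ⟨k, rfl⟩) ((hroot _).2 ⟨l, rfl⟩) hn h)
  obtain ⟨E⟩ : Nonempty ({P // P ∈ FF} ≃ Fin FF.card) := ⟨FF.equivFin⟩
  obtain ⟨P₀, hP₀⟩ := Finset.card_pos.1 h2
  obtain ⟨c, hc⟩ : ∃ c : Ω → Fin FF.card, ∀ (P : Module.End ℚ (YS a)) (hP : P ∈ FF) (r : Ω), r ∈ RP P → c r = E ⟨P, hP⟩ := by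
    refine ⟨fun r => if h : ∃ P : {P // P ∈ FF}, r ∈ RP P.1 then E h.choose else E ⟨P₀, hP₀⟩, fun P hP r hr => ?_⟩
    have h : ∃ P : {P // P ∈ FF}, r ∈ RP P.1 := ⟨⟨P, hP⟩, hr⟩
    simp only [dif_pos h]
    congr 1
    exact Subtype.ext (hdis _ h.choose.2 _ hP r h.choose_spec hr)
  refine ⟨c, fun x => nz (E.symm x).1, ⟨?_, ?_, ?_⟩, ?_⟩
  · intro x
    obtain ⟨r, hr⟩ := (hRP (E.symm x).1 (E.symm x).2).2
    refine ⟨r, (hRP (E.symm x).1 (E.symm x).2).1 hr, ?_⟩
    rw [hc _ (E.symm x).2 r hr, Subtype.coe_eta, Equiv.apply_symm_apply]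
  · intro x
    obtain ⟨P, hP⟩ := E.symm x
    show Even (nz P)
    obtain ⟨i, ε, hε, hf⟩ := C.onto b ha hroot (hFF P hP).1 (hFF P hP).2.2 (hFF P hP).2.1
    obtain ⟨H₀, U, V, -, hloc⟩ := C.locp b ha hroot i
    obtain ⟨-, h3, h4⟩ := HT_spec hloc C.crys.mu C.crys.muphi hε
    exact nz_even2 hsep (hSp P hP) hf h4 (h0 ε h3)
  · intro s hlink
    obtain ⟨π₀, hs1, hs2, hs3⟩ := hmove s hlink
    -- a permutation which acts trivially or as an inversion fixes all blocks
    have htriv : ∀ P : Module.End ℚ (YS a), (∀ k, π₀ k = k) ∨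
        (∀ k, a k * a (π₀ k) = algebraMap ℚ Ω q) → MvP π₀ P P := by
      intro P h
      rcases h with h | h
      · exact ⟨fun k k' => by rw [h, h], fun k k' => by rw [h, h]⟩
      · have hbb : ∀ k, π₀ (π₀ k) = k := by
          intro k
          apply ha
          have h1 := h k
          have h3 := h (π₀ k)
          rw [← h1, mul_comm (a k)] at h3
          exact mul_left_cancel₀ (ha0 _) h3
        have hneg : ∀ (f : YS a) (k : Fin n), (f : Fin n → ℚ) (π₀ k) = -(f : Fin n → ℚ) k :=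
          fun f k => YS_bar ha0 h f.2 k
        have hczb : ∀ (P : Module.End ℚ (YS a)) (k k' : Fin n), cz P k k' → cz P (π₀ k) (π₀ k') := by
          intro P k k' h f
          rw [hneg, hneg, h f]
        refine ⟨fun k k' => ⟨hczb P k k', fun h => ?_⟩, fun k k' => ⟨hczb (1 - P) k k', fun h => ?_⟩⟩
        · have h1 := hczb P _ _ h
          rwa [hbb, hbb] at h1
        · have h1 := hczb (1 - P) _ _ h
          rwa [hbb, hbb] at h1
    obtain ⟨g, hg⟩ : ∃ g : Module.End ℚ (YS a) → Module.End ℚ (YS a), ∀ P ∈ FF, g P ∈ FF ∧ MvP π₀ P (g P) ∧ ∀ r ∈ RP P, s r ∈ RP (g P) := by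
      refine ⟨fun P => if h : P ∈ FF then (hs3 P h).choose else P, fun P hP => ?_⟩
      simp only [dif_pos hP]
      exact (hs3 P hP).choose_spec
    have hinj : ∀ P ∈ FF, ∀ P' ∈ FF, g P = g P' → P = P' := by
      intro P hP P' hP' h
      have h3 := (hg P hP).2.1
      have h4 := (hg P' hP').2.1
      rw [← h] at h4
      exact g10_ext h0 (hSp P hP) (hSp P' hP') (fun k k' => (h3.1 k k').trans (h4.1 k k').symm)
        fun k k' => (h3.2 k k').trans (h4.2 k k').symm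
    let G' : {P // P ∈ FF} → {P // P ∈ FF} := fun P => ⟨g P.1, (hg P.1 P.2).1⟩
    have hG'inj : Function.Injective G' := fun P P' h => Subtype.ext (hinj P.1 P.2 P'.1 P'.2 (congrArg Subtype.val h))
    obtain ⟨g', hg'⟩ : ∃ g' : Equiv.Perm {P // P ∈ FF}, ∀ P, (g' P).1 = g P.1 :=
      ⟨Equiv.ofBijective G' (Finite.injective_iff_bijective.1 hG'inj), fun _ => rfl⟩
    have hg'pow : ∀ (k : ℕ) (P : {P // P ∈ FF}), ((g' ^ k) P).1 = g^[k] P.1 := by
      intro k
      induction k with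
      | zero => intro P; rfl
      | succ k ih =>
        intro P
        rw [Function.iterate_succ_apply', pow_succ', Equiv.Perm.mul_apply, hg', ih]
    obtain ⟨π, hπ⟩ : ∃ π : Equiv.Perm (Fin FF.card), ∀ x, π x = E (g' (E.symm x)) :=
      ⟨(E.symm.trans g').trans E, fun _ => rfl⟩
    have hπpow : ∀ (k : ℕ) (x : Fin FF.card), (π ^ k) x = E ((g' ^ k) (E.symm x)) := by
      intro k
      induction k with
      | zero => intro x; exact (E.apply_symm_apply x).symm
      | succ k ih =>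
        intro x
        rw [pow_succ', Equiv.Perm.mul_apply, ih, hπ, Equiv.symm_apply_apply, pow_succ', Equiv.Perm.mul_apply]
    refine ⟨π, ?_, ?_, ?_, ?_⟩
    · intro r hr
      obtain ⟨P, hP, hrP⟩ := hcov r hr
      rw [hc P hP r hrP, hπ, Equiv.symm_apply_apply, hc (g P) (hg P hP).1 (s r) ((hg P hP).2.2 r hrP)]
      congr 1
      exact Subtype.ext (hg' ⟨P, hP⟩).symm
    · intro x
      show nz (E.symm (π x)).1 = nz (E.symm x).1
      rw [hπ, Equiv.symm_apply_apply, hg']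
      exact (nz_mv (hg _ (E.symm x).2).2.1).symm
    · intro hy
      have h3 : (∀ k, π₀ k = k) ∨ (∀ k, a k * a (π₀ k) = algebraMap ℚ Ω q) := by
        rcases hs1 with ⟨hs1, -⟩ | ⟨-, hs1⟩
        · right
          intro k
          rw [← hs1, mul_comm]
          exact hy (a k) ((hroot _).2 ⟨k, rfl⟩)
        · left
          intro k
          apply ha
          have h4 := hy (a k) ((hroot _).2 ⟨k, rfl⟩)
          rw [← hs1 k] at h4
          have h5 : s (a k) ≠ 0 := fun h0 => ha0 k (by rwa [_root_.map_eq_zero] at h0)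
          exact (mul_left_cancel₀ h5 h4).symm
      have h5 : ∀ P ∈ FF, g P = P := by
        intro P hP
        have h6 := (hg P hP).2.1
        have h7 := htriv P h3
        refine g10_ext h0 (hSp _ (hg P hP).1) (hSp P hP) (fun k k' => ?_) fun k k' => ?_
        · have h8 := h6.1 (π₀.symm k) (π₀.symm k')
          have h9 := h7.1 (π₀.symm k) (π₀.symm k')
          rw [Equiv.apply_symm_apply, Equiv.apply_symm_apply] at h8 h9
          exact h8.symm.trans h9
        · have h8 := h6.2 (π₀.symm k) (π₀.symm k')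
          have h9 := h7.2 (π₀.symm k) (π₀.symm k')
          rw [Equiv.apply_symm_apply, Equiv.apply_symm_apply] at h8 h9
          exact h8.symm.trans h9
      ext x
      rw [hπ, Equiv.Perm.one_apply]
      have h6 : g' (E.symm x) = E.symm x := Subtype.ext ((hg' _).trans (h5 _ (E.symm x).2))
      rw [h6, Equiv.apply_symm_apply]
    · intro hb
      have hbar : bar b = b := (C.hspl.self b).2 (by rw [hb]; decide)
      rcases hs1 with ⟨hs1, hlink'⟩ | ⟨hb', -⟩
      · obtain ⟨u, hu, P, hP, hgu⟩ := C.odd b hb ha hroot hn hFF horth hsum hlink' hs1 g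
          fun P hP => ⟨(hg P hP).1, (hg P hP).2.1⟩
        refine ⟨u, E ⟨P, hP⟩, hu, ?_⟩
        rw [hπpow, Equiv.symm_apply_apply]
        congr 1
        exact Subtype.ext ((hg'pow u ⟨P, hP⟩).trans hgu)
      · exact absurd hbar hb'
  · have h7 := prod_nz h0 hsep hSp horth hsum
    rw [Fintype.card_fin] at h7
    refine h7.trans ?_
    rw [← Finset.prod_coe_sort]
    exact Fintype.prod_equiv E _ _ fun P => by rw [Equiv.symm_apply_apply]

end Pool.Agent.H76Z
end

-- from Lib.H76Z.W11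
section

/-!
# the Lie algebra of a component
-/

set_option autoImplicit false
set_option linter.unusedSectionVars false
namespace Pool.Agent.H76Z
open Pool.Agent.H76Y
open Pool.Agent.H76P Pool.Agent.H76V Pool.Agent.H76Q
open Module Matrix Polynomial Pool.Agent.H53Toric
open Pool.Agent.H76P
open Pool.Agent.H76T (IsIdeal Fam Lc)
open Pool.Agent.H76U (cmp preL IsSplitting)
open Pool.Agent.H76RM (spanK similD)

variable {ι : Type*} [Fintype ι] [DecidableEq ι] {ψ : Matrix ι ι ℚ}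
    {D : Subalgebra ℚ (Matrix ι ι ℚ)} {M : Type*} [Field M] [NumberField M]
    {m : ℕ} {cl : Fin m → Cl} {bar : Fin m → Fin m} {e : Fin m → Matrix ι ι M} {u₀ : Matrix ι ι M} {G : Type*} [Group G]
    {ρ : ∀ (l : ℕ) [Fact l.Prime], G →* Matrix.GeneralLinearGroup ι ℚ_[l]}
    {p : ℕ} [Fact p.Prime] {σ : G} {q : ℚ} {F : Fin m → M[X]}
    {φ μ ν : Matrix ι ι (AlgebraicClosure ℚ_[p])} {v : AlgebraicClosure ℚ_[p] → ℚ}
    {Δ : Set (AlgebraicClosure ℚ_[p] ≃+* AlgebraicClosure ℚ_[p])}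
    {Ω : Type*} [Field Ω] [CharZero Ω] [IsAlgClosed Ω] [Algebra.IsAlgebraic ℚ Ω] {j : M →+* Ω}
    {R : Finset Ω} {N : Set ℕ} (C : Core3 ψ D cl bar e u₀ ρ p σ q F φ μ ν v Δ j R N)

include C


/-- The rank of the idempotent is even and positive. -/
theorem Core3.rank_even (b : Fin m) : 0 < (e b).rank ∧ Even (e b).rank := by
  obtain ⟨a, ha, hroot⟩ := C.enum b
  obtain ⟨h1, -⟩ := C.w9_prod b ha hroot
  obtain ⟨i⟩ := w9_exists_i p Ω
  refine ⟨h1, ?_⟩
  rw [← C.bal p μ C.crys.mu (i.comp j) b]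
  exact even_two_mul _

/-- The component theorem: if the decompositions of the set of embeddings are excluded, the Lie algebra
of the component is the whole symplectic, orthogonal or special linear algebra. -/
theorem Core3.comp (part : ∀ b (k : ℕ) (c : Ω → Fin k) (A : Fin k → ℕ), 2 ≤ k →
      PartN D j (cl b = .s) (e b) (e (bar b)) (F b) q R c A → (e b).rank ≠ ∏ x, A x)
    (two : ∀ b (k : ℕ), 3 ≤ k → (cl b = .s → 4 ≤ k) → (cl b = .n → 4 ≤ k ∧ Even k) →
      (e b).rank ≠ 2 ^ k)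
    (binom : ∀ b (k : ℕ), (cl b = .s → 3 ≤ k ∧ Odd k) → (cl b = .o → 4 ≤ k ∧ Even k) →
      cl b ≠ .n → (e b).rank ≠ k.centralBinom) (b : Fin m) :
    ∃ a : Fin (e b).rank → Ω, Function.Injective a ∧
      (∀ y : Ω, (F b).eval₂ j y = 0 ↔ ∃ k, y = a k) ∧
      ∀ (K : Type) [Field K] [CharZero K] [IsAlgClosed K]
        (L : Submodule K (Module.End K (Fin (e b).rank → K))), TM L → Yo L = YS a →
        (cl b = .s → ∀ J : Matrix (Fin (e b).rank) (Fin (e b).rank) K, Jᵀ = -J → IsUnit J.det →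
          (∀ X ∈ L, adjE J X = -X) → ∀ X, adjE J X = -X → X ∈ L) ∧
        (cl b = .o → ∀ J : Matrix (Fin (e b).rank) (Fin (e b).rank) K, Jᵀ = J → IsUnit J.det →
          (∀ X ∈ L, adjE J X = -X) → ∀ X, adjE J X = -X → X ∈ L) ∧
        (cl b = .n → NsL L → ∀ X : Module.End K (Fin (e b).rank → K),
          LinearMap.trace K (Fin (e b).rank → K) X = 0 → X ∈ L) := by
  obtain ⟨a, ha, hroot⟩ := C.enum b
  obtain ⟨hn, hev⟩ := C.rank_even b
  obtain ⟨-, ha0, -, -⟩ := C.w9_prod b ha hroot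
  have hsep : ∀ k l, k ≠ l → ∃ g ∈ YS a, g k ≠ g l :=
    YS_sep ha0 fun k l n hn h => ha (C.tor b ((hroot _).2 ⟨k, rfl⟩) ((hroot _).2 ⟨l, rfl⟩) hn h)
  have hs : ∀ g ∈ YS a, ∑ k, g k = 0 := fun g hg => hg.1
  obtain ⟨FF, hFF, horth, hsum, hperm, hone⟩ := exists_blocksN hn hs (cl b) fun h8 h9 =>
    two b 3 le_rfl (fun h => by rw [h8] at h; cases h) (fun h => by rw [h8] at h; cases h)
      (by rw [h9]; norm_num)
  have : Nonempty (Fin (e b).rank) := ⟨⟨0, hn⟩⟩
  have hF1 : FF.card = 1 := by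
    rcases Nat.lt_or_ge FF.card 2 with h5 | h5
    · interval_cases h6 : FF.card
      · exfalso
        have hcard : (e b).rank = 1 := by
          have h7 := prod_nz hs hsep (fun P hP => (hFF P hP).1) horth hsum
          rw [Finset.card_eq_zero.1 h6, Finset.prod_empty, Fintype.card_fin] at h7
          exact h7
        rw [hcard] at hev
        exact absurd hev (by decide)
      · rfl
    · exfalso
      obtain ⟨c, A, h7, h8⟩ := C.partd b ha hroot hn hFF horth hsum hperm (by omega)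
      exact part b FF.card c A h5 h7 h8
  have hB := hone hF1
  refine ⟨a, ha, hroot, fun K _ _ _ L hT hY => ⟨fun hb J hJ hJd hsk X hX => ?_,
    fun hb J hJ hJd hsk X hX => ?_, fun hb hns X hX => ?_⟩⟩
  · have hTS : TS L J := ⟨⟨hT.cmp.lie, hT.cmp.irr, hJ, hJd, hsk, hT.cmp.gen⟩, hT.diag, hT.sep⟩
    refine full_of_one hTS hY hB (fun k hk => ?_) (fun k hk hk2 => ?_) hX
    · rw [Fintype.card_fin]
      exact two b k (by omega) (fun _ => hk) (fun h => by rw [hb] at h; cases h)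
    · rw [Fintype.card_fin]
      exact binom b k (fun _ => ⟨hk, hk2⟩) (fun h => by rw [hb] at h; cases h)
        (by rw [hb]; decide)
  · refine full_of_oneO hT hJ hJd hsk hY hB (fun k hk => ?_) (fun k hk hk2 => ?_) hX
    · rw [Fintype.card_fin]
      exact two b k hk (fun h => by rw [hb] at h; cases h) (fun h => by rw [hb] at h; cases h)
    · rw [Fintype.card_fin]
      exact binom b k (fun h => by rw [hb] at h; cases h) (fun _ => ⟨hk, hk2⟩)
        (by rw [hb]; decide)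
  · refine H76Y.one_nsX hT hns hY hB (fun k hk hk2 => ?_) X hX
    rw [Fintype.card_fin]
    exact two b k (by omega) (fun h => by rw [hb] at h; cases h) (fun _ => ⟨hk, hk2⟩)

end Pool.Agent.H76Z
end

-- from Lib.H86L.M4
section

/-!
# M4: number fields with a real place, fourth version; the component theorem with a real place
-/

set_option autoImplicit false
set_option linter.unusedSectionVars false
namespace Pool.Agent.H86L
open Module Matrix Polynomial Pool.Agent.H53Toric Pool.Agent.H76P Pool.Agent.H76Q Pool.Agent.H86K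
open Pool.Agent.H76Y (LcN ThetaN TM CmpN NsL PartN)
open Pool.Agent.H76Z (Cl LocN Core3 Splits)
open Pool.Agent.H76T (IsIdeal Fam)
open Pool.Agent.H76U (cmp preL IsSplitting)
open Pool.Agent.H76RM (spanK similD)

section
variable {ι : Type*} [Fintype ι] [DecidableEq ι] {ψ : Matrix ι ι ℚ} {D : Subalgebra ℚ (Matrix ι ι ℚ)}

/-- **Positivity.** The image of a component under a complex conjugation is linked with the conjugate component. -/
theorem linked_of_pos4 (hψ : ψᵀ = -ψ) (hψ0 : ψ.det ≠ 0)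
    (hpos : ∀ d ∈ D, d ≠ 0 → 0 < (d * (ψ⁻¹ * dᵀ * ψ)).trace) {M : Type*} [Field M] [NumberField M] {m : ℕ}
    {cl : Fin m → Cl} {bar : Fin m → Fin m} {e : Fin m → Matrix ι ι M} {u₀ : Matrix ι ι M}
    (hspl : Splits D ψ cl bar e u₀) {Ω : Type*} [Field Ω] [CharZero Ω]
    (j : M →+* Ω) (κ : Ω →+* ℂ) (c : Ω ≃+* Ω) (hc : ∀ y, κ (c y) = (starRingEnd ℂ) (κ y)) (b : Fin m) :
    Linked D ((e (bar b)).map j) ((e b).map (c.toRingHom.comp j)) := by
  refine ⟨u₀.map (c.toRingHom.comp j), (hspl.map (c.toRingHom.comp j)).umem, fun h0 => ?_⟩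
  have S := hspl.map (κ.comp j)
  refine pos_ne hψ hψ0 hpos (S.mem (bar b)) (S.ne_zero (bar b)) ?_
  have hadj := S.adj (bar b)
  rw [hspl.barbar] at hadj
  have hdet : IsUnit (ψ.map (algebraMap ℚ ℂ)).det := by
    have h5 : (ψ.map (algebraMap ℚ ℂ)).det = algebraMap ℚ ℂ ψ.det := (RingHom.map_det _ _).symm
    rw [h5]
    exact ((_root_.map_ne_zero _).2 hψ0).isUnit
  have hcm : ∀ A : Matrix ι ι M, cj (A.map (κ.comp j)) = (A.map (c.toRingHom.comp j)).map κ := by
    intro A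
    ext a a'
    rw [cj, Matrix.map_apply, Matrix.map_apply, Matrix.map_apply, Matrix.map_apply]
    exact (hc _).symm
  obtain ⟨W, hW⟩ : ∃ W, W = (u₀.map (c.toRingHom.comp j)).map κ := ⟨_, rfl⟩
  have hWd : IsUnit W.det := by
    have h1 : W.det = κ (u₀.map (c.toRingHom.comp j)).det := by
      rw [hW]
      exact (RingHom.map_det _ _).symm
    rw [h1]
    exact (hspl.map (c.toRingHom.comp j)).unit.map κ
  -- the adjoint of the complex conjugate
  have h1 : (cj ((e (bar b)).map (κ.comp j)))ᵀ * (ψ.map (algebraMap ℚ ℂ) * W) =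
      ψ.map (algebraMap ℚ ℂ) * W * ((e b).map (c.toRingHom.comp j)).map κ := by
    have h2 := congrArg cj hadj
    have h3 : ∀ A B : Matrix ι ι ℂ, cj (A * B) = cj A * cj B := fun A B => Matrix.map_mul
    have h4 : cj (ψ.map (algebraMap ℚ ℂ)) = ψ.map (algebraMap ℚ ℂ) := by
      ext a b
      rw [cj, Matrix.map_apply, Matrix.map_apply, eq_ratCast, map_ratCast]
    rw [h3, h3, h3, h3, h4, hcm, hcm, ← hW] at h2
    exact h2
  have h3 : (e (bar b)).map (κ.comp j) = ((e (bar b)).map j).map κ := by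
    ext a a'
    rfl
  have h4 : (cj ((e (bar b)).map (κ.comp j)))ᵀ * ψ.map (algebraMap ℚ ℂ) =
      ψ.map (algebraMap ℚ ℂ) * (W * ((e b).map (c.toRingHom.comp j)).map κ * W⁻¹) := by
    calc (cj ((e (bar b)).map (κ.comp j)))ᵀ * ψ.map (algebraMap ℚ ℂ) =
        (cj ((e (bar b)).map (κ.comp j)))ᵀ * (ψ.map (algebraMap ℚ ℂ) * W) * W⁻¹ := by
          rw [mul_assoc, mul_assoc, Matrix.mul_nonsing_inv _ hWd, mul_one]
      _ = _ := by rw [h1]; simp only [mul_assoc]
  rw [mul_assoc, h4, ← mul_assoc (ψ.map (algebraMap ℚ ℂ))⁻¹, Matrix.nonsing_inv_mul _ hdet, one_mul, h3, hW,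
    ← mul_assoc, ← mul_assoc, ← Matrix.map_mul, ← Matrix.map_mul, h0]
  have h5 : (0 : Matrix ι ι Ω).map κ = 0 := by
    ext a a'
    simp
  rw [h5, zero_mul]

end

/-- A number field with a real place gives `Real3`: the involution is positive, the eigenvalues are Weil numbers, and
the condition on the Hodge-Tate projectors. -/
theorem real_of4 {F M Ω : Type} [Field F] [NumberField F] [Field M] [NumberField M] [Field Ω] [CharZero Ω]
    [Algebra F Ω] [IsAlgClosure F Ω] (j : M →+* Ω) (τ₀ : F →+* ℝ)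
    {ι : Type*} [Fintype ι] [DecidableEq ι] {ψ : Matrix ι ι ℚ} (hψ : ψᵀ = -ψ) (hψ0 : ψ.det ≠ 0)
    {D : Subalgebra ℚ (Matrix ι ι ℚ)} (hpos : ∀ d ∈ D, d ≠ 0 → 0 < (d * (ψ⁻¹ * dᵀ * ψ)).trace)
    {m : ℕ} {cl : Fin m → Cl} {bar : Fin m → Fin m} {e : Fin m → Matrix ι ι M} {u₀ : Matrix ι ι M}
    (hspl : Splits D ψ cl bar e u₀) {G : Type*} [Group G]
    (ρ : ∀ (l : ℕ) [Fact l.Prime], G →* Matrix.GeneralLinearGroup ι ℚ_[l]) (σ : G) (p : ℕ)
    (χ : Fin m → M[X]) (f : ℤ[X]) (weil : ∀ z : ℂ, aeval z f = 0 → ‖z‖ ^ 2 = p)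
    (hroot : ∀ b, ∀ a : Ω, (χ b).eval₂ j a = 0 → aeval a f = 0) (N : Set ℕ) (hN : N.Finite)
    (ht : ∀ (l : ℕ) [Fact l.Prime], l ∉ N → Nonempty (F →+* ℚ_[l]) →
      ∃ h ∈ properProj (AlgebraicClosure ℚ_[l]) (ρ l),
        h * (ρ l σ).1.map (algebraMap ℚ_[l] (AlgebraicClosure ℚ_[l])) =
          (ρ l σ).1.map (algebraMap ℚ_[l] (AlgebraicClosure ℚ_[l])) * h ∧
        ∀ t : AlgebraicClosure ℚ_[l] ≃ₐ[ℚ_[l]] AlgebraicClosure ℚ_[l],
          ∃ g g' : Matrix ι ι (AlgebraicClosure ℚ_[l]), g ∈ tgen (AlgebraicClosure ℚ_[l]) (ρ l) ∧ g * g' = 1 ∧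
            h.map t = g * h * g') :
    ∃ (c : Ω ≃+* Ω) (T₀ : Finset Ω), Real3 D ρ σ (p : ℚ) bar e χ j c T₀ N := by
  classical
  have hcl : IsAlgClosed Ω := IsAlgClosure.isAlgClosed F
  have halgF : Algebra.IsAlgebraic F Ω := IsAlgClosure.isAlgebraic
  have halg : Algebra.IsAlgebraic ℚ Ω := Algebra.IsAlgebraic.trans ℚ F Ω
  letI : Algebra F ℂ := (Complex.ofRealHom.comp τ₀).toAlgebra
  let κ : Ω →ₐ[F] ℂ := IsAlgClosed.lift
  obtain ⟨c, hc⟩ := exists_res (Ω := Ω) (κ : Ω →+* ℂ) (starRingAut : ℂ ≃+* ℂ)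
  have hc' : ∀ y, κ (c y) = (starRingEnd ℂ) (κ y) := fun y => (hc y).symm
  have hinj : Function.Injective κ := κ.toRingHom.injective
  set bas := Module.finBasis ℚ F with hbas
  refine ⟨c, Finset.univ.image fun k => algebraMap F Ω (bas k), ?_, ?_, ?_, ?_, hN, ?_⟩
  · intro x
    apply hinj
    rw [hc', hc', Complex.conj_conj]
  · intro b
    exact linked_of_pos4 hψ hψ0 hpos hspl j (κ : Ω →+* ℂ) c hc' b
  · intro x hx
    obtain ⟨k, -, rfl⟩ := Finset.mem_image.1 hx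
    apply hinj
    rw [hc', κ.commutes]
    show (starRingEnd ℂ) ((τ₀ (bas k) : ℝ) : ℂ) = ((τ₀ (bas k) : ℝ) : ℂ)
    exact Complex.conj_ofReal _
  · intro b y hy
    apply hinj
    have h1 : aeval (κ y) f = 0 := by
      have h2 := hroot b y hy
      have h3 : aeval (κ y) f = κ (aeval y f) := by
        rw [aeval_def, aeval_def]
        have h4 : (algebraMap ℤ ℂ) = (κ : Ω →+* ℂ).comp (algebraMap ℤ Ω) := RingHom.ext_int _ _
        rw [h4]
        exact (hom_eval₂ f (algebraMap ℤ Ω) (κ : Ω →+* ℂ) y).symm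
      rw [h3, h2, map_zero]
    rw [map_mul, hc', Complex.mul_conj]
    have h5 := weil _ h1
    rw [Complex.normSq_eq_norm_sq, h5]
    rw [eq_ratCast, map_ratCast]
    push_cast
    rfl
  · intro l _ hl i hi
    refine ht l hl (exists_factor (i.comp (algebraMap F Ω)) (algebraMap ℚ_[l] (AlgebraicClosure ℚ_[l]))
      (algebraMap ℚ_[l] (AlgebraicClosure ℚ_[l])).injective fun x => ?_)
    have h1 : ∀ k, ∃ y : ℚ_[l], i (algebraMap F Ω (bas k)) = algebraMap ℚ_[l] (AlgebraicClosure ℚ_[l]) y :=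
      fun k => hi _ (Finset.mem_image_of_mem _ (Finset.mem_univ k))
    choose y hy using h1
    refine ⟨∑ k, ((bas.repr x k : ℚ) : ℚ_[l]) * y k, ?_⟩
    have h2 : x = ∑ k, (bas.repr x k : ℚ) • bas k := (bas.sum_repr x).symm
    rw [RingHom.comp_apply]
    conv_lhs => rw [h2]
    rw [map_sum, map_sum, map_sum]
    refine Finset.sum_congr rfl fun k _ => ?_
    rw [Rat.smul_def, map_mul, map_mul, map_mul, hy, map_ratCast, map_ratCast, map_ratCast]

section
variable {ι : Type*} [Fintype ι] [DecidableEq ι] {ψ : Matrix ι ι ℚ}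
    {D : Subalgebra ℚ (Matrix ι ι ℚ)} {M : Type*} [Field M] [NumberField M]
    {m : ℕ} {cl : Fin m → Cl} {bar : Fin m → Fin m} {e : Fin m → Matrix ι ι M} {u₀ : Matrix ι ι M}
    {G : Type*} [Group G]
    {ρ : ∀ (l : ℕ) [Fact l.Prime], G →* Matrix.GeneralLinearGroup ι ℚ_[l]}
    {p : ℕ} [Fact p.Prime] {σ : G} {q : ℚ} {F : Fin m → M[X]}
    {φ μ ν : Matrix ι ι (AlgebraicClosure ℚ_[p])} {v : AlgebraicClosure ℚ_[p] → ℚ}
    {Δ : Set (AlgebraicClosure ℚ_[p] ≃+* AlgebraicClosure ℚ_[p])}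
    {Ω : Type} [Field Ω] [CharZero Ω] [IsAlgClosed Ω] [Algebra.IsAlgebraic ℚ Ω] {j : M →+* Ω}
    {R : Finset Ω} {N : Set ℕ} (C : Core3 ψ D cl bar e u₀ ρ p σ q F φ μ ν v Δ j R N)

include C


end

end Pool.Agent.H86L
end

-- from Lib.H86L.N6
section

/-!
# N6: the complex conjugation over a real place
-/

set_option autoImplicit false
set_option linter.unusedSectionVars false
namespace Pool.Agent.H86L
open Module Matrix Polynomial Pool.Agent.H53Toric Pool.Agent.H76P Pool.Agent.H76Q Pool.Agent.H86K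
open Pool.Agent.H76Z (Cl Splits)

/-- **A real place.** A number field with a real place has an automorphism of its algebraic closure which fixes the
field and maps every component to a component linked with the conjugate component. -/
theorem real_place5 {F M Ω : Type} [Field F] [NumberField F] [Field M] [NumberField M] [Field Ω] [CharZero Ω]
    [Algebra F Ω] [IsAlgClosure F Ω] (j : M →+* Ω) (hreal : Nonempty (F →+* ℝ))
    {ι : Type*} [Fintype ι] [DecidableEq ι] {ψ : Matrix ι ι ℚ} (hψ : ψᵀ = -ψ) (hψ0 : ψ.det ≠ 0)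
    {D : Subalgebra ℚ (Matrix ι ι ℚ)} (hpos : ∀ d ∈ D, d ≠ 0 → 0 < (d * (ψ⁻¹ * dᵀ * ψ)).trace)
    {m : ℕ} {cl : Fin m → Cl} {bar : Fin m → Fin m} {e : Fin m → Matrix ι ι M} {u₀ : Matrix ι ι M}
    (hspl : Splits D ψ cl bar e u₀) :
    ∃ c : Ω ≃+* Ω, (∀ x : F, c (algebraMap F Ω x) = algebraMap F Ω x) ∧
      ∀ b, Linked D ((e (bar b)).map j) ((e b).map (c.toRingHom.comp j)) := by
  classical
  obtain ⟨τ₀⟩ := hreal
  have hcl : IsAlgClosed Ω := IsAlgClosure.isAlgClosed F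
  have halgF : Algebra.IsAlgebraic F Ω := IsAlgClosure.isAlgebraic
  have halg : Algebra.IsAlgebraic ℚ Ω := Algebra.IsAlgebraic.trans ℚ F Ω
  letI : Algebra F ℂ := (Complex.ofRealHom.comp τ₀).toAlgebra
  let κ : Ω →ₐ[F] ℂ := IsAlgClosed.lift
  obtain ⟨c, hc⟩ := exists_res (Ω := Ω) (κ : Ω →+* ℂ) (starRingAut : ℂ ≃+* ℂ)
  have hc' : ∀ y, κ (c y) = (starRingEnd ℂ) (κ y) := fun y => (hc y).symm
  refine ⟨c, fun x => ?_, fun b => linked_of_pos4 hψ hψ0 hpos hspl j (κ : Ω →+* ℂ) c hc' b⟩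
  apply κ.toRingHom.injective
  show κ (c (algebraMap F Ω x)) = κ (algebraMap F Ω x)
  rw [hc', κ.commutes]
  show (starRingEnd ℂ) ((τ₀ x : ℝ) : ℂ) = ((τ₀ x : ℝ) : ℂ)
  exact Complex.conj_ofReal _

end Pool.Agent.H86L
end

-- from Lib.H76W.G5c
section

/-!
# one class of Hodge-Tate cocharacters, fifth version
-/

set_option autoImplicit false
set_option linter.unusedSectionVars false
namespace Pool.Agent.H76W
open Module Matrix Polynomial Pool.Agent.H53Toric Pool.Agent.H76P Pool.Agent.H76Q Pool.Agent.H45Q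
open Pool.Agent.H76Y (LcN SyL)
open Pool.Agent.H76Z (Cl OrL Splits)
open Pool.Agent.H45U (Core5 LocU PartU ClsU)
open Pool.Agent.H76T (IsIdeal Fam)
open Pool.Agent.H76V (Cmp)
open Pool.Agent.H76U (cmp preL IsSplitting)
open Pool.Agent.H76RM (spanK similD)

theorem par_one {ι : Type*} [Fintype ι] [DecidableEq ι] {K : Type*} [Field K] [CharZero K]
    {J : Matrix ι ι K} {S 𝓗 : Set (Matrix ι ι K)} {e x : Matrix ι ι K} {n : ℕ}
    {U : Matrix ι (Fin n) K} {V : Matrix (Fin n) ι K} {d : Fin n → K} {Y : Submodule ℚ (Fin n → ℚ)}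
    [IsAlgClosed K] (h : LocU J S 𝓗 e x U V d Y) {k : Matrix ι ι K} (hk : k ∈ 𝓗)
    (hr : 2 * (k * e).rank = n) : phi (cmp U V ((2 : K) • k - 1)) ∈ LcN J S U V := by
  obtain ⟨h1, h2, c, hc⟩ := h.par k hk
  have hcc : (c : K) = 1 := by
    have h3 := h.ts.cmp.tr _ hc
    have h4 : phi (cmp U V k) * phi (cmp U V k) = phi (cmp U V k) := by
      rw [← map_mul, ← Pool.Agent.H76U.cmp_mul h.UV h.VU h2, h1]
    have h5 := trace_idem h4
    have h6 : ((finrank K (LinearMap.range (phi (cmp U V k)))) : K) = ((k * e).rank : K) := by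
      rw [← Pool.Agent.H76U.rank_cmp h.UV h.VU h2]
      rfl
    have hn : (n : K) ≠ 0 := by exact_mod_cast h.pos.ne'
    have h7 : (2 : K) * ((k * e).rank : K) = n := by exact_mod_cast hr
    have h8 : phi (cmp U V ((2 : K) • k - (c : K) • 1)) = (2 : K) • phi (cmp U V k) - (c : K) • 1 := by
      rw [map_sub (cmp U V), map_smul (cmp U V), map_smul (cmp U V), Pool.Agent.H76U.cmp_one h.UV h.VU,
        map_sub (phi (ι := Fin n) (K := K)), map_smul (phi (ι := Fin n) (K := K)),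
        map_smul (phi (ι := Fin n) (K := K)), map_one (phi (ι := Fin n) (K := K))]
    rw [h8, map_sub, map_smul, map_smul, h5, h6, LinearMap.trace_one, Module.finrank_fintype_fun_eq_card,
      Fintype.card_fin, smul_eq_mul, smul_eq_mul, h7, sub_eq_zero] at h3
    exact (mul_right_cancel₀ hn (by rw [one_mul]; exact h3)).symm
  rw [hcc, one_smul] at hc
  exact hc

variable {ι : Type*} [Fintype ι] [DecidableEq ι] {ψ : Matrix ι ι ℚ}
    {D : Subalgebra ℚ (Matrix ι ι ℚ)} {M : Type*} [Field M] [NumberField M]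
    {m : ℕ} {cl : Fin m → Cl} {bar : Fin m → Fin m} {e : Fin m → Matrix ι ι M} {u₀ : Matrix ι ι M} {G : Type*} [Group G]
    {ρ : ∀ (l : ℕ) [Fact l.Prime], G →* Matrix.GeneralLinearGroup ι ℚ_[l]}
    {p : ℕ} [Fact p.Prime] {σ : G} {q : ℚ} {F : Fin m → M[X]}
    {φ μ ν : Matrix ι ι (AlgebraicClosure ℚ_[p])} {v : AlgebraicClosure ℚ_[p] → ℚ}
    {Δ : Set (AlgebraicClosure ℚ_[p] ≃+* AlgebraicClosure ℚ_[p])}
    {Ω : Type*} [Field Ω] [CharZero Ω] [IsAlgClosed Ω] [Algebra.IsAlgebraic ℚ Ω] {j : M →+* Ω}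
    {R : Finset Ω} {N : Set ℕ} {hd : Fin m → Ω → ℕ} {ub : Fin m → Prop}
    (C : Core5 ψ D cl bar e u₀ ρ p σ q F φ μ ν v Δ j R N hd ub)

include C

/-- Local data at any prime. -/
theorem loc_any5 (b : Fin m) {n : ℕ} {a : Fin n → Ω} (ha : Function.Injective a)
    (hroot : ∀ y : Ω, (F b).eval₂ j y = 0 ↔ ∃ k, y = a k)
    (l : ℕ) [hl : Fact l.Prime] (i : Ω →+* AlgebraicClosure ℚ_[l]) :
    ∃ (H₀ : Subgroup G) (U : Matrix ι (Fin n) (AlgebraicClosure ℚ_[l]))
      (V : Matrix (Fin n) ι (AlgebraicClosure ℚ_[l])) (x : Matrix ι ι (AlgebraicClosure ℚ_[l])), H₀.FiniteIndex ∧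
      LocU (ψ.map (algebraMap ℚ (AlgebraicClosure ℚ_[l]))) (img (AlgebraicClosure ℚ_[l]) (ρ l) H₀)
        (properProj (AlgebraicClosure ℚ_[l]) (ρ l)) ((e b).map (i.comp j)) x
        U V (fun k => i (a k)) (YS a) ∧
      ClsU (cl b) (LcN (ψ.map (algebraMap ℚ (AlgebraicClosure ℚ_[l])))
        (img (AlgebraicClosure ℚ_[l]) (ρ l) H₀) U V) := by
  by_cases hlp : l = p
  · subst hlp
    obtain ⟨H₀, U, V, h1, h2, h3⟩ := C.locp b ha hroot i
    exact ⟨H₀, U, V, _, h1, h2, h3⟩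
  · obtain ⟨H₀, U, V, h1, h2, h3⟩ := C.locl b ha hroot l hlp i
    exact ⟨H₀, U, V, _, h1, h2, h3⟩

/-- **One class: at one prime a component with an alternating form is simple.** -/
theorem simple5 (hg : Gen1 ρ) (b : Fin m) (hb : cl b = .s) {n : ℕ} {a : Fin n → Ω} (ha : Function.Injective a)
    (hroot : ∀ y : Ω, (F b).eval₂ j y = 0 ↔ ∃ k, y = a k) :
    ∃ (l : ℕ) (_ : Fact l.Prime) (L : Submodule (AlgebraicClosure ℚ_[l])
        (Module.End (AlgebraicClosure ℚ_[l]) (Fin n → AlgebraicClosure ℚ_[l]))),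
      0 < n ∧ H76Y.TM L ∧ SyL L ∧ H76P.Yo L = YS a ∧
      ∃ I : Fin 1 → Submodule (AlgebraicClosure ℚ_[l]) (Module.End (AlgebraicClosure ℚ_[l]) (Fin n → AlgebraicClosure ℚ_[l])),
        Fam L I := by
  obtain ⟨l, hl, h, hh, hgen⟩ := hg
  let i : Ω →+* AlgebraicClosure ℚ_[l] :=
    (IsAlgClosed.lift (R := ℚ) (S := Ω) (M := AlgebraicClosure ℚ_[l])).toRingHom
  obtain ⟨H₀, U, V, x, -, hL, hcls⟩ := loc_any5 C b ha hroot l i
  have hsy := hcls.1 hb
  have hT := (H45U.tm_iff (Or.inl hsy)).1 hL.ts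
  refine ⟨l, hl, _, hL.pos, hT, hsy, (H45U.Yo_eq (Or.inl hsy)).symm.trans hL.yo, ?_⟩
  have hspl := C.hspl.map (i.comp j)
  have hne : Nonempty (Fin n) := ⟨⟨0, hL.pos⟩⟩
  have hn := C.card b ha hroot
  obtain ⟨m', I, hF⟩ := Pool.Agent.H76T.exists_fam hT.cmp.lie hT.cmp.irr hT.cmp.tr
  have h1 : m' = 1 := by
    refine fam_one (Gs := img (AlgebraicClosure ℚ_[l]) (ρ l) ⊤) hL.pos hL.UV hL.VU hT.cmp.irr hT.cmp.tr
      (fun k hk => ⟨(hL.par k hk).1, (hL.par k hk).2.1, par_one hL hk ?_⟩)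
      (fun Z hZ => hspl.corner b Z (C.commt l ⊤ inferInstance Z hZ)) hh ?_ hF
    · rw [C.bal l k hk (i.comp j) b (by rw [hb]; decide), hn]
    · rintro _ ⟨g, -, rfl⟩
      exact hgen g
  subst h1
  exact ⟨I, hF⟩

/-- The components of rank `2 ^ k` with an alternating form. -/
theorem odd_two5 (hg : Gen1 ρ) (b : Fin m) (hb : cl b = .s) {n : ℕ} {a : Fin n → Ω} (ha : Function.Injective a)
    (hroot : ∀ y : Ω, (F b).eval₂ j y = 0 ↔ ∃ k, y = a k) {k : ℕ} (hk : n = 2 ^ k)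
    (hk' : ¬ (5 ≤ k ∧ (k % 4 = 1 ∨ k % 4 = 2))) :
    ∃ bar' : Equiv.Perm (Fin n), (∀ k, bar' (bar' k) = k) ∧ (∀ k, bar' k ≠ k) ∧
      (∀ f : Fin n → ℚ, (∀ k, f (bar' k) = -f k) → f ∈ YS a) ∧ ∀ f ∈ YS a, ∀ k, f (bar' k) = -f k := by
  obtain ⟨l, hl, L, hn, hT, hsy, hY, I, hF⟩ := simple5 C hg b hb ha hroot
  have hne : Nonempty (Fin n) := ⟨⟨0, hn⟩⟩
  obtain ⟨J, hTS⟩ := H76Y.ts_of_sy hT hsy
  rw [← hY]
  refine exists_odd hTS ?_
  rcases Cmp.simple hTS.cmp hF with h2 | ⟨n', hn', hn2', hn3', -⟩ | ⟨k', hk1, hk2, hk3, -⟩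
  · exact h2
  · exfalso
    rw [Module.finrank_fintype_fun_eq_card, Fintype.card_fin, hk] at hn3'
    have h3 : k = n' := Nat.pow_right_injective le_rfl hn3'
    subst h3
    exact hk' ⟨hn', hn2'⟩
  · exfalso
    rw [Module.finrank_fintype_fun_eq_card, Fintype.card_fin, hk] at hk3
    exact Pool.Agent.H49M.R3_binom_pow (by omega) hk3.symm

/-- **The components of rank `2 ^ k` with an alternating form are full.** -/
theorem full_two5 (hg : Gen1 ρ) (b : Fin m) (hb : cl b = .s) {n : ℕ} {a : Fin n → Ω} (ha : Function.Injective a)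
    (hroot : ∀ y : Ω, (F b).eval₂ j y = 0 ↔ ∃ k, y = a k) {k : ℕ} (hk : n = 2 ^ k)
    (hk' : ¬ (5 ≤ k ∧ (k % 4 = 1 ∨ k % 4 = 2))) {K : Type} [Field K] [CharZero K] [IsAlgClosed K]
    {L : Submodule K (Module.End K (Fin n → K))} {J : Matrix (Fin n) (Fin n) K} (hTS : TS L J)
    (hY : H76P.Yo L = YS a) {X : Module.End K (Fin n → K)} (hX : adjE J X = -X) : X ∈ L := by
  have hn : 0 < n := by rw [hk]; positivity
  have hne : Nonempty (Fin n) := ⟨⟨0, hn⟩⟩
  obtain ⟨bar', hbb, hbne, hodd, hsk'⟩ := odd_two5 C hg b hb ha hroot hk hk'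
  exact full_odd hTS hY hbb hbne hodd hsk' hX

end Pool.Agent.H76W
end

-- from Lib.H34V.N07
section

/-!
# N07: elements of the closure with one nontrivial block (port of H34Z/M06)
-/

set_option autoImplicit false
set_option linter.unusedSectionVars false
namespace Pool.Agent.H34V
open Module Matrix Pool.Agent.H53Toric Pool.Agent.H76P Pool.Agent.H34Z
open Pool.Agent.H76U (cmp preL Lb Split4)
open Pool.Agent.H76Y (LcN)
open Pool.Agent.H76RM (zar_commute zlie_commute)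

variable {ι : Type*} [Fintype ι] [DecidableEq ι] {K : Type*} [Field K] [CharZero K] [IsAlgClosed K]
  {J u : Matrix ι ι K} {DD : Submodule K (Matrix ι ι K)} {S 𝓗 : Set (Matrix ι ι K)} {x : Matrix ι ι K}
  {B : Type*} [Fintype B] [DecidableEq B] {bar : B → B} {e : B → Matrix ι ι K} {n : B → ℕ}
  {U : ∀ b, Matrix ι (Fin (n b)) K} {V : ∀ b, Matrix (Fin (n b)) ι K} {d : ∀ b, Fin (n b) → K}

namespace Sit5
variable (g : Sit5 J u DD S 𝓗 x bar e n U V d)
include g

/-- PROOF. `A ∈ brk` with `pb b A = phi N`, `pb c A = 0` for `c ≠ b, bar b` (`indep`).  `A ∈ zlie S` (`brk_zlie`), `A` commutes with `DD`, `Aᵀ (J u) + J u A = 0` (`brk_skew`, `pskew`).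
`A * e c = U c * (V c * A * U c) * V c` for all `c`, so `A * e c = 0` for `c ≠ b, bar b`, and `A * A * e b = U b * N * N * V b = 0`.  `(A * A)ᵀ * (J*u) = J*u * (A * A)`, so
`J*u * e (bar b) * (A * A) = (e b)ᵀ * (J*u) * (A*A) = (e b)ᵀ * (A*A)ᵀ * (J*u) = (A * A * e b)ᵀ * (J*u) = 0` and `e (bar b) * A * A = 0` (`det'`), `A * A * e (bar b) = 0`.
So `A * A = 0` by `g.spl.ext_comm`.  `y = 1 + A ∈ zar S` (`zlie_exp` with `x = 1`, `t = 1`).  `yᵀ (J u) y = J u + (Aᵀ J u + J u A) + Aᵀ J u A`, and `Aᵀ J u A = -J u A A = 0`.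
`y * U b = U b + A * U b = U b + U b * N`. -/
theorem one_add {b : B} {N : Matrix (Fin (n b)) (Fin (n b)) K} (hN : N * N = 0) (hNL : phi N ∈ LcN J S (U b) (V b)) :
    ∃ y ∈ zar S, yᵀ * (J * u) * y = J * u ∧ y * U b = U b * (1 + N) ∧ ∀ c, c ≠ b → c ≠ bar b → y * e c = e c := by
  obtain ⟨A, hA, hAb, hAc⟩ := g.indep b hNL
  have hAz : A ∈ zlie S := brk_zlie hA
  have hAD : ∀ z ∈ DD, A * z = z * A := fun z hz => g.zD hAz hz
  have hAs : Aᵀ * (J * u) + J * u * A = 0 := by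
    have h1 := g.pskew (brk_pre hA) (c := 0) (by rw [brk_skew hA, zero_smul])
    rwa [zero_smul] at h1
  have hsk : Aᵀ * (J * u) = -(J * u * A) := eq_neg_of_add_eq_zero_left hAs
  have hAbm : V b * A * U b = N := by
    have h1 : phi (V b * A * U b) = phi N := hAb
    exact (phi (ι := Fin (n b)) (K := K)).injective h1
  have hAcm : ∀ c, c ≠ b → c ≠ bar b → V c * A * U c = 0 := by
    intro c h1 h2
    have h3 : phi (V c * A * U c) = 0 := hAc c h1 h2
    apply (phi (ι := Fin (n c)) (K := K)).injective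
    rw [h3, map_zero]
  have hblk : ∀ c, A * e c = U c * (V c * A * U c) * V c := by
    intro c
    calc A * e c = A * (e c * e c) := by rw [g.spl.idem]
      _ = A * e c * e c := by rw [Matrix.mul_assoc]
      _ = e c * A * e c := by rw [hAD _ (g.spl.mem c)]
      _ = (U c * V c) * A * (U c * V c) := by rw [← g.UV c]
      _ = U c * (V c * A * U c) * V c := by simp only [Matrix.mul_assoc]
  have hAU : A * U b = U b * N := by
    calc A * U b = A * (e b * U b) := by rw [g.eU b]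
      _ = (A * e b) * U b := by rw [Matrix.mul_assoc]
      _ = U b * N * V b * U b := by rw [hblk b, hAbm]
      _ = U b * N * (V b * U b) := by rw [Matrix.mul_assoc (U b * N)]
      _ = U b * N := by rw [g.VU b, Matrix.mul_one]
  have hA0 : ∀ c, c ≠ b → c ≠ bar b → A * e c = 0 := by
    intro c h1 h2
    rw [hblk c, hAcm c h1 h2, Matrix.mul_zero, Matrix.zero_mul]
  have hAAb : A * A * e b = 0 := by
    calc A * A * e b = A * (A * e b) := by rw [Matrix.mul_assoc]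
      _ = A * (U b * N * V b) := by rw [hblk b, hAbm]
      _ = (A * U b) * N * V b := by simp only [Matrix.mul_assoc]
      _ = U b * (N * N) * V b := by
        rw [hAU]
        simp only [Matrix.mul_assoc]
      _ = 0 := by rw [hN, Matrix.mul_zero, Matrix.zero_mul]
  have hAAT : (A * A)ᵀ * (J * u) = J * u * (A * A) := by
    rw [Matrix.transpose_mul, Matrix.mul_assoc, hsk, Matrix.mul_neg, ← Matrix.mul_assoc, hsk, Matrix.neg_mul, neg_neg,
      Matrix.mul_assoc]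
  have hAAb' : e (bar b) * (A * A) = 0 := by
    apply m06_canc g.det'
    calc J * u * (e (bar b) * (A * A)) = (J * u * e (bar b)) * (A * A) := by rw [Matrix.mul_assoc (J * u)]
      _ = (e b)ᵀ * (J * u * (A * A)) := by rw [← g.spl.adj b, Matrix.mul_assoc ((e b)ᵀ)]
      _ = (e b)ᵀ * (A * A)ᵀ * (J * u) := by rw [← hAAT, Matrix.mul_assoc ((e b)ᵀ)]
      _ = (A * A * e b)ᵀ * (J * u) := by rw [Matrix.transpose_mul (A * A)]
      _ = 0 := by rw [hAAb, Matrix.transpose_zero, Matrix.zero_mul]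
  have hAAD : ∀ z ∈ DD, A * A * z = z * (A * A) := by
    intro z hz
    rw [Matrix.mul_assoc, hAD z hz, ← Matrix.mul_assoc, hAD z hz, Matrix.mul_assoc]
  have hAA : A * A = 0 := by
    apply g.spl.ext_comm hAAD
    · intro z _
      rw [Matrix.zero_mul, Matrix.mul_zero]
    · intro c
      rw [Matrix.zero_mul]
      by_cases h1 : c = b
      · rw [h1]
        exact hAAb
      by_cases h2 : c = bar b
      · rw [h2, hAAD _ (g.spl.mem _)]
        exact hAAb'
      rw [Matrix.mul_assoc, hA0 c h1 h2, Matrix.mul_zero]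
  refine ⟨1 + A, ?_, ?_, ?_, ?_⟩
  · have h1 := zlie_exp hAz hAA 1 g.one 1
    rwa [one_smul, Matrix.one_mul] at h1
  · have h1 : J * u * A * A = 0 := by rw [Matrix.mul_assoc, hAA, Matrix.mul_zero]
    rw [Matrix.transpose_add, Matrix.transpose_one, Matrix.add_mul, Matrix.one_mul, hsk, Matrix.mul_add, Matrix.mul_one,
      Matrix.add_mul, Matrix.neg_mul, h1]
    abel
  · rw [Matrix.add_mul, Matrix.one_mul, hAU, Matrix.mul_add, Matrix.mul_one]
  · intro c h1 h2
    rw [Matrix.add_mul, Matrix.one_mul, hA0 c h1 h2, add_zero]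

/-- PROOF. As `Sit.comp`, with `FV.gen`; rank one: `M = 1`. -/
theorem comp {b : B} {M : Matrix (Fin (n b)) (Fin (n b)) K}
    (hM : bar b = b → Mᵀ * ((U b)ᵀ * (J * u) * U b) * M = (U b)ᵀ * (J * u) * U b) (hdet : M.det = 1) :
    ∃ y ∈ zar S, yᵀ * (J * u) * y = J * u ∧ y * U b = U b * M ∧ ∀ c, c ≠ b → c ≠ bar b → y * e c = e c := by
  have hpb := g.pos b
  by_cases hb2 : 2 ≤ n b
  swap
  · have h1 : n b = 1 := by omega
    have h2 : M = 1 := by
      have h3 : ∀ i j : Fin (n b), i = j := fun i j => Fin.ext (by omega)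
      haveI : Subsingleton (Fin (n b)) := ⟨h3⟩
      ext i j
      have h4 := Matrix.det_eq_elem_of_subsingleton M i
      rw [hdet] at h4
      rw [h3 j i, ← h4, Matrix.one_apply_eq]
    refine ⟨1, subset_zar S g.one, by rw [Matrix.transpose_one, Matrix.one_mul, Matrix.mul_one],
        by rw [Matrix.one_mul, h2, Matrix.mul_one], fun c _ _ => Matrix.one_mul _⟩
  have key : M ∈ {M : Matrix (Fin (n b)) (Fin (n b)) K | ∃ y ∈ zar S, yᵀ * (J * u) * y = J * u ∧ y * U b = U b * M ∧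
      ∀ c, c ≠ b → c ≠ bar b → y * e c = e c} := by
    refine FV.gen (g.full b hb2) ?_ ?_ ?_ hM hdet
    · exact ⟨1, subset_zar S g.one, by rw [Matrix.transpose_one, Matrix.one_mul, Matrix.mul_one],
        by rw [Matrix.one_mul, Matrix.mul_one], fun c _ _ => Matrix.one_mul _⟩
    · rintro a ⟨ya, hya, hia, h2, h3⟩ c ⟨yc, hyc, hic, h4, h5⟩
      refine ⟨ya * yc, zar_mul g.mul hya hyc, ?_, ?_, ?_⟩
      · calc (ya * yc)ᵀ * (J * u) * (ya * yc) = ycᵀ * (yaᵀ * (J * u) * ya) * yc := by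
              rw [Matrix.transpose_mul]
              simp only [Matrix.mul_assoc]
          _ = J * u := by rw [hia, hic]
      · rw [Matrix.mul_assoc, h4, ← Matrix.mul_assoc, h2, Matrix.mul_assoc]
      · intro k hk hk'
        rw [Matrix.mul_assoc, h5 k hk hk', h3 k hk hk']
    · intro N hN hNL
      exact g.one_add hN hNL
  exact key

/-- PROOF. `M = V b * Y * U b`; its determinant is `(1 - e b + Y * e b).det = 1` (`H76U.det_on` with `g.UV`, `g.VU`; see `H76U.comp_fac`); if `bar b = b`: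
`Mᵀ (U bᵀ J u U b) M = (U b M)ᵀ (J u) (U b M)` and `U b * M = e b * Y * U b = Y * U b`, so it is `U bᵀ Yᵀ (J u) Y U b = U bᵀ (J u) U b`.  `comp` gives `y` with `y * U b = Y * U b`, so
`y * e b = Y * e b`.  At `bar b`: `Yᵀ (J u) Y = J u = yᵀ (J u) y`.  `(Y * e b)ᵀ (J u) Y = (e b)ᵀ (J u) = J u * e (bar b)` and `(y * e b)ᵀ (J u) y = J u * e (bar b)`; let
`W = (Y * e b)ᵀ * (J u) = (y * e b)ᵀ * (J u)`; so `W * Y = W * y`; and `W = (e b)ᵀ * Yᵀ * (J u) = (e b)ᵀ * (J u) * Y⁻¹ = J u * e (bar b) * Y⁻¹ = J u * Y⁻¹ * e (bar b)` (`Y` is invertible by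
`det'`, `Y⁻¹` commutes with `DD`), so `e (bar b) * Y = e (bar b) * y`, and `y * e (bar b) = Y * e (bar b)` (`y` commutes with `DD`: `zar_commute`). -/
theorem fac {Y : Matrix ι ι K} (hY : Yᵀ * (J * u) * Y = J * u) (hYD : ∀ z ∈ DD, Y * z = z * Y)
    (hdet : ∀ b, (1 - e b + Y * e b).det = 1) (b : B) :
    ∃ z ∈ zar S, z * e b = Y * e b ∧ z * e (bar b) = Y * e (bar b) ∧ ∀ c, c ≠ b → c ≠ bar b → z * e c = e c := by
  have hUM : U b * (V b * Y * U b) = Y * U b := by
    calc U b * (V b * Y * U b) = (U b * V b) * Y * U b := by simp only [Matrix.mul_assoc]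
      _ = e b * Y * U b := by rw [← g.UV b]
      _ = Y * e b * U b := by rw [hYD _ (g.spl.mem b)]
      _ = Y * U b := by rw [Matrix.mul_assoc, g.eU b]
  have hMdet : (V b * Y * U b).det = 1 := by
    rw [← Pool.Agent.H76U.det_on (g.UV b) (g.VU b) (hYD _ (g.spl.mem b))]
    exact hdet b
  obtain ⟨y, hy, hyJ, hyU, hyc⟩ := g.comp (b := b) (M := V b * Y * U b) (fun _ => by
    have h1 : (V b * Y * U b)ᵀ * ((U b)ᵀ * (J * u) * U b) * (V b * Y * U b) =
        (U b * (V b * Y * U b))ᵀ * (J * u) * (U b * (V b * Y * U b)) := by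
      rw [Matrix.transpose_mul (U b)]
      simp only [Matrix.mul_assoc]
    rw [h1, hUM, Matrix.transpose_mul]
    calc (U b)ᵀ * Yᵀ * (J * u) * (Y * U b) = (U b)ᵀ * (Yᵀ * (J * u) * Y) * U b := by simp only [Matrix.mul_assoc]
      _ = (U b)ᵀ * (J * u) * U b := by rw [hY]) hMdet
  have hyD : ∀ z ∈ DD, y * z = z * y := fun z hz => zar_commute (fun s hs => g.SD s hs z hz) hy
  have h4 : y * e b = Y * e b := by
    calc y * e b = y * (U b * V b) := by rw [← g.UV b]
      _ = (y * U b) * V b := by rw [Matrix.mul_assoc]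
      _ = Y * U b * V b := by rw [hyU, hUM]
      _ = Y * (U b * V b) := by rw [Matrix.mul_assoc]
      _ = Y * e b := by rw [← g.UV b]
  refine ⟨y, hy, h4, ?_, hyc⟩
  have h5 : (Y * e b)ᵀ * (J * u) * Y = J * u * e (bar b) := by
    rw [Matrix.transpose_mul, Matrix.mul_assoc, Matrix.mul_assoc, ← Matrix.mul_assoc Yᵀ, hY, g.spl.adj b]
  have h6 : (y * e b)ᵀ * (J * u) * y = J * u * e (bar b) := by
    rw [Matrix.transpose_mul, Matrix.mul_assoc, Matrix.mul_assoc, ← Matrix.mul_assoc yᵀ, hyJ, g.spl.adj b]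
  have h7 : (Y * e b)ᵀ * (J * u) = Yᵀ * (J * u) * e (bar b) := by
    rw [hYD _ (g.spl.mem b), Matrix.transpose_mul, Matrix.mul_assoc, g.spl.adj b, ← Matrix.mul_assoc]
  have h8 : Yᵀ * (J * u) * (e (bar b) * (y - Y)) = 0 := by
    rw [← Matrix.mul_assoc, ← h7, Matrix.mul_sub, h5, ← h4, h6, sub_self]
  have h9 : IsUnit (Yᵀ * (J * u)).det := by
    have h10 : (Yᵀ * (J * u)).det * Y.det = (J * u).det := by rw [← Matrix.det_mul, hY]
    have h11 : IsUnit ((Yᵀ * (J * u)).det * Y.det) := by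
      rw [h10]
      exact g.det'
    exact isUnit_of_mul_isUnit_left h11
  have h12 := m06_canc h9 h8
  rw [Matrix.mul_sub, sub_eq_zero] at h12
  rw [hyD _ (g.spl.mem _), hYD _ (g.spl.mem _), h12]

/-- PROOF. Copy of the proof of `H76U.iso_mem4` (H76U/Grp4.lean, 60 lines), with `fac` in place of `comp_fac`. -/
theorem iso_mem {Y : Matrix ι ι K} (hY : Yᵀ * (J * u) * Y = J * u) (hYD : ∀ z ∈ DD, Y * z = z * Y)
    (hdet : ∀ b, (1 - e b + Y * e b).det = 1) : Y ∈ zar S := by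
  have key : ∀ T : Finset B, ∃ z ∈ zar S, ∀ c,
      ((c ∈ T ∨ bar c ∈ T) → z * e c = Y * e c) ∧
      (¬ (c ∈ T ∨ bar c ∈ T) → z * e c = e c) := by
    intro T
    induction T using Finset.induction_on with
    | empty =>
      refine ⟨1, subset_zar S g.one, fun c => ⟨fun hc => ?_, fun _ => one_mul _⟩⟩
      rcases hc with hc | hc <;> exact absurd hc (Finset.notMem_empty _)
    | insert b T hbT ih =>
      obtain ⟨z, hz, hzc⟩ := ih
      by_cases hbb : bar b ∈ T
      · refine ⟨z, hz, fun c => ⟨fun hc => ?_, fun hc => ?_⟩⟩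
        · apply (hzc c).1
          rcases hc with hc | hc
          · rcases Finset.mem_insert.1 hc with rfl | hc
            · exact Or.inr hbb
            · exact Or.inl hc
          · rcases Finset.mem_insert.1 hc with hc | hc
            · left
              rw [← hc, g.spl.barbar] at hbb
              exact hbb
            · exact Or.inr hc
        · apply (hzc c).2
          rintro (hc' | hc')
          · exact hc (Or.inl (Finset.mem_insert_of_mem hc'))
          · exact hc (Or.inr (Finset.mem_insert_of_mem hc'))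
      · obtain ⟨z', hz', h1, h2, h3⟩ := g.fac hY hYD hdet b
        have hz'D : ∀ d ∈ DD, z' * d = d * z' := fun d hd =>
          zar_commute (fun s hs => g.SD s hs d hd) hz'
        have hprod : ∀ c, z * e c = e c → z * z' * e c = z' * e c := by
          intro c hc
          rw [mul_assoc, hz'D _ (g.spl.mem c), ← mul_assoc, hc]
        have hb1 : z * e b = e b := (hzc b).2 (by
          rintro (hc | hc)
          · exact hbT hc
          · exact hbb hc)
        have hb2 : z * e (bar b) = e (bar b) := (hzc (bar b)).2 (by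
          rintro (hc | hc)
          · exact hbb hc
          · rw [g.spl.barbar] at hc
            exact hbT hc)
        refine ⟨z * z', zar_mul g.mul hz hz', fun c => ⟨fun hc => ?_, fun hc => ?_⟩⟩
        · by_cases hcb : c = b
          · subst hcb
            rw [hprod _ hb1, h1]
          by_cases hcb' : c = bar b
          · subst hcb'
            rw [hprod _ hb2, h2]
          rw [mul_assoc, h3 c hcb hcb']
          apply (hzc c).1
          rcases hc with hc | hc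
          · rcases Finset.mem_insert.1 hc with hc | hc
            · exact absurd hc hcb
            · exact Or.inl hc
          · rcases Finset.mem_insert.1 hc with hc | hc
            · exact absurd (by rw [← hc, g.spl.barbar]) hcb'
            · exact Or.inr hc
        · have hcb : c ≠ b := by
            rintro rfl
            exact hc (Or.inl (Finset.mem_insert_self _ _))
          have hcb' : c ≠ bar b := by
            rintro rfl
            rw [g.spl.barbar] at hc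
            exact hc (Or.inr (Finset.mem_insert_self _ _))
          rw [mul_assoc, h3 c hcb hcb']
          apply (hzc c).2
          rintro (hc' | hc')
          · exact hc (Or.inl (Finset.mem_insert_of_mem hc'))
          · exact hc (Or.inr (Finset.mem_insert_of_mem hc'))
  obtain ⟨z, hz, hzc⟩ := key Finset.univ
  have hzY : z = Y := by
    apply g.spl.ext_comm (fun d hd => zar_commute (fun s hs => g.SD s hs d hd) hz) hYD
    intro b
    exact (hzc b).1 (Or.inl (Finset.mem_univ b))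
  rw [← hzY]
  exact hz

end Sit5

end Pool.Agent.H34V
end

-- from Lib.H34V.N08
section

/-!
# N08: similitudes (port of H34Z/M07)
-/

set_option autoImplicit false
set_option linter.unusedSectionVars false
namespace Pool.Agent.H34V
open Module Matrix Pool.Agent.H53Toric Pool.Agent.H76P Pool.Agent.H34Z
open Pool.Agent.H76U (cmp preL Lb Split4)
open Pool.Agent.H76Y (LcN)
open Pool.Agent.H76RM (zar_commute zlie_commute)

variable {ι : Type*} [Fintype ι] [DecidableEq ι] {K : Type*} [Field K] [CharZero K] [IsAlgClosed K]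
  {J u : Matrix ι ι K} {DD : Submodule K (Matrix ι ι K)} {S 𝓗 : Set (Matrix ι ι K)} {x : Matrix ι ι K}
  {B : Type*} [Fintype B] [DecidableEq B] {bar : B → B} {e : B → Matrix ι ι K} {n : B → ℕ}
  {U : ∀ b, Matrix ι (Fin (n b)) K} {V : ∀ b, Matrix (Fin (n b)) ι K} {d : ∀ b, Fin (n b) → K}

namespace Sit5
variable (g : Sit5 J u DD S 𝓗 x bar e n U V d)
include g

/-- The common part: an element of the closure with the same multiplier and the same determinants. -/
theorem n08_aux {w : Matrix ι ι K} (hwD : ∀ z ∈ DD, w * z = z * w) {c : K} (hc : wᵀ * J * w = c • J)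
    {y y' : Matrix ι ι K} (hy : y ∈ zar S) (hy' : y' ∈ zar S) (hyy : y * y' = 1) (hyJ : yᵀ * J * y = c • J)
    (hyb : ∀ b, Pool.Agent.H76U.detb (e b) w = Pool.Agent.H76U.detb (e b) y) : w ∈ zar S := by
  have hcommS : ∀ y ∈ zar S, ∀ d ∈ DD, y * d = d * y := fun y hy d hd =>
    zar_commute (fun s hs => g.SD s hs d hd) hy
  have hy'y : y' * y = 1 := _root_.mul_eq_one_comm.1 hyy
  have hYD : ∀ z ∈ DD, w * y' * z = z * (w * y') := by
    intro d hd
    rw [mul_assoc, hcommS _ hy' d hd, ← mul_assoc, hwD d hd, mul_assoc]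
  have hzz : w * y' ∈ zar S := by
    refine g.iso_mem ?_ hYD ?_
    · have h1 : J = c • (y'ᵀ * J * y') := by
        calc J = (y * y')ᵀ * J * (y * y') := by rw [hyy]; simp
          _ = y'ᵀ * (yᵀ * J * y) * y' := by
              rw [Matrix.transpose_mul]; noncomm_ring
          _ = _ := by rw [hyJ, mul_smul_comm, smul_mul_assoc]
      have h2 : (w * y')ᵀ * J * (w * y') = J := by
        rw [Matrix.transpose_mul]
        calc y'ᵀ * wᵀ * J * (w * y') = y'ᵀ * (wᵀ * J * w) * y' := by noncomm_ring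
          _ = c • (y'ᵀ * J * y') := by rw [hc, mul_smul_comm, smul_mul_assoc]
          _ = J := h1.symm
      calc (w * y')ᵀ * (J * u) * (w * y') = (w * y')ᵀ * J * (u * (w * y')) := by noncomm_ring
        _ = (w * y')ᵀ * J * (w * y') * u := by rw [← hYD u g.hu]; noncomm_ring
        _ = J * u := by rw [h2]
    · intro b
      change Pool.Agent.H76U.detb (e b) (w * y') = 1
      rw [Pool.Agent.H76U.detb_mul (g.spl.idem b) (hcommS _ hy' _ (g.spl.mem b)), hyb b]
      exact Pool.Agent.H76U.detb_inv (g.spl.idem b) (hcommS _ hy' _ (g.spl.mem b)) hyy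
  have h3 : w = (w * y') * y := by rw [mul_assoc, hy'y, mul_one]
  rw [h3]
  exact zar_mul g.mul hzz hy

/-- The one parameter groups. -/
theorem n08_one {y : Matrix ι ι K} (hy : y ∈ 𝓗) {t : K} (ht : t ≠ 0) :
    (1 + (t - 1) • y) * (1 + (t⁻¹ - 1) • y) = 1 := by
  have hyy := g.hi y hy
  have h1 : (1 + (t - 1) • y) * (1 + (t⁻¹ - 1) • y) =
      1 + ((t - 1) + (t⁻¹ - 1)) • y + ((t - 1) * (t⁻¹ - 1)) • (y * y) := by
    rw [add_mul, mul_add, mul_add, one_mul, one_mul, mul_one, smul_mul_smul_comm]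
    module
  rw [h1, hyy, add_assoc, ← add_smul]
  have h2 : (t - 1) + (t⁻¹ - 1) + (t - 1) * (t⁻¹ - 1) = 0 := by
    field_simp
    ring
  rw [h2, zero_smul, add_zero]

/-- The multiplier of the one parameter groups. -/
theorem n08_sim {y : Matrix ι ι K} (hy : y ∈ 𝓗) (t : K) :
    (1 + (t - 1) • y)ᵀ * J * (1 + (t - 1) • y) = t • J := by
  have h1 := g.hs y hy
  refine Pool.Agent.H76U.hodge_mult ?_ h1 t
  have h2 : (yᵀ * J + J * y) * y = J * y := by rw [h1]
  rw [add_mul, mul_assoc J, g.hi y hy] at h2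
  exact add_eq_right.1 h2

/-- The elements of the closure commute with the algebra, in particular the projectors do. -/
theorem n08_comm (hz : ∀ h ∈ 𝓗, ∀ t : K, t ≠ 0 → 1 + (t - 1) • h ∈ zar S) {y : Matrix ι ι K} (hy : y ∈ 𝓗) (b : B) :
    y * e b = e b * y := by
  have h1 := hz y hy 2 (by norm_num)
  have h2 := zar_commute (fun s hs => g.SD s hs _ (g.spl.mem b)) h1
  have e1 : (2 : K) - 1 = 1 := by norm_num
  rw [e1, one_smul, add_mul, mul_add, one_mul, mul_one, add_right_inj] at h2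
  exact h2

/-- The closure contains all similitudes with the right determinants.
PROOF. Copy of the proof of `H76U.group_mem` (H76U/Grp5.lean, 100 lines) with `iso_mem` in place of `iso_mem4`: the element `y` of the torus has `yᵀ J y = c J` and the same
determinants as `w`, and `w * y'` is an isometry with `detb = 1` at all `b`. -/
theorem group_mem (hz : ∀ h ∈ 𝓗, ∀ t : K, t ≠ 0 → 1 + (t - 1) • h ∈ zar S) {w : Matrix ι ι K} (hw : w.det ≠ 0)
    (hwD : ∀ z ∈ DD, w * z = z * w) {c : K} (hc0 : c ≠ 0) (hc : wᵀ * J * w = c • J)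
    (hchar : ∀ (a : B → ℤ) (a₀ : ℤ), (∀ y ∈ 𝓗, ∑ b, a b * ((y * e b).rank : ℤ) + a₀ = 0) →
      (∏ b, Pool.Agent.H76U.detb (e b) w ^ a b) * c ^ a₀ = 1) : w ∈ zar S := by
  classical
  have hwu : IsUnit w.det := isUnit_iff_ne_zero.2 hw
  have hinvc : ∀ y y' : Matrix ι ι K, y * y' = 1 → ∀ d, y * d = d * y → y' * d = d * y' := by
    intro y y' hyy d hd
    have hy'y : y' * y = 1 := _root_.mul_eq_one_comm.1 hyy
    calc y' * d = y' * d * (y * y') := by rw [hyy, mul_one]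
      _ = y' * (d * y) * y' := by noncomm_ring
      _ = y' * (y * d) * y' := by rw [hd]
      _ = (y' * y) * d * y' := by noncomm_ring
      _ = d * y' := by rw [hy'y, one_mul]
  have hxx : w * w⁻¹ = 1 := Matrix.mul_nonsing_inv _ hwu
  have hdet0 : ∀ b, Pool.Agent.H76U.detb (e b) w ≠ 0 := by
    intro b h0
    have := Pool.Agent.H76U.detb_inv (x := w) (g.spl.idem b) (hinvc w w⁻¹ hxx _ (hwD _ (g.spl.mem b))) hxx
    rw [h0, zero_mul] at this
    exact zero_ne_one this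
  -- the finite set of types
  obtain ⟨T, hT⟩ : ∃ T : Set (B → ℕ), T = {n | ∃ y ∈ 𝓗, ∀ b, n b = (y * e b).rank} := ⟨_, rfl⟩
  have hTfin : T.Finite := by
    apply (Set.finite_Iic (fun _ : B => Fintype.card ι)).subset
    rw [hT]
    rintro n ⟨y, -, hn⟩
    intro b
    rw [hn]
    exact Matrix.rank_le_card_height _
  have : Fintype T := hTfin.fintype
  have hmT : ∀ f : B → ℕ, f ∈ T ↔ ∃ y ∈ 𝓗, ∀ b, f b = (y * e b).rank := fun f => by
    rw [hT]
    exact Iff.rfl
  have hex : ∀ s : T, ∃ y ∈ 𝓗, ∀ b, s.1 b = (y * e b).rank := fun s => (hmT s.1).1 s.2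
  choose Y hY𝓗 hYn using hex
  obtain ⟨nn, hnn⟩ : ∃ nn : T → Option B → ℤ, nn = fun s => fun o => o.elim 1 (fun b => (s.1 b : ℤ)) := ⟨_, rfl⟩
  obtain ⟨δ, hδ⟩ : ∃ δ : Option B → Kˣ, δ = fun o => o.elim (Units.mk0 c hc0)
    (fun b => Units.mk0 (Pool.Agent.H76U.detb (e b) w) (hdet0 b)) := ⟨_, rfl⟩
  obtain ⟨t, ht⟩ := Pool.Agent.H76U.solve_chars nn δ (by
    intro a ha
    have h1 := hchar (fun b => a (some b)) (a none) (by
      intro y hy
      have h2 := ha ⟨fun b => (y * e b).rank, (hmT _).2 ⟨y, hy, fun _ => rfl⟩⟩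
      rw [hnn, Fintype.sum_option] at h2
      change a none * 1 + ∑ b, a (some b) * ((y * e b).rank : ℤ) = 0 at h2
      rw [mul_one, add_comm] at h2
      exact h2)
    apply Units.ext
    rw [Units.coe_prod, Fintype.prod_option, hδ]
    simp only [Units.val_zpow_eq_zpow_val]
    change c ^ a none * ∏ b, Pool.Agent.H76U.detb (e b) w ^ a (some b) = ((1 : Kˣ) : K)
    rw [mul_comm, h1, Units.val_one])
  rw [hδ, hnn] at ht
  have htc : c = ∏ s, (t s : K) := by
    have h1 := congrArg Units.val (ht none)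
    rw [Units.coe_prod] at h1
    change c = ∏ s, ((t s ^ (1 : ℤ) : Kˣ) : K) at h1
    simpa using h1
  have htb : ∀ b, Pool.Agent.H76U.detb (e b) w = ∏ s, (t s : K) ^ (s.1 b) := by
    intro b
    have h1 := congrArg Units.val (ht (some b))
    rw [Units.coe_prod] at h1
    change Pool.Agent.H76U.detb (e b) w = ∏ s, ((t s ^ ((s.1 b : ℕ) : ℤ) : Kˣ) : K) at h1
    simpa using h1
  have hcommS : ∀ y ∈ zar S, ∀ d ∈ DD, y * d = d * y := fun y hy d hd =>
    zar_commute (fun s hs => g.SD s hs d hd) hy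
  have key : ∀ F : Finset T, ∃ y ∈ zar S, ∃ y' ∈ zar S, y * y' = 1 ∧
      yᵀ * J * y = (∏ s ∈ F, (t s : K)) • J ∧
      ∀ b, Pool.Agent.H76U.detb (e b) y = ∏ s ∈ F, (t s : K) ^ (s.1 b) := by
    intro F
    induction F using Finset.induction_on with
    | empty =>
      refine ⟨1, subset_zar S g.one, 1, subset_zar S g.one, one_mul 1, ?_, ?_⟩
      · rw [Finset.prod_empty, one_smul]; simp
      · intro b
        rw [Finset.prod_empty, Pool.Agent.H76U.detb_one]
    | insert s F hsF ih =>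
      obtain ⟨y, hy, y', hy', hyy', hyJ, hyb⟩ := ih
      have ht0 : (t s : K) ≠ 0 := (t s).ne_zero
      have hsz := hz _ (hY𝓗 s) (t s : K) ht0
      have hsz' := hz _ (hY𝓗 s) (t s : K)⁻¹ (inv_ne_zero ht0)
      refine ⟨y * (1 + ((t s : K) - 1) • Y s), zar_mul g.mul hy hsz,
        (1 + ((t s : K)⁻¹ - 1) • Y s) * y', zar_mul g.mul hsz' hy', ?_, ?_, ?_⟩
      · calc y * (1 + ((t s : K) - 1) • Y s) * ((1 + ((t s : K)⁻¹ - 1) • Y s) * y') =
            y * ((1 + ((t s : K) - 1) • Y s) * (1 + ((t s : K)⁻¹ - 1) • Y s)) * y' := by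
              noncomm_ring
          _ = 1 := by rw [g.n08_one (hY𝓗 s) ht0, mul_one, hyy']
      · have h3 := g.n08_sim (hY𝓗 s) (t s : K)
        obtain ⟨z, hzd⟩ : ∃ z, z = 1 + ((t s : K) - 1) • Y s := ⟨_, rfl⟩
        rw [← hzd] at h3 ⊢
        rw [Matrix.transpose_mul]
        calc zᵀ * yᵀ * J * (y * z) = zᵀ * (yᵀ * J * y) * z := by noncomm_ring
          _ = (∏ s ∈ F, (t s : K)) • (zᵀ * J * z) := by
              rw [hyJ, mul_smul_comm, smul_mul_assoc]
          _ = _ := by rw [h3, smul_smul, Finset.prod_insert hsF, mul_comm]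
      · intro b
        rw [Pool.Agent.H76U.detb_mul (g.spl.idem b) (hcommS _ hsz _ (g.spl.mem b)), hyb,
          Pool.Agent.H76U.detb_hodge (g.spl.idem b) (g.hi _ (hY𝓗 s)) (g.n08_comm hz (hY𝓗 s) b), ← hYn s b,
          Finset.prod_insert hsF, mul_comm]
  obtain ⟨y, hy, y', hy', hyy', hyJ, hyb⟩ := key Finset.univ
  rw [← htc] at hyJ
  exact g.n08_aux hwD hc hy hy' hyy' hyJ fun b => by rw [htb b, hyb b]

end Sit5

end Pool.Agent.H34V
end

-- from Lib.H45Q.F4b
section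

/-!
# F4b: the conditions of the fourth version over a number field
-/

set_option autoImplicit false
set_option linter.unusedSectionVars false
namespace Pool.Agent.H45Q
open Module Matrix Polynomial Pool.Agent.H53Toric NumberField ST32
open Pool.Agent.H76Q
open Pool.Agent.H76P (properProj EigOn)
open Pool.Agent.H76U (IsSplitting)
open Pool.Agent.H76RM (spanK similD)

/-- The balance for a component with a form. -/
theorem bal4_of {ι : Type*} [Fintype ι] [DecidableEq ι] {L K : Type*} [Field L] [Field K] [CharZero L]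
    [CharZero K] [Algebra L K] {ψ : Matrix ι ι ℚ} (hψ : ψᵀ = -ψ) (hψ0 : ψ.det ≠ 0)
    {D : Subalgebra ℚ (Matrix ι ι ℚ)} {M : Type*} [Field M] [CharZero M] {m : ℕ} {cl : Fin m → H76Z.Cl}
    {bar : Fin m → Fin m} {e : Fin m → Matrix ι ι M} {u : Matrix ι ι M} (hspl : H76Z.Splits D ψ cl bar e u)
    {G : Type*} [Group G] (ρ : G →* Matrix.GeneralLinearGroup ι L)
    (lin : ∀ g : G, ∀ d ∈ D, (ρ g).1 * d.map (algebraMap ℚ L) = d.map (algebraMap ℚ L) * (ρ g).1)
    (sim : ∀ g : G, ∃ c : L,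
      (ρ g).1ᵀ * ψ.map (algebraMap ℚ L) * (ρ g).1 = c • ψ.map (algebraMap ℚ L))
    {h : Matrix ι ι K} (hh : h ∈ properProj K ρ) (i : M →+* K) {b : Fin m} (hb : cl b ≠ .n) :
    2 * (h * (e b).map i).rank = (e b).rank := by
  obtain ⟨hJ, hdet⟩ := gram_basic hψ hψ0 K
  obtain ⟨J, hJdef⟩ : ∃ J : Matrix ι ι K, J = ψ.map (algebraMap ℚ K) := ⟨_, rfl⟩
  rw [← hJdef] at hJ hdet
  have hspl' := hspl.map i
  have hlinK : ∀ σ : G, ∀ d ∈ D, (ρ σ).1.map (algebraMap L K) * d.map (algebraMap ℚ K) =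
      d.map (algebraMap ℚ K) * (ρ σ).1.map (algebraMap L K) := by
    intro σ d hd
    have h1 := congrArg (fun m : Matrix ι ι L => m.map (algebraMap L K)) (lin σ d hd)
    have h2 : (d.map (algebraMap ℚ L)).map (algebraMap L K) = d.map (algebraMap ℚ K) := by
      ext i j
      simp
    simp only [Matrix.map_mul] at h1
    rw [h2] at h1
    exact h1
  have hsimI : ∀ s ∈ img K ρ ⊤, ∃ c : K, sᵀ * J * s = c • J := by
    rintro _ ⟨y, -, rfl⟩
    obtain ⟨c, hc⟩ := sim y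
    rw [hJdef]
    exact ⟨_, sim_map hc⟩
  have hb1 : (1 : Matrix ι ι K) ≠ 0 := by
    intro h0
    apply hh.2.1
    rw [← mul_one h, h0, mul_zero]
  obtain ⟨k, l, hkl⟩ : ∃ k l, J k l ≠ 0 := by
    by_contra hcon
    push Not at hcon
    have h3 : J = 0 := by
      ext i j
      exact hcon i j
    apply hb1
    rw [← Matrix.nonsing_inv_mul _ hdet, h3, Matrix.mul_zero]
  have hs := (proj_sim' hdet hkl hsimI hh.1 hh.2.1 hh.2.2).2
  have hcom : ∀ z ∈ spanK K D, h * z = z * h := by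
    intro z hz
    have h0 : ∀ s ∈ img K ρ ⊤, s * z = z * s := by
      rintro _ ⟨y, -, rfl⟩
      refine Submodule.span_induction (p := fun z _ => (ρ y).1.map (algebraMap L K) * z =
        z * (ρ y).1.map (algebraMap L K)) ?_ ?_ ?_ ?_ hz
      · rintro _ ⟨d, hd, rfl⟩
        exact hlinK y d hd
      · rw [Matrix.mul_zero, Matrix.zero_mul]
      · intro y y' _ _ h7 h8
        rw [Matrix.mul_add, Matrix.add_mul, h7, h8]
      · intro c y _ h7
        rw [Matrix.mul_smul, Matrix.smul_mul, h7]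
    have h1 := H76RM.zar_commute h0 (hh.1.2 2 two_ne_zero)
    rw [add_mul, mul_add, one_mul, mul_one, smul_mul_assoc, mul_smul_comm] at h1
    have h3 := add_left_cancel h1
    have h4 : ((2 : K) - 1) = 1 := by norm_num
    rwa [h4, one_smul, one_smul] at h3
  have hu : IsUnit (J * u.map i).det := by
    rw [Matrix.det_mul]
    exact hdet.mul hspl'.unit
  have hadj : ((e b).map i)ᵀ * (J * u.map i) = J * u.map i * (e b).map i := by
    have h1 := hspl'.adj b
    rw [(hspl.self b).2 hb, ← hJdef] at h1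
    exact h1
  have hs2 : hᵀ * (J * u.map i) + J * u.map i * h = J * u.map i := by
    rw [Matrix.mul_assoc J, ← hcom _ hspl'.umem, ← Matrix.mul_assoc, ← Matrix.mul_assoc, ← Matrix.add_mul, hs]
  have h1 := H76Y.bal_self hu (hspl'.idem b) hadj hh.1.1 (hcom _ (hspl'.mem b)) hs2
  rw [h1, H76U.rank_idem_map (hspl.idem b) i]


end Pool.Agent.H45Q
end

-- from Lib.H45U.N2
section

/-!
# N2: the conditions of the fifth version over a number field
-/

set_option autoImplicit false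
set_option linter.unusedSectionVars false
namespace Pool.Agent.H45U
open Module Matrix Polynomial Pool.Agent.H53Toric NumberField ST32
open Pool.Agent.H76Q
open Pool.Agent.H76P (properProj EigOn)
open Pool.Agent.H76U (IsSplitting)
open Pool.Agent.H76RM (spanK similD)
open Pool.Agent.H45Q (CrysF3 bal4_of arithN)

/-- The multiplicities as a function on the set of the conjugates of `π`. -/
theorem exists_hd {M : Type} [Field M] [NumberField M] {ι : Type} [Fintype ι] [DecidableEq ι] {m : ℕ}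
    {e : Fin m → Matrix ι ι M}
    {F : Type} [Field F] [NumberField F] {Ω : Type} [Field Ω] [CharZero Ω] [IsAlgClosed Ω]
    [Algebra.IsAlgebraic ℚ Ω] {j : M →+* Ω}
    {p : ℕ} [Fact p.Prime] {w : CFT.Pr F} (hwp : Ideal.absNorm w.asIdeal = p)
    {π : 𝓞 F} (hwπ : w.asIdeal = Ideal.span {π}) (hdF : ¬ (p : ℤ) ∣ NumberField.discr F)
    {v : AlgebraicClosure ℚ_[p] → ℚ} (hv : IsPVal p v) {μ : Matrix ι ι (AlgebraicClosure ℚ_[p])}
    (h : Fin m → (F →+* Ω) → ℕ)
    (hdg : ∀ (b : Fin m) (i : Ω →+* AlgebraicClosure ℚ_[p]) (τ : F →+* Ω), v (i (τ (π : F))) = 1 →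
      (μ * (e b).map (i.comp j)).rank = h b τ) :
    ∃ hd : Fin m → Ω → ℕ, ∀ b τ, hd b (τ (π : F)) = h b τ := by
  classical
  have hp : p.Prime := Fact.out
  have hdv : CFT.dv (π : F) = Finsupp.single w 1 := H45K.dv_gen hwπ
  have hvval : IsVal v := H45K.pval_isVal hv
  have hvp : v (p : AlgebraicClosure ℚ_[p]) = 1 := H45K.pval_p hv
  have hvd : ∀ x : AlgebraicClosure ℚ_[p], x ≠ 0 → (∀ δ ∈ inertia p v, δ x = x) → ∃ n : ℤ, v x = n := H45K.pval_dval hv
  have hval : H45K.IsV v := ⟨hvval.mul, hvval.add⟩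
  have hfin : Finite (F →+* Ω) := inferInstance
  have : Fintype (F →+* Ω) := Fintype.ofFinite _
  obtain ⟨R, hR⟩ : ∃ R : Finset Ω, ∀ x, x ∈ R ↔ ∃ τ : F →+* Ω, τ (π : F) = x :=
    ⟨Finset.univ.image (fun τ : F →+* Ω => τ (π : F)), fun x => by
      rw [Finset.mem_image]
      simp⟩
  have key : ∀ τ : F →+* Ω, ∃ i : Ω →+* AlgebraicClosure ℚ_[p], v (i (τ (π : F))) = 1 := by
    intro τ
    let i₀ : Ω →+* AlgebraicClosure ℚ_[p] :=
      (IsAlgClosed.lift (R := ℚ) (S := Ω) (M := AlgebraicClosure ℚ_[p])).toRingHom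
    obtain ⟨r₀, hr₀, h1, -⟩ := H45K.rval hval hvp hdv hp hwp hR i₀ fun r hr => by
      refine hvd (i₀ r) ?_ (fun δ hδ => ?_)
      · obtain ⟨τ, rfl⟩ := (hR r).1 hr
        rw [Ne, map_eq_zero, map_eq_zero]
        exact H45K.pi_ne hdv
      · obtain ⟨τ, rfl⟩ := (hR r).1 hr
        exact H45K.rfix hval hp hvp F hdF δ hδ.2 (i₀.comp τ) (π : F)
    obtain ⟨τ', hτ'⟩ := (hR r₀).1 hr₀
    obtain ⟨s, hs⟩ := H45K.exists_aut τ τ'
    refine ⟨i₀.comp s.toRingHom, ?_⟩
    show v (i₀ (s (τ (π : F)))) = 1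
    rw [hs, hτ', h1]
  refine ⟨fun b r => if hr : ∃ τ : F →+* Ω, τ (π : F) = r then h b hr.choose else 0, fun b τ => ?_⟩
  have hr : ∃ τ' : F →+* Ω, τ' (π : F) = τ (π : F) := ⟨τ, rfl⟩
  obtain ⟨i, hi⟩ := key τ
  simp only [dif_pos hr]
  rw [← hdg b i τ hi, ← hdg b i hr.choose (by rw [hr.choose_spec, hi])]

theorem core5a_of {ι : Type} [Fintype ι] [DecidableEq ι] {ψ : Matrix ι ι ℚ} (hψ : ψᵀ = -ψ)
    (hψ0 : ψ.det ≠ 0) (D : Subalgebra ℚ (Matrix ι ι ℚ)) {M : Type} [Field M] [NumberField M]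
    {m : ℕ} (cl : Fin m → H76Z.Cl) (bar : Fin m → Fin m) (e : Fin m → Matrix ι ι M) (u : Matrix ι ι M)
    (hspl : H76Z.Splits D ψ cl bar e u)
    {F : Type} [Field F] [NumberField F] {Ω : Type} [Field Ω] [CharZero Ω] [Algebra F Ω] [IsAlgClosure F Ω]
    [IsAlgClosed Ω] [Algebra.IsAlgebraic ℚ Ω]
    (j : M →+* Ω)
    (ρ : ∀ (l : ℕ) [Fact l.Prime], (Ω ≃ₐ[F] Ω) →* Matrix.GeneralLinearGroup ι ℚ_[l])
    (cont : ∀ (l : ℕ) [Fact l.Prime], Continuous fun g => (ρ l g : Matrix ι ι ℚ_[l]))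
    (lin : ∀ (l : ℕ) [Fact l.Prime], ∀ g : Ω ≃ₐ[F] Ω, ∀ d ∈ D,
      (ρ l g).1 * d.map (algebraMap ℚ ℚ_[l]) = d.map (algebraMap ℚ ℚ_[l]) * (ρ l g).1)
    (sim : ∀ (l : ℕ) [Fact l.Prime], ∀ g : Ω ≃ₐ[F] Ω, ∃ c : ℚ_[l],
      (ρ l g).1ᵀ * ψ.map (algebraMap ℚ ℚ_[l]) * (ρ l g).1 = c • ψ.map (algebraMap ℚ ℚ_[l]))
    (semis : ∀ (l : ℕ) [Fact l.Prime], ∀ H : Subgroup (Ω ≃ₐ[F] Ω), H.FiniteIndex →
      ∀ W : Submodule (AlgebraicClosure ℚ_[l]) (ι → AlgebraicClosure ℚ_[l]),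
      (∀ s ∈ img (AlgebraicClosure ℚ_[l]) (ρ l) H, ∀ w ∈ W, s *ᵥ w ∈ W) →
      ∃ W' : Submodule (AlgebraicClosure ℚ_[l]) (ι → AlgebraicClosure ℚ_[l]),
        (∀ s ∈ img (AlgebraicClosure ℚ_[l]) (ρ l) H, ∀ w ∈ W', s *ᵥ w ∈ W') ∧ IsCompl W W')
    (commt : ∀ (l : ℕ) [Fact l.Prime], ∀ H : Subgroup (Ω ≃ₐ[F] Ω), H.FiniteIndex →
      ∀ y : Matrix ι ι (AlgebraicClosure ℚ_[l]),
      (∀ s ∈ img (AlgebraicClosure ℚ_[l]) (ρ l) H, y * s = s * y) →
        y ∈ spanK (AlgebraicClosure ℚ_[l]) D)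
    (gen : ∀ (l : ℕ) [Fact l.Prime], ∀ g : Ω ≃ₐ[F] Ω,
      (ρ l g).1.map (algebraMap ℚ_[l] (AlgebraicClosure ℚ_[l])) ∈
        tgen (AlgebraicClosure ℚ_[l]) (ρ l))
    -- the places of bad reduction
    (S : Finset (CFT.Pr F))
    (unr : ∀ (l : ℕ) [Fact l.Prime], ∀ v ∉ S, (l : 𝓞 F) ∉ v.asIdeal →
      ∀ P : Ideal (𝓞 Ω), Above v P → ∀ g : Ω ≃ₐ[F] Ω, Inert P g → ρ l g = 1)
    -- the place `w`
    (p : ℕ) [Fact p.Prime] (w : CFT.Pr F) (hwS : w ∉ S)
    (hwp : Ideal.absNorm w.asIdeal = p)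
    (π : 𝓞 F) (hwπ : w.asIdeal = Ideal.span {π}) (hpos : ∀ τ : F →+* ℝ, 0 < τ π)
    (hpe : ∀ b, ¬ p ∣ (e b).rank)
    (hcong : ∀ b, ∀ v ∈ S, π - 1 ∈ Ideal.span {((e b).rank : 𝓞 F) ^ 2} * v.asIdeal)
    (hdF : ¬ (p : ℤ) ∣ NumberField.discr F) (hdM : ¬ (p : ℤ) ∣ NumberField.discr M)
    (σ : Ω ≃ₐ[F] Ω) (hσ : IsFrv w σ)
    (f : ℤ[X]) (hf : f.Monic) (weil : ∀ z : ℂ, aeval z f = 0 → ‖z‖ ^ 2 = p)
    (χ : Fin m → M[X])
    (mult : ∀ (l : ℕ) [Fact l.Prime], l ≠ p →
      (ρ l σ).1ᵀ * ψ.map (algebraMap ℚ ℚ_[l]) * (ρ l σ).1 = (p : ℚ_[l]) • ψ.map (algebraMap ℚ ℚ_[l]))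
    (char : ∀ (l : ℕ) [Fact l.Prime], l ≠ p →
      (ρ l σ).1.charpoly = f.map (algebraMap ℤ ℚ_[l]))
    (frob : ∀ (l : ℕ) [Fact l.Prime], l ≠ p →
      FrobT (AlgebraicClosure ℚ_[l]) (ρ l) e χ
        ((ρ l σ).1.map (algebraMap ℚ_[l] (AlgebraicClosure ℚ_[l]))))
    (neat : ∀ b, ∀ a a' : Ω, (χ b).eval₂ j a = 0 → (χ b).eval₂ j a' = 0 →
      ∀ n : ℕ, n ≠ 0 → a ^ n = a' ^ n → a = a')
    -- the representation at `p`
    (v : AlgebraicClosure ℚ_[p] → ℚ) (hv : IsPVal p v)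
    (φ μ ν : Matrix ι ι (AlgebraicClosure ℚ_[p]))
    (frobp : FrobT (AlgebraicClosure ℚ_[p]) (ρ p) e χ φ)
    (multp : φᵀ * ψ.map (algebraMap ℚ (AlgebraicClosure ℚ_[p])) * φ =
      (p : AlgebraicClosure ℚ_[p]) • ψ.map (algebraMap ℚ (AlgebraicClosure ℚ_[p])))
    (crys : CrysF3 p (ρ p) e σ φ μ ν v)
    (wa : ∀ b : Fin m, cl b = .n → ∀ i : M →+* AlgebraicClosure ℚ_[p],
      v (1 - (e b).map i + φ * (e b).map i).det = (μ * (e b).map i).rank)
    -- the multiplicities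
    (h : Fin m → (F →+* Ω) → ℕ)
    (hdg : ∀ (b : Fin m) (i : Ω →+* AlgebraicClosure ℚ_[p]) (τ : F →+* Ω), v (i (τ (π : F))) = 1 →
      (μ * (e b).map (i.comp j)).rank = h b τ)
    (hd : Fin m → Ω → ℕ) (hhd : ∀ b τ, hd b (τ (π : F)) = h b τ)
    -- bad reduction
    (ub : Fin m → Prop) (N₀ : Set ℕ) (hN₀ : N₀.Finite)
    (bad : ∀ b, ub b → ∀ (l : ℕ) [Fact l.Prime], l ∉ N₀ → ∃ g : Ω ≃ₐ[F] Ω,
      ((ρ l g).1 - 1) * ((ρ l g).1 - 1) = 0 ∧ ∀ i : M →+* AlgebraicClosure ℚ_[l],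
        ((ρ l g).1.map (algebraMap ℚ_[l] (AlgebraicClosure ℚ_[l])) - 1) * (e b).map i ≠ 0)
    (R : Finset Ω) (hR : ∀ x, x ∈ R ↔ ∃ τ : F →+* Ω, τ (π : F) = x) :
    (∀ b, ∀ a : Ω, (χ b).eval₂ j a = 0 → aeval a f = 0) ∧
    Core5a ψ D cl bar e u ρ p σ (p : ℚ) χ φ μ ν v (inertia p v) j R
      ({l | l ∣ (∏ b, (e b).rank) * p} ∪ N₀ : Set ℕ) hd ub := by
  classical
  have hp : p.Prime := Fact.out
  have hdv : CFT.dv (π : F) = Finsupp.single w 1 := H45K.dv_gen hwπ
  have hvval : IsVal v := H45K.pval_isVal hv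
  have hvp : v (p : AlgebraicClosure ℚ_[p]) = 1 := H45K.pval_p hv
  have hvd : ∀ x : AlgebraicClosure ℚ_[p], x ≠ 0 → (∀ δ ∈ inertia p v, δ x = x) → ∃ n : ℤ, v x = n := H45K.pval_dval hv
  have hval : H45K.IsV v := ⟨hvval.mul, hvval.add⟩
  have crysP : H76Y.CrysN (AlgebraicClosure ℚ_[p]) (ρ p) e σ φ μ ν v (inertia p v) :=
    { val := hvval
      mu := crys.mu
      muphi := crys.muphi
      phigen := crys.phigen
      nu := crys.nu
      newton := crys.newton
      unr := crys.unr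
      int := crys.int
      eint := crys.eint
      dfix := fun δ hδ => hδ.1
      dphi := crys.dphi
      dM := fun δ hδ i c => H45K.rfix hval hp hvp M hdM δ hδ.2 i c
      dideal := crys.dideal
      dval := hvd }
  have hRfix : ∀ i : Ω →+* AlgebraicClosure ℚ_[p], ∀ r ∈ R, ∀ δ : AlgebraicClosure ℚ_[p] ≃+* AlgebraicClosure ℚ_[p],
      δ ∈ inertia p v → δ (i r) = i r := by
    intro i r hr δ hδ
    obtain ⟨τ, rfl⟩ := (hR r).1 hr
    exact H45K.rfix hval hp hvp F hdF δ hδ.2 (i.comp τ) (π : F)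
  -- roots of F_b are roots of f
  have hroot : ∀ b, ∀ a : Ω, (χ b).eval₂ j a = 0 → aeval a f = 0 := by
    intro b a ha
    obtain ⟨l, hl, hlp⟩ : ∃ l : ℕ, l.Prime ∧ l ≠ p := by
      by_cases h : p = 2
      · exact ⟨3, Nat.prime_three, by rw [h]; norm_num⟩
      · exact ⟨2, Nat.prime_two, fun h' => h h'.symm⟩
    have hlf : Fact l.Prime := ⟨hl⟩
    let i : Ω →ₐ[ℚ] AlgebraicClosure ℚ_[l] := IsAlgClosed.lift
    have h1 := (frob l hlp).eig (i.toRingHom.comp j) b (i.toRingHom a)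
    rw [← Polynomial.hom_eval₂, ha, map_zero] at h1
    obtain ⟨z, hz, -, hz2⟩ := h1.2 rfl
    have h2 := H45K.root_of_eig hz hz2
    rw [Matrix.charpoly_map, char l hlp, Polynomial.map_map, Polynomial.eval_map] at h2
    have h3 : (algebraMap ℚ_[l] (AlgebraicClosure ℚ_[l])).comp (algebraMap ℤ ℚ_[l]) = i.toRingHom.comp (algebraMap ℤ Ω) :=
      RingHom.ext_int _ _
    rw [h3, ← Polynomial.hom_eval₂] at h2
    rw [aeval_def]
    exact (map_eq_zero i.toRingHom).1 h2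
  refine ⟨hroot, ?_⟩
  have hpQ : (∀ n : ℕ, n ≠ 0 → (p : ℚ) ^ n ≠ 1) := by
    intro n hn
    have h1 : (1 : ℚ) < p := by exact_mod_cast hp.one_lt
    exact (one_lt_pow₀ h1 hn).ne'
  have hr0 : ∀ b, (e b).rank ≠ 0 := fun b h => hpe b (h ▸ dvd_zero p)
  have hNf' : ({l | l ∣ (∏ b, (e b).rank) * p} : Set ℕ).Finite := by
    refine (Finset.finite_toSet (Nat.divisors ((∏ b, (e b).rank) * p))).subset fun l hl => ?_
    rw [Finset.mem_coe, Nat.mem_divisors]
    exact ⟨hl, Nat.mul_ne_zero (Finset.prod_ne_zero_iff.2 fun b _ => hr0 b) hp.ne_zero⟩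
  have hNf : ({l | l ∣ (∏ b, (e b).rank) * p} ∪ N₀ : Set ℕ).Finite := hNf'.union hN₀
  exact
    { hψ := hψ
      hψ0 := hψ0
      hspl := hspl
      lin := lin
      sim := sim
      semis := semis
      commt := commt
      gen := gen
      bal := fun l _ h hh i b hb => bal4_of hψ hψ0 hspl (ρ l) (lin l) (sim l) hh i hb
      wa := wa
      hdg := fun b i r hr hv' => by
        obtain ⟨τ, rfl⟩ := (hR r).1 hr
        rw [hhd]
        exact hdg b i τ hv'
      hq := hpQ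
      mult := fun l _ hl => by
        rw [map_natCast]
        exact mult l hl
      frob := frob
      frobp := frobp
      multp := by
        rw [map_natCast]
        exact multp
      crys := crysP
      vq := by
        rw [map_natCast]
        exact hvp
      hN := Or.inl (dvd_mul_left p _)
      arith := fun b => arithN (hr0 b) ρ cont S unr p w hwS hwp π hwπ hpos (hcong b) σ hσ R hR _ hNf
        (fun l hl => Or.inl ((hl.trans (Finset.dvd_prod_of_mem (fun b => (e b).rank) (Finset.mem_univ b))).mul_right p))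
        (Or.inl (dvd_mul_left p _))
      munr := fun b δ hδ z hz => H45P.mu_fix hval hp hvp (hpe b) δ hδ.2 z hz
      Rstab := fun s r hr => H45K.R_stab hR s hr
      Rval := fun i => H45K.rval hval hvp hdv hp hwp hR i fun r hr => by
        refine hvd (i r) ?_ (fun δ hδ => hRfix i r hr δ hδ)
        obtain ⟨τ, rfl⟩ := (hR r).1 hr
        rw [Ne, map_eq_zero, map_eq_zero]
        exact H45K.pi_ne hdv
      Rfix := hRfix
      Rtrans := fun r hr r' hr' => by
        obtain ⟨τ, rfl⟩ := (hR r).1 hr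
        obtain ⟨τ', rfl⟩ := (hR r').1 hr'
        obtain ⟨s, hs⟩ := H45K.exists_aut τ τ'
        exact ⟨s, hs (π : F)⟩
      dec := fun s T => H76W.dec_all _ hNf s T
      bad := fun b hb l _ hl => H76W.bad_of (ρ l) (e b) (bad b hb l fun h => hl (Or.inr h))
      tors := fun z hz hvz => neat_of hval hp hvp f hf weil (S := {z : Ωˣ | (z : Ω) = p ∨ ∃ b, (χ b).eval₂ j (z : Ω) = 0})
          (fun z hz => by
            rcases hz with h | ⟨b, h⟩
            · exact Or.inl h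
            · exact Or.inr (hroot b _ h)) (z := z) (by
              rw [map_natCast] at hz
              exact hz) hvz
      gal := fun b a a' ha ha' hne => by
        refine H45K.gal hval hp hvp f hf weil (hroot b a ha) (hroot b a' ha') fun n hn h1 => ?_
        rw [div_pow] at h1
        by_cases h0 : a' = 0
        · rw [h0, zero_pow hn, div_zero] at h1
          exact zero_ne_one h1
        · exact hne (neat b a a' ha ha' n hn (by rwa [div_eq_one_iff_eq (pow_ne_zero _ h0)] at h1)) }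

/-- A decomposition of `R` gives a decomposition of the set of embeddings. -/
theorem mum5_of_part {ι : Type} [Fintype ι] [DecidableEq ι] {D : Subalgebra ℚ (Matrix ι ι ℚ)}
    {M : Type} [Field M] {F : Type} [Field F] [NumberField F] {Ω : Type} [Field Ω] [CharZero Ω]
    {j : M →+* Ω} {t u : Prop} {e e' : Matrix ι ι M} {χ : M[X]} {p : ℕ} (π : 𝓞 F)
    {f : ℤ[X]} (weil : ∀ z : ℂ, aeval z f = 0 → ‖z‖ ^ 2 = p)
    (hroot : ∀ a : Ω, χ.eval₂ j a = 0 → aeval a f = 0)
    {R : Finset Ω} (hR : ∀ x, x ∈ R ↔ ∃ τ : F →+* Ω, τ (π : F) = x) {h : (F →+* Ω) → ℕ} {hd : Ω → ℕ}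
    (hhd : ∀ τ, hd (τ (π : F)) = h τ) {k : ℕ} {c : Ω → Option (Fin k)}
    {A : Fin k → ℕ} (hPD : PartU D j t u e e' χ (p : ℚ) R hd c A) :
    MumU D j t u e e' F h (fun τ : F →+* Ω => c (τ (π : F))) A := by
  refine ⟨fun τ => ?_, fun x => ?_, fun τ x hx => ?_, hPD.two, fun s hs => ?_⟩
  · rw [← hhd]
    exact hPD.none _ ((hR _).2 ⟨τ, rfl⟩)
  · obtain ⟨r, hr, hcr⟩ := hPD.surj x
    obtain ⟨τ, rfl⟩ := (hR r).1 hr
    exact ⟨τ, hcr⟩
  · rw [← hhd]
    exact hPD.dvd _ ((hR _).2 ⟨τ, rfl⟩) x hx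
  · obtain ⟨π₀, h1, h2, h3, h4⟩ := hPD.perm s hs
    refine ⟨π₀, fun τ => h1 _ ((hR _).2 ⟨τ, rfl⟩), h2, fun ⟨κ, hκ⟩ => h3 fun y hy => ?_, h4⟩
    apply κ.injective
    have h5 : aeval (κ y) f = 0 := by
      have h6 := hroot y hy
      have h7 : aeval (κ y) f = κ (aeval y f) := by
        rw [aeval_def, aeval_def]
        have h8 : (algebraMap ℤ ℂ) = κ.comp (algebraMap ℤ Ω) := RingHom.ext_int _ _
        rw [h8]
        exact (hom_eval₂ f (algebraMap ℤ Ω) κ y).symm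
      rw [h7, h6, map_zero]
    rw [map_mul, hκ, mul_comm, Complex.mul_conj, Complex.normSq_eq_norm_sq, weil _ h5, map_natCast, map_natCast]
    push_cast
    rfl

end Pool.Agent.H45U
end
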