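import Pool.Agent.Lib.H1M.RC.D_H45U_Big1
import Pool.Agent.Lib.H1M.RC.M049
import Pool.Agent.Lib.H1M.RC.M054
import Pool.Agent.Lib.H1M.RC.M060
import Pool.Agent.Lib.H1M.RC.M063
import Pool.Agent.Lib.H1M.RC.M064
import Pool.Agent.Lib.H1M.RC.M065
import Pool.Agent.Lib.H1M.RC.M067
import Pool.Agent.Lib.H1M.RC.M073
import Pool.Agent.Lib.H1M.RC.M074
import Pool.Agent.Lib.H1M.RC.M075
import Pool.Agent.Lib.H1M.RC.M076

/-! Merged copies (to shorten the build) of Lib.H45U.W11, Lib.H34V.P03, Lib.H86L.N3, Lib.H86L.N4, Lib.H86L.O2, Lib.H86L.N5, Lib.H86L.O4, Lib.H45U.F5a, Lib.H45U.Fin. -/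

-- from Lib.H45U.W11
section

/-!
# the Lie algebra of a component
-/

set_option autoImplicit false
set_option linter.unusedSectionVars false
namespace Pool.Agent.H45U
open Pool.Agent.H76Y Pool.Agent.H76Z
open Pool.Agent.H76P Pool.Agent.H76V Pool.Agent.H76Q
open Module Matrix Polynomial Pool.Agent.H53Toric
open Pool.Agent.H76P
open Pool.Agent.H76T (IsIdeal Fam Lc)
open Pool.Agent.H76U (cmp preL IsSplitting)
open Pool.Agent.H76RM (spanK similD)

/-- In dimension two the configuration consists of all functions with sum zero. -/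
theorem ys_two {n : ℕ} (h2 : n ≤ 2) {Y : Submodule ℚ (Fin n → ℚ)} (hs : ∀ g ∈ Y, ∑ k, g k = 0)
    (hsep : ∀ k l, k ≠ l → ∃ g ∈ Y, g k ≠ g l) {f : Fin n → ℚ} (hf : ∑ k, f k = 0) : f ∈ Y := by
  interval_cases n
  · have : f = 0 := Subsingleton.elim _ _
    rw [this]
    exact Y.zero_mem
  · have : f = 0 := by
      ext k
      rw [Fin.sum_univ_one] at hf
      rw [Subsingleton.elim k 0, hf, Pi.zero_apply]
    rw [this]
    exact Y.zero_mem
  · obtain ⟨g, hg, hne⟩ := hsep 0 1 (by decide)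
    have h1 := hs g hg
    rw [Fin.sum_univ_two] at h1 hf
    have h3 : g 0 ≠ 0 := by
      intro h0
      rw [h0, zero_add] at h1
      exact hne (by rw [h0, h1])
    have h4 : f = (f 0 / g 0) • g := by
      ext k
      fin_cases k
      · show f 0 = f 0 / g 0 * g 0
        rw [div_mul_cancel₀ _ h3]
      · show f 1 = f 0 / g 0 * g 1
        have h5 : g 1 = -g 0 := by linarith
        have h6 : f 1 = -f 0 := by linarith
        rw [h5, h6]
        field_simp
    rw [h4]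
    exact Y.smul_mem _ hg

variable {ι : Type*} [Fintype ι] [DecidableEq ι] {ψ : Matrix ι ι ℚ}
    {D : Subalgebra ℚ (Matrix ι ι ℚ)} {M : Type*} [Field M] [NumberField M]
    {m : ℕ} {cl : Fin m → Cl} {bar : Fin m → Fin m} {e : Fin m → Matrix ι ι M} {u₀ : Matrix ι ι M} {G : Type*} [Group G]
    {ρ : ∀ (l : ℕ) [Fact l.Prime], G →* Matrix.GeneralLinearGroup ι ℚ_[l]}
    {p : ℕ} [Fact p.Prime] {σ : G} {q : ℚ} {F : Fin m → M[X]}
    {φ μ ν : Matrix ι ι (AlgebraicClosure ℚ_[p])} {v : AlgebraicClosure ℚ_[p] → ℚ}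
    {Δ : Set (AlgebraicClosure ℚ_[p] ≃+* AlgebraicClosure ℚ_[p])}
    {Ω : Type*} [Field Ω] [CharZero Ω] [IsAlgClosed Ω] [Algebra.IsAlgebraic ℚ Ω] {j : M →+* Ω}
    {R : Finset Ω} {N : Set ℕ} {hd : Fin m → Ω → ℕ} {ub : Fin m → Prop}
    (C : Core5 ψ D cl bar e u₀ ρ p σ q F φ μ ν v Δ j R N hd ub)

include C


/-- The rank of the idempotent is even if the component respects a form. -/
theorem Core5.rank_even (b : Fin m) (hb : cl b ≠ .n) : Even (e b).rank := by
  obtain ⟨i⟩ := Pool.Agent.H76Z.w9_exists_i p Ω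
  rw [← C.bal p μ C.crys.mu (i.comp j) b hb]
  exact even_two_mul _

theorem Core5.rank_pos (b : Fin m) : 0 < (e b).rank := by
  obtain ⟨a, ha, hroot⟩ := C.enum b
  obtain ⟨i⟩ := Pool.Agent.H76Z.w9_exists_i p Ω
  obtain ⟨H₀, U, V, -, hloc, -⟩ := C.locp b ha hroot i
  exact hloc.pos

/-- The component without a form is full at `p`. -/
theorem Core5.full_p (b : Fin m) (hb : cl b = .n) (h1 : 1 < (e b).rank)
    (twon : (∀ r ∈ R, hd b r = 0 ∨ hd b r = (e b).rank ∨ 2 * hd b r = (e b).rank) → ∀ k : ℕ, 4 ≤ k → Even k →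
      (e b).rank ≠ 2 ^ k)
    (bin : (∃ r ∈ R, hd b r ≠ 0 ∧ hd b r ≠ (e b).rank ∧ 2 * hd b r ≠ (e b).rank) →
      ∀ N k : ℕ, 2 ≤ k → k + 2 ≤ N → (e b).rank = N.choose k →
        ∃ r ∈ R, hd b r ≠ 0 ∧ hd b r ≠ (e b).rank ∧ hd b r ≠ (N - 1).choose k ∧
          hd b r ≠ (N - 1).choose (k - 1))
    {a : Fin (e b).rank → Ω} (ha : Function.Injective a)
    (hroot : ∀ y : Ω, (F b).eval₂ j y = 0 ↔ ∃ k, y = a k)
    (hB : IsBlock (1 : Module.End ℚ (YS a))) {f : Fin (e b).rank → ℚ} (hf : ∑ k, f k = 0) :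
    f ∈ YS a := by
  obtain ⟨i⟩ := Pool.Agent.H76Z.w9_exists_i p Ω
  have ha0 := C.ne b hroot
  have hsep : ∀ k l, k ≠ l → ∃ g ∈ YS a, g k ≠ g l :=
    YS_sep ha0 fun k l n hn h => ha (C.tor b ((hroot _).2 ⟨k, rfl⟩) ((hroot _).2 ⟨l, rfl⟩) hn h)
  rcases Nat.lt_or_ge 2 (e b).rank with h2 | h2
  swap
  · exact ys_two (Y := YS a) h2 (fun g hg => hg.1) hsep hf
  obtain ⟨H₀, U, V, -, hloc, hcls⟩ := C.locp b ha hroot i
  have : Nonempty (Fin (e b).rank) := ⟨⟨0, hloc.pos⟩⟩
  have hns := hcls.2.2 hb (by rw [Fintype.card_fin]; exact h2)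
  rw [← hloc.yo]
  refine H25U.Yo_of_full hloc.ts ?_ hf
  by_cases h4 : ∃ r ∈ R, hd b r ≠ 0 ∧ hd b r ≠ (e b).rank ∧ 2 * hd b r ≠ (e b).rank
  · obtain ⟨r, hr, h5, h6, h7⟩ := h4
    obtain ⟨ε, c, hε, hc, hcard⟩ := C.ht_at b ha hroot hr
    rcases H25U.rigid_of_oneU hloc.ts hns hloc.yo hB hε (by rw [w9_const hε, hcard]; exact ⟨h5, h6⟩)
      hc (by rw [hcard, Fintype.card_fin]; exact h7) with h9 | ⟨N, k, hk, hkN, h9, h10⟩
    · exact h9
    · exfalso
      rw [Fintype.card_fin] at h9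
      obtain ⟨r', hr', g1, g2, g3, g4⟩ := bin ⟨r, hr, h5, h6, h7⟩ N k hk hkN h9
      obtain ⟨ε', c', hε', hc', hcard'⟩ := C.ht_at b ha hroot hr'
      rcases h10 ε' hε' (by rw [w9_const hε', hcard']; exact ⟨g1, g2⟩) c' hc' with h11 | h11
      · exact g3 (hcard'.symm.trans h11)
      · exact g4 (hcard'.symm.trans h11)
  · have h5 : ∀ r ∈ R, hd b r = 0 ∨ hd b r = (e b).rank ∨ 2 * hd b r = (e b).rank := by
      intro r hr
      by_contra h6
      push Not at h6
      exact h4 ⟨r, hr, h6⟩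
    -- an element of `R` at which the multiplicity is not extreme
    have hn0 : (1 : Module.End ℚ (YS a)) ≠ 0 := by
      intro h0
      obtain ⟨g, hg, hne⟩ := hsep ⟨0, by omega⟩ ⟨1, by omega⟩ (by
        intro h; exact absurd (congrArg Fin.val h) (by simp))
      have h6 : (⟨g, hg⟩ : YS a) = 0 := by
        have h7 := LinearMap.congr_fun h0 ⟨g, hg⟩
        exact h7
      have h7 : g = 0 := congrArg Subtype.val h6
      exact hne (by rw [h7]; rfl)
    have hgood : GoodU (cl b) (1 : Module.End ℚ (YS a)) :=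
      block_good hloc.pos (cl b) (fun h => by rw [hb] at h; cases h) hB
    obtain ⟨i', ε', hε', -, k₁, k₂, hkk⟩ := C.onto b ha hroot (P := 1) ⟨mul_one 1, fun x y => ⟨y, fun f => by
      rw [Module.End.one_apply]; ring⟩⟩ hgood hn0
    obtain ⟨r, hr, hv, -⟩ := C.Rval i'
    obtain ⟨H₁, U₁, V₁, -, hL₁, -⟩ := C.locp0 b ha hroot i'
    obtain ⟨-, g1, c₁, g2, -⟩ := HT_spec hL₁ C.crys.mu C.crys.muphi hε'
    have g3 := HT_rank hL₁ C.crys.mu C.crys.muphi hε'
    rw [C.hdg b i' r hr hv] at g3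
    have g4 := (w9_const g1).1 ⟨k₁, k₂, hkk⟩
    rw [← g3] at g4
    have h3 : 2 * hd b r = (e b).rank := by
      rcases h5 r hr with h6 | h6 | h6
      · exact absurd h6 g4.1
      · exact absurd h6 g4.2
      · exact h6
    refine H25U.full_of_oneU hloc.ts hns hloc.yo hB g1 ⟨k₁, k₂, hkk⟩ g2 (fun _ k hk hk2 => ?_) (fun h => ?_)
    · rw [Fintype.card_fin]
      exact twon h5 k hk hk2
    · rw [Fintype.card_fin, ← g3] at h
      exact absurd h3 h

/-- The component theorem: if the decompositions of the set of embeddings are excluded, the Lie algebra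
of the component is the whole symplectic, orthogonal or special linear algebra. -/
theorem Core5.comp (part : ∀ b (k : ℕ) (c : Ω → Option (Fin k)) (A : Fin k → ℕ), 2 ≤ k →
      PartU D j (cl b = .s) (ub b) (e b) (e (bar b)) (F b) q R (hd b) c A → Big (cl b) (e b).rank A →
      (e b).rank ≠ ∏ x, A x)
    (two : ∀ b (k : ℕ), 3 ≤ k → (cl b = .s → 4 ≤ k) → cl b ≠ .n → (e b).rank ≠ 2 ^ k)
    (binom : ∀ b (k : ℕ), (cl b = .s → 3 ≤ k ∧ Odd k) → (cl b = .o → 4 ≤ k ∧ Even k) →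
      cl b ≠ .n → (e b).rank ≠ k.centralBinom)
    (twon : ∀ b, cl b = .n → (∀ r ∈ R, hd b r = 0 ∨ hd b r = (e b).rank ∨ 2 * hd b r = (e b).rank) →
      ∀ k : ℕ, 4 ≤ k → Even k → (e b).rank ≠ 2 ^ k)
    (bin : ∀ b, cl b = .n → (∃ r ∈ R, hd b r ≠ 0 ∧ hd b r ≠ (e b).rank ∧ 2 * hd b r ≠ (e b).rank) →
      ∀ N k : ℕ, 2 ≤ k → k + 2 ≤ N → (e b).rank = N.choose k →
        ∃ r ∈ R, hd b r ≠ 0 ∧ hd b r ≠ (e b).rank ∧ hd b r ≠ (N - 1).choose k ∧
          hd b r ≠ (N - 1).choose (k - 1)) (b : Fin m) :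
    ∃ a : Fin (e b).rank → Ω, Function.Injective a ∧
      (∀ y : Ω, (F b).eval₂ j y = 0 ↔ ∃ k, y = a k) ∧
      ∀ (K : Type) [Field K] [CharZero K] [IsAlgClosed K]
        (L : Submodule K (Module.End K (Fin (e b).rank → K))), TM L → Yo L = YS a →
        (cl b = .s → ∀ J : Matrix (Fin (e b).rank) (Fin (e b).rank) K, Jᵀ = -J → IsUnit J.det →
          (∀ X ∈ L, adjE J X = -X) → ∀ X, adjE J X = -X → X ∈ L) ∧
        (cl b = .o → ∀ J : Matrix (Fin (e b).rank) (Fin (e b).rank) K, Jᵀ = J → IsUnit J.det →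
          (∀ X ∈ L, adjE J X = -X) → ∀ X, adjE J X = -X → X ∈ L) ∧
        (cl b = .n → ∀ X : Module.End K (Fin (e b).rank → K),
          LinearMap.trace K (Fin (e b).rank → K) X = 0 → X ∈ L) := by
  obtain ⟨a, ha, hroot⟩ := C.enum b
  have hn := C.rank_pos b
  have ha0 := C.ne b hroot
  have hsep : ∀ k l, k ≠ l → ∃ g ∈ YS a, g k ≠ g l :=
    YS_sep ha0 fun k l n hn h => ha (C.tor b ((hroot _).2 ⟨k, rfl⟩) ((hroot _).2 ⟨l, rfl⟩) hn h)
  have hs : ∀ g ∈ YS a, ∑ k, g k = 0 := fun g hg => hg.1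
  obtain ⟨FF, hFF, horth, hsum, hperm, hone, hblock⟩ := exists_blocksU2 hn hs (cl b) fun h8 h9 =>
    two b 3 le_rfl (fun h => by rw [h8] at h; cases h) (by rw [h8]; decide)
      (by rw [h9]; norm_num)
  have : Nonempty (Fin (e b).rank) := ⟨⟨0, hn⟩⟩
  have hF2 : FF.card ≤ 1 := by
    by_contra h5
    obtain ⟨c, h7, h8⟩ := C.partd2 b ha hroot hn hFF horth hsum hperm FF.equivFin
    exact part b FF.card c _ (by omega) h7 (C.big_of b ha hroot hblock hFF (by omega) FF.equivFin) h8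
  have hF0 : FF.card = 0 → (e b).rank = 1 := by
    intro h6
    have h7 := prod_nz hs hsep (fun P hP => (hFF P hP).1) horth hsum
    rw [Finset.card_eq_zero.1 h6, Finset.prod_empty, Fintype.card_fin] at h7
    exact h7
  have hB : cl b ≠ .n ∨ 1 < (e b).rank → IsBlock (1 : Module.End ℚ (YS a)) := by
    intro h
    refine hone ?_
    by_contra h6
    have h7 : (e b).rank = 1 := hF0 (by omega)
    rcases h with h | h
    · have h8 := C.rank_even b h
      rw [h7] at h8
      exact absurd h8 (by decide)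
    · omega
  refine ⟨a, ha, hroot, fun K _ _ _ L hT hY => ⟨fun hb J hJ hJd hsk X hX => ?_,
    fun hb J hJ hJd hsk X hX => ?_, fun hb X hX => ?_⟩⟩
  · have hsy : SyL L := ⟨J, hJ, hJd, hsk⟩
    have hT' := (tm_iff (Or.inl hsy)).1 hT
    have hY' : H76P.Yo L = YS a := (Yo_eq (Or.inl hsy)).symm.trans hY
    have hTS : TS L J := ⟨⟨hT'.cmp.lie, hT'.cmp.irr, hJ, hJd, hsk, hT'.cmp.gen⟩, hT'.diag, hT'.sep⟩
    refine full_of_one hTS hY' (hB (Or.inl (by rw [hb]; decide))) (fun k hk => ?_)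
      (fun k hk hk2 => ?_) hX
    · rw [Fintype.card_fin]
      exact two b k (by omega) (fun _ => hk) (by rw [hb]; decide)
    · rw [Fintype.card_fin]
      exact binom b k (fun _ => ⟨hk, hk2⟩) (fun h => by rw [hb] at h; cases h)
        (by rw [hb]; decide)
  · have hor : OrL L := ⟨J, hJ, hJd, hsk⟩
    have hT' := (tm_iff (Or.inr hor)).1 hT
    have hY' : H76P.Yo L = YS a := (Yo_eq (Or.inr hor)).symm.trans hY
    refine full_of_oneO hT' hJ hJd hsk hY' (hB (Or.inl (by rw [hb]; decide))) (fun k hk => ?_)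
      (fun k hk hk2 => ?_) hX
    · rw [Fintype.card_fin]
      exact two b k hk (fun h => by rw [hb] at h; cases h) (by rw [hb]; decide)
    · rw [Fintype.card_fin]
      exact binom b k (fun h => by rw [hb] at h; cases h) (fun _ => ⟨hk, hk2⟩)
        (by rw [hb]; decide)
  · by_cases h1 : (e b).rank = 1
    · have h2 : X = 0 := by
        have h3 : Subsingleton (Fin (e b).rank) := by rw [h1]; infer_instance
        obtain ⟨k⟩ := ‹Nonempty (Fin (e b).rank)›
        have h4 : LinearMap.trace K (Fin (e b).rank → K) X = LinearMap.toMatrix' X k k := by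
          rw [LinearMap.trace_eq_matrix_trace K (Pi.basisFun K _), LinearMap.toMatrix_eq_toMatrix',
            Matrix.trace, Fintype.sum_subsingleton _ k]
          rfl
        rw [h4] at hX
        apply LinearMap.toMatrix'.injective
        rw [map_zero]
        ext x y
        rw [Subsingleton.elim x k, Subsingleton.elim y k, hX]
        rfl
      rw [h2]
      exact Submodule.zero_mem _
    · have h2 : 1 < (e b).rank := by omega
      exact H25U.full_of_Yo hT (fun f hf => by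
        rw [hY]
        exact C.full_p b hb h2 (twon b hb) (bin b hb) ha hroot (hB (Or.inr h2)) hf) X hX

end Pool.Agent.H45U
end

-- from Lib.H34V.P03
section

/-!
# P03: the fifth version over an abstract group
-/

set_option autoImplicit false
set_option linter.unusedSectionVars false
namespace Pool.Agent.H34V
open Module Matrix Polynomial Pool.Agent.H53Toric
open Pool.Agent.H25U
open Pool.Agent.H76P hiding Hs Yo pt pt_apply wc IsWt
open Pool.Agent.H76Q
open Pool.Agent.H76Y hiding CmpN TM LocN GoodN Cls Core3 PartN MumN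
open Pool.Agent.H76Z hiding LocN GoodN Cls Core3
open Pool.Agent.H34Z
open Pool.Agent.H45U
open Pool.Agent.H76U (cmp preL Lb Split4 IsSplitting typeGrp)
open Pool.Agent.H76RM (spanK similD)

variable {ι : Type*} [Fintype ι] [DecidableEq ι] {ψ : Matrix ι ι ℚ}
    {D : Subalgebra ℚ (Matrix ι ι ℚ)} {M : Type*} [Field M] [NumberField M]
    {m : ℕ} {cl : Fin m → Cl} {bar : Fin m → Fin m} {e : Fin m → Matrix ι ι M} {u₀ : Matrix ι ι M} {G : Type*} [Group G]
    {ρ : ∀ (l : ℕ) [Fact l.Prime], G →* Matrix.GeneralLinearGroup ι ℚ_[l]}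
    {p : ℕ} [Fact p.Prime] {σ : G} {q : ℚ} {F : Fin m → M[X]}
    {φ μ ν : Matrix ι ι (AlgebraicClosure ℚ_[p])} {v : AlgebraicClosure ℚ_[p] → ℚ}
    {Δ : Set (AlgebraicClosure ℚ_[p] ≃+* AlgebraicClosure ℚ_[p])}
    {Ω : Type*} [Field Ω] [CharZero Ω] [IsAlgClosed Ω] [Algebra.IsAlgebraic ℚ Ω] {j : M →+* Ω}
    {R : Finset Ω} {N : Set ℕ} {hd : Fin m → Ω → ℕ} {ub : Fin m → Prop}

/-- **The fifth version over an abstract group**: from the Lie algebras of the components (the
conclusion of `Core5.comp`) to the monodromy groups at every prime.  `hodge`: the relations between the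
types are the same at all primes; `six`, `dir`, `dual`: no exceptional relations between the eigenvalues
of two components. -/
theorem final_of5 (C : Core5 ψ D cl bar e u₀ ρ p σ q F φ μ ν v Δ j R N hd ub)
    (four : ∀ b, cl b = .o → (e b).rank ≠ 4 ∧ (e b).rank ≠ 8)
    {a : ∀ b, Fin (e b).rank → Ω} (ha : ∀ b, Function.Injective (a b))
    (hroot : ∀ b, ∀ y : Ω, (F b).eval₂ j y = 0 ↔ ∃ k, y = a b k)
    (hf : ∀ b, ∀ (K : Type) [Field K] [CharZero K] [IsAlgClosed K]
        (L : Submodule K (Module.End K (Fin (e b).rank → K))), TM L → Yo L = YS (a b) →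
        (cl b = .s → ∀ J : Matrix (Fin (e b).rank) (Fin (e b).rank) K, Jᵀ = -J → IsUnit J.det →
          (∀ X ∈ L, adjE J X = -X) → ∀ X, adjE J X = -X → X ∈ L) ∧
        (cl b = .o → ∀ J : Matrix (Fin (e b).rank) (Fin (e b).rank) K, Jᵀ = J → IsUnit J.det →
          (∀ X ∈ L, adjE J X = -X) → ∀ X, adjE J X = -X → X ∈ L) ∧
        (cl b = .n → ∀ X : Module.End K (Fin (e b).rank → K),
          LinearMap.trace K (Fin (e b).rank → K) X = 0 → X ∈ L))
    (l : ℕ) [Fact l.Prime] (i : Ω →+* AlgebraicClosure ℚ_[l])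
    (hodge : ∀ (z : Fin m → ℤ) (z₀ : ℤ),
      (∀ h ∈ properProj (AlgebraicClosure ℚ_[l]) (ρ l), ∑ b, z b * ((h * (e b).map (i.comp j)).rank : ℤ) + z₀ = 0) ↔
        ∀ r ∈ R, ∑ b, z b * (hd b r : ℤ) + z₀ = 0)
    (six : ∀ b c, cl b = .o → cl c = .n → (e b).rank = 6 → (e c).rank = 4 →
      ∀ f f' : Fin (e b).rank → Fin (e c).rank, (∀ i, f i ≠ f' i) →
        ∃ k l, a b k * a c (f l) * a c (f' l) ≠ a b l * a c (f k) * a c (f' k))
    (dir : ∀ b c, c ≠ b → c ≠ bar b → 2 ≤ (e b).rank → (e c).rank = (e b).rank →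
      (∀ r ∈ R, hd b r = hd c r) ∨
      ∀ π : Fin (e b).rank → Fin (e c).rank, ∃ k k', a c (π k) * a b k' ≠ a c (π k') * a b k)
    (dual : ∀ b c, c ≠ b → c ≠ bar b → 2 ≤ (e b).rank → (e c).rank = (e b).rank →
      (∀ r ∈ R, hd b r + hd c r = (e b).rank) ∨
      ∀ π : Fin (e b).rank → Fin (e c).rank, ∃ k k', a c (π k) * a b k ≠ a c (π k') * a b k')
    (H : Subgroup G) (hH : H.FiniteIndex) :
    monodromy (AlgebraicClosure ℚ_[l]) (ρ l) H =
      typeGrp (AlgebraicClosure ℚ_[l]) ψ D (fun b => (e b).map (i.comp j)) {n | ∃ r ∈ R, ∀ b, n b = hd b r} := by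
  have hspl : Splits D ψ cl bar (fun b => (e b).map (i.comp j)) (u₀.map (i.comp j)) := C.hspl.map (i.comp j)
  have hsig : ∀ (z : Fin m → ℤ) (z₀ : ℤ),
      (∀ n ∈ {n : Fin m → ℕ | ∃ r ∈ R, ∀ b, n b = hd b r}, ∑ b, z b * (n b : ℤ) + z₀ = 0) ↔
        ∀ r ∈ R, ∑ b, z b * (hd b r : ℤ) + z₀ = 0 := by
    intro z z₀
    constructor
    · intro h r hr
      exact h (fun b => hd b r) ⟨r, hr, fun b => rfl⟩
    · rintro h n ⟨r, hr, hn⟩
      rw [← h r hr]
      congr 1
      exact Finset.sum_congr rfl fun b _ => by rw [hn b]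
  rcases isEmpty_or_nonempty ι with hι | hι
  · have huniq : ∀ y z : Matrix ι ι (AlgebraicClosure ℚ_[l]), y = z := by
      intro y z
      ext i
      exact (hι.false i).elim
    have hm : IsEmpty (Fin m) := ⟨fun b => hspl.ne_zero b (huniq _ _)⟩
    obtain ⟨r, hr⟩ : ∃ r, r ∈ R := by
      obtain ⟨i'⟩ := Pool.Agent.H76Z.w9_exists_i p Ω
      obtain ⟨r, hr, -⟩ := C.Rval i'
      exact ⟨r, hr⟩
    ext x
    constructor
    · rintro ⟨hx, -⟩
      refine ⟨⟨hx, fun d _ => huniq _ _, 0, huniq _ _⟩, fun z z₀ h c _ => ?_⟩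
      have h1 := h (fun b => hd b r) ⟨r, hr, fun b => rfl⟩
      rw [Finset.univ_eq_empty, Finset.sum_empty, zero_add] at h1
      rw [Finset.univ_eq_empty, Finset.prod_empty, h1, zpow_zero, one_mul]
    · rintro ⟨⟨hx, -, -⟩, -⟩
      refine ⟨hx, ?_⟩
      rw [huniq x 1]
      exact subset_zar _ (img_one (ρ l) H)
  apply Set.Subset.antisymm
  · exact mono_le5 C.hψ C.hψ0 D (ρ l) (C.lin l) (C.sim l) hspl.mem hspl.idem
      (fun g => subset_zar _ (C.gen l g)) (fun z z₀ h => (hodge z z₀).2 ((hsig z z₀).1 h)) H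
  · rintro w ⟨⟨hw, hwD, c, hc⟩, hwchar⟩
    refine ⟨hw, ?_⟩
    obtain ⟨H₀, hle, hfin, hprime⟩ := Pool.Agent.H76RM.exists_prime (K := AlgebraicClosure ℚ_[l]) (ρ l) H hH
    have hsub : img (AlgebraicClosure ℚ_[l]) (ρ l) H₀ ⊆ img (AlgebraicClosure ℚ_[l]) (ρ l) H := by
      rintro _ ⟨σ, hσ, rfl⟩
      exact ⟨σ, hle hσ, rfl⟩
    apply zar_mono hsub
    have hbal' : ∀ h ∈ properProj (AlgebraicClosure ℚ_[l]) (ρ l), ∀ b, cl b ≠ .n →
        2 * (h * (e b).map (i.comp j)).rank = (e b).rank := fun h hh b hb => C.bal l h hh _ b hb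
    have ht : ∀ b, ∀ k l : Fin (e b).rank, ∀ N : ℕ, N ≠ 0 → a b k ^ N = a b l ^ N → k = l :=
      fun b k l' N hN h => ha b (C.tor b ((hroot b _).2 ⟨k, rfl⟩) ((hroot b _).2 ⟨l', rfl⟩) hN h)
    -- from the types at `p` to the projectors at `l`
    have hdir : ∀ b c, c ≠ b → c ≠ bar b → 2 ≤ (e b).rank → (e c).rank = (e b).rank →
        (∀ h ∈ properProj (AlgebraicClosure ℚ_[l]) (ρ l),
          (h * (e b).map (i.comp j)).rank = (h * (e c).map (i.comp j)).rank) ∨
        ∀ π : Fin (e b).rank → Fin (e c).rank, ∃ k k', a c (π k) * a b k' ≠ a c (π k') * a b k := by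
      intro b c hbc hbc' hb2 hn
      refine (dir b c hbc hbc' hb2 hn).imp_left fun h1 h hh => ?_
      have h2 := (hodge (Pi.single b 1 - Pi.single c 1) 0).2 (fun r hr => by
        simp only [Pi.sub_apply, sub_mul, Finset.sum_sub_distrib, add_zero]
        rw [Finset.sum_eq_single b (fun x _ hx => by rw [Pi.single_eq_of_ne hx, zero_mul])
            (fun hx => absurd (Finset.mem_univ _) hx),
          Finset.sum_eq_single c (fun x _ hx => by rw [Pi.single_eq_of_ne hx, zero_mul])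
            (fun hx => absurd (Finset.mem_univ _) hx), Pi.single_eq_same, Pi.single_eq_same, h1 r hr, sub_self]) h hh
      simp only [Pi.sub_apply, sub_mul, Finset.sum_sub_distrib, add_zero] at h2
      rw [Finset.sum_eq_single b (fun x _ hx => by rw [Pi.single_eq_of_ne hx, zero_mul])
            (fun hx => absurd (Finset.mem_univ _) hx),
          Finset.sum_eq_single c (fun x _ hx => by rw [Pi.single_eq_of_ne hx, zero_mul])
            (fun hx => absurd (Finset.mem_univ _) hx), Pi.single_eq_same, Pi.single_eq_same, one_mul, one_mul,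
            sub_eq_zero] at h2
      exact Nat.cast_injective h2
    have hdual : ∀ b c, c ≠ b → c ≠ bar b → 2 ≤ (e b).rank → (e c).rank = (e b).rank →
        (∀ h ∈ properProj (AlgebraicClosure ℚ_[l]) (ρ l),
          (h * (e b).map (i.comp j)).rank + (h * (e c).map (i.comp j)).rank = (e b).rank) ∨
        ∀ π : Fin (e b).rank → Fin (e c).rank, ∃ k k', a c (π k) * a b k ≠ a c (π k') * a b k' := by
      intro b c hbc hbc' hb2 hn
      refine (dual b c hbc hbc' hb2 hn).imp_left fun h1 h hh => ?_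
      have h2 := (hodge (Pi.single b 1 + Pi.single c 1) (-((e b).rank : ℤ))).2 (fun r hr => by
        simp only [Pi.add_apply, add_mul, Finset.sum_add_distrib]
        rw [Finset.sum_eq_single b (fun x _ hx => by rw [Pi.single_eq_of_ne hx, zero_mul])
            (fun hx => absurd (Finset.mem_univ _) hx),
          Finset.sum_eq_single c (fun x _ hx => by rw [Pi.single_eq_of_ne hx, zero_mul])
            (fun hx => absurd (Finset.mem_univ _) hx), Pi.single_eq_same, Pi.single_eq_same, one_mul, one_mul,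
            ← h1 r hr]
        push_cast
        ring) h hh
      simp only [Pi.add_apply, add_mul, Finset.sum_add_distrib] at h2
      rw [Finset.sum_eq_single b (fun x _ hx => by rw [Pi.single_eq_of_ne hx, zero_mul])
            (fun hx => absurd (Finset.mem_univ _) hx),
          Finset.sum_eq_single c (fun x _ hx => by rw [Pi.single_eq_of_ne hx, zero_mul])
            (fun hx => absurd (Finset.mem_univ _) hx), Pi.single_eq_same, Pi.single_eq_same, one_mul, one_mul] at h2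
      omega
    -- the situation
    obtain ⟨x, U, V, g⟩ : ∃ (x : Matrix ι ι (AlgebraicClosure ℚ_[l]))
        (U : ∀ b, Matrix ι (Fin (e b).rank) (AlgebraicClosure ℚ_[l]))
        (V : ∀ b, Matrix (Fin (e b).rank) ι (AlgebraicClosure ℚ_[l])),
        Sit5 (ψ.map (algebraMap ℚ (AlgebraicClosure ℚ_[l]))) (u₀.map (i.comp j)) (spanK (AlgebraicClosure ℚ_[l]) D)
          (img (AlgebraicClosure ℚ_[l]) (ρ l) H₀) (properProj (AlgebraicClosure ℚ_[l]) (ρ l)) x bar
          (fun b => (e b).map (i.comp j)) (fun b => (e b).rank) U V (fun b k => i (a b k)) := by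
      by_cases hl : l = p
      · subst hl
        exact ⟨φ, mk_sit5 C.hψ C.hψ0 D (ρ l) (C.lin l) (C.sim l) (C.semis l) (C.commt l) (C.gen l) C.hspl
          C.frobp C.crys.phigen C.multp hfin hprime j i hbal' ha hroot ht four
          (fun b L hT hY => hf b _ L hT hY) six hdir hdual⟩
      · have hmult := sim_map (K := AlgebraicClosure ℚ_[l]) (C.mult l hl)
        have h1 : algebraMap ℚ_[l] (AlgebraicClosure ℚ_[l]) (algebraMap ℚ ℚ_[l] q) =
            algebraMap ℚ (AlgebraicClosure ℚ_[l]) q := by simp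
        rw [h1] at hmult
        exact ⟨_, mk_sit5 C.hψ C.hψ0 D (ρ l) (C.lin l) (C.sim l) (C.semis l) (C.commt l) (C.gen l) C.hspl
          (C.frob l hl) (C.gen l σ) hmult hfin hprime j i hbal' ha hroot ht four
          (fun b L hT hY => hf b _ L hT hY) six hdir hdual⟩
    have hc0 : c ≠ 0 := by
      rintro rfl
      rw [zero_smul] at hc
      have h3 := congrArg Matrix.det hc
      rw [Matrix.det_mul, Matrix.det_mul, Matrix.det_transpose, Matrix.det_zero] at h3
      exact (mul_ne_zero (mul_ne_zero hw g.hJ.ne_zero) hw) h3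
    refine g.group_mem (fun h hh t ht => ?_) hw (Pool.Agent.H76RM.comm_span hwD) hc0 hc (fun z z₀ hz => ?_)
    · exact (hodgeProj_finite (ρ l) H₀ hh.1).2 t ht
    · exact hwchar z z₀ ((hsig z z₀).2 ((hodge z z₀).1 hz)) c hc

end Pool.Agent.H34V
end

-- from Lib.H86L.N3
section

/-!
# N3: fields with a real place, fifth version: one block which is its own conjugate
-/

set_option autoImplicit false
set_option linter.unusedSectionVars false
namespace Pool.Agent.H86L
open Module Matrix Polynomial Pool.Agent.H53Toric Pool.Agent.H76P Pool.Agent.H76Q Pool.Agent.H86K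
open Pool.Agent.H76Y (LcN ThetaN TM CmpN SyL)
open Pool.Agent.H76Z (Cl LocN Splits OrL)
open Pool.Agent.H45U (Core5 LocU)
open Pool.Agent.H76T (IsIdeal Fam)
open Pool.Agent.H76U (cmp preL IsSplitting)
open Pool.Agent.H76RM (spanK similD)

section
variable {ι : Type*} [Fintype ι] [DecidableEq ι] {K : Type*} [Field K] [CharZero K]
  [IsAlgClosed K] {ct : Cl} {J : Matrix ι ι K} {S 𝓗 : Set (Matrix ι ι K)} {e x : Matrix ι ι K} {q : K} {n : ℕ}
  {U : Matrix ι (Fin n) K} {V : Matrix (Fin n) ι K} {d : Fin n → K}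
  {Y : Submodule ℚ (Fin n → ℚ)}

/-- Balanced local data are local data in the sense of the fourth version. -/
theorem toN (h : LocU J S 𝓗 e x U V d Y) (hcls : H76Z.Cls ct (LcN J S U V))
    (hprod : (∏ k, d k) ^ 2 = q ^ n) (hT : TM (LcN J S U V)) (hY : Yo (LcN J S U V) = Y)
    (hbal : ∀ y ∈ 𝓗, 2 * (y * e).rank = n) : LocN ct J S 𝓗 e x q U V d Y := by
  refine ⟨h.pos, h.UV, h.VU, h.ec, h.ex, hT, hcls, hY, fun y hy => ?_, h.lie, hprod⟩
  obtain ⟨hyy, hye, c, hc⟩ := h.par y hy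
  refine ⟨hyy, hye, hbal y hy, ?_⟩
  have hn : (n : K) ≠ 0 := by exact_mod_cast h.pos.ne'
  have h1 : cmp U V y * cmp U V y = cmp U V y := by
    rw [← Pool.Agent.H76U.cmp_mul h.UV h.VU hye, hyy]
  have h2 : (cmp U V y).trace = ((cmp U V y).rank : K) := by
    have h3 : phi (cmp U V y) * phi (cmp U V y) = phi (cmp U V y) := by rw [← map_mul, h1]
    have h4 := trace_idem h3
    rw [H76Y.g4_trace] at h4
    exact h4
  have h5 : (cmp U V y).rank = (y * e).rank := Pool.Agent.H76U.rank_cmp h.UV h.VU hye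
  have h6 := hc.2
  rw [H76Y.g4_trace, map_sub, map_smul, map_smul, Pool.Agent.H76U.cmp_one h.UV h.VU, Matrix.trace_sub,
    Matrix.trace_smul, Matrix.trace_smul, h2, h5, Matrix.trace_one, Fintype.card_fin, smul_eq_mul,
    smul_eq_mul] at h6
  have h7 : ((2 * (y * e).rank : ℕ) : K) = (n : K) := by rw [hbal y hy]
  push_cast at h7
  rw [h7] at h6
  have h8 : (1 - (c : K)) * (n : K) = 0 := by
    rw [sub_mul, one_mul]
    exact h6
  have h9 : (c : K) = 1 := (sub_eq_zero.1 ((mul_eq_zero.1 h8).resolve_right hn)).symm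
  rw [h9, one_smul] at hc
  exact hc

end

variable {ι : Type*} [Fintype ι] [DecidableEq ι] {ψ : Matrix ι ι ℚ}
    {D : Subalgebra ℚ (Matrix ι ι ℚ)} {M : Type*} [Field M] [NumberField M]
    {m : ℕ} {cl : Fin m → Cl} {bar : Fin m → Fin m} {e : Fin m → Matrix ι ι M} {u₀ : Matrix ι ι M}
    {G : Type*} [Group G]
    {ρ : ∀ (l : ℕ) [Fact l.Prime], G →* Matrix.GeneralLinearGroup ι ℚ_[l]}
    {p : ℕ} [Fact p.Prime] {σ : G} {q : ℚ} {F : Fin m → M[X]}
    {φ μ ν : Matrix ι ι (AlgebraicClosure ℚ_[p])} {v : AlgebraicClosure ℚ_[p] → ℚ}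
    {Δ : Set (AlgebraicClosure ℚ_[p] ≃+* AlgebraicClosure ℚ_[p])}
    {Ω : Type} [Field Ω] [CharZero Ω] [IsAlgClosed Ω] [Algebra.IsAlgebraic ℚ Ω] {j : M →+* Ω}
    {R : Finset Ω} {N : Set ℕ} {hd : Fin m → Ω → ℕ} {ub : Fin m → Prop}
    (C : Core5 ψ D cl bar e u₀ ρ p σ q F φ μ ν v Δ j R N hd ub)

include C

/-- The local data at `l ≠ p` of a component with a form. -/
theorem locl5 (b : Fin m) (hcl : cl b ≠ .n)
    {n : ℕ} {a : Fin n → Ω} (ha : Function.Injective a)
    (hroot : ∀ y : Ω, (F b).eval₂ j y = 0 ↔ ∃ k, y = a k)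
    (l : ℕ) [Fact l.Prime] (hl : l ≠ p) (i : Ω →+* AlgebraicClosure ℚ_[l]) :
    ∃ (H₀ : Subgroup G) (U : Matrix ι (Fin n) (AlgebraicClosure ℚ_[l]))
      (V : Matrix (Fin n) ι (AlgebraicClosure ℚ_[l])), H₀.FiniteIndex ∧
      LocN (cl b) (ψ.map (algebraMap ℚ (AlgebraicClosure ℚ_[l]))) (img (AlgebraicClosure ℚ_[l]) (ρ l) H₀)
        (properProj (AlgebraicClosure ℚ_[l]) (ρ l)) ((e b).map (i.comp j))
        ((ρ l σ).1.map (algebraMap ℚ_[l] (AlgebraicClosure ℚ_[l])))
        (algebraMap ℚ (AlgebraicClosure ℚ_[l]) q) U V (fun k => i (a k)) (YS a) := by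
  obtain ⟨H₀, U, V, hfin, hL, h1, h2, h3⟩ := C.locl0 b ha hroot l hl i
  have hbal : ∀ h ∈ properProj (AlgebraicClosure ℚ_[l]) (ρ l), 2 * (h * (e b).map (i.comp j)).rank = n :=
    fun h hh => (C.bal l h hh (i.comp j) b hcl).trans (C.card b ha hroot).symm
  obtain ⟨h4, h5, h6, -⟩ := h3 hbal
  exact ⟨H₀, U, V, hfin, toN hL ⟨h1, h2, fun h => absurd h hcl⟩ h4 h5 h6 hbal⟩

/-- The local data at `p` of a component with a form. -/
theorem locp5 (b : Fin m) (hcl : cl b ≠ .n)
    {n : ℕ} {a : Fin n → Ω} (ha : Function.Injective a)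
    (hroot : ∀ y : Ω, (F b).eval₂ j y = 0 ↔ ∃ k, y = a k) (i : Ω →+* AlgebraicClosure ℚ_[p]) :
    ∃ (H₀ : Subgroup G) (U : Matrix ι (Fin n) (AlgebraicClosure ℚ_[p]))
      (V : Matrix (Fin n) ι (AlgebraicClosure ℚ_[p])), H₀.FiniteIndex ∧
      LocN (cl b) (ψ.map (algebraMap ℚ (AlgebraicClosure ℚ_[p]))) (img (AlgebraicClosure ℚ_[p]) (ρ p) H₀)
        (properProj (AlgebraicClosure ℚ_[p]) (ρ p)) ((e b).map (i.comp j)) φ
        (algebraMap ℚ (AlgebraicClosure ℚ_[p]) q) U V (fun k => i (a k)) (YS a) := by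
  obtain ⟨H₀, U, V, hfin, hL, h1, h2, h3⟩ := C.locp0 b ha hroot i
  have hbal : ∀ h ∈ properProj (AlgebraicClosure ℚ_[p]) (ρ p), 2 * (h * (e b).map (i.comp j)).rank = n :=
    fun h hh => (C.bal p h hh (i.comp j) b hcl).trans (C.card b ha hroot).symm
  obtain ⟨h4, h5, h6, -⟩ := h3 hbal
  exact ⟨H₀, U, V, hfin, toN hL ⟨h1, h2, fun h => absurd h hcl⟩ h4 h5 h6 hbal⟩

/-- The elements of the span of `D` commute with the representation. -/
theorem lin_span5 (l : ℕ) [Fact l.Prime] {y : Matrix ι ι (AlgebraicClosure ℚ_[l])}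
    (hy : y ∈ spanK (AlgebraicClosure ℚ_[l]) D) (g : G) :
    (ρ l g).1.map (algebraMap ℚ_[l] (AlgebraicClosure ℚ_[l])) * y =
      y * (ρ l g).1.map (algebraMap ℚ_[l] (AlgebraicClosure ℚ_[l])) := by
  refine Submodule.span_induction (p := fun y _ => (ρ l g).1.map (algebraMap ℚ_[l] (AlgebraicClosure ℚ_[l])) * y =
      y * (ρ l g).1.map (algebraMap ℚ_[l] (AlgebraicClosure ℚ_[l]))) ?_ ?_ ?_ ?_ hy
  · rintro _ ⟨d, hd, rfl⟩
    have h7 := congrArg (fun m : Matrix ι ι ℚ_[l] => m.map (algebraMap ℚ_[l] (AlgebraicClosure ℚ_[l]))) (C.lin l g d hd)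
    have h8 : (d.map (algebraMap ℚ ℚ_[l])).map (algebraMap ℚ_[l] (AlgebraicClosure ℚ_[l])) =
        d.map (algebraMap ℚ (AlgebraicClosure ℚ_[l])) := by
      ext i j
      simp
    simp only [Matrix.map_mul] at h7
    rw [h8] at h7
    exact h7
  · rw [Matrix.mul_zero, Matrix.zero_mul]
  · intro y y' _ _ h7 h8
    rw [Matrix.mul_add, Matrix.add_mul, h7, h8]
  · intro c y _ h7
    rw [Matrix.mul_smul, Matrix.smul_mul, h7]

/-- The elements of the span of `D` commute with the monodromy. -/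
theorem zar_span5 (l : ℕ) [Fact l.Prime] {y : Matrix ι ι (AlgebraicClosure ℚ_[l])}
    (hy : y ∈ spanK (AlgebraicClosure ℚ_[l]) D) {A : Matrix ι ι (AlgebraicClosure ℚ_[l])}
    (hA : A ∈ zar (img (AlgebraicClosure ℚ_[l]) (ρ l) ⊤)) : A * y = y * A := by
  refine H76RM.zar_commute ?_ hA
  rintro _ ⟨s, -, rfl⟩
  exact lin_span5 C l hy s

/-- The elements of the span of `D` commute with the Hodge-Tate projectors. -/
theorem proj_span5 (l : ℕ) [Fact l.Prime] {y : Matrix ι ι (AlgebraicClosure ℚ_[l])}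
    (hy : y ∈ spanK (AlgebraicClosure ℚ_[l]) D) {h : Matrix ι ι (AlgebraicClosure ℚ_[l])}
    (hh : h ∈ properProj (AlgebraicClosure ℚ_[l]) (ρ l)) : h * y = y * h := by
  have h1 := hh.1.2 2 two_ne_zero
  have h2 := zar_span5 C l hy h1
  rw [add_mul, mul_add, one_mul, mul_one, smul_mul_assoc, mul_smul_comm] at h2
  have h3 := add_left_cancel h2
  have h4 : ((2 : AlgebraicClosure ℚ_[l]) - 1) = 1 := by norm_num
  rwa [h4, one_smul, one_smul] at h3

/-- The elements of the span of `D` commute with the group generated by the Hodge-Tate groups. -/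
theorem tgen_span5 (l : ℕ) [Fact l.Prime] {y : Matrix ι ι (AlgebraicClosure ℚ_[l])}
    (hy : y ∈ spanK (AlgebraicClosure ℚ_[l]) D) {g : Matrix ι ι (AlgebraicClosure ℚ_[l])}
    (hg : g ∈ tgen (AlgebraicClosure ℚ_[l]) (ρ l)) : g * y = y * g := by
  refine Submonoid.closure_induction (motive := fun g _ => g * y = y * g) ?_ ?_ ?_ hg
  · rintro _ ⟨k, hk, t, -, rfl⟩
    rw [add_mul, mul_add, one_mul, mul_one, smul_mul_assoc, mul_smul_comm, proj_span5 C l hy hk]
  · rw [one_mul, mul_one]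
  · intro a b _ _ h1 h2
    rw [mul_assoc, h2, ← mul_assoc, h1, mul_assoc]

/-- The opposition on the roots of a component which is its own conjugate. -/
theorem exists_bar5 (b : Fin m) (hb : bar b = b) {n : ℕ} {a : Fin n → Ω} (ha : Function.Injective a)
    (hroot : ∀ y : Ω, (F b).eval₂ j y = 0 ↔ ∃ k, y = a k) :
    ∃ π : Equiv.Perm (Fin n), ∀ k, a k * a (π k) = algebraMap ℚ Ω q := by
  have hlink : Linked D ((e (bar b)).map j) ((e b).map ((RingEquiv.refl Ω).toRingHom.comp j)) := by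
    refine ⟨1, ?_, ?_⟩
    · have h1 : (1 : Matrix ι ι Ω) = (1 : Matrix ι ι ℚ).map (algebraMap ℚ Ω) := by
        rw [Matrix.map_one _ (map_zero _) (map_one _)]
      rw [h1]
      exact Submodule.subset_span ⟨1, D.one_mem, rfl⟩
    · have h1 : (e b).map ((RingEquiv.refl Ω).toRingHom.comp j) = (e b).map j := rfl
      rw [hb, h1, mul_one, ← H76U.map_mul', C.hspl.idem b]
      exact (C.hspl.map j).ne_zero b
  obtain ⟨π, hπ, -⟩ := C.dual_linked b ha hroot (s := RingEquiv.refl Ω) hlink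
  exact ⟨π, hπ⟩

/-- The multiplier is not zero. -/
theorem q_ne5 (b : Fin m) : q ≠ 0 := by
  intro h1
  obtain ⟨-, hdet⟩ := gram_basic C.hψ C.hψ0 (AlgebraicClosure ℚ_[p])
  have hι : Nonempty ι := by
    by_contra hemp
    rw [not_nonempty_iff] at hemp
    apply C.hspl.ne_zero b
    ext i'
    exact (hemp.false i').elim
  have h3 := C.multp
  rw [h1, map_zero, zero_smul] at h3
  have h4 := congrArg Matrix.det h3
  rw [Matrix.det_mul, Matrix.det_mul, Matrix.det_transpose, Matrix.det_zero] at h4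
  exact mul_ne_zero (mul_ne_zero C.frobp.idc.1 hdet.ne_zero) C.frobp.idc.1 h4

/-- The opposition has no fixed points: there is an involution in the configuration. -/
theorem bar_ne5 (b : Fin m) (hcl : cl b ≠ .n) {n : ℕ} {a : Fin n → Ω} (ha : Function.Injective a)
    (hroot : ∀ y : Ω, (F b).eval₂ j y = 0 ↔ ∃ k, y = a k) {bar' : Fin n → Fin n}
    (hopp : ∀ f ∈ YS a, ∀ k, f (bar' k) = -f k) (k : Fin n) : bar' k ≠ k := by
  let i : Ω →+* AlgebraicClosure ℚ_[p] :=
    (IsAlgClosed.lift (R := ℚ) (S := Ω) (M := AlgebraicClosure ℚ_[p])).toRingHom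
  obtain ⟨H₀, U, V, -, hL⟩ := locp5 C b hcl ha hroot i
  obtain ⟨ε, hε⟩ := H76Z.exists_HT hL C.crys.mu C.crys.muphi
  obtain ⟨-, hεY, hε1⟩ := H76Z.HT_spec hL C.crys.mu C.crys.muphi hε
  intro hk
  have h1 := hopp ε hεY k
  rw [hk] at h1
  rcases hε1 k with h2 | h2 <;> rw [h2] at h1 <;> norm_num at h1

/-- All odd functions are in the configuration. -/
theorem odd_gen5 {c : Ω ≃+* Ω} {T₀ : Finset Ω} {N' : Set ℕ}
    (hr : Real3 D ρ σ q bar e F j c T₀ N') (b : Fin m) (hcl : cl b ≠ .n)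
    {n : ℕ} {a : Fin n → Ω} (hn : 0 < n) (ha : Function.Injective a)
    (hroot : ∀ y : Ω, (F b).eval₂ j y = 0 ↔ ∃ k, y = a k) (hone : IsBlock (1 : Module.End ℚ (YS a)))
    (two : ∀ k : ℕ, n ≠ 2 ^ k) :
    ∃ bar' : Equiv.Perm (Fin n), (∀ k, bar' (bar' k) = k) ∧ (∀ k, bar' k ≠ k) ∧
      ∀ f : Fin n → ℚ, (∀ k, f (bar' k) = -f k) → f ∈ YS a := by
  classical
  have hb : bar b = b := (C.hspl.self b).2 hcl
  obtain ⟨bar', hbar⟩ := exists_bar5 C b hb ha hroot
  have hq0 : (algebraMap ℚ Ω q) ≠ 0 := by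
    rw [Ne, _root_.map_eq_zero]
    exact q_ne5 C b
  have hne : Nonempty (Fin n) := ⟨⟨0, hn⟩⟩
  have hopp : ∀ f ∈ YS a, ∀ k, f (bar' k) = -f k := fun f hf k => YS_opp hq0 hbar bar'.injective hf k
  have hbne : ∀ k, bar' k ≠ k := bar_ne5 C b hcl ha hroot hopp
  have ha0 : ∀ k, a k ≠ 0 := by
    intro k hk
    have h1 := hbar k
    rw [hk, zero_mul] at h1
    exact hq0 h1.symm
  have hca : ∀ k, c (a k) = a (bar' k) := by
    intro k
    apply mul_left_cancel₀ (ha0 k)
    rw [hbar k, hr.weil b _ ((hroot _).2 ⟨k, rfl⟩)]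
  have hbb : ∀ k, bar' (bar' k) = k := by
    intro k
    apply ha
    rw [← hca, ← hca, hr.cc]
  refine ⟨bar', hbb, hbne, ?_⟩
  -- the finite set
  set T1 : Finset Ω := Finset.univ.image a ∪ T₀ ∪ Finset.univ.image (fun w : ι × ι => j ((e b) w.1 w.2)) with hT1
  set T : Finset Ω := T1 ∪ T1.image c with hT
  have hTc : ∀ x ∈ T, c x ∈ T := by
    intro x hx
    rw [hT, Finset.mem_union] at hx ⊢
    rcases hx with hx | hx
    · exact Or.inr (Finset.mem_image_of_mem _ hx)
    · obtain ⟨y, hy, rfl⟩ := Finset.mem_image.1 hx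
      rw [hr.cc]
      exact Or.inl hy
  have hTa : ∀ k, a k ∈ T := by
    intro k
    rw [hT, Finset.mem_union, hT1, Finset.mem_union, Finset.mem_union]
    exact Or.inl (Or.inl (Or.inl (Finset.mem_image_of_mem _ (Finset.mem_univ _))))
  have hT0 : ∀ x ∈ T₀, x ∈ T := by
    intro x hx
    rw [hT, Finset.mem_union, hT1, Finset.mem_union, Finset.mem_union]
    exact Or.inl (Or.inl (Or.inr hx))
  have hTe : ∀ u v, j ((e b) u v) ∈ T := by
    intro u v
    rw [hT, Finset.mem_union, hT1, Finset.mem_union]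
    exact Or.inl (Or.inr (Finset.mem_image_of_mem (fun w : ι × ι => j ((e b) w.1 w.2)) (Finset.mem_univ (u, v))))
  have hadj : ∀ x ∈ T, x ∈ IntermediateField.adjoin ℚ (T : Set Ω) :=
    fun x hx => IntermediateField.subset_adjoin ℚ _ hx
  obtain ⟨l, hlf, hlN, i, t, ht1, ht2⟩ := exists_flip c hr.cc T hTc (hTa ⟨0, hn⟩)
    (by rw [hca]; exact fun h => hbne _ (ha h)) (N := N' ∪ {p}) (hr.fin.union (Set.finite_singleton p))
  have hlN' : l ∉ N' := fun h => hlN (Or.inl h)
  have hlp : l ≠ p := fun h => hlN (Or.inr h)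
  obtain ⟨y, hy, hyx, hyt⟩ := hr.ht l hlN' i (fun x hx => ht2 x (hadj x (hT0 x hx)) (hr.cT x hx))
  obtain ⟨g, g', hg, hgg, hconj⟩ := hyt t
  obtain ⟨H₀, U, V, -, hL⟩ := locl5 C b hcl ha hroot l hlp i
  -- linked idempotents
  have hlink : Linked D ((e b).map j) ((e b).map (c.toRingHom.comp j)) := by
    have h1 := hr.link b
    rwa [hb] at h1
  obtain ⟨a₁, ha₁, a', ha', h1, h2, h3, h4, h5, h6⟩ := (Pool.Agent.H76Y.pr_of_linked C.hspl.zero j c b hlink).map i
  have e1 : ((e b).map j).map i = (e b).map (i.comp j) := by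
    ext x y
    rfl
  have e2 : ((e b).map (c.toRingHom.comp j)).map i = (e b).map (i.comp (c.toRingHom.comp j)) := by
    ext x y
    rfl
  have e3 : (e b).map (i.comp (c.toRingHom.comp j)) = ((e b).map (i.comp j)).map t.toRingEquiv := by
    ext x y
    exact (ht1 _ (hadj _ (hTe x y))).symm
  rw [e1] at h2 h3 h6
  rw [e2] at h1 h4 h5
  rw [e3] at h1 h4 h5
  have hz : ∀ y ∈ spanK (AlgebraicClosure ℚ_[l]) D, ∀ A ∈ zlie (img (AlgebraicClosure ℚ_[l]) (ρ l) H₀), y * A = A * y := by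
    intro y hy A hA
    refine (H76RM.zlie_commute (img_one (ρ l) H₀) ?_ hA).symm
    rintro _ ⟨g, -, rfl⟩
    exact lin_span5 C l hy g
  have hge : g' * a₁ = a₁ * g' := by
    have h7 := tgen_span5 C l ha₁ hg
    have hg'g : g' * g = 1 := _root_.mul_eq_one_comm.1 hgg
    calc g' * a₁ = g' * (a₁ * (g * g')) := by rw [hgg, mul_one]
      _ = g' * ((a₁ * g) * g') := by rw [mul_assoc a₁ g g']
      _ = g' * ((g * a₁) * g') := by rw [h7]
      _ = (g' * g) * (a₁ * g') := by noncomm_ring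
      _ = a₁ * g' := by rw [hg'g, one_mul]
  have hay : a₁ * y.map t.toRingEquiv = y.map t.toRingEquiv * a₁ := by
    have h7 := tgen_span5 C l ha₁ hg
    have h8 := proj_span5 C l ha₁ hy
    have h9 : y.map t.toRingEquiv = g * y * g' := hconj
    rw [h9]
    calc a₁ * (g * y * g') = (a₁ * g) * y * g' := by noncomm_ring
      _ = g * (a₁ * y) * g' := by rw [← h7]; noncomm_ring
      _ = g * y * (a₁ * g') := by rw [← h8]; noncomm_ring
      _ = g * y * g' * a₁ := by rw [← hge]; noncomm_ring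
  exact full_localM hL hcl hone two (τ := t.toRingEquiv) h1 h2 h3 h4 h5
    (lin_span5 C l ha' σ) (hz a₁ ha₁)
    (H76Q.e6_fix t _) (by
      ext x y
      show t (algebraMap ℚ (AlgebraicClosure ℚ_[l]) (ψ x y)) = algebraMap ℚ (AlgebraicClosure ℚ_[l]) (ψ x y)
      rw [IsScalarTower.algebraMap_apply ℚ ℚ_[l] (AlgebraicClosure ℚ_[l]), t.commutes]) (fun x hx => by
      obtain ⟨g, -, rfl⟩ := hx
      exact H76Q.e6_fix t _)
    (bar := bar')
    (by
      intro k
      show t (i (a k)) = i (a (bar' k))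
      rw [ht1 _ (hadj _ (hTa k)), hca])
    hopp
    hy hyx hg hgg hconj hay

/-- **Fields with a real place: no binomial exceptions** (fifth version, class `s`). -/
theorem core5_binomS {c : Ω ≃+* Ω} {T₀ : Finset Ω} {N' : Set ℕ}
    (hr : Real3 D ρ σ q bar e F j c T₀ N') (b : Fin m) (hcl : cl b ≠ .n)
    {n : ℕ} {a : Fin n → Ω} (ha : Function.Injective a)
    (hroot : ∀ y : Ω, (F b).eval₂ j y = 0 ↔ ∃ k, y = a k) (hone : IsBlock (1 : Module.End ℚ (YS a)))
    (hbin : ∃ k : ℕ, 3 ≤ k ∧ n = k.centralBinom) {K : Type*} [Field K] [CharZero K] [IsAlgClosed K]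
    {L : Submodule K (Module.End K (Fin n → K))} {J : Matrix (Fin n) (Fin n) K} (hT : TS L J) (hY : Yo L = YS a)
    {X : Module.End K (Fin n → K)} (hX : adjE J X = -X) : X ∈ L := by
  obtain ⟨k, hk, hnk⟩ := hbin
  have hn : 0 < n := by rw [hnk]; exact Nat.centralBinom_pos k
  have two : ∀ k : ℕ, n ≠ 2 ^ k := by
    intro k' h
    rw [hnk] at h
    exact Pool.Agent.H49M.R3_binom_pow (by omega) h
  obtain ⟨bar', hbb, hbne, hodd⟩ := odd_gen5 C hr b hcl hn ha hroot hone two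
  have : Nonempty (Fin n) := ⟨⟨0, hn⟩⟩
  exact full_of_odd hT hY hone (fun k _ => by rw [Fintype.card_fin]; exact two k) hbb hbne hodd hX

/-- **Fields with a real place: no binomial exceptions** (fifth version, class `o`). -/
theorem core5_binomO {c : Ω ≃+* Ω} {T₀ : Finset Ω} {N' : Set ℕ}
    (hr : Real3 D ρ σ q bar e F j c T₀ N') (b : Fin m) (hcl : cl b ≠ .n)
    {n : ℕ} {a : Fin n → Ω} (ha : Function.Injective a)
    (hroot : ∀ y : Ω, (F b).eval₂ j y = 0 ↔ ∃ k, y = a k) (hone : IsBlock (1 : Module.End ℚ (YS a)))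
    (hbin : ∃ k : ℕ, 3 ≤ k ∧ n = k.centralBinom) {K : Type*} [Field K] [CharZero K] [IsAlgClosed K]
    {L : Submodule K (Module.End K (Fin n → K))} (hT : TM L) {J : Matrix (Fin n) (Fin n) K} (hJ : Jᵀ = J)
    (hJd : IsUnit J.det) (hsk : ∀ X ∈ L, adjE J X = -X) (hY : Yo L = YS a)
    {X : Module.End K (Fin n → K)} (hX : adjE J X = -X) : X ∈ L := by
  obtain ⟨k, hk, hnk⟩ := hbin
  have hn : 0 < n := by rw [hnk]; exact Nat.centralBinom_pos k
  have two : ∀ k : ℕ, n ≠ 2 ^ k := by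
    intro k' h
    rw [hnk] at h
    exact Pool.Agent.H49M.R3_binom_pow (by omega) h
  obtain ⟨bar', hbb, hbne, hodd⟩ := odd_gen5 C hr b hcl hn ha hroot hone two
  have : Nonempty (Fin n) := ⟨⟨0, hn⟩⟩
  exact full_of_oddM hT hJ hJd hsk hY hone (fun k => by rw [Fintype.card_fin]; exact two k) hbb hbne hodd hX

end Pool.Agent.H86L
end

-- from Lib.H86L.N4
section

/-!
# N4: fields with a real place, fifth version: the multiplicities at a real place, the binomial ranks
-/

set_option autoImplicit false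
set_option linter.unusedSectionVars false
namespace Pool.Agent.H86L
open Module Matrix Polynomial Pool.Agent.H53Toric Pool.Agent.H76P Pool.Agent.H76Q Pool.Agent.H86K
open Pool.Agent.H76Y (LcN ThetaN TM CmpN SyL)
open Pool.Agent.H76Z (Cl LocN Splits OrL)
open Pool.Agent.H45U (Core5 LocU)
open Pool.Agent.H76T (IsIdeal Fam)
open Pool.Agent.H76U (cmp preL IsSplitting)
open Pool.Agent.H76RM (spanK similD)

/-- The number of values `1` of a function with the values `1`, `-1` and of its opposite. -/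
theorem card_neg {n : ℕ} {ε : Fin n → ℚ} (hε : ∀ k, ε k = 1 ∨ ε k = -1) (π : Equiv.Perm (Fin n)) :
    (Finset.univ.filter fun k => ε k = 1).card + (Finset.univ.filter fun k => -ε (π k) = 1).card = n := by
  classical
  have h1 : (Finset.univ.filter fun k => -ε (π k) = 1).card =
      (Finset.univ.filter fun k => ¬ ε k = 1).card := by
    refine Finset.card_bij (fun k _ => π k) ?_ (fun a _ b _ h => π.injective h) ?_
    · intro k hk
      rw [Finset.mem_filter] at hk ⊢
      refine ⟨Finset.mem_univ _, fun h => ?_⟩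
      rw [h] at hk
      exact absurd hk.2 (by norm_num)
    · intro k hk
      rw [Finset.mem_filter] at hk
      refine ⟨π.symm k, ?_, π.apply_symm_apply k⟩
      rw [Finset.mem_filter, π.apply_symm_apply, (hε k).resolve_left hk.2]
      exact ⟨Finset.mem_univ _, by norm_num⟩
  rw [h1, Finset.card_filter_add_card_filter_not, Finset.card_univ, Fintype.card_fin]

variable {ι : Type*} [Fintype ι] [DecidableEq ι] {ψ : Matrix ι ι ℚ}
    {D : Subalgebra ℚ (Matrix ι ι ℚ)} {M : Type*} [Field M] [NumberField M]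
    {m : ℕ} {cl : Fin m → Cl} {bar : Fin m → Fin m} {e : Fin m → Matrix ι ι M} {u₀ : Matrix ι ι M}
    {G : Type*} [Group G]
    {ρ : ∀ (l : ℕ) [Fact l.Prime], G →* Matrix.GeneralLinearGroup ι ℚ_[l]}
    {p : ℕ} [Fact p.Prime] {σ : G} {q : ℚ} {F : Fin m → M[X]}
    {φ μ ν : Matrix ι ι (AlgebraicClosure ℚ_[p])} {v : AlgebraicClosure ℚ_[p] → ℚ}
    {Δ : Set (AlgebraicClosure ℚ_[p] ≃+* AlgebraicClosure ℚ_[p])}
    {Ω : Type} [Field Ω] [CharZero Ω] [IsAlgClosed Ω] [Algebra.IsAlgebraic ℚ Ω] {j : M →+* Ω}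
    {R : Finset Ω} {N : Set ℕ} {hd : Fin m → Ω → ℕ} {ub : Fin m → Prop}
    (C : Core5 ψ D cl bar e u₀ ρ p σ q F φ μ ν v Δ j R N hd ub)

include C

/-- **The multiplicity at a real place is half of the rank**, for components of all classes. -/
theorem hd_fix (b : Fin m) {c : Ω ≃+* Ω}
    (hlink : Linked D ((e (bar b)).map j) ((e b).map (c.toRingHom.comp j))) {r : Ω} (hr : r ∈ R)
    (hcr : c r = r) : 2 * hd b r = (e b).rank := by
  classical
  obtain ⟨a, ha, hroot⟩ := C.enum b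
  obtain ⟨i, hi⟩ := C.w9_i b hr
  obtain ⟨hn, ε, c₀, hε, -, hε1, -, hcnt⟩ := C.w9_HT b ha hroot i
  have hhd := C.hdg b i r hr hi
  obtain ⟨π, -, hπ⟩ := C.dual_linked b ha hroot hlink
  have h1 := hπ i ε hε
  have hi' : v ((i.comp c.symm.toRingHom) r) = 1 := by
    show v (i (c.symm r)) = 1
    have h2 : c.symm r = r := by rw [RingEquiv.symm_apply_eq, hcr]
    rw [h2, hi]
  have hhd' := C.hdg b (i.comp c.symm.toRingHom) r hr hi'
  obtain ⟨H₀, U, V, -, hL, -⟩ := C.locp b ha hroot (i.comp c.symm.toRingHom)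
  have h2 := H45U.HT_rank hL C.crys.mu C.crys.muphi h1
  have h3 := card_neg hε1 π.symm
  rw [hcnt] at hhd
  rw [hhd'] at h2
  rw [← h2, hhd] at h3
  omega


end Pool.Agent.H86L
end

-- from Lib.H86L.O2
section

/-!
# O2: components with a symmetric form of rank `2 ^ k`, one class of Hodge-Tate cocharacters
-/

set_option autoImplicit false
set_option linter.unusedSectionVars false
namespace Pool.Agent.H86L
open Module Matrix Polynomial Pool.Agent.H53Toric Pool.Agent.H76P Pool.Agent.H76Q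
open Pool.Agent.H76Y (LcN TM CmpN)
open Pool.Agent.H76Z (Cl OrL Splits)
open Pool.Agent.H45U (Core5 LocU)
open Pool.Agent.H45Q (Gen1 od od_self od_odd sp_odd fam_one)
open Pool.Agent.H76T (IsIdeal Fam)
open Pool.Agent.H76U (cmp preL IsSplitting)

section
variable {κ : Type*} {K : Type*} [Field K] [CharZero K] [Fintype κ] [DecidableEq κ]
  {L : Submodule K (Module.End K (κ → K))} {J : Matrix κ κ K} [IsAlgClosed K] [Nonempty κ]
  {Y : Submodule ℚ (κ → ℚ)}

/-- If all odd functions are diagonal elements, there is an element of small rank. -/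
theorem smallN (h : CmpN L) {bar : Equiv.Perm κ} (hbb : ∀ k, bar (bar k) = k) (hbne : ∀ k, bar k ≠ k)
    (hodd : ∀ f : κ → ℚ, (∀ k, f (bar k) = -f k) → dq f ∈ L) (hn : 3 ≤ Fintype.card κ) :
    ∃ N ∈ L, N * N = 0 ∧ N ≠ 0 ∧ finrank K (LinearMap.range N) ≤ 2 := by
  classical
  obtain ⟨k₀⟩ := ‹Nonempty κ›
  -- a nonzero entry outside the plane of `k₀`
  obtain ⟨X, hX, k, l, hk1, hk2, hlS, hXkl⟩ : ∃ X ∈ L, ∃ k l, k ≠ k₀ ∧ k ≠ bar k₀ ∧ (l = k₀ ∨ l = bar k₀) ∧
      LinearMap.toMatrix' X k l ≠ 0 := by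
    by_contra hcon
    push Not at hcon
    let W : Submodule K (κ → K) :=
      { carrier := {v | ∀ a, a ≠ k₀ → a ≠ bar k₀ → v a = 0}
        add_mem' := fun {u v} hu hv a h1 h2 => by
          rw [Pi.add_apply, hu a h1 h2, hv a h1 h2, add_zero]
        zero_mem' := fun a _ _ => rfl
        smul_mem' := fun c v hv a h1 h2 => by rw [Pi.smul_apply, hv a h1 h2, smul_zero] }
    have hW : W = ⊥ ∨ W = ⊤ := by
      refine h.irr W fun X hX w hw a h1 h2 => ?_
      have h3 : X w a = ∑ b, LinearMap.toMatrix' X a b * w b := by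
        have h4 : X w = LinearMap.toMatrix' X *ᵥ w := by
          rw [← Matrix.toLin'_apply, Matrix.toLin'_toMatrix']
        rw [h4]
        rfl
      rw [h3]
      refine Finset.sum_eq_zero fun b _ => ?_
      by_cases hb : b = k₀ ∨ b = bar k₀
      · rw [hcon X hX a b h1 h2 hb, zero_mul]
      · push Not at hb
        rw [hw b hb.1 hb.2, mul_zero]
    rcases hW with hW | hW
    · have h1 : (Pi.single k₀ 1 : κ → K) ∈ W := by
        intro a ha _
        rw [Pi.single_eq_of_ne ha]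
      rw [hW, Submodule.mem_bot] at h1
      have h2 := congrFun h1 k₀
      rw [Pi.single_eq_same] at h2
      exact one_ne_zero h2
    · obtain ⟨a, ha1, ha2⟩ : ∃ a, a ≠ k₀ ∧ a ≠ bar k₀ := by
        by_contra hcon
        push Not at hcon
        have h1 : Fintype.card κ ≤ ({k₀, bar k₀} : Finset κ).card := by
          rw [← Finset.card_univ]
          refine Finset.card_le_card fun a _ => ?_
          rw [Finset.mem_insert, Finset.mem_singleton]
          by_cases h2 : a = k₀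
          · exact Or.inl h2
          · exact Or.inr (hcon a h2)
        have h2 := Finset.card_le_two (a := k₀) (b := bar k₀)
        omega
      have h1 : (Pi.single a 1 : κ → K) ∈ W := by rw [hW]; exact Submodule.mem_top
      have h2 := h1 a ha1 ha2
      rw [Pi.single_eq_same] at h2
      exact one_ne_zero h2
  have hlk : l ≠ k := by
    rintro rfl
    rcases hlS with h1 | h1
    · exact hk1 h1
    · exact hk2 h1
  have hlbk : l ≠ bar k := by
    intro h1
    rcases hlS with h2 | h2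
    · apply hk2
      rw [← h2, h1, hbb]
    · apply hk1
      have h3 : bar k = bar k₀ := by rw [← h1, h2]
      exact bar.injective h3
  -- the two diagonal elements
  let F : κ → κ → ℚ := fun x a => if a = x then 1 else if a = bar x then -1 else 0
  have hF : ∀ x, dq (F x) ∈ L := by
    intro x
    refine hodd _ fun a => ?_
    show (if bar a = x then (1 : ℚ) else if bar a = bar x then -1 else 0) =
      -(if a = x then (1 : ℚ) else if a = bar x then -1 else 0)
    by_cases h1 : a = x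
    · rw [h1, if_neg (hbne x), if_pos rfl, if_pos rfl]
    · by_cases h2 : a = bar x
      · rw [h2, hbb, if_pos rfl, if_neg (hbne x), if_pos rfl, neg_neg]
      · have h3 : bar a ≠ x := by
          intro h4
          apply h2
          rw [← h4, hbb]
        have h4 : bar a ≠ bar x := fun h5 => h1 (bar.injective h5)
        rw [if_neg h3, if_neg h4, if_neg h1, if_neg h2, neg_zero]
  have hFv : ∀ x a, F x a = 1 ∨ F x a = -1 ∨ F x a = 0 := by
    intro x a
    show (if a = x then (1 : ℚ) else if a = bar x then -1 else 0) = 1 ∨ _ ∨ _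
    by_cases h1 : a = x
    · left; rw [if_pos h1]
    · by_cases h2 : a = bar x
      · right; left
        show (if a = x then (1 : ℚ) else if a = bar x then -1 else 0) = -1
        rw [if_neg h1, if_pos h2]
      · right; right
        show (if a = x then (1 : ℚ) else if a = bar x then -1 else 0) = 0
        rw [if_neg h1, if_neg h2]
  have hF1 : ∀ x a, F x a = 1 → a = x := by
    intro x a h1
    by_contra h2
    have h3 : F x a = if a = bar x then -1 else 0 := if_neg h2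
    rw [h3] at h1
    split_ifs at h1 <;> norm_num at h1
  have hFm : ∀ x a, F x a = -1 → a = bar x := by
    intro x a h1
    by_contra h2
    have h3 : F x a = if a = x then 1 else 0 := by
      show (if a = x then (1 : ℚ) else if a = bar x then -1 else 0) = _
      rw [if_neg h2]
    rw [h3] at h1
    split_ifs at h1 <;> norm_num at h1
  -- the polynomials
  let p : Polynomial K := Polynomial.C (-(1 / 6 : K)) * ((Polynomial.X + Polynomial.C 2) * (Polynomial.X + Polynomial.C 1) *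
    Polynomial.X * (Polynomial.X - Polynomial.C 2))
  let p' : Polynomial K := Polynomial.C ((1 / 6 : K)) * ((Polynomial.X - Polynomial.C 2) * (Polynomial.X - Polynomial.C 1) *
    Polynomial.X * (Polynomial.X + Polynomial.C 2))
  have hp : ∀ t : K, p.eval t = -(1 / 6) * ((t + 2) * (t + 1) * t * (t - 2)) := by
    intro t
    show Polynomial.eval t (Polynomial.C (-(1 / 6 : K)) * ((Polynomial.X + Polynomial.C 2) * (Polynomial.X + Polynomial.C 1) *
      Polynomial.X * (Polynomial.X - Polynomial.C 2))) = _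
    simp only [Polynomial.eval_mul, Polynomial.eval_C, Polynomial.eval_add, Polynomial.eval_sub, Polynomial.eval_X]
  have hp' : ∀ t : K, p'.eval t = (1 / 6) * ((t - 2) * (t - 1) * t * (t + 2)) := by
    intro t
    show Polynomial.eval t (Polynomial.C ((1 / 6 : K)) * ((Polynomial.X - Polynomial.C 2) * (Polynomial.X - Polynomial.C 1) *
      Polynomial.X * (Polynomial.X + Polynomial.C 2))) = _
    simp only [Polynomial.eval_mul, Polynomial.eval_C, Polynomial.eval_add, Polynomial.eval_sub, Polynomial.eval_X]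
  obtain ⟨Z, hZ, hZe⟩ := Pool.Agent.H86K.poly_diag h.lie (f := fun a => (F k a : K)) (hF k) p X hX
  obtain ⟨N, hN, hNe⟩ := Pool.Agent.H86K.poly_diag h.lie (f := fun a => (F l a : K)) (hF l) p' Z hZ
  have hpv : ∀ a b, p.eval ((F k a : K) - (F k b : K)) ≠ 0 → F k a - F k b = 1 := by
    intro a b h1
    rw [hp] at h1
    rcases hFv k a with e1 | e1 | e1 <;> rcases hFv k b with e2 | e2 | e2 <;> rw [e1, e2] at h1 ⊢ <;>
      first
        | (exfalso; norm_num at h1; done)
        | (norm_num; done)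
  have hpv' : ∀ a b, p'.eval ((F l a : K) - (F l b : K)) ≠ 0 → F l a - F l b = -1 := by
    intro a b h1
    rw [hp'] at h1
    rcases hFv l a with e1 | e1 | e1 <;> rcases hFv l b with e2 | e2 | e2 <;> rw [e1, e2] at h1 ⊢ <;>
      first
        | (exfalso; norm_num at h1; done)
        | (norm_num; done)
  -- the entries
  have hentry : ∀ a b, LinearMap.toMatrix' N a b ≠ 0 → (a = k ∧ b = l) ∨ (a = bar l ∧ b = bar k) := by
    intro a b hab
    rw [hNe, hZe] at hab
    have h1 := left_ne_zero_of_mul hab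
    have h2 := left_ne_zero_of_mul (right_ne_zero_of_mul hab)
    have h3 := hpv a b h2
    have h4 := hpv' a b h1
    rcases hFv k a with e1 | e1 | e1
    · left
      have ha := hF1 k a e1
      refine ⟨ha, ?_⟩
      rcases hFv l b with e2 | e2 | e2
      · exact hF1 l b e2
      · exfalso
        rw [e2] at h4
        rcases hFv l a with e3 | e3 | e3 <;> rw [e3] at h4 <;> norm_num at h4
      · exfalso
        rw [e2] at h4
        have e3 : F l a = -1 := by linarith
        have h5 := hFm l a e3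
        rw [ha] at h5
        apply hlbk
        rw [h5, hbb]
    · exfalso
      rw [e1] at h3
      rcases hFv k b with e3 | e3 | e3 <;> rw [e3] at h3 <;> norm_num at h3
    · right
      rw [e1] at h3
      have e2 : F k b = -1 := by linarith
      have hb := hFm k b e2
      refine ⟨?_, hb⟩
      rcases hFv l a with e3 | e3 | e3
      · exfalso
        rw [e3] at h4
        rcases hFv l b with e4 | e4 | e4 <;> rw [e4] at h4 <;> norm_num at h4
      · exact hFm l a e3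
      · exfalso
        rw [e3] at h4
        have e4 : F l b = 1 := by linarith
        have h5 := hF1 l b e4
        apply hlbk
        rw [← h5, hb]
  have hNkl : LinearMap.toMatrix' N k l ≠ 0 := by
    have e1 : F k k = 1 := if_pos rfl
    have e2 : F k l = 0 := by
      show (if l = k then (1 : ℚ) else if l = bar k then -1 else 0) = 0
      rw [if_neg hlk, if_neg hlbk]
    have e3 : F l l = 1 := if_pos rfl
    have e4 : F l k = 0 := by
      show (if k = l then (1 : ℚ) else if k = bar l then -1 else 0) = 0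
      have : k ≠ bar l := by
        intro h5
        apply hlbk
        rw [h5, hbb]
      rw [if_neg (Ne.symm hlk), if_neg this]
    rw [hNe, hZe, hp, hp', e1, e2, e3, e4]
    norm_num
    exact hXkl
  have hbl : bar l ≠ l := hbne l
  refine ⟨N, hN, ?_, ?_, ?_⟩
  · apply LinearMap.toMatrix'.injective
    rw [LinearMap.toMatrix'_mul, map_zero]
    ext a b
    rw [Matrix.mul_apply, Matrix.zero_apply]
    refine Finset.sum_eq_zero fun c _ => ?_
    by_contra h1
    rcases hentry a c (left_ne_zero_of_mul h1) with ⟨-, h2⟩ | ⟨-, h2⟩ <;>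
      rcases hentry c b (right_ne_zero_of_mul h1) with ⟨h3, -⟩ | ⟨h3, -⟩
    · exact hlk (h2.symm.trans h3)
    · exact hbl (h3.symm.trans h2)
    · exact hbne k (h2.symm.trans h3)
    · exact hlk (bar.injective (h3.symm.trans h2))
  · intro h0
    rw [h0, map_zero] at hNkl
    exact hNkl rfl
  · have h1 : LinearMap.range N ≤ Submodule.span K (({Pi.single k 1, Pi.single (bar l) 1} : Finset (κ → K)) : Set (κ → K)) := by
      rintro _ ⟨v, rfl⟩
      have h2 : N v = (N v k) • Pi.single k 1 + (N v (bar l)) • Pi.single (bar l) 1 := by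
        ext a
        rw [Pi.add_apply, Pi.smul_apply, Pi.smul_apply, smul_eq_mul, smul_eq_mul]
        have h3 : ∀ a, N v a = ∑ b, LinearMap.toMatrix' N a b * v b := by
          intro a
          have h4 : N v = LinearMap.toMatrix' N *ᵥ v := by
            rw [← Matrix.toLin'_apply, Matrix.toLin'_toMatrix']
          rw [h4]
          rfl
        have hkbl : k ≠ bar l := by
          intro h5
          apply hlbk
          rw [h5, hbb]
        by_cases ha : a = k
        · rw [ha, Pi.single_eq_same, Pi.single_eq_of_ne hkbl, mul_one, mul_zero, add_zero]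
        · by_cases ha' : a = bar l
          · rw [ha', Pi.single_eq_same, Pi.single_eq_of_ne (Ne.symm hkbl), mul_one, mul_zero, zero_add]
          · rw [Pi.single_eq_of_ne ha, Pi.single_eq_of_ne ha', mul_zero, mul_zero, add_zero, h3]
            refine Finset.sum_eq_zero fun b _ => ?_
            by_contra h5
            rcases hentry a b (left_ne_zero_of_mul h5) with ⟨h6, -⟩ | ⟨h6, -⟩
            · exact ha h6
            · exact ha' h6
      rw [h2]
      refine Submodule.add_mem _ (Submodule.smul_mem _ _ (Submodule.subset_span ?_))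
        (Submodule.smul_mem _ _ (Submodule.subset_span ?_))
      · simp
      · simp
    calc finrank K (LinearMap.range N) ≤ finrank K (Submodule.span K
          (({Pi.single k 1, Pi.single (bar l) 1} : Finset (κ → K)) : Set (κ → K))) := Submodule.finrank_mono h1
      _ ≤ ({Pi.single k 1, Pi.single (bar l) 1} : Finset (κ → K)).card := finrank_span_finset_le_card _
      _ ≤ 2 := Finset.card_le_two

/-- All odd functions are in the configuration: a component with a symmetric form is full. -/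
theorem full_oddO (h : TM L) (hJ : Jᵀ = J) (hdet : IsUnit J.det) (hsk : ∀ X ∈ L, adjE J X = -X)
    (hY : Yo L = Y) {bar : Equiv.Perm κ} (hbb : ∀ k, bar (bar k) = k) (hbne : ∀ k, bar k ≠ k)
    (hodd : ∀ f : κ → ℚ, (∀ k, f (bar k) = -f k) → f ∈ Y) (hsk' : ∀ f ∈ Y, ∀ k, f (bar k) = -f k)
    (hn : 4 < Fintype.card κ) (h8 : Fintype.card κ ≠ 8)
    {X : Module.End K (κ → K)} (hX : adjE J X = -X) : X ∈ L := by
  classical
  subst hY
  obtain ⟨m, I, hF⟩ := Pool.Agent.H76T.exists_fam h.cmp.lie h.cmp.irr h.cmp.tr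
  rcases Nat.lt_or_ge m 2 with hm | hm
  · interval_cases m
    · exfalso
      have hL : L = ⊥ := by
        rw [← hF.sup]
        exact iSup_of_empty _
      have h2 : ∀ y ∈ L, y * y = 1 → False := by
        intro y hy hy2
        rw [hL, Submodule.mem_bot] at hy
        rw [hy, mul_zero] at hy2
        exact zero_ne_one hy2
      obtain ⟨k⟩ := ‹Nonempty κ›
      have h3 : (dq (od bar k) : Module.End K (κ → K)) ∈ L := Yo_mem (hodd _ (od_odd hbb hbne k))
      rw [hL, Submodule.mem_bot] at h3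
      have h4 := congrFun (congrArg (fun T : Module.End K (κ → K) => T fun _ => 1) h3) k
      unfold dq at h4
      simp only [dg_apply, LinearMap.zero_apply, Pi.zero_apply, mul_one] at h4
      rw [od_self] at h4
      norm_num at h4
    · rcases CmpN.simpleO h.cmp hF hJ hdet hsk with h2 | ⟨n, hn3, -, hn2, hn4⟩ | ⟨k, hk, hk2, hk3, hk4⟩
      · exact h2 X hX
      · exfalso
        obtain ⟨N, hN, hN2, hN0, hr⟩ := smallN h.cmp hbb hbne (fun f hf => Yo_mem (hodd f hf)) (by omega)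
        have h16 : 4 ≤ n := by
          by_contra hcon
          have h9 : n = 3 := by omega
          rw [h9] at hn2
          exact h8 hn2
        have h5 : 2 ^ 4 ≤ 2 ^ n := Nat.pow_le_pow_right (by norm_num) h16
        have h7 := hn4 N hN hN2 hN0
        omega
      · exfalso
        have h5 : 6 ≤ (k - 1).centralBinom := by
          have h6 : Nat.centralBinom 2 ≤ (k - 1).centralBinom := Nat.centralBinom_strictMono.monotone (by omega)
          have h7 : Nat.centralBinom 2 = 6 := by decide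
          omega
        obtain ⟨N, hN, hN2, hN0, hr⟩ := smallN h.cmp hbb hbne (fun f hf => Yo_mem (hodd f hf)) (by omega)
        have h7 := hk4 N hN hN2 hN0
        omega
  · exfalso
    have hij : (⟨0, by omega⟩ : Fin m) ≠ ⟨1, by omega⟩ := by
      intro e
      exact absurd (congrArg Fin.val e) (by norm_num)
    obtain ⟨i, hi⟩ : ∃ i : Fin m, i = ⟨0, by omega⟩ := ⟨_, rfl⟩
    obtain ⟨j, hj⟩ : ∃ j : Fin m, j = ⟨1, by omega⟩ := ⟨_, rfl⟩
    rw [← hi, ← hj] at hij
    obtain ⟨P, hP1, hP2, hP3, hPS⟩ := H76Y.exists_proj h.cmp hF i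
    have hSp : Sp P := Sp_iff.2 hPS
    obtain ⟨f, hf, hf0, hfi⟩ := h.exists_diag hF i
    obtain ⟨f', hf', hf0', hfi'⟩ := h.exists_diag hF j
    rcases sp_odd hbb hbne hodd hsk' hn hSp with h3 | h3
    · have h4 := hP2 ⟨f, hf⟩ hfi
      rw [h3, LinearMap.zero_apply] at h4
      exact hf0 (congrArg Subtype.val h4).symm
    · have h4 := hP3 j (Ne.symm hij) ⟨f', hf'⟩ hfi'
      rw [h3, Module.End.one_apply] at h4
      exact hf0' (congrArg Subtype.val h4)

/-- The configuration of the whole orthogonal algebra of even dimension is the space of all odd functions. -/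
theorem exists_oddO (h : TM L) (hJ : Jᵀ = J) (hdet : IsUnit J.det) (hsk : ∀ X ∈ L, adjE J X = -X)
    (hev : Even (Fintype.card κ)) (hfull : ∀ X : Module.End K (κ → K), adjE J X = -X → X ∈ L) :
    ∃ bar : Equiv.Perm κ, (∀ k, bar (bar k) = k) ∧ (∀ k, bar k ≠ k) ∧
      (∀ f : κ → ℚ, (∀ k, f (bar k) = -f k) → f ∈ Yo L) ∧ ∀ f ∈ Yo L, ∀ k, f (bar k) = -f k := by
  classical
  have hex : ∀ k, ∃ l, J k l ≠ 0 := by
    intro k
    by_contra hcon
    push Not at hcon
    have h3 := hdet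
    rw [Matrix.det_eq_zero_of_row_eq_zero k hcon] at h3
    exact not_isUnit_zero h3
  choose b hb using hex
  have hdq : ∀ f : κ → ℚ, (dq f : Module.End K (κ → K)) = phi (Matrix.diagonal fun a => (f a : K)) := by
    intro f
    refine LinearMap.ext fun v => funext fun a => ?_
    rw [phi_apply, Matrix.mulVec_diagonal]
    exact dg_apply _ _ _
  have hopp : ∀ k l, J k l ≠ 0 → ∀ f ∈ Yo L, f l = -f k := by
    intro k l hkl f hf
    have h1 := hsk _ (Yo_mem hf)
    rw [hdq, skew_iff hdet] at h1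
    have h3 := congrFun (congrFun h1 k) l
    rw [Matrix.add_apply, Matrix.diagonal_transpose, Matrix.diagonal_mul, Matrix.mul_diagonal,
      Matrix.zero_apply] at h3
    have h4 : ((f k : K) + (f l : K)) * J k l = 0 := by rw [← h3]; ring
    have h5 := (mul_eq_zero.1 h4).resolve_right hkl
    have h6 : f k + f l = 0 := by exact_mod_cast h5
    linarith
  have huniq : ∀ k l l', J k l ≠ 0 → J k l' ≠ 0 → l = l' := by
    intro k l l' h1 h2
    by_contra hne
    obtain ⟨f, hf, hf2⟩ := h.sep l l' hne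
    exact hf2 (by rw [hopp k l h1 f hf, hopp k l' h2 f hf])
  have hsym : ∀ k l, J k l ≠ 0 → J l k ≠ 0 := by
    intro k l hkl h0
    have h1 := congrFun (congrFun hJ k) l
    rw [Matrix.transpose_apply, h0] at h1
    exact hkl h1.symm
  have hbb : ∀ k, b (b k) = k := fun k => huniq (b k) _ _ (hb (b k)) (hsym _ _ (hb k))
  have hfix1 : ∀ k l, b k = k → b l = l → k = l := by
    intro k l hk hl
    by_contra hne
    obtain ⟨f, hf, hf2⟩ := h.sep k l hne
    have h1 := hopp k (b k) (hb k) f hf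
    have h2 := hopp l (b l) (hb l) f hf
    rw [hk] at h1
    rw [hl] at h2
    exact hf2 (by linarith)
  have hfix : ∀ k, b k ≠ k := by
    intro k hk
    have h1 := Equiv.Perm.card_fixedPoints_modEq (α := κ) (f := b) (p := 2) (n := 1) (by
      rw [pow_one, pow_two]
      exact funext hbb)
    have h2 : Fintype.card (Function.fixedPoints b) = 1 := by
      rw [Fintype.card_eq_one_iff]
      exact ⟨⟨k, hk⟩, fun y => Subtype.ext (hfix1 _ _ y.2 hk)⟩
    rw [h2] at h1
    obtain ⟨c, hc⟩ := hev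
    unfold Nat.ModEq at h1
    omega
  refine ⟨⟨b, b, hbb, hbb⟩, hbb, hfix, fun f hf => ?_, fun f hf k => hopp k (b k) (hb k) f hf⟩
  refine h.diag f (hfull _ ?_)
  rw [hdq, skew_iff hdet, Matrix.diagonal_transpose]
  ext x y
  rw [Matrix.add_apply, Matrix.diagonal_mul, Matrix.mul_diagonal, Matrix.zero_apply]
  by_cases hxy : J x y = 0
  · rw [hxy, mul_zero, zero_mul, add_zero]
  · have h1 : y = b x := huniq x y (b x) hxy (hb x)
    have h2 : f y = -f x := by rw [h1]; exact hf x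
    rw [h2]
    push_cast
    ring

end

section
variable {ι : Type*} [Fintype ι] [DecidableEq ι] {ψ : Matrix ι ι ℚ}
    {D : Subalgebra ℚ (Matrix ι ι ℚ)} {M : Type*} [Field M] [NumberField M]
    {m : ℕ} {cl : Fin m → Cl} {bar : Fin m → Fin m} {e : Fin m → Matrix ι ι M} {u₀ : Matrix ι ι M} {G : Type*} [Group G]
    {ρ : ∀ (l : ℕ) [Fact l.Prime], G →* Matrix.GeneralLinearGroup ι ℚ_[l]}
    {p : ℕ} [Fact p.Prime] {σ : G} {q : ℚ} {F : Fin m → M[X]}
    {φ μ ν : Matrix ι ι (AlgebraicClosure ℚ_[p])} {v : AlgebraicClosure ℚ_[p] → ℚ}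
    {Δ : Set (AlgebraicClosure ℚ_[p] ≃+* AlgebraicClosure ℚ_[p])}
    {Ω : Type*} [Field Ω] [CharZero Ω] [IsAlgClosed Ω] [Algebra.IsAlgebraic ℚ Ω] {j : M →+* Ω}
    {R : Finset Ω} {N : Set ℕ} {hd : Fin m → Ω → ℕ} {ub : Fin m → Prop}
    (C : Core5 ψ D cl bar e u₀ ρ p σ q F φ μ ν v Δ j R N hd ub)

include C

/-- **One class: at one prime a component with a symmetric form is simple.** -/
theorem simple5O (hg : Gen1 ρ) (b : Fin m) (hb : cl b = .o) {n : ℕ} {a : Fin n → Ω} (ha : Function.Injective a)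
    (hroot : ∀ y : Ω, (F b).eval₂ j y = 0 ↔ ∃ k, y = a k) :
    ∃ (l : ℕ) (_ : Fact l.Prime) (L : Submodule (AlgebraicClosure ℚ_[l])
        (Module.End (AlgebraicClosure ℚ_[l]) (Fin n → AlgebraicClosure ℚ_[l]))),
      0 < n ∧ H76Y.TM L ∧ OrL L ∧ H76P.Yo L = YS a ∧
      ∃ I : Fin 1 → Submodule (AlgebraicClosure ℚ_[l]) (Module.End (AlgebraicClosure ℚ_[l]) (Fin n → AlgebraicClosure ℚ_[l])),
        Fam L I := by
  obtain ⟨l, hl, h, hh, hgen⟩ := hg
  let i : Ω →+* AlgebraicClosure ℚ_[l] :=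
    (IsAlgClosed.lift (R := ℚ) (S := Ω) (M := AlgebraicClosure ℚ_[l])).toRingHom
  obtain ⟨H₀, U, V, x, -, hL, hcls⟩ := H76W.loc_any5 C b ha hroot l i
  have hor := hcls.2.1 hb
  have hT := (H45U.tm_iff (Or.inr hor)).1 hL.ts
  refine ⟨l, hl, _, hL.pos, hT, hor, (H45U.Yo_eq (Or.inr hor)).symm.trans hL.yo, ?_⟩
  have hspl := C.hspl.map (i.comp j)
  have hne : Nonempty (Fin n) := ⟨⟨0, hL.pos⟩⟩
  have hn := C.card b ha hroot
  obtain ⟨m', I, hF⟩ := Pool.Agent.H76T.exists_fam hT.cmp.lie hT.cmp.irr hT.cmp.tr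
  have h1 : m' = 1 := by
    refine fam_one (Gs := img (AlgebraicClosure ℚ_[l]) (ρ l) ⊤) hL.pos hL.UV hL.VU hT.cmp.irr hT.cmp.tr
      (fun k hk => ⟨(hL.par k hk).1, (hL.par k hk).2.1, H76W.par_one hL hk ?_⟩)
      (fun Z hZ => hspl.corner b Z (C.commt l ⊤ inferInstance Z hZ)) hh ?_ hF
    · rw [C.bal l k hk (i.comp j) b (by rw [hb]; decide), hn]
    · rintro _ ⟨g, -, rfl⟩
      exact hgen g
  subst h1
  exact ⟨I, hF⟩

/-- The components of rank `2 ^ k` with a symmetric form. -/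
theorem odd_two5O (hg : Gen1 ρ) (b : Fin m) (hb : cl b = .o) {n : ℕ} {a : Fin n → Ω} (ha : Function.Injective a)
    (hroot : ∀ y : Ω, (F b).eval₂ j y = 0 ↔ ∃ k, y = a k) {k : ℕ} (hk : n = 2 ^ k)
    (hk' : k % 4 = 1 ∨ k % 4 = 2) :
    ∃ bar' : Equiv.Perm (Fin n), (∀ k, bar' (bar' k) = k) ∧ (∀ k, bar' k ≠ k) ∧
      (∀ f : Fin n → ℚ, (∀ k, f (bar' k) = -f k) → f ∈ YS a) ∧ ∀ f ∈ YS a, ∀ k, f (bar' k) = -f k := by
  obtain ⟨l, hl, L, hn, hT, ⟨J, hJ, hdet, hsk⟩, hY, I, hF⟩ := simple5O C hg b hb ha hroot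
  have hne : Nonempty (Fin n) := ⟨⟨0, hn⟩⟩
  rw [← hY]
  refine exists_oddO hT hJ hdet hsk ?_ ?_
  · rw [Fintype.card_fin, hk]
    exact (Nat.even_pow.2 ⟨even_two, by omega⟩)
  rcases CmpN.simpleO hT.cmp hF hJ hdet hsk with h2 | ⟨n', hn', hn2', hn3', -⟩ | ⟨k', hk1, hk2, hk3, -⟩
  · exact h2
  · exfalso
    rw [Fintype.card_fin, hk] at hn3'
    have h3 : k = n' := Nat.pow_right_injective le_rfl hn3'
    omega
  · exfalso
    rw [Fintype.card_fin, hk] at hk3
    exact Pool.Agent.H49M.R3_binom_pow (by omega) hk3.symm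

/-- **The components of rank `2 ^ k`, `k ≡ 1, 2 mod 4`, with a symmetric form are full.** -/
theorem full_two5O (hg : Gen1 ρ) (b : Fin m) (hb : cl b = .o) {n : ℕ} {a : Fin n → Ω} (ha : Function.Injective a)
    (hroot : ∀ y : Ω, (F b).eval₂ j y = 0 ↔ ∃ k, y = a k) {k : ℕ} (hk3 : 3 ≤ k) (hk : n = 2 ^ k)
    (hk' : k % 4 = 1 ∨ k % 4 = 2) {K : Type} [Field K] [CharZero K] [IsAlgClosed K]
    {L : Submodule K (Module.End K (Fin n → K))} {J : Matrix (Fin n) (Fin n) K} (hT : H76Y.TM L) (hJ : Jᵀ = J)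
    (hdet : IsUnit J.det) (hsk : ∀ X ∈ L, adjE J X = -X)
    (hY : H76P.Yo L = YS a) {X : Module.End K (Fin n → K)} (hX : adjE J X = -X) : X ∈ L := by
  have hn : 0 < n := by rw [hk]; positivity
  have hne : Nonempty (Fin n) := ⟨⟨0, hn⟩⟩
  obtain ⟨bar', hbb, hbne, hodd, hsk'⟩ := odd_two5O C hg b hb ha hroot hk hk'
  have h5 : 2 ^ 5 ≤ 2 ^ k := Nat.pow_le_pow_right (by norm_num) (by omega)
  refine full_oddO hT hJ hdet hsk hY hbb hbne hodd hsk' ?_ ?_ hX <;> rw [Fintype.card_fin] <;> omega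

end

end Pool.Agent.H86L
end

-- from Lib.H86L.N5
section

/-!
# N5: the component theorem with a real place, fifth version
-/

set_option autoImplicit false
set_option linter.unusedSectionVars false
namespace Pool.Agent.H86L
open Module Matrix Polynomial Pool.Agent.H53Toric Pool.Agent.H76P Pool.Agent.H76Q Pool.Agent.H86K
open Pool.Agent.H76Y (LcN ThetaN SyL)
open Pool.Agent.H76Z (Cl LocN Splits OrL)
open Pool.Agent.H45U (Core5 LocU PartU Big)
open Pool.Agent.H45Q (Gen1)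
open Pool.Agent.H76T (IsIdeal Fam)
open Pool.Agent.H76U (cmp preL IsSplitting)
open Pool.Agent.H76RM (spanK similD)

/-- A balanced place makes the condition on binomial coefficients superfluous. -/
theorem bin_half {Ω : Type*} {R : Finset Ω} {h : Ω → ℕ} {n : ℕ} (hn : 0 < n) {r₀ : Ω} (hr₀ : r₀ ∈ R)
    (h0 : 2 * h r₀ = n) (h1 : ∃ r ∈ R, h r ≠ 0 ∧ h r ≠ n ∧ 2 * h r ≠ n) {N k : ℕ} (hk : 2 ≤ k)
    (hkN : k + 2 ≤ N) (hnk : n = N.choose k) :
    ∃ r ∈ R, h r ≠ 0 ∧ h r ≠ n ∧ h r ≠ (N - 1).choose k ∧ h r ≠ (N - 1).choose (k - 1) := by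
  obtain ⟨N', rfl⟩ : ∃ N', N = N' + 1 := ⟨N - 1, by omega⟩
  obtain ⟨k', rfl⟩ : ∃ k', k = k' + 1 := ⟨k - 1, by omega⟩
  rw [Nat.choose_succ_succ'] at hnk
  simp only [Nat.add_sub_cancel] at *
  by_cases h2 : h r₀ = N'.choose (k' + 1) ∨ h r₀ = N'.choose k'
  · obtain ⟨r₁, hr₁, h3, h4, h5⟩ := h1
    refine ⟨r₁, hr₁, h3, h4, ?_, ?_⟩ <;> omega
  · push Not at h2
    exact ⟨r₀, hr₀, by omega, by omega, h2.1, h2.2⟩

variable {ι : Type*} [Fintype ι] [DecidableEq ι] {ψ : Matrix ι ι ℚ}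
    {D : Subalgebra ℚ (Matrix ι ι ℚ)} {M : Type*} [Field M] [NumberField M]
    {m : ℕ} {cl : Fin m → Cl} {bar : Fin m → Fin m} {e : Fin m → Matrix ι ι M} {u₀ : Matrix ι ι M} {G : Type*} [Group G]
    {ρ : ∀ (l : ℕ) [Fact l.Prime], G →* Matrix.GeneralLinearGroup ι ℚ_[l]}
    {p : ℕ} [Fact p.Prime] {σ : G} {q : ℚ} {F : Fin m → M[X]}
    {φ μ ν : Matrix ι ι (AlgebraicClosure ℚ_[p])} {v : AlgebraicClosure ℚ_[p] → ℚ}
    {Δ : Set (AlgebraicClosure ℚ_[p] ≃+* AlgebraicClosure ℚ_[p])}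
    {Ω : Type} [Field Ω] [CharZero Ω] [IsAlgClosed Ω] [Algebra.IsAlgebraic ℚ Ω] {j : M →+* Ω}
    {R : Finset Ω} {N : Set ℕ} {hd : Fin m → Ω → ℕ} {ub : Fin m → Prop}
    (C : Core5 ψ D cl bar e u₀ ρ p σ q F φ μ ν v Δ j R N hd ub)

include C

/-- The component theorem with a real place, fifth version: if the rank of a component with a form is a central
binomial coefficient, there is a real place; for the components without a form there is a real place or the
condition on binomial coefficients; if the rank of a component with a form is a power of two, there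
is one class of Hodge-Tate cocharacters (`Gen1`).  (`Core5.comp` is the case in which these ranks are
excluded.) -/
theorem comp_real5 (part : ∀ b (k : ℕ) (c : Ω → Option (Fin k)) (A : Fin k → ℕ), 2 ≤ k →
      PartU D j (cl b = .s) (ub b) (e b) (e (bar b)) (F b) q R (hd b) c A → Big (cl b) (e b).rank A →
      (e b).rank ≠ ∏ x, A x)
    (two : ∀ b (k : ℕ), 3 ≤ k → (e b).rank = 2 ^ k →
      (cl b = .s → 4 ≤ k → Gen1 ρ ∧ ¬ (5 ≤ k ∧ (k % 4 = 1 ∨ k % 4 = 2))) ∧
      (cl b = .o → Gen1 ρ ∧ (k % 4 = 1 ∨ k % 4 = 2)))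
    (binom : ∀ b (k : ℕ), (cl b = .s → 3 ≤ k ∧ Odd k) → (cl b = .o → 4 ≤ k ∧ Even k) →
      cl b ≠ .n → (e b).rank = k.centralBinom →
        ∃ (c : Ω ≃+* Ω) (T₀ : Finset Ω) (N' : Set ℕ), Real3 D ρ σ q bar e F j c T₀ N')
    (twon : ∀ b, cl b = .n → (∀ r ∈ R, hd b r = 0 ∨ hd b r = (e b).rank ∨ 2 * hd b r = (e b).rank) →
      ∀ k : ℕ, 4 ≤ k → Even k → (e b).rank ≠ 2 ^ k)
    (bin : ∀ b, cl b = .n → (∃ r ∈ R, hd b r ≠ 0 ∧ hd b r ≠ (e b).rank ∧ 2 * hd b r ≠ (e b).rank) →
      (∀ N k : ℕ, 2 ≤ k → k + 2 ≤ N → (e b).rank = N.choose k →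
        ∃ r ∈ R, hd b r ≠ 0 ∧ hd b r ≠ (e b).rank ∧ hd b r ≠ (N - 1).choose k ∧
          hd b r ≠ (N - 1).choose (k - 1)) ∨
      ∃ (c : Ω ≃+* Ω) (r : Ω), r ∈ R ∧ c r = r ∧ Linked D ((e (bar b)).map j) ((e b).map (c.toRingHom.comp j)))
    (b : Fin m) :
    ∃ a : Fin (e b).rank → Ω, Function.Injective a ∧
      (∀ y : Ω, (F b).eval₂ j y = 0 ↔ ∃ k, y = a k) ∧
      ∀ (K : Type) [Field K] [CharZero K] [IsAlgClosed K]
        (L : Submodule K (Module.End K (Fin (e b).rank → K))), H25U.TM L → H25U.Yo L = YS a →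
        (cl b = .s → ∀ J : Matrix (Fin (e b).rank) (Fin (e b).rank) K, Jᵀ = -J → IsUnit J.det →
          (∀ X ∈ L, adjE J X = -X) → ∀ X, adjE J X = -X → X ∈ L) ∧
        (cl b = .o → ∀ J : Matrix (Fin (e b).rank) (Fin (e b).rank) K, Jᵀ = J → IsUnit J.det →
          (∀ X ∈ L, adjE J X = -X) → ∀ X, adjE J X = -X → X ∈ L) ∧
        (cl b = .n → ∀ X : Module.End K (Fin (e b).rank → K),
          LinearMap.trace K (Fin (e b).rank → K) X = 0 → X ∈ L) := by
  have hbin' : ∀ b, cl b = .n → (∃ r ∈ R, hd b r ≠ 0 ∧ hd b r ≠ (e b).rank ∧ 2 * hd b r ≠ (e b).rank) →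
      ∀ N k : ℕ, 2 ≤ k → k + 2 ≤ N → (e b).rank = N.choose k →
        ∃ r ∈ R, hd b r ≠ 0 ∧ hd b r ≠ (e b).rank ∧ hd b r ≠ (N - 1).choose k ∧
          hd b r ≠ (N - 1).choose (k - 1) := by
    intro b hb h1 N k hk hkN hnk
    rcases bin b hb h1 with h2 | ⟨c, r, hr, hcr, hlink⟩
    · exact h2 N k hk hkN hnk
    · exact bin_half (C.rank_pos b) hr (hd_fix C b hlink hr hcr) h1 hk hkN hnk
  obtain ⟨a, ha, hroot⟩ := C.enum b
  have hn := C.rank_pos b
  have ha0 := C.ne b hroot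
  have hsep : ∀ k l, k ≠ l → ∃ g ∈ YS a, g k ≠ g l :=
    YS_sep ha0 fun k l n hn h => ha (C.tor b ((hroot _).2 ⟨k, rfl⟩) ((hroot _).2 ⟨l, rfl⟩) hn h)
  have hs : ∀ g ∈ YS a, ∑ k, g k = 0 := fun g hg => hg.1
  obtain ⟨FF, hFF, horth, hsum, hperm, hone, hblock⟩ := H45U.exists_blocksU2 hn hs (cl b) fun h8 h9 =>
    absurd ((two b 3 le_rfl (by rw [h9]; norm_num)).2 h8).2 (by decide)
  have : Nonempty (Fin (e b).rank) := ⟨⟨0, hn⟩⟩
  have hF2 : FF.card ≤ 1 := by
    by_contra h5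
    obtain ⟨c, h7, h8⟩ := C.partd2 b ha hroot hn hFF horth hsum hperm FF.equivFin
    exact part b FF.card c _ (by omega) h7 (C.big_of b ha hroot hblock hFF (by omega) FF.equivFin) h8
  have hF0 : FF.card = 0 → (e b).rank = 1 := by
    intro h6
    have h7 := prod_nz hs hsep (fun P hP => (hFF P hP).1) horth hsum
    rw [Finset.card_eq_zero.1 h6, Finset.prod_empty, Fintype.card_fin] at h7
    exact h7
  have hB : cl b ≠ .n ∨ 1 < (e b).rank → IsBlock (1 : Module.End ℚ (YS a)) := by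
    intro h
    refine hone ?_
    by_contra h6
    have h7 : (e b).rank = 1 := hF0 (by omega)
    rcases h with h | h
    · have h8 := C.rank_even b h
      rw [h7] at h8
      exact absurd h8 (by decide)
    · omega
  refine ⟨a, ha, hroot, fun K _ _ _ L hT hY => ⟨fun hb J hJ hJd hsk X hX => ?_,
    fun hb J hJ hJd hsk X hX => ?_, fun hb X hX => ?_⟩⟩
  · have hsy : SyL L := ⟨J, hJ, hJd, hsk⟩
    have hT' := (H45U.tm_iff (Or.inl hsy)).1 hT
    have hY' : H76P.Yo L = YS a := (H45U.Yo_eq (Or.inl hsy)).symm.trans hY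
    have hTS : TS L J := ⟨⟨hT'.cmp.lie, hT'.cmp.irr, hJ, hJd, hsk, hT'.cmp.gen⟩, hT'.diag, hT'.sep⟩
    by_cases htwo : ∃ k : ℕ, 4 ≤ k ∧ (e b).rank = 2 ^ k
    · obtain ⟨k, hk4, hk⟩ := htwo
      obtain ⟨hg, hk'⟩ := (two b k (by omega) hk).1 hb hk4
      exact H76W.full_two5 C hg b hb ha hroot hk hk' hTS hY' hX
    by_cases hbin : ∃ k : ℕ, 3 ≤ k ∧ Odd k ∧ (e b).rank = k.centralBinom
    · obtain ⟨k, hk, hk2, hk3⟩ := hbin
      obtain ⟨c, T₀, N', hr⟩ := binom b k (fun _ => ⟨hk, hk2⟩) (fun h => by rw [hb] at h; cases h)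
        (by rw [hb]; decide) hk3
      exact core5_binomS C hr b (by rw [hb]; decide) ha hroot (hB (Or.inl (by rw [hb]; decide)))
        ⟨k, hk, hk3⟩ hTS hY' hX
    · refine full_of_one hTS hY' (hB (Or.inl (by rw [hb]; decide))) (fun k hk => ?_)
        (fun k hk hk2 h => hbin ⟨k, hk, hk2, ?_⟩) hX
      · rw [Fintype.card_fin]
        exact fun h => htwo ⟨k, hk, h⟩
      · rwa [Fintype.card_fin] at h
  · have hor : OrL L := ⟨J, hJ, hJd, hsk⟩
    have hT' := (H45U.tm_iff (Or.inr hor)).1 hT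
    have hY' : H76P.Yo L = YS a := (H45U.Yo_eq (Or.inr hor)).symm.trans hY
    by_cases htwo : ∃ k : ℕ, 3 ≤ k ∧ (e b).rank = 2 ^ k
    · obtain ⟨k, hk3, hk⟩ := htwo
      obtain ⟨hg, hk'⟩ := (two b k hk3 hk).2 hb
      exact full_two5O C hg b hb ha hroot hk3 hk hk' hT' hJ hJd hsk hY' hX
    by_cases hbin : ∃ k : ℕ, 4 ≤ k ∧ Even k ∧ (e b).rank = k.centralBinom
    · obtain ⟨k, hk, hk2, hk3⟩ := hbin
      obtain ⟨c, T₀, N', hr⟩ := binom b k (fun h => by rw [hb] at h; cases h) (fun _ => ⟨hk, hk2⟩)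
        (by rw [hb]; decide) hk3
      exact core5_binomO C hr b (by rw [hb]; decide) ha hroot (hB (Or.inl (by rw [hb]; decide)))
        ⟨k, by omega, hk3⟩ hT' hJ hJd hsk hY' hX
    · refine H76Y.full_of_oneO hT' hJ hJd hsk hY' (hB (Or.inl (by rw [hb]; decide))) (fun k hk => ?_)
        (fun k hk hk2 h => hbin ⟨k, hk, hk2, ?_⟩) hX
      · rw [Fintype.card_fin]
        exact fun h => htwo ⟨k, hk, h⟩
      · rwa [Fintype.card_fin] at h
  · by_cases h1 : (e b).rank = 1
    · have h2 : X = 0 := by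
        have h3 : Subsingleton (Fin (e b).rank) := by rw [h1]; infer_instance
        obtain ⟨k⟩ := ‹Nonempty (Fin (e b).rank)›
        have h4 : LinearMap.trace K (Fin (e b).rank → K) X = LinearMap.toMatrix' X k k := by
          rw [LinearMap.trace_eq_matrix_trace K (Pi.basisFun K _), LinearMap.toMatrix_eq_toMatrix',
            Matrix.trace, Fintype.sum_subsingleton _ k]
          rfl
        rw [h4] at hX
        apply LinearMap.toMatrix'.injective
        rw [map_zero]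
        ext x y
        rw [Subsingleton.elim x k, Subsingleton.elim y k, hX]
        rfl
      rw [h2]
      exact Submodule.zero_mem _
    · have h2 : 1 < (e b).rank := by omega
      exact H25U.full_of_Yo hT (fun f hf => by
        rw [hY]
        exact C.full_p b hb h2 (twon b hb) (hbin' b hb) ha hroot (hB (Or.inr h2)) hf) X hX

end Pool.Agent.H86L
end

-- from Lib.H86L.O4
section

/-!
# O4: components of rank four with a symmetric form
-/

set_option autoImplicit false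
set_option linter.unusedSectionVars false
namespace Pool.Agent.H86L
open Module Matrix Polynomial Pool.Agent.H53Toric Pool.Agent.H76P Pool.Agent.H76Q
open Pool.Agent.H76Y (LcN TM CmpN)
open Pool.Agent.H76Z (Cl OrL Splits)
open Pool.Agent.H45U (Core5 LocU GoodU PartU)
open Pool.Agent.H45Q (od od_self od_odd)
open Pool.Agent.H76T (IsIdeal Fam)
open Pool.Agent.H76U (cmp preL IsSplitting)

section
variable {κ : Type*} {K : Type*} [Field K] [CharZero K] [Fintype κ] [DecidableEq κ]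
  {L : Submodule K (Module.End K (κ → K))} {J : Matrix κ κ K}

theorem dq_phi' (f : κ → ℚ) : (dq f : Module.End K (κ → K)) = phi (Matrix.diagonal fun a => (f a : K)) := by
  refine LinearMap.ext fun v => funext fun a => ?_
  rw [phi_apply, Matrix.mulVec_diagonal]
  exact dg_apply _ _ _

theorem dq_eq_zero {f : κ → ℚ} (h : (dq f : Module.End K (κ → K)) = 0) : f = 0 := by
  funext k
  have h1 := congrFun (congrArg (fun T : Module.End K (κ → K) => T fun _ => 1) h) k
  unfold dq at h1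
  simp only [dg_apply, LinearMap.zero_apply, Pi.zero_apply, mul_one] at h1
  exact_mod_cast h1

/-- The orthogonal algebra in dimension four has an ideal which contains one of two diagonal elements. -/
theorem so4_ideal (hJ : Jᵀ = J) (hdet : IsUnit J.det) (hL : ∀ X : Module.End K (κ → K), X ∈ L ↔ adjE J X = -X)
    {bar : Equiv.Perm κ} (hbb : ∀ k, bar (bar k) = k) (hbne : ∀ k, bar k ≠ k)
    (hJb : ∀ k l, J k l ≠ 0 → l = bar k) {x y : κ} (hxy : y ≠ x) (hxy' : y ≠ bar x)
    (huniv : (Finset.univ : Finset κ) = {x, bar x, y, bar y}) :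
    ∃ I : Submodule K (Module.End K (κ → K)), IsIdeal L I ∧
      (∀ f : κ → ℚ, (dq f : Module.End K (κ → K)) ∈ L → (dq f ∈ I ↔ f x + f y = 0)) := by
  classical
  have hy'x : bar y ≠ x := fun h => hxy' (by rw [← h, hbb])
  have hy'x' : bar y ≠ bar x := fun h => hxy (bar.injective h)
  have hsum : ∀ f : κ → K, ∑ k, f k = f x + f (bar x) + f y + f (bar y) := by
    intro f
    rw [huniv, Finset.sum_insert, Finset.sum_insert, Finset.sum_insert, Finset.sum_singleton]
    · ring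
    · simp only [Finset.mem_singleton]
      exact (hbne y).symm
    · simp only [Finset.mem_insert, Finset.mem_singleton]
      push Not
      exact ⟨hxy'.symm, hy'x'.symm⟩
    · simp only [Finset.mem_insert, Finset.mem_singleton]
      push Not
      exact ⟨(hbne x).symm, hxy.symm, hy'x.symm⟩
  have hJ0 : ∀ k l, l ≠ bar k → J k l = 0 := fun k l h => by
    by_contra h1
    exact h (hJb k l h1)
  have hJn : ∀ k, J k (bar k) ≠ 0 := by
    intro k h0
    have h1 : ∀ l, J k l = 0 := by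
      intro l
      by_cases hl : l = bar k
      · rw [hl, h0]
      · exact hJ0 k l hl
    have h3 := hdet
    rw [Matrix.det_eq_zero_of_row_eq_zero k h1] at h3
    exact not_isUnit_zero h3
  have hJs : ∀ k l, J k l = J l k := fun k l => congrFun (congrFun hJ l) k |>.symm ▸ rfl
  -- the relations between the entries
  have hrel : ∀ A : Matrix κ κ K, phi A ∈ L → ∀ k l, J (bar l) l * A (bar l) k + J k (bar k) * A (bar k) l = 0 := by
    intro A hA k l
    rw [hL, skew_iff hdet] at hA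
    have h1 := congrFun (congrFun hA k) l
    rw [Matrix.add_apply, Matrix.zero_apply, Matrix.mul_apply, Matrix.mul_apply,
      Finset.sum_eq_single (bar l), Finset.sum_eq_single (bar k), Matrix.transpose_apply] at h1
    · rw [← h1]
      ring
    · intro m _ hm
      rw [hJ0 k m hm, zero_mul]
    · intro h; exact absurd (Finset.mem_univ _) h
    · intro m _ hm
      rw [hJ0 m l, mul_zero]
      intro h
      apply hm
      rw [h, hbb]
    · intro h; exact absurd (Finset.mem_univ _) h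
  have hbar0 : ∀ A : Matrix κ κ K, phi A ∈ L → ∀ k, A (bar k) k = 0 := by
    intro A hA k
    have h1 := hrel A hA k k
    rw [hJs (bar k) k] at h1
    have h2 : (2 : K) * (J k (bar k) * A (bar k) k) = 0 := by linear_combination h1
    exact ((mul_eq_zero.1 h2).resolve_left two_ne_zero |> mul_eq_zero.1).resolve_left (hJn k)
  have hbar0' : ∀ A : Matrix κ κ K, phi A ∈ L → ∀ k, A k (bar k) = 0 := by
    intro A hA k
    have h1 := hbar0 A hA (bar k)
    rwa [hbb] at h1
  have hdiag : ∀ A : Matrix κ κ K, phi A ∈ L → ∀ k, A (bar k) (bar k) = -A k k := by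
    intro A hA k
    have h1 := hrel A hA k (bar k)
    rw [hbb] at h1
    have h2 : J k (bar k) * (A k k + A (bar k) (bar k)) = 0 := by linear_combination h1
    have h3 := (mul_eq_zero.1 h2).resolve_left (hJn k)
    linear_combination h3
  have hoff : ∀ A : Matrix κ κ K, phi A ∈ L → A x (bar y) = 0 → A y (bar x) = 0 := by
    intro A hA h0
    have h1 := hrel A hA (bar x) (bar y)
    rw [hbb, hbb, h0, mul_zero, add_zero] at h1
    refine (mul_eq_zero.1 h1).resolve_left ?_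
    exact hJn y
  have hoff' : ∀ A : Matrix κ κ K, phi A ∈ L → A (bar x) y = 0 → A (bar y) x = 0 := by
    intro A hA h0
    have h1 := hrel A hA x y
    rw [h0, mul_zero, add_zero] at h1
    refine (mul_eq_zero.1 h1).resolve_left ?_
    rw [hJs]
    exact hJn y
  let I : Submodule K (Module.End K (κ → K)) :=
    { carrier := {X | X ∈ L ∧ (phi (ι := κ) (K := K)).symm X x (bar y) = 0 ∧
        (phi (ι := κ) (K := K)).symm X (bar x) y = 0 ∧
        (phi (ι := κ) (K := K)).symm X x x + (phi (ι := κ) (K := K)).symm X y y = 0}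
      add_mem' := by
        rintro X Z ⟨h1, h2, h3, h4⟩ ⟨h1', h2', h3', h4'⟩
        refine ⟨L.add_mem h1 h1', ?_, ?_, ?_⟩ <;> rw [map_add] <;> simp only [Matrix.add_apply]
        · rw [h2, h2', add_zero]
        · rw [h3, h3', add_zero]
        · linear_combination h4 + h4'
      zero_mem' := by
        refine ⟨L.zero_mem, ?_, ?_, ?_⟩ <;> rw [map_zero] <;> simp
      smul_mem' := by
        rintro c X ⟨h1, h2, h3, h4⟩
        refine ⟨L.smul_mem c h1, ?_, ?_, ?_⟩ <;> rw [map_smul] <;> simp only [Matrix.smul_apply, smul_eq_mul]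
        · rw [h2, mul_zero]
        · rw [h3, mul_zero]
        · linear_combination c * h4 }
  have hI : ∀ X, X ∈ I ↔ X ∈ L ∧ (phi (ι := κ) (K := K)).symm X x (bar y) = 0 ∧
        (phi (ι := κ) (K := K)).symm X (bar x) y = 0 ∧
        (phi (ι := κ) (K := K)).symm X x x + (phi (ι := κ) (K := K)).symm X y y = 0 := fun X => Iff.rfl
  refine ⟨I, ⟨fun X hX => hX.1, fun Z hZ X hX => ?_⟩, fun f hf => ?_⟩
  · obtain ⟨hXL, h1, h2, h3⟩ := hX
    obtain ⟨A, rfl⟩ : ∃ A, X = phi A := ⟨phi.symm X, by simp⟩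
    obtain ⟨B, rfl⟩ : ∃ B, Z = phi B := ⟨phi.symm Z, by simp⟩
    rw [AlgEquiv.symm_apply_apply] at h1 h2 h3
    have hZX : phi B * phi A - phi A * phi B ∈ L := by
      rw [hL] at hXL hZ ⊢
      rw [← map_mul, ← map_mul, ← map_sub, skew_iff hdet] 
      rw [skew_iff hdet] at hXL hZ
      rw [Matrix.transpose_sub, Matrix.transpose_mul, Matrix.transpose_mul]
      have e1 : Aᵀ * J = -(J * A) := eq_neg_of_add_eq_zero_left hXL
      have e2 : Bᵀ * J = -(J * B) := eq_neg_of_add_eq_zero_left hZ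
      rw [Matrix.sub_mul, Matrix.mul_assoc, e2, Matrix.mul_assoc, e1, Matrix.mul_neg, Matrix.mul_neg,
        ← Matrix.mul_assoc, ← Matrix.mul_assoc, e1, e2]
      noncomm_ring
    have a1 := hbar0 A hXL
    have a1' := hbar0' A hXL
    have a2 := hdiag A hXL
    have a3 := hoff A hXL h1
    have a4 := hoff' A hXL h2
    have b1 := hbar0 B hZ
    have b1' := hbar0' B hZ
    have b2 := hdiag B hZ
    have hmat : (phi (ι := κ) (K := K)).symm (phi B * phi A - phi A * phi B) = B * A - A * B := by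
      rw [← map_mul, ← map_mul, ← map_sub, AlgEquiv.symm_apply_apply]
    refine ⟨hZX, ?_, ?_, ?_⟩ <;> rw [hmat] <;>
      simp only [Matrix.sub_apply, Matrix.mul_apply, hsum]
    · rw [h1, a1' x, a1' y, b1' x, b1' y, a2 y]
      linear_combination (-B x (bar y)) * h3
    · rw [h2, a1 x, a1 y, b1 x, b1 y, a2 x]
      linear_combination (B (bar x) y) * h3
    · rw [h1, h2, a1 x, a1' x, a1 y, a1' y, b1 x, b1' x, b1 y, b1' y, a3, a4]
      ring
  · rw [hI]
    rw [dq_phi', AlgEquiv.symm_apply_apply] 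
    simp only [Matrix.diagonal_apply_eq, Matrix.diagonal_apply_ne _ hy'x.symm, Matrix.diagonal_apply_ne _ hxy'.symm]
    constructor
    · rintro ⟨-, -, -, h⟩
      exact_mod_cast h
    · intro h
      refine ⟨by rw [← dq_phi']; exact hf, trivial, trivial, ?_⟩
      exact_mod_cast h

variable [IsAlgClosed K] [Nonempty κ] {m : ℕ} {I : Fin m → Submodule K (Module.End K (κ → K))}

/-- No simple ideal contains all diagonal elements. -/
theorem no_all (h : TM L) (hJ : Jᵀ = J) (hdet : IsUnit J.det) (hsk : ∀ X ∈ L, adjE J X = -X)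
    (h4 : Fintype.card κ = 4) (hF : Fam L I) (j : Fin m) : ∃ f ∈ Yo L, (dq f : Module.End K (κ → K)) ∉ I j := by
  classical
  by_contra hcon
  push Not at hcon
  have hm : m = 1 := by
    by_contra hne
    obtain ⟨i, hi⟩ : ∃ i : Fin m, i ≠ j := by
      have hm2 : 1 < Fintype.card (Fin m) := by
        rw [Fintype.card_fin]
        have := j.2
        omega
      exact Fintype.exists_ne_of_one_lt_card hm2 j
    obtain ⟨f, hf, hf0, hfi⟩ := h.exists_diag hF i
    have h1 := Pool.Agent.H76V.Fam.disj hF hi hfi (hcon f hf)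
    exact hf0 (dq_eq_zero h1)
  subst hm
  have hfull : ∀ X : Module.End K (κ → K), adjE J X = -X → X ∈ L := by
    rcases CmpN.simpleO h.cmp hF hJ hdet hsk with h2 | ⟨n, hn3, -, hn2, -⟩ | ⟨k, hk, -, hk3, -⟩
    · exact h2
    · exfalso
      have h5 : 2 ^ 3 ≤ 2 ^ n := Nat.pow_le_pow_right (by norm_num) hn3
      omega
    · exfalso
      have h6 : Nat.centralBinom 4 ≤ k.centralBinom := Nat.centralBinom_strictMono.monotone hk
      have h7 : Nat.centralBinom 4 = 70 := by decide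
      omega
  obtain ⟨bar, hbb, hbne, hodd, hsk'⟩ := exists_oddO h hJ hdet hsk (by rw [h4]; decide) hfull
  obtain ⟨x⟩ := ‹Nonempty κ›
  obtain ⟨y, hyx, hyx'⟩ : ∃ y, y ≠ x ∧ y ≠ bar x := by
    by_contra hc
    push Not at hc
    have h1 : (Finset.univ : Finset κ) ⊆ {x, bar x} := by
      intro z _
      rw [Finset.mem_insert, Finset.mem_singleton]
      by_cases hz : z = x
      · exact Or.inl hz
      · exact Or.inr (hc z hz)
    have h2 := Finset.card_le_card h1
    have h3 := Finset.card_le_two (a := x) (b := bar x)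
    rw [Finset.card_univ] at h2
    omega
  have huniv : (Finset.univ : Finset κ) = {x, bar x, y, bar y} := by
    refine (Finset.eq_of_subset_of_card_le (Finset.subset_univ _) ?_).symm
    rw [Finset.card_univ, h4]
    have hy'x : bar y ≠ x := fun h => hyx' (by rw [← h, hbb])
    have hy'x' : bar y ≠ bar x := fun h => hyx (bar.injective h)
    rw [Finset.card_insert_of_notMem, Finset.card_insert_of_notMem, Finset.card_insert_of_notMem,
      Finset.card_singleton]
    · simp only [Finset.mem_singleton]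
      exact (hbne y).symm
    · simp only [Finset.mem_insert, Finset.mem_singleton]
      push Not
      exact ⟨hyx'.symm, hy'x'.symm⟩
    · simp only [Finset.mem_insert, Finset.mem_singleton]
      push Not
      exact ⟨(hbne x).symm, hyx.symm, hy'x.symm⟩
  have hJb : ∀ k l, J k l ≠ 0 → l = bar k := by
    intro k l hkl
    by_contra hne
    obtain ⟨f, hf, hf2⟩ := h.sep l (bar k) hne
    apply hf2
    rw [hsk' f hf k]
    have h1 := hsk _ (Yo_mem hf)
    rw [dq_phi', skew_iff hdet] at h1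
    have h3 := congrFun (congrFun h1 k) l
    rw [Matrix.add_apply, Matrix.diagonal_transpose, Matrix.diagonal_mul, Matrix.mul_diagonal,
      Matrix.zero_apply] at h3
    have h4 : ((f k : K) + (f l : K)) * J k l = 0 := by rw [← h3]; ring
    have h5 := (mul_eq_zero.1 h4).resolve_right hkl
    have h6 : f k + f l = 0 := by exact_mod_cast h5
    linarith
  obtain ⟨I₀, hI₀, hI₀'⟩ := so4_ideal hJ hdet (L := L) (fun X => ⟨hsk X, hfull X⟩) hbb hbne hJb hyx hyx' huniv
  -- the two functions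
  have hy'x : x ≠ bar y := fun h => hyx' (by rw [h, hbb])
  have hox : od bar x y = 0 := by unfold od; rw [if_neg hyx, if_neg hyx']
  have hoy : od bar y x = 0 := by unfold od; rw [if_neg hyx.symm, if_neg hy'x]
  have hp : (fun k => od bar x k + od bar y k) ∈ Yo L := hodd _ fun k => by
    show od bar x (bar k) + od bar y (bar k) = -(od bar x k + od bar y k)
    rw [od_odd hbb hbne, od_odd hbb hbne]
    ring
  have hm' : (fun k => od bar x k - od bar y k) ∈ Yo L := hodd _ fun k => by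
    show od bar x (bar k) - od bar y (bar k) = -(od bar x k - od bar y k)
    rw [od_odd hbb hbne, od_odd hbb hbne]
    ring
  have h5 : (dq fun k => od bar x k - od bar y k : Module.End K (κ → K)) ∈ I₀ := by
    rw [hI₀' _ (Yo_mem hm')]
    show od bar x x - od bar y x + (od bar x y - od bar y y) = 0
    rw [hox, hoy, od_self, od_self]
    norm_num
  have h6 : (dq fun k => od bar x k + od bar y k : Module.End K (κ → K)) ∉ I₀ := by
    rw [hI₀' _ (Yo_mem hp)]
    show ¬ (od bar x x + od bar y x + (od bar x y + od bar y y) = 0)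
    rw [hox, hoy, od_self, od_self]
    norm_num
  have hid : IsIdeal L (I₀ ⊓ I j) :=
    ⟨inf_le_left.trans hI₀.1, fun Z hZ Y hY => ⟨hI₀.2 Z hZ Y hY.1, (hF.ideal j).2 Z hZ Y hY.2⟩⟩
  rcases hF.min j _ hid inf_le_right with h7 | h7
  · have h8 : (dq fun k => od bar x k - od bar y k : Module.End K (κ → K)) ∈ I₀ ⊓ I j := ⟨h5, hcon _ hm'⟩
    rw [h7, Submodule.mem_bot] at h8
    have h9 := congrFun (dq_eq_zero h8) x
    change od bar x x - od bar y x = 0 at h9
    rw [hoy, od_self] at h9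
    norm_num at h9
  · have h8 : (dq fun k => od bar x k + od bar y k : Module.End K (κ → K)) ∈ I₀ ⊓ I j := by
      rw [h7]
      exact hcon _ hp
    exact h6 h8.1

/-- An atom has at least two points. -/
theorem two_le_cnt {V : Type*} [AddCommGroup V] [Module ℚ V] {pt : κ → V} (hs : Spans pt)
    {q : Module.End ℚ V} (hq : q ≠ 0) : 2 ≤ cnt pt q := by
  classical
  by_contra hcon
  have h1 : (Finset.univ.image fun a => q (pt a)).card ≤ 1 := by
    unfold cnt at hcon
    omega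
  apply hq
  refine hs.ext fun a b => ?_
  rw [map_sub, LinearMap.zero_apply, sub_eq_zero]
  exact Finset.card_le_one.1 h1 _ (Finset.mem_image_of_mem _ (Finset.mem_univ b)) _
    (Finset.mem_image_of_mem _ (Finset.mem_univ a))

/-- The whole configuration is not an atom. -/
theorem four_split (h : TM L) (hJ : Jᵀ = J) (hdet : IsUnit J.det) (hsk : ∀ X ∈ L, adjE J X = -X)
    (h4 : Fintype.card κ = 4) : ¬ Atom (pt L) (1 : Module.End ℚ (Module.Dual ℚ (Yo L))) := by
  classical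
  intro hA
  obtain ⟨m, I, hF⟩ := Pool.Agent.H76T.exists_fam h.cmp.lie h.cmp.irr h.cmp.tr
  rcases Nat.eq_zero_or_pos m with hm | hm
  · subst hm
    have hL : L = ⊥ := by
      rw [← hF.sup]
      exact iSup_of_empty _
    obtain ⟨a, b, hab⟩ : ∃ a b : κ, a ≠ b := by
      have h1 : 1 < Fintype.card κ := by omega
      obtain ⟨a, b, hab⟩ := Fintype.one_lt_card_iff.1 h1
      exact ⟨a, b, hab⟩
    obtain ⟨f, hf, hfab⟩ := h.sep a b hab
    have h1 := Yo_mem hf
    rw [hL, Submodule.mem_bot] at h1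
    rw [dq_eq_zero h1] at hfab
    exact hfab rfl
  · obtain ⟨P, hP1, hP2, -, hPS⟩ := H76Y.exists_proj h.cmp hF ⟨0, hm⟩
    obtain ⟨f, hf, hfn⟩ := no_all h hJ hdet hsk h4 hF ⟨0, hm⟩
    rcases hA.2.2 P.dualMap hPS (mul_one _) with h2 | h2
    · obtain ⟨f, hf, hf0, hfi⟩ := h.exists_diag hF ⟨0, hm⟩
      have h3 : P = 0 := dualMap_inj (by rw [h2, dualMap_zero])
      have h4 := hP2 ⟨f, hf⟩ hfi
      rw [h3, LinearMap.zero_apply] at h4
      exact hf0 (congrArg Subtype.val h4).symm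
    · have h3 : P = 1 := dualMap_inj (by rw [h2, dualMap_one])
      have h4 := hP1 ⟨f, hf⟩
      rw [h3] at h4
      exact hfn h4

/-- In dimension four the atoms are compatible with the simple ideals. -/
theorem comp_four {Y : Submodule ℚ (κ → ℚ)} {P : Module.End ℚ Y} (hA : Atom (ptS Y) P.dualMap) (h : TM L)
    (hJ : Jᵀ = J) (hdet : IsUnit J.det) (hsk : ∀ X ∈ L, adjE J X = -X) (h4 : Fintype.card κ = 4)
    (hY : Yo L = Y) : Comp L P := by
  classical
  subst hY
  have hs : Spans (pt L) := H76Y.pt_spans h.cmp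
  intro m I hF j
  obtain ⟨Pj, hP1, hP2, -, hPS⟩ := H76Y.exists_proj h.cmp hF j
  -- the two possibilities
  have caseA : Pj.dualMap * P.dualMap = Pj.dualMap → InP P (I j) := by
    intro h1 f hf hfj k k' hk
    have h2 : P * Pj = Pj := dualMap_inj (by rw [dualMap_mul]; exact h1)
    have h3 : P ⟨f, hf⟩ = ⟨f, hf⟩ := by
      have h4 := congrArg (fun T : Module.End ℚ (Yo L) => T ⟨f, hf⟩) h2
      simp only [Module.End.mul_apply] at h4
      rwa [hP2 ⟨f, hf⟩ hfj] at h4
    have h5 := hk ⟨f, hf⟩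
    rwa [h3] at h5
  have caseB : Pj.dualMap * P.dualMap = 0 → InP (1 - P) (I j) := by
    intro h1 f hf hfj k k' hk
    have h2 : P * Pj = 0 := dualMap_inj (by rw [dualMap_mul, dualMap_zero]; exact h1)
    have h3 : P ⟨f, hf⟩ = 0 := by
      have h4 := congrArg (fun T : Module.End ℚ (Yo L) => T ⟨f, hf⟩) h2
      simp only [Module.End.mul_apply] at h4
      rwa [hP2 ⟨f, hf⟩ hfj] at h4
    have h5 := hk ⟨f, hf⟩
    rwa [LinearMap.sub_apply, Module.End.one_apply, h3, sub_zero] at h5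
  have hA' : Atom (pt L) P.dualMap := hA
  rcases hA'.le_or hs hPS with h1 | h1
  · left
    have h2 : P.dualMap = Pj.dualMap := by
      by_contra hne
      obtain ⟨s, hsm, hsum⟩ := atoms_sum hs
      have h5 := spl_eq_sum hs hPS s hsm hsum (fun q => q * Pj.dualMap = q) fun q _ => Iff.rfl
      obtain ⟨q, hq, hq1, hq2⟩ : ∃ q ∈ s, q * Pj.dualMap = q ∧ q ≠ P.dualMap := by
        by_contra hcon
        push Not at hcon
        apply hne
        rw [h5]
        have h6 : s.filter (fun q => q * Pj.dualMap = q) = {P.dualMap} := by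
          ext q
          rw [Finset.mem_filter, Finset.mem_singleton]
          constructor
          · rintro ⟨h7, h8⟩
            exact hcon q h7 h8
          · rintro rfl
            exact ⟨(hsm _).2 hA', h1⟩
        rw [h6, Finset.sum_singleton]
      have hprod := card_prod hs h.pt_inj (s := s) (fun q hq => (hsm q).1 hq) hsum
      have hPs : P.dualMap ∈ s := (hsm _).2 hA'
      have hs2 : s = {P.dualMap, q} := by
        by_contra hne2
        obtain ⟨r, hr, hr2⟩ : ∃ r ∈ s, r ∉ ({P.dualMap, q} : Finset _) := by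
          by_contra hcon
          push Not at hcon
          apply hne2
          refine Finset.Subset.antisymm hcon ?_
          intro r hr
          rw [Finset.mem_insert, Finset.mem_singleton] at hr
          rcases hr with rfl | rfl
          · exact hPs
          · exact hq
        rw [Finset.mem_insert, Finset.mem_singleton] at hr2
        push Not at hr2
        have h7 : ({r, P.dualMap, q} : Finset _) ⊆ s := by
          intro t ht
          rw [Finset.mem_insert, Finset.mem_insert, Finset.mem_singleton] at ht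
          rcases ht with rfl | rfl | rfl
          · exact hr
          · exact hPs
          · exact hq
        have h8 : ∏ t ∈ ({r, P.dualMap, q} : Finset _), cnt (pt L) t ≤ ∏ t ∈ s, cnt (pt L) t := by
          refine Finset.prod_le_prod_of_subset_of_one_le' h7 fun t ht _ => ?_
          have := two_le_cnt hs ((hsm t).1 ht).2.1
          omega
        rw [Finset.prod_insert, Finset.prod_insert, Finset.prod_singleton, ← hprod, h4] at h8
        · have c1 := two_le_cnt hs ((hsm r).1 hr).2.1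
          have c2 := two_le_cnt hs hA'.2.1
          have c3 := two_le_cnt hs ((hsm q).1 hq).2.1
          have c4 : 2 * (2 * 2) ≤ cnt (pt L) r * (cnt (pt L) P.dualMap * cnt (pt L) q) :=
            Nat.mul_le_mul c1 (Nat.mul_le_mul c2 c3)
          omega
        · rw [Finset.mem_singleton]
          exact hq2.symm
        · rw [Finset.mem_insert, Finset.mem_singleton]
          push Not
          exact hr2
      have h6 : Pj.dualMap = 1 := by
        rw [h5, ← hsum]
        congr 1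
        rw [Finset.filter_eq_self]
        intro t ht
        rw [hs2, Finset.mem_insert, Finset.mem_singleton] at ht
        rcases ht with rfl | rfl
        · exact h1
        · exact hq1
      have h7 : Pj = 1 := dualMap_inj (by rw [h6, dualMap_one])
      obtain ⟨f, hf, hfn⟩ := no_all h hJ hdet hsk h4 hF j
      have h8 := hP1 ⟨f, hf⟩
      rw [h7] at h8
      exact hfn h8
    refine caseA ?_
    rw [h2]
    exact hPS.1
  · right
    exact caseB (by rw [← Spl.comm hs hA'.1 hPS]; exact h1)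

end

section
variable {n : ℕ} {Y : Submodule ℚ (Fin n → ℚ)}

/-- The atoms. -/
theorem exists_atoms [Nonempty (Fin n)] (h0 : ∀ f ∈ Y, ∑ k, f k = 0) :
    ∃ B : Finset (Module.End ℚ Y), (∀ P, P ∈ B ↔ Atom (ptS Y) P.dualMap) ∧ ∑ P ∈ B, P = 1 ∧
      (∀ P ∈ B, ∀ P' ∈ B, P ≠ P' → P * P' = 0) ∧ ∀ P ∈ B, Sp P ∧ P ≠ 0 := by
  classical
  have hs := ptS_spans (Y := Y) h0
  obtain ⟨FF, hFF, hsum⟩ := atoms_sum hs
  have hspl : ∀ z ∈ FF, Spl (ptS Y) z ∧ z ≠ 0 := fun z hz => ⟨((hFF z).1 hz).1, ((hFF z).1 hz).2.1⟩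
  -- lift to `End Y`
  have lift : ∀ z : Module.End ℚ (Module.Dual ℚ Y), ∃ P : Module.End ℚ Y, Spl (ptS Y) z → P.dualMap = z := by
    intro z
    by_cases hz : Spl (ptS Y) z
    · obtain ⟨P, -, hP⟩ := exists_P hz
      exact ⟨P, fun _ => hP⟩
    · exact ⟨0, fun h => absurd h hz⟩
  choose g hg using lift
  have hgF : ∀ z ∈ FF, (g z).dualMap = z := fun z hz => hg z (hspl z hz).1
  have hne0 : ∀ P : Module.End ℚ Y, P ≠ 0 ↔ P.dualMap ≠ 0 := by
    intro P
    constructor
    · intro h h'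
      exact h (dualMap_inj (h'.trans dualMap_zero.symm))
    · rintro h rfl
      exact h dualMap_zero
  have hmem : ∀ P, P ∈ FF.image g ↔ P.dualMap ∈ FF := by
    intro P
    rw [Finset.mem_image]
    constructor
    · rintro ⟨z, hz, rfl⟩
      rw [hgF z hz]
      exact hz
    · intro h
      exact ⟨_, h, dualMap_inj (hgF _ h)⟩
  refine ⟨FF.image g, fun P => ?_, ?_, fun P hP P' hP' hne => ?_, fun P hP => ?_⟩
  · rw [hmem, hFF]
  · refine dualMap_inj ?_
    rw [dualMap_sum, Finset.sum_image, dualMap_one, ← hsum]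
    · exact Finset.sum_congr rfl fun z hz => hgF z hz
    · intro z hz z' hz' h
      rw [← hgF z hz, ← hgF z' hz', h]
  · rw [hmem] at hP hP'
    refine dualMap_inj ?_
    rw [dualMap_mul, dualMap_zero]
    exact Atom.orth hs ((hFF _).1 hP') ((hFF _).1 hP) fun h => hne (dualMap_inj h.symm)
  · rw [hmem] at hP
    exact ⟨Sp_iff.2 (hspl _ hP).1, (hne0 P).2 (hspl _ hP).2⟩

/-- Permutations respecting the space of functions permute the atoms. -/
theorem atom_perm {P : Module.End ℚ Y} {σ : Equiv.Perm (Fin n)} (hσ : ∀ f ∈ Y, f ∘ σ ∈ Y)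
    (hP : Atom (ptS Y) P.dualMap) :
    ∃ P' : Module.End ℚ Y, Atom (ptS Y) P'.dualMap ∧ MvP σ P P' := by
  classical
  obtain ⟨S, hS, hA⟩ := exists_S hσ
  set P' : Module.End ℚ Y := S.symm.toLinearMap ∘ₗ P ∘ₗ S.toLinearMap with hP'
  have hconj : P'.dualMap = H76P.conj S.dualMap P.dualMap := by
    ext u f
    rfl
  have hval : ∀ (Q Q' : Module.End ℚ Y), (∀ f, S (Q' f) = Q (S f)) →
      ∀ k k', cz Q k k' ↔ cz Q' (σ k) (σ k') := by
    intro Q Q' hQ k k'
    have h1 : ∀ (f : Y) (x : Fin n), (Q' f : Fin n → ℚ) (σ x) = (Q (S f) : Fin n → ℚ) x := by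
      intro f x
      rw [← hQ f, hS]
      rfl
    constructor
    · intro h f
      rw [h1, h1]
      exact h (S f)
    · intro h f
      have h2 := h (S.symm f)
      rwa [h1, h1, LinearEquiv.apply_symm_apply] at h2
  have hSP : ∀ f, S (P' f) = P (S f) := by
    intro f
    rw [hP']
    simp
  refine ⟨P', by rw [hconj]; exact hP.conj hA, hval P P' hSP, hval (1 - P) (1 - P') fun f => ?_⟩
  rw [LinearMap.sub_apply, LinearMap.sub_apply, Module.End.one_apply, Module.End.one_apply, map_sub, hSP]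

end

section
variable {ι : Type*} [Fintype ι] [DecidableEq ι] {ψ : Matrix ι ι ℚ}
    {D : Subalgebra ℚ (Matrix ι ι ℚ)} {M : Type*} [Field M] [NumberField M]
    {m : ℕ} {cl : Fin m → Cl} {bar : Fin m → Fin m} {e : Fin m → Matrix ι ι M} {u₀ : Matrix ι ι M} {G : Type*} [Group G]
    {ρ : ∀ (l : ℕ) [Fact l.Prime], G →* Matrix.GeneralLinearGroup ι ℚ_[l]}
    {p : ℕ} [Fact p.Prime] {σ : G} {q : ℚ} {F : Fin m → M[X]}
    {φ μ ν : Matrix ι ι (AlgebraicClosure ℚ_[p])} {v : AlgebraicClosure ℚ_[p] → ℚ}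
    {Δ : Set (AlgebraicClosure ℚ_[p] ≃+* AlgebraicClosure ℚ_[p])}
    {Ω : Type*} [Field Ω] [CharZero Ω] [IsAlgClosed Ω] [Algebra.IsAlgebraic ℚ Ω] {j : M →+* Ω}
    {R : Finset Ω} {N : Set ℕ} {hd : Fin m → Ω → ℕ} {ub : Fin m → Prop}
    (C : Core5 ψ D cl bar e u₀ ρ p σ q F φ μ ν v Δ j R N hd ub)

include C

/-- **A component of rank four with a symmetric form decomposes the set `R`.** -/
theorem four_part (b : Fin m) (hb : cl b = .o) (h4 : (e b).rank = 4) :
    ∃ (k : ℕ) (c : Ω → Option (Fin k)) (A : Fin k → ℕ), 2 ≤ k ∧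
      PartU D j (cl b = .s) (ub b) (e b) (e (bar b)) (F b) q R (hd b) c A ∧ (e b).rank = ∏ x, A x := by
  classical
  obtain ⟨a, ha, hroot⟩ := C.enum b
  have hn : 0 < (e b).rank := by rw [h4]; norm_num
  have : Nonempty (Fin (e b).rank) := ⟨⟨0, hn⟩⟩
  have hs : ∀ g ∈ YS a, ∑ k, g k = 0 := fun g hg => hg.1
  have hcard : Fintype.card (Fin (e b).rank) = 4 := by rw [Fintype.card_fin, h4]
  obtain ⟨FF, hFF, hsum, horth, hsp⟩ := exists_atoms (Y := YS a) hs
  have hgood : ∀ P ∈ FF, Sp P ∧ P ≠ 0 ∧ GoodU (cl b) P := by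
    intro P hP
    refine ⟨(hsp P hP).1, (hsp P hP).2, ?_⟩
    intro K _ _ _ L hT hcls hY
    obtain ⟨J, hJ, hdet, hsk⟩ := hcls.2.1 hb
    have hor : OrL L := ⟨J, hJ, hdet, hsk⟩
    exact comp_four ((hFF P).1 hP) ((H45U.tm_iff (Or.inr hor)).1 hT) hJ hdet hsk hcard
      ((H45U.Yo_eq (Or.inr hor)).symm.trans hY)
  have hperm : ∀ π : Equiv.Perm (Fin (e b).rank), (∀ g ∈ YS a, g ∘ π ∈ YS a) → ∀ P ∈ FF,
      ∃ P' ∈ FF, MvP π P P' := by
    intro π hπ P hP
    obtain ⟨P', h1, h2⟩ := atom_perm hπ ((hFF P).1 hP)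
    exact ⟨P', (hFF P').2 h1, h2⟩
  obtain ⟨c, h1, h2⟩ := C.partd2 b ha hroot hn hgood horth hsum hperm FF.equivFin
  refine ⟨FF.card, c, _, ?_, h1, h2⟩
  by_contra hlt
  rcases Nat.lt_or_ge FF.card 1 with h3 | h3
  · have h4' : FF.card = 0 := by omega
    have : IsEmpty (Fin FF.card) := by rw [h4']; infer_instance
    rw [Fintype.prod_empty] at h2
    omega
  · have h4' : FF.card = 1 := by omega
    obtain ⟨P, hP⟩ := Finset.card_eq_one.1 h4'
    rw [hP, Finset.sum_singleton] at hsum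
    have h5 : Atom (ptS (YS a)) (1 : Module.End ℚ (Module.Dual ℚ (YS a))) := by
      have h6 := (hFF P).1 (by rw [hP]; exact Finset.mem_singleton_self P)
      rwa [hsum, dualMap_one] at h6
    obtain ⟨i⟩ := H76Z.w9_exists_i p Ω
    obtain ⟨H₀, U, V, -, hL, hcls⟩ := C.locp b ha hroot i
    obtain ⟨J, hJ, hdet, hsk⟩ := hcls.2.1 hb
    have hor : OrL (LcN (ψ.map (algebraMap ℚ (AlgebraicClosure ℚ_[p])))
      (img (AlgebraicClosure ℚ_[p]) (ρ p) H₀) U V) := ⟨J, hJ, hdet, hsk⟩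
    have hY : H76P.Yo _ = YS a := (H45U.Yo_eq (Or.inr hor)).symm.trans hL.yo
    refine four_split ((H45U.tm_iff (Or.inr hor)).1 hL.ts) hJ hdet hsk hcard ?_
    rw [← hY] at h5
    exact h5

end

end Pool.Agent.H86L
end

-- from Lib.H45U.F5a
section

/-!
# F5a: the fifth version over an abstract group
-/

set_option autoImplicit false
set_option linter.unusedSectionVars false
namespace Pool.Agent.H45U
open Pool.Agent.H76Y Pool.Agent.H76Z
open Pool.Agent.H76P Pool.Agent.H76V Pool.Agent.H76Q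
open Module Matrix Polynomial Pool.Agent.H53Toric
open Pool.Agent.H76P
open Pool.Agent.H76T (IsIdeal Fam Lc)
open Pool.Agent.H76U (cmp preL IsSplitting typeGrp)
open Pool.Agent.H76RM (spanK similD)

section
variable {ι : Type*} [Fintype ι] [DecidableEq ι] {K : Type*} [Field K] [CharZero K]

theorem rank_tr {e h : Matrix ι ι K} (he : e * e = e) (hh : h * h = h) (hhe : h * e = e * h) :
    ((h * e).rank : K) = (h * e).trace := by
  have h1 : (h * e) * (h * e) = h * e := by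
    calc (h * e) * (h * e) = h * (e * h) * e := by simp only [Matrix.mul_assoc]
      _ = h * (h * e) * e := by rw [hhe]
      _ = (h * h) * (e * e) := by simp only [Matrix.mul_assoc]
      _ = h * e := by rw [hh, he]
  have h6 : phi (h * e) * phi (h * e) = phi (h * e) := by rw [← map_mul, h1]
  have h7 := trace_idem h6
  have h8 : LinearMap.trace K (ι → K) (phi (h * e)) = (h * e).trace := Matrix.trace_toLin'_eq _
  rw [h8] at h7
  exact h7.symm

/-- The ranks of `h e` and `h e'` if `e'` is the adjoint of `e` and `1 - h` the adjoint of `h`. -/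
theorem rank_pair {J e e' h : Matrix ι ι K} (hJ : IsUnit J.det) (he : e * e = e) (he' : e' * e' = e')
    (hadj : eᵀ * J = J * e') (hh : h * h = h) (hhe : h * e = e * h) (hhe' : h * e' = e' * h)
    (hs : hᵀ * J + J * h = J) : (h * e).rank + (h * e').rank = e.rank := by
  have h1 := rank_tr he hh hhe
  have h2 := rank_tr he' hh hhe'
  have h3 := rank_tr (h := 1) he (one_mul 1) (by rw [one_mul, mul_one])
  rw [one_mul] at h3
  have hcon : ∀ A B : Matrix ι ι K, Aᵀ * J = J * B → A.trace = B.trace := by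
    intro A B hAB
    have h4 : B = J⁻¹ * Aᵀ * J := by
      rw [Matrix.mul_assoc, hAB, ← Matrix.mul_assoc, Matrix.nonsing_inv_mul _ hJ, Matrix.one_mul]
    rw [h4, Matrix.mul_assoc, Matrix.trace_mul_comm, Matrix.mul_assoc, Matrix.mul_nonsing_inv _ hJ,
      Matrix.mul_one, Matrix.trace_transpose]
  have h4 := hcon e e' hadj
  have h5 : (h * e)ᵀ * J = J * (e' - h * e') := by
    have h6 : hᵀ * J = J - J * h := eq_sub_of_add_eq hs
    rw [hhe, Matrix.transpose_mul, Matrix.mul_assoc, hadj, ← Matrix.mul_assoc, h6, Matrix.sub_mul,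
      Matrix.mul_sub, Matrix.mul_assoc]
  have h6 := hcon _ _ h5
  rw [Matrix.trace_sub, ← h4] at h6
  have h7 : ((h * e).rank + (h * e').rank : K) = e.rank := by
    rw [h1, h2, h3, h6]
    ring
  exact_mod_cast h7

end

variable {ι : Type*} [Fintype ι] [DecidableEq ι] {ψ : Matrix ι ι ℚ}
    {D : Subalgebra ℚ (Matrix ι ι ℚ)} {M : Type*} [Field M] [NumberField M]
    {m : ℕ} {cl : Fin m → Cl} {bar : Fin m → Fin m} {e : Fin m → Matrix ι ι M} {u₀ : Matrix ι ι M} {G : Type*} [Group G]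
    {ρ : ∀ (l : ℕ) [Fact l.Prime], G →* Matrix.GeneralLinearGroup ι ℚ_[l]}
    {p : ℕ} [Fact p.Prime] {σ : G} {q : ℚ} {F : Fin m → M[X]}
    {φ μ ν : Matrix ι ι (AlgebraicClosure ℚ_[p])} {v : AlgebraicClosure ℚ_[p] → ℚ}
    {Δ : Set (AlgebraicClosure ℚ_[p] ≃+* AlgebraicClosure ℚ_[p])}
    {Ω : Type} [Field Ω] [CharZero Ω] [IsAlgClosed Ω] [Algebra.IsAlgebraic ℚ Ω] {j : M →+* Ω}
    {R : Finset Ω} {N : Set ℕ} {hd : Fin m → Ω → ℕ} {ub : Fin m → Prop}
    (C : Core5 ψ D cl bar e u₀ ρ p σ q F φ μ ν v Δ j R N hd ub)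

include C

/-- The multiplicities of a component and of its conjugate. -/
theorem Core5.hd_bar (b : Fin m) {r : Ω} (hr : r ∈ R) : hd b r + hd (bar b) r = (e b).rank := by
  obtain ⟨i, hi⟩ := C.w2_i hr
  obtain ⟨-, hdet0⟩ := gram_basic C.hψ C.hψ0 (AlgebraicClosure ℚ_[p])
  have hspl : Splits D ψ cl bar (fun c => (e c).map (i.comp j)) (u₀.map (i.comp j)) := C.hspl.map (i.comp j)
  have hdet : IsUnit (ψ.map (algebraMap ℚ (AlgebraicClosure ℚ_[p])) * u₀.map (i.comp j)).det := by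
    rw [Matrix.det_mul]
    exact hdet0.mul hspl.unit
  have hs0 := C.hs_mu b
  have hμu := C.w8_mu hspl.umem
  have hs : μᵀ * (ψ.map (algebraMap ℚ (AlgebraicClosure ℚ_[p])) * u₀.map (i.comp j)) +
      ψ.map (algebraMap ℚ (AlgebraicClosure ℚ_[p])) * u₀.map (i.comp j) * μ =
        ψ.map (algebraMap ℚ (AlgebraicClosure ℚ_[p])) * u₀.map (i.comp j) := by
    rw [Matrix.mul_assoc _ (u₀.map (i.comp j)) μ, ← hμu, ← Matrix.mul_assoc, ← Matrix.mul_assoc,
      ← Matrix.add_mul, hs0]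
  have h1 := rank_pair hdet (hspl.idem b) (hspl.idem (bar b)) (hspl.adj b) C.crys.mu.1.1
    (C.w8_mu (hspl.mem b)) (C.w8_mu (hspl.mem (bar b))) hs
  rw [C.hdg b i r hr hi, C.hdg (bar b) i r hr hi, H76U.rank_idem_map (C.hspl.idem b)] at h1
  exact h1

/-- A component with a form is balanced. -/
theorem Core5.hd_form {b : Fin m} (hb : cl b ≠ .n) {r : Ω} (hr : r ∈ R) : 2 * hd b r = (e b).rank := by
  have h1 := C.hd_bar b hr
  rw [(C.hspl.self b).2 hb] at h1
  omega

theorem Core5.rank_bar (b : Fin m) : (e (bar b)).rank = (e b).rank := by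
  obtain ⟨i⟩ := H76Z.w9_exists_i p Ω
  obtain ⟨r, hr, -⟩ := C.Rval i
  have h1 := C.hd_bar b hr
  have h2 := C.hd_bar (bar b) hr
  rw [C.hspl.barbar] at h2
  omega

/-- The eigenvalues of the conjugate component. -/
theorem Core5.root_bar (b : Fin m) {y : Ω} (hy : (F b).eval₂ j y = 0) :
    ∃ y' : Ω, (F (bar b)).eval₂ j y' = 0 ∧ y * y' = algebraMap ℚ Ω q := by
  obtain ⟨a, ha, hroot⟩ := C.enum (bar b)
  obtain ⟨i⟩ := H76Z.w9_exists_i p Ω
  have h1 : (F b).eval₂ (i.comp j) (i y) = 0 := by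
    rw [← Polynomial.hom_eval₂, hy, map_zero]
  obtain ⟨z, hz0, hz, hφ⟩ := (C.frobp.eig (i.comp j) b (i y)).2 h1
  obtain ⟨k, hk, -⟩ := C.dual_vec (bar b) ha hroot i hz0 (by rw [C.hspl.barbar]; exact hz) hφ
  refine ⟨a k, (hroot _).2 ⟨k, rfl⟩, i.injective ?_⟩
  rw [map_mul, hk]
  simp

/-- **The fifth version over an abstract group.** -/
theorem Core5.final
    -- the components
    (part : ∀ b (k : ℕ) (c : Ω → Option (Fin k)) (A : Fin k → ℕ), 2 ≤ k →
      PartU D j (cl b = .s) (ub b) (e b) (e (bar b)) (F b) q R (hd b) c A → Big (cl b) (e b).rank A →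
      (e b).rank ≠ ∏ x, A x)
    (two : ∀ b (k : ℕ), 3 ≤ k → (e b).rank = 2 ^ k →
      (cl b = .s → 4 ≤ k → H45Q.Gen1 ρ ∧ ¬ (5 ≤ k ∧ (k % 4 = 1 ∨ k % 4 = 2))) ∧
      (cl b = .o → H45Q.Gen1 ρ ∧ (k % 4 = 1 ∨ k % 4 = 2)))
    (binom : ∀ b (k : ℕ), (cl b = .s → 3 ≤ k ∧ Odd k) → (cl b = .o → 4 ≤ k ∧ Even k) →
      cl b ≠ .n → (e b).rank = k.centralBinom →
        ∃ (c : Ω ≃+* Ω) (T₀ : Finset Ω) (N' : Set ℕ), H86L.Real3 D ρ σ q bar e F j c T₀ N')
    (twon : ∀ b, cl b = .n → (∀ r ∈ R, hd b r = 0 ∨ hd b r = (e b).rank ∨ 2 * hd b r = (e b).rank) →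
      ∀ k : ℕ, 4 ≤ k → Even k → (e b).rank ≠ 2 ^ k)
    (bin : ∀ b, cl b = .n → (∃ r ∈ R, hd b r ≠ 0 ∧ hd b r ≠ (e b).rank ∧ 2 * hd b r ≠ (e b).rank) →
      (∀ N k : ℕ, 2 ≤ k → k + 2 ≤ N → (e b).rank = N.choose k →
        ∃ r ∈ R, hd b r ≠ 0 ∧ hd b r ≠ (e b).rank ∧ hd b r ≠ (N - 1).choose k ∧
          hd b r ≠ (N - 1).choose (k - 1)) ∨
      ∃ (c : Ω ≃+* Ω) (r : Ω), r ∈ R ∧ c r = r ∧ Linked D ((e (bar b)).map j) ((e b).map (c.toRingHom.comp j)))
    -- the pairs of components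
    (six : ∀ b c, cl b = .o → cl c = .n → (e b).rank = 6 → (e c).rank = 4 →
      (∃ r ∈ R, hd c r ≠ 1 ∧ hd c r ≠ 3) ∨ NoSix j (F b) (F c))
    (tw : ∀ b c, cl b = .n → cl c = .n → c ≠ b → c ≠ bar b → 2 ≤ (e b).rank → (e c).rank = (e b).rank →
      (∀ r ∈ R, hd b r = hd c r) ∨ (∃ r ∈ R, hd b r ≠ hd c r ∧
        ¬ ((hd b r = 0 ∨ hd b r = (e b).rank) ∧ (hd c r = 0 ∨ hd c r = (e b).rank))) ∨
      NoProp j (F b) (F c))
    (l : ℕ) [Fact l.Prime] (i : M →+* AlgebraicClosure ℚ_[l]) (H : Subgroup G) (hH : H.FiniteIndex) :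
    monodromy (AlgebraicClosure ℚ_[l]) (ρ l) H =
      typeGrp (AlgebraicClosure ℚ_[l]) ψ D (fun b => (e b).map i) {n | ∃ r ∈ R, ∀ b, n b = hd b r} := by
  obtain ⟨i', rfl⟩ := Pool.Agent.H76Q.g12_ext j i
  choose a ha hroot hf using fun b => H86L.comp_real5 C part two binom twon bin b
  have four' : ∀ b, cl b = .o → (e b).rank ≠ 4 ∧ (e b).rank ≠ 8 := fun b hb =>
    ⟨fun h4 => by
      obtain ⟨k, c, A, hk, hP, hA⟩ := H86L.four_part C b hb h4
      exact part b k c A hk hP ⟨fun _ => Or.inl ⟨hb, h4⟩, fun h8 => absurd h8 (by rw [h4]; norm_num)⟩ hA,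
    fun h8 => absurd ((two b 3 le_rfl (by rw [h8]; norm_num)).2 hb).2 (by decide)⟩
  have hbn : ∀ c, cl c = .n → cl (bar c) = .n := by
    intro c hc
    by_contra h1
    have h2 := (C.hspl.self (bar c)).2 h1
    rw [C.hspl.barbar] at h2
    exact (C.hspl.self c).1 h2.symm hc
  refine H34V.final_of5 C four' ha hroot (fun b => hf b) l i' (fun z z₀ => C.hodge_iff l i' z z₀)
    ?_ ?_ ?_ H hH
  · intro b c hb hc h6 h4 f f' hff
    by_contra hcon
    push Not at hcon
    rcases six b c hb hc h6 h4 with ⟨r, hr, h1, h3⟩ | hno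
    · rcases C.pair_six (by rw [hb]; decide) (ha b) (hroot b) (ha c) (hroot c) h6 h4 f f' hff hcon hr with h | h
      · exact h1 h
      · exact h3 h
    · obtain ⟨k₀⟩ : Nonempty (Fin (e b).rank) := ⟨⟨0, by omega⟩⟩
      have h1 := C.ne c (hroot c)
      refine hno ⟨a b k₀ / (a c (f k₀) * a c (f' k₀)), fun y hy => ?_⟩
      obtain ⟨k, rfl⟩ := (hroot b y).1 hy
      refine ⟨a c (f k), a c (f' k), (hroot c _).2 ⟨_, rfl⟩, (hroot c _).2 ⟨_, rfl⟩,
        fun h => hff k (ha c h), ?_⟩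
      have h2 := hcon k k₀
      have h3 := h1 (f k₀)
      have h5 := h1 (f' k₀)
      field_simp
      linear_combination h2
  · intro b c hcb hcb' h2 hrk
    by_contra hcon
    push Not at hcon
    obtain ⟨⟨r₀, hr₀, hne⟩, π, hπ⟩ := hcon
    have key := fun r (hr : r ∈ R) => C.pair_dir (ha b) (hroot b) (ha c) (hroot c) hrk π hπ hr
    by_cases hb : cl b = .n
    · by_cases hc : cl c = .n
      · rcases tw b c hb hc hcb hcb' h2 hrk with h | ⟨r, hr, h3, h4⟩ | hno
        · exact hne (h r₀ hr₀)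
        · rcases key r hr with h5 | ⟨h5, h6⟩ | ⟨h5, h6⟩
          · exact h3 h5
          · exact h4 ⟨Or.inl h5, Or.inr h6⟩
          · exact h4 ⟨Or.inr h5, Or.inl h6⟩
        · obtain ⟨k₀⟩ : Nonempty (Fin (e b).rank) := ⟨⟨0, by omega⟩⟩
          refine hno ⟨a c (π k₀) / a b k₀, fun y hy => ?_⟩
          obtain ⟨k, rfl⟩ := (hroot b y).1 hy
          have h3 := C.ne b (hroot b) k₀
          refine (hroot c _).2 ⟨π k, ?_⟩
          rw [div_mul_eq_mul_div, div_eq_iff h3]
          exact hπ k₀ k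
      · have h3 := C.hd_form hc hr₀
        rcases key r₀ hr₀ with h5 | ⟨h5, h6⟩ | ⟨h5, h6⟩
        · exact hne h5
        · omega
        · omega
    · have h3 := C.hd_form hb hr₀
      rcases key r₀ hr₀ with h5 | ⟨h5, h6⟩ | ⟨h5, h6⟩
      · exact hne h5
      · omega
      · omega
  · intro b c hcb hcb' h2 hrk
    by_contra hcon
    push Not at hcon
    obtain ⟨⟨r₀, hr₀, hne⟩, π, hπ⟩ := hcon
    have key := fun r (hr : r ∈ R) => C.pair_dual (ha b) (hroot b) (ha c) (hroot c) hrk π hπ hr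
    by_cases hb : cl b = .n
    · by_cases hc : cl c = .n
      · have hcc : bar c ≠ b := fun h => hcb' (by rw [← h, C.hspl.barbar])
        have hcc' : bar c ≠ bar b := fun h => hcb (by rw [← C.hspl.barbar c, h, C.hspl.barbar])
        have hrc : (e (bar c)).rank = (e b).rank := by rw [C.rank_bar, hrk]
        rcases tw b (bar c) hb (hbn c hc) hcc hcc' h2 hrc with h | ⟨r, hr, h3, h4⟩ | hno
        · have h5 := C.hd_bar c hr₀
          have h6 := h r₀ hr₀
          omega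
        · have h7 := C.hd_bar c hr
          rcases key r hr with h5 | ⟨h5, h6⟩ | ⟨h5, h6⟩
          · omega
          · exact h4 ⟨Or.inl h5, Or.inr (by omega)⟩
          · exact h4 ⟨Or.inr h5, Or.inl (by omega)⟩
        · obtain ⟨k₀⟩ : Nonempty (Fin (e b).rank) := ⟨⟨0, by omega⟩⟩
          have hb0 := C.ne b (hroot b)
          have hc0 := C.ne c (hroot c)
          refine hno ⟨algebraMap ℚ Ω q / (a c (π k₀) * a b k₀), fun y hy => ?_⟩
          obtain ⟨k, rfl⟩ := (hroot b y).1 hy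
          obtain ⟨y', hy', hyy⟩ := C.root_bar c ((hroot c (a c (π k))).2 ⟨_, rfl⟩)
          have h3 : algebraMap ℚ Ω q / (a c (π k₀) * a b k₀) * a b k = y' := by
            have h4 := hb0 k
            have h5 := hc0 (π k)
            rw [← hπ k k₀, ← hyy]
            field_simp
          rw [h3]
          exact hy'
      · have h3 := C.hd_form hc hr₀
        rcases key r₀ hr₀ with h5 | ⟨h5, h6⟩ | ⟨h5, h6⟩
        · exact hne h5
        · omega
        · omega
    · have h3 := C.hd_form hb hr₀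
      rcases key r₀ hr₀ with h5 | ⟨h5, h6⟩ | ⟨h5, h6⟩
      · exact hne h5
      · omega
      · omega

end Pool.Agent.H45U
end

-- from Lib.H45U.Fin
section

/-!
# the final theorem over a number field, fifth version
-/

set_option autoImplicit false
set_option linter.unusedSectionVars false
namespace Pool.Agent.H45U
open Module Matrix Polynomial Pool.Agent.H53Toric NumberField ST32
open Pool.Agent.H76Q
open Pool.Agent.H76P (properProj EigOn)
open Pool.Agent.H76U (IsSplitting typeGrp)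
open Pool.Agent.H76RM (spanK similD)
open Pool.Agent.H45Q (CrysF3 Gen1)

theorem finalF5 {ι : Type} [Fintype ι] [DecidableEq ι] {ψ : Matrix ι ι ℚ} (hψ : ψᵀ = -ψ)
    (hψ0 : ψ.det ≠ 0) (D : Subalgebra ℚ (Matrix ι ι ℚ)) {M : Type} [Field M] [NumberField M]
    {m : ℕ} (cl : Fin m → H76Z.Cl) (bar : Fin m → Fin m) (e : Fin m → Matrix ι ι M) (u : Matrix ι ι M)
    (hspl : H76Z.Splits D ψ cl bar e u)
    (hpos : ∀ d ∈ D, d ≠ 0 → 0 < (d * (ψ⁻¹ * dᵀ * ψ)).trace)
    {F : Type} [Field F] [NumberField F] {Ω : Type} [Field Ω] [CharZero Ω] [Algebra F Ω] [IsAlgClosure F Ω]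
    (j : M →+* Ω)
    (ρ : ∀ (l : ℕ) [Fact l.Prime], (Ω ≃ₐ[F] Ω) →* Matrix.GeneralLinearGroup ι ℚ_[l])
    (cont : ∀ (l : ℕ) [Fact l.Prime], Continuous fun g => (ρ l g : Matrix ι ι ℚ_[l]))
    (lin : ∀ (l : ℕ) [Fact l.Prime], ∀ g : Ω ≃ₐ[F] Ω, ∀ d ∈ D,
      (ρ l g).1 * d.map (algebraMap ℚ ℚ_[l]) = d.map (algebraMap ℚ ℚ_[l]) * (ρ l g).1)
    (sim : ∀ (l : ℕ) [Fact l.Prime], ∀ g : Ω ≃ₐ[F] Ω, ∃ c : ℚ_[l],
      (ρ l g).1ᵀ * ψ.map (algebraMap ℚ ℚ_[l]) * (ρ l g).1 = c • ψ.map (algebraMap ℚ ℚ_[l]))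
    (semis : ∀ (l : ℕ) [Fact l.Prime], ∀ H : Subgroup (Ω ≃ₐ[F] Ω), H.FiniteIndex →
      ∀ W : Submodule (AlgebraicClosure ℚ_[l]) (ι → AlgebraicClosure ℚ_[l]),
      (∀ s ∈ img (AlgebraicClosure ℚ_[l]) (ρ l) H, ∀ w ∈ W, s *ᵥ w ∈ W) →
      ∃ W' : Submodule (AlgebraicClosure ℚ_[l]) (ι → AlgebraicClosure ℚ_[l]),
        (∀ s ∈ img (AlgebraicClosure ℚ_[l]) (ρ l) H, ∀ w ∈ W', s *ᵥ w ∈ W') ∧ IsCompl W W')
    (commt : ∀ (l : ℕ) [Fact l.Prime], ∀ H : Subgroup (Ω ≃ₐ[F] Ω), H.FiniteIndex →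
      ∀ y : Matrix ι ι (AlgebraicClosure ℚ_[l]),
      (∀ s ∈ img (AlgebraicClosure ℚ_[l]) (ρ l) H, y * s = s * y) →
        y ∈ spanK (AlgebraicClosure ℚ_[l]) D)
    (gen : ∀ (l : ℕ) [Fact l.Prime], ∀ g : Ω ≃ₐ[F] Ω,
      (ρ l g).1.map (algebraMap ℚ_[l] (AlgebraicClosure ℚ_[l])) ∈
        tgen (AlgebraicClosure ℚ_[l]) (ρ l))
    -- the places of bad reduction
    (S : Finset (CFT.Pr F))
    (unr : ∀ (l : ℕ) [Fact l.Prime], ∀ v ∉ S, (l : 𝓞 F) ∉ v.asIdeal →
      ∀ P : Ideal (𝓞 Ω), Above v P → ∀ g : Ω ≃ₐ[F] Ω, Inert P g → ρ l g = 1)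
    -- the place `w`
    (p : ℕ) [Fact p.Prime] (w : CFT.Pr F) (hwS : w ∉ S)
    (hwp : Ideal.absNorm w.asIdeal = p)
    (π : 𝓞 F) (hwπ : w.asIdeal = Ideal.span {π}) (hpos' : ∀ τ : F →+* ℝ, 0 < τ π)
    (hpe : ∀ b, ¬ p ∣ (e b).rank)
    (hcong : ∀ b, ∀ v ∈ S, π - 1 ∈ Ideal.span {((e b).rank : 𝓞 F) ^ 2} * v.asIdeal)
    (hdF : ¬ (p : ℤ) ∣ NumberField.discr F) (hdM : ¬ (p : ℤ) ∣ NumberField.discr M)
    (σ : Ω ≃ₐ[F] Ω) (hσ : IsFrv w σ)
    (f : ℤ[X]) (hf : f.Monic) (weil : ∀ z : ℂ, aeval z f = 0 → ‖z‖ ^ 2 = p)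
    (χ : Fin m → M[X])
    (mult : ∀ (l : ℕ) [Fact l.Prime], l ≠ p →
      (ρ l σ).1ᵀ * ψ.map (algebraMap ℚ ℚ_[l]) * (ρ l σ).1 = (p : ℚ_[l]) • ψ.map (algebraMap ℚ ℚ_[l]))
    (char : ∀ (l : ℕ) [Fact l.Prime], l ≠ p →
      (ρ l σ).1.charpoly = f.map (algebraMap ℤ ℚ_[l]))
    (frob : ∀ (l : ℕ) [Fact l.Prime], l ≠ p →
      FrobT (AlgebraicClosure ℚ_[l]) (ρ l) e χ
        ((ρ l σ).1.map (algebraMap ℚ_[l] (AlgebraicClosure ℚ_[l]))))
    (neat : ∀ b, ∀ a a' : Ω, (χ b).eval₂ j a = 0 → (χ b).eval₂ j a' = 0 →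
      ∀ n : ℕ, n ≠ 0 → a ^ n = a' ^ n → a = a')
    -- the representation at `p`
    (v : AlgebraicClosure ℚ_[p] → ℚ) (hv : IsPVal p v)
    (φ μ ν : Matrix ι ι (AlgebraicClosure ℚ_[p]))
    (frobp : FrobT (AlgebraicClosure ℚ_[p]) (ρ p) e χ φ)
    (multp : φᵀ * ψ.map (algebraMap ℚ (AlgebraicClosure ℚ_[p])) * φ =
      (p : AlgebraicClosure ℚ_[p]) • ψ.map (algebraMap ℚ (AlgebraicClosure ℚ_[p])))
    (crys : CrysF3 p (ρ p) e σ φ μ ν v)
    (wa : ∀ b : Fin m, cl b = .n → ∀ i : M →+* AlgebraicClosure ℚ_[p],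
      v (1 - (e b).map i + φ * (e b).map i).det = (μ * (e b).map i).rank)
    -- the multiplicities
    (h : Fin m → (F →+* Ω) → ℕ)
    (hdg : ∀ (b : Fin m) (i : Ω →+* AlgebraicClosure ℚ_[p]) (τ : F →+* Ω), v (i (τ (π : F))) = 1 →
      (μ * (e b).map (i.comp j)).rank = h b τ)
    (alt : ∀ b, cl b = .n → (e b).rank ≤ 2 ∨ (∀ τ, 2 * h b τ = (e b).rank) ∨
      (∃ τ, h b τ ≠ 0 ∧ h b τ ≠ (e b).rank ∧ 2 * h b τ ≠ (e b).rank) ∨ NoDual j (χ b))
    -- bad reduction
    (ub : Fin m → Prop) (N₀ : Set ℕ) (hN₀ : N₀.Finite)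
    (bad : ∀ b, ub b → ∀ (l : ℕ) [Fact l.Prime], l ∉ N₀ → ∃ g : Ω ≃ₐ[F] Ω,
      ((ρ l g).1 - 1) * ((ρ l g).1 - 1) = 0 ∧ ∀ i : M →+* AlgebraicClosure ℚ_[l],
        ((ρ l g).1.map (algebraMap ℚ_[l] (AlgebraicClosure ℚ_[l])) - 1) * (e b).map i ≠ 0)
    -- the conditions on `F` and on the dimensions
    (part : ∀ b (k : ℕ) (c : (F →+* Ω) → Option (Fin k)) (A : Fin k → ℕ), 2 ≤ k →
      MumU D j (cl b = .s) (ub b) (e b) (e (bar b)) F (h b) c A → Big (cl b) (e b).rank A →
      (e b).rank ≠ ∏ x, A x)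
    (two : ∀ b (k : ℕ), 3 ≤ k → (e b).rank = 2 ^ k →
      (cl b = .s → 4 ≤ k → Gen1 ρ ∧ ¬ (5 ≤ k ∧ (k % 4 = 1 ∨ k % 4 = 2))) ∧
      (cl b = .o → Gen1 ρ ∧ (k % 4 = 1 ∨ k % 4 = 2)))
    (binom : ∀ b (k : ℕ), (cl b = .s → 3 ≤ k ∧ Odd k) → (cl b = .o → 4 ≤ k ∧ Even k) →
      cl b ≠ .n → (e b).rank = k.centralBinom → Nonempty (F →+* ℝ) ∧ HTRat F ρ σ)
    (twon : ∀ b, cl b = .n → (∀ τ, h b τ = 0 ∨ h b τ = (e b).rank ∨ 2 * h b τ = (e b).rank) →
      ∀ k : ℕ, 4 ≤ k → Even k → (e b).rank ≠ 2 ^ k)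
    (bin : ∀ b, cl b = .n → (∃ τ, h b τ ≠ 0 ∧ h b τ ≠ (e b).rank ∧ 2 * h b τ ≠ (e b).rank) →
      IsEmpty (F →+* ℝ) → ∀ N k : ℕ, 2 ≤ k → k + 2 ≤ N → (e b).rank = N.choose k →
        ∃ τ, h b τ ≠ 0 ∧ h b τ ≠ (e b).rank ∧ h b τ ≠ (N - 1).choose k ∧
          h b τ ≠ (N - 1).choose (k - 1))
    -- the conditions on the pairs of components
    (six : ∀ b c, cl b = .o → cl c = .n → (e b).rank = 6 → (e c).rank = 4 →
      (∃ τ, h c τ ≠ 1 ∧ h c τ ≠ 3) ∨ NoSix j (χ b) (χ c))
    (tw : ∀ b c, cl b = .n → cl c = .n → c ≠ b → c ≠ bar b → 2 ≤ (e b).rank → (e c).rank = (e b).rank →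
      (∀ τ, h b τ = h c τ) ∨ (∃ τ, h b τ ≠ h c τ ∧
        ¬ ((h b τ = 0 ∨ h b τ = (e b).rank) ∧ (h c τ = 0 ∨ h c τ = (e b).rank))) ∨
      NoProp j (χ b) (χ c)) :
    ∀ (l : ℕ) [Fact l.Prime] (i : M →+* AlgebraicClosure ℚ_[l]), ∀ H : Subgroup (Ω ≃ₐ[F] Ω), H.FiniteIndex →
      monodromy (AlgebraicClosure ℚ_[l]) (ρ l) H =
        typeGrp (AlgebraicClosure ℚ_[l]) ψ D (fun b => (e b).map i) {n | ∃ τ : F →+* Ω, ∀ b, n b = h b τ} := by
  classical
  have hcl : IsAlgClosed Ω := IsAlgClosure.isAlgClosed F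
  have halgF : Algebra.IsAlgebraic F Ω := IsAlgClosure.isAlgebraic
  have halg : Algebra.IsAlgebraic ℚ Ω := Algebra.IsAlgebraic.trans ℚ F Ω
  have hfin : Finite (F →+* Ω) := inferInstance
  have : Fintype (F →+* Ω) := Fintype.ofFinite _
  obtain ⟨hd, hhd⟩ := exists_hd (j := j) hwp hwπ hdF hv h hdg
  obtain ⟨R, hR⟩ : ∃ R : Finset Ω, ∀ x, x ∈ R ↔ ∃ τ : F →+* Ω, τ (π : F) = x :=
    ⟨Finset.univ.image (fun τ : F →+* Ω => τ (π : F)), fun x => by
      rw [Finset.mem_image]
      simp⟩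
  obtain ⟨hroot, C₀⟩ := core5a_of hψ hψ0 D cl bar e u hspl j ρ cont lin sim semis commt gen S unr p w hwS hwp
    π hwπ hpos' hpe hcong hdF hdM σ hσ f hf weil χ mult char frob neat v hv φ μ ν frobp multp crys wa h hdg
    hd hhd ub N₀ hN₀ bad R hR
  have hex : ∀ P : Ω → Prop, (∃ r ∈ R, P r) ↔ ∃ τ : F →+* Ω, P (τ (π : F)) := by
    intro P
    constructor
    · rintro ⟨r, hr, h1⟩
      obtain ⟨τ, rfl⟩ := (hR r).1 hr
      exact ⟨τ, h1⟩
    · rintro ⟨τ, h1⟩
      exact ⟨_, (hR _).2 ⟨τ, rfl⟩, h1⟩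
  have hall : ∀ P : Ω → Prop, (∀ r ∈ R, P r) ↔ ∀ τ : F →+* Ω, P (τ (π : F)) := by
    intro P
    constructor
    · exact fun h1 τ => h1 _ ((hR _).2 ⟨τ, rfl⟩)
    · intro h1 r hr
      obtain ⟨τ, rfl⟩ := (hR r).1 hr
      exact h1 τ
  have C : Core5 ψ D cl bar e u ρ p σ (p : ℚ) χ φ μ ν v (inertia p v) j R
      ({l | l ∣ (∏ b, (e b).rank) * p} ∪ N₀ : Set ℕ) hd ub :=
    { toCore5a := C₀
      alt := fun b hb => by
        rw [hall, hex]
        simp only [hhd]
        exact alt b hb }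
  have key := C.final
    (fun b k c A hk hPD hbig => part b k _ A hk (mum5_of_part π weil (hroot b) hR (hhd b) hPD) hbig) two
    (fun b k h1 h2 h3 h4 => by
      obtain ⟨⟨τ₀⟩, N', hN', ht⟩ := binom b k h1 h2 h3 h4
      obtain ⟨c, T₀, hr⟩ := H86L.real_of4 (F := F) j τ₀ hψ hψ0 hpos hspl ρ σ p χ f weil hroot N' hN' ht
      exact ⟨c, T₀, N', hr⟩)
    (fun b hb h1 => twon b hb (by
      rw [hall] at h1
      simpa only [hhd] using h1))
    (fun b hb h1 => by
      rw [hex] at h1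
      simp only [hhd] at h1
      by_cases hreal : Nonempty (F →+* ℝ)
      · obtain ⟨c, hc, hlink⟩ := H86L.real_place5 (Ω := Ω) j hreal hψ hψ0 hpos hspl
        exact Or.inr ⟨c, algebraMap F Ω (π : F), (hR _).2 ⟨algebraMap F Ω, rfl⟩, hc _, hlink b⟩
      · refine Or.inl fun N k hk hkN hnk => ?_
        rw [hex]
        simp only [hhd]
        exact bin b hb h1 (not_nonempty_iff.1 hreal) N k hk hkN hnk)
    (fun b c hb hc h6 h4 => by
      rw [hex]
      simp only [hhd]
      exact six b c hb hc h6 h4)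
    (fun b c hb hc h1 h2 h3 h4 => by
      rw [hall, hex]
      simp only [hhd]
      exact tw b c hb hc h1 h2 h3 h4)
  intro l _ i H hH
  rw [key l i H hH]
  congr 1
  ext n
  show (∃ r ∈ R, ∀ b, n b = hd b r) ↔ ∃ τ : F →+* Ω, ∀ b, n b = h b τ
  rw [hex]
  simp only [hhd]

end Pool.Agent.H45U
end
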