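import Pool.Agent.Lib.H1M.RC.M022

/-!
# Project H49M, part B: rational forms of the Lie algebra (definitions)
-/

set_option autoImplicit false
set_option linter.unusedSectionVars false
namespace Pool.Agent.H49M
open Module Matrix Pool.Agent.H53Toric

variable {ι : Type*} [Fintype ι] [DecidableEq ι]


/-- The span over `K` of a space of rational matrices. -/
def ext (K : Type*) [Field K] [Algebra ℚ K] (g : Submodule ℚ (Matrix ι ι ℚ)) :
    Submodule K (Matrix ι ι K) :=
  Submodule.span K {X | ∃ Y ∈ g, X = Y.map (algebraMap ℚ K)}




section group

variable {L : Type*} [Field L] {G : Type*} [Group G]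

/-- The `K`-points of the identity component of the Zariski closure of the image of `ρ`: the
invertible matrices in the Zariski closure of `ρ H` for every subgroup `H` of finite index. -/
def idc (K : Type*) [Field K] [Algebra L K] (ρ : G →* Matrix.GeneralLinearGroup ι L) :
    Set (Matrix ι ι K) :=
  {x | x.det ≠ 0 ∧ ∀ H : Subgroup G, H.FiniteIndex → x ∈ zar (img K ρ H)}




end group

end Pool.Agent.H49M
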