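import Pool.Agent.Lib.H1M.RC.D_H76V_VC1
import Pool.Agent.Lib.H1M.RC.M042

/-!
# The group theoretic part: definitions

`S` is the image of a subgroup of finite index with irreducible Zariski closure, `zlie S` its Lie
algebra, `𝓗` a set of projectors whose one parameter groups generate, `φ` an element of the
closure (crystalline Frobenius).
-/

set_option autoImplicit false
set_option linter.unusedSectionVars false
namespace Pool.Agent.H76P
open Module Matrix Pool.Agent.H53Toric
open Pool.Agent.H76U (preL cmp Split4)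
open Pool.Agent.H76V (SH)
open Pool.Agent.H76T (Lc mem_Lc)

variable {ι : Type*} [Fintype ι] [DecidableEq ι] {K : Type*} [Field K]

/-- Assumptions on the closure of `S` and on `φ`. -/
structure PH (S : Set (Matrix ι ι K)) (J : Matrix ι ι K) (DD : Submodule K (Matrix ι ι K))
    (𝓗 : Set (Matrix ι ι K)) (φ φ' : Matrix ι ι K) : Prop where
  sh : SH S J DD (1 : Unit →* Matrix ι ι K) 𝓗
  Ssim : ∀ s ∈ S, ∃ c : K, sᵀ * J * s = c • J
  inv : φ * φ' = 1
  φD : ∀ d ∈ DD, φ * d = d * φ
  cnj : ∀ A ∈ zlie S, φ * A * φ' ∈ zlie S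
  dgb : Diagonalisable φ
  torus : ∀ X ∈ zlie S, X * φ = φ * X → X ∈ zlie {m | ∃ n : ℕ, m = φ ^ n}
  torgen : ∃ N : ℕ, N ≠ 0 ∧ φ ^ N ∈ zar (Submonoid.closure {m | ∃ h ∈ 𝓗, h * φ = φ * h ∧
    ∃ t : K, t ≠ 0 ∧ m = 1 + (t - 1) • h} : Set (Matrix ι ι K))

/-- The columns of `P` are eigenvectors of `φ` with different eigenvalues. -/
structure EC (φ : Matrix ι ι K) {n : ℕ} (P : Matrix ι (Fin n) K) (d : Fin n → K) : Prop where
  eig : φ * P = P * Matrix.diagonal d
  inj : Function.Injective d
  ne : ∀ k, d k ≠ 0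

/-- The function `f` satisfies all linear relations which come from multiplicative relations
between the `d k`. -/
def LogLin {κ : Type*} [Fintype κ] (d f : κ → K) : Prop :=
  ∀ m : κ → ℤ, ∏ k, d k ^ m k = 1 → ∑ k, (m k : K) * f k = 0



/-- The projectors different from `0` and `1` whose one parameter groups have values in the closure. -/
def properProj {L : Type*} [Field L] (K : Type*) [Field K] [Algebra L K] {G : Type*} [Group G]
    (ρ : G →* Matrix.GeneralLinearGroup ι L) : Set (Matrix ι ι K) :=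
  {h | h ∈ hodgeProj (img K ρ ⊤) ∧ h ≠ 0 ∧ h ≠ 1}

/-- The number `c` is an eigenvalue of `φ` on the range of the idempotent `p`. -/
def EigOn (φ p : Matrix ι ι K) (c : K) : Prop :=
  ∃ z : ι → K, z ≠ 0 ∧ p *ᵥ z = z ∧ φ *ᵥ z = c • z


end Pool.Agent.H76P
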