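import Mathlib

/-! Merged copies (to shorten the build) of Lib.H53Toric.Core1, Lib.H53Toric.Core2, Lib.H53Toric.Core3. -/

-- from Lib.H53Toric.Core1
section

/-!
# Lie algebras of operators: trace form, square zero elements
-/

set_option autoImplicit false
set_option linter.unusedSectionVars false

namespace Pool.Agent.H53Toric

open Module

variable {K : Type*} [Field K] {V : Type*} [AddCommGroup V] [Module K V]

/-- A linear space of operators closed under commutators. -/
def IsLie (g : Submodule K (Module.End K V)) : Prop :=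
  ∀ X ∈ g, ∀ Y ∈ g, X * Y - Y * X ∈ g

/-- No proper nonzero subspace is stable under `g`. -/
def Irr (g : Submodule K (Module.End K V)) : Prop :=
  ∀ W : Submodule K V, (∀ X ∈ g, ∀ w ∈ W, X w ∈ W) → W = ⊥ ∨ W = ⊤

section basic

variable {g : Submodule K (Module.End K V)}

theorem IsLie.sandwich [CharZero K] (hg : IsLie g) {Z X : Module.End K V} (hZ : Z ∈ g)
    (hZ2 : Z * Z = 0) (hX : X ∈ g) : Z * X * Z ∈ g := by
  have h1 := hg Z hZ _ (hg Z hZ X hX)
  have e : Z * (Z * X - X * Z) - (Z * X - X * Z) * Z = (-2 : K) • (Z * X * Z) := by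
    have : Z * (Z * X - X * Z) - (Z * X - X * Z) * Z =
        (Z * Z) * X - Z * X * Z - Z * X * Z + X * (Z * Z) := by noncomm_ring
    rw [this, hZ2]
    simp only [zero_mul, mul_zero, zero_sub, add_zero]
    module
  rw [e] at h1
  have h2 := g.smul_mem (-2 : K)⁻¹ h1
  rwa [smul_smul, inv_mul_cancel₀ (by norm_num), one_smul] at h2

/-- The component of weight one with respect to an involution. -/
theorem IsLie.plus [CharZero K] (hg : IsLie g) {y X : Module.End K V} (hy : y ∈ g)
    (hy2 : y * y = 1) (hX : X ∈ g) : (1 + y) * X * (1 - y) ∈ g := by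
  have h1 := hg y hy X hX
  have h2 := hg y hy _ h1
  have e : (1 + y) * X * (1 - y) = (y * X - X * y) +
      (1 / 2 : K) • (y * (y * X - X * y) - (y * X - X * y) * y) := by
    have : y * (y * X - X * y) - (y * X - X * y) * y =
        (y * y) * X - y * X * y - y * X * y + X * (y * y) := by noncomm_ring
    rw [this, hy2]
    have : (1 + y) * X * (1 - y) = X + y * X - X * y - y * X * y := by noncomm_ring
    rw [this, one_mul, mul_one]
    module
  rw [e]
  exact g.add_mem h1 (g.smul_mem _ h2)

theorem IsLie.minus [CharZero K] (hg : IsLie g) {y X : Module.End K V} (hy : y ∈ g)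
    (hy2 : y * y = 1) (hX : X ∈ g) : (1 - y) * X * (1 + y) ∈ g := by
  have h1 := hg y hy X hX
  have h2 := hg y hy _ h1
  have e : (1 - y) * X * (1 + y) = (-(1 : K)) • (y * X - X * y) +
      (1 / 2 : K) • (y * (y * X - X * y) - (y * X - X * y) * y) := by
    have : y * (y * X - X * y) - (y * X - X * y) * y =
        (y * y) * X - y * X * y - y * X * y + X * (y * y) := by noncomm_ring
    rw [this, hy2]
    have : (1 - y) * X * (1 + y) = X - y * X + X * y - y * X * y := by noncomm_ring
    rw [this, one_mul, mul_one]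
    module
  rw [e]
  exact g.add_mem (g.smul_mem _ h1) (g.smul_mem _ h2)

end basic

/-! ### The Lie algebra -/

attribute [local instance 100] LieRing.ofAssociativeRing

/-- The Lie subalgebra. -/
def lieSub (g : Submodule K (Module.End K V)) (hg : IsLie g) :
    LieSubalgebra K (Module.End K V) :=
  { g with lie_mem' := fun {x y} hx hy => hg x hx y hy }


variable [IsAlgClosed K] [CharZero K] [FiniteDimensional K V] [Nontrivial V]

theorem lieSub_irr (g : Submodule K (Module.End K V)) (hg : IsLie g) (hirr : Irr g) :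
    LieModule.IsIrreducible K (lieSub g hg) V := by
  apply LieModule.IsIrreducible.mk
  intro N hN
  rcases hirr N.toSubmodule (fun X hX w hw => N.lie_mem (x := (⟨X, hX⟩ : lieSub g hg)) hw)
    with h | h
  · exact absurd ((LieSubmodule.toSubmodule_eq_bot N).1 h) hN
  · exact (LieSubmodule.toSubmodule_eq_top N).1 h

theorem lieSub_faithful (g : Submodule K (Module.End K V)) (hg : IsLie g) :
    LieModule.IsFaithful K (lieSub g hg) V := by
  constructor
  intro x y hxy
  apply Subtype.ext
  ext v
  have := LinearMap.congr_fun hxy v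
  exact this

theorem lieSub_trivialRadical (g : Submodule K (Module.End K V)) (hg : IsLie g) (hirr : Irr g)
    (htr : ∀ X ∈ g, LinearMap.trace K V X = 0) :
    LieAlgebra.HasTrivialRadical K (lieSub g hg) := by
  have h1 := lieSub_irr g hg hirr
  have h2 := lieSub_faithful g hg
  exact LieAlgebra.hasTrivialRadical_of_isIrreducible_of_isFaithful K (lieSub g hg) V
    (fun x => htr x.1 x.2)

/-- The radical of the trace form, as an ideal. -/
def trIdeal (g : Submodule K (Module.End K V)) (hg : IsLie g) : LieIdeal K (lieSub g hg) where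
  carrier := {x | ∀ y : lieSub g hg, LinearMap.trace K V (x.1 * y.1) = 0}
  add_mem' := by
    intro a b ha hb y
    change LinearMap.trace K V ((a.1 + b.1) * y.1) = 0
    rw [add_mul, map_add, ha y, hb y, add_zero]
  zero_mem' := by
    intro y
    simp
  smul_mem' := by
    intro c x hx y
    change LinearMap.trace K V ((c • x.1) * y.1) = 0
    rw [smul_mul_assoc, map_smul, hx y, smul_zero]
  lie_mem := by
    intro z x hx y
    have h1 := hx ⁅y, z⁆
    have e : (⁅z, x⁆ : lieSub g hg).1 * y.1 = z.1 * (x.1 * y.1) - x.1 * z.1 * y.1 := by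
      change (z.1 * x.1 - x.1 * z.1) * y.1 = _
      noncomm_ring
    have e2 : x.1 * (⁅y, z⁆ : lieSub g hg).1 = (x.1 * y.1) * z.1 - x.1 * z.1 * y.1 := by
      change x.1 * (y.1 * z.1 - z.1 * y.1) = _
      noncomm_ring
    rw [e2, map_sub] at h1
    change LinearMap.trace K V ((⁅z, x⁆ : lieSub g hg).1 * y.1) = 0
    rw [e, map_sub, LinearMap.trace_mul_comm]
    exact h1

theorem trIdeal_eq_bot (g : Submodule K (Module.End K V)) (hg : IsLie g) (hirr : Irr g)
    (htr : ∀ X ∈ g, LinearMap.trace K V X = 0) : trIdeal g hg = ⊥ := by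
  have hR := lieSub_trivialRadical g hg hirr htr
  set I : LieIdeal K (lieSub g hg) := trIdeal g hg with hI
  have tf : LieModule.traceForm K I V = 0 := by
    ext ⟨x, hx⟩ ⟨y, hy⟩
    exact hx y
  have nil := LieModule.isNilpotent_derivedSeries_of_traceForm_eq_zero tf
  have hD : LieRing.IsNilpotent (⁅I, I⁆ : LieIdeal K (lieSub g hg)) := by
    rw [LieAlgebra.isNilpotent_iff_forall (R := K)]
    rintro ⟨x, hx⟩
    apply LieSubalgebra.isNilpotent_ad_of_isNilpotent_ad
      ((⁅I, I⁆ : LieIdeal K (lieSub g hg)) : LieSubalgebra K (lieSub g hg)) (x := ⟨x, hx⟩)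
    apply LieAlgebra.isNilpotent_ad_of_isNilpotent
    have h1 := (LieModule.isNilpotent_iff_forall' (R := K)).mp nil
      ⟨⟨x, LieSubmodule.lie_le_left I I hx⟩, by
        rwa [LieIdeal.derivedSeries_eq_derivedSeriesOfIdeal_comap, LieIdeal.mem_comap]⟩
    exact h1
  have hDs : LieAlgebra.IsSolvable (⁅I, I⁆ : LieIdeal K (lieSub g hg)) := inferInstance
  have hD0 : (⁅I, I⁆ : LieIdeal K (lieSub g hg)) = ⊥ := by
    have := (LieAlgebra.LieIdeal.solvable_iff_le_radical K (lieSub g hg) _).1 hDs
    rwa [LieAlgebra.HasTrivialRadical.radical_eq_bot, le_bot_iff] at this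
  have hIs : LieAlgebra.IsSolvable I := by
    apply LieAlgebra.IsSolvable.mk (R := K) (k := 1)
    rw [LieIdeal.derivedSeries_eq_bot_iff]
    exact hD0
  have := (LieAlgebra.LieIdeal.solvable_iff_le_radical K (lieSub g hg) _).1 hIs
  rwa [LieAlgebra.HasTrivialRadical.radical_eq_bot, le_bot_iff] at this

theorem trace_nondeg {g : Submodule K (Module.End K V)} (hg : IsLie g) (hirr : Irr g)
    (htr : ∀ X ∈ g, LinearMap.trace K V X = 0) {X : Module.End K V} (hX : X ∈ g)
    (h : ∀ Y ∈ g, LinearMap.trace K V (X * Y) = 0) : X = 0 := by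
  have h1 : (⟨X, hX⟩ : lieSub g hg) ∈ trIdeal g hg := fun y => h y.1 y.2
  rw [trIdeal_eq_bot g hg hirr htr] at h1
  have := (LieSubmodule.mem_bot _).1 h1
  exact congrArg Subtype.val this


theorem exists_trace_repr {g : Submodule K (Module.End K V)} (hg : IsLie g) (hirr : Irr g)
    (htr : ∀ X ∈ g, LinearMap.trace K V X = 0) (f : g →ₗ[K] K) :
    ∃ Z ∈ g, ∀ X : g, f X = LinearMap.trace K V (Z * X.1) := by
  let T : g →ₗ[K] (g →ₗ[K] K) :=
    { toFun := fun Z => (LinearMap.trace K V) ∘ₗ (LinearMap.mulLeft K Z.1) ∘ₗ g.subtype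
      map_add' := by
        intro a b
        ext x
        simp [add_mul]
      map_smul' := by
        intro c a
        ext x
        simp }
  have hT : ∀ Z X : g, T Z X = LinearMap.trace K V (Z.1 * X.1) := fun Z X => rfl
  have hinj : Function.Injective T := by
    rw [injective_iff_map_eq_zero]
    intro Z hZ
    apply Subtype.ext
    apply trace_nondeg hg hirr htr Z.2
    intro Y hY
    have := LinearMap.congr_fun hZ ⟨Y, hY⟩
    rw [hT] at this
    exact this
  have hsurj : Function.Surjective T :=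
    (LinearMap.injective_iff_surjective_of_finrank_eq_finrank
      (Subspace.dual_finrank_eq (K := K) (V := g)).symm).1 hinj
  obtain ⟨Z, hZ⟩ := hsurj f
  exact ⟨Z.1, Z.2, fun X => by rw [← hZ, hT]⟩

/-- A square zero element of `g` has a partner. -/
theorem exists_partner {g : Submodule K (Module.End K V)} (hg : IsLie g) (hirr : Irr g)
    (htr : ∀ X ∈ g, LinearMap.trace K V X = 0) {N : Module.End K V} (hN : N ∈ g)
    (hN2 : N * N = 0) : ∃ X ∈ g, N * X * N = N := by
  by_contra hcon
  push Not at hcon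
  let φ : g →ₗ[K] g :=
    { toFun := fun X => ⟨N * X.1 * N, hg.sandwich hN hN2 X.2⟩
      map_add' := by
        intro a b
        apply Subtype.ext
        simp [mul_add, add_mul]
      map_smul' := by
        intro c a
        apply Subtype.ext
        simp }
  have hnot : (⟨N, hN⟩ : g) ∉ LinearMap.range φ := by
    rintro ⟨X, hX⟩
    exact hcon X.1 X.2 (congrArg Subtype.val hX)
  obtain ⟨f, hf1, hf2⟩ := Submodule.exists_le_ker_of_notMem hnot
  obtain ⟨Z, hZ, hfZ⟩ := exists_trace_repr hg hirr htr f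
  have h1 : N * Z * N = 0 := by
    apply trace_nondeg hg hirr htr (hg.sandwich hN hN2 hZ)
    intro Y hY
    have h2 := hf2 (LinearMap.mem_range_self φ ⟨Y, hY⟩)
    rw [LinearMap.mem_ker, hfZ] at h2
    have h3 : Z * (N * Y * N) = (Z * N * Y) * N := by noncomm_ring
    change LinearMap.trace K V (Z * (N * Y * N)) = 0 at h2
    rw [h3, LinearMap.trace_mul_comm] at h2
    rw [← h2]
    congr 1
  have h4 : IsNilpotent (Z * N) := ⟨2, by
    rw [pow_two]
    have : Z * N * (Z * N) = Z * (N * Z * N) := by noncomm_ring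
    rw [this, h1, mul_zero]⟩
  have h5 := (LinearMap.isNilpotent_trace_of_isNilpotent h4).eq_zero
  exact hf1 (by rw [hfZ]; exact h5)

end Pool.Agent.H53Toric
end

-- from Lib.H53Toric.Core2
section

/-!
# Reduction to an extremal element of odd rank
-/

set_option autoImplicit false
set_option linter.unusedSectionVars false
namespace Pool.Agent.H53Toric
open Module Polynomial
attribute [local instance 100] LieRing.ofAssociativeRing
variable {K : Type*} [Field K] {V : Type*} [AddCommGroup V] [Module K V]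

/-- The Fitting idempotent of an operator, as a polynomial without constant term. -/
theorem fitting [FiniteDimensional K V] (b : Module.End K V) :
    ∃ p : K[X], ∃ k : ℕ, (aeval b (X * p)) * (aeval b (X * p)) = aeval b (X * p) ∧
      b ^ k * aeval b (X * p) = b ^ k := by
  have hb : IsIntegral K b := Algebra.IsIntegral.isIntegral b
  have hm : minpoly K b ≠ 0 := minpoly.ne_zero hb
  obtain ⟨q, hq, hnd⟩ := Polynomial.exists_eq_pow_rootMultiplicity_mul_and_not_dvd
    (minpoly K b) hm 0
  set k := (minpoly K b).rootMultiplicity 0 with hk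
  rw [map_zero, sub_zero] at hq hnd
  have hcop : IsCoprime (X ^ (k + 1)) q :=
    IsCoprime.pow_left ((Polynomial.irreducible_X.coprime_iff_not_dvd).2 hnd)
  obtain ⟨u, v, huv⟩ := hcop
  have hz : aeval b (X ^ k * q) = 0 := by
    rw [← hq]; exact minpoly.aeval K b
  refine ⟨u * X ^ k, k, ?_, ?_⟩
  · have e1 : (X * (u * X ^ k)) * (X * (u * X ^ k)) =
        X * (u * X ^ k) - (X * u * v) * (X ^ k * q) := by
      have : v * q = 1 - u * X ^ (k + 1) := by rw [← huv]; ring
      calc (X * (u * X ^ k)) * (X * (u * X ^ k)) =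
          X * (u * X ^ k) - (X * u) * X ^ k * (1 - u * X ^ (k + 1)) := by ring
        _ = _ := by rw [← this]; ring
    rw [← map_mul, e1, map_sub, map_mul _ (X * u * v), hz, mul_zero, sub_zero]
  · have e1 : X ^ k * (X * (u * X ^ k)) = X ^ k - v * (X ^ k * q) := by
      have : v * q = 1 - u * X ^ (k + 1) := by rw [← huv]; ring
      calc X ^ k * (X * (u * X ^ k)) =
          X ^ k - X ^ k * (1 - u * X ^ (k + 1)) := by ring
        _ = _ := by rw [← this]; ring
    have e2 : b ^ k = aeval b ((X : K[X]) ^ k) := by simp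
    rw [e2, ← map_mul, e1, map_sub, map_mul _ v, hz, mul_zero, sub_zero]

/-- The rank of an idempotent is its trace. -/
theorem trace_idem [FiniteDimensional K V] {f : Module.End K V} (hf : f * f = f) :
    LinearMap.trace K V f = (finrank K (LinearMap.range f) : K) := by
  have h : LinearMap.IsProj (LinearMap.range f) f :=
    (LinearMap.isProj_range_iff_isIdempotentElem f).2 hf
  exact h.trace

theorem rank_eq_of_dvd [FiniteDimensional K V] {a b c d : Module.End K V} (h1 : a = b * c)
    (h2 : b = a * d) : finrank K (LinearMap.range a) = finrank K (LinearMap.range b) := by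
  apply le_antisymm
  · apply Submodule.finrank_mono
    rw [h1]
    exact LinearMap.range_comp_le_range _ _
  · apply Submodule.finrank_mono
    rw [h2]
    exact LinearMap.range_comp_le_range _ _

/-- The Jordan algebra attached to `N`. -/
def JJ (g : Submodule K (Module.End K V)) (N e : Module.End K V) :
    Submodule K (Module.End K V) where
  carrier := {a | e * a = a ∧ a * e = a ∧ a * N ∈ g}
  add_mem' := by
    rintro a b ⟨h1, h2, h3⟩ ⟨h4, h5, h6⟩
    exact ⟨by rw [mul_add, h1, h4], by rw [add_mul, h2, h5], by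
      rw [add_mul]; exact g.add_mem h3 h6⟩
  zero_mem' := by simp
  smul_mem' := by
    rintro c a ⟨h1, h2, h3⟩
    exact ⟨by rw [mul_smul_comm, h1], by rw [smul_mul_assoc, h2], by
      rw [smul_mul_assoc]; exact g.smul_mem c h3⟩


section

variable [CharZero K] {g : Submodule K (Module.End K V)} (hg : IsLie g)
  {N M : Module.End K V} (hN : N ∈ g) (hM : M ∈ g) (hN2 : N * N = 0) (hNMN : N * M * N = N)

include hN2 in
theorem JJ_N_mul {a : Module.End K V} (ha : a ∈ JJ g N (N * M)) : N * a = 0 := by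
  rw [← ha.1]
  calc N * (N * M * a) = (N * N) * (M * a) := by noncomm_ring
    _ = 0 := by rw [hN2, zero_mul]

include hg hM hN2 in
theorem JJ_sq {a : Module.End K V} (ha : a ∈ JJ g N (N * M)) : a * a ∈ JJ g N (N * M) := by
  refine ⟨by rw [← mul_assoc, ha.1], by rw [mul_assoc, ha.2.1], ?_⟩
  have h1 : (a * N) * (a * N) = 0 := by
    calc (a * N) * (a * N) = a * (N * a) * N := by noncomm_ring
      _ = 0 := by rw [JJ_N_mul hN2 ha, mul_zero, zero_mul]
  have h2 := hg.sandwich ha.2.2 h1 hM
  have h3 : a * N * M * (a * N) = a * a * N := by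
    calc a * N * M * (a * N) = (a * (N * M)) * a * N := by noncomm_ring
      _ = a * a * N := by rw [ha.2.1]
  rwa [h3] at h2

include hg hM hN2 in
theorem JJ_jordan {a b : Module.End K V} (ha : a ∈ JJ g N (N * M))
    (hb : b ∈ JJ g N (N * M)) : a * b + b * a ∈ JJ g N (N * M) := by
  have h := (JJ g N (N * M)).sub_mem ((JJ g N (N * M)).sub_mem
    (JJ_sq hg hM hN2 ((JJ g N (N * M)).add_mem ha hb)) (JJ_sq hg hM hN2 ha))
    (JJ_sq hg hM hN2 hb)
  have e : (a + b) * (a + b) - a * a - b * b = a * b + b * a := by noncomm_ring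
  rwa [e] at h

include hg hM hN2 in
theorem JJ_pow {a : Module.End K V} (ha : a ∈ JJ g N (N * M)) (n : ℕ) :
    a ^ (n + 1) ∈ JJ g N (N * M) := by
  induction n with
  | zero => simpa using ha
  | succ n ih =>
    have h := JJ_jordan hg hM hN2 ha ih
    have e : a * a ^ (n + 1) + a ^ (n + 1) * a = (2 : K) • a ^ (n + 1 + 1) := by
      rw [← pow_succ, ← pow_succ']
      module
    rw [e] at h
    have h2 := (JJ g N (N * M)).smul_mem (2 : K)⁻¹ h
    rwa [smul_smul, inv_mul_cancel₀ (by norm_num), one_smul] at h2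

include hg hM hN2 in
theorem JJ_aeval {a : Module.End K V} (ha : a ∈ JJ g N (N * M)) (p : K[X]) :
    aeval a (X * p) ∈ JJ g N (N * M) := by
  induction p using Polynomial.induction_on' with
  | add p q hp hq =>
    rw [mul_add, map_add]
    exact (JJ g N (N * M)).add_mem hp hq
  | monomial n c =>
    have e : aeval a (X * monomial n c) = c • a ^ (n + 1) := by
      rw [map_mul, aeval_X, aeval_monomial, pow_succ', Algebra.algebraMap_eq_smul_one]
      simp
    rw [e]
    exact (JJ g N (N * M)).smul_mem _ (JJ_pow hg hM hN2 ha n)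

include hg hN hN2 hNMN in
theorem JJ_of_mem {X : Module.End K V} (hX : X ∈ g) : N * X * N * M ∈ JJ g N (N * M) := by
  refine ⟨?_, ?_, ?_⟩
  · calc N * M * (N * X * N * M) = (N * M * N) * X * N * M := by noncomm_ring
      _ = N * X * N * M := by rw [hNMN]
  · calc N * X * N * M * (N * M) = N * X * (N * M * N) * M := by noncomm_ring
      _ = N * X * N * M := by rw [hNMN]
  · have : N * X * N * M * N = N * X * (N * M * N) := by noncomm_ring
    rw [this, hNMN]
    exact hg.sandwich hN hN2 hX

/-- If all elements of `J` are scalar plus nilpotent, then `J` is the line of `e`. -/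
theorem JJ_scalar [IsAlgClosed K] [FiniteDimensional K V] [Nontrivial V] (hirr : Irr g)
    (htr : ∀ X ∈ g, LinearMap.trace K V X = 0) (hN0 : N ≠ 0)
    (hg : IsLie g) (hN : N ∈ g) (hM : M ∈ g) (hN2 : N * N = 0) (hNMN : N * M * N = N)
    (hall : ∀ a ∈ JJ g N (N * M), ∃ t : K, IsNilpotent (a - t • (N * M))) :
    ∀ a ∈ JJ g N (N * M), ∃ t : K, a = t • (N * M) := by
  have hee : (N * M) * (N * M) = N * M := by
    calc (N * M) * (N * M) = (N * M * N) * M := by noncomm_ring
      _ = N * M := by rw [hNMN]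
  have heN : N * M * N = N := hNMN
  have heJ : N * M ∈ JJ g N (N * M) := ⟨hee, hee, by rw [hNMN]; exact hN⟩
  have he0 : N * M ≠ 0 := by
    intro h
    rw [h, zero_mul] at hNMN
    exact hN0 hNMN.symm
  have hre : (finrank K (LinearMap.range (N * M)) : K) ≠ 0 := by
    rw [Nat.cast_ne_zero]
    intro h
    apply he0
    rw [← LinearMap.range_eq_bot]
    exact Submodule.finrank_eq_zero.1 h
  have htre := trace_idem hee
  -- elements of trace zero are nilpotent
  have hnil : ∀ a ∈ JJ g N (N * M), LinearMap.trace K V a = 0 → IsNilpotent a := by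
    intro a ha hta
    obtain ⟨t, ht⟩ := hall a ha
    have h1 := (LinearMap.isNilpotent_trace_of_isNilpotent ht).eq_zero
    rw [map_sub, hta, map_smul, htre, zero_sub, neg_eq_zero, smul_eq_mul,
      mul_eq_zero] at h1
    rcases h1 with h1 | h1
    · rwa [h1, zero_smul, sub_zero] at ht
    · exact absurd h1 hre
  have hsq : ∀ a ∈ JJ g N (N * M), LinearMap.trace K V a = 0 →
      LinearMap.trace K V (a * a) = 0 := by
    intro a ha hta
    have h1 := hnil a ha hta
    have h2 : IsNilpotent (a * a) := (Commute.refl a).isNilpotent_mul_left h1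
    exact (LinearMap.isNilpotent_trace_of_isNilpotent h2).eq_zero
  have hpair : ∀ a ∈ JJ g N (N * M), ∀ b ∈ JJ g N (N * M), LinearMap.trace K V a = 0 →
      LinearMap.trace K V b = 0 → LinearMap.trace K V (a * b) = 0 := by
    intro a ha b hb hta htb
    have h1 := hsq _ ((JJ g N (N * M)).add_mem ha hb) (by rw [map_add, hta, htb, add_zero])
    have h2 := hsq a ha hta
    have h3 := hsq b hb htb
    have e : (a + b) * (a + b) = a * a + a * b + (b * a + b * b) := by noncomm_ring
    rw [e, map_add, map_add, map_add, h2, h3, LinearMap.trace_mul_comm K b a, zero_add,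
      add_zero] at h1
    have h4 : (2 : K) * LinearMap.trace K V (a * b) = 0 := by rw [two_mul]; exact h1
    exact (mul_eq_zero.1 h4).resolve_left (by norm_num)
  -- nilpotent elements vanish
  have hzero : ∀ b ∈ JJ g N (N * M), LinearMap.trace K V b = 0 → b = 0 := by
    intro b hb htb
    have h1 : b * N = 0 := by
      apply trace_nondeg hg hirr htr hb.2.2
      intro X hX
      have e1 : N * X * b = (N * X * N * M) * b := by
        calc N * X * b = N * X * (N * M * b) := by rw [hb.1]
          _ = _ := by noncomm_ring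
      have e2 : LinearMap.trace K V (b * N * X) =
          LinearMap.trace K V ((N * X * N * M) * b) := by
        rw [← e1, LinearMap.trace_mul_comm K (N * X) b]
        congr 1
      rw [e2]
      have hc := JJ_of_mem hg hN hN2 hNMN hX
      set c := N * X * N * M with hcdef
      set s : K := LinearMap.trace K V c / (finrank K (LinearMap.range (N * M)) : K)
        with hs
      have h2 : LinearMap.trace K V (c - s • (N * M)) = 0 := by
        rw [map_sub, map_smul, htre, smul_eq_mul, hs, div_mul_cancel₀ _ hre, sub_self]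
      have h3 := hpair _ ((JJ g N (N * M)).sub_mem hc
        ((JJ g N (N * M)).smul_mem s heJ)) b hb h2 htb
      have e3 : c * b = (c - s • (N * M)) * b + s • b := by
        rw [sub_mul, smul_mul_assoc, hb.1, sub_add_cancel]
      rw [e3, map_add, h3, map_smul, htb, smul_zero, add_zero]
    calc b = b * (N * M) := hb.2.1.symm
      _ = (b * N) * M := by rw [mul_assoc]
      _ = 0 := by rw [h1, zero_mul]
  intro a ha
  refine ⟨LinearMap.trace K V a / (finrank K (LinearMap.range (N * M)) : K), ?_⟩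
  rw [← sub_eq_zero]
  apply hzero _ ((JJ g N (N * M)).sub_mem ha ((JJ g N (N * M)).smul_mem _ heJ))
  rw [map_sub, map_smul, htre, smul_eq_mul, div_mul_cancel₀ _ hre, sub_self]

end

variable [IsAlgClosed K] [CharZero K] [FiniteDimensional K V] [Nontrivial V]

/-- Reduction to an extremal element of odd rank. -/
theorem exists_extremal {g : Submodule K (Module.End K V)} (hg : IsLie g) (hirr : Irr g)
    (htr : ∀ X ∈ g, LinearMap.trace K V X = 0) (n : ℕ) :
    ∀ N ∈ g, N * N = 0 → finrank K (LinearMap.range N) = n → Odd n →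
    ∃ N' ∈ g, N' * N' = 0 ∧ Odd (finrank K (LinearMap.range N')) ∧
      ∀ X ∈ g, ∃ c : K, N' * X * N' = c • N' := by
  induction n using Nat.strong_induction_on with
  | _ n ih =>
  intro N hN hN2 hrk hodd
  obtain ⟨M, hM, hNMN⟩ := exists_partner hg hirr htr hN hN2
  have hN0 : N ≠ 0 := by
    rintro rfl
    rw [LinearMap.range_zero, finrank_bot] at hrk
    rw [← hrk] at hodd
    exact absurd hodd (by decide)
  have hee : (N * M) * (N * M) = N * M := by
    calc (N * M) * (N * M) = (N * M * N) * M := by noncomm_ring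
      _ = N * M := by rw [hNMN]
  have heJ : N * M ∈ JJ g N (N * M) := ⟨hee, hee, by rw [hNMN]; exact hN⟩
  have he0 : N * M ≠ 0 := by
    intro h
    rw [h, zero_mul] at hNMN
    exact hN0 hNMN.symm
  have hrkN : finrank K (LinearMap.range (N * M)) = n := by
    rw [← hrk]
    exact rank_eq_of_dvd (a := N * M) (b := N) rfl hNMN.symm
  by_cases hf : ∃ f ∈ JJ g N (N * M), f * f = f ∧ f ≠ 0 ∧ f ≠ N * M
  · obtain ⟨f, hfJ, hff, hf0, hfe⟩ := hf
    -- both parts
    have hpart : ∀ f ∈ JJ g N (N * M), f * f = f →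
        (f * N) * (f * N) = 0 ∧ (finrank K (LinearMap.range (f * N)) : K) =
          LinearMap.trace K V f := by
      intro f hfJ hff
      refine ⟨?_, ?_⟩
      · calc (f * N) * (f * N) = f * (N * f) * N := by noncomm_ring
          _ = 0 := by rw [JJ_N_mul hN2 hfJ, mul_zero, zero_mul]
      · rw [trace_idem hff]
        congr 1
        apply rank_eq_of_dvd (c := N) (d := M) rfl
        rw [mul_assoc, hfJ.2.1]
    have hf'J : N * M - f ∈ JJ g N (N * M) := (JJ g N (N * M)).sub_mem heJ hfJ
    have hff' : (N * M - f) * (N * M - f) = N * M - f := by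
      have : (N * M - f) * (N * M - f) = (N * M) * (N * M) - (N * M) * f - f * (N * M) + f * f := by
        noncomm_ring
      rw [this, hee, hfJ.1, hfJ.2.1, hff]
      abel
    obtain ⟨h1, h2⟩ := hpart f hfJ hff
    obtain ⟨h3, h4⟩ := hpart _ hf'J hff'
    have hsum : (finrank K (LinearMap.range (f * N)) : K) +
        (finrank K (LinearMap.range ((N * M - f) * N)) : K) = (n : K) := by
      rw [h2, h4, ← map_add, add_sub_cancel, trace_idem hee, hrkN]
    have hsum' : finrank K (LinearMap.range (f * N)) +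
        finrank K (LinearMap.range ((N * M - f) * N)) = n := by
      exact_mod_cast hsum
    have hne : ∀ f ∈ JJ g N (N * M), f ≠ 0 → 0 < finrank K (LinearMap.range (f * N)) := by
      intro f hfJ hf0
      rw [Nat.pos_iff_ne_zero]
      intro h
      have h0 := LinearMap.range_eq_bot.1 (Submodule.finrank_eq_zero.1 h)
      apply hf0
      rw [← hfJ.2.1, ← mul_assoc, h0, zero_mul]
    have hp1 := hne f hfJ hf0
    have hp2 := hne _ hf'J (by
      intro h
      exact hfe (sub_eq_zero.1 h).symm)
    rcases Nat.even_or_odd (finrank K (LinearMap.range (f * N))) with he | ho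
    · have ho : Odd (finrank K (LinearMap.range ((N * M - f) * N))) := by
        rw [← hsum', Nat.odd_add] at hodd
        by_contra hcon
        rw [Nat.not_odd_iff_even] at hcon
        exact (Nat.not_odd_iff_even.2 he) (hodd.2 hcon)
      exact ih _ (by omega) _ hf'J.2.2 h3 rfl ho
    · exact ih _ (by omega) _ hfJ.2.2 h1 rfl ho
  · -- extremal case
    refine ⟨N, hN, hN2, hrk ▸ hodd, ?_⟩
    have hall : ∀ a ∈ JJ g N (N * M), ∃ t : K, IsNilpotent (a - t • (N * M)) := by
      intro a ha
      -- an eigenvalue on the range of e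
      let W : Submodule K V := LinearMap.range (N * M)
      have hW : W ≠ ⊥ := by
        intro h
        exact he0 (LinearMap.range_eq_bot.1 h)
      have haW : ∀ x ∈ W, a x ∈ W := by
        intro x _
        refine ⟨a x, ?_⟩
        change (N * M * a) x = a x
        rw [ha.1]
      have : Nontrivial W := Submodule.nontrivial_iff_ne_bot.2 hW
      obtain ⟨t, ht⟩ := Module.End.exists_eigenvalue (a.restrict haW)
      obtain ⟨u, hu⟩ := ht.exists_hasEigenvector
      have hu1 : a u.1 = t • u.1 := by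
        have := hu.apply_eq_smul
        exact congrArg Subtype.val this
      have hu0 : u.1 ≠ 0 := by
        intro h
        exact hu.2 (Subtype.ext h)
      have heu : (N * M) u.1 = u.1 := by
        obtain ⟨v, hv⟩ := u.2
        rw [← hv]
        change (N * M * (N * M)) v = (N * M) v
        rw [hee]
      refine ⟨t, ?_⟩
      by_contra hnn
      have hb : a - t • (N * M) ∈ JJ g N (N * M) :=
        (JJ g N (N * M)).sub_mem ha ((JJ g N (N * M)).smul_mem t heJ)
      set b := a - t • (N * M) with hbdef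
      have hbu : b u.1 = 0 := by
        rw [hbdef, LinearMap.sub_apply, LinearMap.smul_apply, heu, hu1, sub_self]
      obtain ⟨p, k, hp1, hp2⟩ := fitting b
      apply hf
      refine ⟨aeval b (X * p), JJ_aeval hg hM hN2 hb p, hp1, ?_, ?_⟩
      · intro h
        apply hnn
        refine ⟨k, ?_⟩
        rw [← hp2, h, mul_zero]
      · intro h
        have h1 : (aeval b (X * p)) u.1 = 0 := by
          rw [mul_comm, map_mul, aeval_X]
          change (aeval b p) (b u.1) = 0
          rw [hbu, map_zero]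
        rw [h, heu] at h1
        exact hu0 h1
    intro X hX
    obtain ⟨t, ht⟩ := JJ_scalar hirr htr hN0 hg hN hM hN2 hNMN hall _
      (JJ_of_mem hg hN hN2 hNMN hX)
    refine ⟨t, ?_⟩
    calc N * X * N = N * X * (N * M * N) := by rw [hNMN]
      _ = (N * X * N * M) * N := by noncomm_ring
      _ = t • N := by rw [ht, smul_mul_assoc, hNMN]

end Pool.Agent.H53Toric
end

-- from Lib.H53Toric.Core3
section

/-!
# The Peirce decomposition attached to an extremal element
-/

set_option autoImplicit false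
set_option linter.unusedSectionVars false
namespace Pool.Agent.H53Toric
open Module Polynomial
attribute [local instance 100] LieRing.ofAssociativeRing
variable {K : Type*} [Field K] {V : Type*} [AddCommGroup V] [Module K V]

/-- The standing assumptions: an irreducible Lie algebra of skew operators, spanned by
involutions. -/
structure Setup (g : Submodule K (Module.End K V))
    (adj : Module.End K V →ₗ[K] Module.End K V) : Prop where
  lie : IsLie g
  irr : Irr g
  adj_mul : ∀ X Y, adj (X * Y) = adj Y * adj X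
  adj_adj : ∀ X, adj (adj X) = X
  adj_tr : ∀ X, LinearMap.trace K V (adj X) = LinearMap.trace K V X
  skew : ∀ X ∈ g, adj X = -X
  span : g ≤ Submodule.span K {y | y ∈ g ∧ y * y = 1}

theorem Setup.tr [CharZero K] {g : Submodule K (Module.End K V)}
    {adj : Module.End K V →ₗ[K] Module.End K V} (h : Setup g adj) :
    ∀ X ∈ g, LinearMap.trace K V X = 0 := by
  intro X hX
  have h1 := h.adj_tr X
  rw [h.skew X hX, map_neg] at h1
  have h2 : (2 : K) * LinearMap.trace K V X = 0 := by linear_combination -h1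
  exact (mul_eq_zero.1 h2).resolve_left (by norm_num)

theorem finrank_range_mul_le_left [FiniteDimensional K V] (a b : Module.End K V) :
    finrank K (LinearMap.range (a * b)) ≤ finrank K (LinearMap.range a) :=
  Submodule.finrank_mono (LinearMap.range_comp_le_range _ _)

theorem finrank_range_mul_le_right [FiniteDimensional K V] (a b : Module.End K V) :
    finrank K (LinearMap.range (a * b)) ≤ finrank K (LinearMap.range b) := by
  have : LinearMap.range (a * b) = (LinearMap.range b).map a := LinearMap.range_comp _ _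
  rw [this]
  exact Submodule.finrank_map_le _ _

variable [IsAlgClosed K] [CharZero K] [FiniteDimensional K V] [Nontrivial V]

theorem exists_frame {g : Submodule K (Module.End K V)}
    {adj : Module.End K V →ₗ[K] Module.End K V} (h : Setup g adj) {N : Module.End K V}
    (hN : N ∈ g) (hN2 : N * N = 0) (hodd : Odd (finrank K (LinearMap.range N)))
    (hext : ∀ X ∈ g, ∃ c : K, N * X * N = c • N) :
    ∃ y N M : Module.End K V, y ∈ g ∧ y * y = 1 ∧ N ∈ g ∧ M ∈ g ∧ y * N = N ∧ N * y = -N ∧
      y * M = -M ∧ M * y = M ∧ N * N = 0 ∧ M * M = 0 ∧ N * M * N = N ∧ M * N * M = M ∧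
      Odd (finrank K (LinearMap.range N)) ∧ (∀ X ∈ g, ∃ c : K, N * X * N = c • N) := by
  have hN0 : N ≠ 0 := by
    rintro rfl
    rw [LinearMap.range_zero, finrank_bot] at hodd
    exact absurd hodd (by decide)
  -- an involution which does not commute with N
  have hy : ∃ y ∈ g, y * y = 1 ∧ ∃ c : K, c ≠ 0 ∧ N * y * N = c • N := by
    by_contra hcon
    push Not at hcon
    obtain ⟨X, hX, hNX⟩ := exists_partner h.lie h.irr h.tr hN hN2
    have key : ∀ X ∈ Submodule.span K {y | y ∈ g ∧ y * y = 1}, N * X * N = 0 := by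
      intro X hX
      induction hX using Submodule.span_induction with
      | mem y hy =>
        obtain ⟨c, hc⟩ := hext y hy.1
        by_cases h0 : c = 0
        · rw [hc, h0, zero_smul]
        · exact absurd hc (hcon y hy.1 hy.2 c h0)
      | zero => simp
      | add a b _ _ ha hb => rw [mul_add, add_mul, ha, hb, add_zero]
      | smul c a _ ha => rw [mul_smul_comm, smul_mul_assoc, ha, smul_zero]
    have := key X (h.span hX)
    rw [this] at hNX
    exact hN0 hNX.symm
  obtain ⟨y, hyg, hy2, c, hc0, hNy⟩ := hy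
  set N₁ := (1 + y) * N * (1 - y) with hN₁
  have hN₁g : N₁ ∈ g := h.lie.plus hyg hy2 hN
  have hyN : y * N₁ = N₁ := by
    calc y * N₁ = (y + y * y) * N * (1 - y) := by rw [hN₁]; noncomm_ring
      _ = N₁ := by rw [hy2, hN₁, add_comm]
  have hNy' : N₁ * y = -N₁ := by
    calc N₁ * y = (1 + y) * N * (y - y * y) := by rw [hN₁]; noncomm_ring
      _ = -N₁ := by rw [hy2, hN₁]; noncomm_ring
  have hN₁2 : N₁ * N₁ = 0 := by
    calc N₁ * N₁ = (1 + y) * N * (1 - y * y) * N * (1 - y) := by rw [hN₁]; noncomm_ring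
      _ = 0 := by rw [hy2, sub_self, mul_zero, zero_mul, zero_mul]
  have hext₁ : ∀ X ∈ g, ∃ c : K, N₁ * X * N₁ = c • N₁ := by
    intro X hX
    obtain ⟨d, hd⟩ := hext _ (h.lie.minus hyg hy2 hX)
    refine ⟨d, ?_⟩
    calc N₁ * X * N₁ = (1 + y) * (N * ((1 - y) * X * (1 + y)) * N) * (1 - y) := by
          rw [hN₁]; noncomm_ring
      _ = d • N₁ := by rw [hd, mul_smul_comm, smul_mul_assoc, hN₁]
  have hNNN : N * N₁ * N = (-(c * c)) • N := by
    calc N * N₁ * N = (N * N + N * y * N) * (N - y * N) := by rw [hN₁]; noncomm_ring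
      _ = (c • N) * (N - y * N) := by rw [hN2, zero_add, hNy]
      _ = c • (N * N - N * y * N) := by rw [smul_mul_assoc]; congr 1; noncomm_ring
      _ = (-(c * c)) • N := by rw [hN2, hNy, zero_sub, smul_neg, smul_smul, neg_smul]
  have hrk : finrank K (LinearMap.range N₁) = finrank K (LinearMap.range N) := by
    apply le_antisymm
    · calc finrank K (LinearMap.range N₁) ≤ finrank K (LinearMap.range ((1 + y) * N)) :=
            finrank_range_mul_le_left _ _
        _ ≤ _ := finrank_range_mul_le_right _ _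
    · have e : N = N * N₁ * ((-(c * c))⁻¹ • N) := by
        rw [mul_smul_comm, hNNN, smul_smul, inv_mul_cancel₀, one_smul]
        exact neg_ne_zero.2 (mul_ne_zero hc0 hc0)
      calc finrank K (LinearMap.range N) = finrank K (LinearMap.range
            (N * N₁ * ((-(c * c))⁻¹ • N))) := by rw [← e]
        _ ≤ finrank K (LinearMap.range (N * N₁)) := finrank_range_mul_le_left _ _
        _ ≤ _ := finrank_range_mul_le_right _ _
  obtain ⟨X, hX, hNX⟩ := exists_partner h.lie h.irr h.tr hN₁g hN₁2
  set M₁ := (1 / 4 : K) • ((1 - y) * X * (1 + y)) with hM₁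
  have hM₁g : M₁ ∈ g := g.smul_mem _ (h.lie.minus hyg hy2 hX)
  have hyM : y * M₁ = -M₁ := by
    rw [hM₁, mul_smul_comm, ← smul_neg]
    congr 1
    calc y * ((1 - y) * X * (1 + y)) = (y - y * y) * X * (1 + y) := by noncomm_ring
      _ = _ := by rw [hy2]; noncomm_ring
  have hMy : M₁ * y = M₁ := by
    rw [hM₁, smul_mul_assoc]
    congr 1
    calc (1 - y) * X * (1 + y) * y = (1 - y) * X * (y + y * y) := by noncomm_ring
      _ = _ := by rw [hy2, add_comm]
  have hM₁2 : M₁ * M₁ = 0 := by
    have h1 : M₁ * (y * M₁) = M₁ * M₁ := by rw [← mul_assoc, hMy]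
    rw [hyM, mul_neg] at h1
    have h2 : (2 : K) • (M₁ * M₁) = 0 := by
      rw [two_smul]
      nth_rw 1 [← h1]
      simp
    exact (smul_eq_zero.1 h2).resolve_left (by norm_num)
  have hNMN : N₁ * M₁ * N₁ = N₁ := by
    have h1 : N₁ * (1 - y) = (2 : K) • N₁ := by
      rw [mul_sub, hNy', mul_one, two_smul]; abel
    have h2 : (1 + y) * N₁ = (2 : K) • N₁ := by
      rw [add_mul, hyN, one_mul, two_smul]
    calc N₁ * M₁ * N₁ = (1 / 4 : K) • ((N₁ * (1 - y)) * X * ((1 + y) * N₁)) := by
          rw [hM₁, mul_smul_comm, smul_mul_assoc]; congr 1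
      _ = N₁ := by
          rw [h1, h2, smul_mul_assoc, smul_mul_assoc, mul_smul_comm, smul_smul, smul_smul, hNX]
          norm_num
  refine ⟨y, N₁, M₁ * N₁ * M₁, hyg, hy2, hN₁g, h.lie.sandwich hM₁g hM₁2 hN₁g, hyN, hNy',
    ?_, ?_, hN₁2, ?_, ?_, ?_, hrk ▸ hodd, hext₁⟩
  · rw [← mul_assoc, ← mul_assoc, hyM]; noncomm_ring
  · rw [mul_assoc, hMy]
  · calc M₁ * N₁ * M₁ * (M₁ * N₁ * M₁) = M₁ * N₁ * (M₁ * M₁) * N₁ * M₁ := by noncomm_ring
      _ = 0 := by rw [hM₁2]; simp
  · calc N₁ * (M₁ * N₁ * M₁) * N₁ = (N₁ * M₁ * N₁) * M₁ * N₁ := by noncomm_ring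
      _ = N₁ := by rw [hNMN, hNMN]
  · calc M₁ * N₁ * M₁ * N₁ * (M₁ * N₁ * M₁) = M₁ * ((N₁ * M₁ * N₁) * M₁ * N₁) * M₁ := by
          noncomm_ring
      _ = _ := by rw [hNMN, hNMN]

/-- A Peirce decomposition: `E 0` and `E 3` are the images of `N` and `M`, and `E 1`, `E 2` the
two remaining parts. -/
structure Peirce (g : Submodule K (Module.End K V))
    (adj : Module.End K V →ₗ[K] Module.End K V) (E : Fin 4 → Module.End K V)
    (N M : Module.End K V) : Prop where
  sum : E 0 + E 1 + E 2 + E 3 = 1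
  mul : ∀ i j, E i * E j = if i = j then E i else 0
  adj0 : adj (E 0) = E 3
  adj1 : adj (E 1) = E 2
  adj2 : adj (E 2) = E 1
  adj3 : adj (E 3) = E 0
  EN : ∀ i, E i * N = if i = 0 then N else 0
  NE : ∀ i, N * E i = if i = 3 then N else 0
  EM : ∀ i, E i * M = if i = 3 then M else 0
  ME : ∀ i, M * E i = if i = 0 then M else 0
  NM : N * M = E 0
  MN : M * N = E 3
  memN : N ∈ g
  memM : M ∈ g
  ext : ∀ X ∈ g, ∃ c : K, E 0 * X * E 3 = c • N
  ext' : ∀ X ∈ g, ∃ c : K, E 3 * X * E 0 = c • M
  mA : ∀ X ∈ g, E 0 * X * E 2 + E 1 * X * E 3 ∈ g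
  mB : ∀ X ∈ g, E 2 * X * E 0 + E 3 * X * E 1 ∈ g
  mA' : ∀ X ∈ g, E 0 * X * E 1 + E 2 * X * E 3 ∈ g
  mB' : ∀ X ∈ g, E 1 * X * E 0 + E 3 * X * E 2 ∈ g
  mC : ∀ X ∈ g, E 0 * X * E 0 + E 1 * X * E 1 + E 2 * X * E 2 + E 3 * X * E 3 ∈ g
  mC1 : ∀ X ∈ g, E 1 * X * E 2 ∈ g
  mC2 : ∀ X ∈ g, E 2 * X * E 1 ∈ g
  odd : Odd (finrank K (LinearMap.range (E 0)))

theorem peirce_mem {g : Submodule K (Module.End K V)} (hg : IsLie g)
    {E : Fin 4 → Module.End K V} (hsum : E 0 + E 1 + E 2 + E 3 = 1)
    (hmul : ∀ i j, E i * E j = if i = j then E i else 0) (hH : E 0 - E 3 ∈ g)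
    (h03 : ∀ X ∈ g, E 0 * X * E 3 ∈ g) (h30 : ∀ X ∈ g, E 3 * X * E 0 ∈ g)
    (hp : ∀ X ∈ g, (E 0 + E 1) * X * (E 2 + E 3) ∈ g)
    (hm : ∀ X ∈ g, (E 2 + E 3) * X * (E 0 + E 1) ∈ g) {X : Module.End K V} (hX : X ∈ g) :
    (E 0 * X * E 2 + E 1 * X * E 3 ∈ g) ∧ (E 2 * X * E 0 + E 3 * X * E 1 ∈ g) ∧
    (E 0 * X * E 1 + E 2 * X * E 3 ∈ g) ∧ (E 1 * X * E 0 + E 3 * X * E 2 ∈ g) ∧
    (E 0 * X * E 0 + E 1 * X * E 1 + E 2 * X * E 2 + E 3 * X * E 3 ∈ g) ∧
    (E 1 * X * E 2 ∈ g) ∧ (E 2 * X * E 1 ∈ g) := by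
  have hmul' : ∀ i j (Z : Module.End K V), E i * (E j * Z) = if i = j then E i * Z else 0 := by
    intro i j Z
    rw [← mul_assoc, hmul]
    split_ifs <;> simp
  have hA : E 0 * X * E 2 + E 1 * X * E 3 ∈ g := by
    have h1 := g.sub_mem (hg _ hH _ (hp X hX)) (g.smul_mem (2 : K) (h03 X hX))
    have e : (E 0 - E 3) * ((E 0 + E 1) * X * (E 2 + E 3)) -
        ((E 0 + E 1) * X * (E 2 + E 3)) * (E 0 - E 3) - (2 : K) • (E 0 * X * E 3) =
        E 0 * X * E 2 + E 1 * X * E 3 := by
      simp [mul_add, add_mul, mul_sub, sub_mul, mul_assoc, hmul, hmul']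
      module
    rwa [e] at h1
  have hB : E 2 * X * E 0 + E 3 * X * E 1 ∈ g := by
    have h1 := g.neg_mem (g.add_mem (hg _ hH _ (hm X hX)) (g.smul_mem (2 : K) (h30 X hX)))
    have e : -((E 0 - E 3) * ((E 2 + E 3) * X * (E 0 + E 1)) -
        ((E 2 + E 3) * X * (E 0 + E 1)) * (E 0 - E 3) + (2 : K) • (E 3 * X * E 0)) =
        E 2 * X * E 0 + E 3 * X * E 1 := by
      simp [mul_add, add_mul, mul_sub, sub_mul, mul_assoc, hmul, hmul']
      module
    rwa [e] at h1
  have hD1 := hg _ hH _ hX
  have hD2 := hg _ hH _ hD1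
  have e1 : (E 0 - E 3) * X - X * (E 0 - E 3) =
      (E 0 - E 3) * X * (E 0 + E 1 + E 2 + E 3) - (E 0 + E 1 + E 2 + E 3) * X * (E 0 - E 3) := by
    rw [hsum, mul_one, one_mul]
  have eX : X = (E 0 + E 1 + E 2 + E 3) * X * (E 0 + E 1 + E 2 + E 3) := by
    rw [hsum, mul_one, one_mul]
  rw [e1] at hD1 hD2
  have hA' : E 0 * X * E 1 + E 2 * X * E 3 ∈ g := by
    have h1 := g.sub_mem (g.sub_mem (g.sub_mem (g.smul_mem (1 / 2 : K) (g.add_mem hD1 hD2))
      (g.smul_mem (3 : K) (h03 X hX))) (h30 X hX)) hA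
    convert h1 using 1
    simp [mul_add, add_mul, mul_sub, sub_mul, mul_assoc, hmul, hmul']
    module
  have hB' : E 1 * X * E 0 + E 3 * X * E 2 ∈ g := by
    have h1 := g.sub_mem (g.sub_mem (g.sub_mem (g.smul_mem (1 / 2 : K) (g.sub_mem hD2 hD1))
      (g.smul_mem (3 : K) (h30 X hX))) (h03 X hX)) hB
    convert h1 using 1
    simp [mul_add, add_mul, mul_sub, sub_mul, mul_assoc, hmul, hmul']
    module
  have h12 : E 1 * X * E 2 ∈ g := by
    have h1 := g.sub_mem (g.sub_mem (hp X hX) hA) (h03 X hX)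
    convert h1 using 1
    noncomm_ring
  have h21 : E 2 * X * E 1 ∈ g := by
    have h1 := g.sub_mem (g.sub_mem (hm X hX) hB) (h30 X hX)
    convert h1 using 1
    noncomm_ring
  refine ⟨hA, hB, hA', hB', ?_, h12, h21⟩
  have h1 := g.sub_mem (g.sub_mem (g.sub_mem (g.sub_mem (g.sub_mem (g.sub_mem (g.sub_mem
    (g.sub_mem hX hA) hB) hA') hB') (h03 X hX)) (h30 X hX)) h12) h21
  nth_rw 1 [eX] at h1
  convert h1 using 1
  noncomm_ring

theorem exists_peirce {g : Submodule K (Module.End K V)}
    {adj : Module.End K V →ₗ[K] Module.End K V} (h : Setup g adj) {N : Module.End K V}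
    (hN : N ∈ g) (hN2 : N * N = 0) (hodd : Odd (finrank K (LinearMap.range N))) :
    ∃ E N M, Peirce g adj E N M := by
  obtain ⟨N', hN', hN'2, hodd', hext'⟩ := exists_extremal h.lie h.irr h.tr _ N hN hN2 rfl hodd
  obtain ⟨y, N, M, hy, hy2, hN, hM, yN, Ny, yM, My, NN, MM, NMN, MNM, hodd, hext⟩ :=
    exists_frame h hN' hN'2 hodd' hext'
  set e := N * M with he
  set e' := M * N with he'
  have ee : e * e = e := by
    calc e * e = (N * M * N) * M := by rw [he]; noncomm_ring
      _ = e := by rw [NMN]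
  have e'e' : e' * e' = e' := by
    calc e' * e' = (M * N * M) * N := by rw [he']; noncomm_ring
      _ = e' := by rw [MNM]
  have ee' : e * e' = 0 := by
    calc e * e' = N * (M * M) * N := by rw [he, he']; noncomm_ring
      _ = 0 := by rw [MM]; simp
  have e'e : e' * e = 0 := by
    calc e' * e = M * (N * N) * M := by rw [he, he']; noncomm_ring
      _ = 0 := by rw [NN]; simp
  have ye : y * e = e := by rw [he, ← mul_assoc, yN]
  have ey : e * y = e := by rw [he, mul_assoc, My]
  have ye' : y * e' = -e' := by rw [he', ← mul_assoc, yM, neg_mul]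
  have e'y : e' * y = -e' := by rw [he', mul_assoc, Ny, mul_neg]
  obtain ⟨P, hPd⟩ : ∃ P : Module.End K V, P = (1 / 2 : K) • (1 + y) := ⟨_, rfl⟩
  obtain ⟨Q, hQd⟩ : ∃ Q : Module.End K V, Q = (1 / 2 : K) • (1 - y) := ⟨_, rfl⟩
  have hPP : P * P = P := by
    rw [hPd, smul_mul_smul_comm, add_mul, mul_add, mul_add, hy2]
    simp only [one_mul, mul_one]
    module
  have hQQ : Q * Q = Q := by
    rw [hQd, smul_mul_smul_comm, sub_mul, mul_sub, mul_sub, hy2]
    simp only [one_mul, mul_one]
    module
  have hPQ : P * Q = 0 := by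
    rw [hPd, hQd, smul_mul_smul_comm, add_mul, mul_sub, mul_sub, hy2]
    simp only [one_mul, mul_one]
    module
  have hQP : Q * P = 0 := by
    rw [hPd, hQd, smul_mul_smul_comm, sub_mul, mul_add, mul_add, hy2]
    simp only [one_mul, mul_one]
    module
  have Pe : P * e = e := by
    rw [hPd, smul_mul_assoc, add_mul, ye, one_mul]; module
  have eP : e * P = e := by
    rw [hPd, mul_smul_comm, mul_add, ey, mul_one]; module
  have Pe' : P * e' = 0 := by
    rw [hPd, smul_mul_assoc, add_mul, ye', one_mul]; module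
  have e'P : e' * P = 0 := by
    rw [hPd, mul_smul_comm, mul_add, e'y, mul_one]; module
  have Qe : Q * e = 0 := by
    rw [hQd, smul_mul_assoc, sub_mul, ye, one_mul]; module
  have eQ : e * Q = 0 := by
    rw [hQd, mul_smul_comm, mul_sub, ey, mul_one]; module
  have Qe' : Q * e' = e' := by
    rw [hQd, smul_mul_assoc, sub_mul, ye', one_mul]; module
  have e'Q : e' * Q = e' := by
    rw [hQd, mul_smul_comm, mul_sub, e'y, mul_one]; module
  have PN : P * N = N := by
    rw [hPd, smul_mul_assoc, add_mul, yN, one_mul]; module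
  have QN : Q * N = 0 := by
    rw [hQd, smul_mul_assoc, sub_mul, yN, one_mul]; module
  have NP : N * P = 0 := by
    rw [hPd, mul_smul_comm, mul_add, Ny, mul_one]; module
  have NQ : N * Q = N := by
    rw [hQd, mul_smul_comm, mul_sub, Ny, mul_one]; module
  have PM : P * M = 0 := by
    rw [hPd, smul_mul_assoc, add_mul, yM, one_mul]; module
  have QM : Q * M = M := by
    rw [hQd, smul_mul_assoc, sub_mul, yM, one_mul]; module
  have MP : M * P = M := by
    rw [hPd, mul_smul_comm, mul_add, My, mul_one]; module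
  have MQ : M * Q = 0 := by
    rw [hQd, mul_smul_comm, mul_sub, My, mul_one]; module
  have eN : e * N = N := NMN
  have Ne' : N * e' = N := by rw [he', ← mul_assoc, NMN]
  have e'M : e' * M = M := MNM
  have Me : M * e = M := by rw [he, ← mul_assoc, MNM]
  have Ne : N * e = 0 := by rw [he, ← mul_assoc, NN, zero_mul]
  have e'N : e' * N = 0 := by rw [he', mul_assoc, NN, mul_zero]
  have Me' : M * e' = 0 := by rw [he', ← mul_assoc, MM, zero_mul]
  have eM : e * M = 0 := by rw [he, mul_assoc, MM, mul_zero]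
  obtain ⟨q, hq⟩ : ∃ q : Module.End K V, q = P - e := ⟨_, rfl⟩
  obtain ⟨q', hq'⟩ : ∃ q' : Module.End K V, q' = Q - e' := ⟨_, rfl⟩
  have hsum : e + q + q' + e' = 1 := by
    rw [hq, hq', hPd, hQd]; module
  have hE1 : adj 1 = 1 := by
    have h1 := h.adj_mul (adj 1) 1
    rw [mul_one, h.adj_adj, mul_one] at h1
    exact h1.symm
  have adjN := h.skew N hN
  have adjM := h.skew M hM
  have adje : adj e = e' := by
    rw [he, h.adj_mul, adjM, adjN, neg_mul_neg]
  have adje' : adj e' = e := by
    rw [he', h.adj_mul, adjM, adjN, neg_mul_neg]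
  have adjq : adj q = q' := by
    rw [hq, hq', hPd, hQd, map_sub, map_smul, map_add, hE1, h.skew y hy, adje,
      ← sub_eq_add_neg]
  have adjq' : adj q' = q := by
    rw [← adjq, h.adj_adj]
  have hmul : ∀ i j : Fin 4, (![e, q, q', e'] i) * (![e, q, q', e'] j) =
      if i = j then ![e, q, q', e'] i else 0 := by
    intro i j
    fin_cases i <;> fin_cases j <;>
      simp [ee, e'e', ee', e'e, hq, hq', sub_mul, mul_sub, hPP, hQQ, hPQ, hQP, Pe, eP, Pe', e'P, Qe,
        eQ, Qe', e'Q]
  have hEN : ∀ i : Fin 4, (![e, q, q', e'] i) * N = if i = 0 then N else 0 := by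
    intro i
    fin_cases i <;> simp [eN, hq, hq', sub_mul, PN, QN, e'N]
  have hNE : ∀ i : Fin 4, N * (![e, q, q', e'] i) = if i = 3 then N else 0 := by
    intro i
    fin_cases i <;> simp [Ne, hq, hq', mul_sub, NP, NQ, Ne']
  have hEM : ∀ i : Fin 4, (![e, q, q', e'] i) * M = if i = 3 then M else 0 := by
    intro i
    fin_cases i <;> simp [eM, hq, hq', sub_mul, PM, QM, e'M]
  have hME : ∀ i : Fin 4, M * (![e, q, q', e'] i) = if i = 0 then M else 0 := by
    intro i
    fin_cases i <;> simp [Me, hq, hq', mul_sub, MP, MQ, Me']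
  have hP' : P = e + q := by rw [hq]; abel
  have hQ' : Q = e' + q' := by rw [hq']; abel
  have hext3 : ∀ X ∈ g, ∃ c : K, e * X * e' = c • N := by
    intro X hX
    obtain ⟨c, hc⟩ := hext _ (h.lie.sandwich hM MM hX)
    refine ⟨c, ?_⟩
    rw [← hc, he, he']
    noncomm_ring
  have hext4 : ∀ X ∈ g, ∃ c : K, e' * X * e = c • M := by
    intro X hX
    obtain ⟨c, hc⟩ := hext X hX
    refine ⟨c, ?_⟩
    calc e' * X * e = M * (N * X * N) * M := by rw [he, he']; noncomm_ring
      _ = c • (M * N * M) := by rw [hc, mul_smul_comm, smul_mul_assoc]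
      _ = c • M := by rw [MNM]
  have hg2 : ∀ X ∈ g, e * X * e' ∈ g := by
    intro X hX
    obtain ⟨c, hc⟩ := hext3 X hX
    rw [hc]; exact g.smul_mem _ hN
  have hg2' : ∀ X ∈ g, e' * X * e ∈ g := by
    intro X hX
    obtain ⟨c, hc⟩ := hext4 X hX
    rw [hc]; exact g.smul_mem _ hM
  have hP1 : (![e, q, q', e'] 0 + ![e, q, q', e'] 1 : Module.End K V) = P := by
    simp [hq]
  have hQ1 : (![e, q, q', e'] 2 + ![e, q, q', e'] 3 : Module.End K V) = Q := by
    simp [hq']
  have hsum' : (![e, q, q', e'] 0 + ![e, q, q', e'] 1 + ![e, q, q', e'] 2 +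
      ![e, q, q', e'] 3 : Module.End K V) = 1 := hsum
  have hH : (![e, q, q', e'] 0 - ![e, q, q', e'] 3 : Module.End K V) ∈ g := h.lie N hN M hM
  have hmem := fun X (hX : X ∈ g) => peirce_mem h.lie (E := ![e, q, q', e']) hsum' hmul hH
    hg2 hg2' (by
      intro X hX
      rw [hP1, hQ1, hPd, hQd, smul_mul_assoc, smul_mul_assoc, mul_smul_comm]
      exact g.smul_mem _ (g.smul_mem _ (h.lie.plus hy hy2 hX))) (by
      intro X hX
      rw [hP1, hQ1, hPd, hQd, smul_mul_assoc, smul_mul_assoc, mul_smul_comm]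
      exact g.smul_mem _ (g.smul_mem _ (h.lie.minus hy hy2 hX))) hX
  refine ⟨![e, q, q', e'], N, M, ⟨hsum', hmul, adje, adjq, adjq', adje', hEN, hNE, hEM, hME,
    rfl, rfl, hN, hM, hext3, hext4, fun X hX => (hmem X hX).1, fun X hX => (hmem X hX).2.1,
    fun X hX => (hmem X hX).2.2.1, fun X hX => (hmem X hX).2.2.2.1,
    fun X hX => (hmem X hX).2.2.2.2.1, fun X hX => (hmem X hX).2.2.2.2.2.1,
    fun X hX => (hmem X hX).2.2.2.2.2.2, ?_⟩⟩
  have : finrank K (LinearMap.range e) = finrank K (LinearMap.range N) :=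
    rank_eq_of_dvd (c := M) (d := N) rfl NMN.symm
  change Odd (finrank K (LinearMap.range e))
  rw [this]
  exact hodd

end Pool.Agent.H53Toric
end
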