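import Pool.Agent.Lib.H1M.RC.M006

/-! Merged copies (to shorten the build) of Lib.H53Toric.Core4, Lib.H53Toric.Core5, Lib.H53Toric.Core6, Lib.H53Toric.Core7. -/

-- from Lib.H53Toric.Core4
section

/-!
# The skew parts vanish
-/

set_option autoImplicit false
set_option linter.unusedSectionVars false
namespace Pool.Agent.H53Toric
open Module
variable {K : Type*} [Field K] {V : Type*} [AddCommGroup V] [Module K V]

/-- The odd lemma. -/
theorem odd_lemma [IsAlgClosed K] [CharZero K] [FiniteDimensional K V] {e S : Module.End K V}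
    (ee : e * e = e) (eS : e * S = S) (Se : S * e = S) (htr : LinearMap.trace K V S = 0)
    (hodd : Odd (finrank K (LinearMap.range e))) {σ : K} (hσ : S * S = σ • e) : S * S = 0 := by
  by_cases h0 : σ = 0
  · rw [hσ, h0, zero_smul]
  exfalso
  obtain ⟨s, hs⟩ := IsAlgClosed.exists_pow_nat_eq σ (n := 2) (by norm_num)
  have hs0 : s ≠ 0 := by
    rintro rfl
    apply h0
    rw [← hs]; simp
  have hs' : s⁻¹ * s⁻¹ * σ = 1 := by
    rw [← hs]; field_simp
  set f := (1 / 2 : K) • (e + s⁻¹ • S) with hf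
  have hff : f * f = f := by
    rw [hf, smul_mul_smul_comm, add_mul, mul_add, mul_add, ee, mul_smul_comm, smul_mul_assoc, eS, Se,
      smul_mul_smul_comm, hσ, smul_smul, hs', one_smul]
    module
  have h1 := trace_idem hff
  have h2 : LinearMap.trace K V f = (1 / 2 : K) * (finrank K (LinearMap.range e) : K) := by
    rw [hf, map_smul, map_add, map_smul, htr, trace_idem ee]
    simp
  have h3 : (finrank K (LinearMap.range e) : K) =
      ((2 * finrank K (LinearMap.range f) : ℕ) : K) := by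
    push_cast
    rw [← h1, h2]; ring
  have h4 : finrank K (LinearMap.range e) = 2 * finrank K (LinearMap.range f) := by
    exact_mod_cast h3
  rw [h4] at hodd
  exact (Nat.not_odd_iff_even.2 (even_two_mul _)) hodd

/-- A linear space of square zero operators stabilising `U` has a common kernel vector in
`U`. -/
theorem common_kernel [FiniteDimensional K V] (W : Submodule K (Module.End K V))
    (hW : ∀ w ∈ W, w * w = 0) (n : ℕ) : ∀ U : Submodule K V, finrank K U ≤ n → U ≠ ⊥ →
      (∀ w ∈ W, ∀ u ∈ U, w u ∈ U) → ∃ u ∈ U, u ≠ 0 ∧ ∀ w ∈ W, w u = 0 := by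
  have hanti : ∀ w ∈ W, ∀ w' ∈ W, w * w' = -(w' * w) := by
    intro w hw w' hw'
    have h1 := hW _ (W.add_mem hw hw')
    have h2 := hW w hw
    have h3 := hW w' hw'
    have e : (w + w') * (w + w') = w * w + (w * w' + w' * w) + w' * w' := by noncomm_ring
    rw [e, h2, h3, zero_add, add_zero] at h1
    exact eq_neg_of_add_eq_zero_left h1
  induction n with
  | zero =>
    intro U hU hU0
    exact absurd (Submodule.finrank_eq_zero.1 (Nat.le_zero.1 hU)) hU0
  | succ n ih =>
    intro U hU hU0 hst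
    by_cases hall : ∀ w ∈ W, ∀ u ∈ U, w u = 0
    · obtain ⟨u, hu, hu0⟩ := Submodule.exists_mem_ne_zero_of_ne_bot hU0
      exact ⟨u, hu, hu0, fun w hw => hall w hw u hu⟩
    · push Not at hall
      obtain ⟨w, hw, u, hu, hwu⟩ := hall
      have hlt : U ⊓ LinearMap.ker w < U := by
        refine lt_of_le_of_ne inf_le_left ?_
        intro h
        have : u ∈ U ⊓ LinearMap.ker w := by rw [h]; exact hu
        exact hwu (LinearMap.mem_ker.1 this.2)
      have hlt' := Submodule.finrank_lt_finrank_of_lt hlt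
      obtain ⟨v, hv, hv0, hvW⟩ := ih (U ⊓ LinearMap.ker w) (by omega) (by
        rw [Submodule.ne_bot_iff]
        refine ⟨w u, ⟨hst w hw u hu, ?_⟩, hwu⟩
        rw [SetLike.mem_coe, LinearMap.mem_ker]
        change (w * w) u = 0
        rw [hW w hw]; rfl) (by
        intro w' hw' v hv
        refine ⟨hst w' hw' v hv.1, ?_⟩
        rw [SetLike.mem_coe, LinearMap.mem_ker]
        change (w * w') v = 0
        rw [hanti w hw w' hw']
        change -(w' (w v)) = 0
        rw [LinearMap.mem_ker.1 hv.2, map_zero, neg_zero])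
      exact ⟨v, hv.1, hv0, hvW⟩

section rules

variable {g : Submodule K (Module.End K V)} {adj : Module.End K V →ₗ[K] Module.End K V}
  {E : Fin 4 → Module.End K V} {N M : Module.End K V} (P : Peirce g adj E N M)

include P

theorem Peirce.mul' (i j : Fin 4) (X : Module.End K V) :
    E i * (E j * X) = if i = j then E i * X else 0 := by
  rw [← mul_assoc, P.mul]; split_ifs <;> simp

theorem Peirce.EN' (i : Fin 4) (X : Module.End K V) :
    E i * (N * X) = if i = 0 then N * X else 0 := by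
  rw [← mul_assoc, P.EN]; split_ifs <;> simp

theorem Peirce.NE' (i : Fin 4) (X : Module.End K V) :
    N * (E i * X) = if i = 3 then N * X else 0 := by
  rw [← mul_assoc, P.NE]; split_ifs <;> simp

theorem Peirce.EM' (i : Fin 4) (X : Module.End K V) :
    E i * (M * X) = if i = 3 then M * X else 0 := by
  rw [← mul_assoc, P.EM]; split_ifs <;> simp

theorem Peirce.ME' (i : Fin 4) (X : Module.End K V) :
    M * (E i * X) = if i = 0 then M * X else 0 := by
  rw [← mul_assoc, P.ME]; split_ifs <;> simp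

theorem Peirce.NN : N * N = 0 := by
  have h1 := P.EN 0
  have h2 := P.NE 0
  simp only [if_true, Fin.reduceEq, if_false] at h1 h2
  calc N * N = N * (E 0 * N) := by rw [h1]
    _ = (N * E 0) * N := by rw [mul_assoc]
    _ = 0 := by rw [h2, zero_mul]


theorem Peirce.NM' (X : Module.End K V) : N * (M * X) = E 0 * X := by
  rw [← mul_assoc, P.NM]

theorem Peirce.MN' (X : Module.End K V) : M * (N * X) = E 3 * X := by
  rw [← mul_assoc, P.MN]



theorem Peirce.ee : E 0 * E 0 = E 0 := by rw [P.mul, if_pos rfl]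

end rules

section irr

variable {g : Submodule K (Module.End K V)} {adj : Module.End K V →ₗ[K] Module.End K V}
  {E : Fin 4 → Module.End K V} {N M : Module.End K V}

/-- The lowering part. -/
theorem Peirce.lower (P : Peirce g adj E N M) {z : Module.End K V} (hz : z ∈ g) :
    ∃ w ∈ g, E 0 * w = 0 ∧ z * E 0 = E 0 * z * E 0 + w * E 0 := by
  obtain ⟨c, hc⟩ := P.ext' z hz
  have h30 : E 3 * z * E 0 ∈ g := by rw [hc]; exact g.smul_mem _ P.memM
  refine ⟨_, g.add_mem (g.add_mem (P.mB z hz) (P.mB' z hz)) h30, ?_, ?_⟩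
  · simp [mul_add, mul_assoc, P.mul']
  · have e : z * E 0 = (E 0 + E 1 + E 2 + E 3) * z * E 0 := by rw [P.sum, one_mul]
    rw [e]
    simp [mul_add, add_mul, mul_assoc, P.mul, P.mul']
    abel

theorem Peirce.word_move (h : Setup g adj) (P : Peirce g adj E N M) {U : Submodule K V} {n : ℕ}
    (hn : ∀ l : List (Module.End K V), l.length ≤ n → (∀ x ∈ l, x ∈ g) → ∀ u ∈ U,
      E 0 (l.prod u) ∈ U) {w : Module.End K V} (hw : w ∈ g) (hw0 : E 0 * w = 0)
    (l₁ : List (Module.End K V)) :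
    ∀ l₂ : List (Module.End K V), l₁.length + l₂.length ≤ n → (∀ x ∈ l₁, x ∈ g) →
      (∀ x ∈ l₂, x ∈ g) → ∀ u ∈ U, E 0 ((l₁.prod * w * l₂.prod) u) ∈ U := by
  induction l₁ using List.reverseRecOn with
  | nil =>
    intro l₂ _ _ _ u _
    rw [List.prod_nil, one_mul]
    change (E 0 * (w * l₂.prod)) u ∈ U
    rw [← mul_assoc, hw0, zero_mul]
    exact U.zero_mem
  | append_singleton l₁ x ih =>
    intro l₂ hlen h1 h2 u hu
    have hx : x ∈ g := h1 x (by simp)
    have h1' : ∀ x ∈ l₁, x ∈ g := fun y hy => h1 y (by simp [hy])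
    have hlen' : l₁.length + 1 + l₂.length ≤ n := by
      rwa [List.length_append, List.length_singleton] at hlen
    have e : (l₁ ++ [x]).prod * w * l₂.prod = l₁.prod * w * (x :: l₂).prod +
        (l₁ ++ (x * w - w * x) :: l₂).prod := by
      simp only [List.prod_append, List.prod_cons, List.prod_nil]
      noncomm_ring
    rw [e, LinearMap.add_apply, map_add]
    apply U.add_mem
    · exact ih (x :: l₂) (by simp only [List.length_cons]; omega) h1' (by
        intro y hy
        rcases List.mem_cons.1 hy with rfl | hy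
        · exact hx
        · exact h2 y hy) u hu
    · apply hn _ _ _ u hu
      · simp only [List.length_append, List.length_cons]; omega
      · intro y hy
        rcases List.mem_append.1 hy with hy | hy
        · exact h1' y hy
        · rcases List.mem_cons.1 hy with rfl | hy
          · exact h.lie x hx w hw
          · exact h2 y hy

theorem Peirce.words (h : Setup g adj) (P : Peirce g adj E N M) {U : Submodule K V}
    (hU : ∀ u ∈ U, E 0 u = u) (hst : ∀ C ∈ g, ∀ u ∈ U, E 0 (C u) ∈ U) (n : ℕ) :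
    ∀ l : List (Module.End K V), l.length ≤ n → (∀ x ∈ l, x ∈ g) → ∀ u ∈ U,
      E 0 (l.prod u) ∈ U := by
  induction n with
  | zero =>
    intro l hl _ u hu
    have : l = [] := List.eq_nil_of_length_eq_zero (Nat.le_zero.1 hl)
    rw [this, List.prod_nil]
    change E 0 u ∈ U
    rw [hU u hu]; exact hu
  | succ n ih =>
    intro l hl hlg u hu
    rcases List.eq_nil_or_concat l with rfl | ⟨l', z, rfl⟩
    · rw [List.prod_nil]
      change E 0 u ∈ U
      rw [hU u hu]; exact hu
    · rw [List.concat_eq_append] at hl hlg ⊢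
      rw [List.length_append, List.length_singleton] at hl
      have hz : z ∈ g := hlg z (by simp)
      have hl' : ∀ x ∈ l', x ∈ g := fun y hy => hlg y (by simp [hy])
      obtain ⟨w, hw, hw0, hzw⟩ := P.lower hz
      have hzu : z u = E 0 (z u) + w u := by
        have := LinearMap.congr_fun hzw u
        change z (E 0 u) = E 0 (z (E 0 u)) + w (E 0 u) at this
        rwa [hU u hu] at this
      have e : (l' ++ [z]).prod u = l'.prod (z u) := by
        simp only [List.prod_append, List.prod_cons, List.prod_nil, mul_one]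
        rfl
      rw [e, hzu, map_add, map_add]
      apply U.add_mem
      · exact ih l' (by omega) hl' _ (hst z hz u hu)
      · have h1 := P.word_move h ih hw hw0 l' [] (by simp; omega) hl' (by simp) u hu
        simpa using h1

/-- The range of `E 0` is an irreducible piece. -/
theorem Peirce.irr (h : Setup g adj) (P : Peirce g adj E N M) {U : Submodule K V}
    (hU : ∀ u ∈ U, E 0 u = u) (hU0 : U ≠ ⊥) (hst : ∀ C ∈ g, ∀ u ∈ U, E 0 (C u) ∈ U) (v : V) :
    E 0 v ∈ U := by
  let W : Submodule K V :=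
    { carrier := {v | ∀ l : List (Module.End K V), (∀ x ∈ l, x ∈ g) → E 0 (l.prod v) ∈ U}
      add_mem' := by
        intro a b ha hb l hl
        rw [map_add, map_add]
        exact U.add_mem (ha l hl) (hb l hl)
      zero_mem' := by
        intro l _
        rw [map_zero, map_zero]; exact U.zero_mem
      smul_mem' := by
        intro c a ha l hl
        rw [map_smul, map_smul]
        exact U.smul_mem c (ha l hl) }
  have hUW : U ≤ W := fun u hu l hl => P.words h hU hst _ l le_rfl hl u hu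
  have hWst : ∀ X ∈ g, ∀ w ∈ W, X w ∈ W := by
    intro X hX w hw l hl
    have := hw (l ++ [X]) (by
      intro x hx
      rcases List.mem_append.1 hx with hx | hx
      · exact hl x hx
      · rw [List.mem_singleton.1 hx]; exact hX)
    simpa using this
  rcases h.irr W hWst with hW | hW
  · exact absurd (le_bot_iff.1 (hW ▸ hUW)) hU0
  · have hv : v ∈ W := by rw [hW]; trivial
    simpa using hv [] (by simp)

end irr

end Pool.Agent.H53Toric
end

-- from Lib.H53Toric.Core5
section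

/-!
# The pairing of the two off-diagonal pieces is scalar
-/

set_option autoImplicit false
set_option linter.unusedSectionVars false
namespace Pool.Agent.H53Toric
open Module
variable {K : Type*} [Field K] {V : Type*} [AddCommGroup V] [Module K V]

/-- The upper piece. -/
def J1 (g : Submodule K (Module.End K V)) (E : Fin 4 → Module.End K V) :
    Submodule K (Module.End K V) where
  carrier := {A | A ∈ g ∧ E 0 * A * E 2 + E 1 * A * E 3 = A}
  add_mem' := by
    rintro a b ⟨h1, h2⟩ ⟨h3, h4⟩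
    refine ⟨g.add_mem h1 h3, ?_⟩
    have e : E 0 * (a + b) * E 2 + E 1 * (a + b) * E 3 =
        (E 0 * a * E 2 + E 1 * a * E 3) + (E 0 * b * E 2 + E 1 * b * E 3) := by noncomm_ring
    rw [e, h2, h4]
  zero_mem' := by simp
  smul_mem' := by
    rintro c a ⟨h1, h2⟩
    refine ⟨g.smul_mem c h1, ?_⟩
    simp only [mul_smul_comm, smul_mul_assoc]
    rw [← smul_add, h2]

/-- The lower piece. -/
def J2 (g : Submodule K (Module.End K V)) (E : Fin 4 → Module.End K V) :
    Submodule K (Module.End K V) where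
  carrier := {A | A ∈ g ∧ E 2 * A * E 0 + E 3 * A * E 1 = A}
  add_mem' := by
    rintro a b ⟨h1, h2⟩ ⟨h3, h4⟩
    refine ⟨g.add_mem h1 h3, ?_⟩
    have e : E 2 * (a + b) * E 0 + E 3 * (a + b) * E 1 =
        (E 2 * a * E 0 + E 3 * a * E 1) + (E 2 * b * E 0 + E 3 * b * E 1) := by noncomm_ring
    rw [e, h2, h4]
  zero_mem' := by simp
  smul_mem' := by
    rintro c a ⟨h1, h2⟩
    refine ⟨g.smul_mem c h1, ?_⟩
    simp only [mul_smul_comm, smul_mul_assoc]
    rw [← smul_add, h2]

section rules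

variable {g : Submodule K (Module.End K V)} {adj : Module.End K V →ₗ[K] Module.End K V}
  {E : Fin 4 → Module.End K V} {N M : Module.End K V} (P : Peirce g adj E N M)
  {A A' B B' : Module.End K V}

include P

theorem Peirce.A2 (hA : A ∈ J1 g E) : E 2 * A = 0 := by
  rw [← hA.2]; simp [mul_add, mul_assoc, P.mul']
theorem Peirce.A3 (hA : A ∈ J1 g E) : E 3 * A = 0 := by
  rw [← hA.2]; simp [mul_add, mul_assoc, P.mul']
theorem Peirce.Ar0 (hA : A ∈ J1 g E) : A * E 0 = 0 := by
  rw [← hA.2]; simp [add_mul, mul_assoc, P.mul]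
theorem Peirce.Ar1 (hA : A ∈ J1 g E) : A * E 1 = 0 := by
  rw [← hA.2]; simp [add_mul, mul_assoc, P.mul]
theorem Peirce.A0 (hA : A ∈ J1 g E) : E 0 * A = A * E 2 := by
  rw [← hA.2]; simp [mul_add, add_mul, mul_assoc, P.mul, P.mul']
theorem Peirce.A1 (hA : A ∈ J1 g E) : E 1 * A = A * E 3 := by
  rw [← hA.2]; simp [mul_add, add_mul, mul_assoc, P.mul, P.mul']
theorem Peirce.B0 (hB : B ∈ J2 g E) : E 0 * B = 0 := by
  rw [← hB.2]; simp [mul_add, mul_assoc, P.mul']
theorem Peirce.B1 (hB : B ∈ J2 g E) : E 1 * B = 0 := by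
  rw [← hB.2]; simp [mul_add, mul_assoc, P.mul']
theorem Peirce.Br2 (hB : B ∈ J2 g E) : B * E 2 = 0 := by
  rw [← hB.2]; simp [add_mul, mul_assoc, P.mul]
theorem Peirce.Br3 (hB : B ∈ J2 g E) : B * E 3 = 0 := by
  rw [← hB.2]; simp [add_mul, mul_assoc, P.mul]
theorem Peirce.B2 (hB : B ∈ J2 g E) : E 2 * B = B * E 0 := by
  rw [← hB.2]; simp [mul_add, add_mul, mul_assoc, P.mul, P.mul']
theorem Peirce.B3 (hB : B ∈ J2 g E) : E 3 * B = B * E 1 := by
  rw [← hB.2]; simp [mul_add, add_mul, mul_assoc, P.mul, P.mul']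

theorem Peirce.expand_left (X : Module.End K V) :
    X = E 0 * X + E 1 * X + E 2 * X + E 3 * X := by
  rw [← add_mul, ← add_mul, ← add_mul, P.sum, one_mul]


theorem Peirce.AA (hA : A ∈ J1 g E) : A * A = 0 := by
  have h : A = E 0 * A + E 1 * A := by
    have := P.expand_left A
    rwa [P.A2 hA, P.A3 hA, add_zero, add_zero] at this
  calc A * A = A * (E 0 * A + E 1 * A) := by rw [← h]
    _ = (A * E 0) * A + (A * E 1) * A := by noncomm_ring
    _ = 0 := by rw [P.Ar0 hA, P.Ar1 hA]; simp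

theorem Peirce.BB (hB : B ∈ J2 g E) : B * B = 0 := by
  have h : B = E 2 * B + E 3 * B := by
    have := P.expand_left B
    rwa [P.B0 hB, P.B1 hB, zero_add, zero_add] at this
  calc B * B = B * (E 2 * B + E 3 * B) := by rw [← h]
    _ = (B * E 2) * B + (B * E 3) * B := by noncomm_ring
    _ = 0 := by rw [P.Br2 hB, P.Br3 hB]; simp

theorem Peirce.AN (hA : A ∈ J1 g E) : A * N = 0 := by
  have h := P.EN 0
  rw [if_pos rfl] at h
  rw [← h, ← mul_assoc, P.Ar0 hA, zero_mul]

theorem Peirce.NA (hA : A ∈ J1 g E) : N * A = 0 := by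
  have h := P.NE 3
  rw [if_pos rfl] at h
  rw [← h, mul_assoc, P.A3 hA, mul_zero]



/-- `e A B = A B e`. -/
theorem Peirce.ev (hA : A ∈ J1 g E) (hB : B ∈ J2 g E) : E 0 * A * B = A * B * E 0 := by
  rw [P.A0 hA, mul_assoc, P.B2 hB, mul_assoc]

/-- `e' B A = B A e'`. -/
theorem Peirce.ev' (hA : A ∈ J1 g E) (hB : B ∈ J2 g E) : E 3 * B * A = B * A * E 3 := by
  rw [P.B3 hB, mul_assoc, P.A1 hA, mul_assoc]

theorem Peirce.adj_ev (h : Setup g adj) (hA : A ∈ J1 g E) (hB : B ∈ J2 g E) :
    adj (E 0 * A * B) = E 3 * B * A := by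
  rw [h.adj_mul, h.adj_mul, P.adj0, h.skew A hA.1, h.skew B hB.1, P.ev' hA hB]
  noncomm_ring

theorem Peirce.tr_ev (h : Setup g adj) (hA : A ∈ J1 g E) (hB : B ∈ J2 g E) :
    LinearMap.trace K V (E 3 * B * A) = LinearMap.trace K V (E 0 * A * B) := by
  rw [← P.adj_ev h hA hB, h.adj_tr]

/-- `J1` contains the upper component of an element of `g`. -/
theorem Peirce.J1_mem {X : Module.End K V} (hX : X ∈ g) :
    E 0 * X * E 2 + E 1 * X * E 3 ∈ J1 g E := by
  refine ⟨P.mA X hX, ?_⟩
  simp [mul_add, add_mul, mul_assoc, P.mul, P.mul']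

theorem Peirce.J2_mem {X : Module.End K V} (hX : X ∈ g) :
    E 2 * X * E 0 + E 3 * X * E 1 ∈ J2 g E := by
  refine ⟨P.mB X hX, ?_⟩
  simp [mul_add, add_mul, mul_assoc, P.mul, P.mul']

end rules

section basic

variable [CharZero K] [FiniteDimensional K V]
variable {g : Submodule K (Module.End K V)} {adj : Module.End K V →ₗ[K] Module.End K V}
  {E : Fin 4 → Module.End K V} {N M : Module.End K V} (h : Setup g adj)
  (P : Peirce g adj E N M) {A A' B B' : Module.End K V}

include P h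

/-- First relation: `E + E† = c e`. -/
theorem Peirce.rel1 (hA : A ∈ J1 g E) (hB : B ∈ J2 g E) :
    ∃ c : K, E 0 * A * B + N * (E 3 * B * A) * M = c • E 0 := by
  have h1 := h.lie _ (h.lie A hA.1 B hB.1) N P.memN
  obtain ⟨c, hc⟩ := P.ext _ h1
  have hNE3 := P.NE 3
  rw [if_pos rfl] at hNE3
  have hEN0 := P.EN 0
  rw [if_pos rfl] at hEN0
  have e1 : (A * B - B * A) * N - N * (A * B - B * A) = (E 0 * A * B) * N + N * (E 3 * B * A) := by
    have e2 : (E 0 * A * B) * N = A * B * N := by rw [P.ev hA hB, mul_assoc, hEN0]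
    have e3 : N * (E 3 * B * A) = N * B * A := by
      rw [mul_assoc, ← mul_assoc N, hNE3, mul_assoc]
    rw [e2, e3]
    calc (A * B - B * A) * N - N * (A * B - B * A) =
        A * B * N + N * B * A - B * (A * N) - (N * A) * B := by noncomm_ring
      _ = _ := by rw [P.AN hA, P.NA hA]; simp
  rw [e1] at hc
  refine ⟨c, ?_⟩
  have e4 : E 0 * ((E 0 * A * B) * N + N * (E 3 * B * A)) * E 3 =
      (E 0 * A * B) * N + N * (E 3 * B * A) := by
    rw [mul_add, add_mul]
    congr 1
    · calc E 0 * (E 0 * A * B * N) * E 3 = (E 0 * E 0) * A * B * (N * E 3) := by noncomm_ring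
        _ = _ := by rw [P.ee, hNE3]
    · calc E 0 * (N * (E 3 * B * A)) * E 3 = (E 0 * N) * (E 3 * (B * A * E 3)) := by
            noncomm_ring
        _ = _ := by
          rw [hEN0, ← P.ev' hA hB]
          simp [mul_assoc, P.mul']
  rw [e4] at hc
  have e5 : E 0 * A * B * E 0 = E 0 * A * B := by rw [P.ev hA hB, mul_assoc, P.ee]
  calc E 0 * A * B + N * (E 3 * B * A) * M =
      (E 0 * A * B * N + N * (E 3 * B * A)) * M := by
        rw [add_mul, mul_assoc _ N M, P.NM, e5]
    _ = c • E 0 := by rw [hc, smul_mul_assoc, P.NM]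

/-- Second relation: `E E† = c e`. -/
theorem Peirce.rel2 (hA : A ∈ J1 g E) (hB : B ∈ J2 g E) :
    ∃ c : K, (E 0 * A * B) * (N * (E 3 * B * A) * M) = c • E 0 := by
  have h1 := h.lie.sandwich hA.1 (P.AA hA) (h.lie.sandwich hB.1 (P.BB hB) P.memN)
  obtain ⟨c, hc⟩ := P.ext _ h1
  have hNE3 := P.NE 3
  rw [if_pos rfl] at hNE3
  have hEN0 := P.EN 0
  rw [if_pos rfl] at hEN0
  have hEM3 := P.EM 3
  rw [if_pos rfl] at hEM3
  refine ⟨c, ?_⟩
  calc (E 0 * A * B) * (N * (E 3 * B * A) * M) =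
      E 0 * A * B * N * (E 3 * B * A) * M := by noncomm_ring
    _ = E 0 * A * B * N * B * A * M := by
        rw [mul_assoc (E 0 * A * B) N, mul_assoc (E 3) B A, ← mul_assoc N, hNE3]
        noncomm_ring
    _ = (E 0 * (A * (B * N * B) * A) * E 3) * M := by
        rw [mul_assoc _ (E 3) M, hEM3]
        noncomm_ring
    _ = c • E 0 := by rw [hc, smul_mul_assoc, P.NM]

end basic

/-! ### Skew parts -/

/-- The rank of `E 0` as a scalar. -/
noncomputable def rk (E : Fin 4 → Module.End K V) : K :=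
  (finrank K (LinearMap.range (E 0)) : K)

/-- The traceless part of `X` with respect to `E 0`. -/
noncomputable def sk (E : Fin 4 → Module.End K V) : Module.End K V →ₗ[K] Module.End K V :=
  LinearMap.id - (LinearMap.toSpanSingleton K _ (E 0)) ∘ₗ ((rk E)⁻¹ • LinearMap.trace K V)

theorem sk_apply (E : Fin 4 → Module.End K V) (X : Module.End K V) :
    sk E X = X - ((rk E)⁻¹ * LinearMap.trace K V X) • E 0 := by
  simp [sk]

section skew

variable [IsAlgClosed K] [CharZero K] [FiniteDimensional K V]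
variable {g : Submodule K (Module.End K V)} {adj : Module.End K V →ₗ[K] Module.End K V}
  {E : Fin 4 → Module.End K V} {N M : Module.End K V} (h : Setup g adj)
  (P : Peirce g adj E N M) {A A' B B' : Module.End K V}

include P

theorem Peirce.rk_ne : rk E ≠ 0 := by
  have h1 := P.odd
  rw [rk, Nat.cast_ne_zero]
  intro h0
  rw [h0] at h1
  exact absurd h1 (by decide)

theorem Peirce.tr_e : LinearMap.trace K V (E 0) = rk E := trace_idem P.ee

theorem Peirce.sk_e : sk E (E 0) = 0 := by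
  rw [sk_apply, P.tr_e, inv_mul_cancel₀ P.rk_ne, one_smul, sub_self]

theorem Peirce.tr_sk (X : Module.End K V) : LinearMap.trace K V (sk E X) = 0 := by
  rw [sk_apply, map_sub, map_smul, P.tr_e, smul_eq_mul, mul_comm (rk E)⁻¹, mul_assoc,
    inv_mul_cancel₀ P.rk_ne, mul_one, sub_self]

theorem Peirce.ev_e (hA : A ∈ J1 g E) (hB : B ∈ J2 g E) :
    E 0 * A * B * E 0 = E 0 * A * B := by
  rw [P.ev hA hB, mul_assoc, P.ee]

theorem Peirce.e_ev (A B : Module.End K V) : E 0 * (E 0 * A * B) = E 0 * A * B := by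
  rw [← mul_assoc, ← mul_assoc, P.ee]

theorem Peirce.e_sk (A B : Module.End K V) : E 0 * sk E (E 0 * A * B) = sk E (E 0 * A * B) := by
  rw [sk_apply, mul_sub, mul_smul_comm, P.ee, P.e_ev]

theorem Peirce.sk_mul_e (hA : A ∈ J1 g E) (hB : B ∈ J2 g E) :
    sk E (E 0 * A * B) * E 0 = sk E (E 0 * A * B) := by
  rw [sk_apply, sub_mul, smul_mul_assoc, P.ee, P.ev_e hA hB]

include h in
theorem Peirce.sk_sq (hA : A ∈ J1 g E) (hB : B ∈ J2 g E) :
    sk E (E 0 * A * B) * sk E (E 0 * A * B) = 0 := by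
  obtain ⟨c, hc⟩ := P.rel1 h hA hB
  obtain ⟨c', hc'⟩ := P.rel2 h hA hB
  have htr : LinearMap.trace K V (N * (E 3 * B * A) * M) =
      LinearMap.trace K V (E 0 * A * B) := by
    rw [← P.tr_ev h hA hB, mul_assoc, LinearMap.trace_mul_comm, mul_assoc, P.MN]
    congr 1
    rw [P.ev' hA hB, mul_assoc (B * A), P.mul, if_pos rfl]
  have h1 := congrArg (LinearMap.trace K V) hc
  rw [map_add, htr, map_smul, P.tr_e, smul_eq_mul] at h1
  have hr := P.rk_ne
  set l := (rk E)⁻¹ * LinearMap.trace K V (E 0 * A * B) with hl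
  have hcl : c = 2 * l := by
    rw [hl]
    field_simp
    linear_combination -h1
  have hD : N * (E 3 * B * A) * M = (2 * l) • E 0 - E 0 * A * B := by
    rw [← hcl, ← hc]; abel
  rw [hD, mul_sub, mul_smul_comm, P.ev_e hA hB] at hc'
  have hEE : (E 0 * A * B) * (E 0 * A * B) = (2 * l) • (E 0 * A * B) - c' • E 0 := by
    rw [← hc']; abel
  apply odd_lemma P.ee (P.e_sk A B) (P.sk_mul_e hA hB) (P.tr_sk _) P.odd (σ := l * l - c')
  rw [sk_apply, ← hl, sub_mul, mul_sub, mul_sub, hEE, mul_smul_comm, P.ev_e hA hB,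
    smul_mul_assoc, P.e_ev, smul_mul_smul_comm, P.ee]
  module

omit [IsAlgClosed K] [FiniteDimensional K V] in
include h in
theorem Peirce.ABA (hA : A ∈ J1 g E) (hB : B ∈ J2 g E) : A * B * A ∈ J1 g E := by
  refine ⟨h.lie.sandwich hA.1 (P.AA hA) hB.1, ?_⟩
  have e1 : E 0 * (A * B * A) * E 2 = E 0 * A * B * A := by
    calc E 0 * (A * B * A) * E 2 = E 0 * A * B * (A * E 2) := by noncomm_ring
      _ = E 0 * A * B * E 0 * A := by rw [← P.A0 hA]; noncomm_ring
      _ = _ := by rw [P.ev hA hB, mul_assoc (A * B), P.ee]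
  have e2 : E 1 * (A * B * A) * E 3 = E 1 * A * B * A := by
    have : E 1 * A * B = A * B * E 1 := by
      rw [P.A1 hA, mul_assoc, P.B3 hB, mul_assoc]
    calc E 1 * (A * B * A) * E 3 = E 1 * A * B * (A * E 3) := by noncomm_ring
      _ = E 1 * A * B * E 1 * A := by rw [← P.A1 hA]; noncomm_ring
      _ = _ := by rw [this, mul_assoc (A * B), P.mul, if_pos rfl]
  rw [e1, e2]
  have e3 := P.expand_left (A * B * A)
  rw [← mul_assoc (E 2), ← mul_assoc (E 2), ← mul_assoc (E 3), ← mul_assoc (E 3), P.A2 hA,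
    P.A3 hA, zero_mul, zero_mul, add_zero, add_zero] at e3
  rw [e3]
  noncomm_ring

omit [IsAlgClosed K] [FiniteDimensional K V] in
include h in
theorem Peirce.ABA' (hA : A ∈ J1 g E) (hA' : A' ∈ J1 g E) (hB : B ∈ J2 g E) :
    A * B * A' + A' * B * A ∈ J1 g E := by
  have h1 := (J1 g E).sub_mem ((J1 g E).sub_mem (P.ABA h ((J1 g E).add_mem hA hA') hB)
    (P.ABA h hA hB)) (P.ABA h hA' hB)
  convert h1 using 1
  noncomm_ring

/-- The product rule for evaluations. -/
theorem Peirce.ev_mul (hA : A ∈ J1 g E) (hB : B ∈ J2 g E) (A' B' : Module.End K V) :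
    (E 0 * A * B) * (E 0 * A' * B') = E 0 * (A * B * A') * B' := by
  have : (E 0 * A * B) * (E 0 * A' * B') = (E 0 * A * B * E 0) * A' * B' := by noncomm_ring
  rw [this, P.ev_e hA hB]
  noncomm_ring

include h in
theorem Peirce.exists_unit (hA : A ∈ J1 g E) (hB : B ∈ J2 g E)
    (hne : LinearMap.trace K V (E 0 * A * B) ≠ 0) : ∃ A₀ ∈ J1 g E, E 0 * A₀ * B = E 0 := by
  have h1 := P.sk_sq h hA hB
  set l := (rk E)⁻¹ * LinearMap.trace K V (E 0 * A * B) with hl
  have hl0 : l ≠ 0 := mul_ne_zero (inv_ne_zero P.rk_ne) hne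
  rw [sk_apply, ← hl, sub_mul, mul_sub, mul_sub, mul_smul_comm, P.ev_e hA hB,
    smul_mul_assoc, P.e_ev, smul_mul_smul_comm, P.ee] at h1
  have hEE : (E 0 * A * B) * (E 0 * A * B) = (2 * l) • (E 0 * A * B) - (l * l) • E 0 := by
    rw [← sub_eq_zero, ← h1]
    module
  rw [P.ev_mul hA hB] at hEE
  refine ⟨(2 / l) • A - (1 / (l * l)) • (A * B * A), (J1 g E).sub_mem
    ((J1 g E).smul_mem _ hA) ((J1 g E).smul_mem _ (P.ABA h hA hB)), ?_⟩
  rw [mul_sub, sub_mul, mul_smul_comm, mul_smul_comm, smul_mul_assoc, smul_mul_assoc, hEE,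
    smul_sub, smul_smul, smul_smul]
  have e1 : 1 / (l * l) * (2 * l) = 2 / l := by field_simp
  have e2 : 1 / (l * l) * (l * l) = 1 := by field_simp
  rw [e1, e2, one_smul]
  abel

end skew

end Pool.Agent.H53Toric
end

-- from Lib.H53Toric.Core6
section

/-!
# Evaluations are scalar
-/

set_option autoImplicit false
set_option linter.unusedSectionVars false
namespace Pool.Agent.H53Toric
open Module
variable {K : Type*} [Field K] {V : Type*} [AddCommGroup V] [Module K V]
variable [IsAlgClosed K] [CharZero K] [FiniteDimensional K V]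
variable {g : Submodule K (Module.End K V)} {adj : Module.End K V →ₗ[K] Module.End K V}
  {E : Fin 4 → Module.End K V} {N M : Module.End K V} (h : Setup g adj)
  (P : Peirce g adj E N M) {A A' B B' : Module.End K V}

include P h

/-- A vector on which all evaluations are scalar. -/
theorem Peirce.exists_vec {A₀ B₀ : Module.End K V} (hA₀ : A₀ ∈ J1 g E) (hB₀ : B₀ ∈ J2 g E)
    (h0 : E 0 * A₀ * B₀ = E 0) : ∃ u : V, u ≠ 0 ∧ E 0 u = u ∧ ∀ A ∈ J1 g E, ∀ B ∈ J2 g E,
      (E 0 * A * B) u = ((rk E)⁻¹ * LinearMap.trace K V (E 0 * A * B)) • u := by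
  let W : Submodule K (Module.End K V) :=
    { carrier := {w | ∃ A ∈ J1 g E, ∃ B ∈ J2 g E,
        w = sk E (E 0 * A * B₀) + sk E (E 0 * A₀ * B)}
      add_mem' := by
        rintro _ _ ⟨A, hA, B, hB, rfl⟩ ⟨A', hA', B', hB', rfl⟩
        refine ⟨A + A', (J1 g E).add_mem hA hA', B + B', (J2 g E).add_mem hB hB', ?_⟩
        rw [mul_add, mul_add, add_mul, map_add, map_add]
        abel
      zero_mem' := ⟨0, (J1 g E).zero_mem, 0, (J2 g E).zero_mem, by simp⟩
      smul_mem' := by
        rintro c _ ⟨A, hA, B, hB, rfl⟩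
        refine ⟨c • A, (J1 g E).smul_mem c hA, c • B, (J2 g E).smul_mem c hB, ?_⟩
        simp only [mul_smul_comm, smul_mul_assoc, map_smul, smul_add] }
  have hsq : ∀ w ∈ W, w * w = 0 := by
    rintro _ ⟨A, hA, B, hB, rfl⟩
    set s := sk E (E 0 * A * B₀) with hs
    set t := sk E (E 0 * A₀ * B) with ht
    set S := sk E (E 0 * A * B) with hS
    have hz : sk E (E 0 * A₀ * B₀) = 0 := by rw [h0, P.sk_e]
    have h1 := P.sk_sq h ((J1 g E).add_mem hA₀ hA) ((J2 g E).add_mem hB₀ hB)
    have h2 := P.sk_sq h ((J1 g E).sub_mem hA₀ hA) ((J2 g E).sub_mem hB₀ hB)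
    have h3 := P.sk_sq h hA hB
    have e1 : sk E (E 0 * (A₀ + A) * (B₀ + B)) = s + t + S := by
      have : E 0 * (A₀ + A) * (B₀ + B) = E 0 * A₀ * B₀ + E 0 * A * B₀ + E 0 * A₀ * B +
          E 0 * A * B := by noncomm_ring
      rw [this, map_add, map_add, map_add, hz, zero_add]
    have e2 : sk E (E 0 * (A₀ - A) * (B₀ - B)) = S - s - t := by
      have : E 0 * (A₀ - A) * (B₀ - B) = E 0 * A₀ * B₀ - E 0 * A * B₀ - E 0 * A₀ * B +
          E 0 * A * B := by noncomm_ring
      rw [this, map_add, map_sub, map_sub, hz, zero_sub, ← hs, ← ht, ← hS]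
      abel
    rw [e1] at h1
    rw [e2] at h2
    rw [← hS] at h3
    have h4 : (2 : K) • ((s + t) * (s + t)) = 0 := by
      have e3 : (2 : K) • ((s + t) * (s + t)) = (s + t + S) * (s + t + S) +
          (S - s - t) * (S - s - t) - (S * S + S * S) := by
        rw [two_smul]; noncomm_ring
      rw [e3, h1, h2, h3]; simp
    exact (smul_eq_zero.1 h4).resolve_left (by norm_num)
  obtain ⟨u, hu, hu0, huW⟩ := common_kernel W hsq _ (LinearMap.range (E 0)) le_rfl (by
    intro h1
    have h2 := P.rk_ne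
    rw [rk, h1, finrank_bot] at h2
    exact h2 (by simp)) (by
    rintro _ ⟨A, hA, B, hB, rfl⟩ u _
    refine ⟨(sk E (E 0 * A * B₀) + sk E (E 0 * A₀ * B)) u, ?_⟩
    change (E 0 * (sk E (E 0 * A * B₀) + sk E (E 0 * A₀ * B))) u = _
    rw [mul_add, P.e_sk, P.e_sk])
  have heu : E 0 u = u := by
    obtain ⟨v, rfl⟩ := hu
    change (E 0 * E 0) v = _
    rw [P.ee]
  refine ⟨u, hu0, heu, ?_⟩
  have hsc1 : ∀ A ∈ J1 g E, ∃ c : K, (E 0 * A * B₀) u = c • u := by
    intro A hA
    have h1 := huW (sk E (E 0 * A * B₀)) ⟨A, hA, 0, (J2 g E).zero_mem, by simp⟩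
    rw [sk_apply, LinearMap.sub_apply, LinearMap.smul_apply, heu, sub_eq_zero] at h1
    exact ⟨_, h1⟩
  have hsc2 : ∀ B ∈ J2 g E, ∃ c : K, (E 0 * A₀ * B) u = c • u := by
    intro B hB
    have h1 := huW (sk E (E 0 * A₀ * B)) ⟨0, (J1 g E).zero_mem, B, hB, by simp⟩
    rw [sk_apply, LinearMap.sub_apply, LinearMap.smul_apply, heu, sub_eq_zero] at h1
    exact ⟨_, h1⟩
  intro A hA B hB
  obtain ⟨c1, hc1⟩ := hsc1 _ (P.ABA' h hA hA₀ hB)
  obtain ⟨c2, hc2⟩ := hsc1 A hA
  obtain ⟨c3, hc3⟩ := hsc2 B hB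
  have key : E 0 * A * B = E 0 * (A * B * A₀ + A₀ * B * A) * B₀ -
      (E 0 * A₀ * B) * (E 0 * A * B₀) := by
    rw [P.ev_mul hA₀ hB, mul_add, add_mul, add_sub_cancel_right, ← P.ev_mul hA hB, h0,
      P.ev_e hA hB]
  have h1 : (E 0 * A * B) u = (c1 - c3 * c2) • u := by
    rw [key, LinearMap.sub_apply, hc1, sub_smul]
    congr 1
    change (E 0 * A₀ * B) ((E 0 * A * B₀) u) = _
    rw [hc2, map_smul, hc3, smul_smul, mul_comm]
  have h2 := P.sk_sq h hA hB
  set l := (rk E)⁻¹ * LinearMap.trace K V (E 0 * A * B) with hl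
  have h3 : sk E (E 0 * A * B) u = (c1 - c3 * c2 - l) • u := by
    rw [sk_apply, LinearMap.sub_apply, h1, LinearMap.smul_apply, heu, ← hl, ← sub_smul]
  have h4 : ((c1 - c3 * c2 - l) * (c1 - c3 * c2 - l)) • u = 0 := by
    have : (sk E (E 0 * A * B) * sk E (E 0 * A * B)) u = 0 := by rw [h2]; rfl
    change sk E (E 0 * A * B) (sk E (E 0 * A * B) u) = 0 at this
    rwa [h3, map_smul, h3, smul_smul] at this
  have h5 : c1 - c3 * c2 - l = 0 := by
    rcases smul_eq_zero.1 h4 with h4 | h4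
    · exact mul_self_eq_zero.1 h4
    · exact absurd h4 hu0
  rw [h1, sub_eq_zero.1 h5]

/-- If some evaluation has nonzero trace, all evaluations are scalar. -/
theorem Peirce.scalar_of_ne (hA₁ : A' ∈ J1 g E) (hB₁ : B' ∈ J2 g E)
    (hne : LinearMap.trace K V (E 0 * A' * B') ≠ 0) (hA : A ∈ J1 g E) (hB : B ∈ J2 g E) :
    E 0 * A * B = ((rk E)⁻¹ * LinearMap.trace K V (E 0 * A * B)) • E 0 := by
  obtain ⟨A₀, hA₀, h0⟩ := P.exists_unit h hA₁ hB₁ hne
  obtain ⟨u, hu0, heu, hu⟩ := P.exists_vec h hA₀ hB₁ h0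
  let U : Submodule K V :=
    { carrier := {u | E 0 u = u ∧ ∀ A ∈ J1 g E, ∀ B ∈ J2 g E,
        (E 0 * A * B) u = ((rk E)⁻¹ * LinearMap.trace K V (E 0 * A * B)) • u}
      add_mem' := by
        rintro a b ⟨h1, h2⟩ ⟨h3, h4⟩
        refine ⟨by rw [map_add, h1, h3], fun A hA B hB => ?_⟩
        rw [map_add, h2 A hA B hB, h4 A hA B hB, smul_add]
      zero_mem' := by simp
      smul_mem' := by
        rintro c a ⟨h1, h2⟩
        refine ⟨by rw [map_smul, h1], fun A hA B hB => ?_⟩
        rw [map_smul, h2 A hA B hB, smul_comm] }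
  have hst : ∀ C ∈ g, ∀ u ∈ U, E 0 (C u) ∈ U := by
    intro C hC u hu
    refine ⟨by change (E 0 * E 0) (C u) = _; rw [P.ee], fun A hA B hB => ?_⟩
    have hC₀ := P.mC C hC
    set C₀ := E 0 * C * E 0 + E 1 * C * E 1 + E 2 * C * E 2 + E 3 * C * E 3 with hC₀d
    have c0 : E 0 * C₀ = E 0 * C * E 0 := by
      rw [hC₀d]; simp [mul_add, mul_assoc, P.mul']
    have c0' : C₀ * E 0 = E 0 * C * E 0 := by
      rw [hC₀d]; simp [add_mul, mul_assoc, P.mul]
    have c1 : E 1 * C₀ = C₀ * E 1 := by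
      rw [hC₀d]; simp [mul_add, add_mul, mul_assoc, P.mul, P.mul']
    have c2 : E 2 * C₀ = C₀ * E 2 := by
      rw [hC₀d]; simp [mul_add, add_mul, mul_assoc, P.mul, P.mul']
    have c3 : E 3 * C₀ = C₀ * E 3 := by
      rw [hC₀d]; simp [mul_add, add_mul, mul_assoc, P.mul, P.mul']
    have c00 : E 0 * C₀ = C₀ * E 0 := by rw [c0, c0']
    have hCA : C₀ * A - A * C₀ ∈ J1 g E := by
      refine ⟨h.lie _ hC₀ _ hA.1, ?_⟩
      have e1 : E 0 * (C₀ * A - A * C₀) * E 2 + E 1 * (C₀ * A - A * C₀) * E 3 =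
          C₀ * (E 0 * A * E 2 + E 1 * A * E 3) - (E 0 * A * E 2 + E 1 * A * E 3) * C₀ := by
        have f1 : E 0 * (C₀ * A - A * C₀) * E 2 = C₀ * (E 0 * A * E 2) - (E 0 * A * E 2) * C₀ := by
          calc E 0 * (C₀ * A - A * C₀) * E 2 = (E 0 * C₀) * A * E 2 - E 0 * A * (C₀ * E 2) := by
                noncomm_ring
            _ = _ := by rw [c00, ← c2]; noncomm_ring
        have f2 : E 1 * (C₀ * A - A * C₀) * E 3 = C₀ * (E 1 * A * E 3) - (E 1 * A * E 3) * C₀ := by
          calc E 1 * (C₀ * A - A * C₀) * E 3 = (E 1 * C₀) * A * E 3 - E 1 * A * (C₀ * E 3) := by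
                noncomm_ring
            _ = _ := by rw [c1, ← c3]; noncomm_ring
        rw [f1, f2]; noncomm_ring
      rw [e1, hA.2]
    have hCB : C₀ * B - B * C₀ ∈ J2 g E := by
      refine ⟨h.lie _ hC₀ _ hB.1, ?_⟩
      have e1 : E 2 * (C₀ * B - B * C₀) * E 0 + E 3 * (C₀ * B - B * C₀) * E 1 =
          C₀ * (E 2 * B * E 0 + E 3 * B * E 1) - (E 2 * B * E 0 + E 3 * B * E 1) * C₀ := by
        have f1 : E 2 * (C₀ * B - B * C₀) * E 0 = C₀ * (E 2 * B * E 0) - (E 2 * B * E 0) * C₀ := by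
          calc E 2 * (C₀ * B - B * C₀) * E 0 = (E 2 * C₀) * B * E 0 - E 2 * B * (C₀ * E 0) := by
                noncomm_ring
            _ = _ := by rw [c2, ← c00]; noncomm_ring
        have f2 : E 3 * (C₀ * B - B * C₀) * E 1 = C₀ * (E 3 * B * E 1) - (E 3 * B * E 1) * C₀ := by
          calc E 3 * (C₀ * B - B * C₀) * E 1 = (E 3 * C₀) * B * E 1 - E 3 * B * (C₀ * E 1) := by
                noncomm_ring
            _ = _ := by rw [c3, ← c1]; noncomm_ring
        rw [f1, f2]; noncomm_ring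
      rw [e1, hB.2]
    have hsum : E 0 * (C₀ * A - A * C₀) * B + E 0 * A * (C₀ * B - B * C₀) =
        (E 0 * C * E 0) * (E 0 * A * B) - (E 0 * A * B) * (E 0 * C * E 0) := by
      have f1 : (E 0 * C * E 0) * (E 0 * A * B) = E 0 * C₀ * A * B := by
        rw [← c0', ← c00]
        calc E 0 * C₀ * (E 0 * A * B) = (E 0 * C₀ * E 0) * A * B := by noncomm_ring
          _ = _ := by rw [c0, mul_assoc (E 0 * C), P.ee]
      have f2 : (E 0 * A * B) * (E 0 * C * E 0) = E 0 * A * B * C₀ := by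
        rw [← c0, ← mul_assoc, P.ev_e hA hB]
      rw [f1, f2]; noncomm_ring
    have g1 := hu.2 _ hCA B hB
    have g2 := hu.2 A hA _ hCB
    have g3 := hu.2 A hA B hB
    have g4 : LinearMap.trace K V (E 0 * (C₀ * A - A * C₀) * B) +
        LinearMap.trace K V (E 0 * A * (C₀ * B - B * C₀)) = 0 := by
      rw [← map_add, hsum, map_sub, LinearMap.trace_mul_comm, sub_self]
    have g5 : (E 0 * (C₀ * A - A * C₀) * B) u + (E 0 * A * (C₀ * B - B * C₀)) u = 0 := by
      rw [g1, g2, ← add_smul, ← mul_add, g4, mul_zero, zero_smul]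
    have g6 : (E 0 * C * E 0) ((E 0 * A * B) u) - (E 0 * A * B) ((E 0 * C * E 0) u) = 0 := by
      rw [← LinearMap.add_apply, hsum] at g5
      exact g5
    have g7 : (E 0 * C * E 0) u = E 0 (C u) := by
      change E 0 (C (E 0 u)) = _
      rw [hu.1]
    rw [g3, map_smul, g7, sub_eq_zero] at g6
    exact g6.symm
  have hUr := P.irr h (U := U) (fun u hu => hu.1) (by
    intro h1
    have : u ∈ U := ⟨heu, hu⟩
    rw [h1] at this
    exact hu0 ((Submodule.mem_bot K).1 this)) hst
  ext v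
  have h1 := (hUr v).2 A hA B hB
  rw [LinearMap.smul_apply, ← h1]
  change _ = (E 0 * A * B * E 0) v
  rw [P.ev_e hA hB]

/-- All evaluations are scalar. -/
theorem Peirce.scalar [Nontrivial V] (hA : A ∈ J1 g E) (hB : B ∈ J2 g E) :
    ∃ c : K, E 0 * A * B = c • E 0 := by
  by_cases hex : ∃ A' ∈ J1 g E, ∃ B' ∈ J2 g E, LinearMap.trace K V (E 0 * A' * B') ≠ 0
  · obtain ⟨A', hA', B', hB', hne⟩ := hex
    exact ⟨_, P.scalar_of_ne h hA' hB' hne hA hB⟩
  · push Not at hex
    have hA0 : A = 0 := by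
      apply trace_nondeg h.lie h.irr h.tr hA.1
      intro X hX
      have hBX := P.J2_mem hX
      have e1 : LinearMap.trace K V (A * X) =
          LinearMap.trace K V (A * (E 2 * X * E 0 + E 3 * X * E 1)) := by
        have f1 : A * X = E 0 * (A * E 2 * X) + E 1 * (A * E 3 * X) := by
          rw [← P.A0 hA, ← P.A1 hA]
          have f3 := P.expand_left (A * X)
          have f4 : E 2 * (A * X) = 0 := by rw [← mul_assoc, P.A2 hA, zero_mul]
          have f5 : E 3 * (A * X) = 0 := by rw [← mul_assoc, P.A3 hA, zero_mul]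
          rw [f4, f5, add_zero, add_zero] at f3
          calc A * X = E 0 * (A * X) + E 1 * (A * X) := f3
            _ = (E 0 * E 0) * A * X + (E 1 * E 1) * A * X := by
              rw [P.ee, P.mul 1 1, if_pos rfl]; noncomm_ring
            _ = _ := by noncomm_ring
        rw [f1, map_add, LinearMap.trace_mul_comm K (E 0), LinearMap.trace_mul_comm K (E 1),
          ← map_add]
        congr 1
        noncomm_ring
      rw [e1]
      set B' := E 2 * X * E 0 + E 3 * X * E 1 with hB'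
      have e2 : LinearMap.trace K V (A * B') = LinearMap.trace K V (E 0 * A * B') +
          LinearMap.trace K V (E 3 * B' * A) := by
        have f3 : A * B' = E 0 * A * B' + E 1 * A * B' := by
          have f4 := P.expand_left A
          rw [P.A2 hA, P.A3 hA, add_zero, add_zero] at f4
          nth_rw 1 [f4]
          noncomm_ring
        rw [f3, map_add]
        congr 1
        rw [P.A1 hA, mul_assoc, LinearMap.trace_mul_comm]
      rw [e2, P.tr_ev h hA hBX, hex A hA B' hBX, add_zero]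
    exact ⟨0, by rw [hA0]; simp⟩

end Pool.Agent.H53Toric
end

-- from Lib.H53Toric.Core7
section

/-!
# The corner is scalar, and the rank is one
-/

set_option autoImplicit false
set_option linter.unusedSectionVars false
namespace Pool.Agent.H53Toric
open Module
variable {K : Type*} [Field K] {V : Type*} [AddCommGroup V] [Module K V]
variable [IsAlgClosed K] [CharZero K] [FiniteDimensional K V] [Nontrivial V]
variable {g : Submodule K (Module.End K V)} {adj : Module.End K V →ₗ[K] Module.End K V}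
  {E : Fin 4 → Module.End K V} {N M : Module.End K V} (h : Setup g adj)
  (P : Peirce g adj E N M) {X X' : Module.End K V}

include P h

theorem Peirce.scal2 (hX : X ∈ g) (hX' : X' ∈ g) :
    ∃ c : K, E 0 * X * E 2 * X' * E 0 = c • E 0 := by
  obtain ⟨c, hc⟩ := P.scalar h (P.J1_mem hX) (P.J2_mem hX')
  refine ⟨c, ?_⟩
  rw [← hc]
  simp [mul_add, add_mul, mul_assoc, P.mul']

theorem Peirce.scal1 (hX : X ∈ g) (hX' : X' ∈ g) :
    ∃ c : K, E 0 * X * E 1 * X' * E 0 = c • E 0 := by
  have e1 : N * (E 1 * X' * E 0 + E 3 * X' * E 2) - (E 1 * X' * E 0 + E 3 * X' * E 2) * N =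
      N * X' * E 2 - E 1 * X' * N := by
    simp [mul_add, add_mul, mul_assoc, P.EN, P.NE']
  have e2 : M * (E 0 * X * E 1 + E 2 * X * E 3) - (E 0 * X * E 1 + E 2 * X * E 3) * M =
      M * X * E 1 - E 2 * X * M := by
    simp [mul_add, add_mul, mul_assoc, P.EM, P.ME']
  have hA : N * X' * E 2 - E 1 * X' * N ∈ J1 g E := by
    refine ⟨?_, ?_⟩
    · rw [← e1]; exact h.lie _ P.memN _ (P.mB' X' hX')
    · simp [mul_sub, sub_mul, mul_assoc, P.mul, P.mul', P.EN', P.NE]
      abel
  have hB : M * X * E 1 - E 2 * X * M ∈ J2 g E := by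
    refine ⟨?_, ?_⟩
    · rw [← e2]; exact h.lie _ P.memM _ (P.mA' X hX)
    · simp [mul_sub, sub_mul, mul_assoc, P.mul, P.mul', P.EM', P.ME]
      abel
  obtain ⟨c, hc⟩ := P.scalar h hA hB
  have h1 := P.adj_ev h hA hB
  rw [hc, map_smul, P.adj0] at h1
  have h2 : E 3 * (M * X * E 1 - E 2 * X * M) * (N * X' * E 2 - E 1 * X' * N) =
      -(M * X * E 1 * X' * N) := by
    simp [mul_sub, sub_mul, mul_assoc, P.mul', P.EM', P.EN']
  rw [h2] at h1
  refine ⟨-c, ?_⟩
  calc E 0 * X * E 1 * X' * E 0 = N * (M * X * E 1 * X' * N) * M := by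
        rw [← P.NM]; noncomm_ring
    _ = -(N * (c • E 3) * M) := by rw [h1]; noncomm_ring
    _ = (-c) • E 0 := by
      rw [mul_smul_comm, smul_mul_assoc, P.NE 3, if_pos rfl, P.NM, neg_smul]

theorem Peirce.scal3 (hX : X ∈ g) (hX' : X' ∈ g) :
    ∃ c : K, E 0 * X * E 3 * X' * E 0 = c • E 0 := by
  obtain ⟨c, hc⟩ := P.ext X hX
  obtain ⟨d, hd⟩ := P.ext' X' hX'
  refine ⟨c * d, ?_⟩
  calc E 0 * X * E 3 * X' * E 0 = (E 0 * X * E 3) * (E 3 * X' * E 0) := by
        simp [mul_assoc, P.mul']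
    _ = _ := by rw [hc, hd, smul_mul_smul_comm, P.NM]

/-- The relation between the two corners. -/
theorem Peirce.corner (hX : X ∈ g) :
    N * X * M = E 0 * X * E 0 - (2 * ((rk E)⁻¹ * LinearMap.trace K V (E 0 * X * E 0))) • E 0 := by
  have hC := P.mC X hX
  have h1 := h.lie _ hC _ P.memN
  have e1 : (E 0 * X * E 0 + E 1 * X * E 1 + E 2 * X * E 2 + E 3 * X * E 3) * N -
      N * (E 0 * X * E 0 + E 1 * X * E 1 + E 2 * X * E 2 + E 3 * X * E 3) =
      E 0 * X * N - N * X * E 3 := by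
    simp [mul_add, add_mul, mul_assoc, P.EN, P.NE']
  rw [e1] at h1
  obtain ⟨c, hc⟩ := P.ext _ h1
  have e2 : E 0 * (E 0 * X * N - N * X * E 3) * E 3 = E 0 * X * N - N * X * E 3 := by
    simp [mul_sub, sub_mul, mul_assoc, P.mul, P.mul', P.EN', P.NE]
  rw [e2] at hc
  have h2 : E 0 * X * E 0 - N * X * M = c • E 0 := by
    calc E 0 * X * E 0 - N * X * M = (E 0 * X * N - N * X * E 3) * M := by
          simp [sub_mul, mul_assoc, P.NM, P.EM]
      _ = _ := by rw [hc, smul_mul_assoc, P.NM]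
  have h3 : LinearMap.trace K V (N * X * M) = -LinearMap.trace K V (E 0 * X * E 0) := by
    rw [← h.adj_tr (E 0 * X * E 0), h.adj_mul, h.adj_mul, P.adj0, h.skew X hX, mul_assoc N,
      LinearMap.trace_mul_comm, mul_assoc, P.MN, ← map_neg]
    have : -(E 3 * (-X * E 3)) = E 3 * (X * E 3) := by noncomm_ring
    rw [this, LinearMap.trace_mul_comm K (E 3), mul_assoc, P.mul, if_pos rfl]
  have h4 := congrArg (LinearMap.trace K V) h2
  rw [map_sub, h3, map_smul, P.tr_e, smul_eq_mul] at h4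
  have hr := P.rk_ne
  have h5 : c = 2 * ((rk E)⁻¹ * LinearMap.trace K V (E 0 * X * E 0)) := by
    field_simp
    linear_combination -h4
  rw [← h5, ← h2]
  abel

/-- The square of the corner of an involution. -/
theorem Peirce.corner_sq {y : Module.End K V} (hy : y ∈ g) (hy2 : y * y = 1) :
    ∃ c1 c2 c3 : K, (E 0 * y * E 0) * (E 0 * y * E 0) = (1 - c1 - c2 - c3) • E 0 ∧
      E 0 * y * E 1 * y * E 0 = c1 • E 0 ∧ E 0 * y * E 2 * y * E 0 = c2 • E 0 ∧
      E 0 * y * E 3 * y * E 0 = c3 • E 0 := by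
  obtain ⟨c1, h1⟩ := P.scal1 h hy hy
  obtain ⟨c2, h2⟩ := P.scal2 h hy hy
  obtain ⟨c3, h3⟩ := P.scal3 h hy hy
  refine ⟨c1, c2, c3, ?_, h1, h2, h3⟩
  have e1 : E 0 = E 0 * y * (E 0 + E 1 + E 2 + E 3) * y * E 0 := by
    rw [P.sum, mul_one, mul_assoc (E 0), hy2, mul_one, P.ee]
  have e2 : E 0 * y * (E 0 + E 1 + E 2 + E 3) * y * E 0 =
      (E 0 * y * E 0) * (E 0 * y * E 0) + E 0 * y * E 1 * y * E 0 + E 0 * y * E 2 * y * E 0 +
      E 0 * y * E 3 * y * E 0 := by
    have : (E 0 * y * E 0) * (E 0 * y * E 0) = E 0 * y * E 0 * y * E 0 := by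
      simp [mul_assoc, P.mul']
    rw [this]; noncomm_ring
  rw [h1, h2, h3] at e2
  rw [e2] at e1
  have : (E 0 * y * E 0) * (E 0 * y * E 0) = E 0 - c1 • E 0 - c2 • E 0 - c3 • E 0 := by
    nth_rw 5 [e1]
    abel
  rw [this]
  module

/-- The corner of an involution is scalar or has trace zero. -/
theorem Peirce.corner_dich {y : Module.End K V} (hy : y ∈ g) (hy2 : y * y = 1) :
    LinearMap.trace K V (E 0 * y * E 0) = 0 ∨
      E 0 * y * E 0 = ((rk E)⁻¹ * LinearMap.trace K V (E 0 * y * E 0)) • E 0 := by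
  obtain ⟨c1, c2, c3, hsq, -, -, -⟩ := P.corner_sq h hy hy2
  set k := 1 - c1 - c2 - c3 with hk
  set F := E 0 * y * E 0 with hF
  set l := (rk E)⁻¹ * LinearMap.trace K V F with hl
  have hc : N * y * M = F - (2 * l) • E 0 := P.corner h hy
  have hsq' : (N * y * M) * (N * y * M) = k • E 0 := by
    have h1 := congrArg adj hsq
    rw [h.adj_mul, map_smul, P.adj0] at h1
    have h2 : adj F = -(E 3 * y * E 3) := by
      rw [hF, h.adj_mul, h.adj_mul, P.adj0, h.skew y hy]; noncomm_ring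
    rw [h2] at h1
    calc (N * y * M) * (N * y * M) = N * y * (M * N) * y * M := by noncomm_ring
      _ = N * (-(E 3 * y * E 3) * -(E 3 * y * E 3)) * M := by
        rw [P.MN]
        simp [mul_assoc, P.mul', P.NE', P.EM]
      _ = k • E 0 := by
        rw [h1, mul_smul_comm, smul_mul_assoc, P.NE 3, if_pos rfl, P.NM]
  have hFe : F * E 0 = F := by rw [hF, mul_assoc _ (E 0), P.ee]
  have heF : E 0 * F = F := by rw [hF, ← mul_assoc, ← mul_assoc, P.ee]
  rw [hc, mul_sub, sub_mul, sub_mul, hsq, mul_smul_comm, hFe, smul_mul_assoc, heF,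
    smul_mul_smul_comm, P.ee] at hsq'
  have h3 : (4 * l) • (F - l • E 0) = 0 := by
    have : (4 * l) • (F - l • E 0) = k • E 0 - (k • E 0 - (2 * l) • F -
      ((2 * l) • F - (2 * l * (2 * l)) • E 0)) := by module
    rw [this, hsq', sub_self]
  rcases smul_eq_zero.1 h3 with h4 | h4
  · left
    have h5 : l = 0 := (mul_eq_zero.1 h4).resolve_left (by norm_num)
    rw [hl] at h5
    exact (mul_eq_zero.1 h5).resolve_left (inv_ne_zero P.rk_ne)
  · right
    exact sub_eq_zero.1 h4

/-- Conjugation trick. -/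
theorem Peirce.corner_conj {y Z : Module.End K V} (hy : y ∈ g) (hy2 : y * y = 1)
    (htr : LinearMap.trace K V (E 0 * y * E 0) = 0) (hZ : Z ∈ g) (hZ2 : Z * Z = 0)
    (hEZ : E 0 * Z = 0) {k : K} (hk : k ≠ 0) (hyZ : E 0 * y * Z * E 0 = k • E 0) :
    E 0 * y * E 0 = 0 := by
  have hy' : (1 + Z) * y * (1 - Z) ∈ g := by
    have h1 := g.sub_mem (g.add_mem hy (h.lie Z hZ y hy)) (h.lie.sandwich hZ hZ2 hy)
    convert h1 using 1
    noncomm_ring
  have hy'2 : ((1 + Z) * y * (1 - Z)) * ((1 + Z) * y * (1 - Z)) = 1 := by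
    calc ((1 + Z) * y * (1 - Z)) * ((1 + Z) * y * (1 - Z)) =
        (1 + Z) * y * (1 - Z * Z) * y * (1 - Z) := by noncomm_ring
      _ = (1 + Z) * (y * y) * (1 - Z) := by rw [hZ2]; noncomm_ring
      _ = 1 - Z * Z := by rw [hy2]; noncomm_ring
      _ = 1 := by rw [hZ2, sub_zero]
  have hc : E 0 * ((1 + Z) * y * (1 - Z)) * E 0 = E 0 * y * E 0 - k • E 0 := by
    rw [← hyZ]
    calc E 0 * ((1 + Z) * y * (1 - Z)) * E 0 =
        (E 0 + E 0 * Z) * y * (1 - Z) * E 0 := by noncomm_ring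
      _ = _ := by rw [hEZ, add_zero]; noncomm_ring
  have htr' : LinearMap.trace K V (E 0 * ((1 + Z) * y * (1 - Z)) * E 0) = -k * rk E := by
    rw [hc, map_sub, htr, map_smul, P.tr_e, smul_eq_mul]; ring
  rcases P.corner_dich h hy' hy'2 with h1 | h1
  · rw [htr'] at h1
    exact absurd h1 (mul_ne_zero (neg_ne_zero.2 hk) P.rk_ne)
  · rw [htr', hc] at h1
    have hr := P.rk_ne
    have h2 : (rk E)⁻¹ * (-k * rk E) = -k := by field_simp
    rw [h2, neg_smul] at h1
    have h3 : E 0 * y * E 0 - k • E 0 + k • E 0 = 0 := by rw [h1]; simp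
    simpa using h3

/-- The corner of an involution is scalar. -/
theorem Peirce.corner_scalar {y : Module.End K V} (hy : y ∈ g) (hy2 : y * y = 1) :
    ∃ c : K, E 0 * y * E 0 = c • E 0 := by
  rcases P.corner_dich h hy hy2 with htr | h1
  swap
  · exact ⟨_, h1⟩
  refine ⟨0, ?_⟩
  rw [zero_smul]
  obtain ⟨c1, c2, c3, hsq, h1, h2, h3⟩ := P.corner_sq h hy hy2
  have hFe : (E 0 * y * E 0) * E 0 = E 0 * y * E 0 := by rw [mul_assoc _ (E 0), P.ee]
  have heF : E 0 * (E 0 * y * E 0) = E 0 * y * E 0 := by rw [← mul_assoc, ← mul_assoc, P.ee]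
  have h0 := odd_lemma P.ee heF hFe htr P.odd hsq
  have hE0 : E 0 ≠ 0 := by
    intro h4
    have := P.odd
    rw [h4, LinearMap.range_zero, finrank_bot] at this
    exact absurd this (by decide)
  have hsum : 1 - c1 - c2 - c3 = 0 := by
    rw [h0] at hsq
    rcases smul_eq_zero.1 hsq.symm with h4 | h4
    · exact h4
    · exact absurd h4 hE0
  by_cases hc1 : c1 = 0
  · by_cases hc2 : c2 = 0
    · have hc3 : c3 ≠ 0 := by
        rintro rfl
        rw [hc1, hc2] at hsum
        norm_num at hsum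
      obtain ⟨d, hd⟩ := P.ext' y hy
      have hZ : E 3 * y * E 0 ∈ g := by rw [hd]; exact g.smul_mem _ P.memM
      refine P.corner_conj h hy hy2 htr hZ ?_ ?_ hc3 ?_
      · simp [mul_assoc, P.mul']
      · simp [mul_assoc, P.mul']
      · rw [← h3]; simp [mul_assoc, P.mul]
    · refine P.corner_conj h hy hy2 htr (P.mB y hy) ?_ ?_ hc2 ?_
      · simp [mul_add, add_mul, mul_assoc, P.mul']
      · simp [mul_add, mul_assoc, P.mul']
      · rw [← h2]; simp [mul_add, add_mul, mul_assoc, P.mul]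
  · refine P.corner_conj h hy hy2 htr (P.mB' y hy) ?_ ?_ hc1 ?_
    · simp [mul_add, add_mul, mul_assoc, P.mul']
    · simp [mul_add, mul_assoc, P.mul']
    · rw [← h1]; simp [mul_add, add_mul, mul_assoc, P.mul]

/-- The corner of every element of `g` is scalar. -/
theorem Peirce.corner_all (hX : X ∈ g) : ∃ c : K, E 0 * X * E 0 = c • E 0 := by
  have key : ∀ X ∈ Submodule.span K {y | y ∈ g ∧ y * y = 1}, ∃ c : K,
      E 0 * X * E 0 = c • E 0 := by
    intro X hX
    induction hX using Submodule.span_induction with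
    | mem y hy => exact P.corner_scalar h hy.1 hy.2
    | zero => exact ⟨0, by simp⟩
    | add a b _ _ ha hb =>
      obtain ⟨c, hc⟩ := ha
      obtain ⟨d, hd⟩ := hb
      exact ⟨c + d, by rw [mul_add, add_mul, hc, hd, add_smul]⟩
    | smul c a _ ha =>
      obtain ⟨d, hd⟩ := ha
      exact ⟨c * d, by rw [mul_smul_comm, smul_mul_assoc, hd, smul_smul]⟩
  exact key X (h.span hX)

/-- The range of `E 0` is a line. -/
theorem Peirce.line : ∃ u : V, u ≠ 0 ∧ E 0 u = u ∧ ∀ v, ∃ c : K, E 0 v = c • u := by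
  have hE0 : E 0 ≠ 0 := by
    intro h4
    have := P.odd
    rw [h4, LinearMap.range_zero, finrank_bot] at this
    exact absurd this (by decide)
  obtain ⟨v, hv⟩ : ∃ v, E 0 v ≠ 0 := by
    by_contra hcon
    push Not at hcon
    exact hE0 (LinearMap.ext hcon)
  have hu : E 0 (E 0 v) = E 0 v := by
    change (E 0 * E 0) v = _
    rw [P.ee]
  refine ⟨E 0 v, hv, hu, ?_⟩
  intro w
  have := P.irr h (U := Submodule.span K {E 0 v}) (by
    intro x hx
    obtain ⟨c, rfl⟩ := Submodule.mem_span_singleton.1 hx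
    rw [map_smul, hu]) (by
    intro h1
    exact hv (Submodule.span_singleton_eq_bot.1 h1)) (by
    intro C hC x hx
    obtain ⟨c, rfl⟩ := Submodule.mem_span_singleton.1 hx
    obtain ⟨d, hd⟩ := P.corner_all h hC
    rw [map_smul, map_smul]
    apply Submodule.smul_mem
    have h1 : E 0 (C (E 0 v)) = d • E 0 v := by
      change (E 0 * C * E 0) v = _
      rw [hd]; rfl
    rw [h1]
    exact Submodule.smul_mem _ _ (Submodule.mem_span_singleton_self _)) w
  obtain ⟨c, hc⟩ := Submodule.mem_span_singleton.1 this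
  exact ⟨c, hc.symm⟩

end Pool.Agent.H53Toric
end
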